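import Pool.Agent.Strip051.G.I69_7273.CrnB
import Pool.Agent.Strip051.G.I69_7273.CG_0
import Pool.Agent.Strip051.G.I69_7273.CW_0

/-! # Aligned corners: the alternatives (generated) -/

set_option linter.all false

namespace Pool.Agent.Strip051.G.I69_7273.Tab

open Pool.Agent.Strip051.PB Pool.Agent.StripNear Pool.Agent.Strip051.LC

theorem altB_A011E_00 {κ x : ℝ} (hκ : κ * h0 = ken x) (hx : ((740881858 : ℕ) : ℝ) / S ≤ x) (hx' : x ≤ (((740881858 : ℕ) : ℝ) + (40050571 : ℕ)) / S) :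
    AltEA 3 κ (eng.v x) (1 / 20) (tnt (h0 * x) (1 / 5)) PP tK tL tC pcB (scP esg pd) [⟨0, 0, 0, 67108864⟩, ⟨1, 1, 0, 67108864⟩, ⟨2, 1, 0, 67108864⟩] 0 1 1 0 0 (sgb true) (sgb false) x := by
  have X : XR 67108864 x := XR.of hx hx' (by norm_num) (by norm_num) (by norm_num) (by norm_num)
  have hen : 0 < eng.v x := en_pos X.x0.le
  refine CornW.altA (C := cA011E) (j := (0 : Fin 6)) (k := (0 : Fin 6)) (Ef := esg) (pd := pd) (o := 1 / 20)
    (cornW_of (C := cA011E) (C0 := c0B) (En := eng) (mo := mog) (j := (0 : Fin 6)) (k := (0 : Fin 6)) (lo := 0) (hi := 0) (W := 67108864) (N0 := 3) cA011E_q (sideB hx hx') gokB (pinU hx hx') dokB X (by norm_num) (by norm_num) (l := (0 : Fin 6)) rfl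
      (gatB00 x) (gatB01 x) (gatB01 x) (datB00 x) (datB01 x) (datB01 x) ?_)
    (cornS_of (C := cA011E) (C0 := c0B) (j := (0 : Fin 6)) (k := (0 : Fin 6)) (lo := 0) (hi := 0) (W := 67108864) (N0 := 3) cA011E_q (sideB hx hx') gokB X (by norm_num) (by norm_num) (l := (0 : Fin 6)) rfl
      (gatB00 x) (gatB01 x) (gatB01 x) ?_)
    (thU (pinU hx hx')) rfl hκ (fun j q y => tC_eq j q y x) (esg_rng X.x0.le (by linarith [X.b, X.p0])).1 (mo_v x) le_rfl le_rfl
  · intro ρ a B hρ hd i h1 h2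
    fin_cases i
    · exact corW_cert (G1 := gB0q0) (G2 := gB0q1) (Ga := gB0q1) (Gb := gB1q1) (D1 := dB0q0) (D2 := dB0q1) (Da := dB0q1) (Db := dB1q1) cA011E_ok B hρ hen (gatB00 x) (gatB01 x) (fun _ => gatB01 x) (fun h => absurd h (by decide)) (datB00 x) (datB01 x) (fun _ => datB01 x) (fun h => absurd h (by decide)) hd hx hx' CW.A011E_000
    · exact absurd h2 (by norm_num)
    · exact absurd h2 (by norm_num)
    · exact absurd h2 (by norm_num)
    · exact absurd h2 (by norm_num)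
  · intro ρ a B hρ hd i h1 h2
    fin_cases i
    · exact corT_cert (G1 := gB0q0) (G2 := gB0q1) (Ga := gB0q1) (Gb := gB1q1) cA011E_ok B hρ (gatB00 x) (gatB01 x) (fun _ => gatB01 x) (fun h => absurd h (by decide)) hd hx hx' CG.A011E_000
    · exact absurd h2 (by norm_num)
    · exact absurd h2 (by norm_num)
    · exact absurd h2 (by norm_num)
    · exact absurd h2 (by norm_num)

theorem altB_A011L_00 {κ x : ℝ} (hκ : κ * h0 = ken x) (hx : ((740881858 : ℕ) : ℝ) / S ≤ x) (hx' : x ≤ (((740881858 : ℕ) : ℝ) + (40050571 : ℕ)) / S) :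
    AltEA 3 κ (eng.v x) (1 / 20) (tnt (h0 * x) (1 / 5)) PP tK tL tC pcB (scP esg pd) [⟨0, 0, 0, 67108864⟩, ⟨1, 1, 0, 67108864⟩, ⟨2, 1, 0, 67108864⟩] 0 1 1 0 0 (sgb true) (sgb true) x := by
  have X : XR 67108864 x := XR.of hx hx' (by norm_num) (by norm_num) (by norm_num) (by norm_num)
  have hen : 0 < eng.v x := en_pos X.x0.le
  refine CornW.altA (C := cA011L) (j := (0 : Fin 6)) (k := (0 : Fin 6)) (Ef := esg) (pd := pd) (o := 1 / 20)
    (cornW_of (C := cA011L) (C0 := c0B) (En := eng) (mo := mog) (j := (0 : Fin 6)) (k := (0 : Fin 6)) (lo := 3) (hi := 5) (W := 67108864) (N0 := 3) cA011L_q (sideB hx hx') gokB (pinU hx hx') dokB X (by norm_num) (by norm_num) (l := (3 : Fin 6)) rfl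
      (gatB00 x) (gatB01 x) (gatB31 x) (datB00 x) (datB01 x) (datB31 x) ?_)
    (cornS_of (C := cA011L) (C0 := c0B) (j := (0 : Fin 6)) (k := (0 : Fin 6)) (lo := 3) (hi := 5) (W := 67108864) (N0 := 3) cA011L_q (sideB hx hx') gokB X (by norm_num) (by norm_num) (l := (3 : Fin 6)) rfl
      (gatB00 x) (gatB01 x) (gatB31 x) ?_)
    (thU (pinU hx hx')) rfl hκ (fun j q y => tC_eq j q y x) (esg_rng X.x0.le (by linarith [X.b, X.p0])).1 (mo_v x) le_rfl le_rfl
  · intro ρ a B hρ hd i h1 h2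
    fin_cases i
    · exact absurd h1 (by norm_num)
    · exact absurd h1 (by norm_num)
    · exact corW_cert (G1 := gB0q0) (G2 := gB0q1) (Ga := gB2q1) (Gb := gB3q1) (D1 := dB0q0) (D2 := dB0q1) (Da := dB2q1) (Db := dB3q1) cA011L_ok B hρ hen (gatB00 x) (gatB01 x) (fun h => absurd h (by decide)) (fun _ => gatB31 x) (datB00 x) (datB01 x) (fun h => absurd h (by decide)) (fun _ => datB31 x) hd hx hx' CW.A011L_002
    · exact corW_cert (G1 := gB0q0) (G2 := gB0q1) (Ga := gB3q1) (Gb := gB4q1) (D1 := dB0q0) (D2 := dB0q1) (Da := dB3q1) (Db := dB4q1) cA011L_ok B hρ hen (gatB00 x) (gatB01 x) (fun _ => gatB31 x) (fun _ => gatB41 x) (datB00 x) (datB01 x) (fun _ => datB31 x) (fun _ => datB41 x) hd hx hx' CW.A011L_003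
    · exact corW_cert (G1 := gB0q0) (G2 := gB0q1) (Ga := gB4q1) (Gb := gB5q1) (D1 := dB0q0) (D2 := dB0q1) (Da := dB4q1) (Db := dB5q1) cA011L_ok B hρ hen (gatB00 x) (gatB01 x) (fun _ => gatB41 x) (fun _ => gatB51 x) (datB00 x) (datB01 x) (fun _ => datB41 x) (fun _ => datB51 x) hd hx hx' CW.A011L_004
  · intro ρ a B hρ hd i h1 h2
    fin_cases i
    · exact absurd h1 (by norm_num)
    · exact absurd h1 (by norm_num)
    · exact corT_cert (G1 := gB0q0) (G2 := gB0q1) (Ga := gB2q1) (Gb := gB3q1) cA011L_ok B hρ (gatB00 x) (gatB01 x) (fun h => absurd h (by decide)) (fun _ => gatB31 x) hd hx hx' CG.A011L_002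
    · exact corT_cert (G1 := gB0q0) (G2 := gB0q1) (Ga := gB3q1) (Gb := gB4q1) cA011L_ok B hρ (gatB00 x) (gatB01 x) (fun _ => gatB31 x) (fun _ => gatB41 x) hd hx hx' CG.A011L_003
    · exact corT_cert (G1 := gB0q0) (G2 := gB0q1) (Ga := gB4q1) (Gb := gB5q1) cA011L_ok B hρ (gatB00 x) (gatB01 x) (fun _ => gatB41 x) (fun _ => gatB51 x) hd hx hx' CG.A011L_004

theorem altB_A011R_03 {κ x : ℝ} (hκ : κ * h0 = ken x) (hx : ((740881858 : ℕ) : ℝ) / S ≤ x) (hx' : x ≤ (((740881858 : ℕ) : ℝ) + (40050571 : ℕ)) / S) :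
    AltEA 3 κ (eng.v x) (1 / 20) (tnt (h0 * x) (1 / 5)) PP tK tL tC pcB (scP esg pd) [⟨0, 0, 0, 67108864⟩, ⟨1, 1, 0, 67108864⟩, ⟨2, 1, 0, 67108864⟩] 0 1 1 0 3 (sgb true) (sgb false) x := by
  have X : XR 67108864 x := XR.of hx hx' (by norm_num) (by norm_num) (by norm_num) (by norm_num)
  have hen : 0 < eng.v x := en_pos X.x0.le
  refine CornW.altA (C := cA011R) (j := (0 : Fin 6)) (k := (3 : Fin 6)) (Ef := esg) (pd := pd) (o := 1 / 20)
    (cornW_of (C := cA011R) (C0 := c0B) (En := eng) (mo := mog) (j := (0 : Fin 6)) (k := (3 : Fin 6)) (lo := 0) (hi := 0) (W := 67108864) (N0 := 3) cA011R_q (sideB hx hx') gokB (pinU hx hx') dokB X (by norm_num) (by norm_num) (l := (0 : Fin 6)) rfl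
      (gatB00 x) (gatB31 x) (gatB01 x) (datB00 x) (datB31 x) (datB01 x) ?_)
    (cornS_of (C := cA011R) (C0 := c0B) (j := (0 : Fin 6)) (k := (3 : Fin 6)) (lo := 0) (hi := 0) (W := 67108864) (N0 := 3) cA011R_q (sideB hx hx') gokB X (by norm_num) (by norm_num) (l := (0 : Fin 6)) rfl
      (gatB00 x) (gatB31 x) (gatB01 x) ?_)
    (thU (pinU hx hx')) rfl hκ (fun j q y => tC_eq j q y x) (esg_rng X.x0.le (by linarith [X.b, X.p0])).1 (mo_v x) le_rfl le_rfl
  · intro ρ a B hρ hd i h1 h2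
    fin_cases i
    · exact corW_cert (G1 := gB0q0) (G2 := gB3q1) (Ga := gB0q1) (Gb := gB1q1) (D1 := dB0q0) (D2 := dB3q1) (Da := dB0q1) (Db := dB1q1) cA011R_ok B hρ hen (gatB00 x) (gatB31 x) (fun _ => gatB01 x) (fun h => absurd h (by decide)) (datB00 x) (datB31 x) (fun _ => datB01 x) (fun h => absurd h (by decide)) hd hx hx' CW.A011R_030
    · exact absurd h2 (by norm_num)
    · exact absurd h2 (by norm_num)
    · exact absurd h2 (by norm_num)
    · exact absurd h2 (by norm_num)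
  · intro ρ a B hρ hd i h1 h2
    fin_cases i
    · exact corT_cert (G1 := gB0q0) (G2 := gB3q1) (Ga := gB0q1) (Gb := gB1q1) cA011R_ok B hρ (gatB00 x) (gatB31 x) (fun _ => gatB01 x) (fun h => absurd h (by decide)) hd hx hx' CG.A011R_030
    · exact absurd h2 (by norm_num)
    · exact absurd h2 (by norm_num)
    · exact absurd h2 (by norm_num)
    · exact absurd h2 (by norm_num)

theorem altB_A011R_04 {κ x : ℝ} (hκ : κ * h0 = ken x) (hx : ((740881858 : ℕ) : ℝ) / S ≤ x) (hx' : x ≤ (((740881858 : ℕ) : ℝ) + (40050571 : ℕ)) / S) :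
    AltEA 3 κ (eng.v x) (1 / 20) (tnt (h0 * x) (1 / 5)) PP tK tL tC pcB (scP esg pd) [⟨0, 0, 0, 67108864⟩, ⟨1, 1, 0, 67108864⟩, ⟨2, 1, 0, 67108864⟩] 0 1 1 0 4 (sgb true) (sgb false) x := by
  have X : XR 67108864 x := XR.of hx hx' (by norm_num) (by norm_num) (by norm_num) (by norm_num)
  have hen : 0 < eng.v x := en_pos X.x0.le
  refine CornW.altA (C := cA011R) (j := (0 : Fin 6)) (k := (4 : Fin 6)) (Ef := esg) (pd := pd) (o := 1 / 20)
    (cornW_of (C := cA011R) (C0 := c0B) (En := eng) (mo := mog) (j := (0 : Fin 6)) (k := (4 : Fin 6)) (lo := 0) (hi := 0) (W := 67108864) (N0 := 3) cA011R_q (sideB hx hx') gokB (pinU hx hx') dokB X (by norm_num) (by norm_num) (l := (0 : Fin 6)) rfl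
      (gatB00 x) (gatB41 x) (gatB01 x) (datB00 x) (datB41 x) (datB01 x) ?_)
    (cornS_of (C := cA011R) (C0 := c0B) (j := (0 : Fin 6)) (k := (4 : Fin 6)) (lo := 0) (hi := 0) (W := 67108864) (N0 := 3) cA011R_q (sideB hx hx') gokB X (by norm_num) (by norm_num) (l := (0 : Fin 6)) rfl
      (gatB00 x) (gatB41 x) (gatB01 x) ?_)
    (thU (pinU hx hx')) rfl hκ (fun j q y => tC_eq j q y x) (esg_rng X.x0.le (by linarith [X.b, X.p0])).1 (mo_v x) le_rfl le_rfl
  · intro ρ a B hρ hd i h1 h2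
    fin_cases i
    · exact corW_cert (G1 := gB0q0) (G2 := gB4q1) (Ga := gB0q1) (Gb := gB1q1) (D1 := dB0q0) (D2 := dB4q1) (Da := dB0q1) (Db := dB1q1) cA011R_ok B hρ hen (gatB00 x) (gatB41 x) (fun _ => gatB01 x) (fun h => absurd h (by decide)) (datB00 x) (datB41 x) (fun _ => datB01 x) (fun h => absurd h (by decide)) hd hx hx' CW.A011R_040
    · exact absurd h2 (by norm_num)
    · exact absurd h2 (by norm_num)
    · exact absurd h2 (by norm_num)
    · exact absurd h2 (by norm_num)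
  · intro ρ a B hρ hd i h1 h2
    fin_cases i
    · exact corT_cert (G1 := gB0q0) (G2 := gB4q1) (Ga := gB0q1) (Gb := gB1q1) cA011R_ok B hρ (gatB00 x) (gatB41 x) (fun _ => gatB01 x) (fun h => absurd h (by decide)) hd hx hx' CG.A011R_040
    · exact absurd h2 (by norm_num)
    · exact absurd h2 (by norm_num)
    · exact absurd h2 (by norm_num)
    · exact absurd h2 (by norm_num)

theorem altB_A011R_05 {κ x : ℝ} (hκ : κ * h0 = ken x) (hx : ((740881858 : ℕ) : ℝ) / S ≤ x) (hx' : x ≤ (((740881858 : ℕ) : ℝ) + (40050571 : ℕ)) / S) :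
    AltEA 3 κ (eng.v x) (1 / 20) (tnt (h0 * x) (1 / 5)) PP tK tL tC pcB (scP esg pd) [⟨0, 0, 0, 67108864⟩, ⟨1, 1, 0, 67108864⟩, ⟨2, 1, 0, 67108864⟩] 0 1 1 0 5 (sgb true) (sgb false) x := by
  have X : XR 67108864 x := XR.of hx hx' (by norm_num) (by norm_num) (by norm_num) (by norm_num)
  have hen : 0 < eng.v x := en_pos X.x0.le
  refine CornW.altA (C := cA011R) (j := (0 : Fin 6)) (k := (5 : Fin 6)) (Ef := esg) (pd := pd) (o := 1 / 20)
    (cornW_of (C := cA011R) (C0 := c0B) (En := eng) (mo := mog) (j := (0 : Fin 6)) (k := (5 : Fin 6)) (lo := 0) (hi := 0) (W := 67108864) (N0 := 3) cA011R_q (sideB hx hx') gokB (pinU hx hx') dokB X (by norm_num) (by norm_num) (l := (0 : Fin 6)) rfl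
      (gatB00 x) (gatB51 x) (gatB01 x) (datB00 x) (datB51 x) (datB01 x) ?_)
    (cornS_of (C := cA011R) (C0 := c0B) (j := (0 : Fin 6)) (k := (5 : Fin 6)) (lo := 0) (hi := 0) (W := 67108864) (N0 := 3) cA011R_q (sideB hx hx') gokB X (by norm_num) (by norm_num) (l := (0 : Fin 6)) rfl
      (gatB00 x) (gatB51 x) (gatB01 x) ?_)
    (thU (pinU hx hx')) rfl hκ (fun j q y => tC_eq j q y x) (esg_rng X.x0.le (by linarith [X.b, X.p0])).1 (mo_v x) le_rfl le_rfl
  · intro ρ a B hρ hd i h1 h2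
    fin_cases i
    · exact corW_cert (G1 := gB0q0) (G2 := gB5q1) (Ga := gB0q1) (Gb := gB1q1) (D1 := dB0q0) (D2 := dB5q1) (Da := dB0q1) (Db := dB1q1) cA011R_ok B hρ hen (gatB00 x) (gatB51 x) (fun _ => gatB01 x) (fun h => absurd h (by decide)) (datB00 x) (datB51 x) (fun _ => datB01 x) (fun h => absurd h (by decide)) hd hx hx' CW.A011R_050
    · exact absurd h2 (by norm_num)
    · exact absurd h2 (by norm_num)
    · exact absurd h2 (by norm_num)
    · exact absurd h2 (by norm_num)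
  · intro ρ a B hρ hd i h1 h2
    fin_cases i
    · exact corX_cert (G1 := gB0q0) (G2 := gB5q1) (Ga := gB0q1) (Gb := gB1q1) (GT := gB0q1) cA011R_ok tA011R_ok B hρ (gatB00 x) (gatB51 x) (fun _ => gatB01 x) (fun h => absurd h (by decide)) rfl (tgh_A011R (kodd x) (gpu0 x) (gpt1 x) (gpu1 x) (gatB00 x) (gatB51 x) (gatB01 x) B (le_sixteenth hd (by norm_num))) hd hx hx' CG.A011R_050
    · exact absurd h2 (by norm_num)
    · exact absurd h2 (by norm_num)
    · exact absurd h2 (by norm_num)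
    · exact absurd h2 (by norm_num)

theorem altB_A011R_13 {κ x : ℝ} (hκ : κ * h0 = ken x) (hx : ((740881858 : ℕ) : ℝ) / S ≤ x) (hx' : x ≤ (((740881858 : ℕ) : ℝ) + (40050571 : ℕ)) / S) :
    AltEA 3 κ (eng.v x) (1 / 20) (tnt (h0 * x) (1 / 5)) PP tK tL tC pcB (scP esg pd) [⟨0, 0, 0, 67108864⟩, ⟨1, 1, 0, 67108864⟩, ⟨2, 1, 0, 67108864⟩] 0 1 1 1 3 (sgb true) (sgb false) x := by
  have X : XR 67108864 x := XR.of hx hx' (by norm_num) (by norm_num) (by norm_num) (by norm_num)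
  have hen : 0 < eng.v x := en_pos X.x0.le
  refine CornW.altA (C := cA011R) (j := (1 : Fin 6)) (k := (3 : Fin 6)) (Ef := esg) (pd := pd) (o := 1 / 20)
    (cornW_of (C := cA011R) (C0 := c0B) (En := eng) (mo := mog) (j := (1 : Fin 6)) (k := (3 : Fin 6)) (lo := 0) (hi := 0) (W := 67108864) (N0 := 3) cA011R_q (sideB hx hx') gokB (pinU hx hx') dokB X (by norm_num) (by norm_num) (l := (0 : Fin 6)) rfl
      (gatB10 x) (gatB31 x) (gatB01 x) (datB10 x) (datB31 x) (datB01 x) ?_)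
    (cornS_of (C := cA011R) (C0 := c0B) (j := (1 : Fin 6)) (k := (3 : Fin 6)) (lo := 0) (hi := 0) (W := 67108864) (N0 := 3) cA011R_q (sideB hx hx') gokB X (by norm_num) (by norm_num) (l := (0 : Fin 6)) rfl
      (gatB10 x) (gatB31 x) (gatB01 x) ?_)
    (thU (pinU hx hx')) rfl hκ (fun j q y => tC_eq j q y x) (esg_rng X.x0.le (by linarith [X.b, X.p0])).1 (mo_v x) le_rfl le_rfl
  · intro ρ a B hρ hd i h1 h2
    fin_cases i
    · exact corW_cert (G1 := gB1q0) (G2 := gB3q1) (Ga := gB0q1) (Gb := gB1q1) (D1 := dB1q0) (D2 := dB3q1) (Da := dB0q1) (Db := dB1q1) cA011R_ok B hρ hen (gatB10 x) (gatB31 x) (fun _ => gatB01 x) (fun h => absurd h (by decide)) (datB10 x) (datB31 x) (fun _ => datB01 x) (fun h => absurd h (by decide)) hd hx hx' CW.A011R_130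
    · exact absurd h2 (by norm_num)
    · exact absurd h2 (by norm_num)
    · exact absurd h2 (by norm_num)
    · exact absurd h2 (by norm_num)
  · intro ρ a B hρ hd i h1 h2
    fin_cases i
    · exact corT_cert (G1 := gB1q0) (G2 := gB3q1) (Ga := gB0q1) (Gb := gB1q1) cA011R_ok B hρ (gatB10 x) (gatB31 x) (fun _ => gatB01 x) (fun h => absurd h (by decide)) hd hx hx' CG.A011R_130
    · exact absurd h2 (by norm_num)
    · exact absurd h2 (by norm_num)
    · exact absurd h2 (by norm_num)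
    · exact absurd h2 (by norm_num)

theorem altB_A011R_14 {κ x : ℝ} (hκ : κ * h0 = ken x) (hx : ((740881858 : ℕ) : ℝ) / S ≤ x) (hx' : x ≤ (((740881858 : ℕ) : ℝ) + (40050571 : ℕ)) / S) :
    AltEA 3 κ (eng.v x) (1 / 20) (tnt (h0 * x) (1 / 5)) PP tK tL tC pcB (scP esg pd) [⟨0, 0, 0, 67108864⟩, ⟨1, 1, 0, 67108864⟩, ⟨2, 1, 0, 67108864⟩] 0 1 1 1 4 (sgb true) (sgb false) x := by
  have X : XR 67108864 x := XR.of hx hx' (by norm_num) (by norm_num) (by norm_num) (by norm_num)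
  have hen : 0 < eng.v x := en_pos X.x0.le
  refine CornW.altA (C := cA011R) (j := (1 : Fin 6)) (k := (4 : Fin 6)) (Ef := esg) (pd := pd) (o := 1 / 20)
    (cornW_of (C := cA011R) (C0 := c0B) (En := eng) (mo := mog) (j := (1 : Fin 6)) (k := (4 : Fin 6)) (lo := 0) (hi := 0) (W := 67108864) (N0 := 3) cA011R_q (sideB hx hx') gokB (pinU hx hx') dokB X (by norm_num) (by norm_num) (l := (0 : Fin 6)) rfl
      (gatB10 x) (gatB41 x) (gatB01 x) (datB10 x) (datB41 x) (datB01 x) ?_)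
    (cornS_of (C := cA011R) (C0 := c0B) (j := (1 : Fin 6)) (k := (4 : Fin 6)) (lo := 0) (hi := 0) (W := 67108864) (N0 := 3) cA011R_q (sideB hx hx') gokB X (by norm_num) (by norm_num) (l := (0 : Fin 6)) rfl
      (gatB10 x) (gatB41 x) (gatB01 x) ?_)
    (thU (pinU hx hx')) rfl hκ (fun j q y => tC_eq j q y x) (esg_rng X.x0.le (by linarith [X.b, X.p0])).1 (mo_v x) le_rfl le_rfl
  · intro ρ a B hρ hd i h1 h2
    fin_cases i
    · exact corW_cert (G1 := gB1q0) (G2 := gB4q1) (Ga := gB0q1) (Gb := gB1q1) (D1 := dB1q0) (D2 := dB4q1) (Da := dB0q1) (Db := dB1q1) cA011R_ok B hρ hen (gatB10 x) (gatB41 x) (fun _ => gatB01 x) (fun h => absurd h (by decide)) (datB10 x) (datB41 x) (fun _ => datB01 x) (fun h => absurd h (by decide)) hd hx hx' CW.A011R_140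
    · exact absurd h2 (by norm_num)
    · exact absurd h2 (by norm_num)
    · exact absurd h2 (by norm_num)
    · exact absurd h2 (by norm_num)
  · intro ρ a B hρ hd i h1 h2
    fin_cases i
    · exact corT_cert (G1 := gB1q0) (G2 := gB4q1) (Ga := gB0q1) (Gb := gB1q1) cA011R_ok B hρ (gatB10 x) (gatB41 x) (fun _ => gatB01 x) (fun h => absurd h (by decide)) hd hx hx' CG.A011R_140
    · exact absurd h2 (by norm_num)
    · exact absurd h2 (by norm_num)
    · exact absurd h2 (by norm_num)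
    · exact absurd h2 (by norm_num)

theorem altB_A011R_15 {κ x : ℝ} (hκ : κ * h0 = ken x) (hx : ((740881858 : ℕ) : ℝ) / S ≤ x) (hx' : x ≤ (((740881858 : ℕ) : ℝ) + (40050571 : ℕ)) / S) :
    AltEA 3 κ (eng.v x) (1 / 20) (tnt (h0 * x) (1 / 5)) PP tK tL tC pcB (scP esg pd) [⟨0, 0, 0, 67108864⟩, ⟨1, 1, 0, 67108864⟩, ⟨2, 1, 0, 67108864⟩] 0 1 1 1 5 (sgb true) (sgb false) x := by
  have X : XR 67108864 x := XR.of hx hx' (by norm_num) (by norm_num) (by norm_num) (by norm_num)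
  have hen : 0 < eng.v x := en_pos X.x0.le
  refine CornW.altA (C := cA011R) (j := (1 : Fin 6)) (k := (5 : Fin 6)) (Ef := esg) (pd := pd) (o := 1 / 20)
    (cornW_of (C := cA011R) (C0 := c0B) (En := eng) (mo := mog) (j := (1 : Fin 6)) (k := (5 : Fin 6)) (lo := 0) (hi := 0) (W := 67108864) (N0 := 3) cA011R_q (sideB hx hx') gokB (pinU hx hx') dokB X (by norm_num) (by norm_num) (l := (0 : Fin 6)) rfl
      (gatB10 x) (gatB51 x) (gatB01 x) (datB10 x) (datB51 x) (datB01 x) ?_)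
    (cornS_of (C := cA011R) (C0 := c0B) (j := (1 : Fin 6)) (k := (5 : Fin 6)) (lo := 0) (hi := 0) (W := 67108864) (N0 := 3) cA011R_q (sideB hx hx') gokB X (by norm_num) (by norm_num) (l := (0 : Fin 6)) rfl
      (gatB10 x) (gatB51 x) (gatB01 x) ?_)
    (thU (pinU hx hx')) rfl hκ (fun j q y => tC_eq j q y x) (esg_rng X.x0.le (by linarith [X.b, X.p0])).1 (mo_v x) le_rfl le_rfl
  · intro ρ a B hρ hd i h1 h2
    fin_cases i
    · exact corW_cert (G1 := gB1q0) (G2 := gB5q1) (Ga := gB0q1) (Gb := gB1q1) (D1 := dB1q0) (D2 := dB5q1) (Da := dB0q1) (Db := dB1q1) cA011R_ok B hρ hen (gatB10 x) (gatB51 x) (fun _ => gatB01 x) (fun h => absurd h (by decide)) (datB10 x) (datB51 x) (fun _ => datB01 x) (fun h => absurd h (by decide)) hd hx hx' CW.A011R_150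
    · exact absurd h2 (by norm_num)
    · exact absurd h2 (by norm_num)
    · exact absurd h2 (by norm_num)
    · exact absurd h2 (by norm_num)
  · intro ρ a B hρ hd i h1 h2
    fin_cases i
    · exact corT_cert (G1 := gB1q0) (G2 := gB5q1) (Ga := gB0q1) (Gb := gB1q1) cA011R_ok B hρ (gatB10 x) (gatB51 x) (fun _ => gatB01 x) (fun h => absurd h (by decide)) hd hx hx' CG.A011R_150
    · exact absurd h2 (by norm_num)
    · exact absurd h2 (by norm_num)
    · exact absurd h2 (by norm_num)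
    · exact absurd h2 (by norm_num)

theorem altB_A011R_23 {κ x : ℝ} (hκ : κ * h0 = ken x) (hx : ((740881858 : ℕ) : ℝ) / S ≤ x) (hx' : x ≤ (((740881858 : ℕ) : ℝ) + (40050571 : ℕ)) / S) :
    AltEA 3 κ (eng.v x) (1 / 20) (tnt (h0 * x) (1 / 5)) PP tK tL tC pcB (scP esg pd) [⟨0, 0, 0, 67108864⟩, ⟨1, 1, 0, 67108864⟩, ⟨2, 1, 0, 67108864⟩] 0 1 1 2 3 (sgb true) (sgb false) x := by
  have X : XR 67108864 x := XR.of hx hx' (by norm_num) (by norm_num) (by norm_num) (by norm_num)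
  have hen : 0 < eng.v x := en_pos X.x0.le
  refine CornW.altA (C := cA011R) (j := (2 : Fin 6)) (k := (3 : Fin 6)) (Ef := esg) (pd := pd) (o := 1 / 20)
    (cornW_of (C := cA011R) (C0 := c0B) (En := eng) (mo := mog) (j := (2 : Fin 6)) (k := (3 : Fin 6)) (lo := 0) (hi := 0) (W := 67108864) (N0 := 3) cA011R_q (sideB hx hx') gokB (pinU hx hx') dokB X (by norm_num) (by norm_num) (l := (0 : Fin 6)) rfl
      (gatB20 x) (gatB31 x) (gatB01 x) (datB20 x) (datB31 x) (datB01 x) ?_)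
    (cornS_of (C := cA011R) (C0 := c0B) (j := (2 : Fin 6)) (k := (3 : Fin 6)) (lo := 0) (hi := 0) (W := 67108864) (N0 := 3) cA011R_q (sideB hx hx') gokB X (by norm_num) (by norm_num) (l := (0 : Fin 6)) rfl
      (gatB20 x) (gatB31 x) (gatB01 x) ?_)
    (thU (pinU hx hx')) rfl hκ (fun j q y => tC_eq j q y x) (esg_rng X.x0.le (by linarith [X.b, X.p0])).1 (mo_v x) le_rfl le_rfl
  · intro ρ a B hρ hd i h1 h2
    fin_cases i
    · exact corW_cert (G1 := gB2q0) (G2 := gB3q1) (Ga := gB0q1) (Gb := gB1q1) (D1 := dB2q0) (D2 := dB3q1) (Da := dB0q1) (Db := dB1q1) cA011R_ok B hρ hen (gatB20 x) (gatB31 x) (fun _ => gatB01 x) (fun h => absurd h (by decide)) (datB20 x) (datB31 x) (fun _ => datB01 x) (fun h => absurd h (by decide)) hd hx hx' CW.A011R_230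
    · exact absurd h2 (by norm_num)
    · exact absurd h2 (by norm_num)
    · exact absurd h2 (by norm_num)
    · exact absurd h2 (by norm_num)
  · intro ρ a B hρ hd i h1 h2
    fin_cases i
    · exact corT_cert (G1 := gB2q0) (G2 := gB3q1) (Ga := gB0q1) (Gb := gB1q1) cA011R_ok B hρ (gatB20 x) (gatB31 x) (fun _ => gatB01 x) (fun h => absurd h (by decide)) hd hx hx' CG.A011R_230
    · exact absurd h2 (by norm_num)
    · exact absurd h2 (by norm_num)
    · exact absurd h2 (by norm_num)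
    · exact absurd h2 (by norm_num)

theorem altB_A011R_24 {κ x : ℝ} (hκ : κ * h0 = ken x) (hx : ((740881858 : ℕ) : ℝ) / S ≤ x) (hx' : x ≤ (((740881858 : ℕ) : ℝ) + (40050571 : ℕ)) / S) :
    AltEA 3 κ (eng.v x) (1 / 20) (tnt (h0 * x) (1 / 5)) PP tK tL tC pcB (scP esg pd) [⟨0, 0, 0, 67108864⟩, ⟨1, 1, 0, 67108864⟩, ⟨2, 1, 0, 67108864⟩] 0 1 1 2 4 (sgb true) (sgb false) x := by
  have X : XR 67108864 x := XR.of hx hx' (by norm_num) (by norm_num) (by norm_num) (by norm_num)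
  have hen : 0 < eng.v x := en_pos X.x0.le
  refine CornW.altA (C := cA011R) (j := (2 : Fin 6)) (k := (4 : Fin 6)) (Ef := esg) (pd := pd) (o := 1 / 20)
    (cornW_of (C := cA011R) (C0 := c0B) (En := eng) (mo := mog) (j := (2 : Fin 6)) (k := (4 : Fin 6)) (lo := 0) (hi := 0) (W := 67108864) (N0 := 3) cA011R_q (sideB hx hx') gokB (pinU hx hx') dokB X (by norm_num) (by norm_num) (l := (0 : Fin 6)) rfl
      (gatB20 x) (gatB41 x) (gatB01 x) (datB20 x) (datB41 x) (datB01 x) ?_)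
    (cornS_of (C := cA011R) (C0 := c0B) (j := (2 : Fin 6)) (k := (4 : Fin 6)) (lo := 0) (hi := 0) (W := 67108864) (N0 := 3) cA011R_q (sideB hx hx') gokB X (by norm_num) (by norm_num) (l := (0 : Fin 6)) rfl
      (gatB20 x) (gatB41 x) (gatB01 x) ?_)
    (thU (pinU hx hx')) rfl hκ (fun j q y => tC_eq j q y x) (esg_rng X.x0.le (by linarith [X.b, X.p0])).1 (mo_v x) le_rfl le_rfl
  · intro ρ a B hρ hd i h1 h2
    fin_cases i
    · exact corW_cert (G1 := gB2q0) (G2 := gB4q1) (Ga := gB0q1) (Gb := gB1q1) (D1 := dB2q0) (D2 := dB4q1) (Da := dB0q1) (Db := dB1q1) cA011R_ok B hρ hen (gatB20 x) (gatB41 x) (fun _ => gatB01 x) (fun h => absurd h (by decide)) (datB20 x) (datB41 x) (fun _ => datB01 x) (fun h => absurd h (by decide)) hd hx hx' CW.A011R_240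
    · exact absurd h2 (by norm_num)
    · exact absurd h2 (by norm_num)
    · exact absurd h2 (by norm_num)
    · exact absurd h2 (by norm_num)
  · intro ρ a B hρ hd i h1 h2
    fin_cases i
    · exact corT_cert (G1 := gB2q0) (G2 := gB4q1) (Ga := gB0q1) (Gb := gB1q1) cA011R_ok B hρ (gatB20 x) (gatB41 x) (fun _ => gatB01 x) (fun h => absurd h (by decide)) hd hx hx' CG.A011R_240
    · exact absurd h2 (by norm_num)
    · exact absurd h2 (by norm_num)
    · exact absurd h2 (by norm_num)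
    · exact absurd h2 (by norm_num)

theorem altB_A011R_25 {κ x : ℝ} (hκ : κ * h0 = ken x) (hx : ((740881858 : ℕ) : ℝ) / S ≤ x) (hx' : x ≤ (((740881858 : ℕ) : ℝ) + (40050571 : ℕ)) / S) :
    AltEA 3 κ (eng.v x) (1 / 20) (tnt (h0 * x) (1 / 5)) PP tK tL tC pcB (scP esg pd) [⟨0, 0, 0, 67108864⟩, ⟨1, 1, 0, 67108864⟩, ⟨2, 1, 0, 67108864⟩] 0 1 1 2 5 (sgb true) (sgb false) x := by
  have X : XR 67108864 x := XR.of hx hx' (by norm_num) (by norm_num) (by norm_num) (by norm_num)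
  have hen : 0 < eng.v x := en_pos X.x0.le
  refine CornW.altA (C := cA011R) (j := (2 : Fin 6)) (k := (5 : Fin 6)) (Ef := esg) (pd := pd) (o := 1 / 20)
    (cornW_of (C := cA011R) (C0 := c0B) (En := eng) (mo := mog) (j := (2 : Fin 6)) (k := (5 : Fin 6)) (lo := 0) (hi := 0) (W := 67108864) (N0 := 3) cA011R_q (sideB hx hx') gokB (pinU hx hx') dokB X (by norm_num) (by norm_num) (l := (0 : Fin 6)) rfl
      (gatB20 x) (gatB51 x) (gatB01 x) (datB20 x) (datB51 x) (datB01 x) ?_)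
    (cornS_of (C := cA011R) (C0 := c0B) (j := (2 : Fin 6)) (k := (5 : Fin 6)) (lo := 0) (hi := 0) (W := 67108864) (N0 := 3) cA011R_q (sideB hx hx') gokB X (by norm_num) (by norm_num) (l := (0 : Fin 6)) rfl
      (gatB20 x) (gatB51 x) (gatB01 x) ?_)
    (thU (pinU hx hx')) rfl hκ (fun j q y => tC_eq j q y x) (esg_rng X.x0.le (by linarith [X.b, X.p0])).1 (mo_v x) le_rfl le_rfl
  · intro ρ a B hρ hd i h1 h2
    fin_cases i
    · exact corW_cert (G1 := gB2q0) (G2 := gB5q1) (Ga := gB0q1) (Gb := gB1q1) (D1 := dB2q0) (D2 := dB5q1) (Da := dB0q1) (Db := dB1q1) cA011R_ok B hρ hen (gatB20 x) (gatB51 x) (fun _ => gatB01 x) (fun h => absurd h (by decide)) (datB20 x) (datB51 x) (fun _ => datB01 x) (fun h => absurd h (by decide)) hd hx hx' CW.A011R_250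
    · exact absurd h2 (by norm_num)
    · exact absurd h2 (by norm_num)
    · exact absurd h2 (by norm_num)
    · exact absurd h2 (by norm_num)
  · intro ρ a B hρ hd i h1 h2
    fin_cases i
    · exact corT_cert (G1 := gB2q0) (G2 := gB5q1) (Ga := gB0q1) (Gb := gB1q1) cA011R_ok B hρ (gatB20 x) (gatB51 x) (fun _ => gatB01 x) (fun h => absurd h (by decide)) hd hx hx' CG.A011R_250
    · exact absurd h2 (by norm_num)
    · exact absurd h2 (by norm_num)
    · exact absurd h2 (by norm_num)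
    · exact absurd h2 (by norm_num)

theorem altB_A012E_00 {κ x : ℝ} (hκ : κ * h0 = ken x) (hx : ((740881858 : ℕ) : ℝ) / S ≤ x) (hx' : x ≤ (((740881858 : ℕ) : ℝ) + (40050571 : ℕ)) / S) :
    AltEA 3 κ (eng.v x) (1 / 20) (tnt (h0 * x) (1 / 5)) PP tK tL tC pcB (scP esg pd) [⟨0, 0, 0, 53687091⟩, ⟨1, 1, 0, 53687091⟩, ⟨2, 1, 0, 53687091⟩] 0 1 2 0 0 (sgb true) (sgb false) x := by
  have X : XR 53687091 x := XR.of hx hx' (by norm_num) (by norm_num) (by norm_num) (by norm_num)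
  have hen : 0 < eng.v x := en_pos X.x0.le
  refine CornW.altA (C := cA012E) (j := (0 : Fin 6)) (k := (0 : Fin 6)) (Ef := esg) (pd := pd) (o := 1 / 20)
    (cornW_of (C := cA012E) (C0 := c0B) (En := eng) (mo := mog) (j := (0 : Fin 6)) (k := (0 : Fin 6)) (lo := 0) (hi := 2) (W := 53687091) (N0 := 3) cA012E_q (sideB hx hx') gokB (pinU hx hx') dokB X (by norm_num) (by norm_num) (l := (0 : Fin 6)) rfl
      (gatB00 x) (gatB01 x) (gatB02 x) (datB00 x) (datB01 x) (datB02 x) ?_)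
    (cornS_of (C := cA012E) (C0 := c0B) (j := (0 : Fin 6)) (k := (0 : Fin 6)) (lo := 0) (hi := 2) (W := 53687091) (N0 := 3) cA012E_q (sideB hx hx') gokB X (by norm_num) (by norm_num) (l := (0 : Fin 6)) rfl
      (gatB00 x) (gatB01 x) (gatB02 x) ?_)
    (thU (pinU hx hx')) rfl hκ (fun j q y => tC_eq j q y x) (esg_rng X.x0.le (by linarith [X.b, X.p0])).1 (mo_v x) le_rfl le_rfl
  · intro ρ a B hρ hd i h1 h2
    fin_cases i
    · exact corW_cert (G1 := gB0q0) (G2 := gB0q1) (Ga := gB0q2) (Gb := gB1q2) (D1 := dB0q0) (D2 := dB0q1) (Da := dB0q2) (Db := dB1q2) cA012E_ok B hρ hen (gatB00 x) (gatB01 x) (fun _ => gatB02 x) (fun _ => gatB12 x) (datB00 x) (datB01 x) (fun _ => datB02 x) (fun _ => datB12 x) hd hx hx' CW.A012E_000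
    · exact corW_cert (G1 := gB0q0) (G2 := gB0q1) (Ga := gB1q2) (Gb := gB2q2) (D1 := dB0q0) (D2 := dB0q1) (Da := dB1q2) (Db := dB2q2) cA012E_ok B hρ hen (gatB00 x) (gatB01 x) (fun _ => gatB12 x) (fun _ => gatB22 x) (datB00 x) (datB01 x) (fun _ => datB12 x) (fun _ => datB22 x) hd hx hx' CW.A012E_001
    · exact corW_cert (G1 := gB0q0) (G2 := gB0q1) (Ga := gB2q2) (Gb := gB3q2) (D1 := dB0q0) (D2 := dB0q1) (Da := dB2q2) (Db := dB3q2) cA012E_ok B hρ hen (gatB00 x) (gatB01 x) (fun _ => gatB22 x) (fun h => absurd h (by decide)) (datB00 x) (datB01 x) (fun _ => datB22 x) (fun h => absurd h (by decide)) hd hx hx' CW.A012E_002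
    · exact absurd h2 (by norm_num)
    · exact absurd h2 (by norm_num)
  · intro ρ a B hρ hd i h1 h2
    fin_cases i
    · exact corX_cert (G1 := gB0q0) (G2 := gB0q1) (Ga := gB0q2) (Gb := gB1q2) (GT := gB0q2) cA012E_ok tA012E_ok B hρ (gatB00 x) (gatB01 x) (fun _ => gatB02 x) (fun _ => gatB12 x) rfl (tgh_A012E (kodd x) (gpu0 x) (gpu1 x) (gpu2 x) (gatB00 x) (gatB01 x) (gatB02 x) B (le_sixteenth hd (by norm_num))) hd hx hx' CG.A012E_000
    · exact corT_cert (G1 := gB0q0) (G2 := gB0q1) (Ga := gB1q2) (Gb := gB2q2) cA012E_ok B hρ (gatB00 x) (gatB01 x) (fun _ => gatB12 x) (fun _ => gatB22 x) hd hx hx' CG.A012E_001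
    · exact corT_cert (G1 := gB0q0) (G2 := gB0q1) (Ga := gB2q2) (Gb := gB3q2) cA012E_ok B hρ (gatB00 x) (gatB01 x) (fun _ => gatB22 x) (fun h => absurd h (by decide)) hd hx hx' CG.A012E_002
    · exact absurd h2 (by norm_num)
    · exact absurd h2 (by norm_num)

theorem altB_A012L_00 {κ x : ℝ} (hκ : κ * h0 = ken x) (hx : ((740881858 : ℕ) : ℝ) / S ≤ x) (hx' : x ≤ (((740881858 : ℕ) : ℝ) + (40050571 : ℕ)) / S) :
    AltEA 3 κ (eng.v x) (1 / 20) (tnt (h0 * x) (1 / 5)) PP tK tL tC pcB (scP esg pd) [⟨0, 0, 0, 67108864⟩, ⟨1, 1, 0, 67108864⟩, ⟨2, 1, 0, 67108864⟩] 0 1 2 0 0 (sgb true) (sgb true) x := by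
  have X : XR 67108864 x := XR.of hx hx' (by norm_num) (by norm_num) (by norm_num) (by norm_num)
  have hen : 0 < eng.v x := en_pos X.x0.le
  refine CornW.altA (C := cA012L) (j := (0 : Fin 6)) (k := (0 : Fin 6)) (Ef := esg) (pd := pd) (o := 1 / 20)
    (cornW_of (C := cA012L) (C0 := c0B) (En := eng) (mo := mog) (j := (0 : Fin 6)) (k := (0 : Fin 6)) (lo := 5) (hi := 5) (W := 67108864) (N0 := 3) cA012L_q (sideB hx hx') gokB (pinU hx hx') dokB X (by norm_num) (by norm_num) (l := (5 : Fin 6)) rfl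
      (gatB00 x) (gatB01 x) (gatB52 x) (datB00 x) (datB01 x) (datB52 x) ?_)
    (cornS_of (C := cA012L) (C0 := c0B) (j := (0 : Fin 6)) (k := (0 : Fin 6)) (lo := 5) (hi := 5) (W := 67108864) (N0 := 3) cA012L_q (sideB hx hx') gokB X (by norm_num) (by norm_num) (l := (5 : Fin 6)) rfl
      (gatB00 x) (gatB01 x) (gatB52 x) ?_)
    (thU (pinU hx hx')) rfl hκ (fun j q y => tC_eq j q y x) (esg_rng X.x0.le (by linarith [X.b, X.p0])).1 (mo_v x) le_rfl le_rfl
  · intro ρ a B hρ hd i h1 h2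
    fin_cases i
    · exact absurd h1 (by norm_num)
    · exact absurd h1 (by norm_num)
    · exact absurd h1 (by norm_num)
    · exact absurd h1 (by norm_num)
    · exact corW_cert (G1 := gB0q0) (G2 := gB0q1) (Ga := gB4q2) (Gb := gB5q2) (D1 := dB0q0) (D2 := dB0q1) (Da := dB4q2) (Db := dB5q2) cA012L_ok B hρ hen (gatB00 x) (gatB01 x) (fun h => absurd h (by decide)) (fun _ => gatB52 x) (datB00 x) (datB01 x) (fun h => absurd h (by decide)) (fun _ => datB52 x) hd hx hx' CW.A012L_004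
  · intro ρ a B hρ hd i h1 h2
    fin_cases i
    · exact absurd h1 (by norm_num)
    · exact absurd h1 (by norm_num)
    · exact absurd h1 (by norm_num)
    · exact absurd h1 (by norm_num)
    · exact corT_cert (G1 := gB0q0) (G2 := gB0q1) (Ga := gB4q2) (Gb := gB5q2) cA012L_ok B hρ (gatB00 x) (gatB01 x) (fun h => absurd h (by decide)) (fun _ => gatB52 x) hd hx hx' CG.A012L_004

theorem altB_A012R_03 {κ x : ℝ} (hκ : κ * h0 = ken x) (hx : ((740881858 : ℕ) : ℝ) / S ≤ x) (hx' : x ≤ (((740881858 : ℕ) : ℝ) + (40050571 : ℕ)) / S) :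
    AltEA 3 κ (eng.v x) (1 / 20) (tnt (h0 * x) (1 / 5)) PP tK tL tC pcB (scP esg pd) [⟨0, 0, 0, 67108864⟩, ⟨1, 1, 0, 67108864⟩, ⟨2, 1, 0, 67108864⟩] 0 1 2 0 3 (sgb true) (sgb false) x := by
  have X : XR 67108864 x := XR.of hx hx' (by norm_num) (by norm_num) (by norm_num) (by norm_num)
  have hen : 0 < eng.v x := en_pos X.x0.le
  refine CornW.altA (C := cA012R) (j := (0 : Fin 6)) (k := (3 : Fin 6)) (Ef := esg) (pd := pd) (o := 1 / 20)
    (cornW_of (C := cA012R) (C0 := c0B) (En := eng) (mo := mog) (j := (0 : Fin 6)) (k := (3 : Fin 6)) (lo := 0) (hi := 2) (W := 67108864) (N0 := 3) cA012R_q (sideB hx hx') gokB (pinU hx hx') dokB X (by norm_num) (by norm_num) (l := (0 : Fin 6)) rfl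
      (gatB00 x) (gatB31 x) (gatB02 x) (datB00 x) (datB31 x) (datB02 x) ?_)
    (cornS_of (C := cA012R) (C0 := c0B) (j := (0 : Fin 6)) (k := (3 : Fin 6)) (lo := 0) (hi := 2) (W := 67108864) (N0 := 3) cA012R_q (sideB hx hx') gokB X (by norm_num) (by norm_num) (l := (0 : Fin 6)) rfl
      (gatB00 x) (gatB31 x) (gatB02 x) ?_)
    (thU (pinU hx hx')) rfl hκ (fun j q y => tC_eq j q y x) (esg_rng X.x0.le (by linarith [X.b, X.p0])).1 (mo_v x) le_rfl le_rfl
  · intro ρ a B hρ hd i h1 h2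
    fin_cases i
    · exact corW_cert (G1 := gB0q0) (G2 := gB3q1) (Ga := gB0q2) (Gb := gB1q2) (D1 := dB0q0) (D2 := dB3q1) (Da := dB0q2) (Db := dB1q2) cA012R_ok B hρ hen (gatB00 x) (gatB31 x) (fun _ => gatB02 x) (fun _ => gatB12 x) (datB00 x) (datB31 x) (fun _ => datB02 x) (fun _ => datB12 x) hd hx hx' CW.A012R_030
    · exact corW_cert (G1 := gB0q0) (G2 := gB3q1) (Ga := gB1q2) (Gb := gB2q2) (D1 := dB0q0) (D2 := dB3q1) (Da := dB1q2) (Db := dB2q2) cA012R_ok B hρ hen (gatB00 x) (gatB31 x) (fun _ => gatB12 x) (fun _ => gatB22 x) (datB00 x) (datB31 x) (fun _ => datB12 x) (fun _ => datB22 x) hd hx hx' CW.A012R_031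
    · exact corW_cert (G1 := gB0q0) (G2 := gB3q1) (Ga := gB2q2) (Gb := gB3q2) (D1 := dB0q0) (D2 := dB3q1) (Da := dB2q2) (Db := dB3q2) cA012R_ok B hρ hen (gatB00 x) (gatB31 x) (fun _ => gatB22 x) (fun h => absurd h (by decide)) (datB00 x) (datB31 x) (fun _ => datB22 x) (fun h => absurd h (by decide)) hd hx hx' CW.A012R_032
    · exact absurd h2 (by norm_num)
    · exact absurd h2 (by norm_num)
  · intro ρ a B hρ hd i h1 h2
    fin_cases i
    · exact corT_cert (G1 := gB0q0) (G2 := gB3q1) (Ga := gB0q2) (Gb := gB1q2) cA012R_ok B hρ (gatB00 x) (gatB31 x) (fun _ => gatB02 x) (fun _ => gatB12 x) hd hx hx' CG.A012R_030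
    · exact corT_cert (G1 := gB0q0) (G2 := gB3q1) (Ga := gB1q2) (Gb := gB2q2) cA012R_ok B hρ (gatB00 x) (gatB31 x) (fun _ => gatB12 x) (fun _ => gatB22 x) hd hx hx' CG.A012R_031
    · exact corT_cert (G1 := gB0q0) (G2 := gB3q1) (Ga := gB2q2) (Gb := gB3q2) cA012R_ok B hρ (gatB00 x) (gatB31 x) (fun _ => gatB22 x) (fun h => absurd h (by decide)) hd hx hx' CG.A012R_032
    · exact absurd h2 (by norm_num)
    · exact absurd h2 (by norm_num)

theorem altB_A012R_04 {κ x : ℝ} (hκ : κ * h0 = ken x) (hx : ((740881858 : ℕ) : ℝ) / S ≤ x) (hx' : x ≤ (((740881858 : ℕ) : ℝ) + (40050571 : ℕ)) / S) :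
    AltEA 3 κ (eng.v x) (1 / 20) (tnt (h0 * x) (1 / 5)) PP tK tL tC pcB (scP esg pd) [⟨0, 0, 0, 67108864⟩, ⟨1, 1, 0, 67108864⟩, ⟨2, 1, 0, 67108864⟩] 0 1 2 0 4 (sgb true) (sgb false) x := by
  have X : XR 67108864 x := XR.of hx hx' (by norm_num) (by norm_num) (by norm_num) (by norm_num)
  have hen : 0 < eng.v x := en_pos X.x0.le
  refine CornW.altA (C := cA012R) (j := (0 : Fin 6)) (k := (4 : Fin 6)) (Ef := esg) (pd := pd) (o := 1 / 20)
    (cornW_of (C := cA012R) (C0 := c0B) (En := eng) (mo := mog) (j := (0 : Fin 6)) (k := (4 : Fin 6)) (lo := 0) (hi := 2) (W := 67108864) (N0 := 3) cA012R_q (sideB hx hx') gokB (pinU hx hx') dokB X (by norm_num) (by norm_num) (l := (0 : Fin 6)) rfl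
      (gatB00 x) (gatB41 x) (gatB02 x) (datB00 x) (datB41 x) (datB02 x) ?_)
    (cornS_of (C := cA012R) (C0 := c0B) (j := (0 : Fin 6)) (k := (4 : Fin 6)) (lo := 0) (hi := 2) (W := 67108864) (N0 := 3) cA012R_q (sideB hx hx') gokB X (by norm_num) (by norm_num) (l := (0 : Fin 6)) rfl
      (gatB00 x) (gatB41 x) (gatB02 x) ?_)
    (thU (pinU hx hx')) rfl hκ (fun j q y => tC_eq j q y x) (esg_rng X.x0.le (by linarith [X.b, X.p0])).1 (mo_v x) le_rfl le_rfl
  · intro ρ a B hρ hd i h1 h2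
    fin_cases i
    · exact corW_cert (G1 := gB0q0) (G2 := gB4q1) (Ga := gB0q2) (Gb := gB1q2) (D1 := dB0q0) (D2 := dB4q1) (Da := dB0q2) (Db := dB1q2) cA012R_ok B hρ hen (gatB00 x) (gatB41 x) (fun _ => gatB02 x) (fun _ => gatB12 x) (datB00 x) (datB41 x) (fun _ => datB02 x) (fun _ => datB12 x) hd hx hx' CW.A012R_040
    · exact corW_cert (G1 := gB0q0) (G2 := gB4q1) (Ga := gB1q2) (Gb := gB2q2) (D1 := dB0q0) (D2 := dB4q1) (Da := dB1q2) (Db := dB2q2) cA012R_ok B hρ hen (gatB00 x) (gatB41 x) (fun _ => gatB12 x) (fun _ => gatB22 x) (datB00 x) (datB41 x) (fun _ => datB12 x) (fun _ => datB22 x) hd hx hx' CW.A012R_041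
    · exact corW_cert (G1 := gB0q0) (G2 := gB4q1) (Ga := gB2q2) (Gb := gB3q2) (D1 := dB0q0) (D2 := dB4q1) (Da := dB2q2) (Db := dB3q2) cA012R_ok B hρ hen (gatB00 x) (gatB41 x) (fun _ => gatB22 x) (fun h => absurd h (by decide)) (datB00 x) (datB41 x) (fun _ => datB22 x) (fun h => absurd h (by decide)) hd hx hx' CW.A012R_042
    · exact absurd h2 (by norm_num)
    · exact absurd h2 (by norm_num)
  · intro ρ a B hρ hd i h1 h2
    fin_cases i
    · exact corT_cert (G1 := gB0q0) (G2 := gB4q1) (Ga := gB0q2) (Gb := gB1q2) cA012R_ok B hρ (gatB00 x) (gatB41 x) (fun _ => gatB02 x) (fun _ => gatB12 x) hd hx hx' CG.A012R_040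
    · exact corT_cert (G1 := gB0q0) (G2 := gB4q1) (Ga := gB1q2) (Gb := gB2q2) cA012R_ok B hρ (gatB00 x) (gatB41 x) (fun _ => gatB12 x) (fun _ => gatB22 x) hd hx hx' CG.A012R_041
    · exact corT_cert (G1 := gB0q0) (G2 := gB4q1) (Ga := gB2q2) (Gb := gB3q2) cA012R_ok B hρ (gatB00 x) (gatB41 x) (fun _ => gatB22 x) (fun h => absurd h (by decide)) hd hx hx' CG.A012R_042
    · exact absurd h2 (by norm_num)
    · exact absurd h2 (by norm_num)

theorem altB_A012R_05 {κ x : ℝ} (hκ : κ * h0 = ken x) (hx : ((740881858 : ℕ) : ℝ) / S ≤ x) (hx' : x ≤ (((740881858 : ℕ) : ℝ) + (40050571 : ℕ)) / S) :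
    AltEA 3 κ (eng.v x) (1 / 20) (tnt (h0 * x) (1 / 5)) PP tK tL tC pcB (scP esg pd) [⟨0, 0, 0, 67108864⟩, ⟨1, 1, 0, 67108864⟩, ⟨2, 1, 0, 67108864⟩] 0 1 2 0 5 (sgb true) (sgb false) x := by
  have X : XR 67108864 x := XR.of hx hx' (by norm_num) (by norm_num) (by norm_num) (by norm_num)
  have hen : 0 < eng.v x := en_pos X.x0.le
  refine CornW.altA (C := cA012R) (j := (0 : Fin 6)) (k := (5 : Fin 6)) (Ef := esg) (pd := pd) (o := 1 / 20)
    (cornW_of (C := cA012R) (C0 := c0B) (En := eng) (mo := mog) (j := (0 : Fin 6)) (k := (5 : Fin 6)) (lo := 0) (hi := 2) (W := 67108864) (N0 := 3) cA012R_q (sideB hx hx') gokB (pinU hx hx') dokB X (by norm_num) (by norm_num) (l := (0 : Fin 6)) rfl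
      (gatB00 x) (gatB51 x) (gatB02 x) (datB00 x) (datB51 x) (datB02 x) ?_)
    (cornS_of (C := cA012R) (C0 := c0B) (j := (0 : Fin 6)) (k := (5 : Fin 6)) (lo := 0) (hi := 2) (W := 67108864) (N0 := 3) cA012R_q (sideB hx hx') gokB X (by norm_num) (by norm_num) (l := (0 : Fin 6)) rfl
      (gatB00 x) (gatB51 x) (gatB02 x) ?_)
    (thU (pinU hx hx')) rfl hκ (fun j q y => tC_eq j q y x) (esg_rng X.x0.le (by linarith [X.b, X.p0])).1 (mo_v x) le_rfl le_rfl
  · intro ρ a B hρ hd i h1 h2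
    fin_cases i
    · exact corW_cert (G1 := gB0q0) (G2 := gB5q1) (Ga := gB0q2) (Gb := gB1q2) (D1 := dB0q0) (D2 := dB5q1) (Da := dB0q2) (Db := dB1q2) cA012R_ok B hρ hen (gatB00 x) (gatB51 x) (fun _ => gatB02 x) (fun _ => gatB12 x) (datB00 x) (datB51 x) (fun _ => datB02 x) (fun _ => datB12 x) hd hx hx' CW.A012R_050
    · exact corW_cert (G1 := gB0q0) (G2 := gB5q1) (Ga := gB1q2) (Gb := gB2q2) (D1 := dB0q0) (D2 := dB5q1) (Da := dB1q2) (Db := dB2q2) cA012R_ok B hρ hen (gatB00 x) (gatB51 x) (fun _ => gatB12 x) (fun _ => gatB22 x) (datB00 x) (datB51 x) (fun _ => datB12 x) (fun _ => datB22 x) hd hx hx' CW.A012R_051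
    · exact corW_cert (G1 := gB0q0) (G2 := gB5q1) (Ga := gB2q2) (Gb := gB3q2) (D1 := dB0q0) (D2 := dB5q1) (Da := dB2q2) (Db := dB3q2) cA012R_ok B hρ hen (gatB00 x) (gatB51 x) (fun _ => gatB22 x) (fun h => absurd h (by decide)) (datB00 x) (datB51 x) (fun _ => datB22 x) (fun h => absurd h (by decide)) hd hx hx' CW.A012R_052
    · exact absurd h2 (by norm_num)
    · exact absurd h2 (by norm_num)
  · intro ρ a B hρ hd i h1 h2
    fin_cases i
    · exact corT_cert (G1 := gB0q0) (G2 := gB5q1) (Ga := gB0q2) (Gb := gB1q2) cA012R_ok B hρ (gatB00 x) (gatB51 x) (fun _ => gatB02 x) (fun _ => gatB12 x) hd hx hx' CG.A012R_050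
    · exact corT_cert (G1 := gB0q0) (G2 := gB5q1) (Ga := gB1q2) (Gb := gB2q2) cA012R_ok B hρ (gatB00 x) (gatB51 x) (fun _ => gatB12 x) (fun _ => gatB22 x) hd hx hx' CG.A012R_051
    · exact corT_cert (G1 := gB0q0) (G2 := gB5q1) (Ga := gB2q2) (Gb := gB3q2) cA012R_ok B hρ (gatB00 x) (gatB51 x) (fun _ => gatB22 x) (fun h => absurd h (by decide)) hd hx hx' CG.A012R_052
    · exact absurd h2 (by norm_num)
    · exact absurd h2 (by norm_num)

theorem altB_A012R_13 {κ x : ℝ} (hκ : κ * h0 = ken x) (hx : ((740881858 : ℕ) : ℝ) / S ≤ x) (hx' : x ≤ (((740881858 : ℕ) : ℝ) + (40050571 : ℕ)) / S) :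
    AltEA 3 κ (eng.v x) (1 / 20) (tnt (h0 * x) (1 / 5)) PP tK tL tC pcB (scP esg pd) [⟨0, 0, 0, 67108864⟩, ⟨1, 1, 0, 67108864⟩, ⟨2, 1, 0, 67108864⟩] 0 1 2 1 3 (sgb true) (sgb false) x := by
  have X : XR 67108864 x := XR.of hx hx' (by norm_num) (by norm_num) (by norm_num) (by norm_num)
  have hen : 0 < eng.v x := en_pos X.x0.le
  refine CornW.altA (C := cA012R) (j := (1 : Fin 6)) (k := (3 : Fin 6)) (Ef := esg) (pd := pd) (o := 1 / 20)
    (cornW_of (C := cA012R) (C0 := c0B) (En := eng) (mo := mog) (j := (1 : Fin 6)) (k := (3 : Fin 6)) (lo := 0) (hi := 2) (W := 67108864) (N0 := 3) cA012R_q (sideB hx hx') gokB (pinU hx hx') dokB X (by norm_num) (by norm_num) (l := (0 : Fin 6)) rfl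
      (gatB10 x) (gatB31 x) (gatB02 x) (datB10 x) (datB31 x) (datB02 x) ?_)
    (cornS_of (C := cA012R) (C0 := c0B) (j := (1 : Fin 6)) (k := (3 : Fin 6)) (lo := 0) (hi := 2) (W := 67108864) (N0 := 3) cA012R_q (sideB hx hx') gokB X (by norm_num) (by norm_num) (l := (0 : Fin 6)) rfl
      (gatB10 x) (gatB31 x) (gatB02 x) ?_)
    (thU (pinU hx hx')) rfl hκ (fun j q y => tC_eq j q y x) (esg_rng X.x0.le (by linarith [X.b, X.p0])).1 (mo_v x) le_rfl le_rfl
  · intro ρ a B hρ hd i h1 h2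
    fin_cases i
    · exact corW_cert (G1 := gB1q0) (G2 := gB3q1) (Ga := gB0q2) (Gb := gB1q2) (D1 := dB1q0) (D2 := dB3q1) (Da := dB0q2) (Db := dB1q2) cA012R_ok B hρ hen (gatB10 x) (gatB31 x) (fun _ => gatB02 x) (fun _ => gatB12 x) (datB10 x) (datB31 x) (fun _ => datB02 x) (fun _ => datB12 x) hd hx hx' CW.A012R_130
    · exact corW_cert (G1 := gB1q0) (G2 := gB3q1) (Ga := gB1q2) (Gb := gB2q2) (D1 := dB1q0) (D2 := dB3q1) (Da := dB1q2) (Db := dB2q2) cA012R_ok B hρ hen (gatB10 x) (gatB31 x) (fun _ => gatB12 x) (fun _ => gatB22 x) (datB10 x) (datB31 x) (fun _ => datB12 x) (fun _ => datB22 x) hd hx hx' CW.A012R_131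
    · exact corW_cert (G1 := gB1q0) (G2 := gB3q1) (Ga := gB2q2) (Gb := gB3q2) (D1 := dB1q0) (D2 := dB3q1) (Da := dB2q2) (Db := dB3q2) cA012R_ok B hρ hen (gatB10 x) (gatB31 x) (fun _ => gatB22 x) (fun h => absurd h (by decide)) (datB10 x) (datB31 x) (fun _ => datB22 x) (fun h => absurd h (by decide)) hd hx hx' CW.A012R_132
    · exact absurd h2 (by norm_num)
    · exact absurd h2 (by norm_num)
  · intro ρ a B hρ hd i h1 h2
    fin_cases i
    · exact corT_cert (G1 := gB1q0) (G2 := gB3q1) (Ga := gB0q2) (Gb := gB1q2) cA012R_ok B hρ (gatB10 x) (gatB31 x) (fun _ => gatB02 x) (fun _ => gatB12 x) hd hx hx' CG.A012R_130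
    · exact corT_cert (G1 := gB1q0) (G2 := gB3q1) (Ga := gB1q2) (Gb := gB2q2) cA012R_ok B hρ (gatB10 x) (gatB31 x) (fun _ => gatB12 x) (fun _ => gatB22 x) hd hx hx' CG.A012R_131
    · exact corT_cert (G1 := gB1q0) (G2 := gB3q1) (Ga := gB2q2) (Gb := gB3q2) cA012R_ok B hρ (gatB10 x) (gatB31 x) (fun _ => gatB22 x) (fun h => absurd h (by decide)) hd hx hx' CG.A012R_132
    · exact absurd h2 (by norm_num)
    · exact absurd h2 (by norm_num)

theorem altB_A012R_14 {κ x : ℝ} (hκ : κ * h0 = ken x) (hx : ((740881858 : ℕ) : ℝ) / S ≤ x) (hx' : x ≤ (((740881858 : ℕ) : ℝ) + (40050571 : ℕ)) / S) :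
    AltEA 3 κ (eng.v x) (1 / 20) (tnt (h0 * x) (1 / 5)) PP tK tL tC pcB (scP esg pd) [⟨0, 0, 0, 67108864⟩, ⟨1, 1, 0, 67108864⟩, ⟨2, 1, 0, 67108864⟩] 0 1 2 1 4 (sgb true) (sgb false) x := by
  have X : XR 67108864 x := XR.of hx hx' (by norm_num) (by norm_num) (by norm_num) (by norm_num)
  have hen : 0 < eng.v x := en_pos X.x0.le
  refine CornW.altA (C := cA012R) (j := (1 : Fin 6)) (k := (4 : Fin 6)) (Ef := esg) (pd := pd) (o := 1 / 20)
    (cornW_of (C := cA012R) (C0 := c0B) (En := eng) (mo := mog) (j := (1 : Fin 6)) (k := (4 : Fin 6)) (lo := 0) (hi := 2) (W := 67108864) (N0 := 3) cA012R_q (sideB hx hx') gokB (pinU hx hx') dokB X (by norm_num) (by norm_num) (l := (0 : Fin 6)) rfl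
      (gatB10 x) (gatB41 x) (gatB02 x) (datB10 x) (datB41 x) (datB02 x) ?_)
    (cornS_of (C := cA012R) (C0 := c0B) (j := (1 : Fin 6)) (k := (4 : Fin 6)) (lo := 0) (hi := 2) (W := 67108864) (N0 := 3) cA012R_q (sideB hx hx') gokB X (by norm_num) (by norm_num) (l := (0 : Fin 6)) rfl
      (gatB10 x) (gatB41 x) (gatB02 x) ?_)
    (thU (pinU hx hx')) rfl hκ (fun j q y => tC_eq j q y x) (esg_rng X.x0.le (by linarith [X.b, X.p0])).1 (mo_v x) le_rfl le_rfl
  · intro ρ a B hρ hd i h1 h2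
    fin_cases i
    · exact corW_cert (G1 := gB1q0) (G2 := gB4q1) (Ga := gB0q2) (Gb := gB1q2) (D1 := dB1q0) (D2 := dB4q1) (Da := dB0q2) (Db := dB1q2) cA012R_ok B hρ hen (gatB10 x) (gatB41 x) (fun _ => gatB02 x) (fun _ => gatB12 x) (datB10 x) (datB41 x) (fun _ => datB02 x) (fun _ => datB12 x) hd hx hx' CW.A012R_140
    · exact corW_cert (G1 := gB1q0) (G2 := gB4q1) (Ga := gB1q2) (Gb := gB2q2) (D1 := dB1q0) (D2 := dB4q1) (Da := dB1q2) (Db := dB2q2) cA012R_ok B hρ hen (gatB10 x) (gatB41 x) (fun _ => gatB12 x) (fun _ => gatB22 x) (datB10 x) (datB41 x) (fun _ => datB12 x) (fun _ => datB22 x) hd hx hx' CW.A012R_141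
    · exact corW_cert (G1 := gB1q0) (G2 := gB4q1) (Ga := gB2q2) (Gb := gB3q2) (D1 := dB1q0) (D2 := dB4q1) (Da := dB2q2) (Db := dB3q2) cA012R_ok B hρ hen (gatB10 x) (gatB41 x) (fun _ => gatB22 x) (fun h => absurd h (by decide)) (datB10 x) (datB41 x) (fun _ => datB22 x) (fun h => absurd h (by decide)) hd hx hx' CW.A012R_142
    · exact absurd h2 (by norm_num)
    · exact absurd h2 (by norm_num)
  · intro ρ a B hρ hd i h1 h2
    fin_cases i
    · exact corT_cert (G1 := gB1q0) (G2 := gB4q1) (Ga := gB0q2) (Gb := gB1q2) cA012R_ok B hρ (gatB10 x) (gatB41 x) (fun _ => gatB02 x) (fun _ => gatB12 x) hd hx hx' CG.A012R_140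
    · exact corT_cert (G1 := gB1q0) (G2 := gB4q1) (Ga := gB1q2) (Gb := gB2q2) cA012R_ok B hρ (gatB10 x) (gatB41 x) (fun _ => gatB12 x) (fun _ => gatB22 x) hd hx hx' CG.A012R_141
    · exact corT_cert (G1 := gB1q0) (G2 := gB4q1) (Ga := gB2q2) (Gb := gB3q2) cA012R_ok B hρ (gatB10 x) (gatB41 x) (fun _ => gatB22 x) (fun h => absurd h (by decide)) hd hx hx' CG.A012R_142
    · exact absurd h2 (by norm_num)
    · exact absurd h2 (by norm_num)

theorem altB_A012R_15 {κ x : ℝ} (hκ : κ * h0 = ken x) (hx : ((740881858 : ℕ) : ℝ) / S ≤ x) (hx' : x ≤ (((740881858 : ℕ) : ℝ) + (40050571 : ℕ)) / S) :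
    AltEA 3 κ (eng.v x) (1 / 20) (tnt (h0 * x) (1 / 5)) PP tK tL tC pcB (scP esg pd) [⟨0, 0, 0, 67108864⟩, ⟨1, 1, 0, 67108864⟩, ⟨2, 1, 0, 67108864⟩] 0 1 2 1 5 (sgb true) (sgb false) x := by
  have X : XR 67108864 x := XR.of hx hx' (by norm_num) (by norm_num) (by norm_num) (by norm_num)
  have hen : 0 < eng.v x := en_pos X.x0.le
  refine CornW.altA (C := cA012R) (j := (1 : Fin 6)) (k := (5 : Fin 6)) (Ef := esg) (pd := pd) (o := 1 / 20)
    (cornW_of (C := cA012R) (C0 := c0B) (En := eng) (mo := mog) (j := (1 : Fin 6)) (k := (5 : Fin 6)) (lo := 0) (hi := 2) (W := 67108864) (N0 := 3) cA012R_q (sideB hx hx') gokB (pinU hx hx') dokB X (by norm_num) (by norm_num) (l := (0 : Fin 6)) rfl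
      (gatB10 x) (gatB51 x) (gatB02 x) (datB10 x) (datB51 x) (datB02 x) ?_)
    (cornS_of (C := cA012R) (C0 := c0B) (j := (1 : Fin 6)) (k := (5 : Fin 6)) (lo := 0) (hi := 2) (W := 67108864) (N0 := 3) cA012R_q (sideB hx hx') gokB X (by norm_num) (by norm_num) (l := (0 : Fin 6)) rfl
      (gatB10 x) (gatB51 x) (gatB02 x) ?_)
    (thU (pinU hx hx')) rfl hκ (fun j q y => tC_eq j q y x) (esg_rng X.x0.le (by linarith [X.b, X.p0])).1 (mo_v x) le_rfl le_rfl
  · intro ρ a B hρ hd i h1 h2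
    fin_cases i
    · exact corW_cert (G1 := gB1q0) (G2 := gB5q1) (Ga := gB0q2) (Gb := gB1q2) (D1 := dB1q0) (D2 := dB5q1) (Da := dB0q2) (Db := dB1q2) cA012R_ok B hρ hen (gatB10 x) (gatB51 x) (fun _ => gatB02 x) (fun _ => gatB12 x) (datB10 x) (datB51 x) (fun _ => datB02 x) (fun _ => datB12 x) hd hx hx' CW.A012R_150
    · exact corW_cert (G1 := gB1q0) (G2 := gB5q1) (Ga := gB1q2) (Gb := gB2q2) (D1 := dB1q0) (D2 := dB5q1) (Da := dB1q2) (Db := dB2q2) cA012R_ok B hρ hen (gatB10 x) (gatB51 x) (fun _ => gatB12 x) (fun _ => gatB22 x) (datB10 x) (datB51 x) (fun _ => datB12 x) (fun _ => datB22 x) hd hx hx' CW.A012R_151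
    · exact corW_cert (G1 := gB1q0) (G2 := gB5q1) (Ga := gB2q2) (Gb := gB3q2) (D1 := dB1q0) (D2 := dB5q1) (Da := dB2q2) (Db := dB3q2) cA012R_ok B hρ hen (gatB10 x) (gatB51 x) (fun _ => gatB22 x) (fun h => absurd h (by decide)) (datB10 x) (datB51 x) (fun _ => datB22 x) (fun h => absurd h (by decide)) hd hx hx' CW.A012R_152
    · exact absurd h2 (by norm_num)
    · exact absurd h2 (by norm_num)
  · intro ρ a B hρ hd i h1 h2
    fin_cases i
    · exact corT_cert (G1 := gB1q0) (G2 := gB5q1) (Ga := gB0q2) (Gb := gB1q2) cA012R_ok B hρ (gatB10 x) (gatB51 x) (fun _ => gatB02 x) (fun _ => gatB12 x) hd hx hx' CG.A012R_150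
    · exact corT_cert (G1 := gB1q0) (G2 := gB5q1) (Ga := gB1q2) (Gb := gB2q2) cA012R_ok B hρ (gatB10 x) (gatB51 x) (fun _ => gatB12 x) (fun _ => gatB22 x) hd hx hx' CG.A012R_151
    · exact corT_cert (G1 := gB1q0) (G2 := gB5q1) (Ga := gB2q2) (Gb := gB3q2) cA012R_ok B hρ (gatB10 x) (gatB51 x) (fun _ => gatB22 x) (fun h => absurd h (by decide)) hd hx hx' CG.A012R_152
    · exact absurd h2 (by norm_num)
    · exact absurd h2 (by norm_num)

theorem altB_A012R_23 {κ x : ℝ} (hκ : κ * h0 = ken x) (hx : ((740881858 : ℕ) : ℝ) / S ≤ x) (hx' : x ≤ (((740881858 : ℕ) : ℝ) + (40050571 : ℕ)) / S) :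
    AltEA 3 κ (eng.v x) (1 / 20) (tnt (h0 * x) (1 / 5)) PP tK tL tC pcB (scP esg pd) [⟨0, 0, 0, 67108864⟩, ⟨1, 1, 0, 67108864⟩, ⟨2, 1, 0, 67108864⟩] 0 1 2 2 3 (sgb true) (sgb false) x := by
  have X : XR 67108864 x := XR.of hx hx' (by norm_num) (by norm_num) (by norm_num) (by norm_num)
  have hen : 0 < eng.v x := en_pos X.x0.le
  refine CornW.altA (C := cA012R) (j := (2 : Fin 6)) (k := (3 : Fin 6)) (Ef := esg) (pd := pd) (o := 1 / 20)
    (cornW_of (C := cA012R) (C0 := c0B) (En := eng) (mo := mog) (j := (2 : Fin 6)) (k := (3 : Fin 6)) (lo := 0) (hi := 2) (W := 67108864) (N0 := 3) cA012R_q (sideB hx hx') gokB (pinU hx hx') dokB X (by norm_num) (by norm_num) (l := (0 : Fin 6)) rfl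
      (gatB20 x) (gatB31 x) (gatB02 x) (datB20 x) (datB31 x) (datB02 x) ?_)
    (cornS_of (C := cA012R) (C0 := c0B) (j := (2 : Fin 6)) (k := (3 : Fin 6)) (lo := 0) (hi := 2) (W := 67108864) (N0 := 3) cA012R_q (sideB hx hx') gokB X (by norm_num) (by norm_num) (l := (0 : Fin 6)) rfl
      (gatB20 x) (gatB31 x) (gatB02 x) ?_)
    (thU (pinU hx hx')) rfl hκ (fun j q y => tC_eq j q y x) (esg_rng X.x0.le (by linarith [X.b, X.p0])).1 (mo_v x) le_rfl le_rfl
  · intro ρ a B hρ hd i h1 h2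
    fin_cases i
    · exact corW_cert (G1 := gB2q0) (G2 := gB3q1) (Ga := gB0q2) (Gb := gB1q2) (D1 := dB2q0) (D2 := dB3q1) (Da := dB0q2) (Db := dB1q2) cA012R_ok B hρ hen (gatB20 x) (gatB31 x) (fun _ => gatB02 x) (fun _ => gatB12 x) (datB20 x) (datB31 x) (fun _ => datB02 x) (fun _ => datB12 x) hd hx hx' CW.A012R_230
    · exact corW_cert (G1 := gB2q0) (G2 := gB3q1) (Ga := gB1q2) (Gb := gB2q2) (D1 := dB2q0) (D2 := dB3q1) (Da := dB1q2) (Db := dB2q2) cA012R_ok B hρ hen (gatB20 x) (gatB31 x) (fun _ => gatB12 x) (fun _ => gatB22 x) (datB20 x) (datB31 x) (fun _ => datB12 x) (fun _ => datB22 x) hd hx hx' CW.A012R_231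
    · exact corW_cert (G1 := gB2q0) (G2 := gB3q1) (Ga := gB2q2) (Gb := gB3q2) (D1 := dB2q0) (D2 := dB3q1) (Da := dB2q2) (Db := dB3q2) cA012R_ok B hρ hen (gatB20 x) (gatB31 x) (fun _ => gatB22 x) (fun h => absurd h (by decide)) (datB20 x) (datB31 x) (fun _ => datB22 x) (fun h => absurd h (by decide)) hd hx hx' CW.A012R_232
    · exact absurd h2 (by norm_num)
    · exact absurd h2 (by norm_num)
  · intro ρ a B hρ hd i h1 h2
    fin_cases i
    · exact corT_cert (G1 := gB2q0) (G2 := gB3q1) (Ga := gB0q2) (Gb := gB1q2) cA012R_ok B hρ (gatB20 x) (gatB31 x) (fun _ => gatB02 x) (fun _ => gatB12 x) hd hx hx' CG.A012R_230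
    · exact corT_cert (G1 := gB2q0) (G2 := gB3q1) (Ga := gB1q2) (Gb := gB2q2) cA012R_ok B hρ (gatB20 x) (gatB31 x) (fun _ => gatB12 x) (fun _ => gatB22 x) hd hx hx' CG.A012R_231
    · exact corT_cert (G1 := gB2q0) (G2 := gB3q1) (Ga := gB2q2) (Gb := gB3q2) cA012R_ok B hρ (gatB20 x) (gatB31 x) (fun _ => gatB22 x) (fun h => absurd h (by decide)) hd hx hx' CG.A012R_232
    · exact absurd h2 (by norm_num)
    · exact absurd h2 (by norm_num)

theorem altB_A012R_24 {κ x : ℝ} (hκ : κ * h0 = ken x) (hx : ((740881858 : ℕ) : ℝ) / S ≤ x) (hx' : x ≤ (((740881858 : ℕ) : ℝ) + (40050571 : ℕ)) / S) :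
    AltEA 3 κ (eng.v x) (1 / 20) (tnt (h0 * x) (1 / 5)) PP tK tL tC pcB (scP esg pd) [⟨0, 0, 0, 67108864⟩, ⟨1, 1, 0, 67108864⟩, ⟨2, 1, 0, 67108864⟩] 0 1 2 2 4 (sgb true) (sgb false) x := by
  have X : XR 67108864 x := XR.of hx hx' (by norm_num) (by norm_num) (by norm_num) (by norm_num)
  have hen : 0 < eng.v x := en_pos X.x0.le
  refine CornW.altA (C := cA012R) (j := (2 : Fin 6)) (k := (4 : Fin 6)) (Ef := esg) (pd := pd) (o := 1 / 20)
    (cornW_of (C := cA012R) (C0 := c0B) (En := eng) (mo := mog) (j := (2 : Fin 6)) (k := (4 : Fin 6)) (lo := 0) (hi := 2) (W := 67108864) (N0 := 3) cA012R_q (sideB hx hx') gokB (pinU hx hx') dokB X (by norm_num) (by norm_num) (l := (0 : Fin 6)) rfl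
      (gatB20 x) (gatB41 x) (gatB02 x) (datB20 x) (datB41 x) (datB02 x) ?_)
    (cornS_of (C := cA012R) (C0 := c0B) (j := (2 : Fin 6)) (k := (4 : Fin 6)) (lo := 0) (hi := 2) (W := 67108864) (N0 := 3) cA012R_q (sideB hx hx') gokB X (by norm_num) (by norm_num) (l := (0 : Fin 6)) rfl
      (gatB20 x) (gatB41 x) (gatB02 x) ?_)
    (thU (pinU hx hx')) rfl hκ (fun j q y => tC_eq j q y x) (esg_rng X.x0.le (by linarith [X.b, X.p0])).1 (mo_v x) le_rfl le_rfl
  · intro ρ a B hρ hd i h1 h2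
    fin_cases i
    · exact corW_cert (G1 := gB2q0) (G2 := gB4q1) (Ga := gB0q2) (Gb := gB1q2) (D1 := dB2q0) (D2 := dB4q1) (Da := dB0q2) (Db := dB1q2) cA012R_ok B hρ hen (gatB20 x) (gatB41 x) (fun _ => gatB02 x) (fun _ => gatB12 x) (datB20 x) (datB41 x) (fun _ => datB02 x) (fun _ => datB12 x) hd hx hx' CW.A012R_240
    · exact corW_cert (G1 := gB2q0) (G2 := gB4q1) (Ga := gB1q2) (Gb := gB2q2) (D1 := dB2q0) (D2 := dB4q1) (Da := dB1q2) (Db := dB2q2) cA012R_ok B hρ hen (gatB20 x) (gatB41 x) (fun _ => gatB12 x) (fun _ => gatB22 x) (datB20 x) (datB41 x) (fun _ => datB12 x) (fun _ => datB22 x) hd hx hx' CW.A012R_241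
    · exact corW_cert (G1 := gB2q0) (G2 := gB4q1) (Ga := gB2q2) (Gb := gB3q2) (D1 := dB2q0) (D2 := dB4q1) (Da := dB2q2) (Db := dB3q2) cA012R_ok B hρ hen (gatB20 x) (gatB41 x) (fun _ => gatB22 x) (fun h => absurd h (by decide)) (datB20 x) (datB41 x) (fun _ => datB22 x) (fun h => absurd h (by decide)) hd hx hx' CW.A012R_242
    · exact absurd h2 (by norm_num)
    · exact absurd h2 (by norm_num)
  · intro ρ a B hρ hd i h1 h2
    fin_cases i
    · exact corT_cert (G1 := gB2q0) (G2 := gB4q1) (Ga := gB0q2) (Gb := gB1q2) cA012R_ok B hρ (gatB20 x) (gatB41 x) (fun _ => gatB02 x) (fun _ => gatB12 x) hd hx hx' CG.A012R_240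
    · exact corT_cert (G1 := gB2q0) (G2 := gB4q1) (Ga := gB1q2) (Gb := gB2q2) cA012R_ok B hρ (gatB20 x) (gatB41 x) (fun _ => gatB12 x) (fun _ => gatB22 x) hd hx hx' CG.A012R_241
    · exact corT_cert (G1 := gB2q0) (G2 := gB4q1) (Ga := gB2q2) (Gb := gB3q2) cA012R_ok B hρ (gatB20 x) (gatB41 x) (fun _ => gatB22 x) (fun h => absurd h (by decide)) hd hx hx' CG.A012R_242
    · exact absurd h2 (by norm_num)
    · exact absurd h2 (by norm_num)

theorem altB_A012R_25 {κ x : ℝ} (hκ : κ * h0 = ken x) (hx : ((740881858 : ℕ) : ℝ) / S ≤ x) (hx' : x ≤ (((740881858 : ℕ) : ℝ) + (40050571 : ℕ)) / S) :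
    AltEA 3 κ (eng.v x) (1 / 20) (tnt (h0 * x) (1 / 5)) PP tK tL tC pcB (scP esg pd) [⟨0, 0, 0, 67108864⟩, ⟨1, 1, 0, 67108864⟩, ⟨2, 1, 0, 67108864⟩] 0 1 2 2 5 (sgb true) (sgb false) x := by
  have X : XR 67108864 x := XR.of hx hx' (by norm_num) (by norm_num) (by norm_num) (by norm_num)
  have hen : 0 < eng.v x := en_pos X.x0.le
  refine CornW.altA (C := cA012R) (j := (2 : Fin 6)) (k := (5 : Fin 6)) (Ef := esg) (pd := pd) (o := 1 / 20)
    (cornW_of (C := cA012R) (C0 := c0B) (En := eng) (mo := mog) (j := (2 : Fin 6)) (k := (5 : Fin 6)) (lo := 0) (hi := 2) (W := 67108864) (N0 := 3) cA012R_q (sideB hx hx') gokB (pinU hx hx') dokB X (by norm_num) (by norm_num) (l := (0 : Fin 6)) rfl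
      (gatB20 x) (gatB51 x) (gatB02 x) (datB20 x) (datB51 x) (datB02 x) ?_)
    (cornS_of (C := cA012R) (C0 := c0B) (j := (2 : Fin 6)) (k := (5 : Fin 6)) (lo := 0) (hi := 2) (W := 67108864) (N0 := 3) cA012R_q (sideB hx hx') gokB X (by norm_num) (by norm_num) (l := (0 : Fin 6)) rfl
      (gatB20 x) (gatB51 x) (gatB02 x) ?_)
    (thU (pinU hx hx')) rfl hκ (fun j q y => tC_eq j q y x) (esg_rng X.x0.le (by linarith [X.b, X.p0])).1 (mo_v x) le_rfl le_rfl
  · intro ρ a B hρ hd i h1 h2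
    fin_cases i
    · exact corW_cert (G1 := gB2q0) (G2 := gB5q1) (Ga := gB0q2) (Gb := gB1q2) (D1 := dB2q0) (D2 := dB5q1) (Da := dB0q2) (Db := dB1q2) cA012R_ok B hρ hen (gatB20 x) (gatB51 x) (fun _ => gatB02 x) (fun _ => gatB12 x) (datB20 x) (datB51 x) (fun _ => datB02 x) (fun _ => datB12 x) hd hx hx' CW.A012R_250
    · exact corW_cert (G1 := gB2q0) (G2 := gB5q1) (Ga := gB1q2) (Gb := gB2q2) (D1 := dB2q0) (D2 := dB5q1) (Da := dB1q2) (Db := dB2q2) cA012R_ok B hρ hen (gatB20 x) (gatB51 x) (fun _ => gatB12 x) (fun _ => gatB22 x) (datB20 x) (datB51 x) (fun _ => datB12 x) (fun _ => datB22 x) hd hx hx' CW.A012R_251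
    · exact corW_cert (G1 := gB2q0) (G2 := gB5q1) (Ga := gB2q2) (Gb := gB3q2) (D1 := dB2q0) (D2 := dB5q1) (Da := dB2q2) (Db := dB3q2) cA012R_ok B hρ hen (gatB20 x) (gatB51 x) (fun _ => gatB22 x) (fun h => absurd h (by decide)) (datB20 x) (datB51 x) (fun _ => datB22 x) (fun h => absurd h (by decide)) hd hx hx' CW.A012R_252
    · exact absurd h2 (by norm_num)
    · exact absurd h2 (by norm_num)
  · intro ρ a B hρ hd i h1 h2
    fin_cases i
    · exact corT_cert (G1 := gB2q0) (G2 := gB5q1) (Ga := gB0q2) (Gb := gB1q2) cA012R_ok B hρ (gatB20 x) (gatB51 x) (fun _ => gatB02 x) (fun _ => gatB12 x) hd hx hx' CG.A012R_250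
    · exact corT_cert (G1 := gB2q0) (G2 := gB5q1) (Ga := gB1q2) (Gb := gB2q2) cA012R_ok B hρ (gatB20 x) (gatB51 x) (fun _ => gatB12 x) (fun _ => gatB22 x) hd hx hx' CG.A012R_251
    · exact corT_cert (G1 := gB2q0) (G2 := gB5q1) (Ga := gB2q2) (Gb := gB3q2) cA012R_ok B hρ (gatB20 x) (gatB51 x) (fun _ => gatB22 x) (fun h => absurd h (by decide)) hd hx hx' CG.A012R_252
    · exact absurd h2 (by norm_num)
    · exact absurd h2 (by norm_num)

theorem altB_A022E_00 {κ x : ℝ} (hκ : κ * h0 = ken x) (hx : ((740881858 : ℕ) : ℝ) / S ≤ x) (hx' : x ≤ (((740881858 : ℕ) : ℝ) + (40050571 : ℕ)) / S) :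
    AltEA 3 κ (eng.v x) (1 / 20) (tnt (h0 * x) (1 / 5)) PP tK tL tC pcB (scP esg pd) [⟨0, 0, 0, 67108864⟩, ⟨1, 1, 0, 67108864⟩, ⟨2, 1, 0, 67108864⟩] 0 2 2 0 0 (sgb true) (sgb false) x := by
  have X : XR 67108864 x := XR.of hx hx' (by norm_num) (by norm_num) (by norm_num) (by norm_num)
  have hen : 0 < eng.v x := en_pos X.x0.le
  refine CornW.altA (C := cA022E) (j := (0 : Fin 6)) (k := (0 : Fin 6)) (Ef := esg) (pd := pd) (o := 1 / 20)
    (cornW_of (C := cA022E) (C0 := c0B) (En := eng) (mo := mog) (j := (0 : Fin 6)) (k := (0 : Fin 6)) (lo := 0) (hi := 2) (W := 67108864) (N0 := 3) cA022E_q (sideB hx hx') gokB (pinU hx hx') dokB X (by norm_num) (by norm_num) (l := (0 : Fin 6)) rfl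
      (gatB00 x) (gatB02 x) (gatB02 x) (datB00 x) (datB02 x) (datB02 x) ?_)
    (cornS_of (C := cA022E) (C0 := c0B) (j := (0 : Fin 6)) (k := (0 : Fin 6)) (lo := 0) (hi := 2) (W := 67108864) (N0 := 3) cA022E_q (sideB hx hx') gokB X (by norm_num) (by norm_num) (l := (0 : Fin 6)) rfl
      (gatB00 x) (gatB02 x) (gatB02 x) ?_)
    (thU (pinU hx hx')) rfl hκ (fun j q y => tC_eq j q y x) (esg_rng X.x0.le (by linarith [X.b, X.p0])).1 (mo_v x) le_rfl le_rfl
  · intro ρ a B hρ hd i h1 h2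
    fin_cases i
    · exact corW_cert (G1 := gB0q0) (G2 := gB0q2) (Ga := gB0q2) (Gb := gB1q2) (D1 := dB0q0) (D2 := dB0q2) (Da := dB0q2) (Db := dB1q2) cA022E_ok B hρ hen (gatB00 x) (gatB02 x) (fun _ => gatB02 x) (fun _ => gatB12 x) (datB00 x) (datB02 x) (fun _ => datB02 x) (fun _ => datB12 x) hd hx hx' CW.A022E_000
    · exact corW_cert (G1 := gB0q0) (G2 := gB0q2) (Ga := gB1q2) (Gb := gB2q2) (D1 := dB0q0) (D2 := dB0q2) (Da := dB1q2) (Db := dB2q2) cA022E_ok B hρ hen (gatB00 x) (gatB02 x) (fun _ => gatB12 x) (fun _ => gatB22 x) (datB00 x) (datB02 x) (fun _ => datB12 x) (fun _ => datB22 x) hd hx hx' CW.A022E_001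
    · exact corW_cert (G1 := gB0q0) (G2 := gB0q2) (Ga := gB2q2) (Gb := gB3q2) (D1 := dB0q0) (D2 := dB0q2) (Da := dB2q2) (Db := dB3q2) cA022E_ok B hρ hen (gatB00 x) (gatB02 x) (fun _ => gatB22 x) (fun h => absurd h (by decide)) (datB00 x) (datB02 x) (fun _ => datB22 x) (fun h => absurd h (by decide)) hd hx hx' CW.A022E_002
    · exact absurd h2 (by norm_num)
    · exact absurd h2 (by norm_num)
  · intro ρ a B hρ hd i h1 h2
    fin_cases i
    · exact corT_cert (G1 := gB0q0) (G2 := gB0q2) (Ga := gB0q2) (Gb := gB1q2) cA022E_ok B hρ (gatB00 x) (gatB02 x) (fun _ => gatB02 x) (fun _ => gatB12 x) hd hx hx' CG.A022E_000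
    · exact corT_cert (G1 := gB0q0) (G2 := gB0q2) (Ga := gB1q2) (Gb := gB2q2) cA022E_ok B hρ (gatB00 x) (gatB02 x) (fun _ => gatB12 x) (fun _ => gatB22 x) hd hx hx' CG.A022E_001
    · exact corT_cert (G1 := gB0q0) (G2 := gB0q2) (Ga := gB2q2) (Gb := gB3q2) cA022E_ok B hρ (gatB00 x) (gatB02 x) (fun _ => gatB22 x) (fun h => absurd h (by decide)) hd hx hx' CG.A022E_002
    · exact absurd h2 (by norm_num)
    · exact absurd h2 (by norm_num)

theorem altB_A022E_01 {κ x : ℝ} (hκ : κ * h0 = ken x) (hx : ((740881858 : ℕ) : ℝ) / S ≤ x) (hx' : x ≤ (((740881858 : ℕ) : ℝ) + (40050571 : ℕ)) / S) :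
    AltEA 3 κ (eng.v x) (1 / 20) (tnt (h0 * x) (1 / 5)) PP tK tL tC pcB (scP esg pd) [⟨0, 0, 0, 67108864⟩, ⟨1, 1, 0, 67108864⟩, ⟨2, 1, 0, 67108864⟩] 0 2 2 0 1 (sgb true) (sgb false) x := by
  have X : XR 67108864 x := XR.of hx hx' (by norm_num) (by norm_num) (by norm_num) (by norm_num)
  have hen : 0 < eng.v x := en_pos X.x0.le
  refine CornW.altA (C := cA022E) (j := (0 : Fin 6)) (k := (1 : Fin 6)) (Ef := esg) (pd := pd) (o := 1 / 20)
    (cornW_of (C := cA022E) (C0 := c0B) (En := eng) (mo := mog) (j := (0 : Fin 6)) (k := (1 : Fin 6)) (lo := 0) (hi := 2) (W := 67108864) (N0 := 3) cA022E_q (sideB hx hx') gokB (pinU hx hx') dokB X (by norm_num) (by norm_num) (l := (0 : Fin 6)) rfl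
      (gatB00 x) (gatB12 x) (gatB02 x) (datB00 x) (datB12 x) (datB02 x) ?_)
    (cornS_of (C := cA022E) (C0 := c0B) (j := (0 : Fin 6)) (k := (1 : Fin 6)) (lo := 0) (hi := 2) (W := 67108864) (N0 := 3) cA022E_q (sideB hx hx') gokB X (by norm_num) (by norm_num) (l := (0 : Fin 6)) rfl
      (gatB00 x) (gatB12 x) (gatB02 x) ?_)
    (thU (pinU hx hx')) rfl hκ (fun j q y => tC_eq j q y x) (esg_rng X.x0.le (by linarith [X.b, X.p0])).1 (mo_v x) le_rfl le_rfl
  · intro ρ a B hρ hd i h1 h2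
    fin_cases i
    · exact corW_cert (G1 := gB0q0) (G2 := gB1q2) (Ga := gB0q2) (Gb := gB1q2) (D1 := dB0q0) (D2 := dB1q2) (Da := dB0q2) (Db := dB1q2) cA022E_ok B hρ hen (gatB00 x) (gatB12 x) (fun _ => gatB02 x) (fun _ => gatB12 x) (datB00 x) (datB12 x) (fun _ => datB02 x) (fun _ => datB12 x) hd hx hx' CW.A022E_010
    · exact corW_cert (G1 := gB0q0) (G2 := gB1q2) (Ga := gB1q2) (Gb := gB2q2) (D1 := dB0q0) (D2 := dB1q2) (Da := dB1q2) (Db := dB2q2) cA022E_ok B hρ hen (gatB00 x) (gatB12 x) (fun _ => gatB12 x) (fun _ => gatB22 x) (datB00 x) (datB12 x) (fun _ => datB12 x) (fun _ => datB22 x) hd hx hx' CW.A022E_011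
    · exact corW_cert (G1 := gB0q0) (G2 := gB1q2) (Ga := gB2q2) (Gb := gB3q2) (D1 := dB0q0) (D2 := dB1q2) (Da := dB2q2) (Db := dB3q2) cA022E_ok B hρ hen (gatB00 x) (gatB12 x) (fun _ => gatB22 x) (fun h => absurd h (by decide)) (datB00 x) (datB12 x) (fun _ => datB22 x) (fun h => absurd h (by decide)) hd hx hx' CW.A022E_012
    · exact absurd h2 (by norm_num)
    · exact absurd h2 (by norm_num)
  · intro ρ a B hρ hd i h1 h2
    fin_cases i
    · exact corT_cert (G1 := gB0q0) (G2 := gB1q2) (Ga := gB0q2) (Gb := gB1q2) cA022E_ok B hρ (gatB00 x) (gatB12 x) (fun _ => gatB02 x) (fun _ => gatB12 x) hd hx hx' CG.A022E_010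
    · exact corT_cert (G1 := gB0q0) (G2 := gB1q2) (Ga := gB1q2) (Gb := gB2q2) cA022E_ok B hρ (gatB00 x) (gatB12 x) (fun _ => gatB12 x) (fun _ => gatB22 x) hd hx hx' CG.A022E_011
    · exact corT_cert (G1 := gB0q0) (G2 := gB1q2) (Ga := gB2q2) (Gb := gB3q2) cA022E_ok B hρ (gatB00 x) (gatB12 x) (fun _ => gatB22 x) (fun h => absurd h (by decide)) hd hx hx' CG.A022E_012
    · exact absurd h2 (by norm_num)
    · exact absurd h2 (by norm_num)

theorem altB_A022E_02 {κ x : ℝ} (hκ : κ * h0 = ken x) (hx : ((740881858 : ℕ) : ℝ) / S ≤ x) (hx' : x ≤ (((740881858 : ℕ) : ℝ) + (40050571 : ℕ)) / S) :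
    AltEA 3 κ (eng.v x) (1 / 20) (tnt (h0 * x) (1 / 5)) PP tK tL tC pcB (scP esg pd) [⟨0, 0, 0, 67108864⟩, ⟨1, 1, 0, 67108864⟩, ⟨2, 1, 0, 67108864⟩] 0 2 2 0 2 (sgb true) (sgb false) x := by
  have X : XR 67108864 x := XR.of hx hx' (by norm_num) (by norm_num) (by norm_num) (by norm_num)
  have hen : 0 < eng.v x := en_pos X.x0.le
  refine CornW.altA (C := cA022E) (j := (0 : Fin 6)) (k := (2 : Fin 6)) (Ef := esg) (pd := pd) (o := 1 / 20)
    (cornW_of (C := cA022E) (C0 := c0B) (En := eng) (mo := mog) (j := (0 : Fin 6)) (k := (2 : Fin 6)) (lo := 0) (hi := 2) (W := 67108864) (N0 := 3) cA022E_q (sideB hx hx') gokB (pinU hx hx') dokB X (by norm_num) (by norm_num) (l := (0 : Fin 6)) rfl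
      (gatB00 x) (gatB22 x) (gatB02 x) (datB00 x) (datB22 x) (datB02 x) ?_)
    (cornS_of (C := cA022E) (C0 := c0B) (j := (0 : Fin 6)) (k := (2 : Fin 6)) (lo := 0) (hi := 2) (W := 67108864) (N0 := 3) cA022E_q (sideB hx hx') gokB X (by norm_num) (by norm_num) (l := (0 : Fin 6)) rfl
      (gatB00 x) (gatB22 x) (gatB02 x) ?_)
    (thU (pinU hx hx')) rfl hκ (fun j q y => tC_eq j q y x) (esg_rng X.x0.le (by linarith [X.b, X.p0])).1 (mo_v x) le_rfl le_rfl
  · intro ρ a B hρ hd i h1 h2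
    fin_cases i
    · exact corW_cert (G1 := gB0q0) (G2 := gB2q2) (Ga := gB0q2) (Gb := gB1q2) (D1 := dB0q0) (D2 := dB2q2) (Da := dB0q2) (Db := dB1q2) cA022E_ok B hρ hen (gatB00 x) (gatB22 x) (fun _ => gatB02 x) (fun _ => gatB12 x) (datB00 x) (datB22 x) (fun _ => datB02 x) (fun _ => datB12 x) hd hx hx' CW.A022E_020
    · exact corW_cert (G1 := gB0q0) (G2 := gB2q2) (Ga := gB1q2) (Gb := gB2q2) (D1 := dB0q0) (D2 := dB2q2) (Da := dB1q2) (Db := dB2q2) cA022E_ok B hρ hen (gatB00 x) (gatB22 x) (fun _ => gatB12 x) (fun _ => gatB22 x) (datB00 x) (datB22 x) (fun _ => datB12 x) (fun _ => datB22 x) hd hx hx' CW.A022E_021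
    · exact corW_cert (G1 := gB0q0) (G2 := gB2q2) (Ga := gB2q2) (Gb := gB3q2) (D1 := dB0q0) (D2 := dB2q2) (Da := dB2q2) (Db := dB3q2) cA022E_ok B hρ hen (gatB00 x) (gatB22 x) (fun _ => gatB22 x) (fun h => absurd h (by decide)) (datB00 x) (datB22 x) (fun _ => datB22 x) (fun h => absurd h (by decide)) hd hx hx' CW.A022E_022
    · exact absurd h2 (by norm_num)
    · exact absurd h2 (by norm_num)
  · intro ρ a B hρ hd i h1 h2
    fin_cases i
    · exact corT_cert (G1 := gB0q0) (G2 := gB2q2) (Ga := gB0q2) (Gb := gB1q2) cA022E_ok B hρ (gatB00 x) (gatB22 x) (fun _ => gatB02 x) (fun _ => gatB12 x) hd hx hx' CG.A022E_020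
    · exact corT_cert (G1 := gB0q0) (G2 := gB2q2) (Ga := gB1q2) (Gb := gB2q2) cA022E_ok B hρ (gatB00 x) (gatB22 x) (fun _ => gatB12 x) (fun _ => gatB22 x) hd hx hx' CG.A022E_021
    · exact corT_cert (G1 := gB0q0) (G2 := gB2q2) (Ga := gB2q2) (Gb := gB3q2) cA022E_ok B hρ (gatB00 x) (gatB22 x) (fun _ => gatB22 x) (fun h => absurd h (by decide)) hd hx hx' CG.A022E_022
    · exact absurd h2 (by norm_num)
    · exact absurd h2 (by norm_num)

theorem altB_A022E_11 {κ x : ℝ} (hκ : κ * h0 = ken x) (hx : ((740881858 : ℕ) : ℝ) / S ≤ x) (hx' : x ≤ (((740881858 : ℕ) : ℝ) + (40050571 : ℕ)) / S) :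
    AltEA 3 κ (eng.v x) (1 / 20) (tnt (h0 * x) (1 / 5)) PP tK tL tC pcB (scP esg pd) [⟨0, 0, 0, 67108864⟩, ⟨1, 1, 0, 67108864⟩, ⟨2, 1, 0, 67108864⟩] 0 2 2 1 1 (sgb true) (sgb false) x := by
  have X : XR 67108864 x := XR.of hx hx' (by norm_num) (by norm_num) (by norm_num) (by norm_num)
  have hen : 0 < eng.v x := en_pos X.x0.le
  refine CornW.altA (C := cA022E) (j := (1 : Fin 6)) (k := (1 : Fin 6)) (Ef := esg) (pd := pd) (o := 1 / 20)
    (cornW_of (C := cA022E) (C0 := c0B) (En := eng) (mo := mog) (j := (1 : Fin 6)) (k := (1 : Fin 6)) (lo := 0) (hi := 2) (W := 67108864) (N0 := 3) cA022E_q (sideB hx hx') gokB (pinU hx hx') dokB X (by norm_num) (by norm_num) (l := (0 : Fin 6)) rfl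
      (gatB10 x) (gatB12 x) (gatB02 x) (datB10 x) (datB12 x) (datB02 x) ?_)
    (cornS_of (C := cA022E) (C0 := c0B) (j := (1 : Fin 6)) (k := (1 : Fin 6)) (lo := 0) (hi := 2) (W := 67108864) (N0 := 3) cA022E_q (sideB hx hx') gokB X (by norm_num) (by norm_num) (l := (0 : Fin 6)) rfl
      (gatB10 x) (gatB12 x) (gatB02 x) ?_)
    (thU (pinU hx hx')) rfl hκ (fun j q y => tC_eq j q y x) (esg_rng X.x0.le (by linarith [X.b, X.p0])).1 (mo_v x) le_rfl le_rfl
  · intro ρ a B hρ hd i h1 h2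
    fin_cases i
    · exact corW_cert (G1 := gB1q0) (G2 := gB1q2) (Ga := gB0q2) (Gb := gB1q2) (D1 := dB1q0) (D2 := dB1q2) (Da := dB0q2) (Db := dB1q2) cA022E_ok B hρ hen (gatB10 x) (gatB12 x) (fun _ => gatB02 x) (fun _ => gatB12 x) (datB10 x) (datB12 x) (fun _ => datB02 x) (fun _ => datB12 x) hd hx hx' CW.A022E_110
    · exact corW_cert (G1 := gB1q0) (G2 := gB1q2) (Ga := gB1q2) (Gb := gB2q2) (D1 := dB1q0) (D2 := dB1q2) (Da := dB1q2) (Db := dB2q2) cA022E_ok B hρ hen (gatB10 x) (gatB12 x) (fun _ => gatB12 x) (fun _ => gatB22 x) (datB10 x) (datB12 x) (fun _ => datB12 x) (fun _ => datB22 x) hd hx hx' CW.A022E_111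
    · exact corW_cert (G1 := gB1q0) (G2 := gB1q2) (Ga := gB2q2) (Gb := gB3q2) (D1 := dB1q0) (D2 := dB1q2) (Da := dB2q2) (Db := dB3q2) cA022E_ok B hρ hen (gatB10 x) (gatB12 x) (fun _ => gatB22 x) (fun h => absurd h (by decide)) (datB10 x) (datB12 x) (fun _ => datB22 x) (fun h => absurd h (by decide)) hd hx hx' CW.A022E_112
    · exact absurd h2 (by norm_num)
    · exact absurd h2 (by norm_num)
  · intro ρ a B hρ hd i h1 h2
    fin_cases i
    · exact corT_cert (G1 := gB1q0) (G2 := gB1q2) (Ga := gB0q2) (Gb := gB1q2) cA022E_ok B hρ (gatB10 x) (gatB12 x) (fun _ => gatB02 x) (fun _ => gatB12 x) hd hx hx' CG.A022E_110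
    · exact corT_cert (G1 := gB1q0) (G2 := gB1q2) (Ga := gB1q2) (Gb := gB2q2) cA022E_ok B hρ (gatB10 x) (gatB12 x) (fun _ => gatB12 x) (fun _ => gatB22 x) hd hx hx' CG.A022E_111
    · exact corT_cert (G1 := gB1q0) (G2 := gB1q2) (Ga := gB2q2) (Gb := gB3q2) cA022E_ok B hρ (gatB10 x) (gatB12 x) (fun _ => gatB22 x) (fun h => absurd h (by decide)) hd hx hx' CG.A022E_112
    · exact absurd h2 (by norm_num)
    · exact absurd h2 (by norm_num)

theorem altB_A022E_12 {κ x : ℝ} (hκ : κ * h0 = ken x) (hx : ((740881858 : ℕ) : ℝ) / S ≤ x) (hx' : x ≤ (((740881858 : ℕ) : ℝ) + (40050571 : ℕ)) / S) :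
    AltEA 3 κ (eng.v x) (1 / 20) (tnt (h0 * x) (1 / 5)) PP tK tL tC pcB (scP esg pd) [⟨0, 0, 0, 67108864⟩, ⟨1, 1, 0, 67108864⟩, ⟨2, 1, 0, 67108864⟩] 0 2 2 1 2 (sgb true) (sgb false) x := by
  have X : XR 67108864 x := XR.of hx hx' (by norm_num) (by norm_num) (by norm_num) (by norm_num)
  have hen : 0 < eng.v x := en_pos X.x0.le
  refine CornW.altA (C := cA022E) (j := (1 : Fin 6)) (k := (2 : Fin 6)) (Ef := esg) (pd := pd) (o := 1 / 20)
    (cornW_of (C := cA022E) (C0 := c0B) (En := eng) (mo := mog) (j := (1 : Fin 6)) (k := (2 : Fin 6)) (lo := 0) (hi := 2) (W := 67108864) (N0 := 3) cA022E_q (sideB hx hx') gokB (pinU hx hx') dokB X (by norm_num) (by norm_num) (l := (0 : Fin 6)) rfl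
      (gatB10 x) (gatB22 x) (gatB02 x) (datB10 x) (datB22 x) (datB02 x) ?_)
    (cornS_of (C := cA022E) (C0 := c0B) (j := (1 : Fin 6)) (k := (2 : Fin 6)) (lo := 0) (hi := 2) (W := 67108864) (N0 := 3) cA022E_q (sideB hx hx') gokB X (by norm_num) (by norm_num) (l := (0 : Fin 6)) rfl
      (gatB10 x) (gatB22 x) (gatB02 x) ?_)
    (thU (pinU hx hx')) rfl hκ (fun j q y => tC_eq j q y x) (esg_rng X.x0.le (by linarith [X.b, X.p0])).1 (mo_v x) le_rfl le_rfl
  · intro ρ a B hρ hd i h1 h2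
    fin_cases i
    · exact corW_cert (G1 := gB1q0) (G2 := gB2q2) (Ga := gB0q2) (Gb := gB1q2) (D1 := dB1q0) (D2 := dB2q2) (Da := dB0q2) (Db := dB1q2) cA022E_ok B hρ hen (gatB10 x) (gatB22 x) (fun _ => gatB02 x) (fun _ => gatB12 x) (datB10 x) (datB22 x) (fun _ => datB02 x) (fun _ => datB12 x) hd hx hx' CW.A022E_120
    · exact corW_cert (G1 := gB1q0) (G2 := gB2q2) (Ga := gB1q2) (Gb := gB2q2) (D1 := dB1q0) (D2 := dB2q2) (Da := dB1q2) (Db := dB2q2) cA022E_ok B hρ hen (gatB10 x) (gatB22 x) (fun _ => gatB12 x) (fun _ => gatB22 x) (datB10 x) (datB22 x) (fun _ => datB12 x) (fun _ => datB22 x) hd hx hx' CW.A022E_121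
    · exact corW_cert (G1 := gB1q0) (G2 := gB2q2) (Ga := gB2q2) (Gb := gB3q2) (D1 := dB1q0) (D2 := dB2q2) (Da := dB2q2) (Db := dB3q2) cA022E_ok B hρ hen (gatB10 x) (gatB22 x) (fun _ => gatB22 x) (fun h => absurd h (by decide)) (datB10 x) (datB22 x) (fun _ => datB22 x) (fun h => absurd h (by decide)) hd hx hx' CW.A022E_122
    · exact absurd h2 (by norm_num)
    · exact absurd h2 (by norm_num)
  · intro ρ a B hρ hd i h1 h2
    fin_cases i
    · exact corT_cert (G1 := gB1q0) (G2 := gB2q2) (Ga := gB0q2) (Gb := gB1q2) cA022E_ok B hρ (gatB10 x) (gatB22 x) (fun _ => gatB02 x) (fun _ => gatB12 x) hd hx hx' CG.A022E_120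
    · exact corT_cert (G1 := gB1q0) (G2 := gB2q2) (Ga := gB1q2) (Gb := gB2q2) cA022E_ok B hρ (gatB10 x) (gatB22 x) (fun _ => gatB12 x) (fun _ => gatB22 x) hd hx hx' CG.A022E_121
    · exact corT_cert (G1 := gB1q0) (G2 := gB2q2) (Ga := gB2q2) (Gb := gB3q2) cA022E_ok B hρ (gatB10 x) (gatB22 x) (fun _ => gatB22 x) (fun h => absurd h (by decide)) hd hx hx' CG.A022E_122
    · exact absurd h2 (by norm_num)
    · exact absurd h2 (by norm_num)

theorem altB_A022E_22 {κ x : ℝ} (hκ : κ * h0 = ken x) (hx : ((740881858 : ℕ) : ℝ) / S ≤ x) (hx' : x ≤ (((740881858 : ℕ) : ℝ) + (40050571 : ℕ)) / S) :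
    AltEA 3 κ (eng.v x) (1 / 20) (tnt (h0 * x) (1 / 5)) PP tK tL tC pcB (scP esg pd) [⟨0, 0, 0, 67108864⟩, ⟨1, 1, 0, 67108864⟩, ⟨2, 1, 0, 67108864⟩] 0 2 2 2 2 (sgb true) (sgb false) x := by
  have X : XR 67108864 x := XR.of hx hx' (by norm_num) (by norm_num) (by norm_num) (by norm_num)
  have hen : 0 < eng.v x := en_pos X.x0.le
  refine CornW.altA (C := cA022E) (j := (2 : Fin 6)) (k := (2 : Fin 6)) (Ef := esg) (pd := pd) (o := 1 / 20)
    (cornW_of (C := cA022E) (C0 := c0B) (En := eng) (mo := mog) (j := (2 : Fin 6)) (k := (2 : Fin 6)) (lo := 0) (hi := 2) (W := 67108864) (N0 := 3) cA022E_q (sideB hx hx') gokB (pinU hx hx') dokB X (by norm_num) (by norm_num) (l := (0 : Fin 6)) rfl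
      (gatB20 x) (gatB22 x) (gatB02 x) (datB20 x) (datB22 x) (datB02 x) ?_)
    (cornS_of (C := cA022E) (C0 := c0B) (j := (2 : Fin 6)) (k := (2 : Fin 6)) (lo := 0) (hi := 2) (W := 67108864) (N0 := 3) cA022E_q (sideB hx hx') gokB X (by norm_num) (by norm_num) (l := (0 : Fin 6)) rfl
      (gatB20 x) (gatB22 x) (gatB02 x) ?_)
    (thU (pinU hx hx')) rfl hκ (fun j q y => tC_eq j q y x) (esg_rng X.x0.le (by linarith [X.b, X.p0])).1 (mo_v x) le_rfl le_rfl
  · intro ρ a B hρ hd i h1 h2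
    fin_cases i
    · exact corW_cert (G1 := gB2q0) (G2 := gB2q2) (Ga := gB0q2) (Gb := gB1q2) (D1 := dB2q0) (D2 := dB2q2) (Da := dB0q2) (Db := dB1q2) cA022E_ok B hρ hen (gatB20 x) (gatB22 x) (fun _ => gatB02 x) (fun _ => gatB12 x) (datB20 x) (datB22 x) (fun _ => datB02 x) (fun _ => datB12 x) hd hx hx' CW.A022E_220
    · exact corW_cert (G1 := gB2q0) (G2 := gB2q2) (Ga := gB1q2) (Gb := gB2q2) (D1 := dB2q0) (D2 := dB2q2) (Da := dB1q2) (Db := dB2q2) cA022E_ok B hρ hen (gatB20 x) (gatB22 x) (fun _ => gatB12 x) (fun _ => gatB22 x) (datB20 x) (datB22 x) (fun _ => datB12 x) (fun _ => datB22 x) hd hx hx' CW.A022E_221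
    · exact corW_cert (G1 := gB2q0) (G2 := gB2q2) (Ga := gB2q2) (Gb := gB3q2) (D1 := dB2q0) (D2 := dB2q2) (Da := dB2q2) (Db := dB3q2) cA022E_ok B hρ hen (gatB20 x) (gatB22 x) (fun _ => gatB22 x) (fun h => absurd h (by decide)) (datB20 x) (datB22 x) (fun _ => datB22 x) (fun h => absurd h (by decide)) hd hx hx' CW.A022E_222
    · exact absurd h2 (by norm_num)
    · exact absurd h2 (by norm_num)
  · intro ρ a B hρ hd i h1 h2
    fin_cases i
    · exact corT_cert (G1 := gB2q0) (G2 := gB2q2) (Ga := gB0q2) (Gb := gB1q2) cA022E_ok B hρ (gatB20 x) (gatB22 x) (fun _ => gatB02 x) (fun _ => gatB12 x) hd hx hx' CG.A022E_220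
    · exact corT_cert (G1 := gB2q0) (G2 := gB2q2) (Ga := gB1q2) (Gb := gB2q2) cA022E_ok B hρ (gatB20 x) (gatB22 x) (fun _ => gatB12 x) (fun _ => gatB22 x) hd hx hx' CG.A022E_221
    · exact corT_cert (G1 := gB2q0) (G2 := gB2q2) (Ga := gB2q2) (Gb := gB3q2) cA022E_ok B hρ (gatB20 x) (gatB22 x) (fun _ => gatB22 x) (fun h => absurd h (by decide)) hd hx hx' CG.A022E_222
    · exact absurd h2 (by norm_num)
    · exact absurd h2 (by norm_num)

theorem altB_A022L_00 {κ x : ℝ} (hκ : κ * h0 = ken x) (hx : ((740881858 : ℕ) : ℝ) / S ≤ x) (hx' : x ≤ (((740881858 : ℕ) : ℝ) + (40050571 : ℕ)) / S) :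
    AltEA 3 κ (eng.v x) (1 / 20) (tnt (h0 * x) (1 / 5)) PP tK tL tC pcB (scP esg pd) [⟨0, 0, 0, 67108864⟩, ⟨1, 1, 0, 67108864⟩, ⟨2, 1, 0, 67108864⟩] 0 2 2 0 0 (sgb true) (sgb true) x := by
  have X : XR 67108864 x := XR.of hx hx' (by norm_num) (by norm_num) (by norm_num) (by norm_num)
  have hen : 0 < eng.v x := en_pos X.x0.le
  refine CornW.altA (C := cA022L) (j := (0 : Fin 6)) (k := (0 : Fin 6)) (Ef := esg) (pd := pd) (o := 1 / 20)
    (cornW_of (C := cA022L) (C0 := c0B) (En := eng) (mo := mog) (j := (0 : Fin 6)) (k := (0 : Fin 6)) (lo := 5) (hi := 5) (W := 67108864) (N0 := 3) cA022L_q (sideB hx hx') gokB (pinU hx hx') dokB X (by norm_num) (by norm_num) (l := (5 : Fin 6)) rfl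
      (gatB00 x) (gatB02 x) (gatB52 x) (datB00 x) (datB02 x) (datB52 x) ?_)
    (cornS_of (C := cA022L) (C0 := c0B) (j := (0 : Fin 6)) (k := (0 : Fin 6)) (lo := 5) (hi := 5) (W := 67108864) (N0 := 3) cA022L_q (sideB hx hx') gokB X (by norm_num) (by norm_num) (l := (5 : Fin 6)) rfl
      (gatB00 x) (gatB02 x) (gatB52 x) ?_)
    (thU (pinU hx hx')) rfl hκ (fun j q y => tC_eq j q y x) (esg_rng X.x0.le (by linarith [X.b, X.p0])).1 (mo_v x) le_rfl le_rfl
  · intro ρ a B hρ hd i h1 h2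
    fin_cases i
    · exact absurd h1 (by norm_num)
    · exact absurd h1 (by norm_num)
    · exact absurd h1 (by norm_num)
    · exact absurd h1 (by norm_num)
    · exact corW_cert (G1 := gB0q0) (G2 := gB0q2) (Ga := gB4q2) (Gb := gB5q2) (D1 := dB0q0) (D2 := dB0q2) (Da := dB4q2) (Db := dB5q2) cA022L_ok B hρ hen (gatB00 x) (gatB02 x) (fun h => absurd h (by decide)) (fun _ => gatB52 x) (datB00 x) (datB02 x) (fun h => absurd h (by decide)) (fun _ => datB52 x) hd hx hx' CW.A022L_004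
  · intro ρ a B hρ hd i h1 h2
    fin_cases i
    · exact absurd h1 (by norm_num)
    · exact absurd h1 (by norm_num)
    · exact absurd h1 (by norm_num)
    · exact absurd h1 (by norm_num)
    · exact corX_cert (G1 := gB0q0) (G2 := gB0q2) (Ga := gB4q2) (Gb := gB5q2) (GT := gB5q2) cA022L_ok tA022L_ok B hρ (gatB00 x) (gatB02 x) (fun h => absurd h (by decide)) (fun _ => gatB52 x) rfl (tgh_A022L (kodd x) (gpu0 x) (gpu2 x) (gpt2 x) (gatB00 x) (gatB02 x) (gatB52 x) B (le_sixteenth hd (by norm_num))) hd hx hx' CG.A022L_004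

theorem altB_A022L_01 {κ x : ℝ} (hκ : κ * h0 = ken x) (hx : ((740881858 : ℕ) : ℝ) / S ≤ x) (hx' : x ≤ (((740881858 : ℕ) : ℝ) + (40050571 : ℕ)) / S) :
    AltEA 3 κ (eng.v x) (1 / 20) (tnt (h0 * x) (1 / 5)) PP tK tL tC pcB (scP esg pd) [⟨0, 0, 0, 67108864⟩, ⟨1, 1, 0, 67108864⟩, ⟨2, 1, 0, 67108864⟩] 0 2 2 0 1 (sgb true) (sgb true) x := by
  have X : XR 67108864 x := XR.of hx hx' (by norm_num) (by norm_num) (by norm_num) (by norm_num)
  have hen : 0 < eng.v x := en_pos X.x0.le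
  refine CornW.altA (C := cA022L) (j := (0 : Fin 6)) (k := (1 : Fin 6)) (Ef := esg) (pd := pd) (o := 1 / 20)
    (cornW_of (C := cA022L) (C0 := c0B) (En := eng) (mo := mog) (j := (0 : Fin 6)) (k := (1 : Fin 6)) (lo := 5) (hi := 5) (W := 67108864) (N0 := 3) cA022L_q (sideB hx hx') gokB (pinU hx hx') dokB X (by norm_num) (by norm_num) (l := (5 : Fin 6)) rfl
      (gatB00 x) (gatB12 x) (gatB52 x) (datB00 x) (datB12 x) (datB52 x) ?_)
    (cornS_of (C := cA022L) (C0 := c0B) (j := (0 : Fin 6)) (k := (1 : Fin 6)) (lo := 5) (hi := 5) (W := 67108864) (N0 := 3) cA022L_q (sideB hx hx') gokB X (by norm_num) (by norm_num) (l := (5 : Fin 6)) rfl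
      (gatB00 x) (gatB12 x) (gatB52 x) ?_)
    (thU (pinU hx hx')) rfl hκ (fun j q y => tC_eq j q y x) (esg_rng X.x0.le (by linarith [X.b, X.p0])).1 (mo_v x) le_rfl le_rfl
  · intro ρ a B hρ hd i h1 h2
    fin_cases i
    · exact absurd h1 (by norm_num)
    · exact absurd h1 (by norm_num)
    · exact absurd h1 (by norm_num)
    · exact absurd h1 (by norm_num)
    · exact corW_cert (G1 := gB0q0) (G2 := gB1q2) (Ga := gB4q2) (Gb := gB5q2) (D1 := dB0q0) (D2 := dB1q2) (Da := dB4q2) (Db := dB5q2) cA022L_ok B hρ hen (gatB00 x) (gatB12 x) (fun h => absurd h (by decide)) (fun _ => gatB52 x) (datB00 x) (datB12 x) (fun h => absurd h (by decide)) (fun _ => datB52 x) hd hx hx' CW.A022L_014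
  · intro ρ a B hρ hd i h1 h2
    fin_cases i
    · exact absurd h1 (by norm_num)
    · exact absurd h1 (by norm_num)
    · exact absurd h1 (by norm_num)
    · exact absurd h1 (by norm_num)
    · exact corT_cert (G1 := gB0q0) (G2 := gB1q2) (Ga := gB4q2) (Gb := gB5q2) cA022L_ok B hρ (gatB00 x) (gatB12 x) (fun h => absurd h (by decide)) (fun _ => gatB52 x) hd hx hx' CG.A022L_014

theorem altB_A022L_02 {κ x : ℝ} (hκ : κ * h0 = ken x) (hx : ((740881858 : ℕ) : ℝ) / S ≤ x) (hx' : x ≤ (((740881858 : ℕ) : ℝ) + (40050571 : ℕ)) / S) :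
    AltEA 3 κ (eng.v x) (1 / 20) (tnt (h0 * x) (1 / 5)) PP tK tL tC pcB (scP esg pd) [⟨0, 0, 0, 67108864⟩, ⟨1, 1, 0, 67108864⟩, ⟨2, 1, 0, 67108864⟩] 0 2 2 0 2 (sgb true) (sgb true) x := by
  have X : XR 67108864 x := XR.of hx hx' (by norm_num) (by norm_num) (by norm_num) (by norm_num)
  have hen : 0 < eng.v x := en_pos X.x0.le
  refine CornW.altA (C := cA022L) (j := (0 : Fin 6)) (k := (2 : Fin 6)) (Ef := esg) (pd := pd) (o := 1 / 20)
    (cornW_of (C := cA022L) (C0 := c0B) (En := eng) (mo := mog) (j := (0 : Fin 6)) (k := (2 : Fin 6)) (lo := 5) (hi := 5) (W := 67108864) (N0 := 3) cA022L_q (sideB hx hx') gokB (pinU hx hx') dokB X (by norm_num) (by norm_num) (l := (5 : Fin 6)) rfl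
      (gatB00 x) (gatB22 x) (gatB52 x) (datB00 x) (datB22 x) (datB52 x) ?_)
    (cornS_of (C := cA022L) (C0 := c0B) (j := (0 : Fin 6)) (k := (2 : Fin 6)) (lo := 5) (hi := 5) (W := 67108864) (N0 := 3) cA022L_q (sideB hx hx') gokB X (by norm_num) (by norm_num) (l := (5 : Fin 6)) rfl
      (gatB00 x) (gatB22 x) (gatB52 x) ?_)
    (thU (pinU hx hx')) rfl hκ (fun j q y => tC_eq j q y x) (esg_rng X.x0.le (by linarith [X.b, X.p0])).1 (mo_v x) le_rfl le_rfl
  · intro ρ a B hρ hd i h1 h2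
    fin_cases i
    · exact absurd h1 (by norm_num)
    · exact absurd h1 (by norm_num)
    · exact absurd h1 (by norm_num)
    · exact absurd h1 (by norm_num)
    · exact corW_cert (G1 := gB0q0) (G2 := gB2q2) (Ga := gB4q2) (Gb := gB5q2) (D1 := dB0q0) (D2 := dB2q2) (Da := dB4q2) (Db := dB5q2) cA022L_ok B hρ hen (gatB00 x) (gatB22 x) (fun h => absurd h (by decide)) (fun _ => gatB52 x) (datB00 x) (datB22 x) (fun h => absurd h (by decide)) (fun _ => datB52 x) hd hx hx' CW.A022L_024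
  · intro ρ a B hρ hd i h1 h2
    fin_cases i
    · exact absurd h1 (by norm_num)
    · exact absurd h1 (by norm_num)
    · exact absurd h1 (by norm_num)
    · exact absurd h1 (by norm_num)
    · exact corT_cert (G1 := gB0q0) (G2 := gB2q2) (Ga := gB4q2) (Gb := gB5q2) cA022L_ok B hρ (gatB00 x) (gatB22 x) (fun h => absurd h (by decide)) (fun _ => gatB52 x) hd hx hx' CG.A022L_024

theorem altB_A022L_11 {κ x : ℝ} (hκ : κ * h0 = ken x) (hx : ((740881858 : ℕ) : ℝ) / S ≤ x) (hx' : x ≤ (((740881858 : ℕ) : ℝ) + (40050571 : ℕ)) / S) :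
    AltEA 3 κ (eng.v x) (1 / 20) (tnt (h0 * x) (1 / 5)) PP tK tL tC pcB (scP esg pd) [⟨0, 0, 0, 67108864⟩, ⟨1, 1, 0, 67108864⟩, ⟨2, 1, 0, 67108864⟩] 0 2 2 1 1 (sgb true) (sgb true) x := by
  have X : XR 67108864 x := XR.of hx hx' (by norm_num) (by norm_num) (by norm_num) (by norm_num)
  have hen : 0 < eng.v x := en_pos X.x0.le
  refine CornW.altA (C := cA022L) (j := (1 : Fin 6)) (k := (1 : Fin 6)) (Ef := esg) (pd := pd) (o := 1 / 20)
    (cornW_of (C := cA022L) (C0 := c0B) (En := eng) (mo := mog) (j := (1 : Fin 6)) (k := (1 : Fin 6)) (lo := 5) (hi := 5) (W := 67108864) (N0 := 3) cA022L_q (sideB hx hx') gokB (pinU hx hx') dokB X (by norm_num) (by norm_num) (l := (5 : Fin 6)) rfl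
      (gatB10 x) (gatB12 x) (gatB52 x) (datB10 x) (datB12 x) (datB52 x) ?_)
    (cornS_of (C := cA022L) (C0 := c0B) (j := (1 : Fin 6)) (k := (1 : Fin 6)) (lo := 5) (hi := 5) (W := 67108864) (N0 := 3) cA022L_q (sideB hx hx') gokB X (by norm_num) (by norm_num) (l := (5 : Fin 6)) rfl
      (gatB10 x) (gatB12 x) (gatB52 x) ?_)
    (thU (pinU hx hx')) rfl hκ (fun j q y => tC_eq j q y x) (esg_rng X.x0.le (by linarith [X.b, X.p0])).1 (mo_v x) le_rfl le_rfl
  · intro ρ a B hρ hd i h1 h2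
    fin_cases i
    · exact absurd h1 (by norm_num)
    · exact absurd h1 (by norm_num)
    · exact absurd h1 (by norm_num)
    · exact absurd h1 (by norm_num)
    · exact corW_cert (G1 := gB1q0) (G2 := gB1q2) (Ga := gB4q2) (Gb := gB5q2) (D1 := dB1q0) (D2 := dB1q2) (Da := dB4q2) (Db := dB5q2) cA022L_ok B hρ hen (gatB10 x) (gatB12 x) (fun h => absurd h (by decide)) (fun _ => gatB52 x) (datB10 x) (datB12 x) (fun h => absurd h (by decide)) (fun _ => datB52 x) hd hx hx' CW.A022L_114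
  · intro ρ a B hρ hd i h1 h2
    fin_cases i
    · exact absurd h1 (by norm_num)
    · exact absurd h1 (by norm_num)
    · exact absurd h1 (by norm_num)
    · exact absurd h1 (by norm_num)
    · exact corT_cert (G1 := gB1q0) (G2 := gB1q2) (Ga := gB4q2) (Gb := gB5q2) cA022L_ok B hρ (gatB10 x) (gatB12 x) (fun h => absurd h (by decide)) (fun _ => gatB52 x) hd hx hx' CG.A022L_114

theorem altB_A022L_12 {κ x : ℝ} (hκ : κ * h0 = ken x) (hx : ((740881858 : ℕ) : ℝ) / S ≤ x) (hx' : x ≤ (((740881858 : ℕ) : ℝ) + (40050571 : ℕ)) / S) :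
    AltEA 3 κ (eng.v x) (1 / 20) (tnt (h0 * x) (1 / 5)) PP tK tL tC pcB (scP esg pd) [⟨0, 0, 0, 67108864⟩, ⟨1, 1, 0, 67108864⟩, ⟨2, 1, 0, 67108864⟩] 0 2 2 1 2 (sgb true) (sgb true) x := by
  have X : XR 67108864 x := XR.of hx hx' (by norm_num) (by norm_num) (by norm_num) (by norm_num)
  have hen : 0 < eng.v x := en_pos X.x0.le
  refine CornW.altA (C := cA022L) (j := (1 : Fin 6)) (k := (2 : Fin 6)) (Ef := esg) (pd := pd) (o := 1 / 20)
    (cornW_of (C := cA022L) (C0 := c0B) (En := eng) (mo := mog) (j := (1 : Fin 6)) (k := (2 : Fin 6)) (lo := 5) (hi := 5) (W := 67108864) (N0 := 3) cA022L_q (sideB hx hx') gokB (pinU hx hx') dokB X (by norm_num) (by norm_num) (l := (5 : Fin 6)) rfl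
      (gatB10 x) (gatB22 x) (gatB52 x) (datB10 x) (datB22 x) (datB52 x) ?_)
    (cornS_of (C := cA022L) (C0 := c0B) (j := (1 : Fin 6)) (k := (2 : Fin 6)) (lo := 5) (hi := 5) (W := 67108864) (N0 := 3) cA022L_q (sideB hx hx') gokB X (by norm_num) (by norm_num) (l := (5 : Fin 6)) rfl
      (gatB10 x) (gatB22 x) (gatB52 x) ?_)
    (thU (pinU hx hx')) rfl hκ (fun j q y => tC_eq j q y x) (esg_rng X.x0.le (by linarith [X.b, X.p0])).1 (mo_v x) le_rfl le_rfl
  · intro ρ a B hρ hd i h1 h2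
    fin_cases i
    · exact absurd h1 (by norm_num)
    · exact absurd h1 (by norm_num)
    · exact absurd h1 (by norm_num)
    · exact absurd h1 (by norm_num)
    · exact corW_cert (G1 := gB1q0) (G2 := gB2q2) (Ga := gB4q2) (Gb := gB5q2) (D1 := dB1q0) (D2 := dB2q2) (Da := dB4q2) (Db := dB5q2) cA022L_ok B hρ hen (gatB10 x) (gatB22 x) (fun h => absurd h (by decide)) (fun _ => gatB52 x) (datB10 x) (datB22 x) (fun h => absurd h (by decide)) (fun _ => datB52 x) hd hx hx' CW.A022L_124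
  · intro ρ a B hρ hd i h1 h2
    fin_cases i
    · exact absurd h1 (by norm_num)
    · exact absurd h1 (by norm_num)
    · exact absurd h1 (by norm_num)
    · exact absurd h1 (by norm_num)
    · exact corT_cert (G1 := gB1q0) (G2 := gB2q2) (Ga := gB4q2) (Gb := gB5q2) cA022L_ok B hρ (gatB10 x) (gatB22 x) (fun h => absurd h (by decide)) (fun _ => gatB52 x) hd hx hx' CG.A022L_124

theorem altB_A022L_22 {κ x : ℝ} (hκ : κ * h0 = ken x) (hx : ((740881858 : ℕ) : ℝ) / S ≤ x) (hx' : x ≤ (((740881858 : ℕ) : ℝ) + (40050571 : ℕ)) / S) :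
    AltEA 3 κ (eng.v x) (1 / 20) (tnt (h0 * x) (1 / 5)) PP tK tL tC pcB (scP esg pd) [⟨0, 0, 0, 67108864⟩, ⟨1, 1, 0, 67108864⟩, ⟨2, 1, 0, 67108864⟩] 0 2 2 2 2 (sgb true) (sgb true) x := by
  have X : XR 67108864 x := XR.of hx hx' (by norm_num) (by norm_num) (by norm_num) (by norm_num)
  have hen : 0 < eng.v x := en_pos X.x0.le
  refine CornW.altA (C := cA022L) (j := (2 : Fin 6)) (k := (2 : Fin 6)) (Ef := esg) (pd := pd) (o := 1 / 20)
    (cornW_of (C := cA022L) (C0 := c0B) (En := eng) (mo := mog) (j := (2 : Fin 6)) (k := (2 : Fin 6)) (lo := 5) (hi := 5) (W := 67108864) (N0 := 3) cA022L_q (sideB hx hx') gokB (pinU hx hx') dokB X (by norm_num) (by norm_num) (l := (5 : Fin 6)) rfl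
      (gatB20 x) (gatB22 x) (gatB52 x) (datB20 x) (datB22 x) (datB52 x) ?_)
    (cornS_of (C := cA022L) (C0 := c0B) (j := (2 : Fin 6)) (k := (2 : Fin 6)) (lo := 5) (hi := 5) (W := 67108864) (N0 := 3) cA022L_q (sideB hx hx') gokB X (by norm_num) (by norm_num) (l := (5 : Fin 6)) rfl
      (gatB20 x) (gatB22 x) (gatB52 x) ?_)
    (thU (pinU hx hx')) rfl hκ (fun j q y => tC_eq j q y x) (esg_rng X.x0.le (by linarith [X.b, X.p0])).1 (mo_v x) le_rfl le_rfl
  · intro ρ a B hρ hd i h1 h2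
    fin_cases i
    · exact absurd h1 (by norm_num)
    · exact absurd h1 (by norm_num)
    · exact absurd h1 (by norm_num)
    · exact absurd h1 (by norm_num)
    · exact corW_cert (G1 := gB2q0) (G2 := gB2q2) (Ga := gB4q2) (Gb := gB5q2) (D1 := dB2q0) (D2 := dB2q2) (Da := dB4q2) (Db := dB5q2) cA022L_ok B hρ hen (gatB20 x) (gatB22 x) (fun h => absurd h (by decide)) (fun _ => gatB52 x) (datB20 x) (datB22 x) (fun h => absurd h (by decide)) (fun _ => datB52 x) hd hx hx' CW.A022L_224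
  · intro ρ a B hρ hd i h1 h2
    fin_cases i
    · exact absurd h1 (by norm_num)
    · exact absurd h1 (by norm_num)
    · exact absurd h1 (by norm_num)
    · exact absurd h1 (by norm_num)
    · exact corT_cert (G1 := gB2q0) (G2 := gB2q2) (Ga := gB4q2) (Gb := gB5q2) cA022L_ok B hρ (gatB20 x) (gatB22 x) (fun h => absurd h (by decide)) (fun _ => gatB52 x) hd hx hx' CG.A022L_224

theorem altB_A022R_05 {κ x : ℝ} (hκ : κ * h0 = ken x) (hx : ((740881858 : ℕ) : ℝ) / S ≤ x) (hx' : x ≤ (((740881858 : ℕ) : ℝ) + (40050571 : ℕ)) / S) :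
    AltEA 3 κ (eng.v x) (1 / 20) (tnt (h0 * x) (1 / 5)) PP tK tL tC pcB (scP esg pd) [⟨0, 0, 0, 67108864⟩, ⟨1, 1, 0, 67108864⟩, ⟨2, 1, 0, 67108864⟩] 0 2 2 0 5 (sgb true) (sgb false) x := by
  have X : XR 67108864 x := XR.of hx hx' (by norm_num) (by norm_num) (by norm_num) (by norm_num)
  have hen : 0 < eng.v x := en_pos X.x0.le
  refine CornW.altA (C := cA022R) (j := (0 : Fin 6)) (k := (5 : Fin 6)) (Ef := esg) (pd := pd) (o := 1 / 20)
    (cornW_of (C := cA022R) (C0 := c0B) (En := eng) (mo := mog) (j := (0 : Fin 6)) (k := (5 : Fin 6)) (lo := 0) (hi := 2) (W := 67108864) (N0 := 3) cA022R_q (sideB hx hx') gokB (pinU hx hx') dokB X (by norm_num) (by norm_num) (l := (0 : Fin 6)) rfl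
      (gatB00 x) (gatB52 x) (gatB02 x) (datB00 x) (datB52 x) (datB02 x) ?_)
    (cornS_of (C := cA022R) (C0 := c0B) (j := (0 : Fin 6)) (k := (5 : Fin 6)) (lo := 0) (hi := 2) (W := 67108864) (N0 := 3) cA022R_q (sideB hx hx') gokB X (by norm_num) (by norm_num) (l := (0 : Fin 6)) rfl
      (gatB00 x) (gatB52 x) (gatB02 x) ?_)
    (thU (pinU hx hx')) rfl hκ (fun j q y => tC_eq j q y x) (esg_rng X.x0.le (by linarith [X.b, X.p0])).1 (mo_v x) le_rfl le_rfl
  · intro ρ a B hρ hd i h1 h2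
    fin_cases i
    · exact corW_cert (G1 := gB0q0) (G2 := gB5q2) (Ga := gB0q2) (Gb := gB1q2) (D1 := dB0q0) (D2 := dB5q2) (Da := dB0q2) (Db := dB1q2) cA022R_ok B hρ hen (gatB00 x) (gatB52 x) (fun _ => gatB02 x) (fun _ => gatB12 x) (datB00 x) (datB52 x) (fun _ => datB02 x) (fun _ => datB12 x) hd hx hx' CW.A022R_050
    · exact corW_cert (G1 := gB0q0) (G2 := gB5q2) (Ga := gB1q2) (Gb := gB2q2) (D1 := dB0q0) (D2 := dB5q2) (Da := dB1q2) (Db := dB2q2) cA022R_ok B hρ hen (gatB00 x) (gatB52 x) (fun _ => gatB12 x) (fun _ => gatB22 x) (datB00 x) (datB52 x) (fun _ => datB12 x) (fun _ => datB22 x) hd hx hx' CW.A022R_051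
    · exact corW_cert (G1 := gB0q0) (G2 := gB5q2) (Ga := gB2q2) (Gb := gB3q2) (D1 := dB0q0) (D2 := dB5q2) (Da := dB2q2) (Db := dB3q2) cA022R_ok B hρ hen (gatB00 x) (gatB52 x) (fun _ => gatB22 x) (fun h => absurd h (by decide)) (datB00 x) (datB52 x) (fun _ => datB22 x) (fun h => absurd h (by decide)) hd hx hx' CW.A022R_052
    · exact absurd h2 (by norm_num)
    · exact absurd h2 (by norm_num)
  · intro ρ a B hρ hd i h1 h2
    fin_cases i
    · exact corT_cert (G1 := gB0q0) (G2 := gB5q2) (Ga := gB0q2) (Gb := gB1q2) cA022R_ok B hρ (gatB00 x) (gatB52 x) (fun _ => gatB02 x) (fun _ => gatB12 x) hd hx hx' CG.A022R_050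
    · exact corT_cert (G1 := gB0q0) (G2 := gB5q2) (Ga := gB1q2) (Gb := gB2q2) cA022R_ok B hρ (gatB00 x) (gatB52 x) (fun _ => gatB12 x) (fun _ => gatB22 x) hd hx hx' CG.A022R_051
    · exact corT_cert (G1 := gB0q0) (G2 := gB5q2) (Ga := gB2q2) (Gb := gB3q2) cA022R_ok B hρ (gatB00 x) (gatB52 x) (fun _ => gatB22 x) (fun h => absurd h (by decide)) hd hx hx' CG.A022R_052
    · exact absurd h2 (by norm_num)
    · exact absurd h2 (by norm_num)

theorem altB_A022R_15 {κ x : ℝ} (hκ : κ * h0 = ken x) (hx : ((740881858 : ℕ) : ℝ) / S ≤ x) (hx' : x ≤ (((740881858 : ℕ) : ℝ) + (40050571 : ℕ)) / S) :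
    AltEA 3 κ (eng.v x) (1 / 20) (tnt (h0 * x) (1 / 5)) PP tK tL tC pcB (scP esg pd) [⟨0, 0, 0, 67108864⟩, ⟨1, 1, 0, 67108864⟩, ⟨2, 1, 0, 67108864⟩] 0 2 2 1 5 (sgb true) (sgb false) x := by
  have X : XR 67108864 x := XR.of hx hx' (by norm_num) (by norm_num) (by norm_num) (by norm_num)
  have hen : 0 < eng.v x := en_pos X.x0.le
  refine CornW.altA (C := cA022R) (j := (1 : Fin 6)) (k := (5 : Fin 6)) (Ef := esg) (pd := pd) (o := 1 / 20)
    (cornW_of (C := cA022R) (C0 := c0B) (En := eng) (mo := mog) (j := (1 : Fin 6)) (k := (5 : Fin 6)) (lo := 0) (hi := 2) (W := 67108864) (N0 := 3) cA022R_q (sideB hx hx') gokB (pinU hx hx') dokB X (by norm_num) (by norm_num) (l := (0 : Fin 6)) rfl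
      (gatB10 x) (gatB52 x) (gatB02 x) (datB10 x) (datB52 x) (datB02 x) ?_)
    (cornS_of (C := cA022R) (C0 := c0B) (j := (1 : Fin 6)) (k := (5 : Fin 6)) (lo := 0) (hi := 2) (W := 67108864) (N0 := 3) cA022R_q (sideB hx hx') gokB X (by norm_num) (by norm_num) (l := (0 : Fin 6)) rfl
      (gatB10 x) (gatB52 x) (gatB02 x) ?_)
    (thU (pinU hx hx')) rfl hκ (fun j q y => tC_eq j q y x) (esg_rng X.x0.le (by linarith [X.b, X.p0])).1 (mo_v x) le_rfl le_rfl
  · intro ρ a B hρ hd i h1 h2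
    fin_cases i
    · exact corW_cert (G1 := gB1q0) (G2 := gB5q2) (Ga := gB0q2) (Gb := gB1q2) (D1 := dB1q0) (D2 := dB5q2) (Da := dB0q2) (Db := dB1q2) cA022R_ok B hρ hen (gatB10 x) (gatB52 x) (fun _ => gatB02 x) (fun _ => gatB12 x) (datB10 x) (datB52 x) (fun _ => datB02 x) (fun _ => datB12 x) hd hx hx' CW.A022R_150
    · exact corW_cert (G1 := gB1q0) (G2 := gB5q2) (Ga := gB1q2) (Gb := gB2q2) (D1 := dB1q0) (D2 := dB5q2) (Da := dB1q2) (Db := dB2q2) cA022R_ok B hρ hen (gatB10 x) (gatB52 x) (fun _ => gatB12 x) (fun _ => gatB22 x) (datB10 x) (datB52 x) (fun _ => datB12 x) (fun _ => datB22 x) hd hx hx' CW.A022R_151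
    · exact corW_cert (G1 := gB1q0) (G2 := gB5q2) (Ga := gB2q2) (Gb := gB3q2) (D1 := dB1q0) (D2 := dB5q2) (Da := dB2q2) (Db := dB3q2) cA022R_ok B hρ hen (gatB10 x) (gatB52 x) (fun _ => gatB22 x) (fun h => absurd h (by decide)) (datB10 x) (datB52 x) (fun _ => datB22 x) (fun h => absurd h (by decide)) hd hx hx' CW.A022R_152
    · exact absurd h2 (by norm_num)
    · exact absurd h2 (by norm_num)
  · intro ρ a B hρ hd i h1 h2
    fin_cases i
    · exact corT_cert (G1 := gB1q0) (G2 := gB5q2) (Ga := gB0q2) (Gb := gB1q2) cA022R_ok B hρ (gatB10 x) (gatB52 x) (fun _ => gatB02 x) (fun _ => gatB12 x) hd hx hx' CG.A022R_150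
    · exact corT_cert (G1 := gB1q0) (G2 := gB5q2) (Ga := gB1q2) (Gb := gB2q2) cA022R_ok B hρ (gatB10 x) (gatB52 x) (fun _ => gatB12 x) (fun _ => gatB22 x) hd hx hx' CG.A022R_151
    · exact corT_cert (G1 := gB1q0) (G2 := gB5q2) (Ga := gB2q2) (Gb := gB3q2) cA022R_ok B hρ (gatB10 x) (gatB52 x) (fun _ => gatB22 x) (fun h => absurd h (by decide)) hd hx hx' CG.A022R_152
    · exact absurd h2 (by norm_num)
    · exact absurd h2 (by norm_num)

theorem altB_A022R_25 {κ x : ℝ} (hκ : κ * h0 = ken x) (hx : ((740881858 : ℕ) : ℝ) / S ≤ x) (hx' : x ≤ (((740881858 : ℕ) : ℝ) + (40050571 : ℕ)) / S) :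
    AltEA 3 κ (eng.v x) (1 / 20) (tnt (h0 * x) (1 / 5)) PP tK tL tC pcB (scP esg pd) [⟨0, 0, 0, 67108864⟩, ⟨1, 1, 0, 67108864⟩, ⟨2, 1, 0, 67108864⟩] 0 2 2 2 5 (sgb true) (sgb false) x := by
  have X : XR 67108864 x := XR.of hx hx' (by norm_num) (by norm_num) (by norm_num) (by norm_num)
  have hen : 0 < eng.v x := en_pos X.x0.le
  refine CornW.altA (C := cA022R) (j := (2 : Fin 6)) (k := (5 : Fin 6)) (Ef := esg) (pd := pd) (o := 1 / 20)
    (cornW_of (C := cA022R) (C0 := c0B) (En := eng) (mo := mog) (j := (2 : Fin 6)) (k := (5 : Fin 6)) (lo := 0) (hi := 2) (W := 67108864) (N0 := 3) cA022R_q (sideB hx hx') gokB (pinU hx hx') dokB X (by norm_num) (by norm_num) (l := (0 : Fin 6)) rfl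
      (gatB20 x) (gatB52 x) (gatB02 x) (datB20 x) (datB52 x) (datB02 x) ?_)
    (cornS_of (C := cA022R) (C0 := c0B) (j := (2 : Fin 6)) (k := (5 : Fin 6)) (lo := 0) (hi := 2) (W := 67108864) (N0 := 3) cA022R_q (sideB hx hx') gokB X (by norm_num) (by norm_num) (l := (0 : Fin 6)) rfl
      (gatB20 x) (gatB52 x) (gatB02 x) ?_)
    (thU (pinU hx hx')) rfl hκ (fun j q y => tC_eq j q y x) (esg_rng X.x0.le (by linarith [X.b, X.p0])).1 (mo_v x) le_rfl le_rfl
  · intro ρ a B hρ hd i h1 h2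
    fin_cases i
    · exact corW_cert (G1 := gB2q0) (G2 := gB5q2) (Ga := gB0q2) (Gb := gB1q2) (D1 := dB2q0) (D2 := dB5q2) (Da := dB0q2) (Db := dB1q2) cA022R_ok B hρ hen (gatB20 x) (gatB52 x) (fun _ => gatB02 x) (fun _ => gatB12 x) (datB20 x) (datB52 x) (fun _ => datB02 x) (fun _ => datB12 x) hd hx hx' CW.A022R_250
    · exact corW_cert (G1 := gB2q0) (G2 := gB5q2) (Ga := gB1q2) (Gb := gB2q2) (D1 := dB2q0) (D2 := dB5q2) (Da := dB1q2) (Db := dB2q2) cA022R_ok B hρ hen (gatB20 x) (gatB52 x) (fun _ => gatB12 x) (fun _ => gatB22 x) (datB20 x) (datB52 x) (fun _ => datB12 x) (fun _ => datB22 x) hd hx hx' CW.A022R_251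
    · exact corW_cert (G1 := gB2q0) (G2 := gB5q2) (Ga := gB2q2) (Gb := gB3q2) (D1 := dB2q0) (D2 := dB5q2) (Da := dB2q2) (Db := dB3q2) cA022R_ok B hρ hen (gatB20 x) (gatB52 x) (fun _ => gatB22 x) (fun h => absurd h (by decide)) (datB20 x) (datB52 x) (fun _ => datB22 x) (fun h => absurd h (by decide)) hd hx hx' CW.A022R_252
    · exact absurd h2 (by norm_num)
    · exact absurd h2 (by norm_num)
  · intro ρ a B hρ hd i h1 h2
    fin_cases i
    · exact corT_cert (G1 := gB2q0) (G2 := gB5q2) (Ga := gB0q2) (Gb := gB1q2) cA022R_ok B hρ (gatB20 x) (gatB52 x) (fun _ => gatB02 x) (fun _ => gatB12 x) hd hx hx' CG.A022R_250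
    · exact corT_cert (G1 := gB2q0) (G2 := gB5q2) (Ga := gB1q2) (Gb := gB2q2) cA022R_ok B hρ (gatB20 x) (gatB52 x) (fun _ => gatB12 x) (fun _ => gatB22 x) hd hx hx' CG.A022R_251
    · exact corT_cert (G1 := gB2q0) (G2 := gB5q2) (Ga := gB2q2) (Gb := gB3q2) cA022R_ok B hρ (gatB20 x) (gatB52 x) (fun _ => gatB22 x) (fun h => absurd h (by decide)) hd hx hx' CG.A022R_252
    · exact absurd h2 (by norm_num)
    · exact absurd h2 (by norm_num)

theorem altB_A101E_00 {κ x : ℝ} (hκ : κ * h0 = ken x) (hx : ((740881858 : ℕ) : ℝ) / S ≤ x) (hx' : x ≤ (((740881858 : ℕ) : ℝ) + (40050571 : ℕ)) / S) :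
    AltEA 3 κ (eng.v x) (1 / 20) (tnt (h0 * x) (1 / 5)) PP tK tL tC pcB (scP esg pd) [⟨0, 1, 0, 67108864⟩, ⟨1, 0, 0, 67108864⟩, ⟨2, 1, 0, 67108864⟩] 1 0 1 0 0 (sgb true) (sgb false) x := by
  have X : XR 67108864 x := XR.of hx hx' (by norm_num) (by norm_num) (by norm_num) (by norm_num)
  have hen : 0 < eng.v x := en_pos X.x0.le
  refine CornW.altA (C := cA101E) (j := (0 : Fin 6)) (k := (0 : Fin 6)) (Ef := esg) (pd := pd) (o := 1 / 20)
    (cornW_of (C := cA101E) (C0 := c0B) (En := eng) (mo := mog) (j := (0 : Fin 6)) (k := (0 : Fin 6)) (lo := 0) (hi := 0) (W := 67108864) (N0 := 3) cA101E_q (sideB hx hx') gokB (pinU hx hx') dokB X (by norm_num) (by norm_num) (l := (0 : Fin 6)) rfl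
      (gatB01 x) (gatB00 x) (gatB01 x) (datB01 x) (datB00 x) (datB01 x) ?_)
    (cornS_of (C := cA101E) (C0 := c0B) (j := (0 : Fin 6)) (k := (0 : Fin 6)) (lo := 0) (hi := 0) (W := 67108864) (N0 := 3) cA101E_q (sideB hx hx') gokB X (by norm_num) (by norm_num) (l := (0 : Fin 6)) rfl
      (gatB01 x) (gatB00 x) (gatB01 x) ?_)
    (thU (pinU hx hx')) rfl hκ (fun j q y => tC_eq j q y x) (esg_rng X.x0.le (by linarith [X.b, X.p0])).1 (mo_v x) le_rfl le_rfl
  · intro ρ a B hρ hd i h1 h2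
    fin_cases i
    · exact corW_cert (G1 := gB0q1) (G2 := gB0q0) (Ga := gB0q1) (Gb := gB1q1) (D1 := dB0q1) (D2 := dB0q0) (Da := dB0q1) (Db := dB1q1) cA101E_ok B hρ hen (gatB01 x) (gatB00 x) (fun _ => gatB01 x) (fun h => absurd h (by decide)) (datB01 x) (datB00 x) (fun _ => datB01 x) (fun h => absurd h (by decide)) hd hx hx' CW.A101E_000
    · exact absurd h2 (by norm_num)
    · exact absurd h2 (by norm_num)
    · exact absurd h2 (by norm_num)
    · exact absurd h2 (by norm_num)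
  · intro ρ a B hρ hd i h1 h2
    fin_cases i
    · exact corT_cert (G1 := gB0q1) (G2 := gB0q0) (Ga := gB0q1) (Gb := gB1q1) cA101E_ok B hρ (gatB01 x) (gatB00 x) (fun _ => gatB01 x) (fun h => absurd h (by decide)) hd hx hx' CG.A101E_000
    · exact absurd h2 (by norm_num)
    · exact absurd h2 (by norm_num)
    · exact absurd h2 (by norm_num)
    · exact absurd h2 (by norm_num)

theorem altB_A101E_01 {κ x : ℝ} (hκ : κ * h0 = ken x) (hx : ((740881858 : ℕ) : ℝ) / S ≤ x) (hx' : x ≤ (((740881858 : ℕ) : ℝ) + (40050571 : ℕ)) / S) :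
    AltEA 3 κ (eng.v x) (1 / 20) (tnt (h0 * x) (1 / 5)) PP tK tL tC pcB (scP esg pd) [⟨0, 1, 0, 67108864⟩, ⟨1, 0, 0, 67108864⟩, ⟨2, 1, 0, 67108864⟩] 1 0 1 0 1 (sgb true) (sgb false) x := by
  have X : XR 67108864 x := XR.of hx hx' (by norm_num) (by norm_num) (by norm_num) (by norm_num)
  have hen : 0 < eng.v x := en_pos X.x0.le
  refine CornW.altA (C := cA101E) (j := (0 : Fin 6)) (k := (1 : Fin 6)) (Ef := esg) (pd := pd) (o := 1 / 20)
    (cornW_of (C := cA101E) (C0 := c0B) (En := eng) (mo := mog) (j := (0 : Fin 6)) (k := (1 : Fin 6)) (lo := 0) (hi := 0) (W := 67108864) (N0 := 3) cA101E_q (sideB hx hx') gokB (pinU hx hx') dokB X (by norm_num) (by norm_num) (l := (0 : Fin 6)) rfl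
      (gatB01 x) (gatB10 x) (gatB01 x) (datB01 x) (datB10 x) (datB01 x) ?_)
    (cornS_of (C := cA101E) (C0 := c0B) (j := (0 : Fin 6)) (k := (1 : Fin 6)) (lo := 0) (hi := 0) (W := 67108864) (N0 := 3) cA101E_q (sideB hx hx') gokB X (by norm_num) (by norm_num) (l := (0 : Fin 6)) rfl
      (gatB01 x) (gatB10 x) (gatB01 x) ?_)
    (thU (pinU hx hx')) rfl hκ (fun j q y => tC_eq j q y x) (esg_rng X.x0.le (by linarith [X.b, X.p0])).1 (mo_v x) le_rfl le_rfl
  · intro ρ a B hρ hd i h1 h2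
    fin_cases i
    · exact corW_cert (G1 := gB0q1) (G2 := gB1q0) (Ga := gB0q1) (Gb := gB1q1) (D1 := dB0q1) (D2 := dB1q0) (Da := dB0q1) (Db := dB1q1) cA101E_ok B hρ hen (gatB01 x) (gatB10 x) (fun _ => gatB01 x) (fun h => absurd h (by decide)) (datB01 x) (datB10 x) (fun _ => datB01 x) (fun h => absurd h (by decide)) hd hx hx' CW.A101E_010
    · exact absurd h2 (by norm_num)
    · exact absurd h2 (by norm_num)
    · exact absurd h2 (by norm_num)
    · exact absurd h2 (by norm_num)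
  · intro ρ a B hρ hd i h1 h2
    fin_cases i
    · exact corT_cert (G1 := gB0q1) (G2 := gB1q0) (Ga := gB0q1) (Gb := gB1q1) cA101E_ok B hρ (gatB01 x) (gatB10 x) (fun _ => gatB01 x) (fun h => absurd h (by decide)) hd hx hx' CG.A101E_010
    · exact absurd h2 (by norm_num)
    · exact absurd h2 (by norm_num)
    · exact absurd h2 (by norm_num)
    · exact absurd h2 (by norm_num)

theorem altB_A101E_02 {κ x : ℝ} (hκ : κ * h0 = ken x) (hx : ((740881858 : ℕ) : ℝ) / S ≤ x) (hx' : x ≤ (((740881858 : ℕ) : ℝ) + (40050571 : ℕ)) / S) :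
    AltEA 3 κ (eng.v x) (1 / 20) (tnt (h0 * x) (1 / 5)) PP tK tL tC pcB (scP esg pd) [⟨0, 1, 0, 67108864⟩, ⟨1, 0, 0, 67108864⟩, ⟨2, 1, 0, 67108864⟩] 1 0 1 0 2 (sgb true) (sgb false) x := by
  have X : XR 67108864 x := XR.of hx hx' (by norm_num) (by norm_num) (by norm_num) (by norm_num)
  have hen : 0 < eng.v x := en_pos X.x0.le
  refine CornW.altA (C := cA101E) (j := (0 : Fin 6)) (k := (2 : Fin 6)) (Ef := esg) (pd := pd) (o := 1 / 20)
    (cornW_of (C := cA101E) (C0 := c0B) (En := eng) (mo := mog) (j := (0 : Fin 6)) (k := (2 : Fin 6)) (lo := 0) (hi := 0) (W := 67108864) (N0 := 3) cA101E_q (sideB hx hx') gokB (pinU hx hx') dokB X (by norm_num) (by norm_num) (l := (0 : Fin 6)) rfl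
      (gatB01 x) (gatB20 x) (gatB01 x) (datB01 x) (datB20 x) (datB01 x) ?_)
    (cornS_of (C := cA101E) (C0 := c0B) (j := (0 : Fin 6)) (k := (2 : Fin 6)) (lo := 0) (hi := 0) (W := 67108864) (N0 := 3) cA101E_q (sideB hx hx') gokB X (by norm_num) (by norm_num) (l := (0 : Fin 6)) rfl
      (gatB01 x) (gatB20 x) (gatB01 x) ?_)
    (thU (pinU hx hx')) rfl hκ (fun j q y => tC_eq j q y x) (esg_rng X.x0.le (by linarith [X.b, X.p0])).1 (mo_v x) le_rfl le_rfl
  · intro ρ a B hρ hd i h1 h2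
    fin_cases i
    · exact corW_cert (G1 := gB0q1) (G2 := gB2q0) (Ga := gB0q1) (Gb := gB1q1) (D1 := dB0q1) (D2 := dB2q0) (Da := dB0q1) (Db := dB1q1) cA101E_ok B hρ hen (gatB01 x) (gatB20 x) (fun _ => gatB01 x) (fun h => absurd h (by decide)) (datB01 x) (datB20 x) (fun _ => datB01 x) (fun h => absurd h (by decide)) hd hx hx' CW.A101E_020
    · exact absurd h2 (by norm_num)
    · exact absurd h2 (by norm_num)
    · exact absurd h2 (by norm_num)
    · exact absurd h2 (by norm_num)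
  · intro ρ a B hρ hd i h1 h2
    fin_cases i
    · exact corT_cert (G1 := gB0q1) (G2 := gB2q0) (Ga := gB0q1) (Gb := gB1q1) cA101E_ok B hρ (gatB01 x) (gatB20 x) (fun _ => gatB01 x) (fun h => absurd h (by decide)) hd hx hx' CG.A101E_020
    · exact absurd h2 (by norm_num)
    · exact absurd h2 (by norm_num)
    · exact absurd h2 (by norm_num)
    · exact absurd h2 (by norm_num)

theorem altB_A101R_00 {κ x : ℝ} (hκ : κ * h0 = ken x) (hx : ((740881858 : ℕ) : ℝ) / S ≤ x) (hx' : x ≤ (((740881858 : ℕ) : ℝ) + (40050571 : ℕ)) / S) :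
    AltEA 3 κ (eng.v x) (1 / 20) (tnt (h0 * x) (1 / 5)) PP tK tL tC pcB (scP esg pd) [⟨0, 1, 0, 67108864⟩, ⟨1, 0, 0, 67108864⟩, ⟨2, 1, 0, 67108864⟩] 1 0 1 0 0 (sgb false) (sgb false) x := by
  have X : XR 67108864 x := XR.of hx hx' (by norm_num) (by norm_num) (by norm_num) (by norm_num)
  have hen : 0 < eng.v x := en_pos X.x0.le
  refine CornW.altA (C := cA101R) (j := (0 : Fin 6)) (k := (0 : Fin 6)) (Ef := esg) (pd := pd) (o := 1 / 20)
    (cornW_of (C := cA101R) (C0 := c0B) (En := eng) (mo := mog) (j := (0 : Fin 6)) (k := (0 : Fin 6)) (lo := 3) (hi := 5) (W := 67108864) (N0 := 3) cA101R_q (sideB hx hx') gokB (pinU hx hx') dokB X (by norm_num) (by norm_num) (l := (3 : Fin 6)) rfl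
      (gatB01 x) (gatB00 x) (gatB31 x) (datB01 x) (datB00 x) (datB31 x) ?_)
    (cornS_of (C := cA101R) (C0 := c0B) (j := (0 : Fin 6)) (k := (0 : Fin 6)) (lo := 3) (hi := 5) (W := 67108864) (N0 := 3) cA101R_q (sideB hx hx') gokB X (by norm_num) (by norm_num) (l := (3 : Fin 6)) rfl
      (gatB01 x) (gatB00 x) (gatB31 x) ?_)
    (thU (pinU hx hx')) rfl hκ (fun j q y => tC_eq j q y x) (esg_rng X.x0.le (by linarith [X.b, X.p0])).1 (mo_v x) le_rfl le_rfl
  · intro ρ a B hρ hd i h1 h2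
    fin_cases i
    · exact absurd h1 (by norm_num)
    · exact absurd h1 (by norm_num)
    · exact corW_cert (G1 := gB0q1) (G2 := gB0q0) (Ga := gB2q1) (Gb := gB3q1) (D1 := dB0q1) (D2 := dB0q0) (Da := dB2q1) (Db := dB3q1) cA101R_ok B hρ hen (gatB01 x) (gatB00 x) (fun h => absurd h (by decide)) (fun _ => gatB31 x) (datB01 x) (datB00 x) (fun h => absurd h (by decide)) (fun _ => datB31 x) hd hx hx' CW.A101R_002
    · exact corW_cert (G1 := gB0q1) (G2 := gB0q0) (Ga := gB3q1) (Gb := gB4q1) (D1 := dB0q1) (D2 := dB0q0) (Da := dB3q1) (Db := dB4q1) cA101R_ok B hρ hen (gatB01 x) (gatB00 x) (fun _ => gatB31 x) (fun _ => gatB41 x) (datB01 x) (datB00 x) (fun _ => datB31 x) (fun _ => datB41 x) hd hx hx' CW.A101R_003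
    · exact corW_cert (G1 := gB0q1) (G2 := gB0q0) (Ga := gB4q1) (Gb := gB5q1) (D1 := dB0q1) (D2 := dB0q0) (Da := dB4q1) (Db := dB5q1) cA101R_ok B hρ hen (gatB01 x) (gatB00 x) (fun _ => gatB41 x) (fun _ => gatB51 x) (datB01 x) (datB00 x) (fun _ => datB41 x) (fun _ => datB51 x) hd hx hx' CW.A101R_004
  · intro ρ a B hρ hd i h1 h2
    fin_cases i
    · exact absurd h1 (by norm_num)
    · exact absurd h1 (by norm_num)
    · exact corT_cert (G1 := gB0q1) (G2 := gB0q0) (Ga := gB2q1) (Gb := gB3q1) cA101R_ok B hρ (gatB01 x) (gatB00 x) (fun h => absurd h (by decide)) (fun _ => gatB31 x) hd hx hx' CG.A101R_002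
    · exact corT_cert (G1 := gB0q1) (G2 := gB0q0) (Ga := gB3q1) (Gb := gB4q1) cA101R_ok B hρ (gatB01 x) (gatB00 x) (fun _ => gatB31 x) (fun _ => gatB41 x) hd hx hx' CG.A101R_003
    · exact corT_cert (G1 := gB0q1) (G2 := gB0q0) (Ga := gB4q1) (Gb := gB5q1) cA101R_ok B hρ (gatB01 x) (gatB00 x) (fun _ => gatB41 x) (fun _ => gatB51 x) hd hx hx' CG.A101R_004

theorem altB_A101R_01 {κ x : ℝ} (hκ : κ * h0 = ken x) (hx : ((740881858 : ℕ) : ℝ) / S ≤ x) (hx' : x ≤ (((740881858 : ℕ) : ℝ) + (40050571 : ℕ)) / S) :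
    AltEA 3 κ (eng.v x) (1 / 20) (tnt (h0 * x) (1 / 5)) PP tK tL tC pcB (scP esg pd) [⟨0, 1, 0, 67108864⟩, ⟨1, 0, 0, 67108864⟩, ⟨2, 1, 0, 67108864⟩] 1 0 1 0 1 (sgb false) (sgb false) x := by
  have X : XR 67108864 x := XR.of hx hx' (by norm_num) (by norm_num) (by norm_num) (by norm_num)
  have hen : 0 < eng.v x := en_pos X.x0.le
  refine CornW.altA (C := cA101R) (j := (0 : Fin 6)) (k := (1 : Fin 6)) (Ef := esg) (pd := pd) (o := 1 / 20)
    (cornW_of (C := cA101R) (C0 := c0B) (En := eng) (mo := mog) (j := (0 : Fin 6)) (k := (1 : Fin 6)) (lo := 3) (hi := 5) (W := 67108864) (N0 := 3) cA101R_q (sideB hx hx') gokB (pinU hx hx') dokB X (by norm_num) (by norm_num) (l := (3 : Fin 6)) rfl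
      (gatB01 x) (gatB10 x) (gatB31 x) (datB01 x) (datB10 x) (datB31 x) ?_)
    (cornS_of (C := cA101R) (C0 := c0B) (j := (0 : Fin 6)) (k := (1 : Fin 6)) (lo := 3) (hi := 5) (W := 67108864) (N0 := 3) cA101R_q (sideB hx hx') gokB X (by norm_num) (by norm_num) (l := (3 : Fin 6)) rfl
      (gatB01 x) (gatB10 x) (gatB31 x) ?_)
    (thU (pinU hx hx')) rfl hκ (fun j q y => tC_eq j q y x) (esg_rng X.x0.le (by linarith [X.b, X.p0])).1 (mo_v x) le_rfl le_rfl
  · intro ρ a B hρ hd i h1 h2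
    fin_cases i
    · exact absurd h1 (by norm_num)
    · exact absurd h1 (by norm_num)
    · exact corW_cert (G1 := gB0q1) (G2 := gB1q0) (Ga := gB2q1) (Gb := gB3q1) (D1 := dB0q1) (D2 := dB1q0) (Da := dB2q1) (Db := dB3q1) cA101R_ok B hρ hen (gatB01 x) (gatB10 x) (fun h => absurd h (by decide)) (fun _ => gatB31 x) (datB01 x) (datB10 x) (fun h => absurd h (by decide)) (fun _ => datB31 x) hd hx hx' CW.A101R_012
    · exact corW_cert (G1 := gB0q1) (G2 := gB1q0) (Ga := gB3q1) (Gb := gB4q1) (D1 := dB0q1) (D2 := dB1q0) (Da := dB3q1) (Db := dB4q1) cA101R_ok B hρ hen (gatB01 x) (gatB10 x) (fun _ => gatB31 x) (fun _ => gatB41 x) (datB01 x) (datB10 x) (fun _ => datB31 x) (fun _ => datB41 x) hd hx hx' CW.A101R_013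
    · exact corW_cert (G1 := gB0q1) (G2 := gB1q0) (Ga := gB4q1) (Gb := gB5q1) (D1 := dB0q1) (D2 := dB1q0) (Da := dB4q1) (Db := dB5q1) cA101R_ok B hρ hen (gatB01 x) (gatB10 x) (fun _ => gatB41 x) (fun _ => gatB51 x) (datB01 x) (datB10 x) (fun _ => datB41 x) (fun _ => datB51 x) hd hx hx' CW.A101R_014
  · intro ρ a B hρ hd i h1 h2
    fin_cases i
    · exact absurd h1 (by norm_num)
    · exact absurd h1 (by norm_num)
    · exact corT_cert (G1 := gB0q1) (G2 := gB1q0) (Ga := gB2q1) (Gb := gB3q1) cA101R_ok B hρ (gatB01 x) (gatB10 x) (fun h => absurd h (by decide)) (fun _ => gatB31 x) hd hx hx' CG.A101R_012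
    · exact corT_cert (G1 := gB0q1) (G2 := gB1q0) (Ga := gB3q1) (Gb := gB4q1) cA101R_ok B hρ (gatB01 x) (gatB10 x) (fun _ => gatB31 x) (fun _ => gatB41 x) hd hx hx' CG.A101R_013
    · exact corT_cert (G1 := gB0q1) (G2 := gB1q0) (Ga := gB4q1) (Gb := gB5q1) cA101R_ok B hρ (gatB01 x) (gatB10 x) (fun _ => gatB41 x) (fun _ => gatB51 x) hd hx hx' CG.A101R_014

theorem altB_A101R_02 {κ x : ℝ} (hκ : κ * h0 = ken x) (hx : ((740881858 : ℕ) : ℝ) / S ≤ x) (hx' : x ≤ (((740881858 : ℕ) : ℝ) + (40050571 : ℕ)) / S) :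
    AltEA 3 κ (eng.v x) (1 / 20) (tnt (h0 * x) (1 / 5)) PP tK tL tC pcB (scP esg pd) [⟨0, 1, 0, 67108864⟩, ⟨1, 0, 0, 67108864⟩, ⟨2, 1, 0, 67108864⟩] 1 0 1 0 2 (sgb false) (sgb false) x := by
  have X : XR 67108864 x := XR.of hx hx' (by norm_num) (by norm_num) (by norm_num) (by norm_num)
  have hen : 0 < eng.v x := en_pos X.x0.le
  refine CornW.altA (C := cA101R) (j := (0 : Fin 6)) (k := (2 : Fin 6)) (Ef := esg) (pd := pd) (o := 1 / 20)
    (cornW_of (C := cA101R) (C0 := c0B) (En := eng) (mo := mog) (j := (0 : Fin 6)) (k := (2 : Fin 6)) (lo := 3) (hi := 5) (W := 67108864) (N0 := 3) cA101R_q (sideB hx hx') gokB (pinU hx hx') dokB X (by norm_num) (by norm_num) (l := (3 : Fin 6)) rfl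
      (gatB01 x) (gatB20 x) (gatB31 x) (datB01 x) (datB20 x) (datB31 x) ?_)
    (cornS_of (C := cA101R) (C0 := c0B) (j := (0 : Fin 6)) (k := (2 : Fin 6)) (lo := 3) (hi := 5) (W := 67108864) (N0 := 3) cA101R_q (sideB hx hx') gokB X (by norm_num) (by norm_num) (l := (3 : Fin 6)) rfl
      (gatB01 x) (gatB20 x) (gatB31 x) ?_)
    (thU (pinU hx hx')) rfl hκ (fun j q y => tC_eq j q y x) (esg_rng X.x0.le (by linarith [X.b, X.p0])).1 (mo_v x) le_rfl le_rfl
  · intro ρ a B hρ hd i h1 h2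
    fin_cases i
    · exact absurd h1 (by norm_num)
    · exact absurd h1 (by norm_num)
    · exact corW_cert (G1 := gB0q1) (G2 := gB2q0) (Ga := gB2q1) (Gb := gB3q1) (D1 := dB0q1) (D2 := dB2q0) (Da := dB2q1) (Db := dB3q1) cA101R_ok B hρ hen (gatB01 x) (gatB20 x) (fun h => absurd h (by decide)) (fun _ => gatB31 x) (datB01 x) (datB20 x) (fun h => absurd h (by decide)) (fun _ => datB31 x) hd hx hx' CW.A101R_022
    · exact corW_cert (G1 := gB0q1) (G2 := gB2q0) (Ga := gB3q1) (Gb := gB4q1) (D1 := dB0q1) (D2 := dB2q0) (Da := dB3q1) (Db := dB4q1) cA101R_ok B hρ hen (gatB01 x) (gatB20 x) (fun _ => gatB31 x) (fun _ => gatB41 x) (datB01 x) (datB20 x) (fun _ => datB31 x) (fun _ => datB41 x) hd hx hx' CW.A101R_023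
    · exact corW_cert (G1 := gB0q1) (G2 := gB2q0) (Ga := gB4q1) (Gb := gB5q1) (D1 := dB0q1) (D2 := dB2q0) (Da := dB4q1) (Db := dB5q1) cA101R_ok B hρ hen (gatB01 x) (gatB20 x) (fun _ => gatB41 x) (fun _ => gatB51 x) (datB01 x) (datB20 x) (fun _ => datB41 x) (fun _ => datB51 x) hd hx hx' CW.A101R_024
  · intro ρ a B hρ hd i h1 h2
    fin_cases i
    · exact absurd h1 (by norm_num)
    · exact absurd h1 (by norm_num)
    · exact corT_cert (G1 := gB0q1) (G2 := gB2q0) (Ga := gB2q1) (Gb := gB3q1) cA101R_ok B hρ (gatB01 x) (gatB20 x) (fun h => absurd h (by decide)) (fun _ => gatB31 x) hd hx hx' CG.A101R_022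
    · exact corT_cert (G1 := gB0q1) (G2 := gB2q0) (Ga := gB3q1) (Gb := gB4q1) cA101R_ok B hρ (gatB01 x) (gatB20 x) (fun _ => gatB31 x) (fun _ => gatB41 x) hd hx hx' CG.A101R_023
    · exact corT_cert (G1 := gB0q1) (G2 := gB2q0) (Ga := gB4q1) (Gb := gB5q1) cA101R_ok B hρ (gatB01 x) (gatB20 x) (fun _ => gatB41 x) (fun _ => gatB51 x) hd hx hx' CG.A101R_024

theorem altB_A102E_00 {κ x : ℝ} (hκ : κ * h0 = ken x) (hx : ((740881858 : ℕ) : ℝ) / S ≤ x) (hx' : x ≤ (((740881858 : ℕ) : ℝ) + (40050571 : ℕ)) / S) :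
    AltEA 3 κ (eng.v x) (1 / 20) (tnt (h0 * x) (1 / 5)) PP tK tL tC pcB (scP esg pd) [⟨0, 1, 0, 53687091⟩, ⟨1, 0, 0, 53687091⟩, ⟨2, 1, 0, 53687091⟩] 1 0 2 0 0 (sgb true) (sgb false) x := by
  have X : XR 53687091 x := XR.of hx hx' (by norm_num) (by norm_num) (by norm_num) (by norm_num)
  have hen : 0 < eng.v x := en_pos X.x0.le
  refine CornW.altA (C := cA102E) (j := (0 : Fin 6)) (k := (0 : Fin 6)) (Ef := esg) (pd := pd) (o := 1 / 20)
    (cornW_of (C := cA102E) (C0 := c0B) (En := eng) (mo := mog) (j := (0 : Fin 6)) (k := (0 : Fin 6)) (lo := 0) (hi := 2) (W := 53687091) (N0 := 3) cA102E_q (sideB hx hx') gokB (pinU hx hx') dokB X (by norm_num) (by norm_num) (l := (0 : Fin 6)) rfl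
      (gatB01 x) (gatB00 x) (gatB02 x) (datB01 x) (datB00 x) (datB02 x) ?_)
    (cornS_of (C := cA102E) (C0 := c0B) (j := (0 : Fin 6)) (k := (0 : Fin 6)) (lo := 0) (hi := 2) (W := 53687091) (N0 := 3) cA102E_q (sideB hx hx') gokB X (by norm_num) (by norm_num) (l := (0 : Fin 6)) rfl
      (gatB01 x) (gatB00 x) (gatB02 x) ?_)
    (thU (pinU hx hx')) rfl hκ (fun j q y => tC_eq j q y x) (esg_rng X.x0.le (by linarith [X.b, X.p0])).1 (mo_v x) le_rfl le_rfl
  · intro ρ a B hρ hd i h1 h2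
    fin_cases i
    · exact corW_cert (G1 := gB0q1) (G2 := gB0q0) (Ga := gB0q2) (Gb := gB1q2) (D1 := dB0q1) (D2 := dB0q0) (Da := dB0q2) (Db := dB1q2) cA102E_ok B hρ hen (gatB01 x) (gatB00 x) (fun _ => gatB02 x) (fun _ => gatB12 x) (datB01 x) (datB00 x) (fun _ => datB02 x) (fun _ => datB12 x) hd hx hx' CW.A102E_000
    · exact corW_cert (G1 := gB0q1) (G2 := gB0q0) (Ga := gB1q2) (Gb := gB2q2) (D1 := dB0q1) (D2 := dB0q0) (Da := dB1q2) (Db := dB2q2) cA102E_ok B hρ hen (gatB01 x) (gatB00 x) (fun _ => gatB12 x) (fun _ => gatB22 x) (datB01 x) (datB00 x) (fun _ => datB12 x) (fun _ => datB22 x) hd hx hx' CW.A102E_001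
    · exact corW_cert (G1 := gB0q1) (G2 := gB0q0) (Ga := gB2q2) (Gb := gB3q2) (D1 := dB0q1) (D2 := dB0q0) (Da := dB2q2) (Db := dB3q2) cA102E_ok B hρ hen (gatB01 x) (gatB00 x) (fun _ => gatB22 x) (fun h => absurd h (by decide)) (datB01 x) (datB00 x) (fun _ => datB22 x) (fun h => absurd h (by decide)) hd hx hx' CW.A102E_002
    · exact absurd h2 (by norm_num)
    · exact absurd h2 (by norm_num)
  · intro ρ a B hρ hd i h1 h2
    fin_cases i
    · exact corX_cert (G1 := gB0q1) (G2 := gB0q0) (Ga := gB0q2) (Gb := gB1q2) (GT := gB0q2) cA102E_ok tA102E_ok B hρ (gatB01 x) (gatB00 x) (fun _ => gatB02 x) (fun _ => gatB12 x) rfl (tgh_A102E (kodd x) (gpu1 x) (gpu0 x) (gpu2 x) (gatB01 x) (gatB00 x) (gatB02 x) B (le_sixteenth hd (by norm_num))) hd hx hx' CG.A102E_000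
    · exact corT_cert (G1 := gB0q1) (G2 := gB0q0) (Ga := gB1q2) (Gb := gB2q2) cA102E_ok B hρ (gatB01 x) (gatB00 x) (fun _ => gatB12 x) (fun _ => gatB22 x) hd hx hx' CG.A102E_001
    · exact corT_cert (G1 := gB0q1) (G2 := gB0q0) (Ga := gB2q2) (Gb := gB3q2) cA102E_ok B hρ (gatB01 x) (gatB00 x) (fun _ => gatB22 x) (fun h => absurd h (by decide)) hd hx hx' CG.A102E_002
    · exact absurd h2 (by norm_num)
    · exact absurd h2 (by norm_num)

theorem altB_A102E_01 {κ x : ℝ} (hκ : κ * h0 = ken x) (hx : ((740881858 : ℕ) : ℝ) / S ≤ x) (hx' : x ≤ (((740881858 : ℕ) : ℝ) + (40050571 : ℕ)) / S) :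
    AltEA 3 κ (eng.v x) (1 / 20) (tnt (h0 * x) (1 / 5)) PP tK tL tC pcB (scP esg pd) [⟨0, 1, 0, 67108864⟩, ⟨1, 0, 0, 67108864⟩, ⟨2, 1, 0, 67108864⟩] 1 0 2 0 1 (sgb true) (sgb false) x := by
  have X : XR 67108864 x := XR.of hx hx' (by norm_num) (by norm_num) (by norm_num) (by norm_num)
  have hen : 0 < eng.v x := en_pos X.x0.le
  refine CornW.altA (C := cA102E) (j := (0 : Fin 6)) (k := (1 : Fin 6)) (Ef := esg) (pd := pd) (o := 1 / 20)
    (cornW_of (C := cA102E) (C0 := c0B) (En := eng) (mo := mog) (j := (0 : Fin 6)) (k := (1 : Fin 6)) (lo := 0) (hi := 2) (W := 67108864) (N0 := 3) cA102E_q (sideB hx hx') gokB (pinU hx hx') dokB X (by norm_num) (by norm_num) (l := (0 : Fin 6)) rfl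
      (gatB01 x) (gatB10 x) (gatB02 x) (datB01 x) (datB10 x) (datB02 x) ?_)
    (cornS_of (C := cA102E) (C0 := c0B) (j := (0 : Fin 6)) (k := (1 : Fin 6)) (lo := 0) (hi := 2) (W := 67108864) (N0 := 3) cA102E_q (sideB hx hx') gokB X (by norm_num) (by norm_num) (l := (0 : Fin 6)) rfl
      (gatB01 x) (gatB10 x) (gatB02 x) ?_)
    (thU (pinU hx hx')) rfl hκ (fun j q y => tC_eq j q y x) (esg_rng X.x0.le (by linarith [X.b, X.p0])).1 (mo_v x) le_rfl le_rfl
  · intro ρ a B hρ hd i h1 h2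
    fin_cases i
    · exact corW_cert (G1 := gB0q1) (G2 := gB1q0) (Ga := gB0q2) (Gb := gB1q2) (D1 := dB0q1) (D2 := dB1q0) (Da := dB0q2) (Db := dB1q2) cA102E_ok B hρ hen (gatB01 x) (gatB10 x) (fun _ => gatB02 x) (fun _ => gatB12 x) (datB01 x) (datB10 x) (fun _ => datB02 x) (fun _ => datB12 x) hd hx hx' CW.A102E_010
    · exact corW_cert (G1 := gB0q1) (G2 := gB1q0) (Ga := gB1q2) (Gb := gB2q2) (D1 := dB0q1) (D2 := dB1q0) (Da := dB1q2) (Db := dB2q2) cA102E_ok B hρ hen (gatB01 x) (gatB10 x) (fun _ => gatB12 x) (fun _ => gatB22 x) (datB01 x) (datB10 x) (fun _ => datB12 x) (fun _ => datB22 x) hd hx hx' CW.A102E_011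
    · exact corW_cert (G1 := gB0q1) (G2 := gB1q0) (Ga := gB2q2) (Gb := gB3q2) (D1 := dB0q1) (D2 := dB1q0) (Da := dB2q2) (Db := dB3q2) cA102E_ok B hρ hen (gatB01 x) (gatB10 x) (fun _ => gatB22 x) (fun h => absurd h (by decide)) (datB01 x) (datB10 x) (fun _ => datB22 x) (fun h => absurd h (by decide)) hd hx hx' CW.A102E_012
    · exact absurd h2 (by norm_num)
    · exact absurd h2 (by norm_num)
  · intro ρ a B hρ hd i h1 h2
    fin_cases i
    · exact corT_cert (G1 := gB0q1) (G2 := gB1q0) (Ga := gB0q2) (Gb := gB1q2) cA102E_ok B hρ (gatB01 x) (gatB10 x) (fun _ => gatB02 x) (fun _ => gatB12 x) hd hx hx' CG.A102E_010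
    · exact corT_cert (G1 := gB0q1) (G2 := gB1q0) (Ga := gB1q2) (Gb := gB2q2) cA102E_ok B hρ (gatB01 x) (gatB10 x) (fun _ => gatB12 x) (fun _ => gatB22 x) hd hx hx' CG.A102E_011
    · exact corT_cert (G1 := gB0q1) (G2 := gB1q0) (Ga := gB2q2) (Gb := gB3q2) cA102E_ok B hρ (gatB01 x) (gatB10 x) (fun _ => gatB22 x) (fun h => absurd h (by decide)) hd hx hx' CG.A102E_012
    · exact absurd h2 (by norm_num)
    · exact absurd h2 (by norm_num)

theorem altB_A102E_02 {κ x : ℝ} (hκ : κ * h0 = ken x) (hx : ((740881858 : ℕ) : ℝ) / S ≤ x) (hx' : x ≤ (((740881858 : ℕ) : ℝ) + (40050571 : ℕ)) / S) :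
    AltEA 3 κ (eng.v x) (1 / 20) (tnt (h0 * x) (1 / 5)) PP tK tL tC pcB (scP esg pd) [⟨0, 1, 0, 67108864⟩, ⟨1, 0, 0, 67108864⟩, ⟨2, 1, 0, 67108864⟩] 1 0 2 0 2 (sgb true) (sgb false) x := by
  have X : XR 67108864 x := XR.of hx hx' (by norm_num) (by norm_num) (by norm_num) (by norm_num)
  have hen : 0 < eng.v x := en_pos X.x0.le
  refine CornW.altA (C := cA102E) (j := (0 : Fin 6)) (k := (2 : Fin 6)) (Ef := esg) (pd := pd) (o := 1 / 20)
    (cornW_of (C := cA102E) (C0 := c0B) (En := eng) (mo := mog) (j := (0 : Fin 6)) (k := (2 : Fin 6)) (lo := 0) (hi := 2) (W := 67108864) (N0 := 3) cA102E_q (sideB hx hx') gokB (pinU hx hx') dokB X (by norm_num) (by norm_num) (l := (0 : Fin 6)) rfl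
      (gatB01 x) (gatB20 x) (gatB02 x) (datB01 x) (datB20 x) (datB02 x) ?_)
    (cornS_of (C := cA102E) (C0 := c0B) (j := (0 : Fin 6)) (k := (2 : Fin 6)) (lo := 0) (hi := 2) (W := 67108864) (N0 := 3) cA102E_q (sideB hx hx') gokB X (by norm_num) (by norm_num) (l := (0 : Fin 6)) rfl
      (gatB01 x) (gatB20 x) (gatB02 x) ?_)
    (thU (pinU hx hx')) rfl hκ (fun j q y => tC_eq j q y x) (esg_rng X.x0.le (by linarith [X.b, X.p0])).1 (mo_v x) le_rfl le_rfl
  · intro ρ a B hρ hd i h1 h2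
    fin_cases i
    · exact corW_cert (G1 := gB0q1) (G2 := gB2q0) (Ga := gB0q2) (Gb := gB1q2) (D1 := dB0q1) (D2 := dB2q0) (Da := dB0q2) (Db := dB1q2) cA102E_ok B hρ hen (gatB01 x) (gatB20 x) (fun _ => gatB02 x) (fun _ => gatB12 x) (datB01 x) (datB20 x) (fun _ => datB02 x) (fun _ => datB12 x) hd hx hx' CW.A102E_020
    · exact corW_cert (G1 := gB0q1) (G2 := gB2q0) (Ga := gB1q2) (Gb := gB2q2) (D1 := dB0q1) (D2 := dB2q0) (Da := dB1q2) (Db := dB2q2) cA102E_ok B hρ hen (gatB01 x) (gatB20 x) (fun _ => gatB12 x) (fun _ => gatB22 x) (datB01 x) (datB20 x) (fun _ => datB12 x) (fun _ => datB22 x) hd hx hx' CW.A102E_021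
    · exact corW_cert (G1 := gB0q1) (G2 := gB2q0) (Ga := gB2q2) (Gb := gB3q2) (D1 := dB0q1) (D2 := dB2q0) (Da := dB2q2) (Db := dB3q2) cA102E_ok B hρ hen (gatB01 x) (gatB20 x) (fun _ => gatB22 x) (fun h => absurd h (by decide)) (datB01 x) (datB20 x) (fun _ => datB22 x) (fun h => absurd h (by decide)) hd hx hx' CW.A102E_022
    · exact absurd h2 (by norm_num)
    · exact absurd h2 (by norm_num)
  · intro ρ a B hρ hd i h1 h2
    fin_cases i
    · exact corT_cert (G1 := gB0q1) (G2 := gB2q0) (Ga := gB0q2) (Gb := gB1q2) cA102E_ok B hρ (gatB01 x) (gatB20 x) (fun _ => gatB02 x) (fun _ => gatB12 x) hd hx hx' CG.A102E_020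
    · exact corT_cert (G1 := gB0q1) (G2 := gB2q0) (Ga := gB1q2) (Gb := gB2q2) cA102E_ok B hρ (gatB01 x) (gatB20 x) (fun _ => gatB12 x) (fun _ => gatB22 x) hd hx hx' CG.A102E_021
    · exact corT_cert (G1 := gB0q1) (G2 := gB2q0) (Ga := gB2q2) (Gb := gB3q2) cA102E_ok B hρ (gatB01 x) (gatB20 x) (fun _ => gatB22 x) (fun h => absurd h (by decide)) hd hx hx' CG.A102E_022
    · exact absurd h2 (by norm_num)
    · exact absurd h2 (by norm_num)

theorem altB_A102R_00 {κ x : ℝ} (hκ : κ * h0 = ken x) (hx : ((740881858 : ℕ) : ℝ) / S ≤ x) (hx' : x ≤ (((740881858 : ℕ) : ℝ) + (40050571 : ℕ)) / S) :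
    AltEA 3 κ (eng.v x) (1 / 20) (tnt (h0 * x) (1 / 5)) PP tK tL tC pcB (scP esg pd) [⟨0, 1, 0, 67108864⟩, ⟨1, 0, 0, 67108864⟩, ⟨2, 1, 0, 67108864⟩] 1 0 2 0 0 (sgb false) (sgb false) x := by
  have X : XR 67108864 x := XR.of hx hx' (by norm_num) (by norm_num) (by norm_num) (by norm_num)
  have hen : 0 < eng.v x := en_pos X.x0.le
  refine CornW.altA (C := cA102R) (j := (0 : Fin 6)) (k := (0 : Fin 6)) (Ef := esg) (pd := pd) (o := 1 / 20)
    (cornW_of (C := cA102R) (C0 := c0B) (En := eng) (mo := mog) (j := (0 : Fin 6)) (k := (0 : Fin 6)) (lo := 5) (hi := 5) (W := 67108864) (N0 := 3) cA102R_q (sideB hx hx') gokB (pinU hx hx') dokB X (by norm_num) (by norm_num) (l := (5 : Fin 6)) rfl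
      (gatB01 x) (gatB00 x) (gatB52 x) (datB01 x) (datB00 x) (datB52 x) ?_)
    (cornS_of (C := cA102R) (C0 := c0B) (j := (0 : Fin 6)) (k := (0 : Fin 6)) (lo := 5) (hi := 5) (W := 67108864) (N0 := 3) cA102R_q (sideB hx hx') gokB X (by norm_num) (by norm_num) (l := (5 : Fin 6)) rfl
      (gatB01 x) (gatB00 x) (gatB52 x) ?_)
    (thU (pinU hx hx')) rfl hκ (fun j q y => tC_eq j q y x) (esg_rng X.x0.le (by linarith [X.b, X.p0])).1 (mo_v x) le_rfl le_rfl
  · intro ρ a B hρ hd i h1 h2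
    fin_cases i
    · exact absurd h1 (by norm_num)
    · exact absurd h1 (by norm_num)
    · exact absurd h1 (by norm_num)
    · exact absurd h1 (by norm_num)
    · exact corW_cert (G1 := gB0q1) (G2 := gB0q0) (Ga := gB4q2) (Gb := gB5q2) (D1 := dB0q1) (D2 := dB0q0) (Da := dB4q2) (Db := dB5q2) cA102R_ok B hρ hen (gatB01 x) (gatB00 x) (fun h => absurd h (by decide)) (fun _ => gatB52 x) (datB01 x) (datB00 x) (fun h => absurd h (by decide)) (fun _ => datB52 x) hd hx hx' CW.A102R_004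
  · intro ρ a B hρ hd i h1 h2
    fin_cases i
    · exact absurd h1 (by norm_num)
    · exact absurd h1 (by norm_num)
    · exact absurd h1 (by norm_num)
    · exact absurd h1 (by norm_num)
    · exact corT_cert (G1 := gB0q1) (G2 := gB0q0) (Ga := gB4q2) (Gb := gB5q2) cA102R_ok B hρ (gatB01 x) (gatB00 x) (fun h => absurd h (by decide)) (fun _ => gatB52 x) hd hx hx' CG.A102R_004

theorem altB_A102R_01 {κ x : ℝ} (hκ : κ * h0 = ken x) (hx : ((740881858 : ℕ) : ℝ) / S ≤ x) (hx' : x ≤ (((740881858 : ℕ) : ℝ) + (40050571 : ℕ)) / S) :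
    AltEA 3 κ (eng.v x) (1 / 20) (tnt (h0 * x) (1 / 5)) PP tK tL tC pcB (scP esg pd) [⟨0, 1, 0, 67108864⟩, ⟨1, 0, 0, 67108864⟩, ⟨2, 1, 0, 67108864⟩] 1 0 2 0 1 (sgb false) (sgb false) x := by
  have X : XR 67108864 x := XR.of hx hx' (by norm_num) (by norm_num) (by norm_num) (by norm_num)
  have hen : 0 < eng.v x := en_pos X.x0.le
  refine CornW.altA (C := cA102R) (j := (0 : Fin 6)) (k := (1 : Fin 6)) (Ef := esg) (pd := pd) (o := 1 / 20)
    (cornW_of (C := cA102R) (C0 := c0B) (En := eng) (mo := mog) (j := (0 : Fin 6)) (k := (1 : Fin 6)) (lo := 5) (hi := 5) (W := 67108864) (N0 := 3) cA102R_q (sideB hx hx') gokB (pinU hx hx') dokB X (by norm_num) (by norm_num) (l := (5 : Fin 6)) rfl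
      (gatB01 x) (gatB10 x) (gatB52 x) (datB01 x) (datB10 x) (datB52 x) ?_)
    (cornS_of (C := cA102R) (C0 := c0B) (j := (0 : Fin 6)) (k := (1 : Fin 6)) (lo := 5) (hi := 5) (W := 67108864) (N0 := 3) cA102R_q (sideB hx hx') gokB X (by norm_num) (by norm_num) (l := (5 : Fin 6)) rfl
      (gatB01 x) (gatB10 x) (gatB52 x) ?_)
    (thU (pinU hx hx')) rfl hκ (fun j q y => tC_eq j q y x) (esg_rng X.x0.le (by linarith [X.b, X.p0])).1 (mo_v x) le_rfl le_rfl
  · intro ρ a B hρ hd i h1 h2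
    fin_cases i
    · exact absurd h1 (by norm_num)
    · exact absurd h1 (by norm_num)
    · exact absurd h1 (by norm_num)
    · exact absurd h1 (by norm_num)
    · exact corW_cert (G1 := gB0q1) (G2 := gB1q0) (Ga := gB4q2) (Gb := gB5q2) (D1 := dB0q1) (D2 := dB1q0) (Da := dB4q2) (Db := dB5q2) cA102R_ok B hρ hen (gatB01 x) (gatB10 x) (fun h => absurd h (by decide)) (fun _ => gatB52 x) (datB01 x) (datB10 x) (fun h => absurd h (by decide)) (fun _ => datB52 x) hd hx hx' CW.A102R_014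
  · intro ρ a B hρ hd i h1 h2
    fin_cases i
    · exact absurd h1 (by norm_num)
    · exact absurd h1 (by norm_num)
    · exact absurd h1 (by norm_num)
    · exact absurd h1 (by norm_num)
    · exact corT_cert (G1 := gB0q1) (G2 := gB1q0) (Ga := gB4q2) (Gb := gB5q2) cA102R_ok B hρ (gatB01 x) (gatB10 x) (fun h => absurd h (by decide)) (fun _ => gatB52 x) hd hx hx' CG.A102R_014

theorem altB_A102R_02 {κ x : ℝ} (hκ : κ * h0 = ken x) (hx : ((740881858 : ℕ) : ℝ) / S ≤ x) (hx' : x ≤ (((740881858 : ℕ) : ℝ) + (40050571 : ℕ)) / S) :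
    AltEA 3 κ (eng.v x) (1 / 20) (tnt (h0 * x) (1 / 5)) PP tK tL tC pcB (scP esg pd) [⟨0, 1, 0, 67108864⟩, ⟨1, 0, 0, 67108864⟩, ⟨2, 1, 0, 67108864⟩] 1 0 2 0 2 (sgb false) (sgb false) x := by
  have X : XR 67108864 x := XR.of hx hx' (by norm_num) (by norm_num) (by norm_num) (by norm_num)
  have hen : 0 < eng.v x := en_pos X.x0.le
  refine CornW.altA (C := cA102R) (j := (0 : Fin 6)) (k := (2 : Fin 6)) (Ef := esg) (pd := pd) (o := 1 / 20)
    (cornW_of (C := cA102R) (C0 := c0B) (En := eng) (mo := mog) (j := (0 : Fin 6)) (k := (2 : Fin 6)) (lo := 5) (hi := 5) (W := 67108864) (N0 := 3) cA102R_q (sideB hx hx') gokB (pinU hx hx') dokB X (by norm_num) (by norm_num) (l := (5 : Fin 6)) rfl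
      (gatB01 x) (gatB20 x) (gatB52 x) (datB01 x) (datB20 x) (datB52 x) ?_)
    (cornS_of (C := cA102R) (C0 := c0B) (j := (0 : Fin 6)) (k := (2 : Fin 6)) (lo := 5) (hi := 5) (W := 67108864) (N0 := 3) cA102R_q (sideB hx hx') gokB X (by norm_num) (by norm_num) (l := (5 : Fin 6)) rfl
      (gatB01 x) (gatB20 x) (gatB52 x) ?_)
    (thU (pinU hx hx')) rfl hκ (fun j q y => tC_eq j q y x) (esg_rng X.x0.le (by linarith [X.b, X.p0])).1 (mo_v x) le_rfl le_rfl
  · intro ρ a B hρ hd i h1 h2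
    fin_cases i
    · exact absurd h1 (by norm_num)
    · exact absurd h1 (by norm_num)
    · exact absurd h1 (by norm_num)
    · exact absurd h1 (by norm_num)
    · exact corW_cert (G1 := gB0q1) (G2 := gB2q0) (Ga := gB4q2) (Gb := gB5q2) (D1 := dB0q1) (D2 := dB2q0) (Da := dB4q2) (Db := dB5q2) cA102R_ok B hρ hen (gatB01 x) (gatB20 x) (fun h => absurd h (by decide)) (fun _ => gatB52 x) (datB01 x) (datB20 x) (fun h => absurd h (by decide)) (fun _ => datB52 x) hd hx hx' CW.A102R_024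
  · intro ρ a B hρ hd i h1 h2
    fin_cases i
    · exact absurd h1 (by norm_num)
    · exact absurd h1 (by norm_num)
    · exact absurd h1 (by norm_num)
    · exact absurd h1 (by norm_num)
    · exact corT_cert (G1 := gB0q1) (G2 := gB2q0) (Ga := gB4q2) (Gb := gB5q2) cA102R_ok B hρ (gatB01 x) (gatB20 x) (fun h => absurd h (by decide)) (fun _ => gatB52 x) hd hx hx' CG.A102R_024

theorem altB_A202E_00 {κ x : ℝ} (hκ : κ * h0 = ken x) (hx : ((740881858 : ℕ) : ℝ) / S ≤ x) (hx' : x ≤ (((740881858 : ℕ) : ℝ) + (40050571 : ℕ)) / S) :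
    AltEA 3 κ (eng.v x) (1 / 20) (tnt (h0 * x) (1 / 5)) PP tK tL tC pcB (scP esg pd) [⟨0, 1, 0, 67108864⟩, ⟨1, 0, 0, 67108864⟩, ⟨2, 1, 0, 67108864⟩] 2 0 2 0 0 (sgb true) (sgb false) x := by
  have X : XR 67108864 x := XR.of hx hx' (by norm_num) (by norm_num) (by norm_num) (by norm_num)
  have hen : 0 < eng.v x := en_pos X.x0.le
  refine CornW.altA (C := cA202E) (j := (0 : Fin 6)) (k := (0 : Fin 6)) (Ef := esg) (pd := pd) (o := 1 / 20)
    (cornW_of (C := cA202E) (C0 := c0B) (En := eng) (mo := mog) (j := (0 : Fin 6)) (k := (0 : Fin 6)) (lo := 0) (hi := 2) (W := 67108864) (N0 := 3) cA202E_q (sideB hx hx') gokB (pinU hx hx') dokB X (by norm_num) (by norm_num) (l := (0 : Fin 6)) rfl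
      (gatB02 x) (gatB00 x) (gatB02 x) (datB02 x) (datB00 x) (datB02 x) ?_)
    (cornS_of (C := cA202E) (C0 := c0B) (j := (0 : Fin 6)) (k := (0 : Fin 6)) (lo := 0) (hi := 2) (W := 67108864) (N0 := 3) cA202E_q (sideB hx hx') gokB X (by norm_num) (by norm_num) (l := (0 : Fin 6)) rfl
      (gatB02 x) (gatB00 x) (gatB02 x) ?_)
    (thU (pinU hx hx')) rfl hκ (fun j q y => tC_eq j q y x) (esg_rng X.x0.le (by linarith [X.b, X.p0])).1 (mo_v x) le_rfl le_rfl
  · intro ρ a B hρ hd i h1 h2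
    fin_cases i
    · exact corW_cert (G1 := gB0q2) (G2 := gB0q0) (Ga := gB0q2) (Gb := gB1q2) (D1 := dB0q2) (D2 := dB0q0) (Da := dB0q2) (Db := dB1q2) cA202E_ok B hρ hen (gatB02 x) (gatB00 x) (fun _ => gatB02 x) (fun _ => gatB12 x) (datB02 x) (datB00 x) (fun _ => datB02 x) (fun _ => datB12 x) hd hx hx' CW.A202E_000
    · exact corW_cert (G1 := gB0q2) (G2 := gB0q0) (Ga := gB1q2) (Gb := gB2q2) (D1 := dB0q2) (D2 := dB0q0) (Da := dB1q2) (Db := dB2q2) cA202E_ok B hρ hen (gatB02 x) (gatB00 x) (fun _ => gatB12 x) (fun _ => gatB22 x) (datB02 x) (datB00 x) (fun _ => datB12 x) (fun _ => datB22 x) hd hx hx' CW.A202E_001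
    · exact corW_cert (G1 := gB0q2) (G2 := gB0q0) (Ga := gB2q2) (Gb := gB3q2) (D1 := dB0q2) (D2 := dB0q0) (Da := dB2q2) (Db := dB3q2) cA202E_ok B hρ hen (gatB02 x) (gatB00 x) (fun _ => gatB22 x) (fun h => absurd h (by decide)) (datB02 x) (datB00 x) (fun _ => datB22 x) (fun h => absurd h (by decide)) hd hx hx' CW.A202E_002
    · exact absurd h2 (by norm_num)
    · exact absurd h2 (by norm_num)
  · intro ρ a B hρ hd i h1 h2
    fin_cases i
    · exact corT_cert (G1 := gB0q2) (G2 := gB0q0) (Ga := gB0q2) (Gb := gB1q2) cA202E_ok B hρ (gatB02 x) (gatB00 x) (fun _ => gatB02 x) (fun _ => gatB12 x) hd hx hx' CG.A202E_000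
    · exact corT_cert (G1 := gB0q2) (G2 := gB0q0) (Ga := gB1q2) (Gb := gB2q2) cA202E_ok B hρ (gatB02 x) (gatB00 x) (fun _ => gatB12 x) (fun _ => gatB22 x) hd hx hx' CG.A202E_001
    · exact corT_cert (G1 := gB0q2) (G2 := gB0q0) (Ga := gB2q2) (Gb := gB3q2) cA202E_ok B hρ (gatB02 x) (gatB00 x) (fun _ => gatB22 x) (fun h => absurd h (by decide)) hd hx hx' CG.A202E_002
    · exact absurd h2 (by norm_num)
    · exact absurd h2 (by norm_num)

theorem altB_A202E_01 {κ x : ℝ} (hκ : κ * h0 = ken x) (hx : ((740881858 : ℕ) : ℝ) / S ≤ x) (hx' : x ≤ (((740881858 : ℕ) : ℝ) + (40050571 : ℕ)) / S) :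
    AltEA 3 κ (eng.v x) (1 / 20) (tnt (h0 * x) (1 / 5)) PP tK tL tC pcB (scP esg pd) [⟨0, 1, 0, 67108864⟩, ⟨1, 0, 0, 67108864⟩, ⟨2, 1, 0, 67108864⟩] 2 0 2 0 1 (sgb true) (sgb false) x := by
  have X : XR 67108864 x := XR.of hx hx' (by norm_num) (by norm_num) (by norm_num) (by norm_num)
  have hen : 0 < eng.v x := en_pos X.x0.le
  refine CornW.altA (C := cA202E) (j := (0 : Fin 6)) (k := (1 : Fin 6)) (Ef := esg) (pd := pd) (o := 1 / 20)
    (cornW_of (C := cA202E) (C0 := c0B) (En := eng) (mo := mog) (j := (0 : Fin 6)) (k := (1 : Fin 6)) (lo := 0) (hi := 2) (W := 67108864) (N0 := 3) cA202E_q (sideB hx hx') gokB (pinU hx hx') dokB X (by norm_num) (by norm_num) (l := (0 : Fin 6)) rfl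
      (gatB02 x) (gatB10 x) (gatB02 x) (datB02 x) (datB10 x) (datB02 x) ?_)
    (cornS_of (C := cA202E) (C0 := c0B) (j := (0 : Fin 6)) (k := (1 : Fin 6)) (lo := 0) (hi := 2) (W := 67108864) (N0 := 3) cA202E_q (sideB hx hx') gokB X (by norm_num) (by norm_num) (l := (0 : Fin 6)) rfl
      (gatB02 x) (gatB10 x) (gatB02 x) ?_)
    (thU (pinU hx hx')) rfl hκ (fun j q y => tC_eq j q y x) (esg_rng X.x0.le (by linarith [X.b, X.p0])).1 (mo_v x) le_rfl le_rfl
  · intro ρ a B hρ hd i h1 h2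
    fin_cases i
    · exact corW_cert (G1 := gB0q2) (G2 := gB1q0) (Ga := gB0q2) (Gb := gB1q2) (D1 := dB0q2) (D2 := dB1q0) (Da := dB0q2) (Db := dB1q2) cA202E_ok B hρ hen (gatB02 x) (gatB10 x) (fun _ => gatB02 x) (fun _ => gatB12 x) (datB02 x) (datB10 x) (fun _ => datB02 x) (fun _ => datB12 x) hd hx hx' CW.A202E_010
    · exact corW_cert (G1 := gB0q2) (G2 := gB1q0) (Ga := gB1q2) (Gb := gB2q2) (D1 := dB0q2) (D2 := dB1q0) (Da := dB1q2) (Db := dB2q2) cA202E_ok B hρ hen (gatB02 x) (gatB10 x) (fun _ => gatB12 x) (fun _ => gatB22 x) (datB02 x) (datB10 x) (fun _ => datB12 x) (fun _ => datB22 x) hd hx hx' CW.A202E_011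
    · exact corW_cert (G1 := gB0q2) (G2 := gB1q0) (Ga := gB2q2) (Gb := gB3q2) (D1 := dB0q2) (D2 := dB1q0) (Da := dB2q2) (Db := dB3q2) cA202E_ok B hρ hen (gatB02 x) (gatB10 x) (fun _ => gatB22 x) (fun h => absurd h (by decide)) (datB02 x) (datB10 x) (fun _ => datB22 x) (fun h => absurd h (by decide)) hd hx hx' CW.A202E_012
    · exact absurd h2 (by norm_num)
    · exact absurd h2 (by norm_num)
  · intro ρ a B hρ hd i h1 h2
    fin_cases i
    · exact corT_cert (G1 := gB0q2) (G2 := gB1q0) (Ga := gB0q2) (Gb := gB1q2) cA202E_ok B hρ (gatB02 x) (gatB10 x) (fun _ => gatB02 x) (fun _ => gatB12 x) hd hx hx' CG.A202E_010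
    · exact corT_cert (G1 := gB0q2) (G2 := gB1q0) (Ga := gB1q2) (Gb := gB2q2) cA202E_ok B hρ (gatB02 x) (gatB10 x) (fun _ => gatB12 x) (fun _ => gatB22 x) hd hx hx' CG.A202E_011
    · exact corT_cert (G1 := gB0q2) (G2 := gB1q0) (Ga := gB2q2) (Gb := gB3q2) cA202E_ok B hρ (gatB02 x) (gatB10 x) (fun _ => gatB22 x) (fun h => absurd h (by decide)) hd hx hx' CG.A202E_012
    · exact absurd h2 (by norm_num)
    · exact absurd h2 (by norm_num)

theorem altB_A202E_02 {κ x : ℝ} (hκ : κ * h0 = ken x) (hx : ((740881858 : ℕ) : ℝ) / S ≤ x) (hx' : x ≤ (((740881858 : ℕ) : ℝ) + (40050571 : ℕ)) / S) :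
    AltEA 3 κ (eng.v x) (1 / 20) (tnt (h0 * x) (1 / 5)) PP tK tL tC pcB (scP esg pd) [⟨0, 1, 0, 67108864⟩, ⟨1, 0, 0, 67108864⟩, ⟨2, 1, 0, 67108864⟩] 2 0 2 0 2 (sgb true) (sgb false) x := by
  have X : XR 67108864 x := XR.of hx hx' (by norm_num) (by norm_num) (by norm_num) (by norm_num)
  have hen : 0 < eng.v x := en_pos X.x0.le
  refine CornW.altA (C := cA202E) (j := (0 : Fin 6)) (k := (2 : Fin 6)) (Ef := esg) (pd := pd) (o := 1 / 20)
    (cornW_of (C := cA202E) (C0 := c0B) (En := eng) (mo := mog) (j := (0 : Fin 6)) (k := (2 : Fin 6)) (lo := 0) (hi := 2) (W := 67108864) (N0 := 3) cA202E_q (sideB hx hx') gokB (pinU hx hx') dokB X (by norm_num) (by norm_num) (l := (0 : Fin 6)) rfl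
      (gatB02 x) (gatB20 x) (gatB02 x) (datB02 x) (datB20 x) (datB02 x) ?_)
    (cornS_of (C := cA202E) (C0 := c0B) (j := (0 : Fin 6)) (k := (2 : Fin 6)) (lo := 0) (hi := 2) (W := 67108864) (N0 := 3) cA202E_q (sideB hx hx') gokB X (by norm_num) (by norm_num) (l := (0 : Fin 6)) rfl
      (gatB02 x) (gatB20 x) (gatB02 x) ?_)
    (thU (pinU hx hx')) rfl hκ (fun j q y => tC_eq j q y x) (esg_rng X.x0.le (by linarith [X.b, X.p0])).1 (mo_v x) le_rfl le_rfl
  · intro ρ a B hρ hd i h1 h2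
    fin_cases i
    · exact corW_cert (G1 := gB0q2) (G2 := gB2q0) (Ga := gB0q2) (Gb := gB1q2) (D1 := dB0q2) (D2 := dB2q0) (Da := dB0q2) (Db := dB1q2) cA202E_ok B hρ hen (gatB02 x) (gatB20 x) (fun _ => gatB02 x) (fun _ => gatB12 x) (datB02 x) (datB20 x) (fun _ => datB02 x) (fun _ => datB12 x) hd hx hx' CW.A202E_020
    · exact corW_cert (G1 := gB0q2) (G2 := gB2q0) (Ga := gB1q2) (Gb := gB2q2) (D1 := dB0q2) (D2 := dB2q0) (Da := dB1q2) (Db := dB2q2) cA202E_ok B hρ hen (gatB02 x) (gatB20 x) (fun _ => gatB12 x) (fun _ => gatB22 x) (datB02 x) (datB20 x) (fun _ => datB12 x) (fun _ => datB22 x) hd hx hx' CW.A202E_021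
    · exact corW_cert (G1 := gB0q2) (G2 := gB2q0) (Ga := gB2q2) (Gb := gB3q2) (D1 := dB0q2) (D2 := dB2q0) (Da := dB2q2) (Db := dB3q2) cA202E_ok B hρ hen (gatB02 x) (gatB20 x) (fun _ => gatB22 x) (fun h => absurd h (by decide)) (datB02 x) (datB20 x) (fun _ => datB22 x) (fun h => absurd h (by decide)) hd hx hx' CW.A202E_022
    · exact absurd h2 (by norm_num)
    · exact absurd h2 (by norm_num)
  · intro ρ a B hρ hd i h1 h2
    fin_cases i
    · exact corT_cert (G1 := gB0q2) (G2 := gB2q0) (Ga := gB0q2) (Gb := gB1q2) cA202E_ok B hρ (gatB02 x) (gatB20 x) (fun _ => gatB02 x) (fun _ => gatB12 x) hd hx hx' CG.A202E_020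
    · exact corT_cert (G1 := gB0q2) (G2 := gB2q0) (Ga := gB1q2) (Gb := gB2q2) cA202E_ok B hρ (gatB02 x) (gatB20 x) (fun _ => gatB12 x) (fun _ => gatB22 x) hd hx hx' CG.A202E_021
    · exact corT_cert (G1 := gB0q2) (G2 := gB2q0) (Ga := gB2q2) (Gb := gB3q2) cA202E_ok B hρ (gatB02 x) (gatB20 x) (fun _ => gatB22 x) (fun h => absurd h (by decide)) hd hx hx' CG.A202E_022
    · exact absurd h2 (by norm_num)
    · exact absurd h2 (by norm_num)

theorem altB_A202E_11 {κ x : ℝ} (hκ : κ * h0 = ken x) (hx : ((740881858 : ℕ) : ℝ) / S ≤ x) (hx' : x ≤ (((740881858 : ℕ) : ℝ) + (40050571 : ℕ)) / S) :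
    AltEA 3 κ (eng.v x) (1 / 20) (tnt (h0 * x) (1 / 5)) PP tK tL tC pcB (scP esg pd) [⟨0, 1, 0, 67108864⟩, ⟨1, 0, 0, 67108864⟩, ⟨2, 1, 0, 67108864⟩] 2 0 2 1 1 (sgb true) (sgb false) x := by
  have X : XR 67108864 x := XR.of hx hx' (by norm_num) (by norm_num) (by norm_num) (by norm_num)
  have hen : 0 < eng.v x := en_pos X.x0.le
  refine CornW.altA (C := cA202E) (j := (1 : Fin 6)) (k := (1 : Fin 6)) (Ef := esg) (pd := pd) (o := 1 / 20)
    (cornW_of (C := cA202E) (C0 := c0B) (En := eng) (mo := mog) (j := (1 : Fin 6)) (k := (1 : Fin 6)) (lo := 0) (hi := 2) (W := 67108864) (N0 := 3) cA202E_q (sideB hx hx') gokB (pinU hx hx') dokB X (by norm_num) (by norm_num) (l := (0 : Fin 6)) rfl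
      (gatB12 x) (gatB10 x) (gatB02 x) (datB12 x) (datB10 x) (datB02 x) ?_)
    (cornS_of (C := cA202E) (C0 := c0B) (j := (1 : Fin 6)) (k := (1 : Fin 6)) (lo := 0) (hi := 2) (W := 67108864) (N0 := 3) cA202E_q (sideB hx hx') gokB X (by norm_num) (by norm_num) (l := (0 : Fin 6)) rfl
      (gatB12 x) (gatB10 x) (gatB02 x) ?_)
    (thU (pinU hx hx')) rfl hκ (fun j q y => tC_eq j q y x) (esg_rng X.x0.le (by linarith [X.b, X.p0])).1 (mo_v x) le_rfl le_rfl
  · intro ρ a B hρ hd i h1 h2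
    fin_cases i
    · exact corW_cert (G1 := gB1q2) (G2 := gB1q0) (Ga := gB0q2) (Gb := gB1q2) (D1 := dB1q2) (D2 := dB1q0) (Da := dB0q2) (Db := dB1q2) cA202E_ok B hρ hen (gatB12 x) (gatB10 x) (fun _ => gatB02 x) (fun _ => gatB12 x) (datB12 x) (datB10 x) (fun _ => datB02 x) (fun _ => datB12 x) hd hx hx' CW.A202E_110
    · exact corW_cert (G1 := gB1q2) (G2 := gB1q0) (Ga := gB1q2) (Gb := gB2q2) (D1 := dB1q2) (D2 := dB1q0) (Da := dB1q2) (Db := dB2q2) cA202E_ok B hρ hen (gatB12 x) (gatB10 x) (fun _ => gatB12 x) (fun _ => gatB22 x) (datB12 x) (datB10 x) (fun _ => datB12 x) (fun _ => datB22 x) hd hx hx' CW.A202E_111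
    · exact corW_cert (G1 := gB1q2) (G2 := gB1q0) (Ga := gB2q2) (Gb := gB3q2) (D1 := dB1q2) (D2 := dB1q0) (Da := dB2q2) (Db := dB3q2) cA202E_ok B hρ hen (gatB12 x) (gatB10 x) (fun _ => gatB22 x) (fun h => absurd h (by decide)) (datB12 x) (datB10 x) (fun _ => datB22 x) (fun h => absurd h (by decide)) hd hx hx' CW.A202E_112
    · exact absurd h2 (by norm_num)
    · exact absurd h2 (by norm_num)
  · intro ρ a B hρ hd i h1 h2
    fin_cases i
    · exact corT_cert (G1 := gB1q2) (G2 := gB1q0) (Ga := gB0q2) (Gb := gB1q2) cA202E_ok B hρ (gatB12 x) (gatB10 x) (fun _ => gatB02 x) (fun _ => gatB12 x) hd hx hx' CG.A202E_110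
    · exact corT_cert (G1 := gB1q2) (G2 := gB1q0) (Ga := gB1q2) (Gb := gB2q2) cA202E_ok B hρ (gatB12 x) (gatB10 x) (fun _ => gatB12 x) (fun _ => gatB22 x) hd hx hx' CG.A202E_111
    · exact corT_cert (G1 := gB1q2) (G2 := gB1q0) (Ga := gB2q2) (Gb := gB3q2) cA202E_ok B hρ (gatB12 x) (gatB10 x) (fun _ => gatB22 x) (fun h => absurd h (by decide)) hd hx hx' CG.A202E_112
    · exact absurd h2 (by norm_num)
    · exact absurd h2 (by norm_num)

theorem altB_A202E_12 {κ x : ℝ} (hκ : κ * h0 = ken x) (hx : ((740881858 : ℕ) : ℝ) / S ≤ x) (hx' : x ≤ (((740881858 : ℕ) : ℝ) + (40050571 : ℕ)) / S) :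
    AltEA 3 κ (eng.v x) (1 / 20) (tnt (h0 * x) (1 / 5)) PP tK tL tC pcB (scP esg pd) [⟨0, 1, 0, 67108864⟩, ⟨1, 0, 0, 67108864⟩, ⟨2, 1, 0, 67108864⟩] 2 0 2 1 2 (sgb true) (sgb false) x := by
  have X : XR 67108864 x := XR.of hx hx' (by norm_num) (by norm_num) (by norm_num) (by norm_num)
  have hen : 0 < eng.v x := en_pos X.x0.le
  refine CornW.altA (C := cA202E) (j := (1 : Fin 6)) (k := (2 : Fin 6)) (Ef := esg) (pd := pd) (o := 1 / 20)
    (cornW_of (C := cA202E) (C0 := c0B) (En := eng) (mo := mog) (j := (1 : Fin 6)) (k := (2 : Fin 6)) (lo := 0) (hi := 2) (W := 67108864) (N0 := 3) cA202E_q (sideB hx hx') gokB (pinU hx hx') dokB X (by norm_num) (by norm_num) (l := (0 : Fin 6)) rfl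
      (gatB12 x) (gatB20 x) (gatB02 x) (datB12 x) (datB20 x) (datB02 x) ?_)
    (cornS_of (C := cA202E) (C0 := c0B) (j := (1 : Fin 6)) (k := (2 : Fin 6)) (lo := 0) (hi := 2) (W := 67108864) (N0 := 3) cA202E_q (sideB hx hx') gokB X (by norm_num) (by norm_num) (l := (0 : Fin 6)) rfl
      (gatB12 x) (gatB20 x) (gatB02 x) ?_)
    (thU (pinU hx hx')) rfl hκ (fun j q y => tC_eq j q y x) (esg_rng X.x0.le (by linarith [X.b, X.p0])).1 (mo_v x) le_rfl le_rfl
  · intro ρ a B hρ hd i h1 h2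
    fin_cases i
    · exact corW_cert (G1 := gB1q2) (G2 := gB2q0) (Ga := gB0q2) (Gb := gB1q2) (D1 := dB1q2) (D2 := dB2q0) (Da := dB0q2) (Db := dB1q2) cA202E_ok B hρ hen (gatB12 x) (gatB20 x) (fun _ => gatB02 x) (fun _ => gatB12 x) (datB12 x) (datB20 x) (fun _ => datB02 x) (fun _ => datB12 x) hd hx hx' CW.A202E_120
    · exact corW_cert (G1 := gB1q2) (G2 := gB2q0) (Ga := gB1q2) (Gb := gB2q2) (D1 := dB1q2) (D2 := dB2q0) (Da := dB1q2) (Db := dB2q2) cA202E_ok B hρ hen (gatB12 x) (gatB20 x) (fun _ => gatB12 x) (fun _ => gatB22 x) (datB12 x) (datB20 x) (fun _ => datB12 x) (fun _ => datB22 x) hd hx hx' CW.A202E_121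
    · exact corW_cert (G1 := gB1q2) (G2 := gB2q0) (Ga := gB2q2) (Gb := gB3q2) (D1 := dB1q2) (D2 := dB2q0) (Da := dB2q2) (Db := dB3q2) cA202E_ok B hρ hen (gatB12 x) (gatB20 x) (fun _ => gatB22 x) (fun h => absurd h (by decide)) (datB12 x) (datB20 x) (fun _ => datB22 x) (fun h => absurd h (by decide)) hd hx hx' CW.A202E_122
    · exact absurd h2 (by norm_num)
    · exact absurd h2 (by norm_num)
  · intro ρ a B hρ hd i h1 h2
    fin_cases i
    · exact corT_cert (G1 := gB1q2) (G2 := gB2q0) (Ga := gB0q2) (Gb := gB1q2) cA202E_ok B hρ (gatB12 x) (gatB20 x) (fun _ => gatB02 x) (fun _ => gatB12 x) hd hx hx' CG.A202E_120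
    · exact corT_cert (G1 := gB1q2) (G2 := gB2q0) (Ga := gB1q2) (Gb := gB2q2) cA202E_ok B hρ (gatB12 x) (gatB20 x) (fun _ => gatB12 x) (fun _ => gatB22 x) hd hx hx' CG.A202E_121
    · exact corT_cert (G1 := gB1q2) (G2 := gB2q0) (Ga := gB2q2) (Gb := gB3q2) cA202E_ok B hρ (gatB12 x) (gatB20 x) (fun _ => gatB22 x) (fun h => absurd h (by decide)) hd hx hx' CG.A202E_122
    · exact absurd h2 (by norm_num)
    · exact absurd h2 (by norm_num)

theorem altB_A202E_22 {κ x : ℝ} (hκ : κ * h0 = ken x) (hx : ((740881858 : ℕ) : ℝ) / S ≤ x) (hx' : x ≤ (((740881858 : ℕ) : ℝ) + (40050571 : ℕ)) / S) :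
    AltEA 3 κ (eng.v x) (1 / 20) (tnt (h0 * x) (1 / 5)) PP tK tL tC pcB (scP esg pd) [⟨0, 1, 0, 67108864⟩, ⟨1, 0, 0, 67108864⟩, ⟨2, 1, 0, 67108864⟩] 2 0 2 2 2 (sgb true) (sgb false) x := by
  have X : XR 67108864 x := XR.of hx hx' (by norm_num) (by norm_num) (by norm_num) (by norm_num)
  have hen : 0 < eng.v x := en_pos X.x0.le
  refine CornW.altA (C := cA202E) (j := (2 : Fin 6)) (k := (2 : Fin 6)) (Ef := esg) (pd := pd) (o := 1 / 20)
    (cornW_of (C := cA202E) (C0 := c0B) (En := eng) (mo := mog) (j := (2 : Fin 6)) (k := (2 : Fin 6)) (lo := 0) (hi := 2) (W := 67108864) (N0 := 3) cA202E_q (sideB hx hx') gokB (pinU hx hx') dokB X (by norm_num) (by norm_num) (l := (0 : Fin 6)) rfl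
      (gatB22 x) (gatB20 x) (gatB02 x) (datB22 x) (datB20 x) (datB02 x) ?_)
    (cornS_of (C := cA202E) (C0 := c0B) (j := (2 : Fin 6)) (k := (2 : Fin 6)) (lo := 0) (hi := 2) (W := 67108864) (N0 := 3) cA202E_q (sideB hx hx') gokB X (by norm_num) (by norm_num) (l := (0 : Fin 6)) rfl
      (gatB22 x) (gatB20 x) (gatB02 x) ?_)
    (thU (pinU hx hx')) rfl hκ (fun j q y => tC_eq j q y x) (esg_rng X.x0.le (by linarith [X.b, X.p0])).1 (mo_v x) le_rfl le_rfl
  · intro ρ a B hρ hd i h1 h2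
    fin_cases i
    · exact corW_cert (G1 := gB2q2) (G2 := gB2q0) (Ga := gB0q2) (Gb := gB1q2) (D1 := dB2q2) (D2 := dB2q0) (Da := dB0q2) (Db := dB1q2) cA202E_ok B hρ hen (gatB22 x) (gatB20 x) (fun _ => gatB02 x) (fun _ => gatB12 x) (datB22 x) (datB20 x) (fun _ => datB02 x) (fun _ => datB12 x) hd hx hx' CW.A202E_220
    · exact corW_cert (G1 := gB2q2) (G2 := gB2q0) (Ga := gB1q2) (Gb := gB2q2) (D1 := dB2q2) (D2 := dB2q0) (Da := dB1q2) (Db := dB2q2) cA202E_ok B hρ hen (gatB22 x) (gatB20 x) (fun _ => gatB12 x) (fun _ => gatB22 x) (datB22 x) (datB20 x) (fun _ => datB12 x) (fun _ => datB22 x) hd hx hx' CW.A202E_221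
    · exact corW_cert (G1 := gB2q2) (G2 := gB2q0) (Ga := gB2q2) (Gb := gB3q2) (D1 := dB2q2) (D2 := dB2q0) (Da := dB2q2) (Db := dB3q2) cA202E_ok B hρ hen (gatB22 x) (gatB20 x) (fun _ => gatB22 x) (fun h => absurd h (by decide)) (datB22 x) (datB20 x) (fun _ => datB22 x) (fun h => absurd h (by decide)) hd hx hx' CW.A202E_222
    · exact absurd h2 (by norm_num)
    · exact absurd h2 (by norm_num)
  · intro ρ a B hρ hd i h1 h2
    fin_cases i
    · exact corT_cert (G1 := gB2q2) (G2 := gB2q0) (Ga := gB0q2) (Gb := gB1q2) cA202E_ok B hρ (gatB22 x) (gatB20 x) (fun _ => gatB02 x) (fun _ => gatB12 x) hd hx hx' CG.A202E_220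
    · exact corT_cert (G1 := gB2q2) (G2 := gB2q0) (Ga := gB1q2) (Gb := gB2q2) cA202E_ok B hρ (gatB22 x) (gatB20 x) (fun _ => gatB12 x) (fun _ => gatB22 x) hd hx hx' CG.A202E_221
    · exact corT_cert (G1 := gB2q2) (G2 := gB2q0) (Ga := gB2q2) (Gb := gB3q2) cA202E_ok B hρ (gatB22 x) (gatB20 x) (fun _ => gatB22 x) (fun h => absurd h (by decide)) hd hx hx' CG.A202E_222
    · exact absurd h2 (by norm_num)
    · exact absurd h2 (by norm_num)

theorem altB_A202R_00 {κ x : ℝ} (hκ : κ * h0 = ken x) (hx : ((740881858 : ℕ) : ℝ) / S ≤ x) (hx' : x ≤ (((740881858 : ℕ) : ℝ) + (40050571 : ℕ)) / S) :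
    AltEA 3 κ (eng.v x) (1 / 20) (tnt (h0 * x) (1 / 5)) PP tK tL tC pcB (scP esg pd) [⟨0, 1, 0, 67108864⟩, ⟨1, 0, 0, 67108864⟩, ⟨2, 1, 0, 67108864⟩] 2 0 2 0 0 (sgb false) (sgb false) x := by
  have X : XR 67108864 x := XR.of hx hx' (by norm_num) (by norm_num) (by norm_num) (by norm_num)
  have hen : 0 < eng.v x := en_pos X.x0.le
  refine CornW.altA (C := cA202R) (j := (0 : Fin 6)) (k := (0 : Fin 6)) (Ef := esg) (pd := pd) (o := 1 / 20)
    (cornW_of (C := cA202R) (C0 := c0B) (En := eng) (mo := mog) (j := (0 : Fin 6)) (k := (0 : Fin 6)) (lo := 5) (hi := 5) (W := 67108864) (N0 := 3) cA202R_q (sideB hx hx') gokB (pinU hx hx') dokB X (by norm_num) (by norm_num) (l := (5 : Fin 6)) rfl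
      (gatB02 x) (gatB00 x) (gatB52 x) (datB02 x) (datB00 x) (datB52 x) ?_)
    (cornS_of (C := cA202R) (C0 := c0B) (j := (0 : Fin 6)) (k := (0 : Fin 6)) (lo := 5) (hi := 5) (W := 67108864) (N0 := 3) cA202R_q (sideB hx hx') gokB X (by norm_num) (by norm_num) (l := (5 : Fin 6)) rfl
      (gatB02 x) (gatB00 x) (gatB52 x) ?_)
    (thU (pinU hx hx')) rfl hκ (fun j q y => tC_eq j q y x) (esg_rng X.x0.le (by linarith [X.b, X.p0])).1 (mo_v x) le_rfl le_rfl
  · intro ρ a B hρ hd i h1 h2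
    fin_cases i
    · exact absurd h1 (by norm_num)
    · exact absurd h1 (by norm_num)
    · exact absurd h1 (by norm_num)
    · exact absurd h1 (by norm_num)
    · exact corW_cert (G1 := gB0q2) (G2 := gB0q0) (Ga := gB4q2) (Gb := gB5q2) (D1 := dB0q2) (D2 := dB0q0) (Da := dB4q2) (Db := dB5q2) cA202R_ok B hρ hen (gatB02 x) (gatB00 x) (fun h => absurd h (by decide)) (fun _ => gatB52 x) (datB02 x) (datB00 x) (fun h => absurd h (by decide)) (fun _ => datB52 x) hd hx hx' CW.A202R_004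
  · intro ρ a B hρ hd i h1 h2
    fin_cases i
    · exact absurd h1 (by norm_num)
    · exact absurd h1 (by norm_num)
    · exact absurd h1 (by norm_num)
    · exact absurd h1 (by norm_num)
    · exact corX_cert (G1 := gB0q2) (G2 := gB0q0) (Ga := gB4q2) (Gb := gB5q2) (GT := gB5q2) cA202R_ok tA202R_ok B hρ (gatB02 x) (gatB00 x) (fun h => absurd h (by decide)) (fun _ => gatB52 x) rfl (tgh_A202R (kodd x) (gpu2 x) (gpu0 x) (gpt2 x) (gatB02 x) (gatB00 x) (gatB52 x) B (le_sixteenth hd (by norm_num))) hd hx hx' CG.A202R_004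

theorem altB_A202R_01 {κ x : ℝ} (hκ : κ * h0 = ken x) (hx : ((740881858 : ℕ) : ℝ) / S ≤ x) (hx' : x ≤ (((740881858 : ℕ) : ℝ) + (40050571 : ℕ)) / S) :
    AltEA 3 κ (eng.v x) (1 / 20) (tnt (h0 * x) (1 / 5)) PP tK tL tC pcB (scP esg pd) [⟨0, 1, 0, 67108864⟩, ⟨1, 0, 0, 67108864⟩, ⟨2, 1, 0, 67108864⟩] 2 0 2 0 1 (sgb false) (sgb false) x := by
  have X : XR 67108864 x := XR.of hx hx' (by norm_num) (by norm_num) (by norm_num) (by norm_num)
  have hen : 0 < eng.v x := en_pos X.x0.le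
  refine CornW.altA (C := cA202R) (j := (0 : Fin 6)) (k := (1 : Fin 6)) (Ef := esg) (pd := pd) (o := 1 / 20)
    (cornW_of (C := cA202R) (C0 := c0B) (En := eng) (mo := mog) (j := (0 : Fin 6)) (k := (1 : Fin 6)) (lo := 5) (hi := 5) (W := 67108864) (N0 := 3) cA202R_q (sideB hx hx') gokB (pinU hx hx') dokB X (by norm_num) (by norm_num) (l := (5 : Fin 6)) rfl
      (gatB02 x) (gatB10 x) (gatB52 x) (datB02 x) (datB10 x) (datB52 x) ?_)
    (cornS_of (C := cA202R) (C0 := c0B) (j := (0 : Fin 6)) (k := (1 : Fin 6)) (lo := 5) (hi := 5) (W := 67108864) (N0 := 3) cA202R_q (sideB hx hx') gokB X (by norm_num) (by norm_num) (l := (5 : Fin 6)) rfl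
      (gatB02 x) (gatB10 x) (gatB52 x) ?_)
    (thU (pinU hx hx')) rfl hκ (fun j q y => tC_eq j q y x) (esg_rng X.x0.le (by linarith [X.b, X.p0])).1 (mo_v x) le_rfl le_rfl
  · intro ρ a B hρ hd i h1 h2
    fin_cases i
    · exact absurd h1 (by norm_num)
    · exact absurd h1 (by norm_num)
    · exact absurd h1 (by norm_num)
    · exact absurd h1 (by norm_num)
    · exact corW_cert (G1 := gB0q2) (G2 := gB1q0) (Ga := gB4q2) (Gb := gB5q2) (D1 := dB0q2) (D2 := dB1q0) (Da := dB4q2) (Db := dB5q2) cA202R_ok B hρ hen (gatB02 x) (gatB10 x) (fun h => absurd h (by decide)) (fun _ => gatB52 x) (datB02 x) (datB10 x) (fun h => absurd h (by decide)) (fun _ => datB52 x) hd hx hx' CW.A202R_014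
  · intro ρ a B hρ hd i h1 h2
    fin_cases i
    · exact absurd h1 (by norm_num)
    · exact absurd h1 (by norm_num)
    · exact absurd h1 (by norm_num)
    · exact absurd h1 (by norm_num)
    · exact corT_cert (G1 := gB0q2) (G2 := gB1q0) (Ga := gB4q2) (Gb := gB5q2) cA202R_ok B hρ (gatB02 x) (gatB10 x) (fun h => absurd h (by decide)) (fun _ => gatB52 x) hd hx hx' CG.A202R_014

theorem altB_A202R_02 {κ x : ℝ} (hκ : κ * h0 = ken x) (hx : ((740881858 : ℕ) : ℝ) / S ≤ x) (hx' : x ≤ (((740881858 : ℕ) : ℝ) + (40050571 : ℕ)) / S) :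
    AltEA 3 κ (eng.v x) (1 / 20) (tnt (h0 * x) (1 / 5)) PP tK tL tC pcB (scP esg pd) [⟨0, 1, 0, 67108864⟩, ⟨1, 0, 0, 67108864⟩, ⟨2, 1, 0, 67108864⟩] 2 0 2 0 2 (sgb false) (sgb false) x := by
  have X : XR 67108864 x := XR.of hx hx' (by norm_num) (by norm_num) (by norm_num) (by norm_num)
  have hen : 0 < eng.v x := en_pos X.x0.le
  refine CornW.altA (C := cA202R) (j := (0 : Fin 6)) (k := (2 : Fin 6)) (Ef := esg) (pd := pd) (o := 1 / 20)
    (cornW_of (C := cA202R) (C0 := c0B) (En := eng) (mo := mog) (j := (0 : Fin 6)) (k := (2 : Fin 6)) (lo := 5) (hi := 5) (W := 67108864) (N0 := 3) cA202R_q (sideB hx hx') gokB (pinU hx hx') dokB X (by norm_num) (by norm_num) (l := (5 : Fin 6)) rfl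
      (gatB02 x) (gatB20 x) (gatB52 x) (datB02 x) (datB20 x) (datB52 x) ?_)
    (cornS_of (C := cA202R) (C0 := c0B) (j := (0 : Fin 6)) (k := (2 : Fin 6)) (lo := 5) (hi := 5) (W := 67108864) (N0 := 3) cA202R_q (sideB hx hx') gokB X (by norm_num) (by norm_num) (l := (5 : Fin 6)) rfl
      (gatB02 x) (gatB20 x) (gatB52 x) ?_)
    (thU (pinU hx hx')) rfl hκ (fun j q y => tC_eq j q y x) (esg_rng X.x0.le (by linarith [X.b, X.p0])).1 (mo_v x) le_rfl le_rfl
  · intro ρ a B hρ hd i h1 h2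
    fin_cases i
    · exact absurd h1 (by norm_num)
    · exact absurd h1 (by norm_num)
    · exact absurd h1 (by norm_num)
    · exact absurd h1 (by norm_num)
    · exact corW_cert (G1 := gB0q2) (G2 := gB2q0) (Ga := gB4q2) (Gb := gB5q2) (D1 := dB0q2) (D2 := dB2q0) (Da := dB4q2) (Db := dB5q2) cA202R_ok B hρ hen (gatB02 x) (gatB20 x) (fun h => absurd h (by decide)) (fun _ => gatB52 x) (datB02 x) (datB20 x) (fun h => absurd h (by decide)) (fun _ => datB52 x) hd hx hx' CW.A202R_024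
  · intro ρ a B hρ hd i h1 h2
    fin_cases i
    · exact absurd h1 (by norm_num)
    · exact absurd h1 (by norm_num)
    · exact absurd h1 (by norm_num)
    · exact absurd h1 (by norm_num)
    · exact corT_cert (G1 := gB0q2) (G2 := gB2q0) (Ga := gB4q2) (Gb := gB5q2) cA202R_ok B hρ (gatB02 x) (gatB20 x) (fun h => absurd h (by decide)) (fun _ => gatB52 x) hd hx hx' CG.A202R_024

theorem altB_A202R_11 {κ x : ℝ} (hκ : κ * h0 = ken x) (hx : ((740881858 : ℕ) : ℝ) / S ≤ x) (hx' : x ≤ (((740881858 : ℕ) : ℝ) + (40050571 : ℕ)) / S) :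
    AltEA 3 κ (eng.v x) (1 / 20) (tnt (h0 * x) (1 / 5)) PP tK tL tC pcB (scP esg pd) [⟨0, 1, 0, 67108864⟩, ⟨1, 0, 0, 67108864⟩, ⟨2, 1, 0, 67108864⟩] 2 0 2 1 1 (sgb false) (sgb false) x := by
  have X : XR 67108864 x := XR.of hx hx' (by norm_num) (by norm_num) (by norm_num) (by norm_num)
  have hen : 0 < eng.v x := en_pos X.x0.le
  refine CornW.altA (C := cA202R) (j := (1 : Fin 6)) (k := (1 : Fin 6)) (Ef := esg) (pd := pd) (o := 1 / 20)
    (cornW_of (C := cA202R) (C0 := c0B) (En := eng) (mo := mog) (j := (1 : Fin 6)) (k := (1 : Fin 6)) (lo := 5) (hi := 5) (W := 67108864) (N0 := 3) cA202R_q (sideB hx hx') gokB (pinU hx hx') dokB X (by norm_num) (by norm_num) (l := (5 : Fin 6)) rfl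
      (gatB12 x) (gatB10 x) (gatB52 x) (datB12 x) (datB10 x) (datB52 x) ?_)
    (cornS_of (C := cA202R) (C0 := c0B) (j := (1 : Fin 6)) (k := (1 : Fin 6)) (lo := 5) (hi := 5) (W := 67108864) (N0 := 3) cA202R_q (sideB hx hx') gokB X (by norm_num) (by norm_num) (l := (5 : Fin 6)) rfl
      (gatB12 x) (gatB10 x) (gatB52 x) ?_)
    (thU (pinU hx hx')) rfl hκ (fun j q y => tC_eq j q y x) (esg_rng X.x0.le (by linarith [X.b, X.p0])).1 (mo_v x) le_rfl le_rfl
  · intro ρ a B hρ hd i h1 h2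
    fin_cases i
    · exact absurd h1 (by norm_num)
    · exact absurd h1 (by norm_num)
    · exact absurd h1 (by norm_num)
    · exact absurd h1 (by norm_num)
    · exact corW_cert (G1 := gB1q2) (G2 := gB1q0) (Ga := gB4q2) (Gb := gB5q2) (D1 := dB1q2) (D2 := dB1q0) (Da := dB4q2) (Db := dB5q2) cA202R_ok B hρ hen (gatB12 x) (gatB10 x) (fun h => absurd h (by decide)) (fun _ => gatB52 x) (datB12 x) (datB10 x) (fun h => absurd h (by decide)) (fun _ => datB52 x) hd hx hx' CW.A202R_114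
  · intro ρ a B hρ hd i h1 h2
    fin_cases i
    · exact absurd h1 (by norm_num)
    · exact absurd h1 (by norm_num)
    · exact absurd h1 (by norm_num)
    · exact absurd h1 (by norm_num)
    · exact corT_cert (G1 := gB1q2) (G2 := gB1q0) (Ga := gB4q2) (Gb := gB5q2) cA202R_ok B hρ (gatB12 x) (gatB10 x) (fun h => absurd h (by decide)) (fun _ => gatB52 x) hd hx hx' CG.A202R_114

theorem altB_A202R_12 {κ x : ℝ} (hκ : κ * h0 = ken x) (hx : ((740881858 : ℕ) : ℝ) / S ≤ x) (hx' : x ≤ (((740881858 : ℕ) : ℝ) + (40050571 : ℕ)) / S) :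
    AltEA 3 κ (eng.v x) (1 / 20) (tnt (h0 * x) (1 / 5)) PP tK tL tC pcB (scP esg pd) [⟨0, 1, 0, 67108864⟩, ⟨1, 0, 0, 67108864⟩, ⟨2, 1, 0, 67108864⟩] 2 0 2 1 2 (sgb false) (sgb false) x := by
  have X : XR 67108864 x := XR.of hx hx' (by norm_num) (by norm_num) (by norm_num) (by norm_num)
  have hen : 0 < eng.v x := en_pos X.x0.le
  refine CornW.altA (C := cA202R) (j := (1 : Fin 6)) (k := (2 : Fin 6)) (Ef := esg) (pd := pd) (o := 1 / 20)
    (cornW_of (C := cA202R) (C0 := c0B) (En := eng) (mo := mog) (j := (1 : Fin 6)) (k := (2 : Fin 6)) (lo := 5) (hi := 5) (W := 67108864) (N0 := 3) cA202R_q (sideB hx hx') gokB (pinU hx hx') dokB X (by norm_num) (by norm_num) (l := (5 : Fin 6)) rfl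
      (gatB12 x) (gatB20 x) (gatB52 x) (datB12 x) (datB20 x) (datB52 x) ?_)
    (cornS_of (C := cA202R) (C0 := c0B) (j := (1 : Fin 6)) (k := (2 : Fin 6)) (lo := 5) (hi := 5) (W := 67108864) (N0 := 3) cA202R_q (sideB hx hx') gokB X (by norm_num) (by norm_num) (l := (5 : Fin 6)) rfl
      (gatB12 x) (gatB20 x) (gatB52 x) ?_)
    (thU (pinU hx hx')) rfl hκ (fun j q y => tC_eq j q y x) (esg_rng X.x0.le (by linarith [X.b, X.p0])).1 (mo_v x) le_rfl le_rfl
  · intro ρ a B hρ hd i h1 h2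
    fin_cases i
    · exact absurd h1 (by norm_num)
    · exact absurd h1 (by norm_num)
    · exact absurd h1 (by norm_num)
    · exact absurd h1 (by norm_num)
    · exact corW_cert (G1 := gB1q2) (G2 := gB2q0) (Ga := gB4q2) (Gb := gB5q2) (D1 := dB1q2) (D2 := dB2q0) (Da := dB4q2) (Db := dB5q2) cA202R_ok B hρ hen (gatB12 x) (gatB20 x) (fun h => absurd h (by decide)) (fun _ => gatB52 x) (datB12 x) (datB20 x) (fun h => absurd h (by decide)) (fun _ => datB52 x) hd hx hx' CW.A202R_124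
  · intro ρ a B hρ hd i h1 h2
    fin_cases i
    · exact absurd h1 (by norm_num)
    · exact absurd h1 (by norm_num)
    · exact absurd h1 (by norm_num)
    · exact absurd h1 (by norm_num)
    · exact corT_cert (G1 := gB1q2) (G2 := gB2q0) (Ga := gB4q2) (Gb := gB5q2) cA202R_ok B hρ (gatB12 x) (gatB20 x) (fun h => absurd h (by decide)) (fun _ => gatB52 x) hd hx hx' CG.A202R_124

end Pool.Agent.Strip051.G.I69_7273.Tab
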