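import Pool.Agent.Strip051.G.I69_7273.DgP

/-! # The corner (1, 1, 2): certificates of the degenerate charts (generated) -/

set_option linter.all false

namespace Pool.Agent.Strip051.G.I69_7273.Tab.DG

open Pool.Agent.Strip051.PB Pool.Agent.Strip051.PB.Dg Pool.Agent.StripNear Pool.Agent.Strip051.LC

theorem cFA4 : ∃ t, chk3 (onCell 0 232471925 0 1073741824 740881858 40050571 (fdAx true pF (ndUR ndF4) (dgSC pF) (thUp (ndUR ndF4) (dgSC pF)))) t 1 1 1 = true :=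
  ⟨(T.b (T.l 2) (T.a (T.a (T.c (T.b (T.a (T.l 1088) (T.l 1088)) (T.a (T.l 349520) (T.l 349520))) (T.b (T.b (T.b (T.l 2) (T.b (T.l 2) (T.a (T.l 64) (T.l 64)))) (T.a (T.l 1088) (T.l 1088))) (T.l 349520))) (T.a (T.a (T.b (T.c (T.l 1088) (T.c (T.l 1088) (T.b (T.b (T.l 2) (T.b (T.l 2) (T.l 0))) (T.l 1088)))) (T.b (T.l 279616) (T.l 349520))) (T.c (T.b (T.a (T.l 1088) (T.c (T.l 1088) (T.b (T.a (T.l 1024) (T.l 1024)) (T.l 1024)))) (T.a (T.l 349520) (T.b (T.l 1088) (T.l 349520)))) (T.b (T.a (T.c (T.l 1088) (T.b (T.b (T.l 2) (T.b (T.l 2) (T.l 0))) (T.l 1088))) (T.b (T.b (T.l 2) (T.b (T.l 2) (T.a (T.l 64) (T.b (T.l 2) (T.l 0))))) (T.a (T.l 1088) (T.b (T.l 64) (T.l 0))))) (T.a (T.l 349520) (T.b (T.l 1088) (T.l 349520)))))) (T.a (T.b (T.b (T.b (T.l 2) (T.b (T.l 2) (T.b (T.l 2) (T.a (T.c (T.l 0) (T.a (T.l 0) (T.a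 (T.l 0) (T.l 0)))) (T.c (T.l 0) (T.c (T.l 0) (T.a (T.l 0) (T.l 0)))))))) (T.c (T.a (T.a (T.l 1088) (T.l 1088)) (T.c (T.l 1024) (T.a (T.l 1024) (T.l 1024)))) (T.a (T.c (T.a (T.l 1024) (T.l 1024)) (T.b (T.a (T.l 0) (T.a (T.l 0) (T.l 0))) (T.l 0))) (T.c (T.b (T.l 0) (T.l 0)) (T.b (T.c (T.l 0) (T.a (T.l 0) (T.l 0))) (T.a (T.l 0) (T.l 0))))))) (T.b (T.a (T.c (T.l 1088) (T.l 1088)) (T.c (T.a (T.l 1088) (T.b (T.l 1024) (T.l 1088))) (T.b (T.l 1088) (T.a (T.l 1088) (T.l 1088))))) (T.c (T.a (T.c (T.a (T.l 349520) (T.l 349520)) (T.l 349520)) (T.a (T.b (T.l 1088) (T.l 349520)) (T.l 349520))) (T.a (T.a (T.l 349520) (T.l 349520)) (T.a (T.b (T.l 1088) (T.l 349520)) (T.l 349520)))))) (T.b (T.b (T.b (T.l 2) (T.b (T.l 2) (T.b (T.l 2) (T.a (T.c (T.a (T.l 0) (T.l 0)) (T.c (T.l 0) (T.a (T.l 0) (T.l 0)))) (T.c (T.a (T.l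 0) (T.l 0)) (T.c (T.l 0) (T.c (T.l 0) (T.a (T.l 0) (T.l 0))))))))) (T.c (T.a (T.c (T.l 1024) (T.a (T.l 1024) (T.l 1024))) (T.c (T.a (T.l 1024) (T.l 1024)) (T.b (T.a (T.l 0) (T.l 0)) (T.a (T.l 0) (T.l 1024))))) (T.a (T.c (T.b (T.a (T.l 0) (T.l 0)) (T.l 1536)) (T.b (T.c (T.l 0) (T.a (T.l 0) (T.l 0))) (T.a (T.l 0) (T.l 0)))) (T.c (T.b (T.a (T.l 0) (T.l 0)) (T.c (T.l 0) (T.a (T.l 0) (T.l 0)))) (T.b (T.c (T.a (T.l 0) (T.l 0)) (T.a (T.l 0) (T.a (T.l 0) (T.l 0)))) (T.c (T.a (T.l 0) (T.l 0)) (T.a (T.l 0) (T.l 0)))))))) (T.b (T.c (T.c (T.a (T.b (T.l 1024) (T.a (T.l 1024) (T.l 1024))) (T.a (T.b (T.l 1024) (T.l 1024)) (T.l 1088))) (T.a (T.b (T.a (T.l 1024) (T.l 1024)) (T.a (T.l 1024) (T.l 1024))) (T.b (T.a (T.l 1024) (T.l 1024)) (T.l 1088)))) (T.a (T.b (T.a (T.l 1088) (T.b (T.l 1088) (T.l 1088))) (T.a (T.a (T.l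 1088) (T.l 1088)) (T.l 1088))) (T.b (T.a (T.c (T.l 1024) (T.l 1088)) (T.l 1088)) (T.l 1088)))) (T.a (T.c (T.a (T.l 349520) (T.l 349520)) (T.l 349520)) (T.c (T.c (T.l 350032) (T.l 349520)) (T.a (T.l 349520) (T.l 349520))))))))) (T.b (T.b (T.a (T.a (T.b (T.l 2) (T.b (T.l 2) (T.b (T.l 2) (T.a (T.a (T.c (T.a (T.l 0) (T.l 0)) (T.b (T.l 2) (T.c (T.a (T.l 0) (T.l 0)) (T.a (T.l 0) (T.l 0))))) (T.c (T.a (T.l 0) (T.l 0)) (T.b (T.l 2) (T.c (T.a (T.l 0) (T.l 0)) (T.a (T.l 0) (T.a (T.l 0) (T.l 0))))))) (T.a (T.a (T.c (T.l 0) (T.a (T.l 1088) (T.l 1088))) (T.c (T.l 1024) (T.a (T.l 1088) (T.l 2)))) (T.l 2)))))) (T.l 2)) (T.l 2)) (T.c (T.b (T.a (T.a (T.a (T.a (T.c (T.a (T.l 0) (T.l 0)) (T.a (T.l 0) (T.l 0))) (T.b (T.c (T.l 0) (T.a (T.l 0) (T.l 0))) (T.l 1024))) (T.a (T.a (T.l 1024) (T.l 1024)) (T.a (T.l 1024) (T.l 1024))))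 (T.a (T.a (T.a (T.l 1024) (T.l 1024)) (T.a (T.l 1024) (T.l 1024))) (T.a (T.a (T.l 1024) (T.l 1024)) (T.a (T.l 1024) (T.l 1024))))) (T.a (T.a (T.a (T.a (T.l 1024) (T.l 1024)) (T.a (T.l 1024) (T.l 1024))) (T.a (T.a (T.l 1024) (T.l 1024)) (T.a (T.l 1024) (T.l 1024)))) (T.a (T.a (T.a (T.l 1024) (T.a (T.l 1024) (T.l 1024))) (T.a (T.a (T.l 1024) (T.l 1024)) (T.a (T.l 1024) (T.l 1024)))) (T.a (T.c (T.a (T.l 0) (T.l 0)) (T.a (T.l 0) (T.l 0))) (T.c (T.a (T.l 0) (T.l 0)) (T.a (T.l 0) (T.l 0))))))) (T.a (T.a (T.a (T.a (T.a (T.c (T.l 1024) (T.l 1024)) (T.l 1024)) (T.a (T.l 1024) (T.l 1024))) (T.a (T.a (T.l 1024) (T.l 1024)) (T.a (T.l 1024) (T.l 1024)))) (T.a (T.a (T.a (T.l 1024) (T.l 1024)) (T.a (T.l 1024) (T.l 1024))) (T.a (T.a (T.l 1024) (T.l 1024)) (T.a (T.l 1024) (T.l 1024))))) (T.a (T.a (T.a (T.a (T.l 1024)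 (T.l 1024)) (T.a (T.l 1024) (T.a (T.l 1024) (T.l 1024)))) (T.a (T.a (T.a (T.l 1024) (T.l 1024)) (T.a (T.l 1024) (T.l 1024))) (T.a (T.a (T.l 1024) (T.l 1024)) (T.c (T.l 1024) (T.l 1024))))) (T.a (T.a (T.a (T.c (T.l 1024) (T.l 1024)) (T.l 1024)) (T.a (T.l 1024) (T.l 1024))) (T.a (T.a (T.l 1024) (T.l 1024)) (T.l 1088)))))) (T.b (T.a (T.a (T.a (T.a (T.c (T.c (T.l 0) (T.a (T.l 0) (T.l 0))) (T.c (T.a (T.l 0) (T.l 0)) (T.a (T.a (T.l 0) (T.l 0)) (T.a (T.l 0) (T.l 0))))) (T.c (T.b (T.a (T.l 0) (T.l 0)) (T.l 1024)) (T.b (T.a (T.a (T.l 0) (T.l 0)) (T.a (T.l 0) (T.l 0))) (T.a (T.l 1088) (T.l 1088))))) (T.a (T.c (T.a (T.l 1024) (T.l 1024)) (T.a (T.l 1088) (T.a (T.l 1088) (T.l 1088)))) (T.c (T.a (T.l 1024) (T.l 1024)) (T.a (T.a (T.l 1088) (T.l 1088)) (T.a (T.l 1088) (T.l 1088)))))) (T.a (T.a (T.a (T.c (T.l 1024)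 (T.l 1088)) (T.c (T.l 1024) (T.l 1088))) (T.c (T.a (T.l 1024) (T.l 1024)) (T.a (T.l 1088) (T.l 1088)))) (T.a (T.c (T.a (T.l 1024) (T.l 1024)) (T.a (T.l 1088) (T.l 1088))) (T.a (T.a (T.l 1088) (T.l 1088)) (T.a (T.l 1088) (T.l 1088)))))) (T.a (T.a (T.a (T.a (T.a (T.l 1088) (T.l 1088)) (T.a (T.l 1088) (T.l 1088))) (T.a (T.a (T.l 1088) (T.l 1088)) (T.a (T.l 1088) (T.l 1088)))) (T.a (T.a (T.a (T.l 1088) (T.l 1088)) (T.a (T.l 1088) (T.l 1088))) (T.a (T.a (T.l 1088) (T.l 1088)) (T.a (T.l 1088) (T.l 1088))))) (T.a (T.a (T.a (T.a (T.l 1088) (T.l 1088)) (T.a (T.l 1088) (T.l 1088))) (T.a (T.a (T.l 1088) (T.l 1088)) (T.a (T.l 1088) (T.l 1088)))) (T.a (T.c (T.a (T.l 0) (T.l 0)) (T.a (T.l 0) (T.l 0))) (T.c (T.a (T.l 0) (T.l 0)) (T.a (T.l 0) (T.l 0))))))) (T.a (T.a (T.a (T.a (T.a (T.b (T.c (T.l 0) (T.l 0)) (T.l 1088))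 (T.l 1088)) (T.a (T.l 1088) (T.a (T.l 1088) (T.l 1088)))) (T.a (T.a (T.l 1088) (T.a (T.l 1088) (T.l 1088))) (T.c (T.l 1088) (T.a (T.l 1088) (T.l 1088))))) (T.a (T.a (T.c (T.l 1088) (T.a (T.l 1088) (T.l 1088))) (T.c (T.l 1088) (T.a (T.l 1088) (T.l 1088)))) (T.a (T.c (T.l 1088) (T.a (T.l 1088) (T.l 1088))) (T.a (T.a (T.l 1088) (T.l 1088)) (T.a (T.l 1088) (T.l 1088)))))) (T.c (T.a (T.a (T.a (T.a (T.l 1024) (T.l 1024)) (T.a (T.l 1024) (T.l 1024))) (T.a (T.a (T.l 1024) (T.l 1024)) (T.a (T.l 1024) (T.l 1024)))) (T.a (T.a (T.a (T.l 1024) (T.l 1024)) (T.l 1088)) (T.a (T.l 1088) (T.l 1088)))) (T.a (T.a (T.a (T.a (T.l 1088) (T.l 1088)) (T.a (T.l 1088) (T.l 1088))) (T.a (T.a (T.l 1088) (T.l 1088)) (T.a (T.l 1088) (T.l 1024)))) (T.a (T.a (T.a (T.l 1024) (T.l 1024)) (T.l 1088)) (T.a (T.l 1088) (T.l 1088)))))))))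 (T.b (T.b (T.c (T.a (T.a (T.a (T.a (T.a (T.l 1088) (T.l 1088)) (T.a (T.l 1088) (T.l 1088))) (T.a (T.a (T.l 1088) (T.l 1088)) (T.a (T.l 1088) (T.l 1088)))) (T.a (T.a (T.a (T.l 1088) (T.l 1088)) (T.a (T.l 1088) (T.l 1088))) (T.a (T.a (T.l 1088) (T.l 1088)) (T.a (T.a (T.l 1088) (T.l 1088)) (T.a (T.l 1088) (T.l 1088)))))) (T.b (T.a (T.a (T.a (T.a (T.l 1024) (T.a (T.l 1024) (T.l 1024))) (T.a (T.a (T.l 1024) (T.l 1024)) (T.l 1024))) (T.a (T.a (T.l 1024) (T.l 1024)) (T.a (T.l 1024) (T.l 1024)))) (T.a (T.a (T.a (T.l 1024) (T.l 1024)) (T.a (T.l 1024) (T.l 1024))) (T.a (T.l 1088) (T.l 1088)))) (T.c (T.a (T.a (T.a (T.a (T.l 1024) (T.l 1024)) (T.l 1024)) (T.a (T.l 1024) (T.l 1024))) (T.a (T.a (T.l 1024) (T.l 1024)) (T.a (T.l 1024) (T.l 4)))) (T.a (T.a (T.a (T.a (T.l 1024) (T.l 1024)) (T.l 1024)) (T.a (T.l 1024)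 (T.l 1024))) (T.a (T.a (T.l 1024) (T.l 1024)) (T.a (T.l 1024) (T.l 4))))))) (T.a (T.a (T.a (T.a (T.a (T.l 1088) (T.l 1088)) (T.a (T.l 1088) (T.l 1088))) (T.a (T.a (T.l 1088) (T.l 1088)) (T.a (T.l 1088) (T.l 1088)))) (T.a (T.a (T.a (T.l 1088) (T.l 1088)) (T.a (T.l 1088) (T.l 1088))) (T.a (T.a (T.l 1088) (T.l 1088)) (T.a (T.a (T.l 1088) (T.l 1088)) (T.a (T.l 1088) (T.l 1088)))))) (T.b (T.c (T.a (T.a (T.a (T.a (T.l 1024) (T.l 1024)) (T.a (T.l 1024) (T.l 1024))) (T.a (T.l 1024) (T.l 1024))) (T.a (T.a (T.l 1024) (T.l 1024)) (T.l 1088))) (T.a (T.a (T.a (T.a (T.l 1024) (T.l 1024)) (T.a (T.l 1024) (T.l 0))) (T.a (T.l 1088) (T.l 1088))) (T.a (T.a (T.l 1088) (T.l 1088)) (T.l 1088)))) (T.c (T.a (T.a (T.a (T.a (T.l 1024) (T.l 1024)) (T.l 1088)) (T.a (T.l 1088) (T.l 1088))) (T.a (T.a (T.l 1024) (T.l 1088)) (T.a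 (T.l 1088) (T.l 4)))) (T.a (T.a (T.a (T.a (T.l 1024) (T.l 1024)) (T.l 1088)) (T.a (T.l 1088) (T.l 1088))) (T.a (T.a (T.l 1088) (T.l 1088)) (T.l 1088))))))) (T.c (T.a (T.a (T.a (T.a (T.a (T.l 1088) (T.l 1088)) (T.a (T.l 1088) (T.l 1088))) (T.a (T.a (T.l 1088) (T.l 1088)) (T.a (T.l 1088) (T.l 1088)))) (T.a (T.a (T.c (T.a (T.l 1024) (T.l 1024)) (T.l 1088)) (T.c (T.a (T.l 1024) (T.l 1024)) (T.a (T.l 1088) (T.l 1088)))) (T.a (T.c (T.a (T.l 1024) (T.a (T.l 1024) (T.l 1024))) (T.a (T.l 1088) (T.l 1088))) (T.a (T.c (T.a (T.l 1024) (T.l 1024)) (T.l 1088)) (T.l 1088))))) (T.b (T.c (T.a (T.a (T.a (T.l 1024) (T.l 1024)) (T.a (T.l 1024) (T.l 1024))) (T.a (T.a (T.l 1024) (T.l 1024)) (T.a (T.l 1088) (T.l 4)))) (T.a (T.a (T.a (T.l 1024) (T.l 1024)) (T.a (T.l 1024) (T.l 1024))) (T.a (T.a (T.l 1088) (T.l 1088)) (T.l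 1088)))) (T.c (T.a (T.a (T.a (T.l 1024) (T.l 1024)) (T.a (T.l 1088) (T.l 1088))) (T.a (T.a (T.l 1088) (T.l 1088)) (T.l 4))) (T.a (T.a (T.a (T.l 1088) (T.l 1088)) (T.a (T.l 1088) (T.l 1088))) (T.a (T.a (T.l 1088) (T.l 1088)) (T.l 4)))))) (T.a (T.a (T.a (T.a (T.a (T.l 1088) (T.l 1088)) (T.a (T.l 1088) (T.l 1088))) (T.a (T.a (T.l 1088) (T.l 1088)) (T.a (T.l 1088) (T.l 1088)))) (T.a (T.a (T.a (T.l 1088) (T.l 1088)) (T.a (T.a (T.l 1088) (T.l 1088)) (T.a (T.l 1088) (T.l 1088)))) (T.a (T.a (T.a (T.l 1088) (T.l 1088)) (T.a (T.l 1088) (T.l 1088))) (T.a (T.a (T.l 1088) (T.l 1088)) (T.l 1088))))) (T.b (T.c (T.a (T.a (T.a (T.l 1088) (T.l 1088)) (T.a (T.l 1088) (T.l 1088))) (T.a (T.a (T.l 1088) (T.l 1088)) (T.l 1088))) (T.a (T.a (T.a (T.l 1088) (T.l 1088)) (T.a (T.l 1088) (T.l 1088))) (T.a (T.a (T.l 1088) (T.l 1088))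 (T.l 1088)))) (T.c (T.a (T.a (T.a (T.l 1088) (T.l 1088)) (T.a (T.l 1088) (T.l 1088))) (T.a (T.a (T.l 1088) (T.l 1088)) (T.l 4))) (T.a (T.a (T.a (T.l 1088) (T.l 1088)) (T.a (T.l 1088) (T.l 1088))) (T.a (T.a (T.l 1088) (T.l 1088)) (T.l 4)))))))) (T.b (T.c (T.a (T.a (T.a (T.a (T.a (T.l 1088) (T.l 1088)) (T.a (T.l 1088) (T.l 1088))) (T.a (T.c (T.l 1600) (T.l 1088)) (T.c (T.a (T.l 1088) (T.l 1088)) (T.a (T.l 1088) (T.l 1088))))) (T.a (T.a (T.c (T.a (T.a (T.l 1088) (T.l 1088)) (T.a (T.l 1088) (T.l 1088))) (T.a (T.l 1088) (T.l 1088))) (T.a (T.c (T.a (T.l 1088) (T.l 1088)) (T.l 1088)) (T.l 263488))) (T.a (T.a (T.l 263488) (T.l 263488)) (T.a (T.l 263488) (T.l 279872))))) (T.a (T.a (T.a (T.a (T.l 279888) (T.l 280400)) (T.a (T.a (T.l 279872) (T.l 279872)) (T.a (T.l 263488) (T.l 263488)))) (T.a (T.a (T.l 279888)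 (T.l 279888)) (T.a (T.l 279888) (T.l 279888)))) (T.a (T.a (T.a (T.l 279888) (T.l 4)) (T.l 4)) (T.l 4)))) (T.a (T.a (T.a (T.a (T.a (T.l 1088) (T.l 1088)) (T.a (T.l 1088) (T.l 1088))) (T.a (T.a (T.l 1344) (T.l 1360)) (T.a (T.l 263504) (T.l 263504)))) (T.a (T.a (T.c (T.a (T.l 1088) (T.l 1088)) (T.a (T.l 1088) (T.l 1088))) (T.a (T.a (T.l 1088) (T.l 1088)) (T.l 279888))) (T.a (T.a (T.l 279888) (T.l 279888)) (T.a (T.l 279888) (T.l 279888))))) (T.a (T.a (T.a (T.a (T.l 279888) (T.l 279888)) (T.a (T.l 279888) (T.l 279888))) (T.a (T.a (T.l 279888) (T.l 279888)) (T.a (T.l 279888) (T.l 279888)))) (T.a (T.a (T.l 349520) (T.l 4)) (T.l 4))))) (T.c (T.a (T.a (T.a (T.a (T.c (T.l 350032) (T.l 349520)) (T.c (T.a (T.l 349520) (T.l 349520)) (T.l 349520))) (T.a (T.c (T.a (T.l 349520) (T.a (T.l 349520) (T.l 349520))) (T.a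 (T.l 349520) (T.l 349520))) (T.a (T.c (T.b (T.l 1088) (T.l 349520)) (T.l 349520)) (T.a (T.l 349520) (T.l 349520))))) (T.a (T.a (T.c (T.a (T.l 349520) (T.l 349520)) (T.l 349520)) (T.a (T.l 350032) (T.l 349520))) (T.a (T.a (T.l 349520) (T.l 349520)) (T.a (T.a (T.l 349520) (T.l 349520)) (T.a (T.l 349520) (T.l 349520)))))) (T.a (T.a (T.a (T.a (T.a (T.l 349520) (T.l 350032)) (T.a (T.l 349520) (T.l 349520))) (T.a (T.l 349520) (T.l 349520))) (T.a (T.a (T.l 349520) (T.l 349520)) (T.l 4))) (T.l 4))) (T.a (T.a (T.a (T.a (T.a (T.l 349520) (T.l 349520)) (T.a (T.l 349520) (T.l 349520))) (T.a (T.a (T.l 349520) (T.l 349520)) (T.a (T.a (T.l 349520) (T.l 349520)) (T.l 349520)))) (T.a (T.a (T.a (T.l 349520) (T.l 349520)) (T.a (T.l 349520) (T.l 349520))) (T.a (T.l 349520) (T.a (T.l 349520) (T.l 349520))))) (T.a (T.a (T.a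 (T.a (T.l 349520) (T.l 349520)) (T.l 349520)) (T.a (T.l 349520) (T.l 4))) (T.l 4))))))))), by decide +kernel⟩

end Pool.Agent.Strip051.G.I69_7273.Tab.DG
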