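import Pool.Agent.Strip051.G.I69_7273.DgP

/-! # The corner (1, 1, 2): certificates of the degenerate charts (generated) -/

set_option linter.all false

namespace Pool.Agent.Strip051.G.I69_7273.Tab.DG

open Pool.Agent.Strip051.PB Pool.Agent.Strip051.PB.Dg Pool.Agent.StripNear Pool.Agent.Strip051.LC

theorem cNB4 : ∃ t, chk3 (onCell 0 232471925 0 2684354560 740881858 40050571 (fdBW pN qN (ndUR ndN4) (suR ndN4))) t 1 1 1 = true :=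
  ⟨(T.b (T.b (T.a (T.b (T.l 2) (T.b (T.l 2) (T.c (T.c (T.l 0) (T.l 0)) (T.l 0)))) (T.b (T.l 2) (T.a (T.a (T.b (T.l 2) (T.b (T.l 2) (T.c (T.c (T.l 0) (T.l 0)) (T.l 0)))) (T.l 2)) (T.l 2)))) (T.b (T.a (T.a (T.b (T.b (T.l 174760) (T.l 4)) (T.l 4)) (T.a (T.b (T.b (T.l 174760) (T.l 4)) (T.l 4)) (T.b (T.b (T.a (T.l 174760) (T.l 174760)) (T.l 4)) (T.l 4)))) (T.b (T.a (T.b (T.a (T.b (T.a (T.l 174760) (T.l 174760)) (T.l 174760)) (T.b (T.c (T.a (T.l 174760) (T.l 174760)) (T.l 0)) (T.l 174760))) (T.l 4)) (T.b (T.a (T.b (T.c (T.c (T.l 0) (T.l 0)) (T.l 0)) (T.l 174760)) (T.b (T.c (T.c (T.l 0) (T.l 0)) (T.l 0)) (T.l 174760))) (T.b (T.a (T.l 174760) (T.l 174760)) (T.l 4)))) (T.l 4))) (T.l 4))) (T.a (T.l 4) (T.b (T.l 4) (T.a (T.l 4) (T.l 4))))), by decide +kernel⟩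
theorem cNB5 : ∃ t, chk3 (onCell 0 232471925 0 2684354560 740881858 40050571 (fdBW pN qN (dgSC pN) (suC qN))) t 1 1 1 = true :=
  ⟨(T.b (T.b (T.l 2) (T.b (T.l 2) (T.a (T.a (T.b (T.b (T.b (T.l 2) (T.c (T.c (T.l 0) (T.l 0)) (T.l 0))) (T.a (T.l 174760) (T.l 174760))) (T.l 174760)) (T.b (T.a (T.a (T.b (T.c (T.c (T.l 0) (T.l 0)) (T.l 0)) (T.l 174760)) (T.b (T.b (T.l 2) (T.b (T.l 2) (T.a (T.c (T.l 174760) (T.l 0)) (T.c (T.l 174760) (T.l 0))))) (T.a (T.l 174760) (T.l 174760)))) (T.b (T.b (T.l 2) (T.b (T.l 2) (T.a (T.c (T.c (T.l 0) (T.l 0)) (T.a (T.l 0) (T.a (T.l 0) (T.l 0)))) (T.c (T.c (T.l 0) (T.l 0)) (T.c (T.l 0) (T.a (T.l 0) (T.l 0))))))) (T.a (T.a (T.l 174760) (T.l 174760)) (T.c (T.l 174760) (T.a (T.l 174760) (T.l 174760)))))) (T.b (T.a (T.a (T.l 174760) (T.l 174760)) (T.a (T.l 174760) (T.l 174760))) (T.l 4))))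 (T.a (T.b (T.b (T.b (T.l 2) (T.b (T.l 2) (T.a (T.a (T.c (T.c (T.l 0) (T.l 0)) (T.b (T.a (T.l 0) (T.l 0)) (T.l 174760))) (T.c (T.c (T.l 0) (T.l 0)) (T.a (T.a (T.l 0) (T.l 0)) (T.a (T.l 0) (T.l 0))))) (T.a (T.c (T.c (T.l 0) (T.l 0)) (T.a (T.a (T.l 0) (T.l 0)) (T.a (T.l 0) (T.l 0)))) (T.a (T.c (T.a (T.l 174760) (T.l 174760)) (T.a (T.l 0) (T.l 0))) (T.c (T.a (T.l 174760) (T.l 174760)) (T.a (T.l 0) (T.l 0)))))))) (T.a (T.a (T.b (T.a (T.l 174760) (T.l 174760)) (T.l 174760)) (T.b (T.a (T.l 174760) (T.l 174760)) (T.l 174760))) (T.a (T.b (T.a (T.l 174760) (T.a (T.l 174760) (T.l 174760))) (T.l 174760)) (T.b (T.a (T.a (T.l 174760) (T.l 174760)) (T.a (T.l 174760) (T.l 174760))) (T.a (T.l 174760) (T.l 174760)))))) (T.b (T.b (T.a (T.a (T.l 174760) (T.l 174760)) (T.a (T.l 174760) (T.l 174760))) (T.l 4)) (T.l 4))) (T.a (T.b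 (T.a (T.b (T.b (T.l 2) (T.b (T.l 2) (T.a (T.c (T.a (T.l 174760) (T.l 174760)) (T.a (T.l 0) (T.l 0))) (T.c (T.a (T.l 174760) (T.l 174760)) (T.a (T.l 0) (T.l 0)))))) (T.a (T.b (T.a (T.l 174760) (T.l 174760)) (T.l 174760)) (T.a (T.b (T.l 174760) (T.l 6)) (T.l 6)))) (T.a (T.b (T.b (T.l 2) (T.b (T.l 2) (T.l 6))) (T.l 6)) (T.l 6))) (T.l 6)) (T.l 6)))))) (T.b (T.a (T.l 4) (T.a (T.l 4) (T.l 4))) (T.a (T.l 4) (T.a (T.l 4) (T.l 5))))), by decide +kernel⟩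
theorem cNP3 : ∃ t, chk3 (onCell 0 232471925 0 1073741824 740881858 40050571 (fdPW pN qN (ndUR ndN3) (suR ndN3))) t 1 1 1 = true :=
  ⟨(T.b (T.a (T.b (T.c (T.c (T.l 0) (T.l 0)) (T.l 0)) (T.l 2)) (T.b (T.c (T.c (T.l 0) (T.l 0)) (T.l 0)) (T.b (T.a (T.c (T.c (T.l 0) (T.l 0)) (T.l 0)) (T.c (T.c (T.l 0) (T.l 0)) (T.l 0))) (T.l 2)))) (T.l 2)), by decide +kernel⟩
theorem cNP4 : ∃ t, chk3 (onCell 0 232471925 0 1073741824 740881858 40050571 (fdPW pN qN (ndUR ndN4) (suR ndN4))) t 1 1 1 = true :=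
  ⟨(T.a (T.a (T.b (T.a (T.l 174760) (T.l 174760)) (T.b (T.b (T.c (T.c (T.l 0) (T.l 0)) (T.l 0)) (T.l 2)) (T.l 2))) (T.b (T.a (T.l 174760) (T.l 174760)) (T.b (T.b (T.c (T.c (T.l 0) (T.l 0)) (T.l 0)) (T.l 2)) (T.l 2)))) (T.b (T.b (T.l 174760) (T.a (T.l 174760) (T.a (T.l 174760) (T.l 174760)))) (T.b (T.a (T.b (T.b (T.l 174760) (T.b (T.l 174760) (T.a (T.a (T.a (T.l 174760) (T.l 174760)) (T.l 174760)) (T.l 174760)))) (T.b (T.b (T.a (T.c (T.c (T.l 0) (T.l 0)) (T.l 0)) (T.c (T.c (T.l 0) (T.l 0)) (T.l 0))) (T.l 2)) (T.l 2))) (T.b (T.b (T.l 174760) (T.a (T.a (T.l 174760) (T.l 174760)) (T.l 174760))) (T.b (T.b (T.a (T.c (T.c (T.l 0) (T.l 0)) (T.l 0)) (T.c (T.c (T.l 0) (T.l 0)) (T.l 0))) (T.l 2)) (T.l 2)))) (T.l 2)))), by decide +kernel⟩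
theorem cNP5 : ∃ t, chk3 (onCell 0 232471925 0 1073741824 740881858 40050571 (fdPW pN qN (dgSC pN) (suC qN))) t 1 1 1 = true :=
  ⟨(T.a (T.a (T.b (T.l 174760) (T.b (T.l 174760) (T.b (T.l 174760) (T.b (T.l 174760) (T.c (T.c (T.l 0) (T.l 0)) (T.l 0)))))) (T.b (T.l 174760) (T.a (T.b (T.l 174760) (T.b (T.l 174760) (T.a (T.c (T.c (T.l 0) (T.l 0)) (T.l 0)) (T.b (T.l 174760) (T.b (T.l 174760) (T.b (T.l 174760) (T.a (T.l 174760) (T.a (T.l 174760) (T.l 174760))))))))) (T.b (T.l 174760) (T.b (T.l 174760) (T.b (T.l 174760) (T.a (T.b (T.l 174760) (T.b (T.l 174760) (T.c (T.l 174760) (T.a (T.l 0) (T.l 0))))) (T.b (T.l 174760) (T.b (T.l 174760) (T.c (T.l 174760) (T.a (T.l 0) (T.l 0)))))))))))) (T.b (T.a (T.a (T.l 174760) (T.l 174760)) (T.a (T.l 174760) (T.l 174760))) (T.b (T.a (T.a (T.l 174760) (T.l 174760)) (T.a (T.l 174760)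 (T.l 174760))) (T.b (T.a (T.a (T.l 174760) (T.l 174760)) (T.a (T.l 174760) (T.l 174760))) (T.b (T.a (T.a (T.l 174760) (T.a (T.l 174760) (T.l 174760))) (T.a (T.a (T.l 174760) (T.l 174760)) (T.a (T.l 174760) (T.l 3)))) (T.c (T.a (T.a (T.b (T.l 174760) (T.a (T.a (T.l 174760) (T.l 174760)) (T.a (T.l 174760) (T.l 174760)))) (T.a (T.c (T.l 0) (T.l 0)) (T.b (T.l 174760) (T.a (T.l 174760) (T.l 174760))))) (T.a (T.a (T.b (T.l 174760) (T.a (T.l 174760) (T.l 174760))) (T.b (T.l 174760) (T.a (T.l 174760) (T.l 3)))) (T.l 3))) (T.a (T.a (T.b (T.l 174760) (T.a (T.a (T.l 0) (T.l 0)) (T.a (T.l 0) (T.l 0)))) (T.a (T.b (T.l 174760) (T.a (T.l 0) (T.l 0))) (T.b (T.l 174760) (T.a (T.l 0) (T.a (T.l 0) (T.l 0)))))) (T.a (T.a (T.b (T.l 174760) (T.b (T.l 174760) (T.a (T.l 0) (T.l 0)))) (T.b (T.l 174760) (T.b (T.l 174760) (T.l 3)))) (T.l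 3))))))))), by decide +kernel⟩
theorem cNC1 : ∃ t, chk3 (onCell 0 232471925 0 1073741824 740881858 40050571 (fdCW pN qN ndN2 (thLo (ndUL pN ndN2) (ndUR ndN3)) (tuLo (ndUL pN ndN2) (ndUR ndN3) (suL qN ndN2) (suR ndN3)) cvN1 cFsDD1 (ndUR ndN3))) t 1 1 1 = true :=
  ⟨(T.a (T.b (T.b (T.b (T.a (T.l 0) (T.l 0)) (T.l 1)) (T.l 1)) (T.l 1)) (T.b (T.b (T.b (T.a (T.b (T.l 0) (T.a (T.l 0) (T.l 0))) (T.b (T.b (T.l 0) (T.a (T.l 0) (T.l 0))) (T.a (T.l 0) (T.l 128)))) (T.l 1)) (T.l 1)) (T.a (T.a (T.l 1) (T.l 3)) (T.l 3)))), by decide +kernel⟩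
theorem cNC2 : ∃ t, chk3 (onCell 0 232471925 0 1073741824 740881858 40050571 (fdCW pN qN ndN2 (thLo (ndUL pN ndN2) (ndUR ndN3)) (tuLo (ndUL pN ndN2) (ndUR ndN3) (suL qN ndN2) (suR ndN3)) cvN2 cFsDD2 (ndUR ndN3))) t 1 1 1 = true :=
  ⟨(T.a (T.b (T.b (T.b (T.a (T.l 0) (T.l 0)) (T.l 1)) (T.l 1)) (T.l 1)) (T.b (T.b (T.b (T.a (T.b (T.l 0) (T.a (T.l 0) (T.l 0))) (T.b (T.b (T.l 0) (T.a (T.l 0) (T.l 0))) (T.a (T.l 0) (T.l 0)))) (T.l 1)) (T.l 1)) (T.a (T.a (T.l 1) (T.l 3)) (T.l 3)))), by decide +kernel⟩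

end Pool.Agent.Strip051.G.I69_7273.Tab.DG
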