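import Pool.Agent.Strip051.PB.Cuts

/-! # Tables I69_7273 (generated) -/

namespace Pool.Agent.Strip051.G.I69_7273.Tab

open Pool.Agent.Strip051.PB

noncomputable def c1g : Fn1 := ⟨_, _, fun h1 => (enc_sqrtg (enc_sub (enc_pnc _ 1) (enc_scale 3 4 (enc_sq h1))))⟩
noncomputable def kcg_3 : Fn2 := ⟨_, _, fun h1 h2 => (enc_subr 14173 20000 h2)⟩
noncomputable def kcg_6 : Fn2 := ⟨_, _, fun h1 h2 => (enc_add h1 (enc_rat _ 283 1000))⟩
noncomputable def kcg_9 : Fn2 := ⟨_, _, fun h1 h2 => (enc_add h1 (enc_rat _ 193 500))⟩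
noncomputable def kcg_12 : Fn2 := ⟨_, _, fun h1 h2 => (enc_add h1 (enc_rat _ 7 16))⟩
noncomputable def kcg_13 : Fn2 := ⟨_, _, fun h1 h2 => (enc_scale 11199 5000 h1)⟩
noncomputable def kcg_16 : Fn2 := ⟨_, _, fun h1 h2 => (enc_scale 11217 1000 h1)⟩
noncomputable def kcg_24 : Fn2 := ⟨_, _, fun h1 h2 => (enc_scale 7872 125 (kcg_3.enc h1 h2))⟩
noncomputable def kcg_32 : Fn2 := ⟨_, _, fun h1 h2 => (enc_scale 821 800 h1)⟩
noncomputable def kcg_37 : Fn2 := ⟨_, _, fun h1 h2 => (enc_scale 11553 2000 h1)⟩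
noncomputable def kcg_49 : Fn2 := ⟨_, _, fun h1 h2 => (enc_sub (enc_rat _ 63418447 1000000) (enc_scale 4551699 25000 (kcg_3.enc h1 h2)))⟩
noncomputable def kcg_57 : Fn2 := ⟨_, _, fun h1 h2 => (enc_add h1 (enc_rat _ 67 200))⟩
noncomputable def kcg_58 : Fn2 := ⟨_, _, fun h1 h2 => (enc_scale 41319 20000 h1)⟩
noncomputable def kcg_63 : Fn2 := ⟨_, _, fun h1 h2 => (enc_scale 17609 2000 h1)⟩
noncomputable def kcg_74 : Fn2 := ⟨_, _, fun h1 h2 => (enc_subr 21826961 500000 (enc_neg (enc_scale 5102451 50000 (kcg_3.enc h1 h2))))⟩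
noncomputable def kcg_79 : Fn2 := ⟨_, _, fun h1 h2 => (enc_scale 4441 20000 h1)⟩
noncomputable def kcg_83 : Fn2 := ⟨_, _, fun h1 h2 => (enc_scale 41611 2000 h1)⟩
noncomputable def kcg_94 : Fn2 := ⟨_, _, fun h1 h2 => (enc_subr 1185577 1000000 (enc_neg (enc_scale 816887 6250 (kcg_3.enc h1 h2))))⟩
noncomputable def kcg_103 : Fn2 := ⟨_, _, fun h1 h2 => (enc_add h1 (enc_rat _ 9 50))⟩
noncomputable def kcg_106 : Fn2 := ⟨_, _, fun h1 h2 => (enc_add h1 (enc_rat _ 231 1000))⟩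
noncomputable def kcg_107 : Fn2 := ⟨_, _, fun h1 h2 => (enc_scale 33569 20000 h1)⟩
noncomputable def kcg_111 : Fn2 := ⟨_, _, fun h1 h2 => (enc_scale 2039 250 h1)⟩
noncomputable def kcg_120 : Fn2 := ⟨_, _, fun h1 h2 => (enc_subr 5364423 200000 (enc_scale 18698077 50000 (kcg_3.enc h1 h2)))⟩
noncomputable def kcg_125 : Fn2 := ⟨_, _, fun h1 h2 => (enc_scale 50883 20000 h1)⟩
noncomputable def kcg_128 : Fn2 := ⟨_, _, fun h1 h2 => (enc_scale 26321 2000 h1)⟩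
noncomputable def kcg_138 : Fn2 := ⟨_, _, fun h1 h2 => (enc_add (enc_scale 3667647 100000 (kcg_3.enc h1 h2)) (enc_rat _ 10373529 1000000))⟩
noncomputable def kcg_146 : Fn2 := ⟨_, _, fun h1 h2 => (enc_add h1 (enc_rat _ 23 250))⟩
noncomputable def kcg_147 : Fn2 := ⟨_, _, fun h1 h2 => (enc_scale 1117 625 h1)⟩
noncomputable def kcg_151 : Fn2 := ⟨_, _, fun h1 h2 => (enc_scale 8589 2000 h1)⟩
noncomputable def kcg_162 : Fn2 := ⟨_, _, fun h1 h2 => (enc_sub (enc_rat _ 2589773 1000000) (enc_scale 4392159 20000 (kcg_3.enc h1 h2)))⟩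
noncomputable def kcg_170 : Fn2 := ⟨_, _, fun h1 h2 => (enc_scale 20401 10000 h1)⟩
noncomputable def kcg_174 : Fn2 := ⟨_, _, fun h1 h2 => (enc_scale 15697 1000 h1)⟩
noncomputable def kcg_183 : Fn2 := ⟨_, _, fun h1 h2 => (enc_subr 3259661 200000 (enc_scale 26857627 100000 (kcg_3.enc h1 h2)))⟩
noncomputable def kcg_188 : Fn2 := ⟨_, _, fun h1 h2 => (enc_scale 25209 10000 h1)⟩
noncomputable def kcg_191 : Fn2 := ⟨_, _, fun h1 h2 => (enc_mul (enc_norm (kcg_3.enc h1 h2)) (enc_scale 3887 500 h1))⟩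
noncomputable def kcg_198 : Fn2 := ⟨_, _, fun h1 h2 => (enc_sub (enc_rat _ 283 1000) h1)⟩
noncomputable def kcg_199 : Fn2 := ⟨_, _, fun h1 h2 => (enc_sub (enc_rat _ 193 500) h1)⟩
noncomputable def kcg_200 : Fn2 := ⟨_, _, fun h1 h2 => (enc_sub (enc_rat _ 7 16) h1)⟩
noncomputable def kcg_220 : Fn2 := ⟨_, _, fun h1 h2 => (enc_sub (enc_rat _ 67 200) h1)⟩
noncomputable def kcg_242 : Fn2 := ⟨_, _, fun h1 h2 => (enc_sub (enc_rat _ 9 50) h1)⟩
noncomputable def kcg_243 : Fn2 := ⟨_, _, fun h1 h2 => (enc_sub (enc_rat _ 231 1000) h1)⟩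
noncomputable def kcg_264 : Fn2 := ⟨_, _, fun h1 h2 => (enc_sub (enc_rat _ 23 250) h1)⟩
noncomputable def kcg : Fn2 := ⟨_, _, fun h1 h2 => (enc_norm (enc_case h1 (enc_case (kcg_6.enc h1 h2) (enc_case (kcg_9.enc h1 h2) (enc_case (kcg_12.enc h1 h2) (enc_add (enc_add (enc_add (kcg_13.enc h1 h2) (enc_rat _ 4276299 8000000)) (enc_mul (enc_norm (kcg_3.enc h1 h2)) (enc_norm (enc_subr 28882569 4000000 (enc_neg (kcg_16.enc h1 h2)))))) (enc_mul (enc_norm (kcg_24.enc h1 h2)) (enc_norm (enc_mul (enc_norm (enc_add h1 (enc_rat _ 1 2))) (enc_norm (enc_sub (enc_neg (enc_rat _ 7 16)) h1)))))) (enc_add (enc_add (enc_subr 1788719 2000000 (enc_neg (kcg_32.enc h1 h2))) (enc_mul (enc_norm (kcg_3.enc h1 h2)) (enc_norm (enc_subr 9680847 2000000 (enc_neg (kcg_37.enc h1 h2)))))) (enc_mul (enc_norm (kcg_49.enc h1 h2)) (enc_norm (enc_mul (enc_norm (kcg_12.enc h1 h2)) (enc_norm (enc_sub (enc_neg (enc_rat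 _ 193 500)) h1))))))) (enc_case (kcg_57.enc h1 h2) (enc_add (enc_add (enc_subr 12956837 10000000 (enc_neg (kcg_58.enc h1 h2))) (enc_mul (enc_norm (kcg_3.enc h1 h2)) (enc_norm (enc_add (kcg_63.enc h1 h2) (enc_rat _ 315137 400000))))) (enc_mul (enc_norm (kcg_74.enc h1 h2)) (enc_norm (enc_mul (enc_norm (kcg_9.enc h1 h2)) (enc_norm (enc_sub (enc_neg (enc_rat _ 67 200)) h1)))))) (enc_add (enc_add (enc_subr 5292037 10000000 (kcg_79.enc h1 h2)) (enc_mul (enc_norm (kcg_3.enc h1 h2)) (enc_norm (enc_add (kcg_83.enc h1 h2) (enc_rat _ 1923271 400000))))) (enc_mul (enc_norm (kcg_94.enc h1 h2)) (enc_norm (enc_mul (enc_norm (kcg_57.enc h1 h2)) (enc_norm (enc_sub (enc_neg (enc_rat _ 283 1000)) h1)))))))) (enc_case (kcg_103.enc h1 h2) (enc_case (kcg_106.enc h1 h2) (enc_add (enc_add (enc_subr 46817 400000 (kcg_107.enc h1 h2)) (enc_mul (enc_norm (kcg_3.enc h1 h2)) (enc_norm (enc_add (kcg_111.enc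 h1 h2) (enc_rat _ 1228369 1000000))))) (enc_mul (enc_norm (kcg_120.enc h1 h2)) (enc_norm (enc_mul (enc_norm (kcg_6.enc h1 h2)) (enc_norm (enc_sub (enc_neg (enc_rat _ 231 1000)) h1)))))) (enc_add (enc_add (enc_add (kcg_125.enc h1 h2) (enc_rat _ 414671 5000000)) (enc_mul (enc_norm (kcg_3.enc h1 h2)) (enc_norm (enc_subr 1478297 400000 (enc_neg (kcg_128.enc h1 h2)))))) (enc_mul (enc_norm (kcg_138.enc h1 h2)) (enc_norm (enc_mul (enc_norm (kcg_106.enc h1 h2)) (enc_norm (enc_sub (enc_neg (enc_rat _ 9 50)) h1))))))) (enc_case (kcg_146.enc h1 h2) (enc_add (enc_add (enc_subr 33323 625000 (kcg_147.enc h1 h2)) (enc_mul (enc_norm (kcg_3.enc h1 h2)) (enc_norm (enc_subr 221537 400000 (kcg_151.enc h1 h2))))) (enc_mul (enc_norm (kcg_162.enc h1 h2)) (enc_norm (enc_mul (enc_norm (kcg_103.enc h1 h2)) (enc_norm (enc_sub (enc_neg (enc_rat _ 23 250)) h1)))))) (enc_case (enc_add h1 (enc_rat _ 1 16))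 (enc_add (enc_add (enc_subr 601 20000 (kcg_170.enc h1 h2)) (enc_mul (enc_norm (kcg_3.enc h1 h2)) (enc_norm (enc_add (kcg_174.enc h1 h2) (enc_rat _ 7923 16000))))) (enc_mul (enc_norm (kcg_183.enc h1 h2)) (enc_norm (enc_mul (enc_norm (kcg_146.enc h1 h2)) (enc_norm (enc_sub (enc_neg (enc_rat _ 1 16)) h1)))))) (enc_add (kcg_188.enc h1 h2) (kcg_191.enc h1 h2)))))) (enc_neg (enc_case (kcg_198.enc h1 h2) (enc_case (kcg_199.enc h1 h2) (enc_case (kcg_200.enc h1 h2) (enc_add (enc_add (enc_sub (enc_rat _ 4276299 8000000) (kcg_13.enc h1 h2)) (enc_mul (enc_norm (kcg_3.enc h1 h2)) (enc_norm (enc_subr 28882569 4000000 (kcg_16.enc h1 h2))))) (enc_mul (enc_norm (kcg_24.enc h1 h2)) (enc_norm (enc_mul (enc_norm (enc_sub (enc_rat _ 1 2) h1)) (enc_norm (enc_subr 7 16 h1)))))) (enc_add (enc_add (enc_subr 1788719 2000000 (kcg_32.enc h1 h2)) (enc_mul (enc_norm (kcg_3.enc h1 h2)) (enc_norm (enc_subr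 9680847 2000000 (kcg_37.enc h1 h2))))) (enc_mul (enc_norm (kcg_49.enc h1 h2)) (enc_norm (enc_mul (enc_norm (kcg_200.enc h1 h2)) (enc_norm (enc_subr 193 500 h1))))))) (enc_case (kcg_220.enc h1 h2) (enc_add (enc_add (enc_subr 12956837 10000000 (kcg_58.enc h1 h2)) (enc_mul (enc_norm (kcg_3.enc h1 h2)) (enc_norm (enc_sub (enc_rat _ 315137 400000) (kcg_63.enc h1 h2))))) (enc_mul (enc_norm (kcg_74.enc h1 h2)) (enc_norm (enc_mul (enc_norm (kcg_199.enc h1 h2)) (enc_norm (enc_subr 67 200 h1)))))) (enc_add (enc_add (enc_subr 5292037 10000000 (enc_neg (kcg_79.enc h1 h2))) (enc_mul (enc_norm (kcg_3.enc h1 h2)) (enc_norm (enc_sub (enc_rat _ 1923271 400000) (kcg_83.enc h1 h2))))) (enc_mul (enc_norm (kcg_94.enc h1 h2)) (enc_norm (enc_mul (enc_norm (kcg_220.enc h1 h2)) (enc_norm (enc_subr 283 1000 h1)))))))) (enc_case (kcg_242.enc h1 h2) (enc_case (kcg_243.enc h1 h2) (enc_add (enc_add (enc_subr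 46817 400000 (enc_neg (kcg_107.enc h1 h2))) (enc_mul (enc_norm (kcg_3.enc h1 h2)) (enc_norm (enc_sub (enc_rat _ 1228369 1000000) (kcg_111.enc h1 h2))))) (enc_mul (enc_norm (kcg_120.enc h1 h2)) (enc_norm (enc_mul (enc_norm (kcg_198.enc h1 h2)) (enc_norm (enc_subr 231 1000 h1)))))) (enc_add (enc_add (enc_sub (enc_rat _ 414671 5000000) (kcg_125.enc h1 h2)) (enc_mul (enc_norm (kcg_3.enc h1 h2)) (enc_norm (enc_subr 1478297 400000 (kcg_128.enc h1 h2))))) (enc_mul (enc_norm (kcg_138.enc h1 h2)) (enc_norm (enc_mul (enc_norm (kcg_243.enc h1 h2)) (enc_norm (enc_subr 9 50 h1))))))) (enc_case (kcg_264.enc h1 h2) (enc_add (enc_add (enc_subr 33323 625000 (enc_neg (kcg_147.enc h1 h2))) (enc_mul (enc_norm (kcg_3.enc h1 h2)) (enc_norm (enc_subr 221537 400000 (enc_neg (kcg_151.enc h1 h2)))))) (enc_mul (enc_norm (kcg_162.enc h1 h2)) (enc_norm (enc_mul (enc_norm (kcg_242.enc h1 h2)) (enc_norm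 (enc_subr 23 250 h1)))))) (enc_case (enc_sub (enc_rat _ 1 16) h1) (enc_add (enc_add (enc_subr 601 20000 (enc_neg (kcg_170.enc h1 h2))) (enc_mul (enc_norm (kcg_3.enc h1 h2)) (enc_norm (enc_sub (enc_rat _ 7923 16000) (kcg_174.enc h1 h2))))) (enc_mul (enc_norm (kcg_183.enc h1 h2)) (enc_norm (enc_mul (enc_norm (kcg_264.enc h1 h2)) (enc_norm (enc_subr 1 16 h1)))))) (enc_sub (enc_neg (kcg_188.enc h1 h2)) (kcg_191.enc h1 h2)))))))))⟩
noncomputable def kf0q0_9 : Fn2 := ⟨_, _, fun h1 h2 => (enc_scale 3 2 h1)⟩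
noncomputable def kf0q0_12 : Fn2 := ⟨_, _, fun h1 h2 => (enc_add (enc_pnc _ 1) (c1g.enc h1))⟩
noncomputable def kf0q0 : Fn2 := ⟨_, _, fun h1 h2 => (enc_norm (enc_add (enc_mul (enc_norm (enc_mul (enc_norm (enc_sub (c1g.enc h1) (kf0q0_9.enc h1 h2))) (enc_norm (kf0q0_12.enc h1 h2)))) (enc_inv (enc_sub (kf0q0_12.enc h1 h2) (kf0q0_9.enc h1 h2)))) (enc_mul h1 (kcg.enc (enc_norm (enc_sub (enc_scale 3 4 h1) (enc_half (c1g.enc h1)))) h2))))⟩
noncomputable def txg_4 : Fn3 := ⟨_, _, fun h1 h2 h3 => (enc_subr 14173 20000 h3)⟩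
noncomputable def txg_6 : Fn3 := ⟨_, _, fun h1 h2 h3 => (enc_add h1 (enc_half h2))⟩
noncomputable def txg_26 : Fn3 := ⟨_, _, fun h1 h2 h3 => (enc_add h1 (enc_rat _ 11 50))⟩
noncomputable def txg_29 : Fn3 := ⟨_, _, fun h1 h2 h3 => (enc_add h1 (enc_rat _ 19 50))⟩
noncomputable def txg_32 : Fn3 := ⟨_, _, fun h1 h2 h3 => (enc_add h1 (enc_rat _ 23 50))⟩
noncomputable def txg_57 : Fn3 := ⟨_, _, fun h1 h2 h3 => (enc_add h1 (enc_rat _ 21 50))⟩
noncomputable def txg_101 : Fn3 := ⟨_, _, fun h1 h2 h3 => (enc_add h1 (enc_rat _ 3 10))⟩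
noncomputable def txg_104 : Fn3 := ⟨_, _, fun h1 h2 h3 => (enc_add h1 (enc_rat _ 17 50))⟩
noncomputable def txg_142 : Fn3 := ⟨_, _, fun h1 h2 h3 => (enc_add h1 (enc_rat _ 13 50))⟩
noncomputable def txg_184 : Fn3 := ⟨_, _, fun h1 h2 h3 => (enc_add h1 (enc_rat _ 3 50))⟩
noncomputable def txg_187 : Fn3 := ⟨_, _, fun h1 h2 h3 => (enc_add h1 (enc_rat _ 7 50))⟩
noncomputable def txg_190 : Fn3 := ⟨_, _, fun h1 h2 h3 => (enc_add h1 (enc_rat _ 9 50))⟩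
noncomputable def txg_227 : Fn3 := ⟨_, _, fun h1 h2 h3 => (enc_add h1 (enc_rat _ 1 10))⟩
noncomputable def txg_268 : Fn3 := ⟨_, _, fun h1 h2 h3 => (enc_subr 3 100 h1)⟩
noncomputable def txg_270 : Fn3 := ⟨_, _, fun h1 h2 h3 => (enc_add h1 (enc_rat _ 3 100))⟩
noncomputable def txg_308 : Fn3 := ⟨_, _, fun h1 h2 h3 => (enc_subr 3 50 h1)⟩
noncomputable def txg_340 : Fn3 := ⟨_, _, fun h1 h2 h3 => (enc_sq (enc_norm (txg_4.enc h1 h2 h3)))⟩
noncomputable def txg_362 : Fn3 := ⟨_, _, fun h1 h2 h3 => (enc_subr 37 206 h1)⟩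
noncomputable def txg_363 : Fn3 := ⟨_, _, fun h1 h2 h3 => (enc_subr 17 50 h1)⟩
noncomputable def txg_364 : Fn3 := ⟨_, _, fun h1 h2 h3 => (enc_subr 13 50 h1)⟩
noncomputable def txg_365 : Fn3 := ⟨_, _, fun h1 h2 h3 => (enc_subr 11 50 h1)⟩
noncomputable def txg_416 : Fn3 := ⟨_, _, fun h1 h2 h3 => (enc_subr 3 10 h1)⟩
noncomputable def txg_456 : Fn3 := ⟨_, _, fun h1 h2 h3 => (enc_subr 21 50 h1)⟩
noncomputable def txg_457 : Fn3 := ⟨_, _, fun h1 h2 h3 => (enc_subr 19 50 h1)⟩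
noncomputable def txg_498 : Fn3 := ⟨_, _, fun h1 h2 h3 => (enc_subr 23 50 h1)⟩
noncomputable def txg : Fn3 := ⟨_, _, fun h1 h2 h3 => (enc_case (enc_subr 61 661 h1) (enc_case (txg_26.enc h1 h2 h3) (enc_case (txg_29.enc h1 h2 h3) (enc_case (txg_32.enc h1 h2 h3) (enc_add (enc_add (enc_add (enc_scale 659 8000 h1) (enc_rat _ 659 16000)) (enc_mul (enc_norm (txg_4.enc h1 h2 h3)) (enc_norm (enc_subr 5527 80000 (enc_neg (enc_scale 5527 40000 h1)))))) (enc_mul (enc_norm (enc_subr 8391 12500 (enc_scale 39909 1250 (txg_4.enc h1 h2 h3)))) (enc_norm (enc_mul (enc_norm (enc_add h1 (enc_rat _ 1 2))) (enc_norm (enc_sub (enc_neg (enc_rat _ 23 50)) h1)))))) (enc_case (txg_57.enc h1 h2 h3) (enc_add (enc_add (enc_add (enc_scale 54837 400000 h1) (enc_rat _ 1327151 20000000)) (enc_mul (enc_norm (txg_4.enc h1 h2 h3)) (enc_norm (enc_subr 48073 100000 (enc_neg (enc_scale 20661 20000 h1)))))) (enc_mul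 (enc_norm (enc_subr 69659 100000 (enc_neg (enc_scale 95559 10000 (txg_4.enc h1 h2 h3))))) (enc_norm (enc_mul (enc_norm (txg_32.enc h1 h2 h3)) (enc_norm (enc_sub (enc_neg (enc_rat _ 21 50)) h1)))))) (enc_add (enc_add (enc_add (enc_scale 19161 400000 h1) (enc_rat _ 115591 4000000)) (enc_mul (enc_norm (txg_4.enc h1 h2 h3)) (enc_norm (enc_add (enc_scale 17849 20000 h1) (enc_rat _ 16399 50000))))) (enc_mul (enc_norm (enc_sub (enc_rat _ 73157 25000) (enc_scale 385813 10000 (txg_4.enc h1 h2 h3)))) (enc_norm (enc_mul (enc_norm (txg_57.enc h1 h2 h3)) (enc_norm (enc_sub (enc_neg (enc_rat _ 19 50)) h1)))))))) (enc_case (txg_101.enc h1 h2 h3) (enc_case (txg_104.enc h1 h2 h3) (enc_add (enc_add (enc_add (enc_scale 4179 80000 h1) (enc_rat _ 610901 20000000)) (enc_mul (enc_norm (txg_4.enc h1 h2 h3)) (enc_norm (enc_add (enc_scale 88491 40000 h1) (enc_rat _ 1659027 2000000))))) (enc_mul (enc_norm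 (enc_subr 303459 100000 (enc_scale 3491 625 (txg_4.enc h1 h2 h3)))) (enc_norm (enc_mul (enc_norm (txg_29.enc h1 h2 h3)) (enc_norm (enc_sub (enc_neg (enc_rat _ 17 50)) h1)))))) (enc_add (enc_add (enc_add (enc_scale 37967 200000 h1) (enc_rat _ 386641 5000000)) (enc_mul (enc_norm (txg_4.enc h1 h2 h3)) (enc_norm (enc_add (enc_scale 75843 40000 h1) (enc_rat _ 1444011 2000000))))) (enc_mul (enc_norm (enc_subr 20267 50000 (enc_scale 11597 5000 (txg_4.enc h1 h2 h3)))) (enc_norm (enc_mul (enc_norm (txg_104.enc h1 h2 h3)) (enc_norm (enc_sub (enc_neg (enc_rat _ 3 10)) h1))))))) (enc_case (txg_142.enc h1 h2 h3) (enc_add (enc_add (enc_add (enc_scale 117111 400000 h1) (enc_rat _ 2164219 20000000)) (enc_mul (enc_norm (txg_4.enc h1 h2 h3)) (enc_norm (enc_add (enc_scale 7093 10000 h1) (enc_rat _ 365973 1000000))))) (enc_mul (enc_norm (enc_subr 54207 25000 (enc_scale 547 20 (txg_4.enc h1 h2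 h3)))) (enc_norm (enc_mul (enc_norm (txg_101.enc h1 h2 h3)) (enc_norm (enc_sub (enc_neg (enc_rat _ 13 50)) h1)))))) (enc_add (enc_add (enc_add (enc_scale 47739 100000 h1) (enc_rat _ 781051 5000000)) (enc_mul (enc_norm (txg_4.enc h1 h2 h3)) (enc_norm (enc_add (enc_scale 36363 40000 h1) (enc_rat _ 835829 2000000))))) (enc_mul (enc_norm (enc_subr 244697 100000 (enc_neg (enc_scale 323441 10000 (txg_4.enc h1 h2 h3))))) (enc_norm (enc_mul (enc_norm (txg_142.enc h1 h2 h3)) (enc_norm (enc_sub (enc_neg (enc_rat _ 11 50)) h1))))))))) (enc_case (txg_184.enc h1 h2 h3) (enc_case (txg_187.enc h1 h2 h3) (enc_case (txg_190.enc h1 h2 h3) (enc_add (enc_add (enc_add (enc_scale 181329 400000 h1) (enc_rat _ 3018307 20000000)) (enc_mul (enc_norm (txg_4.enc h1 h2 h3)) (enc_norm (enc_add (enc_scale 8177 8000 h1) (enc_rat _ 885571 2000000))))) (enc_mul (enc_norm (enc_add (enc_scale 73793 2500 (txg_4.enc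 h1 h2 h3)) (enc_rat _ 304859 100000))) (enc_norm (enc_mul (enc_norm (txg_26.enc h1 h2 h3)) (enc_norm (enc_sub (enc_neg (enc_rat _ 9 50)) h1)))))) (enc_add (enc_add (enc_add (enc_scale 120157 400000 h1) (enc_rat _ 2467759 20000000)) (enc_mul (enc_norm (txg_4.enc h1 h2 h3)) (enc_norm (enc_sub (enc_rat _ 43139 250000) (enc_scale 9583 20000 h1))))) (enc_mul (enc_norm (enc_add (enc_scale 80147 10000 (txg_4.enc h1 h2 h3)) (enc_rat _ 2421 3125))) (enc_norm (enc_mul (enc_norm (txg_190.enc h1 h2 h3)) (enc_norm (enc_sub (enc_neg (enc_rat _ 7 50)) h1))))))) (enc_case (txg_227.enc h1 h2 h3) (enc_add (enc_add (enc_add (enc_scale 87571 400000 h1) (enc_rat _ 2239657 20000000)) (enc_mul (enc_norm (txg_4.enc h1 h2 h3)) (enc_norm (enc_sub (enc_rat _ 50203 1000000) (enc_scale 13531 10000 h1))))) (enc_mul (enc_norm (enc_add (enc_scale 2767 200 (txg_4.enc h1 h2 h3)) (enc_rat _ 15773 12500))) (enc_norm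 (enc_mul (enc_norm (txg_187.enc h1 h2 h3)) (enc_norm (enc_sub (enc_neg (enc_rat _ 1 10)) h1)))))) (enc_add (enc_add (enc_add (enc_scale 18011 100000 h1) (enc_rat _ 1081011 10000000)) (enc_mul (enc_norm (txg_4.enc h1 h2 h3)) (enc_norm (enc_sub (enc_rat _ 53959 500000) (enc_scale 15519 20000 h1))))) (enc_mul (enc_norm (enc_subr 14569 50000 (enc_neg (enc_scale 35331 1250 (txg_4.enc h1 h2 h3))))) (enc_norm (enc_mul (enc_norm (txg_227.enc h1 h2 h3)) (enc_norm (enc_sub (enc_neg (enc_rat _ 3 50)) h1)))))))) (enc_case (txg_268.enc h1 h2 h3) (enc_case (txg_270.enc h1 h2 h3) (enc_add (enc_add (enc_add (enc_scale 5753 30000 h1) (enc_rat _ 217601 2000000)) (enc_mul (enc_norm (txg_4.enc h1 h2 h3)) (enc_norm (enc_sub (enc_rat _ 145301 1000000) (enc_scale 1529 10000 h1))))) (enc_mul (enc_norm (enc_add (enc_scale 10574 625 (txg_4.enc h1 h2 h3)) (enc_rat _ 1 50000))) (enc_norm (enc_mul (enc_norm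 (txg_184.enc h1 h2 h3)) (enc_norm (enc_sub (enc_neg (enc_rat _ 3 100)) h1)))))) (enc_add (enc_add (enc_add (enc_scale 14891 100000 h1) (enc_rat _ 268787 2500000)) (enc_mul (enc_norm (txg_4.enc h1 h2 h3)) (enc_norm (enc_sub (enc_rat _ 269941 2000000) (enc_scale 1989 4000 h1))))) (enc_mul (enc_norm (enc_sub (enc_rat _ 35711 50000) (enc_scale 13599 5000 (txg_4.enc h1 h2 h3)))) (enc_norm (enc_mul (enc_norm (txg_270.enc h1 h2 h3)) (enc_norm (enc_sub (enc_rat _ 3 100) h1))))))) (enc_case (txg_308.enc h1 h2 h3) (enc_add (enc_add (enc_add (enc_scale 5569 50000 h1) (enc_rat _ 1086407 10000000)) (enc_mul (enc_norm (txg_4.enc h1 h2 h3)) (enc_norm (enc_sub (enc_rat _ 29329 200000) (enc_scale 554 625 h1))))) (enc_mul (enc_norm (enc_subr 4433 25000 (enc_scale 36823 2000 (txg_4.enc h1 h2 h3)))) (enc_norm (enc_mul (enc_norm (txg_268.enc h1 h2 h3)) (enc_norm (enc_sub (enc_rat _ 3 50) h1))))))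 (enc_add (enc_add (enc_add (enc_add (enc_scale 86520703141577311267157 770386753317500000000000 h1) (enc_rat _ 4182622727885803628698529 38519337665875000000000000)) (enc_mul (enc_norm (txg_4.enc h1 h2 h3)) (enc_norm (enc_sub (enc_rat _ 23810131221192163028167 192596688329375000000000) (enc_scale 1936617377746815384389 3851933766587500000000 h1))))) (enc_mul (txg_340.enc h1 h2 h3) (enc_norm (enc_subr 704594924105751 1324416781250000 (enc_scale 234864974701917 26488335625000 h1))))) (enc_mul (enc_norm (enc_add (enc_mul (enc_norm (enc_subr 289923 10000 (enc_neg (enc_scale 68661 250 (txg_4.enc h1 h2 h3))))) (enc_norm (txg_4.enc h1 h2 h3))) (enc_rat _ 1359 10000))) (enc_norm (enc_mul (enc_norm (txg_308.enc h1 h2 h3)) (enc_norm (enc_sub (enc_rat _ 61 661) h1)))))))))) (enc_case (txg_362.enc h1 h2 h3) (enc_sub (enc_mul (enc_norm (enc_sub (enc_pnc _ 1) h2)) (enc_norm (enc_subn 1 (enc_nat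 2 h2)))) (enc_mul (enc_norm (enc_nat 2 (enc_sub (enc_scale 4 3 (txg_6.enc h1 h2 h3)) h3))) (enc_norm (enc_mul (enc_norm (enc_subn 1 (enc_add (enc_scale 2 3 (txg_6.enc h1 h2 h3)) h2))) (kcg.enc h1 h3))))) (enc_case (txg_363.enc h1 h2 h3) (enc_case (txg_364.enc h1 h2 h3) (enc_case (txg_365.enc h1 h2 h3) (enc_add (enc_add (enc_add (enc_sub (enc_rat _ 141003113924147942507 887840687500000000000) (enc_scale 3763692510262881137 17756813750000000000 h1)) (enc_mul (enc_norm (txg_4.enc h1 h2 h3)) (enc_norm (enc_sub (enc_rat _ 48654956969364136179 284109020000000000000) (enc_scale 2645481940073103289 5682180400000000000 h1))))) (enc_mul (txg_340.enc h1 h2 h3) (enc_norm (enc_sub (enc_rat _ 272159474474041 137917000000000) (enc_scale 24741770406731 2758340000000 h1))))) (enc_mul (enc_norm (enc_add (enc_mul (enc_norm (enc_sub (enc_rat _ 171001 10000) (enc_scale 222089 1000 (txg_4.enc h1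 h2 h3)))) (enc_norm (txg_4.enc h1 h2 h3))) (enc_rat _ 347263 100000))) (enc_norm (enc_mul (enc_norm (txg_362.enc h1 h2 h3)) (enc_norm (enc_sub (enc_rat _ 11 50) h1)))))) (enc_add (enc_add (enc_sub (enc_rat _ 3796099 20000000) (enc_scale 141127 400000 h1)) (enc_mul (enc_norm (txg_4.enc h1 h2 h3)) (enc_norm (enc_sub (enc_rat _ 60869 500000) (enc_scale 481 2000 h1))))) (enc_mul (enc_norm (enc_sub (enc_rat _ 1509 100000) (enc_scale 228927 10000 (txg_4.enc h1 h2 h3)))) (enc_norm (enc_mul (enc_norm (txg_365.enc h1 h2 h3)) (enc_norm (enc_sub (enc_rat _ 13 50) h1))))))) (enc_case (txg_416.enc h1 h2 h3) (enc_add (enc_add (enc_sub (enc_rat _ 951303 5000000) (enc_scale 35457 100000 h1)) (enc_mul (enc_norm (txg_4.enc h1 h2 h3)) (enc_norm (enc_add (enc_scale 1713 20000 h1) (enc_rat _ 36939 1000000))))) (enc_mul (enc_norm (enc_add (enc_scale 18423 1250 (txg_4.enc h1 h2 h3)) (enc_rat _ 1439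 50000))) (enc_norm (enc_mul (enc_norm (txg_364.enc h1 h2 h3)) (enc_norm (enc_sub (enc_rat _ 3 10) h1)))))) (enc_add (enc_add (enc_sub (enc_rat _ 4206477 20000000) (enc_scale 168579 400000 h1)) (enc_mul (enc_norm (txg_4.enc h1 h2 h3)) (enc_norm (enc_sub (enc_rat _ 229953 2000000) (enc_scale 6979 40000 h1))))) (enc_mul (enc_norm (enc_sub (enc_rat _ 164309 100000) (enc_scale 82347 10000 (txg_4.enc h1 h2 h3)))) (enc_norm (enc_mul (enc_norm (txg_416.enc h1 h2 h3)) (enc_norm (enc_sub (enc_rat _ 17 50) h1)))))))) (enc_case (txg_456.enc h1 h2 h3) (enc_case (txg_457.enc h1 h2 h3) (enc_add (enc_add (enc_sub (enc_rat _ 1057497 5000000) (enc_scale 84981 200000 h1)) (enc_mul (enc_norm (txg_4.enc h1 h2 h3)) (enc_norm (enc_sub (enc_rat _ 196259 2000000) (enc_scale 4997 40000 h1))))) (enc_mul (enc_norm (enc_subr 77831 50000 (enc_scale 69959 10000 (txg_4.enc h1 h2 h3)))) (enc_norm (enc_mul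 (enc_norm (txg_363.enc h1 h2 h3)) (enc_norm (enc_sub (enc_rat _ 19 50) h1)))))) (enc_add (enc_add (enc_sub (enc_rat _ 2073251 10000000) (enc_scale 2587 6250 h1)) (enc_mul (enc_norm (txg_4.enc h1 h2 h3)) (enc_norm (enc_sub (enc_rat _ 50981 1000000) (enc_scale 17 20000 h1))))) (enc_mul (enc_norm (enc_sub (enc_rat _ 641 500) (enc_scale 12623 1250 (txg_4.enc h1 h2 h3)))) (enc_norm (enc_mul (enc_norm (txg_457.enc h1 h2 h3)) (enc_norm (enc_sub (enc_rat _ 21 50) h1))))))) (enc_case (txg_498.enc h1 h2 h3) (enc_add (enc_add (enc_sub (enc_rat _ 2170271 10000000) (enc_scale 21851 50000 h1)) (enc_mul (enc_norm (txg_4.enc h1 h2 h3)) (enc_norm (enc_subr 34027 1000000 (enc_scale 4031 20000 h1))))) (enc_mul (enc_norm (enc_subr 1409 2000 (enc_scale 12597 2500 (txg_4.enc h1 h2 h3)))) (enc_norm (enc_mul (enc_norm (txg_456.enc h1 h2 h3)) (enc_norm (enc_sub (enc_rat _ 23 50) h1)))))) (enc_add (enc_add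 (enc_sub (enc_rat _ 159979 800000) (enc_scale 159979 400000 h1)) (enc_mul (enc_norm (txg_4.enc h1 h2 h3)) (enc_norm (enc_sub (enc_rat _ 29343 40000) (enc_scale 29343 20000 h1))))) (enc_mul (enc_norm (enc_subr 22231 100000 (enc_scale 91697 2500 (txg_4.enc h1 h2 h3)))) (enc_norm (enc_mul (enc_norm (txg_498.enc h1 h2 h3)) (enc_norm (enc_sub (enc_rat _ 1 2) h1)))))))))))⟩
noncomputable def l0q0 : Fn2 := ⟨_, _, fun h1 h2 => (enc_norm (txg.enc (enc_norm (enc_sub (enc_scale 3 4 h1) (enc_half (c1g.enc h1)))) (c1g.enc h1) h2))⟩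
noncomputable def kc0q0_3 : Fn2 := ⟨_, _, fun h1 h2 => (enc_subr 14173 20000 h2)⟩
noncomputable def kc0q0_8 : Fn2 := ⟨_, _, fun h1 h2 => (enc_sub (enc_scale 3 4 h1) (enc_half (c1g.enc h1)))⟩
noncomputable def kc0q0 : Fn2 := ⟨_, _, fun h1 h2 => (enc_norm (enc_case (enc_add (kc0q0_8.enc h1 h2) (enc_rat _ 167 1000)) (enc_case (enc_add (kc0q0_8.enc h1 h2) (enc_rat _ 333 1000)) (enc_add (enc_add (enc_scale 848 835 (kc0q0_8.enc h1 h2)) (enc_rat _ 424 835)) (enc_mul (enc_norm (kc0q0_3.enc h1 h2)) (enc_norm (enc_add (enc_scale 9050 167 (kc0q0_8.enc h1 h2)) (enc_rat _ 4525 167))))) (enc_add (enc_add (enc_scale 22623 830 (kc0q0_8.enc h1 h2)) (enc_rat _ 7674227 830000)) (enc_mul (enc_norm (kc0q0_3.enc h1 h2)) (enc_norm (enc_subr 7199989 166000 (enc_neg (enc_scale 26133 166 (kc0q0_8.enc h1 h2)))))))) (enc_case (kc0q0_8.enc h1 h2) (enc_add (enc_sub (enc_rat _ 12523 5000) (enc_scale 10948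 835 (kc0q0_8.enc h1 h2))) (enc_mul (enc_norm (kc0q0_3.enc h1 h2)) (enc_norm (enc_subr 727 100 (enc_scale 9813 167 (kc0q0_8.enc h1 h2)))))) (enc_add (enc_sub (enc_rat _ 12523 5000) (enc_scale 5311340725013 610000000000 (kc0q0_8.enc h1 h2))) (enc_mul (enc_norm (kc0q0_3.enc h1 h2)) (enc_norm (enc_subr 727 100 (enc_scale 32840964092863 610000000000 (kc0q0_8.enc h1 h2)))))))))⟩
noncomputable def kf0q1_10 : Fn2 := ⟨_, _, fun h1 h2 => (enc_scale 3 2 h1)⟩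
noncomputable def kf0q1 : Fn2 := ⟨_, _, fun h1 h2 => (enc_norm (enc_add (enc_mul (enc_norm (enc_mul (enc_norm (enc_add (enc_pnc _ 1) (enc_nat 2 (c1g.enc h1)))) (enc_norm (enc_sub (kf0q1_10.enc h1 h2) (c1g.enc h1))))) (enc_inv (enc_nat 2 (enc_sub (enc_add (enc_pnc _ 1) (kf0q1_10.enc h1 h2)) (c1g.enc h1))))) (enc_mul (enc_norm (enc_subn 1 h1)) (kcg.enc (enc_norm (enc_sub (enc_scale 3 4 h1) (enc_half (c1g.enc h1)))) h2))))⟩
noncomputable def l0q1 : Fn2 := ⟨_, _, fun h1 h2 => (enc_norm (txg.enc (enc_norm (enc_sub (enc_scale 3 4 h1) (enc_half (c1g.enc h1)))) (c1g.enc h1) h2))⟩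
noncomputable def gsg : Fn1 := ⟨_, _, fun h1 => (enc_sqrt (enc_sub (enc_pnc _ 1) (enc_scale 3 4 (enc_sq h1))))⟩
noncomputable def gug : Fn1 := ⟨_, _, fun h1 => (enc_norm (enc_add (enc_scale 3 4 h1) (enc_scale 3 2 (enc_sub (enc_pnc _ 1) (gsg.enc h1)))))⟩
noncomputable def kc0q1_3 : Fn2 := ⟨_, _, fun h1 h2 => (enc_subr 14173 20000 h2)⟩
noncomputable def kc0q1_9 : Fn2 := ⟨_, _, fun h1 h2 => (enc_sub (enc_scale 3 4 h1) (enc_half (c1g.enc h1)))⟩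
noncomputable def kc0q1 : Fn2 := ⟨_, _, fun h1 h2 => (enc_norm (enc_case (enc_subr 61 661 (kc0q1_9.enc h1 h2)) (enc_case (enc_add (kc0q1_9.enc h1 h2) (enc_rat _ 167 1000)) (enc_case (enc_add (kc0q1_9.enc h1 h2) (enc_rat _ 333 1000)) (enc_add (enc_add (enc_scale 848 835 (kc0q1_9.enc h1 h2)) (enc_rat _ 424 835)) (enc_mul (enc_norm (kc0q1_3.enc h1 h2)) (enc_norm (enc_add (enc_scale 9050 167 (kc0q1_9.enc h1 h2)) (enc_rat _ 4525 167))))) (enc_add (enc_add (enc_scale 22623 830 (kc0q1_9.enc h1 h2)) (enc_rat _ 7674227 830000)) (enc_mul (enc_norm (kc0q1_3.enc h1 h2)) (enc_norm (enc_subr 7199989 166000 (enc_neg (enc_scale 26133 166 (kc0q1_9.enc h1 h2)))))))) (enc_case (kc0q1_9.enc h1 h2) (enc_add (enc_sub (enc_rat _ 12523 5000) (enc_scale 10948 835 (kc0q1_9.enc h1 h2))) (enc_mul (enc_norm (kc0q1_3.enc h1 h2)) (enc_norm (enc_subr 727 100 (enc_scale 9813 167 (kc0q1_9.enc h1 h2)))))) (enc_add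 (enc_sub (enc_rat _ 12523 5000) (enc_scale 5311340725013 610000000000 (kc0q1_9.enc h1 h2))) (enc_mul (enc_norm (kc0q1_3.enc h1 h2)) (enc_norm (enc_subr 727 100 (enc_scale 32840964092863 610000000000 (kc0q1_9.enc h1 h2)))))))) (enc_case (enc_subr 37 206 (kc0q1_9.enc h1 h2)) (enc_sub (enc_add (enc_add (enc_rat _ 3 4) (enc_scale 3 2 h1)) (enc_scale 3 4 (enc_mul (enc_norm (enc_mul h1 (enc_inv (c1g.enc h1)))) (gug.enc h1)))) (enc_mul (kcg.enc (enc_norm (kc0q1_9.enc h1 h2)) h2) (enc_norm (enc_add (gug.enc h1) (enc_nat 2 (c1g.enc h1)))))) (enc_case (enc_subr 333 1000 (kc0q1_9.enc h1 h2)) (enc_add (enc_sub (enc_rat _ 554809028729 152500000000) (enc_scale 63004392081 5642500000 (kc0q1_9.enc h1 h2))) (enc_mul (enc_norm (kc0q1_3.enc h1 h2)) (enc_norm (enc_subr 32439841762753 2135000000000 (enc_scale 5251460751417 78995000000 (kc0q1_9.enc h1 h2)))))) (enc_add (enc_subr 401 1670 (enc_scale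 401 835 (kc0q1_9.enc h1 h2))) (enc_mul (enc_norm (kc0q1_3.enc h1 h2)) (enc_norm (enc_sub (enc_rat _ 6943 334) (enc_scale 6943 167 (kc0q1_9.enc h1 h2))))))))))⟩
noncomputable def yag : Fn1 := ⟨_, _, fun h1 => (enc_sqrt (enc_scale 4 3 (enc_sub (enc_pnc _ 1) (enc_sq h1))))⟩
noncomputable def kfc02 : Fn2 := ⟨_, _, fun h1 h2 => (enc_norm (enc_add h1 (enc_mul (enc_norm (enc_subn 1 (yag.enc h1))) (kcg.enc (enc_neg h1) h2))))⟩
noncomputable def lc02_7 : Fn2 := ⟨_, _, fun h1 h2 => (enc_scale 3 4 (yag.enc h1))⟩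
noncomputable def lc02_8 : Fn2 := ⟨_, _, fun h1 h2 => (enc_half h1)⟩
noncomputable def lc02 : Fn2 := ⟨_, _, fun h1 h2 => (enc_norm (enc_sub (txg.enc (enc_neg h1) (enc_norm (enc_add (lc02_7.enc h1 h2) (lc02_8.enc h1 h2))) h2) (txg.enc h1 (enc_norm (enc_sub (lc02_7.enc h1 h2) (lc02_8.enc h1 h2))) h2)))⟩
noncomputable def kcc02_4 : Fn2 := ⟨_, _, fun h1 h2 => (enc_subr 14173 20000 h2)⟩
noncomputable def kcc02 : Fn2 := ⟨_, _, fun h1 h2 => (enc_norm (enc_case (enc_subr 3 100 h1) (enc_mul (enc_norm (kcc02_4.enc h1 h2)) (enc_scale 3 5 h1)) (enc_case (enc_subr 53 200 h1) (enc_mul (enc_norm (kcc02_4.enc h1 h2)) (enc_norm (enc_sub (enc_rat _ 489 23500) (enc_scale 22 235 h1)))) (enc_mul (enc_norm (kcc02_4.enc h1 h2)) (enc_norm (enc_subr 2 235 (enc_scale 4 235 h1)))))))⟩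
noncomputable def swg : Fn1 := ⟨_, _, fun h1 => (enc_sqrt (enc_sub (enc_pnc _ 1) (enc_scale 3 4 (enc_sq (enc_norm (enc_subn 1 h1))))))⟩
noncomputable def cv1m : Fn1 := ⟨_, _, fun h1 => (enc_norm (enc_add (enc_scale 4 5 (c1g.enc h1)) (enc_scale 1 5 (enc_add (swg.enc h1) (enc_rat _ 1 2)))))⟩
noncomputable def bf1q0_3 : Fn2 := ⟨_, _, fun h1 h2 => (enc_subr 14173 20000 h2)⟩
noncomputable def bf1q0 : Fn2 := ⟨_, _, fun h1 h2 => (enc_norm (enc_case (enc_subr 63 500 h1) (enc_sub (enc_sub (enc_pnc _ 1) (enc_scale 1003 630 h1)) (enc_mul (enc_norm (bf1q0_3.enc h1 h2)) (enc_scale 67 63 h1))) (enc_add (enc_sub (enc_rat _ 389557 374000) (enc_scale 7189 3740 h1)) (enc_mul (enc_norm (bf1q0_3.enc h1 h2)) (enc_norm (enc_sub (enc_rat _ 79 187000) (enc_scale 399 374 h1)))))))⟩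
noncomputable def kf1q0 : Fn2 := ⟨_, _, fun h1 h2 => (enc_norm (enc_mul (cv1m.enc h1) (bf1q0.enc h1 h2)))⟩
noncomputable def bx1q0_3 : Fn2 := ⟨_, _, fun h1 h2 => (enc_subr 14173 20000 h2)⟩
noncomputable def bx1q0 : Fn2 := ⟨_, _, fun h1 h2 => (enc_norm (enc_case (enc_subr 63 250 h1) (enc_case (enc_subr 63 500 h1) (enc_scale 23 140 h1) (enc_add (enc_subr 37 10000 (enc_scale 61 315 h1)) (enc_mul (enc_norm (bx1q0_3.enc h1 h2)) (enc_norm (enc_subr 131 1000 (enc_scale 131 126 h1)))))) (enc_case (enc_subr 429 1000 h1) (enc_add (enc_subr 2119 590000 (enc_scale 57 295 h1)) (enc_mul (enc_norm (bx1q0_3.enc h1 h2)) (enc_norm (enc_subr 151 11800 (enc_scale 101 177 h1))))) (enc_add (enc_add (enc_scale 9 71 h1) (enc_rat _ 17693 710000)) (enc_mul (enc_norm (bx1q0_3.enc h1 h2)) (enc_norm (enc_add (enc_scale 29 71 h1) (enc_rat _ 4031 71000))))))))⟩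
noncomputable def l1q0 : Fn2 := ⟨_, _, fun h1 h2 => (enc_norm (enc_mul (cv1m.enc h1) (bx1q0.enc h1 h2)))⟩
noncomputable def bd1q0_3 : Fn2 := ⟨_, _, fun h1 h2 => (enc_subr 14173 20000 h2)⟩
noncomputable def bd1q0 : Fn2 := ⟨_, _, fun h1 h2 => (enc_norm (enc_case (enc_subr 63 250 h1) (enc_add (enc_scale 1159 1260 h1) (enc_mul (enc_norm (bd1q0_3.enc h1 h2)) (enc_scale 3971 252 h1))) (enc_add (enc_subr 85031 155000 (enc_scale 96 31 h1)) (enc_mul (enc_norm (bd1q0_3.enc h1 h2)) (enc_norm (enc_sub (enc_rat _ 147073 15500) (enc_scale 2715 124 h1)))))))⟩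
noncomputable def kc1q0 : Fn2 := ⟨_, _, fun h1 h2 => (enc_norm (enc_mul (cv1m.enc h1) (bd1q0.enc h1 h2)))⟩
noncomputable def bf1q1 : Fn2 := ⟨_, _, fun h1 h2 => (enc_norm (enc_add (enc_subr 3519 5000 (enc_scale 7433 5000 h1)) (enc_mul (enc_norm (enc_subr 14173 20000 h2)) (enc_norm (enc_sub (enc_rat _ 289 1000) (enc_scale 163 250 h1))))))⟩
noncomputable def kf1q1 : Fn2 := ⟨_, _, fun h1 h2 => (enc_norm (enc_mul (cv1m.enc h1) (bf1q1.enc h1 h2)))⟩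
noncomputable def bx1q1_3 : Fn2 := ⟨_, _, fun h1 h2 => (enc_subr 14173 20000 h2)⟩
noncomputable def bx1q1 : Fn2 := ⟨_, _, fun h1 h2 => (enc_norm (enc_case (enc_subr 719 1000 h1) (enc_case (enc_subr 111 200 h1) (enc_add (enc_add (enc_scale 69 550 h1) (enc_rat _ 2813 110000)) (enc_mul (enc_norm (bx1q1_3.enc h1 h2)) (enc_norm (enc_sub (enc_rat _ 8271 11000) (enc_scale 54 55 h1))))) (enc_add (enc_add (enc_scale 103 1640 h1) (enc_rat _ 98963 1640000)) (enc_mul (enc_norm (bx1q1_3.enc h1 h2)) (enc_norm (enc_sub (enc_rat _ 30687 41000) (enc_scale 40 41 h1)))))) (enc_case (enc_subr 883 1000 h1) (enc_add (enc_add (enc_scale 91 1640 h1) (enc_rat _ 107591 1640000)) (enc_mul (enc_norm (bx1q1_3.enc h1 h2)) (enc_norm (enc_sub (enc_rat _ 142621 82000) (enc_scale 193 82 h1))))) (enc_add (enc_add (enc_scale 1 18 h1) (enc_rat _ 5899 90000)) (enc_mul (enc_norm (bx1q1_3.enc h1 h2)) (enc_norm (enc_subr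 126961 23400 (enc_scale 674 117 h1))))))))⟩
noncomputable def l1q1 : Fn2 := ⟨_, _, fun h1 h2 => (enc_norm (enc_mul (cv1m.enc h1) (bx1q1.enc h1 h2)))⟩
noncomputable def bd1q1 : Fn2 := ⟨_, _, fun h1 h2 => (enc_norm (enc_add (enc_subr 5487 10000 (enc_scale 3097 1000 h1)) (enc_mul (enc_norm (enc_subr 14173 20000 h2)) (enc_norm (enc_sub (enc_rat _ 9489 1000) (enc_scale 2737 125 h1))))))⟩
noncomputable def kc1q1 : Fn2 := ⟨_, _, fun h1 h2 => (enc_norm (enc_mul (cv1m.enc h1) (bd1q1.enc h1 h2)))⟩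
noncomputable def xc12a : Fn1 := ⟨_, _, fun h1 => (enc_norm (enc_add (enc_scale 4 5 h1) (enc_scale 1 5 (enc_subr 1 2 (swg.enc (yag.enc h1))))))⟩
noncomputable def bf1q2_3 : Fn2 := ⟨_, _, fun h1 h2 => (enc_subr 14173 20000 h2)⟩
noncomputable def bf1q2 : Fn2 := ⟨_, _, fun h1 h2 => (enc_norm (enc_case (enc_subr 277 250 h1) (enc_case (enc_subr 17 16 h1) (enc_add (enc_sub (enc_rat _ 1544 625) (enc_scale 919 625 h1)) (enc_mul (enc_norm (bf1q2_3.enc h1 h2)) (enc_norm (enc_sub (enc_rat _ 404 125) (enc_scale 404 125 h1))))) (enc_add (enc_sub (enc_rat _ 310839 65000) (enc_scale 237 65 h1)) (enc_mul (enc_norm (bf1q2_3.enc h1 h2)) (enc_norm (enc_sub (enc_rat _ 863493 91000) (enc_scale 830 91 h1)))))) (enc_case (enc_subr 577 500 h1) (enc_add (enc_sub (enc_rat _ 223306261 57500000) (enc_scale 652093 230000 h1)) (enc_mul (enc_norm (bf1q2_3.enc h1 h2)) (enc_norm (enc_sub (enc_rat _ 19202349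 1437500) (enc_scale 145049 11500 h1))))) (enc_case (enc_subr 231 200 h1) (enc_add (enc_sub (enc_rat _ 35209 10000) (enc_scale 25209 10000 h1)) (enc_mul (enc_norm (bf1q2_3.enc h1 h2)) (enc_norm (enc_sub (enc_rat _ 3887 500) (enc_scale 3887 500 h1))))) (enc_add (enc_sub (enc_rat _ 2667199 460000) (enc_scale 1033307 230000 h1)) (enc_mul (enc_norm (bf1q2_3.enc h1 h2)) (enc_norm (enc_subr 28967 1150 (enc_scale 238799 11500 h1)))))))))⟩
noncomputable def kfc12a : Fn2 := ⟨_, _, fun h1 h2 => (enc_norm (enc_mul (enc_norm (enc_add (enc_scale 4 5 h1) (enc_scale 1 5 (enc_subr 1 2 (swg.enc (yag.enc h1)))))) (bf1q2.enc (yag.enc h1) h2)))⟩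
noncomputable def bx1q2_3 : Fn2 := ⟨_, _, fun h1 h2 => (enc_subr 14173 20000 h2)⟩
noncomputable def bx1q2 : Fn2 := ⟨_, _, fun h1 h2 => (enc_norm (enc_case (enc_subr 277 250 h1) (enc_case (enc_subr 17 16 h1) (enc_add (enc_sub (enc_rat _ 564 625) (enc_scale 564 625 h1)) (enc_mul (enc_norm (bx1q2_3.enc h1 h2)) (enc_norm (enc_sub (enc_rat _ 524 125) (enc_scale 524 125 h1))))) (enc_add (enc_sub (enc_rat _ 2568801 910000) (enc_scale 1233 455 h1)) (enc_mul (enc_norm (bx1q2_3.enc h1 h2)) (enc_norm (enc_subr 67709 7000 (enc_scale 62 7 h1)))))) (enc_case (enc_subr 577 500 h1) (enc_add (enc_sub (enc_rat _ 3065269 1150000) (enc_scale 2953 1150 h1)) (enc_mul (enc_norm (bx1q2_3.enc h1 h2)) (enc_norm (enc_subr 117399 5750 (enc_scale 1707 92 h1))))) (enc_case (enc_subr 231 200 h1) (enc_subr 14891 50000 (enc_scale 1989 2000 (bx1q2_3.enc h1 h2))) (enc_add (enc_subr 94907 46000 (enc_scale 13183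 8625 h1)) (enc_mul (enc_norm (bx1q2_3.enc h1 h2)) (enc_norm (enc_sub (enc_rat _ 191927 23000) (enc_scale 4391 690 h1)))))))))⟩
noncomputable def lc12a : Fn2 := ⟨_, _, fun h1 h2 => (enc_norm (enc_mul (enc_norm (enc_add (enc_scale 4 5 h1) (enc_scale 1 5 (enc_subr 1 2 (swg.enc (yag.enc h1)))))) (bx1q2.enc (yag.enc h1) h2)))⟩
noncomputable def bd1q2_3 : Fn2 := ⟨_, _, fun h1 h2 => (enc_subr 14173 20000 h2)⟩
noncomputable def bd1q2_15 : Fn2 := ⟨_, _, fun h1 h2 => (enc_scale 3 5 (bd1q2_3.enc h1 h2))⟩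
noncomputable def bd1q2 : Fn2 := ⟨_, _, fun h1 h2 => (enc_norm (enc_case (enc_subr 577 500 h1) (enc_mul (enc_norm (bd1q2_3.enc h1 h2)) (enc_norm (enc_subr 300 77 (enc_scale 300 77 h1)))) (enc_case (enc_subr 231 200 h1) (bd1q2_15.enc h1 h2) (enc_add (enc_subr 2084621 230000 (enc_scale 27073 3450 h1)) (bd1q2_15.enc h1 h2)))))⟩
noncomputable def kcc12a : Fn2 := ⟨_, _, fun h1 h2 => (enc_norm (enc_mul (enc_norm (enc_add (enc_scale 4 5 h1) (enc_scale 1 5 (enc_subr 1 2 (swg.enc (yag.enc h1)))))) (bd1q2.enc (yag.enc h1) h2)))⟩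
noncomputable def xc12b : Fn1 := ⟨_, _, fun h1 => (enc_norm (enc_scale 1 5 (enc_subr 1 2 (swg.enc h1))))⟩
noncomputable def kfc12b : Fn2 := ⟨_, _, fun h1 h2 => (enc_norm (enc_mul (enc_norm (enc_scale 1 5 (enc_subr 1 2 (swg.enc h1)))) (bf1q2.enc h1 h2)))⟩
noncomputable def lc12b : Fn2 := ⟨_, _, fun h1 h2 => (enc_norm (enc_mul (enc_norm (enc_scale 1 5 (enc_subr 1 2 (swg.enc h1)))) (bx1q2.enc h1 h2)))⟩
noncomputable def kcc12b : Fn2 := ⟨_, _, fun h1 h2 => (enc_norm (enc_mul (enc_norm (enc_scale 1 5 (enc_subr 1 2 (swg.enc h1)))) (bd1q2.enc h1 h2)))⟩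
noncomputable def cv1r : Fn1 := ⟨_, _, fun h1 => (enc_norm (enc_scale 1 5 (enc_subr 1 2 (swg.enc h1))))⟩
noncomputable def c3g : Fn1 := ⟨_, _, fun h1 => (enc_sqrtg (enc_sub (enc_pnc _ 3) (enc_scale 3 4 (enc_sq h1))))⟩
noncomputable def kf1q3_4 : Fn2 := ⟨_, _, fun h1 h2 => (enc_subr 14173 20000 h2)⟩
noncomputable def kf1q3 : Fn2 := ⟨_, _, fun h1 h2 => (enc_norm (enc_mul (cv1r.enc h1) (enc_norm (enc_case (enc_subr 417 250 h1) (enc_add (enc_sub (enc_rat _ 94103 35000) (enc_scale 157 105 h1)) (enc_mul (enc_norm (kf1q3_4.enc h1 h2)) (enc_norm (enc_sub (enc_rat _ 311331 14000) (enc_scale 2479 168 h1))))) (enc_case (enc_subr 437 250 h1) (enc_add (enc_sub (enc_rat _ 134413 50000) (enc_scale 299 200 h1)) (enc_mul (enc_norm (kf1q3_4.enc h1 h2)) (enc_norm (enc_sub (enc_rat _ 444977 20000) (enc_scale 1181 80 h1))))) (enc_add (enc_subr 21 50 (enc_scale 55000000 93516487 (c3g.enc h1))) (enc_mul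 (enc_norm (kf1q3_4.enc h1 h2)) (enc_norm (enc_subr 9943 500 (enc_scale 16330000000 841648383 (c3g.enc h1)))))))))))⟩
noncomputable def l1q3_4 : Fn2 := ⟨_, _, fun h1 h2 => (enc_subr 14173 20000 h2)⟩
noncomputable def l1q3 : Fn2 := ⟨_, _, fun h1 h2 => (enc_norm (enc_mul (cv1r.enc h1) (enc_norm (enc_case (enc_subr 417 250 h1) (enc_add (enc_subr 28887 14000 (enc_scale 107 70 h1)) (enc_mul (enc_norm (l1q3_4.enc h1 h2)) (enc_norm (enc_sub (enc_rat _ 116811 14000) (enc_scale 1069 168 h1))))) (enc_case (enc_subr 437 250 h1) (enc_add (enc_subr 206157 100000 (enc_scale 611 400 h1)) (enc_mul (enc_norm (l1q3_4.enc h1 h2)) (enc_norm (enc_sub (enc_rat _ 166853 20000) (enc_scale 509 80 h1))))) (enc_add (enc_add (enc_scale 305000000 841648383 (c3g.enc h1)) (enc_rat _ 607 2000)) (enc_mul (enc_norm (l1q3_4.enc h1 h2)) (enc_norm (enc_sub (enc_rat _ 21953 1000) (enc_scale 2748000000 93516487 (c3g.enc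 h1)))))))))))⟩
noncomputable def kc1q3_4 : Fn2 := ⟨_, _, fun h1 h2 => (enc_subr 14173 20000 h2)⟩
noncomputable def kc1q3 : Fn2 := ⟨_, _, fun h1 h2 => (enc_norm (enc_mul (cv1r.enc h1) (enc_norm (enc_case (enc_subr 417 250 h1) (enc_add (enc_subr 1268853 140000 (enc_scale 13183 1680 h1)) (enc_mul (enc_norm (kc1q3_4.enc h1 h2)) (enc_norm (enc_sub (enc_rat _ 341 560) (enc_scale 1 168 h1))))) (enc_case (enc_subr 437 250 h1) (enc_add (enc_subr 1812389 200000 (enc_scale 6277 800 h1)) (enc_scale 599 1000 (kc1q3_4.enc h1 h2))) (enc_add (enc_subr 11623 10000 (enc_scale 5815600000 841648383 (c3g.enc h1))) (enc_mul (enc_norm (kc1q3_4.enc h1 h2)) (enc_norm (enc_subr 86701 1000 (enc_scale 9700000000 93516487 (c3g.enc h1)))))))))))⟩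
noncomputable def cv2m : Fn1 := ⟨_, _, fun h1 => (enc_norm (enc_add (enc_half (c1g.enc h1)) (enc_half (enc_add (swg.enc h1) (enc_rat _ 1 2)))))⟩
noncomputable def bf2q0_3 : Fn2 := ⟨_, _, fun h1 h2 => (enc_subr 14173 20000 h2)⟩
noncomputable def bf2q0 : Fn2 := ⟨_, _, fun h1 h2 => (enc_norm (enc_case (enc_subr 189 1000 h1) (enc_add (enc_sub (enc_pnc _ 1) (enc_scale 382 189 h1)) (enc_mul (enc_norm (bf2q0_3.enc h1 h2)) (enc_scale 50 189 h1))) (enc_case (enc_subr 83 250 h1) (enc_add (enc_sub (enc_rat _ 1465293 1430000) (enc_scale 3077 1430 h1)) (enc_mul (enc_norm (bf2q0_3.enc h1 h2)) (enc_norm (enc_sub (enc_rat _ 75001 143000) (enc_scale 359 143 h1))))) (enc_add (enc_sub (enc_rat _ 145283 140000) (enc_scale 1227 560 h1)) (enc_mul (enc_norm (bf2q0_3.enc h1 h2)) (enc_norm (enc_subr 1663 4200 (enc_scale 11 42 h1))))))))⟩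
noncomputable def kf2q0 : Fn2 := ⟨_, _, fun h1 h2 => (enc_norm (enc_mul (cv2m.enc h1) (bf2q0.enc h1 h2)))⟩
noncomputable def bx2q0_3 : Fn2 := ⟨_, _, fun h1 h2 => (enc_subr 14173 20000 h2)⟩
noncomputable def bx2q0_6 : Fn2 := ⟨_, _, fun h1 h2 => (enc_scale 3 10 h1)⟩
noncomputable def bx2q0 : Fn2 := ⟨_, _, fun h1 h2 => (enc_norm (enc_case (enc_subr 63 500 h1) (enc_add (bx2q0_6.enc h1 h2) (enc_mul (enc_norm (bx2q0_3.enc h1 h2)) (enc_scale 19 63 h1))) (enc_case (enc_subr 63 250 h1) (enc_add (bx2q0_6.enc h1 h2) (enc_mul (enc_norm (bx2q0_3.enc h1 h2)) (enc_norm (enc_subr 19 1000 (enc_scale 19 42 h1))))) (enc_add (enc_sub (enc_rat _ 50967 620000) (enc_scale 13 496 h1)) (enc_mul (enc_norm (bx2q0_3.enc h1 h2)) (enc_norm (enc_subr 13 775 (enc_scale 55 124 h1))))))))⟩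
noncomputable def l2q0 : Fn2 := ⟨_, _, fun h1 h2 => (enc_norm (enc_mul (cv2m.enc h1) (bx2q0.enc h1 h2)))⟩
noncomputable def bd2q0 : Fn2 := ⟨_, _, fun h1 h2 => (enc_norm (enc_sub (enc_mul (enc_norm (enc_subr 14173 20000 h2)) (enc_scale 1517 100 h1)) (enc_scale 669 200 h1)))⟩
noncomputable def kc2q0 : Fn2 := ⟨_, _, fun h1 h2 => (enc_norm (enc_mul (cv2m.enc h1) (bd2q0.enc h1 h2)))⟩
noncomputable def bf2q1 : Fn2 := ⟨_, _, fun h1 h2 => (enc_norm (enc_add (enc_subr 597 2500 (enc_scale 2483 2500 h1)) (enc_mul (enc_norm (enc_subr 14173 20000 h2)) (enc_norm (enc_subr 2 5 (enc_scale 23 100 h1))))))⟩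
noncomputable def kf2q1 : Fn2 := ⟨_, _, fun h1 h2 => (enc_norm (enc_mul (cv2m.enc h1) (bf2q1.enc h1 h2)))⟩
noncomputable def bx2q1_3 : Fn2 := ⟨_, _, fun h1 h2 => (enc_subr 14173 20000 h2)⟩
noncomputable def bx2q1 : Fn2 := ⟨_, _, fun h1 h2 => (enc_norm (enc_case (enc_subr 719 1000 h1) (enc_add (enc_sub (enc_rat _ 59943 730000) (enc_scale 19 730 h1)) (enc_mul (enc_norm (bx2q1_3.enc h1 h2)) (enc_norm (enc_sub (enc_rat _ 5593 14600) (enc_scale 26 73 h1))))) (enc_case (enc_subr 207 250 h1) (enc_add (enc_sub (enc_rat _ 142403 545000) (enc_scale 30 109 h1)) (enc_mul (enc_norm (bx2q1_3.enc h1 h2)) (enc_norm (enc_sub (enc_rat _ 10471 27250) (enc_scale 39 109 h1))))) (enc_add (enc_sub (enc_rat _ 1406 5375) (enc_scale 237 860 h1)) (enc_mul (enc_norm (bx2q1_3.enc h1 h2)) (enc_norm (enc_sub (enc_rat _ 8309 21500) (enc_scale 31 86 h1))))))))⟩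
noncomputable def l2q1 : Fn2 := ⟨_, _, fun h1 h2 => (enc_norm (enc_mul (cv2m.enc h1) (bx2q1.enc h1 h2)))⟩
noncomputable def bd2q1 : Fn2 := ⟨_, _, fun h1 h2 => (enc_norm (enc_add (enc_subr 14699 2500 (enc_scale 42071 5000 h1)) (enc_mul (enc_norm (enc_subr 14173 20000 h2)) (enc_norm (enc_sub (enc_rat _ 11321 500) (enc_scale 15057 500 h1))))))⟩
noncomputable def kc2q1 : Fn2 := ⟨_, _, fun h1 h2 => (enc_norm (enc_mul (cv2m.enc h1) (bd2q1.enc h1 h2)))⟩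
noncomputable def xc22a : Fn1 := ⟨_, _, fun h1 => (enc_norm (enc_add (enc_half h1) (enc_half (enc_subr 1 2 (swg.enc (yag.enc h1))))))⟩
noncomputable def bf2q2_3 : Fn2 := ⟨_, _, fun h1 h2 => (enc_subr 14173 20000 h2)⟩
noncomputable def bf2q2_34 : Fn2 := ⟨_, _, fun h1 h2 => (enc_sub (enc_rat _ 1240659 230000) (enc_scale 2423 575 h1))⟩
noncomputable def bf2q2 : Fn2 := ⟨_, _, fun h1 h2 => (enc_norm (enc_case (enc_subr 231 200 h1) (enc_case (enc_subr 17 16 h1) (enc_add (enc_sub (enc_rat _ 1456 625) (enc_scale 831 625 h1)) (enc_mul (enc_norm (bf2q2_3.enc h1 h2)) (enc_norm (enc_sub (enc_rat _ 938 125) (enc_scale 938 125 h1))))) (enc_add (enc_sub (enc_rat _ 1995903 370000) (enc_scale 3898 925 h1)) (enc_mul (enc_norm (bf2q2_3.enc h1 h2)) (enc_norm (enc_sub (enc_rat _ 450147 37000) (enc_scale 440 37 h1)))))) (enc_case (enc_subr 127 100 h1) (enc_add (bf2q2_34.enc h1 h2) (enc_mul (enc_norm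 (bf2q2_3.enc h1 h2)) (enc_norm (enc_subr 270594 2875 (enc_scale 1843 23 h1))))) (enc_add (bf2q2_34.enc h1 h2) (enc_mul (enc_norm (bf2q2_3.enc h1 h2)) (enc_norm (enc_sub (enc_rat _ 77259 2875) (enc_scale 1741 115 h1))))))))⟩
noncomputable def kfc22a : Fn2 := ⟨_, _, fun h1 h2 => (enc_norm (enc_mul (enc_norm (enc_add (enc_half h1) (enc_half (enc_subr 1 2 (swg.enc (yag.enc h1)))))) (bf2q2.enc (yag.enc h1) h2)))⟩
noncomputable def bx2q2_3 : Fn2 := ⟨_, _, fun h1 h2 => (enc_subr 14173 20000 h2)⟩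
noncomputable def bx2q2 : Fn2 := ⟨_, _, fun h1 h2 => (enc_norm (enc_case (enc_subr 231 200 h1) (enc_case (enc_subr 277 250 h1) (enc_case (enc_subr 17 16 h1) (enc_add (enc_sub (enc_rat _ 62 125) (enc_scale 62 125 h1)) (enc_mul (enc_norm (bx2q2_3.enc h1 h2)) (enc_norm (enc_sub (enc_rat _ 496 125) (enc_scale 496 125 h1))))) (enc_add (enc_sub (enc_rat _ 77929 91000) (enc_scale 76 91 h1)) (enc_mul (enc_norm (bx2q2_3.enc h1 h2)) (enc_norm (enc_subr 407193 91000 (enc_scale 362 91 h1)))))) (enc_case (enc_subr 577 500 h1) (enc_add (enc_sub (enc_rat _ 207799 57500) (enc_scale 1529 460 h1)) (enc_mul (enc_norm (bx2q2_3.enc h1 h2)) (enc_norm (enc_subr 88519 23000 (enc_scale 157 46 h1))))) (enc_add (enc_sub (enc_rat _ 37017 10000) (enc_scale 17 5 h1)) (enc_mul (enc_norm (bx2q2_3.enc h1 h2)) (enc_norm (enc_subr 788137 500 (enc_nat 1366 h1))))))) (enc_case (enc_subr 127 100 h1) (enc_case (enc_subr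 1213 1000 h1) (enc_add (enc_subr 1148229 580000 (enc_scale 881 580 h1)) (enc_mul (enc_norm (bx2q2_3.enc h1 h2)) (enc_norm (enc_sub (enc_rat _ 752549 29000) (enc_scale 615 29 h1))))) (enc_add (enc_subr 1127449 570000 (enc_scale 173 114 h1)) (enc_mul (enc_norm (bx2q2_3.enc h1 h2)) (enc_norm (enc_sub (enc_rat _ 2519777 28500) (enc_scale 4144 57 h1)))))) (enc_case (enc_subr 166 125 h1) (enc_add (enc_subr 476983 290000 (enc_scale 182 145 h1)) (enc_mul (enc_norm (bx2q2_3.enc h1 h2)) (enc_norm (enc_subr 326347 29000 (enc_scale 335 58 h1))))) (enc_case (enc_subr 1443 1000 h1) (enc_add (enc_subr 378709 230000 (enc_scale 289 230 h1)) (enc_mul (enc_norm (bx2q2_3.enc h1 h2)) (enc_norm (enc_subr 3906013 115000 (enc_scale 2631 115 h1))))) (enc_add (enc_subr 156371 95000 (enc_scale 358 285 h1)) (enc_mul (enc_norm (bx2q2_3.enc h1 h2)) (enc_norm (enc_subr 36412 2375 (enc_scale 568 57 h1))))))))))⟩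
noncomputable def lc22a : Fn2 := ⟨_, _, fun h1 h2 => (enc_norm (enc_mul (enc_norm (enc_add (enc_half h1) (enc_half (enc_subr 1 2 (swg.enc (yag.enc h1)))))) (bx2q2.enc (yag.enc h1) h2)))⟩
noncomputable def bd2q2_3 : Fn2 := ⟨_, _, fun h1 h2 => (enc_subr 14173 20000 h2)⟩
noncomputable def bd2q2 : Fn2 := ⟨_, _, fun h1 h2 => (enc_norm (enc_case (enc_subr 231 200 h1) (enc_add (enc_subr 319 775 (enc_scale 319 775 h1)) (enc_mul (enc_norm (bd2q2_3.enc h1 h2)) (enc_norm (enc_subr 2917 155 (enc_scale 2917 155 h1))))) (enc_add (enc_subr 378323 46000 (enc_scale 24757 3450 h1)) (enc_mul (enc_norm (bd2q2_3.enc h1 h2)) (enc_norm (enc_subr 43287 2300 (enc_scale 6493 345 h1)))))))⟩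
noncomputable def kcc22a : Fn2 := ⟨_, _, fun h1 h2 => (enc_norm (enc_mul (enc_norm (enc_add (enc_half h1) (enc_half (enc_subr 1 2 (swg.enc (yag.enc h1)))))) (bd2q2.enc (yag.enc h1) h2)))⟩
noncomputable def xc22b : Fn1 := ⟨_, _, fun h1 => (enc_norm (enc_half (enc_subr 1 2 (swg.enc h1))))⟩
noncomputable def kfc22b : Fn2 := ⟨_, _, fun h1 h2 => (enc_norm (enc_mul (enc_norm (enc_half (enc_subr 1 2 (swg.enc h1)))) (bf2q2.enc h1 h2)))⟩
noncomputable def lc22b : Fn2 := ⟨_, _, fun h1 h2 => (enc_norm (enc_mul (enc_norm (enc_half (enc_subr 1 2 (swg.enc h1)))) (bx2q2.enc h1 h2)))⟩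
noncomputable def kcc22b : Fn2 := ⟨_, _, fun h1 h2 => (enc_norm (enc_mul (enc_norm (enc_half (enc_subr 1 2 (swg.enc h1)))) (bd2q2.enc h1 h2)))⟩
noncomputable def cv2r : Fn1 := ⟨_, _, fun h1 => (enc_norm (enc_half (enc_subr 1 2 (swg.enc h1))))⟩
noncomputable def kf2q3_4 : Fn2 := ⟨_, _, fun h1 h2 => (enc_subr 14173 20000 h2)⟩
noncomputable def kf2q3 : Fn2 := ⟨_, _, fun h1 h2 => (enc_norm (enc_mul (cv2r.enc h1) (enc_norm (enc_case (enc_subr 417 250 h1) (enc_add (enc_sub (enc_rat _ 94103 35000) (enc_scale 157 105 h1)) (enc_mul (enc_norm (kf2q3_4.enc h1 h2)) (enc_norm (enc_sub (enc_rat _ 311331 14000) (enc_scale 2479 168 h1))))) (enc_case (enc_subr 437 250 h1) (enc_add (enc_sub (enc_rat _ 134413 50000) (enc_scale 299 200 h1)) (enc_mul (enc_norm (kf2q3_4.enc h1 h2)) (enc_norm (enc_sub (enc_rat _ 444977 20000) (enc_scale 1181 80 h1))))) (enc_add (enc_subr 21 50 (enc_scale 55000000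 93516487 (c3g.enc h1))) (enc_mul (enc_norm (kf2q3_4.enc h1 h2)) (enc_norm (enc_subr 9943 500 (enc_scale 16330000000 841648383 (c3g.enc h1)))))))))))⟩
noncomputable def l2q3_4 : Fn2 := ⟨_, _, fun h1 h2 => (enc_subr 14173 20000 h2)⟩
noncomputable def l2q3 : Fn2 := ⟨_, _, fun h1 h2 => (enc_norm (enc_mul (cv2r.enc h1) (enc_norm (enc_case (enc_subr 417 250 h1) (enc_case (enc_subr 389 250 h1) (enc_add (enc_subr 251277 140000 (enc_scale 759 560 h1)) (enc_mul (enc_norm (l2q3_4.enc h1 h2)) (enc_norm (enc_sub (enc_rat _ 1007499 14000) (enc_scale 2701 56 h1))))) (enc_add (enc_subr 100433 56000 (enc_scale 1517 1120 h1)) (enc_mul (enc_norm (l2q3_4.enc h1 h2)) (enc_norm (enc_subr 517003 28000 (enc_scale 1107 112 h1)))))) (enc_case (enc_subr 437 250 h1) (enc_add (enc_subr 89717 50000 (enc_scale 271 200 h1)) (enc_mul (enc_norm (l2q3_4.enc h1 h2)) (enc_norm (enc_subr 369407 20000 (enc_scale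 791 80 h1))))) (enc_add (enc_add (enc_scale 80600000 280549461 (c3g.enc h1)) (enc_rat _ 831 2500)) (enc_mul (enc_norm (l2q3_4.enc h1 h2)) (enc_norm (enc_sub (enc_rat _ 8121 500) (enc_scale 17429000000 841648383 (c3g.enc h1)))))))))))⟩
noncomputable def kc2q3_4 : Fn2 := ⟨_, _, fun h1 h2 => (enc_subr 14173 20000 h2)⟩
noncomputable def kc2q3 : Fn2 := ⟨_, _, fun h1 h2 => (enc_norm (enc_mul (cv2r.enc h1) (enc_norm (enc_case (enc_subr 417 250 h1) (enc_add (enc_subr 76361 7000 (enc_scale 7531 840 h1)) (enc_mul (enc_norm (kc2q3_4.enc h1 h2)) (enc_norm (enc_sub (enc_rat _ 34481 350) (enc_scale 2495 42 h1))))) (enc_case (enc_subr 437 250 h1) (enc_add (enc_subr 136349 12500 (enc_scale 1793 200 h1)) (enc_mul (enc_norm (kc2q3_4.enc h1 h2)) (enc_norm (enc_sub (enc_rat _ 1970601 20000) (enc_scale 4753 80 h1))))) (enc_add (enc_subr 7777 5000 (enc_scale 2106100000 280549461 (c3g.enc h1))) (enc_mul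 (enc_norm (kc2q3_4.enc h1 h2)) (enc_norm (enc_subr 8184 125 (enc_scale 60149000000 841648383 (c3g.enc h1)))))))))))⟩
noncomputable def cv3m : Fn1 := ⟨_, _, fun h1 => (enc_norm (enc_add (enc_scale 4 5 (enc_add (swg.enc h1) (enc_rat _ 1 2))) (enc_scale 1 5 (c3g.enc h1))))⟩
noncomputable def esg : Fn1 := ⟨_, _, fun h1 => (enc_norm (enc_subn 1 (enc_add (enc_half h1) (gsg.enc h1))))⟩
noncomputable def kf3q0_4 : Fn2 := ⟨_, _, fun h1 h2 => (enc_subr 14173 20000 h2)⟩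
noncomputable def kf3q0_42 : Fn2 := ⟨_, _, fun h1 h2 => (enc_sub (enc_pnc _ 1) h1)⟩
noncomputable def kf3q0_43 : Fn2 := ⟨_, _, fun h1 h2 => (gsg.enc (enc_norm (kf3q0_42.enc h1 h2)))⟩
noncomputable def kf3q0_46 : Fn2 := ⟨_, _, fun h1 h2 => (enc_sub (enc_scale 3 4 (kf3q0_42.enc h1 h2)) (enc_half (kf3q0_43.enc h1 h2)))⟩
noncomputable def kf3q0_64 : Fn2 := ⟨_, _, fun h1 h2 => (enc_mul (cv2m.enc h1) (bf2q0.enc h1 h2))⟩
noncomputable def kf3q0 : Fn2 := ⟨_, _, fun h1 h2 => (enc_norm (enc_case (enc_subr 63 250 h1) (enc_mul (cv3m.enc h1) (enc_norm (enc_case (enc_subr 189 1000 h1) (enc_add (enc_sub (enc_rat _ 8133 10000) (enc_scale 3541 1890 h1)) (enc_mul (enc_norm (kf3q0_4.enc h1 h2)) (enc_norm (enc_subr 211 500 (enc_scale 1369 189 h1))))) (enc_add (enc_sub (enc_rat _ 1167406993 1250000000) (enc_scale 197802331 78750000 h1)) (enc_mul (enc_norm (kf3q0_4.enc h1 h2)) (enc_norm (enc_sub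 (enc_rat _ 4830139313 1000000000) (enc_scale 1294379771 63000000 h1)))))))) (enc_case (enc_subr 83 250 h1) (enc_add (kf3q0_64.enc h1 h2) (enc_mul (enc_norm (enc_mul (enc_norm (enc_sub (enc_mul h1 (enc_norm (enc_sub (enc_mul (enc_norm (enc_sub (kf3q0_46.enc h1 h2) (enc_sub (enc_rat _ 1 4) (enc_scale 3 8 (enc_mul (enc_norm (kf3q0_42.enc h1 h2)) (enc_inv (kf3q0_43.enc h1 h2))))))) (enc_inv (esg.enc (enc_norm (kf3q0_42.enc h1 h2))))) (kcg.enc (enc_norm (kf3q0_46.enc h1 h2)) h2)))) (kf3q0_64.enc h1 h2))) (enc_norm (enc_sub (cv3m.enc h1) (cv2m.enc h1))))) (enc_inv (enc_sub (enc_add (swg.enc h1) (enc_rat _ 1 2)) (cv2m.enc h1))))) (enc_mul (cv3m.enc h1) (enc_norm (enc_add (enc_sub (enc_rat _ 328172807 280000000) (enc_scale 427712807 140000000 h1)) (enc_mul (enc_norm (kf3q0_4.enc h1 h2)) (enc_norm (enc_subr 7290887 8000000 (enc_scale 8282887 4000000 h1))))))))))⟩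
noncomputable def qsg : Fn1 := ⟨_, _, fun h1 => (enc_norm (enc_mul (enc_norm (enc_sub (enc_pnc _ 1) (gsg.enc h1))) (enc_norm (enc_subn 1 (enc_nat 2 (gsg.enc h1))))))⟩
noncomputable def l3q0_4 : Fn2 := ⟨_, _, fun h1 h2 => (enc_subr 14173 20000 h2)⟩
noncomputable def l3q0_30 : Fn2 := ⟨_, _, fun h1 h2 => (enc_sq (enc_norm (l3q0_4.enc h1 h2)))⟩
noncomputable def l3q0_67 : Fn2 := ⟨_, _, fun h1 h2 => (enc_sub (enc_pnc _ 1) h1)⟩
noncomputable def l3q0_82 : Fn2 := ⟨_, _, fun h1 h2 => (enc_mul (cv2m.enc h1) (bx2q0.enc h1 h2))⟩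
noncomputable def l3q0 : Fn2 := ⟨_, _, fun h1 h2 => (enc_norm (enc_case (enc_subr 63 250 h1) (enc_mul (cv3m.enc h1) (enc_norm (enc_case (enc_subr 189 1000 h1) (enc_add (enc_add (enc_scale 2 9 h1) (enc_rat _ 69 1000)) (enc_mul (enc_norm (l3q0_4.enc h1 h2)) (enc_norm (enc_subr 41 1000 (enc_scale 67 63 h1))))) (enc_add (enc_add (enc_sub (enc_rat _ 250461801 2000000000) (enc_scale 9487267 126000000 h1)) (enc_mul (enc_norm (l3q0_4.enc h1 h2)) (enc_norm (enc_sub (enc_rat _ 3685133 7812500) (enc_scale 1623422 984375 h1))))) (enc_mul (l3q0_30.enc h1 h2) (enc_norm (enc_subr 81753 62500 (enc_scale 7786 1125 h1)))))))) (enc_case (enc_subr 83 250 h1) (enc_add (l3q0_82.enc h1 h2) (enc_mul (enc_norm (enc_mul (enc_norm (enc_sub (enc_sub (qsg.enc (enc_norm (l3q0_67.enc h1 h2))) (enc_mul (enc_norm (enc_nat 2 (enc_sub (l3q0_67.enc h1 h2) h2))) (enc_norm (enc_mul (esg.enc (enc_norm (l3q0_67.enc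 h1 h2))) (kcg.enc (enc_norm (enc_sub (enc_scale 3 4 (l3q0_67.enc h1 h2)) (enc_half (gsg.enc (enc_norm (l3q0_67.enc h1 h2)))))) h2))))) (l3q0_82.enc h1 h2))) (enc_norm (enc_sub (cv3m.enc h1) (cv2m.enc h1))))) (enc_inv (enc_sub (enc_add (swg.enc h1) (enc_rat _ 1 2)) (cv2m.enc h1))))) (enc_mul (cv3m.enc h1) (enc_norm (enc_case (enc_subr 381 1000 h1) (enc_add (enc_add (enc_sub (enc_rat _ 33866234501 245000000000) (enc_scale 30756521 245000000 h1)) (enc_mul (enc_norm (l3q0_4.enc h1 h2)) (enc_norm (enc_sub (enc_rat _ 6092738441 49000000000) (enc_scale 13419261 49000000 h1))))) (enc_mul (l3q0_30.enc h1 h2) (enc_norm (enc_sub (enc_rat _ 57432321 24500000) (enc_scale 150741 24500 h1))))) (enc_add (enc_sub (enc_rat _ 40991 297500) (enc_scale 74 595 h1)) (enc_mul (enc_norm (l3q0_4.enc h1 h2)) (enc_norm (enc_subr 6899 17000 (enc_scale 19 17 h1)))))))))))⟩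
noncomputable def kc3q0_4 : Fn2 := ⟨_, _, fun h1 h2 => (enc_subr 14173 20000 h2)⟩
noncomputable def kc3q0_30 : Fn2 := ⟨_, _, fun h1 h2 => (enc_sub (enc_pnc _ 1) h1)⟩
noncomputable def kc3q0_31 : Fn2 := ⟨_, _, fun h1 h2 => (gsg.enc (enc_norm (kc3q0_30.enc h1 h2)))⟩
noncomputable def kc3q0_35 : Fn2 := ⟨_, _, fun h1 h2 => (esg.enc (enc_norm (kc3q0_30.enc h1 h2)))⟩
noncomputable def kc3q0_39 : Fn2 := ⟨_, _, fun h1 h2 => (gug.enc (enc_norm (kc3q0_30.enc h1 h2)))⟩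
noncomputable def kc3q0_41 : Fn2 := ⟨_, _, fun h1 h2 => (enc_mul (enc_norm (kc3q0_30.enc h1 h2)) (enc_inv (kc3q0_31.enc h1 h2)))⟩
noncomputable def kc3q0_42 : Fn2 := ⟨_, _, fun h1 h2 => (enc_scale 3 4 (kc3q0_41.enc h1 h2))⟩
noncomputable def kc3q0_71 : Fn2 := ⟨_, _, fun h1 h2 => (enc_mul (cv2m.enc h1) (bd2q0.enc h1 h2))⟩
noncomputable def kc3q0 : Fn2 := ⟨_, _, fun h1 h2 => (enc_norm (enc_case (enc_subr 63 250 h1) (enc_mul (cv3m.enc h1) (enc_norm (enc_add (enc_subr 496 625 (enc_neg (enc_scale 50220287 9000000 h1))) (enc_mul (enc_norm (kc3q0_4.enc h1 h2)) (enc_norm (enc_add (enc_scale 2584241209 252000000 h1) (enc_rat _ 461 500))))))) (enc_case (enc_subr 83 250 h1) (enc_add (kc3q0_71.enc h1 h2) (enc_mul (enc_norm (enc_mul (enc_norm (enc_sub (enc_add (enc_sub (enc_neg (enc_add (enc_add (enc_rat _ 3 4) (enc_scale 3 2 (kc3q0_30.enc h1 h2))) (enc_scale 3 4 (enc_mul (enc_norm (kc3q0_41.enc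 h1 h2)) (kc3q0_39.enc h1 h2))))) (enc_mul (enc_norm (enc_sub (enc_mul (enc_norm (enc_mul (enc_norm (kc3q0_42.enc h1 h2)) (enc_norm (enc_subn 3 (enc_nat 4 (kc3q0_31.enc h1 h2)))))) (kc3q0_35.enc h1 h2)) (enc_mul (qsg.enc (enc_norm (kc3q0_30.enc h1 h2))) (enc_norm (enc_sub (enc_rat _ 1 2) (kc3q0_42.enc h1 h2)))))) (enc_inv (enc_mul (enc_nat 2 (kc3q0_35.enc h1 h2)) (kc3q0_35.enc h1 h2))))) (enc_mul (kcg.enc (enc_norm (enc_sub (enc_scale 3 4 (kc3q0_30.enc h1 h2)) (enc_half (kc3q0_31.enc h1 h2)))) h2) (enc_norm (enc_add (enc_pnc _ 1) (enc_add (kc3q0_39.enc h1 h2) (enc_nat 2 (kc3q0_31.enc h1 h2))))))) (kc3q0_71.enc h1 h2))) (enc_norm (enc_sub (cv3m.enc h1) (cv2m.enc h1))))) (enc_inv (enc_sub (enc_add (swg.enc h1) (enc_rat _ 1 2)) (cv2m.enc h1))))) (enc_mul (cv3m.enc h1) (enc_norm (enc_add (enc_subr 1081144019 560000000 (enc_neg (enc_scale 52967981 280000000 h1))) (enc_mul (enc_norm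 (kc3q0_4.enc h1 h2)) (enc_norm (enc_subr 8421903053 336000000 (enc_scale 13509615053 168000000 h1))))))))))⟩
noncomputable def bf3q1_3 : Fn2 := ⟨_, _, fun h1 h2 => (enc_subr 14173 20000 h2)⟩
noncomputable def bf3q1 : Fn2 := ⟨_, _, fun h1 h2 => (enc_norm (enc_case (enc_subr 83 125 h1) (enc_add (enc_subr 95401 410000 (enc_scale 2047 1640 h1)) (enc_mul (enc_norm (bf3q1_3.enc h1 h2)) (enc_norm (enc_subr 9101 8200 (enc_scale 91 82 h1))))) (enc_case (enc_subr 15 16 h1) (enc_add (enc_subr 1157589 5470000 (enc_scale 3327 2735 h1)) (enc_mul (enc_norm (bf3q1_3.enc h1 h2)) (enc_norm (enc_subr 121283 109400 (enc_scale 606 547 h1))))) (enc_add (enc_subr 87 625 (enc_scale 712 625 h1)) (enc_mul (enc_norm (bf3q1_3.enc h1 h2)) (enc_norm (enc_subr 28 25 (enc_scale 28 25 h1))))))))⟩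
noncomputable def kf3q1 : Fn2 := ⟨_, _, fun h1 h2 => (enc_norm (enc_mul (cv3m.enc h1) (bf3q1.enc h1 h2)))⟩
noncomputable def bx3q1_3 : Fn2 := ⟨_, _, fun h1 h2 => (enc_subr 14173 20000 h2)⟩
noncomputable def bx3q1 : Fn2 := ⟨_, _, fun h1 h2 => (enc_norm (enc_case (enc_subr 719 1000 h1) (enc_case (enc_subr 111 200 h1) (enc_add (enc_sub (enc_rat _ 3779 27500) (enc_scale 34 275 h1)) (enc_mul (enc_norm (bx3q1_3.enc h1 h2)) (enc_norm (enc_add (enc_scale 2 55 h1) (enc_rat _ 1483 11000))))) (enc_add (enc_sub (enc_rat _ 271007 1640000) (enc_scale 57 328 h1)) (enc_mul (enc_norm (bx3q1_3.enc h1 h2)) (enc_norm (enc_sub (enc_rat _ 5639 32800) (enc_scale 5 164 h1)))))) (enc_case (enc_subr 207 250 h1) (enc_add (enc_sub (enc_rat _ 89909 545000) (enc_scale 189 1090 h1)) (enc_mul (enc_norm (bx3q1_3.enc h1 h2)) (enc_norm (enc_sub (enc_rat _ 9613 54500) (enc_scale 4 109 h1))))) (enc_case (enc_subr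 883 1000 h1) (enc_add (enc_sub (enc_rat _ 43559 275000) (enc_scale 91 550 h1)) (enc_mul (enc_norm (bx3q1_3.enc h1 h2)) (enc_norm (enc_sub (enc_rat _ 23887 27500) (enc_scale 48 55 h1))))) (enc_add (enc_sub (enc_rat _ 41 390) (enc_scale 41 390 h1)) (enc_mul (enc_norm (bx3q1_3.enc h1 h2)) (enc_norm (enc_sub (enc_rat _ 98 117) (enc_scale 98 117 h1)))))))))⟩
noncomputable def l3q1 : Fn2 := ⟨_, _, fun h1 h2 => (enc_norm (enc_mul (cv3m.enc h1) (bx3q1.enc h1 h2)))⟩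
noncomputable def bd3q1 : Fn2 := ⟨_, _, fun h1 h2 => (enc_norm (enc_add (enc_subr 5063 1250 (enc_scale 5063 1250 h1)) (enc_mul (enc_norm (enc_subr 14173 20000 h2)) (enc_norm (enc_sub (enc_rat _ 7571 250) (enc_scale 7571 250 h1))))))⟩
noncomputable def kc3q1 : Fn2 := ⟨_, _, fun h1 h2 => (enc_norm (enc_mul (cv3m.enc h1) (bd3q1.enc h1 h2)))⟩
noncomputable def cv3p : Fn1 := ⟨_, _, fun h1 => (enc_norm (enc_add (enc_scale 4 5 (enc_subr 1 2 (swg.enc h1))) (enc_scale 1 5 (c3g.enc h1))))⟩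
noncomputable def bf3q2_3 : Fn2 := ⟨_, _, fun h1 h2 => (enc_subr 14173 20000 h2)⟩
noncomputable def bf3q2 : Fn2 := ⟨_, _, fun h1 h2 => (enc_norm (enc_case (enc_subr 277 250 h1) (enc_case (enc_subr 17 16 h1) (enc_add (enc_sub (enc_rat _ 876 625) (enc_scale 254 625 h1)) (enc_mul (enc_norm (bf3q2_3.enc h1 h2)) (enc_norm (enc_subr 11 500 (enc_scale 36 125 h1))))) (enc_add (enc_sub (enc_rat _ 636759 455000) (enc_scale 184 455 h1)) (enc_mul (enc_norm (bf3q2_3.enc h1 h2)) (enc_norm (enc_sub (enc_rat _ 107173 3250) (enc_scale 400 13 h1)))))) (enc_case (enc_subr 231 200 h1) (enc_add (enc_sub (enc_rat _ 193077 47000) (enc_scale 1339 470 h1)) (enc_mul (enc_norm (bf3q2_3.enc h1 h2)) (enc_norm (enc_subr 238821 5875 (enc_scale 1677 47 h1))))) (enc_case (enc_subr 127 100 h1) (enc_add (enc_sub (enc_rat _ 79671 23000) (enc_scale 527 230 h1)) (enc_mul (enc_norm (bf3q2_3.enc h1 h2)) (enc_norm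 (enc_sub (enc_rat _ 1056099 23000) (enc_scale 4516 115 h1))))) (enc_add (enc_sub (enc_rat _ 796837 230000) (enc_scale 5271 2300 h1)) (enc_mul (enc_norm (bf3q2_3.enc h1 h2)) (enc_norm (enc_subr 443437 11500 (enc_scale 6267 230 h1)))))))))⟩
noncomputable def kf3q2 : Fn2 := ⟨_, _, fun h1 h2 => (enc_norm (enc_mul (cv3p.enc h1) (bf3q2.enc h1 h2)))⟩
noncomputable def bx3q2_3 : Fn2 := ⟨_, _, fun h1 h2 => (enc_subr 14173 20000 h2)⟩
noncomputable def bx3q2_50 : Fn2 := ⟨_, _, fun h1 h2 => (enc_scale 131 29 h1)⟩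
noncomputable def bx3q2 : Fn2 := ⟨_, _, fun h1 h2 => (enc_norm (enc_case (enc_subr 231 200 h1) (enc_case (enc_subr 17 16 h1) (enc_add (enc_sub (enc_rat _ 2319 10000) (enc_scale 81 625 h1)) (enc_mul (enc_norm (bx3q2_3.enc h1 h2)) (enc_norm (enc_sub (enc_rat _ 301 40) (enc_scale 866 125 h1))))) (enc_case (enc_subr 277 250 h1) (enc_add (enc_sub (enc_rat _ 106611 455000) (enc_scale 12 91 h1)) (enc_mul (enc_norm (bx3q2_3.enc h1 h2)) (enc_norm (enc_sub (enc_rat _ 216757 13000) (enc_scale 202 13 h1))))) (enc_add (enc_sub (enc_rat _ 20987 47000) (enc_scale 76 235 h1)) (enc_mul (enc_norm (bx3q2_3.enc h1 h2)) (enc_norm (enc_subr 352381 47000 (enc_scale 295 47 h1))))))) (enc_case (enc_subr 127 100 h1) (enc_case (enc_subr 1213 1000 h1) (enc_add (enc_sub (enc_rat _ 52127 116000) (enc_scale 189 580 h1)) (enc_mul (enc_norm (bx3q2_3.enc h1 h2)) (enc_norm (enc_subr 158497 29000 (bx3q2_50.enc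 h1 h2))))) (enc_add (enc_sub (enc_rat _ 28027 142500) (enc_scale 67 570 h1)) (enc_mul (enc_norm (bx3q2_3.enc h1 h2)) (enc_norm (enc_subr 26013 4750 (enc_scale 86 19 h1)))))) (enc_case (enc_subr 166 125 h1) (enc_add (enc_subr 165959 290000 (enc_scale 283 580 h1)) (enc_mul (enc_norm (bx3q2_3.enc h1 h2)) (enc_norm (enc_subr 79241 14500 (bx3q2_50.enc h1 h2))))) (enc_add (enc_subr 323021 430000 (enc_scale 1071 1720 h1)) (enc_mul (enc_norm (bx3q2_3.enc h1 h2)) (enc_norm (enc_sub (enc_rat _ 24761 21500) (enc_scale 20 43 h1)))))))))⟩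
noncomputable def l3q2 : Fn2 := ⟨_, _, fun h1 h2 => (enc_norm (enc_mul (cv3p.enc h1) (bx3q2.enc h1 h2)))⟩
noncomputable def bd3q2_3 : Fn2 := ⟨_, _, fun h1 h2 => (enc_subr 14173 20000 h2)⟩
noncomputable def bd3q2 : Fn2 := ⟨_, _, fun h1 h2 => (enc_norm (enc_case (enc_subr 231 200 h1) (enc_add (enc_subr 673037 310000 (enc_scale 1541 775 h1)) (enc_mul (enc_norm (bd3q2_3.enc h1 h2)) (enc_norm (enc_subr 3989969 31000 (enc_scale 18431 155 h1))))) (enc_add (enc_subr 310623 115000 (enc_scale 8443 3450 h1)) (enc_mul (enc_norm (bd3q2_3.enc h1 h2)) (enc_norm (enc_subr 1480233 11500 (enc_scale 41026 345 h1)))))))⟩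
noncomputable def kc3q2 : Fn2 := ⟨_, _, fun h1 h2 => (enc_norm (enc_mul (cv3p.enc h1) (bd3q2.enc h1 h2)))⟩
noncomputable def ycg : Fn1 := ⟨_, _, fun h1 => (enc_sqrtg (enc_scale 4 3 (enc_sub (enc_pnc _ 3) (enc_sq h1))))⟩
noncomputable def xc33 : Fn1 := ⟨_, _, fun h1 => (enc_norm (enc_add (enc_scale 4 5 (enc_subr 1 2 (swg.enc (ycg.enc h1)))) (enc_scale 1 5 h1)))⟩
noncomputable def kfc33_6 : Fn2 := ⟨_, _, fun h1 h2 => (enc_subr 1 2 (swg.enc (ycg.enc h1)))⟩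
noncomputable def kfc33_9 : Fn2 := ⟨_, _, fun h1 h2 => (enc_add (enc_scale 4 5 (kfc33_6.enc h1 h2)) (enc_scale 1 5 h1))⟩
noncomputable def kfc33_11 : Fn2 := ⟨_, _, fun h1 h2 => (enc_subr 14173 20000 h2)⟩
noncomputable def kfc33_48 : Fn2 := ⟨_, _, fun h1 h2 => (enc_subn 1 (ycg.enc h1))⟩
noncomputable def kfc33_49 : Fn2 := ⟨_, _, fun h1 h2 => (gsg.enc (enc_norm (kfc33_48.enc h1 h2)))⟩
noncomputable def kfc33_50 : Fn2 := ⟨_, _, fun h1 h2 => (enc_scale 3 4 (kfc33_48.enc h1 h2))⟩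
noncomputable def kfc33_51 : Fn2 := ⟨_, _, fun h1 h2 => (enc_half (kfc33_49.enc h1 h2))⟩
noncomputable def kfc33_68 : Fn2 := ⟨_, _, fun h1 h2 => (cv2r.enc (ycg.enc h1))⟩
noncomputable def kfc33_70 : Fn2 := ⟨_, _, fun h1 h2 => (enc_subr 417 250 (ycg.enc h1))⟩
noncomputable def kfc33_82 : Fn2 := ⟨_, _, fun h1 h2 => (enc_subr 437 250 (ycg.enc h1))⟩
noncomputable def kfc33_105 : Fn2 := ⟨_, _, fun h1 h2 => (enc_mul (kfc33_68.enc h1 h2) (enc_norm (enc_case (kfc33_70.enc h1 h2) (enc_add (enc_sub (enc_rat _ 94103 35000) (enc_scale 157 105 (ycg.enc h1))) (enc_mul (enc_norm (kfc33_11.enc h1 h2)) (enc_norm (enc_sub (enc_rat _ 311331 14000) (enc_scale 2479 168 (ycg.enc h1)))))) (enc_case (kfc33_82.enc h1 h2) (enc_add (enc_sub (enc_rat _ 134413 50000) (enc_scale 299 200 (ycg.enc h1))) (enc_mul (enc_norm (kfc33_11.enc h1 h2)) (enc_norm (enc_sub (enc_rat _ 444977 20000) (enc_scale 1181 80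 (ycg.enc h1)))))) (enc_add (enc_subr 21 50 (enc_scale 55000000 93516487 h1)) (enc_mul (enc_norm (kfc33_11.enc h1 h2)) (enc_norm (enc_subr 9943 500 (enc_scale 16330000000 841648383 h1)))))))))⟩
noncomputable def kfc33 : Fn2 := ⟨_, _, fun h1 h2 => (enc_norm (enc_case (kfc33_70.enc h1 h2) (enc_mul (enc_norm (kfc33_9.enc h1 h2)) (enc_norm (enc_add (enc_sub (enc_rat _ 53340779 35000000) (enc_scale 48825779 52500000 (ycg.enc h1))) (enc_mul (enc_norm (kfc33_11.enc h1 h2)) (enc_norm (enc_subr 12838089 22400000 (enc_neg (enc_scale 1296311 33600000 (ycg.enc h1))))))))) (enc_case (kfc33_82.enc h1 h2) (enc_add (kfc33_105.enc h1 h2) (enc_mul (enc_norm (enc_mul (enc_norm (enc_sub (enc_mul (enc_norm (enc_subn 2 (ycg.enc h1))) (enc_norm (enc_add (enc_mul (enc_norm (enc_sub (enc_sub (kfc33_51.enc h1 h2) (kfc33_50.enc h1 h2)) (enc_sub (enc_rat _ 1 4) (enc_scale 3 8 (enc_mul (enc_norm (kfc33_48.enc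 h1 h2)) (enc_inv (kfc33_49.enc h1 h2))))))) (enc_inv (esg.enc (enc_norm (kfc33_48.enc h1 h2))))) (kcg.enc (enc_norm (enc_sub (kfc33_50.enc h1 h2) (kfc33_51.enc h1 h2))) h2)))) (kfc33_105.enc h1 h2))) (enc_norm (enc_sub (kfc33_9.enc h1 h2) (kfc33_68.enc h1 h2))))) (enc_inv (enc_sub (kfc33_6.enc h1 h2) (kfc33_68.enc h1 h2))))) (enc_mul (enc_norm (kfc33_9.enc h1 h2)) (enc_norm (enc_case (enc_sub (enc_rat _ 367494643 500000000) h1) (enc_add (enc_subr 344077346601670081 266647742500000000 (enc_scale 867203067 533295485 h1)) (enc_mul (enc_norm (kfc33_11.enc h1 h2)) (enc_norm (enc_subr 3976839476488311757 53329548500000000 (enc_scale 9377144799 106659097 h1))))) (enc_sub (enc_sub (enc_rat _ 1 2) (enc_scale 297600000 367494643 h1)) (enc_mul (enc_norm (kfc33_11.enc h1 h2)) (enc_scale 4976500000 367494643 h1)))))))))⟩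
noncomputable def lc33_6 : Fn2 := ⟨_, _, fun h1 h2 => (enc_subr 1 2 (swg.enc (ycg.enc h1)))⟩
noncomputable def lc33_9 : Fn2 := ⟨_, _, fun h1 h2 => (enc_add (enc_scale 4 5 (lc33_6.enc h1 h2)) (enc_scale 1 5 h1))⟩
noncomputable def lc33_11 : Fn2 := ⟨_, _, fun h1 h2 => (enc_subr 14173 20000 h2)⟩
noncomputable def lc33_13 : Fn2 := ⟨_, _, fun h1 h2 => (enc_subr 389 250 (ycg.enc h1))⟩
noncomputable def lc33_50 : Fn2 := ⟨_, _, fun h1 h2 => (enc_sq (enc_norm (lc33_11.enc h1 h2)))⟩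
noncomputable def lc33_85 : Fn2 := ⟨_, _, fun h1 h2 => (enc_subn 1 (ycg.enc h1))⟩
noncomputable def lc33_98 : Fn2 := ⟨_, _, fun h1 h2 => (cv2r.enc (ycg.enc h1))⟩
noncomputable def lc33_100 : Fn2 := ⟨_, _, fun h1 h2 => (enc_subr 417 250 (ycg.enc h1))⟩
noncomputable def lc33_123 : Fn2 := ⟨_, _, fun h1 h2 => (enc_subr 437 250 (ycg.enc h1))⟩
noncomputable def lc33_145 : Fn2 := ⟨_, _, fun h1 h2 => (enc_mul (lc33_98.enc h1 h2) (enc_norm (enc_case (lc33_100.enc h1 h2) (enc_case (lc33_13.enc h1 h2) (enc_add (enc_subr 251277 140000 (enc_scale 759 560 (ycg.enc h1))) (enc_mul (enc_norm (lc33_11.enc h1 h2)) (enc_norm (enc_sub (enc_rat _ 1007499 14000) (enc_scale 2701 56 (ycg.enc h1)))))) (enc_add (enc_subr 100433 56000 (enc_scale 1517 1120 (ycg.enc h1))) (enc_mul (enc_norm (lc33_11.enc h1 h2)) (enc_norm (enc_subr 517003 28000 (enc_scale 1107 112 (ycg.enc h1))))))) (enc_case (lc33_123.enc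 h1 h2) (enc_add (enc_subr 89717 50000 (enc_scale 271 200 (ycg.enc h1))) (enc_mul (enc_norm (lc33_11.enc h1 h2)) (enc_norm (enc_subr 369407 20000 (enc_scale 791 80 (ycg.enc h1)))))) (enc_add (enc_add (enc_scale 80600000 280549461 h1) (enc_rat _ 831 2500)) (enc_mul (enc_norm (lc33_11.enc h1 h2)) (enc_norm (enc_sub (enc_rat _ 8121 500) (enc_scale 17429000000 841648383 h1)))))))))⟩
noncomputable def lc33 : Fn2 := ⟨_, _, fun h1 h2 => (enc_norm (enc_case (lc33_100.enc h1 h2) (enc_mul (enc_norm (lc33_9.enc h1 h2)) (enc_norm (enc_case (lc33_13.enc h1 h2) (enc_add (enc_subr 205033 140000 (enc_scale 123 112 (ycg.enc h1))) (enc_mul (enc_norm (lc33_11.enc h1 h2)) (enc_norm (enc_sub (enc_rat _ 338 125) (enc_scale 3 2 (ycg.enc h1)))))) (enc_case (enc_subr 403 250 (ycg.enc h1)) (enc_add (enc_subr 14673 10000 (enc_scale 11 10 (ycg.enc h1))) (enc_mul (enc_norm (lc33_11.enc h1 h2)) (enc_norm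 (enc_sub (enc_rat _ 20351 14000) (enc_scale 39 56 (ycg.enc h1)))))) (enc_add (enc_add (enc_subr 10072312909 10000000000 (enc_scale 32583903 40000000 (ycg.enc h1))) (enc_mul (enc_norm (lc33_11.enc h1 h2)) (enc_norm (enc_subr 54898516691 3500000000 (enc_scale 139099297 14000000 (ycg.enc h1)))))) (enc_mul (lc33_50.enc h1 h2) (enc_norm (enc_subr 480626263 14000000 (enc_scale 1192621 56000 (ycg.enc h1)))))))))) (enc_case (lc33_123.enc h1 h2) (enc_add (lc33_145.enc h1 h2) (enc_mul (enc_norm (enc_mul (enc_norm (enc_sub (enc_sub (qsg.enc (enc_norm (lc33_85.enc h1 h2))) (enc_mul (enc_norm (enc_nat 2 (enc_sub (lc33_85.enc h1 h2) h2))) (enc_norm (enc_mul (esg.enc (enc_norm (lc33_85.enc h1 h2))) (kcg.enc (enc_norm (enc_sub (enc_scale 3 4 (lc33_85.enc h1 h2)) (enc_half (gsg.enc (enc_norm (lc33_85.enc h1 h2)))))) h2))))) (lc33_145.enc h1 h2))) (enc_norm (enc_sub (lc33_9.enc h1 h2) (lc33_98.enc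 h1 h2))))) (enc_inv (enc_sub (lc33_6.enc h1 h2) (lc33_98.enc h1 h2))))) (enc_mul (enc_norm (lc33_9.enc h1 h2)) (enc_norm (enc_case (enc_sub (enc_rat _ 367494643 500000000) h1) (enc_add (enc_add (enc_sub (enc_rat _ 457942409621143117 533295485000000000) (enc_scale 547964319 1066590970 h1)) (enc_mul (enc_norm (lc33_11.enc h1 h2)) (enc_norm (enc_add (enc_scale 64390881 106659097 h1) (enc_rat _ 15693902967449517 53329548500000000))))) (enc_mul (lc33_50.enc h1 h2) (enc_norm (enc_subr 20641439108024 1666548390625 (enc_scale 1797376000 106659097 h1))))) (enc_add (enc_add (enc_scale 58903400 367494643 h1) (enc_rat _ 908233 2500000)) (enc_mul (enc_norm (lc33_11.enc h1 h2)) (enc_norm (enc_sub (enc_rat _ 4729691 2000000) (enc_scale 813422750 367494643 h1)))))))))))⟩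
noncomputable def kcc33_6 : Fn2 := ⟨_, _, fun h1 h2 => (enc_subr 1 2 (swg.enc (ycg.enc h1)))⟩
noncomputable def kcc33_9 : Fn2 := ⟨_, _, fun h1 h2 => (enc_add (enc_scale 4 5 (kcc33_6.enc h1 h2)) (enc_scale 1 5 h1))⟩
noncomputable def kcc33_11 : Fn2 := ⟨_, _, fun h1 h2 => (enc_subr 14173 20000 h2)⟩
noncomputable def kcc33_35 : Fn2 := ⟨_, _, fun h1 h2 => (enc_subn 1 (ycg.enc h1))⟩
noncomputable def kcc33_36 : Fn2 := ⟨_, _, fun h1 h2 => (gsg.enc (enc_norm (kcc33_35.enc h1 h2)))⟩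
noncomputable def kcc33_40 : Fn2 := ⟨_, _, fun h1 h2 => (esg.enc (enc_norm (kcc33_35.enc h1 h2)))⟩
noncomputable def kcc33_45 : Fn2 := ⟨_, _, fun h1 h2 => (gug.enc (enc_norm (kcc33_35.enc h1 h2)))⟩
noncomputable def kcc33_47 : Fn2 := ⟨_, _, fun h1 h2 => (enc_mul (enc_norm (kcc33_35.enc h1 h2)) (enc_inv (kcc33_36.enc h1 h2)))⟩
noncomputable def kcc33_48 : Fn2 := ⟨_, _, fun h1 h2 => (enc_scale 3 4 (kcc33_47.enc h1 h2))⟩
noncomputable def kcc33_73 : Fn2 := ⟨_, _, fun h1 h2 => (cv2r.enc (ycg.enc h1))⟩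
noncomputable def kcc33_75 : Fn2 := ⟨_, _, fun h1 h2 => (enc_subr 417 250 (ycg.enc h1))⟩
noncomputable def kcc33_87 : Fn2 := ⟨_, _, fun h1 h2 => (enc_subr 437 250 (ycg.enc h1))⟩
noncomputable def kcc33_110 : Fn2 := ⟨_, _, fun h1 h2 => (enc_mul (kcc33_73.enc h1 h2) (enc_norm (enc_case (kcc33_75.enc h1 h2) (enc_add (enc_subr 76361 7000 (enc_scale 7531 840 (ycg.enc h1))) (enc_mul (enc_norm (kcc33_11.enc h1 h2)) (enc_norm (enc_sub (enc_rat _ 34481 350) (enc_scale 2495 42 (ycg.enc h1)))))) (enc_case (kcc33_87.enc h1 h2) (enc_add (enc_subr 136349 12500 (enc_scale 1793 200 (ycg.enc h1))) (enc_mul (enc_norm (kcc33_11.enc h1 h2)) (enc_norm (enc_sub (enc_rat _ 1970601 20000) (enc_scale 4753 80 (ycg.enc h1)))))) (enc_add (enc_subr 7777 5000 (enc_scale 2106100000 280549461 h1)) (enc_mul (enc_norm (kcc33_11.enc h1 h2)) (enc_norm (enc_subr 8184 125 (enc_scale 60149000000 841648383 h1)))))))))⟩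
noncomputable def kcc33 : Fn2 := ⟨_, _, fun h1 h2 => (enc_norm (enc_case (kcc33_75.enc h1 h2) (enc_mul (enc_norm (kcc33_9.enc h1 h2)) (enc_norm (enc_add (enc_subr 21812481273 1120000000 (enc_scale 22898657273 1680000000 (ycg.enc h1))) (enc_mul (enc_norm (kcc33_11.enc h1 h2)) (enc_norm (enc_sub (enc_rat _ 30333986887 56000000) (enc_scale 9184379629 28000000 (ycg.enc h1)))))))) (enc_case (kcc33_87.enc h1 h2) (enc_add (kcc33_110.enc h1 h2) (enc_mul (enc_norm (enc_mul (enc_norm (enc_sub (enc_add (enc_sub (enc_add (enc_add (enc_rat _ 3 4) (enc_scale 3 2 (kcc33_35.enc h1 h2))) (enc_scale 3 4 (enc_mul (enc_norm (kcc33_47.enc h1 h2)) (kcc33_45.enc h1 h2)))) (enc_mul (enc_norm (enc_sub (enc_mul (enc_norm (enc_mul (enc_norm (kcc33_48.enc h1 h2)) (enc_norm (enc_subn 3 (enc_nat 4 (kcc33_36.enc h1 h2)))))) (kcc33_40.enc h1 h2)) (enc_mul (qsg.enc (enc_norm (kcc33_35.enc h1 h2))) (enc_norm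 (enc_sub (enc_rat _ 1 2) (kcc33_48.enc h1 h2)))))) (enc_inv (enc_mul (enc_nat 2 (kcc33_40.enc h1 h2)) (kcc33_40.enc h1 h2))))) (enc_mul (kcg.enc (enc_norm (enc_sub (enc_scale 3 4 (kcc33_35.enc h1 h2)) (enc_half (kcc33_36.enc h1 h2)))) h2) (enc_norm (enc_sub (enc_pnc _ 1) (enc_add (kcc33_45.enc h1 h2) (enc_nat 2 (kcc33_36.enc h1 h2))))))) (kcc33_110.enc h1 h2))) (enc_norm (enc_sub (kcc33_9.enc h1 h2) (kcc33_73.enc h1 h2))))) (enc_inv (enc_sub (kcc33_6.enc h1 h2) (kcc33_73.enc h1 h2))))) (enc_mul (enc_norm (kcc33_9.enc h1 h2)) (enc_norm (enc_add (enc_subr 3343 3340 (enc_scale 1646487962483 281110559922 h1)) (enc_mul (enc_norm (kcc33_11.enc h1 h2)) (enc_norm (enc_subr 18465 334 (enc_scale 879119755249 15617253329 h1))))))))))⟩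
noncomputable def cv4m : Fn1 := ⟨_, _, fun h1 => (enc_norm (enc_add (enc_scale 2 5 (enc_add (swg.enc h1) (enc_rat _ 1 2))) (enc_scale 3 5 (c3g.enc h1))))⟩
noncomputable def bf4q0_3 : Fn2 := ⟨_, _, fun h1 h2 => (enc_subr 14173 20000 h2)⟩
noncomputable def bf4q0 : Fn2 := ⟨_, _, fun h1 h2 => (enc_norm (enc_case (enc_subr 83 250 h1) (enc_add (enc_sub (enc_rat _ 1053 2500) (enc_scale 2219 1660 h1)) (enc_mul (enc_norm (bf4q0_3.enc h1 h2)) (enc_norm (enc_subr 173 1000 (enc_scale 53 83 h1))))) (enc_add (enc_sub (enc_rat _ 29711 42000) (enc_scale 1847 840 h1)) (enc_mul (enc_norm (bf4q0_3.enc h1 h2)) (enc_norm (enc_subr 179 1050 (enc_scale 53 84 h1)))))))⟩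
noncomputable def kf4q0 : Fn2 := ⟨_, _, fun h1 h2 => (enc_norm (enc_mul (cv4m.enc h1) (bf4q0.enc h1 h2)))⟩
noncomputable def bx4q0_3 : Fn2 := ⟨_, _, fun h1 h2 => (enc_subr 14173 20000 h2)⟩
noncomputable def bx4q0 : Fn2 := ⟨_, _, fun h1 h2 => (enc_norm (enc_case (enc_subr 189 1000 h1) (enc_add (enc_sub (enc_rat _ 399 2500) (enc_scale 17 126 h1)) (enc_mul (enc_norm (bx4q0_3.enc h1 h2)) (enc_norm (enc_sub (enc_rat _ 19 200) (enc_scale 325 189 h1))))) (enc_case (enc_subr 83 250 h1) (enc_add (enc_sub (enc_rat _ 240147 1430000) (enc_scale 128 715 h1)) (enc_mul (enc_norm (bx4q0_3.enc h1 h2)) (enc_norm (enc_subr 44039 71500 (enc_scale 292 143 h1))))) (enc_add (enc_sub (enc_rat _ 23241 140000) (enc_scale 97 560 h1)) (enc_mul (enc_norm (bx4q0_3.enc h1 h2)) (enc_norm (enc_subr 1871 14000 (enc_scale 33 56 h1))))))))⟩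
noncomputable def l4q0 : Fn2 := ⟨_, _, fun h1 h2 => (enc_norm (enc_mul (cv4m.enc h1) (bx4q0.enc h1 h2)))⟩
noncomputable def bd4q0_3 : Fn2 := ⟨_, _, fun h1 h2 => (enc_subr 14173 20000 h2)⟩
noncomputable def bd4q0 : Fn2 := ⟨_, _, fun h1 h2 => (enc_norm (enc_case (enc_subr 63 250 h1) (enc_add (enc_subr 22013 10000 (enc_scale 209 840 h1)) (enc_mul (enc_norm (bd4q0_3.enc h1 h2)) (enc_norm (enc_sub (enc_rat _ 1213 500) (enc_scale 85 18 h1))))) (enc_add (enc_subr 355793 124000 (enc_scale 7191 2480 h1)) (enc_mul (enc_norm (bd4q0_3.enc h1 h2)) (enc_norm (enc_subr 66693 62000 (enc_scale 2275 248 h1)))))))⟩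
noncomputable def kc4q0 : Fn2 := ⟨_, _, fun h1 h2 => (enc_norm (enc_mul (cv4m.enc h1) (bd4q0.enc h1 h2)))⟩
noncomputable def bf4q1_3 : Fn2 := ⟨_, _, fun h1 h2 => (enc_subr 14173 20000 h2)⟩
noncomputable def bf4q1 : Fn2 := ⟨_, _, fun h1 h2 => (enc_norm (enc_case (enc_subr 83 125 h1) (enc_add (enc_subr 16879 102500 (enc_scale 971 820 h1)) (enc_mul (enc_norm (bf4q1_3.enc h1 h2)) (enc_norm (enc_subr 3651 41000 (enc_neg (enc_scale 81 164 h1)))))) (enc_case (enc_subr 207 250 h1) (enc_add (enc_subr 33841 205000 (enc_scale 1943 1640 h1)) (enc_mul (enc_norm (bf4q1_3.enc h1 h2)) (enc_norm (enc_subr 47807 41000 (enc_scale 185 164 h1))))) (enc_add (enc_subr 121 1720 (enc_scale 1841 1720 h1)) (enc_mul (enc_norm (bf4q1_3.enc h1 h2)) (enc_norm (enc_subr 58 43 (enc_scale 58 43 h1))))))))⟩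
noncomputable def kf4q1 : Fn2 := ⟨_, _, fun h1 h2 => (enc_norm (enc_mul (cv4m.enc h1) (bf4q1.enc h1 h2)))⟩
noncomputable def bx4q1_3 : Fn2 := ⟨_, _, fun h1 h2 => (enc_subr 14173 20000 h2)⟩
noncomputable def bx4q1 : Fn2 := ⟨_, _, fun h1 h2 => (enc_norm (enc_case (enc_subr 719 1000 h1) (enc_case (enc_subr 111 200 h1) (enc_add (enc_sub (enc_rat _ 9167 55000) (enc_scale 48 275 h1)) (enc_mul (enc_norm (bx4q1_3.enc h1 h2)) (enc_norm (enc_sub (enc_rat _ 2971 11000) (enc_scale 12 55 h1))))) (enc_add (enc_sub (enc_rat _ 68023 410000) (enc_scale 71 410 h1)) (enc_mul (enc_norm (bx4q1_3.enc h1 h2)) (enc_norm (enc_sub (enc_rat _ 48301 164000) (enc_scale 43 164 h1)))))) (enc_case (enc_subr 15 16 h1) (enc_add (enc_sub (enc_rat _ 164943 1092500) (enc_scale 333 2185 h1)) (enc_mul (enc_norm (bx4q1_3.enc h1 h2)) (enc_norm (enc_sub (enc_rat _ 2537 8740) (enc_scale 112 437 h1))))) (enc_add (enc_sub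 (enc_rat _ 81 625) (enc_scale 81 625 h1)) (enc_mul (enc_norm (bx4q1_3.enc h1 h2)) (enc_norm (enc_sub (enc_rat _ 4 5) (enc_scale 4 5 h1))))))))⟩
noncomputable def l4q1 : Fn2 := ⟨_, _, fun h1 h2 => (enc_norm (enc_mul (cv4m.enc h1) (bx4q1.enc h1 h2)))⟩
noncomputable def bd4q1 : Fn2 := ⟨_, _, fun h1 h2 => (enc_norm (enc_add (enc_subr 2839 1000 (enc_scale 2839 1000 h1)) (enc_mul (enc_norm (enc_subr 14173 20000 h2)) (enc_norm (enc_sub (enc_rat _ 3511 500) (enc_scale 3511 500 h1))))))⟩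
noncomputable def kc4q1 : Fn2 := ⟨_, _, fun h1 h2 => (enc_norm (enc_mul (cv4m.enc h1) (bd4q1.enc h1 h2)))⟩
noncomputable def cv4p : Fn1 := ⟨_, _, fun h1 => (enc_norm (enc_add (enc_scale 2 5 (enc_subr 1 2 (swg.enc h1))) (enc_scale 3 5 (c3g.enc h1))))⟩
noncomputable def bf4q2_3 : Fn2 := ⟨_, _, fun h1 h2 => (enc_subr 14173 20000 h2)⟩
noncomputable def bf4q2 : Fn2 := ⟨_, _, fun h1 h2 => (enc_norm (enc_case (enc_subr 577 500 h1) (enc_add (enc_add (enc_scale 1311 1540 h1) (enc_rat _ 491 96250)) (enc_mul (enc_norm (bf4q2_3.enc h1 h2)) (enc_norm (enc_sub (enc_rat _ 1774181 77000) (enc_scale 1747 77 h1))))) (enc_add (enc_sub (enc_rat _ 5665441 1730000) (enc_scale 3429 1730 h1)) (enc_mul (enc_norm (bf4q2_3.enc h1 h2)) (enc_norm (enc_subr 345389 21625 (enc_scale 3847 346 h1)))))))⟩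
noncomputable def kf4q2 : Fn2 := ⟨_, _, fun h1 h2 => (enc_norm (enc_mul (cv4p.enc h1) (bf4q2.enc h1 h2)))⟩
noncomputable def bx4q2_3 : Fn2 := ⟨_, _, fun h1 h2 => (enc_subr 14173 20000 h2)⟩
noncomputable def bx4q2 : Fn2 := ⟨_, _, fun h1 h2 => (enc_norm (enc_case (enc_subr 127 100 h1) (enc_case (enc_subr 231 200 h1) (enc_add (enc_sub (enc_rat _ 6483 155000) (enc_scale 49 775 h1)) (enc_mul (enc_norm (bx4q2_3.enc h1 h2)) (enc_norm (enc_subr 31314 3875 (enc_scale 1229 155 h1))))) (enc_add (enc_subr 26919 115000 (enc_scale 101 575 h1)) (enc_mul (enc_norm (bx4q2_3.enc h1 h2)) (enc_norm (enc_sub (enc_rat _ 93609 23000) (enc_scale 298 115 h1)))))) (enc_case (enc_subr 166 125 h1) (enc_add (enc_subr 14481 58000 (enc_scale 109 580 h1)) (enc_mul (enc_norm (bx4q2_3.enc h1 h2)) (enc_norm (enc_sub (enc_rat _ 67041 29000) (enc_scale 35 29 h1))))) (enc_case (enc_subr 1443 1000 h1) (enc_add (enc_subr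 447651 1150000 (enc_scale 337 1150 h1)) (enc_mul (enc_norm (bx4q2_3.enc h1 h2)) (enc_norm (enc_sub (enc_rat _ 266127 115000) (enc_scale 139 115 h1))))) (enc_add (enc_subr 82907 95000 (enc_scale 179 285 h1)) (enc_mul (enc_norm (bx4q2_3.enc h1 h2)) (enc_norm (enc_sub (enc_rat _ 44019 19000) (enc_scale 23 19 h1)))))))))⟩
noncomputable def l4q2 : Fn2 := ⟨_, _, fun h1 h2 => (enc_norm (enc_mul (cv4p.enc h1) (bx4q2.enc h1 h2)))⟩
noncomputable def bd4q2 : Fn2 := ⟨_, _, fun h1 h2 => (enc_norm (enc_add (enc_subr 7963 5000 (enc_scale 7489 5000 h1)) (enc_mul (enc_norm (enc_subr 14173 20000 h2)) (enc_norm (enc_subr 24591 500 (enc_scale 6057 125 h1))))))⟩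
noncomputable def kc4q2 : Fn2 := ⟨_, _, fun h1 h2 => (enc_norm (enc_mul (cv4p.enc h1) (bd4q2.enc h1 h2)))⟩
noncomputable def xc43 : Fn1 := ⟨_, _, fun h1 => (enc_norm (enc_add (enc_scale 2 5 (enc_subr 1 2 (swg.enc (ycg.enc h1)))) (enc_scale 3 5 h1)))⟩
noncomputable def kfc43_11 : Fn2 := ⟨_, _, fun h1 h2 => (enc_subr 14173 20000 h2)⟩
noncomputable def kfc43 : Fn2 := ⟨_, _, fun h1 h2 => (enc_norm (enc_mul (enc_norm (enc_add (enc_scale 2 5 (enc_subr 1 2 (swg.enc (ycg.enc h1)))) (enc_scale 3 5 h1))) (enc_norm (enc_case (enc_subr 437 250 (ycg.enc h1)) (enc_case (enc_subr 417 250 (ycg.enc h1)) (enc_add (enc_subr 8051 4000 (enc_scale 281 240 (ycg.enc h1))) (enc_mul (enc_norm (kfc43_11.enc h1 h2)) (enc_norm (enc_sub (enc_rat _ 61137 14000) (enc_scale 449 168 (ycg.enc h1)))))) (enc_add (enc_subr 402689 200000 (enc_scale 937 800 (ycg.enc h1))) (enc_mul (enc_norm (kfc43_11.enc h1 h2))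 (enc_norm (enc_sub (enc_rat _ 17567 4000) (enc_scale 43 16 (ycg.enc h1))))))) (enc_case (enc_sub (enc_rat _ 429616471 1000000000) h1) (enc_add (enc_sub (enc_rat _ 663201519099 2060159560000) (enc_scale 17625000 51503989 h1)) (enc_mul (enc_norm (kfc43_11.enc h1 h2)) (enc_norm (enc_sub (enc_rat _ 668351562291 206015956000) (enc_scale 217250000 51503989 h1))))) (enc_add (enc_sub (enc_rat _ 1 2) (enc_scale 325100000 429616471 h1)) (enc_mul (enc_norm (kfc43_11.enc h1 h2)) (enc_scale 1432000000 429616471 h1))))))))⟩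
noncomputable def lc43_11 : Fn2 := ⟨_, _, fun h1 h2 => (enc_subr 14173 20000 h2)⟩
noncomputable def lc43 : Fn2 := ⟨_, _, fun h1 h2 => (enc_norm (enc_mul (enc_norm (enc_add (enc_scale 2 5 (enc_subr 1 2 (swg.enc (ycg.enc h1)))) (enc_scale 3 5 h1))) (enc_norm (enc_case (enc_subr 437 250 (ycg.enc h1)) (enc_case (enc_subr 417 250 (ycg.enc h1)) (enc_add (enc_subr 61017 70000 (enc_scale 527 840 (ycg.enc h1))) (enc_mul (enc_norm (lc43_11.enc h1 h2)) (enc_norm (enc_sub (enc_rat _ 16257 7000) (enc_scale 17 14 (ycg.enc h1)))))) (enc_add (enc_subr 87187 100000 (enc_scale 251 400 (ycg.enc h1))) (enc_mul (enc_norm (lc43_11.enc h1 h2)) (enc_norm (enc_sub (enc_rat _ 46389 20000) (enc_scale 97 80 (ycg.enc h1))))))) (enc_case (enc_sub (enc_rat _ 151264049 250000000) h1) (enc_add (enc_sub (enc_rat _ 1235745147591 1182960935000) (enc_scale 230400000 236592187 h1)) (enc_mul (enc_norm (lc43_11.enc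 h1 h2)) (enc_norm (enc_add (enc_scale 48000000 236592187 h1) (enc_rat _ 864914377 29574023375))))) (enc_case (enc_sub (enc_rat _ 429616471 1000000000) h1) (enc_add (enc_add (enc_scale 1068000 7017589 h1) (enc_rat _ 318701251659 877198625000)) (enc_mul (enc_norm (lc43_11.enc h1 h2)) (enc_norm (enc_add (enc_scale 1440000 7017589 h1) (enc_rat _ 610601893 21929965625))))) (enc_add (enc_add (enc_scale 65406800 429616471 h1) (enc_rat _ 908233 2500000)) (enc_mul (enc_norm (lc43_11.enc h1 h2)) (enc_norm (enc_sub (enc_rat _ 4729691 2000000) (enc_scale 2248845500 429616471 h1)))))))))))⟩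
noncomputable def kcc43_11 : Fn2 := ⟨_, _, fun h1 h2 => (enc_subr 14173 20000 h2)⟩
noncomputable def kcc43 : Fn2 := ⟨_, _, fun h1 h2 => (enc_norm (enc_mul (enc_norm (enc_add (enc_scale 2 5 (enc_subr 1 2 (swg.enc (ycg.enc h1)))) (enc_scale 3 5 h1))) (enc_norm (enc_case (enc_subr 417 250 (ycg.enc h1)) (enc_add (enc_subr 98919 35000 (enc_scale 1949 840 (ycg.enc h1))) (enc_mul (enc_norm (kcc43_11.enc h1 h2)) (enc_norm (enc_sub (enc_rat _ 93501 500) (enc_nat 109 (ycg.enc h1)))))) (enc_case (enc_subr 437 250 (ycg.enc h1)) (enc_add (enc_subr 141293 50000 (enc_scale 58 25 (ycg.enc h1))) (enc_mul (enc_norm (kcc43_11.enc h1 h2)) (enc_norm (enc_sub (enc_rat _ 3740457 20000) (enc_scale 8721 80 (ycg.enc h1)))))) (enc_add (enc_subr 3343 3340 (enc_scale 372476500000 140555279961 h1)) (enc_mul (enc_norm (kcc43_11.enc h1 h2)) (enc_norm (enc_subr 18465 334 (enc_scale 2880941000000 46851759987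 h1))))))))))⟩
noncomputable def kf5q0 : Fn2 := ⟨_, _, fun h1 h2 => (enc_norm (enc_sub (enc_mul h1 (kcg.enc (enc_half h1) h2)) (enc_mul (enc_norm (enc_mul (enc_sq h1) (enc_norm (enc_add (c3g.enc h1) (enc_rat _ 3 2))))) (enc_inv (enc_mul (enc_norm (enc_sub (enc_pnc _ 1) h1)) (enc_norm (enc_add (enc_pnc _ 1) h1)))))))⟩
noncomputable def l5q0_6 : Fn2 := ⟨_, _, fun h1 h2 => (enc_half h1)⟩
noncomputable def l5q0_7 : Fn2 := ⟨_, _, fun h1 h2 => (enc_half (c3g.enc h1))⟩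
noncomputable def l5q0_8 : Fn2 := ⟨_, _, fun h1 h2 => (enc_scale 1 4 h1)⟩
noncomputable def l5q0 : Fn2 := ⟨_, _, fun h1 h2 => (enc_norm (enc_add (txg.enc (l5q0_6.enc h1 h2) (enc_norm (enc_sub (l5q0_7.enc h1 h2) (l5q0_8.enc h1 h2))) h2) (txg.enc (enc_neg (l5q0_6.enc h1 h2)) (enc_norm (enc_add (l5q0_7.enc h1 h2) (l5q0_8.enc h1 h2))) h2)))⟩
noncomputable def kc5q0_3 : Fn2 := ⟨_, _, fun h1 h2 => (enc_subr 14173 20000 h2)⟩
noncomputable def kc5q0_6 : Fn2 := ⟨_, _, fun h1 h2 => (enc_half h1)⟩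
noncomputable def kc5q0 : Fn2 := ⟨_, _, fun h1 h2 => (enc_norm (enc_case (enc_subr 167 1000 (kc5q0_6.enc h1 h2)) (enc_add (enc_subr 5511 1000 (enc_scale 6353 835 h1)) (enc_mul (enc_norm (kc5q0_3.enc h1 h2)) (enc_norm (enc_sub (enc_rat _ 6097 1000) (enc_scale 4665 167 h1))))) (enc_case (enc_subr 333 1000 (kc5q0_6.enc h1 h2)) (enc_add (enc_subr 1829691 332000 (enc_scale 25261 3320 h1)) (enc_mul (enc_norm (kc5q0_3.enc h1 h2)) (enc_norm (enc_sub (enc_rat _ 12651 2075) (enc_scale 4637 166 h1))))) (enc_add (enc_subr 4437 3340 (enc_scale 4437 3340 h1)) (enc_mul (enc_norm (kc5q0_3.enc h1 h2)) (enc_norm (enc_subr 12507 334 (enc_scale 12507 334 h1))))))))⟩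
noncomputable def kf5q1 : Fn2 := ⟨_, _, fun h1 h2 => (enc_norm (enc_add (enc_mul (enc_norm (enc_mul h1 (enc_norm (enc_add (c3g.enc h1) (enc_rat _ 3 2))))) (enc_inv (enc_add (enc_pnc _ 1) h1))) (enc_mul (enc_norm (enc_subn 1 h1)) (kcg.enc (enc_half h1) h2))))⟩
noncomputable def l5q1_7 : Fn2 := ⟨_, _, fun h1 h2 => (enc_half h1)⟩
noncomputable def l5q1_8 : Fn2 := ⟨_, _, fun h1 h2 => (enc_half (c3g.enc h1))⟩
noncomputable def l5q1_9 : Fn2 := ⟨_, _, fun h1 h2 => (enc_scale 1 4 h1)⟩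
noncomputable def l5q1 : Fn2 := ⟨_, _, fun h1 h2 => (enc_norm (enc_add (txg.enc (l5q1_7.enc h1 h2) (enc_norm (enc_sub (l5q1_8.enc h1 h2) (l5q1_9.enc h1 h2))) h2) (txg.enc (enc_neg (l5q1_7.enc h1 h2)) (enc_norm (enc_add (l5q1_8.enc h1 h2) (l5q1_9.enc h1 h2))) h2)))⟩
noncomputable def kc5q1_3 : Fn2 := ⟨_, _, fun h1 h2 => (enc_subr 14173 20000 h2)⟩
noncomputable def kc5q1_7 : Fn2 := ⟨_, _, fun h1 h2 => (enc_half h1)⟩
noncomputable def kc5q1 : Fn2 := ⟨_, _, fun h1 h2 => (enc_norm (enc_case (enc_subr 167 1000 (kc5q1_7.enc h1 h2)) (enc_add (enc_subr 5511 1000 (enc_scale 6353 835 h1)) (enc_mul (enc_norm (kc5q1_3.enc h1 h2)) (enc_norm (enc_sub (enc_rat _ 6097 1000) (enc_scale 4665 167 h1))))) (enc_case (enc_subr 333 1000 (kc5q1_7.enc h1 h2)) (enc_add (enc_subr 1829691 332000 (enc_scale 25261 3320 h1)) (enc_mul (enc_norm (kc5q1_3.enc h1 h2)) (enc_norm (enc_sub (enc_rat _ 12651 2075)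 (enc_scale 4637 166 h1))))) (enc_add (enc_subr 4437 3340 (enc_scale 4437 3340 h1)) (enc_mul (enc_norm (kc5q1_3.enc h1 h2)) (enc_norm (enc_subr 12507 334 (enc_scale 12507 334 h1))))))))⟩
noncomputable def kf5q2 : Fn2 := ⟨_, _, fun h1 h2 => (enc_norm (enc_add (enc_mul (enc_norm (enc_mul (enc_norm (enc_sub (enc_nat 2 (c3g.enc h1)) h1)) (enc_norm (enc_sub (enc_add (c3g.enc h1) (enc_pnc _ 3)) (enc_scale 3 2 h1))))) (enc_inv (enc_nat 4 (enc_sub (enc_pnc _ 2) h1)))) (enc_mul (enc_norm (enc_subn 1 h1)) (kcg.enc (enc_norm (enc_sub (enc_scale 1 4 h1) (enc_half (c3g.enc h1)))) h2))))⟩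
noncomputable def l5q2_7 : Fn2 := ⟨_, _, fun h1 h2 => (enc_half (c3g.enc h1))⟩
noncomputable def l5q2_8 : Fn2 := ⟨_, _, fun h1 h2 => (enc_scale 1 4 h1)⟩
noncomputable def l5q2_9 : Fn2 := ⟨_, _, fun h1 h2 => (enc_sub (l5q2_7.enc h1 h2) (l5q2_8.enc h1 h2))⟩
noncomputable def l5q2_12 : Fn2 := ⟨_, _, fun h1 h2 => (enc_add (enc_scale 1 4 (c3g.enc h1)) (enc_scale 3 8 h1))⟩
noncomputable def l5q2_14 : Fn2 := ⟨_, _, fun h1 h2 => (enc_half (l5q2_9.enc h1 h2))⟩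
noncomputable def l5q2 : Fn2 := ⟨_, _, fun h1 h2 => (enc_norm (enc_sub (enc_nat 2 (txg.enc (enc_norm (enc_sub (l5q2_8.enc h1 h2) (l5q2_7.enc h1 h2))) (enc_norm (enc_add (l5q2_12.enc h1 h2) (l5q2_14.enc h1 h2))) h2)) (txg.enc (enc_norm (l5q2_9.enc h1 h2)) (enc_norm (enc_sub (l5q2_12.enc h1 h2) (l5q2_14.enc h1 h2))) h2)))⟩
noncomputable def kc5q2_3 : Fn2 := ⟨_, _, fun h1 h2 => (enc_subr 14173 20000 h2)⟩
noncomputable def kc5q2_9 : Fn2 := ⟨_, _, fun h1 h2 => (enc_sub (enc_half (c3g.enc h1)) (enc_scale 1 4 h1))⟩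
noncomputable def kc5q2_32 : Fn2 := ⟨_, _, fun h1 h2 => (enc_scale 8957 166 (kc5q2_9.enc h1 h2))⟩
noncomputable def kc5q2_46 : Fn2 := ⟨_, _, fun h1 h2 => (enc_add (enc_add (enc_scale 921 835 (kc5q2_9.enc h1 h2)) (enc_rat _ 33 1000)) (enc_mul (enc_norm (kc5q2_3.enc h1 h2)) (enc_norm (enc_subr 249 500 (enc_scale 9010 167 (kc5q2_9.enc h1 h2))))))⟩
noncomputable def kc5q2 : Fn2 := ⟨_, _, fun h1 h2 => (enc_norm (enc_case (kc5q2_9.enc h1 h2) (enc_case (enc_add (kc5q2_9.enc h1 h2) (enc_rat _ 333 1000)) (enc_add (enc_subr 3343 3340 (enc_neg (enc_scale 3343 1670 (kc5q2_9.enc h1 h2)))) (enc_mul (enc_norm (kc5q2_3.enc h1 h2)) (enc_norm (enc_subr 18465 334 (enc_neg (enc_scale 18465 167 (kc5q2_9.enc h1 h2))))))) (enc_case (enc_add (kc5q2_9.enc h1 h2) (enc_rat _ 167 1000)) (enc_add (enc_add (enc_scale 1831 1660 (kc5q2_9.enc h1 h2)) (enc_rat _ 10957 332000)) (enc_mul (enc_norm (kc5q2_3.enc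 h1 h2)) (enc_norm (enc_subr 82509 166000 (kc5q2_32.enc h1 h2))))) (kc5q2_46.enc h1 h2))) (enc_case (enc_subr 167 1000 (kc5q2_9.enc h1 h2)) (kc5q2_46.enc h1 h2) (enc_case (enc_subr 333 1000 (kc5q2_9.enc h1 h2)) (enc_add (enc_add (enc_scale 458 415 (kc5q2_9.enc h1 h2)) (enc_rat _ 3413 103750)) (enc_mul (enc_norm (kc5q2_3.enc h1 h2)) (enc_norm (enc_subr 82827 166000 (kc5q2_32.enc h1 h2))))) (enc_add (enc_sub (enc_rat _ 1001 835) (enc_scale 2002 835 (kc5q2_9.enc h1 h2))) (enc_mul (enc_norm (kc5q2_3.enc h1 h2)) (enc_norm (enc_sub (enc_rat _ 17469 334) (enc_scale 17469 167 (kc5q2_9.enc h1 h2))))))))))⟩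
noncomputable def kfc53 : Fn2 := ⟨_, _, fun h1 h2 => (enc_norm (enc_sub (enc_mul (enc_norm (enc_subn 2 (ycg.enc h1))) (kcg.enc (enc_norm (enc_sub (enc_scale 1 4 (ycg.enc h1)) (enc_half h1))) h2)) (enc_mul (enc_norm (enc_mul (enc_norm (enc_sub (enc_nat 2 h1) (ycg.enc h1))) (enc_norm (enc_sub (enc_add h1 (enc_pnc _ 3)) (enc_scale 3 2 (ycg.enc h1)))))) (enc_inv (enc_nat 4 (enc_subn 1 (ycg.enc h1)))))))⟩
noncomputable def lc53_7 : Fn2 := ⟨_, _, fun h1 h2 => (enc_half h1)⟩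
noncomputable def lc53_8 : Fn2 := ⟨_, _, fun h1 h2 => (enc_scale 1 4 (ycg.enc h1))⟩
noncomputable def lc53_9 : Fn2 := ⟨_, _, fun h1 h2 => (enc_sub (lc53_7.enc h1 h2) (lc53_8.enc h1 h2))⟩
noncomputable def lc53_12 : Fn2 := ⟨_, _, fun h1 h2 => (enc_add (enc_scale 1 4 h1) (enc_scale 3 8 (ycg.enc h1)))⟩
noncomputable def lc53_14 : Fn2 := ⟨_, _, fun h1 h2 => (enc_half (lc53_9.enc h1 h2))⟩
noncomputable def lc53 : Fn2 := ⟨_, _, fun h1 h2 => (enc_norm (enc_sub (enc_nat 2 (txg.enc (enc_norm (enc_sub (lc53_8.enc h1 h2) (lc53_7.enc h1 h2))) (enc_norm (enc_add (lc53_12.enc h1 h2) (lc53_14.enc h1 h2))) h2)) (txg.enc (enc_norm (lc53_9.enc h1 h2)) (enc_norm (enc_sub (lc53_12.enc h1 h2) (lc53_14.enc h1 h2))) h2)))⟩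
noncomputable def kcc53_4 : Fn2 := ⟨_, _, fun h1 h2 => (enc_subr 14173 20000 h2)⟩
noncomputable def kcc53_9 : Fn2 := ⟨_, _, fun h1 h2 => (enc_sub (enc_half h1) (enc_scale 1 4 (ycg.enc h1)))⟩
noncomputable def kcc53_32 : Fn2 := ⟨_, _, fun h1 h2 => (enc_scale 8957 166 (kcc53_9.enc h1 h2))⟩
noncomputable def kcc53_46 : Fn2 := ⟨_, _, fun h1 h2 => (enc_add (enc_add (enc_scale 921 835 (kcc53_9.enc h1 h2)) (enc_rat _ 33 1000)) (enc_mul (enc_norm (kcc53_4.enc h1 h2)) (enc_norm (enc_subr 249 500 (enc_scale 9010 167 (kcc53_9.enc h1 h2))))))⟩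
noncomputable def kcc53 : Fn2 := ⟨_, _, fun h1 h2 => (enc_norm (enc_case (kcc53_9.enc h1 h2) (enc_case (enc_add (kcc53_9.enc h1 h2) (enc_rat _ 333 1000)) (enc_add (enc_subr 3343 3340 (enc_neg (enc_scale 3343 1670 (kcc53_9.enc h1 h2)))) (enc_mul (enc_norm (kcc53_4.enc h1 h2)) (enc_norm (enc_subr 18465 334 (enc_neg (enc_scale 18465 167 (kcc53_9.enc h1 h2))))))) (enc_case (enc_add (kcc53_9.enc h1 h2) (enc_rat _ 167 1000)) (enc_add (enc_add (enc_scale 1831 1660 (kcc53_9.enc h1 h2)) (enc_rat _ 10957 332000)) (enc_mul (enc_norm (kcc53_4.enc h1 h2)) (enc_norm (enc_subr 82509 166000 (kcc53_32.enc h1 h2))))) (kcc53_46.enc h1 h2))) (enc_case (enc_subr 167 1000 (kcc53_9.enc h1 h2)) (kcc53_46.enc h1 h2) (enc_case (enc_subr 333 1000 (kcc53_9.enc h1 h2)) (enc_add (enc_add (enc_scale 458 415 (kcc53_9.enc h1 h2)) (enc_rat _ 3413 103750)) (enc_mul (enc_norm (kcc53_4.enc h1 h2)) (enc_norm (enc_subr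 82827 166000 (kcc53_32.enc h1 h2))))) (enc_add (enc_sub (enc_rat _ 1001 835) (enc_scale 2002 835 (kcc53_9.enc h1 h2))) (enc_mul (enc_norm (kcc53_4.enc h1 h2)) (enc_norm (enc_sub (enc_rat _ 17469 334) (enc_scale 17469 167 (kcc53_9.enc h1 h2))))))))))⟩
noncomputable def lm4m : Fn2 := ⟨_, _, fun h1 h2 => (enc_lam (enc_norm (enc_sub h1 (cv4m.enc h2))) (enc_sub (c3g.enc h2) (cv4m.enc h2)))⟩
noncomputable def lm3m : Fn2 := ⟨_, _, fun h1 h2 => (enc_lam (enc_norm (enc_sub h1 (cv3m.enc h2))) (enc_sub (cv4m.enc h2) (cv3m.enc h2)))⟩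
noncomputable def bf3q0_3 : Fn2 := ⟨_, _, fun h1 h2 => (enc_subr 14173 20000 h2)⟩
noncomputable def bf3q0 : Fn2 := ⟨_, _, fun h1 h2 => (enc_norm (enc_case (enc_subr 73 250 h1) (enc_case (enc_subr 189 1000 h1) (enc_add (enc_sub (enc_rat _ 8133 10000) (enc_scale 3541 1890 h1)) (enc_mul (enc_norm (bf3q0_3.enc h1 h2)) (enc_norm (enc_subr 211 500 (enc_scale 1369 189 h1))))) (enc_add (enc_sub (enc_rat _ 1167406993 1250000000) (enc_scale 197802331 78750000 h1)) (enc_mul (enc_norm (bf3q0_3.enc h1 h2)) (enc_norm (enc_sub (enc_rat _ 4830139313 1000000000) (enc_scale 1294379771 63000000 h1)))))) (enc_add (enc_sub (enc_rat _ 328172807 280000000) (enc_scale 427712807 140000000 h1)) (enc_mul (enc_norm (bf3q0_3.enc h1 h2)) (enc_norm (enc_subr 7290887 8000000 (enc_scale 8282887 4000000 h1)))))))⟩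
noncomputable def lm2m : Fn2 := ⟨_, _, fun h1 h2 => (enc_lam (enc_norm (enc_sub h1 (cv2m.enc h2))) (enc_sub (cv3m.enc h2) (cv2m.enc h2)))⟩
noncomputable def lm1m : Fn2 := ⟨_, _, fun h1 h2 => (enc_lam (enc_norm (enc_sub h1 (cv1m.enc h2))) (enc_sub (cv2m.enc h2) (cv1m.enc h2)))⟩
noncomputable def lm0m : Fn2 := ⟨_, _, fun h1 h2 => (enc_lam (enc_norm (enc_sub h1 (c1g.enc h2))) (enc_sub (cv1m.enc h2) (c1g.enc h2)))⟩
noncomputable def rkbq0_36 : Fn3 := ⟨_, _, fun h1 h2 h3 => (enc_add (enc_mul h1 (bf3q0.enc h2 h3)) (enc_mul (enc_norm (enc_mul (enc_norm (enc_sub (enc_pnc _ 1) (lm2m.enc h1 h2))) (cv2m.enc h2))) (enc_norm (enc_sub (bf2q0.enc h2 h3) (bf3q0.enc h2 h3)))))⟩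
noncomputable def rkbq0_38 : Fn3 := ⟨_, _, fun h1 h2 h3 => (enc_sub (enc_pnc _ 1) h2)⟩
noncomputable def rkbq0_39 : Fn3 := ⟨_, _, fun h1 h2 h3 => (gsg.enc (enc_norm (rkbq0_38.enc h1 h2 h3)))⟩
noncomputable def rkbq0_42 : Fn3 := ⟨_, _, fun h1 h2 h3 => (enc_sub (enc_scale 3 4 (rkbq0_38.enc h1 h2 h3)) (enc_half (rkbq0_39.enc h1 h2 h3)))⟩
noncomputable def rkbq0_62 : Fn3 := ⟨_, _, fun h1 h2 h3 => (enc_sub h1 (cv2m.enc h2))⟩
noncomputable def rkbq0 : Fn3 := ⟨_, _, fun h1 h2 h3 => (enc_case (enc_sub h1 (cv1m.enc h2)) (enc_add (enc_mul h1 (bf1q0.enc h2 h3)) (enc_mul (enc_norm (enc_sub (enc_pnc _ 1) (lm0m.enc h1 h2))) (enc_norm (enc_sub (kf0q0.enc h2 h3) (enc_mul (c1g.enc h2) (bf1q0.enc h2 h3)))))) (enc_case (rkbq0_62.enc h1 h2 h3) (enc_add (enc_mul h1 (bf2q0.enc h2 h3)) (enc_mul (enc_norm (enc_mul (enc_norm (enc_sub (enc_pnc _ 1) (lm1m.enc h1 h2))) (cv1m.enc h2))) (enc_norm (enc_sub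 (bf1q0.enc h2 h3) (bf2q0.enc h2 h3))))) (enc_case (enc_sub h1 (cv3m.enc h2)) (enc_case (enc_subr 63 250 h2) (rkbq0_36.enc h1 h2 h3) (enc_case (enc_subr 83 250 h2) (enc_add (kf2q0.enc h2 h3) (enc_mul (enc_norm (enc_mul (enc_norm (rkbq0_62.enc h1 h2 h3)) (enc_inv (enc_sub (enc_add (swg.enc h2) (enc_rat _ 1 2)) (cv2m.enc h2))))) (enc_norm (enc_sub (enc_mul h2 (enc_norm (enc_sub (enc_mul (enc_norm (enc_sub (rkbq0_42.enc h1 h2 h3) (enc_sub (enc_rat _ 1 4) (enc_scale 3 8 (enc_mul (enc_norm (rkbq0_38.enc h1 h2 h3)) (enc_inv (rkbq0_39.enc h1 h2 h3))))))) (enc_inv (esg.enc (enc_norm (rkbq0_38.enc h1 h2 h3))))) (kcg.enc (enc_norm (rkbq0_42.enc h1 h2 h3)) h3)))) (kf2q0.enc h2 h3))))) (rkbq0_36.enc h1 h2 h3))) (enc_case (enc_sub h1 (cv4m.enc h2)) (enc_add (enc_mul h1 (bf4q0.enc h2 h3)) (enc_mul (enc_norm (enc_sub (enc_pnc _ 1) (lm3m.enc h1 h2))) (enc_norm (enc_sub (kf3q0.enc h2 h3) (enc_mul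 (cv3m.enc h2) (bf4q0.enc h2 h3)))))) (enc_add (kf4q0.enc h2 h3) (enc_mul (lm4m.enc h1 h2) (enc_norm (enc_sub (kf5q0.enc h2 h3) (kf4q0.enc h2 h3)))))))))⟩
noncomputable def rsbq0 : Fn3 := ⟨_, _, fun h1 h2 h3 => (enc_case h1 (enc_neg (rkbq0.enc (enc_neg h1) h2 h3)) (rkbq0.enc h1 h2 h3))⟩
noncomputable def rkbq1 : Fn3 := ⟨_, _, fun h1 h2 h3 => (enc_case (enc_sub h1 (cv1m.enc h2)) (enc_add (enc_mul h1 (bf1q1.enc h2 h3)) (enc_mul (enc_norm (enc_sub (enc_pnc _ 1) (lm0m.enc h1 h2))) (enc_norm (enc_sub (kf0q1.enc h2 h3) (enc_mul (c1g.enc h2) (bf1q1.enc h2 h3)))))) (enc_case (enc_sub h1 (cv2m.enc h2)) (enc_add (enc_mul h1 (bf2q1.enc h2 h3)) (enc_mul (enc_norm (enc_mul (enc_norm (enc_sub (enc_pnc _ 1) (lm1m.enc h1 h2))) (cv1m.enc h2))) (enc_norm (enc_sub (bf1q1.enc h2 h3) (bf2q1.enc h2 h3))))) (enc_case (enc_sub h1 (cv3m.enc h2)) (enc_add (enc_mul h1 (bf3q1.enc h2 h3)) (enc_mul (enc_norm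 (enc_mul (enc_norm (enc_sub (enc_pnc _ 1) (lm2m.enc h1 h2))) (cv2m.enc h2))) (enc_norm (enc_sub (bf2q1.enc h2 h3) (bf3q1.enc h2 h3))))) (enc_case (enc_sub h1 (cv4m.enc h2)) (enc_add (enc_mul h1 (bf4q1.enc h2 h3)) (enc_mul (enc_norm (enc_mul (enc_norm (enc_sub (enc_pnc _ 1) (lm3m.enc h1 h2))) (cv3m.enc h2))) (enc_norm (enc_sub (bf3q1.enc h2 h3) (bf4q1.enc h2 h3))))) (enc_add (kf4q1.enc h2 h3) (enc_mul (lm4m.enc h1 h2) (enc_norm (enc_sub (kf5q1.enc h2 h3) (kf4q1.enc h2 h3)))))))))⟩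
noncomputable def rsbq1 : Fn3 := ⟨_, _, fun h1 h2 h3 => (enc_case h1 (enc_neg (rkbq1.enc (enc_neg h1) h2 h3)) (rkbq1.enc h1 h2 h3))⟩
noncomputable def cv1p : Fn1 := ⟨_, _, fun h1 => (enc_norm (enc_add (enc_scale 4 5 (c1g.enc h1)) (enc_scale 1 5 (enc_subr 1 2 (swg.enc h1)))))⟩
noncomputable def cv2p : Fn1 := ⟨_, _, fun h1 => (enc_norm (enc_add (enc_half (c1g.enc h1)) (enc_half (enc_subr 1 2 (swg.enc h1)))))⟩
noncomputable def lm4p : Fn2 := ⟨_, _, fun h1 h2 => (enc_lam (enc_norm (enc_sub h1 (cv4p.enc h2))) (enc_sub (c3g.enc h2) (cv4p.enc h2)))⟩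
noncomputable def lm3p : Fn2 := ⟨_, _, fun h1 h2 => (enc_lam (enc_norm (enc_sub h1 (cv3p.enc h2))) (enc_sub (cv4p.enc h2) (cv3p.enc h2)))⟩
noncomputable def lm2p : Fn2 := ⟨_, _, fun h1 h2 => (enc_lam (enc_norm (enc_sub h1 (cv2p.enc h2))) (enc_sub (cv3p.enc h2) (cv2p.enc h2)))⟩
noncomputable def lm1p : Fn2 := ⟨_, _, fun h1 h2 => (enc_lam (enc_norm (enc_sub h1 (cv1p.enc h2))) (enc_sub (cv2p.enc h2) (cv1p.enc h2)))⟩
noncomputable def kf0q2 : Fn2 := ⟨_, _, fun h1 h2 => (enc_norm (enc_add (c1g.enc h1) (enc_mul (enc_norm (enc_subn 1 h1)) (kcg.enc (enc_neg (c1g.enc h1)) h2))))⟩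
noncomputable def lm0p : Fn2 := ⟨_, _, fun h1 h2 => (enc_lam (enc_norm (enc_sub h1 (c1g.enc h2))) (enc_sub (cv1p.enc h2) (c1g.enc h2)))⟩
noncomputable def n0b : Fn2 := ⟨_, _, fun h1 h2 => (enc_norm (enc_sub (enc_pnc _ 1) (enc_mul (enc_norm (enc_subn 1 h1)) (enc_norm (enc_add (enc_scale 3887 500 (enc_subr 14173 20000 h2)) (enc_rat _ 25209 10000))))))⟩
noncomputable def rkbq2_51 : Fn3 := ⟨_, _, fun h1 h2 h3 => (enc_mul h1 (bf1q2.enc h2 h3))⟩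
noncomputable def rkbq2_53 : Fn3 := ⟨_, _, fun h1 h2 h3 => (enc_sub (enc_pnc _ 1) (lm0p.enc h1 h2))⟩
noncomputable def rkbq2 : Fn3 := ⟨_, _, fun h1 h2 h3 => (enc_case (enc_sub h1 (cv1p.enc h2)) (enc_case (enc_subr 1153 1000 h2) (enc_add (rkbq2_51.enc h1 h2 h3) (enc_mul (enc_norm (rkbq2_53.enc h1 h2 h3)) (enc_norm (enc_sub (kf0q2.enc h2 h3) (enc_mul (c1g.enc h2) (bf1q2.enc h2 h3)))))) (enc_case (enc_subr 2887 2500 h2) (enc_add (rkbq2_51.enc h1 h2 h3) (enc_mul (enc_norm (rkbq2_53.enc h1 h2 h3)) (enc_norm (enc_mul (c1g.enc h2) (enc_norm (enc_sub (n0b.enc h2 h3) (bf1q2.enc h2 h3))))))) (rkbq2_51.enc h1 h2 h3))) (enc_case (enc_sub h1 (cv2p.enc h2)) (enc_add (enc_mul h1 (bf2q2.enc h2 h3)) (enc_mul (enc_norm (enc_mul (enc_norm (enc_sub (enc_pnc _ 1) (lm1p.enc h1 h2))) (cv1p.enc h2))) (enc_norm (enc_sub (bf1q2.enc h2 h3) (bf2q2.enc h2 h3))))) (enc_case (enc_sub h1 (cv3p.enc h2)) (enc_add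 (enc_mul h1 (bf3q2.enc h2 h3)) (enc_mul (enc_norm (enc_mul (enc_norm (enc_sub (enc_pnc _ 1) (lm2p.enc h1 h2))) (cv2p.enc h2))) (enc_norm (enc_sub (bf2q2.enc h2 h3) (bf3q2.enc h2 h3))))) (enc_case (enc_sub h1 (cv4p.enc h2)) (enc_add (enc_mul h1 (bf4q2.enc h2 h3)) (enc_mul (enc_norm (enc_mul (enc_norm (enc_sub (enc_pnc _ 1) (lm3p.enc h1 h2))) (cv3p.enc h2))) (enc_norm (enc_sub (bf3q2.enc h2 h3) (bf4q2.enc h2 h3))))) (enc_add (kf4q2.enc h2 h3) (enc_mul (lm4p.enc h1 h2) (enc_norm (enc_sub (kf5q2.enc h2 h3) (kf4q2.enc h2 h3)))))))))⟩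
noncomputable def rsbq2 : Fn3 := ⟨_, _, fun h1 h2 h3 => (enc_case h1 (enc_neg (rkbq2.enc (enc_neg h1) h2 h3)) (rkbq2.enc h1 h2 h3))⟩
noncomputable def cv3r : Fn1 := ⟨_, _, fun h1 => (enc_norm (enc_add (enc_scale 4 5 (enc_subr 1 2 (swg.enc h1))) (enc_scale 1 5 (c3g.enc h1))))⟩
noncomputable def cv4r : Fn1 := ⟨_, _, fun h1 => (enc_norm (enc_add (enc_scale 2 5 (enc_subr 1 2 (swg.enc h1))) (enc_scale 3 5 (c3g.enc h1))))⟩
noncomputable def kf4q3_4 : Fn2 := ⟨_, _, fun h1 h2 => (enc_subr 14173 20000 h2)⟩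
noncomputable def kf4q3 : Fn2 := ⟨_, _, fun h1 h2 => (enc_norm (enc_mul (cv4r.enc h1) (enc_norm (enc_case (enc_subr 437 250 h1) (enc_case (enc_subr 417 250 h1) (enc_add (enc_subr 8051 4000 (enc_scale 281 240 h1)) (enc_mul (enc_norm (kf4q3_4.enc h1 h2)) (enc_norm (enc_sub (enc_rat _ 61137 14000) (enc_scale 449 168 h1))))) (enc_add (enc_subr 402689 200000 (enc_scale 937 800 h1)) (enc_mul (enc_norm (kf4q3_4.enc h1 h2)) (enc_norm (enc_sub (enc_rat _ 17567 4000) (enc_scale 43 16 h1)))))) (enc_case (enc_sub (enc_rat _ 429616471 1000000000) (c3g.enc h1)) (enc_add (enc_sub (enc_rat _ 663201519099 2060159560000) (enc_scale 17625000 51503989 (c3g.enc h1))) (enc_mul (enc_norm (kf4q3_4.enc h1 h2)) (enc_norm (enc_sub (enc_rat _ 668351562291 206015956000) (enc_scale 217250000 51503989 (c3g.enc h1)))))) (enc_add (enc_sub (enc_rat _ 1 2) (enc_scale 325100000 429616471 (c3g.enc h1))) (enc_mul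 (enc_norm (kf4q3_4.enc h1 h2)) (enc_scale 1432000000 429616471 (c3g.enc h1)))))))))⟩
noncomputable def kf5q3 : Fn2 := ⟨_, _, fun h1 h2 => (enc_norm (enc_sub (enc_mul (enc_norm (enc_subn 2 h1)) (kcg.enc (enc_norm (enc_sub (enc_scale 1 4 h1) (enc_half (c3g.enc h1)))) h2)) (enc_mul (enc_norm (enc_mul (enc_norm (enc_sub (enc_nat 2 (c3g.enc h1)) h1)) (enc_norm (enc_sub (enc_add (c3g.enc h1) (enc_pnc _ 3)) (enc_scale 3 2 h1))))) (enc_inv (enc_nat 4 (enc_subn 1 h1))))))⟩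
noncomputable def lm4r : Fn2 := ⟨_, _, fun h1 h2 => (enc_lam (enc_norm (enc_sub h1 (cv4r.enc h2))) (enc_sub (c3g.enc h2) (cv4r.enc h2)))⟩
noncomputable def bf4q3_3 : Fn2 := ⟨_, _, fun h1 h2 => (enc_subr 14173 20000 h2)⟩
noncomputable def bf4q3 : Fn2 := ⟨_, _, fun h1 h2 => (enc_norm (enc_case (enc_subr 437 250 h1) (enc_case (enc_subr 417 250 h1) (enc_add (enc_subr 8051 4000 (enc_scale 281 240 h1)) (enc_mul (enc_norm (bf4q3_3.enc h1 h2)) (enc_norm (enc_sub (enc_rat _ 61137 14000) (enc_scale 449 168 h1))))) (enc_add (enc_subr 402689 200000 (enc_scale 937 800 h1)) (enc_mul (enc_norm (bf4q3_3.enc h1 h2)) (enc_norm (enc_sub (enc_rat _ 17567 4000) (enc_scale 43 16 h1)))))) (enc_case (enc_sub (enc_rat _ 429616471 1000000000) (c3g.enc h1)) (enc_add (enc_sub (enc_rat _ 663201519099 2060159560000) (enc_scale 17625000 51503989 (c3g.enc h1))) (enc_mul (enc_norm (bf4q3_3.enc h1 h2)) (enc_norm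 (enc_sub (enc_rat _ 668351562291 206015956000) (enc_scale 217250000 51503989 (c3g.enc h1)))))) (enc_add (enc_sub (enc_rat _ 1 2) (enc_scale 325100000 429616471 (c3g.enc h1))) (enc_mul (enc_norm (bf4q3_3.enc h1 h2)) (enc_scale 1432000000 429616471 (c3g.enc h1)))))))⟩
noncomputable def lm3r : Fn2 := ⟨_, _, fun h1 h2 => (enc_lam (enc_norm (enc_sub h1 (cv3r.enc h2))) (enc_sub (cv4r.enc h2) (cv3r.enc h2)))⟩
noncomputable def kf3q3_4 : Fn2 := ⟨_, _, fun h1 h2 => (enc_subr 14173 20000 h2)⟩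
noncomputable def kf3q3_43 : Fn2 := ⟨_, _, fun h1 h2 => (enc_subn 1 h1)⟩
noncomputable def kf3q3_44 : Fn2 := ⟨_, _, fun h1 h2 => (gsg.enc (enc_norm (kf3q3_43.enc h1 h2)))⟩
noncomputable def kf3q3_45 : Fn2 := ⟨_, _, fun h1 h2 => (enc_scale 3 4 (kf3q3_43.enc h1 h2))⟩
noncomputable def kf3q3_46 : Fn2 := ⟨_, _, fun h1 h2 => (enc_half (kf3q3_44.enc h1 h2))⟩
noncomputable def kf3q3_65 : Fn2 := ⟨_, _, fun h1 h2 => (enc_subr 417 250 h1)⟩
noncomputable def kf3q3_77 : Fn2 := ⟨_, _, fun h1 h2 => (enc_subr 437 250 h1)⟩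
noncomputable def kf3q3_100 : Fn2 := ⟨_, _, fun h1 h2 => (enc_mul (cv2r.enc h1) (enc_norm (enc_case (kf3q3_65.enc h1 h2) (enc_add (enc_sub (enc_rat _ 94103 35000) (enc_scale 157 105 h1)) (enc_mul (enc_norm (kf3q3_4.enc h1 h2)) (enc_norm (enc_sub (enc_rat _ 311331 14000) (enc_scale 2479 168 h1))))) (enc_case (kf3q3_77.enc h1 h2) (enc_add (enc_sub (enc_rat _ 134413 50000) (enc_scale 299 200 h1)) (enc_mul (enc_norm (kf3q3_4.enc h1 h2)) (enc_norm (enc_sub (enc_rat _ 444977 20000) (enc_scale 1181 80 h1))))) (enc_add (enc_subr 21 50 (enc_scale 55000000 93516487 (c3g.enc h1))) (enc_mul (enc_norm (kf3q3_4.enc h1 h2)) (enc_norm (enc_subr 9943 500 (enc_scale 16330000000 841648383 (c3g.enc h1))))))))))⟩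
noncomputable def kf3q3 : Fn2 := ⟨_, _, fun h1 h2 => (enc_norm (enc_case (kf3q3_65.enc h1 h2) (enc_mul (cv3r.enc h1) (enc_norm (enc_add (enc_sub (enc_rat _ 53340779 35000000) (enc_scale 48825779 52500000 h1)) (enc_mul (enc_norm (kf3q3_4.enc h1 h2)) (enc_norm (enc_subr 12838089 22400000 (enc_neg (enc_scale 1296311 33600000 h1)))))))) (enc_case (kf3q3_77.enc h1 h2) (enc_add (kf3q3_100.enc h1 h2) (enc_mul (enc_norm (enc_mul (enc_norm (enc_sub (enc_mul (enc_norm (enc_subn 2 h1)) (enc_norm (enc_add (enc_mul (enc_norm (enc_sub (enc_sub (kf3q3_46.enc h1 h2) (kf3q3_45.enc h1 h2)) (enc_sub (enc_rat _ 1 4) (enc_scale 3 8 (enc_mul (enc_norm (kf3q3_43.enc h1 h2)) (enc_inv (kf3q3_44.enc h1 h2))))))) (enc_inv (esg.enc (enc_norm (kf3q3_43.enc h1 h2))))) (kcg.enc (enc_norm (enc_sub (kf3q3_45.enc h1 h2) (kf3q3_46.enc h1 h2))) h2)))) (kf3q3_100.enc h1 h2))) (enc_norm (enc_sub (cv3r.enc h1) (cv2r.enc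 h1))))) (enc_inv (enc_sub (enc_subr 1 2 (swg.enc h1)) (cv2r.enc h1))))) (enc_mul (cv3r.enc h1) (enc_norm (enc_case (enc_sub (enc_rat _ 367494643 500000000) (c3g.enc h1)) (enc_add (enc_subr 344077346601670081 266647742500000000 (enc_scale 867203067 533295485 (c3g.enc h1))) (enc_mul (enc_norm (kf3q3_4.enc h1 h2)) (enc_norm (enc_subr 3976839476488311757 53329548500000000 (enc_scale 9377144799 106659097 (c3g.enc h1)))))) (enc_sub (enc_sub (enc_rat _ 1 2) (enc_scale 297600000 367494643 (c3g.enc h1))) (enc_mul (enc_norm (kf3q3_4.enc h1 h2)) (enc_scale 4976500000 367494643 (c3g.enc h1))))))))))⟩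
noncomputable def bf3q3_3 : Fn2 := ⟨_, _, fun h1 h2 => (enc_subr 14173 20000 h2)⟩
noncomputable def bf3q3 : Fn2 := ⟨_, _, fun h1 h2 => (enc_norm (enc_case (enc_subr 427 250 h1) (enc_add (enc_sub (enc_rat _ 53340779 35000000) (enc_scale 48825779 52500000 h1)) (enc_mul (enc_norm (bf3q3_3.enc h1 h2)) (enc_norm (enc_subr 12838089 22400000 (enc_neg (enc_scale 1296311 33600000 h1)))))) (enc_case (enc_sub (enc_rat _ 367494643 500000000) (c3g.enc h1)) (enc_add (enc_subr 344077346601670081 266647742500000000 (enc_scale 867203067 533295485 (c3g.enc h1))) (enc_mul (enc_norm (bf3q3_3.enc h1 h2)) (enc_norm (enc_subr 3976839476488311757 53329548500000000 (enc_scale 9377144799 106659097 (c3g.enc h1)))))) (enc_sub (enc_sub (enc_rat _ 1 2) (enc_scale 297600000 367494643 (c3g.enc h1))) (enc_mul (enc_norm (bf3q3_3.enc h1 h2)) (enc_scale 4976500000 367494643 (c3g.enc h1)))))))⟩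
noncomputable def lm2r : Fn2 := ⟨_, _, fun h1 h2 => (enc_lam (enc_norm (enc_sub h1 (cv2r.enc h2))) (enc_sub (cv3r.enc h2) (cv2r.enc h2)))⟩
noncomputable def bf2q3_3 : Fn2 := ⟨_, _, fun h1 h2 => (enc_subr 14173 20000 h2)⟩
noncomputable def bf2q3 : Fn2 := ⟨_, _, fun h1 h2 => (enc_norm (enc_case (enc_subr 417 250 h1) (enc_add (enc_sub (enc_rat _ 94103 35000) (enc_scale 157 105 h1)) (enc_mul (enc_norm (bf2q3_3.enc h1 h2)) (enc_norm (enc_sub (enc_rat _ 311331 14000) (enc_scale 2479 168 h1))))) (enc_case (enc_subr 437 250 h1) (enc_add (enc_sub (enc_rat _ 134413 50000) (enc_scale 299 200 h1)) (enc_mul (enc_norm (bf2q3_3.enc h1 h2)) (enc_norm (enc_sub (enc_rat _ 444977 20000) (enc_scale 1181 80 h1))))) (enc_add (enc_subr 21 50 (enc_scale 55000000 93516487 (c3g.enc h1))) (enc_mul (enc_norm (bf2q3_3.enc h1 h2)) (enc_norm (enc_subr 9943 500 (enc_scale 16330000000 841648383 (c3g.enc h1)))))))))⟩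
noncomputable def lm1r : Fn2 := ⟨_, _, fun h1 h2 => (enc_lam (enc_norm (enc_sub h1 (cv1r.enc h2))) (enc_sub (cv2r.enc h2) (cv1r.enc h2)))⟩
noncomputable def bf1q3_3 : Fn2 := ⟨_, _, fun h1 h2 => (enc_subr 14173 20000 h2)⟩
noncomputable def bf1q3 : Fn2 := ⟨_, _, fun h1 h2 => (enc_norm (enc_case (enc_subr 417 250 h1) (enc_add (enc_sub (enc_rat _ 94103 35000) (enc_scale 157 105 h1)) (enc_mul (enc_norm (bf1q3_3.enc h1 h2)) (enc_norm (enc_sub (enc_rat _ 311331 14000) (enc_scale 2479 168 h1))))) (enc_case (enc_subr 437 250 h1) (enc_add (enc_sub (enc_rat _ 134413 50000) (enc_scale 299 200 h1)) (enc_mul (enc_norm (bf1q3_3.enc h1 h2)) (enc_norm (enc_sub (enc_rat _ 444977 20000) (enc_scale 1181 80 h1))))) (enc_add (enc_subr 21 50 (enc_scale 55000000 93516487 (c3g.enc h1))) (enc_mul (enc_norm (bf1q3_3.enc h1 h2)) (enc_norm (enc_subr 9943 500 (enc_scale 16330000000 841648383 (c3g.enc h1)))))))))⟩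
noncomputable def rkbq3_36 : Fn3 := ⟨_, _, fun h1 h2 h3 => (enc_add (enc_mul h1 (bf3q3.enc h2 h3)) (enc_mul (enc_norm (enc_mul (enc_norm (enc_sub (enc_pnc _ 1) (lm2r.enc h1 h2))) (cv2r.enc h2))) (enc_norm (enc_sub (bf2q3.enc h2 h3) (bf3q3.enc h2 h3)))))⟩
noncomputable def rkbq3_37 : Fn3 := ⟨_, _, fun h1 h2 h3 => (enc_subn 1 h2)⟩
noncomputable def rkbq3_38 : Fn3 := ⟨_, _, fun h1 h2 h3 => (gsg.enc (enc_norm (rkbq3_37.enc h1 h2 h3)))⟩
noncomputable def rkbq3_39 : Fn3 := ⟨_, _, fun h1 h2 h3 => (enc_scale 3 4 (rkbq3_37.enc h1 h2 h3))⟩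
noncomputable def rkbq3_40 : Fn3 := ⟨_, _, fun h1 h2 h3 => (enc_half (rkbq3_38.enc h1 h2 h3))⟩
noncomputable def rkbq3_62 : Fn3 := ⟨_, _, fun h1 h2 h3 => (enc_sub h1 (cv2r.enc h2))⟩
noncomputable def rkbq3 : Fn3 := ⟨_, _, fun h1 h2 h3 => (enc_case (enc_sub h1 (cv1r.enc h2)) (enc_mul h1 (bf1q3.enc h2 h3)) (enc_case (rkbq3_62.enc h1 h2 h3) (enc_add (enc_mul h1 (bf2q3.enc h2 h3)) (enc_mul (enc_norm (enc_mul (enc_norm (enc_sub (enc_pnc _ 1) (lm1r.enc h1 h2))) (cv1r.enc h2))) (enc_norm (enc_sub (bf1q3.enc h2 h3) (bf2q3.enc h2 h3))))) (enc_case (enc_sub h1 (cv3r.enc h2)) (enc_case (enc_subr 417 250 h2) (rkbq3_36.enc h1 h2 h3) (enc_case (enc_subr 437 250 h2) (enc_add (kf2q3.enc h2 h3) (enc_mul (enc_norm (enc_mul (enc_norm (rkbq3_62.enc h1 h2 h3)) (enc_inv (enc_sub (enc_subr 1 2 (swg.enc h2)) (cv2r.enc h2))))) (enc_norm (enc_sub (enc_mul (enc_norm (enc_subn 2 h2)) (enc_norm (enc_add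 (enc_mul (enc_norm (enc_sub (enc_sub (rkbq3_40.enc h1 h2 h3) (rkbq3_39.enc h1 h2 h3)) (enc_sub (enc_rat _ 1 4) (enc_scale 3 8 (enc_mul (enc_norm (rkbq3_37.enc h1 h2 h3)) (enc_inv (rkbq3_38.enc h1 h2 h3))))))) (enc_inv (esg.enc (enc_norm (rkbq3_37.enc h1 h2 h3))))) (kcg.enc (enc_norm (enc_sub (rkbq3_39.enc h1 h2 h3) (rkbq3_40.enc h1 h2 h3))) h3)))) (kf2q3.enc h2 h3))))) (rkbq3_36.enc h1 h2 h3))) (enc_case (enc_sub h1 (cv4r.enc h2)) (enc_add (enc_mul h1 (bf4q3.enc h2 h3)) (enc_mul (enc_norm (enc_sub (enc_pnc _ 1) (lm3r.enc h1 h2))) (enc_norm (enc_sub (kf3q3.enc h2 h3) (enc_mul (cv3r.enc h2) (bf4q3.enc h2 h3)))))) (enc_add (kf4q3.enc h2 h3) (enc_mul (lm4r.enc h1 h2) (enc_norm (enc_sub (kf5q3.enc h2 h3) (kf4q3.enc h2 h3)))))))))⟩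
noncomputable def rsbq3 : Fn3 := ⟨_, _, fun h1 h2 h3 => (enc_case h1 (enc_neg (rkbq3.enc (enc_neg h1) h2 h3)) (rkbq3.enc h1 h2 h3))⟩
noncomputable def bx3q0_3 : Fn2 := ⟨_, _, fun h1 h2 => (enc_subr 14173 20000 h2)⟩
noncomputable def bx3q0_29 : Fn2 := ⟨_, _, fun h1 h2 => (enc_sq (enc_norm (bx3q0_3.enc h1 h2)))⟩
noncomputable def bx3q0 : Fn2 := ⟨_, _, fun h1 h2 => (enc_norm (enc_case (enc_subr 73 250 h1) (enc_case (enc_subr 189 1000 h1) (enc_add (enc_add (enc_scale 2 9 h1) (enc_rat _ 69 1000)) (enc_mul (enc_norm (bx3q0_3.enc h1 h2)) (enc_norm (enc_subr 41 1000 (enc_scale 67 63 h1))))) (enc_add (enc_add (enc_sub (enc_rat _ 250461801 2000000000) (enc_scale 9487267 126000000 h1)) (enc_mul (enc_norm (bx3q0_3.enc h1 h2)) (enc_norm (enc_sub (enc_rat _ 3685133 7812500) (enc_scale 1623422 984375 h1))))) (enc_mul (bx3q0_29.enc h1 h2) (enc_norm (enc_subr 81753 62500 (enc_scale 7786 1125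 h1)))))) (enc_case (enc_subr 381 1000 h1) (enc_add (enc_add (enc_sub (enc_rat _ 33866234501 245000000000) (enc_scale 30756521 245000000 h1)) (enc_mul (enc_norm (bx3q0_3.enc h1 h2)) (enc_norm (enc_sub (enc_rat _ 6092738441 49000000000) (enc_scale 13419261 49000000 h1))))) (enc_mul (bx3q0_29.enc h1 h2) (enc_norm (enc_sub (enc_rat _ 57432321 24500000) (enc_scale 150741 24500 h1))))) (enc_add (enc_sub (enc_rat _ 40991 297500) (enc_scale 74 595 h1)) (enc_mul (enc_norm (bx3q0_3.enc h1 h2)) (enc_norm (enc_subr 6899 17000 (enc_scale 19 17 h1))))))))⟩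
noncomputable def rxq0_36 : Fn3 := ⟨_, _, fun h1 h2 h3 => (enc_add (enc_mul h1 (bx3q0.enc h2 h3)) (enc_mul (enc_norm (enc_mul (enc_norm (enc_sub (enc_pnc _ 1) (lm2m.enc h1 h2))) (cv2m.enc h2))) (enc_norm (enc_sub (bx2q0.enc h2 h3) (bx3q0.enc h2 h3)))))⟩
noncomputable def rxq0_38 : Fn3 := ⟨_, _, fun h1 h2 h3 => (enc_sub (enc_pnc _ 1) h2)⟩
noncomputable def rxq0_55 : Fn3 := ⟨_, _, fun h1 h2 h3 => (enc_sub h1 (cv2m.enc h2))⟩
noncomputable def rxq0 : Fn3 := ⟨_, _, fun h1 h2 h3 => (enc_case (enc_sub h1 (cv1m.enc h2)) (enc_add (enc_mul h1 (bx1q0.enc h2 h3)) (enc_mul (enc_norm (enc_sub (enc_pnc _ 1) (lm0m.enc h1 h2))) (enc_norm (enc_sub (l0q0.enc h2 h3) (enc_mul (c1g.enc h2) (bx1q0.enc h2 h3)))))) (enc_case (rxq0_55.enc h1 h2 h3) (enc_add (enc_mul h1 (bx2q0.enc h2 h3)) (enc_mul (enc_norm (enc_mul (enc_norm (enc_sub (enc_pnc _ 1) (lm1m.enc h1 h2))) (cv1m.enc h2))) (enc_norm (enc_sub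 (bx1q0.enc h2 h3) (bx2q0.enc h2 h3))))) (enc_case (enc_sub h1 (cv3m.enc h2)) (enc_case (enc_subr 63 250 h2) (rxq0_36.enc h1 h2 h3) (enc_case (enc_subr 83 250 h2) (enc_add (l2q0.enc h2 h3) (enc_mul (enc_norm (enc_mul (enc_norm (rxq0_55.enc h1 h2 h3)) (enc_inv (enc_sub (enc_add (swg.enc h2) (enc_rat _ 1 2)) (cv2m.enc h2))))) (enc_norm (enc_sub (enc_sub (qsg.enc (enc_norm (rxq0_38.enc h1 h2 h3))) (enc_mul (enc_norm (enc_nat 2 (enc_sub (rxq0_38.enc h1 h2 h3) h3))) (enc_norm (enc_mul (esg.enc (enc_norm (rxq0_38.enc h1 h2 h3))) (kcg.enc (enc_norm (enc_sub (enc_scale 3 4 (rxq0_38.enc h1 h2 h3)) (enc_half (gsg.enc (enc_norm (rxq0_38.enc h1 h2 h3)))))) h3))))) (l2q0.enc h2 h3))))) (rxq0_36.enc h1 h2 h3))) (enc_case (enc_sub h1 (cv4m.enc h2)) (enc_add (enc_mul h1 (bx4q0.enc h2 h3)) (enc_mul (enc_norm (enc_sub (enc_pnc _ 1) (lm3m.enc h1 h2))) (enc_norm (enc_sub (l3q0.enc h2 h3) (enc_mul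 (cv3m.enc h2) (bx4q0.enc h2 h3)))))) (enc_add (l4q0.enc h2 h3) (enc_mul (lm4m.enc h1 h2) (enc_norm (enc_sub (l5q0.enc h2 h3) (l4q0.enc h2 h3)))))))))⟩
noncomputable def rlq0 : Fn3 := ⟨_, _, fun h1 h2 h3 => (enc_case h1 (enc_neg (rxq0.enc (enc_neg h1) h2 h3)) (rxq0.enc h1 h2 h3))⟩
noncomputable def rxq1 : Fn3 := ⟨_, _, fun h1 h2 h3 => (enc_case (enc_sub h1 (cv1m.enc h2)) (enc_add (enc_mul h1 (bx1q1.enc h2 h3)) (enc_mul (enc_norm (enc_sub (enc_pnc _ 1) (lm0m.enc h1 h2))) (enc_norm (enc_sub (l0q1.enc h2 h3) (enc_mul (c1g.enc h2) (bx1q1.enc h2 h3)))))) (enc_case (enc_sub h1 (cv2m.enc h2)) (enc_add (enc_mul h1 (bx2q1.enc h2 h3)) (enc_mul (enc_norm (enc_mul (enc_norm (enc_sub (enc_pnc _ 1) (lm1m.enc h1 h2))) (cv1m.enc h2))) (enc_norm (enc_sub (bx1q1.enc h2 h3) (bx2q1.enc h2 h3))))) (enc_case (enc_sub h1 (cv3m.enc h2)) (enc_add (enc_mul h1 (bx3q1.enc h2 h3)) (enc_mul (enc_norm (enc_mul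 (enc_norm (enc_sub (enc_pnc _ 1) (lm2m.enc h1 h2))) (cv2m.enc h2))) (enc_norm (enc_sub (bx2q1.enc h2 h3) (bx3q1.enc h2 h3))))) (enc_case (enc_sub h1 (cv4m.enc h2)) (enc_add (enc_mul h1 (bx4q1.enc h2 h3)) (enc_mul (enc_norm (enc_mul (enc_norm (enc_sub (enc_pnc _ 1) (lm3m.enc h1 h2))) (cv3m.enc h2))) (enc_norm (enc_sub (bx3q1.enc h2 h3) (bx4q1.enc h2 h3))))) (enc_add (l4q1.enc h2 h3) (enc_mul (lm4m.enc h1 h2) (enc_norm (enc_sub (l5q1.enc h2 h3) (l4q1.enc h2 h3)))))))))⟩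
noncomputable def rlq1 : Fn3 := ⟨_, _, fun h1 h2 h3 => (enc_case h1 (enc_neg (rxq1.enc (enc_neg h1) h2 h3)) (rxq1.enc h1 h2 h3))⟩
noncomputable def l0q2_7 : Fn2 := ⟨_, _, fun h1 h2 => (enc_scale 3 4 h1)⟩
noncomputable def l0q2_8 : Fn2 := ⟨_, _, fun h1 h2 => (enc_half (c1g.enc h1))⟩
noncomputable def l0q2 : Fn2 := ⟨_, _, fun h1 h2 => (enc_norm (enc_sub (txg.enc (enc_neg (c1g.enc h1)) (enc_norm (enc_add (l0q2_7.enc h1 h2) (l0q2_8.enc h1 h2))) h2) (txg.enc (c1g.enc h1) (enc_norm (enc_sub (l0q2_7.enc h1 h2) (l0q2_8.enc h1 h2))) h2)))⟩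
noncomputable def n0x : Fn2 := ⟨_, _, fun h1 h2 => (enc_norm (enc_subr 14891 50000 (enc_scale 1989 2000 (enc_subr 14173 20000 h2))))⟩
noncomputable def rxq2_51 : Fn3 := ⟨_, _, fun h1 h2 h3 => (enc_mul h1 (bx1q2.enc h2 h3))⟩
noncomputable def rxq2_53 : Fn3 := ⟨_, _, fun h1 h2 h3 => (enc_sub (enc_pnc _ 1) (lm0p.enc h1 h2))⟩
noncomputable def rxq2 : Fn3 := ⟨_, _, fun h1 h2 h3 => (enc_case (enc_sub h1 (cv1p.enc h2)) (enc_case (enc_subr 5771 5000 h2) (enc_add (rxq2_51.enc h1 h2 h3) (enc_mul (enc_norm (rxq2_53.enc h1 h2 h3)) (enc_norm (enc_sub (l0q2.enc h2 h3) (enc_mul (c1g.enc h2) (bx1q2.enc h2 h3)))))) (enc_case (enc_subr 2887 2500 h2) (enc_add (rxq2_51.enc h1 h2 h3) (enc_mul (enc_norm (rxq2_53.enc h1 h2 h3)) (enc_norm (enc_mul (c1g.enc h2) (enc_norm (enc_sub (n0x.enc h2 h3) (bx1q2.enc h2 h3))))))) (rxq2_51.enc h1 h2 h3))) (enc_case (enc_sub h1 (cv2p.enc h2)) (enc_add (enc_mul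 h1 (bx2q2.enc h2 h3)) (enc_mul (enc_norm (enc_mul (enc_norm (enc_sub (enc_pnc _ 1) (lm1p.enc h1 h2))) (cv1p.enc h2))) (enc_norm (enc_sub (bx1q2.enc h2 h3) (bx2q2.enc h2 h3))))) (enc_case (enc_sub h1 (cv3p.enc h2)) (enc_add (enc_mul h1 (bx3q2.enc h2 h3)) (enc_mul (enc_norm (enc_mul (enc_norm (enc_sub (enc_pnc _ 1) (lm2p.enc h1 h2))) (cv2p.enc h2))) (enc_norm (enc_sub (bx2q2.enc h2 h3) (bx3q2.enc h2 h3))))) (enc_case (enc_sub h1 (cv4p.enc h2)) (enc_add (enc_mul h1 (bx4q2.enc h2 h3)) (enc_mul (enc_norm (enc_mul (enc_norm (enc_sub (enc_pnc _ 1) (lm3p.enc h1 h2))) (cv3p.enc h2))) (enc_norm (enc_sub (bx3q2.enc h2 h3) (bx4q2.enc h2 h3))))) (enc_add (l4q2.enc h2 h3) (enc_mul (lm4p.enc h1 h2) (enc_norm (enc_sub (l5q2.enc h2 h3) (l4q2.enc h2 h3)))))))))⟩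
noncomputable def rlq2 : Fn3 := ⟨_, _, fun h1 h2 h3 => (enc_case h1 (enc_neg (rxq2.enc (enc_neg h1) h2 h3)) (rxq2.enc h1 h2 h3))⟩
noncomputable def l4q3_4 : Fn2 := ⟨_, _, fun h1 h2 => (enc_subr 14173 20000 h2)⟩
noncomputable def l4q3 : Fn2 := ⟨_, _, fun h1 h2 => (enc_norm (enc_mul (cv4r.enc h1) (enc_norm (enc_case (enc_subr 437 250 h1) (enc_case (enc_subr 417 250 h1) (enc_add (enc_subr 61017 70000 (enc_scale 527 840 h1)) (enc_mul (enc_norm (l4q3_4.enc h1 h2)) (enc_norm (enc_sub (enc_rat _ 16257 7000) (enc_scale 17 14 h1))))) (enc_add (enc_subr 87187 100000 (enc_scale 251 400 h1)) (enc_mul (enc_norm (l4q3_4.enc h1 h2)) (enc_norm (enc_sub (enc_rat _ 46389 20000) (enc_scale 97 80 h1)))))) (enc_case (enc_sub (enc_rat _ 151264049 250000000) (c3g.enc h1)) (enc_add (enc_sub (enc_rat _ 1235745147591 1182960935000) (enc_scale 230400000 236592187 (c3g.enc h1))) (enc_mul (enc_norm (l4q3_4.enc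 h1 h2)) (enc_norm (enc_add (enc_scale 48000000 236592187 (c3g.enc h1)) (enc_rat _ 864914377 29574023375))))) (enc_case (enc_sub (enc_rat _ 429616471 1000000000) (c3g.enc h1)) (enc_add (enc_add (enc_scale 1068000 7017589 (c3g.enc h1)) (enc_rat _ 318701251659 877198625000)) (enc_mul (enc_norm (l4q3_4.enc h1 h2)) (enc_norm (enc_add (enc_scale 1440000 7017589 (c3g.enc h1)) (enc_rat _ 610601893 21929965625))))) (enc_add (enc_add (enc_scale 65406800 429616471 (c3g.enc h1)) (enc_rat _ 908233 2500000)) (enc_mul (enc_norm (l4q3_4.enc h1 h2)) (enc_norm (enc_sub (enc_rat _ 4729691 2000000) (enc_scale 2248845500 429616471 (c3g.enc h1))))))))))))⟩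
noncomputable def l5q3_7 : Fn2 := ⟨_, _, fun h1 h2 => (enc_half (c3g.enc h1))⟩
noncomputable def l5q3_8 : Fn2 := ⟨_, _, fun h1 h2 => (enc_scale 1 4 h1)⟩
noncomputable def l5q3_9 : Fn2 := ⟨_, _, fun h1 h2 => (enc_sub (l5q3_7.enc h1 h2) (l5q3_8.enc h1 h2))⟩
noncomputable def l5q3_12 : Fn2 := ⟨_, _, fun h1 h2 => (enc_add (enc_scale 1 4 (c3g.enc h1)) (enc_scale 3 8 h1))⟩
noncomputable def l5q3_14 : Fn2 := ⟨_, _, fun h1 h2 => (enc_half (l5q3_9.enc h1 h2))⟩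
noncomputable def l5q3 : Fn2 := ⟨_, _, fun h1 h2 => (enc_norm (enc_sub (enc_nat 2 (txg.enc (enc_norm (enc_sub (l5q3_8.enc h1 h2) (l5q3_7.enc h1 h2))) (enc_norm (enc_add (l5q3_12.enc h1 h2) (l5q3_14.enc h1 h2))) h2)) (txg.enc (enc_norm (l5q3_9.enc h1 h2)) (enc_norm (enc_sub (l5q3_12.enc h1 h2) (l5q3_14.enc h1 h2))) h2)))⟩
noncomputable def bx4q3_3 : Fn2 := ⟨_, _, fun h1 h2 => (enc_subr 14173 20000 h2)⟩
noncomputable def bx4q3 : Fn2 := ⟨_, _, fun h1 h2 => (enc_norm (enc_case (enc_subr 437 250 h1) (enc_case (enc_subr 417 250 h1) (enc_add (enc_subr 61017 70000 (enc_scale 527 840 h1)) (enc_mul (enc_norm (bx4q3_3.enc h1 h2)) (enc_norm (enc_sub (enc_rat _ 16257 7000) (enc_scale 17 14 h1))))) (enc_add (enc_subr 87187 100000 (enc_scale 251 400 h1)) (enc_mul (enc_norm (bx4q3_3.enc h1 h2)) (enc_norm (enc_sub (enc_rat _ 46389 20000) (enc_scale 97 80 h1)))))) (enc_case (enc_sub (enc_rat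 _ 151264049 250000000) (c3g.enc h1)) (enc_add (enc_sub (enc_rat _ 1235745147591 1182960935000) (enc_scale 230400000 236592187 (c3g.enc h1))) (enc_mul (enc_norm (bx4q3_3.enc h1 h2)) (enc_norm (enc_add (enc_scale 48000000 236592187 (c3g.enc h1)) (enc_rat _ 864914377 29574023375))))) (enc_case (enc_sub (enc_rat _ 429616471 1000000000) (c3g.enc h1)) (enc_add (enc_add (enc_scale 1068000 7017589 (c3g.enc h1)) (enc_rat _ 318701251659 877198625000)) (enc_mul (enc_norm (bx4q3_3.enc h1 h2)) (enc_norm (enc_add (enc_scale 1440000 7017589 (c3g.enc h1)) (enc_rat _ 610601893 21929965625))))) (enc_add (enc_add (enc_scale 65406800 429616471 (c3g.enc h1)) (enc_rat _ 908233 2500000)) (enc_mul (enc_norm (bx4q3_3.enc h1 h2)) (enc_norm (enc_sub (enc_rat _ 4729691 2000000) (enc_scale 2248845500 429616471 (c3g.enc h1))))))))))⟩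
noncomputable def l3q3_4 : Fn2 := ⟨_, _, fun h1 h2 => (enc_subr 14173 20000 h2)⟩
noncomputable def l3q3_6 : Fn2 := ⟨_, _, fun h1 h2 => (enc_subr 389 250 h1)⟩
noncomputable def l3q3_43 : Fn2 := ⟨_, _, fun h1 h2 => (enc_sq (enc_norm (l3q3_4.enc h1 h2)))⟩
noncomputable def l3q3_79 : Fn2 := ⟨_, _, fun h1 h2 => (enc_subn 1 h1)⟩
noncomputable def l3q3_94 : Fn2 := ⟨_, _, fun h1 h2 => (enc_subr 417 250 h1)⟩
noncomputable def l3q3_117 : Fn2 := ⟨_, _, fun h1 h2 => (enc_subr 437 250 h1)⟩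
noncomputable def l3q3_139 : Fn2 := ⟨_, _, fun h1 h2 => (enc_mul (cv2r.enc h1) (enc_norm (enc_case (l3q3_94.enc h1 h2) (enc_case (l3q3_6.enc h1 h2) (enc_add (enc_subr 251277 140000 (enc_scale 759 560 h1)) (enc_mul (enc_norm (l3q3_4.enc h1 h2)) (enc_norm (enc_sub (enc_rat _ 1007499 14000) (enc_scale 2701 56 h1))))) (enc_add (enc_subr 100433 56000 (enc_scale 1517 1120 h1)) (enc_mul (enc_norm (l3q3_4.enc h1 h2)) (enc_norm (enc_subr 517003 28000 (enc_scale 1107 112 h1)))))) (enc_case (l3q3_117.enc h1 h2) (enc_add (enc_subr 89717 50000 (enc_scale 271 200 h1)) (enc_mul (enc_norm (l3q3_4.enc h1 h2)) (enc_norm (enc_subr 369407 20000 (enc_scale 791 80 h1))))) (enc_add (enc_add (enc_scale 80600000 280549461 (c3g.enc h1)) (enc_rat _ 831 2500)) (enc_mul (enc_norm (l3q3_4.enc h1 h2)) (enc_norm (enc_sub (enc_rat _ 8121 500) (enc_scale 17429000000 841648383 (c3g.enc h1))))))))))⟩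
noncomputable def l3q3 : Fn2 := ⟨_, _, fun h1 h2 => (enc_norm (enc_case (l3q3_94.enc h1 h2) (enc_mul (cv3r.enc h1) (enc_norm (enc_case (l3q3_6.enc h1 h2) (enc_add (enc_subr 205033 140000 (enc_scale 123 112 h1)) (enc_mul (enc_norm (l3q3_4.enc h1 h2)) (enc_norm (enc_sub (enc_rat _ 338 125) (enc_scale 3 2 h1))))) (enc_case (enc_subr 403 250 h1) (enc_add (enc_subr 14673 10000 (enc_scale 11 10 h1)) (enc_mul (enc_norm (l3q3_4.enc h1 h2)) (enc_norm (enc_sub (enc_rat _ 20351 14000) (enc_scale 39 56 h1))))) (enc_add (enc_add (enc_subr 10072312909 10000000000 (enc_scale 32583903 40000000 h1)) (enc_mul (enc_norm (l3q3_4.enc h1 h2)) (enc_norm (enc_subr 54898516691 3500000000 (enc_scale 139099297 14000000 h1))))) (enc_mul (l3q3_43.enc h1 h2) (enc_norm (enc_subr 480626263 14000000 (enc_scale 1192621 56000 h1))))))))) (enc_case (l3q3_117.enc h1 h2) (enc_add (l3q3_139.enc h1 h2) (enc_mul (enc_norm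 (enc_mul (enc_norm (enc_sub (enc_sub (qsg.enc (enc_norm (l3q3_79.enc h1 h2))) (enc_mul (enc_norm (enc_nat 2 (enc_sub (l3q3_79.enc h1 h2) h2))) (enc_norm (enc_mul (esg.enc (enc_norm (l3q3_79.enc h1 h2))) (kcg.enc (enc_norm (enc_sub (enc_scale 3 4 (l3q3_79.enc h1 h2)) (enc_half (gsg.enc (enc_norm (l3q3_79.enc h1 h2)))))) h2))))) (l3q3_139.enc h1 h2))) (enc_norm (enc_sub (cv3r.enc h1) (cv2r.enc h1))))) (enc_inv (enc_sub (enc_subr 1 2 (swg.enc h1)) (cv2r.enc h1))))) (enc_mul (cv3r.enc h1) (enc_norm (enc_case (enc_sub (enc_rat _ 367494643 500000000) (c3g.enc h1)) (enc_add (enc_add (enc_sub (enc_rat _ 457942409621143117 533295485000000000) (enc_scale 547964319 1066590970 (c3g.enc h1))) (enc_mul (enc_norm (l3q3_4.enc h1 h2)) (enc_norm (enc_add (enc_scale 64390881 106659097 (c3g.enc h1)) (enc_rat _ 15693902967449517 53329548500000000))))) (enc_mul (l3q3_43.enc h1 h2) (enc_norm (enc_subr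 20641439108024 1666548390625 (enc_scale 1797376000 106659097 (c3g.enc h1)))))) (enc_add (enc_add (enc_scale 58903400 367494643 (c3g.enc h1)) (enc_rat _ 908233 2500000)) (enc_mul (enc_norm (l3q3_4.enc h1 h2)) (enc_norm (enc_sub (enc_rat _ 4729691 2000000) (enc_scale 813422750 367494643 (c3g.enc h1))))))))))))⟩
noncomputable def bx3q3_3 : Fn2 := ⟨_, _, fun h1 h2 => (enc_subr 14173 20000 h2)⟩
noncomputable def bx3q3_42 : Fn2 := ⟨_, _, fun h1 h2 => (enc_sq (enc_norm (bx3q3_3.enc h1 h2)))⟩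
noncomputable def bx3q3 : Fn2 := ⟨_, _, fun h1 h2 => (enc_norm (enc_case (enc_subr 427 250 h1) (enc_case (enc_subr 389 250 h1) (enc_add (enc_subr 205033 140000 (enc_scale 123 112 h1)) (enc_mul (enc_norm (bx3q3_3.enc h1 h2)) (enc_norm (enc_sub (enc_rat _ 338 125) (enc_scale 3 2 h1))))) (enc_case (enc_subr 403 250 h1) (enc_add (enc_subr 14673 10000 (enc_scale 11 10 h1)) (enc_mul (enc_norm (bx3q3_3.enc h1 h2)) (enc_norm (enc_sub (enc_rat _ 20351 14000) (enc_scale 39 56 h1))))) (enc_add (enc_add (enc_subr 10072312909 10000000000 (enc_scale 32583903 40000000 h1)) (enc_mul (enc_norm (bx3q3_3.enc h1 h2)) (enc_norm (enc_subr 54898516691 3500000000 (enc_scale 139099297 14000000 h1))))) (enc_mul (bx3q3_42.enc h1 h2) (enc_norm (enc_subr 480626263 14000000 (enc_scale 1192621 56000 h1))))))) (enc_case (enc_sub (enc_rat _ 367494643 500000000) (c3g.enc h1)) (enc_add (enc_add (enc_sub (enc_rat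 _ 457942409621143117 533295485000000000) (enc_scale 547964319 1066590970 (c3g.enc h1))) (enc_mul (enc_norm (bx3q3_3.enc h1 h2)) (enc_norm (enc_add (enc_scale 64390881 106659097 (c3g.enc h1)) (enc_rat _ 15693902967449517 53329548500000000))))) (enc_mul (bx3q3_42.enc h1 h2) (enc_norm (enc_subr 20641439108024 1666548390625 (enc_scale 1797376000 106659097 (c3g.enc h1)))))) (enc_add (enc_add (enc_scale 58903400 367494643 (c3g.enc h1)) (enc_rat _ 908233 2500000)) (enc_mul (enc_norm (bx3q3_3.enc h1 h2)) (enc_norm (enc_sub (enc_rat _ 4729691 2000000) (enc_scale 813422750 367494643 (c3g.enc h1)))))))))⟩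
noncomputable def bx2q3_3 : Fn2 := ⟨_, _, fun h1 h2 => (enc_subr 14173 20000 h2)⟩
noncomputable def bx2q3 : Fn2 := ⟨_, _, fun h1 h2 => (enc_norm (enc_case (enc_subr 417 250 h1) (enc_case (enc_subr 389 250 h1) (enc_add (enc_subr 251277 140000 (enc_scale 759 560 h1)) (enc_mul (enc_norm (bx2q3_3.enc h1 h2)) (enc_norm (enc_sub (enc_rat _ 1007499 14000) (enc_scale 2701 56 h1))))) (enc_add (enc_subr 100433 56000 (enc_scale 1517 1120 h1)) (enc_mul (enc_norm (bx2q3_3.enc h1 h2)) (enc_norm (enc_subr 517003 28000 (enc_scale 1107 112 h1)))))) (enc_case (enc_subr 437 250 h1) (enc_add (enc_subr 89717 50000 (enc_scale 271 200 h1)) (enc_mul (enc_norm (bx2q3_3.enc h1 h2)) (enc_norm (enc_subr 369407 20000 (enc_scale 791 80 h1))))) (enc_add (enc_add (enc_scale 80600000 280549461 (c3g.enc h1)) (enc_rat _ 831 2500)) (enc_mul (enc_norm (bx2q3_3.enc h1 h2)) (enc_norm (enc_sub (enc_rat _ 8121 500)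 (enc_scale 17429000000 841648383 (c3g.enc h1)))))))))⟩
noncomputable def bx1q3_3 : Fn2 := ⟨_, _, fun h1 h2 => (enc_subr 14173 20000 h2)⟩
noncomputable def bx1q3 : Fn2 := ⟨_, _, fun h1 h2 => (enc_norm (enc_case (enc_subr 417 250 h1) (enc_add (enc_subr 28887 14000 (enc_scale 107 70 h1)) (enc_mul (enc_norm (bx1q3_3.enc h1 h2)) (enc_norm (enc_sub (enc_rat _ 116811 14000) (enc_scale 1069 168 h1))))) (enc_case (enc_subr 437 250 h1) (enc_add (enc_subr 206157 100000 (enc_scale 611 400 h1)) (enc_mul (enc_norm (bx1q3_3.enc h1 h2)) (enc_norm (enc_sub (enc_rat _ 166853 20000) (enc_scale 509 80 h1))))) (enc_add (enc_add (enc_scale 305000000 841648383 (c3g.enc h1)) (enc_rat _ 607 2000)) (enc_mul (enc_norm (bx1q3_3.enc h1 h2)) (enc_norm (enc_sub (enc_rat _ 21953 1000) (enc_scale 2748000000 93516487 (c3g.enc h1)))))))))⟩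
noncomputable def rxq3_36 : Fn3 := ⟨_, _, fun h1 h2 h3 => (enc_add (enc_mul h1 (bx3q3.enc h2 h3)) (enc_mul (enc_norm (enc_mul (enc_norm (enc_sub (enc_pnc _ 1) (lm2r.enc h1 h2))) (cv2r.enc h2))) (enc_norm (enc_sub (bx2q3.enc h2 h3) (bx3q3.enc h2 h3)))))⟩
noncomputable def rxq3_37 : Fn3 := ⟨_, _, fun h1 h2 h3 => (enc_subn 1 h2)⟩
noncomputable def rxq3_55 : Fn3 := ⟨_, _, fun h1 h2 h3 => (enc_sub h1 (cv2r.enc h2))⟩
noncomputable def rxq3 : Fn3 := ⟨_, _, fun h1 h2 h3 => (enc_case (enc_sub h1 (cv1r.enc h2)) (enc_mul h1 (bx1q3.enc h2 h3)) (enc_case (rxq3_55.enc h1 h2 h3) (enc_add (enc_mul h1 (bx2q3.enc h2 h3)) (enc_mul (enc_norm (enc_mul (enc_norm (enc_sub (enc_pnc _ 1) (lm1r.enc h1 h2))) (cv1r.enc h2))) (enc_norm (enc_sub (bx1q3.enc h2 h3) (bx2q3.enc h2 h3))))) (enc_case (enc_sub h1 (cv3r.enc h2)) (enc_case (enc_subr 417 250 h2) (rxq3_36.enc h1 h2 h3) (enc_case (enc_subr 437 250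 h2) (enc_add (l2q3.enc h2 h3) (enc_mul (enc_norm (enc_mul (enc_norm (rxq3_55.enc h1 h2 h3)) (enc_inv (enc_sub (enc_subr 1 2 (swg.enc h2)) (cv2r.enc h2))))) (enc_norm (enc_sub (enc_sub (qsg.enc (enc_norm (rxq3_37.enc h1 h2 h3))) (enc_mul (enc_norm (enc_nat 2 (enc_sub (rxq3_37.enc h1 h2 h3) h3))) (enc_norm (enc_mul (esg.enc (enc_norm (rxq3_37.enc h1 h2 h3))) (kcg.enc (enc_norm (enc_sub (enc_scale 3 4 (rxq3_37.enc h1 h2 h3)) (enc_half (gsg.enc (enc_norm (rxq3_37.enc h1 h2 h3)))))) h3))))) (l2q3.enc h2 h3))))) (rxq3_36.enc h1 h2 h3))) (enc_case (enc_sub h1 (cv4r.enc h2)) (enc_add (enc_mul h1 (bx4q3.enc h2 h3)) (enc_mul (enc_norm (enc_sub (enc_pnc _ 1) (lm3r.enc h1 h2))) (enc_norm (enc_sub (l3q3.enc h2 h3) (enc_mul (cv3r.enc h2) (bx4q3.enc h2 h3)))))) (enc_add (l4q3.enc h2 h3) (enc_mul (lm4r.enc h1 h2) (enc_norm (enc_sub (l5q3.enc h2 h3) (l4q3.enc h2 h3)))))))))⟩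
noncomputable def rlq3 : Fn3 := ⟨_, _, fun h1 h2 h3 => (enc_case h1 (enc_neg (rxq3.enc (enc_neg h1) h2 h3)) (rxq3.enc h1 h2 h3))⟩
noncomputable def bd3q0_3 : Fn2 := ⟨_, _, fun h1 h2 => (enc_subr 14173 20000 h2)⟩
noncomputable def bd3q0 : Fn2 := ⟨_, _, fun h1 h2 => (enc_norm (enc_case (enc_subr 73 250 h1) (enc_add (enc_subr 496 625 (enc_neg (enc_scale 50220287 9000000 h1))) (enc_mul (enc_norm (bd3q0_3.enc h1 h2)) (enc_norm (enc_add (enc_scale 2584241209 252000000 h1) (enc_rat _ 461 500))))) (enc_add (enc_subr 1081144019 560000000 (enc_neg (enc_scale 52967981 280000000 h1))) (enc_mul (enc_norm (bd3q0_3.enc h1 h2)) (enc_norm (enc_subr 8421903053 336000000 (enc_scale 13509615053 168000000 h1)))))))⟩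
noncomputable def rcq0_36 : Fn3 := ⟨_, _, fun h1 h2 h3 => (enc_add (enc_mul h1 (bd3q0.enc h2 h3)) (enc_mul (enc_norm (enc_mul (enc_norm (enc_sub (enc_pnc _ 1) (lm2m.enc h1 h2))) (cv2m.enc h2))) (enc_norm (enc_sub (bd2q0.enc h2 h3) (bd3q0.enc h2 h3)))))⟩
noncomputable def rcq0_38 : Fn3 := ⟨_, _, fun h1 h2 h3 => (enc_sub (enc_pnc _ 1) h2)⟩
noncomputable def rcq0_39 : Fn3 := ⟨_, _, fun h1 h2 h3 => (gsg.enc (enc_norm (rcq0_38.enc h1 h2 h3)))⟩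
noncomputable def rcq0_43 : Fn3 := ⟨_, _, fun h1 h2 h3 => (esg.enc (enc_norm (rcq0_38.enc h1 h2 h3)))⟩
noncomputable def rcq0_47 : Fn3 := ⟨_, _, fun h1 h2 h3 => (gug.enc (enc_norm (rcq0_38.enc h1 h2 h3)))⟩
noncomputable def rcq0_49 : Fn3 := ⟨_, _, fun h1 h2 h3 => (enc_mul (enc_norm (rcq0_38.enc h1 h2 h3)) (enc_inv (rcq0_39.enc h1 h2 h3)))⟩
noncomputable def rcq0_50 : Fn3 := ⟨_, _, fun h1 h2 h3 => (enc_scale 3 4 (rcq0_49.enc h1 h2 h3))⟩
noncomputable def rcq0_80 : Fn3 := ⟨_, _, fun h1 h2 h3 => (enc_sub h1 (cv2m.enc h2))⟩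
noncomputable def rcq0 : Fn3 := ⟨_, _, fun h1 h2 h3 => (enc_case (enc_sub h1 (cv1m.enc h2)) (enc_add (enc_mul h1 (bd1q0.enc h2 h3)) (enc_mul (enc_norm (enc_sub (enc_pnc _ 1) (lm0m.enc h1 h2))) (enc_norm (enc_sub (kc0q0.enc h2 h3) (enc_mul (c1g.enc h2) (bd1q0.enc h2 h3)))))) (enc_case (rcq0_80.enc h1 h2 h3) (enc_add (enc_mul h1 (bd2q0.enc h2 h3)) (enc_mul (enc_norm (enc_mul (enc_norm (enc_sub (enc_pnc _ 1) (lm1m.enc h1 h2))) (cv1m.enc h2))) (enc_norm (enc_sub (bd1q0.enc h2 h3) (bd2q0.enc h2 h3))))) (enc_case (enc_sub h1 (cv3m.enc h2)) (enc_case (enc_subr 63 250 h2) (rcq0_36.enc h1 h2 h3) (enc_case (enc_subr 83 250 h2) (enc_add (kc2q0.enc h2 h3) (enc_mul (enc_norm (enc_mul (enc_norm (rcq0_80.enc h1 h2 h3)) (enc_inv (enc_sub (enc_add (swg.enc h2) (enc_rat _ 1 2)) (cv2m.enc h2))))) (enc_norm (enc_sub (enc_add (enc_sub (enc_neg (enc_add (enc_add (enc_rat _ 3 4) (enc_scale 3 2 (rcq0_38.enc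 h1 h2 h3))) (enc_scale 3 4 (enc_mul (enc_norm (rcq0_49.enc h1 h2 h3)) (rcq0_47.enc h1 h2 h3))))) (enc_mul (enc_norm (enc_sub (enc_mul (enc_norm (enc_mul (enc_norm (rcq0_50.enc h1 h2 h3)) (enc_norm (enc_subn 3 (enc_nat 4 (rcq0_39.enc h1 h2 h3)))))) (rcq0_43.enc h1 h2 h3)) (enc_mul (qsg.enc (enc_norm (rcq0_38.enc h1 h2 h3))) (enc_norm (enc_sub (enc_rat _ 1 2) (rcq0_50.enc h1 h2 h3)))))) (enc_inv (enc_mul (enc_nat 2 (rcq0_43.enc h1 h2 h3)) (rcq0_43.enc h1 h2 h3))))) (enc_mul (kcg.enc (enc_norm (enc_sub (enc_scale 3 4 (rcq0_38.enc h1 h2 h3)) (enc_half (rcq0_39.enc h1 h2 h3)))) h3) (enc_norm (enc_add (enc_pnc _ 1) (enc_add (rcq0_47.enc h1 h2 h3) (enc_nat 2 (rcq0_39.enc h1 h2 h3))))))) (kc2q0.enc h2 h3))))) (rcq0_36.enc h1 h2 h3))) (enc_case (enc_sub h1 (cv4m.enc h2)) (enc_add (enc_mul h1 (bd4q0.enc h2 h3)) (enc_mul (enc_norm (enc_sub (enc_pnc _ 1) (lm3m.enc h1 h2))) (enc_norm (enc_sub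 (kc3q0.enc h2 h3) (enc_mul (cv3m.enc h2) (bd4q0.enc h2 h3)))))) (enc_add (kc4q0.enc h2 h3) (enc_mul (lm4m.enc h1 h2) (enc_norm (enc_sub (kc5q0.enc h2 h3) (kc4q0.enc h2 h3)))))))))⟩
noncomputable def pd0 : Fn3 := ⟨_, _, fun h1 h2 h3 => (enc_case h1 (enc_neg (rcq0.enc (enc_neg h1) h2 h3)) (rcq0.enc h1 h2 h3))⟩
noncomputable def rcq1 : Fn3 := ⟨_, _, fun h1 h2 h3 => (enc_case (enc_sub h1 (cv1m.enc h2)) (enc_add (enc_mul h1 (bd1q1.enc h2 h3)) (enc_mul (enc_norm (enc_sub (enc_pnc _ 1) (lm0m.enc h1 h2))) (enc_norm (enc_sub (kc0q1.enc h2 h3) (enc_mul (c1g.enc h2) (bd1q1.enc h2 h3)))))) (enc_case (enc_sub h1 (cv2m.enc h2)) (enc_add (enc_mul h1 (bd2q1.enc h2 h3)) (enc_mul (enc_norm (enc_mul (enc_norm (enc_sub (enc_pnc _ 1) (lm1m.enc h1 h2))) (cv1m.enc h2))) (enc_norm (enc_sub (bd1q1.enc h2 h3) (bd2q1.enc h2 h3))))) (enc_case (enc_sub h1 (cv3m.enc h2)) (enc_add (enc_mul h1 (bd3q1.enc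 h2 h3)) (enc_mul (enc_norm (enc_mul (enc_norm (enc_sub (enc_pnc _ 1) (lm2m.enc h1 h2))) (cv2m.enc h2))) (enc_norm (enc_sub (bd2q1.enc h2 h3) (bd3q1.enc h2 h3))))) (enc_case (enc_sub h1 (cv4m.enc h2)) (enc_add (enc_mul h1 (bd4q1.enc h2 h3)) (enc_mul (enc_norm (enc_mul (enc_norm (enc_sub (enc_pnc _ 1) (lm3m.enc h1 h2))) (cv3m.enc h2))) (enc_norm (enc_sub (bd3q1.enc h2 h3) (bd4q1.enc h2 h3))))) (enc_add (kc4q1.enc h2 h3) (enc_mul (lm4m.enc h1 h2) (enc_norm (enc_sub (kc5q1.enc h2 h3) (kc4q1.enc h2 h3)))))))))⟩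
noncomputable def pd1 : Fn3 := ⟨_, _, fun h1 h2 h3 => (enc_case h1 (enc_neg (rcq1.enc (enc_neg h1) h2 h3)) (rcq1.enc h1 h2 h3))⟩
noncomputable def kc0q2_3 : Fn2 := ⟨_, _, fun h1 h2 => (enc_subr 14173 20000 h2)⟩
noncomputable def kc0q2 : Fn2 := ⟨_, _, fun h1 h2 => (enc_norm (enc_case (enc_subr 3 100 (c1g.enc h1)) (enc_mul (enc_norm (kc0q2_3.enc h1 h2)) (enc_scale 3 5 (c1g.enc h1))) (enc_case (enc_subr 53 200 (c1g.enc h1)) (enc_mul (enc_norm (kc0q2_3.enc h1 h2)) (enc_norm (enc_sub (enc_rat _ 489 23500) (enc_scale 22 235 (c1g.enc h1))))) (enc_mul (enc_norm (kc0q2_3.enc h1 h2)) (enc_norm (enc_subr 2 235 (enc_scale 4 235 (c1g.enc h1))))))))⟩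
noncomputable def n0d : Fn2 := ⟨_, _, fun h1 h2 => (enc_norm (enc_scale 3 5 (enc_subr 14173 20000 h2)))⟩
noncomputable def rcq2_51 : Fn3 := ⟨_, _, fun h1 h2 h3 => (enc_mul h1 (bd1q2.enc h2 h3))⟩
noncomputable def rcq2_53 : Fn3 := ⟨_, _, fun h1 h2 h3 => (enc_sub (enc_pnc _ 1) (lm0p.enc h1 h2))⟩
noncomputable def rcq2 : Fn3 := ⟨_, _, fun h1 h2 h3 => (enc_case (enc_sub h1 (cv1p.enc h2)) (enc_case (enc_subr 5771 5000 h2) (enc_add (rcq2_51.enc h1 h2 h3) (enc_mul (enc_norm (rcq2_53.enc h1 h2 h3)) (enc_norm (enc_sub (kc0q2.enc h2 h3) (enc_mul (c1g.enc h2) (bd1q2.enc h2 h3)))))) (enc_case (enc_subr 2887 2500 h2) (enc_add (rcq2_51.enc h1 h2 h3) (enc_mul (enc_norm (rcq2_53.enc h1 h2 h3)) (enc_norm (enc_mul (c1g.enc h2) (enc_norm (enc_sub (n0d.enc h2 h3) (bd1q2.enc h2 h3))))))) (rcq2_51.enc h1 h2 h3))) (enc_case (enc_sub h1 (cv2p.enc h2)) (enc_add (enc_mul h1 (bd2q2.enc h2 h3)) (enc_mul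 (enc_norm (enc_mul (enc_norm (enc_sub (enc_pnc _ 1) (lm1p.enc h1 h2))) (cv1p.enc h2))) (enc_norm (enc_sub (bd1q2.enc h2 h3) (bd2q2.enc h2 h3))))) (enc_case (enc_sub h1 (cv3p.enc h2)) (enc_add (enc_mul h1 (bd3q2.enc h2 h3)) (enc_mul (enc_norm (enc_mul (enc_norm (enc_sub (enc_pnc _ 1) (lm2p.enc h1 h2))) (cv2p.enc h2))) (enc_norm (enc_sub (bd2q2.enc h2 h3) (bd3q2.enc h2 h3))))) (enc_case (enc_sub h1 (cv4p.enc h2)) (enc_add (enc_mul h1 (bd4q2.enc h2 h3)) (enc_mul (enc_norm (enc_mul (enc_norm (enc_sub (enc_pnc _ 1) (lm3p.enc h1 h2))) (cv3p.enc h2))) (enc_norm (enc_sub (bd3q2.enc h2 h3) (bd4q2.enc h2 h3))))) (enc_add (kc4q2.enc h2 h3) (enc_mul (lm4p.enc h1 h2) (enc_norm (enc_sub (kc5q2.enc h2 h3) (kc4q2.enc h2 h3)))))))))⟩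
noncomputable def pd2 : Fn3 := ⟨_, _, fun h1 h2 h3 => (enc_case h1 (enc_neg (rcq2.enc (enc_neg h1) h2 h3)) (rcq2.enc h1 h2 h3))⟩
noncomputable def kc4q3_4 : Fn2 := ⟨_, _, fun h1 h2 => (enc_subr 14173 20000 h2)⟩
noncomputable def kc4q3 : Fn2 := ⟨_, _, fun h1 h2 => (enc_norm (enc_mul (cv4r.enc h1) (enc_norm (enc_case (enc_subr 417 250 h1) (enc_add (enc_subr 98919 35000 (enc_scale 1949 840 h1)) (enc_mul (enc_norm (kc4q3_4.enc h1 h2)) (enc_norm (enc_sub (enc_rat _ 93501 500) (enc_nat 109 h1))))) (enc_case (enc_subr 437 250 h1) (enc_add (enc_subr 141293 50000 (enc_scale 58 25 h1)) (enc_mul (enc_norm (kc4q3_4.enc h1 h2)) (enc_norm (enc_sub (enc_rat _ 3740457 20000) (enc_scale 8721 80 h1))))) (enc_add (enc_subr 3343 3340 (enc_scale 372476500000 140555279961 (c3g.enc h1))) (enc_mul (enc_norm (kc4q3_4.enc h1 h2)) (enc_norm (enc_subr 18465 334 (enc_scale 2880941000000 46851759987 (c3g.enc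 h1)))))))))))⟩
noncomputable def kc5q3_3 : Fn2 := ⟨_, _, fun h1 h2 => (enc_subr 14173 20000 h2)⟩
noncomputable def kc5q3_9 : Fn2 := ⟨_, _, fun h1 h2 => (enc_sub (enc_half (c3g.enc h1)) (enc_scale 1 4 h1))⟩
noncomputable def kc5q3_32 : Fn2 := ⟨_, _, fun h1 h2 => (enc_scale 8957 166 (kc5q3_9.enc h1 h2))⟩
noncomputable def kc5q3_46 : Fn2 := ⟨_, _, fun h1 h2 => (enc_add (enc_add (enc_scale 921 835 (kc5q3_9.enc h1 h2)) (enc_rat _ 33 1000)) (enc_mul (enc_norm (kc5q3_3.enc h1 h2)) (enc_norm (enc_subr 249 500 (enc_scale 9010 167 (kc5q3_9.enc h1 h2))))))⟩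
noncomputable def kc5q3 : Fn2 := ⟨_, _, fun h1 h2 => (enc_norm (enc_case (kc5q3_9.enc h1 h2) (enc_case (enc_add (kc5q3_9.enc h1 h2) (enc_rat _ 333 1000)) (enc_add (enc_subr 3343 3340 (enc_neg (enc_scale 3343 1670 (kc5q3_9.enc h1 h2)))) (enc_mul (enc_norm (kc5q3_3.enc h1 h2)) (enc_norm (enc_subr 18465 334 (enc_neg (enc_scale 18465 167 (kc5q3_9.enc h1 h2))))))) (enc_case (enc_add (kc5q3_9.enc h1 h2) (enc_rat _ 167 1000)) (enc_add (enc_add (enc_scale 1831 1660 (kc5q3_9.enc h1 h2)) (enc_rat _ 10957 332000)) (enc_mul (enc_norm (kc5q3_3.enc h1 h2)) (enc_norm (enc_subr 82509 166000 (kc5q3_32.enc h1 h2))))) (kc5q3_46.enc h1 h2))) (enc_case (enc_subr 167 1000 (kc5q3_9.enc h1 h2)) (kc5q3_46.enc h1 h2) (enc_case (enc_subr 333 1000 (kc5q3_9.enc h1 h2)) (enc_add (enc_add (enc_scale 458 415 (kc5q3_9.enc h1 h2)) (enc_rat _ 3413 103750)) (enc_mul (enc_norm (kc5q3_3.enc h1 h2)) (enc_norm (enc_subr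 82827 166000 (kc5q3_32.enc h1 h2))))) (enc_add (enc_sub (enc_rat _ 1001 835) (enc_scale 2002 835 (kc5q3_9.enc h1 h2))) (enc_mul (enc_norm (kc5q3_3.enc h1 h2)) (enc_norm (enc_sub (enc_rat _ 17469 334) (enc_scale 17469 167 (kc5q3_9.enc h1 h2))))))))))⟩
noncomputable def bd4q3_3 : Fn2 := ⟨_, _, fun h1 h2 => (enc_subr 14173 20000 h2)⟩
noncomputable def bd4q3 : Fn2 := ⟨_, _, fun h1 h2 => (enc_norm (enc_case (enc_subr 417 250 h1) (enc_add (enc_subr 98919 35000 (enc_scale 1949 840 h1)) (enc_mul (enc_norm (bd4q3_3.enc h1 h2)) (enc_norm (enc_sub (enc_rat _ 93501 500) (enc_nat 109 h1))))) (enc_case (enc_subr 437 250 h1) (enc_add (enc_subr 141293 50000 (enc_scale 58 25 h1)) (enc_mul (enc_norm (bd4q3_3.enc h1 h2)) (enc_norm (enc_sub (enc_rat _ 3740457 20000) (enc_scale 8721 80 h1))))) (enc_add (enc_subr 3343 3340 (enc_scale 372476500000 140555279961 (c3g.enc h1))) (enc_mul (enc_norm (bd4q3_3.enc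 h1 h2)) (enc_norm (enc_subr 18465 334 (enc_scale 2880941000000 46851759987 (c3g.enc h1)))))))))⟩
noncomputable def kc3q3_4 : Fn2 := ⟨_, _, fun h1 h2 => (enc_subr 14173 20000 h2)⟩
noncomputable def kc3q3_29 : Fn2 := ⟨_, _, fun h1 h2 => (enc_subn 1 h1)⟩
noncomputable def kc3q3_30 : Fn2 := ⟨_, _, fun h1 h2 => (gsg.enc (enc_norm (kc3q3_29.enc h1 h2)))⟩
noncomputable def kc3q3_34 : Fn2 := ⟨_, _, fun h1 h2 => (esg.enc (enc_norm (kc3q3_29.enc h1 h2)))⟩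
noncomputable def kc3q3_39 : Fn2 := ⟨_, _, fun h1 h2 => (gug.enc (enc_norm (kc3q3_29.enc h1 h2)))⟩
noncomputable def kc3q3_41 : Fn2 := ⟨_, _, fun h1 h2 => (enc_mul (enc_norm (kc3q3_29.enc h1 h2)) (enc_inv (kc3q3_30.enc h1 h2)))⟩
noncomputable def kc3q3_42 : Fn2 := ⟨_, _, fun h1 h2 => (enc_scale 3 4 (kc3q3_41.enc h1 h2))⟩
noncomputable def kc3q3_70 : Fn2 := ⟨_, _, fun h1 h2 => (enc_subr 417 250 h1)⟩
noncomputable def kc3q3_82 : Fn2 := ⟨_, _, fun h1 h2 => (enc_subr 437 250 h1)⟩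
noncomputable def kc3q3_105 : Fn2 := ⟨_, _, fun h1 h2 => (enc_mul (cv2r.enc h1) (enc_norm (enc_case (kc3q3_70.enc h1 h2) (enc_add (enc_subr 76361 7000 (enc_scale 7531 840 h1)) (enc_mul (enc_norm (kc3q3_4.enc h1 h2)) (enc_norm (enc_sub (enc_rat _ 34481 350) (enc_scale 2495 42 h1))))) (enc_case (kc3q3_82.enc h1 h2) (enc_add (enc_subr 136349 12500 (enc_scale 1793 200 h1)) (enc_mul (enc_norm (kc3q3_4.enc h1 h2)) (enc_norm (enc_sub (enc_rat _ 1970601 20000) (enc_scale 4753 80 h1))))) (enc_add (enc_subr 7777 5000 (enc_scale 2106100000 280549461 (c3g.enc h1))) (enc_mul (enc_norm (kc3q3_4.enc h1 h2)) (enc_norm (enc_subr 8184 125 (enc_scale 60149000000 841648383 (c3g.enc h1))))))))))⟩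
noncomputable def kc3q3 : Fn2 := ⟨_, _, fun h1 h2 => (enc_norm (enc_case (kc3q3_70.enc h1 h2) (enc_mul (cv3r.enc h1) (enc_norm (enc_add (enc_subr 21812481273 1120000000 (enc_scale 22898657273 1680000000 h1)) (enc_mul (enc_norm (kc3q3_4.enc h1 h2)) (enc_norm (enc_sub (enc_rat _ 30333986887 56000000) (enc_scale 9184379629 28000000 h1))))))) (enc_case (kc3q3_82.enc h1 h2) (enc_add (kc3q3_105.enc h1 h2) (enc_mul (enc_norm (enc_mul (enc_norm (enc_sub (enc_add (enc_sub (enc_add (enc_add (enc_rat _ 3 4) (enc_scale 3 2 (kc3q3_29.enc h1 h2))) (enc_scale 3 4 (enc_mul (enc_norm (kc3q3_41.enc h1 h2)) (kc3q3_39.enc h1 h2)))) (enc_mul (enc_norm (enc_sub (enc_mul (enc_norm (enc_mul (enc_norm (kc3q3_42.enc h1 h2)) (enc_norm (enc_subn 3 (enc_nat 4 (kc3q3_30.enc h1 h2)))))) (kc3q3_34.enc h1 h2)) (enc_mul (qsg.enc (enc_norm (kc3q3_29.enc h1 h2))) (enc_norm (enc_sub (enc_rat _ 1 2) (kc3q3_42.enc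 h1 h2)))))) (enc_inv (enc_mul (enc_nat 2 (kc3q3_34.enc h1 h2)) (kc3q3_34.enc h1 h2))))) (enc_mul (kcg.enc (enc_norm (enc_sub (enc_scale 3 4 (kc3q3_29.enc h1 h2)) (enc_half (kc3q3_30.enc h1 h2)))) h2) (enc_norm (enc_sub (enc_pnc _ 1) (enc_add (kc3q3_39.enc h1 h2) (enc_nat 2 (kc3q3_30.enc h1 h2))))))) (kc3q3_105.enc h1 h2))) (enc_norm (enc_sub (cv3r.enc h1) (cv2r.enc h1))))) (enc_inv (enc_sub (enc_subr 1 2 (swg.enc h1)) (cv2r.enc h1))))) (enc_mul (cv3r.enc h1) (enc_norm (enc_add (enc_subr 3343 3340 (enc_scale 1646487962483 281110559922 (c3g.enc h1))) (enc_mul (enc_norm (kc3q3_4.enc h1 h2)) (enc_norm (enc_subr 18465 334 (enc_scale 879119755249 15617253329 (c3g.enc h1)))))))))))⟩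
noncomputable def bd3q3_3 : Fn2 := ⟨_, _, fun h1 h2 => (enc_subr 14173 20000 h2)⟩
noncomputable def bd3q3 : Fn2 := ⟨_, _, fun h1 h2 => (enc_norm (enc_case (enc_subr 427 250 h1) (enc_add (enc_subr 21812481273 1120000000 (enc_scale 22898657273 1680000000 h1)) (enc_mul (enc_norm (bd3q3_3.enc h1 h2)) (enc_norm (enc_sub (enc_rat _ 30333986887 56000000) (enc_scale 9184379629 28000000 h1))))) (enc_add (enc_subr 3343 3340 (enc_scale 1646487962483 281110559922 (c3g.enc h1))) (enc_mul (enc_norm (bd3q3_3.enc h1 h2)) (enc_norm (enc_subr 18465 334 (enc_scale 879119755249 15617253329 (c3g.enc h1))))))))⟩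
noncomputable def bd2q3_3 : Fn2 := ⟨_, _, fun h1 h2 => (enc_subr 14173 20000 h2)⟩
noncomputable def bd2q3 : Fn2 := ⟨_, _, fun h1 h2 => (enc_norm (enc_case (enc_subr 417 250 h1) (enc_add (enc_subr 76361 7000 (enc_scale 7531 840 h1)) (enc_mul (enc_norm (bd2q3_3.enc h1 h2)) (enc_norm (enc_sub (enc_rat _ 34481 350) (enc_scale 2495 42 h1))))) (enc_case (enc_subr 437 250 h1) (enc_add (enc_subr 136349 12500 (enc_scale 1793 200 h1)) (enc_mul (enc_norm (bd2q3_3.enc h1 h2)) (enc_norm (enc_sub (enc_rat _ 1970601 20000) (enc_scale 4753 80 h1))))) (enc_add (enc_subr 7777 5000 (enc_scale 2106100000 280549461 (c3g.enc h1))) (enc_mul (enc_norm (bd2q3_3.enc h1 h2)) (enc_norm (enc_subr 8184 125 (enc_scale 60149000000 841648383 (c3g.enc h1)))))))))⟩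
noncomputable def bd1q3_3 : Fn2 := ⟨_, _, fun h1 h2 => (enc_subr 14173 20000 h2)⟩
noncomputable def bd1q3 : Fn2 := ⟨_, _, fun h1 h2 => (enc_norm (enc_case (enc_subr 417 250 h1) (enc_add (enc_subr 1268853 140000 (enc_scale 13183 1680 h1)) (enc_mul (enc_norm (bd1q3_3.enc h1 h2)) (enc_norm (enc_sub (enc_rat _ 341 560) (enc_scale 1 168 h1))))) (enc_case (enc_subr 437 250 h1) (enc_add (enc_subr 1812389 200000 (enc_scale 6277 800 h1)) (enc_scale 599 1000 (bd1q3_3.enc h1 h2))) (enc_add (enc_subr 11623 10000 (enc_scale 5815600000 841648383 (c3g.enc h1))) (enc_mul (enc_norm (bd1q3_3.enc h1 h2)) (enc_norm (enc_subr 86701 1000 (enc_scale 9700000000 93516487 (c3g.enc h1)))))))))⟩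
noncomputable def rcq3_36 : Fn3 := ⟨_, _, fun h1 h2 h3 => (enc_add (enc_mul h1 (bd3q3.enc h2 h3)) (enc_mul (enc_norm (enc_mul (enc_norm (enc_sub (enc_pnc _ 1) (lm2r.enc h1 h2))) (cv2r.enc h2))) (enc_norm (enc_sub (bd2q3.enc h2 h3) (bd3q3.enc h2 h3)))))⟩
noncomputable def rcq3_37 : Fn3 := ⟨_, _, fun h1 h2 h3 => (enc_subn 1 h2)⟩
noncomputable def rcq3_38 : Fn3 := ⟨_, _, fun h1 h2 h3 => (gsg.enc (enc_norm (rcq3_37.enc h1 h2 h3)))⟩
noncomputable def rcq3_42 : Fn3 := ⟨_, _, fun h1 h2 h3 => (esg.enc (enc_norm (rcq3_37.enc h1 h2 h3)))⟩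
noncomputable def rcq3_47 : Fn3 := ⟨_, _, fun h1 h2 h3 => (gug.enc (enc_norm (rcq3_37.enc h1 h2 h3)))⟩
noncomputable def rcq3_49 : Fn3 := ⟨_, _, fun h1 h2 h3 => (enc_mul (enc_norm (rcq3_37.enc h1 h2 h3)) (enc_inv (rcq3_38.enc h1 h2 h3)))⟩
noncomputable def rcq3_50 : Fn3 := ⟨_, _, fun h1 h2 h3 => (enc_scale 3 4 (rcq3_49.enc h1 h2 h3))⟩
noncomputable def rcq3_80 : Fn3 := ⟨_, _, fun h1 h2 h3 => (enc_sub h1 (cv2r.enc h2))⟩
noncomputable def rcq3 : Fn3 := ⟨_, _, fun h1 h2 h3 => (enc_case (enc_sub h1 (cv1r.enc h2)) (enc_mul h1 (bd1q3.enc h2 h3)) (enc_case (rcq3_80.enc h1 h2 h3) (enc_add (enc_mul h1 (bd2q3.enc h2 h3)) (enc_mul (enc_norm (enc_mul (enc_norm (enc_sub (enc_pnc _ 1) (lm1r.enc h1 h2))) (cv1r.enc h2))) (enc_norm (enc_sub (bd1q3.enc h2 h3) (bd2q3.enc h2 h3))))) (enc_case (enc_sub h1 (cv3r.enc h2)) (enc_case (enc_subr 417 250 h2) (rcq3_36.enc h1 h2 h3) (enc_case (enc_subr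 437 250 h2) (enc_add (kc2q3.enc h2 h3) (enc_mul (enc_norm (enc_mul (enc_norm (rcq3_80.enc h1 h2 h3)) (enc_inv (enc_sub (enc_subr 1 2 (swg.enc h2)) (cv2r.enc h2))))) (enc_norm (enc_sub (enc_add (enc_sub (enc_add (enc_add (enc_rat _ 3 4) (enc_scale 3 2 (rcq3_37.enc h1 h2 h3))) (enc_scale 3 4 (enc_mul (enc_norm (rcq3_49.enc h1 h2 h3)) (rcq3_47.enc h1 h2 h3)))) (enc_mul (enc_norm (enc_sub (enc_mul (enc_norm (enc_mul (enc_norm (rcq3_50.enc h1 h2 h3)) (enc_norm (enc_subn 3 (enc_nat 4 (rcq3_38.enc h1 h2 h3)))))) (rcq3_42.enc h1 h2 h3)) (enc_mul (qsg.enc (enc_norm (rcq3_37.enc h1 h2 h3))) (enc_norm (enc_sub (enc_rat _ 1 2) (rcq3_50.enc h1 h2 h3)))))) (enc_inv (enc_mul (enc_nat 2 (rcq3_42.enc h1 h2 h3)) (rcq3_42.enc h1 h2 h3))))) (enc_mul (kcg.enc (enc_norm (enc_sub (enc_scale 3 4 (rcq3_37.enc h1 h2 h3)) (enc_half (rcq3_38.enc h1 h2 h3)))) h3) (enc_norm (enc_sub (enc_pnc _ 1) (enc_add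 (rcq3_47.enc h1 h2 h3) (enc_nat 2 (rcq3_38.enc h1 h2 h3))))))) (kc2q3.enc h2 h3))))) (rcq3_36.enc h1 h2 h3))) (enc_case (enc_sub h1 (cv4r.enc h2)) (enc_add (enc_mul h1 (bd4q3.enc h2 h3)) (enc_mul (enc_norm (enc_sub (enc_pnc _ 1) (lm3r.enc h1 h2))) (enc_norm (enc_sub (kc3q3.enc h2 h3) (enc_mul (cv3r.enc h2) (bd4q3.enc h2 h3)))))) (enc_add (kc4q3.enc h2 h3) (enc_mul (lm4r.enc h1 h2) (enc_norm (enc_sub (kc5q3.enc h2 h3) (kc4q3.enc h2 h3)))))))))⟩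
noncomputable def pd3 : Fn3 := ⟨_, _, fun h1 h2 h3 => (enc_case h1 (enc_neg (rcq3.enc (enc_neg h1) h2 h3)) (rcq3.enc h1 h2 h3))⟩
noncomputable def mug3 : Fn1 := ⟨_, _, fun h1 => (enc_inv (enc_add (enc_nat 2 (gsg.enc h1)) (enc_pnc _ 3)))⟩
noncomputable def eng : Fn1 := ⟨_, _, fun h1 => (enc_norm (enc_add (enc_pnc _ 1) (enc_mul (mug3.enc h1) (gug.enc h1))))⟩
noncomputable def mog : Fn1 := ⟨_, _, fun h1 => (enc_norm (enc_scale 1 20 (enc_mul (mug3.enc h1) (esg.enc h1))))⟩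
noncomputable def kf1q2 : Fn2 := ⟨_, _, fun h1 h2 => (enc_norm (enc_mul (cv1p.enc h1) (bf1q2.enc h1 h2)))⟩
noncomputable def l1q2 : Fn2 := ⟨_, _, fun h1 h2 => (enc_norm (enc_mul (cv1p.enc h1) (bx1q2.enc h1 h2)))⟩
noncomputable def kc1q2 : Fn2 := ⟨_, _, fun h1 h2 => (enc_norm (enc_mul (cv1p.enc h1) (bd1q2.enc h1 h2)))⟩
noncomputable def kf2q2 : Fn2 := ⟨_, _, fun h1 h2 => (enc_norm (enc_mul (cv2p.enc h1) (bf2q2.enc h1 h2)))⟩
noncomputable def l2q2 : Fn2 := ⟨_, _, fun h1 h2 => (enc_norm (enc_mul (cv2p.enc h1) (bx2q2.enc h1 h2)))⟩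
noncomputable def kc2q2 : Fn2 := ⟨_, _, fun h1 h2 => (enc_norm (enc_mul (cv2p.enc h1) (bd2q2.enc h1 h2)))⟩

noncomputable def ndB0q0 : Node := ⟨idf, c1g, kf0q0, l0q0⟩
noncomputable def cd0q0 : Fn2 := kc0q0
noncomputable def ndB0q1 : Node := ⟨idf, c1g, kf0q1, l0q1⟩
noncomputable def cd0q1 : Fn2 := kc0q1
noncomputable def ndB0q2 : Node := ⟨yag, idf, kfc02, lc02⟩
noncomputable def cd0q2 : Fn2 := kcc02
noncomputable def ndB1q0 : Node := ⟨idf, cv1m, kf1q0, l1q0⟩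
noncomputable def cd1q0 : Fn2 := kc1q0
noncomputable def ndB1q1 : Node := ⟨idf, cv1m, kf1q1, l1q1⟩
noncomputable def cd1q1 : Fn2 := kc1q1
noncomputable def ndB1q2a : Node := ⟨yag, xc12a, kfc12a, lc12a⟩
noncomputable def cd1q2a : Fn2 := kcc12a
noncomputable def ndB1q2b : Node := ⟨idf, xc12b, kfc12b, lc12b⟩
noncomputable def cd1q2b : Fn2 := kcc12b
noncomputable def ndB1q3 : Node := ⟨idf, cv1r, kf1q3, l1q3⟩
noncomputable def cd1q3 : Fn2 := kc1q3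
noncomputable def ndB2q0 : Node := ⟨idf, cv2m, kf2q0, l2q0⟩
noncomputable def cd2q0 : Fn2 := kc2q0
noncomputable def ndB2q1 : Node := ⟨idf, cv2m, kf2q1, l2q1⟩
noncomputable def cd2q1 : Fn2 := kc2q1
noncomputable def ndB2q2a : Node := ⟨yag, xc22a, kfc22a, lc22a⟩
noncomputable def cd2q2a : Fn2 := kcc22a
noncomputable def ndB2q2b : Node := ⟨idf, xc22b, kfc22b, lc22b⟩
noncomputable def cd2q2b : Fn2 := kcc22b
noncomputable def ndB2q3 : Node := ⟨idf, cv2r, kf2q3, l2q3⟩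
noncomputable def cd2q3 : Fn2 := kc2q3
noncomputable def ndB3q0 : Node := ⟨idf, cv3m, kf3q0, l3q0⟩
noncomputable def cd3q0 : Fn2 := kc3q0
noncomputable def ndB3q1 : Node := ⟨idf, cv3m, kf3q1, l3q1⟩
noncomputable def cd3q1 : Fn2 := kc3q1
noncomputable def ndB3q2 : Node := ⟨idf, cv3p, kf3q2, l3q2⟩
noncomputable def cd3q2 : Fn2 := kc3q2
noncomputable def ndB3q3 : Node := ⟨ycg, xc33, kfc33, lc33⟩
noncomputable def cd3q3 : Fn2 := kcc33
noncomputable def ndB4q0 : Node := ⟨idf, cv4m, kf4q0, l4q0⟩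
noncomputable def cd4q0 : Fn2 := kc4q0
noncomputable def ndB4q1 : Node := ⟨idf, cv4m, kf4q1, l4q1⟩
noncomputable def cd4q1 : Fn2 := kc4q1
noncomputable def ndB4q2 : Node := ⟨idf, cv4p, kf4q2, l4q2⟩
noncomputable def cd4q2 : Fn2 := kc4q2
noncomputable def ndB4q3 : Node := ⟨ycg, xc43, kfc43, lc43⟩
noncomputable def cd4q3 : Fn2 := kcc43
noncomputable def ndB5q0 : Node := ⟨idf, c3g, kf5q0, l5q0⟩
noncomputable def cd5q0 : Fn2 := kc5q0
noncomputable def ndB5q1 : Node := ⟨idf, c3g, kf5q1, l5q1⟩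
noncomputable def cd5q1 : Fn2 := kc5q1
noncomputable def ndB5q2 : Node := ⟨idf, c3g, kf5q2, l5q2⟩
noncomputable def cd5q2 : Fn2 := kc5q2
noncomputable def ndB5q3 : Node := ⟨ycg, idf, kfc53, lc53⟩
noncomputable def cd5q3 : Fn2 := kcc53
noncomputable def pcB0 : Piece := ⟨rsbq0, rlq0⟩
noncomputable def pcB1 : Piece := ⟨rsbq1, rlq1⟩
noncomputable def pcB2 : Piece := ⟨rsbq2, rlq2⟩
noncomputable def pcB3 : Piece := ⟨rsbq3, rlq3⟩
noncomputable def ndB1q2 : Node := ⟨idf, cv1p, kf1q2, l1q2⟩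
noncomputable def cd1q2 : Fn2 := kc1q2
noncomputable def ndB2q2 : Node := ⟨idf, cv2p, kf2q2, l2q2⟩
noncomputable def cd2q2 : Fn2 := kc2q2
end Pool.Agent.Strip051.G.I69_7273.Tab
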