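import Pool.Agent.Strip051.G.I69_7273.MolD

/-! # The tight charts of a table: certificates (generated) -/

set_option linter.all false
set_option maxRecDepth 100000

namespace Pool.Agent.Strip051.G.I69_7273.Tab.Mo

open Pool.Agent.Strip051.PB Pool.Agent.Strip051.PB.Mol Pool.Agent.Strip051.PB.T
open Pool.Agent.Strip051.G.I69_7273.Tab

noncomputable def f2Ap : ℕ → ℕ → ℕ → ℕ → Bool :=
  onCell 0 41943040 0 33554432 740881858 40050571 (c2_Ap.row false 20971520)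

theorem h0_2Ap : ∃ t, chk3 f2Ap t 1 1 1 = true :=
  ⟨(c (b (b (a (a (l 8) (l 10)) (a (l 10) (l 2))) (a (a (l 8) (l 10)) (a (l 2) (l 2)))) (a (c (a (l 10) (l 10)) (a (l 10) (l 10))) (b (a (l 2) (l 1)) (l 1)))) (b (a (c (l 10) (l 10)) (b (c (l 10) (l 10)) (c (l 2) (a (l 2) (l 2))))) (a (b (c (l 10) (a (l 10) (l 10))) (c (a (l 10) (l 2)) (a (l 10) (l 10)))) (b (a (c (l 2) (l 2)) (l 1)) (l 1))))), by decide +kernel⟩

theorem ct_2Ap : ∃ t, chk3 f2Ap t 1 1 1 = true := h0_2Ap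

noncomputable def f2Apk1 : ℕ → ℕ → ℕ → ℕ → Bool :=
  onCell 0 41943040 0 33554432 740881858 40050571 (c2_Apk1.row false 20971520)

theorem h0_2Apk1 : ∃ t, chk3 f2Apk1 t 1 1 1 = true :=
  ⟨(c (b (b (a (l 10) (l 10)) (a (l 10) (l 2))) (a (c (l 10) (l 10)) (b (a (l 2) (l 1)) (l 1)))) (b (a (a (l 10) (l 10)) (c (l 10) (a (l 10) (l 2)))) (a (c (a (l 10) (l 10)) (a (l 10) (l 10))) (b (a (l 2) (l 1)) (l 1))))), by decide +kernel⟩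

theorem ct_2Apk1 : ∃ t, chk3 f2Apk1 t 1 1 1 = true := h0_2Apk1

noncomputable def f2Apk2 : ℕ → ℕ → ℕ → ℕ → Bool :=
  onCell 0 41943040 0 33554432 740881858 40050571 (c2_Apk2.row false 20971520)

theorem h0_2Apk2 : ∃ t, chk3 f2Apk2 t 1 1 1 = true :=
  ⟨(c (b (a (l 10) (l 10)) (a (a (l 10) (l 10)) (a (l 2) (l 1)))) (b (a (l 10) (a (l 10) (l 2))) (a (c (l 10) (l 10)) (a (l 2) (l 1))))), by decide +kernel⟩

theorem ct_2Apk2 : ∃ t, chk3 f2Apk2 t 1 1 1 = true := h0_2Apk2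

noncomputable def f2Am : ℕ → ℕ → ℕ → ℕ → Bool :=
  onCell 0 41943040 0 33554432 740881858 40050571 (c2_Am.row true 20971520)

theorem h0_2Am : ∃ t, chk3 f2Am t 1 1 1 = true :=
  ⟨(c (b (a (b (a (l 8) (l 10)) (c (l 8) (l 8))) (b (a (l 10) (l 2)) (a (l 10) (l 10)))) (a (b (c (l 8) (l 8)) (l 3)) (c (a (b (l 10) (l 8)) (l 10)) (a (l 10) (l 10))))) (b (b (a (a (l 8) (l 10)) (a (l 10) (l 2))) (a (a (l 8) (l 8)) (a (l 10) (l 10)))) (a (a (l 3) (c (l 8) (l 8))) (c (a (l 10) (l 10)) (a (l 10) (l 10)))))), by decide +kernel⟩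

theorem ct_2Am : ∃ t, chk3 f2Am t 1 1 1 = true := h0_2Am

noncomputable def f2Bp : ℕ → ℕ → ℕ → ℕ → Bool :=
  onCell 0 41943040 0 33554432 740881858 40050571 (c2_Bp.row false 20971520)

theorem h0_2Bp : ∃ t, chk3 f2Bp t 1 1 1 = true :=
  ⟨(b (c (a (b (c (a (l 8) (l 10)) (l 10)) (c (a (l 8) (l 8)) (a (l 8) (l 8)))) (b (c (a (l 10) (l 2)) (a (l 10) (l 2))) (c (a (l 10) (l 2)) (a (l 10) (l 2))))) (b (a (a (l 8) (l 10)) (c (l 10) (a (l 10) (l 2)))) (a (c (l 8) (l 8)) (c (a (l 10) (l 10)) (a (l 10) (l 10)))))) (c (a (b (a (l 3) (c (l 8) (l 8))) (l 3)) (c (b (a (l 10) (l 10)) (a (a (l 8) (l 10)) (l 10))) (b (a (l 10) (l 10)) (a (l 10) (l 10))))) (a (a (l 3) (b (c (l 8) (l 8)) (l 3))) (c (b (a (l 10) (l 10)) (a (l 8) (l 10))) (b (a (l 10) (l 10)) (a (l 8) (l 10))))))), by decide +kernel⟩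

theorem ct_2Bp : ∃ t, chk3 f2Bp t 1 1 1 = true := h0_2Bp

noncomputable def f2Bpk1 : ℕ → ℕ → ℕ → ℕ → Bool :=
  onCell 0 41943040 0 33554432 740881858 40050571 (c2_Bpk1.row false 20971520)

theorem h0_2Bpk1 : ∃ t, chk3 f2Bpk1 t 1 1 1 = true :=
  ⟨(b (c (a (b (c (l 10) (l 10)) (c (l 8) (l 8))) (b (a (l 10) (l 2)) (c (l 10) (l 10)))) (b (a (a (l 8) (l 10)) (a (l 10) (l 2))) (a (a (l 8) (l 8)) (c (l 10) (l 10))))) (c (a (b (a (l 3) (c (l 8) (l 8))) (l 3)) (c (a (b (l 10) (l 10)) (l 10)) (a (l 10) (l 10)))) (a (a (l 3) (c (l 8) (l 8))) (c (a (l 10) (l 10)) (a (l 10) (l 10)))))), by decide +kernel⟩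

theorem ct_2Bpk1 : ∃ t, chk3 f2Bpk1 t 1 1 1 = true := h0_2Bpk1

noncomputable def f2Bpk2 : ℕ → ℕ → ℕ → ℕ → Bool :=
  onCell 0 41943040 0 33554432 740881858 40050571 (c2_Bpk2.row false 20971520)

theorem h0_2Bpk2 : ∃ t, chk3 f2Bpk2 t 1 1 1 = true :=
  ⟨(c (b (a (b (a (l 8) (l 10)) (a (l 8) (l 8))) (c (l 10) (l 10))) (a (b (c (l 8) (l 8)) (l 3)) (c (a (l 10) (l 10)) (a (l 10) (l 10))))) (a (b (a (l 8) (l 10)) (a (l 3) (c (l 8) (l 8)))) (b (c (l 10) (l 10)) (c (a (l 10) (l 10)) (a (l 10) (l 10)))))), by decide +kernel⟩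

theorem ct_2Bpk2 : ∃ t, chk3 f2Bpk2 t 1 1 1 = true := h0_2Bpk2

noncomputable def f2Bm : ℕ → ℕ → ℕ → ℕ → Bool :=
  onCell 0 41943040 0 33554432 740881858 40050571 (c2_Bm.row true 20971520)

theorem h0_2Bm : ∃ t, chk3 f2Bm t 1 1 1 = true :=
  ⟨(b (c (b (a (c (a (l 8) (l 10)) (a (l 8) (l 10))) (c (a (l 10) (l 2)) (a (l 10) (l 2)))) (a (c (a (l 8) (l 10)) (a (l 8) (l 10))) (c (a (l 2) (l 2)) (a (l 2) (l 2))))) (a (b (c (l 10) (a (l 8) (l 10))) (c (a (l 8) (l 10)) (a (l 8) (l 10)))) (b (c (a (l 10) (l 2)) (a (l 10) (l 2))) (c (a (l 2) (l 2)) (a (l 2) (l 2)))))) (c (a (c (b (a (a (l 8) (l 10)) (l 10)) (a (a (l 8) (l 10)) (a (l 10) (l 2)))) (b (a (l 10) (l 10)) (a (a (l 8) (l 10)) (a (l 10) (l 2))))) (b (a (c (l 2) (l 2)) (l 1)) (l 1))) (a (b (c (a (l 10) (l 10)) (a (l 10) (a (l 10) (l 2)))) (c (a (a (l 8) (l 10)) (a (l 10) (l 2))) (a (c (l 10)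 (a (l 8) (l 10))) (c (l 10) (a (l 10) (l 2)))))) (b (a (c (l 2) (a (l 2) (l 1))) (l 1)) (l 1))))), by decide +kernel⟩

theorem ct_2Bm : ∃ t, chk3 f2Bm t 1 1 1 = true := h0_2Bm

end Pool.Agent.Strip051.G.I69_7273.Tab.Mo
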