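import Pool.Agent.Strip051.PB.MolVE
import Pool.Agent.Strip051.PB.MolWn
import Pool.Agent.Strip051.G.I69_7273.MolC0
import Pool.Agent.Strip051.G.I69_7273.MolC2
import Pool.Agent.Strip051.G.I69_7273.Fact

/-! # The tight charts of a table: facts (generated) -/

set_option linter.all false

namespace Pool.Agent.Strip051.G.I69_7273.Tab.Mo

open Pool.Agent.StripNear Pool.Agent.StripSquare Pool.Agent.Strip051.Sweep
open Pool.Agent.Strip051.LC Pool.Agent.Strip051.LC.MolN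
open Pool.Agent.Strip051.PB Pool.Agent.Strip051.PB.Mol
open Pool.Agent.Strip051.LC.Line (tau)
open Pool.Agent.Strip051.G.I69_7273.Tab

theorem gsg_v : gsg.v = c1n := by funext y; simp [gsg, c1n]
theorem esg_v (y : ℝ) : esg.v y = y / 2 + c1n y - 1 := by
  simp only [esg, gsg_v]
  push_cast
  ring
theorem qsg_v (y : ℝ) : qsg.v y = (1 - c1n y) * (2 * c1n y - 1) := by
  simp only [qsg, gsg_v]
  push_cast
  ring
theorem gug_v (y : ℝ) : gug.v y = cR y := by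
  simp only [gug, gsg_v]
  push_cast
  unfold cR
  ring
theorem esg_n (x : ℝ) : esg.v x = esn x := esg_v x
theorem kf0_t0 {y x : ℝ} (h0 : 0 < y) (h1 : y < 1) : kf0q0.v y x = (c1n y * cG y + kcg.v (psn y) x) * y := by
  have e := kA0_eq h0 h1
  unfold kA0 at e
  simp only [kf0q0, kf0q0_9, kf0q0_12, c1g_v]
  push_cast
  simp only [psn_def]
  linear_combination e
theorem kf0_t1 {y x : ℝ} (h0 : 0 < y) (h1 : y < 1) : kf0q1.v y x = (c1n y * cG y + kcg.v (psn y) x) * (y - 1) := by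
  have e := kA1_eq h0 h1
  unfold kA1 at e
  simp only [kf0q1, kf0q1_10, c1g_v]
  push_cast
  simp only [psn_def]
  linear_combination e
theorem l0_t1 {y x : ℝ} (a : 61 / 661 < psn y) (b : psn y ≤ 37 / 206) : l0q1.v y x = cQ x y (kcg.v (psn y) x) := by
  have e1 := y_psn y
  have e2 := y_psn' y
  simp only [l0q1, txg, txg_4, txg_6, txg_26, txg_29, txg_32, txg_57, txg_101, txg_104, txg_142, txg_184, txg_187, txg_190, txg_227, txg_268, txg_270, txg_308, txg_340, txg_362, txg_363, txg_364, txg_365, txg_416, txg_456, txg_457, txg_498, c1g_v]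
  push_cast
  simp only [psn_def]
  (repeat first | rw [if_pos (by linarith)] | rw [if_neg (by linarith)])
  unfold cQ
  simp only [e1, e2]
  ring
theorem kc0_t1 {y x : ℝ} (h0 : 0 < y) (h1 : y < 1) (a : 61 / 661 < psn y) (b : psn y ≤ 37 / 206) : kc0q1.v y x = cP y - (cR y + 2 * c1n y) * kcg.v (psn y) x := by
  have h : y ^ 2 < 4 / 3 := by nlinarith
  have e := cP_eq h
  simp only [kc0q1, kc0q1_3, kc0q1_9, c1g_v, gug_v]
  push_cast
  simp only [psn_def]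
  (repeat first | rw [if_pos (by linarith)] | rw [if_neg (by linarith)])
  linear_combination -e
theorem nK_q0 {y x : ℝ} (a : 271837875 / 1073741824 < y) (b : y ≤ 176915743 / 536870912) (b0 : 0 < y) (b2 : y < 1) : kf3q0.v y x = kf2q0.v y x + ((w3K true 0 kcg).v y x - kf2q0.v y x) * (cv3m.v y - cv2m.v y) * ((w3W true).v y - cv2m.v y)⁻¹ := by
  have z0 : 0 < (1 - y) := by linarith
  have z1 : (1 - y) < 1 := by linarith
  have z2 : (1 - y) ^ 2 < 4 / 3 := by nlinarith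
  have e5 := wK0 z2
  rw [psn_def] at e5
  simp only [kf2q0, kf3q0, kf3q0_4, kf3q0_42, kf3q0_43, kf3q0_46, kf3q0_64, c1g_v, gsg_v, esg_v, qsg_v, gug_v, swg_v, swn_c', w3W, w3K, zf, cwK, kcz, hfs, cond_true, cond_false, c1f, cGf, cPf, cDf, cRf, exf, zcf]
  push_cast
  simp only [psn_def]
  (repeat first | rw [if_pos (by linarith)] | rw [if_neg (by linarith)])
  skip
  linear_combination (y * ((cv3m.v y - cv2m.v y) * (c1n (1 - y) + 1 / 2 - cv2m.v y)⁻¹)) * e5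
theorem nX_q0 {y x : ℝ} (a : 271837875 / 1073741824 < y) (b : y ≤ 176915743 / 536870912) (b0 : 0 < y) (b2 : y < 1) : l3q0.v y x = l2q0.v y x + ((w3Q true kcg).v y x - l2q0.v y x) * (cv3m.v y - cv2m.v y) * ((w3W true).v y - cv2m.v y)⁻¹ := by
  have z0 : 0 < (1 - y) := by linarith
  have z1 : (1 - y) < 1 := by linarith
  have z2 : (1 - y) ^ 2 < 4 / 3 := by nlinarith
  skip
  simp only [l2q0, l3q0, l3q0_4, l3q0_30, l3q0_67, l3q0_82, c1g_v, gsg_v, esg_v, qsg_v, gug_v, swg_v, swn_c', w3W, w3Q, zf, cwQ, kcz, hfs, cond_true, cond_false, c1f, cGf, cPf, cDf, cRf, exf, zcf]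
  push_cast
  simp only [psn_def]
  (repeat first | rw [if_pos (by linarith)] | rw [if_neg (by linarith)])
  unfold cQ
  ring
theorem nD_q0 {y x : ℝ} (a : 271837875 / 1073741824 < y) (b : y ≤ 176915743 / 536870912) (b0 : 0 < y) (b2 : y < 1) : (tmF kc3q0 0).v y x = (tmF kc2q0 0).v y x + ((w3D true 0 kcg).v y x - (tmF kc2q0 0).v y x) * (cv3m.v y - cv2m.v y) * ((w3W true).v y - cv2m.v y)⁻¹ := by
  have z0 : 0 < (1 - y) := by linarith
  have z1 : (1 - y) < 1 := by linarith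
  have z2 : (1 - y) ^ 2 < 4 / 3 := by nlinarith
  have e6 := cP_eq z2
  have e7 := wD3 z0 z1
  simp only [kc2q0, kc3q0, kc3q0_4, kc3q0_30, kc3q0_31, kc3q0_35, kc3q0_39, kc3q0_41, kc3q0_42, kc3q0_71, tmF, c1g_v, gsg_v, esg_v, qsg_v, gug_v, swg_v, swn_c', w3W, w3D, zf, cwD, kcz, hfs, cond_true, cond_false, c1f, cGf, cPf, cDf, cRf, exf, zcf]
  push_cast
  simp only [psn_def]
  (repeat first | rw [if_pos (by linarith)] | rw [if_neg (by linarith)])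
  skip
  linear_combination (y * ((cv3m.v y - cv2m.v y) * (c1n (1 - y) + 1 / 2 - cv2m.v y)⁻¹)) * (e6 - e7)
theorem nK_q3 {y x : ℝ} (a : 896826081 / 536870912 < y) (b : y ≤ 1875645773 / 1073741824) (b0 : 1 < y) (b2 : y < 2) : kf3q3.v y x = kf2q3.v y x + ((w3K false 2 kcg).v y x - kf2q3.v y x) * (cv3r.v y - cv2r.v y) * ((w3W false).v y - cv2r.v y)⁻¹ := by
  have z0 : 0 < (y - 1) := by linarith
  have z1 : (y - 1) < 1 := by linarith
  have z2 : (y - 1) ^ 2 < 4 / 3 := by nlinarith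
  have e4 := wK3 z2
  simp only [kf2q3, kf2q3_4, kf3q3, kf3q3_4, kf3q3_43, kf3q3_44, kf3q3_45, kf3q3_46, kf3q3_65, kf3q3_77, kf3q3_100, c1g_v, gsg_v, esg_v, qsg_v, gug_v, swg_v, swn_c, w3W, w3K, zf, cwK, kcz, hfs, cond_true, cond_false, c1f, cGf, cPf, cDf, cRf, exf, zcf]
  push_cast
  simp only [psn_def]
  (repeat first | rw [if_pos (by linarith)] | rw [if_neg (by linarith)])
  skip
  linear_combination ((y - 2) * ((cv3r.v y - cv2r.v y) * (c1n (y - 1) - 1 / 2 - cv2r.v y)⁻¹)) * e4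
theorem nX_q3 {y x : ℝ} (a : 896826081 / 536870912 < y) (b : y ≤ 1875645773 / 1073741824) (b0 : 1 < y) (b2 : y < 2) : l3q3.v y x = l2q3.v y x + ((w3Q false kcg).v y x - l2q3.v y x) * (cv3r.v y - cv2r.v y) * ((w3W false).v y - cv2r.v y)⁻¹ := by
  have z0 : 0 < (y - 1) := by linarith
  have z1 : (y - 1) < 1 := by linarith
  have z2 : (y - 1) ^ 2 < 4 / 3 := by nlinarith
  skip
  simp only [l2q3, l2q3_4, l3q3, l3q3_4, l3q3_6, l3q3_43, l3q3_79, l3q3_94, l3q3_117, l3q3_139, c1g_v, gsg_v, esg_v, qsg_v, gug_v, swg_v, swn_c, w3W, w3Q, zf, cwQ, kcz, hfs, cond_true, cond_false, c1f, cGf, cPf, cDf, cRf, exf, zcf]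
  push_cast
  simp only [psn_def]
  (repeat first | rw [if_pos (by linarith)] | rw [if_neg (by linarith)])
  unfold cQ
  ring
theorem nD_q3 {y x : ℝ} (a : 896826081 / 536870912 < y) (b : y ≤ 1875645773 / 1073741824) (b0 : 1 < y) (b2 : y < 2) : (tmF kc3q3 2).v y x = (tmF kc2q3 2).v y x + ((w3D false 2 kcg).v y x - (tmF kc2q3 2).v y x) * (cv3r.v y - cv2r.v y) * ((w3W false).v y - cv2r.v y)⁻¹ := by
  have z0 : 0 < (y - 1) := by linarith
  have z1 : (y - 1) < 1 := by linarith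
  have z2 : (y - 1) ^ 2 < 4 / 3 := by nlinarith
  have e6 := cP_eq z2
  have e7 := wD3 z0 z1
  simp only [kc2q3, kc2q3_4, kc3q3, kc3q3_4, kc3q3_29, kc3q3_30, kc3q3_34, kc3q3_39, kc3q3_41, kc3q3_42, kc3q3_70, kc3q3_82, kc3q3_105, tmF, c1g_v, gsg_v, esg_v, qsg_v, gug_v, swg_v, swn_c, w3W, w3D, zf, cwD, kcz, hfs, cond_true, cond_false, c1f, cGf, cPf, cDf, cRf, exf, zcf]
  push_cast
  simp only [psn_def]
  (repeat first | rw [if_pos (by linarith)] | rw [if_neg (by linarith)])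
  skip
  linear_combination (-((y - 2) * ((cv3r.v y - cv2r.v y) * (c1n (y - 1) - 1 / 2 - cv2r.v y)⁻¹))) * (e6 + e7)
theorem psr {y : ℝ} (a : 359955169 / 536870912 ≤ y) (b : y ≤ 801903949 / 1073741824) : 3213585534139 / 33554432000000 ≤ psn y ∧ psn y ≤ 59989616063131 / 335544320000000 :=
  ⟨psn_ge' (lo := 359955169 / 536870912) (r := 1628317 / 2000000) (by norm_num) a (by linarith) (by norm_num) (by norm_num) (by norm_num),
    psn_le' (hi := 801903949 / 1073741824) (r := 7626809 / 10000000) (by linarith) b (by norm_num) (by norm_num) (by norm_num) (by norm_num)⟩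
theorem kcg_t {p x : ℝ} (a : 3213585534139 / 33554432000000 ≤ p) (b : p ≤ 59989616063131 / 335544320000000) : kcg.v p x = (1202543011 / 12500000000 + (-(6021221 / 1953125)) * (x - 14173 / 20000)) + (lnF false 67673859 62500000 false 20008707 312500 14173 20000).v x * p + (lnF false 2589773 1000000 true 4392159 20000 14173 20000).v x * p ^ 2 := by
  simp only [kcg, kcg_3, kcg_6, kcg_9, kcg_12, kcg_13, kcg_16, kcg_24, kcg_32, kcg_37, kcg_49, kcg_57, kcg_58, kcg_63, kcg_74, kcg_79, kcg_83, kcg_94, kcg_103, kcg_106, kcg_107, kcg_111, kcg_120, kcg_125, kcg_128, kcg_138, kcg_146, kcg_147, kcg_151, kcg_162, kcg_170, kcg_174, kcg_183, kcg_188, kcg_191, kcg_198, kcg_199, kcg_200, kcg_220, kcg_242, kcg_243, kcg_264, lnF, cnF, lqF, sgv, cond_true, cond_false]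
  push_cast
  (repeat first | rw [if_pos (by linarith)] | rw [if_neg (by linarith)])
  ring
theorem dq_t (x : ℝ) : DqOk kcg dq (3213585534139 / 33554432000000) (59989616063131 / 335544320000000) x := by
  have b0 := dqQ_ok (f := fun p : ℝ => (1202543011 / 12500000000 + (-(6021221 / 1953125)) * (x - 14173 / 20000)) + (lnF false 67673859 62500000 false 20008707 312500 14173 20000).v x * p + (lnF false 2589773 1000000 true 4392159 20000 14173 20000).v x * p ^ 2) (s := (lnF false 67673859 62500000 false 20008707 312500 14173 20000)) (e := (lnF false 2589773 1000000 true 4392159 20000 14173 20000)) (A := (1202543011 / 12500000000 + (-(6021221 / 1953125)) * (x - 14173 / 20000))) (x := x) (lo := 3213585534139 / 33554432000000) (hi := 59989616063131 / 335544320000000) (fun p _ _ => rfl)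
  intro p p' h1 h2 h3
  have e := b0 p p' h1 h2 h3
  simp only at e
  rw [← kcg_t h1 (by linarith), ← kcg_t (by linarith) h3] at e
  exact e
theorem txg_l {p c x : ℝ} (a : -(1 / 2) ≤ p) (b : p ≤ -(1 / 2) + 100239 / 2000000) : txg.v p c x = (p + 1 / 2) * mL.v p x := by
  have hD : edv false p = p + 1 / 2 := by simp only [edv, cond_true, cond_false]
  have e0 := hng_eq (D := p + 1 / 2) (d := 1 / 25) (by norm_num)
  rcases le_or_gt p (-(23 / 50)) with c0 | c0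
  · have m0 : max (p + 1 / 2 - 1 / 25) 0 = 0 := max_eq_right (by linarith)
    rw [m0] at e0
    simp only [txg, txg_4, txg_6, txg_26, txg_29, txg_32, txg_57, txg_101, txg_104, txg_142, txg_184, txg_187, txg_190, txg_227, txg_268, txg_270, txg_308, txg_340, txg_362, txg_363, txg_364, txg_365, txg_416, txg_456, txg_457, txg_498, mL, exC, exH, exH2, exQ, lnF, cnF, lqF, sgv, hD, cond_true, cond_false]
    push_cast
    simp only [m0]
    (repeat first | rw [if_pos (by linarith)] | rw [if_neg (by linarith)])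
    linear_combination -(((27 / 10000000 + (-(23 / 1000000)) * (x - 14173 / 20000)) + (2531 / 100000 + (414831 / 10000) * (x - 14173 / 20000)) * 0)) * e0
  · have m0 : max (p + 1 / 2 - 1 / 25) 0 = p + 1 / 2 - 1 / 25 := max_eq_left (by linarith)
    rw [m0] at e0
    simp only [txg, txg_4, txg_6, txg_26, txg_29, txg_32, txg_57, txg_101, txg_104, txg_142, txg_184, txg_187, txg_190, txg_227, txg_268, txg_270, txg_308, txg_340, txg_362, txg_363, txg_364, txg_365, txg_416, txg_456, txg_457, txg_498, mL, exC, exH, exH2, exQ, lnF, cnF, lqF, sgv, hD, cond_true, cond_false]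
    push_cast
    simp only [m0]
    (repeat first | rw [if_pos (by linarith)] | rw [if_neg (by linarith)])
    linear_combination -(((27 / 10000000 + (-(23 / 1000000)) * (x - 14173 / 20000)) + (2531 / 100000 + (414831 / 10000) * (x - 14173 / 20000)) * (p + 1 / 2 - 1 / 25))) * e0
theorem txg_r {p c x : ℝ} (a : 1 / 2 - 100239 / 2000000 ≤ p) (b : p ≤ 1 / 2) : txg.v p c x = (p - 1 / 2) * mR.v p x := by
  have hD : edv true p = 1 / 2 - p := by simp only [edv, cond_true, cond_false]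
  have e0 := hng_eq (D := 1 / 2 - p) (d := 1 / 25) (by norm_num)
  rcases le_or_gt p (23 / 50) with c0 | c0
  · have m0 : max (1 / 2 - p - 1 / 25) 0 = 1 / 2 - p - 1 / 25 := max_eq_left (by linarith)
    rw [m0] at e0
    simp only [txg, txg_4, txg_6, txg_26, txg_29, txg_32, txg_57, txg_101, txg_104, txg_142, txg_184, txg_187, txg_190, txg_227, txg_268, txg_270, txg_308, txg_340, txg_362, txg_363, txg_364, txg_365, txg_416, txg_456, txg_457, txg_498, mR, exC, exH, exH2, exQ, lnF, cnF, lqF, sgv, hD, cond_true, cond_false]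
    push_cast
    simp only [m0]
    (repeat first | rw [if_pos (by linarith)] | rw [if_neg (by linarith)])
    linear_combination (((-(1 / 10000000) + (-(1 / 250000)) * (x - 14173 / 20000)) + (-(48219 / 100000) + (-(791 / 25)) * (x - 14173 / 20000)) * (1 / 2 - p - 1 / 25))) * e0
  · have m0 : max (1 / 2 - p - 1 / 25) 0 = 0 := max_eq_right (by linarith)
    rw [m0] at e0
    simp only [txg, txg_4, txg_6, txg_26, txg_29, txg_32, txg_57, txg_101, txg_104, txg_142, txg_184, txg_187, txg_190, txg_227, txg_268, txg_270, txg_308, txg_340, txg_362, txg_363, txg_364, txg_365, txg_416, txg_456, txg_457, txg_498, mR, exC, exH, exH2, exQ, lnF, cnF, lqF, sgv, hD, cond_true, cond_false]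
    push_cast
    simp only [m0]
    (repeat first | rw [if_pos (by linarith)] | rw [if_neg (by linarith)])
    linear_combination (((-(1 / 10000000) + (-(1 / 250000)) * (x - 14173 / 20000)) + (-(48219 / 100000) + (-(791 / 25)) * (x - 14173 / 20000)) * 0)) * e0
theorem kp_t {w x : ℝ} (a : 1 / 2 - 100239 / 2000000 ≤ w) (b : w ≤ 1 / 2) : kcc02.v w x = 1 * kp.v w x := by
  simp only [kcc02, kcc02_4, kp, plA, plH, lnF, cnF, lqF, sgv, c1g_v, cond_true, cond_false]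
  push_cast
  skip
  (repeat first | rw [if_pos (by linarith)] | rw [if_neg (by linarith)])
  ring
theorem kb_t {y x : ℝ} (a : 1 / 2 - 18213 / 400000 ≤ psn y) (b : psn y ≤ 1 / 2) : kc0q1.v y x = 1 * kb.v (psn y) x := by
  simp only [kc0q1, kc0q1_3, kc0q1_9, kb, plA, plH, lnF, cnF, lqF, sgv, c1g_v, cond_true, cond_false]
  push_cast
  simp only [psn_def]
  (repeat first | rw [if_pos (by linarith)] | rw [if_neg (by linarith)])
  ring
theorem on0 {y : ℝ} (h : InQ 0 y) : OnC (0 : Fin 6) 0 y := ⟨h, fun _ => by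
  have h1 := h.2
  have h2 := h0_lt_one
  have h3 := h0_pos
  nlinarith⟩
theorem on1 {y : ℝ} (h : InQ 1 y) : OnC (0 : Fin 6) 1 y := ⟨h, fun _ => by
  have h1 := h.2
  have h2 := h0_lt_one
  have h3 := h0_pos
  nlinarith⟩
theorem shK1 {y x : ℝ} (h : InQ 1 y) (a : 359955169 / 536870912 ≤ y) (b : y ≤ 801903949 / 1073741824) : tK 0 1 y x = (c1n y * cG y + kcg.v (psn y) x) * (y - 1) :=
  (tbF_on (on1 h)).trans (kf0_t1 (y := y) (by linarith) (by linarith))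
theorem shL1 {y x : ℝ} (h : InQ 1 y) (a : 359955169 / 536870912 ≤ y) (b : y ≤ 801903949 / 1073741824) : tL 0 1 y x = cQ x y (kcg.v (psn y) x) :=
  (tbF_on (on1 h)).trans (l0_t1 (lt_of_lt_of_le (by norm_num) (psr a b).1) ((psr a b).2.trans (by norm_num)))
theorem shC1 {y x : ℝ} (h : InQ 1 y) (a : 359955169 / 536870912 ≤ y) (b : y ≤ 801903949 / 1073741824) : tC 0 1 y x = esn x * (cP y - (cR y + 2 * c1n y) * kcg.v (psn y) x) :=
  (tbF_sc 0 1 y x).trans (by rw [esg_n, show tbF nc crd 0 1 y x = kc0q1.v y x from tbF_on (on1 h), kc0_t1 (by linarith) (by linarith) (lt_of_lt_of_le (by norm_num) (psr a b).1) ((psr a b).2.trans (by norm_num))])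
theorem kcb {y x : ℝ} (a : 359955169 / 536870912 ≤ y) (b : y ≤ 801903949 / 1073741824) (h1 : 370440929 / 536870912 ≤ x) (h2 : x ≤ 780932429 / 1073741824) : |kcg.v (psn y) x| ≤ 1 / 2 := by
  have e := psr a b
  rw [kcg_t e.1 e.2]
  obtain ⟨e1, e2⟩ := e
  simp only [lnF, cnF, lqF, sgv, cond_true, cond_false]
  push_cast
  rw [abs_le]
  have f1 := mul_nonneg (sub_nonneg.2 (show 3213585534139 / 33554432000000 ≤ psn y by linarith)) (sub_nonneg.2 h1)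
  have f2 := mul_nonneg (sub_nonneg.2 (show psn y ≤ 59989616063131 / 335544320000000 by linarith)) (sub_nonneg.2 h1)
  have f3 := mul_nonneg (sub_nonneg.2 (show 3213585534139 / 33554432000000 ≤ psn y by linarith)) (sub_nonneg.2 h2)
  have f4 := mul_nonneg (sub_nonneg.2 (show psn y ≤ 59989616063131 / 335544320000000 by linarith)) (sub_nonneg.2 h2)
  constructor <;> nlinarith
theorem on2 {y : ℝ} (h : InQ 2 y) (h1 : h0 * y < 1) : OnC (0 : Fin 6) 2 y := ⟨h, fun _ => h1⟩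
theorem spK {b x : ℝ} (u : ℝ) (hb : 0 ≤ b) (h : InQ 2 (1 + b)) (h1 : h0 * (1 + b) < 1) (b1 : b ≤ 1 / 32) : tK 0 2 (1 + b) x = 1 / 2 + b * sp.rs.v u b x := by
  refine (tbF_on (on2 h h1)).trans ?_
  show kfc02.v (c1n (1 + b)) x = _
  have e := stP_k (kc := kcg) (mL := mL) (mR := mR) (kp := kp) (u := u) (b := b) (x := x) (by linarith) (by linarith)
  have hy := yag_v (y := 1 + b) (by linarith) h1
  simp only [kfc02, hy]
  push_cast
  rw [add_sub_cancel_left]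
  exact e
theorem wr {b : ℝ} (hb : 0 ≤ b) (b1 : b ≤ 1 / 32) : 1 / 2 - 100239 / 2000000 ≤ c1n (1 + b) ∧ c1n (1 + b) ≤ 1 / 2 :=
  ⟨c1n_ge (hi := 1 + 1 / 32) (by linarith) (by linarith) (by norm_num), c1n_half hb⟩
theorem pr {b : ℝ} (hb : b < 0) (b1 : -(1 / 32) ≤ b) : 1 / 2 - 18213 / 400000 ≤ psn (1 + b) ∧ psn (1 + b) ≤ 1 / 2 :=
  ⟨psn_ge' (lo := 1 - 1 / 32) (r := 54419 / 100000) (by norm_num) (by linarith) (by linarith) (by norm_num) (by norm_num) (by norm_num), psn_half hb.le (by linarith)⟩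
theorem spL {b x : ℝ} (u : ℝ) (hb : 0 ≤ b) (h : InQ 2 (1 + b)) (h1 : h0 * (1 + b) < 1) (b1 : b ≤ 1 / 32) : tL 0 2 (1 + b) x = b * sp.xk.v u b x := by
  refine (tbF_on (on2 h h1)).trans ?_
  show lc02.v (c1n (1 + b)) x = b * -(w1n b * (mL.v (-c1n (1 + b)) x + mR.v (c1n (1 + b)) x))
  obtain ⟨e1, e2⟩ := wr hb b1
  have hw := w1n_eq (b := b) (by linarith) (by linarith)
  have kL := fun c => txg_l (p := -c1n (1 + b)) (c := c) (x := x) (by linarith) (by linarith)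
  have kR := fun c => txg_r (p := c1n (1 + b)) (c := c) (x := x) (by linarith) e2
  simp only [lc02, lc02_7, lc02_8, kL, kR]
  linear_combination (-(mL.v (-c1n (1 + b)) x + mR.v (c1n (1 + b)) x)) * hw
theorem spC {b x : ℝ} (u : ℝ) (hb : 0 ≤ b) (h : InQ 2 (1 + b)) (h1 : h0 * (1 + b) < 1) (b1 : b ≤ 1 / 32) : tC 0 2 (1 + b) x = esn x * sp.k2.v u b x := by
  obtain ⟨e1, e2⟩ := wr hb b1
  refine (tbF_sc 0 2 (1 + b) x).trans ?_
  rw [esg_n, show tbF nc crd 0 2 (1 + b) x = kcc02.v (c1n (1 + b)) x from tbF_on (on2 h h1), kp_t e1 e2, one_mul]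
  rfl
theorem smC {b x : ℝ} (u : ℝ) (hb : b < 0) (h : InQ 1 (1 + b)) (b1 : -(1 / 32) ≤ b) : tC 0 1 (1 + b) x = esn x * sm.k2.v u b x := by
  obtain ⟨e1, e2⟩ := pr hb b1
  refine (tbF_sc 0 1 (1 + b) x).trans ?_
  rw [esg_n, show tbF nc crd 0 1 (1 + b) x = kc0q1.v (1 + b) x from tbF_on (on1 h), kb_t e1 e2, one_mul]
  rfl
theorem smK {b x : ℝ} (u : ℝ) (hb : b < 0) (h : InQ 1 (1 + b)) (b1 : -(1 / 32) ≤ b) : tK 0 1 (1 + b) x = 1 / 2 + b * sm.rs.v u b x := by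
  refine (tbF_on (on1 h)).trans ?_
  show kf0q1.v (1 + b) x = _
  have e : kA1 (1 + b) + b * kcg.v (psn (1 + b)) x = 1 / 2 + b * sm.rs.v u b x := stM_k (kc := kcg) (mR := mR) (kb := kb) (u := u) (b := b) (x := x) (by linarith) (by linarith)
  have e2 := kA1_eq (y := 1 + b) (by linarith) (by linarith)
  rw [kf0_t1 (by linarith) (by linarith)]
  linear_combination e - e2
theorem smL {b x : ℝ} (u : ℝ) (hb : b < 0) (h : InQ 1 (1 + b)) (b1 : -(1 / 32) ≤ b) : tL 0 1 (1 + b) x = b * sm.xk.v u b x := by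
  refine (tbF_on (on1 h)).trans ?_
  show l0q1.v (1 + b) x = b * (mR.v (psn (1 + b)) x * (3 / 4 - w1n b / 2))
  obtain ⟨e1, e2⟩ := pr hb b1
  have hw := w1n_eq (b := b) (by linarith) (by linarith)
  have hp := psn_def (1 + b)
  have kR := fun c => txg_r (p := psn (1 + b)) (c := c) (x := x) (by linarith) e2
  simp only [l0q1, c1g_v]
  push_cast
  simp only [psn_def, kR]
  linear_combination (-(mR.v (psn (1 + b)) x)) * hp - (mR.v (psn (1 + b)) x / 2) * hw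
theorem rowK1 {b x : ℝ} (hb : 0 ≤ b) (b1 : b ≤ 1 / 32) : bf1q2.v (1 + b) x = 1 + b * rK1.v b x := by
  simp only [bf1q2, bf1q2_3, rK1, exC, scH, lnF, cnF, lqF, sgv, cond_true, cond_false]
  push_cast
  (repeat first | rw [if_pos (by linarith)] | rw [if_neg (by linarith)])
  ring
theorem rowX1 {b x : ℝ} (hb : 0 ≤ b) (b1 : b ≤ 1 / 32) : bx1q2.v (1 + b) x = b * rX1.v b x := by
  simp only [bx1q2, bx1q2_3, rX1, exC, scH, lnF, cnF, lqF, sgv, cond_true, cond_false]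
  push_cast
  (repeat first | rw [if_pos (by linarith)] | rw [if_neg (by linarith)])
  ring
theorem rowD1 {b x : ℝ} (hb : 0 ≤ b) (b1 : b ≤ 1 / 32) : bd1q2.v (1 + b) x = rD1.v b x := by
  simp only [bd1q2, bd1q2_3, bd1q2_15, rD1, tmF, exC, scH, lnF, cnF, lqF, sgv, cond_true, cond_false]
  push_cast
  (repeat first | rw [if_pos (by linarith)] | rw [if_neg (by linarith)])
  ring
theorem cx1 {b x : ℝ} (u : ℝ) : cv1p.v (1 + b) = (fXS 4 1 5).v u b x := by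
  show _ = ((4 : ℕ) : ℝ) / (5 : ℕ) * c1n (1 + b) + ((1 : ℕ) : ℝ) / (5 : ℕ) * (c1n b - 1 / 2)
  rw [cv1p_v, swn_c, add_sub_cancel_left]
  push_cast
  ring
theorem sX1 {b x : ℝ} (u : ℝ) : crv PP 1 2 (1 + b) = sk1.xs.v u b x := ecv1q2.trans (cx1 u)
theorem sk1K {b x : ℝ} (u : ℝ) (hb : 0 ≤ b) (h : InQ 2 (1 + b)) (b1 : b ≤ 1 / 32) : tK 1 2 (1 + b) x = 1 / 2 + b * sk1.rs.v u b x := by
  have e := stK_k (r := 4) (p := 1) (q := 5) (s := rK1) (sx := rX1) (sd := rD1) (u := u) (b := b) (x := x) (by norm_num) (by linarith) (by linarith)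
  refine (tbF_on (onc h (by decide))).trans ?_
  show kf1q2.v (1 + b) x = _
  simp only [kf1q2, rowK1 hb b1, cx1 (x := x) u]
  exact e
theorem sk1L {b x : ℝ} (u : ℝ) (hb : 0 ≤ b) (h : InQ 2 (1 + b)) (b1 : b ≤ 1 / 32) : tL 1 2 (1 + b) x = b * sk1.xk.v u b x := by
  refine (tbF_on (onc h (by decide))).trans ?_
  show l1q2.v (1 + b) x = b * ((fXS 4 1 5).v u b x * rX1.v b x)
  simp only [l1q2, rowX1 hb b1, cx1 (x := x) u]
  ring
theorem sk1C {b x : ℝ} (u : ℝ) (hb : 0 ≤ b) (h : InQ 2 (1 + b)) (b1 : b ≤ 1 / 32) : tC 1 2 (1 + b) x = esn x * sk1.k2.v u b x := by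
  refine (tbF_sc 1 2 (1 + b) x).trans ?_
  rw [esg_n, show tbF nc crd 1 2 (1 + b) x = kc1q2.v (1 + b) x from tbF_on (onc h (by decide))]
  show esn x * kc1q2.v (1 + b) x = esn x * ((fXS 4 1 5).v u b x * rD1.v b x)
  simp only [kc1q2, rowD1 hb b1, cx1 (x := x) u]
theorem rowK2 {b x : ℝ} (hb : 0 ≤ b) (b1 : b ≤ 1 / 32) : bf2q2.v (1 + b) x = 1 + b * rK2.v b x := by
  simp only [bf2q2, bf2q2_3, bf2q2_34, rK2, exC, scH, lnF, cnF, lqF, sgv, cond_true, cond_false]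
  push_cast
  (repeat first | rw [if_pos (by linarith)] | rw [if_neg (by linarith)])
  ring
theorem rowX2 {b x : ℝ} (hb : 0 ≤ b) (b1 : b ≤ 1 / 32) : bx2q2.v (1 + b) x = b * rX2.v b x := by
  simp only [bx2q2, bx2q2_3, rX2, exC, scH, lnF, cnF, lqF, sgv, cond_true, cond_false]
  push_cast
  (repeat first | rw [if_pos (by linarith)] | rw [if_neg (by linarith)])
  ring
theorem rowD2 {b x : ℝ} (hb : 0 ≤ b) (b1 : b ≤ 1 / 32) : bd2q2.v (1 + b) x = rD2.v b x := by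
  simp only [bd2q2, bd2q2_3, rD2, tmF, exC, scH, lnF, cnF, lqF, sgv, cond_true, cond_false]
  push_cast
  (repeat first | rw [if_pos (by linarith)] | rw [if_neg (by linarith)])
  ring
theorem cx2 {b x : ℝ} (u : ℝ) : cv2p.v (1 + b) = (fXS 1 1 2).v u b x := by
  show _ = ((1 : ℕ) : ℝ) / (2 : ℕ) * c1n (1 + b) + ((1 : ℕ) : ℝ) / (2 : ℕ) * (c1n b - 1 / 2)
  rw [cv2p_v, swn_c, add_sub_cancel_left]
  push_cast
  ring
theorem sX2 {b x : ℝ} (u : ℝ) : crv PP 2 2 (1 + b) = sk2.xs.v u b x := ecv2q2.trans (cx2 u)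
theorem sk2K {b x : ℝ} (u : ℝ) (hb : 0 ≤ b) (h : InQ 2 (1 + b)) (b1 : b ≤ 1 / 32) : tK 2 2 (1 + b) x = 1 / 2 + b * sk2.rs.v u b x := by
  have e := stK_k (r := 1) (p := 1) (q := 2) (s := rK2) (sx := rX2) (sd := rD2) (u := u) (b := b) (x := x) (by norm_num) (by linarith) (by linarith)
  refine (tbF_on (onc h (by decide))).trans ?_
  show kf2q2.v (1 + b) x = _
  simp only [kf2q2, rowK2 hb b1, cx2 (x := x) u]
  exact e
theorem sk2L {b x : ℝ} (u : ℝ) (hb : 0 ≤ b) (h : InQ 2 (1 + b)) (b1 : b ≤ 1 / 32) : tL 2 2 (1 + b) x = b * sk2.xk.v u b x := by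
  refine (tbF_on (onc h (by decide))).trans ?_
  show l2q2.v (1 + b) x = b * ((fXS 1 1 2).v u b x * rX2.v b x)
  simp only [l2q2, rowX2 hb b1, cx2 (x := x) u]
  ring
theorem sk2C {b x : ℝ} (u : ℝ) (hb : 0 ≤ b) (h : InQ 2 (1 + b)) (b1 : b ≤ 1 / 32) : tC 2 2 (1 + b) x = esn x * sk2.k2.v u b x := by
  refine (tbF_sc 2 2 (1 + b) x).trans ?_
  rw [esg_n, show tbF nc crd 2 2 (1 + b) x = kc2q2.v (1 + b) x from tbF_on (onc h (by decide))]
  show esn x * kc2q2.v (1 + b) x = esn x * ((fXS 1 1 2).v u b x * rD2.v b x)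
  simp only [kc2q2, rowD2 hb b1, cx2 (x := x) u]
theorem vK_3 {Y x : ℝ} (hq : InQ 3 Y) : tK 3 3 Y x = kf3q3.v Y x := by
  have hy0 := hq.nonneg
  have hy2 := hq.le_two
  refine (tbF_on (onc hq (by decide))).trans ?_
  show kfc33.v (c3n Y) x = _
  simp only [kfc33, kfc33_6, kfc33_9, kfc33_11, kfc33_48, kfc33_49, kfc33_50, kfc33_51, kfc33_68, kfc33_70, kfc33_82, kfc33_105, kf3q3, kf3q3_4, kf3q3_43, kf3q3_44, kf3q3_45, kf3q3_46, kf3q3_65, kf3q3_77, kf3q3_100, ycg_v hy0 hy2, c3g_v, cv1r, cv2r, cv3r, cv4r]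
theorem vL_3 {Y x : ℝ} (hq : InQ 3 Y) : tL 3 3 Y x = l3q3.v Y x := by
  have hy0 := hq.nonneg
  have hy2 := hq.le_two
  refine (tbF_on (onc hq (by decide))).trans ?_
  show lc33.v (c3n Y) x = _
  simp only [lc33, lc33_6, lc33_9, lc33_11, lc33_13, lc33_50, lc33_85, lc33_98, lc33_100, lc33_123, lc33_145, l3q3, l3q3_4, l3q3_6, l3q3_43, l3q3_79, l3q3_94, l3q3_117, l3q3_139, ycg_v hy0 hy2, c3g_v, cv1r, cv2r, cv3r, cv4r]
theorem vC_3 {Y x : ℝ} (hq : InQ 3 Y) : tU 3 3 Y x = kc3q3.v Y x := by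
  have hy0 := hq.nonneg
  have hy2 := hq.le_two
  refine (tbF_on (onc hq (by decide))).trans ?_
  show kcc33.v (c3n Y) x = _
  simp only [kcc33, kcc33_6, kcc33_9, kcc33_11, kcc33_35, kcc33_36, kcc33_40, kcc33_45, kcc33_47, kcc33_48, kcc33_73, kcc33_75, kcc33_87, kcc33_110, kc3q3, kc3q3_4, kc3q3_29, kc3q3_30, kc3q3_34, kc3q3_39, kc3q3_41, kc3q3_42, kc3q3_70, kc3q3_82, kc3q3_105, ycg_v hy0 hy2, c3g_v, cv1r, cv2r, cv3r, cv4r]
theorem gK_0_2 {Y x : ℝ} (hF : SideOk PP tK tL pcB x) (hq : InQ 0 Y) : LinB (fun X => (pcB 0).K.v X Y x) (cv2m.v Y) (cv3m.v Y) (kf2q0.v Y x) (kf3q0.v Y x) :=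
  linT hF.pinK hq (fun X k1 k3 => hF.thK 0 X Y hq k1 k3) (2 : Fin 5) (ecv2q0) (ecv3q0) (tbF_on (onc hq (by decide))) (tbF_on (onc hq (by decide)))
theorem gL_0_2 {Y x : ℝ} (hF : SideOk PP tK tL pcB x) (hq : InQ 0 Y) : LinB (fun X => (pcB 0).L.v X Y x) (cv2m.v Y) (cv3m.v Y) (l2q0.v Y x) (l3q0.v Y x) :=
  linT hF.pinL hq (fun X k1 k3 => hF.thL 0 X Y hq k1 k3) (2 : Fin 5) (ecv2q0) (ecv3q0) (tbF_on (onc hq (by decide))) (tbF_on (onc hq (by decide)))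
theorem gD_0_2 {Y x : ℝ} (hU : ThrOk PP tU pd x) (hq : InQ 0 Y) :
    LinB (fun X => (pd 0).v X Y x * (Y - (0 : ℕ))) (cv2m.v Y) (cv3m.v Y) ((tmF kc2q0 0).v Y x) ((tmF kc3q0 0).v Y x) := linB_mul _ (linT hU.pin hq (fun X k1 k3 => hU.th 0 X Y hq k1 k3) (2 : Fin 5) (ecv2q0) (ecv3q0) (tbF_on (onc hq (by decide))) (tbF_on (onc hq (by decide))))
theorem gK_3_2 {Y x : ℝ} (hF : SideOk PP tK tL pcB x) (hq : InQ 3 Y) : LinB (fun X => (pcB 3).K.v X Y x) (cv2r.v Y) (cv3r.v Y) (kf2q3.v Y x) (kf3q3.v Y x) :=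
  linT hF.pinK hq (fun X k1 k3 => hF.thK 3 X Y hq k1 k3) (2 : Fin 5) (ecv2q3 hq.1) (ecv3q3 hq.1) (tbF_on (onc hq (by decide))) (vK_3 hq)
theorem gL_3_2 {Y x : ℝ} (hF : SideOk PP tK tL pcB x) (hq : InQ 3 Y) : LinB (fun X => (pcB 3).L.v X Y x) (cv2r.v Y) (cv3r.v Y) (l2q3.v Y x) (l3q3.v Y x) :=
  linT hF.pinL hq (fun X k1 k3 => hF.thL 3 X Y hq k1 k3) (2 : Fin 5) (ecv2q3 hq.1) (ecv3q3 hq.1) (tbF_on (onc hq (by decide))) (vL_3 hq)
theorem gD_3_2 {Y x : ℝ} (hU : ThrOk PP tU pd x) (hq : InQ 3 Y) :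
    LinB (fun X => (pd 3).v X Y x * (Y - (2 : ℕ))) (cv2r.v Y) (cv3r.v Y) ((tmF kc2q3 2).v Y x) ((tmF kc3q3 2).v Y x) := linB_mul _ (linT hU.pin hq (fun X k1 k3 => hU.th 3 X Y hq k1 k3) (2 : Fin 5) (ecv2q3 hq.1) (ecv3q3 hq.1) (tbF_on (onc hq (by decide))) (vC_3 hq))
theorem sKAp {X Y x : ℝ} (hF : SideOk PP tK tL pcB x) (hq : InQ 3 Y) (a : 896826081 / 536870912 < Y) (b : Y ≤ 1875645773 / 1073741824)
    (t0 : 0 < (w3W false).v Y - cv2r.v Y) (t1 : 0 < cv3r.v Y - (w3W false).v Y) (t2 : 0 < cv3r.v Y - X)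
    (hX : (w3W false).v Y ≤ X) :
    (pcB 3).K.v X Y x = (w3K false 2 kcg).v Y x + sK_Ap.v X Y x * (X - (w3W false).v Y) :=
  rt0 (gK_3_2 hF hq) (nK_q3 a b (by linarith) (by linarith)) t0 t1 hX t2
theorem sLAp {X Y x : ℝ} (hF : SideOk PP tK tL pcB x) (hq : InQ 3 Y) (a : 896826081 / 536870912 < Y) (b : Y ≤ 1875645773 / 1073741824)
    (t0 : 0 < (w3W false).v Y - cv2r.v Y) (t1 : 0 < cv3r.v Y - (w3W false).v Y) (t2 : 0 < cv3r.v Y - X)
    (hX : (w3W false).v Y ≤ X) :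
    (pcB 3).L.v X Y x = (w3Q false kcg).v Y x + sX_Ap.v X Y x * (X - (w3W false).v Y) :=
  rt0 (gL_3_2 hF hq) (nX_q3 a b (by linarith) (by linarith)) t0 t1 hX t2
theorem sDAp {X Y x : ℝ} (hF : SideOk PP tK tL pcB x) (hU : ThrOk PP tU pd x) (hq : InQ 3 Y) (a : 896826081 / 536870912 < Y) (b : Y ≤ 1875645773 / 1073741824)
    (t0 : 0 < (w3W false).v Y - cv2r.v Y) (t1 : 0 < cv3r.v Y - (w3W false).v Y) (t2 : 0 < cv3r.v Y - X)
    (hX : (w3W false).v Y ≤ X) :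
    (pd 3).v X Y x * (Y - (2 : ℕ)) = (w3D false 2 kcg).v Y x + sD_Ap.v X Y x * (X - (w3W false).v Y) :=
  rt0 (gD_3_2 hU hq) (nD_q3 a b (by linarith) (by linarith)) t0 t1 hX t2
theorem sKApk1 {X Y x : ℝ} (hF : SideOk PP tK tL pcB x) (hq : InQ 3 Y) (a : 896826081 / 536870912 < Y) (b : Y ≤ 1875645773 / 1073741824)
    (t0 : 0 < (w3W false).v Y - cv2r.v Y) (t1 : 0 < cv3r.v Y - (w3W false).v Y) (t2 : 0 < cv3r.v Y - X)
    (hX : (w3W false).v Y ≤ X) :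
    (pcB 3).K.v X Y x = (w3K false 2 kcg).v Y x + sK_Apk1.v X Y x * (X - (w3W false).v Y) :=
  rt0 (gK_3_2 hF hq) (nK_q3 a b (by linarith) (by linarith)) t0 t1 hX t2
theorem sLApk1 {X Y x : ℝ} (hF : SideOk PP tK tL pcB x) (hq : InQ 3 Y) (a : 896826081 / 536870912 < Y) (b : Y ≤ 1875645773 / 1073741824)
    (t0 : 0 < (w3W false).v Y - cv2r.v Y) (t1 : 0 < cv3r.v Y - (w3W false).v Y) (t2 : 0 < cv3r.v Y - X)
    (hX : (w3W false).v Y ≤ X) :
    (pcB 3).L.v X Y x = (w3Q false kcg).v Y x + sX_Apk1.v X Y x * (X - (w3W false).v Y) :=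
  rt0 (gL_3_2 hF hq) (nX_q3 a b (by linarith) (by linarith)) t0 t1 hX t2
theorem sDApk1 {X Y x : ℝ} (hF : SideOk PP tK tL pcB x) (hU : ThrOk PP tU pd x) (hq : InQ 3 Y) (a : 896826081 / 536870912 < Y) (b : Y ≤ 1875645773 / 1073741824)
    (t0 : 0 < (w3W false).v Y - cv2r.v Y) (t1 : 0 < cv3r.v Y - (w3W false).v Y) (t2 : 0 < cv3r.v Y - X)
    (hX : (w3W false).v Y ≤ X) :
    (pd 3).v X Y x * (Y - (2 : ℕ)) = (w3D false 2 kcg).v Y x + sD_Apk1.v X Y x * (X - (w3W false).v Y) :=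
  rt0 (gD_3_2 hU hq) (nD_q3 a b (by linarith) (by linarith)) t0 t1 hX t2
theorem sKApk2 {X Y x : ℝ} (hF : SideOk PP tK tL pcB x) (hq : InQ 3 Y) (a : 896826081 / 536870912 < Y) (b : Y ≤ 1875645773 / 1073741824)
    (t0 : 0 < (w3W false).v Y - cv2r.v Y) (t1 : 0 < cv3r.v Y - (w3W false).v Y) (t2 : 0 < cv3r.v Y - X)
    (hX : (w3W false).v Y ≤ X) :
    (pcB 3).K.v X Y x = (w3K false 2 kcg).v Y x + sK_Apk2.v X Y x * (X - (w3W false).v Y) :=
  rt0 (gK_3_2 hF hq) (nK_q3 a b (by linarith) (by linarith)) t0 t1 hX t2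
theorem sLApk2 {X Y x : ℝ} (hF : SideOk PP tK tL pcB x) (hq : InQ 3 Y) (a : 896826081 / 536870912 < Y) (b : Y ≤ 1875645773 / 1073741824)
    (t0 : 0 < (w3W false).v Y - cv2r.v Y) (t1 : 0 < cv3r.v Y - (w3W false).v Y) (t2 : 0 < cv3r.v Y - X)
    (hX : (w3W false).v Y ≤ X) :
    (pcB 3).L.v X Y x = (w3Q false kcg).v Y x + sX_Apk2.v X Y x * (X - (w3W false).v Y) :=
  rt0 (gL_3_2 hF hq) (nX_q3 a b (by linarith) (by linarith)) t0 t1 hX t2
theorem sDApk2 {X Y x : ℝ} (hF : SideOk PP tK tL pcB x) (hU : ThrOk PP tU pd x) (hq : InQ 3 Y) (a : 896826081 / 536870912 < Y) (b : Y ≤ 1875645773 / 1073741824)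
    (t0 : 0 < (w3W false).v Y - cv2r.v Y) (t1 : 0 < cv3r.v Y - (w3W false).v Y) (t2 : 0 < cv3r.v Y - X)
    (hX : (w3W false).v Y ≤ X) :
    (pd 3).v X Y x * (Y - (2 : ℕ)) = (w3D false 2 kcg).v Y x + sD_Apk2.v X Y x * (X - (w3W false).v Y) :=
  rt0 (gD_3_2 hU hq) (nD_q3 a b (by linarith) (by linarith)) t0 t1 hX t2
theorem sKAm {X Y x : ℝ} (hF : SideOk PP tK tL pcB x) (hq : InQ 3 Y) (a : 896826081 / 536870912 < Y) (b : Y ≤ 1875645773 / 1073741824)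
    (t0 : 0 < (w3W false).v Y - cv2r.v Y) (t1 : 0 < cv3r.v Y - (w3W false).v Y) (t2 : 0 < X - cv2r.v Y)
    (hX : X ≤ (w3W false).v Y) :
    (pcB 3).K.v X Y x = (w3K false 2 kcg).v Y x + sK_Am.v X Y x * (X - (w3W false).v Y) :=
  lf0 (gK_3_2 hF hq) (nK_q3 a b (by linarith) (by linarith)) t0 t1 hX t2
theorem sLAm {X Y x : ℝ} (hF : SideOk PP tK tL pcB x) (hq : InQ 3 Y) (a : 896826081 / 536870912 < Y) (b : Y ≤ 1875645773 / 1073741824)
    (t0 : 0 < (w3W false).v Y - cv2r.v Y) (t1 : 0 < cv3r.v Y - (w3W false).v Y) (t2 : 0 < X - cv2r.v Y)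
    (hX : X ≤ (w3W false).v Y) :
    (pcB 3).L.v X Y x = (w3Q false kcg).v Y x + sX_Am.v X Y x * (X - (w3W false).v Y) :=
  lf0 (gL_3_2 hF hq) (nX_q3 a b (by linarith) (by linarith)) t0 t1 hX t2
theorem sDAm {X Y x : ℝ} (hF : SideOk PP tK tL pcB x) (hU : ThrOk PP tU pd x) (hq : InQ 3 Y) (a : 896826081 / 536870912 < Y) (b : Y ≤ 1875645773 / 1073741824)
    (t0 : 0 < (w3W false).v Y - cv2r.v Y) (t1 : 0 < cv3r.v Y - (w3W false).v Y) (t2 : 0 < X - cv2r.v Y)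
    (hX : X ≤ (w3W false).v Y) :
    (pd 3).v X Y x * (Y - (2 : ℕ)) = (w3D false 2 kcg).v Y x + sD_Am.v X Y x * (X - (w3W false).v Y) :=
  lf0 (gD_3_2 hU hq) (nD_q3 a b (by linarith) (by linarith)) t0 t1 hX t2
theorem sKBp {X Y x : ℝ} (hF : SideOk PP tK tL pcB x) (hq : InQ 0 Y) (a : 271837875 / 1073741824 < Y) (b : Y ≤ 176915743 / 536870912)
    (t0 : 0 < (w3W true).v Y - cv2m.v Y) (t1 : 0 < cv3m.v Y - (w3W true).v Y) (t2 : 0 < X - cv2m.v Y)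
    (hX : X ≤ (w3W true).v Y) :
    (pcB 0).K.v X Y x = (w3K true 0 kcg).v Y x + sK_Bp.v X Y x * (X - (w3W true).v Y) :=
  lf0 (gK_0_2 hF hq) (nK_q0 a b (by linarith) (by linarith)) t0 t1 hX t2
theorem sLBp {X Y x : ℝ} (hF : SideOk PP tK tL pcB x) (hq : InQ 0 Y) (a : 271837875 / 1073741824 < Y) (b : Y ≤ 176915743 / 536870912)
    (t0 : 0 < (w3W true).v Y - cv2m.v Y) (t1 : 0 < cv3m.v Y - (w3W true).v Y) (t2 : 0 < X - cv2m.v Y)
    (hX : X ≤ (w3W true).v Y) :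
    (pcB 0).L.v X Y x = (w3Q true kcg).v Y x + sX_Bp.v X Y x * (X - (w3W true).v Y) :=
  lf0 (gL_0_2 hF hq) (nX_q0 a b (by linarith) (by linarith)) t0 t1 hX t2
theorem sDBp {X Y x : ℝ} (hF : SideOk PP tK tL pcB x) (hU : ThrOk PP tU pd x) (hq : InQ 0 Y) (a : 271837875 / 1073741824 < Y) (b : Y ≤ 176915743 / 536870912)
    (t0 : 0 < (w3W true).v Y - cv2m.v Y) (t1 : 0 < cv3m.v Y - (w3W true).v Y) (t2 : 0 < X - cv2m.v Y)
    (hX : X ≤ (w3W true).v Y) :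
    (pd 0).v X Y x * (Y - (0 : ℕ)) = (w3D true 0 kcg).v Y x + sD_Bp.v X Y x * (X - (w3W true).v Y) :=
  lf0 (gD_0_2 hU hq) (nD_q0 a b (by linarith) (by linarith)) t0 t1 hX t2
theorem sKBpk1 {X Y x : ℝ} (hF : SideOk PP tK tL pcB x) (hq : InQ 0 Y) (a : 271837875 / 1073741824 < Y) (b : Y ≤ 176915743 / 536870912)
    (t0 : 0 < (w3W true).v Y - cv2m.v Y) (t1 : 0 < cv3m.v Y - (w3W true).v Y) (t2 : 0 < X - cv2m.v Y)
    (hX : X ≤ (w3W true).v Y) :
    (pcB 0).K.v X Y x = (w3K true 0 kcg).v Y x + sK_Bpk1.v X Y x * (X - (w3W true).v Y) :=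
  lf0 (gK_0_2 hF hq) (nK_q0 a b (by linarith) (by linarith)) t0 t1 hX t2
theorem sLBpk1 {X Y x : ℝ} (hF : SideOk PP tK tL pcB x) (hq : InQ 0 Y) (a : 271837875 / 1073741824 < Y) (b : Y ≤ 176915743 / 536870912)
    (t0 : 0 < (w3W true).v Y - cv2m.v Y) (t1 : 0 < cv3m.v Y - (w3W true).v Y) (t2 : 0 < X - cv2m.v Y)
    (hX : X ≤ (w3W true).v Y) :
    (pcB 0).L.v X Y x = (w3Q true kcg).v Y x + sX_Bpk1.v X Y x * (X - (w3W true).v Y) :=
  lf0 (gL_0_2 hF hq) (nX_q0 a b (by linarith) (by linarith)) t0 t1 hX t2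
theorem sDBpk1 {X Y x : ℝ} (hF : SideOk PP tK tL pcB x) (hU : ThrOk PP tU pd x) (hq : InQ 0 Y) (a : 271837875 / 1073741824 < Y) (b : Y ≤ 176915743 / 536870912)
    (t0 : 0 < (w3W true).v Y - cv2m.v Y) (t1 : 0 < cv3m.v Y - (w3W true).v Y) (t2 : 0 < X - cv2m.v Y)
    (hX : X ≤ (w3W true).v Y) :
    (pd 0).v X Y x * (Y - (0 : ℕ)) = (w3D true 0 kcg).v Y x + sD_Bpk1.v X Y x * (X - (w3W true).v Y) :=
  lf0 (gD_0_2 hU hq) (nD_q0 a b (by linarith) (by linarith)) t0 t1 hX t2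
theorem sKBpk2 {X Y x : ℝ} (hF : SideOk PP tK tL pcB x) (hq : InQ 0 Y) (a : 271837875 / 1073741824 < Y) (b : Y ≤ 176915743 / 536870912)
    (t0 : 0 < (w3W true).v Y - cv2m.v Y) (t1 : 0 < cv3m.v Y - (w3W true).v Y) (t2 : 0 < X - cv2m.v Y)
    (hX : X ≤ (w3W true).v Y) :
    (pcB 0).K.v X Y x = (w3K true 0 kcg).v Y x + sK_Bpk2.v X Y x * (X - (w3W true).v Y) :=
  lf0 (gK_0_2 hF hq) (nK_q0 a b (by linarith) (by linarith)) t0 t1 hX t2
theorem sLBpk2 {X Y x : ℝ} (hF : SideOk PP tK tL pcB x) (hq : InQ 0 Y) (a : 271837875 / 1073741824 < Y) (b : Y ≤ 176915743 / 536870912)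
    (t0 : 0 < (w3W true).v Y - cv2m.v Y) (t1 : 0 < cv3m.v Y - (w3W true).v Y) (t2 : 0 < X - cv2m.v Y)
    (hX : X ≤ (w3W true).v Y) :
    (pcB 0).L.v X Y x = (w3Q true kcg).v Y x + sX_Bpk2.v X Y x * (X - (w3W true).v Y) :=
  lf0 (gL_0_2 hF hq) (nX_q0 a b (by linarith) (by linarith)) t0 t1 hX t2
theorem sDBpk2 {X Y x : ℝ} (hF : SideOk PP tK tL pcB x) (hU : ThrOk PP tU pd x) (hq : InQ 0 Y) (a : 271837875 / 1073741824 < Y) (b : Y ≤ 176915743 / 536870912)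
    (t0 : 0 < (w3W true).v Y - cv2m.v Y) (t1 : 0 < cv3m.v Y - (w3W true).v Y) (t2 : 0 < X - cv2m.v Y)
    (hX : X ≤ (w3W true).v Y) :
    (pd 0).v X Y x * (Y - (0 : ℕ)) = (w3D true 0 kcg).v Y x + sD_Bpk2.v X Y x * (X - (w3W true).v Y) :=
  lf0 (gD_0_2 hU hq) (nD_q0 a b (by linarith) (by linarith)) t0 t1 hX t2
theorem sKBm {X Y x : ℝ} (hF : SideOk PP tK tL pcB x) (hq : InQ 0 Y) (a : 271837875 / 1073741824 < Y) (b : Y ≤ 176915743 / 536870912)
    (t0 : 0 < (w3W true).v Y - cv2m.v Y) (t1 : 0 < cv3m.v Y - (w3W true).v Y) (t2 : 0 < cv3m.v Y - X)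
    (hX : (w3W true).v Y ≤ X) :
    (pcB 0).K.v X Y x = (w3K true 0 kcg).v Y x + sK_Bm.v X Y x * (X - (w3W true).v Y) :=
  rt0 (gK_0_2 hF hq) (nK_q0 a b (by linarith) (by linarith)) t0 t1 hX t2
theorem sLBm {X Y x : ℝ} (hF : SideOk PP tK tL pcB x) (hq : InQ 0 Y) (a : 271837875 / 1073741824 < Y) (b : Y ≤ 176915743 / 536870912)
    (t0 : 0 < (w3W true).v Y - cv2m.v Y) (t1 : 0 < cv3m.v Y - (w3W true).v Y) (t2 : 0 < cv3m.v Y - X)
    (hX : (w3W true).v Y ≤ X) :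
    (pcB 0).L.v X Y x = (w3Q true kcg).v Y x + sX_Bm.v X Y x * (X - (w3W true).v Y) :=
  rt0 (gL_0_2 hF hq) (nX_q0 a b (by linarith) (by linarith)) t0 t1 hX t2
theorem sDBm {X Y x : ℝ} (hF : SideOk PP tK tL pcB x) (hU : ThrOk PP tU pd x) (hq : InQ 0 Y) (a : 271837875 / 1073741824 < Y) (b : Y ≤ 176915743 / 536870912)
    (t0 : 0 < (w3W true).v Y - cv2m.v Y) (t1 : 0 < cv3m.v Y - (w3W true).v Y) (t2 : 0 < cv3m.v Y - X)
    (hX : (w3W true).v Y ≤ X) :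
    (pd 0).v X Y x * (Y - (0 : ℕ)) = (w3D true 0 kcg).v Y x + sD_Bm.v X Y x * (X - (w3W true).v Y) :=
  rt0 (gD_0_2 hU hq) (nD_q0 a b (by linarith) (by linarith)) t0 t1 hX t2
theorem rX {x : ℝ} (x0 : 370440929 / 536870912 ≤ x) (x1 : x ≤ 780932429 / 1073741824) : ((740881858 : ℕ) : ℝ) / S ≤ x ∧ x ≤ (((740881858 : ℕ) : ℝ) + (40050571 : ℕ)) / S := by
  unfold S
  push_cast
  constructor <;> linarith
theorem xr {x : ℝ} (hx : ((740881858 : ℕ) : ℝ) / S ≤ x) (hx' : x ≤ (((740881858 : ℕ) : ℝ) + (40050571 : ℕ)) / S) : 370440929 / 536870912 ≤ x ∧ x ≤ 780932429 / 1073741824 := by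
  unfold S at hx hx'
  push_cast at hx hx'
  constructor <;> linarith
theorem w_Ap {u b x : ℝ} (x0 : 370440929 / 536870912 ≤ x) (x1 : x ≤ 780932429 / 1073741824) (h1 : |u| < 5 / 256) (h2 : |b| < 1 / 32) (h3 : |u + b| < 5 / 256) (hb : 0 ≤ b) : (w3W false).v (1 + (x + u + b)) ≤ c1n (x + u) - sp.xs.v u b x := by
  obtain ⟨u1, u2⟩ := abs_lt.1 h1
  obtain ⟨b1, b2⟩ := abs_lt.1 h2
  obtain ⟨v1, v2⟩ := abs_lt.1 h3
  have cm1 : c1n (1 + b) ≤ 1 / 2 := c1n_half hb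
  have cm2 : c1n (x + u) ≥ c1n (x + u + b) := c1n_le' (by linarith) (by linarith)
  rw [w3W_A]
  show c1n (x + u + b) - 1 / 2 ≤ c1n (x + u) - c1n (1 + b)
  linarith
theorem zKAp {u b x : ℝ} (hF : SideOk PP tK tL pcB x) (x0 : 370440929 / 536870912 ≤ x) (x1 : x ≤ 780932429 / 1073741824) (h1 : |u| < 5 / 256) (h2 : |b| < 1 / 32) (h3 : |u + b| < 5 / 256) (hb : 0 ≤ b) (q3 : InQ 3 (1 + (x + u + b)))
    (hc : ∀ G ∈ cx_Ap, 0 < G.v u b x) : (pcB 3).K.v (c1n (x + u) - sp.xs.v u b x) (1 + (x + u + b)) x =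
    ((c1n (x + u + b) - 1 / 2) * cG (x + u + b) + kcg.v (psn (x + u + b)) x) * -(1 - (x + u + b)) + sK_Ap.v (c1n (x + u) - sp.xs.v u b x) (1 + (x + u + b)) x * (c1n (x + u) - sp.xs.v u b x - (c1n (x + u + b) - 1 / 2)) := by
  have hw := w_Ap x0 x1 h1 h2 h3 hb
  obtain ⟨u1, u2⟩ := abs_lt.1 h1
  obtain ⟨b1, b2⟩ := abs_lt.1 h2
  obtain ⟨v1, v2⟩ := abs_lt.1 h3
  have y1 := q3.1
  have y2 := q3.2
  have c0 : 0 < (tCC (w3W false) cv2r).v (c1n (x + u) - sp.xs.v u b x) (1 + (x + u + b)) x := hc (f3A sp.xs (tCC (w3W false) cv2r)) (by unfold cx_Ap; simp only [List.mem_cons, true_or, or_true])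
  have c1 : 0 < (tCC cv3r (w3W false)).v (c1n (x + u) - sp.xs.v u b x) (1 + (x + u + b)) x := hc (f3A sp.xs (tCC cv3r (w3W false))) (by unfold cx_Ap; simp only [List.mem_cons, true_or, or_true])
  have c2 : 0 < (tCX cv3r).v (c1n (x + u) - sp.xs.v u b x) (1 + (x + u + b)) x := hc (f3A sp.xs (tCX cv3r)) (by unfold cx_Ap; simp only [List.mem_cons, true_or, or_true])
  refine (sKAp hF q3 (by linarith) (by linarith) c0 c1 c2 hw).trans ?_
  rw [w3K_A, w3W_A]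
  push_cast
  ring
theorem zLAp {u b x : ℝ} (hF : SideOk PP tK tL pcB x) (x0 : 370440929 / 536870912 ≤ x) (x1 : x ≤ 780932429 / 1073741824) (h1 : |u| < 5 / 256) (h2 : |b| < 1 / 32) (h3 : |u + b| < 5 / 256) (hb : 0 ≤ b) (q3 : InQ 3 (1 + (x + u + b)))
    (hc : ∀ G ∈ cx_Ap, 0 < G.v u b x) : (pcB 3).L.v (c1n (x + u) - sp.xs.v u b x) (1 + (x + u + b)) x =
    cQ x (x + u + b) (kcg.v (psn (x + u + b)) x) + sX_Ap.v (c1n (x + u) - sp.xs.v u b x) (1 + (x + u + b)) x * (c1n (x + u) - sp.xs.v u b x - (c1n (x + u + b) - 1 / 2)) := by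
  have hw := w_Ap x0 x1 h1 h2 h3 hb
  obtain ⟨u1, u2⟩ := abs_lt.1 h1
  obtain ⟨b1, b2⟩ := abs_lt.1 h2
  obtain ⟨v1, v2⟩ := abs_lt.1 h3
  have y1 := q3.1
  have y2 := q3.2
  have c0 : 0 < (tCC (w3W false) cv2r).v (c1n (x + u) - sp.xs.v u b x) (1 + (x + u + b)) x := hc (f3A sp.xs (tCC (w3W false) cv2r)) (by unfold cx_Ap; simp only [List.mem_cons, true_or, or_true])
  have c1 : 0 < (tCC cv3r (w3W false)).v (c1n (x + u) - sp.xs.v u b x) (1 + (x + u + b)) x := hc (f3A sp.xs (tCC cv3r (w3W false))) (by unfold cx_Ap; simp only [List.mem_cons, true_or, or_true])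
  have c2 : 0 < (tCX cv3r).v (c1n (x + u) - sp.xs.v u b x) (1 + (x + u + b)) x := hc (f3A sp.xs (tCX cv3r)) (by unfold cx_Ap; simp only [List.mem_cons, true_or, or_true])
  refine (sLAp hF q3 (by linarith) (by linarith) c0 c1 c2 hw).trans ?_
  rw [w3Q_A, w3W_A]
theorem zDAp {u b x : ℝ} (hF : SideOk PP tK tL pcB x) (hU : ThrOk PP tU pd x) (x0 : 370440929 / 536870912 ≤ x) (x1 : x ≤ 780932429 / 1073741824) (h1 : |u| < 5 / 256) (h2 : |b| < 1 / 32) (h3 : |u + b| < 5 / 256) (hb : 0 ≤ b) (q3 : InQ 3 (1 + (x + u + b)))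
    (hc : ∀ G ∈ cx_Ap, 0 < G.v u b x) : (pd 3).v (c1n (x + u) - sp.xs.v u b x) (1 + (x + u + b)) x * -(1 - (x + u + b)) =
    (cP (x + u + b) - 1 / 2 * cD (x + u + b) - (cR (x + u + b) + 2 * c1n (x + u + b) - 1) * kcg.v (psn (x + u + b)) x) * -(1 - (x + u + b)) + sD_Ap.v (c1n (x + u) - sp.xs.v u b x) (1 + (x + u + b)) x * (c1n (x + u) - sp.xs.v u b x - (c1n (x + u + b) - 1 / 2)) := by
  have hw := w_Ap x0 x1 h1 h2 h3 hb
  obtain ⟨u1, u2⟩ := abs_lt.1 h1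
  obtain ⟨b1, b2⟩ := abs_lt.1 h2
  obtain ⟨v1, v2⟩ := abs_lt.1 h3
  have y1 := q3.1
  have y2 := q3.2
  have c0 : 0 < (tCC (w3W false) cv2r).v (c1n (x + u) - sp.xs.v u b x) (1 + (x + u + b)) x := hc (f3A sp.xs (tCC (w3W false) cv2r)) (by unfold cx_Ap; simp only [List.mem_cons, true_or, or_true])
  have c1 : 0 < (tCC cv3r (w3W false)).v (c1n (x + u) - sp.xs.v u b x) (1 + (x + u + b)) x := hc (f3A sp.xs (tCC cv3r (w3W false))) (by unfold cx_Ap; simp only [List.mem_cons, true_or, or_true])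
  have c2 : 0 < (tCX cv3r).v (c1n (x + u) - sp.xs.v u b x) (1 + (x + u + b)) x := hc (f3A sp.xs (tCX cv3r)) (by unfold cx_Ap; simp only [List.mem_cons, true_or, or_true])
  have e := sDAp hF hU q3 (by linarith) (by linarith) c0 c1 c2 hw
  rw [w3D_A, w3W_A] at e
  push_cast at e
  linear_combination e
theorem thrU {x : ℝ} (hx : ((740881858 : ℕ) : ℝ) / S ≤ x) (hx' : x ≤ (((740881858 : ℕ) : ℝ) + (40050571 : ℕ)) / S) : ThrOk PP tU pd x := ⟨pinU hx hx', thU (pinU hx hx')⟩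
theorem eng_n (x : ℝ) : eng.v x = 1 + mun 3 x * cR x := (en_v x).trans (by rw [gug_v])
theorem dc {x : ℝ} (x0 : 370440929 / 536870912 ≤ x) (x1 : x ≤ 780932429 / 1073741824) : DC (1 / 5) (2333 / 1000) (261 / 500) x := by
  have i : 1 / 8 / x ≤ 1 / 8 / (370440929 / 536870912) := div_le_div_of_nonneg_left (by norm_num) (by norm_num) x0
  exact ⟨by norm_num, by norm_num, by linarith, by linarith, by norm_num, by norm_num; linarith, by norm_num, by norm_num at i ⊢; nlinarith, by norm_num; nlinarith⟩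
theorem fE_Ap {a : ℕ} {x u b κ τ : ℝ} (hF : SideOk PP tK tL pcB x) (hU : ThrOk PP tU pd x) (hκ : κ * h0 = ken x)
    (x0 : 370440929 / 536870912 ≤ x) (x1 : x ≤ 780932429 / 1073741824) (h1 : |u| < 5 / 256) (h2 : |b| < 1 / 32) (h3 : |u + b| < 5 / 256) (F : FactsA PP a 2 3 0 0 1 (-1) (x + u) (1 + b))
    (t1 : tau (h0 * (x + u)) = h0 * τ) (K1 : tK 0 a (x + u) x = (c1n (x + u) * cG (x + u) + kcg.v (psn (x + u)) x) * τ) (L1 : tL 0 a (x + u) x = cQ x (x + u) (kcg.v (psn (x + u)) x)) (C1 : tC 0 a (x + u) x = esn x * (cP (x + u) - (cR (x + u) + 2 * c1n (x + u)) * kcg.v (psn (x + u)) x)) :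
    DirEA (1 / 5) κ PP tK tL tC pcB (scP esg pd) a 2 3 0 0 1 (-1) x (x + u) (1 + b) := by
  obtain ⟨u1, u2⟩ := abs_lt.1 h1
  obtain ⟨b1, b2⟩ := abs_lt.1 h2
  obtain ⟨v1, v2⟩ := abs_lt.1 h3
  have qs := F.q2
  have hs1 := F.k0 rfl
  have hb : 0 ≤ b := by linarith [qs.1]
  have D : DomA u b x := ⟨by linarith, by linarith, by linarith, by linarith, by linarith, by linarith, by linarith, by linarith⟩
  have hY : x + u + (1 + b) = 1 + (x + u + b) := by ring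
  have q3 : InQ 3 (1 + (x + u + b)) := hY ▸ F.q3
  obtain ⟨p1, p2⟩ := psr (y := x + u) (by linarith) (by linarith)
  obtain ⟨p3, p4⟩ := psr (y := x + u + b) (by linarith) (by linarith)
  have hd := dqAp (dq_t x) hb (by linarith) (by linarith) (by linarith) (by linarith) p1 p2 p3 p4
  have hs : ∀ G ∈ sk_Ap, G.v u b x ≤ 0 := skPM (A := true) (v := 20971520) (u := u) (b := b) (x := x) (abs_le.2 ⟨by simp only [cond_true, cond_false]; unfold S; norm_num; linarith, by simp only [cond_true, cond_false]; unfold S; norm_num; linarith⟩)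
  obtain ⟨r1, r2⟩ := rX x0 x1
  have K5 := Cht.cert (ng := false) (r := 20971520) ct_0Ap (u := u) (b := b) (x := x) (by unfold S; norm_num; linarith) (by unfold S; norm_num; linarith) (by simp only [cond_true, cond_false]; linarith) (by simp only [cond_true, cond_false]; unfold S; norm_num; linarith) r1 r2
  have K7 := Cht.cert (ng := false) (r := 20971520) ct_2Ap (u := u) (b := b) (x := x) (by unfold S; norm_num; linarith) (by unfold S; norm_num; linarith) (by simp only [cond_true, cond_false]; linarith) (by simp only [cond_true, cond_false]; unfold S; norm_num; linarith) r1 r2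
  have t3 := t3A3 F.q3
  have hit : ((T_Ap.a true).at_ u b x).it * -(1 - (x + u + b)) = 1 := by
    show -(1 - (x + u + b))⁻¹ * _ = _
    rw [neg_mul_neg]
    exact inv_mul_cancel₀ (ne_of_gt (by linarith))
  have hx : sp.xs.v u b x = 1 / 2 + b * sp.ws.v u b x := stP_x (by linarith) (by linarith)
  have hX : crv PP 0 2 (1 + b) = sp.xs.v u b x := crv0 2 (1 + b)
  have K3 : (∀ G ∈ cx_Ap, 0 < G.v u b x) → (pcB 3).K.v (c1n (x + u) - sp.xs.v u b x) (x + u + (1 + b)) x = ((c1n (x + u + b) - 1 / 2) * cG (x + u + b) + kcg.v (psn (x + u + b)) x) * -(1 - (x + u + b)) + sK_Ap.v (c1n (x + u) - sp.xs.v u b x) (1 + (x + u + b)) x * (c1n (x + u) - sp.xs.v u b x - (c1n (x + u + b) - 1 / 2)) := fun hc => by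
    rw [hY]
    exact zKAp hF x0 x1 h1 h2 h3 hb q3 hc
  have L3 : (∀ G ∈ cx_Ap, 0 < G.v u b x) → (pcB 3).L.v (c1n (x + u) - sp.xs.v u b x) (x + u + (1 + b)) x = cQ x (x + u + b) (kcg.v (psn (x + u + b)) x) + sX_Ap.v (c1n (x + u) - sp.xs.v u b x) (1 + (x + u + b)) x * (c1n (x + u) - sp.xs.v u b x - (c1n (x + u + b) - 1 / 2)) := fun hc => by
    rw [hY]
    exact zLAp hF x0 x1 h1 h2 h3 hb q3 hc
  have C3 : (∀ G ∈ cx_Ap, 0 < G.v u b x) → (scP esg pd 3).v (c1n (x + u) - sp.xs.v u b x) (x + u + (1 + b)) x = esn x * ((cP (x + u + b) - 1 / 2 * cD (x + u + b) - (cR (x + u + b) + 2 * c1n (x + u + b) - 1) * kcg.v (psn (x + u + b)) x) + ((T_Ap.a true).at_ u b x).it * sD_Ap.v (c1n (x + u) - sp.xs.v u b x) (1 + (x + u + b)) x * (c1n (x + u) - sp.xs.v u b x - (c1n (x + u + b) - 1 / 2))) := fun hc => by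
    rw [hY]
    show esg.v x * (pd 3).v (c1n (x + u) - sp.xs.v u b x) (1 + (x + u + b)) x = _
    rw [esg_n, div_it (zDAp hF hU x0 x1 h1 h2 h3 hb q3 hc) hit]
  exact bothAp (T := T_Ap) (sk := sk_Ap) (cx := cx_Ap) (sk2 := sk_Ap) (cx2 := cx_Ap) D hb hκ hd hit t1 t3 hx hX (dc x0 x1) (by linarith) (by linarith) (by norm_num [T_Ap]) (by norm_num [T_Ap]) K5 hs K7 hs K1 (spK u hb qs hs1 (by linarith)) K3 L1 (spL u hb qs hs1 (by linarith)) L3 C1 (spC u hb qs hs1 (by linarith)) C3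
theorem AE_123 {x κ y y' : ℝ} (hF : SideOk PP tK tL pcB x) (hU : ThrOk PP tU pd x) (hκ : κ * h0 = ken x) (x0 : 370440929 / 536870912 ≤ x) (x1 : x ≤ 780932429 / 1073741824)
    (F : FactsA PP 1 2 3 0 0 1 (-1) y y') (h1 : |y - x| < 5 / 256) (h2 : |y' - 1| < 1 / 32) (h3 : |y + y' - (1 + x)| < 5 / 256) :
    DirEA (1 / 5) κ PP tK tL tC pcB (scP esg pd) 1 2 3 0 0 1 (-1) x y y' := by
  obtain ⟨u, rfl⟩ : ∃ u, y = x + u := ⟨y - x, by ring⟩
  obtain ⟨b, rfl⟩ : ∃ b, y' = 1 + b := ⟨y' - 1, by ring⟩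
  rw [show x + u - x = u by ring] at h1
  rw [show 1 + b - 1 = b by ring] at h2
  rw [show x + u + (1 + b) - (1 + x) = u + b by ring] at h3
  obtain ⟨u1, u2⟩ := abs_lt.1 h1
  exact fE_Ap hF hU hκ x0 x1 h1 h2 h3 F (t1_1 F.q1) (shK1 F.q1 (by linarith) (by linarith)) (shL1 F.q1 (by linarith) (by linarith)) (shC1 F.q1 (by linarith) (by linarith))
theorem molE_A_123_00_0 {κ x : ℝ} (hκ : κ * h0 = ken x) (hx : ((740881858 : ℕ) : ℝ) / S ≤ x) (hx' : x ≤ (((740881858 : ℕ) : ℝ) + (40050571 : ℕ)) / S) :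
    AltEA 3 κ (eng.v x) (1 / 20) (tnt (h0 * x) (1 / 5)) PP tK tL tC pcB (scP esg pd) [⟨0, 0, 1, 20971520⟩, ⟨1, 1, 0, 33554432⟩, ⟨2, 1, 1, 20971520⟩] 1 2 3 0 0 (sgb true) (sgb false) x := by
  obtain ⟨x0, x1⟩ := xr hx hx'
  exact altEA_s fun y y' F h1 h2 h3 => DirEA.st (eng_n x) (AE_123 (sideB hx hx') (thrU hx hx') hκ x0 x1 F (h1.trans_eq (by norm_num)) (h2.trans_eq (by norm_num)) (h3.trans_eq (by norm_num)))
theorem ME_213 {x κ y y' : ℝ} (hF : SideOk PP tK tL pcB x) (hU : ThrOk PP tU pd x) (hκ : κ * h0 = ken x) (x0 : 370440929 / 536870912 ≤ x) (x1 : x ≤ 780932429 / 1073741824)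
    (F : FactsA PP 2 1 3 0 0 1 (-1) y y') (h2 : |y - 1| < 1 / 32) (h1 : |y' - x| < 5 / 256) (h3 : |y + y' - (1 + x)| < 5 / 256) :
    StEA 3 κ (eng.v x) (1 / 20) (tnt (h0 * x) (1 / 5)) PP tK tL tC pcB (scP esg pd) 2 1 3 0 0 1 (-1) x y y' := by
  have F2 := factsA_mirror F
  rw [neg_neg] at F2
  have h3' : |y' + y - (1 + x)| < 5 / 256 := by rwa [add_comm y' y]
  obtain ⟨u1, u2⟩ := abs_lt.1 h1
  obtain ⟨b1, b2⟩ := abs_lt.1 h2
  have hX : (1 : ℝ) * crv PP 0 2 y + -1 * crv PP 0 1 y' ≠ 0 := by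
    rw [crv0, crv0]
    have := c1n_lt (y := y') (z := y) (by linarith) (by linarith) (by nlinarith)
    intro h
    linarith
  refine DirEA.mir (eng_n x) hF hU.sc F hX (by linarith) (by linarith) (by norm_num) (by norm_num) ?_
  rw [neg_neg]
  exact AE_123 hF hU hκ x0 x1 F2 h1 h2 h3'
theorem molE_A_213_00_1 {κ x : ℝ} (hκ : κ * h0 = ken x) (hx : ((740881858 : ℕ) : ℝ) / S ≤ x) (hx' : x ≤ (((740881858 : ℕ) : ℝ) + (40050571 : ℕ)) / S) :
    AltEA 3 κ (eng.v x) (1 / 20) (tnt (h0 * x) (1 / 5)) PP tK tL tC pcB (scP esg pd) [⟨0, 1, 0, 33554432⟩, ⟨1, 0, 1, 20971520⟩, ⟨2, 1, 1, 20971520⟩] 2 1 3 0 0 (sgb true) (sgb false) x := by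
  obtain ⟨x0, x1⟩ := xr hx hx'
  exact altEA_m fun y y' F h2 h1 h3 => ME_213 (sideB hx hx') (thrU hx hx') hκ x0 x1 F (h2.trans_eq (by norm_num)) (h1.trans_eq (by norm_num)) (h3.trans_eq (by norm_num))
theorem w_Apk1 {u b x : ℝ} (x0 : 370440929 / 536870912 ≤ x) (x1 : x ≤ 780932429 / 1073741824) (h1 : |u| < 5 / 256) (h2 : |b| < 1 / 32) (h3 : |u + b| < 5 / 256) (hb : 0 ≤ b) : (w3W false).v (1 + (x + u + b)) ≤ c1n (x + u) - sk1.xs.v u b x := by
  obtain ⟨u1, u2⟩ := abs_lt.1 h1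
  obtain ⟨b1, b2⟩ := abs_lt.1 h2
  obtain ⟨v1, v2⟩ := abs_lt.1 h3
  have cm1 : (fXS 4 1 5).v u b x ≤ 1 / 2 := fXS_le (by norm_num) hb
  have cm2 : c1n (x + u) ≥ c1n (x + u + b) := c1n_le' (by linarith) (by linarith)
  rw [w3W_A]
  show c1n (x + u + b) - 1 / 2 ≤ c1n (x + u) - (fXS 4 1 5).v u b x
  linarith
theorem zKApk1 {u b x : ℝ} (hF : SideOk PP tK tL pcB x) (x0 : 370440929 / 536870912 ≤ x) (x1 : x ≤ 780932429 / 1073741824) (h1 : |u| < 5 / 256) (h2 : |b| < 1 / 32) (h3 : |u + b| < 5 / 256) (hb : 0 ≤ b) (q3 : InQ 3 (1 + (x + u + b)))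
    (hc : ∀ G ∈ cx_Apk1, 0 < G.v u b x) : (pcB 3).K.v (c1n (x + u) - sk1.xs.v u b x) (1 + (x + u + b)) x =
    ((c1n (x + u + b) - 1 / 2) * cG (x + u + b) + kcg.v (psn (x + u + b)) x) * -(1 - (x + u + b)) + sK_Apk1.v (c1n (x + u) - sk1.xs.v u b x) (1 + (x + u + b)) x * (c1n (x + u) - sk1.xs.v u b x - (c1n (x + u + b) - 1 / 2)) := by
  have hw := w_Apk1 x0 x1 h1 h2 h3 hb
  obtain ⟨u1, u2⟩ := abs_lt.1 h1
  obtain ⟨b1, b2⟩ := abs_lt.1 h2
  obtain ⟨v1, v2⟩ := abs_lt.1 h3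
  have y1 := q3.1
  have y2 := q3.2
  have c0 : 0 < (tCC (w3W false) cv2r).v (c1n (x + u) - sk1.xs.v u b x) (1 + (x + u + b)) x := hc (f3A sk1.xs (tCC (w3W false) cv2r)) (by unfold cx_Apk1; simp only [List.mem_cons, true_or, or_true])
  have c1 : 0 < (tCC cv3r (w3W false)).v (c1n (x + u) - sk1.xs.v u b x) (1 + (x + u + b)) x := hc (f3A sk1.xs (tCC cv3r (w3W false))) (by unfold cx_Apk1; simp only [List.mem_cons, true_or, or_true])
  have c2 : 0 < (tCX cv3r).v (c1n (x + u) - sk1.xs.v u b x) (1 + (x + u + b)) x := hc (f3A sk1.xs (tCX cv3r)) (by unfold cx_Apk1; simp only [List.mem_cons, true_or, or_true])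
  refine (sKApk1 hF q3 (by linarith) (by linarith) c0 c1 c2 hw).trans ?_
  rw [w3K_A, w3W_A]
  push_cast
  ring
theorem zLApk1 {u b x : ℝ} (hF : SideOk PP tK tL pcB x) (x0 : 370440929 / 536870912 ≤ x) (x1 : x ≤ 780932429 / 1073741824) (h1 : |u| < 5 / 256) (h2 : |b| < 1 / 32) (h3 : |u + b| < 5 / 256) (hb : 0 ≤ b) (q3 : InQ 3 (1 + (x + u + b)))
    (hc : ∀ G ∈ cx_Apk1, 0 < G.v u b x) : (pcB 3).L.v (c1n (x + u) - sk1.xs.v u b x) (1 + (x + u + b)) x =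
    cQ x (x + u + b) (kcg.v (psn (x + u + b)) x) + sX_Apk1.v (c1n (x + u) - sk1.xs.v u b x) (1 + (x + u + b)) x * (c1n (x + u) - sk1.xs.v u b x - (c1n (x + u + b) - 1 / 2)) := by
  have hw := w_Apk1 x0 x1 h1 h2 h3 hb
  obtain ⟨u1, u2⟩ := abs_lt.1 h1
  obtain ⟨b1, b2⟩ := abs_lt.1 h2
  obtain ⟨v1, v2⟩ := abs_lt.1 h3
  have y1 := q3.1
  have y2 := q3.2
  have c0 : 0 < (tCC (w3W false) cv2r).v (c1n (x + u) - sk1.xs.v u b x) (1 + (x + u + b)) x := hc (f3A sk1.xs (tCC (w3W false) cv2r)) (by unfold cx_Apk1; simp only [List.mem_cons, true_or, or_true])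
  have c1 : 0 < (tCC cv3r (w3W false)).v (c1n (x + u) - sk1.xs.v u b x) (1 + (x + u + b)) x := hc (f3A sk1.xs (tCC cv3r (w3W false))) (by unfold cx_Apk1; simp only [List.mem_cons, true_or, or_true])
  have c2 : 0 < (tCX cv3r).v (c1n (x + u) - sk1.xs.v u b x) (1 + (x + u + b)) x := hc (f3A sk1.xs (tCX cv3r)) (by unfold cx_Apk1; simp only [List.mem_cons, true_or, or_true])
  refine (sLApk1 hF q3 (by linarith) (by linarith) c0 c1 c2 hw).trans ?_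
  rw [w3Q_A, w3W_A]
theorem zDApk1 {u b x : ℝ} (hF : SideOk PP tK tL pcB x) (hU : ThrOk PP tU pd x) (x0 : 370440929 / 536870912 ≤ x) (x1 : x ≤ 780932429 / 1073741824) (h1 : |u| < 5 / 256) (h2 : |b| < 1 / 32) (h3 : |u + b| < 5 / 256) (hb : 0 ≤ b) (q3 : InQ 3 (1 + (x + u + b)))
    (hc : ∀ G ∈ cx_Apk1, 0 < G.v u b x) : (pd 3).v (c1n (x + u) - sk1.xs.v u b x) (1 + (x + u + b)) x * -(1 - (x + u + b)) =
    (cP (x + u + b) - 1 / 2 * cD (x + u + b) - (cR (x + u + b) + 2 * c1n (x + u + b) - 1) * kcg.v (psn (x + u + b)) x) * -(1 - (x + u + b)) + sD_Apk1.v (c1n (x + u) - sk1.xs.v u b x) (1 + (x + u + b)) x * (c1n (x + u) - sk1.xs.v u b x - (c1n (x + u + b) - 1 / 2)) := by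
  have hw := w_Apk1 x0 x1 h1 h2 h3 hb
  obtain ⟨u1, u2⟩ := abs_lt.1 h1
  obtain ⟨b1, b2⟩ := abs_lt.1 h2
  obtain ⟨v1, v2⟩ := abs_lt.1 h3
  have y1 := q3.1
  have y2 := q3.2
  have c0 : 0 < (tCC (w3W false) cv2r).v (c1n (x + u) - sk1.xs.v u b x) (1 + (x + u + b)) x := hc (f3A sk1.xs (tCC (w3W false) cv2r)) (by unfold cx_Apk1; simp only [List.mem_cons, true_or, or_true])
  have c1 : 0 < (tCC cv3r (w3W false)).v (c1n (x + u) - sk1.xs.v u b x) (1 + (x + u + b)) x := hc (f3A sk1.xs (tCC cv3r (w3W false))) (by unfold cx_Apk1; simp only [List.mem_cons, true_or, or_true])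
  have c2 : 0 < (tCX cv3r).v (c1n (x + u) - sk1.xs.v u b x) (1 + (x + u + b)) x := hc (f3A sk1.xs (tCX cv3r)) (by unfold cx_Apk1; simp only [List.mem_cons, true_or, or_true])
  have e := sDApk1 hF hU q3 (by linarith) (by linarith) c0 c1 c2 hw
  rw [w3D_A, w3W_A] at e
  push_cast at e
  linear_combination e
theorem fE_Apk1 {a : ℕ} {x u b κ τ : ℝ} (hF : SideOk PP tK tL pcB x) (hU : ThrOk PP tU pd x) (hκ : κ * h0 = ken x)
    (x0 : 370440929 / 536870912 ≤ x) (x1 : x ≤ 780932429 / 1073741824) (h1 : |u| < 5 / 256) (h2 : |b| < 1 / 32) (h3 : |u + b| < 5 / 256) (F : FactsA PP a 2 3 0 1 1 (-1) (x + u) (1 + b))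
    (t1 : tau (h0 * (x + u)) = h0 * τ) (K1 : tK 0 a (x + u) x = (c1n (x + u) * cG (x + u) + kcg.v (psn (x + u)) x) * τ) (L1 : tL 0 a (x + u) x = cQ x (x + u) (kcg.v (psn (x + u)) x)) (C1 : tC 0 a (x + u) x = esn x * (cP (x + u) - (cR (x + u) + 2 * c1n (x + u)) * kcg.v (psn (x + u)) x)) :
    DirEA (1 / 5) κ PP tK tL tC pcB (scP esg pd) a 2 3 0 1 1 (-1) x (x + u) (1 + b) := by
  obtain ⟨u1, u2⟩ := abs_lt.1 h1
  obtain ⟨b1, b2⟩ := abs_lt.1 h2
  obtain ⟨v1, v2⟩ := abs_lt.1 h3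
  have qs := F.q2
  have hb : 0 ≤ b := by linarith [qs.1]
  have D : DomA u b x := ⟨by linarith, by linarith, by linarith, by linarith, by linarith, by linarith, by linarith, by linarith⟩
  have hY : x + u + (1 + b) = 1 + (x + u + b) := by ring
  have q3 : InQ 3 (1 + (x + u + b)) := hY ▸ F.q3
  obtain ⟨p1, p2⟩ := psr (y := x + u) (by linarith) (by linarith)
  obtain ⟨p3, p4⟩ := psr (y := x + u + b) (by linarith) (by linarith)
  have hd := dqAp (dq_t x) hb (by linarith) (by linarith) (by linarith) (by linarith) p1 p2 p3 p4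
  have hs : ∀ G ∈ sk_Apk1, G.v u b x ≤ 0 := skPM (A := true) (v := 20971520) (u := u) (b := b) (x := x) (abs_le.2 ⟨by simp only [cond_true, cond_false]; unfold S; norm_num; linarith, by simp only [cond_true, cond_false]; unfold S; norm_num; linarith⟩)
  obtain ⟨r1, r2⟩ := rX x0 x1
  have K5 := Cht.cert (ng := false) (r := 20971520) ct_0Apk1 (u := u) (b := b) (x := x) (by unfold S; norm_num; linarith) (by unfold S; norm_num; linarith) (by simp only [cond_true, cond_false]; linarith) (by simp only [cond_true, cond_false]; unfold S; norm_num; linarith) r1 r2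
  have K7 := Cht.cert (ng := false) (r := 20971520) ct_2Apk1 (u := u) (b := b) (x := x) (by unfold S; norm_num; linarith) (by unfold S; norm_num; linarith) (by simp only [cond_true, cond_false]; linarith) (by simp only [cond_true, cond_false]; unfold S; norm_num; linarith) r1 r2
  have t3 := t3A3 F.q3
  have hit : ((T_Apk1.a true).at_ u b x).it * -(1 - (x + u + b)) = 1 := by
    show -(1 - (x + u + b))⁻¹ * _ = _
    rw [neg_mul_neg]
    exact inv_mul_cancel₀ (ne_of_gt (by linarith))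
  have hx : sk1.xs.v u b x = 1 / 2 + b * sk1.ws.v u b x := stK_x (by norm_num) (by linarith) (by linarith)
  have hX : crv PP 1 2 (1 + b) = sk1.xs.v u b x := sX1 u
  have K3 : (∀ G ∈ cx_Apk1, 0 < G.v u b x) → (pcB 3).K.v (c1n (x + u) - sk1.xs.v u b x) (x + u + (1 + b)) x = ((c1n (x + u + b) - 1 / 2) * cG (x + u + b) + kcg.v (psn (x + u + b)) x) * -(1 - (x + u + b)) + sK_Apk1.v (c1n (x + u) - sk1.xs.v u b x) (1 + (x + u + b)) x * (c1n (x + u) - sk1.xs.v u b x - (c1n (x + u + b) - 1 / 2)) := fun hc => by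
    rw [hY]
    exact zKApk1 hF x0 x1 h1 h2 h3 hb q3 hc
  have L3 : (∀ G ∈ cx_Apk1, 0 < G.v u b x) → (pcB 3).L.v (c1n (x + u) - sk1.xs.v u b x) (x + u + (1 + b)) x = cQ x (x + u + b) (kcg.v (psn (x + u + b)) x) + sX_Apk1.v (c1n (x + u) - sk1.xs.v u b x) (1 + (x + u + b)) x * (c1n (x + u) - sk1.xs.v u b x - (c1n (x + u + b) - 1 / 2)) := fun hc => by
    rw [hY]
    exact zLApk1 hF x0 x1 h1 h2 h3 hb q3 hc
  have C3 : (∀ G ∈ cx_Apk1, 0 < G.v u b x) → (scP esg pd 3).v (c1n (x + u) - sk1.xs.v u b x) (x + u + (1 + b)) x = esn x * ((cP (x + u + b) - 1 / 2 * cD (x + u + b) - (cR (x + u + b) + 2 * c1n (x + u + b) - 1) * kcg.v (psn (x + u + b)) x) + ((T_Apk1.a true).at_ u b x).it * sD_Apk1.v (c1n (x + u) - sk1.xs.v u b x) (1 + (x + u + b)) x * (c1n (x + u) - sk1.xs.v u b x - (c1n (x + u + b) - 1 / 2))) := fun hc => by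
    rw [hY]
    show esg.v x * (pd 3).v (c1n (x + u) - sk1.xs.v u b x) (1 + (x + u + b)) x = _
    rw [esg_n, div_it (zDApk1 hF hU x0 x1 h1 h2 h3 hb q3 hc) hit]
  exact bothAp (T := T_Apk1) (sk := sk_Apk1) (cx := cx_Apk1) (sk2 := sk_Apk1) (cx2 := cx_Apk1) D hb hκ hd hit t1 t3 hx hX (dc x0 x1) (by linarith) (by linarith) (by norm_num [T_Apk1]) (by norm_num [T_Apk1]) K5 hs K7 hs K1 (sk1K u hb qs (by linarith)) K3 L1 (sk1L u hb qs (by linarith)) L3 C1 (sk1C u hb qs (by linarith)) C3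
theorem AE1_123 {x κ y y' : ℝ} (hF : SideOk PP tK tL pcB x) (hU : ThrOk PP tU pd x) (hκ : κ * h0 = ken x) (x0 : 370440929 / 536870912 ≤ x) (x1 : x ≤ 780932429 / 1073741824)
    (F : FactsA PP 1 2 3 0 1 1 (-1) y y') (h1 : |y - x| < 5 / 256) (h2 : |y' - 1| < 1 / 32) (h3 : |y + y' - (1 + x)| < 5 / 256) :
    DirEA (1 / 5) κ PP tK tL tC pcB (scP esg pd) 1 2 3 0 1 1 (-1) x y y' := by
  obtain ⟨u, rfl⟩ : ∃ u, y = x + u := ⟨y - x, by ring⟩
  obtain ⟨b, rfl⟩ : ∃ b, y' = 1 + b := ⟨y' - 1, by ring⟩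
  rw [show x + u - x = u by ring] at h1
  rw [show 1 + b - 1 = b by ring] at h2
  rw [show x + u + (1 + b) - (1 + x) = u + b by ring] at h3
  obtain ⟨u1, u2⟩ := abs_lt.1 h1
  exact fE_Apk1 hF hU hκ x0 x1 h1 h2 h3 F (t1_1 F.q1) (shK1 F.q1 (by linarith) (by linarith)) (shL1 F.q1 (by linarith) (by linarith)) (shC1 F.q1 (by linarith) (by linarith))
theorem molE_A_123_01_0 {κ x : ℝ} (hκ : κ * h0 = ken x) (hx : ((740881858 : ℕ) : ℝ) / S ≤ x) (hx' : x ≤ (((740881858 : ℕ) : ℝ) + (40050571 : ℕ)) / S) :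
    AltEA 3 κ (eng.v x) (1 / 20) (tnt (h0 * x) (1 / 5)) PP tK tL tC pcB (scP esg pd) [⟨0, 0, 1, 20971520⟩, ⟨1, 1, 0, 33554432⟩, ⟨2, 1, 1, 20971520⟩] 1 2 3 0 1 (sgb true) (sgb false) x := by
  obtain ⟨x0, x1⟩ := xr hx hx'
  exact altEA_s fun y y' F h1 h2 h3 => DirEA.st (eng_n x) (AE1_123 (sideB hx hx') (thrU hx hx') hκ x0 x1 F (h1.trans_eq (by norm_num)) (h2.trans_eq (by norm_num)) (h3.trans_eq (by norm_num)))
theorem w_Apk2 {u b x : ℝ} (x0 : 370440929 / 536870912 ≤ x) (x1 : x ≤ 780932429 / 1073741824) (h1 : |u| < 5 / 256) (h2 : |b| < 1 / 32) (h3 : |u + b| < 5 / 256) (hb : 0 ≤ b) : (w3W false).v (1 + (x + u + b)) ≤ c1n (x + u) - sk2.xs.v u b x := by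
  obtain ⟨u1, u2⟩ := abs_lt.1 h1
  obtain ⟨b1, b2⟩ := abs_lt.1 h2
  obtain ⟨v1, v2⟩ := abs_lt.1 h3
  have cm1 : (fXS 1 1 2).v u b x ≤ 1 / 2 := fXS_le (by norm_num) hb
  have cm2 : c1n (x + u) ≥ c1n (x + u + b) := c1n_le' (by linarith) (by linarith)
  rw [w3W_A]
  show c1n (x + u + b) - 1 / 2 ≤ c1n (x + u) - (fXS 1 1 2).v u b x
  linarith
theorem zKApk2 {u b x : ℝ} (hF : SideOk PP tK tL pcB x) (x0 : 370440929 / 536870912 ≤ x) (x1 : x ≤ 780932429 / 1073741824) (h1 : |u| < 5 / 256) (h2 : |b| < 1 / 32) (h3 : |u + b| < 5 / 256) (hb : 0 ≤ b) (q3 : InQ 3 (1 + (x + u + b)))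
    (hc : ∀ G ∈ cx_Apk2, 0 < G.v u b x) : (pcB 3).K.v (c1n (x + u) - sk2.xs.v u b x) (1 + (x + u + b)) x =
    ((c1n (x + u + b) - 1 / 2) * cG (x + u + b) + kcg.v (psn (x + u + b)) x) * -(1 - (x + u + b)) + sK_Apk2.v (c1n (x + u) - sk2.xs.v u b x) (1 + (x + u + b)) x * (c1n (x + u) - sk2.xs.v u b x - (c1n (x + u + b) - 1 / 2)) := by
  have hw := w_Apk2 x0 x1 h1 h2 h3 hb
  obtain ⟨u1, u2⟩ := abs_lt.1 h1
  obtain ⟨b1, b2⟩ := abs_lt.1 h2
  obtain ⟨v1, v2⟩ := abs_lt.1 h3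
  have y1 := q3.1
  have y2 := q3.2
  have c0 : 0 < (tCC (w3W false) cv2r).v (c1n (x + u) - sk2.xs.v u b x) (1 + (x + u + b)) x := hc (f3A sk2.xs (tCC (w3W false) cv2r)) (by unfold cx_Apk2; simp only [List.mem_cons, true_or, or_true])
  have c1 : 0 < (tCC cv3r (w3W false)).v (c1n (x + u) - sk2.xs.v u b x) (1 + (x + u + b)) x := hc (f3A sk2.xs (tCC cv3r (w3W false))) (by unfold cx_Apk2; simp only [List.mem_cons, true_or, or_true])
  have c2 : 0 < (tCX cv3r).v (c1n (x + u) - sk2.xs.v u b x) (1 + (x + u + b)) x := hc (f3A sk2.xs (tCX cv3r)) (by unfold cx_Apk2; simp only [List.mem_cons, true_or, or_true])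
  refine (sKApk2 hF q3 (by linarith) (by linarith) c0 c1 c2 hw).trans ?_
  rw [w3K_A, w3W_A]
  push_cast
  ring
theorem zLApk2 {u b x : ℝ} (hF : SideOk PP tK tL pcB x) (x0 : 370440929 / 536870912 ≤ x) (x1 : x ≤ 780932429 / 1073741824) (h1 : |u| < 5 / 256) (h2 : |b| < 1 / 32) (h3 : |u + b| < 5 / 256) (hb : 0 ≤ b) (q3 : InQ 3 (1 + (x + u + b)))
    (hc : ∀ G ∈ cx_Apk2, 0 < G.v u b x) : (pcB 3).L.v (c1n (x + u) - sk2.xs.v u b x) (1 + (x + u + b)) x =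
    cQ x (x + u + b) (kcg.v (psn (x + u + b)) x) + sX_Apk2.v (c1n (x + u) - sk2.xs.v u b x) (1 + (x + u + b)) x * (c1n (x + u) - sk2.xs.v u b x - (c1n (x + u + b) - 1 / 2)) := by
  have hw := w_Apk2 x0 x1 h1 h2 h3 hb
  obtain ⟨u1, u2⟩ := abs_lt.1 h1
  obtain ⟨b1, b2⟩ := abs_lt.1 h2
  obtain ⟨v1, v2⟩ := abs_lt.1 h3
  have y1 := q3.1
  have y2 := q3.2
  have c0 : 0 < (tCC (w3W false) cv2r).v (c1n (x + u) - sk2.xs.v u b x) (1 + (x + u + b)) x := hc (f3A sk2.xs (tCC (w3W false) cv2r)) (by unfold cx_Apk2; simp only [List.mem_cons, true_or, or_true])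
  have c1 : 0 < (tCC cv3r (w3W false)).v (c1n (x + u) - sk2.xs.v u b x) (1 + (x + u + b)) x := hc (f3A sk2.xs (tCC cv3r (w3W false))) (by unfold cx_Apk2; simp only [List.mem_cons, true_or, or_true])
  have c2 : 0 < (tCX cv3r).v (c1n (x + u) - sk2.xs.v u b x) (1 + (x + u + b)) x := hc (f3A sk2.xs (tCX cv3r)) (by unfold cx_Apk2; simp only [List.mem_cons, true_or, or_true])
  refine (sLApk2 hF q3 (by linarith) (by linarith) c0 c1 c2 hw).trans ?_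
  rw [w3Q_A, w3W_A]
theorem zDApk2 {u b x : ℝ} (hF : SideOk PP tK tL pcB x) (hU : ThrOk PP tU pd x) (x0 : 370440929 / 536870912 ≤ x) (x1 : x ≤ 780932429 / 1073741824) (h1 : |u| < 5 / 256) (h2 : |b| < 1 / 32) (h3 : |u + b| < 5 / 256) (hb : 0 ≤ b) (q3 : InQ 3 (1 + (x + u + b)))
    (hc : ∀ G ∈ cx_Apk2, 0 < G.v u b x) : (pd 3).v (c1n (x + u) - sk2.xs.v u b x) (1 + (x + u + b)) x * -(1 - (x + u + b)) =
    (cP (x + u + b) - 1 / 2 * cD (x + u + b) - (cR (x + u + b) + 2 * c1n (x + u + b) - 1) * kcg.v (psn (x + u + b)) x) * -(1 - (x + u + b)) + sD_Apk2.v (c1n (x + u) - sk2.xs.v u b x) (1 + (x + u + b)) x * (c1n (x + u) - sk2.xs.v u b x - (c1n (x + u + b) - 1 / 2)) := by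
  have hw := w_Apk2 x0 x1 h1 h2 h3 hb
  obtain ⟨u1, u2⟩ := abs_lt.1 h1
  obtain ⟨b1, b2⟩ := abs_lt.1 h2
  obtain ⟨v1, v2⟩ := abs_lt.1 h3
  have y1 := q3.1
  have y2 := q3.2
  have c0 : 0 < (tCC (w3W false) cv2r).v (c1n (x + u) - sk2.xs.v u b x) (1 + (x + u + b)) x := hc (f3A sk2.xs (tCC (w3W false) cv2r)) (by unfold cx_Apk2; simp only [List.mem_cons, true_or, or_true])
  have c1 : 0 < (tCC cv3r (w3W false)).v (c1n (x + u) - sk2.xs.v u b x) (1 + (x + u + b)) x := hc (f3A sk2.xs (tCC cv3r (w3W false))) (by unfold cx_Apk2; simp only [List.mem_cons, true_or, or_true])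
  have c2 : 0 < (tCX cv3r).v (c1n (x + u) - sk2.xs.v u b x) (1 + (x + u + b)) x := hc (f3A sk2.xs (tCX cv3r)) (by unfold cx_Apk2; simp only [List.mem_cons, true_or, or_true])
  have e := sDApk2 hF hU q3 (by linarith) (by linarith) c0 c1 c2 hw
  rw [w3D_A, w3W_A] at e
  push_cast at e
  linear_combination e
theorem fE_Apk2 {a : ℕ} {x u b κ τ : ℝ} (hF : SideOk PP tK tL pcB x) (hU : ThrOk PP tU pd x) (hκ : κ * h0 = ken x)
    (x0 : 370440929 / 536870912 ≤ x) (x1 : x ≤ 780932429 / 1073741824) (h1 : |u| < 5 / 256) (h2 : |b| < 1 / 32) (h3 : |u + b| < 5 / 256) (F : FactsA PP a 2 3 0 2 1 (-1) (x + u) (1 + b))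
    (t1 : tau (h0 * (x + u)) = h0 * τ) (K1 : tK 0 a (x + u) x = (c1n (x + u) * cG (x + u) + kcg.v (psn (x + u)) x) * τ) (L1 : tL 0 a (x + u) x = cQ x (x + u) (kcg.v (psn (x + u)) x)) (C1 : tC 0 a (x + u) x = esn x * (cP (x + u) - (cR (x + u) + 2 * c1n (x + u)) * kcg.v (psn (x + u)) x)) :
    DirEA (1 / 5) κ PP tK tL tC pcB (scP esg pd) a 2 3 0 2 1 (-1) x (x + u) (1 + b) := by
  obtain ⟨u1, u2⟩ := abs_lt.1 h1
  obtain ⟨b1, b2⟩ := abs_lt.1 h2
  obtain ⟨v1, v2⟩ := abs_lt.1 h3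
  have qs := F.q2
  have hb : 0 ≤ b := by linarith [qs.1]
  have D : DomA u b x := ⟨by linarith, by linarith, by linarith, by linarith, by linarith, by linarith, by linarith, by linarith⟩
  have hY : x + u + (1 + b) = 1 + (x + u + b) := by ring
  have q3 : InQ 3 (1 + (x + u + b)) := hY ▸ F.q3
  obtain ⟨p1, p2⟩ := psr (y := x + u) (by linarith) (by linarith)
  obtain ⟨p3, p4⟩ := psr (y := x + u + b) (by linarith) (by linarith)
  have hd := dqAp (dq_t x) hb (by linarith) (by linarith) (by linarith) (by linarith) p1 p2 p3 p4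
  have hs : ∀ G ∈ sk_Apk2, G.v u b x ≤ 0 := skPM (A := true) (v := 20971520) (u := u) (b := b) (x := x) (abs_le.2 ⟨by simp only [cond_true, cond_false]; unfold S; norm_num; linarith, by simp only [cond_true, cond_false]; unfold S; norm_num; linarith⟩)
  obtain ⟨r1, r2⟩ := rX x0 x1
  have K5 := Cht.cert (ng := false) (r := 20971520) ct_0Apk2 (u := u) (b := b) (x := x) (by unfold S; norm_num; linarith) (by unfold S; norm_num; linarith) (by simp only [cond_true, cond_false]; linarith) (by simp only [cond_true, cond_false]; unfold S; norm_num; linarith) r1 r2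
  have K7 := Cht.cert (ng := false) (r := 20971520) ct_2Apk2 (u := u) (b := b) (x := x) (by unfold S; norm_num; linarith) (by unfold S; norm_num; linarith) (by simp only [cond_true, cond_false]; linarith) (by simp only [cond_true, cond_false]; unfold S; norm_num; linarith) r1 r2
  have t3 := t3A3 F.q3
  have hit : ((T_Apk2.a true).at_ u b x).it * -(1 - (x + u + b)) = 1 := by
    show -(1 - (x + u + b))⁻¹ * _ = _
    rw [neg_mul_neg]
    exact inv_mul_cancel₀ (ne_of_gt (by linarith))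
  have hx : sk2.xs.v u b x = 1 / 2 + b * sk2.ws.v u b x := stK_x (by norm_num) (by linarith) (by linarith)
  have hX : crv PP 2 2 (1 + b) = sk2.xs.v u b x := sX2 u
  have K3 : (∀ G ∈ cx_Apk2, 0 < G.v u b x) → (pcB 3).K.v (c1n (x + u) - sk2.xs.v u b x) (x + u + (1 + b)) x = ((c1n (x + u + b) - 1 / 2) * cG (x + u + b) + kcg.v (psn (x + u + b)) x) * -(1 - (x + u + b)) + sK_Apk2.v (c1n (x + u) - sk2.xs.v u b x) (1 + (x + u + b)) x * (c1n (x + u) - sk2.xs.v u b x - (c1n (x + u + b) - 1 / 2)) := fun hc => by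
    rw [hY]
    exact zKApk2 hF x0 x1 h1 h2 h3 hb q3 hc
  have L3 : (∀ G ∈ cx_Apk2, 0 < G.v u b x) → (pcB 3).L.v (c1n (x + u) - sk2.xs.v u b x) (x + u + (1 + b)) x = cQ x (x + u + b) (kcg.v (psn (x + u + b)) x) + sX_Apk2.v (c1n (x + u) - sk2.xs.v u b x) (1 + (x + u + b)) x * (c1n (x + u) - sk2.xs.v u b x - (c1n (x + u + b) - 1 / 2)) := fun hc => by
    rw [hY]
    exact zLApk2 hF x0 x1 h1 h2 h3 hb q3 hc
  have C3 : (∀ G ∈ cx_Apk2, 0 < G.v u b x) → (scP esg pd 3).v (c1n (x + u) - sk2.xs.v u b x) (x + u + (1 + b)) x = esn x * ((cP (x + u + b) - 1 / 2 * cD (x + u + b) - (cR (x + u + b) + 2 * c1n (x + u + b) - 1) * kcg.v (psn (x + u + b)) x) + ((T_Apk2.a true).at_ u b x).it * sD_Apk2.v (c1n (x + u) - sk2.xs.v u b x) (1 + (x + u + b)) x * (c1n (x + u) - sk2.xs.v u b x - (c1n (x + u + b) - 1 / 2))) := fun hc => by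
    rw [hY]
    show esg.v x * (pd 3).v (c1n (x + u) - sk2.xs.v u b x) (1 + (x + u + b)) x = _
    rw [esg_n, div_it (zDApk2 hF hU x0 x1 h1 h2 h3 hb q3 hc) hit]
  exact bothAp (T := T_Apk2) (sk := sk_Apk2) (cx := cx_Apk2) (sk2 := sk_Apk2) (cx2 := cx_Apk2) D hb hκ hd hit t1 t3 hx hX (dc x0 x1) (by linarith) (by linarith) (by norm_num [T_Apk2]) (by norm_num [T_Apk2]) K5 hs K7 hs K1 (sk2K u hb qs (by linarith)) K3 L1 (sk2L u hb qs (by linarith)) L3 C1 (sk2C u hb qs (by linarith)) C3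
theorem AE2_123 {x κ y y' : ℝ} (hF : SideOk PP tK tL pcB x) (hU : ThrOk PP tU pd x) (hκ : κ * h0 = ken x) (x0 : 370440929 / 536870912 ≤ x) (x1 : x ≤ 780932429 / 1073741824)
    (F : FactsA PP 1 2 3 0 2 1 (-1) y y') (h1 : |y - x| < 5 / 256) (h2 : |y' - 1| < 1 / 32) (h3 : |y + y' - (1 + x)| < 5 / 256) :
    DirEA (1 / 5) κ PP tK tL tC pcB (scP esg pd) 1 2 3 0 2 1 (-1) x y y' := by
  obtain ⟨u, rfl⟩ : ∃ u, y = x + u := ⟨y - x, by ring⟩
  obtain ⟨b, rfl⟩ : ∃ b, y' = 1 + b := ⟨y' - 1, by ring⟩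
  rw [show x + u - x = u by ring] at h1
  rw [show 1 + b - 1 = b by ring] at h2
  rw [show x + u + (1 + b) - (1 + x) = u + b by ring] at h3
  obtain ⟨u1, u2⟩ := abs_lt.1 h1
  exact fE_Apk2 hF hU hκ x0 x1 h1 h2 h3 F (t1_1 F.q1) (shK1 F.q1 (by linarith) (by linarith)) (shL1 F.q1 (by linarith) (by linarith)) (shC1 F.q1 (by linarith) (by linarith))
theorem molE_A_123_02_0 {κ x : ℝ} (hκ : κ * h0 = ken x) (hx : ((740881858 : ℕ) : ℝ) / S ≤ x) (hx' : x ≤ (((740881858 : ℕ) : ℝ) + (40050571 : ℕ)) / S) :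
    AltEA 3 κ (eng.v x) (1 / 20) (tnt (h0 * x) (1 / 5)) PP tK tL tC pcB (scP esg pd) [⟨0, 0, 1, 20971520⟩, ⟨1, 1, 0, 33554432⟩, ⟨2, 1, 1, 20971520⟩] 1 2 3 0 2 (sgb true) (sgb false) x := by
  obtain ⟨x0, x1⟩ := xr hx hx'
  exact altEA_s fun y y' F h1 h2 h3 => DirEA.st (eng_n x) (AE2_123 (sideB hx hx') (thrU hx hx') hκ x0 x1 F (h1.trans_eq (by norm_num)) (h2.trans_eq (by norm_num)) (h3.trans_eq (by norm_num)))
theorem w_Am {u b x : ℝ} (x0 : 370440929 / 536870912 ≤ x) (x1 : x ≤ 780932429 / 1073741824) (h1 : |u| < 5 / 256) (h2 : |b| < 1 / 32) (h3 : |u + b| < 5 / 256) (hb : b < 0) : c1n (x + u) - sm.xs.v u b x ≤ (w3W false).v (1 + (x + u + b)) := by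
  obtain ⟨u1, u2⟩ := abs_lt.1 h1
  obtain ⟨b1, b2⟩ := abs_lt.1 h2
  obtain ⟨v1, v2⟩ := abs_lt.1 h3
  have cm1 : c1n (1 + b) ≥ 1 / 2 := c1n_half' hb.le (by linarith)
  have cm2 : c1n (x + u) ≤ c1n (x + u + b) := c1n_le' (by linarith) (by linarith)
  rw [w3W_A]
  show c1n (x + u) - c1n (1 + b) ≤ c1n (x + u + b) - 1 / 2
  linarith
theorem zKAm {u b x : ℝ} (hF : SideOk PP tK tL pcB x) (x0 : 370440929 / 536870912 ≤ x) (x1 : x ≤ 780932429 / 1073741824) (h1 : |u| < 5 / 256) (h2 : |b| < 1 / 32) (h3 : |u + b| < 5 / 256) (hb : b < 0) (q3 : InQ 3 (1 + (x + u + b)))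
    (hc : ∀ G ∈ cx_Am, 0 < G.v u b x) : (pcB 3).K.v (c1n (x + u) - sm.xs.v u b x) (1 + (x + u + b)) x =
    ((c1n (x + u + b) - 1 / 2) * cG (x + u + b) + kcg.v (psn (x + u + b)) x) * -(1 - (x + u + b)) + sK_Am.v (c1n (x + u) - sm.xs.v u b x) (1 + (x + u + b)) x * (c1n (x + u) - sm.xs.v u b x - (c1n (x + u + b) - 1 / 2)) := by
  have hw := w_Am x0 x1 h1 h2 h3 hb
  obtain ⟨u1, u2⟩ := abs_lt.1 h1
  obtain ⟨b1, b2⟩ := abs_lt.1 h2
  obtain ⟨v1, v2⟩ := abs_lt.1 h3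
  have y1 := q3.1
  have y2 := q3.2
  have c0 : 0 < (tCC (w3W false) cv2r).v (c1n (x + u) - sm.xs.v u b x) (1 + (x + u + b)) x := hc (f3A sm.xs (tCC (w3W false) cv2r)) (by unfold cx_Am; simp only [List.mem_cons, true_or, or_true])
  have c1 : 0 < (tCC cv3r (w3W false)).v (c1n (x + u) - sm.xs.v u b x) (1 + (x + u + b)) x := hc (f3A sm.xs (tCC cv3r (w3W false))) (by unfold cx_Am; simp only [List.mem_cons, true_or, or_true])
  have c2 : 0 < (tXC cv2r).v (c1n (x + u) - sm.xs.v u b x) (1 + (x + u + b)) x := hc (f3A sm.xs (tXC cv2r)) (by unfold cx_Am; simp only [List.mem_cons, true_or, or_true])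
  refine (sKAm hF q3 (by linarith) (by linarith) c0 c1 c2 hw).trans ?_
  rw [w3K_A, w3W_A]
  push_cast
  ring
theorem zLAm {u b x : ℝ} (hF : SideOk PP tK tL pcB x) (x0 : 370440929 / 536870912 ≤ x) (x1 : x ≤ 780932429 / 1073741824) (h1 : |u| < 5 / 256) (h2 : |b| < 1 / 32) (h3 : |u + b| < 5 / 256) (hb : b < 0) (q3 : InQ 3 (1 + (x + u + b)))
    (hc : ∀ G ∈ cx_Am, 0 < G.v u b x) : (pcB 3).L.v (c1n (x + u) - sm.xs.v u b x) (1 + (x + u + b)) x =
    cQ x (x + u + b) (kcg.v (psn (x + u + b)) x) + sX_Am.v (c1n (x + u) - sm.xs.v u b x) (1 + (x + u + b)) x * (c1n (x + u) - sm.xs.v u b x - (c1n (x + u + b) - 1 / 2)) := by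
  have hw := w_Am x0 x1 h1 h2 h3 hb
  obtain ⟨u1, u2⟩ := abs_lt.1 h1
  obtain ⟨b1, b2⟩ := abs_lt.1 h2
  obtain ⟨v1, v2⟩ := abs_lt.1 h3
  have y1 := q3.1
  have y2 := q3.2
  have c0 : 0 < (tCC (w3W false) cv2r).v (c1n (x + u) - sm.xs.v u b x) (1 + (x + u + b)) x := hc (f3A sm.xs (tCC (w3W false) cv2r)) (by unfold cx_Am; simp only [List.mem_cons, true_or, or_true])
  have c1 : 0 < (tCC cv3r (w3W false)).v (c1n (x + u) - sm.xs.v u b x) (1 + (x + u + b)) x := hc (f3A sm.xs (tCC cv3r (w3W false))) (by unfold cx_Am; simp only [List.mem_cons, true_or, or_true])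
  have c2 : 0 < (tXC cv2r).v (c1n (x + u) - sm.xs.v u b x) (1 + (x + u + b)) x := hc (f3A sm.xs (tXC cv2r)) (by unfold cx_Am; simp only [List.mem_cons, true_or, or_true])
  refine (sLAm hF q3 (by linarith) (by linarith) c0 c1 c2 hw).trans ?_
  rw [w3Q_A, w3W_A]
theorem zDAm {u b x : ℝ} (hF : SideOk PP tK tL pcB x) (hU : ThrOk PP tU pd x) (x0 : 370440929 / 536870912 ≤ x) (x1 : x ≤ 780932429 / 1073741824) (h1 : |u| < 5 / 256) (h2 : |b| < 1 / 32) (h3 : |u + b| < 5 / 256) (hb : b < 0) (q3 : InQ 3 (1 + (x + u + b)))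
    (hc : ∀ G ∈ cx_Am, 0 < G.v u b x) : (pd 3).v (c1n (x + u) - sm.xs.v u b x) (1 + (x + u + b)) x * -(1 - (x + u + b)) =
    (cP (x + u + b) - 1 / 2 * cD (x + u + b) - (cR (x + u + b) + 2 * c1n (x + u + b) - 1) * kcg.v (psn (x + u + b)) x) * -(1 - (x + u + b)) + sD_Am.v (c1n (x + u) - sm.xs.v u b x) (1 + (x + u + b)) x * (c1n (x + u) - sm.xs.v u b x - (c1n (x + u + b) - 1 / 2)) := by
  have hw := w_Am x0 x1 h1 h2 h3 hb
  obtain ⟨u1, u2⟩ := abs_lt.1 h1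
  obtain ⟨b1, b2⟩ := abs_lt.1 h2
  obtain ⟨v1, v2⟩ := abs_lt.1 h3
  have y1 := q3.1
  have y2 := q3.2
  have c0 : 0 < (tCC (w3W false) cv2r).v (c1n (x + u) - sm.xs.v u b x) (1 + (x + u + b)) x := hc (f3A sm.xs (tCC (w3W false) cv2r)) (by unfold cx_Am; simp only [List.mem_cons, true_or, or_true])
  have c1 : 0 < (tCC cv3r (w3W false)).v (c1n (x + u) - sm.xs.v u b x) (1 + (x + u + b)) x := hc (f3A sm.xs (tCC cv3r (w3W false))) (by unfold cx_Am; simp only [List.mem_cons, true_or, or_true])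
  have c2 : 0 < (tXC cv2r).v (c1n (x + u) - sm.xs.v u b x) (1 + (x + u + b)) x := hc (f3A sm.xs (tXC cv2r)) (by unfold cx_Am; simp only [List.mem_cons, true_or, or_true])
  have e := sDAm hF hU q3 (by linarith) (by linarith) c0 c1 c2 hw
  rw [w3D_A, w3W_A] at e
  push_cast at e
  linear_combination e
theorem fE_Am {a : ℕ} {x u b κ τ : ℝ} (hF : SideOk PP tK tL pcB x) (hU : ThrOk PP tU pd x) (hκ : κ * h0 = ken x)
    (x0 : 370440929 / 536870912 ≤ x) (x1 : x ≤ 780932429 / 1073741824) (h1 : |u| < 5 / 256) (h2 : |b| < 1 / 32) (h3 : |u + b| < 5 / 256) (F : FactsA PP a 1 3 0 0 1 (-1) (x + u) (1 + b))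
    (t1 : tau (h0 * (x + u)) = h0 * τ) (K1 : tK 0 a (x + u) x = (c1n (x + u) * cG (x + u) + kcg.v (psn (x + u)) x) * τ) (L1 : tL 0 a (x + u) x = cQ x (x + u) (kcg.v (psn (x + u)) x)) (C1 : tC 0 a (x + u) x = esn x * (cP (x + u) - (cR (x + u) + 2 * c1n (x + u)) * kcg.v (psn (x + u)) x)) :
    DirEA (1 / 5) κ PP tK tL tC pcB (scP esg pd) a 1 3 0 0 1 (-1) x (x + u) (1 + b) := by
  obtain ⟨u1, u2⟩ := abs_lt.1 h1
  obtain ⟨b1, b2⟩ := abs_lt.1 h2
  obtain ⟨v1, v2⟩ := abs_lt.1 h3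
  have qs := F.q2
  have hs1 := F.k0 rfl
  have hb : b < 0 := by linarith [qs.2]
  have D : DomA u b x := ⟨by linarith, by linarith, by linarith, by linarith, by linarith, by linarith, by linarith, by linarith⟩
  have hY : x + u + (1 + b) = 1 + (x + u + b) := by ring
  have q3 : InQ 3 (1 + (x + u + b)) := hY ▸ F.q3
  obtain ⟨p1, p2⟩ := psr (y := x + u) (by linarith) (by linarith)
  obtain ⟨p3, p4⟩ := psr (y := x + u + b) (by linarith) (by linarith)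
  have hd := dqAm (dq_t x) hb (by linarith) (by linarith) (by linarith) (by linarith) p1 p2 p3 p4
  have hs : ∀ G ∈ sk_Am, G.v u b x ≤ 0 := skPM (A := true) (v := 20971520) (u := u) (b := b) (x := x) (abs_le.2 ⟨by simp only [cond_true, cond_false]; unfold S; norm_num; linarith, by simp only [cond_true, cond_false]; unfold S; norm_num; linarith⟩)
  obtain ⟨r1, r2⟩ := rX x0 x1
  have K5 := Cht.cert (ng := true) (r := 20971520) ct_0Am (u := u) (b := b) (x := x) (by unfold S; norm_num; linarith) (by unfold S; norm_num; linarith) (by simp only [cond_true, cond_false]; linarith) (by simp only [cond_true, cond_false]; unfold S; norm_num; linarith) r1 r2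
  have K7 := Cht.cert (ng := true) (r := 20971520) ct_2Am (u := u) (b := b) (x := x) (by unfold S; norm_num; linarith) (by unfold S; norm_num; linarith) (by simp only [cond_true, cond_false]; linarith) (by simp only [cond_true, cond_false]; unfold S; norm_num; linarith) r1 r2
  have t3 := t3A3 F.q3
  have hit : ((T_Am.a false).at_ u b x).it * -(1 - (x + u + b)) = 1 := by
    show -(1 - (x + u + b))⁻¹ * _ = _
    rw [neg_mul_neg]
    exact inv_mul_cancel₀ (ne_of_gt (by linarith))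
  have hx : sm.xs.v u b x = 1 / 2 + b * sm.ws.v u b x := stM_x (by linarith) (by linarith)
  have hX : crv PP 0 1 (1 + b) = sm.xs.v u b x := crv0 1 (1 + b)
  have K3 : (∀ G ∈ cx_Am, 0 < G.v u b x) → (pcB 3).K.v (c1n (x + u) - sm.xs.v u b x) (x + u + (1 + b)) x = ((c1n (x + u + b) - 1 / 2) * cG (x + u + b) + kcg.v (psn (x + u + b)) x) * -(1 - (x + u + b)) + sK_Am.v (c1n (x + u) - sm.xs.v u b x) (1 + (x + u + b)) x * (c1n (x + u) - sm.xs.v u b x - (c1n (x + u + b) - 1 / 2)) := fun hc => by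
    rw [hY]
    exact zKAm hF x0 x1 h1 h2 h3 hb q3 hc
  have L3 : (∀ G ∈ cx_Am, 0 < G.v u b x) → (pcB 3).L.v (c1n (x + u) - sm.xs.v u b x) (x + u + (1 + b)) x = cQ x (x + u + b) (kcg.v (psn (x + u + b)) x) + sX_Am.v (c1n (x + u) - sm.xs.v u b x) (1 + (x + u + b)) x * (c1n (x + u) - sm.xs.v u b x - (c1n (x + u + b) - 1 / 2)) := fun hc => by
    rw [hY]
    exact zLAm hF x0 x1 h1 h2 h3 hb q3 hc
  have C3 : (∀ G ∈ cx_Am, 0 < G.v u b x) → (scP esg pd 3).v (c1n (x + u) - sm.xs.v u b x) (x + u + (1 + b)) x = esn x * ((cP (x + u + b) - 1 / 2 * cD (x + u + b) - (cR (x + u + b) + 2 * c1n (x + u + b) - 1) * kcg.v (psn (x + u + b)) x) + ((T_Am.a false).at_ u b x).it * sD_Am.v (c1n (x + u) - sm.xs.v u b x) (1 + (x + u + b)) x * (c1n (x + u) - sm.xs.v u b x - (c1n (x + u + b) - 1 / 2))) := fun hc => by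
    rw [hY]
    show esg.v x * (pd 3).v (c1n (x + u) - sm.xs.v u b x) (1 + (x + u + b)) x = _
    rw [esg_n, div_it (zDAm hF hU x0 x1 h1 h2 h3 hb q3 hc) hit]
  exact bothAm (T := T_Am) (sk := sk_Am) (cx := cx_Am) (sk2 := sk_Am) (cx2 := cx_Am) D hb hκ hd hit t1 t3 hx hX (dc x0 x1) (by linarith) (by linarith) (by norm_num [T_Am]) (by norm_num [T_Am]) K5 hs K7 hs K1 (smK u hb qs (by linarith)) K3 L1 (smL u hb qs (by linarith)) L3 C1 (smC u hb qs (by linarith)) C3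
theorem AE_113 {x κ y y' : ℝ} (hF : SideOk PP tK tL pcB x) (hU : ThrOk PP tU pd x) (hκ : κ * h0 = ken x) (x0 : 370440929 / 536870912 ≤ x) (x1 : x ≤ 780932429 / 1073741824)
    (F : FactsA PP 1 1 3 0 0 1 (-1) y y') (h1 : |y - x| < 5 / 256) (h2 : |y' - 1| < 1 / 32) (h3 : |y + y' - (1 + x)| < 5 / 256) :
    DirEA (1 / 5) κ PP tK tL tC pcB (scP esg pd) 1 1 3 0 0 1 (-1) x y y' := by
  obtain ⟨u, rfl⟩ : ∃ u, y = x + u := ⟨y - x, by ring⟩
  obtain ⟨b, rfl⟩ : ∃ b, y' = 1 + b := ⟨y' - 1, by ring⟩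
  rw [show x + u - x = u by ring] at h1
  rw [show 1 + b - 1 = b by ring] at h2
  rw [show x + u + (1 + b) - (1 + x) = u + b by ring] at h3
  obtain ⟨u1, u2⟩ := abs_lt.1 h1
  exact fE_Am hF hU hκ x0 x1 h1 h2 h3 F (t1_1 F.q1) (shK1 F.q1 (by linarith) (by linarith)) (shL1 F.q1 (by linarith) (by linarith)) (shC1 F.q1 (by linarith) (by linarith))
theorem molE_A_113_00_0 {κ x : ℝ} (hκ : κ * h0 = ken x) (hx : ((740881858 : ℕ) : ℝ) / S ≤ x) (hx' : x ≤ (((740881858 : ℕ) : ℝ) + (40050571 : ℕ)) / S) :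
    AltEA 3 κ (eng.v x) (1 / 20) (tnt (h0 * x) (1 / 5)) PP tK tL tC pcB (scP esg pd) [⟨0, 0, 1, 20971520⟩, ⟨1, 1, 0, 33554432⟩, ⟨2, 1, 1, 20971520⟩] 1 1 3 0 0 (sgb true) (sgb false) x := by
  obtain ⟨x0, x1⟩ := xr hx hx'
  exact altEA_s fun y y' F h1 h2 h3 => DirEA.st (eng_n x) (AE_113 (sideB hx hx') (thrU hx hx') hκ x0 x1 F (h1.trans_eq (by norm_num)) (h2.trans_eq (by norm_num)) (h3.trans_eq (by norm_num)))
theorem ME_113 {x κ y y' : ℝ} (hF : SideOk PP tK tL pcB x) (hU : ThrOk PP tU pd x) (hκ : κ * h0 = ken x) (x0 : 370440929 / 536870912 ≤ x) (x1 : x ≤ 780932429 / 1073741824)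
    (F : FactsA PP 1 1 3 0 0 1 (-1) y y') (h2 : |y - 1| < 1 / 32) (h1 : |y' - x| < 5 / 256) (h3 : |y + y' - (1 + x)| < 5 / 256) :
    StEA 3 κ (eng.v x) (1 / 20) (tnt (h0 * x) (1 / 5)) PP tK tL tC pcB (scP esg pd) 1 1 3 0 0 1 (-1) x y y' := by
  have F2 := factsA_mirror F
  rw [neg_neg] at F2
  have h3' : |y' + y - (1 + x)| < 5 / 256 := by rwa [add_comm y' y]
  obtain ⟨u1, u2⟩ := abs_lt.1 h1
  obtain ⟨b1, b2⟩ := abs_lt.1 h2
  have hX : (1 : ℝ) * crv PP 0 1 y + -1 * crv PP 0 1 y' ≠ 0 := by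
    rw [crv0, crv0]
    have := c1n_lt (y := y') (z := y) (by linarith) (by linarith) (by nlinarith)
    intro h
    linarith
  refine DirEA.mir (eng_n x) hF hU.sc F hX (by linarith) (by linarith) (by norm_num) (by norm_num) ?_
  rw [neg_neg]
  exact AE_113 hF hU hκ x0 x1 F2 h1 h2 h3'
theorem molE_A_113_00_1 {κ x : ℝ} (hκ : κ * h0 = ken x) (hx : ((740881858 : ℕ) : ℝ) / S ≤ x) (hx' : x ≤ (((740881858 : ℕ) : ℝ) + (40050571 : ℕ)) / S) :
    AltEA 3 κ (eng.v x) (1 / 20) (tnt (h0 * x) (1 / 5)) PP tK tL tC pcB (scP esg pd) [⟨0, 1, 0, 33554432⟩, ⟨1, 0, 1, 20971520⟩, ⟨2, 1, 1, 20971520⟩] 1 1 3 0 0 (sgb true) (sgb false) x := by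
  obtain ⟨x0, x1⟩ := xr hx hx'
  exact altEA_m fun y y' F h2 h1 h3 => ME_113 (sideB hx hx') (thrU hx hx') hκ x0 x1 F (h2.trans_eq (by norm_num)) (h1.trans_eq (by norm_num)) (h3.trans_eq (by norm_num))
theorem w_Bp {u b x : ℝ} (x0 : 370440929 / 536870912 ≤ x) (x1 : x ≤ 780932429 / 1073741824) (h1 : |u| < 5 / 256) (h2 : |b| < 1 / 32) (h3 : |u - b| < 5 / 256) (hb : 0 ≤ b) : c1n (x + u) + sp.xs.v u b x ≤ (w3W true).v (1 - (x + u - b)) := by
  obtain ⟨u1, u2⟩ := abs_lt.1 h1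
  obtain ⟨b1, b2⟩ := abs_lt.1 h2
  obtain ⟨v1, v2⟩ := abs_lt.1 h3
  have cm1 : c1n (1 + b) ≤ 1 / 2 := c1n_half hb
  have cm2 : c1n (x + u) ≤ c1n (x + u - b) := c1n_le' (by linarith) (by linarith)
  rw [w3W_B]
  show c1n (x + u) + c1n (1 + b) ≤ c1n (x + u - b) + 1 / 2
  linarith
theorem zKBp {u b x : ℝ} (hF : SideOk PP tK tL pcB x) (x0 : 370440929 / 536870912 ≤ x) (x1 : x ≤ 780932429 / 1073741824) (h1 : |u| < 5 / 256) (h2 : |b| < 1 / 32) (h3 : |u - b| < 5 / 256) (hb : 0 ≤ b) (q3 : InQ 0 (1 - (x + u - b)))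
    (hc : ∀ G ∈ cx_Bp, 0 < G.v u b x) : (pcB 0).K.v (c1n (x + u) + sp.xs.v u b x) (1 - (x + u - b)) x =
    -(((c1n (x + u - b) + 1 / 2) * cG (x + u - b) + kcg.v (psn (x + u - b)) x) * (1 - (x + u - b))) + sK_Bp.v (c1n (x + u) + sp.xs.v u b x) (1 - (x + u - b)) x * (c1n (x + u) + sp.xs.v u b x - (c1n (x + u - b) + 1 / 2)) := by
  have hw := w_Bp x0 x1 h1 h2 h3 hb
  obtain ⟨u1, u2⟩ := abs_lt.1 h1
  obtain ⟨b1, b2⟩ := abs_lt.1 h2
  obtain ⟨v1, v2⟩ := abs_lt.1 h3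
  have y1 := q3.1
  have y2 := q3.2
  have c0 : 0 < (tCC (w3W true) cv2m).v (c1n (x + u) + sp.xs.v u b x) (1 - (x + u - b)) x := hc (f3B sp.xs (tCC (w3W true) cv2m)) (by unfold cx_Bp; simp only [List.mem_cons, true_or, or_true])
  have c1 : 0 < (tCC cv3m (w3W true)).v (c1n (x + u) + sp.xs.v u b x) (1 - (x + u - b)) x := hc (f3B sp.xs (tCC cv3m (w3W true))) (by unfold cx_Bp; simp only [List.mem_cons, true_or, or_true])
  have c2 : 0 < (tXC cv2m).v (c1n (x + u) + sp.xs.v u b x) (1 - (x + u - b)) x := hc (f3B sp.xs (tXC cv2m)) (by unfold cx_Bp; simp only [List.mem_cons, true_or, or_true])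
  refine (sKBp hF q3 (by linarith) (by linarith) c0 c1 c2 hw).trans ?_
  rw [w3K_B, w3W_B]
  push_cast
  ring
theorem zLBp {u b x : ℝ} (hF : SideOk PP tK tL pcB x) (x0 : 370440929 / 536870912 ≤ x) (x1 : x ≤ 780932429 / 1073741824) (h1 : |u| < 5 / 256) (h2 : |b| < 1 / 32) (h3 : |u - b| < 5 / 256) (hb : 0 ≤ b) (q3 : InQ 0 (1 - (x + u - b)))
    (hc : ∀ G ∈ cx_Bp, 0 < G.v u b x) : (pcB 0).L.v (c1n (x + u) + sp.xs.v u b x) (1 - (x + u - b)) x =
    cQ x (x + u - b) (kcg.v (psn (x + u - b)) x) + sX_Bp.v (c1n (x + u) + sp.xs.v u b x) (1 - (x + u - b)) x * (c1n (x + u) + sp.xs.v u b x - (c1n (x + u - b) + 1 / 2)) := by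
  have hw := w_Bp x0 x1 h1 h2 h3 hb
  obtain ⟨u1, u2⟩ := abs_lt.1 h1
  obtain ⟨b1, b2⟩ := abs_lt.1 h2
  obtain ⟨v1, v2⟩ := abs_lt.1 h3
  have y1 := q3.1
  have y2 := q3.2
  have c0 : 0 < (tCC (w3W true) cv2m).v (c1n (x + u) + sp.xs.v u b x) (1 - (x + u - b)) x := hc (f3B sp.xs (tCC (w3W true) cv2m)) (by unfold cx_Bp; simp only [List.mem_cons, true_or, or_true])
  have c1 : 0 < (tCC cv3m (w3W true)).v (c1n (x + u) + sp.xs.v u b x) (1 - (x + u - b)) x := hc (f3B sp.xs (tCC cv3m (w3W true))) (by unfold cx_Bp; simp only [List.mem_cons, true_or, or_true])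
  have c2 : 0 < (tXC cv2m).v (c1n (x + u) + sp.xs.v u b x) (1 - (x + u - b)) x := hc (f3B sp.xs (tXC cv2m)) (by unfold cx_Bp; simp only [List.mem_cons, true_or, or_true])
  refine (sLBp hF q3 (by linarith) (by linarith) c0 c1 c2 hw).trans ?_
  rw [w3Q_B, w3W_B]
theorem zDBp {u b x : ℝ} (hF : SideOk PP tK tL pcB x) (hU : ThrOk PP tU pd x) (x0 : 370440929 / 536870912 ≤ x) (x1 : x ≤ 780932429 / 1073741824) (h1 : |u| < 5 / 256) (h2 : |b| < 1 / 32) (h3 : |u - b| < 5 / 256) (hb : 0 ≤ b) (q3 : InQ 0 (1 - (x + u - b)))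
    (hc : ∀ G ∈ cx_Bp, 0 < G.v u b x) : (pd 0).v (c1n (x + u) + sp.xs.v u b x) (1 - (x + u - b)) x * (1 - (x + u - b)) =
    -((cP (x + u - b) + 1 / 2 * cD (x + u - b) - (cR (x + u - b) + 2 * c1n (x + u - b) + 1) * kcg.v (psn (x + u - b)) x) * (1 - (x + u - b))) + sD_Bp.v (c1n (x + u) + sp.xs.v u b x) (1 - (x + u - b)) x * (c1n (x + u) + sp.xs.v u b x - (c1n (x + u - b) + 1 / 2)) := by
  have hw := w_Bp x0 x1 h1 h2 h3 hb
  obtain ⟨u1, u2⟩ := abs_lt.1 h1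
  obtain ⟨b1, b2⟩ := abs_lt.1 h2
  obtain ⟨v1, v2⟩ := abs_lt.1 h3
  have y1 := q3.1
  have y2 := q3.2
  have c0 : 0 < (tCC (w3W true) cv2m).v (c1n (x + u) + sp.xs.v u b x) (1 - (x + u - b)) x := hc (f3B sp.xs (tCC (w3W true) cv2m)) (by unfold cx_Bp; simp only [List.mem_cons, true_or, or_true])
  have c1 : 0 < (tCC cv3m (w3W true)).v (c1n (x + u) + sp.xs.v u b x) (1 - (x + u - b)) x := hc (f3B sp.xs (tCC cv3m (w3W true))) (by unfold cx_Bp; simp only [List.mem_cons, true_or, or_true])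
  have c2 : 0 < (tXC cv2m).v (c1n (x + u) + sp.xs.v u b x) (1 - (x + u - b)) x := hc (f3B sp.xs (tXC cv2m)) (by unfold cx_Bp; simp only [List.mem_cons, true_or, or_true])
  have e := sDBp hF hU q3 (by linarith) (by linarith) c0 c1 c2 hw
  rw [w3D_B, w3W_B] at e
  push_cast at e
  linear_combination e
theorem fE_Bp {a : ℕ} {x u b κ τ y' : ℝ} (hF : SideOk PP tK tL pcB x) (hU : ThrOk PP tU pd x) (hκ : κ * h0 = ken x)
    (x0 : 370440929 / 536870912 ≤ x) (x1 : x ≤ 780932429 / 1073741824) (h1 : |u| < 5 / 256) (h2 : |b| < 1 / 32) (h3 : |u - b| < 5 / 256) (hy : y' = 1 + b - (x + u)) (F : FactsB PP a 0 2 0 0 1 (-1) (x + u) y')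
    (t1 : tau (h0 * (x + u)) = h0 * τ) (K1 : tK 0 a (x + u) x = (c1n (x + u) * cG (x + u) + kcg.v (psn (x + u)) x) * τ) (L1 : tL 0 a (x + u) x = cQ x (x + u) (kcg.v (psn (x + u)) x)) (C1 : tC 0 a (x + u) x = esn x * (cP (x + u) - (cR (x + u) + 2 * c1n (x + u)) * kcg.v (psn (x + u)) x)) :
    DirEB (1 / 5) κ PP tK tL tC pcB (scP esg pd) a 0 2 0 0 1 (-1) x (x + u) y' := by
  obtain ⟨u1, u2⟩ := abs_lt.1 h1
  obtain ⟨b1, b2⟩ := abs_lt.1 h2
  obtain ⟨v1, v2⟩ := abs_lt.1 h3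
  have e0 : x + u + y' = 1 + b := by rw [hy]; ring
  have qs : InQ 2 (1 + b) := e0 ▸ F.q3
  have hs1 : h0 * (1 + b) < 1 := e0 ▸ F.k0 rfl
  have hb : 0 ≤ b := by linarith [qs.1]
  have D : DomB u b x := ⟨by linarith, by linarith, by linarith, by linarith, by linarith, by linarith, by linarith, by linarith⟩
  have hY : y' = 1 - (x + u - b) := by rw [hy]; ring
  have q3 : InQ 0 (1 - (x + u - b)) := hY ▸ F.q2
  obtain ⟨p1, p2⟩ := psr (y := x + u) (by linarith) (by linarith)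
  obtain ⟨p3, p4⟩ := psr (y := x + u - b) (by linarith) (by linarith)
  have hd := dqBp (dq_t x) hb (by linarith) (by linarith) (by linarith) (by linarith) p1 p2 p3 p4
  have hs : ∀ G ∈ sk_Bp, G.v u b x ≤ 0 := skPM (A := false) (v := 20971520) (u := u) (b := b) (x := x) (abs_le.2 ⟨by simp only [cond_true, cond_false]; unfold S; norm_num; linarith, by simp only [cond_true, cond_false]; unfold S; norm_num; linarith⟩)
  obtain ⟨r1, r2⟩ := rX x0 x1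
  have K5 := Cht.cert (ng := false) (r := 20971520) ct_0Bp (u := u) (b := b) (x := x) (by unfold S; norm_num; linarith) (by unfold S; norm_num; linarith) (by simp only [cond_true, cond_false]; linarith) (by simp only [cond_true, cond_false]; unfold S; norm_num; linarith) r1 r2
  have K7 := Cht.cert (ng := false) (r := 20971520) ct_2Bp (u := u) (b := b) (x := x) (by unfold S; norm_num; linarith) (by unfold S; norm_num; linarith) (by simp only [cond_true, cond_false]; linarith) (by simp only [cond_true, cond_false]; unfold S; norm_num; linarith) r1 r2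
  have t3 := t3B0 F.q2 hy
  have hit : ((T_Bp.b true).at_ u b x).it * (1 - (x + u - b)) = 1 := by
    show (1 - (x + u - b))⁻¹ * _ = _
    exact inv_mul_cancel₀ (ne_of_gt (by linarith))
  have hx : sp.xs.v u b x = 1 / 2 + b * sp.ws.v u b x := stP_x (by linarith) (by linarith)
  have hX : crv PP 0 2 (1 + b) = sp.xs.v u b x := crv0 2 (1 + b)
  have od : 1 ≤ qqn (c1n (x + u) + sp.xs.v u b x) (1 - (x + u - b)) ∧ qqn (c1n (x + u) + sp.xs.v u b x) (1 - (x + u - b)) ≤ 3 ∧ c1n (x + u) + sp.xs.v u b x ≠ 0 := by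
    have l1 := F.len1
    have l3 := F.len3
    have cp := c1n_pos' (y := x + u) (by nlinarith)
    have cn : 0 ≤ c1n (1 + b) := Mol.c1n_nn (1 + b)
    have e : -1 * crv PP 0 2 (x + u + y') - 1 * crv PP 0 a (x + u) = -(c1n (x + u) + sp.xs.v u b x) := by
      rw [e0, hX, crv0]
      ring
    rw [e, qqn_neg, hY] at l1 l3
    refine ⟨l1, l3, ne_of_gt ?_⟩
    show 0 < c1n (x + u) + c1n (1 + b)
    linarith
  have eX : -sp.xs.v u b x - c1n (x + u) = -(c1n (x + u) + sp.xs.v u b x) := by ring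
  have K3 : (∀ G ∈ cx_Bp, 0 < G.v u b x) → (pcB 0).K.v (-sp.xs.v u b x - c1n (x + u)) y' x = ((c1n (x + u - b) + 1 / 2) * cG (x + u - b) + kcg.v (psn (x + u - b)) x) * (1 - (x + u - b)) - sK_Bp.v (c1n (x + u) + sp.xs.v u b x) (1 - (x + u - b)) x * (c1n (x + u) + sp.xs.v u b x - (c1n (x + u - b) + 1 / 2)) := fun hc => by
    rw [eX, hY, (hF.odd q3 od.1 od.2.1 od.2.2).1, zKBp hF x0 x1 h1 h2 h3 hb q3 hc]
    ring
  have L3 : (∀ G ∈ cx_Bp, 0 < G.v u b x) → (pcB 0).L.v (-sp.xs.v u b x - c1n (x + u)) y' x = -(cQ x (x + u - b) (kcg.v (psn (x + u - b)) x) + sX_Bp.v (c1n (x + u) + sp.xs.v u b x) (1 - (x + u - b)) x * (c1n (x + u) + sp.xs.v u b x - (c1n (x + u - b) + 1 / 2))) := fun hc => by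
    rw [eX, hY, (hF.odd q3 od.1 od.2.1 od.2.2).2, zLBp hF x0 x1 h1 h2 h3 hb q3 hc]
  have C3 : (∀ G ∈ cx_Bp, 0 < G.v u b x) → (scP esg pd 0).v (-sp.xs.v u b x - c1n (x + u)) y' x = esn x * ((cP (x + u - b) + 1 / 2 * cD (x + u - b) - (cR (x + u - b) + 2 * c1n (x + u - b) + 1) * kcg.v (psn (x + u - b)) x) - ((T_Bp.b true).at_ u b x).it * sD_Bp.v (c1n (x + u) + sp.xs.v u b x) (1 - (x + u - b)) x * (c1n (x + u) + sp.xs.v u b x - (c1n (x + u - b) + 1 / 2))) := fun hc => by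
    rw [eX, hY]
    show esg.v x * (pd 0).v (-(c1n (x + u) + sp.xs.v u b x)) (1 - (x + u - b)) x = _
    rw [esg_n, hU.odd q3 od.1 od.2.1 od.2.2, div_it' (zDBp hF hU x0 x1 h1 h2 h3 hb q3 hc) hit]
  exact bothBp (T := T_Bp) (sk := sk_Bp) (cx := cx_Bp) (sk2 := sk_Bp) (cx2 := cx_Bp) D hb hκ hy hd hit t1 t3 hx hX (dc x0 x1) (by linarith) (by linarith) (by norm_num [T_Bp]) (by norm_num [T_Bp]) K5 hs K7 hs K1 (spK u hb qs hs1 (by linarith)) K3 L1 (spL u hb qs hs1 (by linarith)) L3 C1 (spC u hb qs hs1 (by linarith)) C3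
theorem BE_102 {x κ y y' : ℝ} (hF : SideOk PP tK tL pcB x) (hU : ThrOk PP tU pd x) (hκ : κ * h0 = ken x) (x0 : 370440929 / 536870912 ≤ x) (x1 : x ≤ 780932429 / 1073741824)
    (F : FactsB PP 1 0 2 0 0 1 (-1) y y') (h1 : |y - x| < 5 / 256) (h3 : |y' - (1 - x)| < 5 / 256) (h2 : |y + y' - 1| < 1 / 32) :
    DirEB (1 / 5) κ PP tK tL tC pcB (scP esg pd) 1 0 2 0 0 1 (-1) x y y' := by
  obtain ⟨u, rfl⟩ : ∃ u, y = x + u := ⟨y - x, by ring⟩
  obtain ⟨b, hy⟩ : ∃ b, y' = 1 + b - (x + u) := ⟨y' + (x + u) - 1, by ring⟩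
  rw [show x + u - x = u by ring] at h1
  rw [show x + u + y' - 1 = b by rw [hy]; ring] at h2
  rw [show y' - (1 - x) = -(u - b) by rw [hy]; ring, abs_neg] at h3
  obtain ⟨u1, u2⟩ := abs_lt.1 h1
  exact fE_Bp hF hU hκ x0 x1 h1 h2 h3 hy F (t1_1 F.q1) (shK1 F.q1 (by linarith) (by linarith)) (shL1 F.q1 (by linarith) (by linarith)) (shC1 F.q1 (by linarith) (by linarith))
theorem molE_B_102_00_0 {κ x : ℝ} (hκ : κ * h0 = ken x) (hx : ((740881858 : ℕ) : ℝ) / S ≤ x) (hx' : x ≤ (((740881858 : ℕ) : ℝ) + (40050571 : ℕ)) / S) :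
    AltEB 3 κ (eng.v x) (1 / 20) (tnt (h0 * x) (1 / 5)) PP tK tL tC pcB (scP esg pd) [⟨0, 0, 1, 20971520⟩, ⟨1, 1, 2, 20971520⟩, ⟨2, 1, 0, 33554432⟩] 1 0 2 0 0 (sgb true) (sgb false) x := by
  obtain ⟨x0, x1⟩ := xr hx hx'
  exact altEB_s fun y y' F h1 h3 h2 => DirEB.st (eng_n x) (BE_102 (sideB hx hx') (thrU hx hx') hκ x0 x1 F (h1.trans_eq (by norm_num)) (h3.trans_eq (by norm_num)) (h2.trans_eq (by norm_num)))
theorem w_Bpk1 {u b x : ℝ} (x0 : 370440929 / 536870912 ≤ x) (x1 : x ≤ 780932429 / 1073741824) (h1 : |u| < 5 / 256) (h2 : |b| < 1 / 32) (h3 : |u - b| < 5 / 256) (hb : 0 ≤ b) : c1n (x + u) + sk1.xs.v u b x ≤ (w3W true).v (1 - (x + u - b)) := by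
  obtain ⟨u1, u2⟩ := abs_lt.1 h1
  obtain ⟨b1, b2⟩ := abs_lt.1 h2
  obtain ⟨v1, v2⟩ := abs_lt.1 h3
  have cm1 : (fXS 4 1 5).v u b x ≤ 1 / 2 := fXS_le (by norm_num) hb
  have cm2 : c1n (x + u) ≤ c1n (x + u - b) := c1n_le' (by linarith) (by linarith)
  rw [w3W_B]
  show c1n (x + u) + (fXS 4 1 5).v u b x ≤ c1n (x + u - b) + 1 / 2
  linarith
theorem zKBpk1 {u b x : ℝ} (hF : SideOk PP tK tL pcB x) (x0 : 370440929 / 536870912 ≤ x) (x1 : x ≤ 780932429 / 1073741824) (h1 : |u| < 5 / 256) (h2 : |b| < 1 / 32) (h3 : |u - b| < 5 / 256) (hb : 0 ≤ b) (q3 : InQ 0 (1 - (x + u - b)))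
    (hc : ∀ G ∈ cx_Bpk1, 0 < G.v u b x) : (pcB 0).K.v (c1n (x + u) + sk1.xs.v u b x) (1 - (x + u - b)) x =
    -(((c1n (x + u - b) + 1 / 2) * cG (x + u - b) + kcg.v (psn (x + u - b)) x) * (1 - (x + u - b))) + sK_Bpk1.v (c1n (x + u) + sk1.xs.v u b x) (1 - (x + u - b)) x * (c1n (x + u) + sk1.xs.v u b x - (c1n (x + u - b) + 1 / 2)) := by
  have hw := w_Bpk1 x0 x1 h1 h2 h3 hb
  obtain ⟨u1, u2⟩ := abs_lt.1 h1
  obtain ⟨b1, b2⟩ := abs_lt.1 h2
  obtain ⟨v1, v2⟩ := abs_lt.1 h3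
  have y1 := q3.1
  have y2 := q3.2
  have c0 : 0 < (tCC (w3W true) cv2m).v (c1n (x + u) + sk1.xs.v u b x) (1 - (x + u - b)) x := hc (f3B sk1.xs (tCC (w3W true) cv2m)) (by unfold cx_Bpk1; simp only [List.mem_cons, true_or, or_true])
  have c1 : 0 < (tCC cv3m (w3W true)).v (c1n (x + u) + sk1.xs.v u b x) (1 - (x + u - b)) x := hc (f3B sk1.xs (tCC cv3m (w3W true))) (by unfold cx_Bpk1; simp only [List.mem_cons, true_or, or_true])
  have c2 : 0 < (tXC cv2m).v (c1n (x + u) + sk1.xs.v u b x) (1 - (x + u - b)) x := hc (f3B sk1.xs (tXC cv2m)) (by unfold cx_Bpk1; simp only [List.mem_cons, true_or, or_true])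
  refine (sKBpk1 hF q3 (by linarith) (by linarith) c0 c1 c2 hw).trans ?_
  rw [w3K_B, w3W_B]
  push_cast
  ring
theorem zLBpk1 {u b x : ℝ} (hF : SideOk PP tK tL pcB x) (x0 : 370440929 / 536870912 ≤ x) (x1 : x ≤ 780932429 / 1073741824) (h1 : |u| < 5 / 256) (h2 : |b| < 1 / 32) (h3 : |u - b| < 5 / 256) (hb : 0 ≤ b) (q3 : InQ 0 (1 - (x + u - b)))
    (hc : ∀ G ∈ cx_Bpk1, 0 < G.v u b x) : (pcB 0).L.v (c1n (x + u) + sk1.xs.v u b x) (1 - (x + u - b)) x =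
    cQ x (x + u - b) (kcg.v (psn (x + u - b)) x) + sX_Bpk1.v (c1n (x + u) + sk1.xs.v u b x) (1 - (x + u - b)) x * (c1n (x + u) + sk1.xs.v u b x - (c1n (x + u - b) + 1 / 2)) := by
  have hw := w_Bpk1 x0 x1 h1 h2 h3 hb
  obtain ⟨u1, u2⟩ := abs_lt.1 h1
  obtain ⟨b1, b2⟩ := abs_lt.1 h2
  obtain ⟨v1, v2⟩ := abs_lt.1 h3
  have y1 := q3.1
  have y2 := q3.2
  have c0 : 0 < (tCC (w3W true) cv2m).v (c1n (x + u) + sk1.xs.v u b x) (1 - (x + u - b)) x := hc (f3B sk1.xs (tCC (w3W true) cv2m)) (by unfold cx_Bpk1; simp only [List.mem_cons, true_or, or_true])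
  have c1 : 0 < (tCC cv3m (w3W true)).v (c1n (x + u) + sk1.xs.v u b x) (1 - (x + u - b)) x := hc (f3B sk1.xs (tCC cv3m (w3W true))) (by unfold cx_Bpk1; simp only [List.mem_cons, true_or, or_true])
  have c2 : 0 < (tXC cv2m).v (c1n (x + u) + sk1.xs.v u b x) (1 - (x + u - b)) x := hc (f3B sk1.xs (tXC cv2m)) (by unfold cx_Bpk1; simp only [List.mem_cons, true_or, or_true])
  refine (sLBpk1 hF q3 (by linarith) (by linarith) c0 c1 c2 hw).trans ?_
  rw [w3Q_B, w3W_B]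
theorem zDBpk1 {u b x : ℝ} (hF : SideOk PP tK tL pcB x) (hU : ThrOk PP tU pd x) (x0 : 370440929 / 536870912 ≤ x) (x1 : x ≤ 780932429 / 1073741824) (h1 : |u| < 5 / 256) (h2 : |b| < 1 / 32) (h3 : |u - b| < 5 / 256) (hb : 0 ≤ b) (q3 : InQ 0 (1 - (x + u - b)))
    (hc : ∀ G ∈ cx_Bpk1, 0 < G.v u b x) : (pd 0).v (c1n (x + u) + sk1.xs.v u b x) (1 - (x + u - b)) x * (1 - (x + u - b)) =
    -((cP (x + u - b) + 1 / 2 * cD (x + u - b) - (cR (x + u - b) + 2 * c1n (x + u - b) + 1) * kcg.v (psn (x + u - b)) x) * (1 - (x + u - b))) + sD_Bpk1.v (c1n (x + u) + sk1.xs.v u b x) (1 - (x + u - b)) x * (c1n (x + u) + sk1.xs.v u b x - (c1n (x + u - b) + 1 / 2)) := by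
  have hw := w_Bpk1 x0 x1 h1 h2 h3 hb
  obtain ⟨u1, u2⟩ := abs_lt.1 h1
  obtain ⟨b1, b2⟩ := abs_lt.1 h2
  obtain ⟨v1, v2⟩ := abs_lt.1 h3
  have y1 := q3.1
  have y2 := q3.2
  have c0 : 0 < (tCC (w3W true) cv2m).v (c1n (x + u) + sk1.xs.v u b x) (1 - (x + u - b)) x := hc (f3B sk1.xs (tCC (w3W true) cv2m)) (by unfold cx_Bpk1; simp only [List.mem_cons, true_or, or_true])
  have c1 : 0 < (tCC cv3m (w3W true)).v (c1n (x + u) + sk1.xs.v u b x) (1 - (x + u - b)) x := hc (f3B sk1.xs (tCC cv3m (w3W true))) (by unfold cx_Bpk1; simp only [List.mem_cons, true_or, or_true])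
  have c2 : 0 < (tXC cv2m).v (c1n (x + u) + sk1.xs.v u b x) (1 - (x + u - b)) x := hc (f3B sk1.xs (tXC cv2m)) (by unfold cx_Bpk1; simp only [List.mem_cons, true_or, or_true])
  have e := sDBpk1 hF hU q3 (by linarith) (by linarith) c0 c1 c2 hw
  rw [w3D_B, w3W_B] at e
  push_cast at e
  linear_combination e
theorem fE_Bpk1 {a : ℕ} {x u b κ τ y' : ℝ} (hF : SideOk PP tK tL pcB x) (hU : ThrOk PP tU pd x) (hκ : κ * h0 = ken x)
    (x0 : 370440929 / 536870912 ≤ x) (x1 : x ≤ 780932429 / 1073741824) (h1 : |u| < 5 / 256) (h2 : |b| < 1 / 32) (h3 : |u - b| < 5 / 256) (hy : y' = 1 + b - (x + u)) (F : FactsB PP a 0 2 0 1 1 (-1) (x + u) y')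
    (t1 : tau (h0 * (x + u)) = h0 * τ) (K1 : tK 0 a (x + u) x = (c1n (x + u) * cG (x + u) + kcg.v (psn (x + u)) x) * τ) (L1 : tL 0 a (x + u) x = cQ x (x + u) (kcg.v (psn (x + u)) x)) (C1 : tC 0 a (x + u) x = esn x * (cP (x + u) - (cR (x + u) + 2 * c1n (x + u)) * kcg.v (psn (x + u)) x)) :
    DirEB (1 / 5) κ PP tK tL tC pcB (scP esg pd) a 0 2 0 1 1 (-1) x (x + u) y' := by
  obtain ⟨u1, u2⟩ := abs_lt.1 h1
  obtain ⟨b1, b2⟩ := abs_lt.1 h2
  obtain ⟨v1, v2⟩ := abs_lt.1 h3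
  have e0 : x + u + y' = 1 + b := by rw [hy]; ring
  have qs : InQ 2 (1 + b) := e0 ▸ F.q3
  have hb : 0 ≤ b := by linarith [qs.1]
  have D : DomB u b x := ⟨by linarith, by linarith, by linarith, by linarith, by linarith, by linarith, by linarith, by linarith⟩
  have hY : y' = 1 - (x + u - b) := by rw [hy]; ring
  have q3 : InQ 0 (1 - (x + u - b)) := hY ▸ F.q2
  obtain ⟨p1, p2⟩ := psr (y := x + u) (by linarith) (by linarith)
  obtain ⟨p3, p4⟩ := psr (y := x + u - b) (by linarith) (by linarith)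
  have hd := dqBp (dq_t x) hb (by linarith) (by linarith) (by linarith) (by linarith) p1 p2 p3 p4
  have hs : ∀ G ∈ sk_Bpk1, G.v u b x ≤ 0 := skPM (A := false) (v := 20971520) (u := u) (b := b) (x := x) (abs_le.2 ⟨by simp only [cond_true, cond_false]; unfold S; norm_num; linarith, by simp only [cond_true, cond_false]; unfold S; norm_num; linarith⟩)
  obtain ⟨r1, r2⟩ := rX x0 x1
  have K5 := Cht.cert (ng := false) (r := 20971520) ct_0Bpk1 (u := u) (b := b) (x := x) (by unfold S; norm_num; linarith) (by unfold S; norm_num; linarith) (by simp only [cond_true, cond_false]; linarith) (by simp only [cond_true, cond_false]; unfold S; norm_num; linarith) r1 r2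
  have K7 := Cht.cert (ng := false) (r := 20971520) ct_2Bpk1 (u := u) (b := b) (x := x) (by unfold S; norm_num; linarith) (by unfold S; norm_num; linarith) (by simp only [cond_true, cond_false]; linarith) (by simp only [cond_true, cond_false]; unfold S; norm_num; linarith) r1 r2
  have t3 := t3B0 F.q2 hy
  have hit : ((T_Bpk1.b true).at_ u b x).it * (1 - (x + u - b)) = 1 := by
    show (1 - (x + u - b))⁻¹ * _ = _
    exact inv_mul_cancel₀ (ne_of_gt (by linarith))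
  have hx : sk1.xs.v u b x = 1 / 2 + b * sk1.ws.v u b x := stK_x (by norm_num) (by linarith) (by linarith)
  have hX : crv PP 1 2 (1 + b) = sk1.xs.v u b x := sX1 u
  have od : 1 ≤ qqn (c1n (x + u) + sk1.xs.v u b x) (1 - (x + u - b)) ∧ qqn (c1n (x + u) + sk1.xs.v u b x) (1 - (x + u - b)) ≤ 3 ∧ c1n (x + u) + sk1.xs.v u b x ≠ 0 := by
    have l1 := F.len1
    have l3 := F.len3
    have cp := c1n_pos' (y := x + u) (by nlinarith)
    have cn : 0 ≤ (fXS 4 1 5).v u b x := fXS_nn hb (by linarith)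
    have e : -1 * crv PP 1 2 (x + u + y') - 1 * crv PP 0 a (x + u) = -(c1n (x + u) + sk1.xs.v u b x) := by
      rw [e0, hX, crv0]
      ring
    rw [e, qqn_neg, hY] at l1 l3
    refine ⟨l1, l3, ne_of_gt ?_⟩
    show 0 < c1n (x + u) + (fXS 4 1 5).v u b x
    linarith
  have eX : -sk1.xs.v u b x - c1n (x + u) = -(c1n (x + u) + sk1.xs.v u b x) := by ring
  have K3 : (∀ G ∈ cx_Bpk1, 0 < G.v u b x) → (pcB 0).K.v (-sk1.xs.v u b x - c1n (x + u)) y' x = ((c1n (x + u - b) + 1 / 2) * cG (x + u - b) + kcg.v (psn (x + u - b)) x) * (1 - (x + u - b)) - sK_Bpk1.v (c1n (x + u) + sk1.xs.v u b x) (1 - (x + u - b)) x * (c1n (x + u) + sk1.xs.v u b x - (c1n (x + u - b) + 1 / 2)) := fun hc => by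
    rw [eX, hY, (hF.odd q3 od.1 od.2.1 od.2.2).1, zKBpk1 hF x0 x1 h1 h2 h3 hb q3 hc]
    ring
  have L3 : (∀ G ∈ cx_Bpk1, 0 < G.v u b x) → (pcB 0).L.v (-sk1.xs.v u b x - c1n (x + u)) y' x = -(cQ x (x + u - b) (kcg.v (psn (x + u - b)) x) + sX_Bpk1.v (c1n (x + u) + sk1.xs.v u b x) (1 - (x + u - b)) x * (c1n (x + u) + sk1.xs.v u b x - (c1n (x + u - b) + 1 / 2))) := fun hc => by
    rw [eX, hY, (hF.odd q3 od.1 od.2.1 od.2.2).2, zLBpk1 hF x0 x1 h1 h2 h3 hb q3 hc]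
  have C3 : (∀ G ∈ cx_Bpk1, 0 < G.v u b x) → (scP esg pd 0).v (-sk1.xs.v u b x - c1n (x + u)) y' x = esn x * ((cP (x + u - b) + 1 / 2 * cD (x + u - b) - (cR (x + u - b) + 2 * c1n (x + u - b) + 1) * kcg.v (psn (x + u - b)) x) - ((T_Bpk1.b true).at_ u b x).it * sD_Bpk1.v (c1n (x + u) + sk1.xs.v u b x) (1 - (x + u - b)) x * (c1n (x + u) + sk1.xs.v u b x - (c1n (x + u - b) + 1 / 2))) := fun hc => by
    rw [eX, hY]
    show esg.v x * (pd 0).v (-(c1n (x + u) + sk1.xs.v u b x)) (1 - (x + u - b)) x = _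
    rw [esg_n, hU.odd q3 od.1 od.2.1 od.2.2, div_it' (zDBpk1 hF hU x0 x1 h1 h2 h3 hb q3 hc) hit]
  exact bothBp (T := T_Bpk1) (sk := sk_Bpk1) (cx := cx_Bpk1) (sk2 := sk_Bpk1) (cx2 := cx_Bpk1) D hb hκ hy hd hit t1 t3 hx hX (dc x0 x1) (by linarith) (by linarith) (by norm_num [T_Bpk1]) (by norm_num [T_Bpk1]) K5 hs K7 hs K1 (sk1K u hb qs (by linarith)) K3 L1 (sk1L u hb qs (by linarith)) L3 C1 (sk1C u hb qs (by linarith)) C3
theorem BE1_102 {x κ y y' : ℝ} (hF : SideOk PP tK tL pcB x) (hU : ThrOk PP tU pd x) (hκ : κ * h0 = ken x) (x0 : 370440929 / 536870912 ≤ x) (x1 : x ≤ 780932429 / 1073741824)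
    (F : FactsB PP 1 0 2 0 1 1 (-1) y y') (h1 : |y - x| < 5 / 256) (h3 : |y' - (1 - x)| < 5 / 256) (h2 : |y + y' - 1| < 1 / 32) :
    DirEB (1 / 5) κ PP tK tL tC pcB (scP esg pd) 1 0 2 0 1 1 (-1) x y y' := by
  obtain ⟨u, rfl⟩ : ∃ u, y = x + u := ⟨y - x, by ring⟩
  obtain ⟨b, hy⟩ : ∃ b, y' = 1 + b - (x + u) := ⟨y' + (x + u) - 1, by ring⟩
  rw [show x + u - x = u by ring] at h1
  rw [show x + u + y' - 1 = b by rw [hy]; ring] at h2
  rw [show y' - (1 - x) = -(u - b) by rw [hy]; ring, abs_neg] at h3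
  obtain ⟨u1, u2⟩ := abs_lt.1 h1
  exact fE_Bpk1 hF hU hκ x0 x1 h1 h2 h3 hy F (t1_1 F.q1) (shK1 F.q1 (by linarith) (by linarith)) (shL1 F.q1 (by linarith) (by linarith)) (shC1 F.q1 (by linarith) (by linarith))
theorem molE_B_102_01_0 {κ x : ℝ} (hκ : κ * h0 = ken x) (hx : ((740881858 : ℕ) : ℝ) / S ≤ x) (hx' : x ≤ (((740881858 : ℕ) : ℝ) + (40050571 : ℕ)) / S) :
    AltEB 3 κ (eng.v x) (1 / 20) (tnt (h0 * x) (1 / 5)) PP tK tL tC pcB (scP esg pd) [⟨0, 0, 1, 20971520⟩, ⟨1, 1, 2, 20971520⟩, ⟨2, 1, 0, 33554432⟩] 1 0 2 0 1 (sgb true) (sgb false) x := by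
  obtain ⟨x0, x1⟩ := xr hx hx'
  exact altEB_s fun y y' F h1 h3 h2 => DirEB.st (eng_n x) (BE1_102 (sideB hx hx') (thrU hx hx') hκ x0 x1 F (h1.trans_eq (by norm_num)) (h3.trans_eq (by norm_num)) (h2.trans_eq (by norm_num)))
theorem w_Bpk2 {u b x : ℝ} (x0 : 370440929 / 536870912 ≤ x) (x1 : x ≤ 780932429 / 1073741824) (h1 : |u| < 5 / 256) (h2 : |b| < 1 / 32) (h3 : |u - b| < 5 / 256) (hb : 0 ≤ b) : c1n (x + u) + sk2.xs.v u b x ≤ (w3W true).v (1 - (x + u - b)) := by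
  obtain ⟨u1, u2⟩ := abs_lt.1 h1
  obtain ⟨b1, b2⟩ := abs_lt.1 h2
  obtain ⟨v1, v2⟩ := abs_lt.1 h3
  have cm1 : (fXS 1 1 2).v u b x ≤ 1 / 2 := fXS_le (by norm_num) hb
  have cm2 : c1n (x + u) ≤ c1n (x + u - b) := c1n_le' (by linarith) (by linarith)
  rw [w3W_B]
  show c1n (x + u) + (fXS 1 1 2).v u b x ≤ c1n (x + u - b) + 1 / 2
  linarith
theorem zKBpk2 {u b x : ℝ} (hF : SideOk PP tK tL pcB x) (x0 : 370440929 / 536870912 ≤ x) (x1 : x ≤ 780932429 / 1073741824) (h1 : |u| < 5 / 256) (h2 : |b| < 1 / 32) (h3 : |u - b| < 5 / 256) (hb : 0 ≤ b) (q3 : InQ 0 (1 - (x + u - b)))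
    (hc : ∀ G ∈ cx_Bpk2, 0 < G.v u b x) : (pcB 0).K.v (c1n (x + u) + sk2.xs.v u b x) (1 - (x + u - b)) x =
    -(((c1n (x + u - b) + 1 / 2) * cG (x + u - b) + kcg.v (psn (x + u - b)) x) * (1 - (x + u - b))) + sK_Bpk2.v (c1n (x + u) + sk2.xs.v u b x) (1 - (x + u - b)) x * (c1n (x + u) + sk2.xs.v u b x - (c1n (x + u - b) + 1 / 2)) := by
  have hw := w_Bpk2 x0 x1 h1 h2 h3 hb
  obtain ⟨u1, u2⟩ := abs_lt.1 h1
  obtain ⟨b1, b2⟩ := abs_lt.1 h2
  obtain ⟨v1, v2⟩ := abs_lt.1 h3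
  have y1 := q3.1
  have y2 := q3.2
  have c0 : 0 < (tCC (w3W true) cv2m).v (c1n (x + u) + sk2.xs.v u b x) (1 - (x + u - b)) x := hc (f3B sk2.xs (tCC (w3W true) cv2m)) (by unfold cx_Bpk2; simp only [List.mem_cons, true_or, or_true])
  have c1 : 0 < (tCC cv3m (w3W true)).v (c1n (x + u) + sk2.xs.v u b x) (1 - (x + u - b)) x := hc (f3B sk2.xs (tCC cv3m (w3W true))) (by unfold cx_Bpk2; simp only [List.mem_cons, true_or, or_true])
  have c2 : 0 < (tXC cv2m).v (c1n (x + u) + sk2.xs.v u b x) (1 - (x + u - b)) x := hc (f3B sk2.xs (tXC cv2m)) (by unfold cx_Bpk2; simp only [List.mem_cons, true_or, or_true])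
  refine (sKBpk2 hF q3 (by linarith) (by linarith) c0 c1 c2 hw).trans ?_
  rw [w3K_B, w3W_B]
  push_cast
  ring
theorem zLBpk2 {u b x : ℝ} (hF : SideOk PP tK tL pcB x) (x0 : 370440929 / 536870912 ≤ x) (x1 : x ≤ 780932429 / 1073741824) (h1 : |u| < 5 / 256) (h2 : |b| < 1 / 32) (h3 : |u - b| < 5 / 256) (hb : 0 ≤ b) (q3 : InQ 0 (1 - (x + u - b)))
    (hc : ∀ G ∈ cx_Bpk2, 0 < G.v u b x) : (pcB 0).L.v (c1n (x + u) + sk2.xs.v u b x) (1 - (x + u - b)) x =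
    cQ x (x + u - b) (kcg.v (psn (x + u - b)) x) + sX_Bpk2.v (c1n (x + u) + sk2.xs.v u b x) (1 - (x + u - b)) x * (c1n (x + u) + sk2.xs.v u b x - (c1n (x + u - b) + 1 / 2)) := by
  have hw := w_Bpk2 x0 x1 h1 h2 h3 hb
  obtain ⟨u1, u2⟩ := abs_lt.1 h1
  obtain ⟨b1, b2⟩ := abs_lt.1 h2
  obtain ⟨v1, v2⟩ := abs_lt.1 h3
  have y1 := q3.1
  have y2 := q3.2
  have c0 : 0 < (tCC (w3W true) cv2m).v (c1n (x + u) + sk2.xs.v u b x) (1 - (x + u - b)) x := hc (f3B sk2.xs (tCC (w3W true) cv2m)) (by unfold cx_Bpk2; simp only [List.mem_cons, true_or, or_true])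
  have c1 : 0 < (tCC cv3m (w3W true)).v (c1n (x + u) + sk2.xs.v u b x) (1 - (x + u - b)) x := hc (f3B sk2.xs (tCC cv3m (w3W true))) (by unfold cx_Bpk2; simp only [List.mem_cons, true_or, or_true])
  have c2 : 0 < (tXC cv2m).v (c1n (x + u) + sk2.xs.v u b x) (1 - (x + u - b)) x := hc (f3B sk2.xs (tXC cv2m)) (by unfold cx_Bpk2; simp only [List.mem_cons, true_or, or_true])
  refine (sLBpk2 hF q3 (by linarith) (by linarith) c0 c1 c2 hw).trans ?_
  rw [w3Q_B, w3W_B]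
theorem zDBpk2 {u b x : ℝ} (hF : SideOk PP tK tL pcB x) (hU : ThrOk PP tU pd x) (x0 : 370440929 / 536870912 ≤ x) (x1 : x ≤ 780932429 / 1073741824) (h1 : |u| < 5 / 256) (h2 : |b| < 1 / 32) (h3 : |u - b| < 5 / 256) (hb : 0 ≤ b) (q3 : InQ 0 (1 - (x + u - b)))
    (hc : ∀ G ∈ cx_Bpk2, 0 < G.v u b x) : (pd 0).v (c1n (x + u) + sk2.xs.v u b x) (1 - (x + u - b)) x * (1 - (x + u - b)) =
    -((cP (x + u - b) + 1 / 2 * cD (x + u - b) - (cR (x + u - b) + 2 * c1n (x + u - b) + 1) * kcg.v (psn (x + u - b)) x) * (1 - (x + u - b))) + sD_Bpk2.v (c1n (x + u) + sk2.xs.v u b x) (1 - (x + u - b)) x * (c1n (x + u) + sk2.xs.v u b x - (c1n (x + u - b) + 1 / 2)) := by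
  have hw := w_Bpk2 x0 x1 h1 h2 h3 hb
  obtain ⟨u1, u2⟩ := abs_lt.1 h1
  obtain ⟨b1, b2⟩ := abs_lt.1 h2
  obtain ⟨v1, v2⟩ := abs_lt.1 h3
  have y1 := q3.1
  have y2 := q3.2
  have c0 : 0 < (tCC (w3W true) cv2m).v (c1n (x + u) + sk2.xs.v u b x) (1 - (x + u - b)) x := hc (f3B sk2.xs (tCC (w3W true) cv2m)) (by unfold cx_Bpk2; simp only [List.mem_cons, true_or, or_true])
  have c1 : 0 < (tCC cv3m (w3W true)).v (c1n (x + u) + sk2.xs.v u b x) (1 - (x + u - b)) x := hc (f3B sk2.xs (tCC cv3m (w3W true))) (by unfold cx_Bpk2; simp only [List.mem_cons, true_or, or_true])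
  have c2 : 0 < (tXC cv2m).v (c1n (x + u) + sk2.xs.v u b x) (1 - (x + u - b)) x := hc (f3B sk2.xs (tXC cv2m)) (by unfold cx_Bpk2; simp only [List.mem_cons, true_or, or_true])
  have e := sDBpk2 hF hU q3 (by linarith) (by linarith) c0 c1 c2 hw
  rw [w3D_B, w3W_B] at e
  push_cast at e
  linear_combination e
theorem fE_Bpk2 {a : ℕ} {x u b κ τ y' : ℝ} (hF : SideOk PP tK tL pcB x) (hU : ThrOk PP tU pd x) (hκ : κ * h0 = ken x)
    (x0 : 370440929 / 536870912 ≤ x) (x1 : x ≤ 780932429 / 1073741824) (h1 : |u| < 5 / 256) (h2 : |b| < 1 / 32) (h3 : |u - b| < 5 / 256) (hy : y' = 1 + b - (x + u)) (F : FactsB PP a 0 2 0 2 1 (-1) (x + u) y')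
    (t1 : tau (h0 * (x + u)) = h0 * τ) (K1 : tK 0 a (x + u) x = (c1n (x + u) * cG (x + u) + kcg.v (psn (x + u)) x) * τ) (L1 : tL 0 a (x + u) x = cQ x (x + u) (kcg.v (psn (x + u)) x)) (C1 : tC 0 a (x + u) x = esn x * (cP (x + u) - (cR (x + u) + 2 * c1n (x + u)) * kcg.v (psn (x + u)) x)) :
    DirEB (1 / 5) κ PP tK tL tC pcB (scP esg pd) a 0 2 0 2 1 (-1) x (x + u) y' := by
  obtain ⟨u1, u2⟩ := abs_lt.1 h1
  obtain ⟨b1, b2⟩ := abs_lt.1 h2
  obtain ⟨v1, v2⟩ := abs_lt.1 h3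
  have e0 : x + u + y' = 1 + b := by rw [hy]; ring
  have qs : InQ 2 (1 + b) := e0 ▸ F.q3
  have hb : 0 ≤ b := by linarith [qs.1]
  have D : DomB u b x := ⟨by linarith, by linarith, by linarith, by linarith, by linarith, by linarith, by linarith, by linarith⟩
  have hY : y' = 1 - (x + u - b) := by rw [hy]; ring
  have q3 : InQ 0 (1 - (x + u - b)) := hY ▸ F.q2
  obtain ⟨p1, p2⟩ := psr (y := x + u) (by linarith) (by linarith)
  obtain ⟨p3, p4⟩ := psr (y := x + u - b) (by linarith) (by linarith)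
  have hd := dqBp (dq_t x) hb (by linarith) (by linarith) (by linarith) (by linarith) p1 p2 p3 p4
  have hs : ∀ G ∈ sk_Bpk2, G.v u b x ≤ 0 := skPM (A := false) (v := 20971520) (u := u) (b := b) (x := x) (abs_le.2 ⟨by simp only [cond_true, cond_false]; unfold S; norm_num; linarith, by simp only [cond_true, cond_false]; unfold S; norm_num; linarith⟩)
  obtain ⟨r1, r2⟩ := rX x0 x1
  have K5 := Cht.cert (ng := false) (r := 20971520) ct_0Bpk2 (u := u) (b := b) (x := x) (by unfold S; norm_num; linarith) (by unfold S; norm_num; linarith) (by simp only [cond_true, cond_false]; linarith) (by simp only [cond_true, cond_false]; unfold S; norm_num; linarith) r1 r2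
  have K7 := Cht.cert (ng := false) (r := 20971520) ct_2Bpk2 (u := u) (b := b) (x := x) (by unfold S; norm_num; linarith) (by unfold S; norm_num; linarith) (by simp only [cond_true, cond_false]; linarith) (by simp only [cond_true, cond_false]; unfold S; norm_num; linarith) r1 r2
  have t3 := t3B0 F.q2 hy
  have hit : ((T_Bpk2.b true).at_ u b x).it * (1 - (x + u - b)) = 1 := by
    show (1 - (x + u - b))⁻¹ * _ = _
    exact inv_mul_cancel₀ (ne_of_gt (by linarith))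
  have hx : sk2.xs.v u b x = 1 / 2 + b * sk2.ws.v u b x := stK_x (by norm_num) (by linarith) (by linarith)
  have hX : crv PP 2 2 (1 + b) = sk2.xs.v u b x := sX2 u
  have od : 1 ≤ qqn (c1n (x + u) + sk2.xs.v u b x) (1 - (x + u - b)) ∧ qqn (c1n (x + u) + sk2.xs.v u b x) (1 - (x + u - b)) ≤ 3 ∧ c1n (x + u) + sk2.xs.v u b x ≠ 0 := by
    have l1 := F.len1
    have l3 := F.len3
    have cp := c1n_pos' (y := x + u) (by nlinarith)
    have cn : 0 ≤ (fXS 1 1 2).v u b x := fXS_nn hb (by linarith)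
    have e : -1 * crv PP 2 2 (x + u + y') - 1 * crv PP 0 a (x + u) = -(c1n (x + u) + sk2.xs.v u b x) := by
      rw [e0, hX, crv0]
      ring
    rw [e, qqn_neg, hY] at l1 l3
    refine ⟨l1, l3, ne_of_gt ?_⟩
    show 0 < c1n (x + u) + (fXS 1 1 2).v u b x
    linarith
  have eX : -sk2.xs.v u b x - c1n (x + u) = -(c1n (x + u) + sk2.xs.v u b x) := by ring
  have K3 : (∀ G ∈ cx_Bpk2, 0 < G.v u b x) → (pcB 0).K.v (-sk2.xs.v u b x - c1n (x + u)) y' x = ((c1n (x + u - b) + 1 / 2) * cG (x + u - b) + kcg.v (psn (x + u - b)) x) * (1 - (x + u - b)) - sK_Bpk2.v (c1n (x + u) + sk2.xs.v u b x) (1 - (x + u - b)) x * (c1n (x + u) + sk2.xs.v u b x - (c1n (x + u - b) + 1 / 2)) := fun hc => by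
    rw [eX, hY, (hF.odd q3 od.1 od.2.1 od.2.2).1, zKBpk2 hF x0 x1 h1 h2 h3 hb q3 hc]
    ring
  have L3 : (∀ G ∈ cx_Bpk2, 0 < G.v u b x) → (pcB 0).L.v (-sk2.xs.v u b x - c1n (x + u)) y' x = -(cQ x (x + u - b) (kcg.v (psn (x + u - b)) x) + sX_Bpk2.v (c1n (x + u) + sk2.xs.v u b x) (1 - (x + u - b)) x * (c1n (x + u) + sk2.xs.v u b x - (c1n (x + u - b) + 1 / 2))) := fun hc => by
    rw [eX, hY, (hF.odd q3 od.1 od.2.1 od.2.2).2, zLBpk2 hF x0 x1 h1 h2 h3 hb q3 hc]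
  have C3 : (∀ G ∈ cx_Bpk2, 0 < G.v u b x) → (scP esg pd 0).v (-sk2.xs.v u b x - c1n (x + u)) y' x = esn x * ((cP (x + u - b) + 1 / 2 * cD (x + u - b) - (cR (x + u - b) + 2 * c1n (x + u - b) + 1) * kcg.v (psn (x + u - b)) x) - ((T_Bpk2.b true).at_ u b x).it * sD_Bpk2.v (c1n (x + u) + sk2.xs.v u b x) (1 - (x + u - b)) x * (c1n (x + u) + sk2.xs.v u b x - (c1n (x + u - b) + 1 / 2))) := fun hc => by
    rw [eX, hY]
    show esg.v x * (pd 0).v (-(c1n (x + u) + sk2.xs.v u b x)) (1 - (x + u - b)) x = _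
    rw [esg_n, hU.odd q3 od.1 od.2.1 od.2.2, div_it' (zDBpk2 hF hU x0 x1 h1 h2 h3 hb q3 hc) hit]
  exact bothBp (T := T_Bpk2) (sk := sk_Bpk2) (cx := cx_Bpk2) (sk2 := sk_Bpk2) (cx2 := cx_Bpk2) D hb hκ hy hd hit t1 t3 hx hX (dc x0 x1) (by linarith) (by linarith) (by norm_num [T_Bpk2]) (by norm_num [T_Bpk2]) K5 hs K7 hs K1 (sk2K u hb qs (by linarith)) K3 L1 (sk2L u hb qs (by linarith)) L3 C1 (sk2C u hb qs (by linarith)) C3
theorem BE2_102 {x κ y y' : ℝ} (hF : SideOk PP tK tL pcB x) (hU : ThrOk PP tU pd x) (hκ : κ * h0 = ken x) (x0 : 370440929 / 536870912 ≤ x) (x1 : x ≤ 780932429 / 1073741824)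
    (F : FactsB PP 1 0 2 0 2 1 (-1) y y') (h1 : |y - x| < 5 / 256) (h3 : |y' - (1 - x)| < 5 / 256) (h2 : |y + y' - 1| < 1 / 32) :
    DirEB (1 / 5) κ PP tK tL tC pcB (scP esg pd) 1 0 2 0 2 1 (-1) x y y' := by
  obtain ⟨u, rfl⟩ : ∃ u, y = x + u := ⟨y - x, by ring⟩
  obtain ⟨b, hy⟩ : ∃ b, y' = 1 + b - (x + u) := ⟨y' + (x + u) - 1, by ring⟩
  rw [show x + u - x = u by ring] at h1
  rw [show x + u + y' - 1 = b by rw [hy]; ring] at h2
  rw [show y' - (1 - x) = -(u - b) by rw [hy]; ring, abs_neg] at h3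
  obtain ⟨u1, u2⟩ := abs_lt.1 h1
  exact fE_Bpk2 hF hU hκ x0 x1 h1 h2 h3 hy F (t1_1 F.q1) (shK1 F.q1 (by linarith) (by linarith)) (shL1 F.q1 (by linarith) (by linarith)) (shC1 F.q1 (by linarith) (by linarith))
theorem molE_B_102_02_0 {κ x : ℝ} (hκ : κ * h0 = ken x) (hx : ((740881858 : ℕ) : ℝ) / S ≤ x) (hx' : x ≤ (((740881858 : ℕ) : ℝ) + (40050571 : ℕ)) / S) :
    AltEB 3 κ (eng.v x) (1 / 20) (tnt (h0 * x) (1 / 5)) PP tK tL tC pcB (scP esg pd) [⟨0, 0, 1, 20971520⟩, ⟨1, 1, 2, 20971520⟩, ⟨2, 1, 0, 33554432⟩] 1 0 2 0 2 (sgb true) (sgb false) x := by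
  obtain ⟨x0, x1⟩ := xr hx hx'
  exact altEB_s fun y y' F h1 h3 h2 => DirEB.st (eng_n x) (BE2_102 (sideB hx hx') (thrU hx hx') hκ x0 x1 F (h1.trans_eq (by norm_num)) (h3.trans_eq (by norm_num)) (h2.trans_eq (by norm_num)))
theorem w_Bm {u b x : ℝ} (x0 : 370440929 / 536870912 ≤ x) (x1 : x ≤ 780932429 / 1073741824) (h1 : |u| < 5 / 256) (h2 : |b| < 1 / 32) (h3 : |u - b| < 5 / 256) (hb : b < 0) : (w3W true).v (1 - (x + u - b)) ≤ c1n (x + u) + sm.xs.v u b x := by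
  obtain ⟨u1, u2⟩ := abs_lt.1 h1
  obtain ⟨b1, b2⟩ := abs_lt.1 h2
  obtain ⟨v1, v2⟩ := abs_lt.1 h3
  have cm1 : c1n (1 + b) ≥ 1 / 2 := c1n_half' hb.le (by linarith)
  have cm2 : c1n (x + u) ≥ c1n (x + u - b) := c1n_le' (by linarith) (by linarith)
  rw [w3W_B]
  show c1n (x + u - b) + 1 / 2 ≤ c1n (x + u) + c1n (1 + b)
  linarith
theorem zKBm {u b x : ℝ} (hF : SideOk PP tK tL pcB x) (x0 : 370440929 / 536870912 ≤ x) (x1 : x ≤ 780932429 / 1073741824) (h1 : |u| < 5 / 256) (h2 : |b| < 1 / 32) (h3 : |u - b| < 5 / 256) (hb : b < 0) (q3 : InQ 0 (1 - (x + u - b)))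
    (hc : ∀ G ∈ cx_Bm, 0 < G.v u b x) : (pcB 0).K.v (c1n (x + u) + sm.xs.v u b x) (1 - (x + u - b)) x =
    -(((c1n (x + u - b) + 1 / 2) * cG (x + u - b) + kcg.v (psn (x + u - b)) x) * (1 - (x + u - b))) + sK_Bm.v (c1n (x + u) + sm.xs.v u b x) (1 - (x + u - b)) x * (c1n (x + u) + sm.xs.v u b x - (c1n (x + u - b) + 1 / 2)) := by
  have hw := w_Bm x0 x1 h1 h2 h3 hb
  obtain ⟨u1, u2⟩ := abs_lt.1 h1
  obtain ⟨b1, b2⟩ := abs_lt.1 h2
  obtain ⟨v1, v2⟩ := abs_lt.1 h3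
  have y1 := q3.1
  have y2 := q3.2
  have c0 : 0 < (tCC (w3W true) cv2m).v (c1n (x + u) + sm.xs.v u b x) (1 - (x + u - b)) x := hc (f3B sm.xs (tCC (w3W true) cv2m)) (by unfold cx_Bm; simp only [List.mem_cons, true_or, or_true])
  have c1 : 0 < (tCC cv3m (w3W true)).v (c1n (x + u) + sm.xs.v u b x) (1 - (x + u - b)) x := hc (f3B sm.xs (tCC cv3m (w3W true))) (by unfold cx_Bm; simp only [List.mem_cons, true_or, or_true])
  have c2 : 0 < (tCX cv3m).v (c1n (x + u) + sm.xs.v u b x) (1 - (x + u - b)) x := hc (f3B sm.xs (tCX cv3m)) (by unfold cx_Bm; simp only [List.mem_cons, true_or, or_true])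
  refine (sKBm hF q3 (by linarith) (by linarith) c0 c1 c2 hw).trans ?_
  rw [w3K_B, w3W_B]
  push_cast
  ring
theorem zLBm {u b x : ℝ} (hF : SideOk PP tK tL pcB x) (x0 : 370440929 / 536870912 ≤ x) (x1 : x ≤ 780932429 / 1073741824) (h1 : |u| < 5 / 256) (h2 : |b| < 1 / 32) (h3 : |u - b| < 5 / 256) (hb : b < 0) (q3 : InQ 0 (1 - (x + u - b)))
    (hc : ∀ G ∈ cx_Bm, 0 < G.v u b x) : (pcB 0).L.v (c1n (x + u) + sm.xs.v u b x) (1 - (x + u - b)) x =
    cQ x (x + u - b) (kcg.v (psn (x + u - b)) x) + sX_Bm.v (c1n (x + u) + sm.xs.v u b x) (1 - (x + u - b)) x * (c1n (x + u) + sm.xs.v u b x - (c1n (x + u - b) + 1 / 2)) := by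
  have hw := w_Bm x0 x1 h1 h2 h3 hb
  obtain ⟨u1, u2⟩ := abs_lt.1 h1
  obtain ⟨b1, b2⟩ := abs_lt.1 h2
  obtain ⟨v1, v2⟩ := abs_lt.1 h3
  have y1 := q3.1
  have y2 := q3.2
  have c0 : 0 < (tCC (w3W true) cv2m).v (c1n (x + u) + sm.xs.v u b x) (1 - (x + u - b)) x := hc (f3B sm.xs (tCC (w3W true) cv2m)) (by unfold cx_Bm; simp only [List.mem_cons, true_or, or_true])
  have c1 : 0 < (tCC cv3m (w3W true)).v (c1n (x + u) + sm.xs.v u b x) (1 - (x + u - b)) x := hc (f3B sm.xs (tCC cv3m (w3W true))) (by unfold cx_Bm; simp only [List.mem_cons, true_or, or_true])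
  have c2 : 0 < (tCX cv3m).v (c1n (x + u) + sm.xs.v u b x) (1 - (x + u - b)) x := hc (f3B sm.xs (tCX cv3m)) (by unfold cx_Bm; simp only [List.mem_cons, true_or, or_true])
  refine (sLBm hF q3 (by linarith) (by linarith) c0 c1 c2 hw).trans ?_
  rw [w3Q_B, w3W_B]
theorem zDBm {u b x : ℝ} (hF : SideOk PP tK tL pcB x) (hU : ThrOk PP tU pd x) (x0 : 370440929 / 536870912 ≤ x) (x1 : x ≤ 780932429 / 1073741824) (h1 : |u| < 5 / 256) (h2 : |b| < 1 / 32) (h3 : |u - b| < 5 / 256) (hb : b < 0) (q3 : InQ 0 (1 - (x + u - b)))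
    (hc : ∀ G ∈ cx_Bm, 0 < G.v u b x) : (pd 0).v (c1n (x + u) + sm.xs.v u b x) (1 - (x + u - b)) x * (1 - (x + u - b)) =
    -((cP (x + u - b) + 1 / 2 * cD (x + u - b) - (cR (x + u - b) + 2 * c1n (x + u - b) + 1) * kcg.v (psn (x + u - b)) x) * (1 - (x + u - b))) + sD_Bm.v (c1n (x + u) + sm.xs.v u b x) (1 - (x + u - b)) x * (c1n (x + u) + sm.xs.v u b x - (c1n (x + u - b) + 1 / 2)) := by
  have hw := w_Bm x0 x1 h1 h2 h3 hb
  obtain ⟨u1, u2⟩ := abs_lt.1 h1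
  obtain ⟨b1, b2⟩ := abs_lt.1 h2
  obtain ⟨v1, v2⟩ := abs_lt.1 h3
  have y1 := q3.1
  have y2 := q3.2
  have c0 : 0 < (tCC (w3W true) cv2m).v (c1n (x + u) + sm.xs.v u b x) (1 - (x + u - b)) x := hc (f3B sm.xs (tCC (w3W true) cv2m)) (by unfold cx_Bm; simp only [List.mem_cons, true_or, or_true])
  have c1 : 0 < (tCC cv3m (w3W true)).v (c1n (x + u) + sm.xs.v u b x) (1 - (x + u - b)) x := hc (f3B sm.xs (tCC cv3m (w3W true))) (by unfold cx_Bm; simp only [List.mem_cons, true_or, or_true])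
  have c2 : 0 < (tCX cv3m).v (c1n (x + u) + sm.xs.v u b x) (1 - (x + u - b)) x := hc (f3B sm.xs (tCX cv3m)) (by unfold cx_Bm; simp only [List.mem_cons, true_or, or_true])
  have e := sDBm hF hU q3 (by linarith) (by linarith) c0 c1 c2 hw
  rw [w3D_B, w3W_B] at e
  push_cast at e
  linear_combination e
theorem fE_Bm {a : ℕ} {x u b κ τ y' : ℝ} (hF : SideOk PP tK tL pcB x) (hU : ThrOk PP tU pd x) (hκ : κ * h0 = ken x)
    (x0 : 370440929 / 536870912 ≤ x) (x1 : x ≤ 780932429 / 1073741824) (h1 : |u| < 5 / 256) (h2 : |b| < 1 / 32) (h3 : |u - b| < 5 / 256) (hy : y' = 1 + b - (x + u)) (F : FactsB PP a 0 1 0 0 1 (-1) (x + u) y')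
    (t1 : tau (h0 * (x + u)) = h0 * τ) (K1 : tK 0 a (x + u) x = (c1n (x + u) * cG (x + u) + kcg.v (psn (x + u)) x) * τ) (L1 : tL 0 a (x + u) x = cQ x (x + u) (kcg.v (psn (x + u)) x)) (C1 : tC 0 a (x + u) x = esn x * (cP (x + u) - (cR (x + u) + 2 * c1n (x + u)) * kcg.v (psn (x + u)) x)) :
    DirEB (1 / 5) κ PP tK tL tC pcB (scP esg pd) a 0 1 0 0 1 (-1) x (x + u) y' := by
  obtain ⟨u1, u2⟩ := abs_lt.1 h1
  obtain ⟨b1, b2⟩ := abs_lt.1 h2
  obtain ⟨v1, v2⟩ := abs_lt.1 h3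
  have e0 : x + u + y' = 1 + b := by rw [hy]; ring
  have qs : InQ 1 (1 + b) := e0 ▸ F.q3
  have hs1 : h0 * (1 + b) < 1 := e0 ▸ F.k0 rfl
  have hb : b < 0 := by linarith [qs.2]
  have D : DomB u b x := ⟨by linarith, by linarith, by linarith, by linarith, by linarith, by linarith, by linarith, by linarith⟩
  have hY : y' = 1 - (x + u - b) := by rw [hy]; ring
  have q3 : InQ 0 (1 - (x + u - b)) := hY ▸ F.q2
  obtain ⟨p1, p2⟩ := psr (y := x + u) (by linarith) (by linarith)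
  obtain ⟨p3, p4⟩ := psr (y := x + u - b) (by linarith) (by linarith)
  have hd := dqBm (dq_t x) hb (by linarith) (by linarith) (by linarith) (by linarith) p1 p2 p3 p4
  have hs : ∀ G ∈ sk_Bm, G.v u b x ≤ 0 := skPM (A := false) (v := 20971520) (u := u) (b := b) (x := x) (abs_le.2 ⟨by simp only [cond_true, cond_false]; unfold S; norm_num; linarith, by simp only [cond_true, cond_false]; unfold S; norm_num; linarith⟩)
  obtain ⟨r1, r2⟩ := rX x0 x1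
  have K5 := Cht.cert (ng := true) (r := 20971520) ct_0Bm (u := u) (b := b) (x := x) (by unfold S; norm_num; linarith) (by unfold S; norm_num; linarith) (by simp only [cond_true, cond_false]; linarith) (by simp only [cond_true, cond_false]; unfold S; norm_num; linarith) r1 r2
  have K7 := Cht.cert (ng := true) (r := 20971520) ct_2Bm (u := u) (b := b) (x := x) (by unfold S; norm_num; linarith) (by unfold S; norm_num; linarith) (by simp only [cond_true, cond_false]; linarith) (by simp only [cond_true, cond_false]; unfold S; norm_num; linarith) r1 r2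
  have t3 := t3B0 F.q2 hy
  have hit : ((T_Bm.b false).at_ u b x).it * (1 - (x + u - b)) = 1 := by
    show (1 - (x + u - b))⁻¹ * _ = _
    exact inv_mul_cancel₀ (ne_of_gt (by linarith))
  have hx : sm.xs.v u b x = 1 / 2 + b * sm.ws.v u b x := stM_x (by linarith) (by linarith)
  have hX : crv PP 0 1 (1 + b) = sm.xs.v u b x := crv0 1 (1 + b)
  have od : 1 ≤ qqn (c1n (x + u) + sm.xs.v u b x) (1 - (x + u - b)) ∧ qqn (c1n (x + u) + sm.xs.v u b x) (1 - (x + u - b)) ≤ 3 ∧ c1n (x + u) + sm.xs.v u b x ≠ 0 := by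
    have l1 := F.len1
    have l3 := F.len3
    have cp := c1n_pos' (y := x + u) (by nlinarith)
    have cn : 0 ≤ c1n (1 + b) := Mol.c1n_nn (1 + b)
    have e : -1 * crv PP 0 1 (x + u + y') - 1 * crv PP 0 a (x + u) = -(c1n (x + u) + sm.xs.v u b x) := by
      rw [e0, hX, crv0]
      ring
    rw [e, qqn_neg, hY] at l1 l3
    refine ⟨l1, l3, ne_of_gt ?_⟩
    show 0 < c1n (x + u) + c1n (1 + b)
    linarith
  have eX : -sm.xs.v u b x - c1n (x + u) = -(c1n (x + u) + sm.xs.v u b x) := by ring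
  have K3 : (∀ G ∈ cx_Bm, 0 < G.v u b x) → (pcB 0).K.v (-sm.xs.v u b x - c1n (x + u)) y' x = ((c1n (x + u - b) + 1 / 2) * cG (x + u - b) + kcg.v (psn (x + u - b)) x) * (1 - (x + u - b)) - sK_Bm.v (c1n (x + u) + sm.xs.v u b x) (1 - (x + u - b)) x * (c1n (x + u) + sm.xs.v u b x - (c1n (x + u - b) + 1 / 2)) := fun hc => by
    rw [eX, hY, (hF.odd q3 od.1 od.2.1 od.2.2).1, zKBm hF x0 x1 h1 h2 h3 hb q3 hc]
    ring
  have L3 : (∀ G ∈ cx_Bm, 0 < G.v u b x) → (pcB 0).L.v (-sm.xs.v u b x - c1n (x + u)) y' x = -(cQ x (x + u - b) (kcg.v (psn (x + u - b)) x) + sX_Bm.v (c1n (x + u) + sm.xs.v u b x) (1 - (x + u - b)) x * (c1n (x + u) + sm.xs.v u b x - (c1n (x + u - b) + 1 / 2))) := fun hc => by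
    rw [eX, hY, (hF.odd q3 od.1 od.2.1 od.2.2).2, zLBm hF x0 x1 h1 h2 h3 hb q3 hc]
  have C3 : (∀ G ∈ cx_Bm, 0 < G.v u b x) → (scP esg pd 0).v (-sm.xs.v u b x - c1n (x + u)) y' x = esn x * ((cP (x + u - b) + 1 / 2 * cD (x + u - b) - (cR (x + u - b) + 2 * c1n (x + u - b) + 1) * kcg.v (psn (x + u - b)) x) - ((T_Bm.b false).at_ u b x).it * sD_Bm.v (c1n (x + u) + sm.xs.v u b x) (1 - (x + u - b)) x * (c1n (x + u) + sm.xs.v u b x - (c1n (x + u - b) + 1 / 2))) := fun hc => by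
    rw [eX, hY]
    show esg.v x * (pd 0).v (-(c1n (x + u) + sm.xs.v u b x)) (1 - (x + u - b)) x = _
    rw [esg_n, hU.odd q3 od.1 od.2.1 od.2.2, div_it' (zDBm hF hU x0 x1 h1 h2 h3 hb q3 hc) hit]
  exact bothBm (T := T_Bm) (sk := sk_Bm) (cx := cx_Bm) (sk2 := sk_Bm) (cx2 := cx_Bm) D hb hκ hy hd hit t1 t3 hx hX (dc x0 x1) (by linarith) (by linarith) (by norm_num [T_Bm]) (by norm_num [T_Bm]) K5 hs K7 hs K1 (smK u hb qs (by linarith)) K3 L1 (smL u hb qs (by linarith)) L3 C1 (smC u hb qs (by linarith)) C3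
theorem BE_101 {x κ y y' : ℝ} (hF : SideOk PP tK tL pcB x) (hU : ThrOk PP tU pd x) (hκ : κ * h0 = ken x) (x0 : 370440929 / 536870912 ≤ x) (x1 : x ≤ 780932429 / 1073741824)
    (F : FactsB PP 1 0 1 0 0 1 (-1) y y') (h1 : |y - x| < 5 / 256) (h3 : |y' - (1 - x)| < 5 / 256) (h2 : |y + y' - 1| < 1 / 32) :
    DirEB (1 / 5) κ PP tK tL tC pcB (scP esg pd) 1 0 1 0 0 1 (-1) x y y' := by
  obtain ⟨u, rfl⟩ : ∃ u, y = x + u := ⟨y - x, by ring⟩
  obtain ⟨b, hy⟩ : ∃ b, y' = 1 + b - (x + u) := ⟨y' + (x + u) - 1, by ring⟩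
  rw [show x + u - x = u by ring] at h1
  rw [show x + u + y' - 1 = b by rw [hy]; ring] at h2
  rw [show y' - (1 - x) = -(u - b) by rw [hy]; ring, abs_neg] at h3
  obtain ⟨u1, u2⟩ := abs_lt.1 h1
  exact fE_Bm hF hU hκ x0 x1 h1 h2 h3 hy F (t1_1 F.q1) (shK1 F.q1 (by linarith) (by linarith)) (shL1 F.q1 (by linarith) (by linarith)) (shC1 F.q1 (by linarith) (by linarith))
theorem molE_B_101_00_0 {κ x : ℝ} (hκ : κ * h0 = ken x) (hx : ((740881858 : ℕ) : ℝ) / S ≤ x) (hx' : x ≤ (((740881858 : ℕ) : ℝ) + (40050571 : ℕ)) / S) :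
    AltEB 3 κ (eng.v x) (1 / 20) (tnt (h0 * x) (1 / 5)) PP tK tL tC pcB (scP esg pd) [⟨0, 0, 1, 20971520⟩, ⟨1, 1, 2, 20971520⟩, ⟨2, 1, 0, 33554432⟩] 1 0 1 0 0 (sgb true) (sgb false) x := by
  obtain ⟨x0, x1⟩ := xr hx hx'
  exact altEB_s fun y y' F h1 h3 h2 => DirEB.st (eng_n x) (BE_101 (sideB hx hx') (thrU hx hx') hκ x0 x1 F (h1.trans_eq (by norm_num)) (h3.trans_eq (by norm_num)) (h2.trans_eq (by norm_num)))

end Pool.Agent.Strip051.G.I69_7273.Tab.Mo
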