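import Pool.Agent.Strip051.PB.StripC
import Pool.Agent.Strip051.G.I69_7273.Fact

/-! # Facts about the strips of a table (generated) -/

set_option linter.all false
set_option maxRecDepth 4000

namespace Pool.Agent.Strip051.G.I69_7273.Tab.St

open Pool.Agent.Strip051.PB Pool.Agent.StripNear Pool.Agent.Strip051.LC
open Pool.Agent.Strip051.G.I69_7273.Tab

noncomputable def sl1 : Fn1 := ⟨_, _, fun h1 => (enc_norm (enc_sub (enc_rat _ 11199 5000) (enc_scale 70257 1000 (enc_subr 14173 20000 h1))))⟩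
noncomputable def sv1 : Fn1 := ⟨_, _, fun h1 => (enc_norm (enc_sub (enc_rat _ 4276299 8000000) (enc_scale 83986569 4000000 (enc_subr 14173 20000 h1))))⟩
noncomputable def sw1 : Fn1 := ⟨_, _, fun h1 => (enc_norm (enc_neg (enc_scale 7872 125 (enc_subr 14173 20000 h1))))⟩
noncomputable def sl2 : Fn1 := ⟨_, _, fun h1 => (enc_norm (enc_subr 106502682209 2000000000 (enc_scale 7207823253 50000000 (enc_subr 14173 20000 h1))))⟩
noncomputable def sv2 : Fn1 := ⟨_, _, fun h1 => (enc_norm (enc_subr 92833197897 8000000000 (enc_scale 5181260649 200000000 (enc_subr 14173 20000 h1))))⟩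
noncomputable def sw2 : Fn1 := ⟨_, _, fun h1 => (enc_norm (enc_subr 63418447 1000000 (enc_scale 4551699 25000 (enc_subr 14173 20000 h1))))⟩
noncomputable def sl3 : Fn1 := ⟨_, _, fun h1 => (enc_norm (enc_add (enc_scale 4119092171 50000000 (enc_subr 14173 20000 h1)) (enc_rat _ 14704263881 500000000)))⟩
noncomputable def sv3 : Fn1 := ⟨_, _, fun h1 => (enc_norm (enc_add (enc_scale 69919006381 5000000000 (enc_subr 14173 20000 h1)) (enc_rat _ 217460247691 50000000000)))⟩
noncomputable def sw3 : Fn1 := ⟨_, _, fun h1 => (enc_norm (enc_add (enc_scale 5102451 50000 (enc_subr 14173 20000 h1)) (enc_rat _ 21826961 500000)))⟩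
noncomputable def sl4 : Fn1 := ⟨_, _, fun h1 => (enc_norm (enc_add (enc_scale 634870541 6250000 (enc_subr 14173 20000 h1)) (enc_rat _ 477368293 500000000)))⟩
noncomputable def sv4 : Fn1 := ⟨_, _, fun h1 => (enc_norm (enc_subr 83361014503 200000000000 (enc_scale 10749608141 625000000 (enc_subr 14173 20000 h1))))⟩
noncomputable def sw4 : Fn1 := ⟨_, _, fun h1 => (enc_norm (enc_add (enc_scale 816887 6250 (enc_subr 14173 20000 h1)) (enc_rat _ 1185577 1000000)))⟩
noncomputable def sl5 : Fn1 := ⟨_, _, fun h1 => (enc_norm (enc_sub (enc_rat _ 1546501711 100000000) (enc_scale 4601505789 25000000 (enc_subr 14173 20000 h1))))⟩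
noncomputable def sv5 : Fn1 := ⟨_, _, fun h1 => (enc_norm (enc_sub (enc_rat _ 327279924779 200000000000) (enc_scale 1160930937721 50000000000 (enc_subr 14173 20000 h1))))⟩
noncomputable def sw5 : Fn1 := ⟨_, _, fun h1 => (enc_norm (enc_sub (enc_rat _ 5364423 200000) (enc_scale 18698077 50000 (enc_subr 14173 20000 h1))))⟩
noncomputable def sl6 : Fn1 := ⟨_, _, fun h1 => (enc_norm (enc_subr 1719370419 1000000000 (enc_neg (enc_scale 2823452917 100000000 (enc_subr 14173 20000 h1)))))⟩
noncomputable def sv6 : Fn1 := ⟨_, _, fun h1 => (enc_norm (enc_subr 17419856791 50000000000 (enc_neg (enc_scale 26103750613 5000000000 (enc_subr 14173 20000 h1)))))⟩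
noncomputable def sw6 : Fn1 := ⟨_, _, fun h1 => (enc_norm (enc_subr 10373529 1000000 (enc_neg (enc_scale 3667647 100000 (enc_subr 14173 20000 h1)))))⟩
noncomputable def sl7 : Fn1 := ⟨_, _, fun h1 => (enc_norm (enc_add (enc_scale 20008707 312500 (enc_subr 14173 20000 h1)) (enc_rat _ 67673859 62500000)))⟩
noncomputable def sv7 : Fn1 := ⟨_, _, fun h1 => (enc_norm (enc_subr 1202543011 12500000000 (enc_scale 6021221 1953125 (enc_subr 14173 20000 h1))))⟩
noncomputable def sw7 : Fn1 := ⟨_, _, fun h1 => (enc_norm (enc_subr 2589773 1000000 (enc_scale 4392159 20000 (enc_subr 14173 20000 h1))))⟩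
noncomputable def sl8 : Fn1 := ⟨_, _, fun h1 => (enc_norm (enc_sub (enc_rat _ 1823275249 400000000) (enc_scale 5159606743 200000000 (enc_subr 14173 20000 h1))))⟩
noncomputable def sv8 : Fn1 := ⟨_, _, fun h1 => (enc_norm (enc_sub (enc_rat _ 50932203 800000000) (enc_scale 419650421 400000000 (enc_subr 14173 20000 h1))))⟩
noncomputable def sw8 : Fn1 := ⟨_, _, fun h1 => (enc_norm (enc_sub (enc_rat _ 3259661 200000) (enc_scale 26857627 100000 (enc_subr 14173 20000 h1))))⟩
noncomputable def sl9 : Fn1 := ⟨_, _, fun h1 => (enc_norm (enc_add (enc_scale 3887 500 (enc_subr 14173 20000 h1)) (enc_rat _ 25209 10000)))⟩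
noncomputable def sv9 : Fn1 := ⟨_, _, fun h1 => (enc_pnc _ 0)⟩
noncomputable def sl10 : Fn1 := ⟨_, _, fun h1 => (enc_norm (enc_sub (enc_rat _ 1823275249 400000000) (enc_scale 5159606743 200000000 (enc_subr 14173 20000 h1))))⟩
noncomputable def sv10 : Fn1 := ⟨_, _, fun h1 => (enc_norm (enc_subr 50932203 800000000 (enc_scale 419650421 400000000 (enc_subr 14173 20000 h1))))⟩
noncomputable def sw10 : Fn1 := ⟨_, _, fun h1 => (enc_norm (enc_subr 3259661 200000 (enc_scale 26857627 100000 (enc_subr 14173 20000 h1))))⟩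
noncomputable def sl11 : Fn1 := ⟨_, _, fun h1 => (enc_norm (enc_add (enc_scale 20008707 312500 (enc_subr 14173 20000 h1)) (enc_rat _ 67673859 62500000)))⟩
noncomputable def sv11 : Fn1 := ⟨_, _, fun h1 => (enc_norm (enc_sub (enc_rat _ 1202543011 12500000000) (enc_scale 6021221 1953125 (enc_subr 14173 20000 h1))))⟩
noncomputable def sw11 : Fn1 := ⟨_, _, fun h1 => (enc_norm (enc_sub (enc_rat _ 2589773 1000000) (enc_scale 4392159 20000 (enc_subr 14173 20000 h1))))⟩
noncomputable def sl12 : Fn1 := ⟨_, _, fun h1 => (enc_norm (enc_subr 1719370419 1000000000 (enc_neg (enc_scale 2823452917 100000000 (enc_subr 14173 20000 h1)))))⟩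
noncomputable def sv12 : Fn1 := ⟨_, _, fun h1 => (enc_norm (enc_add (enc_scale 26103750613 5000000000 (enc_subr 14173 20000 h1)) (enc_rat _ 17419856791 50000000000)))⟩
noncomputable def sw12 : Fn1 := ⟨_, _, fun h1 => (enc_norm (enc_add (enc_scale 3667647 100000 (enc_subr 14173 20000 h1)) (enc_rat _ 10373529 1000000)))⟩
noncomputable def sl13 : Fn1 := ⟨_, _, fun h1 => (enc_norm (enc_sub (enc_rat _ 1546501711 100000000) (enc_scale 4601505789 25000000 (enc_subr 14173 20000 h1))))⟩
noncomputable def sv13 : Fn1 := ⟨_, _, fun h1 => (enc_norm (enc_subr 327279924779 200000000000 (enc_scale 1160930937721 50000000000 (enc_subr 14173 20000 h1))))⟩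
noncomputable def sw13 : Fn1 := ⟨_, _, fun h1 => (enc_norm (enc_subr 5364423 200000 (enc_scale 18698077 50000 (enc_subr 14173 20000 h1))))⟩
noncomputable def sl14 : Fn1 := ⟨_, _, fun h1 => (enc_norm (enc_add (enc_scale 634870541 6250000 (enc_subr 14173 20000 h1)) (enc_rat _ 477368293 500000000)))⟩
noncomputable def sv14 : Fn1 := ⟨_, _, fun h1 => (enc_norm (enc_sub (enc_rat _ 83361014503 200000000000) (enc_scale 10749608141 625000000 (enc_subr 14173 20000 h1))))⟩
noncomputable def sw14 : Fn1 := ⟨_, _, fun h1 => (enc_norm (enc_subr 1185577 1000000 (enc_neg (enc_scale 816887 6250 (enc_subr 14173 20000 h1)))))⟩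
noncomputable def sl15 : Fn1 := ⟨_, _, fun h1 => (enc_norm (enc_add (enc_scale 4119092171 50000000 (enc_subr 14173 20000 h1)) (enc_rat _ 14704263881 500000000)))⟩
noncomputable def sv15 : Fn1 := ⟨_, _, fun h1 => (enc_norm (enc_subr 217460247691 50000000000 (enc_neg (enc_scale 69919006381 5000000000 (enc_subr 14173 20000 h1)))))⟩
noncomputable def sw15 : Fn1 := ⟨_, _, fun h1 => (enc_norm (enc_subr 21826961 500000 (enc_neg (enc_scale 5102451 50000 (enc_subr 14173 20000 h1)))))⟩
noncomputable def sl16 : Fn1 := ⟨_, _, fun h1 => (enc_norm (enc_subr 106502682209 2000000000 (enc_scale 7207823253 50000000 (enc_subr 14173 20000 h1))))⟩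
noncomputable def sv16 : Fn1 := ⟨_, _, fun h1 => (enc_norm (enc_sub (enc_rat _ 92833197897 8000000000) (enc_scale 5181260649 200000000 (enc_subr 14173 20000 h1))))⟩
noncomputable def sw16 : Fn1 := ⟨_, _, fun h1 => (enc_norm (enc_sub (enc_rat _ 63418447 1000000) (enc_scale 4551699 25000 (enc_subr 14173 20000 h1))))⟩
noncomputable def sl17 : Fn1 := ⟨_, _, fun h1 => (enc_norm (enc_sub (enc_rat _ 11199 5000) (enc_scale 70257 1000 (enc_subr 14173 20000 h1))))⟩
noncomputable def sv17 : Fn1 := ⟨_, _, fun h1 => (enc_norm (enc_subr 4276299 8000000 (enc_scale 83986569 4000000 (enc_subr 14173 20000 h1))))⟩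
noncomputable def sw17 : Fn1 := ⟨_, _, fun h1 => (enc_norm (enc_scale 7872 125 (enc_subr 14173 20000 h1)))⟩
noncomputable def sl34 : Fn1 := ⟨_, _, fun h1 => (enc_norm (enc_sub (enc_rat _ 3634019 5000000) (enc_scale 30788287 1000000 (enc_subr 14173 20000 h1))))⟩
noncomputable def sv34 : Fn1 := ⟨_, _, fun h1 => (enc_norm (enc_sub (enc_rat _ 1955819 10000000) (enc_scale 14824687 2000000 (enc_subr 14173 20000 h1))))⟩
noncomputable def sw34 : Fn1 := ⟨_, _, fun h1 => (enc_norm (enc_sub (enc_rat _ 8391 12500) (enc_scale 39909 1250 (enc_subr 14173 20000 h1))))⟩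
noncomputable def sl35 : Fn1 := ⟨_, _, fun h1 => (enc_norm (enc_add (enc_scale 3688071 500000 (enc_subr 14173 20000 h1)) (enc_rat _ 7500917 10000000)))⟩
noncomputable def sv35 : Fn1 := ⟨_, _, fun h1 => (enc_norm (enc_add (enc_scale 34136747 25000000 (enc_subr 14173 20000 h1)) (enc_rat _ 100469369 500000000)))⟩
noncomputable def sw35 : Fn1 := ⟨_, _, fun h1 => (enc_norm (enc_add (enc_scale 95559 10000 (enc_subr 14173 20000 h1)) (enc_rat _ 69659 100000)))⟩
noncomputable def sl36 : Fn1 := ⟨_, _, fun h1 => (enc_norm (enc_subr 4586243 2000000 (enc_scale 3175749 100000 (enc_subr 14173 20000 h1))))⟩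
noncomputable def sv36 : Fn1 := ⟨_, _, fun h1 => (enc_norm (enc_subr 219068269 500000000 (enc_scale 162138887 25000000 (enc_subr 14173 20000 h1))))⟩
noncomputable def sw36 : Fn1 := ⟨_, _, fun h1 => (enc_norm (enc_subr 73157 25000 (enc_scale 385813 10000 (enc_subr 14173 20000 h1))))⟩
noncomputable def sl37 : Fn1 := ⟨_, _, fun h1 => (enc_norm (enc_sub (enc_rat _ 22371423 10000000) (enc_scale 1809357 1000000 (enc_subr 14173 20000 h1))))⟩
noncomputable def sv37 : Fn1 := ⟨_, _, fun h1 => (enc_norm (enc_add (enc_scale 5392699 50000000 (enc_subr 14173 20000 h1)) (enc_rat _ 211307039 500000000)))⟩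
noncomputable def sw37 : Fn1 := ⟨_, _, fun h1 => (enc_norm (enc_sub (enc_rat _ 303459 100000) (enc_scale 3491 625 (enc_subr 14173 20000 h1))))⟩
noncomputable def sl38 : Fn1 := ⟨_, _, fun h1 => (enc_norm (enc_add (enc_scale 411659 1000000 (enc_subr 14173 20000 h1)) (enc_rat _ 2246263 5000000)))⟩
noncomputable def sv38 : Fn1 := ⟨_, _, fun h1 => (enc_norm (enc_add (enc_scale 4854267 10000000 (enc_subr 14173 20000 h1)) (enc_rat _ 1483411 12500000)))⟩
noncomputable def sw38 : Fn1 := ⟨_, _, fun h1 => (enc_norm (enc_sub (enc_rat _ 20267 50000) (enc_scale 11597 5000 (enc_subr 14173 20000 h1))))⟩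
noncomputable def sl39 : Fn1 := ⟨_, _, fun h1 => (enc_norm (enc_sub (enc_rat _ 15070143 10000000) (enc_scale 146067 10000 (enc_subr 14173 20000 h1))))⟩
noncomputable def sv39 : Fn1 := ⟨_, _, fun h1 => (enc_norm (enc_sub (enc_rat _ 27733679 100000000) (enc_scale 1767327 1000000 (enc_subr 14173 20000 h1))))⟩
noncomputable def sw39 : Fn1 := ⟨_, _, fun h1 => (enc_norm (enc_sub (enc_rat _ 54207 25000) (enc_scale 547 20 (enc_subr 14173 20000 h1))))⟩
noncomputable def sl40 : Fn1 := ⟨_, _, fun h1 => (enc_norm (enc_add (enc_scale 16434243 1000000 (enc_subr 14173 20000 h1)) (enc_rat _ 4129839 2500000)))⟩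
noncomputable def sv40 : Fn1 := ⟨_, _, fun h1 => (enc_norm (enc_add (enc_scale 113399851 50000000 (enc_subr 14173 20000 h1)) (enc_rat _ 74044221 250000000)))⟩
noncomputable def sw40 : Fn1 := ⟨_, _, fun h1 => (enc_norm (enc_add (enc_scale 323441 10000 (enc_subr 14173 20000 h1)) (enc_rat _ 244697 100000)))⟩
noncomputable def sl41 : Fn1 := ⟨_, _, fun h1 => (enc_norm (enc_subr 1532227 2000000 (enc_neg (enc_scale 2156951 200000 (enc_subr 14173 20000 h1)))))⟩
noncomputable def sv41 : Fn1 := ⟨_, _, fun h1 => (enc_norm (enc_sub (enc_rat _ 15095593 500000000) (enc_scale 36304781 50000000 (enc_subr 14173 20000 h1))))⟩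
noncomputable def sw41 : Fn1 := ⟨_, _, fun h1 => (enc_norm (enc_subr 304859 100000 (enc_neg (enc_scale 73793 2500 (enc_subr 14173 20000 h1)))))⟩
noncomputable def sl42 : Fn1 := ⟨_, _, fun h1 => (enc_norm (enc_sub (enc_rat _ 524821 10000000) (enc_scale 1521927 500000 (enc_subr 14173 20000 h1))))⟩
noncomputable def sv42 : Fn1 := ⟨_, _, fun h1 => (enc_norm (enc_sub (enc_rat _ 51932503 500000000) (enc_scale 735361 25000000 (enc_subr 14173 20000 h1))))⟩
noncomputable def sw42 : Fn1 := ⟨_, _, fun h1 => (enc_norm (enc_subr 2421 3125 (enc_neg (enc_scale 80147 10000 (enc_subr 14173 20000 h1)))))⟩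
noncomputable def sl43 : Fn1 := ⟨_, _, fun h1 => (enc_norm (enc_subr 839141 10000000 (enc_neg (enc_scale 9347 2000 (enc_subr 14173 20000 h1)))))⟩
noncomputable def sv43 : Fn1 := ⟨_, _, fun h1 => (enc_norm (enc_sub (enc_rat _ 9431709 100000000) (enc_scale 143487 1000000 (enc_subr 14173 20000 h1))))⟩
noncomputable def sw43 : Fn1 := ⟨_, _, fun h1 => (enc_norm (enc_subr 15773 12500 (enc_neg (enc_scale 2767 200 (enc_subr 14173 20000 h1)))))⟩
noncomputable def sl44 : Fn1 := ⟨_, _, fun h1 => (enc_norm (enc_add (enc_scale 1873209 500000 (enc_subr 14173 20000 h1)) (enc_rat _ 566827 2500000)))⟩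
noncomputable def sv44 : Fn1 := ⟨_, _, fun h1 => (enc_norm (enc_add (enc_scale 693767 2500000 (enc_subr 14173 20000 h1)) (enc_rat _ 5492469 50000000)))⟩
noncomputable def sw44 : Fn1 := ⟨_, _, fun h1 => (enc_norm (enc_add (enc_scale 35331 1250 (enc_subr 14173 20000 h1)) (enc_rat _ 14569 50000)))⟩
noncomputable def sl45 : Fn1 := ⟨_, _, fun h1 => (enc_norm (enc_sub (enc_rat _ 2876473 15000000) (enc_scale 418889 250000 (enc_subr 14173 20000 h1))))⟩
noncomputable def sv45 : Fn1 := ⟨_, _, fun h1 => (enc_norm (enc_add (enc_scale 2871197 25000000 (enc_subr 14173 20000 h1)) (enc_rat _ 6800029 62500000)))⟩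
noncomputable def sw45 : Fn1 := ⟨_, _, fun h1 => (enc_norm (enc_subr 1 50000 (enc_neg (enc_scale 10574 625 (enc_subr 14173 20000 h1)))))⟩
noncomputable def sl46 : Fn1 := ⟨_, _, fun h1 => (enc_norm (enc_sub (enc_rat _ 14891 100000) (enc_scale 1989 4000 (enc_subr 14173 20000 h1))))⟩
noncomputable def sv46 : Fn1 := ⟨_, _, fun h1 => (enc_norm (enc_add (enc_scale 3313067 25000000 (enc_subr 14173 20000 h1)) (enc_rat _ 54078799 500000000)))⟩
noncomputable def sw46 : Fn1 := ⟨_, _, fun h1 => (enc_norm (enc_subr 35711 50000 (enc_scale 13599 5000 (enc_subr 14173 20000 h1))))⟩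
noncomputable def sl47 : Fn1 := ⟨_, _, fun h1 => (enc_norm (enc_add (enc_scale 154127 200000 (enc_subr 14173 20000 h1)) (enc_rat _ 238553 2500000)))⟩
noncomputable def sv47 : Fn1 := ⟨_, _, fun h1 => (enc_norm (enc_add (enc_scale 1135043 10000000 (enc_subr 14173 20000 h1)) (enc_rat _ 27239969 250000000)))⟩
noncomputable def sw47 : Fn1 := ⟨_, _, fun h1 => (enc_norm (enc_sub (enc_rat _ 4433 25000) (enc_scale 36823 2000 (enc_subr 14173 20000 h1))))⟩
noncomputable def sl48_2 : Fn1 := ⟨_, _, fun h1 => (enc_subr 14173 20000 h1)⟩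
noncomputable def sl48 : Fn1 := ⟨_, _, fun h1 => (enc_norm (enc_sub (enc_sub (enc_rat _ 102464205482026456267157 770386753317500000000000) (enc_scale 18943195851072928209389 3851933766587500000000 (sl48_2.enc h1))) (enc_scale 872983216154133 26488335625000 (enc_sq (enc_norm (sl48_2.enc h1))))))⟩
noncomputable def sv48_2 : Fn1 := ⟨_, _, fun h1 => (enc_subr 14173 20000 h1)⟩
noncomputable def sv48 : Fn1 := ⟨_, _, fun h1 => (enc_norm (enc_add (enc_add (enc_scale 54728111159784241778167 192596688329375000000000 (sv48_2.enc h1)) (enc_rat _ 4153637421624108878698529 38519337665875000000000000)) (enc_scale 1309474407571749 1324416781250000 (enc_sq (enc_norm (sv48_2.enc h1))))))⟩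
noncomputable def sw48_2 : Fn1 := ⟨_, _, fun h1 => (enc_subr 14173 20000 h1)⟩
noncomputable def sw48 : Fn1 := ⟨_, _, fun h1 => (enc_norm (enc_add (enc_subr 1359 10000 (enc_scale 289923 10000 (sw48_2.enc h1))) (enc_scale 68661 250 (enc_sq (enc_norm (sw48_2.enc h1))))))⟩
noncomputable def sl50_2 : Fn1 := ⟨_, _, fun h1 => (enc_subr 14173 20000 h1)⟩
noncomputable def sl50 : Fn1 := ⟨_, _, fun h1 => (enc_norm (enc_sub (enc_add (enc_scale 36183124971275696711 5682180400000000000 (sl50_2.enc h1)) (enc_rat _ 20877498407216618863 17756813750000000000)) (enc_scale 269542657573931 2758340000000 (enc_sq (enc_norm (sl50_2.enc h1))))))⟩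
noncomputable def sv50_2 : Fn1 := ⟨_, _, fun h1 => (enc_subr 14173 20000 h1)⟩
noncomputable def sv50 : Fn1 := ⟨_, _, fun h1 => (enc_norm (enc_add (enc_sub (enc_rat _ 19174096632916692507 887840687500000000000) (enc_scale 143318354655015863821 284109020000000000000 (sv50_2.enc h1))) (enc_scale 1482484560444041 137917000000000 (enc_sq (enc_norm (sv50_2.enc h1))))))⟩
noncomputable def sw50_2 : Fn1 := ⟨_, _, fun h1 => (enc_subr 14173 20000 h1)⟩
noncomputable def sw50 : Fn1 := ⟨_, _, fun h1 => (enc_norm (enc_add (enc_subr 347263 100000 (enc_neg (enc_scale 171001 10000 (sw50_2.enc h1)))) (enc_scale 222089 1000 (enc_sq (enc_norm (sw50_2.enc h1))))))⟩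
noncomputable def sl51 : Fn1 := ⟨_, _, fun h1 => (enc_norm (enc_subr 3455743 10000000 (enc_neg (enc_scale 2807249 250000 (enc_subr 14173 20000 h1)))))⟩
noncomputable def sv51 : Fn1 := ⟨_, _, fun h1 => (enc_norm (enc_add (enc_scale 35780011 25000000 (enc_subr 14173 20000 h1)) (enc_rat _ 94470901 500000000)))⟩
noncomputable def sw51 : Fn1 := ⟨_, _, fun h1 => (enc_norm (enc_subr 1509 100000 (enc_scale 228927 10000 (enc_subr 14173 20000 h1))))⟩
noncomputable def sl52 : Fn1 := ⟨_, _, fun h1 => (enc_norm (enc_subr 846133 2500000 (enc_scale 4169577 500000 (enc_subr 14173 20000 h1))))⟩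
noncomputable def sv52 : Fn1 := ⟨_, _, fun h1 => (enc_norm (enc_sub (enc_rat _ 2350197 12500000) (enc_scale 5563281 5000000 (enc_subr 14173 20000 h1))))⟩
noncomputable def sw52 : Fn1 := ⟨_, _, fun h1 => (enc_norm (enc_subr 1439 50000 (enc_neg (enc_scale 18423 1250 (enc_subr 14173 20000 h1)))))⟩
noncomputable def sl53 : Fn1 := ⟨_, _, fun h1 => (enc_norm (enc_sub (enc_rat _ 6301301 10000000) (enc_scale 5444683 1000000 (enc_subr 14173 20000 h1))))⟩
noncomputable def sv53 : Fn1 := ⟨_, _, fun h1 => (enc_norm (enc_add (enc_scale 9549159 10000000 (enc_subr 14173 20000 h1)) (enc_rat _ 4272867 100000000)))⟩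
noncomputable def sw53 : Fn1 := ⟨_, _, fun h1 => (enc_norm (enc_subr 164309 100000 (enc_scale 82347 10000 (enc_subr 14173 20000 h1))))⟩
noncomputable def sl54 : Fn1 := ⟨_, _, fun h1 => (enc_norm (enc_subr 7728357 5000000 (enc_scale 4912123 1000000 (enc_subr 14173 20000 h1))))⟩
noncomputable def sv54 : Fn1 := ⟨_, _, fun h1 => (enc_norm (enc_sub (enc_rat _ 25788419 62500000) (enc_scale 40287039 50000000 (enc_subr 14173 20000 h1))))⟩
noncomputable def sw54 : Fn1 := ⟨_, _, fun h1 => (enc_norm (enc_sub (enc_rat _ 77831 50000) (enc_scale 69959 10000 (enc_subr 14173 20000 h1))))⟩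
noncomputable def sl55 : Fn1 := ⟨_, _, fun h1 => (enc_norm (enc_sub (enc_rat _ 3823 6250) (enc_scale 807957 100000 (enc_subr 14173 20000 h1))))⟩
noncomputable def sv55 : Fn1 := ⟨_, _, fun h1 => (enc_norm (enc_add (enc_scale 41567141 25000000 (enc_subr 14173 20000 h1)) (enc_rat _ 27179 10000000)))⟩
noncomputable def sw55 : Fn1 := ⟨_, _, fun h1 => (enc_norm (enc_subr 641 500 (enc_scale 12623 1250 (enc_subr 14173 20000 h1))))⟩
noncomputable def sl56 : Fn1 := ⟨_, _, fun h1 => (enc_norm (enc_subr 52849 50000 (enc_scale 2317847 500000 (enc_subr 14173 20000 h1))))⟩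
noncomputable def sv56 : Fn1 := ⟨_, _, fun h1 => (enc_norm (enc_sub (enc_rat _ 706273 2000000) (enc_scale 25188079 25000000 (enc_subr 14173 20000 h1))))⟩
noncomputable def sw56 : Fn1 := ⟨_, _, fun h1 => (enc_norm (enc_sub (enc_rat _ 1409 2000) (enc_scale 12597 2500 (enc_subr 14173 20000 h1))))⟩
noncomputable def sl57 : Fn1 := ⟨_, _, fun h1 => (enc_norm (enc_subr 6133651 10000000 (enc_scale 16872249 500000 (enc_subr 14173 20000 h1))))⟩
noncomputable def sv57 : Fn1 := ⟨_, _, fun h1 => (enc_norm (enc_sub (enc_rat _ 5022101 20000000) (enc_scale 7702549 1000000 (enc_subr 14173 20000 h1))))⟩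
noncomputable def sw57 : Fn1 := ⟨_, _, fun h1 => (enc_norm (enc_sub (enc_rat _ 22231 100000) (enc_scale 91697 2500 (enc_subr 14173 20000 h1))))⟩
noncomputable def skf0 : Fn2 := ⟨_, _, fun h1 h2 => (enc_norm (enc_add (bf1q0.enc h1 h2) (enc_mul (enc_norm (enc_sub (enc_mul (c1g.enc h1) (bf1q0.enc h1 h2)) (kf0q0.enc h1 h2))) (enc_inv (enc_sub (cv1m.enc h1) (c1g.enc h1))))))⟩
noncomputable def sxf0 : Fn2 := ⟨_, _, fun h1 h2 => (enc_norm (enc_mul (enc_norm (enc_sub (l1q0.enc h1 h2) (l0q0.enc h1 h2))) (enc_inv (enc_sub (cv1m.enc h1) (c1g.enc h1)))))⟩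
noncomputable def skl0 : Fn2 := ⟨_, _, fun h1 h2 => (enc_norm (enc_add (bf4q0.enc h1 h2) (enc_mul (enc_norm (enc_sub (kf5q0.enc h1 h2) (enc_mul (c3g.enc h1) (bf4q0.enc h1 h2)))) (enc_inv (enc_sub (c3g.enc h1) (cv4m.enc h1))))))⟩
noncomputable def sxl0 : Fn2 := ⟨_, _, fun h1 h2 => (enc_norm (enc_mul (enc_norm (enc_sub (l5q0.enc h1 h2) (l4q0.enc h1 h2))) (enc_inv (enc_sub (c3g.enc h1) (cv4m.enc h1)))))⟩
noncomputable def skf1 : Fn2 := ⟨_, _, fun h1 h2 => (enc_norm (enc_add (bf1q1.enc h1 h2) (enc_mul (enc_norm (enc_sub (enc_mul (c1g.enc h1) (bf1q1.enc h1 h2)) (kf0q1.enc h1 h2))) (enc_inv (enc_sub (cv1m.enc h1) (c1g.enc h1))))))⟩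
noncomputable def sxf1 : Fn2 := ⟨_, _, fun h1 h2 => (enc_norm (enc_mul (enc_norm (enc_sub (l1q1.enc h1 h2) (l0q1.enc h1 h2))) (enc_inv (enc_sub (cv1m.enc h1) (c1g.enc h1)))))⟩
noncomputable def skl1 : Fn2 := ⟨_, _, fun h1 h2 => (enc_norm (enc_add (bf4q1.enc h1 h2) (enc_mul (enc_norm (enc_sub (kf5q1.enc h1 h2) (enc_mul (c3g.enc h1) (bf4q1.enc h1 h2)))) (enc_inv (enc_sub (c3g.enc h1) (cv4m.enc h1))))))⟩
noncomputable def sxl1 : Fn2 := ⟨_, _, fun h1 h2 => (enc_norm (enc_mul (enc_norm (enc_sub (l5q1.enc h1 h2) (l4q1.enc h1 h2))) (enc_inv (enc_sub (c3g.enc h1) (cv4m.enc h1)))))⟩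
noncomputable def skf2 : Fn2 := ⟨_, _, fun h1 h2 => (enc_norm (enc_add (bf1q2.enc h1 h2) (enc_mul (enc_norm (enc_add (enc_mul (c1g.enc h1) (enc_norm (enc_subn 1 (bf1q2.enc h1 h2)))) (enc_mul (enc_norm (enc_subn 1 h1)) (kcg.enc (c1g.enc h1) h2)))) (enc_inv (enc_sub (cv1p.enc h1) (c1g.enc h1))))))⟩
noncomputable def sxf2 : Fn2 := ⟨_, _, fun h1 h2 => (enc_norm (enc_mul (enc_norm (enc_sub (l1q2.enc h1 h2) (l0q2.enc h1 h2))) (enc_inv (enc_sub (cv1p.enc h1) (c1g.enc h1)))))⟩
noncomputable def skl2 : Fn2 := ⟨_, _, fun h1 h2 => (enc_norm (enc_add (bf4q2.enc h1 h2) (enc_mul (enc_norm (enc_sub (kf5q2.enc h1 h2) (enc_mul (c3g.enc h1) (bf4q2.enc h1 h2)))) (enc_inv (enc_sub (c3g.enc h1) (cv4p.enc h1))))))⟩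
noncomputable def sxl2 : Fn2 := ⟨_, _, fun h1 h2 => (enc_norm (enc_mul (enc_norm (enc_sub (l5q2.enc h1 h2) (l4q2.enc h1 h2))) (enc_inv (enc_sub (c3g.enc h1) (cv4p.enc h1)))))⟩
noncomputable def skl3 : Fn2 := ⟨_, _, fun h1 h2 => (enc_norm (enc_add (bf4q3.enc h1 h2) (enc_mul (enc_norm (enc_sub (kf5q3.enc h1 h2) (enc_mul (c3g.enc h1) (bf4q3.enc h1 h2)))) (enc_inv (enc_sub (c3g.enc h1) (cv4r.enc h1))))))⟩
noncomputable def sxl3 : Fn2 := ⟨_, _, fun h1 h2 => (enc_norm (enc_mul (enc_norm (enc_sub (l5q3.enc h1 h2) (l4q3.enc h1 h2))) (enc_inv (enc_sub (c3g.enc h1) (cv4r.enc h1)))))⟩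
noncomputable def rhk : Fn2 := ⟨_, _, fun h1 h2 => (enc_norm (enc_mul (enc_norm (enc_sub (bf1q2.enc h1 h2) (n0b.enc h1 h2))) (enc_norm (enc_mul (cv1p.enc h1) (enc_inv (enc_sub (cv1p.enc h1) (c1g.enc h1)))))))⟩
noncomputable def rhx : Fn2 := ⟨_, _, fun h1 h2 => (enc_norm (enc_mul (enc_norm (enc_sub (bx1q2.enc h1 h2) (n0x.enc h1 h2))) (enc_norm (enc_mul (cv1p.enc h1) (enc_inv (enc_sub (cv1p.enc h1) (c1g.enc h1)))))))⟩
noncomputable def sbk : Fn1 := ⟨_, _, fun h1 => (enc_norm (enc_subr 907 460 (enc_scale 3282 115 (enc_subr 14173 20000 h1))))⟩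
noncomputable def sbx : Fn1 := ⟨_, _, fun h1 => (enc_norm (enc_sub (enc_rat _ 13183 8625) (enc_scale 4391 690 (enc_subr 14173 20000 h1))))⟩
noncomputable def k0c : Fn1 := ⟨_, _, fun h1 => (enc_norm (enc_add (enc_scale 3887 500 (enc_subr 14173 20000 h1)) (enc_rat _ 25209 10000)))⟩
noncomputable def m0c : Fn1 := ⟨_, _, fun h1 => (enc_norm (enc_subr 14891 50000 (enc_scale 1989 2000 (enc_subr 14173 20000 h1))))⟩
noncomputable def sl81_2 : Fn1 := ⟨_, _, fun h1 => (enc_subr 14173 20000 h1)⟩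
noncomputable def sl81 : Fn1 := ⟨_, _, fun h1 => (enc_norm (enc_add (enc_subr 47698027498088035267157 770386753317500000000000 (enc_scale 681493722250450884389 3851933766587500000000 (sl81_2.enc h1))) (enc_scale 872983216154133 26488335625000 (enc_sq (enc_norm (sl81_2.enc h1))))))⟩
noncomputable def sv81_2 : Fn1 := ⟨_, _, fun h1 => (enc_subr 14173 20000 h1)⟩
noncomputable def sv81 : Fn1 := ⟨_, _, fun h1 => (enc_norm (enc_add (enc_subr 77687938982907028801471 38519337665875000000000000 (enc_scale 1281220490902039528167 192596688329375000000000 (sv81_2.enc h1))) (enc_scale 1309474407571749 1324416781250000 (enc_sq (enc_norm (sv81_2.enc h1))))))⟩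
noncomputable def sw81_2 : Fn1 := ⟨_, _, fun h1 => (enc_subr 14173 20000 h1)⟩
noncomputable def sw81 : Fn1 := ⟨_, _, fun h1 => (enc_norm (enc_add (enc_subr 5341 12500 (enc_scale 291 400 (sw81_2.enc h1))) (enc_scale 68661 250 (enc_sq (enc_norm (sw81_2.enc h1))))))⟩
noncomputable def sl82 : Fn1 := ⟨_, _, fun h1 => (enc_norm (enc_sub (enc_rat _ 159509 15000000) (enc_scale 89579 1000000 (enc_subr 14173 20000 h1))))⟩
noncomputable def sv82 : Fn1 := ⟨_, _, fun h1 => (enc_norm (enc_sub (enc_rat _ 39853 250000000) (enc_scale 67179 50000000 (enc_subr 14173 20000 h1))))⟩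
noncomputable def sw82 : Fn1 := ⟨_, _, fun h1 => (enc_norm (enc_sub (enc_rat _ 8867 50000) (enc_scale 14931 10000 (enc_subr 14173 20000 h1))))⟩
noncomputable def sl83 : Fn1 := ⟨_, _, fun h1 => (enc_pnc _ 0)⟩
noncomputable def sv83 : Fn1 := ⟨_, _, fun h1 => (enc_pnc _ 0)⟩
noncomputable def sl84 : Fn1 := ⟨_, _, fun h1 => (enc_norm (enc_sub (enc_rat _ 159509 15000000) (enc_scale 89579 1000000 (enc_subr 14173 20000 h1))))⟩
noncomputable def sv84 : Fn1 := ⟨_, _, fun h1 => (enc_norm (enc_subr 39853 250000000 (enc_scale 67179 50000000 (enc_subr 14173 20000 h1))))⟩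
noncomputable def sw84 : Fn1 := ⟨_, _, fun h1 => (enc_norm (enc_subr 8867 50000 (enc_scale 14931 10000 (enc_subr 14173 20000 h1))))⟩
noncomputable def sl85_2 : Fn1 := ⟨_, _, fun h1 => (enc_subr 14173 20000 h1)⟩
noncomputable def sl85 : Fn1 := ⟨_, _, fun h1 => (enc_norm (enc_add (enc_subr 47698027498088035267157 770386753317500000000000 (enc_scale 681493722250450884389 3851933766587500000000 (sl85_2.enc h1))) (enc_scale 872983216154133 26488335625000 (enc_sq (enc_norm (sl85_2.enc h1))))))⟩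
noncomputable def sv85_2 : Fn1 := ⟨_, _, fun h1 => (enc_subr 14173 20000 h1)⟩
noncomputable def sv85 : Fn1 := ⟨_, _, fun h1 => (enc_norm (enc_sub (enc_sub (enc_rat _ 77687938982907028801471 38519337665875000000000000) (enc_scale 1281220490902039528167 192596688329375000000000 (sv85_2.enc h1))) (enc_scale 1309474407571749 1324416781250000 (enc_sq (enc_norm (sv85_2.enc h1))))))⟩
noncomputable def sw85_2 : Fn1 := ⟨_, _, fun h1 => (enc_subr 14173 20000 h1)⟩
noncomputable def sw85 : Fn1 := ⟨_, _, fun h1 => (enc_norm (enc_sub (enc_sub (enc_rat _ 5341 12500) (enc_scale 291 400 (sw85_2.enc h1))) (enc_scale 68661 250 (enc_sq (enc_norm (sw85_2.enc h1))))))⟩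
noncomputable def kqf : Fn2 := ⟨_, _, fun h1 h2 => (enc_norm (enc_mul (enc_norm (enc_subn 1 h1)) (enc_norm (enc_case (enc_subr 1 16 (c1g.enc h1)) (enc_add (enc_scale 3887 500 (enc_subr 14173 20000 h2)) (enc_rat _ 25209 10000)) (enc_mul (kcg.enc (c1g.enc h1) h2) (enc_inv (c1g.enc h1)))))))⟩
noncomputable def skm : Fn2 := ⟨_, _, fun h1 h2 => (enc_norm (enc_sub (enc_mul (enc_norm (enc_mul (cv1p.enc h1) (enc_inv (enc_sub (cv1p.enc h1) (c1g.enc h1))))) (enc_norm (enc_add (enc_subn 1 (bf1q2.enc h1 h2)) (kqf.enc h1 h2)))) (kqf.enc h1 h2)))⟩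
noncomputable def dt1 : DT := .quad sw1 sl1 sv1
noncomputable def dt2 : DT := .quad sw2 sl2 sv2
noncomputable def dt3 : DT := .quad sw3 sl3 sv3
noncomputable def dt4 : DT := .quad sw4 sl4 sv4
noncomputable def dt5 : DT := .quad sw5 sl5 sv5
noncomputable def dt6 : DT := .quad sw6 sl6 sv6
noncomputable def dt7 : DT := .quad sw7 sl7 sv7
noncomputable def dt8 : DT := .quad sw8 sl8 sv8
noncomputable def dt9 : DT := .lin sl9 sv9
noncomputable def dt10 : DT := .quad sw10 sl10 sv10
noncomputable def dt11 : DT := .quad sw11 sl11 sv11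
noncomputable def dt12 : DT := .quad sw12 sl12 sv12
noncomputable def dt13 : DT := .quad sw13 sl13 sv13
noncomputable def dt14 : DT := .quad sw14 sl14 sv14
noncomputable def dt15 : DT := .quad sw15 sl15 sv15
noncomputable def dt16 : DT := .quad sw16 sl16 sv16
noncomputable def dt17 : DT := .quad sw17 sl17 sv17
noncomputable def dt18 : DT := .node ((Cn.rt 7 16).ng) dt1 dt2
noncomputable def dt19 : DT := .node ((Cn.rt 67 200).ng) dt3 dt4
noncomputable def dt20 : DT := .node ((Cn.rt 193 500).ng) dt18 dt19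
noncomputable def dt21 : DT := .node ((Cn.rt 231 1000).ng) dt5 dt6
noncomputable def dt22 : DT := .node ((Cn.rt 23 250).ng) dt7 dt8
noncomputable def dt23 : DT := .node ((Cn.rt 9 50).ng) dt21 dt22
noncomputable def dt24 : DT := .node ((Cn.rt 283 1000).ng) dt20 dt23
noncomputable def dt25 : DT := .node (Cn.rt 1 16) dt9 dt10
noncomputable def dt26 : DT := .node (Cn.rt 9 50) dt11 dt12
noncomputable def dt27 : DT := .node (Cn.rt 23 250) dt25 dt26
noncomputable def dt28 : DT := .node (Cn.rt 283 1000) dt13 dt14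
noncomputable def dt29 : DT := .node (Cn.rt 7 16) dt16 dt17
noncomputable def dt30 : DT := .node (Cn.rt 193 500) dt15 dt29
noncomputable def dt31 : DT := .node (Cn.rt 67 200) dt28 dt30
noncomputable def dt32 : DT := .node (Cn.rt 231 1000) dt27 dt31
noncomputable def dt33 : DT := .node ((Cn.rt 1 16).ng) dt24 dt32
noncomputable def dt34 : DT := .quad sw34 sl34 sv34
noncomputable def dt35 : DT := .quad sw35 sl35 sv35
noncomputable def dt36 : DT := .quad sw36 sl36 sv36
noncomputable def dt37 : DT := .quad sw37 sl37 sv37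
noncomputable def dt38 : DT := .quad sw38 sl38 sv38
noncomputable def dt39 : DT := .quad sw39 sl39 sv39
noncomputable def dt40 : DT := .quad sw40 sl40 sv40
noncomputable def dt41 : DT := .quad sw41 sl41 sv41
noncomputable def dt42 : DT := .quad sw42 sl42 sv42
noncomputable def dt43 : DT := .quad sw43 sl43 sv43
noncomputable def dt44 : DT := .quad sw44 sl44 sv44
noncomputable def dt45 : DT := .quad sw45 sl45 sv45
noncomputable def dt46 : DT := .quad sw46 sl46 sv46
noncomputable def dt47 : DT := .quad sw47 sl47 sv47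
noncomputable def dt48 : DT := .quad sw48 sl48 sv48
noncomputable def dt49 : DT := .clo
noncomputable def dt50 : DT := .quad sw50 sl50 sv50
noncomputable def dt51 : DT := .quad sw51 sl51 sv51
noncomputable def dt52 : DT := .quad sw52 sl52 sv52
noncomputable def dt53 : DT := .quad sw53 sl53 sv53
noncomputable def dt54 : DT := .quad sw54 sl54 sv54
noncomputable def dt55 : DT := .quad sw55 sl55 sv55
noncomputable def dt56 : DT := .quad sw56 sl56 sv56
noncomputable def dt57 : DT := .quad sw57 sl57 sv57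
noncomputable def dt58 : DT := .node ((Cn.rt 21 50).ng) dt35 dt36
noncomputable def dt59 : DT := .node ((Cn.rt 23 50).ng) dt34 dt58
noncomputable def dt60 : DT := .node ((Cn.rt 3 10).ng) dt38 dt39
noncomputable def dt61 : DT := .node ((Cn.rt 17 50).ng) dt37 dt60
noncomputable def dt62 : DT := .node ((Cn.rt 19 50).ng) dt59 dt61
noncomputable def dt63 : DT := .node ((Cn.rt 9 50).ng) dt41 dt42
noncomputable def dt64 : DT := .node ((Cn.rt 11 50).ng) dt40 dt63
noncomputable def dt65 : DT := .node ((Cn.rt 3 50).ng) dt44 dt45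
noncomputable def dt66 : DT := .node ((Cn.rt 1 10).ng) dt43 dt65
noncomputable def dt67 : DT := .node ((Cn.rt 7 50).ng) dt64 dt66
noncomputable def dt68 : DT := .node ((Cn.rt 13 50).ng) dt62 dt67
noncomputable def dt69 : DT := .node (Cn.rt 3 50) dt47 dt48
noncomputable def dt70 : DT := .node (Cn.rt 3 100) dt46 dt69
noncomputable def dt71 : DT := .node (Cn.rt 11 50) dt50 dt51
noncomputable def dt72 : DT := .node (Cn.rt 37 206) dt49 dt71
noncomputable def dt73 : DT := .node (Cn.rt 61 661) dt70 dt72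
noncomputable def dt74 : DT := .node (Cn.rt 17 50) dt53 dt54
noncomputable def dt75 : DT := .node (Cn.rt 3 10) dt52 dt74
noncomputable def dt76 : DT := .node (Cn.rt 23 50) dt56 dt57
noncomputable def dt77 : DT := .node (Cn.rt 21 50) dt55 dt76
noncomputable def dt78 : DT := .node (Cn.rt 19 50) dt75 dt77
noncomputable def dt79 : DT := .node (Cn.rt 13 50) dt73 dt78
noncomputable def dt80 : DT := .node ((Cn.rt 3 100).ng) dt68 dt79
noncomputable def dt81 : DT := .quad sw81 sl81 sv81
noncomputable def dt82 : DT := .quad sw82 sl82 sv82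
noncomputable def dt83 : DT := .lin sl83 sv83
noncomputable def dt84 : DT := .quad sw84 sl84 sv84
noncomputable def dt85 : DT := .quad sw85 sl85 sv85
noncomputable def dt86 : DT := .node ((Cn.rt 3 50).ng) dt81 dt82
noncomputable def dt87 : DT := .node (Cn.rt 3 50) dt84 dt85
noncomputable def dt88 : DT := .node (Cn.rt 3 100) dt83 dt87
noncomputable def dt89 : DT := .node ((Cn.rt 3 100).ng) dt86 dt88
noncomputable def dd : SDat := ⟨dt33, kcg, dt80, Kh.T⟩
noncomputable def gf0 : Sg := ⟨cv1m, skf0, sxf0⟩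
noncomputable def gf1 : Sg := ⟨cv1m, skf1, sxf1⟩
noncomputable def gf2 : Sg := ⟨cv1p, skf2, sxf2⟩
noncomputable def gf3 : Sg := ⟨cv1r, skf2, sxf2⟩
noncomputable def gl0 : Sg := ⟨cv4m, skl0, sxl0⟩
noncomputable def gl1 : Sg := ⟨cv4m, skl1, sxl1⟩
noncomputable def gl2 : Sg := ⟨cv4p, skl2, sxl2⟩
noncomputable def gl3 : Sg := ⟨cv4r, skl3, sxl3⟩
noncomputable def vv : Vt := ⟨(Cn.rt 3 100), (Cn.rt 577 500), (Cn.rt 231 200), (Cn.rt 3 2), k0c, m0c, sbk, sbx, rhk, rhx, bf1q2, bx1q2, (Cn.rt 61 661), (Cn.rt 5771 5000), skm, dt89⟩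
noncomputable def ff (q : ℕ) : Sg := match q with
  | 0 => gf0
  | 1 => gf1
  | 2 => gf2
  | _ => gf3
noncomputable def fl (q : ℕ) : Sg := match q with
  | 0 => gl0
  | 1 => gl1
  | 2 => gl2
  | _ => gl3
noncomputable def tt : STab 5 := ⟨dd, 0, 4, ff, fl, vv⟩
theorem kcl0 {p x : ℝ} (h1 : -1 / 2 ≤ p) (h2 : p ≤ -7 / 16) : kcg.v p x = (4276299 / 8000000 + (x - 14173 / 20000) * (-83986569 / 4000000)) + (11199 / 5000 + (x - 14173 / 20000) * (-70257 / 1000)) * p + (0 + (x - 14173 / 20000) * (-7872 / 125)) * p ^ 2 := by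
  simp only [kcg, kcg_3, kcg_6, kcg_9, kcg_12, kcg_13, kcg_16, kcg_24, kcg_32, kcg_37, kcg_49, kcg_57, kcg_58, kcg_63, kcg_74, kcg_79, kcg_83, kcg_94, kcg_103, kcg_106, kcg_107, kcg_111, kcg_120, kcg_125, kcg_128, kcg_138, kcg_146, kcg_147, kcg_151, kcg_162, kcg_170, kcg_174, kcg_183, kcg_188, kcg_191, kcg_198, kcg_199, kcg_200, kcg_220, kcg_242, kcg_243, kcg_264]
  rcases eq_or_lt_of_le h1 with h | h1
  · subst h
    ((try push_cast); (repeat first | rw [if_pos (by linarith)] | rw [if_neg (by linarith)] | erw [if_pos (by linarith)] | erw [if_neg (by linarith)]); (try push_cast); (try ring1))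
  rcases eq_or_lt_of_le h2 with h | h2
  · subst h
    ((try push_cast); (repeat first | rw [if_pos (by linarith)] | rw [if_neg (by linarith)] | erw [if_pos (by linarith)] | erw [if_neg (by linarith)]); (try push_cast); (try ring1))
  · ((try push_cast); (repeat first | rw [if_pos (by linarith)] | rw [if_neg (by linarith)] | erw [if_pos (by linarith)] | erw [if_neg (by linarith)]); (try push_cast); (try ring1))
theorem kcl1 {p x : ℝ} (h1 : -7 / 16 ≤ p) (h2 : p ≤ -193 / 500) : kcg.v p x = (-92833197897 / 8000000000 + (x - 14173 / 20000) * (5181260649 / 200000000)) + (-106502682209 / 2000000000 + (x - 14173 / 20000) * (7207823253 / 50000000)) * p + (-63418447 / 1000000 + (x - 14173 / 20000) * (4551699 / 25000)) * p ^ 2 := by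
  simp only [kcg, kcg_3, kcg_6, kcg_9, kcg_12, kcg_13, kcg_16, kcg_24, kcg_32, kcg_37, kcg_49, kcg_57, kcg_58, kcg_63, kcg_74, kcg_79, kcg_83, kcg_94, kcg_103, kcg_106, kcg_107, kcg_111, kcg_120, kcg_125, kcg_128, kcg_138, kcg_146, kcg_147, kcg_151, kcg_162, kcg_170, kcg_174, kcg_183, kcg_188, kcg_191, kcg_198, kcg_199, kcg_200, kcg_220, kcg_242, kcg_243, kcg_264]
  rcases eq_or_lt_of_le h1 with h | h1
  · subst h
    ((try push_cast); (repeat first | rw [if_pos (by linarith)] | rw [if_neg (by linarith)] | erw [if_pos (by linarith)] | erw [if_neg (by linarith)]); (try push_cast); (try ring1))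
  rcases eq_or_lt_of_le h2 with h | h2
  · subst h
    ((try push_cast); (repeat first | rw [if_pos (by linarith)] | rw [if_neg (by linarith)] | erw [if_pos (by linarith)] | erw [if_neg (by linarith)]); (try push_cast); (try ring1))
  · ((try push_cast); (repeat first | rw [if_pos (by linarith)] | rw [if_neg (by linarith)] | erw [if_pos (by linarith)] | erw [if_neg (by linarith)]); (try push_cast); (try ring1))
theorem kcl2 {p x : ℝ} (h1 : -193 / 500 ≤ p) (h2 : p ≤ -67 / 200) : kcg.v p x = (217460247691 / 50000000000 + (x - 14173 / 20000) * (69919006381 / 5000000000)) + (14704263881 / 500000000 + (x - 14173 / 20000) * (4119092171 / 50000000)) * p + (21826961 / 500000 + (x - 14173 / 20000) * (5102451 / 50000)) * p ^ 2 := by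
  simp only [kcg, kcg_3, kcg_6, kcg_9, kcg_12, kcg_13, kcg_16, kcg_24, kcg_32, kcg_37, kcg_49, kcg_57, kcg_58, kcg_63, kcg_74, kcg_79, kcg_83, kcg_94, kcg_103, kcg_106, kcg_107, kcg_111, kcg_120, kcg_125, kcg_128, kcg_138, kcg_146, kcg_147, kcg_151, kcg_162, kcg_170, kcg_174, kcg_183, kcg_188, kcg_191, kcg_198, kcg_199, kcg_200, kcg_220, kcg_242, kcg_243, kcg_264]
  rcases eq_or_lt_of_le h1 with h | h1
  · subst h
    ((try push_cast); (repeat first | rw [if_pos (by linarith)] | rw [if_neg (by linarith)] | erw [if_pos (by linarith)] | erw [if_neg (by linarith)]); (try push_cast); (try ring1))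
  rcases eq_or_lt_of_le h2 with h | h2
  · subst h
    ((try push_cast); (repeat first | rw [if_pos (by linarith)] | rw [if_neg (by linarith)] | erw [if_pos (by linarith)] | erw [if_neg (by linarith)]); (try push_cast); (try ring1))
  · ((try push_cast); (repeat first | rw [if_pos (by linarith)] | rw [if_neg (by linarith)] | erw [if_pos (by linarith)] | erw [if_neg (by linarith)]); (try push_cast); (try ring1))
theorem kcl3 {p x : ℝ} (h1 : -67 / 200 ≤ p) (h2 : p ≤ -283 / 1000) : kcg.v p x = (-83361014503 / 200000000000 + (x - 14173 / 20000) * (10749608141 / 625000000)) + (477368293 / 500000000 + (x - 14173 / 20000) * (634870541 / 6250000)) * p + (1185577 / 1000000 + (x - 14173 / 20000) * (816887 / 6250)) * p ^ 2 := by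
  simp only [kcg, kcg_3, kcg_6, kcg_9, kcg_12, kcg_13, kcg_16, kcg_24, kcg_32, kcg_37, kcg_49, kcg_57, kcg_58, kcg_63, kcg_74, kcg_79, kcg_83, kcg_94, kcg_103, kcg_106, kcg_107, kcg_111, kcg_120, kcg_125, kcg_128, kcg_138, kcg_146, kcg_147, kcg_151, kcg_162, kcg_170, kcg_174, kcg_183, kcg_188, kcg_191, kcg_198, kcg_199, kcg_200, kcg_220, kcg_242, kcg_243, kcg_264]
  rcases eq_or_lt_of_le h1 with h | h1
  · subst h
    ((try push_cast); (repeat first | rw [if_pos (by linarith)] | rw [if_neg (by linarith)] | erw [if_pos (by linarith)] | erw [if_neg (by linarith)]); (try push_cast); (try ring1))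
  rcases eq_or_lt_of_le h2 with h | h2
  · subst h
    ((try push_cast); (repeat first | rw [if_pos (by linarith)] | rw [if_neg (by linarith)] | erw [if_pos (by linarith)] | erw [if_neg (by linarith)]); (try push_cast); (try ring1))
  · ((try push_cast); (repeat first | rw [if_pos (by linarith)] | rw [if_neg (by linarith)] | erw [if_pos (by linarith)] | erw [if_neg (by linarith)]); (try push_cast); (try ring1))
theorem kcl4 {p x : ℝ} (h1 : -283 / 1000 ≤ p) (h2 : p ≤ -231 / 1000) : kcg.v p x = (327279924779 / 200000000000 + (x - 14173 / 20000) * (-1160930937721 / 50000000000)) + (1546501711 / 100000000 + (x - 14173 / 20000) * (-4601505789 / 25000000)) * p + (5364423 / 200000 + (x - 14173 / 20000) * (-18698077 / 50000)) * p ^ 2 := by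
  simp only [kcg, kcg_3, kcg_6, kcg_9, kcg_12, kcg_13, kcg_16, kcg_24, kcg_32, kcg_37, kcg_49, kcg_57, kcg_58, kcg_63, kcg_74, kcg_79, kcg_83, kcg_94, kcg_103, kcg_106, kcg_107, kcg_111, kcg_120, kcg_125, kcg_128, kcg_138, kcg_146, kcg_147, kcg_151, kcg_162, kcg_170, kcg_174, kcg_183, kcg_188, kcg_191, kcg_198, kcg_199, kcg_200, kcg_220, kcg_242, kcg_243, kcg_264]
  rcases eq_or_lt_of_le h1 with h | h1
  · subst h
    ((try push_cast); (repeat first | rw [if_pos (by linarith)] | rw [if_neg (by linarith)] | erw [if_pos (by linarith)] | erw [if_neg (by linarith)]); (try push_cast); (try ring1))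
  rcases eq_or_lt_of_le h2 with h | h2
  · subst h
    ((try push_cast); (repeat first | rw [if_pos (by linarith)] | rw [if_neg (by linarith)] | erw [if_pos (by linarith)] | erw [if_neg (by linarith)]); (try push_cast); (try ring1))
  · ((try push_cast); (repeat first | rw [if_pos (by linarith)] | rw [if_neg (by linarith)] | erw [if_pos (by linarith)] | erw [if_neg (by linarith)]); (try push_cast); (try ring1))
theorem kcl5 {p x : ℝ} (h1 : -231 / 1000 ≤ p) (h2 : p ≤ -9 / 50) : kcg.v p x = (-17419856791 / 50000000000 + (x - 14173 / 20000) * (-26103750613 / 5000000000)) + (-1719370419 / 1000000000 + (x - 14173 / 20000) * (-2823452917 / 100000000)) * p + (-10373529 / 1000000 + (x - 14173 / 20000) * (-3667647 / 100000)) * p ^ 2 := by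
  simp only [kcg, kcg_3, kcg_6, kcg_9, kcg_12, kcg_13, kcg_16, kcg_24, kcg_32, kcg_37, kcg_49, kcg_57, kcg_58, kcg_63, kcg_74, kcg_79, kcg_83, kcg_94, kcg_103, kcg_106, kcg_107, kcg_111, kcg_120, kcg_125, kcg_128, kcg_138, kcg_146, kcg_147, kcg_151, kcg_162, kcg_170, kcg_174, kcg_183, kcg_188, kcg_191, kcg_198, kcg_199, kcg_200, kcg_220, kcg_242, kcg_243, kcg_264]
  rcases eq_or_lt_of_le h1 with h | h1
  · subst h
    ((try push_cast); (repeat first | rw [if_pos (by linarith)] | rw [if_neg (by linarith)] | erw [if_pos (by linarith)] | erw [if_neg (by linarith)]); (try push_cast); (try ring1))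
  rcases eq_or_lt_of_le h2 with h | h2
  · subst h
    ((try push_cast); (repeat first | rw [if_pos (by linarith)] | rw [if_neg (by linarith)] | erw [if_pos (by linarith)] | erw [if_neg (by linarith)]); (try push_cast); (try ring1))
  · ((try push_cast); (repeat first | rw [if_pos (by linarith)] | rw [if_neg (by linarith)] | erw [if_pos (by linarith)] | erw [if_neg (by linarith)]); (try push_cast); (try ring1))
theorem kcl6 {p x : ℝ} (h1 : -9 / 50 ≤ p) (h2 : p ≤ -23 / 250) : kcg.v p x = (-1202543011 / 12500000000 + (x - 14173 / 20000) * (6021221 / 1953125)) + (67673859 / 62500000 + (x - 14173 / 20000) * (20008707 / 312500)) * p + (-2589773 / 1000000 + (x - 14173 / 20000) * (4392159 / 20000)) * p ^ 2 := by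
  simp only [kcg, kcg_3, kcg_6, kcg_9, kcg_12, kcg_13, kcg_16, kcg_24, kcg_32, kcg_37, kcg_49, kcg_57, kcg_58, kcg_63, kcg_74, kcg_79, kcg_83, kcg_94, kcg_103, kcg_106, kcg_107, kcg_111, kcg_120, kcg_125, kcg_128, kcg_138, kcg_146, kcg_147, kcg_151, kcg_162, kcg_170, kcg_174, kcg_183, kcg_188, kcg_191, kcg_198, kcg_199, kcg_200, kcg_220, kcg_242, kcg_243, kcg_264]
  rcases eq_or_lt_of_le h1 with h | h1
  · subst h
    ((try push_cast); (repeat first | rw [if_pos (by linarith)] | rw [if_neg (by linarith)] | erw [if_pos (by linarith)] | erw [if_neg (by linarith)]); (try push_cast); (try ring1))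
  rcases eq_or_lt_of_le h2 with h | h2
  · subst h
    ((try push_cast); (repeat first | rw [if_pos (by linarith)] | rw [if_neg (by linarith)] | erw [if_pos (by linarith)] | erw [if_neg (by linarith)]); (try push_cast); (try ring1))
  · ((try push_cast); (repeat first | rw [if_pos (by linarith)] | rw [if_neg (by linarith)] | erw [if_pos (by linarith)] | erw [if_neg (by linarith)]); (try push_cast); (try ring1))
theorem kcl7 {p x : ℝ} (h1 : -23 / 250 ≤ p) (h2 : p ≤ -1 / 16) : kcg.v p x = (50932203 / 800000000 + (x - 14173 / 20000) * (-419650421 / 400000000)) + (1823275249 / 400000000 + (x - 14173 / 20000) * (-5159606743 / 200000000)) * p + (3259661 / 200000 + (x - 14173 / 20000) * (-26857627 / 100000)) * p ^ 2 := by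
  simp only [kcg, kcg_3, kcg_6, kcg_9, kcg_12, kcg_13, kcg_16, kcg_24, kcg_32, kcg_37, kcg_49, kcg_57, kcg_58, kcg_63, kcg_74, kcg_79, kcg_83, kcg_94, kcg_103, kcg_106, kcg_107, kcg_111, kcg_120, kcg_125, kcg_128, kcg_138, kcg_146, kcg_147, kcg_151, kcg_162, kcg_170, kcg_174, kcg_183, kcg_188, kcg_191, kcg_198, kcg_199, kcg_200, kcg_220, kcg_242, kcg_243, kcg_264]
  rcases eq_or_lt_of_le h1 with h | h1
  · subst h
    ((try push_cast); (repeat first | rw [if_pos (by linarith)] | rw [if_neg (by linarith)] | erw [if_pos (by linarith)] | erw [if_neg (by linarith)]); (try push_cast); (try ring1))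
  rcases eq_or_lt_of_le h2 with h | h2
  · subst h
    ((try push_cast); (repeat first | rw [if_pos (by linarith)] | rw [if_neg (by linarith)] | erw [if_pos (by linarith)] | erw [if_neg (by linarith)]); (try push_cast); (try ring1))
  · ((try push_cast); (repeat first | rw [if_pos (by linarith)] | rw [if_neg (by linarith)] | erw [if_pos (by linarith)] | erw [if_neg (by linarith)]); (try push_cast); (try ring1))
theorem kcl8 {p x : ℝ} (h1 : -1 / 16 ≤ p) (h2 : p ≤ 1 / 16) : kcg.v p x = (0) + (25209 / 10000 + (x - 14173 / 20000) * (3887 / 500)) * p := by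
  simp only [kcg, kcg_3, kcg_6, kcg_9, kcg_12, kcg_13, kcg_16, kcg_24, kcg_32, kcg_37, kcg_49, kcg_57, kcg_58, kcg_63, kcg_74, kcg_79, kcg_83, kcg_94, kcg_103, kcg_106, kcg_107, kcg_111, kcg_120, kcg_125, kcg_128, kcg_138, kcg_146, kcg_147, kcg_151, kcg_162, kcg_170, kcg_174, kcg_183, kcg_188, kcg_191, kcg_198, kcg_199, kcg_200, kcg_220, kcg_242, kcg_243, kcg_264]
  rcases eq_or_lt_of_le h1 with h | h1
  · subst h
    ((try push_cast); (repeat first | rw [if_pos (by linarith)] | rw [if_neg (by linarith)] | erw [if_pos (by linarith)] | erw [if_neg (by linarith)]); (try push_cast); (try ring1))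
  rcases eq_or_lt_of_le h2 with h | h2
  · subst h
    ((try push_cast); (repeat first | rw [if_pos (by linarith)] | rw [if_neg (by linarith)] | erw [if_pos (by linarith)] | erw [if_neg (by linarith)]); (try push_cast); (try ring1))
  rcases lt_trichotomy p 0 with h | h | h
  · ((try push_cast); (repeat first | rw [if_pos (by linarith)] | rw [if_neg (by linarith)] | erw [if_pos (by linarith)] | erw [if_neg (by linarith)]); (try push_cast); (try ring1))
  · subst h
    ((try push_cast); (repeat first | rw [if_pos (by linarith)] | rw [if_neg (by linarith)] | erw [if_pos (by linarith)] | erw [if_neg (by linarith)]); (try push_cast); (try ring1))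
  · ((try push_cast); (repeat first | rw [if_pos (by linarith)] | rw [if_neg (by linarith)] | erw [if_pos (by linarith)] | erw [if_neg (by linarith)]); (try push_cast); (try ring1))
theorem kcl9 {p x : ℝ} (h1 : 1 / 16 ≤ p) (h2 : p ≤ 23 / 250) : kcg.v p x = (-50932203 / 800000000 + (x - 14173 / 20000) * (419650421 / 400000000)) + (1823275249 / 400000000 + (x - 14173 / 20000) * (-5159606743 / 200000000)) * p + (-3259661 / 200000 + (x - 14173 / 20000) * (26857627 / 100000)) * p ^ 2 := by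
  simp only [kcg, kcg_3, kcg_6, kcg_9, kcg_12, kcg_13, kcg_16, kcg_24, kcg_32, kcg_37, kcg_49, kcg_57, kcg_58, kcg_63, kcg_74, kcg_79, kcg_83, kcg_94, kcg_103, kcg_106, kcg_107, kcg_111, kcg_120, kcg_125, kcg_128, kcg_138, kcg_146, kcg_147, kcg_151, kcg_162, kcg_170, kcg_174, kcg_183, kcg_188, kcg_191, kcg_198, kcg_199, kcg_200, kcg_220, kcg_242, kcg_243, kcg_264]
  rcases eq_or_lt_of_le h1 with h | h1
  · subst h
    ((try push_cast); (repeat first | rw [if_pos (by linarith)] | rw [if_neg (by linarith)] | erw [if_pos (by linarith)] | erw [if_neg (by linarith)]); (try push_cast); (try ring1))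
  rcases eq_or_lt_of_le h2 with h | h2
  · subst h
    ((try push_cast); (repeat first | rw [if_pos (by linarith)] | rw [if_neg (by linarith)] | erw [if_pos (by linarith)] | erw [if_neg (by linarith)]); (try push_cast); (try ring1))
  · ((try push_cast); (repeat first | rw [if_pos (by linarith)] | rw [if_neg (by linarith)] | erw [if_pos (by linarith)] | erw [if_neg (by linarith)]); (try push_cast); (try ring1))
theorem kcl10 {p x : ℝ} (h1 : 23 / 250 ≤ p) (h2 : p ≤ 9 / 50) : kcg.v p x = (1202543011 / 12500000000 + (x - 14173 / 20000) * (-6021221 / 1953125)) + (67673859 / 62500000 + (x - 14173 / 20000) * (20008707 / 312500)) * p + (2589773 / 1000000 + (x - 14173 / 20000) * (-4392159 / 20000)) * p ^ 2 := by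
  simp only [kcg, kcg_3, kcg_6, kcg_9, kcg_12, kcg_13, kcg_16, kcg_24, kcg_32, kcg_37, kcg_49, kcg_57, kcg_58, kcg_63, kcg_74, kcg_79, kcg_83, kcg_94, kcg_103, kcg_106, kcg_107, kcg_111, kcg_120, kcg_125, kcg_128, kcg_138, kcg_146, kcg_147, kcg_151, kcg_162, kcg_170, kcg_174, kcg_183, kcg_188, kcg_191, kcg_198, kcg_199, kcg_200, kcg_220, kcg_242, kcg_243, kcg_264]
  rcases eq_or_lt_of_le h1 with h | h1
  · subst h
    ((try push_cast); (repeat first | rw [if_pos (by linarith)] | rw [if_neg (by linarith)] | erw [if_pos (by linarith)] | erw [if_neg (by linarith)]); (try push_cast); (try ring1))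
  rcases eq_or_lt_of_le h2 with h | h2
  · subst h
    ((try push_cast); (repeat first | rw [if_pos (by linarith)] | rw [if_neg (by linarith)] | erw [if_pos (by linarith)] | erw [if_neg (by linarith)]); (try push_cast); (try ring1))
  · ((try push_cast); (repeat first | rw [if_pos (by linarith)] | rw [if_neg (by linarith)] | erw [if_pos (by linarith)] | erw [if_neg (by linarith)]); (try push_cast); (try ring1))
theorem kcl11 {p x : ℝ} (h1 : 9 / 50 ≤ p) (h2 : p ≤ 231 / 1000) : kcg.v p x = (17419856791 / 50000000000 + (x - 14173 / 20000) * (26103750613 / 5000000000)) + (-1719370419 / 1000000000 + (x - 14173 / 20000) * (-2823452917 / 100000000)) * p + (10373529 / 1000000 + (x - 14173 / 20000) * (3667647 / 100000)) * p ^ 2 := by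
  simp only [kcg, kcg_3, kcg_6, kcg_9, kcg_12, kcg_13, kcg_16, kcg_24, kcg_32, kcg_37, kcg_49, kcg_57, kcg_58, kcg_63, kcg_74, kcg_79, kcg_83, kcg_94, kcg_103, kcg_106, kcg_107, kcg_111, kcg_120, kcg_125, kcg_128, kcg_138, kcg_146, kcg_147, kcg_151, kcg_162, kcg_170, kcg_174, kcg_183, kcg_188, kcg_191, kcg_198, kcg_199, kcg_200, kcg_220, kcg_242, kcg_243, kcg_264]
  rcases eq_or_lt_of_le h1 with h | h1
  · subst h
    ((try push_cast); (repeat first | rw [if_pos (by linarith)] | rw [if_neg (by linarith)] | erw [if_pos (by linarith)] | erw [if_neg (by linarith)]); (try push_cast); (try ring1))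
  rcases eq_or_lt_of_le h2 with h | h2
  · subst h
    ((try push_cast); (repeat first | rw [if_pos (by linarith)] | rw [if_neg (by linarith)] | erw [if_pos (by linarith)] | erw [if_neg (by linarith)]); (try push_cast); (try ring1))
  · ((try push_cast); (repeat first | rw [if_pos (by linarith)] | rw [if_neg (by linarith)] | erw [if_pos (by linarith)] | erw [if_neg (by linarith)]); (try push_cast); (try ring1))
theorem kcl12 {p x : ℝ} (h1 : 231 / 1000 ≤ p) (h2 : p ≤ 283 / 1000) : kcg.v p x = (-327279924779 / 200000000000 + (x - 14173 / 20000) * (1160930937721 / 50000000000)) + (1546501711 / 100000000 + (x - 14173 / 20000) * (-4601505789 / 25000000)) * p + (-5364423 / 200000 + (x - 14173 / 20000) * (18698077 / 50000)) * p ^ 2 := by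
  simp only [kcg, kcg_3, kcg_6, kcg_9, kcg_12, kcg_13, kcg_16, kcg_24, kcg_32, kcg_37, kcg_49, kcg_57, kcg_58, kcg_63, kcg_74, kcg_79, kcg_83, kcg_94, kcg_103, kcg_106, kcg_107, kcg_111, kcg_120, kcg_125, kcg_128, kcg_138, kcg_146, kcg_147, kcg_151, kcg_162, kcg_170, kcg_174, kcg_183, kcg_188, kcg_191, kcg_198, kcg_199, kcg_200, kcg_220, kcg_242, kcg_243, kcg_264]
  rcases eq_or_lt_of_le h1 with h | h1
  · subst h
    ((try push_cast); (repeat first | rw [if_pos (by linarith)] | rw [if_neg (by linarith)] | erw [if_pos (by linarith)] | erw [if_neg (by linarith)]); (try push_cast); (try ring1))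
  rcases eq_or_lt_of_le h2 with h | h2
  · subst h
    ((try push_cast); (repeat first | rw [if_pos (by linarith)] | rw [if_neg (by linarith)] | erw [if_pos (by linarith)] | erw [if_neg (by linarith)]); (try push_cast); (try ring1))
  · ((try push_cast); (repeat first | rw [if_pos (by linarith)] | rw [if_neg (by linarith)] | erw [if_pos (by linarith)] | erw [if_neg (by linarith)]); (try push_cast); (try ring1))
theorem kcl13 {p x : ℝ} (h1 : 283 / 1000 ≤ p) (h2 : p ≤ 67 / 200) : kcg.v p x = (83361014503 / 200000000000 + (x - 14173 / 20000) * (-10749608141 / 625000000)) + (477368293 / 500000000 + (x - 14173 / 20000) * (634870541 / 6250000)) * p + (-1185577 / 1000000 + (x - 14173 / 20000) * (-816887 / 6250)) * p ^ 2 := by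
  simp only [kcg, kcg_3, kcg_6, kcg_9, kcg_12, kcg_13, kcg_16, kcg_24, kcg_32, kcg_37, kcg_49, kcg_57, kcg_58, kcg_63, kcg_74, kcg_79, kcg_83, kcg_94, kcg_103, kcg_106, kcg_107, kcg_111, kcg_120, kcg_125, kcg_128, kcg_138, kcg_146, kcg_147, kcg_151, kcg_162, kcg_170, kcg_174, kcg_183, kcg_188, kcg_191, kcg_198, kcg_199, kcg_200, kcg_220, kcg_242, kcg_243, kcg_264]
  rcases eq_or_lt_of_le h1 with h | h1
  · subst h
    ((try push_cast); (repeat first | rw [if_pos (by linarith)] | rw [if_neg (by linarith)] | erw [if_pos (by linarith)] | erw [if_neg (by linarith)]); (try push_cast); (try ring1))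
  rcases eq_or_lt_of_le h2 with h | h2
  · subst h
    ((try push_cast); (repeat first | rw [if_pos (by linarith)] | rw [if_neg (by linarith)] | erw [if_pos (by linarith)] | erw [if_neg (by linarith)]); (try push_cast); (try ring1))
  · ((try push_cast); (repeat first | rw [if_pos (by linarith)] | rw [if_neg (by linarith)] | erw [if_pos (by linarith)] | erw [if_neg (by linarith)]); (try push_cast); (try ring1))
theorem kcl14 {p x : ℝ} (h1 : 67 / 200 ≤ p) (h2 : p ≤ 193 / 500) : kcg.v p x = (-217460247691 / 50000000000 + (x - 14173 / 20000) * (-69919006381 / 5000000000)) + (14704263881 / 500000000 + (x - 14173 / 20000) * (4119092171 / 50000000)) * p + (-21826961 / 500000 + (x - 14173 / 20000) * (-5102451 / 50000)) * p ^ 2 := by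
  simp only [kcg, kcg_3, kcg_6, kcg_9, kcg_12, kcg_13, kcg_16, kcg_24, kcg_32, kcg_37, kcg_49, kcg_57, kcg_58, kcg_63, kcg_74, kcg_79, kcg_83, kcg_94, kcg_103, kcg_106, kcg_107, kcg_111, kcg_120, kcg_125, kcg_128, kcg_138, kcg_146, kcg_147, kcg_151, kcg_162, kcg_170, kcg_174, kcg_183, kcg_188, kcg_191, kcg_198, kcg_199, kcg_200, kcg_220, kcg_242, kcg_243, kcg_264]
  rcases eq_or_lt_of_le h1 with h | h1
  · subst h
    ((try push_cast); (repeat first | rw [if_pos (by linarith)] | rw [if_neg (by linarith)] | erw [if_pos (by linarith)] | erw [if_neg (by linarith)]); (try push_cast); (try ring1))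
  rcases eq_or_lt_of_le h2 with h | h2
  · subst h
    ((try push_cast); (repeat first | rw [if_pos (by linarith)] | rw [if_neg (by linarith)] | erw [if_pos (by linarith)] | erw [if_neg (by linarith)]); (try push_cast); (try ring1))
  · ((try push_cast); (repeat first | rw [if_pos (by linarith)] | rw [if_neg (by linarith)] | erw [if_pos (by linarith)] | erw [if_neg (by linarith)]); (try push_cast); (try ring1))
theorem kcl15 {p x : ℝ} (h1 : 193 / 500 ≤ p) (h2 : p ≤ 7 / 16) : kcg.v p x = (92833197897 / 8000000000 + (x - 14173 / 20000) * (-5181260649 / 200000000)) + (-106502682209 / 2000000000 + (x - 14173 / 20000) * (7207823253 / 50000000)) * p + (63418447 / 1000000 + (x - 14173 / 20000) * (-4551699 / 25000)) * p ^ 2 := by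
  simp only [kcg, kcg_3, kcg_6, kcg_9, kcg_12, kcg_13, kcg_16, kcg_24, kcg_32, kcg_37, kcg_49, kcg_57, kcg_58, kcg_63, kcg_74, kcg_79, kcg_83, kcg_94, kcg_103, kcg_106, kcg_107, kcg_111, kcg_120, kcg_125, kcg_128, kcg_138, kcg_146, kcg_147, kcg_151, kcg_162, kcg_170, kcg_174, kcg_183, kcg_188, kcg_191, kcg_198, kcg_199, kcg_200, kcg_220, kcg_242, kcg_243, kcg_264]
  rcases eq_or_lt_of_le h1 with h | h1
  · subst h
    ((try push_cast); (repeat first | rw [if_pos (by linarith)] | rw [if_neg (by linarith)] | erw [if_pos (by linarith)] | erw [if_neg (by linarith)]); (try push_cast); (try ring1))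
  rcases eq_or_lt_of_le h2 with h | h2
  · subst h
    ((try push_cast); (repeat first | rw [if_pos (by linarith)] | rw [if_neg (by linarith)] | erw [if_pos (by linarith)] | erw [if_neg (by linarith)]); (try push_cast); (try ring1))
  · ((try push_cast); (repeat first | rw [if_pos (by linarith)] | rw [if_neg (by linarith)] | erw [if_pos (by linarith)] | erw [if_neg (by linarith)]); (try push_cast); (try ring1))
theorem kcl16 {p x : ℝ} (h1 : 7 / 16 ≤ p) (h2 : p ≤ 1 / 2) : kcg.v p x = (-4276299 / 8000000 + (x - 14173 / 20000) * (83986569 / 4000000)) + (11199 / 5000 + (x - 14173 / 20000) * (-70257 / 1000)) * p + (0 + (x - 14173 / 20000) * (7872 / 125)) * p ^ 2 := by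
  simp only [kcg, kcg_3, kcg_6, kcg_9, kcg_12, kcg_13, kcg_16, kcg_24, kcg_32, kcg_37, kcg_49, kcg_57, kcg_58, kcg_63, kcg_74, kcg_79, kcg_83, kcg_94, kcg_103, kcg_106, kcg_107, kcg_111, kcg_120, kcg_125, kcg_128, kcg_138, kcg_146, kcg_147, kcg_151, kcg_162, kcg_170, kcg_174, kcg_183, kcg_188, kcg_191, kcg_198, kcg_199, kcg_200, kcg_220, kcg_242, kcg_243, kcg_264]
  rcases eq_or_lt_of_le h1 with h | h1
  · subst h
    ((try push_cast); (repeat first | rw [if_pos (by linarith)] | rw [if_neg (by linarith)] | erw [if_pos (by linarith)] | erw [if_neg (by linarith)]); (try push_cast); (try ring1))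
  rcases eq_or_lt_of_le h2 with h | h2
  · subst h
    ((try push_cast); (repeat first | rw [if_pos (by linarith)] | rw [if_neg (by linarith)] | erw [if_pos (by linarith)] | erw [if_neg (by linarith)]); (try push_cast); (try ring1))
  · ((try push_cast); (repeat first | rw [if_pos (by linarith)] | rw [if_neg (by linarith)] | erw [if_pos (by linarith)] | erw [if_neg (by linarith)]); (try push_cast); (try ring1))
theorem kvh0 {p x : ℝ} (h2 : p ≤ -7 / 16) : dt33.kv p x = (4276299 / 8000000 + (x - 14173 / 20000) * (-83986569 / 4000000)) + (11199 / 5000 + (x - 14173 / 20000) * (-70257 / 1000)) * p + (0 + (x - 14173 / 20000) * (-7872 / 125)) * p ^ 2 := by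
  refine (DT.kv_le (by simp only [Cn.rt_v, Cn.ng_v]; push_cast; linarith)).trans ?_
  refine (DT.kv_le (by simp only [Cn.rt_v, Cn.ng_v]; push_cast; linarith)).trans ?_
  refine (DT.kv_le (by simp only [Cn.rt_v, Cn.ng_v]; push_cast; linarith)).trans ?_
  refine (DT.kv_le (by simp only [Cn.rt_v, Cn.ng_v]; push_cast; linarith)).trans ?_
  simp only [dt1, DT.kv, sw1, sl1, sv1]
  ((try push_cast); ring1)
theorem kvh1 {p x : ℝ} (h1 : -7 / 16 < p) (h2 : p ≤ -193 / 500) : dt33.kv p x = (-92833197897 / 8000000000 + (x - 14173 / 20000) * (5181260649 / 200000000)) + (-106502682209 / 2000000000 + (x - 14173 / 20000) * (7207823253 / 50000000)) * p + (-63418447 / 1000000 + (x - 14173 / 20000) * (4551699 / 25000)) * p ^ 2 := by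
  refine (DT.kv_le (by simp only [Cn.rt_v, Cn.ng_v]; push_cast; linarith)).trans ?_
  refine (DT.kv_le (by simp only [Cn.rt_v, Cn.ng_v]; push_cast; linarith)).trans ?_
  refine (DT.kv_le (by simp only [Cn.rt_v, Cn.ng_v]; push_cast; linarith)).trans ?_
  refine (DT.kv_gt (by simp only [Cn.rt_v, Cn.ng_v]; push_cast; linarith)).trans ?_
  simp only [dt2, DT.kv, sw2, sl2, sv2]
  ((try push_cast); ring1)
theorem kvh2 {p x : ℝ} (h1 : -193 / 500 < p) (h2 : p ≤ -67 / 200) : dt33.kv p x = (217460247691 / 50000000000 + (x - 14173 / 20000) * (69919006381 / 5000000000)) + (14704263881 / 500000000 + (x - 14173 / 20000) * (4119092171 / 50000000)) * p + (21826961 / 500000 + (x - 14173 / 20000) * (5102451 / 50000)) * p ^ 2 := by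
  refine (DT.kv_le (by simp only [Cn.rt_v, Cn.ng_v]; push_cast; linarith)).trans ?_
  refine (DT.kv_le (by simp only [Cn.rt_v, Cn.ng_v]; push_cast; linarith)).trans ?_
  refine (DT.kv_gt (by simp only [Cn.rt_v, Cn.ng_v]; push_cast; linarith)).trans ?_
  refine (DT.kv_le (by simp only [Cn.rt_v, Cn.ng_v]; push_cast; linarith)).trans ?_
  simp only [dt3, DT.kv, sw3, sl3, sv3]
  ((try push_cast); ring1)
theorem kvh3 {p x : ℝ} (h1 : -67 / 200 < p) (h2 : p ≤ -283 / 1000) : dt33.kv p x = (-83361014503 / 200000000000 + (x - 14173 / 20000) * (10749608141 / 625000000)) + (477368293 / 500000000 + (x - 14173 / 20000) * (634870541 / 6250000)) * p + (1185577 / 1000000 + (x - 14173 / 20000) * (816887 / 6250)) * p ^ 2 := by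
  refine (DT.kv_le (by simp only [Cn.rt_v, Cn.ng_v]; push_cast; linarith)).trans ?_
  refine (DT.kv_le (by simp only [Cn.rt_v, Cn.ng_v]; push_cast; linarith)).trans ?_
  refine (DT.kv_gt (by simp only [Cn.rt_v, Cn.ng_v]; push_cast; linarith)).trans ?_
  refine (DT.kv_gt (by simp only [Cn.rt_v, Cn.ng_v]; push_cast; linarith)).trans ?_
  simp only [dt4, DT.kv, sw4, sl4, sv4]
  ((try push_cast); ring1)
theorem kvh4 {p x : ℝ} (h1 : -283 / 1000 < p) (h2 : p ≤ -231 / 1000) : dt33.kv p x = (327279924779 / 200000000000 + (x - 14173 / 20000) * (-1160930937721 / 50000000000)) + (1546501711 / 100000000 + (x - 14173 / 20000) * (-4601505789 / 25000000)) * p + (5364423 / 200000 + (x - 14173 / 20000) * (-18698077 / 50000)) * p ^ 2 := by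
  refine (DT.kv_le (by simp only [Cn.rt_v, Cn.ng_v]; push_cast; linarith)).trans ?_
  refine (DT.kv_gt (by simp only [Cn.rt_v, Cn.ng_v]; push_cast; linarith)).trans ?_
  refine (DT.kv_le (by simp only [Cn.rt_v, Cn.ng_v]; push_cast; linarith)).trans ?_
  refine (DT.kv_le (by simp only [Cn.rt_v, Cn.ng_v]; push_cast; linarith)).trans ?_
  simp only [dt5, DT.kv, sw5, sl5, sv5]
  ((try push_cast); ring1)
theorem kvh5 {p x : ℝ} (h1 : -231 / 1000 < p) (h2 : p ≤ -9 / 50) : dt33.kv p x = (-17419856791 / 50000000000 + (x - 14173 / 20000) * (-26103750613 / 5000000000)) + (-1719370419 / 1000000000 + (x - 14173 / 20000) * (-2823452917 / 100000000)) * p + (-10373529 / 1000000 + (x - 14173 / 20000) * (-3667647 / 100000)) * p ^ 2 := by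
  refine (DT.kv_le (by simp only [Cn.rt_v, Cn.ng_v]; push_cast; linarith)).trans ?_
  refine (DT.kv_gt (by simp only [Cn.rt_v, Cn.ng_v]; push_cast; linarith)).trans ?_
  refine (DT.kv_le (by simp only [Cn.rt_v, Cn.ng_v]; push_cast; linarith)).trans ?_
  refine (DT.kv_gt (by simp only [Cn.rt_v, Cn.ng_v]; push_cast; linarith)).trans ?_
  simp only [dt6, DT.kv, sw6, sl6, sv6]
  ((try push_cast); ring1)
theorem kvh6 {p x : ℝ} (h1 : -9 / 50 < p) (h2 : p ≤ -23 / 250) : dt33.kv p x = (-1202543011 / 12500000000 + (x - 14173 / 20000) * (6021221 / 1953125)) + (67673859 / 62500000 + (x - 14173 / 20000) * (20008707 / 312500)) * p + (-2589773 / 1000000 + (x - 14173 / 20000) * (4392159 / 20000)) * p ^ 2 := by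
  refine (DT.kv_le (by simp only [Cn.rt_v, Cn.ng_v]; push_cast; linarith)).trans ?_
  refine (DT.kv_gt (by simp only [Cn.rt_v, Cn.ng_v]; push_cast; linarith)).trans ?_
  refine (DT.kv_gt (by simp only [Cn.rt_v, Cn.ng_v]; push_cast; linarith)).trans ?_
  refine (DT.kv_le (by simp only [Cn.rt_v, Cn.ng_v]; push_cast; linarith)).trans ?_
  simp only [dt7, DT.kv, sw7, sl7, sv7]
  ((try push_cast); ring1)
theorem kvh7 {p x : ℝ} (h1 : -23 / 250 < p) (h2 : p ≤ -1 / 16) : dt33.kv p x = (50932203 / 800000000 + (x - 14173 / 20000) * (-419650421 / 400000000)) + (1823275249 / 400000000 + (x - 14173 / 20000) * (-5159606743 / 200000000)) * p + (3259661 / 200000 + (x - 14173 / 20000) * (-26857627 / 100000)) * p ^ 2 := by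
  refine (DT.kv_le (by simp only [Cn.rt_v, Cn.ng_v]; push_cast; linarith)).trans ?_
  refine (DT.kv_gt (by simp only [Cn.rt_v, Cn.ng_v]; push_cast; linarith)).trans ?_
  refine (DT.kv_gt (by simp only [Cn.rt_v, Cn.ng_v]; push_cast; linarith)).trans ?_
  refine (DT.kv_gt (by simp only [Cn.rt_v, Cn.ng_v]; push_cast; linarith)).trans ?_
  simp only [dt8, DT.kv, sw8, sl8, sv8]
  ((try push_cast); ring1)
theorem kvh8 {p x : ℝ} (h1 : -1 / 16 < p) (h2 : p ≤ 1 / 16) : dt33.kv p x = (0) + (25209 / 10000 + (x - 14173 / 20000) * (3887 / 500)) * p := by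
  refine (DT.kv_gt (by simp only [Cn.rt_v, Cn.ng_v]; push_cast; linarith)).trans ?_
  refine (DT.kv_le (by simp only [Cn.rt_v, Cn.ng_v]; push_cast; linarith)).trans ?_
  refine (DT.kv_le (by simp only [Cn.rt_v, Cn.ng_v]; push_cast; linarith)).trans ?_
  refine (DT.kv_le (by simp only [Cn.rt_v, Cn.ng_v]; push_cast; linarith)).trans ?_
  simp only [dt9, DT.kv, sl9, sv9]
  ((try push_cast); ring1)
theorem kvh9 {p x : ℝ} (h1 : 1 / 16 < p) (h2 : p ≤ 23 / 250) : dt33.kv p x = (-50932203 / 800000000 + (x - 14173 / 20000) * (419650421 / 400000000)) + (1823275249 / 400000000 + (x - 14173 / 20000) * (-5159606743 / 200000000)) * p + (-3259661 / 200000 + (x - 14173 / 20000) * (26857627 / 100000)) * p ^ 2 := by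
  refine (DT.kv_gt (by simp only [Cn.rt_v, Cn.ng_v]; push_cast; linarith)).trans ?_
  refine (DT.kv_le (by simp only [Cn.rt_v, Cn.ng_v]; push_cast; linarith)).trans ?_
  refine (DT.kv_le (by simp only [Cn.rt_v, Cn.ng_v]; push_cast; linarith)).trans ?_
  refine (DT.kv_gt (by simp only [Cn.rt_v, Cn.ng_v]; push_cast; linarith)).trans ?_
  simp only [dt10, DT.kv, sw10, sl10, sv10]
  ((try push_cast); ring1)
theorem kvh10 {p x : ℝ} (h1 : 23 / 250 < p) (h2 : p ≤ 9 / 50) : dt33.kv p x = (1202543011 / 12500000000 + (x - 14173 / 20000) * (-6021221 / 1953125)) + (67673859 / 62500000 + (x - 14173 / 20000) * (20008707 / 312500)) * p + (2589773 / 1000000 + (x - 14173 / 20000) * (-4392159 / 20000)) * p ^ 2 := by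
  refine (DT.kv_gt (by simp only [Cn.rt_v, Cn.ng_v]; push_cast; linarith)).trans ?_
  refine (DT.kv_le (by simp only [Cn.rt_v, Cn.ng_v]; push_cast; linarith)).trans ?_
  refine (DT.kv_gt (by simp only [Cn.rt_v, Cn.ng_v]; push_cast; linarith)).trans ?_
  refine (DT.kv_le (by simp only [Cn.rt_v, Cn.ng_v]; push_cast; linarith)).trans ?_
  simp only [dt11, DT.kv, sw11, sl11, sv11]
  ((try push_cast); ring1)
theorem kvh11 {p x : ℝ} (h1 : 9 / 50 < p) (h2 : p ≤ 231 / 1000) : dt33.kv p x = (17419856791 / 50000000000 + (x - 14173 / 20000) * (26103750613 / 5000000000)) + (-1719370419 / 1000000000 + (x - 14173 / 20000) * (-2823452917 / 100000000)) * p + (10373529 / 1000000 + (x - 14173 / 20000) * (3667647 / 100000)) * p ^ 2 := by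
  refine (DT.kv_gt (by simp only [Cn.rt_v, Cn.ng_v]; push_cast; linarith)).trans ?_
  refine (DT.kv_le (by simp only [Cn.rt_v, Cn.ng_v]; push_cast; linarith)).trans ?_
  refine (DT.kv_gt (by simp only [Cn.rt_v, Cn.ng_v]; push_cast; linarith)).trans ?_
  refine (DT.kv_gt (by simp only [Cn.rt_v, Cn.ng_v]; push_cast; linarith)).trans ?_
  simp only [dt12, DT.kv, sw12, sl12, sv12]
  ((try push_cast); ring1)
theorem kvh12 {p x : ℝ} (h1 : 231 / 1000 < p) (h2 : p ≤ 283 / 1000) : dt33.kv p x = (-327279924779 / 200000000000 + (x - 14173 / 20000) * (1160930937721 / 50000000000)) + (1546501711 / 100000000 + (x - 14173 / 20000) * (-4601505789 / 25000000)) * p + (-5364423 / 200000 + (x - 14173 / 20000) * (18698077 / 50000)) * p ^ 2 := by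
  refine (DT.kv_gt (by simp only [Cn.rt_v, Cn.ng_v]; push_cast; linarith)).trans ?_
  refine (DT.kv_gt (by simp only [Cn.rt_v, Cn.ng_v]; push_cast; linarith)).trans ?_
  refine (DT.kv_le (by simp only [Cn.rt_v, Cn.ng_v]; push_cast; linarith)).trans ?_
  refine (DT.kv_le (by simp only [Cn.rt_v, Cn.ng_v]; push_cast; linarith)).trans ?_
  simp only [dt13, DT.kv, sw13, sl13, sv13]
  ((try push_cast); ring1)
theorem kvh13 {p x : ℝ} (h1 : 283 / 1000 < p) (h2 : p ≤ 67 / 200) : dt33.kv p x = (83361014503 / 200000000000 + (x - 14173 / 20000) * (-10749608141 / 625000000)) + (477368293 / 500000000 + (x - 14173 / 20000) * (634870541 / 6250000)) * p + (-1185577 / 1000000 + (x - 14173 / 20000) * (-816887 / 6250)) * p ^ 2 := by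
  refine (DT.kv_gt (by simp only [Cn.rt_v, Cn.ng_v]; push_cast; linarith)).trans ?_
  refine (DT.kv_gt (by simp only [Cn.rt_v, Cn.ng_v]; push_cast; linarith)).trans ?_
  refine (DT.kv_le (by simp only [Cn.rt_v, Cn.ng_v]; push_cast; linarith)).trans ?_
  refine (DT.kv_gt (by simp only [Cn.rt_v, Cn.ng_v]; push_cast; linarith)).trans ?_
  simp only [dt14, DT.kv, sw14, sl14, sv14]
  ((try push_cast); ring1)
theorem kvh14 {p x : ℝ} (h1 : 67 / 200 < p) (h2 : p ≤ 193 / 500) : dt33.kv p x = (-217460247691 / 50000000000 + (x - 14173 / 20000) * (-69919006381 / 5000000000)) + (14704263881 / 500000000 + (x - 14173 / 20000) * (4119092171 / 50000000)) * p + (-21826961 / 500000 + (x - 14173 / 20000) * (-5102451 / 50000)) * p ^ 2 := by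
  refine (DT.kv_gt (by simp only [Cn.rt_v, Cn.ng_v]; push_cast; linarith)).trans ?_
  refine (DT.kv_gt (by simp only [Cn.rt_v, Cn.ng_v]; push_cast; linarith)).trans ?_
  refine (DT.kv_gt (by simp only [Cn.rt_v, Cn.ng_v]; push_cast; linarith)).trans ?_
  refine (DT.kv_le (by simp only [Cn.rt_v, Cn.ng_v]; push_cast; linarith)).trans ?_
  simp only [dt15, DT.kv, sw15, sl15, sv15]
  ((try push_cast); ring1)
theorem kvh15 {p x : ℝ} (h1 : 193 / 500 < p) (h2 : p ≤ 7 / 16) : dt33.kv p x = (92833197897 / 8000000000 + (x - 14173 / 20000) * (-5181260649 / 200000000)) + (-106502682209 / 2000000000 + (x - 14173 / 20000) * (7207823253 / 50000000)) * p + (63418447 / 1000000 + (x - 14173 / 20000) * (-4551699 / 25000)) * p ^ 2 := by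
  refine (DT.kv_gt (by simp only [Cn.rt_v, Cn.ng_v]; push_cast; linarith)).trans ?_
  refine (DT.kv_gt (by simp only [Cn.rt_v, Cn.ng_v]; push_cast; linarith)).trans ?_
  refine (DT.kv_gt (by simp only [Cn.rt_v, Cn.ng_v]; push_cast; linarith)).trans ?_
  refine (DT.kv_gt (by simp only [Cn.rt_v, Cn.ng_v]; push_cast; linarith)).trans ?_
  refine (DT.kv_le (by simp only [Cn.rt_v, Cn.ng_v]; push_cast; linarith)).trans ?_
  simp only [dt16, DT.kv, sw16, sl16, sv16]
  ((try push_cast); ring1)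
theorem kvh16 {p x : ℝ} (h1 : 7 / 16 < p) (h2 : p ≤ 1 / 2) : dt33.kv p x = (-4276299 / 8000000 + (x - 14173 / 20000) * (83986569 / 4000000)) + (11199 / 5000 + (x - 14173 / 20000) * (-70257 / 1000)) * p + (0 + (x - 14173 / 20000) * (7872 / 125)) * p ^ 2 := by
  refine (DT.kv_gt (by simp only [Cn.rt_v, Cn.ng_v]; push_cast; linarith)).trans ?_
  refine (DT.kv_gt (by simp only [Cn.rt_v, Cn.ng_v]; push_cast; linarith)).trans ?_
  refine (DT.kv_gt (by simp only [Cn.rt_v, Cn.ng_v]; push_cast; linarith)).trans ?_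
  refine (DT.kv_gt (by simp only [Cn.rt_v, Cn.ng_v]; push_cast; linarith)).trans ?_
  refine (DT.kv_gt (by simp only [Cn.rt_v, Cn.ng_v]; push_cast; linarith)).trans ?_
  simp only [dt17, DT.kv, sw17, sl17, sv17]
  ((try push_cast); ring1)
theorem kvl0 {p x : ℝ} (h1 : -1 / 2 ≤ p) (h2 : p ≤ -7 / 16) : dt33.kv p x = (4276299 / 8000000 + (x - 14173 / 20000) * (-83986569 / 4000000)) + (11199 / 5000 + (x - 14173 / 20000) * (-70257 / 1000)) * p + (0 + (x - 14173 / 20000) * (-7872 / 125)) * p ^ 2 := by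
  exact kvh0 h2
theorem kvl1 {p x : ℝ} (h1 : -7 / 16 ≤ p) (h2 : p ≤ -193 / 500) : dt33.kv p x = (-92833197897 / 8000000000 + (x - 14173 / 20000) * (5181260649 / 200000000)) + (-106502682209 / 2000000000 + (x - 14173 / 20000) * (7207823253 / 50000000)) * p + (-63418447 / 1000000 + (x - 14173 / 20000) * (4551699 / 25000)) * p ^ 2 := by
  rcases eq_or_lt_of_le h1 with h | h1
  · subst h
    rw [kvh0 (by norm_num)]
    ring1
  · exact kvh1 h1 h2
theorem kvl2 {p x : ℝ} (h1 : -193 / 500 ≤ p) (h2 : p ≤ -67 / 200) : dt33.kv p x = (217460247691 / 50000000000 + (x - 14173 / 20000) * (69919006381 / 5000000000)) + (14704263881 / 500000000 + (x - 14173 / 20000) * (4119092171 / 50000000)) * p + (21826961 / 500000 + (x - 14173 / 20000) * (5102451 / 50000)) * p ^ 2 := by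
  rcases eq_or_lt_of_le h1 with h | h1
  · subst h
    rw [kvh1 (by norm_num) (by norm_num)]
    ring1
  · exact kvh2 h1 h2
theorem kvl3 {p x : ℝ} (h1 : -67 / 200 ≤ p) (h2 : p ≤ -283 / 1000) : dt33.kv p x = (-83361014503 / 200000000000 + (x - 14173 / 20000) * (10749608141 / 625000000)) + (477368293 / 500000000 + (x - 14173 / 20000) * (634870541 / 6250000)) * p + (1185577 / 1000000 + (x - 14173 / 20000) * (816887 / 6250)) * p ^ 2 := by
  rcases eq_or_lt_of_le h1 with h | h1
  · subst h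
    rw [kvh2 (by norm_num) (by norm_num)]
    ring1
  · exact kvh3 h1 h2
theorem kvl4 {p x : ℝ} (h1 : -283 / 1000 ≤ p) (h2 : p ≤ -231 / 1000) : dt33.kv p x = (327279924779 / 200000000000 + (x - 14173 / 20000) * (-1160930937721 / 50000000000)) + (1546501711 / 100000000 + (x - 14173 / 20000) * (-4601505789 / 25000000)) * p + (5364423 / 200000 + (x - 14173 / 20000) * (-18698077 / 50000)) * p ^ 2 := by
  rcases eq_or_lt_of_le h1 with h | h1
  · subst h
    rw [kvh3 (by norm_num) (by norm_num)]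
    ring1
  · exact kvh4 h1 h2
theorem kvl5 {p x : ℝ} (h1 : -231 / 1000 ≤ p) (h2 : p ≤ -9 / 50) : dt33.kv p x = (-17419856791 / 50000000000 + (x - 14173 / 20000) * (-26103750613 / 5000000000)) + (-1719370419 / 1000000000 + (x - 14173 / 20000) * (-2823452917 / 100000000)) * p + (-10373529 / 1000000 + (x - 14173 / 20000) * (-3667647 / 100000)) * p ^ 2 := by
  rcases eq_or_lt_of_le h1 with h | h1
  · subst h
    rw [kvh4 (by norm_num) (by norm_num)]
    ring1
  · exact kvh5 h1 h2
theorem kvl6 {p x : ℝ} (h1 : -9 / 50 ≤ p) (h2 : p ≤ -23 / 250) : dt33.kv p x = (-1202543011 / 12500000000 + (x - 14173 / 20000) * (6021221 / 1953125)) + (67673859 / 62500000 + (x - 14173 / 20000) * (20008707 / 312500)) * p + (-2589773 / 1000000 + (x - 14173 / 20000) * (4392159 / 20000)) * p ^ 2 := by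
  rcases eq_or_lt_of_le h1 with h | h1
  · subst h
    rw [kvh5 (by norm_num) (by norm_num)]
    ring1
  · exact kvh6 h1 h2
theorem kvl7 {p x : ℝ} (h1 : -23 / 250 ≤ p) (h2 : p ≤ -1 / 16) : dt33.kv p x = (50932203 / 800000000 + (x - 14173 / 20000) * (-419650421 / 400000000)) + (1823275249 / 400000000 + (x - 14173 / 20000) * (-5159606743 / 200000000)) * p + (3259661 / 200000 + (x - 14173 / 20000) * (-26857627 / 100000)) * p ^ 2 := by
  rcases eq_or_lt_of_le h1 with h | h1
  · subst h
    rw [kvh6 (by norm_num) (by norm_num)]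
    ring1
  · exact kvh7 h1 h2
theorem kvl8 {p x : ℝ} (h1 : -1 / 16 ≤ p) (h2 : p ≤ 1 / 16) : dt33.kv p x = (0) + (25209 / 10000 + (x - 14173 / 20000) * (3887 / 500)) * p := by
  rcases eq_or_lt_of_le h1 with h | h1
  · subst h
    rw [kvh7 (by norm_num) (by norm_num)]
    ring1
  · exact kvh8 h1 h2
theorem kvl9 {p x : ℝ} (h1 : 1 / 16 ≤ p) (h2 : p ≤ 23 / 250) : dt33.kv p x = (-50932203 / 800000000 + (x - 14173 / 20000) * (419650421 / 400000000)) + (1823275249 / 400000000 + (x - 14173 / 20000) * (-5159606743 / 200000000)) * p + (-3259661 / 200000 + (x - 14173 / 20000) * (26857627 / 100000)) * p ^ 2 := by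
  rcases eq_or_lt_of_le h1 with h | h1
  · subst h
    rw [kvh8 (by norm_num) (by norm_num)]
    ring1
  · exact kvh9 h1 h2
theorem kvl10 {p x : ℝ} (h1 : 23 / 250 ≤ p) (h2 : p ≤ 9 / 50) : dt33.kv p x = (1202543011 / 12500000000 + (x - 14173 / 20000) * (-6021221 / 1953125)) + (67673859 / 62500000 + (x - 14173 / 20000) * (20008707 / 312500)) * p + (2589773 / 1000000 + (x - 14173 / 20000) * (-4392159 / 20000)) * p ^ 2 := by
  rcases eq_or_lt_of_le h1 with h | h1
  · subst h
    rw [kvh9 (by norm_num) (by norm_num)]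
    ring1
  · exact kvh10 h1 h2
theorem kvl11 {p x : ℝ} (h1 : 9 / 50 ≤ p) (h2 : p ≤ 231 / 1000) : dt33.kv p x = (17419856791 / 50000000000 + (x - 14173 / 20000) * (26103750613 / 5000000000)) + (-1719370419 / 1000000000 + (x - 14173 / 20000) * (-2823452917 / 100000000)) * p + (10373529 / 1000000 + (x - 14173 / 20000) * (3667647 / 100000)) * p ^ 2 := by
  rcases eq_or_lt_of_le h1 with h | h1
  · subst h
    rw [kvh10 (by norm_num) (by norm_num)]
    ring1
  · exact kvh11 h1 h2
theorem kvl12 {p x : ℝ} (h1 : 231 / 1000 ≤ p) (h2 : p ≤ 283 / 1000) : dt33.kv p x = (-327279924779 / 200000000000 + (x - 14173 / 20000) * (1160930937721 / 50000000000)) + (1546501711 / 100000000 + (x - 14173 / 20000) * (-4601505789 / 25000000)) * p + (-5364423 / 200000 + (x - 14173 / 20000) * (18698077 / 50000)) * p ^ 2 := by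
  rcases eq_or_lt_of_le h1 with h | h1
  · subst h
    rw [kvh11 (by norm_num) (by norm_num)]
    ring1
  · exact kvh12 h1 h2
theorem kvl13 {p x : ℝ} (h1 : 283 / 1000 ≤ p) (h2 : p ≤ 67 / 200) : dt33.kv p x = (83361014503 / 200000000000 + (x - 14173 / 20000) * (-10749608141 / 625000000)) + (477368293 / 500000000 + (x - 14173 / 20000) * (634870541 / 6250000)) * p + (-1185577 / 1000000 + (x - 14173 / 20000) * (-816887 / 6250)) * p ^ 2 := by
  rcases eq_or_lt_of_le h1 with h | h1
  · subst h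
    rw [kvh12 (by norm_num) (by norm_num)]
    ring1
  · exact kvh13 h1 h2
theorem kvl14 {p x : ℝ} (h1 : 67 / 200 ≤ p) (h2 : p ≤ 193 / 500) : dt33.kv p x = (-217460247691 / 50000000000 + (x - 14173 / 20000) * (-69919006381 / 5000000000)) + (14704263881 / 500000000 + (x - 14173 / 20000) * (4119092171 / 50000000)) * p + (-21826961 / 500000 + (x - 14173 / 20000) * (-5102451 / 50000)) * p ^ 2 := by
  rcases eq_or_lt_of_le h1 with h | h1
  · subst h
    rw [kvh13 (by norm_num) (by norm_num)]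
    ring1
  · exact kvh14 h1 h2
theorem kvl15 {p x : ℝ} (h1 : 193 / 500 ≤ p) (h2 : p ≤ 7 / 16) : dt33.kv p x = (92833197897 / 8000000000 + (x - 14173 / 20000) * (-5181260649 / 200000000)) + (-106502682209 / 2000000000 + (x - 14173 / 20000) * (7207823253 / 50000000)) * p + (63418447 / 1000000 + (x - 14173 / 20000) * (-4551699 / 25000)) * p ^ 2 := by
  rcases eq_or_lt_of_le h1 with h | h1
  · subst h
    rw [kvh14 (by norm_num) (by norm_num)]
    ring1
  · exact kvh15 h1 h2
theorem kvl16 {p x : ℝ} (h1 : 7 / 16 ≤ p) (h2 : p ≤ 1 / 2) : dt33.kv p x = (-4276299 / 8000000 + (x - 14173 / 20000) * (83986569 / 4000000)) + (11199 / 5000 + (x - 14173 / 20000) * (-70257 / 1000)) * p + (0 + (x - 14173 / 20000) * (7872 / 125)) * p ^ 2 := by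
  rcases eq_or_lt_of_le h1 with h | h1
  · subst h
    rw [kvh15 (by norm_num) (by norm_num)]
    ring1
  · exact kvh16 h1 h2
theorem kfe {x p : ℝ} (h : |p| ≤ 1 / 2) : kcg.v p x = dt33.kv p x := by
  obtain ⟨h1, h2⟩ := abs_le.1 h
  rcases le_total p (-7 / 16) with g0 | g1000
  · rw [kcl0 (by linarith) g0, kvl0 (by linarith) g0]
  rcases le_total p (-193 / 500) with g1 | g1001
  · rw [kcl1 g1000 g1, kvl1 g1000 g1]
  rcases le_total p (-67 / 200) with g2 | g1002
  · rw [kcl2 g1001 g2, kvl2 g1001 g2]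
  rcases le_total p (-283 / 1000) with g3 | g1003
  · rw [kcl3 g1002 g3, kvl3 g1002 g3]
  rcases le_total p (-231 / 1000) with g4 | g1004
  · rw [kcl4 g1003 g4, kvl4 g1003 g4]
  rcases le_total p (-9 / 50) with g5 | g1005
  · rw [kcl5 g1004 g5, kvl5 g1004 g5]
  rcases le_total p (-23 / 250) with g6 | g1006
  · rw [kcl6 g1005 g6, kvl6 g1005 g6]
  rcases le_total p (-1 / 16) with g7 | g1007
  · rw [kcl7 g1006 g7, kvl7 g1006 g7]
  rcases le_total p (1 / 16) with g8 | g1008
  · rw [kcl8 g1007 g8, kvl8 g1007 g8]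
  rcases le_total p (23 / 250) with g9 | g1009
  · rw [kcl9 g1008 g9, kvl9 g1008 g9]
  rcases le_total p (9 / 50) with g10 | g1010
  · rw [kcl10 g1009 g10, kvl10 g1009 g10]
  rcases le_total p (231 / 1000) with g11 | g1011
  · rw [kcl11 g1010 g11, kvl11 g1010 g11]
  rcases le_total p (283 / 1000) with g12 | g1012
  · rw [kcl12 g1011 g12, kvl12 g1011 g12]
  rcases le_total p (67 / 200) with g13 | g1013
  · rw [kcl13 g1012 g13, kvl13 g1012 g13]
  rcases le_total p (193 / 500) with g14 | g1014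
  · rw [kcl14 g1013 g14, kvl14 g1013 g14]
  rcases le_total p (7 / 16) with g15 | g1015
  · rw [kcl15 g1014 g15, kvl15 g1014 g15]
  · rw [kcl16 g1015 (by linarith), kvl16 g1015 (by linarith)]
theorem odd {x p : ℝ} (h : |p| ≤ 1 / 2) : kcg.v (-p) x = -kcg.v p x := by
  obtain ⟨h1, h2⟩ := abs_le.1 h
  rcases le_total p (-7 / 16) with g0 | g1000
  · rw [kcl0 (by linarith) g0, kcl16 (p := -p) (by linarith) (by linarith)]; ring
  rcases le_total p (-193 / 500) with g1 | g1001
  · rw [kcl1 g1000 g1, kcl15 (p := -p) (by linarith) (by linarith)]; ring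
  rcases le_total p (-67 / 200) with g2 | g1002
  · rw [kcl2 g1001 g2, kcl14 (p := -p) (by linarith) (by linarith)]; ring
  rcases le_total p (-283 / 1000) with g3 | g1003
  · rw [kcl3 g1002 g3, kcl13 (p := -p) (by linarith) (by linarith)]; ring
  rcases le_total p (-231 / 1000) with g4 | g1004
  · rw [kcl4 g1003 g4, kcl12 (p := -p) (by linarith) (by linarith)]; ring
  rcases le_total p (-9 / 50) with g5 | g1005
  · rw [kcl5 g1004 g5, kcl11 (p := -p) (by linarith) (by linarith)]; ring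
  rcases le_total p (-23 / 250) with g6 | g1006
  · rw [kcl6 g1005 g6, kcl10 (p := -p) (by linarith) (by linarith)]; ring
  rcases le_total p (-1 / 16) with g7 | g1007
  · rw [kcl7 g1006 g7, kcl9 (p := -p) (by linarith) (by linarith)]; ring
  rcases le_total p (1 / 16) with g8 | g1008
  · rw [kcl8 g1007 g8, kcl8 (p := -p) (by linarith) (by linarith)]; ring
  rcases le_total p (23 / 250) with g9 | g1009
  · rw [kcl9 g1008 g9, kcl7 (p := -p) (by linarith) (by linarith)]; ring
  rcases le_total p (9 / 50) with g10 | g1010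
  · rw [kcl10 g1009 g10, kcl6 (p := -p) (by linarith) (by linarith)]; ring
  rcases le_total p (231 / 1000) with g11 | g1011
  · rw [kcl11 g1010 g11, kcl5 (p := -p) (by linarith) (by linarith)]; ring
  rcases le_total p (283 / 1000) with g12 | g1012
  · rw [kcl12 g1011 g12, kcl4 (p := -p) (by linarith) (by linarith)]; ring
  rcases le_total p (67 / 200) with g13 | g1013
  · rw [kcl13 g1012 g13, kcl3 (p := -p) (by linarith) (by linarith)]; ring
  rcases le_total p (193 / 500) with g14 | g1014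
  · rw [kcl14 g1013 g14, kcl2 (p := -p) (by linarith) (by linarith)]; ring
  rcases le_total p (7 / 16) with g15 | g1015
  · rw [kcl15 g1014 g15, kcl1 (p := -p) (by linarith) (by linarith)]; ring
  · rw [kcl16 g1015 (by linarith), kcl0 (p := -p) (by linarith) (by linarith)]; ring
theorem ctA : cT (61 / 661) = 1079 / 1322 := by
  unfold cT
  rw [show (3 / 4 * (1 - (61 / 661 : ℝ) ^ 2)) = (570 / 661) ^ 2 by norm_num, Real.sqrt_sq (by norm_num)]
  norm_num
theorem ctB : cT (37 / 206) = 157 / 206 := by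
  unfold cT
  rw [show (3 / 4 * (1 - (37 / 206 : ℝ) ^ 2)) = (351 / 412) ^ 2 by norm_num, Real.sqrt_sq (by norm_num)]
  norm_num
theorem kgA {x : ℝ} : kcg.v (61 / 661) x = (1191608645319431 / 5461512500000000 + (x - 14173 / 20000) * (26096108300213 / 27307562500000)) := by
  rw [kcl10 (by norm_num) (by norm_num)]
  ring
theorem kgB {x : ℝ} : kcg.v (37 / 206) x = (775432173191 / 2072070312500 + (x - 14173 / 20000) * (3534538629533 / 2652250000000)) := by
  rw [kcl10 (by norm_num) (by norm_num)]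
  ring
theorem ka_dt1 (x : ℝ) : dt1.kv (-1 / 2) x = (-4682901 / 8000000 + (x - 14173 / 20000) * (-6448569 / 4000000)) := by
  simp only [dt1, DT.kv, sw1, sl1, sv1]
  ((try push_cast); ring1)
theorem kb_dt1 (x : ℝ) : dt1.kv (-7 / 16) x = (-3563001 / 8000000 + (x - 14173 / 20000) * (-9252819 / 4000000)) := by
  simp only [dt1, DT.kv, sw1, sl1, sv1]
  ((try push_cast); ring1)
theorem ka_dt2 (x : ℝ) : dt2.kv (-7 / 16) x = (-3563001 / 8000000 + (x - 14173 / 20000) * (-9252819 / 4000000)) := by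
  simp only [dt2, DT.kv, sw2, sl2, sv2]
  ((try push_cast); ring1)
theorem kb_dt2 (x : ℝ) : dt2.kv (-193 / 500) x = (-498227 / 1000000 + (x - 14173 / 20000) * (-5221389 / 2000000)) := by
  simp only [dt2, DT.kv, sw2, sl2, sv2]
  ((try push_cast); ring1)
theorem ka_dt18 (x : ℝ) : dt18.kv (-1 / 2) x = (-4682901 / 8000000 + (x - 14173 / 20000) * (-6448569 / 4000000)) :=
  (DT.kv_le (by simp only [Cn.rt_v, Cn.ng_v]; norm_num)).trans (ka_dt1 x)
theorem kb_dt18 (x : ℝ) : dt18.kv (-193 / 500) x = (-498227 / 1000000 + (x - 14173 / 20000) * (-5221389 / 2000000)) :=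
  (DT.kv_gt (by simp only [Cn.rt_v, Cn.ng_v]; norm_num)).trans (kb_dt2 x)
theorem ka_dt3 (x : ℝ) : dt3.kv (-193 / 500) x = (-498227 / 1000000 + (x - 14173 / 20000) * (-5221389 / 2000000)) := by
  simp only [dt3, DT.kv, sw3, sl3, sv3]
  ((try push_cast); ring1)
theorem kb_dt3 (x : ℝ) : dt3.kv (-67 / 200) x = (-12071809 / 20000000 + (x - 14173 / 20000) * (-432333 / 200000)) := by
  simp only [dt3, DT.kv, sw3, sl3, sv3]
  ((try push_cast); ring1)
theorem ka_dt4 (x : ℝ) : dt4.kv (-67 / 200) x = (-12071809 / 20000000 + (x - 14173 / 20000) * (-432333 / 200000)) := by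
  simp only [dt4, DT.kv, sw4, sl4, sv4]
  ((try push_cast); ring1)
theorem kb_dt4 (x : ℝ) : dt4.kv (-283 / 1000) x = (-11840877 / 20000000 + (x - 14173 / 20000) * (-1079779 / 1000000)) := by
  simp only [dt4, DT.kv, sw4, sl4, sv4]
  ((try push_cast); ring1)
theorem ka_dt19 (x : ℝ) : dt19.kv (-193 / 500) x = (-498227 / 1000000 + (x - 14173 / 20000) * (-5221389 / 2000000)) :=
  (DT.kv_le (by simp only [Cn.rt_v, Cn.ng_v]; norm_num)).trans (ka_dt3 x)
theorem kb_dt19 (x : ℝ) : dt19.kv (-283 / 1000) x = (-11840877 / 20000000 + (x - 14173 / 20000) * (-1079779 / 1000000)) :=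
  (DT.kv_gt (by simp only [Cn.rt_v, Cn.ng_v]; norm_num)).trans (kb_dt4 x)
theorem ka_dt20 (x : ℝ) : dt20.kv (-1 / 2) x = (-4682901 / 8000000 + (x - 14173 / 20000) * (-6448569 / 4000000)) :=
  (DT.kv_le (by simp only [Cn.rt_v, Cn.ng_v]; norm_num)).trans (ka_dt18 x)
theorem kb_dt20 (x : ℝ) : dt20.kv (-283 / 1000) x = (-11840877 / 20000000 + (x - 14173 / 20000) * (-1079779 / 1000000)) :=
  (DT.kv_gt (by simp only [Cn.rt_v, Cn.ng_v]; norm_num)).trans (kb_dt19 x)
theorem ka_dt5 (x : ℝ) : dt5.kv (-283 / 1000) x = (-11840877 / 20000000 + (x - 14173 / 20000) * (-1079779 / 1000000)) := by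
  simp only [dt5, DT.kv, sw5, sl5, sv5]
  ((try push_cast); ring1)
theorem kb_dt5 (x : ℝ) : dt5.kv (-231 / 1000) x = (-10095289 / 20000000 + (x - 14173 / 20000) * (-655667 / 1000000)) := by
  simp only [dt5, DT.kv, sw5, sl5, sv5]
  ((try push_cast); ring1)
theorem ka_dt6 (x : ℝ) : dt6.kv (-231 / 1000) x = (-10095289 / 20000000 + (x - 14173 / 20000) * (-655667 / 1000000)) := by
  simp only [dt6, DT.kv, sw6, sl6, sv6]
  ((try push_cast); ring1)
theorem kb_dt6 (x : ℝ) : dt6.kv (-9 / 50) x = (-234383 / 625000 + (x - 14173 / 20000) * (-530741 / 400000)) := by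
  simp only [dt6, DT.kv, sw6, sl6, sv6]
  ((try push_cast); ring1)
theorem ka_dt21 (x : ℝ) : dt21.kv (-283 / 1000) x = (-11840877 / 20000000 + (x - 14173 / 20000) * (-1079779 / 1000000)) :=
  (DT.kv_le (by simp only [Cn.rt_v, Cn.ng_v]; norm_num)).trans (ka_dt5 x)
theorem kb_dt21 (x : ℝ) : dt21.kv (-9 / 50) x = (-234383 / 625000 + (x - 14173 / 20000) * (-530741 / 400000)) :=
  (DT.kv_gt (by simp only [Cn.rt_v, Cn.ng_v]; norm_num)).trans (kb_dt6 x)
theorem ka_dt7 (x : ℝ) : dt7.kv (-9 / 50) x = (-234383 / 625000 + (x - 14173 / 20000) * (-530741 / 400000)) := by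
  simp only [dt7, DT.kv, sw7, sl7, sv7]
  ((try push_cast); ring1)
theorem kb_dt7 (x : ℝ) : dt7.kv (-23 / 250) x = (-136087 / 625000 + (x - 14173 / 20000) * (-1897873 / 2000000)) := by
  simp only [dt7, DT.kv, sw7, sl7, sv7]
  ((try push_cast); ring1)
theorem ka_dt8 (x : ℝ) : dt8.kv (-23 / 250) x = (-136087 / 625000 + (x - 14173 / 20000) * (-1897873 / 2000000)) := by
  simp only [dt8, DT.kv, sw8, sl8, sv8]
  ((try push_cast); ring1)
theorem kb_dt8 (x : ℝ) : dt8.kv (-1 / 16) x = (-25209 / 160000 + (x - 14173 / 20000) * (-3887 / 8000)) := by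
  simp only [dt8, DT.kv, sw8, sl8, sv8]
  ((try push_cast); ring1)
theorem ka_dt22 (x : ℝ) : dt22.kv (-9 / 50) x = (-234383 / 625000 + (x - 14173 / 20000) * (-530741 / 400000)) :=
  (DT.kv_le (by simp only [Cn.rt_v, Cn.ng_v]; norm_num)).trans (ka_dt7 x)
theorem kb_dt22 (x : ℝ) : dt22.kv (-1 / 16) x = (-25209 / 160000 + (x - 14173 / 20000) * (-3887 / 8000)) :=
  (DT.kv_gt (by simp only [Cn.rt_v, Cn.ng_v]; norm_num)).trans (kb_dt8 x)
theorem ka_dt23 (x : ℝ) : dt23.kv (-283 / 1000) x = (-11840877 / 20000000 + (x - 14173 / 20000) * (-1079779 / 1000000)) :=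
  (DT.kv_le (by simp only [Cn.rt_v, Cn.ng_v]; norm_num)).trans (ka_dt21 x)
theorem kb_dt23 (x : ℝ) : dt23.kv (-1 / 16) x = (-25209 / 160000 + (x - 14173 / 20000) * (-3887 / 8000)) :=
  (DT.kv_gt (by simp only [Cn.rt_v, Cn.ng_v]; norm_num)).trans (kb_dt22 x)
theorem ka_dt24 (x : ℝ) : dt24.kv (-1 / 2) x = (-4682901 / 8000000 + (x - 14173 / 20000) * (-6448569 / 4000000)) :=
  (DT.kv_le (by simp only [Cn.rt_v, Cn.ng_v]; norm_num)).trans (ka_dt20 x)
theorem kb_dt24 (x : ℝ) : dt24.kv (-1 / 16) x = (-25209 / 160000 + (x - 14173 / 20000) * (-3887 / 8000)) :=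
  (DT.kv_gt (by simp only [Cn.rt_v, Cn.ng_v]; norm_num)).trans (kb_dt23 x)
theorem ka_dt9 (x : ℝ) : dt9.kv (-1 / 16) x = (-25209 / 160000 + (x - 14173 / 20000) * (-3887 / 8000)) := by
  simp only [dt9, DT.kv, sl9, sv9]
  ((try push_cast); ring1)
theorem kb_dt9 (x : ℝ) : dt9.kv (1 / 16) x = (25209 / 160000 + (x - 14173 / 20000) * (3887 / 8000)) := by
  simp only [dt9, DT.kv, sl9, sv9]
  ((try push_cast); ring1)
theorem ka_dt10 (x : ℝ) : dt10.kv (1 / 16) x = (25209 / 160000 + (x - 14173 / 20000) * (3887 / 8000)) := by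
  simp only [dt10, DT.kv, sw10, sl10, sv10]
  ((try push_cast); ring1)
theorem kb_dt10 (x : ℝ) : dt10.kv (23 / 250) x = (136087 / 625000 + (x - 14173 / 20000) * (1897873 / 2000000)) := by
  simp only [dt10, DT.kv, sw10, sl10, sv10]
  ((try push_cast); ring1)
theorem ka_dt25 (x : ℝ) : dt25.kv (-1 / 16) x = (-25209 / 160000 + (x - 14173 / 20000) * (-3887 / 8000)) :=
  (DT.kv_le (by simp only [Cn.rt_v, Cn.ng_v]; norm_num)).trans (ka_dt9 x)
theorem kb_dt25 (x : ℝ) : dt25.kv (23 / 250) x = (136087 / 625000 + (x - 14173 / 20000) * (1897873 / 2000000)) :=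
  (DT.kv_gt (by simp only [Cn.rt_v, Cn.ng_v]; norm_num)).trans (kb_dt10 x)
theorem ka_dt11 (x : ℝ) : dt11.kv (23 / 250) x = (136087 / 625000 + (x - 14173 / 20000) * (1897873 / 2000000)) := by
  simp only [dt11, DT.kv, sw11, sl11, sv11]
  ((try push_cast); ring1)
theorem kb_dt11 (x : ℝ) : dt11.kv (9 / 50) x = (234383 / 625000 + (x - 14173 / 20000) * (530741 / 400000)) := by
  simp only [dt11, DT.kv, sw11, sl11, sv11]
  ((try push_cast); ring1)
theorem ka_dt12 (x : ℝ) : dt12.kv (9 / 50) x = (234383 / 625000 + (x - 14173 / 20000) * (530741 / 400000)) := by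
  simp only [dt12, DT.kv, sw12, sl12, sv12]
  ((try push_cast); ring1)
theorem kb_dt12 (x : ℝ) : dt12.kv (231 / 1000) x = (10095289 / 20000000 + (x - 14173 / 20000) * (655667 / 1000000)) := by
  simp only [dt12, DT.kv, sw12, sl12, sv12]
  ((try push_cast); ring1)
theorem ka_dt26 (x : ℝ) : dt26.kv (23 / 250) x = (136087 / 625000 + (x - 14173 / 20000) * (1897873 / 2000000)) :=
  (DT.kv_le (by simp only [Cn.rt_v, Cn.ng_v]; norm_num)).trans (ka_dt11 x)
theorem kb_dt26 (x : ℝ) : dt26.kv (231 / 1000) x = (10095289 / 20000000 + (x - 14173 / 20000) * (655667 / 1000000)) :=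
  (DT.kv_gt (by simp only [Cn.rt_v, Cn.ng_v]; norm_num)).trans (kb_dt12 x)
theorem ka_dt27 (x : ℝ) : dt27.kv (-1 / 16) x = (-25209 / 160000 + (x - 14173 / 20000) * (-3887 / 8000)) :=
  (DT.kv_le (by simp only [Cn.rt_v, Cn.ng_v]; norm_num)).trans (ka_dt25 x)
theorem kb_dt27 (x : ℝ) : dt27.kv (231 / 1000) x = (10095289 / 20000000 + (x - 14173 / 20000) * (655667 / 1000000)) :=
  (DT.kv_gt (by simp only [Cn.rt_v, Cn.ng_v]; norm_num)).trans (kb_dt26 x)
theorem ka_dt13 (x : ℝ) : dt13.kv (231 / 1000) x = (10095289 / 20000000 + (x - 14173 / 20000) * (655667 / 1000000)) := by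
  simp only [dt13, DT.kv, sw13, sl13, sv13]
  ((try push_cast); ring1)
theorem kb_dt13 (x : ℝ) : dt13.kv (283 / 1000) x = (11840877 / 20000000 + (x - 14173 / 20000) * (1079779 / 1000000)) := by
  simp only [dt13, DT.kv, sw13, sl13, sv13]
  ((try push_cast); ring1)
theorem ka_dt14 (x : ℝ) : dt14.kv (283 / 1000) x = (11840877 / 20000000 + (x - 14173 / 20000) * (1079779 / 1000000)) := by
  simp only [dt14, DT.kv, sw14, sl14, sv14]
  ((try push_cast); ring1)
theorem kb_dt14 (x : ℝ) : dt14.kv (67 / 200) x = (12071809 / 20000000 + (x - 14173 / 20000) * (432333 / 200000)) := by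
  simp only [dt14, DT.kv, sw14, sl14, sv14]
  ((try push_cast); ring1)
theorem ka_dt28 (x : ℝ) : dt28.kv (231 / 1000) x = (10095289 / 20000000 + (x - 14173 / 20000) * (655667 / 1000000)) :=
  (DT.kv_le (by simp only [Cn.rt_v, Cn.ng_v]; norm_num)).trans (ka_dt13 x)
theorem kb_dt28 (x : ℝ) : dt28.kv (67 / 200) x = (12071809 / 20000000 + (x - 14173 / 20000) * (432333 / 200000)) :=
  (DT.kv_gt (by simp only [Cn.rt_v, Cn.ng_v]; norm_num)).trans (kb_dt14 x)
theorem ka_dt15 (x : ℝ) : dt15.kv (67 / 200) x = (12071809 / 20000000 + (x - 14173 / 20000) * (432333 / 200000)) := by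
  simp only [dt15, DT.kv, sw15, sl15, sv15]
  ((try push_cast); ring1)
theorem kb_dt15 (x : ℝ) : dt15.kv (193 / 500) x = (498227 / 1000000 + (x - 14173 / 20000) * (5221389 / 2000000)) := by
  simp only [dt15, DT.kv, sw15, sl15, sv15]
  ((try push_cast); ring1)
theorem ka_dt16 (x : ℝ) : dt16.kv (193 / 500) x = (498227 / 1000000 + (x - 14173 / 20000) * (5221389 / 2000000)) := by
  simp only [dt16, DT.kv, sw16, sl16, sv16]
  ((try push_cast); ring1)
theorem kb_dt16 (x : ℝ) : dt16.kv (7 / 16) x = (3563001 / 8000000 + (x - 14173 / 20000) * (9252819 / 4000000)) := by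
  simp only [dt16, DT.kv, sw16, sl16, sv16]
  ((try push_cast); ring1)
theorem ka_dt17 (x : ℝ) : dt17.kv (7 / 16) x = (3563001 / 8000000 + (x - 14173 / 20000) * (9252819 / 4000000)) := by
  simp only [dt17, DT.kv, sw17, sl17, sv17]
  ((try push_cast); ring1)
theorem kb_dt17 (x : ℝ) : dt17.kv (1 / 2) x = (4682901 / 8000000 + (x - 14173 / 20000) * (6448569 / 4000000)) := by
  simp only [dt17, DT.kv, sw17, sl17, sv17]
  ((try push_cast); ring1)
theorem ka_dt29 (x : ℝ) : dt29.kv (193 / 500) x = (498227 / 1000000 + (x - 14173 / 20000) * (5221389 / 2000000)) :=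
  (DT.kv_le (by simp only [Cn.rt_v, Cn.ng_v]; norm_num)).trans (ka_dt16 x)
theorem kb_dt29 (x : ℝ) : dt29.kv (1 / 2) x = (4682901 / 8000000 + (x - 14173 / 20000) * (6448569 / 4000000)) :=
  (DT.kv_gt (by simp only [Cn.rt_v, Cn.ng_v]; norm_num)).trans (kb_dt17 x)
theorem ka_dt30 (x : ℝ) : dt30.kv (67 / 200) x = (12071809 / 20000000 + (x - 14173 / 20000) * (432333 / 200000)) :=
  (DT.kv_le (by simp only [Cn.rt_v, Cn.ng_v]; norm_num)).trans (ka_dt15 x)
theorem kb_dt30 (x : ℝ) : dt30.kv (1 / 2) x = (4682901 / 8000000 + (x - 14173 / 20000) * (6448569 / 4000000)) :=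
  (DT.kv_gt (by simp only [Cn.rt_v, Cn.ng_v]; norm_num)).trans (kb_dt29 x)
theorem ka_dt31 (x : ℝ) : dt31.kv (231 / 1000) x = (10095289 / 20000000 + (x - 14173 / 20000) * (655667 / 1000000)) :=
  (DT.kv_le (by simp only [Cn.rt_v, Cn.ng_v]; norm_num)).trans (ka_dt28 x)
theorem kb_dt31 (x : ℝ) : dt31.kv (1 / 2) x = (4682901 / 8000000 + (x - 14173 / 20000) * (6448569 / 4000000)) :=
  (DT.kv_gt (by simp only [Cn.rt_v, Cn.ng_v]; norm_num)).trans (kb_dt30 x)
theorem ka_dt32 (x : ℝ) : dt32.kv (-1 / 16) x = (-25209 / 160000 + (x - 14173 / 20000) * (-3887 / 8000)) :=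
  (DT.kv_le (by simp only [Cn.rt_v, Cn.ng_v]; norm_num)).trans (ka_dt27 x)
theorem kb_dt32 (x : ℝ) : dt32.kv (1 / 2) x = (4682901 / 8000000 + (x - 14173 / 20000) * (6448569 / 4000000)) :=
  (DT.kv_gt (by simp only [Cn.rt_v, Cn.ng_v]; norm_num)).trans (kb_dt31 x)
theorem ka_dt33 (x : ℝ) : dt33.kv (-1 / 2) x = (-4682901 / 8000000 + (x - 14173 / 20000) * (-6448569 / 4000000)) :=
  (DT.kv_le (by simp only [Cn.rt_v, Cn.ng_v]; norm_num)).trans (ka_dt24 x)
theorem kb_dt33 (x : ℝ) : dt33.kv (1 / 2) x = (4682901 / 8000000 + (x - 14173 / 20000) * (6448569 / 4000000)) :=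
  (DT.kv_gt (by simp only [Cn.rt_v, Cn.ng_v]; norm_num)).trans (kb_dt32 x)
theorem ko_dt1 (x : ℝ) : dt1.KOk x := trivial
theorem ko_dt2 (x : ℝ) : dt2.KOk x := trivial
theorem ko_dt18 (x : ℝ) : dt18.KOk x :=
  DT.kOk_node (v := -7 / 16) (by simp only [Cn.rt_v, Cn.ng_v]; norm_num) (kb_dt1 x) (ka_dt2 x) (by ring1) (ko_dt1 x) (ko_dt2 x)
theorem ko_dt3 (x : ℝ) : dt3.KOk x := trivial
theorem ko_dt4 (x : ℝ) : dt4.KOk x := trivial
theorem ko_dt19 (x : ℝ) : dt19.KOk x :=
  DT.kOk_node (v := -67 / 200) (by simp only [Cn.rt_v, Cn.ng_v]; norm_num) (kb_dt3 x) (ka_dt4 x) (by ring1) (ko_dt3 x) (ko_dt4 x)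
theorem ko_dt20 (x : ℝ) : dt20.KOk x :=
  DT.kOk_node (v := -193 / 500) (by simp only [Cn.rt_v, Cn.ng_v]; norm_num) (kb_dt18 x) (ka_dt19 x) (by ring1) (ko_dt18 x) (ko_dt19 x)
theorem ko_dt5 (x : ℝ) : dt5.KOk x := trivial
theorem ko_dt6 (x : ℝ) : dt6.KOk x := trivial
theorem ko_dt21 (x : ℝ) : dt21.KOk x :=
  DT.kOk_node (v := -231 / 1000) (by simp only [Cn.rt_v, Cn.ng_v]; norm_num) (kb_dt5 x) (ka_dt6 x) (by ring1) (ko_dt5 x) (ko_dt6 x)
theorem ko_dt7 (x : ℝ) : dt7.KOk x := trivial
theorem ko_dt8 (x : ℝ) : dt8.KOk x := trivial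
theorem ko_dt22 (x : ℝ) : dt22.KOk x :=
  DT.kOk_node (v := -23 / 250) (by simp only [Cn.rt_v, Cn.ng_v]; norm_num) (kb_dt7 x) (ka_dt8 x) (by ring1) (ko_dt7 x) (ko_dt8 x)
theorem ko_dt23 (x : ℝ) : dt23.KOk x :=
  DT.kOk_node (v := -9 / 50) (by simp only [Cn.rt_v, Cn.ng_v]; norm_num) (kb_dt21 x) (ka_dt22 x) (by ring1) (ko_dt21 x) (ko_dt22 x)
theorem ko_dt24 (x : ℝ) : dt24.KOk x :=
  DT.kOk_node (v := -283 / 1000) (by simp only [Cn.rt_v, Cn.ng_v]; norm_num) (kb_dt20 x) (ka_dt23 x) (by ring1) (ko_dt20 x) (ko_dt23 x)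
theorem ko_dt9 (x : ℝ) : dt9.KOk x := trivial
theorem ko_dt10 (x : ℝ) : dt10.KOk x := trivial
theorem ko_dt25 (x : ℝ) : dt25.KOk x :=
  DT.kOk_node (v := 1 / 16) (by simp only [Cn.rt_v, Cn.ng_v]; norm_num) (kb_dt9 x) (ka_dt10 x) (by ring1) (ko_dt9 x) (ko_dt10 x)
theorem ko_dt11 (x : ℝ) : dt11.KOk x := trivial
theorem ko_dt12 (x : ℝ) : dt12.KOk x := trivial
theorem ko_dt26 (x : ℝ) : dt26.KOk x :=
  DT.kOk_node (v := 9 / 50) (by simp only [Cn.rt_v, Cn.ng_v]; norm_num) (kb_dt11 x) (ka_dt12 x) (by ring1) (ko_dt11 x) (ko_dt12 x)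
theorem ko_dt27 (x : ℝ) : dt27.KOk x :=
  DT.kOk_node (v := 23 / 250) (by simp only [Cn.rt_v, Cn.ng_v]; norm_num) (kb_dt25 x) (ka_dt26 x) (by ring1) (ko_dt25 x) (ko_dt26 x)
theorem ko_dt13 (x : ℝ) : dt13.KOk x := trivial
theorem ko_dt14 (x : ℝ) : dt14.KOk x := trivial
theorem ko_dt28 (x : ℝ) : dt28.KOk x :=
  DT.kOk_node (v := 283 / 1000) (by simp only [Cn.rt_v, Cn.ng_v]; norm_num) (kb_dt13 x) (ka_dt14 x) (by ring1) (ko_dt13 x) (ko_dt14 x)
theorem ko_dt15 (x : ℝ) : dt15.KOk x := trivial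
theorem ko_dt16 (x : ℝ) : dt16.KOk x := trivial
theorem ko_dt17 (x : ℝ) : dt17.KOk x := trivial
theorem ko_dt29 (x : ℝ) : dt29.KOk x :=
  DT.kOk_node (v := 7 / 16) (by simp only [Cn.rt_v, Cn.ng_v]; norm_num) (kb_dt16 x) (ka_dt17 x) (by ring1) (ko_dt16 x) (ko_dt17 x)
theorem ko_dt30 (x : ℝ) : dt30.KOk x :=
  DT.kOk_node (v := 193 / 500) (by simp only [Cn.rt_v, Cn.ng_v]; norm_num) (kb_dt15 x) (ka_dt29 x) (by ring1) (ko_dt15 x) (ko_dt29 x)
theorem ko_dt31 (x : ℝ) : dt31.KOk x :=
  DT.kOk_node (v := 67 / 200) (by simp only [Cn.rt_v, Cn.ng_v]; norm_num) (kb_dt28 x) (ka_dt30 x) (by ring1) (ko_dt28 x) (ko_dt30 x)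
theorem ko_dt32 (x : ℝ) : dt32.KOk x :=
  DT.kOk_node (v := 231 / 1000) (by simp only [Cn.rt_v, Cn.ng_v]; norm_num) (kb_dt27 x) (ka_dt31 x) (by ring1) (ko_dt27 x) (ko_dt31 x)
theorem ko_dt33 (x : ℝ) : dt33.KOk x :=
  DT.kOk_node (v := -1 / 16) (by simp only [Cn.rt_v, Cn.ng_v]; norm_num) (kb_dt24 x) (ka_dt32 x) (by ring1) (ko_dt24 x) (ko_dt32 x)
theorem txl0 {p c x : ℝ} (h1 : -1 / 2 ≤ p) (h2 : p ≤ -23 / 50) : txg.v p c x = dt80.val (fun p x => kcg.v p x) p c x := by
  symm
  refine (DT.val_le (by simp only [Cn.rt_v, Cn.ng_v]; push_cast; linarith)).trans ?_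
  refine (DT.val_le (by simp only [Cn.rt_v, Cn.ng_v]; push_cast; linarith)).trans ?_
  refine (DT.val_le (by simp only [Cn.rt_v, Cn.ng_v]; push_cast; linarith)).trans ?_
  refine (DT.val_le (by simp only [Cn.rt_v, Cn.ng_v]; push_cast; linarith)).trans ?_
  simp only [dt34, DT.val, cloR, sw34, sl34, sv34, txg, txg_4, txg_6, txg_26, txg_29, txg_32, txg_57, txg_101, txg_104, txg_142, txg_184, txg_187, txg_190, txg_227, txg_268, txg_270, txg_308, txg_340, txg_362, txg_363, txg_364, txg_365, txg_416, txg_456, txg_457, txg_498]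
  rcases eq_or_lt_of_le h1 with h | h1
  · subst h
    ((try push_cast); (repeat first | rw [if_pos (by linarith)] | rw [if_neg (by linarith)] | erw [if_pos (by linarith)] | erw [if_neg (by linarith)]); (try push_cast); (try ring1))
  rcases eq_or_lt_of_le h2 with h | h2
  · subst h
    ((try push_cast); (repeat first | rw [if_pos (by linarith)] | rw [if_neg (by linarith)] | erw [if_pos (by linarith)] | erw [if_neg (by linarith)]); (try push_cast); (try ring1))
  · ((try push_cast); (repeat first | rw [if_pos (by linarith)] | rw [if_neg (by linarith)] | erw [if_pos (by linarith)] | erw [if_neg (by linarith)]); (try push_cast); (try ring1))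
theorem txl1 {p c x : ℝ} (h1 : -23 / 50 < p) (h2 : p ≤ -21 / 50) : txg.v p c x = dt80.val (fun p x => kcg.v p x) p c x := by
  symm
  refine (DT.val_le (by simp only [Cn.rt_v, Cn.ng_v]; push_cast; linarith)).trans ?_
  refine (DT.val_le (by simp only [Cn.rt_v, Cn.ng_v]; push_cast; linarith)).trans ?_
  refine (DT.val_le (by simp only [Cn.rt_v, Cn.ng_v]; push_cast; linarith)).trans ?_
  refine (DT.val_gt (by simp only [Cn.rt_v, Cn.ng_v]; push_cast; linarith)).trans ?_
  refine (DT.val_le (by simp only [Cn.rt_v, Cn.ng_v]; push_cast; linarith)).trans ?_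
  simp only [dt35, DT.val, cloR, sw35, sl35, sv35, txg, txg_4, txg_6, txg_26, txg_29, txg_32, txg_57, txg_101, txg_104, txg_142, txg_184, txg_187, txg_190, txg_227, txg_268, txg_270, txg_308, txg_340, txg_362, txg_363, txg_364, txg_365, txg_416, txg_456, txg_457, txg_498]
  rcases eq_or_lt_of_le h2 with h | h2
  · subst h
    ((try push_cast); (repeat first | rw [if_pos (by linarith)] | rw [if_neg (by linarith)] | erw [if_pos (by linarith)] | erw [if_neg (by linarith)]); (try push_cast); (try ring1))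
  · ((try push_cast); (repeat first | rw [if_pos (by linarith)] | rw [if_neg (by linarith)] | erw [if_pos (by linarith)] | erw [if_neg (by linarith)]); (try push_cast); (try ring1))
theorem txl2 {p c x : ℝ} (h1 : -21 / 50 < p) (h2 : p ≤ -19 / 50) : txg.v p c x = dt80.val (fun p x => kcg.v p x) p c x := by
  symm
  refine (DT.val_le (by simp only [Cn.rt_v, Cn.ng_v]; push_cast; linarith)).trans ?_
  refine (DT.val_le (by simp only [Cn.rt_v, Cn.ng_v]; push_cast; linarith)).trans ?_
  refine (DT.val_le (by simp only [Cn.rt_v, Cn.ng_v]; push_cast; linarith)).trans ?_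
  refine (DT.val_gt (by simp only [Cn.rt_v, Cn.ng_v]; push_cast; linarith)).trans ?_
  refine (DT.val_gt (by simp only [Cn.rt_v, Cn.ng_v]; push_cast; linarith)).trans ?_
  simp only [dt36, DT.val, cloR, sw36, sl36, sv36, txg, txg_4, txg_6, txg_26, txg_29, txg_32, txg_57, txg_101, txg_104, txg_142, txg_184, txg_187, txg_190, txg_227, txg_268, txg_270, txg_308, txg_340, txg_362, txg_363, txg_364, txg_365, txg_416, txg_456, txg_457, txg_498]
  rcases eq_or_lt_of_le h2 with h | h2
  · subst h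
    ((try push_cast); (repeat first | rw [if_pos (by linarith)] | rw [if_neg (by linarith)] | erw [if_pos (by linarith)] | erw [if_neg (by linarith)]); (try push_cast); (try ring1))
  · ((try push_cast); (repeat first | rw [if_pos (by linarith)] | rw [if_neg (by linarith)] | erw [if_pos (by linarith)] | erw [if_neg (by linarith)]); (try push_cast); (try ring1))
theorem txl3 {p c x : ℝ} (h1 : -19 / 50 < p) (h2 : p ≤ -17 / 50) : txg.v p c x = dt80.val (fun p x => kcg.v p x) p c x := by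
  symm
  refine (DT.val_le (by simp only [Cn.rt_v, Cn.ng_v]; push_cast; linarith)).trans ?_
  refine (DT.val_le (by simp only [Cn.rt_v, Cn.ng_v]; push_cast; linarith)).trans ?_
  refine (DT.val_gt (by simp only [Cn.rt_v, Cn.ng_v]; push_cast; linarith)).trans ?_
  refine (DT.val_le (by simp only [Cn.rt_v, Cn.ng_v]; push_cast; linarith)).trans ?_
  simp only [dt37, DT.val, cloR, sw37, sl37, sv37, txg, txg_4, txg_6, txg_26, txg_29, txg_32, txg_57, txg_101, txg_104, txg_142, txg_184, txg_187, txg_190, txg_227, txg_268, txg_270, txg_308, txg_340, txg_362, txg_363, txg_364, txg_365, txg_416, txg_456, txg_457, txg_498]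
  rcases eq_or_lt_of_le h2 with h | h2
  · subst h
    ((try push_cast); (repeat first | rw [if_pos (by linarith)] | rw [if_neg (by linarith)] | erw [if_pos (by linarith)] | erw [if_neg (by linarith)]); (try push_cast); (try ring1))
  · ((try push_cast); (repeat first | rw [if_pos (by linarith)] | rw [if_neg (by linarith)] | erw [if_pos (by linarith)] | erw [if_neg (by linarith)]); (try push_cast); (try ring1))
theorem txl4 {p c x : ℝ} (h1 : -17 / 50 < p) (h2 : p ≤ -3 / 10) : txg.v p c x = dt80.val (fun p x => kcg.v p x) p c x := by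
  symm
  refine (DT.val_le (by simp only [Cn.rt_v, Cn.ng_v]; push_cast; linarith)).trans ?_
  refine (DT.val_le (by simp only [Cn.rt_v, Cn.ng_v]; push_cast; linarith)).trans ?_
  refine (DT.val_gt (by simp only [Cn.rt_v, Cn.ng_v]; push_cast; linarith)).trans ?_
  refine (DT.val_gt (by simp only [Cn.rt_v, Cn.ng_v]; push_cast; linarith)).trans ?_
  refine (DT.val_le (by simp only [Cn.rt_v, Cn.ng_v]; push_cast; linarith)).trans ?_
  simp only [dt38, DT.val, cloR, sw38, sl38, sv38, txg, txg_4, txg_6, txg_26, txg_29, txg_32, txg_57, txg_101, txg_104, txg_142, txg_184, txg_187, txg_190, txg_227, txg_268, txg_270, txg_308, txg_340, txg_362, txg_363, txg_364, txg_365, txg_416, txg_456, txg_457, txg_498]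
  rcases eq_or_lt_of_le h2 with h | h2
  · subst h
    ((try push_cast); (repeat first | rw [if_pos (by linarith)] | rw [if_neg (by linarith)] | erw [if_pos (by linarith)] | erw [if_neg (by linarith)]); (try push_cast); (try ring1))
  · ((try push_cast); (repeat first | rw [if_pos (by linarith)] | rw [if_neg (by linarith)] | erw [if_pos (by linarith)] | erw [if_neg (by linarith)]); (try push_cast); (try ring1))
theorem txl5 {p c x : ℝ} (h1 : -3 / 10 < p) (h2 : p ≤ -13 / 50) : txg.v p c x = dt80.val (fun p x => kcg.v p x) p c x := by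
  symm
  refine (DT.val_le (by simp only [Cn.rt_v, Cn.ng_v]; push_cast; linarith)).trans ?_
  refine (DT.val_le (by simp only [Cn.rt_v, Cn.ng_v]; push_cast; linarith)).trans ?_
  refine (DT.val_gt (by simp only [Cn.rt_v, Cn.ng_v]; push_cast; linarith)).trans ?_
  refine (DT.val_gt (by simp only [Cn.rt_v, Cn.ng_v]; push_cast; linarith)).trans ?_
  refine (DT.val_gt (by simp only [Cn.rt_v, Cn.ng_v]; push_cast; linarith)).trans ?_
  simp only [dt39, DT.val, cloR, sw39, sl39, sv39, txg, txg_4, txg_6, txg_26, txg_29, txg_32, txg_57, txg_101, txg_104, txg_142, txg_184, txg_187, txg_190, txg_227, txg_268, txg_270, txg_308, txg_340, txg_362, txg_363, txg_364, txg_365, txg_416, txg_456, txg_457, txg_498]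
  rcases eq_or_lt_of_le h2 with h | h2
  · subst h
    ((try push_cast); (repeat first | rw [if_pos (by linarith)] | rw [if_neg (by linarith)] | erw [if_pos (by linarith)] | erw [if_neg (by linarith)]); (try push_cast); (try ring1))
  · ((try push_cast); (repeat first | rw [if_pos (by linarith)] | rw [if_neg (by linarith)] | erw [if_pos (by linarith)] | erw [if_neg (by linarith)]); (try push_cast); (try ring1))
theorem txl6 {p c x : ℝ} (h1 : -13 / 50 < p) (h2 : p ≤ -11 / 50) : txg.v p c x = dt80.val (fun p x => kcg.v p x) p c x := by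
  symm
  refine (DT.val_le (by simp only [Cn.rt_v, Cn.ng_v]; push_cast; linarith)).trans ?_
  refine (DT.val_gt (by simp only [Cn.rt_v, Cn.ng_v]; push_cast; linarith)).trans ?_
  refine (DT.val_le (by simp only [Cn.rt_v, Cn.ng_v]; push_cast; linarith)).trans ?_
  refine (DT.val_le (by simp only [Cn.rt_v, Cn.ng_v]; push_cast; linarith)).trans ?_
  simp only [dt40, DT.val, cloR, sw40, sl40, sv40, txg, txg_4, txg_6, txg_26, txg_29, txg_32, txg_57, txg_101, txg_104, txg_142, txg_184, txg_187, txg_190, txg_227, txg_268, txg_270, txg_308, txg_340, txg_362, txg_363, txg_364, txg_365, txg_416, txg_456, txg_457, txg_498]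
  rcases eq_or_lt_of_le h2 with h | h2
  · subst h
    ((try push_cast); (repeat first | rw [if_pos (by linarith)] | rw [if_neg (by linarith)] | erw [if_pos (by linarith)] | erw [if_neg (by linarith)]); (try push_cast); (try ring1))
  · ((try push_cast); (repeat first | rw [if_pos (by linarith)] | rw [if_neg (by linarith)] | erw [if_pos (by linarith)] | erw [if_neg (by linarith)]); (try push_cast); (try ring1))
theorem txl7 {p c x : ℝ} (h1 : -11 / 50 < p) (h2 : p ≤ -9 / 50) : txg.v p c x = dt80.val (fun p x => kcg.v p x) p c x := by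
  symm
  refine (DT.val_le (by simp only [Cn.rt_v, Cn.ng_v]; push_cast; linarith)).trans ?_
  refine (DT.val_gt (by simp only [Cn.rt_v, Cn.ng_v]; push_cast; linarith)).trans ?_
  refine (DT.val_le (by simp only [Cn.rt_v, Cn.ng_v]; push_cast; linarith)).trans ?_
  refine (DT.val_gt (by simp only [Cn.rt_v, Cn.ng_v]; push_cast; linarith)).trans ?_
  refine (DT.val_le (by simp only [Cn.rt_v, Cn.ng_v]; push_cast; linarith)).trans ?_
  simp only [dt41, DT.val, cloR, sw41, sl41, sv41, txg, txg_4, txg_6, txg_26, txg_29, txg_32, txg_57, txg_101, txg_104, txg_142, txg_184, txg_187, txg_190, txg_227, txg_268, txg_270, txg_308, txg_340, txg_362, txg_363, txg_364, txg_365, txg_416, txg_456, txg_457, txg_498]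
  rcases eq_or_lt_of_le h2 with h | h2
  · subst h
    ((try push_cast); (repeat first | rw [if_pos (by linarith)] | rw [if_neg (by linarith)] | erw [if_pos (by linarith)] | erw [if_neg (by linarith)]); (try push_cast); (try ring1))
  · ((try push_cast); (repeat first | rw [if_pos (by linarith)] | rw [if_neg (by linarith)] | erw [if_pos (by linarith)] | erw [if_neg (by linarith)]); (try push_cast); (try ring1))
theorem txl8 {p c x : ℝ} (h1 : -9 / 50 < p) (h2 : p ≤ -7 / 50) : txg.v p c x = dt80.val (fun p x => kcg.v p x) p c x := by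
  symm
  refine (DT.val_le (by simp only [Cn.rt_v, Cn.ng_v]; push_cast; linarith)).trans ?_
  refine (DT.val_gt (by simp only [Cn.rt_v, Cn.ng_v]; push_cast; linarith)).trans ?_
  refine (DT.val_le (by simp only [Cn.rt_v, Cn.ng_v]; push_cast; linarith)).trans ?_
  refine (DT.val_gt (by simp only [Cn.rt_v, Cn.ng_v]; push_cast; linarith)).trans ?_
  refine (DT.val_gt (by simp only [Cn.rt_v, Cn.ng_v]; push_cast; linarith)).trans ?_
  simp only [dt42, DT.val, cloR, sw42, sl42, sv42, txg, txg_4, txg_6, txg_26, txg_29, txg_32, txg_57, txg_101, txg_104, txg_142, txg_184, txg_187, txg_190, txg_227, txg_268, txg_270, txg_308, txg_340, txg_362, txg_363, txg_364, txg_365, txg_416, txg_456, txg_457, txg_498]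
  rcases eq_or_lt_of_le h2 with h | h2
  · subst h
    ((try push_cast); (repeat first | rw [if_pos (by linarith)] | rw [if_neg (by linarith)] | erw [if_pos (by linarith)] | erw [if_neg (by linarith)]); (try push_cast); (try ring1))
  · ((try push_cast); (repeat first | rw [if_pos (by linarith)] | rw [if_neg (by linarith)] | erw [if_pos (by linarith)] | erw [if_neg (by linarith)]); (try push_cast); (try ring1))
theorem txl9 {p c x : ℝ} (h1 : -7 / 50 < p) (h2 : p ≤ -1 / 10) : txg.v p c x = dt80.val (fun p x => kcg.v p x) p c x := by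
  symm
  refine (DT.val_le (by simp only [Cn.rt_v, Cn.ng_v]; push_cast; linarith)).trans ?_
  refine (DT.val_gt (by simp only [Cn.rt_v, Cn.ng_v]; push_cast; linarith)).trans ?_
  refine (DT.val_gt (by simp only [Cn.rt_v, Cn.ng_v]; push_cast; linarith)).trans ?_
  refine (DT.val_le (by simp only [Cn.rt_v, Cn.ng_v]; push_cast; linarith)).trans ?_
  simp only [dt43, DT.val, cloR, sw43, sl43, sv43, txg, txg_4, txg_6, txg_26, txg_29, txg_32, txg_57, txg_101, txg_104, txg_142, txg_184, txg_187, txg_190, txg_227, txg_268, txg_270, txg_308, txg_340, txg_362, txg_363, txg_364, txg_365, txg_416, txg_456, txg_457, txg_498]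
  rcases eq_or_lt_of_le h2 with h | h2
  · subst h
    ((try push_cast); (repeat first | rw [if_pos (by linarith)] | rw [if_neg (by linarith)] | erw [if_pos (by linarith)] | erw [if_neg (by linarith)]); (try push_cast); (try ring1))
  · ((try push_cast); (repeat first | rw [if_pos (by linarith)] | rw [if_neg (by linarith)] | erw [if_pos (by linarith)] | erw [if_neg (by linarith)]); (try push_cast); (try ring1))
theorem txl10 {p c x : ℝ} (h1 : -1 / 10 < p) (h2 : p ≤ -3 / 50) : txg.v p c x = dt80.val (fun p x => kcg.v p x) p c x := by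
  symm
  refine (DT.val_le (by simp only [Cn.rt_v, Cn.ng_v]; push_cast; linarith)).trans ?_
  refine (DT.val_gt (by simp only [Cn.rt_v, Cn.ng_v]; push_cast; linarith)).trans ?_
  refine (DT.val_gt (by simp only [Cn.rt_v, Cn.ng_v]; push_cast; linarith)).trans ?_
  refine (DT.val_gt (by simp only [Cn.rt_v, Cn.ng_v]; push_cast; linarith)).trans ?_
  refine (DT.val_le (by simp only [Cn.rt_v, Cn.ng_v]; push_cast; linarith)).trans ?_
  simp only [dt44, DT.val, cloR, sw44, sl44, sv44, txg, txg_4, txg_6, txg_26, txg_29, txg_32, txg_57, txg_101, txg_104, txg_142, txg_184, txg_187, txg_190, txg_227, txg_268, txg_270, txg_308, txg_340, txg_362, txg_363, txg_364, txg_365, txg_416, txg_456, txg_457, txg_498]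
  rcases eq_or_lt_of_le h2 with h | h2
  · subst h
    ((try push_cast); (repeat first | rw [if_pos (by linarith)] | rw [if_neg (by linarith)] | erw [if_pos (by linarith)] | erw [if_neg (by linarith)]); (try push_cast); (try ring1))
  · ((try push_cast); (repeat first | rw [if_pos (by linarith)] | rw [if_neg (by linarith)] | erw [if_pos (by linarith)] | erw [if_neg (by linarith)]); (try push_cast); (try ring1))
theorem txl11 {p c x : ℝ} (h1 : -3 / 50 < p) (h2 : p ≤ -3 / 100) : txg.v p c x = dt80.val (fun p x => kcg.v p x) p c x := by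
  symm
  refine (DT.val_le (by simp only [Cn.rt_v, Cn.ng_v]; push_cast; linarith)).trans ?_
  refine (DT.val_gt (by simp only [Cn.rt_v, Cn.ng_v]; push_cast; linarith)).trans ?_
  refine (DT.val_gt (by simp only [Cn.rt_v, Cn.ng_v]; push_cast; linarith)).trans ?_
  refine (DT.val_gt (by simp only [Cn.rt_v, Cn.ng_v]; push_cast; linarith)).trans ?_
  refine (DT.val_gt (by simp only [Cn.rt_v, Cn.ng_v]; push_cast; linarith)).trans ?_
  simp only [dt45, DT.val, cloR, sw45, sl45, sv45, txg, txg_4, txg_6, txg_26, txg_29, txg_32, txg_57, txg_101, txg_104, txg_142, txg_184, txg_187, txg_190, txg_227, txg_268, txg_270, txg_308, txg_340, txg_362, txg_363, txg_364, txg_365, txg_416, txg_456, txg_457, txg_498]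
  rcases eq_or_lt_of_le h2 with h | h2
  · subst h
    ((try push_cast); (repeat first | rw [if_pos (by linarith)] | rw [if_neg (by linarith)] | erw [if_pos (by linarith)] | erw [if_neg (by linarith)]); (try push_cast); (try ring1))
  · ((try push_cast); (repeat first | rw [if_pos (by linarith)] | rw [if_neg (by linarith)] | erw [if_pos (by linarith)] | erw [if_neg (by linarith)]); (try push_cast); (try ring1))
theorem txl12 {p c x : ℝ} (h1 : -3 / 100 < p) (h2 : p ≤ 3 / 100) : txg.v p c x = dt80.val (fun p x => kcg.v p x) p c x := by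
  symm
  refine (DT.val_gt (by simp only [Cn.rt_v, Cn.ng_v]; push_cast; linarith)).trans ?_
  refine (DT.val_le (by simp only [Cn.rt_v, Cn.ng_v]; push_cast; linarith)).trans ?_
  refine (DT.val_le (by simp only [Cn.rt_v, Cn.ng_v]; push_cast; linarith)).trans ?_
  refine (DT.val_le (by simp only [Cn.rt_v, Cn.ng_v]; push_cast; linarith)).trans ?_
  simp only [dt46, DT.val, cloR, sw46, sl46, sv46, txg, txg_4, txg_6, txg_26, txg_29, txg_32, txg_57, txg_101, txg_104, txg_142, txg_184, txg_187, txg_190, txg_227, txg_268, txg_270, txg_308, txg_340, txg_362, txg_363, txg_364, txg_365, txg_416, txg_456, txg_457, txg_498]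
  rcases eq_or_lt_of_le h2 with h | h2
  · subst h
    ((try push_cast); (repeat first | rw [if_pos (by linarith)] | rw [if_neg (by linarith)] | erw [if_pos (by linarith)] | erw [if_neg (by linarith)]); (try push_cast); (try ring1))
  · ((try push_cast); (repeat first | rw [if_pos (by linarith)] | rw [if_neg (by linarith)] | erw [if_pos (by linarith)] | erw [if_neg (by linarith)]); (try push_cast); (try ring1))
theorem txl13 {p c x : ℝ} (h1 : 3 / 100 < p) (h2 : p ≤ 3 / 50) : txg.v p c x = dt80.val (fun p x => kcg.v p x) p c x := by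
  symm
  refine (DT.val_gt (by simp only [Cn.rt_v, Cn.ng_v]; push_cast; linarith)).trans ?_
  refine (DT.val_le (by simp only [Cn.rt_v, Cn.ng_v]; push_cast; linarith)).trans ?_
  refine (DT.val_le (by simp only [Cn.rt_v, Cn.ng_v]; push_cast; linarith)).trans ?_
  refine (DT.val_gt (by simp only [Cn.rt_v, Cn.ng_v]; push_cast; linarith)).trans ?_
  refine (DT.val_le (by simp only [Cn.rt_v, Cn.ng_v]; push_cast; linarith)).trans ?_
  simp only [dt47, DT.val, cloR, sw47, sl47, sv47, txg, txg_4, txg_6, txg_26, txg_29, txg_32, txg_57, txg_101, txg_104, txg_142, txg_184, txg_187, txg_190, txg_227, txg_268, txg_270, txg_308, txg_340, txg_362, txg_363, txg_364, txg_365, txg_416, txg_456, txg_457, txg_498]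
  rcases eq_or_lt_of_le h2 with h | h2
  · subst h
    ((try push_cast); (repeat first | rw [if_pos (by linarith)] | rw [if_neg (by linarith)] | erw [if_pos (by linarith)] | erw [if_neg (by linarith)]); (try push_cast); (try ring1))
  · ((try push_cast); (repeat first | rw [if_pos (by linarith)] | rw [if_neg (by linarith)] | erw [if_pos (by linarith)] | erw [if_neg (by linarith)]); (try push_cast); (try ring1))
theorem txl14 {p c x : ℝ} (h1 : 3 / 50 < p) (h2 : p ≤ 61 / 661) : txg.v p c x = dt80.val (fun p x => kcg.v p x) p c x := by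
  symm
  refine (DT.val_gt (by simp only [Cn.rt_v, Cn.ng_v]; push_cast; linarith)).trans ?_
  refine (DT.val_le (by simp only [Cn.rt_v, Cn.ng_v]; push_cast; linarith)).trans ?_
  refine (DT.val_le (by simp only [Cn.rt_v, Cn.ng_v]; push_cast; linarith)).trans ?_
  refine (DT.val_gt (by simp only [Cn.rt_v, Cn.ng_v]; push_cast; linarith)).trans ?_
  refine (DT.val_gt (by simp only [Cn.rt_v, Cn.ng_v]; push_cast; linarith)).trans ?_
  simp only [dt48, DT.val, cloR, sw48, sw48_2, sl48, sl48_2, sv48, sv48_2, txg, txg_4, txg_6, txg_26, txg_29, txg_32, txg_57, txg_101, txg_104, txg_142, txg_184, txg_187, txg_190, txg_227, txg_268, txg_270, txg_308, txg_340, txg_362, txg_363, txg_364, txg_365, txg_416, txg_456, txg_457, txg_498]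
  rcases eq_or_lt_of_le h2 with h | h2
  · subst h
    ((try push_cast); (repeat first | rw [if_pos (by linarith)] | rw [if_neg (by linarith)] | erw [if_pos (by linarith)] | erw [if_neg (by linarith)]); (try push_cast); (try ring1))
  · ((try push_cast); (repeat first | rw [if_pos (by linarith)] | rw [if_neg (by linarith)] | erw [if_pos (by linarith)] | erw [if_neg (by linarith)]); (try push_cast); (try ring1))
theorem txl15 {p c x : ℝ} (h1 : 61 / 661 < p) (h2 : p ≤ 37 / 206) : txg.v p c x = dt80.val (fun p x => kcg.v p x) p c x := by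
  symm
  refine (DT.val_gt (by simp only [Cn.rt_v, Cn.ng_v]; push_cast; linarith)).trans ?_
  refine (DT.val_le (by simp only [Cn.rt_v, Cn.ng_v]; push_cast; linarith)).trans ?_
  refine (DT.val_gt (by simp only [Cn.rt_v, Cn.ng_v]; push_cast; linarith)).trans ?_
  refine (DT.val_le (by simp only [Cn.rt_v, Cn.ng_v]; push_cast; linarith)).trans ?_
  simp only [dt49, DT.val, cloR, txg, txg_4, txg_6, txg_26, txg_29, txg_32, txg_57, txg_101, txg_104, txg_142, txg_184, txg_187, txg_190, txg_227, txg_268, txg_270, txg_308, txg_340, txg_362, txg_363, txg_364, txg_365, txg_416, txg_456, txg_457, txg_498]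
  rcases eq_or_lt_of_le h2 with h | h2
  · subst h
    ((try push_cast); (repeat first | rw [if_pos (by linarith)] | rw [if_neg (by linarith)] | erw [if_pos (by linarith)] | erw [if_neg (by linarith)]); (try push_cast); (try ring1))
  · ((try push_cast); (repeat first | rw [if_pos (by linarith)] | rw [if_neg (by linarith)] | erw [if_pos (by linarith)] | erw [if_neg (by linarith)]); (try push_cast); (try ring1))
theorem txl16 {p c x : ℝ} (h1 : 37 / 206 < p) (h2 : p ≤ 11 / 50) : txg.v p c x = dt80.val (fun p x => kcg.v p x) p c x := by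
  symm
  refine (DT.val_gt (by simp only [Cn.rt_v, Cn.ng_v]; push_cast; linarith)).trans ?_
  refine (DT.val_le (by simp only [Cn.rt_v, Cn.ng_v]; push_cast; linarith)).trans ?_
  refine (DT.val_gt (by simp only [Cn.rt_v, Cn.ng_v]; push_cast; linarith)).trans ?_
  refine (DT.val_gt (by simp only [Cn.rt_v, Cn.ng_v]; push_cast; linarith)).trans ?_
  refine (DT.val_le (by simp only [Cn.rt_v, Cn.ng_v]; push_cast; linarith)).trans ?_
  simp only [dt50, DT.val, cloR, sw50, sw50_2, sl50, sl50_2, sv50, sv50_2, txg, txg_4, txg_6, txg_26, txg_29, txg_32, txg_57, txg_101, txg_104, txg_142, txg_184, txg_187, txg_190, txg_227, txg_268, txg_270, txg_308, txg_340, txg_362, txg_363, txg_364, txg_365, txg_416, txg_456, txg_457, txg_498]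
  rcases eq_or_lt_of_le h2 with h | h2
  · subst h
    ((try push_cast); (repeat first | rw [if_pos (by linarith)] | rw [if_neg (by linarith)] | erw [if_pos (by linarith)] | erw [if_neg (by linarith)]); (try push_cast); (try ring1))
  · ((try push_cast); (repeat first | rw [if_pos (by linarith)] | rw [if_neg (by linarith)] | erw [if_pos (by linarith)] | erw [if_neg (by linarith)]); (try push_cast); (try ring1))
theorem txl17 {p c x : ℝ} (h1 : 11 / 50 < p) (h2 : p ≤ 13 / 50) : txg.v p c x = dt80.val (fun p x => kcg.v p x) p c x := by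
  symm
  refine (DT.val_gt (by simp only [Cn.rt_v, Cn.ng_v]; push_cast; linarith)).trans ?_
  refine (DT.val_le (by simp only [Cn.rt_v, Cn.ng_v]; push_cast; linarith)).trans ?_
  refine (DT.val_gt (by simp only [Cn.rt_v, Cn.ng_v]; push_cast; linarith)).trans ?_
  refine (DT.val_gt (by simp only [Cn.rt_v, Cn.ng_v]; push_cast; linarith)).trans ?_
  refine (DT.val_gt (by simp only [Cn.rt_v, Cn.ng_v]; push_cast; linarith)).trans ?_
  simp only [dt51, DT.val, cloR, sw51, sl51, sv51, txg, txg_4, txg_6, txg_26, txg_29, txg_32, txg_57, txg_101, txg_104, txg_142, txg_184, txg_187, txg_190, txg_227, txg_268, txg_270, txg_308, txg_340, txg_362, txg_363, txg_364, txg_365, txg_416, txg_456, txg_457, txg_498]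
  rcases eq_or_lt_of_le h2 with h | h2
  · subst h
    ((try push_cast); (repeat first | rw [if_pos (by linarith)] | rw [if_neg (by linarith)] | erw [if_pos (by linarith)] | erw [if_neg (by linarith)]); (try push_cast); (try ring1))
  · ((try push_cast); (repeat first | rw [if_pos (by linarith)] | rw [if_neg (by linarith)] | erw [if_pos (by linarith)] | erw [if_neg (by linarith)]); (try push_cast); (try ring1))
theorem txl18 {p c x : ℝ} (h1 : 13 / 50 < p) (h2 : p ≤ 3 / 10) : txg.v p c x = dt80.val (fun p x => kcg.v p x) p c x := by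
  symm
  refine (DT.val_gt (by simp only [Cn.rt_v, Cn.ng_v]; push_cast; linarith)).trans ?_
  refine (DT.val_gt (by simp only [Cn.rt_v, Cn.ng_v]; push_cast; linarith)).trans ?_
  refine (DT.val_le (by simp only [Cn.rt_v, Cn.ng_v]; push_cast; linarith)).trans ?_
  refine (DT.val_le (by simp only [Cn.rt_v, Cn.ng_v]; push_cast; linarith)).trans ?_
  simp only [dt52, DT.val, cloR, sw52, sl52, sv52, txg, txg_4, txg_6, txg_26, txg_29, txg_32, txg_57, txg_101, txg_104, txg_142, txg_184, txg_187, txg_190, txg_227, txg_268, txg_270, txg_308, txg_340, txg_362, txg_363, txg_364, txg_365, txg_416, txg_456, txg_457, txg_498]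
  rcases eq_or_lt_of_le h2 with h | h2
  · subst h
    ((try push_cast); (repeat first | rw [if_pos (by linarith)] | rw [if_neg (by linarith)] | erw [if_pos (by linarith)] | erw [if_neg (by linarith)]); (try push_cast); (try ring1))
  · ((try push_cast); (repeat first | rw [if_pos (by linarith)] | rw [if_neg (by linarith)] | erw [if_pos (by linarith)] | erw [if_neg (by linarith)]); (try push_cast); (try ring1))
theorem txl19 {p c x : ℝ} (h1 : 3 / 10 < p) (h2 : p ≤ 17 / 50) : txg.v p c x = dt80.val (fun p x => kcg.v p x) p c x := by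
  symm
  refine (DT.val_gt (by simp only [Cn.rt_v, Cn.ng_v]; push_cast; linarith)).trans ?_
  refine (DT.val_gt (by simp only [Cn.rt_v, Cn.ng_v]; push_cast; linarith)).trans ?_
  refine (DT.val_le (by simp only [Cn.rt_v, Cn.ng_v]; push_cast; linarith)).trans ?_
  refine (DT.val_gt (by simp only [Cn.rt_v, Cn.ng_v]; push_cast; linarith)).trans ?_
  refine (DT.val_le (by simp only [Cn.rt_v, Cn.ng_v]; push_cast; linarith)).trans ?_
  simp only [dt53, DT.val, cloR, sw53, sl53, sv53, txg, txg_4, txg_6, txg_26, txg_29, txg_32, txg_57, txg_101, txg_104, txg_142, txg_184, txg_187, txg_190, txg_227, txg_268, txg_270, txg_308, txg_340, txg_362, txg_363, txg_364, txg_365, txg_416, txg_456, txg_457, txg_498]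
  rcases eq_or_lt_of_le h2 with h | h2
  · subst h
    ((try push_cast); (repeat first | rw [if_pos (by linarith)] | rw [if_neg (by linarith)] | erw [if_pos (by linarith)] | erw [if_neg (by linarith)]); (try push_cast); (try ring1))
  · ((try push_cast); (repeat first | rw [if_pos (by linarith)] | rw [if_neg (by linarith)] | erw [if_pos (by linarith)] | erw [if_neg (by linarith)]); (try push_cast); (try ring1))
theorem txl20 {p c x : ℝ} (h1 : 17 / 50 < p) (h2 : p ≤ 19 / 50) : txg.v p c x = dt80.val (fun p x => kcg.v p x) p c x := by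
  symm
  refine (DT.val_gt (by simp only [Cn.rt_v, Cn.ng_v]; push_cast; linarith)).trans ?_
  refine (DT.val_gt (by simp only [Cn.rt_v, Cn.ng_v]; push_cast; linarith)).trans ?_
  refine (DT.val_le (by simp only [Cn.rt_v, Cn.ng_v]; push_cast; linarith)).trans ?_
  refine (DT.val_gt (by simp only [Cn.rt_v, Cn.ng_v]; push_cast; linarith)).trans ?_
  refine (DT.val_gt (by simp only [Cn.rt_v, Cn.ng_v]; push_cast; linarith)).trans ?_
  simp only [dt54, DT.val, cloR, sw54, sl54, sv54, txg, txg_4, txg_6, txg_26, txg_29, txg_32, txg_57, txg_101, txg_104, txg_142, txg_184, txg_187, txg_190, txg_227, txg_268, txg_270, txg_308, txg_340, txg_362, txg_363, txg_364, txg_365, txg_416, txg_456, txg_457, txg_498]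
  rcases eq_or_lt_of_le h2 with h | h2
  · subst h
    ((try push_cast); (repeat first | rw [if_pos (by linarith)] | rw [if_neg (by linarith)] | erw [if_pos (by linarith)] | erw [if_neg (by linarith)]); (try push_cast); (try ring1))
  · ((try push_cast); (repeat first | rw [if_pos (by linarith)] | rw [if_neg (by linarith)] | erw [if_pos (by linarith)] | erw [if_neg (by linarith)]); (try push_cast); (try ring1))
theorem txl21 {p c x : ℝ} (h1 : 19 / 50 < p) (h2 : p ≤ 21 / 50) : txg.v p c x = dt80.val (fun p x => kcg.v p x) p c x := by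
  symm
  refine (DT.val_gt (by simp only [Cn.rt_v, Cn.ng_v]; push_cast; linarith)).trans ?_
  refine (DT.val_gt (by simp only [Cn.rt_v, Cn.ng_v]; push_cast; linarith)).trans ?_
  refine (DT.val_gt (by simp only [Cn.rt_v, Cn.ng_v]; push_cast; linarith)).trans ?_
  refine (DT.val_le (by simp only [Cn.rt_v, Cn.ng_v]; push_cast; linarith)).trans ?_
  simp only [dt55, DT.val, cloR, sw55, sl55, sv55, txg, txg_4, txg_6, txg_26, txg_29, txg_32, txg_57, txg_101, txg_104, txg_142, txg_184, txg_187, txg_190, txg_227, txg_268, txg_270, txg_308, txg_340, txg_362, txg_363, txg_364, txg_365, txg_416, txg_456, txg_457, txg_498]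
  rcases eq_or_lt_of_le h2 with h | h2
  · subst h
    ((try push_cast); (repeat first | rw [if_pos (by linarith)] | rw [if_neg (by linarith)] | erw [if_pos (by linarith)] | erw [if_neg (by linarith)]); (try push_cast); (try ring1))
  · ((try push_cast); (repeat first | rw [if_pos (by linarith)] | rw [if_neg (by linarith)] | erw [if_pos (by linarith)] | erw [if_neg (by linarith)]); (try push_cast); (try ring1))
theorem txl22 {p c x : ℝ} (h1 : 21 / 50 < p) (h2 : p ≤ 23 / 50) : txg.v p c x = dt80.val (fun p x => kcg.v p x) p c x := by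
  symm
  refine (DT.val_gt (by simp only [Cn.rt_v, Cn.ng_v]; push_cast; linarith)).trans ?_
  refine (DT.val_gt (by simp only [Cn.rt_v, Cn.ng_v]; push_cast; linarith)).trans ?_
  refine (DT.val_gt (by simp only [Cn.rt_v, Cn.ng_v]; push_cast; linarith)).trans ?_
  refine (DT.val_gt (by simp only [Cn.rt_v, Cn.ng_v]; push_cast; linarith)).trans ?_
  refine (DT.val_le (by simp only [Cn.rt_v, Cn.ng_v]; push_cast; linarith)).trans ?_
  simp only [dt56, DT.val, cloR, sw56, sl56, sv56, txg, txg_4, txg_6, txg_26, txg_29, txg_32, txg_57, txg_101, txg_104, txg_142, txg_184, txg_187, txg_190, txg_227, txg_268, txg_270, txg_308, txg_340, txg_362, txg_363, txg_364, txg_365, txg_416, txg_456, txg_457, txg_498]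
  rcases eq_or_lt_of_le h2 with h | h2
  · subst h
    ((try push_cast); (repeat first | rw [if_pos (by linarith)] | rw [if_neg (by linarith)] | erw [if_pos (by linarith)] | erw [if_neg (by linarith)]); (try push_cast); (try ring1))
  · ((try push_cast); (repeat first | rw [if_pos (by linarith)] | rw [if_neg (by linarith)] | erw [if_pos (by linarith)] | erw [if_neg (by linarith)]); (try push_cast); (try ring1))
theorem txl23 {p c x : ℝ} (h1 : 23 / 50 < p) (h2 : p ≤ 1 / 2) : txg.v p c x = dt80.val (fun p x => kcg.v p x) p c x := by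
  symm
  refine (DT.val_gt (by simp only [Cn.rt_v, Cn.ng_v]; push_cast; linarith)).trans ?_
  refine (DT.val_gt (by simp only [Cn.rt_v, Cn.ng_v]; push_cast; linarith)).trans ?_
  refine (DT.val_gt (by simp only [Cn.rt_v, Cn.ng_v]; push_cast; linarith)).trans ?_
  refine (DT.val_gt (by simp only [Cn.rt_v, Cn.ng_v]; push_cast; linarith)).trans ?_
  refine (DT.val_gt (by simp only [Cn.rt_v, Cn.ng_v]; push_cast; linarith)).trans ?_
  simp only [dt57, DT.val, cloR, sw57, sl57, sv57, txg, txg_4, txg_6, txg_26, txg_29, txg_32, txg_57, txg_101, txg_104, txg_142, txg_184, txg_187, txg_190, txg_227, txg_268, txg_270, txg_308, txg_340, txg_362, txg_363, txg_364, txg_365, txg_416, txg_456, txg_457, txg_498]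
  rcases eq_or_lt_of_le h2 with h | h2
  · subst h
    ((try push_cast); (repeat first | rw [if_pos (by linarith)] | rw [if_neg (by linarith)] | erw [if_pos (by linarith)] | erw [if_neg (by linarith)]); (try push_cast); (try ring1))
  · ((try push_cast); (repeat first | rw [if_pos (by linarith)] | rw [if_neg (by linarith)] | erw [if_pos (by linarith)] | erw [if_neg (by linarith)]); (try push_cast); (try ring1))
theorem txe {x : ℝ} (p c : ℝ) (h : |p| ≤ 1 / 2) : txg.v p c x = dt80.val (fun p x => kcg.v p x) p c x := by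
  obtain ⟨h1, h2⟩ := abs_le.1 h
  rcases le_or_gt p (-23 / 50) with g0 | g1000
  · exact txl0 (by linarith) g0
  rcases le_or_gt p (-21 / 50) with g1 | g1001
  · exact txl1 g1000 g1
  rcases le_or_gt p (-19 / 50) with g2 | g1002
  · exact txl2 g1001 g2
  rcases le_or_gt p (-17 / 50) with g3 | g1003
  · exact txl3 g1002 g3
  rcases le_or_gt p (-3 / 10) with g4 | g1004
  · exact txl4 g1003 g4
  rcases le_or_gt p (-13 / 50) with g5 | g1005
  · exact txl5 g1004 g5
  rcases le_or_gt p (-11 / 50) with g6 | g1006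
  · exact txl6 g1005 g6
  rcases le_or_gt p (-9 / 50) with g7 | g1007
  · exact txl7 g1006 g7
  rcases le_or_gt p (-7 / 50) with g8 | g1008
  · exact txl8 g1007 g8
  rcases le_or_gt p (-1 / 10) with g9 | g1009
  · exact txl9 g1008 g9
  rcases le_or_gt p (-3 / 50) with g10 | g1010
  · exact txl10 g1009 g10
  rcases le_or_gt p (-3 / 100) with g11 | g1011
  · exact txl11 g1010 g11
  rcases le_or_gt p (3 / 100) with g12 | g1012
  · exact txl12 g1011 g12
  rcases le_or_gt p (3 / 50) with g13 | g1013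
  · exact txl13 g1012 g13
  rcases le_or_gt p (61 / 661) with g14 | g1014
  · exact txl14 g1013 g14
  rcases le_or_gt p (37 / 206) with g15 | g1015
  · exact txl15 g1014 g15
  rcases le_or_gt p (11 / 50) with g16 | g1016
  · exact txl16 g1015 g16
  rcases le_or_gt p (13 / 50) with g17 | g1017
  · exact txl17 g1016 g17
  rcases le_or_gt p (3 / 10) with g18 | g1018
  · exact txl18 g1017 g18
  rcases le_or_gt p (17 / 50) with g19 | g1019
  · exact txl19 g1018 g19
  rcases le_or_gt p (19 / 50) with g20 | g1020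
  · exact txl20 g1019 g20
  rcases le_or_gt p (21 / 50) with g21 | g1021
  · exact txl21 g1020 g21
  rcases le_or_gt p (23 / 50) with g22 | g1022
  · exact txl22 g1021 g22
  · exact txl23 g1022 (by linarith)
theorem ta_dt34 (x : ℝ) : dt34.val (fun p x => kcg.v p x) (-1 / 2) (cT (-1 / 2)) x = (0) := by
  simp only [dt34, DT.val, sw34, sl34, sv34]
  ((try push_cast); ring1)
theorem tb_dt34 (x : ℝ) : dt34.val (fun p x => kcg.v p x) (-23 / 50) (cT (-23 / 50)) x = (659 / 200000 + (x - 14173 / 20000) * (-5527 / 1000000)) := by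
  simp only [dt34, DT.val, sw34, sl34, sv34]
  ((try push_cast); ring1)
theorem ta_dt35 (x : ℝ) : dt35.val (fun p x => kcg.v p x) (-23 / 50) (cT (-23 / 50)) x = (659 / 200000 + (x - 14173 / 20000) * (-5527 / 1000000)) := by
  simp only [dt35, DT.val, sw35, sl35, sv35]
  ((try push_cast); ring1)
theorem tb_dt35 (x : ℝ) : dt35.val (fun p x => kcg.v p x) (-21 / 50) (cT (-21 / 50)) x = (87787 / 10000000 + (x - 14173 / 20000) * (-46849 / 1000000)) := by
  simp only [dt35, DT.val, sw35, sl35, sv35]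
  ((try push_cast); ring1)
theorem ta_dt36 (x : ℝ) : dt36.val (fun p x => kcg.v p x) (-21 / 50) (cT (-21 / 50)) x = (87787 / 10000000 + (x - 14173 / 20000) * (-46849 / 1000000)) := by
  simp only [dt36, DT.val, sw36, sl36, sv36]
  ((try push_cast); ring1)
theorem tb_dt36 (x : ℝ) : dt36.val (fun p x => kcg.v p x) (-19 / 50) (cT (-19 / 50)) x = (26737 / 2500000 + (x - 14173 / 20000) * (-11151 / 1000000)) := by
  simp only [dt36, DT.val, sw36, sl36, sv36]
  ((try push_cast); ring1)
theorem ta_dt58 (x : ℝ) : dt58.val (fun p x => kcg.v p x) (-23 / 50) (cT (-23 / 50)) x = (659 / 200000 + (x - 14173 / 20000) * (-5527 / 1000000)) :=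
  (DT.val_le (by simp only [Cn.rt_v, Cn.ng_v]; norm_num)).trans (ta_dt35 x)
theorem tb_dt58 (x : ℝ) : dt58.val (fun p x => kcg.v p x) (-19 / 50) (cT (-19 / 50)) x = (26737 / 2500000 + (x - 14173 / 20000) * (-11151 / 1000000)) :=
  (DT.val_gt (by simp only [Cn.rt_v, Cn.ng_v]; norm_num)).trans (tb_dt36 x)
theorem ta_dt59 (x : ℝ) : dt59.val (fun p x => kcg.v p x) (-1 / 2) (cT (-1 / 2)) x = (0) :=
  (DT.val_le (by simp only [Cn.rt_v, Cn.ng_v]; norm_num)).trans (ta_dt34 x)
theorem tb_dt59 (x : ℝ) : dt59.val (fun p x => kcg.v p x) (-19 / 50) (cT (-19 / 50)) x = (26737 / 2500000 + (x - 14173 / 20000) * (-11151 / 1000000)) :=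
  (DT.val_gt (by simp only [Cn.rt_v, Cn.ng_v]; norm_num)).trans (tb_dt58 x)
theorem ta_dt37 (x : ℝ) : dt37.val (fun p x => kcg.v p x) (-19 / 50) (cT (-19 / 50)) x = (26737 / 2500000 + (x - 14173 / 20000) * (-11151 / 1000000)) := by
  simp only [dt37, DT.val, sw37, sl37, sv37]
  ((try push_cast); ring1)
theorem tb_dt37 (x : ℝ) : dt37.val (fun p x => kcg.v p x) (-17 / 50) (cT (-17 / 50)) x = (127843 / 10000000 + (x - 14173 / 20000) * (3867 / 50000)) := by
  simp only [dt37, DT.val, sw37, sl37, sv37]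
  ((try push_cast); ring1)
theorem ta_dt38 (x : ℝ) : dt38.val (fun p x => kcg.v p x) (-17 / 50) (cT (-17 / 50)) x = (127843 / 10000000 + (x - 14173 / 20000) * (3867 / 50000)) := by
  simp only [dt38, DT.val, sw38, sl38, sv38]
  ((try push_cast); ring1)
theorem tb_dt38 (x : ℝ) : dt38.val (fun p x => kcg.v p x) (-3 / 10) (cT (-3 / 10)) x = (203777 / 10000000 + (x - 14173 / 20000) * (153183 / 1000000)) := by
  simp only [dt38, DT.val, sw38, sl38, sv38]
  ((try push_cast); ring1)
theorem ta_dt39 (x : ℝ) : dt39.val (fun p x => kcg.v p x) (-3 / 10) (cT (-3 / 10)) x = (203777 / 10000000 + (x - 14173 / 20000) * (153183 / 1000000)) := by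
  simp only [dt39, DT.val, sw39, sl39, sv39]
  ((try push_cast); ring1)
theorem tb_dt39 (x : ℝ) : dt39.val (fun p x => kcg.v p x) (-13 / 50) (cT (-13 / 50)) x = (40111 / 1250000 + (x - 14173 / 20000) * (36311 / 200000)) := by
  simp only [dt39, DT.val, sw39, sl39, sv39]
  ((try push_cast); ring1)
theorem ta_dt60 (x : ℝ) : dt60.val (fun p x => kcg.v p x) (-17 / 50) (cT (-17 / 50)) x = (127843 / 10000000 + (x - 14173 / 20000) * (3867 / 50000)) :=
  (DT.val_le (by simp only [Cn.rt_v, Cn.ng_v]; norm_num)).trans (ta_dt38 x)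
theorem tb_dt60 (x : ℝ) : dt60.val (fun p x => kcg.v p x) (-13 / 50) (cT (-13 / 50)) x = (40111 / 1250000 + (x - 14173 / 20000) * (36311 / 200000)) :=
  (DT.val_gt (by simp only [Cn.rt_v, Cn.ng_v]; norm_num)).trans (tb_dt39 x)
theorem ta_dt61 (x : ℝ) : dt61.val (fun p x => kcg.v p x) (-19 / 50) (cT (-19 / 50)) x = (26737 / 2500000 + (x - 14173 / 20000) * (-11151 / 1000000)) :=
  (DT.val_le (by simp only [Cn.rt_v, Cn.ng_v]; norm_num)).trans (ta_dt37 x)
theorem tb_dt61 (x : ℝ) : dt61.val (fun p x => kcg.v p x) (-13 / 50) (cT (-13 / 50)) x = (40111 / 1250000 + (x - 14173 / 20000) * (36311 / 200000)) :=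
  (DT.val_gt (by simp only [Cn.rt_v, Cn.ng_v]; norm_num)).trans (tb_dt60 x)
theorem ta_dt62 (x : ℝ) : dt62.val (fun p x => kcg.v p x) (-1 / 2) (cT (-1 / 2)) x = (0) :=
  (DT.val_le (by simp only [Cn.rt_v, Cn.ng_v]; norm_num)).trans (ta_dt59 x)
theorem tb_dt62 (x : ℝ) : dt62.val (fun p x => kcg.v p x) (-13 / 50) (cT (-13 / 50)) x = (40111 / 1250000 + (x - 14173 / 20000) * (36311 / 200000)) :=
  (DT.val_gt (by simp only [Cn.rt_v, Cn.ng_v]; norm_num)).trans (tb_dt61 x)
theorem ta_dt40 (x : ℝ) : dt40.val (fun p x => kcg.v p x) (-13 / 50) (cT (-13 / 50)) x = (40111 / 1250000 + (x - 14173 / 20000) * (36311 / 200000)) := by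
  simp only [dt40, DT.val, sw40, sl40, sv40]
  ((try push_cast); ring1)
theorem tb_dt40 (x : ℝ) : dt40.val (fun p x => kcg.v p x) (-11 / 50) (cT (-11 / 50)) x = (127961 / 2500000 + (x - 14173 / 20000) * (108959 / 500000)) := by
  simp only [dt40, DT.val, sw40, sl40, sv40]
  ((try push_cast); ring1)
theorem ta_dt41 (x : ℝ) : dt41.val (fun p x => kcg.v p x) (-11 / 50) (cT (-11 / 50)) x = (127961 / 2500000 + (x - 14173 / 20000) * (108959 / 500000)) := by
  simp only [dt41, DT.val, sw41, sl41, sv41]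
  ((try push_cast); ring1)
theorem tb_dt41 (x : ℝ) : dt41.val (fun p x => kcg.v p x) (-9 / 50) (cT (-9 / 50)) x = (693173 / 10000000 + (x - 14173 / 20000) * (258803 / 1000000)) := by
  simp only [dt41, DT.val, sw41, sl41, sv41]
  ((try push_cast); ring1)
theorem ta_dt42 (x : ℝ) : dt42.val (fun p x => kcg.v p x) (-9 / 50) (cT (-9 / 50)) x = (693173 / 10000000 + (x - 14173 / 20000) * (258803 / 1000000)) := by
  simp only [dt42, DT.val, sw42, sl42, sv42]
  ((try push_cast); ring1)
theorem tb_dt42 (x : ℝ) : dt42.val (fun p x => kcg.v p x) (-7 / 50) (cT (-7 / 50)) x = (81333 / 1000000 + (x - 14173 / 20000) * (239637 / 1000000)) := by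
  simp only [dt42, DT.val, sw42, sl42, sv42]
  ((try push_cast); ring1)
theorem ta_dt63 (x : ℝ) : dt63.val (fun p x => kcg.v p x) (-11 / 50) (cT (-11 / 50)) x = (127961 / 2500000 + (x - 14173 / 20000) * (108959 / 500000)) :=
  (DT.val_le (by simp only [Cn.rt_v, Cn.ng_v]; norm_num)).trans (ta_dt41 x)
theorem tb_dt63 (x : ℝ) : dt63.val (fun p x => kcg.v p x) (-7 / 50) (cT (-7 / 50)) x = (81333 / 1000000 + (x - 14173 / 20000) * (239637 / 1000000)) :=
  (DT.val_gt (by simp only [Cn.rt_v, Cn.ng_v]; norm_num)).trans (tb_dt42 x)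
theorem ta_dt64 (x : ℝ) : dt64.val (fun p x => kcg.v p x) (-13 / 50) (cT (-13 / 50)) x = (40111 / 1250000 + (x - 14173 / 20000) * (36311 / 200000)) :=
  (DT.val_le (by simp only [Cn.rt_v, Cn.ng_v]; norm_num)).trans (ta_dt40 x)
theorem tb_dt64 (x : ℝ) : dt64.val (fun p x => kcg.v p x) (-7 / 50) (cT (-7 / 50)) x = (81333 / 1000000 + (x - 14173 / 20000) * (239637 / 1000000)) :=
  (DT.val_gt (by simp only [Cn.rt_v, Cn.ng_v]; norm_num)).trans (tb_dt63 x)
theorem ta_dt43 (x : ℝ) : dt43.val (fun p x => kcg.v p x) (-7 / 50) (cT (-7 / 50)) x = (81333 / 1000000 + (x - 14173 / 20000) * (239637 / 1000000)) := by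
  simp only [dt43, DT.val, sw43, sl43, sv43]
  ((try push_cast); ring1)
theorem tb_dt43 (x : ℝ) : dt43.val (fun p x => kcg.v p x) (-1 / 10) (cT (-1 / 10)) x = (900901 / 10000000 + (x - 14173 / 20000) * (185513 / 1000000)) := by
  simp only [dt43, DT.val, sw43, sl43, sv43]
  ((try push_cast); ring1)
theorem ta_dt44 (x : ℝ) : dt44.val (fun p x => kcg.v p x) (-1 / 10) (cT (-1 / 10)) x = (900901 / 10000000 + (x - 14173 / 20000) * (185513 / 1000000)) := by
  simp only [dt44, DT.val, sw44, sl44, sv44]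
  ((try push_cast); ring1)
theorem tb_dt44 (x : ℝ) : dt44.val (fun p x => kcg.v p x) (-3 / 50) (cT (-3 / 50)) x = (194589 / 2000000 + (x - 14173 / 20000) * (6179 / 40000)) := by
  simp only [dt44, DT.val, sw44, sl44, sv44]
  ((try push_cast); ring1)
theorem ta_dt45 (x : ℝ) : dt45.val (fun p x => kcg.v p x) (-3 / 50) (cT (-3 / 50)) x = (194589 / 2000000 + (x - 14173 / 20000) * (6179 / 40000)) := by
  simp only [dt45, DT.val, sw45, sl45, sv45]
  ((try push_cast); ring1)
theorem tb_dt45 (x : ℝ) : dt45.val (fun p x => kcg.v p x) (-3 / 100) (cT (-3 / 100)) x = (41219 / 400000 + (x - 14173 / 20000) * (2342 / 15625)) := by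
  simp only [dt45, DT.val, sw45, sl45, sv45]
  ((try push_cast); ring1)
theorem ta_dt65 (x : ℝ) : dt65.val (fun p x => kcg.v p x) (-1 / 10) (cT (-1 / 10)) x = (900901 / 10000000 + (x - 14173 / 20000) * (185513 / 1000000)) :=
  (DT.val_le (by simp only [Cn.rt_v, Cn.ng_v]; norm_num)).trans (ta_dt44 x)
theorem tb_dt65 (x : ℝ) : dt65.val (fun p x => kcg.v p x) (-3 / 100) (cT (-3 / 100)) x = (41219 / 400000 + (x - 14173 / 20000) * (2342 / 15625)) :=
  (DT.val_gt (by simp only [Cn.rt_v, Cn.ng_v]; norm_num)).trans (tb_dt45 x)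
theorem ta_dt66 (x : ℝ) : dt66.val (fun p x => kcg.v p x) (-7 / 50) (cT (-7 / 50)) x = (81333 / 1000000 + (x - 14173 / 20000) * (239637 / 1000000)) :=
  (DT.val_le (by simp only [Cn.rt_v, Cn.ng_v]; norm_num)).trans (ta_dt43 x)
theorem tb_dt66 (x : ℝ) : dt66.val (fun p x => kcg.v p x) (-3 / 100) (cT (-3 / 100)) x = (41219 / 400000 + (x - 14173 / 20000) * (2342 / 15625)) :=
  (DT.val_gt (by simp only [Cn.rt_v, Cn.ng_v]; norm_num)).trans (tb_dt65 x)
theorem ta_dt67 (x : ℝ) : dt67.val (fun p x => kcg.v p x) (-13 / 50) (cT (-13 / 50)) x = (40111 / 1250000 + (x - 14173 / 20000) * (36311 / 200000)) :=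
  (DT.val_le (by simp only [Cn.rt_v, Cn.ng_v]; norm_num)).trans (ta_dt64 x)
theorem tb_dt67 (x : ℝ) : dt67.val (fun p x => kcg.v p x) (-3 / 100) (cT (-3 / 100)) x = (41219 / 400000 + (x - 14173 / 20000) * (2342 / 15625)) :=
  (DT.val_gt (by simp only [Cn.rt_v, Cn.ng_v]; norm_num)).trans (tb_dt66 x)
theorem ta_dt68 (x : ℝ) : dt68.val (fun p x => kcg.v p x) (-1 / 2) (cT (-1 / 2)) x = (0) :=
  (DT.val_le (by simp only [Cn.rt_v, Cn.ng_v]; norm_num)).trans (ta_dt62 x)
theorem tb_dt68 (x : ℝ) : dt68.val (fun p x => kcg.v p x) (-3 / 100) (cT (-3 / 100)) x = (41219 / 400000 + (x - 14173 / 20000) * (2342 / 15625)) :=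
  (DT.val_gt (by simp only [Cn.rt_v, Cn.ng_v]; norm_num)).trans (tb_dt67 x)
theorem ta_dt46 (x : ℝ) : dt46.val (fun p x => kcg.v p x) (-3 / 100) (cT (-3 / 100)) x = (41219 / 400000 + (x - 14173 / 20000) * (2342 / 15625)) := by
  simp only [dt46, DT.val, sw46, sl46, sv46]
  ((try push_cast); ring1)
theorem tb_dt46 (x : ℝ) : dt46.val (fun p x => kcg.v p x) (3 / 100) (cT (3 / 100)) x = (1119821 / 10000000 + (x - 14173 / 20000) * (120053 / 1000000)) := by
  simp only [dt46, DT.val, sw46, sl46, sv46]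
  ((try push_cast); ring1)
theorem ta_dt47 (x : ℝ) : dt47.val (fun p x => kcg.v p x) (3 / 100) (cT (3 / 100)) x = (1119821 / 10000000 + (x - 14173 / 20000) * (120053 / 1000000)) := by
  simp only [dt47, DT.val, sw47, sl47, sv47]
  ((try push_cast); ring1)
theorem tb_dt47 (x : ℝ) : dt47.val (fun p x => kcg.v p x) (3 / 50) (cT (3 / 50)) x = (230647 / 2000000 + (x - 14173 / 20000) * (93461 / 1000000)) := by
  simp only [dt47, DT.val, sw47, sl47, sv47]
  ((try push_cast); ring1)
theorem ta_dt48 (x : ℝ) : dt48.val (fun p x => kcg.v p x) (3 / 50) (cT (3 / 50)) x = (230647 / 2000000 + (x - 14173 / 20000) * (93461 / 1000000)) := by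
  simp only [dt48, DT.val, sw48, sw48_2, sl48, sl48_2, sv48, sv48_2]
  ((try push_cast); ring1)
theorem tb_dt48 (x : ℝ) : dt48.val (fun p x => kcg.v p x) (61 / 661) (1079 / 1322) x = (2838427148748197748767157 / 23862495030125000000000000 + (x - 14173 / 20000) * (9214445862305747740611 / 119312475150625000000000) + (x - 14173 / 20000) ^ 2 * (2583514721721087 / 9025149406250000)) := by
  simp only [dt48, DT.val, sw48, sw48_2, sl48, sl48_2, sv48, sv48_2]
  ((try push_cast); ring1)
theorem ta_dt69 (x : ℝ) : dt69.val (fun p x => kcg.v p x) (3 / 100) (cT (3 / 100)) x = (1119821 / 10000000 + (x - 14173 / 20000) * (120053 / 1000000)) :=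
  (DT.val_le (by simp only [Cn.rt_v, Cn.ng_v]; norm_num)).trans (ta_dt47 x)
theorem tb_dt69 (x : ℝ) : dt69.val (fun p x => kcg.v p x) (61 / 661) (1079 / 1322) x = (2838427148748197748767157 / 23862495030125000000000000 + (x - 14173 / 20000) * (9214445862305747740611 / 119312475150625000000000) + (x - 14173 / 20000) ^ 2 * (2583514721721087 / 9025149406250000)) :=
  (DT.val_gt (by simp only [Cn.rt_v, Cn.ng_v]; norm_num)).trans (tb_dt48 x)
theorem ta_dt70 (x : ℝ) : dt70.val (fun p x => kcg.v p x) (-3 / 100) (cT (-3 / 100)) x = (41219 / 400000 + (x - 14173 / 20000) * (2342 / 15625)) :=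
  (DT.val_le (by simp only [Cn.rt_v, Cn.ng_v]; norm_num)).trans (ta_dt46 x)
theorem tb_dt70 (x : ℝ) : dt70.val (fun p x => kcg.v p x) (61 / 661) (1079 / 1322) x = (2838427148748197748767157 / 23862495030125000000000000 + (x - 14173 / 20000) * (9214445862305747740611 / 119312475150625000000000) + (x - 14173 / 20000) ^ 2 * (2583514721721087 / 9025149406250000)) :=
  (DT.val_gt (by simp only [Cn.rt_v, Cn.ng_v]; norm_num)).trans (tb_dt69 x)
theorem ta_dt49 (x : ℝ) : dt49.val (fun p x => kcg.v p x) (61 / 661) (1079 / 1322) x = (2838427148748197748767157 / 23862495030125000000000000 + (x - 14173 / 20000) * (9214445862305747740611 / 119312475150625000000000) + (x - 14173 / 20000) ^ 2 * (2583514721721087 / 9025149406250000)) := by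
  simp only [dt49, DT.val, cloR, kgA]
  ring1
theorem tb_dt49 (x : ℝ) : dt49.val (fun p x => kcg.v p x) (37 / 206) (157 / 206) x = (13271520627637107003 / 109912969726562500000 + (x - 14173 / 20000) * (12328796986908103289 / 140688601250000000000) + (x - 14173 / 20000) ^ 2 * (24741770406731 / 68295437500000)) := by
  simp only [dt49, DT.val, cloR, kgB]
  ring1
theorem ta_dt50 (x : ℝ) : dt50.val (fun p x => kcg.v p x) (37 / 206) (157 / 206) x = (13271520627637107003 / 109912969726562500000 + (x - 14173 / 20000) * (12328796986908103289 / 140688601250000000000) + (x - 14173 / 20000) ^ 2 * (24741770406731 / 68295437500000)) := by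
  simp only [dt50, DT.val, sw50, sw50_2, sl50, sl50_2, sv50, sv50_2]
  ((try push_cast); ring1)
theorem tb_dt50 (x : ℝ) : dt50.val (fun p x => kcg.v p x) (11 / 50) (cT (11 / 50)) x = (1121851 / 10000000 + (x - 14173 / 20000) * (17207 / 250000)) := by
  simp only [dt50, DT.val, sw50, sw50_2, sl50, sl50_2, sv50, sv50_2]
  ((try push_cast); ring1)
theorem ta_dt51 (x : ℝ) : dt51.val (fun p x => kcg.v p x) (11 / 50) (cT (11 / 50)) x = (1121851 / 10000000 + (x - 14173 / 20000) * (17207 / 250000)) := by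
  simp only [dt51, DT.val, sw51, sl51, sv51]
  ((try push_cast); ring1)
theorem tb_dt51 (x : ℝ) : dt51.val (fun p x => kcg.v p x) (13 / 50) (cT (13 / 50)) x = (245181 / 2500000 + (x - 14173 / 20000) * (7401 / 125000)) := by
  simp only [dt51, DT.val, sw51, sl51, sv51]
  ((try push_cast); ring1)
theorem ta_dt71 (x : ℝ) : dt71.val (fun p x => kcg.v p x) (37 / 206) (157 / 206) x = (13271520627637107003 / 109912969726562500000 + (x - 14173 / 20000) * (12328796986908103289 / 140688601250000000000) + (x - 14173 / 20000) ^ 2 * (24741770406731 / 68295437500000)) :=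
  (DT.val_le (by simp only [Cn.rt_v, Cn.ng_v]; norm_num)).trans (ta_dt50 x)
theorem tb_dt71 (x : ℝ) : dt71.val (fun p x => kcg.v p x) (13 / 50) (cT (13 / 50)) x = (245181 / 2500000 + (x - 14173 / 20000) * (7401 / 125000)) :=
  (DT.val_gt (by simp only [Cn.rt_v, Cn.ng_v]; norm_num)).trans (tb_dt51 x)
theorem ta_dt72 (x : ℝ) : dt72.val (fun p x => kcg.v p x) (61 / 661) (1079 / 1322) x = (2838427148748197748767157 / 23862495030125000000000000 + (x - 14173 / 20000) * (9214445862305747740611 / 119312475150625000000000) + (x - 14173 / 20000) ^ 2 * (2583514721721087 / 9025149406250000)) :=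
  (DT.val_le (by simp only [Cn.rt_v, Cn.ng_v]; norm_num)).trans (ta_dt49 x)
theorem tb_dt72 (x : ℝ) : dt72.val (fun p x => kcg.v p x) (13 / 50) (cT (13 / 50)) x = (245181 / 2500000 + (x - 14173 / 20000) * (7401 / 125000)) :=
  (DT.val_gt (by simp only [Cn.rt_v, Cn.ng_v]; norm_num)).trans (tb_dt71 x)
theorem ta_dt73 (x : ℝ) : dt73.val (fun p x => kcg.v p x) (-3 / 100) (cT (-3 / 100)) x = (41219 / 400000 + (x - 14173 / 20000) * (2342 / 15625)) :=
  (DT.val_le (by simp only [Cn.rt_v, Cn.ng_v]; norm_num)).trans (ta_dt70 x)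
theorem tb_dt73 (x : ℝ) : dt73.val (fun p x => kcg.v p x) (13 / 50) (cT (13 / 50)) x = (245181 / 2500000 + (x - 14173 / 20000) * (7401 / 125000)) :=
  (DT.val_gt (by simp only [Cn.rt_v, Cn.ng_v]; norm_num)).trans (tb_dt72 x)
theorem ta_dt52 (x : ℝ) : dt52.val (fun p x => kcg.v p x) (13 / 50) (cT (13 / 50)) x = (245181 / 2500000 + (x - 14173 / 20000) * (7401 / 125000)) := by
  simp only [dt52, DT.val, sw52, sl52, sv52]
  ((try push_cast); ring1)
theorem tb_dt52 (x : ℝ) : dt52.val (fun p x => kcg.v p x) (3 / 10) (cT (3 / 10)) x = (52431 / 625000 + (x - 14173 / 20000) * (31317 / 500000)) := by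
  simp only [dt52, DT.val, sw52, sl52, sv52]
  ((try push_cast); ring1)
theorem ta_dt53 (x : ℝ) : dt53.val (fun p x => kcg.v p x) (3 / 10) (cT (3 / 10)) x = (52431 / 625000 + (x - 14173 / 20000) * (31317 / 500000)) := by
  simp only [dt53, DT.val, sw53, sl53, sv53]
  ((try push_cast); ring1)
theorem tb_dt53 (x : ℝ) : dt53.val (fun p x => kcg.v p x) (17 / 50) (cT (17 / 50)) x = (670317 / 10000000 + (x - 14173 / 20000) * (11131 / 200000)) := by
  simp only [dt53, DT.val, sw53, sl53, sv53]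
  ((try push_cast); ring1)
theorem ta_dt54 (x : ℝ) : dt54.val (fun p x => kcg.v p x) (17 / 50) (cT (17 / 50)) x = (670317 / 10000000 + (x - 14173 / 20000) * (11131 / 200000)) := by
  simp only [dt54, DT.val, sw54, sl54, sv54]
  ((try push_cast); ring1)
theorem tb_dt54 (x : ℝ) : dt54.val (fun p x => kcg.v p x) (19 / 50) (cT (19 / 50)) x = (100071 / 2000000 + (x - 14173 / 20000) * (25329 / 500000)) := by
  simp only [dt54, DT.val, sw54, sl54, sv54]
  ((try push_cast); ring1)
theorem ta_dt74 (x : ℝ) : dt74.val (fun p x => kcg.v p x) (3 / 10) (cT (3 / 10)) x = (52431 / 625000 + (x - 14173 / 20000) * (31317 / 500000)) :=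
  (DT.val_le (by simp only [Cn.rt_v, Cn.ng_v]; norm_num)).trans (ta_dt53 x)
theorem tb_dt74 (x : ℝ) : dt74.val (fun p x => kcg.v p x) (19 / 50) (cT (19 / 50)) x = (100071 / 2000000 + (x - 14173 / 20000) * (25329 / 500000)) :=
  (DT.val_gt (by simp only [Cn.rt_v, Cn.ng_v]; norm_num)).trans (tb_dt54 x)
theorem ta_dt75 (x : ℝ) : dt75.val (fun p x => kcg.v p x) (13 / 50) (cT (13 / 50)) x = (245181 / 2500000 + (x - 14173 / 20000) * (7401 / 125000)) :=
  (DT.val_le (by simp only [Cn.rt_v, Cn.ng_v]; norm_num)).trans (ta_dt52 x)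
theorem tb_dt75 (x : ℝ) : dt75.val (fun p x => kcg.v p x) (19 / 50) (cT (19 / 50)) x = (100071 / 2000000 + (x - 14173 / 20000) * (25329 / 500000)) :=
  (DT.val_gt (by simp only [Cn.rt_v, Cn.ng_v]; norm_num)).trans (tb_dt74 x)
theorem ta_dt55 (x : ℝ) : dt55.val (fun p x => kcg.v p x) (19 / 50) (cT (19 / 50)) x = (100071 / 2000000 + (x - 14173 / 20000) * (25329 / 500000)) := by
  simp only [dt55, DT.val, sw55, sl55, sv55]
  ((try push_cast); ring1)
theorem tb_dt55 (x : ℝ) : dt55.val (fun p x => kcg.v p x) (21 / 50) (cT (21 / 50)) x = (334787 / 10000000 + (x - 14173 / 20000) * (791 / 15625)) := by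
  simp only [dt55, DT.val, sw55, sl55, sv55]
  ((try push_cast); ring1)
theorem ta_dt56 (x : ℝ) : dt56.val (fun p x => kcg.v p x) (21 / 50) (cT (21 / 50)) x = (334787 / 10000000 + (x - 14173 / 20000) * (791 / 15625)) := by
  simp only [dt56, DT.val, sw56, sl56, sv56]
  ((try push_cast); ring1)
theorem tb_dt56 (x : ℝ) : dt56.val (fun p x => kcg.v p x) (23 / 50) (cT (23 / 50)) x = (159979 / 10000000 + (x - 14173 / 20000) * (29343 / 500000)) := by
  simp only [dt56, DT.val, sw56, sl56, sv56]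
  ((try push_cast); ring1)
theorem ta_dt57 (x : ℝ) : dt57.val (fun p x => kcg.v p x) (23 / 50) (cT (23 / 50)) x = (159979 / 10000000 + (x - 14173 / 20000) * (29343 / 500000)) := by
  simp only [dt57, DT.val, sw57, sl57, sv57]
  ((try push_cast); ring1)
theorem tb_dt57 (x : ℝ) : dt57.val (fun p x => kcg.v p x) (1 / 2) (cT (1 / 2)) x = (0) := by
  simp only [dt57, DT.val, sw57, sl57, sv57]
  ((try push_cast); ring1)
theorem ta_dt76 (x : ℝ) : dt76.val (fun p x => kcg.v p x) (21 / 50) (cT (21 / 50)) x = (334787 / 10000000 + (x - 14173 / 20000) * (791 / 15625)) :=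
  (DT.val_le (by simp only [Cn.rt_v, Cn.ng_v]; norm_num)).trans (ta_dt56 x)
theorem tb_dt76 (x : ℝ) : dt76.val (fun p x => kcg.v p x) (1 / 2) (cT (1 / 2)) x = (0) :=
  (DT.val_gt (by simp only [Cn.rt_v, Cn.ng_v]; norm_num)).trans (tb_dt57 x)
theorem ta_dt77 (x : ℝ) : dt77.val (fun p x => kcg.v p x) (19 / 50) (cT (19 / 50)) x = (100071 / 2000000 + (x - 14173 / 20000) * (25329 / 500000)) :=
  (DT.val_le (by simp only [Cn.rt_v, Cn.ng_v]; norm_num)).trans (ta_dt55 x)
theorem tb_dt77 (x : ℝ) : dt77.val (fun p x => kcg.v p x) (1 / 2) (cT (1 / 2)) x = (0) :=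
  (DT.val_gt (by simp only [Cn.rt_v, Cn.ng_v]; norm_num)).trans (tb_dt76 x)
theorem ta_dt78 (x : ℝ) : dt78.val (fun p x => kcg.v p x) (13 / 50) (cT (13 / 50)) x = (245181 / 2500000 + (x - 14173 / 20000) * (7401 / 125000)) :=
  (DT.val_le (by simp only [Cn.rt_v, Cn.ng_v]; norm_num)).trans (ta_dt75 x)
theorem tb_dt78 (x : ℝ) : dt78.val (fun p x => kcg.v p x) (1 / 2) (cT (1 / 2)) x = (0) :=
  (DT.val_gt (by simp only [Cn.rt_v, Cn.ng_v]; norm_num)).trans (tb_dt77 x)
theorem ta_dt79 (x : ℝ) : dt79.val (fun p x => kcg.v p x) (-3 / 100) (cT (-3 / 100)) x = (41219 / 400000 + (x - 14173 / 20000) * (2342 / 15625)) :=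
  (DT.val_le (by simp only [Cn.rt_v, Cn.ng_v]; norm_num)).trans (ta_dt73 x)
theorem tb_dt79 (x : ℝ) : dt79.val (fun p x => kcg.v p x) (1 / 2) (cT (1 / 2)) x = (0) :=
  (DT.val_gt (by simp only [Cn.rt_v, Cn.ng_v]; norm_num)).trans (tb_dt78 x)
theorem ta_dt80 (x : ℝ) : dt80.val (fun p x => kcg.v p x) (-1 / 2) (cT (-1 / 2)) x = (0) :=
  (DT.val_le (by simp only [Cn.rt_v, Cn.ng_v]; norm_num)).trans (ta_dt68 x)
theorem tb_dt80 (x : ℝ) : dt80.val (fun p x => kcg.v p x) (1 / 2) (cT (1 / 2)) x = (0) :=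
  (DT.val_gt (by simp only [Cn.rt_v, Cn.ng_v]; norm_num)).trans (tb_dt79 x)
theorem to_dt34 (x : ℝ) : dt34.Ok (fun p x => kcg.v p x) x := trivial
theorem to_dt35 (x : ℝ) : dt35.Ok (fun p x => kcg.v p x) x := trivial
theorem to_dt36 (x : ℝ) : dt36.Ok (fun p x => kcg.v p x) x := trivial
theorem to_dt58 (x : ℝ) : dt58.Ok (fun p x => kcg.v p x) x :=
  DT.ok_node (v := -21 / 50) (by simp only [Cn.rt_v, Cn.ng_v]; norm_num) (by rw [abs_le]; constructor <;> norm_num) rfl (tb_dt35 x) (ta_dt36 x) (by ring1) (to_dt35 x) (to_dt36 x)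
theorem to_dt59 (x : ℝ) : dt59.Ok (fun p x => kcg.v p x) x :=
  DT.ok_node (v := -23 / 50) (by simp only [Cn.rt_v, Cn.ng_v]; norm_num) (by rw [abs_le]; constructor <;> norm_num) rfl (tb_dt34 x) (ta_dt58 x) (by ring1) (to_dt34 x) (to_dt58 x)
theorem to_dt37 (x : ℝ) : dt37.Ok (fun p x => kcg.v p x) x := trivial
theorem to_dt38 (x : ℝ) : dt38.Ok (fun p x => kcg.v p x) x := trivial
theorem to_dt39 (x : ℝ) : dt39.Ok (fun p x => kcg.v p x) x := trivial
theorem to_dt60 (x : ℝ) : dt60.Ok (fun p x => kcg.v p x) x :=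
  DT.ok_node (v := -3 / 10) (by simp only [Cn.rt_v, Cn.ng_v]; norm_num) (by rw [abs_le]; constructor <;> norm_num) rfl (tb_dt38 x) (ta_dt39 x) (by ring1) (to_dt38 x) (to_dt39 x)
theorem to_dt61 (x : ℝ) : dt61.Ok (fun p x => kcg.v p x) x :=
  DT.ok_node (v := -17 / 50) (by simp only [Cn.rt_v, Cn.ng_v]; norm_num) (by rw [abs_le]; constructor <;> norm_num) rfl (tb_dt37 x) (ta_dt60 x) (by ring1) (to_dt37 x) (to_dt60 x)
theorem to_dt62 (x : ℝ) : dt62.Ok (fun p x => kcg.v p x) x :=
  DT.ok_node (v := -19 / 50) (by simp only [Cn.rt_v, Cn.ng_v]; norm_num) (by rw [abs_le]; constructor <;> norm_num) rfl (tb_dt59 x) (ta_dt61 x) (by ring1) (to_dt59 x) (to_dt61 x)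
theorem to_dt40 (x : ℝ) : dt40.Ok (fun p x => kcg.v p x) x := trivial
theorem to_dt41 (x : ℝ) : dt41.Ok (fun p x => kcg.v p x) x := trivial
theorem to_dt42 (x : ℝ) : dt42.Ok (fun p x => kcg.v p x) x := trivial
theorem to_dt63 (x : ℝ) : dt63.Ok (fun p x => kcg.v p x) x :=
  DT.ok_node (v := -9 / 50) (by simp only [Cn.rt_v, Cn.ng_v]; norm_num) (by rw [abs_le]; constructor <;> norm_num) rfl (tb_dt41 x) (ta_dt42 x) (by ring1) (to_dt41 x) (to_dt42 x)
theorem to_dt64 (x : ℝ) : dt64.Ok (fun p x => kcg.v p x) x :=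
  DT.ok_node (v := -11 / 50) (by simp only [Cn.rt_v, Cn.ng_v]; norm_num) (by rw [abs_le]; constructor <;> norm_num) rfl (tb_dt40 x) (ta_dt63 x) (by ring1) (to_dt40 x) (to_dt63 x)
theorem to_dt43 (x : ℝ) : dt43.Ok (fun p x => kcg.v p x) x := trivial
theorem to_dt44 (x : ℝ) : dt44.Ok (fun p x => kcg.v p x) x := trivial
theorem to_dt45 (x : ℝ) : dt45.Ok (fun p x => kcg.v p x) x := trivial
theorem to_dt65 (x : ℝ) : dt65.Ok (fun p x => kcg.v p x) x :=
  DT.ok_node (v := -3 / 50) (by simp only [Cn.rt_v, Cn.ng_v]; norm_num) (by rw [abs_le]; constructor <;> norm_num) rfl (tb_dt44 x) (ta_dt45 x) (by ring1) (to_dt44 x) (to_dt45 x)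
theorem to_dt66 (x : ℝ) : dt66.Ok (fun p x => kcg.v p x) x :=
  DT.ok_node (v := -1 / 10) (by simp only [Cn.rt_v, Cn.ng_v]; norm_num) (by rw [abs_le]; constructor <;> norm_num) rfl (tb_dt43 x) (ta_dt65 x) (by ring1) (to_dt43 x) (to_dt65 x)
theorem to_dt67 (x : ℝ) : dt67.Ok (fun p x => kcg.v p x) x :=
  DT.ok_node (v := -7 / 50) (by simp only [Cn.rt_v, Cn.ng_v]; norm_num) (by rw [abs_le]; constructor <;> norm_num) rfl (tb_dt64 x) (ta_dt66 x) (by ring1) (to_dt64 x) (to_dt66 x)
theorem to_dt68 (x : ℝ) : dt68.Ok (fun p x => kcg.v p x) x :=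
  DT.ok_node (v := -13 / 50) (by simp only [Cn.rt_v, Cn.ng_v]; norm_num) (by rw [abs_le]; constructor <;> norm_num) rfl (tb_dt62 x) (ta_dt67 x) (by ring1) (to_dt62 x) (to_dt67 x)
theorem to_dt46 (x : ℝ) : dt46.Ok (fun p x => kcg.v p x) x := trivial
theorem to_dt47 (x : ℝ) : dt47.Ok (fun p x => kcg.v p x) x := trivial
theorem to_dt48 (x : ℝ) : dt48.Ok (fun p x => kcg.v p x) x := trivial
theorem to_dt69 (x : ℝ) : dt69.Ok (fun p x => kcg.v p x) x :=
  DT.ok_node (v := 3 / 50) (by simp only [Cn.rt_v, Cn.ng_v]; norm_num) (by rw [abs_le]; constructor <;> norm_num) rfl (tb_dt47 x) (ta_dt48 x) (by ring1) (to_dt47 x) (to_dt48 x)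
theorem to_dt70 (x : ℝ) : dt70.Ok (fun p x => kcg.v p x) x :=
  DT.ok_node (v := 3 / 100) (by simp only [Cn.rt_v, Cn.ng_v]; norm_num) (by rw [abs_le]; constructor <;> norm_num) rfl (tb_dt46 x) (ta_dt69 x) (by ring1) (to_dt46 x) (to_dt69 x)
theorem to_dt49 (x : ℝ) : dt49.Ok (fun p x => kcg.v p x) x := trivial
theorem to_dt50 (x : ℝ) : dt50.Ok (fun p x => kcg.v p x) x := trivial
theorem to_dt51 (x : ℝ) : dt51.Ok (fun p x => kcg.v p x) x := trivial
theorem to_dt71 (x : ℝ) : dt71.Ok (fun p x => kcg.v p x) x :=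
  DT.ok_node (v := 11 / 50) (by simp only [Cn.rt_v, Cn.ng_v]; norm_num) (by rw [abs_le]; constructor <;> norm_num) rfl (tb_dt50 x) (ta_dt51 x) (by ring1) (to_dt50 x) (to_dt51 x)
theorem to_dt72 (x : ℝ) : dt72.Ok (fun p x => kcg.v p x) x :=
  DT.ok_node (v := 37 / 206) (by simp only [Cn.rt_v, Cn.ng_v]; norm_num) (by rw [abs_le]; constructor <;> norm_num) ctB (tb_dt49 x) (ta_dt71 x) (by ring1) (to_dt49 x) (to_dt71 x)
theorem to_dt73 (x : ℝ) : dt73.Ok (fun p x => kcg.v p x) x :=
  DT.ok_node (v := 61 / 661) (by simp only [Cn.rt_v, Cn.ng_v]; norm_num) (by rw [abs_le]; constructor <;> norm_num) ctA (tb_dt70 x) (ta_dt72 x) (by ring1) (to_dt70 x) (to_dt72 x)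
theorem to_dt52 (x : ℝ) : dt52.Ok (fun p x => kcg.v p x) x := trivial
theorem to_dt53 (x : ℝ) : dt53.Ok (fun p x => kcg.v p x) x := trivial
theorem to_dt54 (x : ℝ) : dt54.Ok (fun p x => kcg.v p x) x := trivial
theorem to_dt74 (x : ℝ) : dt74.Ok (fun p x => kcg.v p x) x :=
  DT.ok_node (v := 17 / 50) (by simp only [Cn.rt_v, Cn.ng_v]; norm_num) (by rw [abs_le]; constructor <;> norm_num) rfl (tb_dt53 x) (ta_dt54 x) (by ring1) (to_dt53 x) (to_dt54 x)
theorem to_dt75 (x : ℝ) : dt75.Ok (fun p x => kcg.v p x) x :=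
  DT.ok_node (v := 3 / 10) (by simp only [Cn.rt_v, Cn.ng_v]; norm_num) (by rw [abs_le]; constructor <;> norm_num) rfl (tb_dt52 x) (ta_dt74 x) (by ring1) (to_dt52 x) (to_dt74 x)
theorem to_dt55 (x : ℝ) : dt55.Ok (fun p x => kcg.v p x) x := trivial
theorem to_dt56 (x : ℝ) : dt56.Ok (fun p x => kcg.v p x) x := trivial
theorem to_dt57 (x : ℝ) : dt57.Ok (fun p x => kcg.v p x) x := trivial
theorem to_dt76 (x : ℝ) : dt76.Ok (fun p x => kcg.v p x) x :=
  DT.ok_node (v := 23 / 50) (by simp only [Cn.rt_v, Cn.ng_v]; norm_num) (by rw [abs_le]; constructor <;> norm_num) rfl (tb_dt56 x) (ta_dt57 x) (by ring1) (to_dt56 x) (to_dt57 x)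
theorem to_dt77 (x : ℝ) : dt77.Ok (fun p x => kcg.v p x) x :=
  DT.ok_node (v := 21 / 50) (by simp only [Cn.rt_v, Cn.ng_v]; norm_num) (by rw [abs_le]; constructor <;> norm_num) rfl (tb_dt55 x) (ta_dt76 x) (by ring1) (to_dt55 x) (to_dt76 x)
theorem to_dt78 (x : ℝ) : dt78.Ok (fun p x => kcg.v p x) x :=
  DT.ok_node (v := 19 / 50) (by simp only [Cn.rt_v, Cn.ng_v]; norm_num) (by rw [abs_le]; constructor <;> norm_num) rfl (tb_dt75 x) (ta_dt77 x) (by ring1) (to_dt75 x) (to_dt77 x)
theorem to_dt79 (x : ℝ) : dt79.Ok (fun p x => kcg.v p x) x :=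
  DT.ok_node (v := 13 / 50) (by simp only [Cn.rt_v, Cn.ng_v]; norm_num) (by rw [abs_le]; constructor <;> norm_num) rfl (tb_dt73 x) (ta_dt78 x) (by ring1) (to_dt73 x) (to_dt78 x)
theorem to_dt80 (x : ℝ) : dt80.Ok (fun p x => kcg.v p x) x :=
  DT.ok_node (v := -3 / 100) (by simp only [Cn.rt_v, Cn.ng_v]; norm_num) (by rw [abs_le]; constructor <;> norm_num) rfl (tb_dt68 x) (ta_dt79 x) (by ring1) (to_dt68 x) (to_dt79 x)
theorem dok (x : ℝ) : dd.Ok x := ⟨ko_dt33 x, fun p h => kfe h, to_dt80 x⟩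
theorem K0_ (x : ℝ) : ∀ q y, OnC (0 : Fin 6) q y → TightK (tyO q) q (fun p => dd.kf.v p x) (c1n y) y (tK 0 q y x) := by
  refine K0_of (R := fun q y => tK 0 q y x) (kc := fun p => kcg.v p x) ?_ ?_ ?_
  · intro y h
    show tK 0 0 y x = _
    ·
      rw [← (atB00 h).K]
      show kf0q0.v y x = _
      simp only [kf0q0, kf0q0_9, kf0q0_12, c1g_v]
      ((try push_cast); (try simp only [mul_inv]); (try ring_nf))
  · intro y h
    show tK 0 1 y x = _
    ·
      rw [← (atB01 h).K]
      show kf0q1.v y x = _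
      simp only [kf0q1, kf0q1_10, c1g_v]
      ((try push_cast); (try simp only [mul_inv]); (try ring_nf))
  · intro y h
    show tK 0 2 y x = _
    ·
      have ey := yag_v h.1.nonneg (h.2 rfl)
      rw [← (atB02 h).K]
      show kfc02.v (c1n y) x = _
      simp only [kfc02, c1g_v, ey]
      ((try push_cast); (try simp only [mul_inv]); (try ring_nf))
theorem L0_ (x : ℝ) : ∀ q y, OnC (0 : Fin 6) q y → TightL (tyO q) (fun p c => dd.TX.val dd.kf.v p c x) (c1n y) y (tL 0 q y x) := by
  refine L0_of (R := fun q y => tL 0 q y x) (tx := fun p c => txg.v p c x) txe ?_ ?_ ?_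
  · intro y h
    show tL 0 0 y x = _
    ·
      rw [← (atB00 h).L]
      show l0q0.v y x = _
      simp only [l0q0, c1g_v]
      ((try push_cast); (try simp only [mul_inv]); (try ring_nf))
  · intro y h
    show tL 0 1 y x = _
    ·
      rw [← (atB01 h).L]
      show l0q1.v y x = _
      simp only [l0q1, c1g_v]
      ((try push_cast); (try simp only [mul_inv]); (try ring_nf))
  · intro y h
    show tL 0 2 y x = _
    ·
      have ey := yag_v h.1.nonneg (h.2 rfl)
      rw [← (atB02 h).L]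
      show lc02.v (c1n y) x = _
      simp only [lc02, lc02_7, lc02_8, c1g_v, ey]
      ((try push_cast); (try simp only [mul_inv]); (try ring_nf))
theorem Kn_ (x : ℝ) : ∀ q y, InQ q y → TightK (tyN q) q (fun p => dd.kf.v p x) (c3n y) y (tK (Fin.last 5) q y x) := by
  refine Kn_of (R := fun q y => tK 5 q y x) (kc := fun p => kcg.v p x) ?_ ?_ ?_ ?_
  · intro y h
    show tK 5 0 y x = _
    ·
      rw [← (atB50 (onc h (by decide))).K]
      show kf5q0.v y x = _
      simp only [kf5q0, c3g_v]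
      ((try push_cast); (try simp only [mul_inv]); (try ring_nf))
  · intro y h
    show tK 5 1 y x = _
    ·
      rw [← (atB51 (onc h (by decide))).K]
      show kf5q1.v y x = _
      simp only [kf5q1, c3g_v]
      ((try push_cast); (try simp only [mul_inv]); (try ring_nf))
  · intro y h
    show tK 5 2 y x = _
    ·
      rw [← (atB52 (onc h (by decide))).K]
      show kf5q2.v y x = _
      simp only [kf5q2, c3g_v]
      ((try push_cast); (try simp only [mul_inv]); (try ring_nf))
  · intro y h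
    show tK 5 3 y x = _
    ·
      have ey := ycg_v h.nonneg h.le_two
      rw [← (atB53 (onc h (by decide))).K]
      show kfc53.v (c3n y) x = _
      simp only [kfc53, c3g_v, ey]
      ((try push_cast); (try simp only [mul_inv]); (try ring_nf))
theorem Ln_ (x : ℝ) : ∀ q y, InQ q y → TightL (tyN q) (fun p c => dd.TX.val dd.kf.v p c x) (c3n y) y (tL (Fin.last 5) q y x) := by
  refine Ln_of (R := fun q y => tL 5 q y x) (tx := fun p c => txg.v p c x) txe ?_ ?_ ?_ ?_
  · intro y h
    show tL 5 0 y x = _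
    ·
      rw [← (atB50 (onc h (by decide))).L]
      show l5q0.v y x = _
      simp only [l5q0, l5q0_6, l5q0_7, l5q0_8, c3g_v]
      ((try push_cast); (try simp only [mul_inv]); (try ring_nf))
  · intro y h
    show tL 5 1 y x = _
    ·
      rw [← (atB51 (onc h (by decide))).L]
      show l5q1.v y x = _
      simp only [l5q1, l5q1_7, l5q1_8, l5q1_9, c3g_v]
      ((try push_cast); (try simp only [mul_inv]); (try ring_nf))
  · intro y h
    show tL 5 2 y x = _
    ·
      rw [← (atB52 (onc h (by decide))).L]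
      show l5q2.v y x = _
      simp only [l5q2, l5q2_7, l5q2_8, l5q2_9, l5q2_12, l5q2_14, c3g_v]
      ((try push_cast); (try simp only [mul_inv]); (try ring_nf))
  · intro y h
    show tL 5 3 y x = _
    ·
      have ey := ycg_v h.nonneg h.le_two
      rw [← (atB53 (onc h (by decide))).L]
      show lc53.v (c3n y) x = _
      simp only [lc53, lc53_7, lc53_8, lc53_9, lc53_12, lc53_14, c3g_v, ey]
      ((try push_cast); (try simp only [mul_inv]); (try ring_nf))
theorem f0_ : ∀ q y, InQ q y → (ff q).f.v y = crv PP 1 q y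
  | 0, y, _ => ecv1q0.symm
  | 1, y, _ => ecv1q1.symm
  | 2, y, _ => ecv1q2.symm
  | 3, y, h => (ecv1q3 h.1).symm
theorem fn_ : ∀ q y, InQ q y → (fl q).f.v y = crv PP 4 q y
  | 0, y, _ => ecv4q0.symm
  | 1, y, _ => ecv4q1.symm
  | 2, y, _ => ecv4q2.symm
  | 3, y, h => (ecv4q3 h.1).symm
theorem yK00 {y x : ℝ} (h : OnC (0 : Fin 6) 0 y) : tK 0 0 y x = kf0q0.v y x := (atB00 h).K.symm
theorem yK10 {y x : ℝ} (h : InQ 0 y) : tK 1 0 y x = kf1q0.v y x := (atB10 (onc h (by decide))).K.symm
theorem yK01 {y x : ℝ} (h : OnC (0 : Fin 6) 1 y) : tK 0 1 y x = kf0q1.v y x := (atB01 h).K.symm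
theorem yK11 {y x : ℝ} (h : InQ 1 y) : tK 1 1 y x = kf1q1.v y x := (atB11 (onc h (by decide))).K.symm
theorem yK02 {y x : ℝ} (h : OnC (0 : Fin 6) 2 y) : tK 0 2 y x = kf0q2.v y x := by
  rw [← (atB02 h).K]
  show kfc02.v (c1n y) x = _
  have ey := yag_v h.1.nonneg (h.2 rfl)
  simp only [kfc02, kf0q2, ey, c1g_v, c3g_v, swg_v]
  ((try push_cast); (try ring_nf))
theorem yK12 {y x : ℝ} (h : InQ 2 y) : tK 1 2 y x = kf1q2.v y x := (atB12 (onc h (by decide))).K.symm
theorem yK50 {y x : ℝ} (h : InQ 0 y) : tK 5 0 y x = kf5q0.v y x := (atB50 (onc h (by decide))).K.symm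
theorem yK40 {y x : ℝ} (h : InQ 0 y) : tK 4 0 y x = kf4q0.v y x := (atB40 (onc h (by decide))).K.symm
theorem yK51 {y x : ℝ} (h : InQ 1 y) : tK 5 1 y x = kf5q1.v y x := (atB51 (onc h (by decide))).K.symm
theorem yK41 {y x : ℝ} (h : InQ 1 y) : tK 4 1 y x = kf4q1.v y x := (atB41 (onc h (by decide))).K.symm
theorem yK52 {y x : ℝ} (h : InQ 2 y) : tK 5 2 y x = kf5q2.v y x := (atB52 (onc h (by decide))).K.symm
theorem yK42 {y x : ℝ} (h : InQ 2 y) : tK 4 2 y x = kf4q2.v y x := (atB42 (onc h (by decide))).K.symm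
theorem yK53 {y x : ℝ} (h : InQ 3 y) : tK 5 3 y x = kf5q3.v y x := by
  rw [← (atB53 (onc h (by decide))).K]
  show kfc53.v (c3n y) x = _
  have ey := ycg_v h.nonneg h.le_two
  simp only [kfc53, kf5q3, ey, c1g_v, c3g_v, swg_v]
  ((try push_cast); (try ring_nf))
theorem yK43 {y x : ℝ} (h : InQ 3 y) : tK 4 3 y x = kf4q3.v y x := by
  rw [← (atB43 (onc h (by decide))).K]
  show kfc43.v (c3n y) x = _
  have ey := ycg_v h.nonneg h.le_two
  simp only [kfc43, kfc43_11, kf4q3, kf4q3_4, cv4r, ey, c1g_v, c3g_v, swg_v]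
  ((try push_cast); (try ring_nf))
theorem yL00 {y x : ℝ} (h : OnC (0 : Fin 6) 0 y) : tL 0 0 y x = l0q0.v y x := (atB00 h).L.symm
theorem yL10 {y x : ℝ} (h : InQ 0 y) : tL 1 0 y x = l1q0.v y x := (atB10 (onc h (by decide))).L.symm
theorem yL01 {y x : ℝ} (h : OnC (0 : Fin 6) 1 y) : tL 0 1 y x = l0q1.v y x := (atB01 h).L.symm
theorem yL11 {y x : ℝ} (h : InQ 1 y) : tL 1 1 y x = l1q1.v y x := (atB11 (onc h (by decide))).L.symm
theorem yL02 {y x : ℝ} (h : OnC (0 : Fin 6) 2 y) : tL 0 2 y x = l0q2.v y x := by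
  rw [← (atB02 h).L]
  show lc02.v (c1n y) x = _
  have ey := yag_v h.1.nonneg (h.2 rfl)
  simp only [lc02, lc02_7, lc02_8, l0q2, l0q2_7, l0q2_8, ey, c1g_v, c3g_v, swg_v]
  ((try push_cast); (try ring_nf))
theorem yL12 {y x : ℝ} (h : InQ 2 y) : tL 1 2 y x = l1q2.v y x := (atB12 (onc h (by decide))).L.symm
theorem yL50 {y x : ℝ} (h : InQ 0 y) : tL 5 0 y x = l5q0.v y x := (atB50 (onc h (by decide))).L.symm
theorem yL40 {y x : ℝ} (h : InQ 0 y) : tL 4 0 y x = l4q0.v y x := (atB40 (onc h (by decide))).L.symm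
theorem yL51 {y x : ℝ} (h : InQ 1 y) : tL 5 1 y x = l5q1.v y x := (atB51 (onc h (by decide))).L.symm
theorem yL41 {y x : ℝ} (h : InQ 1 y) : tL 4 1 y x = l4q1.v y x := (atB41 (onc h (by decide))).L.symm
theorem yL52 {y x : ℝ} (h : InQ 2 y) : tL 5 2 y x = l5q2.v y x := (atB52 (onc h (by decide))).L.symm
theorem yL42 {y x : ℝ} (h : InQ 2 y) : tL 4 2 y x = l4q2.v y x := (atB42 (onc h (by decide))).L.symm
theorem yL53 {y x : ℝ} (h : InQ 3 y) : tL 5 3 y x = l5q3.v y x := by
  rw [← (atB53 (onc h (by decide))).L]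
  show lc53.v (c3n y) x = _
  have ey := ycg_v h.nonneg h.le_two
  simp only [lc53, lc53_7, lc53_8, lc53_9, lc53_12, lc53_14, l5q3, l5q3_7, l5q3_8, l5q3_9, l5q3_12, l5q3_14, ey, c1g_v, c3g_v, swg_v]
  ((try push_cast); (try ring_nf))
theorem yL43 {y x : ℝ} (h : InQ 3 y) : tL 4 3 y x = l4q3.v y x := by
  rw [← (atB43 (onc h (by decide))).L]
  show lc43.v (c3n y) x = _
  have ey := ycg_v h.nonneg h.le_two
  simp only [lc43, lc43_11, l4q3, l4q3_4, cv4r, ey, c1g_v, c3g_v, swg_v]
  ((try push_cast); (try ring_nf))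
theorem sK0_ (x : ℝ) : ∀ q y, OnC (0 : Fin 6) q y → c1n y < crv PP 1 q y →
    (ff q).SK.v y x * (crv PP 1 q y - c1n y) = tK 1 q y x - tK 0 q y x := by
  intro q y h hlt
  rcases onC_q h with rfl | rfl | rfl
  · rw [yK10 h.1, yK00 h]
    rw [ecv1q0, ← c1g_v] at hlt ⊢
    have hd : 0 < cv1m.v y - c1g.v y := sub_pos.2 hlt
    have hi := inv_mul_cancel₀ hd.ne'
    show skf0.v y x * _ = _
    simp only [skf0, kf1q0]
    (try push_cast)
    linear_combination (c1g.v y * bf1q0.v y x - kf0q0.v y x) * hi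
  · rw [yK11 h.1, yK01 h]
    rw [ecv1q1, ← c1g_v] at hlt ⊢
    have hd : 0 < cv1m.v y - c1g.v y := sub_pos.2 hlt
    have hi := inv_mul_cancel₀ hd.ne'
    show skf1.v y x * _ = _
    simp only [skf1, kf1q1]
    (try push_cast)
    linear_combination (c1g.v y * bf1q1.v y x - kf0q1.v y x) * hi
  · rw [yK12 h.1, yK02 h]
    rw [ecv1q2, ← c1g_v] at hlt ⊢
    have hd : 0 < cv1p.v y - c1g.v y := sub_pos.2 hlt
    have hi := inv_mul_cancel₀ hd.ne'
    have hb : |c1g.v y| ≤ 1 / 2 := by rw [c1g_v]; exact bnd_O h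
    have eo := odd (x := x) hb
    show skf2.v y x * _ = _
    simp only [skf2, kf1q2, kf0q2, eo]
    (try push_cast)
    linear_combination (c1g.v y * (bf1q2.v y x - 1) + (y - 1) * kcg.v (c1g.v y) x) * hi
theorem sX0_ (x : ℝ) : ∀ q y, OnC (0 : Fin 6) q y → c1n y < crv PP 1 q y →
    (ff q).SX.v y x * (crv PP 1 q y - c1n y) = tL 1 q y x - tL 0 q y x := by
  intro q y h hlt
  rcases onC_q h with rfl | rfl | rfl
  · rw [yL10 h.1, yL00 h]
    rw [ecv1q0, ← c1g_v] at hlt ⊢
    have hd : 0 < cv1m.v y - c1g.v y := sub_pos.2 hlt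
    have hi := inv_mul_cancel₀ hd.ne'
    show sxf0.v y x * _ = _
    simp only [sxf0]
    (try push_cast)
    linear_combination (l1q0.v y x - l0q0.v y x) * hi
  · rw [yL11 h.1, yL01 h]
    rw [ecv1q1, ← c1g_v] at hlt ⊢
    have hd : 0 < cv1m.v y - c1g.v y := sub_pos.2 hlt
    have hi := inv_mul_cancel₀ hd.ne'
    show sxf1.v y x * _ = _
    simp only [sxf1]
    (try push_cast)
    linear_combination (l1q1.v y x - l0q1.v y x) * hi
  · rw [yL12 h.1, yL02 h]
    rw [ecv1q2, ← c1g_v] at hlt ⊢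
    have hd : 0 < cv1p.v y - c1g.v y := sub_pos.2 hlt
    have hi := inv_mul_cancel₀ hd.ne'
    show sxf2.v y x * _ = _
    simp only [sxf2]
    (try push_cast)
    linear_combination (l1q2.v y x - l0q2.v y x) * hi
theorem sKn_ (x : ℝ) : ∀ q y, InQ q y → crv PP 4 q y < c3n y →
    (fl q).SK.v y x * (c3n y - crv PP 4 q y) = tK 5 q y x - tK 4 q y x := by
  intro q y h hlt
  match q, h with
  | 0, h =>
    rw [yK50 h, yK40 h]
    rw [ecv4q0, ← c3g_v] at hlt ⊢
    have hd : 0 < c3g.v y - cv4m.v y := sub_pos.2 hlt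
    have hi := inv_mul_cancel₀ hd.ne'
    show skl0.v y x * _ = _
    simp only [skl0, kf4q0]
    (try push_cast)
    linear_combination (kf5q0.v y x - c3g.v y * bf4q0.v y x) * hi
  | 1, h =>
    rw [yK51 h, yK41 h]
    rw [ecv4q1, ← c3g_v] at hlt ⊢
    have hd : 0 < c3g.v y - cv4m.v y := sub_pos.2 hlt
    have hi := inv_mul_cancel₀ hd.ne'
    show skl1.v y x * _ = _
    simp only [skl1, kf4q1]
    (try push_cast)
    linear_combination (kf5q1.v y x - c3g.v y * bf4q1.v y x) * hi
  | 2, h =>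
    rw [yK52 h, yK42 h]
    rw [ecv4q2, ← c3g_v] at hlt ⊢
    have hd : 0 < c3g.v y - cv4p.v y := sub_pos.2 hlt
    have hi := inv_mul_cancel₀ hd.ne'
    show skl2.v y x * _ = _
    simp only [skl2, kf4q2]
    (try push_cast)
    linear_combination (kf5q2.v y x - c3g.v y * bf4q2.v y x) * hi
  | 3, h =>
    rw [yK53 h, yK43 h]
    rw [ecv4q3 h.1, ← c3g_v] at hlt ⊢
    have hd : 0 < c3g.v y - cv4r.v y := sub_pos.2 hlt
    have hi := inv_mul_cancel₀ hd.ne'
    have hB : kf4q3.v y x = cv4r.v y * bf4q3.v y x := by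
      simp only [kf4q3, kf4q3_4, bf4q3, bf4q3_3]
    show skl3.v y x * _ = _
    simp only [skl3, hB]
    (try push_cast)
    linear_combination (kf5q3.v y x - c3g.v y * bf4q3.v y x) * hi
theorem sXn_ (x : ℝ) : ∀ q y, InQ q y → crv PP 4 q y < c3n y →
    (fl q).SX.v y x * (c3n y - crv PP 4 q y) = tL 5 q y x - tL 4 q y x := by
  intro q y h hlt
  match q, h with
  | 0, h =>
    rw [yL50 h, yL40 h]
    rw [ecv4q0, ← c3g_v] at hlt ⊢
    have hd : 0 < c3g.v y - cv4m.v y := sub_pos.2 hlt
    have hi := inv_mul_cancel₀ hd.ne'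
    show sxl0.v y x * _ = _
    simp only [sxl0]
    (try push_cast)
    linear_combination (l5q0.v y x - l4q0.v y x) * hi
  | 1, h =>
    rw [yL51 h, yL41 h]
    rw [ecv4q1, ← c3g_v] at hlt ⊢
    have hd : 0 < c3g.v y - cv4m.v y := sub_pos.2 hlt
    have hi := inv_mul_cancel₀ hd.ne'
    show sxl1.v y x * _ = _
    simp only [sxl1]
    (try push_cast)
    linear_combination (l5q1.v y x - l4q1.v y x) * hi
  | 2, h =>
    rw [yL52 h, yL42 h]
    rw [ecv4q2, ← c3g_v] at hlt ⊢
    have hd : 0 < c3g.v y - cv4p.v y := sub_pos.2 hlt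
    have hi := inv_mul_cancel₀ hd.ne'
    show sxl2.v y x * _ = _
    simp only [sxl2]
    (try push_cast)
    linear_combination (l5q2.v y x - l4q2.v y x) * hi
  | 3, h =>
    rw [yL53 h, yL43 h]
    rw [ecv4q3 h.1, ← c3g_v] at hlt ⊢
    have hd : 0 < c3g.v y - cv4r.v y := sub_pos.2 hlt
    have hi := inv_mul_cancel₀ hd.ne'
    show sxl3.v y x * _ = _
    simp only [sxl3]
    (try push_cast)
    linear_combination (l5q3.v y x - l4q3.v y x) * hi
theorem kn_ (x : ℝ) : ∀ X, |X| ≤ vv.k1.v → kcg.v (-X) x = -(k0c.v x * X) := by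
  intro X h
  have h : |X| ≤ 3 / 100 := by
    refine h.trans_eq ?_
    show (Cn.rt 3 100).v = _
    rw [Cn.rt_v]
    norm_num
  obtain ⟨h1, h2⟩ := abs_le.1 h
  rw [kcl8 (p := -X) (by linarith) (by linarith)]
  simp only [k0c]
  push_cast
  ring
theorem tvm {p c x : ℝ} (h1 : -3 / 100 ≤ p) (h2 : p ≤ 3 / 100) : dt80.val (fun p x => kcg.v p x) p c x = (54078799 / 500000000 + (x - 14173 / 20000) * (3313067 / 25000000)) + (14891 / 100000 + (x - 14173 / 20000) * (-1989 / 4000)) * p + (-35711 / 50000 + (x - 14173 / 20000) * (13599 / 5000)) * p ^ 2 := by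
  rcases eq_or_lt_of_le h1 with h | h1
  · subst h
    refine (DT.val_le (by simp only [Cn.rt_v, Cn.ng_v]; push_cast; linarith)).trans ?_
    refine (DT.val_gt (by simp only [Cn.rt_v, Cn.ng_v]; push_cast; linarith)).trans ?_
    refine (DT.val_gt (by simp only [Cn.rt_v, Cn.ng_v]; push_cast; linarith)).trans ?_
    refine (DT.val_gt (by simp only [Cn.rt_v, Cn.ng_v]; push_cast; linarith)).trans ?_
    refine (DT.val_gt (by simp only [Cn.rt_v, Cn.ng_v]; push_cast; linarith)).trans ?_
    simp only [dt45, DT.val, sw45, sl45, sv45]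
    ((try push_cast); ring1)
  ·
    refine (DT.val_gt (by simp only [Cn.rt_v, Cn.ng_v]; push_cast; linarith)).trans ?_
    refine (DT.val_le (by simp only [Cn.rt_v, Cn.ng_v]; push_cast; linarith)).trans ?_
    refine (DT.val_le (by simp only [Cn.rt_v, Cn.ng_v]; push_cast; linarith)).trans ?_
    refine (DT.val_le (by simp only [Cn.rt_v, Cn.ng_v]; push_cast; linarith)).trans ?_
    simp only [dt46, DT.val, sw46, sl46, sv46]
    ((try push_cast); ring1)
theorem tn_ (x : ℝ) : ∀ X, |X| ≤ vv.k1.v → dd.tF x (-X) - dd.tF x X = m0c.v x * X := by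
  intro X h
  have h : |X| ≤ 3 / 100 := by
    refine h.trans_eq ?_
    show (Cn.rt 3 100).v = _
    rw [Cn.rt_v]
    norm_num
  obtain ⟨h1, h2⟩ := abs_le.1 h
  show dt80.val (fun p x => kcg.v p x) (-X) (cT (-X)) x - dt80.val (fun p x => kcg.v p x) X (cT X) x = _
  rw [tvm (by linarith) (by linarith), tvm (by linarith) (by linarith)]
  simp only [m0c]
  push_cast
  ring
theorem vK_ (x : ℝ) : ∀ y, InQ 2 y → tK 1 2 y x = crv PP 1 2 y * bf1q2.v y x := by
  intro y h
  rw [yK12 h, ecv1q2]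
  simp only [kf1q2]
theorem vX_ (x : ℝ) : ∀ y, InQ 2 y → tL 1 2 y x = crv PP 1 2 y * bx1q2.v y x := by
  intro y h
  rw [yL12 h, ecv1q2]
  simp only [l1q2]
theorem n0_rK (y x : ℝ) : n0b.v y x = (1 - (y - 1) * k0c.v x) := by
  simp only [n0b, k0c]
  all_goals (try push_cast)
  all_goals (try ring)
theorem rK_ (x : ℝ) : ∀ y, OnC (0 : Fin 6) 2 y → c1n y < crv PP 1 2 y →
    rhk.v y x * (crv PP 1 2 y - c1n y) = crv PP 1 2 y * (bf1q2.v y x - (1 - (y - 1) * k0c.v x)) := by
  intro y h hlt
  rw [ecv1q2, ← c1g_v] at hlt ⊢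
  have hd : 0 < cv1p.v y - c1g.v y := sub_pos.2 hlt
  have hi := inv_mul_cancel₀ hd.ne'
  rw [← n0_rK]
  simp only [rhk]
  linear_combination ((bf1q2.v y x - n0b.v y x) * cv1p.v y) * hi
theorem n0_rX (y x : ℝ) : n0x.v y x = m0c.v x := by
  simp only [n0x, m0c]
  all_goals (try push_cast)
  all_goals (try ring)
theorem rX_ (x : ℝ) : ∀ y, OnC (0 : Fin 6) 2 y → c1n y < crv PP 1 2 y →
    rhx.v y x * (crv PP 1 2 y - c1n y) = crv PP 1 2 y * (bx1q2.v y x - m0c.v x) := by
  intro y h hlt
  rw [ecv1q2, ← c1g_v] at hlt ⊢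
  have hd : 0 < cv1p.v y - c1g.v y := sub_pos.2 hlt
  have hi := inv_mul_cancel₀ hd.ne'
  rw [← n0_rX]
  simp only [rhx]
  linear_combination ((bx1q2.v y x - n0x.v y x) * cv1p.v y) * hi
theorem flat_ (x : ℝ) : ∀ y, InQ 2 y → vv.ya.v ≤ y → y ≤ vv.yb.v → bf1q2.v y x = 1 - (y - 1) * k0c.v x ∧ bx1q2.v y x = m0c.v x := by
  intro y h h1 h2
  have ea : vv.ya.v = 577 / 500 := by
    show (Cn.rt 577 500).v = _
    rw [Cn.rt_v]
    norm_num
  have eb : vv.yb.v = 231 / 200 := by
    show (Cn.rt 231 200).v = _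
    rw [Cn.rt_v]
    norm_num
  rw [ea] at h1
  rw [eb] at h2
  constructor
  · simp only [bf1q2, bf1q2_3, k0c]
    rcases eq_or_lt_of_le h1 with g | h1
    · subst g
      ((try push_cast); (repeat first | rw [if_pos (by linarith)] | rw [if_neg (by linarith)] | erw [if_pos (by linarith)] | erw [if_neg (by linarith)]); (try push_cast); (try ring1))
    rcases eq_or_lt_of_le h2 with g | h2
    · subst g
      ((try push_cast); (repeat first | rw [if_pos (by linarith)] | rw [if_neg (by linarith)] | erw [if_pos (by linarith)] | erw [if_neg (by linarith)]); (try push_cast); (try ring1))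
    · ((try push_cast); (repeat first | rw [if_pos (by linarith)] | rw [if_neg (by linarith)] | erw [if_pos (by linarith)] | erw [if_neg (by linarith)]); (try push_cast); (try ring1))
  · simp only [bx1q2, bx1q2_3, m0c]
    rcases eq_or_lt_of_le h1 with g | h1
    · subst g
      ((try push_cast); (repeat first | rw [if_pos (by linarith)] | rw [if_neg (by linarith)] | erw [if_pos (by linarith)] | erw [if_neg (by linarith)]); (try push_cast); (try ring1))
    rcases eq_or_lt_of_le h2 with g | h2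
    · subst g
      ((try push_cast); (repeat first | rw [if_pos (by linarith)] | rw [if_neg (by linarith)] | erw [if_pos (by linarith)] | erw [if_neg (by linarith)]); (try push_cast); (try ring1))
    · ((try push_cast); (repeat first | rw [if_pos (by linarith)] | rw [if_neg (by linarith)] | erw [if_pos (by linarith)] | erw [if_neg (by linarith)]); (try push_cast); (try ring1))
theorem abk_ (x : ℝ) : ∀ y, InQ 2 y → vv.yb.v ≤ y → y ≤ vv.yk.v → bf1q2.v y x = 1 - (y - 1) * k0c.v x + sbk.v x * (y - vv.yb.v) ∧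
    bx1q2.v y x = m0c.v x + sbx.v x * (y - vv.yb.v) := by
  intro y h h1 h2
  have eb : vv.yb.v = 231 / 200 := by
    show (Cn.rt 231 200).v = _
    rw [Cn.rt_v]
    norm_num
  have ek : vv.yk.v = 3 / 2 := by
    show (Cn.rt 3 2).v = _
    rw [Cn.rt_v]
    norm_num
  rw [eb] at h1 ⊢
  rw [ek] at h2
  constructor
  · simp only [bf1q2, bf1q2_3, k0c, sbk]
    rcases eq_or_lt_of_le h1 with g | h1
    · subst g
      ((try push_cast); (repeat first | rw [if_pos (by linarith)] | rw [if_neg (by linarith)] | erw [if_pos (by linarith)] | erw [if_neg (by linarith)]); (try push_cast); (try ring1))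
    rcases eq_or_lt_of_le h2 with g | h2
    · subst g
      ((try push_cast); (repeat first | rw [if_pos (by linarith)] | rw [if_neg (by linarith)] | erw [if_pos (by linarith)] | erw [if_neg (by linarith)]); (try push_cast); (try ring1))
    · ((try push_cast); (repeat first | rw [if_pos (by linarith)] | rw [if_neg (by linarith)] | erw [if_pos (by linarith)] | erw [if_neg (by linarith)]); (try push_cast); (try ring1))
  · simp only [bx1q2, bx1q2_3, m0c, sbx]
    rcases eq_or_lt_of_le h1 with g | h1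
    · subst g
      ((try push_cast); (repeat first | rw [if_pos (by linarith)] | rw [if_neg (by linarith)] | erw [if_pos (by linarith)] | erw [if_neg (by linarith)]); (try push_cast); (try ring1))
    rcases eq_or_lt_of_le h2 with g | h2
    · subst g
      ((try push_cast); (repeat first | rw [if_pos (by linarith)] | rw [if_neg (by linarith)] | erw [if_pos (by linarith)] | erw [if_neg (by linarith)]); (try push_cast); (try ring1))
    · ((try push_cast); (repeat first | rw [if_pos (by linarith)] | rw [if_neg (by linarith)] | erw [if_pos (by linarith)] | erw [if_neg (by linarith)]); (try push_cast); (try ring1))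
theorem ka_dt81 (x : ℝ) : dt81.kv (-61 / 661) x = (1383662739390526267157 / 23862495030125000000000000 + (x - 14173 / 20000) * (-415105834817690259389 / 119312475150625000000000) + (x - 14173 / 20000) ^ 2 * (2583514721721087 / 9025149406250000)) := by
  simp only [dt81, DT.kv, sw81, sw81_2, sl81, sl81_2, sv81, sv81_2]
  ((try push_cast); ring1)
theorem kb_dt81 (x : ℝ) : dt81.kv (-3 / 50) x = (799 / 5000000 + (x - 14173 / 20000) * (-21 / 15625)) := by
  simp only [dt81, DT.kv, sw81, sw81_2, sl81, sl81_2, sv81, sv81_2]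
  ((try push_cast); ring1)
theorem ka_dt82 (x : ℝ) : dt82.kv (-3 / 50) x = (799 / 5000000 + (x - 14173 / 20000) * (-21 / 15625)) := by
  simp only [dt82, DT.kv, sw82, sl82, sv82]
  ((try push_cast); ring1)
theorem kb_dt82 (x : ℝ) : dt82.kv (-3 / 100) x = (0) := by
  simp only [dt82, DT.kv, sw82, sl82, sv82]
  ((try push_cast); ring1)
theorem ka_dt86 (x : ℝ) : dt86.kv (-61 / 661) x = (1383662739390526267157 / 23862495030125000000000000 + (x - 14173 / 20000) * (-415105834817690259389 / 119312475150625000000000) + (x - 14173 / 20000) ^ 2 * (2583514721721087 / 9025149406250000)) :=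
  (DT.kv_le (by simp only [Cn.rt_v, Cn.ng_v]; norm_num)).trans (ka_dt81 x)
theorem kb_dt86 (x : ℝ) : dt86.kv (-3 / 100) x = (0) :=
  (DT.kv_gt (by simp only [Cn.rt_v, Cn.ng_v]; norm_num)).trans (kb_dt82 x)
theorem ka_dt83 (x : ℝ) : dt83.kv (-3 / 100) x = (0) := by
  simp only [dt83, DT.kv, sl83, sv83]
  ((try push_cast); ring1)
theorem kb_dt83 (x : ℝ) : dt83.kv (3 / 100) x = (0) := by
  simp only [dt83, DT.kv, sl83, sv83]
  ((try push_cast); ring1)
theorem ka_dt84 (x : ℝ) : dt84.kv (3 / 100) x = (0) := by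
  simp only [dt84, DT.kv, sw84, sl84, sv84]
  ((try push_cast); ring1)
theorem kb_dt84 (x : ℝ) : dt84.kv (3 / 50) x = (-799 / 5000000 + (x - 14173 / 20000) * (21 / 15625)) := by
  simp only [dt84, DT.kv, sw84, sl84, sv84]
  ((try push_cast); ring1)
theorem ka_dt85 (x : ℝ) : dt85.kv (3 / 50) x = (-799 / 5000000 + (x - 14173 / 20000) * (21 / 15625)) := by
  simp only [dt85, DT.kv, sw85, sw85_2, sl85, sl85_2, sv85, sv85_2]
  ((try push_cast); ring1)
theorem kb_dt85 (x : ℝ) : dt85.kv (61 / 661) x = (-1383662739390526267157 / 23862495030125000000000000 + (x - 14173 / 20000) * (415105834817690259389 / 119312475150625000000000) + (x - 14173 / 20000) ^ 2 * (-2583514721721087 / 9025149406250000)) := by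
  simp only [dt85, DT.kv, sw85, sw85_2, sl85, sl85_2, sv85, sv85_2]
  ((try push_cast); ring1)
theorem ka_dt87 (x : ℝ) : dt87.kv (3 / 100) x = (0) :=
  (DT.kv_le (by simp only [Cn.rt_v, Cn.ng_v]; norm_num)).trans (ka_dt84 x)
theorem kb_dt87 (x : ℝ) : dt87.kv (61 / 661) x = (-1383662739390526267157 / 23862495030125000000000000 + (x - 14173 / 20000) * (415105834817690259389 / 119312475150625000000000) + (x - 14173 / 20000) ^ 2 * (-2583514721721087 / 9025149406250000)) :=
  (DT.kv_gt (by simp only [Cn.rt_v, Cn.ng_v]; norm_num)).trans (kb_dt85 x)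
theorem ka_dt88 (x : ℝ) : dt88.kv (-3 / 100) x = (0) :=
  (DT.kv_le (by simp only [Cn.rt_v, Cn.ng_v]; norm_num)).trans (ka_dt83 x)
theorem kb_dt88 (x : ℝ) : dt88.kv (61 / 661) x = (-1383662739390526267157 / 23862495030125000000000000 + (x - 14173 / 20000) * (415105834817690259389 / 119312475150625000000000) + (x - 14173 / 20000) ^ 2 * (-2583514721721087 / 9025149406250000)) :=
  (DT.kv_gt (by simp only [Cn.rt_v, Cn.ng_v]; norm_num)).trans (kb_dt87 x)
theorem ka_dt89 (x : ℝ) : dt89.kv (-61 / 661) x = (1383662739390526267157 / 23862495030125000000000000 + (x - 14173 / 20000) * (-415105834817690259389 / 119312475150625000000000) + (x - 14173 / 20000) ^ 2 * (2583514721721087 / 9025149406250000)) :=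
  (DT.kv_le (by simp only [Cn.rt_v, Cn.ng_v]; norm_num)).trans (ka_dt86 x)
theorem kb_dt89 (x : ℝ) : dt89.kv (61 / 661) x = (-1383662739390526267157 / 23862495030125000000000000 + (x - 14173 / 20000) * (415105834817690259389 / 119312475150625000000000) + (x - 14173 / 20000) ^ 2 * (-2583514721721087 / 9025149406250000)) :=
  (DT.kv_gt (by simp only [Cn.rt_v, Cn.ng_v]; norm_num)).trans (kb_dt88 x)
theorem ko_dt81 (x : ℝ) : dt81.KOk x := trivial
theorem ko_dt82 (x : ℝ) : dt82.KOk x := trivial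
theorem ko_dt86 (x : ℝ) : dt86.KOk x :=
  DT.kOk_node (v := -3 / 50) (by simp only [Cn.rt_v, Cn.ng_v]; norm_num) (kb_dt81 x) (ka_dt82 x) (by ring1) (ko_dt81 x) (ko_dt82 x)
theorem ko_dt83 (x : ℝ) : dt83.KOk x := trivial
theorem ko_dt84 (x : ℝ) : dt84.KOk x := trivial
theorem ko_dt85 (x : ℝ) : dt85.KOk x := trivial
theorem ko_dt87 (x : ℝ) : dt87.KOk x :=
  DT.kOk_node (v := 3 / 50) (by simp only [Cn.rt_v, Cn.ng_v]; norm_num) (kb_dt84 x) (ka_dt85 x) (by ring1) (ko_dt84 x) (ko_dt85 x)
theorem ko_dt88 (x : ℝ) : dt88.KOk x :=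
  DT.kOk_node (v := 3 / 100) (by simp only [Cn.rt_v, Cn.ng_v]; norm_num) (kb_dt83 x) (ka_dt87 x) (by ring1) (ko_dt83 x) (ko_dt87 x)
theorem ko_dt89 (x : ℝ) : dt89.KOk x :=
  DT.kOk_node (v := -3 / 100) (by simp only [Cn.rt_v, Cn.ng_v]; norm_num) (kb_dt86 x) (ka_dt88 x) (by ring1) (ko_dt86 x) (ko_dt88 x)
theorem phl0 {p x : ℝ} (h2 : p ≤ -3 / 50) : dt89.kv p x = (-77687938982907028801471 / 38519337665875000000000000 + (x - 14173 / 20000) * (1281220490902039528167 / 192596688329375000000000) + (x - 14173 / 20000) ^ 2 * (1309474407571749 / 1324416781250000)) + (-47698027498088035267157 / 770386753317500000000000 + (x - 14173 / 20000) * (681493722250450884389 / 3851933766587500000000) + (x - 14173 / 20000) ^ 2 * (872983216154133 / 26488335625000)) * p + (-5341 / 12500 + (x - 14173 / 20000) * (291 / 400) + (x - 14173 / 20000) ^ 2 * (68661 / 250)) * p ^ 2 := by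
  refine (DT.kv_le (by simp only [Cn.rt_v, Cn.ng_v]; push_cast; linarith)).trans ?_
  refine (DT.kv_le (by simp only [Cn.rt_v, Cn.ng_v]; push_cast; linarith)).trans ?_
  simp only [dt81, DT.kv, sw81, sw81_2, sl81, sl81_2, sv81, sv81_2]
  ((try push_cast); ring1)
theorem phl1 {p x : ℝ} (h1 : -3 / 50 < p) (h2 : p ≤ -3 / 100) : dt89.kv p x = (39853 / 250000000 + (x - 14173 / 20000) * (-67179 / 50000000)) + (159509 / 15000000 + (x - 14173 / 20000) * (-89579 / 1000000)) * p + (8867 / 50000 + (x - 14173 / 20000) * (-14931 / 10000)) * p ^ 2 := by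
  refine (DT.kv_le (by simp only [Cn.rt_v, Cn.ng_v]; push_cast; linarith)).trans ?_
  refine (DT.kv_gt (by simp only [Cn.rt_v, Cn.ng_v]; push_cast; linarith)).trans ?_
  simp only [dt82, DT.kv, sw82, sl82, sv82]
  ((try push_cast); ring1)
theorem phl2 {p x : ℝ} (h1 : -3 / 100 < p) (h2 : p ≤ 3 / 100) : dt89.kv p x = (0) + (0) * p := by
  refine (DT.kv_gt (by simp only [Cn.rt_v, Cn.ng_v]; push_cast; linarith)).trans ?_
  refine (DT.kv_le (by simp only [Cn.rt_v, Cn.ng_v]; push_cast; linarith)).trans ?_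
  simp only [dt83, DT.kv, sl83, sv83]
  ((try push_cast); ring1)
theorem phl3 {p x : ℝ} (h1 : 3 / 100 < p) (h2 : p ≤ 3 / 50) : dt89.kv p x = (-39853 / 250000000 + (x - 14173 / 20000) * (67179 / 50000000)) + (159509 / 15000000 + (x - 14173 / 20000) * (-89579 / 1000000)) * p + (-8867 / 50000 + (x - 14173 / 20000) * (14931 / 10000)) * p ^ 2 := by
  refine (DT.kv_gt (by simp only [Cn.rt_v, Cn.ng_v]; push_cast; linarith)).trans ?_
  refine (DT.kv_gt (by simp only [Cn.rt_v, Cn.ng_v]; push_cast; linarith)).trans ?_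
  refine (DT.kv_le (by simp only [Cn.rt_v, Cn.ng_v]; push_cast; linarith)).trans ?_
  simp only [dt84, DT.kv, sw84, sl84, sv84]
  ((try push_cast); ring1)
theorem phl4 {p x : ℝ} (h1 : 3 / 50 < p) (h2 : p ≤ 61 / 661) : dt89.kv p x = (77687938982907028801471 / 38519337665875000000000000 + (x - 14173 / 20000) * (-1281220490902039528167 / 192596688329375000000000) + (x - 14173 / 20000) ^ 2 * (-1309474407571749 / 1324416781250000)) + (-47698027498088035267157 / 770386753317500000000000 + (x - 14173 / 20000) * (681493722250450884389 / 3851933766587500000000) + (x - 14173 / 20000) ^ 2 * (872983216154133 / 26488335625000)) * p + (5341 / 12500 + (x - 14173 / 20000) * (-291 / 400) + (x - 14173 / 20000) ^ 2 * (-68661 / 250)) * p ^ 2 := by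
  refine (DT.kv_gt (by simp only [Cn.rt_v, Cn.ng_v]; push_cast; linarith)).trans ?_
  refine (DT.kv_gt (by simp only [Cn.rt_v, Cn.ng_v]; push_cast; linarith)).trans ?_
  refine (DT.kv_gt (by simp only [Cn.rt_v, Cn.ng_v]; push_cast; linarith)).trans ?_
  simp only [dt85, DT.kv, sw85, sw85_2, sl85, sl85_2, sv85, sv85_2]
  ((try push_cast); ring1)
theorem tvc10 {p x : ℝ} (h1 : -1 / 10 ≤ p) (h2 : p ≤ -3 / 50) : dt80.val (fun p x => kcg.v p x) p (cT p) x = (5492469 / 50000000 + (x - 14173 / 20000) * (693767 / 2500000)) + (566827 / 2500000 + (x - 14173 / 20000) * (1873209 / 500000)) * p + (14569 / 50000 + (x - 14173 / 20000) * (35331 / 1250)) * p ^ 2 := by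
  rcases eq_or_lt_of_le h1 with h | h1
  · subst h
    refine (DT.val_le (by simp only [Cn.rt_v, Cn.ng_v]; push_cast; linarith)).trans ?_
    refine (DT.val_gt (by simp only [Cn.rt_v, Cn.ng_v]; push_cast; linarith)).trans ?_
    refine (DT.val_gt (by simp only [Cn.rt_v, Cn.ng_v]; push_cast; linarith)).trans ?_
    refine (DT.val_le (by simp only [Cn.rt_v, Cn.ng_v]; push_cast; linarith)).trans ?_
    simp only [dt43, DT.val, sw43, sl43, sv43]
    ((try push_cast); ring1)
  ·
    refine (DT.val_le (by simp only [Cn.rt_v, Cn.ng_v]; push_cast; linarith)).trans ?_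
    refine (DT.val_gt (by simp only [Cn.rt_v, Cn.ng_v]; push_cast; linarith)).trans ?_
    refine (DT.val_gt (by simp only [Cn.rt_v, Cn.ng_v]; push_cast; linarith)).trans ?_
    refine (DT.val_gt (by simp only [Cn.rt_v, Cn.ng_v]; push_cast; linarith)).trans ?_
    refine (DT.val_le (by simp only [Cn.rt_v, Cn.ng_v]; push_cast; linarith)).trans ?_
    simp only [dt44, DT.val, sw44, sl44, sv44]
    ((try push_cast); ring1)
theorem tvc11 {p x : ℝ} (h1 : -3 / 50 ≤ p) (h2 : p ≤ -3 / 100) : dt80.val (fun p x => kcg.v p x) p (cT p) x = (6800029 / 62500000 + (x - 14173 / 20000) * (2871197 / 25000000)) + (2876473 / 15000000 + (x - 14173 / 20000) * (-418889 / 250000)) * p + (-1 / 50000 + (x - 14173 / 20000) * (-10574 / 625)) * p ^ 2 := by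
  rcases eq_or_lt_of_le h1 with h | h1
  · subst h
    refine (DT.val_le (by simp only [Cn.rt_v, Cn.ng_v]; push_cast; linarith)).trans ?_
    refine (DT.val_gt (by simp only [Cn.rt_v, Cn.ng_v]; push_cast; linarith)).trans ?_
    refine (DT.val_gt (by simp only [Cn.rt_v, Cn.ng_v]; push_cast; linarith)).trans ?_
    refine (DT.val_gt (by simp only [Cn.rt_v, Cn.ng_v]; push_cast; linarith)).trans ?_
    refine (DT.val_le (by simp only [Cn.rt_v, Cn.ng_v]; push_cast; linarith)).trans ?_
    simp only [dt44, DT.val, sw44, sl44, sv44]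
    ((try push_cast); ring1)
  ·
    refine (DT.val_le (by simp only [Cn.rt_v, Cn.ng_v]; push_cast; linarith)).trans ?_
    refine (DT.val_gt (by simp only [Cn.rt_v, Cn.ng_v]; push_cast; linarith)).trans ?_
    refine (DT.val_gt (by simp only [Cn.rt_v, Cn.ng_v]; push_cast; linarith)).trans ?_
    refine (DT.val_gt (by simp only [Cn.rt_v, Cn.ng_v]; push_cast; linarith)).trans ?_
    refine (DT.val_gt (by simp only [Cn.rt_v, Cn.ng_v]; push_cast; linarith)).trans ?_
    simp only [dt45, DT.val, sw45, sl45, sv45]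
    ((try push_cast); ring1)
theorem tvc12 {p x : ℝ} (h1 : -3 / 100 ≤ p) (h2 : p ≤ 3 / 100) : dt80.val (fun p x => kcg.v p x) p (cT p) x = (54078799 / 500000000 + (x - 14173 / 20000) * (3313067 / 25000000)) + (14891 / 100000 + (x - 14173 / 20000) * (-1989 / 4000)) * p + (-35711 / 50000 + (x - 14173 / 20000) * (13599 / 5000)) * p ^ 2 := by
  rcases eq_or_lt_of_le h1 with h | h1
  · subst h
    refine (DT.val_le (by simp only [Cn.rt_v, Cn.ng_v]; push_cast; linarith)).trans ?_
    refine (DT.val_gt (by simp only [Cn.rt_v, Cn.ng_v]; push_cast; linarith)).trans ?_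
    refine (DT.val_gt (by simp only [Cn.rt_v, Cn.ng_v]; push_cast; linarith)).trans ?_
    refine (DT.val_gt (by simp only [Cn.rt_v, Cn.ng_v]; push_cast; linarith)).trans ?_
    refine (DT.val_gt (by simp only [Cn.rt_v, Cn.ng_v]; push_cast; linarith)).trans ?_
    simp only [dt45, DT.val, sw45, sl45, sv45]
    ((try push_cast); ring1)
  ·
    refine (DT.val_gt (by simp only [Cn.rt_v, Cn.ng_v]; push_cast; linarith)).trans ?_
    refine (DT.val_le (by simp only [Cn.rt_v, Cn.ng_v]; push_cast; linarith)).trans ?_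
    refine (DT.val_le (by simp only [Cn.rt_v, Cn.ng_v]; push_cast; linarith)).trans ?_
    refine (DT.val_le (by simp only [Cn.rt_v, Cn.ng_v]; push_cast; linarith)).trans ?_
    simp only [dt46, DT.val, sw46, sl46, sv46]
    ((try push_cast); ring1)
theorem tvc13 {p x : ℝ} (h1 : 3 / 100 ≤ p) (h2 : p ≤ 3 / 50) : dt80.val (fun p x => kcg.v p x) p (cT p) x = (27239969 / 250000000 + (x - 14173 / 20000) * (1135043 / 10000000)) + (238553 / 2500000 + (x - 14173 / 20000) * (154127 / 200000)) * p + (4433 / 25000 + (x - 14173 / 20000) * (-36823 / 2000)) * p ^ 2 := by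
  rcases eq_or_lt_of_le h1 with h | h1
  · subst h
    refine (DT.val_gt (by simp only [Cn.rt_v, Cn.ng_v]; push_cast; linarith)).trans ?_
    refine (DT.val_le (by simp only [Cn.rt_v, Cn.ng_v]; push_cast; linarith)).trans ?_
    refine (DT.val_le (by simp only [Cn.rt_v, Cn.ng_v]; push_cast; linarith)).trans ?_
    refine (DT.val_le (by simp only [Cn.rt_v, Cn.ng_v]; push_cast; linarith)).trans ?_
    simp only [dt46, DT.val, sw46, sl46, sv46]
    ((try push_cast); ring1)
  ·
    refine (DT.val_gt (by simp only [Cn.rt_v, Cn.ng_v]; push_cast; linarith)).trans ?_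
    refine (DT.val_le (by simp only [Cn.rt_v, Cn.ng_v]; push_cast; linarith)).trans ?_
    refine (DT.val_le (by simp only [Cn.rt_v, Cn.ng_v]; push_cast; linarith)).trans ?_
    refine (DT.val_gt (by simp only [Cn.rt_v, Cn.ng_v]; push_cast; linarith)).trans ?_
    refine (DT.val_le (by simp only [Cn.rt_v, Cn.ng_v]; push_cast; linarith)).trans ?_
    simp only [dt47, DT.val, sw47, sl47, sv47]
    ((try push_cast); ring1)
theorem tvc14 {p x : ℝ} (h1 : 3 / 50 ≤ p) (h2 : p ≤ 61 / 661) : dt80.val (fun p x => kcg.v p x) p (cT p) x = (4153637421624108878698529 / 38519337665875000000000000 + (x - 14173 / 20000) * (54728111159784241778167 / 192596688329375000000000) + (x - 14173 / 20000) ^ 2 * (1309474407571749 / 1324416781250000)) + (102464205482026456267157 / 770386753317500000000000 + (x - 14173 / 20000) * (-18943195851072928209389 / 3851933766587500000000) + (x - 14173 / 20000) ^ 2 * (-872983216154133 / 26488335625000)) * p + (-1359 / 10000 + (x - 14173 / 20000) * (289923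 / 10000) + (x - 14173 / 20000) ^ 2 * (68661 / 250)) * p ^ 2 := by
  rcases eq_or_lt_of_le h1 with h | h1
  · subst h
    refine (DT.val_gt (by simp only [Cn.rt_v, Cn.ng_v]; push_cast; linarith)).trans ?_
    refine (DT.val_le (by simp only [Cn.rt_v, Cn.ng_v]; push_cast; linarith)).trans ?_
    refine (DT.val_le (by simp only [Cn.rt_v, Cn.ng_v]; push_cast; linarith)).trans ?_
    refine (DT.val_gt (by simp only [Cn.rt_v, Cn.ng_v]; push_cast; linarith)).trans ?_
    refine (DT.val_le (by simp only [Cn.rt_v, Cn.ng_v]; push_cast; linarith)).trans ?_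
    simp only [dt47, DT.val, sw47, sl47, sv47]
    ((try push_cast); ring1)
  ·
    refine (DT.val_gt (by simp only [Cn.rt_v, Cn.ng_v]; push_cast; linarith)).trans ?_
    refine (DT.val_le (by simp only [Cn.rt_v, Cn.ng_v]; push_cast; linarith)).trans ?_
    refine (DT.val_le (by simp only [Cn.rt_v, Cn.ng_v]; push_cast; linarith)).trans ?_
    refine (DT.val_gt (by simp only [Cn.rt_v, Cn.ng_v]; push_cast; linarith)).trans ?_
    refine (DT.val_gt (by simp only [Cn.rt_v, Cn.ng_v]; push_cast; linarith)).trans ?_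
    simp only [dt48, DT.val, sw48, sw48_2, sl48, sl48_2, sv48, sv48_2]
    ((try push_cast); ring1)
theorem ph_ (x : ℝ) : ∀ u, |u| ≤ vv.k2.v → dd.tF x (-u) - dd.tF x u = m0c.v x * u + dt89.kv u x := by
  intro u h
  have h : |u| ≤ 61 / 661 := by
    refine h.trans_eq ?_
    show (Cn.rt 61 661).v = _
    rw [Cn.rt_v]
    norm_num
  obtain ⟨h1, h2⟩ := abs_le.1 h
  show dt80.val (fun p x => kcg.v p x) (-u) (cT (-u)) x - dt80.val (fun p x => kcg.v p x) u (cT u) x = _
  rcases le_or_gt u (-3 / 50) with g0 | g1000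
  ·
    rw [tvc14 (p := -u) (by linarith) (by linarith), tvc10 (p := u) (by linarith) (by linarith), phl0 g0]
    simp only [m0c]
    push_cast
    ring
  rcases le_or_gt u (-3 / 100) with g1 | g1001
  ·
    rw [tvc13 (p := -u) (by linarith) (by linarith), tvc11 (p := u) (by linarith) (by linarith), phl1 g1000 g1]
    simp only [m0c]
    push_cast
    ring
  rcases le_or_gt u (3 / 100) with g2 | g1002
  ·
    rw [tvc12 (p := -u) (by linarith) (by linarith), tvc12 (p := u) (by linarith) (by linarith), phl2 g1001 g2]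
    simp only [m0c]
    push_cast
    ring
  rcases le_or_gt u (3 / 50) with g3 | g1003
  ·
    rw [tvc11 (p := -u) (by linarith) (by linarith), tvc13 (p := u) (by linarith) (by linarith), phl3 g1002 g3]
    simp only [m0c]
    push_cast
    ring
  ·
    rw [tvc10 (p := -u) (by linarith) (by linarith), tvc14 (p := u) (by linarith) (by linarith), phl4 g1003 (by linarith)]
    simp only [m0c]
    push_cast
    ring
theorem kqf_ {y : ℝ} (x : ℝ) (h : OnC (0 : Fin 6) 2 y) : kqf.v y x * c1g.v y = (y - 1) * kcg.v (c1g.v y) x := by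
  have h0 : 0 ≤ c1g.v y := by rw [c1g_v]; exact c1n_nn y
  simp only [kqf]
  (try push_cast)
  split_ifs with hh
  · rw [kcl8 (p := c1g.v y) (by linarith) (by linarith)]
    ring
  · have hc : c1g.v y ≠ 0 := by
      intro e
      rw [e] at hh
      exact hh (by norm_num)
    have hi := inv_mul_cancel₀ hc
    linear_combination ((y - 1) * kcg.v (c1g.v y) x) * hi
theorem sM_ (x : ℝ) : ∀ y, OnC (0 : Fin 6) 2 y → c1n y < crv PP 1 2 y →
    (1 + skm.v y x) * (crv PP 1 2 y - c1n y) = tK 1 2 y x - tK 0 2 y x := by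
  intro y h hlt
  rw [yK12 h.1, yK02 h]
  rw [ecv1q2, ← c1g_v] at hlt ⊢
  have hd : 0 < cv1p.v y - c1g.v y := sub_pos.2 hlt
  have hi := inv_mul_cancel₀ hd.ne'
  have hb : |c1g.v y| ≤ 1 / 2 := by rw [c1g_v]; exact bnd_O h
  have eo := odd (x := x) hb
  have hk := kqf_ x h
  simp only [skm, kf1q2, kf0q2, eo]
  (try push_cast)
  linear_combination (cv1p.v y * ((bf1q2.v y x - 1) + kqf.v y x)) * hi + hk
theorem ok (x : ℝ) : tt.Ok PP tK tL x where
  i0 := rfl
  il := rfl
  rl := by
    show 1 < PP.ρ 4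
    have e : PP.ρ 4 = 8 / 5 := rfl
    rw [e]
    norm_num
  ok := dok x
  kh := rfl
  odd := fun p h => odd h
  K0 := K0_ x
  L0 := L0_ x
  Kn := Kn_ x
  Ln := Ln_ x
  f0 := f0_
  fn := fn_
  sK0 := sK0_ x
  sX0 := sX0_ x
  sKn := sKn_ x
  sXn := sXn_ x
  k1 := by
    show 0 ≤ (Cn.rt 3 100).v ∧ (Cn.rt 3 100).v ≤ 1 / 2
    rw [Cn.rt_v]
    constructor <;> norm_num
  kn := kn_ x
  tn := tn_ x
  vK := vK_ x
  vX := vX_ x
  rK := rK_ x
  rX := rX_ x
  yb := by
    show 0 ≤ (Cn.rt 231 200).v ∧ 1 ≤ 3 / 4 * (Cn.rt 231 200).v ^ 2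
    rw [Cn.rt_v]
    constructor <;> norm_num
  flat := flat_ x
  abk := abk_ x
  phk := ko_dt89 x
  ph := ph_ x
  sM := sM_ x
  yz := by
    show (Cn.rt 577 500).v ≤ (Cn.rt 5771 5000).v ∧ 0 ≤ (Cn.rt 5771 5000).v ∧ 1 ≤ 3 / 4 * (Cn.rt 5771 5000).v ^ 2 + (Cn.rt 3 100).v ^ 2
    simp only [Cn.rt_v]
    refine ⟨?_, ?_, ?_⟩ <;> norm_num
theorem okx {x : ℝ} (hx : ((740881858 : ℕ) : ℝ) / S ≤ x) (hx' : x ≤ (((740881858 : ℕ) : ℝ) + (40050571 : ℕ)) / S) : tt.Ok PP tK tL x := ok x

end Pool.Agent.Strip051.G.I69_7273.Tab.St
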