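import Pool.Agent.Strip051.G.I69_7273.StH
import Pool.Agent.Strip051.G.I69_7273.StF

/-! # Unit strips 1 (generated) -/

set_option linter.all false
set_option maxRecDepth 100000

namespace Pool.Agent.Strip051.G.I69_7273.Tab.St.C

open Pool.Agent.Strip051.PB Pool.Agent.Strip051.PB.T Pool.Agent.StripNear Pool.Agent.Strip051.LC
open Pool.Agent.Strip051.G.I69_7273.Tab Pool.Agent.Strip051.G.I69_7273.Tab.St

noncomputable def cut_A00pm_012_s1 : Cut := Cut.of [[⟨4, 0, 0, 1449551462⟩], [⟨0, 0, 0, 53687091⟩, ⟨1, 1, 0, 53687091⟩, ⟨2, 1, 0, 53687091⟩]]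

noncomputable def xt_A00pm_012_s1 : Ext := strExt dd true true false .u0 .u0m .u2 .pnp 0 1 2 rfl rfl gf2 vv ndB0q0 ndB0q1

noncomputable def f_A00pm_012_s1 : ℕ → ℕ → ℕ → ℕ → Bool := onCell 1073741824 536870912 536870912 536870912 740881858 40050571
    (rowF 2 true true false .pnp 0 1 2 (qsf 0 536870912 536870912 536870912 2) ndB0q0 ndB0q1 pcB2 cut_A00pm_012_s1 xt_A00pm_012_s1)

def k0_A00pm_012_s1 : ∃ t, chk3 f_A00pm_012_s1 t 4 2 1 = true :=
  ⟨(a (l 3) (l 3)), by decide +kernel⟩

def k1_A00pm_012_s1 : ∃ t, chk3 f_A00pm_012_s1 t 8 6 1 = true :=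
  ⟨(l 3), by decide +kernel⟩

def k2_A00pm_012_s1 : ∃ t, chk3 f_A00pm_012_s1 t 18 12 1 = true :=
  ⟨(l 3), by decide +kernel⟩

def k3_A00pm_012_s1 : ∃ t, chk3 f_A00pm_012_s1 t 38 12 1 = true :=
  ⟨(l 3), by decide +kernel⟩

def k4_A00pm_012_s1 : ∃ t, chk3 f_A00pm_012_s1 t 78 12 1 = true :=
  ⟨(a (l 3) (b (l 3) (b (l 3) (b (l 3) (a (l 3) (a (l 3) (a (l 3) (b (l 3) (l 532096127))))))))), by decide +kernel⟩

def k5_A00pm_012_s1 : ∃ t, chk3 f_A00pm_012_s1 t 79 24 1 = true :=
  ⟨(l 3), by decide +kernel⟩

def k6_A00pm_012_s1 : ∃ t, chk3 f_A00pm_012_s1 t 79 50 1 = true :=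
  ⟨(a (l 3) (b (b (l 3) (b (l 3) (a (l 3) (a (l 3) (a (l 3) (c (b (l 532866575) (l 532868991)) (l 532526207))))))) (a (a (l 3) (b (l 3) (c (c (l 532880655) (l 532718719)) (c (l 532571007) (l 532439167))))) (b (a (c (b (a (l 3) (b (l 3) (l 532891519))) (a (b (l 3) (a (l 3) (b (l 3) (a (l 532896895) (l 532898431))))) (b (l 532893055) (l 533162511)))) (b (a (l 3) (l 532557439)) (a (b (l 3) (a (l 3) (b (l 3) (l 532577295)))) (b (l 532566399) (l 532571663))))) (c (b (a (l 532881791) (l 532872319)) (l 533149199)) (b (l 532544015) (l 532556559)))) (b (a (a (a (l 532687487) (b (a (l 532706943) (a (l 532709247) (l 532711439))) (l 532678271))) (c (b (b (l 533157391) (l 533405311)) (l 533113103)) (b (a (l 532561023) (l 532568191)) (l 532537615)))) (a (b (b (l 532716671) (l 532704383)) (l 532685071)) (b (l 532707455) (l 532684159)))) (a (a (c (l 532784255) (l 532493183)) (a (l 532638591) (l 532641551))) (a (c (l 532799359) (l 532503935)) (l 532645135)))))))), by decide +kernel⟩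

def k7_A00pm_012_s1 : ∃ t, chk3 f_A00pm_012_s1 t 79 51 1 = true :=
  ⟨(a (b (a (l 3) (a (b (l 3) (c (l 532460559) (l 532257407))) (c (b (c (l 532682367) (l 532544127)) (l 532488831)) (b (l 532366207) (l 532277119))))) (c (a (c (b (l 532622207) (l 532241023)) (l 532207487)) (c (l 532354575) (l 532256639))) (a (c (l 532136063) (l 532082815)) (c (l 532176255) (l 532114559))))) (a (c (c (b (a (l 532914303) (l 532673151)) (l 532405887)) (b (a (l 532511615) (l 532535423)) (l 532300159))) (b (a (b (l 532386687) (l 532295807)) (l 532627471)) (a (l 532167807) (l 532183679)))) (b (a (c (a (l 532620415) (l 532631055)) (a (l 532372607) (l 532917375))) (b (c (b (l 532737039) (l 532673919)) (b (l 532458255) (l 532412031))) (c (l 532579967) (l 532343423)))) (c (a (l 532382591) (l 532399999)) (a (l 532198783) (l 532211839)))))), by decide +kernel⟩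

def k8_A00pm_012_s1 : ∃ t, chk3 f_A00pm_012_s1 t 18 26 1 = true :=
  ⟨(l 3), by decide +kernel⟩

def k9_A00pm_012_s1 : ∃ t, chk3 f_A00pm_012_s1 t 38 26 1 = true :=
  ⟨(a (l 3) (b (l 3) (a (b (l 3) (l 532032783)) (a (b (l 3) (b (c (l 532249359) (l 531502975)) (l 531547775))) (b (c (l 531519759) (l 531620223)) (b (a (l 532333839) (l 532342799)) (l 532640271))))))), by decide +kernel⟩

def k10_A00pm_012_s1 : ∃ t, chk3 f_A00pm_012_s1 t 78 26 1 = true :=
  ⟨(b (b (b (a (l 3) (a (l 3) (c (l 532044927) (l 531965567)))) (a (l 3) (a (c (c (a (l 531903359) (l 531935359)) (l 531887999)) (a (l 531863167) (l 531878783))) (c (a (l 531942159) (l 531967247)) (c (l 531908223) (l 531899519)))))) (a (c (a (l 531678847) (l 531734543)) (l 531749903)) (a (c (c (l 531794303) (l 531779455)) (l 531788815)) (c (c (l 531844879) (l 531818367)) (c (l 531810175) (l 531820671)))))) (a (a (b (c (l 531566463) (l 531659647)) (c (b (l 531500927) (l 531518591)) (l 532149007))) (b (c (l 531608447) (l 531676543)) (b (a (l 531566719)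 (l 531576447)) (l 531573775)))) (c (b (a (l 531646079) (l 531680383)) (a (b (l 531558783) (l 531542655)) (b (l 531584895) (l 531558783)))) (a (b (l 531692927) (l 531625343)) (b (l 531709311) (l 531365903)))))), by decide +kernel⟩

def k11_A00pm_012_s1 : ∃ t, chk3 f_A00pm_012_s1 t 79 26 1 = true :=
  ⟨(b (a (c (b (a (b (l 532097663) (l 532002687)) (l 532093967)) (a (a (l 531859983) (l 531879295)) (l 532175119))) (b (a (b (l 531998079) (l 531930239)) (l 532260735)) (a (b (l 531866751) (l 531807359)) (l 531858959)))) (a (c (b (l 532134159) (l 531940623)) (b (l 532288127) (l 531881343))) (c (b (l 533244175) (a (l 531964543) (l 531979391))) (b (l 532850703) (l 531903247))))) (a (b (a (c (l 531711759) (l 531725695)) (c (l 531741199) (l 531742847))) (c (a (b (l 531609727) (l 531575167)) (b (l 531633679) (c (l 16757160) (l 16757168)))) (a (b (l 16762224) (l 531634559)) (b (l 531668863) (l 531911039))))) (a (b (c (c (l 531785343) (l 531759231)) (l 532029311)) (b (c (c (l 16756976) (l 16756936)) (l 531951999))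 (c (a (c (l 16755216) (l 16755216)) (b (l 16754504) (a (l 16753640) (l 16752992)))) (a (l 16755384) (b (l 16754664) (l 16753520)))))) (b (c (a (l 531789839) (b (l 16758560) (l 16756200))) (a (l 531774847) (l 531784575))) (c (b (a (b (l 16755640) (c (l 16754456) (l 16754416))) (b (c (a (l 16754744) (l 16754112)) (l 16754352)) (c (l 16753192) (l 16753144)))) (a (b (c (a (l 16753568) (l 16752928)) (l 16753224)) (l 16752024)) (l 16751336))) (b (a (b (l 16755704) (l 16754536)) (b (l 16754432) (l 16753256))) (b (a (l 16753376) (l 16752096)) (l 16751584)))))))), by decide +kernel⟩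

def k12_A00pm_012_s1 : ∃ t, chk3 f_A00pm_012_s1 t 18 27 1 = true :=
  ⟨(a (l 3) (a (l 3) (a (l 3) (b (l 3) (b (l 3) (c (l 532140159) (l 532075903))))))), by decide +kernel⟩

def k13_A00pm_012_s1 : ∃ t, chk3 f_A00pm_012_s1 t 38 27 1 = true :=
  ⟨(a (b (a (b (l 3) (l 531628927)) (a (b (l 3) (l 531596415)) (b (a (l 3) (l 531537935)) (l 531590527)))) (a (b (l 532215935) (a (l 531744639) (l 531715199))) (a (b (l 531647615) (l 531698303)) (b (l 531642239) (l 531760143))))) (b (a (a (b (b (l 531530623) (l 531556623)) (c (l 531571215) (l 531617295))) (b (l 531560063) (b (l 531600255) (l 531626255)))) (b (a (l 531587711) (c (l 531553039) (l 531610639))) (a (b (l 531627903) (l 531654271)) (c (l 531623295) (l 531682943))))) (b (a (a (l 531748367) (c (l 531657343) (l 531668751))) (a (c (l 531695999) (l 531683599)) (c (l 531691791) (a (l 531704703) (l 531753599))))) (b (b (a (a (l 531681407) (l 531697935)) (a (c (l 16760072) (l 531714431)) (c (l 16757496) (l 532093055)))) (a (a (l 531694207) (l 531710991)) (a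 (c (l 16758864) (l 531726207)) (a (l 531768847) (a (l 531793279) (b (l 16755800) (a (l 16755376) (l 16755040)))))))) (a (a (c (l 531700351) (l 531455871)) (a (l 531724927) (l 531736079))) (a (b (c (l 531761023) (l 531737359)) (a (l 531756303) (b (a (l 16756400) (c (l 16755848) (l 16755704))) (a (c (l 16755832) (l 16755704)) (c (l 16755248) (b (l 16755256) (l 16754984))))))) (a (b (a (c (l 16756104) (l 16756008)) (b (l 16755832) (c (l 16755152) (c (l 16755200) (l 16755072))))) (a (b (c (l 16755200) (a (l 16755248) (l 16754976))) (l 16754672)) (c (l 16754240) (l 16754312)))) (b (b (a (c (l 16755088) (l 16755216)) (l 16754608)) (c (l 16754152) (l 16754416))) (l 16756048))))))))), by decide +kernel⟩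

def k14_A00pm_012_s1 : ∃ t, chk3 f_A00pm_012_s1 t 78 27 1 = true :=
  ⟨(b (a (b (a (b (l 531597439) (l 532162175)) (c (l 531566719) (l 531663999))) (a (c (l 531957119) (l 532260991)) (a (l 531661327) (l 531925519)))) (c (b (a (l 531570959) (a (l 531573631) (l 531575423))) (a (b (l 531605375) (a (l 16756656) (b (l 16755904) (l 16754744)))) (b (a (l 16756288) (b (l 16755528) (l 16754384))) (a (b (l 16754568) (l 16753416)) (b (l 16753240) (l 16752088)))))) (b (a (l 531656063) (l 531649295)) (b (a (l 16758592) (b (l 16751256) (a (l 16756032) (l 16754704)))) (a (b (l 16756888) (l 16755752)) (a (b (l 16749656) (a (l 16754088) (l 16753424))) (b (l 16748328) (l 16752440)))))))) (b (a (b (b (a (l 532241023) (a (l 16757720) (l 16756392))) (a (l 531718671) (a (l 16756560) (c (l 16755080) (l 16755440))))) (a (a (l 531744383) (b (l 16756720) (c (l 16755384) (l 16755760)))) (b (a (c (a (l 16755568) (l 16754904)) (l 16755608)) (c (b (l 16754200) (l 16753608)) (l 16754272))) (a (c (a (l 16751760) (l 16753720))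 (l 16754432)) (l 16752888))))) (b (a (b (a (c (l 16754912) (l 16755272)) (c (l 16753584) (l 16753936))) (a (c (l 16756368) (l 16754112)) (l 16752568))) (c (l 16756248) (l 16751384))) (a (c (l 16756560) (l 16751704)) (l 16754072)))) (a (b (c (a (b (a (l 16755520) (a (l 16754528) (l 16753864))) (a (b (l 16754632) (l 16754032)) (l 16753000))) (l 16751600)) (a (b (a (b (l 16756192) (l 16755608)) (b (l 16754872) (l 16754280))) (b (a (a (l 16755352) (l 16754688)) (l 16753688)) (l 16756376))) (l 16752000))) (a (c (l 16751856) (a (l 16752920) (l 16751592))) (l 16754624))) (a (b (l 16754368) (l 16746736)) (a (l 16751192) (l 16744640)))))), by decide +kernel⟩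

def k15_A00pm_012_s1 : ∃ t, chk3 f_A00pm_012_s1 t 79 27 1 = true :=
  ⟨(b (a (b (a (a (c (l 531577215) (l 531645567)) (b (l 531863423) (b (l 16757848) (c (l 16754000) (l 16754296))))) (a (b (l 531597071) (b (c (l 16753800) (l 16754080)) (a (l 16755728) (l 16752440)))) (b (b (l 16757448) (c (a (l 16753936) (l 16753280)) (l 16753872))) (b (c (l 16752472) (l 16752752)) (l 16751440))))) (b (a (a (b (c (l 16754200) (l 16754504)) (c (l 16753056) (l 16753376))) (c (l 16757536) (b (l 16753176) (l 16752056)))) (c (l 16750304) (l 16761120))) (b (c (l 16755160) (l 16750272)) (c (l 16759256) (l 16749136))))) (b (b (c (a (a (b (a (l 16753776) (l 16753120)) (l 16752296)) (l 16751560)) (l 16749608)) (a (a (b (l 16753680) (l 16752552)) (l 16751816)) (l 16749864))) (c (c (l 16759088) (l 16759128)) (c (l 16759280) (l 16759552)))) (b (c (l 16756808) (l 16757168)) (a (l 16745512) (l 16742872))))) (b (c (a (a (l 16757672) (l 16744544)) (c (l 16740560) (l 16740664))) (a (l 16751528) (l 16741072))) (a (a (l 16747912)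 (l 16745296)) (b (a (l 16738616) (l 16736016)) (l 16734992))))), by decide +kernel⟩

def k16_A00pm_012_s1 : ∃ t, chk3 f_A00pm_012_s1 t 8 14 1 = true :=
  ⟨(b (l 3) (a (l 3) (a (l 3) (a (b (l 3) (b (l 3) (a (l 3) (a (l 529949567) (l 530040335))))) (b (l 3) (a (a (b (l 3) (b (l 530159999) (l 530158607))) (b (a (l 3) (c (l 531766655) (l 531891327))) (a (l 530259727) (b (l 530875263) (l 530608255))))) (a (b (b (l 3) (a (l 530952207) (c (l 531389311) (l 531832959)))) (c (c (c (a (l 531726463) (l 531805567)) (l 531846015)) (l 531977999)) (a (l 532072831) (l 532006783)))) (a (b (c (a (c (l 531224335) (l 531919999)) (b (l 531480847) (l 531339391))) (b (l 531907711) (c (l 531838335) (l 531686783)))) (c (c (c (b (l 531887487) (l 531899263)) (l 531976831)) (l 531578495)) (b (l 531345167) (l 531989887)))) (b (c (a (b (c (a (l 531914879) (l 531632255)) (l 531795839)) (c (l 531587455) (l 531652991))) (b (c (c (a (l 531643263) (b (c (l 531676031) (l 531852415)) (l 531929727))) (a (l 531490831) (l 531979391))) (a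 (l 531772031) (l 531890191))) (c (a (l 531609471) (b (l 531832703) (l 531758975))) (c (l 531919631) (l 531856511))))) (a (b (l 531586943) (l 531711359)) (b (a (l 531559807) (b (l 531509375) (l 531573119))) (l 531942671)))) (c (c (c (b (c (c (l 532079999) (l 531967359)) (l 532000383)) (c (l 532103951) (l 532012415))) (b (l 531799679) (l 532078719))) (b (a (l 532038271) (l 531736335)) (l 531793791))) (b (a (l 531827071) (l 531788927)) (a (c (l 532009855) (l 531851647)) (l 531894399))))))))))))), by decide +kernel⟩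

def k17_A00pm_012_s1 : ∃ t, chk3 f_A00pm_012_s1 t 16 30 1 = true :=
  ⟨(b (l 3) (a (l 3) (a (l 3) (a (l 3) (c (b (l 3) (c (b (l 3) (b (a (l 3) (b (a (l 3) (a (l 3) (l 531674239))) (a (a (l 3) (l 531704959)) (l 531822607)))) (b (a (l 3) (a (a (l 531724927) (l 531714431)) (l 531698047))) (c (a (a (l 3) (c (l 531733375) (l 531743871))) (a (l 531717247) (l 531695743))) (a (a (l 3) (l 531760767)) (l 531727743)))))) (b (l 3) (a (b (l 3) (a (l 3) (l 531792767))) (b (a (l 531755391) (l 531736447)) (a (l 531773823) (l 531755135))))))) (b (l 3) (b (l 3) (b (a (l 3) (l 531839615)) (a (l 532424063) (l 531857535)))))))))), by decide +kernel⟩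

def k18_A00pm_012_s1 : ∃ t, chk3 f_A00pm_012_s1 t 32 62 1 = true :=
  ⟨(l 14), by decide +kernel⟩

def k19_A00pm_012_s1 : ∃ t, chk3 f_A00pm_012_s1 t 66 124 1 = true :=
  ⟨(b (l 3) (b (l 3) (l 14))), by decide +kernel⟩

def k20_A00pm_012_s1 : ∃ t, chk3 f_A00pm_012_s1 t 134 248 1 = true :=
  ⟨(c (a (a (l 3) (a (l 3) (b (l 3) (c (c (b (l 3) (l 531857423)) (l 531870223)) (l 531901823))))) (a (b (l 3) (c (a (b (l 3) (l 531856255)) (b (l 531836287) (l 531845759))) (l 531886463))) (b (a (l 3) (b (l 3) (a (l 531830143) (l 531825023)))) (c (c (b (c (l 531805055) (l 531814783)) (l 531819647)) (l 531833727)) (l 531867775))))) (b (a (l 3) (c (l 531906431) (l 531965567))) (a (a (l 3) (l 531979535)) (a (l 531964287) (l 531949183))))), by decide +kernel⟩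

def k21_A00pm_012_s1 : ∃ t, chk3 f_A00pm_012_s1 t 134 498 1 = true :=
  ⟨(a (a (b (l 3) (c (c (a (l 532051327) (l 531906687)) (l 531948927)) (l 532019071))) (c (c (a (b (l 531886719) (l 531896191)) (b (l 532010255) (l 531885951))) (l 532192271)) (l 532467583))) (a (c (c (a (b (l 531865871) (l 531875455)) (b (l 531855487) (l 531865215))) (l 531905295)) (l 532251007)) (c (c (c (b (l 531829375) (l 531839103)) (l 531852815)) (l 531886719)) (l 531967359)))), by decide +kernel⟩

def k22_A00pm_012_s1 : ∃ t, chk3 f_A00pm_012_s1 t 268 499 1 = true :=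
  ⟨(a (l 14) (b (c (a (a (l 531927679) (l 531922815)) (l 531914767)) (l 532013183)) (l 14))), by decide +kernel⟩

def k23_A00pm_012_s1 : ∃ t, chk3 f_A00pm_012_s1 t 269 499 16 = true :=
  ⟨(c (c (c (a (b (l 531861631) (l 531871359)) (b (l 531840127) (a (l 531856255) (b (l 16771464) (a (l 16771096) (b (l 16770912) (b (l 16770712) (a (l 16770664) (l 16770560))))))))) (a (b (l 531862655) (l 531872383)) (b (l 531841151) (a (l 531857279) (b (l 16771464) (a (l 16771096) (b (l 16770912) (b (l 16770712) (a (l 16770664) (l 16770560)))))))))) (c (a (b (l 531863679) (l 531873663)) (b (l 531842431) (a (l 531858303) (b (l 16771464) (a (l 16771096) (b (l 16770912) (b (l 16770712) (a (l 16770664) (l 16770560))))))))) (a (b (l 531864959) (l 531874687)) (b (l 531843455) (a (l 531859583) (b (l 16771472) (a (l 16771096) (b (l 16770912) (b (l 16770720) (a (l 16770664) (l 16770568))))))))))) (c (c (a (b (l 531865983) (l 531875711)) (b (l 531844735) (a (l 531860607) (b (l 16771472) (a (l 16771096) (b (l 16770920) (b (l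 16770720) (a (l 16770672) (l 16770568))))))))) (a (b (l 531867007) (l 531876735)) (b (l 531845759) (a (l 531861887) (b (l 16771472) (a (l 16771096) (b (l 16770920) (b (l 16770720) (a (l 16770672) (l 16770568)))))))))) (c (c (a (b (l 531867775) (l 531877759)) (b (l 531846783) (a (l 531862655) (b (l 16771472) (a (l 16771104) (b (l 16770920) (b (l 16770720) (a (l 16770672) (l 16770568))))))))) (a (b (l 531868543) (l 531878271)) (b (l 531847295) (a (l 531863167) (b (l 16771472) (a (l 16771104) (b (l 16770920) (b (l 16770720) (a (l 16770672) (l 16770568)))))))))) (c (a (l 532140815) (b (l 531847807) (a (l 531863935) (b (l 16771472) (a (l 16771104) (b (l 16770920) (b (l 16770720) (a (l 16770672) (l 16770568))))))))) (a (l 532141327) (b (l 531848575) (a (l 531864447) (b (l 16771472) (a (l 16771104) (b (l 16770920) (b (l 16770720) (a (l 16770672) (l 16770568))))))))))))), by decide +kernel⟩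

def k24_A00pm_012_s1 : ∃ t, chk3 f_A00pm_012_s1 t 269 499 17 = true :=
  ⟨(c (c (c (c (a (l 532141839) (b (l 531849087) (a (l 531864959) (b (l 16771472) (a (l 16771104) (b (l 16770920) (b (l 16770728) (a (l 16770672) (l 16770576))))))))) (a (l 532142607) (b (l 531849599) (a (l 531865727) (b (l 16771480) (a (l 16771104) (b (l 16770920) (b (l 16770728) (a (l 16770672) (l 16770576)))))))))) (c (a (l 532143119) (b (l 531850111) (a (l 531866239) (b (l 16771480) (a (l 16771104) (b (l 16770920) (b (l 16770728) (a (l 16770680) (l 16770576))))))))) (a (l 532143743) (b (l 531850879) (a (l 531866751) (b (l 16771480) (a (l 16771104) (b (l 16770928) (b (l 16770728) (a (l 16770680) (l 16770576))))))))))) (c (c (a (l 532144255) (b (l 531851391) (a (l 531867263) (b (l 16771480) (a (l 16771104) (b (l 16770928) (b (l 16770728) (l 16770632)))))))) (a (l 532144767) (b (l 531852159) (a (l 531868031) (b (l 16771480) (a (l 16771104) (b (l 16770928) (b (l 16770728) (l 16770632))))))))) (a (l 532145791) (b (l 531852927)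 (a (l 531868799) (b (l 16771480) (a (l 16771112) (b (l 16770928) (b (l 16770728) (l 16770632)))))))))) (c (a (l 531879039) (b (l 531854719) (a (l 531870591) (b (l 16771480) (a (l 16771112) (b (l 16770928) (b (l 16770728) (l 16770640)))))))) (a (l 531881343) (b (l 531857279) (a (l 531873151) (b (l 16771488) (a (l 16771112) (b (l 16770936) (b (l 16770736) (l 16770640)))))))))), by decide +kernel⟩

def k25_A00pm_012_s1 : ∃ t, chk3 f_A00pm_012_s1 t 269 499 9 = true :=
  ⟨(c (c (c (a (l 531883903) (b (l 531859839) (a (l 531875455) (b (l 16771488) (a (l 16771120) (b (l 16770936) (b (l 16770736) (l 16770648)))))))) (a (l 531886207) (b (l 531862143) (a (l 531878015) (b (l 16771488) (a (l 16771120) (b (l 16770936) (b (l 16770744) (l 16770648))))))))) (a (l 531889791) (b (l 531866239) (a (l 531881855) (b (l 16771496) (a (l 16771128) (b (l 16770944) (b (l 16770744) (l 16770656))))))))) (c (a (l 531894911) (b (l 531871359) (a (l 531886975) (b (l 16771504) (a (l 16771128) (b (l 16770952) (b (l 16770752) (l 16770656))))))))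 (a (l 531900031) (b (l 531876735) (a (l 531892351) (b (l 16771504) (a (l 16771136) (b (l 16770960) (l 16770720))))))))), by decide +kernel⟩

def k26_A00pm_012_s1 : ∃ t, chk3 f_A00pm_012_s1 t 269 499 5 = true :=
  ⟨(c (c (c (a (l 531905151) (b (l 531882111) (a (l 16771872) (b (l 16771512) (a (l 16771144) (b (l 16770968) (l 16770728))))))) (a (l 531910527) (b (l 531887743) (a (l 16771880) (b (l 16771520) (a (l 16771152) (b (l 16770968) (l 16770736)))))))) (a (l 531918719) (b (l 531896447) (a (l 16771888) (b (l 16771528) (a (l 16771160) (b (l 16770984) (l 16770744)))))))) (c (a (l 531929983) (b (l 531908223) (a (l 16771896) (b (l 16771544) (a (l 16771176) (b (l 16771000) (l 16770760))))))) (a (l 531942015) (b (l 531920767) (a (l 16771912) (b (l 16771560) (a (l 16771192) (b (l 16771016) (l 16770776))))))))), by decide +kernel⟩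

def k27_A00pm_012_s1 : ∃ t, chk3 f_A00pm_012_s1 t 269 499 3 = true :=
  ⟨(c (c (c (a (l 531954303) (b (l 531933567) (a (l 16771928) (b (l 16771576) (a (l 16771208) (l 16770912)))))) (a (l 531967103) (b (l 531947135) (a (l 16771944) (b (l 16771592) (a (l 16771224) (l 16770928))))))) (a (l 531987071) (b (l 531968127) (a (l 16771960) (b (l 16771616) (a (l 16771248) (l 16770952))))))) (c (b (l 532001663) (a (l 532021631) (a (l 16771992) (b (l 16771648) (a (l 16771288) (l 16770992)))))) (b (l 532032639) (a (l 532051583) (a (l 16772032) (b (l 16771680) (a (l 16771328) (l 16771032)))))))), by decide +kernel⟩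

def k28_A00pm_012_s1 : ∃ t, chk3 f_A00pm_012_s1 t 135 248 1 = true :=
  ⟨(c (c (b (c (a (a (b (a (l 531775359) (l 531764863)) (l 531913343)) (b (l 531748223) (l 531757695))) (a (b (l 531726719) (l 531736447)) (l 531709311))) (a (a (l 531794303) (l 531774079)) (a (l 531753855) (l 531733375)))) (a (a (c (b (l 531788671) (l 531798399)) (l 531813503)) (a (l 531788159) (l 531777663))) (a (c (l 532018303) (l 531772799)) (l 531740287)))) (b (a (a (l 531830143) (l 531811455)) (l 532049023)) (a (a (l 531849087) (l 531830399)) (l 532067711)))) (a (a (l 532592255) (l 532443263)) (a (l 532159871) (l 531876735)))), by decide +kernel⟩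

def k29_A00pm_012_s1 : ∃ t, chk3 f_A00pm_012_s1 t 270 498 1 = true :=
  ⟨(c (c (b (a (l 531818367) (l 531797631)) (b (a (l 531826047) (l 531805311)) (a (l 531830911) (a (l 531816063) (a (l 16770712) (c (b (l 16770512) (l 16770240)) (l 16770400))))))) (b (l 531852159) (b (l 531860095) (a (l 531876735) (a (l 16771240) (a (l 16770768) (l 16770456))))))) (a (l 531952255) (b (l 531934079) (a (l 531947903) (b (l 16771248) (c (l 16770680) (l 16770768))))))), by decide +kernel⟩

def k30_A00pm_012_s1 : ∃ t, chk3 f_A00pm_012_s1 t 271 498 1 = true :=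
  ⟨(a (b (a (l 531860607) (b (l 531849599) (c (c (c (l 16770320) (l 16770352)) (l 16770400)) (l 16770528)))) (c (c (b (a (c (a (l 16770584) (l 16770264)) (l 16770456)) (a (b (l 16770096) (b (a (l 16769976) (l 16769856)) (l 16769856))) (b (a (a (l 16769904) (l 16769840)) (a (l 16769792) (l 16769752))) (l 16769736)))) (a (a (b (l 16770208) (b (a (l 16770088) (l 16769976)) (l 16769976))) (b (b (a (l 16770032) (l 16769920)) (l 16769920)) (l 16769864))) (l 16769712))) (b (a (l 16770504) (a (b (l 16770168) (l 16769968)) (b (l 16769904) (l 16769808)))) (a (a (b (l 16770272) (l 16770088)) (b (l 16770032) (l 16769936))) (l 16769784)))) (a (a (b (l 16770784) (b (l 16770392) (l 16770216))) (b (l 16770472) (b (l 16770160) (l 16770056)))) (a (b (b (l 16770296) (l 16770096)) (l 16769968)) (b (b (l 16770040) (l 16769936)) (l 16769840)))))) (b (c (c (a (b (l 16770224) (a (b (l 16769984) (c (b (l 16769784) (l 16769712)) (b (l 16769816) (l 16769744)))) (b (c (b (l 16769728) (l 16769648)) (b (l 16769760) (l 16769680)))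 (l 16769600)))) (b (a (b (l 16769872) (c (b (l 16769664) (l 16769584)) (l 16769664))) (b (c (b (l 16769608) (l 16769520)) (l 16769608)) (l 16769472))) (l 16769448))) (b (a (l 16770296) (a (b (l 16769952) (l 16769728)) (b (l 16769664) (l 16769552)))) (a (a (b (l 16770056) (l 16769848)) (b (l 16769784) (l 16769680))) (l 16769528)))) (b (b (a (l 16770552) (a (l 16770088) (l 16769808))) (a (l 16770296) (a (l 16769864) (l 16769688)))) (b (a (a (l 16770192) (l 16769928)) (l 16769688)) (a (a (l 16769984) (l 16769816)) (l 16769624))))) (c (b (a (c (l 16769584) (l 16769648)) (l 16769376)) (l 16769384)) (b (l 16769656) (l 16769536))))), by decide +kernel⟩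

def k31_A00pm_012_s1 : ∃ t, chk3 f_A00pm_012_s1 t 540 499 1 = true :=
  ⟨(c (b (a (l 531865471) (a (l 531858303) (a (l 531854719) (b (l 16771080) (c (b (l 16770656) (b (l 16770456) (l 16770344))) (l 16770584)))))) (b (a (a (l 531875711) (b (l 16770864) (c (b (l 16770632) (a (l 16770584) (l 16770464))) (l 16770648)))) (c (b (a (b (l 16770584) (a (l 16770528) (l 16770408))) (b (a (l 16770376) (l 16770296)) (l 16770296))) (a (a (b (l 16770432) (l 16770392)) (l 16770344)) (l 16770256))) (b (a (l 16770592) (l 16770392)) (l 16770392)))) (a (c (b (a (b (l 16770688) (a (l 16770632) (l 16770528))) (a (b (l 16770496) (l 16770456)) (l 16770408))) (a (a (l 16770544) (l 16770472)) (l 16770384))) (a (b (b (l 16770744) (l 16770648)) (l 16770568)) (l 16770480))) (c (l 16770232) (l 16770296))))) (b (a (l 531972223) (b (l 16771440) (a (l 16771080) (c (l 16770736) (l 16770816))))) (a (a (b (l 16771176) (b (l 16770808) (l 16770672))) (b (b (l 16771000) (l 16770752)) (l 16770584))) (b (c (a (b (l 16770664) (l 16770520))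 (l 16770432)) (l 16770616)) (l 16770392))))), by decide +kernel⟩

def k32_A00pm_012_s1 : ∃ t, chk3 f_A00pm_012_s1 t 541 499 1 = true :=
  ⟨(b (c (c (b (a (a (l 16770816) (b (l 16770632) (a (l 16770448) (c (l 16770280) (l 16770304))))) (b (a (a (l 16770392) (l 16770232)) (b (a (l 16770144) (l 16770040)) (l 16770040))) (a (b (a (l 16770200) (l 16770104)) (l 16770104)) (l 16770000)))) (a (b (a (a (l 16770496) (b (l 16770408) (l 16770288))) (b (a (l 16770256) (l 16770168)) (l 16770168))) (a (b (a (l 16770320) (l 16770232)) (l 16770232)) (l 16770128))) (l 16769976))) (a (a (b (l 16770872) (b (l 16770480) (l 16770328))) (b (l 16770560) (b (l 16770272) (l 16770192)))) (b (a (b (l 16770376) (l 16770208)) (b (l 16770152) (l 16770064))) (l 16770040)))) (a (a (b (l 16770984) (b (l 16770600) (l 16770448))) (b (l 16770672) (b (l 16770384) (l 16770304)))) (a (b (b (l 16770496) (l 16770328)) (l 16770208)) (b (b (l 16770272) (l 16770184)) (l 16770088))))) (c (b (a (c (l 16770104) (l 16770168)) (l 16769896)) (l 16769904))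 (l 16770088))), by decide +kernel⟩

def k33_A00pm_012_s1 : ∃ t, chk3 f_A00pm_012_s1 t 271 499 1 = true :=
  ⟨(b (a (c (b (a (c (l 16769848) (l 16769912)) (l 16769640)) (l 16769648)) (l 16769840)) (l 16768720)) (a (l 16768776) (l 16767224))), by decide +kernel⟩

def k34_A00pm_012_s1 : ∃ t, chk3 f_A00pm_012_s1 t 33 125 1 = true :=
  ⟨(a (l 14) (b (a (a (l 14) (b (a (l 14) (b (c (b (b (a (l 531901567) (a (a (c (b (l 16770864) (l 16770744)) (l 16770856)) (b (l 16770744) (l 16770672))) (c (l 16770568) (l 16770632)))) (a (a (l 14) (b (b (l 16770896) (l 14)) (l 14))) (c (a (l 16770632) (l 16770512)) (l 16770632)))) (a (l 14) (c (b (l 16770520) (l 16770464)) (l 16770544)))) (a (b (a (l 16771360) (b (l 16771184) (l 16770960))) (l 14)) (b (b (a (l 16770912) (l 16770736)) (l 16770728)) (l 16770632)))) (l 14))) (l 14))) (b (a (c (a (b (a (b (b (l 16770416) (l 16770360)) (l 16770280)) (l 16770040)) (l 16768904)) (b (l 16768872) (l 16769952))) (a (b (l 16770328) (l 16768816)) (l 16768016))) (b (a (c (a (l 16767696)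 (l 16766920)) (l 16764592)) (c (l 16765752) (l 16765664))) (a (l 16768352) (l 16764176)))) (a (a (l 14) (b (l 16768376) (l 14))) (c (c (l 16767928) (l 16767896)) (b (l 16763392) (l 16761856)))))) (a (l 14) (a (l 14) (a (l 14) (b (l 16758736) (l 14))))))), by decide +kernel⟩

def k35_A00pm_012_s1 : ∃ t, chk3 f_A00pm_012_s1 t 16 63 1 = true :=
  ⟨(l 14), by decide +kernel⟩

def k36_A00pm_012_s1 : ∃ t, chk3 f_A00pm_012_s1 t 34 60 1 = true :=
  ⟨(b (l 3) (b (a (l 3) (a (l 3) (a (c (l 531314815) (l 531533183)) (l 532225551)))) (a (l 3) (a (a (l 3) (a (a (l 531453311) (l 531445119)) (l 531703167))) (a (c (l 531323775) (l 531537023)) (l 531965455)))))), by decide +kernel⟩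

def k37_A00pm_012_s1 : ∃ t, chk3 f_A00pm_012_s1 t 68 122 1 = true :=
  ⟨(c (a (b (l 3) (b (l 3) (a (l 3) (a (l 3) (a (l 3) (l 531567999)))))) (c (b (b (l 3) (a (l 3) (a (a (l 3) (l 531443215)) (l 531687551)))) (a (a (b (l 3) (l 531520895)) (a (l 531494527) (l 531484031))) (a (l 531467135) (a (l 531458319) (l 531440655))))) (b (a (l 3) (a (l 531516943) (l 531488127))) (a (l 531832191) (a (l 531538047) (l 531790463)))))) (b (a (l 3) (a (l 3) (c (l 531586063) (l 532222079)))) (a (a (l 3) (l 532253055)) (a (l 531687039) (l 532471311))))), by decide +kernel⟩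

def k38_A00pm_012_s1 : ∃ t, chk3 f_A00pm_012_s1 t 136 123 1 = true :=
  ⟨(c (a (c (c (a (b (a (l 3) (b (l 3) (l 531625855))) (b (c (l 531643519) (l 531655551)) (l 531668607))) (b (b (l 3) (l 531608959)) (b (l 531628159) (l 531647103)))) (b (b (l 3) (a (l 531656063) (l 531635583))) (b (a (l 531675007) (l 531654527)) (l 531949695)))) (a (b (l 531955839) (l 531992703)) (b (l 531668607) (l 531705471)))) (b (a (c (c (b (l 531568511) (l 531587455)) (l 531871871)) (l 531649919)) (c (b (l 531560831) (l 531579775)) (l 531630975))) (a (b (l 531917071) (l 531667583)) (b (l 531628671) (l 531647615))))) (b (a (c (l 532011135) (l 531820415)) (l 532287871)) (a (c (l 532046719) (l 531854975)) (l 532323199)))), by decide +kernel⟩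

def k39_A00pm_012_s1 : ∃ t, chk3 f_A00pm_012_s1 t 137 123 1 = true :=
  ⟨(b (c (c (b (a (a (l 531539839) (l 531518591)) (l 531483919)) (a (a (l 531558783) (l 531537535)) (l 531503231))) (a (l 531868799) (l 532098431))) (a (l 531721855) (l 531960191))) (b (a (c (c (l 531565183) (l 531630975)) (l 531751295)) (a (b (l 531639935) (a (a (c (c (l 16768344) (l 16768456)) (l 16768664)) (b (l 16768464) (b (l 16768072) (a (l 16767928) (l 16767832))))) (b (c (a (l 16768000) (a (l 16767760) (l 16767640))) (l 16768144)) (c (c (a (l 16767584) (l 16767432)) (l 16767648)) (l 16767872))))) (a (b (b (l 531625087) (c (a (l 16767856) (a (l 16767616) (l 16767496))) (l 16768016))) (b (a (c (l 16767504) (l 16767800)) (l 16767480)) (l 16764808))) (b (b (c (c (a (l 16767648) (l 16767360)) (l 16767640)) (l 16767880)) (c (c (l 16767232) (l 16767360)) (l 16767600))) (c (l 16767096) (l 16767384)))))) (a (a (b (l 531693695) (a (b (l 531705727) (c (a (c (l 16768632) (l 16768736)) (b (l 16768488) (l 16768312))) (c (l 16768728)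 (l 16768872)))) (a (b (c (l 16768544) (l 16768800)) (b (c (l 16768240) (l 16768496)) (l 16768272))) (b (c (b (l 16768352) (l 16768176)) (l 16768528)) (l 16768176))))) (b (a (b (l 531678847) (a (c (l 16768416) (l 16768672)) (c (b (l 16768216) (l 16768032)) (l 16768400)))) (a (c (b (l 16768280) (c (l 16767872) (l 16767992))) (b (l 16768544) (l 16768200))) (b (b (l 16768208) (a (l 16768064) (l 16767968))) (l 16767896)))) (c (a (a (b (b (l 16768104) (l 16768016)) (l 16767928)) (l 16767856)) (l 16765048)) (a (l 16765584) (l 16767920))))) (c (a (b (a (b (c (a (l 16767728) (l 16767576)) (l 16767784)) (l 16767584)) (l 16767384)) (l 16767288)) (l 16766880)) (a (b (a (l 16765320) (l 16767648)) (l 16767528)) (l 16767128)))))), by decide +kernel⟩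

def k40_A00pm_012_s1 : ∃ t, chk3 f_A00pm_012_s1 t 69 122 1 = true :=
  ⟨(b (b (a (c (a (c (l 531362687) (l 531441279)) (l 531357311)) (l 532366351)) (a (l 531970063) (l 531440511))) (b (c (a (a (l 531406207) (l 531364223)) (a (l 531343487) (l 531344511))) (a (l 532103295) (l 531552127))) (a (c (a (l 531947391) (l 531368575)) (l 532375167)) (a (l 531712895) (a (l 531449471) (a (l 16766720) (l 16768680))))))) (a (c (b (a (a (l 531704335) (l 531410559)) (l 531380095)) (a (c (l 531413519) (l 531490175)) (l 531407743))) (a (l 532679951) (l 531847551))) (c (a (b (l 531359103) (a (b (l 16769720) (a (b (l 16766664) (c (l 16766112) (l 16766280))) (b (l 16768656) (l 16765784)))) (b (a (b (l 16766344) (l 16765880)) (b (l 16765736) (l 16765496))) (l 16765448)))) (b (a (b (l 16766480) (a (b (l 16766032) (l 16765592)) (c (l 16765264) (l 16765464)))) (b (a (b (l 16765728) (l 16765312)) (l 16767712)) (l 16764888))) (a (b (l 16765160) (l 16764904)) (l 16764496)))) (b (a (l 531564927) (a (b (l 16766896) (a (l 16766248)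 (l 16765816))) (b (a (l 16765992) (l 16765576)) (l 16765344)))) (a (a (b (l 16767472) (a (b (l 16767048) (l 16766592)) (l 16763728))) (b (a (l 16763904) (l 16766080)) (l 16765856))) (l 16765192)))))), by decide +kernel⟩

def k41_A00pm_012_s1 : ∃ t, chk3 f_A00pm_012_s1 t 69 123 1 = true :=
  ⟨(a (b (a (c (b (l 531475727) (b (a (l 531504511) (b (a (l 16767624) (a (l 16767112) (l 16766824))) (a (a (l 16767264) (l 16766976)) (l 16766704)))) (a (a (b (l 16767928) (c (a (l 16767504) (l 16767208)) (l 16767496))) (b (c (a (l 16767352) (l 16767056)) (l 16767352)) (c (l 16766928) (l 16767072)))) (a (b (l 16766848) (l 16766712)) (l 16766504))))) (b (l 531655039) (a (b (l 16771288) (a (b (l 16768224) (l 16767736)) (a (l 16764952) (l 16764744)))) (b (a (b (l 16767944) (l 16767456)) (b (l 16767320) (l 16767048))) (l 16766992))))) (b (c (a (b (l 531441279) (a (a (l 16767216) (b (l 16767136) (l 16766672))) (b (a (l 16766792) (l 16766512)) (l 16766400)))) (b (a (b (l 16766992) (c (l 16766432) (l 16766592))) (b (c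 (l 16766272) (l 16766432)) (l 16766096))) (a (l 16766192) (l 16765904)))) (a (b (l 16768080) (a (b (l 16767648) (l 16767176)) (b (l 16767032) (l 16766768)))) (b (a (b (l 16767352) (l 16766880)) (l 16764016)) (l 16766424)))) (a (b (a (a (c (l 16766560) (l 16766912)) (l 16766568)) (l 16763744)) (l 16763640)) (c (l 16765688) (l 16766024))))) (a (c (b (a (b (a (b (c (l 16767080) (l 16767216)) (l 16767000)) (l 16766800)) (l 16766704)) (l 16766296)) (l 16765120)) (b (a (b (l 16767264) (l 16766984)) (l 16766584)) (l 16764896))) (b (l 16767400) (l 16761992)))) (a (b (c (b (a (b (a (l 16765880) (l 16765600)) (l 16765504)) (l 16765080)) (l 16764648)) (b (a (l 16766008) (l 16765448)) (l 16764352))) (b (l 16761768) (l 16764232))) (b (b (l 16764192) (l 16761512)) (b (l 16764032) (l 16756008))))), by decide +kernel⟩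

def k42_A00pm_012_s1 : ∃ t, chk3 f_A00pm_012_s1 t 70 60 1 = true :=
  ⟨(b (a (c (a (b (l 3) (c (l 531271439) (l 531381375))) (b (l 531360127) (l 531364735))) (a (a (l 531566863) (l 531588879)) (l 531094655))) (c (a (l 531421055) (l 531507071)) (l 532226063))) (a (a (c (b (l 531331855) (l 531344767)) (l 531577871)) (c (b (l 531374095) (b (l 531385983) (a (l 16769488) (b (l 16766080) (c (l 16764952) (l 16765200)))))) (b (l 531638143) (b (l 531645823) (a (l 531635583) (b (l 16766616) (a (l 16765952) (l 16765360)))))))) (b (c (a (l 531439487) (a (l 531504767) (b (l 16769152) (b (l 16765088) (a (l 16764416) (b (l 16764080) (l 16763760))))))) (a (l 531720831) (b (l 531826815) (a (l 531803007) (b (l 16765776) (b (l 16759848) (l 16764728))))))) (a (a (b (l 531561855) (b (a (l 16765408) (b (l 16765048) (l 16759368))) (b (a (l 16764704) (l 16764344)) (l 16759072)))) (a (b (l 531594111) (b (b (l 16759272) (l 16764264)) (l 16764016))) (b (b (l 16765552) (b (l 16764824) (l 16759184))) (l 16758704)))) (b (a (b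 (a (b (l 16765200) (l 16764720)) (b (l 16764616) (l 16759016))) (a (b (l 16759096) (l 16764104)) (l 16763960))) (b (a (b (l 16758944) (l 16763976)) (l 16763832)) (l 16763616))) (a (l 16763592) (l 16763120))))))), by decide +kernel⟩

def k43_A00pm_012_s1 : ∃ t, chk3 f_A00pm_012_s1 t 142 120 1 = true :=
  ⟨(b (a (l 530161167) (a (l 530803839) (l 530613119))) (a (c (l 531625599) (l 531951231)) (c (b (l 531757951) (b (a (l 16765400) (b (l 16764544) (c (l 16766528) (l 16764304)))) (a (c (l 16764304) (l 16764680)) (a (b (l 16763912) (l 16763584)) (b (l 16760920) (l 16763336)))))) (b (l 532105855) (b (a (l 16766184) (c (l 16764968) (l 16765464))) (a (l 16765320) (b (l 16762040) (l 16764400)))))))), by decide +kernel⟩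

def k44_A00pm_012_s1 : ∃ t, chk3 f_A00pm_012_s1 t 143 480 1 = true :=
  ⟨(a (a (l 530696063) (c (l 531141391) (l 532137599))) (c (a (a (l 531209087) (l 531255935)) (c (c (l 532002943) (l 532089215)) (l 532204415))) (a (l 532064895) (a (l 532007295) (l 531967615))))), by decide +kernel⟩

def k45_A00pm_012_s1 : ∃ t, chk3 f_A00pm_012_s1 t 143 481 2 = true :=
  ⟨(b (c (c (a (l 531788415) (a (l 16764464) (a (a (l 16763856) (b (l 16763832) (b (l 16763512) (a (l 16763384) (l 16763312))))) (b (b (a (l 16763704) (a (l 16763528) (b (l 16763464) (l 16763392)))) (a (a (l 16763552) (b (l 16763488) (l 16763400))) (b (a (l 16763392) (l 16763336)) (l 16763312)))) (a (b (a (l 16763376) (l 16763312)) (l 16763240)) (l 16763200)))))) (a (l 531867007) (a (l 16764680) (a (b (l 16764176) (a (l 16763880) (b (l 16763752) (l 16763592)))) (b (b (a (l 16763944) (c (a (l 16763712) (l 16763616)) (l 16763792))) (a (a (l 16763792) (l 16763688)) (l 16763592))) (a (b (l 16763592) (l 16763488)) (l 16763448))))))) (a (l 531994239)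 (a (l 16765024) (a (b (l 16764552) (a (l 16764256) (b (l 16764144) (l 16763984)))) (b (b (l 16764096) (a (l 16764072) (l 16763688))) (l 16763512)))))) (a (c (l 531830655) (l 531997055)) (c (a (b (a (l 16764168) (a (l 16763808) (b (l 16763680) (c (l 16763376) (l 16763608))))) (a (b (l 16763848) (a (l 16763752) (l 16763520))) (b (a (c (l 16763392) (l 16763624)) (l 16763368)) (a (l 16763368) (l 16763272))))) (a (b (a (a (b (l 16763512) (l 16763384)) (b (l 16763440) (l 16763336))) (c (l 16763200) (l 16763440))) (l 16763176)) (l 16763088))) (b (a (a (l 16764632) (c (l 16764056) (l 16764320))) (a (l 16763832) (l 16763008))) (a (a (l 16764216) (l 16763888)) (l 16762912)))))), by decide +kernel⟩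

def k46_A00pm_012_s1 : ∃ t, chk3 f_A00pm_012_s1 t 143 481 3 = true :=
  ⟨(c (a (l 532182143) (b (a (l 16765128) (b (a (l 16764296) (a (l 16763776) (b (l 16763520) (l 16763288)))) (a (l 16763904) (l 16763112)))) (a (b (l 16764552) (a (l 16764512) (l 16763760))) (a (l 16763184) (l 16762344))))) (a (l 532144511) (a (b (l 16762112) (a (l 16761672) (b (l 16763776) (l 16763320)))) (b (b (a (l 16763864) (b (l 16763240) (l 16763016))) (a (l 16763456) (l 16762648))) (l 16764920))))), by decide +kernel⟩

def k47_A00pm_012_s1 : ∃ t, chk3 f_A00pm_012_s1 t 143 241 1 = true :=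
  ⟨(b (a (c (b (c (a (l 16764864) (b (l 16764048) (a (l 16763864) (a (b (l 16763592) (l 16763416)) (l 16763352))))) (a (l 16765256) (a (l 16764520) (b (l 16764256) (l 16763912))))) (a (a (l 16764432) (b (l 16764136) (a (l 16763824) (a (l 16763664) (l 16763592))))) (a (b (c (a (l 16763560) (l 16763384)) (l 16763936)) (l 16760832)) (l 16760720)))) (b (a (l 16765944) (a (l 16765080) (b (l 16764600) (l 16764176)))) (a (b (l 16765328) (a (l 16765144) (l 16764728))) (a (l 16764224) (l 16763416))))) (c (a (b (b (c (a (a (b (l 16763544) (l 16763392)) (l 16763336)) (l 16763184)) (a (l 16763896) (l 16763640))) (l 16760712)) (l 16762920)) (b (l 16762312) (l 16761280))) (a (a (b (l 16763608) (l 16762576)) (l 16762256)) (a (l 16761416) (l 16763184))))) (c (a (b (a (a (b (c (l 16763584) (l 16764008)) (l 16760880)) (l 16760768)) (l 16763080)) (l 16760296)) (a (l 16761344) (l 16759712))) (a (b (a (a (l 16764624) (l 16764024)) (l 16762776)) (l 16762552)) (a (l 16760576) (l 16758904))))), by decide +kernel⟩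

def k48_A00pm_012_s1 : ∃ t, chk3 f_A00pm_012_s1 t 71 121 1 = true :=
  ⟨(a (b (b (b (a (l 530444671) (a (b (a (l 16759224) (c (l 16763632) (l 16764528))) (a (c (l 16763688) (l 16764560)) (l 16763824))) (c (l 16763184) (l 16763952)))) (a (a (l 531757951) (a (b (l 16764624) (a (l 16759064) (l 16758856))) (b (a (l 16758992) (l 16758808)) (l 16758656)))) (a (b (l 16758512) (l 16763584)) (l 16763216)))) (c (a (a (b (b (l 16766792) (a (l 16763984) (l 16763624))) (a (l 16763608) (l 16763360))) (b (l 16758128) (l 16763024))) (l 16762536)) (a (a (b (a (l 16764976) (l 16764584)) (l 16764272)) (l 16764008)) (l 16762040)))) (a (b (c (l 16762760) (l 16763040)) (l 16761072)) (a (l 16759832) (l 16758248)))) (b (b (a (c (l 16761648) (l 16760944)) (a (l 16758864) (l 16762464))) (a (l 16759152) (a (l 16756720) (l 16755096)))) (a (l 16755856) (b (l 16764232) (l 16751560))))), by decide +kernel⟩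

def k49_A00pm_012_s1 : ∃ t, chk3 f_A00pm_012_s1 t 35 61 1 = true :=
  ⟨(a (b (a (b (b (a (a (l 531462015) (a (l 531477119) (b (l 16766536) (l 16768144)))) (a (b (c (l 16765328) (l 16765872)) (a (b (l 16765152) (l 16764824)) (l 16759400))) (b (a (b (l 16764920) (l 16764624)) (l 16759208)) (l 16764240)))) (a (a (b (a (l 16766440) (l 16768408)) (c (a (l 16767872) (l 16764840)) (a (l 16765752) (l 16765352)))) (b (c (a (l 16767616) (l 16764600)) (b (l 16762848) (l 16765200))) (l 16759400))) (c (l 16763784) (l 16764312)))) (a (b (a (c (b (l 16764632) (l 16764368)) (l 16764976)) (l 16764208)) (l 16763776)) (c (l 16762200) (l 16761800)))) (a (b (b (a (l 16763904) (l 16763424)) (l 16762624)) (l 16758968)) (b (l 16760728) (l 16755920)))) (b (a (c (b (l 16759864) (a (l 16758696) (l 16755728))) (c (l 16758280) (l 16758096))) (b (a (l 16755168) (l 16752160)) (l 16761544))) (a (a (b (l 16755808) (l 16753040)) (l 16761952)) (b (l 16758880) (l 16756144))))) (b (c (a (b (l 16756344) (l 16762088)) (b (l 16760632)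 (l 16745512))) (a (b (l 16755768) (l 16761544)) (b (l 16759944) (l 16744864)))) (b (a (b (l 16747624) (l 16745072)) (a (l 16741816) (b (l 16740032) (l 16737528)))) (a (b (l 16752912) (a (l 16741224) (l 16738280))) (a (l 16736640) (l 16744088)))))), by decide +kernel⟩

def k50_A00pm_012_s1 : ∃ t, chk3 f_A00pm_012_s1 t 136 496 1 = true :=
  ⟨(c (b (c (b (a (c (l 531669119) (l 531694719)) (a (l 531652223) (a (l 16769256) (a (l 16768760) (b (l 16768568) (l 16768400)))))) (a (c (l 531673983) (l 531699583)) (a (l 531657087) (a (a (b (l 16769024) (l 16768768)) (b (l 16768696) (l 16768536))) (a (b (l 16768464) (l 16768384)) (l 16768288)))))) (a (l 531739775) (a (l 531713919) (a (b (l 16769352) (a (l 16768992) (l 16768728))) (b (a (l 16768864) (l 16768592)) (l 16768472)))))) (a (a (l 531732095) (l 531712383)) (b (a (a (l 16769552) (c (a (b (l 16769152) (l 16768896)) (b (l 16768832) (l 16768672))) (a (l 16769112) (b (l 16768928) (l 16768768))))) (a (c (a (b (l 16768600) (l 16768528)) (l 16768432)) (l 16768608))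 (l 16768288))) (a (c (a (a (b (l 16769280) (l 16769024)) (b (l 16768960) (l 16768808))) (a (b (l 16768736) (l 16768664)) (l 16768568))) (a (a (l 16769240) (b (l 16769048) (l 16768904))) (l 16768744))) (a (l 16768424) (l 16768176)))))) (a (l 531846015) (a (b (l 531822719) (a (b (l 16769760) (a (l 16769400) (l 16769160))) (b (a (l 16769288) (l 16769032)) (l 16768912)))) (b (b (a (l 16769520) (c (l 16768856) (l 16768992))) (a (a (l 16769168) (l 16768912)) (l 16768656))) (a (b (l 16768784) (l 16768640)) (l 16768448)))))), by decide +kernel⟩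

def k51_A00pm_012_s1 : ∃ t, chk3 f_A00pm_012_s1 t 136 497 1 = true :=
  ⟨(a (a (c (c (b (l 531715455) (a (b (l 16769992) (a (b (l 16769760) (c (b (l 16769544) (l 16769456)) (l 16769544))) (b (a (l 16769520) (l 16769392)) (l 16769336)))) (b (a (a (l 16769592) (b (l 16769560) (l 16769328))) (b (a (l 16769400) (l 16769264)) (l 16769208))) (a (l 16769248) (l 16769120))))) (b (l 531770495) (b (a (l 16770072) (a (b (l 16769720) (l 16769480)) (b (l 16769424) (l 16769296)))) (a (a (b (l 16769840) (l 16769608)) (b (l 16769544) (l 16769424))) (l 16769264))))) (b (l 531870591) (b (a (l 16770208) (a (l 16769752) (a (l 16769560) (l 16769464)))) (a (c (a (l 16769808) (l 16769592)) (a (l 16769920) (l 16769704))) (l 16769416))))) (b (c (c (b (a (l 16769760) (a (b (l 16769400) (a (l 16769216) (l 16769072))) (b (a (l 16769160) (l 16769008)) (l 16768944)))) (a (a (a (l 16769472) (b (l 16769440) (l 16769200))) (b (a (l 16769280) (l 16769136)) (l 16769072))) (a (b (l 16769008) (l 16768936)) (l 16768840)))) (a (b (l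 16769840) (a (l 16769480) (b (l 16769296) (l 16769160)))) (b (a (l 16769360) (b (l 16769176) (l 16769032))) (l 16769008)))) (a (b (l 16769984) (a (l 16769632) (a (l 16769440) (l 16769344)))) (b (a (l 16769520) (l 16769280)) (l 16769168)))) (c (a (b (c (a (l 16769112) (l 16768984)) (l 16769136)) (c (l 16768936) (l 16769016))) (b (l 16768840) (l 16768728))) (c (l 16769048) (l 16769160))))) (a (c (b (a (b (c (a (b (l 16768872) (l 16768800)) (l 16768704)) (l 16768872)) (l 16768704)) (b (l 16768560) (l 16768456))) (l 16768408)) (b (a (b (l 16769040) (l 16768896)) (l 16768704)) (l 16768424))) (c (b (l 16768136) (l 16767048)) (l 16767608)))), by decide +kernel⟩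

def k52_A00pm_012_s1 : ∃ t, chk3 f_A00pm_012_s1 t 136 249 1 = true :=
  ⟨(c (a (b (b (a (a (b (c (l 16769320) (l 16769400)) (l 16769240)) (b (l 16769104) (l 16769000))) (l 16768656)) (l 16767952)) (b (l 16766456) (a (l 16765720) (l 16764176)))) (b (b (l 16766344) (a (l 16765632) (l 16764096))) (c (l 16767896) (l 16767832)))) (a (a (b (b (b (l 16769408) (l 16769280)) (l 16768592)) (l 16766368)) (b (l 16767784) (l 16770064))) (b (l 16765472) (l 16767760)))), by decide +kernel⟩

def k53_A00pm_012_s1 : ∃ t, chk3 f_A00pm_012_s1 t 137 124 1 = true :=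
  ⟨(b (b (c (a (a (b (a (a (b (b (l 16768376) (l 16768296)) (l 16768208)) (l 16768144)) (b (l 16768008) (l 16767896))) (l 16767856)) (l 16767456)) (l 16765320)) (a (a (b (a (b (l 16768528) (l 16768376)) (l 16768184)) (l 16768064)) (l 16767408)) (l 16765120))) (a (a (l 16766160) (l 16764632)) (a (b (l 16763832) (l 16762376)) (l 16766824)))) (b (a (c (l 16767784) (l 16767648)) (c (l 16759496) (l 16759352))) (a (c (l 16759552) (l 16759448)) (l 16761688)))), by decide +kernel⟩

def k54_A00pm_012_s1 : ∃ t, chk3 f_A00pm_012_s1 t 69 124 1 = true :=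
  ⟨(b (a (b (a (a (b (l 16763656) (l 16762232)) (l 16761432)) (l 16764408)) (a (l 16764552) (l 16761536))) (a (c (l 16760088) (l 16759872)) (b (l 16753176) (l 16750312)))) (b (a (c (l 16760208) (l 16760056)) (a (l 16750376) (l 16747384))) (a (a (l 16753416) (l 16755632)) (a (c (l 16747512) (l 16747352)) (l 16744456))))), by decide +kernel⟩

def k55_A00pm_012_s1 : ∃ t, chk3 f_A00pm_012_s1 t 34 125 1 = true :=
  ⟨(a (b (a (c (b (a (c (l 16767928) (l 16767880)) (l 16759576)) (a (l 16759568) (l 16756488))) (a (b (l 16767832) (l 16759536)) (b (l 16759512) (l 16756456)))) (b (a (l 16761712) (l 16758664)) (a (b (l 16754168) (l 16752616)) (b (l 16751128) (l 16749616))))) (a (b (a (b (l 16757200) (c (l 16755616) (l 16755640))) (b (a (l 16754888) (l 16753352)) (l 16752584))) (a (a (l 14) (l 16752536)) (l 16750264))) (b (a (c (l 16750408) (l 16750312)) (l 16747320)) (c (l 16745912) (l 16745600))))) (a (b (b (a (c (l 16750456) (l 16750368)) (b (l 16748160) (l 16746656))) (c (l 16746016) (l 16745776))) (c (l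 16746776) (l 16741056))) (b (c (l 16741664) (l 16741240)) (c (l 16735680) (l 16734928))))), by decide +kernel⟩

def k56_A00pm_012_s1 : ∃ t, chk3 f_A00pm_012_s1 t 35 62 1 = true :=
  ⟨(b (a (b (a (b (l 16753984) (a (l 16747336) (l 16744392))) (b (a (l 16744312) (l 16741408)) (l 16745256))) (a (b (a (l 16744448) (l 16741488)) (l 16740008)) (c (l 16735968) (l 16735288)))) (a (b (l 16746040) (l 16729728)) (a (b (l 16731096) (l 16725304)) (b (l 16738592) (l 16722344))))) (a (b (a (c (l 16735864) (l 16735160)) (l 16740064)) (a (c (l 16729840) (l 16728808)) (l 16723360))) (b (a (l 16723688) (a (l 16719256) (l 16716312))) (a (l 16717424) (a (l 16712984) (l 16710040)))))), by decide +kernel⟩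

def k57_A00pm_012_s1 : ∃ t, chk3 f_A00pm_012_s1 t 17 63 1 = true :=
  ⟨(a (b (a (a (a (l 14) (a (l 14) (b (l 16744800) (l 14)))) (b (b (l 16747848) (l 16744664)) (c (l 16740256) (l 16734120)))) (b (a (c (l 16735392) (l 16734584)) (c (l 16729496) (l 16728416))) (a (c (l 16729056) (l 16727904)) (c (l 16723120) (l 16721704))))) (a (l 14) (b (a (c (l 16722520) (l 16721024)) (l 16720904)) (a (l 14) (l 16719192))))) (a (a (b (b (l 16733424) (l 16716360)) (b (l 16709576) (l 16702584))) (b (b (l 16716944) (l 16710336)) (b (l 16703520) (l 16696488)))) (b (a (b (l 16710976) (l 16704336)) (a (b (l 16706520) (l 16699848)) (b (l 16703552) (l 16696864)))) (a (b (l 16697480) (l 16690416)) (a (b (l 16692968) (l 16685880)) (b (l 16689976) (l 16682864))))))), by decide +kernel⟩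

def k58_A00pm_012_s1 : ∃ t, chk3 f_A00pm_012_s1 t 36 28 1 = true :=
  ⟨(b (l 3) (a (l 3) (a (a (l 3) (c (l 531699327) (l 531579775))) (a (c (l 531698815) (l 531587199)) (c (l 532234111) (l 531593087)))))), by decide +kernel⟩

def k59_A00pm_012_s1 : ∃ t, chk3 f_A00pm_012_s1 t 74 56 1 = true :=
  ⟨(b (l 3) (a (a (l 3) (c (c (l 531743615) (l 531727999)) (l 531682175))) (a (c (c (l 531880063) (l 531732095)) (a (l 531688831) (l 531693695))) (a (c (l 531743871) (l 531698815)) (b (a (l 531745663) (c (l 531760399) (l 531725583))) (l 531716735)))))), by decide +kernel⟩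

def k60_A00pm_012_s1 : ∃ t, chk3 f_A00pm_012_s1 t 75 56 1 = true :=
  ⟨(a (b (b (a (l 3) (c (l 531806223) (l 531809663))) (c (b (a (a (l 3) (l 531817855)) (c (b (l 532088959) (l 531812367)) (l 532028175))) (a (l 531787391) (a (a (l 531793535) (l 531798399)) (l 531807759)))) (a (b (l 531804031) (l 531765887)) (b (a (l 531813391) (l 531830399)) (a (a (l 531776639) (l 531784319)) (l 531799167)))))) (a (a (a (b (c (b (l 531769359) (l 531755903)) (l 531728911)) (l 531720319)) (b (b (b (l 531765887) (l 531757183)) (l 531744895)) (l 531722511))) (a (b (b (l 531764239) (l 531747711)) (l 531725327)) (b (b (l 531767423) (l 531750527)) (l 531661071)))) (b (a (b (c (l 531779855) (l 531757839)) (c (l 531765775) (l 531737871))) (a (b (l 531782159) (l 531764095)) (b (l 531789583) (l 531770751)))) (a (c (a (l 531745807) (l 531748879)) (l 531710991)) (c (a (l 531685503) (l 531756815)) (l 531857935)))))) (b (a (b (c (l 531800191) (l 531837311)) (c (b (l 532089727) (a (l 531821439) (l 531830911))) (b (l 531851391)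 (a (l 531820927) (l 531841919))))) (b (c (l 531756671) (l 531859071)) (c (c (b (l 531746431) (l 531766399)) (l 532087167)) (b (l 531876991) (l 531867775))))) (c (b (c (a (b (a (l 531799935) (l 531811199)) (a (l 531785087) (l 531795071))) (b (c (l 531775103) (l 531806079)) (c (l 531797631) (l 531812479)))) (a (b (a (l 531802751) (l 531817087)) (l 531790607)) (b (l 531971967) (l 531816975)))) (a (a (b (l 531770639) (l 531757839)) (b (l 531781247) (l 531767567))) (a (b (l 531792255) (l 531777551)) (b (l 531802639) (l 531787535))))) (b (a (b (a (l 531793679) (l 531814015)) (a (l 531635839) (l 531922815))) (b (a (l 531833983) (l 531852927)) (a (l 531807359) (l 531826047)))) (a (a (b (l 531748879) (l 531998847)) (a (l 531751695) (l 531760143))) (a (b (l 531917951) (l 531762703)) (b (l 531801103) (l 531779343)))))))), by decide +kernel⟩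

def k61_A00pm_012_s1 : ∃ t, chk3 f_A00pm_012_s1 t 74 57 1 = true :=
  ⟨(b (a (a (c (l 531704703) (l 531618943)) (c (l 531704703) (l 531625343))) (a (c (l 531705727) (l 531632911)) (a (l 531679247) (a (l 531682175) (l 531683967))))) (a (a (l 531649407) (a (l 531650687) (l 531651455))) (a (c (l 531694207) (l 531601791)) (c (a (l 531695487) (l 531696767)) (l 531879951))))), by decide +kernel⟩

def k62_A00pm_012_s1 : ∃ t, chk3 f_A00pm_012_s1 t 75 114 1 = true :=
  ⟨(a (a (a (c (l 531712527) (l 531921023)) (c (b (l 531723535) (l 531710335)) (b (l 531672703) (l 531649919)))) (a (c (b (a (l 531726719) (l 531729279)) (l 531714063)) (b (l 531681295) (l 531658367))) (c (b (b (l 531738639) (l 531729935)) (l 531854095)) (b (l 531692815) (l 531937663))))) (a (a (c (b (b (l 531746831) (l 531737359)) (a (l 531724671) (l 531728255))) (b (l 531706383) (l 531681295))) (b (a (c (l 531748111) (l 531717247)) (c (l 531752463) (l 531724671))) (c (a (l 531731839) (l 531735423)) (l 531694351)))) (b (a (c (c (l 531761167)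 (l 531755535)) (c (l 531743759) (l 531860607))) (c (c (b (l 531774335) (l 531764095)) (l 531899919)) (a (l 531747087) (l 531754511)))) (c (c (a (l 531745551) (b (l 531755647) (b (b (l 531751295) (a (l 16757768) (a (l 16757296) (b (l 16757080) (a (l 16756968) (l 16756808)))))) (b (a (l 16757400) (a (b (l 16757024) (l 16756832)) (l 16756592))) (b (a (a (l 16757280) (l 16756968)) (l 16756464)) (a (a (l 16757096) (l 16756768)) (l 16756264))))))) (a (l 531734799) (b (l 531748735) (b (a (l 16757920) (b (l 16757480) (a (l 16757264) (b (l 16757048) (l 16756856))))) (b (a (l 16757360) (a (b (l 16756984) (l 16756792)) (l 16756560))) (a (a (l 16757152) (b (l 16756920) (l 16756728))) (l 16756320))))))) (a (a (l 531704447) (l 531711103)) (a (b (l 531724415) (b (l 16757824) (b (l 16757264) (a (l 16757040) (b (l 16756824) (l 16756624)))))) (b (l 531731327) (b (b (l 16757392) (a (l 16757176) (b (l 16756960) (l 16756768)))) (b (a (b (l 16756896) (l 16756696)) (l 16756464)) (l 16756224)))))))))), by decide +kernel⟩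

def k63_A00pm_012_s1 : ∃ t, chk3 f_A00pm_012_s1 t 150 115 1 = true :=
  ⟨(a (a (c (l 531832847) (l 531620991)) (a (b (l 531671935) (l 531667071)) (b (l 531674495) (b (l 531670399) (b (l 531669631) (b (l 16758232) (c (l 16757976) (l 16757688)))))))) (b (a (c (l 531706751) (l 531642751)) (c (l 531711759) (l 531652735))) (b (a (l 531808783) (b (a (l 531680383) (a (l 531683199) (a (l 16757704) (b (l 16757736) (l 16757360))))) (a (b (l 16757848) (a (l 16757624) (a (l 16757384) (l 16757216)))) (a (b (a (l 16757456) (l 16757288)) (l 16756960)) (c (l 16756936) (l 16756688)))))) (a (b (a (l 531672703) (c (a (b (l 16758000) (l 16757616)) (b (l 16757680) (l 16757280))) (b (l 16757576) (l 16757168)))) (a (b (a (l 16757752) (a (l 16757512) (l 16757344))) (c (l 16757304) (l 16757016))) (c (b (l 16757032) (l 16756616)) (l 16756544)))) (b (c (a (b (a (l 16757344) (l 16757008)) (l 16756760)) (l 16756280)) (a (l 16756696) (l 16756016))) (c (l 16758408) (l 16755512))))))), by decide +kernel⟩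

def k64_A00pm_012_s1 : ∃ t, chk3 f_A00pm_012_s1 t 151 230 1 = true :=
  ⟨(a (b (c (a (l 531719295) (a (l 531723903) (a (l 531726463) (b (l 16758184) (b (l 16757632) (b (l 16757352) (l 16757160))))))) (a (l 531667839) (b (l 531681919) (a (l 16758056) (b (l 16757616) (a (l 16757392) (l 16757080))))))) (a (b (c (l 531716991) (l 16758232)) (a (l 531689343) (b (c (a (l 16757712) (l 16757400)) (l 16757352)) (c (a (b (l 16757432) (l 16757240)) (l 16757000)) (a (l 16757120) (l 16756792)))))) (b (b (a (l 16757592) (a (c (b (l 16757296) (l 16757096)) (l 16757016)) (c (l 16756864) (l 16756680)))) (a (c (a (l 16757456) (b (l 16757232) (l 16757032))) (a (l 16757264) (l 16756936))) (c (l 16756624) (l 16756440)))) (c (a (b (a (b (l 16757168) (l 16756968)) (l 16756728)) (l 16756488)) (l 16756016)) (a (b (l 16756696) (l 16756280)) (l 16755816)))))) (b (a (b (b (a (l 531715455) (a (l 16757368) (b (l 16757152) (a (l 16757040) (l 16756880))))) (a (c (l 16757528) (l 16757376)) (a (c (b (l 16757152) (l 16756960)) (b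 (l 16757000) (l 16756800))) (c (l 16756720) (l 16756568))))) (a (a (b (c (l 16757320) (l 16757152)) (c (b (l 16757032) (l 16756832)) (l 16756752))) (b (b (a (l 16757104) (l 16756944)) (l 16756824)) (l 16756520))) (c (b (l 16756488) (l 16756080)) (l 16756128)))) (b (c (a (b (a (b (l 16756888) (l 16756688)) (l 16756448)) (l 16756216)) (l 16755744)) (a (b (a (l 16756648) (l 16756312)) (l 16756072)) (l 16755608))) (c (c (l 16755296) (l 16755240)) (l 16757744)))) (a (c (b (c (l 16758464) (l 16755776)) (l 16754992)) (b (l 16758256) (l 16754800))) (b (c (l 16754456) (l 16754296)) (l 16756176))))), by decide +kernel⟩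

def k65_A00pm_012_s1 : ∃ t, chk3 f_A00pm_012_s1 t 151 231 1 = true :=
  ⟨(a (a (b (b (a (a (b (l 16757504) (c (l 16757208) (l 16756976))) (b (a (l 16757264) (l 16757096)) (l 16756768))) (c (b (l 16756768) (l 16756352)) (l 16756336))) (c (c (l 16756120) (l 16756024)) (l 16755840))) (b (c (l 16755240) (l 16754992)) (l 16756904))) (b (c (c (l 16757776) (l 16757688)) (l 16757520)) (c (l 16753448) (l 16753208)))) (a (b (b (l 16756696) (l 16753240)) (l 16757216)) (b (l 16757544) (l 16750616)))), by decide +kernel⟩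

def k66_A00pm_012_s1 : ∃ t, chk3 f_A00pm_012_s1 t 36 58 1 = true :=
  ⟨(a (a (b (l 3) (a (b (l 3) (b (a (l 3) (a (l 3) (c (l 531710591) (l 531734143)))) (a (a (l 3) (c (c (l 531801215) (l 531691903)) (l 531487615))) (c (l 531783295) (l 531535231))))) (a (b (l 3) (b (c (a (l 531732607) (l 531754367)) (a (l 531496463) (l 530453007))) (l 531177999))) (b (l 531637119) (b (l 531123983) (l 531741711)))))) (b (a (b (l 3) (a (l 3) (l 531639055))) (l 531641471)) (b (a (a (l 531647871) (l 530717055)) (l 531666191)) (a (b (l 531675663) (l 531746063)) (c (l 531796495) (l 531601423)))))) (b (a (a (l 531649663) (l 531654015)) (a (l 531655807) (l 531656063))) (b (a (a (l 531674495) (l 531678335)) (a (l 531679615) (l 531679359))) (a (a (l 531716111) (l 531712271)) (a (l 531711359) (b (c (a (l 16762152) (l 16760880)) (l 16761056)) (a (c (l 16758008) (l 16760128)) (b (c (l 16759696) (l 16753952)) (l 16758624))))))))), by decide +kernel⟩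

def k67_A00pm_012_s1 : ∃ t, chk3 f_A00pm_012_s1 t 72 118 1 = true :=
  ⟨(a (a (b (a (c (a (c (a (c (b (b (l 531780479) (l 531746431)) (l 531928959)) (l 531978623)) (b (l 531582591) (l 531915903))) (a (l 531889679) (l 531770495))) (c (l 531901311) (l 531791743))) (a (a (b (l 531509631) (l 531573631)) (l 531560319)) (l 531586943))) (c (l 531347071) (l 531635327))) (a (c (a (c (a (c (l 531733631) (l 531835007)) (l 531740799)) (a (l 531880063) (l 531627135))) (a (l 531700095) (l 531981439))) (a (l 531943295) (l 531711359))) (c (l 531468159) (l 530955903)))) (a (c (l 531647103) (l 531754367)) (b (l 531045391) (l 531981439)))) (b (a (a (l 531865471) (l 531870335)) (l 531864591)) (a (l 531963151) (l 531916671)))), by decide +kernel⟩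

def k68_A00pm_012_s1 : ∃ t, chk3 f_A00pm_012_s1 t 72 119 1 = true :=
  ⟨(a (a (c (a (a (c (b (a (b (l 531787391) (l 531658879)) (l 531764095)) (c (l 532148607) (l 532102527))) (b (l 531735311) (l 532110975))) (b (l 531415055) (c (l 531472767) (l 532142207)))) (a (c (l 531955471) (l 532116607)) (b (l 531994495) (b (l 532004735) (b (l 16764184) (a (l 16763536) (b (l 16763392) (l 16760376)))))))) (a (a (b (l 531789439) (l 531894911)) (b (l 531827071) (l 531933311))) (a (l 531647103) (b (l 531893375) (b (l 16765352) (b (l 16764200) (l 16763432))))))) (b (a (l 530989951) (l 532042111)) (b (b (c (l 531911551) (l 16764408)) (a (l 531856767) (a (c (l 16762904) (l 16763392)) (b (l 16762912) (l 16762592))))) (a (a (b (l 532148351) (c (a (b (l 16763032) (l 16762720)) (l 16759984)) (l 16762864))) (b (c (b (l 16762976) (l 16759992)) (l 16763152)) (l 16762632))) (c (b (a (l 16762232) (l 16761736)) (l 16761528)) (l 16761760)))))) (b (a (a (l 531986559) (c (b (l 16763624) (b (l 16762344) (l 16761624))) (b (l 16764224)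 (l 16765360)))) (b (a (a (l 16763072) (l 16765040)) (c (l 16761152) (l 16761824))) (a (b (l 16761648) (l 16761088)) (l 16760424)))) (a (a (b (c (a (b (l 16762360) (l 16761744)) (l 16761544)) (l 16764920)) (l 16760840)) (l 16765696)) (c (l 16758736) (l 16758176))))), by decide +kernel⟩

def k69_A00pm_012_s1 : ∃ t, chk3 f_A00pm_012_s1 t 73 59 1 = true :=
  ⟨(b (a (a (b (l 531848463) (b (b (l 16763392) (c (l 16762104) (l 16762536))) (a (b (l 16762312) (l 16761520)) (b (l 16755936) (l 16760544))))) (b (a (l 531834495) (b (l 16762768) (c (l 16758624) (l 16761072)))) (b (a (b (l 16756344) (l 16755616)) (c (l 16759872) (l 16759528))) (c (l 16759120) (l 16758648))))) (b (a (b (a (c (l 16761704) (l 16761224)) (b (l 16760576) (a (l 16760152) (l 16759448)))) (a (b (l 16757776) (l 16759600)) (l 16758552))) (a (b (b (l 16759200) (l 16758360)) (l 16757104)) (l 16759104))) (b (a (c (l 16757888) (l 16757376)) (l 16754752)) (a (l 16756056) (l 16753200))))) (b (b (a (a (c (l 16759736) (l 16759800)) (l 16757296)) (a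 (l 16754488) (c (l 16751872) (l 16751448)))) (a (a (l 16758400) (l 16755664)) (a (l 16752928) (l 16744936)))) (a (a (l 16755848) (l 16753224)) (a (l 16750584) (a (l 16753848) (l 16747280)))))), by decide +kernel⟩

def k70_A00pm_012_s1 : ∃ t, chk3 f_A00pm_012_s1 t 74 58 1 = true :=
  ⟨(b (a (a (l 531655807) (a (l 531656319) (l 531656831))) (b (a (a (l 531654783) (l 531656319)) (a (l 531658623) (b (l 531660671) (b (a (l 16758928) (c (l 16758440) (l 16758104))) (a (c (b (l 16758504) (l 16758112)) (l 16757952)) (c (b (l 16757840) (l 16757416)) (l 16757264))))))) (a (b (a (l 531660927) (a (l 16759560) (b (l 16759304) (b (l 16758720) (l 16758328))))) (a (b (l 16759352) (a (l 16758896) (a (l 16758392) (l 16758048)))) (b (a (c (l 16758552) (l 16758152)) (c (l 16757864) (l 16757456))) (l 16757160)))) (b (a (b (a (l 16758664) (c (b (l 16758376) (l 16757960)) (b (l 16758008) (l 16757584)))) (a (c (l 16758016) (l 16757632)) (l 16757144))) (c (l 16756688) (c (l 16756416) (l 16756200)))) (c (l 16755656) (c (l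 16760616) (l 16755144))))))) (a (b (b (a (l 531673983) (b (a (l 16760360) (a (l 16759392) (c (l 16758936) (l 16758504)))) (a (l 16759576) (a (c (l 16758784) (l 16758336)) (l 16757880))))) (a (a (l 16760968) (a (l 16760000) (b (l 16759752) (l 16758936)))) (a (b (a (l 16759104) (l 16758408)) (l 16757872)) (l 16756888)))) (b (a (a (a (b (l 16760096) (l 16759288)) (b (l 16759448) (l 16758584))) (c (l 16758168) (b (l 16758128) (l 16757232)))) (l 16758416)) (a (a (l 16757616) (l 16756168)) (a (c (l 16754960) (l 16754472)) (l 16753304))))) (b (b (a (a (c (l 16757440) (b (l 16757456) (l 16756568))) (l 16755824)) (c (l 16759136) (l 16753488))) (a (l 16757368) (l 16757160))) (b (a (c (l 16753160) (l 16752704)) (l 16760608)) (a (l 16756424) (l 16748368)))))), by decide +kernel⟩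

def k71_A00pm_012_s1 : ∃ t, chk3 f_A00pm_012_s1 t 75 58 1 = true :=
  ⟨(b (a (b (a (b (a (b (l 531663999) (a (l 16758416) (a (c (l 16758080) (l 16757760)) (b (a (l 16757888) (l 16757728)) (l 16757392))))) (b (a (b (l 16758104) (a (l 16757880) (a (l 16757632) (l 16757464)))) (a (b (a (l 16757704) (l 16757536)) (l 16757200)) (b (l 16757280) (l 16756856)))) (c (b (a (l 16757440) (l 16756744)) (l 16756664)) (a (l 16756904) (l 16756216))))) (a (b (b (a (c (l 16757984) (l 16757648)) (l 16757144)) (c (l 16757216) (l 16756872))) (l 16756416)) (b (c (l 16756024) (l 16755704)) (l 16757640)))) (a (c (b (b (l 16758952) (l 16755480)) (l 16754200)) (b (l 16758232) (l 16753888))) (b (c (l 16759760) (l 16754232)) (l 16757912)))) (c (a (b (a (l 16760520) (l 16753880)) (l 16758080)) (l 16756160)) (a (c (l 16758688) (l 16758488)) (l 16755824)))) (b (a (b (c (l 16757688) (l 16757424)) (l 16755848)) (c (l 16754104) (l 16759104))) (a (b (l 16759360) (l 16747136)) (l 16755768)))) (b (a (a (a (l 16755952) (l 16759800))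 (l 16757728)) (b (l 16754504) (l 16752744))) (a (a (l 16756952) (l 16754192)) (a (l 16740984) (l 16738280))))), by decide +kernel⟩

def k72_A00pm_012_s1 : ∃ t, chk3 f_A00pm_012_s1 t 37 59 1 = true :=
  ⟨(b (a (b (a (a (c (l 16754560) (b (l 16754896) (l 16753248))) (b (l 16757552) (l 16755904))) (a (a (l 16759848) (l 16747960)) (l 16756352))) (a (a (b (l 16757144) (l 16755592)) (l 16753544)) (c (l 16754808) (l 16754448)))) (a (b (b (l 16753032) (l 16751440)) (l 16743920)) (b (c (l 16736472) (l 16736216)) (c (l 16733432) (l 16733240))))) (b (a (a (a (a (l 16759312) (l 16747440)) (l 16755872)) (b (l 16752440) (l 16751056))) (a (a (l 16737200) (l 16734528)) (c (l 16730624) (l 16730544)))) (a (a (a (l 16755768) (l 16753088)) (a (l 16739920) (l 16737264))) (a (l 16722784) (l 16717552))))), by decide +kernel⟩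

def k73_A00pm_012_s1 : ∃ t, chk3 f_A00pm_012_s1 t 76 112 1 = true :=
  ⟨(a (a (a (b (l 531790975) (c (l 531896191) (l 531880063))) (b (l 531773567) (c (l 531750015) (l 531855743)))) (b (c (l 531440767) (l 531799935)) (c (b (l 531461503) (c (l 531727487) (l 531768447))) (b (l 531818111) (l 531969407))))) (b (a (l 531803407) (c (l 531710591) (l 531484943))) (a (c (b (l 531456639) (a (l 531741823) (l 531742079))) (b (l 531520271) (l 531838479))) (a (b (l 532019727) (b (l 532031503) (l 532040463))) (c (l 532010767) (b (l 531769215) (l 531784831))))))), by decide +kernel⟩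

def k74_A00pm_012_s1 : ∃ t, chk3 f_A00pm_012_s1 t 152 113 1 = true :=
  ⟨(a (b (c (b (c (l 531762303) (l 531814783)) (c (a (l 531792511) (l 531781247)) (b (l 531833983) (l 531836799)))) (b (a (l 531869567) (l 531883647)) (a (l 531843967) (l 531860863)))) (a (c (b (l 531678991) (l 531797007)) (b (l 531818367) (l 531795471))) (c (b (c (l 531805311) (l 531827583)) (c (l 531802751) (l 531809151))) (b (l 531834751) (a (l 531807359) (l 531815039)))))) (a (b (c (b (l 531771775) (l 531795215)) (b (l 531866495) (l 531875711))) (c (b (c (l 531797887) (l 531838335)) (c (l 531810431) (l 531819391))) (b (l 531850767) (c (l 531824767) (l 531826815))))) (b (c (b (l 531496463) (l 531854863)) (b (l 531847807) (l 531872127))) (b (c (c (l 531792767) (l 531833215)) (l 531731215)) (a (c (l 531821695) (l 531837311)) (c (l 531825791) (l 531844223))))))), by decide +kernel⟩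

def k75_A00pm_012_s1 : ∃ t, chk3 f_A00pm_012_s1 t 153 226 1 = true :=
  ⟨(a (b (c (a (l 531761679) (l 532029823)) (c (l 531808895) (l 531842687))) (c (a (l 531817231) (c (l 531768959) (l 531797119))) (a (l 531855487) (l 531842063)))) (b (a (c (l 531898239) (l 531943951)) (a (c (l 531767935) (l 531804799)) (b (l 531916415) (a (b (l 531789183) (c (l 16756264) (l 16756400))) (b (l 531789695) (c (b (l 16756032) (l 16755896)) (b (a (l 16756240) (l 16756080)) (a (l 16756088) (l 16755944))))))))) (a (c (b (l 531779711) (b (b (l 16756808) (a (l 16756960) (a (l 16756488) (a (l 16756256) (l 16756112))))) (a (l 531792511) (a (b (l 16756328) (a (l 16756256) (l 16756112))) (b (a (l 16756112) (l 16755976)) (l 16755920)))))) (a (l 531834127) (b (l 531824255) (b (a (l 16756752) (b (l 16756512) (a (l 16756432) (l 16756280)))) (a (b (a (l 16756600) (l 16756440)) (a (l 16756448) (l 16756304))) (b (a (l 16756288) (l 16756152)) (l 16756088))))))) (b (a (b (a (l 531799167) (b (l 16756416) (c (l 16756184) (l 16756328))))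 (b (a (l 16756416) (c (a (l 16756104) (l 16755968)) (a (l 16756256) (l 16756112)))) (a (a (l 16756344) (c (l 16756104) (l 16756264))) (c (l 16755904) (a (l 16756120) (l 16755984)))))) (c (b (a (b (a (l 16756104) (l 16755960)) (l 16755904)) (l 16755704)) (l 16755584)) (b (a (b (a (l 16756248) (l 16756096)) (a (l 16756104) (l 16755960))) (l 16755824)) (l 16755704)))) (a (b (a (b (c (a (l 16756104) (l 16755968)) (a (l 16756272) (l 16756128))) (c (l 16755912) (l 16756072))) (l 16755784)) (a (l 16755800) (l 16755536))) (c (l 16755208) (l 16755320))))))), by decide +kernel⟩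

def k76_A00pm_012_s1 : ∃ t, chk3 f_A00pm_012_s1 t 306 454 1 = true :=
  ⟨(b (a (c (l 531835263) (l 531874943)) (a (c (l 531800191) (l 531863935)) (a (l 531829119) (c (c (l 16756664) (l 16756776)) (b (l 531853183) (l 16756792)))))) (c (a (c (l 531796607) (l 531831679)) (b (a (l 531675007) (b (a (l 531807615) (a (b (l 16756448) (l 16756368)) (l 16756264))) (a (a (l 16756568) (l 16756408)) (l 16756208)))) (b (a (l 16756800) (a (a (l 16756408) (l 16756280)) (l 16756080))) (a (a (l 16756808) (a (l 16756568) (l 16756416))) (l 16756088))))) (a (l 531872895) (b (a (l 531873919) (a (b (l 16756888) (a (l 16756816) (l 16756648))) (b (a (l 16756640) (l 16756496)) (l 16756440)))) (a (a (l 16757136) (b (l 16756904) (a (l 16756816) (l 16756664)))) (a (b (a (l 16756664) (l 16756520)) (l 16756424)) (l 16756208))))))), by decide +kernel⟩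

def k77_A00pm_012_s1 : ∃ t, chk3 f_A00pm_012_s1 t 306 455 1 = true :=
  ⟨(a (b (b (c (l 531823119) (l 531863679)) (a (c (l 531830655) (l 16757456)) (a (l 531848063) (a (b (l 16756824) (c (b (l 16756608) (l 16756536)) (l 16756688))) (b (c (l 16756568) (l 16756728)) (c (l 16756432) (l 16756536))))))) (a (b (a (l 531837823) (a (l 531839615) (a (l 531840639) (c (l 16756744) (l 16756832))))) (b (a (l 531833983) (c (a (l 16756664) (l 16756504)) (a (b (l 16756792) (l 16756696)) (b (l 16756640) (l 16756544))))) (a (a (l 16756832) (b (l 16756728) (a (l 16756672) (l 16756592)))) (c (l 16756392) (a (l 16756552) (l 16756392)))))) (b (a (a (a (b (l 16756808) (b (l 16756672) (l 16756576))) (b (l 16756728) (l 16756544))) (b (c (b (l 16756608) (l 16756512)) (b (l 16756704) (l 16756608))) (l 16756424))) (c (l 16756224) (l 16756320))) (a (a (l 16756296) (l 16756136)) (l 16755888))))) (a (b (b (b (a (c (l 16756648) (l 16756864)) (a (c (l 16756424) (l 16756632)) (l 16756416))) (a (c (a (l 16756568) (l 16756424)) (a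 (l 16756760) (l 16756600))) (l 16756304))) (a (a (c (l 16756360) (l 16756472)) (l 16756264)) (l 16756016))) (c (l 16755552) (l 16755648))) (b (c (b (l 16755848) (l 16755472)) (l 16755792)) (l 16754960)))), by decide +kernel⟩

def k78_A00pm_012_s1 : ∃ t, chk3 f_A00pm_012_s1 t 307 227 1 = true :=
  ⟨(b (a (b (a (b (c (a (l 16756568) (b (a (l 16756408) (l 16756256)) (a (b (l 16756288) (l 16756224)) (l 16756120)))) (a (l 531850623) (b (a (l 16756616) (b (l 16756488) (l 16756416))) (l 16756392)))) (b (a (a (l 16756512) (a (l 16756400) (l 16756328))) (c (l 16756056) (l 16756264))) (a (c (l 16756200) (l 16756416)) (l 16756032)))) (b (a (c (l 16755992) (l 16756184)) (l 16755816)) (a (l 16755832) (l 16755568)))) (a (b (c (l 16755880) (l 16756088)) (l 16755656)) (c (l 16755112) (l 16755280)))) (c (a (l 16754832) (l 16754184)) (b (l 16755072) (l 16754328)))) (c (c (l 16756248) (l 16756320)) (c (l 16756392) (l 16756480)))), by decide +kernel⟩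

def k79_A00pm_012_s1 : ∃ t, chk3 f_A00pm_012_s1 t 154 224 1 = true :=
  ⟨(c (b (a (l 531453055) (l 531750015)) (a (l 531734799) (a (l 531755391) (b (a (l 16756376) (l 16755776)) (a (b (l 16755912) (l 16755608)) (l 16755224)))))) (c (a (l 531743359) (a (l 531750527) (b (l 16756984) (b (a (l 16756360) (b (l 16755896) (l 16755584))) (a (b (l 16755888) (a (l 16755728) (l 16755440))) (l 16755176)))))) (a (l 531751807) (a (l 531748735) (b (l 531744639) (b (b (l 16756168) (a (l 16756176) (a (l 16755696) (l 16755384)))) (a (b (l 16755856) (a (l 16755696) (l 16755400))) (b (l 16755256) (l 16754976))))))))), by decide +kernel⟩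

def k80_A00pm_012_s1 : ∃ t, chk3 f_A00pm_012_s1 t 154 225 1 = true :=
  ⟨(a (c (b (a (l 531743615) (l 531755391)) (a (a (l 531757183) (a (l 16756760) (b (l 16756768) (b (l 16756296) (l 16755976))))) (b (a (c (l 16756288) (l 16756320)) (b (a (l 16756008) (b (l 16755776) (l 16755640))) (l 16755576))) (a (b (a (l 16755984) (b (l 16755768) (l 16755632))) (a (b (l 16755760) (l 16755632)) (l 16755432))) (l 16755176))))) (b (a (l 531766143) (l 531765887)) (a (b (l 531777407) (a (l 531786367) (b (l 16756528) (a (l 16756368) (b (l 16756128) (l 16755968)))))) (b (a (c (l 16756344) (l 16756368)) (a (b (l 16756040) (b (l 16755800) (l 16755664))) (b (b (l 16755800) (l 16755656)) (l 16755456)))) (b (a (a (l 16756040) (b (l 16755808) (l 16755680))) (l 16755328)) (a (a (b (c (l 16755808) (l 16755832)) (l 16755688)) (l 16755472)) (l 16755064))))))) (b (a (c (b (a (l 16756344) (b (l 16755888) (l 16755592))) (a (b (l 16755864) (l 16755584)) (l 16755192))) (b (a (l 16756352) (b (c (l 16755880) (l 16755856)) (a (l 16755712)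 (l 16755432)))) (a (b (a (l 16756032) (c (l 16755720) (l 16755712))) (a (c (l 16755720) (l 16755720)) (l 16755440))) (b (a (l 16755440) (l 16755152)) (l 16755024))))) (b (c (a (l 16755208) (l 16754688)) (a (b (a (l 16755424) (l 16755144)) (l 16755008)) (l 16754600))) (c (l 16754416) (l 16754336)))) (a (a (b (a (b (c (l 16755440) (l 16755448)) (l 16755184)) (l 16755048)) (l 16754664)) (c (l 16754408) (l 16754360))) (c (l 16753488) (l 16753528))))), by decide +kernel⟩

def k81_A00pm_012_s1 : ∃ t, chk3 f_A00pm_012_s1 t 155 112 1 = true :=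
  ⟨(b (a (b (b (a (c (l 16756104) (c (l 16756048) (a (l 16756312) (b (l 16755832) (l 16755512))))) (a (c (l 16755264) (b (l 16755264) (l 16754992))) (l 16754664))) (a (c (a (l 16755792) (l 16755248)) (a (b (l 16755872) (a (l 16755720) (l 16755408))) (b (c (l 16755304) (l 16755232)) (l 16754992)))) (c (l 16754352) (l 16754296)))) (a (b (b (c (l 16755112) (a (a (l 16755408) (l 16755128)) (l 16754720))) (c (l 16754832) (l 16754720))) (c (l 16754424) (l 16754312))) (c (l 16753424) (l 16753488)))) (a (c (l 16755352) (b (l 16753488) (l 16752392))) (l 16756832))) (a (c (a (l 16752832) (l 16751528)) (a (l 16755584) (l 16751856))) (b (l 16755632) (l 16749104)))), by decide +kernel⟩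

def k82_A00pm_012_s1 : ∃ t, chk3 f_A00pm_012_s1 t 77 113 1 = true :=
  ⟨(a (b (b (a (a (b (b (a (l 531915391) (c (c (a (l 16755952) (l 16755680)) (a (l 16755992) (l 16755720))) (a (b (l 16756136) (a (l 16756056) (l 16755904))) (b (l 16755832) (l 16755696))))) (a (a (l 531785343) (c (b (l 16756040) (l 16755896)) (b (l 16756136) (a (l 16756064) (l 16755920))))) (a (c (a (l 16755760) (l 16755632)) (b (l 16755848) (l 16755712))) (l 16755472)))) (a (b (a (c (b (l 16756040) (l 16755896)) (b (l 16756144) (a (l 16756072) (l 16755936)))) (c (b (l 16755760) (l 16755632)) (b (l 16755856) (l 16755720)))) (a (c (l 16755704) (a (l 16755872) (l 16755736))) (l 16755488))) (c (l 16755184) (l 16755248)))) (a (b (c (l 16755184) (l 16755216)) (l 16754688)) (b (l 16754672) (l 16754160)))) (c (l 16755424) (l 16755648))) (a (a (a (b (c (l 16755192) (l 16755280)) (l 16754736)) (c (l 16754328) (l 16754472))) (l 16756104)) (l 16754168))) (a (a (b (l 16755936) (l 16751816)) (a (l 16754232) (l 16750968))) (l 16754616))) (a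 (b (l 16754920) (l 16746816)) (b (l 16747088) (l 16744248)))), by decide +kernel⟩

def k83_A00pm_012_s1 : ∃ t, chk3 f_A00pm_012_s1 t 304 228 1 = true :=
  ⟨(c (c (b (a (l 531782015) (l 531789695)) (a (l 531771263) (b (l 531780991) (a (l 16757640) (b (a (l 16757360) (l 16757048)) (a (b (l 16757080) (l 16756904)) (b (a (l 16756848) (l 16756688)) (l 16756576)))))))) (a (b (l 531783039) (l 531769215)) (b (l 531792767) (a (l 531776383) (a (b (l 16757904) (b (l 16757360) (l 16756992))) (b (l 16757600) (b (l 16757048) (b (a (l 16756848) (l 16756688)) (l 16756576))))))))) (a (a (l 531761935) (l 531903503)) (a (b (l 531786367) (l 531767679)) (b (l 531793791) (a (b (l 16757888) (b (l 16757328) (b (l 16757048) (l 16756864)))) (a (b (l 16757656) (b (l 16757104) (b (l 16756824) (l 16756632)))) (b (l 16757504) (b (l 16756952) (b (l 16756664) (l 16756472)))))))))), by decide +kernel⟩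

def k84_A00pm_012_s1 : ∃ t, chk3 f_A00pm_012_s1 t 305 456 1 = true :=
  ⟨(a (c (a (l 531798143) (a (l 531800959) (b (l 531806847) (b (l 16757264) (b (l 16756992) (a (l 16756888) (b (l 16756776) (l 16756688)))))))) (a (l 531800959) (a (l 531806079) (b (l 531815039) (b (l 16757288) (b (l 16757008) (a (l 16756904) (l 16756752)))))))) (b (c (a (l 531809663) (b (a (l 16757064) (b (l 16756840) (a (l 16756736) (b (l 16756632) (l 16756536))))) (a (b (a (l 16756864) (l 16756712)) (a (b (l 16756728) (l 16756640)) (l 16756528))) (b (a (b (l 16756600) (l 16756504)) (l 16756392)) (l 16756280))))) (a (l 531820159) (b (a (l 16757112) (a (l 16756888) (b (l 16756832) (a (l 16756680) (l 16756600))))) (a (b (a (l 16756912) (l 16756768)) (a (l 16756728) (l 16756576))) (b (a (l 16756608) (l 16756448)) (l 16756336)))))) (a (b (a (c (c (l 16756936) (l 16756968)) (l 16756984)) (b (a (l 531811455) (c (b (l 16756704) (l 16756608)) (b (l 16756744) (l 16756648)))) (c (a (b (l 16756680) (l 16756584)) (l 16756464)) (a (b (l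 16756712) (l 16756616)) (l 16756504))))) (a (b (c (a (b (l 16756808) (l 16756712)) (b (a (l 16756688) (l 16756608)) (l 16756552))) (a (l 16756784) (l 16756624))) (a (c (b (l 16756624) (l 16756528)) (l 16756592)) (l 16756424))) (c (b (l 16756360) (l 16756160)) (l 16756288)))) (b (a (b (c (l 16756416) (l 16756456)) (l 16756248)) (l 16756016)) (c (a (l 16755936) (l 16755608)) (l 16755808)))))), by decide +kernel⟩

def k85_A00pm_012_s1 : ∃ t, chk3 f_A00pm_012_s1 t 305 457 1 = true :=
  ⟨(a (b (c (b (a (l 531789439) (a (b (l 16756936) (a (l 16756832) (b (l 16756720) (l 16756632)))) (b (a (b (l 16756752) (l 16756656)) (l 16756544)) (a (l 16756512) (l 16756352))))) (a (a (l 16757104) (b (a (l 16756960) (l 16756808)) (a (l 16756776) (l 16756616)))) (a (b (a (b (l 16756696) (l 16756600)) (l 16756488)) (l 16756368)) (l 16756136)))) (b (b (a (l 16757400) (a (l 16756944) (a (l 16756712) (l 16756560)))) (a (l 16757216) (a (a (l 16756832) (l 16756680)) (l 16756440)))) (a (a (l 16757088) (b (l 16756880) (a (l 16756768)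 (l 16756608)))) (a (b (a (l 16756648) (l 16756488)) (l 16756368)) (l 16756144))))) (a (b (b (a (a (l 16756904) (c (b (l 16756800) (l 16756704)) (l 16756736))) (c (a (l 16756592) (l 16756424)) (l 16756496))) (a (b (a (l 16756768) (l 16756608)) (c (l 16756592) (l 16756568))) (c (l 16756312) (l 16756296)))) (c (a (l 16756352) (l 16756016)) (a (l 16756320) (l 16756000)))) (a (b (c (l 16756080) (l 16756072)) (l 16755688)) (c (l 16755552) (l 16755544))))) (c (b (a (b (a (b (l 16756296) (l 16756104)) (l 16755872)) (l 16755648)) (b (l 16755376) (l 16754992))) (c (l 16757344) (l 16757352))) (b (a (b (a (l 16756216) (l 16755896)) (l 16755656)) (l 16755208)) (l 16757360)))), by decide +kernel⟩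

def k86_A00pm_012_s1 : ∃ t, chk3 f_A00pm_012_s1 t 304 458 1 = true :=
  ⟨(c (a (c (b (l 531764351) (b (a (l 16757616) (a (l 16757144) (b (a (l 16757000) (l 16756848)) (a (l 16756816) (l 16756656))))) (a (a (l 16757408) (b (l 16757184) (l 16757000))) (a (b (a (l 16756952) (l 16756792)) (l 16756672)) (l 16756440))))) (b (l 531760255) (b (a (l 16757592) (a (l 16757128) (b (l 16756912) (l 16756720)))) (a (a (l 16757384) (l 16757072)) (a (b (a (l 16756928) (l 16756768)) (l 16756656)) (l 16756424)))))) (a (a (b (b (l 16757248) (b (l 16756976) (a (l 16756872) (l 16756704)))) (b (b (l 16756592) (l 16756400)) (l 16756096))) (b (b (b (l 16757032) (a (l 16756928) (l 16756768))) (b (a (l 16756736) (l 16756576)) (l 16756456))) (l 16755968))) (b (a (b (b (a (l 16756800) (l 16756632)) (l 16756520)) (l 16756224)) (b (l 16756288) (l 16755896))) (b (l 16755664) (l 16755264))))) (a (b (l 531879551) (b (a (l 16757528) (a (l 16757064) (b (l 16756856) (l 16756656)))) (a (a (l 16757304) (l 16757000)) (a (b (a (l 16756864)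 (l 16756704)) (l 16756584)) (l 16756360))))) (a (a (b (b (l 16757200) (b (l 16756920) (a (l 16756808) (l 16756648)))) (b (l 16756432) (l 16756024))) (b (b (b (l 16756984) (a (l 16756872) (l 16756720))) (b (l 16756600) (l 16756408))) (l 16755904))) (b (b (a (b (a (l 16756752) (l 16756592)) (l 16756480)) (l 16756248)) (l 16756016)) (l 16755408))))), by decide +kernel⟩

def k87_A00pm_012_s1 : ∃ t, chk3 f_A00pm_012_s1 t 304 459 1 = true :=
  ⟨(b (a (a (a (b (b (l 16757080) (a (l 16756976) (c (l 16756856) (l 16756760)))) (c (b (l 16756736) (l 16756544)) (l 16756536))) (b (c (b (a (l 16756888) (l 16756720)) (l 16756608)) (b (l 16756712) (l 16756512))) (l 16756264))) (b (c (l 16756200) (l 16756120)) (c (l 16755800) (l 16755712)))) (c (c (l 16757632) (l 16754984)) (l 16757544))) (a (a (c (b (l 16756072) (l 16755672)) (l 16755760)) (c (l 16755200) (l 16755104))) (c (l 16754200) (l 16754112)))), by decide +kernel⟩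

def k88_A00pm_012_s1 : ∃ t, chk3 f_A00pm_012_s1 t 305 229 1 = true :=
  ⟨(a (c (b (b (a (c (l 16755592) (l 16755592)) (l 16754928)) (l 16757088)) (b (l 16753672) (l 16752864))) (b (b (c (l 16757864) (l 16755216)) (l 16754424)) (l 16755832))) (b (b (a (l 16756888) (l 16753616)) (l 16755760)) (l 16757168))), by decide +kernel⟩

def k89_A00pm_012_s1 : ∃ t, chk3 f_A00pm_012_s1 t 153 114 1 = true :=
  ⟨(b (a (b (c (a (a (b (b (a (b (a (b (l 16756656) (l 16756560)) (l 16756448)) (l 16756336)) (l 16756112)) (l 16755888)) (b (a (l 16755664) (l 16755336)) (l 16755112))) (b (l 16755432) (l 16754656))) (l 16756688)) (b (a (a (b (a (b (a (b (l 16756728) (l 16756632)) (l 16756520)) (l 16756408)) (l 16756184)) (a (l 16756112) (l 16755792))) (b (a (l 16755864) (l 16755544)) (l 16755312))) (a (l 16754872) (l 16754232))) (a (a (b (l 16755560) (l 16755160)) (l 16754720)) (l 16753760)))) (a (b (c (l 16756824) (l 16756864)) (a (l 16753760) (l 16753104))) (b (a (l 16753256) (l 16752608)) (l 16752136)))) (b (a (l 16755448)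 (l 16751552)) (l 16755848))) (a (b (a (b (l 16755256) (l 16751832)) (l 16756176)) (l 16755200)) (c (l 16753408) (b (l 16749040) (l 16747400))))), by decide +kernel⟩

def k90_A00pm_012_s1 : ∃ t, chk3 f_A00pm_012_s1 t 76 115 1 = true :=
  ⟨(a (b (a (b (a (b (c (l 16757352) (l 16754616)) (l 16756480)) (c (l 16752984) (l 16752880))) (c (l 16757264) (l 16757128))) (c (l 16755408) (l 16755320))) (a (b (l 16755528) (l 16753840)) (a (l 16757928) (l 16746120)))) (b (a (a (l 16753392) (l 16757328)) (b (l 16745720) (l 16744056))) (a (l 16754632) (l 16741536)))), by decide +kernel⟩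

def k91_A00pm_012_s1 : ∃ t, chk3 f_A00pm_012_s1 t 77 57 1 = true :=
  ⟨(b (a (a (b (a (l 16749488) (l 16748216)) (l 16745624)) (a (l 16750584) (l 16754568))) (a (b (l 16743784) (l 16740576)) (b (l 16741240) (l 16738056)))) (a (b (a (b (l 16743152) (l 16741488)) (l 16739776)) (a (l 16738952) (l 16736400))) (a (b (l 16726768) (l 16733864)) (b (l 16724264) (a (l 16731984) (l 16730712)))))), by decide +kernel⟩

def k92_A00pm_012_s1 : ∃ t, chk3 f_A00pm_012_s1 t 39 28 1 = true :=
  ⟨(a (a (b (b (b (a (l 16754840) (l 16746960)) (l 16751032)) (c (l 16741600) (l 16742024))) (b (c (l 16735680) (l 16736056)) (c (c (l 16739640) (l 16739704)) (a (l 16720224) (l 16707272))))) (b (a (b (l 16753600) (l 16737904)) (b (l 16740512) (l 16735336))) (b (l 16736008) (c (l 16745136) (l 16724584))))) (b (b (a (a (l 16737912) (l 16735336)) (a (l 16732760) (l 16730192))) (a (a (l 16732776) (l 16730240)) (c (l 16715672) (l 16726864)))) (a (b (c (l 16715032) (l 16726112)) (b (l 16721080) (l 16696832))) (b (b (l 16722256) (l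 16719288)) (a (l 16715808) (b (l 16714968) (c (l 16711448) (l 16701648)))))))), by decide +kernel⟩

def k93_A00pm_012_s1 : ∃ t, chk3 f_A00pm_012_s1 t 38 58 1 = true :=
  ⟨(a (b (c (a (b (l 16755288) (l 16741368)) (b (l 16739488) (l 16736048))) (a (b (l 16755112) (l 16741168)) (b (l 16739400) (l 16735944)))) (a (b (a (l 16739096) (l 16736440)) (c (l 16734408) (l 16734192))) (b (c (l 16727336) (l 16732456)) (c (a (l 16730424) (l 16727800)) (l 16728992))))) (b (b (a (c (l 16734272) (l 16734288)) (c (a (l 16730424) (l 16727872)) (l 16734512))) (c (a (c (l 16730872) (l 16730808)) (a (l 16726976) (l 16724416))) (a (l 16730824) (a (l 16727048) (l 16724544))))) (a (c (a (b (l 16728656) (l 16725192)) (b (l 16726064) (c (l 16722656) (l 16722584)))) (b (l 16727344) (l 16718640))) (c (b (a (c (l 16723536) (l 16723488)) (a (l 16721584) (l 16720312))) (c (a (b (l 16720928) (l 16719240)) (a (b (l 16719016) (l 16717320)) (l 16716888))) (a (l 16720032) (l 16717488)))) (b (a (l 16723560) (l 16721064)) (a (l 16720112)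 (l 16717616))))))), by decide +kernel⟩

def k94_A00pm_012_s1 : ∃ t, chk3 f_A00pm_012_s1 t 38 118 1 = true :=
  ⟨(a (c (b (a (l 16731120) (a (l 16727160) (l 16724544))) (a (l 16728112) (a (l 16724176) (l 16721576)))) (a (b (l 16730944) (l 16728024)) (b (l 16725776) (l 16722880)))) (c (a (a (b (l 16721944) (c (l 16719024) (l 16718976))) (a (b (l 16720008) (b (l 16717776) (b (l 16716712) (l 16715944)))) (b (l 16718728) (b (l 16716488) (b (l 16715344) (l 16714448)))))) (b (a (b (l 16717592) (a (l 16716688) (a (l 16715728) (b (l 16715472) (l 16714712))))) (b (a (l 16715680) (a (l 16714728) (l 16714080))) (a (c (a (b (l 16714864) (a (l 16714240) (l 16713888))) (b (a (l 16714384) (l 16714056)) (l 16713336))) (a (l 16714416) (b (l 16714184) (l 16713296)))) (c (a (b (l 16713536) (l 16712584)) (l 16712320)) (l 16712640))))) (a (a (b (b (l 16715568) (c (l 16714800) (l 16714760))) (l 16713392)) (b (a (b (a (l 16714752) (l 16714408)) (l 16713656)) (l 16713376)) (l 16711864))) (a (c (a (l 16711712) (c (l 16711000)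 (l 16710920))) (l 16711240)) (l 16714992))))) (a (b (c (l 16720640) (l 16720736)) (a (l 16719064) (b (l 16717240) (l 16720936)))) (b (a (c (l 16716840) (l 16716984)) (a (b (l 16715808) (a (l 16714560) (l 16713872))) (b (l 16714552) (l 16712760)))) (a (b (c (l 16719712) (l 16714624)) (l 16712664)) (c (l 16720952) (l 16710560))))))), by decide +kernel⟩

def k95_A00pm_012_s1 : ∃ t, chk3 f_A00pm_012_s1 t 38 119 1 = true :=
  ⟨(a (a (b (c (l 16725352) (l 16725376)) (a (b (l 16724760) (l 16723552)) (b (l 16722168) (l 16731296)))) (b (b (a (l 16722104) (c (l 16719512) (l 16719632))) (a (l 16720824) (c (l 16728560) (l 16718216)))) (a (b (c (l 16719400) (l 16719560)) (l 16717808)) (l 16726048)))) (b (c (a (a (b (b (l 16722464) (l 16716432)) (l 16715112)) (l 16718184)) (a (c (l 16709952) (l 16709808)) (a (a (l 16707944) (l 16707176)) (l 16706032)))) (a (a (b (l 16716920) (l 16715184)) (l 16712952)) (a (l 16709784) (l 16717088)))) (a (c (a (l 16712512) (l 16709432)) (l 16710888)) (c (a (l 16706328) (a (l 16703992)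 (l 16702464))) (a (l 16706096) (l 16702888)))))), by decide +kernel⟩

def k96_A00pm_012_s1 : ∃ t, chk3 f_A00pm_012_s1 t 39 29 1 = true :=
  ⟨(a (b (a (b (a (b (l 16725384) (l 16727160)) (b (l 16722888) (l 16719424))) (b (c (a (l 16718408) (l 16715896)) (l 16717344)) (a (c (a (l 16715592) (l 16724800)) (l 16725600)) (c (a (l 16718248) (l 16711656)) (l 16722976))))) (b (b (l 16740200) (l 16726240)) (b (a (c (l 16713376) (l 16713656)) (l 16721312)) (a (l 16720016) (l 16706520))))) (c (b (a (a (b (a (b (a (l 16718656) (l 16712728)) (l 16711144)) (l 16710632)) (l 16707480)) (l 16716872)) (l 16722864)) (a (b (l 16712720) (l 16698656)) (l 16694376))) (a (b (a (b (a (l 16722688) (l 16710704)) (l 16707360)) (l 16706256)) (l 16715688)) (b (l 16701568) (l 16693624))))) (b (a (b (b (l 16717032) (a (l 16712064) (b (l 16710480) (l 16708376)))) (a (b (l 16708000) (l 16703520)) (l 16723728))) (a (b (b (c (l 16710480) (l 16690064)) (l 16706560)) (l 16720760)) (b (b (a (l 16719152) (l 16707216)) (l 16703632)) (b (l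 16699152) (l 16694568))))) (a (b (a (l 16697104) (l 16694064)) (a (l 16689320) (l 16686248))) (a (b (l 16691040) (l 16683176)) (b (l 16698512) (l 16680120)))))), by decide +kernel⟩

def k97_A00pm_012_s1 : ∃ t, chk3 f_A00pm_012_s1 t 144 120 1 = true :=
  ⟨(a (b (a (b (a (c (b (c (c (l 532024959) (l 16764576)) (l 16764736)) (c (b (c (a (l 16763904) (l 16763536)) (l 16763960)) (a (b (l 531816319) (b (a (l 532091775) (a (l 16763512) (l 16763432))) (c (a (a (l 16763464) (l 16763384)) (l 16763280)) (a (l 16763672) (l 16763528))))) (c (b (a (b (l 16763368) (l 16763272)) (l 16763176)) (l 16763128)) (b (a (l 16763568) (l 16763424)) (l 16763376))))) (b (l 16764176) (a (b (l 16764016) (l 16763816)) (l 16763632))))) (b (l 531956095) (b (c (l 16763784) (l 16763336)) (a (b (l 16763392) (l 16763184)) (b (l 16763136) (l 16762896)))))) (a (b (l 531326991) (b (c (c (c (b (l 16763272) (l 16763112)) (b (l 16763520) (l 16763352))) (l 16763792)) (c (l 16763400) (l 16762952))) (c (c (l 16763064) (l 16763328)) (l 16762712))))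 (b (c (c (b (l 16763760) (c (l 16763224) (l 16763464))) (l 16764048)) (l 16763536)) (b (c (c (c (l 16762920) (l 16763160)) (l 16763504)) (l 16762896)) (l 16762816))))) (c (a (b (c (b (a (c (b (a (b (l 16763352) (l 16763304)) (l 16763208)) (l 16763176)) (l 16763472)) (l 16763112)) (l 16763040)) (l 16763040)) (l 16762200)) (l 16762080)) (b (c (c (l 16765056) (l 16762216)) (l 16761872)) (l 16763704)))) (b (a (c (b (b (a (l 16763640) (c (b (l 16763136) (l 16762944)) (l 16763544))) (a (c (b (l 16763096) (l 16762944)) (l 16763536)) (l 16763000))) (l 16762816)) (b (b (l 16763360) (l 16762920)) (l 16762184))) (b (c (b (a (l 16760368) (l 16762736)) (l 16762648)) (l 16762544)) (l 16761960))) (a (l 16763712) (l 16760472)))) (b (a (c (l 16760360) (a (l 16759848) (l 16759256))) (l 16758776)) (c (l 16762944) (l 16756928)))) (b (b (c (l 16763808) (l 16760496)) (l 16764176)) (l 16761240))), by decide +kernel⟩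

def k98_A00pm_012_s1 : ∃ t, chk3 f_A00pm_012_s1 t 144 121 1 = true :=
  ⟨(b (a (b (l 16760520) (l 16763680)) (b (l 16753032) (l 16751032))) (a (l 16760512) (l 16747984))), by decide +kernel⟩

def k99_A00pm_012_s1 : ∃ t, chk3 f_A00pm_012_s1 t 145 60 1 = true :=
  ⟨(b (a (b (l 16757400) (l 16753656)) (c (l 16753352) (l 16752856))) (b (a (l 16760336) (l 16747664)) (b (l 16751152) (l 16743976)))), by decide +kernel⟩

def k100_A00pm_012_s1 : ∃ t, chk3 f_A00pm_012_s1 t 73 60 1 = true :=
  ⟨(b (a (b (a (l 16752432) (a (l 16745328) (l 16754568))) (a (b (l 16749848) (l 16748112)) (l 16741400))) (b (a (b (l 16748240) (l 16746672)) (l 16739712)) (a (l 16739056) (l 16731456)))) (a (b (c (l 16754992) (l 16739032)) (c (l 16740952) (l 16740824))) (a (l 16744696) (a (l 16737832) (l 16736736))))), by decide +kernel⟩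

def k101_A00pm_012_s1 : ∃ t, chk3 f_A00pm_012_s1 t 36 61 1 = true :=
  ⟨(a (a (b (a (b (l 16745712) (l 16741240)) (b (l 16743840) (l 16739512))) (b (a (c (l 16736800) (l 16736176)) (l 16745336)) (a (l 16731312) (l 16729704)))) (b (b (a (l 16741968) (l 16740096)) (a (b (l 16738872) (l 16736696)) (c (l 16736120) (l 16735904)))) (b (c (l 16732448) (l 16732008)) (c (l 16727504) (l 16726816))))) (b (a (b (a (a (l 16738688) (l 16737728)) (l 16725768)) (c (l 16743680) (l 16722584))) (a (b (l 16723736) (l 16729984)) (b (l 16721544) (l 16727808)))) (c (a (l 16736720) (l 16732664)) (a (l 16736256) (l 16742752))))), by decide +kernel⟩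

def k102_A00pm_012_s1 : ∃ t, chk3 f_A00pm_012_s1 t 37 30 1 = true :=
  ⟨(b (b (a (a (a (l 16746240) (l 16738536)) (a (l 16736048) (l 16733512))) (b (a (l 16720400) (a (l 16737448) (a (l 16724976) (l 16723600)))) (a (l 16733656) (l 16722792)))) (a (a (b (l 16735512) (c (l 16721744) (l 16732472))) (b (l 16730752) (l 16727352))) (a (l 16728960) (l 16717896)))) (c (b (a (c (a (l 16726512) (l 16721664)) (a (l 16747456) (l 16721616))) (a (l 16737456) (l 16711056))) (a (a (l 16738800) (l 16713200)) (c (l 16726808) (l 16726592)))) (a (b (l 16734608) (a (l 16717488) (l 16712888))) (b (l 16713744) (c (l 16726440) (l 16726344)))))), by decide +kernel⟩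

def k103_A00pm_012_s1 : ∃ t, chk3 f_A00pm_012_s1 t 18 31 1 = true :=
  ⟨(a (b (a (c (a (b (b (l 16725640) (l 16720064)) (b (l 16714224) (l 16708112))) (b (b (l 16722280) (l 16716768)) (b (l 16710968) (l 16704896)))) (a (b (a (l 16722376) (l 16720864)) (b (l 16712520) (l 16706088))) (b (l 16728936) (l 16706288)))) (a (b (b (l 16728688) (l 16733600)) (c (l 16704464) (l 16702968))) (b (b (l 16735296) (l 16708840)) (c (l 16700712) (l 16699376))))) (c (a (b (a (b (l 16701776) (l 16695216)) (b (l 16698544) (l 16691960))) (a (a (l 16685808) (l 16684168)) (l 16692120))) (b (b (l 16714264) (l 16707656)) (b (l 16700800) (l 16693704)))) (a (b (a (b (l 16699432) (l 16692536)) (l 16692984)) (a (b (l 16685432) (l 16678112)) (l 16683944))) (b (a (l 16689744) (l 16686288)) (a (l 16675456) (l 16671984)))))) (b (c (a (b (b (l 16729272) (l 16724032)) (c (l 16715880) (l 16694288))) (b (c (l 16717464) (l 16696128)) (a (l 16687888) (l 16683104)))) (a (b (c (l 16726136) (l 16704856)) (a (l 16695496) (l 16691344))) (b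 (l 16716664) (l 16705568)))) (a (b (c (a (l 16684240) (l 16680088)) (a (l 16682560) (l 16678576))) (b (c (l 16672080) (l 16670120)) (a (l 16665752) (l 16661792)))) (a (b (l 16695952) (l 16682208)) (b (l 16670400) (l 16656792)))))), by decide +kernel⟩

def k104_A00pm_012_s1 : ∃ t, chk3 f_A00pm_012_s1 t 19 30 1 = true :=
  ⟨(a (b (a (b (a (a (b (l 16731904) (l 16718200)) (a (l 16738472) (l 16736928))) (b (b (l 16725048) (l 16733864)) (l 16731408))) (a (l 16732856) (b (l 16707216) (l 16704048)))) (c (a (b (b (l 16707592) (l 16704304)) (l 16699480)) (b (a (l 16711712) (b (l 16699784) (l 16696440))) (a (l 16694704) (l 16691544)))) (a (b (l 16716160) (l 16699072)) (b (a (l 16700824) (l 16718552)) (l 16713488))))) (a (a (b (a (l 16706680) (l 16703720)) (l 16718376)) (b (l 16720064) (l 16691624))) (a (b (l 16692792) (l 16685560)) (b (b (l 16687904) (l 16684624)) (a (l 16680816) (l 16677616)))))) (b (a (b (a (c (l 16714496) (l 16692792)) (l 16707848)) (a (l 16707448) (l 16701224))) (a (b (a (l 16682224) (l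 16679128)) (c (l 16674928) (l 16673240))) (b (a (l 16676032) (l 16683424)) (a (l 16669376) (c (l 16667440) (l 16665184)))))) (a (b (a (l 16679992) (c (l 16674568) (l 16673136))) (a (l 16673112) (c (l 16667848) (l 16666336)))) (a (b (c (l 16668592) (l 16666704)) (c (l 16661904) (l 16659880))) (b (c (a (l 16664120) (l 16661136)) (l 16660248)) (c (a (l 16657472) (l 16654520)) (l 16653440))))))), by decide +kernel⟩

def k105_A00pm_012_s1 : ∃ t, chk3 f_A00pm_012_s1 t 19 31 1 = true :=
  ⟨(a (b (b (a (c (l 16706792) (l 16706192)) (a (l 16676880) (a (l 16672344) (l 16669328)))) (a (c (l 16696408) (l 16674616)) (a (l 16666744) (a (l 16662392) (l 16659536))))) (a (b (c (l 16684616) (l 16662560)) (b (l 16674144) (l 16667104))) (b (a (l 16655136) (a (l 16650960) (l 16648240))) (a (l 16642048) (a (l 16638024) (l 16635440)))))) (a (b (a (b (l 16686104) (l 16676640)) (b (c (l 16660176) (l 16658576)) (c (l 16651272) (l 16649568)))) (a (b (l 16655192) (l 16642720)) (b (c (l 16640848) (l 16638992)) (c (l 16628936)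 (l 16626872))))) (b (a (b (c (a (l 16655952) (l 16653080)) (l 16652392)) (c (a (l 16647360) (l 16644688)) (l 16643784))) (b (c (b (l 16650608) (l 16646800)) (b (l 16647936) (l 16644064))) (a (c (l 16641976) (l 16639296)) (b (l 16639832) (l 16635480))))) (a (b (c (a (l 16637288) (l 16634856)) (l 16633656)) (c (l 16624632) (l 16621984))) (b (c (a (l 16632376) (l 16629856)) (b (l 16630656) (l 16625432))) (c (a (l 16621296) (l 16619008)) (b (l 16619824) (l 16613824)))))))), by decide +kernel⟩

def k106_A00pm_012_s1 : ∃ t, chk3 f_A00pm_012_s1 t 80 2 2 = true :=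
  ⟨(b (l 3) (l 3)), by decide +kernel⟩

def k107_A00pm_012_s1 : ∃ t, chk3 f_A00pm_012_s1 t 162 2 4 = true :=
  ⟨(c (b (l 2) (b (l 3) (b (l 3) (b (l 3) (b (l 3) (a (l 3) (b (a (l 3) (a (l 3) (b (l 3) (a (b (l 3) (l 532235135)) (l 532220799))))) (a (b (l 3) (a (l 3) (a (b (l 3) (l 532326015)) (l 532305535)))) (b (b (a (a (l 3) (l 532254335)) (l 532240255)) (a (a (b (a (l 3) (a (l 3) (l 532267135))) (a (c (l 532310543) (l 532245775)) (c (b (l 532303887) (l 532306303)) (b (l 532239999) (l 532242303))))) (b (l 532261503) (a (c (l 532300047) (l 532236559)) (l 532263807)))) (l 532249615))) (a (a (b (a (l 532286991) (a (l 532283263) (l 532280591))) (l 532299023)) (b (b (a (l 532273791) (l 532268671)) (l 532277375)) (l 532287103))) (b (a (l 532264319) (l 532255103)) (l 532272255)))))))))))) (b (l 2) (b (l 3) (b (l 3) (b (l 3) (b (l 3) (a (l 3) (b (a (l 3) (a (l 3) (b (l 3) (a (l 532109183) (l 532102015))))) (a (b (l 3) (a (l 3) (b (a (l 3) (l 532170879)) (l 532192015)))) (b (b (a (a (l 3) (l 532129919)) (l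 532119679)) (a (a (b (a (l 3) (a (l 3) (l 532140927))) (a (b (l 3) (l 532151055)) (b (c (l 532176399) (l 532113679)) (a (l 532147983) (l 532146191))))) (b (l 532136575) (a (b (l 532141583) (l 532143631)) (l 532139391)))) (l 532128639))) (a (a (c (b (a (l 532191247) (l 532186639)) (l 532204671)) (b (a (l 532128015) (l 532124175)) (l 532142607))) (b (b (a (l 532148095) (l 532144255)) (l 532152703)) (l 532163199))) (b (a (l 532141695) (l 532135039)) (l 532151423))))))))))))), by decide +kernel⟩

def k108_A00pm_012_s1 : ∃ t, chk3 f_A00pm_012_s1 t 163 2 8 = true :=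
  ⟨(b (l 2) (b (l 3) (b (l 3) (b (a (l 3) (b (a (l 3) (b (l 3) (a (l 3) (b (l 3) (a (l 3) (c (l 531813247) (l 531787391))))))) (a (b (l 3) (a (b (l 3) (a (a (l 3) (l 531989119)) (l 531981439))) (a (c (l 531993727) (l 531937919)) (l 531947135)))) (b (a (a (b (l 3) (l 531893887)) (a (b (l 3) (l 531885951)) (l 531865727))) (b (l 531971711) (l 531868287))) (l 532056335))))) (a (b (a (b (l 3) (a (b (l 3) (a (l 3) (b (l 3) (l 532164991)))) (b (a (l 3) (b (l 3) (l 532123007))) (a (l 532149631) (l 532139903))))) (b (a (b (l 3) (a (l 3) (b (l 3) (l 532079487)))) (b (a (l 3) (l 532028287)) (l 532058495))) (a (l 532180751) (l 532094847)))) (b (a (a (a (a (b (l 532193039) (l 532213631)) (l 532198527)) (l 532191359)) (l 532177535)) (l 532150399)) (a (b (l 532217359) (a (l 532247055) (l 532229759))) (l 532462463)))) (b (a (b (a (l 532025983) (l 532006783)) (l 532067711)) (l 532006527)) (b (l 532098575) (l 532145935)))))))), by decide +kernel⟩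

def k109_A00pm_012_s1 : ∃ t, chk3 f_A00pm_012_s1 t 163 2 9 = true :=
  ⟨(b (l 2) (b (l 3) (b (l 3) (b (a (l 3) (b (a (l 3) (b (l 3) (a (l 3) (b (l 3) (l 531753087))))) (a (b (l 3) (a (b (l 3) (l 531904127)) (l 531877247))) (b (a (b (l 531795727) (l 531823743)) (l 531795839)) (l 531857791))))) (a (b (a (b (l 3) (a (b (l 3) (a (l 3) (l 532048511))) (b (a (l 3) (l 532013183)) (l 532038015)))) (b (a (b (l 3) (a (l 3) (l 531976575))) (l 531954191)) (a (l 532013439) (l 531999871)))) (b (a (a (l 532081935) (l 532068479)) (l 532049535)) (a (b (l 532104207) (a (l 532130575) (l 532118143))) (l 532090751)))) (b (a (b (l 531934335) (l 531981183)) (l 531934079)) (b (l 532285823) (l 532058127)))))))), by decide +kernel⟩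

def k110_A00pm_012_s1 : ∃ t, chk3 f_A00pm_012_s1 t 162 2 10 = true :=
  ⟨(b (l 2) (b (l 3) (b (l 3) (b (l 3) (b (l 3) (a (l 3) (b (a (l 3) (a (l 3) (b (l 3) (l 531988607)))) (a (b (l 3) (a (l 3) (b (a (l 3) (l 532046207)) (l 532068111)))) (b (b (a (a (l 3) (l 532008319)) (l 532001919)) (a (a (b (a (l 3) (a (l 3) (l 532017535))) (a (b (l 3) (a (l 3) (l 532025215))) (a (c (l 532053519) (l 531992079)) (c (l 532052239) (l 531991311))))) (b (l 532014719) (a (b (l 532018959) (l 532021007)) (l 532017791)))) (l 532010623))) (a (a (b (a (b (l 532031503) (l 532041343)) (b (a (l 532029055) (l 532027519)) (l 532035967))) (a (l 532053631) (l 532048255))) (b (b (a (l 532025471) (l 532022655)) (l 532031103)) (l 532042367))) (b (a (l 532022143) (l 532017791)) (l 532033663)))))))))))), by decide +kernel⟩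

def k111_A00pm_012_s1 : ∃ t, chk3 f_A00pm_012_s1 t 162 2 11 = true :=
  ⟨(c (b (l 2) (b (l 3) (b (l 3) (b (l 3) (b (l 3) (a (l 3) (b (a (l 3) (a (l 3) (b (l 3) (l 531902591)))) (a (b (l 3) (a (l 3) (b (a (l 3) (l 531954559)) (l 531977343)))) (b (b (a (a (l 3) (l 531919231)) (l 531915391)) (a (a (b (a (l 3) (a (l 3) (l 531926911))) (a (b (l 3) (l 531934479)) (a (l 531931663) (l 531930895)))) (b (l 531925375) (a (b (l 531928959) (l 531931263)) (l 531928959)))) (l 531923839))) (a (a (b (a (b (l 532040831) (l 531950463)) (b (l 531937551) (l 531945855))) (l 531961359)) (b (b (a (l 531935615) (l 531933567)) (l 531941759)) (l 531953535))) (b (l 531933055) (l 531947391)))))))))))) (b (l 2) (b (l 3) (b (l 3) (b (l 3) (b (l 3) (a (l 3) (b (a (l 3) (a (l 3) (b (l 3) (l 531846527)))) (b (a (l 3) (b (a (a (l 3) (l 531860607)) (l 531858815)) (a (a (b (a (l 3) (a (l 3) (l 531867519))) (a (b (l 3) (l 531874319)) (b (l 531870735) (l 531872783)))) (b (l 531866751) (b (l 531869823) (l 531871759)))) (l 531867007))))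 (a (a (l 3) (b (a (l 3) (l 531894399)) (l 531917951))) (a (a (b (a (b (l 532014463) (l 531891071)) (l 531949071)) (l 531902479)) (b (b (a (l 531876735) (l 531875199)) (l 531883391)) (l 531895679))) (b (l 531876223) (l 531890815))))))))))))), by decide +kernel⟩

def k112_A00pm_012_s1 : ∃ t, chk3 f_A00pm_012_s1 t 163 2 5 = true :=
  ⟨(c (b (l 2) (b (l 3) (b (l 3) (b (a (l 3) (b (a (l 3) (b (l 3) (a (l 3) (l 531688319)))) (a (b (l 3) (a (l 531812479) (l 531804287))) (b (l 531743503) (l 531793791))))) (a (a (b (b (l 3) (a (b (l 3) (a (l 3) (l 531940223))) (l 531990799))) (b (a (l 531970687) (l 531962239)) (b (l 531994239) (a (l 532016655) (l 532009343))))) (b (b (a (b (l 3) (l 531884671)) (l 531865471)) (l 531911551)) (b (l 531951231) (l 531989631)))) (b (a (l 531875455) (l 531863167)) (b (l 531934847) (l 532512127)))))))) (b (l 2) (b (l 3) (b (l 3) (b (a (l 3) (b (a (l 3) (b (l 3) (a (l 3) (l 531640191)))) (a (b (l 3) (l 531734911)) (l 531709567)))) (a (a (b (b (l 3) (a (b (l 3) (l 531835775)) (l 531822975)))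 (b (l 531860239) (b (l 531886719) (a (l 532040575) (l 531903359))))) (b (a (b (l 531782015) (l 531819903)) (l 531798143)) (b (l 531855487) (l 531891327)))) (b (a (l 531795327) (l 531793791)) (b (l 531854207) (l 532159615))))))))), by decide +kernel⟩

def k113_A00pm_012_s1 : ∃ t, chk3 f_A00pm_012_s1 t 80 2 3 = true :=
  ⟨(b (l 3) (l 3)), by decide +kernel⟩

def k114_A00pm_012_s1 : ∃ t, chk3 f_A00pm_012_s1 t 162 2 12 = true :=
  ⟨(c (b (l 2) (b (l 3) (b (l 3) (b (l 3) (b (l 3) (a (l 3) (b (a (l 3) (a (l 3) (l 531782783))) (b (a (l 3) (b (a (a (l 3) (l 531803007)) (l 531803007)) (a (a (b (a (l 3) (a (l 3) (l 531809151))) (a (b (l 3) (l 531949439)) (b (l 531811855) (l 531814271)))) (b (l 531809151) (b (l 531811967) (l 531813903)))) (l 531810943)))) (a (a (l 3) (a (b (l 3) (l 531864191)) (l 531844735))) (a (a (b (a (l 531959055) (l 531823375)) (l 531844367)) (b (b (l 531817487) (l 531825791)) (l 531838335))) (b (l 531820159) (l 531835007)))))))))))) (b (l 2) (b (l 3) (b (l 3) (b (l 3) (b (l 3) (a (l 3)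 (b (a (l 3) (a (l 3) (l 531728511))) (b (a (l 3) (b (a (a (l 3) (l 531746431)) (l 531747967)) (a (a (b (a (l 3) (a (l 3) (l 531751551))) (a (b (l 3) (l 531756671)) (b (l 531787903) (l 531756159)))) (b (l 531752063) (a (l 531755535) (l 531756159)))) (l 531755903)))) (a (a (l 3) (a (l 531796607) (l 531786623))) (a (a (b (a (l 531766799) (l 531765775)) (l 531787279)) (b (b (l 531760655) (l 531768959)) (l 531781759))) (b (l 531764863) (l 531779967))))))))))))), by decide +kernel⟩

def k115_A00pm_012_s1 : ∃ t, chk3 f_A00pm_012_s1 t 162 2 13 = true :=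
  ⟨(c (b (l 2) (b (l 3) (b (l 3) (b (l 3) (b (l 3) (a (l 3) (b (a (l 3) (a (l 3) (l 531674751))) (b (a (l 3) (a (a (b (l 3) (b (a (l 3) (a (l 3) (l 531694719))) (a (l 531697935) (l 531698191)))) (b (l 531690367) (b (l 531695999) (a (l 531699215) (l 531700351))))) (b (l 531693951) (l 531701375)))) (a (a (l 3) (l 531734031)) (a (a (b (a (l 531709455) (l 531708943)) (l 531731071)) (b (b (l 531704335) (l 531713151)) (l 531726207))) (b (l 531710335) (l 531725951)))))))))))) (b (l 2) (b (l 3) (b (l 3) (b (l 3) (b (l 3) (a (l 3) (b (a (l 3) (a (l 3) (l 531622015))) (b (a (l 3) (a (b (a (l 3) (l 531635327)) (a (b (a (l 3) (a (l 3) (l 531638911))) (a (l 531574399) (l 531642127))) (b (l 531640959) (a (l 531643775) (l 531645311))))) (b (l 531640703) (l 531647871)))) (a (a (l 3) (l 531677823)) (a (a (b (a (l 531586175) (l 531653135)) (l 531675775)) (b (b (l 531649039) (l 531658111)) (l 531671679))) (b (l 531656575) (l 531672703))))))))))))), by decide +kernel⟩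

def k116_A00pm_012_s1 : ∃ t, chk3 f_A00pm_012_s1 t 163 2 6 = true :=
  ⟨(b (l 2) (b (l 3) (b (l 3) (b (a (l 3) (b (a (l 3) (a (l 3) (l 531282303))) (a (b (l 3) (l 531426687)) (l 531355007)))) (a (a (b (b (l 3) (a (a (l 3) (l 531506303)) (l 531409023))) (b (a (l 531705215) (l 531709311)) (b (a (l 531728511) (l 531732607)) (b (l 531609215) (l 531755279))))) (b (a (b (l 531447423) (l 531681919)) (l 531401855)) (b (l 531448447) (l 531613711)))) (b (a (l 531411071) (l 531693183)) (b (l 531737215) (l 531634559)))))))), by decide +kernel⟩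

def k117_A00pm_012_s1 : ∃ t, chk3 f_A00pm_012_s1 t 81 2 7 = true :=
  ⟨(b (l 2) (b (l 3) (b (l 3) (a (b (l 3) (b (l 3) (a (l 3) (b (a (l 3) (a (l 3) (b (l 3) (l 531485823)))) (a (b (l 3) (a (l 3) (c (l 531592831) (l 531714943)))) (b (b (a (a (l 3) (l 531481215)) (l 531495807)) (b (a (a (a (l 3) (a (l 3) (l 531479935))) (l 531486079)) (l 531500671)) (a (c (a (a (l 531551359) (c (l 531586943) (l 531518079))) (a (l 531557135) (l 531561087))) (a (a (l 531539327) (b (l 531408143) (l 531409935))) (a (l 531414799) (l 531420799)))) (l 531503999)))) (a (a (a (b (b (l 531485711) (l 531500927)) (l 531517567)) (b (c (l 531563535) (b (l 531415055) (l 531424639))) (l 531513471))) (b (c (b (l 531563279) (l 531570559)) (b (l 531555855) (l 531428735))) (c (l 531583615) (l 531441791)))) (b (c (l 531576591) (a (l 531435135) (l 531446399))) (a (l 531518591) (l 531525759)))))))))) (b (a (l 3) (a (b (l 3) (l 531479055)) (b (l 531325199) (l 531514495)))) (a (a (b (b (l 3) (a (a (l 3) (l 531476863)) (l 531491967))) (b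 (l 531509375) (b (l 531528207) (b (l 531539583) (l 531549311))))) (b (l 531602815) (b (l 531541887) (l 531568255)))) (b (l 531547663) (b (l 531588223) (l 531613055))))))))), by decide +kernel⟩

def k118_A00pm_012_s1 : ∃ t, chk3 f_A00pm_012_s1 t 41 4 1 = true :=
  ⟨(l 2), by decide +kernel⟩

def k119_A00pm_012_s1 : ∃ t, chk3 f_A00pm_012_s1 t 41 20 4 = true :=
  ⟨(a (l 3) (b (l 2) (c (a (b (a (l 3) (l 2)) (a (l 3) (b (a (a (l 3) (a (l 3) (l 532307583))) (a (a (l 532556159) (l 532786047)) (a (l 532995455) (l 533183871)))) (a (a (l 3) (a (l 531731583) (l 531996543))) (a (a (l 532245631) (l 532478335)) (a (l 532693887) (l 532891007))))))) (a (b (l 2) (a (a (a (a (l 533167231) (l 533244031)) (b (l 2) (l 533196415))) (b (l 2) (a (l 533282175) (l 533342847)))) (a (a (b (l 2) (l 533387903)) (l 533523583)) (a (l 533546623) (l 533566335))))) (b (l 2) (b (l 2) (a (l 16773800) (l 16772928)))))) (a (a (l 3) (b (l 2) (a (a (l 3) (a (l 532047743) (l 532283519))) (a (a (l 532504447) (l 532709759)) (a (l 532898687)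 (l 533070463)))))) (a (b (l 2) (a (a (a (a (l 533185663) (l 533254015)) (l 533329535)) (b (l 2) (a (l 533283711) (l 533337983)))) (a (a (l 533478271) (l 533504383)) (a (l 533525375) (l 533543295))))) (b (l 2) (b (l 2) (a (l 16773776) (l 16772896))))))))), by decide +kernel⟩

def k120_A00pm_012_s1 : ∃ t, chk3 f_A00pm_012_s1 t 41 20 5 = true :=
  ⟨(a (l 3) (b (l 2) (c (a (a (l 3) (b (l 2) (a (a (l 3) (a (l 532202623) (l 532409727))) (a (a (l 532603775) (l 532784511)) (a (l 532950911) (l 533102207)))))) (a (b (l 2) (a (a (a (l 533772415) (l 533331071)) (a (b (l 2) (l 533285759)) (l 533432959))) (a (a (l 533463423) (l 533486975)) (a (l 533505663) (l 533521791))))) (b (l 2) (b (l 2) (a (l 16773760) (l 16772872)))))) (a (b (a (l 3) (l 2)) (a (l 3) (a (a (l 3) (l 532443775)) (a (l 532776719) (a (l 533000063) (l 533132415)))))) (a (b (l 2) (a (a (a (l 533249151) (l 533332863)) (a (l 533386111) (l 533422975))) (a (a (l 533450111) (l 533470847)) (a (l 533487743) (l 533502335))))) (b (l 2) (b (l 2) (l 16775912)))))))),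 by decide +kernel⟩

def k121_A00pm_012_s1 : ∃ t, chk3 f_A00pm_012_s1 t 82 21 2 = true :=
  ⟨(a (l 3) (b (l 3) (a (l 3) (c (b (a (l 3) (a (l 3) (b (l 3) (l 530281855)))) (a (c (a (l 3) (l 530426495)) (l 530594687)) (a (l 530496639) (l 530492799)))) (a (a (l 3) (l 530768767)) (a (l 530777727) (l 530656383))))))), by decide +kernel⟩

def k122_A00pm_012_s1 : ∃ t, chk3 f_A00pm_012_s1 t 166 42 8 = true :=
  ⟨(a (a (b (l 3) (b (l 3) (a (l 3) (l 529840399)))) (b (b (l 3) (a (l 3) (a (a (l 3) (l 530101887)) (l 530049407)))) (b (a (c (b (l 3) (a (l 3) (b (a (l 3) (c (a (a (a (a (l 3) (l 529678463)) (l 529616255)) (l 529631103)) (l 529662079)) (l 529706367))) (b (a (l 529647375) (c (a (a (l 529614975) (b (l 529616255) (l 529624959))) (b (l 529642623) (l 529646207))) (a (l 529674255) (l 529711231)))) (a (l 529671295) (a (l 529673743) (l 529689215))))))) (a (l 3) (b (l 3) (a (b (l 3) (l 529787519)) (b (l 529803391) (a (l 530044175) (l 529812095))))))) (b (c (a (l 530132095) (l 530052479)) (l 530082175)) (b (a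 (l 530127375) (l 530049151)) (a (c (a (b (l 529997071) (l 529736831)) (l 529869695)) (l 530233871)) (l 530129279))))) (a (a (l 529837439) (a (c (l 529775743) (l 529897855)) (b (a (l 529792127) (b (l 529780863) (l 529822591))) (l 529883775)))) (a (b (b (b (l 530110991) (l 529853967)) (l 530143759)) (l 530195839)) (b (l 530123647) (l 530029183))))))) (a (b (a (c (b (a (l 530538111) (l 531102335)) (l 530008847)) (a (l 530001791) (l 531082111))) (a (c (l 531238527) (l 531345279)) (l 531550847))) (b (a (b (l 530024319) (c (l 529823247) (l 529974399))) (a (l 530887807) (l 531137151))) (a (b (c (l 530002191) (l 530157695)) (l 530050319)) (b (a (l 530722687) (l 530964607)) (l 529977871))))) (b (a (a (l 531796351) (l 532028287)) (a (l 532246143) (l 532449407))) (a (b (a (l 531375231) (l 531602047)) (b (l 531309839) (l 531230223))) (b (a (l 531817087) (l 532019839)) (b (l 531730703) (l 531644943))))))), by decide +kernel⟩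

def k123_A00pm_012_s1 : ∃ t, chk3 f_A00pm_012_s1 t 167 42 8 = true :=
  ⟨(b (a (a (a (a (l 533172095) (l 532783999)) (a (l 532893311) (l 532976255))) (a (a (l 533041279) (l 533093759)) (a (l 533136511) (l 533173375)))) (a (b (l 16773248) (l 16772624)) (l 16777280))) (b (a (a (a (a (l 532207487) (l 532365695)) (l 532543103)) (a (l 16773008) (l 16772576))) (a (l 16771912) (l 16770984))) (a (a (a (a (l 532220431) (l 16772968)) (a (l 16772776) (l 16772576))) (a (l 16772264) (l 16771840))) (a (l 16771184) (l 16770232))))), by decide +kernel⟩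

def k124_A00pm_012_s1 : ∃ t, chk3 f_A00pm_012_s1 t 83 42 9 = true :=
  ⟨(a (a (a (b (l 3) (b (l 3) (a (l 3) (l 530082175)))) (b (a (l 3) (b (l 3) (l 530234239))) (b (a (a (l 3) (b (l 3) (b (a (l 3) (l 530000511)) (a (l 529983103) (l 530259071))))) (b (l 530336639) (a (b (l 530123647) (l 530226815)) (l 530354303)))) (a (a (l 530082943) (a (l 530084479) (b (l 530413839) (l 530128511)))) (a (b (a (l 530086527) (l 530141311)) (l 530171519)) (b (l 530300031) (l 530316415))))))) (a (b (a (a (l 530472319) (l 531260287)) (a (l 531500671) (l 531729791))) (b (a (l 529970191) (l 531236367)) (a (b (l 530108031) (l 530618495)) (b (l 531081999) (l 531025935))))) (b (a (a (l 531947647) (l 532153471)) (a (l 532347007) (l 532527743))) (a (b (l 531659023) (a (l 531357823) (l 531553151))) (b (l 532041231) (b (l 531867663) (l 16773360))))))) (b (a (a (a (a (l 532692863) (l 532825215)) (a (l 532922751) (l 532996991))) (a (a (l 533055103) (l 533101951)) (a (l 533140607) (l 533173631)))) (a (b (l 16773240) (l 16772624))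 (l 16777264))) (b (a (a (a (a (l 532297599) (l 16773784)) (l 532596607)) (a (l 16773040) (l 16772600))) (a (l 16771928) (l 16770992))) (a (a (a (a (l 16773248) (l 16773056)) (l 16775368)) (a (l 16772320) (l 16771888))) (a (l 16771216) (l 16770256)))))), by decide +kernel⟩

def k125_A00pm_012_s1 : ∃ t, chk3 f_A00pm_012_s1 t 166 43 4 = true :=
  ⟨(a (a (a (b (b (a (l 3) (l 530123791)) (l 530278015)) (l 530492543)) (b (c (b (l 529476479) (l 530176383)) (l 530308479)) (l 530496383))) (b (a (b (a (l 530123903) (l 530126607)) (l 530282767)) (b (a (l 530156815) (c (l 530118015) (l 530389119))) (c (l 530227071) (l 530471551)))) (a (a (l 530501759) (l 530507903)) (a (l 530535807) (l 530602111))))) (a (b (a (a (b (l 530130815) (l 530502783)) (b (l 530315391) (l 530650751))) (b (c (l 530218623) (l 530998655)) (a (l 530810495) (l 531513983)))) (a (b (l 530551823) (l 530607631)) (b (b (l 16772336) (l 16771944)) (c (l 16771264) (l 16771472))))) (b (a (a (b (l 531165567) (l 16772520)) (b (l 531355775) (l 531315071)))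 (b (c (l 531551759) (l 531705359)) (b (l 531575311) (l 16771784)))) (a (a (b (l 16771752) (l 532026239)) (b (l 531318399) (l 532155263))) (b (b (l 16771408) (l 16771024)) (b (l 16770648) (l 16770264))))))), by decide +kernel⟩

def k126_A00pm_012_s1 : ∃ t, chk3 f_A00pm_012_s1 t 167 43 4 = true :=
  ⟨(b (a (b (a (a (a (l 531887231) (l 16772272)) (b (l 16772168) (l 16771800))) (a (l 16771576) (l 16771152))) (a (a (b (l 16771800) (l 16771424)) (b (l 16771424) (l 16771056))) (a (l 16770840) (l 16770432)))) (a (a (c (a (l 16770440) (a (l 16770280) (a (a (b (l 16770576) (l 16769832)) (b (a (a (a (l 16770560) (a (l 16770552) (l 16770544))) (l 16770544)) (l 16770536)) (b (a (a (a (l 16770008) (l 16769960)) (l 16769912)) (l 16769904)) (l 16769504)))) (b (l 16770496) (l 16769632))))) (a (l 16770512) (a (l 16770344) (a (a (b (l 16770624) (l 16769904)) (b (a (a (a (l 16770616) (a (l 16770608) (l 16770600))) (l 16770600)) (l 16770584)) (b (a (a (a (l 16770080) (l 16770032)) (l 16769984)) (l 16769976)) (l 16769584))))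 (b (l 16770544) (l 16769704)))))) (b (a (l 16770384) (l 16770152)) (a (l 16769544) (l 16769320)))) (b (l 16769544) (l 16768728)))) (a (b (a (a (b (l 16771040) (l 16770664)) (b (l 16770680) (l 16770296))) (a (l 16770096) (a (l 16769792) (l 16769592)))) (a (a (b (l 16770288) (l 16769904)) (b (l 16769920) (l 16769544))) (a (l 16769344) (a (l 16769048) (l 16768840))))) (b (a (a (a (l 16769384) (a (a (l 16769256) (b (l 16769384) (l 16768984))) (a (a (b (l 16769264) (l 16768784)) (l 16768816)) (l 16768688)))) (l 16768456)) (l 16767776)) (a (a (a (l 16768640) (a (a (b (l 16768696) (l 16768288)) (a (l 16771000) (l 16768240))) (a (a (l 16768024) (l 16767792)) (l 16767664)))) (a (l 16767552) (l 16767344))) (l 16766784))))), by decide +kernel⟩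

def k127_A00pm_012_s1 : ∃ t, chk3 f_A00pm_012_s1 t 83 42 10 = true :=
  ⟨(a (a (b (a (l 3) (a (l 3) (l 530921855))) (a (b (l 3) (a (l 3) (l 530344575))) (b (a (b (l 3) (a (l 3) (b (l 530388239) (a (l 530260351) (l 530275199))))) (b (l 530660223) (b (l 530585215) (l 530350207)))) (a (a (l 530356351) (a (l 530364031) (l 530554639))) (b (a (l 530172287) (l 530620031)) (l 530421119)))))) (a (b (a (a (l 531266431) (l 531487103)) (l 531799567)) (b (a (b (l 531101567) (l 530991119)) (l 531454079)) (a (l 530371711) (a (l 531186303) (l 531371135))))) (b (a (l 532182799) (l 532792335)) (a (b (l 532095871) (l 531637007)) (b (l 532158479) (b (l 16773824) (l 16773464))))))) (b (a (a (a (a (l 532748927) (l 532865919)) (a (l 532952191) (l 533017983))) (a (b (l 16774328) (l 16773744)) (a (l 533145727) (l 533175423)))) (a (a (l 16775776) (l 16775328)) (l 16772008))) (b (a (a (a (a (l 532384895) (l 16773840)) (l 532649343)) (a (l 16773080) (l 16772632))) (a (l 16771952) (l 16771000))) (a (a (a (b (l 16773408) (l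 16773056)) (l 16772816)) (a (l 16772384) (l 16771936))) (a (l 16771256) (l 16770288)))))), by decide +kernel⟩

def k128_A00pm_012_s1 : ∃ t, chk3 f_A00pm_012_s1 t 83 42 11 = true :=
  ⟨(a (a (a (b (l 3) (b (l 3) (a (l 3) (l 530660991)))) (b (a (l 3) (l 531209599)) (b (a (b (l 3) (a (l 3) (b (l 530339455) (l 530322047)))) (b (l 530966399) (l 530344575))) (a (a (l 530680191) (a (l 530691455) (l 530355839))) (a (l 530495503) (l 530922623)))))) (a (b (a (l 531609983) (l 531978623)) (b (a (l 531297039) (l 531656063)) (a (l 530900751) (l 531496975)))) (b (a (l 532313727) (l 532606223)) (a (b (l 531982207) (l 531808527)) (b (l 532277887) (l 532076303)))))) (b (a (a (a (a (l 532803199) (l 532905599)) (l 533012607)) (a (b (l 16774336) (l 16773760)) (a (l 533152127) (l 533178751)))) (b (l 16775376) (l 16774784))) (b (a (a (a (l 532527631) (l 532701311)) (a (l 16773112) (l 16772664))) (a (l 16771968) (l 16771016))) (a (a (a (b (l 16773480) (l 16773144)) (l 16772888)) (a (l 16772440) (l 16771984))) (a (l 16771296)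 (l 16770320)))))), by decide +kernel⟩

def k129_A00pm_012_s1 : ∃ t, chk3 f_A00pm_012_s1 t 166 43 5 = true :=
  ⟨(a (a (b (a (b (a (l 3) (l 530626319)) (l 530751871)) (b (b (l 530610559) (l 530409599)) (c (l 530642815) (a (l 530893695) (l 530908287))))) (a (l 530928255) (a (l 530945407) (l 530959231)))) (b (a (a (b (l 530661759) (l 530793599)) (b (l 530677631) (l 530810239))) (b (b (l 530482447) (l 530265103)) (b (l 530319631) (l 530374927)))) (a (c (l 530632207) (a (l 531086207) (l 531104895))) (b (c (l 530607743) (l 531918095)) (a (l 530542719) (l 531131407)))))) (a (b (a (b (a (l 530965375) (l 531646847)) (a (l 530761487) (l 531952655))) (b (a (l 531260287) (l 531412095)) (b (l 16773424) (l 16773056)))) (a (a (b (l 531112719) (l 531201919)) (b (l 531210879) (l 531283583))) (b (a (l 531315727) (l 531697023)) (a (l 531373951) (l 531469071))))) (b (a (b (a (l 531562623) (l 531710335)) (a (l 531537023) (l 531668863))) (b (b (l 531944719) (l 16772808)) (b (l 16772448) (l 16772088)))) (a (b (c (l 531515151)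 (l 531683599)) (a (l 531568655) (l 531670543))) (b (b (l 16771728) (l 16771360)) (b (l 16771000) (l 16770632))))))), by decide +kernel⟩

def k130_A00pm_012_s1 : ∃ t, chk3 f_A00pm_012_s1 t 167 43 5 = true :=
  ⟨(b (a (b (a (a (b (l 16772752) (l 16772400)) (b (l 16772336) (l 16771992))) (a (l 16771736) (l 16771288))) (a (a (b (l 16772048) (l 16771688)) (b (l 16771640) (l 16771288))) (a (l 16771040) (l 16770600)))) (a (a (c (a (l 16770576) (a (l 16770408) (a (a (b (l 16770680) (l 16769976)) (b (a (a (a (l 16770664) (a (l 16770664) (l 16770656))) (l 16770648)) (l 16770640)) (b (a (a (a (l 16770144) (l 16770096)) (l 16770048)) (l 16770040)) (l 16769664)))) (b (l 16770600) (l 16769776))))) (a (l 16770640) (a (l 16770472) (a (a (b (l 16770736) (l 16770040)) (b (a (a (a (l 16770720) (l 16770712)) (l 16770704)) (l 16770696)) (b (a (a (a (l 16770208) (l 16770168)) (l 16770120)) (l 16770112)) (l 16769736)))) (b (l 16770656) (l 16769848)))))) (b (a (l 16770488) (l 16770248)) (l 16769568))) (b (l 16769632) (l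 16768848)))) (a (b (a (a (b (l 16771328) (l 16770960)) (b (l 16770928) (l 16770560))) (a (l 16770320) (a (l 16770000) (l 16769784)))) (a (a (b (l 16770600) (l 16770224)) (b (l 16770192) (l 16769824))) (a (l 16769592) (a (l 16769272) (l 16769056))))) (a (b (a (a (l 16769560) (a (a (l 16769424) (a (l 16769384) (l 16769328))) (a (a (b (l 16769424) (l 16768968)) (l 16768992)) (l 16768880)))) (l 16768632)) (a (a (l 16768840) (b (a (a (l 16768880) (l 16768744)) (l 16768360)) (a (a (l 16768480) (l 16768264)) (l 16767864)))) (l 16767656))) (l 16767456)))), by decide +kernel⟩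

def k131_A00pm_012_s1 : ∃ t, chk3 f_A00pm_012_s1 t 41 20 3 = true :=
  ⟨(c (a (l 3) (c (b (l 2) (a (b (a (l 3) (l 2)) (a (l 3) (a (a (l 3) (l 532566655)) (a (l 532858751) (l 533373199))))) (a (b (l 2) (a (a (a (l 533262463) (l 533335423)) (a (l 533382015) (l 533414271))) (a (a (l 533438079) (l 533456511)) (a (l 533471615) (l 533484671))))) (b (l 2) (b (l 2) (l 16775896)))))) (b (l 2) (a (b (a (l 3) (l 2)) (a (l 3) (a (a (l 3) (l 532681599)) (a (l 532930431) (l 533140239))))) (a (b (l 2) (a (a (a (l 533275519) (l 533338495)) (a (l 533378687) (l 533406591))) (b (l 2) (a (l 16774832) (l 7616850407))))) (b (l 2) (b (l 2) (l 16775880)))))))) (c (a (l 3) (b (l 2) (a (b (a (l 3) (l 2)) (a (l 3) (a (a (l 3) (l 532787839)) (a (l 532997247) (l 533173519))))) (b (l 2) (a (a (a (a (l 533288575) (l 533341823)) (a (l 533376127) (l 533400447))) (b (l 2) (a (l 16774832) (l 7079979479)))) (b (l 2) (l 16775864))))))) (a (l 3) (b (l 2) (a (a (l 3) (a (a (l 3) (l 534118271)) (b (l 2) (a (l 533058943) (l 534283391)))))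 (b (l 2) (a (a (a (a (l 533301119) (l 533345663)) (a (l 533374847) (l 533395327))) (b (l 2) (a (l 16774832) (l 16774368)))) (b (l 2) (l 16775848))))))))), by decide +kernel⟩

def k132_A00pm_012_s1 : ∃ t, chk3 f_A00pm_012_s1 t 82 21 3 = true :=
  ⟨(a (l 3) (b (l 3) (a (l 3) (a (c (l 530758015) (a (l 3) (l 531801983))) (a (c (l 530660735) (b (l 3) (l 531607679))) (b (b (l 3) (c (l 531193983) (l 531603839))) (c (l 531300735) (l 531649151)))))))), by decide +kernel⟩

def k133_A00pm_012_s1 : ∃ t, chk3 f_A00pm_012_s1 t 83 42 6 = true :=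
  ⟨(c (a (a (a (b (l 3) (b (l 3) (a (l 3) (l 530959999)))) (b (a (l 3) (l 531479679)) (a (b (b (l 3) (a (l 3) (c (l 530311695) (l 530473855)))) (a (l 530985599) (a (l 530999935) (l 530411135)))) (b (b (l 531254911) (l 530903567)) (a (l 530532223) (l 532011391)))))) (a (b (a (l 531824767) (l 532142975)) (b (a (l 531541119) (l 531847551)) (a (l 531419407) (l 531707007)))) (b (a (l 532432511) (l 533496447)) (a (b (l 532129663) (l 531977087)) (b (l 532385663) (l 532201487)))))) (b (a (a (a (a (l 532855679) (l 532944511)) (l 533037695)) (a (b (l 16774344) (l 16773784)) (a (l 533160063) (l 533183615)))) (b (l 16775368) (l 16774784))) (b (a (a (a (l 532601615) (l 16776232)) (a (l 16773152) (l 16772688))) (l 16774136)) (a (a (a (b (l 16773552) (l 16773224)) (l 16772952)) (a (l 16772496) (l 16772032))) (a (l 16771336) (l 16770352)))))) (a (a (a (b (l 3) (b (l 3) (a (l 3) (l 531241599)))) (b (a (l 3) (l 531732351)) (a (b (b (l 3) (a (l 3) (c (l 531971087) (l 531853327)))) (a (l 531272831) (b (l 532436751)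 (l 531315583)))) (b (b (l 531525503) (l 531482383)) (a (b (l 531358847) (l 531372415)) (l 531471999)))))) (a (b (a (l 532025983) (l 532297343)) (b (a (l 531766911) (l 532028287)) (a (l 531654415) (l 531900543)))) (b (a (l 532544383) (l 532765823)) (a (b (l 532269439) (l 532131199)) (b (l 532488831) (l 532321295)))))) (b (a (a (a (a (l 532906367) (l 532982911)) (l 533063039)) (a (l 533401215) (a (l 533169279) (l 16776128)))) (b (l 16775360) (l 16774792))) (b (a (a (a (l 532673551) (l 16776272)) (a (l 16773192) (l 16772720))) (l 16774160)) (a (a (a (b (l 16773624) (l 16773304)) (l 16773016)) (a (l 16772552) (l 16772080))) (l 16773512)))))), by decide +kernel⟩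

def k134_A00pm_012_s1 : ∃ t, chk3 f_A00pm_012_s1 t 166 43 6 = true :=
  ⟨(a (a (b (a (b (b (l 3) (a (l 3) (b (l 531166735) (l 531187327)))) (l 531764351)) (b (a (b (l 531155327) (l 531195151)) (l 531194127)) (a (b (a (l 531229567) (l 531239039)) (l 531272319)) (b (l 531254143) (l 531292031))))) (a (l 532139391) (a (l 531360639) (l 531380095)))) (b (a (b (a (l 531215487) (l 531237759)) (a (l 531293567) (l 531382911))) (b (a (l 531283583) (b (l 531357311) (l 531379071))) (a (l 531353215) (l 531417983)))) (a (a (b (l 531366527) (l 531434879)) (b (l 531388799) (l 531456639))) (a (b (l 531421567) (l 531486591)) (b (l 531474815) (l 531532415)))))) (a (b (a (b (a (l 531468415) (l 531577983)) (a (l 531497999) (l 531723903))) (b (b (l 531756047) (l 531741711)) (c (l 531640079) (l 531825423)))) (a (b (a (l 531541887) (l 531618175)) (a (l 531589503) (l 531654783))) (b (a (l 531700351) (l 531786111)) (a (l 531725695) (l 531799311))))) (b (a (b (l 531972879) (c (l 531854351) (l 532009999))) (b (l 532187407)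 (b (l 16772704) (l 16772360)))) (a (a (b (l 531873919) (l 531876111)) (b (l 531962239) (l 531954191))) (b (b (l 16772016) (l 16771664)) (b (l 16771304) (l 16770944))))))), by decide +kernel⟩

def k135_A00pm_012_s1 : ∃ t, chk3 f_A00pm_012_s1 t 167 43 6 = true :=
  ⟨(b (a (b (a (a (b (l 16772944) (l 16772608)) (l 16772336)) (a (l 16771880) (l 16771416))) (a (a (b (l 16772272) (l 16771928)) (b (l 16771832) (l 16771496))) (a (l 16771216) (l 16770760)))) (a (a (a (b (l 16771072) (l 16770408)) (b (a (l 16770896) (b (l 16770936) (b (l 16770696) (a (a (l 16770576) (a (a (a (l 16770560) (l 16770552)) (l 16770536)) (l 16770528))) (l 16770488))))) (a (l 16770240) (a (a (a (l 16770168) (l 16770136)) (a (a (a (l 16770104) (b (l 16770264) (l 16769832))) (l 16770000)) (l 16769992))) (l 16769960))))) (b (a (l 16770592) (l 16770344)) (l 16769696))) (b (l 16769728) (l 16768976)))) (a (b (a (a (b (l 16771584) (l 16771232)) (b (l 16771144) (l 16770800))) (a (l 16770528) (l 16770072))) (a (a (b (l 16770872) (l 16770512))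 (b (l 16770440) (l 16770080))) (a (l 16769816) (a (l 16769472) (l 16769248))))) (a (b (a (a (l 16769728) (a (a (l 16769584) (a (l 16769536) (l 16769480))) (a (a (b (l 16769584) (l 16769136)) (l 16769168)) (l 16769056)))) (l 16768800)) (a (a (l 16769016) (a (a (b (l 16769048) (l 16768664)) (a (l 16768752) (l 16768624))) (a (l 16770960) (l 16768096)))) (l 16767848))) (l 16767624)))), by decide +kernel⟩

def k136_A00pm_012_s1 : ∃ t, chk3 f_A00pm_012_s1 t 83 42 7 = true :=
  ⟨(c (a (a (a (b (l 3) (b (l 3) (a (l 3) (l 531505791)))) (b (a (l 3) (l 531967359)) (a (b (a (l 3) (b (l 3) (a (l 531509887) (l 531556223)))) (a (l 531541375) (a (l 531560319) (l 532875903)))) (b (b (l 531778687) (l 531707663)) (a (b (l 531627135) (l 531631999)) (l 531720575)))))) (a (b (a (l 532213887) (l 532441727)) (b (a (l 531978367) (l 532198527)) (a (l 531878015) (l 532082047)))) (b (a (l 532650111) (l 532836991)) (a (b (l 532401791) (l 532276351)) (b (l 532587135) (l 532435471)))))) (b (a (a (a (a (l 532955519) (l 533020287))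 (l 533088639)) (a (l 533148287) (a (l 533179775) (l 16776136)))) (b (l 16775360) (l 16772176))) (b (a (a (a (l 532742927) (l 16776320)) (a (l 16773232) (l 16772760))) (l 16774184)) (a (a (a (l 16776160) (l 16773080)) (a (l 16772608) (l 16772136))) (l 16773552))))) (a (a (a (b (l 3) (b (l 3) (a (l 3) (l 531752575)))) (b (a (l 3) (l 532184703)) (b (a (a (l 3) (b (l 3) (a (l 531784063) (l 531823231)))) (b (l 532013695) (l 531948559))) (a (a (l 531791487) (a (l 531811967) (l 531795839))) (a (l 532136319) (l 531951231)))))) (a (b (a (l 532387967) (l 532576639)) (b (a (l 532175743) (l 532358015)) (a (l 532082559) (l 532251775)))) (b (a (l 532749183) (l 532904575)) (a (b (l 532526719) (l 532413055)) (b (l 532680831) (l 533891455)))))) (a (b (a (a (a (l 533002879) (l 533056895)) (l 533114495)) (a (l 533164671) (a (l 533191551) (l 16776144)))) (a (a (b (l 532810255) (l 16776232)) (b (l 16776360) (l 16773144))) (a (b (l 16773264) (l 16772664)) (a (l 16775240) (l 16775000))))) (b (b (l 16772736) (l 16772184))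 (b (l 16771592) (l 16770968)))))), by decide +kernel⟩

def k137_A00pm_012_s1 : ∃ t, chk3 f_A00pm_012_s1 t 166 43 7 = true :=
  ⟨(a (a (b (a (b (b (l 3) (a (l 3) (b (a (l 3) (l 531637119)) (l 531639679)))) (l 531647247)) (b (a (b (l 531643263) (a (l 531653135) (l 531665535))) (l 531809807)) (a (b (a (a (l 531666047) (l 531672191)) (l 531681151)) (l 531690623)) (b (l 531699839) (l 531714943))))) (a (a (l 531680639) (l 531702911)) (a (l 531725695) (l 532017535)))) (b (a (b (a (l 531701631) (l 531728511)) (a (l 531732095) (l 531757327))) (b (a (l 531769471) (l 531833471)) (a (l 531793023) (l 531844991)))) (a (a (b (l 531760255) (l 531786367)) (b (l 531785343) (l 531810687))) (b (a (l 531817087) (l 531861375)) (a (l 531840127) (l 531879039)))))) (a (b (a (b (b (l 531951887) (l 531943695)) (a (l 532175231) (l 531974271))) (b (l 532109327) (c (l 531998223) (l 532158479)))) (a (b (a (l 531914111) (l 531971967)) (a (l 531924863) (l 531975807))) (b (a (l 532033407) (l 532096895)) (a (l 532029823) (l 532085007)))))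 (b (b (a (l 532270607) (l 532423695)) (a (c (l 532155407) (l 532290575)) (b (l 16772936) (l 16772600)))) (a (b (b (l 532468239) (l 16772408)) (b (l 16772056) (l 16771704))) (b (b (l 16772264) (l 16771920)) (b (l 16771576) (l 16771224))))))), by decide +kernel⟩

def k138_A00pm_012_s1 : ∃ t, chk3 f_A00pm_012_s1 t 167 43 7 = true :=
  ⟨(b (a (b (a (a (c (l 16772912) (l 16773000)) (l 16772496)) (a (l 16772024) (l 16771544))) (a (a (b (l 16772472) (l 16772144)) (l 16771848)) (a (l 16771376) (l 16770904)))) (a (a (a (b (l 16771184) (l 16770544)) (a (l 16773312) (a (a (b (l 16770928) (l 16770272)) (b (b (l 16771056) (c (l 16773328) (l 16770768))) (a (a (a (l 16770240) (b (l 16770392) (l 16769976))) (l 16770144)) (l 16770128)))) (b (l 16770848) (l 16770096))))) (b (a (l 16770696) (l 16770448)) (l 16769832))) (b (l 16769824) (l 16769096)))) (a (b (a (a (b (l 16771808) (l 16771464)) (b (l 16771344) (l 16771008))) (a (l 16770704) (l 16770232))) (a (a (b (l 16771112) (l 16770760)) (b (l 16770656) (l 16770296)))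 (a (l 16770008) (l 16769528)))) (a (b (a (a (l 16769872) (a (a (l 16769728) (a (l 16769680) (l 16769632))) (a (a (b (l 16769728) (l 16769296)) (l 16769336)) (l 16769224)))) (l 16768960)) (a (a (l 16769176) (b (a (a (l 16769200) (l 16769072)) (l 16768728)) (a (a (l 16768816) (l 16768624)) (l 16768256)))) (l 16768040))) (l 16767792)))), by decide +kernel⟩

def k139_A00pm_012_s1 : ∃ t, chk3 f_A00pm_012_s1 t 164 22 1 = true :=
  ⟨(a (a (l 3) (b (l 3) (b (l 3) (b (l 3) (c (c (c (a (a (l 3) (b (l 3) (b (l 3) (l 531604351)))) (a (b (l 3) (l 531584383)) (a (b (a (l 3) (l 531535487)) (l 531576703)) (l 531551615)))) (a (b (l 3) (l 531583103)) (l 531552127))) (a (l 531543679) (l 531540863))) (l 531510287)))))) (c (b (l 3) (a (c (b (a (l 3) (a (l 3) (a (l 3) (b (l 3) (b (l 3) (b (l 3) (l 531385215))))))) (a (b (b (l 3) (c (c (a (b (l 3) (c (l 531491199) (l 531492223))) (l 531469695)) (l 531512703)) (l 531484287))) (c (b (l 531518479) (l 531559807)) (l 531539839))) (b (c (a (b (b (a (l 3) (a (l 3) (l 531403279)))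 (l 531429247)) (l 531462015)) (b (c (b (l 531391103) (l 531414143)) (l 531413887)) (l 531452287))) (a (l 531455247) (l 531449727))) (c (l 531520895) (l 531528831))))) (b (a (l 3) (c (b (l 3) (l 531398671)) (l 531392527))) (b (a (l 531478399) (a (l 531477119) (l 531477119))) (l 531538447)))) (c (b (c (a (b (l 3) (a (b (l 3) (l 531352703)) (l 531319423))) (a (b (b (l 3) (l 531236223)) (l 531309951)) (l 530982783))) (a (b (l 3) (l 531360639)) (l 531306367))) (a (b (c (b (l 531393551) (l 531439231)) (l 531442303)) (l 531512191)) (b (l 531148047) (l 531501439)))) (b (a (l 531377023) (l 531377535)) (a (l 531508751) (l 531511679)))))) (b (l 3) (a (a (b (l 3) (l 531518847)) (b (c (l 531436671) (l 531490943)) (b (l 531519247) (l 531554687)))) (b (c (l 531458687) (l 531531391)) (c (l 531548431) (l 531583103))))))), by decide +kernel⟩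

def k140_A00pm_012_s1 : ∃ t, chk3 f_A00pm_012_s1 t 164 23 1 = true :=
  ⟨(b (a (c (b (a (a (b (l 3) (c (a (b (l 3) (l 531765887)) (c (l 531762815) (l 531720319))) (l 531659903))) (c (b (b (l 3) (a (a (l 3) (l 531681295)) (l 531675007))) (c (l 531747711) (l 531710591))) (l 531764095))) (c (b (a (c (b (c (a (l 531649151) (l 531637631)) (l 531633023)) (l 531675007)) (l 531633791)) (l 531629183)) (a (l 531713407) (l 531699071))) (l 531894031))) (a (c (a (l 531837199) (l 531822719)) (l 531732863)) (c (l 531803775) (l 531730559)))) (a (b (c (l 531293967) (l 531231103)) (l 531594879)) (b (l 531293311) (l 531355775)))) (b (a (c (c (a (l 531650431) (l 531638399)) (l 531626623)) (l 531327103)) (c (a (l 531628927) (l 531626879)) (l 531630863))) (a (c (l 531220607) (l 531656319)) (l 531454991)))) (a (b (a (c (l 532689023) (l 531653759)) (l 531506703)) (c (a (b (l 531954303) (l 532266879)) (l 531432063)) (a (l 531707919) (l 531734655)))) (a (b (l 531521663) (l 531863567)) (c (l 532085631) (l 531852559))))),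 by decide +kernel⟩

def k141_A00pm_012_s1 : ∃ t, chk3 f_A00pm_012_s1 t 165 22 1 = true :=
  ⟨(a (c (b (b (b (l 3) (a (l 3) (a (l 3) (l 530715919)))) (c (a (c (b (a (l 3) (a (l 3) (l 530939263))) (a (a (l 3) (l 531074431)) (l 530792319))) (a (l 530839679) (l 531097215))) (a (l 530769535) (l 531028351))) (a (l 530963327) (l 531241343)))) (a (b (c (a (l 531100287) (l 531257215)) (l 531115135)) (c (b (l 531135359) (l 531222143)) (l 531517711))) (b (c (l 530979199) (l 531397247)) (l 531218191)))) (b (a (c (l 531064191) (l 531502463)) (l 530934655)) (a (b (l 532345727) (a (l 531597951) (l 531620223))) (b (l 531590015) (l 532463231))))) (b (c (a (c (a (a (l 530633599) (l 530898559)) (l 530895487)) (l 531171967)) (c (c (l 530818943) (l 530978943)) (l 530934655))) (a (a (l 531512447) (l 531006079)) (c (a (l 531455359) (l 532022399)) (a (l 531688319) (l 531726719))))) (b (a (c (l 531268735) (l 531108479)) (c (l 531087887) (a (l 531688319) (l 531719695)))) (a (c (l 531236735) (l 532512527)) (c (a (l 531523199)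 (l 531541631)) (a (l 531751551) (l 531781647))))))), by decide +kernel⟩

def k142_A00pm_012_s1 : ∃ t, chk3 f_A00pm_012_s1 t 165 23 1 = true :=
  ⟨(a (b (a (c (b (l 531427199) (l 531757439)) (l 531433087)) (c (l 531566607) (b (l 532255615) (l 532310143)))) (b (a (l 531829007) (c (l 531887231) (l 532627839))) (a (c (l 531439743) (l 531560831)) (c (l 531453455) (l 532401935))))) (b (a (c (c (l 531697023) (l 531344511)) (b (l 532302607) (a (l 531806591) (l 531831423)))) (c (c (a (l 531712895) (l 531729791)) (a (l 531773567) (l 531796095))) (a (c (l 531817087) (l 531843711)) (b (l 531836175) (l 531884303))))) (a (c (b (b (l 16765848) (l 16764856)) (b (l 16763856) (l 16762832))) (b (a (l 531853951) (l 531877247)) (a (l 531896191) (l 532185615)))) (c (b (a (l 532470399) (l 532221199)) (a (c (l 16762520) (l 532019583)) (c (l 532076671) (l 532309631)))) (b (a (l 532170111) (l 532195087)) (a (b (l 531931519) (l 531949327)) (c (l 532395903) (l 531932431)))))))), by decide +kernel⟩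

def k143_A00pm_012_s1 : ∃ t, chk3 f_A00pm_012_s1 t 332 22 1 = true :=
  ⟨(a (b (c (a (c (l 530911103) (l 531233663)) (c (l 530928767) (c (l 531182463) (l 531875967)))) (a (c (a (l 531509375) (l 531526783)) (a (l 531755903) (l 531776383))) (c (b (a (l 531488639) (l 531507839)) (l 531609615)) (a (b (l 531776383) (l 531819647)) (b (l 531798399) (l 531840639)))))) (c (a (c (l 531383167) (l 532101247)) (c (l 531407487) (c (l 531550335) (l 531636607)))) (a (c (l 531986559) (a (l 531836031) (l 531854207))) (c (a (l 531743103) (l 531761023)) (a (l 531872639) (l 531891583)))))) (b (a (a (c (c (l 530946175) (l 531286143)) (c (c (l 531513471) (l 531652223)) (b (l 531821183) (l 531861887)))) (c (c (l 530961279) (b (l 530672255) (l 531398783))) (c (b (l 531549823) (l 531660671)) (b (l 531844479) (l 531883903))))) (c (b (b (c (l 530798463) (a (l 531185791) (l 531231359))) (c (l 530673279) (l 532108559))) (c (l 530868751) (a (l 531423103) (l 531458175)))) (b (c (a (c (l 531496063) (l 531655039)) (b (l 531588479)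 (l 531642239))) (a (b (l 531861375) (l 531881343)) (b (l 531896703) (l 531913599)))) (c (a (l 531685247) (l 531717247)) (a (l 531908223) (l 531936895)))))) (a (a (c (c (l 531429503) (l 531619455)) (c (l 531779967) (l 531911039))) (c (c (l 531447167) (l 532444031)) (c (c (l 531762303) (l 531835263)) (c (l 531901055) (l 531959423))))) (c (c (b (l 531110271) (l 532391439)) (a (b (l 531587967) (l 531732351)) (b (l 531617919) (l 531758719)))) (c (a (c (l 531784319) (l 531857023)) (b (l 531807615) (l 531887231))) (a (b (l 531939711) (l 531966079)) (b (l 531964543) (l 531988095)))))))), by decide +kernel⟩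

def k144_A00pm_012_s1 : ∃ t, chk3 f_A00pm_012_s1 t 332 46 1 = true :=
  ⟨(a (c (c (a (l 531751551) (b (l 531696255) (l 531858815))) (a (l 532627327) (b (l 531795071) (l 531907711)))) (a (b (c (l 531839103) (l 531892351)) (c (l 531906943) (l 531917695))) (b (c (l 531871359) (l 531926143)) (c (l 531937663) (l 532217471))))) (b (a (c (c (l 532267135) (l 531828751)) (c (l 532174095) (b (l 16766616) (l 16765648)))) (c (c (b (l 16768072) (l 16764624)) (b (l 16765704) (l 16764840))) (c (b (l 16765912) (l 16764992)) (b (l 16766056) (l 16765096))))) (a (c (c (l 531891471) (b (l 16764496) (l 16763584))) (c (b (l 16764600) (l 16763632)) (b (l 16764656) (l 16763632)))) (c (c (b (l 16763792) (l 16762944)) (b (l 16763952) (l 16763048))) (c (b (l 16764056) (l 16763096)) (b (l 16764104) (l 16763088))))))), by decide +kernel⟩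

def k145_A00pm_012_s1 : ∃ t, chk3 f_A00pm_012_s1 t 332 47 1 = true :=
  ⟨(b (c (b (a (a (l 531948303) (c (l 16763152) (l 16763192))) (a (c (l 16762608) (l 16762648)) (c (l 16762088) (l 16762128)))) (a (a (l 532005135) (c (l 16762248) (l 16762232))) (b (a (l 16761944) (l 16761440)) (a (l 16761480) (a (l 16761104) (b (l 16760960) (l 16760696))))))) (a (a (b (l 531944463) (l 531963407)) (c (l 531994127) (l 531967247))) (b (a (c (l 16762640) (l 16762584)) (b (l 16762344) (l 16761824))) (a (b (l 16761840) (l 16761304)) (b (l 16761304) (a (l 16760912) (b (l 16760768) (a (l 16760560) (l 16760384))))))))) (a (a (c (c (l 532367119) (b (l 16761792) (l 16760776))) (b (l 532249359) (b (l 16760752) (l 16760192)))) (c (c (b (l 16761328) (b (l 16760616) (l 16760112))) (b (l 16761248) (b (l 16760488) (a (l 16760104) (l 16759784))))) (c (b (l 16761120) (b (l 16760304) (a (l 16759888) (l 16759568)))) (b (l 16760944) (b (l 16760080) (a (l 16759632) (l 16759304))))))) (b (b (a (c (c (l 16761040) (l 16760968)) (c (l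 16760848) (l 16760672))) (a (c (c (l 16760632) (l 16760552)) (b (l 16760496) (l 16760192))) (c (l 16760248) (l 16759984)))) (a (c (c (l 16760552) (a (l 16760600) (l 16760304))) (a (l 16760352) (b (l 16760208) (l 16759896)))) (c (l 16759824) (l 16759504)))) (c (b (a (b (a (l 16760272) (l 16759920)) (l 16759792)) (l 16759216)) (l 16761592)) (b (a (a (b (l 16759912) (l 16759584)) (l 16759384)) (l 16758824)) (l 16761144)))))), by decide +kernel⟩

def k146_A00pm_012_s1 : ∃ t, chk3 f_A00pm_012_s1 t 666 22 2 = true :=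
  ⟨(b (a (a (c (b (l 530959231) (l 531208575)) (b (c (l 531244671) (l 531420287)) (l 532038271))) (c (b (b (l 530979455) (l 16770256)) (l 530730879)) (b (c (l 531313023) (l 531482239)) (c (l 531484543) (l 531616639))))) (c (b (a (b (l 16770736) (l 16769968)) (b (l 16770472) (l 16769712))) (b (l 16769072) (l 16768312))) (b (a (c (l 531389055) (l 531550847)) (b (l 531521663) (l 531578495))) (a (c (l 531542655) (l 531669631)) (c (l 531605631) (l 531726463)))))) (b (a (c (b (l 16768072) (l 16767288)) (a (l 531653503) (l 531961615))) (c (a (l 532070527) (b (l 16767424) (l 16766656))) (a (b (l 16768064) (l 16767264)) (b (l 16767816) (l 16767016))))) (a (c (b (l 532143887) (l 16768336)) (a (l 531789183) (l 532091007))) (c (b (c (l 16765912) (l 16766088)) (l 16765216)) (a (b (l 16766456) (l 16765640)) (b (l 16766216) (l 16765392))))))), by decide +kernel⟩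

def k147_A00pm_012_s1 : ∃ t, chk3 f_A00pm_012_s1 t 667 22 2 = true :=
  ⟨(b (a (b (c (a (b (l 532092799) (l 531363199)) (b (l 531666703) (l 532265231))) (b (b (c (l 16770608) (l 16770792)) (l 16770328)) (b (l 16769952) (l 16769576)))) (c (a (b (l 531444095) (l 16767952)) (b (l 16768488) (l 16767736))) (a (b (l 531703567) (l 16768352)) (b (l 16768888) (l 16768120))))) (b (b (c (b (l 16769888) (l 16769512)) (b (l 16770256) (l 16769888))) (c (b (l 16769128) (l 16768752)) (b (l 16769512) (l 16769136)))) (c (a (b (l 16768280) (l 16767528)) (b (l 16768088) (l 16767328))) (a (b (l 16768672) (l 16767904)) (b (l 16768456) (l 16767688)))))) (a (c (b (a (b (l 16767192) (l 16766424)) (b (l 16766976) (l 16766208))) (b (l 16765544) (l 16764768))) (b (a (b (l 16767576) (l 16766784)) (b (l 16767344) (l 16766552))) (a (b (l 16765976) (l 16765160)) (b (l 16765744) (l 16764928))))) (b (c (a (b (l 16766768) (l 16766000)) (b (l 16766568) (l 16765800))) (a (b (l 16767120) (l 16766328)) (b (l 16766912) (l 16766112))))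 (b (c (c (l 16765048) (l 16765208)) (c (l 16765352) (l 16765480))) (c (c (l 16764280) (l 16764416)) (c (l 16764544) (l 16764648))))))), by decide +kernel⟩

def k148_A00pm_012_s1 : ∃ t, chk3 f_A00pm_012_s1 t 333 46 2 = true :=
  ⟨(b (c (c (a (a (l 531801871) (b (l 16764360) (l 16763568))) (b (a (l 16763912) (l 16763504)) (a (l 16763136) (b (l 16762904) (a (l 16762616) (l 16762336)))))) (a (a (l 532122895) (b (l 16764496) (l 16763680))) (b (a (l 16764048) (l 16763616)) (a (l 16763232) (b (l 16763000) (a (l 16762704) (a (l 16762512) (l 16762336)))))))) (c (a (a (b (l 16765112) (l 16764272)) (b (l 16764624) (l 16763784))) (b (a (l 16764160) (l 16763720)) (a (l 16763320) (a (l 16762984) (b (l 16762968) (a (b (l 16762712) (l 16762456)) (l 16762400))))))) (a (a (b (l 16765232) (l 16764360)) (b (l 16764728) (l 16763864))) (b (a (l 16764256) (a (l 16763912) (l 16763688))) (a (l 16763392) (b (a (l 16763272) (b (l 16763152) (l 16762920))) (a (l 16762832) (a (b (l 16762760) (l 16762504)) (l 16762456)))))))))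 (a (a (b (c (l 16763288) (l 16763440)) (b (l 16762728) (l 16762288))) (c (b (l 16762816) (b (l 16762200) (a (l 16761896) (l 16761640)))) (b (c (l 16762928) (l 16762984)) (b (l 16762288) (a (l 16761960) (b (l 16761832) (l 16761576))))))) (c (b (a (b (l 16762584) (a (l 16762280) (b (l 16762152) (l 16761912)))) (b (a (b (l 16762336) (l 16762088)) (l 16761832)) (l 16761456))) (a (b (a (b (l 16761960) (l 16761720)) (l 16761488)) (l 16761112)) (l 16760592))) (b (a (b (l 16762712) (a (l 16762384) (b (l 16762256) (a (l 16762088) (l 16761912))))) (b (a (b (a (l 16762536) (l 16762392)) (a (l 16762288) (l 16762104))) (l 16761936)) (l 16761552))) (a (b (a (b (l 16762040) (a (l 16761880) (l 16761712))) (l 16761560)) (a (l 16761360) (l 16760960))) (l 16760648)))))), by decide +kernel⟩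

def k149_A00pm_012_s1 : ∃ t, chk3 f_A00pm_012_s1 t 333 47 2 = true :=
  ⟨(b (a (b (a (a (c (l 16761728) (l 16761752)) (b (l 16761736) (c (l 16761248) (b (l 16761392) (l 16761128))))) (a (c (b (l 16761448) (l 16760920)) (b (b (l 16761608) (l 16761360)) (l 16760920))) (b (c (l 16761120) (l 16761144)) (l 16760536)))) (a (c (b (a (l 16761048) (l 16760720)) (l 16760320)) (b (a (b (l 16761160) (l 16760904)) (l 16760688)) (l 16760264))) (b (l 16760136) (l 16759528)))) (b (a (b (l 16760544) (l 16759952)) (l 16759440)) (a (l 16759056) (l 16758248)))) (a (b (a (b (l 16759688) (l 16759080)) (l 16758624)) (a (l 16758168) (l 16757416))) (b (l 16762688) (l 16756240)))), by decide +kernel⟩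

def k150_A00pm_012_s1 : ∃ t, chk3 f_A00pm_012_s1 t 666 22 3 = true :=
  ⟨(b (a (c (b (a (b (l 531638143) (l 531686271)) (b (l 531694975) (l 531736191))) (a (c (l 531694975) (l 531811711)) (c (l 531739007) (l 531851903)))) (b (a (b (l 531937407) (l 531950207)) (b (l 531982463) (l 531990655))) (a (c (l 531918975) (l 532016255)) (b (l 531999359) (l 532008319))))) (b (c (a (b (l 531756671) (l 531790463)) (b (l 531822207) (l 532116607))) (b (a (l 532030335) (l 532080255)) (b (l 16771112) (l 16770736)))) (c (a (c (l 531787135) (l 531895423)) (b (l 531875599) (l 531905039))) (a (b (l 532038015) (l 532042767)) (b (l 532077583) (l 16769232)))))) (a (c (a (b (l 532107391) (l 531914111)) (b (b (l 531855487) (l 16767840)) (b (l 16766992) (l 16766128)))) (a (b (l 532394623) (l 532280447)) (b (b (l 16768936) (l 16768088)) (b (l 16767216) (l 16766312))))) (b (c (a (b (l 16768392) (l 16767576)) (b (l 16768144) (l 16767320))) (a (b (l 16768672) (l 16767824)) (b (l 16768408) (l 16767568)))) (c (a (b (l 16766736)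 (l 16765872)) (b (l 16766480) (l 16765624))) (a (b (l 16766952) (l 16766048)) (b (l 16766688) (l 16765792))))))), by decide +kernel⟩

def k151_A00pm_012_s1 : ∃ t, chk3 f_A00pm_012_s1 t 667 22 3 = true :=
  ⟨(b (a (b (b (c (b (l 16771048) (l 16770680)) (b (l 16771344) (l 16770976))) (c (b (l 16770304) (l 16769928)) (b (l 16770608) (l 16770224)))) (c (a (b (l 531928847) (l 16768696)) (b (l 16769232) (l 16768456))) (a (b (l 16769768) (l 16768976)) (b (l 16769520) (l 16768728))))) (b (b (c (b (l 16770584) (l 16770216)) (b (l 16770864) (l 16770496))) (c (b (l 16769840) (l 16769464)) (b (l 16770120) (l 16769744)))) (b (c (b (l 16769080) (l 16768696)) (b (l 16769360) (l 16768968))) (a (b (l 16768560) (l 16768160)) (b (l 16768328) (l 16767928)))))) (a (b (c (a (b (l 16767896) (l 16767072)) (b (l 16767656) (l 16766840))) (a (b (l 16768160) (l 16767312)) (b (l 16767912) (l 16767064)))) (c (a (b (l 16766240) (l 16765376)) (b (l 16766000) (l 16765136))) (a (b (l 16766440) (l 16765536)) (b (l 16766192) (l 16765288)))))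 (b (b (c (b (l 16767512) (l 16767104)) (b (l 16767752) (l 16767336))) (c (b (l 16766696) (l 16766280)) (b (l 16766912) (l 16766480)))) (b (b (a (l 16766080) (l 16765840)) (c (l 16765432) (l 16765600))) (b (c (l 16765008) (l 16765152)) (c (l 16764568) (l 16764688))))))), by decide +kernel⟩

def k152_A00pm_012_s1 : ∃ t, chk3 f_A00pm_012_s1 t 333 92 3 = true :=
  ⟨(c (c (a (a (b (l 16765328) (l 16764432)) (b (l 16764824) (l 16763936))) (b (a (l 16764344) (a (l 16763992) (l 16763760))) (a (l 16763448) (b (a (l 16763328) (b (l 16763208) (l 16762968))) (a (l 16762872) (a (b (l 16762800) (l 16762544)) (l 16762488))))))) (a (a (b (l 16765416) (l 16764496)) (b (l 16764904) (l 16763984))) (b (a (l 16764408) (a (l 16764048) (l 16763816))) (b (a (l 16763728) (a (l 16763368) (b (l 16763240) (l 16763000)))) (a (l 16763264) (a (l 16762896) (a (b (l 16762832) (l 16762560)) (l 16762512)))))))) (a (a (b (a (l 16765648) (l 16765384)) (l 16764560)) (a (b (l 16765120) (l 16764168)) (b (l 16764864) (l 16763912)))) (b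 (a (b (l 16764720) (l 16764248)) (b (l 16764224) (l 16763752))) (b (a (l 16763776) (a (l 16763400) (b (l 16763272) (c (l 16763016) (l 16763016))))) (a (l 16763288) (a (b (l 16763032) (l 16762784)) (a (b (l 16762840) (a (l 16762616) (l 16762520))) (b (l 16762672) (l 16762360))))))))), by decide +kernel⟩

def k153_A00pm_012_s1 : ∃ t, chk3 f_A00pm_012_s1 t 333 93 3 = true :=
  ⟨(b (c (a (a (a (l 16763664) (l 16763408)) (b (l 16763272) (l 16762800))) (a (b (l 16762784) (a (l 16762432) (b (a (l 16762376) (l 16762232)) (a (l 16762120) (l 16761936))))) (b (a (b (a (l 16762600) (b (l 16762520) (l 16762384))) (a (b (l 16762416) (l 16762272)) (l 16762152))) (l 16761992)) (a (l 16761792) (l 16761384))))) (a (a (l 16763576) (a (l 16763184) (l 16762928))) (a (b (l 16762800) (a (l 16762424) (b (a (l 16762360) (l 16762216)) (a (l 16762096) (l 16761912))))) (b (a (b (a (l 16762608) (b (l 16762528) (l 16762384))) (a (b (l 16762408) (l 16762264)) (l 16762144))) (l 16761992)) (l 16761568))))) (b (a (a (a (l 16762952)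 (l 16762696)) (a (l 16762448) (l 16762192))) (a (c (a (b (l 16762064) (a (l 16761888) (l 16761720))) (l 16761576)) (a (b (l 16762032) (a (l 16761840) (l 16761672))) (l 16761536))) (l 16760952))) (a (a (a (l 16762456) (l 16762200)) (a (l 16761944) (b (b (l 16761880) (l 16761752)) (a (l 16761624) (l 16761456))))) (a (a (b (a (l 16761584) (l 16761384)) (l 16761160)) (l 16760928)) (l 16760320))))), by decide +kernel⟩

def k154_A00pm_012_s1 : ∃ t, chk3 f_A00pm_012_s1 t 333 47 3 = true :=
  ⟨(b (a (b (b (c (a (l 16761848) (a (b (l 16761592) (a (l 16761408) (l 16761248))) (l 16761112))) (a (l 16761784) (a (b (l 16761512) (l 16761232)) (l 16761024)))) (a (a (l 16761440) (b (l 16761304) (a (l 16761104) (l 16760944)))) (a (c (l 16760864) (l 16760760)) (l 16760424)))) (a (a (b (b (l 16761040) (a (l 16760840) (l 16760672))) (b (l 16760432) (l 16760104))) (b (b (l 16760712) (l 16760384)) (l 16759888))) (b (l 16759968) (l 16759312)))) (b (a (b (l 16760480) (l 16759832)) (l 16759352)) (a (l 16758856) (l 16758048))))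 (a (b (c (a (l 16759176) (l 16758408)) (l 16761208)) (l 16762592)) (b (l 16762368) (l 16755792)))), by decide +kernel⟩

def k155_A00pm_012_s1 : ∃ t, chk3 f_A00pm_012_s1 t 668 44 1 = true :=
  ⟨(a (b (c (a (c (b (l 16769424) (l 16768664)) (b (l 16769768) (l 16769016))) (c (b (l 16769248) (l 16768488)) (b (l 16769568) (l 16768816)))) (c (a (b (l 16770072) (l 16769320)) (b (l 16769856) (l 16769104))) (a (b (l 16770328) (l 16769584)) (b (l 16770104) (l 16769352))))) (c (a (c (b (l 16767904) (l 16767144)) (b (l 16768256) (l 16767480))) (c (b (l 16767720) (l 16766952)) (b (l 16768056) (l 16767280)))) (a (c (b (l 16768560) (l 16767776)) (b (l 16768808) (l 16768008))) (c (b (l 16768336) (l 16767552)) (b (l 16768576) (l 16767776)))))) (c (b (c (a (b (l 16769064) (l 16768304)) (b (l 16768872) (l 16768112))) (a (b (l 16769368) (l 16768616)) (b (l 16769160) (l 16768408)))) (c (a (b (l 16767536) (l 16766768)) (b (l 16767344) (l 16766576))) (a (b (l 16767848) (l 16767072)) (b (l 16767640) (l 16766864))))) (b (c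 (a (b (l 16769640) (l 16768888)) (b (l 16769416) (l 16768664))) (a (b (l 16769872) (l 16769120)) (b (l 16769632) (l 16768880)))) (c (a (b (l 16768120) (l 16767328)) (b (l 16767896) (l 16767104))) (a (b (l 16768344) (l 16767536)) (b (l 16768104) (l 16767304))))))), by decide +kernel⟩

def k156_A00pm_012_s1 : ∃ t, chk3 f_A00pm_012_s1 t 668 45 2 = true :=
  ⟨(a (c (c (b (b (l 16766192) (l 16765424)) (b (l 16764656) (l 16763880))) (b (b (l 16766368) (l 16765584)) (b (l 16764800) (b (l 16764208) (l 16763800))))) (b (b (b (l 16766792) (l 16766400)) (b (l 16766000) (l 16765600))) (b (b (l 16765192) (l 16764784)) (c (b (l 16764320) (l 16763904)) (b (l 16764416) (l 16763992)))))) (c (a (a (b (b (l 16766040) (l 16765264)) (b (l 16764480) (b (l 16763888) (b (l 16763584) (l 16763344))))) (b (b (l 16765944) (l 16765168)) (b (l 16764384) (b (b (l 16763888) (l 16763664)) (l 16763272))))) (b (b (l 16765800) (c (l 16764944) (l 16765080))) (b (b (l 16764424) (a (l 16764072) (b (a (l 16764096) (l 16764016)) (l 16763792))))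 (b (a (b (l 16763736) (l 16763464)) (l 16763376)) (l 16762928))))) (a (c (b (b (l 16766216) (l 16765416)) (b (l 16764616) (b (a (l 16764056) (b (l 16764048) (l 16763816))) (a (b (l 16763736) (l 16763496)) (l 16763416))))) (b (b (l 16766344) (l 16765536)) (a (b (l 16764768) (b (l 16764144) (b (l 16763816) (a (l 16763624) (l 16763520))))) (b (l 16764664) (b (b (l 16764136) (a (l 16763952) (l 16763872))) (b (l 16763648) (l 16763352))))))) (b (c (b (l 16766008) (l 16765208)) (b (l 16766128) (l 16765320))) (b (b (b (l 16764760) (l 16764544)) (a (b (l 16764400) (c (l 16764136) (l 16764224))) (b (a (l 16764312) (b (l 16764296) (l 16764160))) (a (l 16764064) (l 16763944))))) (b (a (b (a (b (l 16764056) (l 16763936)) (l 16763896)) (l 16763664)) (l 16763576)) (l 16763120))))))), by decide +kernel⟩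

def k157_A00pm_012_s1 : ∃ t, chk3 f_A00pm_012_s1 t 1336 45 3 = true :=
  ⟨(b (b (a (b (l 16767288) (l 16766880)) (b (l 16767064) (l 16766648))) (b (a (l 16766464) (l 16766232)) (c (l 16765824) (l 16766000)))) (b (a (c (b (l 16765520) (l 16765088)) (b (l 16765680) (l 16765232))) (c (b (l 16765288) (l 16764864)) (b (l 16765440) (l 16764992)))) (a (c (b (l 16764656) (l 16764224)) (b (l 16764784) (l 16764320))) (b (b (l 16764600) (l 16764376)) (b (l 16764152) (c (l 16763880) (l 16763960))))))), by decide +kernel⟩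

def k158_A00pm_012_s1 : ∃ t, chk3 f_A00pm_012_s1 t 1337 45 3 = true :=
  ⟨(a (a (b (b (b (l 16766888) (l 16766472)) (b (l 16766056) (l 16765624))) (c (b (b (l 16765120) (l 16764688)) (b (l 16764256) (b (c (l 16763888) (l 16763944)) (a (b (l 16763784) (l 16763648)) (l 16763616))))) (b (b (l 16765256) (l 16764808)) (b (l 16764352) (b (c (l 16763984) (l 16764016)) (a (b (l 16763856) (l 16763728)) (l 16763696))))))) (b (b (b (l 16766768) (l 16766360)) (b (l 16765936) (c (l 16765424) (l 16765576)))) (c (b (b (l 16765000) (l 16764576)) (b (b (l 16764248) (a (l 16764056) (b (l 16764040) (l 16763904)))) (b (c (l 16763712) (l 16763768)) (l 16763448)))) (b (b (l 16765136) (l 16764688)) (b (b (l 16764344) (a (l 16764144) (b (l 16764136) (l 16763992)))) (b (b (l 16763904) (l 16763752)) (l 16763528))))))) (b (b (b (l 16766600) (c (l 16766088) (l 16766256))) (c (b (l 16765672) (l 16765256)) (b (l 16765832) (l 16765392)))) (c (b (b (b (l 16764936) (a (l 16764784) (l 16764664))) (a (b (l 16764568) (a (l 16764376)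 (b (l 16764368) (l 16764248)))) (b (a (b (l 16764528) (l 16764416)) (b (l 16764456) (l 16764312))) (a (l 16764216) (l 16764104))))) (b (a (b (a (b (l 16764208) (l 16764080)) (l 16764040)) (l 16763808)) (l 16763728)) (l 16763256))) (b (b (b (l 16765064) (a (l 16764904) (l 16764776))) (a (b (l 16764680) (a (l 16764480) (b (l 16764472) (l 16764352)))) (b (a (b (l 16764640) (l 16764520)) (b (l 16764560) (l 16764424))) (a (l 16764320) (l 16764208))))) (b (a (b (a (b (l 16764304) (l 16764176)) (l 16764136)) (l 16763904)) (l 16763824)) (l 16763344)))))), by decide +kernel⟩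

def k159_A00pm_012_s1 : ∃ t, chk3 f_A00pm_012_s1 t 668 46 1 = true :=
  ⟨(b (a (a (b (b (c (c (l 16763456) (l 16763648)) (b (l 16763936) (l 16763712))) (a (c (c (l 16763104) (l 16763272)) (c (l 16763384) (l 16763440))) (c (c (b (l 16763096) (l 16762864)) (b (l 16763264) (a (l 16763072) (l 16762984)))) (b (c (l 16763376) (l 16763432)) (a (b (l 16763272) (l 16763136)) (b (l 16763184) (l 16763040))))))) (b (b (c (a (c (l 16762784) (a (l 16762976) (l 16762896))) (l 16762672)) (a (b (a (l 16763160) (l 16763088)) (a (l 16763040) (l 16762944))) (l 16762864))) (c (c (l 16762408) (l 16762552)) (c (l 16762640) (l 16762672)))) (c (c (l 16761984) (l 16762112)) (b (l 16762360) (l 16762048))))) (b (c (b (c (a (l 16763288) (b (l 16763272) (l 16763008))) (a (b (l 16763584) (c (l 16763320) (l 16763400))) (b (a (l 16763496) (l 16763416)) (l 16763184)))) (b (a (c (l 16762944) (a (l 16763160) (l 16763056))) (l 16762816)) (l 16762640))) (b (b (a (l 16763760) (a (c (l 16763624) (l 16763688)) (b (c (l 16763608) (l 16763680))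 (l 16763512)))) (b (a (c (l 16763544) (l 16763608)) (a (l 16763464) (l 16763360))) (a (a (l 16763504) (c (l 16763384) (l 16763448))) (l 16763264)))) (b (a (b (a (c (l 16763336) (l 16763392)) (l 16763272)) (l 16763176)) (l 16763040)) (l 16762848)))) (c (b (l 16762208) (l 16761624)) (b (l 16762392) (l 16761776))))) (b (a (b (c (c (l 16762816) (l 16762992)) (b (a (l 16763416) (l 16763200)) (l 16763016))) (c (l 16762336) (l 16762560))) (c (b (l 16762456) (l 16761888)) (b (l 16762712) (l 16762112)))) (c (a (l 16761472) (l 16761016)) (a (l 16764272) (l 16761200))))) (c (a (b (b (l 16761256) (l 16760672)) (l 16759792)) (b (l 16760080) (l 16758912))) (a (b (b (l 16761368) (l 16760744)) (l 16759800)) (c (l 16764800) (l 16764784))))), by decide +kernel⟩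

def k160_A00pm_012_s1 : ∃ t, chk3 f_A00pm_012_s1 t 668 47 1 = true :=
  ⟨(b (b (c (l 16763408) (l 16763320)) (a (l 16757344) (l 16756480))) (c (l 16755200) (l 16754800))), by decide +kernel⟩

def k161_A00pm_012_s1 : ∃ t, chk3 f_A00pm_012_s1 t 1338 44 1 = true :=
  ⟨(c (b (c (b (l 16768584) (l 16767824)) (b (l 16768848) (b (l 16768280) (l 16767904)))) (c (b (b (l 16767240) (l 16766856)) (b (l 16766472) (l 16766080))) (b (b (l 16767520) (l 16767128)) (b (l 16766736) (l 16766344))))) (b (b (b (l 16769368) (l 16769000)) (b (l 16768624) (l 16768240))) (c (b (b (l 16767752) (l 16767360)) (b (l 16766968) (l 16766560))) (b (b (l 16767944) (l 16767552)) (b (l 16767144) (l 16766736)))))), by decide +kernel⟩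

def k162_A00pm_012_s1 : ∃ t, chk3 f_A00pm_012_s1 t 1338 90 1 = true :=
  ⟨(b (c (c (b (l 16765696) (a (l 16765400) (a (l 16765256) (b (l 16765240) (a (l 16765064) (l 16764968)))))) (b (l 16765952) (a (l 16765656) (a (l 16765496) (b (a (l 16765512) (l 16765448)) (a (b (l 16765360) (l 16765248)) (l 16765200))))))) (c (b (l 16766160) (a (l 16765864) (a (l 16765688) (b (a (l 16765704) (l 16765632)) (a (l 16765488) (l 16765384)))))) (b (l 16766320) (a (l 16766016) (a (l 16765832) (b (a (l 16765848) (l 16765776)) (a (l 16765624) (l 16765528)))))))) (a (c (c (b (l 16765008) (a (l 16764664) (b (l 16764656) (a (l 16764472) (l 16764368))))) (b (l 16765256) (a (l 16764904) (b (a (l 16764920) (b (l 16764912) (l 16764792))) (a (b (l 16764760) (l 16764640)) (l 16764592)))))) (c (b (l 16765448) (a (l 16765080) (b (a (l 16765104) (b (l 16765088) (l 16764968))) (a (b (l 16764936) (l 16764816)) (l 16764768))))) (b (l 16765592) (a (l 16765208) (b (a (l 16765232) (b (l 16765224) (l 16765096))) (a (b (l 16765064) (l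 16764936)) (l 16764896))))))) (a (b (c (c (b (l 16764944) (a (l 16764776) (l 16764672))) (b (c (l 16765128) (l 16765232)) (a (b (l 16765064) (l 16764952)) (l 16764904)))) (a (b (l 16765480) (c (b (l 16765248) (l 16765128)) (c (l 16765288) (l 16765344)))) (b (c (b (l 16765400) (l 16765280)) (l 16765472)) (c (l 16765088) (l 16765216))))) (c (c (l 16764320) (b (l 16764688) (l 16764408))) (b (c (l 16764864) (l 16765000)) (l 16764656)))) (b (c (b (c (l 16764760) (l 16764992)) (l 16764600)) (b (c (l 16765176) (l 16765312)) (l 16764976))) (c (l 16764184) (l 16764552)))))), by decide +kernel⟩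

def k163_A00pm_012_s1 : ∃ t, chk3 f_A00pm_012_s1 t 1338 91 1 = true :=
  ⟨(b (a (c (b (a (c (b (l 16764352) (l 16764112)) (b (a (l 16764616) (b (l 16764608) (l 16764480))) (a (b (l 16764456) (l 16764320)) (l 16764272)))) (c (l 16764016) (l 16764232))) (c (l 16763576) (l 16763792))) (a (b (b (c (a (l 16764792) (b (l 16764776) (l 16764648))) (a (l 16764912) (b (l 16764896) (l 16764768)))) (a (b (c (l 16764616) (l 16764736)) (c (l 16764488) (l 16764600))) (l 16764504))) (b (l 16764272) (l 16763984))) (b (b (l 16764616) (l 16764328)) (l 16763896)))) (b (c (l 16763752) (l 16764104)) (c (l 16763192) (l 16763528)))) (a (c (b (l 16763120) (l 16762552)) (b (l 16763432) (l 16762848))) (c (l 16762344) (l 16762656)))), by decide +kernel⟩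

def k164_A00pm_012_s1 : ∃ t, chk3 f_A00pm_012_s1 t 1338 23 1 = true :=
  ⟨(c (b (b (b (l 16761448) (l 16760296)) (l 16758560)) (b (l 16756224) (l 16753880))) (b (b (b (a (l 16761952) (l 16761464)) (l 16760488)) (b (l 16759256) (l 16758000))) (b (l 16756088) (l 16753488)))), by decide +kernel⟩

def k165_A00pm_012_s1 : ∃ t, chk3 f_A00pm_012_s1 t 2678 44 1 = true :=
  ⟨(a (c (b (c (b (l 16768336) (l 16767576)) (b (l 16768584) (l 16767824))) (b (b (l 16767128) (l 16766744)) (c (c (l 16765960) (l 16766088)) (b (l 16766472) (l 16766072))))) (c (b (b (l 16768800) (l 16768040)) (b (b (l 16767464) (l 16767072)) (b (l 16766680) (l 16766272)))) (b (b (l 16768984) (l 16768232)) (b (l 16767448) (b (l 16766848) (l 16766432)))))) (c (a (b (c (b (l 16768264) (l 16767496)) (b (l 16768504) (l 16767744))) (b (b (l 16767048) (l 16766664)) (c (b (l 16766144) (b (l 16765856) (l 16765640))) (b (l 16766392) (b (l 16766088) (a (l 16765904) (l 16765856))))))) (a (b (c (b (l 16768224) (l 16767456)) (b (l 16768464) (l 16767704)))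 (b (b (l 16767008) (l 16766624)) (c (b (l 16766104) (b (l 16765800) (l 16765552))) (b (l 16766352) (b (l 16766040) (l 16765792)))))) (c (b (b (l 16768200) (l 16767432)) (b (l 16766664) (b (l 16766080) (l 16765616)))) (b (b (l 16768432) (l 16767680)) (b (l 16766904) (b (l 16766320) (b (l 16765984) (l 16765720)))))))) (c (b (b (l 16768680) (l 16767928)) (b (b (l 16767352) (l 16766960)) (b (c (l 16766512) (l 16766600)) (a (b (l 16766288) (l 16766072)) (b (a (l 16766240) (l 16766184)) (l 16765952)))))) (b (b (l 16768864) (l 16768112)) (b (l 16767328) (b (c (l 16766688) (l 16766752)) (a (b (l 16766448) (l 16766224)) (b (a (l 16766392) (l 16766344)) (l 16766104))))))))), by decide +kernel⟩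

def k166_A00pm_012_s1 : ∃ t, chk3 f_A00pm_012_s1 t 2678 45 1 = true :=
  ⟨(b (b (a (b (c (c (b (l 16765528) (a (l 16765352) (l 16765248))) (b (c (l 16765712) (l 16765816)) (a (l 16765592) (l 16765488)))) (a (b (l 16766080) (c (l 16765784) (l 16765928))) (b (c (l 16765928) (l 16766080)) (c (l 16765680) (l 16765824))))) (c (b (c (l 16765040) (l 16765280)) (l 16764888)) (a (c (l 16765400) (l 16765544)) (l 16765352)))) (b (c (a (c (l 16765248) (l 16765488)) (c (l 16765104) (l 16765344))) (a (b (l 16765896) (l 16765624)) (c (l 16765544) (l 16765704)))) (c (c (l 16764624) (l 16764872)) (a (l 16765216) (l 16765088))))) (a (c (b (l 16764480) (l 16763920)) (b (l 16764856) (l 16764296))) (c (c (l 16763800) (l 16764040)) (b (l 16764600) (l 16764032))))) (c (b (a (l 16763080) (l 16762808)) (l 16761808)) (a (b (l 16763440) (l 16762272)) (b (l 16763176) (l 16762008))))), by decide +kernel⟩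

def k167_A00pm_012_s1 : ∃ t, chk3 f_A00pm_012_s1 t 2678 23 1 = true :=
  ⟨(c (b (b (b (l 16760672) (l 16759528)) (c (l 16757752) (l 16752592))) (b (c (l 16755496) (l 16755464)) (b (l 16753744) (l 16752576)))) (b (b (b (l 16760952) (l 16759736)) (b (l 16758504) (l 16757256))) (b (l 16755360) (l 16752776)))), by decide +kernel⟩

def k168_A00pm_012_s1 : ∃ t, chk3 f_A00pm_012_s1 t 5358 11 1 = true :=
  ⟨(b (b (c (a (a (c (b (b (l 16768176) (l 16767408)) (b (l 16766640) (b (l 16766040) (l 16765544)))) (b (b (l 16768408) (l 16767648)) (b (l 16766880) (b (b (l 16766392) (l 16766176)) (l 16765784))))) (c (b (b (l 16768152) (l 16767384)) (b (l 16766616) (b (b (l 16766120) (l 16765880)) (l 16765472)))) (b (b (l 16768384) (l 16767624)) (b (l 16766856) (b (b (l 16766360) (l 16766112)) (l 16765712)))))) (b (c (b (l 16768112) (l 16767344)) (b (l 16768344) (l 16767584))) (b (b (l 16766896) (b (l 16766600) (c (l 16766272) (l 16766512)))) (b (c (l 16765904) (b (l 16766272) (l 16766008))) (l 16765488))))) (c (c (b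 (b (l 16768520) (l 16767768)) (b (b (l 16767192) (a (l 16766824) (l 16766760))) (b (a (b (l 16766528) (l 16766296)) (l 16766296)) (l 16765832)))) (b (b (l 16768616) (l 16767864)) (b (b (l 16767280) (a (l 16766920) (l 16766848))) (b (a (b (l 16766616) (l 16766384)) (l 16766384)) (l 16765920))))) (b (b (l 16768744) (l 16767992)) (b (b (l 16767408) (a (l 16767040) (l 16766968))) (b (a (b (l 16766728) (l 16766504)) (l 16766504)) (l 16766040)))))) (b (b (c (b (l 16765016) (l 16764464)) (b (l 16765424) (l 16764880))) (c (l 16763640) (l 16764040))) (b (c (l 16762520) (l 16762896)) (c (l 16761384) (l 16761728))))) (c (b (b (l 16759680) (l 16757384)) (b (c (l 16755088) (l 16755064)) (c (l 16752848) (l 16752688)))) (b (b (b (l 16760536) (l 16759328)) (l 16752240)) (b (l 16754968) (l 16752392))))), by decide +kernel⟩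

def k169_A00pm_012_s1 : ∃ t, chk3 f_A00pm_012_s1 t 5359 11 1 = true :=
  ⟨(a (a (b (b (c (b (c (b (l 16768072) (l 16767312)) (b (l 16768304) (l 16767544))) (b (b (l 16766856) (b (l 16766552) (l 16766312))) (b (l 16765912) (l 16765376)))) (b (c (b (l 16768496) (l 16767744)) (b (l 16768672) (l 16767912))) (b (b (l 16767256) (b (l 16766952) (l 16766712))) (b (l 16766320) (l 16765792))))) (b (b (c (l 16764552) (l 16764976)) (l 16766296)) (b (l 16762544) (l 16761392)))) (b (b (c (l 16759496) (l 16759752)) (c (l 16757208) (l 16752056))) (b (c (l 16754912) (l 16754792)) (c (l 16752600) (l 16752224))))) (b (b (c (b (c (b (l 16768048) (l 16767288)) (b (l 16768272) (l 16767520))) (b (b (c (l 16766704) (l 16766936)) (b (l 16766504) (l 16766240))) (b (l 16765840) (l 16765296)))) (b (c (b (l 16768472) (l 16767720)) (b (l 16768640) (l 16767888))) (c (b (b (l 16767136) (l 16766688)) (l 16765896)) (b (b (l 16767296) (l 16766848)) (l 16766064))))) (b (b (b (l 16764984) (l 16764432)) (l 16763600)) (b (l 16762464)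 (l 16761320)))) (b (b (c (l 16759416) (l 16759680)) (c (l 16757128) (l 16757232))) (b (c (l 16754840) (l 16754720)) (c (l 16752528) (l 16752160)))))) (b (b (c (b (c (b (l 16768008) (l 16767248)) (b (l 16768232) (l 16767480))) (b (b (c (b (l 16766752) (l 16766528)) (b (l 16766984) (l 16766760))) (c (l 16766128) (l 16766368))) (b (l 16765720) (l 16765176)))) (b (c (b (l 16768424) (l 16767672)) (b (l 16768600) (l 16767840))) (b (b (c (b (l 16767184) (l 16766960)) (l 16767232)) (l 16766664)) (l 16765872)))) (b (b (b (l 16764864) (l 16764320)) (l 16763480)) (b (l 16762352) (l 16761200)))) (c (b (b (l 16759296) (l 16757016)) (b (l 16754728) (l 16755048))) (b (b (l 16759568) (l 16757120)) (b (l 16754616) (l 16752056)))))), by decide +kernel⟩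

def k170_A00pm_012_s1 : ∃ t, chk3 f_A00pm_012_s1 t 2680 44 1 = true :=
  ⟨(b (b (b (c (a (l 16768232) (a (l 16768160) (c (l 16767976) (l 16768184)))) (a (l 16768616) (a (l 16768528) (c (l 16768368) (l 16768528))))) (c (a (l 16767856) (a (c (l 16767656) (l 16767872)) (b (l 16767760) (l 16767504)))) (a (l 16768240) (a (c (l 16768056) (l 16768224)) (c (l 16767928) (l 16768096)))))) (b (a (c (a (l 16767504) (c (l 16767320) (l 16767544))) (a (l 16767896) (c (l 16767736) (l 16767904)))) (b (a (c (l 16767440) (l 16767824)) (l 16767464)) (c (l 16767088) (l 16767488)))) (a (c (a (c (l 16766984) (l 16767208)) (b (l 16767104) (l 16766848))) (a (c (l 16767408) (l 16767576)) (c (l 16767288) (l 16767456)))) (c (l 16766696) (l 16767112))))) (b (a (b (c (c (l 16766416) (l 16766656)) (c (l 16766856) (l 16767032))) (c (l 16766008) (l 16766432))) (c (l 16768520) (l 16766344))) (a (c (l 16765200) (l 16765632)) (c (l 16764816) (l 16765280))))), by decide +kernel⟩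

def k171_A00pm_012_s1 : ∃ t, chk3 f_A00pm_012_s1 t 2681 44 1 = true :=
  ⟨(b (b (a (a (c (b (l 16767928) (l 16767416)) (b (l 16768304) (l 16767816))) (c (l 16767400) (l 16767816))) (c (a (a (l 16767104) (c (l 16766744) (l 16766992))) (l 16766744)) (a (a (l 16767552) (l 16767336)) (l 16767208)))) (a (c (l 16769096) (a (l 16767072) (l 16766816))) (c (a (a (l 16766056) (c (b (l 16765936) (l 16765400)) (l 16765944))) (c (l 16765536) (l 16765808))) (a (a (l 16766536) (l 16766312)) (l 16766184))))) (a (b (c (l 16765408) (l 16765888)) (a (l 16764744) (b (l 16764736) (l 16764192)))) (b (c (a (a (c (l 16764832) (l 16765112)) (c (b (l 16764856) (b (l 16764448) (l 16764168))) (l 16764872))) (c (l 16764448) (l 16764736))) (a (a (l 16765488) (c (l 16765136) (l 16765376))) (l 16765128))) (b (c (a (a (l 16764160) (c (b (l 16763896) (l 16763624)) (l 16764056))) (l 16763776)) (a (a (l 16764680) (l 16764448)) (l 16764320))) (c (a (a (l 16763616) (c (c (b (l 16763272) (l 16762992)) (l 16763288)) (l 16763504))) (l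 16763232)) (a (a (l 16764136) (l 16763904)) (l 16763776))))))), by decide +kernel⟩

def k172_A00pm_012_s1 : ∃ t, chk3 f_A00pm_012_s1 t 2680 45 1 = true :=
  ⟨(b (c (b (l 16763904) (l 16762792)) (b (l 16764352) (l 16763232))) (b (c (l 16759048) (l 16762088)) (c (c (l 16760432) (l 16760656)) (l 16760920)))), by decide +kernel⟩

def k173_A00pm_012_s1 : ∃ t, chk3 f_A00pm_012_s1 t 2681 90 1 = true :=
  ⟨(a (b (c (c (l 16763080) (l 16763360)) (l 16763720)) (c (a (l 16762280) (l 16759368)) (l 16762592))) (c (a (a (b (c (l 16762640) (l 16762928)) (b (l 16761960) (l 16761400))) (b (b (c (a (a (a (l 16762736) (c (l 16762560) (l 16762712))) (l 16762568)) (l 16762560)) (l 16762960)) (c (a (a (a (l 16762184) (a (l 16762128) (l 16762056))) (l 16762016)) (l 16762008)) (l 16762408))) (b (c (a (a (a (l 16761632) (c (a (l 16761496) (l 16761432)) (l 16761608))) (l 16761464)) (l 16761456)) (l 16761848)) (c (a (a (a (l 16761088) (a (l 16761024) (a (l 16760976) (l 16760936)))) (l 16760912)) (l 16760904)) (a (l 16761304)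 (l 16761200)))))) (b (b (l 16762680) (l 16762128)) (c (b (l 16761432) (l 16760880)) (l 16761448)))) (b (b (a (a (l 16763584) (l 16763352)) (l 16763224)) (a (a (l 16763032) (l 16762800)) (l 16762672))) (b (a (a (l 16762472) (l 16762240)) (l 16762112)) (a (a (l 16761904) (l 16761672)) (l 16761544)))))), by decide +kernel⟩

def k174_A00pm_012_s1 : ∃ t, chk3 f_A00pm_012_s1 t 2681 91 1 = true :=
  ⟨(a (b (c (c (a (l 16761032) (l 16760744)) (l 16761120)) (l 16761448)) (c (c (a (l 16759920) (l 16759632)) (l 16759992)) (l 16760288))) (c (c (a (a (b (b (l 16760712) (l 16760160)) (b (l 16759608) (l 16759056))) (b (b (a (a (a (l 16760536) (c (a (l 16760400) (a (l 16760352) (l 16760312))) (l 16760512))) (l 16760368)) (l 16760360)) (a (a (a (l 16759984) (c (a (l 16759856) (a (l 16759808) (l 16759768))) (l 16759960))) (l 16759816)) (l 16759808))) (c (c (b (a (a (a (l 16759336) (a (l 16759272) (a (l 16759224) (l 16759192)))) (l 16759168)) (l 16759160)) (a (a (a (l 16758792) (a (l 16758736) (a (l 16758688) (l 16758648))))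 (l 16758624)) (l 16758616))) (b (a (a (a (l 16759400) (a (l 16759344) (l 16759280))) (l 16759240)) (l 16759232)) (a (a (a (l 16758856) (a (l 16758800) (l 16758736))) (l 16758696)) (l 16758688)))) (b (a (a (a (l 16759504) (a (l 16759448) (l 16759384))) (l 16759344)) (l 16759336)) (a (a (a (l 16758952) (a (l 16758896) (l 16758832))) (l 16758792)) (l 16758784)))))) (b (b (l 16760336) (l 16759784)) (b (l 16759240) (c (l 16758624) (l 16758752))))) (a (a (b (l 16760704) (l 16759576)) (b (b (b (l 16760880) (l 16760600)) (b (l 16760320) (l 16760040))) (a (a (a (l 16759416) (b (l 16759600) (l 16759040))) (b (l 16759536) (l 16758976))) (b (l 16759528) (l 16758968))))) (b (l 16760336) (b (l 16759496) (l 16758936))))) (b (a (a (l 16761048) (a (b (l 16761112) (b (l 16760680) (l 16760392))) (l 16760720))) (l 16760688)) (a (a (l 16757264) (b (b (l 16760096) (l 16759808)) (b (l 16759520) (l 16759224)))) (b (l 16759832) (l 16759248)))))), by decide +kernel⟩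

def k175_A00pm_012_s1 : ∃ t, chk3 f_A00pm_012_s1 t 2680 46 2 = true :=
  ⟨(b (c (b (l 16759312) (l 16755576)) (l 16758936)) (c (c (l 16756504) (l 16756560)) (l 16756624))), by decide +kernel⟩

def k176_A00pm_012_s1 : ∃ t, chk3 f_A00pm_012_s1 t 2681 46 2 = true :=
  ⟨(b (a (a (b (l 16756296) (l 16757792)) (b (a (l 16756104) (l 16758568)) (l 16757520))) (b (a (a (a (l 16758424) (c (l 16758184) (b (l 16758680) (l 16758112)))) (a (a (c (a (l 16758072) (c (a (l 16757952) (a (c (l 16757880) (l 16757936)) (b (b (l 16758280) (l 16758008)) (l 16757600)))) (a (l 16758072) (l 16758008)))) (a (b (l 16758568) (l 16758008)) (c (l 16758144) (b (l 16758536) (l 16757968))))) (c (b (l 16758184) (l 16757640)) (l 16758136))) (c (b (l 16758176) (l 16757632)) (l 16758128)))) (c (b (l 16758144) (l 16757600)) (l 16758096))) (b (a (a (l 16757512) (c (a (c (a (a (l 16757200) (a (l 16757144) (l 16757080))) (l 16757048)) (l 16757240)) (l 16757088)) (a (l 16757384) (l 16757288)))) (c (l 16757056) (l 16757256))) (a (a (l 16756960)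 (c (a (c (a (a (l 16756664) (a (l 16756624) (l 16756576))) (l 16756552)) (l 16756696)) (l 16756568)) (l 16756816))) (c (l 16756536) (l 16756696)))))) (a (c (b (l 16756448) (l 16755352)) (b (l 16756576) (l 16755432))) (a (a (b (b (l 16756400) (l 16755848)) (b (l 16755296) (l 16754760))) (c (b (b (a (c (a (a (l 16756160) (a (l 16756120) (l 16756072))) (l 16756048)) (l 16756160)) (l 16756056)) (a (c (a (a (l 16755648) (b (a (l 16755736) (l 16755696)) (l 16755456))) (l 16755536)) (l 16755640)) (l 16755544))) (b (a (a (c (a (l 16755144) (a (l 16755104) (l 16755064))) (l 16755112)) (l 16755032)) (l 16755024)) (a (a (a (l 16754632) (c (l 16754568) (l 16754560))) (l 16754520)) (l 16754504)))) (b (b (l 16756248) (l 16755688)) (b (l 16755136) (l 16754576))))) (b (c (b (l 16756016) (l 16755504)) (l 16755848)) (c (b (l 16754992) (l 16754472)) (l 16754744)))))), by decide +kernel⟩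

def k177_A00pm_012_s1 : ∃ t, chk3 f_A00pm_012_s1 t 1340 46 3 = true :=
  ⟨(a (a (b (l 16754080) (l 16756880)) (b (l 16758968) (l 16756536))) (b (a (b (l 16756488) (l 16757912)) (a (a (b (a (l 16758792) (l 16756040)) (l 16757528)) (a (a (a (b (b (l 16758856) (l 16758272)) (l 16757384)) (b (b (l 16758768) (a (l 16758216) (l 16758160))) (a (l 16757336) (l 16757280)))) (b (b (l 16758712) (l 16758128)) (l 16757240))) (b (b (l 16758704) (l 16758112)) (l 16757232)))) (b (b (l 16758664) (l 16758080)) (l 16757200)))) (a (b (l 16756704) (l 16755488)) (b (a (a (l 16756336) (c (l 16756080) (l 16756160))) (l 16756008)) (a (a (l 16755120) (b (l 16755224) (l 16754624))) (c (l 16754784) (l 16754824))))))), by decide +kernel⟩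

def k178_A00pm_012_s1 : ∃ t, chk3 f_A00pm_012_s1 t 1340 47 1 = true :=
  ⟨(a (b (c (c (b (l 16754864) (l 16753760)) (l 16754296)) (c (l 16754248) (l 16754160))) (c (c (l 16754760) (l 16751944)) (b (l 16752312) (l 16751032)))) (b (a (b (c (c (l 16754288) (l 16754280)) (l 16754256)) (c (a (l 16753304) (l 16753080)) (l 16753016))) (b (a (a (c (c (l 16753968) (l 16753928)) (l 16753904)) (c (c (c (b (b (l 16754192) (l 16753936)) (l 16753552)) (b (a (l 16754048) (l 16753976)) (l 16753512))) (b (l 16754016) (l 16753456))) (b (l 16754016) (l 16753392)))) (b (c (l 16753928) (l 16753896)) (b (l 16753464) (l 16753168)))) (c (c (a (a (l 16752912) (b (b (l 16753136) (l 16752872)) (l 16752480))) (l 16752640)) (a (a (l 16752792) (l 16752608)) (l 16752496))) (a (a (l 16752656) (b (l 16752760) (l 16752128))) (l 16752328))))) (a (b (c (l 16752064) (l 16751752)) (c (l 16750936) (l 16750440))) (b (b (a (a (l 16751848) (c (l 16754464) (l 16751488))) (l 16751544)) (a (a (l 16751248) (c (l 16751288) (l 16750848))) (l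 16750952))) (b (a (a (l 16750640) (c (l 16750728) (l 16750200))) (c (l 16750632) (l 16750088))) (a (a (l 16750032) (l 16749848)) (c (l 16750072) (l 16749432)))))))), by decide +kernel⟩

def k179_A00pm_012_s1 : ∃ t, chk3 f_A00pm_012_s1 t 5364 11 1 = true :=
  ⟨(b (b (b (c (b (l 16766672) (c (l 16765472) (l 16765736))) (b (l 16767128) (l 16766104))) (c (c (b (l 16764384) (l 16763288)) (b (l 16764664) (l 16763584))) (b (l 16765056) (l 16763976)))) (b (c (b (c (l 16762192) (l 16762480)) (b (l 16761512) (l 16760960))) (b (l 16762872) (l 16761752))) (c (b (c (c (l 16759920) (l 16760064)) (l 16760264)) (c (b (l 16759168) (l 16758624)) (l 16759144))) (b (c (l 16760504) (l 16760712)) (c (l 16759360) (l 16759552)))))) (b (b (c (b (c (l 16757808) (l 16758024)) (b (l 16757088) (l 16756536))) (b (c (l 16758208) (l 16758368)) (c (l 16757056) (b (l 16757472) (l 16756872))))) (b (c (c (l 16755680) (l 16755776)) (c (l 16755880) (l 16755960))) (c (c (l 16754640) (l 16754664)) (c (l 16754704) (c (l 16754736) (l 16754744))))))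 (c (c (b (b (a (l 16756256) (l 16756192)) (l 16752552)) (b (l 16751496) (l 16750424))) (b (b (l 16753544) (b (l 16752696) (l 16752128))) (b (l 16751272) (l 16750112)))) (b (b (b (l 16753816) (l 16753192)) (b (l 16752568) (l 16751936))) (b (c (b (l 16751376) (l 16750760)) (l 16750888)) (c (l 16749816) (b (l 16749888) (l 16749208)))))))), by decide +kernel⟩

def k180_A00pm_012_s1 : ∃ t, chk3 f_A00pm_012_s1 t 10730 11 1 = true :=
  ⟨(b (b (b (b (c (l 16766600) (l 16767048)) (c (l 16765536) (l 16766024))) (c (b (l 16764464) (l 16763368)) (b (l 16764976) (l 16763896)))) (b (b (c (l 16762272) (l 16762792)) (c (c (l 16761024) (l 16761304)) (l 16761672))) (c (b (c (l 16759928) (l 16760192)) (l 16758952)) (b (c (l 16760424) (l 16760632)) (c (l 16759288) (l 16759472)))))) (b (b (c (b (l 16757848) (l 16756744)) (b (b (l 16758512) (l 16757920)) (c (b (l 16757264) (l 16756680)) (c (l 16757064) (l 16757112))))) (c (b (l 16755640) (l 16754568)) (c (b (l 16755808) (l 16754624)) (b (b (l 16756184) (l 16755576)) (c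 (l 16754648) (l 16754656)))))) (c (b (b (l 16753488) (l 16752400)) (b (c (l 16751408) (l 16751184)) (l 16750176))) (b (c (b (l 16753432) (l 16752224)) (b (b (l 16753720) (l 16753096)) (b (l 16752456) (l 16751808)))) (c (b (l 16750992) (l 16749736)) (b (c (l 16750856) (l 16750776)) (b (l 16749808) (l 16749136)))))))), by decide +kernel⟩

def k181_A00pm_012_s1 : ∃ t, chk3 f_A00pm_012_s1 t 21462 11 1 = true :=
  ⟨(b (b (b (b (c (l 16766560) (l 16767008)) (c (l 16765504) (l 16765984))) (b (c (l 16764424) (l 16764936)) (c (l 16763336) (l 16763856)))) (b (c (b (l 16762240) (l 16761136)) (b (l 16762752) (l 16761632))) (b (c (l 16760032) (c (l 16760392) (l 16760592))) (c (b (l 16759200) (l 16758648)) (c (l 16759248) (l 16759432)))))) (b (b (c (b (l 16757816) (l 16756704)) (c (b (l 16758096) (b (l 16757224) (l 16756640))) (b (c (l 16758216) (l 16758280)) (b (l 16757352) (l 16756744))))) (c (b (l 16755600) (l 16754528)) (c (b (l 16755768) (l 16754584)) (b (b (l 16756144) (l 16755528)) (b (l 16754920) (l 16754304))))))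 (c (b (b (l 16753448) (l 16752352)) (c (l 16750824) (l 16750568))) (c (b (b (l 16753392) (l 16752184)) (b (l 16750952) (l 16749696))) (b (b (b (l 16753680) (l 16753056)) (b (l 16752424) (l 16751768))) (b (c (l 16750816) (c (l 16750752) (l 16750712))) (b (l 16749768) (l 16749096)))))))), by decide +kernel⟩

def k182_A00pm_012_s1 : ∃ t, chk3 f_A00pm_012_s1 t 21463 11 1 = true :=
  ⟨(b (b (b (b (c (l 16766536) (l 16766984)) (c (l 16765480) (l 16765960))) (b (c (l 16764400) (l 16764912)) (c (l 16763312) (l 16763832)))) (b (b (c (l 16762216) (l 16762728)) (c (l 16761112) (l 16761608))) (b (c (l 16760000) (c (l 16760360) (l 16760568))) (c (b (l 16759176) (l 16758616)) (c (l 16759224) (l 16759400)))))) (b (c (b (b (l 16757792) (l 16756680)) (b (l 16755576) (l 16754496))) (b (b (b (l 16758440) (l 16757856)) (b (b (l 16757416) (l 16757120)) (b (l 16756824) (l 16756520)))) (c (b (l 16755736) (l 16754560)) (b (b (l 16756112) (l 16755504)) (c (l 16754576) (b (l 16754896) (l 16754272))))))) (c (b (c (l 16752920)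 (l 16755448)) (c (l 16750800) (l 16750536))) (c (b (b (l 16753368) (l 16752152)) (b (l 16750920) (l 16749672))) (b (b (b (l 16753648) (l 16753024)) (b (l 16752400) (l 16751744))) (b (c (l 16750792) (c (l 16750728) (l 16750688))) (c (l 16749472) (b (l 16749688) (l 16749000))))))))), by decide +kernel⟩

def k183_A00pm_012_s1 : ∃ t, chk3 f_A00pm_012_s1 t 2683 11 1 = true :=
  ⟨(b (c (b (b (b (l 16766416) (l 16765360)) (b (l 16764280) (l 16763192))) (b (b (l 16762096) (l 16760992)) (b (l 16759880) (b (l 16759048) (l 16758496))))) (b (b (b (l 16766848) (l 16765832)) (b (l 16764784) (l 16763704))) (b (b (l 16762608) (l 16761480)) (c (b (l 16760240) (l 16759096)) (b (l 16760448) (l 16759280)))))) (b (c (b (b (l 16757664) (l 16756552)) (b (l 16755448) (l 16754352))) (b (b (b (l 16758320) (l 16757728)) (b (b (l 16757288) (l 16756992)) (b (l 16756696) (l 16756400)))) (c (b (l 16755608) (l 16754432)) (b (b (l 16755992) (l 16755376)) (c (l 16754448) (b (l 16754768) (l 16754144))))))) (c (b (c (l 16752768) (l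 16755312)) (c (l 16750648) (l 16750400))) (c (b (b (l 16753240) (l 16752032)) (b (l 16750800) (l 16749552))) (b (b (b (l 16753528) (l 16752904)) (b (l 16752272) (l 16751632))) (b (b (l 16750976) (l 16750304)) (c (l 16749360) (b (l 16749584) (l 16748896))))))))), by decide +kernel⟩

def k184_A00pm_012_s1 : ∃ t, chk3 f_A00pm_012_s1 t 671 11 1 = true :=
  ⟨(b (b (b (c (b (l 16765856) (l 16764808)) (b (l 16766272) (l 16765264))) (c (b (l 16763736) (c (l 16762512) (l 16762784))) (b (l 16764216) (l 16763144)))) (b (b (c (c (l 16761408) (l 16761688)) (b (l 16762328) (l 16761768))) (b (c (l 16760720) (l 16761216)) (c (l 16760168) (l 16760648)))) (b (c (b (l 16759608) (l 16759056)) (c (l 16759688) (l 16759888))) (c (l 16758216) (c (l 16758544) (c (l 16758680) (l 16758760))))))) (b (c (b (b (l 16757104) (l 16755984)) (b (l 16754872) (l 16753752))) (b (b (c (l 16757392) (c (l 16757504) (l 16757568))) (b (c (l 16756520) (l 16756640)) (c (l 16755928) (l 16756040)))) (c (b (l 16755048) (l 16753864)) (b (b (c (l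 16755408) (l 16755440)) (c (l 16754800) (l 16754824))) (c (l 16753888) (b (l 16754200) (l 16753576))))))) (c (b (c (l 16752112) (l 16754704)) (c (l 16749984) (l 16752408))) (c (b (b (l 16752672) (l 16751464)) (b (l 16750248) (l 16749000))) (b (b (a (b (l 16753184) (l 16752560)) (b (l 16752728) (l 16752096))) (c (l 16751408) (b (l 16751680) (l 16751032)))) (b (c (l 16750144) (b (l 16750392) (l 16749744))) (a (b (l 16749344) (l 16748672)) (l 16748584)))))))), by decide +kernel⟩

def k185_A00pm_012_s1 : ∃ t, chk3 f_A00pm_012_s1 t 21 4 1 = true :=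
  ⟨(l 2), by decide +kernel⟩

def k186_A00pm_012_s1 : ∃ t, chk3 f_A00pm_012_s1 t 21 10 1 = true :=
  ⟨(b (a (a (a (a (b (l 2) (b (l 2) (b (l 2) (b (l 2) (l 16771352))))) (l 2)) (l 2)) (l 2)) (l 2)) (a (a (b (a (c (b (b (l 16775304) (l 16774616)) (b (l 16773864) (l 16773088))) (b (b (l 16775200) (l 16774576)) (b (l 16773896) (l 16773192)))) (b (b (c (l 16766544) (l 16766344)) (c (l 16765752) (l 16765632))) (c (b (l 16764904) (l 16764032)) (b (l 16764864) (l 16764080))))) (b (a (a (c (b (l 16773360) (l 16772592)) (b (l 16768280) (l 16767560))) (b (l 16771456) (c (l 16765408) (l 16765576)))) (b (l 16773752) (c (l 16772968) (l 16762608)))) (c (a (b (c (l 16765440) (l 16765552)) (b (l 16770032) (l 16769552))) (b (l 16772120) (l 16760736))) (a (b (l 16770976) (a (l 16765808) (l 16763864))) (b (l 16761792) (l 16760928)))))) (b (a (c (b (l 16773192) (l 16771304)) (b (l 16762440) (l 16760752))) (b (l 2) (c (l 16757288) (l 16757128)))) (b (a (c (b (l 16759448) (l 16758616)) (l 16769568)) (c (l 16755296) (l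 16755296))) (a (c (b (l 16757776) (l 16756872)) (b (l 16757872) (l 16757000))) (c (b (l 16753960) (l 16753032)) (l 16753560)))))) (b (a (b (l 2) (b (l 2) (l 16772424))) (l 2)) (a (b (c (l 16749936) (l 16749816)) (c (b (l 16748416) (l 16768384)) (a (l 16749736) (l 16746016)))) (b (c (l 16743248) (l 16742904)) (c (l 16761792) (l 16740608))))))), by decide +kernel⟩

def k187_A00pm_012_s1 : ∃ t, chk3 f_A00pm_012_s1 t 21 44 1 = true :=
  ⟨(a (a (b (a (c (b (c (l 16768712) (l 16763648)) (c (l 16767672) (l 16762632))) (b (a (l 16764856) (l 16762936)) (b (l 16768408) (l 16767904)))) (c (b (l 16765016) (l 16764016)) (b (l 16760016) (l 16759056)))) (a (c (a (b (c (l 16762272) (l 16762512)) (c (l 16761184) (l 16761440))) (b (l 16760560) (l 16759480))) (a (b (l 16762832) (l 16764392)) (b (l 16760944) (l 16759888)))) (c (b (l 16762984) (l 16761920)) (c (l 16762704) (l 16762840))))) (a (c (b (c (l 16755416) (l 16755496)) (c (l 16753344) (l 16753480))) (b (l 16760872) (l 16758888))) (c (b (b (l 16752096) (l 16751136))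 (l 16760088)) (b (l 16751704) (l 16749744))))) (a (a (b (c (l 16747792) (l 16747832)) (c (l 16745792) (l 16745856))) (b (c (l 16744040) (l 16744008)) (c (l 16741968) (l 16741968)))) (b (c (a (l 16740344) (l 16736768)) (l 16738400)) (c (a (l 16738216) (l 16734512)) (l 16736240))))), by decide +kernel⟩

def k188_A00pm_012_s1 : ∃ t, chk3 f_A00pm_012_s1 t 21 45 1 = true :=
  ⟨(a (a (b (c (a (a (b (c (l 16760080) (l 16760344)) (c (l 16758968) (l 16759232))) (b (l 16758384) (l 16757280))) (b (l 16760832) (l 16759712))) (a (a (b (c (l 16760576) (l 16760784)) (c (l 16759464) (l 16759664))) (b (l 16758808) (l 16757704))) (c (l 16760560) (l 16760696)))) (c (a (a (b (c (l 16757856) (l 16758112)) (b (l 16757144) (l 16756584))) (b (l 16756152) (l 16755016))) (b (c (l 16753216) (l 16753456)) (l 16757440))) (a (c (a (b (l 16758336) (l 16757192)) (l 16758528)) (b (a (l 16758520) (l 16756648)) (a (l 16759976) (l 16755488)))) (b (l 16758952) (l 16757800))))) (b (a (c (c (l 16751144) (l 16751320)) (l 16756760)) (c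 (l 16757912) (l 16747616))) (a (c (c (l 16748840) (l 16749064)) (b (l 16749832) (l 16748680))) (c (l 16755616) (l 16745352))))) (b (a (c (a (l 16743616) (l 16739816)) (a (l 16743720) (l 16739840))) (c (a (l 16736040) (l 16732264)) (l 16755000))) (a (c (a (l 16741304) (l 16737496)) (a (l 16741440) (l 16737544))) (c (l 16742304) (l 16731744))))), by decide +kernel⟩

def k189_A00pm_012_s1 : ∃ t, chk3 f_A00pm_012_s1 t 21 46 1 = true :=
  ⟨(a (a (a (b (c (b (c (l 16754688) (b (l 16760456) (l 16759880))) (a (l 16754608) (l 16752728))) (a (b (a (b (l 16756864) (l 16756272)) (l 16755648)) (c (l 16757480) (a (l 16755432) (l 16754504)))) (b (l 16756864) (c (l 16752992) (l 16753088))))) (a (b (c (l 16753472) (c (b (l 16753968) (l 16753376)) (c (l 16753728) (l 16756376)))) (c (l 16752336) (c (l 16752480) (b (l 16755440) (l 16754816))))) (c (b (l 16756824) (l 16750424)) (a (b (l 16752312) (l 16751088)) (b (l 16751360) (l 16750136)))))) (b (c (b (a (l 16751992) (l 16750088)) (a (l 16750832) (l 16748912))) (b (l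 16756624) (a (l 16751144) (l 16749208)))) (c (b (a (l 16749664) (l 16747728)) (a (l 16748488) (l 16746544))) (b (a (l 16749928) (l 16747984)) (a (l 16748688) (l 16746744)))))) (a (b (c (b (l 16747208) (l 16746016)) (b (l 16747496) (l 16746288))) (c (b (l 16744816) (l 16743608)) (b (l 16745056) (l 16743800)))) (b (c (l 16753240) (l 16742968)) (c (l 16740304) (l 16740480))))) (a (c (b (a (l 16738896) (l 16735048)) (a (l 16736400) (l 16732512))) (b (a (l 16739040) (l 16735128)) (l 16745048))) (c (b (l 16739816) (l 16737224)) (b (l 16729288) (l 16726712))))), by decide +kernel⟩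

def k190_A00pm_012_s1 : ∃ t, chk3 f_A00pm_012_s1 t 21 47 1 = true :=
  ⟨(a (a (c (c (b (a (l 16754856) (l 16745640)) (b (l 16751152) (l 16750000))) (b (b (a (l 16750280) (l 16746400)) (l 16752400)) (a (l 16752576) (l 16743360)))) (a (c (b (b (a (l 16751272) (l 16749368)) (a (l 16750056) (l 16748136))) (b (a (l 16748824) (l 16746896)) (l 16751864))) (b (a (a (b (c (l 16751728) (l 16751704)) (l 16750448)) (b (l 16750776) (l 16749504))) (b (l 16749352) (l 16748064))) (b (c (l 16750392) (a (l 16748648) (l 16746720))) (c (l 16749104) (a (l 16747336) (l 16745392)))))) (b (c (c (l 16751080) (l 16751080)) (c (l 16751048) (l 16751000))) (a (b (l 16744888) (l 16743584)) (b (l 16742912) (l 16741600)))))) (a (b (c (b (l 16742384) (l 16741160)) (c (l 16741904) (l 16741824))) (c (l 16739304) (c (l 16739328) (l 16739152)))) (b (c (l 16737800) (l 16737904)) (c (l 16745752) (l 16735248))))) (b (c (a (a (l 16733848) (l 16729912)) (l 16734544)) (a (l 16742424) (l 16724024))) (c (a (c (l 16729088) (l 16729336)) (l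 16731792)) (a (a (l 16731224) (l 16727216)) (l 16721232))))), by decide +kernel⟩

def k191_A00pm_012_s1 : ∃ t, chk3 f_A00pm_012_s1 t 11 2 1 = true :=
  ⟨(b (l 2) (b (a (b (l 2) (b (l 2) (a (a (b (l 2) (c (l 16734240) (l 16733800))) (l 2)) (l 2)))) (l 2)) (a (b (a (b (a (b (c (l 16731624) (l 16731280)) (c (l 16729096) (l 16728832))) (b (c (l 16725176) (l 16724576)) (c (l 16722296) (l 16721816)))) (a (c (b (l 16726728) (l 16745280)) (b (l 16726488) (l 16724080))) (c (b (l 16719592) (l 16717024)) (b (l 16719176) (l 16716632))))) (b (a (b (l 2) (c (l 16715984) (l 16715224))) (l 2)) (c (a (b (l 16712888) (l 16710000)) (b (l 16706672) (l 16703408))) (a (l 16731792) (l 16725200))))) (a (b (a (a (b (l 16723664) (l 16721064)) (b (l 16719896) (l 16717264))) (c (b (l 16714400) (l 16711696)) (b (l 16714032) (l 16711368)))) (a (c (b (l 16716368) (l 16713504)) (b (l 16716216) (l 16713344))) (c (b (l 16708832) (l 16705856)) (b (l 16708536) (l 16705584))))) (a (b (c (b (l 16707224) (l 16704384)) (b (l 16706688)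 (l 16703880))) (c (b (l 16701464) (l 16698384)) (l 16720440))) (c (b (b (l 16700312) (l 16697312)) (b (l 16694248) (l 16691096))) (b (l 16719096) (b (l 16693624) (l 16690544))))))) (b (a (a (a (b (l 2) (b (l 2) (l 16698232))) (l 2)) (l 2)) (l 2)) (b (b (a (c (a (l 16693824) (l 16687800)) (l 16731672)) (l 2)) (c (a (a (l 16690520) (l 16684136)) (a (l 16678208) (l 2))) (a (l 16728224) (l 16673816)))) (b (c (c (a (l 16684008) (l 16671632)) (a (l 16683784) (l 16671120))) (a (l 16724960) (l 16670016))) (c (a (c (l 16701448) (l 16680448)) (c (l 16667528) (l 16667208))) (a (l 16721640) (l 16666160))))))))), by decide +kernel⟩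

def k192_A00pm_012_s1 : ∃ t, chk3 f_A00pm_012_s1 t 160 24 1 = true :=
  ⟨(a (b (l 3) (l 3)) (b (l 3) (b (l 3) (a (c (b (l 3) (a (b (l 3) (a (b (l 3) (c (c (l 532937599) (l 532834943)) (c (l 532735103) (l 532638591)))) (c (c (l 532928895) (l 532825727)) (c (l 532725631) (l 532628607))))) (b (a (a (l 3) (b (l 3) (c (l 532727935) (l 532658447)))) (c (c (l 532907135) (l 532802175)) (c (l 532699775) (l 532600703)))) (c (l 532865807) (l 532665871))))) (b (l 3) (a (b (l 3) (a (b (l 3) (c (c (l 532545407) (l 532455551)) (c (l 532369791) (l 532288127)))) (c (c (l 532534911) (l 532444799)) (c (l 532358527) (l 532276351))))) (b (a (a (l 3) (b (l 3) (c (l 532467983) (l 532292479)))) (c (c (l 532505215) (l 532413055)) (c (l 532324735) (l 532240255)))) (c (l 532479247) (l 532307471)))))) (c (b (a (b (l 3) (a (a (l 3) (b (l 3) (c (l 532838015) (l 532630655)))) (c (c (l 532883583) (l 532776319)) (c (l 532672127) (l 532571263))))) (c (b (a (l 3) (c (l 532857727) (l 532748671))) (l 532817167)) (b (a (l 3) (b (l 3)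 (l 532594559))) (l 532609295)))) (c (c (l 532891263) (l 532787839)) (c (l 532687231) (l 532589695)))) (b (a (b (l 3) (a (a (l 3) (b (l 3) (c (l 532436095) (l 532256383)))) (c (c (l 532473471) (l 532379263)) (c (l 532288895) (l 532202623))))) (b (a (l 3) (b (l 3) (c (l 532396415) (l 532213119)))) (c (l 532414735) (l 532235135)))) (c (c (l 532495743) (l 532405631)) (c (l 532319103) (l 532236671))))))))), by decide +kernel⟩

def k193_A00pm_012_s1 : ∃ t, chk3 f_A00pm_012_s1 t 161 48 1 = true :=
  ⟨(a (l 3) (b (l 3) (a (a (l 3) (b (l 3) (b (l 3) (c (c (l 532622863) (l 532427023)) (c (c (l 532230271) (l 532125567)) (c (l 532024959) (l 531928191))))))) (a (b (l 3) (a (c (c (l 532597775) (b (l 532355855) (l 532378751))) (b (c (l 532135951) (l 531628815)) (c (l 532163967) (l 531964031)))) (c (c (l 532586879) (l 532357503)) (c (l 532141183) (l 531939711))))) (b (b (l 3) (c (c (c (l 532602495) (l 532481919)) (a (l 532311567) (l 532301183))) (c (c (l 532138367) (l 532030591)) (c (l 531926655) (l 531826815)))))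 (c (c (l 532570495) (l 532342655)) (c (l 532127871) (l 531927935)))))))), by decide +kernel⟩

def k194_A00pm_012_s1 : ∃ t, chk3 f_A00pm_012_s1 t 161 49 1 = true :=
  ⟨(a (b (a (b (l 3) (c (a (a (l 3) (b (l 3) (b (l 3) (c (l 532777087) (l 532562303))))) (c (b (a (l 3) (c (l 532800383) (l 532687487))) (l 532760335)) (b (a (l 3) (b (l 3) (l 532527999))) (l 532545039)))) (a (a (l 3) (b (l 3) (b (l 3) (c (l 532360319) (l 532173183))))) (b (a (l 3) (a (l 3) (c (l 532448895) (l 532122751)))) (c (l 532342799) (l 532155519)))))) (a (c (b (a (l 3) (a (l 3) (b (l 3) (c (l 532708223) (l 532484879))))) (c (l 532735503) (b (l 532510223) (l 532527999)))) (b (a (l 3) (a (l 3) (b (l 3) (c (l 532274447) (l 532078719))))) (c (b (l 532304143) (l 532327039)) (l 531992847)))) (c (b (b (l 3) (c (l 532695567) (l 532473103))) (c (l 532716927) (l 532501631))) (b (b (l 3) (c (l 532263695) (l 532068879))) (c (l 532299647) (l 532112511)))))) (a (c (a (b (c (l 532795151) (l 532585999)) (l 532713999)) (c (l 532788863) (l 532585599)))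 (c (a (c (l 532456319) (l 532364415)) (l 532395647)) (b (a (l 532208655) (l 532195199)) (l 532252031)))) (c (c (l 532763775) (l 532562047)) (c (l 532374143) (l 532201343))))) (c (b (a (b (c (c (l 532715391) (l 532601215)) (c (l 532489855) (l 532381455))) (c (l 532688255) (l 532475519))) (c (l 532633471) (l 532419455))) (a (l 532628495) (l 532596095))) (c (b (a (a (c (l 532309119) (l 532210047)) (l 532242815)) (l 532218751)) (l 532064127)) (c (b (a (l 531939711) (l 532077951)) (l 532205183)) (b (a (l 532016511) (l 531989119)) (l 532125055)))))), by decide +kernel⟩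

def k195_A00pm_012_s1 : ∃ t, chk3 f_A00pm_012_s1 t 640 50 1 = true :=
  ⟨(b (b (b (l 3) (a (l 3) (a (l 3) (b (l 3) (c (l 532832895) (l 532476543)))))) (b (b (a (l 3) (c (l 532838927) (l 532487183))) (a (c (l 532853263) (l 532505471)) (c (l 532842367) (l 532494975)))) (c (a (l 532857471) (l 532846719)) (a (l 532516479) (l 532506239))))) (c (b (b (l 532857471) (l 532862335)) (b (l 532855823) (l 532800895))) (b (b (l 532525695) (l 532539519)) (b (b (l 532544895) (l 532533119)) (l 532503935))))), by decide +kernel⟩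

def k196_A00pm_012_s1 : ∃ t, chk3 f_A00pm_012_s1 t 641 100 2 = true :=
  ⟨(a (b (a (b (l 3) (b (b (l 3) (l 532824191)) (l 532826751))) (b (b (l 3) (b (l 3) (b (l 3) (a (l 3) (a (l 3) (c (c (l 532961295) (l 532861199)) (c (l 532763919) (l 532669711)))))))) (c (a (l 532918143) (a (l 532915583) (b (b (b (c (l 532962063) (l 532861967)) (a (l 532912767) (l 532911999))) (l 532913535)) (l 532915327)))) (a (l 532725887) (a (l 532723583) (b (b (c (c (l 532789519) (l 532741903)) (c (l 532694799) (l 532648975))) (l 532720767)) (l 532724351))))))) (a (l 532835199) (b (l 532825871) (l 532832895)))) (b (b (a (b (a (l 3) (a (l 3) (c (c (l 532951679) (l 532850047)) (c (l 532751231) (l 532655375))))) (c (c (l 532956543) (l 532855935)) (c (l 532758399) (l 532663679)))) (c (c (l 532948607) (l 532847487)) (c (l 532749439) (l 532654463)))) (c (a (a (b (c (b (a (l 532960527) (l 532958991)) (l 532960895)) (b (a (l 532860943) (l 532859151)) (l 532861823))) (l 532913023)) (b (b (c (l 532956543) (l 532856959)) (l 532907903))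 (l 532909951))) (b (b (l 532834431) (l 532902927)) (l 532904975))) (a (a (b (c (b (b (l 532762639) (l 532763663)) (l 532765567)) (b (b (l 532668687) (l 532670223)) (l 532672383))) (l 532722047)) (b (b (c (l 532760191) (l 532666495)) (l 532715391)) (l 532718975))) (b (b (l 532707855) (l 532710415)) (l 532714255))))) (c (a (l 532917775) (b (l 532909183) (l 532914303))) (a (l 532732431) (b (l 532654719) (l 532731263)))))), by decide +kernel⟩

def k197_A00pm_012_s1 : ∃ t, chk3 f_A00pm_012_s1 t 641 100 3 = true :=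
  ⟨(a (b (a (b (l 3) (b (b (l 3) (l 532465023)) (l 532471167))) (b (b (l 3) (b (l 3) (b (l 3) (a (l 3) (a (l 3) (a (c (c (l 532579343) (l 532492047)) (c (l 532408591) (l 532329231))) (c (l 532534287) (l 532367631)))))))) (c (a (l 532546687) (a (l 532544639) (b (b (c (c (l 532603663) (l 532559375)) (c (l 532515855) (a (l 532473871) (l 532473103)))) (l 532541311)) (l 532546687)))) (a (l 532382591) (a (l 532380543) (b (b (b (c (a (l 532410895) (l 532410127)) (a (l 532331791) (l 532331023))) (a (l 532373375) (l 532372607))) (l 532376703)) (l 532383871))))))) (a (l 532490879) (b (l 532477455) (l 532493439)))) (b (b (a (b (b (l 3) (a (l 3) (c (c (l 532565631) (l 532477311)) (c (l 532392575) (l 532312191))))) (c (c (l 532572543) (l 532484991)) (c (l 532401279) (l 532321407)))) (c (c (l 532562815) (l 532474751)) (c (l 532390527) (l 532310399)))) (c (a (a (b (b (c (b (l 532578319) (l 532579855)) (b (l 532491279) (l 532493327))) (b (l 532538127) (l 532540031))) (l 532544383)) (b (b (c (l 532576127) (l 532489599))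 (l 532535935)) (l 532541567))) (b (b (l 532527631) (l 532531471)) (l 532537103))) (a (a (b (b (c (b (l 532408335) (l 532410639)) (b (l 532329231) (l 532332047))) (b (l 532373263) (l 532375679))) (l 532381823)) (b (b (c (l 532406655) (l 532328063)) (l 532405375)) (l 532379007))) (b (b (l 532362255) (l 532367375)) (l 532374799))))) (a (b (a (l 532473359) (l 532470799)) (l 532488319)) (b (c (l 532547855) (l 532389135)) (l 532483199))))), by decide +kernel⟩

def k198_A00pm_012_s1 : ∃ t, chk3 f_A00pm_012_s1 t 641 101 1 = true :=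
  ⟨(b (a (c (l 532844671) (l 532518527)) (c (l 532833807) (l 532508943))) (a (b (l 532679039) (l 532642175)) (b (a (l 532673151) (l 532669055)) (l 532639503)))), by decide +kernel⟩

def k199_A00pm_012_s1 : ∃ t, chk3 f_A00pm_012_s1 t 321 50 1 = true :=
  ⟨(b (c (c (a (b (b (a (l 532887311) (l 532873343)) (a (b (l 532892175) (l 532895247)) (l 532880511))) (a (b (l 532899599) (l 532905343)) (l 532889871))) (b (l 532855567) (l 532870415))) (a (b (b (c (l 532732543) (l 532638079)) (a (b (l 532699663) (l 532705039)) (l 532689535))) (a (b (l 532712719) (l 532722815)) (l 532705807))) (b (l 532663567) (l 532687375)))) (a (b (b (c (c (l 532546687) (l 532459135)) (c (l 532375423) (l 532295807))) (c (a (b (l 532520463) (l 532528143)) (l 532512383)) (a (b (l 532356367) (l 532366351)) (l 532350079)))) (a (b (c (l 532539407) (l 532381199)) (c (l 532553855) (l 532400511))) (b (c (l 532527999) (l 532370559)) (l 532464655)))) (b (c (l 532485135) (l 532322063)) (c (a (l 532524159) (l 532512639)) (a (l 532370047) (l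 532359551)))))) (a (b (c (a (l 532823055) (l 532811791)) (a (l 532499471) (l 532489743))) (b (c (l 532820351) (l 532511503)) (c (l 532789375) (l 532493951)))) (c (b (c (l 532883839) (l 532709247)) (b (l 532800895) (l 532777855))) (b (c (l 532549247) (l 532405119)) (a (l 532496655) (l 532488575)))))), by decide +kernel⟩

def k200_A00pm_012_s1 : ∃ t, chk3 f_A00pm_012_s1 t 160 51 1 = true :=
  ⟨(a (b (b (a (a (l 532566799) (l 532568335)) (a (l 532569103) (l 532569103))) (a (c (l 532590719) (l 532351615)) (a (l 532467327) (l 532469887)))) (c (a (l 532681855) (l 532692607)) (a (l 532222223) (l 532230927)))) (b (a (c (b (l 532712831) (l 532601727)) (b (l 532440079) (l 532360575))) (c (b (l 532709503) (l 532603775)) (b (l 532169343) (l 532362623)))) (c (a (l 532432767) (l 532439935)) (a (l 532238463) (l 532244863))))), by decide +kernel⟩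

def k201_A00pm_012_s1 : ∃ t, chk3 f_A00pm_012_s1 t 161 25 1 = true :=
  ⟨(b (b (a (c (b (a (l 532729871) (l 532701311)) (c (l 532829967) (l 532649743))) (b (c (l 532448127) (l 532019839)) (a (c (l 532495743) (l 532344191)) (l 532396415)))) (c (a (l 532685695) (l 532658047)) (a (l 532353039) (l 532332159)))) (a (c (b (a (l 532771455) (l 532747391)) (a (l 532773759) (l 532754303))) (b (a (l 532455439) (l 532436095)) (a (l 532477311) (l 16768448)))) (c (b (l 532711295) (l 16767376)) (b (l 532408703) (l 16769320))))) (a (b (c (a (b (l 532703871) (l 16766968)) (l 532649743)) (a (b (l 532434047) (l 16766392)) (l 532397071))) (c (b (a (l 16765208) (l 16764096)) (l 16762768)) (a (l 16766336) (l 16762544)))) (b (c (b (l 16765888) (a (l 16764784) (l 16763672))) (b (l 16765184) (l 16763520))) (c (a (b (l 16762984) (l 16761080)) (b (l 16761872) (l 16759952))) (b (l 16761728) (l 16754608)))))), by decide +kernel⟩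

def k202_A00pm_012_s1 : ∃ t, chk3 f_A00pm_012_s1 t 324 96 1 = true :=
  ⟨(a (a (l 3) (b (l 3) (b (l 3) (c (c (c (l 532514431) (l 532391039)) (c (l 532270463) (l 532153215))) (c (c (l 532039295) (l 531928703)) (c (l 531822207) (l 531710847))))))) (b (b (l 3) (a (l 3) (c (c (c (l 532417551) (a (l 532297999) (l 532285823))) (a (b (l 3) (l 532122127)) (a (l 532173071) (l 532100479)))) (c (c (a (l 531938175) (l 531928191)) (l 531820303)) (c (l 531711359) (l 531579007)))))) (c (c (a (b (c (l 532467071) (l 532342287)) (l 532427903)) (l 532391439)) (a (b (a (b (l 3) (l 532173951)) (l 532155407)) (l 532189823)) (l 532153615))) (c (a (b (c (l 531986959) (l 531875455)) (l 531964799)) (l 531727631)) (a (c (l 531786367) (l 531665023)) (l 531713919)))))), by decide +kernel⟩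

def k203_A00pm_012_s1 : ∃ t, chk3 f_A00pm_012_s1 t 325 96 1 = true :=
  ⟨(a (b (c (b (c (a (c (a (l 532372751) (l 532359295)) (a (b (l 3) (l 532252799)) (l 532233087))) (c (l 532339327) (l 532214399))) (a (a (b (l 3) (c (l 532129151) (l 532008831))) (c (l 532109695) (l 531989631))) (a (l 532037903) (l 532026751)))) (c (a (l 532328719) (l 532303743)) (a (l 532086543) (l 532064895)))) (a (c (b (b (a (l 3) (c (l 531863679) (l 531749503))) (c (l 531886719) (l 531773567))) (c (l 531913343) (l 531802239))) (c (l 531540095) (l 531534207))) (c (c (l 531876223) (l 531765375)) (l 531585151)))) (c (c (l 532355087) (l 532122127)) (c (b (l 531616015) (l 531920511)) (l 531679615)))) (c (b (c (a (a (l 532271119) (b (l 532245775) (l 532273791))) (b (b (l 532224527) (l 532238207)) (l 532258687))) (a (a (b (l 532015887) (l 532049023)) (b (b (l 531998991) (l 532015487)) (l 532040063))) (b (a (l 532000783) (l 531995775)) (l 532029823)))) (a (c (l 532320127) (l 532092543)) (c (l 532299391) (l 532077183)))) (b (c (a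 (a (a (l 531809151) (l 531805055)) (b (c (l 531836799) (l 531727487)) (l 531819391))) (b (a (l 531778575) (l 531777407)) (l 531813503))) (a (b (a (l 531548031) (l 531543055)) (l 531587087)) (b (b (l 531537679) (l 531555711)) (l 531583871)))) (a (c (l 531878271) (l 531649919)) (c (l 531867775) (l 531642495)))))), by decide +kernel⟩

def k204_A00pm_012_s1 : ∃ t, chk3 f_A00pm_012_s1 t 162 97 1 = true :=
  ⟨(a (c (a (b (c (a (c (l 532569215) (l 532448383)) (l 532484991)) (a (c (l 532330623) (l 532215935)) (l 532251775))) (c (l 532537727) (l 532313215))) (c (l 532472079) (l 532247823))) (a (c (b (a (c (l 532104575) (l 531996799)) (l 532031871)) (l 532102015)) (a (c (l 531658623) (l 531829375)) (l 531862655))) (c (b (l 531602815) (l 532069247)) (l 531840639)))) (a (c (c (l 532428671) (l 532210559)) (c (l 532005759) (l 531796863))) (c (a (c (l 532396671) (l 532183679)) (l 532271119)) (a (l 531889167) (l 531880207))))), by decide +kernel⟩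

def k205_A00pm_012_s1 : ∃ t, chk3 f_A00pm_012_s1 t 162 49 1 = true :=
  ⟨(a (c (b (c (l 532573711) (l 532366351)) (l 532547599)) (b (c (l 532039551) (l 531994751)) (l 532198783))) (c (a (l 531923071) (b (l 531846015) (l 531937663))) (a (l 532107135) (c (l 532168575) (l 531981183))))), by decide +kernel⟩

def k206_A00pm_012_s1 : ∃ t, chk3 f_A00pm_012_s1 t 162 25 1 = true :=
  ⟨(a (b (b (c (b (l 532601727) (l 16767696)) (l 532303743)) (c (b (l 16766440) (l 16765128)) (b (l 16765704) (l 16764344)))) (b (c (b (l 16763664) (a (l 16762568) (l 16761448))) (b (l 16762856) (l 16761200))) (c (b (a (l 16760752) (l 16759632)) (a (l 16758824) (a (b (l 16758480) (l 16757480)) (b (l 16757912) (l 16756920))))) (b (l 16759408) (b (l 16752752) (a (l 16757616) (l 16751208))))))) (c (a (b (b (l 532578831) (b (l 16764720) (l 16763424))) (b (b (l 16756728) (c (l 16760576) (l 16760088))) (b (b (l 16758984) (a (l 16758320) (c (l 16758016) (l 16757528)))) (b (c (l 16757320) (l 16756840)) (l 16756056))))) (b (b (b (l 16766024)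 (l 16764800)) (b (l 16763568) (l 16762272))) (b (a (b (l 16761112) (l 16759488)) (b (l 16755304) (b (l 16759352) (l 16758488)))) (b (b (c (a (l 16758400) (l 16757848)) (l 16757624)) (l 16756904)) (l 16755416))))) (b (b (a (l 532278399) (b (l 16765256) (l 16763984))) (a (a (l 16763544) (l 16765568)) (b (l 16762704) (l 16761384)))) (b (b (l 16760512) (a (l 16759464) (c (l 16758504) (l 16758120)))) (b (a (b (l 16758144) (l 16757208)) (b (l 16756984) (l 16756040))) (c (b (l 16761096) (l 16754848)) (l 16755032))))))), by decide +kernel⟩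

def k207_A00pm_012_s1 : ∃ t, chk3 f_A00pm_012_s1 t 163 24 1 = true :=
  ⟨(b (c (a (b (a (b (c (b (l 532206095) (l 532232463)) (b (l 532119823) (l 532014607))) (c (l 532272655) (a (l 532065407) (l 532055935)))) (b (c (l 532189199) (l 531987471)) (l 531605007))) (a (c (l 532350991) (l 531882623)) (b (l 532197903) (l 16769544)))) (b (b (a (b (l 532594303) (l 532083583)) (l 531787391)) (a (l 532124287) (l 532109695))) (a (l 531937807) (l 532192127)))) (a (c (b (b (a (b (l 531777039) (l 531809295)) (l 531797119)) (a (l 531859983) (l 531859071))) (a (l 531963007) (l 531956607))) (b (b (a (b (l 531566351) (l 531597183)) (l 531615359)) (a (l 531648383) (l 531671167))) (a (l 531757183) (l 531768959)))) (b (b (a (l 531720719) (l 531737983)) (l 531787023)) (a (l 531877391) (l 531887999))))) (b (a (c (a (l 532355199) (l 532332047)) (a (l 532012671) (l 532007439))) (c (b (l 16766552) (l 16765400)) (a (b (l 16766480) (l 16765272)) (b (l 16765232) (l 16764032))))) (a (c (b (l 16766648) (a (l 16766056) (l 16764864)))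 (c (l 532207119) (l 532437263))) (c (a (b (l 16764840) (l 16763672)) (b (l 16763640) (l 16762480))) (a (b (l 16764056) (l 16762840)) (b (l 16762832) (l 16759008))))))), by decide +kernel⟩

def k208_A00pm_012_s1 : ∃ t, chk3 f_A00pm_012_s1 t 326 50 1 = true :=
  ⟨(c (c (b (b (l 16764488) (l 16763288)) (a (b (l 16762656) (l 16761384)) (b (l 16758880) (a (l 16760528) (l 16759952))))) (b (b (l 16764032) (l 16762808)) (a (a (l 16761816) (l 16761240)) (b (l 16761000) (l 16759720))))) (c (b (b (l 16763616) (l 16762376)) (a (l 532414735) (b (l 16760536) (l 16759248)))) (b (b (l 16763144) (l 16759256)) (a (l 532279823) (b (l 16760024) (l 16758752)))))), by decide +kernel⟩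

def k209_A00pm_012_s1 : ∃ t, chk3 f_A00pm_012_s1 t 327 50 1 = true :=
  ⟨(a (c (b (b (l 16762488) (c (l 16758920) (l 16761048))) (b (c (b (l 16760640) (l 16760040)) (a (l 16760128) (l 16759544))) (a (b (l 16759440) (c (b (l 16759208) (l 16758872)) (b (l 16758680) (l 16758344)))) (b (c (b (l 16759280) (l 16758968)) (b (l 16758760) (l 16758440))) (b (l 16758360) (l 16758000)))))) (b (b (l 16758992) (b (l 16760688) (l 16760072))) (b (b (l 16756832) (a (l 16759128) (l 16758544))) (b (a (l 16758488) (b (l 16758064) (l 16757736))) (a (b (l 16757984) (l 16757640)) (l 16757208)))))) (b (b (c (c (l 16758936) (l 16761072)) (b (l 16760720) (l 16757496))) (b (c (b (l 16757952) (l 16757648)) (c (l 16759720) (l 16759256))) (c (a (l 16757496) (b (l 16759688) (l 16759384))) (a (l 16759192) (b (l 16758752) (l 16758448)))))) (c (a (b (c (b (l 16759776) (b (l 16759320) (a (l 16759160) (l 16758880)))) (b (l 16759264) (b (l 16758800) (a (l 16758640) (l 16758352))))) (b (b (c (l 16758704) (l 16758176)) (l 16758096))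 (l 16757584))) (b (b (c (b (a (l 16759496) (l 16759200)) (a (l 16759192) (l 16758904))) (b (a (l 16758976) (l 16758688)) (a (l 16758672) (l 16758384)))) (b (a (b (l 16758704) (l 16758544)) (l 16758320)) (l 16758152))) (b (b (l 16757824) (l 16757496)) (l 16756976)))) (b (b (c (a (l 16758792) (a (l 16758352) (b (l 16758216) (l 16757904)))) (a (l 16758312) (a (l 16757872) (b (l 16757752) (l 16757432))))) (a (b (a (l 16758256) (l 16757960)) (a (l 16757944) (l 16757648))) (b (a (l 16757664) (l 16757352)) (l 16757176)))) (b (b (a (l 16757464) (l 16756840)) (l 16756808)) (l 16756272)))))), by decide +kernel⟩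

def k210_A00pm_012_s1 : ∃ t, chk3 f_A00pm_012_s1 t 163 51 1 = true :=
  ⟨(a (b (a (b (c (b (l 16760064) (a (l 16759592) (l 16759016))) (l 16758760)) (a (c (b (l 16758776) (l 16757928)) (b (l 16757864) (l 16757016))) (c (b (b (l 16758424) (l 16758000)) (l 16757344)) (l 16759480)))) (b (c (b (a (l 16759208) (b (l 16758816) (l 16758456))) (a (c (l 16758728) (l 16758192)) (l 16757864))) (a (b (l 16758264) (l 16757504)) (b (l 16757680) (l 16756896)))) (c (b (l 16757336) (l 16756480)) (l 16755952)))) (c (b (c (l 16761192) (l 16760656)) (l 16758944)) (b (l 16754744) (l 16752808)))) (b (b (c (a (b (c (l 16758032) (l 16757480)) (l 16756976)) (l 16756176)) (c (l 16758616) (l 16758024))) (c (l 16755152) (l 16754136))) (c (c (l 16763176) (l 16752112)) (l 16756648)))), by decide +kernel⟩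

def k211_A00pm_012_s1 : ∃ t, chk3 f_A00pm_012_s1 t 80 52 1 = true :=
  ⟨(a (a (c (b (a (l 532192639) (l 532205439)) (a (l 531993215) (b (l 16760640) (l 16758424)))) (b (l 532336143) (b (l 16760936) (l 16758792)))) (a (c (b (l 532216847) (b (l 16759456) (l 16757224))) (b (l 532082559) (l 531940479))) (b (c (b (l 16762496) (l 16760432)) (l 16761016)) (c (b (l 16758280) (b (l 16756592) (c (a (l 16755872) (l 16755272)) (l 16755344)))) (b (l 16757904) (b (l 16756280) (l 16755176))))))) (b (a (c (a (b (l 16761352) (l 16759272)) (b (l 16760216) (l 16758120))) (b (l 16760240) (l 16758208))) (b (c (a (l 16759072) (b (l 16758448) (l 16757408))) (a (l 16758472) (l 16752048))) (c (a (b (l 16757496) (c (a (l 16756888) (l 16756312)) (l 16756256))) (b (c (a (l 16756832) (l 16756264)) (l 16756168)) (l 16755256))) (a (b (l 16756944) (l 16755896)) (b (l 16755760) (l 16754704)))))) (c (a (b (a (c (l 16757248) (l 16756968)) (b (c (l 16756648) (l 16756336)) (c (a (l 16755816) (l 16755232)) (l 16755224)))) (a (b (c (a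 (l 16755840) (l 16755256)) (l 16755288)) (c (l 16754384) (l 16754136))) (l 16758880))) (b (a (a (b (l 16755608) (l 16754472)) (l 16754456)) (l 16753576)) (l 16757088))) (a (b (a (l 16756696) (b (l 16756032) (l 16754952))) (a (b (l 16755072) (l 16753960)) (l 16753296))) (b (a (l 16756912) (l 16753088)) (l 16751472)))))), by decide +kernel⟩

def k212_A00pm_012_s1 : ∃ t, chk3 f_A00pm_012_s1 t 80 53 1 = true :=
  ⟨(a (b (c (a (b (a (l 16757336) (c (l 16756208) (l 16756040))) (a (b (l 16755560) (c (a (l 16754728) (l 16754104)) (l 16754312))) (b (a (l 16754632) (l 16754016)) (l 16753104)))) (b (a (b (c (l 16755592) (l 16755400)) (c (a (l 16754704) (l 16754096)) (l 16754224))) (c (b (l 16754392) (l 16753184)) (l 16753592))) (c (l 16751952) (l 16751808)))) (a (b (c (l 16756584) (l 16756600)) (a (b (l 16755496) (l 16754336)) (b (l 16754248) (l 16753080)))) (b (a (b (l 16755288) (l 16754152)) (b (l 16754056) (l 16752912))) (l 16751792)))) (a (b (b (c (a (c (l 16753176) (l 16753088)) (l 16751864)) (l 16757776))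 (c (l 16751256) (l 16751352))) (c (l 16749424) (l 16749600))) (b (c (l 16749368) (l 16749424)) (a (l 16747544) (l 16746272))))) (b (a (c (b (c (l 16751984) (l 16751760)) (l 16749408)) (c (l 16760960) (l 16761000))) (c (b (l 16749448) (l 16746960)) (b (l 16749192) (l 16746840)))) (b (c (l 16756128) (l 16750920)) (c (l 16743120) (l 16743280))))), by decide +kernel⟩

def k213_A00pm_012_s1 : ∃ t, chk3 f_A00pm_012_s1 t 81 26 1 = true :=
  ⟨(b (a (b (b (c (a (a (b (c (a (l 16757808) (l 16757248)) (l 16757104)) (c (l 16756480) (l 16756072))) (c (l 16755872) (l 16755440))) (l 16759160)) (a (a (b (l 16756624) (l 16755616)) (l 16760184)) (l 16753160))) (c (a (c (l 16754272) (l 16753872)) (l 16751744)) (c (l 16762864) (l 16752152)))) (c (a (b (l 16751808) (l 16749472)) (b (l 16749464) (l 16747096))) (c (c (l 16759592) (l 16759496)) (l 16748920)))) (b (a (c (c (l 16761264) (l 16760776)) (l 16749736)) (b (l 16748792) (l 16746632))) (c (a (l 16756424) (l 16743584)) (l 16746784)))) (a (b (c (c (l 16755224) (l 16754960))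 (c (l 16749600) (b (l 16745536) (l 16743208)))) (a (b (l 16741880) (l 16739376)) (b (l 16739416) (l 16736896)))) (b (c (b (l 16741064) (l 16738496)) (l 16739480)) (c (b (l 16735856) (l 16733232)) (c (l 16734512) (l 16724232)))))), by decide +kernel⟩

def k214_A00pm_012_s1 : ∃ t, chk3 f_A00pm_012_s1 t 40 27 1 = true :=
  ⟨(a (b (b (c (a (b (l 16756224) (l 16743376)) (b (l 16740648) (l 16738232))) (a (b (l 16756496) (l 16754208)) (b (l 16740928) (l 16738608)))) (a (c (c (l 16739896) (l 16739968)) (l 16740352)) (c (l 16745200) (b (l 16736320) (l 16734072))))) (b (a (c (l 16745832) (l 16735896)) (c (l 16735352) (l 16730728))) (a (c (l 16735976) (l 16731376)) (c (l 16725552) (l 16726280))))) (b (a (b (c (l 16739624) (b (l 16735904) (l 16733552))) (c (l 16729544) (b (l 16731232) (l 16728952)))) (b (c (a (l 16730632) (l 16728152)) (b (l 16730936) (l 16728552))) (c (a (l 16725728) (l 16723200)) (c (l 16724816) (l 16714848))))) (a (b (c (a (l 16726208) (l 16723616)) (l 16725608)) (c (a (l 16721672) (l 16719088))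 (b (l 16711816) (l 16720096)))) (a (b (c (l 16721040) (l 16721792)) (c (b (l 16717632) (l 16715376)) (b (l 16718480) (l 16716296)))) (b (c (l 16718464) (c (l 16718960) (l 16709104))) (c (b (l 16715048) (l 16712800)) (b (l 16718568) (c (l 16713432) (l 16714160))))))))), by decide +kernel⟩

def k215_A00pm_012_s1 : ∃ t, chk3 f_A00pm_012_s1 t 164 48 1 = true :=
  ⟨(b (a (b (c (l 531770895) (l 531769983)) (c (l 531829631) (l 531822095))) (c (b (l 531500559) (a (l 16765592) (l 16764352))) (b (a (l 16766184) (l 16764936)) (a (l 16765016) (l 16763784))))) (a (a (c (l 532181375) (l 531901567)) (c (l 531906431) (l 531917327))) (c (a (b (l 16764496) (l 16763400)) (b (l 16763272) (l 16762192))) (a (b (l 16763864) (l 16762704)) (b (l 16762640) (l 16761496)))))), by decide +kernel⟩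

def k216_A00pm_012_s1 : ∃ t, chk3 f_A00pm_012_s1 t 164 98 1 = true :=
  ⟨(c (c (c (a (b (l 16764408) (l 16763304)) (b (l 16759368) (a (l 16761512) (b (l 16760600) (l 16760064))))) (a (b (l 16764208) (l 16763088)) (a (l 532310287) (b (l 16761208) (b (l 16760392) (l 16759856)))))) (c (a (b (l 16764008) (l 16762880)) (a (l 532518927) (b (l 16758392) (b (l 16760192) (l 16759640))))) (a (b (l 16763824) (l 16762672)) (a (b (l 16762008) (l 16760888)) (b (l 16758200) (b (l 16759992) (a (l 16759728) (l 16759144)))))))) (c (c (a (b (l 16763640) (l 16762480)) (a (b (l 16761824) (l 16760688)) (b (l 16758016) (b (l 16759792) (a (l 16759520) (l 16758944)))))) (a (a (l 16763488) (l 16759648)) (b (b (l 16761328) (l 16760760)) (a (l 16760496) (b (l 16759600) (a (l 16759328) (l 16758744))))))) (c (a (a (l 16763304) (l 16759464)) (a (l 531990287) (a (l 532172815) (b (l 16759976) (b (l 16759120) (l 16758544)))))) (a (b (l 16763120) (l 16759304)) (b (a (l 16761288) (l 16760088)) (a (l 16760120) (b (l 16756600) (a (l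 16758936) (l 16758352))))))))), by decide +kernel⟩

def k217_A00pm_012_s1 : ∃ t, chk3 f_A00pm_012_s1 t 164 198 1 = true :=
  ⟨(a (c (a (l 16762448) (a (l 16761552) (l 16760960))) (a (l 16759000) (b (l 16760712) (l 16760128)))) (b (c (c (a (l 16760584) (a (l 16759704) (b (a (l 16759408) (l 16759112)) (a (l 16759128) (l 16758824))))) (a (l 16760144) (a (l 16759272) (a (b (l 16758976) (b (l 16758768) (l 16758624))) (b (l 16758680) (l 16758384)))))) (c (a (l 16759728) (a (l 16758856) (b (a (l 16758560) (b (l 16758336) (l 16758192))) (a (b (l 16758344) (l 16758200)) (l 16757952))))) (a (l 16759336) (b (a (l 16758600) (a (l 16758160) (b (l 16757936) (l 16757792)))) (a (l 16758312) (a (b (l 16757944) (l 16757792)) (l 16757544))))))) (c (a (a (l 16757472) (b (l 16759648) (l 16759368))) (a (a (b (l 16759216) (b (l 16759008) (a (l 16758936) (l 16758792)))) (b (b (l 16758992) (a (l 16758928) (l 16758776))) (b (l 16758704) (l 16758552)))) (b (c (l 16758680) (l 16758232)) (l 16758144)))) (a (a (l 16759240) (c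 (b (l 16759008) (l 16758720)) (l 16758456))) (a (a (b (l 16758368) (c (b (l 16758352) (l 16758208)) (b (l 16757944) (a (l 16757872) (l 16757720))))) (b (b (a (l 16758224) (l 16758072)) (a (l 16758072) (l 16757920))) (b (a (l 16757928) (l 16757760)) (l 16757680)))) (c (a (b (l 16757968) (l 16757640)) (l 16757472)) (a (b (l 16757552) (l 16757224)) (c (l 16757160) (l 16756952))))))))), by decide +kernel⟩

def k218_A00pm_012_s1 : ∃ t, chk3 f_A00pm_012_s1 t 164 199 2 = true :=
  ⟨(b (a (a (a (l 16761880) (l 16761288)) (a (l 16760704) (l 16757496))) (a (b (a (l 16759672) (a (l 16759232) (b (l 16759016) (a (l 16758952) (l 16758800))))) (a (l 16759392) (a (b (l 16759024) (a (l 16758960) (l 16758808))) (b (a (l 16758808) (l 16758648)) (l 16758576))))) (a (a (b (c (l 16758880) (l 16758416)) (l 16758336)) (b (l 16758320) (l 16758016))) (a (l 16757848) (l 16757528))))) (c (a (a (l 16761248) (a (l 16760368) (l 16759784))) (a (a (b (a (l 16759488) (l 16759192)) (a (l 16759200) (a (l 16758984) (l 16758832)))) (b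 (a (l 16758904) (l 16758584)) (l 16758440))) (l 16757640))) (a (a (l 16760776) (a (l 16759896) (l 16759312))) (a (a (c (b (l 16758984) (a (l 16758848) (l 16758552))) (b (a (l 16758904) (l 16758616)) (a (l 16758616) (l 16758320)))) (b (a (a (l 16758504) (l 16758352)) (l 16758112)) (l 16757952))) (a (l 16757472) (l 16756824)))))), by decide +kernel⟩

def k219_A00pm_012_s1 : ∃ t, chk3 f_A00pm_012_s1 t 164 398 3 = true :=
  ⟨(a (a (l 16760728) (a (l 16759832) (l 16759248))) (a (b (a (l 16758808) (b (c (l 16758504) (a (l 16758240) (l 16757944))) (a (l 16758296) (a (l 16758080) (c (l 16758136) (l 16757728)))))) (b (a (l 16758584) (a (c (l 16758360) (l 16757944)) (a (c (l 16758136) (l 16757720)) (l 16757768)))) (a (l 16758440) (a (a (l 16758080) (c (l 16758136) (l 16757720))) (c (l 16757896) (l 16757480)))))) (a (a (b (a (b (c (l 16758136) (l 16757720)) (l 16757768)) (c (l 16757896) (l 16757480))) (l 16757440)) (c (l 16757488) (l 16757064))) (l 16756776)))), by decide +kernel⟩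

def k220_A00pm_012_s1 : ∃ t, chk3 f_A00pm_012_s1 t 164 399 3 = true :=
  ⟨(c (c (a (a (l 16760448) (l 16759272)) (a (a (b (a (l 16758688) (l 16758392)) (a (l 16758392) (a (l 16758176) (l 16758016)))) (b (a (l 16758096) (l 16757768)) (l 16757608))) (l 16756792))) (b (a (a (l 16760384) (l 16759200)) (a (a (a (l 16758472) (l 16758176)) (a (a (l 16757952) (l 16757792)) (l 16757552))) (l 16756728))) (a (a (l 16760088) (l 16758904)) (a (a (a (l 16758176) (b (l 16757952) (l 16757800))) (l 16757392)) (l 16756408))))) (c (b (a (a (l 16760184) (l 16759000)) (a (b (a (l 16758192) (a (l 16757744) (l 16757416))) (a (a (l 16758192) (l 16757896)) (l 16757424))) (l 16756512))) (a (a (l 16759880) (l 16758704)) (a (a (a (b (l 16758048) (l 16757896)) (b (a (l 16757824) (l 16757664)) (l 16757584))) (a (l 16757336) (l 16757008))) (l 16756184)))) (b (a (a (l 16759944) (l 16758800)) (b (a (a (l 16757992) (l 16757384)) (l 16756384)) (a (a (l 16757840) (l 16757216)) (l 16756224)))) (c (a (a (l 16759720) (l 16758552)) (a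 (a (a (a (l 16757888) (l 16757744)) (l 16757512)) (l 16757016)) (l 16756024))) (b (a (a (l 16759648) (l 16758528)) (a (a (a (l 16757792) (l 16757488)) (l 16757000)) (l 16756000))) (c (b (c (a (a (l 16759584) (l 16758448)) (a (a (a (l 16757720) (l 16757408)) (l 16756912)) (l 16755904))) (a (a (l 16759552) (l 16758424)) (a (a (a (l 16757696) (l 16757384)) (l 16756888)) (l 16755872)))) (a (a (l 16759496) (l 16758368)) (a (a (a (l 16757632) (l 16757312)) (l 16756816)) (l 16755792)))) (a (a (l 16759456) (l 16758352)) (a (a (a (l 16757616) (l 16757304)) (l 16756808)) (l 16755768))))))))), by decide +kernel⟩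

def k221_A00pm_012_s1 : ∃ t, chk3 f_A00pm_012_s1 t 330 48 1 = true :=
  ⟨(b (c (a (b (l 16764192) (l 16763136)) (b (l 16762984) (b (l 16762200) (l 16761680)))) (a (b (l 532138623) (l 531910671)) (b (l 532171791) (a (l 16759048) (l 16758464))))) (a (c (b (l 16762072) (b (l 16761272) (l 16758120))) (b (b (l 16761720) (l 16761160)) (b (l 16757976) (l 16757416)))) (b (c (b (l 16758536) (l 16758016)) (b (l 16757920) (l 16757360))) (c (b (l 16757496) (a (l 16759872) (a (l 16759440) (b (l 16759288) (l 16759016))))) (c (b (l 16759608) (a (l 16759344) (b (l 16758904) (a (l 16758768) (l 16758464))))) (b (l 16759256) (a (l 16758984) (b (l 16758536) (a (l 16758400) (l 16758096)))))))))), by decide +kernel⟩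

def k222_A00pm_012_s1 : ∃ t, chk3 f_A00pm_012_s1 t 331 48 1 = true :=
  ⟨(b (a (c (b (b (l 16762064) (l 16761552)) (b (l 16761040) (l 16757904))) (b (b (l 16761616) (l 16761048)) (c (l 16757744) (a (l 16760344) (l 16759768))))) (b (c (b (l 16758304) (a (l 16760704) (l 16760144))) (b (l 16760472) (a (l 16760192) (l 16759624)))) (c (b (a (l 16760200) (c (l 16759736) (l 16759480))) (a (b (l 16759808) (l 16759544)) (l 16759032))) (a (b (l 16759640) (b (l 16759216) (l 16758928))) (b (a (l 16759200) (l 16758888)) (l 16758408)))))) (b (a (a (c (b (l 16760296) (l 16759776)) (b (l 16759672) (b (l 16759264) (l 16758984)))) (c (b (b (l 16759864) (l 16759592)) (a (b (l 16759488) (l 16759216)) (l 16759024))) (b (b (l 16759240) (l 16758952)) (a (b (l 16758824) (l 16758536)) (l 16758352))))) (b (b (a (c (l 16759264) (a (l 16758800) (l 16758448))) (l 16758256)) (c (l 16758616) (l 16757952))) (c (l 16760784) (a (l 16757816) (l 16757112))))) (a (b (a (b (a (l 16759200) (c (l 16759240) (l 16758552))) (c (a (l 16759264)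 (l 16758944)) (a (l 16758568) (l 16758240)))) (c (l 16758592) (l 16757872))) (a (c (c (l 16758840) (l 16758480)) (c (l 16758112) (l 16757736))) (c (l 16757984) (l 16757232)))) (c (l 16757256) (b (l 16759440) (l 16756176)))))), by decide +kernel⟩

def k223_A00pm_012_s1 : ∃ t, chk3 f_A00pm_012_s1 t 165 98 1 = true :=
  ⟨(c (a (b (b (a (l 16757584) (b (a (l 16759480) (a (l 16759040) (l 16758712))) (a (a (l 16759360) (l 16759064)) (l 16758576)))) (a (b (l 16757184) (a (l 16759824) (a (l 16759400) (l 16759104)))) (a (a (b (l 16759080) (l 16758800)) (l 16758616)) (l 16758120)))) (a (b (a (b (l 16759560) (a (l 16759432) (l 16759136))) (a (b (l 16759120) (a (l 16758920) (l 16758760))) (b (l 16758824) (l 16758512)))) (a (a (b (l 16759160) (c (l 16759096) (l 16758672))) (b (c (l 16759072) (l 16758656)) (l 16758560))) (c (l 16758440) (l 16758008)))) (a (c (l 16760704) (l 16760280)) (b (l 16757512) (l 16756904))))) (b (a (b (l 16760336) (l 16754488)) (l 16756056)) (a (l 16756208) (l 16754856)))) (a (b (a (a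 (c (l 532243839) (l 532008975)) (b (l 16759184) (b (l 16758760) (a (l 16758624) (b (l 16758400) (l 16758256)))))) (b (a (b (l 16758744) (a (l 16758608) (c (l 16758496) (l 16758120)))) (b (a (l 16758296) (l 16757960)) (l 16757808))) (c (a (a (b (l 16758512) (l 16758208)) (l 16758032)) (l 16757520)) (a (a (b (l 16758128) (l 16757824)) (l 16757640)) (l 16757120))))) (a (c (b (a (b (l 16758968) (l 16758680)) (b (a (l 16758528) (l 16758224)) (a (l 16758240) (l 16757904)))) (a (a (b (l 16758544) (b (l 16758336) (l 16758184))) (b (l 16758248) (l 16757936))) (l 16757592))) (b (a (b (l 16758584) (l 16758296)) (b (a (l 16758144) (l 16757832)) (a (l 16757848) (l 16757504)))) (a (a (b (l 16758152) (b (l 16757936) (l 16757784))) (b (b (l 16757928) (l 16757776)) (l 16757528))) (b (l 16757344) (l 16757024))))) (b (c (l 16759840) (c (l 16756912) (l 16759336))) (l 16756368)))) (a (a (b (b (l 16757280) (l 16756632)) (l 16755664)) (b (b (l 16756584) (l 16755944)) (l 16754976))) (b (l 16755208) (l 16753936))))), by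 decide +kernel⟩

def k224_A00pm_012_s1 : ∃ t, chk3 f_A00pm_012_s1 t 165 99 1 = true :=
  ⟨(a (a (c (a (b (b (c (l 16758488) (l 16758048)) (c (l 16757888) (l 16757424))) (l 16756736)) (b (b (l 16757616) (l 16757008)) (l 16756088))) (b (b (a (a (b (l 16757736) (l 16757416)) (b (l 16757408) (l 16757080))) (c (l 16756952) (a (l 16756696) (l 16756360)))) (a (l 16756760) (l 16756096))) (c (l 16755688) (b (l 16755560) (l 16754880))))) (c (b (l 16756328) (l 16755112)) (c (b (l 16755624) (l 16754360)) (b (l 16755184) (l 16753808))))) (b (c (l 16754320) (c (l 16753584) (l 16753088))) (c (l 16753120) (c (l 16752248) (l 16751592))))), by decide +kernel⟩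

def k225_A00pm_012_s1 : ∃ t, chk3 f_A00pm_012_s1 t 328 200 1 = true :=
  ⟨(c (b (a (c (l 16760672) (l 16757568)) (a (c (l 16759800) (l 16759312)) (b (a (l 16759264) (b (l 16759040) (a (l 16758968) (l 16758824)))) (a (b (l 16759048) (a (l 16758976) (l 16758824))) (b (a (l 16758824) (l 16758680)) (a (l 16758680) (l 16758520))))))) (a (c (a (l 16760384) (l 16759800)) (a (l 16759896) (b (l 16759456) (l 16759168)))) (a (b (a (l 16759264) (b (l 16759048) (a (l 16758976) (l 16758824)))) (a (b (l 16759048) (a (l 16758976) (l 16758824))) (b (a (l 16758824) (l 16758680)) (a (l 16758680) (l 16758520))))) (b (a (b (a (l 16758824) (l 16758680)) (a (l 16758680) (l 16758520))) (l 16758368)) (c (l 16758464) (l 16757960)))))) (b (a (c (l 16759744) (a (l 16759616) (l 16759032))) (a (c (l 16758864) (b (l 16758600) (l 16758296))) (b (a (l 16758360) (b (l 16758144) (a (l 16758072) (c (l 16758136) (l 16757712))))) (a (b (l 16758144) (a (l 16758064) (c (l 16758136) (l 16757712)))) (b (a (c (l 16758136) (l 16757712)) (c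 (l 16757984) (l 16757560))) (c (l 16757904) (l 16757472))))))) (a (c (a (l 16759440) (l 16758856)) (a (l 16759016) (b (l 16758584) (l 16758288)))) (a (b (a (b (l 16758424) (l 16758280)) (b (l 16758136) (a (l 16758056) (c (l 16758128) (l 16757704))))) (a (b (l 16758128) (a (l 16758048) (c (l 16758120) (l 16757696)))) (b (a (c (l 16758128) (l 16757696)) (c (l 16757976) (l 16757544))) (c (a (l 16757968) (l 16757808)) (l 16757464))))) (a (b (b (a (c (l 16758128) (l 16757704)) (c (l 16757976) (l 16757552))) (c (a (l 16757976) (l 16757816)) (l 16757472))) (b (l 16757512) (l 16757352))) (c (l 16757496) (b (l 16757224) (l 16756896)))))))), by decide +kernel⟩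

def k226_A00pm_012_s1 : ∃ t, chk3 f_A00pm_012_s1 t 656 201 1 = true :=
  ⟨(b (c (a (c (l 16759800) (l 16759304)) (b (a (l 16759264) (b (l 16759048) (a (l 16758968) (l 16758824)))) (a (b (l 16759040) (a (l 16758968) (l 16758816))) (b (a (l 16758824) (l 16758672)) (a (l 16758672) (l 16758512)))))) (a (c (l 16758840) (a (l 16758552) (l 16758272))) (b (a (l 16758336) (b (l 16758120) (a (l 16758040) (c (l 16758112) (l 16757688))))) (a (b (l 16758112) (a (l 16758032) (c (l 16758104) (l 16757672)))) (a (b (c (l 16758112) (l 16757680)) (l 16757736)) (b (c (l 16757960) (l 16757528)) (l 16757576))))))) (a (c (c (b (a (l 16759504) (l 16759216)) (a (l 16759208) (b (l 16758992) (l 16758840)))) (b (a (l 16759000) (l 16758704)) (a (l 16758696) (b (l 16758488) (l 16758328))))) (b (a (l 16758320) (a (l 16758096) (b (l 16758024) (l 16757872)))) (b (a (l 16758088) (a (l 16757864) (l 16757720))) (a (a (l 16758008) (l 16757864)) (l 16757632))))) (c (b (a (b (a (l 16758816) (l 16758672)) (a (l 16758664) (l 16758512)))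 (l 16758360)) (a (l 16758352) (l 16758040))) (b (b (a (a (c (l 16758096) (l 16757672)) (l 16757728)) (l 16757488)) (a (a (l 16757720) (l 16757560)) (l 16757328))) (c (l 16757464) (l 16756968)))))), by decide +kernel⟩

def k227_A00pm_012_s1 : ∃ t, chk3 f_A00pm_012_s1 t 657 201 1 = true :=
  ⟨(b (a (c (b (a (b (a (l 16758824) (l 16758680)) (a (l 16758680) (l 16758520))) (l 16758368)) (a (l 16758360) (l 16758056))) (b (b (a (a (c (l 16758120) (l 16757688)) (c (l 16757968) (l 16757536))) (l 16757504)) (a (c (a (l 16757968) (l 16757808)) (l 16757456)) (l 16757344))) (c (l 16757480) (a (l 16757200) (l 16756856))))) (c (c (l 16758008) (a (l 16757648) (l 16757328))) (c (l 16757008) (b (l 16756704) (l 16756328))))) (c (c (a (l 16758008) (l 16757392)) (c (l 16757296) (l 16759664))) (c (a (l 16756992) (l 16756360)) (a (b (l 16756648) (l 16756280)) (l 16755768))))), by decide +kernel⟩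

def k228_A00pm_012_s1 : ∃ t, chk3 f_A00pm_012_s1 t 329 100 1 = true :=
  ⟨(c (c (a (b (c (b (a (b (a (l 16759040) (l 16758728)) (l 16758584)) (l 16758112)) (l 16757824)) (a (b (b (a (l 16758792) (l 16758480)) (l 16758328)) (l 16757872)) (l 16760168))) (c (l 16756912) (l 16759248))) (b (a (l 16759672) (l 16756416)) (l 16755520))) (a (b (b (a (b (a (b (a (l 16758584) (l 16758440)) (l 16758360)) (l 16758120)) (l 16757960)) (l 16757480)) (a (b (l 16757648) (l 16757328)) (l 16756856))) (b (l 16756544) (l 16755912))) (b (l 16756208) (l 16754960)))) (b (c (a (b (a (a (b (b (a (l 16758136) (l 16757984)) (l 16757904)) (l 16757664)) (b (l 16757664) (l 16757336))) (l 16757016)) (a (l 16757016) (l 16756368))) (b (l 16756040) (l 16755400))) (c (a (b (a (b (a (b (a (l 16757816) (l 16757664)) (l 16757584)) (l 16757336)) (l 16757176)) (l 16756680)) (a (l 16756680) (l 16756024))) (b (l 16755696) (l 16754968))) (a (b (a (b (a (b (l 16757536) (l 16757376)) (l 16757128)) (l 16756968)) (l 16756472)) (a (l 16756416)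 (l 16755704))) (b (l 16755400) (l 16754640))))) (b (a (c (l 16756048) (a (l 16755816) (l 16755120))) (c (l 16754752) (l 16754056))) (c (l 16757360) (c (l 16754192) (l 16756432)))))), by decide +kernel⟩

def k229_A00pm_012_s1 : ∃ t, chk3 f_A00pm_012_s1 t 164 101 1 = true :=
  ⟨(c (b (a (a (a (b (b (a (b (a (l 16758800) (l 16758648)) (l 16758568)) (l 16758344)) (a (l 16758328) (l 16758024))) (b (l 16757856) (l 16757544))) (b (b (l 16757880) (l 16757568)) (l 16757088))) (b (l 16756800) (l 16756168))) (c (l 16754920) (l 16756960))) (a (a (b (l 16756752) (l 16756072)) (l 16755192)) (l 16753336))) (b (c (a (a (b (a (b (a (l 16757920) (l 16757608)) (l 16757432)) (l 16756968)) (l 16756632)) (c (l 16755832) (l 16755552))) (l 16756304)) (b (a (a (a (b (a (b (l 16757544) (l 16757368)) (l 16757112)) (l 16756912)) (l 16756408)) (l 16755360)) (l 16755872)) (a (a (a (l 16756344) (l 16755656)) (l 16754608)) (l 16752496)))) (a (c (l 16757616) (c (l 16757000) (l 16756568))) (c (l 16752272) (l 16753976))))), by decide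 +kernel⟩

def k230_A00pm_012_s1 : ∃ t, chk3 f_A00pm_012_s1 t 164 51 1 = true :=
  ⟨(c (b (b (a (l 16754368) (l 16751920)) (l 16754176)) (b (l 16749808) (l 16747872))) (c (b (a (b (l 16753536) (l 16751936)) (l 16755312)) (l 16753248)) (b (b (a (l 16752632) (l 16749808)) (l 16749648)) (a (l 16748728) (l 16745896))))), by decide +kernel⟩

def k231_A00pm_012_s1 : ∃ t, chk3 f_A00pm_012_s1 t 165 25 1 = true :=
  ⟨(b (c (a (a (b (b (l 16755184) (l 16753960)) (c (l 16752424) (l 16751760))) (b (b (l 16753896) (l 16752672)) (c (l 16751160) (l 16750400)))) (b (c (l 16751624) (l 16750928)) (l 16754016))) (c (b (a (b (l 16756328) (l 16752312)) (b (l 16750864) (l 16749464))) (a (a (l 16753528) (l 16749504)) (c (l 16747608) (l 16747104)))) (a (b (a (b (l 16753752) (l 16752248)) (b (l 16752304) (b (l 16748560) (l 16750424)))) (a (c (l 16752840) (b (b (l 16750896) (l 16750120)) (l 16748952))) (b (b (l 16749664) (l 16748912)) (l 16747768)))) (b (b (l 16750096) (a (a (l 16749704) (l 16748968)) (l 16745232))) (b (b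 (c (l 16747704) (l 16747208)) (l 16749320)) (a (l 16746304) (l 16744816))))))) (b (a (c (l 16753920) (b (a (l 16748216) (l 16746784)) (l 16745968))) (c (l 16746080) (c (l 16744440) (b (a (l 16744752) (l 16743272)) (l 16737192))))) (b (c (l 16744928) (a (l 16744408) (l 16741520))) (c (l 16743072) (a (l 16742840) (l 16739944)))))), by decide +kernel⟩

def k232_A00pm_012_s1 : ∃ t, chk3 f_A00pm_012_s1 t 82 26 1 = true :=
  ⟨(b (a (a (b (c (l 16745864) (l 16744960)) (c (l 16741224) (l 16740552))) (b (c (l 16743528) (l 16742568)) (c (l 16738864) (l 16738144)))) (b (a (c (l 16741152) (l 16740144)) (b (l 16739216) (l 16737080))) (c (a (l 16736496) (l 16734120)) (a (l 16735736) (l 16733312))))) (a (a (b (c (l 16736200) (l 16735848)) (c (l 16730912) (l 16730920))) (b (c (l 16733816) (l 16733424)) (c (l 16728488) (l 16728480)))) (b (c (b (l 16731536) (l 16728912)) (a (l 16731008) (l 16728584))) (c (a (b (l 16727416) (l 16724720)) (b (l 16725008) (l 16722304))) (b (a (l 16727288) (l 16724856)) (c (l 16723472)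 (l 16723728))))))), by decide +kernel⟩

def k233_A00pm_012_s1 : ∃ t, chk3 f_A00pm_012_s1 t 82 54 1 = true :=
  ⟨(a (b (c (a (l 16725688) (l 16723224)) (a (b (l 16727232) (l 16724832)) (b (l 16724776) (l 16722360)))) (c (a (l 16720688) (b (l 16719432) (l 16716968))) (b (a (l 16722464) (l 16719984)) (a (l 16720136) (l 16717648))))) (b (c (a (b (l 16722080) (l 16719496)) (b (l 16719648) (l 16717048))) (a (c (l 16720936) (l 16710856)) (b (c (l 16719736) (l 16720096)) (a (l 16718064) (l 16716840))))) (a (b (c (l 16716960) (l 16717512)) (c (l 16714472) (a (l 16715784) (l 16714544)))) (c (b (a (l 16715104) (l 16713880)) (a (l 16712608) (b (a (l 16712304) (l 16711688)) (a (b (l 16711376) (l 16710760)) (b (a (l 16710912) (l 16710600)) (l 16712768)))))) (b (a (l 16715664) (b (l 16715032) (l 16713840))) (b (a (l 16713896) (a (l 16712968) (l 16712352))) (a (l 16712728) (b (a (l 16712088) (a (l 16711624) (b (l 16711464) (l 16711160)))) (c (a (l 16711216) (l 16710584)) (a (l 16711872) (l 16713848))))))))))), by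 decide +kernel⟩

def k234_A00pm_012_s1 : ∃ t, chk3 f_A00pm_012_s1 t 164 55 1 = true :=
  ⟨(b (c (a (b (l 16717088) (l 16714752)) (b (l 16714560) (a (l 16712840) (l 16711568)))) (b (a (l 16717856) (a (l 16715976) (l 16714728))) (a (l 16718232) (a (l 16713720) (b (l 16713024) (l 16711904)))))) (a (c (b (l 16712472) (a (l 16710872) (b (l 16710144) (a (l 16709352) (b (l 16708984) (l 16708408)))))) (b (b (l 16713952) (l 16715488)) (b (a (l 16712408) (l 16711144)) (a (l 16711328) (a (c (l 16710024) (l 16710792)) (a (b (l 16710176) (l 16712232)) (b (l 16709848) (l 16709256)))))))) (c (b (a (l 16710544) (b (c (l 16709760) (l 16709976)) (a (b (l 16709296) (a (l 16708888) (l 16708568))) (b (a (l 16708816) (l 16708488)) (l 16708064))))) (a (b (a (b (l 16709456) (l 16708896)) (b (a (l 16708976) (l 16708648)) (l 16708232))) (a (l 16708024) (l 16707344))) (b (l 16707512) (l 16706320)))) (b (b (a (l 16712056) (a (l 16711112) (b (l 16710760) (a (l 16710368) (l 16710048))))) (a (l 16710960) (a (b (l 16710288) (a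 (l 16712520) (l 16712176))) (b (a (b (l 16709952) (l 16709664)) (l 16709464)) (l 16709024))))) (a (a (b (b (l 16710464) (a (l 16710080) (b (l 16709896) (l 16709616)))) (c (l 16708680) (b (l 16709744) (l 16709112)))) (b (b (a (l 16709984) (a (l 16709744) (l 16709568))) (l 16711848)) (l 16708296))) (c (l 16712744) (c (l 16708016) (l 16713680)))))))), by decide +kernel⟩

def k235_A00pm_012_s1 : ∃ t, chk3 f_A00pm_012_s1 t 165 110 1 = true :=
  ⟨(a (c (b (a (l 16712672) (b (l 16712024) (l 16710816))) (a (b (l 16710888) (a (l 16710040) (b (l 16709696) (a (l 16709272) (l 16708952))))) (b (a (b (l 16710240) (l 16709648)) (b (a (l 16709768) (l 16709456)) (l 16709016))) (a (b (a (l 16709216) (l 16708896)) (l 16708464)) (l 16708112))))) (b (a (b (l 16714048) (l 16712904)) (b (l 16712808) (l 16711664))) (a (b (l 16711776) (a (l 16710968) (b (l 16710616) (a (l 16710216) (b (l 16710040) (l 16709736)))))) (c (b (a (l 16710512) (b (a (l 16710328) (l 16710008)) (l 16709576))) (a (b (a (l 16709808) (l 16709480)) (l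 16709040)) (l 16708656))) (b (a (b (l 16711512) (l 16710952)) (b (a (l 16711048) (l 16710728)) (a (l 16710464) (l 16710120)))) (a (b (a (l 16710544) (l 16710208)) (l 16709760)) (l 16709360))))))) (c (b (a (b (a (l 16711088) (b (l 16710768) (a (l 16710312) (l 16710000)))) (a (b (l 16710176) (a (l 16709736) (l 16709424))) (b (a (l 16709712) (l 16709400)) (l 16708952)))) (b (a (b (a (l 16710304) (l 16709992)) (l 16709536)) (l 16709232)) (l 16708312))) (a (b (a (l 16708680) (l 16708040)) (l 16707144)) (l 16706472))) (b (c (a (b (a (l 16711576) (b (l 16711248) (a (l 16710816) (l 16710504)))) (a (b (l 16710704) (a (l 16710272) (l 16709952))) (b (l 16710064) (l 16709448)))) (b (a (b (a (l 16710776) (l 16710464)) (l 16710016)) (l 16709664)) (l 16708760))) (a (b (a (l 16712248) (b (l 16711912) (a (l 16711504) (l 16711184)))) (a (b (l 16711400) (a (l 16710984) (l 16710656))) (b (a (l 16710920) (l 16710576)) (l 16710136)))) (b (a (b (a (l 16711448) (l 16711120)) (l 16710680)) (l 16710304)) (l 16709400)))) (a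 (b (c (l 16708864) (l 16712168)) (l 16707920)) (b (l 16707784) (l 16706512)))))), by decide +kernel⟩

def k236_A00pm_012_s1 : ∃ t, chk3 f_A00pm_012_s1 t 165 111 1 = true :=
  ⟨(c (a (b (a (b (a (b (a (l 16709328) (l 16709008)) (l 16708584)) (l 16708224)) (l 16707360)) (b (l 16707240) (l 16706024))) (a (l 16710800) (l 16704200))) (b (a (l 16705312) (l 16703984)) (l 16702152))) (a (b (a (c (b (a (b (l 16709784) (l 16709200)) (l 16708808)) (l 16707936)) (b (a (b (a (l 16710696) (l 16710376)) (a (l 16710128) (l 16709776))) (l 16709544)) (l 16708648))) (c (l 16707144) (l 16713064))) (a (c (l 16706064) (l 16706728)) (l 16710144))) (b (a (l 16711256) (l 16704568)) (a (l 16703416) (l 16701936))))), by decide +kernel⟩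

def k237_A00pm_012_s1 : ∃ t, chk3 f_A00pm_012_s1 t 166 24 1 = true :=
  ⟨(b (a (b (a (a (b (c (b (c (l 16760184) (l 16759984)) (a (l 16759712) (l 16759368))) (b (b (l 16759768) (l 16759472)) (b (l 16759168) (l 16758848)))) (c (c (l 16758768) (l 16758488)) (c (l 16758184) (l 16757848)))) (b (c (b (l 16759448) (l 16758832)) (b (l 16758952) (l 16758288))) (c (l 16757920) (l 16757296)))) (b (c (a (l 16758416) (l 16757688)) (a (l 16757888) (l 16757144))) (c (l 16756840) (a (l 16756568) (l 16755824))))) (a (c (c (l 16756648) (l 16756280)) (b (a (l 16761960) (l 16755992)) (l 16755072))) (c (l 16755040) (b (l 16749656) (l 16753616))))) (b (c (a (l 16755968) (l 16754440)) (a (b (l 16756008) (l 16749456)) (l 16753800))) (c (l 16752816) (a (l 16752768) (l 16751240))))) (c (a (b (c (l 16753600) (l 16753128)) (l 16750968)) (b (l 16750456) (l 16748040))) (b (a (b (l 16753064) (l 16751800)) (c (l 16749648) (l 16749096))) (a (b (l 16750376) (l 16748944)) (a (l 16747360) (l 16745760)))))), by decide +kernel⟩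

def k238_A00pm_012_s1 : ∃ t, chk3 f_A00pm_012_s1 t 166 25 1 = true :=
  ⟨(c (a (b (b (l 16748504) (l 16751240)) (b (l 16743304) (l 16740288))) (b (b (l 16745600) (l 16743112)) (b (l 16740456) (l 16737528)))) (b (b (c (a (l 16749856) (l 16746808)) (b (a (a (l 16742608) (l 16746320)) (a (l 16744752) (l 16743136))) (a (a (l 16746352) (l 16744816)) (a (l 16743256) (l 16741648))))) (b (b (a (c (l 16745496) (l 16744440)) (a (l 16742704) (l 16741128))) (a (c (l 16744792) (l 16743688)) (c (l 16741768) (l 16740560)))) (a (c (l 16738488) (c (l 16742848) (l 16742232))) (c (l 16740712) (a (l 16740240) (l 16738648)))))) (c (b (a (l 16741536) (b (l 16739272) (l 16737792))) (a (l 16738488) (b (l 16731032) (l 16734728)))) (a (b (b (c (l 16741328) (l 16740664)) (l 16742056)) (b (l 16732608) (l 16731008))) (b (a (b (l 16738704) (l 16737144)) (b (l 16737120) (l 16735568))) (b (a (l 16735560) (l 16733992)) (a (l 16733968) (l 16732408)))))))), by decide +kernel⟩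

def k239_A00pm_012_s1 : ∃ t, chk3 f_A00pm_012_s1 t 166 26 1 = true :=
  ⟨(b (c (b (a (l 16736328) (l 16733848)) (a (l 16731728) (l 16726704))) (c (b (a (l 16735336) (l 16732384)) (a (l 16731032) (l 16728600))) (a (b (b (l 16734640) (l 16733032)) (l 16730536)) (b (b (a (l 16732368) (l 16730816)) (a (l 16730760) (l 16729216))) (b (l 16728344) (l 16726680)))))) (b (a (c (b (l 16727960) (l 16725328)) (b (l 16727376) (l 16724936))) (c (b (l 16725560) (l 16722928)) (b (l 16719704) (c (l 16722536) (l 16717296))))) (a (c (b (l 16722608) (l 16719896)) (b (c (l 16722392) (l 16722528)) (c (l 16719832) (l 16720088)))) (b (c (a (l 16720808) (l 16719608)) (c (a (l 16720576) (l 16719368)) (a (l 16720712) (l 16719496)))) (a (c (l 16718088) (c (l 16718008) (l 16718264))) (c (a (l 16717192) (b (l 16717272) (a (l 16716088) (l 16715832)))) (c (a (l 16717104) (b (l 16717144) (l 16718512))) (c (a (l 16717272) (b (l 16717288) (a (l 16716208) (l 16715928)))) (a (l 16717456) (b (l 16717456) (a (l 16716408) (l 16716128)))))))))))),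 by decide +kernel⟩

def k240_A00pm_012_s1 : ∃ t, chk3 f_A00pm_012_s1 t 332 54 1 = true :=
  ⟨(b (c (b (a (l 16717832) (l 16716624)) (a (l 16715216) (b (l 16714648) (a (l 16713656) (b (l 16713376) (a (l 16712880) (l 16712584))))))) (b (c (l 16717296) (a (l 16718272) (l 16717056))) (a (b (l 16716224) (l 16715016)) (b (l 16715008) (a (l 16714096) (a (a (l 16713712) (l 16713560)) (b (l 16713640) (l 16713032)))))))) (c (b (a (b (l 16713288) (a (l 16712320) (b (l 16712032) (a (l 16711552) (l 16711256))))) (b (a (b (l 16712688) (a (l 16712208) (l 16711912))) (a (l 16711936) (l 16711656))) (a (a (l 16711272) (l 16710984)) (l 16710552)))) (a (b (a (b (a (l 16711536) (l 16711232)) (a (l 16710912) (l 16710616))) (l 16710480)) (l 16709544)) (l 16708968))) (b (b (b (a (l 16714112) (a (a (l 16713344) (l 16713040)) (a (l 16712736) (l 16712424)))) (a (l 16713512) (a (a (l 16712744) (l 16712432)) (l 16711968)))) (a (a (l 16712920) (a (a (l 16712536) (b (l 16712680) (l 16712088))) (b (l 16712456) (l 16711848)))) (a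 (c (l 16711440) (l 16714608)) (l 16711040)))) (a (b (a (b (a (l 16712184) (b (l 16712024) (l 16711728))) (a (b (l 16711744) (l 16711448)) (l 16711272))) (a (l 16713880) (l 16710928))) (a (l 16710520) (l 16709856))) (a (l 16709816) (l 16709160)))))), by decide +kernel⟩

def k241_A00pm_012_s1 : ∃ t, chk3 f_A00pm_012_s1 t 333 54 1 = true :=
  ⟨(b (b (c (a (b (l 16716080) (a (l 16715056) (b (l 16714784) (l 16714144)))) (a (b (a (l 16715336) (l 16715064)) (l 16713928)) (l 16714064))) (a (c (b (l 16716112) (a (l 16715152) (b (l 16714864) (l 16714240)))) (b (l 16716448) (a (l 16715544) (a (l 16715088) (b (l 16715088) (l 16714488)))))) (c (a (b (a (l 16715352) (l 16715072)) (l 16713984)) (l 16714056)) (a (b (a (b (l 16715992) (a (l 16715464) (l 16715312))) (c (l 16715288) (l 16715520))) (c (l 16714232) (l 16714480))) (l 16714368))))) (c (a (a (b (b (l 16714072) (a (l 16713568) (l 16713280))) (a (l 16712624) (l 16712352))) (b (l 16713200) (l 16711944))) (l 16711776)) (a (c (a (b (b (l 16714216) (l 16713600))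 (l 16712680)) (b (l 16713328) (l 16712088))) (b (a (b (l 16714648) (a (l 16714200) (l 16713896))) (l 16716360)) (a (l 16715768) (l 16712520)))) (c (l 16711832) (l 16712200))))) (c (a (b (l 16710328) (l 16707776)) (l 16707888)) (a (b (a (l 16711032) (l 16710392)) (l 16708160)) (l 16713368)))), by decide +kernel⟩

def k242_A00pm_012_s1 : ∃ t, chk3 f_A00pm_012_s1 t 166 55 1 = true :=
  ⟨(a (a (c (b (b (l 16707688) (l 16705184)) (l 16701384)) (b (b (b (l 16708936) (l 16707672)) (l 16705736)) (l 16712264))) (b (b (c (l 16706448) (l 16706936)) (l 16703976)) (c (l 16700032) (l 16700280)))) (b (a (b (l 16705240) (l 16702608)) (l 16713056)) (a (l 16709080) (l 16697136)))), by decide +kernel⟩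

def k243_A00pm_012_s1 : ∃ t, chk3 f_A00pm_012_s1 t 334 24 1 = true :=
  ⟨(a (b (b (c (l 16752824) (l 16752176)) (c (l 16750488) (l 16749640))) (b (l 16752760) (c (l 16745744) (l 16744088)))) (a (b (b (c (l 16751536) (l 16750888)) (l 16753992)) (b (l 16746216) (a (l 16743888) (l 16743440)))) (a (b (b (c (a (l 16750960) (l 16753344)) (l 16750192)) (c (l 16751160) (l 16747552))) (c (b (l 16746216) (l 16733384)) (b (l 16744816) (c (l 16742512) (l 16741568))))) (a (b (b (c (l 16753088) (l 16749824)) (c (l 16748176) (l 16747152))) (b (l 16750392) (l 16742616))) (a (a (b (b (c (l 16750304) (l 16749664)) (l 16752736)) (b (l 16744992) (l 16742456))) (b (b (c (l 16750240) (l 16749592)) (l 16752672)) (b (l 16744920) (l 16742392)))) (b (b (c (l 16750136) (l 16749480)) (l 16752568)) (b (l 16744824) (l 16742296)))))))), by decide +kernel⟩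

def k244_A00pm_012_s1 : ∃ t, chk3 f_A00pm_012_s1 t 1340 24 1 = true :=
  ⟨(b (b (c (a (b (l 16750336) (l 16749200)) (a (b (l 16749808) (l 16743440)) (b (a (a (l 16749496) (b (l 16749616) (l 16749056))) (l 16749232)) (a (a (l 16748376) (l 16748216)) (l 16748120))))) (a (l 16751680) (a (l 16751088) (b (a (a (l 16748768) (l 16748568)) (b (l 16748784) (l 16748128))) (a (a (b (l 16747784) (l 16747128)) (b (l 16747592) (l 16746936))) (l 16747152)))))) (a (a (l 16752344) (l 16752032)) (a (b (l 16747016) (l 16740544)) (c (b (b (l 16747440) (l 16746880)) (l 16746032)) (b (a (a (l 16746136) (l 16745952)) (l 16745848)) (a (l 16749976) (l 16744528))))))) (a (b (l 16749688) (l 16741936)) (b (a (l 16743928) (b (b (l 16744456) (l 16743840)) (l 16737672))) (a (l 16730952) (l 16741056))))), by decide +kernel⟩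

def k245_A00pm_012_s1 : ∃ t, chk3 f_A00pm_012_s1 t 1341 24 1 = true :=
  ⟨(a (a (b (c (b (b (l 16749144) (l 16748032)) (b (l 16746912) (l 16745792))) (b (b (b (l 16748704) (l 16748048)) (c (l 16747312) (l 16746840))) (b (l 16745768) (l 16744448)))) (b (b (l 16743904) (l 16742672)) (b (l 16741440) (l 16740200)))) (a (b (b (b (c (l 16749064) (b (b (l 16748784) (l 16748464)) (l 16747976))) (c (l 16747944) (c (l 16747224) (l 16746760)))) (c (b (l 16746832) (l 16745712)) (b (l 16745688) (l 16744368)))) (b (b (l 16738576) (l 16742592)) (b (l 16741352) (l 16740120)))) (a (b (c (b (l 16748464) (b (l 16746784) (l 16745664))) (c (b (b (l 16748440) (l 16747184)) (l 16750536)) (b (b (b (l 16748416) (l 16747744)) (c (l 16746840) (l 16746608))) (b (l 16745360) (l 16743992))))) (b (b (l 16738536) (l 16742544)) (b (l 16741312) (l 16740072)))) (b (c (b (l 16748432) (b (l 16746760) (l 16745640))) (c (b (b (l 16748416) (l 16747160)) (l 16750512)) (b (b (b (l 16748392) (l 16747720)) (c (l 16746816) (l 16746584))) (b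 (l 16745336) (l 16743968))))) (c (b (l 16743944) (l 16741672)) (b (b (l 16742968) (l 16741632)) (l 16739616))))))) (b (b (c (l 16748288) (c (b (l 16748288) (l 16747032)) (b (b (l 16748288) (l 16747608)) (c (l 16746704) (l 16746480))))) (c (b (l 16746616) (l 16745488)) (b (c (l 16745776) (l 16745232)) (l 16744184)))) (c (b (l 16743800) (l 16741520)) (b (b (l 16742856) (l 16741520)) (l 16739504))))), by decide +kernel⟩

def k246_A00pm_012_s1 : ∃ t, chk3 f_A00pm_012_s1 t 671 24 1 = true :=
  ⟨(b (c (b (c (l 16747840) (l 16747464)) (l 16745408)) (c (b (b (l 16747744) (l 16746488)) (l 16744592)) (b (b (b (l 16747800) (l 16747128)) (l 16746112)) (b (l 16744752) (l 16743384))))) (b (c (l 16732664) (l 16741680)) (l 16739944))), by decide +kernel⟩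

def k247_A00pm_012_s1 : ∃ t, chk3 f_A00pm_012_s1 t 668 25 1 = true :=
  ⟨(c (b (b (l 16743336) (l 16740880)) (b (l 16738248) (l 16735352))) (b (b (b (l 16736728) (c (l 16741120) (l 16739968))) (b (b (l 16739488) (l 16738768)) (b (l 16738056) (a (l 16737752) (l 16736920))))) (b (c (b (l 16736936) (l 16735472)) (a (b (l 16735904) (l 16734360)) (b (l 16735064) (l 16733528)))) (b (c (l 16733968) (c (l 16732784) (l 16731952))) (c (l 16732440) (c (l 16731224) (l 16730368))))))), by decide +kernel⟩

def k248_A00pm_012_s1 : ∃ t, chk3 f_A00pm_012_s1 t 669 25 1 = true :=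
  ⟨(a (c (b (b (l 16731640) (l 16729216)) (b (l 16737088) (l 16734216))) (b (b (b (l 16740664) (l 16739256)) (c (l 16737808) (b (l 16737184) (l 16735704)))) (b (c (l 16734984) (c (l 16733832) (b (l 16733800) (l 16732248)))) (b (b (l 16732344) (l 16731576)) (c (l 16731248) (l 16729560)))))) (a (c (b (b (l 16741488) (l 16728592)) (b (l 16725992) (l 16733624))) (b (c (b (l 16739840) (l 16737144)) (b (b (l 16739400) (l 16737944)) (a (b (l 16736608) (l 16735136)) (b (l 16736360) (l 16734896))))) (b (c (l 16734336) (a (b (l 16733632) (l 16732112)) (c (l 16733048) (b (l 16733000) (c (l 16731672) (l 16731248)))))) (c (l 16734000) (c (b (l 16730888) (l 16729352)) (b (b (l 16730408) (l 16729632)) (a (l 16728568) (l 16728344)))))))) (a (c (b (b (l 16741152) (l 16738744)) (b (l 16725680) (l 16733312))) (b (b (c (l 16739480) (l 16738296)) (b (l 16736800) (l 16735392))) (b (b (l 16733944) (a (l 16732536) (l 16732416))) (b (a (l 16731032) (l 16730920)) (l 16729456))))) (a (a (b (b (c (l 16741008) (l 16738736))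 (b (l 16727488) (l 16726176))) (c (b (l 16736024) (l 16733184)) (b (c (l 16733848) (l 16732248)) (c (l 16730912) (l 16729200))))) (b (b (c (l 16740952) (l 16738672)) (b (l 16737912) (l 16726112))) (c (b (l 16735976) (l 16733128)) (b (c (l 16733792) (l 16732192)) (c (l 16730848) (l 16729136)))))) (b (b (c (l 16740856) (l 16738568)) (b (l 16737816) (l 16736512))) (b (b (l 16724672) (l 16723264)) (b (l 16721816) (l 16720336)))))))), by decide +kernel⟩

def k249_A00pm_012_s1 : ∃ t, chk3 f_A00pm_012_s1 t 335 25 1 = true :=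
  ⟨(a (a (b (b (a (c (l 16740528) (l 16738200)) (a (c (l 16740088) (l 16737696)) (c (l 16739744) (l 16737312)))) (b (a (l 16726992) (a (l 16737024) (l 16747160))) (a (l 16725696) (a (l 16735736) (l 16745888))))) (a (b (c (l 16725104) (b (l 16733304) (l 16731840))) (c (l 16732760) (c (l 16730456) (l 16728712)))) (b (b (a (l 16734400) (l 16739320)) (a (l 16733016) (l 16737944))) (a (l 16733480) (a (a (l 16730648) (a (l 16733168) (l 16730496))) (b (l 16741664) (l 16729728))))))) (a (a (b (b (c (l 16739528) (l 16737080)) (c (l 16737200) (l 16734360))) (b (b (l 16733864) (l 16737736)) (c (l 16731912) (l 16728656)))) (a (b (b (c (l 16739440) (l 16736992)) (c (l 16742352) (l 16734272))) (b (b (l 16733776) (l 16737648)) (c (b (l 16732536) (l 16731088)) (l 16728560)))) (a (b (b (c (l 16739400) (l 16736952)) (c (l 16742304) (l 16734232))) (b (b (l 16738968) (l 16737600)) (c (b (l 16735112) (l 16731040)) (l 16728520)))) (b (b (c (l 16739368) (l 16736920)) (c (l 16742272) (l 16734208))) (b (b (l 16738944) (b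 (l 16732672) (l 16731976))) (c (b (l 16735080) (b (l 16731376) (l 16730640))) (l 16728488))))))) (b (b (c (l 16739216) (l 16736808)) (c (l 16742120) (l 16734088))) (c (b (b (l 16735016) (l 16733688)) (b (l 16734920) (b (l 16731216) (l 16730480)))) (b (l 16731280) (l 16728368)))))) (b (b (c (l 16738552) (l 16736288)) (b (l 16746048) (l 16744768))) (c (b (b (l 16734336) (l 16733000)) (b (a (l 16734504) (l 16733944)) (b (l 16733136) (l 16729768)))) (b (l 16730752) (l 16727824))))), by decide +kernel⟩

def k250_A00pm_012_s1 : ∃ t, chk3 f_A00pm_012_s1 t 668 26 1 = true :=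
  ⟨(c (b (b (l 16731968) (l 16727488)) (b (b (l 16723752) (b (l 16721792) (a (l 16720752) (l 16720168)))) (b (a (b (l 16719392) (l 16718048)) (b (l 16718864) (l 16717592))) (a (a (l 16716232) (l 16716008)) (l 16715688))))) (b (b (c (l 16730104) (b (l 16729216) (l 16727624))) (c (l 16726752) (b (l 16726032) (l 16724392)))) (b (b (l 16717872) (a (l 16720992) (b (l 16721000) (c (l 16719792) (l 16717200))))) (b (a (b (l 16719120) (c (l 16717832) (a (l 16718128) (l 16717840)))) (b (a (c (l 16718672) (l 16718760)) (l 16718440)) (c (l 16717336) (l 16717464)))) (a (c (a (l 16716112) (l 16715864)) (b (a (l 16716928) (l 16716664)) (l 16715608))) (l 16715552)))))), by decide +kernel⟩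

def k251_A00pm_012_s1 : ∃ t, chk3 f_A00pm_012_s1 t 669 26 1 = true :=
  ⟨(a (c (b (b (l 16730992) (l 16726560)) (b (b (b (l 16723472) (l 16722216)) (a (l 16720448) (l 16720264))) (l 16716584))) (b (b (c (l 16728920) (b (l 16727992) (l 16726408))) (c (l 16725744) (b (l 16724824) (l 16723208)))) (c (b (b (l 16722296) (b (l 16720504) (l 16719328))) (l 16716288)) (b (b (a (l 16721728) (b (l 16721760) (b (l 16721152) (l 16718240)))) (a (b (l 16720536) (l 16719424)) (b (l 16720336) (l 16719224)))) (l 16716384))))) (a (b (b (c (l 16730496) (c (l 16728312) (c (l 16729640) (b (l 16726880) (l 16725304))))) (c (b (l 16727256) (l 16724880)) (c (l 16719904) (c (b (l 16724664) (l 16723064)) (b (l 16723728) (l 16722128)))))) (b (c (b (b (l 16723064) (l 16721896)) (l 16720136)) (b (c (b (l 16722464) (l 16721344)) (b (a (l 16721512) (a (l 16716232) (l 16716320))) (a (l 16721120) (l 16721200)))) (l 16719600))) (c (l 16716304) (l 16715944)))) (a (c (b (b (l 16730240) (b (l 16727016) (l 16724672))) (b (l 16721256)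 (l 16716168))) (b (b (c (l 16727992) (c (l 16726696) (l 16725760))) (c (b (l 16725640) (l 16723976)) (b (l 16723880) (b (l 16722688) (l 16716792))))) (b (b (l 16721712) (l 16719472)) (l 16715768)))) (a (b (a (b (b (l 16718952) (l 16717400)) (b (l 16715816) (b (l 16724624) (l 16723520)))) (b (b (l 16718896) (l 16727832)) (b (l 16715760) (c (l 16724576) (l 16723264))))) (a (b (b (l 16721936) (l 16719616)) (c (l 16716112) (l 16715696))) (b (c (l 16721216) (l 16720560)) (c (l 16716096) (l 16715664))))) (b (b (b (l 16729304) (l 16727752)) (b (l 16726168) (c (l 16724560) (l 16723344)))) (b (c (l 16721208) (l 16720544)) (c (l 16716064) (l 16715624)))))))), by decide +kernel⟩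

def k252_A00pm_012_s1 : ∃ t, chk3 f_A00pm_012_s1 t 1340 26 1 = true :=
  ⟨(b (a (b (c (l 16729712) (l 16726552)) (c (a (b (l 16726704) (l 16724560)) (b (c (b (l 16727480) (l 16726456)) (l 16726328)) (l 16724608))) (b (a (l 16724416) (l 16724504)) (a (l 16723616) (l 16723720))))) (c (a (b (b (l 16730136) (c (a (l 16728952) (l 16731584)) (l 16733352))) (b (a (c (l 16727024) (l 16726352)) (l 16726792)) (l 16724728))) (b (a (a (b (l 16735264) (c (l 16729088) (l 16728368))) (b (c (b (l 16733608) (l 16733016)) (l 16732008)) (l 16728872))) (b (l 16735352) (l 16728904))) (a (a (l 16725944) (l 16726064)) (l 16726072)))) (b (a (b (l 16726920) (l 16728328)) (a (b (a (l 16726800) (l 16726928)) (a (l 16726128) (l 16726672))) (l 16726920))) (a (b (l 16735656) (l 16723800)) (l 16724936))))) (c (a (b (c (l 16721496) (l 16720944)) (l 16715976)) (b (a (l 16721232) (l 16721288)) (a (l 16715896) (l 16715856)))) (a (b (l 16720488) (l 16715480)) (b (l 16720448) (a (l 16715304) (l 16715184)))))), by decide +kernel⟩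

def k253_A00pm_012_s1 : ∃ t, chk3 f_A00pm_012_s1 t 1341 26 1 = true :=
  ⟨(a (a (b (c (b (b (b (l 16730152) (l 16729872)) (l 16728800)) (l 16725976)) (b (l 16726816) (l 16724920))) (b (l 16720712) (l 16715304))) (a (b (c (b (b (b (b (l 16730160) (l 16729936)) (l 16729768)) (l 16728704)) (l 16725872)) (b (l 16726712) (l 16724816))) (b (l 16720608) (l 16715200))) (a (b (c (b (b (b (b (l 16730112) (l 16732512)) (b (l 16729776) (l 16729608))) (l 16728648)) (l 16725816)) (b (l 16726664) (l 16724760))) (b (c (l 16721088) (l 16720200)) (l 16715152))) (b (c (b (b (c (b (b (l 16730776) (l 16730528)) (l 16730144)) (l 16729112)) (l 16731232)) (l 16725784)) (b (l 16726632) (l 16724728))) (b (c (l 16721056) (l 16720168)) (l 16715112)))))) (b (c (b (b (c (b (b (l 16730608) (l 16730360)) (l 16729976)) (l 16728952)) (l 16731072)) (l 16725624)) (b (l 16726496) (l 16724576))) (b (c (l 16720896) (l 16720008)) (l 16714960)))), by decide +kernel⟩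

def k254_A00pm_012_s1 : ∃ t, chk3 f_A00pm_012_s1 t 671 26 1 = true :=
  ⟨(b (c (b (c (b (b (b (l 16729864) (a (l 16729896) (l 16729272))) (l 16729232)) (l 16728104)) (b (l 16728248) (l 16727400))) (c (l 16725280) (l 16724608))) (b (l 16731144) (l 16723888))) (b (c (l 16720208) (l 16719312)) (l 16724744))), by decide +kernel⟩

def k255_A00pm_012_s1 : ∃ t, chk3 f_A00pm_012_s1 t 334 27 1 = true :=
  ⟨(a (b (b (c (l 16717272) (c (l 16711952) (b (l 16713488) (l 16710936)))) (l 16711872)) (b (l 16701184) (l 16695632))) (a (b (b (l 16711096) (l 16705664)) (c (l 16708064) (l 16697216))) (a (b (c (l 16718632) (l 16718440)) (b (l 16699544) (l 16693840))) (a (b (b (l 16710472) (l 16704920)) (b (l 16699256) (l 16693512))) (a (a (b (b (l 16710384) (l 16704808)) (b (l 16699128) (l 16693376))) (b (b (l 16710344) (l 16704768)) (b (l 16699080) (l 16693320)))) (b (b (l 16710296) (l 16704696)) (b (l 16699000) (l 16693232)))))))), by decide +kernel⟩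

def k256_A00pm_012_s1 : ∃ t, chk3 f_A00pm_012_s1 t 670 27 1 = true :=
  ⟨(a (b (b (a (l 16710112) (a (l 16709888) (b (l 16711168) (l 16708296)))) (a (l 16704472) (a (l 16704168) (b (a (l 16710672) (l 16705320)) (c (l 16702920) (l 16702248)))))) (b (a (c (l 16699120) (l 16698552)) (a (c (l 16698816) (l 16698112)) (b (a (a (l 16699624) (c (l 16700024) (l 16699232))) (l 16699448)) (a (a (l 16696688) (c (l 16697136) (l 16696216))) (l 16696488))))) (b (a (l 16694384) (a (l 16693968) (b (a (a (l 16694472) (c (l 16694968) (l 16693936))) (l 16694264)) (a (a (l 16693000) (c (l 16693528) (l 16692408))) (l 16692776))))) (a (l 16691464) (a (l 16691024) (b (a (a (l 16691520) (c (l 16692088) (l 16690872))) (l 16691288)) (a (a (l 16690032) (c (l 16695888) (l 16689328))) (l 16689800)))))))) (a (a (b (b (l 16709576) (b (l 16705216) (l 16702280))) (b (b (l 16699336) (c (l 16696952) (l 16696008))) (b (c (l 16694056) (l 16692952)) (c (l 16691168) (l 16689880))))) (a (b (b (c (l 16709888) (l 16709256)) (c (l 16704088)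 (l 16703400))) (b (c (l 16698288) (b (l 16698920) (l 16695896))) (c (l 16692496) (b (l 16692840) (l 16689760))))) (a (b (b (c (l 16709832) (l 16709200)) (b (l 16705056) (l 16702120))) (c (b (l 16698232) (l 16692440)) (b (b (l 16698864) (l 16695840)) (b (l 16692784) (l 16689704))))) (b (b (c (l 16709800) (l 16709168)) (b (l 16705016) (l 16702080))) (c (b (l 16698192) (l 16692400)) (b (b (l 16698824) (l 16695800)) (b (l 16692744) (l 16689672)))))))) (b (b (c (l 16709640) (l 16709000)) (b (l 16704856) (l 16701920))) (c (b (l 16698032) (l 16692240)) (b (b (l 16698656) (l 16695632)) (b (l 16692576) (l 16689496))))))), by decide +kernel⟩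

def k257_A00pm_012_s1 : ∃ t, chk3 f_A00pm_012_s1 t 671 27 1 = true :=
  ⟨(b (b (c (l 16708936) (l 16708280)) (c (l 16703128) (b (l 16703888) (l 16700912)))) (c (b (l 16697304) (c (l 16691920) (l 16691120))) (b (b (l 16697904) (l 16694872)) (c (l 16690504) (b (l 16691640) (l 16688504)))))), by decide +kernel⟩

def k258_A00pm_012_s1 : ∃ t, chk3 f_A00pm_012_s1 t 21 12 1 = true :=
  ⟨(b (b (a (c (b (a (a (a (l 16751344) (l 16744040)) (l 16746208)) (c (l 16734704) (l 16734824))) (a (c (l 16751312) (l 16745872)) (l 16742832))) (a (b (c (a (l 16750008) (l 16740784)) (a (b (a (l 16748720) (l 16749392)) (c (l 16743944) (l 16743776))) (c (l 16751080) (l 16745672)))) (a (c (l 16747608) (c (l 16747352) (l 16747160))) (c (l 16738336) (l 16738000)))) (a (b (a (l 16748128) (l 16735616)) (l 16734112)) (b (l 16732576) (l 16730016))))) (a (b (c (l 16747584) (l 16736976)) (c (l 16724032) (l 16744840))) (b (c (l 16718536) (l 16718416)) (c (l 16736792) (l 16715720))))) (b (a (a (c (l 16748936) (c (l 16748512) (b (l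 16743472) (l 16737064)))) (c (l 16729960) (l 16729632))) (a (c (l 16721504) (l 16721360)) (l 16713384))) (a (a (c (l 16746624) (l 16740488)) (l 16738040)) (a (l 16719160) (l 16710840))))) (a (b (a (c (b (c (l 16744576) (l 16733456)) (b (l 16742464) (c (l 16731152) (l 16740816)))) (b (l 16732528) (l 16729784))) (b (l 16740976) (c (l 16722784) (l 16722760)))) (c (a (a (b (b (l 16736856) (a (l 16736592) (l 16729152))) (b (a (a (l 16733104) (l 16729376)) (l 16727704)) (c (a (l 16729048) (l 16731936)) (l 16726752)))) (b (l 16726568) (b (l 16734864) (l 16722840)))) (b (a (l 16722224) (l 16717888)) (b (l 16717768) (l 16726632)))) (a (b (b (l 16727648) (l 16726176)) (b (l 16724664) (l 16723120))) (b (l 16719984) (l 16716840))))) (a (b (b (l 16716784) (l 16724920)) (b (l 16727560) (c (l 16708168) (l 16708664)))) (b (b (l 16708368) (l 16705944)) (b (l 16703256) (l 16700032)))))), by decide +kernel⟩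

def k259_A00pm_012_s1 : ∃ t, chk3 f_A00pm_012_s1 t 21 26 1 = true :=
  ⟨(b (a (c (b (c (a (b (c (a (a (b (l 16730824) (l 16727640)) (a (l 16728752) (l 16724896))) (l 16727096)) (b (l 16729392) (l 16728864))) (c (b (l 16728592) (l 16722584)) (l 16722688))) (b (l 16725064) (l 16723848))) (a (b (b (l 16728720) (l 16728232)) (l 16722304)) (l 16724512))) (a (c (a (l 16722440) (l 16717888)) (l 16730080)) (l 16716072))) (b (a (b (l 16727064) (l 16721424)) (l 16724264)) (a (l 16718944) (l 16710240)))) (a (c (b (b (l 16705528) (l 16714496)) (l 16701696)) (b (l 16705104) (l 16701504))) (c (b (l 16695784) (l 16692488)) (b (l 16696488) (l 16692776))))) (a (a (b (c (c (l 16726064) (l 16715008)) (l 16719632)) (c (l 16730728) (b (l 16710344) (l 16728480)))) (b (c (c (l 16727656) (l 16706272)) (l 16726672)) (c (l 16701112) (l 16721216)))) (a (b (l 16697424) (c (l 16692504) (l 16691688))) (b (l 16688704) (l 16694120))))), by decide +kernel⟩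

def k260_A00pm_012_s1 : ∃ t, chk3 f_A00pm_012_s1 t 21 27 1 = true :=
  ⟨(a (b (a (b (c (a (l 16706144) (l 16701728)) (a (b (l 16706872) (l 16703944)) (l 16700880))) (c (a (b (l 16701760) (l 16698824)) (l 16695808)) (a (b (l 16700976) (c (l 16698112) (l 16697872))) (b (l 16696376) (l 16693328))))) (a (b (l 16707336) (a (l 16691904) (l 16689696))) (b (l 16692536) (l 16707384)))) (a (b (c (a (b (l 16695888) (l 16692952)) (b (l 16691352) (l 16688376))) (a (c (b (l 16695104) (l 16692072)) (b (l 16694816) (a (l 16692920) (l 16690504)))) (b (l 16690248) (l 16687136)))) (b (c (a (l 16700504) (l 16685400)) (a (c (l 16689024) (a (l 16689800) (l 16687360))) (l 16684000))) (c (a (l 16692336) (l 16682424)) (a (c (l 16685960) (a (l 16686648) (l 16684184))) (l 16680840))))) (b (a (c (l 16685376) (l 16684064)) (c (l 16680968) (l 16679528))) (a (c (l 16679344) (l 16688192)) (c (l 16674856) (l 16673072)))))) (a (b (b (a (l 16688320) (l 16684120)) (a (l 16682112) (l 16677872))) (b (a (l 16675808) (l 16671504)) (a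 (l 16690416) (l 16665064)))) (b (b (l 16719792) (l 16692640)) (b (a (l 16667272) (l 16663112)) (a (l 16660752) (l 16656520)))))), by decide +kernel⟩

def k261_A00pm_012_s1 : ∃ t, chk3 f_A00pm_012_s1 t 11 12 1 = true :=
  ⟨(b (a (a (b (a (a (b (l 16712720) (l 16709968)) (b (l 16708800) (l 16705992))) (c (b (l 16702832) (l 16699840)) (l 16722128))) (b (c (l 16700896) (l 16721960)) (c (l 16698072) (l 16740320)))) (a (b (b (c (l 16695232) (l 16694920)) (l 16692368)) (b (l 16689448) (l 16686600))) (b (c (b (l 16687824) (l 16684560)) (l 16685848)) (b (l 16681784) (l 16678824))))) (b (b (a (c (a (l 16680616) (l 16673592)) (l 16718312)) (c (c (l 16663552) (l 16663504)) (l 16662544))) (c (a (c (l 16673272) (l 16673800)) (a (l 16663160) (l 16656512))) (a (l 16673264) (l 16659104)))) (a (c (c (a (l 16671480) (l 16664112)) (l 16689816)) (b (l 16670192) (l 16667224))) (c (a (b (l 16659496) (l 16655808)) (b (l 16652664) (l 16648824))) (b (l 16655800) (l 16652688)))))) (a (b (a (c (l 16714952) (l 16699928)) (b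 (l 16682472) (c (l 16675904) (l 16677176)))) (a (c (b (l 16689624) (l 16686168)) (a (l 16693344) (l 16684968))) (c (l 16691752) (c (l 16672560) (l 16714328))))) (a (b (a (b (l 16668192) (l 16665232)) (b (l 16660640) (l 16657552))) (c (l 16654248) (b (l 16658432) (l 16654744)))) (b (a (b (l 16653280) (l 16650064)) (b (l 16646120) (l 16642768))) (c (l 16638480) (c (l 16641248) (l 16641080))))))), by decide +kernel⟩

def k262_A00pm_012_s1 : ∃ t, chk3 f_A00pm_012_s1 t 11 13 1 = true :=
  ⟨(a (b (b (a (a (b (c (l 16686728) (l 16687920)) (c (l 16683232) (l 16684064))) (b (l 16689480) (c (l 16674000) (l 16675392)))) (a (b (l 16670480) (a (l 16668456) (l 16664088))) (c (l 16658136) (b (l 16662696) (l 16658304))))) (b (a (c (l 16675152) (l 16675520)) (c (l 16656920) (a (l 16662608) (l 16654032)))) (a (c (l 16670704) (l 16691440)) (c (l 16652904) (a (l 16657696) (l 16649200)))))) (a (b (a (b (l 16669528) (l 16663456)) (b (l 16661112) (l 16655288))) (a (b (l 16698968) (c (l 16651448) (l 16649096))) (b (l 16648960)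 (l 16642296)))) (b (c (a (l 16650024) (l 16641416)) (a (l 16649288) (l 16640960))) (a (b (l 16640944) (l 16634376)) (c (l 16630480) (l 16628512)))))) (b (c (a (b (c (l 16643432) (l 16646464)) (c (l 16635600) (l 16637864))) (b (l 16628376) (c (l 16617088) (l 16620440)))) (b (c (a (a (l 16652088) (l 16643944)) (l 16632064)) (a (b (l 16650376) (l 16645792)) (b (l 16634712) (l 16629824)))) (a (c (c (l 16638744) (l 16638960)) (a (l 16642928) (l 16634552))) (a (b (l 16628840) (l 16624000)) (b (l 16631248) (l 16615816)))))) (b (c (a (c (l 16669760) (l 16628728)) (l 16613592)) (a (a (l 16632640) (l 16624304)) (a (l 16626544) (a (l 16609904) (l 16605848))))) (c (a (l 16639112) (c (l 16601184) (l 16601512))) (c (a (l 16617104) (l 16600912)) (a (l 16657584) (a (l 16603504) (l 16595408)))))))), by decide +kernel⟩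

def k263_A00pm_012_s1 : ∃ t, chk3 f_A00pm_012_s1 t 80 56 1 = true :=
  ⟨(b (c (a (l 16715584) (b (l 16722096) (l 16719760))) (a (l 16726816) (c (l 16711016) (l 16722104)))) (a (c (b (l 16722384) (l 16719736)) (l 16716648)) (b (c (l 16717304) (l 16718208)) (c (l 16717312) (a (l 16716856) (l 16714392)))))), by decide +kernel⟩

def k264_A00pm_012_s1 : ∃ t, chk3 f_A00pm_012_s1 t 162 56 1 = true :=
  ⟨(b (c (b (l 16716968) (a (l 16715928) (l 16713376))) (b (a (l 16719128) (l 16716616)) (c (l 16704816) (l 16710752)))) (a (b (c (l 16713496) (l 16709240)) (c (a (l 16711536) (b (l 16710936) (a (l 16709920) (l 16709264)))) (a (l 16712544) (b (l 16711968) (c (a (l 16710616) (l 16709952)) (c (l 16705552) (l 16705960))))))) (b (c (b (l 16711584) (a (l 16710960) (b (l 16710016) (l 16711984)))) (a (c (l 16712288) (l 16713008)) (b (l 16709368) (a (c (l 16710728) (l 16711472)) (c (l 16710080) (c (l 16710616) (l 16711048))))))) (a (c (b (a (l 16709992) (l 16709336)) (l 16708232)) (b (c (a (l 16710696) (l 16710040))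 (b (l 16711448) (a (l 16711104) (l 16710432)))) (c (l 16708896) (c (l 16709400) (l 16704552))))) (c (b (a (l 16708664) (l 16707968)) (l 16706824)) (b (c (a (l 16709352) (l 16708632)) (a (b (l 16710472) (l 16709696)) (l 16709336))) (l 16707728))))))), by decide +kernel⟩

def k265_A00pm_012_s1 : ∃ t, chk3 f_A00pm_012_s1 t 163 112 1 = true :=
  ⟨(a (c (b (l 16713120) (a (l 16711464) (b (l 16710776) (b (l 16709904) (l 16711928))))) (b (c (l 16713768) (l 16704000)) (a (c (l 16712152) (l 16712896)) (b (c (l 16711472) (l 16712224)) (c (a (l 16710640) (l 16710000)) (a (l 16711400) (a (l 16710928) (b (l 16710920) (l 16710296))))))))) (b (c (a (l 16711200) (b (l 16710480) (a (l 16709672) (b (l 16709312) (l 16708736))))) (a (c (l 16711872) (l 16712616)) (b (l 16711504) (c (a (l 16710368) (b (l 16710016) (l 16709440))) (a (l 16711136) (b (l 16710784) (a (l 16710392) (l 16710048)))))))) (c (a (b (a (l 16709816) (l 16711792)) (a (b (l 16708936) (l 16708304)) (l 16707936))) (b (a (b (l 16708816) (l 16708208)) (l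 16707824)) (l 16706896))) (a (b (c (a (l 16710528) (l 16709880)) (a (l 16711288) (b (l 16710944) (a (l 16710544) (l 16710200))))) (c (a (b (l 16709656) (l 16709000)) (l 16708616)) (a (b (a (l 16710600) (l 16710256)) (l 16709752)) (l 16709352)))) (c (b (a (b (l 16709520) (l 16708896)) (l 16708496)) (l 16707520)) (b (a (b (a (l 16710472) (l 16710128)) (l 16709648)) (l 16709240)) (l 16708224))))))), by decide +kernel⟩

def k266_A00pm_012_s1 : ∃ t, chk3 f_A00pm_012_s1 t 163 113 1 = true :=
  ⟨(a (b (c (a (b (b (l 16709984) (l 16711976)) (a (l 16711320) (l 16708008))) (b (a (b (l 16709016) (l 16708352)) (l 16707992)) (l 16706960))) (a (b (c (a (l 16710712) (l 16710064)) (a (l 16711464) (b (l 16711144) (c (l 16710296) (l 16710736))))) (c (a (l 16709400) (l 16708680)) (b (a (c (l 16710304) (l 16710736)) (l 16709784)) (c (l 16709192) (l 16709608))))) (c (b (a (l 16712008) (l 16708672)) (l 16707584)) (b (a (c (l 16712552) (b (l 16710720) (l 16710008))) (c (l 16709200) (l 16709632))) (l 16708272))))) (c (a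 (l 16706176) (l 16704760)) (c (a (l 16706744) (l 16705264)) (a (l 16712632) (l 16705864))))) (c (b (c (l 16705488) (l 16705688)) (c (l 16702616) (l 16702728))) (c (b (a (l 16706848) (l 16705384)) (l 16703040)) (b (a (l 16712768) (l 16706008)) (a (l 16704336) (l 16702800)))))), by decide +kernel⟩

def k267_A00pm_012_s1 : ∃ t, chk3 f_A00pm_012_s1 t 80 57 1 = true :=
  ⟨(a (b (c (b (l 16716952) (l 16714032)) (a (l 16717552) (l 16715120))) (b (a (c (l 16712208) (l 16702512)) (a (b (l 16700992) (c (l 16709496) (l 16710288))) (b (c (l 16709856) (l 16710704)) (l 16708384)))) (a (b (c (l 16709744) (l 16699984)) (l 16708112)) (b (l 16712416) (l 16705184))))) (b (a (b (c (l 16713192) (l 16714112)) (c (a (l 16710904) (b (l 16710400) (l 16708808))) (a (b (l 16712576) (l 16711056)) (b (l 16711344) (c (l 16709392) (l 16710016)))))) (b (b (c (l 16711384) (l 16709744)) (c (a (l 16710608) (a (l 16709640) (l 16708968))) (a (l 16711576) (c (l 16709952) (a (l 16710984) (l 16710288)))))) (c (a (b (l 16709080) (l 16707392))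 (l 16706832)) (b (a (c (l 16709704) (l 16710352)) (l 16708536)) (l 16707440))))) (a (c (b (l 16706872) (l 16703136)) (b (a (b (l 16709288) (l 16707336)) (l 16706816)) (l 16703528))) (c (b (l 16704016) (l 16700272)) (b (l 16709800) (l 16700504)))))), by decide +kernel⟩

def k268_A00pm_012_s1 : ∃ t, chk3 f_A00pm_012_s1 t 81 57 1 = true :=
  ⟨(a (b (a (b (b (c (a (a (l 16709808) (l 16709144)) (l 16708104)) (c (a (l 16712760) (l 16708736)) (a (a (l 16711192) (l 16710512)) (b (l 16709840) (l 16708976))))) (c (l 16707208) (c (l 16707784) (a (l 16709168) (l 16707648))))) (c (a (l 16705408) (l 16703984)) (c (l 16705128) (l 16710888)))) (c (b (a (l 16705888) (l 16704472)) (a (l 16702560) (l 16701136))) (b (c (l 16705672) (a (l 16707016) (l 16705488))) (a (l 16703096) (l 16701576))))) (a (b (c (a (l 16701872) (l 16700440)) (a (l 16702288) (l 16700768))) (c (a (l 16698120) (l 16696688)) (a (l 16698224) (l 16696696)))) (b (c (a (l 16699008) (l 16697576)) (a (l 16699248) (l 16697720))) (c (a (l 16695256) (l 16693816))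 (a (l 16695168) (l 16693632)))))) (b (c (c (b (a (l 16702328) (l 16699528)) (a (l 16699032) (l 16696224))) (b (a (l 16702416) (l 16699520)) (a (l 16699000) (l 16696088)))) (c (a (b (l 16705320) (l 16699152)) (b (l 16699712) (a (l 16696888) (l 16695376)))) (a (b (a (l 16703960) (l 16702424)) (a (l 16700264) (l 16698712))) (b (a (l 16700880) (l 16699328)) (a (l 16697152) (l 16695584)))))) (a (b (c (c (l 16695536) (l 16695360)) (c (l 16695360) (a (l 16696312) (l 16694752)))) (c (c (l 16691840) (l 16691512)) (c (l 16691344) (a (l 16692128) (l 16690552))))) (b (c (c (l 16692704) (a (l 16693168) (l 16691696))) (a (b (l 16694104) (l 16692104)) (c (l 16691568) (l 16691600)))) (c (c (l 16689000) (a (l 16689304) (l 16687832))) (c (a (l 16689064) (l 16687528)) (a (l 16688976) (l 16687392)))))))), by decide +kernel⟩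

def k269_A00pm_012_s1 : ∃ t, chk3 f_A00pm_012_s1 t 80 29 1 = true :=
  ⟨(b (a (b (a (b (l 16715504) (l 16700720)) (b (l 16707328) (l 16708272))) (a (b (l 16696224) (l 16691608)) (c (l 16701840) (l 16701184)))) (b (a (c (b (l 16699192) (l 16695056)) (b (l 16699256) (l 16694776))) (b (c (l 16696328) (l 16696224)) (c (l 16692184) (l 16691736)))) (a (b (c (l 16690744) (l 16690096)) (c (l 16686296) (l 16685280))) (b (c (l 16687880) (l 16687056)) (c (l 16683432) (l 16682232)))))) (a (a (b (b (l 16687160) (l 16682960)) (c (l 16677976) (l 16676256))) (b (b (l 16684176) (l 16679944)) (c (l 16675024) (l 16673112)))) (a (b (b (c (l 16681952) (l 16680584)) (c (l 16677848) (l 16676152))) (b (l 16683408) (l 16679584))) (b (b (c (l 16679088) (l 16677520)) (c (l 16674960) (l 16673056))) (c (b (l 16671048) (l 16667344)) (b (l 16668840) (l 16664848))))))), by decide +kernel⟩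

def k270_A00pm_012_s1 : ∃ t, chk3 f_A00pm_012_s1 t 81 58 1 = true :=
  ⟨(b (a (a (b (c (a (l 16694168) (l 16692736)) (a (l 16693936) (l 16692408))) (c (l 16694560) (l 16693920))) (b (c (a (l 16691296) (l 16689856)) (a (l 16690872) (l 16689328))) (c (a (l 16687160) (l 16685712)) (a (l 16686368) (l 16684824))))) (a (b (c (c (l 16687952) (l 16687464)) (c (l 16687120) (l 16686928))) (c (a (l 16684272) (l 16688064)) (c (l 16682712) (l 16682320)))) (b (c (c (l 16685112) (a (l 16685256) (l 16683776))) (a (c (l 16684832) (l 16684552)) (c (l 16683296) (l 16682960)))) (c (c (l 16681048) (l 16680280)) (a (c (l 16680408) (l 16679936)) (b (l 16679736) (l 16677432))))))) (a (c (a (b (l 16685008) (l 16680576)) (b (a (l 16682848) (l 16681408)) (a (l 16678424) (l 16676984)))) (a (b (l 16683992) (l 16679184)) (b (a (l 16681688) (l 16680144)) (a (l 16676872) (l 16675328))))) (a (b (c (a (l 16679968) (l 16678520)) (a (l 16678592) (l 16677032))) (c (c (l 16675344) (l 16674320)) (c (l 16673408) (l 16672600)))) (b (c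 (c (l 16676832) (l 16675880)) (c (l 16675048) (l 16674328))) (c (c (l 16672504) (l 16671368)) (c (l 16670328) (l 16669400))))))), by decide +kernel⟩

def k271_A00pm_012_s1 : ∃ t, chk3 f_A00pm_012_s1 t 81 59 1 = true :=
  ⟨(a (b (a (b (c (l 16676224) (l 16674456)) (c (l 16672072) (l 16669960))) (b (c (a (l 16674072) (l 16672648)) (a (l 16672144) (l 16670608))) (c (a (l 16669928) (l 16668488)) (a (l 16667640) (l 16666088))))) (a (b (c (l 16668144) (l 16665704)) (c (l 16664416) (l 16661688))) (c (b (a (l 16665976) (l 16664528)) (a (l 16662232) (l 16660776))) (b (a (l 16663360) (l 16661784)) (l 16663760))))) (b (c (b (a (a (l 16671208) (l 16669768)) (c (l 16668272) (l 16666952))) (a (a (l 16667056) (l 16665616)) (c (l 16664208) (l 16662704)))) (b (a (a (l 16669056) (l 16667496)) (c (l 16665720) (l 16664576))) (a (a (l 16664536) (l 16662968)) (a (l 16661400) (l 16659832))))) (a (b (c (a (l 16663080) (l 16661640)) (a (l 16660216) (l 16658648))) (c (a (l 16659312) (l 16657864)) (a (l 16656136) (l 16654544))))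 (b (c (c (l 16660312) (l 16658656)) (c (l 16657056) (l 16655520))) (c (c (l 16656592) (l 16654776)) (a (l 16652952) (l 16651352))))))), by decide +kernel⟩

def k272_A00pm_012_s1 : ∃ t, chk3 f_A00pm_012_s1 t 82 56 1 = true :=
  ⟨(b (a (a (c (b (a (b (a (l 16709512) (b (l 16709152) (l 16708576))) (a (b (l 16708664) (l 16708064)) (l 16707680))) (b (a (b (l 16708496) (l 16707896)) (l 16707512)) (l 16706648))) (c (l 16705384) (l 16705576))) (b (b (b (a (c (l 16710160) (l 16710928)) (a (a (l 16712328) (l 16709352)) (l 16708808))) (a (a (l 16710280) (c (l 16709264) (a (l 16710216) (l 16709864)))) (c (l 16708200) (l 16708936)))) (a (c (a (b (l 16709352) (l 16708736)) (l 16708336)) (b (a (a (l 16710304) (l 16709960)) (l 16709408)) (l 16709120))) (l 16707568))) (c (l 16711240) (a (l 16712656) (l 16705904))))) (c (b (c (l 16705136) (l 16705304)) (c (l 16702648) (l 16702736))) (c (b (l 16710952) (l 16703064)) (b (c (l 16706176) (l 16711808)) (l 16708864))))) (c (a (b (a (l 16703120) (l 16701728)) (l 16699872))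 (b (l 16699640) (l 16697048))) (a (b (c (l 16702776) (l 16708568)) (a (l 16701048) (l 16699528))) (b (l 16710488) (l 16697216))))) (a (c (b (a (c (l 16702728) (l 16702840)) (c (l 16699968) (l 16699968))) (a (c (l 16699840) (l 16699848)) (c (l 16697048) (l 16696952)))) (c (b (a (l 16703168) (l 16700192)) (a (l 16700056) (l 16697048))) (a (b (b (l 16704480) (l 16702936)) (b (l 16701320) (l 16699632))) (b (l 16700632) (l 16697360))))) (a (c (b (l 16697112) (l 16694120)) (b (a (l 16698088) (l 16696552)) (a (l 16694864) (l 16693296)))) (c (b (l 16694264) (l 16691232)) (b (l 16694208) (l 16690920)))))), by decide +kernel⟩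

def k273_A00pm_012_s1 : ∃ t, chk3 f_A00pm_012_s1 t 82 57 1 = true :=
  ⟨(b (a (a (b (c (c (l 16696728) (l 16696616)) (c (l 16696696) (a (l 16697768) (l 16696200)))) (c (c (l 16693400) (l 16693160)) (c (b (l 16694024) (l 16692160)) (b (l 16694184) (l 16692240))))) (a (b (c (l 16694496) (l 16694496)) (c (l 16691096) (l 16693424))) (b (c (l 16693064) (l 16692944)) (c (l 16689648) (l 16689232))))) (a (c (b (l 16696144) (a (l 16688200) (l 16686736))) (b (a (l 16691376) (l 16689792)) (a (l 16687648) (l 16686048)))) (c (b (l 16687992) (l 16684536)) (b (l 16687392) (l 16683624))))) (a (a (b (c (c (l 16689872) (l 16692112)) (c (b (l 16690248) (l 16688280)) (b (l 16690240) (l 16688184)))) (c (c (l 16686152) (a (l 16686352) (l 16684872))) (c (b (l 16686256) (l 16684184)) (b (l 16686064) (l 16683896))))) (c (b (a (l 16687488) (l 16686032)) (a (l 16683680) (l 16682216))) (b (c (l 16686184) (a (l 16686816) (l 16685200))) (c (l 16682120) (a (l 16682568) (l 16680944)))))) (a (c (b (a (l 16684568) (l 16683104))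 (a (l 16680752) (l 16679272))) (b (a (l 16683688) (l 16682080)) (a (l 16679520) (l 16677896)))) (c (b (l 16680880) (l 16677040)) (b (l 16679632) (l 16675424)))))), by decide +kernel⟩

def k274_A00pm_012_s1 : ∃ t, chk3 f_A00pm_012_s1 t 82 58 1 = true :=
  ⟨(a (b (c (b (a (c (l 16682256) (l 16684168)) (c (l 16679392) (l 16678560))) (a (c (l 16678192) (l 16682552)) (c (l 16675328) (l 16674312)))) (b (a (c (b (l 16682056) (l 16679888)) (b (l 16681680) (l 16679408))) (c (l 16677856) (a (l 16678112) (l 16676472)))) (a (c (l 16681792) (b (l 16677088) (l 16674720))) (c (l 16673416) (a (l 16673464) (l 16671816)))))) (c (b (a (c (l 16673976) (l 16672904)) (c (l 16671112) (l 16669904))) (a (c (l 16669656) (l 16668392)) (c (l 16666784) (l 16665392)))) (b (a (c (l 16671944) (l 16671096)) (c (l 16668808) (l 16667816))) (a (c (l 16667224) (l 16666160)) (c (l 16664088) (l 16662872)))))) (a (b (c (b (a (l 16676752) (l 16675272)) (a (l 16672592) (l 16671104))) (b (a (l 16675144) (l 16673512)) (a (l 16670584) (l 16668952))))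 (c (b (a (l 16668280) (l 16666792)) (a (l 16663864) (l 16662376))) (b (a (l 16665864) (l 16664216)) (a (l 16661024) (l 16659376))))) (b (c (b (l 16673032) (l 16668856)) (b (l 16671024) (l 16666448))) (c (b (l 16664536) (l 16660112)) (b (l 16661704) (a (l 16657704) (l 16656016))))))), by decide +kernel⟩

def k275_A00pm_012_s1 : ∃ t, chk3 f_A00pm_012_s1 t 82 59 1 = true :=
  ⟨(a (b (c (a (b (c (l 16665424) (l 16663976)) (c (l 16661384) (l 16659760))) (b (c (l 16662560) (l 16660984)) (c (l 16658528) (l 16656768)))) (b (a (c (l 16662616) (l 16661336)) (c (l 16659472) (l 16658040))) (a (c (l 16658200) (l 16656712)) (c (l 16655064) (l 16653416))))) (c (a (b (c (l 16657488) (l 16655688)) (c (l 16653744) (l 16651792))) (b (c (l 16654632) (l 16652696)) (c (l 16650896) (l 16648800)))) (b (a (c (l 16653952) (l 16652272)) (c (l 16650808) (l 16648968))) (a (c (l 16649880) (l 16648016)) (c (l 16646736) (l 16644704)))))) (a (b (c (b (a (l 16659552) (l 16658064)) (a (l 16655432) (l 16653944))) (b (a (l 16656304)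 (l 16654648)) (a (l 16651792) (l 16650136)))) (c (b (a (l 16651472) (l 16649984)) (a (l 16647648) (l 16646168))) (b (a (l 16647448) (l 16645800)) (a (l 16643272) (l 16641616))))) (b (c (b (l 16655800) (l 16651680)) (b (l 16652120) (l 16647600))) (c (b (l 16647728) (l 16643912)) (b (l 16643264) (l 16639072)))))), by decide +kernel⟩

def k276_A00pm_012_s1 : ∃ t, chk3 f_A00pm_012_s1 t 166 28 1 = true :=
  ⟨(c (b (b (a (l 16706024) (l 16692664)) (a (l 16689872) (l 16686896))) (b (a (l 16683320) (l 16680280)) (a (a (l 16676736) (l 16675208)) (l 16672864)))) (b (a (b (a (l 16696304) (l 16694728)) (a (l 16690200) (l 16688568))) (b (l 16692296) (l 16686040))) (b (a (a (l 16683080) (l 16681408)) (l 16678800)) (a (a (l 16675048) (l 16673344)) (l 16670664))))), by decide +kernel⟩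

def k277_A00pm_012_s1 : ∃ t, chk3 f_A00pm_012_s1 t 334 28 1 = true :=
  ⟨(a (b (b (l 16690000) (l 16683904)) (b (l 16676920) (l 16669096))) (a (b (b (l 16688752) (l 16682568)) (c (l 16672968) (l 16670520))) (a (b (b (l 16709040) (l 16681864)) (c (l 16682768) (l 16669688))) (a (b (b (l 16687712) (l 16681488)) (c (l 16671920) (l 16669240))) (a (a (b (b (l 16687560) (l 16681328)) (c (l 16671768) (l 16669048))) (b (b (l 16687496) (l 16681256)) (c (l 16671704) (l 16668968)))) (b (b (l 16687400) (l 16681160)) (b (l 16674064) (l 16666144)))))))), by decide +kernel⟩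

def k278_A00pm_012_s1 : ∃ t, chk3 f_A00pm_012_s1 t 335 28 1 = true :=
  ⟨(a (a (b (c (a (b (l 16687784) (l 16681768)) (a (b (l 16687384) (l 16681328)) (b (a (c (a (l 16687648) (b (l 16694200) (l 16686104))) (a (l 16686712) (b (l 16688056) (l 16685088)))) (b (l 16688400) (l 16685488))) (a (a (l 16681080) (b (l 16682552) (l 16679320))) (b (l 16682456) (l 16679224)))))) (a (b (l 16686504) (l 16679944)) (a (b (l 16685952) (l 16679344)) (b (a (a (l 16685624) (b (l 16687008) (l 16683856))) (b (l 16686888) (l 16683736))) (a (a (l 16678984) (b (l 16680544) (l 16676992))) (l 16678664)))))) (a (b (l 16673672) (l 16665728)) (a (b (l 16683600) (l 16665144)) (a (b (a (l 16683280) (c (l 16684568) (l 16671232))) (a (l 16664800) (b (l 16666680) (l 16662496)))) (b (b (l 16674384) (l 16670568)) (l 16664480)))))) (a (a (b (b (b (c (l 16688280) (l 16686776)) (l 16684424)) (b (l 16681256) (l 16677872))) (b (c (l 16673864) (l 16670984)) (c (l 16666224) (l 16662568)))) (a (b (b (c (l 16691968) (b (l 16686664) (l 16683504)))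 (b (l 16681144) (l 16677760))) (b (c (l 16673752) (l 16670872)) (c (l 16666112) (l 16662456)))) (a (b (b (c (l 16686672) (b (l 16686600) (l 16683448))) (b (l 16681080) (l 16677704))) (b (c (l 16673696) (l 16670816)) (c (l 16666056) (l 16662392)))) (b (b (c (l 16686632) (b (l 16686568) (l 16683408))) (b (l 16681048) (l 16677664))) (b (c (l 16673656) (l 16670776)) (c (l 16666016) (l 16662360))))))) (b (b (c (l 16686464) (b (l 16686392) (l 16683232))) (b (l 16680872) (l 16677488))) (b (c (l 16673488) (l 16670600)) (c (l 16665848) (l 16662184)))))) (b (c (b (b (l 16687152) (l 16684232)) (l 16679592)) (b (b (l 16685616) (l 16682448)) (b (l 16679128) (l 16675576)))) (b (c (l 16672728) (l 16669816)) (c (l 16665096) (l 16661408))))), by decide +kernel⟩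

def k279_A00pm_012_s1 : ∃ t, chk3 f_A00pm_012_s1 t 166 29 1 = true :=
  ⟨(b (a (b (c (a (l 16668680) (l 16667144)) (a (l 16666216) (l 16664480))) (c (b (l 16661472) (l 16657040)) (b (l 16658272) (l 16653400)))) (b (c (l 16664760) (l 16661760)) (c (l 16656056) (l 16652184)))) (b (a (c (a (l 16651424) (l 16649864)) (b (l 16648656) (l 16644136))) (c (l 16647440) (l 16642696))) (a (c (a (l 16643520) (l 16641968)) (a (l 16638576) (l 16636800))) (c (l 16639536) (l 16634000))))), by decide +kernel⟩

def k280_A00pm_012_s1 : ∃ t, chk3 f_A00pm_012_s1 t 334 29 1 = true :=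
  ⟨(b (b (a (l 16660552) (a (l 16659104) (a (l 16658320) (l 16657744)))) (a (l 16651392) (a (l 16649912) (a (l 16649112) (l 16648512))))) (b (a (l 16642336) (a (l 16640832) (a (l 16640016) (l 16639408)))) (a (l 16634040) (a (l 16632520) (a (l 16631688) (l 16631072)))))), by decide +kernel⟩

def k281_A00pm_012_s1 : ∃ t, chk3 f_A00pm_012_s1 t 335 29 1 = true :=
  ⟨(a (a (b (a (b (l 16657088) (c (l 16650336) (l 16645328))) (b (a (c (l 16658616) (l 16654344)) (b (c (l 16660328) (l 16656120)) (a (a (l 16653832) (l 16653624)) (l 16653496)))) (a (b (l 16649576) (l 16644856)) (b (a (a (l 16649192) (l 16648984)) (l 16648848)) (a (a (l 16644464) (c (l 16647032) (l 16641424))) (l 16644112)))))) (a (b (l 16638712) (l 16630368)) (a (b (c (l 16641064) (l 16634984)) (l 16629688)) (a (b (a (b (l 16639864) (l 16635488)) (b (l 16644880) (l 16635264))) (a (b (l 16631304) (l 16627288)) (b (l 16631072) (l 16627056)))) (b (b (l 16639504) (l 16635128)) (b (l 16630936) (l 16626912))))))) (a (a (b (b (c (l 16657912) (l 16653408))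 (b (l 16648744) (l 16644000))) (b (b (l 16639400) (l 16635024)) (b (l 16630832) (l 16626808)))) (a (b (b (c (l 16657808) (l 16653296)) (b (l 16648632) (l 16638648))) (b (c (l 16640200) (b (l 16636216) (l 16631608))) (b (l 16630728) (l 16626704)))) (a (b (b (c (l 16657752) (l 16653240)) (c (l 16648888) (b (l 16645976) (l 16640992)))) (b (c (l 16640144) (b (l 16636160) (l 16631552))) (b (l 16630672) (l 16626656)))) (b (b (b (l 16657696) (l 16653184)) (c (l 16648848) (b (l 16645936) (l 16640960)))) (b (c (l 16640112) (b (l 16636120) (l 16631520))) (c (l 16632128) (b (l 16627120) (l 16622888)))))))) (b (b (b (l 16657528) (l 16653016)) (c (l 16648680) (b (l 16645760) (l 16640784)))) (b (c (l 16639944) (b (l 16635952) (l 16631352))) (b (l 16627856) (l 16626456)))))) (b (b (c (l 16656808) (b (l 16654616) (l 16649880))) (c (l 16647952) (b (l 16645000) (l 16640032)))) (b (c (l 16639224) (b (l 16635200) (l 16630600))) (c (l 16631248) (b (l 16626208) (l 16621992)))))), by decide +kernel⟩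

def k282_A00pm_012_s1 : ∃ t, chk3 f_A00pm_012_s1 t 21 28 1 = true :=
  ⟨(c (b (a (a (b (a (b (l 16684168) (l 16681224)) (c (l 16678536) (l 16677448))) (a (c (l 16677208) (l 16675936)) (b (l 16673352) (l 16670088)))) (b (a (l 16673320) (l 16668744)) (a (l 16666992) (l 16662328)))) (a (b (a (l 16664256) (l 16659840)) (a (l 16657752) (l 16653248))) (b (l 16653352) (l 16646648)))) (a (b (a (a (l 16680192) (l 16664872)) (a (l 16660080) (l 16655352))) (a (a (l 16662104) (l 16657328)) (a (l 16652568) (l 16647800)))) (b (a (a (l 16650664) (l 16646080)) (l 16639360)) (a (a (l 16643096) (l 16638440)) (l 16652544))))) (b (a (a (c (b (a (b (l 16682880) (l 16679752)) (l 16676488)) (a (b (l 16676488) (l 16673016)) (l 16669864))) (a (b (b (l 16692696) (l 16678952)) (b (l 16675528) (l 16671880))) (b (l 16686144) (l 16668728)))) (b (a (l 16671256) (l 16666536)) (a (l 16664376) (l 16659568)))) (a (b (l 16680592) (l 16673496)) (b (l 16650688) (l 16643424)))) (a (a (b (a (c (l 16667424) (l 16676472)) (b (l 16663680)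 (l 16659712))) (a (c (l 16659248) (l 16657384)) (c (l 16654352) (l 16652400)))) (b (a (l 16656776) (l 16651912)) (a (l 16648464) (l 16643568)))) (a (b (a (l 16647096) (l 16642376)) (a (l 16638736) (l 16633960))) (b (l 16635464) (l 16626912)))))), by decide +kernel⟩

def k283_A00pm_012_s1 : ∃ t, chk3 f_A00pm_012_s1 t 21 29 1 = true :=
  ⟨(b (a (a (b (c (c (l 16663144) (a (l 16652680) (l 16647920))) (a (c (l 16650360) (b (l 16650440) (l 16645600))) (b (l 16646640) (l 16641944)))) (c (c (b (l 16646272) (l 16641904)) (b (l 16643608) (l 16639016))) (a (b (c (l 16643304) (l 16640608)) (c (l 16638472) (l 16635536))) (b (l 16637112) (l 16632192))))) (b (c (a (l 16644400) (l 16639704)) (a (l 16639440) (l 16634600))) (c (a (l 16635680) (l 16631032)) (a (b (l 16632288) (l 16627392)) (l 16625024))))) (a (b (c (a (l 16635016) (l 16630336)) (a (l 16629784) (l 16624992))) (c (a (l 16626400) (l 16621776)) (a (l 16620264) (l 16615520)))) (b (c (a (l 16625704) (l 16621136)) (l 16638872)) (c (a (l 16617176) (l 16612576))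 (a (l 16610800) (l 16606096)))))) (a (a (c (b (c (a (l 16637896) (l 16633312)) (a (l 16634744) (l 16630088))) (c (l 16627880) (b (l 16626288) (l 16622408)))) (b (a (c (b (l 16633784) (l 16629320)) (b (l 16630600) (l 16625904))) (c (l 16626784) (l 16633888))) (a (c (l 16633472) (b (l 16621416) (l 16617112))) (b (l 16618528) (l 16614368))))) (c (b (a (l 16627104) (l 16622504)) (a (l 16619288) (l 16614744))) (b (a (c (l 16622072) (l 16618608)) (l 16615616)) (a (l 16611736) (l 16607064))))) (a (b (c (a (l 16617920) (l 16613352)) (a (l 16610904) (l 16606216))) (c (l 16628936) (l 16621080))) (b (c (a (l 16608800) (l 16604264)) (l 16641176)) (c (l 16598960) (l 16590896)))))), by decide +kernel⟩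

def k284_A00pm_012_s1 : ∃ t, chk3 f_A00pm_012_s1 t 80 30 1 = true :=
  ⟨(b (a (b (a (c (l 16670976) (l 16668824)) (c (l 16668008) (l 16665624))) (a (c (l 16664456) (l 16661960)) (c (l 16661480) (l 16658728)))) (b (a (b (l 16675952) (c (l 16663376) (l 16660656))) (c (b (l 16663808) (l 16660416)) (b (l 16661064) (l 16657440)))) (a (c (b (l 16660112) (l 16656928)) (l 16655496)) (c (b (l 16657144) (l 16653952)) (b (l 16653960) (l 16650576)))))) (a (b (c (a (l 16658160) (l 16655184)) (a (l 16655392) (l 16652144))) (a (c (l 16651568) (l 16648584)) (b (l 16648688) (l 16655688)))) (b (c (a (b (l 16653792) (l 16650640)) (b (l 16650816) (l 16647672))) (a (l 16648888) (b (l 16647272) (l 16643968)))) (c (a (b (l 16647360) (l 16643944)) (b (l 16644400) (l 16640992))) (a (l 16642072) (l 16644040)))))), by decide +kernel⟩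

def k285_A00pm_012_s1 : ∃ t, chk3 f_A00pm_012_s1 t 81 30 1 = true :=
  ⟨(b (a (b (a (c (b (l 16660864) (l 16657464)) (b (l 16657864) (l 16654216))) (b (c (l 16657928) (l 16654664)) (c (c (l 16655424) (l 16653616)) (l 16650992)))) (c (a (b (l 16654184) (l 16650984)) (b (c (l 16652184) (l 16650264)) (l 16653256))) (a (b (l 16650712) (l 16647320)) (b (l 16647464) (l 16644048))))) (b (a (b (c (a (l 16655736) (l 16654264)) (a (l 16652264) (l 16650656))) (c (c (l 16652544) (l 16650600)) (c (l 16648696) (l 16646824)))) (b (c (c (l 16653048) (l 16651096)) (c (l 16649176) (l 16647304))) (c (c (l 16649664) (l 16647576)) (c (l 16645520) (l 16643496))))) (c (b (a (c (l 16649288) (l 16647232)) (c (l 16646400) (l 16644200))) (a (c (l 16646128) (l 16643976)) (c (l 16643232) (l 16640920)))) (a (b (c (l 16645208) (l 16643208)) (l 16640768)) (b (c (l 16642016) (l 16639840)) (c (l 16638616) (l 16636320))))))) (b (a (c (a (b (l 16647848) (l 16644696)) (b (l 16644880) (l 16641728))) (a (b (l 16644000) (l 16640688))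 (b (l 16640720) (l 16637392)))) (c (b (a (c (l 16643032) (l 16640784)) (c (l 16640128) (l 16637720))) (a (l 16638752) (l 16635776))) (a (b (l 16637416) (l 16634080)) (b (l 16634096) (l 16630744))))) (a (c (a (b (l 16641440) (l 16638040)) (b (l 16638472) (l 16635080))) (a (b (l 16637272) (l 16633728)) (b (l 16633968) (l 16630416)))) (c (a (b (l 16635504) (l 16632120)) (b (l 16632520) (l 16629144))) (a (b (l 16630648) (l 16627088)) (b (l 16627296) (l 16623744))))))), by decide +kernel⟩

def k286_A00pm_012_s1 : ∃ t, chk3 f_A00pm_012_s1 t 40 62 1 = true :=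
  ⟨(a (a (b (c (b (a (l 16646224) (l 16643296)) (a (l 16642448) (l 16639544))) (a (l 16641184) (l 16637944))) (c (a (b (l 16638488) (l 16634280)) (b (l 16635632) (l 16631472))) (a (l 16633072) (l 16629904)))) (b (b (c (a (l 16640368) (l 16637440)) (l 16634968)) (c (a (l 16636632) (l 16633720)) (a (l 16632760) (l 16629496)))) (c (b (a (l 16632728) (l 16629840)) (a (l 16628648) (l 16625800))) (b (a (l 16628752) (l 16625496)) (a (l 16624568) (l 16621352)))))) (c (b (a (b (a (l 16634496) (l 16631552)) (a (l 16630800) (l 16627872))) (b (a (l 16628600) (l 16625632)) (c (l 16624808) (l 16622088)))) (a (a (b (l 16626944) (l 16622912)) (b (l 16624040) (l 16620032))) (b (c (l 16631520) (l 16618240)) (a (l 16617136) (l 16614224))))) (b (a (a (b (l 16630048) (l 16626216)) (b (l 16626736) (l 16622912))) (b (a (l 16623408) (l 16620056)) (a (l 16619592) (l 16616240)))) (a (b (a (l 16622232) (l 16618936)) (a (l 16618072) (l 16614800))) (b (a (l 16615624) (l 16612280)) (a (l 16611496) (l 16608160))))))), by decide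 +kernel⟩

def k287_A00pm_012_s1 : ∃ t, chk3 f_A00pm_012_s1 t 40 63 1 = true :=
  ⟨(a (a (b (a (b (l 16633200) (l 16622968)) (c (b (l 16627032) (l 16622224)) (l 16620784))) (b (c (l 16618264) (l 16614360)) (a (l 16611840) (l 16614600)))) (b (c (b (a (l 16624304) (l 16621520)) (a (l 16619616) (l 16616952))) (b (a (l 16620120) (l 16616952)) (a (l 16615304) (l 16612264)))) (c (b (a (l 16614552) (l 16612016)) (a (l 16609120) (l 16606704))) (b (a (l 16610096) (l 16607176)) (a (l 16604504) (l 16601696)))))) (b (a (c (b (a (l 16618704) (c (l 16617184) (l 16614544))) (a (l 16614240) (l 16611464))) (b (a (l 16613744) (l 16610504)) (a (l 16609152) (l 16605960)))) (b (c (a (l 16612984) (l 16610104)) (a (l 16607192) (l 16603880))) (c (a (l 16608656) (l 16605824)) (a (l 16602720) (l 16599440))))) (a (b (c (a (l 16609424) (l 16606776)) (a (l 16604184) (l 16601120))) (a (c (l 16604240) (l 16598824)) (c (l 16601712) (l 16595880)))) (b (a (c (l 16604072) (l 16597976)) (c (l 16601296) (l 16594744))) (c (a (l 16599128)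 (l 16596488)) (a (l 16592856) (l 16589760))))))), by decide +kernel⟩

def k288_A00pm_012_s1 : ∃ t, chk3 f_A00pm_012_s1 t 82 30 1 = true :=
  ⟨(b (a (b (c (a (b (c (l 16650184) (l 16648088)) (c (l 16646784) (l 16644552))) (b (c (l 16647312) (l 16645064)) (a (l 16643448) (l 16641960)))) (b (a (c (l 16646016) (l 16643976)) (c (l 16642832) (l 16640616))) (a (c (l 16642336) (l 16640136)) (c (l 16639120) (l 16636736))))) (c (a (b (c (l 16643504) (l 16641152)) (c (l 16640328) (l 16637864))) (b (a (l 16640096) (l 16638600)) (l 16641344))) (b (a (c (l 16638800) (l 16636448)) (a (l 16635136) (l 16633456))) (a (l 16639384) (l 16641272))))) (b (a (c (b (l 16643224) (l 16639712)) (b (a (l 16639256) (l 16637584)) (a (l 16635432) (l 16633744)))) (c (b (l 16640240) (l 16636696)) (b (l 16635048) (l 16631176)))) (a (c (b (l 16636344) (l 16633080)) (b (l 16630920) (l 16627384))) (c (b (l 16633304) (l 16630024)) (b (l 16627472) (l 16623904)))))) (a (b (c (b (a (l 16646424) (l 16632936)) (a (l 16632784) (l 16629768)))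 (b (a (l 16630752) (l 16627376)) (a (l 16627384) (l 16623984)))) (c (a (b (l 16629528) (l 16626152)) (b (l 16626512) (l 16623144))) (b (a (l 16623928) (l 16620512)) (a (l 16620360) (l 16616936))))) (b (a (b (c (l 16629904) (l 16623944)) (c (l 16626736) (l 16620536))) (c (b (l 16626832) (l 16623656)) (b (l 16620448) (l 16617016)))) (a (b (c (l 16623472) (l 16617048)) (c (l 16620104) (l 16613456))) (c (l 16629192) (b (l 16613512) (l 16609904))))))), by decide +kernel⟩

def k289_A00pm_012_s1 : ∃ t, chk3 f_A00pm_012_s1 t 82 31 1 = true :=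
  ⟨(b (b (a (c (b (a (l 16622656) (l 16619648)) (a (l 16619016) (l 16616024))) (b (a (l 16616672) (l 16613240)) (a (l 16612856) (l 16609424)))) (a (b (c (l 16616608) (l 16609760)) (c (l 16612992) (l 16605936))) (c (l 16611728) (l 16614776)))) (a (c (b (a (l 16615232) (l 16612256)) (a (l 16611296) (l 16608336))) (b (a (l 16608896) (l 16605472)) (a (l 16604784) (l 16601368)))) (a (b (c (l 16609240) (l 16601984)) (c (l 16605336) (l 16597888))) (b (l 16602368) (l 16598384))))) (a (b (c (b (a (l 16607200) (l 16604264)) (a (l 16602928) (l 16600016))) (b (a (l 16600520) (l 16597112)) (a (l 16596080) (l 16592688)))) (c (b (a (l 16598480) (l 16595624)) (a (l 16593776) (l 16590984))) (b (a (l 16591456) (l 16588112)) (a (l 16586568) (l 16583280))))) (b (a (b (c (l 16601288) (l 16593648)) (c (l 16597072) (l 16589240))) (b (l 16594256) (c (l 16594072) (l 16585704)))) (c (a (b (l 16592688) (l 16588128)) (b (l 16589712) (l 16585208))) (b (a (l 16584656) (l 16581144)) (a (l 16579896) (l 16576432))))))), by decide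 +kernel⟩

def k290_A00pm_012_s1 : ∃ t, chk3 f_A00pm_012_s1 t 166 15 1 = true :=
  ⟨(b (b (b (a (c (a (l 16636160) (l 16634608)) (b (l 16631568) (l 16627664))) (c (l 16632176) (l 16625896))) (a (c (b (l 16630200) (l 16626904)) (b (l 16623928) (l 16620328))) (c (l 16625288) (l 16618336)))) (b (a (c (l 16622096) (b (l 16616832) (l 16613376))) (c (l 16618808) (l 16611272))) (a (c (l 16615544) (l 16608048)) (c (l 16612240) (l 16604176))))) (b (b (a (c (l 16608568) (l 16600608)) (c (l 16605256) (l 16596704))) (a (c (l 16601096) (l 16592696)) (c (l 16597800) (l 16588784)))) (b (a (c (l 16593072) (l 16584240)) (c (l 16589808) (l 16580352))) (a (c (l 16584416) (b (l 16577504) (l 16572792))) (c (l 16581216) (b (l 16573640) (l 16568952))))))), by decide +kernel⟩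

def k291_A00pm_012_s1 : ∃ t, chk3 f_A00pm_012_s1 t 167 15 1 = true :=
  ⟨(b (b (a (b (a (l 16626312) (a (l 16624792) (l 16623624))) (a (l 16619072) (a (l 16617528) (l 16616352)))) (b (c (a (a (a (l 16626280) (a (l 16625704) (b (l 16627024) (l 16623432)))) (l 16624704)) (l 16623864)) (a (a (a (l 16618800) (a (l 16618040) (b (l 16619384) (l 16615432)))) (a (l 16616936) (l 16616648))) (l 16615920))) (a (a (a (l 16615336) (a (l 16614632) (b (l 16615832) (l 16612280)))) (b (l 16615280) (l 16611720))) (l 16612640)))) (b (a (a (l 16612272) (a (l 16610696) (l 16609504))) (a (a (a (l 16608448) (a (l 16607728) (l 16607136))) (l 16606576)) (l 16605704))) (a (a (l 16605424) (a (l 16603832) (l 16602616))) (a (a (a (l 16601552) (l 16600528)) (l 16599656)) (l 16598776))))) (a (b (b (a (l 16598192) (a (l 16596592) (l 16595368))) (a (l 16590512) (a (l 16588912) (l 16587688)))) (b (a (l 16582328) (a (l 16580736) (l 16579512))) (a (l 16573552) (a (l 16571984) (l 16570776))))) (b (a (a (a (b (l 16594288) (l 16586608))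 (b (l 16593256) (l 16585576))) (a (l 16588704) (l 16588416))) (l 16587672)) (b (a (a (a (l 16578440) (l 16619352)) (l 16576528)) (l 16575632)) (a (a (a (l 16569712) (l 16589656)) (l 16567816)) (l 16566928)))))), by decide +kernel⟩

def k292_A00pm_012_s1 : ∃ t, chk3 f_A00pm_012_s1 t 21 15 1 = true :=
  ⟨(b (b (a (b (c (a (c (l 16620728) (l 16616832)) (l 16609824)) (a (a (b (l 16615008) (l 16611080)) (l 16608400)) (a (l 16603784) (l 16599192)))) (a (c (l 16611840) (a (l 16605360) (l 16600792))) (c (l 16603008) (l 16594032)))) (a (b (c (l 16600888) (l 16592336)) (c (l 16594200) (l 16585040))) (b (c (l 16592000) (l 16583256)) (l 16622808)))) (a (a (b (c (l 16605192) (l 16616784)) (c (l 16598392) (l 16588456))) (b (c (l 16596328) (l 16586760)) (l 16584552))) (a (b (l 16582920) (l 16575800)) (b (l 16574216) (l 16567280))))) (a (a (b (b (l 16628136) (l 16620408)) (b (l 16612224) (c (l 16567272) (l 16555600)))) (b (b (l 16577024) (l 16569200)) (b (l 16560968) (l 16552256)))) (b (a (b (l 16568256) (l 16560256))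 (b (l 16559720) (l 16551712))) (b (a (l 16551936) (l 16543224)) (a (l 16543184) (l 16534400)))))), by decide +kernel⟩

def k293_A00pm_012_s1 : ∃ t, chk3 f_A00pm_012_s1 t 11 14 1 = true :=
  ⟨(b (a (a (b (b (a (c (l 16644952) (l 16642088)) (l 16635384)) (a (c (l 16638112) (l 16634656)) (l 16670040))) (b (a (c (l 16630664) (l 16626536)) (c (l 16622280) (l 16617936))) (a (c (l 16622720) (l 16617824)) (c (l 16614184) (l 16609072))))) (b (a (c (l 16667424) (l 16622056)) (c (l 16617664) (l 16614200))) (a (b (l 16611992) (l 16645296)) (c (l 16644152) (l 16597144))))) (a (b (c (b (l 16609352) (l 16644512)) (a (l 16606408) (l 16598792))) (a (b (l 16596528) (l 16587624)) (b (l 16589048) (l 16580184)))) (b (c (l 16632232) (c (l 16588184) (a (l 16589848) (l 16582032)))) (a (b (l 16581616) (l 16572848)) (c (l 16572216) (c (l 16568568) (l 16565472))))))) (b (b (a (a (a (c (l 16635352) (l 16608656)) (c (l 16605688) (l 16599752))) (a (c (l 16597312) (l 16591168)) (c (l 16589232) (l 16582896)))) (c (a (a (l 16581432)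 (l 16573896)) (c (l 16564456) (l 16561464))) (a (l 16571088) (c (l 16558120) (l 16554416))))) (a (a (a (c (c (l 16607376) (l 16604160)) (l 16599152)) (c (l 16617880) (l 16590096))) (a (c (l 16588384) (l 16581376)) (c (l 16580160) (l 16572968)))) (c (a (c (l 16612080) (l 16566608)) (c (l 16555424) (l 16551880))) (a (l 16560952) (c (l 16548048) (l 16543920)))))) (a (a (a (b (c (a (l 16599744) (l 16595224)) (l 16589976)) (c (l 16590024) (l 16581768))) (c (b (l 16588552) (l 16581128)) (b (l 16580896) (l 16572712)))) (a (c (b (l 16579856) (l 16572392)) (b (l 16572032) (l 16563832))) (c (b (l 16571496) (l 16563872)) (l 16601120)))) (b (c (a (c (l 16603440) (l 16557528)) (c (l 16546568) (l 16542520))) (a (l 16551272) (l 16536024))) (c (a (c (l 16553856) (l 16549528)) (c (l 16538728) (l 16534288))) (a (l 16542768) (l 16527280))))))), by decide +kernel⟩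

def k294_A00pm_012_s1 : ∃ t, chk3 f_A00pm_012_s1 t 11 15 1 = true :=
  ⟨(b (a (b (a (b (c (a (l 16583168) (l 16574408)) (a (l 16574256) (l 16565344))) (c (l 16614344) (l 16562864))) (a (b (c (l 16565688) (l 16556504)) (l 16554712)) (c (b (l 16557144) (l 16550960)) (l 16544400)))) (a (b (a (l 16565568) (l 16556984)) (a (l 16558784) (l 16550344))) (a (b (l 16548464) (l 16541960)) (b (l 16540016) (l 16533640))))) (c (b (a (b (c (l 16547056) (l 16542432)) (c (l 16540944) (l 16536088))) (c (b (l 16531704) (l 16525304)) (l 16565488))) (a (b (l 16532608) (l 16526480)) (a (l 16517560) (l 16509808)))) (a (b (a (l 16535960) (l 16527712)) (a (l 16523168) (l 16514992))) (b (a (l 16519808) (l 16512192)) (a (l 16506976) (l 16499136)))))) (a (a (b (b (c (l 16552520) (l 16541808)) (a (l 16543392) (l 16535296))) (b (a (l 16534904) (l 16526816)) (a (l 16525928) (l 16517840)))) (b (a (b (l 16534888) (l 16527224)) (b (l 16526712) (l 16519200))) (a (b (l 16518936) (l 16509976)) (b (l 16511088) (l 16502320))))) (b (c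 (a (b (l 16519912) (l 16512656)) (b (l 16504048) (l 16496952))) (a (b (l 16509160) (l 16501848)) (a (l 16493640) (l 16485904)))) (b (a (c (l 16504760) (l 16494008)) (c (l 16489384) (l 16478760))) (a (c (l 16496200) (l 16485592)) (l 6)))))), by decide +kernel⟩

def k295_A00pm_012_s1 : ∃ t, chk3 f_A00pm_012_s1 t 3 2 1 = true :=
  ⟨(a (b (l 2) (b (l 2) (a (b (l 2) (a (a (a (a (b (l 2) (b (l 2) (l 16659352))) (l 2)) (l 2)) (l 2)) (l 2))) (l 2)))) (l 2)), by decide +kernel⟩

def k296_A00pm_012_s1 : ∃ t, chk3 f_A00pm_012_s1 t 6 12 1 = true :=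
  ⟨(a (c (b (a (a (c (b (b (l 16672536) (l 16647032)) (b (c (l 16642352) (l 16642808)) (a (l 16641384) (l 16634992)))) (b (a (l 16652080) (l 16646224)) (b (l 16643104) (l 16639224)))) (a (b (b (l 2) (l 16638608)) (b (l 16633992) (l 16629496))) (b (l 2) (c (l 16626144) (l 16626288))))) (a (b (l 2) (c (l 7079731639) (l 16618504))) (l 2))) (a (a (a (b (c (l 16634880) (l 16636960)) (l 16627232)) (b (b (l 16631400) (l 16627176)) (c (l 16618080) (l 16621528)))) (b (c (b (c (l 16620864) (l 16621792)) (l 16616440)) (l 16662544)) (c (a (l 16611208) (l 16605224)) (l 16611344)))) (a (b (b (l 16611320) (l 16606376)) (c (l 16596920) (l 16599008))) (b (l 39291946647) (l 16629416))))) (b (a (a (b (c (l 16648512) (l 16647360)) (c (l 16641016) (l 16640008))) (b (c (l 16637024) (l 16635560)) (c (l 16628648) (l 16627424)))) (b (l 2) (a (l 16616600) (l 2)))) (a (b (a (b (l 16635584) (l 16632400)) (l 16662664)) (a (c (l 16626664) (l 16626528)) (c (l 16612752) (l 16612512)))) (b (c (l 16687056) (l 16601616)) (a (l 16599512)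 (l 16587320)))))) (b (l 2) (a (b (l 2) (c (a (l 16578016) (l 2)) (l 16571336))) (l 2)))), by decide +kernel⟩

def k297_A00pm_012_s1 : ∃ t, chk3 f_A00pm_012_s1 t 6 13 1 = true :=
  ⟨(a (c (c (b (a (a (b (l 16610000) (l 16609576)) (b (l 16584784) (a (l 16586096) (l 16578536)))) (b (a (c (l 16581816) (l 16584072)) (l 16571896)) (a (l 16568128) (c (l 16596064) (l 16556552))))) (a (a (b (l 16592088) (l 16584064)) (b (l 16574752) (l 16588168))) (b (l 16551208) (c (l 16626680) (l 16544176))))) (a (b (b (a (l 16614472) (l 16599872)) (b (l 16597992) (l 16592928))) (a (a (l 16636152) (l 16669808)) (c (l 16657072) (l 16657936)))) (b (b (l 16664264) (a (l 16572888) (l 16559352))) (a (l 16641816) (l 16626656))))) (b (a (a (b (c (l 16616864) (b (l 16619784) (l 16614632))) (c (b (l 16608488) (l 16603448)) (b (c (l 16609160) (l 16608976)) (l 16603712)))) (a (c (b (l 16605952) (l 16594320)) (b (l 16606440) (b (l 16597904) (l 16592176)))) (b (l 16599216) (b (l 16590216) (l 16584288))))) (b (c (l 16665696) (a (l 16588432)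 (l 16575112))) (a (b (l 16579280) (a (l 16576608) (l 16569144))) (a (l 16565408) (l 16558544))))) (c (a (a (b (l 16595856) (l 16584872)) (b (l 16579960) (l 16569040))) (b (a (l 16564368) (l 16549328)) (a (l 16553536) (l 16538504)))) (b (a (a (a (l 16599304) (l 16591416)) (a (a (l 16585608) (l 16581744)) (l 16575880))) (a (c (l 16564536) (l 16564080)) (l 16549464))) (a (c (a (l 16583904) (a (l 16572104) (l 16564320))) (a (a (l 16586864) (l 16578928)) (a (a (l 16573032) (l 16569144)) (l 16563320)))) (a (a (l 16556176) (l 16548616)) (l 16537504))))))) (a (a (b (b (c (l 16562880) (l 16563504)) (c (l 16545744) (l 16548840))) (a (b (b (l 16540280) (l 6)) (l 6)) (l 6))) (l 6)) (l 6))), by decide +kernel⟩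

def k298_A00pm_012_s1 : ∃ t, chk3 f_A00pm_012_s1 t 7 6 1 = true :=
  ⟨(l 6), by decide +kernel⟩

def k299_A00pm_012_s1 : ∃ t, chk3 f_A00pm_012_s1 t 12 28 1 = true :=
  ⟨(c (a (b (c (a (l 16574392) (l 16558152)) (a (l 16573936) (l 16558176))) (a (l 16602792) (a (l 16549376) (l 16541744)))) (a (b (l 16542720) (l 16530376)) (b (l 16527544) (l 6)))) (c (a (b (a (b (l 16575888) (l 16569192)) (a (l 16560912) (l 16553176))) (a (b (l 16561528) (l 16553016)) (a (l 16546088) (l 16538544)))) (b (a (l 16541696) (l 16526760)) (a (b (l 16531240) (l 16523256)) (l 6)))) (a (b (c (a (b (l 16574424) (l 16567408)) (b (l 16558856) (a (l 16555816) (l 16548128)))) (a (b (a (l 16577112) (l 16569224)) (a (l 16569832) (l 16562064))) (b (a (c (l 16561768) (l 16561032)) (l 16553648)) (a (a (l 16556248) (l 16552384)) (l 16546608))))) (c (a (a (l 16558800) (l 16551280)) (b (a (l 16548000) (l 16540408)) (a (l 16539344) (l 16531904)))) (a (a (b (l 16561560) (l 16552416)) (b (l 16553920) (l 16544928))) (a (a (b (l 16548192) (l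 16539296)) (b (l 16544392) (l 16535560))) (b (l 16538680) (c (l 16530472) (l 16529456))))))) (a (b (c (l 16540144) (b (l 16542224) (l 16535200))) (a (c (l 16528712) (b (l 16531112) (l 16522488))) (b (l 16524504) (l 16516056)))) (b (b (l 16528072) (l 16521184)) (l 6)))))), by decide +kernel⟩

def k300_A00pm_012_s1 : ∃ t, chk3 f_A00pm_012_s1 t 12 29 1 = true :=
  ⟨(c (a (a (b (c (b (l 16549920) (l 16541136)) (l 16584096)) (c (b (l 16532528) (l 16524672)) (l 16524232))) (a (b (l 16533128) (a (l 16517824) (l 16514464))) (b (l 16525856) (l 16509320)))) (a (b (l 16514912) (l 6)) (l 6))) (a (c (b (a (a (l 16542176) (l 16535144)) (a (l 16527968) (l 16520760))) (a (b (l 16524160) (l 16515456)) (a (l 16530312) (l 16502608)))) (a (b (a (b (l 16543552) (l 16533112)) (b (l 16536256) (l 16526040))) (a (l 16534064) (b (l 16515984) (l 16506952)))) (b (a (a (b (l 16530768) (l 16520680)) (c (l 16523088) (b (l 16526024) (l 16515920)))) (c (b (l 16522688) (l 16512912)) (b (l 16520544) (l 16510560)))) (a (a (b (l 16510800)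 (l 16501832)) (b (l 16507312) (l 16498456))) (b (l 16502088) (l 16493360)))))) (a (a (b (c (l 16513536) (c (b (l 16515384) (l 16505752)) (b (l 16513216) (l 16503376)))) (l 6)) (l 6)) (l 6)))), by decide +kernel⟩

def k301_A00pm_012_s1 : ∃ t, chk3 f_A00pm_012_s1 t 13 14 1 = true :=
  ⟨(l 6), by decide +kernel⟩

def k302_A00pm_012_s1 : ∃ t, chk3 f_A00pm_012_s1 t 6 15 1 = true :=
  ⟨(a (a (b (b (b (c (a (l 16556992) (c (l 16504080) (l 16499216))) (a (c (l 16507560) (l 16502344)) (a (a (l 16496424) (l 16493080)) (l 6)))) (a (a (l 16506688) (a (l 16501384) (l 16497936))) (l 6))) (a (a (b (l 16500272) (l 16493864)) (a (b (l 16494904) (l 6)) (l 6))) (l 6))) (l 6)) (l 6)) (l 6)), by decide +kernel⟩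

def k303_A00pm_012_s1 : ∃ t, chk3 f_A00pm_012_s1 t 7 7 1 = true :=
  ⟨(l 6), by decide +kernel⟩

theorem t304_A00pm_012_s1 : ∃ t, chk3 f_A00pm_012_s1 t 12 14 1 = true := ex3_b k299_A00pm_012_s1 k300_A00pm_012_s1

theorem t305_A00pm_012_s1 : ∃ t, chk3 f_A00pm_012_s1 t 6 14 1 = true := ex3_a t304_A00pm_012_s1 k301_A00pm_012_s1

theorem t306_A00pm_012_s1 : ∃ t, chk3 f_A00pm_012_s1 t 6 7 1 = true := ex3_b t305_A00pm_012_s1 k302_A00pm_012_s1

theorem t307_A00pm_012_s1 : ∃ t, chk3 f_A00pm_012_s1 t 3 7 1 = true := ex3_a t306_A00pm_012_s1 k303_A00pm_012_s1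

theorem t308_A00pm_012_s1 : ∃ t, chk3 f_A00pm_012_s1 t 6 6 1 = true := ex3_b k296_A00pm_012_s1 k297_A00pm_012_s1

theorem t309_A00pm_012_s1 : ∃ t, chk3 f_A00pm_012_s1 t 3 6 1 = true := ex3_a t308_A00pm_012_s1 k298_A00pm_012_s1

theorem t310_A00pm_012_s1 : ∃ t, chk3 f_A00pm_012_s1 t 3 3 1 = true := ex3_b t309_A00pm_012_s1 t307_A00pm_012_s1

theorem t311_A00pm_012_s1 : ∃ t, chk3 f_A00pm_012_s1 t 3 1 1 = true := ex3_b k295_A00pm_012_s1 t310_A00pm_012_s1

theorem t312_A00pm_012_s1 : ∃ t, chk3 f_A00pm_012_s1 t 11 7 1 = true := ex3_b k293_A00pm_012_s1 k294_A00pm_012_s1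

theorem t313_A00pm_012_s1 : ∃ t, chk3 f_A00pm_012_s1 t 83 15 1 = true := ex3_a k290_A00pm_012_s1 k291_A00pm_012_s1

theorem t314_A00pm_012_s1 : ∃ t, chk3 f_A00pm_012_s1 t 82 15 1 = true := ex3_b k288_A00pm_012_s1 k289_A00pm_012_s1

theorem t315_A00pm_012_s1 : ∃ t, chk3 f_A00pm_012_s1 t 41 15 1 = true := ex3_a t314_A00pm_012_s1 t313_A00pm_012_s1

theorem t316_A00pm_012_s1 : ∃ t, chk3 f_A00pm_012_s1 t 40 31 1 = true := ex3_b k286_A00pm_012_s1 k287_A00pm_012_s1

theorem t317_A00pm_012_s1 : ∃ t, chk3 f_A00pm_012_s1 t 40 30 1 = true := ex3_a k284_A00pm_012_s1 k285_A00pm_012_s1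

theorem t318_A00pm_012_s1 : ∃ t, chk3 f_A00pm_012_s1 t 40 15 1 = true := ex3_b t317_A00pm_012_s1 t316_A00pm_012_s1

theorem t319_A00pm_012_s1 : ∃ t, chk3 f_A00pm_012_s1 t 20 15 1 = true := ex3_a t318_A00pm_012_s1 t315_A00pm_012_s1

theorem t320_A00pm_012_s1 : ∃ t, chk3 f_A00pm_012_s1 t 10 15 1 = true := ex3_a t319_A00pm_012_s1 k292_A00pm_012_s1

theorem t321_A00pm_012_s1 : ∃ t, chk3 f_A00pm_012_s1 t 21 14 1 = true := ex3_b k282_A00pm_012_s1 k283_A00pm_012_s1

theorem t322_A00pm_012_s1 : ∃ t, chk3 f_A00pm_012_s1 t 167 29 1 = true := ex3_a k280_A00pm_012_s1 k281_A00pm_012_s1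

theorem t323_A00pm_012_s1 : ∃ t, chk3 f_A00pm_012_s1 t 83 29 1 = true := ex3_a k279_A00pm_012_s1 t322_A00pm_012_s1

theorem t324_A00pm_012_s1 : ∃ t, chk3 f_A00pm_012_s1 t 167 28 1 = true := ex3_a k277_A00pm_012_s1 k278_A00pm_012_s1

theorem t325_A00pm_012_s1 : ∃ t, chk3 f_A00pm_012_s1 t 83 28 1 = true := ex3_a k276_A00pm_012_s1 t324_A00pm_012_s1

theorem t326_A00pm_012_s1 : ∃ t, chk3 f_A00pm_012_s1 t 83 14 1 = true := ex3_b t325_A00pm_012_s1 t323_A00pm_012_s1

theorem t327_A00pm_012_s1 : ∃ t, chk3 f_A00pm_012_s1 t 82 29 1 = true := ex3_b k274_A00pm_012_s1 k275_A00pm_012_s1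

theorem t328_A00pm_012_s1 : ∃ t, chk3 f_A00pm_012_s1 t 82 28 1 = true := ex3_b k272_A00pm_012_s1 k273_A00pm_012_s1

theorem t329_A00pm_012_s1 : ∃ t, chk3 f_A00pm_012_s1 t 82 14 1 = true := ex3_b t328_A00pm_012_s1 t327_A00pm_012_s1

theorem t330_A00pm_012_s1 : ∃ t, chk3 f_A00pm_012_s1 t 41 14 1 = true := ex3_a t329_A00pm_012_s1 t326_A00pm_012_s1

theorem t331_A00pm_012_s1 : ∃ t, chk3 f_A00pm_012_s1 t 81 29 1 = true := ex3_b k270_A00pm_012_s1 k271_A00pm_012_s1

theorem t332_A00pm_012_s1 : ∃ t, chk3 f_A00pm_012_s1 t 40 29 1 = true := ex3_a k269_A00pm_012_s1 t331_A00pm_012_s1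

theorem t333_A00pm_012_s1 : ∃ t, chk3 f_A00pm_012_s1 t 40 57 1 = true := ex3_a k267_A00pm_012_s1 k268_A00pm_012_s1

theorem t334_A00pm_012_s1 : ∃ t, chk3 f_A00pm_012_s1 t 163 56 1 = true := ex3_b k265_A00pm_012_s1 k266_A00pm_012_s1

theorem t335_A00pm_012_s1 : ∃ t, chk3 f_A00pm_012_s1 t 81 56 1 = true := ex3_a k264_A00pm_012_s1 t334_A00pm_012_s1

theorem t336_A00pm_012_s1 : ∃ t, chk3 f_A00pm_012_s1 t 40 56 1 = true := ex3_a k263_A00pm_012_s1 t335_A00pm_012_s1

theorem t337_A00pm_012_s1 : ∃ t, chk3 f_A00pm_012_s1 t 40 28 1 = true := ex3_b t336_A00pm_012_s1 t333_A00pm_012_s1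

theorem t338_A00pm_012_s1 : ∃ t, chk3 f_A00pm_012_s1 t 40 14 1 = true := ex3_b t337_A00pm_012_s1 t332_A00pm_012_s1

theorem t339_A00pm_012_s1 : ∃ t, chk3 f_A00pm_012_s1 t 20 14 1 = true := ex3_a t338_A00pm_012_s1 t330_A00pm_012_s1

theorem t340_A00pm_012_s1 : ∃ t, chk3 f_A00pm_012_s1 t 10 14 1 = true := ex3_a t339_A00pm_012_s1 t321_A00pm_012_s1

theorem t341_A00pm_012_s1 : ∃ t, chk3 f_A00pm_012_s1 t 10 7 1 = true := ex3_b t340_A00pm_012_s1 t320_A00pm_012_s1

theorem t342_A00pm_012_s1 : ∃ t, chk3 f_A00pm_012_s1 t 5 7 1 = true := ex3_a t341_A00pm_012_s1 t312_A00pm_012_s1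

theorem t343_A00pm_012_s1 : ∃ t, chk3 f_A00pm_012_s1 t 11 6 1 = true := ex3_b k261_A00pm_012_s1 k262_A00pm_012_s1

theorem t344_A00pm_012_s1 : ∃ t, chk3 f_A00pm_012_s1 t 21 13 1 = true := ex3_b k259_A00pm_012_s1 k260_A00pm_012_s1

theorem t345_A00pm_012_s1 : ∃ t, chk3 f_A00pm_012_s1 t 21 6 1 = true := ex3_b k258_A00pm_012_s1 t344_A00pm_012_s1

theorem t346_A00pm_012_s1 : ∃ t, chk3 f_A00pm_012_s1 t 335 27 1 = true := ex3_a k256_A00pm_012_s1 k257_A00pm_012_s1

theorem t347_A00pm_012_s1 : ∃ t, chk3 f_A00pm_012_s1 t 167 27 1 = true := ex3_a k255_A00pm_012_s1 t346_A00pm_012_s1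

theorem t348_A00pm_012_s1 : ∃ t, chk3 f_A00pm_012_s1 t 670 26 1 = true := ex3_a k252_A00pm_012_s1 k253_A00pm_012_s1

theorem t349_A00pm_012_s1 : ∃ t, chk3 f_A00pm_012_s1 t 335 26 1 = true := ex3_a t348_A00pm_012_s1 k254_A00pm_012_s1

theorem t350_A00pm_012_s1 : ∃ t, chk3 f_A00pm_012_s1 t 334 26 1 = true := ex3_a k250_A00pm_012_s1 k251_A00pm_012_s1

theorem t351_A00pm_012_s1 : ∃ t, chk3 f_A00pm_012_s1 t 167 26 1 = true := ex3_a t350_A00pm_012_s1 t349_A00pm_012_s1

theorem t352_A00pm_012_s1 : ∃ t, chk3 f_A00pm_012_s1 t 167 13 1 = true := ex3_b t351_A00pm_012_s1 t347_A00pm_012_s1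

theorem t353_A00pm_012_s1 : ∃ t, chk3 f_A00pm_012_s1 t 334 25 1 = true := ex3_a k247_A00pm_012_s1 k248_A00pm_012_s1

theorem t354_A00pm_012_s1 : ∃ t, chk3 f_A00pm_012_s1 t 167 25 1 = true := ex3_a t353_A00pm_012_s1 k249_A00pm_012_s1

theorem t355_A00pm_012_s1 : ∃ t, chk3 f_A00pm_012_s1 t 670 24 1 = true := ex3_a k244_A00pm_012_s1 k245_A00pm_012_s1

theorem t356_A00pm_012_s1 : ∃ t, chk3 f_A00pm_012_s1 t 335 24 1 = true := ex3_a t355_A00pm_012_s1 k246_A00pm_012_s1

theorem t357_A00pm_012_s1 : ∃ t, chk3 f_A00pm_012_s1 t 167 24 1 = true := ex3_a k243_A00pm_012_s1 t356_A00pm_012_s1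

theorem t358_A00pm_012_s1 : ∃ t, chk3 f_A00pm_012_s1 t 167 12 1 = true := ex3_b t357_A00pm_012_s1 t354_A00pm_012_s1

theorem t359_A00pm_012_s1 : ∃ t, chk3 f_A00pm_012_s1 t 167 6 1 = true := ex3_b t358_A00pm_012_s1 t352_A00pm_012_s1

theorem t360_A00pm_012_s1 : ∃ t, chk3 f_A00pm_012_s1 t 166 54 1 = true := ex3_a k240_A00pm_012_s1 k241_A00pm_012_s1

theorem t361_A00pm_012_s1 : ∃ t, chk3 f_A00pm_012_s1 t 166 27 1 = true := ex3_b t360_A00pm_012_s1 k242_A00pm_012_s1

theorem t362_A00pm_012_s1 : ∃ t, chk3 f_A00pm_012_s1 t 166 13 1 = true := ex3_b k239_A00pm_012_s1 t361_A00pm_012_s1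

theorem t363_A00pm_012_s1 : ∃ t, chk3 f_A00pm_012_s1 t 166 12 1 = true := ex3_b k237_A00pm_012_s1 k238_A00pm_012_s1

theorem t364_A00pm_012_s1 : ∃ t, chk3 f_A00pm_012_s1 t 166 6 1 = true := ex3_b t363_A00pm_012_s1 t362_A00pm_012_s1

theorem t365_A00pm_012_s1 : ∃ t, chk3 f_A00pm_012_s1 t 83 6 1 = true := ex3_a t364_A00pm_012_s1 t359_A00pm_012_s1

theorem t366_A00pm_012_s1 : ∃ t, chk3 f_A00pm_012_s1 t 165 55 1 = true := ex3_b k235_A00pm_012_s1 k236_A00pm_012_s1

theorem t367_A00pm_012_s1 : ∃ t, chk3 f_A00pm_012_s1 t 82 55 1 = true := ex3_a k234_A00pm_012_s1 t366_A00pm_012_s1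

theorem t368_A00pm_012_s1 : ∃ t, chk3 f_A00pm_012_s1 t 82 27 1 = true := ex3_b k233_A00pm_012_s1 t367_A00pm_012_s1

theorem t369_A00pm_012_s1 : ∃ t, chk3 f_A00pm_012_s1 t 82 13 1 = true := ex3_b k232_A00pm_012_s1 t368_A00pm_012_s1

theorem t370_A00pm_012_s1 : ∃ t, chk3 f_A00pm_012_s1 t 328 201 1 = true := ex3_a k226_A00pm_012_s1 k227_A00pm_012_s1

theorem t371_A00pm_012_s1 : ∃ t, chk3 f_A00pm_012_s1 t 328 100 1 = true := ex3_b k225_A00pm_012_s1 t370_A00pm_012_s1

theorem t372_A00pm_012_s1 : ∃ t, chk3 f_A00pm_012_s1 t 164 100 1 = true := ex3_a t371_A00pm_012_s1 k228_A00pm_012_s1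

theorem t373_A00pm_012_s1 : ∃ t, chk3 f_A00pm_012_s1 t 164 50 1 = true := ex3_b t372_A00pm_012_s1 k229_A00pm_012_s1

theorem t374_A00pm_012_s1 : ∃ t, chk3 f_A00pm_012_s1 t 164 25 1 = true := ex3_b t373_A00pm_012_s1 k230_A00pm_012_s1

theorem t375_A00pm_012_s1 : ∃ t, chk3 f_A00pm_012_s1 t 82 25 1 = true := ex3_a t374_A00pm_012_s1 k231_A00pm_012_s1

theorem t376_A00pm_012_s1 : ∃ t, chk3 f_A00pm_012_s1 t 165 49 1 = true := ex3_b k223_A00pm_012_s1 k224_A00pm_012_s1

theorem t377_A00pm_012_s1 : ∃ t, chk3 f_A00pm_012_s1 t 165 48 1 = true := ex3_a k221_A00pm_012_s1 k222_A00pm_012_s1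

theorem t378_A00pm_012_s1 : ∃ t, chk3 f_A00pm_012_s1 t 165 24 1 = true := ex3_b t377_A00pm_012_s1 t376_A00pm_012_s1

theorem t379_A00pm_012_s1 : ∃ t, chk3 f_A00pm_012_s1 t 164 199 3 = true := ex3_b k219_A00pm_012_s1 k220_A00pm_012_s1

theorem t380_A00pm_012_s1 : ∃ t, chk3 f_A00pm_012_s1 t 164 199 1 = true := ex3_c k218_A00pm_012_s1 t379_A00pm_012_s1

theorem t381_A00pm_012_s1 : ∃ t, chk3 f_A00pm_012_s1 t 164 99 1 = true := ex3_b k217_A00pm_012_s1 t380_A00pm_012_s1

theorem t382_A00pm_012_s1 : ∃ t, chk3 f_A00pm_012_s1 t 164 49 1 = true := ex3_b k216_A00pm_012_s1 t381_A00pm_012_s1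

theorem t383_A00pm_012_s1 : ∃ t, chk3 f_A00pm_012_s1 t 164 24 1 = true := ex3_b k215_A00pm_012_s1 t382_A00pm_012_s1

theorem t384_A00pm_012_s1 : ∃ t, chk3 f_A00pm_012_s1 t 82 24 1 = true := ex3_a t383_A00pm_012_s1 t378_A00pm_012_s1

theorem t385_A00pm_012_s1 : ∃ t, chk3 f_A00pm_012_s1 t 82 12 1 = true := ex3_b t384_A00pm_012_s1 t375_A00pm_012_s1

theorem t386_A00pm_012_s1 : ∃ t, chk3 f_A00pm_012_s1 t 82 6 1 = true := ex3_b t385_A00pm_012_s1 t369_A00pm_012_s1

theorem t387_A00pm_012_s1 : ∃ t, chk3 f_A00pm_012_s1 t 41 6 1 = true := ex3_a t386_A00pm_012_s1 t365_A00pm_012_s1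

theorem t388_A00pm_012_s1 : ∃ t, chk3 f_A00pm_012_s1 t 80 26 1 = true := ex3_b k211_A00pm_012_s1 k212_A00pm_012_s1

theorem t389_A00pm_012_s1 : ∃ t, chk3 f_A00pm_012_s1 t 40 26 1 = true := ex3_a t388_A00pm_012_s1 k213_A00pm_012_s1

theorem t390_A00pm_012_s1 : ∃ t, chk3 f_A00pm_012_s1 t 40 13 1 = true := ex3_b t389_A00pm_012_s1 k214_A00pm_012_s1

theorem t391_A00pm_012_s1 : ∃ t, chk3 f_A00pm_012_s1 t 163 50 1 = true := ex3_a k208_A00pm_012_s1 k209_A00pm_012_s1

theorem t392_A00pm_012_s1 : ∃ t, chk3 f_A00pm_012_s1 t 163 25 1 = true := ex3_b t391_A00pm_012_s1 k210_A00pm_012_s1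

theorem t393_A00pm_012_s1 : ∃ t, chk3 f_A00pm_012_s1 t 163 12 1 = true := ex3_b k207_A00pm_012_s1 t392_A00pm_012_s1

theorem t394_A00pm_012_s1 : ∃ t, chk3 f_A00pm_012_s1 t 162 96 1 = true := ex3_a k202_A00pm_012_s1 k203_A00pm_012_s1

theorem t395_A00pm_012_s1 : ∃ t, chk3 f_A00pm_012_s1 t 162 48 1 = true := ex3_b t394_A00pm_012_s1 k204_A00pm_012_s1

theorem t396_A00pm_012_s1 : ∃ t, chk3 f_A00pm_012_s1 t 162 24 1 = true := ex3_b t395_A00pm_012_s1 k205_A00pm_012_s1

theorem t397_A00pm_012_s1 : ∃ t, chk3 f_A00pm_012_s1 t 162 12 1 = true := ex3_b t396_A00pm_012_s1 k206_A00pm_012_s1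

theorem t398_A00pm_012_s1 : ∃ t, chk3 f_A00pm_012_s1 t 81 12 1 = true := ex3_a t397_A00pm_012_s1 t393_A00pm_012_s1

theorem t399_A00pm_012_s1 : ∃ t, chk3 f_A00pm_012_s1 t 641 100 1 = true := ex3_c k196_A00pm_012_s1 k197_A00pm_012_s1

theorem t400_A00pm_012_s1 : ∃ t, chk3 f_A00pm_012_s1 t 641 50 1 = true := ex3_b t399_A00pm_012_s1 k198_A00pm_012_s1

theorem t401_A00pm_012_s1 : ∃ t, chk3 f_A00pm_012_s1 t 320 50 1 = true := ex3_a k195_A00pm_012_s1 t400_A00pm_012_s1

theorem t402_A00pm_012_s1 : ∃ t, chk3 f_A00pm_012_s1 t 160 50 1 = true := ex3_a t401_A00pm_012_s1 k199_A00pm_012_s1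

theorem t403_A00pm_012_s1 : ∃ t, chk3 f_A00pm_012_s1 t 160 25 1 = true := ex3_b t402_A00pm_012_s1 k200_A00pm_012_s1

theorem t404_A00pm_012_s1 : ∃ t, chk3 f_A00pm_012_s1 t 80 25 1 = true := ex3_a t403_A00pm_012_s1 k201_A00pm_012_s1

theorem t405_A00pm_012_s1 : ∃ t, chk3 f_A00pm_012_s1 t 161 24 1 = true := ex3_b k193_A00pm_012_s1 k194_A00pm_012_s1

theorem t406_A00pm_012_s1 : ∃ t, chk3 f_A00pm_012_s1 t 80 24 1 = true := ex3_a k192_A00pm_012_s1 t405_A00pm_012_s1

theorem t407_A00pm_012_s1 : ∃ t, chk3 f_A00pm_012_s1 t 80 12 1 = true := ex3_b t406_A00pm_012_s1 t404_A00pm_012_s1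

theorem t408_A00pm_012_s1 : ∃ t, chk3 f_A00pm_012_s1 t 40 12 1 = true := ex3_a t407_A00pm_012_s1 t398_A00pm_012_s1

theorem t409_A00pm_012_s1 : ∃ t, chk3 f_A00pm_012_s1 t 40 6 1 = true := ex3_b t408_A00pm_012_s1 t390_A00pm_012_s1

theorem t410_A00pm_012_s1 : ∃ t, chk3 f_A00pm_012_s1 t 20 6 1 = true := ex3_a t409_A00pm_012_s1 t387_A00pm_012_s1

theorem t411_A00pm_012_s1 : ∃ t, chk3 f_A00pm_012_s1 t 10 6 1 = true := ex3_a t410_A00pm_012_s1 t345_A00pm_012_s1

theorem t412_A00pm_012_s1 : ∃ t, chk3 f_A00pm_012_s1 t 5 6 1 = true := ex3_a t411_A00pm_012_s1 t343_A00pm_012_s1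

theorem t413_A00pm_012_s1 : ∃ t, chk3 f_A00pm_012_s1 t 5 3 1 = true := ex3_b t412_A00pm_012_s1 t342_A00pm_012_s1

theorem t414_A00pm_012_s1 : ∃ t, chk3 f_A00pm_012_s1 t 21 23 1 = true := ex3_b k189_A00pm_012_s1 k190_A00pm_012_s1

theorem t415_A00pm_012_s1 : ∃ t, chk3 f_A00pm_012_s1 t 21 22 1 = true := ex3_b k187_A00pm_012_s1 k188_A00pm_012_s1

theorem t416_A00pm_012_s1 : ∃ t, chk3 f_A00pm_012_s1 t 21 11 1 = true := ex3_b t415_A00pm_012_s1 t414_A00pm_012_s1

theorem t417_A00pm_012_s1 : ∃ t, chk3 f_A00pm_012_s1 t 21 5 1 = true := ex3_b k186_A00pm_012_s1 t416_A00pm_012_s1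

theorem t418_A00pm_012_s1 : ∃ t, chk3 f_A00pm_012_s1 t 21 2 1 = true := ex3_b k185_A00pm_012_s1 t417_A00pm_012_s1

theorem t419_A00pm_012_s1 : ∃ t, chk3 f_A00pm_012_s1 t 10731 11 1 = true := ex3_a k181_A00pm_012_s1 k182_A00pm_012_s1

theorem t420_A00pm_012_s1 : ∃ t, chk3 f_A00pm_012_s1 t 5365 11 1 = true := ex3_a k180_A00pm_012_s1 t419_A00pm_012_s1

theorem t421_A00pm_012_s1 : ∃ t, chk3 f_A00pm_012_s1 t 2682 11 1 = true := ex3_a k179_A00pm_012_s1 t420_A00pm_012_s1

theorem t422_A00pm_012_s1 : ∃ t, chk3 f_A00pm_012_s1 t 1341 11 1 = true := ex3_a t421_A00pm_012_s1 k183_A00pm_012_s1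

theorem t423_A00pm_012_s1 : ∃ t, chk3 f_A00pm_012_s1 t 1340 46 2 = true := ex3_a k175_A00pm_012_s1 k176_A00pm_012_s1

theorem t424_A00pm_012_s1 : ∃ t, chk3 f_A00pm_012_s1 t 1340 46 1 = true := ex3_c t423_A00pm_012_s1 k177_A00pm_012_s1

theorem t425_A00pm_012_s1 : ∃ t, chk3 f_A00pm_012_s1 t 1340 23 1 = true := ex3_b t424_A00pm_012_s1 k178_A00pm_012_s1

theorem t426_A00pm_012_s1 : ∃ t, chk3 f_A00pm_012_s1 t 2681 45 1 = true := ex3_b k173_A00pm_012_s1 k174_A00pm_012_s1

theorem t427_A00pm_012_s1 : ∃ t, chk3 f_A00pm_012_s1 t 1340 45 1 = true := ex3_a k172_A00pm_012_s1 t426_A00pm_012_s1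

theorem t428_A00pm_012_s1 : ∃ t, chk3 f_A00pm_012_s1 t 1340 44 1 = true := ex3_a k170_A00pm_012_s1 k171_A00pm_012_s1

theorem t429_A00pm_012_s1 : ∃ t, chk3 f_A00pm_012_s1 t 1340 22 1 = true := ex3_b t428_A00pm_012_s1 t427_A00pm_012_s1

theorem t430_A00pm_012_s1 : ∃ t, chk3 f_A00pm_012_s1 t 1340 11 1 = true := ex3_b t429_A00pm_012_s1 t425_A00pm_012_s1

theorem t431_A00pm_012_s1 : ∃ t, chk3 f_A00pm_012_s1 t 670 11 1 = true := ex3_a t430_A00pm_012_s1 t422_A00pm_012_s1

theorem t432_A00pm_012_s1 : ∃ t, chk3 f_A00pm_012_s1 t 335 11 1 = true := ex3_a t431_A00pm_012_s1 k184_A00pm_012_s1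

theorem t433_A00pm_012_s1 : ∃ t, chk3 f_A00pm_012_s1 t 2679 11 1 = true := ex3_a k168_A00pm_012_s1 k169_A00pm_012_s1

theorem t434_A00pm_012_s1 : ∃ t, chk3 f_A00pm_012_s1 t 2678 22 1 = true := ex3_b k165_A00pm_012_s1 k166_A00pm_012_s1

theorem t435_A00pm_012_s1 : ∃ t, chk3 f_A00pm_012_s1 t 2678 11 1 = true := ex3_b t434_A00pm_012_s1 k167_A00pm_012_s1

theorem t436_A00pm_012_s1 : ∃ t, chk3 f_A00pm_012_s1 t 1339 11 1 = true := ex3_a t435_A00pm_012_s1 t433_A00pm_012_s1

theorem t437_A00pm_012_s1 : ∃ t, chk3 f_A00pm_012_s1 t 1338 45 1 = true := ex3_b k162_A00pm_012_s1 k163_A00pm_012_s1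

theorem t438_A00pm_012_s1 : ∃ t, chk3 f_A00pm_012_s1 t 1338 22 1 = true := ex3_b k161_A00pm_012_s1 t437_A00pm_012_s1

theorem t439_A00pm_012_s1 : ∃ t, chk3 f_A00pm_012_s1 t 1338 11 1 = true := ex3_b t438_A00pm_012_s1 k164_A00pm_012_s1

theorem t440_A00pm_012_s1 : ∃ t, chk3 f_A00pm_012_s1 t 669 11 1 = true := ex3_a t439_A00pm_012_s1 t436_A00pm_012_s1

theorem t441_A00pm_012_s1 : ∃ t, chk3 f_A00pm_012_s1 t 668 23 1 = true := ex3_b k159_A00pm_012_s1 k160_A00pm_012_s1

theorem t442_A00pm_012_s1 : ∃ t, chk3 f_A00pm_012_s1 t 668 45 3 = true := ex3_a k157_A00pm_012_s1 k158_A00pm_012_s1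

theorem t443_A00pm_012_s1 : ∃ t, chk3 f_A00pm_012_s1 t 668 45 1 = true := ex3_c k156_A00pm_012_s1 t442_A00pm_012_s1

theorem t444_A00pm_012_s1 : ∃ t, chk3 f_A00pm_012_s1 t 668 22 1 = true := ex3_b k155_A00pm_012_s1 t443_A00pm_012_s1

theorem t445_A00pm_012_s1 : ∃ t, chk3 f_A00pm_012_s1 t 668 11 1 = true := ex3_b t444_A00pm_012_s1 t441_A00pm_012_s1

theorem t446_A00pm_012_s1 : ∃ t, chk3 f_A00pm_012_s1 t 334 11 1 = true := ex3_a t445_A00pm_012_s1 t440_A00pm_012_s1

theorem t447_A00pm_012_s1 : ∃ t, chk3 f_A00pm_012_s1 t 167 11 1 = true := ex3_a t446_A00pm_012_s1 t432_A00pm_012_s1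

theorem t448_A00pm_012_s1 : ∃ t, chk3 f_A00pm_012_s1 t 333 46 3 = true := ex3_b k152_A00pm_012_s1 k153_A00pm_012_s1

theorem t449_A00pm_012_s1 : ∃ t, chk3 f_A00pm_012_s1 t 333 23 3 = true := ex3_b t448_A00pm_012_s1 k154_A00pm_012_s1

theorem t450_A00pm_012_s1 : ∃ t, chk3 f_A00pm_012_s1 t 333 22 3 = true := ex3_a k150_A00pm_012_s1 k151_A00pm_012_s1

theorem t451_A00pm_012_s1 : ∃ t, chk3 f_A00pm_012_s1 t 333 11 3 = true := ex3_b t450_A00pm_012_s1 t449_A00pm_012_s1

theorem t452_A00pm_012_s1 : ∃ t, chk3 f_A00pm_012_s1 t 333 23 2 = true := ex3_b k148_A00pm_012_s1 k149_A00pm_012_s1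

theorem t453_A00pm_012_s1 : ∃ t, chk3 f_A00pm_012_s1 t 333 22 2 = true := ex3_a k146_A00pm_012_s1 k147_A00pm_012_s1

theorem t454_A00pm_012_s1 : ∃ t, chk3 f_A00pm_012_s1 t 333 11 2 = true := ex3_b t453_A00pm_012_s1 t452_A00pm_012_s1

theorem t455_A00pm_012_s1 : ∃ t, chk3 f_A00pm_012_s1 t 333 11 1 = true := ex3_c t454_A00pm_012_s1 t451_A00pm_012_s1

theorem t456_A00pm_012_s1 : ∃ t, chk3 f_A00pm_012_s1 t 332 23 1 = true := ex3_b k144_A00pm_012_s1 k145_A00pm_012_s1

theorem t457_A00pm_012_s1 : ∃ t, chk3 f_A00pm_012_s1 t 332 11 1 = true := ex3_b k143_A00pm_012_s1 t456_A00pm_012_s1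

theorem t458_A00pm_012_s1 : ∃ t, chk3 f_A00pm_012_s1 t 166 11 1 = true := ex3_a t457_A00pm_012_s1 t455_A00pm_012_s1

theorem t459_A00pm_012_s1 : ∃ t, chk3 f_A00pm_012_s1 t 83 11 1 = true := ex3_a t458_A00pm_012_s1 t447_A00pm_012_s1

theorem t460_A00pm_012_s1 : ∃ t, chk3 f_A00pm_012_s1 t 165 11 1 = true := ex3_b k141_A00pm_012_s1 k142_A00pm_012_s1

theorem t461_A00pm_012_s1 : ∃ t, chk3 f_A00pm_012_s1 t 164 11 1 = true := ex3_b k139_A00pm_012_s1 k140_A00pm_012_s1

theorem t462_A00pm_012_s1 : ∃ t, chk3 f_A00pm_012_s1 t 82 11 1 = true := ex3_a t461_A00pm_012_s1 t460_A00pm_012_s1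

theorem t463_A00pm_012_s1 : ∃ t, chk3 f_A00pm_012_s1 t 41 11 1 = true := ex3_a t462_A00pm_012_s1 t459_A00pm_012_s1

theorem t464_A00pm_012_s1 : ∃ t, chk3 f_A00pm_012_s1 t 83 43 7 = true := ex3_a k137_A00pm_012_s1 k138_A00pm_012_s1

theorem t465_A00pm_012_s1 : ∃ t, chk3 f_A00pm_012_s1 t 83 21 7 = true := ex3_b k136_A00pm_012_s1 t464_A00pm_012_s1

theorem t466_A00pm_012_s1 : ∃ t, chk3 f_A00pm_012_s1 t 83 43 6 = true := ex3_a k134_A00pm_012_s1 k135_A00pm_012_s1

theorem t467_A00pm_012_s1 : ∃ t, chk3 f_A00pm_012_s1 t 83 21 6 = true := ex3_b k133_A00pm_012_s1 t466_A00pm_012_s1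

theorem t468_A00pm_012_s1 : ∃ t, chk3 f_A00pm_012_s1 t 83 21 3 = true := ex3_c t467_A00pm_012_s1 t465_A00pm_012_s1

theorem t469_A00pm_012_s1 : ∃ t, chk3 f_A00pm_012_s1 t 41 21 3 = true := ex3_a k132_A00pm_012_s1 t468_A00pm_012_s1

theorem t470_A00pm_012_s1 : ∃ t, chk3 f_A00pm_012_s1 t 41 10 3 = true := ex3_b k131_A00pm_012_s1 t469_A00pm_012_s1

theorem t471_A00pm_012_s1 : ∃ t, chk3 f_A00pm_012_s1 t 83 43 5 = true := ex3_a k129_A00pm_012_s1 k130_A00pm_012_s1

theorem t472_A00pm_012_s1 : ∃ t, chk3 f_A00pm_012_s1 t 83 42 5 = true := ex3_c k127_A00pm_012_s1 k128_A00pm_012_s1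

theorem t473_A00pm_012_s1 : ∃ t, chk3 f_A00pm_012_s1 t 83 21 5 = true := ex3_b t472_A00pm_012_s1 t471_A00pm_012_s1

theorem t474_A00pm_012_s1 : ∃ t, chk3 f_A00pm_012_s1 t 83 43 4 = true := ex3_a k125_A00pm_012_s1 k126_A00pm_012_s1

theorem t475_A00pm_012_s1 : ∃ t, chk3 f_A00pm_012_s1 t 83 42 8 = true := ex3_a k122_A00pm_012_s1 k123_A00pm_012_s1

theorem t476_A00pm_012_s1 : ∃ t, chk3 f_A00pm_012_s1 t 83 42 4 = true := ex3_c t475_A00pm_012_s1 k124_A00pm_012_s1

theorem t477_A00pm_012_s1 : ∃ t, chk3 f_A00pm_012_s1 t 83 21 4 = true := ex3_b t476_A00pm_012_s1 t474_A00pm_012_s1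

theorem t478_A00pm_012_s1 : ∃ t, chk3 f_A00pm_012_s1 t 83 21 2 = true := ex3_c t477_A00pm_012_s1 t473_A00pm_012_s1

theorem t479_A00pm_012_s1 : ∃ t, chk3 f_A00pm_012_s1 t 41 21 2 = true := ex3_a k121_A00pm_012_s1 t478_A00pm_012_s1

theorem t480_A00pm_012_s1 : ∃ t, chk3 f_A00pm_012_s1 t 41 20 2 = true := ex3_c k119_A00pm_012_s1 k120_A00pm_012_s1

theorem t481_A00pm_012_s1 : ∃ t, chk3 f_A00pm_012_s1 t 41 10 2 = true := ex3_b t480_A00pm_012_s1 t479_A00pm_012_s1

theorem t482_A00pm_012_s1 : ∃ t, chk3 f_A00pm_012_s1 t 41 10 1 = true := ex3_c t481_A00pm_012_s1 t470_A00pm_012_s1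

theorem t483_A00pm_012_s1 : ∃ t, chk3 f_A00pm_012_s1 t 41 5 1 = true := ex3_b t482_A00pm_012_s1 t463_A00pm_012_s1

theorem t484_A00pm_012_s1 : ∃ t, chk3 f_A00pm_012_s1 t 41 2 1 = true := ex3_b k118_A00pm_012_s1 t483_A00pm_012_s1

theorem t485_A00pm_012_s1 : ∃ t, chk3 f_A00pm_012_s1 t 162 2 6 = true := ex3_c k114_A00pm_012_s1 k115_A00pm_012_s1

theorem t486_A00pm_012_s1 : ∃ t, chk3 f_A00pm_012_s1 t 81 2 6 = true := ex3_a t485_A00pm_012_s1 k116_A00pm_012_s1

theorem t487_A00pm_012_s1 : ∃ t, chk3 f_A00pm_012_s1 t 81 2 3 = true := ex3_c t486_A00pm_012_s1 k117_A00pm_012_s1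

theorem t488_A00pm_012_s1 : ∃ t, chk3 f_A00pm_012_s1 t 40 2 3 = true := ex3_a k113_A00pm_012_s1 t487_A00pm_012_s1

theorem t489_A00pm_012_s1 : ∃ t, chk3 f_A00pm_012_s1 t 162 2 5 = true := ex3_c k110_A00pm_012_s1 k111_A00pm_012_s1

theorem t490_A00pm_012_s1 : ∃ t, chk3 f_A00pm_012_s1 t 81 2 5 = true := ex3_a t489_A00pm_012_s1 k112_A00pm_012_s1

theorem t491_A00pm_012_s1 : ∃ t, chk3 f_A00pm_012_s1 t 163 2 4 = true := ex3_c k108_A00pm_012_s1 k109_A00pm_012_s1

theorem t492_A00pm_012_s1 : ∃ t, chk3 f_A00pm_012_s1 t 81 2 4 = true := ex3_a k107_A00pm_012_s1 t491_A00pm_012_s1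

theorem t493_A00pm_012_s1 : ∃ t, chk3 f_A00pm_012_s1 t 81 2 2 = true := ex3_c t492_A00pm_012_s1 t490_A00pm_012_s1

theorem t494_A00pm_012_s1 : ∃ t, chk3 f_A00pm_012_s1 t 40 2 2 = true := ex3_a k106_A00pm_012_s1 t493_A00pm_012_s1

theorem t495_A00pm_012_s1 : ∃ t, chk3 f_A00pm_012_s1 t 40 2 1 = true := ex3_c t494_A00pm_012_s1 t488_A00pm_012_s1

theorem t496_A00pm_012_s1 : ∃ t, chk3 f_A00pm_012_s1 t 20 2 1 = true := ex3_a t495_A00pm_012_s1 t484_A00pm_012_s1

theorem t497_A00pm_012_s1 : ∃ t, chk3 f_A00pm_012_s1 t 10 2 1 = true := ex3_a t496_A00pm_012_s1 t418_A00pm_012_s1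

theorem t498_A00pm_012_s1 : ∃ t, chk3 f_A00pm_012_s1 t 5 2 1 = true := ex3_a t497_A00pm_012_s1 k191_A00pm_012_s1

theorem t499_A00pm_012_s1 : ∃ t, chk3 f_A00pm_012_s1 t 5 1 1 = true := ex3_b t498_A00pm_012_s1 t413_A00pm_012_s1

theorem t500_A00pm_012_s1 : ∃ t, chk3 f_A00pm_012_s1 t 19 15 1 = true := ex3_b k104_A00pm_012_s1 k105_A00pm_012_s1

theorem t501_A00pm_012_s1 : ∃ t, chk3 f_A00pm_012_s1 t 144 60 1 = true := ex3_b k97_A00pm_012_s1 k98_A00pm_012_s1

theorem t502_A00pm_012_s1 : ∃ t, chk3 f_A00pm_012_s1 t 72 60 1 = true := ex3_a t501_A00pm_012_s1 k99_A00pm_012_s1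

theorem t503_A00pm_012_s1 : ∃ t, chk3 f_A00pm_012_s1 t 36 60 1 = true := ex3_a t502_A00pm_012_s1 k100_A00pm_012_s1

theorem t504_A00pm_012_s1 : ∃ t, chk3 f_A00pm_012_s1 t 36 30 1 = true := ex3_b t503_A00pm_012_s1 k101_A00pm_012_s1

theorem t505_A00pm_012_s1 : ∃ t, chk3 f_A00pm_012_s1 t 18 30 1 = true := ex3_a t504_A00pm_012_s1 k102_A00pm_012_s1

theorem t506_A00pm_012_s1 : ∃ t, chk3 f_A00pm_012_s1 t 18 15 1 = true := ex3_b t505_A00pm_012_s1 k103_A00pm_012_s1

theorem t507_A00pm_012_s1 : ∃ t, chk3 f_A00pm_012_s1 t 9 15 1 = true := ex3_a t506_A00pm_012_s1 t500_A00pm_012_s1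

theorem t508_A00pm_012_s1 : ∃ t, chk3 f_A00pm_012_s1 t 38 59 1 = true := ex3_b k94_A00pm_012_s1 k95_A00pm_012_s1

theorem t509_A00pm_012_s1 : ∃ t, chk3 f_A00pm_012_s1 t 38 29 1 = true := ex3_b k93_A00pm_012_s1 t508_A00pm_012_s1

theorem t510_A00pm_012_s1 : ∃ t, chk3 f_A00pm_012_s1 t 19 29 1 = true := ex3_a t509_A00pm_012_s1 k96_A00pm_012_s1

theorem t511_A00pm_012_s1 : ∃ t, chk3 f_A00pm_012_s1 t 304 229 1 = true := ex3_b k86_A00pm_012_s1 k87_A00pm_012_s1

theorem t512_A00pm_012_s1 : ∃ t, chk3 f_A00pm_012_s1 t 152 229 1 = true := ex3_a t511_A00pm_012_s1 k88_A00pm_012_s1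

theorem t513_A00pm_012_s1 : ∃ t, chk3 f_A00pm_012_s1 t 305 228 1 = true := ex3_b k84_A00pm_012_s1 k85_A00pm_012_s1

theorem t514_A00pm_012_s1 : ∃ t, chk3 f_A00pm_012_s1 t 152 228 1 = true := ex3_a k83_A00pm_012_s1 t513_A00pm_012_s1

theorem t515_A00pm_012_s1 : ∃ t, chk3 f_A00pm_012_s1 t 152 114 1 = true := ex3_b t514_A00pm_012_s1 t512_A00pm_012_s1

theorem t516_A00pm_012_s1 : ∃ t, chk3 f_A00pm_012_s1 t 76 114 1 = true := ex3_a t515_A00pm_012_s1 k89_A00pm_012_s1

theorem t517_A00pm_012_s1 : ∃ t, chk3 f_A00pm_012_s1 t 76 57 1 = true := ex3_b t516_A00pm_012_s1 k90_A00pm_012_s1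

theorem t518_A00pm_012_s1 : ∃ t, chk3 f_A00pm_012_s1 t 38 57 1 = true := ex3_a t517_A00pm_012_s1 k91_A00pm_012_s1

theorem t519_A00pm_012_s1 : ∃ t, chk3 f_A00pm_012_s1 t 154 112 1 = true := ex3_b k79_A00pm_012_s1 k80_A00pm_012_s1

theorem t520_A00pm_012_s1 : ∃ t, chk3 f_A00pm_012_s1 t 77 112 1 = true := ex3_a t519_A00pm_012_s1 k81_A00pm_012_s1

theorem t521_A00pm_012_s1 : ∃ t, chk3 f_A00pm_012_s1 t 77 56 1 = true := ex3_b t520_A00pm_012_s1 k82_A00pm_012_s1

theorem t522_A00pm_012_s1 : ∃ t, chk3 f_A00pm_012_s1 t 306 227 1 = true := ex3_b k76_A00pm_012_s1 k77_A00pm_012_s1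

theorem t523_A00pm_012_s1 : ∃ t, chk3 f_A00pm_012_s1 t 153 227 1 = true := ex3_a t522_A00pm_012_s1 k78_A00pm_012_s1

theorem t524_A00pm_012_s1 : ∃ t, chk3 f_A00pm_012_s1 t 153 113 1 = true := ex3_b k75_A00pm_012_s1 t523_A00pm_012_s1

theorem t525_A00pm_012_s1 : ∃ t, chk3 f_A00pm_012_s1 t 76 113 1 = true := ex3_a k74_A00pm_012_s1 t524_A00pm_012_s1

theorem t526_A00pm_012_s1 : ∃ t, chk3 f_A00pm_012_s1 t 76 56 1 = true := ex3_b k73_A00pm_012_s1 t525_A00pm_012_s1

theorem t527_A00pm_012_s1 : ∃ t, chk3 f_A00pm_012_s1 t 38 56 1 = true := ex3_a t526_A00pm_012_s1 t521_A00pm_012_s1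

theorem t528_A00pm_012_s1 : ∃ t, chk3 f_A00pm_012_s1 t 38 28 1 = true := ex3_b t527_A00pm_012_s1 t518_A00pm_012_s1

theorem t529_A00pm_012_s1 : ∃ t, chk3 f_A00pm_012_s1 t 19 28 1 = true := ex3_a t528_A00pm_012_s1 k92_A00pm_012_s1

theorem t530_A00pm_012_s1 : ∃ t, chk3 f_A00pm_012_s1 t 19 14 1 = true := ex3_b t529_A00pm_012_s1 t510_A00pm_012_s1

theorem t531_A00pm_012_s1 : ∃ t, chk3 f_A00pm_012_s1 t 37 58 1 = true := ex3_a k70_A00pm_012_s1 k71_A00pm_012_s1

theorem t532_A00pm_012_s1 : ∃ t, chk3 f_A00pm_012_s1 t 37 29 1 = true := ex3_b t531_A00pm_012_s1 k72_A00pm_012_s1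

theorem t533_A00pm_012_s1 : ∃ t, chk3 f_A00pm_012_s1 t 72 59 1 = true := ex3_b k67_A00pm_012_s1 k68_A00pm_012_s1

theorem t534_A00pm_012_s1 : ∃ t, chk3 f_A00pm_012_s1 t 36 59 1 = true := ex3_a t533_A00pm_012_s1 k69_A00pm_012_s1

theorem t535_A00pm_012_s1 : ∃ t, chk3 f_A00pm_012_s1 t 36 29 1 = true := ex3_b k66_A00pm_012_s1 t534_A00pm_012_s1

theorem t536_A00pm_012_s1 : ∃ t, chk3 f_A00pm_012_s1 t 18 29 1 = true := ex3_a t535_A00pm_012_s1 t532_A00pm_012_s1

theorem t537_A00pm_012_s1 : ∃ t, chk3 f_A00pm_012_s1 t 151 115 1 = true := ex3_b k64_A00pm_012_s1 k65_A00pm_012_s1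

theorem t538_A00pm_012_s1 : ∃ t, chk3 f_A00pm_012_s1 t 75 115 1 = true := ex3_a k63_A00pm_012_s1 t537_A00pm_012_s1

theorem t539_A00pm_012_s1 : ∃ t, chk3 f_A00pm_012_s1 t 75 57 1 = true := ex3_b k62_A00pm_012_s1 t538_A00pm_012_s1

theorem t540_A00pm_012_s1 : ∃ t, chk3 f_A00pm_012_s1 t 37 57 1 = true := ex3_a k61_A00pm_012_s1 t539_A00pm_012_s1

theorem t541_A00pm_012_s1 : ∃ t, chk3 f_A00pm_012_s1 t 37 56 1 = true := ex3_a k59_A00pm_012_s1 k60_A00pm_012_s1

theorem t542_A00pm_012_s1 : ∃ t, chk3 f_A00pm_012_s1 t 37 28 1 = true := ex3_b t541_A00pm_012_s1 t540_A00pm_012_s1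

theorem t543_A00pm_012_s1 : ∃ t, chk3 f_A00pm_012_s1 t 18 28 1 = true := ex3_a k58_A00pm_012_s1 t542_A00pm_012_s1

theorem t544_A00pm_012_s1 : ∃ t, chk3 f_A00pm_012_s1 t 18 14 1 = true := ex3_b t543_A00pm_012_s1 t536_A00pm_012_s1

theorem t545_A00pm_012_s1 : ∃ t, chk3 f_A00pm_012_s1 t 9 14 1 = true := ex3_a t544_A00pm_012_s1 t530_A00pm_012_s1

theorem t546_A00pm_012_s1 : ∃ t, chk3 f_A00pm_012_s1 t 9 7 1 = true := ex3_b t545_A00pm_012_s1 t507_A00pm_012_s1

theorem t547_A00pm_012_s1 : ∃ t, chk3 f_A00pm_012_s1 t 136 248 1 = true := ex3_b k50_A00pm_012_s1 k51_A00pm_012_s1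

theorem t548_A00pm_012_s1 : ∃ t, chk3 f_A00pm_012_s1 t 136 124 1 = true := ex3_b t547_A00pm_012_s1 k52_A00pm_012_s1

theorem t549_A00pm_012_s1 : ∃ t, chk3 f_A00pm_012_s1 t 68 124 1 = true := ex3_a t548_A00pm_012_s1 k53_A00pm_012_s1

theorem t550_A00pm_012_s1 : ∃ t, chk3 f_A00pm_012_s1 t 34 124 1 = true := ex3_a t549_A00pm_012_s1 k54_A00pm_012_s1

theorem t551_A00pm_012_s1 : ∃ t, chk3 f_A00pm_012_s1 t 34 62 1 = true := ex3_b t550_A00pm_012_s1 k55_A00pm_012_s1

theorem t552_A00pm_012_s1 : ∃ t, chk3 f_A00pm_012_s1 t 17 62 1 = true := ex3_a t551_A00pm_012_s1 k56_A00pm_012_s1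

theorem t553_A00pm_012_s1 : ∃ t, chk3 f_A00pm_012_s1 t 17 31 1 = true := ex3_b t552_A00pm_012_s1 k57_A00pm_012_s1

theorem t554_A00pm_012_s1 : ∃ t, chk3 f_A00pm_012_s1 t 143 481 1 = true := ex3_c k45_A00pm_012_s1 k46_A00pm_012_s1

theorem t555_A00pm_012_s1 : ∃ t, chk3 f_A00pm_012_s1 t 143 240 1 = true := ex3_b k44_A00pm_012_s1 t554_A00pm_012_s1

theorem t556_A00pm_012_s1 : ∃ t, chk3 f_A00pm_012_s1 t 143 120 1 = true := ex3_b t555_A00pm_012_s1 k47_A00pm_012_s1

theorem t557_A00pm_012_s1 : ∃ t, chk3 f_A00pm_012_s1 t 71 120 1 = true := ex3_a k43_A00pm_012_s1 t556_A00pm_012_s1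

theorem t558_A00pm_012_s1 : ∃ t, chk3 f_A00pm_012_s1 t 71 60 1 = true := ex3_b t557_A00pm_012_s1 k48_A00pm_012_s1

theorem t559_A00pm_012_s1 : ∃ t, chk3 f_A00pm_012_s1 t 35 60 1 = true := ex3_a k42_A00pm_012_s1 t558_A00pm_012_s1

theorem t560_A00pm_012_s1 : ∃ t, chk3 f_A00pm_012_s1 t 35 30 1 = true := ex3_b t559_A00pm_012_s1 k49_A00pm_012_s1

theorem t561_A00pm_012_s1 : ∃ t, chk3 f_A00pm_012_s1 t 69 61 1 = true := ex3_b k40_A00pm_012_s1 k41_A00pm_012_s1

theorem t562_A00pm_012_s1 : ∃ t, chk3 f_A00pm_012_s1 t 68 123 1 = true := ex3_a k38_A00pm_012_s1 k39_A00pm_012_s1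

theorem t563_A00pm_012_s1 : ∃ t, chk3 f_A00pm_012_s1 t 68 61 1 = true := ex3_b k37_A00pm_012_s1 t562_A00pm_012_s1

theorem t564_A00pm_012_s1 : ∃ t, chk3 f_A00pm_012_s1 t 34 61 1 = true := ex3_a t563_A00pm_012_s1 t561_A00pm_012_s1

theorem t565_A00pm_012_s1 : ∃ t, chk3 f_A00pm_012_s1 t 34 30 1 = true := ex3_b k36_A00pm_012_s1 t564_A00pm_012_s1

theorem t566_A00pm_012_s1 : ∃ t, chk3 f_A00pm_012_s1 t 17 30 1 = true := ex3_a t565_A00pm_012_s1 t560_A00pm_012_s1

theorem t567_A00pm_012_s1 : ∃ t, chk3 f_A00pm_012_s1 t 17 15 1 = true := ex3_b t566_A00pm_012_s1 t553_A00pm_012_s1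

theorem t568_A00pm_012_s1 : ∃ t, chk3 f_A00pm_012_s1 t 270 499 1 = true := ex3_a k31_A00pm_012_s1 k32_A00pm_012_s1

theorem t569_A00pm_012_s1 : ∃ t, chk3 f_A00pm_012_s1 t 135 499 1 = true := ex3_a t568_A00pm_012_s1 k33_A00pm_012_s1

theorem t570_A00pm_012_s1 : ∃ t, chk3 f_A00pm_012_s1 t 135 498 1 = true := ex3_a k29_A00pm_012_s1 k30_A00pm_012_s1

theorem t571_A00pm_012_s1 : ∃ t, chk3 f_A00pm_012_s1 t 135 249 1 = true := ex3_b t570_A00pm_012_s1 t569_A00pm_012_s1

theorem t572_A00pm_012_s1 : ∃ t, chk3 f_A00pm_012_s1 t 135 124 1 = true := ex3_b k28_A00pm_012_s1 t571_A00pm_012_s1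

theorem t573_A00pm_012_s1 : ∃ t, chk3 f_A00pm_012_s1 t 269 499 8 = true := ex3_c k23_A00pm_012_s1 k24_A00pm_012_s1

theorem t574_A00pm_012_s1 : ∃ t, chk3 f_A00pm_012_s1 t 269 499 4 = true := ex3_c t573_A00pm_012_s1 k25_A00pm_012_s1

theorem t575_A00pm_012_s1 : ∃ t, chk3 f_A00pm_012_s1 t 269 499 2 = true := ex3_c t574_A00pm_012_s1 k26_A00pm_012_s1

theorem t576_A00pm_012_s1 : ∃ t, chk3 f_A00pm_012_s1 t 269 499 1 = true := ex3_c t575_A00pm_012_s1 k27_A00pm_012_s1

theorem t577_A00pm_012_s1 : ∃ t, chk3 f_A00pm_012_s1 t 134 499 1 = true := ex3_a k22_A00pm_012_s1 t576_A00pm_012_s1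

theorem t578_A00pm_012_s1 : ∃ t, chk3 f_A00pm_012_s1 t 134 249 1 = true := ex3_b k21_A00pm_012_s1 t577_A00pm_012_s1

theorem t579_A00pm_012_s1 : ∃ t, chk3 f_A00pm_012_s1 t 134 124 1 = true := ex3_b k20_A00pm_012_s1 t578_A00pm_012_s1

theorem t580_A00pm_012_s1 : ∃ t, chk3 f_A00pm_012_s1 t 67 124 1 = true := ex3_a t579_A00pm_012_s1 t572_A00pm_012_s1

theorem t581_A00pm_012_s1 : ∃ t, chk3 f_A00pm_012_s1 t 33 124 1 = true := ex3_a k19_A00pm_012_s1 t580_A00pm_012_s1

theorem t582_A00pm_012_s1 : ∃ t, chk3 f_A00pm_012_s1 t 33 62 1 = true := ex3_b t581_A00pm_012_s1 k34_A00pm_012_s1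

theorem t583_A00pm_012_s1 : ∃ t, chk3 f_A00pm_012_s1 t 16 62 1 = true := ex3_a k18_A00pm_012_s1 t582_A00pm_012_s1

theorem t584_A00pm_012_s1 : ∃ t, chk3 f_A00pm_012_s1 t 16 31 1 = true := ex3_b t583_A00pm_012_s1 k35_A00pm_012_s1

theorem t585_A00pm_012_s1 : ∃ t, chk3 f_A00pm_012_s1 t 16 15 1 = true := ex3_b k17_A00pm_012_s1 t584_A00pm_012_s1

theorem t586_A00pm_012_s1 : ∃ t, chk3 f_A00pm_012_s1 t 8 15 1 = true := ex3_a t585_A00pm_012_s1 t567_A00pm_012_s1

theorem t587_A00pm_012_s1 : ∃ t, chk3 f_A00pm_012_s1 t 8 7 1 = true := ex3_b k16_A00pm_012_s1 t586_A00pm_012_s1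

theorem t588_A00pm_012_s1 : ∃ t, chk3 f_A00pm_012_s1 t 4 7 1 = true := ex3_a t587_A00pm_012_s1 t546_A00pm_012_s1

theorem t589_A00pm_012_s1 : ∃ t, chk3 f_A00pm_012_s1 t 39 27 1 = true := ex3_a k14_A00pm_012_s1 k15_A00pm_012_s1

theorem t590_A00pm_012_s1 : ∃ t, chk3 f_A00pm_012_s1 t 19 27 1 = true := ex3_a k13_A00pm_012_s1 t589_A00pm_012_s1

theorem t591_A00pm_012_s1 : ∃ t, chk3 f_A00pm_012_s1 t 9 27 1 = true := ex3_a k12_A00pm_012_s1 t590_A00pm_012_s1

theorem t592_A00pm_012_s1 : ∃ t, chk3 f_A00pm_012_s1 t 39 26 1 = true := ex3_a k10_A00pm_012_s1 k11_A00pm_012_s1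

theorem t593_A00pm_012_s1 : ∃ t, chk3 f_A00pm_012_s1 t 19 26 1 = true := ex3_a k9_A00pm_012_s1 t592_A00pm_012_s1

theorem t594_A00pm_012_s1 : ∃ t, chk3 f_A00pm_012_s1 t 9 26 1 = true := ex3_a k8_A00pm_012_s1 t593_A00pm_012_s1

theorem t595_A00pm_012_s1 : ∃ t, chk3 f_A00pm_012_s1 t 9 13 1 = true := ex3_b t594_A00pm_012_s1 t591_A00pm_012_s1

theorem t596_A00pm_012_s1 : ∃ t, chk3 f_A00pm_012_s1 t 79 25 1 = true := ex3_b k6_A00pm_012_s1 k7_A00pm_012_s1

theorem t597_A00pm_012_s1 : ∃ t, chk3 f_A00pm_012_s1 t 79 12 1 = true := ex3_b k5_A00pm_012_s1 t596_A00pm_012_s1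

theorem t598_A00pm_012_s1 : ∃ t, chk3 f_A00pm_012_s1 t 39 12 1 = true := ex3_a k4_A00pm_012_s1 t597_A00pm_012_s1

theorem t599_A00pm_012_s1 : ∃ t, chk3 f_A00pm_012_s1 t 19 12 1 = true := ex3_a k3_A00pm_012_s1 t598_A00pm_012_s1

theorem t600_A00pm_012_s1 : ∃ t, chk3 f_A00pm_012_s1 t 9 12 1 = true := ex3_a k2_A00pm_012_s1 t599_A00pm_012_s1

theorem t601_A00pm_012_s1 : ∃ t, chk3 f_A00pm_012_s1 t 9 6 1 = true := ex3_b t600_A00pm_012_s1 t595_A00pm_012_s1

theorem t602_A00pm_012_s1 : ∃ t, chk3 f_A00pm_012_s1 t 4 6 1 = true := ex3_a k1_A00pm_012_s1 t601_A00pm_012_s1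

theorem t603_A00pm_012_s1 : ∃ t, chk3 f_A00pm_012_s1 t 4 3 1 = true := ex3_b t602_A00pm_012_s1 t588_A00pm_012_s1

theorem t604_A00pm_012_s1 : ∃ t, chk3 f_A00pm_012_s1 t 4 1 1 = true := ex3_b k0_A00pm_012_s1 t603_A00pm_012_s1

theorem t605_A00pm_012_s1 : ∃ t, chk3 f_A00pm_012_s1 t 2 1 1 = true := ex3_a t604_A00pm_012_s1 t499_A00pm_012_s1

theorem t606_A00pm_012_s1 : ∃ t, chk3 f_A00pm_012_s1 t 1 1 1 = true := ex3_a t605_A00pm_012_s1 t311_A00pm_012_s1

theorem c_A00pm_012_s1 : CertF 0 536870912 536870912 536870912 740881858 40050571 true true false .pnp 0 1 2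
    ndB0q0 ndB0q1 pcB2 cut_A00pm_012_s1 xt_A00pm_012_s1 :=
  certF2 (fam := true) (s1 := true) (s2 := false) (a := 0) (b := 1) (c := 2) (cn := .pnp) (n1 := ndB0q0) (n2 := ndB0q1) (pc := pcB2) (cut := cut_A00pm_012_s1) (xt := xt_A00pm_012_s1) (P1 := 0) (W1 := 536870912) (P2 := 536870912) (W2 := 536870912) (P3 := 740881858) (W3 := 40050571)
    rfl (fun _ => rfl) t606_A00pm_012_s1

theorem s_A00pm_012_s1 {κ x : ℝ} (hκ : κ * h0 = ken x) (hx : ((740881858 : ℕ) : ℝ) / S ≤ x)
    (hx' : x ≤ (((740881858 : ℕ) : ℝ) + (40050571 : ℕ)) / S)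
    (H : CutA (VFD κ) PP tK tL pcB (Cut.of [[⟨0, 0, 0, 53687091⟩, ⟨1, 1, 0, 53687091⟩, ⟨2, 1, 0, 53687091⟩]]) 0 1 2 0 0 (sgb true) (sgb false) x) :
    AltA (VFD κ) PP tK tL pcB [⟨3, 0, 0, 1449551462⟩] 0 1 2 0 0 (sgb true) (sgb false) x :=
  strip_altAD (m := 1449551462) true rfl hκ (SH.κ0 hκ (SH.hx1 hx).le (SH.hx2 hx').le) (SH.hx1 hx).le (SH.hx2 hx') (covB00).cov (covB01).cov hx hx' c_A00pm_012_s1 H ((okx hx hx').extA (T := tt) (sideB hx hx') hκ rfl rfl (.O 0 true) (.O 1 false) rfl)

end Pool.Agent.Strip051.G.I69_7273.Tab.St.C
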