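import Pool.Agent.Strip051.G.I69_7273.StH
import Pool.Agent.Strip051.G.I69_7273.StF

/-! # Unit strips 10 (generated) -/

set_option linter.all false
set_option maxRecDepth 100000

namespace Pool.Agent.Strip051.G.I69_7273.Tab.St.C

open Pool.Agent.Strip051.PB Pool.Agent.Strip051.PB.T Pool.Agent.StripNear Pool.Agent.Strip051.LC
open Pool.Agent.Strip051.G.I69_7273.Tab Pool.Agent.Strip051.G.I69_7273.Tab.St

noncomputable def cut_A00mm_203_s1 : Cut := Cut.of [[⟨4, 0, 0, 1449551462⟩]]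

noncomputable def f_A00mm_203_s1 : ℕ → ℕ → ℕ → ℕ → Bool := onCell 0 536870912 0 536870912 740881858 40050571
    (rowF 0 true false false .up 2 0 3 (qsf 0 536870912 0 536870912 3) ndB0q2 ndB0q0 pcB3 cut_A00mm_203_s1 Ext.none)

def k0_A00mm_203_s1 : ∃ t, chk3 f_A00mm_203_s1 t 1 1 1 = true :=
  ⟨(l 6), by decide +kernel⟩

theorem c_A00mm_203_s1 : CertF 0 536870912 0 536870912 740881858 40050571 true false false .up 2 0 3
    ndB0q2 ndB0q0 pcB3 cut_A00mm_203_s1 Ext.none :=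
  certF0 (fam := true) (s1 := false) (s2 := false) (a := 2) (b := 0) (c := 3) (cn := .up) (n1 := ndB0q2) (n2 := ndB0q0) (pc := pcB3) (cut := cut_A00mm_203_s1) (xt := Ext.none) (P1 := 0) (W1 := 536870912) (P2 := 0) (W2 := 536870912) (P3 := 740881858) (W3 := 40050571)
    rfl k0_A00mm_203_s1

theorem s_A00mm_203_s1 {κ x : ℝ} (hκ : κ * h0 = ken x) (hx : ((740881858 : ℕ) : ℝ) / S ≤ x)
    (hx' : x ≤ (((740881858 : ℕ) : ℝ) + (40050571 : ℕ)) / S) :
    AltA (VFD κ) PP tK tL pcB [⟨3, 0, 0, 1449551462⟩] 2 0 3 0 0 (sgb false) (sgb false) x :=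
  strip_altAD (m := 1449551462) true rfl hκ (SH.κ0 hκ (SH.hx1 hx).le (SH.hx2 hx').le) (SH.hx1 hx).le (SH.hx2 hx') (covB02).cov (covB00).cov hx hx' c_A00mm_203_s1 cutA_nil (noExt_A)

noncomputable def cut_A00mm_203_s3 : Cut := Cut.of [[⟨3, 0, 0, 2845415833⟩]]

noncomputable def xt_A00mm_203_s3 : Ext := strExt dd true false false .u2 .u0m .s2m .up 2 0 3 rfl rfl gl3 vv ndB0q2 ndB0q0

noncomputable def f_A00mm_203_s3 : ℕ → ℕ → ℕ → ℕ → Bool := onCell 0 536870912 1610612736 536870912 740881858 40050571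
    (rowF 1 true false false .up 2 0 3 (qsf 0 536870912 0 536870912 3) ndB0q2 ndB0q0 pcB3 cut_A00mm_203_s3 xt_A00mm_203_s3)

def k0_A00mm_203_s3 : ∃ t, chk3 f_A00mm_203_s3 t 4 2 1 = true :=
  ⟨(b (a (a (b (b (l 16652344) (l 16672616)) (b (l 16690648) (b (l 16702872) (l 16710984)))) (b (b (l 16668696) (a (l 16684864) (l 16693560))) (b (b (l 16703240) (l 16712272)) (b (l 16742192) (c (l 16750200) (l 16774160)))))) (b (a (b (b (l 16682640) (l 16693168)) (b (l 16703512) (l 16713600))) (b (b (l 16705312) (l 16716064)) (b (l 534354191) (l 534334735)))) (a (a (b (b (l 16717648) (l 16727144)) (b (l 16757736) (b (l 16744408) (l 16771560)))) (b (b (l 16728704) (l 16759552)) (b (b (l 16746128) (l 16761808)) (a (b (l 16753672) (l 534145295)) (b (l 534076431) (a (l 534106639) (l 534088207))))))) (b (b (a (l 16762144) (l 534277135)) (l 534226703)) (a (b (l 534133519) (c (l 533952527) (l 534135823))) (l 534050575)))))) (b (a (b (a (b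 (l 16724000) (l 60767036983)) (b (a (l 16759232) (b (l 16745424) (l 16762096))) (a (c (l 16770856) (l 16750992)) (a (b (l 16755048) (l 16760680)) (b (l 16770736) (l 534623247)))))) (l 2)) (b (b (b (a (a (l 534279695) (c (a (l 534085135) (l 534028815)) (a (l 534271247) (l 534221327)))) (a (c (a (l 533995791) (l 4)) (l 534575631)) (l 4))) (a (a (l 534351887) (a (l 534252303) (a (l 534201359) (a (l 534176015) (l 534147343))))) (l 4))) (a (a (c (l 534425871) (l 534542607)) (l 534351119)) (l 4))) (l 2))) (l 2))), by decide +kernel⟩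

def k1_A00mm_203_s3 : ∃ t, chk3 f_A00mm_203_s3 t 5 2 1 = true :=
  ⟨(b (a (b (a (b (b (c (l 16773840) (l 16771248)) (b (l 16759824) (l 534269967))) (a (b (l 534291471) (l 534276623)) (l 534242063))) (b (a (b (b (l 16769160) (l 16774744)) (b (l 535000591) (l 534197775))) (b (a (a (l 534171407) (l 534161679)) (l 534150159)) (a (b (l 534694927) (l 534145551)) (b (l 534140431) (l 534939663))))) (a (l 534195471) (a (l 534158607) (l 4))))) (a (b (a (l 534483215) (l 534178575)) (l 4)) (l 4))) (b (a (b (b (a (l 534126607) (l 4)) (l 4)) (l 4)) (l 4)) (l 4))) (l 4)), by decide +kernel⟩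

def k2_A00mm_203_s3 : ∃ t, chk3 f_A00mm_203_s3 t 2 3 1 = true :=
  ⟨(l 2), by decide +kernel⟩

def k3_A00mm_203_s3 : ∃ t, chk3 f_A00mm_203_s3 t 3 1 1 = true :=
  ⟨(b (l 4) (l 2)), by decide +kernel⟩

theorem t4_A00mm_203_s3 : ∃ t, chk3 f_A00mm_203_s3 t 2 2 1 = true := ex3_a k0_A00mm_203_s3 k1_A00mm_203_s3

theorem t5_A00mm_203_s3 : ∃ t, chk3 f_A00mm_203_s3 t 2 1 1 = true := ex3_b t4_A00mm_203_s3 k2_A00mm_203_s3

theorem t6_A00mm_203_s3 : ∃ t, chk3 f_A00mm_203_s3 t 1 1 1 = true := ex3_a t5_A00mm_203_s3 k3_A00mm_203_s3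

theorem c_A00mm_203_s3 : CertF 0 536870912 0 536870912 740881858 40050571 true false false .up 2 0 3
    ndB0q2 ndB0q0 pcB3 cut_A00mm_203_s3 xt_A00mm_203_s3 :=
  certF1 (fam := true) (s1 := false) (s2 := false) (a := 2) (b := 0) (c := 3) (cn := .up) (n1 := ndB0q2) (n2 := ndB0q0) (pc := pcB3) (cut := cut_A00mm_203_s3) (xt := xt_A00mm_203_s3) (P1 := 0) (W1 := 536870912) (P2 := 0) (W2 := 536870912) (P3 := 740881858) (W3 := 40050571)
    rfl (fun _ => rfl) t6_A00mm_203_s3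

theorem s_A00mm_203_s3 {κ x : ℝ} (hκ : κ * h0 = ken x) (hx : ((740881858 : ℕ) : ℝ) / S ≤ x)
    (hx' : x ≤ (((740881858 : ℕ) : ℝ) + (40050571 : ℕ)) / S) :
    AltA (VFD κ) PP tK tL pcB [⟨4, 0, 0, 2845415833⟩] 2 0 3 0 0 (sgb false) (sgb false) x :=
  strip_altAD (m := 2845415833) false rfl hκ (SH.κ0 hκ (SH.hx1 hx).le (SH.hx2 hx').le) (SH.hx1 hx).le (SH.hx2 hx') (covB02).cov (covB00).cov hx hx' c_A00mm_203_s3 cutA_nil ((okx hx hx').extA (T := tt) (sideB hx hx') hκ rfl rfl (.O 2 false) (.O 0 false) (Or.inr rfl))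

noncomputable def cut_A00mm_213_s1 : Cut := Cut.of [[⟨4, 0, 0, 1449551462⟩]]

noncomputable def f_A00mm_213_s1 : ℕ → ℕ → ℕ → ℕ → Bool := onCell 0 536870912 536870912 536870912 740881858 40050571
    (rowF 0 true false false .pnn 2 1 3 (qsf 0 536870912 536870912 536870912 3) ndB0q2 ndB0q1 pcB3 cut_A00mm_213_s1 Ext.none)

def k0_A00mm_213_s1 : ∃ t, chk3 f_A00mm_213_s1 t 1 1 1 = true :=
  ⟨(l 6), by decide +kernel⟩

theorem c_A00mm_213_s1 : CertF 0 536870912 536870912 536870912 740881858 40050571 true false false .pnn 2 1 3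
    ndB0q2 ndB0q1 pcB3 cut_A00mm_213_s1 Ext.none :=
  certF0 (fam := true) (s1 := false) (s2 := false) (a := 2) (b := 1) (c := 3) (cn := .pnn) (n1 := ndB0q2) (n2 := ndB0q1) (pc := pcB3) (cut := cut_A00mm_213_s1) (xt := Ext.none) (P1 := 0) (W1 := 536870912) (P2 := 536870912) (W2 := 536870912) (P3 := 740881858) (W3 := 40050571)
    rfl k0_A00mm_213_s1

theorem s_A00mm_213_s1 {κ x : ℝ} (hκ : κ * h0 = ken x) (hx : ((740881858 : ℕ) : ℝ) / S ≤ x)
    (hx' : x ≤ (((740881858 : ℕ) : ℝ) + (40050571 : ℕ)) / S) :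
    AltA (VFD κ) PP tK tL pcB [⟨3, 0, 0, 1449551462⟩] 2 1 3 0 0 (sgb false) (sgb false) x :=
  strip_altAD (m := 1449551462) true rfl hκ (SH.κ0 hκ (SH.hx1 hx).le (SH.hx2 hx').le) (SH.hx1 hx).le (SH.hx2 hx') (covB02).cov (covB01).cov hx hx' c_A00mm_213_s1 cutA_nil (noExt_A)

noncomputable def cut_A00mm_213_s3 : Cut := Cut.of [[⟨3, 0, 0, 2845415833⟩]]

noncomputable def xt_A00mm_213_s3 : Ext := strExt dd true false false .u2 .u0m .s2m .pnn 2 1 3 rfl rfl gl3 vv ndB0q2 ndB0q1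

noncomputable def f_A00mm_213_s3 : ℕ → ℕ → ℕ → ℕ → Bool := onCell 0 536870912 536870912 536870912 740881858 40050571
    (rowF 0 true false false .pnn 2 1 3 (qsf 0 536870912 536870912 536870912 3) ndB0q2 ndB0q1 pcB3 cut_A00mm_213_s3 xt_A00mm_213_s3)

def k0_A00mm_213_s3 : ∃ t, chk3 f_A00mm_213_s3 t 1 1 1 = true :=
  ⟨(a (b (b (a (a (b (b (a (b (b (l 16743768) (l 16769880)) (a (l 16751736) (l 534903311))) (b (b (a (l 16756992) (a (l 16769160) (l 534662927))) (a (l 534814479) (a (l 534767887) (c (l 534716687) (l 534774799))))) (c (l 534807311) (l 534851087)))) (a (b (l 534979087) (l 535037455)) (a (b (l 534908687) (l 4)) (l 4)))) (a (b (a (l 535159567) (l 4)) (l 4)) (l 4))) (b (a (a (b (b (b (l 534566159) (l 534649359)) (l 4)) (l 4)) (l 4)) (l 4)) (l 4))) (l 4)) (l 4)) (l 4)) (l 4)), by decide +kernel⟩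

theorem c_A00mm_213_s3 : CertF 0 536870912 536870912 536870912 740881858 40050571 true false false .pnn 2 1 3
    ndB0q2 ndB0q1 pcB3 cut_A00mm_213_s3 xt_A00mm_213_s3 :=
  certF0 (fam := true) (s1 := false) (s2 := false) (a := 2) (b := 1) (c := 3) (cn := .pnn) (n1 := ndB0q2) (n2 := ndB0q1) (pc := pcB3) (cut := cut_A00mm_213_s3) (xt := xt_A00mm_213_s3) (P1 := 0) (W1 := 536870912) (P2 := 536870912) (W2 := 536870912) (P3 := 740881858) (W3 := 40050571)
    rfl k0_A00mm_213_s3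

theorem s_A00mm_213_s3 {κ x : ℝ} (hκ : κ * h0 = ken x) (hx : ((740881858 : ℕ) : ℝ) / S ≤ x)
    (hx' : x ≤ (((740881858 : ℕ) : ℝ) + (40050571 : ℕ)) / S) :
    AltA (VFD κ) PP tK tL pcB [⟨4, 0, 0, 2845415833⟩] 2 1 3 0 0 (sgb false) (sgb false) x :=
  strip_altAD (m := 2845415833) false rfl hκ (SH.κ0 hκ (SH.hx1 hx).le (SH.hx2 hx').le) (SH.hx1 hx).le (SH.hx2 hx') (covB02).cov (covB01).cov hx hx' c_A00mm_213_s3 cutA_nil ((okx hx hx').extA (T := tt) (sideB hx hx') hκ rfl rfl (.O 2 false) (.O 1 false) (Or.inr rfl))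

noncomputable def cut_A05pp_001_s1 : Cut := Cut.of [[⟨4, 0, 0, 1449551462⟩]]

noncomputable def f_A05pp_001_s1 : ℕ → ℕ → ℕ → ℕ → Bool := onCell 0 536870912 0 536870912 740881858 40050571
    (rowF 0 true true true .up 0 0 1 (qsf 0 536870912 0 536870912 1) ndB0q0 ndB5q0 pcB1 cut_A05pp_001_s1 Ext.none)

def k0_A05pp_001_s1 : ∃ t, chk3 f_A05pp_001_s1 t 1 1 1 = true :=
  ⟨(l 4), by decide +kernel⟩

theorem c_A05pp_001_s1 : CertF 0 536870912 0 536870912 740881858 40050571 true true true .up 0 0 1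
    ndB0q0 ndB5q0 pcB1 cut_A05pp_001_s1 Ext.none :=
  certF0 (fam := true) (s1 := true) (s2 := true) (a := 0) (b := 0) (c := 1) (cn := .up) (n1 := ndB0q0) (n2 := ndB5q0) (pc := pcB1) (cut := cut_A05pp_001_s1) (xt := Ext.none) (P1 := 0) (W1 := 536870912) (P2 := 0) (W2 := 536870912) (P3 := 740881858) (W3 := 40050571)
    rfl k0_A05pp_001_s1

theorem s_A05pp_001_s1 {κ x : ℝ} (hκ : κ * h0 = ken x) (hx : ((740881858 : ℕ) : ℝ) / S ≤ x)
    (hx' : x ≤ (((740881858 : ℕ) : ℝ) + (40050571 : ℕ)) / S) :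
    AltA (VFD κ) PP tK tL pcB [⟨3, 0, 0, 1449551462⟩] 0 0 1 0 5 (sgb true) (sgb true) x :=
  strip_altAD (m := 1449551462) true rfl hκ (SH.κ0 hκ (SH.hx1 hx).le (SH.hx2 hx').le) (SH.hx1 hx).le (SH.hx2 hx') (covB00).cov (covB50).cov hx hx' c_A05pp_001_s1 cutA_nil (noExt_A)

noncomputable def cut_A05pp_011_s1 : Cut := Cut.of [[⟨4, 0, 0, 1449551462⟩]]

noncomputable def f_A05pp_011_s1 : ℕ → ℕ → ℕ → ℕ → Bool := onCell 0 536870912 536870912 536870912 740881858 40050571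
    (rowF 0 true true true .pnn 0 1 1 (qsf 0 536870912 536870912 536870912 1) ndB0q0 ndB5q1 pcB1 cut_A05pp_011_s1 Ext.none)

def k0_A05pp_011_s1 : ∃ t, chk3 f_A05pp_011_s1 t 1 1 1 = true :=
  ⟨(l 4), by decide +kernel⟩

theorem c_A05pp_011_s1 : CertF 0 536870912 536870912 536870912 740881858 40050571 true true true .pnn 0 1 1
    ndB0q0 ndB5q1 pcB1 cut_A05pp_011_s1 Ext.none :=
  certF0 (fam := true) (s1 := true) (s2 := true) (a := 0) (b := 1) (c := 1) (cn := .pnn) (n1 := ndB0q0) (n2 := ndB5q1) (pc := pcB1) (cut := cut_A05pp_011_s1) (xt := Ext.none) (P1 := 0) (W1 := 536870912) (P2 := 536870912) (W2 := 536870912) (P3 := 740881858) (W3 := 40050571)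
    rfl k0_A05pp_011_s1

theorem s_A05pp_011_s1 {κ x : ℝ} (hκ : κ * h0 = ken x) (hx : ((740881858 : ℕ) : ℝ) / S ≤ x)
    (hx' : x ≤ (((740881858 : ℕ) : ℝ) + (40050571 : ℕ)) / S) :
    AltA (VFD κ) PP tK tL pcB [⟨3, 0, 0, 1449551462⟩] 0 1 1 0 5 (sgb true) (sgb true) x :=
  strip_altAD (m := 1449551462) true rfl hκ (SH.κ0 hκ (SH.hx1 hx).le (SH.hx2 hx').le) (SH.hx1 hx).le (SH.hx2 hx') (covB00).cov (covB51).cov hx hx' c_A05pp_011_s1 cutA_nil (noExt_A)

noncomputable def cut_A05pp_012_s1 : Cut := Cut.of [[⟨4, 0, 0, 1449551462⟩]]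

noncomputable def f_A05pp_012_s1 : ℕ → ℕ → ℕ → ℕ → Bool := onCell 0 536870912 536870912 536870912 740881858 40050571
    (rowF 0 true true true .pnp 0 1 2 (qsf 0 536870912 536870912 536870912 2) ndB0q0 ndB5q1 pcB2 cut_A05pp_012_s1 Ext.none)

def k0_A05pp_012_s1 : ∃ t, chk3 f_A05pp_012_s1 t 1 1 1 = true :=
  ⟨(l 4), by decide +kernel⟩

theorem c_A05pp_012_s1 : CertF 0 536870912 536870912 536870912 740881858 40050571 true true true .pnp 0 1 2
    ndB0q0 ndB5q1 pcB2 cut_A05pp_012_s1 Ext.none :=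
  certF0 (fam := true) (s1 := true) (s2 := true) (a := 0) (b := 1) (c := 2) (cn := .pnp) (n1 := ndB0q0) (n2 := ndB5q1) (pc := pcB2) (cut := cut_A05pp_012_s1) (xt := Ext.none) (P1 := 0) (W1 := 536870912) (P2 := 536870912) (W2 := 536870912) (P3 := 740881858) (W3 := 40050571)
    rfl k0_A05pp_012_s1

theorem s_A05pp_012_s1 {κ x : ℝ} (hκ : κ * h0 = ken x) (hx : ((740881858 : ℕ) : ℝ) / S ≤ x)
    (hx' : x ≤ (((740881858 : ℕ) : ℝ) + (40050571 : ℕ)) / S) :
    AltA (VFD κ) PP tK tL pcB [⟨3, 0, 0, 1449551462⟩] 0 1 2 0 5 (sgb true) (sgb true) x :=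
  strip_altAD (m := 1449551462) true rfl hκ (SH.κ0 hκ (SH.hx1 hx).le (SH.hx2 hx').le) (SH.hx1 hx).le (SH.hx2 hx') (covB00).cov (covB51).cov hx hx' c_A05pp_012_s1 cutA_nil (noExt_A)

noncomputable def cut_A05pp_022_s1 : Cut := Cut.of [[⟨4, 0, 0, 1449551462⟩]]

noncomputable def f_A05pp_022_s1 : ℕ → ℕ → ℕ → ℕ → Bool := onCell 0 536870912 1073741824 536870912 740881858 40050571
    (rowF 0 true true true .pp 0 2 2 (qsf 0 536870912 1073741824 536870912 2) ndB0q0 ndB5q2 pcB2 cut_A05pp_022_s1 Ext.none)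

def k0_A05pp_022_s1 : ∃ t, chk3 f_A05pp_022_s1 t 1 1 1 = true :=
  ⟨(l 4), by decide +kernel⟩

theorem c_A05pp_022_s1 : CertF 0 536870912 1073741824 536870912 740881858 40050571 true true true .pp 0 2 2
    ndB0q0 ndB5q2 pcB2 cut_A05pp_022_s1 Ext.none :=
  certF0 (fam := true) (s1 := true) (s2 := true) (a := 0) (b := 2) (c := 2) (cn := .pp) (n1 := ndB0q0) (n2 := ndB5q2) (pc := pcB2) (cut := cut_A05pp_022_s1) (xt := Ext.none) (P1 := 0) (W1 := 536870912) (P2 := 1073741824) (W2 := 536870912) (P3 := 740881858) (W3 := 40050571)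
    rfl k0_A05pp_022_s1

theorem s_A05pp_022_s1 {κ x : ℝ} (hκ : κ * h0 = ken x) (hx : ((740881858 : ℕ) : ℝ) / S ≤ x)
    (hx' : x ≤ (((740881858 : ℕ) : ℝ) + (40050571 : ℕ)) / S) :
    AltA (VFD κ) PP tK tL pcB [⟨3, 0, 0, 1449551462⟩] 0 2 2 0 5 (sgb true) (sgb true) x :=
  strip_altAD (m := 1449551462) true rfl hκ (SH.κ0 hκ (SH.hx1 hx).le (SH.hx2 hx').le) (SH.hx1 hx).le (SH.hx2 hx') (covB00).cov (covB52).cov hx hx' c_A05pp_022_s1 cutA_nil (noExt_A)

noncomputable def cut_A05pp_023_s1 : Cut := Cut.of [[⟨4, 0, 0, 1449551462⟩]]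

noncomputable def f_A05pp_023_s1 : ℕ → ℕ → ℕ → ℕ → Bool := onCell 0 536870912 1073741824 536870912 740881858 40050571
    (rowF 0 true true true .up 0 2 3 (qsf 0 536870912 1073741824 536870912 3) ndB0q0 ndB5q2 pcB3 cut_A05pp_023_s1 Ext.none)

def k0_A05pp_023_s1 : ∃ t, chk3 f_A05pp_023_s1 t 1 1 1 = true :=
  ⟨(l 4), by decide +kernel⟩

theorem c_A05pp_023_s1 : CertF 0 536870912 1073741824 536870912 740881858 40050571 true true true .up 0 2 3
    ndB0q0 ndB5q2 pcB3 cut_A05pp_023_s1 Ext.none :=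
  certF0 (fam := true) (s1 := true) (s2 := true) (a := 0) (b := 2) (c := 3) (cn := .up) (n1 := ndB0q0) (n2 := ndB5q2) (pc := pcB3) (cut := cut_A05pp_023_s1) (xt := Ext.none) (P1 := 0) (W1 := 536870912) (P2 := 1073741824) (W2 := 536870912) (P3 := 740881858) (W3 := 40050571)
    rfl k0_A05pp_023_s1

theorem s_A05pp_023_s1 {κ x : ℝ} (hκ : κ * h0 = ken x) (hx : ((740881858 : ℕ) : ℝ) / S ≤ x)
    (hx' : x ≤ (((740881858 : ℕ) : ℝ) + (40050571 : ℕ)) / S) :
    AltA (VFD κ) PP tK tL pcB [⟨3, 0, 0, 1449551462⟩] 0 2 3 0 5 (sgb true) (sgb true) x :=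
  strip_altAD (m := 1449551462) true rfl hκ (SH.κ0 hκ (SH.hx1 hx).le (SH.hx2 hx').le) (SH.hx1 hx).le (SH.hx2 hx') (covB00).cov (covB52).cov hx hx' c_A05pp_023_s1 cutA_nil (noExt_A)

noncomputable def cut_A05pp_033_s1 : Cut := Cut.of [[⟨4, 0, 0, 1449551462⟩]]

noncomputable def f_A05pp_033_s1 : ℕ → ℕ → ℕ → ℕ → Bool := onCell 0 536870912 0 1230186008 740881858 40050571
    (rowF 0 true true true .pnn 0 3 3 (qsf 0 536870912 0 1230186008 3) ndB0q0 ndB5q3 pcB3 cut_A05pp_033_s1 Ext.none)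

def k0_A05pp_033_s1 : ∃ t, chk3 f_A05pp_033_s1 t 1 1 1 = true :=
  ⟨(l 4), by decide +kernel⟩

theorem c_A05pp_033_s1 : CertF 0 536870912 0 1230186008 740881858 40050571 true true true .pnn 0 3 3
    ndB0q0 ndB5q3 pcB3 cut_A05pp_033_s1 Ext.none :=
  certF0 (fam := true) (s1 := true) (s2 := true) (a := 0) (b := 3) (c := 3) (cn := .pnn) (n1 := ndB0q0) (n2 := ndB5q3) (pc := pcB3) (cut := cut_A05pp_033_s1) (xt := Ext.none) (P1 := 0) (W1 := 536870912) (P2 := 0) (W2 := 1230186008) (P3 := 740881858) (W3 := 40050571)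
    rfl k0_A05pp_033_s1

theorem s_A05pp_033_s1 {κ x : ℝ} (hκ : κ * h0 = ken x) (hx : ((740881858 : ℕ) : ℝ) / S ≤ x)
    (hx' : x ≤ (((740881858 : ℕ) : ℝ) + (40050571 : ℕ)) / S) :
    AltA (VFD κ) PP tK tL pcB [⟨3, 0, 0, 1449551462⟩] 0 3 3 0 5 (sgb true) (sgb true) x :=
  strip_altAD (m := 1449551462) true rfl hκ (SH.κ0 hκ (SH.hx1 hx).le (SH.hx2 hx').le) (SH.hx1 hx).le (SH.hx2 hx') (covB00).cov (covB53).cov hx hx' c_A05pp_033_s1 cutA_nil (noExt_A)

noncomputable def cut_A05pp_101_s1 : Cut := Cut.of [[⟨4, 0, 0, 1449551462⟩]]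

noncomputable def f_A05pp_101_s1 : ℕ → ℕ → ℕ → ℕ → Bool := onCell 536870912 536870912 0 536870912 740881858 40050571
    (rowF 0 true true true .npn 1 0 1 (qsf 536870912 536870912 0 536870912 1) ndB0q1 ndB5q0 pcB1 cut_A05pp_101_s1 Ext.none)

def k0_A05pp_101_s1 : ∃ t, chk3 f_A05pp_101_s1 t 1 1 1 = true :=
  ⟨(l 4), by decide +kernel⟩

theorem c_A05pp_101_s1 : CertF 536870912 536870912 0 536870912 740881858 40050571 true true true .npn 1 0 1
    ndB0q1 ndB5q0 pcB1 cut_A05pp_101_s1 Ext.none :=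
  certF0 (fam := true) (s1 := true) (s2 := true) (a := 1) (b := 0) (c := 1) (cn := .npn) (n1 := ndB0q1) (n2 := ndB5q0) (pc := pcB1) (cut := cut_A05pp_101_s1) (xt := Ext.none) (P1 := 536870912) (W1 := 536870912) (P2 := 0) (W2 := 536870912) (P3 := 740881858) (W3 := 40050571)
    rfl k0_A05pp_101_s1

theorem s_A05pp_101_s1 {κ x : ℝ} (hκ : κ * h0 = ken x) (hx : ((740881858 : ℕ) : ℝ) / S ≤ x)
    (hx' : x ≤ (((740881858 : ℕ) : ℝ) + (40050571 : ℕ)) / S) :
    AltA (VFD κ) PP tK tL pcB [⟨3, 0, 0, 1449551462⟩] 1 0 1 0 5 (sgb true) (sgb true) x :=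
  strip_altAD (m := 1449551462) true rfl hκ (SH.κ0 hκ (SH.hx1 hx).le (SH.hx2 hx').le) (SH.hx1 hx).le (SH.hx2 hx') (covB01).cov (covB50).cov hx hx' c_A05pp_101_s1 cutA_nil (noExt_A)

noncomputable def cut_A05pp_102_s1 : Cut := Cut.of [[⟨4, 0, 0, 1449551462⟩]]

noncomputable def f_A05pp_102_s1 : ℕ → ℕ → ℕ → ℕ → Bool := onCell 536870912 536870912 0 536870912 740881858 40050571
    (rowF 0 true true true .npp 1 0 2 (qsf 536870912 536870912 0 536870912 2) ndB0q1 ndB5q0 pcB2 cut_A05pp_102_s1 Ext.none)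

def k0_A05pp_102_s1 : ∃ t, chk3 f_A05pp_102_s1 t 1 1 1 = true :=
  ⟨(l 4), by decide +kernel⟩

theorem c_A05pp_102_s1 : CertF 536870912 536870912 0 536870912 740881858 40050571 true true true .npp 1 0 2
    ndB0q1 ndB5q0 pcB2 cut_A05pp_102_s1 Ext.none :=
  certF0 (fam := true) (s1 := true) (s2 := true) (a := 1) (b := 0) (c := 2) (cn := .npp) (n1 := ndB0q1) (n2 := ndB5q0) (pc := pcB2) (cut := cut_A05pp_102_s1) (xt := Ext.none) (P1 := 536870912) (W1 := 536870912) (P2 := 0) (W2 := 536870912) (P3 := 740881858) (W3 := 40050571)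
    rfl k0_A05pp_102_s1

theorem s_A05pp_102_s1 {κ x : ℝ} (hκ : κ * h0 = ken x) (hx : ((740881858 : ℕ) : ℝ) / S ≤ x)
    (hx' : x ≤ (((740881858 : ℕ) : ℝ) + (40050571 : ℕ)) / S) :
    AltA (VFD κ) PP tK tL pcB [⟨3, 0, 0, 1449551462⟩] 1 0 2 0 5 (sgb true) (sgb true) x :=
  strip_altAD (m := 1449551462) true rfl hκ (SH.κ0 hκ (SH.hx1 hx).le (SH.hx2 hx').le) (SH.hx1 hx).le (SH.hx2 hx') (covB01).cov (covB50).cov hx hx' c_A05pp_102_s1 cutA_nil (noExt_A)

noncomputable def cut_A05pp_112_s1 : Cut := Cut.of [[⟨4, 0, 0, 1449551462⟩]]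

noncomputable def f_A05pp_112_s1 : ℕ → ℕ → ℕ → ℕ → Bool := onCell 536870912 536870912 536870912 536870912 740881858 40050571
    (rowF 0 true true true .dn 1 1 2 (qsf 536870912 536870912 536870912 536870912 2) ndB0q1 ndB5q1 pcB2 cut_A05pp_112_s1 Ext.none)

def k0_A05pp_112_s1 : ∃ t, chk3 f_A05pp_112_s1 t 1 1 1 = true :=
  ⟨(l 4), by decide +kernel⟩

theorem c_A05pp_112_s1 : CertF 536870912 536870912 536870912 536870912 740881858 40050571 true true true .dn 1 1 2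
    ndB0q1 ndB5q1 pcB2 cut_A05pp_112_s1 Ext.none :=
  certF0 (fam := true) (s1 := true) (s2 := true) (a := 1) (b := 1) (c := 2) (cn := .dn) (n1 := ndB0q1) (n2 := ndB5q1) (pc := pcB2) (cut := cut_A05pp_112_s1) (xt := Ext.none) (P1 := 536870912) (W1 := 536870912) (P2 := 536870912) (W2 := 536870912) (P3 := 740881858) (W3 := 40050571)
    rfl k0_A05pp_112_s1

theorem s_A05pp_112_s1 {κ x : ℝ} (hκ : κ * h0 = ken x) (hx : ((740881858 : ℕ) : ℝ) / S ≤ x)
    (hx' : x ≤ (((740881858 : ℕ) : ℝ) + (40050571 : ℕ)) / S) :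
    AltA (VFD κ) PP tK tL pcB [⟨3, 0, 0, 1449551462⟩] 1 1 2 0 5 (sgb true) (sgb true) x :=
  strip_altAD (m := 1449551462) true rfl hκ (SH.κ0 hκ (SH.hx1 hx).le (SH.hx2 hx').le) (SH.hx1 hx).le (SH.hx2 hx') (covB01).cov (covB51).cov hx hx' c_A05pp_112_s1 cutA_nil (noExt_A)

noncomputable def cut_A05pp_113_s1 : Cut := Cut.of [[⟨4, 0, 0, 1449551462⟩]]

noncomputable def f_A05pp_113_s1 : ℕ → ℕ → ℕ → ℕ → Bool := onCell 536870912 536870912 536870912 536870912 740881858 40050571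
    (rowF 0 true true true .nn 1 1 3 (qsf 536870912 536870912 536870912 536870912 3) ndB0q1 ndB5q1 pcB3 cut_A05pp_113_s1 Ext.none)

def k0_A05pp_113_s1 : ∃ t, chk3 f_A05pp_113_s1 t 1 1 1 = true :=
  ⟨(l 4), by decide +kernel⟩

theorem c_A05pp_113_s1 : CertF 536870912 536870912 536870912 536870912 740881858 40050571 true true true .nn 1 1 3
    ndB0q1 ndB5q1 pcB3 cut_A05pp_113_s1 Ext.none :=
  certF0 (fam := true) (s1 := true) (s2 := true) (a := 1) (b := 1) (c := 3) (cn := .nn) (n1 := ndB0q1) (n2 := ndB5q1) (pc := pcB3) (cut := cut_A05pp_113_s1) (xt := Ext.none) (P1 := 536870912) (W1 := 536870912) (P2 := 536870912) (W2 := 536870912) (P3 := 740881858) (W3 := 40050571)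
    rfl k0_A05pp_113_s1

theorem s_A05pp_113_s1 {κ x : ℝ} (hκ : κ * h0 = ken x) (hx : ((740881858 : ℕ) : ℝ) / S ≤ x)
    (hx' : x ≤ (((740881858 : ℕ) : ℝ) + (40050571 : ℕ)) / S) :
    AltA (VFD κ) PP tK tL pcB [⟨3, 0, 0, 1449551462⟩] 1 1 3 0 5 (sgb true) (sgb true) x :=
  strip_altAD (m := 1449551462) true rfl hκ (SH.κ0 hκ (SH.hx1 hx).le (SH.hx2 hx').le) (SH.hx1 hx).le (SH.hx2 hx') (covB01).cov (covB51).cov hx hx' c_A05pp_113_s1 cutA_nil (noExt_A)

noncomputable def cut_A05pp_123_s1 : Cut := Cut.of [[⟨4, 0, 0, 1449551462⟩]]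

noncomputable def f_A05pp_123_s1 : ℕ → ℕ → ℕ → ℕ → Bool := onCell 536870912 536870912 1073741824 536870912 740881858 40050571
    (rowF 0 true true true .npn 1 2 3 (qsf 536870912 536870912 1073741824 536870912 3) ndB0q1 ndB5q2 pcB3 cut_A05pp_123_s1 Ext.none)

def k0_A05pp_123_s1 : ∃ t, chk3 f_A05pp_123_s1 t 1 1 1 = true :=
  ⟨(l 4), by decide +kernel⟩

theorem c_A05pp_123_s1 : CertF 536870912 536870912 1073741824 536870912 740881858 40050571 true true true .npn 1 2 3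
    ndB0q1 ndB5q2 pcB3 cut_A05pp_123_s1 Ext.none :=
  certF0 (fam := true) (s1 := true) (s2 := true) (a := 1) (b := 2) (c := 3) (cn := .npn) (n1 := ndB0q1) (n2 := ndB5q2) (pc := pcB3) (cut := cut_A05pp_123_s1) (xt := Ext.none) (P1 := 536870912) (W1 := 536870912) (P2 := 1073741824) (W2 := 536870912) (P3 := 740881858) (W3 := 40050571)
    rfl k0_A05pp_123_s1

theorem s_A05pp_123_s1 {κ x : ℝ} (hκ : κ * h0 = ken x) (hx : ((740881858 : ℕ) : ℝ) / S ≤ x)
    (hx' : x ≤ (((740881858 : ℕ) : ℝ) + (40050571 : ℕ)) / S) :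
    AltA (VFD κ) PP tK tL pcB [⟨3, 0, 0, 1449551462⟩] 1 2 3 0 5 (sgb true) (sgb true) x :=
  strip_altAD (m := 1449551462) true rfl hκ (SH.κ0 hκ (SH.hx1 hx).le (SH.hx2 hx').le) (SH.hx1 hx).le (SH.hx2 hx') (covB01).cov (covB52).cov hx hx' c_A05pp_123_s1 cutA_nil (noExt_A)

noncomputable def cut_A05pp_133_s1 : Cut := Cut.of [[⟨4, 0, 0, 1449551462⟩]]

noncomputable def f_A05pp_133_s1 : ℕ → ℕ → ℕ → ℕ → Bool := onCell 536870912 536870912 0 1230186008 740881858 40050571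
    (rowF 0 true true true .dn 1 3 3 (qsf 536870912 536870912 0 1230186008 3) ndB0q1 ndB5q3 pcB3 cut_A05pp_133_s1 Ext.none)

def k0_A05pp_133_s1 : ∃ t, chk3 f_A05pp_133_s1 t 1 1 1 = true :=
  ⟨(l 4), by decide +kernel⟩

theorem c_A05pp_133_s1 : CertF 536870912 536870912 0 1230186008 740881858 40050571 true true true .dn 1 3 3
    ndB0q1 ndB5q3 pcB3 cut_A05pp_133_s1 Ext.none :=
  certF0 (fam := true) (s1 := true) (s2 := true) (a := 1) (b := 3) (c := 3) (cn := .dn) (n1 := ndB0q1) (n2 := ndB5q3) (pc := pcB3) (cut := cut_A05pp_133_s1) (xt := Ext.none) (P1 := 536870912) (W1 := 536870912) (P2 := 0) (W2 := 1230186008) (P3 := 740881858) (W3 := 40050571)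
    rfl k0_A05pp_133_s1

theorem s_A05pp_133_s1 {κ x : ℝ} (hκ : κ * h0 = ken x) (hx : ((740881858 : ℕ) : ℝ) / S ≤ x)
    (hx' : x ≤ (((740881858 : ℕ) : ℝ) + (40050571 : ℕ)) / S) :
    AltA (VFD κ) PP tK tL pcB [⟨3, 0, 0, 1449551462⟩] 1 3 3 0 5 (sgb true) (sgb true) x :=
  strip_altAD (m := 1449551462) true rfl hκ (SH.κ0 hκ (SH.hx1 hx).le (SH.hx2 hx').le) (SH.hx1 hx).le (SH.hx2 hx') (covB01).cov (covB53).cov hx hx' c_A05pp_133_s1 cutA_nil (noExt_A)

noncomputable def cut_A05pp_202_s1 : Cut := Cut.of [[⟨4, 0, 0, 1449551462⟩]]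

noncomputable def f_A05pp_202_s1 : ℕ → ℕ → ℕ → ℕ → Bool := onCell 0 536870912 0 536870912 740881858 40050571
    (rowF 0 true true true .pp 2 0 2 (qsf 0 536870912 0 536870912 2) ndB0q2 ndB5q0 pcB2 cut_A05pp_202_s1 Ext.none)

def k0_A05pp_202_s1 : ∃ t, chk3 f_A05pp_202_s1 t 1 1 1 = true :=
  ⟨(l 4), by decide +kernel⟩

theorem c_A05pp_202_s1 : CertF 0 536870912 0 536870912 740881858 40050571 true true true .pp 2 0 2
    ndB0q2 ndB5q0 pcB2 cut_A05pp_202_s1 Ext.none :=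
  certF0 (fam := true) (s1 := true) (s2 := true) (a := 2) (b := 0) (c := 2) (cn := .pp) (n1 := ndB0q2) (n2 := ndB5q0) (pc := pcB2) (cut := cut_A05pp_202_s1) (xt := Ext.none) (P1 := 0) (W1 := 536870912) (P2 := 0) (W2 := 536870912) (P3 := 740881858) (W3 := 40050571)
    rfl k0_A05pp_202_s1

theorem s_A05pp_202_s1 {κ x : ℝ} (hκ : κ * h0 = ken x) (hx : ((740881858 : ℕ) : ℝ) / S ≤ x)
    (hx' : x ≤ (((740881858 : ℕ) : ℝ) + (40050571 : ℕ)) / S) :
    AltA (VFD κ) PP tK tL pcB [⟨3, 0, 0, 1449551462⟩] 2 0 2 0 5 (sgb true) (sgb true) x :=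
  strip_altAD (m := 1449551462) true rfl hκ (SH.κ0 hκ (SH.hx1 hx).le (SH.hx2 hx').le) (SH.hx1 hx).le (SH.hx2 hx') (covB02).cov (covB50).cov hx hx' c_A05pp_202_s1 cutA_nil (noExt_A)

noncomputable def cut_A05pp_203_s1 : Cut := Cut.of [[⟨4, 0, 0, 1449551462⟩]]

noncomputable def f_A05pp_203_s1 : ℕ → ℕ → ℕ → ℕ → Bool := onCell 0 536870912 0 536870912 740881858 40050571
    (rowF 0 true true true .up 2 0 3 (qsf 0 536870912 0 536870912 3) ndB0q2 ndB5q0 pcB3 cut_A05pp_203_s1 Ext.none)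

def k0_A05pp_203_s1 : ∃ t, chk3 f_A05pp_203_s1 t 1 1 1 = true :=
  ⟨(l 4), by decide +kernel⟩

theorem c_A05pp_203_s1 : CertF 0 536870912 0 536870912 740881858 40050571 true true true .up 2 0 3
    ndB0q2 ndB5q0 pcB3 cut_A05pp_203_s1 Ext.none :=
  certF0 (fam := true) (s1 := true) (s2 := true) (a := 2) (b := 0) (c := 3) (cn := .up) (n1 := ndB0q2) (n2 := ndB5q0) (pc := pcB3) (cut := cut_A05pp_203_s1) (xt := Ext.none) (P1 := 0) (W1 := 536870912) (P2 := 0) (W2 := 536870912) (P3 := 740881858) (W3 := 40050571)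
    rfl k0_A05pp_203_s1

theorem s_A05pp_203_s1 {κ x : ℝ} (hκ : κ * h0 = ken x) (hx : ((740881858 : ℕ) : ℝ) / S ≤ x)
    (hx' : x ≤ (((740881858 : ℕ) : ℝ) + (40050571 : ℕ)) / S) :
    AltA (VFD κ) PP tK tL pcB [⟨3, 0, 0, 1449551462⟩] 2 0 3 0 5 (sgb true) (sgb true) x :=
  strip_altAD (m := 1449551462) true rfl hκ (SH.κ0 hκ (SH.hx1 hx).le (SH.hx2 hx').le) (SH.hx1 hx).le (SH.hx2 hx') (covB02).cov (covB50).cov hx hx' c_A05pp_203_s1 cutA_nil (noExt_A)

noncomputable def cut_A05pp_213_s1 : Cut := Cut.of [[⟨4, 0, 0, 1449551462⟩]]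

noncomputable def f_A05pp_213_s1 : ℕ → ℕ → ℕ → ℕ → Bool := onCell 0 536870912 536870912 536870912 740881858 40050571
    (rowF 0 true true true .pnn 2 1 3 (qsf 0 536870912 536870912 536870912 3) ndB0q2 ndB5q1 pcB3 cut_A05pp_213_s1 Ext.none)

def k0_A05pp_213_s1 : ∃ t, chk3 f_A05pp_213_s1 t 1 1 1 = true :=
  ⟨(l 4), by decide +kernel⟩

theorem c_A05pp_213_s1 : CertF 0 536870912 536870912 536870912 740881858 40050571 true true true .pnn 2 1 3
    ndB0q2 ndB5q1 pcB3 cut_A05pp_213_s1 Ext.none :=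
  certF0 (fam := true) (s1 := true) (s2 := true) (a := 2) (b := 1) (c := 3) (cn := .pnn) (n1 := ndB0q2) (n2 := ndB5q1) (pc := pcB3) (cut := cut_A05pp_213_s1) (xt := Ext.none) (P1 := 0) (W1 := 536870912) (P2 := 536870912) (W2 := 536870912) (P3 := 740881858) (W3 := 40050571)
    rfl k0_A05pp_213_s1

theorem s_A05pp_213_s1 {κ x : ℝ} (hκ : κ * h0 = ken x) (hx : ((740881858 : ℕ) : ℝ) / S ≤ x)
    (hx' : x ≤ (((740881858 : ℕ) : ℝ) + (40050571 : ℕ)) / S) :
    AltA (VFD κ) PP tK tL pcB [⟨3, 0, 0, 1449551462⟩] 2 1 3 0 5 (sgb true) (sgb true) x :=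
  strip_altAD (m := 1449551462) true rfl hκ (SH.κ0 hκ (SH.hx1 hx).le (SH.hx2 hx').le) (SH.hx1 hx).le (SH.hx2 hx') (covB02).cov (covB51).cov hx hx' c_A05pp_213_s1 cutA_nil (noExt_A)

noncomputable def cut_A05pm_001_s1 : Cut := Cut.of [[⟨4, 0, 0, 1449551462⟩]]

noncomputable def xt_A05pm_001_s1 : Ext := strExt dd true true false .u0 .s0m .u0m .up 0 0 1 rfl rfl gf1 vv ndB0q0 ndB5q0

noncomputable def f_A05pm_001_s1 : ℕ → ℕ → ℕ → ℕ → Bool := onCell 0 536870912 536870912 536870912 740881858 40050571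
    (rowF 1 true true false .up 0 0 1 (qsf 0 536870912 0 536870912 1) ndB0q0 ndB5q0 pcB1 cut_A05pm_001_s1 xt_A05pm_001_s1)

def k0_A05pm_001_s1 : ∃ t, chk3 f_A05pm_001_s1 t 2 1 1 = true :=
  ⟨(b (l 3) (b (b (l 3) (l 2)) (l 2))), by decide +kernel⟩

def k1_A05pm_001_s1 : ∃ t, chk3 f_A05pm_001_s1 t 6 1 1 = true :=
  ⟨(b (b (l 3) (l 3)) (b (b (a (b (l 3) (a (l 3) (b (l 3) (a (l 3) (l 523218447))))) (a (b (l 3) (a (b (b (l 3) (l 524155151)) (l 523713551)) (b (c (l 524537615) (l 524155407)) (a (l 524113935) (l 524299279))))) (b (l 523842831) (b (a (c (l 524450319) (l 524048911)) (l 524114447)) (a (b (l 524309775) (l 16758712)) (l 16742576)))))) (a (a (l 2) (b (b (a (l 2) (l 522934031)) (l 2)) (l 2))) (a (b (a (b (l 523376655) (l 523144463)) (b (l 523859215) (l 523842831))) (a (l 2) (b (l 16690232) (l 2)))) (b (b (a (l 16734888) (l 16711408)) (a (l 16659968) (l 16636904))) (b (c (l 16700256) (l 16698408)) (l 16666736))))))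 (b (a (l 2) (a (l 2) (b (b (l 16635048) (l 2)) (l 2)))) (l 2)))), by decide +kernel⟩

def k2_A05pm_001_s1 : ∃ t, chk3 f_A05pm_001_s1 t 7 1 1 = true :=
  ⟨(b (b (l 3) (b (a (l 3) (b (a (l 3) (a (l 3) (b (l 3) (l 526264847)))) (b (b (a (l 3) (a (l 3) (l 525790735))) (a (l 3) (a (a (l 3) (c (c (l 525120015) (l 524937487)) (l 524716303))) (c (b (l 525746959) (l 525633295)) (l 525333775))))) (a (l 523869199) (a (c (l 524881679) (l 524422159)) (a (a (l 524952079) (b (l 525190159) (l 16736880))) (b (l 525491471) (l 16728728)))))))) (a (a (b (l 3) (b (a (l 3) (l 522764559)) (a (c (l 523384079) (l 522761743)) (b (l 522916879) (l 523015183))))) (b (l 522235919) (b (l 522594575) (l 522816271)))) (a (b (l 523365647) (l 522468111)) (a (b (l 524234767) (l 523488271)) (b (b (c (l 525205519) (l 16753088)) (l 16765936)) (c (l 16719808) (l 16711368)))))))) (b (b (a (b (a (a (b (a (l 523445007) (l 523258895)) (l 523676431)) (b (c (l 523462415)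 (l 522921231)) (l 523469327))) (a (b (l 523093519) (l 16723832)) (l 524446991))) (a (a (b (l 523933199) (l 16717536)) (b (l 16721000) (l 16649200))) (b (c (l 16702144) (l 16698584)) (l 16670424)))) (b (a (l 524506127) (a (l 16658952) (l 16554672))) (a (b (l 16662200) (l 16548104)) (l 16590776)))) (a (a (b (a (b (l 16644512) (l 16612464)) (l 16664952)) (b (l 16651448) (l 16620040))) (b (b (l 16576640) (l 16545392)) (b (l 16514432) (l 16484600)))) (b (a (l 16585296) (l 16520072)) (a (l 16441392) (l 16378048))))) (b (a (a (b (a (l 16585584) (l 16478208)) (l 87610077255)) (b (b (l 16455360) (l 16426680)) (l 16469440))) (a (b (l 16386216) (l 16336224)) (b (l 16324856) (l 16277888)))) (a (a (l 2) (b (l 16422744) (l 2))) (a (b (l 16289280) (l 16247456)) (l 16384128)))))), by decide +kernel⟩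

theorem t3_A05pm_001_s1 : ∃ t, chk3 f_A05pm_001_s1 t 3 1 1 = true := ex3_a k1_A05pm_001_s1 k2_A05pm_001_s1

theorem t4_A05pm_001_s1 : ∃ t, chk3 f_A05pm_001_s1 t 1 1 1 = true := ex3_a k0_A05pm_001_s1 t3_A05pm_001_s1

theorem c_A05pm_001_s1 : CertF 0 536870912 0 536870912 740881858 40050571 true true false .up 0 0 1
    ndB0q0 ndB5q0 pcB1 cut_A05pm_001_s1 xt_A05pm_001_s1 :=
  certF1 (fam := true) (s1 := true) (s2 := false) (a := 0) (b := 0) (c := 1) (cn := .up) (n1 := ndB0q0) (n2 := ndB5q0) (pc := pcB1) (cut := cut_A05pm_001_s1) (xt := xt_A05pm_001_s1) (P1 := 0) (W1 := 536870912) (P2 := 0) (W2 := 536870912) (P3 := 740881858) (W3 := 40050571)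
    rfl (fun _ => rfl) t4_A05pm_001_s1

theorem s_A05pm_001_s1 {κ x : ℝ} (hκ : κ * h0 = ken x) (hx : ((740881858 : ℕ) : ℝ) / S ≤ x)
    (hx' : x ≤ (((740881858 : ℕ) : ℝ) + (40050571 : ℕ)) / S) :
    AltA (VFD κ) PP tK tL pcB [⟨3, 0, 0, 1449551462⟩] 0 0 1 0 5 (sgb true) (sgb false) x :=
  strip_altAD (m := 1449551462) true rfl hκ (SH.κ0 hκ (SH.hx1 hx).le (SH.hx2 hx').le) (SH.hx1 hx).le (SH.hx2 hx') (covB00).cov (covB50).cov hx hx' c_A05pm_001_s1 cutA_nil ((okx hx hx').extA (T := tt) (sideB hx hx') hκ rfl rfl (.O 0 true) (.N 0 false) (Or.inr rfl))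

noncomputable def cut_A05pm_011_s1 : Cut := Cut.of [[⟨4, 0, 0, 1449551462⟩], [⟨0, 0, 0, 67108864⟩, ⟨1, 1, 0, 67108864⟩, ⟨2, 1, 0, 67108864⟩]]

noncomputable def xt_A05pm_011_s1 : Ext := strExt dd true true false .u0 .s0m .u0m .pnn 0 1 1 rfl rfl gf1 vv ndB0q0 ndB5q1

noncomputable def f_A05pm_011_s1 : ℕ → ℕ → ℕ → ℕ → Bool := onCell 0 536870912 536870912 536870912 740881858 40050571
    (rowF 1 true true false .pnn 0 1 1 (qsf 0 536870912 536870912 536870912 1) ndB0q0 ndB5q1 pcB1 cut_A05pm_011_s1 xt_A05pm_011_s1)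

def k0_A05pm_011_s1 : ∃ t, chk3 f_A05pm_011_s1 t 1 2 1 = true :=
  ⟨(a (l 3) (a (b (l 1) (l 3)) (l 1))), by decide +kernel⟩

def k1_A05pm_011_s1 : ∃ t, chk3 f_A05pm_011_s1 t 2 6 1 = true :=
  ⟨(b (l 3) (b (l 3) (a (l 3) (a (l 3) (a (a (l 3) (b (l 3) (l 522901775))) (a (l 522495759) (l 522511887))))))), by decide +kernel⟩

def k2_A05pm_011_s1 : ∃ t, chk3 f_A05pm_011_s1 t 2 14 1 = true :=
  ⟨(a (b (l 3) (a (l 3) (a (l 3) (b (l 3) (a (l 3) (l 523405583)))))) (a (a (b (l 3) (a (b (l 3) (l 523055887)) (b (a (b (l 3) (l 523967759)) (b (l 522566671) (l 522612239))) (a (b (l 522631951) (l 522793743)) (b (l 522915343) (a (l 522670863) (l 522648079))))))) (b (b (l 3) (a (l 522549519) (l 522697231))) (b (a (b (l 522628879) (l 523482383)) (l 524139791)) (a (b (a (l 522682895) (l 522754575)) (a (l 522681103) (l 16724864))) (b (l 522872591) (l 522911247)))))) (b (a (a (b (b (l 3) (l 522732559)) (l 522793231)) (b (b (l 522876431) (a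 (l 522812943) (l 522968847))) (a (l 522879247) (l 522936335)))) (b (b (l 522900751) (l 522975759)) (a (l 524126223) (l 523154447)))) (a (b (a (l 522985487) (l 523100175)) (a (l 523103247) (l 16697872))) (b (a (l 523201039) (l 16697376)) (c (l 16676792) (l 16677736))))))), by decide +kernel⟩

def k3_A05pm_011_s1 : ∃ t, chk3 f_A05pm_011_s1 t 2 15 1 = true :=
  ⟨(b (a (a (b (l 3) (a (l 3) (a (l 3) (a (l 3) (l 523512847))))) (a (a (b (l 3) (a (l 523590415) (l 523602959))) (b (a (l 3) (l 523729423)) (a (l 523714063) (l 523702799)))) (a (b (a (l 523662351) (l 523574543)) (a (l 523659279) (l 523591183))) (b (b (l 523390479) (l 523390991)) (b (l 523405327) (l 16736512)))))) (a (a (b (a (l 523112719) (a (l 522875407) (b (l 522705167) (l 16721512)))) (a (l 522923535) (a (l 522989071) (l 522856975)))) (b (a (a (b (l 522689039) (l 16710440)) (b (l 522763535) (l 16678784))) (b (l 522929167) (l 522930191))) (a (b (l 523305999) (l 16690560))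 (a (l 16683576) (l 16673680))))) (a (b (a (l 523194383) (l 16633320)) (a (c (l 16660360) (l 16700368)) (c (l 16684072) (l 16682584)))) (b (l 16645776) (l 16571848))))) (a (a (b (a (b (l 3) (l 14)) (a (a (b (l 3) (a (l 14) (l 523352335))) (a (l 523399695) (l 523439375))) (a (a (l 523478287) (l 523516687)) (b (l 523539983) (l 523551503))))) (a (l 14) (a (a (l 14) (a (l 14) (l 523436815))) (a (a (l 523477519) (l 523517455)) (b (l 523553039) (l 523543567)))))) (a (a (b (a (l 523631119) (l 523707151)) (a (l 524175119) (l 523718159))) (b (a (l 523775247) (l 523810831)) (b (l 16715096) (l 16687520)))) (a (b (b (l 523686671) (l 16702464)) (a (l 16703128) (l 523556879))) (b (l 523556111) (l 16683096))))) (a (a (a (b (a (l 523408143) (l 523282447)) (b (l 16643216) (l 16626400))) (b (a (l 16693232) (l 16681400)) (b (l 16619656) (l 16602560)))) (b (a (b (l 16631048) (l 16613584)) (c (l 16686440) (l 16683224))) (a (l 16629488) (l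 16649600)))) (a (b (a (l 16665672) (l 16648168)) (a (l 16545944) (l 16528624))) (b (a (l 16547424) (l 16529848)) (a (l 16512336) (l 16496168))))))), by decide +kernel⟩

def k4_A05pm_011_s1 : ∃ t, chk3 f_A05pm_011_s1 t 3 3 1 = true :=
  ⟨(a (b (b (a (b (l 3) (a (l 3) (b (l 3) (a (l 3) (l 523218959))))) (a (b (l 1) (a (b (l 1) (l 523714063)) (l 1))) (l 1))) (a (a (b (b (l 3) (a (b (l 3) (l 522121487)) (c (l 523065615) (l 522279695)))) (a (l 522524687) (b (a (l 522375183) (b (l 522322191) (l 16746920))) (l 524054543)))) (b (b (a (l 522545935) (l 522934287)) (a (l 522423567) (l 522766095))) (a (b (b (l 522465039) (l 16728888)) (l 16719904)) (b (l 522767375) (l 16659792))))) (a (b (a (b (l 523377167) (l 523144719)) (b (l 523859727) (l 16723904))) (a (b (l 16711968) (l 16637184)) (b (l 16648344) (l 16615536)))) (b (b (l 1) (a (l 16660064) (l 1))) (b (l 16699432) (l 16666896)))))) (b (a (b (a (b (a (l 523019279) (l 523038479))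 (a (l 16707752) (l 16684744))) (b (a (l 16693184) (l 16627968)) (l 16670976))) (a (b (a (l 16675416) (l 16610848)) (l 16654360)) (a (l 16635896) (l 16592992)))) (a (b (b (l 16636432) (l 16563120)) (c (l 16601232) (l 16602792))) (b (a (l 16630096) (l 16524384)) (l 16517144)))) (a (b (a (b (l 16561992) (l 16532664)) (l 16579560)) (a (c (l 16529224) (l 16533312)) (b (l 16380864) (l 16436336)))) (b (a (l 16466616) (l 16426024)) (a (l 16458016) (l 16380664)))))) (b (b (l 1) (a (a (b (l 1) (b (l 1) (l 16536424))) (l 1)) (l 1))) (b (a (a (b (b (l 16505768) (l 16475352)) (l 16515616)) (b (l 16525016) (l 16386000))) (a (b (l 1) (l 16336872)) (l 1))) (a (b (a (l 16382824) (l 16339176)) (a (l 16383784) (l 16296480))) (a (b (l 16289768) (l 16247192)) (l 16299072)))))), by decide +kernel⟩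

theorem t5_A05pm_011_s1 : ∃ t, chk3 f_A05pm_011_s1 t 2 7 1 = true := ex3_b k2_A05pm_011_s1 k3_A05pm_011_s1

theorem t6_A05pm_011_s1 : ∃ t, chk3 f_A05pm_011_s1 t 2 3 1 = true := ex3_b k1_A05pm_011_s1 t5_A05pm_011_s1

theorem t7_A05pm_011_s1 : ∃ t, chk3 f_A05pm_011_s1 t 1 3 1 = true := ex3_a t6_A05pm_011_s1 k4_A05pm_011_s1

theorem t8_A05pm_011_s1 : ∃ t, chk3 f_A05pm_011_s1 t 1 1 1 = true := ex3_b k0_A05pm_011_s1 t7_A05pm_011_s1

theorem c_A05pm_011_s1 : CertF 0 536870912 536870912 536870912 740881858 40050571 true true false .pnn 0 1 1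
    ndB0q0 ndB5q1 pcB1 cut_A05pm_011_s1 xt_A05pm_011_s1 :=
  certF1 (fam := true) (s1 := true) (s2 := false) (a := 0) (b := 1) (c := 1) (cn := .pnn) (n1 := ndB0q0) (n2 := ndB5q1) (pc := pcB1) (cut := cut_A05pm_011_s1) (xt := xt_A05pm_011_s1) (P1 := 0) (W1 := 536870912) (P2 := 536870912) (W2 := 536870912) (P3 := 740881858) (W3 := 40050571)
    rfl (fun _ => rfl) t8_A05pm_011_s1

theorem s_A05pm_011_s1 {κ x : ℝ} (hκ : κ * h0 = ken x) (hx : ((740881858 : ℕ) : ℝ) / S ≤ x)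
    (hx' : x ≤ (((740881858 : ℕ) : ℝ) + (40050571 : ℕ)) / S)
    (H : CutA (VFD κ) PP tK tL pcB (Cut.of [[⟨0, 0, 0, 67108864⟩, ⟨1, 1, 0, 67108864⟩, ⟨2, 1, 0, 67108864⟩]]) 0 1 1 0 5 (sgb true) (sgb false) x) :
    AltA (VFD κ) PP tK tL pcB [⟨3, 0, 0, 1449551462⟩] 0 1 1 0 5 (sgb true) (sgb false) x :=
  strip_altAD (m := 1449551462) true rfl hκ (SH.κ0 hκ (SH.hx1 hx).le (SH.hx2 hx').le) (SH.hx1 hx).le (SH.hx2 hx') (covB00).cov (covB51).cov hx hx' c_A05pm_011_s1 H ((okx hx hx').extA (T := tt) (sideB hx hx') hκ rfl rfl (.O 0 true) (.N 1 false) (Or.inr rfl))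

noncomputable def cut_A05pm_012_s1 : Cut := Cut.of [[⟨4, 0, 0, 1449551462⟩], [⟨0, 0, 0, 67108864⟩, ⟨1, 1, 0, 67108864⟩, ⟨2, 1, 0, 67108864⟩]]

noncomputable def f_A05pm_012_s1 : ℕ → ℕ → ℕ → ℕ → Bool := onCell 1073741824 536870912 536870912 536870912 740881858 40050571
    (rowF 2 true true false .pnp 0 1 2 (qsf 0 536870912 536870912 536870912 2) ndB0q0 ndB5q1 pcB2 cut_A05pm_012_s1 Ext.none)

def k0_A05pm_012_s1 : ∃ t, chk3 f_A05pm_012_s1 t 4 2 1 = true :=
  ⟨(b (a (b (a (b (l 16015824) (l 16068944)) (l 6)) (a (b (l 16119976) (a (l 16267064) (l 16155736))) (b (l 16058104) (l 16110008)))) (l 6)) (a (a (b (b (a (b (l 16221128) (l 16248304)) (l 16206336)) (b (l 16261904) (l 16289672))) (b (a (l 16346288) (l 16316880)) (c (l 16469048) (l 16468752)))) (b (b (l 16244696) (l 16338576)) (b (a (l 16278632) (l 16239064)) (a (l 16318528) (l 16276224))))) (b (a (b (l 16095048) (l 16182576)) (l 6)) (a (b (l 16181992) (l 16236696))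 (a (a (l 16068328) (l 16049488)) (l 6)))))), by decide +kernel⟩

def k1_A05pm_012_s1 : ∃ t, chk3 f_A05pm_012_s1 t 8 3 1 = true :=
  ⟨(b (b (a (b (c (l 16554104) (l 16554600)) (a (l 16579608) (l 16441752))) (b (a (l 16354880) (l 16224024)) (c (l 16408416) (l 16361592)))) (a (b (b (c (l 16584760) (l 16583072)) (c (l 16606672) (l 16604848))) (a (b (l 16576992) (l 16594552)) (b (l 16430488) (l 16537896)))) (b (a (l 16509712) (a (l 16385128) (l 16358984))) (a (b (l 16454576) (l 16475344)) (b (l 16397712) (l 16415808)))))) (a (b (a (b (a (b (l 16575368) (l 16594520)) (l 16656856)) (a (b (l 16657152) (b (l 16673160) (l 16683928))) (a (l 16679136) (l 16647240)))) (b (a (l 16586712) (l 16555160)) (a (b (l 16615544) (l 16630768)) (l 16591808)))) (a (b (a (b (b (l 16694584) (l 16705160)) (l 14)) (b (l 16677016) (b (l 16687112) (l 14)))) (l 14)) (a (b (b (a (l 16652392) (l 16636080)) (b (l 16653488) (l 16659472))) (l 14)) (b (b (l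 16611952) (l 16665280)) (b (b (l 16631344) (l 14)) (l 14)))))) (b (b (a (b (l 16580992) (l 16601624)) (b (l 16434872) (l 16538464))) (a (b (l 16620288) (l 16635704)) (b (l 16556720) (a (l 16504744) (l 16473400))))) (b (a (a (b (l 16580136) (l 16590928)) (b (l 16548792) (l 16559032))) (a (b (l 16517560) (l 16527608)) (b (l 16486472) (l 16496648)))) (a (a (b (b (l 16598144) (l 16602752)) (l 14)) (b (l 16609688) (b (l 16573696) (l 14)))) (b (a (l 16577704) (b (l 16502568) (l 16505928))) (a (b (l 16540968) (l 16544208)) (b (l 16508936) (a (l 16519768) (l 16503704)))))))))), by decide +kernel⟩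

def k2_A05pm_012_s1 : ∃ t, chk3 f_A05pm_012_s1 t 9 3 1 = true :=
  ⟨(b (b (a (b (a (l 16262888) (l 16220904)) (a (l 16289880) (l 16243144))) (b (a (l 16180176) (l 16143296)) (a (l 16198216) (l 16157496)))) (a (b (a (l 16319768) (l 16268728)) (a (l 16434416) (l 16295952))) (b (a (l 16220080) (l 16173664)) (a (l 16244632) (l 16193392))))) (b (b (a (a (b (l 16374416) (l 16391088)) (l 16407336)) (a (l 16435376) (l 16212608))) (a (b (a (l 16491944) (l 16343760)) (a (a (l 16440368) (l 16406768)) (l 16357672))) (a (b (l 16284024) (l 16294920)) (l 16313912)))) (b (a (a (b (a (l 16453824) (l 16419968)) (a (l 16463872) (l 16429784))) (b (l 16453816) (a (l 16396376) (l 16363568)))) (a (b (a (l 16321472) (l 16289944)) (a (l 16330984) (l 16299296))) (b (l 16241608) (l 16333464)))) (a (a (b (a (b (l 16469560) (l 16472552)) (l 16436568)) (a (b (l 16475088) (l 16519208)) (b (l 16439864) (l 16441440)))) (b (a (l 16402888) (l 16369992))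 (a (b (l 16405824) (l 16406936)) (b (l 16372712) (l 16373616))))) (a (b (a (l 16337784) (l 16306136)) (a (l 16424816) (b (l 16308856) (l 16309624)))) (b (a (l 16272616) (l 16238824)) (a (l 16276304) (l 16242544)))))))), by decide +kernel⟩

def k3_A05pm_012_s1 : ∃ t, chk3 f_A05pm_012_s1 t 5 1 1 = true :=
  ⟨(b (b (l 6) (l 6)) (b (a (b (a (a (b (l 6) (l 16119904)) (l 6)) (l 6)) (a (a (b (l 16129688) (l 16144176)) (a (b (l 16099520) (l 16109272)) (a (l 16173416) (b (l 6) (l 16081448))))) (b (l 6) (l 16119544)))) (l 6)) (a (a (a (b (b (l 16159664) (l 16171936)) (b (b (l 16179464) (l 16184448)) (b (l 16273320) (a (l 16208896) (l 16176160))))) (b (a (b (l 16121072) (l 16130768)) (a (b (l 16102728) (l 16111448)) (b (l 16090856) (l 16098928)))) (a (b (l 16137688) (b (l 16141608) (l 16144184))) (b (a (l 16116352) (a (l 16106384) (l 16099960))) (a (l 16120144) (a (b (l 16108808) (l 16110312)) (b (l 16102136) (l 16103504))))))))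 (b (b (l 16122256) (b (l 16040872) (l 16041976))) (b (b (l 16041376) (l 16124536)) (b (a (l 16068336) (l 16010560)) (a (l 16068144) (l 16007168)))))) (a (a (b (l 6) (b (l 15963784) (b (l 15956288) (l 15950312)))) (b (l 6) (l 6))) (l 6))))), by decide +kernel⟩

def k4_A05pm_012_s1 : ∃ t, chk3 f_A05pm_012_s1 t 3 1 1 = true :=
  ⟨(b (l 6) (l 6)), by decide +kernel⟩

theorem t5_A05pm_012_s1 : ∃ t, chk3 f_A05pm_012_s1 t 4 3 1 = true := ex3_a k1_A05pm_012_s1 k2_A05pm_012_s1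

theorem t6_A05pm_012_s1 : ∃ t, chk3 f_A05pm_012_s1 t 4 1 1 = true := ex3_b k0_A05pm_012_s1 t5_A05pm_012_s1

theorem t7_A05pm_012_s1 : ∃ t, chk3 f_A05pm_012_s1 t 2 1 1 = true := ex3_a t6_A05pm_012_s1 k3_A05pm_012_s1

theorem t8_A05pm_012_s1 : ∃ t, chk3 f_A05pm_012_s1 t 1 1 1 = true := ex3_a t7_A05pm_012_s1 k4_A05pm_012_s1

theorem c_A05pm_012_s1 : CertF 0 536870912 536870912 536870912 740881858 40050571 true true false .pnp 0 1 2
    ndB0q0 ndB5q1 pcB2 cut_A05pm_012_s1 Ext.none :=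
  certF2 (fam := true) (s1 := true) (s2 := false) (a := 0) (b := 1) (c := 2) (cn := .pnp) (n1 := ndB0q0) (n2 := ndB5q1) (pc := pcB2) (cut := cut_A05pm_012_s1) (xt := Ext.none) (P1 := 0) (W1 := 536870912) (P2 := 536870912) (W2 := 536870912) (P3 := 740881858) (W3 := 40050571)
    rfl (fun _ => rfl) t8_A05pm_012_s1

theorem s_A05pm_012_s1 {κ x : ℝ} (hκ : κ * h0 = ken x) (hx : ((740881858 : ℕ) : ℝ) / S ≤ x)
    (hx' : x ≤ (((740881858 : ℕ) : ℝ) + (40050571 : ℕ)) / S)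
    (H : CutA (VFD κ) PP tK tL pcB (Cut.of [[⟨0, 0, 0, 67108864⟩, ⟨1, 1, 0, 67108864⟩, ⟨2, 1, 0, 67108864⟩]]) 0 1 2 0 5 (sgb true) (sgb false) x) :
    AltA (VFD κ) PP tK tL pcB [⟨3, 0, 0, 1449551462⟩] 0 1 2 0 5 (sgb true) (sgb false) x :=
  strip_altAD (m := 1449551462) true rfl hκ (SH.κ0 hκ (SH.hx1 hx).le (SH.hx2 hx').le) (SH.hx1 hx).le (SH.hx2 hx') (covB00).cov (covB51).cov hx hx' c_A05pm_012_s1 H (noExt_A)

noncomputable def cut_A05pm_022_s1 : Cut := Cut.of [[⟨4, 0, 0, 1449551462⟩], [⟨0, 0, 0, 67108864⟩, ⟨1, 1, 0, 67108864⟩, ⟨2, 1, 0, 67108864⟩]]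

noncomputable def f_A05pm_022_s1 : ℕ → ℕ → ℕ → ℕ → Bool := onCell 0 536870912 1073741824 536870912 740881858 40050571
    (rowF 1 true true false .pp 0 2 2 (qsf 0 536870912 1073741824 536870912 2) ndB0q0 ndB5q2 pcB2 cut_A05pm_022_s1 Ext.none)

def k0_A05pm_022_s1 : ∃ t, chk3 f_A05pm_022_s1 t 1 4 1 = true :=
  ⟨(a (b (a (a (b (a (l 14) (a (l 14) (l 1))) (b (a (l 14) (a (l 14) (a (l 14) (l 1)))) (b (a (l 14) (a (l 14) (a (l 14) (l 16521152)))) (b (a (l 14) (a (l 14) (l 81637453847))) (a (a (l 16636864) (l 16611928)) (a (l 16568760) (a (l 16534592) (l 16510952)))))))) (b (l 1) (a (a (b (l 1) (b (l 1) (b (l 1) (l 16474240)))) (l 1)) (l 1)))) (l 1)) (a (a (b (a (b (a (a (l 16636744) (l 16620328)) (b (l 16600136) (l 16582824))) (a (l 16592040) (l 16558016))) (a (b (b (l 16600136) (l 16542568)) (l 16604088)) (b (b (a (l 16524952) (l 16543864)) (l 16499536)) (b (l 16486128) (l 16473256))))) (a (b (a (l 16559032) (l 16527240))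 (l 16511376)) (b (b (a (l 16499232) (l 16460944)) (a (l 16485968) (l 16449168))) (b (l 16454376) (l 16440624))))) (a (b (b (b (a (b (l 33318977047) (l 60699381031)) (l 1)) (a (a (l 16465528) (l 16442016)) (a (l 16417848) (l 1)))) (a (b (a (l 16453336) (l 16430632)) (l 16430744)) (b (a (l 16407272) (l 16383104)) (a (l 16397152) (l 16373776))))) (b (b (a (l 16419960) (l 16376264)) (a (l 16409648) (l 16367432))) (a (l 16392064) (l 16435568)))) (b (b (l 1) (a (b (l 1) (l 58551686855)) (l 1))) (b (a (b (l 89153313415) (a (l 16333584) (l 16393552))) (b (l 1) (l 66604662039))) (a (b (l 16312760) (l 16303104)) (b (l 16305912) (l 16255592))))))) (a (a (b (l 1) (b (l 1) (a (l 150356415095) (l 1)))) (l 1)) (l 1)))) (l 1)), by decide +kernel⟩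

def k1_A05pm_022_s1 : ∃ t, chk3 f_A05pm_022_s1 t 1 5 1 = true :=
  ⟨(a (b (a (a (b (b (a (l 16480648) (l 16505056)) (b (a (l 16459672) (l 16403320)) (b (a (l 16450736) (l 16395536)) (a (l 16446256) (b (l 16392984) (l 16391608)))))) (a (l 16495648) (l 16403736))) (b (b (a (a (l 16369192) (l 16331072)) (a (l 16289608) (l 16327840))) (b (a (l 16335808) (l 16255984)) (a (b (l 16329728) (b (l 16327800) (l 16326832))) (b (l 16251456) (b (l 16250200) (l 16249648)))))) (a (b (l 16314104) (l 16290144)) (b (l 16239744) (l 16221128))))) (a (b (b (a (a (l 179347418183) (l 114385925319)) (l 1)) (b (a (a (l 16184952) (l 16130824)) (l 1)) (a (b (l 158409356119) (b (a (l 16181048) (l 16128360)) (a (l 16180864) (l 16128456)))) (b (l 1) (b (l 1) (l 102574554343)))))) (b (a (a (l 16173384) (l 16122736)) (a (l 16067800) (l 16009968))) (a (l 16219560) (a (l 16059928) (l 16005368))))) (b (l 1) (a (b (l 1) (a (l 15948336) (l 1))) (l 1)))))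 (a (a (b (a (l 16435912) (l 16307192)) (a (l 16454160) (l 16259200))) (a (b (b (l 16266864) (l 16244128)) (b (l 16222112) (l 16201592))) (b (b (l 16202696) (l 16184200)) (l 16241248)))) (a (b (a (b (l 16122976) (l 16110384)) (b (a (l 16052040) (l 16000720)) (l 16020328))) (a (b (l 16097888) (l 16085264)) (b (l 16014048) (l 6)))) (b (a (b (a (l 15946864) (l 15890952)) (l 175051944279)) (b (l 1) (l 6))) (l 6))))) (b (l 1) (a (l 6) (l 1)))), by decide +kernel⟩

def k2_A05pm_022_s1 : ∃ t, chk3 f_A05pm_022_s1 t 1 3 1 = true :=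
  ⟨(a (b (a (b (a (a (b (a (l 16206504) (l 16228720)) (l 16153336)) (b (l 16214264) (l 6))) (b (a (b (l 16182488) (l 16165432)) (l 16208160)) (l 6))) (l 6)) (l 6)) (l 6)) (l 6)), by decide +kernel⟩

theorem t3_A05pm_022_s1 : ∃ t, chk3 f_A05pm_022_s1 t 1 2 1 = true := ex3_b k0_A05pm_022_s1 k1_A05pm_022_s1

theorem t4_A05pm_022_s1 : ∃ t, chk3 f_A05pm_022_s1 t 1 1 1 = true := ex3_b t3_A05pm_022_s1 k2_A05pm_022_s1

theorem c_A05pm_022_s1 : CertF 0 536870912 1073741824 536870912 740881858 40050571 true true false .pp 0 2 2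
    ndB0q0 ndB5q2 pcB2 cut_A05pm_022_s1 Ext.none :=
  certF1 (fam := true) (s1 := true) (s2 := false) (a := 0) (b := 2) (c := 2) (cn := .pp) (n1 := ndB0q0) (n2 := ndB5q2) (pc := pcB2) (cut := cut_A05pm_022_s1) (xt := Ext.none) (P1 := 0) (W1 := 536870912) (P2 := 1073741824) (W2 := 536870912) (P3 := 740881858) (W3 := 40050571)
    rfl (fun _ => rfl) t4_A05pm_022_s1

theorem s_A05pm_022_s1 {κ x : ℝ} (hκ : κ * h0 = ken x) (hx : ((740881858 : ℕ) : ℝ) / S ≤ x)
    (hx' : x ≤ (((740881858 : ℕ) : ℝ) + (40050571 : ℕ)) / S)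
    (H : CutA (VFD κ) PP tK tL pcB (Cut.of [[⟨0, 0, 0, 67108864⟩, ⟨1, 1, 0, 67108864⟩, ⟨2, 1, 0, 67108864⟩]]) 0 2 2 0 5 (sgb true) (sgb false) x) :
    AltA (VFD κ) PP tK tL pcB [⟨3, 0, 0, 1449551462⟩] 0 2 2 0 5 (sgb true) (sgb false) x :=
  strip_altAD (m := 1449551462) true rfl hκ (SH.κ0 hκ (SH.hx1 hx).le (SH.hx2 hx').le) (SH.hx1 hx).le (SH.hx2 hx') (covB00).cov (covB52).cov hx hx' c_A05pm_022_s1 H (noExt_A)

noncomputable def cut_A05pm_023_s1 : Cut := Cut.of [[⟨4, 0, 0, 1449551462⟩]]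

noncomputable def f_A05pm_023_s1 : ℕ → ℕ → ℕ → ℕ → Bool := onCell 1610612736 536870912 1073741824 536870912 740881858 40050571
    (rowF 2 true true false .up 0 2 3 (qsf 0 536870912 1073741824 536870912 3) ndB0q0 ndB5q2 pcB3 cut_A05pm_023_s1 Ext.none)

def k0_A05pm_023_s1 : ∃ t, chk3 f_A05pm_023_s1 t 1 1 1 = true :=
  ⟨(a (l 6) (l 6)), by decide +kernel⟩

theorem c_A05pm_023_s1 : CertF 0 536870912 1073741824 536870912 740881858 40050571 true true false .up 0 2 3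
    ndB0q0 ndB5q2 pcB3 cut_A05pm_023_s1 Ext.none :=
  certF2 (fam := true) (s1 := true) (s2 := false) (a := 0) (b := 2) (c := 3) (cn := .up) (n1 := ndB0q0) (n2 := ndB5q2) (pc := pcB3) (cut := cut_A05pm_023_s1) (xt := Ext.none) (P1 := 0) (W1 := 536870912) (P2 := 1073741824) (W2 := 536870912) (P3 := 740881858) (W3 := 40050571)
    rfl (fun _ => rfl) k0_A05pm_023_s1

theorem s_A05pm_023_s1 {κ x : ℝ} (hκ : κ * h0 = ken x) (hx : ((740881858 : ℕ) : ℝ) / S ≤ x)
    (hx' : x ≤ (((740881858 : ℕ) : ℝ) + (40050571 : ℕ)) / S) :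
    AltA (VFD κ) PP tK tL pcB [⟨3, 0, 0, 1449551462⟩] 0 2 3 0 5 (sgb true) (sgb false) x :=
  strip_altAD (m := 1449551462) true rfl hκ (SH.κ0 hκ (SH.hx1 hx).le (SH.hx2 hx').le) (SH.hx1 hx).le (SH.hx2 hx') (covB00).cov (covB52).cov hx hx' c_A05pm_023_s1 cutA_nil (noExt_A)

noncomputable def cut_A05pm_033_s1 : Cut := Cut.of [[⟨4, 0, 0, 1449551462⟩]]

noncomputable def f_A05pm_033_s1 : ℕ → ℕ → ℕ → ℕ → Bool := onCell 1610612736 536870912 0 1230186008 740881858 40050571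
    (rowF 2 true true false .pnn 0 3 3 (qsf 0 536870912 0 1230186008 3) ndB0q0 ndB5q3 pcB3 cut_A05pm_033_s1 Ext.none)

def k0_A05pm_033_s1 : ∃ t, chk3 f_A05pm_033_s1 t 1 1 1 = true :=
  ⟨(b (l 6) (l 6)), by decide +kernel⟩

theorem c_A05pm_033_s1 : CertF 0 536870912 0 1230186008 740881858 40050571 true true false .pnn 0 3 3
    ndB0q0 ndB5q3 pcB3 cut_A05pm_033_s1 Ext.none :=
  certF2 (fam := true) (s1 := true) (s2 := false) (a := 0) (b := 3) (c := 3) (cn := .pnn) (n1 := ndB0q0) (n2 := ndB5q3) (pc := pcB3) (cut := cut_A05pm_033_s1) (xt := Ext.none) (P1 := 0) (W1 := 536870912) (P2 := 0) (W2 := 1230186008) (P3 := 740881858) (W3 := 40050571)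
    rfl (fun _ => rfl) k0_A05pm_033_s1

theorem s_A05pm_033_s1 {κ x : ℝ} (hκ : κ * h0 = ken x) (hx : ((740881858 : ℕ) : ℝ) / S ≤ x)
    (hx' : x ≤ (((740881858 : ℕ) : ℝ) + (40050571 : ℕ)) / S) :
    AltA (VFD κ) PP tK tL pcB [⟨3, 0, 0, 1449551462⟩] 0 3 3 0 5 (sgb true) (sgb false) x :=
  strip_altAD (m := 1449551462) true rfl hκ (SH.κ0 hκ (SH.hx1 hx).le (SH.hx2 hx').le) (SH.hx1 hx).le (SH.hx2 hx') (covB00).cov (covB53).cov hx hx' c_A05pm_033_s1 cutA_nil (noExt_A)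

noncomputable def cut_A05pm_101_s1 : Cut := Cut.of [[⟨4, 0, 0, 1449551462⟩]]

noncomputable def xt_A05pm_101_s1 : Ext := strExt dd true true false .u0 .s0m .u0m .npn 1 0 1 rfl rfl gf1 vv ndB0q1 ndB5q0

noncomputable def f_A05pm_101_s1 : ℕ → ℕ → ℕ → ℕ → Bool := onCell 536870912 536870912 536870912 536870912 740881858 40050571
    (rowF 1 true true false .npn 1 0 1 (qsf 536870912 536870912 0 536870912 1) ndB0q1 ndB5q0 pcB1 cut_A05pm_101_s1 xt_A05pm_101_s1)

def k0_A05pm_101_s1 : ∃ t, chk3 f_A05pm_101_s1 t 1 2 1 = true :=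
  ⟨(a (b (a (b (a (l 3) (b (l 1) (a (l 528431119) (l 1)))) (b (a (a (l 3) (l 528438799)) (l 528791311)) (a (a (a (l 3) (l 528108303)) (l 528438799)) (a (l 528782351) (l 529025807))))) (a (a (b (l 1) (b (l 1) (l 118145128567))) (l 1)) (l 1))) (b (a (a (b (b (a (a (c (l 528120591) (l 527293711)) (c (l 528228367) (l 527666959))) (b (l 528356111) (l 528304399))) (a (a (l 527072783) (c (l 527956239) (l 527402511))) (a (l 528015375) (l 16715504)))) (a (a (b (b (l 526621455) (l 526337039)) (b (l 526107663) (l 16755672))) (b (b (l 16776336) (l 16721864)) (l 16786112))) (b (a (l 16752000) (l 16692480)) (l 16759848)))) (b (a (b (l 528739343) (l 16772832)) (c (l 16751432) (l 16743968))) (a (b (l 16666480) (l 16642472)) (l 16704664)))) (a (a (b (l 16712528) (l 16586240)) (b (l 16593776) (l 16548368))) (a (l 123513887863) (l 1)))) (a (a (a (b (a (b (c (l 16694504) (l 16690696)) (l 16662752)) (c (l 16747424) (l 16741280))) (a (b (l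 16630800) (l 16596240)) (l 16597856))) (b (b (l 16649632) (l 16621776)) (l 16659632))) (b (a (l 16687952) (l 16572896)) (a (l 16547528) (l 16519592)))) (a (a (b (l 16540904) (l 16490176)) (b (l 16502984) (l 16456768))) (a (l 16443328) (l 16406856)))))) (a (b (l 1) (a (b (l 1) (a (l 16378424) (l 1))) (l 1))) (l 1))), by decide +kernel⟩

def k1_A05pm_101_s1 : ∃ t, chk3 f_A05pm_101_s1 t 1 3 1 = true :=
  ⟨(a (b (a (a (c (a (b (b (l 16538744) (l 16453280)) (b (l 16370336) (l 16314096))) (b (b (l 16514776) (l 16434632)) (l 16428624))) (a (b (b (l 16523600) (l 16435272)) (b (l 16375152) (l 16317552))) (b (b (l 16497424) (l 16412832)) (l 16427496)))) (b (b (a (l 16482464) (l 16458296)) (a (l 16405320) (l 16387008))) (a (l 16343520) (l 16253936)))) (a (b (a (b (l 16433592) (l 16367144)) (l 16372016)) (a (l 16244064) (l 16227304))) (b (a (l 16339536) (l 16304856)) (a (l 16205464) (l 6))))) (a (b (a (a (b (l 16267040) (l 16224336))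 (l 16315928)) (a (l 16128736) (l 16068424))) (a (a (l 16247576) (l 16109288)) (l 16198912))) (a (b (l 16165792) (l 6)) (l 6)))) (a (a (b (l 6) (l 6)) (l 6)) (l 6))), by decide +kernel⟩

theorem t2_A05pm_101_s1 : ∃ t, chk3 f_A05pm_101_s1 t 1 1 1 = true := ex3_b k0_A05pm_101_s1 k1_A05pm_101_s1

theorem c_A05pm_101_s1 : CertF 536870912 536870912 0 536870912 740881858 40050571 true true false .npn 1 0 1
    ndB0q1 ndB5q0 pcB1 cut_A05pm_101_s1 xt_A05pm_101_s1 :=
  certF1 (fam := true) (s1 := true) (s2 := false) (a := 1) (b := 0) (c := 1) (cn := .npn) (n1 := ndB0q1) (n2 := ndB5q0) (pc := pcB1) (cut := cut_A05pm_101_s1) (xt := xt_A05pm_101_s1) (P1 := 536870912) (W1 := 536870912) (P2 := 0) (W2 := 536870912) (P3 := 740881858) (W3 := 40050571)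
    rfl (fun _ => rfl) t2_A05pm_101_s1

theorem s_A05pm_101_s1 {κ x : ℝ} (hκ : κ * h0 = ken x) (hx : ((740881858 : ℕ) : ℝ) / S ≤ x)
    (hx' : x ≤ (((740881858 : ℕ) : ℝ) + (40050571 : ℕ)) / S) :
    AltA (VFD κ) PP tK tL pcB [⟨3, 0, 0, 1449551462⟩] 1 0 1 0 5 (sgb true) (sgb false) x :=
  strip_altAD (m := 1449551462) true rfl hκ (SH.κ0 hκ (SH.hx1 hx).le (SH.hx2 hx').le) (SH.hx1 hx).le (SH.hx2 hx') (covB01).cov (covB50).cov hx hx' c_A05pm_101_s1 cutA_nil ((okx hx hx').extA (T := tt) (sideB hx hx') hκ rfl rfl (.O 1 true) (.N 0 false) (Or.inr rfl))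

noncomputable def cut_A05pm_102_s1 : Cut := Cut.of [[⟨4, 0, 0, 1449551462⟩]]

noncomputable def f_A05pm_102_s1 : ℕ → ℕ → ℕ → ℕ → Bool := onCell 536870912 536870912 1073741824 536870912 740881858 40050571
    (rowF 1 true true false .npp 1 0 2 (qsf 536870912 536870912 0 536870912 2) ndB0q1 ndB5q0 pcB2 cut_A05pm_102_s1 Ext.none)

def k0_A05pm_102_s1 : ∃ t, chk3 f_A05pm_102_s1 t 1 1 1 = true :=
  ⟨(a (b (a (b (b (a (a (b (l 6) (l 6)) (l 6)) (l 6)) (l 6)) (l 6)) (l 6)) (l 6)) (l 6)), by decide +kernel⟩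

theorem c_A05pm_102_s1 : CertF 536870912 536870912 0 536870912 740881858 40050571 true true false .npp 1 0 2
    ndB0q1 ndB5q0 pcB2 cut_A05pm_102_s1 Ext.none :=
  certF1 (fam := true) (s1 := true) (s2 := false) (a := 1) (b := 0) (c := 2) (cn := .npp) (n1 := ndB0q1) (n2 := ndB5q0) (pc := pcB2) (cut := cut_A05pm_102_s1) (xt := Ext.none) (P1 := 536870912) (W1 := 536870912) (P2 := 0) (W2 := 536870912) (P3 := 740881858) (W3 := 40050571)
    rfl (fun _ => rfl) k0_A05pm_102_s1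

theorem s_A05pm_102_s1 {κ x : ℝ} (hκ : κ * h0 = ken x) (hx : ((740881858 : ℕ) : ℝ) / S ≤ x)
    (hx' : x ≤ (((740881858 : ℕ) : ℝ) + (40050571 : ℕ)) / S) :
    AltA (VFD κ) PP tK tL pcB [⟨3, 0, 0, 1449551462⟩] 1 0 2 0 5 (sgb true) (sgb false) x :=
  strip_altAD (m := 1449551462) true rfl hκ (SH.κ0 hκ (SH.hx1 hx).le (SH.hx2 hx').le) (SH.hx1 hx).le (SH.hx2 hx') (covB01).cov (covB50).cov hx hx' c_A05pm_102_s1 cutA_nil (noExt_A)

noncomputable def cut_A05pm_112_s1 : Cut := Cut.of [[⟨4, 0, 0, 1449551462⟩]]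

noncomputable def f_A05pm_112_s1 : ℕ → ℕ → ℕ → ℕ → Bool := onCell 536870912 536870912 536870912 536870912 740881858 40050571
    (rowF 0 true true false .dn 1 1 2 (qsf 536870912 536870912 536870912 536870912 2) ndB0q1 ndB5q1 pcB2 cut_A05pm_112_s1 Ext.none)

def k0_A05pm_112_s1 : ∃ t, chk3 f_A05pm_112_s1 t 1 1 1 = true :=
  ⟨(a (b (b (a (a (b (a (l 16060944) (l 6)) (l 6)) (l 6)) (l 6)) (l 6)) (l 6)) (l 6)), by decide +kernel⟩

theorem c_A05pm_112_s1 : CertF 536870912 536870912 536870912 536870912 740881858 40050571 true true false .dn 1 1 2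
    ndB0q1 ndB5q1 pcB2 cut_A05pm_112_s1 Ext.none :=
  certF0 (fam := true) (s1 := true) (s2 := false) (a := 1) (b := 1) (c := 2) (cn := .dn) (n1 := ndB0q1) (n2 := ndB5q1) (pc := pcB2) (cut := cut_A05pm_112_s1) (xt := Ext.none) (P1 := 536870912) (W1 := 536870912) (P2 := 536870912) (W2 := 536870912) (P3 := 740881858) (W3 := 40050571)
    rfl k0_A05pm_112_s1

theorem s_A05pm_112_s1 {κ x : ℝ} (hκ : κ * h0 = ken x) (hx : ((740881858 : ℕ) : ℝ) / S ≤ x)
    (hx' : x ≤ (((740881858 : ℕ) : ℝ) + (40050571 : ℕ)) / S) :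
    AltA (VFD κ) PP tK tL pcB [⟨3, 0, 0, 1449551462⟩] 1 1 2 0 5 (sgb true) (sgb false) x :=
  strip_altAD (m := 1449551462) true rfl hκ (SH.κ0 hκ (SH.hx1 hx).le (SH.hx2 hx').le) (SH.hx1 hx).le (SH.hx2 hx') (covB01).cov (covB51).cov hx hx' c_A05pm_112_s1 cutA_nil (noExt_A)

noncomputable def cut_A05pm_113_s1 : Cut := Cut.of [[⟨4, 0, 0, 1449551462⟩]]

noncomputable def f_A05pm_113_s1 : ℕ → ℕ → ℕ → ℕ → Bool := onCell 536870912 536870912 1610612736 536870912 740881858 40050571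
    (rowF 1 true true false .nn 1 1 3 (qsf 536870912 536870912 536870912 536870912 3) ndB0q1 ndB5q1 pcB3 cut_A05pm_113_s1 Ext.none)

def k0_A05pm_113_s1 : ∃ t, chk3 f_A05pm_113_s1 t 1 1 1 = true :=
  ⟨(l 6), by decide +kernel⟩

theorem c_A05pm_113_s1 : CertF 536870912 536870912 536870912 536870912 740881858 40050571 true true false .nn 1 1 3
    ndB0q1 ndB5q1 pcB3 cut_A05pm_113_s1 Ext.none :=
  certF1 (fam := true) (s1 := true) (s2 := false) (a := 1) (b := 1) (c := 3) (cn := .nn) (n1 := ndB0q1) (n2 := ndB5q1) (pc := pcB3) (cut := cut_A05pm_113_s1) (xt := Ext.none) (P1 := 536870912) (W1 := 536870912) (P2 := 536870912) (W2 := 536870912) (P3 := 740881858) (W3 := 40050571)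
    rfl (fun _ => rfl) k0_A05pm_113_s1

theorem s_A05pm_113_s1 {κ x : ℝ} (hκ : κ * h0 = ken x) (hx : ((740881858 : ℕ) : ℝ) / S ≤ x)
    (hx' : x ≤ (((740881858 : ℕ) : ℝ) + (40050571 : ℕ)) / S) :
    AltA (VFD κ) PP tK tL pcB [⟨3, 0, 0, 1449551462⟩] 1 1 3 0 5 (sgb true) (sgb false) x :=
  strip_altAD (m := 1449551462) true rfl hκ (SH.κ0 hκ (SH.hx1 hx).le (SH.hx2 hx').le) (SH.hx1 hx).le (SH.hx2 hx') (covB01).cov (covB51).cov hx hx' c_A05pm_113_s1 cutA_nil (noExt_A)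

noncomputable def cut_A05pm_123_s1 : Cut := Cut.of [[⟨4, 0, 0, 1449551462⟩]]

noncomputable def f_A05pm_123_s1 : ℕ → ℕ → ℕ → ℕ → Bool := onCell 536870912 536870912 1073741824 536870912 740881858 40050571
    (rowF 0 true true false .npn 1 2 3 (qsf 536870912 536870912 1073741824 536870912 3) ndB0q1 ndB5q2 pcB3 cut_A05pm_123_s1 Ext.none)

def k0_A05pm_123_s1 : ∃ t, chk3 f_A05pm_123_s1 t 1 1 1 = true :=
  ⟨(l 6), by decide +kernel⟩

theorem c_A05pm_123_s1 : CertF 536870912 536870912 1073741824 536870912 740881858 40050571 true true false .npn 1 2 3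
    ndB0q1 ndB5q2 pcB3 cut_A05pm_123_s1 Ext.none :=
  certF0 (fam := true) (s1 := true) (s2 := false) (a := 1) (b := 2) (c := 3) (cn := .npn) (n1 := ndB0q1) (n2 := ndB5q2) (pc := pcB3) (cut := cut_A05pm_123_s1) (xt := Ext.none) (P1 := 536870912) (W1 := 536870912) (P2 := 1073741824) (W2 := 536870912) (P3 := 740881858) (W3 := 40050571)
    rfl k0_A05pm_123_s1

theorem s_A05pm_123_s1 {κ x : ℝ} (hκ : κ * h0 = ken x) (hx : ((740881858 : ℕ) : ℝ) / S ≤ x)
    (hx' : x ≤ (((740881858 : ℕ) : ℝ) + (40050571 : ℕ)) / S) :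
    AltA (VFD κ) PP tK tL pcB [⟨3, 0, 0, 1449551462⟩] 1 2 3 0 5 (sgb true) (sgb false) x :=
  strip_altAD (m := 1449551462) true rfl hκ (SH.κ0 hκ (SH.hx1 hx).le (SH.hx2 hx').le) (SH.hx1 hx).le (SH.hx2 hx') (covB01).cov (covB52).cov hx hx' c_A05pm_123_s1 cutA_nil (noExt_A)

noncomputable def cut_A05pm_133_s1 : Cut := Cut.of [[⟨4, 0, 0, 1449551462⟩]]

noncomputable def f_A05pm_133_s1 : ℕ → ℕ → ℕ → ℕ → Bool := onCell 536870912 536870912 0 1230186008 740881858 40050571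
    (rowF 0 true true false .dn 1 3 3 (qsf 536870912 536870912 0 1230186008 3) ndB0q1 ndB5q3 pcB3 cut_A05pm_133_s1 Ext.none)

def k0_A05pm_133_s1 : ∃ t, chk3 f_A05pm_133_s1 t 1 1 1 = true :=
  ⟨(l 6), by decide +kernel⟩

theorem c_A05pm_133_s1 : CertF 536870912 536870912 0 1230186008 740881858 40050571 true true false .dn 1 3 3
    ndB0q1 ndB5q3 pcB3 cut_A05pm_133_s1 Ext.none :=
  certF0 (fam := true) (s1 := true) (s2 := false) (a := 1) (b := 3) (c := 3) (cn := .dn) (n1 := ndB0q1) (n2 := ndB5q3) (pc := pcB3) (cut := cut_A05pm_133_s1) (xt := Ext.none) (P1 := 536870912) (W1 := 536870912) (P2 := 0) (W2 := 1230186008) (P3 := 740881858) (W3 := 40050571)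
    rfl k0_A05pm_133_s1

theorem s_A05pm_133_s1 {κ x : ℝ} (hκ : κ * h0 = ken x) (hx : ((740881858 : ℕ) : ℝ) / S ≤ x)
    (hx' : x ≤ (((740881858 : ℕ) : ℝ) + (40050571 : ℕ)) / S) :
    AltA (VFD κ) PP tK tL pcB [⟨3, 0, 0, 1449551462⟩] 1 3 3 0 5 (sgb true) (sgb false) x :=
  strip_altAD (m := 1449551462) true rfl hκ (SH.κ0 hκ (SH.hx1 hx).le (SH.hx2 hx').le) (SH.hx1 hx).le (SH.hx2 hx') (covB01).cov (covB53).cov hx hx' c_A05pm_133_s1 cutA_nil (noExt_A)

noncomputable def cut_A05pm_202_s1 : Cut := Cut.of [[⟨4, 0, 0, 1449551462⟩]]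

noncomputable def f_A05pm_202_s1 : ℕ → ℕ → ℕ → ℕ → Bool := onCell 0 536870912 0 536870912 740881858 40050571
    (rowF 0 true true false .pp 2 0 2 (qsf 0 536870912 0 536870912 2) ndB0q2 ndB5q0 pcB2 cut_A05pm_202_s1 Ext.none)

def k0_A05pm_202_s1 : ∃ t, chk3 f_A05pm_202_s1 t 1 1 1 = true :=
  ⟨(l 6), by decide +kernel⟩

theorem c_A05pm_202_s1 : CertF 0 536870912 0 536870912 740881858 40050571 true true false .pp 2 0 2
    ndB0q2 ndB5q0 pcB2 cut_A05pm_202_s1 Ext.none :=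
  certF0 (fam := true) (s1 := true) (s2 := false) (a := 2) (b := 0) (c := 2) (cn := .pp) (n1 := ndB0q2) (n2 := ndB5q0) (pc := pcB2) (cut := cut_A05pm_202_s1) (xt := Ext.none) (P1 := 0) (W1 := 536870912) (P2 := 0) (W2 := 536870912) (P3 := 740881858) (W3 := 40050571)
    rfl k0_A05pm_202_s1

theorem s_A05pm_202_s1 {κ x : ℝ} (hκ : κ * h0 = ken x) (hx : ((740881858 : ℕ) : ℝ) / S ≤ x)
    (hx' : x ≤ (((740881858 : ℕ) : ℝ) + (40050571 : ℕ)) / S) :
    AltA (VFD κ) PP tK tL pcB [⟨3, 0, 0, 1449551462⟩] 2 0 2 0 5 (sgb true) (sgb false) x :=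
  strip_altAD (m := 1449551462) true rfl hκ (SH.κ0 hκ (SH.hx1 hx).le (SH.hx2 hx').le) (SH.hx1 hx).le (SH.hx2 hx') (covB02).cov (covB50).cov hx hx' c_A05pm_202_s1 cutA_nil (noExt_A)

noncomputable def cut_A05pm_203_s1 : Cut := Cut.of [[⟨4, 0, 0, 1449551462⟩]]

noncomputable def f_A05pm_203_s1 : ℕ → ℕ → ℕ → ℕ → Bool := onCell 0 536870912 0 536870912 740881858 40050571
    (rowF 0 true true false .up 2 0 3 (qsf 0 536870912 0 536870912 3) ndB0q2 ndB5q0 pcB3 cut_A05pm_203_s1 Ext.none)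

def k0_A05pm_203_s1 : ∃ t, chk3 f_A05pm_203_s1 t 1 1 1 = true :=
  ⟨(l 6), by decide +kernel⟩

theorem c_A05pm_203_s1 : CertF 0 536870912 0 536870912 740881858 40050571 true true false .up 2 0 3
    ndB0q2 ndB5q0 pcB3 cut_A05pm_203_s1 Ext.none :=
  certF0 (fam := true) (s1 := true) (s2 := false) (a := 2) (b := 0) (c := 3) (cn := .up) (n1 := ndB0q2) (n2 := ndB5q0) (pc := pcB3) (cut := cut_A05pm_203_s1) (xt := Ext.none) (P1 := 0) (W1 := 536870912) (P2 := 0) (W2 := 536870912) (P3 := 740881858) (W3 := 40050571)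
    rfl k0_A05pm_203_s1

theorem s_A05pm_203_s1 {κ x : ℝ} (hκ : κ * h0 = ken x) (hx : ((740881858 : ℕ) : ℝ) / S ≤ x)
    (hx' : x ≤ (((740881858 : ℕ) : ℝ) + (40050571 : ℕ)) / S) :
    AltA (VFD κ) PP tK tL pcB [⟨3, 0, 0, 1449551462⟩] 2 0 3 0 5 (sgb true) (sgb false) x :=
  strip_altAD (m := 1449551462) true rfl hκ (SH.κ0 hκ (SH.hx1 hx).le (SH.hx2 hx').le) (SH.hx1 hx).le (SH.hx2 hx') (covB02).cov (covB50).cov hx hx' c_A05pm_203_s1 cutA_nil (noExt_A)

noncomputable def cut_A05pm_213_s1 : Cut := Cut.of [[⟨4, 0, 0, 1449551462⟩]]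

noncomputable def f_A05pm_213_s1 : ℕ → ℕ → ℕ → ℕ → Bool := onCell 0 536870912 536870912 536870912 740881858 40050571
    (rowF 0 true true false .pnn 2 1 3 (qsf 0 536870912 536870912 536870912 3) ndB0q2 ndB5q1 pcB3 cut_A05pm_213_s1 Ext.none)

def k0_A05pm_213_s1 : ∃ t, chk3 f_A05pm_213_s1 t 1 1 1 = true :=
  ⟨(l 6), by decide +kernel⟩

theorem c_A05pm_213_s1 : CertF 0 536870912 536870912 536870912 740881858 40050571 true true false .pnn 2 1 3
    ndB0q2 ndB5q1 pcB3 cut_A05pm_213_s1 Ext.none :=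
  certF0 (fam := true) (s1 := true) (s2 := false) (a := 2) (b := 1) (c := 3) (cn := .pnn) (n1 := ndB0q2) (n2 := ndB5q1) (pc := pcB3) (cut := cut_A05pm_213_s1) (xt := Ext.none) (P1 := 0) (W1 := 536870912) (P2 := 536870912) (W2 := 536870912) (P3 := 740881858) (W3 := 40050571)
    rfl k0_A05pm_213_s1

theorem s_A05pm_213_s1 {κ x : ℝ} (hκ : κ * h0 = ken x) (hx : ((740881858 : ℕ) : ℝ) / S ≤ x)
    (hx' : x ≤ (((740881858 : ℕ) : ℝ) + (40050571 : ℕ)) / S) :
    AltA (VFD κ) PP tK tL pcB [⟨3, 0, 0, 1449551462⟩] 2 1 3 0 5 (sgb true) (sgb false) x :=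
  strip_altAD (m := 1449551462) true rfl hκ (SH.κ0 hκ (SH.hx1 hx).le (SH.hx2 hx').le) (SH.hx1 hx).le (SH.hx2 hx') (covB02).cov (covB51).cov hx hx' c_A05pm_213_s1 cutA_nil (noExt_A)

noncomputable def cut_A05mm_001_s1 : Cut := Cut.of [[⟨4, 0, 0, 1449551462⟩]]

noncomputable def f_A05mm_001_s1 : ℕ → ℕ → ℕ → ℕ → Bool := onCell 0 536870912 0 536870912 740881858 40050571
    (rowF 0 true false false .up 0 0 1 (qsf 0 536870912 0 536870912 1) ndB0q0 ndB5q0 pcB1 cut_A05mm_001_s1 Ext.none)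

def k0_A05mm_001_s1 : ∃ t, chk3 f_A05mm_001_s1 t 1 1 1 = true :=
  ⟨(l 4), by decide +kernel⟩

theorem c_A05mm_001_s1 : CertF 0 536870912 0 536870912 740881858 40050571 true false false .up 0 0 1
    ndB0q0 ndB5q0 pcB1 cut_A05mm_001_s1 Ext.none :=
  certF0 (fam := true) (s1 := false) (s2 := false) (a := 0) (b := 0) (c := 1) (cn := .up) (n1 := ndB0q0) (n2 := ndB5q0) (pc := pcB1) (cut := cut_A05mm_001_s1) (xt := Ext.none) (P1 := 0) (W1 := 536870912) (P2 := 0) (W2 := 536870912) (P3 := 740881858) (W3 := 40050571)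
    rfl k0_A05mm_001_s1

theorem s_A05mm_001_s1 {κ x : ℝ} (hκ : κ * h0 = ken x) (hx : ((740881858 : ℕ) : ℝ) / S ≤ x)
    (hx' : x ≤ (((740881858 : ℕ) : ℝ) + (40050571 : ℕ)) / S) :
    AltA (VFD κ) PP tK tL pcB [⟨3, 0, 0, 1449551462⟩] 0 0 1 0 5 (sgb false) (sgb false) x :=
  strip_altAD (m := 1449551462) true rfl hκ (SH.κ0 hκ (SH.hx1 hx).le (SH.hx2 hx').le) (SH.hx1 hx).le (SH.hx2 hx') (covB00).cov (covB50).cov hx hx' c_A05mm_001_s1 cutA_nil (noExt_A)

noncomputable def cut_A05mm_011_s1 : Cut := Cut.of [[⟨4, 0, 0, 1449551462⟩]]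

noncomputable def f_A05mm_011_s1 : ℕ → ℕ → ℕ → ℕ → Bool := onCell 0 536870912 536870912 536870912 740881858 40050571
    (rowF 0 true false false .pnn 0 1 1 (qsf 0 536870912 536870912 536870912 1) ndB0q0 ndB5q1 pcB1 cut_A05mm_011_s1 Ext.none)

def k0_A05mm_011_s1 : ∃ t, chk3 f_A05mm_011_s1 t 1 1 1 = true :=
  ⟨(l 4), by decide +kernel⟩

theorem c_A05mm_011_s1 : CertF 0 536870912 536870912 536870912 740881858 40050571 true false false .pnn 0 1 1
    ndB0q0 ndB5q1 pcB1 cut_A05mm_011_s1 Ext.none :=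
  certF0 (fam := true) (s1 := false) (s2 := false) (a := 0) (b := 1) (c := 1) (cn := .pnn) (n1 := ndB0q0) (n2 := ndB5q1) (pc := pcB1) (cut := cut_A05mm_011_s1) (xt := Ext.none) (P1 := 0) (W1 := 536870912) (P2 := 536870912) (W2 := 536870912) (P3 := 740881858) (W3 := 40050571)
    rfl k0_A05mm_011_s1

theorem s_A05mm_011_s1 {κ x : ℝ} (hκ : κ * h0 = ken x) (hx : ((740881858 : ℕ) : ℝ) / S ≤ x)
    (hx' : x ≤ (((740881858 : ℕ) : ℝ) + (40050571 : ℕ)) / S) :
    AltA (VFD κ) PP tK tL pcB [⟨3, 0, 0, 1449551462⟩] 0 1 1 0 5 (sgb false) (sgb false) x :=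
  strip_altAD (m := 1449551462) true rfl hκ (SH.κ0 hκ (SH.hx1 hx).le (SH.hx2 hx').le) (SH.hx1 hx).le (SH.hx2 hx') (covB00).cov (covB51).cov hx hx' c_A05mm_011_s1 cutA_nil (noExt_A)

noncomputable def cut_A05mm_012_s1 : Cut := Cut.of [[⟨4, 0, 0, 1449551462⟩]]

noncomputable def f_A05mm_012_s1 : ℕ → ℕ → ℕ → ℕ → Bool := onCell 0 536870912 536870912 536870912 740881858 40050571
    (rowF 0 true false false .pnp 0 1 2 (qsf 0 536870912 536870912 536870912 2) ndB0q0 ndB5q1 pcB2 cut_A05mm_012_s1 Ext.none)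

def k0_A05mm_012_s1 : ∃ t, chk3 f_A05mm_012_s1 t 1 1 1 = true :=
  ⟨(l 4), by decide +kernel⟩

theorem c_A05mm_012_s1 : CertF 0 536870912 536870912 536870912 740881858 40050571 true false false .pnp 0 1 2
    ndB0q0 ndB5q1 pcB2 cut_A05mm_012_s1 Ext.none :=
  certF0 (fam := true) (s1 := false) (s2 := false) (a := 0) (b := 1) (c := 2) (cn := .pnp) (n1 := ndB0q0) (n2 := ndB5q1) (pc := pcB2) (cut := cut_A05mm_012_s1) (xt := Ext.none) (P1 := 0) (W1 := 536870912) (P2 := 536870912) (W2 := 536870912) (P3 := 740881858) (W3 := 40050571)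
    rfl k0_A05mm_012_s1

theorem s_A05mm_012_s1 {κ x : ℝ} (hκ : κ * h0 = ken x) (hx : ((740881858 : ℕ) : ℝ) / S ≤ x)
    (hx' : x ≤ (((740881858 : ℕ) : ℝ) + (40050571 : ℕ)) / S) :
    AltA (VFD κ) PP tK tL pcB [⟨3, 0, 0, 1449551462⟩] 0 1 2 0 5 (sgb false) (sgb false) x :=
  strip_altAD (m := 1449551462) true rfl hκ (SH.κ0 hκ (SH.hx1 hx).le (SH.hx2 hx').le) (SH.hx1 hx).le (SH.hx2 hx') (covB00).cov (covB51).cov hx hx' c_A05mm_012_s1 cutA_nil (noExt_A)

noncomputable def cut_A05mm_022_s1 : Cut := Cut.of [[⟨4, 0, 0, 1449551462⟩]]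

noncomputable def f_A05mm_022_s1 : ℕ → ℕ → ℕ → ℕ → Bool := onCell 0 536870912 1073741824 536870912 740881858 40050571
    (rowF 0 true false false .pp 0 2 2 (qsf 0 536870912 1073741824 536870912 2) ndB0q0 ndB5q2 pcB2 cut_A05mm_022_s1 Ext.none)

def k0_A05mm_022_s1 : ∃ t, chk3 f_A05mm_022_s1 t 1 1 1 = true :=
  ⟨(l 4), by decide +kernel⟩

theorem c_A05mm_022_s1 : CertF 0 536870912 1073741824 536870912 740881858 40050571 true false false .pp 0 2 2
    ndB0q0 ndB5q2 pcB2 cut_A05mm_022_s1 Ext.none :=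
  certF0 (fam := true) (s1 := false) (s2 := false) (a := 0) (b := 2) (c := 2) (cn := .pp) (n1 := ndB0q0) (n2 := ndB5q2) (pc := pcB2) (cut := cut_A05mm_022_s1) (xt := Ext.none) (P1 := 0) (W1 := 536870912) (P2 := 1073741824) (W2 := 536870912) (P3 := 740881858) (W3 := 40050571)
    rfl k0_A05mm_022_s1

theorem s_A05mm_022_s1 {κ x : ℝ} (hκ : κ * h0 = ken x) (hx : ((740881858 : ℕ) : ℝ) / S ≤ x)
    (hx' : x ≤ (((740881858 : ℕ) : ℝ) + (40050571 : ℕ)) / S) :
    AltA (VFD κ) PP tK tL pcB [⟨3, 0, 0, 1449551462⟩] 0 2 2 0 5 (sgb false) (sgb false) x :=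
  strip_altAD (m := 1449551462) true rfl hκ (SH.κ0 hκ (SH.hx1 hx).le (SH.hx2 hx').le) (SH.hx1 hx).le (SH.hx2 hx') (covB00).cov (covB52).cov hx hx' c_A05mm_022_s1 cutA_nil (noExt_A)

noncomputable def cut_A05mm_023_s1 : Cut := Cut.of [[⟨4, 0, 0, 1449551462⟩]]

noncomputable def f_A05mm_023_s1 : ℕ → ℕ → ℕ → ℕ → Bool := onCell 0 536870912 1073741824 536870912 740881858 40050571
    (rowF 0 true false false .up 0 2 3 (qsf 0 536870912 1073741824 536870912 3) ndB0q0 ndB5q2 pcB3 cut_A05mm_023_s1 Ext.none)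

def k0_A05mm_023_s1 : ∃ t, chk3 f_A05mm_023_s1 t 1 1 1 = true :=
  ⟨(l 4), by decide +kernel⟩

theorem c_A05mm_023_s1 : CertF 0 536870912 1073741824 536870912 740881858 40050571 true false false .up 0 2 3
    ndB0q0 ndB5q2 pcB3 cut_A05mm_023_s1 Ext.none :=
  certF0 (fam := true) (s1 := false) (s2 := false) (a := 0) (b := 2) (c := 3) (cn := .up) (n1 := ndB0q0) (n2 := ndB5q2) (pc := pcB3) (cut := cut_A05mm_023_s1) (xt := Ext.none) (P1 := 0) (W1 := 536870912) (P2 := 1073741824) (W2 := 536870912) (P3 := 740881858) (W3 := 40050571)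
    rfl k0_A05mm_023_s1

theorem s_A05mm_023_s1 {κ x : ℝ} (hκ : κ * h0 = ken x) (hx : ((740881858 : ℕ) : ℝ) / S ≤ x)
    (hx' : x ≤ (((740881858 : ℕ) : ℝ) + (40050571 : ℕ)) / S) :
    AltA (VFD κ) PP tK tL pcB [⟨3, 0, 0, 1449551462⟩] 0 2 3 0 5 (sgb false) (sgb false) x :=
  strip_altAD (m := 1449551462) true rfl hκ (SH.κ0 hκ (SH.hx1 hx).le (SH.hx2 hx').le) (SH.hx1 hx).le (SH.hx2 hx') (covB00).cov (covB52).cov hx hx' c_A05mm_023_s1 cutA_nil (noExt_A)

noncomputable def cut_A05mm_033_s1 : Cut := Cut.of [[⟨4, 0, 0, 1449551462⟩]]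

noncomputable def f_A05mm_033_s1 : ℕ → ℕ → ℕ → ℕ → Bool := onCell 0 536870912 0 1230186008 740881858 40050571
    (rowF 0 true false false .pnn 0 3 3 (qsf 0 536870912 0 1230186008 3) ndB0q0 ndB5q3 pcB3 cut_A05mm_033_s1 Ext.none)

def k0_A05mm_033_s1 : ∃ t, chk3 f_A05mm_033_s1 t 1 1 1 = true :=
  ⟨(l 4), by decide +kernel⟩

theorem c_A05mm_033_s1 : CertF 0 536870912 0 1230186008 740881858 40050571 true false false .pnn 0 3 3
    ndB0q0 ndB5q3 pcB3 cut_A05mm_033_s1 Ext.none :=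
  certF0 (fam := true) (s1 := false) (s2 := false) (a := 0) (b := 3) (c := 3) (cn := .pnn) (n1 := ndB0q0) (n2 := ndB5q3) (pc := pcB3) (cut := cut_A05mm_033_s1) (xt := Ext.none) (P1 := 0) (W1 := 536870912) (P2 := 0) (W2 := 1230186008) (P3 := 740881858) (W3 := 40050571)
    rfl k0_A05mm_033_s1

theorem s_A05mm_033_s1 {κ x : ℝ} (hκ : κ * h0 = ken x) (hx : ((740881858 : ℕ) : ℝ) / S ≤ x)
    (hx' : x ≤ (((740881858 : ℕ) : ℝ) + (40050571 : ℕ)) / S) :
    AltA (VFD κ) PP tK tL pcB [⟨3, 0, 0, 1449551462⟩] 0 3 3 0 5 (sgb false) (sgb false) x :=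
  strip_altAD (m := 1449551462) true rfl hκ (SH.κ0 hκ (SH.hx1 hx).le (SH.hx2 hx').le) (SH.hx1 hx).le (SH.hx2 hx') (covB00).cov (covB53).cov hx hx' c_A05mm_033_s1 cutA_nil (noExt_A)

noncomputable def cut_A05mm_101_s1 : Cut := Cut.of [[⟨4, 0, 0, 1449551462⟩]]

noncomputable def f_A05mm_101_s1 : ℕ → ℕ → ℕ → ℕ → Bool := onCell 536870912 536870912 0 536870912 740881858 40050571
    (rowF 0 true false false .npn 1 0 1 (qsf 536870912 536870912 0 536870912 1) ndB0q1 ndB5q0 pcB1 cut_A05mm_101_s1 Ext.none)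

def k0_A05mm_101_s1 : ∃ t, chk3 f_A05mm_101_s1 t 1 1 1 = true :=
  ⟨(l 4), by decide +kernel⟩

theorem c_A05mm_101_s1 : CertF 536870912 536870912 0 536870912 740881858 40050571 true false false .npn 1 0 1
    ndB0q1 ndB5q0 pcB1 cut_A05mm_101_s1 Ext.none :=
  certF0 (fam := true) (s1 := false) (s2 := false) (a := 1) (b := 0) (c := 1) (cn := .npn) (n1 := ndB0q1) (n2 := ndB5q0) (pc := pcB1) (cut := cut_A05mm_101_s1) (xt := Ext.none) (P1 := 536870912) (W1 := 536870912) (P2 := 0) (W2 := 536870912) (P3 := 740881858) (W3 := 40050571)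
    rfl k0_A05mm_101_s1

theorem s_A05mm_101_s1 {κ x : ℝ} (hκ : κ * h0 = ken x) (hx : ((740881858 : ℕ) : ℝ) / S ≤ x)
    (hx' : x ≤ (((740881858 : ℕ) : ℝ) + (40050571 : ℕ)) / S) :
    AltA (VFD κ) PP tK tL pcB [⟨3, 0, 0, 1449551462⟩] 1 0 1 0 5 (sgb false) (sgb false) x :=
  strip_altAD (m := 1449551462) true rfl hκ (SH.κ0 hκ (SH.hx1 hx).le (SH.hx2 hx').le) (SH.hx1 hx).le (SH.hx2 hx') (covB01).cov (covB50).cov hx hx' c_A05mm_101_s1 cutA_nil (noExt_A)

noncomputable def cut_A05mm_102_s1 : Cut := Cut.of [[⟨4, 0, 0, 1449551462⟩]]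

noncomputable def f_A05mm_102_s1 : ℕ → ℕ → ℕ → ℕ → Bool := onCell 536870912 536870912 0 536870912 740881858 40050571
    (rowF 0 true false false .npp 1 0 2 (qsf 536870912 536870912 0 536870912 2) ndB0q1 ndB5q0 pcB2 cut_A05mm_102_s1 Ext.none)

def k0_A05mm_102_s1 : ∃ t, chk3 f_A05mm_102_s1 t 1 1 1 = true :=
  ⟨(l 4), by decide +kernel⟩

theorem c_A05mm_102_s1 : CertF 536870912 536870912 0 536870912 740881858 40050571 true false false .npp 1 0 2
    ndB0q1 ndB5q0 pcB2 cut_A05mm_102_s1 Ext.none :=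
  certF0 (fam := true) (s1 := false) (s2 := false) (a := 1) (b := 0) (c := 2) (cn := .npp) (n1 := ndB0q1) (n2 := ndB5q0) (pc := pcB2) (cut := cut_A05mm_102_s1) (xt := Ext.none) (P1 := 536870912) (W1 := 536870912) (P2 := 0) (W2 := 536870912) (P3 := 740881858) (W3 := 40050571)
    rfl k0_A05mm_102_s1

theorem s_A05mm_102_s1 {κ x : ℝ} (hκ : κ * h0 = ken x) (hx : ((740881858 : ℕ) : ℝ) / S ≤ x)
    (hx' : x ≤ (((740881858 : ℕ) : ℝ) + (40050571 : ℕ)) / S) :
    AltA (VFD κ) PP tK tL pcB [⟨3, 0, 0, 1449551462⟩] 1 0 2 0 5 (sgb false) (sgb false) x :=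
  strip_altAD (m := 1449551462) true rfl hκ (SH.κ0 hκ (SH.hx1 hx).le (SH.hx2 hx').le) (SH.hx1 hx).le (SH.hx2 hx') (covB01).cov (covB50).cov hx hx' c_A05mm_102_s1 cutA_nil (noExt_A)

noncomputable def cut_A05mm_112_s1 : Cut := Cut.of [[⟨4, 0, 0, 1449551462⟩]]

noncomputable def f_A05mm_112_s1 : ℕ → ℕ → ℕ → ℕ → Bool := onCell 536870912 536870912 536870912 536870912 740881858 40050571
    (rowF 0 true false false .dn 1 1 2 (qsf 536870912 536870912 536870912 536870912 2) ndB0q1 ndB5q1 pcB2 cut_A05mm_112_s1 Ext.none)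

def k0_A05mm_112_s1 : ∃ t, chk3 f_A05mm_112_s1 t 1 1 1 = true :=
  ⟨(l 4), by decide +kernel⟩

theorem c_A05mm_112_s1 : CertF 536870912 536870912 536870912 536870912 740881858 40050571 true false false .dn 1 1 2
    ndB0q1 ndB5q1 pcB2 cut_A05mm_112_s1 Ext.none :=
  certF0 (fam := true) (s1 := false) (s2 := false) (a := 1) (b := 1) (c := 2) (cn := .dn) (n1 := ndB0q1) (n2 := ndB5q1) (pc := pcB2) (cut := cut_A05mm_112_s1) (xt := Ext.none) (P1 := 536870912) (W1 := 536870912) (P2 := 536870912) (W2 := 536870912) (P3 := 740881858) (W3 := 40050571)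
    rfl k0_A05mm_112_s1

theorem s_A05mm_112_s1 {κ x : ℝ} (hκ : κ * h0 = ken x) (hx : ((740881858 : ℕ) : ℝ) / S ≤ x)
    (hx' : x ≤ (((740881858 : ℕ) : ℝ) + (40050571 : ℕ)) / S) :
    AltA (VFD κ) PP tK tL pcB [⟨3, 0, 0, 1449551462⟩] 1 1 2 0 5 (sgb false) (sgb false) x :=
  strip_altAD (m := 1449551462) true rfl hκ (SH.κ0 hκ (SH.hx1 hx).le (SH.hx2 hx').le) (SH.hx1 hx).le (SH.hx2 hx') (covB01).cov (covB51).cov hx hx' c_A05mm_112_s1 cutA_nil (noExt_A)

noncomputable def cut_A05mm_113_s1 : Cut := Cut.of [[⟨4, 0, 0, 1449551462⟩]]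

noncomputable def f_A05mm_113_s1 : ℕ → ℕ → ℕ → ℕ → Bool := onCell 536870912 536870912 536870912 536870912 740881858 40050571
    (rowF 0 true false false .nn 1 1 3 (qsf 536870912 536870912 536870912 536870912 3) ndB0q1 ndB5q1 pcB3 cut_A05mm_113_s1 Ext.none)

def k0_A05mm_113_s1 : ∃ t, chk3 f_A05mm_113_s1 t 1 1 1 = true :=
  ⟨(l 4), by decide +kernel⟩

theorem c_A05mm_113_s1 : CertF 536870912 536870912 536870912 536870912 740881858 40050571 true false false .nn 1 1 3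
    ndB0q1 ndB5q1 pcB3 cut_A05mm_113_s1 Ext.none :=
  certF0 (fam := true) (s1 := false) (s2 := false) (a := 1) (b := 1) (c := 3) (cn := .nn) (n1 := ndB0q1) (n2 := ndB5q1) (pc := pcB3) (cut := cut_A05mm_113_s1) (xt := Ext.none) (P1 := 536870912) (W1 := 536870912) (P2 := 536870912) (W2 := 536870912) (P3 := 740881858) (W3 := 40050571)
    rfl k0_A05mm_113_s1

theorem s_A05mm_113_s1 {κ x : ℝ} (hκ : κ * h0 = ken x) (hx : ((740881858 : ℕ) : ℝ) / S ≤ x)
    (hx' : x ≤ (((740881858 : ℕ) : ℝ) + (40050571 : ℕ)) / S) :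
    AltA (VFD κ) PP tK tL pcB [⟨3, 0, 0, 1449551462⟩] 1 1 3 0 5 (sgb false) (sgb false) x :=
  strip_altAD (m := 1449551462) true rfl hκ (SH.κ0 hκ (SH.hx1 hx).le (SH.hx2 hx').le) (SH.hx1 hx).le (SH.hx2 hx') (covB01).cov (covB51).cov hx hx' c_A05mm_113_s1 cutA_nil (noExt_A)

noncomputable def cut_A05mm_123_s1 : Cut := Cut.of [[⟨4, 0, 0, 1449551462⟩]]

noncomputable def f_A05mm_123_s1 : ℕ → ℕ → ℕ → ℕ → Bool := onCell 536870912 536870912 1073741824 536870912 740881858 40050571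
    (rowF 0 true false false .npn 1 2 3 (qsf 536870912 536870912 1073741824 536870912 3) ndB0q1 ndB5q2 pcB3 cut_A05mm_123_s1 Ext.none)

def k0_A05mm_123_s1 : ∃ t, chk3 f_A05mm_123_s1 t 1 1 1 = true :=
  ⟨(l 4), by decide +kernel⟩

theorem c_A05mm_123_s1 : CertF 536870912 536870912 1073741824 536870912 740881858 40050571 true false false .npn 1 2 3
    ndB0q1 ndB5q2 pcB3 cut_A05mm_123_s1 Ext.none :=
  certF0 (fam := true) (s1 := false) (s2 := false) (a := 1) (b := 2) (c := 3) (cn := .npn) (n1 := ndB0q1) (n2 := ndB5q2) (pc := pcB3) (cut := cut_A05mm_123_s1) (xt := Ext.none) (P1 := 536870912) (W1 := 536870912) (P2 := 1073741824) (W2 := 536870912) (P3 := 740881858) (W3 := 40050571)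
    rfl k0_A05mm_123_s1

theorem s_A05mm_123_s1 {κ x : ℝ} (hκ : κ * h0 = ken x) (hx : ((740881858 : ℕ) : ℝ) / S ≤ x)
    (hx' : x ≤ (((740881858 : ℕ) : ℝ) + (40050571 : ℕ)) / S) :
    AltA (VFD κ) PP tK tL pcB [⟨3, 0, 0, 1449551462⟩] 1 2 3 0 5 (sgb false) (sgb false) x :=
  strip_altAD (m := 1449551462) true rfl hκ (SH.κ0 hκ (SH.hx1 hx).le (SH.hx2 hx').le) (SH.hx1 hx).le (SH.hx2 hx') (covB01).cov (covB52).cov hx hx' c_A05mm_123_s1 cutA_nil (noExt_A)

noncomputable def cut_A05mm_133_s1 : Cut := Cut.of [[⟨4, 0, 0, 1449551462⟩]]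

noncomputable def f_A05mm_133_s1 : ℕ → ℕ → ℕ → ℕ → Bool := onCell 536870912 536870912 0 1230186008 740881858 40050571
    (rowF 0 true false false .dn 1 3 3 (qsf 536870912 536870912 0 1230186008 3) ndB0q1 ndB5q3 pcB3 cut_A05mm_133_s1 Ext.none)

def k0_A05mm_133_s1 : ∃ t, chk3 f_A05mm_133_s1 t 1 1 1 = true :=
  ⟨(l 4), by decide +kernel⟩

theorem c_A05mm_133_s1 : CertF 536870912 536870912 0 1230186008 740881858 40050571 true false false .dn 1 3 3
    ndB0q1 ndB5q3 pcB3 cut_A05mm_133_s1 Ext.none :=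
  certF0 (fam := true) (s1 := false) (s2 := false) (a := 1) (b := 3) (c := 3) (cn := .dn) (n1 := ndB0q1) (n2 := ndB5q3) (pc := pcB3) (cut := cut_A05mm_133_s1) (xt := Ext.none) (P1 := 536870912) (W1 := 536870912) (P2 := 0) (W2 := 1230186008) (P3 := 740881858) (W3 := 40050571)
    rfl k0_A05mm_133_s1

theorem s_A05mm_133_s1 {κ x : ℝ} (hκ : κ * h0 = ken x) (hx : ((740881858 : ℕ) : ℝ) / S ≤ x)
    (hx' : x ≤ (((740881858 : ℕ) : ℝ) + (40050571 : ℕ)) / S) :
    AltA (VFD κ) PP tK tL pcB [⟨3, 0, 0, 1449551462⟩] 1 3 3 0 5 (sgb false) (sgb false) x :=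
  strip_altAD (m := 1449551462) true rfl hκ (SH.κ0 hκ (SH.hx1 hx).le (SH.hx2 hx').le) (SH.hx1 hx).le (SH.hx2 hx') (covB01).cov (covB53).cov hx hx' c_A05mm_133_s1 cutA_nil (noExt_A)

noncomputable def cut_A05mm_202_s1 : Cut := Cut.of [[⟨4, 0, 0, 1449551462⟩]]

noncomputable def f_A05mm_202_s1 : ℕ → ℕ → ℕ → ℕ → Bool := onCell 0 536870912 0 536870912 740881858 40050571
    (rowF 0 true false false .pp 2 0 2 (qsf 0 536870912 0 536870912 2) ndB0q2 ndB5q0 pcB2 cut_A05mm_202_s1 Ext.none)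

def k0_A05mm_202_s1 : ∃ t, chk3 f_A05mm_202_s1 t 1 1 1 = true :=
  ⟨(l 4), by decide +kernel⟩

theorem c_A05mm_202_s1 : CertF 0 536870912 0 536870912 740881858 40050571 true false false .pp 2 0 2
    ndB0q2 ndB5q0 pcB2 cut_A05mm_202_s1 Ext.none :=
  certF0 (fam := true) (s1 := false) (s2 := false) (a := 2) (b := 0) (c := 2) (cn := .pp) (n1 := ndB0q2) (n2 := ndB5q0) (pc := pcB2) (cut := cut_A05mm_202_s1) (xt := Ext.none) (P1 := 0) (W1 := 536870912) (P2 := 0) (W2 := 536870912) (P3 := 740881858) (W3 := 40050571)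
    rfl k0_A05mm_202_s1

theorem s_A05mm_202_s1 {κ x : ℝ} (hκ : κ * h0 = ken x) (hx : ((740881858 : ℕ) : ℝ) / S ≤ x)
    (hx' : x ≤ (((740881858 : ℕ) : ℝ) + (40050571 : ℕ)) / S) :
    AltA (VFD κ) PP tK tL pcB [⟨3, 0, 0, 1449551462⟩] 2 0 2 0 5 (sgb false) (sgb false) x :=
  strip_altAD (m := 1449551462) true rfl hκ (SH.κ0 hκ (SH.hx1 hx).le (SH.hx2 hx').le) (SH.hx1 hx).le (SH.hx2 hx') (covB02).cov (covB50).cov hx hx' c_A05mm_202_s1 cutA_nil (noExt_A)

noncomputable def cut_A05mm_203_s1 : Cut := Cut.of [[⟨4, 0, 0, 1449551462⟩]]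

noncomputable def f_A05mm_203_s1 : ℕ → ℕ → ℕ → ℕ → Bool := onCell 0 536870912 0 536870912 740881858 40050571
    (rowF 0 true false false .up 2 0 3 (qsf 0 536870912 0 536870912 3) ndB0q2 ndB5q0 pcB3 cut_A05mm_203_s1 Ext.none)

def k0_A05mm_203_s1 : ∃ t, chk3 f_A05mm_203_s1 t 1 1 1 = true :=
  ⟨(l 4), by decide +kernel⟩

theorem c_A05mm_203_s1 : CertF 0 536870912 0 536870912 740881858 40050571 true false false .up 2 0 3
    ndB0q2 ndB5q0 pcB3 cut_A05mm_203_s1 Ext.none :=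
  certF0 (fam := true) (s1 := false) (s2 := false) (a := 2) (b := 0) (c := 3) (cn := .up) (n1 := ndB0q2) (n2 := ndB5q0) (pc := pcB3) (cut := cut_A05mm_203_s1) (xt := Ext.none) (P1 := 0) (W1 := 536870912) (P2 := 0) (W2 := 536870912) (P3 := 740881858) (W3 := 40050571)
    rfl k0_A05mm_203_s1

theorem s_A05mm_203_s1 {κ x : ℝ} (hκ : κ * h0 = ken x) (hx : ((740881858 : ℕ) : ℝ) / S ≤ x)
    (hx' : x ≤ (((740881858 : ℕ) : ℝ) + (40050571 : ℕ)) / S) :
    AltA (VFD κ) PP tK tL pcB [⟨3, 0, 0, 1449551462⟩] 2 0 3 0 5 (sgb false) (sgb false) x :=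
  strip_altAD (m := 1449551462) true rfl hκ (SH.κ0 hκ (SH.hx1 hx).le (SH.hx2 hx').le) (SH.hx1 hx).le (SH.hx2 hx') (covB02).cov (covB50).cov hx hx' c_A05mm_203_s1 cutA_nil (noExt_A)

noncomputable def cut_A05mm_213_s1 : Cut := Cut.of [[⟨4, 0, 0, 1449551462⟩]]

noncomputable def f_A05mm_213_s1 : ℕ → ℕ → ℕ → ℕ → Bool := onCell 0 536870912 536870912 536870912 740881858 40050571
    (rowF 0 true false false .pnn 2 1 3 (qsf 0 536870912 536870912 536870912 3) ndB0q2 ndB5q1 pcB3 cut_A05mm_213_s1 Ext.none)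

def k0_A05mm_213_s1 : ∃ t, chk3 f_A05mm_213_s1 t 1 1 1 = true :=
  ⟨(l 4), by decide +kernel⟩

theorem c_A05mm_213_s1 : CertF 0 536870912 536870912 536870912 740881858 40050571 true false false .pnn 2 1 3
    ndB0q2 ndB5q1 pcB3 cut_A05mm_213_s1 Ext.none :=
  certF0 (fam := true) (s1 := false) (s2 := false) (a := 2) (b := 1) (c := 3) (cn := .pnn) (n1 := ndB0q2) (n2 := ndB5q1) (pc := pcB3) (cut := cut_A05mm_213_s1) (xt := Ext.none) (P1 := 0) (W1 := 536870912) (P2 := 536870912) (W2 := 536870912) (P3 := 740881858) (W3 := 40050571)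
    rfl k0_A05mm_213_s1

theorem s_A05mm_213_s1 {κ x : ℝ} (hκ : κ * h0 = ken x) (hx : ((740881858 : ℕ) : ℝ) / S ≤ x)
    (hx' : x ≤ (((740881858 : ℕ) : ℝ) + (40050571 : ℕ)) / S) :
    AltA (VFD κ) PP tK tL pcB [⟨3, 0, 0, 1449551462⟩] 2 1 3 0 5 (sgb false) (sgb false) x :=
  strip_altAD (m := 1449551462) true rfl hκ (SH.κ0 hκ (SH.hx1 hx).le (SH.hx2 hx').le) (SH.hx1 hx).le (SH.hx2 hx') (covB02).cov (covB51).cov hx hx' c_A05mm_213_s1 cutA_nil (noExt_A)

noncomputable def cut_B00pp_001_s1 : Cut := Cut.of [[⟨4, 0, 0, 1449551462⟩]]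

noncomputable def f_B00pp_001_s1 : ℕ → ℕ → ℕ → ℕ → Bool := onCell 0 536870912 0 536870912 740881858 40050571
    (rowF 1 false true true .up 0 0 1 (qsf 0 536870912 536870912 536870912 0) ndB0q0 ndB0q1 pcB0 cut_B00pp_001_s1 Ext.none)

def k0_B00pp_001_s1 : ∃ t, chk3 f_B00pp_001_s1 t 1 1 1 = true :=
  ⟨(l 3), by decide +kernel⟩

theorem c_B00pp_001_s1 : CertF 0 536870912 536870912 536870912 740881858 40050571 false true true .up 0 0 1
    ndB0q0 ndB0q1 pcB0 cut_B00pp_001_s1 Ext.none :=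
  certF1 (fam := false) (s1 := true) (s2 := true) (a := 0) (b := 0) (c := 1) (cn := .up) (n1 := ndB0q0) (n2 := ndB0q1) (pc := pcB0) (cut := cut_B00pp_001_s1) (xt := Ext.none) (P1 := 0) (W1 := 536870912) (P2 := 536870912) (W2 := 536870912) (P3 := 740881858) (W3 := 40050571)
    rfl (fun _ => rfl) k0_B00pp_001_s1

theorem s_B00pp_001_s1 {κ x : ℝ} (hκ : κ * h0 = ken x) (hx : ((740881858 : ℕ) : ℝ) / S ≤ x)
    (hx' : x ≤ (((740881858 : ℕ) : ℝ) + (40050571 : ℕ)) / S) :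
    AltB (VFD κ) PP tK tL pcB [⟨3, 0, 0, 1449551462⟩] 0 0 1 0 0 (sgb true) (sgb true) x :=
  strip_altBD (m := 1449551462) true rfl hκ (SH.κ0 hκ (SH.hx1 hx).le (SH.hx2 hx').le) (SH.hx1 hx).le (SH.hx2 hx') (covB00).cov (covB01).cov hx hx' c_B00pp_001_s1 cutB_nil (noExt_B)

noncomputable def cut_B00pp_001_s3 : Cut := Cut.of [[⟨3, 0, 0, 2845415833⟩]]

noncomputable def f_B00pp_001_s3 : ℕ → ℕ → ℕ → ℕ → Bool := onCell 0 536870912 536870912 536870912 740881858 40050571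
    (rowF 0 false true true .up 0 0 1 (qsf 0 536870912 536870912 536870912 0) ndB0q0 ndB0q1 pcB0 cut_B00pp_001_s3 Ext.none)

def k0_B00pp_001_s3 : ∃ t, chk3 f_B00pp_001_s3 t 1 1 1 = true :=
  ⟨(l 6), by decide +kernel⟩

theorem c_B00pp_001_s3 : CertF 0 536870912 536870912 536870912 740881858 40050571 false true true .up 0 0 1
    ndB0q0 ndB0q1 pcB0 cut_B00pp_001_s3 Ext.none :=
  certF0 (fam := false) (s1 := true) (s2 := true) (a := 0) (b := 0) (c := 1) (cn := .up) (n1 := ndB0q0) (n2 := ndB0q1) (pc := pcB0) (cut := cut_B00pp_001_s3) (xt := Ext.none) (P1 := 0) (W1 := 536870912) (P2 := 536870912) (W2 := 536870912) (P3 := 740881858) (W3 := 40050571)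
    rfl k0_B00pp_001_s3

theorem s_B00pp_001_s3 {κ x : ℝ} (hκ : κ * h0 = ken x) (hx : ((740881858 : ℕ) : ℝ) / S ≤ x)
    (hx' : x ≤ (((740881858 : ℕ) : ℝ) + (40050571 : ℕ)) / S) :
    AltB (VFD κ) PP tK tL pcB [⟨4, 0, 0, 2845415833⟩] 0 0 1 0 0 (sgb true) (sgb true) x :=
  strip_altBD (m := 2845415833) false rfl hκ (SH.κ0 hκ (SH.hx1 hx).le (SH.hx2 hx').le) (SH.hx1 hx).le (SH.hx2 hx') (covB00).cov (covB01).cov hx hx' c_B00pp_001_s3 cutB_nil (noExt_B)

noncomputable def cut_B00pp_011_s1 : Cut := Cut.of [[⟨4, 0, 0, 1449551462⟩], [⟨0, 0, 0, 67108864⟩, ⟨1, 1, 0, 67108864⟩, ⟨2, 1, 0, 67108864⟩]]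

noncomputable def f_B00pp_011_s1 : ℕ → ℕ → ℕ → ℕ → Bool := onCell 536870912 536870912 536870912 536870912 740881858 40050571
    (rowF 2 false true true .pnn 0 1 1 (qsf 0 536870912 536870912 536870912 1) ndB0q0 ndB0q1 pcB1 cut_B00pp_011_s1 Ext.none)

def k0_B00pp_011_s1 : ∃ t, chk3 f_B00pp_011_s1 t 1 1 1 = true :=
  ⟨(a (l 3) (b (l 3) (a (l 3) (b (l 3) (a (l 3) (b (l 3) (b (l 3) (a (l 3) (l 14))))))))), by decide +kernel⟩

theorem c_B00pp_011_s1 : CertF 0 536870912 536870912 536870912 740881858 40050571 false true true .pnn 0 1 1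
    ndB0q0 ndB0q1 pcB1 cut_B00pp_011_s1 Ext.none :=
  certF2 (fam := false) (s1 := true) (s2 := true) (a := 0) (b := 1) (c := 1) (cn := .pnn) (n1 := ndB0q0) (n2 := ndB0q1) (pc := pcB1) (cut := cut_B00pp_011_s1) (xt := Ext.none) (P1 := 0) (W1 := 536870912) (P2 := 536870912) (W2 := 536870912) (P3 := 740881858) (W3 := 40050571)
    rfl (fun _ => rfl) k0_B00pp_011_s1

theorem s_B00pp_011_s1 {κ x : ℝ} (hκ : κ * h0 = ken x) (hx : ((740881858 : ℕ) : ℝ) / S ≤ x)
    (hx' : x ≤ (((740881858 : ℕ) : ℝ) + (40050571 : ℕ)) / S)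
    (H : CutB (VFD κ) PP tK tL pcB (Cut.of [[⟨0, 0, 0, 67108864⟩, ⟨1, 1, 0, 67108864⟩, ⟨2, 1, 0, 67108864⟩]]) 0 1 1 0 0 (sgb true) (sgb true) x) :
    AltB (VFD κ) PP tK tL pcB [⟨3, 0, 0, 1449551462⟩] 0 1 1 0 0 (sgb true) (sgb true) x :=
  strip_altBD (m := 1449551462) true rfl hκ (SH.κ0 hκ (SH.hx1 hx).le (SH.hx2 hx').le) (SH.hx1 hx).le (SH.hx2 hx') (covB00).cov (covB01).cov hx hx' c_B00pp_011_s1 H (noExt_B)

noncomputable def cut_B00pp_011_s3 : Cut := Cut.of [[⟨3, 0, 0, 2845415833⟩], [⟨0, 0, 0, 67108864⟩, ⟨1, 1, 0, 67108864⟩, ⟨2, 1, 0, 67108864⟩]]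

noncomputable def f_B00pp_011_s3 : ℕ → ℕ → ℕ → ℕ → Bool := onCell 0 536870912 536870912 536870912 740881858 40050571
    (rowF 0 false true true .pnn 0 1 1 (qsf 0 536870912 536870912 536870912 1) ndB0q0 ndB0q1 pcB1 cut_B00pp_011_s3 Ext.none)

def k0_B00pp_011_s3 : ∃ t, chk3 f_B00pp_011_s3 t 1 1 1 = true :=
  ⟨(l 6), by decide +kernel⟩

theorem c_B00pp_011_s3 : CertF 0 536870912 536870912 536870912 740881858 40050571 false true true .pnn 0 1 1
    ndB0q0 ndB0q1 pcB1 cut_B00pp_011_s3 Ext.none :=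
  certF0 (fam := false) (s1 := true) (s2 := true) (a := 0) (b := 1) (c := 1) (cn := .pnn) (n1 := ndB0q0) (n2 := ndB0q1) (pc := pcB1) (cut := cut_B00pp_011_s3) (xt := Ext.none) (P1 := 0) (W1 := 536870912) (P2 := 536870912) (W2 := 536870912) (P3 := 740881858) (W3 := 40050571)
    rfl k0_B00pp_011_s3

theorem s_B00pp_011_s3 {κ x : ℝ} (hκ : κ * h0 = ken x) (hx : ((740881858 : ℕ) : ℝ) / S ≤ x)
    (hx' : x ≤ (((740881858 : ℕ) : ℝ) + (40050571 : ℕ)) / S)
    (H : CutB (VFD κ) PP tK tL pcB (Cut.of [[⟨0, 0, 0, 67108864⟩, ⟨1, 1, 0, 67108864⟩, ⟨2, 1, 0, 67108864⟩]]) 0 1 1 0 0 (sgb true) (sgb true) x) :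
    AltB (VFD κ) PP tK tL pcB [⟨4, 0, 0, 2845415833⟩] 0 1 1 0 0 (sgb true) (sgb true) x :=
  strip_altBD (m := 2845415833) false rfl hκ (SH.κ0 hκ (SH.hx1 hx).le (SH.hx2 hx').le) (SH.hx1 hx).le (SH.hx2 hx') (covB00).cov (covB01).cov hx hx' c_B00pp_011_s3 H (noExt_B)

noncomputable def cut_B00pp_012_s1 : Cut := Cut.of [[⟨4, 0, 0, 1449551462⟩], [⟨0, 0, 0, 53687091⟩, ⟨1, 1, 0, 53687091⟩, ⟨2, 1, 0, 53687091⟩]]

noncomputable def xt_B00pp_012_s1 : Ext := strExt dd false true true .u0 .u2 .u0m .pnp 0 1 2 rfl rfl gf1 vv ndB0q0 ndB0q2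

noncomputable def f_B00pp_012_s1 : ℕ → ℕ → ℕ → ℕ → Bool := onCell 536870912 536870912 0 536870912 740881858 40050571
    (rowF 2 false true true .pnp 0 1 2 (qsf 0 536870912 0 536870912 1) ndB0q0 ndB0q2 pcB1 cut_B00pp_012_s1 xt_B00pp_012_s1)

def k0_B00pp_012_s1 : ∃ t, chk3 f_B00pp_012_s1 t 4 1 1 = true :=
  ⟨(b (b (l 2) (l 3)) (l 3)), by decide +kernel⟩

def k1_B00pp_012_s1 : ∃ t, chk3 f_B00pp_012_s1 t 10 1 1 = true :=
  ⟨(a (b (a (b (l 2) (l 3)) (b (b (a (l 2) (b (l 30165372711) (b (l 26407304951) (b (l 26407314231) (l 533638671))))) (b (a (l 2) (c (l 534048783) (l 533442063))) (l 3))) (l 3))) (l 3)) (c (b (b (b (b (a (c (l 16759048) (l 16758016)) (l 16746024)) (a (b (l 533789455) (a (l 533700879) (l 16765368))) (b (l 16722072) (l 533715215)))) (b (a (a (l 534030351) (b (l 533559311) (b (l 533450511) (l 533377039)))) (b (a (l 533574927) (l 16764240)) (c (a (l 533448207) (l 533477903)) (l 533988367)))) (a (a (l 3) (a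 (l 3) (l 533334287))) (l 533403407)))) (l 3)) (l 3)) (b (b (b (a (b (l 16756280) (b (l 533681167) (l 533599503))) (b (l 16743224) (b (l 16720168) (l 533621007)))) (b (a (a (l 533432847) (b (l 533490447) (b (l 533403919) (l 533345551)))) (b (a (l 16770544) (l 16763448)) (c (l 533427215) (l 533390607)))) (a (a (l 3) (a (l 3) (l 533272335))) (l 533317903)))) (l 3)) (l 3)))), by decide +kernel⟩

def k2_B00pp_012_s1 : ∃ t, chk3 f_B00pp_012_s1 t 11 1 1 = true :=
  ⟨(a (c (b (b (a (b (b (l 16692192) (c (l 16757520) (l 16756696))) (b (b (l 533653263) (l 533562895)) (l 533497359))) (b (b (l 16680080) (l 16744776)) (b (b (l 16720352) (l 533638927)) (l 533573135)))) (b (b (l 533453327) (l 3)) (l 3))) (l 3)) (b (b (a (b (b (l 16688792) (c (l 16755648) (l 16754392))) (b (b (l 16753008) (l 533478671)) (l 533381391))) (b (b (l 16675968) (l 16742048)) (b (a (l 16770296) (l 16763504)) (l 533436431)))) (b (b (l 533282063) (l 3)) (l 3)))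 (l 3))) (c (b (b (a (b (b (l 16668912) (l 16690744)) (b (c (l 16756360) (l 16755360)) (l 533633039))) (b (b (l 16658096) (l 16720520)) (b (l 16743352) (l 533678863)))) (b (b (a (l 533540367) (l 533580815)) (a (b (l 533466383) (l 3)) (b (l 533502991) (b (l 533462543) (l 533704719))))) (l 3))) (l 3)) (b (b (b (b (a (l 16664448) (l 16653560)) (b (l 16759352) (l 16728856))) (b (a (l 16753472) (l 16740344)) (l 533780495))) (b (b (a (l 533352975) (l 533394959)) (a (b (l 533251343) (l 3)) (b (l 533292047) (b (l 533239823) (l 533743631))))) (l 3))) (l 3)))), by decide +kernel⟩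

def k3_B00pp_012_s1 : ∃ t, chk3 f_B00pp_012_s1 t 24 1 1 = true :=
  ⟨(c (b (b (b (b (l 16640720) (a (l 16687568) (l 16697256))) (b (a (l 16730936) (l 16676560)) (a (l 16754640) (l 16741696)))) (b (a (b (a (l 533603087) (l 16754720)) (b (a (l 533523983) (l 16773128)) (l 534018319))) (b (b (l 16717608) (l 16771616)) (b (l 533557519) (l 533507599)))) (b (l 533426191) (l 3)))) (l 3)) (b (b (b (b (l 16636224) (a (l 16662576) (l 16651464))) (b (b (l 16757416) (l 16727024)) (a (l 16751744) (l 16696680)))) (b (b (a (a (l 533424655) (l 16752504)) (l 16763176)) (b (a (a (l 533323535) (l 533357839)) (l 533395471)) (b (a (l 533295631) (l 533351695)) (l 533301775)))) (b (l 533234191) (l 3)))) (l 3))), by decide +kernel⟩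

def k4_B00pp_012_s1 : ∃ t, chk3 f_B00pp_012_s1 t 25 1 1 = true :=
  ⟨(c (b (b (a (b (b (l 16623992) (l 16643192)) (b (b (l 16658272) (l 16669296)) (l 16686608))) (b (b (l 16612880) (l 16631216)) (b (a (l 16696264) (l 16679584)) (l 16714880)))) (b (b (a (l 16741576) (a (l 16699544) (l 16692120))) (a (b (l 16769976) (l 533775375)) (b (l 16755320) (a (l 16729176) (l 16721408))))) (b (a (a (b (l 533458447) (l 533403663)) (b (l 16769752) (l 533393679))) (b (a (l 16741304) (l 16733440)) (b (l 533328911) (l 533285391)))) (b (a (a (l 533346319) (l 533599759)) (b (l 533243151) (l 533199375))) (a (a (l 3) (l 533238031)) (l 533109007)))))) (b (b (b (a (l 3) (b (l 532994063) (l 3))) (l 3)) (l 3)) (l 3))) (b (b (b (b (l 16614272) (l 16675560)) (a (b (l 16702064) (l 16683496)) (b (l 16689968) (l 16669896)))) (b (b (a (l 16749456) (l 16735104)) (a (b (l 16767944) (l 533365007)) (b (l 16711224) (l 16765480)))) (b (a (b (a (l 533304847)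 (l 16768584)) (a (l 533245199) (l 533248015))) (b (a (l 16739968) (l 16732024)) (b (l 533206287) (l 533163791)))) (b (a (a (l 533720591) (l 533182223)) (b (l 533120783) (l 533076751))) (a (a (l 3) (l 533101327)) (l 533004815)))))) (b (b (b (a (l 3) (b (l 532908559) (l 3))) (l 3)) (l 3)) (l 3)))), by decide +kernel⟩

def k5_B00pp_012_s1 : ∃ t, chk3 f_B00pp_012_s1 t 26 1 1 = true :=
  ⟨(c (b (b (b (b (l 16596432) (c (l 16656536) (l 16696672))) (b (a (b (l 16633352) (l 16643352)) (l 16668352)) (a (a (l 16683080) (b (l 16650160) (l 16660768))) (b (a (l 16644056) (l 16638096)) (a (l 16654056) (l 16648144)))))) (b (b (a (a (l 16684624) (l 16677272)) (b (a (l 16664832) (l 16658488)) (l 16672352))) (a (b (l 16697944) (l 16730616)) (b (l 16683392) (l 16694728)))) (b (a (b (l 16742576) (b (l 16751696) (l 16757880))) (b (l 16727344) (l 16739312))) (a (b (l 533120527) (l 533017103)) (b (l 533643279) (l 533276687)))))) (b (b (b (a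 (b (b (l 532937231) (l 532883215)) (a (l 3) (l 532795151))) (a (b (l 532899087) (l 532796431)) (b (l 532920591) (a (l 532813071) (l 532850447))))) (a (l 3) (b (b (a (l 532988431) (a (l 533009679) (l 532789263))) (a (l 3) (l 532727055))) (l 3)))) (l 3)) (l 3))) (b (b (b (b (l 16592416) (l 16694032)) (b (a (l 16635368) (l 16623344)) (a (a (l 16659152) (l 16652392)) (b (l 16638352) (l 16648384))))) (b (b (a (l 16699472) (l 16685688)) (a (b (l 16695848) (l 16707856)) (b (l 16681464) (l 16693064)))) (b (a (b (l 16762088) (l 533125647)) (b (l 16704984) (l 16759208))) (a (b (l 533036559) (l 532947215)) (b (l 533046287) (l 533499407)))))) (b (b (b (a (b (b (l 532879631) (l 532833807)) (a (l 3) (l 532763919))) (b (a (l 532864015) (l 532893967)) (a (l 532775951) (b (l 532831247) (l 533058063))))) (a (l 3) (b (a (b (l 532977423) (l 3)) (b (a (l 532734479) (l 532776207)) (l 532714511))) (l 3)))) (l 3)) (l 3)))), by decide +kernel⟩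

def k6_B00pp_012_s1 : ∃ t, chk3 f_B00pp_012_s1 t 27 1 1 = true :=
  ⟨(b (b (a (b (b (l 6) (l 16596504)) (b (l 16656392) (c (b (l 16630088) (a (l 16642704) (l 16637416))) (l 16674672)))) (b (l 6) (b (l 16605600) (a (l 16647536) (l 16622304))))) (b (a (c (b (a (b (l 16652616) (l 16663056)) (b (l 16647472) (l 16657608))) (b (l 16670784) (l 16681648))) (b (b (l 16647728) (l 16658280)) (b (l 16669008) (l 16680080)))) (b (c (b (a (l 16642736) (l 16638168)) (a (l 16652664) (l 16648328))) (b (l 16638640) (l 16648712))) (c (b (l 16660560) (l 16670904)) (b (l 16658928) (l 16669408))))) (b (a (b (c (l 16692864) (l 16691520)) (c (l 16746456) (l 16703424))) (b (c (l 16681616) (l 16680272)) (c (l 16692664) (l 16691536)))) (a (b (b (l 16754904) (l 16761064)) (a (l 533052687) (l 16746136))) (b (c (l 16746144) (l 16703328)) (l 533248783)))))) (b (b (b (b (a (a (l 533515279) (l 533059087)) (a (l 533410575) (l 16724552))) (a (a (c (l 533449231)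 (l 533161231)) (b (l 533006095) (l 532968975))) (b (l 533133071) (l 532559887)))) (b (a (a (l 532824591) (b (l 532929039) (l 532888079))) (b (a (l 533014543) (l 533101583)) (a (l 532973327) (l 533060879)))) (a (b (a (c (l 532772111) (l 532751375)) (b (l 532857103) (l 532836111))) (a (l 3) (l 532804623))) (b (a (l 532932111) (l 533019919)) (a (l 532890639) (l 532978447)))))) (a (l 3) (b (b (b (a (l 532848655) (l 532936719)) (a (l 3) (b (l 532905487) (l 532884495)))) (b (b (a (l 3) (a (l 3) (l 532886031))) (l 3)) (l 3))) (l 3)))) (l 3))), by decide +kernel⟩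

def k7_B00pp_012_s1 : ∃ t, chk3 f_B00pp_012_s1 t 7 2 1 = true :=
  ⟨(b (b (l 6) (a (a (a (b (l 16598264) (l 16658408)) (b (l 6) (l 16609504))) (b (l 6) (l 16600136))) (l 6))) (a (b (a (a (b (a (b (l 16633024) (l 16643352)) (l 16634216)) (a (b (l 16653384) (l 16663368)) (b (l 16649536) (l 16659344)))) (b (l 16670504) (b (l 16685840) (a (l 16655704) (l 16652232))))) (b (l 16639392) (a (l 16641752) (l 16635360)))) (b (a (a (b (l 16692400) (l 16661000)) (b (l 16621496) (l 16673176))) (a (a (l 16663368) (l 16660424)) (l 16671592))) (a (a (b (l 16692944) (l 16704208)) (b (l 16683376) (l 16693872))) (a (b (l 16675616) (l 16683472)) (b (l 16660264) (l 16667416)))))) (b (a (b (l 16603072) (l 16614952)) (a (b (l 6) (l 16588720)) (l 6))) (a (b (a (l 16634648) (l 16575080)) (a (b (l 16642632) (l 16606576)) (b (l 16623656) (a (l 16633296) (l 16622992))))) (b (a (l 16597632) (l 16536040)) (a (b (l 16603480) (l 16607328)) (a (l 16590184)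 (l 16622552)))))))), by decide +kernel⟩

def k8_B00pp_012_s1 : ∃ t, chk3 f_B00pp_012_s1 t 14 12 1 = true :=
  ⟨(a (b (a (b (a (l 16718512) (l 16712704)) (a (l 533247503) (l 16734376))) (b (l 16704280) (l 533964303))) (a (b (a (l 533169679) (l 533244687)) (a (b (l 533108495) (l 532528655)) (a (l 533141007) (l 533164047)))) (b (a (l 533302031) (l 16743304)) (a (l 533198863) (l 533267727))))) (b (a (b (l 16691976) (l 16722640)) (b (l 16675520) (l 16684704))) (a (b (b (l 16730456) (l 16730552)) (a (l 533352719) (l 16739616))) (b (l 16715752) (a (l 16709840) (l 16721200)))))), by decide +kernel⟩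

def k9_B00pp_012_s1 : ∃ t, chk3 f_B00pp_012_s1 t 28 13 1 = true :=
  ⟨(a (b (a (b (a (l 533251855) (b (l 533045007) (a (l 532994575) (l 533011727)))) (a (b (b (l 532931343) (b (l 532915727) (b (l 532907791) (l 3)))) (l 3)) (b (b (a (l 532962831) (l 532967439)) (a (b (a (l 532942863) (l 532944911)) (a (b (l 532934671) (l 533063951)) (l 532931599))) (b (l 532947983) (l 532937743)))) (b (a (l 532919311) (l 532925967)) (l 3))))) (b (b (a (l 533069071) (l 533085455)) (a (a (l 533013007) (l 533019407)) (l 533032719))) (b (a (b (a (l 532972815) (l 532981007)) (a (b (l 532954895) (l 532945679)) (l 532959759))) (b (l 532996879) (a (l 532971023) (l 532984335)))) (a (b (a (b (l 532937999) (a (b (l 532930063) (l 532926223)) (l 532932879))) (b (l 532947983) (l 532940559))) (a (a (b (a (l 532919311) (l 532921359)) (l 3)) (l 532921103)) (l 532929039))) (b (a (l 532956175) (l 532969743)) (l 532947983)))))) (a (l 3) (b (b (a (a (l 3)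 (b (l 532913423) (l 3))) (a (b (l 532925967) (l 3)) (l 532932367))) (l 3)) (l 3)))) (b (b (a (b (l 533121807) (a (l 533058319) (l 533091343))) (b (l 533197071) (l 533154063))) (a (b (a (b (l 533025295) (l 533007375)) (l 532783631)) (a (b (l 532993551) (l 532979471)) (l 533024271))) (b (l 533118479) (l 533093135)))) (b (a (a (b (l 532688655) (a (l 532849423) (l 532935183))) (b (l 532996367) (l 532965903))) (b (l 533046799) (a (l 532981007) (l 532949263)))) (a (b (a (l 3) (a (l 3) (l 532927759))) (l 3)) (b (a (l 532906255) (l 532606223)) (a (l 3) (c (l 532809487) (l 532807695)))))))), by decide +kernel⟩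

def k10_B00pp_012_s1 : ∃ t, chk3 f_B00pp_012_s1 t 29 13 1 = true :=
  ⟨(b (a (b (a (l 533796367) (l 533453071)) (a (b (l 533157135) (l 533064975)) (b (l 533074447) (l 532981519)))) (b (a (c (l 533089039) (l 16720240)) (a (l 16733960) (l 16728872))) (a (b (l 532162319) (a (l 532903183) (l 532837135))) (b (l 533368335) (a (l 532764431) (l 532687631)))))) (a (a (b (b (l 532976399) (l 532894735)) (b (a (l 532839951) (l 532801807)) (a (l 532773903) (l 532735759)))) (b (a (b (l 532915983) (l 532834319)) (b (l 532870415) (l 532787983))) (a (b (l 532760079) (a (l 532705039) (l 532683279))) (b (a (l 532726543) (l 532698127)) (a (b (l 532676367) (l 532645135)) (b (l 532645903) (l 532612623))))))) (b (b (a (a (l 532811023) (l 532740367)) (a (l 532662543) (c (l 532619279) (l 16725688)))) (a (a (l 532724751) (c (l 532675087) (l 532620303))) (a (b (l 532588047) (l 532807439)) (c (b (l 532547087) (l 532502543)) (l 532435471))))) (a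 (a (a (b (l 532663055) (b (l 532606991) (l 532570127))) (b (l 532891919) (b (l 532562959) (c (l 532553487) (l 532490767))))) (b (b (l 532848911) (a (l 532559119) (l 532513039))) (a (c (b (l 532549391) (l 532511759)) (l 532460559)) (c (b (l 532508687) (l 532475663)) (l 532412687))))) (c (b (c (a (b (l 532551439) (a (l 532529167) (l 532496143))) (b (l 532486415) (a (l 532466447) (l 532439567)))) (a (b (l 532511759) (l 532470031)) (b (l 532438799) (l 532402959)))) (a (a (b (l 532473103) (l 532443919)) (b (l 532441103) (l 532415503))) (a (b (l 532412431) (l 532389903)) (b (l 532386575) (l 532367119))))) (b (a (l 532428303) (l 532346127)) (a (b (l 532367631) (l 532337167)) (b (l 532295695) (l 532272143))))))))), by decide +kernel⟩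

def k11_B00pp_012_s1 : ∃ t, chk3 f_B00pp_012_s1 t 30 12 1 = true :=
  ⟨(b (a (b (l 16656216) (l 16706848)) (b (a (l 16640112) (l 16628656)) (l 16642592))) (a (b (c (l 16716928) (l 16716064)) (a (l 16710856) (l 16699792))) (b (c (l 16695176) (l 16650656)) (a (l 16709408) (l 16656104))))), by decide +kernel⟩

def k12_B00pp_012_s1 : ∃ t, chk3 f_B00pp_012_s1 t 30 26 1 = true :=
  ⟨(a (a (a (b (l 16723600) (b (l 16710168) (l 532609295))) (b (c (l 16697792) (l 16696488)) (b (l 16704704) (l 532535567)))) (b (b (l 16686264) (c (l 16692256) (l 16690368))) (a (b (l 16699152) (l 532741135)) (b (l 16693648) (a (l 16700392) (l 16697696)))))) (a (b (b (l 16674952) (l 16701120)) (b (c (l 16707768) (l 16684112)) (c (a (l 16694912) (l 16689752)) (l 16689656)))) (b (c (l 16689248) (l 16664856)) (c (b (l 16676456) (l 16703112)) (l 16696848))))), by decide +kernel⟩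

def k13_B00pp_012_s1 : ∃ t, chk3 f_B00pp_012_s1 t 30 27 1 = true :=
  ⟨(a (b (a (c (b (a (l 532548879) (c (l 532515855) (l 16715864))) (a (b (l 532481807) (l 532441615)) (b (l 532427535) (l 532659727)))) (b (l 532684303) (a (l 532357135) (l 16731264)))) (c (c (b (a (l 532468751) (l 16716920)) (a (b (l 16716024) (l 532381711)) (b (l 16711016) (l 16714184)))) (b (a (l 16710616) (l 16705384)) (a (l 16727208) (l 16711600)))) (b (c (l 16717504) (l 16706024)) (a (l 16715424) (l 16710072))))) (a (c (c (b (a (a (b (l 16733464) (l 532415503)) (b (l 16731000) (l 532393743))) (b (c (l 532405007) (l 16727128)) (a (l 16734392) (l 16729328)))) (a (a (b (l 532391183) (l 532374543)) (b (l 532371471) (l 532357135))) (b (a (l 532353807) (l 16732664)) (a (l 532341263) (l 16736080))))) (b (a (b (l 16731680) (l 532347663)) (b (l 16726624) (l 16735144))) (a (b (l 532323343) (l 532306959)) (b (l 16738512) (l 532269839))))) (b (a (l 532277775)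 (l 532220687)) (a (b (l 532235535) (l 532217615)) (l 532176911)))) (a (b (c (a (b (l 16728456) (l 532307215)) (b (l 16720712) (l 16724040))) (l 532172559)) (a (b (a (l 532226831) (l 532218127)) (l 532212495)) (b (l 532474127) (l 532197391)))) (b (c (c (b (l 16722688) (l 16726024)) (l 16728672)) (l 16727256)) (c (b (l 532525839) (l 532251407)) (l 16729096)))))) (b (a (c (b (a (l 16711272) (l 16695712)) (a (c (l 16718112) (l 16706488)) (l 16712552))) (b (l 16716608) (c (l 16723680) (l 16701440)))) (a (b (l 16710144) (a (l 16696944) (l 16694416))) (b (l 16684056) (l 16690648)))) (a (c (a (a (b (l 16720176) (l 16724512)) (b (l 16712464) (l 16719464))) (b (l 16714024) (c (l 16716368) (l 16715296)))) (b (a (l 16711544) (l 16706336)) (a (l 16718728) (l 16713624)))) (b (c (a (l 16703928) (l 16699128)) (l 16698632)) (a (l 532395023) (l 16704960)))))), by decide +kernel⟩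

def k14_B00pp_012_s1 : ∃ t, chk3 f_B00pp_012_s1 t 31 6 1 = true :=
  ⟨(c (b (b (a (b (l 16656400) (a (l 16626968) (l 16616264))) (b (l 16595024) (a (l 16606544) (l 16597320)))) (a (b (l 16631344) (a (l 16647144) (l 16636728))) (a (b (l 16615400) (l 16626416)) (b (b (l 16603360) (l 16607872)) (l 16616112))))) (b (b (a (a (l 16657960) (l 16647824)) (a (l 16637776) (l 16627696))) (a (a (c (l 16691232) (l 16668248)) (l 16659400)) (a (l 16649600) (l 16639736)))) (b (a (a (a (l 16684104) (l 16679288)) (l 16693064)) (a (l 16662520) (l 16652872))) (a (a (a (l 16697976) (l 16693288)) (l 16707256)) (a (l 16676944) (l 16688320)))))) (a (a (b (b (b (l 16616056) (l 16623272)) (l 16679616)) (b (b (l 16653744) (l 16665128)) (b (l 16719776) (a (l 16694760) (l 16689760))))) (b (b (b (l 16605080) (l 16611640)) (l 16584264)) (b (b (l 16642792) (l 16654512)) (b (l 16667536) (l 16682264))))) (a (b (b (b (l 16594944) (l 16601192)) (b (a (l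 16612472) (l 16606688)) (l 16620464))) (b (b (l 16631888) (l 16643912)) (b (l 16657224) (l 16672240)))) (b (b (l 16609112) (b (b (l 16596800) (a (l 16603632) (l 16598368))) (a (l 16612040) (l 16606384)))) (b (b (l 16620920) (l 16633208)) (b (a (l 16649440) (l 16644120)) (a (l 16664536) (l 16659280)))))))), by decide +kernel⟩

def k15_B00pp_012_s1 : ∃ t, chk3 f_B00pp_012_s1 t 14 7 1 = true :=
  ⟨(b (a (l 3) (b (a (b (b (a (a (l 3) (b (l 532692239) (a (l 3) (b (c (l 532676367) (l 532648975)) (l 3))))) (a (a (b (b (l 532668687) (c (l 532670223) (l 532639247))) (b (a (l 532647183) (l 532636431)) (l 532629263))) (b (b (l 532646927) (l 532633103)) (l 532613647))) (c (b (a (a (l 532642319) (l 532630287)) (b (l 532611855) (l 532596495))) (a (b (l 532616207) (l 532604175)) (b (l 532580367) (l 532564239)))) (b (a (l 532595727) (l 532556303)) (a (l 532567055) (l 532519695)))))) (a (l 3) (a (b (l 532869391) (l 3)) (b (b (a (l 533107727)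 (l 532528143)) (a (a (l 532568591) (l 532548879)) (l 532786191))) (a (a (l 3) (l 532589583)) (l 532567567)))))) (l 3)) (b (b (a (a (b (a (a (l 532545039) (l 532520207)) (a (l 532496399) (l 532474895))) (c (a (l 532529935) (l 532495887)) (l 532447247))) (a (b (c (l 532482575) (l 532407567)) (l 532428815)) (b (c (l 532451599) (l 532368655)) (l 532399887)))) (c (b (a (a (l 532424207) (l 532399631)) (a (l 532377359) (l 532357391))) (a (b (l 532407055) (l 532410127)) (l 532369167))) (b (a (l 532317455) (l 532259599)) (a (l 532313103) (l 532261903))))) (a (a (b (b (l 532742415) (l 532487183)) (l 532525071)) (b (c (l 532466703) (l 532386575)) (l 532472847))) (b (a (l 532380431) (l 532338959)) (l 532804111)))) (a (b (a (l 532598287) (l 532542223)) (l 532653839)) (b (a (l 532490767) (l 532444175)) (l 532808975))))) (a (l 3) (b (b (a (l 3) (l 532604175)) (l 3)) (l 3))))) (l 3)), by decide +kernel⟩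

def k16_B00pp_012_s1 : ∃ t, chk3 f_B00pp_012_s1 t 30 14 1 = true :=
  ⟨(b (a (b (b (b (a (b (c (a (l 532330511) (l 532299279)) (l 532187919)) (a (l 532539663) (l 532236047))) (a (c (l 532274191) (l 16734432)) (l 532179471))) (a (c (a (l 532336399) (l 532308495)) (l 532195855)) (a (l 532216079) (l 532192527)))) (a (a (a (l 532332047) (l 532314383)) (a (l 532297743) (l 532282383))) (a (l 532797455) (l 532236047)))) (a (b (a (l 532402191) (l 532365327)) (l 532716303)) (b (a (l 532332815) (l 532305167)) (a (l 532394255) (l 532362767))))) (a (b (b (a (a (l 532438031) (l 532160783)) (c (l 16723184) (l 16721240))) (a (l 532216079) (l 532200463))) (b (a (l 532281615) (l 16748096)) (a (l 532336143) (l 16755360)))) (b (b (a (l 16727880) (l 16712608)) (a (l 16725224) (l 16720504))) (b (l 532784911) (l 532834831))))) (a (b (b (a (a (l 532528399) (l 532483087)) (a (l 532442895) (l 532407823))) (a (a (l 532571919) (l 532522255)) (a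 (l 532478223) (l 532439311)))) (a (l 3) (b (l 532472847) (l 531938831)))) (b (b (a (a (l 532377871) (l 532354575)) (l 533141519)) (a (a (l 532406031) (l 532380687)) (a (l 532370703) (l 16760088)))) (a (b (l 533474575) (a (l 532417807) (l 532387599))) (b (a (l 532387343) (l 532380943)) (a (l 532382735) (l 532367887))))))), by decide +kernel⟩

def k17_B00pp_012_s1 : ∃ t, chk3 f_B00pp_012_s1 t 31 14 1 = true :=
  ⟨(b (a (a (b (b (a (l 16707848) (l 16703112)) (l 16734448)) (b (l 16742320) (l 16749832))) (b (b (l 16696008) (l 16704136)) (a (l 16739216) (l 16734520)))) (b (a (a (l 16692976) (l 16709080)) (a (c (l 16685336) (l 16680880)) (c (l 16680408) (l 16696560)))) (a (a (l 16729768) (l 16719632)) (b (a (l 16695096) (l 16689968)) (a (l 16702560) (l 16697408)))))) (a (b (a (b (l 532867599) (a (l 16745104) (l 16740560))) (b (a (l 16729112) (l 16724400)) (a (l 16735912) (l 16731184)))) (a (a (l 532346383) (b (l 16757584) (l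 532310799))) (a (b (l 16742432) (l 532548111)) (b (l 16737680) (l 16754432))))) (b (a (c (a (l 16724136) (l 16729832)) (a (l 16732312) (l 16727232))) (a (b (l 16709632) (l 16716352)) (b (l 16704456) (l 16711168)))) (a (b (a (l 16732832) (l 16727872)) (a (l 16739080) (l 16744592))) (b (a (l 16722800) (l 16728080)) (a (l 16739504) (l 14))))))), by decide +kernel⟩

def k18_B00pp_012_s1 : ∃ t, chk3 f_B00pp_012_s1 t 15 15 1 = true :=
  ⟨(a (b (a (l 3) (b (b (a (a (l 532119055) (l 532345615)) (a (l 532322831) (l 532297743))) (a (l 3) (a (l 532246287) (l 532220175)))) (a (l 3) (a (l 3) (b (l 532408591) (l 3)))))) (l 3)) (a (a (b (b (a (b (l 532269839) (l 532191247)) (b (l 532507919) (l 533233167))) (b (a (b (l 532137487) (l 532097039)) (b (l 532105999) (l 532333327))) (a (l 3) (a (l 532545551) (l 533333263))))) (l 3)) (b (b (b (a (l 533279759) (c (l 16755904) (l 16760080))) (a (a (l 532140047) (l 532390927)) (b (l 16760056)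 (l 532880655)))) (a (b (b (l 532608271) (l 533103375)) (l 14)) (l 14))) (l 14))) (b (b (a (b (b (a (l 16743704) (l 16738712)) (a (l 16746792) (l 14))) (l 14)) (l 14)) (l 14)) (l 14)))), by decide +kernel⟩

theorem t19_B00pp_012_s1 : ∃ t, chk3 f_B00pp_012_s1 t 15 14 1 = true := ex3_a k16_B00pp_012_s1 k17_B00pp_012_s1

theorem t20_B00pp_012_s1 : ∃ t, chk3 f_B00pp_012_s1 t 15 7 1 = true := ex3_b t19_B00pp_012_s1 k18_B00pp_012_s1

theorem t21_B00pp_012_s1 : ∃ t, chk3 f_B00pp_012_s1 t 7 7 1 = true := ex3_a k15_B00pp_012_s1 t20_B00pp_012_s1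

theorem t22_B00pp_012_s1 : ∃ t, chk3 f_B00pp_012_s1 t 30 13 1 = true := ex3_b k12_B00pp_012_s1 k13_B00pp_012_s1

theorem t23_B00pp_012_s1 : ∃ t, chk3 f_B00pp_012_s1 t 30 6 1 = true := ex3_b k11_B00pp_012_s1 t22_B00pp_012_s1

theorem t24_B00pp_012_s1 : ∃ t, chk3 f_B00pp_012_s1 t 15 6 1 = true := ex3_a t23_B00pp_012_s1 k14_B00pp_012_s1

theorem t25_B00pp_012_s1 : ∃ t, chk3 f_B00pp_012_s1 t 14 13 1 = true := ex3_a k9_B00pp_012_s1 k10_B00pp_012_s1

theorem t26_B00pp_012_s1 : ∃ t, chk3 f_B00pp_012_s1 t 14 6 1 = true := ex3_b k8_B00pp_012_s1 t25_B00pp_012_s1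

theorem t27_B00pp_012_s1 : ∃ t, chk3 f_B00pp_012_s1 t 7 6 1 = true := ex3_a t26_B00pp_012_s1 t24_B00pp_012_s1

theorem t28_B00pp_012_s1 : ∃ t, chk3 f_B00pp_012_s1 t 7 3 1 = true := ex3_b t27_B00pp_012_s1 t21_B00pp_012_s1

theorem t29_B00pp_012_s1 : ∃ t, chk3 f_B00pp_012_s1 t 7 1 1 = true := ex3_b k7_B00pp_012_s1 t28_B00pp_012_s1

theorem t30_B00pp_012_s1 : ∃ t, chk3 f_B00pp_012_s1 t 13 1 1 = true := ex3_a k5_B00pp_012_s1 k6_B00pp_012_s1

theorem t31_B00pp_012_s1 : ∃ t, chk3 f_B00pp_012_s1 t 12 1 1 = true := ex3_a k3_B00pp_012_s1 k4_B00pp_012_s1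

theorem t32_B00pp_012_s1 : ∃ t, chk3 f_B00pp_012_s1 t 6 1 1 = true := ex3_a t31_B00pp_012_s1 t30_B00pp_012_s1

theorem t33_B00pp_012_s1 : ∃ t, chk3 f_B00pp_012_s1 t 3 1 1 = true := ex3_a t32_B00pp_012_s1 t29_B00pp_012_s1

theorem t34_B00pp_012_s1 : ∃ t, chk3 f_B00pp_012_s1 t 5 1 1 = true := ex3_a k1_B00pp_012_s1 k2_B00pp_012_s1

theorem t35_B00pp_012_s1 : ∃ t, chk3 f_B00pp_012_s1 t 2 1 1 = true := ex3_a k0_B00pp_012_s1 t34_B00pp_012_s1

theorem t36_B00pp_012_s1 : ∃ t, chk3 f_B00pp_012_s1 t 1 1 1 = true := ex3_a t35_B00pp_012_s1 t33_B00pp_012_s1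

theorem c_B00pp_012_s1 : CertF 0 536870912 0 536870912 740881858 40050571 false true true .pnp 0 1 2
    ndB0q0 ndB0q2 pcB1 cut_B00pp_012_s1 xt_B00pp_012_s1 :=
  certF2 (fam := false) (s1 := true) (s2 := true) (a := 0) (b := 1) (c := 2) (cn := .pnp) (n1 := ndB0q0) (n2 := ndB0q2) (pc := pcB1) (cut := cut_B00pp_012_s1) (xt := xt_B00pp_012_s1) (P1 := 0) (W1 := 536870912) (P2 := 0) (W2 := 536870912) (P3 := 740881858) (W3 := 40050571)
    rfl (fun _ => rfl) t36_B00pp_012_s1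

theorem s_B00pp_012_s1 {κ x : ℝ} (hκ : κ * h0 = ken x) (hx : ((740881858 : ℕ) : ℝ) / S ≤ x)
    (hx' : x ≤ (((740881858 : ℕ) : ℝ) + (40050571 : ℕ)) / S)
    (H : CutB (VFD κ) PP tK tL pcB (Cut.of [[⟨0, 0, 0, 53687091⟩, ⟨1, 1, 0, 53687091⟩, ⟨2, 1, 0, 53687091⟩]]) 0 1 2 0 0 (sgb true) (sgb true) x) :
    AltB (VFD κ) PP tK tL pcB [⟨3, 0, 0, 1449551462⟩] 0 1 2 0 0 (sgb true) (sgb true) x :=
  strip_altBD (m := 1449551462) true rfl hκ (SH.κ0 hκ (SH.hx1 hx).le (SH.hx2 hx').le) (SH.hx1 hx).le (SH.hx2 hx') (covB00).cov (covB02).cov hx hx' c_B00pp_012_s1 H ((okx hx hx').extB (T := tt) (sideB hx hx') hκ rfl rfl (.O 0 true) (.O 2 true) (Or.inr rfl))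

noncomputable def cut_B00pp_012_s3 : Cut := Cut.of [[⟨3, 0, 0, 2845415833⟩], [⟨0, 0, 0, 53687091⟩, ⟨1, 1, 0, 53687091⟩, ⟨2, 1, 0, 53687091⟩]]

noncomputable def f_B00pp_012_s3 : ℕ → ℕ → ℕ → ℕ → Bool := onCell 0 536870912 0 536870912 740881858 40050571
    (rowF 0 false true true .pnp 0 1 2 (qsf 0 536870912 0 536870912 1) ndB0q0 ndB0q2 pcB1 cut_B00pp_012_s3 Ext.none)

def k0_B00pp_012_s3 : ∃ t, chk3 f_B00pp_012_s3 t 1 1 1 = true :=
  ⟨(l 6), by decide +kernel⟩

theorem c_B00pp_012_s3 : CertF 0 536870912 0 536870912 740881858 40050571 false true true .pnp 0 1 2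
    ndB0q0 ndB0q2 pcB1 cut_B00pp_012_s3 Ext.none :=
  certF0 (fam := false) (s1 := true) (s2 := true) (a := 0) (b := 1) (c := 2) (cn := .pnp) (n1 := ndB0q0) (n2 := ndB0q2) (pc := pcB1) (cut := cut_B00pp_012_s3) (xt := Ext.none) (P1 := 0) (W1 := 536870912) (P2 := 0) (W2 := 536870912) (P3 := 740881858) (W3 := 40050571)
    rfl k0_B00pp_012_s3

theorem s_B00pp_012_s3 {κ x : ℝ} (hκ : κ * h0 = ken x) (hx : ((740881858 : ℕ) : ℝ) / S ≤ x)
    (hx' : x ≤ (((740881858 : ℕ) : ℝ) + (40050571 : ℕ)) / S)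
    (H : CutB (VFD κ) PP tK tL pcB (Cut.of [[⟨0, 0, 0, 53687091⟩, ⟨1, 1, 0, 53687091⟩, ⟨2, 1, 0, 53687091⟩]]) 0 1 2 0 0 (sgb true) (sgb true) x) :
    AltB (VFD κ) PP tK tL pcB [⟨4, 0, 0, 2845415833⟩] 0 1 2 0 0 (sgb true) (sgb true) x :=
  strip_altBD (m := 2845415833) false rfl hκ (SH.κ0 hκ (SH.hx1 hx).le (SH.hx2 hx').le) (SH.hx1 hx).le (SH.hx2 hx') (covB00).cov (covB02).cov hx hx' c_B00pp_012_s3 H (noExt_B)

noncomputable def cut_B00pp_022_s1 : Cut := Cut.of [[⟨4, 0, 0, 1449551462⟩], [⟨0, 0, 0, 67108864⟩, ⟨1, 1, 0, 67108864⟩, ⟨2, 1, 0, 67108864⟩]]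

noncomputable def f_B00pp_022_s1 : ℕ → ℕ → ℕ → ℕ → Bool := onCell 1073741824 536870912 0 536870912 740881858 40050571
    (rowF 2 false true true .pp 0 2 2 (qsf 0 536870912 0 536870912 2) ndB0q0 ndB0q2 pcB2 cut_B00pp_022_s1 Ext.none)

def k0_B00pp_022_s1 : ∃ t, chk3 f_B00pp_022_s1 t 4 2 1 = true :=
  ⟨(b (l 6) (a (b (l 6) (a (b (l 6) (a (a (c (b (l 16551064) (l 16561800)) (l 16546032)) (b (l 16551688) (l 16562448))) (a (c (l 16607336) (l 16558528)) (l 16587176)))) (l 6))) (l 6))), by decide +kernel⟩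

def k1_B00pp_022_s1 : ∃ t, chk3 f_B00pp_022_s1 t 8 3 1 = true :=
  ⟨(b (a (b (a (b (a (c (b (l 16571696) (l 16580688)) (l 16566664)) (c (l 16602120) (l 16573016))) (b (c (a (l 16588896) (l 16593608)) (l 16625104)) (c (a (l 16599376) (l 16603536)) (l 16636040)))) (a (b (c (l 16585128) (l 16578576)) (b (l 16594648) (l 16604552))) (b (l 16586008) (l 16603816)))) (a (c (b (a (b (l 16612136) (l 16645984)) (b (l 16616032) (l 16628808))) (a (b (a (l 16636472) (l 16638424)) (a (l 16648208) (l 16650176))) (b (l 16641200) (l 16652960)))) (b (b (l 16607776) (l 16621552)) (b (l 16676752) (l 16668048)))) (b (b (l 16619264) (l 16632424)) (b (l 16645208) (l 16657248))))) (b (b (c (a (l 16592520) (l 16572704)) (a (l 16589760) (l 16572712))) (c (a (l 16610344) (l 16587584)) (a (l 16607872) (l 16587280)))) (a (b (l 16626864) (l 16640456)) (b (a (l 16606432) (l 16550272)) (a (l 16617728) (l 16643952)))))) (a (b (b (a (a (b (b (l 16655504)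 (l 16661240)) (b (l 16667312) (l 14))) (b (l 16662840) (l 16675128))) (b (l 16668784) (a (l 16679192) (l 16682800)))) (l 14)) (l 14)) (b (b (a (b (l 16651888) (a (l 16667072) (l 16650136))) (b (a (l 16627312) (l 16610376)) (a (l 16632760) (l 66605285943)))) (a (l 14) (a (l 14) (a (l 14) (l 1))))) (a (l 14) (l 1))))), by decide +kernel⟩

def k2_B00pp_022_s1 : ∃ t, chk3 f_B00pp_022_s1 t 9 3 1 = true :=
  ⟨(b (b (b (l 6) (a (a (a (l 16504560) (l 16511664)) (b (l 6) (l 16618336))) (l 6))) (b (b (a (a (l 16568040) (l 16579208)) (a (c (l 16513696) (l 16495352)) (l 1))) (a (a (l 16655000) (l 16538168)) (l 1))) (a (a (b (l 16616312) (a (l 16587360) (l 16568840))) (b (l 16539176) (l 1))) (l 1)))) (b (a (b (a (b (a (l 16633872) (l 16572112)) (a (l 16637328) (l 1))) (l 1)) (l 1)) (l 1)) (l 1))), by decide +kernel⟩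

def k3_B00pp_022_s1 : ∃ t, chk3 f_B00pp_022_s1 t 5 1 1 = true :=
  ⟨(b (l 6) (b (l 1) (l 1))), by decide +kernel⟩

def k4_B00pp_022_s1 : ∃ t, chk3 f_B00pp_022_s1 t 3 1 1 = true :=
  ⟨(l 1), by decide +kernel⟩

theorem t5_B00pp_022_s1 : ∃ t, chk3 f_B00pp_022_s1 t 4 3 1 = true := ex3_a k1_B00pp_022_s1 k2_B00pp_022_s1

theorem t6_B00pp_022_s1 : ∃ t, chk3 f_B00pp_022_s1 t 4 1 1 = true := ex3_b k0_B00pp_022_s1 t5_B00pp_022_s1

theorem t7_B00pp_022_s1 : ∃ t, chk3 f_B00pp_022_s1 t 2 1 1 = true := ex3_a t6_B00pp_022_s1 k3_B00pp_022_s1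

theorem t8_B00pp_022_s1 : ∃ t, chk3 f_B00pp_022_s1 t 1 1 1 = true := ex3_a t7_B00pp_022_s1 k4_B00pp_022_s1

theorem c_B00pp_022_s1 : CertF 0 536870912 0 536870912 740881858 40050571 false true true .pp 0 2 2
    ndB0q0 ndB0q2 pcB2 cut_B00pp_022_s1 Ext.none :=
  certF2 (fam := false) (s1 := true) (s2 := true) (a := 0) (b := 2) (c := 2) (cn := .pp) (n1 := ndB0q0) (n2 := ndB0q2) (pc := pcB2) (cut := cut_B00pp_022_s1) (xt := Ext.none) (P1 := 0) (W1 := 536870912) (P2 := 0) (W2 := 536870912) (P3 := 740881858) (W3 := 40050571)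
    rfl (fun _ => rfl) t8_B00pp_022_s1

theorem s_B00pp_022_s1 {κ x : ℝ} (hκ : κ * h0 = ken x) (hx : ((740881858 : ℕ) : ℝ) / S ≤ x)
    (hx' : x ≤ (((740881858 : ℕ) : ℝ) + (40050571 : ℕ)) / S)
    (H : CutB (VFD κ) PP tK tL pcB (Cut.of [[⟨0, 0, 0, 67108864⟩, ⟨1, 1, 0, 67108864⟩, ⟨2, 1, 0, 67108864⟩]]) 0 2 2 0 0 (sgb true) (sgb true) x) :
    AltB (VFD κ) PP tK tL pcB [⟨3, 0, 0, 1449551462⟩] 0 2 2 0 0 (sgb true) (sgb true) x :=
  strip_altBD (m := 1449551462) true rfl hκ (SH.κ0 hκ (SH.hx1 hx).le (SH.hx2 hx').le) (SH.hx1 hx).le (SH.hx2 hx') (covB00).cov (covB02).cov hx hx' c_B00pp_022_s1 H (noExt_B)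

noncomputable def cut_B00pp_022_s3 : Cut := Cut.of [[⟨3, 0, 0, 2845415833⟩], [⟨0, 0, 0, 67108864⟩, ⟨1, 1, 0, 67108864⟩, ⟨2, 1, 0, 67108864⟩]]

noncomputable def f_B00pp_022_s3 : ℕ → ℕ → ℕ → ℕ → Bool := onCell 0 536870912 0 536870912 740881858 40050571
    (rowF 0 false true true .pp 0 2 2 (qsf 0 536870912 0 536870912 2) ndB0q0 ndB0q2 pcB2 cut_B00pp_022_s3 Ext.none)

def k0_B00pp_022_s3 : ∃ t, chk3 f_B00pp_022_s3 t 1 1 1 = true :=
  ⟨(l 6), by decide +kernel⟩

theorem c_B00pp_022_s3 : CertF 0 536870912 0 536870912 740881858 40050571 false true true .pp 0 2 2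
    ndB0q0 ndB0q2 pcB2 cut_B00pp_022_s3 Ext.none :=
  certF0 (fam := false) (s1 := true) (s2 := true) (a := 0) (b := 2) (c := 2) (cn := .pp) (n1 := ndB0q0) (n2 := ndB0q2) (pc := pcB2) (cut := cut_B00pp_022_s3) (xt := Ext.none) (P1 := 0) (W1 := 536870912) (P2 := 0) (W2 := 536870912) (P3 := 740881858) (W3 := 40050571)
    rfl k0_B00pp_022_s3

theorem s_B00pp_022_s3 {κ x : ℝ} (hκ : κ * h0 = ken x) (hx : ((740881858 : ℕ) : ℝ) / S ≤ x)
    (hx' : x ≤ (((740881858 : ℕ) : ℝ) + (40050571 : ℕ)) / S)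
    (H : CutB (VFD κ) PP tK tL pcB (Cut.of [[⟨0, 0, 0, 67108864⟩, ⟨1, 1, 0, 67108864⟩, ⟨2, 1, 0, 67108864⟩]]) 0 2 2 0 0 (sgb true) (sgb true) x) :
    AltB (VFD κ) PP tK tL pcB [⟨4, 0, 0, 2845415833⟩] 0 2 2 0 0 (sgb true) (sgb true) x :=
  strip_altBD (m := 2845415833) false rfl hκ (SH.κ0 hκ (SH.hx1 hx).le (SH.hx2 hx').le) (SH.hx1 hx).le (SH.hx2 hx') (covB00).cov (covB02).cov hx hx' c_B00pp_022_s3 H (noExt_B)

noncomputable def cut_B00pp_101_s1 : Cut := Cut.of [[⟨4, 0, 0, 1449551462⟩]]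

noncomputable def f_B00pp_101_s1 : ℕ → ℕ → ℕ → ℕ → Bool := onCell 536870912 536870912 536870912 536870912 740881858 40050571
    (rowF 0 false true true .npn 1 0 1 (qsf 536870912 536870912 536870912 536870912 0) ndB0q1 ndB0q1 pcB0 cut_B00pp_101_s1 Ext.none)

def k0_B00pp_101_s1 : ∃ t, chk3 f_B00pp_101_s1 t 1 1 1 = true :=
  ⟨(l 3), by decide +kernel⟩

theorem c_B00pp_101_s1 : CertF 536870912 536870912 536870912 536870912 740881858 40050571 false true true .npn 1 0 1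
    ndB0q1 ndB0q1 pcB0 cut_B00pp_101_s1 Ext.none :=
  certF0 (fam := false) (s1 := true) (s2 := true) (a := 1) (b := 0) (c := 1) (cn := .npn) (n1 := ndB0q1) (n2 := ndB0q1) (pc := pcB0) (cut := cut_B00pp_101_s1) (xt := Ext.none) (P1 := 536870912) (W1 := 536870912) (P2 := 536870912) (W2 := 536870912) (P3 := 740881858) (W3 := 40050571)
    rfl k0_B00pp_101_s1

theorem s_B00pp_101_s1 {κ x : ℝ} (hκ : κ * h0 = ken x) (hx : ((740881858 : ℕ) : ℝ) / S ≤ x)
    (hx' : x ≤ (((740881858 : ℕ) : ℝ) + (40050571 : ℕ)) / S) :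
    AltB (VFD κ) PP tK tL pcB [⟨3, 0, 0, 1449551462⟩] 1 0 1 0 0 (sgb true) (sgb true) x :=
  strip_altBD (m := 1449551462) true rfl hκ (SH.κ0 hκ (SH.hx1 hx).le (SH.hx2 hx').le) (SH.hx1 hx).le (SH.hx2 hx') (covB01).cov (covB01).cov hx hx' c_B00pp_101_s1 cutB_nil (noExt_B)

noncomputable def cut_B00pp_101_s3 : Cut := Cut.of [[⟨3, 0, 0, 2845415833⟩]]

noncomputable def f_B00pp_101_s3 : ℕ → ℕ → ℕ → ℕ → Bool := onCell 536870912 536870912 536870912 536870912 740881858 40050571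
    (rowF 0 false true true .npn 1 0 1 (qsf 536870912 536870912 536870912 536870912 0) ndB0q1 ndB0q1 pcB0 cut_B00pp_101_s3 Ext.none)

def k0_B00pp_101_s3 : ∃ t, chk3 f_B00pp_101_s3 t 1 1 1 = true :=
  ⟨(l 3), by decide +kernel⟩

theorem c_B00pp_101_s3 : CertF 536870912 536870912 536870912 536870912 740881858 40050571 false true true .npn 1 0 1
    ndB0q1 ndB0q1 pcB0 cut_B00pp_101_s3 Ext.none :=
  certF0 (fam := false) (s1 := true) (s2 := true) (a := 1) (b := 0) (c := 1) (cn := .npn) (n1 := ndB0q1) (n2 := ndB0q1) (pc := pcB0) (cut := cut_B00pp_101_s3) (xt := Ext.none) (P1 := 536870912) (W1 := 536870912) (P2 := 536870912) (W2 := 536870912) (P3 := 740881858) (W3 := 40050571)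
    rfl k0_B00pp_101_s3

theorem s_B00pp_101_s3 {κ x : ℝ} (hκ : κ * h0 = ken x) (hx : ((740881858 : ℕ) : ℝ) / S ≤ x)
    (hx' : x ≤ (((740881858 : ℕ) : ℝ) + (40050571 : ℕ)) / S) :
    AltB (VFD κ) PP tK tL pcB [⟨4, 0, 0, 2845415833⟩] 1 0 1 0 0 (sgb true) (sgb true) x :=
  strip_altBD (m := 2845415833) false rfl hκ (SH.κ0 hκ (SH.hx1 hx).le (SH.hx2 hx').le) (SH.hx1 hx).le (SH.hx2 hx') (covB01).cov (covB01).cov hx hx' c_B00pp_101_s3 cutB_nil (noExt_B)

noncomputable def cut_B00pp_102_s1 : Cut := Cut.of [[⟨4, 0, 0, 1449551462⟩]]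

noncomputable def f_B00pp_102_s1 : ℕ → ℕ → ℕ → ℕ → Bool := onCell 0 536870912 0 536870912 740881858 40050571
    (rowF 2 false true true .npp 1 0 2 (qsf 536870912 536870912 0 536870912 0) ndB0q1 ndB0q2 pcB0 cut_B00pp_102_s1 Ext.none)

def k0_B00pp_102_s1 : ∃ t, chk3 f_B00pp_102_s1 t 1 1 1 = true :=
  ⟨(a (b (l 3) (l 3)) (l 3)), by decide +kernel⟩

theorem c_B00pp_102_s1 : CertF 536870912 536870912 0 536870912 740881858 40050571 false true true .npp 1 0 2
    ndB0q1 ndB0q2 pcB0 cut_B00pp_102_s1 Ext.none :=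
  certF2 (fam := false) (s1 := true) (s2 := true) (a := 1) (b := 0) (c := 2) (cn := .npp) (n1 := ndB0q1) (n2 := ndB0q2) (pc := pcB0) (cut := cut_B00pp_102_s1) (xt := Ext.none) (P1 := 536870912) (W1 := 536870912) (P2 := 0) (W2 := 536870912) (P3 := 740881858) (W3 := 40050571)
    rfl (fun _ => rfl) k0_B00pp_102_s1

theorem s_B00pp_102_s1 {κ x : ℝ} (hκ : κ * h0 = ken x) (hx : ((740881858 : ℕ) : ℝ) / S ≤ x)
    (hx' : x ≤ (((740881858 : ℕ) : ℝ) + (40050571 : ℕ)) / S) :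
    AltB (VFD κ) PP tK tL pcB [⟨3, 0, 0, 1449551462⟩] 1 0 2 0 0 (sgb true) (sgb true) x :=
  strip_altBD (m := 1449551462) true rfl hκ (SH.κ0 hκ (SH.hx1 hx).le (SH.hx2 hx').le) (SH.hx1 hx).le (SH.hx2 hx') (covB01).cov (covB02).cov hx hx' c_B00pp_102_s1 cutB_nil (noExt_B)

noncomputable def cut_B00pp_102_s3 : Cut := Cut.of [[⟨3, 0, 0, 2845415833⟩]]

noncomputable def f_B00pp_102_s3 : ℕ → ℕ → ℕ → ℕ → Bool := onCell 536870912 536870912 0 536870912 740881858 40050571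
    (rowF 0 false true true .npp 1 0 2 (qsf 536870912 536870912 0 536870912 0) ndB0q1 ndB0q2 pcB0 cut_B00pp_102_s3 Ext.none)

def k0_B00pp_102_s3 : ∃ t, chk3 f_B00pp_102_s3 t 1 1 1 = true :=
  ⟨(l 6), by decide +kernel⟩

theorem c_B00pp_102_s3 : CertF 536870912 536870912 0 536870912 740881858 40050571 false true true .npp 1 0 2
    ndB0q1 ndB0q2 pcB0 cut_B00pp_102_s3 Ext.none :=
  certF0 (fam := false) (s1 := true) (s2 := true) (a := 1) (b := 0) (c := 2) (cn := .npp) (n1 := ndB0q1) (n2 := ndB0q2) (pc := pcB0) (cut := cut_B00pp_102_s3) (xt := Ext.none) (P1 := 536870912) (W1 := 536870912) (P2 := 0) (W2 := 536870912) (P3 := 740881858) (W3 := 40050571)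
    rfl k0_B00pp_102_s3

theorem s_B00pp_102_s3 {κ x : ℝ} (hκ : κ * h0 = ken x) (hx : ((740881858 : ℕ) : ℝ) / S ≤ x)
    (hx' : x ≤ (((740881858 : ℕ) : ℝ) + (40050571 : ℕ)) / S) :
    AltB (VFD κ) PP tK tL pcB [⟨4, 0, 0, 2845415833⟩] 1 0 2 0 0 (sgb true) (sgb true) x :=
  strip_altBD (m := 2845415833) false rfl hκ (SH.κ0 hκ (SH.hx1 hx).le (SH.hx2 hx').le) (SH.hx1 hx).le (SH.hx2 hx') (covB01).cov (covB02).cov hx hx' c_B00pp_102_s3 cutB_nil (noExt_B)

noncomputable def cut_B00pp_112_s1 : Cut := Cut.of [[⟨4, 0, 0, 1449551462⟩]]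

noncomputable def xt_B00pp_112_s1 : Ext := strExt dd false true true .u0 .u2 .u0m .dn 1 1 2 rfl rfl gf1 vv ndB0q1 ndB0q2

noncomputable def f_B00pp_112_s1 : ℕ → ℕ → ℕ → ℕ → Bool := onCell 536870912 536870912 0 536870912 740881858 40050571
    (rowF 2 false true true .dn 1 1 2 (qsf 536870912 536870912 0 536870912 1) ndB0q1 ndB0q2 pcB1 cut_B00pp_112_s1 xt_B00pp_112_s1)

def k0_B00pp_112_s1 : ∃ t, chk3 f_B00pp_112_s1 t 1 1 1 = true :=
  ⟨(a (a (a (l 3) (b (b (b (b (a (a (l 533542671) (l 533632271)) (a (l 533702671) (l 533756687))) (a (l 3) (a (b (l 533630991) (l 3)) (c (l 533709583) (l 533603599))))) (l 3)) (l 3)) (l 3))) (a (b (b (b (a (b (a (b (l 533820431) (l 533770767)) (b (l 533848079) (l 533793295))) (a (c (c (b (l 533799695) (l 533749775)) (l 533720847)) (c (l 533664527) (l 533605903))) (c (c (b (l 533816335) (l 533750543)) (l 533994255)) (c (l 533670159) (l 533611023))))) (l 1)) (a (b (b (a (a (l 3) (a (l 3) (l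 533605391))) (l 533555727)) (a (l 3) (b (l 533456655) (l 3)))) (l 3)) (l 1))) (l 3)) (l 3)) (b (l 1) (l 1)))) (l 1)), by decide +kernel⟩

theorem c_B00pp_112_s1 : CertF 536870912 536870912 0 536870912 740881858 40050571 false true true .dn 1 1 2
    ndB0q1 ndB0q2 pcB1 cut_B00pp_112_s1 xt_B00pp_112_s1 :=
  certF2 (fam := false) (s1 := true) (s2 := true) (a := 1) (b := 1) (c := 2) (cn := .dn) (n1 := ndB0q1) (n2 := ndB0q2) (pc := pcB1) (cut := cut_B00pp_112_s1) (xt := xt_B00pp_112_s1) (P1 := 536870912) (W1 := 536870912) (P2 := 0) (W2 := 536870912) (P3 := 740881858) (W3 := 40050571)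
    rfl (fun _ => rfl) k0_B00pp_112_s1

theorem s_B00pp_112_s1 {κ x : ℝ} (hκ : κ * h0 = ken x) (hx : ((740881858 : ℕ) : ℝ) / S ≤ x)
    (hx' : x ≤ (((740881858 : ℕ) : ℝ) + (40050571 : ℕ)) / S) :
    AltB (VFD κ) PP tK tL pcB [⟨3, 0, 0, 1449551462⟩] 1 1 2 0 0 (sgb true) (sgb true) x :=
  strip_altBD (m := 1449551462) true rfl hκ (SH.κ0 hκ (SH.hx1 hx).le (SH.hx2 hx').le) (SH.hx1 hx).le (SH.hx2 hx') (covB01).cov (covB02).cov hx hx' c_B00pp_112_s1 cutB_nil ((okx hx hx').extB (T := tt) (sideB hx hx') hκ rfl rfl (.O 1 true) (.O 2 true) (Or.inr rfl))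

noncomputable def cut_B00pp_112_s3 : Cut := Cut.of [[⟨3, 0, 0, 2845415833⟩]]

noncomputable def f_B00pp_112_s3 : ℕ → ℕ → ℕ → ℕ → Bool := onCell 536870912 536870912 0 536870912 740881858 40050571
    (rowF 0 false true true .dn 1 1 2 (qsf 536870912 536870912 0 536870912 1) ndB0q1 ndB0q2 pcB1 cut_B00pp_112_s3 Ext.none)

def k0_B00pp_112_s3 : ∃ t, chk3 f_B00pp_112_s3 t 1 1 1 = true :=
  ⟨(l 6), by decide +kernel⟩

theorem c_B00pp_112_s3 : CertF 536870912 536870912 0 536870912 740881858 40050571 false true true .dn 1 1 2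
    ndB0q1 ndB0q2 pcB1 cut_B00pp_112_s3 Ext.none :=
  certF0 (fam := false) (s1 := true) (s2 := true) (a := 1) (b := 1) (c := 2) (cn := .dn) (n1 := ndB0q1) (n2 := ndB0q2) (pc := pcB1) (cut := cut_B00pp_112_s3) (xt := Ext.none) (P1 := 536870912) (W1 := 536870912) (P2 := 0) (W2 := 536870912) (P3 := 740881858) (W3 := 40050571)
    rfl k0_B00pp_112_s3

theorem s_B00pp_112_s3 {κ x : ℝ} (hκ : κ * h0 = ken x) (hx : ((740881858 : ℕ) : ℝ) / S ≤ x)
    (hx' : x ≤ (((740881858 : ℕ) : ℝ) + (40050571 : ℕ)) / S) :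
    AltB (VFD κ) PP tK tL pcB [⟨4, 0, 0, 2845415833⟩] 1 1 2 0 0 (sgb true) (sgb true) x :=
  strip_altBD (m := 2845415833) false rfl hκ (SH.κ0 hκ (SH.hx1 hx).le (SH.hx2 hx').le) (SH.hx1 hx).le (SH.hx2 hx') (covB01).cov (covB02).cov hx hx' c_B00pp_112_s3 cutB_nil (noExt_B)

noncomputable def cut_B00pp_202_s1 : Cut := Cut.of [[⟨4, 0, 0, 1449551462⟩]]

noncomputable def f_B00pp_202_s1 : ℕ → ℕ → ℕ → ℕ → Bool := onCell 0 536870912 0 536870912 740881858 40050571
    (rowF 0 false true true .pp 2 0 2 (qsf 0 536870912 0 536870912 0) ndB0q2 ndB0q2 pcB0 cut_B00pp_202_s1 Ext.none)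

def k0_B00pp_202_s1 : ∃ t, chk3 f_B00pp_202_s1 t 1 1 1 = true :=
  ⟨(l 3), by decide +kernel⟩

theorem c_B00pp_202_s1 : CertF 0 536870912 0 536870912 740881858 40050571 false true true .pp 2 0 2
    ndB0q2 ndB0q2 pcB0 cut_B00pp_202_s1 Ext.none :=
  certF0 (fam := false) (s1 := true) (s2 := true) (a := 2) (b := 0) (c := 2) (cn := .pp) (n1 := ndB0q2) (n2 := ndB0q2) (pc := pcB0) (cut := cut_B00pp_202_s1) (xt := Ext.none) (P1 := 0) (W1 := 536870912) (P2 := 0) (W2 := 536870912) (P3 := 740881858) (W3 := 40050571)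
    rfl k0_B00pp_202_s1

theorem s_B00pp_202_s1 {κ x : ℝ} (hκ : κ * h0 = ken x) (hx : ((740881858 : ℕ) : ℝ) / S ≤ x)
    (hx' : x ≤ (((740881858 : ℕ) : ℝ) + (40050571 : ℕ)) / S) :
    AltB (VFD κ) PP tK tL pcB [⟨3, 0, 0, 1449551462⟩] 2 0 2 0 0 (sgb true) (sgb true) x :=
  strip_altBD (m := 1449551462) true rfl hκ (SH.κ0 hκ (SH.hx1 hx).le (SH.hx2 hx').le) (SH.hx1 hx).le (SH.hx2 hx') (covB02).cov (covB02).cov hx hx' c_B00pp_202_s1 cutB_nil (noExt_B)

noncomputable def cut_B00pp_202_s3 : Cut := Cut.of [[⟨3, 0, 0, 2845415833⟩]]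

noncomputable def f_B00pp_202_s3 : ℕ → ℕ → ℕ → ℕ → Bool := onCell 0 536870912 0 536870912 740881858 40050571
    (rowF 0 false true true .pp 2 0 2 (qsf 0 536870912 0 536870912 0) ndB0q2 ndB0q2 pcB0 cut_B00pp_202_s3 Ext.none)

def k0_B00pp_202_s3 : ∃ t, chk3 f_B00pp_202_s3 t 1 1 1 = true :=
  ⟨(l 3), by decide +kernel⟩

theorem c_B00pp_202_s3 : CertF 0 536870912 0 536870912 740881858 40050571 false true true .pp 2 0 2
    ndB0q2 ndB0q2 pcB0 cut_B00pp_202_s3 Ext.none :=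
  certF0 (fam := false) (s1 := true) (s2 := true) (a := 2) (b := 0) (c := 2) (cn := .pp) (n1 := ndB0q2) (n2 := ndB0q2) (pc := pcB0) (cut := cut_B00pp_202_s3) (xt := Ext.none) (P1 := 0) (W1 := 536870912) (P2 := 0) (W2 := 536870912) (P3 := 740881858) (W3 := 40050571)
    rfl k0_B00pp_202_s3

theorem s_B00pp_202_s3 {κ x : ℝ} (hκ : κ * h0 = ken x) (hx : ((740881858 : ℕ) : ℝ) / S ≤ x)
    (hx' : x ≤ (((740881858 : ℕ) : ℝ) + (40050571 : ℕ)) / S) :
    AltB (VFD κ) PP tK tL pcB [⟨4, 0, 0, 2845415833⟩] 2 0 2 0 0 (sgb true) (sgb true) x :=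
  strip_altBD (m := 2845415833) false rfl hκ (SH.κ0 hκ (SH.hx1 hx).le (SH.hx2 hx').le) (SH.hx1 hx).le (SH.hx2 hx') (covB02).cov (covB02).cov hx hx' c_B00pp_202_s3 cutB_nil (noExt_B)

noncomputable def cut_B00pm_001_s1 : Cut := Cut.of [[⟨4, 0, 0, 1449551462⟩]]

noncomputable def f_B00pm_001_s1 : ℕ → ℕ → ℕ → ℕ → Bool := onCell 0 536870912 536870912 536870912 740881858 40050571
    (rowF 0 false true false .up 0 0 1 (qsf 0 536870912 536870912 536870912 0) ndB0q0 ndB0q1 pcB0 cut_B00pm_001_s1 Ext.none)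

def k0_B00pm_001_s1 : ∃ t, chk3 f_B00pm_001_s1 t 1 1 1 = true :=
  ⟨(l 6), by decide +kernel⟩

theorem c_B00pm_001_s1 : CertF 0 536870912 536870912 536870912 740881858 40050571 false true false .up 0 0 1
    ndB0q0 ndB0q1 pcB0 cut_B00pm_001_s1 Ext.none :=
  certF0 (fam := false) (s1 := true) (s2 := false) (a := 0) (b := 0) (c := 1) (cn := .up) (n1 := ndB0q0) (n2 := ndB0q1) (pc := pcB0) (cut := cut_B00pm_001_s1) (xt := Ext.none) (P1 := 0) (W1 := 536870912) (P2 := 536870912) (W2 := 536870912) (P3 := 740881858) (W3 := 40050571)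
    rfl k0_B00pm_001_s1

theorem s_B00pm_001_s1 {κ x : ℝ} (hκ : κ * h0 = ken x) (hx : ((740881858 : ℕ) : ℝ) / S ≤ x)
    (hx' : x ≤ (((740881858 : ℕ) : ℝ) + (40050571 : ℕ)) / S) :
    AltB (VFD κ) PP tK tL pcB [⟨3, 0, 0, 1449551462⟩] 0 0 1 0 0 (sgb true) (sgb false) x :=
  strip_altBD (m := 1449551462) true rfl hκ (SH.κ0 hκ (SH.hx1 hx).le (SH.hx2 hx').le) (SH.hx1 hx).le (SH.hx2 hx') (covB00).cov (covB01).cov hx hx' c_B00pm_001_s1 cutB_nil (noExt_B)

noncomputable def cut_B00pm_001_s3 : Cut := Cut.of [[⟨3, 0, 0, 2845415833⟩]]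

noncomputable def xt_B00pm_001_s3 : Ext := strExt dd false true false .u0 .u0m .s0m .up 0 0 1 rfl rfl gl0 vv ndB0q0 ndB0q1

noncomputable def f_B00pm_001_s3 : ℕ → ℕ → ℕ → ℕ → Bool := onCell 0 536870912 536870912 536870912 740881858 40050571
    (rowF 0 false true false .up 0 0 1 (qsf 0 536870912 536870912 536870912 0) ndB0q0 ndB0q1 pcB0 cut_B00pm_001_s3 xt_B00pm_001_s3)

def k0_B00pm_001_s3 : ∃ t, chk3 f_B00pm_001_s3 t 2 1 1 = true :=
  ⟨(b (l 4) (b (b (l 4) (l 2)) (l 2))), by decide +kernel⟩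

def k1_B00pm_001_s3 : ∃ t, chk3 f_B00pm_001_s3 t 3 4 1 = true :=
  ⟨(l 4), by decide +kernel⟩

def k2_B00pm_001_s3 : ∃ t, chk3 f_B00pm_001_s3 t 6 5 1 = true :=
  ⟨(l 4), by decide +kernel⟩

def k3_B00pm_001_s3 : ∃ t, chk3 f_B00pm_001_s3 t 14 10 1 = true :=
  ⟨(l 4), by decide +kernel⟩

def k4_B00pm_001_s3 : ∃ t, chk3 f_B00pm_001_s3 t 15 20 1 = true :=
  ⟨(a (l 4) (a (l 4) (a (l 4) (b (l 4) (c (l 534494223) (l 534093839)))))), by decide +kernel⟩

def k5_B00pm_001_s3 : ∃ t, chk3 f_B00pm_001_s3 t 30 21 1 = true :=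
  ⟨(b (l 4) (a (l 4) (c (c (a (l 533451279) (l 533550863)) (l 533382415)) (c (l 533269775) (l 533163023))))), by decide +kernel⟩

def k6_B00pm_001_s3 : ∃ t, chk3 f_B00pm_001_s3 t 62 21 1 = true :=
  ⟨(b (c (c (b (l 4) (a (l 4) (a (b (l 4) (l 533761551)) (b (a (b (l 4) (b (l 4) (l 533814287))) (b (c (l 533923855) (l 533862927)) (b (c (l 533894671) (l 533835535)) (a (a (l 533834255) (l 533841935)) (l 533866511))))) (a (l 533808143) (b (a (l 533834255) (b (l 533858831) (l 533853967))) (l 533837583))))))) (b (l 4) (a (l 4) (b (a (l 4) (a (b (l 4) (b (l 4) (l 533702415))) (b (l 533773839) (b (l 533749775) (c (l 533765135) (l 533709839)))))) (a (l 533650191) (a (l 533696271) (b (a (l 533722383) (l 533742351)) (l 533725455)))))))) (a (l 4) (a (b (l 4) (b (l 4) (l 533493007))) (b (l 4) (a (b (b (l 4) (b (l 4) (l 533544975))) (l 533538063)) (b (c (b (l 533660175) (b (l 533639695) (l 533629455))) (b (l 533551631) (l 533531151)))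 (b (c (a (l 533615631) (l 533634063)) (l 533516559)) (l 533566479)))))))) (c (a (c (b (l 533662735) (l 533651983)) (l 533542927)) (a (c (l 533742095) (l 533628687)) (b (a (l 533737743) (c (l 533826063) (l 533713167))) (c (l 533793039) (l 533678863))))) (a (a (l 533352463) (l 533409039)) (a (l 533466895) (a (l 533511183) (c (l 533594383) (l 533489679))))))), by decide +kernel⟩

def k7_B00pm_001_s3 : ∃ t, chk3 f_B00pm_001_s3 t 63 21 1 = true :=
  ⟨(b (b (c (c (l 534275599) (l 534111503)) (c (l 533953551) (l 533801743))) (c (b (b (c (l 534186255) (l 534034959)) (a (c (a (b (l 533963279) (l 533946383)) (l 534085135)) (a (l 533831183) (l 533946127))) (l 534197775))) (a (a (c (b (a (l 534167055) (l 533959951)) (a (l 533885711) (l 533942543))) (b (a (l 533780495) (l 533835535)) (l 533794575))) (c (b (l 534054927) (l 534033423)) (l 533910543))) (c (l 534233615) (l 534080015)))) (a (b (b (l 533724687) (c (l 533763343) (l 533643023)))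 (b (a (a (c (l 533668111) (l 533561103)) (l 533659407)) (l 533729551)) (a (c (l 533680655) (l 533572111)) (l 533715215)))) (b (l 533902607) (c (l 533933071) (l 533792783)))))) (c (a (b (a (c (b (a (l 533872655) (l 533923599)) (l 533881615)) (b (l 533780495) (l 533765135))) (b (c (l 534008335) (l 533880079)) (c (l 533982735) (l 533857807)))) (a (c (l 533862927) (l 533746959)) (c (l 533954063) (l 533831439)))) (b (b (c (a (l 534128143) (l 534250767)) (l 534042127)) (c (a (l 534095887) (l 534213903)) (l 534012175))) (a (c (l 534057743) (l 533925903)) (b (l 534109967) (l 534084623))))) (a (b (a (c (b (l 533667855) (l 533653519)) (l 533553167)) (b (c (l 533757199) (l 533639951)) (l 533679119))) (a (l 533580047) (c (l 533712911) (l 533598735)))) (b (c (b (l 533901071) (l 533875471)) (b (l 533766159) (l 533744399))) (a (c (l 533798671) (l 533676047)) (b (l 533831951) (l 533812239))))))), by decide +kernel⟩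

def k8_B00pm_001_s3 : ∃ t, chk3 f_B00pm_001_s3 t 28 11 1 = true :=
  ⟨(b (l 4) (a (b (l 4) (c (b (l 4) (a (l 4) (a (b (l 4) (b (l 4) (l 532820751))) (a (b (l 4) (c (b (l 532939279) (l 532941327)) (b (c (l 532777231) (l 532669967)) (l 532726031)))) (b (l 532846863) (c (b (l 532955151) (l 532956687)) (b (l 532739599) (l 532741903)))))))) (b (l 4) (b (a (l 4) (a (l 4) (a (l 4) (l 532423183)))) (a (l 4) (a (b (l 4) (l 532404239)) (c (a (b (c (l 532563471) (l 532457743)) (l 532513295)) (b (b (l 532527375) (l 532526863)) (l 532529679))) (a (b (c (l 532352783) (a (l 4) (l 532251919))) (a (l 532307215) (l 532306959))) (b (b (l 532317711) (l 532317199)) (c (l 532372239) (l 532268303))))))))))) (b (a (l 4) (a (l 4) (a (l 4) (c (l 532961039) (l 532571151))))) (b (c (a (l 532889615) (l 532960527)) (a (l 532473103) (c (l 532651279) (l 532448783)))) (c (b (l 532924943) (b (c (l 533031183) (a (l 532783119) (l 532854799))) (a (a (c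 (l 532980751) (l 532766479)) (l 532907023)) (l 532959759)))) (b (a (l 532469263) (l 532545551)) (a (b (b (l 532467727) (l 532467215)) (a (a (b (l 532439823) (l 532442127)) (l 532458511)) (l 532485647))) (b (l 532542991) (l 532541967))))))))), by decide +kernel⟩

def k9_B00pm_001_s3 : ∃ t, chk3 f_B00pm_001_s3 t 29 11 1 = true :=
  ⟨(b (a (l 4) (b (l 4) (b (a (l 4) (c (l 533148943) (l 532844303))) (a (c (l 533092111) (l 532759567)) (c (l 533159439) (l 532840207)))))) (b (a (a (c (b (l 532986383) (l 533005583)) (c (l 532708367) (l 532521487))) (c (l 533053711) (c (l 532776207) (l 532595727)))) (a (c (l 533113871) (c (l 532846607) (l 532672783))) (c (b (l 533170959) (l 533183503)) (a (l 532816655) (l 532856079))))) (c (b (a (a (l 533024271) (l 533080591)) (a (l 533137423) (l 533197327))) (a (b (a (l 533033231) (l 533094671)) (a (l 533033487) (l 533102351))) (c (l 533280527) (l 533086991)))) (b (a (a (c (l 532721935) (l 532523791))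 (l 532691471)) (a (l 532761871) (l 532835599))) (a (b (a (l 532623631) (l 532695311)) (a (c (l 532723215) (l 532519439)) (c (l 532797711) (l 532597263)))) (a (c (l 532861967) (l 532669711)) (l 532836623))))))), by decide +kernel⟩

def k10_B00pm_001_s3 : ∃ t, chk3 f_B00pm_001_s3 t 15 11 1 = true :=
  ⟨(a (b (a (b (c (a (b (l 4) (l 533216271)) (l 533296911)) (a (l 532942607) (l 533036815))) (b (a (l 533342991) (l 533159183)) (c (l 533267727) (l 532968207)))) (b (c (c (l 533496079) (l 533368591)) (a (l 533134863) (l 533237263))) (c (a (l 533384975) (l 533471503)) (a (l 533110031) (l 533207311))))) (b (a (c (a (b (l 533239055) (l 533249039)) (l 533315087)) (a (b (l 532919055) (l 532914959)) (l 533000975))) (c (l 533430287) (l 533134863))) (a (c (b (l 533293583) (a (l 533272847) (l 533336591))) (a (b (l 532912143) (l 532910863)) (b (l 532992527) (l 532988687)))) (c (b (l 533434895) (l 533440015)) (a (l 533073167) (l 533159695))))))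 (b (a (a (c (b (l 533578511) (l 533563663)) (b (l 533343759) (l 533308943))) (c (b (c (b (l 533750287) (l 533738511)) (l 533626127)) (c (l 533725199) (l 533599503))) (b (a (l 533426703) (l 533483535)) (l 533415183)))) (b (a (c (b (a (l 533783823) (l 533863695)) (c (l 533862415) (l 533741839))) (b (a (l 533556239) (l 533627151)) (l 533566479))) (c (b (c (l 534069263) (l 533936399)) (c (l 534034959) (l 533903887))) (b (a (l 533704207) (l 533785359)) (a (l 533674511) (l 16742784))))) (a (c (c (l 533838607) (l 533714447)) (c (l 533592079) (l 533471759))) (c (c (l 533993999) (l 533862927)) (b (l 533683727) (l 16726800)))))) (a (b (a (c (l 533554959) (l 533277455)) (c (l 533645583) (l 533378575))) (c (a (l 533552399) (l 533635343)) (a (l 533250575) (l 533345807)))) (c (b (a (l 533749519) (b (l 16713104) (l 16704856))) (a (l 533730319) (l 533852431))) (b (a (l 533488399) (b (l 16707424) (l 16698328))) (a (l 533449231) (l 533569551))))))),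 by decide +kernel⟩

def k11_B00pm_001_s3 : ∃ t, chk3 f_B00pm_001_s3 t 6 6 1 = true :=
  ⟨(b (a (b (l 4) (a (l 4) (b (l 4) (a (l 4) (l 532136719))))) (a (b (l 4) (a (b (b (l 4) (a (l 4) (l 532617743))) (l 532374543)) (b (a (b (c (l 532781327) (l 532538127)) (a (l 532683279) (l 532698639))) (c (b (l 532804879) (l 532830479)) (b (l 532552975) (l 532591631)))) (a (a (l 532534031) (l 532578831)) (b (l 533489167) (l 532608015)))))) (b (a (b (l 4) (c (l 532786191) (l 532495119))) (b (b (l 4) (c (l 532791823) (l 532446223))) (c (l 532837647) (l 532520207)))) (b (a (c (b (a (l 532825615) (l 532847119)) (a (l 533125135) (l 532878095))) (b (a (l 532563727) (l 532574735)) (a (b (l 532600079) (l 532618255)) (l 532620815)))) (b (c (l 532882447) (l 532591631)) (c (l 532911375) (l 532637199)))) (a (a (b (a (l 532712975) (l 532728079)) (c (l 16757080) (l 16744464))) (b (a (l 16751272) (l 16747072)) (l 532703503))) (c (b (l 532909839)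 (l 532870415)) (b (l 532653327) (l 532633359)))))))) (a (b (a (l 2) (b (a (l 2) (c (l 532035855) (l 531940367))) (l 2))) (l 2)) (a (b (a (b (l 532210959) (b (l 532098831) (l 2))) (b (a (l 532385295) (l 532483343)) (a (l 532497679) (l 533133327)))) (a (l 2) (b (a (l 2) (l 16687296)) (l 2)))) (b (a (b (a (b (l 16732784) (l 16708952)) (b (l 16735040) (l 16700808))) (b (a (l 16695000) (l 16686960)) (l 16697552))) (b (b (a (l 16705808) (l 16697552)) (a (l 16692648) (l 16684456))) (b (a (l 16678896) (l 16670800)) (l 16681624)))) (a (b (a (l 16700512) (l 16692760)) (c (l 16669824) (l 16664960))) (b (b (l 16646328) (l 16632000)) (b (l 16617648) (l 16603272)))))))), by decide +kernel⟩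

def k12_B00pm_001_s3 : ∃ t, chk3 f_B00pm_001_s3 t 28 24 1 = true :=
  ⟨(b (a (c (a (l 532825871) (a (l 532852239) (b (c (a (l 532955919) (l 532963855)) (b (a (l 532740111) (l 532751375)) (l 532760591))) (l 532883727)))) (b (a (l 532421135) (a (l 532435215) (c (b (a (l 532532495) (l 532542223)) (l 532557583)) (b (a (l 532327951) (b (l 532330511) (l 532342543))) (l 532357647))))) (a (l 532470031) (a (l 532483599) (l 532493583))))) (c (c (b (a (b (a (l 532985359) (l 533017103)) (l 533008399)) (l 533069583)) (a (l 533020687) (l 533079823))) (b (a (b (a (l 532773135) (l 532805135)) (a (l 532785167) (l 532814607))) (b (l 532856847) (l 532863503))) (a (l 532818703) (l 532876559)))) (b (a (c (b (a (b (l 532559887) (l 532567055)) (l 532595727)) (a (l 532579855) (l 532608527))) (b (a (b (l 532352271) (l 532361487)) (l 532389135)) (a (l 532377615) (l 532405519)))) (b (c (l 532648719) (l 532442895)) (c (l 532657679) (l 532454671))))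 (a (a (l 532509967) (l 532533519)) (c (l 532676111) (l 532478735)))))) (a (c (a (l 532880911) (l 532913167)) (a (l 532541455) (l 532558095))) (c (a (b (l 532940815) (l 16752488)) (b (l 532993807) (l 16723856))) (a (b (l 532562703) (l 16737824)) (b (l 532609807) (l 16718808)))))), by decide +kernel⟩

def k13_B00pm_001_s3 : ∃ t, chk3 f_B00pm_001_s3 t 29 24 1 = true :=
  ⟨(b (b (a (c (b (a (l 533033743) (l 533107471)) (a (l 533036815) (l 533110799))) (b (a (l 532621327) (c (l 532801039) (l 532599311))) (a (l 532627727) (l 532705039)))) (c (c (l 533301519) (b (l 533098767) (l 533109007))) (a (b (l 532771855) (l 532780559)) (b (l 532840975) (l 532849167))))) (a (c (a (b (l 533041167) (l 16739400)) (l 533115151)) (a (b (l 532637455) (l 532649231)) (l 532716047))) (c (a (l 533189135) (l 533254927)) (a (b (l 532789263) (l 16713856)) (b (l 532860431) (l 532872463)))))) (a (c (b (a (l 533055247) (l 533122575)) (a (l 16716480) (l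 16709416))) (b (a (l 532669199) (l 532736271)) (a (l 16710584) (l 16702688)))) (c (b (a (l 16712600) (l 533270287)) (l 533237263)) (b (a (l 532809487) (l 532886543)) (l 532865039))))), by decide +kernel⟩

def k14_B00pm_001_s3 : ∃ t, chk3 f_B00pm_001_s3 t 14 25 1 = true :=
  ⟨(a (a (b (c (l 532948751) (l 532639759)) (c (l 532951311) (l 532680719))) (b (c (b (l 533006095) (l 16707056)) (b (l 532662543) (l 16743096))) (c (l 16732520) (l 16725952)))) (b (a (b (a (l 16702992) (l 16695592)) (l 16709704)) (b (a (l 16688552) (l 16681896)) (l 16674800))) (a (b (l 16677816) (l 16666136)) (b (l 16663960) (l 16652296))))), by decide +kernel⟩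

def k15_B00pm_001_s3 : ∃ t, chk3 f_B00pm_001_s3 t 15 12 1 = true :=
  ⟨(b (a (b (a (c (b (c (l 533411599) (l 533227279)) (l 533340431)) (b (a (l 532915983) (l 532990479)) (a (l 532933903) (l 533004559)))) (c (b (l 533448463) (l 533463055)) (b (a (l 533068559) (l 533150735)) (l 533117711)))) (a (c (b (l 533364751) (l 533382671)) (b (b (l 532986895) (l 532999439)) (l 533015567))) (c (b (l 533481999) (l 16675312)) (b (l 533134095) (l 16664800))))) (a (b (c (b (l 533594383) (l 533601551)) (b (l 533282063) (l 533282575))) (c (b (l 533613071) (l 16664280)) (b (l 533290767) (l 16653096)))) (a (b (c (l 533721615) (l 533422351)) (b (l 16660520) (l 16651616))) (b (b (l 16674744) (l 16665752)) (b (l 16656832) (l 16647984)))))) (a (a (b (b (a (l 16675640) (l 16669760)) (l 16662480)) (l 16687960)) (b (b (a (l 16663936) (l 16658080)) (a (l 16654392) (l 16649088))) (b (l 16641424) (l 16629976)))) (b (a (b (l 16649792) (l 16640984))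 (b (l 16640856) (l 16632152))) (a (b (l 16631768) (l 16621344)) (l 16618248))))), by decide +kernel⟩

def k16_B00pm_001_s3 : ∃ t, chk3 f_B00pm_001_s3 t 7 13 1 = true :=
  ⟨(b (a (a (a (b (c (l 532860687) (l 532631311)) (b (l 16658584) (l 16644576))) (b (b (l 16668976) (l 16656008)) (b (l 16642504) (l 16628568)))) (b (a (l 16689240) (l 16633416)) (a (l 16620240) (l 16606176)))) (a (b (a (l 16621224) (l 16611048)) (a (l 16593728) (l 16583312))) (b (a (l 16686968) (l 16596760)) (a (l 16575240) (l 16570464))))) (a (a (b (a (a (l 16627344) (l 16619416)) (l 16649496)) (a (l 16637184) (l 16579816))) (b (a (l 16592264) (l 16577992)) (a (l 16564664) (l 16550240)))) (a (b (a (l 16565184) (l 16554312)) (l 16614960)) (b (a (l 16545784) (l 6)) (l 6))))), by decide +kernel⟩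

def k17_B00pm_001_s3 : ∃ t, chk3 f_B00pm_001_s3 t 3 7 1 = true :=
  ⟨(a (a (l 2) (b (b (a (l 2) (b (a (l 2) (l 16665288)) (l 2))) (l 2)) (l 2))) (b (a (b (a (b (a (l 16650904) (l 16552200)) (a (b (l 16544768) (l 2)) (l 16606920))) (b (a (l 16537368) (l 16523120)) (l 6))) (a (a (l 2) (l 6)) (l 6))) (l 6)) (l 6))), by decide +kernel⟩

theorem t18_B00pm_001_s3 : ∃ t, chk3 f_B00pm_001_s3 t 14 24 1 = true := ex3_a k12_B00pm_001_s3 k13_B00pm_001_s3

theorem t19_B00pm_001_s3 : ∃ t, chk3 f_B00pm_001_s3 t 14 12 1 = true := ex3_b t18_B00pm_001_s3 k14_B00pm_001_s3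

theorem t20_B00pm_001_s3 : ∃ t, chk3 f_B00pm_001_s3 t 7 12 1 = true := ex3_a t19_B00pm_001_s3 k15_B00pm_001_s3

theorem t21_B00pm_001_s3 : ∃ t, chk3 f_B00pm_001_s3 t 7 6 1 = true := ex3_b t20_B00pm_001_s3 k16_B00pm_001_s3

theorem t22_B00pm_001_s3 : ∃ t, chk3 f_B00pm_001_s3 t 3 6 1 = true := ex3_a k11_B00pm_001_s3 t21_B00pm_001_s3

theorem t23_B00pm_001_s3 : ∃ t, chk3 f_B00pm_001_s3 t 3 3 1 = true := ex3_b t22_B00pm_001_s3 k17_B00pm_001_s3

theorem t24_B00pm_001_s3 : ∃ t, chk3 f_B00pm_001_s3 t 14 11 1 = true := ex3_a k8_B00pm_001_s3 k9_B00pm_001_s3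

theorem t25_B00pm_001_s3 : ∃ t, chk3 f_B00pm_001_s3 t 7 11 1 = true := ex3_a t24_B00pm_001_s3 k10_B00pm_001_s3

theorem t26_B00pm_001_s3 : ∃ t, chk3 f_B00pm_001_s3 t 31 21 1 = true := ex3_a k6_B00pm_001_s3 k7_B00pm_001_s3

theorem t27_B00pm_001_s3 : ∃ t, chk3 f_B00pm_001_s3 t 15 21 1 = true := ex3_a k5_B00pm_001_s3 t26_B00pm_001_s3

theorem t28_B00pm_001_s3 : ∃ t, chk3 f_B00pm_001_s3 t 15 10 1 = true := ex3_b k4_B00pm_001_s3 t27_B00pm_001_s3

theorem t29_B00pm_001_s3 : ∃ t, chk3 f_B00pm_001_s3 t 7 10 1 = true := ex3_a k3_B00pm_001_s3 t28_B00pm_001_s3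

theorem t30_B00pm_001_s3 : ∃ t, chk3 f_B00pm_001_s3 t 7 5 1 = true := ex3_b t29_B00pm_001_s3 t25_B00pm_001_s3

theorem t31_B00pm_001_s3 : ∃ t, chk3 f_B00pm_001_s3 t 3 5 1 = true := ex3_a k2_B00pm_001_s3 t30_B00pm_001_s3

theorem t32_B00pm_001_s3 : ∃ t, chk3 f_B00pm_001_s3 t 3 2 1 = true := ex3_b k1_B00pm_001_s3 t31_B00pm_001_s3

theorem t33_B00pm_001_s3 : ∃ t, chk3 f_B00pm_001_s3 t 3 1 1 = true := ex3_b t32_B00pm_001_s3 t23_B00pm_001_s3

theorem t34_B00pm_001_s3 : ∃ t, chk3 f_B00pm_001_s3 t 1 1 1 = true := ex3_a k0_B00pm_001_s3 t33_B00pm_001_s3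

theorem c_B00pm_001_s3 : CertF 0 536870912 536870912 536870912 740881858 40050571 false true false .up 0 0 1
    ndB0q0 ndB0q1 pcB0 cut_B00pm_001_s3 xt_B00pm_001_s3 :=
  certF0 (fam := false) (s1 := true) (s2 := false) (a := 0) (b := 0) (c := 1) (cn := .up) (n1 := ndB0q0) (n2 := ndB0q1) (pc := pcB0) (cut := cut_B00pm_001_s3) (xt := xt_B00pm_001_s3) (P1 := 0) (W1 := 536870912) (P2 := 536870912) (W2 := 536870912) (P3 := 740881858) (W3 := 40050571)
    rfl t34_B00pm_001_s3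

theorem s_B00pm_001_s3 {κ x : ℝ} (hκ : κ * h0 = ken x) (hx : ((740881858 : ℕ) : ℝ) / S ≤ x)
    (hx' : x ≤ (((740881858 : ℕ) : ℝ) + (40050571 : ℕ)) / S) :
    AltB (VFD κ) PP tK tL pcB [⟨4, 0, 0, 2845415833⟩] 0 0 1 0 0 (sgb true) (sgb false) x :=
  strip_altBD (m := 2845415833) false rfl hκ (SH.κ0 hκ (SH.hx1 hx).le (SH.hx2 hx').le) (SH.hx1 hx).le (SH.hx2 hx') (covB00).cov (covB01).cov hx hx' c_B00pm_001_s3 cutB_nil ((okx hx hx').extB (T := tt) (sideB hx hx') hκ rfl rfl (.O 0 true) (.O 1 false) (Or.inl rfl))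

noncomputable def cut_B00pm_011_s1 : Cut := Cut.of [[⟨4, 0, 0, 1449551462⟩], [⟨0, 0, 0, 67108864⟩, ⟨1, 1, 0, 67108864⟩, ⟨2, 1, 0, 67108864⟩]]

noncomputable def f_B00pm_011_s1 : ℕ → ℕ → ℕ → ℕ → Bool := onCell 0 536870912 536870912 536870912 740881858 40050571
    (rowF 0 false true false .pnn 0 1 1 (qsf 0 536870912 536870912 536870912 1) ndB0q0 ndB0q1 pcB1 cut_B00pm_011_s1 Ext.none)

def k0_B00pm_011_s1 : ∃ t, chk3 f_B00pm_011_s1 t 1 1 1 = true :=
  ⟨(l 6), by decide +kernel⟩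

theorem c_B00pm_011_s1 : CertF 0 536870912 536870912 536870912 740881858 40050571 false true false .pnn 0 1 1
    ndB0q0 ndB0q1 pcB1 cut_B00pm_011_s1 Ext.none :=
  certF0 (fam := false) (s1 := true) (s2 := false) (a := 0) (b := 1) (c := 1) (cn := .pnn) (n1 := ndB0q0) (n2 := ndB0q1) (pc := pcB1) (cut := cut_B00pm_011_s1) (xt := Ext.none) (P1 := 0) (W1 := 536870912) (P2 := 536870912) (W2 := 536870912) (P3 := 740881858) (W3 := 40050571)
    rfl k0_B00pm_011_s1

theorem s_B00pm_011_s1 {κ x : ℝ} (hκ : κ * h0 = ken x) (hx : ((740881858 : ℕ) : ℝ) / S ≤ x)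
    (hx' : x ≤ (((740881858 : ℕ) : ℝ) + (40050571 : ℕ)) / S)
    (H : CutB (VFD κ) PP tK tL pcB (Cut.of [[⟨0, 0, 0, 67108864⟩, ⟨1, 1, 0, 67108864⟩, ⟨2, 1, 0, 67108864⟩]]) 0 1 1 0 0 (sgb true) (sgb false) x) :
    AltB (VFD κ) PP tK tL pcB [⟨3, 0, 0, 1449551462⟩] 0 1 1 0 0 (sgb true) (sgb false) x :=
  strip_altBD (m := 1449551462) true rfl hκ (SH.κ0 hκ (SH.hx1 hx).le (SH.hx2 hx').le) (SH.hx1 hx).le (SH.hx2 hx') (covB00).cov (covB01).cov hx hx' c_B00pm_011_s1 H (noExt_B)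

end Pool.Agent.Strip051.G.I69_7273.Tab.St.C
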