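import Pool.Agent.Strip051.G.I69_7273.StH
import Pool.Agent.Strip051.G.I69_7273.StF

/-! # Unit strips 2 (generated) -/

set_option linter.all false
set_option maxRecDepth 100000

namespace Pool.Agent.Strip051.G.I69_7273.Tab.St.C

open Pool.Agent.Strip051.PB Pool.Agent.Strip051.PB.T Pool.Agent.StripNear Pool.Agent.Strip051.LC
open Pool.Agent.Strip051.G.I69_7273.Tab Pool.Agent.Strip051.G.I69_7273.Tab.St

noncomputable def cut_A00pm_012_s3 : Cut := Cut.of [[⟨3, 0, 0, 2845415833⟩], [⟨0, 0, 0, 53687091⟩, ⟨1, 1, 0, 53687091⟩, ⟨2, 1, 0, 53687091⟩]]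

noncomputable def f_A00pm_012_s3 : ℕ → ℕ → ℕ → ℕ → Bool := onCell 0 536870912 536870912 536870912 740881858 40050571
    (rowF 0 true true false .pnp 0 1 2 (qsf 0 536870912 536870912 536870912 2) ndB0q0 ndB0q1 pcB2 cut_A00pm_012_s3 Ext.none)

def k0_A00pm_012_s3 : ∃ t, chk3 f_A00pm_012_s3 t 1 1 1 = true :=
  ⟨(l 6), by decide +kernel⟩

theorem c_A00pm_012_s3 : CertF 0 536870912 536870912 536870912 740881858 40050571 true true false .pnp 0 1 2
    ndB0q0 ndB0q1 pcB2 cut_A00pm_012_s3 Ext.none :=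
  certF0 (fam := true) (s1 := true) (s2 := false) (a := 0) (b := 1) (c := 2) (cn := .pnp) (n1 := ndB0q0) (n2 := ndB0q1) (pc := pcB2) (cut := cut_A00pm_012_s3) (xt := Ext.none) (P1 := 0) (W1 := 536870912) (P2 := 536870912) (W2 := 536870912) (P3 := 740881858) (W3 := 40050571)
    rfl k0_A00pm_012_s3

theorem s_A00pm_012_s3 {κ x : ℝ} (hκ : κ * h0 = ken x) (hx : ((740881858 : ℕ) : ℝ) / S ≤ x)
    (hx' : x ≤ (((740881858 : ℕ) : ℝ) + (40050571 : ℕ)) / S)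
    (H : CutA (VFD κ) PP tK tL pcB (Cut.of [[⟨0, 0, 0, 53687091⟩, ⟨1, 1, 0, 53687091⟩, ⟨2, 1, 0, 53687091⟩]]) 0 1 2 0 0 (sgb true) (sgb false) x) :
    AltA (VFD κ) PP tK tL pcB [⟨4, 0, 0, 2845415833⟩] 0 1 2 0 0 (sgb true) (sgb false) x :=
  strip_altAD (m := 2845415833) false rfl hκ (SH.κ0 hκ (SH.hx1 hx).le (SH.hx2 hx').le) (SH.hx1 hx).le (SH.hx2 hx') (covB00).cov (covB01).cov hx hx' c_A00pm_012_s3 H (noExt_A)

noncomputable def cut_A00pm_022_s1 : Cut := Cut.of [[⟨4, 0, 0, 1449551462⟩], [⟨0, 0, 0, 67108864⟩, ⟨1, 1, 0, 67108864⟩, ⟨2, 1, 0, 67108864⟩]]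

noncomputable def f_A00pm_022_s1 : ℕ → ℕ → ℕ → ℕ → Bool := onCell 1073741824 536870912 0 536870912 740881858 40050571
    (rowF 2 true true false .pp 0 2 2 (qsf 0 536870912 0 536870912 2) ndB0q0 ndB0q2 pcB2 cut_A00pm_022_s1 Ext.none)

def k0_A00pm_022_s1 : ∃ t, chk3 f_A00pm_022_s1 t 4 2 1 = true :=
  ⟨(a (l 1) (l 6)), by decide +kernel⟩

def k1_A00pm_022_s1 : ∃ t, chk3 f_A00pm_022_s1 t 8 3 1 = true :=
  ⟨(b (l 1) (b (a (l 1) (b (a (l 1) (b (l 1) (a (l 1) (a (l 16613288) (l 16614248))))) (a (l 14) (a (l 14) (a (l 14) (b (l 16636456) (l 16657152))))))) (a (l 14) (a (l 14) (a (l 14) (a (l 14) (a (l 14) (b (b (l 16677096) (l 16689664)) (b (l 16686936) (b (l 16683648) (l 16680832))))))))))), by decide +kernel⟩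

def k2_A00pm_022_s1 : ∃ t, chk3 f_A00pm_022_s1 t 9 6 1 = true :=
  ⟨(a (b (l 1) (a (b (l 1) (a (l 1) (l 16621576))) (b (b (l 16599992) (l 16533792)) (b (l 16594368) (a (l 16571256) (l 16573096)))))) (b (l 6) (b (a (a (b (l 16523408) (l 16539648)) (b (l 6) (l 16543152))) (l 6)) (a (a (l 16607832) (b (l 16559336) (l 16576456))) (b (l 16554544) (l 16570784)))))), by decide +kernel⟩

def k3_A00pm_022_s1 : ∃ t, chk3 f_A00pm_022_s1 t 9 7 1 = true :=
  ⟨(b (b (a (a (b (a (l 16633056) (l 16591680)) (a (l 16656184) (l 16613440))) (b (a (l 16592288) (l 16592936)) (a (l 16612776) (l 16612216)))) (a (c (a (l 16607520) (l 16607768)) (a (l 16513944) (l 16513608))) (b (l 16587488) (l 16603608)))) (a (a (b (a (l 16677472) (l 16633424)) (a (b (l 16650496) (l 16618208)) (l 16651960))) (b (l 16641128) (l 16647408))) (a (a (l 16635904) (a (l 16634448) (l 16633344))) (a (l 16628528) (l 16621432))))) (a (b (b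 (a (a (l 16674488) (l 16669824)) (l 16663496)) (a (c (l 16701280) (l 16681264)) (c (l 16663352) (l 16665728)))) (b (a (a (a (c (l 16684288) (l 16683176)) (l 16680168)) (c (l 16674736) (l 16674496))) (b (l 16673640) (a (l 16665856) (l 16657504)))) (a (a (a (b (l 16680504) (a (l 16678536) (l 16676912))) (b (l 16677080) (l 16684888))) (b (l 16671656) (a (l 16670904) (l 16667240)))) (b (a (l 16663912) (l 16655608)) (a (a (l 16663448) (l 16659464)) (b (l 16653824) (l 16673440))))))) (b (a (a (b (l 16651224) (l 16651168)) (b (l 16641992) (l 16641936))) (b (l 16633000) (a (l 16634976) (l 16629064)))) (a (a (b (l 16670336) (b (l 16646648) (l 16665016))) (a (b (l 16642288) (l 16638096)) (b (l 16637552) (a (l 16634256) (l 16631832))))) (b (a (b (l 16633224) (l 16631272)) (b (l 16626528) (l 16624056))) (b (a (l 16628656) (a (l 16622896) (l 16618832))) (a (a (l 16627320) (l 16623304)) (a (b (l 16620136)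 (l 16618040)) (a (l 16615848) (l 16613608)))))))))), by decide +kernel⟩

def k4_A00pm_022_s1 : ∃ t, chk3 f_A00pm_022_s1 t 5 2 1 = true :=
  ⟨(l 6), by decide +kernel⟩

def k5_A00pm_022_s1 : ∃ t, chk3 f_A00pm_022_s1 t 10 6 1 = true :=
  ⟨(b (l 6) (a (a (b (l 6) (b (l 6) (l 16560376))) (l 6)) (l 6))), by decide +kernel⟩

def k6_A00pm_022_s1 : ∃ t, chk3 f_A00pm_022_s1 t 20 7 1 = true :=
  ⟨(a (b (a (b (l 16586768) (l 16614664)) (b (l 16580896) (l 16608304))) (b (b (l 16621760) (a (l 16580592) (l 16573392))) (b (a (b (l 16619208) (l 16616152)) (b (l 16611136) (l 16607464))) (b (a (a (l 16614576) (l 16610128)) (a (l 16605456) (l 16600552))) (b (a (a (l 16611336) (l 16606632)) (a (l 16601696) (l 16596520))) (a (a (a (l 16610096) (l 16607712)) (a (l 16605272) (l 16602776))) (a (c (b (l 16602264) (l 16600952)) (b (l 16596960) (l 16595376))) (a (a (l 16595608) (l 16594248)) (a (l 16592872) (l 16591480))))))))))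 (b (a (b (b (l 16567952) (l 16582544)) (l 16602472)) (a (b (l 16487832) (l 16598824)) (b (a (l 16570192) (b (l 6) (l 16576528))) (a (l 16597584) (l 16596976))))) (a (a (b (b (l 16613640) (l 16609432)) (b (l 16602544) (b (l 16595368) (b (c (l 16594352) (l 16587640)) (a (a (l 16590064) (l 16588632)) (a (l 16587176) (l 16585696))))))) (b (b (l 16609944) (l 16605136)) (b (l 16597568) (b (l 16589840) (c (a (l 16588912) (l 16586088)) (b (l 16581264) (a (l 16579328) (l 16575912)))))))) (b (a (b (l 16605840) (l 16600360)) (a (b (l 16602184) (l 16596136)) (b (l 16599520) (l 16614040)))) (b (a (l 16613032) (a (a (l 16588264) (l 16586376)) (a (l 16605192) (l 16582560)))) (a (b (a (l 16585400) (l 16582152)) (a (c (l 16583160) (l 16574264)) (a (l 16576312) (l 16574552)))) (a (a (b (l 16579528) (l 16572640)) (b (l 16577456) (c (l 16575608) (l 16565048)))) (a (a (a (l 16572504) (a (l 16571816) (l 16571248)))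 (l 16570704)) (l 16569840))))))))), by decide +kernel⟩

def k7_A00pm_022_s1 : ∃ t, chk3 f_A00pm_022_s1 t 21 7 1 = true :=
  ⟨(a (b (b (l 6) (l 16591448)) (b (b (l 16591416) (a (l 16587784) (l 16579752))) (b (b (l 16576208) (l 16612216)) (b (a (l 16568192) (l 16558968)) (a (l 16560880) (l 16551624)))))) (b (b (l 6) (l 16583192)) (b (b (l 16576504) (a (l 16571528) (l 16563200))) (b (l 16597752) (a (l 16588320) (l 16537632)))))), by decide +kernel⟩

def k8_A00pm_022_s1 : ∃ t, chk3 f_A00pm_022_s1 t 11 3 1 = true :=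
  ⟨(b (l 6) (b (l 6) (b (a (a (b (l 16477072) (l 16551152)) (l 6)) (l 6)) (a (b (a (l 16623064) (l 16565544)) (a (a (l 16529168) (l 16520992)) (a (l 16513208) (l 16547560)))) (a (a (b (l 6) (l 16498176)) (l 6)) (l 6)))))), by decide +kernel⟩

def k9_A00pm_022_s1 : ∃ t, chk3 f_A00pm_022_s1 t 3 1 1 = true :=
  ⟨(b (l 6) (l 6)), by decide +kernel⟩

theorem t10_A00pm_022_s1 : ∃ t, chk3 f_A00pm_022_s1 t 10 7 1 = true := ex3_a k6_A00pm_022_s1 k7_A00pm_022_s1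

theorem t11_A00pm_022_s1 : ∃ t, chk3 f_A00pm_022_s1 t 10 3 1 = true := ex3_b k5_A00pm_022_s1 t10_A00pm_022_s1

theorem t12_A00pm_022_s1 : ∃ t, chk3 f_A00pm_022_s1 t 5 3 1 = true := ex3_a t11_A00pm_022_s1 k8_A00pm_022_s1

theorem t13_A00pm_022_s1 : ∃ t, chk3 f_A00pm_022_s1 t 5 1 1 = true := ex3_b k4_A00pm_022_s1 t12_A00pm_022_s1

theorem t14_A00pm_022_s1 : ∃ t, chk3 f_A00pm_022_s1 t 9 3 1 = true := ex3_b k2_A00pm_022_s1 k3_A00pm_022_s1

theorem t15_A00pm_022_s1 : ∃ t, chk3 f_A00pm_022_s1 t 4 3 1 = true := ex3_a k1_A00pm_022_s1 t14_A00pm_022_s1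

theorem t16_A00pm_022_s1 : ∃ t, chk3 f_A00pm_022_s1 t 4 1 1 = true := ex3_b k0_A00pm_022_s1 t15_A00pm_022_s1

theorem t17_A00pm_022_s1 : ∃ t, chk3 f_A00pm_022_s1 t 2 1 1 = true := ex3_a t16_A00pm_022_s1 t13_A00pm_022_s1

theorem t18_A00pm_022_s1 : ∃ t, chk3 f_A00pm_022_s1 t 1 1 1 = true := ex3_a t17_A00pm_022_s1 k9_A00pm_022_s1

theorem c_A00pm_022_s1 : CertF 0 536870912 0 536870912 740881858 40050571 true true false .pp 0 2 2
    ndB0q0 ndB0q2 pcB2 cut_A00pm_022_s1 Ext.none :=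
  certF2 (fam := true) (s1 := true) (s2 := false) (a := 0) (b := 2) (c := 2) (cn := .pp) (n1 := ndB0q0) (n2 := ndB0q2) (pc := pcB2) (cut := cut_A00pm_022_s1) (xt := Ext.none) (P1 := 0) (W1 := 536870912) (P2 := 0) (W2 := 536870912) (P3 := 740881858) (W3 := 40050571)
    rfl (fun _ => rfl) t18_A00pm_022_s1

theorem s_A00pm_022_s1 {κ x : ℝ} (hκ : κ * h0 = ken x) (hx : ((740881858 : ℕ) : ℝ) / S ≤ x)
    (hx' : x ≤ (((740881858 : ℕ) : ℝ) + (40050571 : ℕ)) / S)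
    (H : CutA (VFD κ) PP tK tL pcB (Cut.of [[⟨0, 0, 0, 67108864⟩, ⟨1, 1, 0, 67108864⟩, ⟨2, 1, 0, 67108864⟩]]) 0 2 2 0 0 (sgb true) (sgb false) x) :
    AltA (VFD κ) PP tK tL pcB [⟨3, 0, 0, 1449551462⟩] 0 2 2 0 0 (sgb true) (sgb false) x :=
  strip_altAD (m := 1449551462) true rfl hκ (SH.κ0 hκ (SH.hx1 hx).le (SH.hx2 hx').le) (SH.hx1 hx).le (SH.hx2 hx') (covB00).cov (covB02).cov hx hx' c_A00pm_022_s1 H (noExt_A)

noncomputable def cut_A00pm_022_s3 : Cut := Cut.of [[⟨3, 0, 0, 2845415833⟩], [⟨0, 0, 0, 67108864⟩, ⟨1, 1, 0, 67108864⟩, ⟨2, 1, 0, 67108864⟩]]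

noncomputable def f_A00pm_022_s3 : ℕ → ℕ → ℕ → ℕ → Bool := onCell 1073741824 536870912 0 536870912 740881858 40050571
    (rowF 2 true true false .pp 0 2 2 (qsf 0 536870912 0 536870912 2) ndB0q0 ndB0q2 pcB2 cut_A00pm_022_s3 Ext.none)

def k0_A00pm_022_s3 : ∃ t, chk3 f_A00pm_022_s3 t 1 1 1 = true :=
  ⟨(a (l 6) (b (l 6) (l 6))), by decide +kernel⟩

theorem c_A00pm_022_s3 : CertF 0 536870912 0 536870912 740881858 40050571 true true false .pp 0 2 2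
    ndB0q0 ndB0q2 pcB2 cut_A00pm_022_s3 Ext.none :=
  certF2 (fam := true) (s1 := true) (s2 := false) (a := 0) (b := 2) (c := 2) (cn := .pp) (n1 := ndB0q0) (n2 := ndB0q2) (pc := pcB2) (cut := cut_A00pm_022_s3) (xt := Ext.none) (P1 := 0) (W1 := 536870912) (P2 := 0) (W2 := 536870912) (P3 := 740881858) (W3 := 40050571)
    rfl (fun _ => rfl) k0_A00pm_022_s3

theorem s_A00pm_022_s3 {κ x : ℝ} (hκ : κ * h0 = ken x) (hx : ((740881858 : ℕ) : ℝ) / S ≤ x)
    (hx' : x ≤ (((740881858 : ℕ) : ℝ) + (40050571 : ℕ)) / S)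
    (H : CutA (VFD κ) PP tK tL pcB (Cut.of [[⟨0, 0, 0, 67108864⟩, ⟨1, 1, 0, 67108864⟩, ⟨2, 1, 0, 67108864⟩]]) 0 2 2 0 0 (sgb true) (sgb false) x) :
    AltA (VFD κ) PP tK tL pcB [⟨4, 0, 0, 2845415833⟩] 0 2 2 0 0 (sgb true) (sgb false) x :=
  strip_altAD (m := 2845415833) false rfl hκ (SH.κ0 hκ (SH.hx1 hx).le (SH.hx2 hx').le) (SH.hx1 hx).le (SH.hx2 hx') (covB00).cov (covB02).cov hx hx' c_A00pm_022_s3 H (noExt_A)

noncomputable def cut_A00pm_023_s1 : Cut := Cut.of [[⟨4, 0, 0, 1449551462⟩]]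

noncomputable def f_A00pm_023_s1 : ℕ → ℕ → ℕ → ℕ → Bool := onCell 1610612736 536870912 0 536870912 740881858 40050571
    (rowF 2 true true false .up 0 2 3 (qsf 0 536870912 0 536870912 3) ndB0q0 ndB0q2 pcB3 cut_A00pm_023_s1 Ext.none)

def k0_A00pm_023_s1 : ∃ t, chk3 f_A00pm_023_s1 t 1 1 1 = true :=
  ⟨(l 6), by decide +kernel⟩

theorem c_A00pm_023_s1 : CertF 0 536870912 0 536870912 740881858 40050571 true true false .up 0 2 3
    ndB0q0 ndB0q2 pcB3 cut_A00pm_023_s1 Ext.none :=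
  certF2 (fam := true) (s1 := true) (s2 := false) (a := 0) (b := 2) (c := 3) (cn := .up) (n1 := ndB0q0) (n2 := ndB0q2) (pc := pcB3) (cut := cut_A00pm_023_s1) (xt := Ext.none) (P1 := 0) (W1 := 536870912) (P2 := 0) (W2 := 536870912) (P3 := 740881858) (W3 := 40050571)
    rfl (fun _ => rfl) k0_A00pm_023_s1

theorem s_A00pm_023_s1 {κ x : ℝ} (hκ : κ * h0 = ken x) (hx : ((740881858 : ℕ) : ℝ) / S ≤ x)
    (hx' : x ≤ (((740881858 : ℕ) : ℝ) + (40050571 : ℕ)) / S) :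
    AltA (VFD κ) PP tK tL pcB [⟨3, 0, 0, 1449551462⟩] 0 2 3 0 0 (sgb true) (sgb false) x :=
  strip_altAD (m := 1449551462) true rfl hκ (SH.κ0 hκ (SH.hx1 hx).le (SH.hx2 hx').le) (SH.hx1 hx).le (SH.hx2 hx') (covB00).cov (covB02).cov hx hx' c_A00pm_023_s1 cutA_nil (noExt_A)

noncomputable def cut_A00pm_023_s3 : Cut := Cut.of [[⟨3, 0, 0, 2845415833⟩]]

noncomputable def f_A00pm_023_s3 : ℕ → ℕ → ℕ → ℕ → Bool := onCell 0 536870912 0 536870912 740881858 40050571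
    (rowF 0 true true false .up 0 2 3 (qsf 0 536870912 0 536870912 3) ndB0q0 ndB0q2 pcB3 cut_A00pm_023_s3 Ext.none)

def k0_A00pm_023_s3 : ∃ t, chk3 f_A00pm_023_s3 t 1 1 1 = true :=
  ⟨(a (l 1) (b (a (b (a (l 1) (b (a (l 1) (b (l 16636216) (l 6))) (l 6))) (l 6)) (b (b (b (a (a (l 16656464) (l 16673680)) (a (l 16771512) (a (l 16705288) (l 16718304)))) (a (a (l 6) (l 16658424)) (a (l 16669720) (a (l 16689088) (l 16702416))))) (a (l 6) (a (b (l 16651168) (l 6)) (b (l 16684344) (l 16660856))))) (b (l 6) (l 6)))) (l 6))), by decide +kernel⟩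

theorem c_A00pm_023_s3 : CertF 0 536870912 0 536870912 740881858 40050571 true true false .up 0 2 3
    ndB0q0 ndB0q2 pcB3 cut_A00pm_023_s3 Ext.none :=
  certF0 (fam := true) (s1 := true) (s2 := false) (a := 0) (b := 2) (c := 3) (cn := .up) (n1 := ndB0q0) (n2 := ndB0q2) (pc := pcB3) (cut := cut_A00pm_023_s3) (xt := Ext.none) (P1 := 0) (W1 := 536870912) (P2 := 0) (W2 := 536870912) (P3 := 740881858) (W3 := 40050571)
    rfl k0_A00pm_023_s3

theorem s_A00pm_023_s3 {κ x : ℝ} (hκ : κ * h0 = ken x) (hx : ((740881858 : ℕ) : ℝ) / S ≤ x)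
    (hx' : x ≤ (((740881858 : ℕ) : ℝ) + (40050571 : ℕ)) / S) :
    AltA (VFD κ) PP tK tL pcB [⟨4, 0, 0, 2845415833⟩] 0 2 3 0 0 (sgb true) (sgb false) x :=
  strip_altAD (m := 2845415833) false rfl hκ (SH.κ0 hκ (SH.hx1 hx).le (SH.hx2 hx').le) (SH.hx1 hx).le (SH.hx2 hx') (covB00).cov (covB02).cov hx hx' c_A00pm_023_s3 cutA_nil (noExt_A)

noncomputable def cut_A00pm_101_s1 : Cut := Cut.of [[⟨4, 0, 0, 1449551462⟩], [⟨0, 1, 0, 67108864⟩, ⟨1, 0, 0, 67108864⟩, ⟨2, 1, 0, 67108864⟩]]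

noncomputable def f_A00pm_101_s1 : ℕ → ℕ → ℕ → ℕ → Bool := onCell 536870912 536870912 536870912 536870912 740881858 40050571
    (rowF 1 true true false .npn 1 0 1 (qsf 536870912 536870912 0 536870912 1) ndB0q1 ndB0q0 pcB1 cut_A00pm_101_s1 Ext.none)

def k0_A00pm_101_s1 : ∃ t, chk3 f_A00pm_101_s1 t 1 1 1 = true :=
  ⟨(b (l 3) (a (l 3) (b (l 3) (a (l 3) (b (l 3) (a (l 3) (b (l 3) (a (l 3) (l 14))))))))), by decide +kernel⟩

theorem c_A00pm_101_s1 : CertF 536870912 536870912 0 536870912 740881858 40050571 true true false .npn 1 0 1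
    ndB0q1 ndB0q0 pcB1 cut_A00pm_101_s1 Ext.none :=
  certF1 (fam := true) (s1 := true) (s2 := false) (a := 1) (b := 0) (c := 1) (cn := .npn) (n1 := ndB0q1) (n2 := ndB0q0) (pc := pcB1) (cut := cut_A00pm_101_s1) (xt := Ext.none) (P1 := 536870912) (W1 := 536870912) (P2 := 0) (W2 := 536870912) (P3 := 740881858) (W3 := 40050571)
    rfl (fun _ => rfl) k0_A00pm_101_s1

theorem s_A00pm_101_s1 {κ x : ℝ} (hκ : κ * h0 = ken x) (hx : ((740881858 : ℕ) : ℝ) / S ≤ x)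
    (hx' : x ≤ (((740881858 : ℕ) : ℝ) + (40050571 : ℕ)) / S)
    (H : CutA (VFD κ) PP tK tL pcB (Cut.of [[⟨0, 1, 0, 67108864⟩, ⟨1, 0, 0, 67108864⟩, ⟨2, 1, 0, 67108864⟩]]) 1 0 1 0 0 (sgb true) (sgb false) x) :
    AltA (VFD κ) PP tK tL pcB [⟨3, 0, 0, 1449551462⟩] 1 0 1 0 0 (sgb true) (sgb false) x :=
  strip_altAD (m := 1449551462) true rfl hκ (SH.κ0 hκ (SH.hx1 hx).le (SH.hx2 hx').le) (SH.hx1 hx).le (SH.hx2 hx') (covB01).cov (covB00).cov hx hx' c_A00pm_101_s1 H (noExt_A)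

noncomputable def cut_A00pm_101_s3 : Cut := Cut.of [[⟨3, 0, 0, 2845415833⟩], [⟨0, 1, 0, 67108864⟩, ⟨1, 0, 0, 67108864⟩, ⟨2, 1, 0, 67108864⟩]]

noncomputable def f_A00pm_101_s3 : ℕ → ℕ → ℕ → ℕ → Bool := onCell 536870912 536870912 0 536870912 740881858 40050571
    (rowF 0 true true false .npn 1 0 1 (qsf 536870912 536870912 0 536870912 1) ndB0q1 ndB0q0 pcB1 cut_A00pm_101_s3 Ext.none)

def k0_A00pm_101_s3 : ∃ t, chk3 f_A00pm_101_s3 t 1 1 1 = true :=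
  ⟨(l 6), by decide +kernel⟩

theorem c_A00pm_101_s3 : CertF 536870912 536870912 0 536870912 740881858 40050571 true true false .npn 1 0 1
    ndB0q1 ndB0q0 pcB1 cut_A00pm_101_s3 Ext.none :=
  certF0 (fam := true) (s1 := true) (s2 := false) (a := 1) (b := 0) (c := 1) (cn := .npn) (n1 := ndB0q1) (n2 := ndB0q0) (pc := pcB1) (cut := cut_A00pm_101_s3) (xt := Ext.none) (P1 := 536870912) (W1 := 536870912) (P2 := 0) (W2 := 536870912) (P3 := 740881858) (W3 := 40050571)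
    rfl k0_A00pm_101_s3

theorem s_A00pm_101_s3 {κ x : ℝ} (hκ : κ * h0 = ken x) (hx : ((740881858 : ℕ) : ℝ) / S ≤ x)
    (hx' : x ≤ (((740881858 : ℕ) : ℝ) + (40050571 : ℕ)) / S)
    (H : CutA (VFD κ) PP tK tL pcB (Cut.of [[⟨0, 1, 0, 67108864⟩, ⟨1, 0, 0, 67108864⟩, ⟨2, 1, 0, 67108864⟩]]) 1 0 1 0 0 (sgb true) (sgb false) x) :
    AltA (VFD κ) PP tK tL pcB [⟨4, 0, 0, 2845415833⟩] 1 0 1 0 0 (sgb true) (sgb false) x :=
  strip_altAD (m := 2845415833) false rfl hκ (SH.κ0 hκ (SH.hx1 hx).le (SH.hx2 hx').le) (SH.hx1 hx).le (SH.hx2 hx') (covB01).cov (covB00).cov hx hx' c_A00pm_101_s3 H (noExt_A)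

end Pool.Agent.Strip051.G.I69_7273.Tab.St.C
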