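import Pool.Agent.Strip051.G.I69_7273.StH
import Pool.Agent.Strip051.G.I69_7273.StF

/-! # Unit strips 3 (generated) -/

set_option linter.all false
set_option maxRecDepth 100000

namespace Pool.Agent.Strip051.G.I69_7273.Tab.St.C

open Pool.Agent.Strip051.PB Pool.Agent.Strip051.PB.T Pool.Agent.StripNear Pool.Agent.Strip051.LC
open Pool.Agent.Strip051.G.I69_7273.Tab Pool.Agent.Strip051.G.I69_7273.Tab.St

noncomputable def cut_A00pm_102_s1 : Cut := Cut.of [[⟨4, 0, 0, 1449551462⟩], [⟨0, 1, 0, 53687091⟩, ⟨1, 0, 0, 53687091⟩, ⟨2, 1, 0, 53687091⟩]]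

noncomputable def xt_A00pm_102_s1 : Ext := strExt dd true true false .u0 .u0m .u2 .npp 1 0 2 rfl rfl gf2 vv ndB0q1 ndB0q0

noncomputable def f_A00pm_102_s1 : ℕ → ℕ → ℕ → ℕ → Bool := onCell 536870912 536870912 1073741824 536870912 740881858 40050571
    (rowF 1 true true false .npp 1 0 2 (qsf 536870912 536870912 0 536870912 2) ndB0q1 ndB0q0 pcB2 cut_A00pm_102_s1 xt_A00pm_102_s1)

def k0_A00pm_102_s1 : ∃ t, chk3 f_A00pm_102_s1 t 2 4 1 = true :=
  ⟨(a (l 3) (l 3)), by decide +kernel⟩

def k1_A00pm_102_s1 : ∃ t, chk3 f_A00pm_102_s1 t 2 80 2 = true :=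
  ⟨(a (l 3) (l 3)), by decide +kernel⟩

def k2_A00pm_102_s1 : ∃ t, chk3 f_A00pm_102_s1 t 2 162 8 = true :=
  ⟨(c (b (a (l 2) (a (l 3) (l 3))) (a (l 2) (a (l 3) (a (l 3) (a (l 3) (a (l 3) (a (b (l 3) (b (l 3) (a (l 3) (b (a (l 3) (l 532266127)) (l 532250767))))) (a (b (l 3) (a (b (b (l 3) (l 532285839)) (l 532270991)) (b (b (a (b (l 3) (b (l 3) (l 532299407))) (b (a (l 3) (l 532312207)) (a (l 532304015) (b (l 532307343) (l 532305039))))) (a (l 532293007) (a (l 532296591) (l 532298895)))) (l 532280719)))) (b (b (l 3) (l 532344975)) (b (b (a (b (l 532320655) (a (l 532310927) (l 532317327))) (l 532330895)) (a (a (l 532302991) (l 532309135)) (l 532318607))) (a (b (l 532295823) (l 532285839)) (l 532302991)))))))))))) (b (a (l 2) (a (l 3) (l 3))) (a (l 2) (a (l 3) (a (l 3) (a (l 3) (a (l 3) (a (b (l 3) (b (l 3) (a (l 3) (b (a (l 3) (l 532204687)) (l 532190863))))) (a (b (l 3) (a (b (b (l 3) (l 532222863)) (l 532209807)) (b (b (a (b (l 3) (b (l 3) (l 532235407))) (b (a (l 3) (l 532247439)) (a (l 532240015)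 (l 532241551)))) (a (l 532230031) (a (l 532233359) (l 532235663)))) (l 532219279)))) (b (b (l 3) (b (l 532287119) (l 532273551))) (b (b (a (b (l 532256399) (l 532250255)) (l 532267663)) (a (a (l 532239759) (l 532245903)) (l 532255887))) (a (b (l 532233871) (l 532225167)) (l 532241807))))))))))))), by decide +kernel⟩

def k3_A00pm_102_s1 : ∃ t, chk3 f_A00pm_102_s1 t 2 162 9 = true :=
  ⟨(c (b (a (l 2) (a (l 3) (l 3))) (a (l 2) (a (l 3) (a (l 3) (a (l 3) (a (l 3) (a (b (l 3) (b (l 3) (a (l 3) (l 532135199)))) (a (b (l 3) (a (b (b (l 3) (l 532160655)) (l 532149391)) (b (b (a (b (l 3) (b (l 3) (l 532172175))) (b (a (l 3) (l 532183439)) (a (l 532176527) (b (l 532179087) (l 532177807))))) (a (l 532167567) (a (l 532170895) (l 532173199)))) (l 532158863)))) (b (b (l 3) (b (a (l 3) (l 532230287)) (l 532210063))) (b (b (a (b (l 532192655) (a (l 532183439) (l 532190607))) (l 532204943)) (a (a (b (l 532179343) (l 532175247)) (l 532183695)) (l 532193935))) (a (b (l 532172687) (l 532165007)) (l 532181391))))))))))))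 (b (a (l 2) (a (l 3) (l 3))) (a (l 2) (a (l 3) (a (l 3) (a (l 3) (a (l 3) (a (b (l 3) (b (l 3) (a (l 3) (l 532076175)))) (a (b (l 3) (a (b (b (l 3) (l 532099215)) (l 532089999)) (b (b (a (b (l 3) (b (l 3) (l 532109711))) (b (a (l 3) (l 532120207)) (a (l 532113807) (b (l 532116111) (l 532115343))))) (a (l 532105871) (a (l 532109199) (b (l 532112783) (l 532109711))))) (l 532098959)))) (b (b (l 3) (a (b (l 3) (l 532139407)) (l 532161167))) (b (b (a (b (l 532129935) (a (l 532120719) (l 532128143))) (l 532142735)) (a (a (b (l 532117135) (l 532113807)) (l 532121999)) (l 532132751))) (a (b (l 532112015) (l 532105871)) (l 532121743))))))))))))), by decide +kernel⟩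

def k4_A00pm_102_s1 : ∃ t, chk3 f_A00pm_102_s1 t 2 326 16 = true :=
  ⟨(b (a (l 2) (a (l 3) (a (l 3) (a (l 3) (a (a (l 3) (b (a (l 3) (b (l 3) (a (l 3) (l 532193423)))) (a (b (l 3) (a (l 3) (l 532149647))) (l 532172175)))) (a (b (a (b (l 532220047) (l 532209551)) (l 532235663)) (l 532204943)) (a (l 532246671) (l 532267551)))))))) (b (a (l 2) (a (l 3) (a (l 3) (a (l 3) (a (a (a (l 3) (b (l 3) (l 532098191))) (l 532139407)) (a (l 532185231) (a (l 532218255) (l 532240015)))))))) (b (a (l 2) (a (l 3) (a (l 3) (a (l 3) (a (a (a (l 3) (l 532087183)) (l 532123791)) (a (l 532170639) (l 532215183))))))) (b (a (l 2) (a (l 3) (a (l 3) (a (l 3) (a (l 532091279) (a (l 532163727) (l 532208527))))))) (b (a (l 2) (a (l 3) (a (l 3) (a (l 3) (a (l 532087439) (a (l 532160143) (l 532205199))))))) (a (l 2) (a (l 3) (a (l 3) (a (l 3) (a (l 532084879) (a (l 532157839) (l 532203151)))))))))))), by decide +kernel⟩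

def k5_A00pm_102_s1 : ∃ t, chk3 f_A00pm_102_s1 t 2 327 16 = true :=
  ⟨(c (a (l 2) (a (l 3) (a (l 3) (a (a (b (l 3) (a (l 3) (b (l 3) (a (l 3) (b (l 3) (l 531819919)))))) (b (a (l 3) (b (a (l 3) (b (a (l 3) (l 532030607)) (l 532012175))) (b (l 531986575) (l 531975311)))) (a (b (a (b (l 3) (a (l 3) (l 531884175))) (l 531913615)) (l 531874703)) (l 531948175)))) (a (b (a (l 532182415) (l 532100495)) (l 532034191)) (a (l 532133775) (l 532447519))))))) (a (l 2) (a (l 3) (a (l 3) (a (a (b (l 3) (a (l 3) (b (l 3) (a (l 3) (b (l 3) (l 531806863)))))) (b (a (l 3) (b (a (l 3) (l 531996703)) (l 531961999))) (a (b (a (b (l 3) (l 531860879)) (l 531896975)) (l 531860111)) (l 531931535)))) (a (b (a (l 532027023) (l 532078479)) (l 532015759)) (a (l 532112271) (l 532156703)))))))), by decide +kernel⟩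

def k6_A00pm_102_s1 : ∃ t, chk3 f_A00pm_102_s1 t 2 163 17 = true :=
  ⟨(b (b (a (l 2) (a (l 3) (a (l 3) (a (l 3) (a (a (l 3) (b (a (l 3) (b (l 3) (a (l 3) (l 532137103)))) (a (b (l 3) (l 532091023)) (l 532117903)))) (a (b (a (l 532157327) (l 532177807)) (l 532149903)) (a (l 532189583) (l 532478863)))))))) (b (a (l 2) (a (l 3) (a (l 3) (a (l 3) (a (a (a (l 3) (b (l 3) (l 532049039))) (l 532088463)) (a (l 532133007) (a (l 532164751) (l 532185999)))))))) (b (a (l 2) (a (l 3) (a (l 3) (a (l 3) (a (a (a (l 3) (l 532039567)) (l 532075151)) (a (l 532120463) (l 532163471))))))) (b (a (l 2) (a (l 3) (a (l 3) (a (l 3) (a (l 532044431) (a (l 532114319) (l 532157839))))))) (b (a (l 2) (a (l 3) (a (l 3) (a (l 3) (a (l 532041103) (a (l 532111247) (l 532155023))))))) (a (l 2) (a (l 3) (a (l 3) (a (l 3) (a (l 532039055) (a (l 532109199) (l 532152975)))))))))))) (c (a (l 2) (a (l 3) (a (l 3) (a (a (b (l 3) (a (l 3) (b (l 3) (a (l 3) (b (l 3) (l 531793807)))))) (b (a (l 3) (b (a (l 3) (l 531976335)) (l 531942799)))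 (a (b (a (b (l 3) (l 531845519)) (l 531880591)) (l 531845775)) (l 531914895)))) (a (b (l 532031375) (l 531997327)) (a (l 532091023) (l 532134431))))))) (a (l 2) (a (l 3) (a (l 3) (a (a (b (l 3) (a (l 3) (b (l 3) (a (l 3) (l 531785871))))) (b (a (l 3) (b (a (l 3) (l 531955599)) (l 531923855))) (a (b (a (l 531835023) (l 531864207)) (l 531831439)) (l 531898511)))) (a (b (l 532010127) (l 531979151)) (a (l 532069775) (l 532112159))))))))), by decide +kernel⟩

def k7_A00pm_102_s1 : ∃ t, chk3 f_A00pm_102_s1 t 2 163 18 = true :=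
  ⟨(b (b (a (l 2) (a (l 3) (a (l 3) (a (l 3) (a (a (l 3) (b (a (l 3) (b (l 3) (l 532076175))) (a (b (l 3) (l 532039055)) (l 532064399)))) (a (b (l 532110479) (l 532095631)) (a (l 532132751) (l 532153487)))))))) (b (a (l 2) (a (l 3) (a (l 3) (a (l 3) (a (a (a (l 3) (l 532004383)) (l 532038287)) (a (l 532081039) (a (l 532112015) (l 532132751)))))))) (b (a (l 2) (a (l 3) (a (l 3) (a (l 3) (a (l 532003983) (a (l 532070799) (l 532112271))))))) (b (a (l 2) (a (l 3) (a (l 3) (a (l 3) (a (l 531998351) (a (l 532065679) (l 532107407))))))) (c (a (l 2) (a (l 3) (a (l 3) (a (l 3) (a (l 532005775) (a (l 532074127) (l 532116623))))))) (a (l 2) (a (l 3) (a (l 3) (a (l 3) (a (l 531983247) (a (l 532050319) (l 532092047)))))))))))) (c (a (l 2) (a (l 3) (a (l 3) (a (a (b (l 3) (a (l 3) (b (l 3) (a (l 3) (l 531772559))))) (b (a (l 3) (b (a (l 3) (l 531934863)) (l 531905167))) (a (b (l 531833487) (l 531817103)) (l 531882127)))) (a (b (l 531989135) (l 531960975)) (a (l 532048783) (l 532630159))))))) (a (l 2) (a (l 3)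 (a (l 3) (a (a (b (l 3) (a (l 3) (b (l 3) (a (l 3) (l 531759503))))) (b (a (l 3) (b (a (l 3) (l 531914383)) (l 531886479))) (b (l 531845007) (l 531830927)))) (a (b (l 531968143) (l 531942799)) (a (l 532027791) (l 532608143))))))))), by decide +kernel⟩

def k8_A00pm_102_s1 : ∃ t, chk3 f_A00pm_102_s1 t 2 163 19 = true :=
  ⟨(b (b (a (l 2) (a (l 3) (a (l 3) (a (l 3) (a (a (l 3) (b (a (l 3) (b (l 3) (l 532021135))) (a (l 531990559) (l 532011663)))) (a (b (l 532053903) (l 532041615)) (a (l 532076943) (l 532097423)))))))) (b (a (l 2) (a (l 3) (a (l 3) (a (l 3) (a (a (a (l 3) (l 531956111)) (l 531988623)) (a (l 532030095) (a (l 532059791) (l 532080271)))))))) (c (a (l 2) (a (l 3) (a (l 3) (a (l 3) (a (l 531965583) (a (l 532030863) (l 532071567))))))) (a (l 2) (a (l 3) (a (l 3) (a (l 3) (a (l 531942799) (a (l 532006799) (l 532046735)))))))))) (a (l 2) (a (l 3) (a (l 3) (a (a (b (l 3) (a (l 3) (b (l 3) (l 531725711)))) (b (a (l 3) (b (l 531904799) (l 531858831))) (a (l 531854623) (l 531841679)))) (a (b (l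 531936911) (l 531915919)) (a (l 531996559) (l 532303903)))))))), by decide +kernel⟩

def k9_A00pm_102_s1 : ∃ t, chk3 f_A00pm_102_s1 t 2 162 10 = true :=
  ⟨(c (b (a (l 2) (a (l 3) (l 3))) (a (l 2) (a (l 3) (a (l 3) (a (l 3) (a (l 3) (a (b (l 3) (b (l 3) (a (l 3) (l 532017551)))) (b (a (l 3) (b (l 3) (a (b (l 3) (l 532076943)) (l 532098959)))) (a (a (b (b (l 3) (l 532038287)) (l 532030863)) (b (b (a (b (l 3) (b (l 3) (l 532048015))) (b (a (l 3) (l 532057743)) (a (l 532051855) (b (l 532053903) (l 532053391))))) (a (l 532044943) (a (l 532048271) (b (l 532051599) (l 532049039))))) (l 532039823))) (b (b (a (b (l 532067983) (a (l 532059023) (l 532066703))) (l 532081551)) (a (a (b (l 532055951) (l 532053135)) (l 532061327)) (l 532072335))) (a (b (l 532052367) (l 532047247)) (l 532062863)))))))))))) (b (a (l 2) (a (l 3) (l 3))) (a (l 2) (a (l 3) (a (l 3) (a (l 3) (a (l 3) (a (b (l 3) (b (l 3) (a (l 3) (l 531959695)))) (b (a (l 3) (b (l 3) (a (b (l 3) (l 532015247)) (l 532037775)))) (a (a (b (b (l 3) (l 531978383))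 (l 531972751)) (b (b (a (b (l 3) (b (l 3) (l 531987087))) (b (a (l 3) (l 531996047)) (a (b (l 531991183) (l 531990159)) (b (l 531992463) (l 531992463))))) (a (l 531984783) (a (l 531987855) (b (l 531990927) (l 531988879))))) (l 531981455))) (b (b (a (b (l 532006543) (b (l 532002959) (l 532001167))) (l 532088207)) (a (a (b (l 531995279) (l 531993231)) (l 532001167)) (l 532012687))) (a (b (l 531993231) (l 531989391)) (l 532004751))))))))))))), by decide +kernel⟩

def k10_A00pm_102_s1 : ∃ t, chk3 f_A00pm_102_s1 t 2 162 11 = true :=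
  ⟨(c (b (a (l 2) (a (l 3) (l 3))) (a (l 2) (a (l 3) (a (l 3) (a (l 3) (a (l 3) (a (b (l 3) (b (l 3) (a (l 3) (l 531902607)))) (a (b (l 3) (a (b (b (l 3) (l 531919247)) (l 531915407)) (b (b (a (b (l 3) (b (l 3) (l 531926927))) (b (a (l 3) (l 531935375)) (a (l 531930255) (b (l 531932047) (l 531932047))))) (a (l 531925391) (a (l 531928463) (b (l 531931023) (l 531929743))))) (l 531923855)))) (b (b (l 3) (a (b (l 3) (l 531954575)) (l 531977359))) (b (b (a (b (l 531946127) (a (l 532004639) (l 531945871))) (l 532028559)) (a (a (b (l 531935631) (l 531933839)) (l 531941775)) (l 531953551))) (a (b (l 531934863) (l 531932303)) (l 531947151)))))))))))) (b (a (l 2) (a (l 3) (l 3))) (a (l 2) (a (l 3) (a (l 3) (a (l 3) (a (l 3) (a (b (l 3) (b (l 3) (a (l 3) (l 531846543)))) (a (b (l 3) (a (b (b (l 3) (l 531860623)) (l 531858831)) (b (b (a (b (l 3) (b (l 3) (l 531867535))) (b (a (l 3) (l 531875215)) (a (l 531870863) (b (l 531872143) (l 531872655))))) (a (l 531866767) (a (l 531869839) (l 531871631)))) (l 531867023))))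 (b (b (l 3) (a (b (l 3) (l 531894415)) (l 531917967))) (b (b (a (b (l 531886479) (a (l 531878031) (l 531886479))) (l 531902607)) (a (a (b (l 531876495) (l 531875471)) (l 531883407)) (l 531895695))) (a (b (l 531877519) (l 531875983)) (l 531890575))))))))))))), by decide +kernel⟩

def k11_A00pm_102_s1 : ∃ t, chk3 f_A00pm_102_s1 t 2 163 10 = true :=
  ⟨(c (b (b (a (l 2) (a (l 3) (a (l 3) (a (l 3) (a (a (l 3) (b (a (l 3) (b (l 3) (l 531967119))) (l 531949455))) (a (l 531993743) (a (l 532021647) (l 532041871)))))))) (a (l 2) (a (l 3) (a (l 3) (a (l 3) (a (a (b (a (l 3) (l 531908495)) (l 531887503)) (l 531935119)) (a (l 531975567) (a (l 532004751) (l 532024719))))))))) (a (l 2) (a (l 3) (a (l 3) (a (a (b (l 3) (a (l 3) (b (l 3) (l 531700623)))) (b (a (l 3) (b (l 531831951) (l 531822223))) (l 531918479))) (a (b (l 531895695) (l 531880591)) (a (l 531955087) (l 532260895)))))))) (b (a (l 2) (a (l 3) (a (l 3) (a (l 3) (a (b (a (l 3) (b (a (l 3) (l 531915663)) (l 531898511))) (a (b (l 531850895) (l 531843471))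 (l 531888271))) (a (b (l 531939983) (l 531927183)) (a (b (l 531967119) (l 531955343)) (b (l 531986831) (l 531974543))))))))) (a (l 2) (a (l 3) (a (l 3) (a (a (b (l 3) (a (l 3) (b (l 3) (l 531676303)))) (b (a (l 3) (l 531789967)) (l 531754127))) (a (b (l 531855247) (l 531845519)) (a (l 531914383) (l 532489615))))))))), by decide +kernel⟩

def k12_A00pm_102_s1 : ∃ t, chk3 f_A00pm_102_s1 t 2 163 11 = true :=
  ⟨(c (b (a (l 2) (a (l 3) (a (l 3) (a (l 3) (a (b (a (l 3) (b (a (l 3) (l 531862159)) (l 531848079))) (b (l 531824015) (l 531819919))) (a (b (l 531886991) (l 531879311)) (a (b (l 531913359) (l 531906191)) (b (l 531932815) (l 531925135))))))))) (a (l 2) (a (l 3) (a (l 3) (a (a (b (l 3) (a (l 3) (b (l 3) (l 531651983)))) (b (a (l 3) (l 531753103)) (l 531724431))) (a (b (l 531815055) (l 531810959)) (a (l 531874191) (l 532175903)))))))) (b (a (l 2) (a (l 3) (a (l 3) (a (l 3) (a (b (a (l 3) (b (a (l 3) (l 531809679)) (l 531798415))) (b (l 531777679) (l 531776399))) (a (b (l 531834767) (l 531831951))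 (a (l 532126495) (b (l 531879567) (l 531876495))))))))) (a (l 2) (a (l 3) (a (l 3) (a (a (b (l 3) (a (l 3) (l 531628943))) (b (a (l 3) (l 531716751)) (l 531694991))) (a (b (l 531775631) (l 531776655)) (a (l 531834511) (l 531597343))))))))), by decide +kernel⟩

def k13_A00pm_102_s1 : ∃ t, chk3 f_A00pm_102_s1 t 2 80 3 = true :=
  ⟨(a (l 3) (l 3)), by decide +kernel⟩

def k14_A00pm_102_s1 : ∃ t, chk3 f_A00pm_102_s1 t 2 162 12 = true :=
  ⟨(c (b (a (l 2) (a (l 3) (l 3))) (a (l 2) (a (l 3) (a (l 3) (a (l 3) (a (l 3) (a (b (l 3) (b (l 3) (l 531782799))) (a (b (l 3) (a (b (b (l 3) (l 531803023)) (l 531803023)) (b (b (a (b (l 3) (b (l 3) (l 531809167))) (b (a (l 3) (l 531816079)) (a (l 531811983) (b (l 531813263) (l 531814031))))) (a (l 531809167) (a (l 531811983) (l 531813775)))) (l 531810959)))) (b (b (l 3) (b (a (l 3) (l 531864207)) (l 531844751))) (b (b (a (b (l 531827599) (a (l 531819407) (l 531828367))) (l 531844751)) (a (a (b (l 531818383) (l 531818127)) (l 531825807)) (l 531838351))) (a (b (l 531820943)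 (l 531820431)) (l 531835023)))))))))))) (b (a (l 2) (a (l 3) (l 3))) (a (l 2) (a (l 3) (a (l 3) (a (l 3) (a (l 3) (a (b (l 3) (b (l 3) (l 531728271))) (a (b (l 3) (b (a (b (l 3) (l 531746447)) (b (a (b (l 3) (b (l 3) (l 531751567))) (b (a (l 3) (l 531757711)) (a (l 531754127) (b (l 531755151) (l 531756175))))) (a (l 531752079) (a (l 531754895) (l 531756943))))) (a (l 531747983) (l 531755919)))) (b (b (l 3) (b (l 531796623) (l 531786639))) (b (b (a (b (l 531769743) (a (l 531761551) (l 531770767))) (l 531787663)) (a (a (b (l 531761295) (l 531761295)) (l 531768975)) (l 531781775))) (a (b (l 531765135) (l 531765647)) (l 531779983))))))))))))), by decide +kernel⟩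

def k15_A00pm_102_s1 : ∃ t, chk3 f_A00pm_102_s1 t 2 162 13 = true :=
  ⟨(c (b (a (l 2) (a (l 3) (l 3))) (a (l 2) (a (l 3) (a (l 3) (a (l 3) (a (l 3) (a (b (l 3) (b (l 3) (l 531674767))) (a (b (l 3) (b (a (b (l 3) (l 531690383)) (b (a (b (l 3) (b (l 3) (l 531694735))) (b (a (l 3) (l 531700111)) (a (l 531697295) (l 531764367)))) (a (l 531696015) (a (l 531698831) (l 531700623))))) (a (l 531693967) (l 531701391)))) (b (b (l 3) (b (l 531739023) (l 531729551))) (b (b (a (b (l 531712655) (a (l 531704719) (l 531714191))) (l 531731343)) (a (a (l 531772303) (l 531713167)) (l 531726223))) (a (b (l 531710095) (l 531711887)) (l 531725967)))))))))))) (b (a (l 2) (a (l 3) (l 3))) (a (l 2) (a (l 3) (a (l 3) (a (l 3) (a (l 3) (a (b (l 3) (b (l 3) (l 531622031))) (a (b (l 3) (b (a (b (l 3) (l 531635343)) (b (a (b (l 3) (b (l 3) (l 531638927))) (b (a (l 3) (l 531643535)) (a (l 531641231) (l 531641231)))) (a (l 531640975) (a (l 531643535) (l 531645327))))) (a (l 531640719) (l 531647887)))) (b (b (l 3) (l 531677839))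 (b (b (a (b (l 531656335) (l 531519887)) (l 531676047)) (a (a (l 531515791) (l 531658127)) (l 531671695))) (a (l 531590543) (l 531672719))))))))))))), by decide +kernel⟩

def k16_A00pm_102_s1 : ∃ t, chk3 f_A00pm_102_s1 t 2 163 6 = true :=
  ⟨(a (l 2) (a (l 3) (a (l 3) (a (b (l 3) (a (b (l 3) (b (l 3) (a (l 3) (l 531570575)))) (b (a (l 3) (l 531426703)) (l 531355023)))) (b (a (b (a (l 3) (b (a (l 3) (l 531513375)) (l 531409039))) (b (a (l 531447439) (l 531681935)) (l 531401871))) (a (b (b (l 531705231) (l 531709327)) (l 531717007)) (a (b (l 531528991) (l 531740303)) (b (a (l 531609231) (l 531755663)) (l 531757455))))) (a (b (l 531411087) (l 531693199)) (a (l 531737231) (b (l 531758223) (l 531771279))))))))), by decide +kernel⟩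

def k17_A00pm_102_s1 : ∃ t, chk3 f_A00pm_102_s1 t 2 81 7 = true :=
  ⟨(a (l 2) (a (l 3) (a (l 3) (b (a (l 3) (a (l 3) (a (a (l 3) (b (l 3) (b (l 3) (b (l 3) (l 531485839))))) (b (l 3) (a (b (l 3) (a (b (b (l 3) (l 531481231)) (l 531495823)) (b (b (c (a (b (l 3) (b (l 3) (l 531550863))) (b (a (l 3) (l 531553935)) (c (l 531583887) (l 531513743)))) (a (b (l 3) (b (l 3) (l 531407503))) (a (b (l 3) (l 531408271)) (b (l 531408015) (b (l 531406479) (l 531411599)))))) (a (l 531486095) (c (c (l 531606671) (l 531524751)) (c (l 531588495) (l 531382159))))) (a (l 531500687) (l 531504015))))) (b (b (l 3) (c (l 531592847) (l 531714959))) (b (b (b (l 531506575) (a (a (b (l 531487887) (a (l 531486607) (l 531490703))) (l 531497615)) (l 531513487))) (b (a (a (c (l 531561871) (l 531419023)) (l 531498895)) (l 531512975)) (a (c (l 531568271) (l 531427215)) (l 531514511)))) (a (b (c (l 531573135) (l 531200287)) (l 531514255)) (b (l 531518607) (l 531525775)))))))))) (a (b (l 3) (b (a (l 3) (l 531479071)) (c (l 531443343)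 (l 531463055)))) (b (a (b (a (l 3) (a (b (l 3) (l 531485327)) (l 531488543))) (l 531568415)) (a (b (l 531509391) (l 531541903)) (a (b (l 531529359) (l 531560847)) (b (a (l 531539855) (l 531548815)) (l 531576207))))) (a (l 531547679) (a (l 531588239) (b (l 531593359) (l 531621775)))))))))), by decide +kernel⟩

def k18_A00pm_102_s1 : ∃ t, chk3 f_A00pm_102_s1 t 4 41 1 = true :=
  ⟨(l 2), by decide +kernel⟩

def k19_A00pm_102_s1 : ∃ t, chk3 f_A00pm_102_s1 t 20 41 4 = true :=
  ⟨(b (l 3) (a (l 2) (c (b (b (l 3) (a (l 2) (a (b (b (l 3) (b (l 3) (l 532307599))) (b (b (l 532556175) (l 532785807)) (b (l 532995471) (l 533183631)))) (b (b (l 3) (b (l 531731599) (l 531996559))) (b (b (l 532245647) (l 532478351)) (b (l 532693647) (l 532891023))))))) (b (a (l 2) (a (b (b (b (b (l 533308303) (l 2)) (l 2)) (l 2)) (l 2)) (b (b (b (l 533065503) (l 533196431)) (b (l 533282191) (l 533342863))) (b (a (l 16774984) (l 16774736)) (b (l 16774544) (l 16774336)))))) (a (l 2) (a (l 2) (a (l 16776120) (l 16775848)))))) (b (b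 (l 3) (a (l 2) (b (b (l 3) (b (l 532047503) (l 532283279))) (b (b (l 532504207) (l 532709519)) (b (l 532898447) (l 533070223)))))) (b (a (l 2) (b (b (b (b (l 533185423) (l 533253775)) (l 533329295)) (b (l 533665679) (l 533712527))) (b (b (l 533478031) (l 533504399)) (b (l 533525135) (l 533543055))))) (a (l 2) (a (l 2) (a (l 16776088) (l 16773208))))))))), by decide +kernel⟩

def k20_A00pm_102_s1 : ∃ t, chk3 f_A00pm_102_s1 t 20 41 5 = true :=
  ⟨(b (l 3) (a (l 2) (c (b (b (l 3) (a (l 2) (b (b (l 3) (b (l 532202383) (l 532409487))) (b (b (l 532603535) (l 532784015)) (b (l 532950671) (l 533101967)))))) (b (a (l 2) (b (b (b (b (l 533203599) (l 533264015)) (l 533330831)) (b (l 533391247) (l 533432719))) (b (b (l 533463183) (l 533486735)) (b (l 533505679) (l 533521807))))) (a (l 2) (a (l 2) (a (l 16773440) (l 16773184)))))) (b (a (b (l 3) (l 2)) (b (l 3) (b (b (l 3) (l 532443535)) (b (l 533045023) (b (l 532999823) (l 533132175)))))) (b (a (l 2) (b (b (b (l 533248911) (l 533332879)) (b (l 533385871) (l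 533422735))) (b (b (l 533449871) (l 533470863)) (b (l 533487759) (l 533502351))))) (a (l 2) (a (l 2) (l 16775912)))))))), by decide +kernel⟩

def k21_A00pm_102_s1 : ∃ t, chk3 f_A00pm_102_s1 t 21 82 2 = true :=
  ⟨(b (l 3) (a (l 3) (b (l 3) (a (a (l 3) (a (l 3) (b (l 3) (b (l 3) (l 530523791))))) (b (a (l 3) (b (l 3) (a (l 530451999) (l 530515599)))) (c (b (l 530496655) (l 530492815)) (l 530635919))))))), by decide +kernel⟩

def k22_A00pm_102_s1 : ∃ t, chk3 f_A00pm_102_s1 t 42 166 8 = true :=
  ⟨(b (a (a (l 3) (b (l 3) (b (l 3) (b (b (l 3) (l 530101647)) (l 530049167))))) (b (a (l 3) (b (l 3) (l 529840415))) (a (b (c (a (l 3) (b (l 3) (a (b (l 3) (b (a (l 3) (a (b (l 3) (l 529657743)) (a (b (l 529631119) (l 529649551)) (b (l 529632143) (l 529639311))))) (c (l 529927055) (l 529722511)))) (b (c (l 529627535) (l 529691279)) (b (c (a (b (l 529614991) (l 529621903)) (l 529642383)) (l 529694351)) (a (a (l 529674383) (l 529678223)) (l 529689231))))))) (a (l 3) (b (l 3) (a (b (l 3) (a (l 529813903) (a (l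 530043791) (l 530042767)))) (b (l 529787535) (c (l 529767823) (l 529832591))))))) (a (c (b (l 530132111) (l 530052495)) (l 530082447)) (b (b (a (c (l 530087055) (l 529878927)) (c (a (l 529732495) (l 529736847)) (l 529972623))) (a (l 529899151) (l 529871503))) (a (l 530049167) (l 529994639))))) (b (b (l 529837455) (c (b (l 529775759) (a (b (l 529729935) (l 529739151)) (l 529823631))) (b (l 529897871) (l 529910927)))) (b (a (b (b (l 529821071) (l 529309583)) (l 529890703)) (l 529927311)) (a (l 529989519) (l 530029199))))))) (b (a (b (c (a (b (l 530538127) (l 531102351)) (l 530009119)) (b (l 530001295) (l 531081615))) (b (c (l 531238031) (l 531344783)) (l 531550351))) (a (b (a (l 530024335) (a (l 529931663) (l 530136351))) (a (l 531079711) (a (l 530980895) (l 530918175)))) (b (a (l 530076703) (l 530055055)) (a (b (l 530722191) (l 530963855)) (l 530520463))))) (a (b (b (l 531795855) (l 532027791)) (b (l 532245903) (l 532449167))) (a (b (a (l 531558431) (a (l 531455263) (l 531389471))) (b (a (l 16774512)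 (l 16774128)) (l 532019343))) (b (a (l 531308831) (l 531230495)) (a (l 531731999) (l 531644959))))))), by decide +kernel⟩

def k23_A00pm_102_s1 : ∃ t, chk3 f_A00pm_102_s1 t 42 167 8 = true :=
  ⟨(a (b (b (b (b (b (l 532589455) (l 532676495)) (l 532783503)) (b (l 532892815) (l 532976015))) (b (b (l 533041039) (l 533093519)) (b (l 533136271) (l 533172879)))) (b (a (l 16773248) (l 16772624)) (l 16777280))) (a (b (b (b (b (l 532207503) (l 532365455)) (b (l 16773528) (l 16773320))) (b (l 16773008) (l 16772576))) (b (l 16771912) (l 16770984))) (b (b (b (b (l 531971215) (l 16772968)) (a (l 16772864) (l 16772488))) (b (l 16772264) (l 16771840))) (b (l 16771184) (l 16770232))))), by decide +kernel⟩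

def k24_A00pm_102_s1 : ∃ t, chk3 f_A00pm_102_s1 t 42 83 9 = true :=
  ⟨(b (b (a (b (l 3) (b (l 3) (a (l 3) (l 530234255)))) (b (a (l 3) (b (l 3) (l 530082191))) (b (a (a (l 3) (b (l 3) (a (b (l 3) (l 529971855)) (b (l 529983119) (l 529996431))))) (b (l 530082959) (b (l 530084495) (l 530098063)))) (a (a (l 530336655) (a (l 530260623) (b (b (l 530033807) (l 530141839)) (l 530329487)))) (b (b (l 530269583) (l 530164367)) (a (l 530300047) (l 530316431))))))) (b (a (b (b (l 530203535) (l 531259791)) (b (l 531500175) (l 531729551))) (a (a (b (l 530569871) (l 531303311)) (b (l 530188687) (l 531177247))) (b (l 530218527) (a (l 531080991) (l 531025951))))) (a (b (b (l 531947407) (l 532153231)) (b (l 532346767) (l 532527503))) (a (b (a (l 531729295) (l 531595551)) (a (l 532106015) (l 531975967))) (b (l 531454239) (l 531827231)))))) (a (b (b (b (b (l 532692623) (l 532824975)) (b (l 532922511) (l 532996495))) (b (b (l 533054863) (l 533101711)) (b (l 533140111) (l 533173391)))) (b (a (l 16773240) (l 16772624))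 (l 16777264))) (a (b (b (b (b (l 532297615) (l 16773784)) (l 532596623)) (b (l 16773040) (l 16772600))) (b (l 16771928) (l 16770992))) (b (b (b (a (l 16773328) (l 16772968)) (l 16775368)) (b (l 16772320) (l 16771888))) (b (l 16771216) (l 16770256)))))), by decide +kernel⟩

def k25_A00pm_102_s1 : ∃ t, chk3 f_A00pm_102_s1 t 43 166 4 = true :=
  ⟨(b (b (b (a (a (c (c (l 529964831) (l 530072463)) (l 530234255)) (l 530278031)) (l 530492303)) (a (a (a (l 530083983) (l 530163343)) (l 530278287)) (l 530496399))) (a (b (a (b (l 530123919) (c (l 530012815) (l 530243215))) (c (l 530179727) (l 530391183))) (a (c (b (l 530042511) (l 530118031)) (b (l 530273935) (l 530389135))) (c (l 530227087) (l 530471567)))) (b (b (l 530501775) (l 530507919)) (b (l 530535823) (l 530602127))))) (b (a (b (a (c (b (l 530248079) (l 530443151)) (l 530367631)) (c (l 530440847) (l 530443663))) (a (a (l 530079119) (l 530073487)) (b (l 530810511) (l 531513999)))) (b (a (c (l 530563471) (l 530545551)) (b (l 530761615) (l 530861967)))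 (a (a (l 16772336) (l 16771944)) (c (l 16771264) (l 16771472))))) (a (b (a (a (l 531278111) (l 531247903)) (b (l 16772520) (l 531315087))) (a (c (l 531551775) (l 531705375)) (a (l 531575327) (l 16771784)))) (b (a (b (l 16771752) (l 531318415)) (b (l 531757711) (l 532423567))) (b (a (l 531466127) (l 531746591)) (a (l 16771120) (l 16770360))))))), by decide +kernel⟩

def k26_A00pm_102_s1 : ∃ t, chk3 f_A00pm_102_s1 t 43 167 4 = true :=
  ⟨(a (b (a (b (b (b (l 531887247) (l 16772272)) (a (l 16772168) (l 16771800))) (b (l 16771576) (l 16771152))) (b (b (a (l 16771800) (l 16771424)) (a (l 16771424) (l 16771056))) (b (l 16770840) (l 16770432)))) (b (b (c (b (l 16770440) (b (l 16770280) (b (b (a (l 16770576) (l 16769832)) (a (a (l 16770720) (b (b (b (l 16770384) (l 16770368)) (l 16770360)) (l 16770352))) (a (b (b (b (l 16770008) (l 16769960)) (l 16769912)) (l 16769904)) (l 16769504)))) (a (l 16770496) (l 16769632))))) (b (l 16770512) (b (l 16770344) (b (b (a (l 16770624) (l 16769904)) (a (a (l 16770776)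 (b (b (b (l 16770440) (l 16770432)) (l 16770424)) (l 16770408))) (a (b (b (b (l 16770080) (l 16770032)) (l 16769984)) (l 16769976)) (l 16769584)))) (a (l 16770544) (l 16769704)))))) (a (b (l 16770384) (l 16770152)) (b (l 16769544) (l 16769320)))) (a (l 16769544) (l 16768728)))) (b (a (b (b (a (l 16771040) (l 16770664)) (a (l 16770680) (l 16770296))) (b (l 16770096) (b (l 16769792) (l 16769592)))) (b (b (a (l 16770288) (l 16769904)) (a (l 16769920) (l 16769544))) (b (l 16769344) (b (l 16769048) (l 16768840))))) (a (b (b (b (l 16769384) (b (b (l 16769256) (a (l 16769384) (l 16768984))) (b (b (a (l 16769264) (l 16768784)) (l 16768816)) (l 16768688)))) (l 16768456)) (l 16767776)) (b (b (b (l 16768640) (b (b (a (l 16768696) (l 16768288)) (b (l 16771000) (l 16768240))) (b (b (l 16768024) (l 16767792)) (l 16767664)))) (b (l 16767552) (l 16767344))) (l 16766784))))), by decide +kernel⟩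

def k27_A00pm_102_s1 : ∃ t, chk3 f_A00pm_102_s1 t 42 83 10 = true :=
  ⟨(b (b (a (b (l 3) (b (l 3) (l 530921615))) (b (a (l 3) (b (l 3) (l 530344591))) (b (a (a (l 3) (b (l 3) (a (b (l 3) (l 530259343)) (l 530272911)))) (b (l 530356367) (l 530376591))) (a (a (l 530660239) (a (l 530588047) (b (l 530104719) (l 530647439)))) (b (a (l 530166671) (l 530482575)) (l 530620815)))))) (a (b (b (b (l 531266191) (l 531486863)) (l 531799327)) (b (l 532182815) (b (l 532443535) (l 532602767)))) (b (a (a (b (l 531101583) (l 531510927)) (b (l 530996623) (l 531398543))) (b (l 530901535) (l 531277855))) (b (a (l 532085023) (l 531634719)) (a (l 532417311) (l 531963167)))))) (a (b (b (b (b (l 532748431) (l 532865679)) (b (l 532951695) (l 533017743))) (b (a (l 16774328) (l 16773744)) (b (l 533145487) (l 533175183)))) (b (b (l 16775776) (l 16775328)) (l 16772008))) (a (b (b (b (b (l 532384911) (l 16773840)) (l 532649359)) (b (l 16773080) (l 16772632))) (b (l 16771952) (l 16771000))) (b (b (b (a (l 16773408) (l 16773056))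 (l 16772816)) (b (l 16772384) (l 16771936))) (b (l 16771256) (l 16770288)))))), by decide +kernel⟩

def k28_A00pm_102_s1 : ∃ t, chk3 f_A00pm_102_s1 t 42 83 11 = true :=
  ⟨(b (b (a (b (l 3) (b (l 3) (l 531209359))) (b (a (l 3) (b (l 3) (l 530661007))) (b (a (a (l 3) (b (l 3) (a (l 530333327) (l 530620303)))) (b (l 530680207) (l 530703759))) (a (a (l 530966415) (a (l 530898063) (l 530426399))) (b (l 530256271) (l 530921871)))))) (a (b (b (l 531609743) (l 531978383)) (b (l 532313743) (l 532605983))) (b (a (b (l 531297823) (l 531648543)) (b (l 531171471) (l 531500431))) (a (b (l 531970335) (l 532260639)) (b (l 531812495) (l 532093471)))))) (a (b (b (b (b (l 532802959) (l 532905359)) (l 533012367)) (b (a (l 16774336) (l 16773760)) (b (l 533151887) (l 533178511)))) (a (l 16775376) (l 16774784))) (a (b (b (b (l 532527647) (l 532701327)) (b (l 16773112) (l 16772664))) (b (l 16771968) (l 16771016))) (b (b (b (a (l 16773480) (l 16773144)) (l 16772888)) (b (l 16772440) (l 16771984))) (b (l 16771296) (l 16770320)))))),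 by decide +kernel⟩

def k29_A00pm_102_s1 : ∃ t, chk3 f_A00pm_102_s1 t 43 166 5 = true :=
  ⟨(b (b (a (b (a (a (l 3) (b (l 3) (l 530660239))) (l 530751887)) (a (c (l 530498703) (l 531322511)) (b (a (l 530735503) (l 530798223)) (l 530779279)))) (b (l 530928271) (b (l 530945423) (l 530959247)))) (a (b (b (a (l 530661775) (l 530793615)) (a (l 530677647) (l 530810255))) (a (b (l 530727823) (l 530833551)) (a (l 530319647) (l 530374943)))) (c (b (b (l 530591119) (l 530875791)) (b (l 530906767) (l 530697871))) (b (b (l 531086223) (l 531104911)) (b (l 531136143) (l 531459983)))))) (b (a (b (a (b (l 530965391) (a (l 16774608) (l 16774232))) (b (l 531836303) (l 532222095))) (a (a (l 531342367) (l 531332639)) (a (l 16773424) (l 16773056)))) (b (b (c (l 531582863) (l 531800719)) (a (l 532016015) (l 531820687))) (a (b (l 531853711) (l 531697039)) (b (l 531642511) (l 531738767))))) (a (b (a (a (l 531652127) (l 531623967)) (a (l 531607327) (l 531599647))) (a (a (l 531944735) (l 16772808)) (a (l 16772448) (l 16772088))))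 (b (a (b (l 531811983) (l 531659663)) (b (l 531568671) (l 532207391))) (a (a (l 16771728) (l 16771360)) (a (l 16771000) (l 16770632))))))), by decide +kernel⟩

def k30_A00pm_102_s1 : ∃ t, chk3 f_A00pm_102_s1 t 43 167 5 = true :=
  ⟨(a (b (a (b (b (a (l 16772752) (l 16772400)) (a (l 16772336) (l 16771992))) (b (l 16771736) (l 16771288))) (b (b (a (l 16772048) (l 16771688)) (a (l 16771640) (l 16771288))) (b (l 16771040) (l 16770600)))) (b (b (c (b (l 16770576) (b (l 16770408) (b (b (a (l 16770680) (l 16769976)) (a (a (l 16770824) (b (b (b (l 16770496) (l 16770488)) (l 16770480)) (l 16770472))) (a (b (b (b (l 16770144) (l 16770096)) (l 16770048)) (l 16770040)) (l 16769664)))) (a (l 16770600) (l 16769776))))) (b (l 16770640) (b (l 16770472) (b (b (a (l 16770736) (l 16770040)) (a (b (b (b (l 16770720) (l 16770712)) (l 16770704)) (l 16770696)) (a (b (b (b (l 16770208) (l 16770168)) (l 16770120)) (l 16770112)) (l 16769736)))) (a (l 16770656) (l 16769848)))))) (a (b (l 16770488) (l 16770248)) (l 16769568)))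 (a (l 16769632) (l 16768848)))) (b (a (b (b (a (l 16771328) (l 16770960)) (a (l 16770928) (l 16770560))) (b (l 16770320) (b (l 16770000) (l 16769784)))) (b (b (a (l 16770600) (l 16770224)) (a (l 16770192) (l 16769824))) (b (l 16769592) (b (l 16769272) (l 16769056))))) (b (a (b (b (l 16769560) (b (b (l 16769424) (b (l 16769384) (l 16769328))) (b (b (a (l 16769424) (l 16768968)) (l 16768992)) (l 16768880)))) (l 16768632)) (b (b (l 16768840) (a (b (b (l 16768880) (l 16768744)) (l 16768360)) (b (b (l 16768480) (l 16768264)) (l 16767864)))) (l 16767656))) (l 16767456)))), by decide +kernel⟩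

def k31_A00pm_102_s1 : ∃ t, chk3 f_A00pm_102_s1 t 20 41 3 = true :=
  ⟨(c (c (b (l 3) (a (l 2) (b (a (b (l 3) (l 2)) (b (l 3) (b (b (l 3) (l 532566671)) (b (l 532858511) (l 533641503))))) (a (l 2) (b (b (b (b (l 533262223) (l 533335183)) (b (l 533381775) (l 533414031))) (b (b (l 533437839) (l 533456527)) (b (l 533471375) (l 533484687)))) (a (l 2) (l 16775896))))))) (b (l 3) (a (l 2) (b (a (b (l 3) (l 2)) (b (l 3) (b (b (l 3) (l 532681359)) (b (l 532930191) (l 533139999))))) (b (a (l 2) (b (b (b (l 533275535) (l 533338255)) (b (l 533378447) (l 533406607))) (a (l 2) (b (l 16774832) (l 7616850407))))) (a (l 2) (a (l 2) (l 16775880)))))))) (c (b (l 3) (a (l 2) (b (a (b (l 3) (l 2)) (b (l 3) (b (b (l 3) (l 532787599)) (b (l 532997007) (l 533173535))))) (a (l 2) (b (b (b (b (l 533288335) (l 533341583)) (b (l 533376143) (l 533400207))) (a (l 2) (b (l 16774832) (l 7079979479)))) (a (l 2) (l 16775864))))))) (b (l 3) (a (l 2) (b (a (b (l 3) (l 2)) (b (l 3) (b (b (l 3) (l 532885647)) (b (l 533058959) (l 534551695)))))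 (a (l 2) (b (b (b (b (l 533300879) (l 533345679)) (b (l 533374607) (l 533395343))) (a (l 2) (b (l 16774832) (l 16774368)))) (a (l 2) (l 16775848))))))))), by decide +kernel⟩

def k32_A00pm_102_s1 : ∃ t, chk3 f_A00pm_102_s1 t 21 82 3 = true :=
  ⟨(b (l 3) (a (l 3) (b (l 3) (b (a (l 3) (b (l 3) (l 531141263))) (b (a (l 3) (l 530705807)) (a (a (l 3) (c (l 531193999) (l 531603855))) (c (l 531300751) (l 531649167)))))))), by decide +kernel⟩

def k33_A00pm_102_s1 : ∃ t, chk3 f_A00pm_102_s1 t 42 83 6 = true :=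
  ⟨(c (b (b (a (b (l 3) (b (l 3) (l 531479439))) (b (a (l 3) (b (l 3) (l 530960015))) (b (a (a (l 3) (b (l 3) (l 530470431))) (b (l 530985615) (l 531817103))) (a (a (l 531254927) (b (l 530486671) (l 531251855))) (a (b (l 531873167) (l 531208335)) (l 530346127)))))) (b (a (b (l 531824527) (l 532142735)) (a (b (a (l 531586959) (l 531496591)) (l 531843471)) (b (l 531417631) (l 531705743)))) (a (b (l 532432271) (l 533764495)) (a (b (l 532122255) (l 532368415)) (b (l 531975567) (l 532217887)))))) (a (b (b (b (b (l 532855439) (l 532944527)) (l 533037711)) (b (a (l 16774344) (l 16773784)) (b (l 533159823) (l 533183375)))) (a (l 16775368) (l 16774784))) (a (b (b (b (l 532601631) (l 16776232)) (b (l 16773152) (l 16772688))) (l 16774136)) (b (b (b (l 532706591) (l 16772952)) (b (l 16772496) (l 16772032))) (b (l 16771336) (l 16770352)))))) (b (b (b (a (l 3) (a (l 3) (b (l 3) (l 531241615)))) (a (b (l 3) (l 531732111)) (b (a (a (l 3) (b (l 3) (b (l 531239311) (l 531798415)))) (b (l 531272847) (l 531837839)))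 (b (a (a (l 531448975) (l 532667279)) (a (l 531355791) (l 531372431))) (a (l 532094095) (l 531471503)))))) (b (a (b (l 532025743) (l 532297103)) (a (b (l 531760671) (l 532023439)) (b (l 531656847) (l 531899535)))) (a (b (l 532544399) (l 532765583)) (a (b (l 532261775) (l 533283215)) (b (l 532129935) (l 532611215)))))) (a (b (b (b (b (l 532906383) (l 532982671)) (l 533063055)) (b (l 533669519) (b (l 533169039) (l 16776128)))) (a (l 16775360) (l 16774792))) (a (b (b (b (l 532673567) (l 16776272)) (b (l 16773192) (l 16772720))) (l 16774160)) (b (b (b (l 532525087) (l 16773016)) (b (l 16772552) (l 16772080))) (l 16773512)))))), by decide +kernel⟩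

def k34_A00pm_102_s1 : ∃ t, chk3 f_A00pm_102_s1 t 43 83 12 = true :=
  ⟨(b (b (b (a (b (a (a (l 3) (b (l 3) (l 531053711))) (l 531113615)) (a (a (l 531033743) (l 531080591)) (b (a (l 531115407) (l 531159183)) (l 531155087)))) (b (l 531237263) (b (l 531261327) (l 531279759)))) (a (b (a (b (l 531083151) (l 531104399)) (b (l 531174287) (l 531195279))) (a (b (l 531151247) (l 531240079)) (b (l 531233167) (l 531301519)))) (b (b (l 531299215) (l 531320207)) (b (l 531351439) (l 531671183))))) (b (a (b (a (b (l 531348623) (l 531466383)) (b (l 531387535) (l 16773888))) (a (l 531653775) (b (l 531587983) (l 531694223)))) (b (b (l 531736207) (a (l 531521423) (l 531566735))) (a (a (l 16772920) (l 16772560)) (a (l 16772200) (l 16771832))))) (a (b (a (l 531897743) (l 531854367)) (a (l 532123935) (l 532064799))) (b (a (a (l 16772408) (l 16772056)) (a (l 16771696) (l 16771328))) (a (l 532030239) (l 16771048)))))) (a (b (a (b (b (l 16772728) (l 16772296)) (b (l 16771848) (l 16771384))) (b (b (l 16772048) (l 16771616))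 (b (l 16771168) (l 16770720)))) (a (b (b (b (l 16771040) (b (l 16770864) (a (l 16770912) (a (l 16770672) (b (b (l 16770552) (a (l 16770560) (c (l 16770456) (l 16770488)))) (l 16770456)))))) (l 16770440)) (l 16769704)) (b (b (b (l 16770376) (b (l 16770200) (b (b (l 16770112) (b (b (b (l 16770072) (l 16772640)) (l 16769968)) (l 16769960))) (l 16769920)))) (l 16769664)) (l 16768944)))) (a (b (b (b (l 16771344) (l 16770920)) (b (l 16770480) (l 16770024))) (b (b (b (l 16769688) (b (b (l 16769544) (l 16769464)) (b (b (l 16771944) (l 16769128)) (l 16769008)))) (l 16768760)) (l 16768056))) (b (b (b (l 16770624) (l 16770200)) (b (l 16769760) (l 16769312))) (b (b (b (l 16768976) (b (b (l 16768808) (b (l 16768712) (l 16768584))) (l 16768264))) (l 16767800)) (l 16767112)))))), by decide +kernel⟩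

def k35_A00pm_102_s1 : ∃ t, chk3 f_A00pm_102_s1 t 43 83 13 = true :=
  ⟨(b (b (b (a (b (a (a (l 3) (b (l 3) (a (l 531288975) (l 531305871)))) (l 531337871)) (a (a (l 531295375) (l 531327007)) (b (b (l 531360911) (l 531371151)) (l 531387023)))) (b (l 531428239) (b (l 531456399) (l 531477135)))) (a (b (a (b (l 531343247) (l 531367055)) (b (l 531409039) (l 531432335))) (a (b (l 531411599) (l 531490191)) (b (l 531469199) (l 531530639)))) (b (b (l 531498639) (l 531789967)) (b (l 531821199) (l 531834767))))) (b (a (b (a (b (l 531584399) (l 531686031)) (b (l 531606671) (l 531691151))) (a (l 531847055) (b (l 531780495) (l 16773456)))) (b (a (b (l 531640207) (l 531711631)) (b (l 531678351) (l 531739791))) (a (a (l 16773064) (l 16772712)) (a (l 16772360) (l 16772000))))) (a (b (a (l 532056207) (l 532010015)) (a (l 16773264) (l 532190751))) (b (a (a (l 16772552) (l 16772200)) (a (l 16771848) (l 16771488))) (a (l 16771904) (l 16771200)))))) (a (b (a (b (b (l 16772824) (l 16772376)) (b (l 16771920) (l 16771448)))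 (b (b (l 16772152) (l 16771712)) (b (l 16771256) (l 16770792)))) (a (b (b (b (l 16771096) (b (l 16770920) (a (l 16770960) (a (l 16770728) (b (b (l 16770608) (l 16773192)) (l 16770520)))))) (l 16770496)) (l 16769752)) (b (b (b (l 16770448) (b (l 16770272) (b (b (l 16770176) (b (b (b (l 16770136) (l 16770088)) (l 16770040)) (l 16770024))) (l 16769992)))) (l 16769728)) (l 16769000)))) (a (b (b (b (l 16771464) (l 16771024)) (b (l 16770576) (l 16770112))) (b (b (b (l 16769768) (b (b (l 16769616) (l 16769536)) (b (b (l 16769400) (l 16769208)) (l 16769096)))) (l 16768840)) (l 16768128))) (b (b (b (l 16770760) (l 16770320)) (b (l 16769864) (l 16769408))) (b (b (b (l 16769056) (b (b (l 16768888) (l 16771344)) (l 16768360))) (l 16767896)) (l 16767200)))))), by decide +kernel⟩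

def k36_A00pm_102_s1 : ∃ t, chk3 f_A00pm_102_s1 t 42 83 7 = true :=
  ⟨(c (b (b (b (a (l 3) (a (l 3) (b (l 3) (l 531505807)))) (a (b (l 3) (l 531967119)) (b (a (a (l 3) (b (l 3) (b (l 531529359) (l 531550863)))) (b (l 531541391) (l 531571087))) (a (a (l 531778703) (a (l 531723151) (l 532985119))) (b (l 531903887) (l 531720079)))))) (b (a (b (l 532213647) (l 532441743)) (a (b (l 531975311) (l 532193167)) (b (l 531876751) (l 532081295)))) (a (b (l 532649871) (l 532836751)) (a (b (l 532394127) (l 532845199)) (b (l 532275343) (l 532455055)))))) (a (b (b (b (b (l 532955279) (l 533020047)) (l 533088655)) (b (l 533148047) (b (l 533179535) (l 16776136)))) (a (l 16775360) (l 16772176))) (a (b (b (b (l 532742943) (l 16776320)) (b (l 16773232) (l 16772760))) (l 16774184)) (b (b (b (l 16776160) (l 16773080)) (b (l 16772608) (l 16772136))) (l 16773552))))) (b (b (b (a (l 3) (a (l 3) (b (l 3) (l 531752591)))) (a (b (l 3) (l 532184463)) (b (a (a (l 3) (b (l 3) (b (l 531798927) (l 531819407)))) (b (l 531791503)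 (l 531822223))) (a (a (l 532013711) (a (l 531963023) (l 532165919))) (b (l 531879055) (l 531950991)))))) (b (a (b (l 532387983) (l 532576399)) (a (b (l 532172175) (l 532352655)) (b (l 532081807) (l 532251279)))) (a (b (l 532748943) (l 532904335)) (a (b (l 532519311) (l 532939663)) (b (l 532412303) (l 532561551)))))) (b (a (b (b (b (l 533002639) (l 533056911)) (l 533114255)) (b (l 533164687) (b (l 533191311) (l 16776144)))) (b (b (a (l 532810271) (l 16776232)) (a (l 16776360) (l 16773144))) (b (a (l 16773264) (l 16772664)) (b (l 16775240) (l 16775000))))) (a (a (l 16772736) (l 16772184)) (a (l 16771592) (l 16770968)))))), by decide +kernel⟩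

def k37_A00pm_102_s1 : ∃ t, chk3 f_A00pm_102_s1 t 43 83 14 = true :=
  ⟨(b (b (b (a (b (a (a (l 3) (b (l 3) (a (l 531521167) (l 531532175)))) (l 531548559)) (a (a (l 531540623) (b (l 531549583) (l 531573135))) (b (b (l 531574927) (l 531586447)) (l 531604367)))) (b (l 531607439) (b (l 531639183) (l 531661711)))) (a (b (a (b (l 531586447) (l 531612303)) (b (l 531628175) (l 531653519))) (a (b (l 531654543) (l 531723407)) (b (l 531689103) (l 531744143)))) (a (b (b (l 531667087) (l 531691663)) (b (l 531723663) (l 531770255))) (b (l 531714847) (b (l 531756687) (l 531797391)))))) (b (a (b (a (l 531846175) (b (l 531810447) (l 531883407))) (a (l 532027791) (l 531998239))) (b (a (b (l 531826319) (l 531888527)) (b (l 531846031) (l 531900047))) (a (a (l 16773200) (l 16772856)) (a (l 16772504) (l 16772144))))) (a (b (a (l 532204687) (l 532155423)) (a (l 16773368) (l 16772712))) (b (a (a (l 16772688) (l 16772344)) (a (l 16771992) (l 16771632))) (a (l 16772032) (l 16771336)))))) (a (b (b (b (a (l 16772912) (l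 16772256)) (a (l 16772456) (l 16771808))) (b (a (l 16771984) (l 16771336)) (b (l 16771312) (l 16771072)))) (a (b (b (b (l 16771160) (a (l 16771072) (b (l 16770816) (b (b (l 16770744) (l 16773328)) (l 16770664))))) (l 16770544)) (l 16769800)) (b (b (b (l 16770512) (b (l 16770336) (b (b (l 16770240) (a (a (a (l 16770504) (l 16770416)) (l 16770264)) (l 16769952))) (l 16770064)))) (l 16769792)) (l 16769064)))) (a (b (b (b (l 16771584) (l 16771128)) (b (l 16770664) (l 16770192))) (b (b (b (l 16769840) (b (b (l 16769688) (l 16769608)) (b (b (l 16769480) (l 16769296)) (l 16769184)))) (l 16768920)) (l 16768200))) (b (b (b (l 16770880) (l 16770424)) (b (l 16769960) (l 16769488))) (b (b (b (l 16769136) (b (b (l 16768968) (l 16768808)) (l 16768448))) (l 16767992)) (l 16767288)))))), by decide +kernel⟩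

def k38_A00pm_102_s1 : ∃ t, chk3 f_A00pm_102_s1 t 43 166 15 = true :=
  ⟨(b (b (a (b (a (a (l 3) (b (l 3) (a (b (l 3) (l 531744399)) (l 531743887)))) (l 531745935)) (a (a (l 531769743) (b (a (l 531763599) (l 531768975)) (l 531791759))) (b (a (b (l 531769999) (l 531782543)) (l 531786639)) (a (l 531801999) (l 531811471))))) (b (l 531775119) (b (l 531809167) (l 531833231)))) (a (b (a (b (l 531812751) (l 531840143)) (b (l 531832207) (l 531858575))) (a (b (l 531879823) (l 531939471)) (b (l 531893135) (l 531942031)))) (b (b (a (l 531849871) (l 531866255)) (a (l 531875471) (l 531890831))) (a (b (l 531906959) (l 531948943)) (b (l 531920015) (l 531957391)))))) (b (a (b (a (l 532583823) (l 532029215)) (a (l 532195983) (l 532158495))) (b (a (l 532024095) (a (l 532026511) (l 16772832))) (a (l 532137247) (a (l 16772640) (l 16772288))))) (a (b (a (l 532343439) (l 532290335)) (a (l 16773464) (l 16772824))) (b (a (a (l 16772808) (l 16772472)) (a (l 16772120) (l 16771768))) (a (l 16772152) (l 16771456)))))), by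 decide +kernel⟩

def k39_A00pm_102_s1 : ∃ t, chk3 f_A00pm_102_s1 t 43 167 15 = true :=
  ⟨(a (b (b (b (a (l 16773000) (l 16772360)) (a (l 16772528) (l 16771888))) (b (a (l 16772056) (l 16771416)) (b (l 16771376) (l 16771136)))) (a (b (b (b (l 16771216) (a (l 16771128) (b (l 16770880) (b (b (l 16770800) (l 16770768)) (l 16770720))))) (l 16770600)) (l 16769848)) (b (b (b (l 16770576) (b (l 16770400) (b (b (l 16770304) (a (a (l 16770520) (l 16770328)) (l 16770024))) (l 16770128)))) (l 16769864)) (l 16769128)))) (a (b (b (b (l 16771688) (l 16771224)) (b (l 16770752) (l 16770272))) (b (b (b (l 16769912) (b (b (l 16769760) (l 16769680)) (b (b (l 16769552) (l 16769376)) (l 16769264)))) (l 16769000)) (l 16768280))) (b (b (b (l 16770992) (l 16770528)) (b (l 16770048) (l 16769568))) (b (b (b (l 16769216) (b (b (l 16769040) (l 16768888)) (l 16768536))) (l 16768088)) (l 16767368))))), by decide +kernel⟩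

def k40_A00pm_102_s1 : ∃ t, chk3 f_A00pm_102_s1 t 22 164 2 = true :=
  ⟨(b (b (l 3) (a (l 3) (a (l 3) (a (l 3) (c (c (b (a (l 3) (a (l 3) (b (l 3) (l 531604367)))) (b (a (l 3) (l 531584399)) (a (a (a (l 3) (l 531529103)) (l 531544207)) (l 531574159)))) (b (a (l 3) (l 531583119)) (l 531552143))) (b (l 531677839) (l 531540879))))))) (a (l 3) (b (c (a (a (l 3) (a (l 3) (a (l 3) (b (l 3) (b (l 3) (b (l 3) (l 531385231))))))) (b (a (a (l 3) (c (c (b (a (l 3) (c (l 531491215) (l 531492239))) (l 531469455)) (l 531479183)) (l 531484303))) (c (a (l 531518495) (l 531559823)) (l 531539855))) (c (a (b (a (a (a (l 3) (a (l 3) (l 531415327))) (l 531429263)) (l 531462031)) (a (a (a (l 531391375) (l 531402639)) (l 531419535)) (l 531452303))) (l 531520911)) (a (b (a (l 531436175) (l 531475087)) (l 531449743)) (l 531528847))))) (a (a (l 3) (a (l 3) (b (l 3) (l 531428383)))) (b (a (c (l 531474063) (l 531482511)) (l 531539599)) (a (b (l 531477135) (l 531477135)) (l 531539343))))) (c (a (c (b (a (l 3) (b (a (l 3) (l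 531352719)) (l 531319439))) (a (a (b (l 3) (l 531175055)) (l 531231007)) (l 531305615))) (b (a (l 3) (l 531360655)) (l 531306383))) (a (b (c (a (b (l 531398543) (l 531389583)) (l 531439247)) (l 531442319)) (c (l 531400079) (l 531433615))) (b (l 531512207) (l 531501455)))) (a (b (l 531444111) (l 531377551)) (b (a (l 531477903) (l 531540623)) (l 531511695))))))), by decide +kernel⟩

def k41_A00pm_102_s1 : ∃ t, chk3 f_A00pm_102_s1 t 22 165 2 = true :=
  ⟨(b (a (a (a (l 3) (b (l 3) (b (l 3) (a (l 530689311) (l 530743695))))) (c (b (c (a (b (l 3) (b (l 3) (l 530939279))) (b (a (l 3) (l 530838927)) (l 530792335))) (b (l 530839695) (l 530828943))) (b (l 530769551) (l 531028367))) (b (l 530963343) (l 531241359)))) (a (b (c (b (c (l 530969999) (l 531297167)) (l 531257231)) (l 531115151)) (c (l 530979215) (l 531397263))) (a (b (b (l 531177871) (l 531445647)) (l 531182223)) (b (l 531321487) (l 531528591))))) (a (b (c (a (b (l 530776207) (l 530768783)) (l 531023247)) (l 531171983)) (c (c (l 531087247) (l 530978959))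 (l 530934671))) (b (a (l 531063327) (l 531236751)) (a (l 531222047) (c (l 531462031) (l 532134175)))))), by decide +kernel⟩

def k42_A00pm_102_s1 : ∃ t, chk3 f_A00pm_102_s1 t 23 82 2 = true :=
  ⟨(b (a (b (a (b (c (b (a (l 3) (b (a (l 3) (l 531765903)) (c (l 531796367) (l 531720335)))) (a (a (l 3) (b (a (l 3) (l 531692175)) (l 531675023))) (c (l 531747727) (l 531710607)))) (a (b (l 3) (l 531603343)) (l 531925791))) (c (a (b (c (a (c (b (l 531649167) (l 531637647)) (l 531633039)) (l 531675023)) (l 531633807)) (l 531629199)) (b (l 531713423) (l 531699087))) (b (l 531627151) (l 531625615)))) (c (b (a (b (l 531807887) (l 531792527)) (l 531860367)) (l 532072079)) (b (l 531732879) (l 531730575)))) (b (a (c (b (l 531650447) (l 531638415)) (l 531626639)) (l 531220623)) (b (l 531557263) (l 531690383)))) (b (a (b (l 532689039) (l 531604623)) (a (l 531683983) (b (l 532266895) (l 16771680)))) (a (b (l 531867023) (l 531866767)) (b (l 531697551) (l 531699599))))) (a (b (b (a (l 531427215) (l 531757455)) (c (l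 531685519) (l 531449743))) (b (c (l 531697039) (l 531478415)) (c (b (l 531712655) (l 531729551)) (b (l 531773327) (l 532332687))))) (b (b (a (l 531872911) (l 531976591)) (a (l 531886991) (a (l 16765072) (l 16764032)))) (b (a (a (l 16765848) (l 16764856)) (a (l 16763856) (l 16762832))) (a (c (l 532477215) (a (l 16762008) (l 16761016))) (a (a (l 16760304) (l 16759808)) (a (l 16759312) (l 16758808)))))))), by decide +kernel⟩

def k43_A00pm_102_s1 : ∃ t, chk3 f_A00pm_102_s1 t 11 332 2 = true :=
  ⟨(a (b (a (b (c (l 530911119) (l 531233423)) (c (l 530928783) (c (l 531182479) (l 531875727)))) (a (b (l 531120015) (c (l 531301263) (l 531521167))) (c (a (l 531184783) (l 16767832)) (b (l 531636367) (l 531935119))))) (a (b (b (a (l 530736271) (l 530967183)) (c (l 530961295) (a (l 530672271) (l 531398799)))) (c (a (b (l 530846863) (l 530894479)) (l 531002911)) (a (b (l 530698895) (l 532083855)) (c (l 532174991) (l 532312863))))) (b (c (a (l 531332751) (l 531542559)) (a (l 532360479) (b (l 531691663) (l 531710607))))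 (c (a (a (l 16768672) (l 16767872)) (a (l 16767072) (l 16766264))) (a (b (l 531587983) (l 531617679)) (b (l 531732367) (l 532027023))))))) (a (b (b (c (l 531751311) (a (l 531764879) (l 531878031))) (c (b (l 532307343) (l 532322447)) (a (l 531795087) (l 531907727)))) (b (c (a (l 532535695) (l 532428319)) (b (a (l 531819663) (l 531931535)) (a (l 531838095) (l 531949711)))) (c (a (a (l 16768072) (l 16764624)) (a (l 16763792) (l 16762944))) (a (a (l 16765704) (l 16764840)) (a (l 16763952) (l 16763048)))))) (a (a (b (b (l 531948319) (c (l 16763152) (l 16763192))) (b (c (l 16762608) (l 16762648)) (c (l 16762088) (l 16762128)))) (b (b (l 532005151) (c (l 16762248) (l 16762232))) (a (b (l 16761944) (l 16761440)) (b (l 16761480) (b (l 16761104) (a (l 16760960) (l 16760696))))))) (b (a (b (c (l 16761872) (l 16761792)) (c (l 16761328) (l 16761248))) (c (b (l 16760920) (a (l 16760616) (l 16760112))) (b (l 16760776) (a (l 16760488) (b (l 16760104) (l 16759784)))))) (a (a (b (a (l 16761128) (l 16760888)) (b (a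 (l 16760736) (l 16760472)) (l 16760248))) (b (c (l 16760552) (b (l 16760600) (l 16760304))) (l 16759824))) (a (b (a (b (l 16760272) (l 16759920)) (l 16759792)) (l 16759216)) (l 16761592))))))), by decide +kernel⟩

def k44_A00pm_102_s1 : ∃ t, chk3 f_A00pm_102_s1 t 44 333 2 = true :=
  ⟨(b (b (a (c (b (l 530690703) (a (l 530979471) (l 16770256))) (b (a (l 531559311) (l 531377807)) (c (l 531313039) (l 531482255)))) (c (c (l 530892687) (l 532117279)) (b (l 532306831) (c (l 531484303) (l 531616655))))) (c (a (b (a (l 16770736) (l 16769968)) (a (l 16770472) (l 16769712))) (a (l 16769072) (l 16768312))) (a (b (a (l 531707023) (l 531774351)) (a (l 531790223) (l 531577375))) (b (c (l 531542671) (l 531669647)) (a (l 531905311) (l 531966095)))))) (b (a (a (c (b (l 531824271) (l 531666719)) (a (c (l 16770608) (l 16770792)) (l 16770328))) (c (a (l 16769544) (l 16769168)) (a (l 16769952) (l 16769576)))) (a (c (c (l 16768488) (l 16768704)) (a (l 16769192) (l 16768816))) (c (c (l 16767736) (l 16767944)) (a (l 16768432)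 (l 16768040))))) (a (a (c (a (l 16769888) (l 16769512)) (a (l 16770256) (l 16769888))) (c (a (l 16769128) (l 16768752)) (a (l 16769512) (l 16769136)))) (c (b (a (l 16768280) (l 16767528)) (a (l 16768088) (l 16767328))) (b (a (l 16768672) (l 16767904)) (a (l 16768456) (l 16767688))))))), by decide +kernel⟩

def k45_A00pm_102_s1 : ∃ t, chk3 f_A00pm_102_s1 t 45 333 2 = true :=
  ⟨(b (b (c (a (a (l 16768072) (l 16767288)) (a (l 532412191) (l 16768336))) (a (b (l 532190351) (a (l 531660175) (l 16767528))) (b (a (l 16766984) (l 16766152)) (a (l 16766712) (l 16765888))))) (a (c (b (l 532338831) (a (l 16767424) (l 16766656))) (b (a (l 16768064) (l 16767264)) (a (l 16767816) (l 16767016)))) (c (a (c (l 16765912) (l 16766088)) (l 16765216)) (b (a (l 16766456) (l 16765640)) (a (l 16766216) (l 16765392)))))) (b (a (c (b (a (l 16767192) (l 16766424)) (a (l 16766976) (l 16766208))) (b (a (l 16767576) (l 16766784)) (a (l 16767344) (l 16766552)))) (c (a (l 16765544) (l 16764768)) (b (a (l 16765976) (l 16765160))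 (a (l 16765744) (l 16764928))))) (a (c (b (a (l 16766768) (l 16766000)) (a (l 16766568) (l 16765800))) (a (c (l 16766928) (l 16767096)) (c (l 16766144) (l 16766296)))) (c (b (a (l 16765232) (l 16764448)) (a (l 16765024) (l 16764248))) (a (c (l 16765352) (l 16765480)) (c (l 16764544) (l 16764648))))))), by decide +kernel⟩

def k46_A00pm_102_s1 : ∃ t, chk3 f_A00pm_102_s1 t 46 333 2 = true :=
  ⟨(a (c (c (b (b (l 532338719) (a (l 16764360) (l 16763568))) (a (b (l 16763912) (l 16763504)) (b (l 16763136) (a (l 16762904) (b (l 16762616) (l 16762336)))))) (b (b (a (l 16764984) (l 16764168)) (a (l 16764496) (l 16763680))) (a (b (l 16764048) (l 16763616)) (b (l 16763232) (a (l 16763000) (b (l 16762704) (b (l 16762512) (l 16762336)))))))) (c (b (b (a (l 16765112) (l 16764272)) (a (l 16764624) (l 16763784))) (a (b (l 16764160) (l 16763720)) (b (l 16763320) (b (l 16762984) (a (l 16762968) (b (a (l 16762712) (l 16762456)) (l 16762400))))))) (a (b (b (l 16765232) (l 16764728)) (b (l 16764256) (b (l 16763912) (l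 16763688)))) (b (b (l 16764360) (l 16763864)) (b (l 16763392) (a (b (l 16763272) (a (l 16763152) (l 16762920))) (b (l 16762832) (b (a (l 16762760) (l 16762504)) (l 16762456))))))))) (b (b (a (c (l 16763288) (l 16763440)) (a (l 16762728) (l 16762288))) (c (a (l 16762816) (a (l 16762200) (b (l 16761896) (l 16761640)))) (a (c (l 16762928) (l 16762984)) (a (l 16762288) (b (l 16761960) (a (l 16761832) (l 16761576))))))) (c (a (b (a (l 16762584) (b (l 16762280) (a (l 16762152) (l 16761912)))) (a (b (a (l 16762336) (l 16762088)) (l 16761832)) (l 16761456))) (b (a (b (a (l 16761960) (l 16761720)) (l 16761488)) (l 16761112)) (l 16760592))) (a (b (a (l 16762712) (b (l 16762384) (a (l 16762256) (b (l 16762088) (l 16761912))))) (a (b (a (b (l 16762536) (l 16762392)) (b (l 16762288) (l 16762104))) (l 16761936)) (l 16761552))) (b (a (b (a (l 16762040) (b (l 16761880) (l 16761712))) (l 16761560)) (b (l 16761360) (l 16760960))) (l 16760648)))))), by decide +kernel⟩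

def k47_A00pm_102_s1 : ∃ t, chk3 f_A00pm_102_s1 t 47 333 2 = true :=
  ⟨(a (b (a (b (b (c (l 16761728) (l 16761752)) (a (l 16761736) (c (l 16761248) (a (l 16761392) (l 16761128))))) (b (c (a (l 16761448) (l 16760920)) (a (a (l 16761608) (l 16761360)) (l 16760920))) (a (c (l 16761120) (l 16761144)) (l 16760536)))) (b (c (a (b (l 16761048) (l 16760720)) (l 16760320)) (a (b (a (l 16761160) (l 16760904)) (l 16760688)) (l 16760264))) (a (l 16760136) (l 16759528)))) (a (b (a (l 16760544) (l 16759952)) (l 16759440)) (b (l 16759056) (l 16758248)))) (b (a (b (a (l 16759688) (l 16759080)) (l 16758624)) (b (l 16758168) (l 16757416))) (a (l 16762688) (l 16756240)))), by decide +kernel⟩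

def k48_A00pm_102_s1 : ∃ t, chk3 f_A00pm_102_s1 t 44 668 2 = true :=
  ⟨(b (a (b (c (a (l 16769424) (l 16768664)) (a (l 16769768) (l 16769016))) (c (a (l 16769248) (l 16768488)) (a (l 16769568) (l 16768816)))) (b (c (a (l 16767904) (l 16767144)) (a (l 16768256) (l 16767480))) (c (a (l 16767720) (l 16766952)) (a (l 16768056) (l 16767280))))) (a (c (b (a (l 16769064) (l 16768304)) (a (l 16768872) (l 16768112))) (a (a (l 16769456) (l 16769080)) (a (l 16768704) (l 16768320)))) (c (b (a (l 16767536) (l 16766768)) (a (l 16767344) (l 16766576))) (b (a (l 16767848) (l 16767072)) (a (l 16767640) (l 16766864)))))), by decide +kernel⟩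

def k49_A00pm_102_s1 : ∃ t, chk3 f_A00pm_102_s1 t 45 668 2 = true :=
  ⟨(b (c (c (a (a (l 16766192) (l 16765424)) (a (l 16764656) (l 16763880))) (a (a (l 16766368) (l 16765584)) (a (l 16764800) (a (l 16764208) (l 16763800))))) (a (a (a (l 16766792) (l 16766400)) (a (l 16766000) (l 16765600))) (a (a (l 16765192) (l 16764784)) (c (a (l 16764320) (l 16763904)) (a (l 16764416) (l 16763992)))))) (c (b (b (a (a (l 16766040) (l 16765264)) (a (l 16764480) (a (l 16763888) (a (l 16763584) (l 16763344))))) (a (a (l 16765944) (l 16765168)) (a (l 16764384) (a (a (l 16763888) (l 16763664)) (l 16763272))))) (a (a (l 16765800) (c (l 16764944) (l 16765080))) (a (a (l 16764424) (b (l 16764072) (a (b (l 16764096) (l 16764016)) (l 16763792)))) (a (b (a (l 16763736) (l 16763464)) (l 16763376)) (l 16762928))))) (b (c (a (a (l 16766216) (l 16765416)) (a (l 16764616) (a (b (l 16764056) (a (l 16764048) (l 16763816))) (b (a (l 16763736) (l 16763496)) (l 16763416))))) (a (a (l 16766344) (l 16765536)) (b (a (l 16764768) (a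 (l 16764144) (a (l 16763816) (b (l 16763624) (l 16763520))))) (a (l 16764664) (a (a (l 16764136) (b (l 16763952) (l 16763872))) (a (l 16763648) (l 16763352))))))) (a (c (a (l 16766008) (l 16765208)) (a (l 16766128) (l 16765320))) (a (a (a (l 16764760) (l 16764544)) (b (a (l 16764400) (c (l 16764136) (l 16764224))) (a (b (l 16764312) (a (l 16764296) (l 16764160))) (b (l 16764064) (l 16763944))))) (a (b (a (b (a (l 16764056) (l 16763936)) (l 16763896)) (l 16763664)) (l 16763576)) (l 16763120))))))), by decide +kernel⟩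

def k50_A00pm_102_s1 : ∃ t, chk3 f_A00pm_102_s1 t 23 668 2 = true :=
  ⟨(a (b (a (a (b (c (a (l 16763456) (a (l 16763144) (b (l 16763000) (l 16762864)))) (a (l 16763648) (a (l 16763320) (b (l 16763168) (b (l 16763072) (l 16762984)))))) (a (c (b (l 16763288) (a (l 16763272) (l 16763008))) (b (a (l 16763584) (c (l 16763320) (l 16763400))) (a (b (l 16763496) (l 16763416)) (l 16763184)))) (a (b (c (l 16762944) (b (l 16763160) (l 16763056))) (l 16762816)) (l 16762640)))) (b (a (a (b (c (l 16762784) (b (l 16762976) (l 16762896))) (l 16762672)) (c (l 16762408) (l 16762552))) (c (l 16761984) (l 16762112))) (a (l 16762208) (l 16761624)))) (a (a (l 16761256) (l 16760672)) (l 16759792))) (a (a (b (a (c (l 16762816) (l 16762992)) (l 16762336)) (a (l 16762456) (l 16761888))) (b (l 16761472) (l 16761016))) (c (l 16764696) (l 16764776)))) (a (a (l 16763408) (l 16756984)) (l 16755200))), by decide +kernel⟩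

def k51_A00pm_102_s1 : ∃ t, chk3 f_A00pm_102_s1 t 11 1338 2 = true :=
  ⟨(a (a (a (c (a (l 16768584) (l 16767824)) (a (l 16768848) (a (l 16768280) (l 16767904)))) (c (a (a (l 16767240) (l 16766856)) (c (l 16766200) (l 16766344))) (a (a (l 16767520) (l 16767128)) (a (l 16766736) (l 16766344))))) (a (a (c (a (l 16765696) (b (l 16765400) (b (l 16765256) (a (l 16765240) (b (l 16765064) (l 16764968)))))) (a (l 16765952) (b (l 16765656) (b (l 16765496) (a (b (l 16765512) (l 16765448)) (b (a (l 16765360) (l 16765248)) (l 16765200))))))) (b (c (a (l 16765008) (b (l 16764664) (a (l 16764656) (b (l 16764472) (l 16764368))))) (a (l 16765256) (b (l 16764904) (a (b (l 16764920) (a (l 16764912) (l 16764792))) (b (a (l 16764760) (l 16764640)) (l 16764592)))))) (b (a (c (a (l 16764944) (b (l 16764776) (l 16764672))) (a (c (l 16765128) (l 16765232)) (b (a (l 16765064) (l 16764952)) (l 16764904)))) (c (l 16764320) (a (l 16764688) (l 16764408)))) (a (a (c (l 16764760) (l 16764992)) (l 16764600)) (l 16764184))))) (a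 (b (a (b (c (a (l 16764352) (l 16764112)) (a (b (l 16764616) (a (l 16764608) (l 16764480))) (b (a (l 16764456) (l 16764320)) (l 16764272)))) (c (l 16764016) (l 16764232))) (c (l 16763576) (l 16763792))) (a (l 16763752) (l 16763192))) (b (a (l 16763120) (l 16762552)) (l 16762344))))) (a (a (a (l 16761448) (l 16760296)) (l 16758560)) (a (l 16756224) (l 16753880)))), by decide +kernel⟩

def k52_A00pm_102_s1 : ∃ t, chk3 f_A00pm_102_s1 t 11 2678 2 = true :=
  ⟨(a (a (b (a (c (a (l 16768336) (l 16767576)) (a (l 16768584) (l 16767824))) (a (a (l 16767128) (l 16766744)) (c (c (l 16765960) (l 16766088)) (a (l 16766472) (l 16766072))))) (b (a (c (a (l 16768264) (l 16767496)) (a (l 16768504) (l 16767744))) (a (a (l 16767048) (l 16766664)) (c (a (l 16766144) (a (l 16765856) (l 16765640))) (a (l 16766392) (a (l 16766088) (b (l 16765904) (l 16765856))))))) (b (c (a (a (l 16768224) (l 16767456)) (a (l 16766688) (a (l 16766104) (a (l 16765800) (l 16765552))))) (a (a (l 16768464) (l 16767704)) (a (a (l 16767128)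 (l 16766736)) (a (l 16766352) (a (l 16766040) (l 16765792)))))) (c (a (a (l 16768200) (l 16767432)) (a (l 16766664) (a (l 16766080) (l 16765616)))) (a (a (l 16768432) (l 16767680)) (a (l 16766904) (a (l 16766320) (a (l 16765984) (l 16765720))))))))) (a (c (a (b (a (a (l 16765528) (b (l 16765352) (l 16765248))) (l 16764904)) (a (b (l 16765248) (l 16765104)) (l 16764624))) (b (l 16764072) (l 16763800))) (b (a (a (a (c (l 16765712) (l 16765816)) (b (l 16765592) (l 16765488))) (a (l 16765280) (l 16765000))) (l 16764312)) (a (a (b (l 16765488) (l 16765344)) (l 16764872)) (l 16764040)))) (a (b (l 16763080) (l 16762808)) (l 16761808)))) (a (a (a (l 16760672) (l 16759528)) (c (l 16757752) (l 16752592))) (a (c (l 16755496) (l 16755464)) (a (l 16753744) (l 16752576))))), by decide +kernel⟩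

def k53_A00pm_102_s1 : ∃ t, chk3 f_A00pm_102_s1 t 11 5358 2 = true :=
  ⟨(a (a (b (b (c (a (a (l 16768176) (l 16767408)) (a (l 16766640) (a (l 16766040) (l 16765544)))) (a (a (l 16768408) (l 16767648)) (a (l 16766880) (a (a (l 16766392) (l 16766176)) (l 16765784))))) (c (a (a (l 16768152) (l 16767384)) (a (l 16766616) (a (a (l 16766120) (l 16765880)) (l 16765472)))) (a (a (l 16768384) (l 16767624)) (a (l 16766856) (a (a (l 16766360) (l 16766112)) (l 16765712)))))) (b (a (c (a (l 16768128) (l 16767360)) (a (l 16768352) (l 16767600))) (a (a (l 16766904) (c (l 16766392) (l 16766632))) (a (c (l 16765936) (l 16766176)) (l 16765528)))) (a (c (a (l 16768096) (l 16767336)) (a (l 16768328) (l 16767568))) (c (a (a (l 16766760) (l 16766360)) (l 16765592)) (a (a (l 16766992) (l 16766592)) (l 16765840)))))) (a (a (a (l 16765016) (l 16764464)) (l 16763640)) (a (l 16762520) (l 16761384)))) (a (a (l 16759680) (l 16757384)) (a (c (l 16755088) (l 16755064)) (c (l 16752848) (l 16752688))))), by decide +kernel⟩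

def k54_A00pm_102_s1 : ∃ t, chk3 f_A00pm_102_s1 t 11 5359 2 = true :=
  ⟨(b (b (a (a (a (c (a (l 16768072) (l 16767312)) (a (l 16768304) (l 16767544))) (a (a (l 16766856) (a (l 16766552) (l 16766312))) (a (l 16765912) (l 16765376)))) (a (a (l 16764552) (l 16763448)) (l 16761768))) (a (a (l 16759496) (l 16757208)) (a (l 16754912) (l 16752600)))) (a (a (a (c (a (l 16768048) (l 16767288)) (a (l 16768272) (l 16767520))) (a (a (c (l 16766704) (l 16766936)) (a (l 16766504) (l 16766240))) (a (l 16765840) (l 16765296)))) (a (a (l 16764480) (l 16763368)) (l 16761688))) (a (a (l 16759416) (l 16757128)) (a (l 16754840) (l 16752528))))) (a (a (a (c (a (l 16768008) (l 16767248)) (a (l 16768232) (l 16767480))) (a (a (c (a (l 16766752) (l 16766528)) (a (l 16766984) (l 16766760))) (c (l 16766128) (l 16766368))) (a (l 16765720) (l 16765176)))) (a (a (l 16764360) (l 16763248)) (l 16756320))) (a (a (l 16759296) (l 16757016)) (a (l 16754728) (l 16755048))))), by decide +kernel⟩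

def k55_A00pm_102_s1 : ∃ t, chk3 f_A00pm_102_s1 t 44 1340 2 = true :=
  ⟨(b (a (b (a (a (l 16768232) (l 16767856)) (a (b (l 16767504) (c (l 16767320) (l 16767544))) (b (c (l 16766984) (l 16767208)) (a (l 16767104) (l 16766848))))) (b (a (a (l 16768160) (c (l 16767656) (l 16767872))) (a (a (l 16767440) (l 16767184)) (l 16766800))) (a (a (c (l 16767976) (l 16768184)) (a (l 16767760) (l 16767504))) (l 16769480)))) (b (a (a (c (l 16766416) (l 16766656)) (l 16766008)) (l 16765200)) (a (l 16768520) (l 16764816)))) (b (a (a (b (a (l 16767928) (l 16767416)) (l 16767400)) (l 16769096)) (a (l 16765408) (a (l 16764592) (l 16764048)))) (a (a (b (b (l 16767104) (c (l 16766744) (l 16766992))) (l 16766744)) (b (b (l 16766056) (c (a (l 16765936) (l 16765400)) (l 16765944))) (c (l 16765536) (l 16765808)))) (a (b (b (c (l 16764832) (l 16765112)) (c (a (l 16764856) (a (l 16764448) (l 16764168))) (l 16764872))) (c (l 16764448) (l 16764736))) (a (b (b (l 16764160) (c (a (l 16763896) (l 16763624)) (l 16764056))) (l 16763776))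 (b (b (l 16763616) (c (c (a (l 16763272) (l 16762992)) (l 16763288)) (l 16763504))) (l 16763232))))))), by decide +kernel⟩

def k56_A00pm_102_s1 : ∃ t, chk3 f_A00pm_102_s1 t 45 2680 2 = true :=
  ⟨(a (a (l 16763904) (l 16762792)) (a (l 16759048) (a (l 16760832) (l 16760264)))), by decide +kernel⟩

def k57_A00pm_102_s1 : ∃ t, chk3 f_A00pm_102_s1 t 90 2681 2 = true :=
  ⟨(b (a (a (l 16763496) (l 16762944)) (a (l 16762392) (l 16761832))) (b (b (a (c (l 16762640) (l 16762928)) (a (l 16761960) (l 16761400))) (a (a (c (b (b (b (l 16762736) (c (l 16762560) (l 16762712))) (l 16762568)) (l 16762560)) (l 16762960)) (c (b (b (b (l 16762184) (b (l 16762128) (l 16762056))) (l 16762016)) (l 16762008)) (l 16762408))) (a (c (b (b (b (l 16761632) (c (b (l 16761496) (l 16761432)) (l 16761608))) (l 16761464)) (l 16761456)) (l 16761848)) (c (b (b (b (l 16761088) (b (l 16761024) (a (l 16761096) (l 16760824)))) (l 16760912)) (l 16760904)) (b (l 16761304) (l 16761200)))))) (a (a (l 16762680) (l 16762128)) (c (a (l 16761432)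 (l 16760880)) (l 16761448))))), by decide +kernel⟩

def k58_A00pm_102_s1 : ∃ t, chk3 f_A00pm_102_s1 t 91 2681 2 = true :=
  ⟨(b (a (c (b (l 16761032) (l 16760744)) (l 16761120)) (c (b (l 16759920) (l 16759632)) (l 16759992))) (c (b (b (a (a (l 16760712) (l 16760160)) (a (l 16759608) (l 16759056))) (a (a (b (b (b (l 16760536) (c (b (l 16760400) (b (l 16760352) (l 16760312))) (l 16760512))) (l 16760368)) (l 16760360)) (b (b (b (l 16759984) (c (b (l 16759856) (b (l 16759808) (l 16759768))) (l 16759960))) (l 16759816)) (l 16759808))) (c (c (a (b (b (b (l 16759336) (b (l 16759272) (b (l 16759224) (l 16759192)))) (l 16759168)) (l 16759160)) (b (b (b (l 16758792) (b (l 16758736) (b (l 16758688) (l 16758648)))) (l 16758624)) (l 16758616))) (a (b (b (b (l 16759400) (b (l 16759344) (l 16759280))) (l 16759240)) (l 16759232)) (b (b (b (l 16758856) (b (l 16758800) (l 16758736))) (l 16758696)) (l 16758688)))) (a (b (b (b (l 16759504) (b (l 16759448) (l 16759384))) (l 16759344)) (l 16759336)) (b (b (b (l 16758952)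 (b (l 16758896) (l 16758832))) (l 16758792)) (l 16758784)))))) (a (a (l 16760336) (l 16759784)) (a (l 16759240) (c (l 16758624) (l 16758752))))) (b (b (a (l 16760704) (l 16759576)) (a (a (a (l 16760880) (l 16760600)) (a (l 16760320) (l 16760040))) (b (b (b (l 16759416) (a (l 16759600) (l 16759040))) (a (l 16759536) (l 16758976))) (a (l 16759528) (l 16758968))))) (a (l 16760336) (a (l 16759496) (l 16758936)))))), by decide +kernel⟩

def k59_A00pm_102_s1 : ∃ t, chk3 f_A00pm_102_s1 t 46 2680 2 = true :=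
  ⟨(a (c (a (l 16759312) (l 16755576)) (l 16758936)) (c (c (l 16756504) (l 16756560)) (l 16756624))), by decide +kernel⟩

def k60_A00pm_102_s1 : ∃ t, chk3 f_A00pm_102_s1 t 46 2681 2 = true :=
  ⟨(a (b (a (b (l 16756296) (b (l 16756104) (l 16758568))) (b (l 16757792) (l 16757520))) (a (b (b (b (l 16758424) (c (l 16758184) (a (l 16758680) (l 16758112)))) (b (b (c (b (l 16758072) (c (b (l 16757952) (a (a (a (l 16758368) (l 16758232)) (b (l 16758040) (l 16758008))) (l 16757624))) (b (l 16758072) (l 16758008)))) (b (a (l 16758568) (l 16758008)) (c (l 16758144) (a (l 16758536) (l 16757968))))) (c (a (l 16758184) (l 16757640)) (l 16758136))) (c (a (l 16758176) (l 16757632)) (l 16758128)))) (c (a (l 16758144) (l 16757600)) (l 16758096))) (a (b (b (l 16757512) (c (b (c (b (b (l 16757200) (b (l 16757144) (l 16757080))) (l 16757048)) (l 16757240)) (l 16757088)) (b (l 16757384) (l 16757288)))) (c (l 16757056) (l 16757256))) (b (b (l 16756960) (c (b (c (b (b (l 16756664) (b (l 16756624) (l 16756576))) (l 16756552))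 (l 16756696)) (l 16756568)) (l 16756816))) (c (l 16756536) (l 16756696)))))) (b (c (a (l 16756448) (l 16755352)) (a (l 16756576) (l 16755432))) (b (b (a (a (l 16756400) (l 16755848)) (a (l 16755296) (l 16754760))) (c (a (a (b (c (b (b (l 16756160) (b (l 16756120) (l 16756072))) (l 16756048)) (l 16756160)) (l 16756056)) (b (c (b (b (l 16755648) (a (b (l 16755736) (l 16755696)) (l 16755456))) (l 16755536)) (l 16755640)) (l 16755544))) (a (b (b (c (b (l 16755144) (b (l 16755104) (l 16755064))) (l 16755112)) (l 16755032)) (l 16755024)) (b (b (b (l 16754632) (c (l 16754568) (l 16754560))) (l 16754520)) (l 16754504)))) (a (a (l 16756248) (l 16755688)) (a (l 16755136) (l 16754576))))) (a (c (a (l 16756016) (l 16755504)) (l 16755848)) (c (a (l 16754992) (l 16754472)) (l 16754744)))))), by decide +kernel⟩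

def k61_A00pm_102_s1 : ∃ t, chk3 f_A00pm_102_s1 t 47 1340 2 = true :=
  ⟨(b (a (c (a (l 16754864) (l 16753760)) (l 16754296)) (c (l 16754760) (l 16751944))) (b (c (a (a (l 16754288) (l 16753224)) (a (l 16752152) (l 16751072))) (a (a (l 16754280) (l 16753136)) (l 16754008))) (a (a (b (b (c (l 16753968) (l 16753928)) (c (c (a (a (l 16754192) (l 16753936)) (l 16753552)) (a (b (l 16754048) (l 16753976)) (l 16753512))) (a (l 16754016) (l 16753456)))) (a (l 16753928) (l 16753384))) (c (b (b (l 16752912) (a (a (l 16753136) (l 16752872)) (l 16752480))) (l 16752640)) (b (b (l 16752792) (l 16752608)) (l 16752496)))) (a (a (b (b (l 16752016) (l 16754464)) (l 16751736)) (b (b (l 16751464) (l 16751288)) (l 16751184))) (b (b (l 16750624) (c (l 16750608) (l 16750296))) (l 16752968)))))), by decide +kernel⟩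

def k62_A00pm_102_s1 : ∃ t, chk3 f_A00pm_102_s1 t 11 2682 2 = true :=
  ⟨(b (a (a (a (a (l 16766672) (c (l 16765472) (l 16765736))) (c (a (l 16764384) (l 16763288)) (a (l 16764664) (l 16763584)))) (a (a (c (l 16762192) (l 16762480)) (a (l 16761512) (l 16760960))) (a (c (c (l 16759920) (l 16760064)) (l 16760264)) (c (a (l 16759168) (l 16758624)) (l 16759144))))) (c (a (a (a (l 16757808) (a (l 16756992) (l 16756448))) (a (l 16755680) (l 16754640))) (a (a (a (l 16753864) (l 16753344)) (l 16752552)) (a (l 16751496) (l 16750424)))) (a (a (a (l 16758024) (l 16756904)) (a (l 16755776) (l 16754664))) (a (a (l 16753544) (a (l 16752696) (l 16752128))) (a (l 16751272) (l 16750112)))))) (b (a (a (a (a (l 16766600) (l 16765536)) (a (l 16764464) (l 16763368))) (a (a (l 16762272) (a (l 16761448) (l 16760896))) (a (c (l 16759928) (l 16760192)) (l 16758952)))) (a (a (a (l 16757848) (l 16756744)) (a (l 16755640) (l 16754568))) (a (a (l 16753488) (l 16752400)) (a (c (l 16751408) (l 16751184)) (l 16750176))))) (b (a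 (a (a (a (l 16766560) (l 16765504)) (a (l 16764424) (l 16763336))) (a (a (l 16762240) (l 16761136)) (a (l 16760032) (a (l 16759200) (l 16758648))))) (a (a (a (l 16757816) (l 16756704)) (a (l 16755600) (l 16754528))) (a (a (l 16753448) (l 16752352)) (c (l 16750824) (l 16750568))))) (a (a (a (a (l 16766536) (l 16765480)) (a (l 16764400) (l 16763312))) (a (a (l 16762216) (l 16761112)) (a (l 16760000) (a (l 16759176) (l 16758616))))) (a (a (a (l 16757792) (l 16756680)) (a (l 16755576) (l 16754496))) (a (c (l 16752920) (l 16755448)) (c (l 16750800) (l 16750536)))))))), by decide +kernel⟩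

def k63_A00pm_102_s1 : ∃ t, chk3 f_A00pm_102_s1 t 11 2683 2 = true :=
  ⟨(a (a (a (a (l 16766416) (l 16765360)) (a (l 16764280) (l 16763192))) (a (a (l 16762096) (l 16760992)) (a (l 16759880) (a (l 16759048) (l 16758496))))) (a (a (a (l 16757664) (l 16756552)) (a (l 16755448) (l 16754352))) (a (c (l 16752768) (l 16755312)) (c (l 16750648) (l 16750400))))), by decide +kernel⟩

def k64_A00pm_102_s1 : ∃ t, chk3 f_A00pm_102_s1 t 11 671 2 = true :=
  ⟨(a (a (a (a (l 16765856) (l 16764808)) (a (l 16763736) (c (l 16762512) (l 16762784)))) (a (a (a (l 16761824) (l 16761272)) (a (l 16760720) (l 16760168))) (a (a (l 16759608) (l 16759056)) (l 16758216)))) (a (a (a (l 16757104) (l 16755984)) (a (l 16754872) (l 16753752))) (a (c (l 16752112) (l 16754704)) (c (l 16749984) (l 16752408))))), by decide +kernel⟩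

def k65_A00pm_102_s1 : ∃ t, chk3 f_A00pm_102_s1 t 11 82 3 = true :=
  ⟨(a (b (a (l 3) (b (a (l 3) (a (l 3) (b (l 3) (l 531778591)))) (b (b (a (l 3) (c (l 531515791) (l 531521167))) (a (c (l 531570831) (l 531490959)) (a (c (l 531506575) (l 531532175)) (l 531554447)))) (a (c (l 531458703) (l 531531407)) (c (b (l 531541903) (l 531556751)) (l 531583119)))))) (b (a (b (c (l 531063951) (l 531502223)) (l 530934415)) (a (b (l 531540367) (l 531590031)) (b (b (l 531597711) (l 531620239)) (l 532462991)))) (a (b (c (l 531416975) (l 532709007)) (c (c (l 532213903) (l 532608911)) (b (l 531687823) (l 531994767)))) (b (a (l 531108239) (b (l 531694735) (l 531722383))) (a (b (l 531956623) (l 532524831)) (b (l 532825231) (c (l 531730831) (l 531828623)))))))) (b (a (b (b (a (c (l 531293983) (l 531231119)) (l 531594895)) (a (l 531158927) (l 531355791))) (b (l 531356815) (l 531661455))) (b (a (l 531397663) (b (l 531574415) (l 531734671))) (a (l 531464079) (b (l 531494799) (l 531526287))))) (a (b (b (l 531432847) (a (l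 532255375) (l 532578703))) (a (b (l 532839455) (b (l 531807887) (l 531836191))) (b (b (l 531806607) (l 531831439)) (b (l 531857551) (l 532152607))))) (b (b (a (l 531782287) (l 531157903)) (a (l 532359311) (b (l 531855759) (l 531875471)))) (b (a (b (l 531853711) (l 531877007)) (b (l 532163871) (a (l 531908239) (l 531927695)))) (a (b (l 531900703) (c (l 531939471) (l 531911823))) (a (a (l 16762712) (l 16762160)) (a (l 16761592) (l 16761032))))))))), by decide +kernel⟩

def k66_A00pm_102_s1 : ∃ t, chk3 f_A00pm_102_s1 t 22 332 3 = true :=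
  ⟨(b (a (b (c (b (l 531509135) (l 531526543)) (b (l 531755663) (l 531776143))) (c (a (b (l 531488655) (l 531507855)) (l 531609631)) (b (a (l 531776143) (l 531819663)) (a (l 531798415) (l 531840655))))) (a (b (c (l 531674511) (l 531829391)) (c (l 531709583) (l 532136079))) (b (c (l 531762063) (l 531863183)) (c (l 532332687) (b (l 531889039) (l 531907471)))))) (a (b (c (b (a (l 531528335) (l 531639695)) (a (l 531549839) (l 531660687))) (b (a (l 531820943) (l 531861903)) (a (l 532112783) (l 531883919)))) (a (c (b (c (l 531496079) (l 531654799)) (c (l 531535503) (l 531691919))) (b (c (l 531801999) (l 531937423)) (a (l 531896719) (l 531913615)))) (c (b (l 531685263) (l 532186767)) (b (l 531908239) (c (l 531885455) (l 531985551)))))) (b (a (c (b (l 531737231) (l 531757455)) (b (l 531896719) (l 531917455))) (c (b (l 531822223) (l 531841679)) (b (l 531926159) (l 531945615)))) (a (c (b (l 531780239) (l 531807631)) (b (l 531939471) (l 532233103))) (c (b (l 531862927) (a (l 16767536) (l 16766664))) (b (a (l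 16768040) (l 16767128)) (a (l 16767760) (l 16766848)))))))), by decide +kernel⟩

def k67_A00pm_102_s1 : ∃ t, chk3 f_A00pm_102_s1 t 23 332 3 = true :=
  ⟨(a (b (b (c (a (l 531839119) (l 531906703)) (a (l 531892367) (l 531917711))) (c (a (l 531871375) (l 532205967)) (a (l 531925903) (l 532217231)))) (b (a (c (a (l 16766472) (l 16765552)) (a (l 16766616) (l 16765648))) (c (a (l 16764600) (l 16763632)) (a (l 16764656) (l 16763632)))) (a (c (a (l 16765912) (l 16764992)) (a (l 16766056) (l 16765096))) (c (a (l 16764056) (l 16763096)) (a (l 16764104) (l 16763088)))))) (a (a (b (b (l 531944479) (c (l 16763192) (l 16763136))) (b (c (l 16762640) (l 16762584)) (a (l 16762344) (l 16761824)))) (b (b (l 531963423) (c (l 16762168) (l 16762056))) (a (b (l 16761840) (l 16761304)) (b (l 16761304) (b (l 16760912) (a (l 16760768) (b (l 16760560) (l 16760384)))))))) (b (c (a (b (l 16761664) (l 16761120)) (b (l 16760584) (a (l 16760304) (b (l 16759888) (l 16759568))))) (a (b (l 16761496) (l 16760944)) (b (l 16760352)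 (a (l 16760080) (b (l 16759632) (l 16759304)))))) (a (b (a (c (l 16760848) (l 16760672)) (b (l 16760352) (a (l 16760208) (l 16759896)))) (a (b (a (l 16760496) (l 16760192)) (l 16759984)) (l 16759504))) (a (b (b (a (l 16759912) (l 16759584)) (l 16759384)) (l 16758824)) (l 16761144)))))), by decide +kernel⟩

def k68_A00pm_102_s1 : ∃ t, chk3 f_A00pm_102_s1 t 44 333 3 = true :=
  ⟨(b (b (a (c (b (a (l 531638159) (l 531686287)) (a (l 531694991) (l 531736207))) (b (a (l 531937423) (l 531950223)) (a (l 531982479) (l 531990671)))) (c (b (c (l 531694991) (l 531811727)) (c (l 531739023) (l 531851919))) (b (c (l 531918735) (l 532016271)) (c (l 531955343) (l 532049295))))) (a (c (b (a (l 531756687) (l 532059023)) (a (l 532090511) (l 532115743))) (a (b (l 532030351) (l 532079391)) (a (l 16771112) (l 16770736)))) (a (c (a (l 16770048) (l 16769656)) (a (l 16770352) (l 16769960))) (c (a (l 16769264) (l 16768872)) (a (l 16769560) (l 16769160)))))) (a (b (a (c (a (l 16771048) (l 16770680)) (a (l 16771344) (l 16770976)))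 (c (a (l 16770304) (l 16769928)) (a (l 16770608) (l 16770224)))) (a (c (a (l 16770584) (l 16770216)) (a (l 16770864) (l 16770496))) (c (a (l 16769840) (l 16769464)) (a (l 16770120) (l 16769744))))) (a (b (c (a (l 16769544) (l 16769160)) (a (l 16769840) (l 16769448))) (c (a (l 16769080) (l 16768696)) (a (l 16769360) (l 16768968)))) (b (c (a (l 16768768) (l 16768376)) (a (l 16769056) (l 16768648))) (c (a (l 16768304) (l 16767912)) (a (l 16768568) (l 16768160))))))), by decide +kernel⟩

def k69_A00pm_102_s1 : ∃ t, chk3 f_A00pm_102_s1 t 45 333 3 = true :=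
  ⟨(b (b (a (c (b (a (l 531819151) (l 16768104)) (a (l 531855503) (l 16767840))) (b (a (l 531986831) (l 16768360)) (a (l 16768936) (l 16768088)))) (c (b (a (l 16767256) (l 16766392)) (a (l 16766992) (l 16766128))) (b (a (l 16767480) (l 16766576)) (a (l 16767216) (l 16766312))))) (a (c (b (a (l 16768392) (l 16767576)) (a (l 16768144) (l 16767320))) (b (a (l 16768672) (l 16767824)) (a (l 16768408) (l 16767568)))) (c (b (a (l 16766736) (l 16765872)) (a (l 16766480) (l 16765624))) (b (a (l 16766952) (l 16766048)) (a (l 16766688) (l 16765792)))))) (b (a (c (b (a (l 16767896) (l 16767072)) (a (l 16767656) (l 16766840))) (b (a (l 16768160) (l 16767312)) (a (l 16767912) (l 16767064)))) (c (b (a (l 16766240) (l 16765376)) (a (l 16766000) (l 16765136))) (b (a (l 16766440) (l 16765536)) (a (l 16766192) (l 16765288))))) (a (a (c (a (l 16767512) (l 16767104)) (a (l 16767752) (l 16767336))) (c (a (l 16766696) (l 16766280)) (a (l 16766912) (l 16766480)))) (a (c (a (l 16765856) (l 16765432)) (a (l 16766040) (l 16765600)))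 (c (a (l 16765008) (l 16764568)) (a (l 16765152) (l 16764688))))))), by decide +kernel⟩

def k70_A00pm_102_s1 : ∃ t, chk3 f_A00pm_102_s1 t 92 333 3 = true :=
  ⟨(c (c (b (b (a (l 16765328) (l 16764432)) (a (l 16764824) (l 16763936))) (a (b (l 16764344) (b (l 16763992) (l 16763760))) (b (l 16763448) (a (b (l 16763328) (a (l 16763208) (l 16762968))) (b (l 16762872) (b (a (l 16762800) (l 16762544)) (l 16762488))))))) (a (b (b (l 16765416) (l 16764904)) (b (l 16764408) (b (l 16764048) (l 16763816)))) (a (b (l 16764472) (b (l 16763728) (b (l 16763368) (a (l 16763240) (l 16763000))))) (b (l 16764008) (b (l 16763264) (b (l 16762896) (b (a (l 16762832) (l 16762560)) (l 16762512)))))))) (b (b (a (b (l 16765648) (l 16765384)) (l 16764560)) (b (a (l 16765120) (l 16764168)) (a (l 16764864) (l 16763912)))) (a (b (a (l 16764720) (l 16764248)) (a (l 16764224) (l 16763752))) (a (b (l 16763776) (a (l 16763392) (b (l 16763280) (c (l 16763016) (l 16763016))))) (b (l 16763288) (b (a (l 16763032) (l 16762784)) (b (a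 (l 16762840) (b (l 16762616) (l 16762520))) (a (l 16762672) (l 16762360))))))))), by decide +kernel⟩

def k71_A00pm_102_s1 : ∃ t, chk3 f_A00pm_102_s1 t 93 333 3 = true :=
  ⟨(a (c (b (b (b (l 16763664) (l 16763408)) (a (l 16763272) (l 16762800))) (b (a (l 16762784) (b (l 16762432) (a (b (l 16762376) (l 16762232)) (b (l 16762120) (l 16761936))))) (a (b (a (b (l 16762600) (a (l 16762520) (l 16762384))) (b (a (l 16762416) (l 16762272)) (l 16762152))) (l 16761992)) (b (l 16761792) (l 16761384))))) (b (b (l 16763576) (b (l 16763184) (l 16762928))) (b (a (l 16762800) (b (l 16762424) (a (b (l 16762360) (l 16762216)) (b (l 16762096) (l 16761912))))) (a (b (a (b (l 16762608) (a (l 16762528) (l 16762384))) (b (a (l 16762408) (l 16762264)) (l 16762144))) (l 16761992)) (l 16761568))))) (a (b (b (b (l 16762952) (l 16762696)) (b (l 16762448) (l 16762192))) (b (c (b (a (l 16762064) (b (l 16761888) (l 16761720))) (l 16761576)) (b (a (l 16762032) (b (l 16761840) (l 16761672))) (l 16761536))) (l 16760952))) (b (b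 (b (l 16762456) (l 16762200)) (a (c (l 16761952) (l 16761904)) (b (l 16761824) (b (l 16761624) (l 16761456))))) (b (b (a (b (l 16761584) (l 16761384)) (l 16761160)) (l 16760928)) (l 16760320))))), by decide +kernel⟩

def k72_A00pm_102_s1 : ∃ t, chk3 f_A00pm_102_s1 t 47 333 3 = true :=
  ⟨(a (b (a (a (c (b (l 16761848) (b (a (l 16761592) (b (l 16761408) (l 16761248))) (l 16761112))) (b (l 16761784) (b (a (l 16761512) (l 16761232)) (l 16761024)))) (b (b (l 16761440) (a (l 16761304) (b (l 16761104) (l 16760944)))) (a (c (l 16760832) (l 16760728)) (l 16760456)))) (b (b (a (a (l 16761040) (b (l 16760840) (l 16760672))) (a (l 16760432) (l 16760104))) (a (a (l 16760712) (l 16760384)) (l 16759888))) (a (l 16759968) (l 16759312)))) (a (b (a (l 16760480) (l 16759832)) (l 16759352)) (b (l 16758856) (l 16758048)))) (b (a (c (b (l 16759176) (l 16758408)) (l 16761208)) (l 16762592)) (a (l 16762368) (l 16755792)))), by decide +kernel⟩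

def k73_A00pm_102_s1 : ∃ t, chk3 f_A00pm_102_s1 t 44 668 3 = true :=
  ⟨(b (a (b (c (a (l 16770072) (l 16769320)) (a (l 16770328) (l 16769584))) (c (a (l 16769856) (l 16769104)) (a (l 16770104) (l 16769352)))) (b (c (a (l 16768560) (l 16767776)) (a (l 16768808) (l 16768008))) (c (a (l 16768336) (l 16767552)) (a (l 16768576) (l 16767776))))) (a (c (a (a (l 16769712) (l 16769344)) (a (l 16768968) (l 16768584))) (a (a (l 16769936) (l 16769568)) (a (l 16769192) (l 16768808)))) (a (c (a (l 16768200) (l 16767808)) (a (l 16768424) (l 16768024))) (c (a (l 16767416) (l 16767016)) (a (l 16767624) (l 16767216)))))), by decide +kernel⟩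

def k74_A00pm_102_s1 : ∃ t, chk3 f_A00pm_102_s1 t 45 1336 3 = true :=
  ⟨(b (a (a (a (l 16767288) (l 16766880)) (a (l 16766464) (l 16766040))) (a (c (a (l 16765520) (l 16765088)) (a (l 16765680) (l 16765232))) (c (a (l 16764656) (l 16764224)) (a (l 16764784) (l 16764320))))) (a (a (a (l 16767064) (l 16766648)) (a (l 16766232) (a (l 16765912) (l 16765696)))) (a (c (a (l 16765288) (l 16764864)) (a (l 16765440) (l 16764992))) (a (a (l 16764600) (l 16764376)) (a (l 16764152) (c (l 16763880) (l 16763960))))))), by decide +kernel⟩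

def k75_A00pm_102_s1 : ∃ t, chk3 f_A00pm_102_s1 t 45 1337 3 = true :=
  ⟨(b (b (a (a (a (l 16766888) (l 16766472)) (a (l 16766056) (l 16765624))) (c (a (a (l 16765120) (l 16764688)) (a (l 16764256) (a (c (l 16763888) (l 16763944)) (b (a (l 16763784) (l 16763648)) (l 16763616))))) (a (a (l 16765256) (l 16764808)) (a (l 16764352) (a (c (l 16763984) (l 16764016)) (b (a (l 16763856) (l 16763728)) (l 16763696))))))) (a (a (a (l 16766768) (l 16766360)) (a (l 16765936) (c (l 16765424) (l 16765576)))) (c (a (a (l 16765000) (l 16764576)) (a (a (l 16764248) (b (l 16764056) (a (l 16764040) (l 16763904)))) (a (c (l 16763712) (l 16763768)) (l 16763448)))) (a (a (l 16765136) (l 16764688)) (a (a (l 16764344) (b (l 16764144) (a (l 16764136) (l 16763992)))) (a (a (l 16763904) (l 16763752)) (l 16763528))))))) (a (a (a (l 16766600) (c (l 16766088) (l 16766256))) (c (a (l 16765672) (l 16765256)) (a (l 16765832) (l 16765392)))) (c (a (a (a (l 16764936) (b (l 16764784) (l 16764664))) (b (a (l 16764568) (b (l 16764376)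 (a (l 16764368) (l 16764248)))) (a (b (a (l 16764528) (l 16764416)) (a (l 16764456) (l 16764312))) (b (l 16764216) (l 16764104))))) (a (b (a (b (a (l 16764208) (l 16764080)) (l 16764040)) (l 16763808)) (l 16763728)) (l 16763256))) (a (a (a (l 16765064) (b (l 16764904) (l 16764776))) (b (a (l 16764680) (b (l 16764480) (a (l 16764472) (l 16764352)))) (a (b (a (l 16764640) (l 16764520)) (a (l 16764560) (l 16764424))) (b (l 16764320) (l 16764208))))) (a (b (a (b (a (l 16764304) (l 16764176)) (l 16764136)) (l 16763904)) (l 16763824)) (l 16763344)))))), by decide +kernel⟩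

def k76_A00pm_102_s1 : ∃ t, chk3 f_A00pm_102_s1 t 23 668 3 = true :=
  ⟨(a (a (b (a (a (c (b (l 16763776) (b (a (l 16763712) (b (l 16763520) (a (l 16763512) (l 16763384)))) (a (b (l 16763624) (a (l 16763608) (l 16763464))) (l 16763304)))) (b (l 16763856) (b (a (l 16763792) (b (l 16763584) (a (l 16763576) (l 16763448)))) (a (b (l 16763688) (a (l 16763680) (l 16763536))) (l 16763368))))) (b (b (c (l 16763384) (l 16763440)) (a (c (l 16763376) (l 16763432)) (b (a (l 16763272) (l 16763136)) (a (l 16763184) (l 16763040))))) (a (b (a (b (c (l 16763336) (l 16763392)) (l 16763272)) (l 16763176)) (l 16763040)) (l 16762848)))) (a (b (a (b (a (b (l 16763160) (l 16763088)) (b (l 16763040) (l 16762944))) (l 16762864)) (c (l 16762640) (l 16762672))) (l 16762392)) (c (l 16761976) (l 16761992)))) (a (b (a (a (b (l 16763416) (l 16763200)) (l 16763016)) (l 16762560)) (a (l 16762712) (l 16762112))) (b (l 16764272) (l 16761200)))) (b (a (a (l 16761368) (l 16760744)) (l 16759800)) (c (l 16764800) (l 16764784)))) (a (a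 (l 16763320) (l 16756784)) (l 16754800))), by decide +kernel⟩

def k77_A00pm_102_s1 : ∃ t, chk3 f_A00pm_102_s1 t 11 1338 3 = true :=
  ⟨(a (a (a (a (a (l 16769368) (l 16769000)) (a (l 16768624) (l 16768240))) (a (c (a (l 16767752) (l 16767360)) (a (l 16767944) (l 16767552))) (c (a (l 16766968) (l 16766560)) (a (l 16767144) (l 16766736))))) (a (a (c (a (l 16766160) (b (l 16765864) (b (l 16765688) (a (b (l 16765704) (l 16765632)) (b (l 16765488) (l 16765384)))))) (a (l 16766320) (b (l 16766016) (b (l 16765832) (a (b (l 16765848) (l 16765776)) (b (l 16765624) (l 16765528))))))) (b (c (a (l 16765448) (b (l 16765080) (a (b (l 16765104) (a (l 16765088) (l 16764968))) (b (a (l 16764936) (l 16764816)) (l 16764768))))) (a (l 16765592) (b (l 16765208) (a (b (l 16765232) (a (l 16765224) (l 16765096))) (b (a (l 16765064) (l 16764936)) (l 16764896)))))) (b (b (a (a (l 16765480) (c (a (l 16765248) (l 16765128)) (c (l 16765288) (l 16765344)))) (a (c (l 16764928) (l 16765056)) (l 16764720))) (a (a (c (a (l 16765400)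 (l 16765280)) (l 16765472)) (c (l 16765088) (l 16765216))) (l 16764736))) (a (a (c (l 16765176) (l 16765312)) (l 16764976)) (l 16764552))))) (a (b (b (a (a (c (b (l 16764792) (a (l 16764776) (l 16764648))) (b (l 16764912) (a (l 16764896) (l 16764768)))) (b (a (c (l 16764616) (l 16764736)) (c (l 16764488) (l 16764600))) (l 16764504))) (a (l 16764272) (l 16763984))) (a (a (l 16764616) (l 16764328)) (l 16763896))) (a (l 16764104) (l 16763528))) (b (a (l 16763432) (l 16762848)) (l 16762656))))) (a (a (a (b (l 16761952) (l 16761464)) (l 16760488)) (a (l 16759256) (l 16758000))) (a (l 16756088) (l 16753488)))), by decide +kernel⟩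

def k78_A00pm_102_s1 : ∃ t, chk3 f_A00pm_102_s1 t 11 2678 3 = true :=
  ⟨(a (a (c (a (a (l 16768736) (l 16767984)) (a (a (l 16767408) (l 16767016)) (a (b (l 16766680) (c (l 16766512) (l 16766600))) (b (l 16766272) (b (a (l 16766288) (l 16766072)) (a (b (l 16766240) (l 16766184)) (l 16765952))))))) (a (a (l 16768920) (l 16768168)) (c (a (l 16767344) (b (l 16766600) (a (l 16766688) (b (l 16766296) (a (l 16766328) (l 16766072)))))) (a (l 16767424) (b (l 16766672) (a (l 16766752) (b (l 16766360) (a (l 16766400) (l 16766144))))))))) (a (b (a (b (a (a (l 16766080) (c (l 16765784) (l 16765928))) (c (l 16765400) (l 16765544))) (a (a (c (l 16765928) (l 16766080)) (c (l 16765680) (l 16765824))) (l 16765352))) (a (l 16764856) (l 16764296))) (a (a (b (a (l 16765896) (l 16765624)) (c (l 16765544) (l 16765704))) (b (l 16765216) (l 16765088))) (a (l 16764600) (l 16764032)))) (b (a (l 16763440) (l 16762272)) (a (l 16763176) (l 16762008))))) (a (a (a (l 16760952) (l 16759736)) (a (l 16758504) (l 16757256))) (a (l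 16755360) (l 16752776)))), by decide +kernel⟩

def k79_A00pm_102_s1 : ∃ t, chk3 f_A00pm_102_s1 t 11 2679 3 = true :=
  ⟨(b (a (a (c (c (a (a (l 16768520) (l 16767768)) (a (a (l 16767192) (b (l 16766824) (l 16766760))) (a (b (a (l 16766528) (l 16766296)) (l 16766296)) (l 16765832)))) (a (a (l 16768616) (l 16767864)) (a (a (l 16767280) (b (l 16766920) (l 16766848))) (a (b (a (l 16766616) (l 16766384)) (l 16766384)) (l 16765920))))) (a (a (l 16768744) (l 16767992)) (a (a (l 16767408) (b (l 16767040) (l 16766968))) (a (b (a (l 16766728) (l 16766504)) (l 16766504)) (l 16766040))))) (a (a (a (l 16765424) (l 16764880)) (l 16764040)) (a (l 16762896) (l 16761728)))) (a (a (a (l 16760536) (l 16759328)) (l 16752240)) (a (l 16754968) (l 16752392)))) (b (b (a (a (a (c (a (l 16768496) (l 16767744)) (a (l 16768672) (l 16767912))) (a (a (l 16767256) (a (l 16766952) (l 16766712))) (a (l 16766320) (l 16765792)))) (a (a (l 16764976) (l 16763864)) (l 16762136))) (a (a (l 16759752) (l 16752056)) (a (l 16754792) (l 16752224))))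 (a (a (a (c (a (l 16768472) (l 16767720)) (a (l 16768640) (l 16767888))) (c (a (a (l 16767136) (l 16766688)) (l 16765896)) (a (a (l 16767296) (l 16766848)) (l 16766064)))) (a (a (l 16764904) (l 16763784)) (l 16762056))) (a (a (l 16759680) (l 16757232)) (a (l 16754720) (l 16752160))))) (a (a (a (c (a (l 16768424) (l 16767672)) (a (l 16768600) (l 16767840))) (a (a (c (a (l 16767184) (l 16766960)) (l 16767232)) (l 16766664)) (l 16765872))) (a (a (l 16764784) (l 16763672)) (l 16761944))) (a (a (l 16759568) (l 16757120)) (a (l 16754616) (l 16752056)))))), by decide +kernel⟩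

def k80_A00pm_102_s1 : ∃ t, chk3 f_A00pm_102_s1 t 22 1340 3 = true :=
  ⟨(a (b (a (a (a (b (l 16768616) (b (l 16768528) (c (l 16768368) (l 16768528)))) (b (l 16768240) (b (c (l 16768056) (l 16768224)) (c (l 16767928) (l 16768096))))) (a (b (b (l 16767896) (c (l 16767736) (l 16767904))) (b (c (l 16767616) (l 16767784)) (l 16767528))) (b (b (c (l 16767408) (l 16767576)) (c (l 16767288) (l 16767456))) (l 16767112)))) (a (b (a (c (l 16766856) (l 16767032)) (l 16766432)) (l 16766344)) (b (l 16765632) (l 16765280)))) (a (b (b (a (a (l 16768304) (l 16767816)) (l 16767072)) (a (l 16767816) (l 16766816))) (a (b (b (l 16767552) (l 16767336)) (l 16767208)) (b (b (l 16766536) (l 16766312)) (l 16766184)))) (b (a (l 16765888) (l 16764816)) (a (b (b (l 16765488) (c (l 16765136) (l 16765376))) (l 16765128)) (b (b (l 16764408) (c (l 16764048) (l 16764296))) (l 16764048)))))) (b (a (a (l 16764352) (l 16763232)) (a (l 16762088) (l 16760920))) (a (b (a (l 16763720) (l 16762592)) (a (a (b (b (l 16763584) (l 16763352))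 (l 16763224)) (b (b (l 16763032) (l 16762800)) (l 16762672))) (a (b (b (l 16762472) (l 16762240)) (l 16762112)) (b (b (l 16761904) (l 16761672)) (l 16761544))))) (a (b (l 16761448) (b (b (l 16761048) (a (b (l 16761112) (l 16761008)) (a (l 16760672) (l 16760384)))) (l 16760688))) (b (l 16760288) (b (b (l 16757264) (a (a (l 16760096) (l 16759808)) (a (l 16759520) (l 16759224)))) (a (l 16759832) (l 16759248)))))))), by decide +kernel⟩

def k81_A00pm_102_s1 : ∃ t, chk3 f_A00pm_102_s1 t 23 1340 3 = true :=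
  ⟨(a (b (a (a (l 16759736) (l 16758536)) (b (l 16756880) (l 16756536))) (a (b (a (l 16756488) (l 16757912)) (b (b (a (b (l 16758792) (l 16756040)) (l 16757528)) (b (b (b (a (a (l 16758856) (l 16758272)) (l 16757384)) (a (a (l 16758768) (a (l 16758328) (l 16758040))) (b (l 16757336) (l 16757280)))) (a (a (l 16758712) (l 16758128)) (l 16757240))) (a (a (l 16758704) (l 16758112)) (l 16757232)))) (a (a (l 16758664) (l 16758080)) (l 16757200)))) (b (a (l 16756704) (l 16755488)) (a (b (b (l 16756336) (c (l 16756080) (l 16756160))) (l 16756008)) (b (b (l 16755120) (a (l 16755224) (l 16754624))) (c (l 16754784) (l 16754824))))))) (b (a (c (l 16754248) (l 16754160)) (a (l 16752312) (l 16751032))) (a (b (a (l 16754256) (l 16753016)) (b (b (a (l 16753904) (l 16752656)) (a (a (l 16754016) (l 16753392)) (a (l 16752760) (l 16752128)))) (a (c (l 16753592) (l 16753584)) (l 16752328)))) (a (b (l 16751752) (b (b (l 16751376) (a (l 16751488) (l 16750848))) (l 16751056))) (b (l 16750440) (b (a (b (l 16750400) (l 16750200))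 (a (l 16749824) (l 16749496))) (l 16749760))))))), by decide +kernel⟩

def k82_A00pm_102_s1 : ∃ t, chk3 f_A00pm_102_s1 t 11 5364 3 = true :=
  ⟨(a (a (a (a (l 16767128) (l 16766104)) (a (l 16765056) (l 16763976))) (a (a (l 16762872) (l 16761752)) (a (c (l 16760504) (l 16760712)) (c (l 16759360) (l 16759552))))) (a (a (a (c (l 16758208) (l 16758368)) (c (l 16757056) (a (l 16757472) (l 16756872)))) (a (c (l 16755880) (l 16755960)) (c (l 16754704) (c (l 16754736) (l 16754744))))) (a (a (a (l 16753816) (l 16753192)) (a (l 16752568) (l 16751936))) (a (c (a (l 16751376) (l 16750760)) (l 16750888)) (c (l 16749816) (a (l 16749888) (l 16749208))))))), by decide +kernel⟩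

def k83_A00pm_102_s1 : ∃ t, chk3 f_A00pm_102_s1 t 11 10730 3 = true :=
  ⟨(a (a (a (a (l 16767048) (l 16766024)) (a (l 16764976) (l 16763896))) (a (a (l 16762792) (l 16761672)) (a (c (l 16760424) (l 16760632)) (c (l 16759288) (l 16759472))))) (a (a (a (a (l 16758512) (l 16757920)) (c (a (l 16757264) (l 16756680)) (c (l 16757064) (l 16757112)))) (c (a (l 16755808) (l 16754624)) (a (a (l 16756184) (l 16755576)) (c (l 16754648) (l 16754656))))) (a (c (a (l 16753432) (l 16752224)) (a (a (l 16753720) (l 16753096)) (a (l 16752456) (l 16751808)))) (c (a (l 16750992) (l 16749736)) (a (c (l 16750856) (l 16750776)) (a (l 16749808) (l 16749136))))))), by decide +kernel⟩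

def k84_A00pm_102_s1 : ∃ t, chk3 f_A00pm_102_s1 t 11 10731 3 = true :=
  ⟨(b (a (a (a (a (l 16767008) (l 16765984)) (a (l 16764936) (l 16763856))) (a (a (l 16762752) (l 16761632)) (c (a (l 16760392) (l 16759248)) (a (l 16760592) (l 16759432))))) (a (a (c (a (l 16758096) (a (l 16757224) (l 16756640))) (a (c (l 16758216) (l 16758280)) (a (l 16757352) (l 16756744)))) (c (a (l 16755768) (l 16754584)) (a (a (l 16756144) (l 16755528)) (a (l 16754920) (l 16754304))))) (c (a (a (l 16753392) (l 16752184)) (a (l 16750952) (l 16749696))) (a (a (a (l 16753680) (l 16753056)) (a (l 16752424) (l 16751768))) (a (c (l 16750816) (c (l 16750752) (l 16750712))) (a (l 16749768) (l 16749096))))))) (a (a (a (a (l 16766984) (l 16765960)) (a (l 16764912) (l 16763832))) (a (a (l 16762728) (l 16761608)) (c (a (l 16760360) (l 16759224)) (a (l 16760568) (l 16759400))))) (a (a (a (a (l 16758440) (l 16757856)) (a (a (l 16757416) (l 16757120)) (a (l 16756824) (l 16756520)))) (c (a (l 16755736) (l 16754560)) (a (a (l 16756112)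 (l 16755504)) (c (l 16754576) (a (l 16754896) (l 16754272)))))) (c (a (a (l 16753368) (l 16752152)) (a (l 16750920) (l 16749672))) (a (a (a (l 16753648) (l 16753024)) (a (l 16752400) (l 16751744))) (a (c (l 16750792) (c (l 16750728) (l 16750688))) (c (l 16749472) (a (l 16749688) (l 16749000))))))))), by decide +kernel⟩

def k85_A00pm_102_s1 : ∃ t, chk3 f_A00pm_102_s1 t 11 2683 3 = true :=
  ⟨(a (a (a (a (l 16766848) (l 16765832)) (a (l 16764784) (l 16763704))) (a (a (l 16762608) (l 16761480)) (c (a (l 16760240) (l 16759096)) (a (l 16760448) (l 16759280))))) (a (a (a (a (l 16758320) (l 16757728)) (a (a (l 16757288) (l 16756992)) (a (l 16756696) (l 16756400)))) (c (a (l 16755608) (l 16754432)) (a (a (l 16755992) (l 16755376)) (c (l 16754448) (a (l 16754768) (l 16754144)))))) (c (a (a (l 16753240) (l 16752032)) (a (l 16750800) (l 16749552))) (a (a (a (l 16753528) (l 16752904)) (a (l 16752272) (l 16751632))) (a (a (l 16750976) (l 16750304)) (c (l 16749360) (a (l 16749584) (l 16748896)))))))), by decide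 +kernel⟩

def k86_A00pm_102_s1 : ∃ t, chk3 f_A00pm_102_s1 t 11 671 3 = true :=
  ⟨(a (a (a (a (l 16766272) (l 16765264)) (a (l 16764216) (l 16763144))) (c (a (a (l 16761936) (l 16760816)) (a (l 16759688) (l 16758544))) (a (a (l 16762160) (l 16761032)) (a (l 16759888) (c (l 16758680) (l 16758760)))))) (a (a (a (c (l 16757392) (c (l 16757504) (l 16757568))) (a (c (l 16756520) (l 16756640)) (c (l 16755928) (l 16756040)))) (c (a (l 16755048) (l 16753864)) (a (a (c (l 16755408) (l 16755440)) (c (l 16754800) (l 16754824))) (c (l 16753888) (a (l 16754200) (l 16753576)))))) (c (a (a (l 16752672) (l 16751464)) (a (l 16750248) (l 16749000))) (a (a (a (a (l 16753112) (l 16752800)) (a (l 16752488) (l 16752176))) (c (l 16751408) (a (l 16751680) (l 16751032)))) (a (c (l 16750144) (a (l 16750392) (l 16749744))) (a (a (l 16749304) (l 16748984)) (l 16748472))))))), by decide +kernel⟩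

def k87_A00pm_102_s1 : ∃ t, chk3 f_A00pm_102_s1 t 4 21 1 = true :=
  ⟨(l 2), by decide +kernel⟩

def k88_A00pm_102_s1 : ∃ t, chk3 f_A00pm_102_s1 t 10 21 1 = true :=
  ⟨(a (b (b (b (b (a (l 2) (a (l 2) (a (l 2) (a (l 2) (l 16771352))))) (l 2)) (l 2)) (l 2)) (l 2)) (b (b (a (b (c (a (a (l 16775304) (l 16774616)) (a (l 16773864) (l 16773088))) (a (a (l 16775200) (l 16774576)) (a (l 16773896) (l 16773192)))) (a (a (c (l 16766544) (l 16766344)) (c (l 16765752) (l 16765632))) (c (a (l 16764904) (l 16764032)) (a (l 16764864) (l 16764080))))) (a (b (b (c (a (l 16773360) (l 16772592)) (a (l 16768280) (l 16767560))) (a (l 16771456) (c (l 16765408) (l 16765576)))) (a (l 16773752) (c (l 16772968) (l 16762608)))) (c (b (a (c (l 16765440) (l 16765552)) (a (l 16770032) (l 16769552))) (a (l 16772120) (l 16760736))) (b (a (l 16770976) (b (l 16765808) (l 16763864))) (a (l 16761792) (l 16760928)))))) (a (b (c (a (l 16773192) (l 16771304)) (a (l 16762440) (l 16760752))) (a (l 2) (c (l 16757288) (l 16757128)))) (a (b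 (c (a (l 16759448) (l 16758616)) (l 16769568)) (c (l 16755296) (l 16755296))) (b (c (a (l 16757776) (l 16756872)) (a (l 16757872) (l 16757000))) (c (a (l 16753960) (l 16753032)) (l 16753560)))))) (a (a (l 2) (a (l 2) (b (l 16772424) (l 2)))) (b (a (c (l 16749936) (l 16749816)) (c (a (l 16748416) (l 16768384)) (b (l 16749736) (l 16746016)))) (a (c (l 16743248) (l 16742904)) (c (l 16761792) (l 16740608))))))), by decide +kernel⟩

def k89_A00pm_102_s1 : ∃ t, chk3 f_A00pm_102_s1 t 44 21 1 = true :=
  ⟨(b (b (a (b (c (a (c (l 16768712) (l 16763648)) (c (l 16767672) (l 16762632))) (a (b (l 16764856) (l 16762936)) (a (l 16768408) (l 16767904)))) (c (a (l 16765016) (l 16764016)) (a (l 16760016) (l 16759056)))) (b (c (b (a (c (l 16762272) (l 16762512)) (c (l 16761184) (l 16761440))) (a (l 16760560) (l 16759480))) (b (a (l 16762832) (l 16764392)) (a (l 16760944) (l 16759888)))) (c (a (l 16762984) (l 16761920)) (c (l 16762704) (l 16762840))))) (b (c (a (c (l 16755416) (l 16755496)) (c (l 16753344) (l 16753480)))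 (a (l 16760872) (l 16758888))) (c (a (a (l 16752096) (l 16751136)) (l 16760088)) (a (l 16751704) (l 16749744))))) (b (b (a (c (l 16747792) (l 16747832)) (c (l 16745792) (l 16745856))) (a (c (l 16744040) (l 16744008)) (c (l 16741968) (l 16741968)))) (a (c (b (l 16740344) (l 16736768)) (l 16738400)) (c (b (l 16738216) (l 16734512)) (l 16736240))))), by decide +kernel⟩

def k90_A00pm_102_s1 : ∃ t, chk3 f_A00pm_102_s1 t 45 21 1 = true :=
  ⟨(b (b (a (c (b (b (a (c (l 16760080) (l 16760344)) (c (l 16758968) (l 16759232))) (a (l 16758384) (l 16757280))) (a (l 16760832) (l 16759712))) (b (b (a (c (l 16760576) (l 16760784)) (c (l 16759464) (l 16759664))) (a (l 16758808) (l 16757704))) (c (l 16760560) (l 16760696)))) (c (b (b (a (c (l 16757856) (l 16758112)) (a (l 16757144) (l 16756584))) (a (l 16756152) (l 16755016))) (a (c (l 16753216) (l 16753456)) (l 16757440))) (b (c (b (a (l 16758336) (l 16757192)) (l 16758528)) (a (b (l 16758520) (l 16756648)) (b (l 16759976) (l 16755488)))) (a (l 16758952) (l 16757800)))))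 (a (b (c (c (l 16751144) (l 16751320)) (l 16756760)) (c (l 16757912) (l 16747616))) (b (c (c (l 16748840) (l 16749064)) (a (l 16749832) (l 16748680))) (c (l 16755616) (l 16745352))))) (a (b (c (b (l 16743616) (l 16739816)) (b (l 16743720) (l 16739840))) (c (b (l 16736040) (l 16732264)) (l 16755000))) (b (c (b (l 16741304) (l 16737496)) (b (l 16741440) (l 16737544))) (c (l 16742304) (l 16731744))))), by decide +kernel⟩

def k91_A00pm_102_s1 : ∃ t, chk3 f_A00pm_102_s1 t 46 21 1 = true :=
  ⟨(b (b (b (a (c (a (c (l 16754688) (a (l 16760456) (l 16759880))) (b (l 16754608) (l 16752728))) (b (a (b (a (l 16756864) (l 16756272)) (l 16755648)) (c (l 16757480) (b (l 16755432) (l 16754504)))) (a (l 16756864) (c (l 16752992) (l 16753088))))) (a (b (c (l 16753472) (c (a (l 16753968) (l 16753376)) (c (l 16753728) (l 16756376)))) (c (l 16756824) (c (l 16751800) (l 16751864)))) (c (a (l 16756912) (l 16756344)) (b (c (l 16752480) (a (l 16755440) (l 16754816))) (c (l 16750592) (l 16750616)))))) (a (c (a (b (l 16751992)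 (l 16750088)) (b (l 16750832) (l 16748912))) (a (l 16756624) (b (l 16751144) (l 16749208)))) (c (a (b (l 16749664) (l 16747728)) (b (l 16748488) (l 16746544))) (a (b (l 16749928) (l 16747984)) (b (l 16748688) (l 16746744)))))) (b (a (c (a (l 16747208) (l 16746016)) (a (l 16747496) (l 16746288))) (c (a (l 16744816) (l 16743608)) (a (l 16745056) (l 16743800)))) (a (c (l 16753240) (l 16742968)) (c (l 16740304) (l 16740480))))) (b (c (a (b (l 16738896) (l 16735048)) (b (l 16736400) (l 16732512))) (a (b (l 16739040) (l 16735128)) (l 16745048))) (c (a (l 16739816) (l 16737224)) (a (l 16729288) (l 16726712))))), by decide +kernel⟩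

def k92_A00pm_102_s1 : ∃ t, chk3 f_A00pm_102_s1 t 47 21 1 = true :=
  ⟨(b (b (c (c (a (b (l 16754856) (l 16745640)) (a (l 16751152) (l 16750000))) (a (a (a (l 16753888) (l 16753296)) (l 16752400)) (b (l 16752576) (l 16743360)))) (b (c (a (a (b (l 16751272) (l 16749368)) (b (l 16750056) (l 16748136))) (a (b (l 16748824) (l 16746896)) (l 16751864))) (a (b (b (a (c (l 16751728) (l 16751704)) (l 16750448)) (a (l 16750776) (l 16749504))) (a (l 16749352) (l 16748064))) (a (c (l 16750392) (b (l 16748648) (l 16746720))) (c (l 16749104) (b (l 16747336) (l 16745392)))))) (a (c (c (l 16751080) (l 16751080)) (c (l 16751048) (l 16751000))) (a (a (l 16749464) (l 16748816)) (a (l 16748168) (l 16747512)))))) (b (a (c (a (l 16742384) (l 16741160)) (c (l 16741904) (l 16741824))) (c (l 16739304) (c (l 16739328) (l 16739152)))) (a (c (l 16737800) (l 16737904)) (c (l 16745752) (l 16735248))))) (a (c (b (b (l 16733848) (l 16729912)) (l 16734544)) (b (l 16742424) (l 16724024))) (c (b (c (l 16729088) (l 16729336)) (l 16731792))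 (b (b (l 16731224) (l 16727216)) (l 16721232))))), by decide +kernel⟩

def k93_A00pm_102_s1 : ∃ t, chk3 f_A00pm_102_s1 t 2 11 1 = true :=
  ⟨(a (l 2) (a (b (a (l 2) (a (l 2) (b (b (a (l 2) (c (l 16734240) (l 16733800))) (l 2)) (l 2)))) (l 2)) (b (a (a (b (b (a (c (l 16731624) (l 16731280)) (c (l 16729096) (l 16728832))) (a (c (l 16725176) (l 16724576)) (c (l 16722296) (l 16721816)))) (b (a (l 2) (c (l 16715984) (l 16715224))) (l 2))) (b (b (c (a (l 16726728) (l 16745280)) (a (l 16726488) (l 16724080))) (c (a (l 16719592) (l 16717024)) (a (l 16719176) (l 16716632)))) (c (b (a (l 16712888) (l 16710000)) (a (l 16706672) (l 16703408))) (b (l 16731792) (l 16725200))))) (b (a (b (a (b (l 16723664) (l 16719896)) (b (l 16721064) (l 16717264))) (c (a (l 16714400) (l 16711696)) (a (l 16714032) (l 16711368)))) (b (c (a (l 16716368) (l 16713504)) (a (l 16716216) (l 16713344))) (c (a (l 16708832) (l 16705856)) (a (l 16708536) (l 16705584))))) (b (a (c (a (l 16707224) (l 16704384)) (a (l 16706688) (l 16703880)))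 (c (a (l 16701464) (l 16698384)) (l 16720440))) (c (a (a (l 16700312) (l 16697312)) (a (l 16694248) (l 16691096))) (a (l 16719096) (a (l 16693624) (l 16690544))))))) (a (b (a (l 2) (a (l 2) (a (l 2) (b (l 16695848) (l 2))))) (l 2)) (a (a (b (c (b (l 16693824) (l 16687800)) (l 16731672)) (l 2)) (c (b (b (l 16690520) (l 16684136)) (b (l 16678208) (l 2))) (b (l 16728224) (l 16673816)))) (a (c (c (b (l 16684008) (l 16671632)) (b (l 16683784) (l 16671120))) (b (l 16724960) (l 16670016))) (c (b (c (l 16701448) (l 16680448)) (c (l 16667528) (l 16667208))) (b (l 16721640) (l 16666160))))))))), by decide +kernel⟩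

def k94_A00pm_102_s1 : ∃ t, chk3 f_A00pm_102_s1 t 2 3 1 = true :=
  ⟨(a (l 2) (b (a (l 2) (b (a (l 2) (b (b (b (a (l 2) (a (l 2) (a (l 2) (l 16656872)))) (l 2)) (l 2)) (l 2))) (l 2))) (l 2))), by decide +kernel⟩

def k95_A00pm_102_s1 : ∃ t, chk3 f_A00pm_102_s1 t 6 8 1 = true :=
  ⟨(l 3), by decide +kernel⟩

def k96_A00pm_102_s1 : ∃ t, chk3 f_A00pm_102_s1 t 12 18 1 = true :=
  ⟨(l 3), by decide +kernel⟩

def k97_A00pm_102_s1 : ∃ t, chk3 f_A00pm_102_s1 t 12 38 1 = true :=
  ⟨(l 3), by decide +kernel⟩

def k98_A00pm_102_s1 : ∃ t, chk3 f_A00pm_102_s1 t 24 39 1 = true :=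
  ⟨(l 3), by decide +kernel⟩

def k99_A00pm_102_s1 : ∃ t, chk3 f_A00pm_102_s1 t 50 39 1 = true :=
  ⟨(b (l 3) (a (b (l 3) (a (l 3) (a (l 3) (b (l 3) (b (l 3) (b (l 3) (c (b (l 532870287) (l 532865167)) (l 532526223)))))))) (b (l 3) (b (b (l 3) (a (l 3) (c (c (a (l 532916623) (l 532845199)) (l 532718735)) (c (l 532571023) (l 532439183))))) (a (b (a (a (l 3) (b (l 3) (b (l 3) (l 532716943)))) (c (b (a (l 3) (a (l 3) (b (l 3) (a (l 532900751) (l 532894095))))) (a (l 532893071) (a (l 532894095) (b (a (l 532896655) (l 532897423)) (l 532894863))))) (a (b (l 3) (l 532566415)) (b (a (l 3) (b (l 3) (l 532576655))) (a (l 532570767) (b (a (l 532574863) (l 532576655)) (l 532573583))))))) (c (a (b (l 532881807) (l 532872335)) (b (l 532885135) (l 532876431))) (a (b (l 532548751) (l 532539791)) (b (l 532561039) (l 532552591))))) (a (a (b (c (b (b (l 532866191) (l 532872591)) (b (b (l 532875663) (l 532876943)) (l 532876687))) (b (l 532555919) (b (l 532561039) (l 532561039)))) (c (b (l 532874895) (l 532870543)) (b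 (l 532558735) (l 532554383)))) (b (b (b (l 532672655) (l 532678287)) (b (l 532682639) (l 532684431))) (b (c (l 532846479) (l 532538511)) (l 532684175)))) (b (c (b (l 532784271) (l 532794511)) (b (l 532493199) (l 532500879))) (c (b (l 532799119) (l 532800911)) (b (l 532503951) (l 532504975)))))))))), by decide +kernel⟩

def k100_A00pm_102_s1 : ∃ t, chk3 f_A00pm_102_s1 t 51 39 1 = true :=
  ⟨(b (a (l 3) (a (l 3) (b (l 3) (b (l 3) (c (c (l 532177295) (l 532106895)) (l 532033167)))))) (b (c (a (b (l 3) (b (a (l 3) (c (l 532521871) (l 532403343))) (a (c (l 532682383) (l 532543887)) (l 532488847)))) (b (c (a (l 532353679) (l 532241039)) (l 532207503)) (c (b (l 532340623) (l 532367759)) (l 532256399)))) (c (a (b (l 3) (a (l 532409375) (l 532312975))) (b (l 532136079) (l 532176015))) (b (a (l 3) (l 532082575)) (a (a (l 532306063) (l 532226447)) (l 532114319))))) (b (c (a (b (a (c (l 532712591) (l 532570511)) (l 532515471)) (a (l 532934431) (l 532540047))) (b (l 532339087) (l 532361359))) (a (c (a (l 532723087)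 (l 532354447)) (a (l 532343183) (l 532260495))) (c (l 532212623) (l 532143759)))) (a (a (b (c (b (l 532684943) (l 532695695)) (b (l 532419983) (l 532428175))) (c (b (l 532702863) (l 532707471)) (b (l 532433295) (l 532436623)))) (b (c (l 532831375) (l 532330639)) (c (l 532579983) (l 532343439)))) (c (b (l 532650639) (l 532399759)) (b (l 532198543) (l 532211599))))))), by decide +kernel⟩

def k101_A00pm_102_s1 : ∃ t, chk3 f_A00pm_102_s1 t 26 18 1 = true :=
  ⟨(l 3), by decide +kernel⟩

def k102_A00pm_102_s1 : ∃ t, chk3 f_A00pm_102_s1 t 26 38 1 = true :=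
  ⟨(b (l 3) (b (a (l 3) (a (l 3) (a (l 3) (l 531512207)))) (a (l 3) (a (b (l 3) (c (l 531519631) (l 531619983))) (c (b (l 532284303) (a (c (l 531712143) (l 531504783)) (l 531504783))) (c (l 532920207) (l 532916367))))))), by decide +kernel⟩

def k103_A00pm_102_s1 : ∃ t, chk3 f_A00pm_102_s1 t 26 78 1 = true :=
  ⟨(a (b (a (l 3) (c (c (b (l 531671695) (l 531736719)) (l 531713167)) (l 532421263))) (c (a (b (a (l 3) (c (b (l 531903375) (a (l 531957647) (l 531913359))) (l 531888015))) (a (l 532044943) (c (b (l 531965071) (l 531993231)) (l 531934863)))) (b (c (l 531794063) (l 531779215)) (c (a (l 531888783) (l 531803279)) (l 531818127)))) (a (a (b (l 3) (l 531965327)) (b (c (l 531872655) (l 531873935)) (c (l 531908239) (l 531899535)))) (b (c (l 531781263) (l 531800463)) (c (l 531809935) (l 531820431)))))) (a (b (c (b (l 531566223) (l 531608207)) (l 531667855)) (b (c (l 531645839) (l 531692687)) (c (l 531679887) (l 531709071)))) (b (c (b (a (c (l 531480975) (l 531525263)) (l 531518351)) (a (a (l 531539599)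 (l 531525263)) (l 531531919))) (b (a (l 531615887) (l 531634575)) (l 532430735))) (b (c (a (a (l 531570063) (l 531550095)) (l 531544463)) (a (l 531632271) (l 531628431))) (a (c (l 531584911) (l 531644303)) (c (l 531558799) (l 16765224))))))), by decide +kernel⟩

def k104_A00pm_102_s1 : ∃ t, chk3 f_A00pm_102_s1 t 26 79 1 = true :=
  ⟨(a (b (a (c (a (b (l 532097679) (l 532144527)) (b (c (l 532032399) (l 531977359)) (l 532045455))) (a (b (l 531998095) (l 532028559)) (b (l 532198799) (l 531957647)))) (b (c (c (l 531890319) (l 531853967)) (c (l 531837071) (l 531840143))) (c (c (l 531931279) (l 531886991)) (l 532261151)))) (a (b (c (a (l 532186511) (l 532084111)) (a (l 532057231) (l 531983503))) (c (b (l 532161935) (l 532178319)) (b (l 532039055) (l 532051087)))) (b (c (a (l 531987343) (l 531895951)) (a (l 531914383) (l 531849615))) (c (a (l 532825231) (c (l 16761528) (l 16761368))) (a (l 531937423) (l 531870863)))))) (b (a (c (b (l 532248463) (c (l 531753871) (l 531733391))) (b (l 531725455) (l 531742607)))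 (a (c (b (l 531609743) (l 531901983)) (b (l 16762224) (l 531668879))) (c (b (l 531575183) (c (l 16757160) (l 16757168))) (b (l 531634575) (l 531911055))))) (b (a (c (c (l 531785103) (l 531758991)) (c (l 531754383) (l 531772047))) (a (c (c (l 16756976) (l 16756936)) (l 531951903)) (c (a (b (l 16755792) (l 16754504)) (b (l 16754616) (a (l 16753616) (l 16753024)))) (b (l 16755384) (a (l 16754664) (l 16753520)))))) (a (c (c (a (l 16759248) (l 16756888)) (a (l 16759120) (l 16756792))) (c (l 532043663) (l 531788943))) (c (a (b (a (l 16755640) (c (l 16754456) (l 16754416))) (a (c (b (l 16754744) (l 16754112)) (l 16754352)) (c (l 16753192) (l 16753144)))) (b (a (c (b (l 16753568) (l 16752928)) (l 16753224)) (l 16752024)) (l 16751336))) (a (b (a (l 16755704) (l 16754536)) (a (l 16754432) (l 16753256))) (a (b (l 16753376) (l 16752096)) (l 16751584)))))))), by decide +kernel⟩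

def k105_A00pm_102_s1 : ∃ t, chk3 f_A00pm_102_s1 t 27 18 1 = true :=
  ⟨(b (l 3) (b (l 3) (b (l 3) (a (l 3) (a (l 3) (c (l 532274319) (l 532142735))))))), by decide +kernel⟩

def k106_A00pm_102_s1 : ∃ t, chk3 f_A00pm_102_s1 t 27 38 1 = true :=
  ⟨(a (b (a (a (l 3) (b (l 3) (b (l 3) (l 531686031)))) (b (l 531628943) (b (l 531595919) (l 531590031)))) (b (b (a (a (l 531530639) (l 531557263)) (a (c (l 531557519) (l 531606671)) (l 531609743))) (a (c (l 531539855) (l 531574415)) (a (c (l 531585423) (l 531610767)) (l 531626639)))) (a (b (l 531587215) (c (l 531554447) (l 531639951))) (b (a (l 531627919) (l 531654287)) (a (l 532197263) (c (l 531640719) (l 531694479))))))) (b (c (b (a (l 531621519) (l 531944079)) (a (l 531608719) (b (l 531661711) (l 531667599)))) (b (a (l 531739279) (l 532187279)) (a (b (l 531688847) (l 531670927)) (b (l 531734927) (l 531717519))))) (a (b (b (c (l 531628687) (l 531664271)) (c (l 531656847) (l 531735951))) (c (b (l 531695503) (a (l 531675023) (l 531709327))) (b (a (l 531672975)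 (l 531696527)) (a (l 531717263) (l 532075407))))) (a (a (b (b (l 531681423) (l 531698575)) (b (l 532027679) (c (l 16757496) (l 532025999)))) (b (b (l 531694223) (l 531845775)) (b (c (l 16758864) (l 531726223)) (b (l 532037519) (a (l 16756128) (b (l 16755864) (a (l 16755352) (l 16755056)))))))) (b (b (c (l 531700367) (l 531455887)) (c (l 531728783) (c (l 531730063) (l 531726735)))) (b (a (c (l 531761039) (l 531737999)) (a (b (l 531753359) (a (l 531768207) (c (l 16755992) (l 16755856)))) (b (l 531760015) (b (c (l 16755832) (l 16755704)) (c (l 16755248) (a (l 16755256) (l 16754984))))))) (b (a (b (c (l 16756104) (l 16756008)) (a (l 16755832) (c (l 16755152) (c (l 16755200) (l 16755072))))) (b (a (c (l 16755200) (a (l 16755248) (l 16754976))) (l 16754672)) (c (l 16754240) (l 16754312)))) (a (a (b (c (l 16755088) (l 16755216)) (l 16754608)) (c (l 16754152) (l 16754416))) (l 16756048))))))))), by decide +kernel⟩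

def k107_A00pm_102_s1 : ∃ t, chk3 f_A00pm_102_s1 t 27 78 1 = true :=
  ⟨(a (b (c (a (b (l 531560591) (l 531566223)) (b (l 531755407) (a (l 16760944) (l 16758648)))) (a (b (l 531671951) (l 531663503)) (b (l 531991951) (l 532080271)))) (c (a (b (a (l 531560591) (l 531582095)) (a (l 531565967) (l 531584143))) (b (a (l 531605391) (b (l 16756656) (a (l 16755904) (l 16754744)))) (a (b (l 16756288) (a (l 16755528) (l 16754384))) (b (a (l 16754568) (l 16753416)) (a (l 16753240) (l 16752088)))))) (a (b (l 531655823) (a (l 16760392) (l 16758176))) (a (b (l 16758592) (a (l 16751256) (b (l 16756032) (l 16754704)))) (b (a (l 16756888) (l 16755752)) (b (a (l 16749656) (b (l 16754088) (l 16753424))) (a (l 16748328) (l 16752440)))))))) (a (b (a (a (b (l 531704207) (b (l 16757720) (l 16756392))) (b (a (l 531715215) (l 531990927)) (b (l 16756560) (c (l 16755080) (l 16755440))))) (b (b (l 531744399) (a (l 16756720) (c (l 16755384) (l 16755760)))) (a (b (c (b (l 16755568) (l 16754904)) (l 16755608)) (c (a (l 16754200)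 (l 16753608)) (l 16754272))) (b (c (b (l 16751760) (l 16753720)) (l 16754432)) (l 16752888))))) (a (b (a (b (c (l 16754912) (l 16755272)) (c (l 16753584) (l 16753936))) (b (c (l 16756368) (l 16754112)) (l 16752568))) (c (l 16756248) (l 16751384))) (b (c (l 16756560) (l 16751704)) (l 16754072)))) (b (a (c (b (a (b (l 16755520) (b (l 16754528) (l 16753864))) (b (a (l 16754632) (l 16754032)) (l 16753000))) (l 16751600)) (b (a (b (a (l 16756192) (l 16755608)) (a (l 16754872) (l 16754280))) (a (b (b (l 16755352) (l 16754688)) (l 16753688)) (l 16756376))) (l 16752000))) (b (c (l 16751856) (b (l 16752920) (l 16751592))) (l 16754624))) (a (c (l 16758112) (l 16748048)) (a (l 16746016) (l 16744824)))))), by decide +kernel⟩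

def k108_A00pm_102_s1 : ∃ t, chk3 f_A00pm_102_s1 t 27 79 1 = true :=
  ⟨(a (b (a (b (a (c (l 532108431) (l 531637135)) (b (l 531879055) (a (l 16757848) (c (l 16754000) (l 16754296))))) (b (c (a (l 16755504) (a (l 16753800) (l 16752672))) (a (l 16755744) (a (l 16754080) (l 16752960)))) (a (a (l 16757448) (c (b (l 16753936) (l 16753280)) (l 16753872))) (a (c (l 16752472) (l 16752752)) (l 16751440))))) (a (b (b (a (c (l 16754200) (l 16754504)) (c (l 16753056) (l 16753376))) (c (l 16757536) (a (l 16753176) (l 16752056)))) (c (l 16750304) (l 16761120))) (a (c (l 16755160) (l 16750272)) (c (l 16759256) (l 16749136))))) (a (a (c (b (b (a (b (l 16753776) (l 16753120)) (l 16752296)) (l 16751560)) (l 16749608)) (b (b (a (l 16753680) (l 16752552)) (l 16751816)) (l 16749864))) (c (c (l 16759088) (l 16759128)) (c (l 16759280) (l 16759552)))) (a (c (l 16756808) (l 16757168)) (b (l 16745512) (l 16742872))))) (a (c (b (b (l 16757672) (l 16744544)) (c (l 16740560) (l 16740664))) (b (l 16751528) (l 16741072))) (a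 (b (l 16747784) (a (l 16737896) (l 16736736))) (b (l 16740192) (l 16734992))))), by decide +kernel⟩

def k109_A00pm_102_s1 : ∃ t, chk3 f_A00pm_102_s1 t 28 8 1 = true :=
  ⟨(l 3), by decide +kernel⟩

def k110_A00pm_102_s1 : ∃ t, chk3 f_A00pm_102_s1 t 29 16 1 = true :=
  ⟨(l 3), by decide +kernel⟩

def k111_A00pm_102_s1 : ∃ t, chk3 f_A00pm_102_s1 t 29 34 1 = true :=
  ⟨(l 3), by decide +kernel⟩

def k112_A00pm_102_s1 : ∃ t, chk3 f_A00pm_102_s1 t 58 35 1 = true :=
  ⟨(l 3), by decide +kernel⟩

def k113_A00pm_102_s1 : ∃ t, chk3 f_A00pm_102_s1 t 59 70 1 = true :=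
  ⟨(b (l 3) (a (l 3) (a (l 3) (b (l 530889247) (l 530310287))))), by decide +kernel⟩

def k114_A00pm_102_s1 : ∃ t, chk3 f_A00pm_102_s1 t 59 142 1 = true :=
  ⟨(a (a (l 3) (b (l 3) (b (l 3) (l 530608015)))) (c (b (a (l 531605647) (l 531608463)) (c (a (l 531654543) (l 531661455)) (l 532082319))) (b (l 531943823) (a (l 532103823) (l 532100239))))), by decide +kernel⟩

def k115_A00pm_102_s1 : ∃ t, chk3 f_A00pm_102_s1 t 59 143 1 = true :=
  ⟨(b (a (a (l 3) (b (c (l 531843727) (l 531896463)) (c (b (l 531904399) (l 531678351)) (l 531564175)))) (c (a (b (l 531041823) (b (l 531371919) (l 531146383))) (c (b (l 531771791) (l 532121231)) (l 531982735))) (a (l 531447695) (l 531826319)))) (a (b (b (a (c (l 531374479) (l 531655823)) (c (c (l 531899535) (l 531982991)) (a (l 531751823) (l 531813007)))) (a (c (c (l 531666575) (l 531557519)) (l 531621775)) (c (c (l 531406479) (l 531952271)) (l 531747215)))) (a (c (b (a (c (l 531874959) (l 531763087)) (c (l 531940239) (l 531828111))) (c (c (a (b (l 531879055) (b (l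 531734415) (c (l 531672463) (l 531848847)))) (b (l 531943823) (l 531929743))) (a (l 531819919) (b (l 531892111) (l 531877263)))) (a (l 531865999) (l 531796111)))) (a (b (l 531554447) (c (l 531594895) (l 531436431))) (b (l 531618959) (l 531716639)))) (c (a (c (b (l 531719823) (c (l 531720591) (l 531678863))) (b (l 531890831) (l 531858575))) (b (c (l 531723919) (l 531951503)) (b (a (l 531704207) (l 531733903)) (c (l 531725199) (l 531910543))))) (b (l 531979407) (a (l 531644303) (l 531703951)))))) (c (c (b (a (c (a (l 531885455) (l 531890575)) (l 531973519)) (c (l 532166543) (l 531982991))) (c (c (a (a (l 531987599) (l 532094351)) (a (l 531966607) (l 531974031))) (a (a (l 531998095) (l 532003471)) (a (l 532009615) (l 532016271)))) (a (a (l 532066447) (l 532071055)) (a (l 532076431) (l 532082319))))) (a (b (l 532085903) (b (l 532037775) (a (l 531708303) (l 532032655)))) (b (l 532119695) (a (l 532103311) (l 532154767))))) (a (a (b (l 531451167) (l 532048783)) (b (l 531641743) (l 532103967))) (b (l 531385119)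 (c (b (l 532009103) (l 532240015)) (l 532099471))))))), by decide +kernel⟩

def k116_A00pm_102_s1 : ∃ t, chk3 f_A00pm_102_s1 t 30 16 1 = true :=
  ⟨(a (l 3) (b (l 3) (b (l 3) (a (l 3) (c (b (l 3) (c (a (l 3) (c (b (b (l 3) (a (l 3) (a (l 3) (a (l 531736719) (l 531741583))))) (a (a (b (l 3) (c (l 531661455) (l 531672975))) (b (a (l 3) (l 531700879)) (l 531676815))) (a (b (a (l 531705743) (l 531710607)) (l 531686287)) (b (c (l 531711887) (l 531722895)) (l 531695759))))) (b (a (l 3) (a (l 3) (b (l 3) (l 531761039)))) (a (a (b (l 3) (l 531691663)) (l 531978383)) (a (l 531719311) (l 531729039)))))) (a (l 3) (a (b (l 3) (a (l 531740815) (l 531750287))) (a (b (l 3) (l 531759503)) (b (l 531806351) (l 531768975))))))) (b (l 3) (a (l 3) (a (b (l 3) (l 532511119)) (b (c (l 532124815) (l 531921551)) (c (l 531823503) (l 531894415))))))))))), by decide +kernel⟩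

def k117_A00pm_102_s1 : ∃ t, chk3 f_A00pm_102_s1 t 62 32 1 = true :=
  ⟨(l 14), by decide +kernel⟩

def k118_A00pm_102_s1 : ∃ t, chk3 f_A00pm_102_s1 t 124 66 1 = true :=
  ⟨(a (l 3) (a (l 3) (l 14))), by decide +kernel⟩

def k119_A00pm_102_s1 : ∃ t, chk3 f_A00pm_102_s1 t 248 134 1 = true :=
  ⟨(c (c (a (a (l 3) (b (l 3) (b (l 3) (b (l 3) (a (l 531803791) (l 531808399)))))) (a (b (l 3) (a (c (b (l 3) (l 531808143)) (l 531836815)) (c (b (l 531834255) (l 531813007)) (l 531841679)))) (a (b (l 3) (b (a (l 531847567) (l 531849871)) (l 531827855))) (c (b (b (l 3) (b (l 3) (l 531860367))) (b (l 531843983) (l 531822735))) (b (b (l 3) (l 531883407)) (l 531851407)))))) (b (a (l 3) (a (l 3) (b (l 3) (l 531911311)))) (a (a (l 3) (c (l 531850895) (l 531874703))) (a (l 532140431) (c (l 531869839) (l 531893391)))))) (b (b (l 3) (a (l 3) (a (l 3) (l 531985551)))) (a (a (l 3) (l 531942543)) (a (l 531951759) (l 532229263))))), by decide +kernel⟩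

def k120_A00pm_102_s1 : ∃ t, chk3 f_A00pm_102_s1 t 498 134 1 = true :=
  ⟨(b (a (b (l 3) (c (c (b (a (l 531884687) (l 531889551)) (a (l 531874191) (l 531879055))) (l 531920783)) (l 531994767))) (b (c (c (c (a (c (l 531896719) (l 531904911)) (l 531905679)) (l 531919759)) (l 531949199)) (l 532019343)) (c (c (c (a (l 531879823) (l 531884687)) (l 531899535)) (l 531930255)) (l 532003983)))) (a (c (c (b (c (a (l 531848847) (l 531853711)) (l 531869839)) (a (l 531837327) (l 531842191))) (c (l 531879311) (l 531902863))) (c (l 531941775) (l 532000143))) (c (c (a (c (b (l 531858575) (l 531837327)) (l 531865743)) (b (l 531872655) (l 531851919))) (b (l 531911567) (l 531892879))) (c (l 531950991) (l 532009359))))), by decide +kernel⟩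

def k121_A00pm_102_s1 : ∃ t, chk3 f_A00pm_102_s1 t 499 268 1 = true :=
  ⟨(a (b (l 14) (c (c (c (a (l 531889551) (l 531894415)) (l 531909263)) (l 531939983)) (l 532013199))) (l 14)), by decide +kernel⟩

def k122_A00pm_102_s1 : ∃ t, chk3 f_A00pm_102_s1 t 499 269 16 = true :=
  ⟨(c (c (c (a (a (l 531847567) (l 531852431)) (a (l 531857295) (b (l 531874703) (b (l 16771560) (b (l 16771096) (a (l 16770912) (a (l 16770712) (b (l 16770664) (l 16770560))))))))) (a (a (l 531848591) (l 531853455)) (b (l 532140943) (b (l 531856783) (a (l 16771464) (b (l 16771096) (a (l 16770912) (a (l 16770712) (b (l 16770664) (l 16770560)))))))))) (c (a (a (l 531849615) (l 531854479)) (b (l 532141967) (b (l 531857807) (a (l 16771464) (b (l 16771096) (a (l 16770912) (a (l 16770712) (b (l 16770664) (l 16770560))))))))) (a (a (l 531850895) (l 531855759)) (b (l 531874703) (b (l 531859087) (a (l 16771472) (b (l 16771096) (a (l 16770912) (a (l 16770720) (b (l 16770664) (l 16770568))))))))))) (c (c (a (a (l 531851919) (l 531856783))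 (b (l 531875727) (b (l 531860111) (a (l 16771472) (b (l 16771096) (a (l 16770920) (a (l 16770720) (b (l 16770672) (l 16770568))))))))) (a (a (l 531853199) (l 531858063)) (b (l 531876751) (b (l 531861135) (a (l 16771472) (b (l 16771096) (a (l 16770920) (a (l 16770720) (b (l 16770672) (l 16770568)))))))))) (c (c (a (a (l 531853967) (l 531858831)) (b (l 531877775) (b (l 531862159) (a (l 16771472) (b (l 16771104) (a (l 16770920) (a (l 16770720) (b (l 16770672) (l 16770568))))))))) (a (a (l 531854479) (l 531859343)) (b (l 531878287) (b (l 531862671) (a (l 16771472) (b (l 16771104) (a (l 16770920) (a (l 16770720) (b (l 16770672) (l 16770568)))))))))) (c (a (a (l 531854991) (l 531860111)) (b (l 531878799) (b (l 531863183) (a (l 16771472) (b (l 16771104) (a (l 16770920) (a (l 16770720) (b (l 16770672) (l 16770568))))))))) (a (a (l 531855759) (l 531860623)) (b (l 531879311) (b (l 531863951) (a (l 16771472) (b (l 16771104) (a (l 16770920) (a (l 16770720) (b (l 16770672) (l 16770568))))))))))))), by decide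 +kernel⟩

def k123_A00pm_102_s1 : ∃ t, chk3 f_A00pm_102_s1 t 499 269 34 = true :=
  ⟨(c (c (c (a (a (l 531856271) (l 531861135)) (b (l 531879823) (b (l 531864463) (a (l 16771472) (b (l 16771104) (a (l 16770920) (a (l 16770728) (b (l 16770672) (l 16770576))))))))) (a (a (l 531856783) (l 531861647)) (b (l 531880591) (b (l 531864975) (a (l 16771480) (b (l 16771104) (a (l 16770920) (a (l 16770728) (b (l 16770672) (l 16770576)))))))))) (c (a (a (l 531857551) (l 531862415)) (b (l 531881103) (b (l 531865743) (a (l 16771480) (b (l 16771104) (a (l 16770920) (a (l 16770728) (b (l 16770680) (l 16770576))))))))) (a (a (l 531858063) (l 531862927)) (b (l 531881615) (b (l 531866255) (a (l 16771480) (b (l 16771104) (a (l 16770928) (a (l 16770728) (b (l 16770680) (l 16770576))))))))))) (c (c (a (a (l 531858575) (l 531863439)) (b (l 531882127) (b (l 531866767) (a (l 16771480) (b (l 16771104) (a (l 16770928) (a (l 16770728) (l 16770632)))))))) (a (a (l 531859087) (l 531864207)) (b (l 531882639) (b (l 531867279) (a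 (l 16771480) (b (l 16771104) (a (l 16770928) (a (l 16770728) (l 16770632))))))))) (a (a (l 531860111) (l 531864975)) (b (l 531883663) (b (l 531868303) (a (l 16771480) (b (l 16771112) (a (l 16770928) (a (l 16770728) (l 16770632)))))))))), by decide +kernel⟩

def k124_A00pm_102_s1 : ∃ t, chk3 f_A00pm_102_s1 t 499 269 35 = true :=
  ⟨(c (c (a (a (l 531861391) (l 531866255)) (b (l 531884687) (b (l 531869583) (a (l 16771480) (b (l 16771112) (a (l 16770928) (a (l 16770728) (l 16770640)))))))) (a (a (l 531862415) (l 531867279)) (b (l 531885967) (b (l 531870607) (a (l 16771480) (b (l 16771112) (a (l 16770928) (a (l 16770736) (l 16770640))))))))) (c (a (a (l 531863695) (l 531868559)) (b (l 531886991) (b (l 531871887) (a (l 16771488) (b (l 16771112) (a (l 16770936) (a (l 16770736) (l 16770640)))))))) (a (l 532134799) (b (l 531888271) (b (l 531873167) (a (l 16771488) (b (l 16771112) (a (l 16770936) (a (l 16770736) (l 16770640)))))))))), by decide +kernel⟩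

def k125_A00pm_102_s1 : ∃ t, chk3 f_A00pm_102_s1 t 499 269 9 = true :=
  ⟨(c (c (c (c (a (l 532136079) (b (l 531889551) (b (l 531874447) (a (l 16771488) (b (l 16771120) (a (l 16770936) (a (l 16770736) (l 16770640)))))))) (a (l 532137359) (b (l 531890575) (b (l 531875727) (a (l 16771488) (b (l 16771120) (a (l 16770936) (a (l 16770736) (l 16770648))))))))) (a (l 531870863) (b (l 531892367) (b (l 531877519) (a (l 16771488) (b (l 16771120) (a (l 16770936) (a (l 16770744) (l 16770648))))))))) (c (a (l 531873167) (b (l 531894927) (b (l 531880079) (a (l 16771496) (b (l 16771120) (a (l 16770944) (a (l 16770744) (l 16770648)))))))) (a (l 531875727) (b (l 531897487) (b (l 531882639) (a (l 16771496) (b (l 16771128) (a (l 16770944) (a (l 16770752) (l 16770656)))))))))) (c (c (a (l 531878287) (b (l 531899791) (b (l 531885199) (a (l 16771496) (b (l 16771128) (a (l 16770952) (a (l 16770752) (l 16770656)))))))) (a (l 531880847) (b (l 531902351) (b (l 16771864) (a (l 16771504) (b (l 16771136) (a (l 16770952) (l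 16770712)))))))) (a (l 531884943) (b (l 531906191) (b (l 531891599) (a (l 16771504) (b (l 16771136) (a (l 16770960) (l 16770720))))))))), by decide +kernel⟩

def k126_A00pm_102_s1 : ∃ t, chk3 f_A00pm_102_s1 t 499 269 5 = true :=
  ⟨(c (c (c (a (l 531890319) (b (l 531911567) (b (l 16771872) (a (l 16771512) (b (l 16771144) (a (l 16770968) (l 16770728))))))) (a (l 531895695) (b (l 531916687) (b (l 16771880) (a (l 16771520) (b (l 16771152) (a (l 16770968) (l 16770736)))))))) (a (l 531904143) (b (l 531924879) (b (l 16771888) (a (l 16771528) (b (l 16771160) (a (l 16770984) (l 16770744)))))))) (c (a (l 531915919) (b (l 531936399) (b (l 16771896) (a (l 16771544) (b (l 16771176) (a (l 16771000) (l 16770760))))))) (a (l 531927951) (b (l 531948175) (b (l 16771912) (a (l 16771560) (b (l 16771192) (a (l 16771016) (l 16770776))))))))), by decide +kernel⟩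

def k127_A00pm_102_s1 : ∃ t, chk3 f_A00pm_102_s1 t 499 269 3 = true :=
  ⟨(c (c (c (a (l 531940495) (b (l 531960463) (b (l 16771928) (a (l 16771576) (b (l 16771208) (l 16770912)))))) (b (l 532770191) (a (l 531947151) (b (l 16771944) (a (l 16771592) (b (l 16771224) (l 16770928))))))) (b (l 532790159) (a (l 531968143) (b (l 16771960) (a (l 16771616) (b (l 16771248) (l 16770952))))))) (c (a (l 532003215) (a (l 532010895) (b (l 532024719) (b (l 16771736) (b (l 16771288) (l 16770992)))))) (a (l 532034191) (b (l 532051599) (b (l 16772032) (a (l 16771680) (b (l 16771328) (l 16771032)))))))), by decide +kernel⟩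

def k128_A00pm_102_s1 : ∃ t, chk3 f_A00pm_102_s1 t 248 135 1 = true :=
  ⟨(c (c (a (c (b (c (a (b (a (l 531762575) (l 531767439)) (a (l 531741071) (l 531745935))) (b (a (l 531772303) (l 531777167)) (l 531752591))) (a (b (l 531774607) (l 531753615)) (b (l 531784335) (l 531763087)))) (a (b (l 531726991) (l 531705487)) (b (l 531736463) (l 531715215)))) (b (a (b (l 531790735) (l 531770511)) (b (l 531800463) (l 531779983))) (a (l 531738511) (l 531747983)))) (c (b (a (b (a (l 531786895) (l 531791759)) (l 532035983)) (b (a (l 531796623) (l 531801487)) (l 531777167))) (a (b (l 531746191) (l 531724687)) (b (l 531755919) (l 531734415)))) (b (a (b (l 531809935) (l 531789455)) (l 532076175)) (a (l 531757711) (l 531767183))))) (a (a (b (l 531815823) (l 531778191)) (b (l 531825039) (l 531787663))) (a (b (l 531834511) (l 531797135)) (b (l 531843983) (l 531806607))))) (a (b (c (l 532411279) (l 531938959)) (c (l 532110223) (l 531911823))) (a (b (l 531921551) (l 531891599)) (b (l 531930767) (l 531900815))))), by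 decide +kernel⟩

def k129_A00pm_102_s1 : ∃ t, chk3 f_A00pm_102_s1 t 498 270 1 = true :=
  ⟨(c (c (c (b (a (a (l 531806351) (l 531811215)) (a (l 531816079) (l 531820943))) (b (a (l 531792527) (l 531802255)) (a (l 531781775) (a (l 16771064) (b (l 16770696) (a (l 16770512) (l 16770240))))))) (b (a (l 531829135) (l 531838863)) (b (a (l 531814287) (l 531823759)) (a (l 531804047) (a (l 16771088) (b (l 16770720) (l 16770400))))))) (a (l 531853455) (a (l 531861391) (b (l 531877263) (b (l 16771240) (b (l 16770768) (l 16770456))))))) (a (l 531939983) (b (l 531958159) (b (l 531947407) (a (l 16771248) (c (l 16770680) (l 16770768))))))), by decide +kernel⟩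

def k130_A00pm_102_s1 : ∃ t, chk3 f_A00pm_102_s1 t 498 271 1 = true :=
  ⟨(b (a (a (c (l 531798927) (l 531917455)) (b (l 531863183) (c (c (c (l 16770320) (l 16770352)) (l 16770400)) (l 16770528)))) (c (c (a (b (c (b (l 16770584) (l 16770264)) (l 16770456)) (b (a (l 16770096) (a (b (l 16769976) (l 16769856)) (l 16769856))) (a (a (a (l 16769880) (l 16769832)) (a (l 16769800) (l 16769776))) (l 16769736)))) (b (b (a (l 16770208) (a (b (l 16770088) (l 16769976)) (l 16769976))) (a (a (b (l 16770032) (l 16769920)) (l 16769920)) (l 16769864))) (l 16769712))) (a (b (l 16770504) (b (a (l 16770168) (l 16769968)) (a (l 16769904) (l 16769808)))) (b (b (a (l 16770272) (l 16770088)) (a (l 16770032) (l 16769936))) (l 16769784)))) (b (b (a (l 16770784) (a (l 16770392) (l 16770216))) (a (l 16770472) (a (l 16770160) (l 16770056)))) (b (a (a (l 16770296) (l 16770096)) (l 16769968)) (a (a (l 16770040) (l 16769936)) (l 16769840)))))) (a (c (c (b (a (l 16770224) (b (a (l 16769984) (c (a (l 16769784) (l 16769712)) (a (l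 16769816) (l 16769744)))) (a (c (a (l 16769728) (l 16769648)) (a (l 16769760) (l 16769680))) (l 16769600)))) (a (b (a (l 16769872) (c (a (l 16769664) (l 16769584)) (l 16769664))) (a (c (a (l 16769608) (l 16769520)) (l 16769608)) (l 16769472))) (l 16769448))) (a (b (l 16770296) (b (a (l 16769952) (l 16769728)) (a (l 16769664) (l 16769552)))) (b (b (a (l 16770056) (l 16769848)) (a (l 16769784) (l 16769680))) (l 16769528)))) (a (a (b (l 16770552) (b (l 16770088) (l 16769808))) (b (l 16770296) (b (l 16769864) (l 16769688)))) (a (b (b (l 16770192) (l 16769928)) (l 16769688)) (b (b (l 16769984) (l 16769816)) (l 16769624))))) (c (a (b (c (l 16769584) (l 16769648)) (l 16769376)) (l 16769384)) (a (l 16769656) (l 16769536))))), by decide +kernel⟩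

def k131_A00pm_102_s1 : ∃ t, chk3 f_A00pm_102_s1 t 499 540 1 = true :=
  ⟨(c (a (a (c (l 531836047) (l 531881871)) (a (l 531861903) (b (l 531869583) (a (l 16770720) (b (l 16770744) (a (l 16770464) (b (l 16770480) (l 16770352)))))))) (a (b (a (l 531872143) (b (l 16770912) (c (a (l 16770632) (b (l 16770584) (l 16770464))) (l 16770648)))) (c (a (b (a (l 16770584) (b (l 16770528) (l 16770408))) (a (b (l 16770376) (l 16770296)) (l 16770296))) (b (b (a (l 16770432) (l 16770392)) (l 16770344)) (l 16770256))) (a (b (l 16770592) (l 16770392)) (l 16770392)))) (b (c (a (b (a (l 16770688) (b (l 16770632) (l 16770528))) (b (a (l 16770496) (l 16770456)) (l 16770408))) (b (b (l 16770544) (l 16770472)) (l 16770384))) (b (a (a (l 16770744) (l 16770648)) (l 16770568)) (l 16770480))) (c (l 16770232) (l 16770296))))) (a (b (l 531971727) (a (l 16771440) (b (l 16771080) (c (l 16770736) (l 16770816))))) (b (b (a (l 16771176) (a (l 16770808) (l 16770672))) (a (a (l 16771000) (l 16770752)) (l 16770584))) (a (c (b (a (l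 16770664) (l 16770520)) (l 16770432)) (l 16770616)) (l 16770392))))), by decide +kernel⟩

def k132_A00pm_102_s1 : ∃ t, chk3 f_A00pm_102_s1 t 499 541 1 = true :=
  ⟨(a (c (c (a (a (b (l 16770784) (a (b (l 16770376) (b (l 16770144) (l 16770040))) (b (l 16770248) (l 16770040)))) (b (b (l 16770680) (b (l 16770448) (c (l 16770280) (l 16770304)))) (b (a (b (l 16770200) (l 16770104)) (l 16770104)) (l 16770000)))) (b (a (b (b (l 16770496) (a (l 16770408) (l 16770288))) (a (b (l 16770256) (l 16770168)) (l 16770168))) (b (a (b (l 16770320) (l 16770232)) (l 16770232)) (l 16770128))) (l 16769976))) (b (a (b (l 16770872) (l 16770560)) (a (b (l 16770480) (l 16770272)) (b (l 16770328) (l 16770192)))) (a (b (a (l 16770376) (l 16770208)) (a (l 16770152) (l 16770064))) (l 16770040)))) (b (b (a (l 16770984) (a (l 16770600) (l 16770448))) (a (l 16770672) (a (l 16770384) (l 16770304)))) (b (a (a (l 16770496) (l 16770328)) (l 16770208)) (a (a (l 16770272) (l 16770184)) (l 16770088))))) (c (a (b (c (l 16770104) (l 16770168))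 (l 16769896)) (l 16769904)) (l 16770088))), by decide +kernel⟩

def k133_A00pm_102_s1 : ∃ t, chk3 f_A00pm_102_s1 t 499 271 1 = true :=
  ⟨(a (b (c (a (b (c (l 16769848) (l 16769912)) (l 16769640)) (l 16769648)) (l 16769840)) (l 16768720)) (b (l 16768776) (l 16767224))), by decide +kernel⟩

def k134_A00pm_102_s1 : ∃ t, chk3 f_A00pm_102_s1 t 125 33 1 = true :=
  ⟨(b (l 14) (a (b (b (l 14) (a (b (l 14) (a (c (a (a (b (l 531901583) (b (b (c (a (l 16770864) (l 16770744)) (l 16770856)) (a (l 16770744) (l 16770672))) (c (l 16770568) (l 16770632)))) (b (a (a (b (l 14) (l 16770896)) (l 14)) (l 14)) (c (b (l 16770632) (l 16770512)) (l 16770632)))) (b (l 14) (c (a (l 16770520) (l 16770464)) (l 16770544)))) (b (a (b (l 16771360) (a (l 16771184) (l 16770960))) (l 14)) (a (a (b (l 16770912) (l 16770736)) (l 16770728)) (l 16770632)))) (l 14))) (l 14))) (a (b (c (b (a (b (a (a (l 16770416) (l 16770360)) (l 16770280)) (l 16770040)) (l 16768904)) (a (l 16768872) (l 16769952))) (b (a (l 16770328) (l 16768816)) (l 16768016)))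 (a (b (c (b (l 16767696) (l 16766920)) (l 16764592)) (c (l 16765752) (l 16765664))) (b (l 16768352) (l 16764176)))) (b (a (b (l 14) (l 16768376)) (l 14)) (c (c (l 16767928) (l 16767896)) (a (l 16763392) (l 16761856)))))) (a (b (l 14) (b (l 14) (b (l 14) (l 16758736)))) (l 14)))), by decide +kernel⟩

def k135_A00pm_102_s1 : ∃ t, chk3 f_A00pm_102_s1 t 63 16 1 = true :=
  ⟨(l 14), by decide +kernel⟩

def k136_A00pm_102_s1 : ∃ t, chk3 f_A00pm_102_s1 t 60 34 1 = true :=
  ⟨(b (l 3) (a (l 3) (a (b (l 3) (a (b (l 3) (l 531689359)) (b (a (l 532224287) (l 531957279)) (l 531691919)))) (b (b (l 3) (c (a (l 531614351) (l 531351183)) (l 531545231))) (c (b (c (l 531815567) (l 531369871)) (l 531590031)) (b (l 531535759) (l 531548815))))))), by decide +kernel⟩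

def k137_A00pm_102_s1 : ∃ t, chk3 f_A00pm_102_s1 t 122 68 1 = true :=
  ⟨(c (b (b (l 3) (a (l 3) (a (l 3) (a (l 3) (a (l 3) (b (l 3) (l 531580559))))))) (a (a (l 3) (b (l 3) (a (b (l 3) (l 531453071)) (c (b (l 531446159) (c (l 531943823) (l 531440783))) (l 531774607))))) (c (b (a (b (l 3) (l 531480463)) (c (b (l 531505807) (l 531484047)) (l 531524239))) (a (b (l 531459215) (l 531703183)) (b (l 531477647) (l 531455887)))) (b (a (l 531557519) (l 531575695)) (a (l 531517839) (l 531536015)))))) (a (b (l 3) (b (l 3) (a (l 3) (c (l 532392335) (l 531685519))))) (a (b (l 3) (b (l 531681167) (l 531649935))) (b (b (l 3) (l 531728015)) (b (l 531698575) (l 531667343)))))), by decide +kernel⟩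

def k138_A00pm_102_s1 : ∃ t, chk3 f_A00pm_102_s1 t 123 136 1 = true :=
  ⟨(a (a (b (l 3) (c (c (a (b (l 531577999) (l 531557007)) (b (l 531587471) (l 531566479))) (l 531631759)) (l 531745423))) (c (c (c (b (a (b (l 3) (l 531605135)) (b (l 531636111) (l 531614607))) (a (l 531772815) (l 531581071))) (b (a (l 531640719) (l 531650191)) (a (l 531599759) (l 531609231)))) (b (c (l 531941007) (l 531703695)) (l 531650191))) (b (l 532061071) (l 531763087)))) (c (a (c (c (b (a (b (l 531645583) (l 531624079)) (b (l 531655311) (l 531633807))) (a (l 531590543) (l 531600271))) (b (a (l 531659663) (l 531669135)) (a (l 531618703) (l 531628175)))) (b (c (l 531959439) (l 531721871)) (l 531668623))) (a (b (b (a (l 531701647) (l 531706511)) (l 531952015)) (c (l 531891855) (l 531684495))) (b (b (a (l 531711375) (l 531715983)) (l 531693199)) (c (l 531633039) (l 531693711))))) (b (a (l 532078735) (l 532096399)) (a (l 531780751) (l 531798671))))), by decide +kernel⟩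

def k139_A00pm_102_s1 : ∃ t, chk3 f_A00pm_102_s1 t 246 137 1 = true :=
  ⟨(a (c (c (a (b (l 531523983) (l 531480975)) (b (l 531533455) (l 531490447))) (b (l 531594127) (l 531555727))) (b (l 531715983) (l 531686287))) (c (a (b (c (l 531542927) (l 531609231)) (l 531802511)) (b (c (l 531552399) (l 531618703)) (l 531543439))) (b (l 531733647) (l 531704207)))), by decide +kernel⟩

def k140_A00pm_102_s1 : ∃ t, chk3 f_A00pm_102_s1 t 247 137 1 = true :=
  ⟨(a (a (c (b (c (l 531562127) (l 531627919)) (b (l 531564431) (b (a (l 16768216) (a (l 16767816) (b (l 16767728) (l 16767464)))) (a (c (b (l 16767648) (l 16767360)) (l 16767640)) (c (l 16767232) (l 16767360)))))) (b (l 531748751) (b (l 531727759) (a (b (l 16768504) (l 16767880)) (b (l 16768016) (l 16767600)))))) (c (b (c (l 531571599) (l 531637391)) (b (c (b (a (l 16768448) (b (l 16768080) (a (l 16767880) (l 16767696)))) (a (b (l 16767944) (a (l 16767736) (l 16767552))) (b (l 16767584) (l 16767432)))) (b (a (l 16768560) (b (l 16768200) (l 16767912))) (a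 (l 16767920) (l 16767648)))) (a (b (b (l 16767504) (l 16767344)) (l 16767152)) (l 16767168)))) (b (l 531757711) (a (b (b (l 16768768) (l 16768144)) (l 16764984)) (b (b (a (l 16768384) (l 16768168)) (l 16767872)) (l 16767448)))))) (b (b (a (l 531962255) (b (a (l 531705743) (c (a (c (l 16768600) (l 16768704)) (b (l 16768552) (l 16768312))) (c (l 16768728) (l 16768872)))) (a (a (c (l 16768512) (l 16768768)) (c (b (l 16768416) (l 16768176)) (l 16768560))) (b (a (c (l 16768240) (l 16768496)) (l 16768272)) (l 16768176))))) (a (b (a (l 531678863) (a (c (l 16768376) (l 16768640)) (c (b (l 16768280) (l 16768032)) (l 16768432)))) (a (a (c (l 16768240) (l 16768512)) (b (l 16768272) (a (l 16768048) (l 16767984)))) (c (c (b (l 16767872) (l 16767720)) (l 16767928)) (l 16768136)))) (c (b (a (a (b (l 16768104) (l 16767944)) (l 16767952)) (l 16767864)) (l 16765048)) (b (l 16765584) (l 16767920))))) (c (b (a (b (a (c (b (l 16767728) (l 16767576)) (l 16767784)) (l 16767584)) (l 16767384)) (l 16767288)) (l 16766880))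 (b (a (b (l 16765320) (l 16767648)) (l 16767528)) (l 16767128))))), by decide +kernel⟩

def k141_A00pm_102_s1 : ∃ t, chk3 f_A00pm_102_s1 t 122 69 1 = true :=
  ⟨(a (b (a (c (b (c (l 531362959) (l 531441551)) (l 531357583)) (l 532368415)) (b (c (a (l 531406735) (b (l 531687055) (l 531399311))) (l 531842959)) (c (l 531634319) (l 531560591)))) (b (c (a (l 531336335) (l 531345295)) (l 531545487)) (b (c (l 531336079) (l 531554959)) (a (l 531446671) (a (l 531454095) (a (l 16769264) (l 16768752))))))) (b (a (c (c (b (b (a (l 531400079) (l 531413135)) (l 531377039)) (a (l 531336847) (l 531348367))) (b (l 532278159) (l 531423119))) (b (l 532150927) (l 531573391))) (c (a (b (l 531715983) (l 531401615)) (b (l 531459983) (l 531416975))) (b (l 531632783) (l 531600271)))) (c (b (a (l 531359375) (b (a (l 16769720) (b (a (l 16766664) (c (l 16766112) (l 16766280))) (a (l 16768656) (l 16765784)))) (a (b (a (l 16766344) (l 16765880)) (a (l 16765736) (l 16765496))) (l 16765448)))) (a (b (a (l 16766480) (b (a (l 16766032)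 (l 16765592)) (c (l 16765264) (l 16765464)))) (a (b (a (l 16765728) (l 16765312)) (l 16767712)) (l 16764888))) (b (a (l 16765160) (l 16764904)) (l 16764496)))) (a (b (l 531565199) (b (a (l 16766896) (a (l 16763560) (l 16765880))) (a (b (l 16765992) (l 16765576)) (l 16765344)))) (b (b (a (l 16767472) (b (a (l 16767048) (l 16766592)) (l 16763728))) (a (b (l 16763904) (l 16766080)) (l 16765856))) (l 16765192)))))), by decide +kernel⟩

def k142_A00pm_102_s1 : ∃ t, chk3 f_A00pm_102_s1 t 123 69 1 = true :=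
  ⟨(b (a (b (c (a (c (l 531439247) (l 531515535)) (a (a (b (l 531502223) (b (l 16767624) (a (l 16767072) (l 16766864)))) (b (l 531507343) (b (b (l 16767264) (l 16766976)) (l 16766704)))) (b (b (a (l 16767928) (c (b (l 16767504) (l 16767208)) (l 16767496))) (a (c (b (l 16767352) (l 16767056)) (l 16767352)) (c (l 16766928) (l 16767072)))) (b (a (l 16766848) (l 16766712)) (l 16766504))))) (a (l 531655055) (b (a (l 16771288) (a (b (l 16768224) (l 16767600)) (b (l 16767736) (l 16767328)))) (a (b (a (l 16767944) (l 16767456)) (a (l 16767320) (l 16767048))) (l 16766992))))) (a (c (b (a (l 531441295) (b (a (l 16767312) (a (l 16766912) (l 16766712))) (a (a (l 16766752) (l 16766552)) (l 16766400)))) (a (b (a (l 16766992) (c (l 16766432) (l 16766592))) (a (c (l 16766272) (l 16766432)) (l 16766096))) (b (l 16766192) (l 16765904)))) (b (a (l 16768080) (b (a (l 16767648) (l 16767176)) (a (l 16767032) (l 16766768)))) (a (b (a (l 16767352) (l 16766880)) (l 16764016)) (l 16766424)))) (b (a (a (b (c (l 16766552) (l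 16766912)) (l 16766424)) (l 16763816)) (l 16763640)) (c (l 16765688) (l 16766024))))) (b (c (a (b (a (b (a (c (l 16767080) (l 16767216)) (l 16767000)) (l 16766800)) (l 16766704)) (l 16766296)) (l 16765120)) (a (b (a (l 16767264) (l 16766984)) (l 16766584)) (l 16764896))) (a (l 16767400) (l 16761992)))) (b (a (c (a (b (a (b (l 16765880) (l 16765600)) (l 16765504)) (l 16765080)) (l 16764648)) (a (b (l 16766008) (l 16765448)) (l 16764352))) (a (l 16761768) (l 16764232))) (a (a (l 16764192) (l 16761512)) (a (l 16764032) (l 16756008))))), by decide +kernel⟩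

def k143_A00pm_102_s1 : ∃ t, chk3 f_A00pm_102_s1 t 60 70 1 = true :=
  ⟨(a (b (b (a (l 3) (c (a (l 531324815) (a (l 531327119) (l 531328655))) (l 532114063))) (a (l 532025999) (c (a (l 531364495) (l 531368079)) (l 531633807)))) (c (a (b (l 531421071) (l 531505807)) (b (l 531427215) (l 531513999))) (a (l 531762319) (c (l 530607759) (l 531848591))))) (b (b (c (a (l 532135967) (l 531342991)) (a (l 531578511) (l 531585423))) (c (a (a (l 531372943) (l 531378831)) (a (l 531385999) (b (l 16769488) (a (l 16766080) (c (l 16764952) (l 16765200)))))) (a (l 531636879) (a (l 531645839) (b (l 531635087) (a (l 16766616) (b (l 16765952) (l 16765360)))))))) (a (c (a (l 532013967) (a (l 531483023) (b (l 16769800) (b (l 16765320) (b (l 16764416) (a (l 16764080) (l 16763760))))))) (b (l 531719311) (a (l 531826831) (a (l 531830927) (b (l 16765968) (a (l 16759848) (l 16764728))))))) (b (b (a (l 531561359) (a (b (l 16765408) (a (l 16765048) (l 16759368))) (a (b (l 16764704) (l 16764344)) (l 16759072)))) (a (a (l 531603599)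 (a (l 16765120) (b (l 16764936) (l 16759184)))) (a (a (b (l 16759272) (l 16764184)) (l 16758904)) (l 16763896)))) (a (b (a (b (a (l 16765200) (l 16764720)) (a (l 16764616) (l 16759016))) (b (a (l 16759096) (l 16764104)) (l 16763960))) (a (b (a (l 16758944) (l 16763976)) (l 16763832)) (l 16763616))) (b (l 16763592) (l 16763120))))))), by decide +kernel⟩

def k144_A00pm_102_s1 : ∃ t, chk3 f_A00pm_102_s1 t 120 142 1 = true :=
  ⟨(a (b (b (l 531470991) (l 530462607)) (c (l 532283935) (l 532100495))) (b (c (l 531624591) (l 531949967)) (c (a (l 531757967) (a (a (l 531762831) (b (l 16765168) (c (l 16766528) (l 16764304)))) (b (c (l 16764304) (l 16764680)) (b (a (l 16763912) (l 16763584)) (a (l 16760920) (l 16763336)))))) (a (l 532105871) (a (b (l 16766184) (c (l 16764968) (l 16765464))) (b (l 16765320) (a (l 16762040) (l 16764400)))))))), by decide +kernel⟩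

def k145_A00pm_102_s1 : ∃ t, chk3 f_A00pm_102_s1 t 480 143 1 = true :=
  ⟨(c (b (c (l 531821711) (l 531990415)) (b (c (l 531951247) (l 532128399)) (c (c (b (l 531978895) (l 532026767)) (l 532088975)) (l 532204175)))) (b (l 532172175) (b (l 532064655) (c (l 532065167) (l 531904399))))), by decide +kernel⟩

def k146_A00pm_102_s1 : ∃ t, chk3 f_A00pm_102_s1 t 481 143 2 = true :=
  ⟨(a (c (c (b (l 531788687) (b (l 16764464) (b (b (l 16763856) (a (l 16763832) (a (l 16763512) (b (l 16763384) (l 16763312))))) (a (a (b (l 16763704) (b (l 16763528) (a (l 16763464) (l 16763392)))) (b (b (l 16763552) (a (l 16763488) (l 16763400))) (a (b (l 16763392) (l 16763336)) (l 16763312)))) (b (a (b (l 16763376) (l 16763312)) (l 16763240)) (l 16763200)))))) (b (l 531867279) (b (l 16764680) (b (a (l 16764176) (b (l 16763880) (a (l 16763752) (l 16763592)))) (a (a (b (l 16763944) (c (b (l 16763712) (l 16763616)) (l 16763792))) (b (b (l 16763792) (l 16763688)) (l 16763592))) (b (a (l 16763592) (l 16763488)) (l 16763448)))))))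 (b (l 531994511) (b (l 16765024) (b (a (l 16764552) (b (l 16764256) (a (l 16764144) (l 16763984)))) (a (a (l 16764096) (b (l 16764072) (l 16763688))) (l 16763512)))))) (b (c (l 531830927) (l 531997327)) (c (b (a (b (l 16764168) (b (l 16763808) (a (l 16763680) (c (l 16763376) (l 16763608))))) (b (a (l 16763848) (b (l 16763752) (l 16763520))) (a (b (c (l 16763392) (l 16763624)) (l 16763368)) (b (l 16763368) (l 16763272))))) (b (a (b (a (b (l 16763512) (l 16763440)) (c (l 16763248) (l 16763480))) (c (l 16763200) (l 16763440))) (l 16763176)) (l 16763088))) (a (b (b (l 16764632) (c (l 16764056) (l 16764320))) (b (l 16763832) (l 16763008))) (b (b (l 16764216) (l 16763888)) (l 16762912)))))), by decide +kernel⟩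

def k147_A00pm_102_s1 : ∃ t, chk3 f_A00pm_102_s1 t 481 143 3 = true :=
  ⟨(c (b (l 532182159) (a (b (l 16765128) (a (b (l 16764296) (b (l 16763776) (a (l 16763520) (l 16763288)))) (b (l 16763904) (l 16763112)))) (b (a (l 16764552) (b (l 16764512) (l 16763760))) (b (l 16763184) (l 16762344))))) (b (l 532144527) (b (a (l 16762112) (b (l 16761672) (a (l 16763776) (l 16763320)))) (a (a (b (l 16763864) (a (l 16763240) (l 16763016))) (b (l 16763456) (l 16762648))) (l 16764920))))), by decide +kernel⟩

def k148_A00pm_102_s1 : ∃ t, chk3 f_A00pm_102_s1 t 241 143 1 = true :=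
  ⟨(a (b (c (a (c (b (l 16764864) (a (l 16764048) (b (l 16763864) (b (a (l 16763592) (l 16763416)) (l 16763352))))) (b (l 16765256) (b (l 16764520) (a (l 16764256) (l 16763912))))) (b (a (l 16764392) (b (l 16764208) (b (l 16763824) (a (l 16763696) (l 16763552))))) (b (a (c (b (l 16763560) (l 16763384)) (l 16763936)) (l 16760832)) (l 16760720)))) (a (b (l 16765944) (b (l 16765080) (a (l 16764600) (l 16764176)))) (b (a (l 16765328) (b (l 16765144) (l 16764728))) (b (l 16764224) (l 16763416))))) (c (b (a (a (c (b (b (a (l 16763544) (l 16763392)) (l 16763336)) (l 16763184)) (b (l 16763896) (l 16763640))) (l 16760712)) (l 16762920)) (a (l 16762312) (l 16761280))) (b (b (a (l 16763608) (l 16762576)) (l 16762256)) (b (l 16761416) (l 16763184))))) (c (b (a (b (b (a (c (l 16763584) (l 16764008)) (l 16760880)) (l 16760768)) (l 16763080)) (l 16760296)) (b (l 16761344) (l 16759712))) (b (a (b (b (l 16764624) (l 16764024)) (l 16762776)) (l 16762552)) (b (l 16760576) (l 16758904))))), by decide +kernel⟩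

def k149_A00pm_102_s1 : ∃ t, chk3 f_A00pm_102_s1 t 121 71 1 = true :=
  ⟨(b (a (a (a (b (l 530444943) (b (a (b (l 16759224) (c (l 16763632) (l 16764528))) (b (c (l 16763688) (l 16764560)) (l 16763824))) (c (l 16763184) (l 16763952)))) (b (b (l 531757967) (b (a (l 16764624) (b (l 16759064) (l 16758856))) (a (b (l 16758992) (l 16758808)) (l 16758656)))) (b (a (l 16758512) (l 16763584)) (l 16763216)))) (c (b (b (a (a (l 16766792) (b (l 16763984) (l 16763624))) (b (l 16763608) (l 16763360))) (a (l 16758128) (l 16763024))) (l 16762536)) (b (b (a (b (l 16764976) (l 16764584)) (l 16764272)) (l 16764008)) (l 16762040)))) (b (a (c (l 16762760) (l 16763040)) (l 16761072)) (b (l 16759832) (l 16758248)))) (a (a (b (c (l 16761648) (l 16760944)) (b (l 16758864) (l 16762464))) (b (l 16759152) (b (l 16756720) (l 16755096)))) (b (l 16755856) (a (l 16764232) (l 16751560))))), by decide +kernel⟩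

def k150_A00pm_102_s1 : ∃ t, chk3 f_A00pm_102_s1 t 61 35 1 = true :=
  ⟨(b (a (b (a (a (b (a (l 531469199) (a (l 531472783) (b (l 16769504) (l 16768208)))) (b (a (c (l 16765328) (l 16765872)) (b (a (l 16765152) (l 16764824)) (l 16759400))) (a (b (a (l 16764920) (l 16764624)) (l 16759208)) (l 16764240)))) (b (b (a (b (l 16766440) (l 16768408)) (c (b (l 16767872) (l 16764840)) (b (l 16765752) (l 16765352)))) (a (c (b (l 16767616) (l 16764600)) (a (l 16762848) (l 16765200))) (l 16759400))) (c (l 16763784) (l 16764312)))) (b (a (b (c (a (l 16764632) (l 16764368)) (l 16764976)) (l 16764208)) (l 16763776)) (c (l 16762200) (l 16761800)))) (b (a (a (b (l 16763904) (l 16763424)) (l 16762624)) (l 16758968)) (a (l 16760728) (l 16755920)))) (a (b (c (a (l 16759864) (b (l 16758696) (l 16755728))) (c (l 16758280) (l 16758096))) (a (b (l 16755168) (l 16752160)) (l 16761544))) (b (b (a (l 16755808) (l 16753040)) (l 16761952)) (a (l 16758880) (l 16756144))))) (a (c (b (a (l 16756344) (l 16762088)) (a (l 16760632)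 (l 16745512))) (b (a (l 16755768) (l 16761544)) (a (l 16759944) (l 16744864)))) (a (b (a (l 16747624) (l 16745072)) (b (l 16741816) (a (l 16740032) (l 16737528)))) (b (a (l 16752912) (b (l 16741224) (l 16738280))) (b (l 16736640) (l 16744088)))))), by decide +kernel⟩

def k151_A00pm_102_s1 : ∃ t, chk3 f_A00pm_102_s1 t 496 136 1 = true :=
  ⟨(c (a (a (c (b (l 531951247) (b (l 531652495) (b (l 16769256) (b (l 16768760) (a (l 16768568) (l 16768400)))))) (b (l 531739023) (b (l 16770320) (b (l 16769352) (b (l 16768864) (l 16768592)))))) (b (c (l 531687567) (l 531743631)) (b (l 531685775) (c (b (b (a (l 16769024) (l 16768768)) (a (l 16768696) (l 16768536))) (b (a (l 16768464) (l 16768384)) (l 16768288))) (b (b (l 16768992) (l 16768728)) (l 16768472)))))) (b (b (l 532000655) (l 531712143)) (a (b (b (l 16769552) (c (b (a (l 16769152) (l 16768896)) (a (l 16768832) (l 16768672))) (b (l 16769112) (a (l 16768928) (l 16768768))))) (b (c (b (a (l 16768600) (l 16768528)) (l 16768432)) (l 16768608)) (l 16768288)))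 (b (c (b (b (a (l 16769280) (l 16769024)) (a (l 16768960) (l 16768808))) (b (a (l 16768736) (l 16768664)) (l 16768568))) (b (b (l 16769240) (a (l 16769048) (l 16768904))) (l 16768744))) (b (l 16768424) (l 16768176)))))) (b (l 532382863) (b (a (l 531822735) (b (a (l 16769760) (a (l 16769376) (l 16769192))) (a (a (l 16769256) (l 16769064)) (l 16768912)))) (a (a (b (l 16769520) (c (l 16768856) (l 16768992))) (b (a (l 16769136) (l 16768944)) (l 16768656))) (b (a (l 16768784) (l 16768640)) (l 16768448)))))), by decide +kernel⟩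

def k152_A00pm_102_s1 : ∃ t, chk3 f_A00pm_102_s1 t 497 136 1 = true :=
  ⟨(b (b (c (c (a (l 531715471) (b (a (l 16769992) (b (a (l 16769760) (c (a (l 16769544) (l 16769456)) (l 16769544))) (a (b (l 16769520) (l 16769392)) (l 16769336)))) (a (b (a (l 16769640) (a (l 16769440) (l 16769344))) (a (a (l 16769384) (l 16769280)) (l 16769208))) (b (l 16769248) (l 16769120))))) (a (l 531770255) (a (b (l 16770072) (b (a (l 16769720) (l 16769480)) (a (l 16769424) (l 16769296)))) (b (b (a (l 16769840) (l 16769608)) (a (l 16769544) (l 16769424))) (l 16769264))))) (a (l 531870607) (a (b (l 16770208) (a (l 16769720) (a (l 16769576) (l 16769512)))) (b (c (b (l 16769808) (l 16769592)) (b (l 16769920) (l 16769704))) (l 16769416))))) (a (c (c (a (b (l 16769760) (b (a (l 16769400) (b (l 16769216) (l 16769072))) (a (b (l 16769160) (l 16769008)) (l 16768944)))) (b (b (a (l 16769520) (a (l 16769320) (l 16769216))) (a (a (l 16769264) (l 16769152)) (l 16769072))) (b (a (l 16769008) (l 16768936)) (l 16768840)))) (b (a (l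 16769840) (b (l 16769480) (a (l 16769296) (l 16769160)))) (a (b (l 16769360) (a (l 16769176) (l 16769032))) (l 16769008)))) (b (a (l 16769984) (a (l 16769608) (a (l 16769456) (l 16769392)))) (a (b (l 16769520) (l 16769280)) (l 16769168)))) (c (b (a (c (b (l 16769112) (l 16768984)) (l 16769136)) (c (l 16768936) (l 16769016))) (a (l 16768840) (l 16768728))) (c (l 16769048) (l 16769160))))) (b (c (a (b (a (c (b (a (l 16768872) (l 16768800)) (l 16768704)) (l 16768872)) (l 16768704)) (a (l 16768560) (l 16768456))) (l 16768408)) (a (b (a (l 16769040) (l 16768896)) (l 16768704)) (l 16768424))) (c (a (l 16768136) (l 16767048)) (l 16767608)))), by decide +kernel⟩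

def k153_A00pm_102_s1 : ∃ t, chk3 f_A00pm_102_s1 t 249 136 1 = true :=
  ⟨(c (b (a (a (b (b (a (c (l 16769320) (l 16769400)) (l 16769240)) (a (l 16769104) (l 16769000))) (l 16768656)) (l 16767952)) (a (l 16766456) (b (l 16765720) (l 16764176)))) (a (a (l 16766344) (b (l 16765632) (l 16764096))) (c (l 16767896) (l 16767832)))) (b (b (a (a (a (l 16769408) (l 16769280)) (l 16768592)) (l 16766368)) (a (l 16767784) (l 16770064))) (a (l 16765472) (l 16767760)))), by decide +kernel⟩

def k154_A00pm_102_s1 : ∃ t, chk3 f_A00pm_102_s1 t 124 137 1 = true :=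
  ⟨(a (a (c (b (b (a (b (a (a (b (l 16768376) (l 16768224)) (l 16768232)) (l 16768152)) (a (l 16768008) (l 16767896))) (l 16767856)) (l 16767456)) (l 16765320)) (b (b (a (b (a (l 16768528) (l 16768376)) (l 16768184)) (l 16768064)) (l 16767408)) (l 16765120))) (b (b (l 16766160) (l 16764632)) (b (a (l 16763832) (l 16762376)) (l 16766824)))) (a (b (c (l 16767784) (l 16767648)) (c (l 16759496) (l 16759352))) (b (c (l 16759552) (l 16759448)) (l 16761688)))), by decide +kernel⟩

def k155_A00pm_102_s1 : ∃ t, chk3 f_A00pm_102_s1 t 124 69 1 = true :=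
  ⟨(a (b (a (b (a (b (l 16763656) (l 16762144)) (l 16766712)) (l 16764408)) (b (l 16764552) (l 16761536))) (b (c (l 16760088) (l 16759872)) (a (l 16753176) (l 16750312)))) (a (b (c (l 16760208) (l 16760056)) (b (l 16750376) (l 16747384))) (b (b (l 16753416) (l 16755632)) (b (c (l 16747512) (l 16747352)) (l 16744456))))), by decide +kernel⟩

def k156_A00pm_102_s1 : ∃ t, chk3 f_A00pm_102_s1 t 125 34 1 = true :=
  ⟨(b (a (b (c (a (b (c (l 16767928) (l 16767880)) (l 16759576)) (b (l 16759568) (l 16756488))) (b (a (l 16767832) (l 16759536)) (a (l 16759512) (l 16756456)))) (a (b (l 16761712) (l 16758664)) (b (a (l 16754168) (l 16752616)) (a (l 16751128) (l 16749616))))) (b (a (b (a (l 16757200) (c (l 16755616) (l 16755640))) (a (b (l 16754888) (l 16753352)) (l 16752584))) (b (b (l 14) (l 16752536)) (l 16750264))) (a (b (c (l 16750408) (l 16750312)) (l 16747320)) (c (l 16745912) (l 16745600))))) (b (a (a (b (c (l 16750456) (l 16750368)) (a (l 16748160) (l 16746656))) (c (l 16746016) (l 16745776))) (c (l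 16746776) (l 16741056))) (a (c (l 16741664) (l 16741240)) (c (l 16735680) (l 16734928))))), by decide +kernel⟩

def k157_A00pm_102_s1 : ∃ t, chk3 f_A00pm_102_s1 t 62 35 1 = true :=
  ⟨(a (b (a (b (a (l 16753984) (b (l 16747336) (l 16744392))) (a (b (l 16744312) (l 16741408)) (l 16745256))) (b (a (b (l 16744448) (l 16741488)) (l 16740008)) (c (l 16735968) (l 16735288)))) (b (a (l 16746040) (l 16729728)) (b (a (l 16731096) (l 16725304)) (a (l 16738592) (l 16722344))))) (b (a (b (c (l 16735864) (l 16735160)) (l 16740064)) (b (c (l 16729840) (l 16728808)) (l 16723360))) (a (b (l 16723688) (b (l 16719256) (l 16716312))) (b (l 16717424) (b (l 16712984) (l 16710040)))))), by decide +kernel⟩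

def k158_A00pm_102_s1 : ∃ t, chk3 f_A00pm_102_s1 t 63 17 1 = true :=
  ⟨(b (a (b (b (a (a (a (l 16754680) (l 14)) (l 14)) (l 14)) (a (a (l 16747848) (l 16744664)) (c (l 16740256) (l 16734120)))) (a (b (c (l 16735392) (l 16734584)) (c (l 16729496) (l 16728416))) (b (c (l 16729056) (l 16727904)) (c (l 16723120) (l 16721704))))) (b (l 14) (a (b (c (l 16722520) (l 16721024)) (l 16720904)) (b (l 14) (l 16719192))))) (b (b (a (a (l 16733424) (l 16716360)) (a (l 16709576) (l 16702584))) (a (a (l 16716944) (l 16710336)) (a (l 16703520) (l 16696488)))) (a (b (a (l 16710976) (l 16704336)) (b (a (l 16706520) (l 16699848)) (a (l 16703552) (l 16696864)))) (b (a (l 16697480) (l 16690416)) (b (a (l 16692968) (l 16685880)) (a (l 16689976) (l 16682864))))))), by decide +kernel⟩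

def k159_A00pm_102_s1 : ∃ t, chk3 f_A00pm_102_s1 t 28 36 1 = true :=
  ⟨(b (l 3) (a (l 3) (a (b (l 3) (b (l 3) (c (l 531704719) (l 531612559)))) (b (b (l 3) (l 531644303)) (b (l 531646607) (l 531916175)))))), by decide +kernel⟩

def k160_A00pm_102_s1 : ∃ t, chk3 f_A00pm_102_s1 t 56 74 1 = true :=
  ⟨(a (l 3) (a (b (l 3) (b (c (c (l 531756687) (l 531746191)) (l 531844127)) (b (c (l 531756431) (l 531717775)) (a (b (l 531754127) (a (c (l 531771279) (l 531741071)) (l 531752079))) (c (l 531753359) (l 531714703)))))) (b (b (l 3) (c (l 531727503) (l 531666063))) (b (c (l 531730063) (l 531674255)) (b (l 531712655) (l 531716751)))))), by decide +kernel⟩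

def k161_A00pm_102_s1 : ∃ t, chk3 f_A00pm_102_s1 t 56 150 1 = true :=
  ⟨(a (b (a (l 3) (c (c (a (l 531801999) (l 531787151)) (l 531793807)) (a (l 531788687) (l 531765903)))) (a (b (a (l 3) (b (l 531805583) (l 531817103))) (l 531817359)) (c (a (b (c (l 531810447) (l 531813775)) (a (l 531830927) (l 531822223))) (b (b (l 531793551) (l 531798415)) (l 531807631))) (a (b (l 531804303) (a (l 531832975) (l 531819663))) (b (l 531782287) (l 531799183)))))) (b (a (b (b (a (c (a (l 531773071) (l 531765903)) (l 531739279)) (l 531742351)) (a (a (a (l 531768207) (l 531763855)) (l 531757199)) (l 531744911))) (a (a (c (l 531778191) (l 531753871)) (c (l 531771023) (l 531743631))) (c (l 531760783) (l 531728783)))) (b (c (l 531738767) (l 531694735)) (c (b (l 531741327) (l 531743375)) (l 531836303)))) (a (a (b (c (a (l 531783823) (l 531776399)) (a (l 531763343) (l 531752847))) (c (a (l 531794319) (l 531786127)) (a (l 531780239) (l 531768719)))) (b (b (l 531753871) (l 531758479)) (c (l 531774607) (l 531752591)))) (b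 (a (c (l 531686031) (l 531719567)) (b (l 531724687) (l 531594383))) (c (a (l 531693967) (l 531681935)) (c (l 532002703) (l 531711375))))))), by decide +kernel⟩

def k162_A00pm_102_s1 : ∃ t, chk3 f_A00pm_102_s1 t 56 151 1 = true :=
  ⟨(a (a (b (b (l 531826831) (l 531835279)) (b (l 531835791) (l 531811727))) (b (b (a (c (l 532102031) (l 531845519)) (c (l 531821455) (l 531820687))) (c (a (l 532207759) (l 531831439)) (a (l 531863439) (l 531841679)))) (b (c (a (l 531786639) (l 531807631)) (a (l 531872143) (l 531860111))) (a (l 532166543) (c (l 531788175) (l 531874959)))))) (b (a (a (c (b (a (l 531806863) (l 531797903)) (c (l 531811215) (l 531817103))) (b (l 531894303) (l 531813775))) (c (b (b (l 531782543) (l 531788431)) (c (l 531795087) (l 531797391))) (b (l 531769999) (l 531922719)))) (b (c (a (l 531770767) (l 531690895)) (a (l 531749007) (l 531730319))) (c (a (l 531781263) (l 531767695)) (a (l 531900559) (l 531746447))))) (b (a (a (c (c (l 531799695) (l 531831183)) (l 531833999)) (c (c (l 531805327)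 (l 531810447)) (l 531807375))) (c (a (c (l 531790479) (l 531792271)) (l 531777567)) (a (l 531850783) (l 531896975)))) (a (a (c (c (l 531782287) (l 531843727)) (l 531852943)) (c (c (l 531805839) (l 531823503)) (l 531825807))) (c (a (c (l 531799951) (l 531804303)) (b (l 531785103) (l 531789967))) (a (l 531734159) (b (l 531775375) (l 531783311)))))))), by decide +kernel⟩

def k163_A00pm_102_s1 : ∃ t, chk3 f_A00pm_102_s1 t 57 74 1 = true :=
  ⟨(b (b (a (c (l 531704207) (l 531618191)) (c (l 531695759) (l 531051151))) (a (c (l 531972495) (a (l 531637391) (l 531615375))) (a (l 531654031) (l 531650191)))) (b (a (c (b (l 531704719) (l 531705743)) (a (l 531645327) (l 531623055))) (c (l 531827599) (a (l 531607439) (l 531598735)))) (a (a (b (l 531689103) (l 531692687)) (b (l 531671695) (l 531675279))) (c (a (l 531697039) (l 531696783)) (b (l 531876383) (l 531882015)))))), by decide +kernel⟩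

def k164_A00pm_102_s1 : ∃ t, chk3 f_A00pm_102_s1 t 114 150 1 = true :=
  ⟨(b (b (c (a (l 531720079) (l 531707023)) (a (l 531665295) (l 531642511))) (a (b (l 531700879) (l 531569551)) (b (l 531683215) (l 531551631)))) (b (a (c (b (l 531726479) (l 531729039)) (l 531949455)) (c (b (l 531713167) (l 531715471)) (l 531658383))) (a (b (a (l 531586703) (l 531709839)) (c (l 531802911) (l 531696015))) (c (c (l 531727503) (l 531709839)) (l 531937423))))), by decide +kernel⟩

def k165_A00pm_102_s1 : ∃ t, chk3 f_A00pm_102_s1 t 114 151 1 = true :=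
  ⟨(b (a (b (c (c (a (l 531750799) (l 531742607)) (l 531869839)) (b (l 531702671) (l 531709839))) (c (c (a (l 531758479) (l 531749519)) (a (l 531751567) (l 531740047))) (c (l 531998863) (l 531709327)))) (b (c (c (l 531867279) (l 531717775)) (b (l 531678095) (l 531684495))) (c (c (a (l 531742351) (l 531736719)) (l 531725967)) (b (l 531690895) (l 531697551))))) (a (b (c (a (c (l 531766415) (l 531762063)) (b (l 531752079) (l 531756175))) (a (l 531878543) (l 531862415))) (c (a (c (l 531774351) (l 531772559)) (c (l 531764111) (l 531759759))) (a (b (l 531755919) (l 531763855)) (b (l 531739023) (l 531746447))))) (c (c (a (b (l 531749007) (l 531755663)) (b (l 531742863) (a (a (l 531751311) (b (l 16757768) (b (l 16757296) (a (l 16757080) (b (l 16756968) (l 16756808)))))) (a (b (l 16757400) (b (a (l 16757024) (l 16756832)) (l 16756592))) (a (b (b (l 16757280) (l 16756968)) (l 16756464)) (b (b (l 16757096) (l 16756768)) (l 16756264))))))) (b (a (l 531739535) (l 531731087)) (a (l 531748495) (a (b (l 16757920)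 (a (l 16757480) (b (l 16757264) (a (l 16757048) (l 16756856))))) (a (b (l 16757360) (b (a (l 16756984) (l 16756792)) (l 16756560))) (b (b (l 16757152) (a (l 16756920) (l 16756728))) (l 16756320))))))) (b (c (l 531986575) (l 531695503)) (b (a (l 531724431) (a (l 16757824) (a (l 16757264) (b (l 16757040) (a (l 16756824) (l 16756624)))))) (a (l 531731343) (a (a (l 16757392) (b (l 16757176) (a (l 16756960) (l 16756768)))) (a (b (a (l 16756896) (l 16756696)) (l 16756464)) (l 16756224))))))))), by decide +kernel⟩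

def k166_A00pm_102_s1 : ∃ t, chk3 f_A00pm_102_s1 t 115 150 1 = true :=
  ⟨(b (c (b (a (l 531700111) (l 531699343)) (b (l 531699599) (a (l 531703951) (a (l 16760056) (a (l 16758920) (a (l 16758352) (l 16757976))))))) (a (b (l 531626639) (l 531634063)) (a (l 531623055) (b (l 531616911) (a (l 16758968) (b (l 16758512) (l 16757880))))))) (a (c (b (l 531840799) (b (l 531710351) (l 531712911))) (b (l 531642511) (l 531652751))) (a (b (c (l 531705487) (l 531635599)) (a (a (l 531749775) (a (l 531816335) (b (l 16758136) (b (l 16757656) (l 16757344))))) (b (a (l 16757848) (b (l 16757624) (a (l 16757400) (l 16757200)))) (b (a (a (l 16757472) (l 16757272)) (l 16756960)) (c (l 16756936) (l 16756688)))))) (b (a (b (l 531672719) (c (b (a (l 16758000) (l 16757616)) (a (l 16757680) (l 16757280))) (a (l 16757576) (l 16757168)))) (b (a (b (l 16757752) (a (l 16757528) (l 16757320))) (c (l 16757304) (l 16757016))) (c (a (l 16757032) (l 16756616)) (l 16756544)))) (a (c (b (a (b (l 16757344) (l 16757008)) (l 16756760))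 (l 16756280)) (b (l 16756696) (l 16756016))) (c (l 16758408) (l 16755512))))))), by decide +kernel⟩

def k167_A00pm_102_s1 : ∃ t, chk3 f_A00pm_102_s1 t 230 151 1 = true :=
  ⟨(b (a (b (c (l 531719311) (l 531667855)) (b (l 531703695) (a (l 531710095) (a (l 531707535) (b (l 16757496) (a (l 16757280) (b (l 16757168) (l 16757008)))))))) (b (a (c (l 531717007) (l 16758232)) (b (l 531689359) (a (c (b (l 16757712) (l 16757400)) (l 16757352)) (c (b (a (l 16757432) (l 16757240)) (l 16757000)) (b (l 16757120) (l 16756792)))))) (a (a (b (l 16757592) (b (c (a (l 16757296) (l 16757096)) (l 16757016)) (c (l 16756864) (l 16756680)))) (b (c (b (l 16757456) (a (l 16757232) (l 16757032))) (b (l 16757264) (l 16756936))) (c (l 16756624) (l 16756440)))) (c (b (a (b (a (l 16757168) (l 16756968)) (l 16756728)) (l 16756488)) (l 16756016)) (b (a (l 16756696) (l 16756280)) (l 16755816)))))) (a (b (a (a (b (l 531715471) (b (l 16757368) (a (l 16757152) (b (l 16757040) (l 16756880))))) (b (c (l 16757528) (l 16757376)) (b (c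 (a (l 16757152) (l 16756960)) (a (l 16757000) (l 16756800))) (c (l 16756720) (l 16756568))))) (b (b (a (c (l 16757320) (l 16757152)) (c (a (l 16757032) (l 16756832)) (l 16756752))) (a (a (b (l 16757104) (l 16756944)) (l 16756824)) (l 16756520))) (c (a (l 16756488) (l 16756080)) (l 16756128)))) (a (c (b (a (b (a (l 16756888) (l 16756688)) (l 16756448)) (l 16756216)) (l 16755744)) (b (a (b (l 16756648) (l 16756312)) (l 16756072)) (l 16755608))) (c (c (l 16755296) (l 16755240)) (l 16757744)))) (b (c (a (c (l 16758464) (l 16755776)) (l 16754992)) (a (l 16758256) (l 16754800))) (a (c (l 16754456) (l 16754296)) (l 16756176))))), by decide +kernel⟩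

def k168_A00pm_102_s1 : ∃ t, chk3 f_A00pm_102_s1 t 231 151 1 = true :=
  ⟨(b (b (a (a (b (b (a (l 16757504) (c (l 16757208) (l 16756976))) (a (a (l 16757280) (l 16757072)) (l 16756768))) (c (a (l 16756768) (l 16756352)) (l 16756336))) (c (c (l 16756120) (l 16756024)) (l 16755840))) (a (c (l 16755240) (l 16754992)) (l 16756904))) (a (c (c (l 16757776) (l 16757688)) (l 16757520)) (c (l 16753448) (l 16753208)))) (a (b (a (l 16756696) (l 16753240)) (l 16757544)) (c (l 16756640) (l 16751184)))), by decide +kernel⟩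

def k169_A00pm_102_s1 : ∃ t, chk3 f_A00pm_102_s1 t 58 36 1 = true :=
  ⟨(b (a (a (l 3) (b (l 3) (b (b (l 3) (l 531101839)) (l 531648399)))) (b (b (b (a (l 3) (a (l 3) (b (l 3) (c (c (l 531801231) (l 531691919)) (l 531487631))))) (a (l 3) (a (a (l 3) (b (l 3) (l 530824591))) (c (l 531514767) (l 531535247))))) (a (b (l 3) (l 531636879)) (a (b (c (b (l 531742607) (l 531759247)) (a (b (l 3) (a (l 531521167) (l 531521679))) (l 531536271))) (c (l 532711311) (a (l 531249807) (l 531566223)))) (b (c (l 531820175) (l 531588495)) (l 531736463))))) (c (a (b (b (l 531741071) (l 531746191)) (l 531751311)) (a (b (l 532021135) (l 531743887)) (b (l 531828879) (l 531825551)))) (a (b (b (l 531534735) (l 531547535)) (l 531562639)) (a (b (a (l 531554191) (l 531569807)) (l 531544975)) (b (l 531635855) (l 531630991))))))) (a (b (a (l 531648031) (a (l 531655823) (l 531662991))) (b (l 531654799) (l 531654799))) (b (a (b (a (l 531669647) (l 531680143)) (l 531678351)) (a (b (l 531693967) (l 531697295)) (b (l 531735183) (l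 531732879)))) (a (b (l 531679375) (l 531679119)) (b (a (l 531698063) (l 531729807)) (a (c (b (l 16762152) (l 16760880)) (l 16761056)) (a (b (l 16760784) (c (l 16759696) (l 16753952))) (b (c (l 16760256) (l 16759744)) (l 16758624))))))))), by decide +kernel⟩

def k170_A00pm_102_s1 : ∃ t, chk3 f_A00pm_102_s1 t 118 72 1 = true :=
  ⟨(b (b (b (a (c (a (b (c (b (c (a (b (l 531844751) (l 531850639)) (l 531746447)) (l 531811727)) (l 531582607)) (l 531864975)) (c (l 531868559) (l 531758991))) (b (c (b (c (l 531928719) (l 531876495)) (l 531915919)) (l 531795343)) (l 531613071))) (b (a (c (l 531594895) (l 531437199)) (l 531716895)) (l 531854991))) (c (b (c (a (c (l 531718287) (l 531945615)) (b (l 531724431) (l 532024463))) (a (l 531857551) (b (l 531910031) (l 531925391)))) (a (l 531676047) (l 531468431))) (b (a (l 531644815) (l 531704463)) (l 531979407)))) (a (c (b (l 531604111) (l 531894159)) (l 531903375)) (c (b (l 531462543) (l 531981967)) (b (l 531744911) (l 531775887))))) (a (b (c (l 531911311) (l 531689871))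 (l 531849359)) (b (c (l 531922063) (l 531817103)) (l 531980943)))) (a (b (b (l 531864975) (l 531869839)) (l 533207839)) (b (c (l 531797647) (l 531901327)) (l 531916175)))), by decide +kernel⟩

def k171_A00pm_102_s1 : ∃ t, chk3 f_A00pm_102_s1 t 119 72 1 = true :=
  ⟨(b (b (c (b (a (a (b (c (b (c (l 532010639) (l 532057487)) (l 532029839)) (l 531707279)) (l 531527311)) (c (c (c (l 531958415) (l 532001423)) (l 532068239)) (l 531778703))) (c (a (b (c (l 532011151) (l 532099727)) (l 532006287)) (c (l 532195983) (l 532081039))) (a (l 532101007) (l 532152463)))) (a (c (l 531927951) (l 532074127)) (b (c (l 531963791) (l 532140175)) (a (l 532004495) (a (l 16764184) (a (l 16763568) (b (l 16763328) (l 16760376)))))))) (b (c (a (b (l 532134287) (l 531900815)) (b (l 532240015) (l 532007567))) (a (b (l 531706511) (l 531746703)) (l 532100751))) (b (a (l 531861135) (l 531968143)) (a (l 531892879) (a (l 16765352) (a (l 16764200) (l 16763432))))))) (a (b (c (l 531934607) (l 531935119)) (l 532041103)) (a (a (c (l 531911567)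 (l 16764408)) (b (l 531856783) (a (b (l 16763592) (l 16762912)) (b (l 16763184) (l 16762592))))) (b (b (a (l 532148111) (c (b (a (l 16763032) (l 16762720)) (l 16759984)) (l 16762864))) (a (c (a (l 16762976) (l 16759992)) (l 16763152)) (l 16762632))) (c (a (b (l 16762232) (l 16761736)) (l 16761528)) (l 16761760)))))) (a (b (b (l 531985551) (c (a (l 16763624) (a (l 16762344) (l 16761624))) (a (l 16764224) (l 16765360)))) (a (b (b (l 16763072) (l 16765040)) (c (l 16761152) (l 16761824))) (b (a (l 16761648) (l 16761088)) (l 16760424)))) (b (b (a (c (b (a (l 16762360) (l 16761744)) (l 16761544)) (l 16764920)) (l 16760840)) (l 16765696)) (c (l 16758736) (l 16758176))))), by decide +kernel⟩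

def k172_A00pm_102_s1 : ∃ t, chk3 f_A00pm_102_s1 t 59 73 1 = true :=
  ⟨(a (b (a (c (b (l 531806863) (a (l 16763536) (b (l 16762440) (l 16758624)))) (b (l 531751567) (a (l 16763152) (b (l 16762360) (l 16761072))))) (b (a (a (l 16763392) (c (l 16762104) (l 16762536))) (b (a (l 16762312) (l 16761520)) (a (l 16755936) (l 16760544)))) (a (b (a (l 16756344) (l 16755616)) (c (l 16759872) (l 16759528))) (c (l 16759120) (l 16758648))))) (a (b (a (a (b (l 16761856) (l 16760576)) (b (l 16761136) (a (l 16760000) (l 16759600)))) (b (a (l 16757776) (l 16759600)) (l 16758552))) (b (a (a (l 16759200) (l 16758360)) (l 16757104)) (l 16759104))) (a (b (c (l 16757888) (l 16757376)) (l 16754752)) (b (l 16756056) (l 16753200))))) (a (a (b (b (c (l 16759736) (l 16759800)) (l 16757296)) (b (l 16754488) (c (l 16751872) (l 16751448)))) (b (b (l 16758400) (l 16755664)) (b (l 16752928) (l 16744936)))) (b (b (l 16755848) (l 16753224)) (b (l 16750584) (b (l 16753848) (l 16747280)))))), by decide +kernel⟩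

def k173_A00pm_102_s1 : ∃ t, chk3 f_A00pm_102_s1 t 58 74 1 = true :=
  ⟨(a (b (a (b (l 531652239) (l 531652751)) (b (l 531661967) (l 531662223))) (a (b (b (l 531654543) (l 531656079)) (b (l 531658383) (a (l 531660431) (a (b (l 16758928) (c (l 16758440) (l 16758104))) (b (c (a (l 16758504) (l 16758112)) (l 16757952)) (c (a (l 16757840) (l 16757416)) (l 16757264))))))) (b (a (a (l 531660431) (a (l 531662479) (b (l 16759944) (b (l 16758976) (l 16758328))))) (b (a (l 16759352) (b (l 16758896) (a (l 16758432) (l 16758008)))) (a (b (c (l 16758552) (l 16758152)) (c (l 16757864) (l 16757456))) (l 16757160)))) (a (b (a (b (l 16758664) (c (a (l 16758376) (l 16757960)) (a (l 16758008) (l 16757584)))) (b (c (l 16758016) (l 16757632)) (l 16757144))) (c (l 16756688) (c (l 16756416) (l 16756200)))) (c (l 16755656) (c (l 16760616) (l 16755144))))))) (b (a (b (a (l 531673999) (a (l 531681423) (b (l 16760568) (b (l 16759608) (l 16758936))))) (a (a (b (l 16760360) (b (l 16759392) (c (l 16758936) (l 16758504)))) (b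 (l 16759576) (b (c (l 16758784) (l 16758336)) (l 16757880)))) (b (a (b (l 16759104) (l 16758408)) (l 16757872)) (l 16756888)))) (a (b (b (a (c (l 16759992) (l 16754272)) (b (l 16759288) (l 16758584))) (c (l 16758168) (a (l 16758128) (l 16757232)))) (l 16758416)) (a (b (l 16757328) (b (l 16755168) (l 16753744))) (b (l 16756456) (l 16758824))))) (a (a (b (b (c (l 16757440) (a (l 16757456) (l 16756568))) (l 16755824)) (c (l 16759136) (l 16753488))) (b (l 16757368) (l 16757160))) (a (b (c (l 16753160) (l 16752704)) (l 16760608)) (b (l 16756424) (l 16748368)))))), by decide +kernel⟩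

def k174_A00pm_102_s1 : ∃ t, chk3 f_A00pm_102_s1 t 58 75 1 = true :=
  ⟨(a (b (a (b (a (b (a (l 531664015) (b (l 16758416) (a (c (l 16758112) (l 16757792)) (b (a (l 16757840) (l 16757640)) (l 16757392))))) (a (b (a (l 16758104) (b (l 16757880) (a (l 16757648) (l 16757440)))) (a (b (a (l 16757720) (l 16757520)) (l 16757280)) (c (l 16757168) (l 16756856)))) (c (a (b (l 16757440) (l 16756744)) (l 16756664)) (b (l 16756904) (l 16756216))))) (b (a (a (b (c (l 16757984) (l 16757648)) (l 16757144)) (c (l 16757216) (l 16756872))) (l 16756416)) (a (c (l 16756024) (l 16755704)) (l 16757640)))) (b (c (a (a (l 16758952) (l 16755480)) (l 16754200)) (a (l 16758232) (l 16753888))) (a (c (l 16759760) (l 16754232)) (l 16757912)))) (c (b (a (b (l 16760520) (l 16753880)) (l 16758080)) (l 16756160)) (b (c (l 16758688) (l 16758488)) (l 16755824)))) (a (b (a (c (l 16757688) (l 16757424)) (l 16755848)) (c (l 16754104) (l 16759104))) (b (a (l 16759360) (l 16747136)) (l 16755768)))) (a (b (b (b (l 16755952) (l 16759800))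 (l 16757728)) (a (l 16754504) (l 16752744))) (b (b (l 16756952) (l 16754192)) (b (l 16740984) (l 16738280))))), by decide +kernel⟩

def k175_A00pm_102_s1 : ∃ t, chk3 f_A00pm_102_s1 t 59 37 1 = true :=
  ⟨(a (b (a (b (b (c (l 16754560) (a (l 16754896) (l 16753248))) (a (l 16757552) (l 16755904))) (b (b (l 16759848) (l 16747960)) (l 16756352))) (b (b (a (l 16757144) (l 16755592)) (l 16753544)) (c (l 16754808) (l 16754448)))) (b (a (a (l 16753032) (l 16751440)) (l 16743920)) (a (c (l 16736472) (l 16736216)) (c (l 16733432) (l 16733240))))) (a (b (b (b (a (l 16748872) (l 16747416)) (l 16755872)) (a (l 16752440) (l 16751056))) (b (b (l 16737200) (l 16734528)) (c (l 16730624) (l 16730544)))) (b (b (b (l 16755768) (l 16753088)) (b (l 16739920) (l 16737264))) (b (l 16722784) (l 16717552))))), by decide +kernel⟩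

def k176_A00pm_102_s1 : ∃ t, chk3 f_A00pm_102_s1 t 112 76 1 = true :=
  ⟨(b (b (a (c (l 531726479) (l 531841167)) (a (b (l 532078735) (l 532061071)) (c (c (l 531740303) (l 531792271)) (l 532146319)))) (a (c (l 531440783) (l 531799951)) (a (c (l 531461151) (l 531818127)) (c (c (l 531458959) (l 531768463)) (b (l 531844495) (l 531826319)))))) (a (b (b (l 531739279) (l 531465615)) (c (l 531442063) (b (l 531756687) (l 531750799)))) (b (c (a (l 531456031) (b (l 531741839) (l 531742095))) (b (l 531936655) (l 531857807))) (b (a (c (l 531728527) (l 531775119)) (b (l 532036239) (l 532035727))) (a (c (l 531734671) (l 531769231)) (c (l 531751055) (l 532053135))))))), by decide +kernel⟩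

def k177_A00pm_102_s1 : ∃ t, chk3 f_A00pm_102_s1 t 113 152 1 = true :=
  ⟨(a (a (c (b (c (b (l 531767951) (l 531488911)) (b (l 531823247) (l 531807119))) (b (l 531855391) (l 531798559))) (c (b (l 531871887) (l 531967887)) (b (l 531880079) (l 531881103)))) (c (b (a (b (l 531814287) (l 531799951)) (c (l 531927071) (l 531836815))) (a (b (l 531789455) (l 531782287)) (b (l 531801743) (l 531794063)))) (b (b (l 531843727) (l 531860623)) (b (l 531674255) (a (l 531865999) (l 531878799)))))) (b (b (c (a (c (l 531808911) (l 531816335)) (c (l 531794575) (l 531798415))) (a (l 531818383) (b (l 531791503) (l 531799439)))) (c (a (c (l 531805327) (l 531827599)) (c (l 531802767) (l 531809167))) (a (l 531834767) (c (l 531811471) (l 531809679))))) (c (b (c (a (l 531797903) (l 531810447)) (a (l 531838351) (l 531819407))) (c (a (l 531792783) (l 531749407)) (a (l 531833231) (l 531829135)))) (c (a (b (l 531847311) (l 531860367)) (b (l 531824783) (l 531837583))) (a (b (l 531852943) (l 531869839)) (b (l 531826831) (l 531826319))))))),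 by decide +kernel⟩

def k178_A00pm_102_s1 : ∃ t, chk3 f_A00pm_102_s1 t 226 153 1 = true :=
  ⟨(b (a (c (b (a (l 531756687) (l 531767183)) (l 531895327)) (b (l 531831951) (l 531819407))) (c (b (c (l 531901327) (l 531800975)) (c (l 531903119) (a (l 531791759) (l 531803023)))) (b (c (l 531836815) (l 531874703)) (c (l 531826831) (l 531858063))))) (a (c (b (l 531898255) (b (l 531767951) (b (a (l 16757056) (c (l 16756392) (l 16756456))) (a (l 16756744) (a (l 16756272) (a (l 16756032) (l 16755896))))))) (a (b (l 531805071) (l 531932815)) (b (l 531949711) (b (l 531809935) (a (l 16756552) (b (l 16756400) (a (b (l 16756240) (l 16756080)) (b (l 16756088) (l 16755944))))))))) (b (c (a (l 531913871) (a (a (l 16756808) (b (l 16756960) (b (l 16756488) (b (l 16756256) (l 16756112))))) (b (l 531792527) (b (a (l 16756328) (b (l 16756256) (l 16756112))) (a (b (l 16756112) (l 16755976)) (l 16755920)))))) (b (a (l 531828623) (l 531840143)) (a (l 531824271) (a (b (l 16756752) (a (l 16756512) (b (l 16756432) (l 16756280))))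 (b (a (b (l 16756600) (l 16756440)) (b (l 16756448) (l 16756304))) (a (b (l 16756288) (l 16756152)) (l 16756088))))))) (a (b (a (a (l 531932047) (b (l 16756576) (c (l 16756184) (l 16756328)))) (a (b (l 16756416) (c (b (l 16756104) (l 16755968)) (b (l 16756256) (l 16756112)))) (b (b (l 16756344) (c (l 16756104) (l 16756264))) (c (l 16755904) (b (l 16756120) (l 16755984)))))) (c (a (b (a (b (l 16756104) (l 16755960)) (l 16755904)) (l 16755704)) (l 16755584)) (a (b (a (b (l 16756248) (l 16756096)) (b (l 16756104) (l 16755960))) (l 16755824)) (l 16755704)))) (b (a (b (a (c (b (l 16756104) (l 16755968)) (b (l 16756272) (l 16756128))) (c (l 16755912) (l 16756072))) (l 16755784)) (b (l 16755800) (l 16755536))) (c (l 16755208) (l 16755320))))))), by decide +kernel⟩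

def k179_A00pm_102_s1 : ∃ t, chk3 f_A00pm_102_s1 t 454 306 1 = true :=
  ⟨(a (b (c (c (l 531784591) (l 531819151)) (l 531874959)) (b (c (l 531666063) (l 531863951)) (b (l 531829135) (c (c (l 16756664) (l 16756776)) (a (l 531853199) (l 16756792)))))) (c (b (c (l 531796623) (l 531831695)) (a (a (b (l 16757120) (b (l 531807631) (b (a (l 16756448) (l 16756368)) (l 16756264)))) (b (l 16756960) (b (b (l 16756568) (l 16756408)) (l 16756208)))) (a (b (l 16756800) (b (b (l 16756408) (l 16756280)) (l 16756080))) (b (b (l 16756808) (b (l 16756568) (l 16756416))) (l 16756088))))) (b (l 531772191) (a (b (l 531873935) (b (a (l 16756888) (b (l 16756816) (l 16756648))) (a (b (l 16756640) (l 16756496)) (l 16756440)))) (b (b (l 16757136) (a (l 16756904) (b (l 16756816) (l 16756664)))) (b (a (b (l 16756664) (l 16756520)) (l 16756424)) (l 16756208))))))), by decide +kernel⟩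

def k180_A00pm_102_s1 : ∃ t, chk3 f_A00pm_102_s1 t 455 306 1 = true :=
  ⟨(b (a (a (c (c (l 531805839) (l 531841423)) (l 531863695)) (b (c (l 531830671) (l 16757456)) (b (l 531848079) (b (a (l 16756824) (c (a (l 16756608) (l 16756536)) (l 16756688))) (a (c (l 16756568) (l 16756728)) (c (l 16756432) (l 16756536))))))) (b (a (b (l 531837839) (b (l 531839631) (b (l 531840655) (c (l 16756744) (l 16756832))))) (a (b (l 531833999) (c (b (l 16756664) (l 16756504)) (b (a (l 16756792) (l 16756696)) (a (l 16756640) (l 16756544))))) (b (b (l 16756832) (a (l 16756728) (b (l 16756672) (l 16756592)))) (c (l 16756392) (b (l 16756552) (l 16756392)))))) (a (b (b (b (a (l 16756808) (a (l 16756672) (l 16756576))) (a (l 16756728) (l 16756544))) (a (c (a (l 16756608) (l 16756512)) (a (l 16756704) (l 16756608))) (l 16756424))) (c (l 16756224) (l 16756320))) (a (b (l 16756312) (l 16755992)) (l 16755952))))) (b (a (a (a (b (c (l 16756648) (l 16756864)) (b (c (l 16756424) (l 16756632)) (l 16756416))) (b (c (b (l 16756568)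 (l 16756424)) (b (l 16756760) (l 16756600))) (l 16756304))) (b (a (c (l 16756368) (l 16756488)) (l 16756248)) (l 16756016))) (c (l 16755552) (l 16755648))) (a (c (a (l 16755848) (l 16755472)) (l 16755792)) (l 16754960)))), by decide +kernel⟩

def k181_A00pm_102_s1 : ∃ t, chk3 f_A00pm_102_s1 t 227 307 1 = true :=
  ⟨(a (b (a (b (a (c (b (l 16756568) (a (b (l 16756408) (l 16756256)) (b (a (l 16756288) (l 16756224)) (l 16756120)))) (b (l 531850639) (a (b (l 16756616) (a (l 16756488) (l 16756416))) (l 16756392)))) (a (b (b (l 16756512) (b (l 16756400) (l 16756328))) (c (l 16756056) (l 16756264))) (b (c (l 16756200) (l 16756416)) (l 16756032)))) (a (b (c (l 16755992) (l 16756184)) (l 16755816)) (b (l 16755832) (l 16755568)))) (a (b (c (l 16755880) (l 16756088)) (l 16755384)) (b (l 16755656) (l 16755008)))) (c (b (l 16754832) (l 16754184)) (a (l 16755072) (l 16754328)))) (c (c (l 16756248) (l 16756320)) (c (l 16756392) (l 16756480)))), by decide +kernel⟩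

def k182_A00pm_102_s1 : ∃ t, chk3 f_A00pm_102_s1 t 224 154 1 = true :=
  ⟨(c (a (b (l 531453071) (l 531750031)) (b (l 531466895) (b (l 531755407) (a (b (l 16756376) (l 16755776)) (b (a (l 16755912) (l 16755608)) (l 16755224)))))) (c (b (l 531743375) (b (l 531750287) (a (l 16756984) (a (b (l 16756360) (a (l 16755896) (l 16755584))) (b (a (l 16755888) (b (l 16755728) (l 16755440))) (l 16755176)))))) (b (l 531751823) (b (l 531748495) (a (l 531744399) (a (a (l 16756168) (b (l 16756176) (b (l 16755696) (l 16755384)))) (a (b (l 16755856) (l 16755256)) (b (b (l 16755696) (l 16755400)) (l 16754976))))))))), by decide +kernel⟩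

def k183_A00pm_102_s1 : ∃ t, chk3 f_A00pm_102_s1 t 225 154 1 = true :=
  ⟨(b (c (a (b (l 531743631) (l 531755151)) (b (b (l 531757199) (a (l 16756928) (a (l 16756448) (b (l 16756288) (l 16755976))))) (a (b (c (l 16756288) (l 16756320)) (a (b (l 16756008) (a (l 16755776) (l 16755640))) (l 16755576))) (b (a (b (l 16755984) (a (l 16755768) (l 16755632))) (b (a (l 16755760) (l 16755632)) (l 16755432))) (l 16755176))))) (a (b (l 531766159) (l 532034447)) (b (a (l 531777423) (a (l 531783823) (b (l 16756856) (b (l 16756368) (a (l 16756128) (l 16755968)))))) (a (b (c (l 16756344) (l 16756368)) (a (b (l 16756040) (a (l 16755800) (l 16755656))) (b (a (l 16755800) (l 16755664)) (l 16755456)))) (a (b (b (l 16756040) (a (l 16755808) (l 16755680))) (l 16755328)) (b (b (a (c (l 16755808) (l 16755832)) (l 16755688)) (l 16755472)) (l 16755064))))))) (a (b (c (a (b (l 16756344) (a (l 16755888) (l 16755592))) (b (a (l 16755864) (l 16755584)) (l 16755192))) (a (b (l 16756352) (a (c (l 16755880) (l 16755856)) (b (l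 16755712) (l 16755432)))) (b (a (b (l 16756032) (c (l 16755720) (l 16755712))) (b (c (l 16755720) (l 16755720)) (l 16755440))) (a (b (l 16755440) (l 16755152)) (l 16755024))))) (a (c (b (l 16755208) (l 16754688)) (b (a (b (l 16755424) (l 16755144)) (l 16755008)) (l 16754600))) (c (l 16754416) (l 16754336)))) (b (a (b (a (a (c (l 16755376) (l 16755376)) (l 16755248)) (l 16755056)) (l 16754656)) (c (l 16754408) (l 16754368))) (c (l 16753488) (l 16753528))))), by decide +kernel⟩

def k184_A00pm_102_s1 : ∃ t, chk3 f_A00pm_102_s1 t 112 155 1 = true :=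
  ⟨(a (b (a (a (b (c (l 16756104) (c (l 16756048) (b (l 16756312) (a (l 16755832) (l 16755512))))) (b (c (l 16755264) (a (l 16755264) (l 16754992))) (l 16754664))) (b (c (b (l 16755792) (l 16755248)) (b (a (l 16755872) (b (l 16755720) (l 16755408))) (a (c (l 16755304) (l 16755232)) (l 16754992)))) (c (l 16754352) (l 16754296)))) (b (a (a (c (l 16755112) (b (b (l 16755408) (l 16755128)) (l 16754720))) (c (l 16754832) (l 16754720))) (c (l 16754424) (l 16754312))) (c (l 16753424) (l 16753488)))) (b (c (l 16755352) (a (l 16753488) (l 16752392))) (l 16756832))) (b (c (b (l 16752832) (l 16751528)) (b (l 16755584) (l 16751856))) (a (l 16755632) (l 16749104)))), by decide +kernel⟩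

def k185_A00pm_102_s1 : ∃ t, chk3 f_A00pm_102_s1 t 113 77 1 = true :=
  ⟨(b (a (a (b (b (a (a (b (l 531781263) (c (c (b (l 16755952) (l 16755680)) (b (l 16755992) (l 16755720))) (b (a (l 16756136) (b (l 16756056) (l 16755904))) (a (l 16755832) (l 16755696))))) (b (b (l 531785359) (c (a (l 16756040) (l 16755896)) (a (l 16756136) (b (l 16756064) (l 16755920))))) (b (c (b (l 16755760) (l 16755632)) (a (l 16755848) (l 16755712))) (l 16755472)))) (b (a (b (c (a (l 16756040) (l 16755896)) (a (l 16756144) (b (l 16756072) (l 16755936)))) (c (a (l 16755760) (l 16755632)) (a (l 16755856) (l 16755720)))) (b (c (l 16755704) (a (l 16755872) (l 16755744))) (l 16755488))) (c (l 16755184) (l 16755248)))) (a (b (c (l 16755184) (l 16755216)) (l 16754672)) (b (l 16754688) (l 16754160)))) (c (l 16755424) (l 16755648))) (b (b (b (a (c (l 16755192) (l 16755280)) (l 16754736)) (c (l 16754328) (l 16754472))) (l 16756104)) (l 16754168))) (b (a (b (l 16755936) (l 16752032)) (a (l 16751560) (l 16750800))) (l 16754616))) (b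 (a (l 16754920) (l 16746816)) (a (l 16747088) (l 16744248)))), by decide +kernel⟩

def k186_A00pm_102_s1 : ∃ t, chk3 f_A00pm_102_s1 t 228 304 1 = true :=
  ⟨(c (c (a (b (l 531782031) (l 531789455)) (b (l 531720847) (a (l 531781007) (b (l 16757640) (a (b (l 16757360) (l 16757048)) (b (a (l 16757080) (l 16756904)) (a (b (l 16756848) (l 16756688)) (l 16756576)))))))) (a (b (l 531782799) (b (l 531790479) (l 531795343))) (b (l 531769231) (b (l 531776143) (b (a (l 16757904) (a (l 16757360) (l 16756992))) (a (l 16757600) (a (l 16757048) (a (b (l 16756848) (l 16756688)) (l 16756576))))))))) (c (a (b (l 531778959) (l 531792015)) (b (l 531762319) (a (l 531778959) (a (b (l 16757800) (l 16757192)) (b (l 16757432) (b (l 16756976) (a (b (l 16756840) (l 16756680)) (l 16756560)))))))) (a (b (l 531770255) (l 531786895)) (b (l 531750799) (b (l 531762831) (a (l 16757720) (a (l 16757160) (b (l 16756944) (a (b (l 16756808) (l 16756648)) (l 16756528)))))))))), by decide +kernel⟩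

def k187_A00pm_102_s1 : ∃ t, chk3 f_A00pm_102_s1 t 456 305 1 = true :=
  ⟨(b (c (a (c (l 531799951) (l 531806607)) (b (l 531794575) (a (l 531800207) (b (l 16757208) (a (l 16756992) (b (l 16756888) (a (l 16756776) (l 16756688)))))))) (b (l 531800719) (a (l 531813263) (a (l 16757440) (b (l 16757224) (a (l 16757008) (b (l 16756904) (l 16756752)))))))) (a (c (b (l 531809679) (a (b (l 16757064) (a (l 16756840) (b (l 16756736) (a (l 16756632) (l 16756536))))) (b (a (b (l 16756864) (l 16756712)) (b (a (l 16756728) (l 16756640)) (l 16756528))) (a (b (a (l 16756600) (l 16756504)) (l 16756392)) (l 16756280))))) (b (l 531820175) (a (b (l 16757112) (a (l 16756904) (b (l 16756800) (a (l 16756688) (l 16756592))))) (b (a (b (l 16756912) (l 16756768)) (b (l 16756728) (l 16756576))) (a (b (l 16756608) (l 16756448)) (l 16756336)))))) (b (a (b (c (c (l 16756936) (l 16756968)) (l 16756984)) (a (a (c (l 16756784) (l 16756824)) (b (l 16756792) (c (l 16756608) (l 16756648)))) (c (b (a (l 16756680) (l 16756584)) (l 16756464))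 (b (a (l 16756712) (l 16756616)) (l 16756504))))) (b (a (c (b (a (l 16756808) (l 16756712)) (a (b (l 16756688) (l 16756608)) (l 16756552))) (b (l 16756784) (l 16756624))) (b (c (a (l 16756624) (l 16756528)) (l 16756592)) (l 16756424))) (c (a (l 16756360) (l 16756160)) (l 16756288)))) (a (b (a (c (l 16756416) (l 16756456)) (l 16756248)) (l 16756016)) (c (b (l 16755936) (l 16755608)) (l 16755808)))))), by decide +kernel⟩

def k188_A00pm_102_s1 : ∃ t, chk3 f_A00pm_102_s1 t 457 305 1 = true :=
  ⟨(b (a (c (a (b (l 531789455) (b (a (l 16756936) (b (l 16756832) (a (l 16756720) (l 16756632)))) (a (b (a (l 16756752) (l 16756656)) (l 16756544)) (b (l 16756512) (l 16756352))))) (b (b (l 16757104) (a (b (l 16756960) (l 16756808)) (b (l 16756776) (l 16756616)))) (b (a (b (a (l 16756696) (l 16756600)) (l 16756488)) (l 16756368)) (l 16756136)))) (a (a (b (l 16757400) (b (l 16756944) (b (l 16756712) (l 16756560)))) (b (l 16757216) (b (b (l 16756832) (l 16756680)) (l 16756440)))) (b (b (l 16757088) (a (l 16756880)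 (b (l 16756768) (l 16756608)))) (b (a (b (l 16756648) (l 16756488)) (l 16756368)) (l 16756144))))) (b (a (a (b (b (l 16756904) (c (a (l 16756800) (l 16756704)) (l 16756736))) (c (b (l 16756592) (l 16756424)) (l 16756496))) (b (a (b (l 16756768) (l 16756608)) (c (l 16756592) (l 16756568))) (c (l 16756312) (l 16756296)))) (c (b (l 16756352) (l 16756016)) (b (l 16756320) (l 16756000)))) (b (a (c (l 16756080) (l 16756072)) (l 16755688)) (c (l 16755552) (l 16755544))))) (c (a (b (a (b (a (l 16756296) (l 16756104)) (l 16755872)) (l 16755648)) (a (l 16755376) (l 16754992))) (c (l 16757344) (l 16757352))) (a (b (a (b (l 16756216) (l 16755896)) (l 16755656)) (l 16755208)) (l 16757360)))), by decide +kernel⟩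

def k189_A00pm_102_s1 : ∃ t, chk3 f_A00pm_102_s1 t 458 304 1 = true :=
  ⟨(c (b (c (a (l 531764367) (a (b (l 16757616) (b (l 16757144) (a (b (l 16757000) (l 16756848)) (b (l 16756816) (l 16756656))))) (b (b (l 16757408) (a (l 16757184) (l 16757000))) (b (a (b (l 16756952) (l 16756792)) (l 16756672)) (l 16756440))))) (a (l 531760271) (a (b (l 16757592) (b (l 16757128) (a (l 16756912) (l 16756720)))) (b (b (l 16757384) (l 16757072)) (b (a (b (l 16756928) (l 16756768)) (l 16756656)) (l 16756424)))))) (b (b (a (a (l 16757248) (a (l 16756976) (b (l 16756872) (l 16756704)))) (a (a (l 16756592) (l 16756400)) (l 16756096))) (a (a (a (l 16757032) (b (l 16756928) (l 16756768))) (a (b (l 16756736) (l 16756576)) (l 16756456))) (l 16755968))) (a (b (a (a (b (l 16756800) (l 16756632)) (l 16756520)) (l 16756224)) (a (l 16756288) (l 16755896))) (a (l 16755664) (l 16755264))))) (b (a (l 531879311) (a (b (l 16757528) (b (l 16757064) (a (l 16756856) (l 16756656)))) (b (b (l 16757304) (l 16757000)) (b (a (b (l 16756864)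 (l 16756704)) (l 16756584)) (l 16756360))))) (b (b (a (a (l 16757200) (a (l 16756920) (b (l 16756808) (l 16756648)))) (a (l 16756432) (l 16756024))) (a (a (a (l 16756984) (b (l 16756872) (l 16756720))) (a (l 16756600) (l 16756408))) (l 16755904))) (a (a (b (a (b (l 16756752) (l 16756592)) (l 16756480)) (l 16756248)) (l 16756016)) (l 16755408))))), by decide +kernel⟩

def k190_A00pm_102_s1 : ∃ t, chk3 f_A00pm_102_s1 t 459 304 1 = true :=
  ⟨(a (b (b (b (a (a (l 16757080) (b (l 16756976) (c (l 16756856) (l 16756760)))) (c (a (l 16756736) (l 16756544)) (l 16756536))) (a (c (a (b (l 16756888) (l 16756720)) (l 16756608)) (a (l 16756712) (l 16756512))) (l 16756264))) (a (c (l 16756200) (l 16756120)) (c (l 16755800) (l 16755712)))) (c (c (l 16757632) (l 16754984)) (l 16757544))) (b (b (c (a (l 16756072) (l 16755672)) (l 16755760)) (c (l 16755200) (l 16755104))) (c (l 16754200) (l 16754112)))), by decide +kernel⟩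

def k191_A00pm_102_s1 : ∃ t, chk3 f_A00pm_102_s1 t 229 305 1 = true :=
  ⟨(b (c (a (a (b (c (l 16755592) (l 16755592)) (l 16754928)) (l 16757088)) (a (l 16753672) (l 16752864))) (a (a (c (l 16757864) (l 16755216)) (l 16754424)) (l 16755832))) (a (a (b (l 16756888) (l 16753616)) (l 16755760)) (l 16757168))), by decide +kernel⟩

def k192_A00pm_102_s1 : ∃ t, chk3 f_A00pm_102_s1 t 114 153 1 = true :=
  ⟨(a (b (a (c (b (a (b (a (b (a (b (a (l 16756656) (l 16756560)) (l 16756448)) (l 16756336)) (l 16756112)) (l 16755888)) (l 16755432)) (b (a (b (l 16755664) (l 16755336)) (l 16755112)) (l 16754656))) (l 16756688)) (a (b (b (a (b (a (b (a (l 16756728) (l 16756632)) (l 16756520)) (l 16756408)) (l 16756184)) (b (l 16756112) (l 16755792))) (a (b (l 16755864) (l 16755544)) (l 16755312))) (b (l 16754872) (l 16754232))) (b (b (a (l 16755560) (l 16755160)) (l 16754720)) (l 16753760)))) (b (a (c (l 16756824) (l 16756864)) (b (l 16753760) (l 16753104))) (a (b (l 16753256) (l 16752608)) (l 16752136)))) (a (b (l 16755448)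 (l 16751552)) (l 16755848))) (b (a (b (a (l 16755256) (l 16751832)) (l 16756176)) (l 16755200)) (c (l 16753408) (a (l 16749040) (l 16747400))))), by decide +kernel⟩

def k193_A00pm_102_s1 : ∃ t, chk3 f_A00pm_102_s1 t 115 76 1 = true :=
  ⟨(b (a (b (a (b (a (c (l 16757352) (l 16754616)) (l 16756480)) (c (l 16752984) (l 16752880))) (c (l 16757264) (l 16757128))) (c (l 16755408) (l 16755320))) (b (a (l 16755528) (l 16753840)) (b (l 16757928) (l 16746120)))) (a (b (b (l 16753392) (l 16757328)) (a (l 16745720) (l 16744056))) (b (l 16754632) (l 16741536)))), by decide +kernel⟩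

def k194_A00pm_102_s1 : ∃ t, chk3 f_A00pm_102_s1 t 57 77 1 = true :=
  ⟨(a (b (a (b (b (l 16749488) (l 16748216)) (l 16746304)) (b (l 16745624) (l 16743096))) (b (a (l 16743784) (l 16740576)) (a (l 16741240) (l 16738056)))) (b (a (b (a (l 16743152) (l 16741488)) (l 16739776)) (b (l 16738952) (l 16736400))) (a (b (l 16726768) (l 16724264)) (c (b (l 16733832) (l 16731288)) (l 16722232))))), by decide +kernel⟩

def k195_A00pm_102_s1 : ∃ t, chk3 f_A00pm_102_s1 t 28 39 1 = true :=
  ⟨(b (b (a (a (a (b (l 16754840) (l 16746960)) (l 16751032)) (c (l 16741600) (l 16742024))) (a (c (l 16735680) (l 16736056)) (c (c (l 16739640) (l 16739704)) (b (l 16720224) (l 16707272))))) (a (a (b (l 16753600) (l 16740512)) (a (l 16737984) (l 16735216))) (a (l 16736008) (c (l 16745136) (l 16724584))))) (a (a (a (b (l 16737816) (l 16732656)) (b (l 16735400) (l 16730272))) (a (b (l 16732856) (l 16727760)) (b (l 16730128) (l 16725088)))) (b (a (c (l 16715032) (l 16726112)) (a (l 16721080) (l 16696832))) (a (a (l 16722256)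 (l 16719288)) (b (l 16715808) (a (l 16714968) (c (l 16711448) (l 16701648)))))))), by decide +kernel⟩

def k196_A00pm_102_s1 : ∃ t, chk3 f_A00pm_102_s1 t 58 38 1 = true :=
  ⟨(b (a (c (b (a (l 16755288) (l 16741368)) (a (l 16739488) (l 16736048))) (b (a (l 16755112) (l 16741168)) (a (l 16739400) (l 16735944)))) (b (a (b (l 16739096) (l 16736440)) (c (l 16734408) (l 16734192))) (a (c (l 16727336) (l 16732456)) (c (b (l 16730424) (l 16727800)) (l 16728992))))) (a (a (b (c (l 16734272) (l 16734288)) (c (b (l 16730424) (l 16727872)) (l 16734512))) (c (b (c (l 16730872) (l 16730808)) (b (l 16726976) (l 16724416))) (b (l 16730824) (b (l 16727048) (l 16724544))))) (a (a (c (b (l 16728232) (b (l 16724368) (l 16721816))) (b (l 16728216) (l 16723184))) (c (b (l 16726488) (b (l 16722632) (l 16720080))) (b (l 16726472) (l 16721440)))) (c (b (b (l 16725192) (c (l 16722656) (l 16722584))) (c (b (a (l 16720928) (l 16719240)) (b (a (l 16719016) (l 16717320)) (l 16716888))) (b (l 16720032) (l 16717488)))) (b (l 16718640)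 (b (l 16720112) (l 16717616))))))), by decide +kernel⟩

def k197_A00pm_102_s1 : ∃ t, chk3 f_A00pm_102_s1 t 118 38 1 = true :=
  ⟨(b (c (a (b (l 16731120) (b (l 16727160) (l 16724544))) (b (l 16728112) (b (l 16724176) (l 16721576)))) (b (a (l 16730944) (l 16728024)) (a (l 16725776) (l 16722880)))) (c (b (b (a (l 16721944) (c (l 16719024) (l 16718976))) (b (a (l 16720008) (a (l 16717776) (a (l 16716712) (l 16715944)))) (a (l 16718728) (a (l 16716488) (a (l 16715344) (l 16714448)))))) (a (b (a (l 16717592) (a (l 16716432) (a (l 16715864) (b (l 16716128) (l 16714840))))) (a (b (l 16715680) (b (l 16714728) (l 16714080))) (b (c (b (a (l 16714864) (a (l 16714280) (l 16713848))) (a (b (l 16714384) (l 16714056)) (l 16713336))) (b (l 16714416) (a (l 16714184) (l 16713296)))) (c (b (a (l 16713536) (l 16712584)) (l 16712320)) (l 16712640))))) (b (b (a (a (l 16715568) (c (l 16714800) (l 16714760))) (l 16713392)) (a (a (a (a (l 16714544) (l 16714336)) (l 16713992)) (l 16713272)) (l 16711864))) (b (c (b (l 16711712)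 (c (l 16711000) (l 16710920))) (l 16711240)) (l 16714992))))) (b (a (c (l 16720640) (l 16720736)) (b (l 16719064) (a (l 16717240) (l 16720936)))) (a (b (c (l 16716840) (l 16716984)) (a (b (l 16715808) (l 16714552)) (b (a (l 16714656) (l 16713792)) (l 16712760)))) (b (a (c (l 16719712) (l 16714624)) (l 16712664)) (c (l 16720952) (l 16710560))))))), by decide +kernel⟩

def k198_A00pm_102_s1 : ∃ t, chk3 f_A00pm_102_s1 t 119 38 1 = true :=
  ⟨(b (b (a (c (l 16725352) (l 16725376)) (b (a (l 16724760) (l 16723552)) (a (l 16722168) (l 16731296)))) (a (a (b (l 16722104) (c (l 16719512) (l 16719632))) (b (l 16720824) (c (l 16728560) (l 16718216)))) (b (a (c (l 16719400) (l 16719560)) (l 16717808)) (l 16726048)))) (a (c (b (b (a (a (l 16722464) (l 16716432)) (l 16715112)) (l 16718184)) (b (c (l 16709952) (l 16709808)) (b (a (l 16713720) (l 16706656)) (l 16706032)))) (b (b (a (l 16716920) (l 16715184)) (l 16712952)) (b (l 16709784) (l 16717088)))) (b (c (b (l 16712512) (l 16709432)) (l 16710888)) (c (b (l 16706328)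 (b (l 16703992) (l 16702464))) (b (l 16706096) (l 16702888)))))), by decide +kernel⟩

def k199_A00pm_102_s1 : ∃ t, chk3 f_A00pm_102_s1 t 29 39 1 = true :=
  ⟨(b (a (b (a (a (a (l 16735480) (l 16733752)) (b (l 16727160) (l 16719424))) (a (c (b (l 16718408) (l 16715896)) (l 16717344)) (b (c (b (l 16715592) (l 16724800)) (l 16725600)) (c (a (l 16713272) (l 16711408)) (l 16722976))))) (a (a (l 16740200) (l 16726240)) (a (b (c (l 16713376) (l 16713656)) (l 16721312)) (b (l 16720016) (l 16706520))))) (c (a (b (b (a (a (a (b (l 16713520) (l 16712144)) (l 16717128)) (l 16710392)) (l 16707480)) (l 16716872)) (l 16722864)) (b (a (l 16712720) (l 16698656)) (l 16694376))) (b (a (b (a (b (l 16722688) (l 16710704)) (l 16707360)) (l 16706256)) (l 16715688)) (a (l 16701568) (l 16693624))))) (a (b (a (a (l 16717032) (b (l 16712064) (a (l 16710480) (l 16708376)))) (b (a (l 16708000) (l 16703520)) (l 16723728))) (b (a (a (c (l 16710480) (l 16690064)) (l 16706560)) (l 16720760)) (a (a (b (l 16719152) (l 16707216)) (l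 16703632)) (a (l 16699152) (l 16694568))))) (b (a (b (l 16697104) (l 16694064)) (b (l 16689320) (l 16686248))) (b (a (l 16691040) (l 16683176)) (a (l 16698512) (l 16680120)))))), by decide +kernel⟩

def k200_A00pm_102_s1 : ∃ t, chk3 f_A00pm_102_s1 t 120 144 1 = true :=
  ⟨(b (a (b (a (b (c (a (c (c (l 532024975) (l 16764576)) (l 16764736)) (c (a (c (b (l 16763904) (l 16763536)) (l 16763960)) (b (a (l 531816335) (a (b (l 532091791) (b (l 16763512) (l 16763432))) (c (b (b (l 16763464) (l 16763384)) (l 16763280)) (b (l 16763672) (l 16763528))))) (c (a (b (a (l 16763368) (l 16763272)) (l 16763176)) (l 16763128)) (a (b (l 16763568) (l 16763424)) (l 16763376))))) (a (l 16764176) (b (a (l 16764016) (l 16763816)) (l 16763632))))) (a (l 531956111) (a (c (l 16763784) (l 16763336)) (b (a (l 16763392) (l 16763184)) (a (l 16763136) (l 16762896)))))) (b (a (c (l 531850895) (l 16763784)) (a (c (c (c (a (l 16763272) (l 16763112)) (a (l 16763520) (l 16763352))) (l 16763792)) (c (l 16763400) (l 16762952))) (c (c (l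 16763064) (l 16763328)) (l 16762712)))) (a (c (c (a (l 16763760) (c (l 16763224) (l 16763464))) (l 16764048)) (l 16763536)) (a (c (c (c (l 16762920) (l 16763160)) (l 16763504)) (l 16762896)) (l 16762816))))) (c (b (a (c (a (b (c (a (b (a (l 16763352) (l 16763304)) (l 16763208)) (l 16763176)) (l 16763472)) (l 16763112)) (l 16763040)) (l 16763040)) (l 16762200)) (l 16762080)) (a (c (c (l 16765056) (l 16762216)) (l 16761872)) (l 16763704)))) (a (b (c (a (a (b (l 16763640) (c (a (l 16763136) (l 16762944)) (l 16763544))) (b (c (a (l 16763096) (l 16762944)) (l 16763536)) (l 16763000))) (l 16762816)) (a (a (l 16763360) (l 16762920)) (l 16762184))) (a (c (a (b (l 16760368) (l 16762736)) (l 16762648)) (l 16762544)) (l 16761960))) (a (l 16761280) (l 16760280)))) (a (b (c (l 16760360) (b (l 16759848) (l 16759256))) (l 16758776)) (c (l 16762944) (l 16756928)))) (a (a (c (l 16763808) (l 16760496)) (l 16764176)) (l 16761240))), by decide +kernel⟩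

def k201_A00pm_102_s1 : ∃ t, chk3 f_A00pm_102_s1 t 121 144 1 = true :=
  ⟨(a (b (a (l 16760520) (l 16763680)) (a (l 16753032) (l 16751032))) (b (l 16760512) (l 16747984))), by decide +kernel⟩

def k202_A00pm_102_s1 : ∃ t, chk3 f_A00pm_102_s1 t 60 145 1 = true :=
  ⟨(a (b (a (l 16757400) (l 16753656)) (c (l 16753352) (l 16752856))) (a (b (l 16760336) (l 16747664)) (a (l 16751152) (l 16743976)))), by decide +kernel⟩

def k203_A00pm_102_s1 : ∃ t, chk3 f_A00pm_102_s1 t 60 73 1 = true :=
  ⟨(a (b (a (b (l 16752432) (b (l 16745328) (l 16754568))) (b (a (l 16749848) (l 16748112)) (l 16741400))) (a (b (a (l 16748240) (l 16746672)) (l 16739712)) (b (l 16739056) (l 16731456)))) (b (a (c (l 16754992) (l 16739032)) (c (l 16740952) (l 16740824))) (b (l 16744696) (a (l 16738880) (l 16725216))))), by decide +kernel⟩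

def k204_A00pm_102_s1 : ∃ t, chk3 f_A00pm_102_s1 t 61 36 1 = true :=
  ⟨(b (b (a (b (a (l 16745712) (l 16741240)) (a (l 16743840) (l 16739512))) (a (b (c (l 16736800) (l 16736176)) (l 16745336)) (b (l 16731312) (l 16729704)))) (a (a (b (l 16741968) (l 16740096)) (b (a (l 16738872) (l 16736696)) (c (l 16736120) (l 16735904)))) (a (c (l 16732448) (l 16732008)) (c (l 16727504) (l 16726816))))) (a (b (a (b (a (l 16739144) (l 16737256)) (l 16725768)) (c (l 16743680) (l 16722584))) (a (a (l 16734120) (l 16742600)) (c (l 16728968) (l 16728888)))) (c (b (l 16736720) (l 16732664)) (b (l 16736256) (l 16742752))))), by decide +kernel⟩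

def k205_A00pm_102_s1 : ∃ t, chk3 f_A00pm_102_s1 t 30 37 1 = true :=
  ⟨(a (a (b (b (b (l 16746240) (l 16738536)) (b (l 16736048) (l 16733512))) (a (b (l 16720400) (a (a (l 16726568) (l 16715496)) (l 16724992))) (b (l 16733656) (l 16722792)))) (b (b (a (l 16735512) (c (l 16721744) (l 16732472))) (a (l 16730752) (l 16727352))) (b (l 16728960) (l 16717896)))) (c (a (b (c (b (l 16726512) (l 16721664)) (b (l 16747456) (l 16721616))) (b (l 16737456) (l 16711056))) (b (b (l 16738800) (l 16713200)) (c (l 16726808) (l 16726592)))) (b (a (l 16734608) (b (l 16717488) (l 16712888))) (a (l 16713744) (c (l 16726440) (l 16726344)))))), by decide +kernel⟩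

def k206_A00pm_102_s1 : ∃ t, chk3 f_A00pm_102_s1 t 31 18 1 = true :=
  ⟨(b (a (a (b (b (c (a (l 16725640) (l 16720064)) (b (l 16722376) (l 16720864))) (c (a (l 16722280) (l 16716768)) (l 16728936))) (a (b (l 16728688) (l 16735296)) (b (l 16733600) (l 16708840)))) (c (b (b (a (l 16714224) (l 16708112)) (a (l 16710968) (l 16704896))) (a (l 16716080) (l 16720560))) (b (b (a (l 16712520) (l 16706088)) (l 16706288)) (c (l 16712040) (l 16721848))))) (c (b (a (b (a (l 16701776) (l 16695216)) (a (l 16698544) (l 16691960))) (b (b (l 16685808) (l 16684168)) (l 16692120))) (a (a (l 16714264) (l 16707656)) (a (l 16700800) (l 16693704)))) (b (a (b (a (l 16699432) (l 16692536)) (l 16692984)) (b (a (l 16685432) (l 16678112)) (l 16689184))) (a (b (l 16689744) (l 16686288)) (b (l 16675456) (l 16671984)))))) (a (c (b (a (a (l 16729272) (l 16724032)) (c (l 16715880) (l 16694288))) (a (c (l 16717464) (l 16696128)) (b (l 16687888) (l 16683104)))) (b (a (c (l 16726136) (l 16704856)) (b (l 16695496) (l 16691344))) (a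 (l 16716664) (l 16705568)))) (b (a (c (b (l 16684240) (l 16680088)) (b (l 16682560) (l 16678576))) (a (c (l 16672080) (l 16670120)) (b (l 16665752) (l 16661792)))) (a (b (l 16695952) (l 16670400)) (c (l 16680912) (l 16679216)))))), by decide +kernel⟩

def k207_A00pm_102_s1 : ∃ t, chk3 f_A00pm_102_s1 t 30 19 1 = true :=
  ⟨(b (a (b (a (b (a (b (l 16731904) (l 16718376)) (b (l 16718200) (l 16715112))) (a (a (l 16725048) (l 16733864)) (l 16731408))) (b (l 16732856) (a (l 16707216) (l 16704048)))) (c (b (a (a (l 16707592) (l 16704304)) (l 16699480)) (a (b (l 16711712) (a (l 16699784) (l 16696440))) (b (l 16694704) (l 16691544)))) (b (a (l 16716160) (l 16699072)) (a (b (l 16700824) (l 16718552)) (l 16713488))))) (b (a (b (a (l 16706968) (l 16703400)) (l 16720064)) (c (l 16715768) (l 16715360))) (b (a (l 16692792) (l 16685560)) (a (a (l 16687904) (l 16684624)) (b (l 16680816) (l 16677616)))))) (a (b (a (b (c (l 16714496) (l 16692792)) (l 16707848)) (b (l 16707448) (l 16701224))) (b (a (b (l 16682224) (l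 16679128)) (c (l 16674928) (l 16673240))) (a (b (l 16676032) (l 16683424)) (b (l 16669376) (c (l 16667440) (l 16665184)))))) (b (a (b (l 16679992) (c (l 16674568) (l 16673136))) (b (l 16673112) (c (l 16667848) (l 16666336)))) (b (a (c (l 16668592) (l 16666704)) (c (l 16661904) (l 16659880))) (a (c (b (l 16664120) (l 16661136)) (l 16660248)) (c (b (l 16657472) (l 16654520)) (l 16653440))))))), by decide +kernel⟩

def k208_A00pm_102_s1 : ∃ t, chk3 f_A00pm_102_s1 t 31 19 1 = true :=
  ⟨(b (a (a (b (c (l 16706792) (l 16706192)) (b (l 16676880) (b (l 16672344) (l 16669328)))) (b (c (l 16696408) (l 16674616)) (b (l 16666744) (b (l 16662392) (l 16659536))))) (b (a (c (l 16684616) (l 16662560)) (a (l 16674144) (l 16667104))) (a (b (l 16655136) (b (l 16650960) (l 16648240))) (b (l 16642048) (b (l 16638024) (l 16635440)))))) (b (a (b (a (l 16686104) (l 16676640)) (a (c (l 16660176) (l 16658576)) (c (l 16651272) (l 16649568)))) (b (a (l 16655192) (l 16642720)) (a (c (l 16640848) (l 16638992)) (c (l 16628936)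 (l 16626872))))) (a (b (a (c (b (l 16655952) (l 16653080)) (l 16652392)) (c (b (l 16647360) (l 16644688)) (l 16643784))) (a (c (a (l 16650608) (l 16646800)) (a (l 16647936) (l 16644064))) (a (b (l 16642800) (l 16639832)) (b (l 16638328) (l 16635480))))) (b (a (c (b (l 16637288) (l 16634856)) (l 16633656)) (c (l 16624632) (l 16621984))) (a (c (b (l 16632376) (l 16629856)) (a (l 16630656) (l 16625432))) (c (b (l 16621296) (l 16619008)) (a (l 16619824) (l 16613824)))))))), by decide +kernel⟩

def k209_A00pm_102_s1 : ∃ t, chk3 f_A00pm_102_s1 t 24 160 1 = true :=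
  ⟨(b (a (l 3) (l 3)) (a (l 3) (a (l 3) (b (c (a (l 3) (b (a (l 3) (b (a (l 3) (c (c (l 532937615) (l 532834959)) (c (l 532735119) (l 532638607)))) (c (c (l 532928911) (l 532825743)) (c (l 532725647) (l 532628623))))) (a (b (a (l 3) (a (l 3) (c (l 532864911) (l 532662159)))) (c (c (l 532907151) (l 532802191)) (c (l 532699791) (l 532600719)))) (c (l 532865935) (l 532682895))))) (a (l 3) (b (a (l 3) (b (a (l 3) (c (c (l 532545423) (l 532455567)) (c (l 532369807) (l 532288143)))) (c (c (l 532534927) (l 532444815)) (c (l 532358543) (l 532276367))))) (a (b (a (l 3) (a (l 3) (c (l 532472207) (l 532296847)))) (c (c (l 532505231) (l 532413071)) (c (l 532324751) (l 532240271)))) (c (l 532613407) (l 532307599)))))) (c (a (b (a (l 3) (b (a (l 3) (a (l 3) (c (l 532841103) (l 532634255)))) (c (c (l 532883599) (l 532776335)) (c (l 532672143) (l 532571279))))) (c (a (b (l 3) (c (l 532857743) (l 532748687))) (l 532817295)) (a (b (l 3) (a (l 3) (l 532594575))) (l 532609679)))) (c (c (l 532891279) (l 532787855)) (c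 (l 532687247) (l 532589711)))) (a (b (a (l 3) (b (a (l 3) (a (l 3) (c (l 532440207) (l 532261007)))) (c (c (l 532473487) (l 532379279)) (c (l 532288911) (l 532202639))))) (a (a (l 3) (b (l 3) (c (l 532396431) (l 532213135)))) (c (l 532414863) (l 532235151)))) (c (c (l 532495759) (l 532405391)) (c (l 532319119) (l 532236687))))))))), by decide +kernel⟩

def k210_A00pm_102_s1 : ∃ t, chk3 f_A00pm_102_s1 t 48 161 1 = true :=
  ⟨(b (l 3) (a (l 3) (b (b (l 3) (a (l 3) (a (l 3) (c (c (c (l 532682127) (l 532564623)) (b (l 532398735) (l 532388751))) (c (c (l 532230287) (l 532125583)) (c (l 532024975) (l 531927951))))))) (b (a (l 3) (c (c (c (l 532651663) (l 532533903)) (c (l 532418703) (l 532307087))) (c (c (l 532198543) (l 532093839)) (c (l 531992719) (l 531895439))))) (a (a (l 3) (c (c (c (l 532602511) (l 532481935)) (c (l 532364175) (l 532249487))) (c (c (l 532138383) (l 532030607)) (c (l 531926671) (l 531826831))))) (c (c (l 532570255) (l 532342415)) (c (l 532127887) (l 531927951)))))))), by decide +kernel⟩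

def k211_A00pm_102_s1 : ∃ t, chk3 f_A00pm_102_s1 t 49 161 1 = true :=
  ⟨(b (a (b (a (l 3) (c (b (b (l 3) (a (l 3) (a (l 3) (c (l 532777103) (l 532562319))))) (c (a (b (l 3) (c (l 532800399) (l 532687503))) (l 532760719)) (a (b (l 3) (a (l 3) (l 532528015))) (l 532545423)))) (b (b (l 3) (a (l 3) (a (l 3) (c (l 532360335) (l 532173199))))) (a (a (l 3) (b (l 3) (c (l 532322447) (l 532131471)))) (c (l 532343183) (l 532155535)))))) (c (a (a (l 3) (b (a (l 3) (b (l 3) (c (l 532714383) (l 532491919)))) (c (l 532695951) (l 532473487)))) (c (c (l 532782223) (l 532671375)) (c (l 532563343) (l 532458639)))) (b (a (b (l 3) (a (l 3) (a (l 3) (c (l 532282767) (l 532087951))))) (c (a (l 532304527) (l 532327055)) (l 531925903))) (a (a (l 3) (c (l 532263823) (l 531934863))) (c (l 532299663) (l 532112527)))))) (b (c (a (c (c (l 532840847) (l 532733327)) (c (l 532629135) (l 532528015))) (c (l 532807823) (l 532608399))) (c (a (c (l 532430223) (l 532336015)) (l 532422543)) (a (c (l 532245647) (l 532159375)) (l 532252047))))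 (c (c (l 532763791) (l 532562063)) (c (l 532373903) (l 532201103))))) (c (a (b (a (c (c (l 532715407) (l 532601231)) (c (l 532489871) (l 532381583))) (c (l 532688271) (l 532475279))) (c (l 532633487) (l 532419471))) (b (l 532628623) (l 532595855))) (c (a (b (a (c (l 532276879) (l 532175759)) (l 532275855)) (l 532218767)) (l 532064143)) (a (b (a (c (l 532078223) (l 531985039)) (l 532091279)) (l 532032911)) (l 532164495))))), by decide +kernel⟩

def k212_A00pm_102_s1 : ∃ t, chk3 f_A00pm_102_s1 t 100 640 1 = true :=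
  ⟨(b (a (l 3) (a (a (l 3) (c (b (l 532856207) (l 532850575)) (l 532505487))) (c (l 532857487) (l 532516239)))) (b (a (l 3) (a (c (l 532843663) (l 532493967)) (l 532672143))) (c (a (a (l 3) (a (l 3) (l 532832911))) (l 532840847)) (a (a (l 3) (a (l 3) (l 532476559))) (l 532496015))))), by decide +kernel⟩

def k213_A00pm_102_s1 : ∃ t, chk3 f_A00pm_102_s1 t 100 641 2 = true :=
  ⟨(b (a (a (b (l 3) (b (l 3) (b (l 3) (a (l 3) (a (l 3) (a (l 3) (c (c (l 532961423) (l 532861327)) (c (l 532764047) (b (l 532670095) (l 532669327)))))))))) (b (a (a (l 3) (l 532824207)) (l 532826767)) (a (c (b (c (l 532966799) (l 532867471)) (b (c (l 532964495) (l 532864911)) (a (c (a (c (l 532987535) (l 532936847)) (l 532962703)) (a (c (l 532886927) (l 532837519)) (l 532862863))) (l 532913551)))) (b (c (l 532770703) (l 532677263)) (b (c (l 532768399) (l 532674703)) (a (c (a (c (l 532789135) (l 532741263)) (l 532766095)) (a (c (l 532694415) (l 532648335)) (l 532672655))) (l 532720783))))) (b (l 532822415) (c (l 532916111) (l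 532725135)))))) (b (l 532835215) (b (l 532830863) (l 532828047)))) (a (a (b (a (b (l 3) (a (l 3) (c (c (l 532952975) (l 532851599)) (c (l 532753295) (l 532657807))))) (c (c (l 532956559) (l 532855951)) (c (l 532758415) (l 532663695)))) (c (c (l 532948623) (l 532847503)) (c (l 532749455) (l 532654479)))) (c (a (a (b (b (c (a (b (l 532960399) (l 532958863)) (l 532960143)) (a (b (l 532860559) (l 532859023)) (l 532860559))) (c (l 532956559) (l 532856975))) (c (l 532951695) (l 532852111))) (b (b (b (l 532911759) (l 532910223)) (l 532907919)) (l 532903055))) (b (b (l 532913039) (l 532909967)) (l 532905103))) (a (b (c (a (b (a (b (l 532763535) (l 532761999)) (l 532763791)) (l 532760207)) (b (l 532765583) (l 532762255))) (a (b (a (b (l 532669583) (l 532668047)) (l 532670351)) (l 532666511)) (b (l 532672399) (l 532669327)))) (a (c (l 532755343) (l 532661647)) (l 532710543))) (b (b (l 532722063) (l 532718991)) (l 532714383))))) (b (a (c (l 532915343) (l 532727951)) (l 532827023)) (c (l 532911759) (l 532726671))))),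 by decide +kernel⟩

def k214_A00pm_102_s1 : ∃ t, chk3 f_A00pm_102_s1 t 100 1282 3 = true :=
  ⟨(a (b (a (l 3) (a (a (l 3) (l 532465039)) (l 532471183))) (a (a (l 3) (a (l 3) (a (l 3) (b (l 3) (b (l 3) (b (c (c (l 532579471) (l 532492175)) (c (l 532408719) (l 532329359))) (c (l 532534415) (l 532367759)))))))) (a (c (b (c (l 532586895) (l 532500367)) (b (c (l 532584591) (l 532498063)) (a (c (a (c (l 532603023) (b (l 532558991) (l 532558223))) (l 532582287)) (a (b (a (l 532493711) (l 532494735)) (a (l 532492943) (l 532493967))) (l 532495759))) (l 532541327)))) (b (c (l 532417679) (l 532338831)) (b (c (l 532415375) (l 532336783)) (a (c (a (b (a (l 532410511) (l 532411535)) (a (l 532409743) (l 532410767))) (l 532412815)) (a (b (a (l 532331407) (l 532332687)) (a (l 532330639) (l 532331919))) (l 532334223))) (l 532376719))))) (b (l 532466831) (c (l 532547471) (l 532384655)))))) (b (l 532490895) (b (l 532486799) (l 532484239)))), by decide +kernel⟩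

def k215_A00pm_102_s1 : ∃ t, chk3 f_A00pm_102_s1 t 100 1283 3 = true :=
  ⟨(a (a (b (a (a (l 3) (b (l 3) (c (c (l 532565647) (l 532477327)) (c (l 532392591) (l 532312207))))) (c (c (l 532572559) (l 532485007)) (c (l 532401295) (l 532321423)))) (c (c (l 532562831) (l 532474767)) (c (l 532390543) (l 532310415)))) (c (a (b (c (a (b (a (a (l 532577935) (l 532578703)) (l 532579983)) (l 532576143)) (b (l 532582543) (l 532579471))) (a (b (a (a (l 532490895) (l 532491919)) (l 532493455)) (l 532489615)) (b (l 532496527) (l 532493455)))) (a (c (l 532571535) (l 532485007)) (l 532531599))) (b (b (l 532544399) (l 532541583)) (l 532537231))) (a (a (b (b (a (a (c (l 532407951) (l 532328847)) (b (l 532369807) (l 532368271))) (b (l 532371599) (l 532370063))) (a (c (l 532405647) (l 532326543)) (l 532368015))) (c (l 532402319) (l 532323727))) (b (b (b (l 532375183) (l 532373903)) (l 532371599)) (l 532367503))) (b (b (l 532381839) (l 532379023)) (l 532374927))))) (b (a (c (l 532553615) (l 532394639)) (l 532488335))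 (a (c (l 532547983) (l 532389263)) (l 532483215)))), by decide +kernel⟩

def k216_A00pm_102_s1 : ∃ t, chk3 f_A00pm_102_s1 t 101 320 1 = true :=
  ⟨(b (a (c (a (l 532857487) (l 532862351)) (a (l 532525711) (l 532539535))) (c (a (a (l 532860559) (l 532841871)) (l 532800911)) (a (a (l 532544911) (l 532533135)) (l 532504207)))) (a (b (c (l 532844687) (l 532518543)) (c (l 532833935) (l 532509071))) (a (c (b (l 532842383) (l 532833935)) (b (l 532530831) (l 532523407))) (c (l 532797071) (l 532500255))))), by decide +kernel⟩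

def k217_A00pm_102_s1 : ∃ t, chk3 f_A00pm_102_s1 t 50 321 1 = true :=
  ⟨(a (c (a (b (a (c (c (l 532931215) (l 532830607)) (c (l 532732559) (l 532638095))) (a (c (b (a (l 532891535) (l 532893071)) (l 532878735)) (b (a (l 532698511) (l 532701071)) (l 532686735))) (b (c (l 532895375) (l 532705167)) (c (l 532882063) (l 532692367))))) (a (c (l 532851855) (l 532657551)) (c (l 532859791) (l 532670095)))) (b (b (a (c (l 532899727) (b (l 532715919) (l 532709775))) (l 532812431)) (a (c (l 532886927) (l 532700559)) (l 532800399))) (c (b (l 532877199) (l 532864143)) (b (l 532693647) (l 532681359))))) (a (b (a (c (c (l 532546703) (l 532459151)) (c (l 532375439) (l 532295823))) (a (c (b (a (l 532518543) (l 532522383)) (l 532508303)) (b (a (l 532353935) (l 532359055)) (l 532344975))) (b (c (l 532528271) (l 532366479)) (c (l 532516239) (l 532355471))))) (a (c (l 532476815) (l 532311439)) (c (l 532493967) (l 532333199)))) (b (b (a (c (b (l 532542351) (l 532536463)) (b (l 532383887) (l 532378767))) (c (l 532553871)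 (l 532400527))) (a (c (l 532528015) (l 532370575)) (l 532464783))) (c (b (l 532524175) (l 532512655)) (b (l 532370063) (l 532359567)))))) (a (b (c (b (l 532823183) (l 532811919)) (b (l 532499343) (l 532489871))) (c (b (l 532800655) (l 532788879)) (b (l 532479887) (l 532470159)))) (b (c (a (l 532820367) (l 532789647)) (a (b (l 532515727) (l 532507535)) (l 532493967))) (c (a (l 532800911) (l 532777871)) (a (l 532494991) (l 532484239)))))), by decide +kernel⟩

def k218_A00pm_102_s1 : ∃ t, chk3 f_A00pm_102_s1 t 51 160 1 = true :=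
  ⟨(b (a (a (b (c (b (l 532710543) (l 532712591)) (b (l 532438927) (l 532440207))) (c (b (l 532713615) (l 532713871)) (b (l 532440719) (l 532440975)))) (b (c (l 532590735) (l 532351375)) (c (l 532597391) (l 532357007)))) (c (b (l 532413071) (l 532423823)) (b (l 532222095) (a (l 532272527) (l 532190351))))) (a (b (c (a (l 532712847) (l 532601743)) (a (l 532440207) (l 532360591))) (c (a (l 532709519) (l 532603791)) (a (l 532437903) (l 532362639)))) (c (b (l 532432527) (l 532439695)) (b (a (l 532279183) (l 532198543)) (a (l 532284303) (l 16763944)))))), by decide +kernel⟩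

def k219_A00pm_102_s1 : ∃ t, chk3 f_A00pm_102_s1 t 25 161 1 = true :=
  ⟨(a (a (a (c (b (b (a (l 532724367) (l 532735631)) (a (l 532695183) (l 532707727))) (b (l 532672399) (l 532643471))) (b (a (b (l 531562127) (l 532343183)) (c (l 532457359) (l 532300175))) (b (l 532330895) (l 532308623)))) (b (c (b (c (l 532843919) (l 532662671)) (l 532725391)) (b (c (l 532495503) (l 532344207)) (l 532396431))) (c (b (l 532698767) (l 16769400)) (b (l 532375439) (l 16768808))))) (b (a (c (b (l 532771215) (l 532747407)) (b (l 531650079) (l 532436111))) (c (b (l 533041951) (l 532754063)) (b (l 532477327) (l 16768448)))) (c (a (l 532711311) (l 16767376)) (a (l 532408719) (l 16769320))))) (a (a (b (c (b (l 532704143) (l 16772784)) (b (l 532434319) (l 16766920))) (c (l 16765888) (l 16765184))) (b (c (l 532603791) (l 532095887)) (c (b (l 16764784) (l 16763672)) (l 16763520)))) (b (c (a (l 532768543) (l 16762768)) (b (l 16766336) (l 16762544))) (c (b (a (l 16762984) (l 16761080)) (a (l 16761872) (l 16759952))) (a (l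 16761728) (l 16754608)))))), by decide +kernel⟩

def k220_A00pm_102_s1 : ∃ t, chk3 f_A00pm_102_s1 t 96 324 1 = true :=
  ⟨(b (b (l 3) (a (l 3) (a (l 3) (c (c (c (l 532514447) (l 532391055)) (c (l 532270479) (l 532153231))) (c (c (l 532039311) (l 531928719)) (c (l 531822223) (l 531710863))))))) (a (a (l 3) (b (l 3) (c (c (c (l 532417679) (b (l 532298127) (l 532285839))) (b (a (l 3) (l 532122255)) (c (l 532163471) (l 532044175)))) (c (c (b (l 531938191) (l 531928207)) (l 531820319)) (c (l 531711375) (l 531579023)))))) (c (c (b (a (c (l 532467087) (l 532342303)) (l 532427919)) (l 532391567)) (b (a (b (a (l 3) (l 532173967)) (l 532155535)) (l 532189839)) (l 532220703))) (c (b (a (c (l 531987087) (l 531875471)) (l 531964815)) (a (l 531911711) (l 531946383))) (b (c (l 531786383) (l 531665039)) (l 531713935)))))), by decide +kernel⟩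

def k221_A00pm_102_s1 : ∃ t, chk3 f_A00pm_102_s1 t 96 325 1 = true :=
  ⟨(b (a (c (a (c (b (c (b (l 532372879) (l 532359311)) (b (a (l 3) (l 532252815)) (l 532233103))) (c (l 532339343) (l 532214415))) (b (a (b (l 3) (c (l 532102031) (l 531981199))) (c (l 532123279) (l 532003471))) (b (l 532038031) (l 532026767)))) (c (b (l 532329103) (l 532303759)) (b (l 532086559) (l 532064911)))) (b (c (a (a (b (l 3) (c (l 531863695) (l 531749519))) (c (l 531886735) (l 531773583))) (c (l 531913359) (l 531802255))) (c (l 531674255) (l 531534223))) (c (c (l 531876239) (l 531765391)) (l 531585167)))) (c (c (l 532355471) (l 532122143)) (c (b (l 531911311) (l 531893903)) (l 531679631)))) (c (a (c (b (b (a (l 532257167) (l 532285071)) (a (l 532245903) (l 532273807))) (a (b (l 532235919) (l 532226959)) (l 532258703))) (b (b (b (l 532035215) (l 532030095)) (a (l 532007311) (l 532040079))) (a (b (l 532000911) (l 531995791)) (l 532029839)))) (b (c (l 532319887) (l 532092559)) (c (l 532299407) (l 532077199)))) (a (b (b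 (c (b (l 531809167) (l 531805071)) (l 531569551)) (c (a (l 531647631) (l 531819407)) (l 531563919))) (c (a (c (l 531831951) (l 531724943)) (l 531813519)) (a (b (l 531544719) (l 531549071)) (l 531583887)))) (b (c (l 531878031) (l 531649935)) (c (l 531867791) (l 531642511)))))), by decide +kernel⟩

def k222_A00pm_102_s1 : ∃ t, chk3 f_A00pm_102_s1 t 97 162 1 = true :=
  ⟨(b (c (b (a (c (b (c (l 532569231) (l 532448399)) (l 532485007)) (b (c (l 532330639) (l 532215695)) (l 532251791))) (c (l 532537487) (l 532313231))) (c (l 532472463) (a (l 532221327) (l 532275087)))) (b (c (a (b (c (l 532104591) (l 531996815)) (l 532031887)) (l 532102031)) (b (c (l 531658383) (l 531829391)) (l 531862415))) (c (a (l 531736975) (l 532069007)) (l 531840655)))) (b (c (c (l 532428431) (l 532210575)) (c (l 532005519) (l 531796879))) (c (b (c (l 532396431) (l 532183695)) (c (l 532377231) (l 532168591))) (c (l 531978127) (l 531763855))))), by decide +kernel⟩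

def k223_A00pm_102_s1 : ∃ t, chk3 f_A00pm_102_s1 t 49 162 1 = true :=
  ⟨(b (c (b (c (l 532627599) (l 532427151)) (a (l 532450703) (l 532532623))) (a (c (l 531905167) (l 531994511)) (l 532198799))) (c (b (l 531922575) (a (l 532382607) (l 532474511))) (b (l 532106639) (a (l 532023951) (l 532150671))))), by decide +kernel⟩

def k224_A00pm_102_s1 : ∃ t, chk3 f_A00pm_102_s1 t 25 162 1 = true :=
  ⟨(b (a (a (c (a (l 532601743) (l 16767696)) (a (l 532278671) (l 16767008))) (c (a (l 16766440) (l 16765128)) (a (l 16765704) (l 16764344)))) (a (c (a (l 16763664) (b (l 16762568) (l 16761448))) (a (l 16762856) (l 16761200))) (c (a (b (l 16760752) (l 16759632)) (b (l 16758824) (a (c (l 16758424) (l 16757968)) (b (l 16757480) (l 16756920))))) (a (l 16759408) (a (l 16752752) (b (l 16757616) (l 16751208))))))) (c (b (a (a (a (l 16767200) (l 16765968)) (a (l 16764720) (l 16763424))) (a (a (l 16756728) (c (l 16760576) (l 16760088))) (a (a (l 16758984) (b (l 16758320) (c (l 16758016) (l 16757528)))) (a (c (l 16757320)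 (l 16756840)) (l 16756056))))) (a (a (a (l 16766024) (l 16764800)) (a (l 16763568) (l 16762272))) (a (a (a (l 16761208) (l 16760440)) (a (l 16759632) (a (l 16758992) (l 16758544)))) (a (a (c (b (l 16758400) (l 16757848)) (l 16757624)) (l 16756904)) (l 16755416))))) (a (a (a (b (l 16766480) (l 16765256)) (b (l 16765192) (l 16763984))) (b (b (l 16763544) (l 16765568)) (a (l 16762704) (l 16761384)))) (a (a (l 16760512) (b (l 16759464) (c (l 16758504) (l 16758120)))) (a (a (b (l 16758144) (l 16756984)) (b (l 16757208) (l 16756040))) (c (a (l 16761096) (l 16754848)) (l 16755032))))))), by decide +kernel⟩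

def k225_A00pm_102_s1 : ∃ t, chk3 f_A00pm_102_s1 t 24 163 1 = true :=
  ⟨(a (c (c (b (a (a (b (b (a (l 532214415) (l 532241039)) (l 532211599)) (l 532189839)) (b (l 532273039) (l 532242575))) (b (l 532351375) (l 532321423))) (a (a (b (l 532163471) (l 532140431)) (l 532743055)) (l 532017295))) (b (a (a (b (b (a (l 531989391) (l 532019343)) (l 532130703)) (l 532256399)) (b (b (l 532065423) (l 532055951)) (l 532045199))) (b (l 531882383) (l 531864719))) (a (a (b (l 531979407) (l 531974287)) (l 532032655)) (l 531983503)))) (b (a (a (b (a (b (c (l 531776911) (l 531558799)) (l 531680655)) (c (l 531809935) (l 531597199))) (a (l 531691151) (l 531721359))) (b (c (l 531860623) (l 531648399)) (c (l 531858831) (l 531671183)))) (b (c (l 531962767) (l 531756943)) (a (l 531838607) (l 16771592)))) (a (a (b (l 531720847) (l 531739023)) (l 531921183)) (b (l 531878031) (a (l 16767624) (l 16766424)))))) (b (c (a (b (l 532355215) (l 532332431)) (a (l 16766648) (b (l 16766056) (l 16764864)))) (b (a (l 532012431) (l 532140175))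 (c (l 532144527) (l 532238991)))) (c (a (a (l 16766552) (l 16765400)) (b (a (l 16764840) (l 16763672)) (a (l 16763640) (l 16762480)))) (a (b (a (l 16766480) (l 16765272)) (a (l 16765232) (l 16764032))) (b (a (l 16764056) (l 16762840)) (a (l 16762832) (l 16759008))))))), by decide +kernel⟩

def k226_A00pm_102_s1 : ∃ t, chk3 f_A00pm_102_s1 t 50 326 1 = true :=
  ⟨(c (c (a (a (l 16764488) (l 16763288)) (a (b (l 16762656) (l 16758880)) (b (l 16761384) (a (l 16760568) (l 16759904))))) (a (a (l 16764032) (l 16762808)) (b (b (l 16761816) (l 16761240)) (a (l 16761000) (l 16759720))))) (c (a (a (l 16763616) (l 16762376)) (b (b (l 16761368) (l 16760784)) (a (l 16760536) (l 16759248)))) (a (a (l 16763144) (l 16759256)) (b (a (l 16761224) (l 16759944)) (a (l 16760024) (l 16758752)))))), by decide +kernel⟩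

def k227_A00pm_102_s1 : ∃ t, chk3 f_A00pm_102_s1 t 50 327 1 = true :=
  ⟨(b (c (a (a (l 16762488) (c (l 16758920) (l 16761048))) (a (c (a (l 16760640) (l 16760040)) (b (l 16760128) (l 16759544))) (b (a (l 16759440) (c (a (l 16759208) (l 16758872)) (a (l 16758680) (l 16758344)))) (a (c (a (l 16759280) (l 16758968)) (a (l 16758760) (l 16758440))) (a (l 16758360) (l 16758000)))))) (b (c (a (a (l 16762120) (l 16760888)) (a (l 16759656) (a (l 16758712) (l 16758032)))) (a (a (l 16761632) (l 16760392)) (a (l 16759144) (a (l 16758208) (l 16757544))))) (a (a (l 16761312) (a (l 16760392) (l 16759776))) (a (a (l 16759160) (l 16758544)) (a (a (l 16758064) (l 16757736)) (l 16757208)))))) (a (c (a (c (l 16758936) (l 16761072)) (a (a (l 16757952) (l 16757648)) (b (l 16757496) (a (l 16759688) (l 16759384))))) (a (a (l 16760720) (l 16757496)) (a (c (l 16759720) (l 16759256)) (b (l 16759192) (a (l 16758752) (l 16758448)))))) (c (b (a (c (a (l 16759776) (a (l 16759320) (b (l 16759160) (l 16758880)))) (a (l 16759264)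 (a (l 16758800) (b (l 16758640) (l 16758352))))) (a (a (c (l 16758704) (l 16758176)) (l 16758096)) (l 16757584))) (a (a (c (a (b (l 16759496) (l 16759200)) (b (l 16759192) (l 16758904))) (a (b (l 16758976) (l 16758688)) (b (l 16758672) (l 16758384)))) (a (b (a (l 16758704) (l 16758544)) (l 16758320)) (l 16758152))) (a (a (l 16757824) (l 16757496)) (l 16756976)))) (a (a (c (b (l 16758792) (b (l 16758352) (a (l 16758216) (l 16757904)))) (b (l 16758312) (b (l 16757872) (a (l 16757752) (l 16757432))))) (b (a (b (l 16758256) (l 16757960)) (b (l 16757944) (l 16757648))) (a (b (l 16757664) (l 16757352)) (l 16757176)))) (a (a (b (l 16757464) (l 16756840)) (l 16756808)) (l 16756272)))))), by decide +kernel⟩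

def k228_A00pm_102_s1 : ∃ t, chk3 f_A00pm_102_s1 t 51 163 1 = true :=
  ⟨(b (a (b (a (c (a (l 16760064) (a (l 16759504) (l 16759104))) (l 16758760)) (b (c (a (l 16758776) (l 16757928)) (a (l 16757864) (l 16757016))) (c (a (a (l 16758424) (l 16758000)) (l 16757344)) (l 16759480)))) (a (c (a (b (l 16759208) (a (l 16758816) (l 16758456))) (b (c (l 16758728) (l 16758192)) (l 16757864))) (b (a (l 16758264) (l 16757504)) (a (l 16757680) (l 16756896)))) (c (a (l 16757336) (l 16756480)) (l 16755952)))) (c (a (c (l 16761192) (l 16760656)) (l 16758944)) (a (l 16754744) (l 16752808)))) (a (a (c (b (a (c (l 16758032) (l 16757480)) (l 16756976)) (l 16756176)) (c (l 16758616) (l 16758024))) (c (l 16755152) (l 16754136))) (c (c (l 16763176) (l 16752112)) (l 16756648)))), by decide +kernel⟩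

def k229_A00pm_102_s1 : ∃ t, chk3 f_A00pm_102_s1 t 52 80 1 = true :=
  ⟨(b (b (b (a (c (l 532192399) (l 532062351)) (c (a (l 16761824) (l 16759624)) (l 531919247))) (a (c (l 532473743) (l 532072591)) (c (a (l 16760640) (l 16758424)) (l 532198287)))) (a (c (a (l 16763072) (c (l 16761160) (l 16760888))) (a (l 532661903) (l 16760600))) (a (c (c (l 16759000) (l 16758744)) (l 16758512)) (c (b (l 16757224) (a (l 16756592) (c (b (l 16755872) (l 16755272)) (l 16755344)))) (a (l 16756896) (b (l 16756400) (l 16755176))))))) (a (b (c (b (a (l 16761352) (l 16759272)) (a (l 16760216) (l 16758120))) (a (l 16760240) (l 16758208))) (a (c (b (l 16759072) (a (l 16758448) (l 16757408))) (b (l 16758472) (l 16752048))) (c (b (a (l 16757496) (c (b (l 16756888) (l 16756312)) (l 16756256))) (a (c (b (l 16756832) (l 16756264)) (l 16756168)) (l 16755256))) (b (a (l 16756944) (l 16755896)) (a (l 16755760) (l 16754704)))))) (c (b (a (b (c (l 16757248) (l 16756968)) (a (c (l 16756648) (l 16756336)) (c (b (l 16755816) (l 16755232))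 (l 16755224)))) (b (a (c (b (l 16755840) (l 16755256)) (l 16755288)) (c (l 16754384) (l 16754136))) (l 16758880))) (a (a (a (b (l 16755592) (l 16754424)) (l 16754440)) (l 16753592)) (l 16757088))) (b (a (b (l 16756696) (a (l 16756032) (l 16754952))) (b (a (l 16755072) (l 16753960)) (l 16753296))) (a (b (l 16756912) (l 16753088)) (l 16751472)))))), by decide +kernel⟩

def k230_A00pm_102_s1 : ∃ t, chk3 f_A00pm_102_s1 t 53 80 1 = true :=
  ⟨(b (a (c (b (a (b (l 16757336) (c (l 16756208) (l 16756040))) (b (a (l 16755560) (c (b (l 16754728) (l 16754104)) (l 16754312))) (a (b (l 16754632) (l 16754016)) (l 16753104)))) (a (b (a (c (l 16755592) (l 16755400)) (c (b (l 16754704) (l 16754096)) (l 16754224))) (c (a (l 16754392) (l 16753184)) (l 16753592))) (c (l 16751952) (l 16751808)))) (b (a (c (l 16756584) (l 16756600)) (b (a (l 16755496) (l 16754336)) (a (l 16754248) (l 16753080)))) (a (b (a (l 16755288) (l 16754152)) (a (l 16754056) (l 16752912))) (l 16751792)))) (b (a (a (c (b (c (l 16753176) (l 16753088))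 (l 16751864)) (l 16757776)) (c (l 16751256) (l 16751352))) (c (l 16749424) (l 16749600))) (a (c (l 16749368) (l 16749424)) (a (l 16747512) (l 16746312))))) (a (b (c (a (c (l 16751984) (l 16751760)) (l 16749408)) (c (l 16760960) (l 16761000))) (c (a (l 16749448) (l 16746960)) (a (l 16749192) (l 16746840)))) (a (c (l 16756128) (l 16750920)) (c (l 16743120) (l 16743280))))), by decide +kernel⟩

def k231_A00pm_102_s1 : ∃ t, chk3 f_A00pm_102_s1 t 26 81 1 = true :=
  ⟨(a (b (a (a (c (b (b (a (c (b (l 16757808) (l 16757248)) (l 16757104)) (c (l 16756480) (l 16756072))) (c (l 16755872) (l 16755440))) (l 16759160)) (b (b (a (l 16756624) (l 16755616)) (l 16760184)) (l 16753160))) (c (b (c (l 16754272) (l 16753872)) (l 16751744)) (c (l 16762864) (l 16752152)))) (c (b (a (l 16751808) (l 16749472)) (a (l 16749464) (l 16747096))) (c (c (l 16759592) (l 16759496)) (l 16748920)))) (a (b (c (c (l 16761264) (l 16760776)) (l 16749736)) (a (l 16748792) (l 16746632))) (c (b (l 16756424) (l 16743584)) (l 16746784)))) (b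 (a (c (c (l 16755224) (l 16754960)) (c (l 16749600) (a (l 16745536) (l 16743208)))) (a (b (l 16741880) (l 16739416)) (a (l 16741384) (l 16740136)))) (a (c (a (l 16741064) (l 16738496)) (l 16739480)) (c (a (l 16735856) (l 16733232)) (c (l 16734512) (l 16724232)))))), by decide +kernel⟩

def k232_A00pm_102_s1 : ∃ t, chk3 f_A00pm_102_s1 t 27 40 1 = true :=
  ⟨(b (a (a (c (b (a (l 16756224) (l 16743376)) (a (l 16740648) (l 16738232))) (b (a (l 16756496) (l 16754208)) (a (l 16740928) (l 16738608)))) (b (c (c (l 16739896) (l 16739968)) (l 16740352)) (c (l 16745200) (a (l 16736320) (l 16734072))))) (a (b (c (l 16745832) (l 16735896)) (c (l 16735352) (l 16730728))) (b (c (l 16735976) (l 16731376)) (c (l 16725552) (l 16726280))))) (a (b (a (c (l 16739624) (a (l 16735904) (l 16733552))) (c (l 16729544) (a (l 16731232) (l 16728952)))) (a (c (b (l 16730632) (l 16728152)) (a (l 16730936) (l 16728552))) (c (b (l 16725728) (l 16723200)) (c (l 16724816) (l 16714848))))) (b (a (c (b (l 16726208) (l 16723616)) (l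 16725608)) (c (b (l 16721672) (l 16719088)) (a (l 16711816) (l 16720096)))) (b (a (c (l 16721040) (l 16721792)) (c (a (l 16717632) (l 16715376)) (a (l 16718480) (l 16716296)))) (a (c (l 16718464) (c (l 16718960) (l 16709104))) (c (a (l 16715048) (l 16712800)) (a (l 16718568) (c (l 16713432) (l 16714160))))))))), by decide +kernel⟩

def k233_A00pm_102_s1 : ∃ t, chk3 f_A00pm_102_s1 t 48 164 1 = true :=
  ⟨(b (a (c (a (l 531772703) (l 532097935)) (a (l 531908751) (l 531825551))) (b (c (l 532181391) (l 531901327)) (c (l 531906447) (a (l 16765104) (l 16763928))))) (a (c (b (l 532063007) (a (l 16765432) (l 16764352))) (a (b (l 16766184) (l 16764936)) (b (l 16765016) (l 16763784)))) (c (b (a (l 16764496) (l 16763400)) (a (l 16763272) (l 16762192))) (b (a (l 16763864) (l 16762704)) (a (l 16762640) (l 16761496)))))), by decide +kernel⟩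

def k234_A00pm_102_s1 : ∃ t, chk3 f_A00pm_102_s1 t 98 164 1 = true :=
  ⟨(c (c (c (a (b (l 16764408) (l 16759368)) (b (l 16763304) (b (l 16761512) (a (l 16760600) (l 16760064))))) (a (b (l 16764208) (b (l 16762400) (l 16761208))) (b (l 16763088) (b (l 16761296) (a (l 16760392) (l 16759856)))))) (c (a (b (l 16764008) (b (l 16762200) (l 16758392))) (b (l 16762880) (b (l 16758472) (a (l 16760192) (l 16759640))))) (a (b (l 16763824) (b (l 16762008) (l 16758200))) (b (l 16762672) (b (l 16760888) (a (l 16759992) (b (l 16759728) (l 16759144)))))))) (c (c (a (b (l 16763640) (b (l 16761824) (l 16758016))) (b (l 16762480) (b (l 16760688) (a (l 16759792) (b (l 16759520) (l 16758944)))))) (a (b (l 16763456) (a (l 16761328) (l 16760760))) (b (l 16762288) (b (l 16760496) (a (l 16759600) (b (l 16759328) (l 16758744))))))) (c (a (b (l 16763288) (b (l 16761464) (l 16760272))) (b (l 16762104) (a (l 16757376) (b (l 16760016) (b (l 16759128) (l 16758544)))))) (a (b (l 16763120) (b (l 16761288) (l 16760088))) (b (l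 16759304) (b (l 16760120) (a (l 16756600) (b (l 16758936) (l 16758352))))))))), by decide +kernel⟩

def k235_A00pm_102_s1 : ∃ t, chk3 f_A00pm_102_s1 t 198 164 1 = true :=
  ⟨(b (c (b (l 16762448) (b (l 16761552) (l 16760960))) (b (l 16759000) (a (l 16760712) (l 16760128)))) (a (c (c (b (l 16760584) (b (l 16759704) (a (b (l 16759408) (l 16759112)) (b (l 16759128) (l 16758824))))) (b (l 16760144) (b (l 16759272) (b (a (l 16758976) (a (l 16758768) (l 16758624))) (a (l 16758680) (l 16758384)))))) (c (b (l 16759728) (b (l 16758856) (a (b (l 16758560) (a (l 16758336) (l 16758192))) (b (a (l 16758344) (l 16758200)) (l 16757952))))) (b (l 16759336) (a (b (l 16758600) (b (l 16758160) (a (l 16757936) (l 16757792)))) (b (l 16758312) (b (a (l 16757944) (l 16757792)) (l 16757544))))))) (c (b (b (l 16757472) (a (l 16759648) (l 16759368))) (a (b (b (l 16759216) (a (l 16758992) (b (l 16758928) (l 16758776)))) (c (l 16758680) (l 16758232))) (b (b (a (l 16759008) (b (l 16758936) (l 16758792))) (a (l 16758704) (l 16758552)))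 (l 16758144)))) (b (b (l 16759240) (c (a (l 16759008) (l 16758720)) (l 16758456))) (b (b (a (l 16758368) (c (a (l 16758352) (l 16758208)) (a (l 16757944) (b (l 16757872) (l 16757720))))) (a (a (b (l 16758224) (l 16758072)) (b (l 16758072) (l 16757920))) (a (b (l 16757928) (l 16757760)) (l 16757680)))) (c (a (b (l 16757968) (l 16757632)) (l 16757480)) (b (a (l 16757552) (l 16757224)) (c (l 16757160) (l 16756952))))))))), by decide +kernel⟩

def k236_A00pm_102_s1 : ∃ t, chk3 f_A00pm_102_s1 t 199 164 2 = true :=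
  ⟨(a (b (c (b (l 16761816) (l 16760640)) (b (l 16761360) (l 16757560))) (b (a (b (l 16759672) (b (l 16759232) (a (l 16759016) (b (l 16758952) (l 16758800))))) (b (l 16759392) (b (a (l 16759024) (b (l 16758960) (l 16758808))) (a (b (l 16758808) (l 16758648)) (l 16758576))))) (b (a (b (c (l 16758880) (l 16758416)) (l 16758320)) (a (l 16758248) (l 16758096))) (b (l 16757848) (l 16757528))))) (c (b (b (l 16761248) (b (l 16760368) (l 16759784))) (b (b (a (b (l 16759488) (l 16759192)) (b (l 16759200) (b (l 16758984) (l 16758832)))) (a (b (l 16758904) (l 16758584)) (l 16758440))) (l 16757640))) (b (b (l 16760776) (b (l 16759896) (l 16759312))) (b (b (c (a (l 16758984) (b (l 16758848) (l 16758552))) (a (b (l 16758904) (l 16758616)) (b (l 16758616) (l 16758320)))) (a (b (b (l 16758504) (l 16758352)) (l 16758112)) (l 16757952))) (b (l 16757472) (l 16756824)))))), by decide +kernel⟩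

def k237_A00pm_102_s1 : ∃ t, chk3 f_A00pm_102_s1 t 398 164 3 = true :=
  ⟨(b (b (l 16760728) (b (l 16759832) (l 16759248))) (b (a (b (l 16758808) (a (c (l 16758504) (b (l 16758240) (l 16757944))) (b (l 16758296) (b (l 16758080) (c (l 16758136) (l 16757728)))))) (a (b (l 16758584) (b (c (l 16758360) (l 16757944)) (b (c (l 16758136) (l 16757720)) (l 16757768)))) (b (l 16758440) (b (b (l 16758080) (c (l 16758136) (l 16757720))) (c (l 16757896) (l 16757480)))))) (b (b (a (b (a (c (l 16758136) (l 16757720)) (l 16757768)) (c (l 16757896) (l 16757480))) (l 16757440)) (c (l 16757488) (l 16757064))) (l 16756776)))), by decide +kernel⟩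

def k238_A00pm_102_s1 : ∃ t, chk3 f_A00pm_102_s1 t 399 164 3 = true :=
  ⟨(c (c (b (b (l 16760448) (l 16759272)) (b (b (a (b (l 16758688) (l 16758392)) (b (l 16758392) (b (l 16758176) (l 16758016)))) (a (b (l 16758096) (l 16757768)) (l 16757608))) (l 16756792))) (a (b (b (l 16760384) (l 16759200)) (b (b (b (l 16758472) (l 16758176)) (b (b (l 16757952) (l 16757792)) (l 16757552))) (l 16756728))) (b (b (l 16760088) (l 16758904)) (b (b (b (l 16758176) (a (l 16757952) (l 16757800))) (l 16757392)) (l 16756408))))) (c (a (b (b (l 16760184) (l 16759000)) (b (a (b (l 16758192) (b (l 16757744) (l 16757416))) (b (b (l 16758192) (l 16757896)) (l 16757424))) (l 16756512))) (b (b (l 16759880) (l 16758704)) (b (b (b (a (l 16758048) (l 16757896)) (a (b (l 16757824) (l 16757664)) (l 16757584))) (b (l 16757336) (l 16757008))) (l 16756184)))) (a (b (b (l 16759944) (l 16758800)) (a (b (b (l 16757992) (l 16757384)) (l 16756384)) (b (b (l 16757840) (l 16757216)) (l 16756224)))) (c (b (b (l 16759720) (l 16758552)) (b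 (b (b (b (l 16757888) (l 16757744)) (l 16757512)) (l 16757016)) (l 16756024))) (a (b (b (l 16759648) (l 16758528)) (b (b (b (l 16757792) (l 16757488)) (l 16757000)) (l 16756000))) (c (a (c (b (b (l 16759584) (l 16758448)) (b (b (b (l 16757720) (l 16757408)) (l 16756912)) (l 16755904))) (b (b (l 16759552) (l 16758424)) (b (b (b (l 16757696) (l 16757384)) (l 16756888)) (l 16755872)))) (b (b (l 16759496) (l 16758368)) (b (b (b (l 16757632) (l 16757312)) (l 16756816)) (l 16755792)))) (b (b (l 16759456) (l 16758352)) (b (b (b (l 16757616) (l 16757304)) (l 16756808)) (l 16755768))))))))), by decide +kernel⟩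

def k239_A00pm_102_s1 : ∃ t, chk3 f_A00pm_102_s1 t 48 330 1 = true :=
  ⟨(a (b (c (a (l 16764192) (l 16763136)) (a (l 531601551) (a (l 16762848) (l 16762288)))) (c (a (l 16762984) (a (l 16762200) (l 16761680))) (a (b (l 16762800) (l 16762208)) (b (l 16759048) (l 16758464))))) (b (c (a (l 16762072) (a (l 16761272) (l 16758120))) (a (a (l 16761720) (l 16761160)) (a (l 16757976) (l 16757416)))) (a (c (a (l 16758536) (l 16758016)) (a (l 16757920) (l 16757360))) (c (a (l 16757496) (b (l 16759872) (b (l 16759440) (a (l 16759288) (l 16759016))))) (c (a (l 16759608) (b (l 16759344) (a (l 16758904) (b (l 16758768) (l 16758464))))) (a (l 16759256) (b (l 16758984) (a (l 16758536) (b (l 16758400) (l 16758096)))))))))), by decide +kernel⟩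

def k240_A00pm_102_s1 : ∃ t, chk3 f_A00pm_102_s1 t 48 331 1 = true :=
  ⟨(a (b (c (a (a (l 16762064) (l 16761552)) (a (l 16761040) (l 16757904))) (a (a (l 16761616) (l 16761048)) (c (l 16757744) (b (l 16760344) (l 16759768))))) (a (c (a (l 16758304) (b (l 16760704) (l 16760144))) (a (l 16760472) (b (l 16760192) (l 16759624)))) (c (a (b (l 16760200) (c (l 16759736) (l 16759480))) (b (a (l 16759808) (l 16759544)) (l 16759032))) (b (a (l 16759640) (a (l 16759216) (l 16758928))) (a (b (l 16759200) (l 16758888)) (l 16758408)))))) (a (b (b (c (a (l 16760296) (l 16759776)) (a (l 16759672) (a (l 16759264) (l 16758984)))) (c (a (a (l 16759864) (l 16759592)) (a (a (l 16759400) (l 16759264)) (l 16759048))) (a (a (l 16759240) (l 16758952)) (b (a (l 16758824) (l 16758536)) (l 16758352))))) (a (a (b (c (l 16759264) (b (l 16758800) (l 16758448))) (l 16758256)) (c (l 16758616) (l 16757952))) (c (l 16760784) (a (l 16757624) (l 16757304))))) (b (a (b (a (b (l 16759200) (c (l 16759240) (l 16758552))) (c (b (l 16759264)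 (l 16758944)) (b (l 16758568) (l 16758240)))) (c (l 16758592) (l 16757872))) (b (c (c (l 16758840) (l 16758480)) (c (l 16758112) (l 16757736))) (c (l 16757984) (l 16757232)))) (c (l 16757256) (a (l 16759440) (l 16756176)))))), by decide +kernel⟩

def k241_A00pm_102_s1 : ∃ t, chk3 f_A00pm_102_s1 t 98 165 2 = true :=
  ⟨(b (a (a (b (l 16757584) (a (b (l 16759480) (b (l 16759040) (l 16758712))) (b (b (l 16759360) (l 16759064)) (l 16758576)))) (b (a (l 16757184) (b (l 16759824) (b (l 16759400) (l 16759104)))) (b (b (a (l 16759080) (l 16758800)) (l 16758616)) (l 16758120)))) (b (a (b (a (l 16759560) (b (l 16759432) (l 16759136))) (b (a (l 16759120) (b (l 16758920) (l 16758760))) (a (l 16758824) (l 16758512)))) (b (b (a (l 16759160) (c (l 16759096) (l 16758672))) (a (c (l 16759072) (l 16758656)) (l 16758560))) (c (l 16758440) (l 16758008)))) (b (c (l 16760704) (l 16760280)) (a (l 16757512) (l 16756904))))) (a (b (a (l 16760336) (l 16754488)) (l 16756056)) (b (l 16756208) (l 16754856)))), by decide +kernel⟩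

def k242_A00pm_102_s1 : ∃ t, chk3 f_A00pm_102_s1 t 98 165 3 = true :=
  ⟨(b (a (b (b (a (l 16759760) (a (l 16759336) (l 16759056))) (a (l 16759184) (a (l 16758760) (b (l 16758624) (a (l 16758400) (l 16758256)))))) (a (b (a (l 16758744) (b (l 16758608) (c (l 16758496) (l 16758120)))) (a (b (l 16758296) (l 16757960)) (l 16757808))) (c (b (b (a (l 16758512) (l 16758208)) (l 16758032)) (l 16757520)) (b (b (a (l 16758128) (l 16757824)) (l 16757640)) (l 16757120))))) (b (c (a (b (a (l 16758968) (l 16758680)) (a (b (l 16758528) (l 16758224)) (b (l 16758240) (l 16757904)))) (b (b (a (l 16758544) (a (l 16758336) (l 16758184))) (a (l 16758248) (l 16757936))) (l 16757592))) (a (b (a (l 16758584) (l 16758296)) (a (b (l 16758144) (l 16757832)) (b (l 16757848) (l 16757504)))) (b (b (a (l 16758152) (a (l 16757936) (l 16757784))) (a (a (l 16757928) (l 16757776)) (l 16757528))) (a (l 16757344) (l 16757024))))) (a (c (l 16759840) (c (l 16756912) (l 16759336))) (l 16756368)))) (a (a (b (a (l 16757088) (l 16756768))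 (l 16752912)) (c (l 16755792) (l 16755376))) (b (c (l 16755536) (l 16755104)) (l 16753936)))), by decide +kernel⟩

def k243_A00pm_102_s1 : ∃ t, chk3 f_A00pm_102_s1 t 99 165 1 = true :=
  ⟨(b (b (c (b (a (a (c (l 16758488) (l 16758048)) (c (l 16757888) (l 16757424))) (l 16756736)) (a (a (l 16757616) (l 16757008)) (l 16756088))) (a (a (b (b (a (l 16757736) (l 16757416)) (a (l 16757408) (l 16757080))) (c (l 16756952) (b (l 16756696) (l 16756360)))) (b (l 16756760) (l 16756096))) (c (l 16755688) (a (l 16755560) (l 16754880))))) (c (a (l 16756328) (l 16755112)) (c (a (l 16755624) (l 16754360)) (a (l 16755184) (l 16753808))))) (a (c (l 16754320) (c (l 16753584) (l 16753088))) (c (l 16753120) (c (l 16752248) (l 16751592))))), by decide +kernel⟩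

def k244_A00pm_102_s1 : ∃ t, chk3 f_A00pm_102_s1 t 200 328 1 = true :=
  ⟨(c (a (b (c (l 16760672) (l 16757568)) (b (c (l 16759800) (l 16759312)) (a (b (l 16759264) (a (l 16759040) (b (l 16758968) (l 16758824)))) (a (b (l 16759048) (b (l 16758824) (l 16758680))) (b (b (l 16758976) (l 16758824)) (b (l 16758680) (l 16758520))))))) (b (c (b (l 16760384) (l 16759800)) (b (l 16759896) (a (l 16759456) (l 16759168)))) (b (a (b (l 16759264) (a (l 16759048) (b (l 16758976) (l 16758824)))) (a (b (l 16759048) (b (l 16758824) (l 16758680))) (b (b (l 16758976) (l 16758824)) (b (l 16758680) (l 16758520))))) (a (b (a (b (l 16758824) (l 16758680)) (b (l 16758680) (l 16758520))) (l 16758368)) (c (l 16758464) (l 16757960)))))) (a (b (c (l 16759744) (b (l 16759616) (l 16759032))) (b (c (l 16758864) (a (l 16758600) (l 16758296))) (a (b (l 16758360) (a (l 16758144) (b (l 16758072) (c (l 16758136) (l 16757712))))) (b (a (l 16758144) (b (l 16758064) (c (l 16758136) (l 16757712)))) (a (b (c (l 16758136) (l 16757712)) (c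 (l 16757984) (l 16757560))) (c (l 16757904) (l 16757472))))))) (b (c (b (l 16759440) (l 16758856)) (b (l 16759016) (a (l 16758584) (l 16758288)))) (b (a (a (b (l 16758424) (l 16758136)) (b (l 16758280) (b (l 16758056) (c (l 16758128) (l 16757704))))) (b (a (l 16758128) (b (l 16758048) (c (l 16758120) (l 16757696)))) (a (b (c (l 16758128) (l 16757696)) (c (l 16757976) (l 16757544))) (c (b (l 16757968) (l 16757808)) (l 16757464))))) (b (a (a (b (c (l 16758128) (l 16757704)) (c (l 16757976) (l 16757552))) (c (b (l 16757976) (l 16757816)) (l 16757472))) (a (l 16757512) (l 16757352))) (c (l 16757496) (a (l 16757224) (l 16756896)))))))), by decide +kernel⟩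

def k245_A00pm_102_s1 : ∃ t, chk3 f_A00pm_102_s1 t 201 656 1 = true :=
  ⟨(a (c (b (c (l 16759800) (l 16759304)) (a (b (l 16759264) (a (l 16759048) (b (l 16758968) (l 16758824)))) (a (b (l 16759040) (b (l 16758824) (l 16758672))) (b (b (l 16758968) (l 16758816)) (b (l 16758672) (l 16758512)))))) (b (c (l 16758840) (b (l 16758552) (l 16758272))) (a (b (l 16758336) (a (l 16758120) (b (l 16758040) (c (l 16758112) (l 16757688))))) (b (a (l 16758112) (b (l 16758032) (c (l 16758104) (l 16757672)))) (b (a (c (l 16758112) (l 16757680)) (l 16757736)) (a (c (l 16757960) (l 16757528)) (l 16757576))))))) (b (c (c (a (b (l 16759504) (l 16759216)) (b (l 16759208) (a (l 16758992) (l 16758840)))) (a (b (l 16759000) (l 16758704)) (b (l 16758696) (a (l 16758488) (l 16758328))))) (a (b (l 16758320) (a (l 16758104) (b (l 16758024) (l 16757872)))) (a (b (l 16758088) (b (l 16757864) (l 16757720))) (b (b (l 16758008) (l 16757864)) (l 16757632))))) (c (a (b (a (b (l 16758816) (l 16758672)) (b (l 16758664) (l 16758512)))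 (l 16758360)) (b (l 16758352) (l 16758040))) (a (a (b (b (c (l 16758096) (l 16757672)) (l 16757728)) (l 16757488)) (b (a (l 16757688) (l 16757600)) (l 16757328))) (c (l 16757464) (l 16756968)))))), by decide +kernel⟩

def k246_A00pm_102_s1 : ∃ t, chk3 f_A00pm_102_s1 t 201 657 1 = true :=
  ⟨(a (b (c (a (b (a (b (l 16758824) (l 16758680)) (b (l 16758680) (l 16758520))) (l 16758368)) (b (l 16758360) (l 16758056))) (a (a (b (b (c (l 16758120) (l 16757688)) (c (l 16757968) (l 16757536))) (l 16757504)) (b (c (b (l 16757968) (l 16757808)) (l 16757456)) (l 16757344))) (c (l 16757480) (b (l 16757200) (l 16756856))))) (c (c (l 16758008) (a (l 16757648) (l 16757328))) (c (l 16757008) (a (l 16756704) (l 16756328))))) (c (c (a (l 16757856) (l 16757544)) (c (l 16757296) (l 16759664))) (c (b (l 16756992) (l 16756360)) (b (a (l 16756648) (l 16756280)) (l 16755768))))), by decide +kernel⟩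

def k247_A00pm_102_s1 : ∃ t, chk3 f_A00pm_102_s1 t 100 329 1 = true :=
  ⟨(c (c (a (a (a (b (b (b (a (l 16758992) (l 16758840)) (l 16758608)) (l 16758136)) (l 16757192)) (b (b (l 16758456) (l 16757832)) (l 16756888))) (b (b (l 16758000) (l 16757376)) (l 16756432))) (a (l 16756448) (l 16755840))) (a (b (a (b (a (b (a (b (l 16758584) (l 16758440)) (l 16758360)) (l 16758120)) (l 16757960)) (l 16757480)) (b (a (l 16757648) (l 16757328)) (l 16756856))) (l 16756208)) (b (a (l 16756544) (l 16755912)) (l 16754960)))) (a (c (b (a (b (b (a (a (b (l 16758136) (l 16757984)) (l 16757904)) (l 16757664)) (a (l 16757664) (l 16757336))) (l 16757016)) (b (l 16757016) (l 16756368))) (a (l 16756040) (l 16755400))) (c (b (a (b (a (b (a (b (l 16757816) (l 16757664)) (l 16757584)) (l 16757336)) (l 16757176)) (l 16756680)) (b (l 16756680) (l 16756024))) (a (l 16755696) (l 16754968))) (b (a (b (a (b (a (l 16757536) (l 16757376)) (l 16757128)) (l 16756968)) (l 16756472)) (b (l 16756416) (l 16755704))) (a (l 16755400) (l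 16754640))))) (a (b (c (l 16756048) (b (l 16755816) (l 16755120))) (c (l 16754752) (l 16754056))) (c (l 16757360) (c (l 16754192) (l 16756432)))))), by decide +kernel⟩

def k248_A00pm_102_s1 : ∃ t, chk3 f_A00pm_102_s1 t 101 164 1 = true :=
  ⟨(c (a (b (b (b (a (a (b (a (b (l 16758800) (l 16758648)) (l 16758568)) (l 16758344)) (b (l 16758328) (l 16758024))) (a (l 16757856) (l 16757544))) (a (a (l 16757880) (l 16757568)) (l 16757088))) (a (l 16756800) (l 16756168))) (c (l 16754920) (l 16756960))) (b (b (a (l 16756752) (l 16756072)) (l 16755192)) (l 16753336))) (a (c (b (b (a (b (a (b (l 16757920) (l 16757608)) (l 16757432)) (l 16756968)) (l 16756632)) (c (l 16755832) (l 16755552))) (l 16756304)) (a (b (b (b (a (b (a (l 16757544) (l 16757368)) (l 16757112)) (l 16756912)) (l 16756408)) (l 16755360)) (l 16755872)) (b (b (a (l 16756192) (l 16755816)) (l 16754608)) (l 16752496)))) (b (c (l 16757616) (c (l 16757000) (l 16756568))) (c (l 16752272) (l 16753976))))), by decide +kernel⟩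

def k249_A00pm_102_s1 : ∃ t, chk3 f_A00pm_102_s1 t 51 164 1 = true :=
  ⟨(c (a (a (b (l 16754368) (l 16751920)) (l 16754176)) (a (l 16749808) (l 16747872))) (c (a (b (a (l 16753536) (l 16751936)) (l 16755312)) (l 16753248)) (a (a (b (l 16752632) (l 16749808)) (l 16749648)) (b (l 16748728) (l 16745896))))), by decide +kernel⟩

def k250_A00pm_102_s1 : ∃ t, chk3 f_A00pm_102_s1 t 25 165 1 = true :=
  ⟨(a (c (a (b (a (c (l 16754816) (l 16754264)) (c (l 16753616) (l 16753024))) (c (l 16751624) (l 16750928))) (b (c (l 16751792) (l 16756320)) (l 16754016))) (c (a (a (b (l 16756328) (l 16750864)) (b (l 16752312) (l 16749464))) (a (b (l 16750904) (l 16748064)) (a (l 16751024) (l 16747680)))) (b (a (a (a (l 16756024) (l 16755272)) (b (l 16752248) (a (l 16748560) (l 16750424)))) (b (c (l 16752840) (a (a (l 16750896) (l 16750120)) (l 16748952))) (a (a (l 16749664) (l 16748912)) (l 16747768)))) (a (a (l 16750096) (b (b (l 16749704) (l 16748968)) (l 16745232))) (a (a (c (l 16747704) (l 16747208)) (l 16749320))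 (b (l 16746304) (l 16744816))))))) (a (b (c (l 16753920) (a (a (l 16747872) (l 16747112)) (l 16745968))) (c (l 16746080) (c (l 16744440) (a (b (l 16744752) (l 16743272)) (l 16737192))))) (a (c (l 16744928) (b (l 16744408) (l 16741520))) (c (l 16743072) (b (l 16742840) (l 16739944)))))), by decide +kernel⟩

def k251_A00pm_102_s1 : ∃ t, chk3 f_A00pm_102_s1 t 26 82 1 = true :=
  ⟨(a (b (b (a (c (l 16745864) (l 16744960)) (c (l 16741224) (l 16740552))) (a (c (l 16743528) (l 16742568)) (c (l 16738864) (l 16738144)))) (a (a (b (l 16741656) (l 16739216)) (b (l 16739488) (l 16737080))) (c (b (l 16736496) (l 16734120)) (b (l 16735736) (l 16733312))))) (b (b (a (c (l 16736200) (l 16735848)) (c (l 16730912) (l 16730920))) (a (c (l 16733816) (l 16733424)) (c (l 16728488) (l 16728480)))) (a (c (a (l 16731536) (l 16728912)) (b (l 16731008) (l 16728584))) (c (b (a (l 16727416) (l 16724720)) (a (l 16725008) (l 16722304))) (a (b (l 16727288) (l 16724856)) (c (l 16723472) (l 16723728))))))), by decide +kernel⟩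

def k252_A00pm_102_s1 : ∃ t, chk3 f_A00pm_102_s1 t 54 82 1 = true :=
  ⟨(b (a (c (b (l 16725688) (l 16723224)) (b (a (l 16727232) (l 16724832)) (a (l 16724776) (l 16722360)))) (c (b (l 16720688) (a (l 16719432) (l 16716968))) (a (b (l 16722464) (l 16719984)) (b (l 16720136) (l 16717648))))) (a (c (b (a (l 16722080) (l 16719496)) (a (l 16719648) (l 16717048))) (b (c (l 16720936) (l 16710856)) (a (c (l 16719736) (l 16720096)) (b (l 16718064) (l 16716840))))) (b (a (c (l 16716960) (l 16717512)) (c (l 16714472) (a (l 16715752) (l 16714584)))) (c (a (b (l 16715104) (l 16713880)) (b (l 16712608) (a (b (l 16712304) (l 16711688)) (b (a (l 16711376) (l 16710760)) (a (b (l 16710912) (l 16710600)) (l 16712768)))))) (a (b (l 16715664) (a (l 16715032) (l 16713840))) (a (b (l 16713896) (b (l 16712968) (l 16712352))) (b (l 16712728) (a (b (l 16712088) (b (l 16711624) (a (l 16711464) (l 16711160)))) (c (b (l 16711216) (l 16710584)) (b (l 16711872) (l 16713848))))))))))), by decide +kernel⟩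

def k253_A00pm_102_s1 : ∃ t, chk3 f_A00pm_102_s1 t 55 164 1 = true :=
  ⟨(a (c (b (a (l 16717088) (l 16714752)) (a (l 16714560) (b (l 16712840) (l 16711568)))) (a (b (l 16717856) (b (l 16715976) (l 16714728))) (b (l 16718232) (b (l 16713720) (a (l 16713024) (l 16711904)))))) (b (c (a (l 16712472) (b (l 16710872) (a (l 16710144) (b (l 16709352) (a (l 16708984) (l 16708408)))))) (a (a (l 16713952) (l 16715488)) (a (b (l 16712408) (l 16711144)) (b (l 16711328) (a (c (l 16709976) (b (l 16711064) (l 16710432))) (b (b (l 16710264) (l 16709944)) (b (l 16712232) (l 16709256)))))))) (c (a (b (l 16710544) (a (c (l 16709760) (l 16709976)) (b (a (l 16709296) (b (l 16708888) (l 16708568))) (a (b (l 16708816) (l 16708488)) (l 16708064))))) (b (a (b (a (l 16709456) (l 16708896)) (a (b (l 16708976) (l 16708648)) (l 16708232))) (b (l 16708024) (l 16707344))) (a (l 16707512) (l 16706320)))) (a (a (b (l 16712056) (b (l 16711112) (a (l 16710760) (b (l 16710368) (l 16710048))))) (b (l 16710960) (b (a (l 16710288) (b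 (l 16712520) (l 16712176))) (a (b (a (l 16709952) (l 16709664)) (l 16709464)) (l 16709024))))) (b (b (a (a (l 16710464) (b (l 16710080) (a (l 16709896) (l 16709616)))) (c (l 16708680) (a (l 16709744) (l 16709112)))) (a (a (a (l 16712584) (a (l 16712376) (l 16712232))) (l 16711848)) (l 16708296))) (c (l 16712744) (c (l 16708016) (l 16713680)))))))), by decide +kernel⟩

def k254_A00pm_102_s1 : ∃ t, chk3 f_A00pm_102_s1 t 110 165 1 = true :=
  ⟨(b (c (a (b (l 16712672) (a (l 16712024) (l 16710816))) (b (a (l 16710888) (b (l 16710040) (a (l 16709696) (b (l 16709272) (l 16708952))))) (a (b (a (l 16710240) (l 16709648)) (a (b (l 16709768) (l 16709456)) (l 16709016))) (b (a (b (l 16709216) (l 16708896)) (l 16708464)) (l 16708112))))) (a (b (a (l 16714048) (l 16712904)) (a (l 16712808) (l 16711664))) (b (a (l 16711776) (b (l 16710968) (a (l 16710616) (b (l 16710216) (a (l 16710040) (l 16709736)))))) (c (a (b (l 16710512) (a (b (l 16710328) (l 16710008)) (l 16709576))) (b (a (b (l 16709808) (l 16709480)) (l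 16709040)) (l 16708656))) (a (b (a (l 16711512) (l 16710952)) (a (b (l 16711048) (l 16710728)) (b (l 16710464) (l 16710120)))) (b (a (b (l 16710544) (l 16710208)) (l 16709760)) (l 16709360))))))) (c (a (b (a (b (l 16711088) (a (l 16710768) (b (l 16710312) (l 16710000)))) (b (a (l 16710176) (b (l 16709736) (l 16709424))) (a (b (l 16709712) (l 16709400)) (l 16708952)))) (a (b (a (b (l 16710304) (l 16709992)) (l 16709536)) (l 16709232)) (l 16708312))) (b (a (b (l 16708680) (l 16708040)) (l 16707144)) (l 16706472))) (a (c (b (a (b (l 16711576) (a (l 16711248) (b (l 16710816) (l 16710504)))) (b (a (l 16710704) (b (l 16710272) (l 16709952))) (a (l 16710064) (l 16709448)))) (a (b (a (b (l 16710776) (l 16710464)) (l 16710016)) (l 16709664)) (l 16708760))) (b (a (b (l 16712248) (a (l 16711912) (b (l 16711504) (l 16711184)))) (b (a (l 16711400) (b (l 16710984) (l 16710656))) (a (b (l 16710920) (l 16710576)) (l 16710136)))) (a (b (a (b (l 16711448) (l 16711120)) (l 16710680)) (l 16710304)) (l 16709400)))) (a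 (b (c (l 16708864) (l 16712168)) (l 16707784)) (b (l 16707920) (l 16706512)))))), by decide +kernel⟩

def k255_A00pm_102_s1 : ∃ t, chk3 f_A00pm_102_s1 t 111 165 1 = true :=
  ⟨(c (b (a (b (a (b (a (b (l 16709328) (l 16709008)) (l 16708584)) (l 16708224)) (l 16707360)) (a (l 16707240) (l 16706024))) (b (l 16710800) (l 16704200))) (a (b (l 16705312) (l 16703984)) (l 16702152))) (b (a (b (c (a (b (a (l 16709784) (l 16709200)) (l 16708808)) (l 16707936)) (a (b (a (b (l 16710696) (l 16710376)) (b (l 16710128) (l 16709776))) (l 16709544)) (l 16708648))) (c (l 16707144) (l 16713064))) (b (c (l 16706064) (l 16706728)) (l 16710144))) (a (b (l 16711256) (l 16704568)) (b (l 16703416) (l 16701936))))), by decide +kernel⟩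

def k256_A00pm_102_s1 : ∃ t, chk3 f_A00pm_102_s1 t 24 166 1 = true :=
  ⟨(a (b (a (b (b (a (c (a (c (l 16760184) (l 16759984)) (b (l 16759712) (l 16759368))) (a (a (l 16759768) (l 16759472)) (a (l 16759168) (l 16758848)))) (c (c (l 16758768) (l 16758488)) (c (l 16758184) (l 16757848)))) (a (c (a (l 16759448) (l 16758832)) (a (l 16758952) (l 16758288))) (c (l 16757920) (l 16757296)))) (a (c (b (l 16758416) (l 16757688)) (b (l 16757888) (l 16757144))) (c (l 16756840) (b (l 16756568) (l 16755824))))) (a (c (b (l 16757072) (l 16755640)) (b (b (l 16761960) (l 16755992)) (l 16749656))) (c (l 16755152) (b (l 16755072) (l 16753616))))) (a (c (b (l 16755968) (l 16754440)) (b (a (l 16756008) (l 16749456)) (l 16753800))) (c (l 16752816) (b (l 16752768) (l 16751240))))) (c (b (a (c (l 16753600) (l 16753128)) (l 16750968)) (a (l 16750456) (l 16748040))) (a (a (b (l 16753064) (l 16750072)) (b (l 16751800) (l 16748664))) (a (b (l 16750376) (l 16747248)) (b (l 16748944) (l 16745832)))))), by decide +kernel⟩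

def k257_A00pm_102_s1 : ∃ t, chk3 f_A00pm_102_s1 t 25 166 1 = true :=
  ⟨(c (b (a (a (l 16748504) (l 16751240)) (a (l 16743304) (l 16740288))) (a (a (l 16745600) (l 16743112)) (a (l 16740456) (l 16737528)))) (a (a (c (b (l 16749856) (l 16746808)) (a (b (b (l 16742608) (l 16746320)) (b (l 16744752) (l 16743136))) (a (b (l 16751192) (l 16742800)) (b (l 16745200) (l 16742056))))) (a (a (b (c (l 16745496) (l 16744440)) (b (l 16742704) (l 16741128))) (b (c (l 16744792) (l 16743688)) (c (l 16741768) (l 16740560)))) (b (c (l 16738488) (c (l 16742848) (l 16742232))) (c (l 16740712) (b (l 16740240) (l 16738648)))))) (c (a (b (l 16741536) (a (l 16739272) (l 16737792))) (b (l 16738488) (a (l 16731032) (l 16734728)))) (b (a (a (c (l 16741328) (l 16740664)) (l 16742056)) (a (l 16732608) (l 16731008))) (a (a (b (l 16738704) (l 16737120)) (b (l 16737144) (l 16735568))) (a (b (l 16735560) (l 16733992)) (b (l 16733968) (l 16732408)))))))), by decide +kernel⟩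

def k258_A00pm_102_s1 : ∃ t, chk3 f_A00pm_102_s1 t 26 166 1 = true :=
  ⟨(a (c (a (b (l 16736328) (l 16733848)) (b (l 16731728) (l 16726704))) (c (a (b (l 16735336) (l 16732384)) (b (l 16731032) (l 16728600))) (b (a (a (l 16734640) (l 16733032)) (l 16730536)) (a (a (b (l 16732368) (l 16730816)) (b (l 16730760) (l 16729216))) (a (l 16728344) (l 16726680)))))) (a (b (c (a (l 16727960) (l 16725328)) (a (l 16727376) (l 16724936))) (c (a (l 16725560) (l 16722928)) (a (l 16719704) (c (l 16722536) (l 16717296))))) (b (c (a (l 16722608) (l 16719896)) (a (c (l 16722392) (l 16722528)) (c (l 16719832) (l 16720088)))) (a (c (b (l 16720808) (l 16719608)) (c (b (l 16720576) (l 16719368)) (b (l 16720712) (l 16719496)))) (b (c (l 16718088) (c (l 16718008) (l 16718264))) (c (b (l 16717192) (a (l 16717272) (b (l 16716088) (l 16715832)))) (c (b (l 16717104) (a (l 16717144) (l 16718512))) (c (b (l 16717272) (a (l 16717288) (b (l 16716208) (l 16715928)))) (b (l 16717456) (a (l 16717456) (b (l 16716408) (l 16716128)))))))))))),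 by decide +kernel⟩

def k259_A00pm_102_s1 : ∃ t, chk3 f_A00pm_102_s1 t 54 332 1 = true :=
  ⟨(a (c (a (b (l 16717832) (l 16716624)) (b (l 16715216) (a (l 16714648) (b (l 16713656) (a (l 16713376) (b (l 16712880) (l 16712584))))))) (a (c (l 16717296) (a (l 16718264) (l 16717064))) (b (a (l 16716224) (l 16715016)) (a (l 16715008) (b (l 16714096) (a (b (l 16713944) (l 16713640)) (b (l 16713336) (l 16713032)))))))) (c (a (b (a (l 16713288) (b (l 16712320) (a (l 16712032) (b (l 16711552) (l 16711256))))) (a (b (a (l 16712688) (b (l 16712208) (l 16711912))) (b (l 16711936) (l 16711656))) (b (b (l 16711272) (l 16710984)) (l 16710552)))) (b (a (b (a (b (l 16711536) (l 16711232)) (b (l 16710912) (l 16710616))) (l 16710480)) (l 16709544)) (l 16708968))) (a (a (a (b (l 16714112) (b (b (l 16713344) (l 16713040)) (b (l 16712736) (l 16712424)))) (b (l 16713512) (b (b (l 16712744) (l 16712432)) (l 16711968)))) (b (b (l 16712920) (a (b (l 16712760) (l 16712456)) (b (a (l 16712312) (l 16712016)) (l 16711848)))) (b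 (c (l 16711440) (l 16714608)) (l 16711040)))) (b (a (b (a (b (l 16712184) (a (l 16712024) (l 16711728))) (b (a (l 16711744) (l 16711448)) (l 16711272))) (b (l 16713880) (l 16710928))) (b (l 16710520) (l 16709856))) (b (l 16709816) (l 16709160)))))), by decide +kernel⟩

def k260_A00pm_102_s1 : ∃ t, chk3 f_A00pm_102_s1 t 54 333 1 = true :=
  ⟨(a (a (c (b (a (l 16716080) (b (l 16715056) (a (l 16714784) (l 16714144)))) (b (a (b (l 16715336) (l 16715064)) (l 16713928)) (l 16714064))) (b (c (a (l 16716112) (b (l 16715152) (a (l 16714864) (l 16714240)))) (a (l 16716448) (b (l 16715544) (b (l 16715088) (a (l 16715088) (l 16714488)))))) (c (b (a (b (l 16715352) (l 16715072)) (l 16713984)) (l 16714056)) (b (a (b (a (l 16715992) (b (l 16715464) (l 16715312))) (c (l 16715288) (l 16715520))) (c (l 16714232) (l 16714480))) (l 16714368))))) (c (b (b (a (a (l 16714072) (b (l 16713568) (l 16713280))) (b (l 16712624) (l 16712352))) (a (l 16713200) (l 16711944))) (l 16711776)) (b (c (b (a (a (l 16714216) (l 16713600))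 (l 16712680)) (a (l 16713328) (l 16712088))) (a (b (a (l 16714648) (b (l 16714200) (l 16713896))) (l 16716360)) (b (l 16715768) (l 16712520)))) (c (l 16711832) (l 16712200))))) (c (b (a (l 16710328) (l 16707776)) (l 16707888)) (b (a (b (l 16711032) (l 16710392)) (l 16708160)) (l 16713368)))), by decide +kernel⟩

def k261_A00pm_102_s1 : ∃ t, chk3 f_A00pm_102_s1 t 55 166 1 = true :=
  ⟨(b (b (c (a (a (l 16707688) (l 16705184)) (l 16701384)) (a (a (a (l 16708936) (l 16707672)) (l 16705736)) (l 16712264))) (a (a (c (l 16706448) (l 16706936)) (l 16703976)) (c (l 16700032) (l 16700280)))) (a (b (a (l 16705240) (l 16702608)) (l 16713056)) (b (l 16709080) (l 16697136)))), by decide +kernel⟩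

def k262_A00pm_102_s1 : ∃ t, chk3 f_A00pm_102_s1 t 24 334 1 = true :=
  ⟨(b (a (a (c (l 16752824) (l 16752176)) (c (l 16750488) (l 16749640))) (a (l 16752760) (c (l 16745744) (l 16744088)))) (b (a (a (c (l 16751536) (l 16750888)) (l 16753992)) (a (l 16746216) (a (l 16733816) (l 16732528)))) (b (a (a (c (a (l 16751416) (l 16750264)) (l 16750192)) (c (l 16751160) (l 16747552))) (c (a (l 16746216) (l 16733384)) (a (l 16744816) (c (l 16742512) (l 16741568))))) (b (a (a (c (l 16753088) (l 16749824)) (c (l 16748176) (l 16747152))) (a (l 16750392) (l 16742616))) (b (b (a (a (c (l 16750304) (l 16749664)) (l 16752736)) (a (l 16744992) (l 16742456))) (a (a (c (l 16750240) (l 16749592)) (l 16752672)) (a (l 16744920) (l 16742392)))) (a (a (c (l 16750136) (l 16749480)) (l 16752568)) (a (l 16744824) (l 16742296)))))))), by decide +kernel⟩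

def k263_A00pm_102_s1 : ∃ t, chk3 f_A00pm_102_s1 t 24 1340 1 = true :=
  ⟨(a (a (c (b (a (l 16750336) (l 16749200)) (b (a (l 16749808) (l 16743440)) (a (b (b (l 16749496) (a (l 16749616) (l 16749056))) (l 16749232)) (b (b (l 16748376) (l 16748216)) (l 16748120))))) (b (l 16751680) (b (l 16751088) (a (b (b (l 16748768) (l 16748568)) (a (l 16748784) (l 16748128))) (b (b (a (l 16747784) (l 16747128)) (a (l 16747592) (l 16746936))) (l 16747152)))))) (b (b (l 16752344) (l 16752032)) (b (a (l 16747016) (l 16740544)) (c (a (a (l 16747440) (l 16746880)) (l 16746032)) (a (b (b (l 16746136) (l 16745952)) (l 16745848)) (b (l 16749976) (l 16744528))))))) (b (a (l 16749688) (l 16741936)) (a (b (l 16743928) (a (a (l 16744456) (l 16743840)) (l 16737672))) (b (l 16730952) (l 16741056))))), by decide +kernel⟩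

def k264_A00pm_102_s1 : ∃ t, chk3 f_A00pm_102_s1 t 24 1341 1 = true :=
  ⟨(b (b (a (c (a (a (l 16749144) (l 16748032)) (a (l 16746912) (l 16745792))) (a (a (a (l 16748704) (l 16748048)) (c (l 16747312) (l 16746840))) (a (l 16745768) (l 16744448)))) (a (a (l 16743904) (l 16742672)) (a (l 16741440) (l 16740200)))) (b (a (a (a (c (l 16749064) (a (a (l 16748784) (l 16748464)) (l 16747976))) (c (l 16747944) (c (l 16747224) (l 16746760)))) (c (a (l 16746832) (l 16745712)) (a (l 16745688) (l 16744368)))) (a (a (l 16738576) (l 16742592)) (a (l 16741352) (l 16740120)))) (b (a (c (a (l 16748464) (a (l 16746784) (l 16745664))) (c (a (a (l 16748440) (l 16747184)) (l 16750536)) (a (a (a (l 16748416) (l 16747744)) (c (l 16746840) (l 16746608))) (a (l 16745360) (l 16743992))))) (a (a (l 16738536) (l 16742544)) (a (l 16741312) (l 16740072)))) (a (c (a (l 16748432) (a (l 16746760) (l 16745640))) (c (a (a (l 16748416) (l 16747160)) (l 16750512)) (a (a (a (l 16748392) (l 16747720)) (c (l 16746816) (l 16746584))) (a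 (l 16745336) (l 16743968))))) (c (a (l 16743944) (l 16741672)) (a (a (l 16742968) (l 16741632)) (l 16739616))))))) (a (a (c (l 16748288) (c (a (l 16748288) (l 16747032)) (a (a (l 16748288) (l 16747608)) (c (l 16746704) (l 16746480))))) (c (a (l 16746616) (l 16745488)) (a (c (l 16745776) (l 16745232)) (l 16744184)))) (c (a (l 16743800) (l 16741520)) (a (a (l 16742856) (l 16741520)) (l 16739504))))), by decide +kernel⟩

def k265_A00pm_102_s1 : ∃ t, chk3 f_A00pm_102_s1 t 24 671 1 = true :=
  ⟨(a (c (a (c (l 16747840) (l 16747464)) (l 16745408)) (c (a (a (l 16747744) (l 16746488)) (l 16744592)) (a (a (a (l 16747800) (l 16747128)) (l 16746112)) (a (l 16744752) (l 16743384))))) (a (c (l 16732664) (l 16741680)) (l 16739944))), by decide +kernel⟩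

def k266_A00pm_102_s1 : ∃ t, chk3 f_A00pm_102_s1 t 25 668 1 = true :=
  ⟨(c (a (a (l 16743336) (l 16740880)) (a (l 16738248) (l 16735352))) (a (a (a (l 16736728) (c (l 16741120) (l 16739968))) (a (a (l 16739488) (l 16738768)) (a (l 16738056) (a (l 16737512) (l 16737144))))) (a (c (a (l 16736936) (l 16735472)) (a (c (l 16735848) (l 16735096)) (a (l 16734320) (l 16733544)))) (a (c (l 16733968) (c (l 16732784) (l 16731952))) (c (l 16732440) (c (l 16731224) (l 16730368))))))), by decide +kernel⟩

def k267_A00pm_102_s1 : ∃ t, chk3 f_A00pm_102_s1 t 25 669 1 = true :=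
  ⟨(b (c (a (a (l 16731640) (l 16729216)) (a (l 16737088) (l 16734216))) (a (a (a (l 16740664) (l 16739256)) (c (l 16737808) (a (l 16737184) (l 16735704)))) (a (c (l 16734984) (c (l 16733832) (a (l 16733800) (l 16732248)))) (a (a (l 16732344) (l 16731576)) (c (l 16731248) (l 16729560)))))) (b (c (a (a (l 16741488) (l 16728592)) (a (l 16725992) (l 16733624))) (a (c (a (l 16739840) (l 16737144)) (a (a (l 16739400) (l 16737944)) (a (a (l 16736848) (l 16736120)) (b (l 16735136) (l 16734896))))) (a (c (l 16734336) (b (a (l 16733632) (l 16732112)) (c (l 16733048) (a (l 16733000) (c (l 16731672) (l 16731248)))))) (c (l 16734000) (c (a (l 16730888) (l 16729352)) (a (a (l 16730408) (l 16729632)) (a (l 16728848) (l 16728064)))))))) (b (c (a (a (l 16741152) (l 16738744)) (a (l 16725680) (l 16733312))) (a (a (c (l 16739480) (l 16738296)) (a (l 16736800) (l 16735392))) (a (a (l 16733944) (a (l 16732848) (l 16732104))) (a (a (l 16731352) (l 16730592)) (l 16729456))))) (b (b (a (a (c (l 16741008) (l 16738736))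 (a (l 16727488) (l 16726176))) (c (a (l 16736024) (l 16733184)) (a (c (l 16733848) (l 16732248)) (c (l 16730912) (l 16729200))))) (a (a (c (l 16740952) (l 16738672)) (a (l 16737912) (l 16726112))) (c (a (l 16735976) (l 16733128)) (a (c (l 16733792) (l 16732192)) (c (l 16730848) (l 16729136)))))) (a (a (c (l 16740856) (l 16738568)) (a (l 16737816) (l 16736512))) (a (a (l 16724672) (l 16723264)) (a (l 16721816) (l 16720336)))))))), by decide +kernel⟩

def k268_A00pm_102_s1 : ∃ t, chk3 f_A00pm_102_s1 t 25 335 1 = true :=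
  ⟨(b (b (a (a (b (c (l 16740528) (l 16738200)) (b (c (l 16740088) (l 16737696)) (c (l 16739744) (l 16737312)))) (a (b (l 16726992) (b (l 16737024) (l 16747160))) (b (l 16725696) (b (l 16735736) (l 16745888))))) (b (a (c (l 16725104) (a (l 16733304) (l 16731840))) (c (l 16732760) (c (l 16730456) (l 16728712)))) (a (a (b (l 16734400) (l 16739320)) (b (l 16733016) (l 16737944))) (b (l 16733480) (a (c (l 16732824) (l 16729600)) (b (b (l 16729912) (l 16729816)) (l 16729728))))))) (b (b (a (a (c (l 16739528) (l 16737080)) (c (l 16737200) (l 16734360))) (a (a (l 16733864) (l 16737736)) (c (l 16731912) (l 16728656)))) (b (a (a (c (l 16739440) (l 16736992)) (c (l 16742352) (l 16734272))) (a (a (l 16733776) (l 16737648)) (c (a (l 16732536) (l 16731088)) (l 16728560)))) (b (a (a (c (l 16739400) (l 16736952)) (c (l 16742304) (l 16734232))) (a (a (l 16738968) (l 16737600)) (c (a (l 16735112) (l 16731040)) (l 16728520)))) (a (a (c (l 16739368) (l 16736920)) (c (l 16742272) (l 16734208))) (a (a (l 16738944) (a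 (l 16732672) (l 16731976))) (c (a (l 16735080) (a (l 16731376) (l 16730640))) (l 16728488))))))) (a (a (c (l 16739216) (l 16736808)) (c (l 16742120) (l 16734088))) (c (a (a (l 16735016) (l 16733688)) (a (l 16734920) (a (l 16731216) (l 16730480)))) (a (l 16731280) (l 16728368)))))) (a (a (c (l 16738552) (l 16736288)) (a (l 16746048) (l 16744768))) (c (a (a (l 16734336) (l 16733000)) (a (a (l 16731960) (l 16731240)) (a (l 16733136) (l 16729768)))) (a (l 16730752) (l 16727824))))), by decide +kernel⟩

def k269_A00pm_102_s1 : ∃ t, chk3 f_A00pm_102_s1 t 26 668 1 = true :=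
  ⟨(c (a (a (l 16731968) (l 16727488)) (a (a (l 16723752) (a (l 16721792) (b (l 16720752) (l 16720168)))) (a (b (a (l 16719392) (l 16718048)) (a (l 16718864) (l 16717592))) (b (b (l 16716232) (l 16716008)) (l 16715688))))) (a (a (c (l 16730104) (a (l 16729216) (l 16727624))) (c (l 16726752) (a (l 16726032) (l 16724392)))) (a (a (l 16717872) (a (l 16721304) (b (l 16720376) (c (l 16719792) (l 16717200))))) (a (b (a (l 16719120) (c (l 16717832) (b (l 16718128) (l 16717840)))) (a (b (c (l 16718672) (l 16718760)) (l 16718440)) (c (l 16717336) (l 16717464)))) (b (c (b (l 16716112) (l 16715864)) (a (b (l 16716928) (l 16716664)) (l 16715608))) (l 16715552)))))), by decide +kernel⟩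

def k270_A00pm_102_s1 : ∃ t, chk3 f_A00pm_102_s1 t 26 669 1 = true :=
  ⟨(b (c (a (a (l 16730992) (l 16726560)) (a (a (a (l 16723472) (l 16722216)) (b (l 16720448) (l 16720264))) (l 16716584))) (a (a (c (l 16728920) (a (l 16727992) (l 16726408))) (c (l 16725744) (a (l 16724824) (l 16723208)))) (c (a (a (l 16722296) (a (l 16720504) (l 16719328))) (l 16716288)) (a (a (a (l 16721960) (a (l 16721344) (b (l 16721080) (l 16718240)))) (a (b (l 16720536) (l 16720336)) (a (l 16719608) (l 16719040)))) (l 16716384))))) (b (a (a (c (l 16730496) (c (l 16728312) (c (l 16729640) (a (l 16726880) (l 16725304))))) (c (a (l 16727256) (l 16724880)) (c (l 16719904) (c (a (l 16724664) (l 16723064)) (a (l 16723728) (l 16722128)))))) (a (c (a (a (l 16723064) (l 16721896)) (l 16720136)) (a (c (a (l 16722464) (l 16721344)) (a (b (l 16721512) (b (l 16716232) (l 16716320))) (b (l 16721120) (l 16721200)))) (l 16719600))) (c (l 16716304) (l 16715944)))) (b (c (a (a (l 16730240) (a (l 16727016) (l 16724672))) (a (l 16721256)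 (l 16716168))) (a (a (c (l 16727992) (c (l 16726696) (l 16725760))) (c (a (l 16725640) (l 16723976)) (a (l 16723880) (a (l 16722688) (l 16716792))))) (a (a (l 16721712) (l 16719472)) (l 16715768)))) (b (a (b (a (a (l 16718952) (l 16717400)) (a (l 16715816) (a (l 16724624) (l 16723520)))) (a (a (l 16718896) (l 16727832)) (a (l 16715760) (c (l 16724576) (l 16723264))))) (b (a (a (l 16721936) (l 16719616)) (c (l 16716112) (l 16715696))) (a (c (l 16721216) (l 16720560)) (c (l 16716096) (l 16715664))))) (a (a (a (l 16729304) (l 16727752)) (a (l 16726168) (c (l 16724560) (l 16723344)))) (a (c (l 16721208) (l 16720544)) (c (l 16716064) (l 16715624)))))))), by decide +kernel⟩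

def k271_A00pm_102_s1 : ∃ t, chk3 f_A00pm_102_s1 t 26 1340 1 = true :=
  ⟨(a (b (a (c (l 16729712) (l 16726552)) (c (b (a (l 16726704) (l 16724560)) (a (c (a (l 16727480) (l 16726456)) (l 16726328)) (l 16724608))) (a (b (l 16724416) (l 16724504)) (b (l 16723616) (l 16723720))))) (c (b (a (a (l 16730136) (c (b (l 16728952) (l 16731584)) (l 16733352))) (a (a (b (l 16727120) (l 16727248)) (l 16726272)) (l 16724728))) (a (b (b (a (l 16735264) (c (l 16729088) (l 16728368))) (a (c (a (l 16733608) (l 16733016)) (l 16732008)) (l 16728872))) (a (l 16735352) (l 16728904))) (a (b (l 16727000) (l 16727096)) (l 16724880)))) (a (b (a (l 16726920) (l 16728328)) (b (a (b (l 16726800) (l 16726928)) (b (l 16726128) (l 16726672))) (l 16726920))) (b (a (l 16735656) (l 16723800)) (l 16724936))))) (c (b (a (c (l 16721496) (l 16720944)) (l 16715976)) (a (b (l 16721232) (l 16721288)) (b (l 16715896) (l 16715856)))) (b (a (l 16720488) (l 16715480)) (a (l 16720448) (b (l 16715304) (l 16715184)))))), by decide +kernel⟩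

def k272_A00pm_102_s1 : ∃ t, chk3 f_A00pm_102_s1 t 26 1341 1 = true :=
  ⟨(b (b (a (c (a (a (a (l 16730152) (l 16729872)) (l 16728800)) (l 16725976)) (a (l 16726816) (l 16724920))) (a (l 16720712) (l 16715304))) (b (a (c (a (a (a (a (l 16730160) (l 16729936)) (l 16729768)) (l 16728704)) (l 16725872)) (a (l 16726712) (l 16724816))) (a (l 16720608) (l 16715200))) (b (a (c (a (a (a (a (l 16730112) (l 16732512)) (a (l 16729776) (l 16729608))) (l 16728648)) (l 16725816)) (a (l 16726664) (l 16724760))) (a (c (l 16721088) (l 16720200)) (l 16715152))) (a (c (a (a (c (a (a (l 16730776) (l 16730528)) (l 16730144)) (l 16729112)) (l 16731232)) (l 16725784)) (a (l 16726632) (l 16724728))) (a (c (l 16721056) (l 16720168)) (l 16715112)))))) (a (c (a (a (c (a (a (l 16730608) (l 16730360)) (l 16729976)) (l 16728952)) (l 16731072)) (l 16725624)) (a (l 16726496) (l 16724576))) (a (c (l 16720896) (l 16720008)) (l 16714960)))), by decide +kernel⟩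

def k273_A00pm_102_s1 : ∃ t, chk3 f_A00pm_102_s1 t 26 671 1 = true :=
  ⟨(a (c (a (c (a (a (a (l 16729864) (a (l 16729624) (l 16729552))) (l 16729232)) (l 16728104)) (a (l 16728248) (l 16727400))) (c (l 16725280) (l 16724608))) (a (l 16731144) (l 16723888))) (a (c (l 16720208) (l 16719312)) (l 16724744))), by decide +kernel⟩

def k274_A00pm_102_s1 : ∃ t, chk3 f_A00pm_102_s1 t 27 334 1 = true :=
  ⟨(b (a (a (c (l 16717272) (c (l 16711952) (a (l 16713488) (l 16710936)))) (l 16711872)) (a (l 16701184) (l 16695632))) (b (a (a (l 16711096) (l 16705664)) (c (l 16708064) (l 16697216))) (b (a (c (l 16718632) (l 16718440)) (a (l 16699544) (l 16693840))) (b (a (a (l 16710472) (l 16704920)) (a (l 16699256) (l 16693512))) (b (b (a (a (l 16710384) (l 16704808)) (a (l 16699128) (l 16693376))) (a (a (l 16710344) (l 16704768)) (a (l 16699080) (l 16693320)))) (a (a (l 16710296) (l 16704696)) (a (l 16699000) (l 16693232)))))))), by decide +kernel⟩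

def k275_A00pm_102_s1 : ∃ t, chk3 f_A00pm_102_s1 t 27 670 1 = true :=
  ⟨(b (a (a (b (l 16710112) (b (l 16709888) (a (l 16711168) (l 16708296)))) (b (l 16704472) (b (l 16704168) (a (b (l 16710672) (l 16705320)) (c (l 16702920) (l 16702248)))))) (a (b (c (l 16699120) (l 16698552)) (b (c (l 16698816) (l 16698112)) (a (b (b (l 16699624) (c (l 16700024) (l 16699232))) (l 16699448)) (b (b (l 16696688) (c (l 16697136) (l 16696216))) (l 16696488))))) (a (b (l 16694384) (b (l 16693968) (a (b (b (l 16694472) (c (l 16694968) (l 16693936))) (l 16694264)) (b (b (l 16693000) (c (l 16693528) (l 16692408))) (l 16692776))))) (b (l 16691464) (b (l 16691024) (a (b (b (l 16691520) (c (l 16692088) (l 16690872))) (l 16691288)) (b (b (l 16690032) (c (l 16695888) (l 16689328))) (l 16689800)))))))) (b (b (a (a (l 16709576) (a (l 16705216) (l 16702280))) (a (a (l 16699336) (c (l 16696952) (l 16696008))) (a (c (l 16694056) (l 16692952)) (c (l 16691168) (l 16689880))))) (b (a (a (c (l 16709888) (l 16709256)) (c (l 16704088)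 (l 16703400))) (a (c (l 16698288) (a (l 16698920) (l 16695896))) (c (l 16692496) (a (l 16692840) (l 16689760))))) (b (a (a (c (l 16709832) (l 16709200)) (a (l 16705056) (l 16702120))) (c (a (l 16698232) (l 16692440)) (a (a (l 16698864) (l 16695840)) (a (l 16692784) (l 16689704))))) (a (a (c (l 16709800) (l 16709168)) (a (l 16705016) (l 16702080))) (c (a (l 16698192) (l 16692400)) (a (a (l 16698824) (l 16695800)) (a (l 16692744) (l 16689672)))))))) (a (a (c (l 16709640) (l 16709000)) (a (l 16704856) (l 16701920))) (c (a (l 16698032) (l 16692240)) (a (a (l 16698656) (l 16695632)) (a (l 16692576) (l 16689496))))))), by decide +kernel⟩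

def k276_A00pm_102_s1 : ∃ t, chk3 f_A00pm_102_s1 t 27 671 1 = true :=
  ⟨(a (a (c (l 16708936) (l 16708280)) (c (l 16703128) (a (l 16703888) (l 16700912)))) (c (a (l 16697304) (c (l 16691920) (l 16691120))) (a (a (l 16697904) (l 16694872)) (c (l 16690504) (a (l 16691640) (l 16688504)))))), by decide +kernel⟩

def k277_A00pm_102_s1 : ∃ t, chk3 f_A00pm_102_s1 t 12 21 1 = true :=
  ⟨(a (a (b (c (a (b (b (a (l 16745640) (l 16744504)) (l 16746208)) (c (l 16734704) (l 16734824))) (b (c (l 16751312) (l 16745872)) (l 16742832))) (b (a (c (b (l 16750008) (l 16740784)) (b (a (b (l 16748720) (l 16749392)) (c (l 16743944) (l 16743776))) (c (l 16751080) (l 16745672)))) (b (c (l 16747608) (c (l 16747352) (l 16747160))) (c (l 16738336) (l 16738000)))) (b (a (b (l 16748128) (l 16735616)) (l 16734112)) (a (l 16732576) (l 16730016))))) (b (a (c (l 16747584) (l 16736976)) (c (l 16724032) (l 16744840))) (a (c (l 16718536) (l 16718416)) (c (l 16736792) (l 16715720))))) (a (b (b (c (l 16748936) (c (l 16748512) (a (l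 16743472) (l 16737064)))) (c (l 16729960) (l 16729632))) (b (c (l 16721504) (l 16721360)) (l 16713384))) (b (b (c (l 16746624) (l 16740488)) (l 16738040)) (b (l 16719160) (l 16710840))))) (b (a (b (c (a (c (l 16744576) (l 16733456)) (a (l 16742464) (c (l 16731152) (l 16740816)))) (a (l 16732528) (l 16729784))) (a (l 16740976) (c (l 16722784) (l 16722760)))) (c (b (b (a (a (l 16736856) (a (l 16735840) (l 16735136))) (a (b (a (l 16730288) (l 16729568)) (l 16727704)) (c (b (l 16729048) (l 16731936)) (l 16726752)))) (a (l 16726568) (a (l 16734864) (l 16722840)))) (a (b (l 16722224) (l 16717888)) (a (l 16717768) (l 16726632)))) (b (a (a (l 16727648) (l 16726176)) (a (l 16724664) (l 16723120))) (a (l 16719984) (l 16716840))))) (b (a (a (l 16716784) (l 16724920)) (a (l 16727560) (c (l 16708168) (l 16708664)))) (a (a (l 16708368) (l 16705944)) (a (l 16703256) (l 16700032)))))), by decide +kernel⟩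

def k278_A00pm_102_s1 : ∃ t, chk3 f_A00pm_102_s1 t 26 21 1 = true :=
  ⟨(a (b (c (a (c (b (a (c (b (b (a (l 16730824) (l 16727640)) (a (l 16725760) (l 16725232))) (l 16727096)) (a (l 16729392) (l 16728864))) (c (a (l 16728592) (l 16722584)) (l 16722688))) (a (l 16725064) (l 16723848))) (b (a (a (l 16728720) (l 16728232)) (l 16722304)) (l 16724512))) (b (c (b (l 16722440) (l 16717888)) (l 16730080)) (l 16716072))) (a (b (a (l 16727064) (l 16721424)) (l 16724264)) (b (l 16718944) (l 16710240)))) (b (c (a (a (l 16705528) (l 16714496)) (l 16701696)) (a (l 16705104) (l 16701504))) (c (a (l 16695784) (l 16692488)) (a (l 16696488) (l 16692776))))) (b (b (a (c (c (l 16726064) (l 16715008)) (l 16719632)) (c (l 16730728) (a (l 16710344) (l 16728480)))) (a (c (c (l 16727656) (l 16706272)) (l 16726672)) (c (l 16701112) (l 16721216)))) (b (a (l 16697424) (c (l 16692504) (l 16691688))) (a (l 16688704) (l 16694120))))), by decide +kernel⟩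

def k279_A00pm_102_s1 : ∃ t, chk3 f_A00pm_102_s1 t 27 21 1 = true :=
  ⟨(b (a (b (a (c (b (l 16706144) (l 16701728)) (b (a (l 16706872) (l 16703944)) (l 16700880))) (c (b (a (l 16701760) (l 16698824)) (l 16695808)) (b (a (l 16700976) (c (l 16698112) (l 16697872))) (a (l 16696376) (l 16693328))))) (a (c (l 16695216) (l 16715224)) (b (a (l 16692320) (l 16689272)) (l 16707384)))) (b (a (c (b (a (l 16695888) (l 16692952)) (a (l 16691352) (l 16688376))) (b (c (a (l 16695104) (l 16692072)) (a (l 16694816) (b (l 16692920) (l 16690504)))) (a (l 16690248) (l 16687136)))) (a (c (b (l 16700504) (l 16685400)) (b (c (l 16689024) (b (l 16689800) (l 16687360))) (l 16684000))) (c (b (l 16692336) (l 16682424)) (b (c (l 16685960) (b (l 16686648) (l 16684184))) (l 16680840))))) (a (b (c (l 16685376) (l 16684064)) (c (l 16680968) (l 16679528))) (b (c (l 16679344) (l 16688192)) (c (l 16674856) (l 16673072)))))) (b (a (a (b (l 16688320) (l 16684120)) (b (l 16682112) (l 16677872))) (a (b (l 16675808) (l 16671504)) (b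 (l 16690416) (l 16665064)))) (a (a (l 16719792) (l 16692640)) (a (b (l 16667272) (l 16663112)) (b (l 16660752) (l 16656520)))))), by decide +kernel⟩

def k280_A00pm_102_s1 : ∃ t, chk3 f_A00pm_102_s1 t 12 11 1 = true :=
  ⟨(a (b (b (a (b (a (a (l 16711464) (l 16710056)) (a (l 16708664) (l 16707296))) (c (a (l 16702832) (l 16699840)) (l 16722128))) (a (c (l 16700896) (l 16721960)) (c (l 16698072) (l 16740320)))) (b (a (a (c (l 16695232) (l 16694920)) (l 16692368)) (a (l 16689448) (l 16686600))) (a (c (a (l 16687824) (l 16684560)) (l 16685848)) (a (l 16681784) (l 16678824))))) (a (a (b (c (b (l 16680616) (l 16673592)) (l 16718312)) (c (c (l 16663552) (l 16663504)) (l 16662544))) (c (b (c (l 16673272) (l 16673800)) (b (l 16663160) (l 16656512))) (b (l 16673264) (l 16659104)))) (b (c (c (b (l 16671480) (l 16664112)) (l 16689816)) (a (l 16670192) (l 16667224))) (c (a (b (l 16659496) (l 16652664)) (a (l 16653232) (l 16651344))) (a (l 16655800) (l 16652688)))))) (b (a (b (c (l 16714952) (l 16699928)) (a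 (l 16682472) (c (l 16675904) (l 16677176)))) (b (c (a (l 16689624) (l 16686168)) (b (l 16693344) (l 16684968))) (c (l 16691752) (c (l 16672560) (l 16714328))))) (b (a (a (b (l 16668192) (l 16660640)) (b (l 16665232) (l 16657552))) (c (l 16654248) (a (l 16658432) (l 16654744)))) (a (a (b (l 16653280) (l 16646120)) (b (l 16650064) (l 16642768))) (c (l 16638480) (c (l 16641248) (l 16641080))))))), by decide +kernel⟩

def k281_A00pm_102_s1 : ∃ t, chk3 f_A00pm_102_s1 t 13 11 1 = true :=
  ⟨(b (a (a (b (b (a (c (l 16686728) (l 16687920)) (c (l 16683232) (l 16684064))) (a (l 16689480) (c (l 16674000) (l 16675392)))) (a (c (l 16664608) (l 16666848)) (b (a (l 16677680) (l 16665312)) (c (l 16655816) (l 16658304))))) (a (b (c (l 16675152) (l 16675520)) (c (l 16656920) (b (l 16662608) (l 16654032)))) (b (c (l 16670704) (l 16691440)) (c (l 16652904) (b (l 16657696) (l 16649200)))))) (b (a (b (a (l 16669528) (l 16663456)) (a (l 16661112) (l 16655288))) (b (a (l 16698968) (c (l 16651448) (l 16649096))) (a (l 16648960)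 (l 16642296)))) (a (c (b (l 16650024) (l 16641416)) (b (l 16649288) (l 16640960))) (b (a (l 16640944) (l 16634376)) (c (l 16630480) (l 16628512)))))) (a (c (b (a (c (l 16643432) (l 16646464)) (c (l 16635600) (l 16637864))) (a (l 16628376) (c (l 16617088) (l 16620440)))) (a (c (b (b (l 16652088) (l 16643944)) (l 16632064)) (b (a (l 16650376) (l 16645792)) (a (l 16634712) (l 16629824)))) (b (c (c (l 16638744) (l 16638960)) (b (l 16642928) (l 16634552))) (a (b (l 16628840) (l 16631248)) (b (l 16624000) (l 16615816)))))) (a (c (b (c (l 16669760) (l 16628728)) (l 16613592)) (b (b (l 16632640) (l 16624304)) (b (l 16626544) (a (l 16610584) (l 16605096))))) (c (b (l 16639112) (c (l 16601184) (l 16601512))) (c (b (l 16617104) (l 16600912)) (b (l 16657584) (b (l 16603504) (l 16595408)))))))), by decide +kernel⟩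

def k282_A00pm_102_s1 : ∃ t, chk3 f_A00pm_102_s1 t 56 80 1 = true :=
  ⟨(a (c (b (l 16715584) (a (l 16722096) (l 16719760))) (b (l 16726816) (c (l 16711016) (l 16722104)))) (b (c (a (l 16722384) (l 16719736)) (l 16716648)) (a (c (l 16717304) (l 16718208)) (c (l 16717312) (a (l 16716288) (l 16714960)))))), by decide +kernel⟩

def k283_A00pm_102_s1 : ∃ t, chk3 f_A00pm_102_s1 t 56 162 1 = true :=
  ⟨(a (c (a (l 16716968) (b (l 16715928) (l 16713376))) (a (b (l 16719128) (l 16716616)) (c (l 16704816) (l 16710752)))) (b (a (c (l 16713496) (l 16709240)) (c (b (l 16711536) (a (l 16710936) (b (l 16709920) (l 16709264)))) (b (l 16712544) (a (l 16711968) (c (b (l 16710616) (l 16709952)) (c (l 16705552) (l 16705960))))))) (a (c (a (l 16711584) (b (l 16710960) (a (l 16710016) (l 16711984)))) (b (c (l 16712288) (l 16713008)) (a (l 16709368) (a (c (l 16710728) (l 16711472)) (c (l 16710072) (c (l 16710616) (l 16711040))))))) (a (c (b (b (l 16709992) (l 16709336)) (b (l 16708664) (l 16707968))) (b (c (b (l 16710696)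 (l 16710040)) (a (l 16711448) (b (l 16711104) (l 16710432)))) (c (b (l 16709352) (l 16708632)) (b (a (l 16710472) (l 16709696)) (l 16709336))))) (c (b (l 16708232) (l 16706824)) (b (c (l 16708896) (c (l 16709400) (l 16704552))) (l 16707728))))))), by decide +kernel⟩

def k284_A00pm_102_s1 : ∃ t, chk3 f_A00pm_102_s1 t 112 163 1 = true :=
  ⟨(b (c (a (l 16713120) (b (l 16711464) (a (l 16710776) (a (l 16709904) (l 16711928))))) (a (c (l 16713768) (l 16704000)) (b (c (l 16712152) (l 16712896)) (a (c (l 16711472) (l 16712224)) (c (b (l 16710640) (l 16710000)) (a (l 16711384) (b (l 16711112) (b (l 16710640) (l 16710296))))))))) (a (c (b (l 16711200) (a (l 16710480) (b (l 16709672) (a (l 16709312) (l 16708736))))) (b (c (l 16711872) (l 16712616)) (a (l 16711504) (c (b (l 16710368) (a (l 16710016) (l 16709440))) (b (l 16711136) (a (l 16710784) (b (l 16710392) (l 16710048)))))))) (c (b (a (b (l 16709816) (l 16711792)) (b (a (l 16708936) (l 16708304)) (l 16707936))) (a (b (a (l 16708816) (l 16708208)) (l 16707824))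 (l 16706896))) (b (a (c (b (l 16710528) (l 16709880)) (b (l 16711288) (a (l 16710944) (b (l 16710544) (l 16710200))))) (c (b (a (l 16709656) (l 16709000)) (l 16708616)) (b (a (b (l 16710600) (l 16710256)) (l 16709752)) (l 16709352)))) (c (a (b (a (l 16709520) (l 16708896)) (l 16708496)) (l 16707520)) (a (b (a (b (l 16710472) (l 16710128)) (l 16709648)) (l 16709240)) (l 16708224))))))), by decide +kernel⟩

def k285_A00pm_102_s1 : ∃ t, chk3 f_A00pm_102_s1 t 113 163 1 = true :=
  ⟨(b (a (c (b (a (a (l 16709984) (l 16711976)) (b (l 16711320) (l 16708008))) (a (b (a (l 16709016) (l 16708352)) (l 16707992)) (l 16706960))) (b (a (c (b (l 16710712) (l 16710064)) (b (l 16711464) (a (l 16711144) (c (l 16710296) (l 16710736))))) (c (b (l 16709400) (l 16708680)) (a (b (c (l 16710304) (l 16710736)) (l 16709784)) (c (l 16709192) (l 16709608))))) (c (a (b (l 16712008) (l 16708672)) (l 16707584)) (a (b (c (l 16712552) (a (l 16710720) (l 16710008))) (c (l 16709200) (l 16709632))) (l 16708272))))) (c (b (l 16706176)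 (l 16704760)) (c (b (l 16706744) (l 16705264)) (b (l 16712632) (l 16705864))))) (c (a (c (l 16705488) (l 16705688)) (c (l 16702616) (l 16702728))) (c (a (b (l 16706848) (l 16705384)) (l 16703040)) (a (b (l 16712768) (l 16706008)) (b (l 16704336) (l 16702800)))))), by decide +kernel⟩

def k286_A00pm_102_s1 : ∃ t, chk3 f_A00pm_102_s1 t 57 80 1 = true :=
  ⟨(b (a (c (a (l 16716952) (l 16714032)) (b (l 16717552) (l 16715120))) (a (b (c (l 16712208) (l 16702512)) (a (b (l 16700992) (c (l 16709856) (l 16710704))) (b (c (l 16709496) (l 16710288)) (l 16708384)))) (a (b (c (l 16709744) (l 16699984)) (l 16712416)) (b (l 16708112) (l 16705184))))) (a (b (a (c (l 16713192) (l 16714112)) (c (b (l 16710904) (a (l 16710400) (l 16708808))) (b (a (l 16712576) (l 16711056)) (a (l 16711344) (c (l 16709392) (l 16710016)))))) (a (a (c (l 16711384) (l 16709744)) (c (b (l 16710608) (b (l 16709640) (l 16708968))) (b (l 16711576) (c (l 16709952) (b (l 16710984) (l 16710288)))))) (c (b (a (l 16709080) (l 16707392)) (l 16706832))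 (a (b (c (l 16709704) (l 16710352)) (l 16708536)) (l 16707440))))) (b (c (a (l 16706872) (l 16703136)) (a (b (a (l 16709288) (l 16707336)) (l 16706816)) (l 16703528))) (c (a (l 16704016) (l 16700272)) (a (l 16709800) (l 16700504)))))), by decide +kernel⟩

def k287_A00pm_102_s1 : ∃ t, chk3 f_A00pm_102_s1 t 57 81 1 = true :=
  ⟨(b (a (b (a (a (c (b (b (l 16709808) (l 16709144)) (l 16708104)) (c (b (l 16712760) (l 16708736)) (b (b (l 16711192) (l 16710512)) (a (l 16709840) (l 16708976))))) (c (l 16707208) (c (l 16707784) (b (l 16709168) (l 16707648))))) (c (b (l 16705408) (l 16703984)) (c (l 16705128) (l 16710888)))) (c (a (b (l 16705888) (l 16704472)) (b (l 16702560) (l 16701136))) (a (c (l 16705672) (b (l 16707016) (l 16705488))) (b (l 16703096) (l 16701576))))) (b (a (c (b (l 16701872) (l 16700440)) (b (l 16702288) (l 16700768))) (c (b (l 16698120) (l 16696688)) (b (l 16698224) (l 16696696)))) (a (c (b (l 16699008) (l 16697576)) (b (l 16699248) (l 16697720))) (c (b (l 16695256) (l 16693816)) (b (l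 16695168) (l 16693632)))))) (a (c (c (a (b (l 16702328) (l 16699528)) (b (l 16699032) (l 16696224))) (a (b (l 16702416) (l 16699520)) (b (l 16699000) (l 16696088)))) (c (b (a (l 16705320) (l 16699152)) (a (l 16699712) (b (l 16696888) (l 16695376)))) (b (a (b (l 16703960) (l 16702424)) (b (l 16700264) (l 16698712))) (a (b (l 16700880) (l 16699328)) (b (l 16697152) (l 16695584)))))) (b (a (c (c (l 16695536) (l 16695360)) (c (l 16695360) (a (l 16696544) (l 16694504)))) (c (c (l 16691840) (l 16691512)) (c (l 16691344) (a (l 16692408) (l 16690256))))) (a (c (c (l 16692704) (b (l 16693168) (l 16691696))) (b (a (l 16694104) (l 16692104)) (c (l 16691568) (l 16691600)))) (c (c (l 16689000) (b (l 16689304) (l 16687832))) (c (b (l 16689064) (l 16687528)) (b (l 16688976) (l 16687392)))))))), by decide +kernel⟩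

def k288_A00pm_102_s1 : ∃ t, chk3 f_A00pm_102_s1 t 29 80 1 = true :=
  ⟨(a (b (a (a (b (l 16715504) (l 16707328)) (b (l 16700720) (l 16708272))) (b (a (l 16696224) (l 16691608)) (c (l 16701840) (l 16701184)))) (a (b (c (a (l 16699192) (l 16695056)) (a (l 16699256) (l 16694776))) (a (c (l 16696328) (l 16696224)) (c (l 16692184) (l 16691736)))) (b (a (c (l 16690744) (l 16690096)) (c (l 16686296) (l 16685280))) (a (c (l 16687880) (l 16687056)) (c (l 16683432) (l 16682232)))))) (b (b (a (a (l 16687160) (l 16682960)) (c (l 16677976) (l 16676256))) (a (a (l 16684176) (l 16679944)) (c (l 16675024) (l 16673112)))) (b (a (a (c (l 16681952) (l 16680584)) (c (l 16677848) (l 16676152))) (a (l 16683408) (l 16679584))) (a (a (c (l 16679088) (l 16677520)) (c (l 16674960) (l 16673056))) (c (a (l 16671048) (l 16667344)) (a (l 16668840) (l 16664848))))))), by decide +kernel⟩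

def k289_A00pm_102_s1 : ∃ t, chk3 f_A00pm_102_s1 t 58 81 1 = true :=
  ⟨(a (b (b (a (c (b (l 16694168) (l 16692736)) (b (l 16693936) (l 16692408))) (c (l 16694560) (l 16693920))) (a (c (b (l 16691296) (l 16689856)) (b (l 16690872) (l 16689328))) (c (b (l 16687160) (l 16685712)) (b (l 16686368) (l 16684824))))) (b (a (c (c (l 16687952) (l 16687464)) (c (l 16687120) (l 16686928))) (c (b (l 16684272) (l 16688064)) (c (l 16682712) (l 16682320)))) (a (c (c (l 16685112) (b (l 16685256) (l 16683776))) (b (c (l 16684832) (l 16684552)) (c (l 16683296) (l 16682960)))) (c (c (l 16681048) (l 16680280)) (b (c (l 16680408) (l 16679936)) (a (l 16679736) (l 16677432))))))) (b (c (b (a (l 16685008) (l 16680576)) (a (b (l 16682848) (l 16681408)) (b (l 16678424) (l 16676984)))) (b (a (l 16683992) (l 16679184)) (a (b (l 16681688) (l 16680144)) (b (l 16676872) (l 16675328))))) (b (a (c (b (l 16679968) (l 16678520)) (b (l 16678592) (l 16677032))) (c (c (l 16675344) (l 16674320)) (c (l 16673408) (l 16672600)))) (a (c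 (c (l 16676832) (l 16675880)) (c (l 16675048) (l 16674328))) (c (c (l 16672504) (l 16671368)) (c (l 16670328) (l 16669400))))))), by decide +kernel⟩

def k290_A00pm_102_s1 : ∃ t, chk3 f_A00pm_102_s1 t 59 81 1 = true :=
  ⟨(b (a (b (a (c (l 16676224) (l 16674456)) (c (l 16672072) (l 16669960))) (a (c (b (l 16674072) (l 16672648)) (b (l 16672144) (l 16670608))) (c (b (l 16669928) (l 16668488)) (b (l 16667640) (l 16666088))))) (b (a (c (l 16668144) (l 16665704)) (c (l 16664416) (l 16661688))) (c (a (b (l 16665976) (l 16664528)) (b (l 16662232) (l 16660776))) (a (b (l 16663360) (l 16661784)) (l 16663760))))) (a (c (a (b (b (l 16671208) (l 16669768)) (c (l 16668272) (l 16666952))) (b (b (l 16667056) (l 16665616)) (c (l 16664208) (l 16662704)))) (a (b (b (l 16669056) (l 16667496)) (c (l 16665720) (l 16664576))) (b (b (l 16664536) (l 16662968)) (b (l 16661400) (l 16659832))))) (b (a (c (b (l 16663080) (l 16661640)) (b (l 16660216) (l 16658648))) (c (b (l 16659312) (l 16657864)) (b (l 16656136) (l 16654544))))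 (a (c (c (l 16660312) (l 16658656)) (c (l 16657056) (l 16655520))) (c (c (l 16656592) (l 16654776)) (b (l 16652952) (l 16651352))))))), by decide +kernel⟩

def k291_A00pm_102_s1 : ∃ t, chk3 f_A00pm_102_s1 t 56 82 1 = true :=
  ⟨(a (b (b (c (a (b (a (b (l 16709512) (a (l 16709152) (l 16708576))) (b (a (l 16708664) (l 16708064)) (l 16707680))) (a (b (a (l 16708496) (l 16707896)) (l 16707512)) (l 16706648))) (c (l 16705384) (l 16705576))) (a (a (a (b (c (l 16710160) (l 16710928)) (b (b (l 16712328) (l 16709352)) (l 16708808))) (b (b (l 16710280) (c (l 16709264) (b (l 16710216) (l 16709864)))) (c (l 16708200) (l 16708936)))) (b (c (b (a (l 16709352) (l 16708736)) (l 16708336)) (a (b (b (l 16710304) (l 16709960)) (l 16709408)) (l 16709120))) (l 16707568))) (c (l 16711240) (b (l 16712656) (l 16705904))))) (c (a (c (l 16705136) (l 16705304)) (c (l 16702648) (l 16702736))) (c (a (l 16710952) (l 16703064)) (a (c (l 16706176) (l 16711808)) (l 16708864))))) (c (b (a (b (l 16703120) (l 16701728)) (l 16699872))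 (a (l 16699640) (l 16697048))) (b (a (c (l 16702776) (l 16708568)) (b (l 16701048) (l 16699528))) (a (l 16710488) (l 16697216))))) (b (c (a (b (c (l 16702728) (l 16702840)) (c (l 16699968) (l 16699968))) (b (c (l 16699840) (l 16699848)) (c (l 16697048) (l 16696952)))) (c (a (b (l 16703168) (l 16700192)) (b (l 16700056) (l 16697048))) (b (a (a (l 16704480) (l 16702936)) (a (l 16701320) (l 16699632))) (a (l 16700632) (l 16697360))))) (b (c (a (l 16697112) (l 16694120)) (a (b (l 16698088) (l 16696552)) (b (l 16694864) (l 16693296)))) (c (a (l 16694264) (l 16691232)) (a (l 16694208) (l 16690920)))))), by decide +kernel⟩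

def k292_A00pm_102_s1 : ∃ t, chk3 f_A00pm_102_s1 t 57 82 1 = true :=
  ⟨(a (b (b (a (c (c (l 16696728) (l 16696616)) (c (l 16696696) (a (l 16697880) (l 16696064)))) (c (c (l 16693400) (l 16693160)) (c (a (l 16694024) (l 16692160)) (a (l 16694184) (l 16692240))))) (b (a (c (l 16694496) (l 16694496)) (c (l 16691096) (l 16693424))) (a (c (l 16693064) (l 16692944)) (c (l 16689648) (l 16689232))))) (b (c (a (l 16696144) (b (l 16688200) (l 16686736))) (a (b (l 16691376) (l 16689792)) (b (l 16687648) (l 16686048)))) (c (a (l 16687992) (l 16684536)) (a (l 16687392) (l 16683624))))) (b (b (a (c (c (l 16689872) (l 16692112)) (c (a (l 16690248) (l 16688280)) (a (l 16690240) (l 16688184)))) (c (c (l 16686152) (b (l 16686352) (l 16684872))) (c (a (l 16686256) (l 16684184)) (a (l 16686064) (l 16683896))))) (c (a (b (l 16687488) (l 16686032)) (b (l 16683680) (l 16682216))) (a (c (l 16686184) (b (l 16686816) (l 16685200))) (c (l 16682120) (b (l 16682568) (l 16680944)))))) (b (c (a (b (l 16684568) (l 16683104))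 (b (l 16680752) (l 16679272))) (a (b (l 16683688) (l 16682080)) (b (l 16679520) (l 16677896)))) (c (a (l 16680880) (l 16677040)) (a (l 16679632) (l 16675424)))))), by decide +kernel⟩

def k293_A00pm_102_s1 : ∃ t, chk3 f_A00pm_102_s1 t 58 82 1 = true :=
  ⟨(b (a (c (a (b (c (l 16682256) (l 16684168)) (c (l 16679392) (l 16678560))) (b (c (l 16678192) (l 16682552)) (c (l 16675328) (l 16674312)))) (a (b (c (a (l 16682056) (l 16679888)) (a (l 16681680) (l 16679408))) (c (l 16677856) (b (l 16678112) (l 16676472)))) (b (c (l 16681792) (a (l 16677088) (l 16674720))) (c (l 16673416) (b (l 16673464) (l 16671816)))))) (c (a (b (c (l 16673976) (l 16672904)) (c (l 16671112) (l 16669904))) (b (c (l 16669656) (l 16668392)) (c (l 16666784) (l 16665392)))) (a (b (c (l 16671944) (l 16671096)) (c (l 16668808) (l 16667816))) (b (c (l 16667224) (l 16666160)) (c (l 16664088) (l 16662872)))))) (b (a (c (a (b (l 16676752) (l 16675272)) (b (l 16672592) (l 16671104))) (a (b (l 16675144) (l 16673512)) (b (l 16670584) (l 16668952))))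 (c (a (b (l 16668280) (l 16666792)) (b (l 16663864) (l 16662376))) (a (b (l 16665864) (l 16664216)) (b (l 16661024) (l 16659376))))) (a (c (a (l 16673032) (l 16668856)) (a (l 16671024) (l 16666448))) (c (a (l 16664536) (l 16660112)) (a (l 16661704) (b (l 16657704) (l 16656016))))))), by decide +kernel⟩

def k294_A00pm_102_s1 : ∃ t, chk3 f_A00pm_102_s1 t 59 82 1 = true :=
  ⟨(b (a (c (b (a (c (l 16665424) (l 16663976)) (c (l 16661384) (l 16659760))) (a (c (l 16662560) (l 16660984)) (c (l 16658528) (l 16656768)))) (a (b (c (l 16662616) (l 16661336)) (c (l 16659472) (l 16658040))) (b (c (l 16658200) (l 16656712)) (c (l 16655064) (l 16653416))))) (c (b (a (c (l 16657488) (l 16655688)) (c (l 16653744) (l 16651792))) (a (c (l 16654632) (l 16652696)) (c (l 16650896) (l 16648800)))) (a (b (c (l 16653952) (l 16652272)) (c (l 16650808) (l 16648968))) (b (c (l 16649880) (l 16648016)) (c (l 16646736) (l 16644704)))))) (b (a (c (a (b (l 16659552) (l 16658064)) (b (l 16655432) (l 16653944))) (a (b (l 16656304)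 (l 16654648)) (b (l 16651792) (l 16650136)))) (c (a (b (l 16651472) (l 16649984)) (b (l 16647648) (l 16646168))) (a (b (l 16647448) (l 16645800)) (b (l 16643272) (l 16641616))))) (a (c (a (l 16655800) (l 16651680)) (a (l 16652120) (l 16647600))) (c (a (l 16647728) (l 16643912)) (a (l 16643264) (l 16639072)))))), by decide +kernel⟩

def k295_A00pm_102_s1 : ∃ t, chk3 f_A00pm_102_s1 t 28 166 1 = true :=
  ⟨(c (a (a (b (l 16706024) (l 16692664)) (b (l 16689872) (l 16686896))) (a (b (l 16683320) (l 16680280)) (b (b (l 16676736) (l 16675208)) (l 16672864)))) (a (b (a (b (l 16696304) (l 16694728)) (b (l 16690200) (l 16688568))) (a (l 16692296) (l 16686040))) (a (b (b (l 16683080) (l 16681408)) (l 16678800)) (b (b (l 16675048) (l 16673344)) (l 16670664))))), by decide +kernel⟩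

def k296_A00pm_102_s1 : ∃ t, chk3 f_A00pm_102_s1 t 28 334 1 = true :=
  ⟨(b (a (a (l 16690000) (l 16683904)) (a (l 16676920) (l 16669096))) (b (a (a (l 16688752) (l 16682568)) (c (l 16672968) (l 16670520))) (b (a (a (l 16709040) (l 16681864)) (c (l 16682768) (l 16669688))) (b (a (a (l 16687712) (l 16681488)) (c (l 16671920) (l 16669240))) (b (b (a (a (l 16687560) (l 16681328)) (c (l 16671768) (l 16669048))) (a (a (l 16687496) (l 16681256)) (c (l 16671704) (l 16668968)))) (a (a (l 16687400) (l 16681160)) (a (l 16674064) (l 16666144)))))))), by decide +kernel⟩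

def k297_A00pm_102_s1 : ∃ t, chk3 f_A00pm_102_s1 t 28 335 1 = true :=
  ⟨(b (b (a (c (b (a (l 16687784) (l 16681768)) (b (a (l 16687384) (l 16681328)) (a (b (c (b (l 16687648) (a (l 16694200) (l 16686104))) (b (l 16686712) (a (l 16688056) (l 16685088)))) (a (l 16688400) (l 16685488))) (b (b (l 16681080) (a (l 16682552) (l 16679320))) (a (l 16682456) (l 16679224)))))) (b (a (l 16686504) (l 16679944)) (b (a (l 16685952) (l 16679344)) (a (b (b (l 16685624) (a (l 16687008) (l 16683856))) (a (l 16686888) (l 16683736))) (b (b (l 16678984) (a (l 16680544) (l 16676992))) (l 16678664)))))) (b (a (l 16673672) (l 16665728)) (b (a (l 16683600) (l 16665144)) (b (a (b (l 16683280) (c (l 16684568) (l 16671232))) (b (l 16664800) (a (l 16666680) (l 16662496)))) (a (a (l 16674384) (l 16670568)) (l 16664480)))))) (b (b (a (a (a (c (l 16688280) (l 16686776)) (l 16684424)) (a (l 16681256) (l 16677872))) (a (c (l 16673864) (l 16670984)) (c (l 16666224) (l 16662568)))) (b (a (a (c (l 16691968) (a (l 16686664) (l 16683504)))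 (a (l 16681144) (l 16677760))) (a (c (l 16673752) (l 16670872)) (c (l 16666112) (l 16662456)))) (b (a (a (c (l 16686672) (a (l 16686600) (l 16683448))) (a (l 16681080) (l 16677704))) (a (c (l 16673696) (l 16670816)) (c (l 16666056) (l 16662392)))) (a (a (c (l 16686632) (a (l 16686568) (l 16683408))) (a (l 16681048) (l 16677664))) (a (c (l 16673656) (l 16670776)) (c (l 16666016) (l 16662360))))))) (a (a (c (l 16686464) (a (l 16686392) (l 16683232))) (a (l 16680872) (l 16677488))) (a (c (l 16673488) (l 16670600)) (c (l 16665848) (l 16662184)))))) (a (c (a (a (l 16687152) (l 16684232)) (l 16679592)) (a (a (l 16685616) (l 16682448)) (a (l 16679128) (l 16675576)))) (a (c (l 16672728) (l 16669816)) (c (l 16665096) (l 16661408))))), by decide +kernel⟩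

def k298_A00pm_102_s1 : ∃ t, chk3 f_A00pm_102_s1 t 29 166 1 = true :=
  ⟨(a (b (a (c (b (l 16668680) (l 16667144)) (b (l 16666216) (l 16664480))) (c (a (l 16661472) (l 16657040)) (a (l 16658272) (l 16653400)))) (a (c (l 16664760) (l 16661760)) (c (l 16656056) (l 16652184)))) (a (b (c (b (l 16651424) (l 16649864)) (a (l 16648656) (l 16644136))) (c (l 16647440) (l 16642696))) (b (c (b (l 16643520) (l 16641968)) (b (l 16638576) (l 16636800))) (c (l 16639536) (l 16634000))))), by decide +kernel⟩

def k299_A00pm_102_s1 : ∃ t, chk3 f_A00pm_102_s1 t 29 334 1 = true :=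
  ⟨(a (a (b (l 16660552) (b (l 16659104) (b (l 16658320) (l 16657744)))) (b (l 16651392) (b (l 16649912) (b (l 16649112) (l 16648512))))) (a (b (l 16642336) (b (l 16640832) (b (l 16640016) (l 16639408)))) (b (l 16634040) (b (l 16632520) (b (l 16631688) (l 16631072)))))), by decide +kernel⟩

def k300_A00pm_102_s1 : ∃ t, chk3 f_A00pm_102_s1 t 29 335 1 = true :=
  ⟨(b (b (a (b (a (l 16657088) (c (l 16650336) (l 16645328))) (a (b (c (l 16658616) (l 16654344)) (a (c (l 16660328) (l 16656120)) (b (b (l 16653832) (l 16653624)) (l 16653496)))) (b (a (l 16649576) (l 16644856)) (a (b (b (l 16649192) (l 16648984)) (l 16648848)) (b (b (l 16644464) (c (l 16647032) (l 16641424))) (l 16644112)))))) (b (a (l 16638712) (l 16630368)) (b (a (c (l 16641064) (l 16634984)) (l 16629688)) (b (a (b (a (l 16639864) (l 16635488)) (a (l 16644880) (l 16635264))) (b (a (l 16631304) (l 16627288)) (a (l 16631072) (l 16627056)))) (a (a (l 16639504) (l 16635128)) (a (l 16630936) (l 16626912))))))) (b (b (a (a (c (l 16657912) (l 16653408))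 (a (l 16648744) (l 16644000))) (a (a (l 16639400) (l 16635024)) (a (l 16630832) (l 16626808)))) (b (a (a (c (l 16657808) (l 16653296)) (a (l 16648632) (l 16638648))) (a (c (l 16640200) (a (l 16636216) (l 16631608))) (a (l 16630728) (l 16626704)))) (b (a (a (c (l 16657752) (l 16653240)) (c (l 16648888) (a (l 16645976) (l 16640992)))) (a (c (l 16640144) (a (l 16636160) (l 16631552))) (a (l 16630672) (l 16626656)))) (a (a (a (l 16657696) (l 16653184)) (c (l 16648848) (a (l 16645936) (l 16640960)))) (a (c (l 16640112) (a (l 16636120) (l 16631520))) (c (l 16632128) (a (l 16627120) (l 16622888)))))))) (a (a (a (l 16657528) (l 16653016)) (c (l 16648680) (a (l 16645760) (l 16640784)))) (a (c (l 16639944) (a (l 16635952) (l 16631352))) (a (l 16627856) (l 16626456)))))) (a (a (c (l 16656808) (a (l 16654616) (l 16649880))) (c (l 16647952) (a (l 16645000) (l 16640032)))) (a (c (l 16639224) (a (l 16635200) (l 16630600))) (c (l 16631248) (a (l 16626208) (l 16621992)))))), by decide +kernel⟩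

def k301_A00pm_102_s1 : ∃ t, chk3 f_A00pm_102_s1 t 28 21 1 = true :=
  ⟨(c (a (b (b (a (a (b (l 16684168) (l 16679456)) (b (l 16681224) (l 16676464))) (b (c (l 16677208) (l 16675936)) (a (l 16673352) (l 16670088)))) (a (b (l 16673320) (l 16668744)) (b (l 16666992) (l 16662328)))) (b (a (b (l 16664256) (l 16659840)) (b (l 16657752) (l 16653248))) (a (l 16653352) (l 16646648)))) (b (a (b (b (l 16680192) (l 16664872)) (b (l 16660080) (l 16655352))) (b (b (l 16662104) (l 16657328)) (b (l 16652568) (l 16647800)))) (a (b (b (l 16650664) (l 16646080)) (l 16639360)) (b (b (l 16643096) (l 16638440)) (l 16652544))))) (a (b (b (c (a (b (a (l 16682880) (l 16679752)) (l 16676488)) (b (a (l 16676488) (l 16673016)) (l 16669864))) (b (a (a (l 16692696) (l 16678952)) (a (l 16675528) (l 16671880))) (a (l 16686144) (l 16668728)))) (a (b (l 16671256) (l 16666536)) (b (l 16664376) (l 16659568)))) (b (a (l 16680592) (l 16673496)) (a (l 16650688) (l 16643424)))) (b (b (a (b (c (l 16667424) (l 16676472)) (a (l 16663680)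 (l 16659712))) (b (c (l 16659248) (l 16657384)) (c (l 16654352) (l 16652400)))) (a (b (l 16656776) (l 16651912)) (b (l 16648464) (l 16643568)))) (b (a (b (l 16647096) (l 16642376)) (b (l 16638736) (l 16633960))) (a (l 16635464) (l 16626912)))))), by decide +kernel⟩

def k302_A00pm_102_s1 : ∃ t, chk3 f_A00pm_102_s1 t 29 21 1 = true :=
  ⟨(a (b (b (a (c (c (l 16663144) (b (l 16652680) (l 16647920))) (b (c (l 16650360) (a (l 16650440) (l 16645600))) (a (l 16646640) (l 16641944)))) (c (c (a (l 16646272) (l 16641904)) (a (l 16643608) (l 16639016))) (b (a (c (l 16643304) (l 16640608)) (c (l 16638472) (l 16635536))) (a (l 16637112) (l 16632192))))) (a (c (b (l 16644400) (l 16639704)) (b (l 16639440) (l 16634600))) (c (b (l 16635680) (l 16631032)) (b (a (l 16632288) (l 16627392)) (l 16625024))))) (b (a (c (b (l 16635016) (l 16630336)) (b (l 16629784) (l 16624992))) (c (b (l 16626400) (l 16621776)) (b (l 16620264) (l 16615520)))) (a (c (b (l 16625704) (l 16621136)) (l 16638872)) (c (b (l 16617176) (l 16612576))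 (b (l 16610800) (l 16606096)))))) (b (b (c (a (c (b (l 16637896) (l 16633312)) (b (l 16634744) (l 16630088))) (c (l 16627880) (a (l 16626288) (l 16622408)))) (a (b (c (a (l 16633784) (l 16629320)) (a (l 16630600) (l 16625904))) (c (l 16626784) (l 16633888))) (b (c (l 16633472) (a (l 16621416) (l 16617112))) (a (l 16618528) (l 16614368))))) (c (a (b (l 16627104) (l 16622504)) (b (l 16619288) (l 16614744))) (a (b (c (l 16622072) (l 16618608)) (l 16615616)) (b (l 16611736) (l 16607064))))) (b (a (c (b (l 16617920) (l 16613352)) (b (l 16610904) (l 16606216))) (c (l 16628936) (l 16621080))) (a (c (b (l 16608800) (l 16604264)) (l 16641176)) (c (l 16598960) (l 16590896)))))), by decide +kernel⟩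

def k303_A00pm_102_s1 : ∃ t, chk3 f_A00pm_102_s1 t 30 80 1 = true :=
  ⟨(a (b (a (b (c (l 16670976) (l 16668824)) (c (l 16668008) (l 16665624))) (b (c (l 16664456) (l 16661960)) (c (l 16661480) (l 16658728)))) (a (b (a (l 16675952) (c (l 16663376) (l 16660656))) (c (a (l 16663808) (l 16660416)) (a (l 16661064) (l 16657440)))) (b (c (a (l 16660112) (l 16656928)) (l 16655496)) (c (a (l 16657144) (l 16653952)) (a (l 16653960) (l 16650576)))))) (b (a (c (b (l 16658160) (l 16655184)) (b (l 16655392) (l 16652144))) (a (b (l 16651784) (l 16648688)) (b (l 16648296) (l 16655688)))) (a (c (b (a (l 16653792) (l 16650640)) (a (l 16650816) (l 16647672))) (b (l 16648888) (a (l 16647272) (l 16643968)))) (c (b (a (l 16647360) (l 16643944)) (a (l 16644400) (l 16640992))) (b (l 16642072) (l 16644040)))))), by decide +kernel⟩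

def k304_A00pm_102_s1 : ∃ t, chk3 f_A00pm_102_s1 t 30 81 1 = true :=
  ⟨(a (b (a (b (c (a (l 16660864) (l 16657464)) (a (l 16657864) (l 16654216))) (a (c (l 16657928) (l 16654664)) (c (c (l 16655424) (l 16653616)) (l 16650992)))) (c (b (a (l 16654184) (l 16650984)) (a (c (l 16652184) (l 16650264)) (l 16653256))) (b (a (l 16650712) (l 16647320)) (a (l 16647464) (l 16644048))))) (a (b (a (c (b (l 16655736) (l 16654264)) (b (l 16652264) (l 16650656))) (c (c (l 16652544) (l 16650600)) (c (l 16648696) (l 16646824)))) (a (c (c (l 16653048) (l 16651096)) (c (l 16649176) (l 16647304))) (c (c (l 16649664) (l 16647576)) (c (l 16645520) (l 16643496))))) (c (a (b (c (l 16649288) (l 16647232)) (c (l 16646400) (l 16644200))) (b (c (l 16646128) (l 16643976)) (c (l 16643232) (l 16640920)))) (b (a (c (l 16645208) (l 16643208)) (l 16640768)) (a (c (l 16642016) (l 16639840)) (c (l 16638616) (l 16636320))))))) (a (b (c (b (a (l 16647848) (l 16644696)) (a (l 16644880) (l 16641728))) (b (a (l 16644000) (l 16640688))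 (a (l 16640720) (l 16637392)))) (c (a (b (c (l 16643032) (l 16640784)) (c (l 16640128) (l 16637720))) (b (l 16638752) (l 16635776))) (b (a (l 16637416) (l 16634080)) (a (l 16634096) (l 16630744))))) (b (c (b (a (l 16641440) (l 16638040)) (a (l 16638472) (l 16635080))) (b (a (l 16637272) (l 16633728)) (a (l 16633968) (l 16630416)))) (c (b (a (l 16635504) (l 16632120)) (a (l 16632520) (l 16629144))) (b (a (l 16630648) (l 16627088)) (a (l 16627296) (l 16623744))))))), by decide +kernel⟩

def k305_A00pm_102_s1 : ∃ t, chk3 f_A00pm_102_s1 t 62 40 1 = true :=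
  ⟨(b (b (a (c (a (b (l 16646224) (l 16643296)) (b (l 16642448) (l 16639544))) (b (l 16641184) (l 16637944))) (c (b (a (l 16638488) (l 16634280)) (a (l 16635632) (l 16631472))) (b (l 16633072) (l 16629904)))) (a (a (c (b (l 16640368) (l 16637440)) (l 16634968)) (c (b (l 16636632) (l 16633720)) (b (l 16632760) (l 16629496)))) (c (a (b (l 16632728) (l 16629840)) (b (l 16628648) (l 16625800))) (a (b (l 16628752) (l 16625496)) (b (l 16624568) (l 16621352)))))) (c (a (b (a (b (l 16634496) (l 16631552)) (b (l 16630800) (l 16627872))) (a (b (l 16628600) (l 16625632)) (c (l 16624808) (l 16622088)))) (b (a (b (l 16626944) (l 16624040)) (b (l 16622912) (l 16620032))) (a (c (l 16631520) (l 16618240)) (b (l 16617136) (l 16614224))))) (a (b (b (a (l 16630048) (l 16626216)) (a (l 16626736) (l 16622912))) (a (b (l 16623408) (l 16620056)) (b (l 16619592) (l 16616240)))) (b (a (b (l 16622232) (l 16618936)) (b (l 16618072) (l 16614800))) (a (b (l 16615624) (l 16612280)) (b (l 16611496) (l 16608160))))))), by decide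 +kernel⟩

def k306_A00pm_102_s1 : ∃ t, chk3 f_A00pm_102_s1 t 63 40 1 = true :=
  ⟨(b (b (a (b (a (l 16633200) (l 16622968)) (c (a (l 16627032) (l 16622224)) (l 16620784))) (a (c (l 16618264) (l 16614360)) (b (l 16611840) (l 16614600)))) (a (c (a (b (l 16624304) (l 16621520)) (b (l 16619616) (l 16616952))) (a (b (l 16620120) (l 16616952)) (b (l 16615304) (l 16612264)))) (c (a (b (l 16614552) (l 16612016)) (b (l 16609120) (l 16606704))) (a (b (l 16610096) (l 16607176)) (b (l 16604504) (l 16601696)))))) (a (b (c (a (b (l 16618704) (c (l 16617184) (l 16614544))) (b (l 16614240) (l 16611464))) (a (b (l 16613744) (l 16610504)) (b (l 16609152) (l 16605960)))) (a (c (b (l 16612984) (l 16610104)) (b (l 16607192) (l 16603880))) (c (b (l 16608656) (l 16605824)) (b (l 16602720) (l 16599440))))) (b (a (c (b (l 16609424) (l 16606776)) (b (l 16604184) (l 16601120))) (b (c (l 16604240) (l 16598824)) (c (l 16601712) (l 16595880)))) (a (b (c (l 16604072) (l 16597976)) (c (l 16601296) (l 16594744))) (c (b (l 16599128)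 (l 16596488)) (b (l 16592856) (l 16589760))))))), by decide +kernel⟩

def k307_A00pm_102_s1 : ∃ t, chk3 f_A00pm_102_s1 t 30 82 1 = true :=
  ⟨(a (b (a (c (b (a (c (l 16650184) (l 16648088)) (c (l 16646784) (l 16644552))) (a (c (l 16647312) (l 16645064)) (b (l 16643448) (l 16641960)))) (a (b (c (l 16646016) (l 16643976)) (c (l 16642832) (l 16640616))) (b (c (l 16642336) (l 16640136)) (c (l 16639120) (l 16636736))))) (c (b (a (c (l 16643504) (l 16641152)) (c (l 16640328) (l 16637864))) (a (b (l 16640096) (l 16638600)) (l 16641344))) (a (b (c (l 16638800) (l 16636448)) (b (l 16635136) (l 16633456))) (b (l 16639384) (l 16641272))))) (a (b (c (a (l 16643224) (l 16639712)) (a (b (l 16639256) (l 16637584)) (b (l 16635432) (l 16633744)))) (c (a (l 16640240) (l 16636696)) (a (l 16635048) (l 16631176)))) (b (c (a (l 16636344) (l 16633080)) (a (l 16630920) (l 16627384))) (c (a (l 16633304) (l 16630024)) (a (l 16627472) (l 16623904)))))) (b (a (c (a (b (l 16646424) (l 16632936)) (b (l 16632784) (l 16629768)))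 (a (b (l 16630752) (l 16627376)) (b (l 16627384) (l 16623984)))) (c (b (a (l 16629528) (l 16626152)) (a (l 16626512) (l 16623144))) (a (b (l 16623928) (l 16620512)) (b (l 16620360) (l 16616936))))) (a (b (a (c (l 16629904) (l 16623944)) (c (l 16626736) (l 16620536))) (c (a (l 16626832) (l 16623656)) (a (l 16620448) (l 16617016)))) (b (a (c (l 16623472) (l 16617048)) (c (l 16620104) (l 16613456))) (c (l 16629192) (a (l 16613512) (l 16609904))))))), by decide +kernel⟩

def k308_A00pm_102_s1 : ∃ t, chk3 f_A00pm_102_s1 t 31 82 1 = true :=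
  ⟨(a (a (b (c (a (b (l 16622656) (l 16619648)) (b (l 16619016) (l 16616024))) (a (b (l 16616672) (l 16613240)) (b (l 16612856) (l 16609424)))) (b (a (c (l 16616608) (l 16609760)) (c (l 16612992) (l 16605936))) (c (l 16611728) (l 16614776)))) (b (c (a (b (l 16615232) (l 16612256)) (b (l 16611296) (l 16608336))) (a (b (l 16608896) (l 16605472)) (b (l 16604784) (l 16601368)))) (b (a (c (l 16609240) (l 16601984)) (c (l 16605336) (l 16597888))) (a (l 16602368) (l 16598384))))) (b (a (c (a (b (l 16607200) (l 16604264)) (b (l 16602928) (l 16600016))) (a (b (l 16600520) (l 16597112)) (b (l 16596080) (l 16592688)))) (c (a (b (l 16598480) (l 16595624)) (b (l 16593776) (l 16590984))) (a (b (l 16591456) (l 16588112)) (b (l 16586568) (l 16583280))))) (a (b (a (c (l 16601288) (l 16593648)) (c (l 16597072) (l 16589240))) (a (l 16594256) (c (l 16594072) (l 16585704)))) (c (b (a (l 16592688) (l 16588128)) (a (l 16589712) (l 16585208))) (a (b (l 16584656) (l 16581144)) (b (l 16579896) (l 16576432))))))), by decide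 +kernel⟩

def k309_A00pm_102_s1 : ∃ t, chk3 f_A00pm_102_s1 t 15 166 1 = true :=
  ⟨(a (a (a (b (c (b (l 16636160) (l 16634608)) (a (l 16631568) (l 16627664))) (c (l 16632176) (l 16625896))) (b (c (a (l 16630200) (l 16626904)) (a (l 16623928) (l 16620328))) (c (l 16625288) (l 16618336)))) (a (b (c (l 16622096) (a (l 16616832) (l 16613376))) (c (l 16618808) (l 16611272))) (b (c (l 16615544) (l 16608048)) (c (l 16612240) (l 16604176))))) (a (a (b (c (l 16608568) (l 16600608)) (c (l 16605256) (l 16596704))) (b (c (l 16601096) (l 16592696)) (c (l 16597800) (l 16588784)))) (a (b (c (l 16593072) (l 16584240)) (c (l 16589808) (l 16580352))) (b (c (l 16584416) (a (l 16577504) (l 16572792))) (c (l 16581216) (a (l 16573640) (l 16568952))))))), by decide +kernel⟩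

def k310_A00pm_102_s1 : ∃ t, chk3 f_A00pm_102_s1 t 15 167 1 = true :=
  ⟨(a (a (b (a (b (l 16626312) (b (l 16624792) (l 16623624))) (b (l 16619072) (b (l 16617528) (l 16616352)))) (a (c (b (b (b (l 16626280) (b (l 16625704) (a (l 16627024) (l 16623432)))) (l 16624704)) (l 16623864)) (b (b (b (l 16618800) (b (l 16618040) (a (l 16619384) (l 16615432)))) (b (l 16616936) (l 16616648))) (l 16615920))) (b (b (b (l 16615336) (b (l 16614632) (a (l 16615832) (l 16612280)))) (a (l 16615280) (l 16611720))) (l 16612640)))) (a (b (b (l 16612272) (b (l 16610696) (l 16609504))) (b (b (b (l 16608448) (b (l 16607728) (l 16607136))) (l 16606576)) (l 16605704))) (b (b (l 16605424) (b (l 16603832) (l 16602616))) (b (b (b (l 16601552) (l 16600528)) (l 16599656)) (l 16598776))))) (b (a (a (b (l 16598192) (b (l 16596592) (l 16595368))) (b (l 16590512) (b (l 16588912) (l 16587688)))) (a (b (l 16582328) (b (l 16580736) (l 16579512))) (b (l 16573552) (b (l 16571984) (l 16570776))))) (a (b (b (b (a (l 16594288) (l 16586608))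 (a (l 16593256) (l 16585576))) (b (l 16588704) (l 16588416))) (l 16587672)) (a (b (b (b (l 16578440) (l 16619352)) (l 16576528)) (l 16575632)) (b (b (b (l 16569712) (l 16589656)) (l 16567816)) (l 16566928)))))), by decide +kernel⟩

def k311_A00pm_102_s1 : ∃ t, chk3 f_A00pm_102_s1 t 15 21 1 = true :=
  ⟨(a (a (b (a (c (b (c (l 16620728) (l 16616832)) (l 16609824)) (b (b (a (l 16615008) (l 16611080)) (l 16608400)) (b (l 16603784) (l 16599192)))) (b (c (l 16611840) (b (l 16605360) (l 16600792))) (c (l 16603008) (l 16594032)))) (b (a (c (l 16600888) (l 16592336)) (c (l 16594200) (l 16585040))) (a (c (l 16592000) (l 16583256)) (l 16622808)))) (b (b (a (c (l 16605192) (l 16616784)) (c (l 16598392) (l 16588456))) (a (c (l 16596328) (l 16586760)) (l 16584552))) (b (a (l 16582920) (l 16575800)) (a (l 16574216) (l 16567280))))) (b (b (a (a (l 16628136) (l 16620408)) (a (l 16612224) (c (l 16567272) (l 16555600)))) (a (a (l 16577024) (l 16569200)) (a (l 16560968) (l 16552256)))) (a (b (a (l 16568256) (l 16560256))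 (a (l 16559720) (l 16551712))) (a (b (l 16551936) (l 16543224)) (b (l 16543184) (l 16534400)))))), by decide +kernel⟩

def k312_A00pm_102_s1 : ∃ t, chk3 f_A00pm_102_s1 t 14 11 1 = true :=
  ⟨(a (b (a (a (b (b (c (l 16644952) (l 16642088)) (l 16635384)) (b (l 16627504) (l 16619736))) (b (b (c (l 16638112) (l 16634656)) (l 16670040)) (b (l 16620072) (l 16612344)))) (b (a (b (c (l 16630664) (l 16626536)) (c (l 16622280) (l 16617936))) (b (c (l 16622720) (l 16617824)) (c (l 16614184) (l 16609072)))) (b (a (l 16611992) (l 16645296)) (c (l 16644152) (l 16597144))))) (b (a (c (a (l 16609352) (l 16644512)) (b (l 16606408) (l 16598792))) (a (b (l 16596528) (l 16589048)) (b (l 16587624) (l 16580184)))) (a (c (l 16632232) (c (l 16588184) (b (l 16589848) (l 16582032)))) (b (a (l 16581616) (l 16572848)) (c (l 16572216) (c (l 16568568) (l 16565472))))))) (a (a (b (b (b (c (l 16635352) (l 16608656)) (c (l 16605688) (l 16599752))) (b (c (l 16597312) (l 16591168)) (c (l 16589232) (l 16582896)))) (c (b (b (l 16581432)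 (l 16573896)) (c (l 16564456) (l 16561464))) (b (l 16571088) (c (l 16558120) (l 16554416))))) (b (b (b (c (c (l 16607376) (l 16604160)) (l 16599152)) (c (l 16617880) (l 16590096))) (b (c (l 16588384) (l 16581376)) (c (l 16580160) (l 16572968)))) (c (b (c (l 16612080) (l 16566608)) (c (l 16555424) (l 16551880))) (b (l 16560952) (c (l 16548048) (l 16543920)))))) (b (b (b (a (c (b (l 16599744) (l 16595224)) (l 16589976)) (c (l 16590024) (l 16581768))) (c (a (l 16588552) (l 16581128)) (a (l 16580896) (l 16572712)))) (b (c (a (l 16579856) (l 16572392)) (a (l 16572032) (l 16563832))) (c (a (l 16571496) (l 16563872)) (l 16601120)))) (a (c (b (c (l 16603440) (l 16557528)) (c (l 16546568) (l 16542520))) (b (l 16551272) (l 16536024))) (c (b (c (l 16553856) (l 16549528)) (c (l 16538728) (l 16534288))) (b (l 16542768) (l 16527280))))))), by decide +kernel⟩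

def k313_A00pm_102_s1 : ∃ t, chk3 f_A00pm_102_s1 t 15 11 1 = true :=
  ⟨(a (b (a (b (a (c (b (l 16583168) (l 16574408)) (b (l 16574256) (l 16565344))) (c (l 16614344) (l 16562864))) (b (a (c (l 16565688) (l 16556504)) (l 16554712)) (c (a (l 16557144) (l 16550960)) (l 16544400)))) (b (a (b (l 16565568) (l 16556984)) (b (l 16558784) (l 16550344))) (b (a (l 16548464) (l 16541960)) (a (l 16540016) (l 16533640))))) (c (a (b (a (c (l 16547056) (l 16542432)) (c (l 16540944) (l 16536088))) (c (a (l 16531704) (l 16525304)) (l 16565488))) (a (b (l 16532608) (l 16516720)) (b (l 16526480) (l 16510624)))) (b (a (b (l 16535960) (l 16527712)) (b (l 16523168) (l 16514992))) (a (b (l 16519808) (l 16512192)) (b (l 16506976) (l 16499136)))))) (b (b (a (a (c (l 16552520) (l 16541808)) (b (l 16543392) (l 16535296))) (a (b (l 16534904) (l 16526816)) (b (l 16525928) (l 16517840)))) (a (b (a (l 16534888) (l 16527224)) (a (l 16526712) (l 16519200))) (b (a (l 16518936) (l 16509976)) (a (l 16511088) (l 16502320))))) (a (c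 (b (a (l 16519912) (l 16512656)) (a (l 16504048) (l 16496952))) (b (a (l 16509160) (l 16501848)) (b (l 16493640) (l 16485904)))) (a (b (c (l 16504760) (l 16494008)) (c (l 16489384) (l 16478760))) (b (c (l 16496200) (l 16485592)) (l 6)))))), by decide +kernel⟩

def k314_A00pm_102_s1 : ∃ t, chk3 f_A00pm_102_s1 t 12 6 1 = true :=
  ⟨(b (c (a (b (b (c (a (a (l 16672536) (l 16647032)) (a (c (l 16642352) (l 16642808)) (b (l 16641384) (l 16634992)))) (a (b (l 16652080) (l 16646224)) (a (l 16643104) (l 16639224)))) (b (a (a (l 2) (l 16638608)) (a (l 16633992) (l 16629496))) (a (l 2) (c (l 16626144) (l 16626288))))) (b (a (l 2) (c (l 7079731639) (l 16618504))) (l 2))) (b (b (b (a (c (l 16634880) (l 16636960)) (l 16627232)) (a (a (l 16631400) (l 16627176)) (c (l 16618080) (l 16621528)))) (a (c (a (c (l 16620864) (l 16621792)) (l 16616440)) (l 16662544)) (c (a (l 16611120) (l 16605128)) (l 16611344)))) (b (a (a (l 16611320) (l 16606376)) (c (l 16596920) (l 16599008))) (a (l 39291946647) (l 16629416))))) (a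 (b (b (a (c (l 16648512) (l 16647360)) (c (l 16641016) (l 16640008))) (a (c (l 16637024) (l 16635560)) (c (l 16628648) (l 16627424)))) (a (l 2) (b (l 16616600) (l 2)))) (b (a (b (a (l 16635584) (l 16632400)) (l 16662664)) (b (c (l 16626664) (l 16626528)) (c (l 16612752) (l 16612512)))) (a (c (l 16687056) (l 16601616)) (b (l 16599512) (l 16587320)))))) (a (l 2) (b (a (l 2) (c (b (l 16578016) (l 2)) (l 16571336))) (l 2)))), by decide +kernel⟩

def k315_A00pm_102_s1 : ∃ t, chk3 f_A00pm_102_s1 t 13 6 1 = true :=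
  ⟨(b (c (c (a (b (a (b (l 16610000) (l 16584784)) (b (l 16609576) (a (l 16584816) (l 16579624)))) (a (b (c (l 16581816) (l 16584072)) (l 16571896)) (b (l 16568128) (c (l 16596064) (l 16556552))))) (b (b (a (l 16592088) (l 16584064)) (a (l 16574752) (l 16588168))) (a (l 16551208) (c (l 16626680) (l 16544176))))) (b (a (a (b (l 16614472) (l 16599872)) (a (l 16597992) (l 16592928))) (b (b (l 16636152) (l 16669808)) (c (l 16657072) (l 16657936)))) (a (a (l 16664264) (a (l 16569488) (l 16562456))) (b (l 16641816) (l 16626656))))) (a (b (b (a (c (l 16616864) (a (l 16619784) (l 16614632))) (c (a (l 16608488) (l 16603448)) (a (c (l 16609160) (l 16608976)) (l 16603712)))) (b (c (a (l 16605952) (l 16594320)) (a (l 16606440) (a (l 16597904) (l 16592176)))) (a (l 16599216) (a (l 16590216) (l 16584288))))) (a (c (l 16665696) (b (l 16588432) (l 16575112))) (a (b (l 16579280) (l 16565432)) (b (a (l 16574320) (l 16571352)) (l 16558448))))) (c (b (a (b (l 16595856) (l 16579960)) (b (l 16584872) (l 16569040))) (a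 (b (l 16564368) (l 16549328)) (b (l 16553536) (l 16538504)))) (a (b (b (a (l 16598192) (l 16592456)) (b (a (l 16586568) (l 16580752)) (l 16575880))) (b (c (l 16564536) (l 16564080)) (l 16549464))) (b (c (b (l 16583904) (b (l 16572104) (l 16564320))) (b (b (l 16586864) (l 16578928)) (b (a (l 16574232) (l 16567912)) (l 16563320)))) (b (a (l 16555464) (l 16549280)) (l 16537504))))))) (b (b (a (a (c (l 16562880) (l 16563504)) (c (l 16545744) (l 16548840))) (b (a (a (l 16540280) (l 6)) (l 6)) (l 6))) (l 6)) (l 6))), by decide +kernel⟩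

def k316_A00pm_102_s1 : ∃ t, chk3 f_A00pm_102_s1 t 6 7 1 = true :=
  ⟨(l 6), by decide +kernel⟩

def k317_A00pm_102_s1 : ∃ t, chk3 f_A00pm_102_s1 t 28 12 1 = true :=
  ⟨(c (b (a (c (b (l 16574392) (l 16558152)) (b (l 16573936) (l 16558176))) (b (l 16602792) (a (l 16549088) (l 16541864)))) (a (c (l 16618616) (l 16535088)) (a (l 16568192) (l 16561296)))) (c (b (a (a (b (l 16575888) (l 16560264)) (b (l 16569192) (l 16553744))) (a (b (l 16561528) (l 16546336)) (b (l 16553016) (l 16538152)))) (a (b (l 16541696) (l 16526760)) (b (a (l 16531240) (l 16523256)) (l 6)))) (b (a (c (b (a (l 16574424) (l 16567408)) (a (l 16558856) (b (l 16555816) (l 16548128)))) (b (a (b (l 16577112) (l 16569224)) (b (l 16569832) (l 16562064))) (a (b (c (l 16561768) (l 16561032)) (l 16553648)) (b (a (l 16556176) (l 16552400)) (l 16546608))))) (c (b (b (l 16558800) (l 16551280)) (a (b (l 16548000) (l 16540408)) (b (l 16539344) (l 16531904)))) (b (b (a (l 16561560) (l 16552416)) (a (l 16553920) (l 16544928))) (b (a (b (l 16548192)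 (l 16544392)) (b (l 16539296) (l 16535560))) (a (l 16538680) (c (l 16530472) (l 16529456))))))) (b (a (c (l 16540144) (a (l 16542224) (l 16535200))) (a (b (l 16532008) (l 16524504)) (c (l 16520728) (b (l 16522488) (l 16515048))))) (a (a (l 16528072) (l 16521184)) (l 6)))))), by decide +kernel⟩

def k318_A00pm_102_s1 : ∃ t, chk3 f_A00pm_102_s1 t 29 12 1 = true :=
  ⟨(c (b (b (a (c (a (l 16549920) (l 16541136)) (l 16584096)) (c (a (l 16532528) (l 16524672)) (l 16524232))) (a (a (l 16533888) (l 16525296)) (a (l 16558704) (a (l 16510848) (l 16507040))))) (a (b (l 16514912) (l 6)) (l 6))) (b (c (a (a (b (l 16543768) (l 16529232)) (b (l 16533792) (l 16519736))) (b (a (l 16524160) (l 16515456)) (b (l 16530312) (l 16502608)))) (b (a (b (a (l 16543552) (l 16533112)) (a (l 16536256) (l 16526040))) (b (l 16534064) (a (l 16515984) (l 16506952)))) (a (b (b (a (l 16530768) (l 16520680)) (c (l 16523088) (a (l 16526024) (l 16515920)))) (c (a (l 16522688) (l 16512912)) (a (l 16520544) (l 16510560)))) (b (a (b (l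 16510800) (l 16507312)) (a (l 16502304) (l 16498040))) (a (l 16502088) (l 16493360)))))) (b (a (b (c (l 16513536) (c (a (l 16515384) (l 16505752)) (a (l 16513216) (l 16503376)))) (l 6)) (l 6)) (l 6)))), by decide +kernel⟩

def k319_A00pm_102_s1 : ∃ t, chk3 f_A00pm_102_s1 t 14 13 1 = true :=
  ⟨(l 6), by decide +kernel⟩

def k320_A00pm_102_s1 : ∃ t, chk3 f_A00pm_102_s1 t 15 6 1 = true :=
  ⟨(b (b (a (a (a (c (b (l 16556992) (c (l 16504080) (l 16499216))) (b (c (l 16507560) (l 16502344)) (b (b (l 16496424) (l 16493080)) (l 6)))) (b (b (l 16506688) (a (l 16501352) (l 16497992))) (l 6))) (b (a (b (l 16500272) (a (l 16494752) (l 6))) (b (l 16493864) (l 6))) (l 6))) (l 6)) (l 6)) (l 6)), by decide +kernel⟩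

def k321_A00pm_102_s1 : ∃ t, chk3 f_A00pm_102_s1 t 7 7 1 = true :=
  ⟨(l 6), by decide +kernel⟩

theorem t322_A00pm_102_s1 : ∃ t, chk3 f_A00pm_102_s1 t 14 12 1 = true := ex3_a k317_A00pm_102_s1 k318_A00pm_102_s1

theorem t323_A00pm_102_s1 : ∃ t, chk3 f_A00pm_102_s1 t 14 6 1 = true := ex3_b t322_A00pm_102_s1 k319_A00pm_102_s1

theorem t324_A00pm_102_s1 : ∃ t, chk3 f_A00pm_102_s1 t 7 6 1 = true := ex3_a t323_A00pm_102_s1 k320_A00pm_102_s1

theorem t325_A00pm_102_s1 : ∃ t, chk3 f_A00pm_102_s1 t 7 3 1 = true := ex3_b t324_A00pm_102_s1 k321_A00pm_102_s1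

theorem t326_A00pm_102_s1 : ∃ t, chk3 f_A00pm_102_s1 t 6 6 1 = true := ex3_a k314_A00pm_102_s1 k315_A00pm_102_s1

theorem t327_A00pm_102_s1 : ∃ t, chk3 f_A00pm_102_s1 t 6 3 1 = true := ex3_b t326_A00pm_102_s1 k316_A00pm_102_s1

theorem t328_A00pm_102_s1 : ∃ t, chk3 f_A00pm_102_s1 t 3 3 1 = true := ex3_a t327_A00pm_102_s1 t325_A00pm_102_s1

theorem t329_A00pm_102_s1 : ∃ t, chk3 f_A00pm_102_s1 t 7 11 1 = true := ex3_a k312_A00pm_102_s1 k313_A00pm_102_s1

theorem t330_A00pm_102_s1 : ∃ t, chk3 f_A00pm_102_s1 t 15 83 1 = true := ex3_b k309_A00pm_102_s1 k310_A00pm_102_s1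

theorem t331_A00pm_102_s1 : ∃ t, chk3 f_A00pm_102_s1 t 15 82 1 = true := ex3_a k307_A00pm_102_s1 k308_A00pm_102_s1

theorem t332_A00pm_102_s1 : ∃ t, chk3 f_A00pm_102_s1 t 15 41 1 = true := ex3_b t331_A00pm_102_s1 t330_A00pm_102_s1

theorem t333_A00pm_102_s1 : ∃ t, chk3 f_A00pm_102_s1 t 31 40 1 = true := ex3_a k305_A00pm_102_s1 k306_A00pm_102_s1

theorem t334_A00pm_102_s1 : ∃ t, chk3 f_A00pm_102_s1 t 30 40 1 = true := ex3_b k303_A00pm_102_s1 k304_A00pm_102_s1

theorem t335_A00pm_102_s1 : ∃ t, chk3 f_A00pm_102_s1 t 15 40 1 = true := ex3_a t334_A00pm_102_s1 t333_A00pm_102_s1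

theorem t336_A00pm_102_s1 : ∃ t, chk3 f_A00pm_102_s1 t 15 20 1 = true := ex3_b t335_A00pm_102_s1 t332_A00pm_102_s1

theorem t337_A00pm_102_s1 : ∃ t, chk3 f_A00pm_102_s1 t 15 10 1 = true := ex3_b t336_A00pm_102_s1 k311_A00pm_102_s1

theorem t338_A00pm_102_s1 : ∃ t, chk3 f_A00pm_102_s1 t 14 21 1 = true := ex3_a k301_A00pm_102_s1 k302_A00pm_102_s1

theorem t339_A00pm_102_s1 : ∃ t, chk3 f_A00pm_102_s1 t 29 167 1 = true := ex3_b k299_A00pm_102_s1 k300_A00pm_102_s1

theorem t340_A00pm_102_s1 : ∃ t, chk3 f_A00pm_102_s1 t 29 83 1 = true := ex3_b k298_A00pm_102_s1 t339_A00pm_102_s1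

theorem t341_A00pm_102_s1 : ∃ t, chk3 f_A00pm_102_s1 t 28 167 1 = true := ex3_b k296_A00pm_102_s1 k297_A00pm_102_s1

theorem t342_A00pm_102_s1 : ∃ t, chk3 f_A00pm_102_s1 t 28 83 1 = true := ex3_b k295_A00pm_102_s1 t341_A00pm_102_s1

theorem t343_A00pm_102_s1 : ∃ t, chk3 f_A00pm_102_s1 t 14 83 1 = true := ex3_a t342_A00pm_102_s1 t340_A00pm_102_s1

theorem t344_A00pm_102_s1 : ∃ t, chk3 f_A00pm_102_s1 t 29 82 1 = true := ex3_a k293_A00pm_102_s1 k294_A00pm_102_s1

theorem t345_A00pm_102_s1 : ∃ t, chk3 f_A00pm_102_s1 t 28 82 1 = true := ex3_a k291_A00pm_102_s1 k292_A00pm_102_s1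

theorem t346_A00pm_102_s1 : ∃ t, chk3 f_A00pm_102_s1 t 14 82 1 = true := ex3_a t345_A00pm_102_s1 t344_A00pm_102_s1

theorem t347_A00pm_102_s1 : ∃ t, chk3 f_A00pm_102_s1 t 14 41 1 = true := ex3_b t346_A00pm_102_s1 t343_A00pm_102_s1

theorem t348_A00pm_102_s1 : ∃ t, chk3 f_A00pm_102_s1 t 29 81 1 = true := ex3_a k289_A00pm_102_s1 k290_A00pm_102_s1

theorem t349_A00pm_102_s1 : ∃ t, chk3 f_A00pm_102_s1 t 29 40 1 = true := ex3_b k288_A00pm_102_s1 t348_A00pm_102_s1

theorem t350_A00pm_102_s1 : ∃ t, chk3 f_A00pm_102_s1 t 57 40 1 = true := ex3_b k286_A00pm_102_s1 k287_A00pm_102_s1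

theorem t351_A00pm_102_s1 : ∃ t, chk3 f_A00pm_102_s1 t 56 163 1 = true := ex3_a k284_A00pm_102_s1 k285_A00pm_102_s1

theorem t352_A00pm_102_s1 : ∃ t, chk3 f_A00pm_102_s1 t 56 81 1 = true := ex3_b k283_A00pm_102_s1 t351_A00pm_102_s1

theorem t353_A00pm_102_s1 : ∃ t, chk3 f_A00pm_102_s1 t 56 40 1 = true := ex3_b k282_A00pm_102_s1 t352_A00pm_102_s1

theorem t354_A00pm_102_s1 : ∃ t, chk3 f_A00pm_102_s1 t 28 40 1 = true := ex3_a t353_A00pm_102_s1 t350_A00pm_102_s1

theorem t355_A00pm_102_s1 : ∃ t, chk3 f_A00pm_102_s1 t 14 40 1 = true := ex3_a t354_A00pm_102_s1 t349_A00pm_102_s1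

theorem t356_A00pm_102_s1 : ∃ t, chk3 f_A00pm_102_s1 t 14 20 1 = true := ex3_b t355_A00pm_102_s1 t347_A00pm_102_s1

theorem t357_A00pm_102_s1 : ∃ t, chk3 f_A00pm_102_s1 t 14 10 1 = true := ex3_b t356_A00pm_102_s1 t338_A00pm_102_s1

theorem t358_A00pm_102_s1 : ∃ t, chk3 f_A00pm_102_s1 t 7 10 1 = true := ex3_a t357_A00pm_102_s1 t337_A00pm_102_s1

theorem t359_A00pm_102_s1 : ∃ t, chk3 f_A00pm_102_s1 t 7 5 1 = true := ex3_b t358_A00pm_102_s1 t329_A00pm_102_s1

theorem t360_A00pm_102_s1 : ∃ t, chk3 f_A00pm_102_s1 t 6 11 1 = true := ex3_a k280_A00pm_102_s1 k281_A00pm_102_s1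

theorem t361_A00pm_102_s1 : ∃ t, chk3 f_A00pm_102_s1 t 13 21 1 = true := ex3_a k278_A00pm_102_s1 k279_A00pm_102_s1

theorem t362_A00pm_102_s1 : ∃ t, chk3 f_A00pm_102_s1 t 6 21 1 = true := ex3_a k277_A00pm_102_s1 t361_A00pm_102_s1

theorem t363_A00pm_102_s1 : ∃ t, chk3 f_A00pm_102_s1 t 27 335 1 = true := ex3_b k275_A00pm_102_s1 k276_A00pm_102_s1

theorem t364_A00pm_102_s1 : ∃ t, chk3 f_A00pm_102_s1 t 27 167 1 = true := ex3_b k274_A00pm_102_s1 t363_A00pm_102_s1

theorem t365_A00pm_102_s1 : ∃ t, chk3 f_A00pm_102_s1 t 26 670 1 = true := ex3_b k271_A00pm_102_s1 k272_A00pm_102_s1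

theorem t366_A00pm_102_s1 : ∃ t, chk3 f_A00pm_102_s1 t 26 335 1 = true := ex3_b t365_A00pm_102_s1 k273_A00pm_102_s1

theorem t367_A00pm_102_s1 : ∃ t, chk3 f_A00pm_102_s1 t 26 334 1 = true := ex3_b k269_A00pm_102_s1 k270_A00pm_102_s1

theorem t368_A00pm_102_s1 : ∃ t, chk3 f_A00pm_102_s1 t 26 167 1 = true := ex3_b t367_A00pm_102_s1 t366_A00pm_102_s1

theorem t369_A00pm_102_s1 : ∃ t, chk3 f_A00pm_102_s1 t 13 167 1 = true := ex3_a t368_A00pm_102_s1 t364_A00pm_102_s1

theorem t370_A00pm_102_s1 : ∃ t, chk3 f_A00pm_102_s1 t 25 334 1 = true := ex3_b k266_A00pm_102_s1 k267_A00pm_102_s1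

theorem t371_A00pm_102_s1 : ∃ t, chk3 f_A00pm_102_s1 t 25 167 1 = true := ex3_b t370_A00pm_102_s1 k268_A00pm_102_s1

theorem t372_A00pm_102_s1 : ∃ t, chk3 f_A00pm_102_s1 t 24 670 1 = true := ex3_b k263_A00pm_102_s1 k264_A00pm_102_s1

theorem t373_A00pm_102_s1 : ∃ t, chk3 f_A00pm_102_s1 t 24 335 1 = true := ex3_b t372_A00pm_102_s1 k265_A00pm_102_s1

theorem t374_A00pm_102_s1 : ∃ t, chk3 f_A00pm_102_s1 t 24 167 1 = true := ex3_b k262_A00pm_102_s1 t373_A00pm_102_s1

theorem t375_A00pm_102_s1 : ∃ t, chk3 f_A00pm_102_s1 t 12 167 1 = true := ex3_a t374_A00pm_102_s1 t371_A00pm_102_s1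

theorem t376_A00pm_102_s1 : ∃ t, chk3 f_A00pm_102_s1 t 6 167 1 = true := ex3_a t375_A00pm_102_s1 t369_A00pm_102_s1

theorem t377_A00pm_102_s1 : ∃ t, chk3 f_A00pm_102_s1 t 54 166 1 = true := ex3_b k259_A00pm_102_s1 k260_A00pm_102_s1

theorem t378_A00pm_102_s1 : ∃ t, chk3 f_A00pm_102_s1 t 27 166 1 = true := ex3_a t377_A00pm_102_s1 k261_A00pm_102_s1

theorem t379_A00pm_102_s1 : ∃ t, chk3 f_A00pm_102_s1 t 13 166 1 = true := ex3_a k258_A00pm_102_s1 t378_A00pm_102_s1

theorem t380_A00pm_102_s1 : ∃ t, chk3 f_A00pm_102_s1 t 12 166 1 = true := ex3_a k256_A00pm_102_s1 k257_A00pm_102_s1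

theorem t381_A00pm_102_s1 : ∃ t, chk3 f_A00pm_102_s1 t 6 166 1 = true := ex3_a t380_A00pm_102_s1 t379_A00pm_102_s1

theorem t382_A00pm_102_s1 : ∃ t, chk3 f_A00pm_102_s1 t 6 83 1 = true := ex3_b t381_A00pm_102_s1 t376_A00pm_102_s1

theorem t383_A00pm_102_s1 : ∃ t, chk3 f_A00pm_102_s1 t 55 165 1 = true := ex3_a k254_A00pm_102_s1 k255_A00pm_102_s1

theorem t384_A00pm_102_s1 : ∃ t, chk3 f_A00pm_102_s1 t 55 82 1 = true := ex3_b k253_A00pm_102_s1 t383_A00pm_102_s1

theorem t385_A00pm_102_s1 : ∃ t, chk3 f_A00pm_102_s1 t 27 82 1 = true := ex3_a k252_A00pm_102_s1 t384_A00pm_102_s1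

theorem t386_A00pm_102_s1 : ∃ t, chk3 f_A00pm_102_s1 t 13 82 1 = true := ex3_a k251_A00pm_102_s1 t385_A00pm_102_s1

theorem t387_A00pm_102_s1 : ∃ t, chk3 f_A00pm_102_s1 t 201 328 1 = true := ex3_b k245_A00pm_102_s1 k246_A00pm_102_s1

theorem t388_A00pm_102_s1 : ∃ t, chk3 f_A00pm_102_s1 t 100 328 1 = true := ex3_a k244_A00pm_102_s1 t387_A00pm_102_s1

theorem t389_A00pm_102_s1 : ∃ t, chk3 f_A00pm_102_s1 t 100 164 1 = true := ex3_b t388_A00pm_102_s1 k247_A00pm_102_s1

theorem t390_A00pm_102_s1 : ∃ t, chk3 f_A00pm_102_s1 t 50 164 1 = true := ex3_a t389_A00pm_102_s1 k248_A00pm_102_s1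

theorem t391_A00pm_102_s1 : ∃ t, chk3 f_A00pm_102_s1 t 25 164 1 = true := ex3_a t390_A00pm_102_s1 k249_A00pm_102_s1

theorem t392_A00pm_102_s1 : ∃ t, chk3 f_A00pm_102_s1 t 25 82 1 = true := ex3_b t391_A00pm_102_s1 k250_A00pm_102_s1

theorem t393_A00pm_102_s1 : ∃ t, chk3 f_A00pm_102_s1 t 98 165 1 = true := ex3_c k241_A00pm_102_s1 k242_A00pm_102_s1

theorem t394_A00pm_102_s1 : ∃ t, chk3 f_A00pm_102_s1 t 49 165 1 = true := ex3_a t393_A00pm_102_s1 k243_A00pm_102_s1

theorem t395_A00pm_102_s1 : ∃ t, chk3 f_A00pm_102_s1 t 48 165 1 = true := ex3_b k239_A00pm_102_s1 k240_A00pm_102_s1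

theorem t396_A00pm_102_s1 : ∃ t, chk3 f_A00pm_102_s1 t 24 165 1 = true := ex3_a t395_A00pm_102_s1 t394_A00pm_102_s1

theorem t397_A00pm_102_s1 : ∃ t, chk3 f_A00pm_102_s1 t 199 164 3 = true := ex3_a k237_A00pm_102_s1 k238_A00pm_102_s1

theorem t398_A00pm_102_s1 : ∃ t, chk3 f_A00pm_102_s1 t 199 164 1 = true := ex3_c k236_A00pm_102_s1 t397_A00pm_102_s1

theorem t399_A00pm_102_s1 : ∃ t, chk3 f_A00pm_102_s1 t 99 164 1 = true := ex3_a k235_A00pm_102_s1 t398_A00pm_102_s1

theorem t400_A00pm_102_s1 : ∃ t, chk3 f_A00pm_102_s1 t 49 164 1 = true := ex3_a k234_A00pm_102_s1 t399_A00pm_102_s1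

theorem t401_A00pm_102_s1 : ∃ t, chk3 f_A00pm_102_s1 t 24 164 1 = true := ex3_a k233_A00pm_102_s1 t400_A00pm_102_s1

theorem t402_A00pm_102_s1 : ∃ t, chk3 f_A00pm_102_s1 t 24 82 1 = true := ex3_b t401_A00pm_102_s1 t396_A00pm_102_s1

theorem t403_A00pm_102_s1 : ∃ t, chk3 f_A00pm_102_s1 t 12 82 1 = true := ex3_a t402_A00pm_102_s1 t392_A00pm_102_s1

theorem t404_A00pm_102_s1 : ∃ t, chk3 f_A00pm_102_s1 t 6 82 1 = true := ex3_a t403_A00pm_102_s1 t386_A00pm_102_s1

theorem t405_A00pm_102_s1 : ∃ t, chk3 f_A00pm_102_s1 t 6 41 1 = true := ex3_b t404_A00pm_102_s1 t382_A00pm_102_s1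

theorem t406_A00pm_102_s1 : ∃ t, chk3 f_A00pm_102_s1 t 26 80 1 = true := ex3_a k229_A00pm_102_s1 k230_A00pm_102_s1

theorem t407_A00pm_102_s1 : ∃ t, chk3 f_A00pm_102_s1 t 26 40 1 = true := ex3_b t406_A00pm_102_s1 k231_A00pm_102_s1

theorem t408_A00pm_102_s1 : ∃ t, chk3 f_A00pm_102_s1 t 13 40 1 = true := ex3_a t407_A00pm_102_s1 k232_A00pm_102_s1

theorem t409_A00pm_102_s1 : ∃ t, chk3 f_A00pm_102_s1 t 50 163 1 = true := ex3_b k226_A00pm_102_s1 k227_A00pm_102_s1

theorem t410_A00pm_102_s1 : ∃ t, chk3 f_A00pm_102_s1 t 25 163 1 = true := ex3_a t409_A00pm_102_s1 k228_A00pm_102_s1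

theorem t411_A00pm_102_s1 : ∃ t, chk3 f_A00pm_102_s1 t 12 163 1 = true := ex3_a k225_A00pm_102_s1 t410_A00pm_102_s1

theorem t412_A00pm_102_s1 : ∃ t, chk3 f_A00pm_102_s1 t 96 162 1 = true := ex3_b k220_A00pm_102_s1 k221_A00pm_102_s1

theorem t413_A00pm_102_s1 : ∃ t, chk3 f_A00pm_102_s1 t 48 162 1 = true := ex3_a t412_A00pm_102_s1 k222_A00pm_102_s1

theorem t414_A00pm_102_s1 : ∃ t, chk3 f_A00pm_102_s1 t 24 162 1 = true := ex3_a t413_A00pm_102_s1 k223_A00pm_102_s1

theorem t415_A00pm_102_s1 : ∃ t, chk3 f_A00pm_102_s1 t 12 162 1 = true := ex3_a t414_A00pm_102_s1 k224_A00pm_102_s1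

theorem t416_A00pm_102_s1 : ∃ t, chk3 f_A00pm_102_s1 t 12 81 1 = true := ex3_b t415_A00pm_102_s1 t411_A00pm_102_s1

theorem t417_A00pm_102_s1 : ∃ t, chk3 f_A00pm_102_s1 t 100 641 3 = true := ex3_b k214_A00pm_102_s1 k215_A00pm_102_s1

theorem t418_A00pm_102_s1 : ∃ t, chk3 f_A00pm_102_s1 t 100 641 1 = true := ex3_c k213_A00pm_102_s1 t417_A00pm_102_s1

theorem t419_A00pm_102_s1 : ∃ t, chk3 f_A00pm_102_s1 t 100 320 1 = true := ex3_b k212_A00pm_102_s1 t418_A00pm_102_s1

theorem t420_A00pm_102_s1 : ∃ t, chk3 f_A00pm_102_s1 t 50 320 1 = true := ex3_a t419_A00pm_102_s1 k216_A00pm_102_s1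

theorem t421_A00pm_102_s1 : ∃ t, chk3 f_A00pm_102_s1 t 50 160 1 = true := ex3_b t420_A00pm_102_s1 k217_A00pm_102_s1

theorem t422_A00pm_102_s1 : ∃ t, chk3 f_A00pm_102_s1 t 25 160 1 = true := ex3_a t421_A00pm_102_s1 k218_A00pm_102_s1

theorem t423_A00pm_102_s1 : ∃ t, chk3 f_A00pm_102_s1 t 25 80 1 = true := ex3_b t422_A00pm_102_s1 k219_A00pm_102_s1

theorem t424_A00pm_102_s1 : ∃ t, chk3 f_A00pm_102_s1 t 24 161 1 = true := ex3_a k210_A00pm_102_s1 k211_A00pm_102_s1

theorem t425_A00pm_102_s1 : ∃ t, chk3 f_A00pm_102_s1 t 24 80 1 = true := ex3_b k209_A00pm_102_s1 t424_A00pm_102_s1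

theorem t426_A00pm_102_s1 : ∃ t, chk3 f_A00pm_102_s1 t 12 80 1 = true := ex3_a t425_A00pm_102_s1 t423_A00pm_102_s1

theorem t427_A00pm_102_s1 : ∃ t, chk3 f_A00pm_102_s1 t 12 40 1 = true := ex3_b t426_A00pm_102_s1 t416_A00pm_102_s1

theorem t428_A00pm_102_s1 : ∃ t, chk3 f_A00pm_102_s1 t 6 40 1 = true := ex3_a t427_A00pm_102_s1 t408_A00pm_102_s1

theorem t429_A00pm_102_s1 : ∃ t, chk3 f_A00pm_102_s1 t 6 20 1 = true := ex3_b t428_A00pm_102_s1 t405_A00pm_102_s1

theorem t430_A00pm_102_s1 : ∃ t, chk3 f_A00pm_102_s1 t 6 10 1 = true := ex3_b t429_A00pm_102_s1 t362_A00pm_102_s1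

theorem t431_A00pm_102_s1 : ∃ t, chk3 f_A00pm_102_s1 t 6 5 1 = true := ex3_b t430_A00pm_102_s1 t360_A00pm_102_s1

theorem t432_A00pm_102_s1 : ∃ t, chk3 f_A00pm_102_s1 t 3 5 1 = true := ex3_a t431_A00pm_102_s1 t359_A00pm_102_s1

theorem t433_A00pm_102_s1 : ∃ t, chk3 f_A00pm_102_s1 t 15 19 1 = true := ex3_a k207_A00pm_102_s1 k208_A00pm_102_s1

theorem t434_A00pm_102_s1 : ∃ t, chk3 f_A00pm_102_s1 t 60 144 1 = true := ex3_a k200_A00pm_102_s1 k201_A00pm_102_s1

theorem t435_A00pm_102_s1 : ∃ t, chk3 f_A00pm_102_s1 t 60 72 1 = true := ex3_b t434_A00pm_102_s1 k202_A00pm_102_s1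

theorem t436_A00pm_102_s1 : ∃ t, chk3 f_A00pm_102_s1 t 60 36 1 = true := ex3_b t435_A00pm_102_s1 k203_A00pm_102_s1

theorem t437_A00pm_102_s1 : ∃ t, chk3 f_A00pm_102_s1 t 30 36 1 = true := ex3_a t436_A00pm_102_s1 k204_A00pm_102_s1

theorem t438_A00pm_102_s1 : ∃ t, chk3 f_A00pm_102_s1 t 30 18 1 = true := ex3_b t437_A00pm_102_s1 k205_A00pm_102_s1

theorem t439_A00pm_102_s1 : ∃ t, chk3 f_A00pm_102_s1 t 15 18 1 = true := ex3_a t438_A00pm_102_s1 k206_A00pm_102_s1

theorem t440_A00pm_102_s1 : ∃ t, chk3 f_A00pm_102_s1 t 15 9 1 = true := ex3_b t439_A00pm_102_s1 t433_A00pm_102_s1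

theorem t441_A00pm_102_s1 : ∃ t, chk3 f_A00pm_102_s1 t 59 38 1 = true := ex3_a k197_A00pm_102_s1 k198_A00pm_102_s1

theorem t442_A00pm_102_s1 : ∃ t, chk3 f_A00pm_102_s1 t 29 38 1 = true := ex3_a k196_A00pm_102_s1 t441_A00pm_102_s1

theorem t443_A00pm_102_s1 : ∃ t, chk3 f_A00pm_102_s1 t 29 19 1 = true := ex3_b t442_A00pm_102_s1 k199_A00pm_102_s1

theorem t444_A00pm_102_s1 : ∃ t, chk3 f_A00pm_102_s1 t 229 304 1 = true := ex3_a k189_A00pm_102_s1 k190_A00pm_102_s1

theorem t445_A00pm_102_s1 : ∃ t, chk3 f_A00pm_102_s1 t 229 152 1 = true := ex3_b t444_A00pm_102_s1 k191_A00pm_102_s1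

theorem t446_A00pm_102_s1 : ∃ t, chk3 f_A00pm_102_s1 t 228 305 1 = true := ex3_a k187_A00pm_102_s1 k188_A00pm_102_s1

theorem t447_A00pm_102_s1 : ∃ t, chk3 f_A00pm_102_s1 t 228 152 1 = true := ex3_b k186_A00pm_102_s1 t446_A00pm_102_s1

theorem t448_A00pm_102_s1 : ∃ t, chk3 f_A00pm_102_s1 t 114 152 1 = true := ex3_a t447_A00pm_102_s1 t445_A00pm_102_s1

theorem t449_A00pm_102_s1 : ∃ t, chk3 f_A00pm_102_s1 t 114 76 1 = true := ex3_b t448_A00pm_102_s1 k192_A00pm_102_s1

theorem t450_A00pm_102_s1 : ∃ t, chk3 f_A00pm_102_s1 t 57 76 1 = true := ex3_a t449_A00pm_102_s1 k193_A00pm_102_s1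

theorem t451_A00pm_102_s1 : ∃ t, chk3 f_A00pm_102_s1 t 57 38 1 = true := ex3_b t450_A00pm_102_s1 k194_A00pm_102_s1

theorem t452_A00pm_102_s1 : ∃ t, chk3 f_A00pm_102_s1 t 112 154 1 = true := ex3_a k182_A00pm_102_s1 k183_A00pm_102_s1

theorem t453_A00pm_102_s1 : ∃ t, chk3 f_A00pm_102_s1 t 112 77 1 = true := ex3_b t452_A00pm_102_s1 k184_A00pm_102_s1

theorem t454_A00pm_102_s1 : ∃ t, chk3 f_A00pm_102_s1 t 56 77 1 = true := ex3_a t453_A00pm_102_s1 k185_A00pm_102_s1

theorem t455_A00pm_102_s1 : ∃ t, chk3 f_A00pm_102_s1 t 227 306 1 = true := ex3_a k179_A00pm_102_s1 k180_A00pm_102_s1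

theorem t456_A00pm_102_s1 : ∃ t, chk3 f_A00pm_102_s1 t 227 153 1 = true := ex3_b t455_A00pm_102_s1 k181_A00pm_102_s1

theorem t457_A00pm_102_s1 : ∃ t, chk3 f_A00pm_102_s1 t 113 153 1 = true := ex3_a k178_A00pm_102_s1 t456_A00pm_102_s1

theorem t458_A00pm_102_s1 : ∃ t, chk3 f_A00pm_102_s1 t 113 76 1 = true := ex3_b k177_A00pm_102_s1 t457_A00pm_102_s1

theorem t459_A00pm_102_s1 : ∃ t, chk3 f_A00pm_102_s1 t 56 76 1 = true := ex3_a k176_A00pm_102_s1 t458_A00pm_102_s1

theorem t460_A00pm_102_s1 : ∃ t, chk3 f_A00pm_102_s1 t 56 38 1 = true := ex3_b t459_A00pm_102_s1 t454_A00pm_102_s1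

theorem t461_A00pm_102_s1 : ∃ t, chk3 f_A00pm_102_s1 t 28 38 1 = true := ex3_a t460_A00pm_102_s1 t451_A00pm_102_s1

theorem t462_A00pm_102_s1 : ∃ t, chk3 f_A00pm_102_s1 t 28 19 1 = true := ex3_b t461_A00pm_102_s1 k195_A00pm_102_s1

theorem t463_A00pm_102_s1 : ∃ t, chk3 f_A00pm_102_s1 t 14 19 1 = true := ex3_a t462_A00pm_102_s1 t443_A00pm_102_s1

theorem t464_A00pm_102_s1 : ∃ t, chk3 f_A00pm_102_s1 t 58 37 1 = true := ex3_b k173_A00pm_102_s1 k174_A00pm_102_s1

theorem t465_A00pm_102_s1 : ∃ t, chk3 f_A00pm_102_s1 t 29 37 1 = true := ex3_a t464_A00pm_102_s1 k175_A00pm_102_s1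

theorem t466_A00pm_102_s1 : ∃ t, chk3 f_A00pm_102_s1 t 59 72 1 = true := ex3_a k170_A00pm_102_s1 k171_A00pm_102_s1

theorem t467_A00pm_102_s1 : ∃ t, chk3 f_A00pm_102_s1 t 59 36 1 = true := ex3_b t466_A00pm_102_s1 k172_A00pm_102_s1

theorem t468_A00pm_102_s1 : ∃ t, chk3 f_A00pm_102_s1 t 29 36 1 = true := ex3_a k169_A00pm_102_s1 t467_A00pm_102_s1

theorem t469_A00pm_102_s1 : ∃ t, chk3 f_A00pm_102_s1 t 29 18 1 = true := ex3_b t468_A00pm_102_s1 t465_A00pm_102_s1

theorem t470_A00pm_102_s1 : ∃ t, chk3 f_A00pm_102_s1 t 115 151 1 = true := ex3_a k167_A00pm_102_s1 k168_A00pm_102_s1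

theorem t471_A00pm_102_s1 : ∃ t, chk3 f_A00pm_102_s1 t 115 75 1 = true := ex3_b k166_A00pm_102_s1 t470_A00pm_102_s1

theorem t472_A00pm_102_s1 : ∃ t, chk3 f_A00pm_102_s1 t 114 75 1 = true := ex3_b k164_A00pm_102_s1 k165_A00pm_102_s1

theorem t473_A00pm_102_s1 : ∃ t, chk3 f_A00pm_102_s1 t 57 75 1 = true := ex3_a t472_A00pm_102_s1 t471_A00pm_102_s1

theorem t474_A00pm_102_s1 : ∃ t, chk3 f_A00pm_102_s1 t 57 37 1 = true := ex3_b k163_A00pm_102_s1 t473_A00pm_102_s1

theorem t475_A00pm_102_s1 : ∃ t, chk3 f_A00pm_102_s1 t 56 75 1 = true := ex3_b k161_A00pm_102_s1 k162_A00pm_102_s1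

theorem t476_A00pm_102_s1 : ∃ t, chk3 f_A00pm_102_s1 t 56 37 1 = true := ex3_b k160_A00pm_102_s1 t475_A00pm_102_s1

theorem t477_A00pm_102_s1 : ∃ t, chk3 f_A00pm_102_s1 t 28 37 1 = true := ex3_a t476_A00pm_102_s1 t474_A00pm_102_s1

theorem t478_A00pm_102_s1 : ∃ t, chk3 f_A00pm_102_s1 t 28 18 1 = true := ex3_b k159_A00pm_102_s1 t477_A00pm_102_s1

theorem t479_A00pm_102_s1 : ∃ t, chk3 f_A00pm_102_s1 t 14 18 1 = true := ex3_a t478_A00pm_102_s1 t469_A00pm_102_s1

theorem t480_A00pm_102_s1 : ∃ t, chk3 f_A00pm_102_s1 t 14 9 1 = true := ex3_b t479_A00pm_102_s1 t463_A00pm_102_s1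

theorem t481_A00pm_102_s1 : ∃ t, chk3 f_A00pm_102_s1 t 7 9 1 = true := ex3_a t480_A00pm_102_s1 t440_A00pm_102_s1

theorem t482_A00pm_102_s1 : ∃ t, chk3 f_A00pm_102_s1 t 248 136 1 = true := ex3_a k151_A00pm_102_s1 k152_A00pm_102_s1

theorem t483_A00pm_102_s1 : ∃ t, chk3 f_A00pm_102_s1 t 124 136 1 = true := ex3_a t482_A00pm_102_s1 k153_A00pm_102_s1

theorem t484_A00pm_102_s1 : ∃ t, chk3 f_A00pm_102_s1 t 124 68 1 = true := ex3_b t483_A00pm_102_s1 k154_A00pm_102_s1

theorem t485_A00pm_102_s1 : ∃ t, chk3 f_A00pm_102_s1 t 124 34 1 = true := ex3_b t484_A00pm_102_s1 k155_A00pm_102_s1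

theorem t486_A00pm_102_s1 : ∃ t, chk3 f_A00pm_102_s1 t 62 34 1 = true := ex3_a t485_A00pm_102_s1 k156_A00pm_102_s1

theorem t487_A00pm_102_s1 : ∃ t, chk3 f_A00pm_102_s1 t 62 17 1 = true := ex3_b t486_A00pm_102_s1 k157_A00pm_102_s1

theorem t488_A00pm_102_s1 : ∃ t, chk3 f_A00pm_102_s1 t 31 17 1 = true := ex3_a t487_A00pm_102_s1 k158_A00pm_102_s1

theorem t489_A00pm_102_s1 : ∃ t, chk3 f_A00pm_102_s1 t 481 143 1 = true := ex3_c k146_A00pm_102_s1 k147_A00pm_102_s1

theorem t490_A00pm_102_s1 : ∃ t, chk3 f_A00pm_102_s1 t 240 143 1 = true := ex3_a k145_A00pm_102_s1 t489_A00pm_102_s1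

theorem t491_A00pm_102_s1 : ∃ t, chk3 f_A00pm_102_s1 t 120 143 1 = true := ex3_a t490_A00pm_102_s1 k148_A00pm_102_s1

theorem t492_A00pm_102_s1 : ∃ t, chk3 f_A00pm_102_s1 t 120 71 1 = true := ex3_b k144_A00pm_102_s1 t491_A00pm_102_s1

theorem t493_A00pm_102_s1 : ∃ t, chk3 f_A00pm_102_s1 t 60 71 1 = true := ex3_a t492_A00pm_102_s1 k149_A00pm_102_s1

theorem t494_A00pm_102_s1 : ∃ t, chk3 f_A00pm_102_s1 t 60 35 1 = true := ex3_b k143_A00pm_102_s1 t493_A00pm_102_s1

theorem t495_A00pm_102_s1 : ∃ t, chk3 f_A00pm_102_s1 t 30 35 1 = true := ex3_a t494_A00pm_102_s1 k150_A00pm_102_s1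

theorem t496_A00pm_102_s1 : ∃ t, chk3 f_A00pm_102_s1 t 61 69 1 = true := ex3_a k141_A00pm_102_s1 k142_A00pm_102_s1

theorem t497_A00pm_102_s1 : ∃ t, chk3 f_A00pm_102_s1 t 123 137 1 = true := ex3_a k139_A00pm_102_s1 k140_A00pm_102_s1

theorem t498_A00pm_102_s1 : ∃ t, chk3 f_A00pm_102_s1 t 123 68 1 = true := ex3_b k138_A00pm_102_s1 t497_A00pm_102_s1

theorem t499_A00pm_102_s1 : ∃ t, chk3 f_A00pm_102_s1 t 61 68 1 = true := ex3_a k137_A00pm_102_s1 t498_A00pm_102_s1

theorem t500_A00pm_102_s1 : ∃ t, chk3 f_A00pm_102_s1 t 61 34 1 = true := ex3_b t499_A00pm_102_s1 t496_A00pm_102_s1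

theorem t501_A00pm_102_s1 : ∃ t, chk3 f_A00pm_102_s1 t 30 34 1 = true := ex3_a k136_A00pm_102_s1 t500_A00pm_102_s1

theorem t502_A00pm_102_s1 : ∃ t, chk3 f_A00pm_102_s1 t 30 17 1 = true := ex3_b t501_A00pm_102_s1 t495_A00pm_102_s1

theorem t503_A00pm_102_s1 : ∃ t, chk3 f_A00pm_102_s1 t 15 17 1 = true := ex3_a t502_A00pm_102_s1 t488_A00pm_102_s1

theorem t504_A00pm_102_s1 : ∃ t, chk3 f_A00pm_102_s1 t 499 270 1 = true := ex3_b k131_A00pm_102_s1 k132_A00pm_102_s1

theorem t505_A00pm_102_s1 : ∃ t, chk3 f_A00pm_102_s1 t 499 135 1 = true := ex3_b t504_A00pm_102_s1 k133_A00pm_102_s1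

theorem t506_A00pm_102_s1 : ∃ t, chk3 f_A00pm_102_s1 t 498 135 1 = true := ex3_b k129_A00pm_102_s1 k130_A00pm_102_s1

theorem t507_A00pm_102_s1 : ∃ t, chk3 f_A00pm_102_s1 t 249 135 1 = true := ex3_a t506_A00pm_102_s1 t505_A00pm_102_s1

theorem t508_A00pm_102_s1 : ∃ t, chk3 f_A00pm_102_s1 t 124 135 1 = true := ex3_a k128_A00pm_102_s1 t507_A00pm_102_s1

theorem t509_A00pm_102_s1 : ∃ t, chk3 f_A00pm_102_s1 t 499 269 17 = true := ex3_c k123_A00pm_102_s1 k124_A00pm_102_s1

theorem t510_A00pm_102_s1 : ∃ t, chk3 f_A00pm_102_s1 t 499 269 8 = true := ex3_c k122_A00pm_102_s1 t509_A00pm_102_s1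

theorem t511_A00pm_102_s1 : ∃ t, chk3 f_A00pm_102_s1 t 499 269 4 = true := ex3_c t510_A00pm_102_s1 k125_A00pm_102_s1

theorem t512_A00pm_102_s1 : ∃ t, chk3 f_A00pm_102_s1 t 499 269 2 = true := ex3_c t511_A00pm_102_s1 k126_A00pm_102_s1

theorem t513_A00pm_102_s1 : ∃ t, chk3 f_A00pm_102_s1 t 499 269 1 = true := ex3_c t512_A00pm_102_s1 k127_A00pm_102_s1

theorem t514_A00pm_102_s1 : ∃ t, chk3 f_A00pm_102_s1 t 499 134 1 = true := ex3_b k121_A00pm_102_s1 t513_A00pm_102_s1

theorem t515_A00pm_102_s1 : ∃ t, chk3 f_A00pm_102_s1 t 249 134 1 = true := ex3_a k120_A00pm_102_s1 t514_A00pm_102_s1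

theorem t516_A00pm_102_s1 : ∃ t, chk3 f_A00pm_102_s1 t 124 134 1 = true := ex3_a k119_A00pm_102_s1 t515_A00pm_102_s1

theorem t517_A00pm_102_s1 : ∃ t, chk3 f_A00pm_102_s1 t 124 67 1 = true := ex3_b t516_A00pm_102_s1 t508_A00pm_102_s1

theorem t518_A00pm_102_s1 : ∃ t, chk3 f_A00pm_102_s1 t 124 33 1 = true := ex3_b k118_A00pm_102_s1 t517_A00pm_102_s1

theorem t519_A00pm_102_s1 : ∃ t, chk3 f_A00pm_102_s1 t 62 33 1 = true := ex3_a t518_A00pm_102_s1 k134_A00pm_102_s1

theorem t520_A00pm_102_s1 : ∃ t, chk3 f_A00pm_102_s1 t 62 16 1 = true := ex3_b k117_A00pm_102_s1 t519_A00pm_102_s1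

theorem t521_A00pm_102_s1 : ∃ t, chk3 f_A00pm_102_s1 t 31 16 1 = true := ex3_a t520_A00pm_102_s1 k135_A00pm_102_s1

theorem t522_A00pm_102_s1 : ∃ t, chk3 f_A00pm_102_s1 t 15 16 1 = true := ex3_a k116_A00pm_102_s1 t521_A00pm_102_s1

theorem t523_A00pm_102_s1 : ∃ t, chk3 f_A00pm_102_s1 t 15 8 1 = true := ex3_b t522_A00pm_102_s1 t503_A00pm_102_s1

theorem t524_A00pm_102_s1 : ∃ t, chk3 f_A00pm_102_s1 t 59 71 1 = true := ex3_b k114_A00pm_102_s1 k115_A00pm_102_s1

theorem t525_A00pm_102_s1 : ∃ t, chk3 f_A00pm_102_s1 t 59 35 1 = true := ex3_b k113_A00pm_102_s1 t524_A00pm_102_s1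

theorem t526_A00pm_102_s1 : ∃ t, chk3 f_A00pm_102_s1 t 29 35 1 = true := ex3_a k112_A00pm_102_s1 t525_A00pm_102_s1

theorem t527_A00pm_102_s1 : ∃ t, chk3 f_A00pm_102_s1 t 29 17 1 = true := ex3_b k111_A00pm_102_s1 t526_A00pm_102_s1

theorem t528_A00pm_102_s1 : ∃ t, chk3 f_A00pm_102_s1 t 29 8 1 = true := ex3_b k110_A00pm_102_s1 t527_A00pm_102_s1

theorem t529_A00pm_102_s1 : ∃ t, chk3 f_A00pm_102_s1 t 14 8 1 = true := ex3_a k109_A00pm_102_s1 t528_A00pm_102_s1

theorem t530_A00pm_102_s1 : ∃ t, chk3 f_A00pm_102_s1 t 7 8 1 = true := ex3_a t529_A00pm_102_s1 t523_A00pm_102_s1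

theorem t531_A00pm_102_s1 : ∃ t, chk3 f_A00pm_102_s1 t 7 4 1 = true := ex3_b t530_A00pm_102_s1 t481_A00pm_102_s1

theorem t532_A00pm_102_s1 : ∃ t, chk3 f_A00pm_102_s1 t 27 39 1 = true := ex3_b k107_A00pm_102_s1 k108_A00pm_102_s1

theorem t533_A00pm_102_s1 : ∃ t, chk3 f_A00pm_102_s1 t 27 19 1 = true := ex3_b k106_A00pm_102_s1 t532_A00pm_102_s1

theorem t534_A00pm_102_s1 : ∃ t, chk3 f_A00pm_102_s1 t 27 9 1 = true := ex3_b k105_A00pm_102_s1 t533_A00pm_102_s1

theorem t535_A00pm_102_s1 : ∃ t, chk3 f_A00pm_102_s1 t 26 39 1 = true := ex3_b k103_A00pm_102_s1 k104_A00pm_102_s1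

theorem t536_A00pm_102_s1 : ∃ t, chk3 f_A00pm_102_s1 t 26 19 1 = true := ex3_b k102_A00pm_102_s1 t535_A00pm_102_s1

theorem t537_A00pm_102_s1 : ∃ t, chk3 f_A00pm_102_s1 t 26 9 1 = true := ex3_b k101_A00pm_102_s1 t536_A00pm_102_s1

theorem t538_A00pm_102_s1 : ∃ t, chk3 f_A00pm_102_s1 t 13 9 1 = true := ex3_a t537_A00pm_102_s1 t534_A00pm_102_s1

theorem t539_A00pm_102_s1 : ∃ t, chk3 f_A00pm_102_s1 t 25 39 1 = true := ex3_a k99_A00pm_102_s1 k100_A00pm_102_s1

theorem t540_A00pm_102_s1 : ∃ t, chk3 f_A00pm_102_s1 t 12 39 1 = true := ex3_a k98_A00pm_102_s1 t539_A00pm_102_s1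

theorem t541_A00pm_102_s1 : ∃ t, chk3 f_A00pm_102_s1 t 12 19 1 = true := ex3_b k97_A00pm_102_s1 t540_A00pm_102_s1

theorem t542_A00pm_102_s1 : ∃ t, chk3 f_A00pm_102_s1 t 12 9 1 = true := ex3_b k96_A00pm_102_s1 t541_A00pm_102_s1

theorem t543_A00pm_102_s1 : ∃ t, chk3 f_A00pm_102_s1 t 6 9 1 = true := ex3_a t542_A00pm_102_s1 t538_A00pm_102_s1

theorem t544_A00pm_102_s1 : ∃ t, chk3 f_A00pm_102_s1 t 6 4 1 = true := ex3_b k95_A00pm_102_s1 t543_A00pm_102_s1

theorem t545_A00pm_102_s1 : ∃ t, chk3 f_A00pm_102_s1 t 3 4 1 = true := ex3_a t544_A00pm_102_s1 t531_A00pm_102_s1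

theorem t546_A00pm_102_s1 : ∃ t, chk3 f_A00pm_102_s1 t 3 2 1 = true := ex3_b t545_A00pm_102_s1 t432_A00pm_102_s1

theorem t547_A00pm_102_s1 : ∃ t, chk3 f_A00pm_102_s1 t 3 1 1 = true := ex3_b t546_A00pm_102_s1 t328_A00pm_102_s1

theorem t548_A00pm_102_s1 : ∃ t, chk3 f_A00pm_102_s1 t 23 21 1 = true := ex3_a k91_A00pm_102_s1 k92_A00pm_102_s1

theorem t549_A00pm_102_s1 : ∃ t, chk3 f_A00pm_102_s1 t 22 21 1 = true := ex3_a k89_A00pm_102_s1 k90_A00pm_102_s1

theorem t550_A00pm_102_s1 : ∃ t, chk3 f_A00pm_102_s1 t 11 21 1 = true := ex3_a t549_A00pm_102_s1 t548_A00pm_102_s1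

theorem t551_A00pm_102_s1 : ∃ t, chk3 f_A00pm_102_s1 t 5 21 1 = true := ex3_a k88_A00pm_102_s1 t550_A00pm_102_s1

theorem t552_A00pm_102_s1 : ∃ t, chk3 f_A00pm_102_s1 t 2 21 1 = true := ex3_a k87_A00pm_102_s1 t551_A00pm_102_s1

theorem t553_A00pm_102_s1 : ∃ t, chk3 f_A00pm_102_s1 t 11 5365 3 = true := ex3_b k83_A00pm_102_s1 k84_A00pm_102_s1

theorem t554_A00pm_102_s1 : ∃ t, chk3 f_A00pm_102_s1 t 11 2682 3 = true := ex3_b k82_A00pm_102_s1 t553_A00pm_102_s1

theorem t555_A00pm_102_s1 : ∃ t, chk3 f_A00pm_102_s1 t 11 1341 3 = true := ex3_b t554_A00pm_102_s1 k85_A00pm_102_s1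

theorem t556_A00pm_102_s1 : ∃ t, chk3 f_A00pm_102_s1 t 11 1340 3 = true := ex3_a k80_A00pm_102_s1 k81_A00pm_102_s1

theorem t557_A00pm_102_s1 : ∃ t, chk3 f_A00pm_102_s1 t 11 670 3 = true := ex3_b t556_A00pm_102_s1 t555_A00pm_102_s1

theorem t558_A00pm_102_s1 : ∃ t, chk3 f_A00pm_102_s1 t 11 335 3 = true := ex3_b t557_A00pm_102_s1 k86_A00pm_102_s1

theorem t559_A00pm_102_s1 : ∃ t, chk3 f_A00pm_102_s1 t 11 1339 3 = true := ex3_b k78_A00pm_102_s1 k79_A00pm_102_s1

theorem t560_A00pm_102_s1 : ∃ t, chk3 f_A00pm_102_s1 t 11 669 3 = true := ex3_b k77_A00pm_102_s1 t559_A00pm_102_s1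

theorem t561_A00pm_102_s1 : ∃ t, chk3 f_A00pm_102_s1 t 45 668 3 = true := ex3_b k74_A00pm_102_s1 k75_A00pm_102_s1

theorem t562_A00pm_102_s1 : ∃ t, chk3 f_A00pm_102_s1 t 22 668 3 = true := ex3_a k73_A00pm_102_s1 t561_A00pm_102_s1

theorem t563_A00pm_102_s1 : ∃ t, chk3 f_A00pm_102_s1 t 11 668 3 = true := ex3_a t562_A00pm_102_s1 k76_A00pm_102_s1

theorem t564_A00pm_102_s1 : ∃ t, chk3 f_A00pm_102_s1 t 11 334 3 = true := ex3_b t563_A00pm_102_s1 t560_A00pm_102_s1

theorem t565_A00pm_102_s1 : ∃ t, chk3 f_A00pm_102_s1 t 11 167 3 = true := ex3_b t564_A00pm_102_s1 t558_A00pm_102_s1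

theorem t566_A00pm_102_s1 : ∃ t, chk3 f_A00pm_102_s1 t 46 333 3 = true := ex3_a k70_A00pm_102_s1 k71_A00pm_102_s1

theorem t567_A00pm_102_s1 : ∃ t, chk3 f_A00pm_102_s1 t 23 333 3 = true := ex3_a t566_A00pm_102_s1 k72_A00pm_102_s1

theorem t568_A00pm_102_s1 : ∃ t, chk3 f_A00pm_102_s1 t 22 333 3 = true := ex3_a k68_A00pm_102_s1 k69_A00pm_102_s1

theorem t569_A00pm_102_s1 : ∃ t, chk3 f_A00pm_102_s1 t 11 333 3 = true := ex3_a t568_A00pm_102_s1 t567_A00pm_102_s1

theorem t570_A00pm_102_s1 : ∃ t, chk3 f_A00pm_102_s1 t 11 332 3 = true := ex3_a k66_A00pm_102_s1 k67_A00pm_102_s1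

theorem t571_A00pm_102_s1 : ∃ t, chk3 f_A00pm_102_s1 t 11 166 3 = true := ex3_b t570_A00pm_102_s1 t569_A00pm_102_s1

theorem t572_A00pm_102_s1 : ∃ t, chk3 f_A00pm_102_s1 t 11 83 3 = true := ex3_b t571_A00pm_102_s1 t565_A00pm_102_s1

theorem t573_A00pm_102_s1 : ∃ t, chk3 f_A00pm_102_s1 t 11 41 3 = true := ex3_b k65_A00pm_102_s1 t572_A00pm_102_s1

theorem t574_A00pm_102_s1 : ∃ t, chk3 f_A00pm_102_s1 t 11 1341 2 = true := ex3_b k62_A00pm_102_s1 k63_A00pm_102_s1

theorem t575_A00pm_102_s1 : ∃ t, chk3 f_A00pm_102_s1 t 46 1340 2 = true := ex3_b k59_A00pm_102_s1 k60_A00pm_102_s1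

theorem t576_A00pm_102_s1 : ∃ t, chk3 f_A00pm_102_s1 t 23 1340 2 = true := ex3_a t575_A00pm_102_s1 k61_A00pm_102_s1

theorem t577_A00pm_102_s1 : ∃ t, chk3 f_A00pm_102_s1 t 45 2681 2 = true := ex3_a k57_A00pm_102_s1 k58_A00pm_102_s1

theorem t578_A00pm_102_s1 : ∃ t, chk3 f_A00pm_102_s1 t 45 1340 2 = true := ex3_b k56_A00pm_102_s1 t577_A00pm_102_s1

theorem t579_A00pm_102_s1 : ∃ t, chk3 f_A00pm_102_s1 t 22 1340 2 = true := ex3_a k55_A00pm_102_s1 t578_A00pm_102_s1

theorem t580_A00pm_102_s1 : ∃ t, chk3 f_A00pm_102_s1 t 11 1340 2 = true := ex3_a t579_A00pm_102_s1 t576_A00pm_102_s1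

theorem t581_A00pm_102_s1 : ∃ t, chk3 f_A00pm_102_s1 t 11 670 2 = true := ex3_b t580_A00pm_102_s1 t574_A00pm_102_s1

theorem t582_A00pm_102_s1 : ∃ t, chk3 f_A00pm_102_s1 t 11 335 2 = true := ex3_b t581_A00pm_102_s1 k64_A00pm_102_s1

theorem t583_A00pm_102_s1 : ∃ t, chk3 f_A00pm_102_s1 t 11 2679 2 = true := ex3_b k53_A00pm_102_s1 k54_A00pm_102_s1

theorem t584_A00pm_102_s1 : ∃ t, chk3 f_A00pm_102_s1 t 11 1339 2 = true := ex3_b k52_A00pm_102_s1 t583_A00pm_102_s1

theorem t585_A00pm_102_s1 : ∃ t, chk3 f_A00pm_102_s1 t 11 669 2 = true := ex3_b k51_A00pm_102_s1 t584_A00pm_102_s1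

theorem t586_A00pm_102_s1 : ∃ t, chk3 f_A00pm_102_s1 t 22 668 2 = true := ex3_a k48_A00pm_102_s1 k49_A00pm_102_s1

theorem t587_A00pm_102_s1 : ∃ t, chk3 f_A00pm_102_s1 t 11 668 2 = true := ex3_a t586_A00pm_102_s1 k50_A00pm_102_s1

theorem t588_A00pm_102_s1 : ∃ t, chk3 f_A00pm_102_s1 t 11 334 2 = true := ex3_b t587_A00pm_102_s1 t585_A00pm_102_s1

theorem t589_A00pm_102_s1 : ∃ t, chk3 f_A00pm_102_s1 t 11 167 2 = true := ex3_b t588_A00pm_102_s1 t582_A00pm_102_s1

theorem t590_A00pm_102_s1 : ∃ t, chk3 f_A00pm_102_s1 t 23 333 2 = true := ex3_a k46_A00pm_102_s1 k47_A00pm_102_s1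

theorem t591_A00pm_102_s1 : ∃ t, chk3 f_A00pm_102_s1 t 22 333 2 = true := ex3_a k44_A00pm_102_s1 k45_A00pm_102_s1

theorem t592_A00pm_102_s1 : ∃ t, chk3 f_A00pm_102_s1 t 11 333 2 = true := ex3_a t591_A00pm_102_s1 t590_A00pm_102_s1

theorem t593_A00pm_102_s1 : ∃ t, chk3 f_A00pm_102_s1 t 11 166 2 = true := ex3_b k43_A00pm_102_s1 t592_A00pm_102_s1

theorem t594_A00pm_102_s1 : ∃ t, chk3 f_A00pm_102_s1 t 11 83 2 = true := ex3_b t593_A00pm_102_s1 t589_A00pm_102_s1

theorem t595_A00pm_102_s1 : ∃ t, chk3 f_A00pm_102_s1 t 22 82 2 = true := ex3_b k40_A00pm_102_s1 k41_A00pm_102_s1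

theorem t596_A00pm_102_s1 : ∃ t, chk3 f_A00pm_102_s1 t 11 82 2 = true := ex3_a t595_A00pm_102_s1 k42_A00pm_102_s1

theorem t597_A00pm_102_s1 : ∃ t, chk3 f_A00pm_102_s1 t 11 41 2 = true := ex3_b t596_A00pm_102_s1 t594_A00pm_102_s1

theorem t598_A00pm_102_s1 : ∃ t, chk3 f_A00pm_102_s1 t 11 41 1 = true := ex3_c t597_A00pm_102_s1 t573_A00pm_102_s1

theorem t599_A00pm_102_s1 : ∃ t, chk3 f_A00pm_102_s1 t 43 83 15 = true := ex3_b k38_A00pm_102_s1 k39_A00pm_102_s1

theorem t600_A00pm_102_s1 : ∃ t, chk3 f_A00pm_102_s1 t 43 83 7 = true := ex3_c k37_A00pm_102_s1 t599_A00pm_102_s1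

theorem t601_A00pm_102_s1 : ∃ t, chk3 f_A00pm_102_s1 t 21 83 7 = true := ex3_a k36_A00pm_102_s1 t600_A00pm_102_s1

theorem t602_A00pm_102_s1 : ∃ t, chk3 f_A00pm_102_s1 t 43 83 6 = true := ex3_c k34_A00pm_102_s1 k35_A00pm_102_s1

theorem t603_A00pm_102_s1 : ∃ t, chk3 f_A00pm_102_s1 t 21 83 6 = true := ex3_a k33_A00pm_102_s1 t602_A00pm_102_s1

theorem t604_A00pm_102_s1 : ∃ t, chk3 f_A00pm_102_s1 t 21 83 3 = true := ex3_c t603_A00pm_102_s1 t601_A00pm_102_s1

theorem t605_A00pm_102_s1 : ∃ t, chk3 f_A00pm_102_s1 t 21 41 3 = true := ex3_b k32_A00pm_102_s1 t604_A00pm_102_s1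

theorem t606_A00pm_102_s1 : ∃ t, chk3 f_A00pm_102_s1 t 10 41 3 = true := ex3_a k31_A00pm_102_s1 t605_A00pm_102_s1

theorem t607_A00pm_102_s1 : ∃ t, chk3 f_A00pm_102_s1 t 43 83 5 = true := ex3_b k29_A00pm_102_s1 k30_A00pm_102_s1

theorem t608_A00pm_102_s1 : ∃ t, chk3 f_A00pm_102_s1 t 42 83 5 = true := ex3_c k27_A00pm_102_s1 k28_A00pm_102_s1

theorem t609_A00pm_102_s1 : ∃ t, chk3 f_A00pm_102_s1 t 21 83 5 = true := ex3_a t608_A00pm_102_s1 t607_A00pm_102_s1

theorem t610_A00pm_102_s1 : ∃ t, chk3 f_A00pm_102_s1 t 43 83 4 = true := ex3_b k25_A00pm_102_s1 k26_A00pm_102_s1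

theorem t611_A00pm_102_s1 : ∃ t, chk3 f_A00pm_102_s1 t 42 83 8 = true := ex3_b k22_A00pm_102_s1 k23_A00pm_102_s1

theorem t612_A00pm_102_s1 : ∃ t, chk3 f_A00pm_102_s1 t 42 83 4 = true := ex3_c t611_A00pm_102_s1 k24_A00pm_102_s1

theorem t613_A00pm_102_s1 : ∃ t, chk3 f_A00pm_102_s1 t 21 83 4 = true := ex3_a t612_A00pm_102_s1 t610_A00pm_102_s1

theorem t614_A00pm_102_s1 : ∃ t, chk3 f_A00pm_102_s1 t 21 83 2 = true := ex3_c t613_A00pm_102_s1 t609_A00pm_102_s1

theorem t615_A00pm_102_s1 : ∃ t, chk3 f_A00pm_102_s1 t 21 41 2 = true := ex3_b k21_A00pm_102_s1 t614_A00pm_102_s1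

theorem t616_A00pm_102_s1 : ∃ t, chk3 f_A00pm_102_s1 t 20 41 2 = true := ex3_c k19_A00pm_102_s1 k20_A00pm_102_s1

theorem t617_A00pm_102_s1 : ∃ t, chk3 f_A00pm_102_s1 t 10 41 2 = true := ex3_a t616_A00pm_102_s1 t615_A00pm_102_s1

theorem t618_A00pm_102_s1 : ∃ t, chk3 f_A00pm_102_s1 t 10 41 1 = true := ex3_c t617_A00pm_102_s1 t606_A00pm_102_s1

theorem t619_A00pm_102_s1 : ∃ t, chk3 f_A00pm_102_s1 t 5 41 1 = true := ex3_a t618_A00pm_102_s1 t598_A00pm_102_s1

theorem t620_A00pm_102_s1 : ∃ t, chk3 f_A00pm_102_s1 t 2 41 1 = true := ex3_a k18_A00pm_102_s1 t619_A00pm_102_s1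

theorem t621_A00pm_102_s1 : ∃ t, chk3 f_A00pm_102_s1 t 2 162 6 = true := ex3_c k14_A00pm_102_s1 k15_A00pm_102_s1

theorem t622_A00pm_102_s1 : ∃ t, chk3 f_A00pm_102_s1 t 2 81 6 = true := ex3_b t621_A00pm_102_s1 k16_A00pm_102_s1

theorem t623_A00pm_102_s1 : ∃ t, chk3 f_A00pm_102_s1 t 2 81 3 = true := ex3_c t622_A00pm_102_s1 k17_A00pm_102_s1

theorem t624_A00pm_102_s1 : ∃ t, chk3 f_A00pm_102_s1 t 2 40 3 = true := ex3_b k13_A00pm_102_s1 t623_A00pm_102_s1

theorem t625_A00pm_102_s1 : ∃ t, chk3 f_A00pm_102_s1 t 2 163 5 = true := ex3_c k11_A00pm_102_s1 k12_A00pm_102_s1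

theorem t626_A00pm_102_s1 : ∃ t, chk3 f_A00pm_102_s1 t 2 162 5 = true := ex3_c k9_A00pm_102_s1 k10_A00pm_102_s1

theorem t627_A00pm_102_s1 : ∃ t, chk3 f_A00pm_102_s1 t 2 81 5 = true := ex3_b t626_A00pm_102_s1 t625_A00pm_102_s1

theorem t628_A00pm_102_s1 : ∃ t, chk3 f_A00pm_102_s1 t 2 163 9 = true := ex3_c k7_A00pm_102_s1 k8_A00pm_102_s1

theorem t629_A00pm_102_s1 : ∃ t, chk3 f_A00pm_102_s1 t 2 163 16 = true := ex3_b k4_A00pm_102_s1 k5_A00pm_102_s1

theorem t630_A00pm_102_s1 : ∃ t, chk3 f_A00pm_102_s1 t 2 163 8 = true := ex3_c t629_A00pm_102_s1 k6_A00pm_102_s1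

theorem t631_A00pm_102_s1 : ∃ t, chk3 f_A00pm_102_s1 t 2 163 4 = true := ex3_c t630_A00pm_102_s1 t628_A00pm_102_s1

theorem t632_A00pm_102_s1 : ∃ t, chk3 f_A00pm_102_s1 t 2 162 4 = true := ex3_c k2_A00pm_102_s1 k3_A00pm_102_s1

theorem t633_A00pm_102_s1 : ∃ t, chk3 f_A00pm_102_s1 t 2 81 4 = true := ex3_b t632_A00pm_102_s1 t631_A00pm_102_s1

theorem t634_A00pm_102_s1 : ∃ t, chk3 f_A00pm_102_s1 t 2 81 2 = true := ex3_c t633_A00pm_102_s1 t627_A00pm_102_s1

theorem t635_A00pm_102_s1 : ∃ t, chk3 f_A00pm_102_s1 t 2 40 2 = true := ex3_b k1_A00pm_102_s1 t634_A00pm_102_s1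

theorem t636_A00pm_102_s1 : ∃ t, chk3 f_A00pm_102_s1 t 2 40 1 = true := ex3_c t635_A00pm_102_s1 t624_A00pm_102_s1

theorem t637_A00pm_102_s1 : ∃ t, chk3 f_A00pm_102_s1 t 2 20 1 = true := ex3_b t636_A00pm_102_s1 t620_A00pm_102_s1

theorem t638_A00pm_102_s1 : ∃ t, chk3 f_A00pm_102_s1 t 2 10 1 = true := ex3_b t637_A00pm_102_s1 t552_A00pm_102_s1

theorem t639_A00pm_102_s1 : ∃ t, chk3 f_A00pm_102_s1 t 2 5 1 = true := ex3_b t638_A00pm_102_s1 k93_A00pm_102_s1

theorem t640_A00pm_102_s1 : ∃ t, chk3 f_A00pm_102_s1 t 2 2 1 = true := ex3_b k0_A00pm_102_s1 t639_A00pm_102_s1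

theorem t641_A00pm_102_s1 : ∃ t, chk3 f_A00pm_102_s1 t 2 1 1 = true := ex3_b t640_A00pm_102_s1 k94_A00pm_102_s1

theorem t642_A00pm_102_s1 : ∃ t, chk3 f_A00pm_102_s1 t 1 1 1 = true := ex3_a t641_A00pm_102_s1 t547_A00pm_102_s1

theorem c_A00pm_102_s1 : CertF 536870912 536870912 0 536870912 740881858 40050571 true true false .npp 1 0 2
    ndB0q1 ndB0q0 pcB2 cut_A00pm_102_s1 xt_A00pm_102_s1 :=
  certF1 (fam := true) (s1 := true) (s2 := false) (a := 1) (b := 0) (c := 2) (cn := .npp) (n1 := ndB0q1) (n2 := ndB0q0) (pc := pcB2) (cut := cut_A00pm_102_s1) (xt := xt_A00pm_102_s1) (P1 := 536870912) (W1 := 536870912) (P2 := 0) (W2 := 536870912) (P3 := 740881858) (W3 := 40050571)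
    rfl (fun _ => rfl) t642_A00pm_102_s1

theorem s_A00pm_102_s1 {κ x : ℝ} (hκ : κ * h0 = ken x) (hx : ((740881858 : ℕ) : ℝ) / S ≤ x)
    (hx' : x ≤ (((740881858 : ℕ) : ℝ) + (40050571 : ℕ)) / S)
    (H : CutA (VFD κ) PP tK tL pcB (Cut.of [[⟨0, 1, 0, 53687091⟩, ⟨1, 0, 0, 53687091⟩, ⟨2, 1, 0, 53687091⟩]]) 1 0 2 0 0 (sgb true) (sgb false) x) :
    AltA (VFD κ) PP tK tL pcB [⟨3, 0, 0, 1449551462⟩] 1 0 2 0 0 (sgb true) (sgb false) x :=
  strip_altAD (m := 1449551462) true rfl hκ (SH.κ0 hκ (SH.hx1 hx).le (SH.hx2 hx').le) (SH.hx1 hx).le (SH.hx2 hx') (covB01).cov (covB00).cov hx hx' c_A00pm_102_s1 H ((okx hx hx').extA (T := tt) (sideB hx hx') hκ rfl rfl (.O 1 true) (.O 0 false) rfl)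

end Pool.Agent.Strip051.G.I69_7273.Tab.St.C
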