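import Pool.Agent.Strip051.G.I69_7273.StH
import Pool.Agent.Strip051.G.I69_7273.StF

/-! # Unit strips 4 (generated) -/

set_option linter.all false
set_option maxRecDepth 100000

namespace Pool.Agent.Strip051.G.I69_7273.Tab.St.C

open Pool.Agent.Strip051.PB Pool.Agent.Strip051.PB.T Pool.Agent.StripNear Pool.Agent.Strip051.LC
open Pool.Agent.Strip051.G.I69_7273.Tab Pool.Agent.Strip051.G.I69_7273.Tab.St

noncomputable def cut_A00pm_102_s3 : Cut := Cut.of [[⟨3, 0, 0, 2845415833⟩], [⟨0, 1, 0, 53687091⟩, ⟨1, 0, 0, 53687091⟩, ⟨2, 1, 0, 53687091⟩]]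

noncomputable def f_A00pm_102_s3 : ℕ → ℕ → ℕ → ℕ → Bool := onCell 536870912 536870912 0 536870912 740881858 40050571
    (rowF 0 true true false .npp 1 0 2 (qsf 536870912 536870912 0 536870912 2) ndB0q1 ndB0q0 pcB2 cut_A00pm_102_s3 Ext.none)

def k0_A00pm_102_s3 : ∃ t, chk3 f_A00pm_102_s3 t 1 1 1 = true :=
  ⟨(l 6), by decide +kernel⟩

theorem c_A00pm_102_s3 : CertF 536870912 536870912 0 536870912 740881858 40050571 true true false .npp 1 0 2
    ndB0q1 ndB0q0 pcB2 cut_A00pm_102_s3 Ext.none :=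
  certF0 (fam := true) (s1 := true) (s2 := false) (a := 1) (b := 0) (c := 2) (cn := .npp) (n1 := ndB0q1) (n2 := ndB0q0) (pc := pcB2) (cut := cut_A00pm_102_s3) (xt := Ext.none) (P1 := 536870912) (W1 := 536870912) (P2 := 0) (W2 := 536870912) (P3 := 740881858) (W3 := 40050571)
    rfl k0_A00pm_102_s3

theorem s_A00pm_102_s3 {κ x : ℝ} (hκ : κ * h0 = ken x) (hx : ((740881858 : ℕ) : ℝ) / S ≤ x)
    (hx' : x ≤ (((740881858 : ℕ) : ℝ) + (40050571 : ℕ)) / S)
    (H : CutA (VFD κ) PP tK tL pcB (Cut.of [[⟨0, 1, 0, 53687091⟩, ⟨1, 0, 0, 53687091⟩, ⟨2, 1, 0, 53687091⟩]]) 1 0 2 0 0 (sgb true) (sgb false) x) :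
    AltA (VFD κ) PP tK tL pcB [⟨4, 0, 0, 2845415833⟩] 1 0 2 0 0 (sgb true) (sgb false) x :=
  strip_altAD (m := 2845415833) false rfl hκ (SH.κ0 hκ (SH.hx1 hx).le (SH.hx2 hx').le) (SH.hx1 hx).le (SH.hx2 hx') (covB01).cov (covB00).cov hx hx' c_A00pm_102_s3 H (noExt_A)

noncomputable def cut_A00pm_112_s1 : Cut := Cut.of [[⟨4, 0, 0, 1449551462⟩]]

noncomputable def xt_A00pm_112_s1 : Ext := strExt dd true true false .u0 .u0m .u2 .dn 1 1 2 rfl rfl gf2 vv ndB0q1 ndB0q1

noncomputable def f_A00pm_112_s1 : ℕ → ℕ → ℕ → ℕ → Bool := onCell 536870912 536870912 1073741824 536870912 740881858 40050571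
    (rowF 1 true true false .dn 1 1 2 (qsf 536870912 536870912 536870912 536870912 2) ndB0q1 ndB0q1 pcB2 cut_A00pm_112_s1 xt_A00pm_112_s1)

def k0_A00pm_112_s1 : ∃ t, chk3 f_A00pm_112_s1 t 2 4 1 = true :=
  ⟨(a (l 3) (l 3)), by decide +kernel⟩

def k1_A00pm_112_s1 : ∃ t, chk3 f_A00pm_112_s1 t 2 40 1 = true :=
  ⟨(c (b (a (l 3) (l 3)) (c (b (a (l 3) (a (l 3) (l 1))) (c (c (a (l 3) (a (l 3) (l 1))) (a (l 3) (a (l 3) (l 1)))) (a (l 3) (a (l 3) (l 1))))) (b (a (l 3) (a (l 3) (l 1))) (a (l 3) (a (l 3) (l 1)))))) (b (a (l 3) (l 3)) (c (a (l 3) (a (l 3) (l 1))) (a (l 3) (a (l 3) (l 1)))))), by decide +kernel⟩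

def k2_A00pm_112_s1 : ∃ t, chk3 f_A00pm_112_s1 t 4 82 1 = true :=
  ⟨(l 3), by decide +kernel⟩

def k3_A00pm_112_s1 : ∃ t, chk3 f_A00pm_112_s1 t 4 166 2 = true :=
  ⟨(c (b (l 3) (c (b (a (a (l 3) (l 3)) (l 3)) (c (a (a (a (b (a (b (a (l 532602495) (l 3)) (b (l 532923263) (l 533024127))) (l 3)) (a (b (b (l 533119103) (l 533208703)) (b (l 533292671) (l 533370495))) (a (b (b (l 3) (l 533649023)) (b (l 533717887) (l 533779583))) (a (b (l 3) (a (l 533907215) (l 3))) (l 3))))) (l 3)) (l 3)) (l 3)) (a (a (a (b (a (b (l 532801919) (l 533001599)) (l 3)) (a (b (l 533180799) (l 533338751)) (a (b (l 533610367) (l 533740415)) (a (b (l 3) (a (l 533892479) (l 3))) (l 3))))) (l 3)) (l 3)) (l 3)))) (b (a (a (l 3) (l 3)) (l 3)) (a (a (a (b (a (b (l 532857471) (l 533039231)) (l 3)) (a (b (l 533202559) (l 533346431)) (a (b (l 533606527) (l 533993599)) (a (b (l 3) (b (l 3) (l 533927807))) (l 3))))) (l 3)) (l 3)) (l 3))))) (b (l 3) (c (b (a (a (l 3) (l 3)) (l 3)) (a (a (a (a (b (b (l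 532927615) (l 533086591)) (b (l 533229695) (l 533355903))) (b (l 3) (a (b (l 533600895) (l 533704831)) (a (b (l 3) (l 534411135)) (l 3))))) (l 3)) (l 3)) (l 3))) (a (a (a (b (l 3) (b (a (b (l 532993151) (l 533130879)) (l 3)) (a (b (l 533255039) (l 533364607)) (a (b (l 533594495) (l 533685119)) (a (b (l 3) (l 533841535)) (l 3)))))) (l 3)) (l 3)) (l 3))))), by decide +kernel⟩

def k4_A00pm_112_s1 : ∃ t, chk3 f_A00pm_112_s1 t 4 166 3 = true :=
  ⟨(c (b (l 3) (c (a (a (b (l 3) (a (a (b (l 533113615) (b (l 533278591) (l 533373055))) (b (l 3) (a (l 533628175) (a (b (l 3) (l 533809791)) (l 3))))) (l 3))) (l 3)) (l 3)) (a (a (a (b (l 3) (b (a (l 533164927) (l 3)) (a (l 534146575) (a (l 533614607) (a (l 533751055) (l 3)))))) (l 3)) (l 3)) (l 3)))) (b (l 3) (c (a (a (a (b (l 3) (b (a (l 533207679) (l 3)) (a (l 533354511) (a (l 533601039) (a (l 533724687) (l 3)))))) (l 3)) (l 3)) (l 3)) (b (a (a (l 3) (l 3)) (l 3)) (a (a (a (b (a (l 533246335) (l 3)) (a (l 533366543) (a (l 533587215)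 (a (l 533698575) (l 3))))) (l 3)) (l 3)) (l 3)))))), by decide +kernel⟩

def k5_A00pm_112_s1 : ∃ t, chk3 f_A00pm_112_s1 t 32 334 4 = true :=
  ⟨(b (b (a (b (b (c (l 533441663) (l 533439615)) (c (l 533500543) (l 533491839))) (b (a (l 533412479) (l 533651583)) (a (l 533444735) (l 533672319)))) (a (b (b (b (l 533799039) (l 534090111)) (a (l 533792639) (b (l 533891967) (c (l 533919871) (l 533882239))))) (b (a (l 533812607) (b (l 533906303) (l 533909631))) (a (l 533823615) (c (l 533932671) (l 533893503))))) (b (a (b (b (c (l 533995135) (l 533955455)) (b (l 533974911) (a (l 533958015) (c (a (l 534015359) (l 534040335)) (l 533987455))))) (a (b (c (l 533985919) (l 533944959)) (l 533969279)) (a (b (l 533998719) (l 533999999)) (c (l 534039423) (l 533995647))))) (a (a (b (b (l 3) (c (b (l 3) (l 534052991)) (l 534007423))) (c (l 534052735) (l 534008447))) (b (l 3) (l 534032767))) (b (l 3) (l 534036095)))) (a (b (a (c (l 533992831) (l 533950847)) (c (l 534030719) (l 533987199)))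 (c (a (l 533993599) (l 534029439)) (l 533969023))) (c (b (a (b (l 534053759) (l 534053503)) (c (l 534069631) (l 534047103))) (a (l 534052991) (l 534058111))) (b (a (l 534009215) (l 534014079)) (l 534011263))))))) (a (b (a (c (l 533486207) (l 533473407)) (b (l 533686655) (l 533696895))) (a (l 533510271) (c (l 533722239) (l 533693311)))) (a (b (a (c (l 533850495) (l 533815423)) (c (l 533935487) (l 533896063))) (b (l 533877631) (l 533878143))) (a (b (b (c (l 534010751) (l 533967999)) (l 533987711)) (l 533985407)) (b (c (l 534055039) (l 534010495)) (l 534031487)))))) (a (b (b (a (l 533529983) (l 533716351)) (a (l 533543551) (l 533721215))) (b (l 533909119) (b (l 533643903) (l 533645695)))) (a (b (b (l 533877887) (l 533876863)) (b (l 533874815) (l 533872767))) (b (b (a (l 533982079) (l 534030463)) (l 534014591)) (b (l 534013055) (l 534011519)))))), by decide +kernel⟩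

def k6_A00pm_112_s1 : ∃ t, chk3 f_A00pm_112_s1 t 32 335 4 = true :=
  ⟨(b (b (a (a (l 16774224) (l 16774672)) (a (l 16777680) (c (l 16775408) (l 16775376)))) (b (b (a (a (l 16773920) (l 16774376)) (a (l 16774784) (l 16775136))) (b (a (a (l 16773832) (l 16774288)) (a (l 16774696) (l 16775056))) (b (a (a (l 16773784) (l 16774248)) (a (l 16774656) (l 16775016))) (a (a (l 16773752) (l 16774216)) (a (l 16774632) (l 16774984)))))) (a (a (l 16773608) (l 16774080)) (a (l 16774496) (l 16774864))))) (a (a (l 16772984) (l 16773480)) (a (l 16773920) (l 16774312)))), by decide +kernel⟩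

def k7_A00pm_112_s1 : ∃ t, chk3 f_A00pm_112_s1 t 32 167 5 = true :=
  ⟨(b (b (b (a (b (b (l 533436799) (l 533479551)) (b (l 533509503) (l 533530239))) (a (b (b (l 533752703) (a (l 533734271) (b (l 533821311) (l 533828223)))) (b (a (l 533749887) (l 533833855)) (a (l 533758335) (l 533837439)))) (b (a (b (b (l 533897343) (b (l 533895551) (a (l 533880191) (l 533924735)))) (c (a (l 533908607) (l 533944191)) (l 533886591))) (b (a (b (l 3) (l 534212991)) (l 3)) (l 533947519))) (b (a (a (l 533890687) (l 533924223)) (c (l 533968511) (l 533926527))) (a (l 533907071) (l 533947007)))))) (a (b (a (l 533456511) (l 533641343)) (a (l 533479807) (l 533652863))) (a (b (a (l 533764991) (l 533839231)) (l 533804671)) (a (b (l 533905279) (l 533902207)) (b (l 533946239) (l 533945215)))))) (a (b (b (a (l 533494911) (l 533659007)) (l 533854079)) (b (l 533589631) (l 533592447))) (b (a (b (l 533804159) (l 533802623)) (b (l 533930879) (l 533929343))) (b (a (l 533800575) (l 533927551)) (b (l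 533892479) (l 533891967)))))) (b (a (a (l 16773936) (l 16777000)) (a (b (l 16775008) (l 16774552)) (a (l 16775048) (l 16775200)))) (a (a (l 16772920) (l 16773408)) (a (l 16773848) (l 16774232))))), by decide +kernel⟩

def k8_A00pm_112_s1 : ∃ t, chk3 f_A00pm_112_s1 t 33 167 4 = true :=
  ⟨(b (b (b (b (b (l 3) (a (a (a (a (a (c (l 534061695) (l 534017407)) (l 3)) (l 3)) (l 3)) (l 3)) (l 3))) (a (a (c (a (b (a (c (b (c (l 534079615) (l 534068351)) (a (l 534072959) (l 534075007))) (b (l 534051455) (l 534051455))) (b (b (l 3) (l 534067071)) (l 534066815))) (l 534064767)) (b (b (l 3) (l 534073215)) (l 534073215))) (a (b (c (a (l 534029183) (l 534033535)) (l 534009471)) (l 534020223)) (l 534028927))) (b (l 3) (l 534062975))) (l 3))) (b (a (c (a (l 534068607) (l 534085247)) (l 534032511)) (l 534085503)) (a (a (l 534045823) (l 534062463)) (l 534085247)))) (b (b (a (l 534054015) (l 534084991)) (l 534069375)) (b (l 534069119) (l 534069119)))) (b (b (b (b (l 534069375) (l 534069375))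 (a (a (l 16775560) (l 16775776)) (a (l 16775984) (l 16776176)))) (b (b (a (a (l 16775408) (l 16775624)) (a (l 16775832) (l 16776024))) (b (a (a (l 16775328) (l 16775552)) (a (l 16775760) (l 16775944))) (b (a (a (l 16775288) (l 16775512)) (a (l 16775720) (l 16775912))) (a (a (l 16775264) (l 16775488)) (a (l 16775696) (l 16775880)))))) (a (a (l 16775144) (l 16775368)) (a (l 16775576) (l 16775768))))) (a (a (l 16774616) (l 16774840)) (a (l 16775056) (l 16775256))))), by decide +kernel⟩

def k9_A00pm_112_s1 : ∃ t, chk3 f_A00pm_112_s1 t 33 167 5 = true :=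
  ⟨(b (b (a (b (b (a (b (l 3) (c (a (l 533977471) (l 3)) (l 533939839))) (l 3)) (a (a (c (b (l 533977215) (l 533977215)) (l 533935231)) (l 533964415)) (l 533976703))) (b (l 533968255) (l 533967743))) (b (l 3) (l 533998975))) (b (b (l 533983103) (l 533982847)) (b (l 533982335) (l 533982591)))) (b (b (b (b (l 533982591) (l 533982847)) (a (a (l 16775512) (l 16775736)) (a (l 16775944) (l 16776144)))) (b (b (a (a (l 16775352) (l 16775576)) (a (l 16775792) (l 16775984))) (b (a (a (l 16775272) (l 16775496)) (a (l 16775712) (l 16775904))) (b (a (a (l 16775232) (l 16775456)) (a (l 16775672) (l 16775864))) (a (a (l 16775200) (l 16775432)) (a (l 16775648) (l 16775840)))))) (a (a (l 16775080) (l 16775312)) (a (l 16775528) (l 16775720))))) (a (a (l 16774536) (l 16774776)) (a (l 16774992) (l 16775200))))), by decide +kernel⟩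

def k10_A00pm_112_s1 : ∃ t, chk3 f_A00pm_112_s1 t 32 167 6 = true :=
  ⟨(b (b (c (b (a (b (l 534526079) (l 533501823)) (b (a (b (l 533712255) (a (l 533693567) (l 533774975))) (a (b (b (l 533841791) (l 533848191)) (l 533847935)) (b (l 533883263) (l 533886079)))) (a (a (l 533709951) (l 533783167)) (a (b (l 533848703) (l 533848191)) (l 533885567))))) (a (b (a (l 533441919) (l 533606527)) (l 533539967)) (a (b (l 533752447) (l 533753471)) (a (b (l 533846399) (l 533843583)) (l 533884031))))) (b (a (b (l 533448319) (l 533490303)) (b (a (b (l 533686399) (a (l 533667711) (l 533742719))) (a (b (b (l 533806207) (l 533810815)) (l 533810559)) (b (l 533844095) (l 533846655)))) (a (a (l 533681791) (l 533749887)) (a (l 534076287) (l 533846143))))) (a (b (l 533511039) (l 533522559)) (a (b (l 533720703) (l 533720959)) (a (l 533807231) (l 533844607)))))) (a (b (b (l 533538431) (l 533542783)) (b (l 533545343) (l 533547135))) (b (a (l 534003839) (b (l 533850495) (l 533848703))) (b (a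 (l 533732223) (l 533847167)) (b (l 533815167) (l 533814655)))))) (a (a (b (l 16773896) (l 16772872)) (b (l 16776952) (l 16773352))) (a (b (l 16777344) (l 16773776)) (b (a (l 16774992) (l 16775144)) (l 16774160))))), by decide +kernel⟩

def k11_A00pm_112_s1 : ∃ t, chk3 f_A00pm_112_s1 t 32 167 7 = true :=
  ⟨(b (b (b (a (b (b (l 533430655) (l 533453439)) (l 533474943)) (b (a (b (l 533649279) (b (l 533661567) (l 533666431))) (a (b (b (l 533754495) (l 533757055)) (l 533756799)) (b (l 533787775) (l 533789567)))) (a (b (l 533670783) (l 533673599)) (a (b (l 533757055) (l 533756287)) (c (l 533807743) (l 533770623)))))) (a (b (a (l 533423231) (l 533555583)) (l 533499263)) (a (b (l 533675391) (l 533675391)) (a (b (l 533754751) (l 533751935)) (l 533787519))))) (a (b (b (l 533504127) (l 533506687)) (b (l 533507967) (l 533508991))) (b (a (l 533673343) (l 533773951)) (b (l 533743743) (l 533742719))))) (b (b (a (a (l 16774120) (l 16774536)) (a (l 16774912) (l 16775248))) (b (b (a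 (c (l 16776648) (l 16776632)) (a (l 16774616) (l 16774960))) (b (a (c (l 16776560) (l 16773920)) (c (l 16777344) (l 16777320))) (b (a (a (l 16773664) (l 16774096)) (c (l 16777304) (l 16777280))) (a (a (l 16773632) (l 16774064)) (a (l 16774456) (l 16774808)))))) (a (a (l 16773480) (l 16773920)) (a (l 16774320) (l 16774672))))) (a (a (l 16772840) (l 16773296)) (a (l 16773712) (l 16774088))))), by decide +kernel⟩

def k12_A00pm_112_s1 : ∃ t, chk3 f_A00pm_112_s1 t 33 167 3 = true :=
  ⟨(c (b (b (a (b (b (b (l 3) (a (c (l 533899135) (l 533859455)) (l 3))) (a (c (a (l 533894527) (l 533902975)) (l 533859199)) (l 533895295))) (l 533886335)) (b (l 3) (l 533917311))) (b (l 533901439) (b (l 533900671) (l 533900671)))) (b (b (b (b (l 533900927) (l 533900927)) (a (a (l 16775464) (l 16775696)) (a (l 16775912) (l 16776112)))) (b (b (a (a (l 16775296) (l 16775528)) (a (l 16775752) (l 16775952))) (b (a (a (l 16775216) (l 16775448)) (a (l 16775672) (l 16775872))) (b (a (a (l 16775176)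 (l 16775408)) (a (l 16775624) (l 16775832))) (a (a (l 16775144) (l 16775384)) (a (l 16775600) (l 16775800)))))) (a (a (l 16775016) (l 16775256)) (a (l 16775480) (l 16775680))))) (a (a (l 16774464) (l 16774704)) (a (l 16774936) (l 16775144))))) (b (b (b (a (b (b (l 3) (a (l 533802623) (l 3))) (a (c (l 533820799) (l 533783679)) (l 533818495))) (l 3)) (l 533825407)) (b (l 533824639) (b (l 533823871) (l 533823871)))) (a (a (b (b (l 16775528) (l 16775080)) (l 16774392)) (b (b (l 16775768) (l 16775320)) (l 16774640))) (a (b (b (l 16775984) (l 16775544)) (l 16774872)) (b (b (a (l 16776144) (l 16776240)) (l 16775752)) (l 16775088)))))), by decide +kernel⟩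

def k13_A00pm_112_s1 : ∃ t, chk3 f_A00pm_112_s1 t 34 167 2 = true :=
  ⟨(c (b (b (l 3) (b (b (l 534123647) (l 534123391)) (b (l 534123391) (l 534123647)))) (b (b (b (b (l 534123903) (a (l 534112383) (l 534135167))) (a (a (l 16776344) (a (l 16776464) (l 16776536))) (a (a (l 16776608) (l 16776672)) (a (l 16776736) (a (l 16776784) (l 16776808)))))) (b (b (a (a (l 16776192) (l 16776352)) (a (a (l 16776464) (l 16776528)) (a (l 16776592) (l 16776648)))) (b (a (a (l 16776120) (l 16776280)) (a (l 16776416) (c (l 16776552) (l 16776536)))) (b (a (a (l 16776080) (l 16776240)) (a (l 16776384) (c (l 16776512) (l 16776504)))) (a (a (l 16776056) (l 16776216)) (a (l 16776360) (a (l 16776456) (l 16776512))))))) (a (a (l 16775944) (l 16776104)) (a (l 16776248) (a (l 16776344) (l 16776400)))))) (a (a (l 16775432) (l 16775600)) (a (l 16775744) (a (l 16775848) (l 16775912)))))) (b (b (l 3) (b (l 534036863) (b (l 534036607) (l 534036863)))) (b (b (b (b (l 534037119) (l 534037375)) (a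 (a (l 16776320) (a (l 16776440) (l 16776520))) (a (a (l 16776592) (l 16776656)) (a (l 16776720) (a (l 16776768) (l 16776800)))))) (b (b (a (a (l 16776160) (l 16776328)) (a (a (l 16776440) (l 16776504)) (a (l 16776568) (l 16776632)))) (b (a (a (l 16776088) (l 16776248)) (a (l 16776392) (c (l 16776528) (l 16776520)))) (b (a (a (l 16776048) (l 16776208)) (a (l 16776352) (c (l 16776488) (l 16776480)))) (a (a (l 16776024) (l 16776184)) (a (l 16776328) (l 16776464)))))) (a (a (l 16775904) (l 16776064)) (a (l 16776216) (a (l 16776312) (l 16776376)))))) (a (a (l 16775384) (l 16775552)) (a (l 16775704) (a (l 16775808) (l 16775872))))))), by decide +kernel⟩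

def k14_A00pm_112_s1 : ∃ t, chk3 f_A00pm_112_s1 t 35 167 2 = true :=
  ⟨(c (b (a (b (l 3) (b (l 3) (b (l 3) (b (l 534153087) (l 534153343))))) (l 3)) (b (b (b (b (l 534160767) (l 534161023)) (a (a (a (a (l 16776840) (l 16776864)) (l 534151983)) (l 534158127)) (l 534167855))) (b (b (a (a (a (l 16776704) (l 16776752)) (l 534158383)) (l 534168367)) (b (a (a (a (l 16776632) (l 16776680)) (l 534158639)) (l 534168623)) (b (a (a (c (l 16776624) (l 16776616)) (l 534158639)) (l 534168623)) (a (a (a (l 16776568) (l 16776624)) (a (l 16776672) (l 16776712))) (a (a (l 16776752) (l 16776792)) (a (l 16776824) (l 16776856))))))) (a (a (a (l 16776456) (l 16776512)) (l 534152799)) (l 534165343)))) (a (a (b (l 16776192) (l 16775800)) (l 534153823)) (l 534166623)))) (b (a (b (l 3) (b (l 3) (b (l 3) (l 534066559)))) (l 3)) (b (b (b (b (l 534073983) (l 534074239)) (a (a (a (a (l 16776824) (l 16776856)) (l 534065455)) (l 534071343)) (l 534081327))) (b (b (a (a (a (l 16776688) (l 16776744))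 (l 534071599)) (l 534081583)) (b (a (a (a (l 16776608) (l 16776664)) (l 534071855)) (l 534081839)) (b (a (a (c (l 16776608) (l 16776600)) (l 534071855)) (l 534081839)) (a (a (a (l 16776552) (l 16776600)) (a (l 16776656) (l 16776696))) (a (a (l 16776744) (l 16776776)) (a (l 16776816) (l 16776848))))))) (a (a (a (l 16776432) (l 16776488)) (l 534067295)) (l 534079327)))) (a (a (b (l 16776160) (l 16775752)) (l 534068319)) (l 534080607))))), by decide +kernel⟩

def k15_A00pm_112_s1 : ∃ t, chk3 f_A00pm_112_s1 t 34 167 3 = true :=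
  ⟨(c (b (b (l 3) (b (l 533955199) (b (l 533954943) (l 533955199)))) (b (b (b (b (l 533955455) (l 533955455)) (a (a (l 16776296) (a (l 16776416) (l 16776496))) (a (a (l 16776568) (l 16776640)) (a (l 16776704) (a (l 16776752) (l 16776784)))))) (b (b (a (a (l 16776136) (l 16776296)) (a (a (l 16776416) (l 16776488)) (a (l 16776552) (l 16776616)))) (b (a (a (l 16776056) (l 16776224)) (a (l 16776368) (c (l 16776512) (l 16776496)))) (b (a (a (l 16776016) (l 16776184)) (a (l 16776328) (c (l 16776472) (l 16776456)))) (a (a (l 16775984) (l 16776152)) (a (l 16776304) (l 16776440)))))) (a (a (l 16775864) (l 16776032)) (a (l 16776184) (a (l 16776288) (l 16776352)))))) (a (a (l 16775328) (l 16775504)) (a (l 16775656) (a (l 16775768) (l 16775832)))))) (b (b (l 3) (b (l 533878399) (b (l 533878143) (l 533878143)))) (b (b (b (b (l 533878399) (l 533878655)) (a (a (l 16776272) (a (l 16776400) (l 16776480))) (a (a (l 16776552) (l 16776624)) (a (l 16776696) (a (l 16776744) (l 16776776))))))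 (b (b (a (a (l 16776104) (l 16776272)) (a (a (l 16776392) (l 16776464)) (a (l 16776536) (l 16776600)))) (b (a (a (l 16776024) (l 16776192)) (a (l 16776344) (c (l 16776488) (l 16776480)))) (b (a (a (l 16775984) (l 16776152)) (a (l 16776304) (c (l 16776448) (l 16776440)))) (a (a (l 16775952) (l 16776128)) (a (l 16776280) (l 16776416)))))) (a (a (l 16775832) (l 16776000)) (a (l 16776160) (a (l 16776264) (l 16776328)))))) (a (a (l 16775280) (l 16775456)) (a (l 16775616) (a (l 16775728) (l 16775792))))))), by decide +kernel⟩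

def k16_A00pm_112_s1 : ∃ t, chk3 f_A00pm_112_s1 t 35 167 6 = true :=
  ⟨(b (a (b (l 3) (b (l 3) (b (l 3) (l 533984639)))) (l 3)) (b (b (b (b (l 533992319) (l 533992575)) (a (a (a (a (l 16776816) (l 16776840)) (l 533983535)) (l 533989423)) (l 533999407))) (b (b (a (a (a (l 16776672) (l 16776728)) (l 533989935)) (l 533999919)) (b (a (a (a (l 16776592) (l 16776648)) (l 533990191)) (l 534000175)) (b (a (a (c (l 16776584) (l 16776576)) (l 533990191)) (l 534000175)) (a (a (a (l 16776528) (l 16776584)) (a (l 16776632) (l 16776680))) (a (a (l 16776728) (l 16776768)) (a (l 16776800) (l 16776832))))))) (a (a (a (l 16776416) (l 16776464)) (l 533986399)) (l 533998175)))) (a (a (b (l 16776128) (l 16775712)) (l 533987423)) (l 533999455)))), by decide +kernel⟩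

def k17_A00pm_112_s1 : ∃ t, chk3 f_A00pm_112_s1 t 35 167 7 = true :=
  ⟨(b (b (l 3) (b (l 3) (b (l 3) (b (l 533914751) (l 533915007))))) (b (b (a (a (a (a (b (b (l 533900671) (l 16776960)) (l 16776800)) (l 533903151)) (l 533906479)) (l 533912367)) (l 533922351)) (b (b (a (a (a (l 16776656) (l 16776712)) (l 533913135)) (l 533922863)) (b (a (a (a (l 16776576) (l 16776632)) (l 533913135)) (l 533923119)) (b (a (a (c (l 16776568) (l 16776560)) (l 533913391)) (l 533923375)) (a (a (a (l 16776512) (l 16776568)) (a (l 16776624) (l 16776672))) (a (a (l 16776712) (l 16776752)) (a (l 16776792) (l 16776824))))))) (a (a (a (l 16776392) (l 16776448)) (l 533910367)) (l 533921887)))) (b (a (a (l 16776096) (l 533911135)) (l 533922655)) (c (c (a (a (l 16775688) (l 16775800)) (l 533951583)) (b (b (a (a (l 16775840) (l 16775944)) (l 533932383)) (a (a (l 16775728) (l 16775840)) (l 533932639))) (a (a (l 16775568) (l 16775680)) (l 533933151)))) (c (b (b (a (a (l 16775832) (l 16775936))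 (l 533913951)) (a (a (l 16775720) (l 16775832)) (l 533914207))) (a (a (l 16775560) (l 16775672)) (l 533914719))) (b (b (a (a (l 16775824) (l 16775928)) (l 533895775)) (a (a (l 16775712) (l 16775824)) (l 533896031))) (a (a (l 16775552) (l 16775664)) (l 533896543)))))))), by decide +kernel⟩

def k18_A00pm_112_s1 : ∃ t, chk3 f_A00pm_112_s1 t 9 334 1 = true :=
  ⟨(a (l 3) (a (b (l 3) (b (l 3) (b (l 3) (b (l 534027919) (l 534028431))))) (b (l 3) (b (b (l 533986959) (l 533987471)) (b (l 533987983) (b (l 533988751) (l 533989263))))))), by decide +kernel⟩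

def k19_A00pm_112_s1 : ∃ t, chk3 f_A00pm_112_s1 t 9 1340 1 = true :=
  ⟨(a (l 534051631) (a (a (l 534036783) (a (l 534026031) (b (b (l 534016911) (l 534017423)) (b (b (l 534017679) (b (l 534017935) (l 534018191))) (a (a (l 534021679) (c (l 16776792) (l 16776768))) (a (a (l 16776760) (l 16776744)) (a (l 16776728) (l 16776712)))))))) (b (b (l 533989775) (b (l 533990287) (l 533990543))) (b (b (l 533990799) (b (l 533991055) (l 533991055))) (c (a (a (a (c (l 16776704) (l 16776688)) (l 16776632)) (a (l 16776560) (l 16776496))) (a (a (l 16776416) (l 16776344)) (a (l 16776256) (l 16776168)))) (a (a (a (l 16776664) (l 16776592)) (a (l 16776528) (l 16776448))) (a (a (l 16776376) (l 16776288)) (a (l 16776200) (l 16776112))))))))), by decide +kernel⟩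

def k20_A00pm_112_s1 : ∃ t, chk3 f_A00pm_112_s1 t 9 5364 1 = true :=
  ⟨(a (l 534052399) (a (a (l 534038063) (c (a (l 534111535) (a (c (l 16776720) (l 16776704)) (l 16776656))) (a (l 533947951) (a (c (l 16776688) (l 16776672)) (l 16776624))))) (a (a (a (c (l 16776600) (l 16776560)) (c (l 16776536) (l 16776496))) (a (c (l 16776464) (l 16776424)) (c (l 16776400) (l 16776352)))) (a (a (l 16776296) (l 16776216)) (a (l 16776128) (l 16776040)))))), by decide +kernel⟩

def k21_A00pm_112_s1 : ∃ t, chk3 f_A00pm_112_s1 t 9 10730 1 = true :=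
  ⟨(a (l 534052911) (a (a (l 534038319) (a (l 534027823) (a (l 534021423) (c (l 16776584) (l 16776544))))) (a (a (a (c (l 16776528) (l 16776488)) (c (l 16776464) (l 16776416))) (a (c (l 16776392) (l 16776344)) (l 16776296))) (a (a (l 16776224) (l 16776144)) (a (l 16776056) (l 16775968)))))), by decide +kernel⟩

def k22_A00pm_112_s1 : ∃ t, chk3 f_A00pm_112_s1 t 9 21462 1 = true :=
  ⟨(a (l 534052911) (a (a (l 534038575) (a (l 534027823) (a (l 534021679) (c (l 16776544) (l 16776512))))) (a (a (a (c (l 16776488) (l 16776448)) (c (l 16776424) (l 16776376))) (a (l 16776336) (l 16776264))) (a (a (l 16776184) (l 16776104)) (a (l 16776016) (l 16775928)))))), by decide +kernel⟩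

def k23_A00pm_112_s1 : ∃ t, chk3 f_A00pm_112_s1 t 9 21463 1 = true :=
  ⟨(a (a (c (c (a (a (a (l 16776880) (l 16776904)) (a (l 16776928) (l 16776944))) (a (a (l 16776952) (l 16776968)) (a (l 16776968) (l 16776976)))) (a (a (a (l 16776872) (l 16776896)) (a (l 16776920) (l 16776936))) (a (a (l 16776944) (l 16776960)) (a (l 16776960) (l 16776968))))) (c (a (a (a (l 16776864) (l 16776888)) (a (l 16776904) (l 16776928))) (a (a (l 16776936) (l 16776952)) (a (l 16776952) (l 16776960)))) (a (a (a (l 16776856) (l 16776880)) (a (l 16776896) (l 16776920))) (a (a (l 16776928) (l 16776944)) (a (l 16776944) (l 16776952)))))) (c (c (a (a (a (l 16776968) (l 16776968)) (a (l 16776960) (l 16776944))) (a (a (l 16776936) (l 16776912)) (a (l 16776896) (l 16776864)))) (a (a (a (l 16776960) (l 16776960)) (a (l 16776952) (l 16776936))) (a (a (l 16776920) (l 16776904)) (a (l 16776880) (l 16776856))))) (c (a (a (a (l 16776960) (l 16776952)) (a (l 16776944) (l 16776928))) (a (a (l 16776912)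 (l 16776896)) (a (l 16776872) (l 16776848)))) (a (a (a (l 16776952) (l 16776944)) (a (l 16776936) (l 16776920))) (a (a (l 16776904) (l 16776888)) (a (l 16776864) (l 16776832))))))) (a (a (a (c (a (l 16776832) (l 16776800)) (a (l 16776808) (l 16776776))) (a (c (l 16776760) (l 16776736)) (c (l 16776720) (l 16776696)))) (c (a (a (l 16776680) (l 16776632)) (a (l 16776576) (l 16776520))) (a (a (l 16776648) (l 16776592)) (a (l 16776544) (l 16776480))))) (a (a (a (c (l 16776464) (l 16776424)) (c (l 16776400) (l 16776352))) (a (l 16776312) (l 16776232))) (a (a (l 16776160) (l 16776080)) (a (l 16775992) (l 16775904)))))), by decide +kernel⟩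

def k24_A00pm_112_s1 : ∃ t, chk3 f_A00pm_112_s1 t 9 2683 1 = true :=
  ⟨(a (l 534053471) (a (a (l 534036063) (a (l 534023519) (a (l 534016095) (a (l 16776408) (l 16776376))))) (a (a (a (c (l 16776360) (l 16776304)) (c (l 16776296) (l 16776240))) (a (l 16776200) (l 16776120))) (a (a (l 16776048) (l 16775968)) (a (l 16775880) (l 16775792)))))), by decide +kernel⟩

def k25_A00pm_112_s1 : ∃ t, chk3 f_A00pm_112_s1 t 9 671 1 = true :=
  ⟨(a (l 534055263) (a (b (a (l 534037599) (a (l 534025055) (a (l 534017631) (a (l 16776112) (l 16776080))))) (c (a (l 534123103) (a (l 16775872) (l 16775768))) (c (c (a (l 534019423) (a (l 16775824) (l 16775712))) (c (b (b (a (l 533988959) (a (l 16775960) (l 16775848))) (a (l 533989471) (a (l 16775856) (l 16775752)))) (a (l 533990239) (a (l 16775712) (l 16775600)))) (b (b (a (l 533969503) (a (l 16775952) (l 16775840))) (a (l 533970015) (a (l 16775848) (l 16775744)))) (a (l 533970783) (a (l 16775696) (l 16775592)))))) (c (c (b (b (a (l 533950559)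 (a (l 16775944) (l 16775832))) (a (l 533951071) (a (l 16775840) (l 16775728)))) (a (l 533951583) (a (l 16775688) (l 16775576)))) (b (b (a (l 533931615) (a (l 16775936) (l 16775824))) (a (l 533932127) (a (l 16775832) (l 16775720)))) (a (l 533932895) (a (l 16775680) (l 16775568))))) (c (b (b (a (l 533913183) (a (l 16775928) (l 16775816))) (a (l 533913695) (a (l 16775824) (l 16775712)))) (a (l 533914463) (a (l 16775672) (l 16775560)))) (b (b (a (l 533895007) (a (l 16775920) (l 16775808))) (a (l 533895519) (a (l 16775816) (l 16775704)))) (a (l 533896287) (a (l 16775656) (l 16775544))))))))) (a (a (a (a (l 16775848) (l 16775816)) (a (l 16775784) (l 16775752))) (b (a (l 16775896) (l 16775824)) (a (l 16775496) (l 16775424)))) (c (a (a (l 16775592) (l 16775512)) (l 16775384)) (a (a (l 16775504) (l 16775416)) (l 16775280)))))), by decide +kernel⟩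

def k26_A00pm_112_s1 : ∃ t, chk3 f_A00pm_112_s1 t 20 82 4 = true :=
  ⟨(l 3), by decide +kernel⟩

def k27_A00pm_112_s1 : ∃ t, chk3 f_A00pm_112_s1 t 40 83 8 = true :=
  ⟨(b (b (l 3) (a (l 3) (b (l 3) (a (l 3) (a (l 3) (a (l 3) (b (l 3) (b (l 3) (l 533891871))))))))) (b (b (b (b (a (l 3) (a (l 3) (a (b (a (l 3) (b (l 3) (b (l 3) (b (b (l 3) (l 534054799)) (l 534054799))))) (l 534057103)) (b (b (l 533983887) (c (b (l 534009743) (l 534018447)) (l 533993103))) (b (a (a (a (l 534049935) (b (l 534041487) (l 534042511))) (l 534026895)) (l 533993359)) (a (l 534039183) (l 533999759))))))) (a (l 3) (a (b (a (l 3) (b (c (b (l 534077327) (l 534077327)) (l 534054799)) (l 534066319))) (l 534070671)) (a (b (b (l 534057359) (a (l 534059919) (l 534055311))) (b (l 534057871) (l 534057871))) (b (a (a (l 534048911) (l 534033039)) (l 534005391)) (a (l 534043023) (l 534009743))))))) (a (b (l 534095247) (l 534096015)) (a (b (l 534071183) (l 534071951)) (a (b (l 534058383) (l 534059151))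 (b (b (l 534029455) (l 534031503)) (l 534034063)))))) (a (b (l 534097039) (b (l 534098063) (l 534099087))) (b (a (l 534072975) (b (l 534057615) (l 534060175))) (b (a (l 534073999) (l 534062479)) (b (l 534098319) (l 534099855)))))) (a (a (b (b (l 16776200) (l 16775824)) (l 16775248)) (b (b (l 16776008) (l 16775632)) (l 16775048))) (a (b (b (l 16775800) (l 16775416)) (l 16774832)) (b (b (l 16775560) (l 16775184)) (l 16774600)))))), by decide +kernel⟩

def k28_A00pm_112_s1 : ∃ t, chk3 f_A00pm_112_s1 t 40 83 9 = true :=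
  ⟨(b (b (l 3) (b (l 3) (a (l 3) (a (l 3) (b (l 3) (a (l 3) (b (l 3) (b (l 3) (l 533912463))))))))) (b (b (a (b (l 3) (l 534051215)) (b (a (b (l 3) (b (l 534026127) (l 534026383))) (b (a (b (a (l 3) (b (l 3) (a (l 3) (b (l 3) (l 534012559))))) (l 534012815)) (b (b (l 533944207) (l 533962127)) (b (a (a (l 534542735) (l 533983887)) (l 533951887)) (a (l 533995151) (l 533957775))))) (a (b (b (l 534013071) (l 534013327)) (l 534013583)) (b (a (l 533997199) (l 533962895)) (l 533983375))))) (a (b (l 534026895) (l 534027663)) (a (b (l 534014095) (l 534014607)) (b (l 533986703) (l 533990287)))))) (a (b (l 534052495) (b (l 534053519) (l 534054543))) (b (a (l 534028431) (b (l 534013071) (l 534015631))) (b (l 534587791) (l 534053519))))) (a (a (b (b (l 16776184) (l 16775800)) (l 16775216)) (b (b (l 16775992) (l 16775600)) (l 16775016))) (a (b (b (l 16775776) (l 16775384)) (l 16774800)) (b (b (l 16775536) (l 16775152)) (l 16774560)))))), by decide +kernel⟩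

def k29_A00pm_112_s1 : ∃ t, chk3 f_A00pm_112_s1 t 41 83 8 = true :=
  ⟨(b (b (l 3) (b (a (l 3) (a (b (l 3) (b (l 3) (l 532307599))) (l 1))) (a (a (b (l 3) (b (b (l 3) (l 533624975)) (b (l 533701263) (l 533769615)))) (b (b (l 3) (b (l 533040783) (l 533146255))) (b (l 533293343) (l 533467167)))) (a (b (b (l 532556175) (l 532785807)) (b (l 532995471) (l 533183631))) (b (l 1) (b (l 1) (l 532891023))))))) (b (b (b (b (a (a (b (b (l 533814927) (l 533842575)) (b (l 533864591) (l 533879951))) (b (l 533579663) (l 533640591))) (b (l 533166735) (l 533243535))) (a (a (b (a (b (l 533938575) (l 533944463)) (l 533845135)) (a (l 533951119) (l 533862031))) (b (l 533680783) (l 533708687))) (a (l 533456783) (l 533196431)))) (a (b (a (a (l 533960079) (b (l 533873551) (l 533882255))) (b (l 533729167) (l 533745039))) (a (l 533931151) (l 534031503))) (b (a (l 533522063) (l 533282191)) (a (l 533565327) (l 533342863))))) (a (b (b (a (l 533939087) (l 533780879)) (a (l 533945487) (l 533794447)))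 (b (l 533880719) (l 533887887))) (b (b (a (l 533596303) (l 533387919)) (a (l 533619599) (l 16774760))) (b (l 533546383) (l 533566095))))) (a (a (b (b (l 16775280) (l 16774888)) (l 16774288)) (b (l 16777328) (l 16773888))) (a (b (l 16774288) (l 16773440)) (b (l 16773800) (l 16772928)))))), by decide +kernel⟩

def k30_A00pm_112_s1 : ∃ t, chk3 f_A00pm_112_s1 t 41 83 9 = true :=
  ⟨(b (b (l 3) (b (b (l 3) (a (l 3) (b (l 532047503) (l 532283279)))) (a (b (b (l 3) (a (l 3) (l 533137551))) (b (a (l 533581967) (l 533314191)) (b (l 533559695) (l 533626511)))) (b (b (l 532504207) (l 532709519)) (b (l 532898447) (l 533070223)))))) (b (b (b (b (a (b (a (l 533799055) (l 533567375)) (a (a (l 533887375) (l 533787535)) (l 533621647))) (b (l 533185423) (l 533253775))) (a (a (b (a (l 533902479) (l 533811599)) (a (l 533911183) (l 533826703))) (b (l 533657743) (l 533682575))) (l 533329295))) (a (b (a (a (l 533919375) (l 533841551)) (l 533708687)) (a (l 533891471) (l 533731983))) (b (l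 533665679) (l 533712271)))) (a (b (b (a (l 533898895) (l 533748111)) (l 533835151)) (b (l 533842319) (l 533849231))) (b (b (l 533478031) (l 533504143)) (b (l 533525135) (l 533543055))))) (a (a (b (b (l 16775248) (l 16774848)) (l 16774248)) (b (l 16774680) (l 16773848))) (a (b (l 16774256) (l 16773400)) (b (l 16773776) (l 16772896)))))), by decide +kernel⟩

def k31_A00pm_112_s1 : ∃ t, chk3 f_A00pm_112_s1 t 20 82 5 = true :=
  ⟨(l 3), by decide +kernel⟩

def k32_A00pm_112_s1 : ∃ t, chk3 f_A00pm_112_s1 t 40 83 5 = true :=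
  ⟨(c (b (b (l 3) (b (l 3) (a (l 3) (a (l 3) (b (l 3) (a (l 3) (b (l 3) (l 533856031)))))))) (b (b (a (b (l 3) (l 534007951)) (b (a (b (l 3) (l 533983119)) (b (a (b (a (l 3) (a (l 3) (l 533959967))) (l 533969551)) (b (l 533914255) (b (l 533931151) (a (l 533952655) (l 533917071))))) (a (l 533970063) (b (a (l 533954447) (l 533921679)) (l 533941135))))) (a (l 533983887) (a (l 533971087) (b (l 533944207) (l 533947535)))))) (a (b (l 534009231) (b (l 534010255) (l 534011023))) (b (a (l 533985167) (b (l 533969807) (l 533972111))) (b (l 534006415) (l 534008975))))) (a (a (b (b (l 16776168) (l 16775776)) (l 16775184)) (b (b (l 16775968) (l 16775576)) (l 16774984))) (a (b (b (l 16775752) (l 16775360)) (l 16774760)) (b (b (l 16775512) (l 16775120)) (l 16774520)))))) (b (b (l 3) (b (l 3) (a (l 3) (a (l 3) (b (l 3) (a (l 3) (b (l 3) (l 533825423)))))))) (b (a (b (b (l 3) (l 533965967)) (b (l 533967247) (b (l 533968015) (l 533969039)))) (b (b (b (a (l 3) (a (b (a (l 3) (l 534189855))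 (l 533927823)) (b (l 533875855) (b (l 533891215) (l 533897871))))) (a (l 533941135) (a (l 533928079) (b (l 533897615) (l 533900431))))) (a (l 533941903) (a (l 533929103) (l 533904527)))) (b (a (l 533943183) (l 533928591)) (b (l 533963151) (l 533965711))))) (a (a (b (b (l 16776152) (l 16775760)) (l 16775160)) (b (b (l 16775952) (l 16775552)) (l 16774952))) (a (b (l 16775536) (l 16774728)) (b (b (l 16775488) (l 16775096)) (l 16774480))))))), by decide +kernel⟩

def k33_A00pm_112_s1 : ∃ t, chk3 f_A00pm_112_s1 t 41 83 5 = true :=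
  ⟨(c (b (b (l 3) (b (b (l 3) (a (l 3) (b (l 532202383) (l 532409231)))) (a (b (b (l 3) (l 533306255)) (b (l 533456015) (l 533584783))) (b (b (l 532603535) (l 532784015)) (b (l 532950415) (l 533101967)))))) (b (a (b (b (b (b (a (l 533770127) (l 533555599)) (a (l 533804431) (l 533603727))) (a (b (l 533823119) (l 533833615)) (l 533647759))) (b (a (a (l 533879951) (l 533806223)) (l 533681295)) (a (l 533853071) (l 533702287)))) (b (a (l 533863055) (l 533723023)) (b (l 533805967) (l 533812367)))) (b (b (b (b (l 533203599) (l 533264015)) (l 533330831)) (b (l 533390991) (l 533432719))) (b (b (l 533463183) (l 533486735)) (b (l 533505423) (l 533521807))))) (a (a (b (l 16777640) (l 16774208)) (b (l 16774648) (l 16773816))) (a (a (l 16776536) (l 16776304)) (a (l 16773440) (l 16773184)))))) (b (b (l 3) (a (b (l 3) (b (b (l 3) (l 533331343)) (b (l 533462159) (l 533574799)))) (b (b (l 3) (l 532443535)) (b (l 533045023) (b (l 532999823) (l 533132175)))))) (b (a (b (b (b (b (l 533913487)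 (a (l 533772431) (l 533586575))) (a (b (l 533789071) (l 533798543)) (l 533625487))) (b (a (a (l 533842063) (l 533772175)) (l 533655439)) (a (l 533816207) (l 533674127)))) (b (b (l 534025615) (l 533764495)) (b (l 533770895) (l 533776783)))) (b (b (b (l 533248911) (l 533332879)) (b (l 533385871) (l 533422735))) (b (b (l 533449871) (l 533470863)) (b (l 533487503) (l 533502351))))) (a (a (b (l 16777616) (l 16774168)) (b (l 16774624) (l 16773776))) (a (a (l 16776504) (l 16773656)) (l 16775912)))))), by decide +kernel⟩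

def k34_A00pm_112_s1 : ∃ t, chk3 f_A00pm_112_s1 t 21 41 2 = true :=
  ⟨(a (a (a (b (l 1) (b (l 1) (b (l 1) (b (l 1) (l 16772320))))) (l 1)) (l 1)) (l 1)), by decide +kernel⟩

def k35_A00pm_112_s1 : ∃ t, chk3 f_A00pm_112_s1 t 20 82 6 = true :=
  ⟨(l 3), by decide +kernel⟩

def k36_A00pm_112_s1 : ∃ t, chk3 f_A00pm_112_s1 t 40 83 6 = true :=
  ⟨(c (b (b (l 3) (b (l 3) (a (l 3) (a (l 3) (b (l 3) (a (l 3) (b (l 3) (l 533794447)))))))) (b (a (b (b (l 3) (l 533925263)) (b (l 533926287) (b (l 533927055) (l 533928079)))) (b (b (b (a (l 3) (a (b (a (l 3) (l 533881487)) (l 533887119)) (b (l 533838735) (l 533855375)))) (a (l 533900431) (a (l 533887375) (b (l 533858191) (l 533860751))))) (a (l 533901199) (a (l 533888399) (l 533864591)))) (b (a (l 533902479) (l 533887887)) (b (l 533920911) (l 533923471))))) (a (a (b (b (l 16776136) (l 16775736)) (l 16775128)) (b (b (l 16775936) (l 16775528)) (l 16774920))) (a (b (l 16775512) (l 16774696)) (b (b (l 16775464) (l 16775064)) (l 16774448))))))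 (b (b (l 3) (b (l 3) (b (l 3) (a (l 3) (a (l 3) (a (l 3) (b (l 3) (l 533764239)))))))) (b (a (b (b (l 3) (l 533885583)) (b (l 533886607) (l 533887887))) (b (b (b (a (l 3) (a (b (l 534786591) (l 533847439)) (b (l 533802895) (l 533817487)))) (a (l 533860751) (a (l 533847951) (b (l 533819791) (l 533822351))))) (a (l 533861775) (a (l 533848719) (l 533825935)))) (b (a (l 533862799) (l 533847951)) (b (l 533879951) (l 533882255))))) (a (a (b (b (l 16776128) (l 16775720)) (l 16775104)) (b (b (l 16775920) (l 16775512)) (l 16774888))) (a (b (l 16775488) (l 16774664)) (b (b (l 16775440) (l 16775032)) (l 16774408))))))), by decide +kernel⟩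

def k37_A00pm_112_s1 : ∃ t, chk3 f_A00pm_112_s1 t 41 83 6 = true :=
  ⟨(c (b (b (l 3) (b (b (l 3) (a (l 3) (l 532566671))) (b (b (l 533002895) (l 533136015)) (b (l 533525391) (a (l 533564815) (l 533161103)))))) (b (a (b (b (b (b (l 533625743) (a (l 533741711) (l 533570447))) (a (b (l 533756303) (l 533764751)) (l 533604495))) (b (a (l 534041743) (l 533630607)) (a (l 533780879) (l 533647247)))) (b (b (l 533724815) (l 533731727)) (b (l 533737359) (l 533742991)))) (b (b (b (l 533262223) (l 533335183)) (b (l 533381775) (l 533414031))) (b (b (l 533437839) (l 533456527)) (b (l 533471375) (l 533484431))))) (a (a (b (l 16777584) (l 16774136)) (b (l 16774600) (l 16773744))) (a (a (l 16773856) (l 16773632)) (l 16775896))))) (b (b (l 3) (b (b (l 3) (b (l 532808847) (l 532940943))) (b (b (l 533063823) (l 533177487)) (b (l 533280911) (l 533373327))))) (b (a (b (b (b (b (l 533607311) (l 533628559)) (b (l 533920655) (l 533664143))) (b (a (l 533739919) (l 533607567)) (a (l 533746831)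 (l 533622159)))) (b (b (l 533694095) (l 533700239)) (b (l 533705615) (l 533710735)))) (b (b (b (l 533275535) (l 533338255)) (b (l 533378447) (l 533406607))) (b (b (l 533427343) (l 533443727)) (b (l 533456783) (l 533468559))))) (a (a (b (l 16774936) (l 16774096)) (b (l 16774568) (l 16773712))) (a (l 16776344) (l 16775880)))))), by decide +kernel⟩

def k38_A00pm_112_s1 : ∃ t, chk3 f_A00pm_112_s1 t 20 41 14 = true :=
  ⟨(b (l 3) (a (b (b (l 3) (b (l 3) (b (l 3) (a (l 3) (a (l 3) (a (l 3) (l 534244383))))))) (b (a (b (b (l 3) (l 533847183)) (b (l 533848207) (l 533849487))) (b (b (b (a (l 3) (a (b (l 533808783) (l 533809295)) (b (l 533767823) (l 533780623)))) (a (l 533822351) (a (l 533809551) (l 533781391)))) (a (l 533823375) (a (l 533810575) (l 533788559)))) (b (a (l 533824399) (l 533809551)) (b (l 533840015) (l 533842063))))) (a (a (b (b (l 16776112) (l 16775696)) (l 16775072)) (b (b (l 16775904) (l 16775488)) (l 16774864))) (a (b (l 16775464) (l 16774632)) (a (l 16777480)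 (l 16777344)))))) (b (b (l 3) (b (b (l 3) (b (l 532906127) (l 533016719))) (b (b (l 533120143) (l 533215631)) (b (l 533302927) (l 533381263))))) (b (b (b (b (a (b (l 533589391) (l 533607567)) (l 533288335)) (a (a (l 534503823) (l 533565583)) (l 533341583))) (b (a (a (l 533708175) (l 533585551)) (l 533376143)) (a (a (l 533714319) (l 533598351)) (l 533400207)))) (b (a (b (l 533664911) (l 533670543)) (a (l 533490575) (l 16774832))) (b (a (l 533675151) (l 533443983)) (b (l 534374543) (l 533841039))))) (a (a (b (l 16774912) (l 16774064)) (b (l 16774552) (l 16773680))) (a (l 16776320) (l 16775864))))))), by decide +kernel⟩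

def k39_A00pm_112_s1 : ∃ t, chk3 f_A00pm_112_s1 t 20 41 15 = true :=
  ⟨(b (l 3) (a (b (b (l 3) (b (l 3) (a (l 3) (a (l 3) (a (l 3) (b (l 3) (l 533682975))))))) (b (a (b (b (l 3) (l 533810063)) (b (l 533811087) (l 533812367))) (b (b (b (a (l 3) (a (b (l 533771663) (l 533772175)) (l 533739807))) (a (l 533785231) (a (l 533772431) (l 533746063)))) (a (l 533786255) (a (l 533773455) (l 533752463)))) (b (a (l 533787279) (l 533772175)) (b (l 533801103) (l 533803151))))) (a (a (b (b (l 16776096) (l 16775680)) (l 16775048)) (b (b (l 16775888) (l 16775464)) (l 16774832))) (a (b (l 16775440) (l 16774600)) (b (l 16777808) (l 16774344)))))) (b (b (l 3) (b (b (l 3) (b (l 532994703) (l 533086095))) (b (b (l 533171343) (l 533250447)) (b (l 533322895) (l 533388431))))) (b (b (b (b (a (b (l 533572495) (l 533587855)) (l 533300879)) (a (a (l 533669263) (l 533547919)) (l 533345679))) (b (a (a (l 533677711) (l 533565071)) (l 533374607)) (a (l 533899407) (l 533395343)))) (b (a (b (l 533637263)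 (l 533642127)) (a (l 533476495) (l 16774832))) (b (a (l 533646479) (l 533432975)) (b (l 533547919) (l 533550991))))) (a (a (b (l 16774888) (l 16774032)) (l 16776712)) (a (l 16776304) (l 16775848))))))), by decide +kernel⟩

def k40_A00pm_112_s1 : ∃ t, chk3 f_A00pm_112_s1 t 21 41 3 = true :=
  ⟨(a (a (a (b (l 1) (b (l 1) (a (b (l 1) (l 60699969287)) (l 1)))) (l 1)) (l 1)) (l 1)), by decide +kernel⟩

def k41_A00pm_112_s1 : ∃ t, chk3 f_A00pm_112_s1 t 11 41 1 = true :=
  ⟨(l 1), by decide +kernel⟩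

def k42_A00pm_112_s1 : ∃ t, chk3 f_A00pm_112_s1 t 16 21 1 = true :=
  ⟨(b (b (b (b (a (a (a (a (l 16771208) (l 16771488)) (a (l 16771760) (l 16777256))) (a (c (l 16777712) (l 16772288)) (c (b (l 16773376) (l 16772464)) (l 16772720)))) (a (a (c (b (l 16773712) (l 16772840)) (l 16773064)) (a (l 16773368) (l 16773488))) (a (b (l 16774096) (l 16773232)) (l 16776504)))) (a (a (a (l 16774504) (l 16775112)) (a (l 16775672) (c (l 16771080) (l 16770816)))) (c (a (a (l 16771504) (l 16771824)) (l 16772184)) (a (a (l 16771224) (l 16771544)) (l 16771920))))) (a (a (a (c (l 16766152) (l 16765992)) (c (l 16766912) (l 16766680))) (a (c (l 16767616) (l 16767320)) (c (l 16768264) (l 16767912)))) (a (a (l 16773864) (l 16774264)) (a (l 16774576) (l 16769584))))) (a (a (c (a (l 16770016) (l 16770968)) (b (l 16772472) (l 16757592))) (c (b (l 16774464) (l 16759872)) (c (l 16772096) (l 16771920)))) (b (b (a (l 16776552) (l 16777344)) (a (l 16764176) (l 16765096))) (a (l 16771768) (l 16762400)))))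 (a (a (b (c (a (l 16750472) (l 16751640)) (l 16771840)) (c (l 16741976) (l 16741712))) (b (a (l 16773568) (l 16774672)) (c (l 16744568) (l 16744096)))) (b (a (c (l 16755648) (l 16754936)) (l 16777840)) (a (l 16767752) (l 16749008))))), by decide +kernel⟩

def k43_A00pm_112_s1 : ∃ t, chk3 f_A00pm_112_s1 t 17 21 1 = true :=
  ⟨(b (b (b (b (a (c (a (a (l 16774168) (l 16774344)) (a (l 16774504) (l 16774648))) (a (a (l 16774000) (l 16774184)) (a (l 16774352) (l 16774504)))) (c (a (a (l 16777400) (l 16777512)) (l 534126175)) (a (a (l 16777256) (l 16777376)) (l 533963615)))) (a (a (a (l 16772384) (l 16772584)) (c (l 16778200) (l 16777968))) (a (a (l 16773064) (l 16773184)) (l 534046559)))) (c (a (a (l 16770128) (l 16770528)) (a (l 16770848) (l 16771096))) (a (a (l 16769752) (l 16770160)) (a (l 16770488) (l 16770736))))) (a (a (b (l 16766536) (l 16763152)) (l 16775808)) (a (l 16776216) (l 16776544)))) (a (b (a (l 16778888) (l 16769152)) (c (l 16772824) (l 16771568))) (a (b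 (l 16759144) (l 16752576)) (l 16777288)))), by decide +kernel⟩

def k44_A00pm_112_s1 : ∃ t, chk3 f_A00pm_112_s1 t 18 84 1 = true :=
  ⟨(l 534067551), by decide +kernel⟩

def k45_A00pm_112_s1 : ∃ t, chk3 f_A00pm_112_s1 t 19 168 1 = true :=
  ⟨(b (a (c (c (a (l 534171487) (a (l 16774952) (l 16774848))) (a (l 534085471) (a (l 16774880) (l 16774768)))) (a (l 533965407) (a (l 16777400) (l 16777288)))) (c (a (a (l 16774688) (l 16774544)) (a (l 16774392) (l 16774216))) (a (a (l 16774544) (l 16774392)) (a (l 16774232) (l 16774048))))) (b (a (a (l 534049887) (a (l 16773664) (l 16773552))) (a (a (l 16773424) (l 16773280)) (a (l 16773112) (l 16772936)))) (c (c (c (b (a (l 534194527) (a (l 16772984) (l 16772664))) (a (l 534196575) (a (l 16772608) (l 16772288)))) (b (a (l 534150239) (a (l 16772912) (l 16772592))) (a (l 534152287) (a (l 16772536) (l 16772208))))) (c (b (c (a (l 534117983) (a (l 16772864) (l 16772544))) (a (l 534096735) (a (l 16772832) (l 16772512)))) (a (l 534109279)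 (a (l 16772464) (l 16772136)))) (b (c (b (a (l 534075487) (a (l 16772904) (l 16772576))) (a (l 534076511) (a (l 16772704) (l 16772376)))) (b (a (l 534054751) (a (l 16772872) (l 16772544))) (a (l 534055775) (a (l 16772672) (l 16772344))))) (a (l 534067551) (a (l 16772400) (l 16772064)))))) (c (c (b (c (b (a (l 534034527) (a (l 16772840) (l 16772512))) (a (l 534035551) (a (l 16772640) (l 16772312)))) (b (a (l 534014559) (a (l 16772808) (l 16772480))) (a (l 534015583) (a (l 16772616) (l 16772280))))) (c (a (l 534037087) (a (l 16772344) (l 16772016))) (a (l 534017119) (a (l 16772312) (l 16771976))))) (b (c (b (a (l 533994847) (a (l 16772784) (l 16772448))) (a (l 533995871) (a (l 16772584) (l 16772248)))) (b (a (l 533975647) (a (l 16772752) (l 16772416))) (a (l 533976415) (a (l 16772552) (l 16772216))))) (a (l 533987679) (a (l 16772264) (l 16771928))))) (a (l 533929823) (a (l 16772376) (l 16772040))))))), by decide +kernel⟩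

def k46_A00pm_112_s1 : ∃ t, chk3 f_A00pm_112_s1 t 19 169 1 = true :=
  ⟨(c (b (c (a (l 534179167) (a (l 16771632) (l 16771296))) (a (l 534093151) (a (l 16771456) (l 16771120)))) (a (l 534143583) (a (l 16770016) (l 16769672)))) (a (l 533976927) (a (l 16770416) (l 16770064)))), by decide +kernel⟩

def k47_A00pm_112_s1 : ∃ t, chk3 f_A00pm_112_s1 t 9 85 1 = true :=
  ⟨(b (b (a (l 534082655) (a (l 534067551) (a (l 16768248) (l 16767888)))) (a (l 534088287) (a (l 534075231) (a (l 16766688) (l 16766328))))) (a (l 534096223) (a (l 534086495) (a (l 16764368) (l 16763992))))), by decide +kernel⟩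

def k48_A00pm_112_s1 : ∃ t, chk3 f_A00pm_112_s1 t 9 43 1 = true :=
  ⟨(a (a (a (l 16777680) (l 16777960)) (l 534128479)) (a (l 534122335) (a (l 16777688) (l 16777304)))), by decide +kernel⟩

def k49_A00pm_112_s1 : ∃ t, chk3 f_A00pm_112_s1 t 5 21 1 = true :=
  ⟨(a (a (b (b (b (b (a (a (a (l 16776560) (b (l 16774128) (l 16773320))) (a (b (l 16773896) (l 16773088)) (c (l 16773344) (l 16773144)))) (a (c (a (b (l 16773424) (l 16772616)) (l 16777832)) (a (l 16778056) (l 16772400))) (a (a (l 16777384) (l 16771888)) (a (l 16771624) (l 16771352))))) (a (a (a (l 16772336) (l 16772112)) (a (l 16771872) (l 16771616))) (a (a (c (l 16771416) (l 16771136)) (c (l 16770960) (l 16770704))) (a (l 16775544) (l 16774968))))) (a (a (l 16775072) (c (l 16774784) (l 16779624))) (a (a (l 16768840) (c (l 16768552) (l 16768184))) (c (c (l 16772968) (l 16778040)) (b (l 16778664) (l 16766480)))))) (a (a (l 16775576) (a (l 16764696) (l 16764400))) (a (c (l 16774592) (l 16773976)) (b (c (l 16774864)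 (l 16763944)) (a (l 16761288) (l 16760512)))))) (a (a (l 16776808) (b (l 16758312) (l 16752200))) (b (a (l 16757480) (l 16777120)) (a (l 16751320) (l 16749920))))) (b (b (a (a (a (b (c (l 16775304) (l 16775200)) (c (l 16766544) (l 16766344))) (b (c (l 16774616) (l 16774576)) (c (l 16765752) (l 16765632)))) (a (b (l 1) (l 73584855175)) (l 1))) (l 1)) (a (b (c (a (l 16773192) (l 16771304)) (a (l 16762440) (l 16760752))) (a (c (l 16759400) (l 16759016)) (c (l 16757288) (l 16757128)))) (a (b (l 1) (l 71437362823)) (l 1)))) (a (a (b (a (l 16775760) (l 16774728)) (l 16747992)) (a (b (l 16763120) (l 16746184)) (b (l 16772432) (l 16744896)))) (a (b (c (l 16770912) (l 16749816)) (c (l 16743248) (l 16742912))) (b (c (c (l 62310542679) (l 16768840)) (l 69826735271)) (c (l 16751312) (l 16740616))))))) (a (a (b (l 1) (b (l 1) (a (c (l 59089298391) (l 16738408)) (l 1)))) (l 1)) (l 1))), by decide +kernel⟩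

def k50_A00pm_112_s1 : ∃ t, chk3 f_A00pm_112_s1 t 4 11 1 = true :=
  ⟨(a (b (b (a (b (a (a (c (l 16732880) (l 16732496)) (l 16735232)) (a (l 16738008) (l 16740608))) (a (a (c (l 16723696) (l 16723160)) (c (l 16726552) (l 16725904))) (a (l 16729024) (l 16731920)))) (a (a (b (l 16742912) (l 16734592)) (l 16782792)) (a (l 16784176) (l 16785224)))) (a (a (b (a (l 16734968) (l 16738008)) (c (a (l 16704992) (l 16708320)) (l 16726696))) (b (l 16742496) (a (l 16711032) (l 16714144)))) (b (a (l 16769328) (l 16732144)) (a (l 16760792) (l 16724256))))) (a (a (c (b (a (c (l 16690968) (l 16690440)) (b (l 16699016) (l 16689632))) (a (b (l 16676224) (l 16666376)) (c (l 16675672) (l 16674960)))) (b (b (l 16696168) (l 16686520)) (a (l 16711744) (l 16673760)))) (b (c (a (l 16718984) (l 16701552)) (b (l 16702888) (l 16693640))) (c (a (l 16679416) (l 16683480)) (b (l 16684280) (l 16674816))))) (b (a (l 16747512) (a (l 16710520) (l 16713432))) (a (b (l 16734360) (l 16725472)) (l 16694888)))))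 (b (b (a (a (a (l 16786024) (l 16744424)) (l 16744896)) (a (l 16786992) (l 16744608))) (a (a (l 16773256) (b (l 16735744) (l 16729800))) (l 535031151))) (b (a (a (l 16758992) (l 16720328)) (a (l 16721832) (l 16721744))) (a (a (l 16701520) (l 16706624)) (a (l 16709752) (l 16710936)))))), by decide +kernel⟩

def k51_A00pm_112_s1 : ∃ t, chk3 f_A00pm_112_s1 t 5 11 1 = true :=
  ⟨(a (b (a (a (b (a (l 16743920) (l 16743280)) (l 16732192)) (b (b (l 16765608) (l 16738744)) (l 16730160))) (a (b (a (l 16738840) (b (l 16739336) (l 16733280))) (a (l 16727208) (l 16724520))) (b (b (a (l 16736584) (c (l 16734240) (l 16733800))) (a (l 16730456) (l 16727600))) (a (l 16721576) (l 16718600))))) (a (a (l 16757640) (b (l 16719192) (l 16708704))) (a (b (l 16714840) (l 16704416)) (b (l 16708792) (l 16698240))))) (b (a (a (b (b (a (c (l 16731624) (l 16731280)) (c (l 16729104) (l 16728840))) (a (c (l 16725176) (l 16724576)) (c (l 16722296) (l 16721816)))) (b (a (l 16739536) (c (l 16715984)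 (l 16715224))) (a (l 16712616) (c (l 16710032) (l 16708936))))) (b (b (l 1) (a (l 58015539175) (l 1))) (b (a (l 37614430887) (l 58552390791)) (c (a (l 16706680) (l 16703408)) (l 32245705143))))) (b (l 1) (a (a (a (b (l 1) (l 16700728)) (l 1)) (l 1)) (l 1)))) (a (b (b (a (a (l 16706840) (l 16703600)) (c (a (l 16700832) (l 16697288)) (l 16697880))) (a (l 16699592) (a (l 16694456) (l 16711768)))) (a (l 16691528) (c (a (l 16687432) (l 16683520)) (l 16683320)))) (b (b (a (c (a (l 16693824) (l 16690520)) (l 16691232)) (l 1)) (c (a (a (l 16687800) (l 16684136)) (c (l 70900339223) (l 16678720))) (a (l 16684832) (l 16719816)))) (c (a (c (a (l 16679872) (l 16675720)) (a (l 16678968) (l 16675016))) (c (a (l 16692608) (l 16667528)) (a (l 16671128) (l 16667216)))) (a (b (l 16678664) (l 16672840)) (c (l 32245654759) (l 16667656)))))))), by decide +kernel⟩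

def k52_A00pm_112_s1 : ∃ t, chk3 f_A00pm_112_s1 t 4 12 1 = true :=
  ⟨(a (b (a (c (c (a (b (a (b (l 16656584) (l 16646424)) (b (l 16661072) (l 16651136))) (b (a (l 16636176) (l 16641080)) (l 16628632))) (b (a (l 16660744) (l 16665416)) (b (l 16648568) (l 16638912)))) (a (b (a (l 16651176) (l 16655464)) (b (l 16638384) (l 16628512))) (b (a (l 16659840) (l 16664288)) (b (l 16647632) (l 16637968))))) (c (a (b (l 16652456) (l 16632632)) (b (l 16660800) (l 16641536))) (b (a (l 16651296) (l 16659560)) (a (l 16631264) (l 16640024))))) (c (a (b (a (l 16669288) (l 16673568)) (b (l 16657720) (l 16648392))) (b (l 16679416) (b (l 16666680) (l 16658016)))) (a (b (l 16668576) (b (l 16654624) (l 16645008))) (b (l 16676256) (l 16658432))))) (a (c (b (b (a (c (l 16618664) (l 16618632)) (l 16628784)) (a (c (l 16608856) (l 16608952)) (l 16619088))) (a (a (l 16590344) (l 16596344)) (a (l 16601984) (l 16607192)))) (b (a (a (l 16610368) (l 16614384)) (l 16621072)) (a (l 16592152) (l 16602040))))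 (a (c (b (c (l 16635168) (l 16633456)) (l 16615416)) (b (l 16630552) (l 16611152))) (b (c (l 16644584) (l 16639912)) (c (l 16626512) (l 16621264)))))) (a (b (a (b (l 16684968) (l 16668400)) (b (l 16691704) (l 16675800))) (a (b (l 16651560) (l 16676072)) (b (l 16659888) (l 16643744)))) (b (a (b (l 16696712) (l 16682504)) (b (l 16699520) (l 16687224))) (a (l 16659704) (b (l 16673848) (l 16659576)))))), by decide +kernel⟩

def k53_A00pm_112_s1 : ∃ t, chk3 f_A00pm_112_s1 t 4 13 1 = true :=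
  ⟨(b (b (a (a (c (a (l 16570672) (c (l 16584528) (l 16584008))) (a (l 16570096) (l 16581752))) (a (c (b (l 16601176) (l 16591832)) (l 16592472)) (c (l 16608120) (l 16602304)))) (a (a (l 16616448) (l 16627040)) (l 16641152))) (a (b (a (a (l 6) (l 16567272)) (a (l 16580056) (l 16591440))) (l 6)) (a (a (l 16598416) (l 16610112)) (a (l 16621008) (l 16630944))))) (a (l 6) (l 6))), by decide +kernel⟩

def k54_A00pm_112_s1 : ∃ t, chk3 f_A00pm_112_s1 t 4 7 1 = true :=
  ⟨(l 6), by decide +kernel⟩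

def k55_A00pm_112_s1 : ∃ t, chk3 f_A00pm_112_s1 t 5 3 1 = true :=
  ⟨(b (a (b (b (a (a (b (l 16700256) (l 16689592)) (b (l 16698648) (l 16689216))) (a (l 16689816) (l 16767592))) (a (a (l 16671976) (l 16757360)) (a (l 16756088) (b (l 16670720) (l 16663024))))) (b (a (a (l 16645800) (l 16651864)) (a (l 16653568) (l 16650680))) (l 6))) (b (a (b (a (b (l 16681472) (l 16672232)) (b (c (l 16675584) (l 16672544)) (a (l 16666520) (l 16662496)))) (a (l 16659808) (l 16651880))) (b (b (c (a (a (l 16669328) (l 16664896)) (c (a (l 16660792) (l 16656152)) (a (l 16659912) (l 16655528)))) (a (l 16664608) (c (l 16656712) (l 16655552)))) (a (c (b (l 16660080) (l 16655752)) (l 16654264)) (c (c (b (l 16651096) (l 16646680)) (l 16647584)) (l 16645392)))) (a (b (l 16647144) (l 16639200)) (c (b (l 16639600) (l 16632056)) (l 16630768))))) (b (a (a (l 16645968) (b (l 16641320) (l 16635536))) (a (l 16629104) (b (l 16621976) (l 16615816)))) (l 6)))) (l 6)), by decide +kernel⟩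

def k56_A00pm_112_s1 : ∃ t, chk3 f_A00pm_112_s1 t 3 2 1 = true :=
  ⟨(a (b (l 1) (b (l 1) (a (a (b (l 1) (a (a (a (b (l 1) (b (l 1) (l 16681928))) (l 1)) (l 1)) (l 1))) (l 1)) (l 1)))) (l 1)), by decide +kernel⟩

def k57_A00pm_112_s1 : ∃ t, chk3 f_A00pm_112_s1 t 3 3 1 = true :=
  ⟨(a (b (a (b (c (c (a (b (b (a (a (l 10233892423) (l 16668000)) (a (b (l 1) (l 16639544)) (l 1))) (a (b (a (l 16643584) (l 16638648)) (l 16636312)) (b (c (l 16652064) (l 16631568)) (l 16626144)))) (b (a (l 16629792) (b (l 16621304) (l 16616776))) (a (l 16622088) (l 16610568)))) (a (b (b (l 1) (b (l 1) (l 16637168))) (b (a (l 16611048) (l 16605760)) (l 16599176))) (b (l 1) (b (l 16617888) (l 16586800))))) (a (b (a (b (b (l 16652080) (l 16646224)) (b (l 16640664) (l 16635536))) (b (a (l 16643112) (l 1)) (b (l 16631880) (l 16626288)))) (b (a (l 16628432) (l 16618504)) (a (l 16619896) (l 16609248)))) (a (a (b (b (l 1) (l 16622640)) (l 16606240)) (b (l 1) (l 16601368))) (b (l 1) (b (l 16599016)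 (l 16587864)))))) (a (b (b (c (a (l 16648520) (l 16641024)) (a (l 16647368) (l 16640024))) (a (c (l 16637024) (l 16635568)) (c (l 16628648) (l 16627432)))) (a (l 16662808) (b (l 16616608) (l 16606360)))) (b (a (a (b (l 1) (l 16622456)) (l 1)) (l 1)) (a (c (l 16687056) (l 16601632)) (b (l 16599520) (l 16587328)))))) (b (b (a (a (l 16610936) (l 16641856)) (c (a (l 16590640) (l 16578016)) (a (l 16587096) (l 16576368)))) (a (a (l 16604336) (l 16592640)) (a (l 16581096) (l 16568616)))) (l 6))) (b (b (l 1) (b (l 1) (a (a (a (l 16578568) (l 1)) (l 1)) (l 1)))) (b (b (a (a (c (l 16562872) (l 16563512)) (c (l 16545744) (l 16548840))) (l 1)) (l 6)) (l 6)))) (l 6)) (b (a (b (l 1) (l 6)) (l 1)) (l 6))), by decide +kernel⟩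

theorem t58_A00pm_112_s1 : ∃ t, chk3 f_A00pm_112_s1 t 3 1 1 = true := ex3_b k56_A00pm_112_s1 k57_A00pm_112_s1

theorem t59_A00pm_112_s1 : ∃ t, chk3 f_A00pm_112_s1 t 4 6 1 = true := ex3_b k52_A00pm_112_s1 k53_A00pm_112_s1

theorem t60_A00pm_112_s1 : ∃ t, chk3 f_A00pm_112_s1 t 4 3 1 = true := ex3_b t59_A00pm_112_s1 k54_A00pm_112_s1

theorem t61_A00pm_112_s1 : ∃ t, chk3 f_A00pm_112_s1 t 2 3 1 = true := ex3_a t60_A00pm_112_s1 k55_A00pm_112_s1

theorem t62_A00pm_112_s1 : ∃ t, chk3 f_A00pm_112_s1 t 2 11 1 = true := ex3_a k50_A00pm_112_s1 k51_A00pm_112_s1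

theorem t63_A00pm_112_s1 : ∃ t, chk3 f_A00pm_112_s1 t 19 84 1 = true := ex3_b k45_A00pm_112_s1 k46_A00pm_112_s1

theorem t64_A00pm_112_s1 : ∃ t, chk3 f_A00pm_112_s1 t 9 84 1 = true := ex3_a k44_A00pm_112_s1 t63_A00pm_112_s1

theorem t65_A00pm_112_s1 : ∃ t, chk3 f_A00pm_112_s1 t 9 42 1 = true := ex3_b t64_A00pm_112_s1 k47_A00pm_112_s1

theorem t66_A00pm_112_s1 : ∃ t, chk3 f_A00pm_112_s1 t 9 21 1 = true := ex3_b t65_A00pm_112_s1 k48_A00pm_112_s1

theorem t67_A00pm_112_s1 : ∃ t, chk3 f_A00pm_112_s1 t 8 21 1 = true := ex3_a k42_A00pm_112_s1 k43_A00pm_112_s1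

theorem t68_A00pm_112_s1 : ∃ t, chk3 f_A00pm_112_s1 t 4 21 1 = true := ex3_a t67_A00pm_112_s1 t66_A00pm_112_s1

theorem t69_A00pm_112_s1 : ∃ t, chk3 f_A00pm_112_s1 t 2 21 1 = true := ex3_a t68_A00pm_112_s1 k49_A00pm_112_s1

theorem t70_A00pm_112_s1 : ∃ t, chk3 f_A00pm_112_s1 t 20 41 7 = true := ex3_c k38_A00pm_112_s1 k39_A00pm_112_s1

theorem t71_A00pm_112_s1 : ∃ t, chk3 f_A00pm_112_s1 t 20 83 6 = true := ex3_a k36_A00pm_112_s1 k37_A00pm_112_s1

theorem t72_A00pm_112_s1 : ∃ t, chk3 f_A00pm_112_s1 t 20 41 6 = true := ex3_b k35_A00pm_112_s1 t71_A00pm_112_s1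

theorem t73_A00pm_112_s1 : ∃ t, chk3 f_A00pm_112_s1 t 20 41 3 = true := ex3_c t72_A00pm_112_s1 t70_A00pm_112_s1

theorem t74_A00pm_112_s1 : ∃ t, chk3 f_A00pm_112_s1 t 10 41 3 = true := ex3_a t73_A00pm_112_s1 k40_A00pm_112_s1

theorem t75_A00pm_112_s1 : ∃ t, chk3 f_A00pm_112_s1 t 20 83 5 = true := ex3_a k32_A00pm_112_s1 k33_A00pm_112_s1

theorem t76_A00pm_112_s1 : ∃ t, chk3 f_A00pm_112_s1 t 20 41 5 = true := ex3_b k31_A00pm_112_s1 t75_A00pm_112_s1

theorem t77_A00pm_112_s1 : ∃ t, chk3 f_A00pm_112_s1 t 41 83 4 = true := ex3_c k29_A00pm_112_s1 k30_A00pm_112_s1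

theorem t78_A00pm_112_s1 : ∃ t, chk3 f_A00pm_112_s1 t 40 83 4 = true := ex3_c k27_A00pm_112_s1 k28_A00pm_112_s1

theorem t79_A00pm_112_s1 : ∃ t, chk3 f_A00pm_112_s1 t 20 83 4 = true := ex3_a t78_A00pm_112_s1 t77_A00pm_112_s1

theorem t80_A00pm_112_s1 : ∃ t, chk3 f_A00pm_112_s1 t 20 41 4 = true := ex3_b k26_A00pm_112_s1 t79_A00pm_112_s1

theorem t81_A00pm_112_s1 : ∃ t, chk3 f_A00pm_112_s1 t 20 41 2 = true := ex3_c t80_A00pm_112_s1 t76_A00pm_112_s1

theorem t82_A00pm_112_s1 : ∃ t, chk3 f_A00pm_112_s1 t 10 41 2 = true := ex3_a t81_A00pm_112_s1 k34_A00pm_112_s1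

theorem t83_A00pm_112_s1 : ∃ t, chk3 f_A00pm_112_s1 t 10 41 1 = true := ex3_c t82_A00pm_112_s1 t74_A00pm_112_s1

theorem t84_A00pm_112_s1 : ∃ t, chk3 f_A00pm_112_s1 t 5 41 1 = true := ex3_a t83_A00pm_112_s1 k41_A00pm_112_s1

theorem t85_A00pm_112_s1 : ∃ t, chk3 f_A00pm_112_s1 t 9 10731 1 = true := ex3_b k22_A00pm_112_s1 k23_A00pm_112_s1

theorem t86_A00pm_112_s1 : ∃ t, chk3 f_A00pm_112_s1 t 9 5365 1 = true := ex3_b k21_A00pm_112_s1 t85_A00pm_112_s1

theorem t87_A00pm_112_s1 : ∃ t, chk3 f_A00pm_112_s1 t 9 2682 1 = true := ex3_b k20_A00pm_112_s1 t86_A00pm_112_s1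

theorem t88_A00pm_112_s1 : ∃ t, chk3 f_A00pm_112_s1 t 9 1341 1 = true := ex3_b t87_A00pm_112_s1 k24_A00pm_112_s1

theorem t89_A00pm_112_s1 : ∃ t, chk3 f_A00pm_112_s1 t 9 670 1 = true := ex3_b k19_A00pm_112_s1 t88_A00pm_112_s1

theorem t90_A00pm_112_s1 : ∃ t, chk3 f_A00pm_112_s1 t 9 335 1 = true := ex3_b t89_A00pm_112_s1 k25_A00pm_112_s1

theorem t91_A00pm_112_s1 : ∃ t, chk3 f_A00pm_112_s1 t 9 167 1 = true := ex3_b k18_A00pm_112_s1 t90_A00pm_112_s1

theorem t92_A00pm_112_s1 : ∃ t, chk3 f_A00pm_112_s1 t 35 167 3 = true := ex3_c k16_A00pm_112_s1 k17_A00pm_112_s1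

theorem t93_A00pm_112_s1 : ∃ t, chk3 f_A00pm_112_s1 t 17 167 3 = true := ex3_a k15_A00pm_112_s1 t92_A00pm_112_s1

theorem t94_A00pm_112_s1 : ∃ t, chk3 f_A00pm_112_s1 t 17 167 2 = true := ex3_a k13_A00pm_112_s1 k14_A00pm_112_s1

theorem t95_A00pm_112_s1 : ∃ t, chk3 f_A00pm_112_s1 t 17 167 1 = true := ex3_c t94_A00pm_112_s1 t93_A00pm_112_s1

theorem t96_A00pm_112_s1 : ∃ t, chk3 f_A00pm_112_s1 t 32 167 3 = true := ex3_c k10_A00pm_112_s1 k11_A00pm_112_s1

theorem t97_A00pm_112_s1 : ∃ t, chk3 f_A00pm_112_s1 t 16 167 3 = true := ex3_a t96_A00pm_112_s1 k12_A00pm_112_s1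

theorem t98_A00pm_112_s1 : ∃ t, chk3 f_A00pm_112_s1 t 33 167 2 = true := ex3_c k8_A00pm_112_s1 k9_A00pm_112_s1

theorem t99_A00pm_112_s1 : ∃ t, chk3 f_A00pm_112_s1 t 32 167 4 = true := ex3_b k5_A00pm_112_s1 k6_A00pm_112_s1

theorem t100_A00pm_112_s1 : ∃ t, chk3 f_A00pm_112_s1 t 32 167 2 = true := ex3_c t99_A00pm_112_s1 k7_A00pm_112_s1

theorem t101_A00pm_112_s1 : ∃ t, chk3 f_A00pm_112_s1 t 16 167 2 = true := ex3_a t100_A00pm_112_s1 t98_A00pm_112_s1

theorem t102_A00pm_112_s1 : ∃ t, chk3 f_A00pm_112_s1 t 16 167 1 = true := ex3_c t101_A00pm_112_s1 t97_A00pm_112_s1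

theorem t103_A00pm_112_s1 : ∃ t, chk3 f_A00pm_112_s1 t 8 167 1 = true := ex3_a t102_A00pm_112_s1 t95_A00pm_112_s1

theorem t104_A00pm_112_s1 : ∃ t, chk3 f_A00pm_112_s1 t 4 167 1 = true := ex3_a t103_A00pm_112_s1 t91_A00pm_112_s1

theorem t105_A00pm_112_s1 : ∃ t, chk3 f_A00pm_112_s1 t 4 166 1 = true := ex3_c k3_A00pm_112_s1 k4_A00pm_112_s1

theorem t106_A00pm_112_s1 : ∃ t, chk3 f_A00pm_112_s1 t 4 83 1 = true := ex3_b t105_A00pm_112_s1 t104_A00pm_112_s1

theorem t107_A00pm_112_s1 : ∃ t, chk3 f_A00pm_112_s1 t 4 41 1 = true := ex3_b k2_A00pm_112_s1 t106_A00pm_112_s1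

theorem t108_A00pm_112_s1 : ∃ t, chk3 f_A00pm_112_s1 t 2 41 1 = true := ex3_a t107_A00pm_112_s1 t84_A00pm_112_s1

theorem t109_A00pm_112_s1 : ∃ t, chk3 f_A00pm_112_s1 t 2 20 1 = true := ex3_b k1_A00pm_112_s1 t108_A00pm_112_s1

theorem t110_A00pm_112_s1 : ∃ t, chk3 f_A00pm_112_s1 t 2 10 1 = true := ex3_b t109_A00pm_112_s1 t69_A00pm_112_s1

theorem t111_A00pm_112_s1 : ∃ t, chk3 f_A00pm_112_s1 t 2 5 1 = true := ex3_b t110_A00pm_112_s1 t62_A00pm_112_s1

theorem t112_A00pm_112_s1 : ∃ t, chk3 f_A00pm_112_s1 t 2 2 1 = true := ex3_b k0_A00pm_112_s1 t111_A00pm_112_s1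

theorem t113_A00pm_112_s1 : ∃ t, chk3 f_A00pm_112_s1 t 2 1 1 = true := ex3_b t112_A00pm_112_s1 t61_A00pm_112_s1

theorem t114_A00pm_112_s1 : ∃ t, chk3 f_A00pm_112_s1 t 1 1 1 = true := ex3_a t113_A00pm_112_s1 t58_A00pm_112_s1

theorem c_A00pm_112_s1 : CertF 536870912 536870912 536870912 536870912 740881858 40050571 true true false .dn 1 1 2
    ndB0q1 ndB0q1 pcB2 cut_A00pm_112_s1 xt_A00pm_112_s1 :=
  certF1 (fam := true) (s1 := true) (s2 := false) (a := 1) (b := 1) (c := 2) (cn := .dn) (n1 := ndB0q1) (n2 := ndB0q1) (pc := pcB2) (cut := cut_A00pm_112_s1) (xt := xt_A00pm_112_s1) (P1 := 536870912) (W1 := 536870912) (P2 := 536870912) (W2 := 536870912) (P3 := 740881858) (W3 := 40050571)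
    rfl (fun _ => rfl) t114_A00pm_112_s1

theorem s_A00pm_112_s1 {κ x : ℝ} (hκ : κ * h0 = ken x) (hx : ((740881858 : ℕ) : ℝ) / S ≤ x)
    (hx' : x ≤ (((740881858 : ℕ) : ℝ) + (40050571 : ℕ)) / S) :
    AltA (VFD κ) PP tK tL pcB [⟨3, 0, 0, 1449551462⟩] 1 1 2 0 0 (sgb true) (sgb false) x :=
  strip_altAD (m := 1449551462) true rfl hκ (SH.κ0 hκ (SH.hx1 hx).le (SH.hx2 hx').le) (SH.hx1 hx).le (SH.hx2 hx') (covB01).cov (covB01).cov hx hx' c_A00pm_112_s1 cutA_nil ((okx hx hx').extA (T := tt) (sideB hx hx') hκ rfl rfl (.O 1 true) (.O 1 false) rfl)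

noncomputable def cut_A00pm_112_s3 : Cut := Cut.of [[⟨3, 0, 0, 2845415833⟩]]

noncomputable def f_A00pm_112_s3 : ℕ → ℕ → ℕ → ℕ → Bool := onCell 536870912 536870912 1073741824 536870912 740881858 40050571
    (rowF 1 true true false .dn 1 1 2 (qsf 536870912 536870912 536870912 536870912 2) ndB0q1 ndB0q1 pcB2 cut_A00pm_112_s3 Ext.none)

def k0_A00pm_112_s3 : ∃ t, chk3 f_A00pm_112_s3 t 1 1 1 = true :=
  ⟨(l 6), by decide +kernel⟩

theorem c_A00pm_112_s3 : CertF 536870912 536870912 536870912 536870912 740881858 40050571 true true false .dn 1 1 2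
    ndB0q1 ndB0q1 pcB2 cut_A00pm_112_s3 Ext.none :=
  certF1 (fam := true) (s1 := true) (s2 := false) (a := 1) (b := 1) (c := 2) (cn := .dn) (n1 := ndB0q1) (n2 := ndB0q1) (pc := pcB2) (cut := cut_A00pm_112_s3) (xt := Ext.none) (P1 := 536870912) (W1 := 536870912) (P2 := 536870912) (W2 := 536870912) (P3 := 740881858) (W3 := 40050571)
    rfl (fun _ => rfl) k0_A00pm_112_s3

theorem s_A00pm_112_s3 {κ x : ℝ} (hκ : κ * h0 = ken x) (hx : ((740881858 : ℕ) : ℝ) / S ≤ x)
    (hx' : x ≤ (((740881858 : ℕ) : ℝ) + (40050571 : ℕ)) / S) :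
    AltA (VFD κ) PP tK tL pcB [⟨4, 0, 0, 2845415833⟩] 1 1 2 0 0 (sgb true) (sgb false) x :=
  strip_altAD (m := 2845415833) false rfl hκ (SH.κ0 hκ (SH.hx1 hx).le (SH.hx2 hx').le) (SH.hx1 hx).le (SH.hx2 hx') (covB01).cov (covB01).cov hx hx' c_A00pm_112_s3 cutA_nil (noExt_A)

noncomputable def cut_A00pm_113_s1 : Cut := Cut.of [[⟨4, 0, 0, 1449551462⟩], [⟨0, 1, 0, 67108864⟩, ⟨1, 1, 0, 67108864⟩, ⟨2, 2, 0, 16777216⟩], [⟨0, 0, 1, 20971520⟩, ⟨1, 1, 0, 33554432⟩, ⟨2, 1, 1, 20971520⟩], [⟨0, 1, 0, 33554432⟩, ⟨1, 0, 1, 20971520⟩, ⟨2, 1, 1, 20971520⟩]]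

noncomputable def f_A00pm_113_s1 : ℕ → ℕ → ℕ → ℕ → Bool := onCell 536870912 536870912 1610612736 536870912 740881858 40050571
    (rowF 1 true true false .nn 1 1 3 (qsf 536870912 536870912 536870912 536870912 3) ndB0q1 ndB0q1 pcB3 cut_A00pm_113_s1 Ext.none)

def k0_A00pm_113_s1 : ∃ t, chk3 f_A00pm_113_s1 t 1 1 1 = true :=
  ⟨(b (a (b (l 6) (l 6)) (l 6)) (l 6)), by decide +kernel⟩

theorem c_A00pm_113_s1 : CertF 536870912 536870912 536870912 536870912 740881858 40050571 true true false .nn 1 1 3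
    ndB0q1 ndB0q1 pcB3 cut_A00pm_113_s1 Ext.none :=
  certF1 (fam := true) (s1 := true) (s2 := false) (a := 1) (b := 1) (c := 3) (cn := .nn) (n1 := ndB0q1) (n2 := ndB0q1) (pc := pcB3) (cut := cut_A00pm_113_s1) (xt := Ext.none) (P1 := 536870912) (W1 := 536870912) (P2 := 536870912) (W2 := 536870912) (P3 := 740881858) (W3 := 40050571)
    rfl (fun _ => rfl) k0_A00pm_113_s1

theorem s_A00pm_113_s1 {κ x : ℝ} (hκ : κ * h0 = ken x) (hx : ((740881858 : ℕ) : ℝ) / S ≤ x)
    (hx' : x ≤ (((740881858 : ℕ) : ℝ) + (40050571 : ℕ)) / S)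
    (H : CutA (VFD κ) PP tK tL pcB (Cut.of [[⟨0, 1, 0, 67108864⟩, ⟨1, 1, 0, 67108864⟩, ⟨2, 2, 0, 16777216⟩], [⟨0, 0, 1, 20971520⟩, ⟨1, 1, 0, 33554432⟩, ⟨2, 1, 1, 20971520⟩], [⟨0, 1, 0, 33554432⟩, ⟨1, 0, 1, 20971520⟩, ⟨2, 1, 1, 20971520⟩]]) 1 1 3 0 0 (sgb true) (sgb false) x) :
    AltA (VFD κ) PP tK tL pcB [⟨3, 0, 0, 1449551462⟩] 1 1 3 0 0 (sgb true) (sgb false) x :=
  strip_altAD (m := 1449551462) true rfl hκ (SH.κ0 hκ (SH.hx1 hx).le (SH.hx2 hx').le) (SH.hx1 hx).le (SH.hx2 hx') (covB01).cov (covB01).cov hx hx' c_A00pm_113_s1 H (noExt_A)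

noncomputable def cut_A00pm_113_s3 : Cut := Cut.of [[⟨3, 0, 0, 2845415833⟩], [⟨0, 1, 0, 67108864⟩, ⟨1, 1, 0, 67108864⟩, ⟨2, 2, 0, 16777216⟩], [⟨0, 0, 1, 20971520⟩, ⟨1, 1, 0, 33554432⟩, ⟨2, 1, 1, 20971520⟩], [⟨0, 1, 0, 33554432⟩, ⟨1, 0, 1, 20971520⟩, ⟨2, 1, 1, 20971520⟩]]

noncomputable def f_A00pm_113_s3 : ℕ → ℕ → ℕ → ℕ → Bool := onCell 536870912 536870912 536870912 536870912 740881858 40050571
    (rowF 0 true true false .nn 1 1 3 (qsf 536870912 536870912 536870912 536870912 3) ndB0q1 ndB0q1 pcB3 cut_A00pm_113_s3 Ext.none)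

def k0_A00pm_113_s3 : ∃ t, chk3 f_A00pm_113_s3 t 2 1 1 = true :=
  ⟨(l 6), by decide +kernel⟩

def k1_A00pm_113_s3 : ∃ t, chk3 f_A00pm_113_s3 t 3 2 1 = true :=
  ⟨(l 6), by decide +kernel⟩

def k2_A00pm_113_s3 : ∃ t, chk3 f_A00pm_113_s3 t 6 3 1 = true :=
  ⟨(b (l 6) (b (l 6) (a (l 6) (b (l 6) (a (l 6) (b (l 6) (b (l 6) (b (l 6) (a (l 6) (a (l 6) (c (a (l 16770944) (l 16773048)) (l 16784256)))))))))))), by decide +kernel⟩

def k3_A00pm_113_s3 : ∃ t, chk3 f_A00pm_113_s3 t 7 6 1 = true :=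
  ⟨(a (l 6) (b (l 6) (a (l 6) (b (l 6) (a (l 6) (a (l 6) (a (l 6) (b (l 6) (b (l 6) (c (a (l 16773448) (l 16770576)) (l 16784256))))))))))), by decide +kernel⟩

def k4_A00pm_113_s3 : ∃ t, chk3 f_A00pm_113_s3 t 7 14 1 = true :=
  ⟨(a (l 6) (a (b (l 6) (a (b (l 6) (l 16884480)) (b (c (l 16853600) (l 16772912)) (c (l 16861936) (l 16864952))))) (a (a (b (b (l 6) (c (l 16825640) (l 16788944))) (b (c (l 16838344) (l 16801904)) (c (l 16762528) (l 16851896)))) (b (b (l 6) (c (l 16814512) (l 16779336))) (b (b (l 16826272) (l 16789984)) (c (b (l 16833136) (l 16835416)) (b (l 16839768) (l 16800136)))))) (b (c (a (b (c (l 16790768) (l 16794704)) (c (l 16800904) (l 16804304))) (c (b (b (a (l 16779648) (l 16773648)) (l 16780968)) (b (l 16785616) (l 16790408))) (b (b (l 16781352) (l 16785192)) (l 16749768)))) (b (c (b (l 16750112) (l 16764264)) (a (l 16804344) (b (l 16792728) (l 16795480)))) (a (c (l 16808208) (l 16770672)) (c (b (l 16793872) (l 16798024)) (b (l 16798856) (l 16802616))))))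 (b (c (a (c (l 16832584) (l 16814776)) (b (c (l 16795152) (l 16798464)) (c (l 16799656) (l 16802792)))) (a (c (l 16776432) (l 16780456)) (b (c (l 16802256) (l 16806528)) (l 16797832)))) (c (a (c (l 16776944) (l 16821944)) (b (c (l 16802984) (l 16805952)) (c (l 16804352) (l 16807144)))) (a (c (l 16825368) (l 16787216)) (b (l 16790184) (a (l 16816088) (l 16807888)))))))))), by decide +kernel⟩

def k5_A00pm_113_s3 : ∃ t, chk3 f_A00pm_113_s3 t 14 15 1 = true :=
  ⟨(b (a (l 6) (b (a (l 6) (l 16884480)) (a (c (l 16853600) (l 16772912)) (c (l 16861936) (l 16864952))))) (b (b (a (a (l 6) (c (l 16825640) (l 16788944))) (a (c (l 16838344) (l 16801904)) (c (l 16762528) (l 16851896)))) (a (a (l 6) (c (l 16814512) (l 16779336))) (a (a (l 16826272) (l 16789984)) (c (a (l 16833136) (l 16835416)) (a (l 16839768) (l 16800136)))))) (a (c (b (a (c (l 16790768) (l 16794704)) (c (l 16800904) (l 16804304))) (c (a (a (b (l 16779648) (l 16773648)) (l 16780968)) (a (l 16785616) (l 16790408)))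 (a (a (l 16781352) (l 16785192)) (l 16749768)))) (a (c (a (l 16750112) (l 16764264)) (b (l 16804344) (a (l 16792728) (l 16795480)))) (b (c (l 16808208) (l 16770672)) (c (a (l 16793872) (l 16798024)) (a (l 16798856) (l 16802616)))))) (a (c (b (c (l 16832584) (l 16814776)) (a (c (l 16795152) (l 16798464)) (c (l 16799656) (l 16802792)))) (b (c (l 16776432) (l 16780456)) (a (c (l 16802256) (l 16806528)) (l 16797832)))) (c (b (c (l 16776944) (l 16821944)) (a (c (l 16802984) (l 16805952)) (c (l 16804352) (l 16807144)))) (a (b (l 16826144) (l 16790184)) (b (l 16827792) (a (l 16811968) (l 16811960))))))))), by decide +kernel⟩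

def k6_A00pm_113_s3 : ∃ t, chk3 f_A00pm_113_s3 t 30 15 1 = true :=
  ⟨(b (b (a (l 16884640) (c (l 16861736) (l 16863624))) (a (c (l 16861736) (l 16863624)) (a (l 16857600) (l 16850352)))) (b (a (b (l 16826832) (c (c (l 16833328) (l 16836072)) (a (l 16841912) (l 16839584)))) (a (b (l 16842440) (l 16832800)) (b (l 16837792) (l 16817552)))) (b (a (c (a (l 16821224) (c (l 16818688) (l 16821512))) (b (l 16831800) (l 16823176))) (c (a (b (l 16821872) (l 16814080)) (b (l 16818392) (l 16790672))) (a (b (l 16827944) (l 16819888)) (b (l 16823512) (l 16817072))))) (b (a (c (a (l 16809432) (l 16808000)) (a (l 16815504) (l 16813648))) (c (a (l 16805688) (l 16782152)) (a (l 16789920) (l 16807872)))) (a (a (c (l 16801320) (l 16806920)) (c (l 16778672) (l 16804688))) (c (c (a (l 16796144) (l 16777736)) (a (l 16798112) (l 16795176))) (a (c (l 16800352) (l 16802848)) (c (l 16797120) (l 16778312))))))))), by decide +kernel⟩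

def k7_A00pm_113_s3 : ∃ t, chk3 f_A00pm_113_s3 t 31 30 1 = true :=
  ⟨(a (b (a (l 16826832) (c (c (l 16833328) (l 16836072)) (b (l 16841912) (l 16839584)))) (a (c (l 16839184) (l 16841400)) (b (l 16832800) (l 16817552)))) (a (b (c (b (l 16821224) (c (l 16818688) (l 16821512))) (a (l 16831800) (l 16823176))) (c (b (a (l 16821872) (l 16814080)) (a (l 16818392) (l 16790672))) (b (a (l 16827944) (l 16819888)) (a (l 16823512) (l 16817072))))) (a (b (c (b (l 16809432) (l 16808000)) (b (l 16815504) (l 16813648))) (c (b (l 16805688) (l 16782152)) (b (l 16789920) (l 16807872)))) (b (b (c (l 16801320) (l 16806920)) (c (l 16778672) (l 16804688))) (c (c (b (l 16796144) (l 16777736)) (b (l 16798112) (l 16795176))) (b (c (l 16800352) (l 16802848)) (c (l 16797120) (l 16778312)))))))), by decide +kernel⟩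

def k8_A00pm_113_s3 : ∃ t, chk3 f_A00pm_113_s3 t 62 31 1 = true :=
  ⟨(b (c (c (l 16804136) (l 16804088)) (b (l 16807232) (c (l 16820360) (l 16778936)))) (b (a (c (b (l 16814056) (c (l 16807376) (l 16809424))) (b (l 16817624) (c (l 16811680) (l 16793168)))) (a (b (l 16811520) (a (l 16807632) (l 16806160))) (c (l 16805384) (l 16786136)))) (c (b (b (a (l 16782000) (a (l 16800848) (l 16798824))) (a (l 16777432) (a (l 16796536) (c (l 16794520) (l 16796048))))) (a (a (a (l 16792584) (l 16791912)) (b (l 16793208) (l 16788592))) (c (a (b (l 16791240) (l 16786696)) (b (l 16790016) (l 16785416))) (a (l 16769248) (b (l 16791280) (l 16786384)))))) (b (b (a (l 16807544) (a (l 16804888) (l 16802120))) (a (l 16802448) (a (l 16800208) (l 16788144)))) (b (a (c (l 16796448) (l 16777440)) (b (l 16795552) (l 16792912))) (a (c (l 16791464) (l 16772176)) (a (l 16779264) (c (l 16787480) (l 16778216))))))))), by decide +kernel⟩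

def k9_A00pm_113_s3 : ∃ t, chk3 f_A00pm_113_s3 t 63 62 1 = true :=
  ⟨(a (b (c (a (l 16814056) (c (l 16807376) (l 16809424))) (a (l 16817624) (c (l 16811680) (l 16793168)))) (b (a (l 16811520) (a (l 16808040) (l 16805768))) (c (l 16805384) (l 16786136)))) (c (a (a (b (l 16782000) (b (l 16800848) (l 16798824))) (b (l 16777432) (b (l 16796536) (c (l 16794520) (l 16796048))))) (b (a (c (l 16793104) (l 16794680)) (b (l 16789968) (l 16788592))) (c (b (a (l 16791240) (l 16786696)) (a (l 16790016) (l 16785416))) (b (l 16769248) (a (l 16791280) (l 16786384)))))) (a (a (b (l 16807544) (b (l 16804888) (l 16802120))) (b (l 16802448) (b (l 16800208) (l 16788144)))) (a (b (c (l 16796448) (l 16777440)) (a (l 16795552) (l 16792912))) (b (c (l 16791464) (l 16772176)) (b (l 16779264) (c (l 16787480) (l 16778216)))))))), by decide +kernel⟩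

def k10_A00pm_113_s3 : ∃ t, chk3 f_A00pm_113_s3 t 63 63 1 = true :=
  ⟨(a (b (c (b (l 16802800) (l 16788352)) (b (l 16782416) (l 16788960))) (b (a (c (b (l 16796296) (c (l 16792832) (l 16794072))) (b (l 16798464) (c (l 16795440) (l 16785592)))) (a (b (l 16794880) (a (l 16782592) (l 16792232))) (c (l 16791576) (l 16781816)))) (b (b (a (c (c (l 16789984) (l 16791200)) (l 16793264)) (a (a (l 16780408) (l 14)) (l 14))) (a (c (l 16777672) (l 16790504)) (l 14))) (a (c (c (b (l 16785320) (l 16782984)) (a (l 16785320) (l 16784616))) (c (l 16775400) (c (l 16776160) (l 16776704)))) (l 14))))) (b (a (b (c (a (l 16796296) (c (l 16792832) (l 16794072))) (a (l 16798464) (c (l 16795440) (l 16785592)))) (b (a (l 16794880) (a (l 16793208) (l 16781624))) (c (l 16791576) (l 16781816)))) (a (a (b (c (c (l 16789984) (l 16791200)) (l 16793264)) (a (b (l 16780640) (l 14)) (l 14))) (b (c (l 16777672) (l 16790504)) (l 14))) (b (c (c (a (l 16785320) (l 16782984)) (b (l 16785320) (l 16784616)))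 (c (l 16775400) (c (l 16776160) (l 16776704)))) (l 14)))) (a (a (b (b (l 16791440) (l 14)) (l 14)) (l 14)) (l 14)))), by decide +kernel⟩

theorem t11_A00pm_113_s3 : ∃ t, chk3 f_A00pm_113_s3 t 63 31 1 = true := ex3_b k9_A00pm_113_s3 k10_A00pm_113_s3

theorem t12_A00pm_113_s3 : ∃ t, chk3 f_A00pm_113_s3 t 31 31 1 = true := ex3_a k8_A00pm_113_s3 t11_A00pm_113_s3

theorem t13_A00pm_113_s3 : ∃ t, chk3 f_A00pm_113_s3 t 31 15 1 = true := ex3_b k7_A00pm_113_s3 t12_A00pm_113_s3

theorem t14_A00pm_113_s3 : ∃ t, chk3 f_A00pm_113_s3 t 15 15 1 = true := ex3_a k6_A00pm_113_s3 t13_A00pm_113_s3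

theorem t15_A00pm_113_s3 : ∃ t, chk3 f_A00pm_113_s3 t 7 15 1 = true := ex3_a k5_A00pm_113_s3 t14_A00pm_113_s3

theorem t16_A00pm_113_s3 : ∃ t, chk3 f_A00pm_113_s3 t 7 7 1 = true := ex3_b k4_A00pm_113_s3 t15_A00pm_113_s3

theorem t17_A00pm_113_s3 : ∃ t, chk3 f_A00pm_113_s3 t 7 3 1 = true := ex3_b k3_A00pm_113_s3 t16_A00pm_113_s3

theorem t18_A00pm_113_s3 : ∃ t, chk3 f_A00pm_113_s3 t 3 3 1 = true := ex3_a k2_A00pm_113_s3 t17_A00pm_113_s3

theorem t19_A00pm_113_s3 : ∃ t, chk3 f_A00pm_113_s3 t 3 1 1 = true := ex3_b k1_A00pm_113_s3 t18_A00pm_113_s3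

theorem t20_A00pm_113_s3 : ∃ t, chk3 f_A00pm_113_s3 t 1 1 1 = true := ex3_a k0_A00pm_113_s3 t19_A00pm_113_s3

theorem c_A00pm_113_s3 : CertF 536870912 536870912 536870912 536870912 740881858 40050571 true true false .nn 1 1 3
    ndB0q1 ndB0q1 pcB3 cut_A00pm_113_s3 Ext.none :=
  certF0 (fam := true) (s1 := true) (s2 := false) (a := 1) (b := 1) (c := 3) (cn := .nn) (n1 := ndB0q1) (n2 := ndB0q1) (pc := pcB3) (cut := cut_A00pm_113_s3) (xt := Ext.none) (P1 := 536870912) (W1 := 536870912) (P2 := 536870912) (W2 := 536870912) (P3 := 740881858) (W3 := 40050571)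
    rfl t20_A00pm_113_s3

theorem s_A00pm_113_s3 {κ x : ℝ} (hκ : κ * h0 = ken x) (hx : ((740881858 : ℕ) : ℝ) / S ≤ x)
    (hx' : x ≤ (((740881858 : ℕ) : ℝ) + (40050571 : ℕ)) / S)
    (H : CutA (VFD κ) PP tK tL pcB (Cut.of [[⟨0, 1, 0, 67108864⟩, ⟨1, 1, 0, 67108864⟩, ⟨2, 2, 0, 16777216⟩], [⟨0, 0, 1, 20971520⟩, ⟨1, 1, 0, 33554432⟩, ⟨2, 1, 1, 20971520⟩], [⟨0, 1, 0, 33554432⟩, ⟨1, 0, 1, 20971520⟩, ⟨2, 1, 1, 20971520⟩]]) 1 1 3 0 0 (sgb true) (sgb false) x) :
    AltA (VFD κ) PP tK tL pcB [⟨4, 0, 0, 2845415833⟩] 1 1 3 0 0 (sgb true) (sgb false) x :=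
  strip_altAD (m := 2845415833) false rfl hκ (SH.κ0 hκ (SH.hx1 hx).le (SH.hx2 hx').le) (SH.hx1 hx).le (SH.hx2 hx') (covB01).cov (covB01).cov hx hx' c_A00pm_113_s3 H (noExt_A)

noncomputable def cut_A00pm_123_s1 : Cut := Cut.of [[⟨4, 0, 0, 1449551462⟩], [⟨0, 1, 0, 67108864⟩, ⟨1, 1, 0, 67108864⟩, ⟨2, 2, 0, 16777216⟩], [⟨0, 0, 1, 20971520⟩, ⟨1, 1, 0, 33554432⟩, ⟨2, 1, 1, 20971520⟩]]

noncomputable def f_A00pm_123_s1 : ℕ → ℕ → ℕ → ℕ → Bool := onCell 536870912 536870912 0 536870912 740881858 40050571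
    (rowF 0 true true false .npn 1 2 3 (qsf 536870912 536870912 0 536870912 3) ndB0q1 ndB0q2 pcB3 cut_A00pm_123_s1 Ext.none)

def k0_A00pm_123_s1 : ∃ t, chk3 f_A00pm_123_s1 t 1 1 1 = true :=
  ⟨(l 6), by decide +kernel⟩

theorem c_A00pm_123_s1 : CertF 536870912 536870912 0 536870912 740881858 40050571 true true false .npn 1 2 3
    ndB0q1 ndB0q2 pcB3 cut_A00pm_123_s1 Ext.none :=
  certF0 (fam := true) (s1 := true) (s2 := false) (a := 1) (b := 2) (c := 3) (cn := .npn) (n1 := ndB0q1) (n2 := ndB0q2) (pc := pcB3) (cut := cut_A00pm_123_s1) (xt := Ext.none) (P1 := 536870912) (W1 := 536870912) (P2 := 0) (W2 := 536870912) (P3 := 740881858) (W3 := 40050571)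
    rfl k0_A00pm_123_s1

theorem s_A00pm_123_s1 {κ x : ℝ} (hκ : κ * h0 = ken x) (hx : ((740881858 : ℕ) : ℝ) / S ≤ x)
    (hx' : x ≤ (((740881858 : ℕ) : ℝ) + (40050571 : ℕ)) / S)
    (H : CutA (VFD κ) PP tK tL pcB (Cut.of [[⟨0, 1, 0, 67108864⟩, ⟨1, 1, 0, 67108864⟩, ⟨2, 2, 0, 16777216⟩], [⟨0, 0, 1, 20971520⟩, ⟨1, 1, 0, 33554432⟩, ⟨2, 1, 1, 20971520⟩]]) 1 2 3 0 0 (sgb true) (sgb false) x) :
    AltA (VFD κ) PP tK tL pcB [⟨3, 0, 0, 1449551462⟩] 1 2 3 0 0 (sgb true) (sgb false) x :=
  strip_altAD (m := 1449551462) true rfl hκ (SH.κ0 hκ (SH.hx1 hx).le (SH.hx2 hx').le) (SH.hx1 hx).le (SH.hx2 hx') (covB01).cov (covB02).cov hx hx' c_A00pm_123_s1 H (noExt_A)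

end Pool.Agent.Strip051.G.I69_7273.Tab.St.C
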