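import Pool.Agent.Strip051.G.I69_7273.StH
import Pool.Agent.Strip051.G.I69_7273.StF

/-! # Unit strips 5 (generated) -/

set_option linter.all false
set_option maxRecDepth 100000

namespace Pool.Agent.Strip051.G.I69_7273.Tab.St.C

open Pool.Agent.Strip051.PB Pool.Agent.Strip051.PB.T Pool.Agent.StripNear Pool.Agent.Strip051.LC
open Pool.Agent.Strip051.G.I69_7273.Tab Pool.Agent.Strip051.G.I69_7273.Tab.St

noncomputable def cut_A00pm_123_s3 : Cut := Cut.of [[⟨3, 0, 0, 2845415833⟩], [⟨0, 1, 0, 67108864⟩, ⟨1, 1, 0, 67108864⟩, ⟨2, 2, 0, 16777216⟩], [⟨0, 0, 1, 20971520⟩, ⟨1, 1, 0, 33554432⟩, ⟨2, 1, 1, 20971520⟩]]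

noncomputable def xt_A00pm_123_s3 : Ext := strExt dd true true false .u0 .u2 .s2 .npn 1 2 3 rfl rfl gl3 vv ndB0q1 ndB0q2

noncomputable def f_A00pm_123_s3 : ℕ → ℕ → ℕ → ℕ → Bool := onCell 1610612736 536870912 0 536870912 740881858 40050571
    (rowF 2 true true false .npn 1 2 3 (qsf 536870912 536870912 0 536870912 3) ndB0q1 ndB0q2 pcB3 cut_A00pm_123_s3 xt_A00pm_123_s3)

def k0_A00pm_123_s3 : ∃ t, chk3 f_A00pm_123_s3 t 2 1 1 = true :=
  ⟨(a (b (b (l 1) (l 6)) (l 6)) (b (a (b (b (a (a (l 1) (b (l 16719680) (l 16704712))) (b (a (l 16730864) (l 16740608)) (a (l 16715960) (l 16725848)))) (a (a (l 1) (l 16734648)) (a (b (l 16701000) (l 16685176)) (b (l 16710984) (l 16695256))))) (b (a (b (l 16652128) (l 6)) (b (a (l 16669608) (l 16679816)) (a (l 6) (l 16665024)))) (l 6))) (b (b (b (a (l 535093007) (l 535227151)) (a (b (l 535143439) (l 535172623)) (b (a (l 535237903) (l 535315727)) (a (l 16760256) (l 535345167))))) (b (a (a (l 16720744) (l 16730256)) (b (a (l 16743128) (l 535364623)) (a (l 16736064) (l 535347215))))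 (a (a (l 16705280) (l 16715176)) (a (l 16724904) (c (a (l 16732832) (l 16737592)) (l 16733616)))))) (b (b (a (a (l 16690176) (l 16700528)) (a (l 16710856) (c (l 16722696) (l 16719576)))) (a (a (l 16675808) (l 16686736)) (a (l 16697784) (b (l 16711880) (l 16706080))))) (a (b (a (l 6) (l 16673960)) (l 6)) (b (a (b (l 16688728) (l 16683256)) (b (l 16700712) (l 16695920))) (a (b (l 16678384) (l 6)) (b (b (l 16692600) (l 16690600)) (a (l 6) (l 16690880))))))))) (a (l 6) (b (l 6) (l 6))))), by decide +kernel⟩

def k1_A00pm_123_s3 : ∃ t, chk3 f_A00pm_123_s3 t 6 4 1 = true :=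
  ⟨(a (b (a (a (b (l 535418895) (b (l 535468303) (l 535497743))) (b (l 4) (l 535689743))) (b (l 4) (a (b (l 4) (a (l 535848463) (c (l 536018959) (l 535904783)))) (l 4)))) (b (a (a (b (l 535514639) (c (l 16755336) (l 16753776))) (c (b (a (l 16767216) (l 535822607)) (l 535714063)) (b (l 535659791) (l 535603215)))) (a (a (b (c (l 535894799) (l 535786511)) (l 535784719)) (b (l 535912975) (l 535837455))) (c (l 536041231) (l 535933199)))) (a (a (c (b (l 16748976) (l 16743024)) (l 16743776)) (b (c (l 16758152) (l 16756560)) (c (l 16752960) (l 16750808)))) (a (b (c (a (l 16763648) (l 535815439)) (l 535723535)) (a (l 16758496) (c (l 16762816) (l 16761792)))) (c (b (c (a (l 535925775) (l 536049423)) (l 535929359)) (a (l 16766624) (l 536077583))) (b (c (l 535884559) (l 535843855)) (a (l 16765504) (l 16768960)))))))) (b (l 4) (a (b (a (a (b (l 4) (b (l 4) (c (c (l 536158991) (l 536094735)) (l 536005135)))) (l 4)) (l 4)) (a (c (a (b (c (l 536212751) (l 536138255)) (l 536252943)) (l 536365583)) (a (b (c (l 536066319) (l 535997199))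 (l 536074767)) (l 536169487))) (c (b (l 536544271) (l 536627727)) (l 536342799)))) (b (l 4) (l 4))))), by decide +kernel⟩

def k2_A00pm_123_s3 : ∃ t, chk3 f_A00pm_123_s3 t 6 5 1 = true :=
  ⟨(a (a (a (a (b (b (l 16729832) (l 16718784)) (b (l 16709408) (b (l 16703912) (l 16700488)))) (b (b (l 16736216) (l 16726208)) (b (l 16717856) (b (l 16713528) (l 16711104))))) (b (b (a (l 16742360) (l 16747648)) (b (l 16738800) (l 16735040))) (b (c (l 16733616) (l 16724408)) (b (l 16727696) (a (l 16722120) (l 16730872)))))) (b (a (b (c (a (l 16753232) (l 16757912)) (a (l 16750960) (l 16755776))) (c (b (l 16751384) (l 16749472)) (l 16746096))) (b (a (b (l 16762792) (l 16760096)) (c (b (l 16768056) (l 16766584)) (l 16764576))) (a (c (l 16759848) (l 16754552)) (b (l 16763304) (l 16762248))))) (a (b (a (l 16740920) (l 16748296)) (b (l 16744112) (l 16744200))) (b (a (l 16755392) (l 16761888)) (b (l 16759640) (l 16760432)))))) (b (a (b (a (c (a (b (l 536332815) (l 16770704)) (l 536526863)) (a (l 536140303) (l 536258575))) (c (l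 536750351) (l 536433679))) (b (a (a (l 16767768) (l 16765952)) (l 536683279)) (a (a (l 16767040) (l 16770848)) (c (l 536940815) (l 536536079))))) (b (a (c (b (l 536990223) (l 537070863)) (l 536660751)) (a (l 536493583) (l 4))) (b (a (l 536670479) (l 537186063)) (a (c (l 537223183) (l 536764943)) (b (l 537229071) (a (l 537194511) (c (l 537571087) (l 537057295)))))))) (a (b (a (b (c (l 16773512) (l 16764632)) (l 16748952)) (b (c (l 16759032) (l 16771776)) (c (l 16782440) (l 16772368)))) (a (b (l 16771440) (l 16772912)) (b (l 16758752) (l 16781896)))) (b (a (b (a (l 16768712) (c (l 16783592) (l 16777344))) (c (l 16786328) (l 16756800))) (b (a (c (l 16783696) (l 16768048)) (c (l 537642255) (l 537122831))) (a (l 537082639) (l 536953359)))) (a (b (a (l 16783960) (l 16743952)) (l 16787824)) (b (a (l 16787144) (c (l 16791304) (l 16784056))) (a (l 16790424) (l 16791200)))))))), by decide +kernel⟩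

def k3_A00pm_123_s3 : ∃ t, chk3 f_A00pm_123_s3 t 6 6 1 = true :=
  ⟨(a (b (a (a (b (c (b (l 16709008) (l 16704536)) (b (l 16693760) (l 16689168))) (l 6)) (a (b (c (l 16722576) (l 16710544)) (l 6)) (b (b (l 16730056) (l 16729280)) (b (l 16727808) (l 6))))) (a (b (b (a (l 16739320) (l 16748352)) (l 16744528)) (b (l 16744432) (l 16702272))) (b (b (l 16760544) (a (l 16756816) (l 16763400))) (b (l 16761976) (l 16721496))))) (a (l 6) (a (b (b (l 16702280) (l 6)) (l 6)) (b (b (a (l 16760352) (l 16769488)) (c (l 16759008) (l 16775624))) (b (a (l 6) (l 16773248)) (l 6)))))) (a (b (b (a (b (l 16773120) (l 16772768)) (b (l 16782744) (l 16782232))) (a (b (l 16772888) (l 16774416)) (b (l 16739088) (l 16781184)))) (b (a (b (l 16776048) (l 16777800)) (b (l 16781672) (l 16782120))) (a (b (l 16778976) (l 16694912)) (b (l 16781696) (l 16696160))))) (b (a (b (b (l 16789224) (l 16789304)) (b (l 16704840) (a (l 16785400) (l 16787760)))) (a (b (l 16792576) (b (l 16791440) (b (l 16790584) (l 16789344)))) (b (l 16793536) (b (l 16792360)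 (a (l 16749256) (l 16770160)))))) (a (b (a (l 16742904) (l 16744304)) (a (l 16718552) (b (l 16782784) (l 16778984)))) (a (b (b (l 16787968) (l 16785696)) (b (l 16782504) (a (l 16778056) (l 16777632)))) (b (b (a (l 16788640) (b (b (l 16769032) (l 16789344)) (l 16746232))) (b (l 16765608) (l 16743032))) (b (c (l 16737416) (l 16784648)) (c (l 16729752) (l 16783080))))))))), by decide +kernel⟩

def k4_A00pm_123_s3 : ∃ t, chk3 f_A00pm_123_s3 t 6 7 1 = true :=
  ⟨(a (l 6) (b (a (a (b (b (l 16693880) (l 6)) (l 6)) (b (b (c (l 16761888) (l 16794048)) (c (l 16756232) (l 16795416))) (b (a (l 6) (c (l 16710192) (l 16796400))) (l 6)))) (b (a (b (a (l 16775672) (b (l 16775472) (l 16772928))) (a (b (l 16772824) (l 16771568)) (c (l 16672080) (l 16786000)))) (a (b (c (l 16721104) (l 16783528)) (c (l 16714672) (l 16782960))) (b (c (a (l 16763632) (l 16722536)) (a (l 16781600) (l 16738808))) (c (a (l 16757936) (l 16738184)) (a (l 16781472) (l 16738864)))))) (c (a (b (a (l 16709944) (l 16710312)) (a (b (l 16750448) (l 16708608))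 (l 16730984))) (b (a (l 16732928) (a (l 16755792) (l 16725880))) (a (l 16733424) (b (l 16757056) (l 16758248))))) (a (a (b (l 16792144) (b (l 16795544) (l 16798848))) (b (l 16788472) (l 16794200))) (b (a (l 16786016) (a (l 16784816) (l 16763328))) (a (l 16792152) (a (l 16791176) (l 16790776)))))))) (a (l 6) (c (a (a (l 6) (b (b (l 16721528) (l 16712624)) (l 6))) (a (b (b (b (l 16756056) (l 16757280)) (l 16717200)) (b (c (l 16756328) (l 16767520)) (l 6))) (b (b (b (l 16759936) (l 16761472)) (l 16763736)) (b (c (l 16761336) (l 16771464)) (c (b (l 16764032) (l 16765704)) (l 16771968)))))) (b (a (a (l 6) (b (b (l 16797112) (l 16794104)) (l 16768560))) (b (b (a (l 16796640) (l 16796552)) (l 16795424)) (a (l 16749248) (l 16792920)))) (a (l 6) (a (b (l 16765464) (l 6)) (b (l 16788616) (b (l 16785192) (l 16782864)))))))))), by decide +kernel⟩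

def k5_A00pm_123_s3 : ∃ t, chk3 f_A00pm_123_s3 t 28 4 1 = true :=
  ⟨(l 4), by decide +kernel⟩

def k6_A00pm_123_s3 : ∃ t, chk3 f_A00pm_123_s3 t 28 10 1 = true :=
  ⟨(a (b (l 4) (b (a (l 537364495) (l 4)) (a (b (c (l 537660943) (l 537147407)) (c (c (l 537558799) (l 537302287)) (c (l 537307407) (l 537037327)))) (a (a (b (a (c (l 537731599) (l 537212687)) (l 4)) (c (l 537515791) (l 537256719))) (b (l 4) (l 537285903))) (b (l 4) (c (l 537862415) (l 537329167))))))) (l 4)), by decide +kernel⟩

def k7_A00pm_123_s3 : ∃ t, chk3 f_A00pm_123_s3 t 56 11 1 = true :=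
  ⟨(b (a (b (a (c (l 537744911) (l 537222415)) (c (a (l 537797903) (l 537834511)) (a (l 537276175) (l 537314575)))) (a (c (l 16775664) (l 16771016)) (c (l 537922575) (l 537412367)))) (c (b (a (l 537883407) (l 537945359)) (a (l 537987087) (l 538048271))) (a (b (l 537361423) (l 537474063)) (l 537207311)))) (b (a (c (a (l 16790744) (l 16779584)) (a (l 16784512) (l 16774016))) (b (c (l 538089743) (l 537580815)) (c (l 538133263) (l 537629199)))) (a (a (l 16791232) (l 16790920)) (c (a (l 16793512) (l 16771496)) (a (l 16787144) (l 16776208)))))), by decide +kernel⟩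

def k8_A00pm_123_s3 : ∃ t, chk3 f_A00pm_123_s3 t 57 11 1 = true :=
  ⟨(b (a (c (b (c (l 537628943) (l 537636367)) (a (l 538107407) (l 537627919))) (a (b (l 537472527) (l 537583375)) (b (l 537255951) (l 537634319)))) (c (b (a (c (l 537850127) (l 537718031)) (l 4)) (a (c (l 538082575) (l 537820687)) (a (c (l 538124815) (l 537859855)) (b (l 4) (c (l 538444047) (l 538178063)))))) (a (b (c (l 537713423) (l 537433103)) (c (l 537820175) (l 537543951))) (b (l 4) (a (c (l 537856271) (l 537576719)) (b (l 4) (c (l 537904655) (l 537624079)))))))) (a (c (b (b (a (l 538177039) (c (l 538360335) (l 538105615))) (a (l 16782736) (l 537739023))) (b (a (l 16790272) (l 16783624)) (l 537949455))) (b (b (a (l 537659919) (b (l 537697551) (l 537721871))) (a (l 537707023) (l 537487887))) (b (a (l 16785440) (l 16779416)) (l 537188879)))) (b (c (c (b (a (b (l 538406927) (l 538427919)) (b (b (l 538457615) (l 538199823)) (a (l 538469647) (l 538497551)))) (a (l 538457615) (b (l 538504207) (l 538520847)))) (b (a (b (l 538147855) (l 538170127))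 (b (b (l 538194191) (l 538205455)) (a (l 538208783) (l 538234383)))) (a (l 537933071) (b (l 538243343) (l 538261263))))) (b (a (b (c (l 537881359) (l 537607695)) (c (l 537904655) (l 537632015))) (b (b (c (l 537923343) (l 537645071)) (c (l 537935119) (l 537657359))) (a (c (l 537940239) (l 537664271)) (c (l 537963535) (l 537685519))))) (a (b (l 537792527) (l 537813263)) (b (a (l 537826319) (l 537848335)) (a (l 537846287) (l 537867791)))))) (a (b (c (l 538330383) (l 537813263)) (c (l 16783864) (l 537770511))) (b (c (b (l 538116623) (l 538089487)) (b (a (l 16777352) (l 537864975)) (l 537837839))) (c (a (l 16787840) (l 16781712)) (b (l 16778304) (l 16773520)))))))), by decide +kernel⟩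

def k9_A00pm_123_s3 : ∃ t, chk3 f_A00pm_123_s3 t 28 6 1 = true :=
  ⟨(b (a (b (a (b (l 16793024) (l 16793304)) (b (a (l 16792328) (l 16791600)) (l 16792312))) (b (a (l 16792312) (l 16791368)) (a (l 16770000) (l 16747920)))) (b (a (b (c (a (l 16793784) (l 16792424)) (b (l 16776416) (l 16787240))) (a (l 16791056) (l 16790000))) (b (a (b (c (l 16790400) (l 16785584)) (l 16788616)) (b (c (l 16788712) (l 16774032)) (c (l 16789504) (l 16784800)))) (a (c (l 16791648) (l 16785704)) (c (l 16790104) (l 16784736))))) (b (a (c (l 16793200) (l 16785744)) (c (l 16769816) (l 16784352))) (a (l 16788528) (l 16787224))))) (a (b (b (a (b (a (b (l 16790328) (l 16789496)) (l 16769056)) (c (l 16792480) (l 16762856))) (b (l 16789080) (a (b (l 16788880) (l 16787952)) (l 16767416)))) (a (b (l 16765560) (l 16742736)) (b (a (l 16744696) (l 16744952)) (l 16763960)))) (c (b (b (l 16762240) (l 16737432)) (b (l 16733984) (l 16751592))) (b (a (l 16741104) (l 16740168)) (a (l 16739464) (l 16739008))))) (b (b (a (b (l 16787992) (l 16767096))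 (l 16745832)) (a (b (a (b (l 16787680) (l 16787080)) (l 16767064)) (l 16765400)) (b (b (l 16788480) (l 16768088)) (a (l 16766936) (b (l 16789632) (l 16789144)))))) (b (a (b (l 16742776) (l 16741016)) (b (l 16787400) (l 16764824))) (a (c (l 16737416) (l 16739528)) (b (l 16742192) (l 16740536))))))), by decide +kernel⟩

def k10_A00pm_123_s3 : ∃ t, chk3 f_A00pm_123_s3 t 28 14 1 = true :=
  ⟨(b (c (a (b (a (b (l 16767912) (l 16764760)) (b (l 16771008) (l 16768152))) (a (b (l 16762288) (l 16760744)) (b (l 16765944) (l 16764656)))) (b (a (b (l 16775024) (l 16772384)) (b (l 16779896) (l 16777344))) (a (b (l 16770440) (l 16769272)) (b (l 16775256) (l 16773992))))) (a (b (a (l 16759008) (l 16758808)) (a (l 16759288) (l 16759296))) (b (a (l 16759496) (l 16760984)) (a (l 16760112) (b (l 16781840) (l 16782728)))))) (c (b (a (a (b (l 16760064) (l 16760160)) (b (l 16764264) (l 16764496))) (a (b (l 16768760) (l 16768896)) (b (l 16773224) (l 16772944)))) (a (a (b (l 16761008) (l 16762328)) (b (l 16765192) (l 16766416))) (a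 (l 16738352) (l 16794328)))) (b (a (a (a (l 16742056) (l 16741944)) (a (l 16742064) (l 16742256))) (a (b (l 16783408) (l 16785824)) (l 16764192))) (a (a (l 16790536) (b (l 16788504) (l 16792096))) (a (l 16769296) (l 16769080)))))), by decide +kernel⟩

def k11_A00pm_123_s3 : ∃ t, chk3 f_A00pm_123_s3 t 28 15 1 = true :=
  ⟨(c (a (b (b (a (b (l 16763848) (l 16765544)) (l 16736928)) (c (l 16763976) (l 16775472))) (b (b (l 16771408) (a (l 16770712) (l 16774024))) (b (a (l 16771712) (l 16775104)) (c (a (l 16780312) (l 16773856)) (a (l 16775416) (l 16778864)))))) (b (a (b (l 16740144) (l 16774192)) (b (b (l 16774056) (l 16774720)) (l 16776624))) (b (a (b (l 16775952) (l 16777200)) (b (l 16778888) (l 16780432))) (b (a (l 16778512) (l 16782304)) (c (a (l 16777944) (l 16782344)) (l 16784448)))))) (b (a (b (b (c (l 16745856) (l 16783304)) (l 16796984)) (c (l 16788080) (l 16801824))) (b (c (b (l 16788768) (l 16790688)) (a (l 16761216) (l 16759720))) (a (l 16795872) (l 16775136)))) (b (a (a (l 16790440) (l 16770664)) (a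 (b (l 16793688) (l 16792376)) (b (l 16794840) (l 16794096)))) (a (a (b (l 16787360) (l 16785184)) (b (l 16789176) (l 16808616))) (a (b (l 16791184) (l 16790360)) (b (l 16793752) (l 16793616))))))), by decide +kernel⟩

def k12_A00pm_123_s3 : ∃ t, chk3 f_A00pm_123_s3 t 29 4 1 = true :=
  ⟨(l 4), by decide +kernel⟩

def k13_A00pm_123_s3 : ∃ t, chk3 f_A00pm_123_s3 t 29 10 1 = true :=
  ⟨(l 4), by decide +kernel⟩

def k14_A00pm_123_s3 : ∃ t, chk3 f_A00pm_123_s3 t 58 22 1 = true :=
  ⟨(a (b (l 4) (b (l 4) (a (c (a (c (l 538203407) (l 537935375)) (a (c (l 538291215) (c (l 538290703) (l 538153999))) (l 4))) (a (c (l 537928207) (l 537645071)) (a (c (l 537961999) (l 537660431)) (l 4)))) (l 4)))) (l 4)), by decide +kernel⟩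

def k15_A00pm_123_s3 : ∃ t, chk3 f_A00pm_123_s3 t 232 46 2 = true :=
  ⟨(b (a (b (c (b (b (l 538496271) (l 538233359)) (a (l 538502671) (l 538247951))) (b (b (l 538229263) (l 538234895)) (a (l 538236943) (l 538249487)))) (a (b (l 538045711) (l 538123279)) (c (l 538245647) (l 538265871)))) (b (c (a (b (c (l 538334735) (l 538319119)) (b (a (l 538518031) (l 538243343)) (l 538242575))) (b (a (b (l 538244879) (c (a (l 538459151) (l 538321679)) (l 538365199))) (b (l 4) (c (l 538384143) (l 538338575)))) (a (a (l 538236687) (l 538233615)) (l 538497295)))) (a (b (c (l 538318863) (l 538182671)) (b (a (l 538256143) (l 538262543)) (l 538264847))) (b (a (b (l 538257679) (a (c (l 538329615) (l 538193167)) (c (l 538332943) (l 538196239)))) (b (l 4) (c (l 538337551) (l 538200847)))) (a (c (l 538339343) (l 538202895)) (l 538277647))))) (a (c (a (l 538236175) (l 538230031)) (b (l 538071567) (l 538283535))) (a (c (l 538223887) (l 538287631)) (l 538160911))))) (a (b (c (l 538505743) (l 538280719)) (b (l 538159887) (l 538429967)))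 (b (a (l 538165007) (l 538178063)) (a (l 538448911) (l 538461199))))), by decide +kernel⟩

def k16_A00pm_123_s3 : ∃ t, chk3 f_A00pm_123_s3 t 232 46 3 = true :=
  ⟨(b (a (c (b (b (b (l 537954831) (l 537960719)) (a (l 537963535) (l 537975055))) (a (l 537980687) (l 537992207))) (b (b (b (l 537672975) (l 537679119)) (a (l 537682959) (l 537693199))) (a (l 537700879) (l 537710863)))) (a (b (c (b (b (l 537971983) (c (l 538047503) (l 537907471))) (b (a (l 537980687) (l 537986319)) (l 537989391))) (b (b (l 537688079) (c (l 537765903) (l 537622031))) (b (a (l 537697807) (l 537702671)) (l 537706255)))) (c (a (l 538000655) (l 538006287)) (a (l 537718543) (l 537723407)))) (a (b (b (c (b (l 537980431) (a (l 537967887) (c (l 538057487) (b (l 537915663) (l 537918479))))) (b (l 537695759) (b (c (l 537772047) (l 537627919)) (a (l 537701903) (l 537704463))))) (c (a (l 537993487) (l 537996303)) (a (l 537709327) (l 537711887)))) (c (l 538011919) (l 537728271))) (b (b (b (l 4) (b (b (l 4) (c (l 537991183) (l 537705999))) (l 537851663)))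 (l 537859087)) (l 537876239))))) (a (b (c (l 538008847) (l 537729039)) (a (l 537883407) (l 537893647))) (a (b (l 537885711) (l 537903887)) (b (l 537896207) (l 537913615))))), by decide +kernel⟩

def k17_A00pm_123_s3 : ∃ t, chk3 f_A00pm_123_s3 t 233 46 1 = true :=
  ⟨(b (a (c (a (b (b (l 4) (l 538154767)) (l 538170639)) (b (b (l 4) (c (l 538206991) (l 538299407))) (l 538183695))) (b (b (l 4) (c (l 538014479) (l 537728015))) (c (l 538031375) (l 537745679)))) (b (l 4) (c (a (c (l 538183695) (l 538059535)) (b (l 4) (l 538214671))) (b (c (l 538047759) (l 537758991)) (c (l 538058767) (l 537770511)))))) (c (b (a (l 538197519) (l 538223375)) (a (l 538210575) (b (l 538236175) (l 538227471)))) (b (c (l 538064655) (l 537778447)) (a (l 537927951) (b (l 537946639) (l 537941775)))))), by decide +kernel⟩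

def k18_A00pm_123_s3 : ∃ t, chk3 f_A00pm_123_s3 t 116 47 1 = true :=
  ⟨(a (c (b (a (b (l 538416399) (l 16779456)) (b (l 538435343) (l 538392079))) (a (l 538306319) (l 538307855))) (b (a (b (l 537881871) (l 16776856)) (b (l 537896719) (l 537864207))) (a (l 537798671) (l 537798415)))) (b (a (c (l 538157071) (l 537620751)) (b (c (l 538190351) (l 537913615)) (c (l 538393871) (l 537862415)))) (a (l 537647887) (c (l 538290191) (l 537779215))))), by decide +kernel⟩

def k19_A00pm_123_s3 : ∃ t, chk3 f_A00pm_123_s3 t 117 23 1 = true :=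
  ⟨(b (b (l 4) (a (c (a (b (c (b (l 538210575) (l 538137103)) (l 538110735)) (b (c (a (l 538126863) (l 538129167)) (l 538194959)) (a (l 538236943) (l 538095631)))) (b (l 4) (c (b (a (a (l 538132239) (l 538132239)) (b (l 4) (l 538145039))) (l 538184719)) (a (l 538186255) (b (l 538148879) (l 538387215)))))) (b (a (c (l 538096399) (l 537805839)) (l 4)) (a (b (c (l 537845519) (l 537824015)) (a (l 537948175) (l 537538575))) (a (c (b (l 538119183) (l 538092815)) (l 537816079)) (c (b (l 538131983) (l 538105615)) (l 537827087)))))) (b (l 4) (b (l 4) (a (a (a (c (l 538268943) (l 537970959)) (l 4)) (l 4)) (l 4)))))) (a (b (a (c (b (a (l 538455823) (l 538183183)) (l 538385679)) (b (a (l 537909519) (l 537904911)) (l 537853199))) (c (c (l 538234639) (l 538037519)) (c (l 538033423) (l 537753103)))) (c (a (l 538296847) (l 538185999)) (a (l 537782543) (l 537799951)))) (c (b (b (b (a (c (l 538303759) (l 538112527)) (l 4)) (a (l 538235663) (a (a (l 538241295) (l 538250767)) (l 4)))) (a (l 538173455) (c (a (l 538333455) (l 538353935))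 (a (l 538334223) (l 538084111))))) (a (c (l 538480911) (l 538225167)) (c (l 538386447) (b (l 538287631) (l 538233871))))) (c (b (a (b (l 538086671) (l 538035215)) (b (a (l 538109199) (l 4)) (l 538065935))) (a (l 537960975) (l 537992207))) (b (a (l 537843471) (b (a (l 537818127) (l 4)) (l 537780239))) (a (l 537688591) (l 537715471))))))), by decide +kernel⟩

def k20_A00pm_123_s3 : ∃ t, chk3 f_A00pm_123_s3 t 59 11 1 = true :=
  ⟨(b (l 4) (b (l 4) (a (a (b (b (l 4) (b (l 4) (a (a (c (c (l 538359823) (l 538357519)) (l 538069775)) (l 4)) (l 4)))) (c (a (c (b (a (l 538582543) (l 538336527)) (l 538534671)) (b (b (l 538071567) (l 538312975)) (l 538273039))) (c (b (b (l 4) (a (l 538345231) (l 538504207))) (b (l 538462479) (l 538299407))) (b (b (l 4) (a (l 538344207) (l 538500367))) (c (l 538383119) (l 538247439))))) (c (a (a (l 538017295) (l 538102287)) (b (b (l 4) (l 538075663)) (l 538040079))) (a (l 537795087) (b (a (l 537789455) (l 537806095)) (l 537755919)))))) (b (l 4) (a (b (l 4) (a (c (b (c (l 538500367) (l 538362639))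 (c (l 538337551) (l 538336527))) (c (l 538070031) (l 537781775))) (a (b (l 4) (c (c (l 538357519) (l 538354447)) (l 537930511))) (l 4)))) (l 4)))) (l 4)))), by decide +kernel⟩

def k21_A00pm_123_s3 : ∃ t, chk3 f_A00pm_123_s3 t 58 6 1 = true :=
  ⟨(b (b (a (b (a (b (c (l 538184975) (l 537700879)) (c (l 16782536) (l 16778440))) (b (c (l 538168079) (l 537681935)) (c (l 538055439) (l 537590031)))) (a (b (c (l 16788352) (l 16783768)) (l 16775752)) (c (b (l 16781720) (l 16787576)) (l 537197071)))) (b (b (a (a (c (l 538181135) (l 537689359)) (c (l 538209551) (l 537710863))) (c (c (l 538386191) (l 538138895)) (c (l 537883407) (l 537619727)))) (a (c (a (l 538076431) (l 538106639)) (l 537615631)) (c (c (l 538011407) (l 538041871)) (b (l 537689615) (l 537649423))))) (a (b (c (l 537995791) (l 537536527)) (c (l 16781400) (l 16782600))) (b (c (c (l 538181903) (l 537951759)) (l 537592079)) (c (l 537981199) (l 537519887)))))) (a (b (a (c (l 16789120) (l 16783400)) (c (l 16777864) (l 16783072))) (b (l 16765416) (l 16786928)))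 (b (a (b (l 537615631) (l 16785560)) (b (c (l 16781440) (l 16782560)) (l 537639695))) (a (b (l 16786232) (l 16787072)) (b (l 16786216) (l 16787256)))))) (b (a (b (l 16788136) (b (l 16789720) (a (l 16769704) (l 16791360)))) (b (a (l 16788720) (l 16768224)) (b (l 16791104) (l 16771808)))) (b (a (b (c (l 16774360) (c (l 16767104) (l 16762056))) (c (l 16793240) (l 16785672))) (b (a (b (l 16793248) (l 16793624)) (l 16794656)) (c (a (l 16797600) (l 16800176)) (a (l 16787800) (l 16789120))))) (a (c (l 16768304) (l 16764120)) (b (a (l 16791144) (l 16793344)) (l 16790352)))))), by decide +kernel⟩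

def k22_A00pm_123_s3 : ∃ t, chk3 f_A00pm_123_s3 t 118 24 1 = true :=
  ⟨(b (b (a (c (c (a (l 538450447) (a (l 538485775) (l 538443791))) (a (l 538196239) (b (l 538264335) (l 538214671)))) (a (l 538067727) (b (l 538124047) (l 537813519)))) (c (c (a (b (c (l 538642959) (l 538243343)) (l 538255119)) (b (a (c (l 538685199) (l 538417679)) (b (l 4) (c (l 538700815) (l 538566671)))) (c (l 538645263) (l 538513679)))) (a (b (a (l 538298639) (l 538322703)) (l 538261519)) (b (b (a (l 538360079) (l 4)) (a (l 538335247) (l 538361103))) (a (l 538298639) (l 538324751))))) (a (b (a (l 537883663) (l 538037775)) (l 538120463)) (a (b (b (l 538068751) (l 537913359)) (l 537882383)) (b (b (l 4) (l 538069007)) (l 538038031)))))) (c (c (a (b (l 538126863) (l 538344975)) (b (a (l 538471695) (b (l 538540815) (l 538515471))) (a (l 538422031) (l 538478863)))) (a (b (l 538145551) (l 538099471)) (b (a (l 538214159) (b (l 538276367) (l 538253327))) (a (l 538168591) (l 538219535))))) (a (b (l 537923087) (l 537715727)) (b (a (l 537811471)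 (b (l 537862927) (l 537843215))) (a (l 537772303) (l 538082575)))))) (a (b (c (c (l 537870863) (l 538033935)) (a (l 537640719) (l 537677071))) (c (l 538069775) (l 537588239))) (b (c (a (b (l 538250511) (l 538206735)) (b (c (l 538431503) (l 538176015)) (l 538261519))) (a (l 537984783) (b (l 537776911) (l 537740815)))) (a (c (l 538144783) (l 537646351)) (c (l 538199823) (l 537689359)))))), by decide +kernel⟩

def k23_A00pm_123_s3 : ∃ t, chk3 f_A00pm_123_s3 t 119 48 1 = true :=
  ⟨(a (b (b (l 4) (a (a (c (c (c (l 538690831) (l 538556943)) (l 538486031)) (b (l 538070287) (l 537915919))) (b (l 4) (c (c (c (l 538709263) (l 538574607)) (l 538367759)) (l 538073103)))) (l 4))) (c (a (b (b (c (c (l 538398991) (l 538534415)) (l 538330639)) (c (c (l 538641679) (l 538509839)) (l 538307599))) (c (a (l 538523663) (b (l 538567183) (l 538543119))) (a (l 538259983) (l 538288143)))) (a (b (c (c (b (a (l 538707983) (l 538590479)) (a (l 538682383) (l 538699279))) (b (l 538581007) (l 538556431))) (b (a (l 538365967) (l 538380815))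 (a (l 538343183) (l 538358031)))) (c (a (l 538579215) (l 538595855)) (l 538317327))) (b (b (l 4) (c (b (c (l 538597135) (l 538595087)) (l 538382863)) (l 538514703))) (c (b (l 538364687) (l 538609167)) (l 538347279))))) (b (a (b (l 538075151) (a (l 537876239) (l 538167823))) (c (a (b (l 538088463) (l 538202127)) (b (l 4) (l 538094351))) (b (a (l 537794575) (l 4)) (a (l 537910287) (l 537798927))))) (a (a (l 538115855) (b (l 537880079) (l 537861135))) (a (b (l 538038287) (l 537885199)) (l 538053647)))))) (b (l 4) (b (l 4) (a (c (a (c (c (l 538589199) (l 538587151)) (l 538378511)) (b (l 4) (c (c (l 538747919) (l 538610447)) (l 538399759)))) (a (c (l 538091791) (l 537795855)) (b (l 4) (l 538062607)))) (l 4))))), by decide +kernel⟩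

def k24_A00pm_123_s3 : ∃ t, chk3 f_A00pm_123_s3 t 119 49 1 = true :=
  ⟨(a (b (a (c (a (b (l 538347791) (l 538304527)) (c (l 538217231) (l 538224399))) (b (a (l 537810191) (l 537833487)) (l 537786127))) (c (b (c (a (l 538540815) (l 538574607)) (l 538356751)) (c (l 538513423) (l 538248719))) (a (b (l 537857551) (l 537821967)) (l 537982223)))) (c (a (c (l 538384399) (l 538131215)) (c (l 538450703) (l 538190863))) (a (l 537735183) (l 537918479)))) (c (b (c (c (b (a (l 538426127) (a (l 538482191) (b (l 4) (l 538778127)))) (a (l 538649615) (l 538457103))) (a (b (l 538559503) (l 538516239)) (b (a (l 538612751) (b (l 4) (l 538638607))) (l 538588431)))) (a (b (a (l 538336015) (l 538368015)) (l 538311439)) (a (b (l 538401295) (l 538360847)) (b (b (l 4) (l 538425103)) (l 538395151))))) (c (a (l 538252559) (b (l 538347023) (l 538575887))) (a (l 538254095) (b (l 538339599) (l 538302991))))) (c (b (a (b (l 538067471) (l 538030351)) (b (a (l 538110735) (b (l 4) (l 538131727))) (a (l 538074127) (l 538104335)))) (a (l 537977871)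 (b (l 538054159) (l 538020623)))) (b (a (b (l 537773583) (l 537740303)) (b (a (l 537810959) (b (l 4) (l 537828879))) (l 537724175))) (a (l 537692687) (b (l 537759503) (l 537729039))))))), by decide +kernel⟩

def k25_A00pm_123_s3 : ∃ t, chk3 f_A00pm_123_s3 t 59 25 1 = true :=
  ⟨(b (a (a (b (c (l 537995023) (l 537524495)) (c (l 16781920) (l 16782864))) (b (a (c (l 538071311) (l 537583887)) (c (l 538127887) (l 537627663))) (c (l 537800463) (l 537574415)))) (c (b (a (a (l 538188047) (b (l 538265871) (l 538241551))) (b (a (l 538333455) (l 537868303)) (a (l 538311439) (l 538117647)))) (a (a (l 538163983) (l 538234127)) (a (l 538310159) (l 537855503)))) (b (a (a (l 537674767) (l 537724943)) (b (a (l 537789711) (l 537845775)) (a (l 537769231) (l 537827343)))) (a (a (l 537648143) (l 537702671)) (a (l 537761551) (l 537825295)))))) (a (a (b (l 536910351) (l 16766408)) (b (c (l 16777704) (l 16783584)) (b (l 16776520) (l 16766816)))) (a (b (a (l 537648911) (l 537180943)) (c (l 16779248) (l 16774216))) (b (c (a (l 16781728)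 (l 538162703)) (a (l 537773583) (l 537844495))) (c (l 538302223) (l 537301263)))))), by decide +kernel⟩

def k26_A00pm_123_s3 : ∃ t, chk3 f_A00pm_123_s3 t 59 13 1 = true :=
  ⟨(b (a (b (a (b (l 16788808) (l 16790416)) (b (l 16768080) (l 16769904))) (a (l 16751256) (l 16772848))) (b (a (b (a (l 16768176) (l 16768160)) (l 16770136)) (b (c (l 16781136) (l 537868047)) (l 537147919))) (a (c (l 16798424) (l 16789856)) (b (l 16772176) (l 16774208))))) (a (b (b (l 16775032) (a (c (l 16781432) (l 16790840)) (l 16776688))) (a (c (l 16799016) (l 16789688)) (b (c (l 16781872) (l 16791256)) (l 16795232)))) (c (b (l 16802720) (b (a (l 16783744) (l 16805128)) (a (l 16802456) (c (l 16786192) (l 16780528))))) (b (l 16771256) (b (a (l 16792728) (l 16793272)) (a (l 16791608) (b (l 16793064) (l 16792440)))))))), by decide +kernel⟩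

def k27_A00pm_123_s3 : ∃ t, chk3 f_A00pm_123_s3 t 29 14 1 = true :=
  ⟨(a (b (b (b (a (c (l 16785088) (l 16784128)) (l 16767336)) (a (c (l 16782424) (l 16783528)) (l 16775720))) (a (c (b (l 16780072) (l 16778392)) (l 16762520)) (c (b (l 16784512) (l 16782504)) (l 16763712)))) (b (a (c (b (l 16777296) (l 16776680)) (l 16764672)) (c (b (l 16781080) (l 16780144)) (b (l 16785496) (l 16786744)))) (a (c (l 16797568) (l 16768824)) (c (b (l 16779448) (l 16779344)) (a (l 16789432) (l 16747464)))))) (b (a (b (c (b (l 16795200) (l 16791736)) (b (l 16788400) (l 16787008))) (c (b (l 16788704) (l 16786368)) (b (l 16786040) (l 16785784)))) (b (b (c (a (l 16798720) (l 16801024)) (l 16790552)) (c (l 16806536) (l 16767816))) (b (c (l 16813640) (l 16776968)) (a (l 16787832) (a (l 16788696) (l 16789304)))))) (b (b (a (c (l 16784608) (l 16786152)) (a (l 16765856) (c (l 16788856) (l 16787168)))) (a (a (l 16784624) (l 16764520)) (a (l 16765552) (c (l 16787496) (l 16787912))))) (a (c (b (l 16782552) (l 16782248)) (a (l 16768424) (l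 16768688))) (c (b (a (l 16784984) (l 16786832)) (a (l 16784832) (l 16786720))) (b (l 16773352) (l 16780656))))))), by decide +kernel⟩

def k28_A00pm_123_s3 : ∃ t, chk3 f_A00pm_123_s3 t 29 15 1 = true :=
  ⟨(b (a (a (b (c (b (l 16776680) (l 16777048)) (b (l 16793328) (l 16775032))) (b (c (l 16778152) (l 16796648)) (l 16808680))) (b (c (b (l 16779392) (l 16779560)) (c (l 16790184) (l 16756168))) (b (a (l 16787952) (l 16830760)) (c (l 16782872) (l 16797536))))) (c (b (a (b (l 16782384) (l 16782744)) (c (l 16805216) (l 16767200))) (a (b (l 16783616) (l 16786000)) (b (l 16807936) (l 16789088)))) (b (a (a (l 16772928) (l 16773184)) (b (l 16783088) (l 16775216))) (a (b (l 16818696) (l 16799080)) (b (c (l 16795688) (l 16802200)) (l 16800696)))))) (c (a (a (b (l 16746304) (b (l 16786264) (l 16788552))) (b (b (l 16785272) (l 16787728)) (b (l 16790200) (c (l 16791096) (l 16794536))))) (b (a (b (l 16788680) (l 16791592)) (a (l 16834592) (l 16835944))) (a (b (l 16793936) (c (l 16794344) (l 16797512))) (b (l 16796480) (l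 16808040))))) (b (a (a (b (l 16796224) (l 16796360)) (b (l 16798152) (l 16798872))) (a (b (l 16800240) (l 16801680)) (c (l 16800488) (l 16784848)))) (b (a (a (l 16796656) (l 16799656)) (a (l 16802568) (l 16804304))) (a (a (l 16797048) (l 16800576)) (a (l 16803064) (l 16804104))))))), by decide +kernel⟩

def k29_A00pm_123_s3 : ∃ t, chk3 f_A00pm_123_s3 t 15 2 1 = true :=
  ⟨(l 4), by decide +kernel⟩

def k30_A00pm_123_s3 : ∃ t, chk3 f_A00pm_123_s3 t 60 24 1 = true :=
  ⟨(a (b (l 4) (a (b (a (b (l 4) (c (c (c (a (l 538766607) (b (l 538781967) (l 538760463))) (a (l 538627855) (l 538632463))) (a (l 538414863) (c (l 538558479) (l 538347791)))) (c (a (l 538122511) (b (l 538136591) (l 538118927))) (a (l 537820175) (b (l 537833999) (l 537818127)))))) (a (b (l 4) (b (l 4) (a (a (c (c (l 538694671) (l 538413583)) (l 538107663)) (l 4)) (l 4)))) (l 4))) (c (a (b (c (a (l 538656271) (l 538661135)) (a (l 538376719) (l 538381839))) (c (l 538619663) (l 538343183))) (b (c (a (c (l 538734607) (l 538597647)) (b (a (l 538747919)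 (l 4)) (l 538662671))) (a (l 538387727) (c (l 538414351) (l 538356495)))) (c (a (l 538627599) (l 538633999)) (a (l 538351631) (l 538358287))))) (c (a (b (l 538056975) (l 538057231)) (b (a (l 538099215) (b (l 538114319) (l 538097423))) (a (l 538066191) (l 538072847)))) (a (b (l 537691151) (l 537761551)) (b (a (l 537800975) (b (l 537815567) (l 537800463))) (l 537640463)))))) (b (l 4) (a (a (c (b (a (b (l 4) (c (l 538667535) (l 538390031))) (l 4)) (c (b (l 538650383) (l 538631695)) (b (l 538374159) (l 538356751)))) (b (b (l 4) (c (l 538104591) (l 537807887))) (c (l 538080271) (l 537785615)))) (b (l 4) (c (b (a (c (l 538655759) (l 538379791)) (l 4)) (c (l 538639375) (l 538364687))) (b (c (l 538096143) (l 537800975)) (c (l 538080271) (l 537786383)))))) (a (a (b (l 4) (b (l 4) (c (c (l 538645263) (l 538370831)) (l 538075151)))) (l 4)) (l 4)))))) (l 4)), by decide +kernel⟩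

def k31_A00pm_123_s3 : ∃ t, chk3 f_A00pm_123_s3 t 120 50 2 = true :=
  ⟨(b (c (a (b (a (l 538583567) (b (l 538603279) (l 538588687))) (a (l 538568463) (l 538587919))) (a (b (b (a (l 538613519) (l 538621199)) (a (l 538600463) (l 538610703))) (a (l 538608143) (b (l 538619919) (l 538633743)))) (b (b (b (a (l 538633999) (l 4)) (a (a (l 538622991) (b (l 538631439) (l 538625551))) (b (l 4) (l 538646031)))) (a (a (l 538622479) (l 538631183)) (l 538635535))) (a (l 538644495) (l 538651407))))) (a (b (a (l 538309647) (b (l 538329359) (l 538315791))) (a (l 538294543) (l 538044943))) (b (a (b (a (l 538339855) (l 538348047)) (a (l 538327567) (l 538203407))) (b (a (b (l 538360591) (a (l 538350095) (b (l 538358287) (l 538352655)))) (b (l 4) (b (l 4) (l 538357007)))) (a (c (l 538290191) (l 538083599)) (l 538361871)))) (a (a (l 538332943) (l 538349839)) (a (l 538366735) (l 538374159)))))) (a (a (b (l 538440207) (l 538458895)) (b (l 537931791) (l 538493967))) (a (b (c (l 538382607) (l 538369039)) (l 538260239)) (b (c (l 538400783)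 (l 538387215)) (l 538012175))))), by decide +kernel⟩

def k32_A00pm_123_s3 : ∃ t, chk3 f_A00pm_123_s3 t 120 50 3 = true :=
  ⟨(c (b (a (b (a (l 538026255) (b (l 538045967) (l 538032911))) (a (l 538010895) (l 538029327))) (b (a (b (l 538061071) (a (l 538044943) (l 538054927))) (b (a (b (l 538077199) (a (l 538067471) (l 537936399))) (b (l 4) (c (l 538146575) (l 538003215)))) (a (a (l 538065167) (l 538073103)) (l 538078223)))) (a (b (l 537920271) (l 538059535)) (a (l 538079247) (l 538086927))))) (a (a (l 538018831) (l 538048015)) (a (b (l 538076687) (l 538087183)) (b (l 538095119) (l 538107407))))) (b (a (b (a (l 537733391) (l 537614095)) (a (l 537717775) (l 537735695))) (b (a (b (l 537768463) (a (l 537752847) (l 537762575))) (b (b (a (l 537784335) (l 4)) (a (a (l 537775119) (l 537778703)) (l 537917967))) (a (l 537576207) (l 537785103)))) (a (b (l 537491471) (l 537762575)) (a (l 537781775) (l 537789967))))) (a (a (l 537719823) (l 537477903)) (a (b (l 537774351) (l 537779983)) (b (l 537792783) (l 537799695)))))),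 by decide +kernel⟩

def k33_A00pm_123_s3 : ∃ t, chk3 f_A00pm_123_s3 t 121 50 1 = true :=
  ⟨(b (a (a (b (l 4) (c (c (a (l 538656015) (b (l 4) (l 538665487))) (a (l 538379535) (l 538334479))) (a (b (l 537943823) (l 537948431)) (b (l 4) (l 537954831))))) (l 4)) (l 4)) (b (a (a (c (c (l 538679567) (l 538398991)) (a (l 537955343) (l 537961743))) (c (c (a (l 538685455) (l 538689551)) (a (l 538406415) (l 538411279))) (a (l 537968143) (l 538008079)))) (l 4)) (a (a (c (c (l 538700303) (l 538415375)) (l 537967887)) (c (c (l 538708751) (l 538425615)) (l 538048015))) (a (c (c (b (l 538711055) (l 538721551)) (l 538435343)) (a (l 537990159) (l 537996559))) (l 4))))), by decide +kernel⟩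

def k34_A00pm_123_s3 : ∃ t, chk3 f_A00pm_123_s3 t 60 51 1 = true :=
  ⟨(a (c (b (a (a (l 538229263) (l 537995279)) (a (b (l 538549519) (l 538569743)) (b (l 538299407) (l 538586383)))) (a (a (l 538280207) (l 538576399)) (a (l 538599183) (l 538077199)))) (b (a (a (l 537896975) (l 537926159)) (b (a (l 537945615) (l 537964047)) (a (l 537956111) (l 537973263)))) (a (a (l 537925391) (l 537949967)) (a (l 537971471) (l 537987599))))) (b (a (c (b (a (l 538309391) (c (l 538729487) (l 538441999))) (a (l 538327823) (c (l 538749967) (l 538458127)))) (b (a (l 537977103) (l 537990159)) (a (l 537986319) (l 537999119)))) (a (c (b (c (l 538468623) (l 538451727)) (b (c (l 538752271) (l 538463759)) (l 538081807))) (b (b (l 538000399) (l 538005007)) (b (l 538009615) (l 538014223)))) (c (b (b (a (l 538193935) (l 4)) (a (c (l 538746895) (l 538462223)) (c (a (l 538749199) (l 4)) (l 538466575)))) (a (b (c (l 538757135) (l 538470159)) (l 538624271)) (c (l 538765583) (l 538478863)))) (b (a (b (l 538009615) (l 538014223)) (b (l 4) (a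 (l 538018831) (l 4)))) (a (b (l 538018831) (l 538023439)) (l 538027535)))))) (a (a (c (l 538087183) (l 537732111)) (c (a (l 538362127) (l 538098191)) (b (l 538008335) (l 538017807)))) (a (c (b (b (l 538359311) (l 538099983)) (l 538382351)) (b (a (l 538017551) (l 538023951)) (l 538030351))) (a (c (a (l 538109455) (l 538111247)) (l 538035215)) (c (l 538517007) (l 538041615))))))), by decide +kernel⟩

def k35_A00pm_123_s3 : ∃ t, chk3 f_A00pm_123_s3 t 61 12 1 = true :=
  ⟨(b (l 4) (a (b (l 4) (a (a (b (b (l 4) (c (l 538092815) (l 538037519))) (c (b (l 538647823) (l 538665999)) (l 538051599))) (b (l 4) (c (l 538395663) (l 538064399)))) (a (b (l 4) (c (l 538401551) (l 538077199))) (l 4)))) (l 4))), by decide +kernel⟩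

def k36_A00pm_123_s3 : ∃ t, chk3 f_A00pm_123_s3 t 30 26 1 = true :=
  ⟨(a (b (b (a (a (a (l 537473039) (l 537495567)) (a (l 537515023) (l 537260815))) (a (c (a (l 538660367) (l 538669583)) (a (l 538019087) (l 538031887))) (a (c (l 538409743) (l 538044687)) (c (l 538686223) (l 538057487))))) (a (a (c (l 16782304) (l 16776488)) (c (l 538682383) (l 537751311))) (a (a (c (l 16783312) (l 16779224)) (l 537310991)) (a (c (l 538713871) (l 538063375)) (l 537331727))))) (b (a (a (l 537011727) (c (l 16782528) (l 16776720))) (a (c (l 538738191) (l 537796623)) (c (l 538755343) (l 537553935)))) (a (a (l 16773160) (l 537061903)) (a (c (l 16782376) (l 16776672)) (c (l 538777359) (l 537559823)))))) (a (a (b (b (c (a (l 538693391) (l 538700047)) (a (l 538070031) (l 538082831))) (c (l 538734863) (l 537292047))) (b (c (l 538770191) (l 537847823)) (c (l 538788623) (l 537313295)))) (b (b (c (a (l 538705935) (l 538711055)) (a (l 538095375) (l 538108175))) (c (l 538746895) (l 537317647))) (b (a (l 538461455) (l 538470415)) (a (l 538467599)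 (l 538471695))))) (b (a (b (a (l 537887503) (l 4)) (a (l 538451727) (l 538459919))) (l 4)) (a (b (a (l 538478607) (l 538486543)) (a (l 537933071) (l 537656079))) (a (b (l 538532367) (b (l 538466831) (l 538423823))) (b (l 538534671) (b (l 538484239) (a (l 538432271) (l 538445583))))))))), by decide +kernel⟩

def k37_A00pm_123_s3 : ∃ t, chk3 f_A00pm_123_s3 t 30 27 1 = true :=
  ⟨(a (a (a (b (c (l 16801184) (l 16791760)) (b (l 16798208) (b (l 16777936) (c (l 16804560) (l 16792600))))) (c (b (l 16777640) (l 16801632)) (b (l 16769336) (l 16770280)))) (b (a (b (l 16775952) (l 16771968)) (b (a (l 16769056) (l 16778416)) (l 16774952))) (a (c (l 16798816) (l 16779152)) (b (l 16781056) (c (l 16796416) (l 16787968)))))) (a (b (a (b (c (l 16778840) (l 16774400)) (c (l 16790904) (l 16785560))) (b (a (l 538407439) (l 538397455)) (a (l 16776056) (l 538303247)))) (a (b (c (l 16792296) (l 16765048)) (c (l 16793520) (l 16775816))) (b (a (b (l 16787248) (l 16777216)) (b (l 16775632) (l 16776136))) (c (b (l 16790424) (l 16780632))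 (b (l 16784672) (l 16779680)))))) (b (a (b (a (l 538381327) (l 537425167)) (a (l 537485583) (b (l 538302991) (l 538268431)))) (b (a (b (l 538382863) (l 538341903)) (a (l 537634575) (l 538118159))) (a (c (l 538617103) (a (l 16781064) (l 537954063))) (a (c (l 538627599) (l 537968655)) (c (l 538638863) (l 537985551)))))) (a (b (a (c (l 16787360) (l 16772672)) (c (l 538295567) (b (l 16782232) (l 16782600)))) (a (c (b (l 16788464) (l 16789200)) (b (l 16783624) (l 16783936))) (c (b (l 16787192) (l 16782712)) (b (l 16782952) (l 16778064))))) (b (a (c (b (l 16779112) (l 16779920)) (c (l 16777280) (l 16775680))) (c (b (l 538600207) (l 538582031)) (b (l 537930511) (l 537903887)))) (a (c (c (l 16787264) (b (l 16785080) (l 16785768))) (b (l 537848847) (b (l 16782600) (l 16782792)))) (c (b (c (l 16785464) (l 16778768)) (c (l 16786352) (l 16779480))) (b (a (l 16781856) (l 16776296)) (a (l 16782264) (l 16779344)))))))))), by decide +kernel⟩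

def k38_A00pm_123_s3 : ∃ t, chk3 f_A00pm_123_s3 t 60 14 1 = true :=
  ⟨(b (b (a (c (b (a (l 16781192) (b (l 16786768) (l 16801096))) (a (l 16798224) (l 16777312))) (b (a (l 16791360) (b (l 16791160) (l 16790288))) (c (l 16781008) (l 16776264)))) (b (c (a (b (l 16800136) (a (l 16779792) (l 16799984))) (l 16787088)) (a (b (l 16789680) (a (l 16789832) (l 16789408))) (b (l 16788064) (l 16788112)))) (a (c (a (l 16777352) (b (l 16788560) (l 16797464))) (b (a (l 16789040) (l 16788640)) (l 16788048))) (c (b (a (b (l 16777992) (l 16788104)) (l 16787320)) (a (l 16797552) (b (l 16787288) (l 16797280)))) (b (a (b (l 16788640) (l 16788304)) (l 16787992)) (a (l 16787872) (b (l 16782584) (l 16787648)))))))) (c (a (a (b (l 16794672) (l 16792000)) (b (l 16794928) (l 16792432))) (b (a (b (l 16795864) (l 16794544)) (c (l 16797528) (l 16793536))) (a (l 16793000) (b (l 16794008) (l 16793248))))) (a (a (c (l 16778512) (l 16770288)) (b (l 16787528) (l 16786976))) (a (b (l 16781984) (l 16776440)) (b (a (l 16787152) (l 16781912)) (c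 (l 16788728) (l 16785272))))))) (b (a (c (b (a (l 16790072) (l 16790816)) (a (l 16788920) (l 16789912))) (b (a (l 16787360) (l 16787336)) (a (l 16788288) (l 16788432)))) (b (a (c (l 16791624) (l 16787456)) (c (b (l 16792672) (l 16792264)) (b (l 16787448) (l 16787976)))) (a (c (l 16790936) (l 16788704)) (b (l 16779880) (l 16801208))))) (a (c (b (a (l 16788400) (l 16789600)) (a (l 16788392) (l 16789776))) (b (a (l 16789872) (l 16790160)) (a (l 16792008) (l 16792416)))) (b (a (c (l 16790808) (l 16790552)) (c (l 16792016) (l 16791016))) (c (a (l 16791152) (l 16792496)) (a (l 16792896) (l 16793424))))))), by decide +kernel⟩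

def k39_A00pm_123_s3 : ∃ t, chk3 f_A00pm_123_s3 t 122 28 1 = true :=
  ⟨(b (c (a (b (b (l 16794448) (l 16784608)) (b (l 16785280) (a (b (l 16796992) (b (l 16786712) (l 16786568))) (l 16795904)))) (b (a (l 16782344) (b (l 16780704) (l 16781432))) (c (c (l 16791120) (l 16789328)) (b (l 16780952) (l 16781656))))) (a (b (b (l 16786528) (l 16776224)) (b (l 16781672) (a (b (l 16787464) (a (l 16787536) (l 16787504))) (l 16786928)))) (b (a (l 16780400) (b (l 16784864) (l 16785152))) (b (c (l 16787672) (l 16778480)) (c (l 16782912) (l 16778728)))))) (b (a (a (c (c (l 16787336) (l 16783216)) (c (l 16784112) (b (l 16784816) (l 16784904)))) (c (b (b (c (l 16788144) (l 16783784)) (a (l 16796288) (l 16785784))) (l 16795576)) (b (b (a (l 16782088) (l 16787232)) (a (l 16787272) (l 16781968))) (l 16787176)))) (c (b (a (a (b (l 16795704) (l 16785680)) (l 16795376)) (l 16784000)) (a (b (c (l 16787392) (l 16788512)) (l 16795592)) (b (a (l 16785216) (l 16795096)) (a (l 16785200) (b (l 16785128) (l 16785200)))))) (b (a (b (l 16786776)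 (a (b (l 16787192) (l 16787248)) (l 16786992))) (l 16781192)) (a (b (a (l 16787256) (b (l 16782016) (l 16787256))) (l 16787272)) (b (a (b (l 16787048) (l 16782040)) (l 16786912)) (a (b (l 16782056) (l 16787376)) (b (l 16787304) (a (l 16787392) (l 16787416))))))))) (a (c (c (l 16795888) (l 16792560)) (b (a (l 16787088) (l 16787208)) (a (l 16787288) (l 16787440)))) (c (b (a (l 16795032) (l 16784824)) (a (l 16794448) (l 16794776))) (c (b (l 16789424) (l 16789488)) (b (a (l 16785296) (l 16785416)) (l 16785848))))))), by decide +kernel⟩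

def k40_A00pm_123_s3 : ∃ t, chk3 f_A00pm_123_s3 t 492 28 4 = true :=
  ⟨(b (b (l 16786464) (l 16788200)) (b (b (l 16795040) (l 16785912)) (b (b (a (l 16786896) (l 16797168)) (l 16786640)) (l 16796744)))), by decide +kernel⟩

def k41_A00pm_123_s3 : ∃ t, chk3 f_A00pm_123_s3 t 986 28 8 = true :=
  ⟨(b (b (l 16791312) (l 16793160)) (b (l 16795512) (b (l 16797744) (l 16797800)))), by decide +kernel⟩

def k42_A00pm_123_s3 : ∃ t, chk3 f_A00pm_123_s3 t 1974 28 8 = true :=
  ⟨(c (b (b (l 16791072) (l 16792976)) (b (l 16795376) (b (l 16797680) (l 16798224)))) (c (a (a (c (a (c (b (b (l 16790896) (l 16792744)) (b (l 16795096) (b (l 16797360) (l 16797832)))) (b (b (l 16790824) (l 16792656)) (b (l 16795000) (b (l 16797256) (l 16797728))))) (b (b (l 16790816) (l 16792656)) (b (l 16795000) (b (l 16797256) (l 16797776))))) (a (b (b (l 16790704) (l 16792528)) (b (l 16794848) (b (l 16797096) (l 16797576)))) (c (b (b (l 16790704) (l 16792528)) (b (l 16794856) (b (l 16797096) (l 16797624)))) (b (b (l 16790624) (l 16792440)) (b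 (l 16794760) (b (l 16796992) (l 16797520))))))) (b (b (l 16790672) (l 16792504)) (b (l 16794840) (b (l 16797088) (l 16797656))))) (b (b (l 16790544) (l 16792376)) (b (l 16794712) (b (l 16796960) (l 16797632))))) (a (a (c (a (b (b (l 16790560) (l 16792352)) (b (l 16794656) (b (l 16796888) (l 16797368)))) (b (b (l 16790512) (l 16792312)) (b (l 16794608) (b (l 16796832) (l 16797360))))) (b (b (l 16790384) (l 16792160)) (b (l 16794432) (b (l 16796656) (l 16797152))))) (c (a (c (b (b (l 16790504) (l 16792312)) (b (l 16794616) (b (l 16796848) (l 16797408)))) (b (b (l 16790432) (l 16792224)) (b (l 16794520) (b (l 16796736) (l 16797304))))) (b (b (l 16790424) (l 16792224)) (b (l 16794528) (b (l 16796752) (l 16797352))))) (a (c (b (b (l 16790360) (l 16792136)) (b (l 16794424) (b (l 16796632) (l 16797208)))) (b (b (l 16790280) (l 16792056)) (b (l 16794328) (b (l 16796528) (l 16797104))))) (c (b (b (l 16790312) (l 16792096)) (b (l 16794384) (b (l 16796592) (l 16797200)))) (b (b (l 16790240) (l 16792008)) (b (l 16794280)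 (b (l 16796488) (l 16797096)))))))) (b (b (l 16790248) (l 16792040)) (b (l 16794328) (b (l 16796544) (l 16797224))))))), by decide +kernel⟩

def k43_A00pm_123_s3 : ∃ t, chk3 f_A00pm_123_s3 t 1975 28 8 = true :=
  ⟨(b (b (l 16790424) (l 16792288)) (b (l 16794648) (b (l 16796904) (l 16797800)))), by decide +kernel⟩

def k44_A00pm_123_s3 : ∃ t, chk3 f_A00pm_123_s3 t 493 28 9 = true :=
  ⟨(b (b (l 16789736) (l 16786160)) (b (l 16793576) (b (b (l 16795320) (l 16790824)) (b (l 16790912) (l 16796120))))), by decide +kernel⟩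

def k45_A00pm_123_s3 : ∃ t, chk3 f_A00pm_123_s3 t 246 28 5 = true :=
  ⟨(b (b (a (l 16783656) (b (l 16787496) (l 16788168))) (a (l 16784992) (b (l 16788840) (l 16789592)))) (b (c (a (l 16787816) (l 16786704)) (a (l 16785976) (l 16785032))) (b (a (b (a (l 16793576) (l 16793456)) (l 16793472)) (b (l 16792696) (a (l 16788312) (l 16793192)))) (a (l 16793384) (b (a (l 16793640) (l 16793616)) (l 16793616)))))), by decide +kernel⟩

def k46_A00pm_123_s3 : ∃ t, chk3 f_A00pm_123_s3 t 246 28 3 = true :=
  ⟨(b (b (a (b (l 16784248) (l 16784568)) (b (b (l 16783560) (l 16783736)) (b (l 16783912) (l 16784096)))) (b (a (b (l 16784816) (l 16784992)) (a (l 16784504) (l 16784240))) (a (b (l 16785192) (l 16785448)) (c (l 16786448) (l 16783136))))) (b (a (c (b (l 16787856) (l 16788848)) (b (l 16783984) (l 16779520))) (b (c (l 16787208) (l 16783688)) (c (l 16788168) (l 16784448)))) (a (b (b (a (b (a (l 16782240) (l 16787504)) (l 16787552)) (b (l 16787312) (a (l 16782368) (l 16787552)))) (a (l 16787680) (c (l 16789696) (l 16780376))))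 (c (l 16789832) (l 16786080))) (b (a (b (l 16787224) (b (a (l 16787736) (l 16787600)) (a (l 16787832) (l 16782632)))) (c (l 16789208) (l 16785376))) (b (a (l 16788032) (b (a (b (l 16788000) (l 16788056)) (l 16788024)) (l 16782880))) (l 16783048)))))), by decide +kernel⟩

def k47_A00pm_123_s3 : ∃ t, chk3 f_A00pm_123_s3 t 988 28 4 = true :=
  ⟨(c (b (b (l 16789896) (l 16791768)) (b (l 16783640) (b (l 16796384) (l 16797696)))) (b (b (l 16788784) (l 16790472)) (b (l 16792664) (b (l 16794800) (l 16790840))))), by decide +kernel⟩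

def k48_A00pm_123_s3 : ∃ t, chk3 f_A00pm_123_s3 t 989 28 8 = true :=
  ⟨(a (c (b (b (l 16789632) (l 16791552)) (b (l 16793960) (l 16797200))) (a (b (b (l 16789200) (l 16791024)) (b (l 16793344) (l 16796512))) (c (b (b (l 16789160) (l 16791008)) (b (l 16793352) (l 16796544))) (a (b (b (l 16788936) (l 16790752)) (b (l 16793048) (b (l 16795264) (l 16796968)))) (c (b (b (l 16788920) (l 16790744)) (b (l 16793056) (l 16785720))) (b (b (l 16788792) (l 16790592)) (b (l 16792880) (l 16785528)))))))) (c (b (b (l 16789272) (l 16791200)) (b (l 16793608) (l 16796832))) (a (c (b (b (l 16788984) (l 16790840)) (b (l 16793184) (l 16796360))) (a (c (b (b (l 16788832) (l 16790656)) (b (l 16792968) (l 16785624))) (a (b (b (l 16788728) (l 16790528)) (b (l 16792816) (l 16785456))) (b (b (l 16788688) (l 16790488)) (b (l 16792776) (l 16785408))))) (b (b (l 16788688) (l 16790504)) (b (l 16792800) (l 16785432))))) (b (b (l 16788688) (l 16790528)) (b (l 16792848) (l 16795960)))))), by decide +kernel⟩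

def k49_A00pm_123_s3 : ∃ t, chk3 f_A00pm_123_s3 t 1978 28 9 = true :=
  ⟨(c (a (c (a (c (b (b (l 16788904) (l 16790680)) (b (l 16792944) (l 16790816))) (a (b (b (l 16788792) (l 16790544)) (b (l 16792784) (l 16790640))) (b (b (l 16788752) (l 16790504)) (b (l 16792752) (l 16790600))))) (b (b (l 16788760) (l 16790520)) (b (l 16792776) (l 16790648)))) (b (b (l 16788528) (l 16790248)) (b (l 16792464) (l 16790288)))) (c (b (b (l 16788632) (l 16790400)) (b (l 16792656) (l 16790528))) (b (b (l 16788376) (l 16790096)) (b (l 16792304) (l 16790136))))) (c (a (b (b (l 16788264) (l 16789936)) (b (l 16792104) (l 16789888))) (a (c (a (b (b (l 16788232) (l 16789912)) (b (l 16792096) (l 16795136))) (b (b (l 16788192) (l 16789880)) (b (l 16792056) (l 16795104)))) (a (b (b (l 16788096) (l 16789760)) (b (l 16791920) (l 16794944))) (b (b (l 16788056) (l 16789720)) (b (l 16791880) (l 16794904))))) (b (b (l 16788072) (l 16789744)) (b (l 16791912) (l 16794944))))) (a (a (c (b (b (l 16788096) (l 16789728)) (b (l 16791864) (l 16789624)))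 (b (b (l 16787960) (l 16789568)) (b (l 16791680) (l 16789424)))) (b (b (l 16787952) (l 16789576)) (b (l 16791704) (l 16789456)))) (c (a (b (b (l 16787944) (l 16789584)) (b (l 16791720) (l 16794728))) (a (b (b (l 16787888) (l 16789528)) (b (l 16791664) (l 16794664))) (b (b (l 16787848) (l 16789488)) (b (l 16791632) (l 16794624))))) (b (b (l 16787776) (l 16789392)) (b (l 16791504) (l 16794496))))))), by decide +kernel⟩

def k50_A00pm_123_s3 : ∃ t, chk3 f_A00pm_123_s3 t 1979 28 18 = true :=
  ⟨(a (c (a (c (a (b (b (l 16788600) (l 16790376)) (b (l 16792648) (l 16785264))) (b (b (l 16788560) (l 16790336)) (b (l 16792608) (l 16795704)))) (b (b (l 16788448) (l 16790208)) (b (l 16792448) (l 16795536)))) (c (b (b (l 16788496) (l 16790272)) (b (l 16792544) (l 16795632))) (a (b (b (l 16788392) (l 16790144)) (b (l 16792392) (l 16795464))) (b (b (l 16788344) (l 16790104)) (b (l 16792352) (l 16795408)))))) (a (b (b (l 16788256) (l 16789976)) (b (l 16792192) (l 16795248))) (c (a (b (b (l 16788256) (l 16789992)) (b (l 16792216)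 (l 16795264))) (b (b (l 16788216) (l 16789952)) (b (l 16792176) (l 16795216)))) (b (b (l 16788112) (l 16789824)) (b (l 16792024) (l 16795056)))))) (c (a (b (b (l 16788352) (l 16790120)) (b (l 16792376) (l 16795432))) (b (b (l 16788272) (l 16790040)) (b (l 16792296) (l 16795328)))) (a (c (b (b (l 16788160) (l 16789896)) (b (l 16792120) (l 16795144))) (a (b (b (l 16788048) (l 16789760)) (b (l 16791968) (l 16794976))) (b (b (l 16788016) (l 16789728)) (b (l 16791928) (l 16794920))))) (b (b (l 16788016) (l 16789744)) (b (l 16791960) (l 16794944)))))), by decide +kernel⟩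

def k51_A00pm_123_s3 : ∃ t, chk3 f_A00pm_123_s3 t 1979 28 19 = true :=
  ⟨(a (c (b (b (l 16787952) (l 16789632)) (b (l 16791800) (l 16794824))) (a (c (b (b (l 16787792) (l 16789440)) (b (l 16791576) (l 16794560))) (b (b (l 16787664) (l 16789280)) (b (l 16791400) (l 16794368)))) (b (b (l 16787656) (l 16789288)) (b (l 16791416) (l 16794376))))) (c (a (c (b (b (l 16787904) (l 16789592)) (b (l 16791776) (l 16794760))) (a (b (b (l 16787792) (l 16789464)) (b (l 16791624) (l 16794584))) (b (b (l 16787752) (l 16789424)) (b (l 16791584) (l 16794536))))) (b (b (l 16787760) (l 16789440)) (b (l 16791616) (l 16794560)))) (a (c (b (b (l 16787648) (l 16789288)) (b (l 16791432) (l 16794376))) (b (b (l 16787512) (l 16789136)) (b (l 16791256) (l 16794184)))) (c (b (b (l 16787568) (l 16789216)) (b (l 16791360) (l 16794272))) (b (b (l 16787440) (l 16789064)) (b (l 16791184) (l 16794080))))))), by decide +kernel⟩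

def k52_A00pm_123_s3 : ∃ t, chk3 f_A00pm_123_s3 t 988 28 20 = true :=
  ⟨(b (b (l 16787936) (l 16789480)) (b (l 16791536) (b (l 16793576) (l 16789592)))), by decide +kernel⟩

def k53_A00pm_123_s3 : ∃ t, chk3 f_A00pm_123_s3 t 988 28 21 = true :=
  ⟨(c (a (a (b (b (l 16787704) (l 16789176)) (b (l 16791160) (b (l 16793152) (l 16794264)))) (b (b (l 16787568) (l 16789040)) (b (l 16791024) (b (l 16793024) (l 16794264))))) (a (c (a (c (b (b (l 16787576) (l 16789072)) (b (l 16791072) (b (l 16793080) (l 16794424)))) (b (b (l 16787504) (l 16788984)) (b (l 16790976) (b (l 16792976) (l 16794320))))) (b (b (l 16787472) (l 16788960)) (b (l 16790960) (b (l 16792968) (l 16794360))))) (a (c (b (b (l 16787432) (l 16788904)) (b (l 16790880) (b (l 16792872) (l 16794216)))) (b (b (l 16787360) (l 16788816)) (b (l 16790784) (b (l 16792768) (l 16794104))))) (b (b (l 16787328) (l 16788792)) (b (l 16790768) (b (l 16792760) (l 16794152)))))) (b (b (l 16787296) (l 16788776)) (b (l 16790768) (b (l 16792768) (l 16794224)))))) (a (b (b (l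 16787344) (l 16788768)) (b (l 16790704) (b (l 16792664) (l 16788568)))) (a (c (a (b (b (l 16787248) (l 16788688)) (b (l 16790640) (b (l 16792616) (l 16793944)))) (c (b (b (l 16787224) (l 16788672)) (b (l 16790624) (b (l 16792600) (l 16793992)))) (b (b (l 16787152) (l 16788584)) (b (l 16790528) (b (l 16792496) (l 16793888)))))) (a (b (b (l 16787104) (l 16788520)) (b (l 16790448) (b (l 16792408) (l 16793728)))) (c (b (b (l 16787080) (l 16788504)) (b (l 16790432) (b (l 16792392) (l 16793776)))) (b (b (l 16787008) (l 16788416)) (b (l 16790336) (b (l 16792288) (l 16793672))))))) (c (b (b (l 16787088) (l 16788528)) (b (l 16790488) (b (l 16792456) (l 16793904)))) (a (c (b (b (l 16787016) (l 16788440)) (b (l 16790376) (b (l 16792336) (l 16793768)))) (b (b (l 16786944) (l 16788352)) (b (l 16790280) (b (l 16792232) (l 16793656))))) (b (b (l 16786912) (l 16788336)) (b (l 16790264) (b (l 16792224) (l 16793696))))))))), by decide +kernel⟩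

def k54_A00pm_123_s3 : ∃ t, chk3 f_A00pm_123_s3 t 1978 28 20 = true :=
  ⟨(c (a (a (c (a (b (b (l 16787840) (l 16789424)) (b (l 16791520) (l 16789240))) (b (b (l 16787800) (l 16789392)) (b (l 16791480) (l 16789208)))) (b (b (l 16787680) (l 16789248)) (b (l 16791320) (l 16789016)))) (c (b (b (l 16787752) (l 16789336)) (b (l 16791432) (l 16794400))) (b (b (l 16787608) (l 16789176)) (b (l 16791248) (l 16788952))))) (b (b (l 16787568) (l 16789152)) (b (l 16791232) (l 16788952)))) (a (b (b (l 16787440) (l 16788976)) (b (l 16791008) (l 16788680))) (a (c (b (b (l 16787408) (l 16788952)) (b (l 16791000) (l 16788680))) (b (b (l 16787272) (l 16788792)) (b (l 16790816) (l 16788480)))) (b (b (l 16787264) (l 16788800)) (b (l 16790840) (l 16788504)))))), by decide +kernel⟩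

def k55_A00pm_123_s3 : ∃ t, chk3 f_A00pm_123_s3 t 1979 28 20 = true :=
  ⟨(a (c (a (c (a (b (b (l 16787552) (l 16789144)) (b (l 16791240) (l 16794184))) (b (b (l 16787512) (l 16789104)) (b (l 16791200) (l 16794144)))) (a (b (b (l 16787416) (l 16788984)) (b (l 16791056) (l 16793984))) (b (b (l 16787376) (l 16788952)) (b (l 16791024) (l 16793944))))) (c (b (b (l 16787456) (l 16789056)) (b (l 16791152) (l 16794080))) (b (b (l 16787328) (l 16788896)) (b (l 16790968) (l 16793880))))) (c (a (b (b (l 16787264) (l 16788816)) (b (l 16790864) (l 16793768))) (a (b (b (l 16787208) (l 16788760)) (b (l 16790808) (l 16793704))) (b (b (l 16787176) (l 16788728)) (b (l 16790776) (l 16793656))))) (b (b (l 16787096) (l 16788624)) (b (l 16790648) (l 16793536))))) (c (a (b (b (l 16787320) (l 16788904)) (b (l 16790992) (l 16793888))) (c (b (b (l 16787312) (l 16788912)) (b (l 16791008) (l 16793888))) (a (b (b (l 16787200) (l 16788776)) (b (l 16790848) (l 16793704))) (b (b (l 16787168) (l 16788744)) (b (l 16790816) (l 16793656))))))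 (a (c (b (b (l 16787120) (l 16788672)) (b (l 16790728) (l 16793592))) (b (b (l 16786992) (l 16788520)) (b (l 16790552) (l 16793392)))) (c (a (b (b (l 16787072) (l 16788624)) (b (l 16790672) (l 16793512))) (b (b (l 16787040) (l 16788592)) (b (l 16790640) (l 16793464)))) (b (b (l 16786920) (l 16788456)) (b (l 16790480) (l 16793296))))))), by decide +kernel⟩

def k56_A00pm_123_s3 : ∃ t, chk3 f_A00pm_123_s3 t 989 28 21 = true :=
  ⟨(a (b (b (l 16786960) (l 16788424)) (b (l 16790392) (b (l 16792368) (l 16793920)))) (a (c (b (b (l 16786896) (l 16788384)) (b (l 16790376) (l 16793240))) (a (c (b (b (l 16786728) (l 16788176)) (b (l 16790136) (l 16792968))) (a (b (b (l 16786608) (l 16788032)) (b (l 16789968) (l 16792776))) (b (b (l 16786576) (l 16788008)) (b (l 16789944) (l 16792736))))) (b (b (l 16786592) (l 16788040)) (b (l 16789984) (l 16792784))))) (c (a (c (a (b (b (l 16786880) (l 16788384)) (b (l 16790384) (l 16793216))) (b (b (l 16786840) (l 16788344)) (b (l 16790352) (l 16793168)))) (a (b (b (l 16786744) (l 16788224))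 (b (l 16790208) (l 16793016))) (b (b (l 16786712) (l 16788192)) (b (l 16790176) (l 16792968))))) (b (b (l 16786728) (l 16788224)) (b (l 16790216) (l 16793000)))) (c (b (b (l 16786560) (l 16788024)) (b (l 16789984) (l 16792768))) (b (b (l 16786432) (l 16787864)) (b (l 16789800) (l 16792568))))))), by decide +kernel⟩

def k57_A00pm_123_s3 : ∃ t, chk3 f_A00pm_123_s3 t 988 28 11 = true :=
  ⟨(c (c (c (a (b (b (l 16787120) (l 16788504)) (b (l 16790408) (b (l 16792344) (l 16793488)))) (a (b (b (l 16786928) (l 16788320)) (b (l 16790224) (b (l 16792168) (l 16793504)))) (a (c (b (b (l 16786872) (l 16788272)) (b (l 16790184) (b (l 16792128) (l 16793552)))) (a (b (b (l 16786816) (l 16788200)) (b (l 16790104) (b (l 16792040) (l 16793448)))) (b (b (l 16786784) (l 16788168)) (b (l 16790072) (b (l 16792008) (l 16793448)))))) (b (b (l 16786768) (l 16788168)) (b (l 16790072) (b (l 16792016) (l 16793480))))))) (b (b (l 16786848) (l 16788208)) (b (l 16790088) (b (l 16792016) (b (l 16793168) (l 16793392)))))) (b (b (l 16786624)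 (l 16787952)) (b (l 16789800) (b (l 16791696) (b (l 16792840) (l 16793072)))))) (b (b (l 16786184) (l 16787432)) (b (l 16789208) (b (l 16791056) (b (l 16792176) (l 16792416)))))), by decide +kernel⟩

def k58_A00pm_123_s3 : ∃ t, chk3 f_A00pm_123_s3 t 989 28 22 = true :=
  ⟨(a (c (b (b (l 16786544) (l 16787928)) (b (l 16789832) (b (l 16791768) (l 16793296)))) (a (c (b (b (l 16786392) (l 16787744)) (b (l 16789608) (b (l 16791520) (l 16793016)))) (a (c (b (b (l 16786320) (l 16787648)) (b (l 16789496) (b (l 16791392) (l 16792872)))) (b (b (l 16786248) (l 16787568)) (b (l 16789400) (b (l 16791288) (l 16792760))))) (b (b (l 16786224) (l 16787552)) (b (l 16789392) (l 16786896))))) (b (b (l 16786200) (l 16787544)) (b (l 16789400) (l 16786920))))) (a (c (a (c (a (b (b (l 16786472) (l 16787872)) (b (l 16789792) (l 16792576))) (b (b (l 16786440) (l 16787848)) (b (l 16789760) (l 16792536)))) (b (b (l 16786320) (l 16787696)) (b (l 16789592) (l 16792360)))) (c (b (b (l 16786392) (l 16787800)) (b (l 16789712) (l 16792480)))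 (a (b (b (l 16786272) (l 16787656)) (b (l 16789544) (l 16792296))) (b (b (l 16786240) (l 16787624)) (b (l 16789520) (l 16792248)))))) (b (b (l 16786080) (l 16787432)) (b (l 16789288) (l 16792024)))) (c (b (b (l 16786232) (l 16787632)) (b (l 16789536) (l 16792264))) (a (c (b (b (l 16786056) (l 16787424)) (b (l 16789288) (l 16791992))) (a (b (b (l 16785936) (l 16787280)) (b (l 16789120) (l 16791800))) (b (b (l 16785912) (l 16787248)) (b (l 16789096) (l 16791760))))) (b (b (l 16785936) (l 16787280)) (b (l 16789144) (l 16791800))))))), by decide +kernel⟩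

def k59_A00pm_123_s3 : ∃ t, chk3 f_A00pm_123_s3 t 989 28 23 = true :=
  ⟨(a (c (a (c (a (c (b (b (l 16786176) (l 16787480)) (b (l 16789304) (b (l 16791184) (l 16792656)))) (b (b (l 16786104) (l 16787400)) (b (l 16789208) (b (l 16791080) (l 16792544))))) (b (b (l 16786080) (l 16787384)) (b (l 16789200) (l 16786688)))) (a (c (b (b (l 16786032) (l 16787312)) (b (l 16789112) (b (l 16790976) (l 16792440)))) (b (b (l 16785960) (l 16787232)) (b (l 16789016) (b (l 16790872) (l 16792328))))) (c (b (b (l 16785976) (l 16787256)) (b (l 16789056) (l 16786528))) (b (b (l 16785904) (l 16787176)) (b (l 16788960) (b (l 16790816) (l 16792304))))))) (b (b (l 16785920) (l 16787216)) (b (l 16789024) (l 16786504)))) (a (c (a (b (b (l 16785856) (l 16787104)) (b (l 16788872) (b (l 16790712) (l 16792168)))) (c (b (b (l 16785832) (l 16787088)) (b (l 16788864) (b (l 16790712) (l 16792200)))) (b (b (l 16785760) (l 16787008)) (b (l 16788776) (b (l 16790608) (l 16792088)))))) (b (b (l 16785680) (l 16786912)) (b (l 16788656) (b (l 16790480)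 (l 16791936))))) (c (b (b (l 16785712) (l 16786968)) (b (l 16788744) (l 16786184))) (a (c (b (b (l 16785632) (l 16786872)) (b (l 16788624) (l 16786048))) (b (b (l 16785560) (l 16786792)) (b (l 16788528) (l 16785944)))) (b (b (l 16785544) (l 16786776)) (b (l 16788528) (l 16791184))))))) (b (b (l 16785616) (l 16786888)) (b (l 16788680) (l 16786112)))), by decide +kernel⟩

def k60_A00pm_123_s3 : ∃ t, chk3 f_A00pm_123_s3 t 495 28 2 = true :=
  ⟨(c (c (c (b (b (l 16788384) (b (l 16789800) (l 16790824))) (b (l 16787480) (l 16795864))) (b (b (b (l 16787464) (l 16788368)) (b (l 16789280) (l 16790256))) (b (l 16786856) (l 16795160)))) (b (b (b (l 16786792) (l 16787640)) (b (l 16788480) (l 16789400))) (b (a (l 16786200) (l 16785592)) (l 16788848)))) (c (c (c (b (b (b (l 16786232) (l 16787016)) (b (l 16787808) (l 16788664))) (b (l 16785080) (l 16787936))) (c (b (b (b (l 16786056) (l 16786832)) (b (l 16787600) (l 16788440))) (b (l 16784840) (l 16792896))) (b (b (b (l 16785944) (l 16786704)) (b (l 16787464) (l 16788288)))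 (b (l 16784672) (l 16792712))))) (c (c (b (b (b (l 16785832) (l 16786576)) (b (l 16787320) (l 16788144))) (b (l 16784504) (l 16792528))) (b (b (b (l 16785712) (l 16786448)) (b (l 16787184) (l 16787992))) (b (l 16784336) (l 16792344)))) (b (b (b (l 16785544) (l 16786256)) (b (l 16786976) (l 16787768))) (b (l 16784088) (l 16792064))))) (c (c (b (b (b (l 16785304) (l 16786000)) (b (l 16786696) (l 16787464))) (b (l 16783752) (l 16786440))) (c (b (b (b (l 16785128) (l 16785808)) (b (l 16786488) (l 16787232))) (b (l 16783496) (l 16786152))) (b (b (b (l 16785016) (l 16785680)) (b (l 16786344) (l 16787080))) (b (l 16783328) (l 16785960))))) (c (b (b (b (l 16784840) (l 16785480)) (b (l 16786128) (l 16786848))) (b (b (l 16787768) (l 16788888)) (l 16785680))) (b (b (b (l 16784600) (l 16785224)) (b (l 16785848) (l 16786544))) (b (b (l 16787440) (l 16788528)) (l 16785288))))))), by decide +kernel⟩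

def k61_A00pm_123_s3 : ∃ t, chk3 f_A00pm_123_s3 t 494 28 6 = true :=
  ⟨(c (c (a (b (b (l 16785584) (l 16786736)) (b (l 16788408) (b (l 16790192) (b (l 16791280) (l 16791536))))) (a (c (a (b (b (l 16785464) (l 16786656)) (b (l 16788368) (b (l 16790168) (l 16791608)))) (c (a (c (b (b (l 16785488) (l 16786704)) (b (l 16788432) (l 16785840))) (b (b (l 16785424) (l 16786624)) (b (l 16788336) (l 16785736)))) (b (b (l 16785400) (l 16786608)) (b (l 16788336) (l 16785728)))) (a (b (b (l 16785312) (l 16786496)) (b (l 16788192) (l 16785576))) (b (b (l 16785264) (l 16786448)) (b (l 16788144) (l 16785520)))))) (a (b (b (l 16785176) (l 16786320)) (b (l 16787976) (b (l 16789744) (l 16791168)))) (c (b (b (l 16785144) (l 16786304)) (b (l 16787984) (b (l 16789760) (l 16791232)))) (b (b (l 16785000) (l 16786136)) (b (l 16787792) (b (l 16789552) (l 16791016))))))) (c (b (b (l 16785200) (l 16786400)) (b (l 16788120) (l 16785496))) (a (c (b (b (l 16785040) (l 16786208)) (b (l 16787888) (l 16790464))) (a (c (b (b (l 16784960) (l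 16786104)) (b (l 16787768) (l 16790328))) (b (b (l 16784896) (l 16786024)) (b (l 16787672) (l 16790224)))) (b (b (l 16784880) (l 16786016)) (b (l 16787672) (l 16790208))))) (b (b (l 16784872) (l 16786032)) (b (l 16787696) (l 16790216))))))) (b (b (l 16779536) (b (l 16785544) (l 16786144))) (b (l 16782192) (b (l 16789144) (b (l 16790248) (a (l 16790640) (l 16790688))))))) (b (b (b (l 16783656) (l 16784096)) (b (l 16784536) (l 16785056))) (b (b (l 16785784) (l 16786712)) (b (l 16787840) (b (l 16783656) (a (l 16789272) (l 16789352))))))), by decide +kernel⟩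

def k62_A00pm_123_s3 : ∃ t, chk3 f_A00pm_123_s3 t 495 28 6 = true :=
  ⟨(c (c (c (c (b (b (b (l 16784416) (l 16785024)) (b (l 16785632) (l 16786304))) (b (a (l 16787912) (l 16787512)) (l 16785000))) (b (b (b (l 16784304) (l 16784896)) (b (l 16785488) (l 16786152))) (b (a (l 16787736) (l 16787344)) (l 16784808)))) (b (b (b (l 16784120) (l 16784696)) (b (l 16785264) (l 16785920))) (b (b (l 16786768) (l 16787816)) (l 16784512)))) (c (b (b (b (l 16783880) (l 16784424)) (b (l 16784976) (l 16785600))) (b (b (l 16786424) (l 16787456)) (l 16784120))) (a (b (b (l 16784096) (l 16785160)) (b (l 16786744) (l 16789128))) (b (b (l 16783728) (l 16784816)) (b (l 16786416) (l 16788800)))))) (c (b (b (b (l 16783264) (l 16783752)) (b (l 16784240) (l 16784808))) (a (b (l 16786192) (l 16788512)) (b (l 16780656) (l 16788224)))) (c (b (b (b (l 16782896) (l 16783344)) (b (l 16783792) (l 16784320))) (b (b (l 16785048) (l 16785984)) (l 16782512))) (a (b (b (l 16783016) (l 16783880)) (b (l 16785264) (l 16787464))) (b (b (l 16782728)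 (l 16786240)) (b (l 16785024) (l 16787232))))))), by decide +kernel⟩

def k63_A00pm_123_s3 : ∃ t, chk3 f_A00pm_123_s3 t 247 28 7 = true :=
  ⟨(a (a (b (b (b (l 16782000) (l 16782272)) (b (l 16782544) (l 16782904))) (b (b (l 16783464) (l 16784248)) (b (l 16785224) (b (b (l 16785928) (l 16781024)) (b (a (l 16786448) (l 16786456)) (l 16786640)))))) (b (b (b (l 16781800) (l 16782088)) (b (l 16782376) (l 16782744))) (b (b (l 16783320) (l 16784112)) (b (l 16785096) (b (l 16785960) (b (l 16786472) (a (l 16786664) (l 16786736)))))))) (c (b (b (b (l 16782016) (l 16782376)) (b (b (l 16782648) (l 16782832)) (c (l 16783504) (l 16782840)))) (b (b (c (l 16784168) (l 16783456)) (l 16784664)) (b (l 16785712) (l 16786944)))) (b (b (b (l 16780984) (l 16781240)) (b (b (l 16781432) (l 16781568)) (c (l 16782168) (l 16781488)))) (c (b (b (l 16782736) (l 16783512)) (b (l 16784488) (l 16785648))) (b (b (l 16782008) (l 16782736)) (b (l 16783664) (l 16784776))))))), by decide +kernel⟩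

def k64_A00pm_123_s3 : ∃ t, chk3 f_A00pm_123_s3 t 61 29 1 = true :=
  ⟨(b (a (c (b (a (b (l 16793456) (l 16793152)) (b (l 16794224) (l 16794000))) (a (l 16782496) (b (l 16793920) (l 16793976)))) (b (a (b (l 16787760) (l 16788344)) (b (a (l 16788048) (l 16788256)) (l 16778288))) (a (b (l 16789080) (l 16789960)) (b (l 16789552) (l 16790456))))) (a (b (b (c (a (l 16794768) (l 16784616)) (c (l 16790224) (l 16781632))) (c (l 16784304) (a (l 16789120) (l 16789352)))) (c (b (l 16794776) (l 16794896)) (b (l 16779552) (l 16790968)))) (c (b (b (a (l 16784888) (b (a (l 16784992) (l 16784744)) (a (l 16795592) (l 16785112)))) (l 16784992)) (b (l 16785080) (l 16795696))) (b (b (a (a (l 16778368) (b (l 16788784) (l 16789120))) (b (a (b (a (l 16783528) (l 16788752)) (a (l 16788968) (l 16778480))) (a (l 16783608) (l 16788688))) (a (l 16789224) (b (a (l 16789184) (l 16778744)) (l 16789416))))) (a (l 16779096) (b (l 16789624) (l 16790000)))) (b (a (l 16790400) (l 16790640)) (l 16780960)))))) (a (b (a (c (l 16793176) (l 16791528))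 (c (l 16794272) (l 16781576))) (a (c (l 16793904) (l 16794104)) (c (l 16794976) (l 16794512)))) (b (a (c (l 16784800) (l 16782112)) (c (l 16795888) (b (l 16792360) (l 16793320)))) (c (a (l 16795744) (l 16796176)) (a (l 16794688) (l 16784112)))))), by decide +kernel⟩

def k65_A00pm_123_s3 : ∃ t, chk3 f_A00pm_123_s3 t 30 15 1 = true :=
  ⟨(b (a (b (a (c (b (l 16810432) (l 16789936)) (b (a (l 16794472) (l 16794960)) (l 16786832))) (b (c (a (l 16791728) (l 16793280)) (a (l 16795488) (l 16796144))) (a (l 16816152) (l 16796112)))) (b (a (a (a (l 16836024) (l 16836584)) (l 16816520)) (a (l 16817488) (l 16818168))) (a (c (l 16791952) (l 16791528)) (c (l 16772784) (c (l 16799960) (l 16804584)))))) (c (a (b (b (a (l 16794536) (l 16795544)) (l 16774336)) (b (l 16773856) (a (l 16793968) (l 16793736)))) (c (b (l 16795656) (b (l 16793736) (l 16791832))) (b (l 16796096) (b (l 16795192) (l 16793968))))) (a (b (b (b (l 16775136) (l 16776232)) (l 16777744)) (b (l 16778992) (c (l 16798872) (l 16781568)))) (b (b (c (l 16775248)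 (l 16785880)) (l 16797288)) (a (c (l 16776400) (l 16778872)) (l 16796840)))))) (a (b (c (a (b (l 16794240) (l 16796152)) (b (l 16795032) (l 16795920))) (a (c (l 16780352) (l 16785072)) (c (l 16801088) (l 16784224)))) (b (c (a (l 16797104) (l 16796160)) (a (l 16804088) (l 16802264))) (c (a (c (l 16796088) (l 16798688)) (c (l 16794696) (l 16796984))) (a (l 16803224) (l 16780000))))) (a (c (b (a (l 16773712) (l 16772696)) (b (l 16778272) (c (l 16792296) (l 16794256)))) (b (b (l 16779664) (l 16779216)) (b (l 16788704) (c (l 16796472) (l 16798960))))) (a (b (c (b (l 16792288) (l 16792264)) (c (l 16775264) (l 16778184))) (c (b (l 16791776) (l 16791024)) (b (l 16796272) (l 16794904)))) (b (c (b (l 16790944) (l 16790656)) (b (l 16774840) (l 16795184))) (c (b (l 16790176) (l 16789488)) (b (l 16794192) (l 16792984)))))))), by decide +kernel⟩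

def k66_A00pm_123_s3 : ∃ t, chk3 f_A00pm_123_s3 t 31 12 1 = true :=
  ⟨(l 4), by decide +kernel⟩

def k67_A00pm_123_s3 : ∃ t, chk3 f_A00pm_123_s3 t 124 13 1 = true :=
  ⟨(b (b (l 4) (a (b (l 4) (a (b (l 538244367) (l 538469135)) (l 4))) (l 4))) (b (a (c (b (a (l 538716687) (l 538745871)) (a (l 538660111) (l 538421775))) (b (a (l 537554191) (l 537596175)) (a (b (l 538032143) (l 537998095)) (b (l 538074895) (l 538041615))))) (a (a (b (l 538474767) (b (l 538424847) (l 538128143))) (b (l 4) (b (l 538446863) (l 538150415)))) (b (l 4) (b (l 4) (a (l 538173967) (l 537930255)))))) (a (b (b (a (c (l 538626063) (l 537968143)) (c (l 538657039) (l 538011919))) (a (c (l 538608399) (l 537941775)) (c (l 538371599) (a (l 537973007) (l 537996559))))) (a (c (b (c (l 538752783) (l 538432015)) (c (l 538744079) (l 538151439))) (b (a (l 537907727) (l 537928719)) (a (l 537889295) (l 537910543)))) (c (b (c (l 538781711) (l 538198799)) (a (l 538069775) (c (l 16780680) (l 16779672)))) (a (b (l 537951247) (l 537933071)) (b (l 537975055)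 (l 537957391)))))) (a (b (c (b (l 538692623) (a (l 538664719) (l 538683919))) (a (b (l 538046991) (l 538021647)) (b (l 538073359) (l 538048271)))) (a (c (b (l 538651663) (c (l 538796815) (l 538483983))) (b (l 538000399) (l 537714447))) (c (b (l 538671119) (b (l 538395407) (l 538123279))) (b (l 538027279) (l 538010127))))) (b (b (c (a (l 538720015) (l 538741007)) (a (l 538101007) (l 538130191))) (c (a (l 538704143) (l 538725391)) (a (l 538076175) (l 538105615)))) (b (c (a (l 538423055) (l 538411279)) (a (l 538055439) (l 538085391))) (c (a (c (l 538833423) (l 538528015)) (c (l 538853391) (l 538552079))) (a (b (l 538042127) (l 538034959)) (b (l 538072335) (l 538064911)))))))))), by decide +kernel⟩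

def k68_A00pm_123_s3 : ∃ t, chk3 f_A00pm_123_s3 t 125 13 1 = true :=
  ⟨(b (l 4) (a (b (l 4) (b (a (a (b (c (l 538763023) (l 538160911)) (c (l 538747663) (l 538136591))) (b (l 4) (c (l 538502671) (l 538169103)))) (l 4)) (c (a (c (b (a (l 538880527) (l 538902031)) (a (l 538874127) (b (l 538896911) (l 538894863)))) (b (a (l 538587151) (l 538344463)) (a (b (l 538578959) (l 538574863)) (b (l 538605071) (l 538601231))))) (b (a (a (l 538508559) (l 538521103)) (l 4)) (a (c (b (l 538919439) (l 538917647)) (b (l 538632207) (l 538628623))) (c (b (l 538942991) (l 538739983)) (a (l 538919439) (l 539101455)))))) (a (b (a (b (l 538120975) (l 538111759)) (b (l 538153487) (l 538144527))) (a (b (l 538103823) (l 538365199)) (b (l 538136591) (l 538129935)))) (a (b (b (l 538187535) (l 538178831)) (b (l 538171151) (a (l 538155023) (l 538172431)))) (b (l 4) (b (a (l 538197007) (l 538215439)) (a (l 538190607) (l 538208783))))))))) (b (l 4) (a (a (a (a (b (l 4) (b (l 4) (c (c (l 538956303) (l 538675983)) (b (l 4) (l 538222607)))))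 (l 4)) (l 4)) (l 4)) (l 4))))), by decide +kernel⟩

def k69_A00pm_123_s3 : ∃ t, chk3 f_A00pm_123_s3 t 63 13 1 = true :=
  ⟨(l 4), by decide +kernel⟩

def k70_A00pm_123_s3 : ∃ t, chk3 f_A00pm_123_s3 t 248 56 1 = true :=
  ⟨(b (a (c (b (a (l 538031631) (l 537778703)) (a (c (l 16781904) (l 16785368)) (c (l 538475279) (l 16784848)))) (b (a (l 537606415) (l 537627919)) (a (c (l 16783496) (l 16781528)) (c (l 16783136) (l 16781328))))) (c (b (a (c (l 16784904) (l 16780968)) (c (l 538507279) (l 538456079))) (c (a (l 538490639) (b (l 16782280) (l 16782736))) (a (l 538164239) (b (l 16783600) (l 16783976))))) (b (a (l 537785103) (b (l 537946383) (l 537940751))) (a (b (l 537911311) (l 537638927)) (b (l 537667599) (c (l 16782512) (l 16780976))))))) (c (a (a (b (c (l 16782800) (l 16786088)) (c (l 16789000) (l 16786872))) (b (c (l 538478095) (l 16782952)) (c (l 16783104) (l 16786368)))) (c (b (a (c (l 16787112) (l 16786312)) (c (l 16783784) (l 16785672))) (c (a (l 16788120) (l 538337295)) (a (l 16787232) (l 16786600)))) (b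 (a (b (l 16784872) (l 16785248)) (b (l 16784344) (l 16784720))) (a (l 16783232) (a (l 16785464) (l 16785200)))))) (c (a (b (a (l 16784024) (l 16781048)) (a (l 16784624) (l 16781664))) (b (a (b (l 16783176) (l 16783448)) (b (l 16782792) (l 16783080))) (a (b (l 16783752) (l 16784112)) (a (l 16783656) (l 16780848))))) (a (b (a (c (l 16782408) (l 16781296)) (c (l 16782176) (l 16781152))) (a (c (l 16782864) (l 16781648)) (c (l 16782648) (l 16781520)))) (b (a (c (l 16781936) (l 16780992)) (b (l 16781160) (c (l 16781792) (l 16780912)))) (a (c (l 16782416) (l 16781376)) (b (c (l 16782032) (l 16781104)) (c (l 16782328) (l 16781344))))))))), by decide +kernel⟩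

def k71_A00pm_123_s3 : ∃ t, chk3 f_A00pm_123_s3 t 249 112 1 = true :=
  ⟨(c (b (c (a (a (l 538524431) (l 538274063)) (c (a (l 538636303) (l 538924047)) (a (l 538754575) (l 538507279)))) (a (a (l 538208271) (l 538230031)) (a (b (l 538522383) (l 538520079)) (b (l 538546447) (l 538544143))))) (b (c (a (a (l 538792207) (l 538810383)) (a (l 538561551) (l 538447631))) (a (a (l 16780432) (l 538495247)) (a (l 538518543) (l 538274575)))) (c (a (a (l 538792975) (l 538811407)) (a (l 538562575) (a (l 538845711) (l 538856463)))) (a (a (l 538472463) (l 538494735)) (a (l 538518031) (l 538408463)))))) (c (b (a (a (l 538142991) (l 537900047)) (a (b (l 538197263) (l 538193167)) (b (l 538225679) (l 538221583)))) (a (a (b (l 16781824) (l 16782112)) (b (l 538162703) (l 538160143))) (a (b (l 538189839) (l 537918991)) (b (l 537949967) (a (l 538208271) (l 538223119)))))) (b (a (a (l 538060559) (b (l 537824527) (l 537817871))) (a (b (l 537855503) (l 537849103)) (b (l 537887759) (l 537881615)))) (a (a (b (l 16780536) (l 537778191))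 (b (l 537812495) (l 537942287))) (a (b (l 537843727) (a (l 16780272) (l 16780128))) (b (a (l 16779760) (l 537884175)) (a (l 537863439) (l 537880335)))))))), by decide +kernel⟩

def k72_A00pm_123_s3 : ∃ t, chk3 f_A00pm_123_s3 t 498 113 1 = true :=
  ⟨(b (a (c (c (b (l 16782504) (l 16782968)) (b (l 538472719) (l 538473999))) (b (a (l 537948687) (l 537962255)) (a (l 537678863) (l 537692431)))) (c (c (b (l 538544911) (l 538547983)) (b (l 538494991) (l 538227983))) (b (a (l 537976335) (l 537722127)) (a (l 537706511) (c (l 16782192) (l 16780832)))))) (a (c (b (c (l 538536975) (l 16784584)) (c (l 538555407) (l 16785032))) (b (a (l 537682703) (c (l 16782912) (l 16781296))) (a (c (l 16783472) (l 16781680)) (c (l 16783280) (l 16781576))))) (c (b (c (l 538556175) (l 538235151)) (c (l 538576143) (l 538253839))) (b (a (c (l 16782720) (l 16781184)) (c (l 16782512) (l 16781056))) (a (c (l 16783088) (l 16781464)) (c (l 16782888) (l 16781344))))))), by decide +kernel⟩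

def k73_A00pm_123_s3 : ∃ t, chk3 f_A00pm_123_s3 t 499 113 1 = true :=
  ⟨(c (a (c (b (b (l 538430479) (a (l 16781744) (l 538840847))) (b (c (l 16782344) (l 16784376)) (l 16782584))) (b (b (l 538384399) (a (l 16783208) (l 16782928))) (b (a (l 16783616) (l 16783336)) (a (l 16784072) (l 16783792))))) (b (c (b (a (l 538848015) (l 538858767)) (c (l 538663951) (l 538512399))) (b (a (l 538536463) (l 538549263)) (a (l 538538255) (l 538551055)))) (b (a (c (l 16781520) (l 16783048)) (c (l 538872079) (l 538559503))) (a (c (l 538883855) (l 16783504)) (c (l 16781688) (l 16783216)))))) (c (b (a (b (a (l 16781688) (l 16781472)) (a (l 16781984) (l 16781776))) (b (a (l 538207247) (l 538222095)) (a (l 538207247) (l 538222095)))) (a (b (a (l 16782312) (l 16782104)) (c (l 16782928) (l 16782232))) (b (a (l 538213903) (l 538229007)) (a (l 16782264) (l 538251023))))) (b (a (b (a (l 16780488) (l 537843727)) (a (l 16780696) (l 537841679))) (b (a (l 537860367) (l 537877263)) (a (l 537858319) (l 537875471)))) (a (b (a (l 16780936) (l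 537846287)) (a (l 16781224) (l 537864463))) (b (a (l 537863183) (c (l 16780816) (l 16780232))) (a (c (l 16781296) (l 16780624)) (c (l 16781136) (l 16780512)))))))), by decide +kernel⟩

def k74_A00pm_123_s3 : ∃ t, chk3 f_A00pm_123_s3 t 248 57 1 = true :=
  ⟨(b (a (c (b (a (c (l 16784904) (l 16787856)) (c (l 16784248) (l 16787352))) (c (l 16785912) (c (l 16784144) (l 16788160)))) (c (b (a (l 16785424) (l 16782472)) (a (l 16786432) (l 16786104))) (b (a (c (l 16783520) (l 16782208)) (c (l 16783312) (l 16782088))) (a (c (l 16784384) (l 16782984)) (c (l 16784184) (l 16782872)))))) (b (c (c (a (l 16783592) (c (l 16783360) (l 16787712))) (a (c (l 16787352) (l 16786336)) (l 16783712))) (c (a (l 16782128) (b (l 16784160) (l 16784624))) (a (c (l 16783096) (l 16781960)) (b (c (l 16782672) (l 16781648)) (l 16782536))))) (c (a (b (l 16783536) (l 16784216)) (c (l 16784264) (l 16782272))) (c (a (l 16783144) (b (l 16785136) (l 16785696))) (a (c (l 16783976) (l 16782752)) (b (l 16782960) (l 16783432))))))) (c (b (c (a (l 16787424)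 (l 16786104)) (a (l 16784896) (l 16783888))) (c (b (l 16787984) (l 16788848)) (a (l 16781176) (l 16785416)))) (b (c (c (a (l 16788136) (l 16782144)) (a (l 16786760) (l 16780936))) (a (a (l 16784696) (l 16779312)) (a (b (l 16784120) (l 16784680)) (b (l 16783952) (l 16784512))))) (c (a (l 16783576) (l 16782920)) (a (b (l 16785504) (l 16786136)) (b (l 16779960) (l 16785848))))))), by decide +kernel⟩

def k75_A00pm_123_s3 : ∃ t, chk3 f_A00pm_123_s3 t 249 114 1 = true :=
  ⟨(a (b (c (a (c (c (l 16787888) (l 16787072)) (c (l 16786232) (l 16785368))) (b (c (l 16783864) (l 16782368)) (c (l 16787112) (l 16785544)))) (c (a (b (l 16783792) (l 16784256)) (b (c (l 16783808) (l 16783000)) (l 16783880))) (a (b (c (l 16782424) (l 16781488)) (l 16779720)) (b (c (l 16782168) (l 16781304)) (c (l 16782576) (l 16781672)))))) (a (c (b (c (l 16788472) (l 16786680)) (l 16783024)) (b (c (l 16784776) (l 16782768)) (c (l 16785336) (l 16783248)))) (c (c (l 16782896) (b (l 16786144) (l 16786784))) (b (c (l 16784400) (l 16779936)) (c (l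 16784968) (l 16783048)))))) (b (b (c (a (c (l 16783168) (b (l 16784304) (l 16784568))) (c (l 16782448) (a (l 16784016) (l 16783720)))) (c (a (a (l 16783112) (l 16782904)) (a (l 16782696) (l 16782488))) (a (a (l 16781560) (l 16781440)) (a (c (l 16781664) (l 16780952)) (c (l 16781512) (l 16780840)))))) (a (a (c (l 537967375) (c (l 16783584) (l 16781952))) (c (l 537982735) (c (l 16783384) (l 16781832)))) (c (c (l 16783080) (l 16781800)) (a (c (l 16783176) (l 16781712)) (c (l 16782968) (l 16781576)))))) (a (c (b (c (l 16787088) (l 16785592)) (b (l 16781608) (l 16781960))) (b (c (l 16784008) (c (l 16782760) (l 16781904))) (c (l 16784576) (l 16782824)))) (c (b (c (l 16786376) (l 16782408)) (a (l 16781312) (l 16780984))) (b (c (l 16780976) (b (l 16781976) (l 16782208))) (c (l 16784176) (l 16779968))))))), by decide +kernel⟩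

def k76_A00pm_123_s3 : ∃ t, chk3 f_A00pm_123_s3 t 249 115 1 = true :=
  ⟨(a (b (a (c (l 16784120) (c (l 16781024) (b (l 16783768) (l 16784336)))) (c (l 16783512) (c (l 16785896) (b (l 16783576) (l 16784144))))) (c (b (l 16784992) (l 16785832)) (a (b (l 16780888) (l 16781576)) (c (l 16787288) (l 16779848))))) (c (a (b (b (l 16782504) (l 16783264)) (l 16784472)) (b (b (l 16781872) (l 16782632)) (l 16783328))) (b (a (b (c (l 16785192) (l 16783360)) (c (l 16785848) (l 16783936))) (c (b (l 16784792) (l 16785448)) (b (l 16783128) (l 16783712)))) (a (c (l 16781656) (l 16779632)) (c (l 16781224) (b (l 16784312) (l 16784936))))))), by decide +kernel⟩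

def k77_A00pm_123_s3 : ∃ t, chk3 f_A00pm_123_s3 t 124 58 1 = true :=
  ⟨(c (a (b (a (b (a (a (l 16784760) (l 16784480)) (l 16783992)) (a (l 16785288) (b (l 16785248) (l 16795984)))) (b (l 16783120) (a (b (l 16794520) (l 16794704)) (l 16788016)))) (b (b (a (l 16795960) (a (l 16795232) (l 16783120))) (l 16785592)) (l 16785616))) (c (b (a (b (l 16790744) (l 16790688)) (b (l 16783344) (l 16783392))) (a (b (b (l 16785328) (a (l 16791632) (l 16784912))) (l 16791896)) (b (l 16788640) (a (b (l 16784016) (l 16789832)) (b (l 16788144) (l 16783192)))))) (b (a (b (l 16791264) (l 16792504)) (b (l 16784800) (l 16790192))) (b (a (a (l 16788128) (l 16791912)) (l 16790296)) (a (l 16793648) (b (a (l 16791024) (l 16789808)) (a (l 16791528) (l 16790104)))))))) (a (b (a (b (a (b (l 16788520) (a (b (l 16789144) (l 16778960)) (l 16778784))) (l 16783424)) (b (a (b (l 16779136) (l 16789872)) (b (l 16779200) (a (l 16789920) (l 16779472)))) (l 16779736))) (a (b (l 16783192) (b (l 16779136) (b (a (l 16779704) (l 16779696)) (l 16779888))))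 (c (b (l 16789528) (l 16780736)) (b (l 16786816) (l 16783128))))) (b (a (l 16780336) (a (l 16780416) (b (c (l 16792040) (l 16783936)) (l 16791072)))) (a (l 16791632) (l 16781104)))) (a (b (b (a (l 16782680) (l 16782368)) (a (l 16778944) (l 16783824))) (c (b (b (l 16786528) (a (l 16792264) (l 16792144))) (l 16792560)) (b (b (a (l 16783944) (l 16788824)) (a (l 16789560) (l 16784264))) (l 16784864)))) (b (a (b (l 16782040) (l 16783432)) (b (l 16781648) (l 16782984))) (a (b (l 16779576) (b (b (l 16780456) (l 16785832)) (l 16791336))) (b (l 16779080) (b (l 16780120) (b (l 16785776) (l 16780640))))))))), by decide +kernel⟩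

def k78_A00pm_123_s3 : ∃ t, chk3 f_A00pm_123_s3 t 124 59 1 = true :=
  ⟨(b (a (c (l 16785632) (a (l 16782304) (l 16792576))) (a (b (l 16783528) (l 16783704)) (b (c (l 16780456) (l 16781096)) (l 16783248)))) (a (c (l 16795992) (l 16793960)) (c (l 16784840) (c (l 16793544) (l 16792248))))), by decide +kernel⟩

def k79_A00pm_123_s3 : ∃ t, chk3 f_A00pm_123_s3 t 500 112 1 = true :=
  ⟨(b (a (c (c (b (l 538871567) (l 538871311)) (b (l 538571791) (l 538569743))) (b (a (l 538082063) (l 538098191)) (a (l 538076943) (l 538093327)))) (c (c (b (l 538893583) (c (l 538965007) (l 538820879))) (a (l 538522895) (b (l 538604303) (l 538602511)))) (b (a (l 538114831) (l 538131727)) (a (l 538109967) (l 538127119))))) (c (a (c (b (c (l 538676495) (l 538797583)) (c (l 538678287) (l 538530319))) (b (a (l 538561551) (l 538574607)) (a (l 538561295) (l 538574607)))) (b (c (a (l 538887695) (l 538630671)) (a (l 538587919) (l 538601487))) (c (a (l 538620943) (c (l 538972943) (l 538827791))) (a (l 538587919) (l 538601743))))) (a (b (a (l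 538072847) (l 537955087)) (a (b (l 538070543) (l 538069263)) (b (l 538086927) (l 538085903)))) (b (a (l 537971983) (b (l 538124047) (l 538122511))) (a (b (l 538103823) (l 538102799)) (b (l 538120975) (l 537985807))))))), by decide +kernel⟩

def k80_A00pm_123_s3 : ∃ t, chk3 f_A00pm_123_s3 t 501 112 1 = true :=
  ⟨(b (a (c (c (a (b (l 538909967) (l 538909967)) (b (l 538921743) (l 538921743))) (b (l 538894351) (a (l 538616335) (l 538630415)))) (b (a (l 538149135) (l 538166799)) (a (l 538144527) (c (l 538322447) (l 537997839))))) (c (c (b (a (l 538933519) (l 538945807)) (a (l 538598159) (c (l 539014927) (l 538875919)))) (b (a (l 538646543) (l 538660879)) (a (l 538644751) (l 538659599)))) (b (a (l 538184975) (l 538203407)) (a (c (l 538339343) (l 538017295)) (c (l 538356495) (l 538037263)))))) (a (a (c (b (c (c (l 538981903) (l 538838543)) (l 538615567)) (c (c (l 538984207) (l 538840079)) (l 538884111))) (b (b (l 538141455) (l 538139919)) (b (l 538004495) (a (l 538133007) (l 538141967))))) (c (b (c (c (l 538724879)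 (l 538851087)) (l 538629647)) (c (c (l 538727183) (l 538852623)) (b (l 538629647) (l 538630159)))) (b (b (l 538159375) (l 538057231)) (b (a (l 538151951) (l 538160911)) (a (l 538150927) (l 538159887)))))) (b (c (c (c (a (l 539004687) (b (l 539015951) (l 539016719))) (a (l 538863631) (l 539010831))) (a (b (l 538644239) (l 538643983)) (b (l 538658831) (l 538658831)))) (a (b (l 538177551) (c (l 538336271) (l 538011919))) (b (a (l 538191375) (l 538200591)) (a (l 538189839) (l 538199311))))) (b (c (c (a (c (l 539006223) (l 538864655)) (c (l 539017999) (l 538877711))) (a (l 538644239) (l 538659087))) (a (c (l 538335503) (l 538010127)) (c (l 538352911) (l 538030095)))) (c (c (a (c (l 539007759) (l 538865679)) (c (l 539019535) (l 538878735))) (a (l 538644751) (l 538659599))) (a (a (l 538169103) (l 538178319)) (c (l 538352655) (l 538028815)))))))), by decide +kernel⟩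

def k81_A00pm_123_s3 : ∃ t, chk3 f_A00pm_123_s3 t 500 113 1 = true :=
  ⟨(b (c (b (a (a (c (l 538869519) (l 538562063)) (c (l 538880527) (l 538575375))) (c (a (l 538623503) (c (l 538976015) (l 538830095))) (a (l 538588943) (l 538602767)))) (a (a (c (l 538873103) (l 538564111)) (c (l 538615823) (l 538577423))) (c (a (l 538627087) (l 538504719)) (a (l 538590991) (l 538605071))))) (c (a (b (a (l 538237199) (l 538252559)) (a (l 538237199) (l 538252815))) (b (a (l 538268431) (l 538284559)) (a (l 538268687) (l 538016527)))) (a (b (a (l 537894671) (l 537912335)) (a (c (l 16780376) (l 16779872)) (c (l 16780200) (l 537822479)))) (b (a (b (l 537931023) (l 537929743)) (b (l 537949455) (l 537948431))) (a (b (l 537928975) (l 537928719)) (b (l 537947663) (l 537947407))))))) (a (c (c (b (a (l 538615055) (l 538626575)) (a (l 538908687) (l 538653199))) (b (a (l 538573071) (l 538586895)) (a (l 16782920) (l 538612751)))) (c (b (a (l 538244879) (l 538261007)) (a (l 538267919) (l 538285583))) (b (a (c (l 16780648) (l 16780104))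 (c (l 16780480) (l 537828367))) (a (c (l 16780976) (l 16780384)) (c (l 16780808) (l 16780256)))))) (a (c (b (c (l 538638607) (l 538601231)) (c (l 538666767) (l 538628367))) (c (b (l 538009103) (l 538035215)) (b (b (l 537932047) (l 537940495)) (c (l 16780632) (l 16780120))))) (c (b (c (l 538516751) (l 538481679)) (c (l 538814991) (l 538645007))) (c (b (l 538025999) (l 538053903)) (a (b (l 537950223) (l 537976335)) (b (l 537959951) (l 537987343)))))))), by decide +kernel⟩

def k82_A00pm_123_s3 : ∃ t, chk3 f_A00pm_123_s3 t 501 226 1 = true :=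
  ⟨(a (c (b (c (a (c (l 538987279) (l 538842383)) (b (l 538658063) (l 538659855))) (a (l 538885391) (b (l 538630671) (l 538631695)))) (c (a (c (l 538723087) (l 538845967)) (b (l 538661647) (l 538664207))) (a (b (l 538618383) (l 538619919)) (b (l 538632719) (l 538634511))))) (b (a (a (b (l 538132239) (l 538131727)) (b (l 538141199) (l 538140687))) (c (b (l 538317839) (l 538317839)) (b (l 537987855) (l 537986831)))) (a (b (c (l 538301199) (l 537966607)) (c (l 538301967) (l 537966351))) (b (c (l 538318095) (l 537986063)) (c (l 538318863) (l 537986063)))))) (c (b (c (c (a (l 539010319) (b (l 539021327) (l 539023119))) (a (l 539136271) (b (l 538880015) (l 538881551)))) (a (b (l 538645519) (l 538646287)) (b (l 538660367) (l 538661391)))) (a (c (b (l 538673935) (l 538676495)) (b (l 538647567) (l 538649359))) (c (b (l 538619407) (l 538689039)) (c (l 539006735) (l 538721807))))) (c (b (a (b (l 538334991) (l 538334991)) (b (l 538352399) (l 538352399))) (a (b (l 538335247) (l 538336271)) (b (l 538352911) (l 538353935))))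 (b (a (b (l 538007567) (l 538006543)) (b (l 538027535) (l 538026767))) (a (b (l 538005775) (l 538005775)) (b (l 538025999) (l 538026255))))))), by decide +kernel⟩

def k83_A00pm_123_s3 : ∃ t, chk3 f_A00pm_123_s3 t 501 227 1 = true :=
  ⟨(a (c (c (b (a (c (l 539004687) (l 538858511)) (c (l 539017231) (l 538872079))) (a (l 538829839) (l 538711055))) (a (b (l 538496527) (l 538661903)) (b (b (l 538640655) (l 538652687)) (l 538948111)))) (c (b (a (b (l 538307087) (l 538317583)) (b (l 538324495) (l 538336015))) (a (l 538073615) (l 538160911))) (b (a (b (l 537970703) (l 537980687)) (b (l 537990671) (l 538001423))) (a (b (l 537995023) (l 538013711)) (b (l 538017295) (l 538037519)))))) (c (b (a (c (a (l 538686479) (l 538693391)) (b (l 538656015) (l 538669327))) (b (c (l 538697231) (l 538671887)) (c (l 538980623) (l 538686479)))) (c (a (l 538727183) (l 538744335)) (a (b (l 538687503) (l 538710031)) (b (l 538706447) (l 538730767))))) (c (b (a (b (l 538342415) (l 538354959)) (b (l 538360591) (l 538374671))) (a (b (l 538372879)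 (l 538395151)) (b (l 538394383) (l 538418447)))) (b (a (b (l 538011151) (l 538023183)) (b (l 538032143) (l 538045455))) (a (b (l 538040335) (l 538062351)) (b (l 538064655) (l 538088463))))))), by decide +kernel⟩

def k84_A00pm_123_s3 : ∃ t, chk3 f_A00pm_123_s3 t 502 224 1 = true :=
  ⟨(b (a (a (c (c (l 538823695) (l 538675727)) (l 538356495)) (c (c (l 538802703) (l 538690831)) (b (l 4) (l 538240015)))) (l 4)) (a (c (c (a (c (l 539026703) (l 538888719)) (c (l 539038479) (l 538902031))) (a (l 538942735) (b (l 538689551) (l 538689295)))) (a (c (l 538374159) (l 538057487)) (c (l 538526223) (l 538077967)))) (a (c (c (c (b (l 539050255) (l 539050767)) (l 539116815)) (c (l 539044623) (l 538632719))) (c (b (l 538410767) (l 538409231)) (l 538199823))) (l 4)))), by decide +kernel⟩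

def k85_A00pm_123_s3 : ∃ t, chk3 f_A00pm_123_s3 t 1004 225 1 = true :=
  ⟨(b (c (c (c (a (b (l 539027727) (l 539028751)) (b (l 539039503) (b (l 539040271) (l 539041039)))) (a (b (l 538889231) (l 538889999)) (b (l 538902543) (b (l 538903055) (l 538903311))))) (b (a (l 538673935) (l 538689039)) (a (l 538808079) (b (l 538689039) (l 538689039))))) (a (b (a (l 538210063) (l 538219791)) (a (l 538208783) (l 538218255))) (b (a (l 538229263) (l 538238991)) (a (b (l 538228239) (l 538227727)) (b (l 538237967) (l 538237455)))))) (c (a (c (c (b (l 539030031) (l 539031567)) (b (l 538890767) (l 538892047))) (b (l 538808335) (a (l 538670607) (l 538678287)))) (b (c (a (c (l 539038735) (l 538900495)) (c (l 539044879) (l 538907151))) (a (l 538685455) (l 538693135))) (c (c (a (l 539040271) (l 539046415)) (l 539039503)) (a (l 538685967) (l 538693647))))) (a (b (a (l 538207759) (l 538217231)) (a (l 538206735) (l 538216463))) (b (a (c (l 538383887) (l 538065935)) (c (l 538393103) (l 538076175))) (a (c (l 538383631) (l 538064399))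 (c (l 538392591) (l 538074895))))))), by decide +kernel⟩

def k86_A00pm_123_s3 : ∃ t, chk3 f_A00pm_123_s3 t 1005 450 1 = true :=
  ⟨(a (c (b (c (c (l 538984719) (l 538915855)) (a (l 538700303) (l 538708239))) (b (c (a (c (l 539049231) (l 538912783)) (c (l 538988303) (l 538919695))) (a (l 538700303) (l 538708239))) (c (a (c (l 539049999) (l 538913295)) (c (c (l 539089423) (l 539022351)) (l 538919951))) (a (l 538700559) (l 538708239))))) (b (a (l 538248975) (l 538258703)) (a (b (l 538315023) (l 538247183)) (b (c (l 538412047) (l 538099471)) (a (l 538254607) (l 538259727)))))) (a (c (b (c (a (c (l 539059215) (l 538924047)) (a (c (l 539061263) (l 538926607)) (l 4))) (a (l 538713871) (a (l 538716943) (l 4)))) (c (b (a (c (c (l 539059471) (l 539026447)) (l 538924559)) (c (a (b (c (l 539095055) (l 539028751)) (l 538928143)) (b (c (l 539063055) (l 539030287)) (l 539063823))) (b (a (l 538927119) (l 538928911)) (l 538928143)))) (a (c (c (l 539093775) (l 539027215)) (l 538925071)) (c (a (c (l 539096079) (l 539029519))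 (l 539064335)) (a (l 538927631) (l 538929423))))) (b (a (b (l 538714127) (l 538714127)) (b (a (l 538716943) (l 538718991)) (l 538717967))) (a (l 538714127) (a (l 538717199) (l 538718991)))))) (b (a (l 538266127) (a (l 538269967) (l 4))) (b (c (a (l 538418959) (b (a (l 538422543) (l 538424847)) (l 538423567))) (a (l 538107407) (b (l 538113039) (l 538112527)))) (a (a (l 538263311) (l 538265871)) (a (l 538268431) (l 538270991)))))) (b (l 4) (c (c (c (b (b (l 4) (l 539067919)) (l 539068431)) (b (l 538933263) (l 538933775))) (b (a (l 538721807) (l 4)) (l 538724111))) (b (b (l 4) (l 538277647)) (l 538277391)))))), by decide +kernel⟩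

def k87_A00pm_123_s3 : ∃ t, chk3 f_A00pm_123_s3 t 1005 451 1 = true :=
  ⟨(a (c (a (c (c (b (c (l 539084559) (l 539017231)) (l 539052559)) (b (l 538914063) (l 538915343))) (b (l 538700815) (l 538701583))) (c (c (b (a (l 539055375) (l 538924303)) (l 539058703)) (b (a (l 538919183) (l 538922511)) (l 538921999))) (b (a (l 538706703) (l 538710543)) (l 538709263)))) (a (b (b (l 538246671) (l 538246415)) (c (l 538401807) (l 538085647))) (b (a (l 538253839) (b (l 538259215) (l 538258703))) (a (l 538253071) (l 538258191))))) (a (b (c (c (c (a (l 538994447) (l 539064847)) (a (l 538925839) (l 538929423))) (a (l 538714639) (l 538718479))) (a (b (l 538264079) (l 538263823)) (l 538268943))) (c (c (c (l 538997775) (l 538928911)) (a (l 538715151) (l 538719247))) (a (l 538263311) (l 538268175)))) (c (c (c (l 539003151) (l 538935311)) (b (l 538724623) (l 538725135))) (b (l 538310159) (l 538275855))))), by decide +kernel⟩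

def k88_A00pm_123_s3 : ∃ t, chk3 f_A00pm_123_s3 t 503 112 1 = true :=
  ⟨(b (l 4) (c (a (b (l 4) (b (a (c (c (l 538978575) (l 539079439)) (a (l 538732559) (l 4))) (l 4)) (c (a (c (l 539080975) (l 538946575)) (c (l 539093519) (l 539094799))) (c (a (l 538808335) (l 538823695)) (a (l 538665743) (l 538682639)))))) (l 4)) (a (a (b (l 4) (a (b (c (l 538439439) (l 538130191)) (l 538286095)) (b (l 4) (l 538296335)))) (b (l 4) (a (b (l 4) (c (l 538458383) (l 538151183))) (l 4)))) (l 4)))), by decide +kernel⟩

def k89_A00pm_123_s3 : ∃ t, chk3 f_A00pm_123_s3 t 1004 113 1 = true :=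
  ⟨(b (a (c (b (c (c (b (l 539033103) (l 539035151)) (b (l 538893327) (l 538894863))) (b (a (l 538671375) (l 538679055)) (l 538676495))) (c (c (l 538904591) (a (l 538894351) (l 538901263))) (b (l 538677775) (l 538679823)))) (a (b (b (l 538206223) (l 538205967)) (b (l 538205711) (l 538072079))) (b (b (l 538215951) (l 538215439)) (b (l 538215439) (l 538082063))))) (a (c (b (c (c (l 539043087) (l 538904079)) (b (l 538686735) (l 538687759))) (c (b (l 538708751) (l 538711311)) (b (l 538689039) (l 538691087)))) (b (b (l 538225679) (l 538225167)) (b (l 538225167) (l 538091791)))) (c (b (c (c (l 538982159) (l 538910735)) (b (l 538694415) (l 538695695))) (c (b (l 538715151) (l 538717967)) (b (l 538696975) (l 538699023)))) (b (b (c (l 538392591) (l 538073871)) (l 538134543)) (b (l 538134543) (c (l 538394639) (l 538073103))))))) (b (c (a (b (c (l 538576655) (l 538688015)) (c (l 538593039) (l 538704143))) (c (a (l 538729487) (l 538737167)) (b (l 538973199) (l 538723087)))) (a (b (a (l 538213391) (l 538089487)) (a (l 538228495)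 (l 538105359))) (a (b (l 538099983) (l 538116879)) (b (l 538110735) (l 538128911))))) (a (c (c (l 538695439) (b (l 538726159) (l 538753039))) (b (a (l 538249231) (l 538261775)) (a (l 538275087) (l 538288911)))) (c (c (b (l 539036687) (l 539066383)) (c (l 538567695) (l 538552847))) (b (a (l 538140431) (l 538153743)) (a (l 538303247) (l 538318351))))))), by decide +kernel⟩

def k90_A00pm_123_s3 : ∃ t, chk3 f_A00pm_123_s3 t 1005 113 1 = true :=
  ⟨(b (a (b (c (c (a (c (l 538954767) (l 538917647)) (c (b (l 539060495) (l 539062799)) (b (l 538923535) (l 538925327)))) (a (b (l 538702351) (l 538703375)) (b (l 538710287) (l 538711311)))) (a (b (c (l 538401807) (l 538084623)) (c (l 538402063) (l 538083855))) (b (a (l 538252815) (l 538257679)) (c (l 538411279) (l 538094607))))) (c (c (b (a (l 538721551) (l 538728207)) (a (l 538724623) (l 538731279))) (b (a (l 538704911) (l 538712847)) (a (l 538706959) (l 538715151)))) (a (b (l 538144527) (c (l 538403855) (l 538083855))) (b (l 538154511) (c (l 538413327) (l 538094607))))))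 (b (c (c (a (c (l 539000847) (l 539065615)) (b (l 538871567) (l 538739215))) (a (b (l 538718223) (l 538719247)) (l 538861071))) (a (c (b (l 538420495) (l 538420751)) (b (l 538106127) (l 538105359))) (c (l 538429967) (l 538116879)))) (b (c (c (a (l 538734863) (l 538741519)) (a (l 538720783) (l 538728719))) (a (c (l 538421263) (l 538105103)) (l 538275599))) (c (c (a (l 538737935) (l 539013135)) (a (l 538723087) (l 538731279))) (c (a (l 538422799) (l 538432527)) (a (l 538105615) (l 538116879))))))) (a (b (a (c (c (l 538745103) (b (l 538717711) (l 538737935))) (b (l 538121487) (l 538141199))) (c (c (l 538753551) (b (l 538726671) (l 538748431))) (b (c (l 538424335) (l 538105103)) (l 538153999)))) (c (b (c (l 539057423) (l 538771215)) (a (l 538540047) (l 538553871))) (b (a (l 538167823) (l 538316815)) (a (l 538334223) (l 538350863))))) (c (b (c (a (l 538762255) (l 538771471)) (b (a (l 538735887) (l 538745359)) (l 539034127))) (c (c (l 538819087) (l 539030287)) (a (l 538406159) (l 538286351)))) (c (b (b (a (l 538435087)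 (l 538446095)) (l 538331151)) (b (l 538498063) (l 538533391))) (b (b (a (l 538117135) (l 538129679)) (a (l 538140431) (l 538155279))) (b (l 537912079) (l 538215695))))))), by decide +kernel⟩

def k91_A00pm_123_s3 : ∃ t, chk3 f_A00pm_123_s3 t 503 226 2 = true :=
  ⟨(b (c (b (a (a (c (l 539082767) (l 538948111)) (c (l 539095567) (l 538962447))) (l 4)) (b (a (a (l 538816015) (l 538829583)) (l 4)) (a (a (l 538884367) (l 538897679)) (a (c (l 539111183) (l 538979087)) (l 4))))) (a (b (c (a (l 538809359) (l 538824975)) (a (l 538666511) (l 538683663))) (a (l 538739727) (c (l 538826511) (l 538684687)))) (a (b (l 4) (c (l 538842127) (l 538701839))) (l 4)))) (c (b (a (a (l 538819087) (l 538832399)) (a (a (l 539043855) (l 538920207)) (l 4))) (b (a (a (l 538887951) (l 538901519)) (a (a (l 538773519) (l 538852367)) (l 4))) (a (a (l 538892047) (a (l 539037199) (l 539045647))) (a (a (l 539056655) (l 539067407)) (l 539069199))))) (a (b (a (l 538741263) (l 538757647)) (a (c (l 538815759) (l 538671631)) (b (l 538758927) (a (l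 538759439) (l 538769423))))) (a (b (a (l 538769679) (l 538781967)) (a (c (l 538844687) (l 538568975)) (a (c (l 538587407) (l 538715151)) (l 539057167)))) (b (l 4) (c (l 539128847) (l 538586639))))))), by decide +kernel⟩

def k92_A00pm_123_s3 : ∃ t, chk3 f_A00pm_123_s3 t 503 226 3 = true :=
  ⟨(c (b (a (a (b (l 538444303) (l 538444815)) (a (l 538458895) (l 538602767))) (a (a (a (l 538475791) (l 4)) (l 4)) (l 4))) (c (a (b (a (l 538520847) (l 538539535)) (a (l 538523151) (b (l 538540559) (l 538545167)))) (a (b (a (l 538553359) (l 538566927)) (a (l 538356239) (b (l 538564879) (l 538578447)))) (b (l 4) (b (l 4) (l 538584079))))) (a (b (a (l 538368783) (l 538389007)) (a (l 538370831) (b (l 538389519) (l 538394127)))) (a (b (a (l 538404111) (l 538418191)) (a (b (l 538400527) (l 538415119)) (b (l 538415887) (l 538429455)))) (b (l 4) (b (l 4) (l 538436367))))))) (c (b (a (a (b (l 538213135) (l 538212623)) (b (l 538234639) (l 538234383))) (a (a (l 538250511) (l 4)) (l 4))) (a (a (b (l 538212623) (l 538214159)) (b (l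 538234383) (b (l 538234639) (l 538373135)))) (a (b (a (l 538250511) (l 538265615)) (a (b (l 538246671) (l 538261263)) (b (l 538262799) (l 538276367)))) (b (l 4) (a (l 538275087) (l 4)))))) (b (a (a (b (l 538053647) (l 538052879)) (b (l 538076687) (l 538075919))) (a (a (l 538093839) (l 4)) (l 4))) (a (a (b (l 538052111) (l 538053135)) (b (l 538075407) (b (l 538075407) (a (l 538073359) (l 538086671))))) (a (b (a (l 538092815) (l 538108687)) (a (b (l 538088463) (l 538103055)) (b (l 538105615) (l 538119183)))) (b (l 4) (a (l 538118671) (l 4)))))))), by decide +kernel⟩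

def k93_A00pm_123_s3 : ∃ t, chk3 f_A00pm_123_s3 t 503 227 1 = true :=
  ⟨(c (b (c (b (b (a (a (l 539035407) (l 538786575)) (a (l 538945807) (l 539084047))) (a (a (l 539047951) (l 539071759)) (a (l 538826511) (l 539098895)))) (a (a (l 539072527) (l 538829583)) (a (l 538781455) (l 538844943)))) (a (c (a (b (l 538832911) (l 538863887)) (b (a (l 538850063) (l 538863631)) (l 538891791))) (a (b (l 538688527) (l 538719759)) (b (l 538648847) (l 538749199)))) (a (a (b (l 538810127) (l 538839311)) (b (l 538816527) (l 538846991))) (b (l 539089167) (c (l 538919695) (l 538779919)))))) (a (a (c (l 538711311) (b (l 538559247) (l 538593039))) (a (b (l 538586127) (l 538752527)) (a (l 538610447) (l 538615567)))) (b (a (a (l 538741007) (l 538746383)) (c (l 538813455) (l 538610959))) (a (c (l 538789903) (l 538634767)) (c (l 538782479) (l 538908431)))))) (c (a (a (b (b (a (l 538457871) (l 538470159)) (a (l 538486799) (l 538502927))) (b (l 538530319) (l 538564367))) (b (b (a (l 538484239) (l 538500111)) (l 538527247)) (c (l 538383375)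 (l 538232079)))) (a (b (a (b (l 538518799) (l 538547983)) (b (l 538526735) (l 538557199))) (a (l 538593551) (l 538600975))) (b (b (l 538533135) (l 538562575)) (c (l 538411535) (l 538263311))))) (c (b (a (a (b (l 538230287) (l 538261263)) (b (a (l 538252303) (l 538269199)) (l 538295823))) (a (a (b (l 538289167) (l 538318351)) (l 538313487)) (b (l 538306575) (l 538336015)))) (a (a (l 538045199) (l 538076687)) (a (a (l 538363919) (l 538372367)) (l 538110991)))) (b (a (a (b (l 538069007) (l 538099727)) (b (a (l 538092303) (l 538110223)) (l 538136079))) (a (b (a (l 538131215) (l 538141199)) (l 538165775)) (b (l 538150415) (l 538179855)))) (a (a (b (l 538135055) (l 538168847)) (b (l 538169359) (l 538200591))) (a (a (l 538205455) (l 538214671)) (b (l 538208527) (l 538237199)))))))), by decide +kernel⟩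

def k94_A00pm_123_s3 : ∃ t, chk3 f_A00pm_123_s3 t 500 57 1 = true :=
  ⟨(b (c (c (b (b (a (c (l 16781976) (l 16781464)) (a (l 16781168) (l 538992399))) (a (l 16782352) (l 538768143))) (b (a (l 16783024) (l 16782280)) (a (l 16786352) (l 16782656)))) (a (b (b (a (l 16783432) (l 16783136)) (b (l 16781072) (l 16781368))) (c (l 16782464) (l 16781824))) (b (b (a (l 538668815) (l 538687503)) (c (l 16780872) (l 16782984))) (b (l 16781224) (l 16781872))))) (c (b (a (b (a (l 16782264) (l 538322959)) (a (l 16782752) (l 16782528))) (b (a (l 538343183) (l 538364431)) (a (l 16782304) (l 16782072)))) (a (b (b (l 16783032) (l 16783312)) (l 16781128)) (b (a (l 16782840) (l 16782608)) (l 16780680)))) (b (a (b (a (c (l 16781352) (l 16780720)) (c (l 16781184) (l 16780592))) (a (l 16781440) (l 16781296))) (b (a (c (l 16781016) (l 16780464)) (c (l 16780832) (l 16780328))) (a (c (l 16781448) (l 16780856)) (c (l 16781272) (l 16780720))))) (a (b (c (l 16782168) (l 16781480)) (b (l 16782192) (l 16782456))) (b (a (l 16781608) (l 16781456))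 (a (l 16782120) (l 16781968))))))) (a (c (b (b (l 538221839) (l 16781960)) (b (l 16782144) (l 16782280))) (b (b (c (l 16784368) (l 16780248)) (c (l 16785016) (l 16783440))) (c (l 16780768) (b (l 16784032) (l 16784624))))) (c (b (b (l 538406159) (l 538242319)) (b (l 16781064) (l 16781224))) (b (c (b (l 16781288) (l 538124815)) (b (l 16779952) (l 16780512))) (b (a (l 16779312) (l 16779088)) (a (l 16779920) (l 16779688))))))), by decide +kernel⟩

def k95_A00pm_123_s3 : ∃ t, chk3 f_A00pm_123_s3 t 501 57 1 = true :=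
  ⟨(b (b (a (c (c (b (a (l 539009807) (l 539027983)) (l 538674447)) (b (a (l 538707215) (l 538459663)) (b (l 538290703) (l 538254351)))) (c (b (a (l 538386703) (l 538141711)) (a (l 538442255) (l 538469135))) (b (a (c (l 16780648) (l 16780176)) (b (l 538061071) (l 16780344))) (a (l 537834767) (l 537864207))))) (c (c (b (a (l 539047695) (l 539068687)) (a (l 539110671) (l 539096847))) (b (a (l 538481935) (l 538304527)) (a (l 538545167) (l 538304527)))) (c (b (a (l 538166543) (l 538260495)) (a (l 538229775) (l 538528783))) (b (a (b (l 538087695) (l 538116367)) (b (l 538116111) (l 538147087))) (a (l 537896207) (l 537929999)))))) (a (b (c (a (l 538443535) (l 538469647)) (a (c (l 16782376) (l 537898255)) (c (l 16782128) (l 537931279)))) (c (c (l 16781616) (l 16781240)) (a (c (l 16782952) (l 16781808)) (c (l 16782696) (l 16781632))))) (a (c (b (l 538496015) (l 16781184)) (b (c (l 538566927) (l 537964815)) (c (l 16782432) (l 16781448)))) (b (c (l 538521871) (c (l 538597135) (l 537998095))) (c (l 538802959) (c (l 16779536)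 (l 538330639))))))) (c (c (b (a (c (l 16781736) (l 16782136)) (b (b (l 16780792) (l 16780904)) (l 16781064))) (a (l 16782280) (a (l 16784200) (l 16781128)))) (b (b (a (l 16781904) (l 16781200)) (a (l 16785184) (l 16781816))) (a (b (l 16785736) (l 16785944)) (l 16782176)))) (a (b (a (b (c (l 16783544) (l 16782328)) (l 537997583)) (b (c (l 16783280) (l 16782144)) (l 537757455))) (b (c (l 16784616) (l 16783304)) (a (l 16779440) (l 16779176)))) (a (b (c (l 16780672) (b (l 16781944) (l 16782456))) (c (l 16781856) (l 16780616))) (b (c (l 16780376) (b (l 16781728) (l 16782224))) (c (l 16781536) (l 16780376))))))), by decide +kernel⟩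

def k96_A00pm_123_s3 : ∃ t, chk3 f_A00pm_123_s3 t 502 114 1 = true :=
  ⟨(a (b (a (c (b (c (l 539092239) (c (l 538606607) (l 538724623))) (c (l 539071759) (l 538332687))) (c (b (b (l 538473999) (l 538507791)) (l 538560271)) (b (b (l 538146831) (l 538180367)) (l 537964303)))) (c (b (c (l 538849039) (a (l 538552847) (l 538567183))) (b (l 538758415) (l 538791695))) (c (b (b (l 538504463) (l 538539535)) (l 538590735)) (b (b (l 538180111) (l 538215439)) (l 537997839))))) (c (a (b (l 538546959) (l 538511119)) (b (l 538552591) (l 538488591))) (b (c (a (l 538626575) (l 538655247)) (a (l 538030607) (l 538062095))) (a (a (l 537983247) (l 537997839)) (a (l 538011919) (l 538025743)))))) (b (a (c (a (b (l 538458639) (l 538793743)) (b (l 538471951) (l 538806031))) (c (b (b (l 538536463) (l 538570767)) (l 538351887)) (b (b (l 538215439) (l 538249743)) (l 538030607)))) (b (c (a (l 538485007) (l 538497295)) (a (c (l 538576655) (l 538258191)) (c (l 538591503) (l 538274575)))) (c (c (l 538733583) (l 538948623)) (c (l 538379791)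 (l 538061583))))) (a (b (c (l 538395407) (c (l 538414095) (l 538092815))) (c (l 538332943) (a (l 538039311) (l 538052367)))) (b (c (c (l 538670095) (l 539008783)) (c (l 538439951) (l 538121487))) (c (c (l 538340879) (l 539066127)) (a (l 538065167) (l 538077199))))))), by decide +kernel⟩

def k97_A00pm_123_s3 : ∃ t, chk3 f_A00pm_123_s3 t 502 115 1 = true :=
  ⟨(a (b (a (b (c (l 538448655) (c (l 16779784) (l 16781496))) (c (l 16780696) (l 537838607))) (b (c (l 538427407) (c (l 16779464) (l 16781256))) (c (l 538368783) (l 537863951)))) (a (b (c (l 16780936) (l 537892879)) (c (l 538275599) (l 537944591))) (b (c (l 16780472) (l 537916943)) (c (l 16780696) (l 538235919))))) (b (a (c (b (l 538138895) (l 538081295)) (b (a (l 538096143) (l 538108431)) (l 537888015))) (c (b (l 538120207) (l 538063887)) (b (a (l 538120207) (l 538131471)) (l 537910287)))) (a (b (c (l 538025999) (l 16779776)) (c (l 16780248) (l 538257423))) (b (c (l 538009359) (l 537960719)) (c (l 16779816) (l 538277391)))))), by decide +kernel⟩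

def k98_A00pm_123_s3 : ∃ t, chk3 f_A00pm_123_s3 t 503 114 1 = true :=
  ⟨(c (b (b (a (a (a (l 538509327) (l 538520335)) (a (l 538530319) (l 538539023))) (a (a (l 538545935) (l 538549775)) (a (l 538551055) (l 538551823)))) (b (a (a (l 538561039) (l 538546447)) (a (l 538532111) (l 538524687))) (a (a (l 538534159) (l 538515983)) (a (l 538502671) (l 538494991))))) (c (a (b (a (l 538383375) (c (l 538854671) (l 538955791))) (a (l 538592527) (l 538309903))) (b (a (l 538423311) (a (l 538620175) (l 538617615))) (a (l 538299407) (l 538293263)))) (b (b (a (l 539024911) (l 538778127)) (a (l 539052559) (l 539073295))) (b (a (l 539079951) (l 539055375)) (a (l 539052047) (l 539027471)))))) (b (c (a (b (a (b (l 538596879) (l 538628367)) (b (l 538622735) (l 538652175))) (a (l 538405391) (l 538427151))) (b (a (b (l 538641167) (l 538669583)) (b (l 538649103) (l 538677007))) (a (l 538174479) (l 538450191)))) (a (b (a (b (l 538282511) (l 538313743)) (b (l 538311439) (l 538340879))) (a (l 538090511) (l 538115599))) (a (b (b (l 538333199)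 (l 538361359)) (l 538134287)) (b (l 538190607) (l 538144783))))) (c (a (a (b (l 538463247) (l 538787087)) (b (l 538482959) (l 538805007))) (a (b (l 538497039) (l 538818063)) (b (l 538504207) (l 538825231)))) (a (b (a (l 538148111) (l 538170895)) (a (l 538471439) (l 538492687))) (b (a (l 538188047) (l 538198543)) (a (l 538508815) (l 538519055))))))), by decide +kernel⟩

def k99_A00pm_123_s3 : ∃ t, chk3 f_A00pm_123_s3 t 503 115 1 = true :=
  ⟨(a (b (a (c (b (l 538237455) (l 538048015)) (b (b (l 538134543) (l 538160655)) (l 537930511))) (a (b (c (l 538361103) (l 538161423)) (l 537979663)) (b (c (l 538354703) (l 538169615)) (l 537985807)))) (a (b (c (l 537994511) (l 537979663)) (c (l 537943055) (l 16779608))) (a (b (l 537941007) (l 537890319)) (b (l 537934095) (l 537749775))))) (c (a (b (b (b (l 538360335) (l 538333199)) (b (l 538306319) (l 538279695))) (b (b (l 538253583) (l 538227983)) (l 537921807))) (c (b (b (l 538238223) (l 538721295)) (b (l 538400783) (l 538350095))) (b (b (l 538983183) (l 538929679)) (b (l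 538877967) (l 538827791))))) (a (b (b (a (l 538176527) (l 538181903)) (l 537960719)) (b (l 538008591) (l 538323215))) (b (b (b (l 538175503) (l 538200591)) (l 537969167)) (b (l 538017039) (l 538331663)))))), by decide +kernel⟩

def k100_A00pm_123_s3 : ∃ t, chk3 f_A00pm_123_s3 t 250 58 2 = true :=
  ⟨(c (c (b (a (b (a (l 16786768) (l 16785832)) (l 16781184)) (b (a (l 16784936) (l 16784080)) (a (l 16785128) (l 16784304)))) (a (b (l 16786496) (b (l 16786520) (l 16781216))) (b (a (l 16785256) (l 16784480)) (l 16784976)))) (a (a (b (l 16787448) (b (l 16787616) (l 16787608))) (b (l 16786472) (l 16786752))) (b (a (a (l 16783152) (l 16782696)) (b (l 16784512) (l 16784784))) (b (l 16780176) (l 16785568))))) (a (a (b (l 16783200) (b (l 16788728) (l 16788792))) (b (b (l 16787256) (l 16787520)) (l 16787808))) (b (b (a (l 16786208) (l 16785208)) (a (l 16786512) (l 16785552))) (b (c (l 16780752) (l 16781360)) (l 16781272))))), by decide +kernel⟩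

def k101_A00pm_123_s3 : ∃ t, chk3 f_A00pm_123_s3 t 250 58 6 = true :=
  ⟨(c (c (a (b (b (l 16787696) (l 16788920)) (b (l 16789168) (l 16789296))) (b (a (l 16781848) (l 16783408)) (l 16784592))) (a (b (b (l 16787280) (l 16788632)) (b (l 16789568) (l 16789712))) (b (b (b (l 16785696) (l 16786320)) (l 16787048)) (b (l 16787408) (l 16787712))))) (c (a (b (b (l 16786864) (l 16788176)) (b (l 16789496) (l 16790144))) (b (b (l 16783048) (l 16786896)) (b (l 16787736) (l 16788072)))) (a (b (b (l 16781192) (l 16787712)) (b (l 16789000) (l 16790400))) (b (b (l 16782704) (l 16786520)) (b (l 16787720) (l 16788440)))))), by decide +kernel⟩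

def k102_A00pm_123_s3 : ∃ t, chk3 f_A00pm_123_s3 t 250 58 14 = true :=
  ⟨(c (c (c (a (b (b (l 16786160) (l 16787424)) (b (l 16788688) (l 16790064))) (b (b (l 16785104) (l 16786280)) (b (l 16787456) (l 16788632)))) (a (b (b (l 16786048) (l 16787304)) (b (l 16788560) (l 16789928))) (b (b (b (l 16782104) (l 16780064)) (l 16786184)) (b (l 16787352) (l 16788520))))) (c (a (b (b (l 16780696) (l 16787184)) (b (l 16788432) (l 16789792))) (b (b (b (l 16784640) (l 16785216)) (l 16786080)) (b (l 16787248) (l 16788408)))) (a (b (b (l 16780592) (l 16787064)) (a (l 16789336) (l 16788656))) (b (b (b (l 16784552) (l 16785120)) (l 16785984)) (b (l 16787144) (l 16788296)))))) (c (c (a (b (b (l 16780480) (l 16786944)) (b (l 16788176) (l 16789520))) (b (b (a (l 16785016) (l 16784480)) (l 16780648)) (b (l 16787032) (l 16788184)))) (a (b (b (l 16780368) (l 16786824)) (b (l 16788048) (l 16789384))) (b (b (b (l 16781760) (l 16784936)) (l 16780544)) (b (l 16786928) (l 16788064))))) (a (b (b (l 16780200) (l 16786648)) (b (l 16787856)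 (l 16789184))) (b (b (a (l 16784776) (l 16784272)) (b (l 16785360) (l 16785920))) (b (l 16786768) (l 16787888)))))), by decide +kernel⟩

def k103_A00pm_123_s3 : ∃ t, chk3 f_A00pm_123_s3 t 250 58 15 = true :=
  ⟨(c (c (a (b (b (b (l 16784920) (l 16785512)) (l 16786408)) (b (l 16787592) (l 16788904))) (b (b (b (l 16781448) (l 16781992)) (b (l 16785160) (l 16785712))) (b (l 16781312) (l 16787656)))) (a (b (b (b (l 16784704) (l 16785280)) (l 16786160)) (b (l 16787336) (l 16788624))) (b (b (b (l 16781272) (l 16784424)) (b (l 16784968) (l 16785512))) (b (l 16781088) (l 16787424))))) (c (b (a (b (a (l 16784936) (l 16784592)) (l 16785912)) (b (b (l 16781088) (l 16784240)) (b (l 16784768) (l 16785304)))) (a (b (l 16787072) (l 16783104)) (b (l 16780872) (l 16781944)))) (a (b (b (l 16781920) (l 16785672)) (b (l 16786808) (l 16782824))) (b (b (b (l 16780912) (l 16784048)) (b (l 16784568) (l 16785096))) (b (l 16785896) (l 16786952)))))), by decide +kernel⟩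

def k104_A00pm_123_s3 : ∃ t, chk3 f_A00pm_123_s3 t 251 58 1 = true :=
  ⟨(b (a (c (a (c (b (c (l 16780640) (l 16781016)) (l 16781112)) (b (l 16781624) (l 16784624))) (c (b (a (l 16780216) (l 16779816)) (b (l 16782888) (l 16783032))) (b (a (l 16783552) (l 16783104)) (l 16781120)))) (a (a (b (b (l 16778864) (l 16779424)) (l 16780272)) (b (b (l 538284303) (l 16779088)) (b (l 16779648) (l 16780200)))) (b (a (c (l 16784240) (l 16780568)) (c (l 16781224) (l 16780248))) (c (l 16781984) (b (l 16783784) (l 16784296)))))) (b (c (a (a (b (l 16779624) (l 538113295)) (b (l 537881615) (l 16779440))) (a (b (l 537872911) (l 537825551)) (b (c (l 538569487) (l 16781288)) (l 537819407)))) (b (a (a (l 538609679) (l 16779744)) (a (l 538368015) (l 538376463))) (a (c (l 16780624) (l 16779984)) (a (l 16779856) (l 16779440))))) (c (b (a (a (l 538066703) (l 538056463)) (a (l 16779264) (l 537773583))) (a (c (l 16782304) (l 16780384)) (a (l 16779456) (l 16779096)))) (c (a (l 16781024) (b (l 16779976) (l 16780240))) (a (c (l 16780984)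 (l 16780472)) (a (l 16780176) (l 16779792))))))) (a (b (a (b (c (l 16779136) (l 16780944)) (c (l 16779256) (l 16781472))) (c (c (l 16780600) (c (l 16783864) (l 16784320))) (a (l 16780576) (l 16780064)))) (a (c (c (l 16784136) (l 16785208)) (l 16781784)) (b (c (l 16783840) (l 16780664)) (c (l 16783952) (l 16786112))))) (c (b (a (c (b (l 16782448) (l 16782584)) (c (l 16783080) (l 16780856))) (c (b (l 16779152) (l 16781920)) (b (l 16779784) (l 16779976)))) (a (c (l 16782752) (l 16780976)) (b (c (l 16782048) (l 16782768)) (c (l 16782168) (l 16782936))))) (b (c (a (l 16781496) (l 16780608)) (c (a (l 16784632) (l 16781192)) (a (l 16784056) (l 16780704)))) (a (c (l 16784536) (l 16780112)) (a (l 16781712) (l 16781256))))))), by decide +kernel⟩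

def k105_A00pm_123_s3 : ∃ t, chk3 f_A00pm_123_s3 t 250 59 1 = true :=
  ⟨(b (a (b (a (b (a (l 16785168) (b (l 16784304) (l 16779320))) (l 16780120)) (c (b (a (l 16782192) (l 16787008)) (b (l 16782256) (l 16787768))) (b (l 16785240) (l 16785656)))) (c (l 16778904) (l 16780928))) (b (c (a (b (l 16786384) (c (l 16780504) (l 16781912))) (l 16785608)) (b (l 16783648) (a (a (l 16784616) (l 16789280)) (l 16788520)))) (b (b (c (a (l 16781544) (l 16785656)) (a (l 16784656) (l 16788600))) (a (l 16778024) (c (a (l 16786088) (l 16785512)) (c (l 16787976) (l 16789448))))) (a (l 16778496) (c (b (l 16780880) (l 16786416)) (l 16783936)))))) (c (b (c (l 16778368) (l 16779520)) (l 16780376)) (a (l 16786632) (b (l 16780080) (l 16791144))))), by decide +kernel⟩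

def k106_A00pm_123_s3 : ∃ t, chk3 f_A00pm_123_s3 t 251 59 1 = true :=
  ⟨(c (b (c (b (a (c (l 16783680) (l 16784200)) (a (l 16782944) (l 16782328))) (a (a (a (b (l 16784528) (l 16784712)) (l 16784160)) (l 16783728)) (a (l 16783104) (l 16782512)))) (a (a (b (l 16785440) (a (b (l 16785784) (l 16785992)) (l 16780128))) (c (l 16784464) (l 16779792))) (b (a (l 16783880) (l 16783152)) (a (l 16784120) (l 16783416))))) (a (b (b (a (a (l 16785944) (l 16785336)) (a (b (l 16784560) (l 16784840)) (l 16786824))) (a (l 16786344) (a (l 16785352) (l 16784736)))) (b (l 16775928) (l 16776656))) (b (a (b (l 16783736) (a (b (l 16783976) (l 16784272)) (b (l 16783632) (l 16783696)))) (l 16785760)) (a (c (l 16779128) (l 16780152)) (b (a (b (l 16788672) (l 16783728)) (b (l 16783104) (a (l 16783280) (l 16783048)))) (b (l 16786408) (l 16784096))))))) (a (b (b (a (l 16787400) (l 16781168)) (a (b (l 16787664) (a (c (l 16787400) (l 16788944)) (l 16787544))) (l 16786776))) (b (a (b (l 16783112) (l 16788824)) (a (b (b (l 16787224) (l 16787480))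 (l 16787848)) (b (l 16784136) (l 16787248)))) (l 16783728))) (c (b (b (a (l 16784904) (l 16784056)) (a (l 16785240) (l 16784408))) (b (a (b (l 16785480) (b (a (l 16785800) (l 16785384)) (a (l 16786072) (l 16785464)))) (l 16784736)) (a (l 16781272) (b (b (a (l 16785136) (l 16784728)) (a (l 16785408) (l 16784808))) (l 16780320))))) (b (a (b (l 16786032) (l 16786472)) (a (l 16782888) (l 16782416))) (a (b (b (l 16786784) (a (b (l 16787168) (l 16787424)) (l 16786696))) (l 16787744)) (b (l 16785928) (b (a (b (l 16786408) (l 16786664)) (b (l 16785944) (l 16786040))) (l 16786752)))))))), by decide +kernel⟩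

def k107_A00pm_123_s3 : ∃ t, chk3 f_A00pm_123_s3 t 62 30 1 = true :=
  ⟨(a (a (c (b (l 16795136) (b (l 16793232) (l 16791368))) (b (l 16795144) (c (l 16783792) (l 16785216)))) (b (b (c (l 16794656) (l 16793472)) (l 16793592)) (b (c (l 16792048) (l 16782752)) (c (l 16779624) (l 16781928))))) (a (b (b (c (a (l 16793736) (l 16791728)) (b (l 16786480) (l 16791776))) (c (l 16792192) (l 16791656))) (b (c (l 16790600) (l 16791096)) (b (l 16789736) (a (l 16789408) (l 16777984))))) (b (b (c (b (a (l 16788256) (a (l 16775808) (l 16779776))) (c (l 16777672) (l 16783592))) (a (b (l 16790072) (l 16790280)) (b (c (l 16787040) (l 16788080)) (l 16783472)))) (a (c (l 16790952) (l 16790056)) (c (l 16784352) (b (l 16789032) (l 16788776))))) (b (c (a (l 16789344) (l 16788456)) (a (l 16789384) (l 16788224))) (a (b (l 16777816) (l 16777048)) (c (l 16776200) (l 16782056))))))), by decide +kernel⟩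

def k108_A00pm_123_s3 : ∃ t, chk3 f_A00pm_123_s3 t 62 31 1 = true :=
  ⟨(a (b (b (c (a (l 16778984) (b (l 16788400) (l 16787472))) (a (b (l 16793880) (l 16793328)) (b (l 16791528) (l 16780472)))) (c (a (l 16788952) (l 16787184)) (a (l 16792904) (l 16780064)))) (b (a (b (l 16800832) (l 16800496)) (c (l 16786920) (l 16779480))) (c (a (c (l 16787336) (l 16788704)) (c (l 16785952) (l 16787144))) (c (l 16778896) (a (l 16792008) (l 16790040)))))) (a (b (b (a (b (l 16788536) (l 16787704)) (b (l 16787632) (l 16797296))) (c (b (l 16785448) (l 16785424)) (b (l 16777744) (l 16788144)))) (c (b (c (l 16784776) (l 16785904)) (c (b (l 16784632) (l 16784496)) (l 16785600))) (b (c (l 16787184) (l 16788608)) (c (l 16786760) (l 16788072))))) (a (b (b (c (l 16785496) (l 16787312)) (c (l 16794672) (b (l 16786528) (l 16786456)))) (c (b (l 16784136) (c (l 16783552) (l 16784448))) (b (l 16786328) (l 16786016)))) (b (b (c (l 16784840) (l 16775776)) (b (a (l 16795136) (l 16794720)) (l 16794760))) (c (b (l 16793840) (c (l 16782880) (l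 16783680))) (b (l 16790536) (l 16790336))))))), by decide +kernel⟩

def k109_A00pm_123_s3 : ∃ t, chk3 f_A00pm_123_s3 t 252 56 1 = true :=
  ⟨(b (l 4) (a (b (l 4) (c (b (b (l 4) (a (a (c (l 538839567) (c (l 538921231) (l 538782991))) (l 4)) (l 4))) (b (a (a (c (l 538808335) (l 538613519)) (l 4)) (l 4)) (a (a (c (l 538777359) (l 538642447)) (c (l 538773263) (l 538643471))) (l 4)))) (a (b (a (a (b (l 4) (l 538417679)) (l 4)) (l 4)) (c (a (c (l 538416143) (l 538269455)) (c (l 538553871) (l 538408719))) (a (b (l 538295823) (l 538324495)) (b (l 4) (l 538331919))))) (l 4)))) (l 4))), by decide +kernel⟩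

def k110_A00pm_123_s3 : ∃ t, chk3 f_A00pm_123_s3 t 504 114 1 = true :=
  ⟨(b (c (b (a (a (c (b (l 538746895) (l 538716687)) (l 538685199)) (c (a (l 538594575) (l 538592783)) (l 538686479))) (a (c (b (l 4) (l 538575375)) (l 538619151)) (l 4))) (a (a (b (l 538485007) (l 538422031)) (c (a (l 538400783) (l 538533391)) (l 539010575))) (a (c (a (l 538531855) (l 538530831)) (l 539010319)) (a (b (l 4) (l 538478351)) (l 4))))) (c (a (b (a (b (l 538654479) (l 538682639)) (b (l 538658575) (l 538686735))) (a (l 538187279) (l 538325775))) (b (a (b (l 4) (l 538689807)) (l 4)) (a (c (l 538534415) (l 538390543)) (c (l 538535439) (l 538393103))))) (a (b (a (b (l 538352655) (l 538380559)) (b (l 538360079) (l 538387983))) (a (l 538287631) (b (l 538415631) (l 538442767)))) (b (a (b (l 4) (l 538394127)) (l 4)) (a (b (l 538421775) (l 538448911)) (b (l 4) (l 538454031))))))) (c (c (c (a (b (a (l 538565391) (b (l 538845199) (l 538816527))) (a (l 538508815) (l 538505743))) (b (a (b (l 538842895) (l 538814223)) (b (l 538841871) (l 538813199)))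 (a (b (l 538786063) (l 538758415)) (b (l 538785295) (l 538757391))))) (a (a (b (l 538931727) (l 538875151)) (b (l 538927375) (l 538871055))) (b (a (l 538924303) (l 538921999)) (a (l 538599439) (l 538597391))))) (a (a (b (l 539063567) (l 539031311)) (b (l 539064847) (l 539025423))) (b (a (l 539064847) (l 539063311)) (a (l 539020559) (l 539016719))))) (c (b (a (a (l 538509839) (l 538513935)) (a (l 538248719) (l 538250511))) (a (a (l 538830863) (l 538834959)) (a (l 538838287) (l 538705679)))) (a (b (a (l 538206991) (l 538214415)) (a (l 538527759) (l 538266639))) (b (a (l 538287887) (b (l 538480911) (l 538507279))) (a (l 538273039) (l 538278159))))))), by decide +kernel⟩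

def k111_A00pm_123_s3 : ∃ t, chk3 f_A00pm_123_s3 t 505 114 1 = true :=
  ⟨(b (l 4) (c (a (a (b (c (b (l 538485263) (l 538456847)) (l 539060751)) (c (b (l 538563087) (l 538535439)) (l 539013903))) (b (l 4) (a (b (l 538390287) (l 538362895)) (b (l 4) (l 538362895))))) (l 4)) (a (a (c (b (a (l 538519055) (l 538518799)) (l 538706447)) (b (b (l 538484751) (l 538511375)) (a (l 538549263) (l 538550799)))) (b (l 4) (c (l 538604815) (a (l 538552079) (l 538553103))))) (l 4)))), by decide +kernel⟩

def k112_A00pm_123_s3 : ∃ t, chk3 f_A00pm_123_s3 t 504 115 1 = true :=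
  ⟨(b (a (a (b (c (b (l 538347791) (l 538320655)) (b (l 538182671) (l 538207759))) (c (b (l 538294031) (l 538267663)) (l 537976335))) (b (c (a (l 538330895) (l 538194703)) (b (l 538188559) (l 538213647))) (c (b (l 538289423) (l 538263311)) (b (l 538238479) (l 538262799))))) (a (b (c (b (l 538205455) (l 538178319)) (a (l 538204431) (l 538206479))) (c (a (l 538273807) (l 538003983)) (b (l 538243087) (l 538267407)))) (b (c (a (l 538190095) (b (l 538337039) (l 538310159))) (a (l 538208271) (l 538209807))) (c (b (l 538149391) (l 538123279)) (b (l 538246671) (l 538270991)))))) (c (b (a (a (b (l 538241807) (l 538216207)) (b (l 538237455) (l 538211855))) (a (b (l 538234127) (l 538208527)) (a (l 538219791) (l 537950479)))) (a (a (b (l 538191119) (l 538166287)) (b (l 538186767) (l 538162191))) (a (b (l 538183439) (l 538158863)) (b (l 538181391) (l 538156815))))) (c (a (a (b (l 538979599) (l 539025935)) (b (l 538983951) (l 539030543))) (b (a (l 538987023) (l 538989071)) (a (l 539033615) (l 539028239)))) (c (a (b (a (l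 538752783) (l 538759695)) (l 538804239)) (a (b (l 538765327) (l 538811407)) (b (l 538769679) (l 538816015)))) (a (b (a (l 538596111) (l 538604559)) (a (l 538641935) (l 538650383))) (b (a (l 538611727) (l 538617871)) (a (l 538657551) (l 538663695)))))))), by decide +kernel⟩

def k113_A00pm_123_s3 : ∃ t, chk3 f_A00pm_123_s3 t 505 115 1 = true :=
  ⟨(a (b (c (a (b (c (b (l 538776591) (l 538481167)) (l 538959631)) (c (a (l 538441743) (l 538441999)) (l 538906895))) (b (c (a (l 538495503) (l 538361871)) (l 538958095)) (c (b (l 538455567) (l 538429711)) (l 538905615)))) (a (b (a (l 538210831) (l 537943311)) (a (l 538260239) (l 538261263))) (b (a (l 538077967) (l 538077967)) (a (l 538261775) (l 538261775))))) (a (c (b (a (l 538084111) (b (l 538230799) (l 538473999))) (a (l 537900047) (l 537899791))) (b (c (l 538989583) (l 538429967)) (l 538087439))) (c (c (b (b (l 538403855) (l 538647055)) (b (l 538621967) (l 538597647))) (b (l 538854415) (l 538670863))) (b (c (l 538989071) (l 538164239)) (c (l 539019791) (l 538613007))))))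 (b (c (b (a (a (b (l 538336271) (l 538309391)) (l 4)) (l 4)) (a (c (b (l 538323727) (l 538431759)) (l 538636815)) (a (b (l 4) (l 538259215)) (l 4)))) (a (b (a (c (l 538888975) (l 538604815)) (l 4)) (a (l 537993231) (l 537992719))) (b (l 4) (a (l 537991951) (l 4))))) (a (c (c (b (b (l 538406159) (l 538381071)) (b (l 538355983) (l 538599951))) (b (l 538586127) (c (l 538486543) (l 538856207)))) (a (b (l 538309647) (l 538624527)) (b (l 538309135) (l 538624015)))) (c (b (a (b (l 538233615) (l 538208527)) (b (l 538235151) (l 538210063))) (b (a (l 538183695) (l 538185231)) (a (l 538427919) (l 538160911)))) (b (b (l 538028047) (l 538320143)) (b (l 538343183) (l 538634511))))))), by decide +kernel⟩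

def k114_A00pm_123_s3 : ∃ t, chk3 f_A00pm_123_s3 t 253 28 1 = true :=
  ⟨(b (l 4) (a (b (l 4) (a (a (a (b (l 4) (c (b (b (l 4) (l 538211855)) (b (l 538187279) (l 538162959))) (b (l 538305807) (l 538352143)))) (b (l 4) (b (l 4) (c (b (l 538189327) (l 538165007)) (l 538350351))))) (a (b (l 4) (b (l 4) (b (l 4) (c (l 538167567) (l 538896399))))) (l 4))) (l 4))) (l 4))), by decide +kernel⟩

def k115_A00pm_123_s3 : ∃ t, chk3 f_A00pm_123_s3 t 504 116 1 = true :=
  ⟨(b (c (b (a (b (a (l 538141967) (l 538137871)) (a (l 538386447) (l 538113807))) (b (a (l 538134543) (l 538132495)) (a (l 538110735) (l 538108687)))) (a (a (b (l 538631183) (l 538608143)) (b (l 538358799) (l 538604047))) (a (a (l 538076687) (l 538075407)) (b (l 538085391) (l 538062351))))) (c (b (a (l 538458895) (a (l 538986511) (l 538980623))) (a (a (l 16781632) (l 538947087)) (c (l 538878735) (l 538994959)))) (a (a (b (l 538765583) (l 16778696)) (b (l 538773263) (l 538816015))) (a (b (l 538779663) (l 538822671)) (b (l 538785039) (l 538828047)))))) (a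 (a (b (c (c (l 16780912) (l 16781392)) (l 16779520)) (c (b (l 16778688) (l 16781408)) (l 16779888))) (c (b (b (l 538581263) (l 538558991)) (c (l 16780776) (l 16781248))) (b (l 538743055) (l 16779424)))) (a (b (c (b (l 538578447) (l 538556175)) (l 538747663)) (c (c (l 16780448) (l 16780872)) (l 538973711))) (b (c (b (l 538308111) (l 538554383)) (l 538740751)) (c (b (l 538532623) (l 538511119)) (l 538967055)))))), by decide +kernel⟩

def k116_A00pm_123_s3 : ∃ t, chk3 f_A00pm_123_s3 t 505 116 1 = true :=
  ⟨(a (b (a (c (a (b (l 538120207) (l 538073359)) (b (l 538119951) (l 538073359))) (b (l 538400783) (l 538444047))) (c (a (b (l 537851663) (l 538073615)) (b (l 537986319) (l 537805583))) (b (l 538133263) (l 538445071)))) (a (b (c (a (l 538028303) (l 538028303)) (l 538734863)) (c (b (l 538531855) (l 538510607)) (l 538692879))) (b (c (b (l 538039311) (l 538017295)) (l 538461711)) (c (a (l 537985039) (l 537985551)) (l 538688271))))) (b (c (c (a (b (b (l 538575887) (l 538552079)) (b (l 538528783) (l 538505743))) (b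 (b (l 538311183) (l 538287631)) (b (l 538264335) (l 538509839)))) (a (b (c (l 538438671) (l 538540303)) (l 538174223)) (b (c (l 538440719) (l 538540815)) (b (l 538723855) (l 538701327))))) (a (b (l 538200335) (l 538176527)) (b (b (l 538657039) (l 538679311)) (l 538242063)))) (c (a (b (a (l 537761295) (l 537896719)) (a (l 537986319) (l 537853199))) (b (a (b (l 538580239) (l 538558223)) (b (l 538582031) (l 538560015))) (a (b (l 538536719) (l 538515215)) (b (l 538538255) (l 538517007))))) (b (a (l 538458127) (l 538187023)) (a (l 538416143) (l 538413839)))))), by decide +kernel⟩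

def k117_A00pm_123_s3 : ∃ t, chk3 f_A00pm_123_s3 t 252 117 1 = true :=
  ⟨(a (b (a (b (a (c (c (l 16781280) (l 16781840)) (l 16780168)) (c (c (l 16780952) (l 16781464)) (l 16779712))) (a (c (l 16781728) (l 16780432)) (c (c (l 16781120) (l 16781672)) (l 16779984)))) (b (c (a (c (l 16780632) (l 16781096)) (c (l 16780320) (l 538315023))) (a (l 538933263) (l 538926607))) (c (a (c (l 16780808) (l 16781312)) (c (l 16780496) (l 16780952))) (a (l 16779544) (l 538887951))))) (b (a (a (c (l 16781888) (l 16783304)) (c (l 16778936) (l 16780240))) (a (c (c (l 16780968) (l 16781504)) (l 16779800)) (c (c (l 16780664) (l 16781160)) (l 16779368)))) (a (a (c (l 16782040) (l 16783544)) (c (l 16781712) (l 16783104))) (a (c (l 16781392) (l 16780056)) (l 14))))) (b (a (c (a (b (b (l 538489359) (l 538468879)) (c (l 16780192) (l 16780600))) (b (b (l 538490127) (l 538469391)) (a (l 538439439) (l 538440207)))) (b (a (l 538652431) (l 538648079)) (a (l 538613775) (l 538340879)))) (a (c (a (b (l 538749711) (l 538441231)) (b (l 539019535)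 (l 14))) (b (l 538375951) (l 538337551))) (b (c (a (b (l 538494479) (l 538473999)) (b (l 538496271) (l 538475791))) (l 538239503)) (l 14)))) (b (a (a (c (c (l 16780368) (l 16780808)) (l 538576911)) (l 14)) (l 14)) (l 14)))), by decide +kernel⟩

def k118_A00pm_123_s3 : ∃ t, chk3 f_A00pm_123_s3 t 253 58 1 = true :=
  ⟨(a (b (a (b (c (a (a (b (a (l 537858319) (l 537993743)) (b (l 538629135) (l 538606351))) (b (b (l 538141199) (l 538386191)) (a (l 537814287) (l 537949711)))) (b (a (b (l 538143759) (l 538120207)) (b (l 538146575) (l 538123279))) (a (b (l 538633999) (l 538611471)) (b (l 538100239) (l 538614287))))) (b (a (c (l 538968335) (l 538255887)) (b (l 538381327) (l 538403599))) (a (b (l 538697999) (l 538719247)) (c (l 538924303) (l 538296591))))) (c (a (c (b (b (l 538223887) (l 538201871)) (b (l 538716943) (l 538427151))) (b (b (l 538681871) (l 538391567)) (a (l 538627599) (l 538360847)))) (a (b (b (l 538589199) (l 538567183)) (b (l 538545679) (l 538524431))) (b (b (l 538592015) (l 538570255)) (b (l 538548751)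 (l 538527503))))) (c (b (a (l 538879503) (l 538880527)) (a (l 538837263) (l 538838543))) (a (b (l 538877455) (l 538917391)) (b (l 538338319) (l 538646543)))))) (b (c (b (a (a (b (l 4) (l 538126351)) (l 4)) (l 4)) (a (a (b (l 538103567) (l 538080783)) (b (l 538107151) (l 538084367))) (a (b (l 4) (l 538088463)) (l 4)))) (b (a (a (l 538387727) (l 4)) (l 4)) (a (b (l 538419471) (l 538440719)) (a (l 538424335) (l 4))))) (c (b (b (a (a (l 538595343) (l 538867471)) (a (l 538066191) (l 537936399))) (a (a (l 538573583) (l 538577167)) (a (l 538849807) (l 538854159)))) (a (b (a (l 538552079) (l 538555919)) (l 14)) (l 14))) (b (a (a (l 538723599) (l 538724367)) (b (l 538454543) (l 538446607))) (b (a (l 538692111) (l 14)) (l 14)))))) (b (b (b (a (a (c (a (l 538498319) (l 538500879)) (l 538919183)) (l 14)) (l 14)) (l 14)) (l 14)) (l 14))) (b (a (a (b (l 4) (b (b (l 4) (l 14)) (l 14))) (l 4)) (l 4)) (l 14))), by decide +kernel⟩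

def k119_A00pm_123_s3 : ∃ t, chk3 f_A00pm_123_s3 t 126 59 1 = true :=
  ⟨(a (b (a (a (a (b (c (c (l 16781880) (l 16782624)) (l 16781256)) (c (l 16782480) (l 16781672))) (l 14)) (l 14)) (l 14)) (a (a (a (a (c (b (l 16782760) (b (l 16782896) (b (l 16783024) (l 16783320)))) (b (l 16784776) (b (l 16785048) (b (c (l 16784624) (l 16785832)) (l 16785456))))) (l 14)) (l 14)) (l 14)) (l 14))) (l 14)), by decide +kernel⟩

def k120_A00pm_123_s3 : ∃ t, chk3 f_A00pm_123_s3 t 126 15 1 = true :=
  ⟨(b (a (a (a (a (a (b (b (b (c (l 16784232) (l 16786160)) (l 16786496)) (c (l 16788128) (l 16788272))) (b (l 16787752) (c (l 16786240) (l 16786672)))) (l 14)) (l 14)) (l 14)) (l 14)) (l 14)) (a (a (a (b (b (c (l 16784344) (l 16785488)) (b (l 16794312) (l 16783552))) (c (b (l 16782768) (c (l 16782368) (l 16783104))) (b (l 16784520) (l 16784408)))) (l 14)) (l 14)) (l 14))), by decide +kernel⟩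

def k121_A00pm_123_s3 : ∃ t, chk3 f_A00pm_123_s3 t 127 7 1 = true :=
  ⟨(b (b (l 4) (b (b (l 4) (l 14)) (l 14))) (l 14)), by decide +kernel⟩

theorem t122_A00pm_123_s3 : ∃ t, chk3 f_A00pm_123_s3 t 252 116 1 = true := ex3_a k115_A00pm_123_s3 k116_A00pm_123_s3

theorem t123_A00pm_123_s3 : ∃ t, chk3 f_A00pm_123_s3 t 252 58 1 = true := ex3_b t122_A00pm_123_s3 k117_A00pm_123_s3

theorem t124_A00pm_123_s3 : ∃ t, chk3 f_A00pm_123_s3 t 126 58 1 = true := ex3_a t123_A00pm_123_s3 k118_A00pm_123_s3

theorem t125_A00pm_123_s3 : ∃ t, chk3 f_A00pm_123_s3 t 126 29 1 = true := ex3_b t124_A00pm_123_s3 k119_A00pm_123_s3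

theorem t126_A00pm_123_s3 : ∃ t, chk3 f_A00pm_123_s3 t 252 115 1 = true := ex3_a k112_A00pm_123_s3 k113_A00pm_123_s3

theorem t127_A00pm_123_s3 : ∃ t, chk3 f_A00pm_123_s3 t 252 114 1 = true := ex3_a k110_A00pm_123_s3 k111_A00pm_123_s3

theorem t128_A00pm_123_s3 : ∃ t, chk3 f_A00pm_123_s3 t 252 57 1 = true := ex3_b t127_A00pm_123_s3 t126_A00pm_123_s3

theorem t129_A00pm_123_s3 : ∃ t, chk3 f_A00pm_123_s3 t 252 28 1 = true := ex3_b k109_A00pm_123_s3 t128_A00pm_123_s3

theorem t130_A00pm_123_s3 : ∃ t, chk3 f_A00pm_123_s3 t 126 28 1 = true := ex3_a t129_A00pm_123_s3 k114_A00pm_123_s3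

theorem t131_A00pm_123_s3 : ∃ t, chk3 f_A00pm_123_s3 t 126 14 1 = true := ex3_b t130_A00pm_123_s3 t125_A00pm_123_s3

theorem t132_A00pm_123_s3 : ∃ t, chk3 f_A00pm_123_s3 t 126 7 1 = true := ex3_b t131_A00pm_123_s3 k120_A00pm_123_s3

theorem t133_A00pm_123_s3 : ∃ t, chk3 f_A00pm_123_s3 t 63 7 1 = true := ex3_a t132_A00pm_123_s3 k121_A00pm_123_s3

theorem t134_A00pm_123_s3 : ∃ t, chk3 f_A00pm_123_s3 t 62 15 1 = true := ex3_b k107_A00pm_123_s3 k108_A00pm_123_s3

theorem t135_A00pm_123_s3 : ∃ t, chk3 f_A00pm_123_s3 t 125 59 1 = true := ex3_a k105_A00pm_123_s3 k106_A00pm_123_s3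

theorem t136_A00pm_123_s3 : ∃ t, chk3 f_A00pm_123_s3 t 250 58 7 = true := ex3_c k102_A00pm_123_s3 k103_A00pm_123_s3

theorem t137_A00pm_123_s3 : ∃ t, chk3 f_A00pm_123_s3 t 250 58 3 = true := ex3_c k101_A00pm_123_s3 t136_A00pm_123_s3

theorem t138_A00pm_123_s3 : ∃ t, chk3 f_A00pm_123_s3 t 250 58 1 = true := ex3_c k100_A00pm_123_s3 t137_A00pm_123_s3

theorem t139_A00pm_123_s3 : ∃ t, chk3 f_A00pm_123_s3 t 125 58 1 = true := ex3_a t138_A00pm_123_s3 k104_A00pm_123_s3

theorem t140_A00pm_123_s3 : ∃ t, chk3 f_A00pm_123_s3 t 125 29 1 = true := ex3_b t139_A00pm_123_s3 t135_A00pm_123_s3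

theorem t141_A00pm_123_s3 : ∃ t, chk3 f_A00pm_123_s3 t 503 57 1 = true := ex3_b k98_A00pm_123_s3 k99_A00pm_123_s3

theorem t142_A00pm_123_s3 : ∃ t, chk3 f_A00pm_123_s3 t 502 57 1 = true := ex3_b k96_A00pm_123_s3 k97_A00pm_123_s3

theorem t143_A00pm_123_s3 : ∃ t, chk3 f_A00pm_123_s3 t 251 57 1 = true := ex3_a t142_A00pm_123_s3 t141_A00pm_123_s3

theorem t144_A00pm_123_s3 : ∃ t, chk3 f_A00pm_123_s3 t 250 57 1 = true := ex3_a k94_A00pm_123_s3 k95_A00pm_123_s3

theorem t145_A00pm_123_s3 : ∃ t, chk3 f_A00pm_123_s3 t 125 57 1 = true := ex3_a t144_A00pm_123_s3 t143_A00pm_123_s3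

theorem t146_A00pm_123_s3 : ∃ t, chk3 f_A00pm_123_s3 t 503 226 1 = true := ex3_c k91_A00pm_123_s3 k92_A00pm_123_s3

theorem t147_A00pm_123_s3 : ∃ t, chk3 f_A00pm_123_s3 t 503 113 1 = true := ex3_b t146_A00pm_123_s3 k93_A00pm_123_s3

theorem t148_A00pm_123_s3 : ∃ t, chk3 f_A00pm_123_s3 t 502 113 1 = true := ex3_a k89_A00pm_123_s3 k90_A00pm_123_s3

theorem t149_A00pm_123_s3 : ∃ t, chk3 f_A00pm_123_s3 t 251 113 1 = true := ex3_a t148_A00pm_123_s3 t147_A00pm_123_s3

theorem t150_A00pm_123_s3 : ∃ t, chk3 f_A00pm_123_s3 t 1005 225 1 = true := ex3_b k86_A00pm_123_s3 k87_A00pm_123_s3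

theorem t151_A00pm_123_s3 : ∃ t, chk3 f_A00pm_123_s3 t 502 225 1 = true := ex3_a k85_A00pm_123_s3 t150_A00pm_123_s3

theorem t152_A00pm_123_s3 : ∃ t, chk3 f_A00pm_123_s3 t 502 112 1 = true := ex3_b k84_A00pm_123_s3 t151_A00pm_123_s3

theorem t153_A00pm_123_s3 : ∃ t, chk3 f_A00pm_123_s3 t 251 112 1 = true := ex3_a t152_A00pm_123_s3 k88_A00pm_123_s3

theorem t154_A00pm_123_s3 : ∃ t, chk3 f_A00pm_123_s3 t 251 56 1 = true := ex3_b t153_A00pm_123_s3 t149_A00pm_123_s3

theorem t155_A00pm_123_s3 : ∃ t, chk3 f_A00pm_123_s3 t 501 113 1 = true := ex3_b k82_A00pm_123_s3 k83_A00pm_123_s3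

theorem t156_A00pm_123_s3 : ∃ t, chk3 f_A00pm_123_s3 t 250 113 1 = true := ex3_a k81_A00pm_123_s3 t155_A00pm_123_s3

theorem t157_A00pm_123_s3 : ∃ t, chk3 f_A00pm_123_s3 t 250 112 1 = true := ex3_a k79_A00pm_123_s3 k80_A00pm_123_s3

theorem t158_A00pm_123_s3 : ∃ t, chk3 f_A00pm_123_s3 t 250 56 1 = true := ex3_b t157_A00pm_123_s3 t156_A00pm_123_s3

theorem t159_A00pm_123_s3 : ∃ t, chk3 f_A00pm_123_s3 t 125 56 1 = true := ex3_a t158_A00pm_123_s3 t154_A00pm_123_s3

theorem t160_A00pm_123_s3 : ∃ t, chk3 f_A00pm_123_s3 t 125 28 1 = true := ex3_b t159_A00pm_123_s3 t145_A00pm_123_s3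

theorem t161_A00pm_123_s3 : ∃ t, chk3 f_A00pm_123_s3 t 125 14 1 = true := ex3_b t160_A00pm_123_s3 t140_A00pm_123_s3

theorem t162_A00pm_123_s3 : ∃ t, chk3 f_A00pm_123_s3 t 124 29 1 = true := ex3_b k77_A00pm_123_s3 k78_A00pm_123_s3

theorem t163_A00pm_123_s3 : ∃ t, chk3 f_A00pm_123_s3 t 249 57 1 = true := ex3_b k75_A00pm_123_s3 k76_A00pm_123_s3

theorem t164_A00pm_123_s3 : ∃ t, chk3 f_A00pm_123_s3 t 124 57 1 = true := ex3_a k74_A00pm_123_s3 t163_A00pm_123_s3

theorem t165_A00pm_123_s3 : ∃ t, chk3 f_A00pm_123_s3 t 249 113 1 = true := ex3_a k72_A00pm_123_s3 k73_A00pm_123_s3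

theorem t166_A00pm_123_s3 : ∃ t, chk3 f_A00pm_123_s3 t 249 56 1 = true := ex3_b k71_A00pm_123_s3 t165_A00pm_123_s3

theorem t167_A00pm_123_s3 : ∃ t, chk3 f_A00pm_123_s3 t 124 56 1 = true := ex3_a k70_A00pm_123_s3 t166_A00pm_123_s3

theorem t168_A00pm_123_s3 : ∃ t, chk3 f_A00pm_123_s3 t 124 28 1 = true := ex3_b t167_A00pm_123_s3 t164_A00pm_123_s3

theorem t169_A00pm_123_s3 : ∃ t, chk3 f_A00pm_123_s3 t 124 14 1 = true := ex3_b t168_A00pm_123_s3 t162_A00pm_123_s3

theorem t170_A00pm_123_s3 : ∃ t, chk3 f_A00pm_123_s3 t 62 14 1 = true := ex3_a t169_A00pm_123_s3 t161_A00pm_123_s3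

theorem t171_A00pm_123_s3 : ∃ t, chk3 f_A00pm_123_s3 t 62 7 1 = true := ex3_b t170_A00pm_123_s3 t134_A00pm_123_s3

theorem t172_A00pm_123_s3 : ∃ t, chk3 f_A00pm_123_s3 t 31 7 1 = true := ex3_a t171_A00pm_123_s3 t133_A00pm_123_s3

theorem t173_A00pm_123_s3 : ∃ t, chk3 f_A00pm_123_s3 t 62 13 1 = true := ex3_a k67_A00pm_123_s3 k68_A00pm_123_s3

theorem t174_A00pm_123_s3 : ∃ t, chk3 f_A00pm_123_s3 t 31 13 1 = true := ex3_a t173_A00pm_123_s3 k69_A00pm_123_s3

theorem t175_A00pm_123_s3 : ∃ t, chk3 f_A00pm_123_s3 t 31 6 1 = true := ex3_b k66_A00pm_123_s3 t174_A00pm_123_s3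

theorem t176_A00pm_123_s3 : ∃ t, chk3 f_A00pm_123_s3 t 31 3 1 = true := ex3_b t175_A00pm_123_s3 t172_A00pm_123_s3

theorem t177_A00pm_123_s3 : ∃ t, chk3 f_A00pm_123_s3 t 247 28 6 = true := ex3_a k61_A00pm_123_s3 k62_A00pm_123_s3

theorem t178_A00pm_123_s3 : ∃ t, chk3 f_A00pm_123_s3 t 247 28 3 = true := ex3_c t177_A00pm_123_s3 k63_A00pm_123_s3

theorem t179_A00pm_123_s3 : ∃ t, chk3 f_A00pm_123_s3 t 989 28 11 = true := ex3_c k58_A00pm_123_s3 k59_A00pm_123_s3

theorem t180_A00pm_123_s3 : ∃ t, chk3 f_A00pm_123_s3 t 494 28 11 = true := ex3_a k57_A00pm_123_s3 t179_A00pm_123_s3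

theorem t181_A00pm_123_s3 : ∃ t, chk3 f_A00pm_123_s3 t 989 28 20 = true := ex3_a k54_A00pm_123_s3 k55_A00pm_123_s3

theorem t182_A00pm_123_s3 : ∃ t, chk3 f_A00pm_123_s3 t 989 28 10 = true := ex3_c t181_A00pm_123_s3 k56_A00pm_123_s3

theorem t183_A00pm_123_s3 : ∃ t, chk3 f_A00pm_123_s3 t 988 28 10 = true := ex3_c k52_A00pm_123_s3 k53_A00pm_123_s3

theorem t184_A00pm_123_s3 : ∃ t, chk3 f_A00pm_123_s3 t 494 28 10 = true := ex3_a t183_A00pm_123_s3 t182_A00pm_123_s3

theorem t185_A00pm_123_s3 : ∃ t, chk3 f_A00pm_123_s3 t 494 28 5 = true := ex3_c t184_A00pm_123_s3 t180_A00pm_123_s3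

theorem t186_A00pm_123_s3 : ∃ t, chk3 f_A00pm_123_s3 t 1979 28 9 = true := ex3_c k50_A00pm_123_s3 k51_A00pm_123_s3

theorem t187_A00pm_123_s3 : ∃ t, chk3 f_A00pm_123_s3 t 989 28 9 = true := ex3_a k49_A00pm_123_s3 t186_A00pm_123_s3

theorem t188_A00pm_123_s3 : ∃ t, chk3 f_A00pm_123_s3 t 989 28 4 = true := ex3_c k48_A00pm_123_s3 t187_A00pm_123_s3

theorem t189_A00pm_123_s3 : ∃ t, chk3 f_A00pm_123_s3 t 494 28 4 = true := ex3_a k47_A00pm_123_s3 t188_A00pm_123_s3

theorem t190_A00pm_123_s3 : ∃ t, chk3 f_A00pm_123_s3 t 494 28 2 = true := ex3_c t189_A00pm_123_s3 t185_A00pm_123_s3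

theorem t191_A00pm_123_s3 : ∃ t, chk3 f_A00pm_123_s3 t 247 28 2 = true := ex3_a t190_A00pm_123_s3 k60_A00pm_123_s3

theorem t192_A00pm_123_s3 : ∃ t, chk3 f_A00pm_123_s3 t 247 28 1 = true := ex3_c t191_A00pm_123_s3 t178_A00pm_123_s3

theorem t193_A00pm_123_s3 : ∃ t, chk3 f_A00pm_123_s3 t 987 28 8 = true := ex3_a k42_A00pm_123_s3 k43_A00pm_123_s3

theorem t194_A00pm_123_s3 : ∃ t, chk3 f_A00pm_123_s3 t 493 28 8 = true := ex3_a k41_A00pm_123_s3 t193_A00pm_123_s3

theorem t195_A00pm_123_s3 : ∃ t, chk3 f_A00pm_123_s3 t 493 28 4 = true := ex3_c t194_A00pm_123_s3 k44_A00pm_123_s3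

theorem t196_A00pm_123_s3 : ∃ t, chk3 f_A00pm_123_s3 t 246 28 4 = true := ex3_a k40_A00pm_123_s3 t195_A00pm_123_s3

theorem t197_A00pm_123_s3 : ∃ t, chk3 f_A00pm_123_s3 t 246 28 2 = true := ex3_c t196_A00pm_123_s3 k45_A00pm_123_s3

theorem t198_A00pm_123_s3 : ∃ t, chk3 f_A00pm_123_s3 t 246 28 1 = true := ex3_c t197_A00pm_123_s3 k46_A00pm_123_s3

theorem t199_A00pm_123_s3 : ∃ t, chk3 f_A00pm_123_s3 t 123 28 1 = true := ex3_a t198_A00pm_123_s3 t192_A00pm_123_s3

theorem t200_A00pm_123_s3 : ∃ t, chk3 f_A00pm_123_s3 t 61 28 1 = true := ex3_a k39_A00pm_123_s3 t199_A00pm_123_s3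

theorem t201_A00pm_123_s3 : ∃ t, chk3 f_A00pm_123_s3 t 61 14 1 = true := ex3_b t200_A00pm_123_s3 k64_A00pm_123_s3

theorem t202_A00pm_123_s3 : ∃ t, chk3 f_A00pm_123_s3 t 30 14 1 = true := ex3_a k38_A00pm_123_s3 t201_A00pm_123_s3

theorem t203_A00pm_123_s3 : ∃ t, chk3 f_A00pm_123_s3 t 30 7 1 = true := ex3_b t202_A00pm_123_s3 k65_A00pm_123_s3

theorem t204_A00pm_123_s3 : ∃ t, chk3 f_A00pm_123_s3 t 30 13 1 = true := ex3_b k36_A00pm_123_s3 k37_A00pm_123_s3

theorem t205_A00pm_123_s3 : ∃ t, chk3 f_A00pm_123_s3 t 120 50 1 = true := ex3_c k31_A00pm_123_s3 k32_A00pm_123_s3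

theorem t206_A00pm_123_s3 : ∃ t, chk3 f_A00pm_123_s3 t 60 50 1 = true := ex3_a t205_A00pm_123_s3 k33_A00pm_123_s3

theorem t207_A00pm_123_s3 : ∃ t, chk3 f_A00pm_123_s3 t 60 25 1 = true := ex3_b t206_A00pm_123_s3 k34_A00pm_123_s3

theorem t208_A00pm_123_s3 : ∃ t, chk3 f_A00pm_123_s3 t 60 12 1 = true := ex3_b k30_A00pm_123_s3 t207_A00pm_123_s3

theorem t209_A00pm_123_s3 : ∃ t, chk3 f_A00pm_123_s3 t 30 12 1 = true := ex3_a t208_A00pm_123_s3 k35_A00pm_123_s3

theorem t210_A00pm_123_s3 : ∃ t, chk3 f_A00pm_123_s3 t 30 6 1 = true := ex3_b t209_A00pm_123_s3 t204_A00pm_123_s3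

theorem t211_A00pm_123_s3 : ∃ t, chk3 f_A00pm_123_s3 t 30 3 1 = true := ex3_b t210_A00pm_123_s3 t203_A00pm_123_s3

theorem t212_A00pm_123_s3 : ∃ t, chk3 f_A00pm_123_s3 t 15 3 1 = true := ex3_a t211_A00pm_123_s3 t176_A00pm_123_s3

theorem t213_A00pm_123_s3 : ∃ t, chk3 f_A00pm_123_s3 t 15 1 1 = true := ex3_b k29_A00pm_123_s3 t212_A00pm_123_s3

theorem t214_A00pm_123_s3 : ∃ t, chk3 f_A00pm_123_s3 t 29 7 1 = true := ex3_b k27_A00pm_123_s3 k28_A00pm_123_s3

theorem t215_A00pm_123_s3 : ∃ t, chk3 f_A00pm_123_s3 t 119 24 1 = true := ex3_b k23_A00pm_123_s3 k24_A00pm_123_s3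

theorem t216_A00pm_123_s3 : ∃ t, chk3 f_A00pm_123_s3 t 59 24 1 = true := ex3_a k22_A00pm_123_s3 t215_A00pm_123_s3

theorem t217_A00pm_123_s3 : ∃ t, chk3 f_A00pm_123_s3 t 59 12 1 = true := ex3_b t216_A00pm_123_s3 k25_A00pm_123_s3

theorem t218_A00pm_123_s3 : ∃ t, chk3 f_A00pm_123_s3 t 59 6 1 = true := ex3_b t217_A00pm_123_s3 k26_A00pm_123_s3

theorem t219_A00pm_123_s3 : ∃ t, chk3 f_A00pm_123_s3 t 29 6 1 = true := ex3_a k21_A00pm_123_s3 t218_A00pm_123_s3

theorem t220_A00pm_123_s3 : ∃ t, chk3 f_A00pm_123_s3 t 29 3 1 = true := ex3_b t219_A00pm_123_s3 t214_A00pm_123_s3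

theorem t221_A00pm_123_s3 : ∃ t, chk3 f_A00pm_123_s3 t 232 46 1 = true := ex3_c k15_A00pm_123_s3 k16_A00pm_123_s3

theorem t222_A00pm_123_s3 : ∃ t, chk3 f_A00pm_123_s3 t 116 46 1 = true := ex3_a t221_A00pm_123_s3 k17_A00pm_123_s3

theorem t223_A00pm_123_s3 : ∃ t, chk3 f_A00pm_123_s3 t 116 23 1 = true := ex3_b t222_A00pm_123_s3 k18_A00pm_123_s3

theorem t224_A00pm_123_s3 : ∃ t, chk3 f_A00pm_123_s3 t 58 23 1 = true := ex3_a t223_A00pm_123_s3 k19_A00pm_123_s3

theorem t225_A00pm_123_s3 : ∃ t, chk3 f_A00pm_123_s3 t 58 11 1 = true := ex3_b k14_A00pm_123_s3 t224_A00pm_123_s3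

theorem t226_A00pm_123_s3 : ∃ t, chk3 f_A00pm_123_s3 t 29 11 1 = true := ex3_a t225_A00pm_123_s3 k20_A00pm_123_s3

theorem t227_A00pm_123_s3 : ∃ t, chk3 f_A00pm_123_s3 t 29 5 1 = true := ex3_b k13_A00pm_123_s3 t226_A00pm_123_s3

theorem t228_A00pm_123_s3 : ∃ t, chk3 f_A00pm_123_s3 t 29 2 1 = true := ex3_b k12_A00pm_123_s3 t227_A00pm_123_s3

theorem t229_A00pm_123_s3 : ∃ t, chk3 f_A00pm_123_s3 t 29 1 1 = true := ex3_b t228_A00pm_123_s3 t220_A00pm_123_s3

theorem t230_A00pm_123_s3 : ∃ t, chk3 f_A00pm_123_s3 t 28 7 1 = true := ex3_b k10_A00pm_123_s3 k11_A00pm_123_s3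

theorem t231_A00pm_123_s3 : ∃ t, chk3 f_A00pm_123_s3 t 28 3 1 = true := ex3_b k9_A00pm_123_s3 t230_A00pm_123_s3

theorem t232_A00pm_123_s3 : ∃ t, chk3 f_A00pm_123_s3 t 28 11 1 = true := ex3_a k7_A00pm_123_s3 k8_A00pm_123_s3

theorem t233_A00pm_123_s3 : ∃ t, chk3 f_A00pm_123_s3 t 28 5 1 = true := ex3_b k6_A00pm_123_s3 t232_A00pm_123_s3

theorem t234_A00pm_123_s3 : ∃ t, chk3 f_A00pm_123_s3 t 28 2 1 = true := ex3_b k5_A00pm_123_s3 t233_A00pm_123_s3

theorem t235_A00pm_123_s3 : ∃ t, chk3 f_A00pm_123_s3 t 28 1 1 = true := ex3_b t234_A00pm_123_s3 t231_A00pm_123_s3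

theorem t236_A00pm_123_s3 : ∃ t, chk3 f_A00pm_123_s3 t 14 1 1 = true := ex3_a t235_A00pm_123_s3 t229_A00pm_123_s3

theorem t237_A00pm_123_s3 : ∃ t, chk3 f_A00pm_123_s3 t 7 1 1 = true := ex3_a t236_A00pm_123_s3 t213_A00pm_123_s3

theorem t238_A00pm_123_s3 : ∃ t, chk3 f_A00pm_123_s3 t 6 3 1 = true := ex3_b k3_A00pm_123_s3 k4_A00pm_123_s3

theorem t239_A00pm_123_s3 : ∃ t, chk3 f_A00pm_123_s3 t 6 2 1 = true := ex3_b k1_A00pm_123_s3 k2_A00pm_123_s3

theorem t240_A00pm_123_s3 : ∃ t, chk3 f_A00pm_123_s3 t 6 1 1 = true := ex3_b t239_A00pm_123_s3 t238_A00pm_123_s3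

theorem t241_A00pm_123_s3 : ∃ t, chk3 f_A00pm_123_s3 t 3 1 1 = true := ex3_a t240_A00pm_123_s3 t237_A00pm_123_s3

theorem t242_A00pm_123_s3 : ∃ t, chk3 f_A00pm_123_s3 t 1 1 1 = true := ex3_a k0_A00pm_123_s3 t241_A00pm_123_s3

theorem c_A00pm_123_s3 : CertF 536870912 536870912 0 536870912 740881858 40050571 true true false .npn 1 2 3
    ndB0q1 ndB0q2 pcB3 cut_A00pm_123_s3 xt_A00pm_123_s3 :=
  certF2 (fam := true) (s1 := true) (s2 := false) (a := 1) (b := 2) (c := 3) (cn := .npn) (n1 := ndB0q1) (n2 := ndB0q2) (pc := pcB3) (cut := cut_A00pm_123_s3) (xt := xt_A00pm_123_s3) (P1 := 536870912) (W1 := 536870912) (P2 := 0) (W2 := 536870912) (P3 := 740881858) (W3 := 40050571)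
    rfl (fun _ => rfl) t242_A00pm_123_s3

theorem s_A00pm_123_s3 {κ x : ℝ} (hκ : κ * h0 = ken x) (hx : ((740881858 : ℕ) : ℝ) / S ≤ x)
    (hx' : x ≤ (((740881858 : ℕ) : ℝ) + (40050571 : ℕ)) / S)
    (H : CutA (VFD κ) PP tK tL pcB (Cut.of [[⟨0, 1, 0, 67108864⟩, ⟨1, 1, 0, 67108864⟩, ⟨2, 2, 0, 16777216⟩], [⟨0, 0, 1, 20971520⟩, ⟨1, 1, 0, 33554432⟩, ⟨2, 1, 1, 20971520⟩]]) 1 2 3 0 0 (sgb true) (sgb false) x) :
    AltA (VFD κ) PP tK tL pcB [⟨4, 0, 0, 2845415833⟩] 1 2 3 0 0 (sgb true) (sgb false) x :=
  strip_altAD (m := 2845415833) false rfl hκ (SH.κ0 hκ (SH.hx1 hx).le (SH.hx2 hx').le) (SH.hx1 hx).le (SH.hx2 hx') (covB01).cov (covB02).cov hx hx' c_A00pm_123_s3 H ((okx hx hx').extA (T := tt) (sideB hx hx') hκ rfl rfl (.O 1 true) (.O 2 false) (Or.inr rfl))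

end Pool.Agent.Strip051.G.I69_7273.Tab.St.C
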