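import Pool.Agent.Strip051.G.I69_7273.StH
import Pool.Agent.Strip051.G.I69_7273.StF

/-! # Unit strips 7 (generated) -/

set_option linter.all false
set_option maxRecDepth 100000

namespace Pool.Agent.Strip051.G.I69_7273.Tab.St.C

open Pool.Agent.Strip051.PB Pool.Agent.Strip051.PB.T Pool.Agent.StripNear Pool.Agent.Strip051.LC
open Pool.Agent.Strip051.G.I69_7273.Tab Pool.Agent.Strip051.G.I69_7273.Tab.St

noncomputable def cut_A00pm_213_s3 : Cut := Cut.of [[⟨3, 0, 0, 2845415833⟩], [⟨0, 1, 0, 67108864⟩, ⟨1, 1, 0, 67108864⟩, ⟨2, 2, 0, 16777216⟩], [⟨0, 1, 0, 33554432⟩, ⟨1, 0, 1, 20971520⟩, ⟨2, 1, 1, 20971520⟩]]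

noncomputable def xt_A00pm_213_s3 : Ext := strExt dd true true false .u2 .u0m .s2m .pnn 2 1 3 rfl rfl gl3 vv ndB0q2 ndB0q1

noncomputable def f_A00pm_213_s3 : ℕ → ℕ → ℕ → ℕ → Bool := onCell 0 536870912 1610612736 536870912 740881858 40050571
    (rowF 1 true true false .pnn 2 1 3 (qsf 0 536870912 536870912 536870912 3) ndB0q2 ndB0q1 pcB3 cut_A00pm_213_s3 xt_A00pm_213_s3)

def k0_A00pm_213_s3 : ∃ t, chk3 f_A00pm_213_s3 t 2 2 1 = true :=
  ⟨(b (a (l 1) (l 6)) (b (a (a (b (b (l 1) (a (l 16719680) (l 16704712))) (a (b (l 16730864) (l 16740608)) (b (l 16715960) (l 16725848)))) (b (b (l 1) (l 16734648)) (b (a (l 16701000) (l 16685176)) (a (l 16710984) (l 16695256))))) (a (b (a (l 16652128) (l 6)) (a (b (l 16669608) (l 16679816)) (b (l 6) (l 16665024)))) (l 6))) (a (b (a (a (b (l 535064079) (l 535122191)) (a (l 535140879) (l 535170319))) (a (b (l 16720744) (l 16730256)) (b (l 16705280) (l 16715176)))) (a (a (l 535628047) (a (b (l 535237391) (a (l 535307279) (l 535322895))) (b (l 16760256) (b (l 16756136) (l 535366927)))))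 (a (b (c (l 16739920) (l 16739016)) (b (l 16756640) (a (l 16753960) (l 16747280)))) (b (l 16724904) (a (c (l 16738592) (l 16737184)) (l 16730912)))))) (a (a (b (b (l 16690176) (l 16700528)) (b (l 16710856) (c (l 16722696) (l 16719576)))) (b (b (l 16675808) (l 16686736)) (b (l 16697784) (a (l 16711880) (l 16706080))))) (b (a (b (l 6) (l 16673960)) (l 6)) (a (a (b (l 16688728) (l 16700712)) (b (l 16683256) (l 16695920))) (b (a (l 16678384) (l 6)) (a (a (l 16692600) (l 16690600)) (b (l 6) (l 16690880)))))))))), by decide +kernel⟩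

def k1_A00pm_213_s3 : ∃ t, chk3 f_A00pm_213_s3 t 4 12 1 = true :=
  ⟨(a (b (a (b (a (l 4) (b (l 535386383) (l 535487247))) (l 4)) (a (b (c (l 535502607) (l 535423503)) (l 535671567)) (b (b (l 535447823) (l 535548431)) (a (l 535698191) (c (l 535752975) (l 535637263)))))) (b (a (l 4) (a (l 4) (a (b (l 535839503) (l 4)) (c (b (l 535905039) (c (l 536030991) (l 535974927))) (b (l 535794191) (l 535893263)))))) (l 4))) (b (a (a (b (b (l 16758504) (l 16768128)) (a (b (l 16768168) (b (l 16770728) (l 16774880))) (b (l 16765576) (l 16769120)))) (b (c (l 16755336) (l 16753776)) (b (l 16761368) (c (l 16765544) (l 16764448))))) (b (a (c (l 16748976) (l 16747048)) (l 16741752)) (a (c (l 16758152) (l 16756560)) (c (l 16752960) (l 16750808))))) (a (a (a (b (b (c (c (l 535935503) (l 535887119)) (l 535797519)) (c (b (l 535982607) (l 536001807)) (l 535896847))) (l 536040207)) (b (b (b (l 16771416) (l 535853327)) (l 535895311)) (l 536003599))) (b (b (b (l 16767696) (c (l 16769456) (l 16768888))) (c (l 535876879) (l 535801103)))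 (c (a (l 536020239) (c (b (l 535957007) (l 536055311)) (l 535955215))) (a (l 535917327) (c (l 535908879) (l 535866127)))))) (b (a (c (b (l 16763648) (c (l 16767112) (l 16766768))) (b (l 16762824) (l 16766320))) (b (l 16758496) (c (l 16762816) (l 16761792)))) (b (a (a (c (l 535905295) (l 16770600)) (c (l 16769168) (l 16768480))) (c (l 16766624) (l 16765504))) (a (c (a (b (l 16773176) (c (l 536068367) (l 16774344))) (c (l 16772384) (l 16772032))) (a (b (l 16772752) (l 535932687)) (l 535918095))) (c (c (l 16770464) (l 16769848)) (l 16768960)))))))), by decide +kernel⟩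

def k2_A00pm_213_s3 : ∃ t, chk3 f_A00pm_213_s3 t 4 13 1 = true :=
  ⟨(a (l 4) (a (b (a (l 4) (a (l 4) (a (b (b (b (l 536054031) (l 4)) (l 4)) (l 4)) (b (b (c (b (a (l 536101391) (l 536094479)) (c (l 536193807) (l 536125455))) (b (l 535981583) (l 536029455))) (l 4)) (l 4))))) (l 4)) (b (a (a (b (b (c (b (a (c (l 536121103) (l 536059663)) (l 536118799)) (l 536190223)) (b (a (l 535974415) (l 535991567)) (l 536047375))) (l 536217615)) (l 4)) (b (b (b (c (l 536149263) (l 16773648)) (l 536150031)) (l 536250383)) (l 536446735))) (b (b (b (c (l 16772544) (l 16771352)) (l 536198415)) (l 536299279)) (l 536496399))) (l 4)))), by decide +kernel⟩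

def k3_A00pm_213_s3 : ∃ t, chk3 f_A00pm_213_s3 t 5 12 1 = true :=
  ⟨(b (a (a (b (c (l 16735136) (l 16731000)) (b (l 16742360) (l 16747648))) (b (c (l 16726136) (l 16718936)) (a (l 16738800) (l 16735040)))) (a (b (b (l 16709408) (l 16717856)) (c (l 16733616) (l 16724408))) (b (a (c (l 16715048) (l 16701688)) (b (l 16700488) (l 16711104))) (a (l 16727696) (b (l 16722120) (l 16730872)))))) (a (a (b (c (b (l 16753232) (l 16757912)) (b (l 16750960) (l 16755776))) (b (a (l 16762792) (l 16760096)) (c (a (l 16768056) (l 16766584)) (l 16764576)))) (b (c (a (l 16751384) (l 16749472)) (l 16746096)) (a (c (l 16763088) (l 16758368)) (c (l 16762560) (l 16756120))))) (b (a (b (l 16740920) (l 16748296)) (a (l 16744112) (l 16744200))) (a (b (l 16755392) (l 16761888)) (a (l 16759640) (l 16760432)))))), by decide +kernel⟩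

def k4_A00pm_213_s3 : ∃ t, chk3 f_A00pm_213_s3 t 5 13 1 = true :=
  ⟨(a (b (a (b (b (a (c (l 536333327) (l 16769344)) (c (l 16770704) (l 16767128))) (a (l 536362511) (l 536423695))) (c (a (l 536708879) (l 536788495)) (a (l 536410383) (l 536453903)))) (b (a (b (l 16767768) (l 16765952)) (b (l 16767040) (l 16770848))) (a (c (l 536865807) (l 536495631)) (b (l 16763432) (c (l 16779216) (l 16773248)))))) (a (b (a (c (l 536989199) (l 536636943)) (c (l 537069839) (l 536681231))) (a (l 4) (l 536318991))) (a (b (c (l 537147663) (l 536723471)) (c (l 537415183) (l 536949263))) (b (a (l 536712463) (b (l 16778152) (l 536533775))) (a (l 536690959) (a (b (l 537185807) (l 536502543)) (b (l 537202959) (b (l 16769296) (l 536820239))))))))) (b (a (b (a (c (l 16773512) (l 16764632)) (l 16748952)) (a (c (l 16759032) (l 16771776)) (b (l 16775864) (l 16778904)))) (a (b (l 16771440) (l 16758752)) (b (l 16772912) (l 16781896)))) (a (b (a (b (l 16768712) (c (l 16783592) (l 16777344))) (b (l 16781216) (l 16761864))) (b (a (c (l 16783696)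 (l 16768048)) (c (l 16787200) (l 16780264))) (a (c (a (b (l 16782464) (l 16781952)) (l 16778696)) (a (l 537097999) (l 16769064))) (b (l 16784056) (c (l 16786688) (l 16781360)))))) (b (a (b (l 16783960) (l 16743952)) (l 16787824)) (a (b (l 16787144) (c (l 16791304) (l 16784056))) (b (l 16790424) (l 16791200))))))), by decide +kernel⟩

def k5_A00pm_213_s3 : ∃ t, chk3 f_A00pm_213_s3 t 4 14 1 = true :=
  ⟨(l 4), by decide +kernel⟩

def k6_A00pm_213_s3 : ∃ t, chk3 f_A00pm_213_s3 t 10 14 1 = true :=
  ⟨(b (a (l 4) (b (a (b (l 536827407) (l 4)) (c (b (b (a (l 537628175) (a (l 537655823) (l 537678863))) (a (l 537691663) (c (c (l 537921807) (l 537794319)) (a (l 537590031) (l 537607183))))) (b (b (a (a (l 4) (c (l 537874191) (l 537618447))) (c (l 537639183) (a (l 537637391) (l 537668367)))) (a (l 4) (l 537815823))) (a (l 4) (l 537862415)))) (b (b (a (l 537117967) (a (l 537134351) (l 537154319))) (a (l 537175055) (c (a (l 537326351) (l 537340175)) (a (l 537056015) (l 537066511))))) (b (b (a (a (l 4) (c (l 537356047) (l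 537086735))) (a (c (l 537371919) (l 537099791)) (l 537270799))) (a (l 4) (l 537286159))) (a (l 4) (l 537329167)))))) (l 4))) (l 4)), by decide +kernel⟩

def k7_A00pm_213_s3 : ∃ t, chk3 f_A00pm_213_s3 t 22 28 1 = true :=
  ⟨(b (b (a (c (b (a (l 537717519) (l 16783096)) (b (l 537530383) (l 537834255))) (b (b (l 16774000) (l 536971791)) (c (l 537429007) (l 537161743)))) (c (b (l 16775664) (l 537922831)) (b (l 16771016) (l 537412879)))) (c (a (b (b (l 537867791) (l 537899279)) (l 537677071)) (b (l 537719055) (l 538048527))) (a (b (b (l 537346831) (l 537376015)) (l 537418767)) (b (l 537474319) (l 537530383))))) (c (b (a (b (c (l 537865999) (l 537874959)) (c (l 537925903) (l 537663247))) (c (b (l 538234127) (l 538293263)) (b (l 537979151) (l 537766671)))) (b (b (a (c (l 537835535) (l 537704463)) (c (l 538067983) (l 537807119))) (a (l 4) (c (a (l 538341135) (l 538387727)) (a (l 538077199) (l 538125839))))) (a (l 4) (c (a (b (l 538101263) (l 4)) (b (l 538415887) (l 538175759))) (a (b (l 538103823) (l 4)) (b (l 538152207)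 (l 537909775))))))) (b (a (b (c (l 537608719) (l 537335311)) (c (l 537662223) (l 537385487))) (b (c (l 537717263) (l 537448207)) (c (l 537769743) (l 537497359)))) (a (a (l 4) (b (c (l 537740559) (l 537461519)) (l 4))) (b (c (a (l 537794063) (l 537845007)) (a (l 537516815) (l 537569807))) (c (a (b (l 537830671) (l 4)) (b (l 537881103) (l 537904911))) (a (b (l 537550095) (l 4)) (b (l 537602575) (l 537624079))))))))), by decide +kernel⟩

def k8_A00pm_213_s3 : ∃ t, chk3 f_A00pm_213_s3 t 23 56 1 = true :=
  ⟨(a (a (b (b (l 16786600) (l 16765272)) (c (b (l 16787880) (l 16781528)) (b (l 16783336) (l 16777616)))) (b (b (l 16788600) (l 16788264)) (b (l 16777200) (b (l 16787120) (l 16776208))))) (b (c (l 16794688) (l 16766440)) (c (b (l 16793512) (l 16771496)) (b (l 16787144) (l 16776208))))), by decide +kernel⟩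

def k9_A00pm_213_s3 : ∃ t, chk3 f_A00pm_213_s3 t 23 57 1 = true :=
  ⟨(b (a (a (c (c (a (l 538321167) (l 538342927)) (a (l 538067471) (l 538090255))) (a (c (l 537806607) (l 537538575)) (c (l 537830415) (l 537563407)))) (c (b (l 16782736) (b (l 16776448) (l 16780936))) (a (c (l 537853711) (l 537587727)) (b (l 16784304) (l 16778280))))) (a (c (b (l 16790272) (l 16783624)) (b (l 16785440) (l 16779416))) (b (l 16778856) (b (l 16788544) (l 16777480))))) (a (c (c (a (b (a (l 538138383) (l 538427919)) (a (a (l 538189071) (b (l 538454031) (l 538213391))) (b (l 538201359) (a (l 538223887) (l 538502671))))) (b (a (l 538448399) (l 16781072)) (a (b (l 538489871) (l 538517775)) (b (l 16779672) (l 538521103))))) (a (b (a (l 537879311) (l 538169871)) (a (a (b (l 538180879) (l 538206735)) (b (l 538192143) (l 537949455))) (b (l 538208783) (a (l 538228751) (l 538239759))))) (b (a (l 538191631) (l 16779616)) (a (b (l 538230031) (l 538255631)) (b (l 16783696) (l 538273295)))))) (a (b (a (c (l 537881359) (l 537607439)) (c (l 537904655)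 (l 537632015))) (a (a (c (b (l 537911055) (l 537934607)) (b (l 537634063) (l 537655311))) (c (b (l 537922831) (l 537946383)) (b (l 537646351) (l 537667343)))) (b (c (l 537940239) (l 537664271)) (c (a (l 537957903) (l 537969167)) (a (l 537679375) (l 537691407)))))) (b (a (c (l 537927439) (l 537655823)) (b (l 16782840) (l 16777096))) (a (b (c (l 537962767) (l 16777784)) (c (l 537986063) (l 537708815))) (b (c (l 16777200) (l 16781160)) (c (l 538004751) (l 16778056))))))) (a (b (c (b (l 16777232) (l 16781648)) (b (l 16773496) (l 16778240))) (c (a (b (l 16780248) (l 538395663)) (b (l 16786528) (l 16780392))) (a (b (l 16777352) (l 537864975)) (b (l 16783264) (l 16777456))))) (b (c (l 16783864) (a (l 16784608) (l 16785072))) (c (a (l 16781744) (l 16787768)) (a (l 16778304) (l 16773520))))))), by decide +kernel⟩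

def k10_A00pm_213_s3 : ∃ t, chk3 f_A00pm_213_s3 t 22 58 1 = true :=
  ⟨(b (a (l 4) (a (l 4) (b (c (b (c (c (l 538239759) (l 538137103)) (c (l 538002959) (l 538135567))) (a (l 4) (a (l 4) (b (c (l 538240527) (l 538239759)) (l 4))))) (b (c (c (l 537997839) (l 537858063)) (a (l 537632271) (l 537657615))) (a (l 4) (a (l 4) (b (c (l 537963023) (l 537678863)) (l 4)))))) (l 4)))) (l 4)), by decide +kernel⟩

def k11_A00pm_213_s3 : ∃ t, chk3 f_A00pm_213_s3 t 46 232 2 = true :=
  ⟨(a (c (b (a (a (a (l 538496271) (c (l 538486031) (l 538435599))) (b (l 538234127) (c (l 538205455) (l 538181903)))) (a (b (l 538512911) (l 538249487)) (l 538248207))) (a (a (a (b (l 538248463) (b (c (l 538461455) (l 538460687)) (l 4))) (a (a (b (l 538251791) (b (c (l 538391823) (l 538329871)) (l 4))) (b (c (l 538467599) (l 538455311)) (b (c (l 538391055) (l 538331151)) (c (l 538451727) (l 538471951))))) (b (c (l 538197519) (l 538457103)) (b (c (b (l 538458127) (l 538320911)) (b (l 538465551) (l 538200591))) (l 538502159))))) (b (b (a (l 538249743)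 (l 538514191)) (a (b (l 538244879) (l 538241807)) (l 538507791))) (b (b (a (l 538238479) (l 538503183)) (l 538233615)) (l 538497295)))) (b (a (l 538236943) (l 538497807)) (a (l 538224399) (l 538485519))))) (b (a (a (a (l 538229263) (c (l 538302223) (l 538167055))) (a (c (l 538307855) (l 538172687)) (b (l 538239503) (l 538252303)))) (a (b (l 538247695) (l 538260495)) (l 537996559))) (a (b (a (a (l 538248207) (c (a (l 538320143) (l 538322959)) (a (l 538183951) (l 538186767)))) (b (a (l 538256143) (l 538261519)) (a (c (l 538330383) (l 538194191)) (l 538267919)))) (b (a (a (c (l 538325775) (l 538189071)) (c (a (b (l 538328335) (l 538331407)) (b (l 538330895) (l 538334223))) (a (b (l 538191631) (l 538194703)) (b (l 538194447) (l 538197519))))) (b (a (l 538267151) (l 538272527)) (l 538273039))) (a (a (l 4) (a (a (l 4) (c (l 538337039) (l 538200079))) (l 538270735))) (l 538277647)))) (b (a (l 538004495) (l 538283535)) (a (l 538017039) (l 538296079)))))) (b (a (c (l 538237199) (l 538012431)) (c (l 538497039) (l 538297615)))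 (a (b (l 538165007) (l 538178063)) (a (l 538185743) (l 538185231))))), by decide +kernel⟩

def k12_A00pm_213_s3 : ∃ t, chk3 f_A00pm_213_s3 t 46 233 2 = true :=
  ⟨(a (b (a (a (l 4) (c (l 538280207) (l 538024975))) (c (l 538202127) (l 538041103))) (a (l 4) (b (c (l 538183695) (l 538059535)) (a (l 4) (l 538214671))))) (a (b (l 538197519) (c (l 538163983) (l 538354703))) (a (b (l 538479631) (a (l 538235407) (l 538236431))) (b (l 538476303) (l 538227471))))), by decide +kernel⟩

def k13_A00pm_213_s3 : ∃ t, chk3 f_A00pm_213_s3 t 46 232 3 = true :=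
  ⟨(a (b (a (c (a (a (l 537954831) (c (l 538029839) (l 537891087))) (a (c (l 538035727) (l 537896975)) (b (l 537966607) (l 537977871)))) (a (a (l 537672975) (c (l 537750031) (l 537607439))) (a (c (l 537756175) (l 537613583)) (b (l 537686031) (l 537696015))))) (c (a (b (l 537975055) (l 537986575)) (l 537992207)) (a (b (l 537694991) (l 537704975)) (l 537711887)))) (a (b (c (a (a (l 537971983) (c (a (l 538045967) (l 538048783)) (a (l 537906191) (l 537909007)))) (b (a (l 537980687) (l 537986319)) (a (c (l 538055951) (l 537916175)) (l 537991951)))) (a (a (l 537688079) (a (c (l 537764367) (l 537620495)) (c (l 537767183) (l 537623567)))) (b (a (l 537697807) (l 537703695)) (a (a (l 537701135) (l 537704207)) (l 537708559))))) (c (a (b (a (c (l 538050319) (l 537909775)) (c (a (b (l 538053135) (a (l 538055439) (l 538056975))) (b (l 538056207) (l 538059023))) (a (b (l 537912847) (a (l 537914895) (l 537916431))) (b (l 537915919) (l 537918479))))) (a (l 4) (a (a (l 4) (c (l 538061327) (l 537920527))) (l 537993231)))) (b (b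 (a (l 537990671) (l 537996303)) (l 537996303)) (l 538000399))) (a (b (a (c (l 537767439) (l 537623311)) (c (a (b (l 537770767) (a (l 537772559) (l 537774095))) (b (l 537773839) (b (l 537775631) (l 537776911)))) (a (b (l 537626639) (a (l 537628431) (l 537629711))) (b (l 537629711) (b (l 537631503) (l 537632783)))))) (a (l 4) (a (a (l 4) (c (l 537777935) (l 537633551))) (l 537708047)))) (b (b (a (l 537706511) (l 537712399)) (l 537711887)) (l 537715727))))) (b (c (a (l 537997839) (l 538009103)) (a (l 537715215) (l 537726735))) (b (c (l 538011919) (l 537728271)) (l 537876239))))) (b (a (c (l 538008847) (l 537729039)) (c (l 538027023) (l 537748495))) (a (b (l 537885711) (l 537896207)) (b (l 537635343) (l 537645327))))), by decide +kernel⟩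

def k14_A00pm_213_s3 : ∃ t, chk3 f_A00pm_213_s3 t 46 233 3 = true :=
  ⟨(a (b (a (a (l 4) (c (l 538014479) (l 537728015))) (c (l 538031375) (l 537745679))) (a (l 4) (c (c (l 538124303) (l 537981967)) (a (l 537758991) (l 537770511))))) (a (c (l 537796111) (l 537778191)) (a (b (l 537927183) (c (l 538088975) (l 537802255))) (b (l 537926671) (l 537673231))))), by decide +kernel⟩

def k15_A00pm_213_s3 : ∃ t, chk3 f_A00pm_213_s3 t 47 116 1 = true :=
  ⟨(b (c (a (b (a (l 538416399) (l 16779456)) (a (l 538166799) (l 538392079))) (b (l 538306319) (l 538039311))) (a (a (b (l 537881871) (l 537359887)) (b (l 16776856) (l 537864207))) (b (l 537530127) (l 537529871)))) (b (a (a (c (l 538182159) (l 537639695)) (c (l 538397711) (l 537867535))) (c (l 538300431) (l 537521935))) (a (a (a (c (l 538204687) (l 537656079)) (c (l 538443791) (l 537901839))) (c (l 538392847) (l 537861391))) (c (l 538291471) (l 537780495))))), by decide +kernel⟩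

def k16_A00pm_213_s3 : ∃ t, chk3 f_A00pm_213_s3 t 46 117 1 = true :=
  ⟨(a (l 4) (c (b (a (b (a (b (l 538237711) (l 4)) (l 538174479)) (l 4)) (b (b (a (a (l 538242831) (l 538247439)) (l 538103055)) (a (a (a (l 538231567) (l 538097679)) (c (a (l 538131215) (l 538134543)) (l 538128911))) (b (l 538236431) (l 538234383)))) (a (b (a (b (c (a (l 538118927) (l 538120975)) (l 538137103)) (l 4)) (l 538247439)) (a (l 4) (l 538113551))) (c (l 538184719) (l 538380303))))) (a (l 4) (a (l 4) (a (l 4) (b (b (l 538265103) (l 4)) (l 4)))))) (b (a (b (c (l 537895183) (l 537805839)) (l 4)) (b (a (c (a (l 537840655) (b (l 538103567) (l 537846799))) (a (l 537819151) (l 537552399))) (b (l 537478671) (a (l 537683727) (l 537938703)))) (a (a (b (b (c (l 537853199) (l 537829903)) (l 4)) (l 4)) (b (l 537700623) (l 537712143))) (c (l 538099471) (l 537810447))))) (b (a (l 4) (a (l 4) (a (l 4) (b (l 537967887) (l 4))))) (l 4))))), by decide +kernel⟩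

def k17_A00pm_213_s3 : ∃ t, chk3 f_A00pm_213_s3 t 47 117 1 = true :=
  ⟨(b (a (b (a (b (c (l 538186511) (l 537371919)) (c (l 538183951) (l 537905423))) (c (l 538118159) (l 537853967))) (c (a (c (l 538264591) (l 538335503)) (l 538139919)) (a (c (l 538059535) (l 537775887)) (l 537870095)))) (c (b (l 538025999) (a (l 538349071) (l 538291727))) (b (l 537512207) (a (l 537822991) (l 537776911))))) (a (c (b (a (c (b (l 538263823) (a (l 538235919) (l 538288143))) (a (l 538112527) (l 538083087))) (c (l 538304527) (l 538039823))) (a (a (l 4) (a (l 4) (b (l 538238479) (l 4)))) (a (c (l 538402319) (l 538088975)) (b (l 538185743) (l 538238735))))) (a (b (c (a (l 538099727) (l 538073615)) (l 537798927)) (a (l 4) (a (l 4) (b (l 537946383) (l 4))))) (b (c (l 538035215) (l 537753871)) (c (a (l 538078735) (l 538053391)) (l 537780239))))) (a (c (b (l 538147855) (c (l 538550543) (l 538019343))) (b (l 537848847) (c (l 538016271) (l 537736719)))) (c (c (l 538337039) (l 537947663)) (c (l 537952783) (l 537680911)))))), by decide +kernel⟩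

def k18_A00pm_213_s3 : ∃ t, chk3 f_A00pm_213_s3 t 11 59 1 = true :=
  ⟨(a (l 4) (a (l 4) (b (b (a (b (b (a (l 4) (a (l 4) (c (c (l 538359823) (l 538357519)) (c (l 538078479) (l 537790735))))) (l 4)) (l 4)) (c (a (b (c (b (l 538313999) (l 538470671)) (c (l 538125583) (l 538258191))) (a (l 4) (b (c (l 538345231) (l 538344207)) (a (l 4) (c (l 538496783) (l 538359567)))))) (c (b (l 538266383) (a (b (l 538584335) (l 538340623)) (l 538299407))) (b (l 538273039) (c (l 538383119) (l 538247439))))) (a (b (c (l 538151183) (l 537765903)) (a (l 4) (c (l 538142735) (l 537787151)))) (b (c (l 538002703) (l 537723919)) (c (l 538107151) (l 537755919)))))) (a (l 4) (b (a (l 4) (b (c (a (b (c (l 538493967) (l 538356751)) (l 4)) (c (l 538371087) (l 538336527))) (c (l 538137103) (l 537781775))) (b (a (l 4) (c (c (l 538491663) (l 538354447)) (l 538064911))) (l 4)))) (l 4)))) (l 4)))), by decide +kernel⟩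

def k19_A00pm_213_s3 : ∃ t, chk3 f_A00pm_213_s3 t 2 15 1 = true :=
  ⟨(l 4), by decide +kernel⟩

def k20_A00pm_213_s3 : ∃ t, chk3 f_A00pm_213_s3 t 3 2 1 = true :=
  ⟨(b (l 6) (b (l 6) (a (l 6) (l 6)))), by decide +kernel⟩

def k21_A00pm_213_s3 : ∃ t, chk3 f_A00pm_213_s3 t 6 6 1 = true :=
  ⟨(b (a (b (b (a (c (a (l 16709008) (l 16704536)) (a (l 16693760) (l 16689168))) (l 6)) (b (a (c (l 16722576) (l 16710544)) (l 6)) (a (a (l 16730056) (l 16729280)) (a (l 16727808) (l 6))))) (b (a (a (b (l 16739320) (l 16748352)) (l 16744528)) (a (l 16744432) (l 16702272))) (a (a (l 16760544) (b (l 16756816) (l 16763400))) (a (l 16761976) (l 16721496))))) (b (l 6) (b (a (a (l 16702280) (l 6)) (l 6)) (a (a (b (l 16760352) (l 16769488)) (c (l 16759008) (l 16775624))) (a (b (l 6) (l 16773248)) (l 6)))))) (b (a (a (b (a (l 16773120) (l 16772768)) (a (l 16782744) (l 16782232))) (b (a (l 16772888) (l 16774416)) (a (l 16739088) (l 16781184)))) (a (b (a (l 16776048) (l 16777800)) (a (l 16781672) (l 16782120))) (b (a (l 16778976) (l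 16694912)) (a (l 16781696) (l 16696160))))) (a (a (b (a (l 16789224) (l 16789304)) (a (l 16792720) (l 16792912))) (b (a (l 16704840) (b (l 16785400) (l 16787760))) (b (a (l 16791440) (a (l 16790584) (l 16789344))) (a (l 16792360) (b (l 16749256) (l 16770160)))))) (b (a (b (l 16742904) (l 16744304)) (b (l 16718552) (a (l 16782784) (l 16778984)))) (b (a (a (l 16787968) (l 16785696)) (a (l 16782504) (b (l 16778056) (l 16777632)))) (a (a (b (l 16788640) (a (a (l 16769032) (l 16789344)) (l 16746232))) (a (l 16765608) (l 16743032))) (a (c (l 16737416) (l 16784648)) (c (l 16729752) (l 16783080))))))))), by decide +kernel⟩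

def k22_A00pm_213_s3 : ∃ t, chk3 f_A00pm_213_s3 t 7 6 1 = true :=
  ⟨(b (l 6) (a (b (b (a (a (l 16693880) (l 6)) (l 6)) (a (a (c (l 16761888) (l 16794048)) (c (l 16756232) (l 16795416))) (a (b (l 6) (c (l 16710192) (l 16796400))) (l 6)))) (a (b (a (b (l 16775672) (a (l 16775472) (l 16772928))) (b (a (l 16772824) (l 16771568)) (c (l 16672080) (l 16786000)))) (b (a (c (l 16721104) (l 16783528)) (c (l 16714672) (l 16782960))) (a (c (b (l 16763632) (l 16722536)) (b (l 16781600) (l 16738808))) (c (b (l 16757936) (l 16738184)) (b (l 16781472) (l 16738864)))))) (c (b (a (b (l 16709944) (l 16710312)) (b (a (l 16750448) (l 16708608)) (l 16730984))) (a (b (l 16732928) (b (l 16755792) (l 16725880))) (b (l 16733424) (a (l 16757056) (l 16758248))))) (b (a (b (l 16792144) (l 16788472)) (b (a (l 16795544) (l 16798848)) (l 16794200))) (a (b (l 16786016) (b (l 16784816) (l 16763328))) (b (l 16792152) (b (l 16791176) (l 16790776)))))))) (b (l 6) (c (b (a (b (l 6) (a (l 16721528) (l 16712624))) (l 6)) (b (a (a (a (l 16756056)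 (l 16757280)) (l 16717200)) (a (c (l 16756328) (l 16767520)) (l 6))) (a (a (a (l 16759936) (l 16761472)) (l 16763736)) (a (c (l 16761336) (l 16771464)) (c (a (l 16764032) (l 16765704)) (l 16771968)))))) (a (b (b (l 6) (a (a (l 16797112) (l 16794104)) (l 16768560))) (a (a (b (l 16796640) (l 16796552)) (l 16795424)) (b (l 16749248) (l 16792920)))) (b (l 6) (b (a (l 16765464) (l 6)) (a (l 16788616) (a (l 16785192) (l 16782864)))))))))), by decide +kernel⟩

def k23_A00pm_213_s3 : ∃ t, chk3 f_A00pm_213_s3 t 6 28 1 = true :=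
  ⟨(a (a (b (a (b (l 16793024) (b (l 16792328) (l 16791600))) (b (l 16793304) (l 16792312))) (a (a (b (b (l 16790336) (l 16789264)) (b (c (l 16790400) (l 16785584)) (c (l 16788712) (l 16774032)))) (b (b (l 16790912) (l 16789840)) (b (l 16788616) (a (l 16787128) (l 16776808))))) (b (b (l 16791056) (l 16790000)) (c (b (l 16791648) (l 16790104)) (a (l 16774824) (l 16785008)))))) (b (a (b (l 16792312) (l 16791368)) (b (l 16770000) (l 16747920))) (a (b (a (l 16789712) (l 16789216)) (b (l 16788032) (l 16766072))) (b (l 16788528) (l 16787224))))) (b (a (a (b (a (b (a (l 16790328) (l 16789496)) (l 16769056)) (c (l 16792480) (l 16762856))) (a (l 16789080) (b (a (l 16788880) (l 16787952)) (l 16767416)))) (b (a (l 16765560) (l 16742736)) (a (b (l 16744696) (l 16744952)) (l 16763960)))) (c (a (a (l 16762240) (l 16737432)) (a (l 16733984) (l 16751592))) (a (b (l 16741104) (l 16740168)) (b (l 16739464) (l 16739008))))) (a (a (b (a (l 16787992) (l 16767096)) (l 16745832)) (b (a (b (a (l 16787680) (l 16787080)) (l 16767064))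 (l 16765400)) (a (a (l 16788480) (l 16768088)) (b (l 16766936) (a (l 16789632) (l 16789144)))))) (a (b (a (l 16742776) (l 16741016)) (a (l 16787400) (l 16764824))) (b (c (l 16737416) (l 16739528)) (a (l 16742192) (l 16740536))))))), by decide +kernel⟩

def k24_A00pm_213_s3 : ∃ t, chk3 f_A00pm_213_s3 t 6 58 1 = true :=
  ⟨(a (a (b (b (a (a (c (b (l 16787352) (l 16786392)) (b (l 16783632) (l 16777760))) (c (l 16782536) (l 16778440))) (a (c (l 16788352) (l 16783768)) (l 16775752))) (a (a (c (l 538169103) (l 537682703)) (c (l 537518607) (l 537590031))) (a (c (l 16781720) (l 16782928)) (c (l 16787576) (l 16783048))))) (a (a (b (c (b (l 537912591) (l 538209295)) (b (l 537689359) (l 537710607))) (c (a (b (l 538002447) (l 537772047)) (b (l 538217743) (l 537987855))) (c (a (l 537905935) (l 537860623)) (l 537619471)))) (b (c (c (l 537937167) (l 537975567)) (a (l 537636111) (l 537595151))) (a (c (c (l 538305551) (l 538065167)) (l 537689615)) (c (l 537869071) (l 537649423))))) (a (b (c (c (l 16781392) (l 16779696)) (l 537536527))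 (c (c (l 537913359) (l 537951759)) (b (l 16776632) (l 537606927)))) (b (c (l 16781400) (l 16782600)) (c (c (l 16781392) (l 16779664)) (b (l 16782320) (l 16782112))))))) (a (b (a (b (l 16786224) (l 16775072)) (c (l 16788856) (l 16783112))) (b (a (c (l 16787320) (l 16782760)) (l 16785560)) (a (c (l 16781440) (l 16782560)) (c (l 16787672) (l 16782944))))) (b (c (l 16789944) (l 16783296)) (b (c (l 16789680) (l 16783552)) (c (l 16789592) (l 16783808)))))) (a (b (a (l 16788136) (a (l 16789720) (b (l 16769704) (l 16791360)))) (a (c (l 16792680) (l 16785096)) (a (l 16791104) (l 16771808)))) (a (b (a (c (l 16774360) (c (l 16767104) (l 16762056))) (c (l 16793240) (l 16785672))) (a (b (a (l 16793248) (l 16793624)) (l 16794656)) (c (b (l 16797600) (l 16800176)) (b (l 16787800) (l 16789120))))) (a (b (l 16767000) (a (l 16792640) (l 16791792))) (b (l 16765336) (l 16790352)))))), by decide +kernel⟩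

def k25_A00pm_213_s3 : ∃ t, chk3 f_A00pm_213_s3 t 48 118 1 = true :=
  ⟨(a (b (a (c (c (b (l 538477839) (b (l 538513167) (l 538537999))) (b (l 538221327) (l 538264335))) (b (l 537820687) (a (l 538134799) (l 537845007)))) (c (b (l 537828623) (c (l 538202895) (l 538214671))) (c (l 537930767) (l 537659663)))) (c (c (c (a (b (l 538542095) (a (b (l 538699279) (l 4)) (b (l 538671119) (l 538700815)))) (b (l 538319119) (b (l 538361615) (l 538659855)))) (a (b (a (l 538525199) (l 538498319)) (a (b (l 538565391) (l 4)) (b (l 538538511) (l 538566671)))) (b (l 538458895) (a (l 538526479) (l 538500623))))) (a (b (c (l 538378255) (l 538242575)) (a (b (l 538494223) (l 4)) (b (l 538335247) (l 538495247)))) (b (l 538261519) (a (l 538458127) (l 538299919))))) (a (c (b (l 538102031) (a (b (l 538078735) (l 4)) (l 538201871))) (b (l 537750287) (a (b (l 537788431) (l 4)) (l 537778447)))) (c (b (l 537990671) (a (l 538045711) (l 538024207))) (b (l 537711119) (l 538017807)))))) (b (a (c (b (l 537979663) (c (l 538419215) (l 538167055)))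 (b (l 537737231) (l 537772815))) (c (c (l 538076431) (l 538099471)) (b (l 537697551) (l 537733391)))) (a (c (b (c (a (l 538484495) (l 538458895)) (l 538214159)) (a (c (l 538272271) (l 538276367)) (c (l 538515471) (l 538253327)))) (b (a (l 537821455) (l 537801487)) (a (l 537862927) (l 538111503)))) (b (c (c (l 538422031) (l 538168591)) (l 537772303)) (c (c (a (l 538490895) (l 538466575)) (l 538219535)) (a (l 537823759) (l 537804815))))))), by decide +kernel⟩

def k26_A00pm_213_s3 : ∃ t, chk3 f_A00pm_213_s3 t 48 119 1 = true :=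
  ⟨(a (a (l 4) (b (b (a (b (c (c (c (l 538704143) (l 538569743)) (l 538363663)) (c (l 538080783) (l 537789199))) (l 4)) (c (c (c (a (l 538666511) (l 538552591)) (l 538693647)) (b (l 538339855) (l 538367759))) (c (l 538071823) (l 537780751)))) (l 4)) (l 4))) (b (c (c (b (a (a (c (l 538398991) (l 538534415)) (b (l 538359055) (a (l 538396431) (l 538585359)))) (b (a (l 538535695) (l 538511631)) (a (l 538567183) (l 538543119)))) (a (a (b (b (l 538439439) (b (l 538451471) (l 4))) (l 4)) (b (c (c (l 538791183) (l 538657551)) (l 538589967)) (c (c (l 538624271) (l 538691343)) (l 538588943)))) (a (b (b (l 538591247) (l 538607631)) (l 538364687)) (b (l 538575631) (l 538609167))))) (b (a (a (l 538598927) (b (l 538293519) (l 538455823))) (a (l 538419471) (l 538263055))) (a (b (a (a (l 538446351) (l 538401295)) (c (l 538419727) (l 538280719))) (a (l 4) (a (l 538453263) (l 538374927)))) (b (a (l 538328335) (l 538306319)) (l 538347279))))) (b (a (a (b (l 537895951) (l 538187279)) (b (l 538144527) (a (l 538172687) (l 537894415))))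 (a (b (l 537856783) (l 538014223)) (b (l 537837839) (l 537861135)))) (a (a (b (b (l 537936655) (b (l 537945615) (l 4))) (l 4)) (b (c (a (l 538073103) (l 538062863)) (a (l 537780751) (l 537771535))) (a (c (l 538099471) (l 537803535)) (l 537943055)))) (b (a (b (l 537897999) (l 537910031)) (l 537885199)) (a (l 538197263) (l 537910031)))))) (b (a (l 4) (a (b (c (c (c (l 538467087) (l 538598927)) (l 538389263)) (c (l 538101519) (l 537804559))) (l 4)) (c (b (c (l 538375439) (l 538367503)) (c (c (l 538747919) (l 538610447)) (l 538399759))) (c (l 538096143) (l 537799439))))) (l 4)))), by decide +kernel⟩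

def k27_A00pm_213_s3 : ∃ t, chk3 f_A00pm_213_s3 t 49 118 1 = true :=
  ⟨(a (b (c (a (c (l 538296591) (l 538055183)) (b (l 538108687) (l 538155791))) (a (l 537811727) (l 537640719))) (c (a (b (c (l 538374159) (l 538124815)) (c (l 538431503) (l 538176015))) (b (l 538206735) (c (l 538386191) (l 538134543)))) (a (b (l 537734671) (b (l 537765647) (l 537787663))) (b (l 537698319) (l 537740559))))) (b (c (c (a (l 538206223) (l 16785848)) (l 537952271)) (b (l 16776640) (l 537606415))) (c (b (a (l 538164751) (l 538124815)) (a (l 538219791) (l 538180111))) (b (l 537646351) (a (l 537705999) (l 537672719)))))), by decide +kernel⟩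

def k28_A00pm_213_s3 : ∃ t, chk3 f_A00pm_213_s3 t 49 119 1 = true :=
  ⟨(b (a (b (a (c (c (b (l 538476559) (l 538508303)) (l 538231055)) (b (l 537810191) (l 537833487))) (c (c (l 538447631) (l 538189839)) (l 537786127))) (c (c (a (b (l 538540815) (l 538574607)) (l 538513423)) (a (b (l 538274319) (l 538304783)) (l 538248719))) (a (b (l 537857551) (l 537882639)) (b (l 537821967) (l 537847055))))) (b (c (a (l 538278671) (l 538239503)) (a (l 537751823) (l 537718799))) (c (a (c (l 538470927) (l 538209551)) (l 538302479)) (a (l 537800719) (l 537767951))))) (a (c (c (b (a (b (l 538340879) (a (l 538387983) (l 538633743))) (a (l 538593807) (l 538572303))) (a (c (a (b (l 538761999) (l 4)) (b (l 538738959) (l 538777871))) (a (b (l 538623759) (l 4)) (l 538754575))) (b (l 538369551) (a (l 538418447) (l 538665487))))) (b (a (b (l 538335759) (l 538368015)) (l 538311439)) (a (b (a (l 538411535) (l 538390799)) (a (l 4) (l 538425103))) (b (l 538360847) (a (l 538404879) (l 538385423)))))) (b (a (b (a (l 537917199) (l 537899279))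 (a (l 538077967) (l 537925903))) (b (l 537872911) (l 538033935))) (c (a (b (l 538110735) (a (l 4) (l 538131727))) (b (l 538074127) (l 538104335))) (a (b (l 537743887) (a (l 4) (l 537828879))) (b (l 537777935) (l 537804047)))))) (c (c (a (b (l 538541071) (a (l 538625807) (l 538605327))) (b (l 538501135) (l 538575887))) (b (a (l 538272783) (l 538235663)) (a (l 538339599) (l 538302991)))) (b (a (l 537986831) (l 537820175)) (a (c (l 538054159) (l 537625103)) (b (l 537861391) (l 537890063))))))), by decide +kernel⟩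

def k29_A00pm_213_s3 : ∃ t, chk3 f_A00pm_213_s3 t 25 59 1 = true :=
  ⟨(a (b (c (a (b (c (l 16781568) (l 16779800)) (a (b (l 16784936) (l 538142735)) (l 538087183))) (b (l 16781920) (b (l 16786688) (l 16781072)))) (a (b (c (l 16777976) (l 16776096)) (a (l 537619471) (l 537594383))) (b (l 16782864) (c (l 16778408) (l 16776432))))) (a (b (a (b (c (l 538202383) (l 537687311)) (c (l 538265871) (l 537736975))) (b (c (l 16779344) (l 16781696)) (c (l 538241551) (l 537714703)))) (a (c (b (c (l 538463759) (l 538200847)) (c (l 538270735) (l 538268943))) (b (l 537789711) (a (l 537852687) (l 537838863)))) (c (b (l 538311439) (c (l 538519823) (l 538249743))) (b (l 537769231) (a (l 537830159) (l 537825295)))))) (b (c (a (b (l 16785432) (l 16779656)) (l 537529871)) (b (l 537111055) (a (l 16781920) (l 16782480)))) (c (a (b (l 538307343) (l 537850127)) (b (l 16780088) (l 538399247))) (a (b (l 537761807) (l 537823503)) (b (l 16776984) (l 537828111))))))) (a (b (b (c (l 16788600) (l 16783576)) (c (l 16777704) (l 16783584))) (b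 (a (c (l 16781824) (l 537676303)) (b (l 16775568) (l 16775360))) (a (c (l 537568783) (b (l 16782872) (l 537837839))) (b (l 537800463) (l 537347599))))) (b (b (l 16766408) (a (l 16776520) (l 16766816))) (b (c (l 16779248) (l 16774216)) (c (c (l 16790232) (l 16782792)) (b (l 16784640) (l 16779264))))))), by decide +kernel⟩

def k30_A00pm_213_s3 : ∃ t, chk3 f_A00pm_213_s3 t 13 59 1 = true :=
  ⟨(a (a (b (c (a (l 16771168) (l 16773408)) (c (l 16777640) (l 16774000))) (b (a (c (l 16771120) (l 16786088)) (l 16770136)) (a (c (l 16781136) (l 537331215)) (c (l 16794240) (l 16766712))))) (b (b (l 16751256) (l 16772848)) (c (a (l 16776064) (l 16799544)) (b (l 16789856) (l 16779600))))) (b (a (a (l 16775032) (b (c (l 16781432) (l 16790840)) (l 16776688))) (a (b (l 16795488) (c (l 16781872) (l 16791256))) (c (l 16798640) (l 16789712)))) (c (a (l 16802720) (a (b (l 16783744) (l 16805128)) (b (l 16802456) (c (l 16786192) (l 16780528))))) (a (l 16771256) (a (b (l 16792728) (l 16793272)) (b (l 16791608) (a (l 16793064) (l 16792440)))))))),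 by decide +kernel⟩

def k31_A00pm_213_s3 : ∃ t, chk3 f_A00pm_213_s3 t 14 28 1 = true :=
  ⟨(a (c (b (a (b (a (l 16767912) (l 16764760)) (a (l 16771008) (l 16768152))) (b (a (l 16762288) (l 16760744)) (a (l 16765944) (l 16764656)))) (a (b (a (l 16775024) (l 16772384)) (a (l 16779896) (l 16777344))) (b (a (l 16770440) (l 16769272)) (a (l 16775256) (l 16773992))))) (b (a (b (l 16759008) (l 16758808)) (b (l 16759288) (l 16759296))) (a (b (l 16759496) (l 16760984)) (b (l 16760112) (a (l 16781840) (l 16782728)))))) (c (a (b (b (a (l 16760064) (l 16760160)) (a (l 16764264) (l 16764496))) (b (a (l 16768760) (l 16768896)) (a (l 16773224) (l 16772944)))) (b (b (a (l 16761008) (l 16762328)) (a (l 16765192) (l 16766416))) (b (l 16738352) (l 16794328)))) (a (b (b (b (l 16742056) (l 16741944)) (b (l 16742064) (l 16742256))) (b (a (l 16783408) (l 16785824)) (l 16764192))) (b (b (l 16790536) (a (l 16788504) (l 16792096))) (b (l 16769296) (l 16769080)))))), by decide +kernel⟩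

def k32_A00pm_213_s3 : ∃ t, chk3 f_A00pm_213_s3 t 14 29 1 = true :=
  ⟨(b (a (a (a (b (c (l 16785088) (l 16784128)) (l 16767336)) (b (c (l 16782424) (l 16783528)) (l 16775720))) (b (c (a (l 16780072) (l 16778392)) (l 16762520)) (c (a (l 16784512) (l 16782504)) (l 16763712)))) (a (b (c (a (l 16777296) (l 16776680)) (l 16764672)) (c (a (l 16781080) (l 16780144)) (a (l 16785496) (l 16786744)))) (b (c (l 16797568) (l 16768824)) (c (a (l 16779448) (l 16779344)) (b (l 16789432) (l 16747464)))))) (a (b (a (c (a (l 16795200) (l 16791736)) (a (l 16788400) (l 16787008))) (c (a (l 16788704) (l 16786368)) (a (l 16786040) (l 16785784)))) (a (a (c (b (l 16798720) (l 16801024)) (l 16790552)) (c (l 16806536) (l 16767816))) (a (c (l 16813640) (l 16776968)) (b (l 16787832) (a (l 16789360) (l 16788656)))))) (a (a (b (c (l 16784608) (l 16786152)) (b (l 16765856) (c (l 16788856) (l 16787168)))) (b (b (l 16784624) (l 16764520)) (b (l 16765552) (c (l 16787496) (l 16787912))))) (b (c (a (l 16782552) (l 16782248)) (b (l 16768424) (l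 16768688))) (c (a (b (l 16784984) (l 16786832)) (b (l 16784832) (l 16786720))) (a (l 16773352) (l 16780656))))))), by decide +kernel⟩

def k33_A00pm_213_s3 : ∃ t, chk3 f_A00pm_213_s3 t 15 28 1 = true :=
  ⟨(c (b (a (a (b (a (l 16763848) (l 16765544)) (l 16736928)) (c (l 16763976) (l 16775472))) (a (a (l 16771408) (b (l 16770712) (l 16774024))) (a (b (l 16771712) (l 16775104)) (c (b (l 16780312) (l 16773856)) (b (l 16775416) (l 16778864)))))) (a (a (b (l 16740144) (a (l 16774056) (l 16774720))) (b (l 16774192) (l 16776624))) (a (b (a (l 16775952) (l 16777200)) (a (l 16778888) (l 16780432))) (a (b (l 16778512) (l 16782304)) (c (b (l 16777944) (l 16782344)) (l 16784448)))))) (a (b (a (a (c (l 16745856) (l 16783304)) (l 16796984)) (c (l 16788080) (l 16801824))) (a (c (a (l 16788768) (l 16790688)) (b (l 16761216) (l 16759720))) (b (l 16795872) (l 16775136)))) (a (b (b (l 16790440) (l 16770664)) (b (a (l 16793688) (l 16792376)) (a (l 16794840) (l 16794096)))) (b (a (b (l 16787360) (l 16789176)) (b (l 16785184) (l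 16808616))) (b (a (l 16791184) (l 16790360)) (a (l 16793752) (l 16793616))))))), by decide +kernel⟩

def k34_A00pm_213_s3 : ∃ t, chk3 f_A00pm_213_s3 t 15 29 1 = true :=
  ⟨(a (b (b (a (c (a (l 16776680) (l 16777048)) (a (l 16793328) (l 16775032))) (a (c (l 16778152) (l 16796648)) (l 16808680))) (a (c (a (l 16779392) (l 16779560)) (c (l 16790184) (l 16756168))) (a (b (l 16787952) (l 16830760)) (c (l 16782872) (l 16797536))))) (c (a (b (a (l 16782384) (l 16782744)) (c (l 16805216) (l 16767200))) (b (a (l 16783616) (l 16786000)) (a (l 16807936) (l 16789088)))) (a (b (b (l 16772928) (l 16773184)) (a (l 16783088) (l 16775216))) (b (a (l 16818696) (l 16799080)) (a (c (l 16795688) (l 16802200)) (l 16800696)))))) (c (a (b (b (l 16746304) (a (l 16785272) (l 16787728))) (b (a (l 16788680) (l 16791592)) (b (l 16834592) (l 16835944)))) (b (b (a (l 16786264) (l 16788552)) (a (l 16790200) (c (l 16791096) (l 16794536)))) (b (a (l 16793936) (c (l 16794344) (l 16797512))) (a (l 16796480) (l 16808040))))) (a (b (b (a (l 16796224)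 (l 16796360)) (a (l 16798152) (l 16798872))) (b (a (l 16800240) (l 16801680)) (c (l 16800488) (l 16784848)))) (a (b (b (l 16796656) (l 16799656)) (b (l 16802568) (l 16804304))) (b (b (l 16797048) (l 16800576)) (b (l 16803064) (l 16804104))))))), by decide +kernel⟩

def k35_A00pm_213_s3 : ∃ t, chk3 f_A00pm_213_s3 t 48 60 1 = true :=
  ⟨(l 4), by decide +kernel⟩

def k36_A00pm_213_s3 : ∃ t, chk3 f_A00pm_213_s3 t 49 120 2 = true :=
  ⟨(a (a (l 4) (b (a (b (c (b (c (l 538777615) (l 538638351)) (c (c (l 538816271) (l 538747407)) (l 538642959))) (b (l 538424591) (b (l 538428175) (l 4)))) (l 4)) (b (c (b (l 538686991) (c (l 538760463) (l 538622223))) (b (l 538405135) (l 538410255))) (a (l 4) (a (l 4) (b (c (l 538689039) (l 538408719)) (l 4)))))) (l 4))) (b (a (b (c (b (l 538387727) (a (l 538671119) (l 538650895))) (b (l 538376719) (l 538381839))) (c (b (a (c (l 538744847) (l 538607631)) (l 538656527)) (a (c (l 538750735) (l 538613519)) (b (l 538660879) (l 538664207)))) (b (a (l 538396943) (l 538378511)) (a (b (l 538401551)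 (l 4)) (l 538384911))))) (b (c (b (l 538616847) (l 538621967)) (l 538343183)) (c (a (b (l 538637071) (l 538643471)) (l 538621711)) (b (l 538351631) (l 538358287))))) (b (a (a (l 4) (a (l 4) (a (l 4) (b (c (l 538662159) (l 538385167)) (l 4))))) (c (c (a (b (l 538717711) (l 538725135)) (l 538702863)) (b (a (l 538582287) (l 538563855)) (a (l 538589711) (l 538571535)))) (b (a (l 538374159) (l 538356751)) (a (b (l 538379791) (l 4)) (l 538364687))))) (a (l 4) (b (a (l 4) (b (c (l 538678799) (l 538370831)) (l 4))) (l 4)))))), by decide +kernel⟩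

def k37_A00pm_213_s3 : ∃ t, chk3 f_A00pm_213_s3 t 49 120 3 = true :=
  ⟨(c (a (a (l 4) (b (b (b (a (l 538131215) (l 538113551)) (a (b (l 538135311) (l 4)) (l 538118927))) (b (a (l 4) (b (l 538123279) (l 4))) (l 4))) (l 4))) (b (a (b (a (l 538031887) (l 538081807)) (b (a (l 538107663) (l 538090767)) (a (b (l 538112527) (l 4)) (l 538097423)))) (b (l 537922831) (b (l 538066191) (l 537972239)))) (a (b (a (l 4) (b (b (l 538102799) (l 4)) (l 4))) (l 4)) (b (b (a (l 538088207) (l 538072335)) (a (b (l 538094095) (l 4)) (l 538080271))) (a (l 4) (b (b (l 538086671) (l 4)) (l 4))))))) (b (a (a (l 4) (b (b (a (l 537828367) (l 537812239)) (a (l 537833999) (l 537818127))) (a (l 4) (b (l 537958671) (l 4))))) (a (b (b (l 537788687) (l 537794575)) (b (a (l 537808655) (l 537793295)) (a (l 537815567) (l 537800207)))) (b (l 537493263) (a (l 537782031) (l 537767439))))) (a (l 4) (a (b (a (l 4) (b (l 537807887) (l 4))) (l 4)) (b (a (b (l 537792783) (l 537800975)) (b (l 537778447) (l 537786383))) (a (l 4) (b (b (l 537792783) (l 4))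 (l 4)))))))), by decide +kernel⟩

def k38_A00pm_213_s3 : ∃ t, chk3 f_A00pm_213_s3 t 49 121 1 = true :=
  ⟨(l 4), by decide +kernel⟩

def k39_A00pm_213_s3 : ∃ t, chk3 f_A00pm_213_s3 t 100 120 2 = true :=
  ⟨(c (b (a (b (a (l 538591503) (l 538575887)) (a (l 538603279) (l 538588687))) (b (l 538300175) (a (l 538586127) (l 538590991)))) (a (b (a (b (l 538613519) (a (l 538625551) (l 538616847))) (b (l 538600463) (a (l 538610959) (l 538611727)))) (a (a (b (b (l 538631695) (l 538636047)) (l 4)) (a (b (l 538627343) (l 4)) (a (b (l 538624015) (l 4)) (b (b (l 538619919) (l 538624527)) (l 538629391))))) (b (b (a (a (l 538619407) (l 538619663)) (l 538624783)) (a (a (b (l 538621455) (l 538630671)) (l 538632719)) (l 538633487))) (l 538635535)))) (b (a (b (l 538603279) (l 538620431)) (b (l 538613775) (l 538633999))) (b (a (l 538635791) (l 538650127)) (l 538651407))))) (b (a (b (a (l 538317071) (l 538302223)) (a (l 538329359) (l 538047247))) (b (l 538294543) (a (l 538312207) (l 538315535)))) (a (b (a (a (l 538348303) (l 538272783))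 (b (l 538327567) (a (l 538338063) (l 538338319)))) (a (b (a (l 538293263) (c (l 538287375) (l 538282511))) (b (b (a (l 4) (a (l 4) (l 538355215))) (l 4)) (l 4))) (b (a (b (l 538210831) (a (l 538283279) (l 538358543))) (b (l 538350607) (l 538358799))) (l 538361871)))) (b (a (b (l 538329103) (l 538344975)) (l 538347535)) (b (l 538363919) (l 538374159)))))), by decide +kernel⟩

def k40_A00pm_213_s3 : ∃ t, chk3 f_A00pm_213_s3 t 100 120 3 = true :=
  ⟨(c (b (a (b (a (l 538033167) (l 538019343)) (a (l 538045967) (l 538032911))) (b (l 537742351) (a (l 538028815) (l 538030607)))) (a (b (a (a (l 538064655) (l 538056975)) (b (l 538044943) (a (l 538055439) (l 538055183)))) (a (a (b (l 538077199) (l 4)) (a (b (l 538071567) (l 4)) (b (l 537933583) (a (l 4) (l 538074895))))) (b (a (c (b (l 538134031) (l 537937167)) (l 537790991)) (l 537974031)) (l 538078223)))) (b (a (b (l 538044943) (l 538060047)) (l 537791759)) (b (l 537942543) (l 538086927))))) (b (a (b (a (l 537739791) (l 537726991)) (a (l 537753103) (l 537741071))) (b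 (l 537449231) (a (l 537736207) (l 537735951)))) (a (b (a (a (l 537771791) (l 537764879)) (b (l 537753103) (a (l 537763599) (l 537762575)))) (a (a (b (l 537784335) (l 4)) (a (b (l 537779215) (l 4)) (b (l 537775887) (b (l 537782031) (l 4))))) (b (a (b (l 537770255) (l 537573647)) (l 537779983)) (l 537785103)))) (b (b (a (l 537751311) (l 537754639)) (l 537633807)) (b (l 537779983) (l 537789967)))))), by decide +kernel⟩

def k41_A00pm_213_s3 : ∃ t, chk3 f_A00pm_213_s3 t 101 120 1 = true :=
  ⟨(a (b (b (c (l 537903375) (l 537866255)) (c (c (l 538338831) (l 538328335)) (b (l 537883919) (l 537898511)))) (b (c (c (l 538376975) (l 538363919)) (b (l 537914639) (l 537929743))) (c (c (l 538401295) (l 538387727)) (b (l 537941775) (l 537948943))))) (b (b (c (l 538190607) (l 537875471)) (c (l 538225935) (l 537905423))) (b (c (l 538260239) (l 537934863)) (c (c (l 538690831) (l 538404367)) (l 537954831))))), by decide +kernel⟩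

def k42_A00pm_213_s3 : ∃ t, chk3 f_A00pm_213_s3 t 50 121 1 = true :=
  ⟨(a (b (b (a (l 4) (c (c (a (b (l 538650639) (l 4)) (b (l 538661135) (l 538665487))) (a (b (l 538375439) (l 4)) (l 538386447))) (a (b (l 537943823) (l 4)) (b (l 537948431) (l 537954831))))) (l 4)) (l 4)) (b (a (b (c (c (a (l 538674191) (l 538684687)) (l 538398991)) (a (l 537989903) (l 537960975))) (a (b (c (c (l 538680335) (l 538402319)) (l 537965839)) (l 4)) (c (c (l 538693135) (l 538413327)) (b (l 537970447) (l 537976847))))) (c (b (c (l 538700303) (l 538415375)) (c (l 538440463) (l 538425615))) (b (l 537967887) (a (l 537978383) (l 537982991))))) (b (a (l 4) (c (c (a (l 538912271) (l 538721295)) (a (l 538431247) (l 538439183))) (b (l 537990159) (l 538030095)))) (l 4)))), by decide +kernel⟩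

def k43_A00pm_213_s3 : ∃ t, chk3 f_A00pm_213_s3 t 51 60 1 = true :=
  ⟨(b (a (b (b (a (c (l 538484495) (l 537889551)) (l 537407759)) (a (c (l 538519567) (l 537919247)) (c (l 538543119) (l 537932047)))) (c (a (b (l 538281231) (l 538299151)) (b (l 538301455) (l 538317839))) (a (b (l 537945615) (l 537964047)) (b (l 537956111) (l 537973263))))) (b (c (a (l 538418191) (l 538574863)) (a (l 537664015) (l 537944847))) (c (a (b (l 538589455) (l 538336271)) (l 538081039)) (a (b (l 537966095) (l 537982735)) (l 537448719))))) (a (b (a (c (b (l 538040847) (a (l 538045455) (l 538323215))) (b (l 537977103) (a (l 537987599) (l 537992207)))) (c (b (l 538059535) (a (l 538332431) (l 538341647))) (b (l 537986319) (a (l 537996815) (l 538001423))))) (c (a (b (a (c (l 538731791) (l 538447375)) (a (l 538329359) (l 538065679))) (b (a (c (l 538736655) (l 538454031)) (a (l 538603535) (c (l 538749455) (l 538464271)))) (a (l 4) (c (a (l 538747407) (l 538752527)) (a (l 538464527) (l 538468623)))))) (b (a (b (l 538606863) (c (l 538753807)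 (l 538465551))) (c (l 538762511) (l 538471695))) (b (a (c (l 538757135) (l 538470159)) (l 538624271)) (c (l 538765583) (l 538478863))))) (b (a (a (l 538000399) (a (l 538003727) (l 538006031))) (a (b (l 538006031) (l 538012431)) (l 538014223))) (a (b (a (l 538009615) (a (l 538012943) (l 538015247))) (a (l 4) (a (l 538019343) (l 538021647)))) (b (a (l 538018831) (l 538023439)) (l 538027535)))))) (b (c (a (b (l 538614543) (a (l 538350607) (l 538359823))) (b (l 538632975) (l 538642191))) (a (b (l 537995535) (l 538008335)) (b (l 538004751) (l 538017551)))) (b (a (c (b (l 538361615) (l 538365711)) (b (l 538017551) (l 538023951))) (c (l 538650639) (l 538030351))) (c (a (b (l 538369551) (l 538641935)) (l 538524431)) (a (b (l 538030351) (l 538036751)) (l 538043151))))))), by decide +kernel⟩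

def k44_A00pm_213_s3 : ∃ t, chk3 f_A00pm_213_s3 t 12 61 1 = true :=
  ⟨(a (l 4) (b (a (l 4) (a (b (b (a (l 4) (c (c (l 538501903) (l 538485775)) (l 538037519))) (l 4)) (l 4)) (a (b (c (b (l 538647823) (l 538654479)) (b (l 538046735) (l 538059279))) (l 4)) (b (c (b (l 538665999) (l 538672655)) (b (l 538055951) (l 538068495))) (c (l 538280719) (b (l 538081295) (l 4))))))) (l 4))), by decide +kernel⟩

def k45_A00pm_213_s3 : ∃ t, chk3 f_A00pm_213_s3 t 26 30 1 = true :=
  ⟨(b (a (b (c (a (b (c (l 16780880) (l 16778552)) (b (l 16783288) (l 538382095))) (b (l 16782304) (a (l 16784552) (l 16780576)))) (a (b (b (l 16775216) (l 16774584)) (b (l 16779152) (l 537737743))) (b (l 16776488) (b (l 16775480) (l 16774752))))) (b (b (a (a (c (l 538651151) (l 538014223)) (l 537547279)) (c (l 16783312) (l 16779224))) (a (c (l 538401039) (l 537495055)) (c (l 538705423) (l 538050831)))) (a (b (c (l 538309135) (a (l 538039823) (l 538049039))) (c (l 538283535) (a (l 538052367) (l 538061839)))) (c (b (l 538713871) (l 538721807)) (a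 (l 537797903) (l 538075663)))))) (a (b (b (c (l 16795424) (l 16767632)) (c (l 16782528) (l 16776720))) (b (c (l 538738191) (l 537259791)) (b (l 537348879) (l 537090575)))) (b (b (l 16773160) (a (l 16770712) (l 16771640))) (b (c (l 16782376) (l 16776672)) (a (l 537102607) (l 537096975)))))) (b (b (a (c (a (a (l 538420751) (l 538707215)) (l 538197775)) (a (a (l 537536271) (l 537814031)) (a (l 538091791) (l 538101263)))) (a (a (l 537100047) (l 537650703)) (a (l 537657871) (l 537647119)))) (a (c (a (b (l 538705935) (l 538711055)) (l 538478351)) (a (a (l 537561871) (l 537839375)) (b (l 538114063) (l 538126607)))) (a (c (l 538781967) (l 537067791)) (a (l 537673743) (l 537385999))))) (a (b (a (b (c (l 538715663) (l 538120719)) (l 4)) (b (l 537914895) (l 538191375))) (l 4)) (a (b (a (l 537941263) (l 536880399)) (b (l 538225935) (l 537436431))) (b (a (b (l 538485263) (l 538489615)) (b (l 538453775) (l 538439951))) (a (b (l 538500111) (l 538484239)) (b (l 538424335) (c (l 538744335) (l 538121743))))))))), by decide +kernel⟩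

def k46_A00pm_213_s3 : ∃ t, chk3 f_A00pm_213_s3 t 27 30 1 = true :=
  ⟨(b (a (b (c (a (l 16777904) (l 16800704)) (b (l 16791760) (l 16769336))) (a (b (l 16775952) (b (l 16769056) (l 16778416))) (b (l 16771968) (l 16774952)))) (c (b (a (l 16802248) (b (a (l 16804688) (l 16804560)) (l 16802208))) (b (l 16798816) (a (l 16795192) (l 16796416)))) (b (a (l 16770832) (b (a (l 16792856) (l 16792600)) (l 16791296))) (b (l 16779152) (a (l 16787720) (l 16787968)))))) (b (a (a (b (c (l 16778840) (l 16774400)) (b (l 537333519) (l 537054479))) (b (c (l 16790904) (l 16785560)) (b (l 16776056) (a (l 16785064) (l 16785600))))) (a (b (c (l 16792296) (l 16765048)) (a (c (l 16789040) (l 16773688)) (b (l 16777216) (l 16776136)))) (b (c (l 16793520) (l 16775816)) (c (c (l 16792192) (l 16778856)) (a (l 16784672) (l 16779680)))))) (a (b (b (a (l 537306383) (a (l 16778640) (l 16779224))) (a (a (l 538388495) (l 538342927)) (a (l 538302991) (l 537731343)))) (a (b (a (l 538381071) (l 538341903)) (b (a (l 538391311) (l 538354191)) (a (l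 538404879) (l 538368015)))) (b (a (l 537769999) (c (l 538603535) (l 537932047))) (a (c (l 538647311) (l 537995535)) (c (l 538621967) (l 537961231)))))) (b (a (c (b (l 16787360) (a (l 16785648) (l 16786424))) (b (l 16772672) (a (l 16782232) (l 16782600)))) (b (a (c (l 16788464) (l 16783624)) (c (l 16789200) (l 16783936))) (a (c (l 16787192) (l 16782952)) (c (l 16782712) (l 16778064))))) (a (b (a (c (l 16779112) (l 16776272)) (c (l 16779920) (l 537872655))) (a (c (l 538600207) (l 537930511)) (c (l 538313743) (l 537903887)))) (c (c (b (l 16787264) (a (l 16785464) (l 16786352))) (b (a (l 16785080) (l 16785768)) (a (l 16778768) (l 16779480)))) (b (a (l 537714703) (a (l 16782600) (l 16782792))) (a (b (l 16781856) (l 16776296)) (b (l 16782264) (l 16779344)))))))))), by decide +kernel⟩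

def k47_A00pm_213_s3 : ∃ t, chk3 f_A00pm_213_s3 t 14 60 1 = true :=
  ⟨(a (a (b (c (a (b (l 16781192) (a (l 16786768) (l 16801096))) (b (l 16798224) (l 16777312))) (a (b (l 16791360) (a (l 16791160) (l 16790288))) (c (l 16781008) (l 16776264)))) (a (c (b (a (l 16800136) (b (l 16779792) (l 16799984))) (l 16787088)) (a (b (l 16789680) (l 16788064)) (b (a (l 16789800) (l 16789440)) (l 16788112)))) (b (c (b (l 16777352) (a (l 16788560) (l 16797464))) (a (b (l 16789040) (l 16788640)) (l 16788048))) (c (a (b (a (l 16777992) (l 16788104)) (l 16787320)) (b (l 16797552) (a (l 16787288) (l 16797280)))) (a (b (a (l 16788640) (l 16788304)) (l 16787992)) (b (l 16787872) (a (l 16782584) (l 16787648)))))))) (c (b (b (a (l 16794672) (l 16792000)) (a (l 16794928) (l 16792432))) (a (b (a (l 16795864) (l 16794544)) (c (l 16797528) (l 16793536))) (b (l 16793000) (a (l 16794008) (l 16793248))))) (b (b (c (l 16778512) (l 16770288)) (a (l 16787528) (l 16786976))) (b (a (l 16781984) (l 16776440)) (a (b (l 16787152) (l 16781912)) (c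 (l 16788728) (l 16785272))))))) (a (b (c (a (b (l 16790072) (l 16790816)) (b (l 16788920) (l 16789912))) (a (b (l 16787360) (l 16787336)) (b (l 16788288) (l 16788432)))) (a (b (c (l 16791624) (l 16787456)) (c (a (l 16792672) (l 16792264)) (a (l 16787448) (l 16787976)))) (b (c (l 16790936) (l 16788704)) (a (l 16779880) (l 16801208))))) (b (c (a (b (l 16788400) (l 16789600)) (b (l 16788392) (l 16789776))) (a (b (l 16789872) (l 16790160)) (b (l 16792008) (l 16792416)))) (a (b (c (l 16790808) (l 16790552)) (c (l 16792016) (l 16791016))) (c (b (l 16791152) (l 16792496)) (b (l 16792896) (l 16793424))))))), by decide +kernel⟩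

def k48_A00pm_213_s3 : ∃ t, chk3 f_A00pm_213_s3 t 28 122 1 = true :=
  ⟨(a (c (b (a (c (l 16796696) (l 16792816)) (a (l 16785280) (b (a (l 16796992) (a (l 16786712) (l 16786568))) (l 16795904)))) (a (a (l 16781328) (c (l 16783704) (l 16790824))) (c (a (l 16784528) (l 16785440)) (c (l 16787488) (l 16785600))))) (b (a (a (l 16786528) (l 16776224)) (a (l 16781672) (b (a (l 16787464) (b (l 16787536) (l 16787504))) (l 16786928)))) (b (a (l 16780400) (a (l 16786016) (l 16786368))) (a (a (l 16784864) (l 16785152)) (a (l 16785448) (l 16780592)))))) (a (b (b (c (c (l 16787336) (l 16783216)) (c (l 16784112) (a (l 16784816) (l 16784904)))) (c (a (a (c (l 16788144) (l 16783784)) (b (l 16796288) (l 16785784))) (l 16795576)) (a (a (b (l 16782088) (l 16787232)) (b (l 16787272) (l 16781968))) (l 16787176)))) (c (a (b (a (l 16795400) (b (l 16785680) (l 16795664))) (l 16784000)) (b (a (c (l 16787392) (l 16788512)) (l 16795592)) (a (b (l 16785216) (l 16795096)) (b (l 16785200) (a (l 16785128) (l 16785200)))))) (a (b (a (l 16786776)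 (b (a (l 16787192) (l 16787248)) (l 16786992))) (l 16781192)) (b (a (b (l 16787256) (a (l 16782016) (l 16787256))) (l 16787272)) (a (b (a (l 16787048) (l 16782040)) (l 16786912)) (b (a (l 16782056) (l 16787376)) (a (l 16787304) (b (l 16787392) (l 16787416))))))))) (b (c (c (l 16795888) (l 16792560)) (a (b (l 16787088) (l 16787208)) (b (l 16787288) (l 16787440)))) (c (a (b (l 16795032) (l 16784824)) (b (l 16794448) (l 16794776))) (c (a (l 16789424) (l 16789488)) (a (b (l 16785296) (l 16785416)) (l 16785848))))))), by decide +kernel⟩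

def k49_A00pm_213_s3 : ∃ t, chk3 f_A00pm_213_s3 t 28 492 4 = true :=
  ⟨(a (a (l 16786464) (l 16788200)) (a (a (l 16795040) (l 16785912)) (a (a (b (l 16786896) (l 16797168)) (l 16786640)) (l 16796744)))), by decide +kernel⟩

def k50_A00pm_213_s3 : ∃ t, chk3 f_A00pm_213_s3 t 28 986 8 = true :=
  ⟨(a (a (l 16791312) (l 16793160)) (a (l 16795512) (a (l 16797744) (l 16797800)))), by decide +kernel⟩

def k51_A00pm_213_s3 : ∃ t, chk3 f_A00pm_213_s3 t 28 1974 8 = true :=
  ⟨(c (a (a (l 16791072) (l 16792976)) (a (l 16795376) (a (l 16797680) (l 16798224)))) (c (b (b (c (b (c (a (a (l 16790896) (l 16792744)) (a (l 16795096) (a (l 16797360) (l 16797832)))) (a (a (l 16790824) (l 16792656)) (a (l 16795000) (a (l 16797256) (l 16797728))))) (a (a (l 16790816) (l 16792656)) (a (l 16795000) (a (l 16797256) (l 16797776))))) (b (a (a (l 16790704) (l 16792528)) (a (l 16794848) (a (l 16797096) (l 16797576)))) (c (a (a (l 16790704) (l 16792528)) (a (l 16794856) (a (l 16797096) (l 16797624)))) (a (a (l 16790624) (l 16792440)) (a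 (l 16794760) (a (l 16796992) (l 16797520))))))) (a (a (l 16790672) (l 16792504)) (a (l 16794840) (a (l 16797088) (l 16797656))))) (a (a (l 16790544) (l 16792376)) (a (l 16794712) (a (l 16796960) (l 16797632))))) (b (b (c (b (a (a (l 16790560) (l 16792352)) (a (l 16794656) (a (l 16796888) (l 16797368)))) (a (a (l 16790512) (l 16792312)) (a (l 16794608) (a (l 16796832) (l 16797360))))) (a (a (l 16790384) (l 16792160)) (a (l 16794432) (a (l 16796656) (l 16797152))))) (c (b (c (a (a (l 16790504) (l 16792312)) (a (l 16794616) (a (l 16796848) (l 16797408)))) (a (a (l 16790432) (l 16792224)) (a (l 16794520) (a (l 16796736) (l 16797304))))) (a (a (l 16790424) (l 16792224)) (a (l 16794528) (a (l 16796752) (l 16797352))))) (b (c (a (a (l 16790360) (l 16792136)) (a (l 16794424) (a (l 16796632) (l 16797208)))) (a (a (l 16790280) (l 16792056)) (a (l 16794328) (a (l 16796528) (l 16797104))))) (c (a (a (l 16790312) (l 16792096)) (a (l 16794384) (a (l 16796592) (l 16797200)))) (a (a (l 16790240) (l 16792008)) (a (l 16794280)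 (a (l 16796488) (l 16797096)))))))) (a (a (l 16790248) (l 16792040)) (a (l 16794328) (a (l 16796544) (l 16797224))))))), by decide +kernel⟩

def k52_A00pm_213_s3 : ∃ t, chk3 f_A00pm_213_s3 t 28 1975 8 = true :=
  ⟨(a (a (l 16790424) (l 16792288)) (a (l 16794648) (a (l 16796904) (l 16797800)))), by decide +kernel⟩

def k53_A00pm_213_s3 : ∃ t, chk3 f_A00pm_213_s3 t 28 493 9 = true :=
  ⟨(a (a (l 16789736) (l 16786160)) (a (l 16793576) (a (a (l 16795320) (l 16790824)) (a (l 16790912) (l 16796120))))), by decide +kernel⟩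

def k54_A00pm_213_s3 : ∃ t, chk3 f_A00pm_213_s3 t 28 246 5 = true :=
  ⟨(a (a (b (l 16783656) (a (l 16787496) (l 16788168))) (b (l 16784992) (c (l 16784712) (l 16783232)))) (a (c (b (l 16787816) (l 16786704)) (b (l 16785976) (l 16785032))) (a (b (a (b (l 16793576) (l 16793456)) (l 16793472)) (a (l 16792696) (b (l 16788312) (l 16793192)))) (b (l 16793384) (a (b (l 16793640) (l 16793616)) (l 16793616)))))), by decide +kernel⟩

def k55_A00pm_213_s3 : ∃ t, chk3 f_A00pm_213_s3 t 28 246 3 = true :=
  ⟨(a (a (a (b (l 16784248) (a (l 16783560) (l 16783736))) (b (l 16784568) (a (l 16783912) (l 16784096)))) (c (a (b (l 16786600) (l 16785896)) (b (l 16787120) (l 16786448))) (a (b (l 16783160) (l 16782800)) (b (l 16783464) (l 16783136))))) (a (a (b (a (l 16785768) (l 16780888)) (c (l 16787208) (l 16783688))) (c (b (l 16788848) (l 16788168)) (b (l 16779520) (l 16784448)))) (b (a (a (b (a (b (l 16782240) (l 16787504)) (l 16787552)) (a (l 16787312) (b (l 16782368) (l 16787552)))) (b (l 16787680) (c (l 16789696) (l 16780376))))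 (c (l 16789832) (l 16786080))) (a (b (a (l 16787224) (a (b (l 16787736) (l 16787600)) (b (l 16787832) (l 16782632)))) (c (l 16789208) (l 16785376))) (a (b (l 16788032) (a (b (a (l 16788000) (l 16788056)) (l 16788024)) (l 16782880))) (l 16783048)))))), by decide +kernel⟩

def k56_A00pm_213_s3 : ∃ t, chk3 f_A00pm_213_s3 t 28 988 4 = true :=
  ⟨(c (a (a (l 16789896) (l 16791768)) (a (l 16783640) (a (l 16796384) (l 16797696)))) (a (a (l 16788784) (l 16790472)) (a (l 16792664) (a (l 16794800) (l 16790840))))), by decide +kernel⟩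

def k57_A00pm_213_s3 : ∃ t, chk3 f_A00pm_213_s3 t 28 1978 16 = true :=
  ⟨(b (c (b (a (a (l 16789896) (l 16791840)) (a (l 16794264) (l 16797512))) (c (b (a (a (l 16789896) (l 16791848)) (a (l 16794280) (l 16797544))) (a (a (l 16789848) (l 16791800)) (a (l 16794240) (l 16797504)))) (b (a (a (l 16789760) (l 16791696)) (a (l 16794112) (l 16797352))) (a (a (l 16789720) (l 16791648)) (a (l 16794064) (l 16797312)))))) (b (a (a (l 16789632) (l 16791528)) (a (l 16793920) (l 16797128))) (c (a (a (l 16789608) (l 16791520)) (a (l 16793912) (l 16797144))) (a (a (l 16789480) (l 16791368)) (a (l 16793744) (l 16796952)))))) (c (b (a (a (l 16789712) (l 16791656)) (a (l 16794088) (l 16797344))) (a (a (l 16789624) (l 16791568)) (a (l 16793992) (l 16797248)))) (b (c (b (a (a (l 16789544) (l 16791456)) (a (l 16793848) (l 16797080))) (a (a (l 16789504) (l 16791408)) (a (l 16793808) (l 16797032)))) (b (a (a (l 16789416) (l 16791304)) (a (l 16793680) (l 16796888))) (a (a (l 16789368) (l 16791256)) (a (l 16793632) (l 16796840)))))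 (a (a (l 16789368) (l 16791272)) (a (l 16793656) (l 16796872)))))), by decide +kernel⟩

def k58_A00pm_213_s3 : ∃ t, chk3 f_A00pm_213_s3 t 28 1978 17 = true :=
  ⟨(b (c (a (a (l 16789328) (l 16791184)) (a (l 16793520) (l 16796704))) (b (c (a (a (l 16789176) (l 16790992)) (a (l 16793304) (l 16796448))) (a (a (l 16789040) (l 16790832)) (a (l 16793128) (l 16791008)))) (a (a (l 16789024) (l 16790832)) (a (l 16793128) (a (l 16795344) (l 16797024)))))) (c (b (c (a (a (l 16789264) (l 16791128)) (a (l 16793480) (l 16796680))) (a (a (l 16789136) (l 16790976)) (a (l 16793312) (l 16796488)))) (c (a (a (l 16789176) (l 16791048)) (a (l 16793400) (l 16796584))) (b (a (a (l 16789072) (l 16790912)) (a (l 16793248) (l 16796416))) (a (a (l 16789024) (l 16790872)) (a (l 16793208) (l 16796368)))))) (b (a (a (l 16788936) (l 16790752)) (a (l 16793048) (a (l 16795264) (l 16796968)))) (c (a (a (l 16788920) (l 16790744)) (a (l 16793056) (l 16785720))) (a (a (l 16788792) (l 16790592)) (a (l 16792880) (l 16785528))))))), by decide +kernel⟩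

def k59_A00pm_213_s3 : ∃ t, chk3 f_A00pm_213_s3 t 28 1979 8 = true :=
  ⟨(c (b (a (a (l 16789368) (l 16791288)) (a (l 16793696) (l 16796920))) (a (a (l 16789184) (l 16791112)) (a (l 16793520) (l 16796704)))) (b (c (a (a (l 16788984) (l 16790840)) (a (l 16793184) (l 16796360))) (b (c (a (a (l 16788832) (l 16790656)) (a (l 16792968) (l 16785624))) (b (a (a (l 16788728) (l 16790528)) (a (l 16792816) (l 16785456))) (a (a (l 16788688) (l 16790488)) (a (l 16792776) (l 16785408))))) (a (a (l 16788688) (l 16790504)) (a (l 16792800) (l 16785432))))) (a (a (l 16788688) (l 16790528)) (a (l 16792848) (l 16795960))))), by decide +kernel⟩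

def k60_A00pm_213_s3 : ∃ t, chk3 f_A00pm_213_s3 t 28 1978 9 = true :=
  ⟨(c (b (c (b (c (b (a (a (l 16788928) (l 16790696)) (a (l 16792968) (l 16790832))) (a (a (l 16788888) (l 16790656)) (a (l 16792928) (l 16790800)))) (b (a (a (l 16788792) (l 16790544)) (a (l 16792784) (l 16790640))) (a (a (l 16788752) (l 16790504)) (a (l 16792752) (l 16790600))))) (a (a (l 16788760) (l 16790520)) (a (l 16792776) (l 16790648)))) (a (a (l 16788528) (l 16790248)) (a (l 16792464) (l 16790288)))) (c (a (a (l 16788632) (l 16790400)) (a (l 16792656) (l 16790528))) (a (a (l 16788376) (l 16790096)) (a (l 16792304) (l 16790136))))) (c (b (a (a (l 16788264) (l 16789936)) (a (l 16792104) (l 16789888))) (b (c (b (a (a (l 16788232) (l 16789912)) (a (l 16792096) (l 16795136))) (a (a (l 16788192) (l 16789880)) (a (l 16792056) (l 16795104)))) (b (a (a (l 16788096) (l 16789760)) (a (l 16791920) (l 16794944))) (a (a (l 16788056) (l 16789720)) (a (l 16791880) (l 16794904))))) (a (a (l 16788072) (l 16789744)) (a (l 16791912) (l 16794944)))))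 (b (b (c (a (a (l 16788096) (l 16789728)) (a (l 16791864) (l 16789624))) (a (a (l 16787960) (l 16789568)) (a (l 16791680) (l 16789424)))) (a (a (l 16787952) (l 16789576)) (a (l 16791704) (l 16789456)))) (c (b (a (a (l 16787944) (l 16789584)) (a (l 16791720) (l 16794728))) (b (a (a (l 16787888) (l 16789528)) (a (l 16791664) (l 16794664))) (a (a (l 16787848) (l 16789488)) (a (l 16791632) (l 16794624))))) (a (a (l 16787776) (l 16789392)) (a (l 16791504) (l 16794496))))))), by decide +kernel⟩

def k61_A00pm_213_s3 : ∃ t, chk3 f_A00pm_213_s3 t 28 1979 18 = true :=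
  ⟨(b (c (b (c (b (a (a (l 16788600) (l 16790376)) (a (l 16792648) (l 16785264))) (a (a (l 16788560) (l 16790336)) (a (l 16792608) (l 16795704)))) (a (a (l 16788448) (l 16790208)) (a (l 16792448) (l 16795536)))) (c (a (a (l 16788496) (l 16790272)) (a (l 16792544) (l 16795632))) (b (a (a (l 16788392) (l 16790144)) (a (l 16792392) (l 16795464))) (a (a (l 16788344) (l 16790104)) (a (l 16792352) (l 16795408)))))) (b (a (a (l 16788256) (l 16789976)) (a (l 16792192) (l 16795248))) (c (b (a (a (l 16788256) (l 16789992)) (a (l 16792216) (l 16795264))) (a (a (l 16788216) (l 16789952)) (a (l 16792176) (l 16795216)))) (a (a (l 16788112) (l 16789824)) (a (l 16792024) (l 16795056)))))) (c (b (a (a (l 16788352) (l 16790120)) (a (l 16792376) (l 16795432))) (a (a (l 16788272) (l 16790040)) (a (l 16792296) (l 16795328)))) (b (c (a (a (l 16788160) (l 16789896)) (a (l 16792120) (l 16795144))) (b (a (a (l 16788048) (l 16789760)) (a (l 16791968) (l 16794976))) (a (a (l 16788016) (l 16789728)) (a (l 16791928) (l 16794920))))) (a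 (a (l 16788016) (l 16789744)) (a (l 16791960) (l 16794944)))))), by decide +kernel⟩

def k62_A00pm_213_s3 : ∃ t, chk3 f_A00pm_213_s3 t 28 1979 19 = true :=
  ⟨(b (c (a (a (l 16787952) (l 16789632)) (a (l 16791800) (l 16794824))) (b (c (a (a (l 16787792) (l 16789440)) (a (l 16791576) (l 16794560))) (a (a (l 16787664) (l 16789280)) (a (l 16791400) (l 16794368)))) (a (a (l 16787656) (l 16789288)) (a (l 16791416) (l 16794376))))) (c (b (c (a (a (l 16787904) (l 16789592)) (a (l 16791776) (l 16794760))) (b (a (a (l 16787792) (l 16789464)) (a (l 16791624) (l 16794584))) (a (a (l 16787752) (l 16789424)) (a (l 16791584) (l 16794536))))) (a (a (l 16787760) (l 16789440)) (a (l 16791616) (l 16794560)))) (b (c (a (a (l 16787648) (l 16789288)) (a (l 16791432) (l 16794376))) (a (a (l 16787512) (l 16789136)) (a (l 16791256) (l 16794184)))) (c (a (a (l 16787568) (l 16789216)) (a (l 16791360) (l 16794272))) (a (a (l 16787440) (l 16789064)) (a (l 16791184) (l 16794080))))))), by decide +kernel⟩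

def k63_A00pm_213_s3 : ∃ t, chk3 f_A00pm_213_s3 t 28 988 20 = true :=
  ⟨(a (a (l 16787936) (l 16789480)) (a (l 16791536) (a (l 16793576) (l 16789592)))), by decide +kernel⟩

def k64_A00pm_213_s3 : ∃ t, chk3 f_A00pm_213_s3 t 28 988 21 = true :=
  ⟨(c (b (b (a (a (l 16787704) (l 16789176)) (a (l 16791160) (a (l 16793152) (l 16794264)))) (a (a (l 16787568) (l 16789040)) (a (l 16791024) (a (l 16793024) (l 16794264))))) (b (c (b (c (a (a (l 16787576) (l 16789072)) (a (l 16791072) (a (l 16793080) (l 16794424)))) (a (a (l 16787504) (l 16788984)) (a (l 16790976) (a (l 16792976) (l 16794320))))) (a (a (l 16787472) (l 16788960)) (a (l 16790960) (a (l 16792968) (l 16794360))))) (b (c (a (a (l 16787432) (l 16788904)) (a (l 16790880) (a (l 16792872) (l 16794216)))) (a (a (l 16787360) (l 16788816)) (a (l 16790784) (a (l 16792768) (l 16794104))))) (a (a (l 16787328) (l 16788792)) (a (l 16790768) (a (l 16792760) (l 16794152)))))) (a (a (l 16787296) (l 16788776)) (a (l 16790768) (a (l 16792768) (l 16794224)))))) (b (a (a (l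 16787344) (l 16788768)) (a (l 16790704) (a (l 16792664) (l 16788568)))) (b (c (b (a (a (l 16787248) (l 16788688)) (a (l 16790640) (a (l 16792616) (l 16793944)))) (c (a (a (l 16787224) (l 16788672)) (a (l 16790624) (a (l 16792600) (l 16793992)))) (a (a (l 16787152) (l 16788584)) (a (l 16790528) (a (l 16792496) (l 16793888)))))) (b (a (a (l 16787104) (l 16788520)) (a (l 16790448) (a (l 16792408) (l 16793728)))) (c (a (a (l 16787080) (l 16788504)) (a (l 16790432) (a (l 16792392) (l 16793776)))) (a (a (l 16787008) (l 16788416)) (a (l 16790336) (a (l 16792288) (l 16793672))))))) (c (a (a (l 16787088) (l 16788528)) (a (l 16790488) (a (l 16792456) (l 16793904)))) (b (c (a (a (l 16787016) (l 16788440)) (a (l 16790376) (a (l 16792336) (l 16793768)))) (a (a (l 16786944) (l 16788352)) (a (l 16790280) (a (l 16792232) (l 16793656))))) (a (a (l 16786912) (l 16788336)) (a (l 16790264) (a (l 16792224) (l 16793696))))))))), by decide +kernel⟩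

def k65_A00pm_213_s3 : ∃ t, chk3 f_A00pm_213_s3 t 28 1978 20 = true :=
  ⟨(c (b (b (c (b (a (a (l 16787840) (l 16789424)) (a (l 16791520) (l 16789240))) (a (a (l 16787800) (l 16789392)) (a (l 16791480) (l 16789208)))) (a (a (l 16787680) (l 16789248)) (a (l 16791320) (l 16789016)))) (c (a (a (l 16787752) (l 16789336)) (a (l 16791432) (l 16794400))) (a (a (l 16787608) (l 16789176)) (a (l 16791248) (l 16788952))))) (a (a (l 16787568) (l 16789152)) (a (l 16791232) (l 16788952)))) (b (a (a (l 16787440) (l 16788976)) (a (l 16791008) (l 16788680))) (b (c (a (a (l 16787408) (l 16788952)) (a (l 16791000) (l 16788680))) (a (a (l 16787272) (l 16788792)) (a (l 16790816) (l 16788480)))) (a (a (l 16787264) (l 16788800)) (a (l 16790840) (l 16788504)))))), by decide +kernel⟩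

def k66_A00pm_213_s3 : ∃ t, chk3 f_A00pm_213_s3 t 28 1979 20 = true :=
  ⟨(b (c (b (c (b (a (a (l 16787552) (l 16789144)) (a (l 16791240) (l 16794184))) (a (a (l 16787512) (l 16789104)) (a (l 16791200) (l 16794144)))) (b (a (a (l 16787416) (l 16788984)) (a (l 16791056) (l 16793984))) (a (a (l 16787376) (l 16788952)) (a (l 16791024) (l 16793944))))) (c (a (a (l 16787456) (l 16789056)) (a (l 16791152) (l 16794080))) (a (a (l 16787328) (l 16788896)) (a (l 16790968) (l 16793880))))) (c (b (a (a (l 16787264) (l 16788816)) (a (l 16790864) (l 16793768))) (b (a (a (l 16787208) (l 16788760)) (a (l 16790808) (l 16793704))) (a (a (l 16787176) (l 16788728)) (a (l 16790776) (l 16793656))))) (a (a (l 16787096) (l 16788624)) (a (l 16790648) (l 16793536))))) (c (b (a (a (l 16787320) (l 16788904)) (a (l 16790992) (l 16793888))) (c (a (a (l 16787312) (l 16788912)) (a (l 16791008) (l 16793888))) (b (a (a (l 16787200) (l 16788776)) (a (l 16790848) (l 16793704))) (a (a (l 16787168) (l 16788744)) (a (l 16790816) (l 16793656))))))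 (b (c (a (a (l 16787120) (l 16788672)) (a (l 16790728) (l 16793592))) (a (a (l 16786992) (l 16788520)) (a (l 16790552) (l 16793392)))) (c (b (a (a (l 16787072) (l 16788624)) (a (l 16790672) (l 16793512))) (a (a (l 16787040) (l 16788592)) (a (l 16790640) (l 16793464)))) (a (a (l 16786920) (l 16788456)) (a (l 16790480) (l 16793296))))))), by decide +kernel⟩

def k67_A00pm_213_s3 : ∃ t, chk3 f_A00pm_213_s3 t 28 989 21 = true :=
  ⟨(b (a (a (l 16786960) (l 16788424)) (a (l 16790392) (a (l 16792368) (l 16793920)))) (b (c (a (a (l 16786896) (l 16788384)) (a (l 16790376) (l 16793240))) (b (c (a (a (l 16786728) (l 16788176)) (a (l 16790136) (l 16792968))) (b (a (a (l 16786608) (l 16788032)) (a (l 16789968) (l 16792776))) (a (a (l 16786576) (l 16788008)) (a (l 16789944) (l 16792736))))) (a (a (l 16786592) (l 16788040)) (a (l 16789984) (l 16792784))))) (c (b (c (b (a (a (l 16786880) (l 16788384)) (a (l 16790384) (l 16793216))) (a (a (l 16786840) (l 16788344)) (a (l 16790352) (l 16793168)))) (b (a (a (l 16786744) (l 16788224))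 (a (l 16790208) (l 16793016))) (a (a (l 16786712) (l 16788192)) (a (l 16790176) (l 16792968))))) (a (a (l 16786728) (l 16788224)) (a (l 16790216) (l 16793000)))) (c (a (a (l 16786560) (l 16788024)) (a (l 16789984) (l 16792768))) (a (a (l 16786432) (l 16787864)) (a (l 16789800) (l 16792568))))))), by decide +kernel⟩

def k68_A00pm_213_s3 : ∃ t, chk3 f_A00pm_213_s3 t 28 988 11 = true :=
  ⟨(c (c (c (b (a (a (l 16787120) (l 16788504)) (a (l 16790408) (a (l 16792344) (l 16793488)))) (b (a (a (l 16786928) (l 16788320)) (a (l 16790224) (a (l 16792168) (l 16793504)))) (b (c (a (a (l 16786872) (l 16788272)) (a (l 16790184) (a (l 16792128) (l 16793552)))) (b (a (a (l 16786816) (l 16788200)) (a (l 16790104) (a (l 16792040) (l 16793448)))) (a (a (l 16786784) (l 16788168)) (a (l 16790072) (a (l 16792008) (l 16793448)))))) (a (a (l 16786768) (l 16788168)) (a (l 16790072) (a (l 16792016) (l 16793480))))))) (a (a (l 16786848) (l 16788208)) (a (l 16790088) (a (l 16792016) (a (l 16793168) (l 16793392)))))) (a (a (l 16786624)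 (l 16787952)) (a (l 16789800) (a (l 16791696) (a (l 16792840) (l 16793072)))))) (a (a (l 16786184) (l 16787432)) (a (l 16789208) (a (l 16791056) (a (l 16792176) (l 16792416)))))), by decide +kernel⟩

def k69_A00pm_213_s3 : ∃ t, chk3 f_A00pm_213_s3 t 28 989 22 = true :=
  ⟨(b (c (a (a (l 16786544) (l 16787928)) (a (l 16789832) (a (l 16791768) (l 16793296)))) (b (c (a (a (l 16786392) (l 16787744)) (a (l 16789608) (a (l 16791520) (l 16793016)))) (b (c (a (a (l 16786320) (l 16787648)) (a (l 16789496) (a (l 16791392) (l 16792872)))) (a (a (l 16786248) (l 16787568)) (a (l 16789400) (a (l 16791288) (l 16792760))))) (a (a (l 16786224) (l 16787552)) (a (l 16789392) (l 16786896))))) (a (a (l 16786200) (l 16787544)) (a (l 16789400) (l 16786920))))) (b (c (b (c (b (a (a (l 16786472) (l 16787872)) (a (l 16789792) (l 16792576))) (a (a (l 16786440) (l 16787848)) (a (l 16789760) (l 16792536)))) (a (a (l 16786320) (l 16787696)) (a (l 16789592) (l 16792360)))) (c (a (a (l 16786392) (l 16787800)) (a (l 16789712) (l 16792480)))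 (b (a (a (l 16786272) (l 16787656)) (a (l 16789544) (l 16792296))) (a (a (l 16786240) (l 16787624)) (a (l 16789520) (l 16792248)))))) (a (a (l 16786080) (l 16787432)) (a (l 16789288) (l 16792024)))) (c (a (a (l 16786232) (l 16787632)) (a (l 16789536) (l 16792264))) (b (c (a (a (l 16786056) (l 16787424)) (a (l 16789288) (l 16791992))) (b (a (a (l 16785936) (l 16787280)) (a (l 16789120) (l 16791800))) (a (a (l 16785912) (l 16787248)) (a (l 16789096) (l 16791760))))) (a (a (l 16785936) (l 16787280)) (a (l 16789144) (l 16791800))))))), by decide +kernel⟩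

def k70_A00pm_213_s3 : ∃ t, chk3 f_A00pm_213_s3 t 28 989 23 = true :=
  ⟨(b (c (b (c (b (c (a (a (l 16786176) (l 16787480)) (a (l 16789304) (a (l 16791184) (l 16792656)))) (a (a (l 16786104) (l 16787400)) (a (l 16789208) (a (l 16791080) (l 16792544))))) (a (a (l 16786080) (l 16787384)) (a (l 16789200) (l 16786688)))) (b (c (a (a (l 16786032) (l 16787312)) (a (l 16789112) (a (l 16790976) (l 16792440)))) (a (a (l 16785960) (l 16787232)) (a (l 16789016) (a (l 16790872) (l 16792328))))) (c (a (a (l 16785976) (l 16787256)) (a (l 16789056) (l 16786528))) (a (a (l 16785904) (l 16787176)) (a (l 16788960) (a (l 16790816) (l 16792304))))))) (a (a (l 16785920) (l 16787216)) (a (l 16789024) (l 16786504)))) (b (c (b (a (a (l 16785856) (l 16787104)) (a (l 16788872) (a (l 16790712) (l 16792168)))) (c (a (a (l 16785832) (l 16787088)) (a (l 16788864) (a (l 16790712) (l 16792200)))) (a (a (l 16785760) (l 16787008)) (a (l 16788776) (a (l 16790608) (l 16792088)))))) (a (a (l 16785680) (l 16786912)) (a (l 16788656) (a (l 16790480)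 (l 16791936))))) (c (a (a (l 16785712) (l 16786968)) (a (l 16788744) (l 16786184))) (b (c (a (a (l 16785632) (l 16786872)) (a (l 16788624) (l 16786048))) (a (a (l 16785560) (l 16786792)) (a (l 16788528) (l 16785944)))) (a (a (l 16785544) (l 16786776)) (a (l 16788528) (l 16791184))))))) (a (a (l 16785616) (l 16786888)) (a (l 16788680) (l 16786112)))), by decide +kernel⟩

def k71_A00pm_213_s3 : ∃ t, chk3 f_A00pm_213_s3 t 28 495 2 = true :=
  ⟨(c (c (c (a (a (l 16788384) (a (l 16789800) (l 16790824))) (a (l 16787480) (l 16795864))) (a (a (a (l 16787464) (l 16788368)) (a (l 16789280) (l 16790256))) (a (l 16786856) (l 16795160)))) (a (a (a (l 16786792) (l 16787640)) (a (l 16788480) (l 16789400))) (a (a (l 16790504) (l 16791800)) (l 16788848)))) (c (c (c (a (a (a (l 16786232) (l 16787016)) (a (l 16787808) (l 16788664))) (a (l 16785080) (l 16787936))) (c (a (a (a (l 16786056) (l 16786832)) (a (l 16787600) (l 16788440))) (a (l 16784840) (l 16792896))) (a (a (a (l 16785944) (l 16786704)) (a (l 16787464) (l 16788288)))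 (a (l 16784672) (l 16792712))))) (c (c (a (a (a (l 16785832) (l 16786576)) (a (l 16787320) (l 16788144))) (a (l 16784504) (l 16792528))) (a (a (a (l 16785712) (l 16786448)) (a (l 16787184) (l 16787992))) (a (l 16784336) (l 16792344)))) (a (a (a (l 16785544) (l 16786256)) (a (l 16786976) (l 16787768))) (a (l 16784088) (l 16792064))))) (c (c (a (a (a (l 16785304) (l 16786000)) (a (l 16786696) (l 16787464))) (a (l 16783752) (l 16786440))) (c (a (a (a (l 16785128) (l 16785808)) (a (l 16786488) (l 16787232))) (a (l 16783496) (l 16786152))) (a (a (a (l 16785016) (l 16785680)) (a (l 16786344) (l 16787080))) (a (l 16783328) (l 16785960))))) (c (a (a (a (l 16784840) (l 16785480)) (a (l 16786128) (l 16786848))) (a (a (l 16787768) (l 16788888)) (l 16785680))) (a (a (a (l 16784600) (l 16785224)) (a (l 16785848) (l 16786544))) (a (a (l 16787440) (l 16788528)) (l 16785288))))))), by decide +kernel⟩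

def k72_A00pm_213_s3 : ∃ t, chk3 f_A00pm_213_s3 t 28 494 6 = true :=
  ⟨(c (c (b (a (a (l 16785584) (l 16786736)) (a (l 16788408) (a (l 16790192) (a (l 16791280) (l 16791536))))) (b (c (b (a (a (l 16785464) (l 16786656)) (a (l 16788368) (a (l 16790168) (l 16791608)))) (c (b (c (a (a (l 16785488) (l 16786704)) (a (l 16788432) (l 16785840))) (a (a (l 16785424) (l 16786624)) (a (l 16788336) (l 16785736)))) (a (a (l 16785400) (l 16786608)) (a (l 16788336) (l 16785728)))) (b (a (a (l 16785312) (l 16786496)) (a (l 16788192) (l 16785576))) (a (a (l 16785264) (l 16786448)) (a (l 16788144) (l 16785520)))))) (b (a (a (l 16785176) (l 16786320)) (a (l 16787976) (a (l 16789744) (l 16791168)))) (c (a (a (l 16785144) (l 16786304)) (a (l 16787984) (a (l 16789760) (l 16791232)))) (a (a (l 16785000) (l 16786136)) (a (l 16787792) (a (l 16789552) (l 16791016))))))) (c (a (a (l 16785200) (l 16786400)) (a (l 16788120) (l 16785496))) (b (c (a (a (l 16785040) (l 16786208)) (a (l 16787888) (l 16790464))) (b (c (a (a (l 16784960) (l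 16786104)) (a (l 16787768) (l 16790328))) (a (a (l 16784896) (l 16786024)) (a (l 16787672) (l 16790224)))) (a (a (l 16784880) (l 16786016)) (a (l 16787672) (l 16790208))))) (a (a (l 16784872) (l 16786032)) (a (l 16787696) (l 16790216))))))) (a (a (l 16779536) (a (l 16785544) (l 16786144))) (a (l 16782192) (a (l 16789144) (a (l 16790248) (b (l 16790640) (l 16790688))))))) (a (a (a (l 16783656) (l 16784096)) (a (l 16784536) (l 16785056))) (a (b (l 16786376) (l 16780856)) (a (l 16787840) (a (l 16783656) (b (l 16789272) (l 16789352))))))), by decide +kernel⟩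

def k73_A00pm_213_s3 : ∃ t, chk3 f_A00pm_213_s3 t 28 495 6 = true :=
  ⟨(c (c (c (c (a (a (a (l 16784416) (l 16785024)) (a (l 16785632) (l 16786304))) (a (a (l 16787184) (l 16788264)) (l 16785000))) (a (a (a (l 16784304) (l 16784896)) (a (l 16785488) (l 16786152))) (a (a (l 16787016) (l 16788088)) (l 16784808)))) (a (a (a (l 16784120) (l 16784696)) (a (l 16785264) (l 16785920))) (a (a (l 16786768) (l 16787816)) (l 16784512)))) (c (a (a (a (l 16783880) (l 16784424)) (a (l 16784976) (l 16785600))) (a (a (l 16786424) (l 16787456)) (l 16784120))) (b (a (a (l 16784096) (l 16785160)) (a (l 16786744) (l 16789128))) (a (a (l 16783728) (l 16784816)) (a (l 16786416) (l 16788800)))))) (c (a (a (a (l 16783264) (l 16783752)) (a (l 16784240) (l 16784808))) (a (a (l 16785568) (l 16786544)) (a (l 16787704) (l 16789040)))) (c (a (a (a (l 16782896) (l 16783344)) (a (l 16783792) (l 16784320))) (a (b (l 16785640) (l 16785376)) (l 16782512))) (a (a (a (l 16782648) (l 16783072)) (a (l 16783496) (l 16783992))) (a (b (l 16785264)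 (l 16785024)) (a (l 16786720) (l 16788000))))))), by decide +kernel⟩

def k74_A00pm_213_s3 : ∃ t, chk3 f_A00pm_213_s3 t 28 247 7 = true :=
  ⟨(b (b (a (a (a (l 16782000) (l 16782272)) (a (l 16782544) (l 16782904))) (a (a (l 16783464) (l 16784248)) (a (l 16785224) (a (a (l 16785928) (l 16781024)) (a (b (l 16786448) (l 16786456)) (l 16786640)))))) (a (a (a (l 16781800) (l 16782088)) (a (l 16782376) (l 16782744))) (a (a (l 16783320) (l 16784112)) (a (l 16785096) (a (l 16785960) (a (l 16786472) (b (l 16786664) (l 16786736)))))))) (c (a (a (a (l 16782016) (l 16782376)) (a (a (l 16782648) (l 16782832)) (c (l 16783504) (l 16782840)))) (a (a (c (l 16784168) (l 16783456)) (l 16784664)) (a (l 16785712) (l 16786944)))) (a (a (a (l 16780984) (l 16781240)) (a (a (l 16781432) (l 16781568)) (c (l 16782168) (l 16781488)))) (c (a (a (l 16782736) (l 16783512)) (a (l 16784488) (l 16785648))) (a (a (l 16782008) (l 16782736)) (a (l 16783664) (l 16784776))))))), by decide +kernel⟩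

def k75_A00pm_213_s3 : ∃ t, chk3 f_A00pm_213_s3 t 29 61 1 = true :=
  ⟨(a (b (c (a (b (a (l 16793456) (l 16793152)) (a (l 16794224) (l 16794000))) (b (l 16782496) (a (l 16793920) (l 16793976)))) (a (b (a (l 16787760) (l 16788344)) (a (b (l 16788048) (l 16788256)) (l 16778288))) (b (a (l 16789080) (l 16789960)) (a (l 16789552) (l 16790456))))) (b (a (a (c (b (l 16794768) (l 16784616)) (c (l 16790224) (l 16781632))) (c (l 16784304) (b (l 16789120) (l 16789352)))) (c (a (l 16794776) (l 16794896)) (a (l 16779552) (l 16790968)))) (c (a (a (b (l 16784888) (a (b (l 16784992) (l 16784744)) (b (l 16795592) (l 16785112)))) (l 16784992)) (a (l 16785080) (l 16795696))) (a (a (b (b (l 16778368) (a (l 16788784) (l 16789120))) (a (b (a (b (l 16783528) (l 16788752)) (b (l 16788968) (l 16778480))) (b (l 16783608) (l 16788688))) (b (l 16789224) (a (b (l 16789184) (l 16778744)) (l 16789416))))) (b (l 16779096) (a (l 16789624) (l 16790000)))) (a (b (l 16790400) (l 16790640)) (l 16780960)))))) (b (a (b (c (l 16793176) (l 16791528))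 (c (l 16794272) (l 16781576))) (b (c (l 16793904) (l 16794104)) (c (l 16794976) (l 16794512)))) (a (b (c (l 16784800) (l 16782112)) (c (l 16795888) (a (l 16792360) (l 16793320)))) (c (b (l 16795744) (l 16796176)) (b (l 16794688) (l 16784112)))))), by decide +kernel⟩

def k76_A00pm_213_s3 : ∃ t, chk3 f_A00pm_213_s3 t 15 30 1 = true :=
  ⟨(a (b (a (b (c (a (l 16810432) (l 16789936)) (a (b (l 16794472) (l 16794960)) (l 16786832))) (a (c (b (l 16791728) (l 16793280)) (b (l 16795488) (l 16796144))) (b (l 16816152) (l 16796112)))) (a (b (b (a (l 16793960) (l 16794720)) (l 16816520)) (b (l 16817488) (l 16818168))) (b (c (l 16791952) (l 16791528)) (c (l 16772784) (c (l 16799960) (l 16804584)))))) (c (b (a (a (b (l 16794536) (l 16795544)) (l 16774336)) (a (l 16773856) (b (l 16793968) (l 16793736)))) (c (a (l 16795656) (a (l 16793736) (l 16791832))) (a (l 16796096) (a (l 16795192) (l 16793968))))) (b (a (a (a (l 16775136) (l 16776232)) (l 16777744)) (a (l 16778992) (c (l 16798872) (l 16781568)))) (a (a (c (l 16775248)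 (l 16785880)) (l 16797288)) (b (c (l 16776400) (l 16778872)) (l 16796840)))))) (b (a (c (b (a (l 16794240) (l 16796152)) (a (l 16795032) (l 16795920))) (b (c (l 16780352) (l 16785072)) (c (l 16801088) (l 16784224)))) (a (c (b (l 16797104) (l 16796160)) (b (l 16804088) (l 16802264))) (c (b (c (l 16796088) (l 16798688)) (c (l 16794696) (l 16796984))) (b (l 16803224) (l 16780000))))) (b (c (a (a (l 16793968) (l 16794248)) (a (l 16778272) (c (l 16792296) (l 16794256)))) (a (a (l 16779664) (l 16779216)) (a (l 16788704) (c (l 16796472) (l 16798960))))) (b (a (c (a (l 16792288) (l 16792264)) (c (l 16775264) (l 16778184))) (c (a (l 16791776) (l 16791024)) (a (l 16796272) (l 16794904)))) (a (c (a (l 16790944) (l 16790656)) (a (l 16774840) (l 16795184))) (c (a (l 16790176) (l 16789488)) (a (l 16794192) (l 16792984)))))))), by decide +kernel⟩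

def k77_A00pm_213_s3 : ∃ t, chk3 f_A00pm_213_s3 t 12 31 1 = true :=
  ⟨(l 4), by decide +kernel⟩

def k78_A00pm_213_s3 : ∃ t, chk3 f_A00pm_213_s3 t 26 62 1 = true :=
  ⟨(b (a (l 4) (b (a (l 4) (b (a (c (l 538806031) (l 538205455)) (l 537932303)) (l 4))) (l 4))) (l 4)), by decide +kernel⟩

def k79_A00pm_213_s3 : ∃ t, chk3 f_A00pm_213_s3 t 27 124 1 = true :=
  ⟨(a (b (b (a (a (l 538160655) (l 538392591)) (a (l 537822991) (c (l 538647311) (l 537998095)))) (a (a (l 538464271) (l 538428175)) (a (l 537724943) (c (l 538677519) (l 538041615))))) (b (a (a (l 4) (l 538200847)) (a (c (l 538736143) (l 538123535)) (c (l 538712591) (l 538090767)))) (a (l 4) (a (l 4) (b (l 537905423) (l 537930255)))))) (b (a (a (b (c (l 538626063) (l 537968143)) (c (l 538657039) (l 538011919))) (b (c (l 538608399) (b (l 16778144) (l 537950991))) (c (b (l 538629903) (l 538646799)) (b (l 537973007) (l 537996559))))) (c (c (a (b (l 538752783) (l 538781711)) (b (l 538744335) (b (l 16783992) (l 16780680)))) (b (a (l 538163727) (a (l 16780856)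 (l 16781216))) (a (l 537930511) (b (l 16782848) (l 16779672))))) (a (b (b (l 537907727) (l 537928719)) (b (l 537950991) (l 537975055))) (b (b (l 537620751) (l 537910543)) (b (l 537798927) (a (l 537961231) (l 537953295))))))) (a (c (a (b (l 538692623) (b (l 538720015) (l 538741007))) (b (c (l 538825743) (l 537985295)) (b (l 538703887) (l 538725135)))) (a (b (b (l 538046991) (l 538073103)) (b (l 538101007) (l 538130191))) (b (b (l 538021647) (l 538048271)) (b (l 538076175) (l 538105615))))) (c (a (b (b (l 538517519) (l 538402575)) (b (c (l 538840335) (l 538538767)) (a (l 538715407) (l 538710287)))) (a (b (c (l 538808591) (l 538498319)) (b (l 538617359) (l 538538511))) (b (b (l 538372111) (l 538123279)) (c (b (l 538831887) (l 538851855)) (b (l 538525711) (l 538549775)))))) (a (b (b (l 538000399) (l 538027023)) (b (a (l 538060047) (l 538050575)) (a (l 538089743) (l 538080527)))) (b (b (a (l 537986575) (l 537978895)) (a (l 538013711) (l 538006287))) (b (a (l 538042127) (l 538034959)) (a (l 538072335) (l 538064911))))))))),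 by decide +kernel⟩

def k80_A00pm_213_s3 : ∃ t, chk3 f_A00pm_213_s3 t 27 125 1 = true :=
  ⟨(a (l 4) (b (a (b (b (a (c (l 538763023) (l 538160655)) (c (l 538479119) (l 538136591))) (a (l 4) (c (l 538368271) (a (l 538174223) (l 538163471))))) (l 4)) (c (b (b (a (c (l 538880527) (l 538050063)) (c (a (l 538875151) (l 538872847)) (a (l 538578959) (l 538574863)))) (a (a (l 538761743) (l 538488335)) (c (a (l 538896911) (l 538894863)) (a (l 538605071) (l 538601231))))) (b (a (a (l 538517775) (c (l 538922255) (l 538636815))) (a (c (l 538919439) (l 538632207)) (c (l 538917647) (l 538628623)))) (a (l 4) (a (c (l 538942991) (l 538660623)) (c (l 538739983) (l 538925327)))))) (a (a (b (b (l 538120975) (l 538153487)) (b (l 538187535) (l 4))) (b (b (l 538111759) (l 538144527)) (b (l 538178831) (l 4)))) (b (b (a (l 538103823) (l 538365199)) (a (l 538136591) (l 538129935))) (a (b (l 538171151) (b (l 538197007) (l 538215439))) (c (b (l 538323215) (l 538625039)) (b (l 538001679) (l 538040079)))))))) (a (l 4) (a (l 4) (a (l 4)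 (a (l 4) (b (b (c (c (l 538763791) (l 538685711)) (b (l 538225935) (l 4))) (l 4)) (l 4)))))))), by decide +kernel⟩

def k81_A00pm_213_s3 : ∃ t, chk3 f_A00pm_213_s3 t 13 63 1 = true :=
  ⟨(l 4), by decide +kernel⟩

def k82_A00pm_213_s3 : ∃ t, chk3 f_A00pm_213_s3 t 112 248 1 = true :=
  ⟨(c (c (a (a (b (l 16783064) (l 538501135)) (b (l 538469903) (l 538231567))) (b (c (a (l 16781744) (l 16782208)) (l 16783776)) (a (b (l 16785584) (l 16782280)) (b (l 16786032) (l 16782736))))) (a (b (b (l 16784656) (l 16784128)) (b (l 16780968) (a (l 16782856) (l 16783224)))) (b (b (l 16785368) (l 16784848)) (a (b (l 16784136) (l 16783600)) (b (l 16784504) (l 16783976)))))) (a (b (b (a (l 16781984) (l 16782200)) (c (l 16782592) (l 16780976))) (b (c (l 16782200) (l 16780744)) (a (l 537946383) (l 537940751)))) (b (a (b (l 16782416) (l 537888015)) (b (l 537593871) (l 537615631))) (a (b (l 537642767) (l 537667599)) (b (c (l 16782896) (l 16781200)) (c (l 16782512) (l 16780976))))))), by decide +kernel⟩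

def k83_A00pm_213_s3 : ∃ t, chk3 f_A00pm_213_s3 t 112 249 1 = true :=
  ⟨(c (a (a (b (b (l 538100751) (l 537986319)) (c (b (l 538830351) (l 538582031)) (b (l 538522383) (l 538546447)))) (b (b (c (l 538792207) (l 16782672)) (c (l 538810383) (l 538497039))) (c (b (l 538829583) (l 538581519)) (b (l 538520079) (l 538544399))))) (a (b (b (c (l 538792207) (l 16780432)) (c (l 538810383) (l 538495247))) (c (b (l 538561551) (c (l 538924559) (l 538775055))) (b (l 538518543) (l 538408719)))) (c (b (b (l 538792975) (l 538543119)) (b (l 538428431) (c (l 538657807) (l 538507791)))) (b (b (l 538472463) (l 538494735)) (b (l 538383887) (b (l 538535951) (l 538548495))))))) (a (a (b (b (l 537972239) (l 537999631)) (b (l 538028559) (l 537924623))) (b (b (l 537966607) (l 537725711)) (b (b (l 538015247) (l 538030095)) (b (l 538045199) (l 538060815))))) (a (b (b (c (l 16781824) (l 16780536)) (b (l 537982223) (l 537996303))) (b (b (l 538010895) (l 538025743)) (b (l 537906959) (l 537922575)))) (b (b (c (l 16782112) (l 538046735)) (b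 (l 537978639) (l 537724431))) (b (b (l 537873423) (c (l 16781168) (l 16780128))) (b (a (l 538038543) (l 538037263)) (a (l 538054415) (l 538053135)))))))), by decide +kernel⟩

def k84_A00pm_213_s3 : ∃ t, chk3 f_A00pm_213_s3 t 113 248 1 = true :=
  ⟨(a (b (c (c (c (b (l 16788512) (l 16787816)) (l 16784624)) (b (l 16786088) (l 16782952))) (b (c (l 16784024) (c (l 16782408) (l 16781296))) (c (l 16781048) (c (l 16782176) (l 16781152))))) (c (c (a (b (l 16786488) (l 16783192)) (b (l 16786944) (l 16783648))) (b (a (l 16784872) (l 16785248)) (c (l 16784912) (l 16784136)))) (c (a (b (l 16783176) (l 16782792)) (b (l 16783448) (l 16783080))) (a (b (l 16781376) (l 16781160)) (b (l 16781560) (c (l 16781792) (l 16780912))))))) (b (c (c (b (l 16789000) (l 16783104)) (b (l 16786872) (l 16786368))) (c (b (l 16784624) (l 16781664)) (a (b (l 16782144) (l 16781960)) (b (l 16782392) (l 16782216))))) (b (c (c (c (l 16788120) (l 16787232)) (l 16783232)) (a (c (l 16783752) (l 16781776)) (c (l 16784112) (l 16782032)))) (c (a (c (l 16784128)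 (l 16785112)) (c (l 16782032) (l 16785560))) (a (c (l 16783392) (c (l 16782032) (l 16781104))) (c (l 16783752) (c (l 16782328) (l 16781344)))))))), by decide +kernel⟩

def k85_A00pm_213_s3 : ∃ t, chk3 f_A00pm_213_s3 t 226 249 1 = true :=
  ⟨(c (b (c (a (b (l 16782504) (l 538544911)) (b (l 16782968) (l 538413839))) (a (b (l 538472719) (l 538226703)) (b (l 538205711) (b (l 16783768) (l 16783496))))) (c (c (b (a (l 538908943) (l 538643983)) (a (l 538660367) (l 538663951))) (a (b (l 538756367) (l 538509583)) (b (l 16783912) (l 538512655)))) (b (a (b (l 16782824) (l 16782536)) (b (l 16783208) (l 16782928))) (a (b (l 538536463) (l 538549263)) (b (l 538538255) (l 538551055)))))) (c (a (b (b (l 538401295) (c (l 16782320) (l 16781680))) (b (b (l 16781688) (l 16781472)) (b (l 538207247) (l 538222095)))) (b (b (c (l 16783072) (l 16782312)) (c (l 16782640) (l 16781952))) (b (b (l 16781984) (l 16781776)) (b (l 538341391) (c (l 16781592) (l 16781080)))))) (b (a (b (c (l 16781304) (l 16780552)) (c (l 16781016) (l 16780344)))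 (b (c (l 16781528) (l 16780728)) (c (l 16781248) (l 16780528)))) (b (a (b (l 16780488) (l 537843727)) (b (l 16780696) (c (l 16780872) (l 16780248)))) (a (b (l 537927439) (c (l 16780304) (l 16779800))) (a (b (l 16780368) (l 16780224)) (b (l 16780480) (l 16780336)))))))), by decide +kernel⟩

def k86_A00pm_213_s3 : ∃ t, chk3 f_A00pm_213_s3 t 227 249 1 = true :=
  ⟨(c (c (b (b (a (l 538536975) (l 538286863)) (c (a (l 16785696) (l 16786248)) (l 16782680))) (a (b (c (l 16782344) (l 16784376)) (b (l 16781520) (l 538603535))) (b (l 16782584) (c (l 16784760) (l 16781592))))) (a (b (b (l 16784584) (b (l 16784176) (l 16783896))) (b (b (l 16783616) (l 16783336)) (b (l 16783048) (l 538291215)))) (b (b (l 16785032) (b (l 16784624) (l 16784352))) (b (b (l 16784072) (l 16783792)) (b (l 16783504) (l 16783216)))))) (c (a (b (b (c (l 16783408) (l 16782600)) (b (l 16782720) (l 16782512))) (b (b (l 16782312) (l 16782104)) (b (c (l 16782184) (l 16781592)) (l 537960719)))) (b (b (c (l 16783800) (l 16782944)) (c (l 16783368) (l 16782600)))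 (b (b (l 16782688) (l 16782480)) (b (l 16782264) (l 537982479))))) (b (b (a (c (l 16781776) (l 16780928)) (c (l 16782072) (l 16781176))) (a (c (l 16781504) (l 16780736)) (c (l 16781808) (l 16780992)))) (b (a (b (l 16780936) (c (l 16781136) (l 16780472))) (b (l 16781224) (c (l 16781448) (l 16780736)))) (a (a (b (l 16780600) (l 16780456)) (b (l 16780736) (l 16780592))) (a (b (l 16780880) (l 16780744)) (c (l 16781304) (l 16780640)))))))), by decide +kernel⟩

def k87_A00pm_213_s3 : ∃ t, chk3 f_A00pm_213_s3 t 114 248 1 = true :=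
  ⟨(a (b (c (c (c (l 16785112) (l 16784032)) (b (l 16787856) (l 16787352))) (c (b (l 16785424) (l 16782472)) (a (b (l 16782696) (l 16782528)) (b (l 16783056) (l 16782888))))) (c (c (b (l 16783592) (c (l 16783360) (l 16787712))) (b (c (l 16787352) (l 16786336)) (l 16783712))) (c (b (l 16782128) (c (l 16784888) (l 16783888))) (a (b (l 16782352) (c (l 16782672) (l 16781648))) (b (l 16782720) (l 16782536)))))) (b (c (c (l 16785912) (c (l 16784144) (l 16788160))) (c (b (l 16786432) (l 16786104)) (a (c (l 16784048) (l 16782712)) (b (l 16783920) (l 16783768))))) (c (a (b (l 16783536) (l 16782944)) (c (l 16790192) (l 16782848))) (c (b (l 16783144) (a (l 16785136) (l 16785696))) (a (b (l 16783136) (l 16782960)) (b (l 16783608) (l 16783432))))))), by decide +kernel⟩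

def k88_A00pm_213_s3 : ∃ t, chk3 f_A00pm_213_s3 t 114 249 1 = true :=
  ⟨(a (c (b (a (b (c (l 538314255) (l 16785528)) (c (l 16783864) (l 16782368))) (b (c (l 16787800) (l 16786080)) (c (l 16787112) (l 16785544)))) (a (b (c (l 16783168) (a (l 16784304) (l 16784568))) (c (l 16782448) (c (l 16784176) (l 16783552)))) (b (c (l 16783792) (l 16782368)) (c (l 16783080) (l 16781800))))) (c (c (b (b (l 16784480) (l 16781432)) (a (b (l 16783376) (l 16782920)) (b (l 16783872) (l 16783416)))) (b (b (l 16780944) (a (l 16783000) (l 16783448))) (a (b (l 16782640) (l 16782264)) (b (l 16783096) (l 16782720))))) (b (b (a (c (l 16782424) (l 16781488)) (l 16779720)) (a (c (l 16782168) (l 16781304)) (c (l 16782576) (l 16781672)))) (a (b (b (l 16781560) (l 16781440)) (a (c (l 16781488) (l 16780808)) (c (l 16781688) (l 16780984)))) (b (c (l 16782296) (l 16781480)) (c (l 16782008) (l 16781272))))))) (c (b (b (a (c (l 16788472) (l 16786680)) (l 16783024)) (a (c (l 16787784) (l 16786144)) (l 16782408))) (c (a (b (l 16787088) (l 16786376))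 (b (l 16787800) (l 16787088))) (a (b (l 16785592) (l 16782408)) (b (l 16786232) (l 538221839))))) (c (b (a (b (l 16784776) (l 16784400)) (b (l 16785336) (l 16784968))) (c (b (l 16784704) (l 16781632)) (b (l 16781248) (l 16780880)))) (b (a (b (l 16782768) (l 16779936)) (b (l 16783248) (l 16783048))) (a (b (c (l 16782760) (l 16781904)) (a (l 16781976) (l 16782208))) (b (l 16782824) (l 16779968))))))), by decide +kernel⟩

def k89_A00pm_213_s3 : ∃ t, chk3 f_A00pm_213_s3 t 115 124 1 = true :=
  ⟨(b (b (c (c (a (l 16787424) (l 16794344)) (a (l 16784896) (l 16781176))) (c (a (b (l 16787624) (l 16787296)) (l 16783576)) (a (b (l 16784696) (l 16779312)) (a (l 16785504) (l 16786136))))) (c (c (a (l 16786104) (l 16792992)) (a (l 16783888) (l 16785416))) (c (a (c (l 16782144) (l 16780936)) (l 16782920)) (a (a (b (l 16784120) (l 16783952)) (b (l 16784680) (l 16784512))) (a (l 16779960) (l 16785848)))))) (a (b (b (c (l 16784120) (c (l 16781024) (a (l 16783768) (l 16784336)))) (c (l 16783512) (c (l 16785896) (a (l 16783576)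 (l 16784144))))) (b (a (c (l 16782504) (c (l 16785192) (l 16783360))) (c (l 16783264) (c (l 16785848) (l 16783936)))) (a (c (l 16781872) (c (l 16784792) (l 16783128))) (c (l 16782632) (c (l 16785448) (l 16783712)))))) (c (a (b (l 16784992) (l 16783736)) (b (l 16785832) (l 16783952))) (b (c (c (l 16782784) (l 16781672)) (b (l 16785272) (l 16779848))) (c (b (l 16781656) (l 16781224)) (b (l 16779632) (a (l 16784312) (l 16784936)))))))), by decide +kernel⟩

def k90_A00pm_213_s3 : ∃ t, chk3 f_A00pm_213_s3 t 58 124 1 = true :=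
  ⟨(c (b (a (b (a (b (b (l 16784760) (l 16784480)) (l 16783992)) (b (l 16785288) (a (l 16785248) (l 16795984)))) (a (l 16783120) (b (a (l 16794520) (l 16794704)) (l 16788016)))) (a (a (b (l 16795960) (b (l 16795232) (l 16783120))) (l 16785592)) (l 16785616))) (c (a (a (b (l 16790744) (l 16783344)) (b (l 16790688) (l 16783392))) (b (a (a (l 16785328) (b (l 16791632) (l 16784912))) (l 16791896)) (a (l 16788640) (b (a (l 16784016) (l 16789832)) (a (l 16788144) (l 16783192)))))) (a (a (b (l 16791264) (l 16784800)) (b (l 16792504) (l 16790192))) (a (b (b (l 16788128) (l 16791912)) (l 16790296)) (b (l 16793648) (a (b (l 16791024) (l 16789808)) (b (l 16791528) (l 16790104)))))))) (b (a (b (a (b (a (l 16788520) (b (a (l 16789144) (l 16778960)) (l 16778784))) (l 16783424)) (a (b (a (l 16779136) (l 16789872)) (a (l 16779200) (b (l 16789920) (l 16779472)))) (l 16779736))) (b (a (l 16783192) (a (l 16779136) (a (b (l 16779704) (l 16779696)) (l 16779888)))) (c (a (l 16789528) (l 16780736)) (a (l 16786816) (l 16783128)))))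 (a (b (l 16780336) (a (b (l 16790720) (c (l 16792040) (l 16783936))) (l 16780592))) (b (l 16791632) (l 16781104)))) (b (a (a (b (l 16782680) (l 16782368)) (c (l 16790520) (l 16782696))) (c (a (a (l 16786528) (b (l 16792264) (l 16792144))) (l 16792560)) (a (a (b (l 16783944) (l 16788824)) (b (l 16789560) (l 16784264))) (l 16784864)))) (a (a (b (l 16782040) (l 16781648)) (c (l 16784304) (l 16782080))) (b (a (l 16779576) (a (a (l 16780456) (l 16785832)) (l 16791336))) (a (l 16779080) (a (l 16780120) (a (l 16785776) (l 16780640))))))))), by decide +kernel⟩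

def k91_A00pm_213_s3 : ∃ t, chk3 f_A00pm_213_s3 t 59 124 1 = true :=
  ⟨(a (b (c (l 16785632) (b (l 16782304) (l 16792576))) (b (a (l 16783528) (l 16783704)) (a (c (l 16780456) (l 16781096)) (l 16783248)))) (b (c (l 16795992) (l 16793960)) (c (l 16784840) (c (l 16793544) (l 16792248))))), by decide +kernel⟩

def k92_A00pm_213_s3 : ∃ t, chk3 f_A00pm_213_s3 t 112 500 1 = true :=
  ⟨(a (c (b (c (a (l 538871567) (l 538871311)) (a (l 538571791) (l 538301199))) (c (a (l 538893583) (c (l 538965007) (l 538820879))) (a (l 538598159) (b (l 538588943) (l 538602511))))) (c (b (a (l 538255119) (l 538251279)) (a (l 538286095) (l 538081039))) (b (a (l 537921807) (l 537915919)) (a (l 537957647) (b (l 537941775) (l 537960207)))))) (c (c (a (b (c (l 538676495) (l 538529295)) (a (l 538491151) (c (l 538966543) (l 538821135)))) (b (a (l 538604303) (l 538470927)) (b (c (l 538962191) (l 538815759)) (c (l 538704655) (l 538827791))))) (a (b (b (l 538561551) (l 538574607)) (a (l 538595343) (l 538863631))) (b (b (l 538561295) (l 538574351))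 (b (l 538587919) (a (l 538601487) (l 538601743)))))) (b (a (b (l 537938703) (a (l 538089999) (l 538088463))) (b (a (l 538070543) (l 538069263)) (a (l 538086927) (l 538085903)))) (a (b (a (l 538106895) (l 538105359)) (a (l 538124047) (l 538122511))) (b (a (l 538103823) (l 537968399)) (a (l 537986831) (l 537985807))))))), by decide +kernel⟩

def k93_A00pm_213_s3 : ∃ t, chk3 f_A00pm_213_s3 t 112 501 1 = true :=
  ⟨(a (b (c (a (c (b (l 538909967) (l 538921743)) (l 539028495)) (c (b (l 538909967) (l 538519055)) (c (l 538564623) (l 538347023)))) (a (b (l 538149135) (l 538166799)) (b (a (l 538145551) (l 538143247)) (a (l 538163215) (l 538161167))))) (c (a (c (b (l 538933519) (l 538945807)) (c (l 538660367) (l 538446095))) (c (c (b (l 539003407) (l 539014927)) (b (l 538863119) (l 538875919))) (b (l 538644751) (l 538927887)))) (a (b (l 538184975) (a (l 538204431) (l 538202127))) (b (a (l 538181391) (l 538179343)) (a (l 538199823) (l 538198031)))))) (a (c (b (c (a (b (l 538910479) (l 538922255)) (c (l 538988559) (l 538577167)))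 (a (l 538891791) (b (l 538615311) (l 538629647)))) (c (c (a (l 539010831) (b (l 539005199) (l 539016719))) (a (l 539138831) (b (l 538863887) (l 538876687)))) (a (b (l 538644239) (l 538658831)) (b (l 538643983) (l 538658831))))) (a (b (c (l 538581007) (l 538119439)) (b (l 538177551) (c (l 538354703) (l 538033679)))) (b (b (l 538139919) (l 538057231)) (b (c (l 538336271) (l 538011919)) (c (l 538353679) (l 538031887)))))) (b (a (c (c (b (l 538912015) (l 538655503)) (b (l 538615567) (l 538629647))) (b (l 538038031) (b (l 538151951) (l 538160911)))) (c (c (b (l 538644751) (l 538589455)) (b (l 538615823) (l 538630159))) (b (c (l 538301199) (l 537969679)) (b (l 538150927) (l 538159887))))) (c (c (b (a (c (l 539006223) (l 538864655)) (c (l 539007759) (l 538865679))) (a (c (l 539017999) (l 538877711)) (c (l 539019535) (l 538878735)))) (b (a (l 538644239) (l 538644751)) (a (l 538659087) (l 538659599)))) (b (a (c (l 538335503) (l 538010127)) (b (l 538169103) (l 538178319))) (a (c (l 538352911) (l 538030095)) (c (l 538352655)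 (l 538028815)))))))), by decide +kernel⟩

def k94_A00pm_213_s3 : ∃ t, chk3 f_A00pm_213_s3 t 226 500 1 = true :=
  ⟨(c (a (b (b (c (l 538600975) (l 538562063)) (c (l 538478095) (l 538575375))) (c (b (c (l 538965007) (l 538817807)) (c (l 538707727) (l 538830095))) (b (l 538857487) (a (l 538602255) (l 538603023))))) (b (b (c (l 538604559) (l 538295567)) (c (a (l 538883087) (l 538885135)) (l 538443279))) (c (b (c (l 538700559) (l 538821135)) (c (l 538711823) (l 538564879))) (a (b (l 538590223) (l 538604047)) (b (l 538591759) (l 538605583)))))) (c (b (a (b (l 538237199) (l 537984271)) (b (c (l 16781344) (l 16780872)) (c (l 16781096) (l 16780656)))) (a (b (a (l 538268431) (l 538268175)) (a (l 538284559) (l 538284559))) (b (a (l 538268431) (l 538268943)) (a (l 538284559) (l 538285327))))) (b (a (a (a (l 537904655) (l 537904143)) (b (l 16779952) (l 537911567))) (a (b (l 16780072) (l 537910799)) (b (l 537892623) (l 537910543)))) (a (b (a (l 537931023) (l 537929743)) (a (l 537949455) (l 537948431))) (b (a (l 537928975)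 (l 537928719)) (a (l 537947663) (l 537947407))))))), by decide +kernel⟩

def k95_A00pm_213_s3 : ∃ t, chk3 f_A00pm_213_s3 t 227 500 1 = true :=
  ⟨(c (a (a (b (c (c (l 538959887) (l 538809871)) (l 538442255)) (b (c (l 538902287) (l 538596879)) (c (l 538646031) (l 538611215)))) (b (c (l 538492175) (l 538451215)) (b (c (l 538912783) (l 16781960)) (c (l 538925327) (l 538621455))))) (c (a (b (l 538371087) (a (l 538661647) (l 538938383))) (b (l 538387215) (l 538818063))) (b (b (l 16782920) (l 538478351)) (a (b (l 16782192) (l 16781880)) (b (l 16782440) (l 16782128)))))) (c (a (b (b (a (l 16781352) (l 16781536)) (a (l 16781128) (l 16781304))) (a (b (l 538273295) (l 538289935)) (b (l 16781072) (l 538299663)))) (b (a (b (l 16781728) (l 16781504)) (c (l 16782096) (l 16781544))) (a (b (l 16781272) (l 16781032)) (b (l 16781480) (l 16781240))))) (b (a (a (b (l 16780312) (l 537913615)) (b (l 16780448) (l 537921295))) (a (b (l 16780600) (l 16780448)) (b (l 16780768) (l 16780616)))) (a (a (b (l 537932047) (l 537951247)) (b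 (l 537940495) (l 537960207))) (a (b (l 537953039) (l 537973775)) (b (l 16780464) (l 537991183))))))), by decide +kernel⟩

def k96_A00pm_213_s3 : ∃ t, chk3 f_A00pm_213_s3 t 226 501 1 = true :=
  ⟨(b (c (a (c (b (a (l 538646031) (l 538647823)) (a (l 538658063) (l 538659855))) (b (a (l 538616335) (l 538617359)) (a (l 538630671) (l 538631695)))) (c (b (a (l 538649615) (l 538651919)) (a (l 538661647) (l 538664207))) (b (a (l 538618383) (l 538619919)) (a (l 538632719) (l 538634511))))) (c (a (b (a (l 538300943) (l 538300943)) (a (l 538317839) (l 538317839))) (b (a (l 538301199) (l 538301967)) (a (l 538318095) (l 538318863)))) (a (b (a (l 537968399) (l 537967375)) (a (l 537987855) (l 537986831))) (b (a (l 537966607) (l 537966351)) (a (l 537986063) (l 537986063)))))) (c (a (c (b (a (c (l 539009295) (l 538866959)) (c (l 539011343) (l 538868495))) (a (c (l 539021327) (l 538880015)) (c (l 539023119) (l 538881551)))) (b (a (l 538645519) (l 538646287)) (a (l 538660367) (l 538661391)))) (c (b (a (l 538673935) (l 538676495))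 (a (b (l 538683151) (l 538689551)) (b (l 538685711) (l 538692111)))) (b (a (l 538647567) (l 538649359)) (a (l 538662415) (l 538664463))))) (c (a (b (a (l 538334991) (l 538334991)) (a (l 538352399) (l 538352399))) (b (a (l 538335247) (l 538336271)) (a (l 538352911) (l 538353935)))) (a (b (a (l 538007567) (l 538006543)) (a (l 538027535) (l 538026767))) (b (a (l 538005775) (l 538005775)) (a (l 538025999) (b (l 538020879) (l 538031119)))))))), by decide +kernel⟩

def k97_A00pm_213_s3 : ∃ t, chk3 f_A00pm_213_s3 t 227 501 1 = true :=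
  ⟨(b (c (a (c (c (a (l 539005967) (l 539018255)) (b (l 538589967) (l 538603535))) (b (a (l 538625807) (l 538636815)) (a (l 538640655) (l 538652687)))) (c (b (c (l 539036687) (l 538621711)) (a (l 538969103) (l 538990351))) (a (b (l 538652431) (l 538669583)) (b (l 16781816) (l 538690575))))) (c (a (a (b (l 538307087) (l 538324495)) (b (l 538317583) (l 538336015))) (b (c (l 16781096) (l 16780688)) (a (l 538352399) (l 538372879)))) (a (a (b (l 537970703) (l 537990671)) (b (l 537980687) (l 538001423))) (b (a (l 537995279) (l 538013711)) (a (l 538017295) (l 538037519)))))) (a (c (c (b (a (l 538683919) (l 538966031)) (a (l 538563087) (l 538712079))) (a (b (l 538656015) (l 538671887)) (b (l 538669327) (l 538686479)))) (b (a (b (l 538039567) (l 538049295)) (c (l 538354959) (l 538023183))) (a (b (l 538059279) (c (l 538365199) (l 538037263))) (b (l 538072591) (l 538083343))))) (c (c (b (a (l 538984463) (l 539007247)) (a (l 539000847) (l 539025423))) (b (a (l 538687503) (l 538710031)) (a (l 538706447) (l 538730767))))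 (b (a (c (l 538372879) (l 538040591)) (b (l 538224655) (l 538236687))) (a (c (l 538394383) (l 538064655)) (c (l 538418447) (l 538088463))))))), by decide +kernel⟩

def k98_A00pm_213_s3 : ∃ t, chk3 f_A00pm_213_s3 t 224 502 1 = true :=
  ⟨(b (b (c (a (c (l 538823695) (l 538675727)) (c (c (l 539026703) (l 538888719)) (a (l 538674447) (l 538674191)))) (a (a (l 538223375) (l 538220815)) (c (l 538642447) (l 538057487)))) (c (a (c (c (l 539037711) (l 538902031)) (l 538690831)) (c (c (l 539038479) (l 539170319)) (a (l 538689551) (l 538689295)))) (a (a (l 4) (l 538240015)) (a (l 538237967) (b (l 538231055) (l 538240783)))))) (b (a (l 4) (c (c (c (a (l 539050255) (l 539050767)) (a (l 538915087) (l 538915343))) (a (l 538704911) (l 538704655))) (a (l 538391567) (b (l 538250511) (l 538260239))))) (l 4))), by decide +kernel⟩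

def k99_A00pm_213_s3 : ∃ t, chk3 f_A00pm_213_s3 t 225 1004 1 = true :=
  ⟨(a (c (a (c (b (c (l 539027727) (l 538889231)) (c (l 539039503) (l 538902543))) (b (l 538673935) (l 538689039))) (c (b (c (c (l 539062799) (l 538994447)) (l 538889999)) (a (c (l 539040271) (l 538903055)) (c (l 539041039) (l 538903311)))) (b (a (l 538673679) (l 538673935)) (a (l 538689039) (l 538689039))))) (c (a (b (l 538372111) (l 538390031)) (b (a (l 538371343) (l 538371087)) (a (l 538389263) (l 538389007)))) (a (b (l 538053903) (l 538074639)) (b (l 538052111) (a (l 538073359) (l 538072335)))))) (b (c (c (c (a (l 538996495) (l 538998031)) (a (l 538890767) (l 538892047))) (a (b (l 538670095) (l 538677775)) (b (l 538670607) (l 538678287)))) (a (b (c (l 538365967) (l 538045199)) (c (l 538374927) (l 538055439))) (b (c (l 538365711) (l 538043663)) (c (l 538374671) (l 538054159))))) (c (c (a (a (c (l 538974479) (l 538903823)) (c (l 539042319) (l 538904335))) (b (c (l 539040271) (l 538901775)) (c (l 539046415) (l 538908431)))) (a (b (l 538685455)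 (l 538693135)) (b (l 538685967) (l 538693647)))) (a (b (c (l 538383887) (l 538065935)) (a (l 538236943) (l 538236431))) (b (c (l 538383631) (l 538064399)) (c (l 538392591) (l 538074895))))))), by decide +kernel⟩

def k100_A00pm_213_s3 : ∃ t, chk3 f_A00pm_213_s3 t 450 1005 1 = true :=
  ⟨(b (a (c (c (c (l 538984719) (l 538915855)) (b (l 538700303) (l 538708239))) (b (l 538248975) (l 538393103))) (c (b (c (a (c (l 538915087) (l 538912783)) (c (l 539049999) (l 538913295))) (a (l 538700303) (l 538700559))) (a (c (c (a (l 539055119) (l 539055631)) (l 538919695)) (a (l 538708239) (l 538708239))) (c (c (b (l 539054351) (l 538923279)) (l 538919951)) (b (l 538706447) (l 538710287))))) (b (a (a (l 538247951) (l 538247695)) (l 538247183)) (a (a (l 538257935) (l 538257679)) (b (l 538254607) (l 538259727)))))) (a (b (c (c (c (b (l 539059215) (b (l 539061263) (l 4))) (b (l 538924047) (b (l 538926607) (l 4)))) (b (l 538713871) (b (l 538716943) (l 4)))) (b (l 538266127) (b (l 538269967) (l 4)))) (l 4)) (b (c (c (c (b (a (a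 (c (l 539093007) (l 539026447)) (c (l 539093263) (l 539026703))) (c (l 539093775) (l 539027215))) (a (b (a (c (l 539095055) (l 539028751)) (c (l 539095567) (l 539029007))) (a (c (a (l 539096591) (l 539096847)) (l 539030287)) (l 539063823))) (b (l 539062799) (l 539064335)))) (b (a (a (l 538924559) (l 538924815)) (l 538925071)) (a (b (a (l 538927119) (l 538927375)) (a (l 538928911) (l 538928911))) (l 538928655)))) (a (b (a (l 538714127) (l 538714127)) (b (a (l 538716943) (l 538716943)) (a (l 538718991) (l 538718991)))) (b (l 538714127) (l 538718223)))) (a (b (a (l 538399503) (b (l 538263823) (l 538266383))) (b (c (a (l 538422543) (l 538422287)) (l 538178575)) (a (a (l 538271759) (l 538271503)) (l 538271247)))) (b (b (l 538263311) (l 538265871)) (b (l 538268431) (l 538270991))))) (c (c (c (a (c (l 539100687) (l 539034383)) (l 539068431)) (a (l 538933263) (l 538933775))) (a (l 538740751) (l 538724111))) (a (c (l 538430479) (l 538120975)) (l 538277391)))))), by decide +kernel⟩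

def k101_A00pm_213_s3 : ∃ t, chk3 f_A00pm_213_s3 t 451 1005 1 = true :=
  ⟨(b (b (c (c (c (a (b (l 539049231) (l 538918159)) (l 539052559)) (a (l 538914063) (l 538915343))) (a (a (l 538700815) (l 538701071)) (l 538701583))) (a (a (l 538246671) (l 538246415)) (c (l 538401807) (l 538085647)))) (c (a (c (a (c (l 538989583) (l 538920463)) (c (l 539057423) (l 538921231))) (a (l 538708495) (l 538708751))) (c (c (l 539058703) (l 538921999)) (l 538709263))) (a (a (b (l 538254095) (l 538259215)) (b (l 538253583) (l 538258703))) (b (l 538253071) (l 538258191))))) (c (c (b (b (c (a (l 538994447) (l 539063311)) (a (l 538925839) (l 538927119))) (c (a (l 539064847) (l 539066383)) (a (l 538929423) (l 538930703)))) (c (a (l 539069455) (l 539071247)) (a (l 538934543) (l 538935823)))) (b (b (a (l 538714639) (l 538715151)) (a (l 538718479) (l 538719247))) (a (l 538724623) (l 538725135)))) (b (b (a (a (l 538264079) (l 538263823)) (l 538263311)) (a (c (l 538422799) (l 538110991)) (l 538268175))) (a (c (l 538429967) (l 538119183))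 (c (l 538429711) (l 538117903)))))), by decide +kernel⟩

def k102_A00pm_213_s3 : ∃ t, chk3 f_A00pm_213_s3 t 112 503 1 = true :=
  ⟨(a (l 4) (b (a (l 4) (a (b (b (c (c (c (l 539075855) (l 538941455)) (l 538732559)) (c (l 538439439) (l 538130191))) (l 4)) (l 4)) (c (c (b (c (l 539080975) (l 538946575)) (c (l 539093519) (l 539094799))) (b (b (l 538733327) (l 538741263)) (b (l 538749455) (l 4)))) (b (c (l 538444303) (l 538134799)) (c (b (l 538458383) (l 4)) (l 538157071)))))) (l 4))), by decide +kernel⟩

def k103_A00pm_213_s3 : ∃ t, chk3 f_A00pm_213_s3 t 226 1004 1 = true :=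
  ⟨(a (c (b (c (a (c (l 539033103) (l 538893327)) (b (l 538693647) (l 538700047))) (a (b (l 538671375) (l 538679055)) (l 538810639))) (c (c (a (l 538961423) (l 539047439)) (a (l 538906639) (l 538908431))) (a (b (l 538686735) (l 538694415)) (b (l 538687759) (l 538695695))))) (b (a (b (l 538105615) (c (l 538374415) (l 538053135))) (b (l 538105103) (c (l 538374671) (l 538052111)))) (a (b (c (l 538383375) (l 538063375)) (c (l 538392591) (l 538073871))) (c (b (l 538383631) (l 538392847)) (b (l 538062607) (l 538073103)))))) (c (b (c (a (b (l 538695695) (l 538702095)) (b (l 538698511) (l 538704911))) (a (l 538677775) (l 538813967))) (c (a (b (l 538708751) (l 538715151)) (b (l 538711311) (l 538717967))) (a (b (l 538689039) (l 538696975)) (c (l 538768911) (l 538620687))))) (b (a (b (l 538071567) (l 538114831)) (b (c (l 538366991) (l 538041359)) (c (l 538376207) (l 538051855)))) (a (b (l 538124559) (l 538134543)) (b (c (l 538385423) (l 538062351)) (c (l 538394639) (l 538073103))))))), by decide +kernel⟩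

def k104_A00pm_213_s3 : ∃ t, chk3 f_A00pm_213_s3 t 226 1005 1 = true :=
  ⟨(b (a (a (c (c (c (b (l 539054351) (l 539060495)) (b (l 538916623) (l 538923535))) (b (l 538702351) (l 538710287))) (b (c (l 538401807) (l 538084623)) (c (l 538411023) (l 538095375)))) (c (c (c (l 538992655) (l 538921999)) (b (l 538703375) (l 538711311))) (b (c (l 538402063) (l 538083855)) (c (l 538411279) (l 538094607))))) (c (c (a (b (l 538721551) (l 538728207)) (b (l 538724623) (l 538731279))) (a (b (l 538704911) (l 538712847)) (b (l 538706959) (l 538715151)))) (a (b (l 538144527) (c (l 538411791) (l 538094095))) (c (b (l 538403855) (l 538413327)) (b (l 538083855) (l 538094607)))))) (a (c (c (a (b (c (l 539066895) (l 538930447)) (l 538838031)) (c (l 538938127) (l 538936079))) (b (a (l 538718223) (l 538719247)) (a (l 538726159) (l 538727439)))) (b (a (b (l 538262799) (l 538267919)) (c (l 538420751) (l 538105359))) (a (l 538208527) (l 538208271)))) (c (c (a (b (l 538869007) (l 538741519)) (c (l 539078159) (l 538672655))) (a (b (l 538720783)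 (l 538728719)) (c (l 538799887) (l 538654223)))) (a (b (c (l 538421263) (l 538105103)) (l 538208271)) (c (b (l 538422799) (l 538432527)) (b (l 538105615) (l 538116879))))))), by decide +kernel⟩

def k105_A00pm_213_s3 : ∃ t, chk3 f_A00pm_213_s3 t 227 502 1 = true :=
  ⟨(b (a (c (b (a (c (c (l 539049487) (l 538908175)) (l 538688015)) (c (l 538861583) (l 538704143))) (c (a (c (l 539062799) (l 538923023)) (l 538743567)) (a (l 538704911) (l 538723087)))) (c (b (a (l 538379535) (l 538395151)) (a (b (l 538393871) (l 538403855)) (l 538416911))) (b (a (b (l 538048015) (l 538059023)) (b (l 538062607) (l 538074639))) (a (b (l 538070287) (l 538081551)) (b (l 538086927) (l 538099471)))))) (b (c (c (a (l 539017999) (l 539044879)) (a (l 538726159) (l 538753039))) (a (b (l 538115087) (l 538127631)) (b (l 538140943) (l 538288911)))) (c (a (c (l 539036687) (l 538747663)) (c (l 539066383) (l 538777359))) (a (b (l 538140431) (l 538153743)) (b (l 538303247) (l 538318351)))))) (a (c (b (c (a (a (l 538870031) (l 538744335)) (l 538760975))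 (a (c (l 538795535) (l 538648335)) (l 539011855))) (a (c (a (l 538683663) (l 538895119)) (c (l 538813199) (l 538667535))) (c (l 538780431) (c (l 538838287) (l 538692367))))) (c (b (a (b (l 538413839) (l 538424335)) (b (l 538433807) (l 538445839))) (a (b (l 538435087) (l 538446095)) (l 538331151))) (b (a (b (l 538093071) (l 538105103)) (b (l 538112527) (l 538126095))) (a (b (l 538117135) (l 538129679)) (b (l 538140431) (l 538155279)))))) (c (b (c (b (l 538799119) (l 538811407)) (a (l 539039759) (l 538536207))) (a (c (l 539081743) (c (l 538871055) (l 538725135))) (c (l 539116815) (l 538565391)))) (c (b (a (l 538467855) (l 538501135)) (a (l 538632463) (l 538533391))) (b (a (b (l 538139151) (l 538154767)) (l 538180367)) (a (l 537912079) (l 538215695))))))), by decide +kernel⟩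

def k106_A00pm_213_s3 : ∃ t, chk3 f_A00pm_213_s3 t 226 503 2 = true :=
  ⟨(c (a (a (b (b (c (l 539082767) (l 538948111)) (c (l 539095567) (l 538962447))) (l 4)) (a (b (b (l 538816015) (l 538829583)) (l 4)) (b (b (l 538884367) (l 538897679)) (b (a (l 538877455) (l 538911503)) (l 4))))) (a (b (b (l 538819087) (l 538832399)) (b (a (l 538845455) (l 538913807)) (l 4))) (b (a (b (l 538887951) (l 538901519)) (b (l 538892047) (l 538840847))) (a (b (b (l 539045903) (l 538851855)) (l 4)) (b (b (l 538783247) (l 539069199)) (l 539069199)))))) (c (b (a (a (b (l 538809359) (l 538824975)) (b (l 538810895) (l 538826511))) (a (b (l 538812431) (l 538828303)) (b (l 538547215) (a (l 538829839) (l 538835983))))) (a (b (a (l 4) (l 539110671)) (l 4)) (b (a (l 538843919) (a (b (l 538841615) (l 538849807)) (b (l 538846991) (l 538865935)))) (a (l 4) (a (l 4) (l 538867471)))))) (a (a (b (b (l 538666511) (l 538683663)) (l 4)) (b (b (l 538667535) (l 538684687)) (b (l 538701839) (l 4)))) (b (a (b (l 538668815) (l 538685967)) (b (l 538671631)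 (a (l 538687247) (l 538693391)))) (a (b (l 538703119) (l 4)) (b (a (b (l 538700047) (l 538709263)) (b (l 538705423) (l 538725391))) (a (l 4) (l 538727951)))))))), by decide +kernel⟩

def k107_A00pm_213_s3 : ∃ t, chk3 f_A00pm_213_s3 t 226 503 3 = true :=
  ⟨(c (c (b (a (b (a (l 538519567) (l 538520079)) (a (l 538537999) (l 538538511))) (a (b (l 538520847) (l 538539535)) (b (l 538523151) (a (l 538540559) (l 538546447))))) (a (b (a (l 4) (l 538557455)) (l 4)) (b (a (l 538558223) (a (b (l 538554639) (l 538564367)) (b (l 538559759) (l 538580495)))) (a (l 4) (a (l 4) (l 538584079)))))) (b (a (b (a (l 538368271) (l 538368527)) (a (l 538388239) (l 538388495))) (a (b (l 538368783) (l 538389007)) (b (l 538504975) (a (l 538389519) (l 538395407))))) (a (b (a (l 4) (l 538408719)) (l 4)) (b (a (l 538409231) (a (b (l 538404879) (l 538415375)) (b (l 538409743) (l 538431503)))) (a (l 4) (a (l 4) (l 538436367))))))) (c (b (a (b (a (l 538213135) (l 538212623)) (a (l 538234639) (l 538234383))) (a (b (l 538212623) (l 538234383))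 (b (a (l 538212623) (l 538215951)) (a (l 538234639) (l 538240015))))) (a (b (a (l 4) (l 538256143)) (l 4)) (b (a (l 538256143) (a (b (l 538251023) (l 538262287)) (b (l 538255887) (l 538278415)))) (a (l 4) (a (l 4) (l 538284303)))))) (b (a (b (a (l 538053647) (l 538052879)) (a (l 538076687) (l 538075919))) (a (b (l 538052111) (l 538075407)) (b (a (l 538051855) (l 538054927)) (a (l 538075407) (l 538080783))))) (a (b (a (l 4) (l 538099471)) (l 4)) (b (a (l 538098959) (a (b (l 538093071) (l 538105103)) (b (l 538097679) (l 538121231)))) (a (l 4) (a (l 4) (l 538128399)))))))), by decide +kernel⟩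

def k108_A00pm_213_s3 : ∃ t, chk3 f_A00pm_213_s3 t 227 503 2 = true :=
  ⟨(a (c (a (a (a (b (b (l 539032591) (l 539050511)) (b (l 538807823) (l 539080463))) (b (b (l 539038223) (l 539058959)) (b (l 538817295) (l 539087887)))) (b (b (l 539047951) (l 539072015)) (b (l 538831631) (l 539098895)))) (b (b (l 538804239) (l 538829583)) (b (a (l 538841615) (l 538845199)) (l 538844943)))) (b (a (b (c (l 538832911) (l 538688527)) (b (a (l 538771215) (l 538787087)) (l 538793231))) (b (c (l 538864143) (l 538719759)) (c (l 538892047) (l 538749455)))) (b (a (b (l 538807311) (l 538816015)) (c (l 538642703) (l 538501647))) (a (l 539089167) (l 538447631))))) (b (b (a (c (l 539107599) (l 538559247)) (c (l 539096591) (l 538593039))) (c (a (l 538839567) (l 538806287)) (a (l 538585871) (l 538617615)))) (b (c (a (l 538821391) (l 538789903)) (a (l 538471183) (l 538634767))) (c (a (l 538813455) (l 538782479)) (b (l 538490383) (l 538491919)))))), by decide +kernel⟩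

def k109_A00pm_213_s3 : ∃ t, chk3 f_A00pm_213_s3 t 227 503 3 = true :=
  ⟨(c (a (c (b (a (b (l 538540047) (b (l 538357007) (l 538575119))) (b (l 538571279) (l 538602511))) (b (a (b (l 538590223) (l 538600207)) (l 538356239)) (a (l 538606607) (l 538636047)))) (b (a (b (l 538387215) (a (b (l 538400271) (l 538415375)) (l 538425103))) (b (l 538418447) (l 538451215))) (b (a (b (l 538440463) (l 538450959)) (l 538206735)) (a (l 538458639) (l 538488079))))) (b (b (a (l 538530575) (l 538564367)) (a (l 538560527) (l 538592015))) (b (a (l 538851599) (l 538612495)) (a (l 538591759) (l 538620687))))) (c (b (a (a (b (l 538364431) (b (a (l 538244367) (l 538260495)) (l 538269455))) (b (l 538261263) (l 538295823))) (b (a (l 538296335) (l 538330383)) (a (l 538328847) (l 538360335)))) (a (b (a (b (l 538286351) (l 538297871)) (b (l 538318351) (l 538328591))) (a (l 538306575) (l 538336015))) (b (a (l 538354191) (l 538383375)) (l 538144527)))) (b (a (a (b (a (l 538063375) (l 538075663)) (b (a (l 538084623) (l 538100495)) (l 538110479)))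 (b (l 538099983) (l 538136335))) (b (a (l 538135055) (l 538168847)) (a (l 538169359) (l 538200591)))) (a (b (a (b (l 538128143) (l 538140431)) (b (l 538160143) (l 538171151))) (a (l 538150415) (l 538179599))) (b (a (l 538196239) (l 538225167)) (a (l 538208527) (l 538237199))))))), by decide +kernel⟩

def k110_A00pm_213_s3 : ∃ t, chk3 f_A00pm_213_s3 t 114 500 1 = true :=
  ⟨(a (b (c (a (b (c (l 16781904) (l 16783432)) (c (l 16781536) (l 16783136))) (c (l 16782352) (c (l 16784128) (l 16783544)))) (c (a (b (l 16782264) (l 538054415)) (b (l 16782752) (l 16782528))) (a (a (b (l 16780944) (l 16780800)) (c (l 16781368) (l 16780744))) (b (l 16781440) (l 16781296))))) (c (a (c (b (l 16781168) (l 538992399)) (b (l 538400271) (c (l 16782752) (l 16782288)))) (b (c (l 16784416) (l 16780768)) (c (l 16784040) (l 16780464)))) (c (a (a (b (l 16781696) (l 16781464)) (c (l 16782064) (l 16781552))) (b (l 16782304) (l 16782072))) (a (b (c (l 16781016) (l 16780464)) (c (l 16780832) (l 16780328))) (b (c (l 16781448) (l 16780856))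 (c (l 16781272) (l 16780720))))))) (c (c (a (b (l 16783024) (l 16782280)) (b (l 16786352) (l 16782656))) (b (c (l 16782464) (l 16781824)) (a (l 16781224) (l 16781872)))) (b (c (a (a (l 16783032) (l 16783312)) (l 16781128)) (a (b (l 16781896) (l 16781752)) (a (l 16782192) (l 16782456)))) (a (c (c (l 16783008) (l 16782432)) (b (l 16781608) (l 16781456))) (c (l 16780680) (b (l 16782120) (l 16781968))))))), by decide +kernel⟩

def k111_A00pm_213_s3 : ∃ t, chk3 f_A00pm_213_s3 t 114 501 1 = true :=
  ⟨(a (b (c (a (c (a (l 538737935) (l 539032847)) (b (c (l 16782424) (l 16782000)) (c (l 16782088) (l 16781696)))) (b (c (l 16781040) (l 538494735)) (c (l 539087119) (l 538250511)))) (c (a (b (a (l 16781224) (l 16781456)) (a (l 16780976) (l 16781208))) (b (l 538173711) (a (l 16781456) (l 16781720)))) (a (b (c (l 16780648) (l 16780176)) (a (l 538061071) (l 16780344))) (b (a (l 16780728) (l 16780944)) (a (l 16780560) (l 16780784)))))) (a (c (c (b (l 538779151) (l 538800399)) (b (c (l 538826255) (l 16781392)) (a (l 538758927)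 (l 538789903)))) (c (b (c (l 16781024) (l 16780648)) (a (l 538446351) (l 538477583))) (b (a (l 538087695) (l 538116367)) (a (l 538116111) (l 538147087))))) (c (b (c (l 539110671) (l 538276623)) (a (l 538436367) (l 538739471))) (c (b (a (l 16781208) (l 16781472)) (c (l 16781264) (l 16780888))) (b (a (l 16780384) (l 16780608)) (c (l 16780504) (l 16780112))))))) (b (a (c (b (l 538309391) (l 538335503)) (b (c (l 16782376) (a (l 16781184) (l 16781424))) (c (l 16782128) (a (l 16781016) (l 16781256))))) (c (c (l 16781616) (l 16781240)) (b (c (l 16782952) (l 16781808)) (c (l 16782696) (l 16781632))))) (b (a (c (l 538496015) (c (l 538298383) (l 537964815))) (c (l 16781184) (c (l 16782432) (l 16781448)))) (a (c (l 538521871) (c (l 538328591) (l 537998095))) (c (l 538534671) (c (l 16779536) (l 538062351))))))), by decide +kernel⟩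

def k112_A00pm_213_s3 : ∃ t, chk3 f_A00pm_213_s3 t 115 250 1 = true :=
  ⟨(b (c (b (a (a (b (l 16781384) (l 16781056)) (l 16781960)) (a (l 16782144) (l 16782280))) (a (c (l 16782960) (a (l 16785168) (l 16785872))) (a (l 16781064) (l 16781224)))) (b (c (a (a (l 16784368) (l 16785016)) (l 16780768)) (a (a (l 16780248) (l 16783440)) (a (l 16784032) (l 16784624)))) (c (a (a (l 16781288) (l 538124815)) (c (l 16785864) (l 16785128))) (a (a (l 16779952) (l 16780512)) (a (l 16783696) (l 16784264)))))) (a (c (b (a (c (l 16781832) (l 16781904)) (c (l 16784648) (l 16785184))) (a (b (l 16781448) (l 16780936)) (c (l 16781064) (l 16781816)))) (b (a (c (a (l 16780640) (l 16780936)) (a (l 16779488) (l 16782368))) (c (l 16781392) (l 16780144))) (b (c (l 16780672) (a (l 16781944) (l 16782456))) (c (l 16780376) (a (l 16781728) (l 16782224)))))) (c (c (b (l 16782280) (b (l 16784200) (l 16781128))) (b (a (l 16785736) (l 16785944)) (l 16782176))) (b (a (c (l 16784616) (l 16783304)) (b (l 16779440) (l 16779176))) (a (c (l 16781392)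 (l 16780232)) (c (l 16784608) (l 16780760))))))), by decide +kernel⟩

def k113_A00pm_213_s3 : ∃ t, chk3 f_A00pm_213_s3 t 114 502 1 = true :=
  ⟨(a (b (a (c (b (a (b (l 538254351) (l 538266639)) (l 538428687)) (a (c (l 539099919) (l 538811151)) (l 538455823))) (c (b (a (l 538473999) (l 538507791)) (a (l 538504463) (l 538539535))) (b (a (l 538146831) (l 538180367)) (a (l 538180367) (l 538215439))))) (c (b (b (l 538473743) (l 538487055)) (b (l 538500111) (l 538512911))) (b (c (a (l 538542863) (l 16780936)) (a (l 538215439) (l 538249487))) (c (a (l 538573839) (l 538607119)) (a (l 538249487) (l 538282767)))))) (a (a (c (b (a (l 538439439) (l 538456847)) (l 538541839)) (b (b (l 538369551) (l 538386191)) (c (l 538567695) (l 538249999)))) (c (b (l 538482447) (l 538507791)) (b (c (l 538570767) (l 538249743)) (c (l 538600719) (l 538282767))))) (b (c (c (l 538755599) (l 538655247)) (c (a (l 538604047) (l 538636047)) (a (l 538282767) (l 538314767)))) (c (c (l 538532111) (l 538680079)) (c (a (l 538632463) (l 538663439))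 (a (l 538314511) (l 538345231))))))) (b (c (a (b (l 538546959) (c (l 538712079) (l 538961679))) (b (l 538376975) (c (l 538648335) (l 539022607)))) (a (c (b (l 538358287) (l 538386703)) (b (l 538030607) (l 538062095))) (b (a (l 537975311) (l 538005775)) (a (l 538004239) (l 538033935))))) (c (a (b (c (l 538690575) (l 538985999)) (a (l 538523407) (l 538492431))) (a (b (l 538750991) (l 538462223)) (b (l 538720527) (l 538432271)))) (c (a (b (l 538414095) (l 538439951)) (b (l 538473231) (l 538497039))) (a (b (l 538092815) (l 538121487)) (b (l 538151439) (l 538446863))))))), by decide +kernel⟩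

def k114_A00pm_213_s3 : ∃ t, chk3 f_A00pm_213_s3 t 114 503 1 = true :=
  ⟨(a (c (a (a (b (b (l 538633487) (l 538654479)) (b (c (l 538758927) (l 538931983)) (l 538604815))) (b (b (l 538799119) (l 538550031)) (b (l 538562319) (l 538554383)))) (b (b (a (l 538561039) (l 538534159)) (a (l 538546447) (l 538515983))) (b (a (l 538532111) (l 538502415)) (a (l 538524431) (l 538494991))))) (a (b (c (b (a (l 538596879) (l 538628367)) (a (l 538622479) (l 538652175))) (b (a (l 538282511) (l 538313743)) (a (l 538311439) (l 538340879)))) (c (b (a (l 538641167) (l 538669583)) (a (l 538649103) (l 538677007))) (b (a (l 538333199) (l 538361359)) (a (l 538344207) (l 538372111))))) (b (b (c (l 538203919) (a (l 538343951) (l 538373391))) (c (a (l 538681359) (l 538709519)) (a (l 538369807) (l 538397967)))) (b (c (a (l 538697487) (l 538724879)) (a (l 538389007) (l 538416399))) (c (l 538248975) (a (l 538399503) (l 538426639))))))) (c (b (a (b (a (l 538503439) (l 538473231)) (b (l 538341391) (l 538333711))) (b (c (l 538323983) (l 539075855))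 (b (l 538148879) (l 538276367)))) (a (a (b (l 538473231) (l 538466063)) (b (l 538444559) (l 538437135))) (b (b (l 538270479) (l 538265871)) (a (l 538274575) (l 538381071))))) (a (c (b (b (l 538463247) (l 538482959)) (b (l 538228495) (l 538235919))) (b (b (l 538148111) (l 538170895)) (b (l 538188047) (l 538198543)))) (b (b (a (l 538080783) (l 538107919)) (a (l 538100751) (l 538127119))) (b (a (l 538115599) (l 538141455)) (a (l 538124303) (l 538150159))))))), by decide +kernel⟩

def k115_A00pm_213_s3 : ∃ t, chk3 f_A00pm_213_s3 t 115 251 1 = true :=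
  ⟨(b (a (b (a (b (c (l 538180111) (c (l 16779784) (l 16781496))) (c (l 538158863) (c (l 16779464) (l 16781256)))) (c (b (l 16780696) (l 538100239)) (b (c (l 16782960) (l 16781984)) (c (l 16782632) (l 16781736))))) (a (b (c (l 538205967) (a (l 538088719) (l 538116111))) (c (c (l 538282255) (l 539036943)) (a (l 538112783) (l 538139407)))) (b (c (l 538081295) (c (l 16782288) (l 16781464))) (c (c (l 538494223) (l 16782192)) (c (l 16781936) (l 538285071)))))) (b (a (b (c (l 16780936) (l 537892879)) (c (l 16780472) (l 537916943))) (b (c (l 538007311) (l 537944591)) (c (l 16780696) (l 537967375)))) (a (b (c (l 538025743) (l 16779776)) (c (l 538009359) (l 537960719))) (b (c (l 16780248) (l 537989135)) (c (l 16779816) (l 538009103)))))) (a (c (b (a (b (a (l 538385935) (l 538357775)) (b (l 538092559) (l 538086159))) (b (a (l 538330127) (l 538302991)) (b (l 538038031) (l 538032143)))) (a (b (b (l 538080783) (l 538076431)) (a (l 538353423) (l 538326287))) (b (b (l 538027023) (l 538022927)) (b (l 538019599) (l 538016527)))))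 (c (b (a (a (l 538837007) (l 538862863)) (a (l 538888207) (l 538913295))) (a (a (l 538861071) (l 538886415)) (a (l 538910991) (l 538935567)))) (a (b (b (l 538524431) (l 538275855)) (b (l 538290959) (l 538301199))) (b (b (l 538306831) (l 538325519)) (a (l 538065679) (l 538089999)))))) (c (a (c (b (a (l 538163983) (l 538137871)) (b (l 538406159) (l 538132239))) (b (b (l 16782016) (l 538896655)) (b (l 538885647) (l 538877967)))) (b (b (l 537943055) (c (l 538363663) (l 16781856))) (b (c (l 538355471) (l 16781424)) (a (l 538196239) (l 538171407))))) (a (b (b (l 537979663) (l 537996047)) (b (l 538008591) (l 538017039))) (b (b (l 16779608) (l 538042639)) (b (l 538054927) (l 538063375))))))), by decide +kernel⟩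

def k116_A00pm_213_s3 : ∃ t, chk3 f_A00pm_213_s3 t 58 250 2 = true :=
  ⟨(c (c (a (b (a (b (l 16786768) (l 16785832)) (l 16781184)) (a (b (l 16784936) (l 16784080)) (b (l 16785128) (l 16784304)))) (b (a (l 16786496) (a (l 16786520) (l 16781216))) (a (b (l 16785256) (l 16784480)) (l 16784976)))) (a (b (a (l 16781632) (l 16787048)) (a (b (l 16785432) (l 16784512)) (b (l 16785664) (l 16784784)))) (a (b (l 16787160) (l 16780176)) (b (a (l 16787224) (l 16781936)) (l 16785568))))) (c (a (b (a (l 16787480) (l 16787696)) (b (l 16786080) (a (l 16779728) (l 16785288)))) (a (b (l 16787864) (l 16780752)) (b (l 16782656) (l 16786192)))) (a (b (a (l 16782872) (l 16788384)) (a (b (l 16786480) (l 16785448)) (l 16783696))) (a (b (l 16788600) (l 16781360)) (b (l 16788680) (l 16786848)))))), by decide +kernel⟩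

def k117_A00pm_213_s3 : ∃ t, chk3 f_A00pm_213_s3 t 58 250 6 = true :=
  ⟨(c (c (a (b (a (l 16787696) (l 16788920)) (b (l 16781848) (l 16783408))) (b (a (l 16789168) (l 16789296)) (l 16784592))) (a (a (b (l 16787280) (a (l 16785696) (l 16786320))) (b (l 16788632) (l 16787048))) (b (a (l 16789568) (l 16789712)) (a (l 16787408) (l 16787712))))) (c (a (a (b (l 16786864) (l 16783048)) (b (l 16788176) (l 16786896))) (b (a (l 16789496) (l 16790144)) (a (l 16787736) (l 16788072)))) (b (a (a (l 16781192) (l 16787712)) (a (l 16789000) (l 16790400))) (a (a (l 16782704) (l 16786520)) (a (l 16787720) (l 16788440)))))), by decide +kernel⟩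

def k118_A00pm_213_s3 : ∃ t, chk3 f_A00pm_213_s3 t 58 250 14 = true :=
  ⟨(c (c (c (a (a (b (l 16786160) (l 16785104)) (b (l 16787424) (l 16786280))) (b (a (l 16788688) (l 16790064)) (a (l 16787456) (l 16788632)))) (a (a (b (l 16786048) (a (l 16782104) (l 16780064))) (b (l 16787304) (l 16786184))) (b (a (l 16788560) (l 16789928)) (a (l 16787352) (l 16788520))))) (c (a (a (b (l 16780696) (a (l 16784640) (l 16785216))) (b (l 16787184) (l 16786080))) (b (a (l 16788432) (l 16789792)) (a (l 16787248) (l 16788408)))) (a (a (b (l 16780592) (a (l 16784552) (l 16785120))) (b (l 16787064) (l 16785984))) (b (b (l 16789336) (l 16788656)) (a (l 16787144) (l 16788296)))))) (c (c (b (a (a (l 16780480) (l 16786944)) (a (l 16788176) (l 16789520))) (a (a (b (l 16785016) (l 16784480)) (l 16780648)) (a (l 16787032) (l 16788184)))) (b (a (a (l 16780368) (l 16786824)) (a (l 16788048) (l 16789384))) (a (a (a (l 16781760) (l 16784936)) (l 16780544)) (a (l 16786928) (l 16788064))))) (b (a (a (l 16780200) (l 16786648)) (a (l 16787856)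 (l 16789184))) (a (a (b (l 16784776) (l 16784272)) (a (l 16785360) (l 16785920))) (a (l 16786768) (l 16787888)))))), by decide +kernel⟩

def k119_A00pm_213_s3 : ∃ t, chk3 f_A00pm_213_s3 t 58 250 15 = true :=
  ⟨(c (c (b (a (a (a (l 16784920) (l 16785512)) (l 16786408)) (a (l 16787592) (l 16788904))) (a (a (a (l 16781448) (l 16781992)) (a (l 16785160) (l 16785712))) (a (l 16781312) (l 16787656)))) (b (a (a (a (l 16784704) (l 16785280)) (l 16786160)) (a (l 16787336) (l 16788624))) (a (a (a (l 16781272) (l 16784424)) (a (l 16784968) (l 16785512))) (a (l 16781088) (l 16787424))))) (c (a (a (b (a (l 16784480) (l 16785048)) (a (l 16781088) (l 16784240))) (b (l 16785912) (a (l 16784768) (l 16785304)))) (a (b (l 16787072) (l 16780872)) (b (l 16783104) (l 16781944)))) (b (a (a (l 16781920) (l 16785672)) (a (l 16786808) (l 16782824))) (a (a (a (l 16780912) (l 16784048)) (a (l 16784568) (l 16785096))) (a (l 16785896) (l 16786952)))))), by decide +kernel⟩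

def k120_A00pm_213_s3 : ∃ t, chk3 f_A00pm_213_s3 t 116 251 1 = true :=
  ⟨(b (c (a (c (b (c (l 16780640) (l 16781016)) (b (l 16780216) (l 16779816))) (b (l 16781624) (b (l 16783552) (l 16783104)))) (b (c (l 16781112) (l 16784624)) (c (c (l 16782776) (l 16783152)) (l 16781120)))) (b (a (a (b (l 16778864) (l 538015759)) (b (l 16779424) (l 16779088))) (a (b (l 16779984) (l 16779648)) (l 16780376))) (c (a (c (l 16781280) (l 16781176)) (l 16781984)) (a (a (l 16780152) (l 16780656)) (a (l 16783784) (l 16784296)))))) (a (c (a (b (b (l 16779624) (a (l 16779160) (l 16779280))) (b (c (l 16781200) (l 16781696)) (c (l 538301199) (l 16781288)))) (b (b (l 537844751) (l 16779440)) (c (b (l 16781408) (l 16781056)) (b (l 16781952) (l 16778928))))) (a (a (b (l 538070543) (l 538093839)) (b (l 538092559) (l 538115855))) (b (c (l 16780624) (l 16779984)) (b (l 16779856) (l 16779440))))) (c (a (b (c (l 16779520) (c (l 16782624) (l 16782968))) (b (l 16779264) (a (l 16778840) (l 16778944)))) (b (c (l 16782304) (l 16780384)) (b (l 16779456)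 (l 16779096)))) (c (b (l 16781024) (a (l 16779976) (l 16780240))) (b (c (l 16780984) (l 16780472)) (b (l 16780176) (l 16779792))))))), by decide +kernel⟩

def k121_A00pm_213_s3 : ∃ t, chk3 f_A00pm_213_s3 t 117 251 1 = true :=
  ⟨(b (b (a (a (c (l 16779136) (l 16780944)) (c (l 16779256) (l 16781472))) (c (c (l 16784136) (l 16785208)) (l 16781784))) (c (a (c (l 16780600) (c (l 16783864) (l 16784320))) (c (l 16783432) (l 16784392))) (a (a (l 16780192) (l 16780440)) (c (l 16785448) (l 16786104))))) (a (c (b (c (a (l 16782448) (l 16782584)) (c (l 16783080) (l 16780856))) (a (c (l 16779152) (l 16779784)) (c (l 16781920) (l 16779976)))) (c (b (l 16781496) (l 16780608)) (c (b (l 16784632) (l 16781192)) (b (l 16784056) (l 16780704))))) (b (c (c (l 16782752) (l 16780976)) (c (l 16784536) (l 16780112))) (b (c (c (l 16782264) (l 16783032)) (l 16781712)) (c (c (l 16781952) (l 16782664)) (l 16781256)))))), by decide +kernel⟩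

def k122_A00pm_213_s3 : ∃ t, chk3 f_A00pm_213_s3 t 59 250 1 = true :=
  ⟨(a (b (a (b (a (a (b (l 16779768) (l 16784304)) (l 16779696)) (l 16780120)) (c (a (b (l 16782192) (l 16787008)) (a (l 16782256) (l 16787768))) (a (l 16785240) (l 16785656)))) (c (l 16778904) (l 16780928))) (a (c (a (l 16780736) (b (c (l 16780504) (l 16781912)) (l 16785648))) (a (l 16783648) (b (b (l 16784616) (l 16789280)) (l 16788520)))) (a (a (c (b (l 16781544) (l 16785656)) (b (l 16784656) (l 16788600))) (b (l 16778024) (c (b (l 16786088) (l 16785512)) (c (l 16787976) (l 16789448))))) (b (l 16778496) (c (a (l 16780880) (l 16786416)) (l 16783936)))))) (c (a (c (l 16778368) (l 16779520)) (l 16780376)) (b (l 16786632) (a (l 16780080) (l 16791144))))), by decide +kernel⟩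

def k123_A00pm_213_s3 : ∃ t, chk3 f_A00pm_213_s3 t 59 251 1 = true :=
  ⟨(c (a (c (a (b (c (l 16783680) (l 16784200)) (b (l 16782944) (l 16782328))) (b (a (l 16784032) (b (b (l 16784712) (l 16784216)) (l 16783760))) (b (l 16783104) (l 16782512)))) (b (a (c (l 16779512) (l 16780088)) (a (l 16785200) (b (b (l 16785992) (l 16785448)) (l 16784912)))) (a (b (l 16783880) (l 16783152)) (b (l 16784120) (l 16783416))))) (b (a (a (b (b (l 16785944) (l 16785336)) (b (a (l 16784560) (l 16784840)) (l 16786824))) (b (l 16786344) (b (l 16785352) (l 16784736)))) (a (l 16775928) (l 16776656))) (a (b (a (l 16783736) (a (b (l 16783976) (l 16783632)) (b (l 16784272) (l 16783696)))) (l 16785760)) (b (c (l 16779128) (l 16780152)) (a (b (a (l 16788672) (l 16783728)) (a (l 16783104) (b (l 16783280) (l 16783048)))) (a (l 16786408) (l 16784096))))))) (b (a (a (b (l 16787400) (l 16781168)) (b (a (l 16787664) (b (c (l 16787400) (l 16788944)) (l 16787544))) (l 16786776))) (a (b (a (l 16783112) (l 16788824)) (b (a (a (l 16787224) (l 16787480))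 (l 16787848)) (a (l 16784136) (l 16787248)))) (l 16783728))) (c (a (a (b (l 16784904) (l 16784056)) (b (l 16785240) (l 16784408))) (a (b (a (l 16785480) (a (b (l 16785800) (l 16785384)) (b (l 16786072) (l 16785464)))) (l 16784736)) (b (l 16781272) (a (a (b (l 16785136) (l 16784728)) (b (l 16785408) (l 16784808))) (l 16780320))))) (a (a (b (l 16786032) (l 16785048)) (b (l 16786472) (l 16785504))) (b (a (a (l 16786784) (b (a (l 16787168) (l 16787424)) (l 16786696))) (l 16787744)) (a (l 16785928) (a (b (a (l 16786408) (l 16786664)) (a (l 16785944) (l 16786040))) (l 16786752)))))))), by decide +kernel⟩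

def k124_A00pm_213_s3 : ∃ t, chk3 f_A00pm_213_s3 t 30 62 1 = true :=
  ⟨(b (b (c (a (l 16795136) (a (l 16793232) (l 16791368))) (a (l 16795144) (c (l 16783792) (l 16785216)))) (a (a (c (l 16794656) (l 16793472)) (l 16793592)) (a (c (l 16792048) (l 16782752)) (c (l 16779624) (l 16781928))))) (b (a (a (c (b (l 16793736) (l 16791728)) (a (l 16786480) (l 16791776))) (c (l 16792192) (l 16791656))) (a (c (l 16790600) (l 16791096)) (a (l 16789736) (b (l 16789408) (l 16777984))))) (a (a (c (a (b (l 16788256) (b (l 16775808) (l 16779776))) (c (l 16777672) (l 16783592))) (b (a (l 16790072) (l 16790280)) (a (c (l 16787040) (l 16788080)) (l 16783472)))) (a (b (l 16785496) (a (l 16783736) (l 16784360))) (b (l 16790264) (l 16783984)))) (a (c (b (l 16789344) (l 16788456)) (b (l 16789384) (l 16788224))) (b (a (l 16777816) (l 16777048)) (c (l 16776200) (l 16782056))))))), by decide +kernel⟩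

def k125_A00pm_213_s3 : ∃ t, chk3 f_A00pm_213_s3 t 31 62 1 = true :=
  ⟨(b (a (a (c (b (l 16778984) (a (l 16788400) (l 16787472))) (b (a (l 16793880) (l 16793328)) (a (l 16791528) (l 16780472)))) (c (b (l 16788952) (l 16787184)) (b (l 16792904) (l 16780064)))) (a (b (a (l 16800832) (l 16800496)) (c (l 16786920) (l 16779480))) (c (b (c (l 16787336) (l 16788704)) (c (l 16785952) (l 16787144))) (c (l 16778896) (b (l 16792008) (l 16790040)))))) (b (a (a (a (c (l 16787048) (l 16778776)) (b (l 16787704) (l 16797296))) (c (a (l 16785448) (l 16785424)) (a (l 16777744) (l 16788144)))) (c (a (c (l 16784776) (l 16785904)) (c (a (l 16784632) (l 16784496)) (l 16785600))) (a (c (l 16787184) (l 16788608)) (c (l 16786760) (l 16788072))))) (b (a (a (c (l 16785496) (l 16787312)) (c (l 16794672) (a (l 16786528) (l 16786456)))) (c (a (l 16784136) (c (l 16783552) (l 16784448))) (a (l 16786328) (l 16786016)))) (a (a (c (l 16784840) (l 16775776)) (a (b (l 16795136) (l 16794720)) (l 16794760))) (c (a (l 16793840) (c (l 16782880) (l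 16783680))) (a (l 16790536) (l 16790336))))))), by decide +kernel⟩

def k126_A00pm_213_s3 : ∃ t, chk3 f_A00pm_213_s3 t 56 126 1 = true :=
  ⟨(b (a (l 4) (b (a (l 4) (c (b (a (a (l 4) (b (b (a (l 538645263) (l 538727183)) (l 4)) (l 4))) (a (b (c (l 538808335) (l 538613519)) (l 4)) (b (c (l 538777359) (l 538910735)) (c (l 538773263) (l 538643471))))) (l 4)) (b (b (c (a (a (l 4) (l 538567951)) (a (l 538597135) (l 538626063))) (a (a (l 4) (l 538266895)) (a (l 538295823) (l 538324495)))) (a (l 4) (a (l 4) (b (l 538481423) (l 4))))) (l 4)))) (l 4))) (l 4)), by decide +kernel⟩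

def k127_A00pm_213_s3 : ∃ t, chk3 f_A00pm_213_s3 t 114 504 1 = true :=
  ⟨(a (c (a (b (b (a (c (l 538746895) (l 538939407)) (l 538548239)) (c (a (l 538742799) (l 538712591)) (l 538619151))) (b (a (l 4) (b (l 538540303) (l 4))) (l 4))) (b (b (a (l 538518543) (l 538422031)) (c (a (l 538682895) (l 538653455)) (l 539010575))) (b (c (a (l 538679823) (l 538650639)) (l 539010319)) (a (l 4) (c (l 538648847) (l 539022607)))))) (a (a (b (b (c (l 538654479) (l 538352655)) (c (l 538658575) (l 538360079))) (l 4)) (b (b (c (l 538682383) (l 538380559)) (c (l 538686735) (l 538387983))) (b (c (l 538689807) (l 538394127)) (l 4)))) (b (b (a (c (l 538710287) (l 538408207)) (c (l 538737679) (l 538435343))) (a (c (l 538714383) (l 538415631)) (c (l 538741775) (l 538442767)))) (b (a (c (l 538717455) (l 538421775)) (c (l 538744847) (l 538448911))) (a (l 4) (b (l 538064399) (l 4))))))) (c (c (a (a (b (b (l 538628111) (l 538624527)) (b (l 538621711) (l 538619919))) (b (b (l 538867983) (l 538864143)) (b (l 538593039) (l 538591503))))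 (b (b (a (l 538839567) (l 538811663)) (a (l 538835983) (l 538808079))) (a (b (l 538833423) (l 538831887)) (b (l 538805519) (l 538804239))))) (b (a (a (l 539052047) (l 539069199)) (c (l 539242511) (l 539049231))) (b (a (l 539064847) (l 539020559)) (a (l 539063311) (l 539016719))))) (a (b (c (b (l 538241295) (l 538245647)) (b (a (l 538461967) (l 538488591)) (a (l 538469391) (l 538496015)))) (c (b (l 538248719) (c (l 538857999) (l 538715663))) (b (a (l 538475791) (l 538502159)) (a (l 538480911) (l 538507279))))) (b (b (a (l 538131471) (l 538157327)) (a (l 538002959) (l 538163215))) (b (a (c (l 538824975) (l 538528271)) (l 538167823)) (a (b (l 538144271) (l 538145551)) (l 538037007))))))), by decide +kernel⟩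

def k128_A00pm_213_s3 : ∃ t, chk3 f_A00pm_213_s3 t 114 505 1 = true :=
  ⟨(a (l 4) (c (b (a (b (c (a (l 538485263) (l 538590991)) (l 539060751)) (l 4)) (b (c (a (l 538563087) (l 538803727)) (l 539013903)) (c (a (l 538429455) (l 538536207)) (l 538743823)))) (l 4)) (b (a (b (a (b (l 538093839) (l 4)) (b (l 538120463) (l 538121231))) (l 4)) (c (b (l 538572047) (l 538302991)) (b (a (l 538537487) (l 538563087)) (a (l 538540047) (l 538565903))))) (l 4)))), by decide +kernel⟩

def k129_A00pm_213_s3 : ∃ t, chk3 f_A00pm_213_s3 t 115 504 1 = true :=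
  ⟨(a (b (a (c (b (a (l 538347791) (l 538320655)) (a (l 538343183) (l 538316047))) (b (b (l 537924879) (l 537928207)) (b (l 537931023) (l 537933583)))) (b (c (a (l 538294031) (l 538267663)) (a (l 538232335) (l 538256655))) (c (a (l 538289423) (l 538263311)) (b (l 537980431) (l 537983247))))) (a (b (c (a (l 538205455) (l 538312719)) (b (l 537936143) (l 538072335))) (c (a (b (l 538337807) (l 538337039)) (l 538176015)) (a (l 538196751) (l 538221839)))) (b (c (a (l 538286095) (l 538259727)) (b (l 537985551) (l 537987599))) (c (a (l 538149391) (l 538257423)) (b (l 537989391) (l 537990671)))))) (c (b (a (b (b (l 537961999) (l 537959695)) (b (l 537957391) (l 537955599))) (b (a (l 538191119) (l 538166287)) (a (l 538186767) (l 538161935)))) (a (b (a (l 538233871) (l 538208527)) (a (l 538231823) (l 538206479))) (b (a (l 538183439) (l 538158863)) (a (l 538181391) (l 538156815))))) (a (b (b (l 538024207) (c (l 538983951) (l 538414095))) (b (c (l 538987023) (l 538420495)) (c (l 538989071) (l 538157327)))) (b (b (l 538070543)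 (l 538076431)) (b (l 538081295) (l 538084879)))))), by decide +kernel⟩

def k130_A00pm_213_s3 : ∃ t, chk3 f_A00pm_213_s3 t 115 505 1 = true :=
  ⟨(a (c (c (b (a (b (a (l 538508047) (l 538481167)) (a (l 538777359) (l 538482191))) (a (b (l 538723087) (l 538455567)) (b (l 538696975) (l 538697999)))) (a (b (a (l 538376719) (l 538484239)) (l 4)) (b (a (l 538457871) (l 538431759)) (a (l 4) (b (l 538703119) (l 4)))))) (a (b (b (l 538959631) (l 538958095)) (b (l 538555151) (l 4))) (b (b (l 538906895) (l 538637071)) (b (l 538368527) (a (l 4) (l 538893583)))))) (b (a (b (a (l 538064655) (l 538224143)) (a (b (l 538199311) (l 538199567)) (l 538225167))) (b (b (l 537991951) (l 537992719)) (b (l 537993231) (l 538127631)))) (a (b (a (b (l 538199311) (l 4)) (l 538090511)) (l 4)) (a (b (l 538249487) (l 4)) (b (l 538274063) (l 538138127)))))) (a (b (b (c (a (l 538096399) (l 538071055)) (c (l 538989583) (l 538161423))) (c (c (a (l 538672399) (l 538647055)) (l 538586127)) (c (l 538989071) (l 538164239)))) (c (c (b (a (l 538406159)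 (l 538649359)) (a (l 538409743) (l 538384399))) (b (l 538317583) (a (l 538868239) (l 538843151)))) (b (a (l 538297871) (l 538321679)) (a (l 538296335) (l 538319887))))) (a (c (b (b (l 538180367) (a (l 538186767) (l 538174223))) (b (b (l 538181647) (l 538182671)) (b (l 538183695) (l 538185231)))) (b (b (l 538612495) (l 538613519)) (b (l 538613263) (l 538611727)))) (c (b (b (l 538155791) (l 538021647)) (b (a (l 538163471) (l 538151183)) (b (l 538159375) (l 538160911)))) (b (b (l 538635279) (l 538636303)) (b (l 538636303) (l 538634511))))))), by decide +kernel⟩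

def k131_A00pm_213_s3 : ∃ t, chk3 f_A00pm_213_s3 t 57 253 1 = true :=
  ⟨(b (a (l 4) (a (l 4) (b (c (a (a (l 4) (b (b (l 538211855) (l 4)) (l 4))) (a (b (b (l 538187279) (l 538189327)) (l 4)) (b (b (l 538162959) (l 538165007)) (b (l 538167567) (l 4))))) (b (a (a (l 4) (l 538317071)) (a (l 538340367) (l 538363151))) (a (l 4) (a (l 4) (l 538358799))))) (l 4)))) (l 4)), by decide +kernel⟩

def k132_A00pm_213_s3 : ∃ t, chk3 f_A00pm_213_s3 t 116 504 1 = true :=
  ⟨(a (c (a (b (b (a (l 538141967) (l 538386447)) (a (l 538137615) (l 538113807))) (b (a (l 538134543) (l 538110735)) (a (l 538132495) (l 538108687)))) (b (c (b (l 538249743) (l 538246927)) (b (l 538457615) (l 538452495))) (a (b (l 538355727) (l 538085391)) (b (l 538600975) (l 538330639))))) (c (a (b (l 538727183) (b (l 538986255) (l 538980623))) (b (b (l 16781632) (l 538947087)) (b (l 538940431) (l 538934799)))) (a (a (b (l 538759695) (l 538504463)) (b (l 538781711) (l 538526223))) (a (b (l 538803215) (l 538816271)) (b (l 538824207) (l 538837263)))))) (c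 (a (b (b (c (l 16780912) (l 16781392)) (a (l 538581263) (l 538558991))) (b (b (l 538031375) (l 537761807)) (b (l 537760783) (l 537760271)))) (a (b (b (l 16778688) (l 538536975)) (b (l 538534159) (l 538532367))) (b (b (l 16781408) (l 16778432)) (b (l 538512655) (l 538511119))))) (b (a (b (l 16779520) (l 538474511)) (b (l 16779888) (l 16779424))) (a (b (l 538479119) (l 538472207)) (b (l 538705423) (l 538698511)))))), by decide +kernel⟩

def k133_A00pm_213_s3 : ∃ t, chk3 f_A00pm_213_s3 t 116 505 1 = true :=
  ⟨(a (c (c (b (a (b (a (l 538572047) (l 538547983)) (a (l 538573327) (l 538549519))) (b (a (l 538524687) (l 538501391)) (a (l 538525967) (l 538502927)))) (a (b (a (l 538575887) (l 538552079)) (a (l 538579727) (l 538555919))) (b (a (l 538528783) (l 538505743)) (a (l 538532623) (l 538509583))))) (b (a (c (b (l 538438159) (l 538437903)) (b (l 538542351) (l 538540559))) (b (l 538174735) (l 538173967))) (a (c (b (l 538438671) (l 538172175)) (b (l 538540047) (l 538809359))) (b (l 538174223) (a (l 538723855) (l 538701327))))))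 (b (a (b (l 538132239) (a (l 538658831) (l 538949391))) (b (l 538175503) (l 538176783))) (a (b (a (l 538658575) (l 538949135)) (b (l 538399759) (l 538398735))) (b (l 538176527) (a (l 538969359) (l 538990607)))))) (b (a (b (c (a (l 538039055) (l 538553615)) (l 538466319)) (c (a (l 538039311) (l 538017295)) (l 538461711))) (b (c (a (l 538531855) (l 538510351)) (l 538424335)) (c (a (l 537995535) (l 538511119)) (l 538419727)))) (c (b (a (a (l 537772559) (l 538018831)) (a (l 537997071) (l 537975823))) (a (c (a (l 538487055) (l 538465039)) (a (l 538679055) (l 538657039))) (a (b (l 538536463) (l 538538255)) (b (l 538515215) (l 538517007))))) (a (b (l 538189583) (c (l 538879247) (l 538878479))) (b (l 538281999) (a (l 538960911) (l 538940431))))))), by decide +kernel⟩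

def k134_A00pm_213_s3 : ∃ t, chk3 f_A00pm_213_s3 t 117 252 1 = true :=
  ⟨(b (a (a (b (b (c (c (l 16781280) (l 16781840)) (l 16780168)) (c (c (l 16780952) (l 16781464)) (l 16779712))) (c (b (c (l 16780632) (l 16781096)) (c (l 16780320) (l 538315023))) (b (l 538664975) (l 538658063)))) (b (b (c (l 16781728) (l 16780432)) (c (c (l 16781120) (l 16781672)) (l 16779984))) (c (b (c (l 16780808) (l 16781312)) (c (l 16780496) (l 16780952))) (b (l 16779544) (l 538350863))))) (b (b (c (c (l 16781640) (l 16782304)) (l 16780808)) (a (c (l 16778936) (l 16780240)) (c (l 16781712) (l 16783104)))) (b (a (c (c (l 16780968) (l 16781504)) (l 16779800)) (c (l 16781392) (l 16780056))) (a (c (c (l 16780664) (l 16781160)) (l 16779368)) (l 14))))) (a (b (a (c (b (a (l 538489359) (l 538468879)) (a (l 538490127) (l 538469391))) (b (l 538384143) (l 538379535))) (c (b (c (l 16780192) (l 16780600)) (a (l 538180879) (l 538161167))) (b (l 538345487) (a (l 538887439) (l 538868495))))) (c (b (a (a (l 537954831) (l 538471183)) (a (l 538182671)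 (l 14))) (a (a (b (l 538494479) (l 538496271)) (l 539011087)) (l 14))) (a (a (b (l 538922767) (l 538920463)) (b (l 538903055) (l 538900751))) (b (c (l 538758415) (l 538992911)) (l 14))))) (a (b (b (c (c (l 16780368) (l 16780808)) (l 538174223)) (l 14)) (l 14)) (l 14)))), by decide +kernel⟩

def k135_A00pm_213_s3 : ∃ t, chk3 f_A00pm_213_s3 t 116 506 1 = true :=
  ⟨(a (b (c (b (a (a (b (l 538138895) (l 538141199)) (b (l 538383887) (l 538117647))) (c (a (l 538269199) (l 538246415)) (a (l 538726671) (l 538703887)))) (b (a (a (l 538143759) (l 538120207)) (a (l 538365711) (l 538611471))) (a (a (l 538146575) (l 538123279)) (a (l 538100239) (l 538614287))))) (b (a (b (l 538397199) (l 538395407)) (a (l 538697999) (l 538719247))) (a (b (l 538393103) (l 538390543)) (b (l 538436623) (l 538434063))))) (c (a (a (l 4) (b (b (l 538126351) (l 4)) (l 4))) (a (b (b (l 538103567) (l 538107151)) (l 4)) (b (b (l 538080783) (l 538084367)) (b (l 538088463) (l 4))))) (a (a (l 4) (b (l 538397711) (l 4))) (a (b (l 538419471) (l 4)) (b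 (l 538709263) (l 538433551)))))) (b (c (c (a (b (a (l 538492431) (l 538470159)) (a (l 538230543) (l 538208527))) (b (a (l 538448655) (l 538427151)) (a (l 538723599) (l 538702351)))) (a (b (a (l 538681871) (l 538659855)) (a (l 538685711) (l 538395663))) (b (a (l 538638607) (l 538617359)) (a (l 538374159) (l 538621711))))) (c (b (a (l 538879247) (l 538837263)) (a (l 538880527) (a (l 538849039) (l 538828559)))) (c (b (a (l 538948879) (l 538989071)) (a (l 538945551) (l 538985743))) (b (a (l 538804751) (l 538844687)) (a (l 538803471) (l 538843407)))))) (c (b (b (a (a (l 538595343) (l 538573583)) (a (l 538552079) (l 14))) (a (a (l 538867471) (l 538577167)) (a (l 538555919) (l 14)))) (b (a (a (l 538066191) (l 538849807)) (l 14)) (a (a (a (l 4) (l 538601999)) (l 538854159)) (l 14)))) (c (a (a (b (l 538893839) (l 538897679)) (b (l 538872591) (l 538876431))) (a (b (l 538851599) (l 14)) (l 14))) (b (a (a (l 538860815) (l 538881295)) (a (l 538901263) (l 14))) (a (a (l 538855439) (l 538875919)) (l 14))))))), by decide +kernel⟩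

def k136_A00pm_213_s3 : ∃ t, chk3 f_A00pm_213_s3 t 116 507 1 = true :=
  ⟨(b (a (l 4) (a (a (l 4) (l 14)) (l 14))) (l 4)), by decide +kernel⟩

def k137_A00pm_213_s3 : ∃ t, chk3 f_A00pm_213_s3 t 117 253 1 = true :=
  ⟨(b (a (a (b (a (b (c (b (l 538498319) (l 538500879)) (l 538919183)) (l 14)) (l 14)) (l 14)) (l 14)) (l 14)) (l 14)), by decide +kernel⟩

def k138_A00pm_213_s3 : ∃ t, chk3 f_A00pm_213_s3 t 59 126 1 = true :=
  ⟨(b (a (b (b (b (a (c (c (l 16781880) (l 16782624)) (l 16781256)) (c (l 16782480) (l 16781672))) (l 14)) (l 14)) (l 14)) (b (b (b (b (c (a (l 16782760) (a (l 16782896) (a (l 16783024) (l 16783320)))) (a (l 16784776) (a (l 16785048) (a (c (l 16784624) (l 16785832)) (l 16785456))))) (l 14)) (l 14)) (l 14)) (l 14))) (l 14)), by decide +kernel⟩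

def k139_A00pm_213_s3 : ∃ t, chk3 f_A00pm_213_s3 t 15 126 1 = true :=
  ⟨(a (b (b (b (b (b (a (a (a (c (l 16784232) (l 16786160)) (l 16786496)) (c (l 16788128) (l 16788272))) (a (l 16787752) (c (l 16786240) (l 16786672)))) (l 14)) (l 14)) (l 14)) (l 14)) (l 14)) (b (b (b (a (a (c (l 16784344) (l 16785488)) (a (l 16794312) (l 16783552))) (c (a (l 16782768) (c (l 16782368) (l 16783104))) (a (l 16784520) (l 16784408)))) (l 14)) (l 14)) (l 14))), by decide +kernel⟩

def k140_A00pm_213_s3 : ∃ t, chk3 f_A00pm_213_s3 t 7 127 1 = true :=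
  ⟨(a (a (l 4) (a (a (l 4) (l 14)) (l 14))) (l 14)), by decide +kernel⟩

theorem t141_A00pm_213_s3 : ∃ t, chk3 f_A00pm_213_s3 t 116 253 1 = true := ex3_b k135_A00pm_213_s3 k136_A00pm_213_s3

theorem t142_A00pm_213_s3 : ∃ t, chk3 f_A00pm_213_s3 t 58 253 1 = true := ex3_a t141_A00pm_213_s3 k137_A00pm_213_s3

theorem t143_A00pm_213_s3 : ∃ t, chk3 f_A00pm_213_s3 t 116 252 1 = true := ex3_b k132_A00pm_213_s3 k133_A00pm_213_s3

theorem t144_A00pm_213_s3 : ∃ t, chk3 f_A00pm_213_s3 t 58 252 1 = true := ex3_a t143_A00pm_213_s3 k134_A00pm_213_s3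

theorem t145_A00pm_213_s3 : ∃ t, chk3 f_A00pm_213_s3 t 58 126 1 = true := ex3_b t144_A00pm_213_s3 t142_A00pm_213_s3

theorem t146_A00pm_213_s3 : ∃ t, chk3 f_A00pm_213_s3 t 29 126 1 = true := ex3_a t145_A00pm_213_s3 k138_A00pm_213_s3

theorem t147_A00pm_213_s3 : ∃ t, chk3 f_A00pm_213_s3 t 115 252 1 = true := ex3_b k129_A00pm_213_s3 k130_A00pm_213_s3

theorem t148_A00pm_213_s3 : ∃ t, chk3 f_A00pm_213_s3 t 114 252 1 = true := ex3_b k127_A00pm_213_s3 k128_A00pm_213_s3

theorem t149_A00pm_213_s3 : ∃ t, chk3 f_A00pm_213_s3 t 57 252 1 = true := ex3_a t148_A00pm_213_s3 t147_A00pm_213_s3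

theorem t150_A00pm_213_s3 : ∃ t, chk3 f_A00pm_213_s3 t 57 126 1 = true := ex3_b t149_A00pm_213_s3 k131_A00pm_213_s3

theorem t151_A00pm_213_s3 : ∃ t, chk3 f_A00pm_213_s3 t 28 126 1 = true := ex3_a k126_A00pm_213_s3 t150_A00pm_213_s3

theorem t152_A00pm_213_s3 : ∃ t, chk3 f_A00pm_213_s3 t 14 126 1 = true := ex3_a t151_A00pm_213_s3 t146_A00pm_213_s3

theorem t153_A00pm_213_s3 : ∃ t, chk3 f_A00pm_213_s3 t 7 126 1 = true := ex3_a t152_A00pm_213_s3 k139_A00pm_213_s3

theorem t154_A00pm_213_s3 : ∃ t, chk3 f_A00pm_213_s3 t 7 63 1 = true := ex3_b t153_A00pm_213_s3 k140_A00pm_213_s3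

theorem t155_A00pm_213_s3 : ∃ t, chk3 f_A00pm_213_s3 t 15 62 1 = true := ex3_a k124_A00pm_213_s3 k125_A00pm_213_s3

theorem t156_A00pm_213_s3 : ∃ t, chk3 f_A00pm_213_s3 t 59 125 1 = true := ex3_b k122_A00pm_213_s3 k123_A00pm_213_s3

theorem t157_A00pm_213_s3 : ∃ t, chk3 f_A00pm_213_s3 t 58 251 1 = true := ex3_a k120_A00pm_213_s3 k121_A00pm_213_s3

theorem t158_A00pm_213_s3 : ∃ t, chk3 f_A00pm_213_s3 t 58 250 7 = true := ex3_c k118_A00pm_213_s3 k119_A00pm_213_s3

theorem t159_A00pm_213_s3 : ∃ t, chk3 f_A00pm_213_s3 t 58 250 3 = true := ex3_c k117_A00pm_213_s3 t158_A00pm_213_s3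

theorem t160_A00pm_213_s3 : ∃ t, chk3 f_A00pm_213_s3 t 58 250 1 = true := ex3_c k116_A00pm_213_s3 t159_A00pm_213_s3

theorem t161_A00pm_213_s3 : ∃ t, chk3 f_A00pm_213_s3 t 58 125 1 = true := ex3_b t160_A00pm_213_s3 t157_A00pm_213_s3

theorem t162_A00pm_213_s3 : ∃ t, chk3 f_A00pm_213_s3 t 29 125 1 = true := ex3_a t161_A00pm_213_s3 t156_A00pm_213_s3

theorem t163_A00pm_213_s3 : ∃ t, chk3 f_A00pm_213_s3 t 114 251 1 = true := ex3_b k113_A00pm_213_s3 k114_A00pm_213_s3

theorem t164_A00pm_213_s3 : ∃ t, chk3 f_A00pm_213_s3 t 57 251 1 = true := ex3_a t163_A00pm_213_s3 k115_A00pm_213_s3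

theorem t165_A00pm_213_s3 : ∃ t, chk3 f_A00pm_213_s3 t 114 250 1 = true := ex3_b k110_A00pm_213_s3 k111_A00pm_213_s3

theorem t166_A00pm_213_s3 : ∃ t, chk3 f_A00pm_213_s3 t 57 250 1 = true := ex3_a t165_A00pm_213_s3 k112_A00pm_213_s3

theorem t167_A00pm_213_s3 : ∃ t, chk3 f_A00pm_213_s3 t 57 125 1 = true := ex3_b t166_A00pm_213_s3 t164_A00pm_213_s3

theorem t168_A00pm_213_s3 : ∃ t, chk3 f_A00pm_213_s3 t 227 503 1 = true := ex3_c k108_A00pm_213_s3 k109_A00pm_213_s3

theorem t169_A00pm_213_s3 : ∃ t, chk3 f_A00pm_213_s3 t 226 503 1 = true := ex3_c k106_A00pm_213_s3 k107_A00pm_213_s3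

theorem t170_A00pm_213_s3 : ∃ t, chk3 f_A00pm_213_s3 t 113 503 1 = true := ex3_a t169_A00pm_213_s3 t168_A00pm_213_s3

theorem t171_A00pm_213_s3 : ∃ t, chk3 f_A00pm_213_s3 t 226 502 1 = true := ex3_b k103_A00pm_213_s3 k104_A00pm_213_s3

theorem t172_A00pm_213_s3 : ∃ t, chk3 f_A00pm_213_s3 t 113 502 1 = true := ex3_a t171_A00pm_213_s3 k105_A00pm_213_s3

theorem t173_A00pm_213_s3 : ∃ t, chk3 f_A00pm_213_s3 t 113 251 1 = true := ex3_b t172_A00pm_213_s3 t170_A00pm_213_s3

theorem t174_A00pm_213_s3 : ∃ t, chk3 f_A00pm_213_s3 t 225 1005 1 = true := ex3_a k100_A00pm_213_s3 k101_A00pm_213_s3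

theorem t175_A00pm_213_s3 : ∃ t, chk3 f_A00pm_213_s3 t 225 502 1 = true := ex3_b k99_A00pm_213_s3 t174_A00pm_213_s3

theorem t176_A00pm_213_s3 : ∃ t, chk3 f_A00pm_213_s3 t 112 502 1 = true := ex3_a k98_A00pm_213_s3 t175_A00pm_213_s3

theorem t177_A00pm_213_s3 : ∃ t, chk3 f_A00pm_213_s3 t 112 251 1 = true := ex3_b t176_A00pm_213_s3 k102_A00pm_213_s3

theorem t178_A00pm_213_s3 : ∃ t, chk3 f_A00pm_213_s3 t 56 251 1 = true := ex3_a t177_A00pm_213_s3 t173_A00pm_213_s3

theorem t179_A00pm_213_s3 : ∃ t, chk3 f_A00pm_213_s3 t 113 501 1 = true := ex3_a k96_A00pm_213_s3 k97_A00pm_213_s3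

theorem t180_A00pm_213_s3 : ∃ t, chk3 f_A00pm_213_s3 t 113 500 1 = true := ex3_a k94_A00pm_213_s3 k95_A00pm_213_s3

theorem t181_A00pm_213_s3 : ∃ t, chk3 f_A00pm_213_s3 t 113 250 1 = true := ex3_b t180_A00pm_213_s3 t179_A00pm_213_s3

theorem t182_A00pm_213_s3 : ∃ t, chk3 f_A00pm_213_s3 t 112 250 1 = true := ex3_b k92_A00pm_213_s3 k93_A00pm_213_s3

theorem t183_A00pm_213_s3 : ∃ t, chk3 f_A00pm_213_s3 t 56 250 1 = true := ex3_a t182_A00pm_213_s3 t181_A00pm_213_s3

theorem t184_A00pm_213_s3 : ∃ t, chk3 f_A00pm_213_s3 t 56 125 1 = true := ex3_b t183_A00pm_213_s3 t178_A00pm_213_s3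

theorem t185_A00pm_213_s3 : ∃ t, chk3 f_A00pm_213_s3 t 28 125 1 = true := ex3_a t184_A00pm_213_s3 t167_A00pm_213_s3

theorem t186_A00pm_213_s3 : ∃ t, chk3 f_A00pm_213_s3 t 14 125 1 = true := ex3_a t185_A00pm_213_s3 t162_A00pm_213_s3

theorem t187_A00pm_213_s3 : ∃ t, chk3 f_A00pm_213_s3 t 29 124 1 = true := ex3_a k90_A00pm_213_s3 k91_A00pm_213_s3

theorem t188_A00pm_213_s3 : ∃ t, chk3 f_A00pm_213_s3 t 114 124 1 = true := ex3_b k87_A00pm_213_s3 k88_A00pm_213_s3

theorem t189_A00pm_213_s3 : ∃ t, chk3 f_A00pm_213_s3 t 57 124 1 = true := ex3_a t188_A00pm_213_s3 k89_A00pm_213_s3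

theorem t190_A00pm_213_s3 : ∃ t, chk3 f_A00pm_213_s3 t 113 249 1 = true := ex3_a k85_A00pm_213_s3 k86_A00pm_213_s3

theorem t191_A00pm_213_s3 : ∃ t, chk3 f_A00pm_213_s3 t 113 124 1 = true := ex3_b k84_A00pm_213_s3 t190_A00pm_213_s3

theorem t192_A00pm_213_s3 : ∃ t, chk3 f_A00pm_213_s3 t 112 124 1 = true := ex3_b k82_A00pm_213_s3 k83_A00pm_213_s3

theorem t193_A00pm_213_s3 : ∃ t, chk3 f_A00pm_213_s3 t 56 124 1 = true := ex3_a t192_A00pm_213_s3 t191_A00pm_213_s3

theorem t194_A00pm_213_s3 : ∃ t, chk3 f_A00pm_213_s3 t 28 124 1 = true := ex3_a t193_A00pm_213_s3 t189_A00pm_213_s3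

theorem t195_A00pm_213_s3 : ∃ t, chk3 f_A00pm_213_s3 t 14 124 1 = true := ex3_a t194_A00pm_213_s3 t187_A00pm_213_s3

theorem t196_A00pm_213_s3 : ∃ t, chk3 f_A00pm_213_s3 t 14 62 1 = true := ex3_b t195_A00pm_213_s3 t186_A00pm_213_s3

theorem t197_A00pm_213_s3 : ∃ t, chk3 f_A00pm_213_s3 t 7 62 1 = true := ex3_a t196_A00pm_213_s3 t155_A00pm_213_s3

theorem t198_A00pm_213_s3 : ∃ t, chk3 f_A00pm_213_s3 t 7 31 1 = true := ex3_b t197_A00pm_213_s3 t154_A00pm_213_s3

theorem t199_A00pm_213_s3 : ∃ t, chk3 f_A00pm_213_s3 t 27 62 1 = true := ex3_b k79_A00pm_213_s3 k80_A00pm_213_s3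

theorem t200_A00pm_213_s3 : ∃ t, chk3 f_A00pm_213_s3 t 13 62 1 = true := ex3_a k78_A00pm_213_s3 t199_A00pm_213_s3

theorem t201_A00pm_213_s3 : ∃ t, chk3 f_A00pm_213_s3 t 13 31 1 = true := ex3_b t200_A00pm_213_s3 k81_A00pm_213_s3

theorem t202_A00pm_213_s3 : ∃ t, chk3 f_A00pm_213_s3 t 6 31 1 = true := ex3_a k77_A00pm_213_s3 t201_A00pm_213_s3

theorem t203_A00pm_213_s3 : ∃ t, chk3 f_A00pm_213_s3 t 3 31 1 = true := ex3_a t202_A00pm_213_s3 t198_A00pm_213_s3

theorem t204_A00pm_213_s3 : ∃ t, chk3 f_A00pm_213_s3 t 28 247 6 = true := ex3_b k72_A00pm_213_s3 k73_A00pm_213_s3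

theorem t205_A00pm_213_s3 : ∃ t, chk3 f_A00pm_213_s3 t 28 247 3 = true := ex3_c t204_A00pm_213_s3 k74_A00pm_213_s3

theorem t206_A00pm_213_s3 : ∃ t, chk3 f_A00pm_213_s3 t 28 989 11 = true := ex3_c k69_A00pm_213_s3 k70_A00pm_213_s3

theorem t207_A00pm_213_s3 : ∃ t, chk3 f_A00pm_213_s3 t 28 494 11 = true := ex3_b k68_A00pm_213_s3 t206_A00pm_213_s3

theorem t208_A00pm_213_s3 : ∃ t, chk3 f_A00pm_213_s3 t 28 989 20 = true := ex3_b k65_A00pm_213_s3 k66_A00pm_213_s3

theorem t209_A00pm_213_s3 : ∃ t, chk3 f_A00pm_213_s3 t 28 989 10 = true := ex3_c t208_A00pm_213_s3 k67_A00pm_213_s3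

theorem t210_A00pm_213_s3 : ∃ t, chk3 f_A00pm_213_s3 t 28 988 10 = true := ex3_c k63_A00pm_213_s3 k64_A00pm_213_s3

theorem t211_A00pm_213_s3 : ∃ t, chk3 f_A00pm_213_s3 t 28 494 10 = true := ex3_b t210_A00pm_213_s3 t209_A00pm_213_s3

theorem t212_A00pm_213_s3 : ∃ t, chk3 f_A00pm_213_s3 t 28 494 5 = true := ex3_c t211_A00pm_213_s3 t207_A00pm_213_s3

theorem t213_A00pm_213_s3 : ∃ t, chk3 f_A00pm_213_s3 t 28 1979 9 = true := ex3_c k61_A00pm_213_s3 k62_A00pm_213_s3

theorem t214_A00pm_213_s3 : ∃ t, chk3 f_A00pm_213_s3 t 28 989 9 = true := ex3_b k60_A00pm_213_s3 t213_A00pm_213_s3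

theorem t215_A00pm_213_s3 : ∃ t, chk3 f_A00pm_213_s3 t 28 1978 8 = true := ex3_c k57_A00pm_213_s3 k58_A00pm_213_s3

theorem t216_A00pm_213_s3 : ∃ t, chk3 f_A00pm_213_s3 t 28 989 8 = true := ex3_b t215_A00pm_213_s3 k59_A00pm_213_s3

theorem t217_A00pm_213_s3 : ∃ t, chk3 f_A00pm_213_s3 t 28 989 4 = true := ex3_c t216_A00pm_213_s3 t214_A00pm_213_s3

theorem t218_A00pm_213_s3 : ∃ t, chk3 f_A00pm_213_s3 t 28 494 4 = true := ex3_b k56_A00pm_213_s3 t217_A00pm_213_s3

theorem t219_A00pm_213_s3 : ∃ t, chk3 f_A00pm_213_s3 t 28 494 2 = true := ex3_c t218_A00pm_213_s3 t212_A00pm_213_s3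

theorem t220_A00pm_213_s3 : ∃ t, chk3 f_A00pm_213_s3 t 28 247 2 = true := ex3_b t219_A00pm_213_s3 k71_A00pm_213_s3

theorem t221_A00pm_213_s3 : ∃ t, chk3 f_A00pm_213_s3 t 28 247 1 = true := ex3_c t220_A00pm_213_s3 t205_A00pm_213_s3

theorem t222_A00pm_213_s3 : ∃ t, chk3 f_A00pm_213_s3 t 28 987 8 = true := ex3_b k51_A00pm_213_s3 k52_A00pm_213_s3

theorem t223_A00pm_213_s3 : ∃ t, chk3 f_A00pm_213_s3 t 28 493 8 = true := ex3_b k50_A00pm_213_s3 t222_A00pm_213_s3

theorem t224_A00pm_213_s3 : ∃ t, chk3 f_A00pm_213_s3 t 28 493 4 = true := ex3_c t223_A00pm_213_s3 k53_A00pm_213_s3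

theorem t225_A00pm_213_s3 : ∃ t, chk3 f_A00pm_213_s3 t 28 246 4 = true := ex3_b k49_A00pm_213_s3 t224_A00pm_213_s3

theorem t226_A00pm_213_s3 : ∃ t, chk3 f_A00pm_213_s3 t 28 246 2 = true := ex3_c t225_A00pm_213_s3 k54_A00pm_213_s3

theorem t227_A00pm_213_s3 : ∃ t, chk3 f_A00pm_213_s3 t 28 246 1 = true := ex3_c t226_A00pm_213_s3 k55_A00pm_213_s3

theorem t228_A00pm_213_s3 : ∃ t, chk3 f_A00pm_213_s3 t 28 123 1 = true := ex3_b t227_A00pm_213_s3 t221_A00pm_213_s3

theorem t229_A00pm_213_s3 : ∃ t, chk3 f_A00pm_213_s3 t 28 61 1 = true := ex3_b k48_A00pm_213_s3 t228_A00pm_213_s3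

theorem t230_A00pm_213_s3 : ∃ t, chk3 f_A00pm_213_s3 t 14 61 1 = true := ex3_a t229_A00pm_213_s3 k75_A00pm_213_s3

theorem t231_A00pm_213_s3 : ∃ t, chk3 f_A00pm_213_s3 t 14 30 1 = true := ex3_b k47_A00pm_213_s3 t230_A00pm_213_s3

theorem t232_A00pm_213_s3 : ∃ t, chk3 f_A00pm_213_s3 t 7 30 1 = true := ex3_a t231_A00pm_213_s3 k76_A00pm_213_s3

theorem t233_A00pm_213_s3 : ∃ t, chk3 f_A00pm_213_s3 t 13 30 1 = true := ex3_a k45_A00pm_213_s3 k46_A00pm_213_s3

theorem t234_A00pm_213_s3 : ∃ t, chk3 f_A00pm_213_s3 t 100 120 1 = true := ex3_c k39_A00pm_213_s3 k40_A00pm_213_s3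

theorem t235_A00pm_213_s3 : ∃ t, chk3 f_A00pm_213_s3 t 50 120 1 = true := ex3_a t234_A00pm_213_s3 k41_A00pm_213_s3

theorem t236_A00pm_213_s3 : ∃ t, chk3 f_A00pm_213_s3 t 50 60 1 = true := ex3_b t235_A00pm_213_s3 k42_A00pm_213_s3

theorem t237_A00pm_213_s3 : ∃ t, chk3 f_A00pm_213_s3 t 25 60 1 = true := ex3_a t236_A00pm_213_s3 k43_A00pm_213_s3

theorem t238_A00pm_213_s3 : ∃ t, chk3 f_A00pm_213_s3 t 49 120 1 = true := ex3_c k36_A00pm_213_s3 k37_A00pm_213_s3

theorem t239_A00pm_213_s3 : ∃ t, chk3 f_A00pm_213_s3 t 49 60 1 = true := ex3_b t238_A00pm_213_s3 k38_A00pm_213_s3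

theorem t240_A00pm_213_s3 : ∃ t, chk3 f_A00pm_213_s3 t 24 60 1 = true := ex3_a k35_A00pm_213_s3 t239_A00pm_213_s3

theorem t241_A00pm_213_s3 : ∃ t, chk3 f_A00pm_213_s3 t 12 60 1 = true := ex3_a t240_A00pm_213_s3 t237_A00pm_213_s3

theorem t242_A00pm_213_s3 : ∃ t, chk3 f_A00pm_213_s3 t 12 30 1 = true := ex3_b t241_A00pm_213_s3 k44_A00pm_213_s3

theorem t243_A00pm_213_s3 : ∃ t, chk3 f_A00pm_213_s3 t 6 30 1 = true := ex3_a t242_A00pm_213_s3 t233_A00pm_213_s3

theorem t244_A00pm_213_s3 : ∃ t, chk3 f_A00pm_213_s3 t 3 30 1 = true := ex3_a t243_A00pm_213_s3 t232_A00pm_213_s3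

theorem t245_A00pm_213_s3 : ∃ t, chk3 f_A00pm_213_s3 t 3 15 1 = true := ex3_b t244_A00pm_213_s3 t203_A00pm_213_s3

theorem t246_A00pm_213_s3 : ∃ t, chk3 f_A00pm_213_s3 t 15 14 1 = true := ex3_b k33_A00pm_213_s3 k34_A00pm_213_s3

theorem t247_A00pm_213_s3 : ∃ t, chk3 f_A00pm_213_s3 t 14 14 1 = true := ex3_b k31_A00pm_213_s3 k32_A00pm_213_s3

theorem t248_A00pm_213_s3 : ∃ t, chk3 f_A00pm_213_s3 t 7 14 1 = true := ex3_a t247_A00pm_213_s3 t246_A00pm_213_s3

theorem t249_A00pm_213_s3 : ∃ t, chk3 f_A00pm_213_s3 t 49 59 1 = true := ex3_b k27_A00pm_213_s3 k28_A00pm_213_s3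

theorem t250_A00pm_213_s3 : ∃ t, chk3 f_A00pm_213_s3 t 48 59 1 = true := ex3_b k25_A00pm_213_s3 k26_A00pm_213_s3

theorem t251_A00pm_213_s3 : ∃ t, chk3 f_A00pm_213_s3 t 24 59 1 = true := ex3_a t250_A00pm_213_s3 t249_A00pm_213_s3

theorem t252_A00pm_213_s3 : ∃ t, chk3 f_A00pm_213_s3 t 12 59 1 = true := ex3_a t251_A00pm_213_s3 k29_A00pm_213_s3

theorem t253_A00pm_213_s3 : ∃ t, chk3 f_A00pm_213_s3 t 6 59 1 = true := ex3_a t252_A00pm_213_s3 k30_A00pm_213_s3

theorem t254_A00pm_213_s3 : ∃ t, chk3 f_A00pm_213_s3 t 6 29 1 = true := ex3_b k24_A00pm_213_s3 t253_A00pm_213_s3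

theorem t255_A00pm_213_s3 : ∃ t, chk3 f_A00pm_213_s3 t 6 14 1 = true := ex3_b k23_A00pm_213_s3 t254_A00pm_213_s3

theorem t256_A00pm_213_s3 : ∃ t, chk3 f_A00pm_213_s3 t 3 14 1 = true := ex3_a t255_A00pm_213_s3 t248_A00pm_213_s3

theorem t257_A00pm_213_s3 : ∃ t, chk3 f_A00pm_213_s3 t 3 7 1 = true := ex3_b t256_A00pm_213_s3 t245_A00pm_213_s3

theorem t258_A00pm_213_s3 : ∃ t, chk3 f_A00pm_213_s3 t 3 6 1 = true := ex3_a k21_A00pm_213_s3 k22_A00pm_213_s3

theorem t259_A00pm_213_s3 : ∃ t, chk3 f_A00pm_213_s3 t 3 3 1 = true := ex3_b t258_A00pm_213_s3 t257_A00pm_213_s3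

theorem t260_A00pm_213_s3 : ∃ t, chk3 f_A00pm_213_s3 t 3 1 1 = true := ex3_b k20_A00pm_213_s3 t259_A00pm_213_s3

theorem t261_A00pm_213_s3 : ∃ t, chk3 f_A00pm_213_s3 t 23 117 1 = true := ex3_a k16_A00pm_213_s3 k17_A00pm_213_s3

theorem t262_A00pm_213_s3 : ∃ t, chk3 f_A00pm_213_s3 t 46 116 3 = true := ex3_b k13_A00pm_213_s3 k14_A00pm_213_s3

theorem t263_A00pm_213_s3 : ∃ t, chk3 f_A00pm_213_s3 t 46 116 2 = true := ex3_b k11_A00pm_213_s3 k12_A00pm_213_s3

theorem t264_A00pm_213_s3 : ∃ t, chk3 f_A00pm_213_s3 t 46 116 1 = true := ex3_c t263_A00pm_213_s3 t262_A00pm_213_s3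

theorem t265_A00pm_213_s3 : ∃ t, chk3 f_A00pm_213_s3 t 23 116 1 = true := ex3_a t264_A00pm_213_s3 k15_A00pm_213_s3

theorem t266_A00pm_213_s3 : ∃ t, chk3 f_A00pm_213_s3 t 23 58 1 = true := ex3_b t265_A00pm_213_s3 t261_A00pm_213_s3

theorem t267_A00pm_213_s3 : ∃ t, chk3 f_A00pm_213_s3 t 11 58 1 = true := ex3_a k10_A00pm_213_s3 t266_A00pm_213_s3

theorem t268_A00pm_213_s3 : ∃ t, chk3 f_A00pm_213_s3 t 11 29 1 = true := ex3_b t267_A00pm_213_s3 k18_A00pm_213_s3

theorem t269_A00pm_213_s3 : ∃ t, chk3 f_A00pm_213_s3 t 23 28 1 = true := ex3_b k8_A00pm_213_s3 k9_A00pm_213_s3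

theorem t270_A00pm_213_s3 : ∃ t, chk3 f_A00pm_213_s3 t 11 28 1 = true := ex3_a k7_A00pm_213_s3 t269_A00pm_213_s3

theorem t271_A00pm_213_s3 : ∃ t, chk3 f_A00pm_213_s3 t 11 14 1 = true := ex3_b t270_A00pm_213_s3 t268_A00pm_213_s3

theorem t272_A00pm_213_s3 : ∃ t, chk3 f_A00pm_213_s3 t 5 14 1 = true := ex3_a k6_A00pm_213_s3 t271_A00pm_213_s3

theorem t273_A00pm_213_s3 : ∃ t, chk3 f_A00pm_213_s3 t 2 14 1 = true := ex3_a k5_A00pm_213_s3 t272_A00pm_213_s3

theorem t274_A00pm_213_s3 : ∃ t, chk3 f_A00pm_213_s3 t 2 7 1 = true := ex3_b t273_A00pm_213_s3 k19_A00pm_213_s3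

theorem t275_A00pm_213_s3 : ∃ t, chk3 f_A00pm_213_s3 t 5 6 1 = true := ex3_b k3_A00pm_213_s3 k4_A00pm_213_s3

theorem t276_A00pm_213_s3 : ∃ t, chk3 f_A00pm_213_s3 t 4 6 1 = true := ex3_b k1_A00pm_213_s3 k2_A00pm_213_s3

theorem t277_A00pm_213_s3 : ∃ t, chk3 f_A00pm_213_s3 t 2 6 1 = true := ex3_a t276_A00pm_213_s3 t275_A00pm_213_s3

theorem t278_A00pm_213_s3 : ∃ t, chk3 f_A00pm_213_s3 t 2 3 1 = true := ex3_b t277_A00pm_213_s3 t274_A00pm_213_s3

theorem t279_A00pm_213_s3 : ∃ t, chk3 f_A00pm_213_s3 t 2 1 1 = true := ex3_b k0_A00pm_213_s3 t278_A00pm_213_s3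

theorem t280_A00pm_213_s3 : ∃ t, chk3 f_A00pm_213_s3 t 1 1 1 = true := ex3_a t279_A00pm_213_s3 t260_A00pm_213_s3

theorem c_A00pm_213_s3 : CertF 0 536870912 536870912 536870912 740881858 40050571 true true false .pnn 2 1 3
    ndB0q2 ndB0q1 pcB3 cut_A00pm_213_s3 xt_A00pm_213_s3 :=
  certF1 (fam := true) (s1 := true) (s2 := false) (a := 2) (b := 1) (c := 3) (cn := .pnn) (n1 := ndB0q2) (n2 := ndB0q1) (pc := pcB3) (cut := cut_A00pm_213_s3) (xt := xt_A00pm_213_s3) (P1 := 0) (W1 := 536870912) (P2 := 536870912) (W2 := 536870912) (P3 := 740881858) (W3 := 40050571)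
    rfl (fun _ => rfl) t280_A00pm_213_s3

theorem s_A00pm_213_s3 {κ x : ℝ} (hκ : κ * h0 = ken x) (hx : ((740881858 : ℕ) : ℝ) / S ≤ x)
    (hx' : x ≤ (((740881858 : ℕ) : ℝ) + (40050571 : ℕ)) / S)
    (H : CutA (VFD κ) PP tK tL pcB (Cut.of [[⟨0, 1, 0, 67108864⟩, ⟨1, 1, 0, 67108864⟩, ⟨2, 2, 0, 16777216⟩], [⟨0, 1, 0, 33554432⟩, ⟨1, 0, 1, 20971520⟩, ⟨2, 1, 1, 20971520⟩]]) 2 1 3 0 0 (sgb true) (sgb false) x) :
    AltA (VFD κ) PP tK tL pcB [⟨4, 0, 0, 2845415833⟩] 2 1 3 0 0 (sgb true) (sgb false) x :=
  strip_altAD (m := 2845415833) false rfl hκ (SH.κ0 hκ (SH.hx1 hx).le (SH.hx2 hx').le) (SH.hx1 hx).le (SH.hx2 hx') (covB02).cov (covB01).cov hx hx' c_A00pm_213_s3 H ((okx hx hx').extA (T := tt) (sideB hx hx') hκ rfl rfl (.O 2 true) (.O 1 false) (Or.inr rfl))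

end Pool.Agent.Strip051.G.I69_7273.Tab.St.C
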