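import Pool.Agent.Strip051.G.I69_7273.StH
import Pool.Agent.Strip051.G.I69_7273.StF

/-! # Unit strips 9 (generated) -/

set_option linter.all false
set_option maxRecDepth 100000

namespace Pool.Agent.Strip051.G.I69_7273.Tab.St.C

open Pool.Agent.Strip051.PB Pool.Agent.Strip051.PB.T Pool.Agent.StripNear Pool.Agent.Strip051.LC
open Pool.Agent.Strip051.G.I69_7273.Tab Pool.Agent.Strip051.G.I69_7273.Tab.St

noncomputable def cut_A00mm_202_s3 : Cut := Cut.of [[⟨3, 0, 0, 2845415833⟩], [⟨0, 1, 0, 67108864⟩, ⟨1, 0, 0, 67108864⟩, ⟨2, 1, 0, 67108864⟩]]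

noncomputable def xt_A00mm_202_s3 : Ext := strExt dd true false false .u2 .u0m .s2m .pp 2 0 2 rfl rfl gl2 vv ndB0q2 ndB0q0

noncomputable def f_A00mm_202_s3 : ℕ → ℕ → ℕ → ℕ → Bool := onCell 0 536870912 0 536870912 740881858 40050571
    (rowF 0 true false false .pp 2 0 2 (qsf 0 536870912 0 536870912 2) ndB0q2 ndB0q0 pcB2 cut_A00mm_202_s3 xt_A00mm_202_s3)

def k0_A00mm_202_s3 : ∃ t, chk3 f_A00mm_202_s3 t 2 4 1 = true :=
  ⟨(a (l 6) (b (l 6) (a (l 6) (a (l 6) (a (b (l 6) (c (b (l 16577696) (l 16586032)) (b (a (l 6) (l 16572256)) (l 16578248)))) (b (a (l 6) (b (l 6) (c (l 16585856) (l 16579120)))) (b (c (l 16590912) (c (l 16543224) (l 16601400))) (c (l 16599112) (a (l 16588496) (l 16595536)))))))))), by decide +kernel⟩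

def k1_A00mm_202_s3 : ∃ t, chk3 f_A00mm_202_s3 t 2 5 1 = true :=
  ⟨(a (b (l 6) (a (l 6) (b (l 6) (a (l 6) (l 16609912))))) (b (a (b (l 6) (a (l 6) (b (l 16668304) (l 16600304)))) (a (b (b (a (l 6) (l 16623320)) (a (l 16584336) (l 16638016))) (b (a (l 16600640) (l 16654296)) (a (l 16616696) (l 16670384)))) (c (b (b (a (l 16597048) (b (l 16607056) (l 16613264))) (a (l 16611056) (a (l 16620656) (l 16627312)))) (a (b (l 16668568) (l 16684024)) (b (b (l 16635552) (l 16643296)) (b (l 16651032) (l 16658680))))) (b (b (a (l 16590360) (b (l 16600752) (l 16607528))) (a (l 16647600) (b (l 16615152) (l 16623392)))) (a (b (l 16664504) (l 16681136)) (b (b (l 16631736) (l 16640088)) (c (l 16695160) (l 16693720)))))))) (a (b (a (b (l 16595136) (l 16608824)) (b (l 16615376) (l 16629352))) (b (a (l 16622080) (l 16642912)) (a (l 16635624) (l 16740536)))) (a (b (b (a (l 16631936) (l 16685680)) (a (l 16646080) (l 16699888))) (a (b (l 16659792) (l 16673656)) (b (l 16713672) (l 16727584)))) (c (b (a (b (l 16698952) (l 16712912)) (b (b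 (l 16666144) (l 16673384)) (b (l 16680360) (l 16687176)))) (a (b (l 16726576) (l 16740448)) (b (b (l 16694032) (l 16700936)) (b (l 16728864) (l 16735856))))) (b (a (b (l 16696992) (l 16711552)) (b (c (l 16710752) (l 16709848)) (b (l 16679408) (l 16686440)))) (a (b (l 16725568) (l 16739664)) (b (a (l 16693544) (l 16721432)) (b (l 16728552) (l 16735624)))))))))), by decide +kernel⟩

def k2_A00mm_202_s3 : ∃ t, chk3 f_A00mm_202_s3 t 12 16 1 = true :=
  ⟨(a (l 6) (b (a (l 6) (a (l 6) (a (l 6) (b (l 6) (b (l 6) (c (l 16579192) (l 16568952))))))) (a (l 6) (c (c (b (l 16580752) (a (l 16578712) (l 16586848))) (b (a (l 6) (l 16583824)) (l 16587248))) (b (a (l 6) (c (a (l 16577424) (l 16559080)) (l 16583552))) (a (a (l 533021711) (l 532993807)) (c (l 16589376) (a (l 16561456) (l 16564304))))))))), by decide +kernel⟩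

def k3_A00mm_202_s3 : ∃ t, chk3 f_A00mm_202_s3 t 52 16 1 = true :=
  ⟨(b (c (b (a (b (l 6) (c (l 16573736) (l 16569216))) (b (c (l 16572848) (l 16568536)) (c (l 16578712) (l 16574464)))) (c (a (l 16582240) (b (l 16584432) (l 16590016))) (b (a (l 16575000) (l 16580256)) (a (l 16580640) (l 16585920))))) (a (a (b (l 6) (c (l 16571560) (l 16566048))) (b (b (l 6) (l 16573424)) (b (l 16568800) (l 16574544)))) (b (c (b (l 16563808) (l 16569784)) (b (c (l 16559984) (l 16557304)) (l 16564664))) (c (b (l 16575632) (l 16581360)) (b (l 16570560) (l 16576328)))))) (c (b (c (a (l 16592864) (l 16598152)) (b (l 16588816) (l 16594224))) (c (b (l 16598664) (l 16599920)) (a (l 16599120) (l 16604768)))) (b (c (b (a (l 16581360) (l 16586968)) (a (l 16586832) (l 16592448))) (a (b (l 16576024) (l 16581560)) (b (l 16581992) (l 16587536)))) (b (c (c (l 16596184) (l 16593800)) (a (l 16586984) (l 16592976))) (c (l 16600240) (a (l 16592272) (l 16598296))))))), by decide +kernel⟩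

def k4_A00mm_202_s3 : ∃ t, chk3 f_A00mm_202_s3 t 53 16 1 = true :=
  ⟨(b (c (a (b (b (c (l 16578088) (l 16574048)) (c (l 16583960) (l 16579984))) (c (a (l 16570192) (l 16572896)) (b (l 16585792) (l 16591472)))) (b (b (c (l 16583536) (l 16579752)) (c (l 16589424) (l 16585696))) (c (b (l 16595184) (l 16600808)) (b (l 16591520) (l 16597216))))) (b (c (b (a (l 16569632) (l 16586120)) (a (l 16575616) (l 16581624))) (b (a (c (l 16566080) (l 16563592)) (c (l 16572336) (l 16570024))) (a (c (l 16572088) (l 16569608)) (c (l 16578344) (l 16576048))))) (c (a (b (l 16581472) (l 16587208)) (b (l 16587496) (l 16593240))) (b (a (l 16576752) (l 16583112)) (a (l 16582536) (l 16588896)))))) (a (c (b (c (l 16603480) (b (l 16597024) (l 16602456))) (c (l 16611824) (l 16610392))) (b (b (c (l 16592832) (l 16588200)) (a (l 16605032) (l 16608112))) (b (a (l 532905231) (l 532873743)) (a (l 16584296) (l 532771599))))) (c (b (c (l 16598528) (a (l 16583096) (l 533282831))) (c (l 16619512) (l 16616192))) (b (b (c (l 16598872) (l 16594576)) (a (l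 16611232) (l 16614344))) (c (a (l 533036559) (l 533270799)) (b (l 16605600) (l 16610952))))))), by decide +kernel⟩

def k5_A00mm_202_s3 : ∃ t, chk3 f_A00mm_202_s3 t 27 32 1 = true :=
  ⟨(b (c (a (c (b (a (l 16589040) (l 16594592)) (a (l 16594944) (l 16600528))) (b (a (l 16585488) (l 16591256)) (a (l 16591448) (l 16597240)))) (a (b (c (l 16600248) (l 16597104)) (c (l 16606200) (l 16603104))) (b (c (l 16606040) (c (l 16603824) (l 16602296))) (c (l 16612016) (l 16609096))))) (a (c (b (a (c (l 16582632) (l 16580640)) (c (l 16588584) (l 16586728))) (a (l 16587648) (l 16598928))) (b (a (c (l 16578576) (l 16576432)) (c (l 16584800) (b (l 16581288) (l 16584336)))) (a (c (l 16584600) (l 16582464)) (c (l 16590840) (l 16588864))))) (c (a (b (c (l 16594600) (l 16592856)) (c (l 16600632) (l 16598904))) (b (c (l 16600712) (l 16599088)) (c (l 16606768) (l 16605152)))) (a (b (c (l 16596312) (b (l 16587680) (l 16590744))) (c (l 16597120) (l 16595280))) (b (c (b (l 16595872) (l 16598936)) (b (l 16594144) (l 16597216))) (c (l 16603488)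 (l 16604400))))))) (a (c (b (a (c (l 16600720) (l 16597288)) (c (l 16606328) (l 16603096))) (a (c (l 16606368) (l 16603000)) (c (l 16612000) (l 16608832)))) (c (b (a (l 16593528) (l 16599584)) (a (l 16599296) (l 16605368))) (b (a (c (l 16590504) (l 16588384)) (c (l 16596768) (l 16594800))) (a (l 16595256) (l 16606848))))) (c (c (b (a (l 16612032) (l 16617872)) (a (l 16617736) (l 16623608))) (a (b (l 16608984) (l 16614744)) (b (l 16615000) (l 16620784)))) (c (b (a (l 16605696) (l 16611912)) (a (l 16611496) (l 16617736))) (b (a (c (l 16603064) (l 16601240)) (c (l 16609456) (l 16607752))) (a (c (l 16608896) (l 16607080)) (c (l 16615312) (l 16613624)))))))), by decide +kernel⟩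

def k6_A00mm_202_s3 : ∃ t, chk3 f_A00mm_202_s3 t 27 33 1 = true :=
  ⟨(a (c (a (b (b (b (l 16608904) (l 16590680)) (a (l 16593304) (l 16596176))) (c (l 16625168) (c (l 16622864) (l 16600240)))) (b (c (b (l 16617552) (l 16622976)) (b (l 16614440) (l 16619944))) (c (l 16630896) (c (l 16607760) (l 16637672))))) (b (c (a (b (l 16604936) (l 16610472)) (b (l 16611032) (l 16616584))) (a (b (l 16600944) (l 16606528)) (b (l 16607320) (l 16612920)))) (c (b (a (l 16615888) (l 16622032)) (a (l 16621200) (l 16627368))) (a (b (l 16612000) (l 16617376)) (b (l 16618416) (l 16623808)))))) (c (b (a (a (b (l 16620400) (l 16625888)) (c (l 16627512) (l 16624664))) (a (c (l 16630472) (l 16627704)) (c (l 16633472) (l 16630776)))) (a (a (a (l 532660751) (l 533174799)) (c (l 16617240) (l 16645984))) (a (c (l 16620232) (l 16638568)) (l 533307151)))) (a (b (b (c (l 16617192) (l 16618976)) (c (l 16622768) (l 16619352))) (a (a (l 533306639) (l 533283855)) (a (l 533260303) (l 532967951)))) (a (b (b (a (l 16619448) (l 16621056)) (l 532875023))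 (a (l 532943119) (l 532917775))) (b (b (c (l 16625032) (l 16621864)) (l 532822287)) (a (l 532891663) (l 532865039))))))), by decide +kernel⟩

def k7_A00mm_202_s3 : ∃ t, chk3 f_A00mm_202_s3 t 12 17 1 = true :=
  ⟨(a (b (l 6) (a (l 6) (b (a (l 6) (c (l 16590736) (l 16581008))) (c (a (l 16572232) (l 16598944)) (c (l 16582824) (l 16588080)))))) (b (a (b (c (a (l 6) (c (l 16573152) (l 16577856))) (c (l 16579592) (l 16580304))) (c (a (a (l 6) (l 16588096)) (b (l 16598536) (l 16600152))) (c (a (l 16583784) (l 16585960)) (a (l 16584968) (l 16591960))))) (c (a (b (c (l 16581272) (l 16585680)) (b (l 16596096) (l 16597752))) (b (c (l 16599984) (l 16593624)) (a (b (l 16591712) (l 16593392)) (b (l 16606304) (l 16597520))))) (c (b (l 16594576) (c (l 16596128) (l 16598664))) (b (c (l 16592696) (l 16589760)) (c (l 16601360) (l 16599400)))))) (b (a (c (a (b (a (l 16593264) (l 533367567)) (l 16577968)) (b (a (l 533619471) (l 533337871)) (a (l 16582752) (l 533324815)))) (b (a (c (l 533244687) (l 16588072)) (c (l 533075471) (l 16594392)))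 (c (a (l 16585536) (l 533199119)) (l 16594368)))) (b (c (a (c (l 16587112) (l 16591184)) (c (l 16595480) (l 16599272))) (c (c (l 16598632) (l 16580128)) (l 16605120))) (c (a (a (b (l 533305103) (l 16590328)) (b (l 16592544) (l 533281295))) (a (c (l 16605880) (l 16599160)) (l 16611832))) (a (a (l 532947727) (l 532929807)) (a (l 532915471) (l 533172751)))))) (a (c (c (a (l 16582112) (l 16588640)) (a (l 16586328) (l 16592616))) (c (a (l 16570312) (l 16576320)) (l 16599800))) (c (b (b (a (l 16594048) (a (l 533257999) (l 533509391))) (a (l 16596104) (a (l 16601168) (l 533235215)))) (c (a (l 16597440) (l 16604328)) (l 16614912))) (b (a (c (l 16601568) (l 16606752)) (c (a (l 533385487) (l 533364751)) (l 533476879))) (c (a (l 16605424) (l 16611832)) (l 16613456)))))))), by decide +kernel⟩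

def k8_A00mm_202_s3 : ∃ t, chk3 f_A00mm_202_s3 t 26 34 1 = true :=
  ⟨(c (a (a (c (b (b (l 16597088) (l 16598600)) (b (l 16600240) (l 16602024))) (b (l 16601672) (b (l 16603952) (l 16605648)))) (c (b (b (l 16605496) (l 16607040)) (b (l 16608728) (l 16610552))) (b (l 16609840) (b (l 16612184) (l 16613912))))) (a (c (b (b (l 16613984) (l 16615576)) (b (l 16617304) (l 16619168))) (b (l 16618112) (b (l 16620512) (l 16622280)))) (b (c (b (l 16622640) (l 16624288)) (l 16626384)) (c (b (l 16605080) (l 16627952)) (b (l 16629024) (l 16630840)))))) (a (a (b (c (l 16604952) (c (l 16601256) (l 16577640))) (c (l 16609024) (l 16609688))) (b (c (l 16610696) (a (l 16583512) (l 533097487))) (c (l 16616968) (l 16615864)))) (b (c (a (l 16616664) (c (l 16623744) (l 16621840))) (b (a (l 16609768) (l 16616208)) (a (l 16593896) (l 16600368)))) (c (a (l 16625016) (l 16632656)) (a (c (l 16623344) (l 16621136)) (a (l 16627144) (l 16625184))))))), by decide +kernel⟩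

def k9_A00mm_202_s3 : ∃ t, chk3 f_A00mm_202_s3 t 26 35 1 = true :=
  ⟨(a (b (a (c (a (b (l 16614016) (l 16616016)) (b (l 16618216) (l 533516559))) (c (b (l 16611592) (l 16592496)) (l 16617176))) (c (c (b (l 16612512) (l 16614600)) (b (l 16615784) (l 16617784))) (c (c (l 16609048) (l 16621552)) (l 16624840)))) (c (b (c (a (a (b (l 16605480) (l 533180431)) (l 16610336)) (c (l 16616144) (l 16617552))) (a (a (l 533261327) (l 16613616)) (l 16619920))) (b (c (a (a (l 16608576) (l 533155855)) (a (l 533140751) (l 16620760))) (a (a (l 16611888) (l 533228047)) (a (l 16619504) (l 16623720)))) (a (c (l 16612456) (l 16615640)) (c (a (l 533131279) (l 533113871)) (a (l 533202447) (l 533184527)))))) (a (a (c (b (l 533347855) (l 16616768)) (l 533442319)) (b (l 532845583) (c (l 533312783) (l 16629800)))) (a (b (l 532834063) (c (l 533292815) (l 533390095))) (c (b (l 16625592) (l 533276687)) (l 533055503)))))) (b (a (b (c (a (l 533530383) (l 533522703)) (c (l 16627704) (l 16629320))) (c (a (l 533490191) (l 533414415)) (c (l 16629656)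 (l 16633584)))) (c (b (c (l 16629984) (l 16617056)) (a (l 533473551) (l 533467663))) (a (c (l 16634872) (l 16636576)) (b (l 16639472) (l 16641856))))) (c (b (a (c (c (l 16624920) (l 16626216)) (l 16638880)) (a (c (l 16632192) (l 16634864)) (l 533358863))) (c (a (c (l 16627336) (l 16628592)) (c (l 16636312) (l 16637464))) (a (c (l 16629968) (l 16631472)) (a (l 16637192) (l 16641632))))) (c (b (a (a (l 16629688) (l 16633816)) (l 16640136)) (a (a (l 16631896) (l 16636048)) (c (l 16641600) (l 16643208)))) (a (b (l 16635584) (l 16637720)) (b (l 16643648) (l 16645824))))))), by decide +kernel⟩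

def k10_A00mm_202_s3 : ∃ t, chk3 f_A00mm_202_s3 t 54 17 1 = true :=
  ⟨(b (c (b (a (c (l 16632456) (l 16632312)) (a (l 532804879) (l 532763663))) (c (a (b (l 16635136) (l 16621352)) (b (l 16644568) (l 16646552))) (a (l 16638808) (l 16648072)))) (a (c (b (b (l 16605432) (l 16631504)) (l 16638920)) (b (b (l 16622640) (l 16627816)) (a (l 532734479) (l 532699663)))) (a (b (b (l 533164559) (l 532660751)) (a (l 532718607) (l 532699151))) (b (b (l 533123087) (l 532619791)) (a (l 532679439) (l 532658959)))))) (a (c (b (a (b (l 532769295) (l 533463823)) (b (l 532701455) (a (l 533193999) (l 533193743)))) (a (b (l 533421071) (c (l 16643792) (l 16646168))) (b (l 533418767) (c (l 16648520) (l 16650792))))) (b (a (c (l 16643496) (l 16643240)) (c (l 16647952) (l 16646576))) (c (a (c (l 16636560) (l 16648568)) (l 532840207)) (b (l 16651736) (l 16654336))))) (b (a (b (a (l 532776207) (l 533046031)) (c (l 532657679) (l 16653872))) (c (a (l 532683023) (l 532685583)) (c (l 16656344) (l 16648016)))) (c (b (a (l 533418767) (a (l 533152015)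 (l 532885519))) (a (l 533375759) (l 533377295))) (c (b (l 16658080) (l 16660408)) (c (l 16661368) (l 16659960))))))), by decide +kernel⟩

def k11_A00mm_202_s3 : ∃ t, chk3 f_A00mm_202_s3 t 55 17 1 = true :=
  ⟨(b (c (b (c (a (l 16646960) (l 16653024)) (a (b (l 16641808) (l 16646888)) (b (l 16648000) (l 16653112)))) (a (a (l 533323535) (l 533280527)) (a (l 533233935) (l 532916239)))) (a (a (b (b (l 16646144) (l 533113615)) (a (l 532637711) (l 532615951))) (b (a (l 533330959) (l 533038863)) (a (l 532593679) (l 532570639)))) (b (a (a (l 533014543) (l 532989711)) (a (l 532964111) (l 532937743))) (a (a (l 532546831) (l 533059343)) (a (l 533034255) (l 533008399)))))) (c (a (c (b (b (l 16658488) (l 16660768)) (a (a (l 533102095) (l 533105167)) (l 532574223))) (b (l 16656552) (a (l 532633615) (l 16668912)))) (b (c (l 16669736) (l 16670200)) (a (c (l 16672040) (l 16673936)) (l 532900879)))) (c (a (b (c (l 16661904) (l 16660528)) (b (l 16667608) (l 16669968))) (b (b (l 16665400) (l 16670176)) (c (l 16677672) (l 16676488)))) (a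 (b (a (l 533179407) (l 533002511)) (c (l 16668344) (l 16666888))) (b (a (l 532554255) (l 532505615)) (b (l 16672256) (l 16676856))))))), by decide +kernel⟩

def k12_A00mm_202_s3 : ∃ t, chk3 f_A00mm_202_s3 t 12 18 1 = true :=
  ⟨(a (a (b (b (l 6) (c (l 16580728) (l 16584744))) (b (c (l 16588856) (l 16588152)) (c (l 16596968) (l 16602024)))) (b (b (c (c (l 16581216) (l 16606464)) (c (l 16590512) (l 16592224))) (c (c (l 16610512) (l 16593552)) (c (l 16598264) (l 16596232)))) (c (b (c (a (l 16594928) (l 16600856)) (l 16601640)) (c (l 16606128) (l 16609720))) (c (b (l 16604720) (l 16608232)) (b (l 16600080) (l 16603912)))))) (b (b (c (a (a (c (l 16590472) (l 16594384)) (c (l 16597008) (l 16600688))) (a (c (l 16614200) (l 16607160)) (c (b (l 16608512) (l 16612696)) (l 16624312)))) (a (a (l 16601576) (a (l 16605952) (l 16608936))) (c (a (l 16611232) (a (l 16595048) (l 16629760))) (a (l 16615936) (l 16622056))))) (a (c (c (b (l 16620944) (l 16625128)) (a (l 16602480) (l 16608792))) (a (l 16609192) (l 16615080))) (c (c (a (l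 16622576) (b (l 16616880) (l 16621080))) (a (l 16625768) (b (l 16619912) (l 16623992)))) (c (c (a (l 16618056) (l 16624536)) (l 16623256)) (a (l 16621960) (l 16629544)))))) (b (a (c (a (c (l 16607184) (l 16610624)) (c (l 16613760) (l 16616952))) (c (l 16617664) (l 16625424))) (c (c (a (l 16630968) (b (l 16625280) (l 16629488))) (a (c (l 16622664) (l 16603312)) (a (l 16638928) (l 16642320)))) (c (b (l 16638680) (l 16632176)) (a (l 16626352) (l 16634176))))) (c (c (a (a (l 16594536) (b (l 16620032) (l 16624184))) (a (b (l 16626768) (l 16630944)) (b (l 16633680) (l 16637856)))) (a (l 16632384) (b (a (l 16629600) (l 16620560)) (l 16647520)))) (a (c (l 16622920) (a (l 16594216) (l 16622872))) (a (c (l 16634224) (l 16630720)) (c (l 16641368) (l 16641336)))))))), by decide +kernel⟩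

def k13_A00mm_202_s3 : ∃ t, chk3 f_A00mm_202_s3 t 12 19 1 = true :=
  ⟨(a (a (c (b (b (l 16602720) (l 16606296)) (l 16623272)) (b (c (l 16599272) (a (l 16591224) (l 16588120))) (b (l 16624808) (l 16609096)))) (a (c (b (b (l 16613040) (l 16616824)) (l 16623384)) (b (b (l 16606208) (l 16610288)) (b (l 16614920) (l 16620184)))) (c (b (b (l 16618968) (l 16624048)) (c (l 16631736) (l 16629448))) (b (c (l 16617560) (b (l 16611648) (l 16615960))) (b (l 16622504) (l 16627792)))))) (a (b (c (a (b (l 16625240) (l 16631376)) (b (l 16631752) (l 16638880))) (c (b (l 16637400) (l 16636368)) (b (a (l 16619384) (a (l 16625232) (l 16629200))) (a (l 16623768) (l 16631744))))) (a (c (b (l 16635696) (l 16640632)) (b (c (l 16631784) (l 16628560)) (l 16646032))) (c (b (l 16643272) (l 16648264)) (b (b (l 16636920) (l 16639432)) (c (l 16644840) (l 16642048)))))) (b (a (c (b (a (l 16636736) (l 532840719)) (a (l 16644600) (l 16648296))) (c (b (l 16638472) (l 16642896)) (b (c (l 16636088) (l 16634336)) (b (l 16638720) (l 16641104))))) (b (a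 (c (b (l 16641464) (l 16645568)) (a (l 532801295) (l 532795919))) (b (a (l 532858895) (l 532844815)) (c (l 16649024) (l 16632424)))) (c (a (l 16651712) (l 16655176)) (c (l 16651032) (b (l 16647008) (l 16649480)))))) (c (a (b (c (l 16652000) (l 16650040)) (l 16661344)) (b (c (l 16659904) (l 16658096)) (c (l 16664952) (l 533140751)))) (a (b (b (l 16650296) (l 16658064)) (c (l 16652912) (l 16650312))) (a (b (c (l 16653808) (l 16651160)) (l 533112335)) (b (c (l 16647488) (l 16655432)) (l 533365775)))))))), by decide +kernel⟩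

def k14_A00mm_202_s3 : ∃ t, chk3 f_A00mm_202_s3 t 52 18 1 = true :=
  ⟨(b (b (c (b (a (c (l 16615584) (l 16618664)) (a (a (l 16621512) (l 533160719)) (a (l 533147407) (b (l 533133839) (l 16628000))))) (a (a (l 16629896) (l 16633424)) (c (c (l 16626432) (l 16627672)) (l 16629776)))) (c (a (a (l 16633064) (l 16636424)) (b (a (l 16627416) (l 533260303)) (l 16633032))) (a (l 16628392) (a (l 16633280) (l 533356303))))) (c (c (a (b (l 16623952) (l 16628152)) (a (b (l 16629384) (l 16633576)) (b (l 16633064) (l 16637248)))) (a (b (l 16626776) (l 16630856)) (b (l 16633840) (l 16637912)))) (a (c (a (l 16630408) (l 533056783)) (l 16635880)) (b (c (l 16647432) (l 16640552)) (a (l 532941327) (a (l 533053967) (l 533039375))))))) (a (c (c (b (b (l 16632352) (l 16636560)) (b (l 16640760) (l 16644944))) (b (c (l 16646808) (l 16642952)) (b (l 16648408) (l 16647256)))) (a (b (b (l 16638112) (l 16642032)) (c (l 16646320) (l 16644792))) (b (a (l 533120783) (l 533106447)) (c (l 16649688) (l 16648896))))) (b (c (c (a (b (l 16637776) (l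 16641984)) (b (l 16641456) (l 16645664))) (b (l 16652488) (l 16651360))) (a (b (l 533081103) (l 16648672)) (b (c (l 16646584) (l 16649824)) (l 533058319)))) (a (c (b (l 533348111) (a (l 533231119) (l 16657536))) (c (l 16653096) (l 16653040))) (b (c (c (l 16649856) (l 16652008)) (l 533334031)) (c (l 533328655) (l 533340431))))))), by decide +kernel⟩

def k15_A00mm_202_s3 : ∃ t, chk3 f_A00mm_202_s3 t 53 36 1 = true :=
  ⟨(a (c (a (b (b (a (b (l 533123599) (l 16629840)) (b (l 533115663) (l 533107983))) (c (l 16632616) (l 16635208))) (c (b (l 16636792) (l 16640984)) (b (l 16639264) (l 16643336)))) (b (a (b (b (l 16632208) (l 533096463)) (l 533097487)) (b (c (l 533062927) (l 533131791)) (l 533083407))) (c (b (l 16640576) (l 16644760)) (b (l 16642944) (l 16647016))))) (b (c (b (a (l 532968463) (b (l 16637808) (l 533209871))) (l 16645312)) (b (a (l 533332239) (l 533312271)) (l 16643576))) (b (c (l 16649216) (l 16647320)) (c (a (l 16646136) (l 16649704)) (l 16651096))))) (c (c (b (b (a (c (l 16636608) (l 16637744)) (c (l 16641192)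 (l 16642280))) (a (b (a (l 533037327) (l 533027599)) (l 16641304)) (b (l 533018383) (a (l 533012239) (l 533002255))))) (a (b (l 16644432) (l 16653856)) (b (c (l 16647928) (l 16648920)) (c (l 16652128) (l 16653064))))) (b (a (b (l 533122831) (b (l 533100559) (l 16643672))) (b (l 16644112) (b (l 533085711) (l 533074447)))) (a (b (l 16646712) (l 16650776)) (b (l 16650600) (l 16654656))))) (c (b (a (b (l 16653112) (l 533448719)) (b (l 16646944) (a (l 533164047) (l 533156111)))) (a (b (l 16649424) (l 16653352)) (b (l 16653208) (l 16657136)))) (b (a (b (l 16646056) (l 533273103)) (b (l 16650216) (l 533253135))) (a (l 533137423) (c (l 532951823) (l 16658928))))))), by decide +kernel⟩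

def k16_A00mm_202_s3 : ∃ t, chk3 f_A00mm_202_s3 t 53 37 1 = true :=
  ⟨(a (c (c (b (a (b (l 16645184) (l 16649384)) (b (l 16648952) (l 16653160))) (a (b (l 16653584) (l 16657760)) (b (l 16657352) (l 16661528)))) (b (a (b (l 16647424) (l 16651528)) (b (l 16651104) (l 16655208))) (a (b (l 16655632) (l 16659728)) (b (l 16659304) (l 16663400))))) (c (b (a (b (l 16650104) (l 16643600)) (c (l 16660232) (l 532972559))) (a (b (l 16658080) (l 16662064)) (a (l 533241871) (l 532957455)))) (a (b (l 16655128) (l 533038607)) (b (l 533307919) (l 533030415))))) (c (c (b (a (b (c (l 16652352) (l 16653280)) (l 16662248)) (b (c (l 16656344) (l 16657224)) (c (l 16660560) (l 16661400)))) (a (b (l 16666432) (l 16670608)) (b (c (l 16664760) (l 16665560)) (l 533177871)))) (b (a (b (l 16654856) (l 16658960)) (b (l 16658736) (l 16662832))) (a (b (l 16663056) (l 16667144)) (b (l 16666928) (l 16671008))))) (c (b (a (b (l 16657312) (l 16666536)) (b (l 16661088) (l 16670312))) (a (a (l 532941583) (l 532925967)) (a (l 532910863) (l 532896271))))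 (b (a (l 533008399) (b (l 16663832) (l 16667672))) (a (l 533286415) (l 533255951)))))), by decide +kernel⟩

def k17_A00mm_202_s3 : ∃ t, chk3 f_A00mm_202_s3 t 52 19 1 = true :=
  ⟨(b (a (c (c (b (a (b (l 16647312) (l 16651464)) (l 533372687)) (b (l 16657400) (l 16661528))) (b (b (l 16651344) (l 16655424)) (l 16661472))) (c (b (l 16654504) (l 16661920)) (b (c (l 16652440) (b (l 16649688) (l 16652184))) (b (l 16660688) (l 16663248))))) (c (c (b (b (l 16661608) (l 16665768)) (b (c (l 16664240) (l 16654616)) (l 16668792))) (b (a (l 532869135) (b (l 16649704) (l 16664272))) (a (l 16666800) (l 16670368)))) (a (b (b (l 533044239) (l 533006863)) (b (l 532834063) (l 532660751))) (b (b (l 533035023) (l 532997391)) (b (l 532824591) (l 532718095)))))) (c (b (a (c (l 16667704) (l 16666336)) (a (l 532999951) (b (l 16675568) (l 16678960)))) (a (c (l 16673160) (l 16671600)) (c (l 16681528) (b (l 16678736) (l 533133071))))) (a (b (c (b (l 533211407) (l 16665624)) (b (l 16660624) (l 16663296))) (a (l 533284367) (c (l 16677112) (l 533029903))))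 (a (b (b (l 532755471) (l 533117711)) (c (l 533093647) (l 533017359))) (b (b (c (l 16673760) (l 16671600)) (l 533375759)) (a (l 533316623) (l 533243919))))))), by decide +kernel⟩

def k18_A00mm_202_s3 : ∃ t, chk3 f_A00mm_202_s3 t 53 19 1 = true :=
  ⟨(b (a (b (a (c (b (a (l 533181455) (l 533165839)) (a (l 532654607) (l 532638991))) (b (l 533026319) (l 532988431))) (c (a (b (l 533150223) (l 532757007)) (b (l 533134095) (l 532740623))) (b (l 533017103) (l 532979983)))) (a (b (c (c (l 16670216) (l 16671960)) (l 532815631)) (c (l 533205263) (a (l 532912655) (l 532908047)))) (b (c (a (l 532632847) (l 532616207)) (c (l 16677128) (l 16674984))) (c (l 532702223) (c (l 16679784) (l 533130255)))))) (a (c (b (b (c (l 16669528) (l 16676464)) (a (l 533126927) (l 533111055))) (b (a (l 532599567) (l 532717583)) (c (l 16687168) (l 16683408)))) (b (b (l 533252367) (l 532971791)) (b (l 532798735) (l 532759055)))) (b (c (b (c (l 16678720) (l 16680328)) (c (l 16682864) (l 533118479))) (b (l 532952591) (l 532958991))) (b (c (c (l 16686992)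 (l 16685824)) (l 532924175)) (c (c (l 16691112) (l 16687256)) (l 532750351)))))) (c (b (a (a (b (l 16679240) (l 16683224)) (b (l 533183247) (l 16687024))) (a (b (l 533148687) (l 533160207)) (b (l 532712719) (l 533126159)))) (a (c (a (l 16687928) (l 16692256)) (b (l 16687432) (l 16690288))) (c (b (l 16698816) (l 16700280)) (a (l 533115151) (l 533104911))))) (a (a (b (b (c (l 16678112) (l 16676064)) (c (l 16670368) (l 16678896))) (b (l 533056015) (l 533014287))) (b (b (a (l 532863247) (l 532590607)) (c (l 16685288) (l 16683448))) (b (l 533180943) (l 533272591)))) (a (b (b (c (l 16686928) (l 533082127)) (c (l 16689760) (l 533041167))) (b (a (l 533040143) (l 533035535)) (l 533263375))) (b (c (l 532892687) (b (l 533073423) (l 533032463))) (b (c (l 16697200) (l 532990479)) (l 533119759))))))), by decide +kernel⟩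

def k19_A00mm_202_s3 : ∃ t, chk3 f_A00mm_202_s3 t 54 36 1 = true :=
  ⟨(a (c (c (b (a (b (l 16646376) (a (l 533004047) (l 16650264))) (b (l 16651120) (c (l 16653384) (l 16654336)))) (b (a (a (l 532989967) (l 533113359)) (b (a (l 532971791) (l 16657184)) (a (l 16656704) (l 532957455)))) (a (c (l 16656240) (l 16657136)) (l 16666136)))) (b (a (b (l 16648664) (l 533337359)) (b (l 16653304) (l 16655952))) (a (b (a (l 533055759) (l 533044751)) (l 16658672)) (b (b (l 533035791) (l 533027855)) (l 16662808))))) (c (b (a (b (l 16651368) (l 533147919)) (a (l 533162255) (l 533159951))) (a (b (l 533128719) (l 16661048)) (b (a (l 533113871) (l 533106959)) (l 16665088)))) (b (b (l 16656680) (a (l 533239823) (l 16661352))) (a (a (l 533224719) (l 533213199)) (b (l 533201935) (l 16667744)))))) (b (b (a (c (c (l 16655944) (l 16658040)) (c (l 16650024) (l 16663360))) (c (l 533334799) (l 532953615))) (a (a (c (l 533026063) (l 532645647)) (c (l 533025295) (l 532912911))) (c (c (l 16663608) (l 16665536)) (c (l 16657328) (l 16670448)))))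 (c (a (a (b (c (l 532958479) (l 533024015)) (l 532979471)) (b (c (l 532955919) (l 533021199)) (c (l 532938767) (l 533003279)))) (b (c (l 533223695) (l 16668344)) (c (a (l 532930831) (l 532925199)) (a (l 532995343) (l 532989711))))) (a (c (b (a (l 533101839) (l 533099023)) (l 533084943)) (b (l 533191183) (l 533174287))) (b (a (l 532604943) (l 532604943)) (c (a (l 533072399) (l 533067023)) (l 533159951))))))), by decide +kernel⟩

def k20_A00mm_202_s3 : ∃ t, chk3 f_A00mm_202_s3 t 54 37 1 = true :=
  ⟨(a (c (c (b (a (b (c (l 16660448) (l 16661296)) (c (l 16664664) (l 16665464))) (b (c (l 16664680) (l 16665488)) (c (l 16668880) (l 16669648)))) (a (b (c (l 16668864) (l 16669624)) (c (l 16673048) (l 16673768))) (b (c (l 16673080) (l 16673800)) (c (l 16677256) (l 16677936))))) (b (a (b (l 16662744) (l 16666832)) (b (l 16666872) (l 16670960))) (a (b (l 16670920) (l 16680240)) (b (l 16675040) (l 533049103))))) (c (b (a (b (l 16665000) (l 16674216)) (b (l 16669032) (l 16678240))) (a (b (l 533141263) (l 532878095)) (a (l 532855823)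 (l 532843535)))) (a (b (c (l 16668864) (l 16670232)) (l 533227535)) (b (c (l 533173775) (l 16674120)) (b (l 16679216) (l 16683064)))))) (c (c (a (b (b (c (l 16669016) (l 16669800)) (c (l 16673216) (l 16673952))) (b (c (l 16677408) (l 16678096)) (c (l 16681576) (l 16682224)))) (b (b (l 16679080) (c (l 16677672) (l 16678368))) (a (b (l 16681048) (l 16685192)) (l 533071375)))) (b (a (b (l 16671128) (l 16675200)) (b (l 16675496) (l 16679568))) (a (b (l 16679280) (l 533025295)) (b (l 16688872) (l 533004047))))) (b (c (a (b (l 16673192) (l 16682400)) (b (l 16677472) (l 16686672))) (a (c (l 533151759) (l 16678144)) (c (l 532864015) (l 16682296)))) (a (a (b (l 532736271) (l 532873743)) (c (l 533089039) (l 533172751))) (a (c (l 533078799) (l 533162511)) (c (l 533069071) (l 533153039))))))), by decide +kernel⟩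

def k21_A00mm_202_s3 : ∃ t, chk3 f_A00mm_202_s3 t 55 18 1 = true :=
  ⟨(b (a (b (c (a (b (l 533338639) (l 533296655)) (b (l 533345295) (l 533302543))) (a (a (l 532800527) (l 532937231)) (c (l 533167375) (l 533239055)))) (c (a (b (c (l 16671512) (l 16673280)) (a (c (l 532921615) (l 532986383)) (l 533219855))) (b (l 533261583) (c (l 16684888) (l 16686496)))) (a (c (b (l 533099791) (a (l 533063695) (l 533062671))) (b (l 16677784) (l 533153295))) (b (l 532745231) (c (l 533065487) (l 16685376)))))) (b (c (a (b (a (l 533084175) (l 16678152)) (l 533311759)) (a (l 532537871) (l 533082383))) (c (b (l 16682368) (l 16685016)) (b (l 16681320) (l 16680416)))) (c (a (b (l 533270031) (l 533230351)) (a (l 533258511) (l 533265679))) (a (b (l 533156623) (l 532713999)) (c (l 533105679) (l 533192975)))))) (a (c (b (a (b (c (l 533179663) (l 532974863)) (c (l 16687800) (l 16684040))) (a (b (l 532931599) (l 532934415)) (b (l 532928015) (l 532928015)))) (a (a (c (l 532927759) (l 532987919)) (c (l 532919311) (l 532979727))) (a (c (l 532911375)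 (l 532972047)) (c (l 532904463) (l 532965391))))) (b (a (c (b (l 533050895) (l 16691064)) (c (l 533116175) (l 533163023))) (c (b (a (l 533041679) (l 533038351)) (l 533039119)) (b (l 533129487) (l 16692312)))) (b (a (c (l 533054735) (l 16691720)) (c (l 533040399) (l 16696120))) (a (c (l 533057039) (l 16695536)) (c (l 533042191) (l 16699936)))))) (b (c (a (b (c (l 533165583) (l 533230351)) (l 533188111)) (b (l 533203471) (a (l 532914191) (l 532913679)))) (a (a (b (l 532812303) (l 533073679)) (b (l 533082639) (l 533070095))) (c (b (l 533047055) (l 532756495)) (l 533394959)))) (c (a (a (l 533196047) (l 533190927)) (a (l 532918543) (l 532915727))) (a (c (c (l 532742415) (l 532782351)) (l 533115919)) (c (l 533024015) (l 533110543))))))), by decide +kernel⟩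

def k22_A00mm_202_s3 : ∃ t, chk3 f_A00mm_202_s3 t 54 38 1 = true :=
  ⟨(a (b (c (c (a (b (l 533023247) (l 533030927)) (b (l 533131023) (l 533003791))) (a (a (l 533226767) (l 533212687)) (a (l 533333263) (l 533320207)))) (a (b (c (l 16680888) (l 16682600)) (l 532928783)) (b (c (l 533125135) (l 16686904)) (l 532833807)))) (c (a (b (a (l 533073935) (l 533059343)) (a (l 532545551) (l 532664847))) (c (b (l 533010959) (l 533018895)) (b (l 533068303) (l 533075471)))) (a (b (l 532914703) (l 532740879)) (b (l 532803855) (c (l 16696760) (l 533093903)))))) (b (c (a (b (c (l 533106447) (l 533030671)) (c (l 532978703) (l 533036047))) (b (c (l 533218575) (l 533008655)) (c (l 532955663) (l 533013263)))) (a (b (c (l 533100559) (l 16690936)) (c (l 16692976) (l 16691568))) (b (c (l 533078543) (l 16695088)) (c (l 533082127) (l 533146127))))) (c (a (c (b (l 532985103) (l 532992015)) (b (l 533041935) (l 533048335))) (c (b (l 532961551) (l 532967439)) (b (l 533018383) (l 533023759)))) (c (a (b (l 16696928) (l 16700864)) (b (l 16701160)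 (l 16705088))) (a (b (l 533121551) (l 533082895)) (b (l 533109007) (l 533070607))))))), by decide +kernel⟩

def k23_A00mm_202_s3 : ∃ t, chk3 f_A00mm_202_s3 t 54 39 1 = true :=
  ⟨(a (a (c (b (b (c (l 533056527) (l 16695264)) (l 533093647)) (b (l 533104399) (l 533099535))) (b (b (c (l 16695808) (l 533064207)) (c (l 16698744) (l 533022991))) (b (c (l 16701744) (l 532981007)) (l 533110031)))) (c (b (b (c (l 533027087) (l 16699336)) (l 532794383)) (b (l 533072655) (l 533083919))) (c (b (b (l 16700264) (l 16703256)) (b (l 16706312) (l 533000463))) (b (b (l 533053967) (l 533013007)) (b (l 532971023) (l 532928271)))))) (c (b (a (b (a (l 532495887) (l 532482575)) (c (l 533007119) (l 16707536))) (b (a (l 532469775) (l 532591887)) (c (l 532980751) (l 16711824)))) (a (b (l 533042703) (l 533052687)) (b (l 533014543) (l 533023247)))) (a (c (b (b (l 16704728) (l 16707776)) (b (l 533033231) (l 532989711))) (b (b (l 533043215) (l 532733967)) (b (l 532960527) (l 532917519)))) (c (b (c (l 533081359) (l 533068047)) (b (l 533021967) (l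 532978447))) (b (b (l 533031183) (l 532722191)) (b (l 532680719) (l 533174799))))))), by decide +kernel⟩

def k24_A00mm_202_s3 : ∃ t, chk3 f_A00mm_202_s3 t 110 19 1 = true :=
  ⟨(b (b (b (c (a (c (l 533199119) (l 532989199)) (a (l 532946191) (l 532938767))) (a (c (l 533059599) (l 16696736)) (c (l 533043983) (l 16701120)))) (c (a (a (l 532967951) (l 532958479)) (a (l 532950031) (l 532942351))) (a (c (l 533062159) (l 533131791)) (c (l 533045775) (l 533115919))))) (b (c (a (a (l 532972559) (l 532962831)) (a (l 532953871) (l 532945935))) (a (c (l 533065231) (l 533095183)) (c (l 533047823) (l 533079823)))) (c (a (c (l 532945423) (l 533001743)) (c (l 532926479) (l 532983055))) (c (a (l 16709424) (l 533050383)) (a (l 533057295) (l 533042447)))))) (c (b (a (c (b (l 532950799) (l 532956687)) (b (l 533006351) (l 16716216))) (c (b (l 532930831) (l 532935439)) (b (l 532986639) (l 532990479)))) (a (c (b (l 532962831) (l 532970255)) (l 533289743)) (c (b (l 532940303) (l 532945935)) (l 533266191)))) (b (c (a (c (l 533057551) (l 533055503))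 (l 533323023)) (a (b (l 533018127) (l 532642575)) (b (l 533003791) (c (l 16720616) (l 532675343))))) (a (b (a (l 532575247) (l 532569103)) (a (l 532532495) (l 532526351))) (a (b (l 532562447) (l 532519951)) (b (l 532689679) (l 532513295))))))), by decide +kernel⟩

def k25_A00mm_202_s3 : ∃ t, chk3 f_A00mm_202_s3 t 111 19 1 = true :=
  ⟨(b (a (a (c (b (b (l 532932367) (l 532935695)) (c (l 532913167) (l 532969999))) (b (l 532806671) (c (l 533038351) (l 533048591)))) (c (b (l 533062671) (c (l 532906767) (l 532963855))) (b (l 532801807) (c (l 533032463) (l 533039631))))) (c (b (a (l 533192463) (l 532920847)) (c (a (l 532901391) (l 532897295)) (b (l 532956175) (l 532689167)))) (a (b (l 533066767) (l 532663823)) (b (l 533064463) (l 532793359))))) (c (a (b (c (a (l 532920079) (l 532912399)) (b (l 532970511) (l 532973071))) (c (b (l 532921103) (l 532925199)) (l 533246223))) (b (c (a (l 532906255) (l 532901135)) (l 533093647)) (a (l 532937231) (l 532930831)))) (c (a (b (l 533306383) (b (l 532982799) (l 532940559))) (b (l 533026575)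 (a (l 532950543) (l 532942351)))) (b (a (c (l 533122831) (b (l 532698127) (l 532659727))) (a (l 532955407) (l 532945935))) (a (b (a (l 532912399) (l 532904719)) (a (l 532871183) (l 532863503))) (a (b (l 532896271) (l 532855567)) (b (l 532887567) (l 532847119)))))))), by decide +kernel⟩

def k26_A00mm_202_s3 : ∃ t, chk3 f_A00mm_202_s3 t 56 16 1 = true :=
  ⟨(b (a (a (b (c (b (c (l 16610488) (l 16607640)) (c (l 16616488) (l 16613680))) (b (c (l 16604616) (c (l 16602248) (l 16600608))) (c (l 16610696) (l 16607528)))) (c (a (l 532838927) (l 532810255)) (b (c (l 16616656) (l 16613520)) (c (l 16622504) (l 16619400))))) (c (b (b (c (l 16613528) (l 16610752)) (l 532836623)) (a (l 532781071) (l 532751375))) (b (b (a (c (l 16607016) (l 16603904)) (l 532494607)) (c (l 16613912) (l 16610856))) (b (c (l 16619888) (l 16616856)) (c (l 16625752) (l 16622752)))))) (a (c (b (b (c (l 16616632) (l 16613928)) (l 532641039)) (a (l 532720655) (l 532689679))) (b (b (a (l 532463375) (l 532431375)) (c (l 16617184) (l 16614224))) (b (c (l 16623168)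 (l 16620232)) (c (l 16629040) (l 16626144))))) (c (b (b (c (l 16619840) (l 16617208)) (l 532577807)) (a (l 532658191) (l 532626959))) (b (b (a (l 532399375) (c (l 16615320) (l 16612456))) (a (l 532440591) (l 532408847))) (b (c (l 16626560) (l 16623720)) (c (l 16632440) (l 16629640))))))) (a (c (b (a (c (l 16636528) (l 16633904)) (a (l 532863247) (l 532833807))) (a (l 533253135) (l 533196303))) (a (b (b (c (l 16628240) (l 16625176)) (l 532766991)) (a (l 532837647) (l 532809487))) (b (b (c (l 16631496) (l 16628536)) (l 532708623)) (a (l 532780559) (l 532750863))))) (c (a (b (a (l 532803599) (l 532772879)) (l 533136655)) (b (a (l 532741647) (l 532710671)) (l 533075215))) (a (b (b (c (l 16634808) (l 16631944)) (l 532647439)) (b (l 532685583) (l 532723471))) (b (b (l 532813327) (l 532583951)) (b (l 532622607) (l 532660751))))))), by decide +kernel⟩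

def k27_A00mm_202_s3 : ∃ t, chk3 f_A00mm_202_s3 t 57 16 1 = true :=
  ⟨(b (a (a (c (b (b (c (l 16623248) (l 16620696)) (l 532515855)) (a (l 532596239) (l 532565775))) (b (b (c (l 16618024) (b (l 16613688) (l 16616784))) (a (l 532377359) (l 532346639))) (b (c (l 16630144) (l 16627408)) (c (l 16636040) (l 16633336))))) (c (b (b (c (l 16626872) (l 16624400)) (l 532723727)) (b (l 16642912) (l 16643496))) (b (b (c (l 16621816) (b (l 16617576) (l 16620680))) (a (l 532315919) (l 532285967))) (b (c (l 16633944) (l 16631312)) (c (l 16639840) (l 16637240)))))) (c (a (b (b (c (l 16630704) (l 16628312)) (c (l 16636752) (l 16634400))) (b (l 532440079) (l 16647368))) (b (b (l 14) (c (l 16640776) (l 16638512))) (b (l 532382735) (l 16656680)))) (a (b (b (a (c (l 16624800) (l 532174863)) (l 14)) (a (l 532256271) (l 532226831))) (b (c (l 16637952) (l 16635424)) (c (l 16643848) (l 16641360)))) (b (b (l 14) (a (l 532198159) (l 532169743))) (b (a (l 532239119) (l 532210703)) (c (l 16648064) (l 16645672))))))) (a (a (b (a (c (l 532680207)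 (l 532517903)) (c (l 532649999) (l 532621327))) (c (l 532746255) (b (l 532560399) (l 532598799)))) (b (a (b (l 532520463) (l 532560911)) (b (l 532490511) (l 532531215))) (c (l 532955407) (b (l 532499727) (l 532538127))))) (a (b (a (b (l 532461071) (l 532501775)) (b (l 532431887) (l 532472591))) (c (l 532897295) (b (l 532440591) (l 532478991)))) (b (a (b (l 532403215) (l 532443919)) (b (l 532375055) (l 532415759))) (c (l 532840463) (b (l 532382991) (l 532421391))))))), by decide +kernel⟩

def k28_A00mm_202_s3 : ∃ t, chk3 f_A00mm_202_s3 t 58 16 1 = true :=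
  ⟨(a (b (a (a (b (a (b (l 14) (l 532227855)) (l 14)) (c (l 532362767) (b (l 532182799) (l 532223247)))) (b (l 14) (c (l 532335375) (b (l 532155407) (l 532195855))))) (a (b (l 14) (c (l 532308495) (b (l 532128527) (l 532168719)))) (b (l 14) (c (l 532281871) (b (l 532101903) (l 532142351)))))) (a (a (b (b (l 532347151) (l 532387855)) (c (l 532530703) (l 532360463))) (b (b (l 532319503) (l 532360463)) (c (l 532503311) (l 532333071)))) (a (b (b (l 532292623) (l 532333583)) (c (l 532476431) (l 532305935))) (b (b (l 532265999) (l 532306959)) (c (l 532450063) (l 532279311)))))) (b (a (a (b (l 14) (c (l 532390159) (b (l 532076047) (l 532116239)))) (b (l 14) (b (l 14) (a (l 532179471) (l 532166671))))) (b (l 14) (b (l 14) (c (c (l 16670448) (l 16668664)) (a (l 532065807) (l 532041487)))))) (a (a (b (b (l 532239887) (l 532280847)) (c (l 532424207) (l 532253199))) (b (b (l 532214543) (l 532255247)) (c (l 532398607) (l 532227599)))) (c (b (a (l 532290575) (l 532265999)) (a (l 532373519) (l 532348943))) (b (a (b (l 532105743)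 (l 532144655)) (b (l 532081167) (l 532120335))) (a (l 532336655) (b (l 532158735) (l 532196879)))))))), by decide +kernel⟩

def k29_A00mm_202_s3 : ∃ t, chk3 f_A00mm_202_s3 t 59 16 1 = true :=
  ⟨(a (b (a (a (a (b (l 14) (b (l 14) (l 532105487))) (l 14)) (l 14)) (l 14)) (b (a (c (a (l 532241935) (l 532218383)) (a (b (l 532057359) (l 532096271)) (b (l 532033807) (l 532072975)))) (b (b (l 14) (a (l 532104463) (l 532082191))) (a (l 532134927) (l 532179727)))) (a (a (b (l 532221455) (l 532261135)) (b (l 532197903) (l 532237583))) (a (b (l 532175119) (l 532214543)) (b (l 532152591) (l 532192015)))))) (b (l 14) (a (c (b (b (l 14) (a (l 532171791) (l 532150543))) (a (l 532233743) (l 532212495))) (b (b (l 14) (a (l 532006415) (l 531985679))) (a (b (l 532044815) (l 532082447)) (b (l 532023823) (l 532061711))))) (c (b (b (l 14) (a (l 532130063) (l 532110095))) (a (l 532192015) (l 532172047))) (b (b (l 14) (a (l 531965455) (l 531945999))) (a (b (l 532003855) (l 532041487)) (b (l 531984399) (l 532022031)))))))), by decide +kernel⟩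

def k30_A00mm_202_s3 : ∃ t, chk3 f_A00mm_202_s3 t 15 16 1 = true :=
  ⟨(b (l 14) (a (a (a (b (l 14) (b (a (a (c (l 532132367) (l 531965711)) (c (l 532113167) (l 531947023))) (a (c (l 532093711) (l 531928335)) (l 14))) (a (a (l 532090383) (l 532339727)) (a (c (l 532134927) (l 531966223)) (c (l 532115471) (l 531947535)))))) (b (l 14) (b (l 14) (b (a (a (l 532004111) (l 14)) (l 14)) (a (a (l 532024079) (l 532004879)) (a (l 531985423) (l 14))))))) (l 14)) (l 14))), by decide +kernel⟩

def k31_A00mm_202_s3 : ∃ t, chk3 f_A00mm_202_s3 t 28 17 1 = true :=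
  ⟨(a (b (c (a (b (a (a (l 533073935) (l 533046799)) (a (l 533018895) (l 532990223))) (a (l 532595983) (l 532809999))) (b (a (l 533214223) (l 532885007)) (a (b (l 16649616) (l 16675528)) (l 532423951)))) (a (b (a (c (l 16657984) (l 533119759)) (c (l 16661304) (l 533062415))) (a (a (l 532982031) (l 532954639)) (a (l 532926479) (l 532897551)))) (b (a (c (l 16664680) (l 533001999)) (b (l 532698127) (l 532735247))) (a (a (l 532867599) (l 532836879)) (b (l 532771855) (l 532808207)))))) (a (c (b (c (l 16678744) (l 16676760)) (a (l 533187855) (l 533210639))) (b (a (a (l 532514063) (l 532755727)) (c (l 532759055) (l 532666383))) (a (c (l 16682216) (l 533053711)) (c (l 16685680) (l 532731919))))) (c (a (b (l 533092623) (l 533161231)) (b (l 533033743) (l 533103887))) (b (a (a (l 532938511) (l 532908047)) (a (l 532877327) (l 532846607))) (a (a (l 532737807) (l 532976911)) (a (l 532946703) (l 532916495))))))) (b (a (a (c (b (l 532825103) (l 532901391)) (b (c (l 532700175) (l 532877071)) (c (l 532774671) (l 532680975)))) (b (c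 (l 532766223) (b (l 532576015) (l 532613391))) (b (l 533009167) (l 533046543)))) (a (b (c (l 532708367) (b (l 532516879) (l 532554255))) (b (l 532950799) (l 532988431))) (b (c (l 532652047) (a (l 532492559) (l 532464143))) (a (l 532926991) (l 532898831))))) (a (c (a (b (l 532975119) (l 533046799)) (b (l 533186063) (l 532989967))) (b (a (a (l 532816143) (l 532785935)) (a (l 532755983) (l 532726287))) (a (l 533139983) (a (l 532827151) (l 532797711))))) (b (a (a (l 533192719) (l 533029647)) (c (l 532804879) (l 533161487))) (a (b (l 533098255) (a (l 532880399) (l 532851727))) (a (l 533074191) (l 533046031))))))), by decide +kernel⟩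

def k32_A00mm_202_s3 : ∃ t, chk3 f_A00mm_202_s3 t 29 17 1 = true :=
  ⟨(a (a (b (a (b (c (l 532596751) (a (l 532436239) (l 532408591))) (a (l 532871183) (l 532843535))) (b (c (l 532811535) (a (l 532381455) (l 532354831))) (a (l 532816655) (l 532789775)))) (b (a (c (l 532750095) (c (l 532616463) (l 532518415))) (a (l 532890895) (l 532864015))) (a (a (l 533018383) (l 531917071)) (a (l 531889935) (l 531863055))))) (b (a (b (c (l 533028111) (a (l 532328463) (l 532302863))) (a (l 532763663) (l 532737807))) (b (c (a (l 532453647) (l 532429071)) (a (l 532277519) (l 532252687))) (c (l 532786959) (a (l 532350479) (l 532325647))))) (a (b (b (l 533074191) (l 533110799)) (a (l 531836431) (l 532347151))) (a (b (l 532786191) (l 532321551)) (b (l 532761103) (l 532833039)))))) (a (b (a (c (b (a (l 532404751) (l 532381199)) (a (l 532482319) (l 532458511))) (b (a (l 532228623) (l 532205071)) (a (l 532301327) (l 532277519)))) (c (b (a (l 532358159) (l 532335631)) (a (l 532435471) (l 532412687))) (b (a (l 532182031) (l 532159759)) (a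 (l 532254223) (l 532231695))))) (a (a (b (l 532736527) (l 532807951)) (b (l 532712463) (l 532783631))) (a (b (l 532688911) (l 532759823)) (b (l 532800271) (l 532736527))))) (b (a (c (b (a (l 532313615) (l 532292367)) (a (l 532390671) (l 532369423))) (b (a (l 532406543) (b (l 532098575) (l 532135183))) (a (l 532209935) (l 532188687)))) (c (b (a (l 532271887) (l 532252175)) (a (l 532348943) (l 532329487))) (b (a (b (l 532078607) (l 532114959)) (b (l 532059151) (l 532095759))) (a (l 532168463) (l 532149263))))) (a (b (c (a (l 532465167) (l 532443919)) (a (l 532279567) (l 532258063))) (a (l 532713999) (l 532692239))) (b (c (a (l 532423183) (l 532403727)) (a (l 532237839) (l 532218383))) (a (l 532671503) (l 532651791))))))), by decide +kernel⟩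

def k33_A00mm_202_s3 : ∃ t, chk3 f_A00mm_202_s3 t 60 34 1 = true :=
  ⟨(a (a (c (b (a (l 532233231) (l 532214287)) (a (l 532310799) (l 532291855))) (b (a (b (l 532040719) (l 532077327)) (b (l 532022287) (l 532058895))) (a (l 532130831) (l 532380943)))) (c (b (a (l 532195343) (l 532176143)) (a (l 532273167) (l 532254223))) (b (a (b (l 532003599) (l 532040207)) (b (l 531984911) (l 532021775))) (a (b (l 532076303) (l 532111887)) (b (l 532057871) (l 532093455)))))) (a (c (b (a (l 532156943) (b (l 532117263) (l 532157199))) (a (l 532235023) (l 532215823))) (b (a (b (l 531966223) (l 532003087)) (b (l 531947279) (l 531984143))) (a (b (l 532039183) (l 532074767)) (b (l 532020495) (l 532056335))))) (a (b (c (b (l 532097807) (l 532137743)) (b (l 531928335) (l 531965455))) (c (l 532465167) (a (l 532024847) (l 532015375)))) (b (a (c (l 532103695) (l 531933199)) (c (l 532093711) (l 531923727))) (c (l 532714255) (a (l 532005903) (l 531996687))))))), by decide +kernel⟩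

def k34_A00mm_202_s3 : ∃ t, chk3 f_A00mm_202_s3 t 61 34 1 = true :=
  ⟨(a (a (a (a (b (c (l 532083983) (l 531913999)) (c (l 532163087) (l 531987215))) (b (b (l 531971599) (l 532010511)) (c (l 532153359) (l 531977743)))) (a (b (b (l 531961871) (l 532000783)) (c (l 532143631) (l 531968271))) (b (b (l 531952143) (l 531991055)) (c (l 532133647) (l 531958799))))) (a (c (b (a (l 532044303) (l 532034319)) (a (l 532123919) (l 532113935))) (b (b (l 14) (a (l 531894287) (l 531884559))) (a (l 531949071) (l 531939599)))) (a (b (b (l 14) (l 531961615)) (c (l 532104207) (l 531930127))) (b (b (l 14) (l 531951887)) (c (l 532094223) (l 531920399)))))) (a (b (b (l 14) (a (a (l 531941903) (l 531931919)) (a (l 531922191) (l 14)))) (b (a (a (l 531980559) (l 531970831)) (a (l 531960847) (l 531950863))) (a (a (l 532018447) (l 532008719)) (a (l 531998735) (l 531989007))))) (b (l 14) (b (a (a (l 531940879) (l 531931151)) (a (l 531920911) (l 531910927))) (a (a (l 531979023) (l 531969295)) (a (l 531959311) (l 4))))))), by decide +kernel⟩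

def k35_A00mm_202_s3 : ∃ t, chk3 f_A00mm_202_s3 t 31 34 1 = true :=
  ⟨(b (l 14) (b (b (l 14) (b (l 14) (l 4))) (l 4))), by decide +kernel⟩

def k36_A00mm_202_s3 : ∃ t, chk3 f_A00mm_202_s3 t 15 35 1 = true :=
  ⟨(a (a (a (a (b (a (c (l 532385039) (l 532200207)) (c (l 532366607) (l 532182031))) (a (l 532633615) (l 532615439))) (b (a (c (l 532347919) (l 532163855)) (c (l 532329231) (l 532145423))) (a (l 532865551) (c (l 532401423) (l 532212751))))) (a (b (a (c (l 532310287) (l 532395535)) (a (l 532207887) (l 532198415))) (a (c (l 532382735) (l 532194575)) (c (l 532364047) (l 532176143)))) (b (a (a (l 532188943) (l 532179471)) (a (l 532169999) (l 532429071))) (a (c (l 532345103) (l 532426255)) (a (l 532240911) (l 532231439)))))) (a (a (a (b (b (c (l 532215055) (l 532035087)) (l 532432399)) (a (l 532222223) (l 532212751))) (a (b (b (l 532113679) (l 532150031)) (l 532203279)) (b (b (l 532104207) (l 532140559)) (l 532193807)))) (a (a (b (b (l 532094479) (l 532130831)) (l 532184335)) (b (b (l 532084751) (l 532121359)) (l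 532174607))) (b (a (b (l 532075279) (l 532111631)) (b (l 532065551) (l 532101903))) (l 4)))) (b (a (b (a (a (l 532055823) (l 532046095)) (a (l 532036111) (l 532026383))) (a (a (l 532092431) (l 4)) (l 4))) (l 4)) (l 4)))) (l 4)), by decide +kernel⟩

def k37_A00mm_202_s3 : ∃ t, chk3 f_A00mm_202_s3 t 28 18 1 = true :=
  ⟨(a (a (b (a (b (c (c (l 16690480) (l 16689448)) (c (l 16691088) (l 533107471))) (c (a (l 532401167) (l 532477711)) (a (l 533161487) (l 533171471)))) (b (c (l 533117455) (a (l 533118223) (l 533092111))) (c (b (l 533051663) (l 533010191)) (c (l 533145103) (l 533100303))))) (a (b (b (c (l 532950543) (l 533106959)) (c (l 533153807) (l 532806159))) (c (a (l 532913935) (l 532913679)) (c (l 533022479) (l 533110287)))) (c (b (b (a (l 532965647) (l 532977423)) (l 533202959)) (a (l 532914703) (l 533186575))) (b (b (l 533128975) (l 533092367)) (c (l 533027855) (l 533106191)))))) (b (a (c (b (l 533144335) (l 533057295)) (c (b (l 16698240) (l 533143311)) (b (l 533001999) (l 533047823)))) (b (b (l 532264719) (l 532292879))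 (a (l 532341519) (l 532314895)))) (a (b (c (a (l 532972047) (l 532987151)) (c (l 533094927) (l 533075727))) (a (b (l 532461583) (l 532994831)) (b (l 533010447) (l 533002255)))) (b (b (l 532567823) (l 532531471)) (c (l 533152527) (c (l 533068047) (l 533027087))))))) (b (a (a (b (b (a (l 533027599) (l 532999439)) (l 532237583)) (a (l 532288271) (l 532261647))) (b (a (l 532181519) (l 532153871)) (a (l 532235279) (l 532208911)))) (a (b (a (l 532126223) (l 532098575)) (a (l 532182543) (l 532156431))) (b (c (l 532949519) (a (l 532780303) (l 532752399))) (a (l 532130575) (l 532104463))))) (a (a (b (a (l 532573967) (l 532562703)) (b (l 532529167) (a (l 533031439) (l 533043471)))) (b (c (l 533070095) (l 532966927)) (c (l 533002255) (c (l 533033487) (l 532932623))))) (c (b (c (l 533072655) (l 533297679)) (c (l 533274895) (l 533586447))) (b (c (a (l 532964367) (l 532913935)) (a (l 532594191) (l 532810767))) (a (l 532934415) (l 532884495))))))), by decide +kernel⟩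

def k38_A00mm_202_s3 : ∃ t, chk3 f_A00mm_202_s3 t 29 18 1 = true :=
  ⟨(a (a (a (a (b (b (l 532016399) (l 532078863)) (b (l 532119311) (l 532141583))) (b (b (c (l 532882959) (l 532696847)) (l 532053007)) (b (l 532094735) (l 532117775)))) (a (b (b (l 533035791) (c (l 532921871) (l 532733967))) (b (l 532070415) (l 532093967))) (b (b (l 533008655) (c (l 532897039) (l 532707855))) (b (l 532046095) (l 532070415))))) (b (a (a (b (l 532982031) (l 531976463)) (b (l 531881743) (l 531951375))) (b (a (l 531855631) (l 531830031)) (c (l 532809999) (a (l 532630543) (l 532604943))))) (a (a (b (l 532022031) (l 532046863)) (b (a (l 532809487) (l 532797711)) (l 532560399))) (b (c (l 532859407) (a (l 532677903) (l 532653839))) (a (l 532268815) (l 532514319)))))) (a (b (b (a (a (l 531670543) (c (l 532677391) (l 532484879))) (a (c (l 532653071) (l 532460303)) (c (l 532629519) (l 532436239)))) (a (c (l 532760591) (a (l 532579343) (l 532553999))) (a (a (l 532100111) (l 531819279)) (a (l 531806735) (l 531794447))))) (c (a (b (l 532813583)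 (l 532841743)) (b (l 532768015) (l 532797711))) (a (b (a (l 532630031) (l 532606479)) (l 531838479)) (b (a (l 532582927) (l 532559631)) (a (l 532609807) (l 532587023)))))) (b (a (b (a (c (l 532606735) (l 532412943)) (c (l 532584463) (l 532390671))) (c (a (l 532675343) (l 532651791)) (a (l 532747279) (l 532723215)))) (a (b (l 533006863) (b (l 532518927) (l 532551439))) (b (l 532987151) (c (l 532611087) (l 532682255))))) (a (c (b (l 532855823) (l 532754191)) (b (b (a (l 532527631) (l 532504079)) (l 532801807)) (a (l 532564495) (l 532542223)))) (a (b (c (l 532842511) (b (l 532757519) (l 532500495))) (l 532894991)) (b (b (a (l 531758863) (l 532555535)) (l 532583695)) (l 4))))))), by decide +kernel⟩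

def k39_A00mm_202_s3 : ∃ t, chk3 f_A00mm_202_s3 t 15 18 1 = true :=
  ⟨(a (a (a (b (b (a (a (l 532431887) (l 532682511)) (a (l 532664335) (l 532914703))) (a (a (l 532227599) (l 532209679)) (a (l 532192015) (l 531637007)))) (a (b (b (a (l 532542223) (l 532524559)) (l 4)) (l 4)) (l 4))) (b (b (a (a (l 532896271) (c (l 532433679) (l 532241423))) (a (c (l 532414991) (l 532223247)) (c (l 532396303) (l 532473359)))) (a (a (c (l 532518415) (l 532322063)) (l 4)) (l 4))) (l 4))) (l 4)) (l 4)), by decide +kernel⟩

def k40_A00mm_202_s3 : ∃ t, chk3 f_A00mm_202_s3 t 56 19 1 = true :=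
  ⟨(a (b (b (a (a (c (l 532918799) (l 533063695)) (c (l 532918287) (l 533064463))) (c (c (l 532890383) (l 532952847)) (c (l 533027087) (l 533044495)))) (c (a (c (a (l 532894479) (l 532893199)) (l 532952335)) (a (l 532922127) (l 532924943))) (a (a (l 533051407) (l 533039887)) (a (l 533027855) (l 533014799))))) (b (a (c (a (l 532924431) (l 532922895)) (a (c (l 533014287) (l 532935695)) (l 532496143))) (a (b (l 532718351) (l 532449039)) (b (l 532990223) (l 532720399)))) (c (a (a (l 532925967) (l 532922895)) (l 533190415)) (c (a (c (l 532946447) (l 533045263)) (l 533177359)) (a (a (b (l 532877839) (l 532838159)) (l 532445455)) (a (l 532568847) (l 532556559))))))) (b (a (a (b (c (l 532926735) (l 533068303)) (c (l 532930063) (l 533000463))) (b (l 532601871) (c (l 532937743) (l 532984847)))) (b (c (l 532945679) (l 532758287)) (c (l 532951567) (l 532389647)))) (b (a (c (l 532934415) (a (l 532928527) (l 532913423))) (a (c (l 532949775) (l 532897551)) (l 532291855))) (c (a (l 532932111) (l 532954383)) (a (a (l 532315919) (l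 532301583)) (c (l 532855311) (l 532503311))))))), by decide +kernel⟩

def k41_A00mm_202_s3 : ∃ t, chk3 f_A00mm_202_s3 t 57 19 1 = true :=
  ⟨(b (a (a (b (c (l 532960527) (l 532725263)) (c (l 532968207) (l 532390927))) (b (b (a (l 533044751) (l 533052687)) (l 532500495)) (a (l 532456207) (l 532441871)))) (c (b (c (l 533364751) (l 533639695)) (c (l 532965647) (l 532984847))) (b (a (c (l 532974607) (l 532872719)) (a (l 532898063) (l 532878095))) (a (c (l 532912655) (l 532545551)) (c (l 532883727) (l 532782095)))))) (b (c (a (c (l 532949775) (l 532964879)) (c (l 532977935) (l 532912143))) (c (a (a (l 532901135) (l 532871439)) (a (l 532842255) (l 532813839))) (a (a (l 532542991) (l 532778767)) (a (l 532746767) (l 532715279))))) (a (a (a (a (l 532338703) (l 532331791)) (l 532053007)) (a (l 532039439) (l 532025871))) (a (a (l 532012303) (l 531998991)) (a (l 531985679) (l 531972623)))))), by decide +kernel⟩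

def k42_A00mm_202_s3 : ∃ t, chk3 f_A00mm_202_s3 t 29 19 1 = true :=
  ⟨(a (a (a (b (a (b (c (l 533018639) (l 532857103)) (l 532373007)) (b (c (l 533023759) (l 532835599)) (l 532091151))) (c (l 532878095) (b (l 532199951) (l 531859983)))) (b (c (b (l 532991503) (l 532963855)) (a (b (l 532812815) (l 532515087)) (b (l 532789519) (l 532231695)))) (b (a (l 532544527) (l 532531727)) (l 4)))) (b (c (b (a (b (l 532944399) (l 532950543)) (a (l 532915471) (l 532893711))) (a (l 532935951) (c (l 532945935) (l 532859663)))) (a (a (b (l 532765967) (l 532081423)) (b (b (l 532739087) (l 532745231)) (b (l 532747279) (l 532725263)))) (b (a (b (l 532715791) (l 532721935)) (l 532696079)) (c (a (l 532771855) (l 532753679)) (a (l 532661519) (l 532910863)))))) (a (a (b (l 532519183) (l 4)) (l 4)) (l 4)))) (a (b (b (a (c (l 532860687) (l 531855887)) (a (l 532465423) (l 532242191))) (a (a (b (l 532786959) (l 4)) (l 4)) (l 4))) (l 4)) (l 4))), by decide +kernel⟩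

def k43_A00mm_202_s3 : ∃ t, chk3 f_A00mm_202_s3 t 15 19 1 = true :=
  ⟨(l 4), by decide +kernel⟩

def k44_A00mm_202_s3 : ∃ t, chk3 f_A00mm_202_s3 t 24 10 1 = true :=
  ⟨(b (a (a (b (c (l 533286927) (l 16635648)) (b (l 16628296) (l 16636160))) (b (b (a (l 16619904) (l 16623520)) (l 16638656)) (c (b (l 16637464) (l 16645040)) (b (l 16633024) (l 16641216))))) (b (c (c (l 16639072) (a (l 16633352) (l 16651248))) (b (a (l 16626160) (l 16633776)) (a (l 16632896) (l 16640520)))) (a (c (c (l 16691104) (l 16668544)) (b (l 16640472) (l 16648656))) (c (b (l 16652072) (l 16659688)) (b (l 16648096) (l 16656280)))))) (c (a (b (b (l 16691168) (l 16698896)) (b (l 16706640) (l 16693328))) (b (a (b (l 16659984) (l 16667736)) (b (l 16667432) (l 16675200))) (a (b (l 16675480) (l 16683192)) (b (l 16703944) (l 533335567))))) (a (b (b (l 16666864) (l 16675168)) (b (l 16683464) (l 16691632))) (b (a (b (l 16656944) (l 16665232)) (b (l 16664560) (l 16693816))) (a (b (l 16673488) (l 16681680)) (b (l 16691584) (l 533277455))))))), by decide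 +kernel⟩

def k45_A00mm_202_s3 : ∃ t, chk3 f_A00mm_202_s3 t 25 10 1 = true :=
  ⟨(b (a (b (a (c (b (l 16625264) (l 16652552)) (b (l 16662520) (l 16669280))) (c (b (b (l 16652440) (l 16655440)) (l 16670760)) (b (c (l 16650760) (l 16648192)) (l 533355279)))) (a (c (b (l 16659640) (l 16688272)) (b (l 16666376) (l 16674568))) (b (c (l 16677896) (l 533346319)) (c (l 533199119) (l 533090575))))) (b (b (b (c (a (l 16660312) (l 532652559)) (a (l 16656120) (l 533327119))) (c (a (l 16663336) (l 16676672)) (a (l 16659328) (l 533301519)))) (a (c (l 533439759) (c (l 16665528) (l 16673856))) (a (c (l 16679512) (l 533014799)) (c (l 533121807) (l 532994575))))) (a (a (b (l 533310735) (l 533384975)) (b (a (l 533093135) (l 533082383)) (l 533362703))) (c (b (c (l 16694624) (l 16693352)) (c (l 16702280) (l 16701208))) (b (a (l 533000975) (l 532979215)) (a (l 533011471) (l 532989199))))))) (a (b (a (b (c (l 16685560) (l 533154831)) (c (l 533262863) (l 533177615))) (b (c (l 533207823) (l 533109007)) (c (l 533219855) (l 533131535)))) (a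 (b (c (l 533277455) (l 533203727)) (c (l 533293839) (l 533232399))) (b (c (l 533234703) (l 533157647)) (a (l 533233935) (l 533211919))))) (b (a (a (b (l 533397775) (l 533414671)) (b (l 533375247) (a (l 533129231) (l 533117711)))) (c (b (a (l 533131279) (l 533109263)) (a (l 533143055) (l 533120783))) (b (a (l 533028623) (l 533005583)) (a (l 533050127) (l 533026831))))) (a (a (b (l 533166351) (l 533189391)) (b (a (l 533149455) (l 533137935)) (l 533435151))) (b (c (a (l 533158159) (l 533135887)) (a (l 533075727) (l 533052175))) (a (c (l 533176335) (l 533104655)) (b (l 533114895) (l 533127183)))))))), by decide +kernel⟩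

def k46_A00mm_202_s3 : ∃ t, chk3 f_A00mm_202_s3 t 26 20 1 = true :=
  ⟨(a (b (c (a (a (b (l 533149711) (l 533102351)) (b (l 533132815) (l 533082895))) (b (c (l 16689928) (b (l 16689704) (l 16687576))) (a (l 533063951) (l 533045263)))) (a (b (a (l 533287695) (l 533271055)) (a (l 532974607) (l 532955151))) (b (a (c (l 533022991) (l 532947727)) (c (l 533007631) (l 533201167))) (a (l 533204751) (c (l 532953359) (l 532879631)))))) (b (a (a (c (l 533079567) (l 532957455)) (c (l 533058575) (l 533204495))) (a (b (l 532983567) (l 532980239)) (b (l 532963343) (l 532958991)))) (a (a (c (l 533080079) (l 532966671)) (c (l 533058575) (l 532944399))) (a (c (l 533036815) (l 532922383)) (c (l 533015311) (l 532900879)))))) (b (c (a (b (c (b (l 16694424) (l 16697504)) (a (l 533057551) (l 533043727))) (a (l 533027087) (l 533277967))) (a (b (c (l 533083407) (l 533030671)) (c (l 533017615) (l 532964623))) (b (c (l 533070607) (l 533018383)) (c (l 533000463) (l 532947983))))) (a (b (a (a (l 532960783) (l 532953871)) (a (l 533215759) (l 533209615)))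 (a (c (l 532935439) (l 532862223)) (a (l 532887311) (l 532879119)))) (b (a (b (l 532952335) (l 532913679)) (b (l 532941839) (l 532900879))) (a (a (l 532870927) (l 533131279)) (b (l 532865807) (l 532838159)))))) (c (a (b (a (l 532996367) (l 532976143)) (a (l 532993807) (l 532972303))) (b (b (l 533085711) (l 533211151)) (a (l 532951311) (l 532930063)))) (a (b (a (b (l 532876559) (l 532873487)) (b (l 532857359) (l 532853519))) (a (l 533147919) (c (l 532890383) (l 532824847)))) (b (a (b (l 532838671) (l 532834063)) (b (l 532819983) (l 532814095))) (a (l 532838415) (l 532817935))))))), by decide +kernel⟩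

def k47_A00mm_202_s3 : ∃ t, chk3 f_A00mm_202_s3 t 26 21 1 = true :=
  ⟨(a (b (b (a (a (c (l 533086991) (l 532982543)) (c (l 533064719) (l 532959759))) (a (c (l 533042447) (l 533205519)) (b (l 532968719) (l 533242895)))) (a (a (c (l 533098255) (l 533003279)) (c (l 533075727) (l 533248271))) (a (c (l 533052943) (b (l 532951055) (l 532962063))) (c (l 533029903) (b (l 532928015) (l 532938511)))))) (a (b (a (c (l 533113359) (l 533028367)) (b (l 533314319) (l 533190927))) (a (c (l 533131791) (l 533325583)) (b (l 533068303) (l 533080591)))) (b (a (c (b (l 533063439) (l 533071631)) (b (l 532974095) (l 532987151))) (c (b (l 533040143) (l 533048335)) (b (l 532950287) (l 532963087)))) (c (a (b (l 533080847) (l 533090831)) (b (l 533057295) (l 533067279))) (a (b (l 533001231) (l 533016335)) (b (l 532976911) (l 532991759))))))) (a (b (a (b (b (l 532946703) (l 533086223)) (c (l 533006863) (b (l 532905231) (l 532915471)))) (b (c (l 532975631) (a (l 532876047) (l 532865295))) (c (l 533117967) (a (l 532893199) (l 532881935))))) (a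 (b (c (b (l 533016591) (l 533024527)) (a (l 532938767) (l 532926991))) (a (b (l 533002511) (l 533014543)) (b (l 532990223) (l 533002255)))) (b (c (a (l 533002511) (l 532990223)) (a (l 532914959) (l 532903183))) (a (b (l 532977935) (l 532989967)) (c (l 533006863) (l 533063439)))))) (a (b (b (c (l 532953359) (l 533117455)) (c (l 532960271) (b (l 532860687) (l 532869647)))) (b (c (l 533105935) (b (l 532880143) (l 532891407))) (c (b (l 532983311) (l 532992015)) (a (l 532917007) (l 532904719))))) (b (b (c (l 532931087) (l 532827663)) (b (l 532890639) (l 533031183))) (b (c (l 532947471) (b (l 532856847) (l 532867599))) (c (b (l 532957967) (l 532966415)) (b (l 532879631) (l 532892943)))))))), by decide +kernel⟩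

def k48_A00mm_202_s3 : ∃ t, chk3 f_A00mm_202_s3 t 54 40 1 = true :=
  ⟨(c (a (a (b (b (l 533055759) (l 533012751)) (c (l 532983567) (l 532931599))) (b (b (l 533044495) (l 533000207)) (c (l 532967183) (l 533183759)))) (c (b (a (l 533034767) (l 533281039)) (a (l 532951311) (l 532935951))) (b (b (a (l 16718248) (l 532995343)) (a (l 532961551) (l 532950287))) (b (a (l 532918543) (l 532904975)) (a (l 532882959) (l 532866319)))))) (a (b (b (a (l 533065999) (c (l 532956431) (l 532884239))) (a (l 532888591) (l 533011215))) (b (a (l 532850959) (l 532836623)) (a (l 532821007) (l 532804111)))) (b (a (b (c (l 532945423) (l 532873743)) (c (l 532900367) (l 532828687))) (b (c (l 532665871) (l 533131279)) (c (l 532889359) (l 532952079)))) (a (b (c (l 532857103) (l 532785679)) (l 532921359)) (b (c (l 532843791) (l 532772367)) (c (l 532804879) (l 532733967))))))), by decide +kernel⟩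

def k49_A00mm_202_s3 : ∃ t, chk3 f_A00mm_202_s3 t 55 40 1 = true :=
  ⟨(a (c (b (a (b (l 533005071) (l 532965135)) (b (l 532979215) (l 532952847))) (b (a (l 532583695) (c (l 532931343) (l 532880399))) (a (l 532675855) (c (l 532886799) (l 532835087))))) (b (b (c (a (l 532922639) (l 532910351)) (a (l 532985103) (a (l 532841743) (l 532835343)))) (a (b (l 532988687) (l 533100303)) (a (l 532968463) (l 532962319)))) (b (a (a (l 532800271) (l 533062671)) (a (l 532922639) (l 532916495))) (a (a (l 532758799) (l 532750863)) (a (l 532743183) (l 532736015)))))) (b (c (a (b (l 532956175) (l 532940559)) (b (l 532937487) (l 533195791))) (a (c (b (l 532897039) (a (l 532856079) (l 532849423))) (b (a (l 532828431) (l 532821263)) (a (l 532784655) (l 532777743)))) (b (a (c (l 532886543) (l 532813839)) (l 532441103)) (c (a (l 532842511) (l 532835343)) (a (l 532770575) (l 532763151)))))) (a (c (a (b (l 532898063) (l 532851727)) (b (l 532891919) (l 532845327))) (b (a (l 532910351) (c (l 532804111) (l 532732687))) (a (c (l 532763407) (l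 532692495)) (c (l 532757007) (l 532819983))))) (c (a (b (l 532885519) (l 532839183)) (b (l 532878863) (l 532832783))) (b (a (c (l 532797455) (l 532726031)) (c (l 532790543) (l 532718863))) (a (a (l 532852239) (l 532849167)) (a (l 532845839) (l 532708367)))))))), by decide +kernel⟩

def k50_A00mm_202_s3 : ∃ t, chk3 f_A00mm_202_s3 t 27 41 1 = true :=
  ⟨(a (c (b (a (c (l 532863503) (b (l 532886031) (l 532876047))) (a (a (l 532881679) (l 533139983)) (b (l 532864783) (l 532850959)))) (a (b (l 532362255) (l 533166095)) (a (l 532866575) (l 532845327)))) (b (a (b (a (l 532801039) (l 532781839)) (a (l 532794127) (l 532773903))) (b (a (l 532762639) (c (l 532777231) (l 532707343))) (a (l 532753423) (l 532732687)))) (a (a (l 533065487) (b (l 532774927) (l 532777743))) (a (b (l 532754191) (l 532756239)) (c (l 532764943) (l 532968719)))))) (b (a (c (b (a (l 532845839) (l 532424463)) (a (l 532830479) (l 532809743))) (b (a (a (l 532729103) (l 532719375)) (a (l 532709903) (l 532700175))) (a (c (l 532744719) (l 532676367)) (a (l 532695823)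 (l 532685071))))) (c (b (a (c (l 532833551) (l 532781839)) (a (l 532527375) (l 532250639))) (a (l 532923151) (b (l 532770575) (l 532765967)))) (b (a (c (l 532988687) (a (l 532654351) (l 532645135))) (a (a (l 532674831) (l 532670479)) (a (l 532666127) (l 532796175)))) (a (c (l 532836367) (b (l 532633871) (l 532632591))) (a (a (l 532655119) (l 532649743)) (b (l 532643087) (l 532640271))))))) (a (c (a (l 532824079) (l 532936975)) (a (b (l 532711439) (l 532712975)) (b (l 532689679) (l 532690703)))) (b (c (a (l 532783375) (l 532896271)) (a (c (l 532699919) (l 532633103)) (a (l 532651023) (a (l 532642575) (l 532636943))))) (c (a (l 532779791) (l 532758031)) (a (l 532668431) (c (l 532677135) (l 532612367)))))))), by decide +kernel⟩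

def k51_A00mm_202_s3 : ∃ t, chk3 f_A00mm_202_s3 t 27 21 1 = true :=
  ⟨(a (b (a (c (b (a (l 532909071) (l 532886799)) (a (l 532913935) (l 532890639))) (b (a (l 533074447) (c (l 532812815) (l 532753423))) (a (b (l 532815887) (l 532824079)) (b (l 532793359) (l 532801039))))) (c (b (a (l 532864783) (l 532842767)) (a (l 532867599) (l 532844559))) (b (a (c (l 532790799) (l 532731407)) (c (l 532768783) (l 532709135))) (a (a (l 532780047) (l 532768527)) (a (l 532757007) (l 532745487)))))) (a (b (a (c (l 532923151) (b (l 532833551) (l 532843791))) (c (l 533167375) (b (l 532809999) (l 532819983)))) (c (a (b (l 532932879) (l 532940559)) (b (l 532907791) (l 532915215))) (a (b (l 532855311) (l 532867855)) (b (l 532830991) (l 532843023))))) (b (b (a (c (l 532872719) (l 532786447)) (c (l 532848911) (l 532762895))) (a (c (l 532877327) (l 532795919)) (c (l 532853263) (l 532905999)))) (c (a (b (l 532883215) (l 532889871)) (b (l 532858383) (l 532864527))) (a (b (l 532806671) (l 532952335)) (b (a (l 532788239) (l 532775951)) (a (l 532799503)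 (l 4)))))))) (b (c (a (b (a (l 532820495) (l 532798479)) (a (l 533090063) (l 532932879))) (b (a (l 533044751) (b (l 532755215) (l 532753423))) (a (b (l 532775439) (l 532776463)) (b (l 532752911) (l 4))))) (a (b (a (a (l 532723215) (l 532711951)) (a (l 532700687) (l 532689423))) (a (a (l 532733967) (l 532722447)) (c (l 532999439) (b (l 532673039) (l 532680463))))) (b (a (a (l 532677903) (l 532666383)) (a (l 532654863) (l 532777487))) (b (a (c (l 532705807) (l 532649487)) (c (l 532682255) (l 532625679))) (a (c (l 532710159) (l 532656655)) (l 4)))))) (a (b (b (a (a (l 532791823) (l 532780047)) (c (l 532801807) (c (l 532739599) (l 532689167)))) (a (a (l 532932111) (l 532886543)) (l 4))) (l 4)) (l 4)))), by decide +kernel⟩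

def k52_A00mm_202_s3 : ∃ t, chk3 f_A00mm_202_s3 t 56 40 1 = true :=
  ⟨(a (a (b (c (a (l 532928015) (l 532922639)) (a (b (l 532432655) (c (l 532827663) (l 532754959))) (b (l 532289551) (a (l 532786447) (l 532782095))))) (a (c (b (l 532872207) (l 532826383)) (a (b (l 532750607) (l 532973327)) (b (l 532746767) (l 532969999)))) (c (b (l 532865295) (l 532819727)) (a (b (l 532742927) (l 532966415)) (b (l 532738831) (l 532694287)))))) (b (c (c (l 532891919) (l 533227023)) (a (b (l 532279823) (l 532372495)) (b (l 532537615) (l 532496655)))) (b (c (c (l 532879119) (l 532826127)) (a (a (l 532734735) (l 532730127)) (a (l 532725519) (l 532720399)))) (c (a (l 532812815) (l 532805391)) (a (a (l 532690447) (l 532686351)) (a (l 532681999) (l 532677647))))))) (a (a (c (b (l 532905743) (c (l 532845071) (l 532791055))) (b (c (l 532810767) (l 532465679)) (b (l 532175375) (a (l 532672783) (l 532667407))))) (b (b (l 532182287) (c (l 532873999) (l 532739855))) (c (l 532809487) (a (b (l 532702991) (l 532661519)) (l 532675087))))) (c (b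 (l 532877327) (l 532792591)) (b (c (l 532507663) (l 532561423)) (a (l 532664079) (l 532649231)))))), by decide +kernel⟩

def k53_A00mm_202_s3 : ∃ t, chk3 f_A00mm_202_s3 t 112 41 1 = true :=
  ⟨(b (a (a (b (b (c (l 532791055) (l 532667663)) (c (l 532769807) (l 532645903))) (c (l 533020943) (b (l 532632079) (l 532629007)))) (b (b (c (l 532784655) (l 532661007)) (c (l 532761615) (l 532637455))) (c (b (l 532745231) (l 532739599)) (b (l 532621327) (l 532617743))))) (b (b (c (a (l 532778255) (l 532771343)) (a (l 532654095) (l 532646415))) (c (a (l 532754447) (l 532747791)) (a (l 532764175) (c (l 532657679) (l 532854287))))) (b (a (c (l 532735247) (l 532610831)) (c (l 532725775) (l 532600591))) (a (c (l 532728847) (l 532606223)) (l 532661007))))) (a (c (a (b (l 532746255) (l 532741903)) (b (b (l 532736783) (l 532734223)) (l 532730895))) (b (a (b (l 532628495) (l 532628239)) (b (l 532617231) (c (l 532649487) (l 532582159)))) (b (a (l 532628495) (b (l 532616975) (l 532616975))) (l 532623119)))) (a (b (a (a (b (l 532674575)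 (l 532673039)) (l 532670991)) (l 532666639)) (c (b (a (l 532723727) (l 532718351)) (l 532718863)) (b (a (c (l 532640527) (l 532573967)) (b (l 532602383) (a (l 532603919) (l 532601103)))) (a (l 532608783) (l 4))))) (b (l 532792591) (b (l 532656143) (l 4)))))), by decide +kernel⟩

def k54_A00mm_202_s3 : ∃ t, chk3 f_A00mm_202_s3 t 113 41 1 = true :=
  ⟨(b (c (b (a (a (a (l 532754447) (l 532750351)) (a (l 532746255) (l 532741135))) (l 532727311)) (b (a (a (b (l 532723215) (l 532712463)) (a (l 532715023) (l 532708111))) (l 532694287)) (a (a (l 532707343) (a (l 532699407) (b (l 532693263) (l 4)))) (l 4)))) (c (a (b (a (a (l 532663823) (l 532659471)) (a (l 532654351) (l 532648207))) (a (b (b (l 532632335) (l 532621839)) (l 532617743)) (b (a (a (b (l 532628239) (l 532615951)) (l 532622351)) (l 532615951)) (a (l 532609039) (b (a (l 532334863) (l 4)) (l 4)))))) (b (l 532631055) (b (l 532599055) (l 4)))) (b (a (a (a (l 532859919) (l 532855311)) (a (l 532849679) (l 532574223))) (l 532555023)) (a (a (b (b (l 532828687) (l 532549647))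 (l 532546319)) (b (b (a (l 532823311) (l 532548367)) (a (a (l 532543759) (l 532544783)) (l 532537871))) (a (l 532537359) (b (b (l 532799247) (l 4)) (l 4))))) (b (l 532523791) (l 4)))))) (a (a (b (l 532646927) (l 4)) (l 4)) (l 4))), by decide +kernel⟩

def k55_A00mm_202_s3 : ∃ t, chk3 f_A00mm_202_s3 t 57 20 1 = true :=
  ⟨(b (b (c (a (c (l 532871951) (l 533075983)) (a (l 532806927) (l 532783887))) (a (a (a (l 532714767) (l 532699663)) (a (l 532684815) (l 532669967))) (a (a (l 532655375) (l 532640783)) (a (l 532626191) (l 4))))) (a (c (a (l 532769807) (l 532747279)) (a (a (l 532634639) (l 532620047)) (a (l 532605455) (l 532590863)))) (l 4))) (a (a (a (b (b (l 532646671) (l 4)) (l 4)) (l 4)) (l 4)) (l 4))), by decide +kernel⟩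

def k56_A00mm_202_s3 : ∃ t, chk3 f_A00mm_202_s3 t 29 20 1 = true :=
  ⟨(l 4), by decide +kernel⟩

def k57_A00mm_202_s3 : ∃ t, chk3 f_A00mm_202_s3 t 15 20 1 = true :=
  ⟨(l 4), by decide +kernel⟩

def k58_A00mm_202_s3 : ∃ t, chk3 f_A00mm_202_s3 t 7 21 1 = true :=
  ⟨(a (a (a (a (b (b (a (a (b (l 532688655) (l 532823311)) (b (l 532677391) (l 4))) (l 4)) (l 4)) (l 4)) (l 4)) (l 4)) (l 4)) (l 4)), by decide +kernel⟩

def k59_A00mm_202_s3 : ∃ t, chk3 f_A00mm_202_s3 t 24 11 1 = true :=
  ⟨(b (a (b (b (c (c (l 16701032) (l 16679648)) (l 16699600)) (a (l 16714664) (c (l 16690744) (l 16689928)))) (a (b (l 16721808) (l 16718272)) (c (b (l 16697800) (l 16704696)) (b (l 16697256) (l 16704360))))) (b (a (c (b (l 16711744) (l 533400591)) (b (l 16689696) (l 16697416))) (b (c (l 533351183) (l 533306127)) (a (l 533357071) (l 533337103)))) (a (c (b (l 533398031) (l 533387023)) (b (l 16725760) (l 16732896))) (c (b (l 533357839) (l 533345551)) (b (l 533335055) (l 533330703)))))) (a (b (a (b (l 16725240) (l 16732240)) (b (c (l 16711624)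 (l 16711448)) (c (l 16739576) (l 16718560)))) (a (b (l 16739264) (l 533471759)) (b (b (l 16744880) (l 16748416)) (l 534220559)))) (b (a (c (b (l 533376271) (l 533366799)) (b (l 16740032) (l 533367311))) (c (b (l 533333263) (l 533321743)) (b (l 533326607) (l 533323023)))) (a (b (a (l 533376783) (l 533352463)) (c (l 16745616) (l 533366543))) (b (a (l 533329167) (l 533307151)) (a (l 533323535) (l 533300751))))))), by decide +kernel⟩

def k60_A00mm_202_s3 : ∃ t, chk3 f_A00mm_202_s3 t 25 11 1 = true :=
  ⟨(b (a (b (a (b (a (l 533300751) (l 533279503)) (a (l 533317391) (l 533297679))) (b (a (l 533257999) (l 533236239)) (a (l 533277967) (l 533257743)))) (a (b (a (l 533320975) (l 533302031)) (a (l 533312015) (l 533293327))) (b (a (l 533283343) (l 533264399)) (l 533265167)))) (b (b (b (a (l 533196559) (a (l 533163023) (l 533140239))) (a (l 533209359) (a (l 533176079) (l 533153295)))) (a (a (l 533237519) (l 533216527)) (a (l 533463823) (b (l 533166863) (l 533179407))))) (a (b (a (l 533245455) (l 533226255)) (l 533227279)) (b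 (b (l 533197071) (l 533196559)) (l 533189135))))) (a (a (b (b (a (l 533303055) (l 533284367)) (a (l 533294863) (l 533275919))) (b (a (l 533287183) (l 533268495)) (a (l 533280271) (l 533261327)))) (b (b (l 533255951) (a (l 533257231) (l 533238287))) (b (a (l 533249551) (l 533230607)) (b (l 533502991) (l 533231119))))) (a (b (a (l 533491727) (l 533204239)) (a (b (l 533211407) (c (l 533199631) (l 533205775))) (l 533188623))) (b (c (l 533450767) (l 533432847)) (b (l 533163279) (l 533156111)))))), by decide +kernel⟩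

def k61_A00mm_202_s3 : ∃ t, chk3 f_A00mm_202_s3 t 52 22 1 = true :=
  ⟨(b (b (b (a (a (l 533117199) (l 533093647)) (a (c (l 533101583) (l 533032207)) (c (l 533078031) (l 533276175)))) (a (a (l 533130511) (l 533107471)) (a (a (l 533089807) (l 533078031)) (a (l 533065999) (l 533053967))))) (a (b (a (l 533144079) (l 533121295)) (a (l 533157903) (l 533135375))) (a (b (a (l 533103887) (l 533092367)) (l 533380879)) (b (a (l 533080335) (l 533068559)) (b (l 533085455) (l 533092879)))))) (b (a (b (a (l 533167375) (l 533147151)) (l 533158159)) (b (a (l 533126159) (b (l 533100303) (l 533107215))) (a (l 533129487) (l 533110031)))) (a (a (l 533160463) (l 533141263)) (a (l 533122063) (l 533102607))))), by decide +kernel⟩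

def k62_A00mm_202_s3 : ∃ t, chk3 f_A00mm_202_s3 t 53 22 1 = true :=
  ⟨(b (a (b (a (b (a (l 533027599) (l 533015311)) (a (l 533041679) (c (l 533059343) (l 532993039)))) (a (b (l 533002767) (c (l 533046543) (l 532980495))) (b (l 533056783) (c (l 533033231) (l 532967439))))) (a (c (a (b (l 533083919) (l 533096463)) (b (l 533071631) (l 533084687))) (b (a (l 533022991) (l 533010447)) (a (l 533040911) (l 533028367)))) (a (b (b (l 533027343) (l 533035023)) (b (l 533042703) (l 533050639))) (b (a (l 533021199) (l 533014543)) (a (b (l 533032719) (l 533040655)) (l 533029903)))))) (b (a (a (b (l 532976911) (l 532989967)) (b (l 532963855) (l 532976655))) (c (b (l 532975631) (l 532985871)) (b (l 532907023) (l 532922127)))) (a (b (a (b (l 533000719) (l 533007887)) (a (l 532994063) (l 532987407))) (a (b (l 533015567) (l 533023247)) (b (a (l 533005071) (l 532998159)) (a (l 533079823) (b (l 533004047) (l 533007887)))))) (b (a (l 532977167) (l 532963599)) (a (b (l 532987919) (a (b (l 532996879) (l 533068047)) (l 532992015))) (l 532977935))))))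 (a (b (a (b (a (b (l 533082895) (l 533090575)) (b (l 533071119) (l 533078799))) (b (l 533090575) (l 533089807))) (b (a (b (a (l 533061903) (l 533055503)) (a (l 533069839) (l 533063695))) (a (b (l 533048847) (l 533057295)) (l 533046031))) (b (a (b (l 533072911) (l 533075983)) (a (c (a (l 533087759) (l 533085199)) (l 533306895)) (l 533058831))) (a (l 533075215) (a (l 533067791) (b (l 533197839) (l 4))))))) (a (a (l 533088015) (l 533078287)) (a (l 533068559) (l 4)))) (b (b (b (a (l 533024271) (a (a (c (l 533029647) (l 532978703)) (l 4)) (l 4))) (a (l 533032463) (l 4))) (b (a (l 533040655) (l 4)) (l 4))) (l 4)))), by decide +kernel⟩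

def k63_A00mm_202_s3 : ∃ t, chk3 f_A00mm_202_s3 t 26 23 1 = true :=
  ⟨(a (b (a (b (a (l 533150991) (l 533131791)) (l 533401103)) (b (a (l 533112335) (l 533092879)) (a (l 533103631) (l 4)))) (a (c (l 533660175) (l 533383951)) (l 4))) (l 4)), by decide +kernel⟩

def k64_A00mm_202_s3 : ∃ t, chk3 f_A00mm_202_s3 t 27 11 1 = true :=
  ⟨(b (a (b (a (a (b (c (b (l 532949263) (l 532958991)) (b (l 532881423) (l 532896015))) (b (c (l 532969487) (l 532911631)) (l 4))) (b (c (b (l 532923407) (l 532932367)) (b (l 532856079) (l 532870159))) (l 4))) (a (a (b (b (l 532873487) (l 4)) (l 4)) (l 4)) (l 4))) (l 4)) (l 4)) (l 4)), by decide +kernel⟩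

def k65_A00mm_202_s3 : ∃ t, chk3 f_A00mm_202_s3 t 7 11 1 = true :=
  ⟨(l 4), by decide +kernel⟩

def k66_A00mm_202_s3 : ∃ t, chk3 f_A00mm_202_s3 t 2 12 1 = true :=
  ⟨(a (a (b (l 6) (a (l 6) (l 16545824))) (a (b (l 16535736) (l 16645608)) (b (b (l 16630160) (l 16644112)) (l 16664040)))) (a (a (b (l 16656672) (b (l 16677600) (l 16648544))) (b (b (l 16754568) (a (l 16679504) (l 16690648))) (a (b (l 16693536) (l 16706608)) (b (l 16704760) (b (l 16714728) (l 16721064)))))) (a (b (a (b (l 16687752) (l 16744160)) (b (l 16741712) (a (l 16753072) (l 16759152)))) (a (b (b (l 16712904) (l 16719752)) (l 16771536)) (b (c (l 16770960) (l 16769568)) (a (l 16759472) (b (l 16741328) (l 16768680)))))) (b (a (b (b (l 16750592) (l 16736712)) (a (l 534888719) (b (l 16726112) (l 16754272)))) (b (a (b (l 16718400) (l 16746456)) (b (l 533540111) (l 16753304))) (a (b (l 16753616) (l 16760784)) (b (l 533585679) (l 533629711))))) (a (b (a (l 535260175) (b (l 16761288) (l 16768096))) (a (l 533758735) (l 533694223))) (a (b (l 534313487) (l 533883407))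 (b (b (l 533676559) (l 533725711)) (l 533803023)))))))), by decide +kernel⟩

def k67_A00mm_202_s3 : ∃ t, chk3 f_A00mm_202_s3 t 3 12 1 = true :=
  ⟨(a (a (a (b (a (b (a (b (l 533478415) (l 533489935)) (b (l 534491919) (l 533693967))) (a (b (l 533515535) (l 533557263)) (b (l 533446159) (l 533485071)))) (b (a (b (l 533158927) (l 533195279)) (b (a (l 533587983) (l 533563407)) (b (l 533136911) (a (l 533318671) (l 533558543))))) (b (a (l 534451215) (b (a (l 533321231) (a (l 533297679) (l 534089743))) (l 533316111))) (a (l 533413391) (l 533342479))))) (b (c (a (a (l 533634063) (a (l 533571855) (l 533530639))) (a (l 533468943) (l 533387791))) (a (a (l 533883919) (a (l 533563663) (l 533529103))) (l 534517007))) (a (a (l 533990927) (a (b (l 533637903) (l 4)) (l 4))) (l 4)))) (b (a (a (a (b (a (b (l 533278735) (l 533272847)) (l 533265935)) (b (c (a (b (l 533250063) (l 533784847)) (l 534043663)) (b (l 533282063) (l 534088719))) (l 4))) (b (l 533251855) (b (b (l 533244943) (l 4)) (l 4)))) (b (b (l 533226511) (l 533220623)) (l 4)))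 (b (a (a (b (a (l 533202703) (l 533192975)) (l 4)) (l 4)) (l 4)) (l 4))) (l 4))) (l 4)) (l 4)), by decide +kernel⟩

def k68_A00mm_202_s3 : ∃ t, chk3 f_A00mm_202_s3 t 1 13 1 = true :=
  ⟨(a (a (a (b (c (l 16644048) (l 16641256)) (a (l 16736160) (l 16667664))) (a (b (l 16666824) (l 63988264647)) (b (b (l 16681288) (l 16649152)) (b (l 139149971495) (l 2))))) (a (b (a (b (l 16702104) (l 16712424)) (a (b (l 16718568) (l 16729216)) (b (l 16730056) (c (l 16762840) (l 16740008))))) (a (b (l 16764360) (c (l 16775744) (l 16773696))) (a (b (l 16760496) (b (l 16747464) (l 2))) (a (b (l 534238223) (l 534738703)) (l 534207759))))) (a (b (b (a (c (l 16763640) (l 16762000)) (a (b (l 16768760) (l 16753664)) (b (l 16753848) (l 534189583)))) (a (b (l 534243599) (l 534229263)) (c (b (l 534274575) (l 534263823)) (b (l 534415375) (l 534132751))))) (l 533907727)) (b (a (b (a (b (l 534915087) (a (l 534168079) (l 534143759))) (c (l 534131471) (l 534024719))) (a (b (l 534178319) (a (l 534173711) (l 534163983))) (b (a (l 534180111) (l 534147087))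 (l 4)))) (b (l 534761743) (l 4))) (a (b (a (c (l 534218767) (l 534083855)) (l 4)) (l 4)) (l 4)))))) (a (a (l 4) (l 4)) (l 4))), by decide +kernel⟩

def k69_A00mm_202_s3 : ∃ t, chk3 f_A00mm_202_s3 t 1 7 1 = true :=
  ⟨(a (a (l 2) (a (l 2) (a (l 2) (l 4)))) (l 4)), by decide +kernel⟩

theorem t70_A00mm_202_s3 : ∃ t, chk3 f_A00mm_202_s3 t 1 12 1 = true := ex3_a k66_A00mm_202_s3 k67_A00mm_202_s3

theorem t71_A00mm_202_s3 : ∃ t, chk3 f_A00mm_202_s3 t 1 6 1 = true := ex3_b t70_A00mm_202_s3 k68_A00mm_202_s3

theorem t72_A00mm_202_s3 : ∃ t, chk3 f_A00mm_202_s3 t 1 3 1 = true := ex3_b t71_A00mm_202_s3 k69_A00mm_202_s3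

theorem t73_A00mm_202_s3 : ∃ t, chk3 f_A00mm_202_s3 t 26 22 1 = true := ex3_a k61_A00mm_202_s3 k62_A00mm_202_s3

theorem t74_A00mm_202_s3 : ∃ t, chk3 f_A00mm_202_s3 t 26 11 1 = true := ex3_b t73_A00mm_202_s3 k63_A00mm_202_s3

theorem t75_A00mm_202_s3 : ∃ t, chk3 f_A00mm_202_s3 t 13 11 1 = true := ex3_a t74_A00mm_202_s3 k64_A00mm_202_s3

theorem t76_A00mm_202_s3 : ∃ t, chk3 f_A00mm_202_s3 t 12 11 1 = true := ex3_a k59_A00mm_202_s3 k60_A00mm_202_s3

theorem t77_A00mm_202_s3 : ∃ t, chk3 f_A00mm_202_s3 t 6 11 1 = true := ex3_a t76_A00mm_202_s3 t75_A00mm_202_s3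

theorem t78_A00mm_202_s3 : ∃ t, chk3 f_A00mm_202_s3 t 3 11 1 = true := ex3_a t77_A00mm_202_s3 k65_A00mm_202_s3

theorem t79_A00mm_202_s3 : ∃ t, chk3 f_A00mm_202_s3 t 56 41 1 = true := ex3_a k53_A00mm_202_s3 k54_A00mm_202_s3

theorem t80_A00mm_202_s3 : ∃ t, chk3 f_A00mm_202_s3 t 56 20 1 = true := ex3_b k52_A00mm_202_s3 t79_A00mm_202_s3

theorem t81_A00mm_202_s3 : ∃ t, chk3 f_A00mm_202_s3 t 28 20 1 = true := ex3_a t80_A00mm_202_s3 k55_A00mm_202_s3

theorem t82_A00mm_202_s3 : ∃ t, chk3 f_A00mm_202_s3 t 14 20 1 = true := ex3_a t81_A00mm_202_s3 k56_A00mm_202_s3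

theorem t83_A00mm_202_s3 : ∃ t, chk3 f_A00mm_202_s3 t 7 20 1 = true := ex3_a t82_A00mm_202_s3 k57_A00mm_202_s3

theorem t84_A00mm_202_s3 : ∃ t, chk3 f_A00mm_202_s3 t 7 10 1 = true := ex3_b t83_A00mm_202_s3 k58_A00mm_202_s3

theorem t85_A00mm_202_s3 : ∃ t, chk3 f_A00mm_202_s3 t 27 40 1 = true := ex3_a k48_A00mm_202_s3 k49_A00mm_202_s3

theorem t86_A00mm_202_s3 : ∃ t, chk3 f_A00mm_202_s3 t 27 20 1 = true := ex3_b t85_A00mm_202_s3 k50_A00mm_202_s3

theorem t87_A00mm_202_s3 : ∃ t, chk3 f_A00mm_202_s3 t 27 10 1 = true := ex3_b t86_A00mm_202_s3 k51_A00mm_202_s3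

theorem t88_A00mm_202_s3 : ∃ t, chk3 f_A00mm_202_s3 t 26 10 1 = true := ex3_b k46_A00mm_202_s3 k47_A00mm_202_s3

theorem t89_A00mm_202_s3 : ∃ t, chk3 f_A00mm_202_s3 t 13 10 1 = true := ex3_a t88_A00mm_202_s3 t87_A00mm_202_s3

theorem t90_A00mm_202_s3 : ∃ t, chk3 f_A00mm_202_s3 t 12 10 1 = true := ex3_a k44_A00mm_202_s3 k45_A00mm_202_s3

theorem t91_A00mm_202_s3 : ∃ t, chk3 f_A00mm_202_s3 t 6 10 1 = true := ex3_a t90_A00mm_202_s3 t89_A00mm_202_s3

theorem t92_A00mm_202_s3 : ∃ t, chk3 f_A00mm_202_s3 t 3 10 1 = true := ex3_a t91_A00mm_202_s3 t84_A00mm_202_s3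

theorem t93_A00mm_202_s3 : ∃ t, chk3 f_A00mm_202_s3 t 3 5 1 = true := ex3_b t92_A00mm_202_s3 t78_A00mm_202_s3

theorem t94_A00mm_202_s3 : ∃ t, chk3 f_A00mm_202_s3 t 28 19 1 = true := ex3_a k40_A00mm_202_s3 k41_A00mm_202_s3

theorem t95_A00mm_202_s3 : ∃ t, chk3 f_A00mm_202_s3 t 14 19 1 = true := ex3_a t94_A00mm_202_s3 k42_A00mm_202_s3

theorem t96_A00mm_202_s3 : ∃ t, chk3 f_A00mm_202_s3 t 7 19 1 = true := ex3_a t95_A00mm_202_s3 k43_A00mm_202_s3

theorem t97_A00mm_202_s3 : ∃ t, chk3 f_A00mm_202_s3 t 14 18 1 = true := ex3_a k37_A00mm_202_s3 k38_A00mm_202_s3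

theorem t98_A00mm_202_s3 : ∃ t, chk3 f_A00mm_202_s3 t 7 18 1 = true := ex3_a t97_A00mm_202_s3 k39_A00mm_202_s3

theorem t99_A00mm_202_s3 : ∃ t, chk3 f_A00mm_202_s3 t 7 9 1 = true := ex3_b t98_A00mm_202_s3 t96_A00mm_202_s3

theorem t100_A00mm_202_s3 : ∃ t, chk3 f_A00mm_202_s3 t 30 34 1 = true := ex3_a k33_A00mm_202_s3 k34_A00mm_202_s3

theorem t101_A00mm_202_s3 : ∃ t, chk3 f_A00mm_202_s3 t 15 34 1 = true := ex3_a t100_A00mm_202_s3 k35_A00mm_202_s3

theorem t102_A00mm_202_s3 : ∃ t, chk3 f_A00mm_202_s3 t 15 17 1 = true := ex3_b t101_A00mm_202_s3 k36_A00mm_202_s3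

theorem t103_A00mm_202_s3 : ∃ t, chk3 f_A00mm_202_s3 t 14 17 1 = true := ex3_a k31_A00mm_202_s3 k32_A00mm_202_s3

theorem t104_A00mm_202_s3 : ∃ t, chk3 f_A00mm_202_s3 t 7 17 1 = true := ex3_a t103_A00mm_202_s3 t102_A00mm_202_s3

theorem t105_A00mm_202_s3 : ∃ t, chk3 f_A00mm_202_s3 t 29 16 1 = true := ex3_a k28_A00mm_202_s3 k29_A00mm_202_s3

theorem t106_A00mm_202_s3 : ∃ t, chk3 f_A00mm_202_s3 t 28 16 1 = true := ex3_a k26_A00mm_202_s3 k27_A00mm_202_s3

theorem t107_A00mm_202_s3 : ∃ t, chk3 f_A00mm_202_s3 t 14 16 1 = true := ex3_a t106_A00mm_202_s3 t105_A00mm_202_s3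

theorem t108_A00mm_202_s3 : ∃ t, chk3 f_A00mm_202_s3 t 7 16 1 = true := ex3_a t107_A00mm_202_s3 k30_A00mm_202_s3

theorem t109_A00mm_202_s3 : ∃ t, chk3 f_A00mm_202_s3 t 7 8 1 = true := ex3_b t108_A00mm_202_s3 t104_A00mm_202_s3

theorem t110_A00mm_202_s3 : ∃ t, chk3 f_A00mm_202_s3 t 7 4 1 = true := ex3_b t109_A00mm_202_s3 t99_A00mm_202_s3

theorem t111_A00mm_202_s3 : ∃ t, chk3 f_A00mm_202_s3 t 55 19 1 = true := ex3_a k24_A00mm_202_s3 k25_A00mm_202_s3

theorem t112_A00mm_202_s3 : ∃ t, chk3 f_A00mm_202_s3 t 54 19 1 = true := ex3_b k22_A00mm_202_s3 k23_A00mm_202_s3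

theorem t113_A00mm_202_s3 : ∃ t, chk3 f_A00mm_202_s3 t 27 19 1 = true := ex3_a t112_A00mm_202_s3 t111_A00mm_202_s3

theorem t114_A00mm_202_s3 : ∃ t, chk3 f_A00mm_202_s3 t 54 18 1 = true := ex3_b k19_A00mm_202_s3 k20_A00mm_202_s3

theorem t115_A00mm_202_s3 : ∃ t, chk3 f_A00mm_202_s3 t 27 18 1 = true := ex3_a t114_A00mm_202_s3 k21_A00mm_202_s3

theorem t116_A00mm_202_s3 : ∃ t, chk3 f_A00mm_202_s3 t 27 9 1 = true := ex3_b t115_A00mm_202_s3 t113_A00mm_202_s3

theorem t117_A00mm_202_s3 : ∃ t, chk3 f_A00mm_202_s3 t 26 19 1 = true := ex3_a k17_A00mm_202_s3 k18_A00mm_202_s3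

theorem t118_A00mm_202_s3 : ∃ t, chk3 f_A00mm_202_s3 t 53 18 1 = true := ex3_b k15_A00mm_202_s3 k16_A00mm_202_s3

theorem t119_A00mm_202_s3 : ∃ t, chk3 f_A00mm_202_s3 t 26 18 1 = true := ex3_a k14_A00mm_202_s3 t118_A00mm_202_s3

theorem t120_A00mm_202_s3 : ∃ t, chk3 f_A00mm_202_s3 t 26 9 1 = true := ex3_b t119_A00mm_202_s3 t117_A00mm_202_s3

theorem t121_A00mm_202_s3 : ∃ t, chk3 f_A00mm_202_s3 t 13 9 1 = true := ex3_a t120_A00mm_202_s3 t116_A00mm_202_s3

theorem t122_A00mm_202_s3 : ∃ t, chk3 f_A00mm_202_s3 t 12 9 1 = true := ex3_b k12_A00mm_202_s3 k13_A00mm_202_s3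

theorem t123_A00mm_202_s3 : ∃ t, chk3 f_A00mm_202_s3 t 6 9 1 = true := ex3_a t122_A00mm_202_s3 t121_A00mm_202_s3

theorem t124_A00mm_202_s3 : ∃ t, chk3 f_A00mm_202_s3 t 27 17 1 = true := ex3_a k10_A00mm_202_s3 k11_A00mm_202_s3

theorem t125_A00mm_202_s3 : ∃ t, chk3 f_A00mm_202_s3 t 26 17 1 = true := ex3_b k8_A00mm_202_s3 k9_A00mm_202_s3

theorem t126_A00mm_202_s3 : ∃ t, chk3 f_A00mm_202_s3 t 13 17 1 = true := ex3_a t125_A00mm_202_s3 t124_A00mm_202_s3

theorem t127_A00mm_202_s3 : ∃ t, chk3 f_A00mm_202_s3 t 6 17 1 = true := ex3_a k7_A00mm_202_s3 t126_A00mm_202_s3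

theorem t128_A00mm_202_s3 : ∃ t, chk3 f_A00mm_202_s3 t 27 16 1 = true := ex3_b k5_A00mm_202_s3 k6_A00mm_202_s3

theorem t129_A00mm_202_s3 : ∃ t, chk3 f_A00mm_202_s3 t 26 16 1 = true := ex3_a k3_A00mm_202_s3 k4_A00mm_202_s3

theorem t130_A00mm_202_s3 : ∃ t, chk3 f_A00mm_202_s3 t 13 16 1 = true := ex3_a t129_A00mm_202_s3 t128_A00mm_202_s3

theorem t131_A00mm_202_s3 : ∃ t, chk3 f_A00mm_202_s3 t 6 16 1 = true := ex3_a k2_A00mm_202_s3 t130_A00mm_202_s3

theorem t132_A00mm_202_s3 : ∃ t, chk3 f_A00mm_202_s3 t 6 8 1 = true := ex3_b t131_A00mm_202_s3 t127_A00mm_202_s3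

theorem t133_A00mm_202_s3 : ∃ t, chk3 f_A00mm_202_s3 t 6 4 1 = true := ex3_b t132_A00mm_202_s3 t123_A00mm_202_s3

theorem t134_A00mm_202_s3 : ∃ t, chk3 f_A00mm_202_s3 t 3 4 1 = true := ex3_a t133_A00mm_202_s3 t110_A00mm_202_s3

theorem t135_A00mm_202_s3 : ∃ t, chk3 f_A00mm_202_s3 t 3 2 1 = true := ex3_b t134_A00mm_202_s3 t93_A00mm_202_s3

theorem t136_A00mm_202_s3 : ∃ t, chk3 f_A00mm_202_s3 t 2 2 1 = true := ex3_b k0_A00mm_202_s3 k1_A00mm_202_s3

theorem t137_A00mm_202_s3 : ∃ t, chk3 f_A00mm_202_s3 t 1 2 1 = true := ex3_a t136_A00mm_202_s3 t135_A00mm_202_s3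

theorem t138_A00mm_202_s3 : ∃ t, chk3 f_A00mm_202_s3 t 1 1 1 = true := ex3_b t137_A00mm_202_s3 t72_A00mm_202_s3

theorem c_A00mm_202_s3 : CertF 0 536870912 0 536870912 740881858 40050571 true false false .pp 2 0 2
    ndB0q2 ndB0q0 pcB2 cut_A00mm_202_s3 xt_A00mm_202_s3 :=
  certF0 (fam := true) (s1 := false) (s2 := false) (a := 2) (b := 0) (c := 2) (cn := .pp) (n1 := ndB0q2) (n2 := ndB0q0) (pc := pcB2) (cut := cut_A00mm_202_s3) (xt := xt_A00mm_202_s3) (P1 := 0) (W1 := 536870912) (P2 := 0) (W2 := 536870912) (P3 := 740881858) (W3 := 40050571)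
    rfl t138_A00mm_202_s3

theorem s_A00mm_202_s3 {κ x : ℝ} (hκ : κ * h0 = ken x) (hx : ((740881858 : ℕ) : ℝ) / S ≤ x)
    (hx' : x ≤ (((740881858 : ℕ) : ℝ) + (40050571 : ℕ)) / S)
    (H : CutA (VFD κ) PP tK tL pcB (Cut.of [[⟨0, 1, 0, 67108864⟩, ⟨1, 0, 0, 67108864⟩, ⟨2, 1, 0, 67108864⟩]]) 2 0 2 0 0 (sgb false) (sgb false) x) :
    AltA (VFD κ) PP tK tL pcB [⟨4, 0, 0, 2845415833⟩] 2 0 2 0 0 (sgb false) (sgb false) x :=
  strip_altAD (m := 2845415833) false rfl hκ (SH.κ0 hκ (SH.hx1 hx).le (SH.hx2 hx').le) (SH.hx1 hx).le (SH.hx2 hx') (covB02).cov (covB00).cov hx hx' c_A00mm_202_s3 H ((okx hx hx').extA (T := tt) (sideB hx hx') hκ rfl rfl (.O 2 false) (.O 0 false) (Or.inl rfl))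

end Pool.Agent.Strip051.G.I69_7273.Tab.St.C
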