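import Pool.Agent.Strip051.G.I69_7273.Tab
import Pool.Agent.Strip051.PB.StripB

/-! # Strips, near vertex: certificates 0 (generated) -/

set_option linter.all false
set_option maxRecDepth 100000

namespace Pool.Agent.Strip051.G.I69_7273.Tab.CS.BA00

open Pool.Agent.Strip051.PB Pool.Agent.Strip051.PB.T
open Pool.Agent.Strip051.G.I69_7273.Tab

noncomputable def cut_pp_001_s : Cut := Cut.of [[⟨4, 0, 0, 1449551462⟩]]

noncomputable def f_pp_001_s : ℕ → ℕ → ℕ → ℕ → Bool := onCell 0 536870912 0 536870912 740881858 40050571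
    (rowNE 3 eng mog cd0q0 cd0q0 pd1 0 true true true .up 0 0 1 (qsf 0 536870912 0 536870912 1) ndB0q0 ndB0q0 pcB1 cut_pp_001_s Ext.none)

def k0_pp_001_s : ∃ t, chk3 f_pp_001_s t 1 1 1 = true :=
  ⟨(l 4), by decide +kernel⟩

theorem c_pp_001_s : CertNE 0 536870912 0 536870912 740881858 40050571 3 eng mog cd0q0 cd0q0 pd1 true true true .up 0 0 1
    ndB0q0 ndB0q0 pcB1 cut_pp_001_s Ext.none :=
  certNE0 (fam := true) (s1 := true) (s2 := true) (a := 0) (b := 0) (c := 1) (cn := .up) (n1 := ndB0q0) (n2 := ndB0q0) (pc := pcB1) (cut := cut_pp_001_s) (xt := Ext.none) (P1 := 0) (W1 := 536870912) (P2 := 0) (W2 := 536870912) (P3 := 740881858) (W3 := 40050571) (N0 := 3) (En := eng) (mo := mog) (C1 := cd0q0) (C2 := cd0q0) (C3 := pd1)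
    rfl k0_pp_001_s

noncomputable def cut_pp_001_t : Cut := Cut.of [[⟨3, 0, 0, 2845415833⟩]]

noncomputable def f_pp_001_t : ℕ → ℕ → ℕ → ℕ → Bool := onCell 0 536870912 0 536870912 740881858 40050571
    (rowNE 3 eng mog cd0q0 cd0q0 pd1 0 true true true .up 0 0 1 (qsf 0 536870912 0 536870912 1) ndB0q0 ndB0q0 pcB1 cut_pp_001_t Ext.none)

def k0_pp_001_t : ∃ t, chk3 f_pp_001_t t 1 1 1 = true :=
  ⟨(l 4), by decide +kernel⟩

theorem c_pp_001_t : CertNE 0 536870912 0 536870912 740881858 40050571 3 eng mog cd0q0 cd0q0 pd1 true true true .up 0 0 1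
    ndB0q0 ndB0q0 pcB1 cut_pp_001_t Ext.none :=
  certNE0 (fam := true) (s1 := true) (s2 := true) (a := 0) (b := 0) (c := 1) (cn := .up) (n1 := ndB0q0) (n2 := ndB0q0) (pc := pcB1) (cut := cut_pp_001_t) (xt := Ext.none) (P1 := 0) (W1 := 536870912) (P2 := 0) (W2 := 536870912) (P3 := 740881858) (W3 := 40050571) (N0 := 3) (En := eng) (mo := mog) (C1 := cd0q0) (C2 := cd0q0) (C3 := pd1)
    rfl k0_pp_001_t

noncomputable def cut_pp_011_s : Cut := Cut.of [[⟨4, 0, 0, 1449551462⟩], [⟨0, 0, 0, 67108864⟩, ⟨1, 1, 0, 67108864⟩, ⟨2, 1, 0, 67108864⟩]]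

noncomputable def f_pp_011_s : ℕ → ℕ → ℕ → ℕ → Bool := onCell 0 536870912 536870912 536870912 740881858 40050571
    (rowNE 3 eng mog cd0q0 cd0q1 pd1 0 true true true .pnn 0 1 1 (qsf 0 536870912 536870912 536870912 1) ndB0q0 ndB0q1 pcB1 cut_pp_011_s Ext.none)

def k0_pp_011_s : ∃ t, chk3 f_pp_011_s t 1 1 1 = true :=
  ⟨(l 6), by decide +kernel⟩

theorem c_pp_011_s : CertNE 0 536870912 536870912 536870912 740881858 40050571 3 eng mog cd0q0 cd0q1 pd1 true true true .pnn 0 1 1
    ndB0q0 ndB0q1 pcB1 cut_pp_011_s Ext.none :=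
  certNE0 (fam := true) (s1 := true) (s2 := true) (a := 0) (b := 1) (c := 1) (cn := .pnn) (n1 := ndB0q0) (n2 := ndB0q1) (pc := pcB1) (cut := cut_pp_011_s) (xt := Ext.none) (P1 := 0) (W1 := 536870912) (P2 := 536870912) (W2 := 536870912) (P3 := 740881858) (W3 := 40050571) (N0 := 3) (En := eng) (mo := mog) (C1 := cd0q0) (C2 := cd0q1) (C3 := pd1)
    rfl k0_pp_011_s

noncomputable def cut_pp_011_t : Cut := Cut.of [[⟨3, 0, 0, 2845415833⟩], [⟨0, 0, 0, 67108864⟩, ⟨1, 1, 0, 67108864⟩, ⟨2, 1, 0, 67108864⟩]]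

noncomputable def f_pp_011_t : ℕ → ℕ → ℕ → ℕ → Bool := onCell 0 536870912 536870912 536870912 740881858 40050571
    (rowNE 3 eng mog cd0q0 cd0q1 pd1 0 true true true .pnn 0 1 1 (qsf 0 536870912 536870912 536870912 1) ndB0q0 ndB0q1 pcB1 cut_pp_011_t Ext.none)

def k0_pp_011_t : ∃ t, chk3 f_pp_011_t t 1 1 1 = true :=
  ⟨(b (l 4) (a (b (l 4) (a (b (l 4) (a (b (l 4) (a (l 14) (l 4))) (l 4))) (l 4))) (l 4))), by decide +kernel⟩

theorem c_pp_011_t : CertNE 0 536870912 536870912 536870912 740881858 40050571 3 eng mog cd0q0 cd0q1 pd1 true true true .pnn 0 1 1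
    ndB0q0 ndB0q1 pcB1 cut_pp_011_t Ext.none :=
  certNE0 (fam := true) (s1 := true) (s2 := true) (a := 0) (b := 1) (c := 1) (cn := .pnn) (n1 := ndB0q0) (n2 := ndB0q1) (pc := pcB1) (cut := cut_pp_011_t) (xt := Ext.none) (P1 := 0) (W1 := 536870912) (P2 := 536870912) (W2 := 536870912) (P3 := 740881858) (W3 := 40050571) (N0 := 3) (En := eng) (mo := mog) (C1 := cd0q0) (C2 := cd0q1) (C3 := pd1)
    rfl k0_pp_011_t

noncomputable def cut_pp_012_s : Cut := Cut.of [[⟨4, 0, 0, 1449551462⟩], [⟨0, 0, 0, 67108864⟩, ⟨1, 1, 0, 67108864⟩, ⟨2, 1, 0, 67108864⟩]]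

noncomputable def f_pp_012_s : ℕ → ℕ → ℕ → ℕ → Bool := onCell 0 536870912 536870912 536870912 740881858 40050571
    (rowNE 3 eng mog cd0q0 cd0q1 pd2 0 true true true .pnp 0 1 2 (qsf 0 536870912 536870912 536870912 2) ndB0q0 ndB0q1 pcB2 cut_pp_012_s Ext.none)

def k0_pp_012_s : ∃ t, chk3 f_pp_012_s t 1 1 1 = true :=
  ⟨(l 6), by decide +kernel⟩

theorem c_pp_012_s : CertNE 0 536870912 536870912 536870912 740881858 40050571 3 eng mog cd0q0 cd0q1 pd2 true true true .pnp 0 1 2
    ndB0q0 ndB0q1 pcB2 cut_pp_012_s Ext.none :=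
  certNE0 (fam := true) (s1 := true) (s2 := true) (a := 0) (b := 1) (c := 2) (cn := .pnp) (n1 := ndB0q0) (n2 := ndB0q1) (pc := pcB2) (cut := cut_pp_012_s) (xt := Ext.none) (P1 := 0) (W1 := 536870912) (P2 := 536870912) (W2 := 536870912) (P3 := 740881858) (W3 := 40050571) (N0 := 3) (En := eng) (mo := mog) (C1 := cd0q0) (C2 := cd0q1) (C3 := pd2)
    rfl k0_pp_012_s

noncomputable def cut_pp_012_t : Cut := Cut.of [[⟨3, 0, 0, 2845415833⟩], [⟨0, 0, 0, 67108864⟩, ⟨1, 1, 0, 67108864⟩, ⟨2, 1, 0, 67108864⟩]]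

noncomputable def f_pp_012_t : ℕ → ℕ → ℕ → ℕ → Bool := onCell 0 536870912 536870912 536870912 740881858 40050571
    (rowNE 3 eng mog cd0q0 cd0q1 pd2 0 true true true .pnp 0 1 2 (qsf 0 536870912 536870912 536870912 2) ndB0q0 ndB0q1 pcB2 cut_pp_012_t Ext.none)

def k0_pp_012_t : ∃ t, chk3 f_pp_012_t t 1 1 1 = true :=
  ⟨(b (l 4) (a (b (l 4) (a (b (l 4) (a (b (l 4) (a (l 14) (l 4))) (l 4))) (l 4))) (l 4))), by decide +kernel⟩

theorem c_pp_012_t : CertNE 0 536870912 536870912 536870912 740881858 40050571 3 eng mog cd0q0 cd0q1 pd2 true true true .pnp 0 1 2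
    ndB0q0 ndB0q1 pcB2 cut_pp_012_t Ext.none :=
  certNE0 (fam := true) (s1 := true) (s2 := true) (a := 0) (b := 1) (c := 2) (cn := .pnp) (n1 := ndB0q0) (n2 := ndB0q1) (pc := pcB2) (cut := cut_pp_012_t) (xt := Ext.none) (P1 := 0) (W1 := 536870912) (P2 := 536870912) (W2 := 536870912) (P3 := 740881858) (W3 := 40050571) (N0 := 3) (En := eng) (mo := mog) (C1 := cd0q0) (C2 := cd0q1) (C3 := pd2)
    rfl k0_pp_012_t

noncomputable def cut_pp_022_s : Cut := Cut.of [[⟨4, 0, 0, 1449551462⟩], [⟨0, 0, 0, 67108864⟩, ⟨1, 1, 0, 67108864⟩, ⟨2, 1, 0, 67108864⟩]]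

noncomputable def f_pp_022_s : ℕ → ℕ → ℕ → ℕ → Bool := onCell 0 536870912 0 536870912 740881858 40050571
    (rowNE 3 eng mog cd0q0 cd0q2 pd2 0 true true true .pp 0 2 2 (qsf 0 536870912 0 536870912 2) ndB0q0 ndB0q2 pcB2 cut_pp_022_s Ext.none)

def k0_pp_022_s : ∃ t, chk3 f_pp_022_s t 1 1 1 = true :=
  ⟨(l 6), by decide +kernel⟩

theorem c_pp_022_s : CertNE 0 536870912 0 536870912 740881858 40050571 3 eng mog cd0q0 cd0q2 pd2 true true true .pp 0 2 2
    ndB0q0 ndB0q2 pcB2 cut_pp_022_s Ext.none :=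
  certNE0 (fam := true) (s1 := true) (s2 := true) (a := 0) (b := 2) (c := 2) (cn := .pp) (n1 := ndB0q0) (n2 := ndB0q2) (pc := pcB2) (cut := cut_pp_022_s) (xt := Ext.none) (P1 := 0) (W1 := 536870912) (P2 := 0) (W2 := 536870912) (P3 := 740881858) (W3 := 40050571) (N0 := 3) (En := eng) (mo := mog) (C1 := cd0q0) (C2 := cd0q2) (C3 := pd2)
    rfl k0_pp_022_s

noncomputable def cut_pp_022_t : Cut := Cut.of [[⟨3, 0, 0, 2845415833⟩], [⟨0, 0, 0, 67108864⟩, ⟨1, 1, 0, 67108864⟩, ⟨2, 1, 0, 67108864⟩]]

noncomputable def f_pp_022_t : ℕ → ℕ → ℕ → ℕ → Bool := onCell 1073741824 536870912 0 536870912 740881858 40050571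
    (rowNE 3 eng mog cd0q0 cd0q2 pd2 2 true true true .pp 0 2 2 (qsf 0 536870912 0 536870912 2) ndB0q0 ndB0q2 pcB2 cut_pp_022_t Ext.none)

def k0_pp_022_t : ∃ t, chk3 f_pp_022_t t 2 2 1 = true :=
  ⟨(a (l 6) (b (l 6) (a (l 6) (b (l 6) (b (l 6) (a (a (l 6) (b (l 6) (a (l 16580928) (l 16583992)))) (a (c (l 16585472) (b (l 16569056) (l 16564312))) (c (l 16594192) (b (l 16578464) (l 16595320)))))))))), by decide +kernel⟩

def k1_pp_022_t : ∃ t, chk3 f_pp_022_t t 8 6 1 = true :=
  ⟨(l 1), by decide +kernel⟩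

def k2_pp_022_t : ∃ t, chk3 f_pp_022_t t 18 6 1 = true :=
  ⟨(b (l 1) (a (a (l 1) (b (l 1) (b (a (l 1) (b (l 1) (l 16602496))) (a (b (l 16607736) (c (l 16622528) (a (l 16593656) (l 16596744)))) (a (b (l 16612392) (l 16603064)) (b (l 16594488) (l 16606080))))))) (b (b (a (l 1) (a (l 1) (b (l 1) (l 16583352)))) (b (a (l 1) (a (l 16587800) (l 16593864))) (a (a (l 1) (l 16592552)) (a (l 16598656) (l 16604624))))) (b (a (a (b (l 16597456) (c (l 16591168) (l 16583960))) (c (l 16612744) (b (l 16578616) (l 16590032)))) (c (b (l 16616176) (l 16626888)) (a (l 16600848) (l 16606720)))) (a (a (c (l 16614328) (b (l 16595568) (l 16607344))) (c (l 16624288) (b (l 16601552) (l 16613248)))) (c (a (l 16630024) (l 16635648)) (a (b (l 16607424) (l 16619040)) (b (l 16613184) (l 16624728))))))))), by decide +kernel⟩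

def k3_pp_022_t : ∃ t, chk3 f_pp_022_t t 19 6 1 = true :=
  ⟨(a (b (l 6) (b (a (b (c (b (l 16587136) (l 16533912)) (a (l 16579240) (l 16564264))) (c (b (l 16554432) (a (l 16593344) (l 16599008))) (c (l 16605928) (l 16590896)))) (b (c (l 16582528) (a (l 16570128) (l 16575880))) (a (c (l 16599480) (l 16612296)) (c (l 16604936) (a (l 16595520) (l 16598288)))))) (a (a (b (c (l 16619616) (l 16622968)) (c (l 16641152) (a (l 16623200) (l 16625976)))) (b (c (b (l 16609384) (l 16619888)) (l 16618128)) (c (b (l 16630576) (l 16641480)) (b (l 16624368) (l 16635776))))) (a (b (c (l 16620088) (l 16623672)) (c (l 16641320) (b (l 16629800) (l 16641144)))) (b (c (l 16625384) (a (l 16617264) (l 16619960))) (c (l 16646488) (b (l 16635136) (l 16646408)))))))) (b (b (l 6) (b (l 6) (a (c (l 16575440) (b (l 6) (l 16548464))) (c (l 16583408) (l 16575792))))) (b (a (b (c (l 16593512) (a (l 16560536) (l 16566056))) (c (l 16612888) (b (l 16599728) (l 16610368)))) (b (c (l 16601136) (l 16600976)) (c (l 16620032)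 (a (l 16612992) (l 16618128))))) (a (b (c (l 16634424) (b (l 16621104) (l 16631952))) (c (b (l 16648664) (l 16659344)) (a (b (l 16640360) (l 16651584)) (l 16656344)))) (b (c (l 16640720) (c (l 16638496) (l 16635000))) (c (b (l 16657648) (l 16668976)) (b (l 16653008) (l 16664096)))))))), by decide +kernel⟩

def k4_pp_022_t : ∃ t, chk3 f_pp_022_t t 8 7 1 = true :=
  ⟨(b (a (l 1) (b (a (l 1) (a (l 1) (b (l 1) (a (b (l 1) (l 14)) (a (b (b (l 1) (l 14)) (l 14)) (b (b (c (l 16618152) (l 16612776)) (l 16622344)) (c (l 16635368) (l 16630536)))))))) (a (l 14) (a (l 14) (a (l 14) (a (l 14) (a (l 14) (a (l 14) (b (b (l 16649024) (l 16664664)) (b (l 16686208) (c (l 16699224) (l 16696496)))))))))))) (a (l 14) (a (l 14) (a (l 14) (a (l 14) (a (l 14) (a (l 14) (b (a (l 14) (b (b (c (l 16716312) (l 16716800)) (b (l 16728520) (l 16740064))) (a (l 14) (a (l 14) (b (b (l 16749304) (c (l 16758728) (l 16756680))) (a (l 14) (a (l 14) (a (l 14) (b (b (l 16762656) (c (l 16767408) (l 16768376))) (b (b (l 16770696)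 (b (l 16772424) (l 16773576))) (b (b (l 16774736) (b (l 16775600) (l 16776176))) (b (b (l 16776432) (b (l 16777184) (l 4))) (l 4))))))))))))) (l 4))))))))), by decide +kernel⟩

def k5_pp_022_t : ∃ t, chk3 f_pp_022_t t 18 28 1 = true :=
  ⟨(b (a (a (a (b (l 1) (a (b (l 1) (c (l 16614768) (l 16609216))) (b (l 16619320) (l 16615152)))) (b (a (b (l 1) (l 16605768)) (c (l 16608728) (l 16602760))) (c (l 16619320) (a (l 16612208) (l 16615272))))) (c (a (b (l 16613288) (l 16625328)) (b (l 16619264) (l 16631216))) (a (b (l 16607368) (l 16619816)) (b (l 16613416) (l 16625784))))) (a (b (a (c (l 16625120) (l 16619344)) (c (l 16630856) (l 16625168))) (a (c (l 16636984) (l 16631632)) (c (l 16642632) (l 16637384)))) (c (b (a (l 16636472) (l 16641976)) (a (l 16648168) (l 16653600))) (b (a (l 16630888) (l 16636496)) (a (l 16643024) (l 16648568)))))) (a (a (a (b (c (l 16636584) (a (l 16619328) (l 16622400))) (c (l 16645120) (a (l 16633584) (l 16636600)))) (b (c (l 16632120) (a (l 16625448) (l 16628464)))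 (c (l 16645776) (a (l 16639592) (l 16642552))))) (c (a (b (l 16638024) (l 16651568)) (b (l 16643808) (l 16657248))) (a (b (l 16632936) (a (l 16645488) (l 16648400))) (b (l 16638808) (l 16657960))))) (b (a (a (c (l 16649480) (l 16644576)) (c (l 16655040) (l 16650240))) (a (c (l 16660488) (l 16655808)) (c (l 16665832) (l 16661272)))) (a (a (c (l 16662808) (l 16668872)) (c (l 16668264) (l 16663960))) (a (c (l 16673616) (l 16669432)) (c (l 16678864) (l 16674808))))))), by decide +kernel⟩

def k6_pp_022_t : ∃ t, chk3 f_pp_022_t t 18 58 1 = true :=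
  ⟨(a (a (a (b (c (a (l 16652992) (l 16655912)) (a (l 16648672) (l 16651632))) (c (a (l 16668336) (l 16671176)) (a (l 16664528) (l 16667416)))) (b (c (l 16665472) (a (l 16654560) (l 16657464))) (c (a (l 16674000) (l 16676792)) (a (l 16670288) (l 16673128))))) (b (c (a (l 16676376) (l 16671448)) (a (a (l 16660344) (l 16663200)) (a (l 16666032) (l 16668840)))) (a (c (a (l 16679552) (l 16682288)) (a (l 16675952) (l 16678744))) (c (a (l 16685000) (l 16687688)) (a (l 16681512) (l 16684256)))))) (b (a (a (c (l 16676896) (c (l 16674016) (l 16671952))) (c (l 16682240) (c (l 16679448) (l 16677448)))) (c (a (l 16687480) (l 16703104)) (a (c (l 16684784) (l 16682848)) (c (l 16690032) (l 16688160))))) (a (c (a (c (l 16692448) (l 16690872)) (c (l 16697632) (l 16696128))) (a (c (l 16689200) (l 16687440)) (c (l 16694520) (l 16692824)))) (c (b (a (l 16698304) (l 16703360)) (a (l 16705728) (l 16710728))) (a (c (l 16699744) (l 16698112)) (c (l 16704880) (l 16703320))))))), by decide +kernel⟩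

def k7_pp_022_t : ∃ t, chk3 f_pp_022_t t 18 59 1 = true :=
  ⟨(a (b (a (a (c (a (l 16684328) (l 16687104)) (a (b (l 16676856) (l 16685288)) (l 16687824))) (c (a (l 16689848) (l 16692568)) (a (l 16691936) (l 16694712)))) (c (a (a (l 16695256) (l 16697928)) (a (l 16700568) (l 16703192))) (a (a (l 16697464) (l 16700200)) (a (l 16702904) (l 16705584))))) (b (a (a (c (a (l 16696696) (l 16699408)) (a (l 16693864) (l 16696632))) (c (l 16708680) (a (l 16699384) (l 16702112)))) (c (a (l 16713960) (l 16719136)) (a (a (l 16704808) (l 16707488)) (a (l 16710144) (l 16712784))))) (a (c (a (a (l 16705120) (l 16707800)) (a (l 16710448) (l 16713072))) (a (a (l 16702584) (l 16705320)) (a (l 16708032) (l 16710720)))) (c (a (a (l 16715672) (l 16718256)) (a (l 16720808) (l 16723336))) (a (a (l 16713392) (l 16716032)) (a (l 16718656) (l 16721256))))))) (a (b (c (b (a (l 16703152) (l 16708272)) (a (l 16710992) (l 16726536))) (a (a (l 16708248) (l 16710880)) (a (l 16713496) (l 16716088)))) (a (c (b (l 16724216)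 (a (l 16725840) (l 16728320))) (b (a (l 16715392) (l 16717984)) (a (l 16723832) (l 16726392)))) (c (b (a (l 16722728) (l 16725200)) (a (l 16730784) (l 16733216))) (b (c (l 16722384) (l 16721248)) (c (l 16730664) (l 16734944)))))) (a (b (b (a (l 16716008) (l 16718536)) (c (l 16731504) (c (l 16719312) (l 16718088)))) (c (b (a (l 16727648) (l 16730072)) (a (l 16735632) (l 16738024))) (b (c (l 16727392) (l 16726344)) (a (l 16739176) (l 16741648))))) (c (a (b (l 16726088) (c (l 16742080) (l 16739976))) (b (l 16728512) (b (l 16734856) (l 16747992)))) (b (c (b (l 16716416) (l 16724304)) (b (l 16715104) (l 16723160))) (b (c (l 16732320) (l 16736592)) (a (l 16744104) (c (l 16741680) (l 16740904))))))))), by decide +kernel⟩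

def k8_pp_022_t : ∃ t, chk3 f_pp_022_t t 19 28 1 = true :=
  ⟨(b (b (a (a (c (a (l 16647368) (l 16652648)) (a (l 16642008) (l 16647416))) (c (l 16660368) (a (l 16652720) (l 16657936)))) (a (c (l 16670296) (a (l 16663048) (l 16647104))) (c (l 16679832) (a (l 16652032) (l 16677832))))) (a (a (c (b (l 16679576) (l 16674960)) (a (l 16654008) (l 16659352))) (c (a (l 16669240) (l 16653272)) (a (l 16664600) (l 16669752)))) (a (c (l 16681568) (a (l 16674816) (l 16658816))) (c (l 16691000) (a (l 16663704) (l 16668488)))))) (b (a (a (c (a (l 16671072) (l 16676208)) (a (l 16666640) (l 16671912))) (c (a (l 16681248) (l 16665216)) (a (l 16677088) (l 16682184)))) (a (c (a (l 16670064) (l 16695784)) (a (l 16697664) (b (l 16688928) (l 16695280)))) (c (a (l 16700448) (l 16705008)) (a (b (l 16693776) (l 16700104)) (b (l 16698528) (l 16704824)))))) (a (a (c (a (l 16684016) (l 16689064)) (a (l 16680088) (l 16695768))) (c (a (l 16704504) (b (l 16695624) (l 16702144))) (a (l 16700872) (l 16705880)))) (b (a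 (c (l 16702768) (a (l 16696960) (l 16701824))) (c (l 16711992) (a (l 16706608) (l 16690320)))) (a (c (l 16714472) (c (l 16717448) (l 16715768))) (a (c (l 16695144) (l 16713288)) (a (l 16718208) (l 16720464)))))))), by decide +kernel⟩

def k9_pp_022_t : ∃ t, chk3 f_pp_022_t t 38 58 1 = true :=
  ⟨(a (c (b (a (l 16708152) (l 16713104)) (b (a (l 16708328) (l 16713192)) (a (l 16715632) (l 16720448)))) (b (b (a (l 16690664) (l 16695784)) (a (l 16697944) (l 16703024))) (b (a (l 16705400) (l 16710424)) (a (l 16723496) (l 16723224))))) (a (c (b (l 16714024) (b (l 16717976) (l 16735656))) (a (b (l 16703168) (l 16723136)) (b (l 16705648) (l 16725568)))) (c (b (b (l 16708824) (l 16715672)) (b (l 16733152) (a (l 16728664) (l 16730960)))) (b (c (l 16710112) (l 16708536)) (b (l 16730704) (c (l 16728248) (l 16727096))))))), by decide +kernel⟩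

def k10_pp_022_t : ∃ t, chk3 f_pp_022_t t 38 59 1 = true :=
  ⟨(a (a (a (c (b (l 16730920) (b (l 16737216) (l 16750320))) (b (a (l 16728112) (l 16729352)) (b (l 16735512) (c (l 16744072) (l 16743336))))) (c (b (a (l 16737960) (l 16739144)) (b (l 16739560) (l 16750008))) (b (b (l 16722008) (l 16729904)) (b (l 16743184) (c (l 16746440) (l 16745752)))))) (b (c (b (l 16733080) (b (l 16743960) (l 16742512))) (b (c (l 16726256) (l 16725104)) (c (l 16734024) (l 16733048)))) (c (b (c (l 16748608) (l 16747920)) (c (a (l 16749944) (l 16757432)) (b (l 16748552) (l 16757760)))) (a (b (l 16745584) (c (l 16748792) (l 16753392))) (b (l 16746656) (c (l 16756368) (l 16753152))))))) (c (b (c (a (b (l 16732960) (l 16745600)) (b (l 16737504) (b (l 16743000) (l 16746696)))) (b (a (l 16732040) (l 16736672)) (a (l 16744840) (l 16749408)))) (a (a (b (l 16751696) (c (l 16759664) (l 16759192))) (b (b (l 16746800) (l 16750624)) (b (c (l 16754704) (l 16754232)) (b (l 16757384) (l 16754088))))) (a (a (b (l 16750392)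 (b (l 16756136) (l 16760008))) (b (l 16756744) (b (l 16757240) (l 16761104)))) (b (c (b (l 16751536) (l 16755288)) (l 16758152)) (a (b (l 16758336) (l 16756952)) (b (l 16759432) (l 16758040))))))) (a (a (c (b (l 16738968) (b (l 16745448) (l 16756056))) (b (l 16737968) (b (l 16744720) (l 16755512)))) (b (b (l 16731728) (l 16744760)) (b (c (l 16747776) (l 16747088)) (b (l 16756080) (b (l 16761736) (l 16761152)))))) (a (b (b (l 16734104) (l 16747112)) (b (b (l 16747776) (l 16757000)) (b (c (l 16756008) (l 16755512)) (c (l 16760008) (l 16762224))))) (b (b (l 16736464) (l 16749448)) (a (b (l 16756736) (b (l 16757480) (l 16764136))) (b (l 16755272) (b (l 16758624) (l 16765272))))))))), by decide +kernel⟩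

def k11_pp_022_t : ∃ t, chk3 f_pp_022_t t 39 58 1 = true :=
  ⟨(a (a (b (b (c (l 16713528) (l 16710648)) (c (l 16709840) (l 16728232))) (c (b (b (l 16725520) (l 16729032)) (b (l 16722096) (l 16725680))) (b (l 16730248) (b (l 16741032) (l 16739528))))) (b (c (b (l 16697176) (l 16714416)) (a (l 16728256) (l 16725376))) (a (c (b (l 16730680) (l 16737736)) (b (l 16728536) (l 16735912))) (c (b (l 16732920) (l 16729472)) (b (l 16730864) (l 16738224)))))) (a (b (c (l 16726032) (c (a (l 16723128) (l 16725432)) (l 16728216))) (a (c (b (l 16735144) (l 16731672)) (b (l 16733184) (l 16745760))) (c (l 16740840) (b (l 16735472) (b (l 16740944) (l 16744632)))))) (c (b (l 16730448) (c (l 16744424) (l 16743720))) (a (b (b (l 16723616) (l 16730608)) (b (l 16742992) (b (l 16743200) (l 16746880)))) (b (b (l 16725896) (l 16732864)) (b (b (l 16738192) (l 16741792)) (b (l 16745424) (l 16749096)))))))), by decide +kernel⟩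

def k12_pp_022_t : ∃ t, chk3 f_pp_022_t t 156 59 1 = true :=
  ⟨(c (b (b (c (b (l 16740168) (l 16743776)) (l 16746464)) (c (b (l 16747424) (l 16745856)) (b (l 16746792) (l 16755784)))) (b (b (a (l 16748232) (l 16750416)) (b (a (l 16756304) (l 16758480)) (l 16760600))) (a (c (b (l 16761232) (l 16761096)) (b (l 16760888) (b (l 16763800) (l 16765744)))) (b (a (l 16757440) (l 16758520)) (l 16767048))))) (a (b (b (l 16744056) (c (l 16746880) (l 16746152))) (c (b (l 16757248) (b (l 16760520) (a (l 16763928) (l 16765040)))) (b (l 16756712) (b (l 16762744) (c (l 16766880) (l 16766728)))))) (b (b (l 16746376) (b (l 16746880) (l 16750760))) (b (b (l 16757288) (a (l 16758040) (l 16759168))) (a (b (l 16764640) (c (l 16766152) (l 16768504))) (b (c (l 16763304) (l 16762968)) (b (l 16766136) (a (l 16767864) (l 16768416))))))))), by decide +kernel⟩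

def k13_pp_022_t : ∃ t, chk3 f_pp_022_t t 157 59 1 = true :=
  ⟨(a (b (c (b (b (l 16743120) (l 16746752)) (b (l 16750408) (l 16748864))) (b (l 16748680) (c (l 16756648) (l 16756024)))) (b (a (c (b (l 16757288) (l 16761048)) (b (l 16756360) (l 16760296))) (c (b (l 16758368) (l 16756872)) (b (l 16757488) (l 16764032)))) (c (c (l 16767376) (l 16768800)) (a (b (b (l 16763264) (l 16765248)) (b (c (l 16767360) (l 16767120)) (c (l 16769344) (l 16769152)))) (b (b (l 16764376) (l 16763744)) (c (b (l 16768456) (l 16770432)) (b (l 16768248) (l 16770272)))))))) (b (b (c (b (l 16745320) (l 16748936)) (b (l 16743832) (l 16747616))) (c (b (l 16742104) (l 16751024)) (c (l 16758888) (l 16755688)))) (b (c (l 16763816) (c (b (l 16759384) (b (l 16762288) (l 16764224))) (b (l 16758944) (b (l 16761920) (l 16763904))))) (c (b (l 16767488) (c (l 16771344) (l 16771224))) (b (a (c (l 16766608) (l 16768968)) (b (l 16763976) (a (l 16768296) (l 16768848)))) (c (l 16772392) (a (b (l 16769360) (b (l 16770880) (l 16771888)))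 (b (l 16770480) (a (l 16772216) (l 16772768)))))))))), by decide +kernel⟩

def k14_pp_022_t : ∃ t, chk3 f_pp_022_t t 79 118 1 = true :=
  ⟨(b (a (c (l 16753664) (a (b (l 16746104) (l 16749880)) (c (l 16750568) (l 16755144)))) (a (c (l 16753592) (b (l 16745352) (c (l 16754624) (l 16754056)))) (c (l 16755696) (b (c (l 16753096) (l 16752488)) (b (l 16755600) (l 16752232)))))) (a (a (b (c (l 16749504) (c (l 16753968) (l 16753392))) (c (l 16753168) (c (l 16757760) (l 16757280)))) (c (l 16758712) (c (b (l 16756176) (l 16759960)) (b (l 16755648) (l 16759528))))) (a (c (l 16760816) (c (b (l 16758360) (l 16756888)) (b (l 16757888) (b (l 16760784) (l 16762720))))) (a (b (l 16761496) (b (l 16762968) (l 16764840))) (b (l 16762552) (a (l 16764696) (l 16765216))))))), by decide +kernel⟩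

def k15_pp_022_t : ∃ t, chk3 f_pp_022_t t 79 238 1 = true :=
  ⟨(a (c (c (a (l 16764112) (l 16766200)) (c (l 16767584) (l 16766136))) (a (b (c (b (l 16760624) (l 16762552)) (l 16763824)) (c (b (l 16764480) (l 16763792)) (c (l 16767848) (l 16767696)))) (a (b (a (l 16762784) (l 16763336)) (b (l 16765976) (l 16764976))) (b (b (l 16763192) (l 16765128)) (c (l 16765536) (b (l 16766944) (l 16768920))))))) (b (a (a (b (l 16764592) (l 16767792)) (a (l 16766328) (l 16768168))) (b (a (l 16768024) (l 16768416)) (c (l 16769296) (l 16769576)))) (c (a (l 16771328) (c (l 16772128) (l 16772016))) (a (b (a (l 16765536) (a (l 16768968) (l 16769512))) (b (l 16770816) (a (l 16767976) (l 16769048)))) (c (l 16773200) (b (a (l 16770224) (l 16768688)) (l 16772736))))))), by decide +kernel⟩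

def k16_pp_022_t : ∃ t, chk3 f_pp_022_t t 79 239 1 = true :=
  ⟨(a (b (c (a (l 16770904) (c (l 16771736) (l 16771616))) (c (c (c (l 16770464) (l 16771736)) (c (l 16771696) (l 16771656))) (a (a (b (l 16767576) (l 16769576)) (b (l 16768688) (l 16768064))) (a (b (l 16769800) (l 16769496)) (b (l 16768280) (c (l 16770296) (l 16770240))))))) (a (a (a (b (l 16771520) (l 16773952)) (c (l 16773120) (l 16773576))) (c (l 16773896) (c (l 16773784) (l 16774352)))) (a (b (c (l 16773992) (l 16773840)) (c (l 16775880) (a (l 16775552) (l 16776088)))) (b (c (l 16775024) (c (l 16774944) (l 16774888))) (b (c (l 16776440) (c (l 16776408) (l 16776392))) (a (b (l 16777536) (a (l 16777856) (l 126936417687))) (c (l 112440903815) (c (l 117272741687) (l 159685542407))))))))) (a (a (b (c (l 16773232) (a (l 16772776) (l 16773968))) (b (c (l 16776048) (c (l 16776008) (b (l 16775480) (l 16777128)))) (b (a (c (l 16778480) (b (l 16776952) (l 101166614103))) (c (l 124788934759) (c (l 167201735303) (l 168812348039)))) (l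 4)))) (b (c (l 16774264) (a (l 16774504) (a (l 16774256) (l 16774520)))) (b (b (a (l 16776336) (c (l 16776856) (l 16777816))) (a (c (l 16778192) (b (l 16777032) (l 118346483287))) (c (l 137673836599) (l 175791670007)))) (l 4)))) (a (b (c (b (l 16774352) (l 16777528)) (b (l 16774216) (c (l 16777160) (b (l 16775664) (a (l 16776392) (l 16777568)))))) (b (b (a (c (l 79691777943) (a (l 63585649463) (l 104387839607))) (c (l 155390576631) (l 189213442919))) (l 4)) (l 4))) (b (b (c (l 16775376) (c (l 16775312) (l 16775264))) (b (a (l 16776504) (a (l 16777544) (a (l 16777728) (l 61438166391)))) (a (b (a (l 16777088) (l 90429195623)) (l 185992217207)) (l 4)))) (l 4))))), by decide +kernel⟩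

def k17_pp_022_t : ∃ t, chk3 f_pp_022_t t 72 60 1 = true :=
  ⟨(b (a (c (a (b (l 16713656) (l 16722272)) (b (l 16716288) (l 16724864))) (a (b (l 16711408) (l 16720328)) (b (l 16714112) (l 16722992)))) (c (b (a (l 16718904) (l 16721488)) (a (l 16727440) (l 16729992))) (b (a (l 16716792) (l 16719448)) (a (l 16730880) (l 16733496))))) (a (b (a (c (l 16730952) (c (l 16729736) (l 16728888))) (c (l 16733512) (c (l 16732352) (l 16731536)))) (c (a (c (l 16740016) (l 16739384)) (c (l 16742520) (l 16741920))) (a (c (l 16738720) (l 16738024)) (c (l 16741296) (l 16743256))))) (c (b (a (l 16741288) (l 16743800)) (b (a (l 16742536) (l 16745024)) (a (l 16746896) (l 16754600)))) (b (a (c (l 16734936) (l 16734160)) (c (l 16737504) (l 16736760))) (a (c (l 16746464) (l 16745848)) (a (l 16748072) (l 16749016))))))), by decide +kernel⟩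

def k18_pp_022_t : ∃ t, chk3 f_pp_022_t t 73 60 1 = true :=
  ⟨(a (a (b (c (b (l 16724056) (l 16732512)) (b (l 16722080) (l 16733472))) (b (c (l 16743664) (c (l 16740048) (l 16739344))) (c (c (l 16755128) (l 16752016)) (c (l 16750848) (c (l 16748480) (l 16750824)))))) (b (b (c (l 16726592) (l 16724688)) (c (l 16735016) (l 16736376))) (b (c (c (l 16743808) (l 16743208)) (c (l 16742568) (l 16741904))) (c (c (l 16754912) (l 16754464)) (c (b (l 16749160) (l 16753576)) (c (l 16753624) (l 16753368))))))) (a (b (b (c (l 16729112) (l 16727272)) (c (l 16737496) (c (l 16736376) (l 16735576)))) (b (b (c (l 16743832) (l 16742552)) (c (l 16748072) (l 16749584))) (c (c (l 16756648) (c (l 16757000) (l 16756784))) (c (c (l 16756568) (l 16756344)) (a (l 16755376) (l 16756624)))))) (c (b (b (l 16731600) (l 16745200)) (b (c (l 16748632) (l 16748104)) (b (c (l 16754928) (l 16754520)) (c (l 16759160) (l 16758824))))) (b (b (l 16735088) (c (l 16738888) (l 16738128))) (b (c (l 16747552) (l 16749584)) (b (c (l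 16754088) (l 16753632)) (c (l 16761096) (l 16759416)))))))), by decide +kernel⟩

def k19_pp_022_t : ∃ t, chk3 f_pp_022_t t 74 60 1 = true :=
  ⟨(a (a (b (b (c (l 16734072) (l 16737632)) (c (l 16747632) (c (l 16741384) (l 16740664)))) (a (b (c (l 16755416) (l 16751744)) (b (a (l 16758440) (l 16759040)) (c (l 16760760) (l 16761432)))) (b (c (l 16756608) (c (l 16750616) (l 16750088))) (b (a (l 16759640) (l 16760240)) (c (l 16764552) (a (l 16761032) (l 16761640))))))) (c (b (b (l 16736520) (l 16747424)) (a (b (l 16755176) (b (l 16758864) (l 16765720))) (b (l 16756360) (b (l 16760040) (l 16765568))))) (b (b (l 16740152) (c (l 16743856) (l 16743176))) (b (c (c (l 16752568) (l 16757568)) (c (l 16754696) (l 16754432))) (b (c (l 16761560) (l 16761184)) (b (c (l 16762192) (l 16761888)) (a (l 16763648) (l 16767472)))))))) (a (b (b (c (l 16738944) (l 16740688)) (b (c (l 16745120) (l 16743840)) (c (l 16749256) (l 16750760)))) (a (c (b (l 16757536) (b (l 16761200) (c (l 16765528) (l 16765304)))) (b (c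 (l 16759504) (l 16756408)) (b (l 16763184) (c (l 16767688) (l 16766128))))) (b (b (c (l 16754000) (l 16753072)) (c (l 16758176) (l 16757408))) (b (c (l 16764984) (c (l 16761920) (l 16761608))) (c (b (l 16765512) (l 16770240)) (c (l 16767560) (l 16767336))))))) (b (c (b (l 16746592) (c (l 16749816) (l 16749288))) (b (c (l 16740280) (l 16739504)) (c (l 16753976) (l 16750760)))) (b (c (b (l 16758376) (b (l 16764120) (l 16763576))) (b (c (l 16755120) (l 16754656)) (c (l 16762024) (l 16761648)))) (a (b (c (l 16766136) (c (l 16763112) (l 16762816))) (c (c (l 16770424) (l 16769592)) (b (l 16767544) (c (l 16768512) (l 16768336))))) (c (b (l 16765976) (b (l 16770424) (c (l 16769976) (l 16769832)))) (a (b (l 16766480) (c (l 16770936) (l 16769440))) (b (l 16767072) (b (l 16767720) (l 16771216)))))))))), by decide +kernel⟩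

def k20_pp_022_t : ∃ t, chk3 f_pp_022_t t 150 120 1 = true :=
  ⟨(a (c (b (l 16748968) (c (l 16757384) (l 16756904))) (b (a (l 16741744) (l 16742968)) (c (l 16753760) (l 16753216)))) (c (b (l 16748712) (b (l 16752184) (l 16758896))) (b (c (l 16745136) (l 16744456)) (c (l 16756152) (c (l 16755776) (l 16755512)))))), by decide +kernel⟩

def k21_pp_022_t : ∃ t, chk3 f_pp_022_t t 150 121 1 = true :=
  ⟨(a (a (b (b (a (l 16759440) (l 16760032)) (c (l 16761648) (l 16763632))) (c (b (b (l 16764768) (l 16766848)) (c (b (l 16769016) (l 16768472)) (b (l 16768864) (l 16772288)))) (a (b (l 16767672) (b (l 16768312) (l 16771800))) (b (l 16766952) (b (l 16768904) (l 16772064)))))) (b (c (b (l 16758656) (l 16765416)) (b (l 16757896) (c (l 16762360) (l 16762040)))) (c (b (c (l 16769664) (l 16769472)) (c (b (l 16770144) (b (l 16771696) (l 16772736))) (b (l 16770008) (b (l 16771592) (l 16772648))))) (c (b (l 16767952) (b (l 16769856) (c (l 16773352) (l 16773296)))) (b (l 16767728) (b (l 16771016) (b (l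 16771352) (l 16773112)))))))) (a (c (b (b (l 16759808) (l 16766560)) (b (b (l 16767040) (c (l 16769200) (l 16769040))) (a (b (l 16770920) (a (l 16772872) (l 16770528))) (b (l 16769520) (a (l 16772120) (l 16772400)))))) (b (b (l 16761712) (c (l 16763536) (l 16763240))) (b (b (l 16767936) (c (l 16768872) (l 16768696))) (b (c (l 16772328) (c (l 16770920) (l 16772168))) (a (c (b (l 16772344) (l 16773424)) (l 16773776)) (c (b (l 16772920) (l 16774000)) (b (l 16772832) (l 16773928)))))))) (c (b (b (l 16760952) (b (l 16764040) (l 16766104))) (b (b (c (l 16768256) (l 16768088)) (c (l 16770312) (l 16770176))) (c (l 16773408) (l 16773984)))) (b (b (l 16762904) (c (l 16764704) (l 16767056))) (a (b (b (l 16767504) (l 16770976)) (b (c (l 16771888) (l 16773088)) (a (b (l 16773312) (l 16774400)) (b (l 16773608) (l 16773384))))) (b (b (l 16768096) (l 16771560)) (b (c (l 16772464) (l 16773672)) (b (c (l 16774072) (l 16774008)) (c (l 16773840) (c (l 16775112) (l 16774440))))))))))), by decide +kernel⟩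

def k22_pp_022_t : ∃ t, chk3 f_pp_022_t t 151 120 1 = true :=
  ⟨(b (a (b (c (l 16746408) (l 16745120)) (c (l 16750448) (l 16754568))) (c (c (l 16751000) (l 16755720)) (c (l 16755160) (l 16751944)))) (b (c (a (l 16759744) (l 16759416)) (a (c (l 16753800) (l 16753296)) (c (l 16756160) (l 16755696)))) (c (c (a (l 16758752) (l 16761008)) (a (l 16758384) (l 16760688))) (c (a (l 16758000) (l 16762960)) (a (l 16757584) (l 16762592)))))), by decide +kernel⟩

def k23_pp_022_t : ∃ t, chk3 f_pp_022_t t 302 121 1 = true :=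
  ⟨(a (c (b (b (l 16764712) (a (l 16765920) (l 16769112))) (b (a (b (l 16769016) (l 16771088)) (b (l 16769584) (l 16769032))) (b (l 16773448) (c (l 16775536) (l 16775504))))) (b (b (l 16764088) (b (l 16764672) (l 16768128))) (b (a (b (l 16768680) (l 16772144)) (b (l 16769264) (a (l 16771272) (l 16771560)))) (c (c (c (l 16774752) (l 16774896)) (b (b (l 16772768) (l 16772536)) (l 16775464))) (b (a (b (l 16772408) (l 16773496)) (b (l 16772992) (l 16774088))) (c (l 16775768) (c (l 16775432) (l 16775744)))))))) (b (b (c (l 16765848) (c (l 16762800) (l 16762488))) (a (c (l 16769672) (l 16767936)) (b (l 16767680) (a (l 16768328) (l 16769920))))) (b (c (c (b (l 16770488) (l 16769912)) (b (l 16770352) (b (l 16771920) (l 16772960)))) (a (b (l 16771160) (c (l 16772056) (l 16773256))) (b (l 16771736) (c (l 16773936) (l 16773840))))) (b (c (l 16775048) (a (a (b (l 16773472) (l 16773240)) (b (l 16773760) (l 16773528))) (b (c (l 16774224) (l 16774160)) (c (l 16773984) (c (l 16773952) (l 16773936))))))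 (c (b (l 16776280) (b (a (l 16776616) (l 12046042583)) (a (l 16777928) (l 179012895335)))) (b (a (l 16775776) (c (l 16776368) (l 16776344))) (a (b (l 16776592) (a (l 16777312) (a (l 15267267303) (l 91502936935)))) (a (b (l 16777344) (l 180623507879)) (b (a (l 60364423959) (l 104387838791)) (l 4)))))))))), by decide +kernel⟩

def k24_pp_022_t : ∃ t, chk3 f_pp_022_t t 303 121 1 = true :=
  ⟨(a (b (c (b (a (l 16764080) (l 16764640)) (b (c (l 16767520) (l 16767328)) (c (l 16769552) (l 16769400)))) (b (c (l 16763960) (l 16763672)) (b (l 16768328) (c (l 16769240) (l 16769064))))) (b (c (b (a (l 16768640) (l 16769192)) (l 16773600)) (a (b (l 16772320) (b (l 16773928) (a (l 16773552) (l 16773840)))) (b (c (l 16771648) (l 16771528)) (c (b (l 16773240) (l 16774304)) (b (l 16773152) (l 16774240)))))) (b (c (c (l 16775680) (l 16775648)) (c (c (l 16775624) (l 16775608)) (c (l 16775752) (c (l 16775576) (l 16775736))))) (a (a (b (b (l 16776528) (c (l 16777056) (l 16777536))) (c (l 190287184695) (a (l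 194582151879) (l 4)))) (b (b (l 16776816) (c (l 16777928) (a (l 68954358599) (l 114588386135)))) (l 4))) (b (b (c (l 56069456711) (a (c (l 16777080) (l 16777400)) (a (l 82376131367) (l 126399546199)))) (l 4)) (l 4)))))) (a (b (b (c (l 16765200) (l 16767320)) (c (b (l 16768264) (l 16770320)) (b (l 16767888) (l 16771336)))) (b (c (l 16774056) (b (c (l 16772224) (l 16773424)) (a (b (l 16773632) (l 16773392)) (b (l 16773920) (l 16773680))))) (b (b (c (l 16775976) (l 16775928)) (b (c (l 16776752) (l 16776896)) (c (l 61438165879) (a (c (l 16777112) (l 16777600)) (a (l 89892324199) (l 140358189879)))))) (l 4)))) (b (c (b (l 16765768) (b (l 16768824) (l 16770872))) (b (l 16767904) (b (l 16768472) (l 16771920)))) (b (c (l 16774608) (b (c (l 16771480) (l 16774008)) (b (c (l 16774384) (l 16773008)) (l 16775424)))) (b (b (c (l 16776528) (c (l 16776504) (l 16776488))) (b (c (l 68954359271) (a (a (l 16777080) (l 59827553031)) (a (l 102777226055) (l 157001188119)))) (l 4))) (l 4)))))), by decide +kernel⟩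

def k25_pp_022_t : ∃ t, chk3 f_pp_022_t t 72 122 1 = true :=
  ⟨(a (c (a (b (c (l 16751384) (l 16750896)) (b (c (l 16755368) (l 16754992)) (c (l 16762416) (l 16760808)))) (b (a (l 16753008) (l 16753752)) (a (b (l 16757024) (l 16762784)) (b (l 16758240) (a (l 16762384) (l 16762984)))))) (b (a (c (b (l 16745496) (l 16750040)) (c (l 16750000) (l 16749728))) (c (b (l 16748048) (l 16752568)) (a (l 16751800) (l 16753080)))) (a (b (c (l 16754608) (l 16755512)) (c (a (l 16758560) (l 16759808)) (a (l 16758224) (l 16759496)))) (a (b (l 16758928) (c (l 16761056) (l 16760760))) (b (l 16758872) (c (l 16762296) (l 16763336))))))) (c (b (b (a (l 16753888) (c (l 16753912) (l 16753504))) (a (c (l 16755840) (l 16755472)) (c (l 16758248) (l 16757912)))) (c (b (a (l 16762832) (l 16764072)) (a (c (l 16767272) (l 16765856)) (a (l 16769000) (l 16768872)))) (b (a (l 16761224) (c (l 16762408) (l 16764896))) (a (a (l 16763776) (l 16767608)) (a (l 16767496) (a (l 16767088) (l 16770304))))))) (b (a (c (a (l 16752200)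 (l 16756072)) (b (l 16750080) (l 16757288))) (a (b (l 16752224) (l 16759376)) (b (l 16753480) (l 16760624)))) (c (b (a (a (l 16758984) (l 16760224)) (c (l 16764760) (l 16764624))) (a (a (l 16766152) (l 16766072)) (b (a (l 16764856) (l 16766072)) (c (l 16769088) (l 16768672))))) (b (a (c (l 16759360) (l 16761816)) (c (l 16763168) (l 16763024))) (a (a (l 16764592) (c (l 16764592) (l 16765784))) (b (a (l 16764624) (l 16765864)) (a (l 16766936) (l 16769488))))))))), by decide +kernel⟩

def k26_pp_022_t : ∃ t, chk3 f_pp_022_t t 73 244 1 = true :=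
  ⟨(a (a (c (b (c (l 16756320) (l 16755944)) (c (l 16763256) (l 16762960))) (a (b (l 16754728) (l 16760720)) (b (l 16755976) (a (l 16760176) (l 16760792))))) (a (c (b (l 16757936) (l 16764896)) (b (l 16759840) (c (l 16761864) (l 16761568)))) (b (c (l 16759136) (l 16761072)) (c (l 16764776) (c (l 16763080) (l 16762808)))))) (a (a (b (c (l 16760320) (l 16760992)) (c (c (l 16764752) (l 16764528)) (c (l 16766912) (l 16765352)))) (b (c (l 16764128) (c (l 16761064) (l 16760744))) (c (c (l 16768544) (l 16768336)) (c (l 16766808) (l 16766248))))) (a (b (c (l 16765304) (c (l 16762272) (l 16761976))) (c (b (l 16765912) (l 16769376)) (b (l 16766784) (c (l 16767808) (l 16767624))))) (b (c (l 16765168) (c (l 16763480) (l 16763208))) (c (b (l 16769696) (c (l 16769304) (l 16769160))) (b (c (l 16766792) (l 16766584)) (c (l 16769000) (l 16770152)))))))), by decide +kernel⟩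

def k27_pp_022_t : ∃ t, chk3 f_pp_022_t t 73 490 1 = true :=
  ⟨(a (c (b (a (c (l 16763880) (l 16763640)) (a (l 16765544) (l 16769344))) (a (a (l 16765360) (l 16769168)) (a (l 16769040) (c (l 16768976) (l 16768824))))) (a (c (a (l 16766528) (l 16766440)) (a (l 16764968) (l 16765880))) (a (c (l 16767488) (c (l 16767496) (l 16767392))) (b (c (l 16766432) (l 16766224)) (c (l 16768672) (l 16769816)))))) (a (b (c (a (l 16769208) (c (l 16769136) (l 16768992))) (c (c (l 16769592) (l 16769504)) (a (l 16767448) (l 16769984)))) (c (c (a (l 16770136) (l 16772600)) (a (l 16771312) (l 16772488))) (a (c (l 16771184) (l 16770384)) (c (c (l 16771096) (l 16772344)) (c (l 16772288) (l 16772224)))))) (a (a (c (b (l 16769936) (c (l 16772152) (l 16772056))) (b (l 16770968) (c (l 16773272) (l 16773168)))) (b (c (l 16770520) (l 16770912)) (c (a (l 16773848) (l 16774136)) (c (l 16773864) (l 16773280))))) (b (c (c (b (l 16770904) (l 16771976)) (l 16772640)) (c (c (l 16772560) (l 16772504)) (c (l 16772440) (l 16772384))))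 (a (b (c (l 16772720) (l 16773200)) (c (a (l 16773656) (l 16773944)) (a (l 16773520) (l 16773816)))) (b (c (l 16771984) (a (l 16772992) (l 16773288))) (c (c (l 16774400) (l 16774352)) (a (l 16774768) (l 16775072))))))))), by decide +kernel⟩

def k28_pp_022_t : ∃ t, chk3 f_pp_022_t t 146 491 1 = true :=
  ⟨(b (c (a (a (l 16768864) (c (l 16768808) (l 16768664))) (c (a (l 16769976) (l 16772448)) (a (l 16771160) (l 16772336)))) (a (c (c (l 16769256) (l 16769168)) (a (l 16767104) (l 16769648))) (a (c (l 16771024) (l 16770224)) (c (c (l 16770944) (l 16772192)) (c (l 16772136) (l 16772072)))))) (a (a (a (c (l 16769464) (l 16770488)) (c (l 16770056) (l 16770440))) (c (c (l 16772296) (l 16772192)) (c (c (l 16770792) (l 16772040)) (c (l 16771976) (l 16771920))))) (a (a (c (l 16772800) (c (l 16772976) (l 16772864))) (c (a (l 16772248) (l 16773856)) (c (l 16773576) (l 16772984)))) (a (c (c (b (l 16772472) (l 16773560)) (l 16774256)) (c (l 16773848) (c (l 16774112) (l 16773408)))) (b (c (l 16773016)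 (a (l 16772704) (l 16773008))) (c (a (l 16773960) (l 16774256)) (c (l 16774024) (l 16774616)))))))), by decide +kernel⟩

def k29_pp_022_t : ∃ t, chk3 f_pp_022_t t 147 982 1 = true :=
  ⟨(c (a (a (c (c (l 16773624) (l 16773584)) (b (l 16771656) (l 16774064))) (a (b (l 16772576) (a (l 16773520) (l 16773808))) (b (l 16773152) (c (l 16774264) (l 16774216))))) (a (b (a (a (l 16773584) (l 16773872)) (a (l 16774168) (l 16774448))) (b (l 16774832) (l 16775624))) (a (l 16775672) (a (l 16775856) (a (l 16776072) (l 16776216)))))) (a (a (a (c (l 16773120) (l 16773016)) (c (l 16773720) (l 16773136))) (a (c (l 16773984) (c (l 16774256) (l 16773552))) (c (b (l 16773040) (l 16774160)) (b (l 16772960) (l 16774752))))) (a (a (c (b (l 16773632) (c (l 16774760) (l 16774736))) (b (l 16773560) (c (l 16774712) (l 16775344)))) (b (c (l 16774224) (l 16774824)) (b (a (l 16774896) (l 16775192)) (a (l 16774800) (l 16775096))))) (b (a (c (c (l 16774832) (l 16774808)) (c (l 16775440) (l 16775416))) (b (a (l 16774960)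 (l 16775256)) (a (l 16774864) (l 16775160)))) (a (a (b (l 16774832) (a (l 16775976) (l 16776128))) (l 16776072)) (a (l 16776368) (a (l 16776592) (b (l 16775800) (l 16777344))))))))), by decide +kernel⟩

def k30_pp_022_t : ∃ t, chk3 f_pp_022_t t 147 983 1 = true :=
  ⟨(a (a (a (c (c (b (l 16773624) (l 16774712)) (b (l 16773560) (l 16773352))) (a (b (l 16773304) (l 16775096)) (b (l 16773608) (a (l 16774664) (l 16774816))))) (c (c (b (l 16774200) (l 16773976)) (b (l 16774144) (l 16774264))) (c (b (l 16774088) (a (l 16775064) (l 16774048))) (b (l 16774680) (a (l 16775680) (a (l 16775248) (l 16775400))))))) (a (c (l 16775624) (b (c (c (l 16774696) (l 16774672)) (c (l 16774648) (l 16775280))) (b (a (l 16774704) (l 16774920)) (b (a (l 16775784) (l 16775424)) (l 16776216))))) (c (c (l 16775888) (l 16775864)) (c (c (l 16775840) (l 16776160)) (b (a (l 16775744) (a (l 16775312) (l 16775464))) (c (l 16776384) (l 16776376))))))) (b (a (a (c (l 16775904) (b (a (l 16774768) (l 16775064)) (b (l 16776000)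 (l 16776280)))) (c (l 16776808) (a (l 16776304) (a (l 16776528) (l 16776840))))) (b (c (a (l 16776776) (a (l 47479522359) (l 118883353751))) (a (c (l 16776768) (c (l 16776760) (l 16776920))) (a (b (l 16777392) (a (l 81302389287) (l 165591122423))) (c (l 125325804519) (c (l 169886089559) (l 170959831383)))))) (a (c (a (l 16777648) (l 112440902759)) (a (b (l 16777032) (a (l 63585649223) (l 143042544167))) (a (b (l 70028100183) (l 4)) (l 194045280663)))) (l 4)))) (a (a (b (c (l 16776720) (c (l 16776704) (l 16776864))) (c (a (l 16777760) (l 94724162743)) (b (a (l 16776976) (a (l 16777512) (l 111904031367))) (a (a (l 16777504) (l 105461580407)) (l 4))))) (b (c (a (l 16777784) (l 105998451783)) (a (b (l 16777008) (a (l 16777520) (l 123178320471))) (b (a (l 16777448) (l 136600093207)) (l 4)))) (l 4))) (l 4)))), by decide +kernel⟩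

def k31_pp_022_t : ∃ t, chk3 f_pp_022_t t 144 246 1 = true :=
  ⟨(a (a (b (c (c (l 16763632) (l 16763400)) (c (l 16764472) (l 16764224))) (b (c (c (l 16766976) (l 16766808)) (c (l 16766624) (l 16766432))) (a (c (l 16768848) (l 16769864)) (c (l 16769448) (l 16769832))))) (b (c (c (l 16767456) (l 16767248)) (c (l 16765712) (c (l 16764232) (l 16765424)))) (c (b (c (l 16768176) (l 16768024)) (c (l 16771720) (l 16771608))) (b (c (l 16767864) (l 16769000)) (c (c (l 16770200) (l 16771448)) (c (l 16771384) (l 16770664))))))) (a (a (b (c (l 16766952) (c (l 16765336) (l 16765120))) (c (b (l 16769000) (l 16771904)) (b (l 16770016) (c (l 16771088) (l 16772288))))) (b (c (l 16767552) (c (l 16765952) (l 16767056))) (c (b (l 16769600) (c (l 16771888) (l 16771800))) (b (l 16769984) (c (l 16773016) (l 16772256)))))) (a (b (c (l 16767824) (c (l 16767880) (l 16767680))) (c (b (l 16771504) (c (l 16773792) (l 16773712))) (b (c (l 16770008) (l 16769880)) (c (l 16773296) (c (l 16773560) (l 16772856)))))) (c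 (b (c (l 16767520) (l 16769976)) (b (l 16772104) (c (l 16774384) (l 16773984)))) (b (c (l 16768488) (l 16767976)) (a (b (l 16770408) (c (l 16774080) (l 16773344))) (b (l 16770720) (c (l 16773728) (l 16773656))))))))), by decide +kernel⟩

def k32_pp_022_t : ∃ t, chk3 f_pp_022_t t 290 246 1 = true :=
  ⟨(b (c (a (b (l 16768536) (c (l 16769520) (l 16770696))) (c (b (l 16768488) (l 16772008)) (b (l 16768336) (l 16771896)))) (a (a (b (l 16766552) (l 16770176)) (b (l 16767168) (l 16770136))) (c (b (l 16768176) (c (l 16770496) (l 16771744))) (b (l 16769320) (c (l 16771680) (l 16771616)))))) (a (a (c (b (l 16772040) (b (l 16774376) (a (l 16774040) (l 16774336)))) (b (c (l 16771232) (l 16772432)) (c (b (l 16772952) (l 16774760)) (b (l 16772880) (l 16774544))))) (c (b (c (l 16772024) (l 16773248)) (c (b (l 16773688) (l 16773488)) (b (l 16773624) (c (l 16774768) (l 16774744))))) (b (c (l 16773152) (l 16772400)) (c (b (l 16773560) (c (l 16774720) (l 16775352))) (b (l 16774152) (c (l 16775336) (l 16775312)))))))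 (a (b (c (c (l 16773920) (l 16773840)) (c (l 16773432) (c (l 16773696) (l 16772992)))) (b (c (c (l 16774272) (l 16774224)) (a (l 16774640) (l 16774952))) (a (c (a (l 16775144) (l 16775296)) (c (l 16775824) (l 16775616))) (b (c (l 16775232) (l 16775816)) (c (l 16774480) (c (l 16775752) (l 16775728))))))) (a (c (b (l 16774000) (b (l 16773376) (a (l 16774424) (l 16775224)))) (b (c (l 16774216) (l 16773480)) (c (b (l 16774624) (a (l 16775040) (l 16775192))) (b (l 16774576) (b (l 16775448) (l 16775376)))))) (c (b (c (l 16773344) (l 16774584)) (l 16775872)) (b (b (l 16772592) (l 16773744)) (a (b (l 16775480) (b (l 16775696) (l 16775616))) (b (l 16775632) (b (l 16775848) (l 16775768)))))))))), by decide +kernel⟩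

def k33_pp_022_t : ∃ t, chk3 f_pp_022_t t 582 246 1 = true :=
  ⟨(b (a (c (b (l 16769304) (l 16772184)) (b (l 16770328) (c (l 16771376) (l 16772576)))) (b (c (l 16769896) (l 16770288)) (c (a (l 16771968) (l 16773576)) (a (l 16772432) (l 16772736))))) (b (a (b (c (l 16774504) (a (l 16772896) (l 16773200))) (a (a (l 16774688) (l 16774672)) (c (l 16774456) (l 16775008)))) (c (a (b (l 16773640) (l 16773440)) (b (l 16773928) (l 16774064))) (c (b (l 16773688) (c (l 16775504) (l 16775480))) (b (l 16774280) (c (l 16775456) (l 16775432)))))) (a (c (a (l 16776080) (c (l 16776464) (b (l 16774248) (l 16776680)))) (b (b (c (l 16775088) (l 16775704)) (a (c (l 16775512) (l 16775480)) (c (l 16775816) (l 16775784)))) (a (c (l 16776368) (l 16776352)) (b (l 16776376) (a (l 16776880) (b (l 16776888) (l 16777488))))))) (b (c (l 16776008) (a (b (a (l 16775448) (l 16775600)) (c (l 16776112) (l 16775440))) (b (a (l 16775752) (l 16775904)) (l 16776408)))) (b (a (c (l 16776704) (l 16776680)) (a (a (l 16776880)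 (l 16776952)) (b (l 16776920) (a (l 16777488) (l 63585649143))))) (b (a (a (l 16777040) (a (l 16777144) (l 57143198183))) (a (a (l 93113549399) (l 146263769623)) (l 4))) (a (a (a (l 86671098423) (l 136600093191)) (l 4)) (l 4)))))))), by decide +kernel⟩

def k34_pp_022_t : ∃ t, chk3 f_pp_022_t t 583 246 1 = true :=
  ⟨(b (c (b (c (l 16772152) (l 16772040)) (a (c (l 16774056) (l 16773976)) (b (l 16772744) (a (l 16773704) (l 16773992))))) (b (c (c (l 16770640) (l 16771888)) (c (l 16771832) (l 16771768))) (c (b (l 16772976) (a (l 16773152) (l 16773760))) (b (c (l 16772248) (l 16772200)) (a (l 16773080) (l 16774344)))))) (b (b (a (a (c (l 16774224) (l 16774768)) (c (l 16774520) (l 16775072))) (a (c (l 16773504) (c (l 16774744) (l 16774696))) (c (l 16774120) (c (l 16775048) (l 16775664))))) (c (c (l 16775792) (l 16775928)) (c (a (b (l 16774496) (a (l 16775568) (l 16775872))) (l 16776040)) (b (a (a (l 16774960) (l 16775264)) (a (l 16775568) (l 16775880))) (a (a (l 16775544) (l 16775848)) (l 16776304))))))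 (b (a (a (c (l 16776448) (c (l 16776432) (l 16776416))) (b (c (l 16776464) (l 16776432)) (b (c (l 16776880) (l 16776872)) (a (l 16777408) (a (l 16777512) (l 75933680167)))))) (a (b (c (l 16776752) (l 16776736)) (b (a (l 16777424) (a (l 16777440) (l 83449872951))) (c (l 137673835287) (c (l 141968802503) (l 182770991399))))) (b (a (c (l 16776968) (l 16777128)) (b (l 16776976) (a (l 55532585431) (l 90429194823)))) (c (l 186529087991) (c (l 191360926183) (l 192971538919)))))) (a (b (b (a (a (l 16777392) (a (l 16777496) (l 70028100103))) (a (a (l 112440902183) (l 4)) (l 4))) (a (a (a (l 105461580311) (l 160222413271)) (l 4)) (l 4))) (l 4)) (l 4))))), by decide +kernel⟩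

def k35_pp_022_t : ∃ t, chk3 f_pp_022_t t 288 494 1 = true :=
  ⟨(a (a (c (b (l 16771768) (b (l 16774120) (a (l 16773800) (l 16774096)))) (b (c (l 16770952) (l 16771496)) (c (b (l 16772696) (l 16774520)) (b (l 16772616) (l 16774296))))) (c (b (c (l 16771760) (l 16771664)) (b (l 16774064) (a (l 16774392) (a (l 16774616) (l 16774768))))) (b (c (l 16772880) (l 16772120)) (c (b (l 16773312) (c (l 16774488) (l 16775112))) (b (l 16773896) (c (l 16775088) (l 16775064))))))) (b (a (c (c (l 16773664) (l 16773576)) (c (l 16772840) (c (l 16773424) (l 16772720)))) (c (c (l 16774256) (l 16773856)) (c (c (l 16774120) (l 16773432)) (b (l 16772120) (l 16773960))))) (b (c (a (c (l 16774032) (l 16773976)) (a (l 16774448) (a (l 16774672) (l 16774824)))) (c (a (l 16774576) (c (l 16774544) (l 16775176))) (a (l 16774352) (c (l 16775152) (l 16775128))))) (c (c (l 16775448) (b (a (l 16774832) (l 16774776)) (l 16775704))) (b (a (c (l 16774792) (l 16775408)) (a (l 16775888) (a (l 16775464) (l 16775616)))) (a (a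 (l 16775856) (a (l 16775432) (l 16775584))) (a (c (l 16775832) (l 16776464)) (c (l 16775480) (a (l 16776040) (l 16776192)))))))))), by decide +kernel⟩

def k36_pp_022_t : ∃ t, chk3 f_pp_022_t t 578 494 1 = true :=
  ⟨(a (c (b (b (l 16774248) (a (l 16773920) (l 16774216))) (c (l 16775768) (b (a (l 16775024) (l 16774672)) (l 16776320)))) (b (c (b (l 16772824) (l 16774640)) (b (l 16772744) (l 16774416))) (b (a (c (l 16775648) (l 16775600)) (b (l 16774984) (a (l 16775488) (l 16775648)))) (c (l 16776464) (c (l 16776288) (b (a (l 16775824) (l 16775480)) (l 16776576))))))) (b (c (c (b (l 16773560) (l 16773696)) (b (l 16773504) (c (l 16774648) (l 16774624)))) (c (b (l 16773432) (c (l 16774600) (l 16775232))) (b (l 16774024) (c (l 16775208) (l 16775184))))) (b (c (l 16776112) (a (b (l 16775944) (a (l 16775800) (l 16775952))) (b (a (l 16775520) (l 16775672)) (a (l 16775448) (l 16775768))))) (c (b (l 16776632) (a (c (l 16777040) (l 16777360)) (b (l 16777672) (l 150558737223)))) (b (a (l 16776456)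 (l 16776768)) (b (a (l 16776896) (a (l 16777448) (a (l 58753810935) (l 110293418423)))) (a (a (l 16777432) (a (l 52848230871) (l 104387838375))) (c (l 161296155287) (l 193508409687))))))))), by decide +kernel⟩

def k37_pp_022_t : ∃ t, chk3 f_pp_022_t t 579 494 1 = true :=
  ⟨(a (a (b (b (c (l 16773976) (l 16774520)) (c (a (l 16775032) (l 16775176)) (a (l 16775608) (l 16775592)))) (b (c (l 16776232) (b (a (l 16775824) (l 16775976)) (l 16776488))) (b (b (c (l 16776936) (l 16776928)) (c (l 16777600) (a (l 16777456) (a (l 70564970935) (l 115662127575))))) (c (l 194045280791) (c (l 197803377175) (l 201024602631)))))) (b (b (c (l 16774272) (l 16774824)) (b (a (l 16775008) (l 16775808)) (c (l 16775680) (a (l 16775552) (l 16775704))))) (b (c (l 16776528) (c (l 16776504) (l 16776576))) (b (b (c (l 52848231191) (a (l 16777472) (a (l 77544292807) (l 131768254871)))) (l 4)) (l 4))))) (b (b (c (c (l 16773432) (c (l 16774704) (l 16774688))) (c (c (l 16774664) (l 16775296)) (c (l 16775272) (l 16775248))))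 (c (l 16775840) (a (b (c (l 16775368) (l 16775328)) (a (l 16775856) (l 16775352))) (b (c (l 16775672) (l 16775640)) (a (l 16775504) (l 16775656)))))) (b (b (c (l 16776688) (c (l 16776672) (c (l 16776664) (l 16776656)))) (b (c (a (l 16776960) (l 60364423991)) (a (l 16776952) (a (c (l 16777168) (l 16777496)) (c (l 103850967591) (l 105998451223))))) (a (c (l 56606327591) (a (c (l 16777152) (l 16777480)) (c (l 99019129351) (l 100092871175)))) (l 4)))) (l 4)))), by decide +kernel⟩

def k38_pp_022_t : ∃ t, chk3 f_pp_022_t t 144 1980 1 = true :=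
  ⟨(a (c (a (c (l 16775392) (b (a (l 16774776) (l 16774720)) (l 16775648))) (a (c (l 16776280) (l 16776264)) (b (l 16776584) (a (l 16777480) (b (l 16777464) (l 126936417111)))))) (a (b (a (c (l 16774736) (l 16775344)) (a (l 16775832) (a (l 16775408) (l 16775560)))) (a (a (l 16775800) (a (l 16775376) (l 16775528))) (a (c (l 16775776) (l 16775752)) (c (l 16775424) (c (l 16776064) (l 16776056)))))) (a (c (l 16776328) (a (b (l 16776432) (a (l 16776296) (l 16775792))) (l 16776384))) (b (a (l 16776408) (l 16776712)) (b (a (l 16776848) (a (l 16777072) (a (l 16777344) (l 75933680071)))) (a (a (l 16777056) (a (l 16777168) (l 63585649159))) (c (l 136600093351) (c (l 138210706055) (l 180086636807))))))))) (a (a (a (c (b (l 16777504) (l 181160378839)) (a (b (l 16777104) (c (l 183844733303) (l 185992216951))) (b (b (l 16776944) (a (l 16777352) (l 82913001943))) (l 4)))) (b (c (b (l 16777488) (l 139821318951)) (b (a (l 16777096) (a (l 16777440) (l 89355452903))) (c (l 145190027975) (l 184918475063))))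 (l 4))) (a (b (c (l 189213442551) (c (l 192971538935) (c (l 194582151671) (l 195655893479)))) (l 4)) (l 4))) (l 4))), by decide +kernel⟩

def k39_pp_022_t : ∃ t, chk3 f_pp_022_t t 144 1981 1 = true :=
  ⟨(a (b (a (c (a (l 16775936) (l 16776528)) (c (a (a (l 16775744) (l 16775400)) (l 16776512)) (a (a (l 16775720) (c (l 16776040) (l 16776024))) (c (l 16776504) (l 16776496))))) (a (c (a (l 16777296) (b (l 16777448) (l 118883353399))) (b (a (l 16776816) (a (l 16777048) (a (l 16777152) (l 58216940007)))) (a (a (l 16777032) (a (l 16777144) (l 51774489047))) (a (a (l 103314096551) (l 150021865927)) (l 4))))) (a (a (b (a (a (l 100092871079) (l 131231383943)) (l 159148671447)) (l 4)) (l 4)) (l 4)))) (a (a (c (l 16776504) (a (c (l 16775680) (a (l 16776240) (l 16775736))) (l 16776632))) (a (c (l 16777272) (a (l 16776864) (a (l 16776976) (b (l 16776248) (l 16777352))))) (b (a (l 16777024) (a (l 16777296) (a (l 16777352) (l 53385101799)))) (a (a (a (l 71638712775) (l 100092871079)) (l 129083900407))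 (l 4))))) (b (a (a (a (a (a (l 82913001895) (l 107072192951)) (l 135526351367)) (l 4)) (l 4)) (l 4)) (l 4)))) (l 4)), by decide +kernel⟩

def k40_pp_022_t : ∃ t, chk3 f_pp_022_t t 144 991 1 = true :=
  ⟨(b (a (a (a (a (c (b (l 16777248) (c (l 118346482663) (l 162906767703))) (b (a (l 16776832) (b (l 16776840) (l 16777376))) (b (a (b (l 16777360) (l 149484994967)) (l 166664864247)) (l 4)))) (b (b (c (l 16777072) (c (l 16777064) (c (l 16777064) (l 16777312)))) (a (b (c (l 16777200) (l 16777368)) (l 150558736903)) (l 4))) (l 4))) (a (b (b (a (b (a (l 16777184) (l 90966065543)) (l 4)) (l 4)) (l 4)) (l 4)) (l 4))) (l 4)) (l 4)) (l 4)), by decide +kernel⟩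

def k41_pp_022_t : ∃ t, chk3 f_pp_022_t t 290 247 1 = true :=
  ⟨(b (a (a (b (c (a (l 16775968) (c (l 16776024) (l 16776336))) (b (a (c (l 16775760) (l 16775720)) (b (l 16775760) (a (l 16775608) (l 16775760)))) (a (b (a (l 16775880) (l 16775384)) (l 16776544)) (c (l 16776560) (c (l 16776552) (l 16776712)))))) (b (b (b (a (c (l 16776984) (l 16777144)) (a (c (l 16777192) (c (l 16777192) (l 11509170615))) (a (l 106535322135) (l 160759284183)))) (a (c (l 64122520407) (a (c (l 16777176) (l 16777424)) (c (l 116198998503) (l 119957094871)))) (l 4))) (l 4)) (l 4))) (b (b (c (l 16775896) (a (b (a (l 16775328) (l 16775480)) (c (l 16776000) (l 16775400))) (b (a (l 16775632) (l 16775792)) (a (l 16775560) (l 16775712))))) (b (a (a (l 16776504) (l 16776656)) (a (l 16776808) (a (l 16776920) (l 16777192)))) (b (a (c (l 16777008) (c (l 16777008) (l 16777000))) (a (b (l 16777488) (l 103850967639)) (c (l 134452609559) (l 137673835031)))) (a (c (l 75933680423) (a (c (l 16777192) (l 54458843591)) (l 124252062295)))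 (l 4))))) (l 4))) (b (b (a (c (c (l 16776488) (l 16776808)) (a (b (c (l 16776024) (l 16775352)) (l 16776600)) (c (l 16776776) (c (l 16776856) (b (l 16775656) (l 16777056)))))) (b (a (c (l 16776648) (l 16776624)) (c (l 16776936) (a (l 16776856) (a (l 16776968) (l 16777200))))) (b (a (c (l 16777064) (c (l 16777056) (l 16777384))) (a (b (l 47479521831) (l 143579415111)) (l 4))) (a (a (b (l 16777480) (l 134989480503)) (c (l 161833026039) (l 164517380599))) (l 4))))) (b (a (a (a (b (l 16776960) (b (l 16777496) (l 112440902247))) (c (l 60364423975) (b (l 16777104) (l 143042544167)))) (b (a (b (l 16777512) (l 121030836855)) (c (l 148411253303) (l 148948124215))) (l 4))) (l 4)) (l 4))) (l 4))) (l 4)), by decide +kernel⟩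

def k42_pp_022_t : ∃ t, chk3 f_pp_022_t t 291 247 1 = true :=
  ⟨(a (a (b (b (b (b (b (a (c (l 16777088) (c (l 16777080) (l 16777408))) (a (a (l 79691776551) (l 129620771319)) (l 4))) (a (a (a (a (l 16777384) (l 89355452855)) (l 123178320359)) (l 4)) (l 4))) (l 4)) (l 4)) (l 4)) (l 4)) (l 4)) (l 4)), by decide +kernel⟩

def k43_pp_022_t : ∃ t, chk3 f_pp_022_t t 146 984 1 = true :=
  ⟨(a (a (a (c (l 16772656) (c (l 16771520) (l 16772720))) (c (c (l 16772296) (l 16773520)) (c (l 16773432) (l 16772680)))) (c (a (c (l 16774192) (l 16774112)) (b (l 16772880) (a (l 16773832) (l 16774120)))) (c (b (l 16773112) (a (l 16773288) (l 16773888))) (b (c (l 16772392) (l 16772344)) (a (l 16773216) (l 16774480)))))) (c (a (a (c (b (l 16773496) (l 16774584)) (b (l 16773424) (l 16773224))) (a (b (l 16773896) (l 16773688)) (b (l 16774192) (l 16773976)))) (c (l 16775808) (c (l 16775456) (l 16775768)))) (b (a (c (a (l 16773360) (l 16773952)) (a (l 16773280) (l 16774544))) (a (a (l 16775032) (a (l 16774600)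 (l 16774752))) (a (c (l 16775000) (l 16775608)) (c (l 16773984) (c (l 16775272) (l 16775248)))))) (a (a (a (l 16774968) (a (l 16774536) (l 16774688))) (a (c (l 16774936) (l 16775544)) (c (l 16775232) (a (l 16775120) (l 16775272))))) (a (b (c (l 16774744) (a (l 16775208) (l 16775512))) (b (a (l 16775656) (l 16775304)) (l 16776096))) (a (l 16776120) (l 16776496))))))), by decide +kernel⟩

def k44_pp_022_t : ∃ t, chk3 f_pp_022_t t 292 985 1 = true :=
  ⟨(a (a (c (c (b (l 16773360) (l 16774456)) (b (l 16773296) (l 16774408))) (a (b (l 16773032) (l 16774832)) (b (l 16773336) (l 16774976)))) (c (a (b (l 16773768) (l 16773560)) (b (l 16774056) (l 16773856))) (c (b (l 16773824) (a (l 16774808) (l 16775112))) (b (l 16774416) (a (l 16774760) (l 16775720)))))) (c (c (c (l 16775368) (l 16775352)) (c (l 16775336) (l 16775640))) (b (a (a (l 16774904) (l 16775040)) (a (c (l 16774872) (l 16775480)) (c (l 16775168) (l 16775784)))) (c (c (l 16775864) (l 16775848)) (b (a (a (l 16775080) (l 16775392)) (a (l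 16775696) (l 16775344))) (a (a (l 16775664) (l 16775312)) (l 16776424))))))), by decide +kernel⟩

def k45_pp_022_t : ∃ t, chk3 f_pp_022_t t 293 985 1 = true :=
  ⟨(b (a (c (c (l 16775960) (l 16776104)) (c (c (l 16775920) (l 16775912)) (b (a (c (l 16775312) (l 16775288)) (a (l 16775752) (l 16775400))) (a (a (l 16775728) (l 16775376)) (l 16776480))))) (a (a (c (l 16776672) (a (l 16776584) (b (l 16775792) (l 16777336)))) (b (c (l 16776688) (l 16776672)) (b (c (l 16777096) (a (l 16777024) (l 16777488))) (a (a (l 77544292903) (l 128547029479)) (l 4))))) (a (b (c (l 16776976) (c (l 16776968) (c (l 16776960) (l 16777288)))) (c (l 128010159223) (c (l 174181056903) (c (l 176328540551) (l 177402282375))))) (b (b (c (l 16777120) (a (l 16777048) (l 16777512))) (a (a (l 92576678471) (l 144653156887)) (l 4))) (l 4))))) (a (a (c (a (l 16776616) (a (l 16777488) (b (l 16776704) (l 16777624)))) (a (c (l 16776600) (c (l 16776592) (l 16776752))) (b (l 16776608) (b (l 16777280) (a (l 65196261959) (l 145190027815))))))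 (a (b (c (l 16776920) (c (l 16776912) (l 16777072))) (b (a (a (l 16777448) (l 93113549399)) (l 144116286183)) (l 4))) (b (b (a (l 16777000) (l 16777504)) (a (a (l 64122520055) (l 105461580311)) (l 147337511671))) (l 4)))) (b (a (a (a (b (a (l 71101841927) (l 113514644007)) (l 4)) (l 4)) (l 4)) (l 4)) (l 4)))), by decide +kernel⟩

def k46_pp_022_t : ∃ t, chk3 f_pp_022_t t 146 493 1 = true :=
  ⟨(b (b (a (a (c (c (l 16775848) (l 16775984)) (c (a (b (l 16774560) (c (l 16775784) (l 16775120))) (l 16776096)) (b (a (c (l 16775184) (l 16775160)) (a (l 16775632) (l 16775936))) (a (a (l 16775600) (l 16775904)) (l 16776368))))) (a (b (c (l 16776432) (c (l 16776408) (l 16776392))) (a (c (l 16776840) (l 16776824)) (c (c (l 16777112) (l 16777760)) (b (l 16776984) (a (l 16777504) (l 108145934983)))))) (b (c (a (l 16776864) (a (l 16777072) (l 16777520))) (a (c (l 16776856) (l 16776848)) (b (l 16777336) (a (l 53921972759) (l 125862675031))))) (b (a (c (l 16777568) (a (l 10435428887) (l 119420224071)))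 (l 4)) (l 4))))) (b (b (a (a (a (c (l 80228647751) (a (l 58753810999) (l 139284447767))) (l 4)) (l 4)) (l 4)) (l 4)) (l 4))) (a (a (a (b (c (l 16776376) (c (l 16776352) (l 16776336))) (a (c (l 16776784) (l 16776768)) (a (c (l 16777000) (l 16777232)) (b (l 16777008) (a (l 66806874631) (l 109219676711)))))) (a (b (c (l 16776808) (l 16776792)) (b (a (c (l 16777144) (l 16777472)) (a (l 74323067415) (l 124252062183))) (l 4))) (b (c (l 16777736) (b (l 16776952) (a (l 16777480) (l 96334774871)))) (l 4)))) (b (b (a (a (c (l 16777544) (a (l 16777496) (l 101703484023))) (l 4)) (l 4)) (l 4)) (l 4))) (l 4))) (a (a (a (b (b (b (a (a (c (l 16777120) (l 16777120)) (a (l 61975036391) (l 97945387607))) (c (l 158074929911) (l 195119022423))) (a (c (l 149484995383) (l 190287184199)) (l 4))) (l 4)) (l 4)) (l 4)) (l 4)) (l 4))), by decide +kernel⟩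

def k47_pp_022_t : ∃ t, chk3 f_pp_022_t t 147 246 1 = true :=
  ⟨(b (a (b (b (a (c (c (l 16776080) (l 16776064)) (c (c (l 16776048) (l 16776032)) (a (a (b (l 16775272) (l 16775848)) (b (l 16775576) (l 16775496))) (c (l 16776320) (l 16776312))))) (a (c (a (l 16777280) (b (l 16776808) (c (l 83449873351) (l 85597356983)))) (a (b (l 16776496) (a (l 16776984) (b (l 16776992) (l 80228647463)))) (b (l 16776792) (b (a (l 16777136) (l 86134227511)) (l 195655893335))))) (b (a (c (l 16777736) (b (l 16776952) (a (l 16777144) (l 92576678471)))) (b (c (l 16777208) (a (l 16777160) (l 98482258535))) (l 4))) (l 4)))) (a (a (b (c (l 16776608) (c (l 16776584) (l 16776576))) (b (c (l 16777664) (a (l 16776856) (a (l 16777080) (l 57680069159)))) (a (c (l 16777136) (c (l 16777128) (l 16777496))) (c (l 128547029847) (c (l 137673835175) (l 139284447911)))))) (a (b (c (l 16777024) (a (l 16776952) (b (l 16776960) (l 63048778311)))) (c (l 184381604311) (c (l 185992217047) (l 189213442503)))) (b (b (a (l 16777440)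 (a (l 16777528) (l 92039807559))) (a (l 133915738823) (l 4))) (l 4)))) (a (a (c (l 192971539287) (c (l 197266506567) (a (l 199413990119) (l 4)))) (l 4)) (l 4)))) (b (b (a (a (a (a (c (l 134989480775) (l 176328540503)) (l 4)) (l 4)) (l 4)) (l 4)) (l 4)) (l 4))) (l 4)) (l 4)), by decide +kernel⟩

def k48_pp_022_t : ∃ t, chk3 f_pp_022_t t 73 247 1 = true :=
  ⟨(l 4), by decide +kernel⟩

def k49_pp_022_t : ∃ t, chk3 f_pp_022_t t 74 488 1 = true :=
  ⟨(a (a (c (c (b (l 16764656) (l 16769392)) (b (l 16764424) (l 16767888))) (c (a (l 16767296) (l 16767184)) (a (l 16765736) (l 16766952)))) (a (c (b (l 16766288) (l 16769728)) (b (l 16767168) (c (l 16768160) (l 16767976)))) (c (b (l 16770064) (c (l 16769632) (l 16769496))) (b (c (l 16767152) (l 16766952)) (c (l 16769344) (l 16770488)))))) (c (a (c (b (c (l 16771896) (l 16771824)) (a (l 16770768) (b (l 16771376) (l 16772424)))) (b (c (l 16771744) (l 16770360)) (a (l 16771960) (b (l 16771264) (l 16772336))))) (c (b (a (l 16770936) (b (l 16771536) (l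 16772576))) (l 16774240)) (b (a (l 16772120) (b (l 16771424) (l 16772488))) (b (a (l 16772408) (a (l 16773272) (l 16773840))) (l 16774456))))) (a (a (a (b (l 16767944) (l 16771464)) (b (l 16768544) (l 16771400))) (b (c (l 16769512) (l 16770664)) (c (c (l 16773032) (l 16772976)) (b (l 16771024) (l 16773448))))) (a (b (a (l 16771632) (l 16771568)) (a (a (l 16773688) (l 16773648)) (b (l 16773872) (a (l 16773512) (l 16773808))))) (a (b (a (l 16771352) (l 16772960)) (b (a (l 16773000) (l 16773296)) (c (l 16774280) (l 16774872)))) (b (c (l 16772144) (l 16773352)) (c (b (l 16773768) (l 16773544)) (b (l 16773696) (c (l 16774824) (l 16775448)))))))))), by decide +kernel⟩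

def k50_pp_022_t : ∃ t, chk3 f_pp_022_t t 148 489 1 = true :=
  ⟨(a (a (b (c (l 16769552) (a (l 16767592) (l 16768192))) (c (c (l 16770448) (l 16771632)) (c (l 16771504) (l 16770872)))) (c (a (b (l 16769112) (l 16772560)) (b (l 16769688) (a (l 16771680) (l 16771968)))) (b (c (l 16769168) (l 16770320)) (c (b (l 16770824) (l 16773240)) (c (l 16772600) (l 16772536)))))) (c (b (a (c (l 16770608) (l 16771800)) (a (l 16772720) (c (l 16772032) (l 16771928)))) (b (a (c (l 16772200) (l 16772104)) (a (l 16773008) (l 16772272))) (a (a (l 16772936) (l 16772200)) (l 16774360)))) (a (a (b (l 16771296) (c (l 16773568) (l 16773472))) (b (l 16771240) (c (l 16774160) (c (l 16774096) (l 16774048))))) (a (b (c (l 16771240) (l 16771120)) (b (l 16773496) (a (l 16773808) (l 16774104)))) (b (c (l 16771824) (l 16773024)) (c (b (l 16773472) (l 16773264)) (b (l 16773400) (c (l 16774536) (l 16774504))))))))), by decide +kernel⟩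

def k51_pp_022_t : ∃ t, chk3 f_pp_022_t t 298 489 1 = true :=
  ⟨(c (b (a (a (a (l 16772408) (l 16772696)) (b (l 16772592) (l 16772344))) (b (a (l 16773160) (l 16772416)) (l 16774504))) (a (c (l 16774984) (l 16774944)) (a (l 16776144) (b (l 16775848) (a (l 16776768) (b (l 16776784) (l 75933680695))))))) (a (b (a (c (l 16773728) (l 16773624)) (b (l 16773712) (a (l 16773360) (l 16773656)))) (c (b (a (l 16774056) (l 16773336)) (l 16775448)) (b (a (l 16775304) (c (l 16774600) (l 16774576))) (b (a (l 16774832) (l 16774776)) (a (l 16774576) (a (l 16775840) (l 16776136))))))) (a (b (a (c (l 16774752) (l 16774016)) (b (l 16773144) (l 16774904))) (c (l 16775776) (c (l 16775752) (l 16775904)))) (b (c (b (l 16773624) (l 16773400)) (b (l 16773544) (c (l 16774672) (l 16774648)))) (b (b (a (l 16775368) (l 16775008)) (l 16776072)) (a (a (l 16776680) (b (l 16775896) (l 16777416))) (b (l 16776768) (b (a (l 16777104) (l 16777552)) (l 144653157143))))))))), by decide +kernel⟩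

def k52_pp_022_t : ∃ t, chk3 f_pp_022_t t 299 489 1 = true :=
  ⟨(b (c (a (c (l 16775120) (l 16775080)) (a (l 16776272) (b (l 16775984) (b (l 16776776) (a (l 16777144) (l 108682806343)))))) (a (c (b (a (l 16774208) (l 16773472)) (l 16775584)) (b (a (l 16774800) (c (l 16774744) (l 16774720))) (b (a (l 16774976) (l 16774912)) (l 16775992)))) (b (c (l 16775656) (b (a (l 16775048) (l 16774984)) (l 16776064))) (a (a (l 16776304) (l 16776760)) (b (a (l 16776608) (l 16776904)) (a (a (l 16777408) (a (l 16777504) (l 69491229383))) (a (a (l 96334774983) (l 122104578775)) (l 187065958775)))))))) (b (a (a (c (l 16776416) (c (l 16776392) (l 16776368))) (a (b (l 16776560) (a (l 16777352) (b (l 16777032) (l 92039807687)))) (b (c (l 16776848) (l 16776832)) (b (a (l 16777496) (l 101166613175)) (l 4))))) (b (a (a (b (l 16777320) (a (l 16777512) (l 106535322327))) (b (a (l 16777520) (l 114051515111)) (l 4))) (l 4)) (l 4))) (a (a (a (b (a (l 16777320) (b (l 16777000) (l 75933680327))) (c (l 160222413799)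 (l 192971538919))) (b (b (a (l 16777136) (l 82913002199)) (c (l 157538058999) (l 161296155367))) (l 4))) (l 4)) (l 4)))), by decide +kernel⟩

def k53_pp_022_t : ∃ t, chk3 f_pp_022_t t 148 980 1 = true :=
  ⟨(b (c (a (a (a (l 16771712) (l 16772288)) (a (l 16772864) (l 16772128))) (a (l 16774296) (b (l 16775168) (l 16775704)))) (a (a (c (l 16771848) (l 16773056)) (a (l 16773352) (a (l 16773136) (l 16773440)))) (c (a (a (l 16773912) (l 16773192)) (l 16775384)) (a (a (l 16773848) (c (l 16774464) (l 16774432))) (b (a (l 16774760) (l 16774544)) (a (l 16774504) (a (l 16775776) (l 16776072)))))))) (a (a (a (c (l 16772792) (l 16773272)) (c (l 16772056) (c (l 16773256) (l 16773176)))) (c (l 16774224) (a (a (l 16773664) (l 16773960)) (c (l 16773120) (c (l 16774392) (l 16774360)))))) (a (b (c (l 16775096) (a (c (l 16774744) (l 16774696)) (a (l 16775160) (l 16774800)))) (c (l 16775960) (a (a (l 16775128) (l 16775424)) (l 16775872)))) (a (c (l 16776216) (c (l 16776192) (l 16776168))) (a (c (l 16776640)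 (c (l 16776624) (l 16776616))) (b (a (l 16776576) (l 16776720)) (b (a (l 16776984) (l 16777128)) (a (l 70564971191) (l 143042544343))))))))), by decide +kernel⟩

def k54_pp_022_t : ∃ t, chk3 f_pp_022_t t 148 981 1 = true :=
  ⟨(a (a (b (c (l 16774808) (a (a (l 16773592) (l 16773888)) (c (l 16773376) (l 16774960)))) (c (b (l 16774968) (l 16775832)) (a (c (c (l 16774896) (l 16774872)) (c (l 16775504) (l 16775480))) (b (a (l 16775024) (l 16775320)) (a (l 16774936) (l 16775232)))))) (c (a (l 16775880) (a (l 16775984) (b (l 16774416) (l 16777456)))) (b (a (a (a (l 16774704) (l 16774856)) (a (l 16775000) (l 16774168))) (b (a (l 16775096) (l 16775392)) (l 16775800))) (a (c (l 16776064) (l 16776040)) (b (l 16776488) (a (l 16776776) (a (l 16776992) (b (l 16777000) (l 83986743847))))))))) (b (a (c (a (l 16776160) (c (l 16776720) (l 16777368))) (b (a (l 16775832) (l 16776512)) (a (l 16776520) (a (l 16776840) (b (l 16776992) (a (l 16777184) (l 110293418631))))))) (a (b (a (c (l 16776880) (l 16776864))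 (b (c (l 16777032) (l 16777024)) (a (l 54458843863) (l 126399546039)))) (b (a (a (l 48016392903) (l 114588386039)) (l 4)) (l 4))) (a (b (b (a (l 61975036615) (l 132841996999)) (l 4)) (l 4)) (l 4)))) (a (b (a (c (l 16777608) (a (l 16776808) (b (l 16776960) (a (l 16777152) (l 96334774871))))) (b (a (a (l 16777496) (l 102240355015)) (l 4)) (l 4))) (b (a (a (a (l 16777472) (a (l 16777560) (l 116735869479))) (l 4)) (l 4)) (l 4))) (l 4)))), by decide +kernel⟩

def k55_pp_022_t : ∃ t, chk3 f_pp_022_t t 148 491 1 = true :=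
  ⟨(a (a (b (b (c (c (l 16776648) (c (l 16776312) (l 16776624))) (b (a (a (l 16774896) (l 16775200)) (l 16776416)) (a (l 16776384) (a (l 16776712) (a (l 16776928) (l 16777480)))))) (b (a (c (l 16777496) (a (l 16776680) (a (l 16776904) (l 16777368)))) (b (a (c (l 16777128) (c (l 16777120) (l 16777448))) (a (l 111367160551) (l 4))) (a (a (l 104924709591) (l 4)) (l 4)))) (a (a (c (l 53921973335) (b (l 16777416) (c (l 114051515047) (l 115662127783)))) (c (l 128010159223) (c (l 173644185991) (l 175791669639)))) (l 4)))) (l 4)) (b (b (a (b (c (l 16777552) (c (l 16777376) (c (l 16777288) (a (l 16776080) (l 16777432))))) (b (a (c (l 16777152) (c (l 16777144) (l 16777472))) (c (l 139284448023) (l 142505673495))) (a (a (l 118346482423) (l 4)) (l 4)))) (b (a (c (l 77007422535) (b (a (l 16777112) (l 77544292887)) (l 147337511719))) (c (l 161296155639) (l 195119022583))) (l 4))) (l 4)) (l 4))) (l 4)), by decide +kernel⟩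

def k56_pp_022_t : ∃ t, chk3 f_pp_022_t t 149 245 1 = true :=
  ⟨(a (b (b (b (a (a (c (l 16776280) (c (l 16776256) (l 16776240))) (a (c (l 16776704) (c (l 16776688) (c (l 16776680) (l 16777000)))) (b (c (l 16776720) (l 16776704)) (b (c (l 16777112) (l 16777440)) (a (l 101703484087) (l 4)))))) (a (c (b (a (l 16777000) (l 66806875223)) (l 176328540759)) (a (b (c (l 16776992) (l 16777312)) (a (l 137136964391) (l 4))) (b (b (l 16777544) (l 128547029831)) (l 4)))) (a (b (c (l 146263770199) (l 183307862471)) (l 4)) (l 4)))) (a (a (a (b (c (l 16776944) (l 16777256)) (a (b (l 77007422151) (l 4)) (l 194045280679))) (b (b (c (l 16777088) (l 16777408)) (a (l 82913002215) (l 4))) (l 4))) (a (a (b (b (l 92576678599) (l 4)) (l 4)) (l 4)) (l 4))) (l 4))) (l 4)) (l 4)) (l 4)), by decide +kernel⟩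

def k57_pp_022_t : ∃ t, chk3 f_pp_022_t t 300 244 1 = true :=
  ⟨(b (c (b (c (l 16774392) (b (a (l 16772568) (l 16772392)) (l 16774528))) (a (c (l 16775264) (l 16775224)) (a (c (l 16776088) (l 16776072)) (b (l 16776120) (b (l 16776896) (c (l 89892324727) (l 91502937447))))))) (b (a (a (c (l 16774032) (l 16773616)) (b (l 16774032) (a (l 16773664) (l 16773960)))) (b (c (c (l 16773648) (l 16773616)) (c (l 16774888) (l 16774192))) (a (a (l 16774248) (l 16773560)) (c (l 16773688) (c (l 16774968) (l 16773960)))))) (a (b (a (a (l 16774176) (l 16773488)) (c (l 16773616) (c (l 16774896) (l 16773888)))) (c (l 16775728) (b (a (l 16775120) (l 16775056)) (l 16776136)))) (b (a (l 16775488) (c (l 16776080) (l 16776056))) (a (a (l 16776440) (b (l 16776456) (l 16777408))) (b (c (l 16776888) (c (l 16776880) (l 16777208))) (a (b (l 16777472) (l 130157642567)) (l 184381604295)))))))) (b (a (a (b (c (l 16776544) (c (l 16776520) (c (l 16776512) (l 16776832)))) (b (a (b (c (l 16777056) (l 16777056)) (a (l 68417487575)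 (l 142505673431))) (c (l 115662128247) (c (l 121567708119) (l 166664864055)))) (l 4))) (b (c (a (l 16777600) (b (l 16776976) (l 125862675543))) (b (c (l 16776824) (l 16777144)) (a (b (l 16777080) (l 105461580599)) (c (l 96334775207) (l 173107315047))))) (l 4))) (a (b (b (c (a (l 16777864) (l 136063222839)) (a (b (l 16777440) (l 116735869767)) (l 177402282391))) (l 4)) (l 4)) (l 4))) (l 4))), by decide +kernel⟩

def k58_pp_022_t : ∃ t, chk3 f_pp_022_t t 301 244 1 = true :=
  ⟨(b (a (a (b (c (l 16775104) (b (a (l 16774328) (l 16773632)) (l 16775560))) (b (c (l 16777328) (a (l 16776504) (a (l 16776720) (b (l 16775288) (l 16777456))))) (c (a (l 153243091399) (l 192971539271)) (b (a (b (l 16777584) (l 146263769879)) (l 194045280743)) (l 4))))) (b (c (l 16775664) (c (l 16775616) (b (c (l 16775040) (l 16774032)) (l 16776128)))) (b (b (a (l 16776824) (a (l 16777360) (b (l 16777040) (l 98482258599)))) (a (c (l 84523615335) (b (l 55532585735) (l 160759284471))) (l 4))) (l 4)))) (b (c (b (l 16776136)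 (a (l 16777472) (b (l 16777672) (l 114051516023)))) (b (a (l 16775632) (a (l 16776064) (l 16776360))) (a (a (l 16776576) (b (l 16776592) (b (l 16777000) (l 70564971351)))) (b (a (l 16776880) (b (l 16777032) (l 84523615031))) (a (b (l 79154905895) (l 4)) (l 4)))))) (a (a (b (b (b (a (l 16777176) (l 104387838663)) (l 4)) (l 4)) (l 4)) (l 4)) (l 4)))) (l 4)), by decide +kernel⟩

def k59_pp_022_t : ∃ t, chk3 f_pp_022_t t 151 244 1 = true :=
  ⟨(a (b (b (a (a (a (b (c (l 16776664) (l 16776808)) (b (a (a (l 97945387815) (l 122641449783)) (l 187602829703)) (l 4))) (b (b (l 16776672) (b (l 16777560) (a (l 16777568) (l 146263769831)))) (l 4))) (b (c (b (l 16777736) (l 126936417927)) (b (a (l 16776952) (b (l 16777096) (l 109756547911))) (c (l 173107315207) (c (l 176328540663) (l 177402282487))))) (l 4))) (a (b (a (b (c (l 129083901031) (l 173644185975)) (l 4)) (l 4)) (l 4)) (l 4))) (l 4)) (l 4)) (l 4)), by decide +kernel⟩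

def k60_pp_022_t : ∃ t, chk3 f_pp_022_t t 75 245 1 = true :=
  ⟨(l 4), by decide +kernel⟩

def k61_pp_022_t : ∃ t, chk3 f_pp_022_t t 37 123 1 = true :=
  ⟨(l 4), by decide +kernel⟩

def k62_pp_022_t : ∃ t, chk3 f_pp_022_t t 18 31 1 = true :=
  ⟨(l 4), by decide +kernel⟩

def k63_pp_022_t : ∃ t, chk3 f_pp_022_t t 38 240 1 = true :=
  ⟨(a (c (a (a (a (l 16757712) (l 16758856)) (c (l 16760776) (l 16757712))) (a (b (l 16760832) (a (l 16759000) (l 16760120))) (a (b (l 16757272) (l 16761232)) (b (l 16758392) (l 16764968))))) (a (a (c (l 16754904) (l 16754352)) (b (l 16754920) (c (l 16756680) (l 16756224)))) (b (c (a (l 16754896) (l 16757208)) (a (l 16754392) (l 16756752))) (c (a (l 16758992) (l 16763912)) (a (l 16758584) (l 16763552)))))) (a (c (b (c (a (l 16760224) (l 16757168)) (a (l 16759880) (l 16764728))) (a (c (b (l 16763152) (l 16765112)) (b (l 16762864) (l 16764856))) (c (b (l 16765328) (l 16762032)) (b (l 16765080) (l 16764448))))) (c (a (b (l 16759496) (l 16766192)) (b (l 16764392)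 (c (l 16768512) (l 16768384)))) (b (a (l 16759088) (l 16764032)) (a (c (l 16763336) (l 16765792)) (b (l 16767144) (l 16767912)))))) (c (a (c (l 16767824) (b (b (l 16763328) (l 16765296)) (b (l 16764656) (b (l 16766144) (l 16767136))))) (b (c (b (l 16765760) (l 16762448)) (b (l 16765520) (l 16764864))) (b (l 16769536) (l 16772144)))) (a (a (b (l 16764616) (b (l 16768992) (c (l 16768520) (l 16768320)))) (b (b (l 16763424) (l 16765456)) (b (c (l 16767616) (l 16767384)) (c (l 16769640) (l 16769456))))) (a (b (b (l 16764552) (l 16769208)) (c (b (l 16768728) (l 16770744)) (b (l 16768528) (l 16771904)))) (b (b (l 16765680) (c (l 16767824) (l 16767600))) (c (b (l 16769832) (l 16769232)) (b (l 16769664) (b (l 16771208) (l 16772240)))))))))), by decide +kernel⟩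

def k64_pp_022_t : ∃ t, chk3 f_pp_022_t t 76 241 1 = true :=
  ⟨(c (b (c (a (a (l 16759240) (l 16761472)) (a (b (l 16762696) (l 16764672)) (b (l 16764888) (l 16764240)))) (a (a (l 16758880) (l 16766400)) (a (l 16766032) (c (l 16768328) (l 16768208))))) (a (a (a (l 16765160) (l 16766288)) (c (b (l 16764456) (l 16766456)) (c (l 16767904) (l 16767784)))) (b (a (a (l 16766000) (l 16767104)) (a (l 16765584) (l 16766680))) (a (a (l 16765392) (a (l 16768840) (l 16769392))) (b (l 16770256) (l 16772568)))))) (b (c (a (a (l 16758496) (l 16763432)) (a (l 16765736) (b (l 16764368) (l 16769048)))) (a (a (l 16758080) (l 16763072)) (a (c (l 16762880) (l 16765336)) (b (l 16764072) (l 16767488))))) (a (c (a (l 16765280) (b (l 16763928) (l 16768624))) (a (c (l 16762424) (l 16764880)) (b (l 16763632) (l 16767064)))) (a (a (b (l 16765512) (l 16768928)) (b (l 16769288) (c (l 16768856) (l 16768664)))) (a (c (b (l 16767920) (l 16769984)) (b (l 16767704) (l 16771136))) (a (b (l 16768672) (l 16772072)) (b (l 16769240)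 (a (l 16771184) (l 16771472))))))))), by decide +kernel⟩

def k65_pp_022_t : ∃ t, chk3 f_pp_022_t t 77 482 1 = true :=
  ⟨(a (a (a (c (b (l 16766416) (l 16765784)) (c (l 16769712) (l 16768824))) (b (c (l 16767512) (l 16769704)) (c (l 16766872) (c (l 16769248) (l 16769064))))) (c (b (l 16769144) (b (l 16770632) (l 16771616))) (a (c (b (l 16768320) (l 16770368)) (b (l 16768112) (l 16771520))) (c (b (l 16769440) (l 16769512)) (b (l 16769256) (b (l 16770824) (l 16771872))))))) (a (c (c (l 16772344) (l 16773224)) (b (a (c (l 16770552) (l 16771712)) (c (l 16769048) (b (l 16771016) (l 16772056)))) (c (l 16773800) (a (a (l 16772200) (l 16771456)) (b (l 16771624) (c (l 16774160) (l 16772808))))))) (a (c (c (l 16773936) (l 16773864)) (c (l 16774120) (b (a (l 16772384) (l 16771640)) (l 16774744)))) (b (a (a (l 16773504) (l 16773776)) (a (l 16774048) (l 16774320))) (a (c (l 16775680) (l 16775608)) (c (l 16776208) (a (l 16776024) (a (l 16776232) (l 16776856))))))))), by decide +kernel⟩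

def k66_pp_022_t : ∃ t, chk3 f_pp_022_t t 77 483 1 = true :=
  ⟨(a (c (a (b (b (l 16770440) (l 16771440)) (c (l 16772976) (l 16772888))) (c (a (l 16773600) (l 16774664)) (a (l 16773520) (l 16774608)))) (a (a (c (b (l 16770176) (b (l 16771720) (l 16772752))) (b (l 16771328) (a (l 16771832) (l 16773720)))) (a (b (a (l 16770808) (l 16771088)) (b (l 16772504) (l 16772240))) (b (c (l 16771576) (l 16771448)) (b (l 16771760) (l 16772640))))) (b (b (a (a (l 16771560) (l 16772120)) (a (l 16772688) (l 16771936))) (a (a (l 16772592) (l 16771848)) (l 16774000))) (a (b (l 16773920) (b (l 16774696) (l 16775544))) (c (l 16775576) (c (l 16775544) (l 16775528))))))) (b (a (a (c (l 16774720) (b (l 16774088) (b (l 16774864) (l 16775384)))) (c (l 16776112) (c (l 16775736) (c (l 16775712) (l 16775696))))) (b (a (c (l 16776352) (a (l 16776040) (l 16776920))) (a (c (l 15267268487) (b (l 16777544) (a (l 67880616999) (l 143042544679)))) (b (a (a (l 16777856) (l 101703484407)) (l 145190028711)) (l 4)))) (a (c (a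 (l 16778032) (l 105998452807)) (b (a (l 16776808) (a (l 16777672) (l 130157642823))) (a (a (l 16777816) (l 118346482791)) (l 4)))) (l 4)))) (a (b (a (c (l 16776200) (c (l 16776168) (l 16776144))) (a (c (l 16778288) (a (l 16777496) (b (l 16776872) (l 95797904535)))) (b (c (l 16777880) (a (l 16777784) (l 110830289959))) (l 4)))) (a (c (a (l 16778216) (a (l 71638713863) (l 115662128727))) (a (a (l 16776768) (b (l 16776792) (l 79691777047))) (b (a (l 16777064) (l 87207969879)) (l 191897797239)))) (l 4))) (l 4)))), by decide +kernel⟩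

def k67_pp_022_t : ∃ t, chk3 f_pp_022_t t 152 242 1 = true :=
  ⟨(b (c (b (a (c (l 16766256) (l 16768656)) (a (l 16765192) (a (l 16768648) (l 16769200)))) (a (a (l 16765000) (c (l 16768816) (l 16768648))) (b (a (l 16769336) (l 16767824)) (l 16771560)))) (b (a (a (l 16765096) (l 16768880)) (a (l 16768728) (a (l 16768280) (l 16768856)))) (a (a (l 16768528) (c (l 16768472) (l 16768272))) (c (a (l 16769608) (l 16772064)) (a (l 16769440) (l 16771912)))))) (a (c (c (l 16772608) (a (b (l 16769584) (b (l 16771136) (l 16772168))) (b (l 16770704) (c (l 16770168) (l 16770120))))) (c (a (b (l 16769424) (b (l 16771008) (l 16772064))) (b (l 16771880) (a (l 16772392) (l 16771648)))) (a (b (l 16769256) (b (l 16770872) (l 16773256))) (b (l 16771736) (b (l 16773344) (c (l 16773136) (l 16773088))))))) (a (c (b (c (l 16769304) (l 16769856)) (l 16773912)) (b (c (b (l 16771184) (l 16772232)) (c (l 16772928) (l 16772864))) (c (b (l 16771976) (c (l 16773040) (l 16773008))) (a (b (l 16772904) (l 16773984)) (b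 (l 16773488) (l 16773248)))))) (c (c (l 16774024) (l 16774288)) (c (c (l 16773912) (l 16774368)) (b (b (l 16773520) (c (l 16773304) (l 16773256))) (b (a (l 16774064) (l 16773328)) (l 16775424)))))))), by decide +kernel⟩

def k68_pp_022_t : ∃ t, chk3 f_pp_022_t t 152 486 1 = true :=
  ⟨(b (a (c (a (l 16773752) (l 16775512)) (c (c (l 16774232) (l 16774688)) (a (a (c (l 16774608) (l 16774568)) (b (l 16773320) (l 16773088))) (a (b (l 16773904) (l 16774000)) (b (l 16773168) (a (l 16775416) (l 16774392))))))) (b (c (a (l 16775440) (c (l 16776536) (l 16777176))) (a (c (l 16775392) (l 16775344)) (a (l 16776224) (a (l 16776648) (a (l 16777184) (b (l 16776736) (l 69491229511))))))) (c (a (c (l 16776464) (l 16777104)) (a (a (l 16777936) (l 85060486727)) (l 171496702743))) (a (a (l 16776152) (a (l 16776576) (a (l 16776784) (a (l 16777544) (l 16777528))))) (b (c (a (l 16777008) (l 129083901175)) (a (c (l 16777656) (l 16777576)) (c (l 169349218743) (l 169886089655)))) (a (a (a (l 89892324199) (l 139821318967))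 (l 4)) (l 4))))))) (b (a (c (a (l 16775296) (c (l 16776400) (l 16776384))) (a (a (a (l 16773472) (l 16773760)) (l 16775504)) (a (l 16776072) (c (l 16776648) (c (l 16776640) (l 16777040)))))) (a (a (b (a (l 16776816) (a (l 16777016) (l 7751074647))) (a (b (a (l 16777128) (l 16777568)) (l 140895061111)) (l 191897797111))) (a (b (a (a (l 72712454903) (l 93113549639)) (l 117809611863)) (l 4)) (l 4))) (l 4))) (a (a (a (c (l 16776048) (l 16776000)) (c (l 16776592) (c (l 16776576) (l 16776888)))) (b (a (c (l 16776888) (c (l 16776872) (l 16777192))) (c (l 91502937719) (a (a (l 59827553031) (l 102777226055)) (l 189750313415)))) (a (c (l 86671099447) (a (a (l 16777504) (l 90429195095)) (l 179549766039))) (l 4)))) (l 4)))), by decide +kernel⟩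

def k69_pp_022_t : ∃ t, chk3 f_pp_022_t t 152 487 1 = true :=
  ⟨(b (b (a (a (b (c (a (l 16776816) (l 79154906711)) (b (a (l 16776672) (a (l 16777096) (l 114588386103))) (a (l 16777264) (a (l 106535322439) (l 4))))) (a (c (l 73786197543) (a (a (l 16777112) (l 68417487687)) (c (l 122641449943) (l 124252062663)))) (l 4))) (l 4)) (l 4)) (l 4)) (l 4)), by decide +kernel⟩

def k70_pp_022_t : ∃ t, chk3 f_pp_022_t t 153 484 1 = true :=
  ⟨(a (b (c (b (a (l 16769520) (l 16768000)) (l 16772392)) (c (a (l 16769800) (b (l 16770408) (l 16771448))) (a (l 16770944) (l 16772096)))) (a (c (c (l 16769480) (l 16769376)) (c (b (l 16771360) (l 16772408)) (c (l 16773104) (l 16773040)))) (c (l 16773144) (a (b (l 16772152) (l 16771896)) (c (l 16771984) (b (l 16772672) (l 16773736))))))) (a (c (a (l 16772952) (l 16773496)) (b (c (a (l 16771776) (l 16772336)) (c (l 16773280) (l 16773224))) (b (a (l 16771984) (a (l 16773720) (l 16774000))) (b (l 16774368) (l 16775216))))) (a (c (l 16774040) (b (b (l 16772328) (l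 16772064)) (l 16775280))) (c (l 16774912) (c (l 16774824) (b (b (l 16772848) (l 16773904)) (l 16775496))))))), by decide +kernel⟩

def k71_pp_022_t : ∃ t, chk3 f_pp_022_t t 153 485 1 = true :=
  ⟨(b (a (c (a (l 16774072) (l 16775488)) (c (c (l 16774552) (l 16774808)) (a (a (b (l 16773072) (l 16774144)) (b (l 16773656) (l 16773408))) (b (a (l 16774224) (l 16773488)) (l 16775584))))) (b (a (c (l 16775744) (c (l 16775696) (l 16775664))) (a (c (l 16776552) (c (l 16776536) (l 16776520))) (b (c (l 16776840) (l 16777152)) (a (a (l 16777784) (l 71101842439)) (a (l 112440902711) (l 4)))))) (a (c (c (l 16778048) (c (l 16778040) (l 16777704))) (a (l 16776448) (b (l 16776752) (a (l 16777776) (l 108145935383))))) (b (a (a (a (l 16777096) (l 61975036871)) (a (l 103314097143) (l 153243091911))) (l 4)) (l 4))))) (a (b (a (c (l 16775592) (c (l 16775544) (l 16775504))) (a (c (l 16776408) (l 16776376)) (c (l 16778080) (b (l 16776680) (a (l 16777704) (a (l 71101842247) (l 119420224295))))))) (a (a (c (l 16776336)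 (l 16776296)) (a (c (l 16776744) (l 16777048)) (b (l 16776752) (a (l 16341009303) (l 93113549751))))) (a (a (c (l 66806875591) (b (l 16777016) (l 143042544695))) (b (b (l 16777656) (l 130694513735)) (l 4))) (c (l 190287184855) (c (l 194582152135) (l 196729635767)))))) (b (b (a (a (c (l 16777840) (a (l 16777744) (a (l 83449873207) (l 129083900759)))) (l 4)) (l 4)) (l 4)) (l 4)))), by decide +kernel⟩

def k72_pp_022_t : ∃ t, chk3 f_pp_022_t t 153 243 1 = true :=
  ⟨(b (b (b (a (a (b (a (a (l 16777280) (c (l 16777192) (c (l 16777192) (l 58753810711)))) (c (l 133915739735) (c (l 177402282535) (l 180086637079)))) (a (a (a (l 108682806311) (l 4)) (l 4)) (l 4))) (l 4)) (l 4)) (l 4)) (l 4)) (l 4)), by decide +kernel⟩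

def k73_pp_022_t : ∃ t, chk3 f_pp_022_t t 77 121 1 = true :=
  ⟨(b (a (b (b (a (c (a (l 16774392) (l 16775472)) (c (c (l 16774872) (l 16775176)) (c (c (l 16774824) (l 16775136)) (c (l 16775128) (c (l 16775112) (l 16775104)))))) (a (a (c (l 16776928) (c (l 16776896) (b (l 16774384) (c (l 16776744) (l 16777232))))) (b (c (l 16776320) (l 16776280)) (b (c (l 16777048) (c (l 16777040) (l 16777728))) (c (l 119957095991) (c (l 125325804855) (l 166664864183)))))) (a (b (c (l 16776840) (a (l 16776696) (b (l 16776712) (l 58216940615)))) (a (c (l 136600094311) (l 176328540791)) (l 4))) (b (b (a (l 16777648) (a (l 16777840) (l 94187291575))) (c (l 134452610647) (a (l 131768255559) (l 4)))) (l 4))))) (a (a (a (c (l 16776128) (c (l 16776088) (b (l 16774224) (l 16776592)))) (b (c (l 16776168) (l 16776120)) (b (a (l 16776776) (l 16777696)) (a (a (l 16777680) (l 96334775255)) (a (l 141968802807) (l 4)))))) (a (b (c (l 16776696) (c (l 16776680) (l 16777160))) (b (a (a (l 64659391447) (l 105461580807)) (l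 189213442535)) (l 4))) (b (b (c (l 16776984) (c (l 16776968) (l 16777616))) (a (a (l 74323067927) (l 116198999095)) (l 4))) (l 4)))) (b (a (a (a (a (b (l 90966066087) (l 4)) (l 182770991751)) (l 4)) (l 4)) (l 4)) (l 4)))) (b (b (b (a (a (a (a (a (l 16777488) (l 81302389815)) (c (l 16777736) (l 134989481063))) (l 4)) (l 4)) (l 4)) (l 4)) (l 4)) (l 4))) (b (b (b (a (a (a (a (a (l 184918475415) (l 4)) (l 4)) (l 4)) (l 4)) (l 4)) (l 4)) (l 4)) (l 4))) (l 4)), by decide +kernel⟩

def k74_pp_022_t : ∃ t, chk3 f_pp_022_t t 156 120 1 = true :=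
  ⟨(b (b (b (c (c (l 16768952) (l 16770088)) (a (c (a (l 16766928) (l 16768032)) (a (l 16766680) (l 16767816))) (a (a (l 16768760) (l 16769320)) (a (l 16769872) (l 16770432))))) (a (c (l 16769736) (a (c (l 16768928) (l 16768736)) (c (l 16770032) (l 16769864)))) (a (a (c (l 16771064) (l 16768160)) (l 16771472)) (a (l 16772672) (l 16773208))))) (a (b (a (a (c (l 16770880) (l 16767968)) (l 16771936)) (a (l 16772480) (l 16773024))) (c (c (l 16773664) (l 16773584)) (c (l 16774160) (b (a (l 16772336) (l 16772152)) (l 16774336))))) (b (a (c (l 16773272) (l 16773744)) (c (l 16774328) (b (l 16773688) (l 16774696)))) (c (a (l 16775208) (c (l 16776264) (l 16777392))) (a (c (l 16775144) (l 16775096)) (a (l 16775944) (b (l 16775984) (a (l 16776856) (b (l 16776888) (l 103850968055)))))))))) (b (b (a (c (a (l 16775048) (c (l 16776112) (l 16776744))) (a (c (l 16774976) (l 16774920)) (a (l 16775776) (a (l 16776192) (a (l 16776888) (b (l 16774712) (l 16777680))))))) (a (b (a (c (l 16776408) (l 16776368))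 (b (l 16776680) (a (l 16777032) (a (l 16777208) (l 103314097143))))) (c (a (l 75396810807) (l 185992217495)) (b (a (c (l 16777112) (l 16777760)) (l 181697249863)) (a (l 175791669767) (l 4))))) (b (a (a (b (l 16777728) (l 145190028711)) (c (l 116198999639) (l 160222413255))) (l 4)) (l 4)))) (a (b (c (a (l 16777160) (a (l 67343746999) (l 173107315495))) (a (c (l 16777136) (a (l 16776192) (l 16777400))) (b (a (a (l 16776912) (l 16777824)) (l 168812347863)) (c (l 173107315447) (a (l 123178321271) (l 4)))))) (a (a (b (c (l 16776976) (l 16777616)) (a (a (l 16777720) (l 112977773607)) (l 4))) (c (l 164517380807) (c (l 169349218999) (c (l 172033573543) (l 172570444455))))) (l 4))) (l 4))) (l 4))), by decide +kernel⟩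

def k75_pp_022_t : ∃ t, chk3 f_pp_022_t t 157 120 1 = true :=
  ⟨(b (b (a (a (b (a (l 16771128) (l 16771664)) (c (l 16773448) (l 16773928))) (b (a (l 16772856) (l 16773400)) (c (l 16774496) (b (l 16773872) (l 16774872))))) (b (a (c (l 16773624) (l 16774112)) (c (l 16774672) (c (l 16774584) (l 16774520)))) (a (c (l 16775544) (c (l 16775488) (l 16775448))) (a (c (l 16776320) (c (l 16776288) (b (l 16774456) (l 16776768)))) (b (c (l 16776368) (l 16776328)) (c (l 70028101591) (b (l 16777720) (l 125862676023)))))))) (b (a (a (c (l 16775376) (c (l 16775312) (l 16775272))) (a (c (l 16776160) (c (l 16776128) (l 16776096))) (b (c (l 16776208) (l 16776160)) (b (c (l 16776920) (l 16776904)) (a (l 70028100967) (l 140895061383)))))) (a (a (b (c (l 16776720) (l 16777352)) (a (b (l 80765519191) (l 4)) (l 191360926487))) (b (b (c (l 16777000) (l 16777640)) (a (l 90429195623) (l 4))) (l 4))) (a (c (l 180086637911) (c (l 180623508791) (b (l 173644186295) (l 4)))) (l 4)))) (a (a (a (b (c (l 16776568) (l 16776536))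 (b (a (l 16777800) (l 105998452103)) (l 4))) (b (a (a (l 16776880) (l 16777824)) (b (l 16776968) (l 115125257655))) (l 4))) (a (b (b (a (l 60901295447) (l 126399546775)) (l 4)) (l 4)) (l 4))) (l 4)))) (l 4)), by decide +kernel⟩

def k76_pp_022_t : ∃ t, chk3 f_pp_022_t t 79 120 1 = true :=
  ⟨(b (a (b (a (a (b (c (l 16775712) (c (l 16775664) (l 16775624))) (a (b (c (l 16776872) (a (l 16776736) (l 16777640))) (c (l 179549766471) (l 180086637351))) (b (a (b (l 16777024) (l 132841997671)) (b (l 75396810071) (l 4))) (l 4)))) (b (a (b (l 16775984) (a (l 16777480) (b (l 16776848) (l 85060486519)))) (b (c (l 16776536) (l 16776504)) (b (a (l 16777104) (l 94724162951)) (l 4)))) (a (a (b (l 188139700983) (l 4)) (l 4)) (l 4)))) (a (b (b (a (b (l 16777456) (a (l 16777792) (l 105998452087))) (b (a (l 16777832) (l 115125257655)) (l 4))) (l 4)) (l 4)) (l 4))) (l 4)) (l 4)) (l 4)), by decide +kernel⟩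

def k77_pp_022_t : ∃ t, chk3 f_pp_022_t t 39 121 1 = true :=
  ⟨(l 4), by decide +kernel⟩

def k78_pp_022_t : ∃ t, chk3 f_pp_022_t t 19 61 1 = true :=
  ⟨(l 4), by decide +kernel⟩

def k79_pp_022_t : ∃ t, chk3 f_pp_022_t t 19 31 1 = true :=
  ⟨(l 4), by decide +kernel⟩

def k80_pp_022_t : ∃ t, chk3 f_pp_022_t t 20 12 1 = true :=
  ⟨(b (l 6) (b (a (a (l 6) (c (l 16570256) (l 16578752))) (c (a (c (l 16570584) (l 16575344)) (a (l 16575200) (a (l 16576504) (l 16578144)))) (a (l 16583928) (a (l 16585992) (l 16587888))))) (a (c (a (l 16585480) (l 16588112)) (a (l 16586344) (l 16596312))) (c (a (b (l 16586568) (l 16596040)) (a (l 16594072) (a (l 16595584) (l 16597264)))) (a (l 16600704) (a (l 16603200) (l 16605344))))))), by decide +kernel⟩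

def k81_pp_022_t : ∃ t, chk3 f_pp_022_t t 20 13 1 = true :=
  ⟨(a (b (c (b (a (l 16603824) (a (l 16606192) (l 16566000))) (a (c (l 16621840) (l 16624920)) (b (l 16621952) (l 16632360)))) (b (a (l 16605360) (l 16615056)) (a (l 16625576) (l 16633880)))) (b (b (c (a (l 16639040) (l 16643312)) (a (l 16641216) (l 16649056))) (c (a (l 16650264) (l 16654832)) (a (l 16651816) (l 16659968)))) (a (c (b (l 16662016) (l 16674288)) (b (l 16662600) (l 16673592))) (c (b (l 16666896) (l 16679464)) (b (l 16671464) (l 16682568)))))) (c (b (b (a (b (l 16584832) (l 16584384)) (a (l 16614016) (a (l 16615736) (l 16617472)))) (a (c (l 16640688) (a (l 16631808) (l 16634072))) (a (l 16645608) (a (l 16647536) (l 16638832))))) (b (a (a (b (l 16646864) (l 16658600)) (b (l 16649392) (l 16661272))) (a (b (l 16652048) (l 16664072)) (a (b (l 16654136) (l 16666264)) (l 16672496)))) (a (c (b (l 16671416) (a (l 16682904) (l 16685904))) (l 16679568)) (a (b (l 16687128) (b (l 16686400) (l 16693064))) (a (b (l 16689424) (b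 (l 16688776) (l 16695488))) (b (l 16680816) (l 16694024))))))) (b (a (b (l 16618672) (c (l 16636120) (l 16639792))) (a (b (l 16621600) (l 16641256)) (b (l 16623984) (a (l 16643056) (l 16644712))))) (a (b (c (l 16657664) (l 16660600)) (b (l 16676512) (l 16688840))) (b (a (l 16662880) (a (l 16664888) (l 16666608))) (a (b (l 16680632) (l 16693192)) (a (b (l 16682800) (l 16695464)) (l 16690888)))))))), by decide +kernel⟩

def k82_pp_022_t : ∃ t, chk3 f_pp_022_t t 21 6 1 = true :=
  ⟨(b (b (b (a (l 6) (c (l 16591112) (l 16580088))) (a (c (a (l 16565504) (l 16573704)) (l 16580864)) (c (a (l 16539960) (l 16590104)) (l 16595832)))) (a (c (b (a (l 16604248) (l 16612464)) (a (l 16623376) (b (l 16605720) (l 16615544)))) (b (a (l 16593280) (l 16600784)) (a (l 16610800) (l 16618384)))) (b (c (a (l 16599728) (l 16607984)) (l 16612216)) (c (a (l 16618912) (l 16627200)) (a (l 16626088) (l 16633176)))))) (b (a (a (b (c (c (l 16621216) (l 16624128)) (l 16629520)) (a (c (l 16652400) (l 16647576)) (c (l 16656520)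 (l 16651416)))) (b (c (a (l 16649760) (l 16653896)) (l 16637184)) (c (c (l 16661736) (a (l 16651296) (l 16655392))) (b (l 16652048) (l 16662464))))) (b (c (a (l 16649640) (l 16647464)) (a (l 16644968) (l 16652480))) (a (a (b (l 16655232) (l 16665992)) (b (l 16659288) (l 16670024))) (c (a (l 16666736) (l 16670856)) (l 16675552))))) (a (b (c (c (b (a (l 16660192) (l 16668544)) (a (l 16672464) (l 16680800))) (a (b (l 16662112) (l 16674136)) (b (l 16670256) (l 16661304)))) (a (b (l 16665680) (l 16677256)) (b (l 16673456) (l 16685048)))) (a (c (b (a (l 16683896) (a (l 16686976) (l 16689032))) (l 16699128)) (b (l 16689408) (l 16702080))) (c (b (l 16694136) (l 16707240)) (b (l 16697168) (l 16709792))))) (b (a (c (b (l 16677616) (l 16689696)) (b (l 16681288) (l 16692840))) (c (b (l 16685808) (l 16697840)) (b (l 16689104) (l 16700616)))) (a (c (b (l 16702272) (l 16715304)) (b (l 16704912) (a (l 16715560) (l 16719400)))) (c (b (l 16710352) (l 16723312)) (b (l 16712472) (a (l 16722808) (l 16726152))))))))),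 by decide +kernel⟩

def k83_pp_022_t : ∃ t, chk3 f_pp_022_t t 11 12 1 = true :=
  ⟨(a (b (b (a (c (l 16586408) (l 16587104)) (c (l 16601720) (l 16594056))) (a (c (l 16602400) (l 16603712)) (c (l 16617936) (l 16611304)))) (a (b (c (a (l 16616240) (l 16624464)) (l 16631672)) (c (a (l 16635480) (l 16643712)) (a (l 16637496) (l 16641992)))) (b (c (l 16635184) (l 16640040)) (a (c (l 16651520) (l 16646688)) (a (l 16652872) (l 16655384)))))) (b (a (a (b (l 16603896) (l 16621200)) (b (l 16608376) (l 16626136))) (b (c (l 16619008) (l 16634144)) (c (l 16637088) (a (l 16628928) (l 16635544))))) (b (a (c (l 16644512) (a (l 16615872) (l 16642512))) (c (l 16667240) (a (l 16648896) (l 16677152)))) (a (a (a (l 16658056) (l 16660896)) (c (l 16667256) (l 16673880))) (c (b (a (l 16668496) (l 16675696)) (l 16682912)) (a (l 16680848) (b (l 16672440) (l 16683840)))))))), by decide +kernel⟩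

def k84_pp_022_t : ∃ t, chk3 f_pp_022_t t 22 13 1 = true :=
  ⟨(c (b (a (b (a (l 16655720) (l 16663944)) (a (l 16682256) (l 16685192))) (b (a (l 16671344) (l 16676576)) (a (l 16692744) (l 16703832)))) (a (b (a (b (l 16693968) (l 16705944)) (b (l 16702088) (l 16714024))) (a (b (l 16718392) (a (l 16729296) (l 16733272))) (b (l 16726416) (a (l 16737240) (l 16741216))))) (b (a (b (l 16709760) (l 16721624)) (b (l 16716096) (l 16728312))) (a (b (a (l 16732200) (l 16735624)) (a (l 16744832) (l 16748456))) (b (a (l 16739144) (l 16742800)) (a (l 16754784) (b (l 16752656) (l 16759392)))))))) (b (a (b (a (l 16657288) (l 16662272)) (a (b (l 16673048) (l 16684040)) (b (l 16678440) (l 16689720)))) (b (a (l 16667488) (l 16673000)) (b (c (l 16687824) (l 16686072)) (a (l 16695648) (l 16701896))))) (a (b (a (b (l 16695328) (l 16706936)) (b (l 16701320) (l 16713264))) (a (b (a (l 16717280) (l 16720560)) (a (l 16729552) (l 16733024))) (b (a (l 16723896) (l 16727312)) (a (l 16736552) (l 16740160))))) (b (a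 (b (l 16707568) (l 16722480)) (b (l 16714144) (b (l 16723576) (l 16730000)))) (a (b (a (l 16730792) (l 16734336)) (a (l 16746448) (b (l 16744208) (l 16750944)))) (b (a (l 16737968) (l 16746992)) (a (b (l 16747984) (l 16754816)) (b (l 16751912) (l 16758856))))))))), by decide +kernel⟩

def k85_pp_022_t : ∃ t, chk3 f_pp_022_t t 23 26 1 = true :=
  ⟨(a (b (a (c (l 16682368) (b (l 16673400) (l 16663784))) (c (l 16688856) (b (l 16680056) (l 16702208)))) (a (a (b (l 16696280) (l 16708144)) (b (l 16699648) (l 16711680))) (a (b (l 16703200) (l 16715400)) (b (l 16706984) (l 16719320))))) (b (a (c (l 16696112) (b (l 16687536) (a (l 16697480) (l 16701520)))) (c (l 16714272) (b (l 16716544) (a (l 16705656) (l 16709792))))) (a (a (b (l 16710888) (l 16728592)) (b (l 16714912) (l 16732632))) (a (b (l 16718952) (l 16736680)) (b (l 16722992) (l 16740728)))))), by decide +kernel⟩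

def k86_pp_022_t : ∃ t, chk3 f_pp_022_t t 46 27 1 = true :=
  ⟨(b (b (a (a (l 16725648) (a (l 16723176) (l 16725072))) (a (a (l 16727032) (l 16729024)) (a (l 16731024) (l 16733064)))) (a (a (a (l 16732144) (l 16734048)) (a (l 16741248) (l 16743232))) (a (a (l 16745248) (l 16747288)) (c (l 16745496) (l 16744624))))) (a (b (a (c (l 16746648) (l 16748360)) (c (l 16750608) (a (l 16748816) (l 16750904)))) (a (c (b (l 16756624) (l 16763400)) (b (l 16756024) (l 16764968))) (c (b (l 16760672) (l 16767480)) (b (l 16760208) (c (l 16767288) (l 16767136)))))) (b (c (a (l 16759888) (l 16762280)) (a (a (l 16752984) (l 16755064)) (b (l 16754752) (l 16761608)))) (b (a (c (l 16764720) (l 16767000)) (c (l 16768768) (c (l 16768608) (l 16768488)))) (a (c (a (l 16770528) (l 16772560)) (a (l 16770352) (l 16772440))) (b (c (l 16773888) (a (l 16772760) (l 16774840))) (b (a (l 16775432) (a (l 16778896) (l 124252066151))) (a (a (l 16776640) (l 104387839671)) (l 4))))))))), by decide +kernel⟩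

def k87_pp_022_t : ∃ t, chk3 f_pp_022_t t 47 27 1 = true :=
  ⟨(b (b (a (a (a (l 16735088) (l 16737112)) (a (l 16739144) (l 16741168))) (c (a (l 16744600) (l 16748584)) (c (l 16751288) (l 16749536)))) (a (a (c (l 16749496) (l 16754008)) (b (l 16755160) (a (l 16755520) (l 16757552)))) (c (a (l 16762760) (l 16764800)) (a (a (l 16756008) (l 16758072)) (b (l 16757800) (l 16764512)))))) (b (a (a (c (b (l 16759360) (l 16766048)) (b (l 16758904) (l 16767080))) (c (b (l 16763384) (l 16770080)) (b (l 16763048) (a (l 16768872) (l 16770944))))) (a (b (c (l 16767408) (l 16768488)) (b (c (l 16772424) (l 16772312)) (a (l 16774760) (b (l 16778560) (a (l 16779056) (l 134989484263)))))) (b (c (l 16771424) (a (l 16770264) (l 16772320))) (b (c (a (l 16775432) (a (l 16779504) (l 106535326647))) (a (l 16775384) (b (l 16779176) (l 161296155735)))) (a (a (a (l 150558734567) (l 170959832535)) (l 195119024471)) (l 4)))))) (a (b (a (a (c (l 16771800) (l 16771672)) (c (l 16775784) (b (l 16772000) (b (l 16774616)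 (l 16778960))))) (b (a (l 16774112) (a (l 16775632) (b (l 16775808) (l 94187294695)))) (a (a (b (l 16776176) (l 118883356887)) (b (l 28689043111) (l 4))) (c (l 187602832087) (l 188139702871))))) (a (b (b (c (a (l 16776064) (l 117809615943)) (a (l 16776032) (l 154853701911))) (a (a (l 79154906519) (l 179012895959)) (l 4))) (l 4)) (l 4))) (b (a (a (b (b (a (l 16776800) (l 114588389495)) (l 190824056871)) (l 4)) (l 4)) (l 4)) (l 4))))), by decide +kernel⟩

def k88_pp_022_t : ∃ t, chk3 f_pp_022_t t 20 28 1 = true :=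
  ⟨(a (b (a (c (b (l 16687032) (l 16699976)) (b (l 16684848) (c (l 16697384) (l 16695384)))) (c (b (l 16692512) (l 16706000)) (b (l 16693744) (c (l 16706112) (l 16704296))))) (a (a (c (b (l 16709440) (l 16721784)) (b (l 16706280) (b (l 16705384) (b (l 16720808) (l 16713672))))) (c (b (l 16713752) (l 16726032)) (b (l 16710768) (l 16727528)))) (c (b (a (l 16717936) (l 16721168)) (a (l 16730160) (l 16734168))) (b (c (l 16718016) (l 16716488)) (a (a (l 16726848) (l 16728968)) (a (l 16731056) (l 16733128))))))) (a (a (b (c (b (l 16696944) (l 16710656)) (b (l 16700072) (l 16711512))) (b (c (l 16724440) (l 16723496)) (c (l 16738056) (c (l 16736728) (l 16735664))))) (b (c (b (l 16700064) (l 16713904)) (b (l 16703184) (l 16715536))) (b (c (l 16727808) (l 16728840)) (c (l 16742856) (c (l 16740712) (l 16739744)))))) (b (a (c (b (l 16703280) (l 16717256)) (b (l 16706240) (l 16719464))) (a (b (c (l 16705776) (l 16708616)) (c (l 16719832) (l 16722184))) (b (l 16708944) (l 16723432)))) (a (b (c (l 16731272)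 (c (l 16732056) (l 16730872))) (c (c (l 16744784) (l 16745408)) (c (l 16744672) (l 16746424)))) (a (b (c (l 16733912) (c (l 16734968) (l 16733856))) (c (b (l 16744320) (l 16751216)) (b (l 16743952) (l 16753152)))) (b (c (l 16735816) (l 16736264)) (c (l 16749688) (b (l 16745832) (l 16752440))))))))), by decide +kernel⟩

def k89_pp_022_t : ∃ t, chk3 f_pp_022_t t 40 58 1 = true :=
  ⟨(a (a (b (b (a (l 16729320) (l 16731488)) (c (l 16738072) (a (l 16735096) (l 16726816)))) (b (a (a (l 16742504) (l 16743576)) (a (l 16744640) (l 16745704))) (c (l 16754376) (a (b (l 16747624) (l 16746040)) (b (l 16744544) (l 16746880)))))) (b (b (a (l 16733632) (l 16738368)) (c (l 16742224) (a (l 16728992) (l 16731128)))) (c (c (l 16755280) (b (l 16748656) (l 16755608))) (c (a (l 16753096) (l 16755192)) (a (b (l 16746136) (b (l 16751600) (l 16755288))) (b (l 16748288) (b (l 16753736) (l 16757424)))))))) (b (c (a (c (l 16743344) (l 16742616)) (c (l 16747296) (l 16746648))) (a (a (l 16743560) (a (l 16741864) (l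 16742904))) (b (l 16742080) (b (l 16747200) (l 16750680))))) (b (c (a (l 16752992) (c (l 16757184) (l 16756744))) (a (b (l 16750040) (a (l 16747304) (l 16749400))) (a (l 16754944) (l 16757016)))) (c (a (c (l 16760048) (l 16759672)) (c (l 16763984) (l 16766312))) (a (c (l 16761864) (a (b (l 16755872) (l 16759560)) (b (l 16757992) (l 16756440)))) (a (a (l 16761624) (l 16762664)) (a (l 16763704) (l 16766048)))))))), by decide +kernel⟩

def k90_pp_022_t : ∃ t, chk3 f_pp_022_t t 80 118 1 = true :=
  ⟨(a (a (b (a (b (l 16754984) (l 16758624)) (b (l 16756040) (l 16759672))) (c (c (l 16765080) (l 16764816)) (c (l 16764520) (a (b (l 16761736) (l 16765576)) (b (l 16762816) (l 16763384)))))) (b (a (b (l 16757088) (l 16762032)) (b (l 16758128) (l 16763072))) (a (a (b (l 16764128) (l 16769136)) (b (l 16764648) (l 16769656))) (a (c (l 16767248) (l 16768072)) (b (l 16765680) (l 16770368)))))) (b (a (a (b (l 16759168) (l 16764272)) (b (l 16760200) (a (l 16763568) (l 16764088)))) (c (l 16766496) (c (l 16763392)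 (b (l 16755912) (b (l 16763976) (l 16760624)))))) (c (a (c (l 16769104) (l 16770240)) (c (l 16772416) (b (l 16769136) (l 16772800)))) (b (b (a (a (l 16765248) (l 16761064)) (l 16767896)) (a (l 16767664) (l 16770440))) (a (a (l 16769984) (l 16771048)) (c (l 16772688) (c (l 16772600) (l 16772544)))))))), by decide +kernel⟩

def k91_pp_022_t : ∃ t, chk3 f_pp_022_t t 81 118 1 = true :=
  ⟨(b (a (a (c (l 16767680) (a (l 16766440) (a (l 16765584) (l 16766112)))) (b (c (l 16766112) (l 16765560)) (c (l 16769656) (a (l 16768760) (l 16769808))))) (c (a (c (l 16769952) (l 16769792)) (c (l 16771912) (b (l 16770000) (l 16773592)))) (a (a (c (l 16769096) (l 16770192)) (b (l 16768168) (l 16771896))) (c (b (l 16769824) (l 16773504)) (b (l 16769632) (a (l 16772872) (l 16773928))))))) (b (a (c (a (l 16771240) (c (l 16773280) (l 16773192))) (a (c (l 16771024) (l 16770864)) (c (l 16773096) (c (l 16773016) (l 16772960))))) (a (a (c (l 16774736) (c (l 16774640) (l 16774576))) (a (c (l 16775480) (c (l 16775416)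 (l 16776016))) (b (l 16775024) (b (l 16776408) (a (l 56606328663) (l 97408518007)))))) (a (c (b (l 16775816) (a (l 72712456983) (l 113514646599))) (b (l 16775752) (b (a (l 16776888) (l 88281712583)) (l 181697250407)))) (a (c (b (l 16776552) (l 191360927239)) (b (l 16777664) (l 194045281767))) (b (b (l 16776592) (a (l 88818583303) (l 125862676455))) (l 4)))))) (b (a (c (a (l 16773944) (a (l 16775448) (l 16777744))) (a (c (l 16773832) (l 16773744)) (a (l 16775360) (a (l 16776144) (a (l 16776528) (a (l 16778024) (l 16777984))))))) (a (a (b (a (l 16778032) (a (l 16777744) (l 85597357799))) (c (l 124788935799) (c (l 167201735543) (l 168812348263)))) (c (l 181160380007) (c (l 185455347271) (b (l 177402282967) (l 4))))) (l 4))) (a (a (c (c (l 16775776) (l 16777056)) (a (l 16775168) (c (l 16776224) (b (l 16775720) (l 16777984))))) (a (b (c (l 16776792) (c (l 16776776) (l 16777912))) (a (a (l 78618035431) (l 119957096375)) (l 4))) (a (b (a (l 94724163415) (l 134452611031)) (l 4)) (l 4)))) (l 4))))),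 by decide +kernel⟩

def k92_pp_022_t : ∃ t, chk3 f_pp_022_t t 80 238 1 = true :=
  ⟨(a (a (b (c (l 16771736) (a (b (l 16765976) (a (l 16770256) (l 16768168))) (l 16771936))) (c (c (l 16774144) (l 16774080)) (a (c (l 16773480) (l 16773384)) (a (l 16774640) (a (l 16774632) (l 16774896)))))) (b (a (c (l 16771952) (l 16772352)) (c (l 16772968) (c (l 16772816) (l 16772696)))) (a (a (b (l 16774392) (c (l 16776312) (l 16776840))) (b (l 16775568) (b (l 16776336) (c (l 16777208) (a (l 16777776) (l 89892324919)))))) (b (c (l 16775728) (c (l 16775672) (l 16775632))) (a (b (c (l 16776856) (l 16777488)) (c (l 135526353015) (l 174717928167))) (b (c (l 16778584) (a (l 65733133687) (l 104924710471))) (l 4))))))) (a (a (b (c (l 16773976) (a (l 16773552) (l 16774088))) (a (c (b (l 16776480) (l 188676572647)) (b (c (l 16776448) (l 16777088)) (c (l 192971539911) (l 195119023527)))) (b (b (l 16776512) (c (l 16778328) (c (l 92576679607) (l 94187291671)))) (l 4)))) (b (c (l 16774984) (c (l 16774904) (b (l 16771904)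 (l 16775824)))) (b (b (c (a (l 16777016) (l 101703485431)) (a (a (l 16776888) (l 16777784)) (a (l 90966066743) (l 135526352503)))) (l 4)) (l 4)))) (b (a (b (c (l 16775080) (l 16774976)) (b (c (l 16776448) (l 16776904)) (c (c (l 16778576) (l 74323069255)) (c (c (l 75396810823) (l 74859938663)) (a (l 16777896) (l 117809612567)))))) (b (c (l 16776080) (c (l 16776040) (l 16776664))) (b (c (l 80765520183) (a (a (l 16777056) (l 78081164807)) (l 165591122551))) (l 4)))) (l 4)))), by decide +kernel⟩

def k93_pp_022_t : ∃ t, chk3 f_pp_022_t t 80 239 1 = true :=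
  ⟨(a (b (a (a (a (c (b (l 16776136) (l 160759284743)) (b (l 16776088) (a (b (l 90429195831) (l 4)) (l 185455346855)))) (b (b (l 16776160) (a (l 16777952) (a (l 20099106119) (l 73786197495)))) (l 4))) (b (c (b (l 16778560) (l 159685542759)) (a (b (l 16776664) (a (l 103850968679) (l 188139700919))) (b (a (l 16777696) (l 77007422967)) (l 4)))) (l 4))) (a (a (b (b (c (l 123715192903) (l 164517380727)) (l 4)) (l 4)) (l 4)) (l 4))) (l 4)) (l 4)), by decide +kernel⟩

def k94_pp_022_t : ∃ t, chk3 f_pp_022_t t 81 119 1 = true :=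
  ⟨(b (a (b (b (a (b (a (c (l 16776624) (c (l 16776600) (l 16776584))) (c (l 97408519223) (c (l 100629743527) (a (l 82376132311) (l 193508410215))))) (a (a (b (l 16778360) (l 114051516567)) (a (l 130694514711) (l 4))) (l 4))) (l 4)) (l 4)) (l 4)) (l 4)) (l 4)), by decide +kernel⟩

def k95_pp_022_t : ∃ t, chk3 f_pp_022_t t 82 58 1 = true :=
  ⟨(b (b (c (a (l 16747616) (l 16751504)) (a (l 16748800) (c (l 16750592) (l 16749880)))) (c (a (l 16754184) (l 16760048)) (a (a (l 16752032) (l 16754080)) (c (l 16757400) (l 16756872))))) (b (c (a (c (l 16761080) (l 16760728)) (c (l 16764944) (l 16764680))) (a (a (l 16760392) (a (l 16760624) (l 16761648))) (c (a (l 16763360) (l 16765376)) (a (l 16762992) (l 16765056))))) (a (c (c (l 16769200) (a (l 16766688) (l 16768672))) (a (c (l 16766432) (l 16767456)) (b (l 16766528) (a (l 16769664) (l 16770696))))) (b (c (a (l 16768992) (l 16770944)) (c (l 16770688) (a (l 16768464) (l 16770536)))) (c (a (l 16772472) (l 16775080)) (a (c (l 16772296) (l 16772168))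 (c (l 16774328) (a (l 16773728) (l 16774768))))))))), by decide +kernel⟩

def k96_pp_022_t : ∃ t, chk3 f_pp_022_t t 82 59 1 = true :=
  ⟨(b (b (a (a (b (c (l 16772056) (c (l 16771872) (l 16771728))) (a (c (l 16775112) (c (l 16775040) (l 16774976))) (c (c (l 16778712) (b (l 16775184) (l 13656656567))) (b (l 16775112) (b (l 16776512) (a (l 21172848439) (l 126399547431))))))) (a (b (c (l 16773536) (l 16773352)) (b (c (l 16776192) (c (l 16776152) (l 16776120))) (b (c (l 89355455479) (a (l 70028101527) (l 139284449367))) (l 4)))) (b (c (l 16774520) (c (l 16774424) (l 16774344))) (b (b (c (l 16776728) (l 16778008)) (a (a (l 16778176) (l 104924710855)) (l 184918475623))) (l 4))))) (b (b (a (c (l 16775104) (c (l 16775032) (l 16774968))) (a (c (l 16776560) (c (l 16777840) (b (l 16776064) (l 16778280)))) (b (a (l 16776848) (a (l 16778488) (l 101703485351))) (c (l 137136966759) (l 175791670263))))) (a (a (c (l 16776376) (a (l 16776088) (l 16777896))) (c (c (l 72175586215) (l 73786197607)) (c (b (l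 16776888) (l 122641451527)) (b (l 16778184) (l 162369897191))))) (a (a (c (l 169349219495) (l 173107315847)) (l 4)) (l 4)))) (b (a (a (a (b (a (l 84523615959) (l 121030838199)) (l 4)) (l 4)) (l 4)) (l 4)) (l 4)))) (a (b (b (b (a (a (c (l 72712456999) (a (l 16778376) (l 112440903735))) (l 4)) (l 4)) (l 4)) (l 4)) (l 4)) (l 4))) (l 4)), by decide +kernel⟩

def k97_pp_022_t : ∃ t, chk3 f_pp_022_t t 166 29 1 = true :=
  ⟨(b (b (b (c (l 16755328) (c (l 16754576) (l 16753968))) (c (a (l 16760976) (l 16762904)) (c (l 16761400) (a (l 16759952) (l 16761992))))) (b (c (c (l 16770096) (a (l 16767624) (l 16769576))) (c (a (l 16767384) (l 16769392)) (a (l 16768432) (b (l 16767360) (l 16771000))))) (b (c (a (l 16772888) (c (l 16774848) (l 16774800))) (a (c (l 16772728) (l 16772608)) (c (l 16775392) (a (l 16774160) (l 16775184))))) (b (a (c (l 16775496) (c (l 16775440) (l 16775392))) (c (a (l 12582915351) (l 109756550455)) (b (a (l 16776480) (a (l 16778480) (l 133378869351))) (a (c (l 78618036583) (l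 79691777079)) (l 4))))) (a (a (c (l 16778048) (a (l 16776480) (b (l 16776536) (l 96334776151)))) (a (b (l 16778344) (l 4)) (c (l 126399548503) (l 165054251991)))) (l 4)))))) (b (b (b (b (a (a (a (a (l 187602830583) (l 4)) (l 4)) (l 4)) (l 4)) (l 4)) (l 4)) (l 4)) (l 4))), by decide +kernel⟩

def k98_pp_022_t : ∃ t, chk3 f_pp_022_t t 167 29 1 = true :=
  ⟨(b (b (a (c (b (l 16758072) (a (l 16764344) (l 16765304))) (b (c (l 16757544) (l 16757016)) (a (l 16763712) (c (l 16764880) (l 16764544))))) (c (b (l 16759968) (l 16766704)) (b (l 16759232) (c (l 16766336) (l 16766040))))) (b (a (a (c (l 16771112) (c (l 16770888) (l 16770720))) (a (b (l 16769960) (l 16774112)) (c (l 16772968) (b (l 16770272) (l 16773872))))) (c (b (l 16771792) (c (l 16775240) (l 16776504))) (b (l 16771520) (b (l 16774224) (a (l 16775528) (c (l 16776528) (l 16777824))))))) (b (b (a (a (c (l 16775408) (l 16775320)) (a (l 16776112) (a (l 16776480) (l 16776720)))) (c (a (l 71101844679) (l 172570445255)) (a (b (l 16778184) (l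 118883355415)) (l 176328541591)))) (a (b (a (c (l 16776704) (l 16776680)) (a (l 89355455127) (l 4))) (a (a (l 77007423415) (l 144116288231)) (l 4))) (l 4))) (l 4)))) (l 4)), by decide +kernel⟩

def k99_pp_022_t : ∃ t, chk3 f_pp_022_t t 21 56 1 = true :=
  ⟨(a (a (c (b (l 16712736) (a (l 16724744) (l 16728728))) (b (a (l 16713296) (l 16717128)) (a (l 16726680) (l 16730088)))) (b (c (l 16722088) (a (l 16720952) (l 16724768))) (c (a (l 16732704) (l 16736656)) (a (l 16733552) (l 16737056))))) (a (b (c (a (l 16726760) (l 16730736)) (a (l 16728232) (l 16731656))) (c (a (l 16740600) (l 16744520)) (a (b (l 16737464) (l 16743792)) (b (l 16741032) (l 16747456))))) (b (c (a (l 16734696) (l 16738648)) (a (l 16735128) (l 16738672))) (c (a (l 16748432) (l 16753968)) (a (b (l 16744656) (l 16751184)) (b (l 16748344) (l 16754976))))))), by decide +kernel⟩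

def k100_pp_022_t : ∃ t, chk3 f_pp_022_t t 42 57 1 = true :=
  ⟨(a (b (c (a (l 16738784) (l 16742720)) (a (c (l 16739400) (l 16738432)) (b (l 16739336) (l 16745744)))) (c (a (b (l 16749160) (l 16756032)) (b (l 16753056) (l 16759896))) (a (b (l 16748600) (l 16756584)) (b (l 16752328) (c (l 16759312) (l 16758864)))))) (b (c (a (l 16746640) (l 16752504)) (a (b (l 16742936) (l 16749432)) (b (l 16746584) (l 16753176)))) (a (c (b (l 16756928) (l 16763584)) (b (l 16756112) (c (l 16763144) (l 16762792)))) (c (b (l 16760672) (c (l 16767432) (l 16767240))) (a (b (l 16758984) (l 16765920)) (b (l 16760920) (l 16769208))))))), by decide +kernel⟩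

def k101_pp_022_t : ∃ t, chk3 f_pp_022_t t 43 57 1 = true :=
  ⟨(b (a (c (a (b (l 16750984) (l 16757792)) (b (l 16754864) (l 16761488))) (a (b (l 16750296) (l 16756984)) (b (l 16754064) (c (l 16761024) (l 16760656))))) (a (c (b (l 16758608) (l 16765248)) (b (l 16757888) (c (l 16764904) (l 16764632)))) (b (c (l 16762344) (c (l 16761936) (l 16761616))) (a (b (l 16766224) (l 16770992)) (c (l 16770048) (l 16771088)))))) (a (b (c (a (l 16764392) (l 16769824)) (a (c (l 16764000) (l 16763696)) (a (l 16766816) (l 16770128)))) (a (c (a (l 16770200) (l 16772128)) (a (c (l 16769976) (l 16769808)) (b (l 16770120) (l 16773704)))) (b (c (l 16773320) (a (l 16772136) (l 16774168))) (a (a (c (l 16775312) (l 16775224)) (b (l 16775384) (a (l 16778192) (l 82376132455)))) (a (b (l 16777688) (a (l 121567710695) (l 4))) (b (a (l 21709720551) (l 100629744967)) (l 4))))))) (b (a (c (a (l 16771080) (l 16773024)) (a (c (l 16770896) (l 16770752)) (b (l 16771064) (l 16774648)))) (b (c (a (l 16773256) (l 16775216))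 (a (l 16773096) (b (l 16774240) (l 16778000)))) (b (a (c (l 16775848) (l 16775792)) (c (l 98482261847) (a (l 75396810887) (l 181697250679)))) (a (a (a (l 16776832) (l 78618037367)) (a (l 119420226951) (l 4))) (l 4))))) (a (b (b (c (a (l 16775392) (c (l 16779144) (l 74859941927))) (a (l 16775312) (a (l 16778128) (l 111904033079)))) (a (a (a (l 16776368) (l 16776856)) (a (l 79691777927) (l 119957097911))) (l 4))) (a (c (l 189750316279) (b (l 185455347767) (l 4))) (l 4))) (l 4))))), by decide +kernel⟩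

def k102_pp_022_t : ∃ t, chk3 f_pp_022_t t 42 116 1 = true :=
  ⟨(b (a (c (a (l 16762816) (c (l 16766592) (l 16766424))) (a (c (l 16762320) (l 16761928)) (a (l 16765056) (l 16768336)))) (b (a (c (l 16768616) (c (l 16768336) (l 16768112))) (c (l 16772448) (a (l 16771224) (l 16773240)))) (a (c (l 16772680) (c (l 16771856) (l 16772376))) (a (c (l 16774920) (c (l 16774848) (l 16774784))) (a (b (l 16775480) (b (l 16776800) (l 108682808119))) (c (b (l 16776480) (l 136600096471)) (b (l 16776448) (l 173107315975)))))))) (a (a (c (c (l 16769576) (l 16770752)) (c (a (l 16768280) (l 16770240)) (a (l 16768040) (l 16771368)))) (a (c (l 16773032) (b (l 16770360) (l 16774272))) (a (c (l 16775128) (b (l 16771856) (b (l 16774560) (l 16776360)))) (b (l 16772968) (b (l 16775608) (b (l 2919238599) (a (l 109219678567) (l 4)))))))) (a (a (b (c (l 16774504) (l 16774376)) (a (c (b (l 16776600) (l 176865412599)) (b (l 16777880) (l 180086638023))) (b (a (a (l 65196263943) (l 87744842439)) (l 153243091719)) (l 4))))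 (a (b (c (l 16775944) (b (l 16774992) (c (l 16776776) (l 16778072)))) (c (l 192434670503) (l 195655895879))) (b (b (l 16776040) (a (a (l 83986746087) (l 107072195447)) (l 168812348471))) (l 4)))) (b (b (a (a (a (l 16778080) (a (l 22783461847) (l 81839262391))) (c (l 119957098135) (l 159685542871))) (l 4)) (l 4)) (l 4))))), by decide +kernel⟩

def k103_pp_022_t : ∃ t, chk3 f_pp_022_t t 42 117 1 = true :=
  ⟨(a (b (a (a (b (c (l 16773696) (c (l 16773576) (l 16773472))) (c (b (l 16778896) (a (l 85060488551) (l 190287185623))) (b (a (l 16775736) (b (l 16776296) (l 23857203559))) (a (b (l 16778368) (l 176865412071)) (l 192971540135))))) (a (b (c (l 16775136) (l 16775040)) (b (b (a (l 16777040) (l 105461582151)) (l 4)) (l 4))) (b (b (l 16775192) (a (l 16778016) (b (l 16776768) (l 123715192983)))) (l 4)))) (b (a (a (b (l 16777160) (a (b (l 16778504) (l 4)) (l 182234121479))) (b (b (l 16778032) (a (l 16778256) (l 151632480535))) (l 4))) (a (b (c (l 163443639511) (l 166664864935)) (l 4)) (l 4)))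 (l 4))) (l 4)) (l 4)), by decide +kernel⟩

def k104_pp_022_t : ∃ t, chk3 f_pp_022_t t 43 58 1 = true :=
  ⟨(b (a (b (a (b (a (c (l 16777968) (b (l 16774368) (c (l 16776176) (l 16778112)))) (a (b (l 16775928) (b (l 69491230615) (l 190824055975))) (b (b (l 16776488) (l 79691778039)) (l 4)))) (b (a (a (b (l 16778648) (l 130694516199)) (l 185992218183)) (l 4)) (l 4))) (b (a (a (b (b (l 90966068519) (l 4)) (l 4)) (l 4)) (l 4)) (l 4))) (l 4)) (l 4)) (l 4)), by decide +kernel⟩

def k105_pp_022_t : ∃ t, chk3 f_pp_022_t t 21 59 1 = true :=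
  ⟨(l 4), by decide +kernel⟩

def k106_pp_022_t : ∃ t, chk3 f_pp_022_t t 10 15 1 = true :=
  ⟨(l 4), by decide +kernel⟩

def k107_pp_022_t : ∃ t, chk3 f_pp_022_t t 44 56 1 = true :=
  ⟨(a (b (c (a (l 16742592) (l 16746528)) (a (l 16743576) (b (l 16742648) (l 16749224)))) (c (a (b (l 16752784) (l 16759464)) (b (l 16756616) (l 16763240))) (a (b (l 16752096) (l 16758824)) (b (l 16755912) (c (l 16762888) (l 16762608)))))) (b (c (a (l 16750456) (b (l 16750904) (l 16757480))) (a (b (l 16746328) (l 16753000)) (b (l 16750080) (l 16756856)))) (a (c (b (l 16760360) (l 16767088)) (b (l 16759800) (c (l 16766840) (l 16766640)))) (c (b (l 16764176) (a (l 16770024) (l 16772008))) (b (c (l 16763872) (l 16763632)) (a (l 16769784) (b (l 16770048) (l 16773624)))))))), by decide +kernel⟩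

def k108_pp_022_t : ∃ t, chk3 f_pp_022_t t 45 56 1 = true :=
  ⟨(b (a (c (a (b (l 16754600) (l 16761272)) (b (l 16758376) (l 16765152))) (a (b (l 16753904) (l 16762096)) (b (l 16757800) (c (l 16764888) (l 16764672))))) (a (b (c (l 16762232) (l 16763088)) (c (l 16770432) (c (l 16768944) (l 16770112)))) (b (c (l 16766232) (c (l 16765992) (l 16765808))) (a (c (l 16772152) (b (l 16770208) (l 16773808))) (b (l 16772392) (a (l 16775416) (a (l 16778712) (b (l 16775824) (l 104387841255))))))))) (a (b (a (c (l 16770696) (c (l 16767872) (l 16769016))) (c (a (l 16771056) (l 16773064)) (b (l 16771416) (a (l 16772656) (l 16774736))))) (a (b (c (l 16773264) (a (l 16772104) (l 16774176))) (a (a (l 16775216) (a (l 16777288) (b (l 16775608) (l 86134230103)))) (a (b (l 16776376) (l 169349219431)) (b (a (l 16778416) (l 107072195927)) (l 4))))) (b (b (a (l 16775392) (c (l 83986748295) (a (l 16776888) (l 122641452743)))) (a (a (l 16779256) (a (l 89355455623) (l 130694516119))) (l 4))) (a (c (l 194045283559)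 (b (l 192434669607) (l 4))) (l 4))))) (b (a (b (c (a (l 16773336) (l 16775360)) (a (l 16773216) (b (l 16774408) (l 16778824)))) (b (a (c (l 16775960) (l 16775920)) (c (l 112977777831) (a (l 90966068711) (l 197803378215)))) (a (c (l 98482263111) (a (l 25467817303) (l 179549766839))) (l 4)))) (b (a (c (b (l 16776512) (l 128010163447)) (b (c (l 16776488) (l 16779096)) (a (l 113514646967) (l 4)))) (c (l 185455348423) (b (l 177402283575) (l 4)))) (l 4))) (l 4)))), by decide +kernel⟩

def k109_pp_022_t : ∃ t, chk3 f_pp_022_t t 22 57 1 = true :=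
  ⟨(a (b (a (b (a (c (l 16766144) (c (l 16765848) (l 16765616))) (c (a (l 16769048) (l 16771000)) (a (l 16768752) (l 16772088)))) (a (c (b (l 16771256) (a (l 16773728) (l 16778312))) (b (c (l 16771096) (l 16770968)) (a (l 16773592) (a (l 16775136) (b (l 16775264) (l 16877882503)))))) (b (b (a (l 16773280) (l 16775304)) (a (l 16775048) (a (l 16779176) (a (l 79154908231) (l 118883356087))))) (a (a (b (l 16776312) (a (l 117809614263) (l 195119023495))) (c (l 150021866599) (b (l 75933680471) (l 4)))) (c (l 188139703431) (b (l 185455347671) (l 4))))))) (b (a (a (c (l 16772976) (b (l 16771032) (l 16774624))) (b (c (l 16773224) (l 16773088)) (b (c (l 16775840) (l 16775784)) (c (l 88281713127) (a (l 17414753431) (l 168275477527)))))) (b (c (a (l 16775216) (b (l 16776344) (l 116199003319))) (c (a (l 16775168) (b (l 16776320) (l 156464317415))) (a (l 16775128) (b (l 16778920) (l 157001185671))))) (a (b (a (a (l 16778368) (l 101703486727)) (l 180623508887)) (l 4)) (l 4)))) (a (b (a (b (c (l 75933681911)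 (a (l 16776784) (l 113514647079))) (a (l 194582152903) (l 4))) (l 4)) (l 4)) (l 4)))) (a (b (a (b (b (a (c (l 16776320) (c (l 16776288) (l 16777576))) (c (l 160759285095) (a (l 111904034343) (l 4)))) (a (c (l 111367165095) (a (l 93650421959) (l 197266507447))) (l 4))) (l 4)) (l 4)) (l 4)) (l 4))) (b (a (b (a (b (a (c (l 176328542727) (b (a (l 117272743511) (l 4)) (l 4))) (l 4)) (l 4)) (l 4)) (l 4)) (l 4)) (l 4))), by decide +kernel⟩

def k110_pp_022_t : ∃ t, chk3 f_pp_022_t t 23 28 1 = true :=
  ⟨(b (a (b (a (a (a (b (c (l 16769288) (l 16769056)) (b (c (l 16774496) (l 16774424)) (a (b (l 16776584) (l 184381605223)) (a (a (l 158611799735) (l 169886090551)) (l 181697251111))))) (b (c (l 16771320) (l 16771160)) (b (b (l 16776952) (a (l 9898560999) (l 122104581111))) (l 4)))) (a (b (c (l 16773360) (b (l 16771472) (l 16775032))) (b (b (a (a (l 16776912) (l 94187293783)) (l 175791670423)) (l 4)) (l 4))) (b (b (l 16773944) (c (a (l 16779208) (l 94724164023)) (b (l 16778840) (a (l 93650423095)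 (l 197803378151))))) (l 4)))) (b (a (b (a (a (l 16775168) (c (l 16776184) (l 16778776))) (a (b (l 16776344) (l 131231388151)) (b (l 85060486695) (l 4)))) (a (c (l 176865413383) (b (l 165054250871) (l 4))) (l 4))) (b (a (c (l 195119025143) (l 195655895927)) (l 4)) (l 4))) (l 4))) (l 4)) (l 4)) (l 4)), by decide +kernel⟩

def k111_pp_022_t : ∃ t, chk3 f_pp_022_t t 11 29 1 = true :=
  ⟨(l 4), by decide +kernel⟩

def k112_pp_022_t : ∃ t, chk3 f_pp_022_t t 11 15 1 = true :=
  ⟨(l 4), by decide +kernel⟩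

def k113_pp_022_t : ∃ t, chk3 f_pp_022_t t 6 2 1 = true :=
  ⟨(b (l 6) (a (b (a (l 6) (b (l 6) (a (l 6) (l 16587672)))) (a (c (b (a (l 16574776) (l 16587904)) (a (l 16616480) (l 16640912))) (b (a (l 16566736) (l 16581136)) (a (b (l 16590648) (l 16608512)) (b (l 16605992) (l 16645024))))) (b (a (c (l 16603224) (l 16597848)) (c (l 16618840) (l 16614728))) (a (c (l 16656512) (b (l 16622880) (l 16661896))) (a (l 16662976) (l 16669504)))))) (a (b (b (a (l 6) (l 16592800)) (a (l 16603432) (l 16618128))) (c (a (b (l 16633992) (l 16686536)) (b (l 16648200) (l 16700600))) (b (a (l 16630920) (l 16645832)) (a (l 16679696) (l 16694336))))) (a (b (b (l 16606648) (l 16632136)) (a (b (l 16657424) (l 16699984)) (b (l 16664320) (l 16712192)))) (b (b (l 16619920) (l 16645680)) (b (b (l 16667032) (l 16682344)) (b (a (l 16694920) (l 16701928)) (l 16728592)))))))), by decide +kernel⟩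

def k114_pp_022_t : ∃ t, chk3 f_pp_022_t t 14 2 1 = true :=
  ⟨(b (b (l 6) (a (b (l 6) (l 16638184)) (c (l 16653408) (l 16653776)))) (b (a (b (a (l 16633392) (l 16647200)) (a (l 16680432) (l 16715640))) (b (a (l 16661432) (l 16675416)) (a (b (l 16680944) (l 16694952)) (a (l 16698544) (l 16705248))))) (a (b (a (a (l 16685200) (l 16713232)) (a (l 16720456) (l 16727672))) (b (a (a (l 16708952) (l 16737024)) (b (a (l 16719136) (l 16726352)) (l 16751944))) (a (c (l 16750768) (l 16750552)) (a (l 16761320) (l 16768392))))) (a (b (b (a (l 16706176) (l 16713224)) (l 16725024)) (b (b (l 16736856) (l 16758056)) (a (l 16775264) (a (l 16780280) (l 16773072))))) (b (c (l 16773776) (l 16751160)) (b (a (l 16771832) (c (l 16778536) (l 16756896))) (b (a (l 16773592) (l 16781160)) (a (a (l 16770152) (a (l 16772528) (l 22246596215))) (b (a (l 16774208) (c (l 62511916359) (l 61975045239))) (a (b (l 68954366535) (l 155927442519)) (l 4))))))))))), by decide +kernel⟩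

def k115_pp_022_t : ∃ t, chk3 f_pp_022_t t 15 2 1 = true :=
  ⟨(b (b (a (b (l 6) (l 16652792)) (b (l 16636416) (a (l 16647200) (l 16656136)))) (a (b (l 16649472) (l 16691616)) (b (l 16683024) (a (l 16644776) (l 16654304))))) (b (a (b (c (l 16717312) (l 16713840)) (a (l 16767272) (b (l 16719552) (l 16754344)))) (b (a (l 16710784) (l 16720760)) (a (b (l 16730288) (l 16765000)) (b (l 16740584) (a (l 16751992) (l 16778344)))))) (a (b (b (a (l 16757088) (a (l 16744952) (l 16750416))) (a (c (l 16767280) (l 16771408)) (a (l 16773408) (a (l 16784744) (l 16776952))))) (a (b (b (a (l 16759440) (l 16775824)) (a (l 16777760) (a (l 16771672) (b (l 16772568) (l 56069466679))))) (b (a (a (a (l 16773144) (l 32447144615)) (b (l 16774760) (b (l 79691785575) (l 4)))) (b (a (b (l 16781824) (l 99019138727)) (l 145726893943)) (l 4))) (a (a (l 155390568119) (l 4)) (l 4)))) (b (b (a (a (l 16769584) (l 16772352)) (b (a (l 16773168) (l 16781112)) (a (l 65733142919) (l 135526347367)))) (a (b (a (l 16780584) (l 82376142071))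 (a (l 122104575319) (l 4))) (l 4))) (l 4)))) (b (b (a (c (l 16779896) (l 16778936)) (b (a (l 16762864) (l 16768328)) (a (l 16780752) (a (l 42110823351) (b (l 16775280) (l 102240366647)))))) (a (a (b (l 16777272) (a (l 16772944) (b (l 16773792) (l 77007432855)))) (a (b (l 16770888) (b (l 54995724151) (l 149484990151))) (b (l 16778864) (l 140358183367)))) (b (a (a (b (l 16774504) (l 90429206151)) (b (l 70564981719) (l 4))) (a (l 151095600439) (l 4))) (l 4)))) (a (b (b (a (b (a (l 94187302263) (l 4)) (l 4)) (l 4)) (l 4)) (l 4)) (l 4)))))), by decide +kernel⟩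

def k116_pp_022_t : ∃ t, chk3 f_pp_022_t t 12 12 1 = true :=
  ⟨(b (b (a (a (a (l 16646944) (l 16654368)) (c (a (l 16643040) (l 16650744)) (l 16664336))) (b (a (l 16656488) (l 16672232)) (a (l 16666080) (l 16681768)))) (a (a (a (b (l 16640312) (l 16650240)) (b (l 16647960) (l 16658120))) (a (b (l 16655968) (l 16666112)) (a (l 16688024) (l 16639600)))) (a (a (l 16677048) (l 16684992)) (a (l 16692832) (l 16700448))))) (a (b (c (a (l 16689504) (l 16705248)) (a (a (l 16684984) (l 16693280)) (a (l 16701568) (b (l 16683424) (l 16694304))))) (a (a (c (b (l 16683424) (l 16694520)) (b (l 16680640) (l 16692128))) (c (b (l 16691264) (l 16681424)) (b (l 16688928) (l 16700416)))) (b (c (l 16713552) (a (l 16697216) (l 16705464))) (a (c (l 16689312) (l 16729656)) (l 16728072))))) (a (b (a (l 16712680) (l 16720280)) (a (b (l 16714288) (l 16730800)) (b (l 16722192) (l 16743912)))) (b (a (a (l 16711736) (l 16715584)) (a (l 16719352) (l 16723024))) (a (c (l 16746256) (l 16745760)) (c (b (l 16737576) (l 16748712))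 (l 16752840))))))), by decide +kernel⟩

def k117_pp_022_t : ∃ t, chk3 f_pp_022_t t 24 26 1 = true :=
  ⟨(b (a (c (a (l 16722264) (l 16730184)) (a (b (l 16724880) (b (l 16712944) (l 16740032))) (b (a (l 16710120) (l 16714256)) (c (l 16735112) (l 16734368))))) (a (a (c (l 16725632) (b (l 16718384) (l 16730432))) (a (l 16735952) (l 16737960))) (b (b (l 16726224) (l 16732080)) (a (l 16739008) (l 16742984))))) (b (a (a (a (l 16727040) (l 16731080)) (a (l 16740368) (l 16744392))) (a (a (l 16748408) (l 16752408)) (c (l 16758568) (c (l 16753008) (l 16757984))))) (a (a (a (a (l 16738520) (l 16740536)) (a (l 16742560) (l 16744576))) (a (a (l 16746592) (l 16748608)) (a (l 16750616) (l 16752616)))) (a (c (a (l 16755816) (l 16759752)) (a (l 16755384) (l 16764656))) (a (c (l 16763664) (l 16766696)) (c (l 16768872) (b (l 16764232) (l 16770560)))))))), by decide +kernel⟩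

def k118_pp_022_t : ∃ t, chk3 f_pp_022_t t 24 54 1 = true :=
  ⟨(a (b (a (c (a (l 16752576) (l 16756560)) (a (l 16757248) (l 16758728))) (b (a (l 16762384) (l 16763768)) (a (c (l 16763728) (l 16763456)) (c (l 16767688) (l 16767504))))) (a (a (b (c (l 16762240) (l 16761912)) (c (l 16768792) (l 16769928))) (b (c (l 16766232) (l 16766000)) (c (a (l 16771792) (l 16773776)) (a (l 16771680) (b (l 16772032) (l 16775384)))))) (b (a (c (l 16770208) (l 16770064)) (a (c (l 16773176) (l 16773104)) (b (l 16773496) (a (l 16778880) (a (l 22246592503) (l 88818586071)))))) (a (a (b (l 16774096) (c (b (l 16776568) (l 124788937623)) (b (l 16776544) (l 122641454071)))) (b (c (l 16776080) (b (l 16775248) (l 16779480))) (c (l 179549768103) (l 179549767975)))) (b (a (c (l 103850970999) (b (l 31910269223) (l 187065960231))) (l 4)) (l 4)))))) (b (a (b (a (c (l 16765240) (l 16765016)) (c (l 16769168) (l 16769032))) (c (a (l 16771640) (b (l 16773952) (a (l 16776160) (l 105461586263)))) (a (l 16771536) (b (l 16773896)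 (a (l 16778752) (l 140358187095)))))) (b (a (b (l 16774072) (c (l 16774656) (l 16777232))) (b (c (l 16780600) (a (l 16774368) (l 16778904))) (a (a (l 26541560695) (l 107072198279)) (l 182770993543)))) (a (b (a (a (l 16776360) (l 80228647095)) (c (l 159685543559) (l 159685543463))) (l 4)) (l 4)))) (a (b (a (a (b (l 16778096) (c (l 159148672583) (l 159148672487))) (b (b (l 16779240) (l 121567713367)) (l 4))) (b (a (l 175254800711) (l 4)) (l 4))) (l 4)) (l 4)))), by decide +kernel⟩

def k119_pp_022_t : ∃ t, chk3 f_pp_022_t t 24 55 1 = true :=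
  ⟨(a (b (a (b (a (b (c (l 16773760) (l 16773688)) (a (a (l 16775576) (b (l 16775744) (l 88281714535))) (a (b (l 16776736) (l 184918476119)) (l 163980509351)))) (b (b (a (l 16775904) (a (l 87207972679) (l 148948127767))) (a (c (l 93113553527) (l 90966067351)) (l 4))) (l 4))) (a (b (a (c (l 182234122759) (l 182770993559)) (l 4)) (l 4)) (l 4))) (l 4)) (l 4)) (l 4)), by decide +kernel⟩

def k120_pp_022_t : ∃ t, chk3 f_pp_022_t t 25 13 1 = true :=
  ⟨(b (b (a (a (a (c (l 16751824) (l 16745928)) (c (l 16755704) (l 16752544))) (a (b (l 16742984) (l 16760000)) (b (l 16746864) (l 16763856)))) (a (b (c (l 16752704) (l 16752416)) (a (c (l 16762496) (l 16762320)) (c (l 16766240) (l 16766120)))) (a (b (l 16758200) (c (l 16769944) (l 16769872))) (b (l 16767136) (b (l 16770680) (b (c (l 16775128) (l 16775104)) (a (l 37278980807) (l 132842004279)))))))) (a (b (a (c (a (l 16759160) (l 16763024)) (a (l 16758856) (l 16762800))) (a (c (l 16766856) (l 16766704)) (b (l 16767584) (c (l 16773648) (l 16777200)))))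 (a (b (a (l 16770880) (c (l 16772168) (l 16772088))) (b (a (l 16772936) (a (l 16775824) (a (l 76470555703) (l 114051520039)))) (a (a (l 16775112) (a (l 16776536) (l 86671103175))) (a (l 159148672743) (l 4))))) (b (a (b (l 16776720) (a (l 12046047383) (l 111904035911))) (b (a (l 75933681447) (l 162369898407)) (l 4))) (a (a (l 189213446183) (l 4)) (l 4))))) (b (b (a (a (l 16771376) (a (l 16774184) (b (l 16774568) (l 83986750663)))) (a (b (a (l 16776408) (l 107072200567)) (l 177939153159)) (l 4))) (a (a (a (b (l 16774960) (l 96871647927)) (b (l 23320337063) (l 4))) (c (l 167738609687) (l 177402279399))) (l 4))) (l 4)))) (b (a (b (a (b (a (b (a (c (l 109219682647) (l 107072199063)) (l 4)) (l 4)) (l 4)) (l 4)) (l 4)) (l 4)) (l 4)) (l 4))), by decide +kernel⟩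

def k121_pp_022_t : ∃ t, chk3 f_pp_022_t t 26 12 1 = true :=
  ⟨(b (a (a (b (l 16688248) (l 16707736)) (c (l 16726200) (l 16725816))) (a (c (l 16733104) (l 16732896)) (c (l 16742704) (l 16740016)))) (a (b (a (c (l 16728584) (l 16728272)) (c (l 16735688) (l 16735520))) (b (a (l 16755200) (c (l 16752056) (l 16751936))) (a (c (l 16756000) (l 16755856)) (c (l 16768584) (l 16768512))))) (b (a (c (l 16753336) (l 16742792)) (c (l 16760536) (l 16760552))) (b (a (c (l 16759344) (l 16759296)) (c (l 16770600) (l 16770592))) (b (a (c (l 16767832) (l 16767800)) (a (c (l 16773360) (l 16773352)) (b (c (l 16775592) (l 16775584)) (a (l 91502942951) (l 184381603671))))) (a (a (l 16771728) (a (l 16774496) (b (l 16774904) (l 99019135879)))) (a (b (c (l 92039815479) (l 90429202855)) (l 4)) (l 4)))))))), by decide +kernel⟩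

def k122_pp_022_t : ∃ t, chk3 f_pp_022_t t 27 12 1 = true :=
  ⟨(b (b (a (b (l 16715072) (l 16737728)) (c (l 16754888) (l 16749736))) (a (a (l 16746592) (a (l 16741464) (l 16766008))) (a (c (l 16771288) (l 16771448)) (b (l 16762872) (c (l 16773224) (l 16762864)))))) (a (b (a (b (l 16762360) (c (l 16773272) (l 16773296))) (b (c (l 16759056) (l 16759144)) (a (c (l 16768256) (l 16768288)) (a (l 16776264) (c (l 16780680) (l 16778072)))))) (b (a (b (c (l 16776416) (l 16776424)) (a (c (l 11509178167) (a (l 16774088) (l 16781120))) (b (c (l 50163883895) (l 46405787799)) (l 176328539511)))) (b (a (b (l 6677339527) (a (l 46405785991) (l 132842003735))) (a (l 158074928295) (l 4))) (l 4))) (a (a (c (l 184381602087) (l 188139697511)) (l 4)) (l 4)))) (b (b (a (a (l 16775024) (l 16772104)) (a (c (b (l 16769016) (l 16779752)) (l 16779664)) (b (l 16772680) (b (c (l 39963336039) (l 16781936)) (l 159685540423))))) (a (b (a (l 16772792) (b (l 16775040) (a (l 16776848) (l 123715198167)))) (a (b (c (l 43721432711)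 (l 41573948999)) (l 167201733527)) (l 4))) (a (a (b (l 151095606135) (l 4)) (l 4)) (l 4)))) (l 4)))), by decide +kernel⟩

def k123_pp_022_t : ∃ t, chk3 f_pp_022_t t 13 13 1 = true :=
  ⟨(a (b (b (a (b (a (a (c (l 16765640) (l 16765552)) (c (l 16769344) (l 16769288))) (b (a (l 16770112) (a (l 16772896) (l 16779984))) (b (a (l 16774496) (a (l 85060491879) (l 138747584071))) (a (c (l 87744843159) (l 82913010279)) (l 4))))) (a (b (a (c (l 16779648) (l 16779616)) (b (c (l 30836530775) (l 16781152)) (a (l 123715198775) (l 4)))) (a (c (l 163443638695) (l 160222413687)) (l 4))) (a (c (l 193508415079) (l 202098344679)) (l 4)))) (b (a (b (c (a (b (l 16781288) (l 154853704503)) (l 181160380055)) (a (b (l 16776024) (l 120493974871)) (l 185992215831))) (l 4)) (l 4)) (l 4))) (l 4)) (l 4)) (l 4)), by decide +kernel⟩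

def k124_pp_022_t : ∃ t, chk3 f_pp_022_t t 6 7 1 = true :=
  ⟨(l 4), by decide +kernel⟩

def k125_pp_022_t : ∃ t, chk3 f_pp_022_t t 7 3 1 = true :=
  ⟨(b (a (b (a (b (b (a (a (l 16757736) (c (l 16772736) (l 16772776))) (a (a (l 16767632) (a (l 16780760) (l 16772016))) (b (l 16771552) (a (l 16768952) (c (l 16780224) (l 16772344)))))) (a (a (b (l 16771360) (a (l 16773464) (b (l 16769152) (c (l 16779704) (l 16774480))))) (b (a (l 16764936) (l 16773752)) (b (a (l 16772752) (a (l 16780640) (b (l 16775864) (l 113514650215)))) (a (b (c (l 39963335927) (l 16776640)) (l 154316831031)) (l 182770987495))))) (b (a (a (c (l 16780536) (l 16772032)) (b (l 16772968) (b (c (l 43184561175) (l 16776696)) (l 151632476231)))) (b (a (c (b (l 16775144) (l 85060492951)) (l 39426466583)) (b (l 101166622375) (l 4))) (l 4))) (a (a (a (b (l 141968800215) (l 4)) (l 187602823943)) (l 4)) (l 4))))) (b (a (b (a (b (a (a (l 16780616) (b (l 16775832) (l 117272747063))) (a (l 145190025879) (l 189213439399))) (l 4)) (l 4))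 (l 4)) (l 4)) (l 4))) (b (b (a (b (a (c (l 16778360) (l 16767808)) (b (c (l 16772128) (l 16772072)) (a (l 23857208903) (b (l 58216947895) (l 155927442919))))) (a (b (a (l 16773296) (a (l 16775760) (l 60901302071))) (a (b (l 50163884263) (l 150558734135)) (l 4))) (b (a (l 144116282503) (l 4)) (l 4)))) (b (a (b (a (a (l 16776072) (l 79154913047)) (l 147337507591)) (l 4)) (l 4)) (l 4))) (l 4)) (l 4))) (l 4)) (l 4)) (l 4)), by decide +kernel⟩

theorem s126_pp_022_t : ∃ t, chk3 f_pp_022_t t 13 12 1 = true := ex3_a k121_pp_022_t k122_pp_022_t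

theorem s127_pp_022_t : ∃ t, chk3 f_pp_022_t t 13 6 1 = true := ex3_b s126_pp_022_t k123_pp_022_t

theorem s128_pp_022_t : ∃ t, chk3 f_pp_022_t t 24 27 1 = true := ex3_b k118_pp_022_t k119_pp_022_t

theorem s129_pp_022_t : ∃ t, chk3 f_pp_022_t t 24 13 1 = true := ex3_b k117_pp_022_t s128_pp_022_t

theorem s130_pp_022_t : ∃ t, chk3 f_pp_022_t t 12 13 1 = true := ex3_a s129_pp_022_t k120_pp_022_t

theorem s131_pp_022_t : ∃ t, chk3 f_pp_022_t t 12 6 1 = true := ex3_b k116_pp_022_t s130_pp_022_t

theorem s132_pp_022_t : ∃ t, chk3 f_pp_022_t t 6 6 1 = true := ex3_a s131_pp_022_t s127_pp_022_t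

theorem s133_pp_022_t : ∃ t, chk3 f_pp_022_t t 6 3 1 = true := ex3_b s132_pp_022_t k124_pp_022_t

theorem s134_pp_022_t : ∃ t, chk3 f_pp_022_t t 3 3 1 = true := ex3_a s133_pp_022_t k125_pp_022_t

theorem s135_pp_022_t : ∃ t, chk3 f_pp_022_t t 7 2 1 = true := ex3_a k114_pp_022_t k115_pp_022_t

theorem s136_pp_022_t : ∃ t, chk3 f_pp_022_t t 3 2 1 = true := ex3_a k113_pp_022_t s135_pp_022_t

theorem s137_pp_022_t : ∃ t, chk3 f_pp_022_t t 3 1 1 = true := ex3_b s136_pp_022_t s134_pp_022_t

theorem s138_pp_022_t : ∃ t, chk3 f_pp_022_t t 22 56 1 = true := ex3_a k107_pp_022_t k108_pp_022_t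

theorem s139_pp_022_t : ∃ t, chk3 f_pp_022_t t 22 28 1 = true := ex3_b s138_pp_022_t k109_pp_022_t

theorem s140_pp_022_t : ∃ t, chk3 f_pp_022_t t 11 28 1 = true := ex3_a s139_pp_022_t k110_pp_022_t

theorem s141_pp_022_t : ∃ t, chk3 f_pp_022_t t 11 14 1 = true := ex3_b s140_pp_022_t k111_pp_022_t

theorem s142_pp_022_t : ∃ t, chk3 f_pp_022_t t 11 7 1 = true := ex3_b s141_pp_022_t k112_pp_022_t

theorem s143_pp_022_t : ∃ t, chk3 f_pp_022_t t 42 58 1 = true := ex3_b k102_pp_022_t k103_pp_022_t

theorem s144_pp_022_t : ∃ t, chk3 f_pp_022_t t 21 58 1 = true := ex3_a s143_pp_022_t k104_pp_022_t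

theorem s145_pp_022_t : ∃ t, chk3 f_pp_022_t t 21 29 1 = true := ex3_b s144_pp_022_t k105_pp_022_t

theorem s146_pp_022_t : ∃ t, chk3 f_pp_022_t t 21 57 1 = true := ex3_a k100_pp_022_t k101_pp_022_t

theorem s147_pp_022_t : ∃ t, chk3 f_pp_022_t t 21 28 1 = true := ex3_b k99_pp_022_t s146_pp_022_t

theorem s148_pp_022_t : ∃ t, chk3 f_pp_022_t t 21 14 1 = true := ex3_b s147_pp_022_t s145_pp_022_t

theorem s149_pp_022_t : ∃ t, chk3 f_pp_022_t t 83 29 1 = true := ex3_a k97_pp_022_t k98_pp_022_t

theorem s150_pp_022_t : ∃ t, chk3 f_pp_022_t t 82 29 1 = true := ex3_b k95_pp_022_t k96_pp_022_t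

theorem s151_pp_022_t : ∃ t, chk3 f_pp_022_t t 41 29 1 = true := ex3_a s150_pp_022_t s149_pp_022_t

theorem s152_pp_022_t : ∃ t, chk3 f_pp_022_t t 80 119 1 = true := ex3_b k92_pp_022_t k93_pp_022_t

theorem s153_pp_022_t : ∃ t, chk3 f_pp_022_t t 40 119 1 = true := ex3_a s152_pp_022_t k94_pp_022_t

theorem s154_pp_022_t : ∃ t, chk3 f_pp_022_t t 40 118 1 = true := ex3_a k90_pp_022_t k91_pp_022_t

theorem s155_pp_022_t : ∃ t, chk3 f_pp_022_t t 40 59 1 = true := ex3_b s154_pp_022_t s153_pp_022_t

theorem s156_pp_022_t : ∃ t, chk3 f_pp_022_t t 40 29 1 = true := ex3_b k89_pp_022_t s155_pp_022_t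

theorem s157_pp_022_t : ∃ t, chk3 f_pp_022_t t 20 29 1 = true := ex3_a s156_pp_022_t s151_pp_022_t

theorem s158_pp_022_t : ∃ t, chk3 f_pp_022_t t 20 14 1 = true := ex3_b k88_pp_022_t s157_pp_022_t

theorem s159_pp_022_t : ∃ t, chk3 f_pp_022_t t 10 14 1 = true := ex3_a s158_pp_022_t s148_pp_022_t

theorem s160_pp_022_t : ∃ t, chk3 f_pp_022_t t 10 7 1 = true := ex3_b s159_pp_022_t k106_pp_022_t

theorem s161_pp_022_t : ∃ t, chk3 f_pp_022_t t 5 7 1 = true := ex3_a s160_pp_022_t s142_pp_022_t

theorem s162_pp_022_t : ∃ t, chk3 f_pp_022_t t 23 27 1 = true := ex3_a k86_pp_022_t k87_pp_022_t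

theorem s163_pp_022_t : ∃ t, chk3 f_pp_022_t t 23 13 1 = true := ex3_b k85_pp_022_t s162_pp_022_t

theorem s164_pp_022_t : ∃ t, chk3 f_pp_022_t t 11 13 1 = true := ex3_a k84_pp_022_t s163_pp_022_t

theorem s165_pp_022_t : ∃ t, chk3 f_pp_022_t t 11 6 1 = true := ex3_b k83_pp_022_t s164_pp_022_t

theorem s166_pp_022_t : ∃ t, chk3 f_pp_022_t t 20 6 1 = true := ex3_b k80_pp_022_t k81_pp_022_t

theorem s167_pp_022_t : ∃ t, chk3 f_pp_022_t t 10 6 1 = true := ex3_a s166_pp_022_t k82_pp_022_t

theorem s168_pp_022_t : ∃ t, chk3 f_pp_022_t t 5 6 1 = true := ex3_a s167_pp_022_t s165_pp_022_t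

theorem s169_pp_022_t : ∃ t, chk3 f_pp_022_t t 5 3 1 = true := ex3_b s168_pp_022_t s161_pp_022_t

theorem s170_pp_022_t : ∃ t, chk3 f_pp_022_t t 78 120 1 = true := ex3_a k74_pp_022_t k75_pp_022_t

theorem s171_pp_022_t : ∃ t, chk3 f_pp_022_t t 39 120 1 = true := ex3_a s170_pp_022_t k76_pp_022_t

theorem s172_pp_022_t : ∃ t, chk3 f_pp_022_t t 39 60 1 = true := ex3_b s171_pp_022_t k77_pp_022_t

theorem s173_pp_022_t : ∃ t, chk3 f_pp_022_t t 153 242 1 = true := ex3_b k70_pp_022_t k71_pp_022_t

theorem s174_pp_022_t : ∃ t, chk3 f_pp_022_t t 153 121 1 = true := ex3_b s173_pp_022_t k72_pp_022_t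

theorem s175_pp_022_t : ∃ t, chk3 f_pp_022_t t 152 243 1 = true := ex3_b k68_pp_022_t k69_pp_022_t

theorem s176_pp_022_t : ∃ t, chk3 f_pp_022_t t 152 121 1 = true := ex3_b k67_pp_022_t s175_pp_022_t

theorem s177_pp_022_t : ∃ t, chk3 f_pp_022_t t 76 121 1 = true := ex3_a s176_pp_022_t s174_pp_022_t

theorem s178_pp_022_t : ∃ t, chk3 f_pp_022_t t 38 121 1 = true := ex3_a s177_pp_022_t k73_pp_022_t

theorem s179_pp_022_t : ∃ t, chk3 f_pp_022_t t 77 241 1 = true := ex3_b k65_pp_022_t k66_pp_022_t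

theorem s180_pp_022_t : ∃ t, chk3 f_pp_022_t t 38 241 1 = true := ex3_a k64_pp_022_t s179_pp_022_t

theorem s181_pp_022_t : ∃ t, chk3 f_pp_022_t t 38 120 1 = true := ex3_b k63_pp_022_t s180_pp_022_t

theorem s182_pp_022_t : ∃ t, chk3 f_pp_022_t t 38 60 1 = true := ex3_b s181_pp_022_t s178_pp_022_t

theorem s183_pp_022_t : ∃ t, chk3 f_pp_022_t t 19 60 1 = true := ex3_a s182_pp_022_t s172_pp_022_t

theorem s184_pp_022_t : ∃ t, chk3 f_pp_022_t t 19 30 1 = true := ex3_b s183_pp_022_t k78_pp_022_t

theorem s185_pp_022_t : ∃ t, chk3 f_pp_022_t t 19 15 1 = true := ex3_b s184_pp_022_t k79_pp_022_t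

theorem s186_pp_022_t : ∃ t, chk3 f_pp_022_t t 150 244 1 = true := ex3_a k57_pp_022_t k58_pp_022_t

theorem s187_pp_022_t : ∃ t, chk3 f_pp_022_t t 75 244 1 = true := ex3_a s186_pp_022_t k59_pp_022_t

theorem s188_pp_022_t : ∃ t, chk3 f_pp_022_t t 75 122 1 = true := ex3_b s187_pp_022_t k60_pp_022_t

theorem s189_pp_022_t : ∃ t, chk3 f_pp_022_t t 148 490 1 = true := ex3_b k53_pp_022_t k54_pp_022_t

theorem s190_pp_022_t : ∃ t, chk3 f_pp_022_t t 148 245 1 = true := ex3_b s189_pp_022_t k55_pp_022_t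

theorem s191_pp_022_t : ∃ t, chk3 f_pp_022_t t 74 245 1 = true := ex3_a s190_pp_022_t k56_pp_022_t

theorem s192_pp_022_t : ∃ t, chk3 f_pp_022_t t 149 489 1 = true := ex3_a k51_pp_022_t k52_pp_022_t

theorem s193_pp_022_t : ∃ t, chk3 f_pp_022_t t 74 489 1 = true := ex3_a k50_pp_022_t s192_pp_022_t

theorem s194_pp_022_t : ∃ t, chk3 f_pp_022_t t 74 244 1 = true := ex3_b k49_pp_022_t s193_pp_022_t

theorem s195_pp_022_t : ∃ t, chk3 f_pp_022_t t 74 122 1 = true := ex3_b s194_pp_022_t s191_pp_022_t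

theorem s196_pp_022_t : ∃ t, chk3 f_pp_022_t t 37 122 1 = true := ex3_a s195_pp_022_t s188_pp_022_t

theorem s197_pp_022_t : ∃ t, chk3 f_pp_022_t t 37 61 1 = true := ex3_b s196_pp_022_t k61_pp_022_t

theorem s198_pp_022_t : ∃ t, chk3 f_pp_022_t t 146 985 1 = true := ex3_a k44_pp_022_t k45_pp_022_t

theorem s199_pp_022_t : ∃ t, chk3 f_pp_022_t t 146 492 1 = true := ex3_b k43_pp_022_t s198_pp_022_t

theorem s200_pp_022_t : ∃ t, chk3 f_pp_022_t t 146 246 1 = true := ex3_b s199_pp_022_t k46_pp_022_t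

theorem s201_pp_022_t : ∃ t, chk3 f_pp_022_t t 73 246 1 = true := ex3_a s200_pp_022_t k47_pp_022_t

theorem s202_pp_022_t : ∃ t, chk3 f_pp_022_t t 73 123 1 = true := ex3_b s201_pp_022_t k48_pp_022_t

theorem s203_pp_022_t : ∃ t, chk3 f_pp_022_t t 145 247 1 = true := ex3_a k41_pp_022_t k42_pp_022_t

theorem s204_pp_022_t : ∃ t, chk3 f_pp_022_t t 144 990 1 = true := ex3_b k38_pp_022_t k39_pp_022_t

theorem s205_pp_022_t : ∃ t, chk3 f_pp_022_t t 144 495 1 = true := ex3_b s204_pp_022_t k40_pp_022_t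

theorem s206_pp_022_t : ∃ t, chk3 f_pp_022_t t 289 494 1 = true := ex3_a k36_pp_022_t k37_pp_022_t

theorem s207_pp_022_t : ∃ t, chk3 f_pp_022_t t 144 494 1 = true := ex3_a k35_pp_022_t s206_pp_022_t

theorem s208_pp_022_t : ∃ t, chk3 f_pp_022_t t 144 247 1 = true := ex3_b s207_pp_022_t s205_pp_022_t

theorem s209_pp_022_t : ∃ t, chk3 f_pp_022_t t 72 247 1 = true := ex3_a s208_pp_022_t s203_pp_022_t

theorem s210_pp_022_t : ∃ t, chk3 f_pp_022_t t 291 246 1 = true := ex3_a k33_pp_022_t k34_pp_022_t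

theorem s211_pp_022_t : ∃ t, chk3 f_pp_022_t t 145 246 1 = true := ex3_a k32_pp_022_t s210_pp_022_t

theorem s212_pp_022_t : ∃ t, chk3 f_pp_022_t t 72 246 1 = true := ex3_a k31_pp_022_t s211_pp_022_t

theorem s213_pp_022_t : ∃ t, chk3 f_pp_022_t t 72 123 1 = true := ex3_b s212_pp_022_t s209_pp_022_t

theorem s214_pp_022_t : ∃ t, chk3 f_pp_022_t t 36 123 1 = true := ex3_a s213_pp_022_t s202_pp_022_t

theorem s215_pp_022_t : ∃ t, chk3 f_pp_022_t t 147 491 1 = true := ex3_b k29_pp_022_t k30_pp_022_t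

theorem s216_pp_022_t : ∃ t, chk3 f_pp_022_t t 73 491 1 = true := ex3_a k28_pp_022_t s215_pp_022_t

theorem s217_pp_022_t : ∃ t, chk3 f_pp_022_t t 73 245 1 = true := ex3_b k27_pp_022_t s216_pp_022_t

theorem s218_pp_022_t : ∃ t, chk3 f_pp_022_t t 73 122 1 = true := ex3_b k26_pp_022_t s217_pp_022_t

theorem s219_pp_022_t : ∃ t, chk3 f_pp_022_t t 36 122 1 = true := ex3_a k25_pp_022_t s218_pp_022_t

theorem s220_pp_022_t : ∃ t, chk3 f_pp_022_t t 36 61 1 = true := ex3_b s219_pp_022_t s214_pp_022_t

theorem s221_pp_022_t : ∃ t, chk3 f_pp_022_t t 18 61 1 = true := ex3_a s220_pp_022_t s197_pp_022_t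

theorem s222_pp_022_t : ∃ t, chk3 f_pp_022_t t 151 121 1 = true := ex3_a k23_pp_022_t k24_pp_022_t

theorem s223_pp_022_t : ∃ t, chk3 f_pp_022_t t 151 60 1 = true := ex3_b k22_pp_022_t s222_pp_022_t

theorem s224_pp_022_t : ∃ t, chk3 f_pp_022_t t 150 60 1 = true := ex3_b k20_pp_022_t k21_pp_022_t

theorem s225_pp_022_t : ∃ t, chk3 f_pp_022_t t 75 60 1 = true := ex3_a s224_pp_022_t s223_pp_022_t

theorem s226_pp_022_t : ∃ t, chk3 f_pp_022_t t 37 60 1 = true := ex3_a k19_pp_022_t s225_pp_022_t

theorem s227_pp_022_t : ∃ t, chk3 f_pp_022_t t 36 60 1 = true := ex3_a k17_pp_022_t k18_pp_022_t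

theorem s228_pp_022_t : ∃ t, chk3 f_pp_022_t t 18 60 1 = true := ex3_a s227_pp_022_t s226_pp_022_t

theorem s229_pp_022_t : ∃ t, chk3 f_pp_022_t t 18 30 1 = true := ex3_b s228_pp_022_t s221_pp_022_t

theorem s230_pp_022_t : ∃ t, chk3 f_pp_022_t t 18 15 1 = true := ex3_b s229_pp_022_t k62_pp_022_t

theorem s231_pp_022_t : ∃ t, chk3 f_pp_022_t t 9 15 1 = true := ex3_a s230_pp_022_t s185_pp_022_t

theorem s232_pp_022_t : ∃ t, chk3 f_pp_022_t t 79 119 1 = true := ex3_b k15_pp_022_t k16_pp_022_t

theorem s233_pp_022_t : ∃ t, chk3 f_pp_022_t t 79 59 1 = true := ex3_b k14_pp_022_t s232_pp_022_t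

theorem s234_pp_022_t : ∃ t, chk3 f_pp_022_t t 78 59 1 = true := ex3_a k12_pp_022_t k13_pp_022_t

theorem s235_pp_022_t : ∃ t, chk3 f_pp_022_t t 39 59 1 = true := ex3_a s234_pp_022_t s233_pp_022_t

theorem s236_pp_022_t : ∃ t, chk3 f_pp_022_t t 39 29 1 = true := ex3_b k11_pp_022_t s235_pp_022_t

theorem s237_pp_022_t : ∃ t, chk3 f_pp_022_t t 38 29 1 = true := ex3_b k9_pp_022_t k10_pp_022_t

theorem s238_pp_022_t : ∃ t, chk3 f_pp_022_t t 19 29 1 = true := ex3_a s237_pp_022_t s236_pp_022_t

theorem s239_pp_022_t : ∃ t, chk3 f_pp_022_t t 19 14 1 = true := ex3_b k8_pp_022_t s238_pp_022_t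

theorem s240_pp_022_t : ∃ t, chk3 f_pp_022_t t 18 29 1 = true := ex3_b k6_pp_022_t k7_pp_022_t

theorem s241_pp_022_t : ∃ t, chk3 f_pp_022_t t 18 14 1 = true := ex3_b k5_pp_022_t s240_pp_022_t

theorem s242_pp_022_t : ∃ t, chk3 f_pp_022_t t 9 14 1 = true := ex3_a s241_pp_022_t s239_pp_022_t

theorem s243_pp_022_t : ∃ t, chk3 f_pp_022_t t 9 7 1 = true := ex3_b s242_pp_022_t s231_pp_022_t

theorem s244_pp_022_t : ∃ t, chk3 f_pp_022_t t 4 7 1 = true := ex3_a k4_pp_022_t s243_pp_022_t

theorem s245_pp_022_t : ∃ t, chk3 f_pp_022_t t 9 6 1 = true := ex3_a k2_pp_022_t k3_pp_022_t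

theorem s246_pp_022_t : ∃ t, chk3 f_pp_022_t t 4 6 1 = true := ex3_a k1_pp_022_t s245_pp_022_t

theorem s247_pp_022_t : ∃ t, chk3 f_pp_022_t t 4 3 1 = true := ex3_b s246_pp_022_t s244_pp_022_t

theorem s248_pp_022_t : ∃ t, chk3 f_pp_022_t t 2 3 1 = true := ex3_a s247_pp_022_t s169_pp_022_t

theorem s249_pp_022_t : ∃ t, chk3 f_pp_022_t t 2 1 1 = true := ex3_b k0_pp_022_t s248_pp_022_t

theorem s250_pp_022_t : ∃ t, chk3 f_pp_022_t t 1 1 1 = true := ex3_a s249_pp_022_t s137_pp_022_t

theorem c_pp_022_t : CertNE 0 536870912 0 536870912 740881858 40050571 3 eng mog cd0q0 cd0q2 pd2 true true true .pp 0 2 2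
    ndB0q0 ndB0q2 pcB2 cut_pp_022_t Ext.none :=
  certNE2 (fam := true) (s1 := true) (s2 := true) (a := 0) (b := 2) (c := 2) (cn := .pp) (n1 := ndB0q0) (n2 := ndB0q2) (pc := pcB2) (cut := cut_pp_022_t) (xt := Ext.none) (P1 := 0) (W1 := 536870912) (P2 := 0) (W2 := 536870912) (P3 := 740881858) (W3 := 40050571) (N0 := 3) (En := eng) (mo := mog) (C1 := cd0q0) (C2 := cd0q2) (C3 := pd2)
    rfl (fun _ => rfl) s250_pp_022_t

noncomputable def cut_pp_023_s : Cut := Cut.of [[⟨4, 0, 0, 1449551462⟩]]

noncomputable def f_pp_023_s : ℕ → ℕ → ℕ → ℕ → Bool := onCell 0 536870912 0 536870912 740881858 40050571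
    (rowNE 3 eng mog cd0q0 cd0q2 pd3 0 true true true .up 0 2 3 (qsf 0 536870912 0 536870912 3) ndB0q0 ndB0q2 pcB3 cut_pp_023_s Ext.none)

def k0_pp_023_s : ∃ t, chk3 f_pp_023_s t 1 1 1 = true :=
  ⟨(l 6), by decide +kernel⟩

theorem c_pp_023_s : CertNE 0 536870912 0 536870912 740881858 40050571 3 eng mog cd0q0 cd0q2 pd3 true true true .up 0 2 3
    ndB0q0 ndB0q2 pcB3 cut_pp_023_s Ext.none :=
  certNE0 (fam := true) (s1 := true) (s2 := true) (a := 0) (b := 2) (c := 3) (cn := .up) (n1 := ndB0q0) (n2 := ndB0q2) (pc := pcB3) (cut := cut_pp_023_s) (xt := Ext.none) (P1 := 0) (W1 := 536870912) (P2 := 0) (W2 := 536870912) (P3 := 740881858) (W3 := 40050571) (N0 := 3) (En := eng) (mo := mog) (C1 := cd0q0) (C2 := cd0q2) (C3 := pd3)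
    rfl k0_pp_023_s

noncomputable def cut_pp_023_t : Cut := Cut.of [[⟨3, 0, 0, 2845415833⟩]]

noncomputable def f_pp_023_t : ℕ → ℕ → ℕ → ℕ → Bool := onCell 1610612736 536870912 0 536870912 740881858 40050571
    (rowNE 3 eng mog cd0q0 cd0q2 pd3 2 true true true .up 0 2 3 (qsf 0 536870912 0 536870912 3) ndB0q0 ndB0q2 pcB3 cut_pp_023_t Ext.none)

def k0_pp_023_t : ∃ t, chk3 f_pp_023_t t 4 4 1 = true :=
  ⟨(a (b (a (b (l 16652344) (l 16668696)) (a (l 16675664) (l 16705656))) (a (a (b (l 16682640) (l 16705312)) (b (l 16693168) (l 16716064))) (b (a (l 16703512) (l 16713600)) (a (l 16747720) (c (l 16758464) (l 16737080)))))) (b (a (b (l 16690648) (a (l 16703240) (l 16712272))) (b (l 16727792) (a (l 16721216) (l 16730720)))) (a (b (a (l 16723392) (l 16733096)) (a (l 16775872) (a (l 16776552) (b (l 16754144) (l 16767688))))) (b (a (l 16763976) (b (l 16747496) (l 16781040))) (a (b (l 16783208) (b (a (l 16769824) (l 53921988503)) (a (l 69491246583) (l 145726890007)))) (a (b (l 38352732599) (l 144116273735))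 (b (a (l 63048794647) (l 82913021687)) (l 4)))))))), by decide +kernel⟩

def k1_pp_023_t : ∃ t, chk3 f_pp_023_t t 4 5 1 = true :=
  ⟨(a (b (a (b (a (l 16751560) (c (l 16773976) (l 16761720))) (b (a (l 16777192) (a (l 16759360) (l 16775448))) (a (a (l 16783600) (b (l 16764552) (c (l 16772112) (l 16771768)))) (b (a (l 16780656) (a (b (l 16772560) (l 52848239495)) (b (l 16775368) (l 109756558615)))) (a (b (a (l 16774312) (l 76470560791)) (a (l 90966075815) (l 4))) (a (l 155927438487) (l 4))))))) (b (a (a (l 16776080) (b (l 16748592) (l 16783056))) (b (l 16777680) (a (l 16778072) (b (l 16769608) (a (l 16781744) (l 74323080967)))))) (a (b (a (b (l 16777464) (c (a (l 16772856) (l 50163886247)) (l 41573954839))) (a (b (l 16771160) (b (l 60364432135) (l 152169344599))) (b (l 16773936) (l 145190021175)))) (b (a (b (a (l 95261043591) (l 4)) (l 4)) (l 4)) (l 4))) (b (a (b (a (a (l 47479530439) (l 65733143399)) (l 123715187127)) (l 4)) (l 4)) (l 4))))) (a (b (a (b (b (a (c (a (l 16772560) (l 50700756999))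 (l 39426471239)) (a (a (l 74323078711) (l 116735866439)) (l 141968796311))) (a (b (a (l 86134237575) (l 4)) (l 4)) (l 4))) (l 4)) (l 4)) (l 4)) (l 4))) (b (b (a (a (b (b (l 16785136) (a (l 16768232) (l 16784256))) (a (b (a (l 16773752) (l 58753822327)) (l 143579406775)) (a (l 141431922023) (l 155927432295)))) (b (b (a (l 16772424) (l 78618053415)) (a (b (l 75396823159) (l 146800633959)) (l 4))) (l 4))) (l 4)) (l 4)) (l 4))), by decide +kernel⟩

def k2_pp_023_t : ∃ t, chk3 f_pp_023_t t 5 2 1 = true :=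
  ⟨(a (b (a (b (a (b (l 16724000) (l 16764256)) (b (l 16736552) (l 16776280))) (b (a (b (l 16780720) (b (l 16784576) (a (l 16772456) (l 87744859543)))) (a (b (l 16768560) (l 109756541751)) (b (l 16784296) (l 151095593975)))) (a (b (a (b (l 94187312951) (l 4)) (l 4)) (l 4)) (l 4)))) (b (l 2) (l 2))) (l 4)) (l 2)), by decide +kernel⟩

def k3_pp_023_t : ∃ t, chk3 f_pp_023_t t 2 3 1 = true :=
  ⟨(l 4), by decide +kernel⟩

def k4_pp_023_t : ∃ t, chk3 f_pp_023_t t 3 1 1 = true :=
  ⟨(l 2), by decide +kernel⟩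

theorem s5_pp_023_t : ∃ t, chk3 f_pp_023_t t 4 2 1 = true := ex3_b k0_pp_023_t k1_pp_023_t

theorem s6_pp_023_t : ∃ t, chk3 f_pp_023_t t 2 2 1 = true := ex3_a s5_pp_023_t k2_pp_023_t

theorem s7_pp_023_t : ∃ t, chk3 f_pp_023_t t 2 1 1 = true := ex3_b s6_pp_023_t k3_pp_023_t

theorem s8_pp_023_t : ∃ t, chk3 f_pp_023_t t 1 1 1 = true := ex3_a s7_pp_023_t k4_pp_023_t

theorem c_pp_023_t : CertNE 0 536870912 0 536870912 740881858 40050571 3 eng mog cd0q0 cd0q2 pd3 true true true .up 0 2 3
    ndB0q0 ndB0q2 pcB3 cut_pp_023_t Ext.none :=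
  certNE2 (fam := true) (s1 := true) (s2 := true) (a := 0) (b := 2) (c := 3) (cn := .up) (n1 := ndB0q0) (n2 := ndB0q2) (pc := pcB3) (cut := cut_pp_023_t) (xt := Ext.none) (P1 := 0) (W1 := 536870912) (P2 := 0) (W2 := 536870912) (P3 := 740881858) (W3 := 40050571) (N0 := 3) (En := eng) (mo := mog) (C1 := cd0q0) (C2 := cd0q2) (C3 := pd3)
    rfl (fun _ => rfl) s8_pp_023_t

noncomputable def cut_pp_101_s : Cut := Cut.of [[⟨4, 0, 0, 1449551462⟩]]

noncomputable def f_pp_101_s : ℕ → ℕ → ℕ → ℕ → Bool := onCell 536870912 536870912 0 536870912 740881858 40050571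
    (rowNE 3 eng mog cd0q1 cd0q0 pd1 0 true true true .npn 1 0 1 (qsf 536870912 536870912 0 536870912 1) ndB0q1 ndB0q0 pcB1 cut_pp_101_s Ext.none)

def k0_pp_101_s : ∃ t, chk3 f_pp_101_s t 1 1 1 = true :=
  ⟨(l 6), by decide +kernel⟩

theorem c_pp_101_s : CertNE 536870912 536870912 0 536870912 740881858 40050571 3 eng mog cd0q1 cd0q0 pd1 true true true .npn 1 0 1
    ndB0q1 ndB0q0 pcB1 cut_pp_101_s Ext.none :=
  certNE0 (fam := true) (s1 := true) (s2 := true) (a := 1) (b := 0) (c := 1) (cn := .npn) (n1 := ndB0q1) (n2 := ndB0q0) (pc := pcB1) (cut := cut_pp_101_s) (xt := Ext.none) (P1 := 536870912) (W1 := 536870912) (P2 := 0) (W2 := 536870912) (P3 := 740881858) (W3 := 40050571) (N0 := 3) (En := eng) (mo := mog) (C1 := cd0q1) (C2 := cd0q0) (C3 := pd1)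
    rfl k0_pp_101_s

noncomputable def cut_pp_101_t : Cut := Cut.of [[⟨3, 0, 0, 2845415833⟩]]

noncomputable def f_pp_101_t : ℕ → ℕ → ℕ → ℕ → Bool := onCell 536870912 536870912 0 536870912 740881858 40050571
    (rowNE 3 eng mog cd0q1 cd0q0 pd1 0 true true true .npn 1 0 1 (qsf 536870912 536870912 0 536870912 1) ndB0q1 ndB0q0 pcB1 cut_pp_101_t Ext.none)

def k0_pp_101_t : ∃ t, chk3 f_pp_101_t t 1 1 1 = true :=
  ⟨(a (l 4) (l 5)), by decide +kernel⟩

theorem c_pp_101_t : CertNE 536870912 536870912 0 536870912 740881858 40050571 3 eng mog cd0q1 cd0q0 pd1 true true true .npn 1 0 1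
    ndB0q1 ndB0q0 pcB1 cut_pp_101_t Ext.none :=
  certNE0 (fam := true) (s1 := true) (s2 := true) (a := 1) (b := 0) (c := 1) (cn := .npn) (n1 := ndB0q1) (n2 := ndB0q0) (pc := pcB1) (cut := cut_pp_101_t) (xt := Ext.none) (P1 := 536870912) (W1 := 536870912) (P2 := 0) (W2 := 536870912) (P3 := 740881858) (W3 := 40050571) (N0 := 3) (En := eng) (mo := mog) (C1 := cd0q1) (C2 := cd0q0) (C3 := pd1)
    rfl k0_pp_101_t

noncomputable def cut_pp_102_s : Cut := Cut.of [[⟨4, 0, 0, 1449551462⟩]]

noncomputable def f_pp_102_s : ℕ → ℕ → ℕ → ℕ → Bool := onCell 536870912 536870912 0 536870912 740881858 40050571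
    (rowNE 3 eng mog cd0q1 cd0q0 pd2 0 true true true .npp 1 0 2 (qsf 536870912 536870912 0 536870912 2) ndB0q1 ndB0q0 pcB2 cut_pp_102_s Ext.none)

def k0_pp_102_s : ∃ t, chk3 f_pp_102_s t 1 1 1 = true :=
  ⟨(l 6), by decide +kernel⟩

theorem c_pp_102_s : CertNE 536870912 536870912 0 536870912 740881858 40050571 3 eng mog cd0q1 cd0q0 pd2 true true true .npp 1 0 2
    ndB0q1 ndB0q0 pcB2 cut_pp_102_s Ext.none :=
  certNE0 (fam := true) (s1 := true) (s2 := true) (a := 1) (b := 0) (c := 2) (cn := .npp) (n1 := ndB0q1) (n2 := ndB0q0) (pc := pcB2) (cut := cut_pp_102_s) (xt := Ext.none) (P1 := 536870912) (W1 := 536870912) (P2 := 0) (W2 := 536870912) (P3 := 740881858) (W3 := 40050571) (N0 := 3) (En := eng) (mo := mog) (C1 := cd0q1) (C2 := cd0q0) (C3 := pd2)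
    rfl k0_pp_102_s

noncomputable def cut_pp_102_t : Cut := Cut.of [[⟨3, 0, 0, 2845415833⟩]]

noncomputable def f_pp_102_t : ℕ → ℕ → ℕ → ℕ → Bool := onCell 536870912 536870912 0 536870912 740881858 40050571
    (rowNE 3 eng mog cd0q1 cd0q0 pd2 0 true true true .npp 1 0 2 (qsf 536870912 536870912 0 536870912 2) ndB0q1 ndB0q0 pcB2 cut_pp_102_t Ext.none)

def k0_pp_102_t : ∃ t, chk3 f_pp_102_t t 1 1 1 = true :=
  ⟨(a (l 4) (l 5)), by decide +kernel⟩

theorem c_pp_102_t : CertNE 536870912 536870912 0 536870912 740881858 40050571 3 eng mog cd0q1 cd0q0 pd2 true true true .npp 1 0 2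
    ndB0q1 ndB0q0 pcB2 cut_pp_102_t Ext.none :=
  certNE0 (fam := true) (s1 := true) (s2 := true) (a := 1) (b := 0) (c := 2) (cn := .npp) (n1 := ndB0q1) (n2 := ndB0q0) (pc := pcB2) (cut := cut_pp_102_t) (xt := Ext.none) (P1 := 536870912) (W1 := 536870912) (P2 := 0) (W2 := 536870912) (P3 := 740881858) (W3 := 40050571) (N0 := 3) (En := eng) (mo := mog) (C1 := cd0q1) (C2 := cd0q0) (C3 := pd2)
    rfl k0_pp_102_t

noncomputable def cut_pp_112_s : Cut := Cut.of [[⟨4, 0, 0, 1449551462⟩]]

noncomputable def f_pp_112_s : ℕ → ℕ → ℕ → ℕ → Bool := onCell 536870912 536870912 536870912 536870912 740881858 40050571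
    (rowNE 3 eng mog cd0q1 cd0q1 pd2 0 true true true .dn 1 1 2 (qsf 536870912 536870912 536870912 536870912 2) ndB0q1 ndB0q1 pcB2 cut_pp_112_s Ext.none)

def k0_pp_112_s : ∃ t, chk3 f_pp_112_s t 1 1 1 = true :=
  ⟨(l 4), by decide +kernel⟩

theorem c_pp_112_s : CertNE 536870912 536870912 536870912 536870912 740881858 40050571 3 eng mog cd0q1 cd0q1 pd2 true true true .dn 1 1 2
    ndB0q1 ndB0q1 pcB2 cut_pp_112_s Ext.none :=
  certNE0 (fam := true) (s1 := true) (s2 := true) (a := 1) (b := 1) (c := 2) (cn := .dn) (n1 := ndB0q1) (n2 := ndB0q1) (pc := pcB2) (cut := cut_pp_112_s) (xt := Ext.none) (P1 := 536870912) (W1 := 536870912) (P2 := 536870912) (W2 := 536870912) (P3 := 740881858) (W3 := 40050571) (N0 := 3) (En := eng) (mo := mog) (C1 := cd0q1) (C2 := cd0q1) (C3 := pd2)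
    rfl k0_pp_112_s

noncomputable def cut_pp_112_t : Cut := Cut.of [[⟨3, 0, 0, 2845415833⟩]]

noncomputable def f_pp_112_t : ℕ → ℕ → ℕ → ℕ → Bool := onCell 536870912 536870912 536870912 536870912 740881858 40050571
    (rowNE 3 eng mog cd0q1 cd0q1 pd2 0 true true true .dn 1 1 2 (qsf 536870912 536870912 536870912 536870912 2) ndB0q1 ndB0q1 pcB2 cut_pp_112_t Ext.none)

def k0_pp_112_t : ∃ t, chk3 f_pp_112_t t 1 1 1 = true :=
  ⟨(l 4), by decide +kernel⟩

theorem c_pp_112_t : CertNE 536870912 536870912 536870912 536870912 740881858 40050571 3 eng mog cd0q1 cd0q1 pd2 true true true .dn 1 1 2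
    ndB0q1 ndB0q1 pcB2 cut_pp_112_t Ext.none :=
  certNE0 (fam := true) (s1 := true) (s2 := true) (a := 1) (b := 1) (c := 2) (cn := .dn) (n1 := ndB0q1) (n2 := ndB0q1) (pc := pcB2) (cut := cut_pp_112_t) (xt := Ext.none) (P1 := 536870912) (W1 := 536870912) (P2 := 536870912) (W2 := 536870912) (P3 := 740881858) (W3 := 40050571) (N0 := 3) (En := eng) (mo := mog) (C1 := cd0q1) (C2 := cd0q1) (C3 := pd2)
    rfl k0_pp_112_t

noncomputable def cut_pp_113_s : Cut := Cut.of [[⟨4, 0, 0, 1449551462⟩]]

noncomputable def f_pp_113_s : ℕ → ℕ → ℕ → ℕ → Bool := onCell 536870912 536870912 536870912 536870912 740881858 40050571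
    (rowNE 3 eng mog cd0q1 cd0q1 pd3 0 true true true .nn 1 1 3 (qsf 536870912 536870912 536870912 536870912 3) ndB0q1 ndB0q1 pcB3 cut_pp_113_s Ext.none)

def k0_pp_113_s : ∃ t, chk3 f_pp_113_s t 1 1 1 = true :=
  ⟨(l 4), by decide +kernel⟩

theorem c_pp_113_s : CertNE 536870912 536870912 536870912 536870912 740881858 40050571 3 eng mog cd0q1 cd0q1 pd3 true true true .nn 1 1 3
    ndB0q1 ndB0q1 pcB3 cut_pp_113_s Ext.none :=
  certNE0 (fam := true) (s1 := true) (s2 := true) (a := 1) (b := 1) (c := 3) (cn := .nn) (n1 := ndB0q1) (n2 := ndB0q1) (pc := pcB3) (cut := cut_pp_113_s) (xt := Ext.none) (P1 := 536870912) (W1 := 536870912) (P2 := 536870912) (W2 := 536870912) (P3 := 740881858) (W3 := 40050571) (N0 := 3) (En := eng) (mo := mog) (C1 := cd0q1) (C2 := cd0q1) (C3 := pd3)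
    rfl k0_pp_113_s

noncomputable def cut_pp_113_t : Cut := Cut.of [[⟨3, 0, 0, 2845415833⟩]]

noncomputable def f_pp_113_t : ℕ → ℕ → ℕ → ℕ → Bool := onCell 536870912 536870912 536870912 536870912 740881858 40050571
    (rowNE 3 eng mog cd0q1 cd0q1 pd3 0 true true true .nn 1 1 3 (qsf 536870912 536870912 536870912 536870912 3) ndB0q1 ndB0q1 pcB3 cut_pp_113_t Ext.none)

def k0_pp_113_t : ∃ t, chk3 f_pp_113_t t 1 1 1 = true :=
  ⟨(l 4), by decide +kernel⟩

theorem c_pp_113_t : CertNE 536870912 536870912 536870912 536870912 740881858 40050571 3 eng mog cd0q1 cd0q1 pd3 true true true .nn 1 1 3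
    ndB0q1 ndB0q1 pcB3 cut_pp_113_t Ext.none :=
  certNE0 (fam := true) (s1 := true) (s2 := true) (a := 1) (b := 1) (c := 3) (cn := .nn) (n1 := ndB0q1) (n2 := ndB0q1) (pc := pcB3) (cut := cut_pp_113_t) (xt := Ext.none) (P1 := 536870912) (W1 := 536870912) (P2 := 536870912) (W2 := 536870912) (P3 := 740881858) (W3 := 40050571) (N0 := 3) (En := eng) (mo := mog) (C1 := cd0q1) (C2 := cd0q1) (C3 := pd3)
    rfl k0_pp_113_t

noncomputable def cut_pp_123_s : Cut := Cut.of [[⟨4, 0, 0, 1449551462⟩]]

noncomputable def f_pp_123_s : ℕ → ℕ → ℕ → ℕ → Bool := onCell 536870912 536870912 0 536870912 740881858 40050571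
    (rowNE 3 eng mog cd0q1 cd0q2 pd3 0 true true true .npn 1 2 3 (qsf 536870912 536870912 0 536870912 3) ndB0q1 ndB0q2 pcB3 cut_pp_123_s Ext.none)

def k0_pp_123_s : ∃ t, chk3 f_pp_123_s t 1 1 1 = true :=
  ⟨(l 6), by decide +kernel⟩

theorem c_pp_123_s : CertNE 536870912 536870912 0 536870912 740881858 40050571 3 eng mog cd0q1 cd0q2 pd3 true true true .npn 1 2 3
    ndB0q1 ndB0q2 pcB3 cut_pp_123_s Ext.none :=
  certNE0 (fam := true) (s1 := true) (s2 := true) (a := 1) (b := 2) (c := 3) (cn := .npn) (n1 := ndB0q1) (n2 := ndB0q2) (pc := pcB3) (cut := cut_pp_123_s) (xt := Ext.none) (P1 := 536870912) (W1 := 536870912) (P2 := 0) (W2 := 536870912) (P3 := 740881858) (W3 := 40050571) (N0 := 3) (En := eng) (mo := mog) (C1 := cd0q1) (C2 := cd0q2) (C3 := pd3)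
    rfl k0_pp_123_s

noncomputable def cut_pp_123_t : Cut := Cut.of [[⟨3, 0, 0, 2845415833⟩]]

noncomputable def f_pp_123_t : ℕ → ℕ → ℕ → ℕ → Bool := onCell 536870912 536870912 0 536870912 740881858 40050571
    (rowNE 3 eng mog cd0q1 cd0q2 pd3 0 true true true .npn 1 2 3 (qsf 536870912 536870912 0 536870912 3) ndB0q1 ndB0q2 pcB3 cut_pp_123_t Ext.none)

def k0_pp_123_t : ∃ t, chk3 f_pp_123_t t 1 1 1 = true :=
  ⟨(a (b (b (a (a (a (b (b (a (l 16746312) (l 16755992)) (a (b (l 16759488) (l 16789680)) (b (l 16769000) (b (l 60364444871) (l 102777253511))))) (b (a (b (a (l 75933700231) (l 103850993895)) (l 4)) (l 4)) (l 4))) (b (b (a (l 16765032) (b (l 16769488) (l 90429222855))) (a (b (l 89355482055) (l 4)) (l 4))) (l 4))) (b (a (b (a (b (l 92576705831) (l 4)) (l 4)) (l 4)) (l 4)) (l 4))) (l 4)) (l 4)) (l 4)) (l 4)), by decide +kernel⟩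

theorem c_pp_123_t : CertNE 536870912 536870912 0 536870912 740881858 40050571 3 eng mog cd0q1 cd0q2 pd3 true true true .npn 1 2 3
    ndB0q1 ndB0q2 pcB3 cut_pp_123_t Ext.none :=
  certNE0 (fam := true) (s1 := true) (s2 := true) (a := 1) (b := 2) (c := 3) (cn := .npn) (n1 := ndB0q1) (n2 := ndB0q2) (pc := pcB3) (cut := cut_pp_123_t) (xt := Ext.none) (P1 := 536870912) (W1 := 536870912) (P2 := 0) (W2 := 536870912) (P3 := 740881858) (W3 := 40050571) (N0 := 3) (En := eng) (mo := mog) (C1 := cd0q1) (C2 := cd0q2) (C3 := pd3)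
    rfl k0_pp_123_t

noncomputable def cut_pp_202_s : Cut := Cut.of [[⟨4, 0, 0, 1449551462⟩]]

noncomputable def f_pp_202_s : ℕ → ℕ → ℕ → ℕ → Bool := onCell 0 536870912 0 536870912 740881858 40050571
    (rowNE 3 eng mog cd0q2 cd0q0 pd2 0 true true true .pp 2 0 2 (qsf 0 536870912 0 536870912 2) ndB0q2 ndB0q0 pcB2 cut_pp_202_s Ext.none)

def k0_pp_202_s : ∃ t, chk3 f_pp_202_s t 1 1 1 = true :=
  ⟨(l 5), by decide +kernel⟩

theorem c_pp_202_s : CertNE 0 536870912 0 536870912 740881858 40050571 3 eng mog cd0q2 cd0q0 pd2 true true true .pp 2 0 2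
    ndB0q2 ndB0q0 pcB2 cut_pp_202_s Ext.none :=
  certNE0 (fam := true) (s1 := true) (s2 := true) (a := 2) (b := 0) (c := 2) (cn := .pp) (n1 := ndB0q2) (n2 := ndB0q0) (pc := pcB2) (cut := cut_pp_202_s) (xt := Ext.none) (P1 := 0) (W1 := 536870912) (P2 := 0) (W2 := 536870912) (P3 := 740881858) (W3 := 40050571) (N0 := 3) (En := eng) (mo := mog) (C1 := cd0q2) (C2 := cd0q0) (C3 := pd2)
    rfl k0_pp_202_s

noncomputable def cut_pp_202_t : Cut := Cut.of [[⟨3, 0, 0, 2845415833⟩]]

noncomputable def f_pp_202_t : ℕ → ℕ → ℕ → ℕ → Bool := onCell 0 536870912 0 536870912 740881858 40050571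
    (rowNE 3 eng mog cd0q2 cd0q0 pd2 0 true true true .pp 2 0 2 (qsf 0 536870912 0 536870912 2) ndB0q2 ndB0q0 pcB2 cut_pp_202_t Ext.none)

def k0_pp_202_t : ∃ t, chk3 f_pp_202_t t 1 1 1 = true :=
  ⟨(l 5), by decide +kernel⟩

theorem c_pp_202_t : CertNE 0 536870912 0 536870912 740881858 40050571 3 eng mog cd0q2 cd0q0 pd2 true true true .pp 2 0 2
    ndB0q2 ndB0q0 pcB2 cut_pp_202_t Ext.none :=
  certNE0 (fam := true) (s1 := true) (s2 := true) (a := 2) (b := 0) (c := 2) (cn := .pp) (n1 := ndB0q2) (n2 := ndB0q0) (pc := pcB2) (cut := cut_pp_202_t) (xt := Ext.none) (P1 := 0) (W1 := 536870912) (P2 := 0) (W2 := 536870912) (P3 := 740881858) (W3 := 40050571) (N0 := 3) (En := eng) (mo := mog) (C1 := cd0q2) (C2 := cd0q0) (C3 := pd2)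
    rfl k0_pp_202_t

noncomputable def cut_pp_203_s : Cut := Cut.of [[⟨4, 0, 0, 1449551462⟩]]

noncomputable def f_pp_203_s : ℕ → ℕ → ℕ → ℕ → Bool := onCell 0 536870912 0 536870912 740881858 40050571
    (rowNE 3 eng mog cd0q2 cd0q0 pd3 0 true true true .up 2 0 3 (qsf 0 536870912 0 536870912 3) ndB0q2 ndB0q0 pcB3 cut_pp_203_s Ext.none)

def k0_pp_203_s : ∃ t, chk3 f_pp_203_s t 1 1 1 = true :=
  ⟨(l 5), by decide +kernel⟩

theorem c_pp_203_s : CertNE 0 536870912 0 536870912 740881858 40050571 3 eng mog cd0q2 cd0q0 pd3 true true true .up 2 0 3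
    ndB0q2 ndB0q0 pcB3 cut_pp_203_s Ext.none :=
  certNE0 (fam := true) (s1 := true) (s2 := true) (a := 2) (b := 0) (c := 3) (cn := .up) (n1 := ndB0q2) (n2 := ndB0q0) (pc := pcB3) (cut := cut_pp_203_s) (xt := Ext.none) (P1 := 0) (W1 := 536870912) (P2 := 0) (W2 := 536870912) (P3 := 740881858) (W3 := 40050571) (N0 := 3) (En := eng) (mo := mog) (C1 := cd0q2) (C2 := cd0q0) (C3 := pd3)
    rfl k0_pp_203_s

noncomputable def cut_pp_203_t : Cut := Cut.of [[⟨3, 0, 0, 2845415833⟩]]

noncomputable def f_pp_203_t : ℕ → ℕ → ℕ → ℕ → Bool := onCell 0 536870912 0 536870912 740881858 40050571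
    (rowNE 3 eng mog cd0q2 cd0q0 pd3 0 true true true .up 2 0 3 (qsf 0 536870912 0 536870912 3) ndB0q2 ndB0q0 pcB3 cut_pp_203_t Ext.none)

def k0_pp_203_t : ∃ t, chk3 f_pp_203_t t 1 1 1 = true :=
  ⟨(l 5), by decide +kernel⟩

theorem c_pp_203_t : CertNE 0 536870912 0 536870912 740881858 40050571 3 eng mog cd0q2 cd0q0 pd3 true true true .up 2 0 3
    ndB0q2 ndB0q0 pcB3 cut_pp_203_t Ext.none :=
  certNE0 (fam := true) (s1 := true) (s2 := true) (a := 2) (b := 0) (c := 3) (cn := .up) (n1 := ndB0q2) (n2 := ndB0q0) (pc := pcB3) (cut := cut_pp_203_t) (xt := Ext.none) (P1 := 0) (W1 := 536870912) (P2 := 0) (W2 := 536870912) (P3 := 740881858) (W3 := 40050571) (N0 := 3) (En := eng) (mo := mog) (C1 := cd0q2) (C2 := cd0q0) (C3 := pd3)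
    rfl k0_pp_203_t

noncomputable def cut_pp_213_s : Cut := Cut.of [[⟨4, 0, 0, 1449551462⟩]]

noncomputable def f_pp_213_s : ℕ → ℕ → ℕ → ℕ → Bool := onCell 0 536870912 536870912 536870912 740881858 40050571
    (rowNE 3 eng mog cd0q2 cd0q1 pd3 0 true true true .pnn 2 1 3 (qsf 0 536870912 536870912 536870912 3) ndB0q2 ndB0q1 pcB3 cut_pp_213_s Ext.none)

def k0_pp_213_s : ∃ t, chk3 f_pp_213_s t 1 1 1 = true :=
  ⟨(l 6), by decide +kernel⟩

theorem c_pp_213_s : CertNE 0 536870912 536870912 536870912 740881858 40050571 3 eng mog cd0q2 cd0q1 pd3 true true true .pnn 2 1 3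
    ndB0q2 ndB0q1 pcB3 cut_pp_213_s Ext.none :=
  certNE0 (fam := true) (s1 := true) (s2 := true) (a := 2) (b := 1) (c := 3) (cn := .pnn) (n1 := ndB0q2) (n2 := ndB0q1) (pc := pcB3) (cut := cut_pp_213_s) (xt := Ext.none) (P1 := 0) (W1 := 536870912) (P2 := 536870912) (W2 := 536870912) (P3 := 740881858) (W3 := 40050571) (N0 := 3) (En := eng) (mo := mog) (C1 := cd0q2) (C2 := cd0q1) (C3 := pd3)
    rfl k0_pp_213_s

noncomputable def cut_pp_213_t : Cut := Cut.of [[⟨3, 0, 0, 2845415833⟩]]

noncomputable def f_pp_213_t : ℕ → ℕ → ℕ → ℕ → Bool := onCell 0 536870912 536870912 536870912 740881858 40050571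
    (rowNE 3 eng mog cd0q2 cd0q1 pd3 0 true true true .pnn 2 1 3 (qsf 0 536870912 536870912 536870912 3) ndB0q2 ndB0q1 pcB3 cut_pp_213_t Ext.none)

def k0_pp_213_t : ∃ t, chk3 f_pp_213_t t 1 1 1 = true :=
  ⟨(a (l 5) (l 4)), by decide +kernel⟩

theorem c_pp_213_t : CertNE 0 536870912 536870912 536870912 740881858 40050571 3 eng mog cd0q2 cd0q1 pd3 true true true .pnn 2 1 3
    ndB0q2 ndB0q1 pcB3 cut_pp_213_t Ext.none :=
  certNE0 (fam := true) (s1 := true) (s2 := true) (a := 2) (b := 1) (c := 3) (cn := .pnn) (n1 := ndB0q2) (n2 := ndB0q1) (pc := pcB3) (cut := cut_pp_213_t) (xt := Ext.none) (P1 := 0) (W1 := 536870912) (P2 := 536870912) (W2 := 536870912) (P3 := 740881858) (W3 := 40050571) (N0 := 3) (En := eng) (mo := mog) (C1 := cd0q2) (C2 := cd0q1) (C3 := pd3)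
    rfl k0_pp_213_t

noncomputable def cut_pm_001_s : Cut := Cut.of [[⟨4, 0, 0, 1449551462⟩]]

noncomputable def f_pm_001_s : ℕ → ℕ → ℕ → ℕ → Bool := onCell 0 536870912 0 536870912 740881858 40050571
    (rowNE 3 eng mog cd0q0 cd0q0 pd1 0 true true false .up 0 0 1 (qsf 0 536870912 0 536870912 1) ndB0q0 ndB0q0 pcB1 cut_pm_001_s Ext.none)

def k0_pm_001_s : ∃ t, chk3 f_pm_001_s t 1 1 1 = true :=
  ⟨(l 3), by decide +kernel⟩

theorem c_pm_001_s : CertNE 0 536870912 0 536870912 740881858 40050571 3 eng mog cd0q0 cd0q0 pd1 true true false .up 0 0 1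
    ndB0q0 ndB0q0 pcB1 cut_pm_001_s Ext.none :=
  certNE0 (fam := true) (s1 := true) (s2 := false) (a := 0) (b := 0) (c := 1) (cn := .up) (n1 := ndB0q0) (n2 := ndB0q0) (pc := pcB1) (cut := cut_pm_001_s) (xt := Ext.none) (P1 := 0) (W1 := 536870912) (P2 := 0) (W2 := 536870912) (P3 := 740881858) (W3 := 40050571) (N0 := 3) (En := eng) (mo := mog) (C1 := cd0q0) (C2 := cd0q0) (C3 := pd1)
    rfl k0_pm_001_s

noncomputable def cut_pm_001_t : Cut := Cut.of [[⟨3, 0, 0, 2845415833⟩]]

noncomputable def f_pm_001_t : ℕ → ℕ → ℕ → ℕ → Bool := onCell 0 536870912 0 536870912 740881858 40050571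
    (rowNE 3 eng mog cd0q0 cd0q0 pd1 0 true true false .up 0 0 1 (qsf 0 536870912 0 536870912 1) ndB0q0 ndB0q0 pcB1 cut_pm_001_t Ext.none)

def k0_pm_001_t : ∃ t, chk3 f_pm_001_t t 1 1 1 = true :=
  ⟨(l 3), by decide +kernel⟩

theorem c_pm_001_t : CertNE 0 536870912 0 536870912 740881858 40050571 3 eng mog cd0q0 cd0q0 pd1 true true false .up 0 0 1
    ndB0q0 ndB0q0 pcB1 cut_pm_001_t Ext.none :=
  certNE0 (fam := true) (s1 := true) (s2 := false) (a := 0) (b := 0) (c := 1) (cn := .up) (n1 := ndB0q0) (n2 := ndB0q0) (pc := pcB1) (cut := cut_pm_001_t) (xt := Ext.none) (P1 := 0) (W1 := 536870912) (P2 := 0) (W2 := 536870912) (P3 := 740881858) (W3 := 40050571) (N0 := 3) (En := eng) (mo := mog) (C1 := cd0q0) (C2 := cd0q0) (C3 := pd1)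
    rfl k0_pm_001_t

noncomputable def cut_pm_011_s : Cut := Cut.of [[⟨4, 0, 0, 1449551462⟩], [⟨0, 0, 0, 67108864⟩, ⟨1, 1, 0, 67108864⟩, ⟨2, 1, 0, 67108864⟩]]

noncomputable def f_pm_011_s : ℕ → ℕ → ℕ → ℕ → Bool := onCell 536870912 536870912 536870912 536870912 740881858 40050571
    (rowNE 3 eng mog cd0q0 cd0q1 pd1 2 true true false .pnn 0 1 1 (qsf 0 536870912 536870912 536870912 1) ndB0q0 ndB0q1 pcB1 cut_pm_011_s Ext.none)

def k0_pm_011_s : ∃ t, chk3 f_pm_011_s t 1 1 1 = true :=
  ⟨(a (l 3) (b (l 3) (a (l 3) (b (l 3) (a (l 3) (b (l 3) (a (l 3) (b (l 3) (l 14))))))))), by decide +kernel⟩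

theorem c_pm_011_s : CertNE 0 536870912 536870912 536870912 740881858 40050571 3 eng mog cd0q0 cd0q1 pd1 true true false .pnn 0 1 1
    ndB0q0 ndB0q1 pcB1 cut_pm_011_s Ext.none :=
  certNE2 (fam := true) (s1 := true) (s2 := false) (a := 0) (b := 1) (c := 1) (cn := .pnn) (n1 := ndB0q0) (n2 := ndB0q1) (pc := pcB1) (cut := cut_pm_011_s) (xt := Ext.none) (P1 := 0) (W1 := 536870912) (P2 := 536870912) (W2 := 536870912) (P3 := 740881858) (W3 := 40050571) (N0 := 3) (En := eng) (mo := mog) (C1 := cd0q0) (C2 := cd0q1) (C3 := pd1)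
    rfl (fun _ => rfl) k0_pm_011_s

noncomputable def cut_pm_011_t : Cut := Cut.of [[⟨3, 0, 0, 2845415833⟩], [⟨0, 0, 0, 67108864⟩, ⟨1, 1, 0, 67108864⟩, ⟨2, 1, 0, 67108864⟩]]

noncomputable def f_pm_011_t : ℕ → ℕ → ℕ → ℕ → Bool := onCell 0 536870912 536870912 536870912 740881858 40050571
    (rowNE 3 eng mog cd0q0 cd0q1 pd1 0 true true false .pnn 0 1 1 (qsf 0 536870912 536870912 536870912 1) ndB0q0 ndB0q1 pcB1 cut_pm_011_t Ext.none)

def k0_pm_011_t : ∃ t, chk3 f_pm_011_t t 1 1 1 = true :=
  ⟨(l 6), by decide +kernel⟩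

theorem c_pm_011_t : CertNE 0 536870912 536870912 536870912 740881858 40050571 3 eng mog cd0q0 cd0q1 pd1 true true false .pnn 0 1 1
    ndB0q0 ndB0q1 pcB1 cut_pm_011_t Ext.none :=
  certNE0 (fam := true) (s1 := true) (s2 := false) (a := 0) (b := 1) (c := 1) (cn := .pnn) (n1 := ndB0q0) (n2 := ndB0q1) (pc := pcB1) (cut := cut_pm_011_t) (xt := Ext.none) (P1 := 0) (W1 := 536870912) (P2 := 536870912) (W2 := 536870912) (P3 := 740881858) (W3 := 40050571) (N0 := 3) (En := eng) (mo := mog) (C1 := cd0q0) (C2 := cd0q1) (C3 := pd1)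
    rfl k0_pm_011_t

end Pool.Agent.Strip051.G.I69_7273.Tab.CS.BA00

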