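import Pool.Agent.Strip051.G.I69_7273.Tab
import Pool.Agent.Strip051.PB.StripB

/-! # Strips, near vertex: certificates 1 (generated) -/

set_option linter.all false
set_option maxRecDepth 100000

namespace Pool.Agent.Strip051.G.I69_7273.Tab.CS.BA00

open Pool.Agent.Strip051.PB Pool.Agent.Strip051.PB.T
open Pool.Agent.Strip051.G.I69_7273.Tab

noncomputable def cut_pm_012_s : Cut := Cut.of [[⟨4, 0, 0, 1449551462⟩], [⟨0, 0, 0, 53687091⟩, ⟨1, 1, 0, 53687091⟩, ⟨2, 1, 0, 53687091⟩]]

noncomputable def f_pm_012_s : ℕ → ℕ → ℕ → ℕ → Bool := onCell 1073741824 536870912 536870912 536870912 740881858 40050571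
    (rowNE 3 eng mog cd0q0 cd0q1 pd2 2 true true false .pnp 0 1 2 (qsf 0 536870912 536870912 536870912 2) ndB0q0 ndB0q1 pcB2 cut_pm_012_s Ext.none)

def k0_pm_012_s : ∃ t, chk3 f_pm_012_s t 4 2 1 = true :=
  ⟨(b (l 3) (l 3)), by decide +kernel⟩

def k1_pm_012_s : ∃ t, chk3 f_pm_012_s t 8 6 1 = true :=
  ⟨(l 3), by decide +kernel⟩

def k2_pm_012_s : ∃ t, chk3 f_pm_012_s t 18 6 1 = true :=
  ⟨(b (l 3) (a (l 3) (b (l 3) (a (l 3) (b (l 3) (a (l 3) (b (l 3) (b (a (l 3) (c (l 126332436279) (l 127943054231))) (a (c (l 133848634295) (l 132774887047)) (l 16774920)))))))))), by decide +kernel⟩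

def k3_pm_012_s : ∃ t, chk3 f_pm_012_s t 19 12 1 = true :=
  ⟨(a (l 3) (b (l 3) (a (b (l 3) (a (l 3) (b (l 3) (a (l 3) (b (l 3) (c (a (l 3) (l 226190426231)) (l 235317231815))))))) (b (a (l 3) (b (a (l 3) (a (l 3) (b (l 3) (c (l 198810009015) (l 190220076823))))) (b (a (l 3) (c (a (b (l 250886487463) (l 132774889319)) (c (l 16778024) (l 16776688))) (c (l 103246990039) (l 16779640)))) (a (a (l 3) (c (a (l 175187691463) (l 103783860327)) (l 113447536951))) (c (a (l 24863836775) (l 16775384)) (l 16775800)))))) (a (b (a (l 3) (b (c (a (l 3) (l 224042942151)) (l 238001585847)) (c (a (b (l 3) (l 153175983223)) (c (l 63518541303) (l 16776736))) (a (l 166597756983) (l 16776720))))) (a (b (a (l 3) (b (l 198810011351) (a (l 16777816) (l 16776760)))) (c (c (a (l 88214603415) (l 16775832)) (l 48486156855)) (l 39896223543))) (c (b (c (l 16778384) (l 16775728)) (l 16776688)) (b (l 16775688) (l 16773968))))) (a (b (a (b (b (a (l 217063622055) (l 16778472)) (l 34527513367)) (a (l 16775880) (l 16775320))) (c (b (l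 16776056) (l 16774552)) (l 16775208))) (b (c (l 16776112) (l 16773336)) (c (l 16771776) (l 16771584)))) (b (b (c (c (l 16774520) (l 16774424)) (l 16774296)) (c (l 16774240) (l 16772696))) (c (a (l 16773584) (l 16771160)) (l 16775368))))))))), by decide +kernel⟩

def k4_pm_012_s : ∃ t, chk3 f_pm_012_s t 38 13 1 = true :=
  ⟨(b (a (l 3) (b (l 3) (a (b (l 3) (a (l 3) (b (l 3) (c (a (l 3) (l 149954760487)) (l 218137362823))))) (b (b (l 3) (a (l 3) (a (b (l 3) (l 147807276919)) (c (l 61907930887) (l 16776776))))) (a (a (b (l 273971938119) (l 16779024)) (b (a (l 144586052327) (l 73182220839)) (l 16775112))) (b (c (l 16777936) (l 16775352)) (l 16775736))))))) (a (b (a (b (l 3) (a (l 3) (l 312626644695))) (b (a (l 3) (b (l 3) (l 279340647367))) (b (a (l 298668000327) (c (l 71034737511) (l 74255962951))) (a (c (l 90898961143) (l 93583315671)) (l 16774408))))) (b (a (a (b (l 3) (c (l 117742501703) (l 119889990487))) (b (c (l 106468217671) (l 108615701287)) (l 16774760))) (c (b (l 16773264) (l 16770800)) (b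 (l 16773320) (l 16770880)))) (a (c (b (l 16773528) (l 16771000)) (b (l 16773608) (l 16771128))) (c (l 16767056) (l 16767176))))) (b (a (a (b (b (c (l 241759683431) (l 243370295959)) (c (l 49559900855) (l 16779024))) (b (l 16774152) (l 16771776))) (b (b (c (l 16780040) (l 16778720)) (l 16773856)) (l 16772968))) (b (a (c (l 16772344) (l 16772376)) (c (l 16769672) (l 16769800))) (a (l 16773008) (l 16770456)))) (a (b (c (l 16766840) (l 16766880)) (c (l 16761944) (l 16761992))) (b (c (l 16763056) (l 16761776)) (b (a (l 16759440) (l 16757056)) (a (l 16756976) (l 16754688)))))))), by decide +kernel⟩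

def k5_pm_012_s : ∃ t, chk3 f_pm_012_s t 39 26 1 = true :=
  ⟨(a (b (a (b (l 3) (a (b (l 3) (c (a (l 3) (l 240149070439)) (l 254107714311))) (a (b (l 3) (b (l 146196663207) (l 16776568))) (b (b (l 273971937687) (l 105394473863)) (l 16778400))))) (a (b (b (l 3) (a (b (l 3) (l 197736270279)) (b (l 151028500887) (l 16776648)))) (b (c (a (l 16779096) (l 16775216)) (l 16778464)) (c (l 16773848) (l 16773856)))) (b (a (b (b (l 256255197383) (l 104320731511)) (l 16778488)) (b (b (l 16778536) (l 16776008)) (l 16774616))) (c (b (l 16773328) (l 16771312)) (l 16774936))))) (a (a (b (a (b (b (l 226190429079) (l 16779688)) (l 16775528)) (b (a (l 16779280) (l 16776000)) (l 16774200))) (c (c (l 16776736) (l 16771544)) (l 16774264))) (b (c (b (l 16774352) (l 16772192)) (l 16774648)) (c (l 16774096) (l 16769000)))) (b (c (a (a (l 16776568) (l 16775272)) (l 16772032)) (c (l 16773344) (l 16774712))) (a (c (l 16771448) (l 16766368)) (c (l 16768800) (l 16763728)))))) (b (a (b (c (a (b (l 16774656) (l 16772808)) (b (l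 16772288) (l 16770400))) (a (l 16774992) (l 16773856))) (c (a (c (l 16775112) (l 16769816)) (l 16770816)) (c (l 16773784) (l 16773784)))) (a (b (c (b (l 16769952) (l 16773272)) (l 16768800)) (b (l 16767856) (l 16765088))) (b (c (b (l 16778136) (l 16765680)) (l 16766392)) (c (c (l 16773104) (l 16772944)) (l 16762328))))) (b (b (a (c (l 16768016) (l 16765384)) (c (a (l 16761648) (l 16759176)) (l 16760328))) (a (c (l 16766088) (l 16763184)) (c (a (l 16759336) (l 16756824)) (l 16758072)))) (a (a (c (l 16760944) (l 16761104)) (c (b (l 16759504) (l 16757152)) (l 16758496))) (a (c (b (l 16756944) (l 16754560)) (l 16758528)) (c (b (l 16759640) (l 16751984)) (b (l 16754480) (l 16752152)))))))), by decide +kernel⟩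

def k6_pm_012_s : ∃ t, chk3 f_pm_012_s t 39 27 1 = true :=
  ⟨(a (b (a (b (c (c (l 16770888) (l 16765728)) (l 16768536)) (b (l 16767640) (l 16760112))) (b (c (b (l 16761480) (l 16759232)) (l 16765848)) (b (c (l 16756960) (l 16757264)) (a (l 16756128) (l 16753456))))) (b (a (b (l 16757800) (a (l 16756800) (l 16754136))) (b (a (l 16753816) (l 16751160)) (l 16750152))) (a (a (b (l 16754432) (l 16752032)) (l 16761064)) (c (l 16746432) (l 16746872))))) (b (a (b (b (c (a (l 16757488) (l 16754840)) (l 16756424)) (c (a (l 16755232) (l 16752568)) (l 16754184))) (b (c (a (l 16752960) (l 16750304)) (l 16751952)) (l 16759960))) (b (c (b (a (l 16752216) (l 16749608)) (l 16748608)) (b (l 16751160) (l 16759408))) (c (b (l 16746320) (l 16744048)) (l 16745560)))) (c (a (c (b (l 16745824) (l 16741112)) (l 16748832)) (b (l 16751080) (l 16746424))) (b (l 16754168) (l 16749568))))), by decide +kernel⟩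

def k7_pm_012_s : ∃ t, chk3 f_pm_012_s t 8 14 1 = true :=
  ⟨(a (l 3) (b (l 3) (a (l 3) (b (l 3) (a (b (l 3) (b (l 3) (a (l 3) (a (c (l 305110451255) (l 309405415719)) (a (b (l 3) (b (l 171966465015) (l 16778360))) (b (a (l 236390974535) (b (l 271824454247) (l 16776928))) (l 16776936))))))) (b (a (b (l 3) (a (l 3) (b (l 3) (c (l 231022264743) (a (l 3) (l 186461980103)))))) (a (b (l 3) (a (b (l 253570843047) (c (l 16776544) (l 16776600))) (b (b (l 130090534887) (l 16776624)) (l 16775424)))) (b (b (c (l 231559135735) (a (l 3) (l 183777625687))) (c (a (l 16778408) (l 16776192)) (a (l 125795567495) (l 16776136)))) (c (l 16774424) (c (l 16774312) (l 16774224)))))) (a (b (b (a (l 316921611047) (a (b (l 211694912743) (l 47412414759)) (l 16777488))) (a (c (a (l 236927845207) (l 16776808)) (a (l 245517779239) (c (l 16776824) (l 16778152)))) (c (l 16775056) (l 16775208)))) (c (a (a (l 16778128) (l 16774280)) (l 16772440)) (a (b (c (l 16775832) (l 16778504)) (l 16774208)) (l 16772776)))) (c (b (a (l 16773504)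 (l 16771272)) (a (l 16770136) (l 16768032))) (b (a (c (l 16773632) (l 16773520)) (c (l 16771088) (l 16770896))) (a (l 16770416) (l 16767792))))))))))), by decide +kernel⟩

def k8_pm_012_s : ∃ t, chk3 f_pm_012_s t 16 30 1 = true :=
  ⟨(a (l 3) (b (l 3) (a (l 3) (b (l 3) (a (l 3) (b (l 3) (a (a (l 3) (b (l 3) (b (l 3) (a (c (l 231559135447) (c (l 238538457271) (b (l 3) (l 210084298791)))) (b (a (l 252497101063) (b (l 187535720727) (l 16777072))) (c (l 16776840) (l 16777176))))))) (a (a (b (l 3) (b (b (l 319605965063) (c (l 118816244375) (a (l 209547428007) (l 16777728)))) (c (l 16776488) (l 16776504)))) (b (c (l 302962967127) (l 309942288871)) (b (b (c (l 16777744) (a (l 149417886135) (l 16776992))) (l 16776648)) (a (l 16776032) (l 16775720))))) (a (b (b (l 3) (b (c (l 227264168151) (l 235854102631)) (c (l 16777008) (a (l 99488891399) (l 16776896))))) (c (l 16775752) (l 16775808))) (b (c (b (l 226190426295) (l 16776664)) (b (c (l 233169748119) (l 236390972919)) (b (l 16777576) (l 16776440)))) (c (l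 16775120) (l 16775168)))))))))))), by decide +kernel⟩

def k9_pm_012_s : ∃ t, chk3 f_pm_012_s t 32 62 1 = true :=
  ⟨(l 14), by decide +kernel⟩

def k10_pm_012_s : ∃ t, chk3 f_pm_012_s t 66 62 1 = true :=
  ⟨(b (b (l 3) (b (l 3) (l 14))) (l 14)), by decide +kernel⟩

def k11_pm_012_s : ∃ t, chk3 f_pm_012_s t 67 248 1 = true :=
  ⟨(b (b (a (l 3) (a (a (a (c (l 281488130407) (l 290078064935)) (b (c (l 231559135463) (l 240149069943)) (a (b (l 186461978903) (l 16777072)) (l 16777064)))) (a (c (l 16777336) (a (b (l 16777488) (l 16776608)) (l 16776560))) (c (l 16776072) (l 16776096)))) (a (a (l 16775464) (l 16774848)) (b (l 16774168) (a (l 16772648) (l 16773336)))))) (a (a (l 3) (a (l 3) (a (l 3) (b (l 316384739591) (a (c (l 196662526183) (l 203104977095)) (c (l 16777072) (c (l 16777072) (l 16777072)))))))) (a (a (a (b (c (l 83382763671) (a (a (l 213842395271) (l 115595018631)) (l 16776992))) (l 16776640)) (c (l 16776280) (l 16776296))) (c (l 16775344) (l 16775384))) (c (b (l 16774048) (a (l 16772520) (l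 16772560))) (b (l 16774128) (a (l 16772600) (l 16772672))))))) (b (a (a (l 3) (a (a (l 3) (a (l 310479158951) (b (l 3) (b (l 247665262775) (a (l 121500598551) (l 16777080)))))) (a (b (b (c (l 225116684487) (l 234780360791)) (a (l 213842395319) (l 16777384))) (c (l 16776824) (l 16777160))) (c (l 16776472) (l 16776656))))) (a (a (c (l 16775544) (l 16775584)) (a (l 16774640) (b (l 16772968) (l 16772456)))) (c (a (c (l 16773024) (l 16773064)) (l 16773088)) (a (c (l 16773112) (l 16771856)) (l 16770600))))) (a (a (a (l 3) (a (l 3) (b (l 3) (c (l 251423359175) (l 258939551911))))) (a (a (b (c (l 220821717127) (c (l 227264168039) (l 230485393511))) (a (c (l 16777776) (c (l 16777120) (l 90898956023))) (l 16776992))) (b (c (l 16776904) (c (l 16776904) (l 16777400))) (l 16776416))) (c (l 16775744) (c (l 16775768) (l 16775784))))) (a (c (a (a (l 16773504) (l 16772880)) (c (l 16771928) (l 16773272))) (a (l 16774560) (c (l 16770696) (l 16772064)))) (a (c (c (l 16771968) (l 16772024)) (l 16770152)) (c (l 16770728)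 (l 16770880))))))), by decide +kernel⟩

def k12_pm_012_s : ∃ t, chk3 f_pm_012_s t 134 249 1 = true :=
  ⟨(a (b (a (b (l 3) (a (b (l 3) (l 14)) (b (a (c (l 212231782535) (c (l 219211104343) (l 221895458919))) (b (c (l 16777192) (l 135996113175)) (l 16777000))) (c (l 16776760) (l 16776928))))) (a (b (a (b (l 3) (b (l 301889224855) (a (l 174113947831) (l 16777128)))) (b (l 275582550183) (c (l 16777024) (a (l 16777424) (l 16776968))))) (c (l 16776416) (l 16776432))) (b (a (b (b (l 225653555351) (a (l 89825214807) (l 16777056))) (l 16776744)) (b (c (l 16776944) (l 16776952)) (l 16776440))) (c (l 16775808) (l 16775832))))) (a (l 14) (b (c (l 16775064) (c (l 16775096) (l 16775120))) (l 14)))) (a (c (a (b (a (l 16775872) (l 16775560)) (b (l 16772840) (l 16773104))) (b (b (l 16774312) (l 16773272)) (b (l 16773536) (l 16772488)))) (b (b (c (l 16775952) (l 16775960)) (l 16774936)) (c (b (l 16772584) (l 16771552)) (l 16773424)))) (b (c (a (b (l 16773696) (l 16772656)) (b (l 16773080) (l 16773344))) (a (l 16774704)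 (l 16773936))) (c (a (b (l 16772920) (l 16771872)) (b (l 16772296) (c (l 16771216) (l 16771272)))) (a (b (l 16773008) (l 16771976)) (b (l 16772400) (l 16770056))))))), by decide +kernel⟩

def k13_pm_012_s : ∃ t, chk3 f_pm_012_s t 135 249 1 = true :=
  ⟨(b (b (a (b (c (a (l 16772408) (l 16772472)) (a (l 16772488) (l 16772576))) (c (a (l 16771888) (l 16771944)) (a (l 16771976) (l 16772064)))) (c (a (l 16772256) (a (a (l 16770160) (l 16768592)) (l 16769624))) (a (l 16769120) (l 16770536)))) (a (c (a (c (l 16772392) (l 16772432)) (c (l 16771120) (l 16771176))) (a (c (l 16772488) (l 16771232)) (c (l 16771248) (l 16768704)))) (c (a (a (a (l 16769072) (l 16768344)) (l 16769880)) (l 16769440)) (a (c (l 16770232) (l 16770320)) (l 16769592))))) (a (c (a (a (b (l 16771672) (b (l 16770888) (l 16769240))) (b (l 16771040) (l 16770368))) (b (a (b (l 16770680) (l 16769000)) (l 16770128)) (l 16769960))) (a (b (c (l 16769472) (l 16769544)) (c (l 16770688) (l 16770760))) (b (c (l 16770456) (l 16770544)) (l 16770088))))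 (c (a (l 16769584) (l 16768032)) (c (l 16768720) (l 16768656))))), by decide +kernel⟩

def k14_pm_012_s : ∃ t, chk3 f_pm_012_s t 67 125 1 = true :=
  ⟨(a (b (a (l 14) (a (l 14) (b (b (a (b (c (l 16771088) (l 16771216)) (l 14)) (c (l 16770608) (l 16770736))) (l 14)) (l 14)))) (l 14)) (b (a (a (b (c (l 16769672) (l 16769576)) (l 14)) (b (c (l 16768104) (l 16768016)) (c (l 16767632) (l 16767576)))) (b (a (b (a (l 16767648) (l 16766872)) (l 16768352)) (b (l 16768328) (l 16764176))) (c (b (l 16763448) (l 16761888)) (b (l 16763392) (l 16761856))))) (a (l 14) (b (c (c (l 16759536) (l 16759512)) (l 16762144)) (l 14))))), by decide +kernel⟩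

def k15_pm_012_s : ∃ t, chk3 f_pm_012_s t 16 63 1 = true :=
  ⟨(l 14), by decide +kernel⟩

def k16_pm_012_s : ∃ t, chk3 f_pm_012_s t 34 60 1 = true :=
  ⟨(a (l 3) (b (l 3) (a (b (l 3) (a (l 3) (a (b (l 3) (c (b (l 277193163095) (c (l 16778280) (l 80698410599))) (b (l 282025001223) (a (l 153712853879) (l 16776776))))) (b (c (l 235854102871) (b (l 3) (c (l 206863073847) (l 218137362487)))) (b (a (b (l 146733532071) (l 16776872)) (l 16776480)) (l 16775800)))))) (b (a (a (l 3) (b (l 3) (a (c (l 214379266823) (l 227264167415)) (b (l 241222812327) (l 16778104))))) (b (a (c (l 235317231943) (b (l 3) (l 213842395207))) (a (b (l 235854103191) (l 16778088)) (c (l 16776568) (l 16778232)))) (c (a (l 16777560) (l 16774952)) (a (c (l 16777592) (b (l 16778072) (l 16775872))) (l 16775048))))) (a (a (c (b (b (l 138143597991) (l 16776448)) (l 16774928)) (b (b (a (l 254107713911) (l 80161539351)) (l 16777792)) (l 16775016))) (c (l 16774680) (b (l 16775688) (l 16773712)))) (a (c (l 16773240) (l 16774056)) (b (l 16772992)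 (l 16770976)))))))), by decide +kernel⟩

def k17_pm_012_s : ∃ t, chk3 f_pm_012_s t 68 122 1 = true :=
  ⟨(a (b (l 3) (a (l 3) (a (l 3) (b (l 3) (c (l 272361325143) (b (l 3) (c (l 265382002999) (l 268603228439)))))))) (b (a (l 3) (b (l 3) (b (c (l 275582550567) (a (l 3) (l 250349617367))) (a (l 306721063319) (b (a (l 226190426551) (l 16777568)) (c (l 16776712) (l 16777712))))))) (a (a (b (l 3) (a (b (l 3) (c (l 79624668407) (b (l 161765917191) (l 16776872)))) (c (b (l 167134626599) (l 16776480)) (b (c (l 175724560935) (l 177872043911)) (l 16776504))))) (a (b (c (l 284709356023) (l 291688677783)) (c (l 16777304) (b (c (l 16776832) (l 16777488)) (l 16775872)))) (b (b (l 3) (c (l 102710117543) (b (l 203641848135) (l 16776960)))) (c (l 16775696) (l 16775744))))) (a (b (b (a (c (l 194515042871) (l 199346880391)) (c (l 16776904) (a (l 75329699511) (l 16776800)))) (c (l 16776256) (l 16776944))) (c (l 16774704) (l 16774784))) (b (c (l 16775456) (l 16775512)) (a (l 16773760) (l 16773104))))))), by decide +kernel⟩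

def k18_pm_012_s : ∃ t, chk3 f_pm_012_s t 69 122 1 = true :=
  ⟨(a (b (a (b (b (a (l 3) (a (a (l 3) (l 208473686599)) (b (l 137606726535) (l 16776840)))) (c (a (l 183240754183) (l 16776392)) (a (c (l 203641847831) (a (l 3) (l 145122919239))) (l 16777072)))) (b (a (a (b (a (l 216526750007) (l 16777096)) (l 16776784)) (l 16776392)) (l 16775400)) (c (l 16775000) (l 16775400)))) (c (b (a (l 16775576) (l 16774216)) (l 16772808)) (b (c (l 16774960) (l 16775008)) (l 16773624)))) (b (a (c (l 16774096) (b (l 16774072) (l 16773064))) (a (c (l 16768776) (c (l 16771544) (l 16771664))) (c (l 16770032) (l 16767672)))) (a (c (a (c (l 16772000) (l 16772072)) (c (l 16770632) (l 16770728))) (l 16771552)) (a (c (l 16769320) (l 16766968)) (c (l 16767952) (l 16768280)))))) (b (a (c (b (l 16772176) (a (l 16770768) (l 16769408))) (a (l 16772664) (l 16770712))) (a (b (l 16770272) (b (l 16768728) (l 16767704))) (b (b (l 16764216) (l 16768440)) (b (l 16767416) (l 16766384))))) (c (a (b (a (l 16768672) (l 16767312)) (a (b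 (l 16767104) (l 16763592)) (b (l 16760664) (l 16765448)))) (b (a (b (l 16766480) (l 16765616)) (l 16763864)) (l 16764768))) (a (b (a (l 16768984) (l 16767688)) (b (l 16767552) (l 16766296))) (b (b (l 16766360) (l 16765768)) (l 16765192)))))), by decide +kernel⟩

def k19_pm_012_s : ∃ t, chk3 f_pm_012_s t 34 246 1 = true :=
  ⟨(b (a (a (a (l 3) (b (a (l 315310996663) (a (b (l 249275875735) (c (l 16777072) (l 73719087303))) (c (l 16776720) (c (l 16776728) (l 16776736))))) (c (a (a (l 203641848247) (l 16777912)) (l 16776032)) (a (c (a (l 215989878871) (l 16777592)) (a (l 218674233415) (b (l 117742502535) (l 16776760)))) (l 16776064))))) (a (a (c (l 16775256) (l 16775392)) (b (l 16774504) (l 16773472))) (a (b (l 16773200) (a (l 16769880) (l 16769224))) (c (c (l 16771256) (l 16771336)) (c (l 16771432) (l 16768912)))))) (a (a (a (c (l 16772568) (l 16767568)) (c (l 16768592) (l 16768880))) (c (a (b (l 16767752) (c (l 16766768) (l 16766920))) (b (c (l 16766448) (l 16766608)) (l 16766056))) (a (l 16767632)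 (l 16766720)))) (a (c (l 16765360) (l 16765744)) (l 16764192)))) (a (a (a (a (a (l 3) (b (l 3) (b (l 301352354023) (c (l 16777776) (a (l 186998849799) (l 16777048)))))) (a (c (b (l 266992615719) (l 16778120)) (b (l 273971937527) (c (l 16777472) (b (l 16777544) (l 16776608))))) (b (b (c (l 201494364487) (l 207399944487)) (c (l 16776960) (l 16777616))) (l 16776224)))) (c (a (b (l 16776280) (l 16775248)) (l 16774472)) (a (c (l 16776120) (b (l 16776312) (l 16775320))) (l 16774552)))) (a (c (a (a (l 16770880) (l 16770224)) (c (l 16771824) (l 16771896))) (b (l 16773160) (a (l 16770160) (l 16771512)))) (a (c (c (l 16770488) (l 16770576)) (c (l 16770680) (l 16770800))) (c (l 16769200) (l 16766832))))) (a (a (c (a (b (l 16768376) (c (l 16764760) (l 16764896))) (b (c (l 16764456) (l 16767216)) (l 16766664))) (a (l 16769184) (l 16767952))) (c (l 16765984) (l 16766312))) (c (l 16763152) (l 16762856))))), by decide +kernel⟩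

def k20_pm_012_s : ∃ t, chk3 f_pm_012_s t 34 247 1 = true :=
  ⟨(a (c (b (a (a (a (a (b (a (l 105931342759) (l 16776888)) (l 16776048)) (l 16775928)) (l 16774968)) (b (l 16774216) (a (l 16770544) (l 16771864)))) (a (a (c (l 16771040) (l 16771120)) (l 16772384)) (a (b (l 16768960) (a (l 16768248) (l 16765128))) (b (a (l 16767960) (l 16767464)) (l 16767248))))) (a (a (a (l 16774168) (b (l 16771440) (l 16771048))) (a (b (l 16772112) (l 16771064)) (c (l 16770248) (l 16770336)))) (a (a (b (l 16769504) (a (l 16768792) (l 16765688))) (b (a (l 16768520) (l 16765408)) (l 16767824))) (a (l 16767424) (l 16766880))))) (a (a (b (a (b (a (b (a (l 248739004551) (l 16777456)) (l 16776824)) (l 16776464)) (l 16775768)) (c (l 16775016) (l 16775048))) (b (c (l 16774104) (l 16774152)) (a (c (l 16771088) (l 16771136)) (l 16771176)))) (a (b (l 16773776) (b (l 16769632) (l 16771232))) (b (b (l 16770408) (l 16769392)) (c (l 16770432) (l 16767920))))) (a (b (a (c (l 16771208) (l 16768688)) (c (l 16769920) (l 16770048))) (a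 (b (l 16769728) (l 16768824)) (b (l 16768568) (l 16768080)))) (b (a (b (l 16769208) (l 16768304)) (a (l 16768000) (l 16767616))) (l 16767424))))) (b (a (a (a (c (l 16766848) (l 16767144)) (l 16766432)) (l 16764776)) (c (l 16760424) (l 16760136))) (a (c (l 16763616) (l 16763384)) (a (l 16764232) (l 16756008))))), by decide +kernel⟩

def k21_pm_012_s : ∃ t, chk3 f_pm_012_s t 35 120 1 = true :=
  ⟨(a (a (b (a (l 3) (b (l 3) (a (l 316384739863) (b (l 218674234343) (a (l 110226310535) (l 16776640)))))) (a (a (b (l 3) (b (l 269140099335) (a (l 138680468167) (l 16776752)))) (b (c (l 225116684551) (b (l 3) (l 184314495959))) (c (l 16776208) (c (l 16776240) (l 16776264))))) (a (b (b (a (l 206863074039) (l 16778264)) (l 16777688)) (l 16774952)) (c (l 16774544) (l 16774680))))) (b (c (a (b (a (l 193978172839) (l 16776584)) (l 16775432)) (l 16773784)) (a (b (a (b (l 3) (l 151028499783)) (b (l 16778000) (l 16776264))) (a (l 16776152) (l 16774928))) (c (l 16773928) (l 16774040)))) (c (a (l 16772568) (l 16770008))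 (a (c (l 16772744) (l 16772880)) (l 16770416))))) (a (b (c (a (l 16771272) (l 16768904)) (a (l 16771648) (l 16769472))) (a (c (l 16767576) (l 16768176)) (b (l 16766560) (c (l 16767112) (l 16765336))))) (a (b (c (l 16766712) (l 16767320)) (c (b (l 16766872) (l 16763160)) (c (l 16769384) (l 16768992)))) (c (b (b (l 16765560) (l 16766728)) (l 16761560)) (b (b (l 16765424) (c (l 16763944) (l 16763520))) (l 16763392)))))), by decide +kernel⟩

def k22_pm_012_s : ∃ t, chk3 f_pm_012_s t 35 121 1 = true :=
  ⟨(a (a (b (c (a (b (l 16774928) (l 16772920)) (l 16771256)) (a (b (l 16775032) (l 16773112)) (a (l 16772168) (l 16770920)))) (a (c (c (b (l 16765584) (l 16768768)) (a (l 16766672) (l 16764040))) (l 16770848)) (b (c (l 16763000) (l 16763424)) (c (a (l 16766864) (l 16765568)) (c (l 16761344) (l 16762944)))))) (b (b (c (l 16770992) (l 16770320)) (a (l 16770520) (c (a (l 16765808) (l 16759392)) (l 16765888)))) (b (a (c (b (l 16766184) (l 16759952)) (l 16766272)) (c (a (l 16764136) (l 16763480)) (l 16764576)))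 (a (c (c (l 16762800) (l 16764384)) (l 16766184)) (l 16763352))))) (b (a (a (c (b (l 16764816) (l 16763560)) (b (l 16765568) (l 16764344))) (c (l 16765592) (l 16768312))) (c (l 16758960) (b (l 16759288) (l 16757144)))) (a (c (l 16760912) (l 16760312)) (a (l 16753232) (c (l 16753032) (l 16752264)))))), by decide +kernel⟩

def k23_pm_012_s : ∃ t, chk3 f_pm_012_s t 35 61 1 = true :=
  ⟨(a (b (a (b (a (b (c (a (l 16767448) (l 16766112)) (c (l 16761864) (l 16764744))) (b (a (l 16760864) (l 16765080)) (c (l 16764792) (l 16765304)))) (b (c (a (b (l 16765328) (l 16764600)) (l 16764216)) (a (l 16765544) (l 16764800))) (l 16764032))) (c (a (l 16763976) (l 16762200)) (c (l 16763432) (l 16763216)))) (b (c (l 16762504) (l 16762024)) (c (l 16757672) (l 16757216)))) (a (b (a (a (l 16760616) (l 16759120)) (b (l 16752936) (l 16755544))) (a (c (l 16754584) (l 16754280)) (c (l 16751640) (l 16751312)))) (b (a (c (l 16754072) (l 16753672)) (l 16756112)) (b (l 16753640) (c (l 16745848) (l 16745496)))))) (b (a (b (c (l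 16756344) (l 16755768)) (c (l 16762088) (l 16761544))) (b (c (l 16760632) (l 16759944)) (c (l 16745512) (l 16744864)))) (b (a (c (l 16746608) (l 16746112)) (a (l 16741816) (a (l 16739536) (l 16738016)))) (a (c (b (l 16742672) (l 16740016)) (b (l 16742216) (l 16739520))) (a (c (l 16736976) (l 16736336)) (c (l 16734016) (l 16733216))))))), by decide +kernel⟩

def k24_pm_012_s : ∃ t, chk3 f_pm_012_s t 68 124 1 = true :=
  ⟨(a (b (b (a (c (a (b (l 16770792) (l 16771552)) (c (l 16772064) (l 16768856))) (a (b (l 16770744) (l 16769072)) (c (l 16768288) (l 16768384)))) (c (a (b (l 16770016) (a (a (l 16769448) (l 16769160)) (l 16766232))) (b (a (l 16766432) (l 16765960)) (l 16768376))) (a (b (l 16770216) (l 16769320)) (b (l 16769072) (l 16768600))))) (a (c (a (b (l 16770496) (c (a (l 16768464) (l 16766712)) (l 16769664))) (b (a (a (l 16769688) (l 16769416)) (l 16767144)) (l 16768912))) (a (b (l 16770664) (l 16769808)) (b (l 16769568) (l 16769104)))) (c (c (l 16768248) (l 16768328)) (l 16769672)))) (b (a (c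 (c (l 16768720) (l 16768656)) (a (l 16769224) (l 16767784))) (c (l 16765608) (l 16765472))) (a (c (b (l 16766456) (l 16770192)) (l 16764608)) (c (l 16767864) (l 16767760))))) (b (b (c (a (b (l 16767848) (l 16767600)) (l 16765320)) (a (l 16767952) (l 16765120))) (b (c (l 16764680) (l 16764504)) (a (l 16764672) (l 16766864)))) (b (c (a (l 16767784) (l 16759496)) (a (a (l 16763168) (l 16761640)) (l 16759352))) (a (c (l 16759552) (l 16759448)) (c (l 16756512) (l 16756400)))))), by decide +kernel⟩

def k25_pm_012_s : ∃ t, chk3 f_pm_012_s t 68 125 1 = true :=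
  ⟨(a (a (b (c (b (c (l 16762688) (l 16762640)) (l 16762192)) (b (l 16765208) (l 16759536))) (a (b (c (l 16757192) (l 16757200)) (l 14)) (b (c (l 16755640) (l 16755656)) (c (l 16752576) (l 16752528))))) (b (b (c (l 16759576) (l 16759512)) (c (l 16756488) (l 16756456))) (b (c (b (l 16754128) (l 16752616)) (b (l 16754136) (l 16752584))) (c (l 16750344) (l 16750208))))) (b (c (b (a (l 16756512) (l 16753472)) (a (b (l 16754200) (l 16752648)) (b (l 16751176) (l 16749688)))) (b (a (l 16756448) (l 16753408)) (a (l 16753384) (l 16750360)))) (b (c (a (l 16750408) (l 16747448)) (a (l 16750312) (l 16747232))) (c (c (l 16746008) (l 16745824)) (l 16745600))))), by decide +kernel⟩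

def k26_pm_012_s : ∃ t, chk3 f_pm_012_s t 69 62 1 = true :=
  ⟨(b (b (a (b (a (c (a (l 16763040) (l 16761536)) (l 16756840)) (l 16764408)) (a (c (l 16759400) (l 16759224)) (l 16761536))) (a (c (l 16760088) (l 16754632)) (c (l 16751872) (l 16751640)))) (a (c (b (a (l 16756464) (l 16753456)) (a (l 16753480) (l 16750464))) (b (l 16760056) (a (l 16753376) (l 16750344)))) (a (b (l 16750376) (c (l 16747512) (l 16747352))) (b (c (l 16747488) (l 16747304)) (l 16746424))))) (a (b (b (c (a (l 16750456) (l 16747520)) (a (l 16750368) (l 16747360))) (c (l 16748640) (l 16745776))) (c (b (l 16743048) (l 16740016)) (b (l 16742640) (l 16739456)))) (b (c (b (l 16743136) (l 16740192)) (b (l 16742792) (l 16739680))) (c (b (l 16737192) (l 16734152)) (b (l 16736528) (l 16733320)))))), by decide +kernel⟩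

def k27_pm_012_s : ∃ t, chk3 f_pm_012_s t 35 62 1 = true :=
  ⟨(b (a (b (a (a (b (l 16750216) (l 16747336)) (b (l 16747264) (l 16749640))) (c (b (l 16743056) (l 16740256)) (b (l 16742688) (l 16739800)))) (a (c (b (l 16743160) (l 16740264)) (b (l 16742832) (l 16739792))) (c (l 16735968) (l 16735288)))) (a (b (c (l 16735912) (l 16735224)) (c (l 16730232) (l 16729240))) (b (a (l 16731096) (c (l 16728664) (l 16727576))) (a (l 16725304) (c (l 16723056) (l 16721656)))))) (a (b (c (a (b (l 16737344) (l 16734376)) (l 16730088)) (a (l 16735160) (l 16729088))) (c (a (b (l 16731368) (l 16728304)) (b (l 16725568) (l 16722488))) (a (b (l 16730416) (l 16727192)) (l 16722704)))) (a (b (c (l 16724352) (l 16723040)) (c (l 16718248) (l 16716616))) (b (a (c (l 16720040) (l 16718488)) (c (l 16717176) (l 16715456))) (a (c (l 16713928) (l 16712056)) (c (l 16711064) (l 16709024))))))), by decide +kernel⟩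

def k28_pm_012_s : ∃ t, chk3 f_pm_012_s t 34 63 1 = true :=
  ⟨(b (a (b (b (a (a (l 14) (c (l 16747304) (l 16747008))) (c (c (l 16743000) (l 16742728)) (l 16745000))) (a (l 14) (c (c (l 16739936) (l 16739584)) (c (l 16739264) (l 16738976))))) (b (a (l 14) (a (l 14) (c (l 16735120) (l 16734248)))) (l 14))) (b (c (a (b (l 16739568) (c (l 16734064) (l 16733592))) (b (l 16731064) (l 16727920))) (a (b (l 16736216) (l 16732936)) (b (l 16730064) (l 16726760)))) (a (c (b (c (l 16730936) (l 16730384)) (c (l 16727760) (l 16727128))) (b (l 16729600) (c (l 16726512) (l 16725912)))) (c (b (c (l 16725080) (l 16724392)) (c (l 16721888) (l 16721120))) (b (l 16723408) (l 16720000)))))) (a (l 14) (a (a (l 14) (b (b (c (l 16722680) (l 16721208)) (l 14)) (l 14))) (a (b (c (b (l 16719696) (l 16716368)) (b (l 16718096) (l 16714584))) (l 14)) (b (c (b (l 16716728) (l 16713384)) (b (l 16714984) (l 16711464))) (a (l 14) (b (b (l 16709048) (l 14)) (l 14)))))))), by decide +kernel⟩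

def k29_pm_012_s : ∃ t, chk3 f_pm_012_s t 70 63 1 = true :=
  ⟨(b (b (c (a (b (l 16725200) (l 16722048)) (b (l 16719368) (l 16716192))) (a (b (l 16723920) (l 16720600)) (b (l 16717792) (l 16714448)))) (c (a (b (l 16718840) (c (l 16716040) (l 16715136))) (b (l 16712976) (l 16709704))) (a (b (l 16717224) (l 16713800)) (b (l 16711056) (l 16707616))))) (a (b (c (b (c (l 16712784) (l 16711784)) (c (l 16709472) (l 16708384))) (b (l 16710320) (c (l 16707320) (l 16706256)))) (b (c (c (a (l 16707576) (l 16704632)) (l 16704936)) (c (l 16703776) (l 16702624))) (a (a (l 14) (c (l 16702800) (l 16700336))) (c (c (l 16701216) (l 16699920)) (l 16697992))))) (b (c (b (c (l 16706952) (l 16705808)) (c (l 16703624) (l 16702392))) (b (l 16704120) (c (l 16701176) (l 16699960)))) (c (b (c (l 16700240) (l 16698920)) (c (a (l 16698272) (l 16695344)) (a (l 16696904) (l 16693896)))) (b (c (l 16697608) (l 16696312)) (c (a (l 16695536) (l 16692456)) (a (l 16694184) (l 16691016)))))))), by decide +kernel⟩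

def k30_pm_012_s : ∃ t, chk3 f_pm_012_s t 71 63 1 = true :=
  ⟨(b (a (b (c (b (l 16713560) (l 16710376)) (l 16710000)) (c (b (l 16707136) (l 16703848)) (b (l 16704912) (l 16701448)))) (b (a (c (l 16707624) (l 16705416)) (c (c (l 16705344) (l 16704144)) (l 16702368))) (a (c (l 16701128) (l 16698576)) (c (c (l 16698912) (l 16697544)) (c (l 16696184) (l 16694832)))))) (a (b (c (b (c (l 16701160) (l 16699864)) (c (l 16697808) (l 16696424))) (b (l 16697936) (l 16696984))) (a (c (b (l 16695144) (c (l 16692416) (l 16690896))) (b (l 16692288) (l 16688616))) (c (b (l 16692200) (c (l 16689504) (l 16687904))) (b (l 16689184) (l 16685504))))) (b (a (c (b (l 16696128) (l 16692720)) (b (l 16693304) (l 16689720))) (c (c (b (l 16693960) (l 16690592)) (b (l 16692464) (l 16689008))) (c (b (l 16690976) (l 16687432)) (l 16687664)))) (a (c (b (l 16689264) (c (l 16686600) (l 16684920))) (b (l 16686088) (l 16682392))) (a (c (b (l 16687072) (l 16683552)) (b (l 16683760) (l 16680064))) (c (b (l 16688232) (c (l 16682984)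 (l 16681200))) (b (l 16682216) (c (l 16679408) (l 16677616))))))))), by decide +kernel⟩

def k31_pm_012_s : ∃ t, chk3 f_pm_012_s t 36 28 1 = true :=
  ⟨(a (l 3) (b (l 3) (b (a (l 3) (b (l 3) (a (l 3) (b (l 3) (c (l 210084301783) (l 207936817991)))))) (a (b (l 3) (a (l 3) (b (l 286319969255) (a (l 222969203047) (a (l 16777048) (l 16776472)))))) (b (b (a (l 3) (a (l 134385500503) (l 16776160))) (a (c (l 170892722951) (a (l 323364061911) (l 16777104))) (l 16775312))) (a (a (c (l 16778864) (l 16778896)) (l 16774976)) (c (l 16773080) (l 16772984)))))))), by decide +kernel⟩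

def k32_pm_012_s : ∃ t, chk3 f_pm_012_s t 37 28 1 = true :=
  ⟨(b (b (a (l 3) (a (b (a (l 3) (c (b (l 185388239911) (l 16776680)) (b (l 203104979959) (l 16776696)))) (a (b (l 170355855655) (a (l 16777080) (l 16776048))) (a (l 16775448) (l 16774192)))) (c (b (l 16773616) (l 16771048)) (b (l 16773680) (l 16771096))))) (b (a (a (l 3) (a (l 323364062487) (c (b (l 170355854599) (l 16776472)) (c (l 105931345911) (l 105394469607))))) (a (c (l 16773408) (l 16773384)) (c (l 16768408) (l 16768408)))) (c (a (a (l 315847870487) (a (a (l 148344147335) (l 16776336)) (l 16774464))) (a (l 16770648) (l 16765624))) (a (a (l 315310999335) (a (a (l 144049180039) (l 16776376)) (l 16774432))) (a (l 16770600) (l 16765592)))))) (a (a (c (b (b (a (l 274508809383) (a (l 124184951303) (l 16776104))) (a (b (l 103246985671) (l 16775720)) (l 16773880))) (b (a (l 16773512) (l 16770944)) (l 16769240))) (b (b (a (l 271287583767) (a (l 120963728311) (l 16776112))) (a (b (l 100025762695) (l 16775688)) (l 16773824))) (b (a (l 16773440)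 (l 16770832)) (a (l 16770376) (l 16767768))))) (b (b (a (a (l 16774824) (l 16773536)) (l 16771616)) (c (l 16770040) (l 16769936))) (c (b (l 16767096) (l 16764104)) (b (l 16766936) (l 16763864))))) (b (a (c (b (l 16767824) (l 16764928)) (b (l 16767736) (l 16764792))) (b (c (l 16762784) (l 16762704)) (c (l 16757264) (l 16757152)))) (a (b (c (l 16761976) (l 16761784)) (a (l 16760152) (c (l 16757656) (l 16757400)))) (b (a (c (l 16758160) (l 16757984)) (c (l 16755504) (l 16755336))) (c (l 16753584) (l 16753360))))))), by decide +kernel⟩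

def k33_pm_012_s : ∃ t, chk3 f_pm_012_s t 36 58 1 = true :=
  ⟨(a (b (a (l 3) (b (l 3) (a (c (l 295446775255) (l 295983645991)) (b (a (l 308331676439) (a (l 169818982583) (l 16778232))) (c (l 16778928) (a (l 16779552) (l 16775672))))))) (a (b (a (l 3) (b (l 3) (c (l 224042942903) (a (l 3) (l 158544693287))))) (b (a (c (l 312626643991) (l 315847869319)) (a (a (l 161765918887) (l 16778560)) (l 16776008))) (a (a (l 233706620807) (a (l 95730796999) (l 16776616))) (c (l 16775072) (l 16774976))))) (b (b (a (a (a (l 302426096727) (l 172503337159)) (a (l 16778264) (l 16776360))) (l 16775080)) (a (c (l 16775736) (l 16775680)) (l 16773144))) (c (a (l 16773368) (l 16770880)) (a (l 16773216) (l 16770640)))))) (b (a (b (a (b (c (l 249275875991) (l 247128392279)) (a (a (l 224042944295) (l 107541956983)) (l 16776288))) (c (l 16776472) (b (l 16775888) (l 16774304)))) (c (a (l 16774608) (l 16772064)) (a (l 16774520) (l 16771912)))) (c (b (a (l 16772600) (l 16770048)) (l 16768248)) (b (a (l 16772480) (l 16769864))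 (a (l 16769304) (l 16766696))))) (a (c (b (a (l 16771480) (l 16768944)) (l 16767096)) (b (a (l 16771280) (l 16768680)) (a (l 16768032) (l 16765448)))) (b (c (l 16765136) (l 16764784)) (a (l 16763104) (c (l 16760728) (l 16760248))))))), by decide +kernel⟩

def k34_pm_012_s : ∃ t, chk3 f_pm_012_s t 36 59 1 = true :=
  ⟨(a (b (a (b (c (a (b (l 16775960) (l 16774352)) (l 16772696)) (a (b (b (l 16778936) (l 16775456)) (l 16774208)) (l 16772544))) (c (a (l 16772016) (l 16769456)) (a (l 16771744) (l 16769384)))) (b (c (a (l 16770128) (l 16767616)) (a (l 16770064) (l 16767536))) (c (l 16765504) (a (l 16767024) (l 16764624))))) (b (a (a (c (l 16768896) (l 16768520)) (a (l 16767120) (l 16765888))) (a (c (l 16768704) (l 16769304)) (c (l 16761176) (l 16761584)))) (a (a (c (l 16768272) (c (l 16765552) (l 16765184))) (b (c (l 16763680) (l 16764032)) (l 16768776))) (c (l 16762544) (a (l 16760728) (l 16758176)))))) (b (a (b (a (l 16765232) (c (l 16762656) (l 16762456))) (a (c (l 16761784) (l 16762136)) (c (l 16759808)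 (l 16759392)))) (b (a (c (l 16760248) (l 16759728)) (c (l 16757432) (l 16756912))) (c (l 16755640) (l 16755152)))) (a (c (b (l 16758112) (l 16754752)) (b (l 16757608) (l 16754296))) (c (l 16756160) (l 16754792))))), by decide +kernel⟩

def k35_pm_012_s : ∃ t, chk3 f_pm_012_s t 37 29 1 = true :=
  ⟨(b (b (a (a (c (b (l 16766200) (l 16763128)) (b (l 16765952) (l 16762784))) (b (a (l 16762208) (c (l 16759784) (l 16759472))) (a (c (l 16759240) (l 16758864)) (c (l 16756488) (l 16756104))))) (a (b (a (c (l 16757096) (l 16756776)) (l 16754224)) (l 16755912)) (b (l 16755344) (c (l 16757272) (l 16746504))))) (a (a (a (b (c (l 16761312) (l 16760896)) (c (l 16757960) (l 16757464))) (b (c (l 16758624) (l 16758184)) (l 16754904))) (b (c (l 16754424) (l 16754000)) (b (l 16751528) (a (l 16751176) (l 16748368))))) (c (a (l 16752256) (b (l 16743288) (l 16739792))) (a (b (a (l 16749816) (l 16747064)) (l 16744896)) (b (l 16743000) (l 16739496)))))) (a (b (a (b (b (l 16753736) (l 16752080)) (l 16752328)) (b (a (l 16759144)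 (l 16745872)) (c (l 16744320) (l 16743960)))) (b (c (l 16749432) (l 16749136)) (c (l 16741360) (l 16741184)))) (b (b (a (c (l 16741920) (l 16741576)) (c (l 16736472) (l 16736216))) (a (c (l 16738824) (l 16738552)) (l 16738560))) (b (a (c (l 16735968) (l 16735792)) (c (l 16730624) (l 16730544))) (a (l 16722784) (l 16717552)))))), by decide +kernel⟩

def k36_pm_012_s : ∃ t, chk3 f_pm_012_s t 18 30 1 = true :=
  ⟨(b (b (a (a (a (b (a (c (l 16768232) (c (l 16767352) (l 16766912))) (l 16765144)) (c (l 16757520) (l 16759416))) (c (l 16757208) (b (l 16755864) (l 16741728)))) (c (b (l 16751480) (l 16745592)) (a (l 16749320) (l 16744576)))) (a (a (a (l 16741000) (l 16738536)) (l 16739992)) (a (b (l 16720400) (l 16733656)) (b (c (l 16735984) (l 16715232)) (l 16722792))))) (a (a (a (a (b (a (l 16760032) (l 16753680)) (l 16760512)) (b (l 16744168) (l 16747984))) (b (c (l 16748984) (l 16748520)) (c (l 16745144) (l 16744752)))) (b (b (l 16747936) (l 16745952)) (a (c (l 16740952) (l 16740824)) (l 16736736)))) (a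 (a (b (l 16735512) (l 16732328)) (b (l 16730752) (l 16727352))) (a (c (l 16707904) (l 16723856)) (c (l 16702152) (l 16697008)))))) (a (a (b (b (a (c (l 16745080) (l 16744472)) (c (l 16741192) (l 16740888))) (a (a (l 16741240) (l 16750000)) (a (l 16748256) (c (l 16736120) (l 16735904))))) (a (b (a (c (l 16736800) (l 16736176)) (c (l 16735128) (l 16734608))) (c (l 16741424) (l 16740608))) (c (b (l 16732448) (l 16727504)) (b (l 16732008) (l 16726816))))) (b (a (b (c (l 16726760) (l 16726720)) (a (l 16723624) (l 16732080))) (b (c (l 16722616) (l 16722712)) (c (l 16728968) (l 16728888)))) (c (a (b (l 16728632) (l 16723784)) (l 16732664)) (a (l 16736256) (l 16732264))))) (a (a (b (c (b (l 16728488) (l 16724456)) (l 16710792)) (b (l 16730464) (l 16736200))) (b (c (b (l 16723568) (l 16719656)) (l 16700680)) (a (l 16735168) (l 16732792)))) (b (c (a (l 16737456) (l 16711056)) (l 16713744)) (a (c (l 16708288) (l 16707984)) (c (l 16703096) (l 16702776))))))), by decide +kernel⟩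

def k37_pm_012_s : ∃ t, chk3 f_pm_012_s t 18 62 1 = true :=
  ⟨(a (c (b (a (a (b (a (l 16726432) (l 16724824)) (a (l 16720840) (l 16719264))) (b (l 16722280) (l 16716768))) (a (b (l 16718632) (l 16713192)) (l 16722544))) (a (b (a (a (l 16714992) (l 16713432)) (l 16710968)) (a (a (l 16708872) (l 16707328)) (l 16704896))) (b (a (l 16707448) (l 16703672)) (a (l 16701424) (l 16697696))))) (a (a (a (b (b (l 16725296) (l 16719408)) (b (l 16713240) (l 16706800))) (b (l 16726104) (b (l 16711776) (l 16705360)))) (b (b (l 16721320) (l 16715528)) (b (l 16709448) (l 16703072)))) (a (b (b (l 16717800) (l 16712096)) (b (l 16706096) (l 16699792))) (b (l 16711208) (l 16709856))))) (c (a (a (b (l 16707896) (l 16707184)) (b (l 16703456) (l 16692424))) (b (a (l 16698752) (l 16693784)) (a (l 16687888) (l 16683104)))) (a (b (b (l 16728656) (l 16723216)) (b (l 16696472) (l 16711344))) (b (a (l 16698136) (l 16693184)) (a (l 16686912) (l 16682208)))))), by decide +kernel⟩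

def k38_pm_012_s : ∃ t, chk3 f_pm_012_s t 18 63 1 = true :=
  ⟨(b (a (a (a (b (c (a (c (l 16703144) (l 16701936)) (l 16700984)) (a (l 16700136) (l 16698696))) (c (a (c (l 16696688) (l 16695320)) (l 16694416)) (a (c (l 16693944) (l 16692576)) (l 16691792)))) (b (c (c (l 16699088) (l 16698000)) (l 16696416)) (c (a (l 16692776) (l 16691104)) (a (l 16690272) (l 16688720))))) (b (c (a (l 16695104) (l 16691416)) (a (l 16693184) (l 16689688))) (c (a (l 16698984) (l 16684840)) (a (l 16686280) (l 16682840))))) (a (a (c (b (l 16687480) (l 16680944)) (l 16693048)) (b (l 16703544) (c (l 16676816) (l 16675192)))) (c (b (l 16676568) (l 16691144)) (a (l 16674328) (l 16669824))))) (a (a (a (b (c (a (c (b (l 16691720) (l 16688344)) (b (l 16690216) (l 16686752))) (c (l 16688384) (l 16686904))) (a (c (b (l 16688720) (l 16685160)) (l 16685400)) (c (l 16685424) (l 16683944)))) (c (b (a (c (l 16684912) (l 16683232)) (l 16682432)) (a (a (a (l 16681152) (l 16680752)) (l 16680136)) (c (l 16679736) (l 16678032)))) (a (a (b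 (l 16681080) (a (l 16677552) (l 16677184))) (b (l 16680336) (l 16676624))) (c (l 16678176) (l 16676528))))) (b (c (c (l 16685832) (l 16684432)) (a (l 16683144) (l 16681568))) (c (a (c (l 16679768) (l 16678168)) (c (l 16677992) (l 16676464))) (a (c (l 16676584) (l 16675008)) (l 16674192))))) (b (c (a (a (l 16682520) (l 16680736)) (l 16677960)) (a (l 16685024) (l 16675680))) (a (c (a (l 16675448) (l 16673624)) (a (l 16672544) (l 16670856))) (c (a (l 16671768) (l 16669872)) (l 16668256))))) (a (a (b (c (l 16674096) (l 16672032)) (c (l 16666944) (l 16664608))) (b (c (l 16670008) (l 16668144)) (c (l 16662880) (l 16660768)))) (a (c (b (l 16665688) (l 16658600)) (l 16670872)) (b (l 16681304) (c (l 16654096) (l 16652384))))))), by decide +kernel⟩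

def k39_pm_012_s : ∃ t, chk3 f_pm_012_s t 19 28 1 = true :=
  ⟨(a (b (a (b (a (c (b (l 16768440) (l 16765856)) (b (l 16768608) (l 16766080))) (c (l 16761976) (l 16762136))) (a (c (b (l 16763296) (l 16760680)) (b (l 16763536) (l 16760720))) (b (c (l 16758136) (l 16758304)) (c (a (l 16756960) (l 16754392)) (l 16755800))))) (b (a (b (c (l 16758200) (l 16758200)) (a (l 16756952) (l 16754728))) (c (l 16756064) (b (l 16753600) (l 16751248)))) (a (c (b (l 16753400) (l 16750544)) (l 16757472)) (c (l 16746824) (l 16747176))))) (a (b (a (b (a (l 16759048) (c (l 16756520) (l 16756528))) (c (l 16754696) (l 16754632))) (c (l 16756320) (l 16756376))) (c (a (l 16760336) (l 16744544)) (a (l 16749720) (l 16744512)))) (a (a (b (l 16752496) (l 16740640)) (b (l 16749952) (l 16740712))) (b (c (l 16740800) (l 16741072)) (c (c (l 16723776) (l 16713320)) (l 16734456)))))) (b (b (a (c (l 16754720) (l 16751248)) (c (l 16733808) (l 16734416))) (a (c (l 16739000) (l 16739464)) (c (l 16728712) (l 16729368)))) (a (b (c (l 16740992)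 (l 16733560)) (c (a (b (l 16730848) (l 16727488)) (b (l 16725840) (l 16722512))) (l 16734888))) (a (b (l 16725760) (c (l 16719240) (l 16719792))) (b (l 16720784) (c (b (l 16715912) (l 16712672)) (l 16714968))))))), by decide +kernel⟩

def k40_pm_012_s : ∃ t, chk3 f_pm_012_s t 38 29 1 = true :=
  ⟨(b (a (b (a (c (c (l 16753632) (l 16753520)) (a (l 16735040) (l 16731088))) (c (b (l 16739488) (l 16736048)) (b (l 16739400) (l 16735944)))) (c (a (b (l 16737888) (l 16734408)) (b (l 16732576) (l 16729112))) (a (b (l 16737672) (l 16734192)) (b (l 16732456) (l 16728992))))) (a (b (c (b (l 16734272) (l 16730832)) (l 16722064)) (c (b (l 16727360) (l 16723904)) (b (l 16727344) (l 16723888)))) (b (c (b (l 16729144) (l 16725696)) (b (l 16729272) (l 16725792))) (c (b (l 16722224) (l 16718768)) (b (l 16722312) (l 16718864)))))) (a (a (b (c (b (l 16731120) (l 16728112)) (l 16734688)) (b (l 16730576) (c (l 16733200) (l 16730728)))) (b (c (b (l 16725848) (l 16722872)) (l 16729528)) (b (a (l 16731936) (a (l 16719480)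 (l 16728600))) (c (l 16727568) (l 16727656))))) (b (a (b (c (l 16720656) (l 16720680)) (a (l 16724224) (c (l 16716320) (l 16716416)))) (a (b (c (l 16716800) (l 16716904)) (c (l 16713512) (l 16713584))) (b (c (b (l 16715032) (l 16723824)) (l 16724752)) (c (l 16710512) (l 16710496))))) (a (b (c (a (l 16715952) (l 16712944)) (l 16724960)) (c (l 16710968) (l 16710888))) (c (a (l 16708072) (l 16715472)) (c (l 16716816) (l 16727296))))))), by decide +kernel⟩

def k41_pm_012_s : ∃ t, chk3 f_pm_012_s t 39 29 1 = true :=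
  ⟨(c (b (a (b (a (l 16732824) (l 16717392)) (a (b (l 16717144) (a (l 16714944) (l 16712304))) (b (l 16733000) (l 16708048)))) (b (a (b (l 16714224) (l 16731544)) (b (a (l 16710480) (l 16707768)) (l 16705048))) (a (l 16725288) (l 16719512)))) (a (b (a (b (l 16722968) (l 16705968)) (l 16701888)) (a (l 16721392) (l 16694376))) (a (b (l 16695944) (l 16688368)) (b (l 16690048) (l 16682408))))) (b (a (b (a (l 16712072) (l 16696768)) (a (b (l 16717344) (b (l 16714720) (l 16733848))) (b (l 16733264) (l 16708120)))) (b (a (b (l 16714736) (l 16689992)) (b (l 16709616) (l 16705280))) (a (b (l 16706648) (l 16702000)) (l 16719232)))) (a (b (a (b (l 16730864) (l 16705784)) (l 16701568)) (b (l 16719664) (l 16715904))) (a (b (l 16695344) (l 16687304)) (b (l 16689136) (l 16680984)))))), by decide +kernel⟩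

def k42_pm_012_s : ∃ t, chk3 f_pm_012_s t 19 30 1 = true :=
  ⟨(a (b (a (b (a (c (c (l 16739248) (l 16739224)) (b (l 16740984) (l 16716728))) (c (l 16733112) (l 16733040))) (a (a (l 16734392) (l 16731312)) (a (l 16728200) (l 16725072)))) (c (a (b (l 16726904) (l 16699480)) (b (a (l 16701232) (l 16719072)) (a (l 16694704) (l 16691544)))) (a (b (l 16726648) (l 16699072)) (b (a (l 16700824) (l 16697576)) (l 16713488))))) (a (a (b (c (l 16705336) (l 16705144)) (c (l 16697632) (l 16697256))) (b (c (l 16699296) (l 16698968)) (l 16702112))) (a (b (l 16713760) (l 16706528)) (b (a (l 16687912) (l 16705672)) (c (l 16700576) (l 16678888)))))) (b (a (b (a (c (l 16693528) (l 16692792)) (c (l 16687464) (l 16686400))) (a (c (l 16686992) (l 16686072)) (c (l 16680952) (l 16679664)))) (a (b (c (l 16681440) (l 16680008)) (c (l 16674928) (l 16673240))) (b (c (b (l 16677144) (l 16673792)) (l 16673616)) (c (c (l 16669520) (l 16668368)) (l 16666800))))) (a (b (c (a (l 16680552) (l 16674568)) (a (l 16679528) (l 16673136)))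 (c (a (l 16673704) (l 16667848)) (a (l 16672632) (l 16666336)))) (b (a (c (l 16668592) (l 16666704)) (c (b (l 16664216) (l 16661032)) (l 16660248))) (a (c (l 16661904) (l 16659880)) (c (c (l 16656680) (l 16655336)) (l 16653440))))))), by decide +kernel⟩

def k43_pm_012_s : ∃ t, chk3 f_pm_012_s t 19 31 1 = true :=
  ⟨(a (b (b (a (c (a (l 16688544) (l 16683032)) (a (l 16687952) (l 16682424))) (a (l 16692608) (c (l 16692264) (l 16670520)))) (a (c (a (l 16678056) (l 16672760)) (a (l 16677216) (l 16671944))) (a (c (l 16667208) (l 16666392)) (a (l 16662392) (l 16680504))))) (a (a (b (c (l 16666176) (l 16665048)) (c (l 16663384) (l 16651448))) (b (c (l 16661056) (l 16660008)) (c (l 16647928) (l 16646608)))) (a (b (c (l 16655696) (l 16654704)) (c (l 16642728) (l 16641520))) (b (c (a (l 16651512) (l 16648824)) (l 16649184)) (c (a (l 16638672) (l 16636104)) (a (l 16637536) (l 16634936))))))) (b (a (a (b (c (l 16665752) (l 16664624)) (c (l 16656336) (l 16655120))) (b (c (l 16660176) (l 16658576)) (c (l 16651272)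 (l 16649568)))) (b (a (c (l 16654520) (l 16652392)) (c (b (l 16650608) (l 16646800)) (l 16646064))) (a (c (l 16646032) (l 16643784)) (c (b (l 16642736) (l 16638376)) (l 16637704))))) (a (b (a (c (l 16645448) (l 16644096)) (c (l 16640848) (l 16638992))) (a (c (l 16633072) (l 16631544)) (c (b (l 16632064) (l 16625736)) (l 16626872)))) (b (a (c (b (l 16638712) (l 16633360)) (l 16633656)) (c (b (l 16633640) (l 16628528)) (l 16628088))) (a (c (b (l 16627640) (l 16621552)) (b (l 16625056) (l 16618832))) (c (b (l 16623048) (l 16617192)) (b (l 16619824) (l 16613824)))))))), by decide +kernel⟩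

def k44_pm_012_s : ∃ t, chk3 f_pm_012_s t 10 4 1 = true :=
  ⟨(a (a (l 3) (l 2)) (l 2)), by decide +kernel⟩

def k45_pm_012_s : ∃ t, chk3 f_pm_012_s t 40 10 1 = true :=
  ⟨(l 3), by decide +kernel⟩

def k46_pm_012_s : ∃ t, chk3 f_pm_012_s t 80 11 1 = true :=
  ⟨(l 3), by decide +kernel⟩

def k47_pm_012_s : ∃ t, chk3 f_pm_012_s t 81 22 1 = true :=
  ⟨(l 3), by decide +kernel⟩

def k48_pm_012_s : ∃ t, chk3 f_pm_012_s t 81 46 1 = true :=
  ⟨(a (l 3) (a (l 3) (a (b (l 3) (b (l 3) (c (c (a (b (l 3) (b (l 203641847703) (a (l 205789331623) (a (l 16777360) (l 16777072))))) (a (c (b (l 182703882471) (l 16776312)) (l 16777160)) (b (l 16777160) (l 16776648)))) (l 100025764055)) (l 16777088)))) (b (c (c (b (l 3) (l 202568105591)) (l 188609464839)) (l 173040210247)) (c (c (b (c (b (l 117742503015) (a (l 16777168) (l 16776584))) (l 16777736)) (c (b (l 16776376) (l 16776664)) (l 16776096))) (b (l 16777080) (l 16776072))) (l 16776552)))))), by decide +kernel⟩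

def k49_pm_012_s : ∃ t, chk3 f_pm_012_s t 162 94 1 = true :=
  ⟨(l 3), by decide +kernel⟩

def k50_pm_012_s : ∃ t, chk3 f_pm_012_s t 326 188 1 = true :=
  ⟨(a (l 3) (c (b (b (l 3) (c (c (a (l 3) (a (l 3) (c (c (a (b (l 3) (b (c (a (l 3) (l 162302787607)) (l 189683204119)) (b (a (l 3) (a (l 102173245479) (l 16777176))) (a (b (l 189683204103) (a (l 3) (l 65129152551))) (l 16777176))))) (b (a (l 171966464023) (l 16777192)) (b (l 16777128) (l 16777128)))) (a (l 162302787655) (l 16777160))) (l 16777352)))) (l 178408914775)) (l 160692175767))) (c (a (c (c (b (l 3) (a (l 3) (a (l 222432329671) (a (b (l 3) (a (l 129553662023) (l 77477183527))) (b (l 178945785879) (l 16777136)))))) (l 195588783975)) (l 184314495335)) (c (c (c (b (b (a (a (l 3) (a (l 222432329623) (b (l 207936815111) (a (a (l 147807272999) (l 87677730855)) (l 16777184))))) (b (a (a (a (b (l 145122918439) (l 16777192)) (l 16777176)) (l 16777112)) (l 16777040)) (a (l 16777088) (l 16776928)))) (b (a (a (l 3) (a (a (l 140291080231) (l 16777192))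 (l 16777136))) (l 16777024)) (a (a (a (l 3) (a (l 166060884007) (l 16777200))) (l 16777104)) (l 16776872)))) (a (b (a (a (b (l 135459242007) (l 16777168)) (l 16777120)) (l 16777008)) (l 16776944)) (l 16776864))) (b (a (b (l 188072591383) (l 76403441799)) (l 16776976)) (l 16776856))) (b (a (l 128479920343) (l 16776968)) (l 16776856))) (l 16776968))) (l 75329701383))) (l 98415152391))), by decide +kernel⟩

def k51_pm_012_s : ∃ t, chk3 f_pm_012_s t 327 188 1 = true :=
  ⟨(c (a (c (b (c (b (a (a (a (a (l 172503334999) (a (l 30232543399) (l 16777200))) (l 16776792)) (l 16776880)) (l 16776408)) (c (a (a (a (b (l 16777080) (l 16776944)) (l 16776848)) (l 16776616)) (l 16776464)) (l 16776448))) (l 16776568)) (c (a (c (a (b (b (b (a (l 16776840) (l 16776680)) (l 16776776)) (l 16776752)) (l 16776712)) (b (b (l 16776576) (l 16776280)) (l 16776072))) (l 16776360)) (a (b (b (l 16776088) (l 16775952)) (l 16775752)) (b (l 16775704) (l 16775432)))) (l 16776024))) (l 16775616)) (c (a (c (b (l 16775952) (b (l 16775224)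 (l 16775200))) (l 16775328)) (b (l 16774968) (b (l 16774560) (l 16774448)))) (l 16774960))) (l 16778168)), by decide +kernel⟩

def k52_pm_012_s : ∃ t, chk3 f_pm_012_s t 163 189 1 = true :=
  ⟨(a (a (c (c (c (b (a (l 3) (a (l 3) (a (l 3) (b (l 3) (b (l 3) (l 125795565703)))))) (b (a (l 3) (a (l 199883751351) (a (b (l 144049176663) (l 16777128)) (l 16777040)))) (a (l 221358587751) (a (a (a (l 132238016679) (l 75866570935)) (l 16777072)) (l 16776840))))) (b (l 214916136727) (a (l 219747974999) (l 16777096)))) (c (l 140291081575) (l 135459243543))) (l 115058150583)) (c (c (a (b (c (a (a (b (l 3) (b (a (l 167671496759) (l 16777272)) (l 16777096))) (b (b (l 224042942343) (a (l 146733531191) (l 16777256))) (l 16777008))) (c (b (a (b (a (l 126332436535) (l 16777160)) (l 16777064)) (l 16776976)) (l 16776776)) (l 16776912))) (l 16777040)) (c (a (a (l 16776912) (l 16776920)) (l 16776688)) (l 16776504))) (c (c (b (a (a (l 16777008) (l 16776856)) (l 16776704)) (l 16776232)) (l 16776496)) (l 16776152))) (l 16776432))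 (l 16776392))) (c (c (a (c (b (c (a (a (l 16776304) (l 16776320)) (l 16775520)) (l 16775488)) (a (l 16775928) (l 16774640))) (l 16775192)) (c (b (a (l 16775200) (l 16773904)) (l 16774336)) (l 16773904))) (c (l 16774504) (l 16774456))) (l 16774360))), by decide +kernel⟩

def k53_pm_012_s : ∃ t, chk3 f_pm_012_s t 81 95 1 = true :=
  ⟨(a (a (l 3) (a (b (l 3) (c (c (a (l 3) (b (l 3) (a (l 193978171751) (a (l 126869307831) (l 74255958487))))) (l 170892723559)) (l 145122921575))) (c (c (a (b (l 3) (c (b (c (b (l 164987142263) (a (l 147270402215) (l 16776992))) (l 116668760519)) (l 16776720)) (b (l 110763180647) (l 16776704)))) (b (b (l 3) (c (c (b (a (l 3) (l 104857600199)) (a (l 115595018423) (l 16776952))) (l 100562633191)) (l 16777168))) (b (b (l 16776816) (l 16776536)) (l 16776104)))) (b (l 145659791047) (c (l 16776648) (l 16776640)))) (b (l 124184956023) (l 16776600))))) (b (a (c (a (c (b (b (c (a (a (l 225653555095) (a (l 119889985735) (l 16777104))) (l 16776720)) (l 35601253303)) (a (a (a (l 130090533143)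 (l 20568867127)) (l 16776896)) (l 16776760))) (c (c (a (l 16776640) (l 16776032)) (l 16776328)) (l 16776312))) (l 16777864)) (c (c (b (a (l 16776624) (l 16775344)) (l 16775760)) (l 16775336)) (l 16775280))) (l 16778464)) (c (c (c (a (a (l 16775264) (l 16775128)) (l 16773848)) (l 16774736)) (l 16773328)) (l 16773152))) (c (a (c (a (c (c (b (l 16776272) (l 16775224)) (l 16776792)) (l 16775448)) (c (b (l 16775200) (l 16773984)) (l 16774200))) (a (l 16775392) (l 16774104))) (c (c (a (l 16774008) (l 16773072)) (l 16774920)) (l 16772168))) (a (l 16774600) (l 16771920))))), by decide +kernel⟩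

def k54_pm_012_s : ∃ t, chk3 f_pm_012_s t 41 10 1 = true :=
  ⟨(b (a (l 3) (b (l 2) (a (a (l 3) (a (l 117742519079) (l 16786168))) (a (a (c (l 16776120) (l 16776096)) (l 16785736)) (l 16784520))))) (a (a (l 3) (a (l 3) (b (l 3) (b (l 134385513991) (a (l 16781896) (l 16776816)))))) (a (a (b (b (l 122574357719) (c (l 16783584) (l 16777000))) (a (c (l 16782560) (l 16776184)) (c (l 16779624) (l 16774808)))) (c (a (b (l 16783856) (l 16772984)) (b (l 16785360) (l 16777200))) (b (c (l 16775552) (l 16775664)) (l 16778264)))) (a (a (b (c (l 16781896) (l 16774200)) (b (l 16772120) (l 16770704))) (b (b (l 16773832) (l 16772584)) (b (l 16760760) (l 16759360)))) (b (b (l 16772464) (l 16771184)) (c (a (a (a (l 16759336) (b (l 16759776) (l 16763424))) (l 16768952)) (l 16768256)) (b (c (l 16767216) (l 16769960)) (a (c (l 16763616) (l 16763776)) (l 16767712))))))))), by decide +kernel⟩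

def k55_pm_012_s : ∃ t, chk3 f_pm_012_s t 41 22 1 = true :=
  ⟨(b (a (a (l 3) (a (b (a (l 3) (l 16782040)) (a (l 108615703447) (l 16778952))) (c (b (l 16775808) (l 16774032)) (l 16782984)))) (b (a (a (a (l 16773728) (l 16772320)) (c (l 16770160) (l 16770888))) (a (a (l 16769232) (a (l 16768592) (l 16757664))) (a (a (a (l 16757216) (c (l 16766744) (l 16767192))) (l 16755744)) (l 16765560)))) (a (a (c (l 16771056) (l 16771640)) (c (l 16768648) (l 16769352))) (a (a (l 16767704) (a (l 16767048) (c (l 16766256) (l 16766680)))) (a (a (a (l 16755288) (l 16759608)) (l 16764104)) (l 16763448)))))) (a (b (a (a (l 3) (b (l 137606731975) (c (l 89288348759) (l 16777056)))) (a (c (c (l 16775112) (l 16775160)) (l 16775232)) (c (l 16772224) (l 16772528)))) (a (b (a (l 3) (a (l 76940316695) (l 16775864))) (a (a (l 3) (a (l 167134628375) (l 16777144))) (a (l 16778872) (l 16774856)))) (a (c (c (l 16775792) (l 16773240)) (l 16773320)) (c (l 16773024) (l 16770688))))) (a (a (b (c (l 16769408) (l 16769968)) (c (l 16770344)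 (l 16768208))) (c (b (l 16767104) (l 16765528)) (b (l 16767736) (l 16766024)))) (a (a (b (l 16766112) (l 16764352)) (a (b (l 16754872) (l 16763344)) (b (l 16764544) (l 16762272)))) (c (a (a (a (l 16762224) (b (l 16762384) (l 16760168))) (l 16763152)) (l 16759880)) (a (b (l 16763032) (l 16760744)) (l 16760352))))))), by decide +kernel⟩

def k56_pm_012_s : ∃ t, chk3 f_pm_012_s t 41 46 1 = true :=
  ⟨(b (a (a (a (a (c (b (l 151028500855) (b (l 73182218279) (l 16776632))) (l 16777048)) (c (b (l 16776584) (l 16775552)) (l 16776048))) (c (c (b (l 16774520) (l 16773496)) (l 16774008)) (l 16774000))) (a (c (c (l 16774504) (l 16771272)) (l 16771328)) (c (c (l 16768480) (l 16768616)) (l 16768768)))) (a (a (a (c (l 16766640) (l 16766952)) (l 16768264)) (a (l 16764584) (l 16763600))) (a (c (a (l 16759592) (l 16757664)) (a (l 16762424) (l 16760536))) (a (a (a (l 16759008) (a (l 16758368) (l 16757848))) (l 16757392)) (l 16756728))))) (a (a (c (c (a (a (b (l 16776184) (c (l 16776112) (l 16774776))) (b (l 16774512)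 (l 16773456))) (c (b (l 16772480) (l 16774072)) (l 16775224))) (a (b (l 16775152) (l 16774064)) (l 16771920))) (a (l 16777168) (l 16771856))) (c (a (b (l 16772384) (l 16770728)) (c (l 16766624) (l 16766704))) (a (l 16769248) (l 16766752)))) (a (a (c (c (l 16766800) (l 16764312)) (l 16764408)) (c (a (l 16762672) (l 16761528)) (l 16762136))) (a (a (l 16759984) (a (l 16758616) (a (l 16757864) (l 16757304)))) (a (a (a (l 16756656) (c (c (l 16755648) (l 16755752)) (l 16755856))) (l 16757720)) (l 16754416)))))), by decide +kernel⟩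

def k57_pm_012_s : ∃ t, chk3 f_pm_012_s t 41 47 1 = true :=
  ⟨(b (a (a (c (a (c (b (c (a (b (l 16774000) (l 16774120)) (l 16772416)) (l 16774992)) (a (b (a (l 16773888) (l 16772576)) (l 16773016)) (b (l 16772248) (l 16771056)))) (b (l 16772968) (l 16774480))) (a (c (b (l 16771072) (l 16771000)) (l 16770440)) (b (l 16769712) (l 16769968)))) (a (c (l 16772312) (l 16772216)) (l 16769632))) (a (c (c (b (l 16767768) (l 16766760)) (l 16767208)) (l 16767088)) (c (c (b (l 16765216) (l 16764256)) (l 16764728)) (l 16764648)))) (a (a (c (b (l 16762896) (b (l 16762200) (l 16761728))) (l 16762368)) (c (a (c (l 16760728) (l 16755472)) (l 16759240)) (l 16759848))) (a (a (l 16757520) (a (l 16756176) (c (l 16755200) (l 16755080)))) (a (c (a (a (l 16754304) (a (l 16753728) (l 16753288))) (l 16752848)) (c (l 16756152) (l 16753456))) (l 16752080))))) (a (a (a (c (c (b (a (l 16772528) (l 16772872)) (a (l 16773064) (l 16769160))) (l 16773440)) (l 16775136)) (c (c (b (l 16770272) (l 16769864)) (l 16770216)) (l 16767320)))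 (c (c (a (b (l 16767056) (l 16764720)) (b (l 16763296) (l 16762312))) (a (l 16765080) (l 16762680))) (a (l 16764824) (l 16762440)))) (a (a (c (c (b (a (l 16761592) (c (l 16763096) (l 16760440))) (a (c (l 16763272) (l 16760584)) (l 16761984))) (b (l 16760904) (l 16759816))) (b (l 16760688) (l 16759496))) (c (b (l 16758208) (l 16757000)) (l 16757224))) (a (c (a (l 16755200) (c (a (l 16753952) (l 16752960)) (l 16753256))) (a (l 16754800) (l 16752960))) (c (a (a (a (l 16752040) (a (l 16751496) (c (l 16751208) (l 16750952)))) (l 16750640)) (l 16749888)) (a (a (a (l 16751664) (l 16750856)) (l 16750168)) (l 16749544))))))), by decide +kernel⟩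

def k58_pm_012_s : ∃ t, chk3 f_pm_012_s t 21 5 1 = true :=
  ⟨(a (a (b (b (b (l 2) (b (l 2) (l 16769200))) (b (b (l 16767856) (l 16766344)) (b (c (l 16764792) (l 16743960)) (b (l 16763640) (l 16762768))))) (b (b (c (b (l 16761176) (l 16759088)) (l 16760480)) (c (b (l 16756904) (l 16754648)) (l 16756184))) (b (c (b (l 16752360) (l 16755280)) (a (l 16753376) (l 16749560))) (b (c (c (l 16747632) (l 16747752)) (l 16747776)) (c (c (l 16750568) (l 16745352)) (l 16745216)))))) (b (b (l 2) (b (b (l 16760888) (l 16758960)) (b (l 16778104) (c (l 16755408) (l 16755496))))) (b (b (b (c (l 16753496) (l 16753640)) (c (l 16751504) (l 16751696))) (c (b (l 16749328) (l 16747048)) (b (l 16749568) (l 16747304)))) (b (b (l 16742240) (l 16742424)) (c (b (l 16739784) (l 16737288)) (l 16741168)))))) (b (b (l 2) (b (b (l 2) (l 16769736)) (b (l 16767448) (a (l 16747848) (l 16740672))))) (a (b (b (b (l 16766864) (l 16764832)) (b (l 16762736) (l 16760456))) (b (c (a (l 16748128) (l 16733784)) (l 16756792)) (c (l 16728248)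 (b (l 16731936) (l 16729216))))) (b (b (c (l 16758440) (l 16737336)) (b (l 16734080) (l 16731816))) (b (c (l 16743768) (l 16728000)) (c (b (l 16724056) (l 16721304)) (l 16722592))))))), by decide +kernel⟩

def k59_pm_012_s : ∃ t, chk3 f_pm_012_s t 11 2 1 = true :=
  ⟨(b (l 2) (b (a (a (a (b (l 2) (b (l 2) (l 16777184))) (l 2)) (l 2)) (l 2)) (b (a (b (a (c (a (l 16730328) (l 16723784)) (l 16768664)) (a (l 16738000) (l 2))) (a (a (c (l 16725520) (l 16725280)) (c (l 16718328) (l 16717920))) (a (l 16732072) (l 16725600)))) (a (b (l 2) (c (l 16717136) (l 16694832))) (l 2))) (a (a (b (c (b (l 16738984) (l 16715400)) (a (l 16720296) (l 16712640))) (a (b (l 16716432) (l 16713608)) (b (l 16708832) (l 16705920)))) (b (c (a (l 16705800) (l 16698832)) (l 16722640)) (c (a (l 16699912) (l 16692600)) (a (l 16699464) (l 16691992))))) (b (a (a (l 16712696) (l 16706408)) (c (l 16677376) (l 16675720))) (a (c (b (l 16683928) (l 16680512)) (l 16681312)) (a (l 16703376) (l 16686784)))))))), by decide +kernel⟩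

def k60_pm_012_s : ∃ t, chk3 f_pm_012_s t 80 24 1 = true :=
  ⟨(b (a (l 3) (a (l 3) (b (l 3) (c (b (c (a (l 3) (b (l 3) (l 174650819239))) (l 200420621687)) (a (b (l 3) (l 153712854087)) (a (a (l 94120183015) (l 16777840)) (l 16776440)))) (b (l 171966466679) (l 78550929223)))))) (a (b (l 3) (a (l 3) (c (b (a (l 3) (c (l 139217339719) (l 131701146695))) (c (a (l 119353115975) (l 16776312)) (l 66739767639))) (b (l 152102242791) (l 16779336))))) (c (b (b (a (a (l 3) (c (l 175724559943) (l 160155305015))) (a (b (l 50096768391) (l 16776360)) (l 16775536))) (c (a (a (l 156397208855) (l 16777888)) (l 16774952)) (a (a (l 145659790471) (l 16776544)) (l 16774840)))) (b (a (a (l 16778408) (l 16775352)) (l 16776304)) (a (l 16775984) (l 16772456)))) (b (a (b (l 164450273831) (l 72645348999)) (c (l 16775368) (l 16775288))) (a (c (l 16775152) (l 16775072)) (l 16772712)))))), by decide +kernel⟩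

def k61_pm_012_s : ∃ t, chk3 f_pm_012_s t 81 24 1 = true :=
  ⟨(c (b (b (a (a (c (b (a (l 3) (a (l 3) (b (l 3) (l 147270402615)))) (a (b (l 3) (l 186461978327)) (a (b (l 148881015271) (l 16776784)) (l 16777800)))) (b (l 207399943671) (a (l 183240754279) (l 16776728)))) (a (b (c (a (b (a (l 199346880871) (l 109152567847)) (l 16776760)) (b (l 16776744) (l 16776168))) (l 16776704)) (c (l 16776592) (l 16775528))) (c (b (a (l 16776840) (l 16776560)) (l 16774416)) (l 16777496)))) (c (b (a (a (l 16775648) (l 16774416)) (c (l 16772592) (l 16771168))) (a (l 16774552) (l 16770112))) (a (c (l 16775632) (l 16772920)) (l 16773048)))) (a (a (a (b (a (b (l 134922371879) (l 16776760)) (l 16778032)) (l 16776888)) (c (b (l 16775632) (l 16774472)) (l 16774944))) (c (c (b (l 16776528) (l 16772768)) (l 16775864)) (l 16775720))) (a (b (l 16773616) (l 16770160)) (c (l 16773672) (l 16768104))))) (a (b (a (c (c (l 16775968) (l 16775872)) (l 16773104)) (c (l 16773592) (l 16770688))) (a (c (l 16776168) (l 16770640)) (l 16771056)))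 (a (b (l 16771688) (l 16766048)) (b (l 16765976) (l 16763656))))) (a (b (b (a (b (l 174650822071) (l 74255962407)) (a (l 16779960) (l 16774712))) (a (c (l 16778072) (l 16775376)) (l 16778080))) (b (a (l 16772848) (l 16770304)) (a (l 16770264) (l 16767776)))) (b (b (a (l 16775984) (l 16775320)) (a (l 16770232) (l 16767656))) (b (a (l 16767760) (l 16765248)) (l 16764048))))), by decide +kernel⟩

def k62_pm_012_s : ∃ t, chk3 f_pm_012_s t 40 25 1 = true :=
  ⟨(a (b (a (b (c (a (b (a (l 222969199943) (c (l 98952021367) (l 16777080))) (c (a (l 76940313975) (l 16775936)) (l 16778360))) (c (b (l 16775624) (l 16774392)) (l 16777528))) (a (b (l 131164277383) (l 16778968)) (b (l 16775440) (l 16774088)))) (b (a (c (c (l 16775208) (l 16775120)) (l 16774992)) (c (l 16775680) (l 16772728))) (a (c (l 16775792) (l 16773576)) (c (l 16771720) (l 16771320))))) (a (c (b (a (l 16775968) (l 16777496)) (b (l 16770912) (l 16769576))) (b (l 16772440) (l 16769736))) (b (c (b (l 16771216) (l 16769960)) (l 16770072)) (c (l 16773288)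 (l 16767392))))) (b (a (a (c (b (l 16777600) (l 16770768)) (l 16773856)) (c (b (l 16770240) (l 16773848)) (l 16768976))) (a (b (l 16770392) (l 16766104)) (b (l 16765512) (l 16763848)))) (a (c (a (b (l 16774320) (l 16767264)) (l 16767592)) (a (l 16767792) (l 16765464))) (a (b (l 16764328) (l 16762448)) (b (l 16762048) (l 16760152)))))) (a (b (c (b (a (l 16773560) (l 16766000)) (a (l 16765792) (l 16763504))) (b (a (l 16767664) (l 16765224)) (l 16763832))) (b (a (c (l 16762848) (l 16762040)) (b (l 16760928) (l 16761904))) (b (a (l 16759768) (a (l 16758056) (l 16756928))) (c (a (l 16753008) (l 16756000)) (l 16756344))))) (b (b (c (a (l 16763648) (l 16761304)) (l 16761592)) (a (c (l 16761184) (l 16760264)) (b (l 16762920) (l 16761648)))) (b (a (b (l 16761224) (l 16759624)) (l 16760688)) (c (l 16757480) (l 16752600)))))), by decide +kernel⟩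

def k63_pm_012_s : ∃ t, chk3 f_pm_012_s t 40 13 1 = true :=
  ⟨(b (a (b (a (a (b (b (l 16766456) (l 16763144)) (c (b (l 16761232) (l 16759024)) (l 16759872))) (b (c (b (l 16763072) (l 16761016)) (l 16761608)) (c (b (l 16758864) (l 16756616)) (l 16757432)))) (b (a (c (b (l 16760784) (l 16758696)) (l 16759232)) (c (b (l 16758496) (l 16759000)) (l 16756856))) (c (a (b (l 16756504) (l 16754232)) (b (l 16754168) (l 16751848))) (a (a (l 16755608) (l 16754408)) (l 16752592))))) (a (b (c (a (b (l 16756720) (l 16759576)) (b (l 16756912) (l 16751864))) (a (b (l 16756576) (l 16754288)) (b (l 16754104) (l 16751792)))) (a (b (b (l 16757704) (l 16751248)) (l 16754696)) (b (l 16751960) (l 16746912)))) (c (b (c (l 16760032) (l 16749336)) (b (l 16745648) (l 16743120))) (c (b (l 16749248) (l 16744408)) (l 16752176))))) (c (b (a (b (a (b (l 16761464) (l 16754064)) (l 16763328)) (c (l 16760152) (l 16749304))) (b (l 16750672) (c (l 16744992) (l 16744560)))) (b (a (b (l 16745840) (l 16743320)) (l 16745032)) (a (l 16744688)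 (l 16739800)))) (b (a (b (b (l 16754360) (l 16752256)) (l 16748976)) (b (l 16748544) (l 16744160))) (b (a (l 16744352) (l 16739480)) (b (l 16738264) (l 16735824)))))) (b (a (b (c (a (l 16755032) (l 16749920)) (b (a (l 16746008) (l 16740928)) (l 16741160))) (c (a (l 16750400) (l 16734712)) (a (l 16740352) (l 16724720)))) (b (c (a (l 16734384) (l 16729392)) (a (l 16718992) (l 16708760))) (c (a (l 16729544) (l 16724464)) (a (l 16709120) (l 16704072))))) (a (b (c (a (l 16735352) (l 16740592)) (a (l 16735896) (l 16730728))) (c (a (l 16730736) (l 16725552)) (l 16728832))) (c (b (a (l 16724912) (l 16719768)) (a (l 16720376) (b (l 16716336) (l 16714096)))) (b (a (l 16725608) (l 16720528)) (a (l 16721200) (l 16716112))))))), by decide +kernel⟩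

def k64_pm_012_s : ∃ t, chk3 f_pm_012_s t 82 12 1 = true :=
  ⟨(b (a (a (b (c (b (b (c (l 16771328) (l 16768456)) (l 16770080)) (l 16768408)) (b (l 16767496) (l 16765136))) (b (c (l 16763544) (l 16762784)) (c (l 16761280) (l 16760424)))) (b (c (b (c (l 16768264) (l 16765376)) (l 16765952)) (b (l 16764976) (l 16762672))) (b (b (l 16761320) (l 16760208)) (c (b (l 16759456) (l 16758328)) (l 16758000))))) (b (c (a (b (c (l 16765800) (l 16762928)) (c (l 16763720) (l 16760776))) (b (c (b (l 16761336) (l 16760288)) (l 16760552)) (a (c (l 16759328) (l 16758992)) (l 16763112)))) (a (b (l 16762528) (l 16760272)) (b (l 16760144) (l 16757808)))) (b (a (c (a (l 16759352) (l 16763400)) (l 16757944)) (c (l 16756128) (l 16755264))) (c (a (l 16756376) (l 16753720)) (l 16759336))))) (a (b (b (c (a (b (l 16759520) (l 16758352)) (l 16756496)) (a (l 16757992) (l 16755496))) (c (b (l 16761128) (l 16754568)) (l 16759224))) (b (a (l 16763504) (l 16750544)) (c (l 16748848) (l 16747776)))) (b (b (c (l 16752608) (l 16751176))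 (c (l 16750112) (l 16748264))) (b (l 16756872) (l 16753864))))), by decide +kernel⟩

def k65_pm_012_s : ∃ t, chk3 f_pm_012_s t 83 12 1 = true :=
  ⟨(a (b (b (a (b (c (b (a (c (l 16764824) (l 16759360)) (l 16758056)) (l 16757552)) (l 16757592)) (c (l 16755744) (l 16754976))) (c (b (l 16757808) (l 16752816)) (l 16759160))) (c (a (l 16759056) (l 16757112)) (b (l 16750856) (l 16748016)))) (b (b (c (l 16746984) (l 16745152)) (l 16755216)) (b (l 16747000) (a (l 16739152) (l 16736216))))) (b (b (b (a (c (a (l 16752824) (c (a (l 16751680) (l 16750744)) (l 16750864))) (a (l 16752176) (l 16750376))) (a (c (a (a (l 16752384) (a (l 16749240) (c (l 16749712) (l 16748616)))) (l 16748408)) (c (l 16754752) (l 16753408))) (l 16749904))) (a (a (l 16755312) (a (l 16753992) (a (l 16753280) (l 16752768)))) (a (a (a (l 16752184) (c (c (l 16752336) (l 16746488)) (l 16745592))) (l 16750800)) (l 16744864)))) (a (a (c (l 16752184) (l 16745488)) (c (b (l 16751632) (l 16744040)) (l 16751488))) (c (a (a (a (l 16749280) (b (l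 16744520) (l 16742232))) (l 16745408)) (l 16742008)) (a (a (a (l 16742328) (l 16746816)) (l 16740960)) (l 16740344))))) (a (a (b (b (l 16742328) (l 16739688)) (b (l 16736920) (l 16733960))) (b (b (l 16745824) (l 16740600)) (b (c (l 16736648) (l 16733736)) (c (l 16733784) (l 16720240))))) (a (a (a (b (b (l 16739400) (l 16736832)) (b (l 16734136) (l 16731264))) (b (b (l 16738744) (l 16738832)) (b (l 16736176) (c (l 16732304) (l 16729096))))) (b (b (c (l 16739344) (l 16736912)) (l 16746128)) (b (c (l 16734496) (l 16731392)) (l 16730176)))) (b (b (l 16747936) (c (l 16736208) (l 16733568))) (b (c (l 16733672) (l 16730752)) (l 16729424))))))), by decide +kernel⟩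

def k66_pm_012_s : ∃ t, chk3 f_pm_012_s t 41 26 1 = true :=
  ⟨(b (b (a (a (c (l 16744712) (l 16743776)) (c (l 16739952) (l 16738920))) (a (a (l 16735712) (l 16733104)) (a (a (l 16730864) (c (l 16730648) (l 16727632))) (a (a (a (l 16728240) (a (l 16738544) (c (c (l 16737880) (l 16729040)) (l 16737184)))) (b (l 16728336) (l 16727944))) (l 16740480))))) (a (a (c (l 16740040) (l 16739352)) (c (l 16735304) (l 16734520))) (a (c (l 16735768) (l 16729672)) (a (a (l 16726952) (a (l 16726016) (c (l 16725976) (l 16724280)))) (a (a (a (c (l 16730944) (l 16724328)) (a (c (l 16725776) (l 16724800)) (c (l 16725960) (l 16724936)))) (c (l 16725768) (l 16724712))) (l 16724328)))))) (b (a (a (c (b (l 16736304) (l 16733696)) (l 16734632)) (c (b (l 16731536) (l 16728912)) (l 16729792))) (a (c (a (l 16726656) (l 16724256)) (l 16724944)) (a (c (a (l 16722456) (c (a (l 16721920) (l 16721584)) (a (l 16721432) (l 16721072)))) (a (l 16721920) (a (l 16721080) (l 16720672)))) (c (a (a (a (l 16721200) (c (l 16732064) (l 16720984)))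 (l 16721040)) (l 16720208)) (a (c (l 16722968) (l 16720144)) (l 16719312)))))) (a (c (a (l 16732320) (b (l 16726208) (l 16723512))) (a (l 16729696) (l 16724824))) (a (a (c (l 16721264) (l 16721184)) (c (b (l 16720208) (a (l 16718088) (l 16716920))) (b (l 16720008) (l 16717512)))) (a (c (a (b (l 16718504) (l 16715912)) (l 16716416)) (a (b (l 16718256) (l 16715816)) (l 16716080))) (a (a (a (c (l 16715976) (l 16715480)) (c (l 16736848) (l 16694280))) (l 16715096)) (l 16714256))))))), by decide +kernel⟩

def k67_pm_012_s : ∃ t, chk3 f_pm_012_s t 82 27 1 = true :=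
  ⟨(b (a (c (b (l 16724456) (l 16719440)) (b (l 16724792) (l 16720048))) (b (c (a (l 16720776) (l 16718336)) (l 16719888)) (b (c (l 16715720) (l 16716280)) (a (l 16693712) (c (l 16711992) (l 16712688)))))) (a (b (c (b (l 16715824) (l 16713480)) (l 16715472)) (c (a (b (l 16712472) (l 16710216)) (b (l 16709896) (l 16707584))) (a (l 16712304) (b (l 16710856) (l 16708528))))) (b (c (a (b (l 16712048) (a (l 16710304) (l 16709032))) (b (l 16720032) (l 16707112))) (a (b (l 16712856) (l 16710544)) (b (c (l 16710016) (l 16710672)) (l 16707848)))) (c (a (b (l 16707288) (l 16704880)) (l 16703400)) (a (b (l 16708160) (l 16705632)) (l 16703984)))))), by decide +kernel⟩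

def k68_pm_012_s : ∃ t, chk3 f_pm_012_s t 83 27 1 = true :=
  ⟨(a (b (a (b (c (b (l 16717224) (l 16714608)) (l 16716224)) (c (b (a (l 16712656) (l 16711464)) (l 16709568)) (b (a (l 16713208) (l 16711968)) (l 16710144)))) (b (a (c (b (l 16715424) (l 16712848)) (b (l 16715632) (l 16713192))) (c (l 16723536) (l 16713232))) (c (l 16708472) (l 16708784)))) (c (b (a (l 16705800) (l 16703264)) (a (l 16700704) (l 16697984))) (b (c (l 16725672) (l 16705152)) (a (l 16701024) (l 16697976))))) (a (a (b (b (c (l 16712032) (l 16712056)) (l 16706624)) (b (l 16701184) (l 16695632))) (b (b (c (l 16711032) (l 16710840)) (c (l 16705544) (l 16705352))) (a (b (l 16700112) (l 16704944)) (c (b (l 16699664) (l 16694064)) (l 16717296))))) (a (a (a (b (b (l 16710112) (l 16704472)) (c (b (l 16699120) (l 16693456)) (l 16706056))) (a (b (b (l 16709888) (l 16704168)) (b (c (l 16698816) (l 16698112)) (c (l 16693096) (l 16692088)))) (b (b (l 16720216) (c (l 16704360) (l 16703720))) (b (b (l 16710032) (c (l 16697144) (l 16696256)))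 (c (c (c (l 16693440) (l 16693016)) (l 16692464)) (l 16691688)))))) (b (b (l 16709360) (l 16703528)) (b (c (l 16698176) (l 16697296)) (c (c (l 16692800) (l 16692016)) (l 16691184))))) (b (b (l 16708512) (l 16702664)) (b (c (l 16697304) (l 16696392)) (c (l 16691496) (l 16690264))))))), by decide +kernel⟩

def k69_pm_012_s : ∃ t, chk3 f_pm_012_s t 21 12 1 = true :=
  ⟨(b (b (a (a (c (b (c (l 16748288) (l 16742960)) (l 16749248)) (c (l 16753352) (l 16751728))) (c (b (l 16734792) (l 16732352)) (l 16739208))) (c (b (l 16727800) (l 16727768)) (a (l 16725152) (l 16738016)))) (a (a (c (c (l 16746672) (l 16747584)) (l 16748376)) (c (c (l 16739224) (l 16739256)) (l 16738936))) (c (b (l 16729104) (l 16730496)) (a (l 16720136) (l 16711872))))) (a (a (b (c (b (l 16733768) (l 16731360)) (b (l 16732528) (l 16729784))) (c (b (l 16728752) (l 16725840)) (l 16730984))) (b (b (l 16735736) (l 16733272)) (b (l 16730456) (l 16724728)))) (a (b (b (l 16716784) (l 16735408)) (c (l 16722928) (l 16710288))) (b (c (l 16717256)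 (l 16707144)) (c (l 16722104) (l 16701784)))))), by decide +kernel⟩

def k70_pm_012_s : ∃ t, chk3 f_pm_012_s t 21 13 1 = true :=
  ⟨(b (b (b (a (c (a (c (l 16734088) (l 16722968)) (l 16724520)) (b (l 16728664) (l 16727784))) (c (b (l 16701080) (l 16720400)) (l 16721784))) (a (a (a (a (l 16733160) (l 16720464)) (l 16717176)) (l 16718408)) (a (l 16712160) (l 16692792)))) (a (c (b (a (c (l 16715576) (l 16715008)) (a (l 16708688) (l 16704304))) (a (l 16730728) (l 16701112))) (b (a (l 16714392) (l 16684728)) (a (l 16729920) (l 16700248)))) (a (b (l 16697424) (c (l 16692504) (l 16691688))) (b (l 16688704) (l 16696744))))) (b (c (a (a (b (l 16724904) (a (l 16700288) (l 16695808))) (b (l 16695216) (l 16710192))) (b (a (l 16686736) (l 16678296)) (a (l 16680656) (l 16672328)))) (a (a (b (l 16724112) (a (l 16699472) (l 16694856))) (b (l 16694248) (l 16688088))) (a (b (l 16685696) (l 16679352)) (b (l 16677288) (l 16670952))))) (a (a (c (b (b (l 16714584) (c (l 16691056) (l 16690304))) (c (a (l 16688992) (l 16684376))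 (a (l 16688160) (l 16683480)))) (b (a (l 16693400) (l 16688688)) (a (l 16687224) (l 16682416)))) (b (c (a (l 16685376) (l 16680968)) (l 16702760)) (c (c (b (l 16679088) (l 16676104)) (l 16676624)) (a (l 16677704) (l 16673072))))) (a (b (c (l 16695456) (l 16672872)) (c (c (l 16668800) (l 16667752)) (l 16666288))) (c (b (l 16666056) (c (l 16660272) (l 16659176))) (b (l 16664288) (l 16657528))))))), by decide +kernel⟩

def k71_pm_012_s : ∃ t, chk3 f_pm_012_s t 11 12 1 = true :=
  ⟨(a (b (a (b (b (a (l 16710752) (l 16702976)) (b (l 16715208) (l 16703320))) (c (b (l 16700896) (l 16698072)) (l 16699664))) (b (c (a (l 16693656) (l 16686184)) (l 16710592)) (c (l 16678320) (l 16704824)))) (b (a (c (b (l 16695296) (l 16692584)) (l 16694688)) (c (l 16687952) (l 16678528))) (a (c (b (l 16689624) (l 16686168)) (l 16689152)) (c (l 16691752) (l 16672608))))) (b (a (b (c (a (l 16678904) (l 16671792)) (l 16695672)) (c (c (l 16667768) (l 16668840)) (l 16668688))) (b (c (l 16693136) (l 16660784)) (c (b (l 16656024)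 (l 16652288)) (l 16654136)))) (b (a (c (l 16661664) (l 16662984)) (c (l 16646696) (l 16648144))) (a (a (l 16660120) (l 16652232)) (a (l 16644520) (l 16616024)))))), by decide +kernel⟩

def k72_pm_012_s : ∃ t, chk3 f_pm_012_s t 11 13 1 = true :=
  ⟨(a (b (b (b (a (c (l 16703224) (l 16683648)) (c (l 16664608) (l 16666848))) (a (c (l 16699600) (l 16679736)) (c (l 16681344) (l 16662560)))) (a (a (a (l 16679760) (l 16675424)) (a (l 16671080) (l 16666736))) (a (a (l 16662384) (l 16658040)) (b (l 16653688) (l 16649224))))) (b (b (a (a (l 16669528) (l 16661112)) (c (l 16658728) (l 16648016))) (a (a (c (l 16664048) (l 16662688)) (l 16655288)) (a (l 16647032) (l 16638728)))) (a (a (c (b (l 16657888) (l 16651448)) (b (l 16656032) (l 16649096))) (c (a (l 16669600) (l 16644608)) (l 16665456))) (c (a (b (l 16641640) (l 16635448)) (l 16630480)) (a (l 16657384) (l 16628512)))))) (b (b (a (c (b (l 16647496) (l 16642616)) (c (l 16689968) (l 16669120))) (c (l 16628376) (b (l 16634848) (l 16629864)))) (a (c (b (l 16638680)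 (l 16634976)) (c (l 16680832) (l 16659704))) (c (b (l 16620760) (l 16617112)) (c (l 16664080) (l 16653680))))) (a (a (b (c (l 16632744) (l 16632640)) (c (l 16622264) (l 16620472))) (b (c (l 16624040) (l 16624304)) (c (l 16613992) (l 16612416)))) (c (b (c (l 16630920) (l 16611680)) (c (l 16601184) (l 16601512))) (b (a (l 16616056) (l 16607872)) (a (l 16604352) (l 16596272))))))), by decide +kernel⟩

def k73_pm_012_s : ∃ t, chk3 f_pm_012_s t 40 14 2 = true :=
  ⟨(b (b (a (b (a (l 16726072) (l 16720944)) (b (l 16698872) (l 16696248))) (b (a (l 16715824) (b (l 16711832) (a (l 16710824) (l 16708192)))) (a (a (l 16691232) (b (l 16710952) (l 16708248))) (a (b (l 16708320) (l 16705464)) (l 16704128))))) (a (a (b (l 16715504) (b (l 16689920) (l 16689048))) (b (b (l 16690944) (b (l 16688712) (l 16687096))) (b (l 16705440) (l 16701704)))) (b (a (b (a (l 16707992) (l 16705184)) (l 16703272)) (l 16709752)) (a (l 16708352) (b (l 16693984) (l 16690208)))))) (b (a (b (a (l 16711920) (l 16706192)) (a (b (l 16695016)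 (l 16690584)) (b (l 16689304) (l 16684856)))) (b (a (l 16700448) (b (l 16686240) (l 16682096))) (a (b (l 16683568) (l 16679136)) (b (l 16677792) (l 16673368))))) (a (b (a (b (l 16686272) (l 16682208)) (b (l 16680520) (l 16676400))) (a (b (l 16678352) (l 16674688)) (b (l 16672504) (l 16668808)))) (b (a (b (c (l 16675320) (l 16674272)) (l 16670640)) (b (c (l 16669688) (l 16668416)) (c (l 16665616) (l 16664176)))) (c (a (b (l 16667384) (l 16663712)) (b (l 16661728) (l 16658008))) (a (l 16664088) (b (l 16660120) (l 16656256)))))))), by decide +kernel⟩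

def k74_pm_012_s : ∃ t, chk3 f_pm_012_s t 40 14 3 = true :=
  ⟨(b (a (b (b (a (l 16726816) (l 16721784)) (l 16708928)) (a (b (l 16716336) (b (l 16711672) (l 16707992))) (b (b (l 16712856) (a (l 16711128) (l 16708360))) (b (l 16706056) (l 16702016))))) (b (b (a (l 16716760) (b (l 16712840) (a (l 16711864) (l 16709200)))) (a (b (l 16713232) (a (l 16711904) (l 16709224))) (b (a (l 16709320) (l 16706416)) (l 16696920)))) (b (a (b (a (l 16708904) (l 16705936)) (l 16682872)) (c (l 16699448) (l 16720784))) (a (b (l 16700008) (l 16695928)) (c (l 16691848) (l 16691880)))))) (b (a (b (a (b (l 16703776) (l 16699304)) (l 16706000)) (a (l 16702688) (b (l 16688576) (l 16683752)))) (b (a (b (l 16691632) (l 16687136)) (b (l 16685448) (l 16680928))) (a (b (l 16682448) (l 16677632)) (b (l 16676232) (l 16671416))))) (a (b (a (l 16693440) (b (l 16679056) (l 16674600))) (a (b (l 16676672) (l 16672752)) (b (l 16670400) (l 16666424)))) (b (a (b (l 16672904) (l 16668408)) (b (l 16666696) (l 16662176))) (a (b (l 16664128)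 (l 16660096)) (b (l 16657856) (c (l 16654560) (l 16652920)))))))), by decide +kernel⟩

def k75_pm_012_s : ∃ t, chk3 f_pm_012_s t 82 14 1 = true :=
  ⟨(b (b (a (b (c (b (a (l 16707920) (l 16705192)) (l 16704056)) (a (b (l 16708904) (l 16706296)) (c (l 16704408) (l 16705016)))) (c (l 16710384) (a (l 16712344) (l 16698808)))) (b (c (l 16710240) (b (l 16701504) (l 16698744))) (c (l 16715168) (l 16704632)))) (b (c (a (c (l 16693672) (l 16693440)) (l 16698224)) (a (c (l 16693392) (l 16693536)) (l 16697608))) (a (c (b (l 16688200) (l 16684400)) (c (l 16685712) (l 16685504))) (c (c (l 16680864) (l 16680080)) (c (l 16679432) (l 16678936)))))) (b (b (a (c (b (l 16680416) (l 16676264)) (c (l 16677208) (l 16676608))) (c (b (l 16674512) (l 16670336)) (c (l 16670864) (l 16669952)))) (a (c (b (l 16671952) (l 16667536)) (b (l 16669896) (l 16665064))) (c (b (l 16666024) (l 16661600)) (b (l 16663360) (l 16658512))))) (b (a (c (b (l 16663224) (c (l 16659944) (l 16658256))) (b (l 16660344) (l 16655832))) (c (b (l 16657288)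 (l 16663656)) (b (l 16653776) (l 16654504)))) (a (c (b (c (l 16656048) (l 16654184)) (c (l 16652320) (l 16650296))) (b (a (l 16653104) (l 16649880)) (a (l 16648944) (l 16645720)))) (a (c (b (l 16650728) (l 16646904)) (b (l 16646624) (l 16642440))) (c (b (l 16647728) (l 16643912)) (b (l 16643264) (l 16639072)))))))), by decide +kernel⟩

def k76_pm_012_s : ∃ t, chk3 f_pm_012_s t 83 28 1 = true :=
  ⟨(a (b (c (b (a (l 16695536) (l 16692664)) (a (l 16689872) (l 16686896))) (b (a (l 16695520) (l 16692296)) (a (l 16689384) (l 16686040)))) (b (c (a (l 16683320) (l 16680280)) (a (l 16682240) (l 16678800))) (c (a (l 16675968) (l 16672864)) (a (l 16674192) (l 16670664))))) (a (a (b (b (l 16700488) (l 16683904)) (b (l 16676920) (l 16669096))) (b (c (b (c (l 16689248) (l 16688552)) (c (l 16683392) (l 16682464))) (b (l 16687864) (l 16681368))) (c (b (c (l 16676792) (l 16675576)) (c (l 16669432) (l 16667880))) (b (l 16673976) (l 16665696))))) (b (c (a (a (a (b (l 16687784) (l 16681768)) (a (b (l 16687384) (l 16681328))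 (b (b (l 16688512) (l 16685608)) (b (l 16682584) (l 16679352))))) (b (l 16686616) (l 16680512))) (b (l 16685704) (l 16679592))) (a (a (a (b (l 16686504) (l 16679944)) (a (b (l 16685952) (l 16679344)) (b (c (l 16685832) (l 16685216)) (c (l 16679344) (l 16678408))))) (b (l 16684984) (l 16678312))) (b (l 16684048) (l 16677368)))) (c (a (a (a (b (l 16674968) (l 16667392)) (a (b (l 16674496) (l 16666888)) (b (b (l 16675920) (l 16672288)) (b (l 16668472) (l 16674960))))) (b (l 16673640) (l 16666000))) (b (l 16672728) (l 16665096))) (a (a (a (b (l 16672472) (l 16664136)) (a (b (l 16671832) (l 16663456)) (b (c (l 16671984) (l 16670664)) (b (l 16665088) (l 16660688))))) (b (l 16670752) (l 16662336))) (b (l 16669816) (l 16661408))))))), by decide +kernel⟩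

def k77_pm_012_s : ∃ t, chk3 f_pm_012_s t 166 29 1 = true :=
  ⟨(b (b (c (a (l 16667912) (l 16664760)) (a (l 16665344) (l 16661760))) (c (a (l 16659240) (l 16656056)) (a (l 16655816) (l 16652184)))) (b (c (a (l 16650640) (l 16647440)) (a (l 16656848) (l 16653184))) (c (a (b (l 16644664) (l 16640856)) (b (l 16641464) (l 16637664))) (a (b (l 16639792) (l 16635616)) (b (l 16636112) (l 16631928)))))), by decide +kernel⟩

def k78_pm_012_s : ∃ t, chk3 f_pm_012_s t 334 29 1 = true :=
  ⟨(b (c (b (a (l 16662288) (c (l 16661416) (l 16659480))) (a (l 16653552) (c (a (l 16653336) (l 16652384)) (l 16650496)))) (b (a (l 16658880) (l 16656664)) (a (l 16649264) (c (l 16648152) (l 16645816))))) (c (a (b (l 16644912) (l 16637000)) (b (c (a (l 16644880) (l 16643912)) (l 16641616)) (c (l 16647104) (l 16633496)))) (a (b (l 16639744) (l 16631024)) (b (c (l 16638832) (l 16636016)) (c (l 16630304) (l 16627040)))))), by decide +kernel⟩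

def k79_pm_012_s : ∃ t, chk3 f_pm_012_s t 670 29 1 = true :=
  ⟨(b (a (a (b (c (l 16659152) (l 16655048)) (c (l 16650336) (l 16645328))) (a (b (c (l 16658616) (l 16654344)) (c (b (l 16652048) (l 16647544)) (b (l 16647096) (l 16642136)))) (b (c (a (a (l 16658304) (b (l 16660272) (l 16655976))) (l 16658024)) (b (l 16656120) (c (l 16652544) (l 16650216)))) (c (a (a (b (l 16651720) (l 16647216)) (b (l 16651544) (c (l 16648408) (l 16645640)))) (b (l 16651432) (l 16646912))) (b (c (l 16647784) (l 16645216)) (a (a (l 16641680) (l 16641424)) (l 16641272))))))) (b (c (b (l 16659832) (l 16655536)) (b (l 16655536) (l 16650800))) (c (b (l 16651104) (l 16646592)) (b (l 16645912) (l 16640936))))) (a (a (b (c (l 16641632) (l 16635736)) (c (l 16633680) (l 16626960))) (a (b (c (b (l 16643168) (l 16639008)) (b (l 16637312) (l 16632720))) (c (b (l 16635032) (l 16631208)) (b (l 16628328) (l 16624104)))) (a (a (b (c (b (l 16642832) (l 16638664)) (b (l 16636848) (l 16632248))) (c (b (l 16634672) (l 16630848)) (b (l 16627848)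 (l 16623624)))) (b (c (b (c (l 16644128) (l 16641152)) (c (l 16640048) (l 16636880))) (b (c (l 16638120) (l 16635032)) (c (l 16633632) (l 16630312)))) (c (b (l 16644968) (l 16630648)) (b (l 16627576) (l 16623352))))) (b (c (b (l 16642528) (l 16638352)) (b (l 16636432) (l 16631824))) (c (b (l 16634360) (l 16630528)) (b (l 16627424) (l 16623192))))))) (b (c (b (l 16642208) (l 16638032)) (b (c (l 16637648) (l 16634536)) (c (l 16633160) (l 16629816)))) (c (b (l 16634048) (l 16630216)) (c (b (l 16628872) (l 16624744)) (b (l 16625304) (l 16620960))))))), by decide +kernel⟩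

def k80_pm_012_s : ∃ t, chk3 f_pm_012_s t 671 29 1 = true :=
  ⟨(b (b (c (l 16656808) (l 16652264)) (c (b (l 16650224) (l 16645712)) (b (l 16645000) (l 16640032)))) (b (c (b (l 16641336) (l 16637168)) (b (l 16635200) (l 16630600))) (c (b (l 16633184) (l 16629360)) (b (l 16626208) (l 16621992))))), by decide +kernel⟩

def k81_pm_012_s : ∃ t, chk3 f_pm_012_s t 21 28 1 = true :=
  ⟨(c (b (a (a (b (c (a (l 16683240) (l 16678536)) (b (l 16681320) (l 16678296))) (c (a (l 16677208) (l 16672432)) (a (l 16675936) (l 16671096)))) (b (c (a (l 16673904) (l 16669360)) (b (l 16672000) (l 16668880))) (a (l 16677472) (l 16662328)))) (b (a (c (l 16662680) (l 16661408)) (c (l 16654024) (l 16652688))) (a (c (l 16666744) (l 16654736)) (c (l 16647456) (l 16645848))))) (a (a (b (a (c (l 16670512) (l 16668928)) (b (l 16666656) (l 16663064))) (c (a (l 16663080) (l 16658336)) (b (l 16660752) (l 16656688)))) (b (c (a (l 16660936) (l 16656240)) (a (l 16659232) (l 16654480))) (a (c (l 16653600) (l 16651536)) (b (l 16649752)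 (l 16645848))))) (b (a (c (a (l 16651576) (l 16647016)) (l 16668416)) (a (l 16641576) (l 16637152))) (a (c (b (l 16643776) (l 16639928)) (b (l 16641664) (l 16637632))) (c (b (l 16634664) (l 16630760)) (b (l 16632456) (l 16628360))))))) (b (a (a (b (c (b (l 16680464) (l 16677312)) (l 16678120)) (c (a (l 16674776) (l 16669864)) (l 16671224))) (b (c (l 16669384) (l 16668416)) (c (l 16662608) (l 16661344)))) (b (a (c (l 16660200) (l 16659048)) (l 16650688)) (a (c (l 16653256) (l 16651808)) (l 16643424)))) (a (b (a (c (a (l 16667424) (l 16662472)) (a (l 16665992) (l 16660960))) (c (l 16665648) (l 16653528))) (a (c (b (l 16658912) (l 16654648)) (b (l 16657120) (l 16652632))) (a (c (l 16649488) (l 16647448)) (b (l 16645720) (l 16641408))))) (b (a (c (l 16645632) (l 16643832)) (a (l 16637744) (l 16633200))) (a (c (l 16647936) (l 16635232)) (c (l 16628088) (l 16625728))))))), by decide +kernel⟩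

def k82_pm_012_s : ∃ t, chk3 f_pm_012_s t 21 58 1 = true :=
  ⟨(a (b (a (c (c (b (l 16654728) (l 16650568)) (b (l 16652472) (l 16648104))) (c (b (l 16650216) (l 16656112)) (b (l 16647968) (l 16643136)))) (c (c (b (l 16645336) (l 16643848)) (b (l 16642952) (l 16638632))) (c (b (l 16640544) (l 16636008)) (b (l 16638128) (l 16633344))))) (c (a (a (b (l 16652528) (c (l 16644216) (l 16641368))) (b (l 16647840) (c (l 16639584) (l 16636672)))) (c (b (a (l 16639304) (l 16634664)) (a (l 16634968) (l 16630360))) (b (a (l 16636528) (l 16631832)) (a (l 16631984) (l 16627312))))) (a (c (b (a (l 16643304) (l 16638496)) (a (l 16638472) (l 16633696))) (b (a (l 16640608) (l 16635720)) (a (l 16635536) (l 16630664)))) (a (b (l 16632288) (a (l 16628584) (l 16626192))) (b (l 16627480) (l 16622616)))))) (c (b (a (b (a (l 16637096) (l 16632408)) (c (l 16637176) (l 16629224))) (c (b (l 16637280) (a (l 16625000) (l 16620432))) (b (l 16624192) (l 16619904)))) (a (c (b (a (l 16630048) (l 16625440)) (a (l 16625768) (l 16621184)))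 (b (a (l 16627160) (l 16622496)) (a (l 16622664) (l 16618024)))) (c (b (a (l 16620848) (l 16616272)) (a (l 16616616) (l 16612064))) (b (a (l 16617856) (l 16613232)) (c (l 16611928) (l 16610288)))))) (b (a (a (c (l 16631112) (l 16628456)) (b (l 16627288) (l 16622688))) (a (l 16630072) (l 16615568))) (a (c (b (l 16621840) (l 16617128)) (b (l 16618792) (l 16613840))) (a (b (l 16613224) (l 16608424)) (b (l 16608520) (l 16603744))))))), by decide +kernel⟩

def k83_pm_012_s : ∃ t, chk3 f_pm_012_s t 42 59 1 = true :=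
  ⟨(a (c (b (c (b (a (l 16639952) (l 16635352)) (a (l 16635904) (l 16631328))) (b (a (l 16636896) (l 16632232)) (a (l 16632656) (l 16628008)))) (c (b (a (l 16632024) (l 16627480)) (a (l 16628312) (l 16623792))) (a (b (l 16628592) (l 16624696)) (b (l 16623984) (l 16620120))))) (b (c (a (b (l 16633784) (l 16629320)) (b (l 16629032) (l 16624600))) (b (a (l 16630600) (l 16625760)) (a (l 16625904) (l 16621104)))) (c (a (b (l 16625056) (l 16620960)) (b (l 16620368) (l 16616312))) (a (b (a (l 16622608) (l 16620224)) (c (l 16618088) (l 16616136))) (b (l 16616656) (l 16612392)))))) (c (b (c (a (b (l 16630760) (l 16626768)) (b (l 16626176) (l 16622208))) (b (a (l 16627568) (l 16622928)) (a (l 16623384) (l 16618768)))) (c (b (a (l 16622952) (l 16618424)) (l 16627528)) (a (b (l 16619384) (l 16615552)) (b (l 16614800) (l 16610992))))) (b (b (a (c (l 16624304) (l 16620952)) (l 16617888)) (a (c (l 16619904) (l 16616328)) (l 16613408))) (a (c (b (l 16615704) (l 16611680)) (b (l 16611912) (l 16607680))) (c (l 16609032)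 (l 16605072)))))), by decide +kernel⟩

def k84_pm_012_s : ∃ t, chk3 f_pm_012_s t 43 59 1 = true :=
  ⟨(c (a (b (c (a (b (l 16621608) (l 16617672)) (b (l 16617056) (l 16613144))) (b (a (l 16618304) (l 16613696)) (a (l 16614168) (l 16609584)))) (b (c (a (l 16613912) (l 16609408)) (a (l 16610224) (l 16605672))) (c (l 16613312) (l 16614680)))) (b (c (b (a (l 16612512) (l 16607984)) (a (l 16608624) (l 16604120))) (b (c (l 16607680) (l 16605936)) (c (l 16603664) (l 16601816)))) (c (b (a (l 16604920) (l 16600440)) (a (l 16601368) (l 16596920))) (b (c (l 16599832) (l 16597896)) (l 16605656))))) (b (a (c (a (l 16612696) (l 16608040)) (a (l 16609088) (l 16604368))) (c (a (l 16603408) (l 16598792)) (a (l 16599672) (l 16595000)))) (a (a (c (l 16604416) (l 16600384)) (c (l 16599816) (l 16595728))) (c (a (l 16595240) (l 16590680)) (a (l 16591096) (l 16586480)))))), by decide +kernel⟩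

def k85_pm_012_s : ∃ t, chk3 f_pm_012_s t 40 30 1 = true :=
  ⟨(b (a (b (b (a (c (l 16671192) (l 16669032)) (c (l 16665280) (l 16662648))) (a (c (l 16667824) (l 16665464)) (c (l 16661896) (l 16659040)))) (b (a (c (l 16664568) (l 16662024)) (c (l 16658624) (l 16655568))) (a (c (l 16661384) (l 16658688)) (c (l 16655432) (l 16652200))))) (b (a (c (b (c (l 16660216) (l 16658584)) (c (l 16656864) (l 16655120))) (b (l 16656256) (l 16652600))) (c (b (c (l 16654472) (l 16652584)) (c (l 16651096) (l 16649080))) (b (a (l 16651456) (l 16648232)) (a (l 16647752) (l 16644504))))) (a (c (c (b (l 16653624) (l 16650472)) (b (l 16651776) (l 16648528))) (b (l 16649088) (l 16645680))) (c (c (b (l 16647840) (l 16644672)) (b (l 16645712) (l 16642440))) (b (a (l 16644208) (l 16640928)) (a (l 16640768) (l 16637464))))))) (a (b (b (a (c (l 16658248) (l 16655408)) (c (l 16657544) (l 16648904))) (a (c (l 16655088) (l 16652120)) (c (l 16649152) (l 16645600)))) (a (c (c (l 16650904) (l 16649288)) (b (l 16648720) (l 16645176)))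 (c (c (l 16650376) (l 16643232)) (b (l 16642192) (l 16638648))))) (b (a (c (c (b (l 16647376) (l 16644264)) (b (l 16645352) (l 16642160))) (b (l 16642352) (l 16639032))) (c (c (b (l 16641568) (l 16638464)) (b (l 16639248) (l 16636048))) (b (a (l 16637416) (l 16634096)) (a (l 16634080) (l 16630744))))) (a (c (c (b (l 16641040) (l 16637680)) (b (l 16638864) (l 16635440))) (b (l 16635616) (l 16632064))) (c (c (b (l 16635248) (l 16631904)) (b (l 16632752) (l 16629336))) (b (l 16634864) (l 16635896))))))), by decide +kernel⟩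

def k86_pm_012_s : ∃ t, chk3 f_pm_012_s t 40 31 1 = true :=
  ⟨(b (a (b (a (c (c (l 16643744) (l 16642040)) (b (l 16641480) (l 16637616))) (c (b (l 16638896) (l 16635176)) (b (l 16634968) (l 16631128)))) (a (c (b (l 16637056) (l 16632864)) (b (l 16633600) (l 16629320))) (c (b (l 16631280) (l 16627224)) (b (l 16627120) (l 16622960))))) (b (a (c (c (b (l 16634176) (l 16630512)) (b (l 16631864) (l 16628144))) (b (l 16628384) (l 16624560))) (c (b (c (l 16628432) (l 16625784)) (c (l 16624808) (l 16622088))) (b (l 16621728) (l 16617904)))) (a (c (b (c (l 16626696) (l 16624272)) (c (l 16622712) (l 16620216))) (b (l 16620576) (l 16616432))) (c (b (c (l 16621032) (l 16618240)) (c (l 16617104) (l 16614240))) (b (l 16613944) (l 16609816)))))) (a (b (a (c (b (l 16628376) (l 16623504)) (b (l 16624728) (l 16619736))) (c (b (l 16622904) (l 16618288)) (b (l 16618528) (l 16613784)))) (a (c (b (l 16618264) (l 16612648)) (b (l 16614360) (l 16608584))) (c (b (l 16613288) (l 16607920)) (b (l 16608640) (l 16603104)))))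 (b (a (c (b (c (l 16618552) (l 16616008)) (l 16612840)) (b (l 16612120) (l 16607544))) (c (b (c (l 16613000) (l 16610064)) (c (l 16608728) (l 16605720))) (b (l 16605528) (a (l 16602720) (l 16599440))))) (a (c (b (l 16608096) (l 16602976)) (b (l 16602648) (l 16597352))) (c (b (c (l 16604200) (l 16601120)) (c (l 16599376) (l 16596216))) (b (a (l 16597976) (l 16594744)) (a (l 16592856) (l 16589760)))))))), by decide +kernel⟩

def k87_pm_012_s : ∃ t, chk3 f_pm_012_s t 82 30 1 = true :=
  ⟨(b (b (a (c (b (c (l 16648736) (l 16646568)) (c (l 16645328) (l 16643016))) (b (a (l 16644992) (l 16641728)) (a (l 16641232) (l 16637928)))) (c (b (c (l 16642968) (l 16640472)) (c (l 16639504) (l 16636864))) (b (a (l 16638416) (l 16635048)) (a (l 16634584) (l 16631176))))) (a (c (c (b (l 16642040) (l 16638856)) (b (l 16639608) (l 16636312))) (b (a (l 16637624) (l 16634296)) (a (l 16634144) (l 16630784)))) (c (b (c (l 16636192) (l 16633416)) (c (l 16632984) (l 16630080))) (b (a (l 16630920) (l 16627472)) (a (l 16627384)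 (l 16623904)))))) (b (a (c (b (c (l 16635744) (l 16633096)) (c (l 16632640) (l 16629880))) (b (a (l 16630752) (l 16627376)) (a (l 16627384) (l 16623984)))) (c (b (c (l 16629856) (l 16626832)) (c (l 16626728) (l 16623600))) (b (a (l 16623944) (l 16620448)) (a (l 16620536) (l 16617016))))) (a (c (c (b (l 16629424) (l 16626096)) (b (l 16626584) (l 16623160))) (b (a (l 16623928) (l 16620512)) (a (l 16620360) (l 16616936)))) (c (c (b (l 16623520) (l 16620192)) (b (l 16620288) (l 16616864))) (a (b (l 16617048) (l 16613456)) (b (l 16613512) (l 16609904))))))), by decide +kernel⟩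

def k88_pm_012_s : ∃ t, chk3 f_pm_012_s t 82 31 1 = true :=
  ⟨(b (b (a (c (b (c (l 16622640) (l 16619624)) (c (l 16619048) (l 16615944))) (b (a (l 16616672) (l 16613240)) (a (l 16612856) (l 16609424)))) (c (c (b (l 16616752) (l 16613184)) (b (l 16613320) (l 16609656))) (a (b (l 16609760) (l 16605936)) (b (l 16606192) (l 16602368))))) (a (c (b (c (l 16615312) (l 16612128)) (c (l 16611424) (l 16608160))) (b (a (l 16608896) (l 16605472)) (a (l 16604784) (l 16601368)))) (c (b (c (l 16609480) (l 16605864)) (c (l 16605632) (l 16601920))) (b (a (l 16601984) (l 16598416)) (a (l 16597888) (l 16594328)))))) (b (a (c (b (c (l 16607376) (l 16604032)) (c (l 16603160) (l 16599736))) (b (a (l 16600520) (l 16597112)) (a (l 16596080) (l 16592688)))) (c (b (c (l 16601632) (l 16597832)) (c (l 16597480) (l 16593592))) (b (a (l 16593648) (l 16590096)) (a (l 16589240) (l 16585704))))) (a (c (b (c (l 16598784) (l 16595272)) (c (l 16594144) (l 16590544))) (b (a (l 16591456) (l 16588112)) (a (l 16586568) (l 16583280))))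 (c (b (c (l 16593152) (l 16589168)) (c (l 16588664) (l 16584592))) (b (a (l 16584656) (l 16581144)) (a (l 16579896) (c (l 16578696) (l 16574120)))))))), by decide +kernel⟩

def k89_pm_012_s : ∃ t, chk3 f_pm_012_s t 166 15 1 = true :=
  ⟨(b (b (b (c (a (b (l 16637176) (l 16633616)) (b (l 16633976) (l 16630416))) (a (b (l 16631568) (l 16627664)) (b (l 16627872) (l 16623960)))) (c (a (b (l 16630200) (l 16626904)) (b (l 16626968) (l 16623648))) (a (b (l 16623928) (l 16620328)) (b (l 16620176) (l 16616544))))) (b (c (a (b (l 16623696) (l 16620504)) (b (l 16620424) (l 16617216))) (a (b (l 16616832) (l 16613376)) (b (l 16613024) (l 16609536)))) (c (a (b (l 16617232) (l 16613848)) (b (l 16613928) (l 16610544))) (a (b (l 16609856) (l 16606232)) (b (l 16605992) (l 16602352)))))) (b (b (c (a (b (l 16610360) (l 16606752)) (b (l 16607048) (l 16603448))) (a (b (l 16602512) (l 16598680)) (b (l 16598616) (l 16594776)))) (c (a (b (l 16603016) (l 16599152)) (b (l 16599720) (l 16595864))) (a (b (l 16594728) (l 16590640))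 (b (l 16590824) (l 16586736))))) (b (c (a (b (l 16595136) (l 16590976)) (b (l 16591864) (l 16587728))) (a (b (l 16586416) (l 16582040)) (b (l 16582520) (l 16578160)))) (c (a (b (l 16586648) (l 16582160)) (b (l 16583432) (l 16578968))) (a (b (l 16577504) (c (l 16575216) (l 16570312))) (b (c (l 16576176) (l 16571040)) (c (l 16571552) (l 16566296)))))))), by decide +kernel⟩

def k90_pm_012_s : ∃ t, chk3 f_pm_012_s t 167 30 1 = true :=
  ⟨(a (b (c (b (a (b (l 16631448) (l 16627872)) (c (b (l 16631184) (l 16627688)) (l 16625936))) (a (l 16622720) (c (l 16622616) (l 16618840)))) (b (a (l 16622904) (c (l 16622368) (l 16618688))) (a (l 16615304) (a (l 16613608) (l 16612304))))) (c (b (a (l 16616200) (c (l 16616200) (l 16612152))) (a (l 16609608) (c (l 16609704) (l 16605408)))) (b (a (l 16608184) (a (l 16606456) (l 16605128))) (a (l 16601048) (a (l 16599304) (l 16597960)))))) (b (c (a (a (a (b (b (l 16628112) (l 16624528)) (l 16619344)) (a (b (b (l 16627512) (l 16623928)) (l 16618728)) (b (b (c (l 16628856)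 (l 16630408)) (c (l 16625344) (l 16621488))) (b (c (l 16621920) (l 16617904)) (l 16616536))))) (b (b (l 16626512) (l 16622928)) (b (l 16619416) (l 16616016)))) (b (b (l 16625672) (l 16622088)) (l 16616872))) (a (a (a (b (l 16618800) (l 16611168)) (a (b (l 16618040) (l 16610368)) (b (a (a (b (l 16619544) (l 16615584)) (b (l 16619264) (l 16615312))) (b (l 16619112) (l 16615152))) (a (a (l 16609864) (b (l 16611448) (l 16607728))) (l 16609424))))) (b (b (c (l 16620768) (l 16616776)) (l 16614832)) (b (l 16610976) (l 16607240)))) (b (b (l 16617920) (l 16613968)) (b (l 16610112) (l 16606376))))) (c (a (a (a (b (l 16612752) (l 16606120)) (a (b (l 16612120) (l 16605480)) (b (b (l 16613248) (l 16609984)) (l 16604960)))) (b (l 16611088) (l 16604432))) (b (l 16610232) (l 16603560))) (a (a (a (b (l 16603952) (l 16596760)) (a (b (l 16603136) (l 16595944)) (b (b (c (l 16606576) (l 16601880)) (l 16600704)) (b (l 16597096) (l 16593416))))) (b (b (l 16603640) (l 16600088)) (l 16594640))) (b (b (l 16602760) (l 16599200))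 (l 16593752)))))), by decide +kernel⟩

def k91_pm_012_s : ∃ t, chk3 f_pm_012_s t 167 31 1 = true :=
  ⟨(a (b (c (b (a (l 16602616) (c (l 16602808) (l 16598288))) (a (l 16595168) (c (l 16595464) (l 16590720)))) (b (a (l 16593552) (a (l 16591792) (l 16590440))) (a (l 16585632) (a (l 16583864) (l 16582512))))) (c (b (a (l 16587200) (c (l 16587616) (l 16582664))) (a (l 16578648) (c (l 16579200) (l 16574024)))) (b (a (b (l 16579368) (l 16575016)) (c (l 16577432) (a (l 16572704) (l 16571280)))) (a (b (l 16570512) (l 16565848)) (a (b (l 16568768) (l 16564112)) (b (l 16567424) (l 16562776))))))) (a (a (a (b (b (c (l 16599104) (l 16589232)) (c (l 16591648) (l 16581304))) (b (c (l 16583704) (l 16572888)) (c (l 16575192) (l 16563920)))) (a (b (b (c (l 16598456) (l 16588408)) (l 16596360)) (b (c (l 16583056) (l 16572064)) (c (l 16574552) (l 16563104)))) (b (b (c (l 16597928) (l 16587720)) (c (l 16590472) (l 16579784))) (b (c (l 16582520) (l 16571376)) (c (l 16574024) (b (l 16564728) (l 16560104))))))) (b (b (c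 (l 16597400) (l 16587096)) (c (l 16589936) (l 16579160))) (b (c (l 16582000) (l 16570752)) (c (l 16573504) (l 16561808))))) (b (b (c (l 16596520) (l 16586200)) (c (l 16589056) (l 16578256))) (b (l 16596608) (l 16572168))))), by decide +kernel⟩

def k92_pm_012_s : ∃ t, chk3 f_pm_012_s t 42 30 1 = true :=
  ⟨(b (b (b (c (a (c (l 16622480) (a (l 16620936) (l 16616392))) (a (l 16613824) (l 16609328))) (a (c (a (l 16617016) (l 16612408)) (a (l 16612960) (l 16608280))) (a (l 16605728) (l 16601112)))) (c (a (a (a (l 16620400) (l 16618160)) (l 16614800)) (c (l 16610120) (l 16606032))) (a (c (a (l 16613192) (l 16608616)) (a (l 16608936) (l 16604296))) (a (l 16601888) (l 16597312))))) (a (c (a (b (c (l 16617816) (l 16613712)) (l 16612376)) (b (c (l 16613400) (l 16609248)) (l 16607936))) (a (b (c (l 16609440) (l 16605000)) (c (l 16605792) (l 16601176))) (b (l 16602688) (l 16598960)))) (c (c (b (l 16606784) (l 16603504)) (b (l 16602552) (l 16599136))) (c (b (l 16598144) (l 16594568)) (a (l 16593944) (l 16589408))))))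 (a (b (c (c (b (l 16609016) (l 16605736)) (a (l 16605136) (l 16600656))) (a (b (c (l 16602232) (l 16597440)) (l 16596272)) (b (l 16595304) (l 16591672)))) (c (c (l 16600728) (l 16595992)) (a (c (l 16593352) (l 16588176)) (b (l 16588000) (l 16584264))))) (b (c (a (b (l 16600192) (l 16596840)) (b (l 16595840) (l 16592488))) (a (b (l 16590816) (l 16587176)) (l 16595024))) (c (a (l 16591640) (l 16587272)) (a (l 16581576) (l 16577136)))))), by decide +kernel⟩

def k93_pm_012_s : ∃ t, chk3 f_pm_012_s t 43 30 1 = true :=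
  ⟨(b (c (b (a (c (b (l 16604608) (l 16601264)) (b (l 16600576) (l 16597072))) (c (b (l 16595744) (l 16592448)) (b (l 16591608) (l 16588176)))) (a (c (l 16596376) (l 16591976)) (c (l 16587648) (l 16583176)))) (b (a (a (b (l 16596520) (l 16592752)) (b (l 16591944) (l 16588208))) (c (l 16601232) (l 16601944))) (a (a (l 16587280) (l 16582792)) (a (l 16578328) (l 16573880))))) (a (b (c (c (l 16589968) (l 16585320)) (a (l 16580160) (l 16575760))) (c (a (l 16582936) (l 16578656)) (a (l 16572752) (l 16568424)))) (b (c (c (l 16581368) (l 16576648)) (l 16590168)) (c (c (l 16574752) (l 16569824)) (l 16562024))))), by decide +kernel⟩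

def k94_pm_012_s : ∃ t, chk3 f_pm_012_s t 21 31 1 = true :=
  ⟨(b (a (b (c (a (c (l 16593720) (l 16588768)) (c (l 16584664) (l 16579632))) (a (a (l 16583216) (l 16578512)) (a (l 16573888) (l 16569360)))) (a (c (b (l 16606656) (l 16602784)) (c (l 16575712) (l 16570000))) (c (c (l 16577120) (l 16571904)) (a (l 16565880) (l 16561312))))) (a (b (c (a (l 16575568) (l 16571288)) (l 16583784)) (c (c (l 16568240) (l 16562984)) (l 16575600))) (b (c (a (l 16567048) (l 16562856)) (a (l 16556368) (l 16552160))) (c (a (l 16559168) (l 16554984)) (l 16567056))))) (a (a (b (c (b (l 16598792) (l 16594680)) (a (l 16566864) (l 16562136))) (c (a (l 16569640) (l 16564912)) (a (l 16557952) (l 16553248)))) (b (c (a (l 16568776) (l 16564200)) (a (l 16557472) (l 16552888))) (c (a (l 16560240) (l 16555624)) (a (l 16548608) (l 16544024))))) (a (b (c (a (l 16559688) (l 16555256)) (a (l 16548376) (l 16543952))) (c (a (l 16551080) (l 16546600)) (a (l 16539512) (l 16535072)))) (b (c (a (l 16550904) (l 16546624)) (a (l 16539608)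 (l 16535352))) (c (a (l 16542192) (l 16537856)) (a (l 16530704) (l 16526424))))))), by decide +kernel⟩

def k95_pm_012_s : ∃ t, chk3 f_pm_012_s t 11 28 1 = true :=
  ⟨(a (c (b (a (b (a (c (l 16645632) (l 16644264)) (l 16636816)) (a (c (l 16638944) (l 16637264)) (l 16629856))) (b (a (l 16628936) (l 16621112)) (a (l 16621872) (l 16614136)))) (a (b (a (c (l 16631664) (l 16629648)) (c (l 16623304) (l 16621224))) (a (c (b (l 16625888) (l 16621912)) (l 16621520)) (c (l 16615408) (l 16612936)))) (b (a (l 16635144) (l 16606336)) (a (c (l 16607192) (l 16604664)) (c (l 16599248) (l 16596696)))))) (b (a (b (a (l 16642088) (l 16633808)) (a (l 16634656) (l 16626216))) (b (a (l 16625856) (l 16618032)) (a (l 16618088) (l 16610288)))) (a (b (a (l 16626536) (l 16617936)) (a (c (l 16619072) (l 16616568)) (l 16609072))) (b (a (l 16609648) (l 16601680)) (a (l 16600632) (l 16592512)))))) (a (b (c (b (l 16630320) (a (l 16606464) (l 16598800))) (b (l 16606392) (l 16619704))) (c (b (a (l 16598744) (l 16591224)) (a (l 16606032)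 (l 16582864))) (b (a (l 16594024) (l 16586496)) (a (l 16584696) (l 16577192))))) (b (c (c (l 16611624) (l 16589752)) (b (l 16590704) (l 16583488))) (c (b (c (l 16580760) (l 16578960)) (a (l 16575496) (l 16568152))) (b (l 16575280) (a (l 16569808) (l 16562496))))))), by decide +kernel⟩

def k96_pm_012_s : ∃ t, chk3 f_pm_012_s t 11 58 1 = true :=
  ⟨(a (a (c (b (a (c (b (l 16617840) (a (l 16615920) (l 16611488))) (b (l 16615152) (l 16610800))) (c (b (l 16609224) (l 16605000)) (b (l 16606448) (l 16602016)))) (c (a (b (a (l 16611744) (l 16607272)) (a (l 16607528) (l 16603040))) (b (a (l 16602888) (l 16598576)) (a (l 16598608) (l 16594264)))) (a (b (a (l 16608656) (l 16604136)) (a (l 16604224) (l 16599696))) (b (l 16597528) (l 16603504))))) (b (a (c (l 16610112) (l 16607184)) (c (l 16601272) (l 16598208))) (a (c (b (l 16603208) (l 16598528)) (b (l 16599928) (l 16595008))) (c (b (l 16594232) (l 16589504)) (l 16588336))))) (c (b (a (c (b (l 16600912) (l 16596616)) (l 16595816)) (c (l 16601200) (l 16587704)))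 (a (c (b (l 16592264) (a (l 16590000) (l 16585816))) (b (l 16588992) (l 16584408))) (c (b (l 16584112) (a (l 16581704) (l 16577664))) (b (l 16580768) (l 16576112))))) (b (a (l 16612136) (l 16582896)) (a (c (l 16583168) (l 16579552)) (c (l 16574824) (l 16571080)))))) (a (c (b (a (c (l 16582928) (l 16579888)) (c (l 16575392) (l 16572336))) (a (c (b (l 16576248) (l 16571752)) (l 16570464)) (c (b (l 16568648) (l 16564104)) (l 16562800)))) (b (a (l 16574944) (l 16567288)) (a (l 16564872) (l 16557080)))) (c (c (b (a (l 16568080) (l 16560824)) (a (b (l 16561280) (l 16556704)) (l 16562304))) (b (l 16582440) (a (l 16555408) (l 16548280)))) (b (a (l 16559928) (l 16552688)) (a (l 16549584) (l 16542376)))))), by decide +kernel⟩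

def k97_pm_012_s : ∃ t, chk3 f_pm_012_s t 22 59 1 = true :=
  ⟨(a (c (b (a (c (b (a (l 16603480) (l 16598984)) (a (l 16599640) (l 16595168))) (b (a (l 16599968) (l 16595432)) (c (l 16594624) (l 16592728)))) (c (b (a (l 16594536) (l 16590144)) (a (l 16590720) (l 16586312))) (b (a (l 16590944) (l 16586512)) (a (l 16586928) (l 16582488))))) (a (c (b (a (l 16595984) (l 16591536)) (a (l 16592488) (l 16588072))) (b (l 16610832) (l 16586208))) (c (b (a (l 16587112) (l 16582704)) (c (l 16582488) (l 16580456))) (b (l 16591400) (l 16577328))))) (b (a (a (c (l 16594200) (l 16590360)) (c (l 16589616) (l 16585736))) (c (b (l 16585008) (l 16580776)) (l 16578904))) (a (c (a (l 16586144) (l 16581624)) (l 16579616)) (a (l 16574984) (l 16591456))))) (c (a (b (c (b (a (l 16585840) (l 16581616)) (a (l 16581968) (l 16577704))) (b (l 16580032) (l 16575944))) (c (b (a (l 16578344) (l 16574040)) (c (l 16573792) (l 16571712))) (a (l 16572480) (l 16568144)))) (b (c (b (a (l 16577472) (l 16573408)) (a (l 16573528) (l 16569424)))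 (b (l 16571664) (l 16567504))) (c (a (b (l 16569824) (l 16566344)) (c (l 16564936) (l 16562848))) (a (l 16563848) (l 16559656))))) (b (a (c (l 16584520) (l 16569992)) (c (l 16565544) (l 16561408))) (a (c (l 16566024) (l 16561608)) (c (l 16557392) (l 16552904)))))), by decide +kernel⟩

def k98_pm_012_s : ∃ t, chk3 f_pm_012_s t 23 59 1 = true :=
  ⟨(a (c (c (b (a (b (c (l 16568376) (l 16566496)) (c (l 16564392) (l 16562416))) (b (c (l 16560680) (l 16558784)) (c (l 16556648) (l 16554640)))) (a (c (b (l 16560656) (l 16557128)) (b (l 16558584) (l 16554984))) (c (b (l 16552848) (l 16559752)) (b (l 16550752) (l 16547080))))) (b (a (b (l 16563608) (l 16559376)) (l 16553664)) (a (a (l 16555544) (l 16551512)) (l 16566576)))) (b (a (c (l 16557368) (l 16553128)) (l 16547344)) (a (c (l 16549088) (l 16544520)) (l 16559752)))) (c (c (b (a (b (l 16552296) (c (l 16549168) (l 16547152))) (a (l 16544760) (l 16541208))) (a (c (b (l 16545320) (l 16541688)) (l 16541312)) (c (b (l 16538056) (l 16534384)) (l 16534008))))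 (b (a (l 16546160) (l 16538928)) (a (l 16537984) (l 16530640)))) (b (a (l 16539720) (l 16532384)) (a (l 16531032) (l 16523576))))), by decide +kernel⟩

def k99_pm_012_s : ∃ t, chk3 f_pm_012_s t 22 30 1 = true :=
  ⟨(b (a (c (b (a (c (b (l 16586928) (l 16583696)) (b (l 16582712) (l 16579328))) (c (b (c (l 16579232) (l 16577120)) (l 16575000)) (b (l 16573880) (l 16570560)))) (a (c (l 16578976) (l 16574424)) (c (b (l 16571896) (l 16568848)) (l 16565736)))) (b (a (c (l 16576552) (l 16571928)) (c (l 16567672) (l 16562984))) (a (c (l 16569688) (l 16564768)) (c (l 16560936) (l 16555960))))) (c (b (a (c (b (a (l 16571664) (l 16567344)) (l 16566368)) (b (l 16565120) (l 16561856))) (c (a (b (l 16563072) (l 16559944)) (b (l 16558856) (l 16555720))) (b (l 16556528) (l 16553248)))) (a (c (b (l 16563320) (l 16560328)) (l 16557120)) (c (b (l 16554808) (l 16551880)) (l 16548560)))) (a (b (c (l 16558856) (l 16554112)) (l 16570744)) (b (c (l 16550208) (l 16545408)) (c (l 16543648) (l 16538592)))))) (a (c (b (a (c (l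 16572816) (l 16568032)) (c (l 16564312) (l 16559472))) (a (l 16563856) (l 16555456))) (b (a (l 16560496) (l 16551864)) (a (l 16553504) (l 16545032)))) (a (b (c (c (l 16555872) (l 16550976)) (l 16543312)) (c (l 16547104) (l 16536632))) (c (b (c (l 16547512) (l 16542552)) (l 16538824)) (b (l 16534832) (l 16528304)))))), by decide +kernel⟩

def k100_pm_012_s : ∃ t, chk3 f_pm_012_s t 23 30 1 = true :=
  ⟨(b (a (c (c (b (a (c (b (l 16553800) (l 16550640)) (b (l 16551576) (l 16548352))) (c (b (l 16545872) (l 16542656)) (l 16541944))) (a (b (c (l 16547648) (l 16545296)) (l 16543528)) (c (b (l 16539568) (l 16536600)) (l 16535656)))) (b (a (l 16567464) (l 16538440)) (a (l 16540168) (l 16531976)))) (a (b (c (l 16541768) (l 16536920)) (l 16553648)) (b (l 16531208) (l 16524416)))) (c (b (c (a (c (b (l 16538248) (l 16534968)) (l 16534256)) (c (b (l 16530896) (l 16527568)) (l 16526856))) (a (l 16530704) (l 16523248))) (c (a (c (b (l 16531832) (l 16528800)) (l 16527848)) (c (b (l 16524384) (l 16521304)) (l 16520336)))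 (a (l 16524112) (l 16516552)))) (b (a (l 16523352) (c (l 16518312) (l 16513224))) (a (l 16516464) (c (l 16511408) (l 16506152)))))) (a (c (b (a (c (b (l 16540656) (l 16537776)) (l 16534184)) (c (b (l 16532504) (l 16529608)) (l 16525984))) (a (c (l 16533184) (l 16528024)) (c (l 16525056) (l 16519856)))) (a (b (l 16526416) (l 16520048)) (b (l 16518168) (l 16511856)))) (c (b (b (c (a (l 16524600) (l 16517024)) (l 16536616)) (c (a (l 16521656) (l 16514032)) (l 16512608))) (a (c (l 16527600) (l 16511856)) (c (l 16509384) (l 16504056)))) (b (a (l 16510112) (c (l 16505032) (l 16499664))) (a (l 16503824) (c (l 16498680) (l 16493264))))))), by decide +kernel⟩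

def k101_pm_012_s : ∃ t, chk3 f_pm_012_s t 11 31 1 = true :=
  ⟨(b (b (a (a (a (c (c (l 16559200) (l 16554056)) (l 16545944)) (c (l 16548384) (l 16537664))) (a (c (l 16540168) (l 16529432)) (c (l 16532008) (l 16521272)))) (a (c (a (l 16523920) (l 16515904)) (a (l 16513168) (l 16505144))) (a (c (c (l 16510616) (l 16505280)) (a (l 16499176) (l 16495208))) (a (b (l 16519368) (l 16495008)) (c (l 16498264) (l 16487432)))))) (a (a (a (c (a (l 16550840) (l 16546744)) (a (l 16539832) (l 16535752))) (c (c (l 16543296) (l 16538008)) (l 16529728))) (a (c (l 16532592) (l 16521688)) (c (l 16524568) (l 16513704)))) (a (a (c (l 16516600) (l 16505776)) (c (l 16508712) (l 16497912))) (a (c (l 16500896) (l 16490120)) (l 6))))) (b (a (a (a (c (a (l 16542432) (l 16538336)) (l 16550168)) (c (a (l 16534288) (l 16530288)) (a (l 16523144) (l 16519192)))) (a (c (c (l 16527024) (l 16521672)) (l 16513360)) (c (c (l 16519128) (l 16513792)) (l 16505576)))) (a (a (c (l 16508648) (l 16497840)) (c (l 16500880) (l 16490160))) (a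 (c (l 16493192) (l 16482536)) (l 6)))) (a (a (a (c (a (l 16533600) (l 16529424)) (a (l 16522216) (l 16518104))) (c (a (l 16525328) (l 16521336)) (a (l 16514080) (l 16510168)))) (a (a (c (l 16517384) (l 16506304)) (c (a (l 16514456) (l 16512504)) (l 16502496))) (c (c (l 16510360) (l 16505024)) (c (l 16499600) (l 16494088))))) (a (b (a (c (l 16502240) (l 16491520)) (c (l 16494576) (l 16483984))) (a (c (l 16497752) (l 16487112)) (l 6))) (l 6))))), by decide +kernel⟩

def k102_pm_012_s : ∃ t, chk3 f_pm_012_s t 6 2 1 = true :=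
  ⟨(b (l 2) (b (l 2) (a (b (l 2) (a (a (b (l 2) (c (l 16658088) (l 16656152))) (l 2)) (l 2))) (l 2)))), by decide +kernel⟩

def k103_pm_012_s : ∃ t, chk3 f_pm_012_s t 6 6 1 = true :=
  ⟨(a (b (a (a (b (b (a (l 16651832) (l 16645920)) (c (l 16661848) (l 16640624))) (b (c (b (l 16634680) (l 16630568)) (l 16633976)) (c (l 16623600) (l 16626808)))) (b (c (b (l 16638416) (l 16649984)) (b (l 16636344) (l 16628128))) (b (c (a (l 16622904) (l 16617048)) (l 16620720)) (c (c (l 16671128) (l 16611344)) (l 16612840))))) (a (b (b (l 2) (l 16618024)) (a (b (l 16611872) (l 16602616)) (b (l 16606288) (l 16596504)))) (b (l 2) (b (l 16598480) (l 16587960))))) (b (a (b (a (c (l 16612504) (l 16617304)) (c (l 16597848) (l 16602808))) (c (a (b (l 16603624) (l 16599456)) (c (l 16582384) (l 16608552))) (c (a (l 16626976) (l 16590504)) (a (l 16627416) (b (l 16594128) (l 16588272)))))) (b (a (a (l 16591056) (l 16584480)) (c (l 16573360) (l 16575488))) (c (b (l 16567672) (l 16560416)) (a (l 16576144) (l 16561944))))) (a (a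 (c (b (c (l 16592088) (l 16594784)) (c (l 16584064) (l 16585088))) (b (c (l 16595856) (l 16595344)) (c (l 16584872) (l 16583432)))) (c (b (l 16574152) (c (l 16588168) (l 16568864))) (b (a (l 16584024) (l 16576176)) (a (l 16572488) (l 16564680))))) (a (c (b (l 16560952) (l 16552424)) (b (l 16564592) (l 16553144))) (c (b (l 16545856) (l 16537192)) (b (l 16549608) (l 16538192))))))) (a (a (b (b (l 2) (b (l 2) (l 16577648))) (b (b (l 16563792) (c (l 16545744) (l 16548840))) (a (b (l 16537760) (l 6)) (l 6)))) (b (l 2) (l 6))) (l 6))), by decide +kernel⟩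

def k104_pm_012_s : ∃ t, chk3 f_pm_012_s t 6 14 1 = true :=
  ⟨(a (b (a (a (b (c (c (l 16574392) (l 16573936)) (b (l 16574968) (l 16568056))) (a (c (l 16585624) (b (l 16563936) (l 16555096))) (c (l 16557032) (b (l 16556352) (l 16547672))))) (a (b (c (l 16562256) (b (l 16563272) (l 16556472))) (c (l 16549376) (b (l 16548776) (l 16540232)))) (b (b (l 16556912) (l 16550736)) (c (l 16541744) (b (l 16541176) (l 16532792)))))) (a (b (c (l 16563688) (b (l 16544048) (l 16537368))) (c (b (l 16533792) (l 16526808)) (b (l 16529880) (l 16521624)))) (b (c (l 16527544) (l 16546840)) (l 6)))) (a (b (a (c (b (c (l 16549920) (l 16547096)) (a (c (l 16544728) (l 16541240)) (l 16536000))) (b (a (l 16545520) (l 16538272)) (a (l 16535288) (l 16528264)))) (c (a (b (l 16537568) (l 16528872)) (b (l 16530200) (l 16521696))) (a (b (l 16530984) (c (l 16523280) (l 16518896))) (b (l 16523696) (l 16514032))))) (a (c (c (b (a (c (l 16536952) (l 16535008)) (l 16529064)) (a (a (l 16529792) (l 16526320)) (c (l 16522304) (l 16520136))))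 (b (a (l 16531952) (l 16525064)) (a (l 16523568) (l 16516744)))) (b (a (c (l 16527616) (l 16522968)) (c (l 16520704) (l 16515984))) (a (c (l 16518848) (l 16513896)) (c (l 16511992) (l 16506952))))) (c (a (a (b (l 16521968) (l 16513968)) (b (l 16518496) (l 16510624))) (b (l 16513272) (l 16505560))) (a (b (c (l 16513848) (l 16509064)) (c (l 16505232) (a (l 16501832) (l 16498456)))) (b (l 16504560) (l 16495984)))))) (a (a (b (c (l 16518568) (b (l 16516392) (l 16506880))) (l 6)) (l 6)) (l 6)))) (l 6)), by decide +kernel⟩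

def k105_pm_012_s : ∃ t, chk3 f_pm_012_s t 6 15 1 = true :=
  ⟨(a (b (a (b (b (a (b (c (c (a (l 16522640) (l 16515768)) (l 16514408)) (a (l 16510400) (l 16503408))) (c (c (a (l 16519232) (l 16512336)) (l 16510832)) (a (l 16506672) (l 16499632)))) (a (c (a (l 16506624) (l 16503320)) (c (l 16497400) (a (l 16493736) (l 16490368)))) (l 6))) (a (c (c (a (c (l 16526120) (l 16513112)) (c (l 16508704) (l 16506160))) (a (l 16509280) (l 16502280))) (a (c (l 16504064) (l 16498736)) (c (l 16497000) (l 16491584)))) (l 6))) (a (a (c (b (c (c (l 16509528) (l 16506912)) (l 16502944)) (c (l 16522944) (l 16496576))) (b (c (l 16497592) (l 16492168)) (c (l 16491152) (l 16485704)))) (a (b (c (c (l 16502928) (l 16497592)) (l 16489464)) (l 6)) (l 6))) (l 6))) (l 6)) (l 6)) (l 6)), by decide +kernel⟩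

def k106_pm_012_s : ∃ t, chk3 f_pm_012_s t 7 1 1 = true :=
  ⟨(b (l 2) (l 6)), by decide +kernel⟩

theorem s107_pm_012_s : ∃ t, chk3 f_pm_012_s t 6 7 1 = true := ex3_b k104_pm_012_s k105_pm_012_s

theorem s108_pm_012_s : ∃ t, chk3 f_pm_012_s t 6 3 1 = true := ex3_b k103_pm_012_s s107_pm_012_s

theorem s109_pm_012_s : ∃ t, chk3 f_pm_012_s t 6 1 1 = true := ex3_b k102_pm_012_s s108_pm_012_s

theorem s110_pm_012_s : ∃ t, chk3 f_pm_012_s t 3 1 1 = true := ex3_a s109_pm_012_s k106_pm_012_s

theorem s111_pm_012_s : ∃ t, chk3 f_pm_012_s t 11 30 1 = true := ex3_a k99_pm_012_s k100_pm_012_s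

theorem s112_pm_012_s : ∃ t, chk3 f_pm_012_s t 11 15 1 = true := ex3_b s111_pm_012_s k101_pm_012_s

theorem s113_pm_012_s : ∃ t, chk3 f_pm_012_s t 11 59 1 = true := ex3_a k97_pm_012_s k98_pm_012_s

theorem s114_pm_012_s : ∃ t, chk3 f_pm_012_s t 11 29 1 = true := ex3_b k96_pm_012_s s113_pm_012_s

theorem s115_pm_012_s : ∃ t, chk3 f_pm_012_s t 11 14 1 = true := ex3_b k95_pm_012_s s114_pm_012_s

theorem s116_pm_012_s : ∃ t, chk3 f_pm_012_s t 11 7 1 = true := ex3_b s115_pm_012_s s112_pm_012_s

theorem s117_pm_012_s : ∃ t, chk3 f_pm_012_s t 21 30 1 = true := ex3_a k92_pm_012_s k93_pm_012_s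

theorem s118_pm_012_s : ∃ t, chk3 f_pm_012_s t 21 15 1 = true := ex3_b s117_pm_012_s k94_pm_012_s

theorem s119_pm_012_s : ∃ t, chk3 f_pm_012_s t 167 15 1 = true := ex3_b k90_pm_012_s k91_pm_012_s

theorem s120_pm_012_s : ∃ t, chk3 f_pm_012_s t 83 15 1 = true := ex3_a k89_pm_012_s s119_pm_012_s

theorem s121_pm_012_s : ∃ t, chk3 f_pm_012_s t 82 15 1 = true := ex3_b k87_pm_012_s k88_pm_012_s

theorem s122_pm_012_s : ∃ t, chk3 f_pm_012_s t 41 15 1 = true := ex3_a s121_pm_012_s s120_pm_012_s

theorem s123_pm_012_s : ∃ t, chk3 f_pm_012_s t 40 15 1 = true := ex3_b k85_pm_012_s k86_pm_012_s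

theorem s124_pm_012_s : ∃ t, chk3 f_pm_012_s t 20 15 1 = true := ex3_a s123_pm_012_s s122_pm_012_s

theorem s125_pm_012_s : ∃ t, chk3 f_pm_012_s t 10 15 1 = true := ex3_a s124_pm_012_s s118_pm_012_s

theorem s126_pm_012_s : ∃ t, chk3 f_pm_012_s t 21 59 1 = true := ex3_a k83_pm_012_s k84_pm_012_s

theorem s127_pm_012_s : ∃ t, chk3 f_pm_012_s t 21 29 1 = true := ex3_b k82_pm_012_s s126_pm_012_s

theorem s128_pm_012_s : ∃ t, chk3 f_pm_012_s t 21 14 1 = true := ex3_b k81_pm_012_s s127_pm_012_s

theorem s129_pm_012_s : ∃ t, chk3 f_pm_012_s t 335 29 1 = true := ex3_a k79_pm_012_s k80_pm_012_s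

theorem s130_pm_012_s : ∃ t, chk3 f_pm_012_s t 167 29 1 = true := ex3_a k78_pm_012_s s129_pm_012_s

theorem s131_pm_012_s : ∃ t, chk3 f_pm_012_s t 83 29 1 = true := ex3_a k77_pm_012_s s130_pm_012_s

theorem s132_pm_012_s : ∃ t, chk3 f_pm_012_s t 83 14 1 = true := ex3_b k76_pm_012_s s131_pm_012_s

theorem s133_pm_012_s : ∃ t, chk3 f_pm_012_s t 41 14 1 = true := ex3_a k75_pm_012_s s132_pm_012_s

theorem s134_pm_012_s : ∃ t, chk3 f_pm_012_s t 40 14 1 = true := ex3_c k73_pm_012_s k74_pm_012_s

theorem s135_pm_012_s : ∃ t, chk3 f_pm_012_s t 20 14 1 = true := ex3_a s134_pm_012_s s133_pm_012_s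

theorem s136_pm_012_s : ∃ t, chk3 f_pm_012_s t 10 14 1 = true := ex3_a s135_pm_012_s s128_pm_012_s

theorem s137_pm_012_s : ∃ t, chk3 f_pm_012_s t 10 7 1 = true := ex3_b s136_pm_012_s s125_pm_012_s

theorem s138_pm_012_s : ∃ t, chk3 f_pm_012_s t 5 7 1 = true := ex3_a s137_pm_012_s s116_pm_012_s

theorem s139_pm_012_s : ∃ t, chk3 f_pm_012_s t 11 6 1 = true := ex3_b k71_pm_012_s k72_pm_012_s

theorem s140_pm_012_s : ∃ t, chk3 f_pm_012_s t 21 6 1 = true := ex3_b k69_pm_012_s k70_pm_012_s

theorem s141_pm_012_s : ∃ t, chk3 f_pm_012_s t 41 27 1 = true := ex3_a k67_pm_012_s k68_pm_012_s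

theorem s142_pm_012_s : ∃ t, chk3 f_pm_012_s t 41 13 1 = true := ex3_b k66_pm_012_s s141_pm_012_s

theorem s143_pm_012_s : ∃ t, chk3 f_pm_012_s t 41 12 1 = true := ex3_a k64_pm_012_s k65_pm_012_s

theorem s144_pm_012_s : ∃ t, chk3 f_pm_012_s t 41 6 1 = true := ex3_b s143_pm_012_s s142_pm_012_s

theorem s145_pm_012_s : ∃ t, chk3 f_pm_012_s t 40 24 1 = true := ex3_a k60_pm_012_s k61_pm_012_s

theorem s146_pm_012_s : ∃ t, chk3 f_pm_012_s t 40 12 1 = true := ex3_b s145_pm_012_s k62_pm_012_s

theorem s147_pm_012_s : ∃ t, chk3 f_pm_012_s t 40 6 1 = true := ex3_b s146_pm_012_s k63_pm_012_s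

theorem s148_pm_012_s : ∃ t, chk3 f_pm_012_s t 20 6 1 = true := ex3_a s147_pm_012_s s144_pm_012_s

theorem s149_pm_012_s : ∃ t, chk3 f_pm_012_s t 10 6 1 = true := ex3_a s148_pm_012_s s140_pm_012_s

theorem s150_pm_012_s : ∃ t, chk3 f_pm_012_s t 5 6 1 = true := ex3_a s149_pm_012_s s139_pm_012_s

theorem s151_pm_012_s : ∃ t, chk3 f_pm_012_s t 5 3 1 = true := ex3_b s150_pm_012_s s138_pm_012_s

theorem s152_pm_012_s : ∃ t, chk3 f_pm_012_s t 41 23 1 = true := ex3_b k56_pm_012_s k57_pm_012_s

theorem s153_pm_012_s : ∃ t, chk3 f_pm_012_s t 41 11 1 = true := ex3_b k55_pm_012_s s152_pm_012_s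

theorem s154_pm_012_s : ∃ t, chk3 f_pm_012_s t 41 5 1 = true := ex3_b k54_pm_012_s s153_pm_012_s

theorem s155_pm_012_s : ∃ t, chk3 f_pm_012_s t 163 188 1 = true := ex3_a k50_pm_012_s k51_pm_012_s

theorem s156_pm_012_s : ∃ t, chk3 f_pm_012_s t 163 94 1 = true := ex3_b s155_pm_012_s k52_pm_012_s

theorem s157_pm_012_s : ∃ t, chk3 f_pm_012_s t 81 94 1 = true := ex3_a k49_pm_012_s s156_pm_012_s

theorem s158_pm_012_s : ∃ t, chk3 f_pm_012_s t 81 47 1 = true := ex3_b s157_pm_012_s k53_pm_012_s

theorem s159_pm_012_s : ∃ t, chk3 f_pm_012_s t 81 23 1 = true := ex3_b k48_pm_012_s s158_pm_012_s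

theorem s160_pm_012_s : ∃ t, chk3 f_pm_012_s t 81 11 1 = true := ex3_b k47_pm_012_s s159_pm_012_s

theorem s161_pm_012_s : ∃ t, chk3 f_pm_012_s t 40 11 1 = true := ex3_a k46_pm_012_s s160_pm_012_s

theorem s162_pm_012_s : ∃ t, chk3 f_pm_012_s t 40 5 1 = true := ex3_b k45_pm_012_s s161_pm_012_s

theorem s163_pm_012_s : ∃ t, chk3 f_pm_012_s t 20 5 1 = true := ex3_a s162_pm_012_s s154_pm_012_s

theorem s164_pm_012_s : ∃ t, chk3 f_pm_012_s t 10 5 1 = true := ex3_a s163_pm_012_s k58_pm_012_s

theorem s165_pm_012_s : ∃ t, chk3 f_pm_012_s t 10 2 1 = true := ex3_b k44_pm_012_s s164_pm_012_s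

theorem s166_pm_012_s : ∃ t, chk3 f_pm_012_s t 5 2 1 = true := ex3_a s165_pm_012_s k59_pm_012_s

theorem s167_pm_012_s : ∃ t, chk3 f_pm_012_s t 5 1 1 = true := ex3_b s166_pm_012_s s151_pm_012_s

theorem s168_pm_012_s : ∃ t, chk3 f_pm_012_s t 19 15 1 = true := ex3_b k42_pm_012_s k43_pm_012_s

theorem s169_pm_012_s : ∃ t, chk3 f_pm_012_s t 19 29 1 = true := ex3_a k40_pm_012_s k41_pm_012_s

theorem s170_pm_012_s : ∃ t, chk3 f_pm_012_s t 19 14 1 = true := ex3_b k39_pm_012_s s169_pm_012_s

theorem s171_pm_012_s : ∃ t, chk3 f_pm_012_s t 19 7 1 = true := ex3_b s170_pm_012_s s168_pm_012_s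

theorem s172_pm_012_s : ∃ t, chk3 f_pm_012_s t 18 31 1 = true := ex3_b k37_pm_012_s k38_pm_012_s

theorem s173_pm_012_s : ∃ t, chk3 f_pm_012_s t 18 15 1 = true := ex3_b k36_pm_012_s s172_pm_012_s

theorem s174_pm_012_s : ∃ t, chk3 f_pm_012_s t 36 29 1 = true := ex3_b k33_pm_012_s k34_pm_012_s

theorem s175_pm_012_s : ∃ t, chk3 f_pm_012_s t 18 29 1 = true := ex3_a s174_pm_012_s k35_pm_012_s

theorem s176_pm_012_s : ∃ t, chk3 f_pm_012_s t 18 28 1 = true := ex3_a k31_pm_012_s k32_pm_012_s

theorem s177_pm_012_s : ∃ t, chk3 f_pm_012_s t 18 14 1 = true := ex3_b s176_pm_012_s s175_pm_012_s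

theorem s178_pm_012_s : ∃ t, chk3 f_pm_012_s t 18 7 1 = true := ex3_b s177_pm_012_s s173_pm_012_s

theorem s179_pm_012_s : ∃ t, chk3 f_pm_012_s t 9 7 1 = true := ex3_a s178_pm_012_s s171_pm_012_s

theorem s180_pm_012_s : ∃ t, chk3 f_pm_012_s t 35 63 1 = true := ex3_a k29_pm_012_s k30_pm_012_s

theorem s181_pm_012_s : ∃ t, chk3 f_pm_012_s t 17 63 1 = true := ex3_a k28_pm_012_s s180_pm_012_s

theorem s182_pm_012_s : ∃ t, chk3 f_pm_012_s t 68 62 1 = true := ex3_b k24_pm_012_s k25_pm_012_s

theorem s183_pm_012_s : ∃ t, chk3 f_pm_012_s t 34 62 1 = true := ex3_a s182_pm_012_s k26_pm_012_s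

theorem s184_pm_012_s : ∃ t, chk3 f_pm_012_s t 17 62 1 = true := ex3_a s183_pm_012_s k27_pm_012_s

theorem s185_pm_012_s : ∃ t, chk3 f_pm_012_s t 17 31 1 = true := ex3_b s184_pm_012_s s181_pm_012_s

theorem s186_pm_012_s : ∃ t, chk3 f_pm_012_s t 35 60 1 = true := ex3_b k21_pm_012_s k22_pm_012_s

theorem s187_pm_012_s : ∃ t, chk3 f_pm_012_s t 35 30 1 = true := ex3_b s186_pm_012_s k23_pm_012_s

theorem s188_pm_012_s : ∃ t, chk3 f_pm_012_s t 34 123 1 = true := ex3_b k19_pm_012_s k20_pm_012_s

theorem s189_pm_012_s : ∃ t, chk3 f_pm_012_s t 34 122 1 = true := ex3_a k17_pm_012_s k18_pm_012_s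

theorem s190_pm_012_s : ∃ t, chk3 f_pm_012_s t 34 61 1 = true := ex3_b s189_pm_012_s s188_pm_012_s

theorem s191_pm_012_s : ∃ t, chk3 f_pm_012_s t 34 30 1 = true := ex3_b k16_pm_012_s s190_pm_012_s

theorem s192_pm_012_s : ∃ t, chk3 f_pm_012_s t 17 30 1 = true := ex3_a s191_pm_012_s s187_pm_012_s

theorem s193_pm_012_s : ∃ t, chk3 f_pm_012_s t 17 15 1 = true := ex3_b s192_pm_012_s s185_pm_012_s

theorem s194_pm_012_s : ∃ t, chk3 f_pm_012_s t 67 249 1 = true := ex3_a k12_pm_012_s k13_pm_012_s

theorem s195_pm_012_s : ∃ t, chk3 f_pm_012_s t 67 124 1 = true := ex3_b k11_pm_012_s s194_pm_012_s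

theorem s196_pm_012_s : ∃ t, chk3 f_pm_012_s t 67 62 1 = true := ex3_b s195_pm_012_s k14_pm_012_s

theorem s197_pm_012_s : ∃ t, chk3 f_pm_012_s t 33 62 1 = true := ex3_a k10_pm_012_s s196_pm_012_s

theorem s198_pm_012_s : ∃ t, chk3 f_pm_012_s t 16 62 1 = true := ex3_a k9_pm_012_s s197_pm_012_s

theorem s199_pm_012_s : ∃ t, chk3 f_pm_012_s t 16 31 1 = true := ex3_b s198_pm_012_s k15_pm_012_s

theorem s200_pm_012_s : ∃ t, chk3 f_pm_012_s t 16 15 1 = true := ex3_b k8_pm_012_s s199_pm_012_s

theorem s201_pm_012_s : ∃ t, chk3 f_pm_012_s t 8 15 1 = true := ex3_a s200_pm_012_s s193_pm_012_s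

theorem s202_pm_012_s : ∃ t, chk3 f_pm_012_s t 8 7 1 = true := ex3_b k7_pm_012_s s201_pm_012_s

theorem s203_pm_012_s : ∃ t, chk3 f_pm_012_s t 4 7 1 = true := ex3_a s202_pm_012_s s179_pm_012_s

theorem s204_pm_012_s : ∃ t, chk3 f_pm_012_s t 39 13 1 = true := ex3_b k5_pm_012_s k6_pm_012_s

theorem s205_pm_012_s : ∃ t, chk3 f_pm_012_s t 19 13 1 = true := ex3_a k4_pm_012_s s204_pm_012_s

theorem s206_pm_012_s : ∃ t, chk3 f_pm_012_s t 19 6 1 = true := ex3_b k3_pm_012_s s205_pm_012_s

theorem s207_pm_012_s : ∃ t, chk3 f_pm_012_s t 9 6 1 = true := ex3_a k2_pm_012_s s206_pm_012_s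

theorem s208_pm_012_s : ∃ t, chk3 f_pm_012_s t 4 6 1 = true := ex3_a k1_pm_012_s s207_pm_012_s

theorem s209_pm_012_s : ∃ t, chk3 f_pm_012_s t 4 3 1 = true := ex3_b s208_pm_012_s s203_pm_012_s

theorem s210_pm_012_s : ∃ t, chk3 f_pm_012_s t 4 1 1 = true := ex3_b k0_pm_012_s s209_pm_012_s

theorem s211_pm_012_s : ∃ t, chk3 f_pm_012_s t 2 1 1 = true := ex3_a s210_pm_012_s s167_pm_012_s

theorem s212_pm_012_s : ∃ t, chk3 f_pm_012_s t 1 1 1 = true := ex3_a s211_pm_012_s s110_pm_012_s

theorem c_pm_012_s : CertNE 0 536870912 536870912 536870912 740881858 40050571 3 eng mog cd0q0 cd0q1 pd2 true true false .pnp 0 1 2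
    ndB0q0 ndB0q1 pcB2 cut_pm_012_s Ext.none :=
  certNE2 (fam := true) (s1 := true) (s2 := false) (a := 0) (b := 1) (c := 2) (cn := .pnp) (n1 := ndB0q0) (n2 := ndB0q1) (pc := pcB2) (cut := cut_pm_012_s) (xt := Ext.none) (P1 := 0) (W1 := 536870912) (P2 := 536870912) (W2 := 536870912) (P3 := 740881858) (W3 := 40050571) (N0 := 3) (En := eng) (mo := mog) (C1 := cd0q0) (C2 := cd0q1) (C3 := pd2)
    rfl (fun _ => rfl) s212_pm_012_s

noncomputable def cut_pm_012_t : Cut := Cut.of [[⟨3, 0, 0, 2845415833⟩], [⟨0, 0, 0, 53687091⟩, ⟨1, 1, 0, 53687091⟩, ⟨2, 1, 0, 53687091⟩]]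

noncomputable def f_pm_012_t : ℕ → ℕ → ℕ → ℕ → Bool := onCell 0 536870912 536870912 536870912 740881858 40050571
    (rowNE 3 eng mog cd0q0 cd0q1 pd2 0 true true false .pnp 0 1 2 (qsf 0 536870912 536870912 536870912 2) ndB0q0 ndB0q1 pcB2 cut_pm_012_t Ext.none)

def k0_pm_012_t : ∃ t, chk3 f_pm_012_t t 1 1 1 = true :=
  ⟨(l 6), by decide +kernel⟩

theorem c_pm_012_t : CertNE 0 536870912 536870912 536870912 740881858 40050571 3 eng mog cd0q0 cd0q1 pd2 true true false .pnp 0 1 2
    ndB0q0 ndB0q1 pcB2 cut_pm_012_t Ext.none :=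
  certNE0 (fam := true) (s1 := true) (s2 := false) (a := 0) (b := 1) (c := 2) (cn := .pnp) (n1 := ndB0q0) (n2 := ndB0q1) (pc := pcB2) (cut := cut_pm_012_t) (xt := Ext.none) (P1 := 0) (W1 := 536870912) (P2 := 536870912) (W2 := 536870912) (P3 := 740881858) (W3 := 40050571) (N0 := 3) (En := eng) (mo := mog) (C1 := cd0q0) (C2 := cd0q1) (C3 := pd2)
    rfl k0_pm_012_t

noncomputable def cut_pm_022_s : Cut := Cut.of [[⟨4, 0, 0, 1449551462⟩], [⟨0, 0, 0, 67108864⟩, ⟨1, 1, 0, 67108864⟩, ⟨2, 1, 0, 67108864⟩]]

noncomputable def f_pm_022_s : ℕ → ℕ → ℕ → ℕ → Bool := onCell 1073741824 536870912 0 536870912 740881858 40050571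
    (rowNE 3 eng mog cd0q0 cd0q2 pd2 2 true true false .pp 0 2 2 (qsf 0 536870912 0 536870912 2) ndB0q0 ndB0q2 pcB2 cut_pm_022_s Ext.none)

def k0_pm_022_s : ∃ t, chk3 f_pm_022_s t 8 1 1 = true :=
  ⟨(b (l 1) (b (l 1) (b (a (l 1) (b (a (l 1) (a (l 1) (b (l 1) (a (l 16613288) (b (l 16608360) (l 16619920)))))) (a (l 14) (a (l 14) (a (l 14) (a (l 14) (b (l 16636568) (l 16657160)))))))) (a (l 14) (a (l 14) (a (l 14) (a (l 14) (b (b (l 16677200) (l 16691152)) (a (l 14) (a (l 14) (a (l 14) (b (l 16685816) (b (l 16682520) (b (l 16680456) (c (l 16680656) (l 16677176)))))))))))))))), by decide +kernel⟩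

def k1_pm_022_s : ∃ t, chk3 f_pm_022_s t 9 2 1 = true :=
  ⟨(l 6), by decide +kernel⟩

def k2_pm_022_s : ∃ t, chk3 f_pm_022_s t 9 6 1 = true :=
  ⟨(a (b (l 1) (a (b (l 1) (a (l 1) (b (l 16547832) (l 16590336)))) (b (a (b (l 1) (l 16531752)) (b (l 16539576) (l 16535808))) (b (a (l 16550928) (l 16553912)) (a (l 16571256) (l 16573096)))))) (b (l 6) (a (a (b (b (c (l 16530880) (l 16515416)) (l 16539648)) (b (l 16556760) (l 16574872))) (b (b (l 6) (l 16564120)) (b (c (l 16566128) (l 16551952)) (c (l 16582552) (l 16569792))))) (b (l 6) (c (b (l 16560248) (l 16575848)) (b (l 16548360) (l 16565272))))))), by decide +kernel⟩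

def k3_pm_022_s : ∃ t, chk3 f_pm_022_s t 9 14 1 = true :=
  ⟨(a (b (b (a (a (a (l 16611960) (l 16591256)) (b (l 16585976) (l 16597200))) (a (l 16592288) (l 16592936))) (a (a (a (b (l 16608728) (l 16619992)) (l 16614032)) (l 16644904)) (a (l 16612776) (l 16612216)))) (a (b (a (c (l 16658600) (l 16633336)) (l 16654400)) (a (a (l 16677216) (l 16654472)) (l 16651960))) (b (a (c (l 16634376) (l 16628440)) (l 16629808)) (a (l 16648864) (l 16646016))))) (b (a (a (b (l 16593584) (l 16611728)) (b (c (l 16599408) (l 16588280)) (l 16611200))) (b (c (l 16549856) (l 16582736)) (l 16572152))) (a (c (b (l 16631016) (l 16642200)) (b (l 16623472) (l 16638936))) (b (l 16618224) (l 16631528))))), by decide +kernel⟩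

def k4_pm_022_s : ∃ t, chk3 f_pm_022_s t 9 15 1 = true :=
  ⟨(a (b (a (a (b (b (l 16669672) (l 16679160)) (b (l 16684888) (l 16684056))) (b (l 16669824) (l 16692568))) (a (b (l 16665528) (l 16668688)) (b (l 16660240) (l 16660120)))) (b (a (a (a (c (l 16684288) (l 16683176)) (b (l 16680960) (l 16679264))) (a (b (l 16677224) (l 16675608)) (l 16693616))) (a (c (l 16666520) (l 16645936)) (b (l 16658872) (l 16678480)))) (b (a (a (a (c (l 16681656) (l 16679360)) (l 16687568)) (c (l 16672440) (l 16670928))) (a (c (l 16664424) (l 16663488)) (c (l 16655880) (l 16655464)))) (a (b (a (a (c (a (l 16680776) (l 16679072)) (l 16677016)) (c (l 16676432) (l 16673824))) (c (l 16681376) (l 16689688))) (a (a (a (a (b (l 16678544) (c (l 16679528) (l 16675960))) (c (l 16679048) (l 16675664))) (b (l 16676536) (c (l 16677440) (l 16674064)))) (c (a (l 16676056) (l 16674288)) (a (l 16672936) (l 16671312)))) (c (a (l 16682056) (l 16667792)) (a (l 16668800) (l 16665304))))) (a (c (a (l 16664472) (l 16660376)) (a (l 16662480)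 (l 16658632))) (c (a (l 16656112) (l 16651680)) (a (l 16654600) (l 16650384)))))))) (b (a (a (b (l 16651224) (l 16651168)) (b (l 16662968) (c (l 16598256) (l 16643968)))) (b (a (l 16635568) (l 16630408)) (a (l 16634976) (l 16629064)))) (a (b (a (c (l 16648720) (l 16650200)) (a (l 16642288) (l 16658520))) (a (b (c (l 16646720) (l 16646744)) (c (a (l 16647024) (l 16642160)) (l 16643608))) (a (b (l 16639408) (l 16657592)) (b (l 16634424) (c (l 16652896) (l 16631248)))))) (b (a (c (l 16631808) (l 16633056)) (b (l 16626528) (l 16624056))) (a (b (c (l 16628880) (l 16628616)) (c (a (l 16627936) (l 16624192)) (a (l 16626872) (l 16622560)))) (b (a (l 16622896) (l 16618832)) (a (c (l 16620288) (l 16618048)) (c (l 16616216) (l 16613320))))))))), by decide +kernel⟩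

def k5_pm_022_s : ∃ t, chk3 f_pm_022_s t 5 2 1 = true :=
  ⟨(l 6), by decide +kernel⟩

def k6_pm_022_s : ∃ t, chk3 f_pm_022_s t 10 6 1 = true :=
  ⟨(a (a (b (l 6) (b (l 6) (a (b (l 6) (l 16562912)) (l 6)))) (l 6)) (l 6)), by decide +kernel⟩

def k7_pm_022_s : ∃ t, chk3 f_pm_022_s t 20 7 1 = true :=
  ⟨(a (b (b (b (a (l 16578864) (l 16573304)) (l 16591176)) (a (l 16614664) (l 16608304))) (b (b (l 16621760) (a (l 16601560) (l 16594360))) (b (a (b (l 16619208) (l 16616152)) (b (l 16611136) (l 16607464))) (a (b (a (l 16614576) (l 16610128)) (a (c (l 16611968) (l 16608368)) (c (l 16607536) (l 16603176)))) (b (a (l 16605456) (l 16600552)) (b (a (l 16601696) (l 16596520)) (a (c (l 16601616) (l 16596176)) (c (l 16596664) (l 16590352))))))))) (b (a (b (b (l 16567952) (l 16582544)) (l 16602472)) (b (b (l 6) (a (l 16578728) (a (l 16577296) (l 16576528)))) (a (l 16598824) (a (l 16597584) (l 16596976))))) (a (b (b (l 16611760) (a (l 16609432) (l 16605136))) (a (b (l 16602544) (b (l 16595368) (c (b (l 16594352)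 (l 16591456)) (b (l 16587640) (a (l 16585784) (l 16582608)))))) (b (l 16597568) (b (l 16589840) (c (a (l 16588912) (l 16586088)) (b (l 16581264) (a (l 16579328) (l 16575912)))))))) (b (a (b (l 16605840) (l 16600360)) (a (b (l 16602184) (l 16596136)) (b (l 16599520) (l 16608800)))) (a (b (l 16613032) (b (c (l 16587632) (l 16579520)) (c (b (l 16583160) (a (l 16581536) (l 16578384))) (b (l 16574216) (a (l 16572344) (c (l 16571096) (l 16565928))))))) (b (a (b (l 16589744) (l 16584496)) (c (l 16608656) (a (l 16600904) (l 16578184)))) (b (a (c (l 16582840) (l 16573624)) (a (a (a (l 16575936) (l 16574976)) (l 16574160)) (l 16573296))) (a (c (a (l 16577552) (l 16575608)) (a (b (l 16569392) (l 16565472)) (a (l 16565752) (l 16564440)))) (a (a (a (l 16558400) (a (l 16568184) (b (l 16569440) (l 16565728)))) (l 16567040)) (l 16566160)))))))))), by decide +kernel⟩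

def k8_pm_022_s : ∃ t, chk3 f_pm_022_s t 21 7 1 = true :=
  ⟨(a (b (b (l 6) (l 16643880)) (b (b (l 16591416) (a (l 16587784) (l 16579752))) (b (a (b (l 16580480) (l 16574680)) (l 16600400)) (b (a (c (l 16573040) (l 16563032)) (l 16558968)) (a (c (b (l 16568056) (l 16564600)) (b (l 16557120) (l 16553040))) (c (l 16562280) (l 16556416))))))) (b (b (l 6) (l 16625136)) (b (b (l 16576504) (a (l 16571528) (l 16563200))) (a (b (l 16560096) (b (l 16550040) (c (l 16547952) (l 16536976)))) (b (l 16551552) (b (l 16541344) (c (l 16539112) (l 16528288)))))))), by decide +kernel⟩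

def k9_pm_022_s : ∃ t, chk3 f_pm_022_s t 11 3 1 = true :=
  ⟨(b (l 6) (b (l 6) (b (a (a (b (a (l 16564784) (l 6)) (l 16593096)) (l 6)) (l 6)) (a (b (a (a (l 16543232) (l 16535168)) (c (l 16547808) (l 16541336))) (a (a (b (l 16532904) (c (l 16530560) (l 16519896))) (b (l 16524744) (c (l 16522304) (l 16511816)))) (a (b (l 16516896) (c (l 16514392) (l 16504120))) (b (c (l 16513656) (l 16505104)) (c (a (l 16508616) (l 16504840)) (l 16507160)))))) (b (l 6) (a (a (b (l 6) (c (l 16499200) (l 16489384))) (l 6)) (l 6))))))), by decide +kernel⟩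

def k10_pm_022_s : ∃ t, chk3 f_pm_022_s t 3 1 1 = true :=
  ⟨(b (l 6) (l 6)), by decide +kernel⟩

theorem s11_pm_022_s : ∃ t, chk3 f_pm_022_s t 10 7 1 = true := ex3_a k7_pm_022_s k8_pm_022_s

theorem s12_pm_022_s : ∃ t, chk3 f_pm_022_s t 10 3 1 = true := ex3_b k6_pm_022_s s11_pm_022_s

theorem s13_pm_022_s : ∃ t, chk3 f_pm_022_s t 5 3 1 = true := ex3_a s12_pm_022_s k9_pm_022_s

theorem s14_pm_022_s : ∃ t, chk3 f_pm_022_s t 5 1 1 = true := ex3_b k5_pm_022_s s13_pm_022_s

theorem s15_pm_022_s : ∃ t, chk3 f_pm_022_s t 9 7 1 = true := ex3_b k3_pm_022_s k4_pm_022_s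

theorem s16_pm_022_s : ∃ t, chk3 f_pm_022_s t 9 3 1 = true := ex3_b k2_pm_022_s s15_pm_022_s

theorem s17_pm_022_s : ∃ t, chk3 f_pm_022_s t 9 1 1 = true := ex3_b k1_pm_022_s s16_pm_022_s

theorem s18_pm_022_s : ∃ t, chk3 f_pm_022_s t 4 1 1 = true := ex3_a k0_pm_022_s s17_pm_022_s

theorem s19_pm_022_s : ∃ t, chk3 f_pm_022_s t 2 1 1 = true := ex3_a s18_pm_022_s s14_pm_022_s

theorem s20_pm_022_s : ∃ t, chk3 f_pm_022_s t 1 1 1 = true := ex3_a s19_pm_022_s k10_pm_022_s

theorem c_pm_022_s : CertNE 0 536870912 0 536870912 740881858 40050571 3 eng mog cd0q0 cd0q2 pd2 true true false .pp 0 2 2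
    ndB0q0 ndB0q2 pcB2 cut_pm_022_s Ext.none :=
  certNE2 (fam := true) (s1 := true) (s2 := false) (a := 0) (b := 2) (c := 2) (cn := .pp) (n1 := ndB0q0) (n2 := ndB0q2) (pc := pcB2) (cut := cut_pm_022_s) (xt := Ext.none) (P1 := 0) (W1 := 536870912) (P2 := 0) (W2 := 536870912) (P3 := 740881858) (W3 := 40050571) (N0 := 3) (En := eng) (mo := mog) (C1 := cd0q0) (C2 := cd0q2) (C3 := pd2)
    rfl (fun _ => rfl) s20_pm_022_s

noncomputable def cut_pm_022_t : Cut := Cut.of [[⟨3, 0, 0, 2845415833⟩], [⟨0, 0, 0, 67108864⟩, ⟨1, 1, 0, 67108864⟩, ⟨2, 1, 0, 67108864⟩]]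

noncomputable def f_pm_022_t : ℕ → ℕ → ℕ → ℕ → Bool := onCell 1073741824 536870912 0 536870912 740881858 40050571
    (rowNE 3 eng mog cd0q0 cd0q2 pd2 2 true true false .pp 0 2 2 (qsf 0 536870912 0 536870912 2) ndB0q0 ndB0q2 pcB2 cut_pm_022_t Ext.none)

def k0_pm_022_t : ∃ t, chk3 f_pm_022_t t 1 1 1 = true :=
  ⟨(a (l 6) (b (l 6) (l 6))), by decide +kernel⟩

theorem c_pm_022_t : CertNE 0 536870912 0 536870912 740881858 40050571 3 eng mog cd0q0 cd0q2 pd2 true true false .pp 0 2 2
    ndB0q0 ndB0q2 pcB2 cut_pm_022_t Ext.none :=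
  certNE2 (fam := true) (s1 := true) (s2 := false) (a := 0) (b := 2) (c := 2) (cn := .pp) (n1 := ndB0q0) (n2 := ndB0q2) (pc := pcB2) (cut := cut_pm_022_t) (xt := Ext.none) (P1 := 0) (W1 := 536870912) (P2 := 0) (W2 := 536870912) (P3 := 740881858) (W3 := 40050571) (N0 := 3) (En := eng) (mo := mog) (C1 := cd0q0) (C2 := cd0q2) (C3 := pd2)
    rfl (fun _ => rfl) k0_pm_022_t

noncomputable def cut_pm_023_s : Cut := Cut.of [[⟨4, 0, 0, 1449551462⟩]]

noncomputable def f_pm_023_s : ℕ → ℕ → ℕ → ℕ → Bool := onCell 1610612736 536870912 0 536870912 740881858 40050571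
    (rowNE 3 eng mog cd0q0 cd0q2 pd3 2 true true false .up 0 2 3 (qsf 0 536870912 0 536870912 3) ndB0q0 ndB0q2 pcB3 cut_pm_023_s Ext.none)

def k0_pm_023_s : ∃ t, chk3 f_pm_023_s t 1 1 1 = true :=
  ⟨(l 6), by decide +kernel⟩

theorem c_pm_023_s : CertNE 0 536870912 0 536870912 740881858 40050571 3 eng mog cd0q0 cd0q2 pd3 true true false .up 0 2 3
    ndB0q0 ndB0q2 pcB3 cut_pm_023_s Ext.none :=
  certNE2 (fam := true) (s1 := true) (s2 := false) (a := 0) (b := 2) (c := 3) (cn := .up) (n1 := ndB0q0) (n2 := ndB0q2) (pc := pcB3) (cut := cut_pm_023_s) (xt := Ext.none) (P1 := 0) (W1 := 536870912) (P2 := 0) (W2 := 536870912) (P3 := 740881858) (W3 := 40050571) (N0 := 3) (En := eng) (mo := mog) (C1 := cd0q0) (C2 := cd0q2) (C3 := pd3)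
    rfl (fun _ => rfl) k0_pm_023_s

noncomputable def cut_pm_023_t : Cut := Cut.of [[⟨3, 0, 0, 2845415833⟩]]

noncomputable def f_pm_023_t : ℕ → ℕ → ℕ → ℕ → Bool := onCell 0 536870912 0 536870912 740881858 40050571
    (rowNE 3 eng mog cd0q0 cd0q2 pd3 0 true true false .up 0 2 3 (qsf 0 536870912 0 536870912 3) ndB0q0 ndB0q2 pcB3 cut_pm_023_t Ext.none)

def k0_pm_023_t : ∃ t, chk3 f_pm_023_t t 1 1 1 = true :=
  ⟨(a (l 1) (b (a (b (a (l 1) (b (a (l 1) (b (l 16636216) (l 6))) (l 6))) (l 6)) (b (b (a (a (b (l 16656464) (l 6)) (b (l 16673680) (l 16658424))) (a (b (l 16687624) (l 16669720)) (a (l 16739512) (l 16747456)))) (a (l 6) (a (l 16684040) (b (l 16679096) (l 16660856))))) (a (l 6) (l 6)))) (l 6))), by decide +kernel⟩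

theorem c_pm_023_t : CertNE 0 536870912 0 536870912 740881858 40050571 3 eng mog cd0q0 cd0q2 pd3 true true false .up 0 2 3
    ndB0q0 ndB0q2 pcB3 cut_pm_023_t Ext.none :=
  certNE0 (fam := true) (s1 := true) (s2 := false) (a := 0) (b := 2) (c := 3) (cn := .up) (n1 := ndB0q0) (n2 := ndB0q2) (pc := pcB3) (cut := cut_pm_023_t) (xt := Ext.none) (P1 := 0) (W1 := 536870912) (P2 := 0) (W2 := 536870912) (P3 := 740881858) (W3 := 40050571) (N0 := 3) (En := eng) (mo := mog) (C1 := cd0q0) (C2 := cd0q2) (C3 := pd3)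
    rfl k0_pm_023_t

noncomputable def cut_pm_101_s : Cut := Cut.of [[⟨4, 0, 0, 1449551462⟩], [⟨0, 1, 0, 67108864⟩, ⟨1, 0, 0, 67108864⟩, ⟨2, 1, 0, 67108864⟩]]

noncomputable def f_pm_101_s : ℕ → ℕ → ℕ → ℕ → Bool := onCell 536870912 536870912 536870912 536870912 740881858 40050571
    (rowNE 3 eng mog cd0q1 cd0q0 pd1 1 true true false .npn 1 0 1 (qsf 536870912 536870912 0 536870912 1) ndB0q1 ndB0q0 pcB1 cut_pm_101_s Ext.none)

def k0_pm_101_s : ∃ t, chk3 f_pm_101_s t 1 1 1 = true :=
  ⟨(b (l 3) (a (l 3) (b (l 3) (a (l 3) (b (l 3) (a (l 3) (b (l 3) (a (l 3) (l 14))))))))), by decide +kernel⟩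

theorem c_pm_101_s : CertNE 536870912 536870912 0 536870912 740881858 40050571 3 eng mog cd0q1 cd0q0 pd1 true true false .npn 1 0 1
    ndB0q1 ndB0q0 pcB1 cut_pm_101_s Ext.none :=
  certNE1 (fam := true) (s1 := true) (s2 := false) (a := 1) (b := 0) (c := 1) (cn := .npn) (n1 := ndB0q1) (n2 := ndB0q0) (pc := pcB1) (cut := cut_pm_101_s) (xt := Ext.none) (P1 := 536870912) (W1 := 536870912) (P2 := 0) (W2 := 536870912) (P3 := 740881858) (W3 := 40050571) (N0 := 3) (En := eng) (mo := mog) (C1 := cd0q1) (C2 := cd0q0) (C3 := pd1)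
    rfl (fun _ => rfl) k0_pm_101_s

noncomputable def cut_pm_101_t : Cut := Cut.of [[⟨3, 0, 0, 2845415833⟩], [⟨0, 1, 0, 67108864⟩, ⟨1, 0, 0, 67108864⟩, ⟨2, 1, 0, 67108864⟩]]

noncomputable def f_pm_101_t : ℕ → ℕ → ℕ → ℕ → Bool := onCell 536870912 536870912 0 536870912 740881858 40050571
    (rowNE 3 eng mog cd0q1 cd0q0 pd1 0 true true false .npn 1 0 1 (qsf 536870912 536870912 0 536870912 1) ndB0q1 ndB0q0 pcB1 cut_pm_101_t Ext.none)

def k0_pm_101_t : ∃ t, chk3 f_pm_101_t t 1 1 1 = true :=
  ⟨(l 6), by decide +kernel⟩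

theorem c_pm_101_t : CertNE 536870912 536870912 0 536870912 740881858 40050571 3 eng mog cd0q1 cd0q0 pd1 true true false .npn 1 0 1
    ndB0q1 ndB0q0 pcB1 cut_pm_101_t Ext.none :=
  certNE0 (fam := true) (s1 := true) (s2 := false) (a := 1) (b := 0) (c := 1) (cn := .npn) (n1 := ndB0q1) (n2 := ndB0q0) (pc := pcB1) (cut := cut_pm_101_t) (xt := Ext.none) (P1 := 536870912) (W1 := 536870912) (P2 := 0) (W2 := 536870912) (P3 := 740881858) (W3 := 40050571) (N0 := 3) (En := eng) (mo := mog) (C1 := cd0q1) (C2 := cd0q0) (C3 := pd1)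
    rfl k0_pm_101_t

end Pool.Agent.Strip051.G.I69_7273.Tab.CS.BA00

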