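import Pool.Agent.Strip051.G.I69_7273.Tab
import Pool.Agent.Strip051.PB.StripB

/-! # Strips, near vertex: certificates 2 (generated) -/

set_option linter.all false
set_option maxRecDepth 100000

namespace Pool.Agent.Strip051.G.I69_7273.Tab.CS.BA00

open Pool.Agent.Strip051.PB Pool.Agent.Strip051.PB.T
open Pool.Agent.Strip051.G.I69_7273.Tab

noncomputable def cut_pm_102_s : Cut := Cut.of [[⟨4, 0, 0, 1449551462⟩], [⟨0, 1, 0, 53687091⟩, ⟨1, 0, 0, 53687091⟩, ⟨2, 1, 0, 53687091⟩]]

noncomputable def f_pm_102_s : ℕ → ℕ → ℕ → ℕ → Bool := onCell 536870912 536870912 1073741824 536870912 740881858 40050571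
    (rowNE 3 eng mog cd0q1 cd0q0 pd2 1 true true false .npp 1 0 2 (qsf 536870912 536870912 0 536870912 2) ndB0q1 ndB0q0 pcB2 cut_pm_102_s Ext.none)

def k0_pm_102_s : ∃ t, chk3 f_pm_102_s t 2 4 1 = true :=
  ⟨(a (l 3) (l 3)), by decide +kernel⟩

def k1_pm_102_s : ∃ t, chk3 f_pm_102_s t 4 10 1 = true :=
  ⟨(b (b (l 3) (l 2)) (l 2)), by decide +kernel⟩

def k2_pm_102_s : ∃ t, chk3 f_pm_102_s t 10 40 1 = true :=
  ⟨(l 3), by decide +kernel⟩

def k3_pm_102_s : ∃ t, chk3 f_pm_102_s t 11 80 1 = true :=
  ⟨(l 3), by decide +kernel⟩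

def k4_pm_102_s : ∃ t, chk3 f_pm_102_s t 22 81 1 = true :=
  ⟨(l 3), by decide +kernel⟩

def k5_pm_102_s : ∃ t, chk3 f_pm_102_s t 46 81 1 = true :=
  ⟨(b (l 3) (b (l 3) (b (a (l 3) (a (l 3) (c (c (a (b (l 3) (b (l 175724560791) (l 16777160))) (a (c (b (l 207936814999) (l 16776936)) (l 96267666279)) (b (b (l 205789331623) (a (l 16777200) (l 16777080))) (l 16776672)))) (l 100025764055)) (l 16777088)))) (a (c (c (a (l 3) (l 202568105591)) (l 188609464839)) (l 173040210247)) (c (c (a (c (a (l 117742503015) (b (l 16777168) (l 16776584))) (l 16777736)) (c (a (l 16776376) (l 16776664)) (l 16776096))) (a (l 16777080) (l 16776072))) (l 16776552)))))), by decide +kernel⟩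

def k6_pm_102_s : ∃ t, chk3 f_pm_102_s t 47 162 1 = true :=
  ⟨(a (l 3) (b (l 3) (b (a (l 3) (c (c (a (l 3) (b (l 3) (a (l 193441300759) (a (l 84456505783) (l 16777088))))) (l 170892723559)) (l 145122921575))) (c (c (b (a (l 3) (c (a (c (a (l 164987142263) (b (l 147270402215) (l 16776992))) (l 116668760519)) (l 16776720)) (a (l 16777480) (l 16776704)))) (a (a (l 3) (c (c (a (b (l 3) (l 104857600199)) (b (l 115595018423) (l 16776952))) (l 100562633191)) (l 16777168))) (c (a (l 16776848) (l 16776120)) (l 16776376)))) (a (l 145659791047) (l 16778280))) (a (l 124184956023) (l 16776600)))))), by decide +kernel⟩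

def k7_pm_102_s : ∃ t, chk3 f_pm_102_s t 188 326 1 = true :=
  ⟨(b (l 3) (c (a (a (l 3) (c (c (b (l 3) (b (l 3) (c (c (b (a (l 3) (a (c (b (l 3) (l 162302787607)) (l 189683204119)) (a (b (l 3) (a (l 76403441687) (l 16777192))) (b (a (l 189683204103) (b (l 3) (l 65129152551))) (l 16777176))))) (a (b (l 171966464023) (l 16777192)) (a (l 16777128) (l 16777128)))) (b (l 162302787655) (l 16777160))) (l 16777352)))) (l 178408914775)) (l 160692175767))) (c (b (c (c (a (l 3) (b (l 3) (b (l 222432329671) (a (a (l 3) (l 182703882263)) (a (b (l 168745238551) (l 16777176)) (l 16777144)))))) (l 195588783975)) (l 184314495335)) (c (c (c (b (b (a (a (l 3) (a (l 3) (a (l 195051913239) (b (l 3) (l 16777240))))) (a (a (b (l 135459242007) (l 16777152)) (l 16777128)) (l 16777024))) (a (b (a (l 222432329623) (a (a (l 107005083687) (l 16777192)) (l 16777144))) (a (a (l 207936815111) (a (a (l 107005083687) (l 59223572519)) (l 16777184))) (l 16777104))) (l 16777000))) (a (a (a (b (b (a (b (l 145122918439) (l 16777192))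 (l 16777176)) (l 16777112)) (l 16777040)) (b (l 16777088) (l 16776928))) (a (l 16777024) (l 16776872))) (l 16776864))) (a (b (a (l 188072591383) (l 76403441799)) (l 16776976)) (l 16776856))) (a (b (l 128479920343) (l 16776968)) (l 16776856))) (l 16776968))) (l 75329701383))) (l 98415152391))), by decide +kernel⟩

def k8_pm_102_s : ∃ t, chk3 f_pm_102_s t 188 327 1 = true :=
  ⟨(c (b (c (a (c (a (b (b (b (a (l 218137362311) (a (l 16777200) (l 16777176))) (l 16776792)) (l 16776880)) (l 16776408)) (c (b (b (a (l 16777000) (a (l 16776896) (l 16776992))) (l 16776616)) (l 16776464)) (l 16776448))) (l 16776568)) (c (b (c (b (a (a (a (b (l 16776840) (l 16776680)) (l 16776776)) (l 16776752)) (l 16776712)) (a (a (l 16776576) (l 16776280)) (l 16776072))) (l 16776360)) (a (a (l 16776256) (b (l 16775952) (l 16775632))) (a (l 16775824) (l 16775520)))) (l 16776024))) (l 16776272)) (c (b (c (a (l 16775952) (a (l 16775224) (l 16775200))) (l 16775328)) (a (l 16774968) (a (l 16774560) (l 16774448)))) (l 16774960)))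 (l 16778168)), by decide +kernel⟩

def k9_pm_102_s : ∃ t, chk3 f_pm_102_s t 189 163 1 = true :=
  ⟨(b (b (c (c (c (a (b (l 3) (a (l 3) (a (l 3) (b (l 3) (b (l 3) (l 125795565703)))))) (a (b (l 3) (b (l 199883751351) (a (b (l 144049176663) (l 16777112)) (l 16777048)))) (b (l 221358587751) (b (a (a (l 100562632871) (l 51707379879)) (l 16777080)) (l 16776840))))) (a (l 214916136727) (b (l 219747974999) (l 16777096)))) (c (l 140291081575) (l 135459243543))) (l 115058150583)) (c (c (b (a (c (b (b (a (l 3) (a (a (l 160692174903) (l 16777272)) (l 16777096))) (a (a (l 224042942343) (a (l 116668760119) (l 16777256))) (l 16777008))) (c (a (a (b (b (l 126332436535) (l 16777160)) (l 16777040)) (l 16776984)) (l 16776776)) (l 16776912))) (l 16777040)) (c (a (a (l 16776728) (l 16776584)) (l 16776384)) (l 16776504))) (c (c (a (a (b (l 16776904) (l 16776432)) (l 16776640)) (l 16776232)) (l 16776496)) (l 16776152))) (l 16776432)) (l 16776392))) (c (c (b (c (a (b (b (l 16776384) (l 16775984)) (a (l 16775320) (l 16775048)))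 (b (l 16775928) (l 16774640))) (l 16775192)) (c (a (b (l 16775200) (l 16773904)) (l 16774336)) (l 16773904))) (c (l 16774504) (l 16774456))) (l 16774360))), by decide +kernel⟩

def k10_pm_102_s : ∃ t, chk3 f_pm_102_s t 95 163 1 = true :=
  ⟨(b (a (c (b (c (a (a (c (b (b (l 225653555095) (a (l 93583311047) (l 16777104))) (l 16776720)) (l 35601253303)) (b (b (a (l 107541954791) (l 16777456)) (l 16776896)) (l 16776760))) (c (c (b (l 16776640) (l 16776032)) (l 16776328)) (l 16776312))) (l 16777864)) (c (c (a (b (l 16776624) (l 16775344)) (l 16775760)) (l 16775336)) (l 16775280))) (l 16778464)) (c (c (b (a (b (l 16776720) (l 16775448)) (a (l 16775328) (l 16775048))) (c (c (l 16775264) (l 16774248)) (l 16774200))) (l 16774744)) (l 16774600))) (a (c (c (c (b (a (l 16775056) (l 16773856)) (l 16773848)) (l 16774736)) (l 16773328)) (l 16773152)) (c (c (c (b (l 16774336) (l 16771760)) (l 16774920)) (l 16772168)) (l 16771920)))), by decide +kernel⟩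

def k11_pm_102_s : ∃ t, chk3 f_pm_102_s t 10 41 1 = true :=
  ⟨(a (b (l 3) (a (l 2) (b (b (l 3) (a (l 2) (l 72108487895))) (a (l 2) (b (b (l 16775712) (l 16774848)) (l 16773528)))))) (b (b (l 3) (b (l 3) (a (l 3) (a (l 134385513991) (a (l 16782072) (l 16782336)))))) (b (b (c (a (a (l 16781488) (l 16782272)) (b (l 16783872) (l 16779624))) (a (l 110226331143) (c (l 16775384) (l 16775528)))) (c (a (b (l 16786480) (l 16785360)) (b (l 16772984) (l 16777200))) (a (l 16785936) (l 16778264)))) (b (b (a (c (l 16784520) (l 16774200)) (a (l 16772120) (l 16770704))) (a (a (l 16773832) (l 16772584)) (a (l 16760760) (l 16759360)))) (a (a (l 16772464) (l 16771184)) (c (b (b (b (l 16759336) (a (l 16759776) (l 16763424))) (l 16768952)) (l 16768256)) (a (c (l 16767216) (l 16769960)) (b (c (l 16763616) (l 16763776)) (l 16767712))))))))), by decide +kernel⟩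

def k12_pm_102_s : ∃ t, chk3 f_pm_102_s t 22 41 1 = true :=
  ⟨(b (b (a (l 3) (a (b (l 3) (a (l 137606731975) (c (l 89288348759) (l 16777056)))) (a (b (l 3) (b (l 76940316695) (l 16775864))) (b (b (l 3) (a (l 148344146663) (l 16778760))) (b (l 16778872) (l 16774856)))))) (b (a (a (a (l 3) (l 128479927911)) (b (l 108615703447) (l 16776328))) (c (a (c (l 16775112) (l 16775160)) (c (l 16775792) (l 16773240))) (c (l 16774256) (l 16774304)))) (c (a (a (l 16775808) (l 16774032)) (a (l 16772224) (l 16773024))) (a (l 16782984) (a (l 16772528) (l 16770688)))))) (b (b (a (a (b (l 16773728) (l 16772320)) (b (l 16772072) (l 16770736))) (a (c (l 16769408) (l 16769968)) (c (l 16770344) (l 16768208)))) (c (a (a (l 16770160) (l 16768648)) (a (l 16767104) (l 16765528))) (a (l 16776672) (a (l 16767736) (l 16766024))))) (b (b (a (a (l 16769232) (l 16767704)) (a (l 16766112) (l 16764352))) (a (c (a (l 16768128) (c (l 16761096) (l 16766600))) (l 16769680)) (b (a (l 16754872) (l 16763344)) (a (l 16764544) (l 16762272)))))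 (a (a (b (b (b (l 16757216) (l 16766320)) (l 16755744)) (l 16765560)) (b (b (b (l 16755288) (l 16764856)) (l 16764104)) (l 16763448))) (c (b (b (b (l 16762224) (a (l 16762384) (l 16760168))) (l 16760528)) (l 16759880)) (b (a (l 16763032) (l 16760744)) (l 16760352))))))), by decide +kernel⟩

def k13_pm_102_s : ∃ t, chk3 f_pm_102_s t 46 41 1 = true :=
  ⟨(a (b (b (b (b (c (a (l 151028500855) (a (l 16778256) (l 16776632))) (l 16777048)) (c (a (l 16776584) (l 16775552)) (l 16776048))) (c (c (a (l 16774520) (l 16773496)) (l 16774008)) (l 16774000))) (b (c (c (l 16774504) (l 16771272)) (l 16771328)) (c (c (l 16768480) (l 16768616)) (l 16768768)))) (b (b (b (c (l 16766640) (l 16766952)) (l 16768264)) (b (l 16764584) (l 16763600))) (b (c (b (l 16759592) (l 16757664)) (b (l 16762424) (l 16760536))) (b (b (b (l 16759008) (a (l 16758688) (l 16757536))) (l 16757392)) (l 16756728))))) (b (b (c (c (b (a (b (l 16776512) (l 16774512)) (b (c (l 16776112) (l 16774776)) (l 16773456))) (a (l 16773784) (c (l 16774072)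 (l 16771432)))) (b (a (l 16775152) (l 16774064)) (l 16771920))) (b (l 16774544) (l 16771856))) (c (a (b (l 16772384) (l 16767144)) (b (l 16770728) (l 16766192))) (b (l 16769248) (l 16766752)))) (b (b (c (c (l 16766800) (l 16764312)) (l 16764408)) (c (b (l 16762672) (l 16761528)) (l 16762136))) (b (b (l 16759984) (b (l 16758616) (a (l 16758168) (l 16756968)))) (b (b (b (l 16756656) (c (c (l 16755648) (l 16755752)) (l 16755856))) (l 16757720)) (l 16754416)))))), by decide +kernel⟩

def k14_pm_102_s : ∃ t, chk3 f_pm_102_s t 47 41 1 = true :=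
  ⟨(a (b (b (c (b (c (a (c (b (a (l 16774000) (l 16774120)) (l 16772416)) (l 16774992)) (a (b (b (l 16773888) (l 16772576)) (l 16772248)) (b (l 16773016) (l 16771056)))) (a (l 16772968) (l 16774480))) (b (c (a (l 16771072) (l 16770672)) (l 16770440)) (a (l 16769712) (l 16769968)))) (b (c (l 16772312) (l 16772216)) (l 16769632))) (b (c (c (a (l 16767768) (l 16766760)) (l 16767208)) (l 16767088)) (c (a (l 16765224) (l 16765560)) (l 16764648)))) (b (b (c (c (b (l 16762976) (l 16761872)) (l 16762448)) (l 16762368)) (c (b (b (l 16761400) (l 16760424)) (l 16759240)) (l 16759848))) (b (b (l 16757520) (b (l 16756176) (a (l 16755768) (l 16755864)))) (b (c (b (b (l 16754304) (a (l 16754056) (l 16755584))) (l 16752848)) (c (l 16756152) (l 16753456))) (l 16752080))))) (b (b (b (c (c (a (b (l 16772528) (l 16770248)) (a (l 16771384) (l 16769528))) (l 16772784)) (l 16775136)) (c (c (a (l 16770272) (l 16769864)) (l 16770216)) (l 16767320))) (c (c (b (a (l 16767056) (l 16764720)) (a (l 16763296) (l 16762312))) (b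 (l 16765080) (l 16762680))) (b (l 16764824) (l 16762440)))) (b (b (c (c (a (b (l 16761592) (c (l 16763096) (l 16760440))) (b (l 16763240) (l 16764608))) (a (l 16760904) (l 16759816))) (a (l 16760688) (l 16759496))) (c (c (l 16758976) (l 16757520)) (l 16757224))) (b (c (b (l 16755200) (c (b (l 16753952) (l 16752960)) (l 16753256))) (b (l 16754800) (l 16752960))) (c (b (b (b (l 16752040) (b (l 16751496) (a (l 16751632) (l 16750520)))) (l 16750640)) (l 16749888)) (b (b (a (l 16751840) (l 16753152)) (l 16750168)) (l 16749544))))))), by decide +kernel⟩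

def k15_pm_102_s : ∃ t, chk3 f_pm_102_s t 5 21 1 = true :=
  ⟨(a (b (a (b (a (l 2) (a (l 2) (l 16769200))) (l 2)) (a (a (b (l 16767856) (l 16760888)) (b (l 16766344) (l 16758960))) (b (a (c (l 16764792) (l 16743960)) (a (l 16763640) (l 16762768))) (a (l 16778104) (c (l 16755408) (l 16755496)))))) (a (l 2) (a (a (l 2) (l 16769736)) (a (l 16767448) (b (l 16747848) (l 16740672)))))) (a (a (b (b (c (a (l 16761176) (l 16759088)) (l 16760480)) (a (c (l 16753496) (l 16753640)) (c (l 16751504) (l 16751696)))) (a (b (l 16766864) (l 16738440)) (b (l 16764832) (l 16736280)))) (b (c (b (a (l 16756904) (l 16754648)) (l 16744912)) (a (l 16758704) (l 16759064))) (a (b (l 16762736) (l 16734080)) (b (l 16760456) (l 16731816))))) (b (b (a (c (a (l 16752360) (l 16755280)) (a (l 16752696) (l 16750264))) (c (a (c (l 16747632) (l 16747752)) (c (l 16750568) (l 16745352))) (a (l 16747776) (l 16745216)))) (a (a (l 16742240) (l 16742424)) (c (a (l 16739784) (l 16737288)) (l 16738544)))) (b (a (c (a (l 16736968) (l 16734456))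 (l 16756792)) (c (l 16727920) (a (l 16731936) (l 16729216)))) (a (c (l 16743768) (l 16728000)) (c (a (l 16724056) (l 16721304)) (l 16722592))))))), by decide +kernel⟩

def k16_pm_102_s : ∃ t, chk3 f_pm_102_s t 2 11 1 = true :=
  ⟨(a (l 2) (a (b (a (l 2) (a (l 2) (a (l 2) (b (l 16772680) (l 2))))) (l 2)) (a (b (a (b (c (b (l 16730328) (l 16723784)) (l 16768664)) (b (l 16738000) (l 2))) (b (b (c (l 16725520) (l 16725280)) (c (l 16718328) (l 16717920))) (b (l 16732072) (l 16725600)))) (b (a (l 2) (c (l 16717136) (l 16694832))) (l 2))) (b (b (a (c (a (l 16738984) (l 16715400)) (b (l 16720296) (l 16712640))) (c (b (l 16725408) (l 16707328)) (b (l 16714744) (l 16707032)))) (a (c (b (l 16705800) (l 16698832)) (l 16722640)) (c (b (l 16699912) (l 16692600)) (b (l 16699464) (l 16691992))))) (a (b (b (l 16712696) (l 16685440)) (c (l 16677376) (l 16675720))) (b (c (a (l 16683928) (l 16680512)) (l 16681312)) (c (l 16711392) (l 16668128)))))))), by decide +kernel⟩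

def k17_pm_102_s : ∃ t, chk3 f_pm_102_s t 2 3 1 = true :=
  ⟨(a (l 2) (b (a (l 2) (b (a (l 2) (b (b (a (l 2) (c (l 16658088) (l 16656152))) (l 2)) (l 2))) (l 2))) (l 2))), by decide +kernel⟩

def k18_pm_102_s : ∃ t, chk3 f_pm_102_s t 6 8 1 = true :=
  ⟨(l 3), by decide +kernel⟩

def k19_pm_102_s : ∃ t, chk3 f_pm_102_s t 6 18 1 = true :=
  ⟨(a (l 3) (b (l 3) (a (l 3) (b (l 3) (a (l 3) (b (l 3) (a (l 3) (b (a (l 3) (c (l 133848634295) (l 132774892295))) (a (c (l 126332441527) (l 127943054231)) (l 16774920)))))))))), by decide +kernel⟩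

def k20_pm_102_s : ∃ t, chk3 f_pm_102_s t 12 19 1 = true :=
  ⟨(b (l 3) (a (l 3) (b (a (l 3) (b (l 3) (a (l 3) (b (l 3) (a (l 3) (c (b (l 3) (l 226190426231)) (l 235317231815))))))) (b (a (l 3) (a (b (l 3) (a (c (b (l 3) (l 224042942151)) (l 238001585847)) (c (b (a (l 3) (l 153175983223)) (c (l 63518541303) (l 16776736))) (a (l 137606728199) (l 16779504))))) (b (a (b (l 3) (a (l 198810011351) (l 80161540583))) (b (a (l 130627406103) (l 16776560)) (l 16777104))) (c (a (c (l 16778384) (l 16775728)) (l 16776688)) (a (l 16775688) (l 16773968)))))) (b (a (a (l 3) (a (l 3) (b (l 3) (c (a (l 195051914663) (l 91972699831)) (l 16778352))))) (a (a (a (c (b (l 150491628951) (l 16776408)) (l 16779512)) (b (l 34527513367) (l 16775640))) (c (c (l 16775128) (l 16775064)) (l 16774984))) (c (a (l 16776112) (l 16771776)) (l 16773944)))) (a (a (a (l 3) (a (l 3) (b (l 3) (l 166597756919)))) (a (c (b (a (l 250886487463) (l 132774889319)) (c (l 16778024) (l 16776688))) (c (l 103246990039) (l 16779640))) (c (b (l 24863836775)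 (l 16775384)) (l 16775800)))) (a (a (c (a (l 16774840) (l 16774096)) (l 16774296)) (c (l 16775552) (l 16772696))) (c (b (l 16773584) (l 16772472)) (l 16775368))))))))), by decide +kernel⟩

def k21_pm_102_s : ∃ t, chk3 f_pm_102_s t 13 38 1 = true :=
  ⟨(a (b (l 3) (a (l 3) (b (a (l 3) (b (l 3) (a (l 3) (c (b (l 3) (l 149954760487)) (l 218137362823))))) (a (a (l 3) (b (l 3) (a (b (l 3) (l 116131892791)) (b (l 147807276919) (l 16776312))))) (a (b (a (l 242833425143) (a (l 143512310487) (l 88214606487))) (c (l 16777936) (l 16775352))) (b (c (l 16778368) (l 16775744)) (l 16775736))))))) (b (a (b (a (l 3) (b (l 3) (l 312626644695))) (a (b (l 3) (a (l 3) (l 279340647367))) (b (a (l 298668000327) (c (l 90898961143) (l 93583315671))) (a (c (l 71034737511) (l 74255962951)) (l 16774408))))) (b (a (a (b (l 3) (c (l 106468217671) (l 108615701287))) (b (c (l 117742506951) (l 119889990487)) (l 16774760))) (c (l 16772272) (a (l 16773608) (l 16771128)))) (a (c (l 16773344) (l 16772104)) (c (l 16767056) (l 16767176)))))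 (a (b (b (a (a (c (l 241759683431) (l 243370295959)) (c (l 49559900855) (l 16779024))) (a (l 16774152) (l 16771776))) (a (a (b (l 63518544743) (l 16775504)) (l 16773856)) (l 16772968))) (a (b (c (l 16772344) (l 16772376)) (c (l 16769672) (l 16769800))) (b (l 16773008) (l 16770456)))) (b (a (c (l 16766840) (l 16766880)) (c (l 16761944) (l 16761992))) (a (c (l 16761752) (l 16761776)) (b (l 16758184) (a (l 16757056) (l 16754688)))))))), by decide +kernel⟩

def k22_pm_102_s : ∃ t, chk3 f_pm_102_s t 26 39 1 = true :=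
  ⟨(b (a (b (a (l 3) (b (a (l 3) (c (b (l 3) (l 240149070439)) (l 254107714311))) (b (a (l 3) (a (l 146196663207) (l 16776568))) (a (a (l 273971937687) (l 105394473863)) (l 16778400))))) (a (a (b (l 3) (a (b (l 256255197383) (l 16778208)) (b (l 104320731511) (l 16776008)))) (b (a (b (l 3) (l 151028500887)) (b (l 197736270279) (l 16776648))) (c (l 16777872) (l 16775232)))) (c (a (b (b (l 16779096) (l 16775216)) (l 16773328)) (b (l 16773848) (l 16771312))) (b (a (l 16778464) (l 16773856)) (l 16774936))))) (b (b (a (b (a (a (l 226190429079) (l 16779688)) (l 16775528)) (a (a (l 16776840) (l 16775808)) (l 16774200))) (a (l 16775288) (l 16770448))) (a (c (a (l 16774352) (l 16772192)) (l 16774648)) (c (l 16774096) (l 16769000)))) (a (c (b (c (l 16775920) (l 16770680)) (l 16772032)) (c (l 16774656) (l 16774712))) (b (c (l 16771448) (l 16766368)) (c (l 16768800) (l 16763728)))))) (a (b (a (c (b (a (l 16774656) (l 16772808)) (a (l 16772288) (l 16770400))) (b (l 16774992) (l 16776472))) (c (b (c (l 16775112)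 (l 16769816)) (l 16770656)) (c (l 16773784) (l 16773784)))) (b (a (c (a (l 16769952) (l 16773272)) (l 16768800)) (c (l 16766912) (l 16764792))) (a (c (a (l 16778136) (l 16765680)) (l 16766392)) (c (c (l 16773104) (l 16772944)) (l 16762328))))) (a (a (b (c (l 16768016) (l 16765384)) (c (b (l 16761648) (l 16759176)) (l 16760328))) (b (c (l 16765760) (l 16763184)) (c (b (l 16759336) (l 16756824)) (l 16758072)))) (b (b (c (l 16760944) (l 16761104)) (a (l 16762152) (l 16757208))) (b (c (a (l 16756944) (l 16754560)) (l 16755904)) (c (a (l 16754400) (l 16751984)) (a (l 16754480) (l 16752152)))))))), by decide +kernel⟩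

def k23_pm_102_s : ∃ t, chk3 f_pm_102_s t 27 39 1 = true :=
  ⟨(b (a (b (a (c (b (l 16767016) (l 16764352)) (l 16768536)) (a (l 16767640) (l 16760112))) (a (c (a (l 16761480) (l 16759232)) (l 16765848)) (a (c (l 16756960) (l 16757264)) (b (l 16756128) (l 16753456))))) (a (b (b (l 16757968) (a (l 16756480) (l 16754136))) (a (b (l 16753816) (l 16751160)) (l 16750152))) (b (c (l 16756968) (l 16757352)) (l 16757096)))) (a (b (b (a (a (l 16757576) (l 16755328)) (c (a (l 16752960) (l 16750672)) (l 16752144))) (a (c (a (l 16754840) (l 16752568)) (l 16753976)) (l 16753872))) (a (c (a (b (l 16752216) (l 16749608)) (l 16748608)) (a (l 16751160) (l 16759408))) (c (a (l 16746320) (l 16744048)) (l 16745560)))) (a (c (b (a (l 16747032) (l 16744704)) (l 16761568)) (l 16754168)) (c (l 16743800) (l 16739080))))), by decide +kernel⟩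

def k24_pm_102_s : ∃ t, chk3 f_pm_102_s t 14 8 1 = true :=
  ⟨(b (l 3) (a (l 3) (b (l 3) (a (l 3) (b (a (l 3) (b (l 3) (a (l 3) (b (c (l 305110451255) (l 309405418343)) (b (a (l 3) (a (l 171966465671) (l 16778032))) (a (a (l 294373032791) (l 100562634919)) (l 16775952))))))) (a (b (a (l 3) (b (l 3) (a (l 3) (c (l 231022264743) (l 233706619223))))) (b (a (l 3) (a (b (l 253570843047) (a (l 130090534887) (l 16776624))) (c (l 16775952) (l 16778640)))) (a (a (c (l 231559135735) (l 233169748391)) (b (a (l 216526750999) (l 16776960)) (l 16776168))) (c (l 16774424) (a (l 16775104) (l 16773448)))))) (b (a (b (a (l 316921611047) (b (l 239075328327) (a (l 117742503959) (l 16776504)))) (a (b (a (l 211694912743) (l 16778216)) (l 16776176)) (a (l 16775544) (l 16774704)))) (a (b (c (l 16775768) (l 16777824)) (l 16773448)) (b (l 16774752) (l 16771744)))) (b (a (c (l 16773504) (l 16773576)) (c (l 16770136) (l 16770416))) (a (c (l 16771272) (l 16771000)) (c (l 16768032) (l 16767792))))))))))), by decide +kernel⟩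

def k25_pm_102_s : ∃ t, chk3 f_pm_102_s t 30 16 1 = true :=
  ⟨(b (l 3) (a (l 3) (b (l 3) (a (l 3) (b (l 3) (a (l 3) (b (b (l 3) (a (l 3) (a (l 3) (b (a (l 3) (c (l 191830688135) (l 199346880807))) (a (c (l 154249724439) (c (l 159618433463) (l 161765916455))) (c (l 16776840) (l 16776848))))))) (b (a (c (l 304573580007) (l 311016030823)) (b (a (a (l 319605965063) (b (l 199883751719) (a (l 16777424) (l 16776984)))) (a (l 16777080) (l 16776240))) (a (a (b (a (l 273971937463) (l 16777152)) (l 16776992)) (l 16776648)) (l 16775872)))) (b (a (a (l 3) (a (c (l 227264168151) (l 235854102631)) (c (l 16777008) (l 16777584)))) (c (l 16775752) (l 16775784))) (a (c (a (l 226190426295) (l 16776664)) (a (c (l 233169748119) (l 236390973575)) (l 16777168))) (c (l 16775120) (l 16775168)))))))))))), by decide +kernel⟩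

def k26_pm_102_s : ∃ t, chk3 f_pm_102_s t 62 32 1 = true :=
  ⟨(l 14), by decide +kernel⟩

def k27_pm_102_s : ∃ t, chk3 f_pm_102_s t 62 66 1 = true :=
  ⟨(a (a (l 3) (a (l 3) (l 14))) (l 14)), by decide +kernel⟩

def k28_pm_102_s : ∃ t, chk3 f_pm_102_s t 124 134 1 = true :=
  ⟨(a (b (b (l 3) (b (l 3) (a (l 3) (a (l 3) (c (l 269140099415) (l 277193163047)))))) (b (a (l 3) (b (a (l 3) (a (c (l 220821717127) (l 227264168039)) (a (b (l 156397207879) (l 16776992)) (l 16777128)))) (b (a (l 310479159607) (a (c (l 16777048) (l 16777048)) (l 16776560))) (a (a (l 3) (a (l 247665262775) (l 16777464))) (l 16776520))))) (a (b (l 3) (a (l 3) (a (l 316384739591) (a (c (l 176798302567) (l 184851366151)) (c (l 16777080) (l 68887249463)))))) (a (b (a (b (l 242296553719) (c (l 16777136) (l 97341407735))) (c (l 16776824) (l 16776832))) (c (l 16776472) (l 16776488))) (c (l 16775744) (l 16775776)))))) (a (b (a (b (l 3) (a (b (l 292225548535) (b (a (l 225653555351) (l 16777432)) (c (l 16776944) (l 16776952)))) (b (b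 (c (l 164987142471) (l 169818980007)) (c (l 16777024) (l 16777024))) (l 16776592)))) (a (b (b (l 3) (b (c (l 212231782535) (l 217063620759)) (a (a (l 203641847927) (l 16777496)) (l 16777000)))) (c (l 16776368) (l 16776384))) (b (b (l 14) (c (l 16776760) (l 16776768))) (c (l 16775848) (l 16775872))))) (b (a (c (l 16775928) (l 16775952)) (b (a (l 16775472) (l 16773968)) (l 16774608))) (c (a (b (l 16773696) (l 16773080)) (b (l 16772656) (l 16773344))) (b (l 16774544) (l 16773936))))) (a (b (b (l 14) (c (l 16775064) (l 16775112))) (c (b (b (l 16772840) (l 16773536)) (c (l 16773896) (l 16772632))) (a (l 16773888) (b (l 16772344) (l 16772448))))) (b (l 14) (a (b (b (l 16772088) (l 16772792)) (b (l 16772176) (l 16771568))) (c (b (l 16772536) (c (l 16772576) (l 16771320))) (b (l 16772624) (l 16769440)))))))), by decide +kernel⟩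

def k29_pm_102_s : ∃ t, chk3 f_pm_102_s t 124 135 1 = true :=
  ⟨(a (a (b (b (a (b (c (l 281488130407) (l 290078064935)) (a (c (l 231559135463) (l 240149069943)) (a (b (l 186461978903) (l 16777032)) (l 16777248)))) (a (b (c (l 83382763671) (a (l 135459242471) (l 16777008))) (l 16776544)) (b (l 16776640) (l 16776032)))) (b (a (a (c (l 16776928) (l 16777592)) (l 16776448)) (l 16775672)) (c (l 16775552) (l 16775592)))) (c (a (c (l 16774488) (l 16774512)) (a (l 16774048) (b (l 16772520) (l 16772560)))) (b (b (l 16774976) (l 16774368)) (a (l 16772312) (l 16771616))))) (b (c (c (b (l 16775016) (a (l 16772976) (l 16771928))) (a (a (l 16775192) (l 16774680)) (l 16773896))) (b (a (l 16775584) (l 16774560)) (l 16774184))) (a (c (b (c (l 16773024) (l 16773064)) (l 16773088)) (b (l 16771832) (l 16769288))) (c (b (c (l 16771968) (l 16772024)) (l 16770728)) (b (l 16769496) (l 16770880)))))) (a (a (b (c (a (b (l 16772408) (l 16772472)) (b (l 16771888) (l 16771944))) (b (c (l 16772208) (l 16772256)) (l 16771008)))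 (c (b (l 16772256) (a (b (l 16770256) (l 16769704)) (l 16769032))) (b (l 16768464) (l 16770040)))) (b (c (b (c (l 16772392) (l 16772432)) (c (l 16771120) (l 16771176))) (b (l 16771208) (c (l 16771248) (l 16771320)))) (b (c (a (b (l 16770472) (l 16769952)) (l 16769936)) (l 16770272)) (l 16767544)))) (b (a (c (b (b (l 16771672) (l 16771040)) (a (b (l 16770680) (l 16768880)) (l 16770184))) (b (c (l 16769472) (l 16770200)) (l 16771152))) (b (c (a (b (l 16770888) (l 16769120)) (l 16770424)) (l 16771376)) (l 16770680))) (c (b (l 16769584) (l 16768032)) (l 16768688))))), by decide +kernel⟩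

def k30_pm_102_s : ∃ t, chk3 f_pm_102_s t 125 67 1 = true :=
  ⟨(b (a (b (l 14) (b (l 14) (a (a (a (c (b (l 16771088) (l 16769360)) (l 16771032)) (b (l 14) (l 16770568))) (l 14)) (l 14)))) (l 14)) (a (a (a (b (c (l 16769648) (l 16769552)) (b (a (l 16767640) (l 16766880)) (l 16765704))) (b (c (l 16768120) (l 16768032)) (b (l 16765736) (l 16764176)))) (b (a (b (l 14) (l 16765752)) (l 14)) (c (a (l 16763448) (l 16761888)) (l 16765248)))) (b (l 14) (a (c (c (l 16759536) (l 16759512)) (l 16759520)) (l 14))))), by decide +kernel⟩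

def k31_pm_102_s : ∃ t, chk3 f_pm_102_s t 63 16 1 = true :=
  ⟨(l 14), by decide +kernel⟩

def k32_pm_102_s : ∃ t, chk3 f_pm_102_s t 60 34 1 = true :=
  ⟨(b (l 3) (a (l 3) (b (a (l 3) (b (l 3) (b (a (l 3) (a (l 273971937575) (b (a (l 284172485031) (l 16777768)) (l 16778072)))) (a (c (l 235854102871) (a (l 3) (l 214916137031))) (a (a (b (l 146733532071) (l 16776728)) (l 16776544)) (l 16775800)))))) (a (b (b (l 3) (a (l 3) (a (l 278803775799) (b (l 152102240855) (l 16776792))))) (a (c (b (l 235317231943) (c (l 61907928471) (l 64055411799))) (b (l 241222811895) (a (l 135459243399) (l 16776472)))) (b (c (l 16777560) (a (l 16778064) (l 16775856))) (l 16774992)))) (b (a (a (b (a (l 205252461479) (b (l 218674233767) (l 16776888))) (l 16776160)) (c (l 16777088) (b (l 16776480) (l 16775200)))) (c (l 16774248) (l 16774360))) (a (c (l 16773584) (l 16773736)) (a (l 16772144) (l 16771136)))))))), by decide +kernel⟩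

def k33_pm_102_s : ∃ t, chk3 f_pm_102_s t 122 68 1 = true :=
  ⟨(b (a (l 3) (b (l 3) (a (l 3) (a (l 3) (b (l 3) (c (l 257328939367) (l 263771390247))))))) (a (b (l 3) (a (l 3) (a (c (l 275582550567) (b (l 3) (l 250349617367))) (b (l 306721063319) (a (b (l 226190426551) (l 16776912)) (b (l 55465477207) (l 16776432))))))) (a (b (b (l 3) (a (l 3) (b (l 266455744759) (a (l 193441301015) (l 16777616))))) (a (b (b (c (l 194515042871) (l 199346881047)) (c (l 16776904) (l 16777888))) (l 16775992)) (b (c (l 16776256) (l 16776288)) (l 16774968)))) (a (b (c (b (l 213842395303) (l 16777816)) (a (b (l 323900932407) (l 16777752)) (b (b (l 3) (l 112373793575)) (l 16776312)))) (c (l 16774560) (l 16774648))) (b (b (b (a (a (l 232096006503) (l 116131889847)) (l 16776864)) (l 16776496)) (l 16775528)) (c (l 16773520) (l 16773640))))))), by decide +kernel⟩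

def k34_pm_102_s : ∃ t, chk3 f_pm_102_s t 122 69 1 = true :=
  ⟨(b (a (b (a (a (b (l 3) (b (l 226727297671) (a (l 137606726535) (l 16776840)))) (b (a (l 286319968535) (b (l 3) (l 71571604663))) (c (l 16776392) (l 16776416)))) (a (b (a (b (l 118816244711) (l 16776648)) (l 16777120)) (l 16775400)) (c (l 16775000) (l 16775072)))) (c (a (b (l 16775576) (l 16774216)) (l 16772808)) (a (b (l 16775632) (l 16774328)) (l 16772968)))) (a (b (c (l 16774096) (a (l 16774072) (l 16773064))) (b (c (l 16768776) (l 16768984)) (a (l 16768048) (l 16767016)))) (b (c (b (c (l 16772000) (l 16772072)) (c (l 16770632) (l 16770728))) (l 16771552)) (a (c (l 16771776) (l 16766816)) (c (l 16768112) (l 16765808)))))) (a (a (a (b (l 16773432) (l 16770112)) (b (l 16773064) (b (l 16769760) (l 16768440)))) (a (b (l 16771664) (c (l 16767896) (l 16768272))) (b (c (l 16772184) (l 16767224)) (c (l 16766848) (l 16767264))))) (b (a (c (b (l 16768672) (l 16767312)) (b (l 16768984) (l 16767688))) (a (c (b (l 16767104) (l 16760664)) (l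 16766896)) (c (b (l 16763592) (l 16765448)) (l 16766296)))) (a (b (a (l 16766672) (a (l 16760704) (l 16760400))) (c (l 16763864) (l 16765640))) (c (l 16764768) (l 16765192)))))), by decide +kernel⟩

def k35_pm_102_s : ∃ t, chk3 f_pm_102_s t 123 136 1 = true :=
  ⟨(a (a (b (l 3) (a (b (l 315310997975) (b (a (l 249275875735) (a (l 116131889847) (l 16776992))) (c (l 16776720) (l 16777392)))) (c (b (b (l 203641848247) (l 16777912)) (l 16776032)) (b (b (l 215989878199) (a (l 118279373447) (l 16776752))) (l 16776064))))) (a (b (b (l 3) (a (c (l 240149070071) (l 246591520967)) (b (l 246591520919) (b (l 16777592) (l 16776832))))) (b (c (l 16776280) (l 16776792)) (l 16775024))) (b (a (b (l 305647321447) (b (b (l 119889985511) (l 16776944)) (l 16776480))) (b (b (l 3) (b (l 174113948151) (l 16777696))) (l 16776448))) (c (l 16774928) (b (l 16775304) (l 16771424)))))) (b (b (a (b (a (a (c (l 140291080855) (l 146196660791)) (l 16777232)) (l 16776056)) (c (l 16775928) (l 16775960))) (c (l 16774168) (l 16774240)))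 (a (c (l 16774968) (l 16775032)) (a (l 16773456) (b (l 16771424) (l 16769480))))) (a (c (a (l 16774216) (b (l 16770544) (l 16771864))) (c (l 16773120) (l 16773840))) (c (a (b (l 16772112) (l 16770816)) (b (l 16771064) (l 16769768))) (b (c (l 16769080) (l 16769168)) (c (l 16770432) (l 16770544))))))), by decide +kernel⟩

def k36_pm_102_s : ∃ t, chk3 f_pm_102_s t 123 137 1 = true :=
  ⟨(a (b (b (a (c (l 16775256) (l 16775312)) (b (l 16773544) (l 16772904))) (c (a (l 16773944) (c (l 16769200) (l 16771896))) (b (l 16773680) (l 16772712)))) (c (a (c (b (l 16769976) (l 16771256)) (b (l 16770032) (l 16771336))) (a (b (l 16771056) (l 16769720)) (l 16771960))) (a (l 16772120) (b (l 16768120) (l 16766832))))) (a (b (c (b (c (l 16771040) (l 16771120)) (l 16772384)) (b (c (l 16771208) (l 16768688)) (l 16767360))) (c (b (a (l 16768960) (a (l 16768176) (l 16765200))) (a (a (l 16767888) (l 16764912)) (l 16767248))) (b (l 16769400) (l 16768504)))) (b (c (b (a (l 16769504) (a (l 16768728) (l 16765752))) (a (a (l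 16768456) (l 16765480)) (l 16767824))) (b (a (l 16769728) (l 16768824)) (a (l 16768568) (l 16768080)))) (c (b (l 16767424) (l 16766880)) (l 16767424))))), by decide +kernel⟩

def k37_pm_102_s : ∃ t, chk3 f_pm_102_s t 123 69 1 = true :=
  ⟨(a (a (b (b (b (c (l 16772568) (l 16767568)) (c (l 16768592) (l 16768880))) (a (b (l 16767904) (b (l 16764288) (l 16761184))) (b (b (l 16763288) (l 16764112)) (l 16766232)))) (c (b (l 16765360) (l 16764264)) (l 16767824))) (b (b (c (b (a (l 16768376) (c (l 16764760) (l 16764896))) (a (c (l 16764456) (l 16767216)) (l 16766664))) (b (l 16768200) (l 16767296))) (c (l 16765984) (l 16766312))) (c (l 16763152) (l 16762856)))) (a (b (b (a (b (l 16763168) (l 16766552)) (l 16766576)) (l 16764776)) (c (l 16760424) (l 16760136))) (b (c (l 16763616) (l 16763384)) (b (l 16764232) (l 16756008))))), by decide +kernel⟩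

def k38_pm_102_s : ∃ t, chk3 f_pm_102_s t 60 35 1 = true :=
  ⟨(b (a (b (a (b (l 3) (a (l 3) (b (l 316384739863) (a (l 218674234343) (a (l 85530249031) (l 16776712)))))) (b (b (a (l 3) (a (l 269140099335) (b (l 138680468823) (l 16776752)))) (a (c (l 225116684551) (l 230485393607)) (c (l 16776208) (l 16777560)))) (b (a (a (a (l 168208368887) (l 64592283559)) (l 16776384)) (l 16774952)) (c (l 16774544) (l 16774680))))) (a (c (b (a (b (l 193978172839) (l 16776584)) (l 16775432)) (l 16773784)) (b (a (b (l 212768653399) (l 33453771127)) (l 16776840)) (l 16773984))) (c (b (l 16772568) (l 16770008)) (b (l 16772808) (l 16770416))))) (b (a (c (b (a (l 16774928) (l 16772920)) (l 16771256)) (b (a (l 16775032) (l 16773112)) (l 16771544))) (b (c (c (a (l 16765584) (l 16768768)) (b (l 16765360) (l 16764040))) (l 16770192)) (a (l 16771064) (b (l 16761848) (a (l 16766328) (l 16760096)))))) (a (a (c (l 16770992) (l 16768848)) (b (l 16767904) (c (b (l 16765808) (l 16759392)) (l 16765888)))) (a (b (b (l 16761328)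 (l 16767328)) (c (b (l 16764136) (l 16763480)) (l 16764576))) (b (a (b (l 16759872) (l 16764288)) (l 16765936)) (l 16763352)))))) (b (a (a (c (b (l 16771272) (l 16768904)) (b (l 16771648) (l 16769472))) (a (b (l 16768760) (l 16766560)) (b (l 16766952) (b (l 16765312) (l 16767048))))) (a (b (a (c (l 16764816) (l 16765568)) (c (l 16763560) (l 16764344))) (c (l 16765592) (l 16763072))) (c (l 16760912) (l 16760312)))) (b (a (a (c (l 16766712) (l 16767320)) (a (a (l 16765008) (l 16768264)) (l 16768664))) (a (l 16760232) (l 16755856))) (a (a (a (l 16765776) (b (l 16764888) (l 16768664))) (c (l 16761560) (l 16760776))) (a (c (l 16757352) (l 16748704)) (c (l 16753032) (l 16752264))))))), by decide +kernel⟩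

def k39_pm_102_s : ∃ t, chk3 f_pm_102_s t 61 35 1 = true :=
  ⟨(b (a (b (a (b (a (c (b (l 16767448) (l 16766112)) (c (l 16761864) (l 16762120))) (a (b (l 16766104) (l 16765080)) (b (l 16765312) (l 16764640)))) (a (c (b (a (l 16765328) (l 16764600)) (l 16764216)) (l 16765888)) (l 16764032))) (c (b (l 16763976) (l 16762200)) (l 16763328))) (a (c (l 16762504) (l 16762024)) (c (l 16757672) (l 16757216)))) (b (b (a (a (l 16761184) (l 16753288)) (c (l 16754584) (l 16754280))) (a (a (l 16752936) (l 16755544)) (c (l 16751640) (l 16751312)))) (a (b (a (l 16755168) (l 16752560)) (l 16761352)) (c (a (l 16748592) (l 16745848)) (l 16752096))))) (a (c (b (a (l 16756344) (l 16762088)) (a (l 16760632) (l 16745512))) (b (a (l 16755768) (l 16761544)) (a (l 16759944) (l 16744864)))) (a (a (b (l 16747624) (l 16741560)) (b (l 16745072) (b (l 16740552) (l 16748016)))) (b (c (a (l 16742672) (l 16740016)) (a (l 16742216) (l 16739520))) (b (l 16741888) (c (l 16734016) (l 16733216))))))), by decide +kernel⟩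

def k40_pm_102_s : ∃ t, chk3 f_pm_102_s t 62 68 1 = true :=
  ⟨(a (a (a (b (b (c (b (a (l 16770960) (l 16771552)) (c (l 16772064) (l 16768856))) (a (b (l 16770088) (l 16771464)) (b (l 16771688) (l 16770440)))) (c (b (a (l 16770016) (b (a (l 16769552) (l 16769080)) (l 16766232))) (a (b (l 16766432) (l 16765960)) (l 16768376))) (b (a (l 16770216) (l 16769320)) (a (l 16769072) (l 16768600))))) (b (c (a (l 16767848) (l 16767600)) (l 16767952)) (l 16765224))) (b (b (c (b (a (l 16770496) (c (b (l 16768464) (l 16766712)) (l 16769664))) (a (b (a (l 16769800) (l 16769336)) (l 16767144)) (l 16768912))) (b (a (l 16770664) (l 16769808)) (a (l 16769568) (l 16769104)))) (c (a (l 16769056) (l 16767816)) (l 16768368))) (a (c (l 16764024) (l 16764504)) (b (l 16764672) (l 16761616))))) (b (a (b (c (c (l 16768720) (l 16768656)) (l 16768544)) (c (l 16765608) (l 16765472))) (b (c (a (l 16766456) (l 16770192)) (l 16765592)) (c (l 16767864) (l 16767760)))) (a (c (b (l 16767784) (l 16759496)) (b (b (l 16763168) (l 16761640))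 (l 16759352))) (b (c (l 16759552) (l 16759448)) (c (l 16756512) (l 16756400)))))) (b (a (a (c (b (c (l 16762688) (l 16762640)) (l 16759576)) (b (l 16767832) (l 16759512))) (b (c (l 16762192) (l 16759536)) (c (l 16756488) (l 16756456)))) (a (b (c (a (l 16757216) (l 16755616)) (l 16759040)) (c (a (l 16754128) (l 16752616)) (a (l 16754136) (l 16752584)))) (a (b (b (l 14) (l 16753304)) (l 16751032)) (b (l 14) (l 16749488))))) (a (c (a (b (l 16756512) (l 16753472)) (b (a (l 16754200) (l 16752648)) (a (l 16751176) (l 16749688)))) (a (b (l 16756448) (l 16753408)) (b (l 16753384) (l 16750360)))) (a (c (b (l 16750408) (l 16747448)) (b (l 16750312) (l 16747232))) (c (c (l 16746008) (l 16745824)) (l 16745600)))))), by decide +kernel⟩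

def k41_pm_102_s : ∃ t, chk3 f_pm_102_s t 62 69 1 = true :=
  ⟨(a (a (b (a (b (a (l 16757656) (l 16761472)) (l 16764408)) (b (l 16764552) (l 16761536))) (b (c (l 16760088) (l 16754632)) (c (l 16751872) (l 16751640)))) (a (b (b (l 16761632) (l 16753368)) (b (l 16750376) (c (l 16747488) (l 16747304)))) (b (b (l 16758656) (c (l 16750464) (l 16750344))) (b (a (l 16748144) (l 16746680)) (l 16744456))))) (b (a (a (c (b (l 16750456) (l 16747520)) (b (l 16750368) (l 16747360))) (c (l 16747984) (l 16745776))) (c (a (l 16743048) (l 16740016)) (a (l 16742640) (l 16739456)))) (a (c (a (l 16743136) (l 16740192)) (l 16743864)) (c (a (l 16737192) (l 16734152)) (a (l 16736528) (l 16733320)))))), by decide +kernel⟩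

def k42_pm_102_s : ∃ t, chk3 f_pm_102_s t 62 35 1 = true :=
  ⟨(a (b (a (b (a (c (l 16748896) (l 16748616)) (b (l 16747336) (l 16744392))) (a (c (l 16743056) (l 16742688)) (c (l 16740256) (l 16739800)))) (b (a (c (l 16745784) (l 16742832)) (c (l 16740264) (l 16739792))) (c (l 16735968) (l 16735288)))) (b (a (c (l 16735912) (l 16735224)) (c (l 16730232) (l 16729240))) (a (b (l 16731096) (c (l 16728664) (l 16727576))) (b (l 16725304) (c (l 16723056) (l 16721656)))))) (b (a (b (c (a (l 16737344) (l 16734376)) (l 16735160)) (c (l 16730088) (l 16729088))) (c (b (a (l 16731368) (l 16728304)) (a (l 16725568) (l 16722488))) (b (l 16728808) (l 16722704)))) (b (a (c (l 16724352) (l 16723040)) (c (l 16718248) (l 16716616))) (a (b (l 16719256) (c (l 16717176) (l 16715456))) (b (c (l 16713928) (l 16712056)) (c (l 16711064) (l 16709024))))))), by decide +kernel⟩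

def k43_pm_102_s : ∃ t, chk3 f_pm_102_s t 63 34 1 = true :=
  ⟨(a (b (a (a (b (a (c (l 16750864) (l 16749360)) (l 14)) (c (c (l 16743000) (l 16742728)) (l 16742384))) (b (l 14) (c (c (l 16739936) (l 16739584)) (l 16739120)))) (a (a (b (l 14) (b (l 14) (l 16735480))) (l 14)) (l 14))) (a (b (c (a (l 16739568) (c (l 16734064) (l 16733592))) (a (l 16736216) (l 16732936))) (c (a (l 16731064) (l 16727920)) (a (l 16730064) (l 16726760)))) (b (c (a (c (l 16730936) (l 16730384)) (c (l 16727760) (l 16727128))) (a (l 16729600) (l 16726208))) (c (a (c (l 16725080) (l 16724392)) (c (l 16721888) (l 16721120))) (a (l 16723408) (l 16720000)))))) (b (l 14) (b (b (l 14) (a (a (c (l 16722680) (l 16721208)) (l 14)) (l 14))) (a (c (a (c (l 16718640) (l 16717784)) (c (l 16717312) (l 16714408))) (a (l 16716536) (c (l 16713480) (l 16712568)))) (a (a (b (l 14) (a (l 16710248) (l 16710680))) (l 14)) (l 14)))))), by decide +kernel⟩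

def k44_pm_102_s : ∃ t, chk3 f_pm_102_s t 63 70 1 = true :=
  ⟨(a (a (c (b (a (l 16725200) (l 16722048)) (a (l 16719368) (l 16716192))) (b (a (l 16723920) (l 16720600)) (l 16718752))) (c (b (a (l 16718840) (c (l 16716040) (l 16715136))) (a (l 16712976) (l 16709704))) (b (a (l 16717224) (l 16713800)) (a (l 16711056) (l 16707616))))) (a (c (b (a (c (l 16712784) (l 16711784)) (c (l 16709472) (l 16708384))) (a (c (l 16706952) (l 16705808)) (c (l 16703624) (l 16702392)))) (b (a (l 16710320) (c (l 16707320) (l 16706256))) (a (l 16704120) (l 16700568)))) (c (b (b (a (l 16707008) (c (l 16704160) (l 16702936))) (a (l 16704032) (c (l 16701216) (l 16699920)))) (a (c (l 16700240) (l 16698920)) (c (b (l 16698272) (l 16695344)) (b (l 16696904) (l 16693896))))) (b (a (c (l 16703776) (l 16702624)) (b (l 16701120) (l 16697992))) (a (c (l 16697608) (l 16696312)) (b (l 16694856) (l 16691736))))))), by decide +kernel⟩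

def k45_pm_102_s : ∃ t, chk3 f_pm_102_s t 63 71 1 = true :=
  ⟨(a (b (a (c (a (l 16713560) (l 16710376)) (l 16710000)) (c (a (l 16707136) (l 16703848)) (a (l 16704912) (l 16701448)))) (a (b (c (l 16707624) (l 16705416)) (c (c (l 16705344) (l 16704144)) (l 16702368))) (b (c (l 16701128) (l 16698576)) (c (c (l 16698912) (l 16697544)) (c (l 16696184) (l 16694832)))))) (b (a (c (a (l 16700504) (c (l 16697808) (l 16696424))) (a (l 16697936) (l 16694360))) (c (a (c (l 16694408) (l 16692936)) (c (b (l 16692416) (l 16689504)) (l 16690712))) (a (c (l 16691472) (l 16690008)) (c (l 16687840) (l 16686280))))) (a (b (c (a (l 16696128) (l 16692720)) (a (l 16693304) (l 16689720))) (b (c (l 16692240) (l 16689208)) (c (c (l 16691560) (l 16690000)) (c (l 16688448) (l 16686888))))) (b (c (a (l 16689264) (l 16685760)) (a (l 16686088) (l 16682392))) (b (c (a (l 16687072) (l 16683552)) (a (l 16683760) (l 16680064))) (c (a (l 16685608) (c (l 16682984) (l 16681200))) (a (l 16682216) (c (l 16679408) (l 16677616))))))))),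 by decide +kernel⟩

def k46_pm_102_s : ∃ t, chk3 f_pm_102_s t 28 18 1 = true :=
  ⟨(b (b (l 3) (a (l 3) (a (b (l 3) (a (l 3) (b (l 3) (a (l 3) (c (l 210084301783) (l 207936817991)))))) (b (a (l 3) (b (l 3) (a (l 286319969255) (b (l 222969203047) (l 16779384))))) (a (a (b (l 3) (b (l 134385503127) (l 16776160))) (b (c (l 170892722951) (l 170892725223)) (l 16775312))) (a (b (b (l 80161541127) (l 16775736)) (l 16773800)) (b (l 16774856) (l 16772280)))))))) (a (a (b (l 3) (b (b (a (l 3) (a (l 170355855655) (l 16779240))) (a (c (a (l 185388239911) (l 16776680)) (l 130627398359)) (l 16774824))) (a (c (l 16773616) (l 16773680)) (c (l 16771704) (l 16771096))))) (b (b (a (l 3) (b (l 3) (l 307257935079))) (b (a (l 323364062487) (a (a (l 195588787383) (l 117205634759)) (l 16778928))) (a (a (a (l 214379269239) (l 137069858487)) (l 16779112)) (l 16774448)))) (b (c (a (l 16773408) (l 16770648)) (a (l 16773384) (l 16770600))) (c (a (l 16768408) (l 16765624)) (a (l 16768408) (l 16765592)))))) (b (a (b (a (a (b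 (l 3) (c (l 130090536471) (l 129016794343))) (b (l 255181456071) (l 16778664))) (a (b (b (l 183240755895) (l 16776528)) (l 16774592)) (b (l 16775704) (l 16773128)))) (a (b (l 16774184) (l 16771616)) (b (l 16771280) (l 16768712)))) (b (a (b (a (l 16774224) (l 16772728)) (l 16770896)) (c (l 16769240) (l 16769072))) (c (a (l 16767096) (l 16764104)) (a (l 16766936) (l 16763864))))) (a (b (c (a (l 16767824) (l 16764928)) (a (l 16767736) (l 16764792))) (a (c (l 16762784) (l 16762704)) (b (l 16761072) (l 16758584)))) (b (a (c (l 16761976) (l 16761784)) (b (l 16760152) (c (l 16757656) (l 16757400)))) (a (b (c (l 16758160) (l 16757984)) (l 16755432)) (c (l 16753584) (l 16753360)))))))), by decide +kernel⟩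

def k47_pm_102_s : ∃ t, chk3 f_pm_102_s t 58 18 1 = true :=
  ⟨(a (a (b (b (l 3) (b (b (b (c (l 232096004055) (l 229948520359)) (a (l 185925110487) (l 16776288))) (c (l 16776472) (l 16776408))) (b (a (l 16773320) (l 16771768)) (l 16769968)))) (b (b (c (l 16766200) (l 16765952)) (b (l 16762208) (c (l 16759784) (l 16759472)))) (b (b (c (l 16757096) (l 16756776)) (l 16754224)) (l 16750096)))) (b (b (b (l 3) (b (c (l 295446775255) (l 295983645991)) (a (a (l 252497100071) (b (l 297057387623) (l 16776872))) (c (l 16778928) (l 16778984))))) (b (c (b (l 16774608) (l 16772064)) (b (l 16774520) (l 16771912))) (b (l 16769424) (l 16766848)))) (b (b (c (l 16763128) (l 16762784)) (b (c (l 16759240) (l 16758864)) (c (l 16756488) (l 16756104)))) (b (l 16757384) (c (l 16757272) (l 16746504)))))) (b (b (b (a (b (l 3) (a (l 3) (c (l 224042942903) (b (l 3) (l 158544693287))))) (a (b (l 306184192983) (b (a (l 186461980439) (l 16776864)) (l 16776008))) (b (b (l 233706620807) (a (l 113447536887) (l 16776512))) (c (l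 16775072) (l 16774976))))) (a (a (b (b (l 200957495879) (l 16778960)) (l 16774752)) (b (c (l 16775736) (l 16775680)) (l 16773144))) (c (b (l 16773368) (l 16770880)) (b (l 16773216) (l 16770640))))) (b (a (b (a (l 16772184) (l 16770592)) (l 16768824)) (c (l 16767096) (l 16766744))) (a (c (l 16765136) (l 16764784)) (b (l 16763104) (c (l 16760728) (l 16760248)))))) (b (b (a (b (c (l 16761312) (l 16760896)) (c (l 16758624) (l 16758184))) (b (c (l 16757960) (l 16757464)) (l 16754904))) (a (c (l 16754424) (l 16754000)) (l 16753272))) (c (b (l 16752256) (a (l 16743288) (l 16739792))) (b (a (l 16737952) (l 16744896)) (a (l 16743000) (l 16739496))))))), by decide +kernel⟩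

def k48_pm_102_s : ∃ t, chk3 f_pm_102_s t 59 18 1 = true :=
  ⟨(a (b (b (b (a (c (b (a (l 16775960) (l 16774352)) (l 16772696)) (b (a (l 16778512) (l 16774208)) (l 16772544))) (c (b (l 16772016) (l 16769456)) (b (l 16771744) (l 16769384)))) (a (b (a (l 16770976) (l 16769472)) (l 16769048)) (c (l 16765504) (l 16765832)))) (b (a (b (l 16765232) (c (l 16762656) (l 16762456))) (b (c (l 16761784) (l 16762136)) (c (l 16759808) (l 16759392)))) (a (b (c (l 16760248) (l 16759728)) (l 16757192)) (c (l 16755640) (l 16755152))))) (b (b (c (l 16754112) (l 16756272)) (a (b (l 16759144) (l 16745872)) (c (l 16744320) (l 16743960)))) (b (c (c (l 16750912) (l 16750736)) (a (l 16741576) (l 16738552))) (a (l 16746816) (l 16743800))))) (a (b (b (b (c (b (l 16768896) (l 16766168)) (b (l 16768520) (l 16766296))) (b (c (l 16768704) (l 16764064)) (c (l 16761176) (l 16761584)))) (b (c (l 16758112) (l 16757608)) (l 16752296))) (b (c (l 16749432) (l 16749136)) (b (l 16725376) (l 16720072)))) (b (b (b (b (c (l 16768272) (a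 (l 16766152) (l 16764592))) (a (l 16769384) (l 16767952))) (c (l 16762544) (l 16760760))) (b (l 16754536) (l 16749264))) (b (c (l 16741360) (l 16741184)) (b (l 16722784) (l 16728040)))))), by decide +kernel⟩

def k49_pm_102_s : ∃ t, chk3 f_pm_102_s t 30 18 1 = true :=
  ⟨(b (a (b (a (b (a (b (c (l 16768232) (b (l 16767752) (l 16761344))) (l 16759896)) (c (l 16757520) (l 16756792))) (c (l 16757208) (l 16756008))) (b (a (b (a (l 16755272) (l 16753192)) (l 16741552)) (b (l 16760512) (l 16747984))) (a (a (l 16739208) (l 16747808)) (c (l 16745144) (l 16744752))))) (c (a (a (l 16751480) (l 16745592)) (b (a (l 16744504) (l 16740952)) (l 16738336))) (a (b (l 16749320) (l 16744576)) (a (l 16742144) (l 16744120))))) (b (a (a (b (c (l 16745080) (l 16744472)) (c (l 16741192) (l 16740888))) (b (c (l 16751128) (l 16750592)) (b (l 16748256) (l 16733376)))) (b (a (b (c (l 16736800) (l 16736176)) (l 16745336)) (c (l 16741424) (l 16740608))) (c (a (l 16732448) (l 16727504)) (a (l 16732008) (l 16726816))))) (a (b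 (a (c (l 16726760) (l 16726720)) (b (l 16734112) (l 16732080))) (a (l 16735752) (c (l 16728968) (l 16728888)))) (c (b (a (l 16728632) (l 16723784)) (l 16732664)) (b (l 16736256) (l 16732264)))))) (a (a (b (b (l 16745016) (l 16739992)) (b (a (l 16720400) (l 16728416)) (a (c (l 16735984) (l 16715232)) (l 16722792)))) (b (b (a (l 16735512) (l 16732328)) (a (l 16730752) (l 16727352))) (b (c (l 16707904) (l 16723856)) (l 16725432)))) (b (a (c (b (a (l 16728488) (l 16724456)) (a (l 16723568) (l 16719656))) (l 16731992)) (b (b (l 16729232) (l 16737480)) (a (l 16736272) (l 16710672)))) (a (c (b (l 16737456) (l 16711056)) (l 16713744)) (b (c (l 16708288) (l 16707984)) (c (l 16703096) (l 16702776))))))), by decide +kernel⟩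

def k50_pm_102_s : ∃ t, chk3 f_pm_102_s t 62 18 1 = true :=
  ⟨(a (b (b (a (b (c (b (l 16726432) (l 16724824)) (l 16735024)) (c (l 16722280) (l 16721320))) (b (b (c (l 16720840) (l 16719408)) (l 16718576)) (c (l 16716768) (l 16715528)))) (b (c (a (l 16718632) (l 16713192)) (l 16725464)) (a (l 16724808) (l 16719328)))) (b (b (c (l 16707896) (l 16707144)) (c (l 16703456) (l 16702784))) (b (c (l 16698752) (l 16698136)) (c (l 16693784) (l 16693184))))) (b (b (b (a (c (b (l 16714992) (l 16713432)) (b (l 16713240) (l 16711776))) (c (b (l 16708872) (l 16707328)) (b (l 16706800) (l 16705360)))) (a (c (l 16710968) (l 16709448)) (c (l 16704896) (l 16703072)))) (b (c (a (l 16707448) (l 16701424)) (a (l 16706096) (l 16699792))) (a (l 16713528) (c (l 16697696) (l 16696224))))) (b (c (a (l 16718472) (l 16707352)) (c (l 16709456) (l 16714176))) (b (c (l 16687888) (l 16686912)) (c (l 16683104) (l 16682208)))))), by decide +kernel⟩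

def k51_pm_102_s : ∃ t, chk3 f_pm_102_s t 63 18 1 = true :=
  ⟨(a (b (b (b (a (c (b (c (l 16703144) (l 16701936)) (l 16700984)) (b (l 16700136) (l 16698696))) (c (b (c (l 16696688) (l 16695320)) (l 16694416)) (b (c (l 16693944) (l 16692576)) (l 16691792)))) (a (c (b (l 16699368) (l 16697704)) (l 16696416)) (c (b (l 16692776) (l 16691104)) (b (l 16690272) (l 16688720))))) (a (c (b (l 16695104) (l 16691416)) (b (l 16693184) (l 16689688))) (b (c (l 16688496) (l 16686280)) (c (l 16684840) (l 16682840))))) (b (b (c (a (l 16687480) (l 16680944)) (l 16693048)) (c (l 16690576) (l 16678576))) (c (a (l 16676568) (l 16691144)) (b (l 16674328) (l 16669824))))) (b (b (b (a (c (b (b (a (l 16691368) (l 16687944)) (l 16688864)) (c (l 16688384) (l 16686904))) (b (c (a (l 16688720) (l 16685160)) (l 16685400)) (c (l 16685424) (l 16683944)))) (c (b (a (c (l 16684912) (l 16683232)) (b (a (l 16681840) (l 16680064)) (l 16680136))) (c (a (l 16683240) (l 16679736)) (l 16679832))) (b (a (c (l 16681552) (l 16679872)) (b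 (a (l 16678304) (l 16676432)) (l 16676624))) (c (l 16678176) (l 16676528))))) (a (c (b (l 16685976) (l 16684272)) (b (l 16683144) (l 16681568))) (c (b (c (l 16679768) (l 16678168)) (l 16677224)) (b (c (l 16676584) (l 16675008)) (l 16674192))))) (a (b (c (b (l 16682520) (l 16680736)) (l 16679120)) (c (l 16677960) (l 16675680))) (b (c (b (l 16675448) (l 16673624)) (b (l 16672544) (l 16670856))) (c (b (l 16671768) (l 16669872)) (l 16668256))))) (b (b (a (c (l 16674096) (l 16672032)) (c (l 16666944) (l 16664608))) (a (c (l 16670008) (l 16668144)) (c (l 16662880) (l 16660768)))) (a (b (l 16675296) (l 16660336)) (c (b (l 16658600) (l 16654096)) (l 16667680)))))), by decide +kernel⟩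

def k52_pm_102_s : ∃ t, chk3 f_pm_102_s t 28 19 1 = true :=
  ⟨(b (a (b (a (b (c (a (l 16768440) (l 16765856)) (l 16767344)) (c (l 16761976) (l 16762136))) (b (c (a (l 16763296) (l 16760680)) (l 16762144)) (a (b (l 16759536) (l 16756984)) (c (b (l 16756960) (l 16754392)) (l 16755800))))) (b (a (a (l 16758200) (b (l 16756952) (l 16754728))) (a (l 16758768) (l 16750648))) (a (b (l 16756224) (l 16751016)) (l 16757464)))) (b (a (b (a (b (l 16759048) (l 16753904)) (c (l 16754696) (l 16754632))) (c (l 16756320) (l 16751136))) (b (c (l 16760336) (l 16749720)) (b (l 16745824) (l 16743216)))) (b (a (b (l 16757736) (l 16749952)) (a (l 16730560) (l 16727184))) (a (c (l 16740800) (l 16741072)) (c (c (l 16723776) (l 16713320)) (l 16734456)))))) (a (a (b (c (l 16754720) (l 16755176)) (c (l 16733808) (l 16734416))) (b (a (l 16751056) (l 16748272)) (c (l 16728712) (l 16729368)))) (b (a (c (l 16740992) (l 16733560)) (b (a (l 16730968) (l 16713168)) (b (l 16730472) (l 16723080)))) (b (a (l 16725760) (l 16719456))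 (a (l 16720784) (c (a (l 16715912) (l 16712672)) (l 16714968))))))), by decide +kernel⟩

def k53_pm_102_s : ∃ t, chk3 f_pm_102_s t 29 38 1 = true :=
  ⟨(a (b (a (b (c (c (l 16753632) (l 16753520)) (a (l 16744624) (l 16741168))) (c (a (l 16739488) (l 16736048)) (a (l 16739400) (l 16735944)))) (c (b (a (l 16737888) (l 16734408)) (a (l 16732576) (l 16729112))) (b (a (l 16737672) (l 16734192)) (a (l 16732456) (l 16728992))))) (b (a (c (a (l 16734272) (l 16730832)) (l 16722064)) (c (a (l 16727360) (l 16723904)) (a (l 16727344) (l 16723888)))) (a (c (a (l 16729144) (l 16725696)) (a (l 16729272) (l 16725792))) (c (a (l 16722224) (l 16718768)) (a (l 16722312) (l 16718864)))))) (b (b (a (a (l 16736256) (l 16738528)) (a (l 16735824) (c (l 16733200) (l 16733352)))) (a (a (l 16731024) (l 16728080)) (a (c (b (l 16721440) (l 16718760)) (l 16730648)) (c (l 16727568) (l 16738144))))) (a (b (a (c (l 16720656) (l 16720680)) (b (l 16718984) (c (l 16716320) (l 16716416)))) (b (a (l 16722048) (c (l 16713512) (l 16713584)))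 (a (c (a (l 16715032) (l 16723824)) (l 16724752)) (c (l 16710512) (l 16710496))))) (b (a (c (b (l 16715952) (l 16712944)) (l 16724960)) (c (l 16710968) (l 16710888))) (c (b (l 16708072) (l 16715472)) (c (l 16727304) (l 16727296))))))), by decide +kernel⟩

def k54_pm_102_s : ∃ t, chk3 f_pm_102_s t 29 39 1 = true :=
  ⟨(a (b (a (a (b (l 16745104) (l 16719232)) (b (l 16731152) (l 16715752))) (b (a (l 16727680) (c (b (l 16714944) (l 16712304)) (l 16724240))) (a (c (l 16733000) (l 16733264)) (b (l 16730496) (l 16706520))))) (a (b (c (a (l 16714224) (l 16731544)) (l 16718024)) (a (b (l 16689712) (l 16686968)) (c (l 16705048) (l 16705280)))) (b (c (l 16725288) (a (l 16706648) (l 16702000))) (c (l 16719512) (l 16719232))))) (b (a (b (b (c (a (l 16711352) (l 16707480)) (l 16730336)) (c (l 16706384) (l 16706256))) (a (l 16724704) (l 16720640))) (b (c (l 16721392) (l 16699960)) (c (l 16694376) (l 16693624)))) (c (b (a (l 16695944) (l 16688368)) (a (l 16690048) (l 16682408))) (a (a (l 16704880) (l 16700608))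 (b (l 16687304) (l 16680984)))))), by decide +kernel⟩

def k55_pm_102_s : ∃ t, chk3 f_pm_102_s t 30 19 1 = true :=
  ⟨(b (a (a (b (b (c (c (l 16739248) (l 16739224)) (a (l 16740984) (l 16716728))) (c (l 16733112) (l 16733040))) (b (c (l 16726904) (l 16705680)) (c (b (l 16701232) (l 16719072)) (l 16720176)))) (b (b (b (l 16734392) (l 16710344)) (a (l 16707216) (l 16704048))) (b (c (l 16699480) (l 16699072)) (b (l 16694376) (l 16712128))))) (b (a (b (c (l 16705336) (l 16705144)) (c (l 16699296) (l 16698968))) (b (l 16713136) (l 16712600))) (b (a (l 16713760) (l 16706528)) (a (b (l 16687912) (l 16705672)) (a (l 16702072) (l 16698256)))))) (a (b (a (b (c (l 16693528) (l 16692792)) (c (l 16687464) (l 16686400))) (b (c (l 16686992) (l 16686072)) (c (l 16680952) (l 16679664)))) (b (a (c (l 16681440) (l 16680008)) (c (l 16674928) (l 16673240))) (a (c (a (l 16677144) (l 16673792)) (l 16673616)) (c (a (l 16670536) (l 16667360)) (l 16666800))))) (b (a (c (b (l 16680552) (l 16674568)) (b (l 16679528) (l 16673136)))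 (b (c (l 16673704) (l 16672632)) (c (l 16667848) (l 16666336)))) (a (b (c (l 16668592) (l 16666704)) (c (a (l 16664216) (l 16661032)) (l 16660248))) (b (c (l 16661904) (l 16659880)) (c (a (l 16657720) (l 16654248)) (l 16653440))))))), by decide +kernel⟩

def k56_pm_102_s : ∃ t, chk3 f_pm_102_s t 31 19 1 = true :=
  ⟨(b (a (a (b (c (b (l 16688544) (l 16683032)) (l 16706192)) (b (l 16697848) (a (l 16694064) (l 16689496)))) (b (c (b (l 16678056) (l 16672760)) (b (l 16677216) (l 16671944))) (b (c (l 16667208) (l 16666392)) (c (l 16671952) (l 16660608))))) (a (b (c (b (l 16666176) (l 16661056)) (b (l 16665048) (l 16660008))) (b (c (l 16655696) (l 16654704)) (b (l 16650960) (c (l 16648824) (l 16647808))))) (b (c (a (l 16653880) (l 16657408)) (b (l 16651448) (l 16646608))) (b (c (l 16642728) (l 16641520)) (b (l 16648512) (c (l 16636104) (l 16634936))))))) (a (b (b (a (c (l 16665752) (l 16664624)) (c (l 16656336) (l 16655120))) (a (c (l 16660176) (l 16658576)) (c (l 16651272) (l 16649568)))) (a (b (c (l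 16654520) (l 16652392)) (c (a (l 16650608) (l 16646800)) (l 16646064))) (b (c (l 16646032) (l 16643784)) (c (a (l 16642736) (l 16638376)) (l 16637704))))) (b (a (b (c (l 16645448) (l 16644096)) (c (l 16640848) (l 16638992))) (b (c (l 16633072) (l 16631544)) (c (a (l 16632064) (l 16625736)) (l 16626872)))) (a (b (c (l 16636072) (l 16633656)) (c (a (l 16633640) (l 16628528)) (l 16628088))) (b (c (a (l 16627640) (l 16621552)) (a (l 16625056) (l 16618832))) (c (a (l 16623048) (l 16617192)) (a (l 16619824) (l 16613824)))))))), by decide +kernel⟩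

def k57_pm_102_s : ∃ t, chk3 f_pm_102_s t 12 80 1 = true :=
  ⟨(a (a (b (l 3) (b (l 3) (a (l 3) (c (a (b (l 3) (c (a (l 3) (l 174650819239)) (l 178945786951))) (a (b (l 3) (a (l 75866571879) (l 16776864))) (b (l 153712854087) (l 16776432)))) (a (l 171966466679) (l 78550929223)))))) (b (a (l 3) (b (l 3) (c (a (b (l 3) (c (l 139217339719) (l 131701146695))) (c (b (l 119353115975) (l 16776312)) (l 66739767639))) (a (l 152102242791) (l 16779336))))) (c (a (a (b (b (l 3) (c (l 175724559943) (l 160155305015))) (b (a (l 50096768391) (l 16776360)) (l 16775536))) (c (b (b (l 156397208855) (l 16777888)) (l 16774952)) (b (l 82845894919) (l 16774840)))) (a (b (b (l 16778408) (l 16775352)) (l 16776304)) (b (l 16775984) (l 16772456)))) (a (b (a (l 164450273831) (l 72645348999)) (c (l 16775368) (l 16775288))) (b (c (l 16775152) (l 16775072)) (l 16772712)))))) (b (b (a (a (a (c (b (l 222969199943) (c (l 98952021367) (l 16777080))) (l 131164277383)) (c (c (b (l 76940313975) (l 16775936)) (l 16778360)) (l 16776344)))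 (a (c (c (l 16775208) (l 16775120)) (l 16774992)) (c (l 16775792) (l 16773576)))) (a (c (a (l 16777600) (l 16770768)) (l 16773856)) (c (a (l 16774320) (l 16767264)) (l 16767792)))) (a (c (a (c (a (l 16775624) (l 16774392)) (l 16777528)) (a (l 16775680) (l 16771720))) (a (a (l 16775440) (l 16774088)) (l 16775944))) (a (c (a (l 16770240) (l 16773848)) (l 16768976)) (c (l 16767592) (l 16765464))))) (a (b (c (a (b (l 16775968) (l 16777496)) (a (l 16770912) (l 16769576))) (a (l 16772440) (l 16769736))) (a (c (a (l 16771216) (l 16769960)) (l 16770072)) (c (l 16773288) (l 16767392)))) (a (c (b (l 16769896) (l 16765080)) (b (l 16766672) (l 16764368))) (a (b (l 16764328) (l 16762048)) (b (l 16762448) (l 16760152))))))), by decide +kernel⟩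

def k58_pm_102_s : ∃ t, chk3 f_pm_102_s t 13 80 1 = true :=
  ⟨(a (a (b (b (a (a (l 16766456) (l 16763144)) (c (a (l 16761232) (l 16759024)) (l 16759872))) (a (c (a (l 16763072) (l 16761016)) (l 16761608)) (c (a (l 16758864) (l 16756616)) (l 16757432)))) (a (b (c (a (l 16760784) (l 16758696)) (l 16759232)) (c (a (l 16758496) (l 16761624)) (l 16756856))) (c (b (a (l 16756504) (l 16754232)) (a (l 16754168) (l 16751848))) (b (a (l 16756096) (l 16753904)) (l 16752592))))) (c (b (a (b (a (l 16756720) (l 16759576)) (a (l 16759528) (l 16751864))) (a (l 16758160) (l 16748152))) (a (c (l 16760032) (l 16749336)) (a (l 16745648) (l 16743120)))) (b (a (b (a (l 16756576) (l 16754288)) (a (l 16754104) (l 16751792))) (l 16753768)) (c (a (l 16749248) (l 16744408)) (l 16752176))))) (a (a (c (b (l 16755032) (l 16749920)) (b (a (l 16746008) (l 16743720)) (l 16725344))) (c (b (l 16750400) (l 16734712)) (b (l 16740352) (l 16724720)))) (a (b (c (l 16735352) (l 16735896)) (c (l 16730112) (l 16730728))) (c (b (l 16730736)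 (l 16725552)) (l 16728832))))), by decide +kernel⟩

def k59_pm_102_s : ∃ t, chk3 f_pm_102_s t 24 81 1 = true :=
  ⟨(c (a (a (b (b (c (a (a (l 3) (b (l 3) (b (l 3) (l 147270402615)))) (a (b (l 3) (b (l 148881015271) (l 16776776))) (b (l 186461978327) (l 16776496)))) (a (l 207399943671) (b (l 183240754279) (l 16776728)))) (b (a (c (a (b (a (l 199883751703) (l 71571603927)) (l 16776744)) (c (l 16776480) (l 16776456))) (l 16776704)) (c (l 16776920) (l 16775528))) (c (a (a (l 16776496) (l 16775272)) (l 16774416)) (l 16777496)))) (c (a (b (b (l 16775648) (l 16774416)) (c (l 16772592) (l 16771168))) (b (l 16774552) (l 16770112))) (b (c (l 16775632) (l 16772920)) (l 16773048)))) (b (b (b (a (a (b (l 134922371879) (l 16776768)) (l 16776464)) (l 16775576)) (c (a (l 16775632) (l 16774472)) (l 16774944))) (c (c (a (l 16776528) (l 16772768)) (l 16775864)) (l 16775720))) (a (b (l 16773616) (l 16768840)) (b (l 16770160) (l 16767696))))) (b (a (b (c (c (l 16775968) (l 16775872)) (l 16773104)) (c (l 16776216) (l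 16770688))) (b (c (l 16776168) (l 16770640)) (l 16771056))) (a (b (l 16771032) (l 16765976)) (b (l 16766048) (l 16763656))))) (b (a (a (a (b (l 174650822071) (l 16778616)) (b (l 74255962407) (l 16774744))) (b (c (l 16778072) (l 16775376)) (l 16778080))) (a (b (l 16772848) (l 16770304)) (b (l 16770264) (l 16767776)))) (a (a (b (l 16775336) (l 16775320)) (b (l 16770232) (l 16767656))) (a (b (l 16767760) (l 16765248)) (l 16764048))))), by decide +kernel⟩

def k60_pm_102_s : ∃ t, chk3 f_pm_102_s t 25 81 1 = true :=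
  ⟨(b (a (c (a (b (l 16768320) (l 16766000)) (b (l 16765792) (l 16763504))) (a (b (l 16767664) (l 16765224)) (l 16763832))) (a (a (b (l 16763232) (l 16760928)) (b (l 16761576) (l 16759280))) (a (b (l 16759768) (a (l 16757952) (l 16757024))) (c (b (l 16758248) (l 16756000)) (l 16756344))))) (a (a (c (b (l 16763648) (l 16761304)) (l 16761592)) (a (b (l 16761352) (l 16761608)) (b (l 16760064) (l 16760336)))) (a (b (a (l 16758608) (l 16759624)) (l 16760688)) (c (l 16757480) (l 16752600))))), by decide +kernel⟩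

def k61_pm_102_s : ∃ t, chk3 f_pm_102_s t 13 81 1 = true :=
  ⟨(c (a (a (b (a (b (a (l 16761464) (l 16754064)) (l 16763328)) (c (l 16760152) (l 16749304))) (a (l 16750672) (c (l 16744992) (l 16744560)))) (a (b (a (l 16745840) (l 16743320)) (l 16745032)) (b (l 16744688) (l 16745040)))) (a (b (a (l 16734384) (l 16729544)) (a (l 16729392) (l 16724464))) (a (b (l 16724912) (l 16719768)) (b (l 16720376) (l 16715200))))) (a (a (b (a (a (l 16754360) (l 16752256)) (l 16748976)) (a (l 16748544) (l 16744160))) (a (b (l 16744352) (l 16739480)) (a (l 16738264) (l 16735824)))) (a (a (b (l 16724232) (l 16708760)) (b (l 16709120) (l 16704072))) (a (b (l 16725608) (l 16720528)) (b (l 16721200) (l 16716112)))))), by decide +kernel⟩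

def k62_pm_102_s : ∃ t, chk3 f_pm_102_s t 12 82 1 = true :=
  ⟨(a (b (b (a (c (a (a (c (l 16771328) (l 16768456)) (l 16770080)) (l 16768408)) (a (l 16767496) (l 16765136))) (a (c (l 16763544) (l 16762784)) (c (l 16761280) (l 16760424)))) (a (c (a (c (l 16768264) (l 16765376)) (l 16765952)) (a (l 16764976) (l 16762672))) (a (c (l 16763792) (l 16760400)) (a (l 16761896) (l 16760480))))) (a (c (b (a (c (l 16765800) (l 16762928)) (c (l 16763720) (l 16760776))) (a (c (a (l 16761336) (l 16760288)) (l 16760552)) (a (l 16760896) (l 16757960)))) (b (a (l 16762528) (l 16760272)) (a (l 16760144) (l 16757808)))) (a (b (c (b (l 16759352) (l 16763400)) (l 16757944)) (l 16759296)) (c (b (l 16756376) (l 16753720)) (l 16759336))))) (b (a (a (a (b (l 16761672) (l 16756616)) (b (l 16761136) (l 16755328))) (c (a (l 16761128) (l 16754568)) (l 16759224))) (a (b (l 16763504) (l 16750544)) (c (l 16748848) (l 16747776)))) (a (a (c (l 16752608) (l 16751176)) (c (l 16750112) (l 16748264))) (a (l 16756872) (l 16753864))))),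 by decide +kernel⟩

def k63_pm_102_s : ∃ t, chk3 f_pm_102_s t 12 83 1 = true :=
  ⟨(b (a (a (b (a (c (a (b (c (l 16764824) (l 16759360)) (l 16758056)) (l 16757552)) (l 16757592)) (c (l 16755744) (l 16754976))) (c (a (l 16757808) (l 16752816)) (l 16759160))) (c (b (l 16758728) (l 16757112)) (a (l 16750856) (l 16748016)))) (a (a (l 16755272) (l 16753904)) (a (l 16745856) (b (l 16739152) (l 16736216))))) (a (b (b (a (a (c (l 16752824) (l 16752176)) (l 16755312)) (c (l 16752184) (l 16745488))) (a (b (a (l 16755320) (l 16753992)) (c (c (a (l 16750744) (l 16748536)) (l 16754456)) (l 16753856))) (c (a (l 16751632) (l 16744040)) (l 16748864)))) (a (a (b (c (b (b (l 16749768) (b (l 16749240) (a (l 16749400) (l 16744344)))) (l 16748408)) (c (l 16754424) (l 16753408))) (l 16749904)) (b (b (b (l 16752184) (b (l 16751640) (l 16748600))) (l 16750800)) (l 16744864))) (c (b (b (b (l 16749280) (a (l 16744520) (l 16742232))) (l 16745408)) (l 16742008)) (b (a (l 16748744) (c (l 16740800) (l 16739776))) (l 16740344)))))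 (b (b (a (a (l 16742328) (l 16739688)) (a (l 16736920) (l 16733960))) (a (a (l 16745824) (l 16740600)) (a (c (l 16736648) (l 16733736)) (c (l 16733784) (l 16720240))))) (b (b (b (a (a (l 16739400) (l 16736832)) (a (l 16734136) (l 16731264))) (a (a (l 16738744) (l 16741456)) (a (l 16736176) (c (l 16732304) (l 16729096))))) (a (a (c (l 16739344) (l 16736912)) (l 16746128)) (a (l 16743488) (l 16730176)))) (a (a (l 16747936) (c (l 16736208) (l 16733568))) (a (c (l 16733672) (l 16730752)) (l 16729424))))))), by decide +kernel⟩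

def k64_pm_102_s : ∃ t, chk3 f_pm_102_s t 26 41 1 = true :=
  ⟨(a (a (b (b (c (l 16744712) (l 16743776)) (c (l 16739952) (l 16738920))) (b (b (l 16735712) (l 16733104)) (b (b (l 16730864) (a (l 16730048) (l 16728488))) (b (b (b (l 16728240) (b (l 16738544) (c (c (l 16737880) (l 16729040)) (l 16737184)))) (a (l 16728336) (l 16727944))) (l 16740480))))) (b (b (c (l 16740040) (l 16739352)) (c (l 16735304) (l 16734520))) (b (c (l 16730520) (l 16729672)) (b (b (l 16726952) (a (l 16726832) (b (l 16724840) (l 16724272)))) (b (b (b (c (l 16730944) (l 16724328)) (b (c (l 16725776) (l 16724800)) (c (l 16725960) (l 16724936)))) (l 16733024)) (l 16724328)))))) (a (b (b (c (a (l 16736304) (l 16733696)) (l 16734632)) (c (a (l 16731536) (l 16728912)) (l 16729792))) (b (c (b (l 16726656) (l 16724256)) (l 16724944)) (b (c (b (l 16722456) (c (b (l 16721920) (l 16721584)) (b (l 16721432) (l 16721072)))) (b (l 16721920) (b (l 16721080) (l 16720672)))) (c (b (b (b (l 16721200) (c (l 16732064) (l 16720984))) (l 16721040))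 (l 16720208)) (b (c (l 16722968) (l 16720144)) (l 16719312)))))) (b (c (b (l 16734944) (a (l 16726208) (l 16723512))) (b (l 16729696) (l 16724824))) (b (b (c (l 16721264) (l 16721184)) (c (a (l 16720208) (b (l 16718088) (l 16716920))) (a (l 16720008) (l 16717512)))) (b (c (b (a (l 16718504) (l 16715912)) (l 16716416)) (b (a (l 16718256) (l 16715816)) (l 16716080))) (b (b (b (c (l 16715976) (l 16715480)) (c (l 16736848) (l 16694280))) (l 16715096)) (l 16714256))))))), by decide +kernel⟩

def k65_pm_102_s : ∃ t, chk3 f_pm_102_s t 27 82 1 = true :=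
  ⟨(a (b (c (a (l 16724456) (l 16719440)) (a (l 16724792) (l 16720048))) (a (c (b (l 16720776) (l 16718336)) (l 16719888)) (a (c (l 16715720) (l 16716280)) (b (l 16693712) (c (l 16711992) (l 16712688)))))) (b (a (c (l 16714640) (l 16715472)) (c (b (l 16713960) (a (l 16709896) (l 16707584))) (b (l 16712304) (a (l 16710856) (l 16708528))))) (b (a (a (l 16691344) (c (l 16709664) (l 16710544))) (c (a (l 16707288) (l 16704880)) (a (l 16708160) (l 16705632)))) (a (c (a (l 16720032) (l 16707112)) (a (c (l 16710016) (l 16710672)) (l 16707848))) (c (l 16703400) (l 16703984)))))), by decide +kernel⟩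

def k66_pm_102_s : ∃ t, chk3 f_pm_102_s t 27 83 1 = true :=
  ⟨(b (a (b (a (c (a (l 16717224) (l 16714608)) (l 16716224)) (c (a (b (l 16712656) (l 16711464)) (l 16709568)) (a (b (l 16713208) (l 16711968)) (l 16710144)))) (a (b (c (a (l 16715424) (l 16712848)) (a (l 16715632) (l 16713192))) (c (l 16723536) (l 16713232))) (c (l 16708472) (l 16708784)))) (c (a (b (l 16705800) (l 16703264)) (b (l 16700704) (l 16697984))) (a (c (l 16725672) (l 16705152)) (l 16709960)))) (b (b (a (a (c (l 16712032) (l 16712056)) (l 16706624)) (c (l 16709096) (l 16698440))) (a (a (c (l 16711032) (l 16710840)) (c (l 16705544) (l 16705352))) (c (a (l 16700000) (c (l 16694720) (l 16694200))) (a (l 16699664) (l 16693824))))) (b (b (b (a (a (l 16710112) (l 16704472)) (a (l 16698728) (c (l 16693456) (l 16692592)))) (b (a (a (l 16709888) (l 16704168)) (a (l 16708840) (c (l 16693096) (l 16692088)))) (a (a (l 16720216) (c (l 16704360) (l 16703720))) (a (c (c (l 16698912) (l 16698304)) (l 16697760)) (c (a (l 16694264) (l 16691384))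 (l 16691688)))))) (a (a (l 16709360) (l 16703528)) (a (c (l 16698176) (l 16697296)) (c (l 16692384) (l 16691184))))) (a (a (l 16708512) (l 16702664)) (a (l 16696744) (c (l 16691496) (l 16690264))))))), by decide +kernel⟩

def k67_pm_102_s : ∃ t, chk3 f_pm_102_s t 12 21 1 = true :=
  ⟨(a (a (b (b (c (a (c (l 16748288) (l 16742960)) (l 16748592)) (c (l 16753352) (l 16751728))) (c (a (l 16734792) (l 16732352)) (l 16739208))) (c (b (l 16727928) (l 16717160)) (b (l 16725152) (l 16738016)))) (b (b (c (c (l 16745368) (l 16747584)) (l 16748376)) (c (c (l 16739224) (l 16739256)) (l 16738936))) (c (a (l 16729104) (l 16730496)) (b (l 16720136) (l 16711872))))) (b (b (c (a (a (l 16733768) (l 16731360)) (a (l 16728752) (l 16725840))) (a (a (l 16732528) (l 16729784)) (l 16730656))) (a (a (l 16735736) (l 16733272)) (a (l 16730456) (l 16722104)))) (b (a (a (l 16716784) (l 16735408)) (c (l 16720304) (l 16710288))) (a (c (l 16717256) (l 16707144)) (c (l 16722104) (l 16701784)))))), by decide +kernel⟩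

def k68_pm_102_s : ∃ t, chk3 f_pm_102_s t 13 21 1 = true :=
  ⟨(a (a (a (b (c (b (c (l 16734088) (l 16722968)) (l 16724520)) (a (l 16728664) (l 16727784))) (c (a (l 16701080) (l 16720400)) (l 16721784))) (b (b (b (a (l 16722576) (l 16720520)) (l 16717176)) (l 16718408)) (b (l 16712160) (l 16692792)))) (b (c (a (b (c (l 16715576) (l 16715008)) (b (l 16708688) (l 16704304))) (b (l 16730728) (l 16701112))) (a (b (l 16714392) (l 16684728)) (b (l 16729920) (l 16700248)))) (b (a (l 16697424) (c (l 16692504) (l 16691688))) (a (l 16688704) (l 16699368))))) (a (c (b (b (a (l 16724904) (b (l 16700288) (l 16695808))) (a (l 16695216) (l 16710192))) (a (b (l 16686736) (l 16678296)) (b (l 16680656) (l 16672328)))) (b (b (a (l 16724112) (b (l 16699472) (l 16694856))) (a (l 16694248) (l 16688088))) (b (a (l 16685696) (l 16679352)) (a (l 16677288) (l 16670952))))) (b (b (b (a (c (l 16694416) (l 16693400)) (c (l 16699040) (l 16687224))) (a (c (l 16689856) (l 16688688)) (c (l 16683912) (l 16682416)))) (a (c (b (l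 16685376) (l 16680968)) (l 16702760)) (c (b (l 16679344) (l 16674856)) (b (l 16677704) (l 16673072))))) (b (a (c (l 16674480) (l 16672872)) (c (b (l 16670440) (l 16666104)) (l 16666288))) (a (c (l 16666056) (l 16664288)) (c (l 16659728) (l 16657528))))))), by decide +kernel⟩

def k69_pm_102_s : ∃ t, chk3 f_pm_102_s t 12 11 1 = true :=
  ⟨(b (a (b (a (a (b (l 16710752) (l 16702976)) (a (l 16715208) (l 16703320))) (c (a (l 16700896) (l 16698072)) (l 16699664))) (a (c (b (l 16693656) (l 16686184)) (l 16710592)) (c (l 16678320) (l 16704824)))) (a (b (c (a (l 16695296) (l 16692584)) (l 16694688)) (c (l 16687952) (l 16678528))) (b (c (a (l 16689624) (l 16686168)) (l 16689152)) (c (l 16691752) (l 16672608))))) (a (b (a (c (b (l 16678904) (l 16671792)) (l 16695672)) (c (c (l 16667768) (l 16668840)) (l 16668688))) (a (c (l 16703624) (l 16660784)) (c (b (l 16657640) (l 16650712)) (l 16654136)))) (a (b (c (l 16661664) (l 16662984)) (c (l 16646696) (l 16648144))) (b (b (l 16660120) (l 16652232)) (c (l 16638480)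 (l 16641360)))))), by decide +kernel⟩

def k70_pm_102_s : ∃ t, chk3 f_pm_102_s t 13 11 1 = true :=
  ⟨(b (a (a (a (b (c (l 16703224) (l 16683648)) (c (l 16664608) (l 16666848))) (b (c (l 16699600) (l 16679736)) (c (l 16681344) (l 16662560)))) (b (a (c (l 16675152) (l 16675520)) (c (l 16670704) (l 16691440))) (a (b (l 16662440) (l 16653688)) (b (l 16657848) (l 16649224))))) (a (a (b (b (l 16669528) (l 16661112)) (c (l 16658728) (l 16648016))) (b (b (c (l 16664048) (l 16662688)) (l 16655288)) (b (l 16647032) (l 16638728)))) (b (b (a (c (l 16657888) (l 16656032)) (c (l 16651448) (l 16649096))) (c (a (l 16649760) (l 16643416)) (l 16665456))) (b (a (l 16640944) (c (l 16635448) (l 16633024))) (c (l 16630480) (l 16628512)))))) (a (a (b (b (a (l 16653816) (l 16662232)) (c (l 16640840) (l 16644208))) (c (l 16628376) (a (l 16634848) (l 16629864)))) (b (c (b (l 16641416) (l 16632376)) (c (l 16680832) (l 16659704))) (c (a (l 16620760) (l 16617112)) (c (l 16664080) (l 16643192))))) (b (b (a (c (l 16632744) (l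 16632640)) (c (l 16622264) (l 16620472))) (a (c (l 16624040) (l 16624304)) (c (l 16613992) (l 16612416)))) (c (a (c (l 16630920) (l 16611680)) (b (l 16605656) (l 16597288))) (a (b (l 16616056) (l 16607872)) (b (l 16604352) (l 16596272))))))), by decide +kernel⟩

def k71_pm_102_s : ∃ t, chk3 f_pm_102_s t 28 40 1 = true :=
  ⟨(b (a (a (c (a (l 16708944) (l 16701352)) (l 16724304)) (c (a (l 16698872) (l 16696248)) (l 16719416))) (b (a (l 16710592) (a (b (l 16712520) (l 16688968)) (b (l 16688088) (l 16706184)))) (a (c (a (l 16690944) (a (l 16688712) (l 16687096))) (a (l 16712856) (l 16717568))) (c (a (l 16705440) (l 16701704)) (b (l 16705576) (l 16681584)))))) (a (b (a (c (l 16715824) (l 16716760)) (a (b (l 16713888) (l 16690392)) (b (l 16690328) (a (l 16688408) (l 16686928))))) (a (a (c (l 16711832) (l 16712840)) (b (l 16690256) (c (l 16708192) (l 16709200)))) (c (b (a (l 16708320) (l 16705464)) (l 16704128)) (a (b (l 16709320) (l 16706416)) (l 16704784))))) (a (b (c (a (b (l 16707992) (l 16705184))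 (l 16703272)) (a (b (l 16708904) (l 16705936)) (l 16703848))) (c (l 16709752) (c (l 16699448) (l 16720784)))) (b (c (l 16708352) (l 16708480)) (c (a (l 16693984) (l 16690208)) (l 16702328)))))), by decide +kernel⟩

def k72_pm_102_s : ∃ t, chk3 f_pm_102_s t 29 40 1 = true :=
  ⟨(a (b (a (b (c (l 16711920) (a (l 16703776) (l 16699304))) (c (l 16706192) (l 16716488))) (c (b (a (l 16695016) (l 16690584)) (a (l 16689304) (l 16684856))) (b (l 16713176) (a (l 16688576) (l 16683752))))) (a (b (c (l 16700448) (l 16699888)) (c (a (l 16686240) (l 16682096)) (a (l 16685448) (l 16680928)))) (b (c (a (l 16683568) (l 16679136)) (a (l 16682448) (l 16677632))) (c (a (l 16677792) (l 16673368)) (a (l 16676232) (l 16671416)))))) (b (b (a (c (a (l 16686272) (l 16682208)) (l 16682952)) (c (a (l 16678352) (l 16674688)) (l 16674680))) (a (c (a (l 16680520) (l 16676400)) (a (l 16679056) (l 16674600))) (c (a (l 16672504) (l 16668808)) (a (l 16670400) (l 16666424))))) (a (b (c (a (c (l 16675320) (l 16674272)) (l 16670640))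 (a (l 16672904) (l 16668408))) (b (c (a (l 16670488) (l 16666336)) (l 16665968)) (c (a (l 16667600) (l 16663448)) (l 16662816)))) (b (c (c (a (l 16667384) (l 16663712)) (l 16664088)) (a (l 16664128) (l 16660096))) (c (a (c (l 16661728) (l 16660120)) (c (l 16658008) (l 16656256))) (a (l 16657856) (l 16653736))))))), by decide +kernel⟩

def k73_pm_102_s : ∃ t, chk3 f_pm_102_s t 14 82 1 = true :=
  ⟨(a (a (b (a (c (b (a (l 16707920) (l 16705448)) (l 16703952)) (b (a (l 16708904) (l 16706296)) (l 16704680))) (c (l 16710384) (a (l 16701896) (l 16698704)))) (a (c (l 16710240) (l 16710624)) (c (l 16715168) (l 16715120)))) (a (b (c (c (l 16693672) (l 16693440)) (l 16703928)) (c (l 16698224) (l 16708096))) (b (c (a (l 16688200) (l 16684400)) (l 16696080)) (c (c (l 16680864) (l 16680080)) (l 16689656))))) (a (a (b (c (a (l 16680416) (l 16676264)) (a (l 16679144) (l 16674608))) (c (a (l 16674512) (l 16670336)) (a (l 16672664) (l 16668088)))) (b (c (a (l 16671952) (l 16667536)) (a (l 16669896) (l 16665064)))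 (c (a (l 16666024) (l 16661600)) (a (l 16663360) (l 16658512))))) (a (b (c (a (l 16663224) (c (l 16659944) (l 16658256))) (a (l 16660344) (l 16655832))) (c (a (l 16657288) (l 16663656)) (a (l 16653776) (l 16649264)))) (b (c (a (c (b (l 16657488) (l 16654632)) (l 16654184)) (c (l 16652320) (l 16650296))) (a (l 16651488) (l 16647328))) (c (a (c (l 16650304) (l 16648136)) (c (a (l 16647480) (l 16645648)) (l 16644224))) (a (l 16644928) (b (l 16642440) (l 16639072)))))))), by decide +kernel⟩

def k74_pm_102_s : ∃ t, chk3 f_pm_102_s t 28 83 1 = true :=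
  ⟨(b (b (a (a (c (l 16695536) (l 16695520)) (l 16700016)) (a (c (l 16683320) (l 16682240)) (c (l 16675968) (l 16674192)))) (a (a (l 16702856) (l 16707344)) (a (c (l 16680280) (l 16678800)) (c (l 16672864) (l 16670664))))) (b (b (a (a (l 16690000) (l 16683904)) (a (l 16676920) (l 16669096))) (a (c (a (c (l 16689248) (l 16688552)) (c (l 16683392) (l 16682464))) (a (l 16687864) (l 16681368))) (c (a (c (l 16676792) (l 16675576)) (c (l 16669432) (l 16667880))) (a (l 16673976) (l 16665696))))) (a (c (b (b (b (a (l 16687784) (l 16681768)) (b (a (l 16687384) (l 16681328)) (a (a (l 16688512) (l 16685608)) (a (l 16682584) (l 16679352))))) (a (l 16686616) (l 16680512))) (a (l 16685704) (l 16679592))) (b (b (b (a (l 16686504) (l 16679944)) (b (a (l 16685952) (l 16679344)) (a (l 16685504) (l 16678856)))) (a (l 16684984) (l 16678312))) (a (l 16684048) (l 16677368)))) (c (b (b (b (a (l 16674968) (l 16667392)) (b (a (l 16674496) (l 16666888)) (a (a (l 16675920) (l 16672288)) (a (l 16668472) (l 16664480))))) (a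 (l 16673640) (l 16666000))) (a (l 16672728) (l 16665096))) (b (b (b (a (l 16672472) (l 16664136)) (b (a (l 16671832) (l 16663456)) (a (l 16671312) (a (l 16665088) (l 16660688))))) (a (l 16670752) (l 16662336))) (a (l 16669816) (l 16661408))))))), by decide +kernel⟩

def k75_pm_102_s : ∃ t, chk3 f_pm_102_s t 29 166 1 = true :=
  ⟨(a (a (c (b (l 16667912) (l 16664760)) (b (l 16665344) (l 16661760))) (c (b (l 16659240) (l 16656056)) (b (l 16655816) (l 16652184)))) (a (b (c (l 16650640) (l 16646368)) (c (l 16647440) (l 16642696))) (c (b (a (l 16644664) (l 16640856)) (a (l 16641464) (l 16637664))) (b (l 16637680) (l 16634000))))), by decide +kernel⟩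

def k76_pm_102_s : ∃ t, chk3 f_pm_102_s t 29 334 1 = true :=
  ⟨(b (a (a (l 16660552) (l 16661880)) (a (l 16652824) (c (l 16637000) (l 16631024)))) (b (a (a (l 16659104) (c (l 16652192) (l 16647648))) (a (c (l 16643536) (l 16638104)) (l 16653496))) (a (a (c (l 16659976) (l 16656096)) (c (c (l 16652384) (l 16650000)) (l 16646416))) (a (c (c (l 16643912) (l 16641112)) (l 16636848)) (c (l 16634576) (l 16628088)))))), by decide +kernel⟩

def k77_pm_102_s : ∃ t, chk3 f_pm_102_s t 29 335 1 = true :=
  ⟨(b (a (b (b (a (c (l 16659152) (l 16655048)) (c (l 16650336) (l 16645328))) (b (a (c (l 16658616) (l 16654344)) (c (a (l 16652048) (l 16647544)) (l 16647216))) (a (c (b (b (l 16658304) (a (l 16660272) (l 16655976))) (l 16658024)) (a (l 16656120) (l 16651384))) (b (b (a (l 16655088) (a (l 16645640) (l 16643288))) (a (c (l 16651544) (l 16646400)) (c (c (l 16648408) (l 16645640)) (l 16641424)))) (a (l 16648848) (c (l 16646912) (l 16641272))))))) (a (a (l 16657680) (l 16653168)) (c (a (l 16651104) (l 16646592))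 (a (l 16645912) (l 16640936))))) (b (b (a (c (l 16641632) (l 16635736)) (c (l 16633680) (l 16626960))) (b (a (c (a (l 16643168) (l 16639008)) (a (l 16637312) (l 16632720))) (c (a (l 16635032) (l 16631208)) (l 16626192))) (b (b (a (c (a (l 16642832) (l 16638664)) (a (l 16636848) (l 16632248))) (a (l 16641792) (l 16627288))) (a (c (a (c (l 16644128) (l 16641152)) (c (l 16640048) (l 16636880))) (a (l 16636584) (l 16631976))) (c (a (l 16644968) (l 16630648)) (a (l 16627576) (l 16623352))))) (a (a (c (l 16642528) (l 16636432)) (c (l 16638352) (l 16631824))) (a (l 16636184) (l 16626912)))))) (a (c (a (l 16642208) (l 16638032)) (a (l 16636104) (c (l 16633160) (l 16629816)))) (c (a (l 16634048) (l 16630216)) (a (c (l 16628872) (l 16625304)) (c (l 16624744) (l 16620960))))))) (a (a (c (l 16656808) (l 16652264)) (a (l 16647624) (a (l 16644064) (l 16641720)))) (a (c (a (l 16641336) (l 16637168)) (a (l 16635200) (l 16630600))) (c (a (l 16633184) (l 16629360)) (a (l 16626208) (l 16621992)))))), by decide +kernel⟩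

def k78_pm_102_s : ∃ t, chk3 f_pm_102_s t 28 21 1 = true :=
  ⟨(c (a (b (b (b (a (c (l 16683240) (l 16682216)) (c (l 16677208) (l 16675936))) (a (l 16688456) (c (l 16672432) (l 16671096)))) (a (b (l 16673320) (l 16668744)) (b (l 16677472) (l 16662328)))) (a (b (b (l 16664256) (l 16659840)) (b (l 16655496) (l 16651224))) (b (c (l 16666744) (l 16654736)) (b (l 16648832) (l 16644488))))) (b (b (a (b (c (l 16670512) (l 16668928)) (a (l 16666656) (l 16663064))) (c (b (l 16663080) (l 16658336)) (a (l 16660752) (l 16656688)))) (a (c (b (l 16660936) (l 16656240)) (b (l 16659232) (l 16654480))) (b (c (l 16653600) (l 16651536)) (a (l 16649752) (l 16645848))))) (a (b (c (b (l 16651576) (l 16647016)) (l 16647448)) (b (l 16641576) (l 16637152))) (b (c (a (l 16643776) (l 16639928)) (a (l 16641664) (l 16637632))) (c (a (l 16634664) (l 16630760)) (a (l 16632456) (l 16628360))))))) (a (b (a (b (a (l 16701056) (l 16697840)) (b (l 16671256) (l 16666536))) (b (c (l 16693288) (l 16671224)) (b (l 16664376) (l 16659568))))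 (a (b (l 16659616) (l 16650688)) (b (b (l 16654848) (l 16650216)) (l 16643424)))) (b (a (b (b (l 16666696) (l 16661704)) (b (l 16656776) (l 16651912))) (b (b (a (l 16660488) (l 16656104)) (l 16663864)) (b (l 16648464) (l 16643568)))) (a (b (b (l 16647096) (l 16642376)) (b (l 16637744) (l 16633200))) (b (b (l 16638736) (l 16633960)) (b (l 16629232) (l 16624608))))))), by decide +kernel⟩

def k79_pm_102_s : ∃ t, chk3 f_pm_102_s t 58 21 1 = true :=
  ⟨(b (a (b (c (c (a (l 16654728) (l 16650568)) (a (l 16652472) (l 16648104))) (b (a (l 16651544) (l 16646824)) (a (l 16646640) (l 16641944)))) (c (c (a (l 16645336) (l 16641224)) (a (l 16642952) (l 16638632))) (c (a (l 16640544) (l 16636008)) (a (l 16638128) (l 16633344))))) (a (b (c (b (l 16657776) (l 16647840)) (b (l 16647208) (l 16637112))) (c (c (b (l 16639304) (l 16634664)) (l 16644664)) (b (l 16632288) (l 16627480)))) (b (c (b (c (l 16644216) (l 16641368)) (c (l 16639584) (l 16636672))) (b (c (l 16638472) (l 16635536)) (c (l 16633696) (l 16630664))))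 (c (c (b (l 16634968) (l 16630360)) (b (l 16631984) (l 16627312))) (b (l 16637872) (l 16622616)))))) (c (a (b (b (c (l 16636296) (l 16633720)) (a (l 16632408) (l 16628256))) (a (c (l 16637280) (l 16624192)) (b (l 16634104) (l 16629512)))) (b (c (a (b (l 16630048) (l 16625440)) (b (l 16625768) (l 16621184))) (a (l 16624824) (b (l 16622664) (l 16618024)))) (a (c (b (l 16620848) (l 16616272)) (l 16626016)) (c (b (l 16616616) (l 16612064)) (l 16621592))))) (a (b (b (a (l 16632088) (l 16627464)) (a (l 16627288) (l 16622688))) (b (l 16630728) (l 16615568))) (b (c (a (l 16621840) (l 16617128)) (a (l 16618792) (l 16613840))) (b (a (l 16613224) (l 16608424)) (a (l 16608520) (l 16603744))))))), by decide +kernel⟩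

def k80_pm_102_s : ∃ t, chk3 f_pm_102_s t 59 21 1 = true :=
  ⟨(a (a (b (b (c (b (c (l 16639952) (l 16636896)) (c (l 16635352) (l 16632232))) (b (c (l 16633784) (l 16630600)) (c (l 16629032) (l 16625760)))) (c (c (b (l 16630760) (l 16626176)) (b (l 16627568) (l 16622928))) (b (c (l 16624304) (l 16620952)) (l 16617888)))) (c (b (c (b (l 16621608) (l 16617056)) (b (l 16618304) (l 16613696))) (c (b (l 16612512) (l 16607984)) (b (l 16609096) (l 16604528)))) (b (c (l 16612568) (l 16609040)) (c (l 16603264) (l 16599616))))) (b (b (c (b (c (l 16635904) (l 16632656)) (c (l 16631328) (l 16628008))) (b (c (l 16629320) (l 16625904)) (c (l 16624600) (l 16621104)))) (c (c (b (l 16626768) (l 16622208)) (b (l 16623384) (l 16618768))) (b (c (l 16619904) (l 16616328)) (l 16613408)))) (b (c (c (b (l 16617672) (l 16613144)) (b (l 16614168) (l 16609584))) (b (l 16608712) (l 16604040))) (c (c (b (l 16608624) (l 16604120)) (l 16613232)) (c (l 16598992) (l 16595128)))))) (a (b (b (c (c (b (l 16632024) (l 16627480)) (b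 (l 16628592) (l 16623984))) (b (c (l 16625056) (l 16621416)) (c (l 16620368) (l 16616656)))) (c (b (l 16631664) (l 16627112)) (b (l 16619064) (l 16609136)))) (b (c (c (b (l 16613912) (l 16609408)) (l 16618440)) (b (l 16604472) (l 16599832))) (c (c (b (l 16604920) (l 16600440)) (l 16598872)) (c (l 16594928) (l 16590856))))) (b (b (b (c (c (l 16628312) (l 16624696)) (c (l 16620960) (l 16622352))) (c (l 16627216) (c (l 16616312) (l 16612392)))) (c (c (l 16627528) (l 16623760)) (b (l 16614944) (l 16605048)))) (b (c (c (l 16613312) (l 16604192)) (b (l 16600416) (l 16595808))) (b (c (l 16599408) (l 16591216)) (c (l 16605424) (l 16586648))))))), by decide +kernel⟩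

def k81_pm_102_s : ∃ t, chk3 f_pm_102_s t 30 40 1 = true :=
  ⟨(a (b (a (b (c (a (l 16671192) (l 16667824)) (l 16672464)) (a (c (l 16665280) (l 16662648)) (c (l 16661896) (l 16659040)))) (a (b (c (l 16664568) (l 16662024)) (c (l 16658624) (l 16655568))) (b (c (l 16661384) (l 16658688)) (c (l 16655432) (l 16652200))))) (a (b (c (a (c (l 16660216) (l 16658584)) (c (l 16656864) (l 16655120))) (a (l 16656256) (l 16652600))) (c (a (c (l 16654472) (l 16652584)) (c (l 16651096) (l 16649080))) (a (l 16649840) (b (l 16647752) (l 16644504))))) (b (c (a (c (l 16653624) (l 16651776)) (c (l 16650472) (l 16648528))) (a (l 16649088) (l 16645680))) (c (a (c (l 16647840) (l 16645712)) (c (l 16644672) (l 16642440))) (a (b (l 16644208) (l 16640928)) (b (l 16640768) (l 16637464))))))) (b (a (a (b (c (l 16658248) (l 16655408)) (c (l 16652304) (l 16648904))) (b (c (l 16655088) (l 16652120)) (c (l 16649152) (l 16645600)))) (b (c (c (l 16650904) (l 16649288)) (l 16646960)) (c (c (l 16650376) (l 16643232)) (a (l 16642192)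 (l 16638648))))) (a (b (c (a (c (l 16647376) (l 16645352)) (c (l 16644264) (l 16642160))) (a (l 16642352) (l 16639032))) (c (a (c (l 16641568) (l 16639248)) (c (l 16638464) (l 16636048))) (a (b (l 16637416) (l 16634096)) (b (l 16634080) (l 16630744))))) (b (c (c (a (l 16641040) (l 16637680)) (l 16642408)) (a (l 16635616) (l 16632064))) (c (a (c (l 16635248) (l 16632752)) (c (l 16631904) (l 16629336))) (a (l 16634208) (l 16625408))))))), by decide +kernel⟩

def k82_pm_102_s : ∃ t, chk3 f_pm_102_s t 31 40 1 = true :=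
  ⟨(a (b (a (b (c (a (l 16644760) (l 16640992)) (l 16644800)) (c (a (l 16638896) (l 16635176)) (a (l 16634968) (l 16631128)))) (b (c (a (l 16637056) (l 16632864)) (a (l 16633600) (l 16629320))) (c (a (l 16631280) (l 16627224)) (a (l 16627120) (l 16622960))))) (a (b (c (a (l 16638264) (l 16629336)) (a (l 16628384) (l 16624560))) (c (a (c (l 16628432) (l 16625784)) (c (l 16624808) (l 16622088))) (a (l 16621728) (l 16617904)))) (b (c (a (l 16625488) (l 16621464)) (a (l 16620576) (l 16616432))) (c (a (c (l 16621032) (l 16618240)) (c (l 16617104) (l 16614240))) (a (l 16613944) (l 16609816)))))) (b (a (b (c (a (l 16628376) (l 16623504)) (a (l 16624728) (l 16619736))) (c (a (l 16622904) (l 16618288)) (a (l 16618528) (l 16613784)))) (b (c (a (l 16618264) (l 16612648)) (a (l 16614360) (l 16608584))) (c (a (l 16613288) (l 16607920)) (a (l 16608640) (l 16603104))))) (a (b (c (a (l 16617288) (l 16612840)) (a (l 16612120) (l 16607544))) (c (a (l 16611536) (l 16612472)) (a (l 16605528) (b (l 16602720) (l 16599440)))))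 (b (c (a (l 16608096) (l 16602976)) (a (l 16602648) (l 16597352))) (c (a (l 16602672) (l 16597808)) (a (b (l 16597976) (l 16594744)) (b (l 16592856) (l 16589760)))))))), by decide +kernel⟩

def k83_pm_102_s : ∃ t, chk3 f_pm_102_s t 30 82 1 = true :=
  ⟨(a (a (b (c (a (c (l 16648736) (l 16646568)) (c (l 16645328) (l 16643016))) (a (b (l 16644992) (l 16641728)) (b (l 16641232) (l 16637928)))) (c (a (c (l 16642968) (l 16640472)) (c (l 16639504) (l 16636864))) (a (b (l 16638416) (l 16635048)) (b (l 16634584) (l 16631176))))) (b (c (a (c (l 16642040) (l 16639608)) (c (l 16638856) (l 16636312))) (a (b (l 16637624) (l 16634296)) (b (l 16634144) (l 16630784)))) (c (a (c (l 16636192) (l 16633416)) (c (l 16632984) (l 16630080))) (a (b (l 16630920) (l 16627472)) (b (l 16627384) (l 16623904)))))) (a (b (c (a (c (l 16635744) (l 16633096)) (c (l 16632640) (l 16629880))) (a (b (l 16630752) (l 16627376)) (b (l 16627384) (l 16623984)))) (c (a (b (l 16629904) (l 16626832)) (b (l 16626736) (l 16623656))) (a (b (l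 16623944) (l 16620448)) (b (l 16620536) (l 16617016))))) (b (c (a (c (l 16629424) (l 16626584)) (c (l 16626096) (l 16623160))) (a (b (l 16623928) (l 16620512)) (b (l 16620360) (l 16616936)))) (c (a (b (l 16623472) (l 16620392)) (b (l 16620104) (l 16617016))) (b (a (l 16617048) (l 16613456)) (a (l 16613512) (l 16609904))))))), by decide +kernel⟩

def k84_pm_102_s : ∃ t, chk3 f_pm_102_s t 31 82 1 = true :=
  ⟨(a (a (b (c (a (c (l 16622640) (l 16619624)) (c (l 16619048) (l 16615944))) (a (b (l 16616672) (l 16613240)) (b (l 16612856) (l 16609424)))) (c (a (b (l 16616608) (l 16613528)) (b (l 16612992) (l 16609912))) (b (a (l 16609760) (l 16605936)) (a (l 16606192) (l 16602368))))) (b (c (a (c (l 16615312) (l 16612128)) (c (l 16611424) (l 16608160))) (a (b (l 16608896) (l 16605472)) (b (l 16604784) (l 16601368)))) (c (a (b (l 16609240) (l 16606168)) (b (l 16605336) (l 16602288))) (a (b (l 16601984) (l 16598416)) (b (l 16597888) (l 16594328)))))) (a (b (c (a (c (l 16607376) (l 16604032)) (c (l 16603160)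 (l 16599736))) (a (b (l 16600520) (l 16597112)) (b (l 16596080) (l 16592688)))) (c (a (b (l 16601288) (l 16598256)) (b (l 16597072) (l 16594072))) (a (b (l 16593648) (l 16590096)) (b (l 16589240) (l 16585704))))) (b (c (a (c (l 16598784) (l 16595272)) (b (l 16593776) (l 16590984))) (a (b (l 16591456) (l 16588112)) (b (l 16586568) (l 16583280)))) (c (a (c (l 16593152) (l 16589168)) (c (l 16588664) (l 16584592))) (a (b (l 16584656) (l 16581144)) (b (l 16579896) (c (l 16578696) (l 16574120)))))))), by decide +kernel⟩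

def k85_pm_102_s : ∃ t, chk3 f_pm_102_s t 15 166 1 = true :=
  ⟨(a (a (a (c (b (a (l 16637176) (l 16633616)) (a (l 16633976) (l 16630416))) (b (a (l 16631568) (l 16627664)) (a (l 16627872) (l 16623960)))) (c (b (a (l 16630200) (l 16626904)) (a (l 16626968) (l 16623648))) (b (a (l 16623928) (l 16620328)) (a (l 16620176) (l 16616544))))) (a (c (b (a (l 16623696) (l 16620504)) (a (l 16620424) (l 16617216))) (b (a (l 16616832) (l 16613376)) (a (l 16613024) (l 16609536)))) (c (b (a (l 16617232) (l 16613848)) (a (l 16613928) (l 16610544))) (b (a (l 16609856) (l 16606232)) (a (l 16605992) (l 16602352)))))) (a (a (c (b (a (l 16610360) (l 16606752)) (a (l 16607048) (l 16603448))) (b (a (l 16602512) (l 16598680)) (a (l 16598616) (l 16594776)))) (c (b (a (l 16603016) (l 16599152)) (a (l 16599720) (l 16595864))) (b (a (l 16594728) (l 16590640)) (a (l 16590824) (l 16586736))))) (a (c (b (a (l 16595136) (l 16590976)) (a (l 16591864) (l 16587728))) (b (a (l 16586416) (l 16582040)) (a (l 16582520) (l 16578160))))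 (c (b (a (l 16586648) (l 16582160)) (a (l 16583432) (l 16578968))) (b (a (l 16577504) (c (l 16575216) (l 16570312))) (a (c (l 16576176) (l 16571040)) (c (l 16571552) (l 16566296)))))))), by decide +kernel⟩

def k86_pm_102_s : ∃ t, chk3 f_pm_102_s t 15 334 1 = true :=
  ⟨(b (a (a (a (a (l 16628216) (l 16624472)) (c (l 16622720) (l 16615304))) (a (c (l 16616200) (l 16608184)) (c (l 16609608) (l 16601048)))) (a (a (c (l 16602616) (l 16593552)) (c (l 16595168) (l 16585632))) (a (c (l 16587200) (a (l 16579368) (l 16575016))) (c (l 16578648) (a (l 16570512) (l 16565848)))))) (b (a (a (a (a (l 16626696) (l 16622944)) (c (l 16621312) (l 16613608))) (a (c (l 16614776) (l 16606456)) (c (l 16608168) (l 16599304)))) (a (a (c (l 16601168) (l 16591792)) (c (l 16593712) (l 16583864))) (a (c (l 16585760) (l 16575448)) (c (l 16577224) (a (l 16568768) (l 16564112)))))) (a (a (a (c (a (l 16629016) (l 16625440)) (l 16619944)) (c (l 16620248) (l 16612304))) (a (c (l 16613696) (l 16605128)) (c (l 16607072) (l 16597960))))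 (a (a (c (l 16600064) (l 16590440)) (c (l 16592616) (l 16582512))) (a (c (l 16584664) (a (l 16576256) (l 16571912))) (c (l 16576144) (a (l 16567424) (l 16562776)))))))), by decide +kernel⟩

def k87_pm_102_s : ∃ t, chk3 f_pm_102_s t 15 335 1 = true :=
  ⟨(b (b (b (a (a (a (a (l 16624520) (l 16641728)) (c (l 16619344) (l 16611168))) (a (c (l 16612752) (l 16603952)) (l 16612032))) (a (a (l 16604776) (l 16586608)) (a (c (l 16583704) (l 16572888)) (c (l 16575192) (l 16563920))))) (b (a (a (a (c (a (l 16627512) (l 16623928)) (l 16618040)) (c (l 16618728) (l 16610368))) (a (c (l 16612120) (l 16603136)) (l 16600824))) (a (a (l 16593560) (l 16585872)) (a (l 16577704) (c (l 16574552) (l 16563104))))) (a (a (a (c (a (c (l 16628856) (l 16625160)) (a (l 16624320) (l 16622552))) (b (b (a (l 16619544) (l 16615584)) (a (l 16619264) (l 16615312))) (a (l 16619112) (l 16615152)))) (c (a (l 16619928) (l 16616536)) (a (c (l 16613720) (l 16614624)) (c (l 16610088) (l 16605568))))) (a (c (a (l 16613248) (l 16609984))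 (a (l 16604248) (l 16600704))) (c (l 16604960) (a (l 16597096) (l 16593416))))) (a (a (c (l 16597928) (l 16587720)) (c (l 16590472) (l 16579784))) (a (c (l 16582520) (l 16571376)) (a (l 16570632) (l 16566120))))))) (a (a (a (c (a (l 16626512) (l 16622928)) (a (c (l 16620768) (l 16616776)) (l 16614832))) (c (a (l 16619416) (l 16616016)) (a (l 16610976) (l 16607240)))) (a (c (l 16611088) (a (l 16603640) (l 16600088))) (c (l 16604432) (l 16594640)))) (a (a (c (l 16597400) (l 16587096)) (l 16595176)) (a (l 16597496) (l 16573056))))) (a (a (a (c (a (l 16625672) (l 16622088)) (a (l 16617920) (l 16613968))) (c (l 16616872) (a (l 16610112) (l 16606376)))) (a (c (l 16610232) (a (l 16602760) (l 16599200))) (c (l 16603560) (l 16593752)))) (a (a (c (l 16596520) (l 16586200)) (l 16583800)) (a (l 16575632) (l 16566928))))), by decide +kernel⟩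

def k88_pm_102_s : ∃ t, chk3 f_pm_102_s t 30 21 1 = true :=
  ⟨(b (a (b (a (c (c (a (l 16622480) (b (l 16621232) (l 16616784))) (a (b (l 16620936) (l 16616392)) (l 16615032))) (c (b (a (l 16617016) (l 16613192)) (a (l 16612408) (l 16608616))) (b (a (l 16612960) (l 16608936)) (a (l 16608280) (l 16604296))))) (c (b (a (c (l 16617816) (l 16613712)) (l 16612376)) (a (l 16611344) (l 16607936))) (b (a (c (l 16609440) (l 16605000)) (c (l 16605792) (l 16601176))) (a (l 16602688) (l 16598960))))) (b (a (a (c (l 16613824) (l 16605728)) (c (l 16610328) (l 16601888))) (c (a (l 16606904) (l 16603544)) (a (l 16598136) (l 16594464)))) (a (c (a (l 16609328) (l 16605864)) (a (l 16601112) (l 16597312))) (c (l 16600800) (a (l 16593608) (l 16589968)))))) (b (a (c (c (a (l 16609016) (l 16605736)) (b (l 16605136) (l 16600656))) (b (a (l 16599856) (l 16596272)) (a (l 16595304) (l 16591672)))) (c (b (l 16600672) (l 16596112)) (b (c (l 16593352) (l 16588176)) (l 16596624)))) (a (c (b (a (l 16600192) (l 16596840)) (a (l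 16595840) (l 16592488))) (b (a (l 16590816) (l 16587176)) (l 16584536))) (c (b (l 16591640) (l 16587272)) (b (l 16581576) (l 16577136)))))) (a (b (a (c (c (a (l 16604608) (l 16601264)) (a (l 16600576) (l 16597072))) (b (a (l 16596520) (l 16592752)) (a (l 16591944) (l 16588208)))) (c (c (l 16596376) (l 16591976)) (b (l 16587280) (l 16582792)))) (a (c (c (a (l 16595744) (l 16592448)) (a (l 16591608) (l 16588176))) (c (l 16606480) (l 16601944))) (c (c (l 16587648) (l 16583176)) (b (l 16578328) (l 16573880))))) (b (a (c (c (l 16589968) (l 16585320)) (b (l 16580160) (l 16575760))) (c (b (l 16582936) (l 16578656)) (b (l 16572752) (l 16568424)))) (a (c (l 16600008) (l 16590168)) (c (l 16593288) (l 16562024)))))), by decide +kernel⟩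

def k89_pm_102_s : ∃ t, chk3 f_pm_102_s t 31 21 1 = true :=
  ⟨(a (b (a (c (b (b (l 16593592) (l 16588968)) (b (l 16584424) (l 16579952))) (b (b (l 16583216) (l 16578512)) (b (l 16573888) (l 16569360)))) (b (c (b (l 16586096) (l 16581424)) (b (l 16575264) (l 16570528))) (c (b (l 16576816) (l 16572288)) (b (l 16565880) (l 16561312))))) (b (a (c (b (l 16575568) (l 16571288)) (l 16583784)) (c (b (l 16567832) (l 16563464)) (l 16575600))) (a (c (b (l 16567048) (l 16562856)) (b (l 16556368) (l 16552160))) (c (b (l 16559168) (l 16554984)) (l 16567056))))) (b (b (a (c (b (l 16578136) (l 16573424)) (b (l 16566864) (l 16562136))) (c (b (l 16569640) (l 16564912)) (b (l 16557952) (l 16553248)))) (a (c (b (l 16568776) (l 16564200)) (b (l 16557472) (l 16552888))) (c (b (l 16560240) (l 16555624)) (b (l 16548608) (l 16544024))))) (b (a (c (b (l 16559688) (l 16555256)) (b (l 16548376) (l 16543952))) (c (b (l 16551080) (l 16546600)) (b (l 16539512) (l 16535072)))) (a (c (b (l 16550904) (l 16546624)) (b (l 16539608)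 (l 16535352))) (c (b (l 16542192) (l 16537856)) (b (l 16530704) (l 16526424))))))), by decide +kernel⟩

def k90_pm_102_s : ∃ t, chk3 f_pm_102_s t 28 11 1 = true :=
  ⟨(b (c (a (b (a (b (l 16644952) (l 16636816)) (b (b (l 16640216) (l 16636016)) (l 16629856))) (b (a (l 16628936) (l 16621872)) (a (l 16621112) (l 16614136)))) (b (a (b (c (l 16631664) (l 16629648)) (c (l 16623304) (l 16621224))) (b (c (a (l 16625888) (l 16621912)) (l 16621520)) (c (l 16615408) (l 16612936)))) (a (b (l 16614176) (l 16606336)) (b (c (l 16607192) (l 16604664)) (l 16618968))))) (a (b (a (b (l 16642088) (l 16633808)) (b (l 16634656) (l 16626216))) (b (a (l 16625856) (l 16618088)) (l 16635168))) (b (a (b (l 16626536) (l 16617936)) (b (c (l 16619072) (l 16616568)) (l 16609072))) (a (b (l 16609648) (l 16601680)) (b (l 16600632) (l 16592512)))))) (b (a (b (a (l 16612008) (c (l 16606464) (l 16602608))) (c (l 16602144) (l 16598792))) (c (a (b (l 16598744) (l 16591224)) (b (l 16590304) (l 16582864))) (a (b (l 16594024) (l 16586496))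 (b (l 16584696) (l 16577192))))) (a (c (a (l 16593344) (l 16587120)) (a (l 16590704) (l 16583488))) (c (a (l 16600896) (b (l 16575496) (l 16568152))) (a (l 16575280) (b (l 16569808) (l 16562496))))))), by decide +kernel⟩

def k91_pm_102_s : ∃ t, chk3 f_pm_102_s t 58 11 1 = true :=
  ⟨(b (b (c (a (b (a (c (l 16617840) (l 16615152)) (b (l 16614488) (l 16610040))) (c (a (l 16609224) (l 16605000)) (a (l 16606448) (l 16602016)))) (c (b (a (b (l 16611744) (l 16607272)) (b (l 16607528) (l 16603040))) (a (b (l 16602888) (l 16598576)) (b (l 16598608) (l 16594264)))) (b (a (l 16606408) (l 16612440)) (a (l 16597528) (l 16593016))))) (a (b (c (l 16610112) (l 16607184)) (c (l 16601272) (l 16598208))) (b (c (a (l 16603208) (l 16598528)) (a (l 16599928) (l 16595008))) (b (l 16602816) (l 16587888))))) (a (b (c (c (a (l 16600912) (l 16596616)) (l 16595816)) (l 16591168)) (c (c (l 16590712) (l 16587704)) (l 16582896))) (c (b (c (a (l 16592264) (b (l 16590000) (l 16585816))) (a (l 16588992) (l 16584408))) (c (a (l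 16584112) (l 16579680)) (a (l 16580768) (l 16576112)))) (b (c (l 16583168) (l 16579552)) (c (l 16574824) (l 16571080)))))) (b (c (a (b (c (l 16582928) (l 16579888)) (c (l 16575392) (l 16572336))) (b (c (a (l 16576248) (l 16571752)) (l 16570464)) (c (a (l 16568648) (l 16564104)) (l 16562800)))) (a (b (l 16574944) (l 16567288)) (b (l 16564872) (l 16557080)))) (c (a (b (c (l 16568080) (l 16565064)) (l 16559400)) (b (c (a (l 16561280) (l 16556704)) (l 16555408)) (c (l 16551816) (l 16548280)))) (a (b (l 16559928) (l 16552688)) (b (l 16549584) (l 16542376)))))), by decide +kernel⟩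

def k92_pm_102_s : ∃ t, chk3 f_pm_102_s t 118 11 1 = true :=
  ⟨(b (b (c (b (b (c (a (l 16603480) (l 16599640)) (l 16597920)) (c (a (l 16598984) (l 16595168)) (a (l 16595432) (l 16591424)))) (c (a (b (l 16594536) (l 16590144)) (b (l 16590720) (l 16586312))) (a (l 16599224) (l 16584704)))) (b (b (c (l 16594200) (l 16590360)) (c (l 16589616) (l 16585736))) (c (a (l 16585008) (l 16580776)) (l 16578904)))) (c (b (c (a (b (l 16585840) (l 16581616)) (b (l 16581968) (l 16577704))) (a (l 16580032) (l 16575944))) (a (b (l 16586104) (l 16571528)) (c (b (l 16573528) (l 16569424)) (l 16567504)))) (b (c (l 16595008) (l 16569992)) (c (l 16565544) (l 16561408))))) (b (c (b (a (b (l 16567520) (l 16563584)) (c (c (l 16564392) (l 16562416)) (l 16559376))) (c (a (l 16559736) (c (l 16556648) (l 16554640))) (l 16553664))) (b (c (l 16557368) (l 16553128)) (l 16547344))) (c (b (c (a (l 16552296) (l 16548160)) (l 16546160)) (c (a (l 16545096) (l 16540928)) (l 16538928))) (b (l 16539720) (l 16532384))))), by decide +kernel⟩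

def k93_pm_102_s : ∃ t, chk3 f_pm_102_s t 119 11 1 = true :=
  ⟨(b (b (c (b (c (a (b (l 16595984) (l 16591536)) (b (l 16592488) (l 16588072))) (a (l 16589864) (l 16586208))) (c (a (b (l 16587112) (l 16582704)) (c (l 16582488) (l 16580456))) (b (l 16581320) (l 16576872)))) (b (c (b (l 16586144) (l 16581624)) (l 16579616)) (b (l 16574984) (l 16591456)))) (c (b (c (a (b (l 16578344) (l 16574040)) (b (l 16574920) (l 16570600))) (b (l 16572480) (l 16568144))) (c (b (a (l 16569824) (l 16566344)) (a (l 16565680) (l 16562168))) (b (l 16563848) (l 16559656)))) (b (c (l 16566024) (l 16561608)) (c (l 16557392) (l 16552904))))) (c (b (b (c (a (c (l 16560656) (l 16558584)) (c (l 16557128) (l 16554984))) (b (l 16555544) (l 16551512))) (c (a (c (l 16552848) (l 16550752)) (c (l 16549264) (l 16547080))) (l 16545600))) (b (c (c (a (l 16545320) (l 16541688)) (l 16541312)) (l 16537984)) (c (c (a (l 16538056) (l 16534384)) (l 16534008)) (l 16530640)))) (b (b (c (l 16549088) (l 16544520)) (l 16538776)) (b (l 16531032)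 (l 16523576))))), by decide +kernel⟩

def k94_pm_102_s : ∃ t, chk3 f_pm_102_s t 30 22 1 = true :=
  ⟨(a (b (c (a (b (c (a (l 16586928) (l 16583696)) (a (l 16582712) (l 16579328))) (c (a (l 16578184) (l 16575000)) (a (l 16573880) (l 16570560)))) (b (c (l 16578976) (l 16574424)) (c (l 16570368) (l 16565736)))) (a (b (c (l 16576552) (l 16571928)) (c (l 16567672) (l 16562984))) (b (c (l 16569688) (l 16564768)) (c (l 16560936) (l 16555960))))) (c (a (b (a (b (l 16569504) (l 16565168)) (c (l 16566368) (l 16561856))) (a (b (l 16581848) (l 16567128)) (b (l 16557680) (l 16553440)))) (b (c (l 16561816) (l 16557120)) (b (l 16574072) (c (l 16551224) (l 16546448))))) (b (a (c (l 16558856) (l 16554112)) (l 16570744)) (a (c (l 16550208) (l 16545408)) (c (l 16543648) (l 16538592)))))) (b (b (a (c (l 16591416) (l 16560496)) (c (l 16563856) (l 16553504))) (a (c (l 16582888) (l 16551864)) (c (l 16555456) (l 16545032)))) (b (a (c (c (l 16555872) (l 16550976)) (l 16543312)) (c (l 16547104) (l 16536632))) (a (c (c (l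 16547512) (l 16542552)) (l 16534832)) (c (l 16538824) (l 16528304)))))), by decide +kernel⟩

def k95_pm_102_s : ∃ t, chk3 f_pm_102_s t 30 23 1 = true :=
  ⟨(a (a (b (c (b (c (c (a (l 16553800) (l 16550640)) (l 16560424)) (l 16567464)) (c (c (a (l 16545872) (l 16542656)) (l 16541944)) (l 16538440))) (b (c (l 16541768) (l 16536920)) (l 16531208))) (c (b (c (c (a (l 16538248) (l 16534968)) (l 16534256)) (l 16530704)) (c (c (a (l 16530896) (l 16527568)) (l 16526856)) (l 16523248))) (b (l 16523352) (c (l 16518312) (l 16513224))))) (b (c (b (c (b (l 16547048) (l 16552112)) (l 16540168)) (c (a (c (l 16539568) (l 16537184)) (l 16535384)) (l 16531976))) (b (l 16553648) (l 16524416))) (c (b (c (b (l 16541480) (l 16548144)) (l 16524112)) (c (a (l 16523152) (l 16520048)) (l 16516552))) (b (l 16516464) (c (l 16511408) (l 16506152)))))) (b (c (a (b (c (a (l 16540656) (l 16537776)) (l 16534184)) (c (a (l 16532504) (l 16529608)) (l 16525984))) (b (l 16551592) (c (l 16525056) (l 16519856)))) (b (a (l 16526416) (l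 16520048)) (a (l 16518168) (l 16511856)))) (b (c (a (c (a (l 16524600) (l 16521656)) (l 16517992)) (c (l 16517112) (l 16511856))) (a (l 16510112) (l 16503824))) (c (a (c (c (l 16516816) (l 16514232)) (l 16510320)) (c (l 16509384) (l 16504056))) (a (c (l 16505032) (l 16499664)) (c (l 16498680) (l 16493264))))))), by decide +kernel⟩

def k96_pm_102_s : ∃ t, chk3 f_pm_102_s t 31 11 1 = true :=
  ⟨(a (a (b (b (b (c (l 16577624) (l 16545944)) (c (l 16548384) (l 16537664))) (b (c (l 16540168) (l 16529432)) (c (l 16532008) (l 16521272)))) (b (c (b (l 16523920) (l 16515904)) (b (l 16513168) (l 16505144))) (b (c (c (l 16510616) (l 16505280)) (b (l 16499176) (l 16495208))) (a (b (l 16519368) (l 16515496)) (b (l 16495008) (l 6)))))) (b (b (b (c (a (l 16571784) (l 16567712)) (b (l 16539832) (l 16535752))) (c (c (l 16543296) (l 16538008)) (l 16529728))) (b (c (l 16532592) (l 16521688)) (c (l 16524568) (l 16513704)))) (b (b (c (l 16516600) (l 16505776)) (c (l 16508712) (l 16497912))) (b (c (l 16500896) (l 16490120))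 (l 6))))) (a (b (b (b (c (b (l 16542432) (l 16538336)) (b (l 16531184) (l 16527144))) (b (c (l 16544776) (l 16523144)) (a (l 16527024) (a (l 16523744) (l 16521528))))) (b (c (c (l 16527024) (l 16521672)) (l 16513360)) (c (l 16526960) (l 16505576)))) (b (b (c (l 16508648) (l 16497840)) (c (l 16500880) (l 16490160))) (b (c (l 16493192) (l 16482536)) (l 6)))) (b (b (b (c (b (l 16533600) (l 16529424)) (b (l 16522216) (l 16518104))) (c (b (l 16525328) (l 16521336)) (b (l 16514080) (l 16510168)))) (b (c (a (b (l 16519688) (l 16515792)) (b (l 16515048) (l 16511168))) (a (l 16506688) (l 16502080))) (c (c (l 16510360) (l 16505024)) (c (l 16499600) (l 16494088))))) (b (a (b (c (l 16502240) (l 16491520)) (c (l 16494576) (l 16483984))) (b (c (l 16497752) (l 16487112)) (l 6))) (l 6))))), by decide +kernel⟩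

def k97_pm_102_s : ∃ t, chk3 f_pm_102_s t 6 6 1 = true :=
  ⟨(b (a (a (a (b (c (b (l 16649312) (l 16638416)) (b (l 16648000) (l 16636344))) (l 2)) (b (b (c (l 16661848) (l 16640624)) (c (l 16649984) (l 16628128))) (b (l 16618024) (l 2)))) (b (b (a (c (a (l 16634680) (l 16630568)) (l 16633976)) (c (l 16623600) (l 16626808))) (a (c (b (l 16622904) (l 16617048)) (l 16620720)) (c (c (l 16671128) (l 16611344)) (l 16612840)))) (a (c (b (l 16608920) (l 16599144)) (l 16623472)) (b (c (l 16598144) (l 16599512)) (l 16587960))))) (a (b (a (b (c (l 16612504) (l 16617304)) (c (l 16597848) (l 16602808))) (c (b (a (l 16603624) (l 16599456)) (c (l 16582384) (l 16608552))) (c (b (l 16626976) (l 16590504)) (b (l 16627416) (a (l 16594128) (l 16588272)))))) (a (a (b (l 16590888) (l 16578568)) (b (l 16584496) (l 16571664))) (c (a (l 16567672) (l 16560416)) (b (l 16576144) (l 16561944))))) (b (b (c (a (c (l 16592088) (l 16594784)) (c (l 16584064) (l 16585088))) (a (c (l 16595856) (l 16595344)) (c (l 16584872) (l 16583432))))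 (c (a (l 16574152) (b (l 16572256) (l 16564216))) (a (b (l 16584024) (l 16576176)) (b (l 16572488) (l 16564680))))) (b (c (a (l 16560952) (l 16552424)) (a (l 16564592) (l 16553144))) (c (a (l 16545856) (l 16537192)) (a (l 16549608) (l 16538192))))))) (b (b (a (a (l 2) (a (l 2) (l 16577648))) (a (a (l 16563792) (c (l 16545744) (l 16548840))) (a (c (l 16563208) (l 16535248)) (l 6)))) (a (l 2) (l 6))) (l 6))), by decide +kernel⟩

def k98_pm_102_s : ∃ t, chk3 f_pm_102_s t 14 6 1 = true :=
  ⟨(b (a (b (b (a (c (c (l 16574392) (l 16573936)) (a (l 16574968) (l 16568056))) (c (c (l 16582648) (l 16559856)) (a (c (l 16561528) (l 16558592)) (b (l 16555096) (l 16547672))))) (b (a (c (l 16562256) (a (l 16563272) (l 16556472))) (c (l 16549376) (a (l 16548776) (l 16540232)))) (a (c (l 16554376) (l 16552192)) (a (l 16543688) (l 16535848))))) (b (a (c (l 16542720) (a (l 16544048) (l 16537368))) (c (l 16551344) (a (l 16529880) (l 16521624)))) (a (c (l 16527544) (l 16525864)) (l 6)))) (b (a (b (c (a (c (l 16549920)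 (l 16547096)) (b (c (l 16544728) (l 16541240)) (l 16536000))) (a (b (l 16545520) (l 16538272)) (b (l 16535288) (l 16528264)))) (b (c (a (l 16537568) (l 16528872)) (a (l 16530984) (c (l 16523280) (l 16518896)))) (c (l 16525856) (a (l 16523696) (l 16514032))))) (b (c (c (a (b (a (l 16538104) (l 16533936)) (l 16529064)) (b (c (l 16539624) (l 16526952)) (c (l 16522304) (l 16520136)))) (a (b (l 16531952) (l 16525064)) (b (l 16523568) (l 16516744)))) (a (b (l 16525328) (c (l 16520704) (l 16515984))) (b (c (l 16518848) (l 16513896)) (c (l 16511992) (l 16506952))))) (c (a (b (l 16541208) (l 16513272)) (b (b (l 16513968) (l 16510624)) (l 16505560))) (b (a (c (l 16513848) (l 16509064)) (b (l 16504416) (l 16501064))) (a (l 16504560) (l 16495984)))))) (b (b (a (c (l 16518568) (a (l 16516392) (l 16506880))) (l 6)) (l 6)) (l 6)))) (l 6)), by decide +kernel⟩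

def k99_pm_102_s : ∃ t, chk3 f_pm_102_s t 15 6 1 = true :=
  ⟨(b (a (b (b (b (c (a (a (c (a (l 16522640) (l 16519232)) (l 16516080)) (c (c (l 16515632) (l 16513112)) (l 16509280))) (a (c (c (l 16509528) (l 16506912)) (l 16502944)) (c (l 16501976) (l 16496576)))) (a (a (c (l 16511072) (l 16505896)) (c (l 16504064) (l 16498736))) (a (c (l 16497592) (l 16492168)) (c (l 16491152) (l 16485704))))) (b (a (c (c (a (l 16515728) (l 16509144)) (l 16507352)) (a (l 16503224) (l 16496056))) (a (c (l 16521240) (l 16489464)) (l 6))) (a (a (c (c (l 16512344) (l 16507472)) (l 16499776)) (c (l 16513656) (l 16492568))) (l 6)))) (b (a (a (c (b (l 16506624) (l 16503320)) (c (l 16497400) (b (l 16493736) (l 16490368)))) (l 6)) (l 6)) (l 6))) (l 6)) (l 6)) (l 6)), by decide +kernel⟩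

def k100_pm_102_s : ∃ t, chk3 f_pm_102_s t 3 7 1 = true :=
  ⟨(l 6), by decide +kernel⟩

theorem s101_pm_102_s : ∃ t, chk3 f_pm_102_s t 7 6 1 = true := ex3_a k98_pm_102_s k99_pm_102_s

theorem s102_pm_102_s : ∃ t, chk3 f_pm_102_s t 3 6 1 = true := ex3_a k97_pm_102_s s101_pm_102_s

theorem s103_pm_102_s : ∃ t, chk3 f_pm_102_s t 3 3 1 = true := ex3_b s102_pm_102_s k100_pm_102_s

theorem s104_pm_102_s : ∃ t, chk3 f_pm_102_s t 30 11 1 = true := ex3_b k94_pm_102_s k95_pm_102_s

theorem s105_pm_102_s : ∃ t, chk3 f_pm_102_s t 15 11 1 = true := ex3_a s104_pm_102_s k96_pm_102_s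

theorem s106_pm_102_s : ∃ t, chk3 f_pm_102_s t 59 11 1 = true := ex3_a k92_pm_102_s k93_pm_102_s

theorem s107_pm_102_s : ∃ t, chk3 f_pm_102_s t 29 11 1 = true := ex3_a k91_pm_102_s s106_pm_102_s

theorem s108_pm_102_s : ∃ t, chk3 f_pm_102_s t 14 11 1 = true := ex3_a k90_pm_102_s s107_pm_102_s

theorem s109_pm_102_s : ∃ t, chk3 f_pm_102_s t 7 11 1 = true := ex3_a s108_pm_102_s s105_pm_102_s

theorem s110_pm_102_s : ∃ t, chk3 f_pm_102_s t 15 21 1 = true := ex3_a k88_pm_102_s k89_pm_102_s

theorem s111_pm_102_s : ∃ t, chk3 f_pm_102_s t 15 167 1 = true := ex3_b k86_pm_102_s k87_pm_102_s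

theorem s112_pm_102_s : ∃ t, chk3 f_pm_102_s t 15 83 1 = true := ex3_b k85_pm_102_s s111_pm_102_s

theorem s113_pm_102_s : ∃ t, chk3 f_pm_102_s t 15 82 1 = true := ex3_a k83_pm_102_s k84_pm_102_s

theorem s114_pm_102_s : ∃ t, chk3 f_pm_102_s t 15 41 1 = true := ex3_b s113_pm_102_s s112_pm_102_s

theorem s115_pm_102_s : ∃ t, chk3 f_pm_102_s t 15 40 1 = true := ex3_a k81_pm_102_s k82_pm_102_s

theorem s116_pm_102_s : ∃ t, chk3 f_pm_102_s t 15 20 1 = true := ex3_b s115_pm_102_s s114_pm_102_s

theorem s117_pm_102_s : ∃ t, chk3 f_pm_102_s t 15 10 1 = true := ex3_b s116_pm_102_s s110_pm_102_s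

theorem s118_pm_102_s : ∃ t, chk3 f_pm_102_s t 29 21 1 = true := ex3_a k79_pm_102_s k80_pm_102_s

theorem s119_pm_102_s : ∃ t, chk3 f_pm_102_s t 14 21 1 = true := ex3_a k78_pm_102_s s118_pm_102_s

theorem s120_pm_102_s : ∃ t, chk3 f_pm_102_s t 29 167 1 = true := ex3_b k76_pm_102_s k77_pm_102_s

theorem s121_pm_102_s : ∃ t, chk3 f_pm_102_s t 29 83 1 = true := ex3_b k75_pm_102_s s120_pm_102_s

theorem s122_pm_102_s : ∃ t, chk3 f_pm_102_s t 14 83 1 = true := ex3_a k74_pm_102_s s121_pm_102_s

theorem s123_pm_102_s : ∃ t, chk3 f_pm_102_s t 14 41 1 = true := ex3_b k73_pm_102_s s122_pm_102_s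

theorem s124_pm_102_s : ∃ t, chk3 f_pm_102_s t 14 40 1 = true := ex3_a k71_pm_102_s k72_pm_102_s

theorem s125_pm_102_s : ∃ t, chk3 f_pm_102_s t 14 20 1 = true := ex3_b s124_pm_102_s s123_pm_102_s

theorem s126_pm_102_s : ∃ t, chk3 f_pm_102_s t 14 10 1 = true := ex3_b s125_pm_102_s s119_pm_102_s

theorem s127_pm_102_s : ∃ t, chk3 f_pm_102_s t 7 10 1 = true := ex3_a s126_pm_102_s s117_pm_102_s

theorem s128_pm_102_s : ∃ t, chk3 f_pm_102_s t 7 5 1 = true := ex3_b s127_pm_102_s s109_pm_102_s

theorem s129_pm_102_s : ∃ t, chk3 f_pm_102_s t 6 11 1 = true := ex3_a k69_pm_102_s k70_pm_102_s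

theorem s130_pm_102_s : ∃ t, chk3 f_pm_102_s t 6 21 1 = true := ex3_a k67_pm_102_s k68_pm_102_s

theorem s131_pm_102_s : ∃ t, chk3 f_pm_102_s t 27 41 1 = true := ex3_b k65_pm_102_s k66_pm_102_s

theorem s132_pm_102_s : ∃ t, chk3 f_pm_102_s t 13 41 1 = true := ex3_a k64_pm_102_s s131_pm_102_s

theorem s133_pm_102_s : ∃ t, chk3 f_pm_102_s t 12 41 1 = true := ex3_b k62_pm_102_s k63_pm_102_s

theorem s134_pm_102_s : ∃ t, chk3 f_pm_102_s t 6 41 1 = true := ex3_a s133_pm_102_s s132_pm_102_s

theorem s135_pm_102_s : ∃ t, chk3 f_pm_102_s t 12 81 1 = true := ex3_a k59_pm_102_s k60_pm_102_s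

theorem s136_pm_102_s : ∃ t, chk3 f_pm_102_s t 6 81 1 = true := ex3_a s135_pm_102_s k61_pm_102_s

theorem s137_pm_102_s : ∃ t, chk3 f_pm_102_s t 6 80 1 = true := ex3_a k57_pm_102_s k58_pm_102_s

theorem s138_pm_102_s : ∃ t, chk3 f_pm_102_s t 6 40 1 = true := ex3_b s137_pm_102_s s136_pm_102_s

theorem s139_pm_102_s : ∃ t, chk3 f_pm_102_s t 6 20 1 = true := ex3_b s138_pm_102_s s134_pm_102_s

theorem s140_pm_102_s : ∃ t, chk3 f_pm_102_s t 6 10 1 = true := ex3_b s139_pm_102_s s130_pm_102_s

theorem s141_pm_102_s : ∃ t, chk3 f_pm_102_s t 6 5 1 = true := ex3_b s140_pm_102_s s129_pm_102_s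

theorem s142_pm_102_s : ∃ t, chk3 f_pm_102_s t 3 5 1 = true := ex3_a s141_pm_102_s s128_pm_102_s

theorem s143_pm_102_s : ∃ t, chk3 f_pm_102_s t 15 19 1 = true := ex3_a k55_pm_102_s k56_pm_102_s

theorem s144_pm_102_s : ∃ t, chk3 f_pm_102_s t 29 19 1 = true := ex3_b k53_pm_102_s k54_pm_102_s

theorem s145_pm_102_s : ∃ t, chk3 f_pm_102_s t 14 19 1 = true := ex3_a k52_pm_102_s s144_pm_102_s

theorem s146_pm_102_s : ∃ t, chk3 f_pm_102_s t 7 19 1 = true := ex3_a s145_pm_102_s s143_pm_102_s

theorem s147_pm_102_s : ∃ t, chk3 f_pm_102_s t 31 18 1 = true := ex3_a k50_pm_102_s k51_pm_102_s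

theorem s148_pm_102_s : ∃ t, chk3 f_pm_102_s t 15 18 1 = true := ex3_a k49_pm_102_s s147_pm_102_s

theorem s149_pm_102_s : ∃ t, chk3 f_pm_102_s t 29 18 1 = true := ex3_a k47_pm_102_s k48_pm_102_s

theorem s150_pm_102_s : ∃ t, chk3 f_pm_102_s t 14 18 1 = true := ex3_a k46_pm_102_s s149_pm_102_s

theorem s151_pm_102_s : ∃ t, chk3 f_pm_102_s t 7 18 1 = true := ex3_a s150_pm_102_s s148_pm_102_s

theorem s152_pm_102_s : ∃ t, chk3 f_pm_102_s t 7 9 1 = true := ex3_b s151_pm_102_s s146_pm_102_s

theorem s153_pm_102_s : ∃ t, chk3 f_pm_102_s t 63 35 1 = true := ex3_b k44_pm_102_s k45_pm_102_s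

theorem s154_pm_102_s : ∃ t, chk3 f_pm_102_s t 63 17 1 = true := ex3_b k43_pm_102_s s153_pm_102_s

theorem s155_pm_102_s : ∃ t, chk3 f_pm_102_s t 62 34 1 = true := ex3_b k40_pm_102_s k41_pm_102_s

theorem s156_pm_102_s : ∃ t, chk3 f_pm_102_s t 62 17 1 = true := ex3_b s155_pm_102_s k42_pm_102_s

theorem s157_pm_102_s : ∃ t, chk3 f_pm_102_s t 31 17 1 = true := ex3_a s156_pm_102_s s154_pm_102_s

theorem s158_pm_102_s : ∃ t, chk3 f_pm_102_s t 30 35 1 = true := ex3_a k38_pm_102_s k39_pm_102_s

theorem s159_pm_102_s : ∃ t, chk3 f_pm_102_s t 123 68 1 = true := ex3_b k35_pm_102_s k36_pm_102_s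

theorem s160_pm_102_s : ∃ t, chk3 f_pm_102_s t 123 34 1 = true := ex3_b s159_pm_102_s k37_pm_102_s

theorem s161_pm_102_s : ∃ t, chk3 f_pm_102_s t 122 34 1 = true := ex3_b k33_pm_102_s k34_pm_102_s

theorem s162_pm_102_s : ∃ t, chk3 f_pm_102_s t 61 34 1 = true := ex3_a s161_pm_102_s s160_pm_102_s

theorem s163_pm_102_s : ∃ t, chk3 f_pm_102_s t 30 34 1 = true := ex3_a k32_pm_102_s s162_pm_102_s

theorem s164_pm_102_s : ∃ t, chk3 f_pm_102_s t 30 17 1 = true := ex3_b s163_pm_102_s s158_pm_102_s

theorem s165_pm_102_s : ∃ t, chk3 f_pm_102_s t 15 17 1 = true := ex3_a s164_pm_102_s s157_pm_102_s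

theorem s166_pm_102_s : ∃ t, chk3 f_pm_102_s t 124 67 1 = true := ex3_b k28_pm_102_s k29_pm_102_s

theorem s167_pm_102_s : ∃ t, chk3 f_pm_102_s t 62 67 1 = true := ex3_a s166_pm_102_s k30_pm_102_s

theorem s168_pm_102_s : ∃ t, chk3 f_pm_102_s t 62 33 1 = true := ex3_b k27_pm_102_s s167_pm_102_s

theorem s169_pm_102_s : ∃ t, chk3 f_pm_102_s t 62 16 1 = true := ex3_b k26_pm_102_s s168_pm_102_s

theorem s170_pm_102_s : ∃ t, chk3 f_pm_102_s t 31 16 1 = true := ex3_a s169_pm_102_s k31_pm_102_s

theorem s171_pm_102_s : ∃ t, chk3 f_pm_102_s t 15 16 1 = true := ex3_a k25_pm_102_s s170_pm_102_s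

theorem s172_pm_102_s : ∃ t, chk3 f_pm_102_s t 15 8 1 = true := ex3_b s171_pm_102_s s165_pm_102_s

theorem s173_pm_102_s : ∃ t, chk3 f_pm_102_s t 7 8 1 = true := ex3_a k24_pm_102_s s172_pm_102_s

theorem s174_pm_102_s : ∃ t, chk3 f_pm_102_s t 7 4 1 = true := ex3_b s173_pm_102_s s152_pm_102_s

theorem s175_pm_102_s : ∃ t, chk3 f_pm_102_s t 13 39 1 = true := ex3_a k22_pm_102_s k23_pm_102_s

theorem s176_pm_102_s : ∃ t, chk3 f_pm_102_s t 13 19 1 = true := ex3_b k21_pm_102_s s175_pm_102_s

theorem s177_pm_102_s : ∃ t, chk3 f_pm_102_s t 6 19 1 = true := ex3_a k20_pm_102_s s176_pm_102_s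

theorem s178_pm_102_s : ∃ t, chk3 f_pm_102_s t 6 9 1 = true := ex3_b k19_pm_102_s s177_pm_102_s

theorem s179_pm_102_s : ∃ t, chk3 f_pm_102_s t 6 4 1 = true := ex3_b k18_pm_102_s s178_pm_102_s

theorem s180_pm_102_s : ∃ t, chk3 f_pm_102_s t 3 4 1 = true := ex3_a s179_pm_102_s s174_pm_102_s

theorem s181_pm_102_s : ∃ t, chk3 f_pm_102_s t 3 2 1 = true := ex3_b s180_pm_102_s s142_pm_102_s

theorem s182_pm_102_s : ∃ t, chk3 f_pm_102_s t 3 1 1 = true := ex3_b s181_pm_102_s s103_pm_102_s

theorem s183_pm_102_s : ∃ t, chk3 f_pm_102_s t 23 41 1 = true := ex3_a k13_pm_102_s k14_pm_102_s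

theorem s184_pm_102_s : ∃ t, chk3 f_pm_102_s t 11 41 1 = true := ex3_a k12_pm_102_s s183_pm_102_s

theorem s185_pm_102_s : ∃ t, chk3 f_pm_102_s t 5 41 1 = true := ex3_a k11_pm_102_s s184_pm_102_s

theorem s186_pm_102_s : ∃ t, chk3 f_pm_102_s t 188 163 1 = true := ex3_b k7_pm_102_s k8_pm_102_s

theorem s187_pm_102_s : ∃ t, chk3 f_pm_102_s t 94 163 1 = true := ex3_a s186_pm_102_s k9_pm_102_s

theorem s188_pm_102_s : ∃ t, chk3 f_pm_102_s t 47 163 1 = true := ex3_a s187_pm_102_s k10_pm_102_s

theorem s189_pm_102_s : ∃ t, chk3 f_pm_102_s t 47 81 1 = true := ex3_b k6_pm_102_s s188_pm_102_s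

theorem s190_pm_102_s : ∃ t, chk3 f_pm_102_s t 23 81 1 = true := ex3_a k5_pm_102_s s189_pm_102_s

theorem s191_pm_102_s : ∃ t, chk3 f_pm_102_s t 11 81 1 = true := ex3_a k4_pm_102_s s190_pm_102_s

theorem s192_pm_102_s : ∃ t, chk3 f_pm_102_s t 11 40 1 = true := ex3_b k3_pm_102_s s191_pm_102_s

theorem s193_pm_102_s : ∃ t, chk3 f_pm_102_s t 5 40 1 = true := ex3_a k2_pm_102_s s192_pm_102_s

theorem s194_pm_102_s : ∃ t, chk3 f_pm_102_s t 5 20 1 = true := ex3_b s193_pm_102_s s185_pm_102_s

theorem s195_pm_102_s : ∃ t, chk3 f_pm_102_s t 5 10 1 = true := ex3_b s194_pm_102_s k15_pm_102_s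

theorem s196_pm_102_s : ∃ t, chk3 f_pm_102_s t 2 10 1 = true := ex3_a k1_pm_102_s s195_pm_102_s

theorem s197_pm_102_s : ∃ t, chk3 f_pm_102_s t 2 5 1 = true := ex3_b s196_pm_102_s k16_pm_102_s

theorem s198_pm_102_s : ∃ t, chk3 f_pm_102_s t 2 2 1 = true := ex3_b k0_pm_102_s s197_pm_102_s

theorem s199_pm_102_s : ∃ t, chk3 f_pm_102_s t 2 1 1 = true := ex3_b s198_pm_102_s k17_pm_102_s

theorem s200_pm_102_s : ∃ t, chk3 f_pm_102_s t 1 1 1 = true := ex3_a s199_pm_102_s s182_pm_102_s

theorem c_pm_102_s : CertNE 536870912 536870912 0 536870912 740881858 40050571 3 eng mog cd0q1 cd0q0 pd2 true true false .npp 1 0 2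
    ndB0q1 ndB0q0 pcB2 cut_pm_102_s Ext.none :=
  certNE1 (fam := true) (s1 := true) (s2 := false) (a := 1) (b := 0) (c := 2) (cn := .npp) (n1 := ndB0q1) (n2 := ndB0q0) (pc := pcB2) (cut := cut_pm_102_s) (xt := Ext.none) (P1 := 536870912) (W1 := 536870912) (P2 := 0) (W2 := 536870912) (P3 := 740881858) (W3 := 40050571) (N0 := 3) (En := eng) (mo := mog) (C1 := cd0q1) (C2 := cd0q0) (C3 := pd2)
    rfl (fun _ => rfl) s200_pm_102_s

noncomputable def cut_pm_102_t : Cut := Cut.of [[⟨3, 0, 0, 2845415833⟩], [⟨0, 1, 0, 53687091⟩, ⟨1, 0, 0, 53687091⟩, ⟨2, 1, 0, 53687091⟩]]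

noncomputable def f_pm_102_t : ℕ → ℕ → ℕ → ℕ → Bool := onCell 536870912 536870912 0 536870912 740881858 40050571
    (rowNE 3 eng mog cd0q1 cd0q0 pd2 0 true true false .npp 1 0 2 (qsf 536870912 536870912 0 536870912 2) ndB0q1 ndB0q0 pcB2 cut_pm_102_t Ext.none)

def k0_pm_102_t : ∃ t, chk3 f_pm_102_t t 1 1 1 = true :=
  ⟨(l 6), by decide +kernel⟩

theorem c_pm_102_t : CertNE 536870912 536870912 0 536870912 740881858 40050571 3 eng mog cd0q1 cd0q0 pd2 true true false .npp 1 0 2
    ndB0q1 ndB0q0 pcB2 cut_pm_102_t Ext.none :=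
  certNE0 (fam := true) (s1 := true) (s2 := false) (a := 1) (b := 0) (c := 2) (cn := .npp) (n1 := ndB0q1) (n2 := ndB0q0) (pc := pcB2) (cut := cut_pm_102_t) (xt := Ext.none) (P1 := 536870912) (W1 := 536870912) (P2 := 0) (W2 := 536870912) (P3 := 740881858) (W3 := 40050571) (N0 := 3) (En := eng) (mo := mog) (C1 := cd0q1) (C2 := cd0q0) (C3 := pd2)
    rfl k0_pm_102_t

noncomputable def cut_pm_112_s : Cut := Cut.of [[⟨4, 0, 0, 1449551462⟩]]

noncomputable def f_pm_112_s : ℕ → ℕ → ℕ → ℕ → Bool := onCell 1073741824 536870912 536870912 536870912 740881858 40050571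
    (rowNE 3 eng mog cd0q1 cd0q1 pd2 2 true true false .dn 1 1 2 (qsf 536870912 536870912 536870912 536870912 2) ndB0q1 ndB0q1 pcB2 cut_pm_112_s Ext.none)

def k0_pm_112_s : ∃ t, chk3 f_pm_112_s t 4 2 1 = true :=
  ⟨(b (l 3) (l 3)), by decide +kernel⟩

def k1_pm_112_s : ∃ t, chk3 f_pm_112_s t 10 4 1 = true :=
  ⟨(a (a (l 3) (a (l 3) (a (b (b (b (a (l 3) (b (l 76403457047) (l 101636392215))) (l 3)) (l 3)) (l 3)) (b (a (a (b (b (c (l 16786880) (l 16776376)) (l 16787496)) (l 3)) (b (b (l 16785928) (l 16776560)) (b (l 16777176) (l 16776688)))) (b (b (l 16784472) (l 16775360)) (c (l 16786744) (l 16786688)))) (a (b (l 3) (a (l 3) (b (l 16776744) (l 16777168)))) (b (c (l 16787192) (l 16776672)) (c (l 16786720) (l 16786664)))))))) (b (b (b (b (a (a (l 16768520) (l 16759880)) (a (l 16750944) (l 16741800))) (a (a (l 16769728) (l 16761712)) (l 16769704))) (a (b (a (l 16770616) (l 16763208)) (l 16778216)) (a (l 16777088) (l 16747840)))) (a (a (b (l 16771808) (l 16772400)) (b (b (l 16764888) (l 16765320)) (l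 16765888))) (b (a (l 16779280) (l 16751200)) (b (l 16776968) (l 16756320))))) (b (a (b (a (l 16772712) (l 16766360)) (l 16774848)) (b (l 16756840) (l 16757176))) (a (a (b (l 16772512) (l 16771992)) (b (l 16766280) (l 16765728))) (b (l 16757072) (l 16756520)))))), by decide +kernel⟩

def k2_pm_112_s : ∃ t, chk3 f_pm_112_s t 10 5 1 = true :=
  ⟨(b (a (a (l 3) (a (b (l 3) (l 1)) (a (b (a (l 3) (b (b (l 3) (l 16785584)) (a (l 118279390647) (l 16786168)))) (l 1)) (a (b (b (a (a (l 16787512) (l 16787512)) (l 16786904)) (a (a (l 16786816) (l 16775904)) (l 16785744))) (l 1)) (b (b (l 16785664) (l 16784520)) (b (l 29024591047) (l 1))))))) (b (b (a (b (l 16768240) (l 16767728)) (l 16776568)) (a (a (b (l 16770232) (l 16769208)) (b (l 16763792) (l 16762512))) (l 16774720))) (a (a (b (b (l 16767856) (l 16787320)) (l 1)) (b (b (l 16760896) (l 16758960)) (b (l 16778112) (l 1)))) (b (b (l 16772032) (l 16769736)) (b (l 16767448) (a (l 16768824) (l 16740680))))))) (a (l 1) (b (b (a (l 1) (a (l 1) (c (l 16758448)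 (l 16737352)))) (l 1)) (l 1)))), by decide +kernel⟩

def k3_pm_112_s : ∃ t, chk3 f_pm_112_s t 11 2 1 = true :=
  ⟨(b (b (a (b (a (a (b (l 16765368) (l 16739320)) (b (l 16745728) (l 16730592))) (a (b (l 16736480) (l 16721520)) (b (l 16727120) (l 16712560)))) (b (a (l 16760576) (l 16744088)) (a (l 16763752) (l 16728024)))) (b (b (a (c (l 16692488) (l 16691320)) (c (l 16694168) (l 16671616))) (a (c (l 16699736) (l 16698232)) (c (l 16681424) (l 16679520)))) (a (b (l 16705568) (l 16711976)) (b (l 16708904) (l 16694888))))) (a (b (a (b (l 16765464) (l 16744896)) (b (l 16731312) (l 16732992))) (b (l 16760040) (l 16780688))) (b (a (b (l 16717048) (l 16720328)) (b (l 16701520) (l 16706624))) (a (b (l 16721832) (l 16721744)) (l 16752384))))) (b (a (b (b (a (l 16743656) (l 16732192)) (a (l 16741664) (l 16730160))) (b (a (l 16758544) (l 16725880)) (a (a (l 16777192) (l 16728968)) (l 16720080)))) (b (b (l 16715696) (l 16713856)) (b (l 16730496) (l 16724376)))) (b (a (b (a (a (l 43520072983) (l 45667548519))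 (a (l 16738000) (l 16731928))) (a (a (l 1) (l 52646848471)) (c (l 46741265303) (l 16728576)))) (a (b (l 16744312) (c (l 16717144) (l 16694832))) (b (l 16691528) (l 16726280)))) (a (a (l 1) (a (l 1) (b (l 53183678967) (l 1)))) (a (a (b (l 16712704) (l 1)) (b (l 16706416) (l 53720506551))) (b (c (l 16677376) (l 16675720)) (c (l 39224988887) (l 16668136)))))))), by decide +kernel⟩

def k4_pm_112_s : ∃ t, chk3 f_pm_112_s t 2 3 1 = true :=
  ⟨(a (l 1) (b (a (l 1) (b (a (l 1) (b (b (a (l 1) (c (l 55331092855) (l 16660800))) (l 1)) (l 1))) (l 1))) (l 1))), by decide +kernel⟩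

def k5_pm_112_s : ∃ t, chk3 f_pm_112_s t 12 1 1 = true :=
  ⟨(b (b (b (b (a (c (b (a (l 16653576) (l 16633576)) (a (l 16662480) (l 16643280))) (b (a (l 16651920) (l 16632024)) (a (l 16660192) (l 16640816)))) (a (b (c (l 16614232) (l 16612704)) (l 16622720)) (b (c (l 16593352) (l 16592152)) (c (l 16604944) (l 16602040))))) (a (b (a (l 16711888) (c (l 16652960) (l 16649640))) (a (l 16677752) (l 16660304))) (b (a (l 16632536) (l 16613456)) (a (l 16642232) (l 16623936))))) (a (b (b (l 16676608) (l 16746976)) (b (l 16689656) (l 16713608))) (b (b (a (l 16651560) (l 16634128)) (l 16651728)) (b (l 16659704) (l 16667008))))) (b (a (b (b (l 16694904) (l 16736328)) (b (l 16689816) (l 16683704))) (b (b (l 16671976) (l 16673480)) (b (l 16672200) (l 16667224)))) (b (a (b (l 16676728) (a (l 16673992) (l 16664504))) (l 16718784)) (a (a (b (l 16686824) (c (l 16658088) (l 16656160))) (b (l 16656040) (c (l 16648240) (l 16645392)))) (b (l 16643024) (a (l 16637536) (l 16629224))))))) (b (b (b (b (a (c (a (l 16670288)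 (l 16638416)) (a (l 16648000) (l 16636352))) (a (l 16627632) (l 16618720))) (a (a (c (l 53720450295) (l 16640632)) (c (l 16649984) (l 16628136))) (a (l 16638992) (l 16608408)))) (a (a (l 1) (a (l 1) (b (l 16617848) (l 1)))) (b (a (c (l 16608920) (l 16608280)) (l 16598480)) (a (c (l 16598144) (l 16599520)) (l 16587960))))) (b (a (l 1) (b (c (a (l 1) (l 16573360)) (l 122439945479)) (l 1))) (l 1))) (l 1))), by decide +kernel⟩

def k6_pm_112_s : ∃ t, chk3 f_pm_112_s t 13 1 1 = true :=
  ⟨(b (a (b (b (b (b (a (l 16570912) (l 6)) (a (l 16583448) (l 16561352))) (b (a (l 16594928) (l 16574896)) (a (l 16605336) (l 16587264)))) (b (b (a (l 16616448) (l 16598416)) (l 16639464)) (b (l 16628560) (l 16638080)))) (b (b (b (l 16645800) (l 16651864)) (b (l 16653568) (l 16650680))) (a (b (l 16645792) (l 16647960)) (b (l 16639320) (l 16620960))))) (b (b (l 6) (l 6)) (l 6))) (b (a (b (b (b (l 16607480) (l 16596120)) (b (a (l 16589184) (l 16581096)) (a (l 16577648) (l 16568616)))) (a (b (b (l 16563792) (c (l 16545744)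 (l 16548840))) (l 1)) (l 6))) (l 6)) (b (l 6) (l 1)))), by decide +kernel⟩

def k7_pm_112_s : ∃ t, chk3 f_pm_112_s t 7 1 1 = true :=
  ⟨(b (b (l 6) (l 6)) (l 6)), by decide +kernel⟩

theorem s8_pm_112_s : ∃ t, chk3 f_pm_112_s t 6 1 1 = true := ex3_a k5_pm_112_s k6_pm_112_s

theorem s9_pm_112_s : ∃ t, chk3 f_pm_112_s t 3 1 1 = true := ex3_a s8_pm_112_s k7_pm_112_s

theorem s10_pm_112_s : ∃ t, chk3 f_pm_112_s t 10 2 1 = true := ex3_b k1_pm_112_s k2_pm_112_s

theorem s11_pm_112_s : ∃ t, chk3 f_pm_112_s t 5 2 1 = true := ex3_a s10_pm_112_s k3_pm_112_s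

theorem s12_pm_112_s : ∃ t, chk3 f_pm_112_s t 2 2 1 = true := ex3_a k0_pm_112_s s11_pm_112_s

theorem s13_pm_112_s : ∃ t, chk3 f_pm_112_s t 2 1 1 = true := ex3_b s12_pm_112_s k4_pm_112_s

theorem s14_pm_112_s : ∃ t, chk3 f_pm_112_s t 1 1 1 = true := ex3_a s13_pm_112_s s9_pm_112_s

theorem c_pm_112_s : CertNE 536870912 536870912 536870912 536870912 740881858 40050571 3 eng mog cd0q1 cd0q1 pd2 true true false .dn 1 1 2
    ndB0q1 ndB0q1 pcB2 cut_pm_112_s Ext.none :=
  certNE2 (fam := true) (s1 := true) (s2 := false) (a := 1) (b := 1) (c := 2) (cn := .dn) (n1 := ndB0q1) (n2 := ndB0q1) (pc := pcB2) (cut := cut_pm_112_s) (xt := Ext.none) (P1 := 536870912) (W1 := 536870912) (P2 := 536870912) (W2 := 536870912) (P3 := 740881858) (W3 := 40050571) (N0 := 3) (En := eng) (mo := mog) (C1 := cd0q1) (C2 := cd0q1) (C3 := pd2)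
    rfl (fun _ => rfl) s14_pm_112_s

noncomputable def cut_pm_112_t : Cut := Cut.of [[⟨3, 0, 0, 2845415833⟩]]

noncomputable def f_pm_112_t : ℕ → ℕ → ℕ → ℕ → Bool := onCell 536870912 536870912 1073741824 536870912 740881858 40050571
    (rowNE 3 eng mog cd0q1 cd0q1 pd2 1 true true false .dn 1 1 2 (qsf 536870912 536870912 536870912 536870912 2) ndB0q1 ndB0q1 pcB2 cut_pm_112_t Ext.none)

def k0_pm_112_t : ∃ t, chk3 f_pm_112_t t 1 1 1 = true :=
  ⟨(l 6), by decide +kernel⟩

theorem c_pm_112_t : CertNE 536870912 536870912 536870912 536870912 740881858 40050571 3 eng mog cd0q1 cd0q1 pd2 true true false .dn 1 1 2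
    ndB0q1 ndB0q1 pcB2 cut_pm_112_t Ext.none :=
  certNE1 (fam := true) (s1 := true) (s2 := false) (a := 1) (b := 1) (c := 2) (cn := .dn) (n1 := ndB0q1) (n2 := ndB0q1) (pc := pcB2) (cut := cut_pm_112_t) (xt := Ext.none) (P1 := 536870912) (W1 := 536870912) (P2 := 536870912) (W2 := 536870912) (P3 := 740881858) (W3 := 40050571) (N0 := 3) (En := eng) (mo := mog) (C1 := cd0q1) (C2 := cd0q1) (C3 := pd2)
    rfl (fun _ => rfl) k0_pm_112_t

noncomputable def cut_pm_113_s : Cut := Cut.of [[⟨4, 0, 0, 1449551462⟩], [⟨0, 1, 0, 67108864⟩, ⟨1, 1, 0, 67108864⟩, ⟨2, 2, 0, 16777216⟩], [⟨0, 0, 1, 20971520⟩, ⟨1, 1, 0, 33554432⟩, ⟨2, 1, 1, 20971520⟩], [⟨0, 1, 0, 33554432⟩, ⟨1, 0, 1, 20971520⟩, ⟨2, 1, 1, 20971520⟩]]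

noncomputable def f_pm_113_s : ℕ → ℕ → ℕ → ℕ → Bool := onCell 1610612736 536870912 536870912 536870912 740881858 40050571
    (rowNE 3 eng mog cd0q1 cd0q1 pd3 2 true true false .nn 1 1 3 (qsf 536870912 536870912 536870912 536870912 3) ndB0q1 ndB0q1 pcB3 cut_pm_113_s Ext.none)

def k0_pm_113_s : ∃ t, chk3 f_pm_113_s t 1 1 1 = true :=
  ⟨(a (b (a (l 6) (l 6)) (l 6)) (l 6)), by decide +kernel⟩

theorem c_pm_113_s : CertNE 536870912 536870912 536870912 536870912 740881858 40050571 3 eng mog cd0q1 cd0q1 pd3 true true false .nn 1 1 3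
    ndB0q1 ndB0q1 pcB3 cut_pm_113_s Ext.none :=
  certNE2 (fam := true) (s1 := true) (s2 := false) (a := 1) (b := 1) (c := 3) (cn := .nn) (n1 := ndB0q1) (n2 := ndB0q1) (pc := pcB3) (cut := cut_pm_113_s) (xt := Ext.none) (P1 := 536870912) (W1 := 536870912) (P2 := 536870912) (W2 := 536870912) (P3 := 740881858) (W3 := 40050571) (N0 := 3) (En := eng) (mo := mog) (C1 := cd0q1) (C2 := cd0q1) (C3 := pd3)
    rfl (fun _ => rfl) k0_pm_113_s

noncomputable def cut_pm_113_t : Cut := Cut.of [[⟨3, 0, 0, 2845415833⟩], [⟨0, 1, 0, 67108864⟩, ⟨1, 1, 0, 67108864⟩, ⟨2, 2, 0, 16777216⟩], [⟨0, 0, 1, 20971520⟩, ⟨1, 1, 0, 33554432⟩, ⟨2, 1, 1, 20971520⟩], [⟨0, 1, 0, 33554432⟩, ⟨1, 0, 1, 20971520⟩, ⟨2, 1, 1, 20971520⟩]]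

noncomputable def f_pm_113_t : ℕ → ℕ → ℕ → ℕ → Bool := onCell 536870912 536870912 536870912 536870912 740881858 40050571
    (rowNE 3 eng mog cd0q1 cd0q1 pd3 0 true true false .nn 1 1 3 (qsf 536870912 536870912 536870912 536870912 3) ndB0q1 ndB0q1 pcB3 cut_pm_113_t Ext.none)

def k0_pm_113_t : ∃ t, chk3 f_pm_113_t t 2 1 1 = true :=
  ⟨(l 6), by decide +kernel⟩

def k1_pm_113_t : ∃ t, chk3 f_pm_113_t t 3 2 1 = true :=
  ⟨(l 6), by decide +kernel⟩

def k2_pm_113_t : ∃ t, chk3 f_pm_113_t t 6 3 1 = true :=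
  ⟨(b (l 6) (b (l 6) (a (l 6) (b (l 6) (a (l 6) (b (l 6) (b (l 6) (a (l 6) (a (l 6) (c (c (l 16772320) (l 16777560)) (l 16786776))))))))))), by decide +kernel⟩

def k3_pm_113_t : ∃ t, chk3 f_pm_113_t t 7 6 1 = true :=
  ⟨(a (l 6) (b (l 6) (a (l 6) (b (l 6) (a (l 6) (a (l 6) (b (l 6) (b (l 6) (c (c (l 16772320) (l 16777560)) (l 16786776)))))))))), by decide +kernel⟩

def k4_pm_113_t : ∃ t, chk3 f_pm_113_t t 7 14 1 = true :=
  ⟨(a (l 6) (a (b (l 6) (b (a (l 6) (a (l 16859768) (l 16829592))) (a (l 16884480) (c (l 16861936) (l 16864952))))) (b (a (a (b (l 6) (c (l 16825640) (l 16830888))) (b (l 6) (c (l 16814512) (l 16821272)))) (b (c (a (b (l 16790304) (l 16794904)) (b (c (l 16776656) (l 16781352)) (a (l 16786056) (l 16779912)))) (a (b (l 16799784) (l 16803576)) (b (l 16789640) (l 16792680)))) (b (a (l 16782712) (c (a (l 16790664) (l 16784240)) (l 16796296))) (a (l 16787720) (c (a (l 16795456) (l 16788752)) (l 16800256)))))) (a (b (a (b (l 16837720) (l 16843656)) (b (l 16826272) (l 16831928))) (c (a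 (l 16846416) (l 16792568)) (a (l 16851896) (l 16841152)))) (b (a (c (b (l 16810344) (l 16815368)) (b (l 16817640) (l 16822464))) (b (c (a (l 16800232) (l 16793240)) (l 16804336)) (c (a (l 16804808) (l 16797512)) (l 16808320)))) (a (c (b (l 16819200) (l 16821032)) (l 16785272)) (b (c (l 16783448) (l 16811160)) (c (l 16784736) (l 16791040))))))))), by decide +kernel⟩

def k5_pm_113_t : ∃ t, chk3 f_pm_113_t t 14 15 1 = true :=
  ⟨(b (a (l 6) (a (b (l 6) (b (l 16859768) (l 16829592))) (b (l 16884480) (b (l 16868344) (l 16858560))))) (a (b (b (a (l 6) (c (l 16825640) (l 16830888))) (a (l 6) (c (l 16814512) (l 16821272)))) (a (c (b (a (l 16790304) (l 16794904)) (a (c (l 16776656) (l 16781352)) (b (l 16786056) (l 16779912)))) (b (a (l 16799784) (l 16803576)) (a (l 16789640) (l 16792680)))) (a (b (l 16782712) (c (b (l 16790664) (l 16784240)) (l 16796296))) (b (l 16787720) (c (b (l 16795456) (l 16788752)) (l 16800256)))))) (b (a (b (a (l 16837720) (l 16843656)) (a (l 16826272) (l 16831928))) (c (b (l 16846416)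 (l 16792568)) (b (l 16851896) (l 16841152)))) (a (b (c (a (l 16810344) (l 16815368)) (a (l 16817640) (l 16822464))) (a (c (b (l 16800232) (l 16793240)) (l 16804336)) (c (b (l 16804808) (l 16797512)) (l 16808320)))) (b (c (a (l 16819200) (l 16821032)) (l 16785272)) (a (c (l 16783448) (l 16811160)) (c (l 16784736) (l 16791040)))))))), by decide +kernel⟩

def k6_pm_113_t : ∃ t, chk3 f_pm_113_t t 30 15 1 = true :=
  ⟨(b (b (a (l 16884640) (a (l 16867832) (l 16857632))) (a (b (l 16867832) (l 16857632)) (b (l 16857600) (l 16850352)))) (b (a (b (l 16847800) (c (l 16834664) (l 16840720))) (b (a (l 16842440) (l 16837792)) (a (l 16832800) (l 16828032)))) (a (a (c (b (l 16821224) (b (l 16809432) (l 16801320))) (b (l 16806800) (l 16769288))) (c (b (l 16799088) (b (l 16808000) (l 16799640))) (b (l 16826304) (b (l 16813648) (l 16804688))))) (b (a (b (l 16824768) (l 16774904)) (b (l 16799872) (c (l 16811648) (l 16817072)))) (b (a (c (l 16805688) (l 16810888)) (c (l 16803120) (l 16807872))) (a (c (l 16776128) (l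 16780592)) (c (a (l 16794984) (l 16793608)) (c (l 16797120) (l 16778312))))))))), by decide +kernel⟩

def k7_pm_113_t : ∃ t, chk3 f_pm_113_t t 31 30 1 = true :=
  ⟨(a (b (a (l 16847800) (c (l 16834664) (l 16840720))) (a (b (l 16842440) (l 16837792)) (b (l 16832800) (l 16828032)))) (b (b (c (a (l 16821224) (a (l 16809432) (l 16801320))) (a (l 16806800) (l 16769288))) (c (a (l 16799088) (a (l 16808000) (l 16799640))) (a (l 16826304) (a (l 16813648) (l 16804688))))) (a (b (a (l 16803800) (l 16774904)) (a (l 16799872) (c (l 16811648) (l 16817072)))) (a (b (c (l 16805688) (l 16810888)) (b (l 16785088) (l 16773232))) (b (c (l 16776128) (l 16780592)) (c (b (l 16794984) (l 16793608)) (c (l 16797120) (l 16778312)))))))), by decide +kernel⟩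

def k8_pm_113_t : ∃ t, chk3 f_pm_113_t t 62 31 1 = true :=
  ⟨(b (c (b (l 16827352) (l 16798704)) (b (l 16807232) (l 16797024))) (b (a (b (l 16815760) (c (l 16808376) (l 16791912))) (b (l 16799560) (a (l 16785952) (l 16803896)))) (a (b (a (c (l 16801256) (l 16805656)) (b (l 16783400) (l 16778664))) (c (a (l 16781760) (b (l 16793208) (l 16788592))) (a (l 16774704) (c (l 16793184) (l 16773952))))) (b (a (b (l 16781808) (l 16777312)) (b (l 16789912) (a (l 16776296) (l 16780776)))) (b (a (a (l 16772768) (l 16772056)) (a (l 16771344) (l 16775880))) (a (c (l 16787232) (l 16789752)) (c (c (l 16785416) (l 16786384)) (c (l 16787480) (l 16788696))))))))), by decide +kernel⟩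

def k9_pm_113_t : ∃ t, chk3 f_pm_113_t t 63 31 1 = true :=
  ⟨(a (b (b (a (l 16815760) (c (l 16808376) (l 16791912))) (a (l 16799560) (c (l 16793504) (l 16791104)))) (b (c (c (l 16780504) (l 16780488)) (c (l 16780480) (l 16780472))) (b (a (b (l 16786864) (c (l 16793440) (l 16785680))) (b (l 16783552) (c (l 16780496) (l 16781768)))) (b (b (a (a (l 16792168) (l 16775744)) (c (l 16779664) (l 16781744))) (a (a (l 16779144) (l 16778424)) (l 14))) (a (a (c (l 16779640) (l 16776328)) (a (b (l 16786520) (l 14)) (l 14))) (l 14)))))) (b (b (a (b (c (l 16801256) (l 16805656)) (a (l 16783400) (l 16778664))) (c (b (l 16781760) (a (l 16793208) (l 16788592))) (b (l 16774704) (c (l 16793184) (l 16773952))))) (a (a (b (l 16781808) (l 16789912)) (b (l 16777312) (a (l 16777096) (l 16774736)))) (a (b (a (l 16773648) (l 16771184)) (b (l 16771344) (l 16775880))) (b (c (l 16787232) (l 16789752)) (c (c (l 16785416) (l 16786384)) (c (l 16787480) (l 16788696))))))) (b (a (b (a (l 16786864) (c (l 16793440) (l 16785680)))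 (a (l 16783552) (c (l 16780496) (l 16781768)))) (a (a (b (b (l 16792168) (l 16775744)) (c (l 16779664) (l 16781744))) (b (b (l 16779144) (l 16778424)) (l 14))) (b (c (c (a (l 16785320) (l 16782984)) (l 16774480)) (c (l 16775400) (l 16776432))) (l 14)))) (a (a (a (b (l 16785512) (l 14)) (l 14)) (l 14)) (l 14))))), by decide +kernel⟩

theorem s10_pm_113_t : ∃ t, chk3 f_pm_113_t t 31 31 1 = true := ex3_a k8_pm_113_t k9_pm_113_t

theorem s11_pm_113_t : ∃ t, chk3 f_pm_113_t t 31 15 1 = true := ex3_b k7_pm_113_t s10_pm_113_t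

theorem s12_pm_113_t : ∃ t, chk3 f_pm_113_t t 15 15 1 = true := ex3_a k6_pm_113_t s11_pm_113_t

theorem s13_pm_113_t : ∃ t, chk3 f_pm_113_t t 7 15 1 = true := ex3_a k5_pm_113_t s12_pm_113_t

theorem s14_pm_113_t : ∃ t, chk3 f_pm_113_t t 7 7 1 = true := ex3_b k4_pm_113_t s13_pm_113_t

theorem s15_pm_113_t : ∃ t, chk3 f_pm_113_t t 7 3 1 = true := ex3_b k3_pm_113_t s14_pm_113_t

theorem s16_pm_113_t : ∃ t, chk3 f_pm_113_t t 3 3 1 = true := ex3_a k2_pm_113_t s15_pm_113_t

theorem s17_pm_113_t : ∃ t, chk3 f_pm_113_t t 3 1 1 = true := ex3_b k1_pm_113_t s16_pm_113_t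

theorem s18_pm_113_t : ∃ t, chk3 f_pm_113_t t 1 1 1 = true := ex3_a k0_pm_113_t s17_pm_113_t

theorem c_pm_113_t : CertNE 536870912 536870912 536870912 536870912 740881858 40050571 3 eng mog cd0q1 cd0q1 pd3 true true false .nn 1 1 3
    ndB0q1 ndB0q1 pcB3 cut_pm_113_t Ext.none :=
  certNE0 (fam := true) (s1 := true) (s2 := false) (a := 1) (b := 1) (c := 3) (cn := .nn) (n1 := ndB0q1) (n2 := ndB0q1) (pc := pcB3) (cut := cut_pm_113_t) (xt := Ext.none) (P1 := 536870912) (W1 := 536870912) (P2 := 536870912) (W2 := 536870912) (P3 := 740881858) (W3 := 40050571) (N0 := 3) (En := eng) (mo := mog) (C1 := cd0q1) (C2 := cd0q1) (C3 := pd3)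
    rfl s18_pm_113_t

noncomputable def cut_pm_123_s : Cut := Cut.of [[⟨4, 0, 0, 1449551462⟩], [⟨0, 1, 0, 67108864⟩, ⟨1, 1, 0, 67108864⟩, ⟨2, 2, 0, 16777216⟩], [⟨0, 0, 1, 20971520⟩, ⟨1, 1, 0, 33554432⟩, ⟨2, 1, 1, 20971520⟩]]

noncomputable def f_pm_123_s : ℕ → ℕ → ℕ → ℕ → Bool := onCell 536870912 536870912 0 536870912 740881858 40050571
    (rowNE 3 eng mog cd0q1 cd0q2 pd3 0 true true false .npn 1 2 3 (qsf 536870912 536870912 0 536870912 3) ndB0q1 ndB0q2 pcB3 cut_pm_123_s Ext.none)

def k0_pm_123_s : ∃ t, chk3 f_pm_123_s t 1 1 1 = true :=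
  ⟨(l 6), by decide +kernel⟩

theorem c_pm_123_s : CertNE 536870912 536870912 0 536870912 740881858 40050571 3 eng mog cd0q1 cd0q2 pd3 true true false .npn 1 2 3
    ndB0q1 ndB0q2 pcB3 cut_pm_123_s Ext.none :=
  certNE0 (fam := true) (s1 := true) (s2 := false) (a := 1) (b := 2) (c := 3) (cn := .npn) (n1 := ndB0q1) (n2 := ndB0q2) (pc := pcB3) (cut := cut_pm_123_s) (xt := Ext.none) (P1 := 536870912) (W1 := 536870912) (P2 := 0) (W2 := 536870912) (P3 := 740881858) (W3 := 40050571) (N0 := 3) (En := eng) (mo := mog) (C1 := cd0q1) (C2 := cd0q2) (C3 := pd3)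
    rfl k0_pm_123_s

noncomputable def cut_pm_123_t : Cut := Cut.of [[⟨3, 0, 0, 2845415833⟩], [⟨0, 1, 0, 67108864⟩, ⟨1, 1, 0, 67108864⟩, ⟨2, 2, 0, 16777216⟩], [⟨0, 0, 1, 20971520⟩, ⟨1, 1, 0, 33554432⟩, ⟨2, 1, 1, 20971520⟩]]

noncomputable def f_pm_123_t : ℕ → ℕ → ℕ → ℕ → Bool := onCell 1610612736 536870912 0 536870912 740881858 40050571
    (rowNE 3 eng mog cd0q1 cd0q2 pd3 2 true true false .npn 1 2 3 (qsf 536870912 536870912 0 536870912 3) ndB0q1 ndB0q2 pcB3 cut_pm_123_t Ext.none)

def k0_pm_123_t : ∃ t, chk3 f_pm_123_t t 2 1 1 = true :=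
  ⟨(a (b (b (l 1) (l 6)) (l 6)) (b (a (b (a (a (l 1) (b (l 16744104) (l 16682216))) (b (c (a (l 16723456) (l 16733536)) (l 16792016)) (a (l 16693168) (l 16703184)))) (b (a (b (l 16652128) (l 6)) (b (l 16675152) (l 16659536))) (l 6))) (b (b (a (b (l 16775272) (l 16760936)) (a (b (l 16767056) (l 16753304)) (b (a (l 16772920) (l 92576663863)) (l 16761608)))) (a (b (l 16725520) (l 16710248)) (a (l 16774184) (l 16762400)))) (b (a (l 16730152) (b (l 16716040) (l 16703424))) (a (b (l 16668176) (l 6)) (b (l 16692088) (a (l 16675864) (l 16689584))))))) (a (l 6) (b (l 6) (l 6))))), by decide +kernel⟩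

def k1_pm_123_t : ∃ t, chk3 f_pm_123_t t 6 2 1 = true :=
  ⟨(a (b (a (b (b (a (b (l 4) (l 105998483479)) (l 4)) (a (b (l 16772264) (l 16766496)) (b (l 109219710711) (l 16773592)))) (b (a (l 16757544) (l 16765920)) (l 16771176))) (b (b (l 4) (a (b (l 4) (a (l 103314116583) (l 107072143543))) (l 4))) (a (b (a (l 16770640) (l 43184578503)) (l 16762776)) (b (b (a (l 110293445303) (l 147874370391)) (a (l 16774032) (l 16776728))) (l 16769600))))) (b (a (a (l 16727656) (b (l 16745096) (l 16736912))) (a (b (l 16754704) (l 16748248)) (b (l 16763896) (l 16760064)))) (a (b (l 16722192) (a (l 16707264) (l 16727904))) (b (a (l 16744880) (l 16758568)) (a (l 16744272) (l 16760184)))))) (b (b (l 4) (a (a (b (b (l 4) (a (l 121030866055) (l 4))) (b (a (l 16775304) (l 99556028327)) (l 16794696))) (b (l 4) (b (a (l 104387780023) (l 4)) (a (l 16776768) (l 113514675959))))) (b (l 4) (l 4)))) (a (b (b (a (l 16791896) (a (l 16774784) (l 16776280))) (a (l 16769368) (l 16775104))) (b (a (l 16769560) (l 16776744)) (a (l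 16772320) (l 16780960)))) (b (b (a (b (a (l 74859965239) (b (l 4) (l 122641469095))) (a (l 16776992) (l 16777616))) (b (l 4) (a (l 112977806695) (l 4)))) (a (a (l 16777616) (l 16778456)) (b (a (l 16778000) (c (l 81839285399) (l 82376156199))) (a (l 16779280) (l 16778992))))) (b (a (l 16781048) (a (l 16782488) (l 16782712))) (a (l 16786576) (b (l 16787560) (l 16790904)))))))), by decide +kernel⟩

def k2_pm_123_t : ∃ t, chk3 f_pm_123_t t 6 3 1 = true :=
  ⟨(b (a (b (a (b (a (l 16700536) (l 16724904)) (a (l 6) (l 16721064))) (b (a (l 16722936) (b (l 16760544) (l 16760144))) (a (l 16744640) (l 16742064)))) (a (l 6) (a (b (l 16744576) (l 6)) (b (c (l 16760088) (l 16773160)) (c (l 16755304) (l 16761656)))))) (b (a (b (a (l 16773920) (l 16782928)) (a (l 16752944) (b (l 16781032) (l 16781184)))) (b (a (l 16789672) (l 16793120)) (a (b (l 16788720) (l 16765392)) (b (l 16792032) (l 16770024))))) (a (b (a (l 16756240) (l 16761224)) (a (c (l 16766192) (l 16793360)) (b (l 16781696) (l 16780048)))) (a (b (b (l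 16785808) (l 16784856)) (b (l 16782816) (l 16758424))) (b (b (a (l 16787968) (l 16788400)) (l 16785808)) (b (a (l 16782504) (l 16781840)) (a (l 16777848) (l 16777096)))))))) (a (l 6) (b (a (a (b (b (l 16735824) (l 6)) (l 6)) (b (b (l 16735320) (c (l 16756232) (l 16795416))) (b (c (l 16731128) (l 16756432)) (l 6)))) (c (b (a (b (l 16762360) (l 16755912)) (b (l 16742800) (l 16736488))) (a (b (l 16731352) (a (l 16729568) (l 16751960))) (b (l 16734168) (b (l 16734424) (l 16735480))))) (b (a (b (l 16787856) (l 16787768)) (b (l 16782536) (l 16781912))) (a (b (l 16748576) (a (l 16797320) (l 16794200))) (b (l 16783864) (a (l 16792152) (l 16790960))))))) (a (l 6) (b (a (a (l 6) (b (c (l 16752984) (l 16795368)) (b (l 16771608) (l 6)))) (b (c (b (l 16737112) (l 16759384)) (a (l 16795600) (l 16795928))) (c (a (l 16759144) (l 16763736)) (a (l 16791192) (l 16792920))))) (a (l 6) (a (b (c (b (l 16761120) (l 16762312)) (l 16786432)) (l 6)) (b (c (l 16787240) (l 16788616)) (c (b (l 16767816) (c (l 16765704) (l 16771976)))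 (b (l 16785192) (l 16782864))))))))))), by decide +kernel⟩

def k3_pm_123_t : ∃ t, chk3 f_pm_123_t t 14 2 1 = true :=
  ⟨(b (l 4) (a (b (b (l 4) (a (b (a (b (l 4) (l 124788954919)) (l 4)) (a (b (l 82913026599) (l 16778608)) (b (l 151632495335) (c (l 110830312695) (l 16786840))))) (l 4))) (a (b (a (b (l 16780512) (l 16783672)) (b (l 54995740727) (l 16782440))) (a (l 16768512) (b (l 16786368) (l 16790024)))) (b (a (b (a (l 83449895975) (l 118883375943)) (l 16780448)) (a (b (l 160222402967) (l 16784256)) (b (l 4) (a (l 91502956471) (l 103850987415))))) (a (b (l 16784456) (l 16788168)) (b (c (l 16782928) (l 16780872)) (l 16785680)))))) (b (l 4) (a (b (a (b (l 4) (a (b (l 4) (l 116735883607)) (l 4))) (l 4)) (a (b (a (l 16790224) (b (l 107609080167) (l 16778992))) (a (l 16783440) (l 16781752))) (b (b (l 4) (a (l 102777245415) (l 157001197575))) (a (l 16780160) (b (l 100629762327) (l 16779360)))))) (b (l 4) (a (b (l 4) (a (b (l 150558748519) (l 97408535591)) (b (l 4) (a (l 103314071863) (l 4))))) (l 4))))))),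 by decide +kernel⟩

def k4_pm_123_t : ∃ t, chk3 f_pm_123_t t 14 6 1 = true :=
  ⟨(a (b (b (a (a (l 16793464) (l 16792448)) (a (l 16769680) (b (l 16787480) (l 16788088)))) (a (b (l 16791936) (l 16769040)) (a (l 16778824) (b (l 16787616) (l 16787224))))) (b (a (b (c (l 16772312) (l 16763120)) (l 16764792)) (a (b (l 16788128) (l 16765544)) (b (l 16787776) (l 16767768)))) (a (b (a (l 16781640) (l 16782120)) (c (l 16753296) (l 16781056))) (b (c (l 16787368) (l 16782944)) (a (l 16780304) (l 16762376)))))) (b (a (b (a (b (l 16784784) (l 16785680)) (b (a (l 16782800) (l 16781632)) (l 16778784))) (a (b (l 16786000) (l 16786672)) (b (l 16785200) (l 16786688)))) (b (a (b (a (l 16780328) (b (b (l 105461596375) (l 16778376)) (l 16779648))) (c (l 16783552) (l 16781104))) (b (a (b (a (l 103314072039) (l 4)) (a (l 16778488) (l 82913015991))) (b (l 4) (a (l 139284460855) (l 4)))) (a (c (l 16781352) (l 16779840)) (b (a (l 16778600) (l 83449888039)) (l 16779928))))) (a (b (c (l 16786232) (l 16782496)) (c (l 16789304)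 (l 16784080))) (b (c (a (l 16784832) (l 16783560)) (l 16776312)) (c (l 16777904) (l 16784040)))))) (b (a (a (b (l 16788136) (l 16769768)) (b (l 16767976) (l 16771112))) (a (b (l 16776800) (l 16772560)) (b (a (l 16790152) (l 16768960)) (a (l 16794224) (l 16773248))))) (a (b (a (b (l 16790536) (l 16789512)) (a (l 16750960) (l 16753008))) (c (a (l 16789272) (l 16794728)) (l 16754840))) (a (b (b (l 16796008) (l 16755384)) (c (l 16799752) (l 16768768))) (b (c (l 16802720) (l 16792224)) (b (c (l 16804952) (l 16793184)) (c (l 16803088) (l 16770792))))))))), by decide +kernel⟩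

def k5_pm_123_t : ∃ t, chk3 f_pm_123_t t 14 14 1 = true :=
  ⟨(a (b (a (b (c (l 16746840) (l 16779768)) (c (l 16742296) (l 16759192))) (b (a (l 16776856) (l 16738192)) (c (a (l 16769808) (l 16774472)) (a (l 16781080) (l 16782160))))) (c (a (b (a (l 16760064) (l 16764352)) (a (l 16761728) (l 16765728))) (b (a (l 16768680) (l 16773072)) (l 16750680))) (a (b (a (l 16783928) (l 16784104)) (b (l 16767536) (l 16792120))) (b (c (l 16759872) (l 16767552)) (a (l 16790264) (l 16790048)))))) (b (a (b (a (c (l 16783608) (l 16783720)) (l 16766264)) (c (l 16760424) (a (l 16783488) (l 16784680)))) (a (b (c (l 16793440) (l 16787680)) (a (l 16765024) (l 16766328))) (b (b (l 16763864) (l 16771528)) (c (l 16770200) (l 16766016))))) (a (b (c (a (l 16776976) (l 16780600)) (a (l 16785648) (l 16786112))) (a (c (l 16776592) (l 16789792)) (c (l 16758488) (l 16768440)))) (b (a (c (l 16783856) (l 16765488)) (c (l 16766336) (l 16766312))) (a (c (l 16761560) (l 16768536)) (c (l 16764912) (l 16769192))))))), by decide +kernel⟩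

def k6_pm_123_t : ∃ t, chk3 f_pm_123_t t 28 15 1 = true :=
  ⟨(a (b (b (a (c (b (l 16763848) (l 16765544)) (l 16775248)) (c (l 16768384) (l 16796528))) (c (c (l 16763976) (l 16775472)) (l 16773840))) (b (b (a (l 16759008) (l 16761448)) (c (a (l 16770712) (l 16774024)) (l 16768888))) (c (a (b (l 16771712) (c (l 16769824) (l 16775416))) (b (l 16775104) (c (l 16773856) (l 16778864)))) (a (b (l 16787360) (l 16785184)) (b (l 16789176) (l 16787640)))))) (b (b (a (c (l 16792576) (l 16796304)) (b (l 16783704) (a (l 16785040) (l 16785536)))) (c (a (l 16774192) (l 16776624)) (b (l 16775328) (l 16774320)))) (b (c (a (b (l 16775952) (l 16777200)) (b (l 16778888) (l 16780432))) (a (l 16772088) (l 16773736))) (c (a (b (l 16778512) (c (l 16777944) (l 16782448))) (b (l 16782304) (l 16784312))) (a (b (l 16791184) (l 16790360)) (b (l 16793752) (l 16793616))))))), by decide +kernel⟩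

def k7_pm_123_t : ∃ t, chk3 f_pm_123_t t 29 15 1 = true :=
  ⟨(b (a (c (b (a (b (l 16776680) (l 16777048)) (l 16758584)) (a (b (l 16778152) (l 16779896)) (b (l 16780608) (l 16782872)))) (b (a (b (l 16793328) (l 16796000)) (l 16773088)) (a (l 16775640) (l 16776112)))) (b (c (a (l 16761568) (b (l 16785976) (l 16786360))) (a (l 16773040) (b (l 16793576) (l 16796192)))) (a (c (b (l 16783616) (l 16786000)) (b (l 16797720) (l 16799080))) (c (b (l 16786960) (l 16789088)) (b (l 16777904) (l 16800696)))))) (a (b (b (a (l 16778224) (l 16784512)) (c (a (l 16784032) (l 16787728)) (l 16784512))) (a (c (b (l 16786264) (l 16788552)) (b (l 16796656) (l 16797048))) (b (c (l 16790200) (l 16799656)) (c (l 16813728) (l 16800576))))) (c (b (a (b (l 16788680) (l 16791592)) (b (l 16792032) (l 16794496))) (a (b (l 16793936) (l 16795880)) (b (l 16796480) (l 16797552)))) (b (a (b (l 16800240) (l 16801680)) (l 16792608)) (a (b (l 16802568) (l 16803064)) (b (l 16804304) (l 16804104))))))), by decide +kernel⟩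

def k8_pm_123_t : ∃ t, chk3 f_pm_123_t t 15 2 1 = true :=
  ⟨(l 4), by decide +kernel⟩

def k9_pm_123_t : ∃ t, chk3 f_pm_123_t t 30 12 1 = true :=
  ⟨(a (b (a (b (l 4) (a (b (a (b (l 4) (l 16781992)) (l 205856433159)) (a (l 16778664) (b (l 16782016) (l 16778184)))) (b (l 4) (a (b (l 122104555015) (l 118346494375)) (l 214446367415))))) (l 4)) (a (b (a (c (l 16771304) (l 16780152)) (b (a (l 16778640) (b (l 123715203895) (l 16778152))) (l 16773472))) (a (c (l 16786432) (l 16783048)) (c (l 16784264) (l 16781744)))) (b (a (b (a (b (l 4) (l 127473299975)) (l 4)) (a (l 16778616) (c (l 97945400887) (l 60364407783)))) (b (l 4) (a (b (l 4) (c (l 97945371959) (l 100629726823))) (l 4)))) (a (c (l 16771360) (l 16780224)) (b (a (l 16773296) (b (b (l 125862657463) (l 130157651959)) (l 16778016))) (c (l 16780480) (l 16779352))))))) (a (b (l 4) (b (l 4) (a (b (a (b (l 4) (c (l 115662109511) (l 138747564023))) (l 4)) (a (b (l 82376139639) (l 16778816)) (b (c (l 159685530951) (l 126399526711)) (c (l 16777848) (l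 16777848))))) (b (l 4) (a (b (l 4) (c (a (l 16770392) (l 4)) (l 136600072487))) (l 4)))))) (l 4))), by decide +kernel⟩

def k10_pm_123_t : ∃ t, chk3 f_pm_123_t t 30 26 1 = true :=
  ⟨(a (c (a (b (a (l 16791536) (l 16789216)) (l 16774544)) (b (a (l 16786704) (l 16773624)) (a (l 16791704) (l 16789008)))) (a (b (l 16775032) (l 16788704)) (b (a (l 16783320) (l 16781712)) (a (l 16786472) (l 16784840))))) (a (b (a (c (c (l 16771304) (l 16781104)) (l 16773464)) (b (b (a (c (l 104924718263) (l 16777592)) (c (a (l 126936401191) (l 4)) (l 228405014263))) (a (l 16778544) (c (l 119957105975) (a (l 16777696) (l 16771456))))) (c (a (l 16780560) (l 16779184)) (l 16778976)))) (a (c (l 16775752) (l 16783128)) (c (c (l 16773416) (l 16782912)) (b (l 16780552) (l 16782000))))) (b (a (b (a (c (l 272965298007) (l 268133457975)) (l 4)) (a (a (c (l 16778208) (l 16778008)) (b (b (l 4) (l 143579421047)) (l 16777896))) (b (l 4) (c (a (l 130157649831) (l 160759268071)) (a (l 16772360) (l 135526334999)))))) (l 4)) (a (b (b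 (a (l 16779136) (c (l 89355460071) (l 16777904))) (c (l 16774688) (l 16779040))) (c (c (l 16781904) (l 16781208)) (l 16780096))) (b (a (b (c (a (c (l 108145923207) (l 16771304)) (l 305714425751)) (a (l 126399534119) (l 296050749031))) (a (l 16778000) (b (a (l 16777192) (l 136600084167)) (l 16777656)))) (a (b (l 4) (b (l 4) (c (l 129620760999) (l 126399535431)))) (l 4))) (a (c (l 16774168) (l 16778688)) (b (c (a (l 16777848) (b (l 168812336039) (l 16777144))) (a (l 16777704) (b (l 141431919543) (l 16777176)))) (c (l 16778488) (l 16778064))))))))), by decide +kernel⟩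

def k11_pm_123_t : ∃ t, chk3 f_pm_123_t t 30 27 1 = true :=
  ⟨(a (a (b (a (l 16775600) (l 16773576)) (a (c (l 16804440) (l 16772168)) (l 16775584))) (b (c (a (l 16795896) (l 16793096)) (l 16787880)) (c (a (l 16798816) (l 16795872)) (b (l 16788456) (l 16767784))))) (a (b (a (c (l 16779624) (l 16785216)) (c (b (l 16786368) (l 16787992)) (l 16783488))) (a (c (l 16792984) (l 16786240)) (c (l 16790136) (l 16784608)))) (c (b (a (c (l 16774536) (l 16783752)) (c (a (l 16782728) (l 16774728)) (b (l 16780352) (l 16781976)))) (a (b (l 16786688) (l 16788200)) (c (b (l 16784784) (l 16786576)) (l 16773752)))) (b (a (b (l 16781208) (l 16782048)) (b (a (l 16779864) (l 16779016)) (l 16780472))) (a (l 16771368) (b (l 16781384) (l 16782208))))))), by decide +kernel⟩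

def k12_pm_123_t : ∃ t, chk3 f_pm_123_t t 30 14 1 = true :=
  ⟨(c (a (b (b (a (b (l 16801464) (l 16798216)) (b (a (l 16800328) (l 16797576)) (a (l 16798136) (l 16797568)))) (a (l 16772504) (b (l 16795352) (l 16793296)))) (b (a (l 16768904) (b (l 16792032) (l 16791448))) (a (l 16778616) (b (l 16791416) (l 16791832))))) (b (a (b (a (b (l 16794784) (l 16796280)) (l 16792888)) (b (a (l 16795520) (l 16784720)) (l 16794552))) (b (a (b (l 16789704) (l 16791256)) (b (l 16787328) (l 16788936))) (a (b (l 16793416) (b (l 16794984) (l 16794960))) (b (l 16791048) (a (l 16794536) (l 16793360)))))) (a (b (a (l 16772136) (l 16773024)) (a (l 16772880) (l 16773808))) (b (a (l 16794816) (b (l 16784544) (l 16795632))) (a (l 16774672) (l 16795992)))))) (a (b (b (a (b (a (l 16791360) (l 16790536)) (l 16789144)) (b (a (l 16768880) (l 16788144)) (a (l 16788288) (l 16766832)))) (a (c (l 16788952) (l 16764800)) (a (l 16766040) (l 16766048)))) (b (a (b (l 16787312) (l 16788336)) (a (l 16788040) (l 16767384))) (a (b (l 16789992)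 (l 16792192)) (a (l 16791792) (l 16771320))))) (b (a (b (a (b (l 16786632) (l 16766344)) (l 16771152)) (b (a (l 16765848) (a (l 16766048) (l 16766016))) (l 16766384))) (b (a (a (l 16763752) (l 16763208)) (b (l 16783000) (l 16773344))) (a (b (l 16765240) (a (l 16766512) (l 16771960))) (b (l 16764208) (a (l 16777264) (l 16787144)))))) (a (b (b (l 16767248) (l 16768768)) (b (l 16770808) (l 16773336))) (b (a (c (l 16770048) (l 16767336)) (b (a (l 16789184) (l 16778632)) (l 16791008))) (b (l 16792712) (l 16794488))))))), by decide +kernel⟩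

def k13_pm_123_t : ∃ t, chk3 f_pm_123_t t 30 15 1 = true :=
  ⟨(a (b (b (a (c (b (l 16789464) (l 16789936)) (c (l 16794320) (l 16776824))) (c (c (l 16771056) (l 16772984)) (b (l 16775048) (l 16798448)))) (b (a (c (l 16769616) (l 16779208)) (c (l 16793368) (l 16800600))) (a (c (l 16791952) (l 16802016)) (c (l 16772784) (l 16802224))))) (b (c (a (b (l 16794240) (l 16796152)) (b (l 16795032) (l 16795920))) (a (b (l 16803384) (l 16804232)) (b (l 16802976) (l 16802952)))) (c (a (b (l 16797104) (l 16797344)) (b (l 16796160) (l 16795800))) (a (b (l 16804088) (l 16803224)) (c (l 16779232) (l 16782368)))))) (b (a (b (a (b (l 16795488) (l 16796792)) (b (l 16775168) (l 16796952))) (b (a (l 16797360) (l 16797096)) (c (l 16773640) (l 16779696)))) (b (c (l 16795864) (l 16802104)) (a (b (l 16775472) (c (l 16793192) (l 16798424))) (c (l 16772376) (l 16796840))))) (a (c (b (a (l 16773712) (l 16772696)) (b (l 16773024) (a (l 16793920) (l 16792520)))) (b (b (l 16779664) (l 16779216)) (b (l 16778224) (l 16787192))))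 (b (c (b (a (l 16792288) (l 16790944)) (a (l 16792264) (l 16790656))) (b (c (l 16774488) (l 16777328)) (a (l 16797368) (l 16795184)))) (c (b (a (l 16791776) (l 16790176)) (a (l 16791024) (l 16789488))) (b (a (l 16796272) (l 16794192)) (a (l 16794904) (l 16792984)))))))), by decide +kernel⟩

def k14_pm_123_t : ∃ t, chk3 f_pm_123_t t 62 12 1 = true :=
  ⟨(l 4), by decide +kernel⟩

def k15_pm_123_t : ∃ t, chk3 f_pm_123_t t 124 13 1 = true :=
  ⟨(b (a (b (l 4) (b (l 4) (a (b (c (a (l 313230618583) (l 4)) (l 306251294519)) (a (c (b (l 163443643911) (l 16777720)) (b (l 109219667879) (l 16777560))) (b (l 4) (c (c (l 137673824791) (l 16771272)) (l 132841985975))))) (l 4)))) (l 4)) (a (b (b (a (a (b (l 16778264) (l 16779072)) (b (c (l 84523619559) (l 16777688)) (l 16778504))) (a (b (c (b (c (l 157001175799) (l 153779950231)) (l 146263775335)) (b (l 149484982327) (l 96334767127))) (c (l 16778064) (l 16777784))) (b (l 4) (c (b (c (l 125325794631) (l 16774112)) (l 16777680)) (b (c (l 122104569191) (l 119957085847))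 (l 16777544)))))) (c (a (l 16775272) (c (l 16779336) (l 16779008))) (a (l 16779328) (l 16778496)))) (c (c (a (l 16773216) (l 16776408)) (b (l 16781224) (l 16782744))) (b (a (l 16780360) (l 16779616)) (a (l 16781288) (l 16780616))))) (b (b (a (a (a (b (l 4) (b (l 4) (b (l 179012887159) (l 115662127527)))) (l 4)) (l 4)) (l 4)) (a (a (a (c (l 16778320) (l 16777952)) (b (c (b (l 16776952) (l 16777712)) (l 43184547527)) (l 16778232))) (b (b (c (l 323431167079) (l 318599328647)) (c (c (l 121030827703) (l 16772872)) (c (l 117809602231) (l 116198989495)))) (c (l 16777936) (l 16777704)))) (b (l 4) (a (a (b (c (l 132841989463) (l 131768247271)) (l 16777552)) (b (l 4) (c (l 16774408) (l 16777032)))) (b (l 4) (c (l 325578650759) (l 321283683239))))))) (c (b (a (c (l 16779856) (l 16779448)) (a (l 16776000) (b (a (l 16777664) (b (l 158611791879) (l 16777536))) (l 16778368)))) (a (l 16776176) (c (l 16780312) (l 16779840)))) (b (a (l 16773560) (a (l 16778152) (b (a (l 16777584) (b (l 153779953239) (l 16777448)))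 (l 16777984)))) (a (l 16779888) (l 16773848))))))), by decide +kernel⟩

def k16_pm_123_t : ∃ t, chk3 f_pm_123_t t 125 13 1 = true :=
  ⟨(b (l 4) (b (l 4) (b (a (a (a (a (b (b (l 4) (c (l 137673827639) (l 137136956023))) (c (l 16777840) (l 16777632))) (b (l 4) (b (c (l 118883346599) (l 116198991959)) (l 16777624)))) (b (l 4) (b (c (l 344369132407) (l 340074164855)) (a (c (l 16777216) (l 16777248)) (c (l 170959821927) (l 165054241783)))))) (l 4)) (l 4)) (b (a (a (a (a (l 16778504) (l 16775592)) (a (l 16775944) (c (l 16777728) (l 16777584)))) (a (a (c (b (c (l 157538050439) (l 16774032)) (l 16777560)) (b (l 152169341063) (l 16777456))) (b (l 4) (c (c (l 16773584) (l 16776856)) (l 134989475431)))) (l 4))) (l 4)) (a (a (c (l 16776496) (l 16778480)) (a (c (l 16778040) (l 16777776)) (a (b (c (l 123715195079) (l 120493964375)) (l 16777632)) (b (c (l 187602818919) (l 338463553207)) (c (l 28152163303) (l 30836517831)))))) (a (a (a (a (c (l 325041780199) (l 322894296343)) (l 4)) (l 4)) (l 4)) (l 4))))))),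 by decide +kernel⟩

def k17_pm_123_t : ∃ t, chk3 f_pm_123_t t 63 6 1 = true :=
  ⟨(l 4), by decide +kernel⟩

def k18_pm_123_t : ∃ t, chk3 f_pm_123_t t 124 7 1 = true :=
  ⟨(a (b (b (b (c (b (a (l 16785576) (l 16784368)) (c (l 16787512) (l 16785696))) (b (c (l 16782664) (l 16770552)) (l 16772304))) (c (b (l 16778264) (l 16781136)) (b (l 16773736) (l 16775952)))) (b (b (a (b (l 16776248) (l 16777096)) (c (l 16793832) (l 16789312))) (a (l 16772704) (c (l 16795520) (l 16791040)))) (b (l 16780040) (l 16795008)))) (b (b (c (l 16795136) (l 16795144)) (c (b (l 16793232) (l 16791368)) (l 16794976))) (b (b (c (l 16768504) (l 16777872)) (c (l 16788952) (l 16792904))) (b (c (l 16788528) (l 16792064)) (c (l 16788000) (l 16791112)))))) (b (b (b (c (b (a (l 16783120) (l 16776584)) (a (l 16784816) (l 16778304))) (b (a (l 16780904) (l 16780176)) (a (l 16781912) (l 16781240)))) (c (b (a (l 16786968) (l 16785720)) (a (l 16789888) (l 16788600))) (b (a (l 16772920) (l 16782784)) (a (l 16785720) (l 16785088))))) (b (b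 (c (l 16780032) (l 16777600)) (a (b (c (l 16791712) (l 16790648)) (l 16772760)) (b (l 16780704) (c (l 16789840) (l 16790920))))) (c (b (l 16793184) (l 16795320)) (b (l 16792032) (l 16792904))))) (b (b (c (l 16794160) (l 16793584)) (b (l 16792608) (a (l 16770672) (l 16775032)))) (b (b (c (b (l 16788400) (l 16787472)) (b (l 16791528) (l 16769984))) (c (l 16787184) (l 16769576))) (c (b (l 16786920) (c (l 16785952) (l 16787144))) (b (l 16789968) (l 16778768))))))), by decide +kernel⟩

def k19_pm_123_t : ∃ t, chk3 f_pm_123_t t 250 7 1 = true :=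
  ⟨(b (b (b (b (a (c (c (l 16780720) (l 16780200)) (l 16776736)) (c (c (l 16775232) (l 16778888)) (a (l 16778696) (l 16775592)))) (c (a (c (l 16782616) (l 16781800)) (c (l 16781088) (l 16780536))) (a (l 16780488) (c (l 16779944) (l 16779328))))) (c (a (b (l 16779200) (l 16786784)) (b (c (l 16783320) (l 16782608)) (l 16779416))) (a (b (l 16782120) (l 16784336)) (b (l 16776048) (l 16783440))))) (b (c (b (c (l 16780512) (l 16776408)) (a (l 16787448) (l 16785784))) (b (b (l 16775192) (l 16776416)) (a (l 16789544) (l 16788112)))) (b (a (b (c (l 16777744) (l 16790848)) (l 16790792)) (b (c (l 16785912) (l 16788840)) (c (l 16776328) (l 16789728)))) (c (l 16790112) (l 16791480))))) (b (c (b (b (l 16793120) (l 16792192)) (b (l 16790600) (l 16767672))) (b (b (l 16791760) (l 16791656)) (b (l 16791096) (l 16779656)))) (b (b (c (c (l 16775576) (l 16776696)) (c (l 16777952) (l 16779344))) (c (b (l 16785448) (l 16785424)) (a (l 16788808) (l 16777112)))) (c (b (c (l 16784776) (l 16785904)) (c (l 16784576) (l 16785600)))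 (b (b (l 16787968) (l 16787760)) (b (l 16787520) (l 16787248))))))), by decide +kernel⟩

def k20_pm_123_t : ∃ t, chk3 f_pm_123_t t 251 28 1 = true :=
  ⟨(b (b (b (a (a (b (a (c (l 16777352) (l 16777392)) (b (l 4) (a (l 127473288887) (l 190287178167)))) (c (l 16777712) (l 16777576))) (a (b (l 4) (c (c (l 200487725255) (l 16773400)) (b (l 185992208983) (l 16774344)))) (l 4))) (l 4)) (a (c (a (l 16778352) (b (c (a (l 16777584) (l 151095600135)) (l 118346484167)) (l 16777800))) (a (l 16778000) (a (l 16777624) (b (c (l 146800632791) (l 144116280823)) (l 16777488))))) (a (a (b (l 4) (c (c (l 16774256) (l 16776872)) (c (l 16773592) (l 133378865847)))) (c (l 393761255431) (l 395371867831))) (l 4)))) (a (c (c (a (l 16779896) (l 16779088)) (l 16773968)) (a (l 16778944) (l 16775832))) (c (a (a (l 16775752) (b (c (l 73249331223) (l 16777376)) (l 16778424))) (b (b (c (l 388392546791) (l 387318804823)) (c (a (l 16777096) (l 194582140727)) (a (l 16777104) (l 191897786247)))) (c (l 71101847063) (l 16777800))))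 (b (b (a (a (l 16777528) (b (l 153779955719) (l 16777368))) (l 381413224551)) (a (l 16777704) (a (b (l 138747570791) (l 16777408)) (l 350274713335)))) (a (l 16778232) (a (l 16777784) (a (l 16777584) (b (l 16774400) (l 16777576))))))))) (c (a (b (c (l 16781360) (l 16781192)) (c (l 16782440) (l 16783048))) (b (c (a (l 16779944) (l 16779080)) (l 16774384)) (c (l 16780784) (l 16781200)))) (a (b (a (l 16780576) (l 16780016)) (l 16777056)) (b (a (l 16779464) (l 16776184)) (c (l 16781240) (l 16775392)))))), by decide +kernel⟩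

def k21_pm_123_t : ∃ t, chk3 f_pm_123_t t 251 29 1 = true :=
  ⟨(b (a (c (b (l 16778336) (l 16784160)) (b (l 16784440) (l 16786296))) (c (b (c (l 16781688) (l 16782272)) (c (l 16782304) (l 16783056))) (b (l 16777688) (l 16779088)))) (a (b (c (a (b (l 16784840) (l 16774472)) (l 16784192)) (b (l 16786904) (l 16787136))) (b (c (a (l 16786048) (l 16774376)) (l 16782880)) (l 16787824))) (b (c (l 16775304) (l 16785192)) (a (b (c (l 16773280) (l 16786144)) (l 16775456)) (b (l 16778936) (b (a (l 16774224) (l 16773672)) (l 16774520))))))), by decide +kernel⟩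

def k22_pm_123_t : ∃ t, chk3 f_pm_123_t t 251 15 1 = true :=
  ⟨(b (c (b (b (a (l 16789024) (l 16786416)) (l 16790488)) (b (l 16788896) (l 16787104))) (b (b (l 16778904) (l 16789488)) (b (l 16788800) (l 16787880)))) (b (b (c (a (l 16785496) (l 16784840)) (b (l 16776560) (l 16776000))) (c (b (a (l 16784224) (l 16783520)) (l 16783736)) (b (b (l 16775640) (l 16775400)) (l 16785888)))) (c (b (b (l 16783744) (l 16783720)) (c (b (l 16783240) (l 16783168)) (l 16774888))) (b (c (l 16785248) (l 16775912)) (c (l 16785032) (l 16775632)))))), by decide +kernel⟩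

def k23_pm_123_t : ∃ t, chk3 f_pm_123_t t 126 28 1 = true :=
  ⟨(a (b (b (l 4) (b (l 4) (a (a (a (b (c (c (l 190287173799) (l 187602819159)) (l 328263006167)) (c (l 77007426103) (b (l 16777088) (l 16777432)))) (a (b (l 4) (c (l 175254790999) (l 171496694695))) (l 4))) (l 4)) (l 4)))) (a (b (b (a (c (c (l 16777784) (l 16777840)) (c (l 23857196183) (a (l 16777824) (l 24394067463)))) (b (a (a (c (l 168812340503) (l 166127985863)) (l 4)) (l 4)) (a (c (l 16777328) (l 16777368)) (a (c (l 164517373287) (l 162369889575)) (l 4))))) (c (a (l 16778712) (c (l 16777784) (l 16777840))) (a (l 16778496) (a (l 16777960) (b (l 16777384) (l 16777784)))))) (c (c (a (l 16779624) (l 16778872)) (l 16775552)) (a (l 16774560) (l 16775736)))) (a (b (b (l 4) (b (a (a (c (l 161833018775) (l 159685535223)) (l 423289157495)) (l 4)) (a (c (l 16777344) (l 16777392)) (a (c (l 160759276951) (l 159148666935)) (l 427584124775))))) (b (a (a (l 16775592) (l 16776680)) (b (c (l 16777336) (l 44258293351)) (l 16777864))) (c (l 16778528)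 (l 16778624)))) (b (l 4) (b (a (a (b (c (l 161833018743) (b (l 16773816) (l 16777032))) (l 16777536)) (b (l 4) (c (l 16777176) (l 16777192)))) (a (b (l 4) (c (l 165054244135) (b (l 4) (l 16777016)))) (l 4))) (c (c (l 85060491607) (l 16777728)) (a (l 16778008) (c (l 16777536) (b (l 22783455095) (l 16777752)))))))))) (b (l 4) (a (a (b (l 4) (b (l 4) (a (a (b (b (l 4) (a (l 16777128) (l 180623503335))) (l 16777472)) (b (l 4) (c (l 16777072) (l 114588385991)))) (a (b (l 4) (c (l 177939145255) (b (l 4) (l 16774928)))) (l 4))))) (l 4)) (l 4)))), by decide +kernel⟩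

def k24_pm_123_t : ∃ t, chk3 f_pm_123_t t 126 29 1 = true :=
  ⟨(a (a (a (b (c (b (l 16780848) (l 16781632)) (b (l 16781696) (l 16782952))) (a (b (c (l 16782360) (l 16784088)) (c (b (l 16782688) (l 16772408)) (l 16782056))) (l 14))) (b (c (b (l 16780120) (l 16780968)) (b (l 16780832) (l 16782072))) (l 14))) (b (b (c (a (l 16776784) (c (l 16778616) (l 16778776))) (a (l 16774712) (c (l 16778960) (l 16776320)))) (c (a (l 16780320) (l 16777056)) (a (l 16781208) (l 16775112)))) (l 14))) (b (a (a (a (b (c (l 16775536) (l 16775760)) (c (l 16779192) (l 16779728))) (b (a (b (c (l 16777568) (l 16777656)) (l 16776992)) (b (b (b (c (l 16776872) (l 166127987991)) (l 78081165463)) (l 16777600)) (l 16776792))) (l 14))) (b (a (c (b (b (a (l 187065950199) (l 4)) (c (l 172033577431) (l 172570448343))) (l 16777752)) (b (b (c (l 379802613399) (l 380876355111)) (a (l 16777376) (a (l 16775752) (l 160222407239)))) (l 16777880))) (b (b (l 4) (c (l 429194737111) (l 428657865975))) (b (c (c (l 189750317607) (l 120493968967))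 (a (l 16777280) (a (l 137136958791) (l 179012888423)))) (l 14)))) (l 14))) (b (b (l 4) (b (b (l 4) (l 14)) (l 14))) (l 14))) (l 14))), by decide +kernel⟩

def k25_pm_123_t : ∃ t, chk3 f_pm_123_t t 127 14 1 = true :=
  ⟨(b (l 4) (b (b (l 4) (l 14)) (l 14))), by decide +kernel⟩

def k26_pm_123_t : ∃ t, chk3 f_pm_123_t t 63 15 1 = true :=
  ⟨(a (a (a (a (b (b (b (c (l 16774120) (l 16786384)) (l 16782928)) (b (l 16787552) (l 16786264))) (a (b (b (c (l 16784432) (l 16785616)) (b (l 16773432) (l 16783672))) (b (c (l 16782864) (l 16784648)) (c (l 16782816) (l 16784520)))) (l 14))) (l 14)) (l 14)) (l 14)) (l 14)), by decide +kernel⟩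

theorem s27_pm_123_t : ∃ t, chk3 f_pm_123_t t 126 14 1 = true := ex3_b k23_pm_123_t k24_pm_123_t

theorem s28_pm_123_t : ∃ t, chk3 f_pm_123_t t 63 14 1 = true := ex3_a s27_pm_123_t k25_pm_123_t

theorem s29_pm_123_t : ∃ t, chk3 f_pm_123_t t 63 7 1 = true := ex3_b s28_pm_123_t k26_pm_123_t

theorem s30_pm_123_t : ∃ t, chk3 f_pm_123_t t 251 14 1 = true := ex3_b k20_pm_123_t k21_pm_123_t

theorem s31_pm_123_t : ∃ t, chk3 f_pm_123_t t 251 7 1 = true := ex3_b s30_pm_123_t k22_pm_123_t

theorem s32_pm_123_t : ∃ t, chk3 f_pm_123_t t 125 7 1 = true := ex3_a k19_pm_123_t s31_pm_123_t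

theorem s33_pm_123_t : ∃ t, chk3 f_pm_123_t t 62 7 1 = true := ex3_a k18_pm_123_t s32_pm_123_t

theorem s34_pm_123_t : ∃ t, chk3 f_pm_123_t t 31 7 1 = true := ex3_a s33_pm_123_t s29_pm_123_t

theorem s35_pm_123_t : ∃ t, chk3 f_pm_123_t t 62 13 1 = true := ex3_a k15_pm_123_t k16_pm_123_t

theorem s36_pm_123_t : ∃ t, chk3 f_pm_123_t t 62 6 1 = true := ex3_b k14_pm_123_t s35_pm_123_t

theorem s37_pm_123_t : ∃ t, chk3 f_pm_123_t t 31 6 1 = true := ex3_a s36_pm_123_t k17_pm_123_t

theorem s38_pm_123_t : ∃ t, chk3 f_pm_123_t t 31 3 1 = true := ex3_b s37_pm_123_t s34_pm_123_t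

theorem s39_pm_123_t : ∃ t, chk3 f_pm_123_t t 30 7 1 = true := ex3_b k12_pm_123_t k13_pm_123_t

theorem s40_pm_123_t : ∃ t, chk3 f_pm_123_t t 30 13 1 = true := ex3_b k10_pm_123_t k11_pm_123_t

theorem s41_pm_123_t : ∃ t, chk3 f_pm_123_t t 30 6 1 = true := ex3_b k9_pm_123_t s40_pm_123_t

theorem s42_pm_123_t : ∃ t, chk3 f_pm_123_t t 30 3 1 = true := ex3_b s41_pm_123_t s39_pm_123_t

theorem s43_pm_123_t : ∃ t, chk3 f_pm_123_t t 15 3 1 = true := ex3_a s42_pm_123_t s38_pm_123_t

theorem s44_pm_123_t : ∃ t, chk3 f_pm_123_t t 15 1 1 = true := ex3_b k8_pm_123_t s43_pm_123_t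

theorem s45_pm_123_t : ∃ t, chk3 f_pm_123_t t 14 15 1 = true := ex3_a k6_pm_123_t k7_pm_123_t

theorem s46_pm_123_t : ∃ t, chk3 f_pm_123_t t 14 7 1 = true := ex3_b k5_pm_123_t s45_pm_123_t

theorem s47_pm_123_t : ∃ t, chk3 f_pm_123_t t 14 3 1 = true := ex3_b k4_pm_123_t s46_pm_123_t

theorem s48_pm_123_t : ∃ t, chk3 f_pm_123_t t 14 1 1 = true := ex3_b k3_pm_123_t s47_pm_123_t

theorem s49_pm_123_t : ∃ t, chk3 f_pm_123_t t 7 1 1 = true := ex3_a s48_pm_123_t s44_pm_123_t

theorem s50_pm_123_t : ∃ t, chk3 f_pm_123_t t 6 1 1 = true := ex3_b k1_pm_123_t k2_pm_123_t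

theorem s51_pm_123_t : ∃ t, chk3 f_pm_123_t t 3 1 1 = true := ex3_a s50_pm_123_t s49_pm_123_t

theorem s52_pm_123_t : ∃ t, chk3 f_pm_123_t t 1 1 1 = true := ex3_a k0_pm_123_t s51_pm_123_t

theorem c_pm_123_t : CertNE 536870912 536870912 0 536870912 740881858 40050571 3 eng mog cd0q1 cd0q2 pd3 true true false .npn 1 2 3
    ndB0q1 ndB0q2 pcB3 cut_pm_123_t Ext.none :=
  certNE2 (fam := true) (s1 := true) (s2 := false) (a := 1) (b := 2) (c := 3) (cn := .npn) (n1 := ndB0q1) (n2 := ndB0q2) (pc := pcB3) (cut := cut_pm_123_t) (xt := Ext.none) (P1 := 536870912) (W1 := 536870912) (P2 := 0) (W2 := 536870912) (P3 := 740881858) (W3 := 40050571) (N0 := 3) (En := eng) (mo := mog) (C1 := cd0q1) (C2 := cd0q2) (C3 := pd3)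
    rfl (fun _ => rfl) s52_pm_123_t

end Pool.Agent.Strip051.G.I69_7273.Tab.CS.BA00

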