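import Pool.Agent.Strip051.G.I69_7273.Tab
import Pool.Agent.Strip051.PB.StripB

/-! # Strips, near vertex: certificates 3 (generated) -/

set_option linter.all false
set_option maxRecDepth 100000

namespace Pool.Agent.Strip051.G.I69_7273.Tab.CS.BA00

open Pool.Agent.Strip051.PB Pool.Agent.Strip051.PB.T
open Pool.Agent.Strip051.G.I69_7273.Tab

noncomputable def cut_pm_202_s : Cut := Cut.of [[⟨4, 0, 0, 1449551462⟩], [⟨0, 1, 0, 67108864⟩, ⟨1, 0, 0, 67108864⟩, ⟨2, 1, 0, 67108864⟩]]

noncomputable def f_pm_202_s : ℕ → ℕ → ℕ → ℕ → Bool := onCell 0 536870912 1073741824 536870912 740881858 40050571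
    (rowNE 3 eng mog cd0q2 cd0q0 pd2 1 true true false .pp 2 0 2 (qsf 0 536870912 0 536870912 2) ndB0q2 ndB0q0 pcB2 cut_pm_202_s Ext.none)

def k0_pm_202_s : ∃ t, chk3 f_pm_202_s t 1 8 1 = true :=
  ⟨(a (l 1) (a (l 1) (a (b (l 1) (a (b (l 1) (b (l 1) (a (l 1) (b (l 16613288) (a (l 16608360) (l 16619920)))))) (b (l 14) (b (l 14) (b (l 14) (a (a (l 16631016) (l 16641720)) (l 16678128))))))) (b (l 14) (b (l 14) (b (l 14) (b (l 14) (a (a (l 16677200) (l 16691152)) (b (l 14) (b (l 14) (b (l 14) (a (l 16685816) (a (l 16682520) (a (l 16680456) (c (l 16680656) (l 16677176)))))))))))))))), by decide +kernel⟩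

def k1_pm_202_s : ∃ t, chk3 f_pm_202_s t 2 9 1 = true :=
  ⟨(l 6), by decide +kernel⟩

def k2_pm_202_s : ∃ t, chk3 f_pm_202_s t 6 9 1 = true :=
  ⟨(b (a (l 1) (b (a (l 1) (b (l 1) (a (l 16547832) (l 43519752743)))) (a (b (a (l 1) (l 16531752)) (a (l 16539576) (l 16535808))) (a (b (l 16550928) (l 16553912)) (b (l 16571256) (l 16573096)))))) (a (l 6) (a (b (b (a (c (l 16530880) (l 16515416)) (l 16539648)) (a (l 6) (l 16564120))) (l 6)) (b (b (a (l 16556760) (l 16574872)) (a (c (l 16566128) (l 16551952)) (c (l 16582552) (l 16569792)))) (c (a (l 16560248) (l 16575848)) (a (l 16548360) (l 16565272))))))), by decide +kernel⟩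

def k3_pm_202_s : ∃ t, chk3 f_pm_202_s t 14 9 1 = true :=
  ⟨(b (a (a (b (b (b (l 16611960) (l 16591256)) (a (l 16585976) (l 16597200))) (b (l 16592288) (l 16592936))) (b (b (b (l 120829224439) (l 16614032)) (l 16634416)) (b (l 16612776) (l 16612216)))) (b (a (b (c (l 16658600) (l 16633336)) (l 16654400)) (b (b (l 16677216) (l 16654472)) (l 16651960))) (a (b (c (l 16634376) (l 16628440)) (l 16629808)) (b (l 16648864) (l 16646016))))) (a (b (b (a (l 16593584) (l 16611728)) (a (c (l 16599408) (l 16588280)) (l 16611200))) (a (c (l 16549856) (l 16582736)) (l 16572152))) (b (c (a (l 16631016) (l 16642200)) (a (l 16623472) (l 16638936))) (a (l 16618224) (l 16631528))))), by decide +kernel⟩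

def k4_pm_202_s : ∃ t, chk3 f_pm_202_s t 15 9 1 = true :=
  ⟨(b (a (b (b (a (a (l 16669672) (l 16679160)) (a (l 16684888) (l 16684056))) (a (l 16669824) (l 16687320))) (a (c (l 16662760) (l 16661704)) (b (l 16668688) (l 16660120)))) (a (b (b (b (c (l 16684288) (l 16683176)) (a (l 16680960) (l 16679264))) (b (l 16686960) (l 16693616))) (b (a (l 16646360) (l 16686832)) (a (l 16658872) (l 16678480)))) (b (b (a (b (c (l 16681656) (l 16679360)) (l 16698048)) (b (b (a (c (l 16680776) (l 16677784)) (b (a (l 16678544) (c (l 16679528) (l 16675960))) (c (l 16679048) (l 16675664)))) (a (l 16677648) (a (l 16676536) (c (l 16677440) (l 16674064))))) (c (a (l 16676432) (b (l 16676056) (l 16674288))) (a (l 16673824) (b (l 16672936) (l 16671312)))))) (a (b (l 16673504) (l 16669776)) (a (c (l 16691856) (l 16668712)) (c (b (l 16671568) (l 16667792)) (b (l 16668800) (l 16665304)))))) (b (a (c (l 16664424) (l 16663488)) (c (b (l 16664472) (l 16660376)) (b (l 16662480) (l 16658632))))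 (a (c (l 16655880) (l 16655464)) (c (b (l 16656112) (l 16651680)) (b (l 16654600) (l 16650384)))))))) (a (b (b (a (l 16651224) (l 16651168)) (a (l 16662968) (c (l 16598256) (l 16643968)))) (a (l 16659216) (b (l 16634976) (l 16629064)))) (b (a (b (c (l 16648720) (l 16650200)) (b (l 16642288) (l 16658520))) (b (a (c (l 16646720) (l 16646744)) (b (l 16667384) (l 16662600))) (b (a (l 16639408) (l 16636624)) (a (l 16634424) (b (l 16632728) (l 16630256)))))) (a (b (c (l 16631808) (l 16633056)) (a (l 16626528) (l 16624056))) (b (a (c (l 16628880) (l 16628616)) (b (c (l 16627936) (l 16626872)) (c (l 16624192) (l 16622560)))) (a (b (l 16622896) (l 16618832)) (b (c (l 16620288) (l 16618048)) (c (l 16616216) (l 16613320))))))))), by decide +kernel⟩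

def k5_pm_202_s : ∃ t, chk3 f_pm_202_s t 2 5 1 = true :=
  ⟨(l 6), by decide +kernel⟩

def k6_pm_202_s : ∃ t, chk3 f_pm_202_s t 6 10 1 = true :=
  ⟨(b (b (a (l 6) (a (l 6) (b (a (l 6) (l 16562912)) (l 6)))) (l 6)) (l 6)), by decide +kernel⟩

def k7_pm_202_s : ∃ t, chk3 f_pm_202_s t 7 20 1 = true :=
  ⟨(b (a (a (a (b (l 16578864) (l 16573304)) (l 16591176)) (a (l 16604992) (l 16617840))) (a (a (l 16621760) (b (l 16601560) (l 16594360))) (b (c (a (l 16618528) (a (l 16613840) (b (l 16611968) (l 16607536)))) (a (l 16617072) (a (l 16610912) (b (l 16608368) (l 16603176))))) (a (a (l 16611136) (l 16607464)) (a (b (l 16605456) (l 16600552)) (a (b (l 16601696) (l 16596520)) (b (c (l 16601616) (l 16596176)) (c (l 16596664) (l 16590352))))))))) (a (b (a (a (l 16567952) (l 16582544)) (l 16602472)) (a (a (l 6) (b (l 16578728) (a (l 6) (l 16590800)))) (b (l 16598824) (b (l 16597584) (l 16596976))))) (b (a (a (l 16611760) (b (l 16609432) (l 16605136))) (b (a (l 16602544)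 (a (l 16595368) (a (l 16591056) (c (l 16591456) (b (l 16585784) (l 16582608)))))) (a (l 16597568) (a (l 16589840) (c (b (l 16588912) (l 16586088)) (a (l 16581264) (b (l 16579328) (l 16575912)))))))) (a (b (a (l 16605840) (l 16600360)) (b (a (l 16602184) (l 16596136)) (a (l 16599520) (l 16614040)))) (b (a (l 16613032) (a (c (l 16587632) (l 16579520)) (c (b (l 16583160) (l 16580064)) (a (l 16574216) (b (l 16572344) (c (l 16571096) (l 16565928))))))) (a (b (a (l 16589744) (l 16584496)) (c (l 16608656) (b (l 16600904) (l 16578184)))) (a (b (c (l 16582840) (l 16573624)) (b (b (b (l 16575936) (l 16574976)) (l 16574160)) (l 16573296))) (b (c (b (l 16577552) (l 16575608)) (b (a (l 16569392) (l 16565472)) (b (l 16565752) (l 16564440)))) (b (b (b (l 16568888) (b (l 16568184) (a (l 16569440) (l 16565728)))) (l 16567040)) (l 16566160)))))))))), by decide +kernel⟩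

def k8_pm_202_s : ∃ t, chk3 f_pm_202_s t 7 21 1 = true :=
  ⟨(b (a (a (l 6) (l 16649120)) (a (a (l 16591416) (b (l 16587784) (l 16579752))) (a (b (a (l 16580480) (l 16574680)) (l 16598432)) (a (b (c (l 16573040) (l 16563032)) (l 16558968)) (b (c (a (l 16568056) (l 16564600)) (a (l 16557120) (l 16553040))) (c (l 16562280) (a (l 16547992) (l 16543832)))))))) (a (a (l 6) (l 16625136)) (a (a (l 16576504) (b (l 16571528) (l 16563200))) (b (a (l 16560096) (a (l 16550040) (c (l 16547952) (l 16536976)))) (a (l 16551552) (a (l 16541344) (c (l 16539112) (l 16528288)))))))), by decide +kernel⟩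

def k9_pm_202_s : ∃ t, chk3 f_pm_202_s t 3 11 1 = true :=
  ⟨(a (l 6) (a (l 6) (a (b (b (a (b (l 16564784) (l 6)) (b (l 16555112) (l 16547224))) (l 6)) (l 6)) (b (a (b (c (l 16563600) (l 16556608)) (c (l 16558288) (l 16541336))) (b (b (a (l 16532904) (c (l 16530560) (l 16519896))) (a (l 16524744) (c (l 16522304) (l 16511816)))) (b (a (l 16516896) (c (l 16524880) (l 16504120))) (b (a (l 16511240) (c (l 16508616) (l 16498512))) (a (l 16507544) (c (l 16504840) (l 16494856))))))) (a (l 6) (b (b (a (l 6) (c (l 16499200) (l 16489384))) (l 6)) (l 6))))))), by decide +kernel⟩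

def k10_pm_202_s : ∃ t, chk3 f_pm_202_s t 1 3 1 = true :=
  ⟨(a (l 6) (l 6)), by decide +kernel⟩

theorem s11_pm_202_s : ∃ t, chk3 f_pm_202_s t 7 10 1 = true := ex3_b k7_pm_202_s k8_pm_202_s

theorem s12_pm_202_s : ∃ t, chk3 f_pm_202_s t 3 10 1 = true := ex3_a k6_pm_202_s s11_pm_202_s

theorem s13_pm_202_s : ∃ t, chk3 f_pm_202_s t 3 5 1 = true := ex3_b s12_pm_202_s k9_pm_202_s

theorem s14_pm_202_s : ∃ t, chk3 f_pm_202_s t 1 5 1 = true := ex3_a k5_pm_202_s s13_pm_202_s

theorem s15_pm_202_s : ∃ t, chk3 f_pm_202_s t 7 9 1 = true := ex3_a k3_pm_202_s k4_pm_202_s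

theorem s16_pm_202_s : ∃ t, chk3 f_pm_202_s t 3 9 1 = true := ex3_a k2_pm_202_s s15_pm_202_s

theorem s17_pm_202_s : ∃ t, chk3 f_pm_202_s t 1 9 1 = true := ex3_a k1_pm_202_s s16_pm_202_s

theorem s18_pm_202_s : ∃ t, chk3 f_pm_202_s t 1 4 1 = true := ex3_b k0_pm_202_s s17_pm_202_s

theorem s19_pm_202_s : ∃ t, chk3 f_pm_202_s t 1 2 1 = true := ex3_b s18_pm_202_s s14_pm_202_s

theorem s20_pm_202_s : ∃ t, chk3 f_pm_202_s t 1 1 1 = true := ex3_b s19_pm_202_s k10_pm_202_s

theorem c_pm_202_s : CertNE 0 536870912 0 536870912 740881858 40050571 3 eng mog cd0q2 cd0q0 pd2 true true false .pp 2 0 2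
    ndB0q2 ndB0q0 pcB2 cut_pm_202_s Ext.none :=
  certNE1 (fam := true) (s1 := true) (s2 := false) (a := 2) (b := 0) (c := 2) (cn := .pp) (n1 := ndB0q2) (n2 := ndB0q0) (pc := pcB2) (cut := cut_pm_202_s) (xt := Ext.none) (P1 := 0) (W1 := 536870912) (P2 := 0) (W2 := 536870912) (P3 := 740881858) (W3 := 40050571) (N0 := 3) (En := eng) (mo := mog) (C1 := cd0q2) (C2 := cd0q0) (C3 := pd2)
    rfl (fun _ => rfl) s20_pm_202_s

noncomputable def cut_pm_202_t : Cut := Cut.of [[⟨3, 0, 0, 2845415833⟩], [⟨0, 1, 0, 67108864⟩, ⟨1, 0, 0, 67108864⟩, ⟨2, 1, 0, 67108864⟩]]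

noncomputable def f_pm_202_t : ℕ → ℕ → ℕ → ℕ → Bool := onCell 0 536870912 1073741824 536870912 740881858 40050571
    (rowNE 3 eng mog cd0q2 cd0q0 pd2 1 true true false .pp 2 0 2 (qsf 0 536870912 0 536870912 2) ndB0q2 ndB0q0 pcB2 cut_pm_202_t Ext.none)

def k0_pm_202_t : ∃ t, chk3 f_pm_202_t t 1 1 1 = true :=
  ⟨(b (l 6) (a (l 6) (l 6))), by decide +kernel⟩

theorem c_pm_202_t : CertNE 0 536870912 0 536870912 740881858 40050571 3 eng mog cd0q2 cd0q0 pd2 true true false .pp 2 0 2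
    ndB0q2 ndB0q0 pcB2 cut_pm_202_t Ext.none :=
  certNE1 (fam := true) (s1 := true) (s2 := false) (a := 2) (b := 0) (c := 2) (cn := .pp) (n1 := ndB0q2) (n2 := ndB0q0) (pc := pcB2) (cut := cut_pm_202_t) (xt := Ext.none) (P1 := 0) (W1 := 536870912) (P2 := 0) (W2 := 536870912) (P3 := 740881858) (W3 := 40050571) (N0 := 3) (En := eng) (mo := mog) (C1 := cd0q2) (C2 := cd0q0) (C3 := pd2)
    rfl (fun _ => rfl) k0_pm_202_t

noncomputable def cut_pm_203_s : Cut := Cut.of [[⟨4, 0, 0, 1449551462⟩]]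

noncomputable def f_pm_203_s : ℕ → ℕ → ℕ → ℕ → Bool := onCell 0 536870912 1610612736 536870912 740881858 40050571
    (rowNE 3 eng mog cd0q2 cd0q0 pd3 1 true true false .up 2 0 3 (qsf 0 536870912 0 536870912 3) ndB0q2 ndB0q0 pcB3 cut_pm_203_s Ext.none)

def k0_pm_203_s : ∃ t, chk3 f_pm_203_s t 1 1 1 = true :=
  ⟨(l 6), by decide +kernel⟩

theorem c_pm_203_s : CertNE 0 536870912 0 536870912 740881858 40050571 3 eng mog cd0q2 cd0q0 pd3 true true false .up 2 0 3
    ndB0q2 ndB0q0 pcB3 cut_pm_203_s Ext.none :=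
  certNE1 (fam := true) (s1 := true) (s2 := false) (a := 2) (b := 0) (c := 3) (cn := .up) (n1 := ndB0q2) (n2 := ndB0q0) (pc := pcB3) (cut := cut_pm_203_s) (xt := Ext.none) (P1 := 0) (W1 := 536870912) (P2 := 0) (W2 := 536870912) (P3 := 740881858) (W3 := 40050571) (N0 := 3) (En := eng) (mo := mog) (C1 := cd0q2) (C2 := cd0q0) (C3 := pd3)
    rfl (fun _ => rfl) k0_pm_203_s

noncomputable def cut_pm_203_t : Cut := Cut.of [[⟨3, 0, 0, 2845415833⟩]]

noncomputable def f_pm_203_t : ℕ → ℕ → ℕ → ℕ → Bool := onCell 0 536870912 0 536870912 740881858 40050571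
    (rowNE 3 eng mog cd0q2 cd0q0 pd3 0 true true false .up 2 0 3 (qsf 0 536870912 0 536870912 3) ndB0q2 ndB0q0 pcB3 cut_pm_203_t Ext.none)

def k0_pm_203_t : ∃ t, chk3 f_pm_203_t t 1 1 1 = true :=
  ⟨(a (b (l 1) (b (a (b (l 1) (a (b (l 1) (a (l 16636216) (l 6))) (l 6))) (l 6)) (a (a (b (b (a (l 16656464) (l 6)) (a (l 16673680) (l 16658424))) (b (a (l 16687624) (l 16669720)) (a (l 16738072) (l 16695816)))) (b (l 6) (b (l 16684040) (a (l 16679096) (l 16660856))))) (b (l 6) (l 6))))) (l 6)), by decide +kernel⟩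

theorem c_pm_203_t : CertNE 0 536870912 0 536870912 740881858 40050571 3 eng mog cd0q2 cd0q0 pd3 true true false .up 2 0 3
    ndB0q2 ndB0q0 pcB3 cut_pm_203_t Ext.none :=
  certNE0 (fam := true) (s1 := true) (s2 := false) (a := 2) (b := 0) (c := 3) (cn := .up) (n1 := ndB0q2) (n2 := ndB0q0) (pc := pcB3) (cut := cut_pm_203_t) (xt := Ext.none) (P1 := 0) (W1 := 536870912) (P2 := 0) (W2 := 536870912) (P3 := 740881858) (W3 := 40050571) (N0 := 3) (En := eng) (mo := mog) (C1 := cd0q2) (C2 := cd0q0) (C3 := pd3)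
    rfl k0_pm_203_t

noncomputable def cut_pm_213_s : Cut := Cut.of [[⟨4, 0, 0, 1449551462⟩], [⟨0, 1, 0, 67108864⟩, ⟨1, 1, 0, 67108864⟩, ⟨2, 2, 0, 16777216⟩], [⟨0, 1, 0, 33554432⟩, ⟨1, 0, 1, 20971520⟩, ⟨2, 1, 1, 20971520⟩]]

noncomputable def f_pm_213_s : ℕ → ℕ → ℕ → ℕ → Bool := onCell 0 536870912 536870912 536870912 740881858 40050571
    (rowNE 3 eng mog cd0q2 cd0q1 pd3 0 true true false .pnn 2 1 3 (qsf 0 536870912 536870912 536870912 3) ndB0q2 ndB0q1 pcB3 cut_pm_213_s Ext.none)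

def k0_pm_213_s : ∃ t, chk3 f_pm_213_s t 1 1 1 = true :=
  ⟨(l 6), by decide +kernel⟩

theorem c_pm_213_s : CertNE 0 536870912 536870912 536870912 740881858 40050571 3 eng mog cd0q2 cd0q1 pd3 true true false .pnn 2 1 3
    ndB0q2 ndB0q1 pcB3 cut_pm_213_s Ext.none :=
  certNE0 (fam := true) (s1 := true) (s2 := false) (a := 2) (b := 1) (c := 3) (cn := .pnn) (n1 := ndB0q2) (n2 := ndB0q1) (pc := pcB3) (cut := cut_pm_213_s) (xt := Ext.none) (P1 := 0) (W1 := 536870912) (P2 := 536870912) (W2 := 536870912) (P3 := 740881858) (W3 := 40050571) (N0 := 3) (En := eng) (mo := mog) (C1 := cd0q2) (C2 := cd0q1) (C3 := pd3)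
    rfl k0_pm_213_s

noncomputable def cut_pm_213_t : Cut := Cut.of [[⟨3, 0, 0, 2845415833⟩], [⟨0, 1, 0, 67108864⟩, ⟨1, 1, 0, 67108864⟩, ⟨2, 2, 0, 16777216⟩], [⟨0, 1, 0, 33554432⟩, ⟨1, 0, 1, 20971520⟩, ⟨2, 1, 1, 20971520⟩]]

noncomputable def f_pm_213_t : ℕ → ℕ → ℕ → ℕ → Bool := onCell 0 536870912 1610612736 536870912 740881858 40050571
    (rowNE 3 eng mog cd0q2 cd0q1 pd3 1 true true false .pnn 2 1 3 (qsf 0 536870912 536870912 536870912 3) ndB0q2 ndB0q1 pcB3 cut_pm_213_t Ext.none)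

def k0_pm_213_t : ∃ t, chk3 f_pm_213_t t 2 2 1 = true :=
  ⟨(b (a (l 1) (l 6)) (b (a (b (b (l 1) (a (l 16733616) (l 16682216))) (a (c (b (l 16723456) (l 16733536)) (l 16771048)) (b (l 16693168) (l 16703184)))) (a (a (b (l 16652128) (l 16675152)) (b (l 6) (l 16659536))) (l 6))) (a (a (b (a (l 16775272) (l 16760936)) (a (b (l 16767056) (a (l 102777262375) (l 16771264))) (b (l 16753304) (l 16761608)))) (b (a (l 16725520) (l 16710248)) (b (l 16774184) (l 16762400)))) (a (b (l 16709184) (a (l 16716040) (l 16703424))) (b (a (l 16668176) (l 6)) (a (l 16692088) (b (l 16675864) (l 16689584)))))))), by decide +kernel⟩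

def k1_pm_213_t : ∃ t, chk3 f_pm_213_t t 2 6 1 = true :=
  ⟨(b (a (b (a (a (b (a (l 4) (l 105998483479)) (l 4)) (b (l 16790584) (a (l 109219710711) (l 16773592)))) (a (b (l 16757544) (l 16765920)) (l 16771176))) (a (a (l 4) (b (b (l 122641440679) (l 140358173255)) (l 4))) (b (a (a (l 16794232) (l 16769936)) (l 16762776)) (a (a (b (l 110293445303) (l 147874370391)) (l 54458880615)) (l 16769600))))) (a (b (b (l 16727656) (a (l 16745096) (l 16736912))) (b (a (l 16754704) (l 16748248)) (a (l 16763896) (l 16760064)))) (b (a (l 16722192) (b (l 16707264) (l 16727904))) (a (b (l 16744880) (l 16758568)) (b (l 16744272) (l 16760184)))))) (a (a (l 4) (b (b (a (a (l 4) (b (l 121030866055) (l 4))) (a (b (l 16775304) (l 16790192)) (l 16773720))) (a (l 4) (a (b (l 104924650935) (l 4)) (b (l 16776768) (l 113514675959))))) (a (l 4) (l 4)))) (a (b (a (b (l 16770920) (b (l 16774784) (l 16776280))) (b (l 16769368) (l 16775104))) (a (b (a (b (l 16788640) (l 104387784983)) (b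 (l 16776992) (l 16777616))) (a (l 4) (b (l 112977806695) (l 4)))) (b (b (l 16777616) (l 16778456)) (b (l 16778656) (a (l 83449905431) (l 16778992)))))) (b (a (b (l 16769560) (l 16776744)) (b (l 16772320) (l 16780960))) (a (b (l 16781048) (b (l 16782488) (l 16782712))) (b (l 16786576) (a (l 16787560) (l 16790904)))))))), by decide +kernel⟩

def k2_pm_213_t : ∃ t, chk3 f_pm_213_t t 2 7 1 = true :=
  ⟨(b (a (l 4) (b (a (a (l 4) (b (a (b (l 131768281351) (l 4)) (b (l 77544322391) (a (l 151632495335) (l 110293448039)))) (l 4))) (b (a (b (l 16771632) (a (l 16779240) (l 16782440))) (a (b (l 16787528) (l 16786368)) (l 16790640))) (a (b (a (a (l 123178342471) (l 16788680)) (l 16780448)) (a (b (l 112440852407) (l 4)) (a (l 110293445655) (l 16779024)))) (b (a (l 16784456) (l 16788168)) (a (l 16781920) (l 16785680)))))) (a (l 4) (b (a (b (a (l 4) (b (l 125862693879) (l 4))) (l 4)) (b (a (b (l 16779736) (a (l 16786736) (l 16778992))) (l 16772040)) (a (a (l 4) (b (l 16786904)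 (l 157538068487))) (b (l 16780160) (a (l 16787384) (l 16779360)))))) (a (l 4) (b (a (l 4) (b (a (l 150558748519) (l 16786632)) (a (l 4) (l 149485008503)))) (l 4))))))) (l 4)), by decide +kernel⟩

def k3_pm_213_t : ∃ t, chk3 f_pm_213_t t 3 2 1 = true :=
  ⟨(b (l 6) (b (l 6) (a (l 6) (l 6)))), by decide +kernel⟩

def k4_pm_213_t : ∃ t, chk3 f_pm_213_t t 6 6 1 = true :=
  ⟨(b (a (b (a (b (l 16700536) (l 16724904)) (b (l 6) (l 16721064))) (a (b (l 16743912) (a (l 16760544) (l 16760144))) (b (l 16744640) (l 16763040)))) (b (l 6) (b (a (l 16744576) (l 6)) (a (c (l 16760088) (l 16773160)) (c (l 16755304) (l 16761656)))))) (a (b (a (b (l 16773920) (l 16782928)) (b (l 16752944) (a (l 16781032) (l 16781184)))) (a (b (l 16789672) (l 16793120)) (b (a (l 16788720) (l 16765392)) (a (l 16792032) (l 16770024))))) (b (a (b (l 16756240) (l 16761224)) (b (c (l 16766192) (l 16793360)) (a (l 16781696) (l 16780048)))) (b (a (a (l 16785808) (l 16784856)) (a (l 16782816) (l 16758424)))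 (a (a (l 16746000) (l 16785808)) (a (b (l 16782504) (l 16781840)) (b (l 16777848) (l 16777096)))))))), by decide +kernel⟩

def k5_pm_213_t : ∃ t, chk3 f_pm_213_t t 7 6 1 = true :=
  ⟨(b (l 6) (a (b (b (a (a (l 16735824) (l 6)) (l 6)) (a (a (l 16735320) (c (l 16756232) (l 16795416))) (a (c (l 16731128) (l 16735456)) (l 6)))) (c (a (b (a (l 16762360) (l 16755912)) (a (l 16742800) (l 16736488))) (b (a (b (l 16751888) (l 16752256)) (a (l 16729968) (l 16721128))) (a (b (l 16753904) (l 16756552)) (a (l 16734424) (l 16735480))))) (a (b (a (l 16787856) (l 16787768)) (a (l 16782536) (l 16781912))) (b (a (b (l 16792144) (l 16788472)) (b (l 16797320) (l 16794200))) (a (b (l 16786016) (l 16784536)) (b (l 16792152) (l 16790960))))))) (b (l 6) (a (b (b (l 6) (a (c (a (l 16752856) (l 16753272)) (l 16795368)) (c (l 16775536) (l 16768560)))) (a (c (a (b (l 16756056) (l 16759936)) (l 16759384)) (a (b (l 16796640) (l 16796552)) (l 16795424))) (c (b (l 16759144) (l 16763736))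 (a (l 16772144) (l 16769800))))) (b (l 6) (b (a (c (a (l 16761120) (l 16762312)) (l 16786432)) (l 6)) (a (c (l 16776752) (l 16788616)) (c (a (l 16767816) (c (l 16765704) (l 16771976))) (a (l 16785192) (l 16782864)))))))))), by decide +kernel⟩

def k6_pm_213_t : ∃ t, chk3 f_pm_213_t t 6 14 1 = true :=
  ⟨(b (a (a (b (b (l 16793464) (l 16792448)) (b (l 16790656) (a (l 16787480) (l 16788088)))) (b (a (l 16791936) (l 16769040)) (a (l 16788528) (l 16788016)))) (a (b (a (c (l 16772312) (l 16763120)) (l 16764792)) (a (l 16767104) (b (l 16765544) (l 16767768)))) (b (a (b (l 16781640) (l 16782120)) (c (l 16753296) (l 16781056))) (a (c (l 16787368) (l 16782944)) (b (l 16780304) (l 16762376)))))) (a (b (a (b (a (l 16784784) (l 16785680)) (a (b (l 16782800) (l 16781632)) (l 16784032))) (b (a (l 16786000) (l 16786672)) (a (l 16785200) (l 16786688)))) (a (b (a (b (l 16780328) (a (l 75933698487) (l 16779648))) (b (l 16782840) (l 16781832))) (a (b (a (l 149485010247) (l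 75396827399)) (a (l 4) (b (l 103314071239) (l 4)))) (b (l 16780608) (a (b (l 16778600) (l 16782912)) (l 16779928))))) (b (a (l 16784392) (l 16786736)) (a (b (l 16783384) (l 16771912)) (b (l 16786424) (l 16785960)))))) (a (b (b (a (l 16788136) (l 16769768)) (a (l 16767976) (l 16771112))) (b (a (l 16789904) (l 16793528)) (a (c (l 16793160) (l 16786888)) (c (l 16798352) (l 16790000))))) (b (a (b (a (l 16790536) (l 16789512)) (c (l 16798880) (l 16767536))) (c (b (l 16789272) (l 16794728)) (l 16765328))) (b (a (a (l 16796008) (l 16776352)) (c (l 16799752) (l 16768768))) (a (l 16768744) (a (c (l 16804952) (l 16793184)) (c (l 16803088) (l 16770792))))))))), by decide +kernel⟩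

def k7_pm_213_t : ∃ t, chk3 f_pm_213_t t 14 14 1 = true :=
  ⟨(b (a (b (a (c (l 16746840) (l 16779768)) (c (b (l 16761440) (l 16765232)) (l 16759192))) (a (b (l 16776856) (b (l 16758296) (l 16760032))) (c (b (l 16769808) (l 16774472)) (b (l 16781080) (l 16782160))))) (c (b (a (a (l 16741320) (l 16741400)) (a (l 16742152) (l 16743320))) (a (b (l 16768680) (l 16773072)) (b (l 16769808) (l 16773352)))) (b (a (a (l 16761816) (l 16764352)) (b (l 16790536) (l 16769304))) (a (a (l 16762640) (l 16765016)) (a (l 16767616) (l 16770568)))))) (a (b (a (b (b (l 16761792) (l 16763648)) (c (l 16788728) (l 16785760))) (c (b (l 16779200) (l 16783472)) (b (l 16783488) (l 16784680)))) (a (c (b (l 16793440) (l 16797936)) (c (l 16759016) (l 16765816))) (b (c (l 16787496) (l 16785880)) (c (l 16770200) (l 16766016))))) (b (a (c (b (l 16776976) (l 16780600)) (a (l 16764184) (l 16765616))) (b (c (l 16776592) (l 16789792)) (c (l 16758488) (l 16768440)))) (a (b (c (l 16783856) (l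 16765488)) (c (l 16766336) (a (l 16786880) (l 16787752)))) (b (c (l 16761560) (l 16768536)) (c (l 16764912) (l 16769192))))))), by decide +kernel⟩

def k8_pm_213_t : ∃ t, chk3 f_pm_213_t t 15 28 1 = true :=
  ⟨(a (c (b (a (b (a (l 16763848) (l 16765544)) (l 16768384)) (c (l 16763976) (l 16775472))) (a (c (l 16789032) (l 16799432)) (b (l 16774192) (l 16776624)))) (b (a (a (b (l 16796320) (l 16795792)) (l 16796984)) (l 16773840)) (a (a (l 16773680) (b (l 16797240) (l 16796840))) (b (l 16795872) (l 16775136))))) (b (a (a (b (l 16759008) (l 16761448)) (c (b (l 16770712) (l 16774024)) (l 16768888))) (c (b (a (l 16771712) (c (l 16769824) (l 16775416))) (a (l 16775104) (c (l 16773856) (l 16778864)))) (b (a (l 16787360) (l 16785184)) (a (l 16789176) (l 16787640))))) (a (c (b (a (l 16775952) (l 16777200)) (a (l 16778888) (l 16780432))) (b (l 16772088) (l 16773736))) (c (b (a (l 16778512) (c (l 16777944) (l 16782448))) (a (l 16782304) (l 16784312))) (b (a (l 16791184)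 (l 16790360)) (a (l 16793752) (l 16793616))))))), by decide +kernel⟩

def k9_pm_213_t : ∃ t, chk3 f_pm_213_t t 15 29 1 = true :=
  ⟨(a (b (c (a (b (a (l 16776680) (l 16777048)) (l 16758584)) (b (a (l 16778152) (l 16779896)) (a (l 16780608) (l 16782872)))) (a (b (a (l 16793328) (l 16796000)) (l 16773088)) (b (l 16775640) (l 16776112)))) (a (b (c (l 16761568) (l 16773040)) (c (a (l 16785976) (l 16786360)) (a (l 16793576) (l 16796192)))) (b (c (a (l 16783616) (l 16786000)) (a (l 16797720) (l 16799080))) (c (a (l 16786960) (l 16789088)) (a (l 16777904) (l 16800696)))))) (b (a (a (b (l 16778224) (l 16784184)) (c (a (l 16785296) (l 16807440)) (l 16784512))) (b (c (a (l 16786264) (l 16788552)) (a (l 16796656) (l 16797048))) (a (c (l 16790200) (l 16799656)) (c (l 16813728) (l 16800576))))) (c (a (b (a (l 16788680) (l 16791592)) (a (l 16792032) (l 16794496))) (b (a (l 16793936) (l 16795880)) (a (l 16796480) (l 16797552)))) (a (b (a (l 16800240) (l 16801680)) (l 16792608))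 (b (a (l 16802568) (l 16803064)) (a (l 16804304) (l 16804104))))))), by decide +kernel⟩

def k10_pm_213_t : ∃ t, chk3 f_pm_213_t t 3 120 1 = true :=
  ⟨(a (a (a (a (l 4) (b (a (b (l 130157657479) (l 120493931607)) (b (l 16778664) (l 85060501015))) (a (l 4) (b (a (l 122104554679) (l 16776768)) (l 214983238327))))) (a (b (a (l 16779968) (l 16781800)) (a (b (l 16778640) (a (l 16781968) (l 16778152))) (l 16780032))) (b (l 16774280) (l 16772544)))) (a (a (b (l 16767960) (l 16766104)) (b (l 16772192) (l 16770256))) (a (b (l 16775600) (l 16773576)) (b (a (l 16798208) (l 16777920)) (l 16775584))))) (a (a (a (a (b (l 16765432) (a (l 16775992) (l 16774848))) (b (l 16772968) (l 16772752))) (c (l 16772504) (c (l 16767976) (l 16764800)))) (a (c (l 16768904) (a (l 16787312) (l 16788336))) (c (l 16768128) (c (l 16790584) (l 16770808))))) (a (a (c (a (l 16789464) (l 16789936)) (c (l 16794320) (l 16776824))) (c (a (l 16769616) (l 16791952)) (b (l 16774712) (l 16780472))))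 (a (a (c (l 16794240) (l 16803384)) (c (l 16796152) (l 16804232))) (a (c (l 16797104) (l 16804088)) (c (l 16797344) (l 16803224))))))), by decide +kernel⟩

def k11_pm_213_t : ∃ t, chk3 f_pm_213_t t 3 121 1 = true :=
  ⟨(a (a (a (l 4) (a (b (a (b (a (l 4) (l 128010170887)) (l 4)) (b (l 16778616) (a (l 132842008919) (l 16778104)))) (a (l 4) (b (a (l 4) (l 139284459687)) (l 4)))) (b (c (l 16781848) (l 16780224)) (a (b (l 16778536) (a (l 147874393959) (l 16778016))) (l 16774688))))) (a (a (b (c (l 16786704) (l 16783320)) (c (l 16784104) (l 16781712))) (c (a (l 16778568) (l 16770496)) (b (l 16786472) (l 16784840)))) (a (b (l 16771424) (c (l 16793096) (l 16787072))) (c (b (l 16798816) (l 16795872)) (a (l 16788456) (l 16767784)))))) (a (a (a (a (b (c (l 16800328) (l 16768880)) (l 16772000)) (b (c (l 16798136) (l 16788288)) (c (l 16797568) (l 16766832)))) (c (a (l 16795352) (l 16793296)) (b (l 16766040) (l 16766048)))) (a (c (a (l 16792032) (l 16791448)) (b (l 16788040)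 (l 16767384))) (c (a (l 16791416) (l 16791832)) (b (l 16791792) (l 16771320))))) (a (a (c (c (l 16771056) (l 16772984)) (c (l 16775136) (l 16777512))) (a (c (l 16793368) (l 16800600)) (c (l 16793752) (l 16802224)))) (a (c (a (l 16795032) (l 16795920)) (a (l 16802976) (l 16802952))) (c (a (l 16796160) (l 16795800)) (c (l 16779232) (l 16782368))))))), by decide +kernel⟩

def k12_pm_213_t : ∃ t, chk3 f_pm_213_t t 12 61 1 = true :=
  ⟨(b (a (l 4) (a (l 4) (b (a (b (a (l 4) (a (l 132841978135) (l 143042553623))) (l 4)) (b (c (l 16778656) (l 16778192)) (a (c (l 147337499975) (l 126399526711)) (l 93113559383)))) (a (l 4) (b (a (l 4) (c (l 137136943271) (l 136600072487))) (l 4)))))) (l 4)), by decide +kernel⟩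

def k13_pm_213_t : ∃ t, chk3 f_pm_213_t t 13 61 1 = true :=
  ⟨(a (b (a (b (c (a (l 16780232) (l 16782600)) (l 16774776)) (a (b (a (c (l 16777488) (l 16777592)) (l 16778544)) (a (b (l 125325787063) (l 4)) (c (l 119957105975) (l 79154892615)))) (c (l 16774616) (l 16778976)))) (b (c (l 16775752) (l 16783128)) (c (c (l 16773416) (l 16782912)) (a (l 16780552) (l 16782000))))) (a (b (a (b (c (l 272965296695) (l 268133457975)) (l 4)) (b (a (b (l 105998459175) (a (l 4) (l 143579421047))) (c (l 16778368) (l 16777992))) (a (l 4) (c (b (l 129620779079) (c (l 162906752423) (l 136063206727))) (b (l 16772360) (l 135526334999)))))) (l 4)) (b (a (b (c (l 16780112) (l 16779168)) (c (c (l 16773528) (l 16778640)) (a (l 16777904) (l 16778576)))) (c (c (l 16781904) (l 16781208)) (l 16780096))) (a (b (c (a (b (c (l 108145923207) (l 16771952)) (l 305714425751)) (b (l 16778144) (c (l 128010165447) (l 16777144)))) (a (b (l 126399534119) (l 296050749031)) (b (l 16777848) (l 83986734391))))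 (b (a (l 4) (a (l 4) (c (c (l 167201728951) (l 16776552)) (l 126399535431)))) (l 4))) (b (c (c (l 16779584) (l 16779240)) (l 16778688)) (a (c (b (l 89892328199) (c (a (l 147874370999) (l 16777136)) (l 114051502855))) (b (l 16777704) (a (l 141431919543) (l 16777176)))) (c (l 16778488) (l 16778064)))))))) (c (b (a (b (l 16779624) (a (l 16786368) (l 16787992))) (b (l 16792984) (l 16790136))) (a (b (c (l 16774536) (l 16773264)) (c (b (l 16782728) (l 16776040)) (a (l 16775112) (l 16781976)))) (b (c (l 16788512) (l 16786448)) (c (l 16775248) (a (l 16783472) (l 16784888)))))) (b (a (b (l 16785216) (l 16783488)) (b (l 16786240) (l 16784608))) (a (b (a (l 16781208) (l 16782048)) (a (b (l 16779864) (l 16779016)) (l 16780472))) (b (l 16783168) (a (l 16781384) (l 16782208))))))), by decide +kernel⟩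

def k14_pm_213_t : ∃ t, chk3 f_pm_213_t t 7 61 1 = true :=
  ⟨(c (a (a (b (a (b (a (l 16794784) (l 16796280)) (l 16792888)) (a (b (l 16795520) (l 16795208)) (l 16794552))) (a (b (a (l 16789704) (l 16791256)) (a (l 16787328) (l 16788936))) (b (a (l 16793416) (a (l 16794984) (l 16794960))) (a (l 16791048) (b (l 16794536) (l 16793360)))))) (b (a (b (l 16793104) (l 16773024)) (b (l 16772880) (l 16773808))) (a (b (l 16794816) (a (l 16784544) (l 16795632))) (b (l 16774672) (l 16795992))))) (a (b (a (c (l 16773560) (l 16774688)) (a (l 16794824) (l 16772984))) (a (l 16795864) (a (l 16773480) (b (l 16793192) (l 16792400))))) (b (a (b (l 16773712) (l 16772696)) (a (l 16773024) (b (l 16793920) (l 16792520)))) (a (a (b (l 16792288) (l 16790944)) (b (l 16792264) (l 16790656))) (a (b (l 16791776) (l 16790176)) (b (l 16791024) (l 16789488))))))) (a (a (b (a (b (a (l 16786632) (l 16766344)) (l 16769848)) (a (b (l 16765848) (b (l 16766048) (l 16766016))) (l 16766384))) (a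 (b (b (l 16763752) (l 16763208)) (a (l 16783000) (l 16773344))) (b (a (l 16765240) (b (l 16766512) (l 16771960))) (a (l 16764208) (b (l 16766776) (l 16787144)))))) (b (a (a (l 16767248) (l 16768768)) (a (l 16770808) (l 16773336))) (a (b (c (l 16770048) (l 16767336)) (a (a (l 16772960) (l 16789688)) (l 16791008))) (a (l 16792712) (l 16794488))))) (a (b (a (a (l 16796664) (l 16798720)) (c (a (l 16798592) (l 16798872)) (l 16807576))) (a (l 16802104) (a (l 16797672) (c (l 16775352) (l 16777936))))) (b (a (a (l 16779664) (l 16779216)) (a (l 16778224) (l 16787192))) (a (a (c (l 16774488) (l 16777328)) (c (l 16794944) (l 16776624))) (a (c (l 16794088) (l 16775472)) (b (l 16794904) (l 16792984)))))))), by decide +kernel⟩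

def k15_pm_213_t : ∃ t, chk3 f_pm_213_t t 12 62 1 = true :=
  ⟨(l 4), by decide +kernel⟩

def k16_pm_213_t : ∃ t, chk3 f_pm_213_t t 26 124 1 = true :=
  ⟨(b (a (l 4) (a (l 4) (b (a (c (b (l 313230618583) (l 4)) (l 306788165431)) (b (c (c (l 134989487383) (l 16777192)) (a (l 109219667879) (l 16777560))) (a (l 4) (c (c (l 137673824791) (l 16771272)) (l 132841985975))))) (l 4)))) (l 4)), by decide +kernel⟩

def k17_pm_213_t : ∃ t, chk3 f_pm_213_t t 27 124 1 = true :=
  ⟨(b (a (a (b (c (a (c (l 16778264) (l 16778120)) (l 16779104)) (a (b (l 16778048) (l 16777688)) (l 16778448))) (b (a (c (c (a (l 157001175799) (l 16777056)) (l 122641436535)) (a (l 149484982327) (l 96334767127))) (c (l 16778064) (l 16777784))) (a (l 4) (c (a (c (l 125325794631) (l 16774112)) (l 16777680)) (a (c (l 122104569191) (l 119957085847)) (l 16777544)))))) (c (b (l 16775272) (c (l 16779336) (l 16779008))) (b (l 16779328) (l 16778496)))) (c (c (b (l 16783696) (l 16777064)) (a (l 16775976)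 (l 16782744))) (a (b (l 16780360) (l 16779616)) (b (l 16781288) (l 16780616))))) (a (a (b (b (a (l 4) (c (c (l 263301624791) (l 262227882855)) (c (l 261154140903) (l 260080398967)))) (l 4)) (l 4)) (b (c (a (b (c (l 16780232) (l 16777656)) (a (l 323968037991) (c (l 121030827703) (l 16772872)))) (c (l 16778352) (l 16778184))) (a (b (a (l 89355445863) (l 16777664)) (a (l 319136199559) (c (l 117809602231) (l 116198989495)))) (b (l 16778128) (l 16777704)))) (a (l 4) (b (b (c (c (l 37278966935) (l 16777160)) (a (l 132305118183) (l 16777480))) (a (l 4) (c (c (l 16777024) (l 16777024)) (l 16777032)))) (b (c (l 313230619463) (l 307861910071)) (l 4)))))) (a (b (c (c (l 16779856) (l 16779448)) (l 16773560)) (a (c (b (l 16778144) (a (c (b (l 16777296) (l 160222404807)) (l 121567698551)) (l 16777704))) (b (l 16777840) (a (b (l 16777344) (l 153779953239)) (l 16777552)))) (c (c (l 16778840) (l 16778592)) (l 16778208)))) (c (b (l 16778800) (c (l 16780312) (l 16779840)))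 (b (l 16779888) (l 16773848)))))), by decide +kernel⟩

def k18_pm_213_t : ∃ t, chk3 f_pm_213_t t 13 125 1 = true :=
  ⟨(a (l 4) (a (l 4) (a (b (b (a (b (b (a (l 4) (c (c (l 16774200) (l 16776808)) (l 137136956023))) (l 4)) (l 4)) (c (b (c (a (l 81839265335) (l 16777936)) (l 16777680)) (a (c (l 348127228855) (l 346516615991)) (c (b (l 16777216) (l 172570435031)) (l 131231384567)))) (b (a (a (l 106535317783) (l 16777480)) (l 16777664)) (a (l 340074164855) (b (l 16777248) (l 165054241783)))))) (l 4)) (l 4)) (a (b (b (c (b (l 16778576) (c (l 16777952) (l 16777848))) (b (l 16778128) (a (l 16777552) (l 16777800)))) (b (b (c (c (a (l 157538050439) (l 16777576)) (l 115125258311)) (a (l 152169342375) (l 16777456))) (a (l 4) (c (c (l 16773584) (l 16776856)) (l 134989475431)))) (l 4))) (l 4)) (b (b (c (c (l 16779264) (l 16778968)) (l 16778480)) (c (b (l 16778040) (a (c (b (l 16776984) (l 189750303031)) (b (l 16776984) (l 185992206631))) (c (l 16777464) (l 16777496))))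 (b (l 16777776) (b (a (l 120493964375) (l 16777552)) (a (l 339000424119) (l 30836517831)))))) (a (l 4) (b (a (l 4) (b (b (c (l 174181049879) (l 169349211575)) (l 4)) (l 4))) (l 4)))))))), by decide +kernel⟩

def k19_pm_213_t : ∃ t, chk3 f_pm_213_t t 6 63 1 = true :=
  ⟨(l 4), by decide +kernel⟩

def k20_pm_213_t : ∃ t, chk3 f_pm_213_t t 28 124 1 = true :=
  ⟨(b (a (c (a (c (l 16785688) (l 16784216)) (c (l 16787512) (l 16785696))) (a (c (l 16782664) (l 16770552)) (l 16772304))) (c (a (l 16778264) (l 16781136)) (a (l 16773736) (l 16775952)))) (a (c (a (b (l 16783120) (c (l 16782208) (l 16781432))) (b (l 16784816) (l 16778304))) (a (b (l 16780904) (l 16780176)) (b (l 16781912) (l 16781240)))) (c (a (b (l 16786968) (l 16785720)) (b (l 16789888) (l 16788600))) (a (b (l 16772920) (l 16782784)) (b (l 16785720) (l 16785088)))))), by decide +kernel⟩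

def k21_pm_213_t : ∃ t, chk3 f_pm_213_t t 28 250 1 = true :=
  ⟨(a (a (b (c (c (l 16780720) (l 16780200)) (l 16776736)) (c (c (l 16776544) (l 16773648)) (b (l 16778696) (l 16775592)))) (c (b (c (l 16782616) (l 16781800)) (c (l 16781088) (l 16780536))) (b (l 16780488) (c (l 16779944) (l 16779328))))) (b (c (a (l 16779200) (l 16786784)) (a (l 16782120) (l 16784336))) (c (a (c (l 16783320) (l 16782608)) (l 16779416)) (a (l 16776048) (l 16783440))))), by decide +kernel⟩

def k22_pm_213_t : ∃ t, chk3 f_pm_213_t t 28 251 1 = true :=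
  ⟨(a (a (a (b (b (c (b (c (l 16777656) (l 16777688)) (a (a (l 4) (l 158074925735)) (l 16777488))) (a (b (l 16777392) (a (l 4) (l 153779955847))) (l 16777576))) (b (a (l 4) (c (c (l 200487725255) (l 161296146663)) (a (l 185992208983) (l 16774344)))) (l 4))) (l 4)) (b (c (b (l 16778352) (a (c (b (l 16777584) (l 151095600135)) (l 118346484167)) (l 16777800))) (b (l 16778000) (a (b (l 16777464) (c (l 146800632791) (l 144116280823))) (l 16777624)))) (b (b (a (l 4) (c (c (l 16774256) (l 16776872)) (c (l 16773920) (l 133378865847)))) (c (l 393761255431) (l 395371867831))) (l 4)))) (b (c (c (b (l 16779896) (l 16779088)) (l 16775280)) (b (l 16778944) (l 16775832))) (c (b (a (a (c (l 74323073127) (l 23857194503)) (l 16777904)) (l 16778624)) (a (a (c (l 388929417703) (l 387318804823)) (c (b (l 16777096) (l 194582140727)) (b (l 16777104) (l 191897786247)))) (c (l 71101847063) (l 70028105351)))) (a (a (b (a (b (l 16777448) (l 153779955719)) (l 16777520)) (l 381413224551))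 (b (l 16777704) (b (a (l 138747570791) (l 16777408)) (l 350274713335)))) (a (b (l 16778048) (c (l 23857195575) (b (l 16777568) (l 16774600)))) (l 16775640)))))) (b (a (c (c (l 16781360) (l 16781192)) (b (l 16780576) (l 16780016))) (c (c (l 16782440) (l 16783048)) (l 16777056))) (c (a (c (b (l 16779944) (l 16779080)) (l 16775696)) (c (l 16780784) (l 16781200))) (a (b (l 16779464) (l 16776184)) (c (l 16781240) (l 16775392)))))), by decide +kernel⟩

def k23_pm_213_t : ∃ t, chk3 f_pm_213_t t 29 62 1 = true :=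
  ⟨(a (a (b (b (b (a (l 16776248) (l 16777096)) (c (l 16793832) (l 16778832))) (c (l 16780032) (l 16777600))) (b (c (b (l 16787272) (l 16785352)) (a (l 16775192) (l 16776416))) (b (c (l 16778336) (l 16784440)) (c (c (l 16781688) (l 16782272)) (l 16777688))))) (b (b (c (l 16795768) (l 16777800)) (b (a (c (l 16791712) (l 16790648)) (l 16772760)) (a (l 16780704) (c (l 16789840) (l 16790920))))) (c (b (b (l 16787448) (l 16785784)) (b (l 16784160) (c (l 16782304) (l 16783056)))) (b (b (l 16789544) (l 16788112)) (b (l 16786296) (l 16779088)))))) (b (c (b (l 16796184) (a (l 16793184) (l 16795320))) (b (l 16793464) (a (l 16792032) (l 16792904)))) (b (a (a (b (c (l 16777744) (l 16790848)) (b (l 16777976) (l 16786960))) (b (l 16790792) (c (l 16776328) (l 16789728)))) (c (l 16790112) (l 16791480))) (b (a (c (b (a (l 16784840) (l 16774472)) (l 16784192)) (a (l 16786904) (l 16787136))) (a (c (b (l 16786048) (l 16774376)) (l 16782880)) (l 16777336))) (a (c (l 16775304)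 (l 16785192)) (b (a (c (l 16773280) (l 16786144)) (l 16778072)) (a (l 16778936) (a (c (l 16772888) (l 16785632)) (l 16774520))))))))), by decide +kernel⟩

def k24_pm_213_t : ∃ t, chk3 f_pm_213_t t 15 62 1 = true :=
  ⟨(a (b (b (a (c (l 16795136) (l 16795144)) (c (l 16771408) (l 16794976))) (a (c (l 16794160) (l 16793584)) (a (l 16795232) (b (l 16770672) (l 16775032))))) (b (c (a (a (l 16793120) (l 16792192)) (a (l 16790600) (l 16767672))) (a (a (l 16791760) (l 16791656)) (a (l 16791096) (l 16779656)))) (c (a (a (b (l 16789024) (l 16786416)) (l 16790488)) (a (l 16788896) (l 16787104))) (a (a (l 16778904) (l 16789488)) (a (l 16788800) (l 16787880)))))) (a (b (a (c (b (l 16768504) (a (l 16788400) (l 16787472))) (b (a (l 16793880) (l 16793328)) (a (l 16791528) (l 16769984)))) (c (b (l 16788952) (l 16787184)) (b (l 16792904) (l 16769576)))) (b (a (c (c (l 16786056) (l 16766216)) (c (l 16777952) (l 16779344))) (c (a (l 16785448) (l 16785424)) (a (l 16777744) (l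 16788144)))) (a (c (b (l 16785496) (l 16784840)) (a (l 16776560) (l 16776000))) (c (a (b (l 16784224) (l 16783520)) (l 16783736)) (a (c (l 16774960) (l 16776136)) (l 16785888)))))) (b (a (c (c (l 16792256) (l 16767496)) (b (l 16792064) (l 16779480))) (c (b (l 16788000) (c (l 16785952) (l 16787144))) (b (l 16791112) (l 16778768)))) (a (c (b (c (l 16784776) (l 16785904)) (a (l 16783744) (l 16783720))) (b (a (l 16787968) (l 16787760)) (c (l 16785248) (l 16775912)))) (c (b (c (l 16784576) (l 16785600)) (c (a (l 16783240) (l 16783168)) (l 16773576))) (b (a (l 16787520) (l 16787248)) (c (l 16785032) (l 16775632)))))))), by decide +kernel⟩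

def k25_pm_213_t : ∃ t, chk3 f_pm_213_t t 28 252 1 = true :=
  ⟨(a (b (b (a (l 4) (a (l 4) (b (a (c (c (l 190287173799) (l 187602819159)) (l 328263006167)) (c (c (l 16777248) (l 16777264)) (a (l 16777088) (l 16777432)))) (a (l 4) (c (c (l 186529077575) (l 184381594007)) (a (l 4) (l 170959823815))))))) (l 4)) (l 4)) (a (a (b (c (b (c (l 16777784) (l 16777840)) (b (a (c (l 181697239639) (l 180086626839)) (l 75396812711)) (c (l 340074165415) (l 340611036199)))) (b (c (l 23857196183) (b (l 16777824) (l 24394067463))) (b (a (a (l 4) (l 165054244071)) (l 16777368)) (a (l 4) (a (l 4) (l 161296150375)))))) (l 4)) (b (c (b (l 16778712) (c (l 16777784) (l 16777840))) (b (l 16778496) (a (b (l 16777760) (l 16777384)) (l 16777968)))) (b (c (b (a (c (l 176328530631) (l 175254788743)) (l 76470554391)) (c (l 337389810903) (l 338463552599))) (b (a (b (l 159685535223) (l 425973511959)) (l 16777392)) (b (a (l 4) (l 159148666935)) (l 432415961335)))) (l 4)))) (b (b (c (l 16777136)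 (l 16774560)) (c (c (l 16778872) (l 16779056)) (l 16776392))) (b (a (c (c (l 16777744) (l 16777800)) (a (b (l 16777800) (l 44258293351)) (l 16778000))) (c (l 16778528) (l 16778624))) (a (b (b (c (c (l 173107320039) (l 112440905191)) (a (a (l 16773816) (l 16777032)) (l 16777504))) (a (l 4) (c (l 16777176) (l 16777192)))) (b (a (l 4) (a (l 4) (c (l 16777016) (l 16777016)))) (l 4))) (c (c (l 85060491607) (l 80765523591)) (a (c (l 75396813655) (b (l 16777760) (l 22783455095))) (l 16777992)))))))), by decide +kernel⟩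

def k26_pm_213_t : ∃ t, chk3 f_pm_213_t t 28 253 1 = true :=
  ⟨(a (l 4) (b (b (a (l 4) (a (l 4) (a (b (b (a (l 4) (c (l 16776984) (l 16776976))) (l 4)) (l 4)) (b (c (c (l 16777208) (l 16777216)) (b (l 16777480) (l 114588385991))) (a (l 4) (b (c (l 158611795463) (l 16774928)) (l 4))))))) (l 4)) (l 4))), by decide +kernel⟩

def k27_pm_213_t : ∃ t, chk3 f_pm_213_t t 29 126 1 = true :=
  ⟨(b (b (b (a (c (a (l 16780848) (l 16781632)) (a (l 16781696) (l 16782952))) (b (a (c (l 16782360) (l 16784088)) (c (a (l 16782688) (l 16772408)) (l 16784680))) (l 14))) (a (c (a (l 16780120) (l 16780968)) (a (l 16780832) (l 16782072))) (l 14))) (a (a (c (b (c (l 16779280) (l 16779536)) (c (l 16778616) (l 16778776))) (b (l 16774712) (c (l 16778960) (l 16776320)))) (c (b (l 16780320) (c (l 16779520) (l 16779832))) (b (l 16781208) (l 16777736)))) (l 14))) (a (a (b (a (c (b (b (l 16777856) (c (l 16779968) (l 79154910487))) (c (b (a (c (l 193508398311) (l 192971527351)) (l 172033577431))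 (l 445300863143)) (b (a (l 378728871671) (l 172570448343)) (l 444763992055)))) (b (b (l 16777976) (b (l 16777656) (a (a (l 166127987991) (l 16777296)) (l 16777632)))) (a (b (c (l 379802613399) (l 380876355111)) (l 4)) (b (a (b (l 16777256) (l 183844727655)) (l 16777344)) (l 428657865975))))) (b (c (l 16775656) (l 16778544)) (b (c (l 16777752) (l 16777880)) (a (c (c (l 189750317607) (l 120493968967)) (b (l 16777280) (a (l 197266499591) (l 16777072)))) (l 14))))) (a (l 4) (a (a (l 4) (l 14)) (l 14)))) (a (b (b (c (l 16778800) (l 16779216)) (l 14)) (l 14)) (l 14))) (l 14))), by decide +kernel⟩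

def k28_pm_213_t : ∃ t, chk3 f_pm_213_t t 14 127 1 = true :=
  ⟨(a (l 4) (a (a (l 4) (l 14)) (l 14))), by decide +kernel⟩

def k29_pm_213_t : ∃ t, chk3 f_pm_213_t t 15 63 1 = true :=
  ⟨(b (b (b (b (a (a (a (c (l 16774120) (l 16786384)) (l 16782928)) (a (l 16787552) (l 16786264))) (b (a (a (c (l 16784432) (l 16785616)) (a (l 16773432) (l 16783672))) (a (c (l 16782864) (l 16784648)) (c (l 16782816) (l 16784520)))) (l 14))) (l 14)) (l 14)) (l 14)) (l 14)), by decide +kernel⟩

theorem s30_pm_213_t : ∃ t, chk3 f_pm_213_t t 28 126 1 = true := ex3_b k25_pm_213_t k26_pm_213_t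

theorem s31_pm_213_t : ∃ t, chk3 f_pm_213_t t 14 126 1 = true := ex3_a s30_pm_213_t k27_pm_213_t

theorem s32_pm_213_t : ∃ t, chk3 f_pm_213_t t 14 63 1 = true := ex3_b s31_pm_213_t k28_pm_213_t

theorem s33_pm_213_t : ∃ t, chk3 f_pm_213_t t 7 63 1 = true := ex3_a s32_pm_213_t k29_pm_213_t

theorem s34_pm_213_t : ∃ t, chk3 f_pm_213_t t 28 125 1 = true := ex3_b k21_pm_213_t k22_pm_213_t

theorem s35_pm_213_t : ∃ t, chk3 f_pm_213_t t 28 62 1 = true := ex3_b k20_pm_213_t s34_pm_213_t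

theorem s36_pm_213_t : ∃ t, chk3 f_pm_213_t t 14 62 1 = true := ex3_a s35_pm_213_t k23_pm_213_t

theorem s37_pm_213_t : ∃ t, chk3 f_pm_213_t t 7 62 1 = true := ex3_a s36_pm_213_t k24_pm_213_t

theorem s38_pm_213_t : ∃ t, chk3 f_pm_213_t t 7 31 1 = true := ex3_b s37_pm_213_t s33_pm_213_t

theorem s39_pm_213_t : ∃ t, chk3 f_pm_213_t t 13 124 1 = true := ex3_a k16_pm_213_t k17_pm_213_t

theorem s40_pm_213_t : ∃ t, chk3 f_pm_213_t t 13 62 1 = true := ex3_b s39_pm_213_t k18_pm_213_t

theorem s41_pm_213_t : ∃ t, chk3 f_pm_213_t t 6 62 1 = true := ex3_a k15_pm_213_t s40_pm_213_t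

theorem s42_pm_213_t : ∃ t, chk3 f_pm_213_t t 6 31 1 = true := ex3_b s41_pm_213_t k19_pm_213_t

theorem s43_pm_213_t : ∃ t, chk3 f_pm_213_t t 3 31 1 = true := ex3_a s42_pm_213_t s38_pm_213_t

theorem s44_pm_213_t : ∃ t, chk3 f_pm_213_t t 6 61 1 = true := ex3_a k12_pm_213_t k13_pm_213_t

theorem s45_pm_213_t : ∃ t, chk3 f_pm_213_t t 3 61 1 = true := ex3_a s44_pm_213_t k14_pm_213_t

theorem s46_pm_213_t : ∃ t, chk3 f_pm_213_t t 3 60 1 = true := ex3_b k10_pm_213_t k11_pm_213_t

theorem s47_pm_213_t : ∃ t, chk3 f_pm_213_t t 3 30 1 = true := ex3_b s46_pm_213_t s45_pm_213_t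

theorem s48_pm_213_t : ∃ t, chk3 f_pm_213_t t 3 15 1 = true := ex3_b s47_pm_213_t s43_pm_213_t

theorem s49_pm_213_t : ∃ t, chk3 f_pm_213_t t 15 14 1 = true := ex3_b k8_pm_213_t k9_pm_213_t

theorem s50_pm_213_t : ∃ t, chk3 f_pm_213_t t 7 14 1 = true := ex3_a k7_pm_213_t s49_pm_213_t

theorem s51_pm_213_t : ∃ t, chk3 f_pm_213_t t 3 14 1 = true := ex3_a k6_pm_213_t s50_pm_213_t

theorem s52_pm_213_t : ∃ t, chk3 f_pm_213_t t 3 7 1 = true := ex3_b s51_pm_213_t s48_pm_213_t

theorem s53_pm_213_t : ∃ t, chk3 f_pm_213_t t 3 6 1 = true := ex3_a k4_pm_213_t k5_pm_213_t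

theorem s54_pm_213_t : ∃ t, chk3 f_pm_213_t t 3 3 1 = true := ex3_b s53_pm_213_t s52_pm_213_t

theorem s55_pm_213_t : ∃ t, chk3 f_pm_213_t t 3 1 1 = true := ex3_b k3_pm_213_t s54_pm_213_t

theorem s56_pm_213_t : ∃ t, chk3 f_pm_213_t t 2 3 1 = true := ex3_b k1_pm_213_t k2_pm_213_t

theorem s57_pm_213_t : ∃ t, chk3 f_pm_213_t t 2 1 1 = true := ex3_b k0_pm_213_t s56_pm_213_t

theorem s58_pm_213_t : ∃ t, chk3 f_pm_213_t t 1 1 1 = true := ex3_a s57_pm_213_t s55_pm_213_t

theorem c_pm_213_t : CertNE 0 536870912 536870912 536870912 740881858 40050571 3 eng mog cd0q2 cd0q1 pd3 true true false .pnn 2 1 3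
    ndB0q2 ndB0q1 pcB3 cut_pm_213_t Ext.none :=
  certNE1 (fam := true) (s1 := true) (s2 := false) (a := 2) (b := 1) (c := 3) (cn := .pnn) (n1 := ndB0q2) (n2 := ndB0q1) (pc := pcB3) (cut := cut_pm_213_t) (xt := Ext.none) (P1 := 0) (W1 := 536870912) (P2 := 536870912) (W2 := 536870912) (P3 := 740881858) (W3 := 40050571) (N0 := 3) (En := eng) (mo := mog) (C1 := cd0q2) (C2 := cd0q1) (C3 := pd3)
    rfl (fun _ => rfl) s58_pm_213_t

noncomputable def cut_mm_001_s : Cut := Cut.of [[⟨4, 0, 0, 1449551462⟩]]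

noncomputable def f_mm_001_s : ℕ → ℕ → ℕ → ℕ → Bool := onCell 0 536870912 0 536870912 740881858 40050571
    (rowNE 3 eng mog cd0q0 cd0q0 pd1 0 true false false .up 0 0 1 (qsf 0 536870912 0 536870912 1) ndB0q0 ndB0q0 pcB1 cut_mm_001_s Ext.none)

def k0_mm_001_s : ∃ t, chk3 f_mm_001_s t 1 1 1 = true :=
  ⟨(l 4), by decide +kernel⟩

theorem c_mm_001_s : CertNE 0 536870912 0 536870912 740881858 40050571 3 eng mog cd0q0 cd0q0 pd1 true false false .up 0 0 1
    ndB0q0 ndB0q0 pcB1 cut_mm_001_s Ext.none :=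
  certNE0 (fam := true) (s1 := false) (s2 := false) (a := 0) (b := 0) (c := 1) (cn := .up) (n1 := ndB0q0) (n2 := ndB0q0) (pc := pcB1) (cut := cut_mm_001_s) (xt := Ext.none) (P1 := 0) (W1 := 536870912) (P2 := 0) (W2 := 536870912) (P3 := 740881858) (W3 := 40050571) (N0 := 3) (En := eng) (mo := mog) (C1 := cd0q0) (C2 := cd0q0) (C3 := pd1)
    rfl k0_mm_001_s

noncomputable def cut_mm_001_t : Cut := Cut.of [[⟨3, 0, 0, 2845415833⟩]]

noncomputable def f_mm_001_t : ℕ → ℕ → ℕ → ℕ → Bool := onCell 0 536870912 0 536870912 740881858 40050571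
    (rowNE 3 eng mog cd0q0 cd0q0 pd1 0 true false false .up 0 0 1 (qsf 0 536870912 0 536870912 1) ndB0q0 ndB0q0 pcB1 cut_mm_001_t Ext.none)

def k0_mm_001_t : ∃ t, chk3 f_mm_001_t t 1 1 1 = true :=
  ⟨(l 4), by decide +kernel⟩

theorem c_mm_001_t : CertNE 0 536870912 0 536870912 740881858 40050571 3 eng mog cd0q0 cd0q0 pd1 true false false .up 0 0 1
    ndB0q0 ndB0q0 pcB1 cut_mm_001_t Ext.none :=
  certNE0 (fam := true) (s1 := false) (s2 := false) (a := 0) (b := 0) (c := 1) (cn := .up) (n1 := ndB0q0) (n2 := ndB0q0) (pc := pcB1) (cut := cut_mm_001_t) (xt := Ext.none) (P1 := 0) (W1 := 536870912) (P2 := 0) (W2 := 536870912) (P3 := 740881858) (W3 := 40050571) (N0 := 3) (En := eng) (mo := mog) (C1 := cd0q0) (C2 := cd0q0) (C3 := pd1)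
    rfl k0_mm_001_t

noncomputable def cut_mm_011_s : Cut := Cut.of [[⟨4, 0, 0, 1449551462⟩]]

noncomputable def f_mm_011_s : ℕ → ℕ → ℕ → ℕ → Bool := onCell 0 536870912 536870912 536870912 740881858 40050571
    (rowNE 3 eng mog cd0q0 cd0q1 pd1 0 true false false .pnn 0 1 1 (qsf 0 536870912 536870912 536870912 1) ndB0q0 ndB0q1 pcB1 cut_mm_011_s Ext.none)

def k0_mm_011_s : ∃ t, chk3 f_mm_011_s t 1 1 1 = true :=
  ⟨(l 6), by decide +kernel⟩

theorem c_mm_011_s : CertNE 0 536870912 536870912 536870912 740881858 40050571 3 eng mog cd0q0 cd0q1 pd1 true false false .pnn 0 1 1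
    ndB0q0 ndB0q1 pcB1 cut_mm_011_s Ext.none :=
  certNE0 (fam := true) (s1 := false) (s2 := false) (a := 0) (b := 1) (c := 1) (cn := .pnn) (n1 := ndB0q0) (n2 := ndB0q1) (pc := pcB1) (cut := cut_mm_011_s) (xt := Ext.none) (P1 := 0) (W1 := 536870912) (P2 := 536870912) (W2 := 536870912) (P3 := 740881858) (W3 := 40050571) (N0 := 3) (En := eng) (mo := mog) (C1 := cd0q0) (C2 := cd0q1) (C3 := pd1)
    rfl k0_mm_011_s

noncomputable def cut_mm_011_t : Cut := Cut.of [[⟨3, 0, 0, 2845415833⟩]]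

noncomputable def f_mm_011_t : ℕ → ℕ → ℕ → ℕ → Bool := onCell 0 536870912 536870912 536870912 740881858 40050571
    (rowNE 3 eng mog cd0q0 cd0q1 pd1 0 true false false .pnn 0 1 1 (qsf 0 536870912 536870912 536870912 1) ndB0q0 ndB0q1 pcB1 cut_mm_011_t Ext.none)

def k0_mm_011_t : ∃ t, chk3 f_mm_011_t t 1 1 1 = true :=
  ⟨(b (l 4) (l 5)), by decide +kernel⟩

theorem c_mm_011_t : CertNE 0 536870912 536870912 536870912 740881858 40050571 3 eng mog cd0q0 cd0q1 pd1 true false false .pnn 0 1 1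
    ndB0q0 ndB0q1 pcB1 cut_mm_011_t Ext.none :=
  certNE0 (fam := true) (s1 := false) (s2 := false) (a := 0) (b := 1) (c := 1) (cn := .pnn) (n1 := ndB0q0) (n2 := ndB0q1) (pc := pcB1) (cut := cut_mm_011_t) (xt := Ext.none) (P1 := 0) (W1 := 536870912) (P2 := 536870912) (W2 := 536870912) (P3 := 740881858) (W3 := 40050571) (N0 := 3) (En := eng) (mo := mog) (C1 := cd0q0) (C2 := cd0q1) (C3 := pd1)
    rfl k0_mm_011_t

noncomputable def cut_mm_012_s : Cut := Cut.of [[⟨4, 0, 0, 1449551462⟩]]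

noncomputable def f_mm_012_s : ℕ → ℕ → ℕ → ℕ → Bool := onCell 0 536870912 536870912 536870912 740881858 40050571
    (rowNE 3 eng mog cd0q0 cd0q1 pd2 0 true false false .pnp 0 1 2 (qsf 0 536870912 536870912 536870912 2) ndB0q0 ndB0q1 pcB2 cut_mm_012_s Ext.none)

def k0_mm_012_s : ∃ t, chk3 f_mm_012_s t 1 1 1 = true :=
  ⟨(l 6), by decide +kernel⟩

theorem c_mm_012_s : CertNE 0 536870912 536870912 536870912 740881858 40050571 3 eng mog cd0q0 cd0q1 pd2 true false false .pnp 0 1 2
    ndB0q0 ndB0q1 pcB2 cut_mm_012_s Ext.none :=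
  certNE0 (fam := true) (s1 := false) (s2 := false) (a := 0) (b := 1) (c := 2) (cn := .pnp) (n1 := ndB0q0) (n2 := ndB0q1) (pc := pcB2) (cut := cut_mm_012_s) (xt := Ext.none) (P1 := 0) (W1 := 536870912) (P2 := 536870912) (W2 := 536870912) (P3 := 740881858) (W3 := 40050571) (N0 := 3) (En := eng) (mo := mog) (C1 := cd0q0) (C2 := cd0q1) (C3 := pd2)
    rfl k0_mm_012_s

noncomputable def cut_mm_012_t : Cut := Cut.of [[⟨3, 0, 0, 2845415833⟩]]

noncomputable def f_mm_012_t : ℕ → ℕ → ℕ → ℕ → Bool := onCell 0 536870912 536870912 536870912 740881858 40050571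
    (rowNE 3 eng mog cd0q0 cd0q1 pd2 0 true false false .pnp 0 1 2 (qsf 0 536870912 536870912 536870912 2) ndB0q0 ndB0q1 pcB2 cut_mm_012_t Ext.none)

def k0_mm_012_t : ∃ t, chk3 f_mm_012_t t 1 1 1 = true :=
  ⟨(b (l 4) (l 5)), by decide +kernel⟩

theorem c_mm_012_t : CertNE 0 536870912 536870912 536870912 740881858 40050571 3 eng mog cd0q0 cd0q1 pd2 true false false .pnp 0 1 2
    ndB0q0 ndB0q1 pcB2 cut_mm_012_t Ext.none :=
  certNE0 (fam := true) (s1 := false) (s2 := false) (a := 0) (b := 1) (c := 2) (cn := .pnp) (n1 := ndB0q0) (n2 := ndB0q1) (pc := pcB2) (cut := cut_mm_012_t) (xt := Ext.none) (P1 := 0) (W1 := 536870912) (P2 := 536870912) (W2 := 536870912) (P3 := 740881858) (W3 := 40050571) (N0 := 3) (En := eng) (mo := mog) (C1 := cd0q0) (C2 := cd0q1) (C3 := pd2)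
    rfl k0_mm_012_t

noncomputable def cut_mm_022_s : Cut := Cut.of [[⟨4, 0, 0, 1449551462⟩]]

noncomputable def f_mm_022_s : ℕ → ℕ → ℕ → ℕ → Bool := onCell 0 536870912 0 536870912 740881858 40050571
    (rowNE 3 eng mog cd0q0 cd0q2 pd2 0 true false false .pp 0 2 2 (qsf 0 536870912 0 536870912 2) ndB0q0 ndB0q2 pcB2 cut_mm_022_s Ext.none)

def k0_mm_022_s : ∃ t, chk3 f_mm_022_s t 1 1 1 = true :=
  ⟨(l 5), by decide +kernel⟩

theorem c_mm_022_s : CertNE 0 536870912 0 536870912 740881858 40050571 3 eng mog cd0q0 cd0q2 pd2 true false false .pp 0 2 2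
    ndB0q0 ndB0q2 pcB2 cut_mm_022_s Ext.none :=
  certNE0 (fam := true) (s1 := false) (s2 := false) (a := 0) (b := 2) (c := 2) (cn := .pp) (n1 := ndB0q0) (n2 := ndB0q2) (pc := pcB2) (cut := cut_mm_022_s) (xt := Ext.none) (P1 := 0) (W1 := 536870912) (P2 := 0) (W2 := 536870912) (P3 := 740881858) (W3 := 40050571) (N0 := 3) (En := eng) (mo := mog) (C1 := cd0q0) (C2 := cd0q2) (C3 := pd2)
    rfl k0_mm_022_s

noncomputable def cut_mm_022_t : Cut := Cut.of [[⟨3, 0, 0, 2845415833⟩]]

noncomputable def f_mm_022_t : ℕ → ℕ → ℕ → ℕ → Bool := onCell 0 536870912 0 536870912 740881858 40050571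
    (rowNE 3 eng mog cd0q0 cd0q2 pd2 0 true false false .pp 0 2 2 (qsf 0 536870912 0 536870912 2) ndB0q0 ndB0q2 pcB2 cut_mm_022_t Ext.none)

def k0_mm_022_t : ∃ t, chk3 f_mm_022_t t 1 1 1 = true :=
  ⟨(l 5), by decide +kernel⟩

theorem c_mm_022_t : CertNE 0 536870912 0 536870912 740881858 40050571 3 eng mog cd0q0 cd0q2 pd2 true false false .pp 0 2 2
    ndB0q0 ndB0q2 pcB2 cut_mm_022_t Ext.none :=
  certNE0 (fam := true) (s1 := false) (s2 := false) (a := 0) (b := 2) (c := 2) (cn := .pp) (n1 := ndB0q0) (n2 := ndB0q2) (pc := pcB2) (cut := cut_mm_022_t) (xt := Ext.none) (P1 := 0) (W1 := 536870912) (P2 := 0) (W2 := 536870912) (P3 := 740881858) (W3 := 40050571) (N0 := 3) (En := eng) (mo := mog) (C1 := cd0q0) (C2 := cd0q2) (C3 := pd2)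
    rfl k0_mm_022_t

noncomputable def cut_mm_023_s : Cut := Cut.of [[⟨4, 0, 0, 1449551462⟩]]

noncomputable def f_mm_023_s : ℕ → ℕ → ℕ → ℕ → Bool := onCell 0 536870912 0 536870912 740881858 40050571
    (rowNE 3 eng mog cd0q0 cd0q2 pd3 0 true false false .up 0 2 3 (qsf 0 536870912 0 536870912 3) ndB0q0 ndB0q2 pcB3 cut_mm_023_s Ext.none)

def k0_mm_023_s : ∃ t, chk3 f_mm_023_s t 1 1 1 = true :=
  ⟨(l 5), by decide +kernel⟩

theorem c_mm_023_s : CertNE 0 536870912 0 536870912 740881858 40050571 3 eng mog cd0q0 cd0q2 pd3 true false false .up 0 2 3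
    ndB0q0 ndB0q2 pcB3 cut_mm_023_s Ext.none :=
  certNE0 (fam := true) (s1 := false) (s2 := false) (a := 0) (b := 2) (c := 3) (cn := .up) (n1 := ndB0q0) (n2 := ndB0q2) (pc := pcB3) (cut := cut_mm_023_s) (xt := Ext.none) (P1 := 0) (W1 := 536870912) (P2 := 0) (W2 := 536870912) (P3 := 740881858) (W3 := 40050571) (N0 := 3) (En := eng) (mo := mog) (C1 := cd0q0) (C2 := cd0q2) (C3 := pd3)
    rfl k0_mm_023_s

noncomputable def cut_mm_023_t : Cut := Cut.of [[⟨3, 0, 0, 2845415833⟩]]

noncomputable def f_mm_023_t : ℕ → ℕ → ℕ → ℕ → Bool := onCell 0 536870912 0 536870912 740881858 40050571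
    (rowNE 3 eng mog cd0q0 cd0q2 pd3 0 true false false .up 0 2 3 (qsf 0 536870912 0 536870912 3) ndB0q0 ndB0q2 pcB3 cut_mm_023_t Ext.none)

def k0_mm_023_t : ∃ t, chk3 f_mm_023_t t 1 1 1 = true :=
  ⟨(l 5), by decide +kernel⟩

theorem c_mm_023_t : CertNE 0 536870912 0 536870912 740881858 40050571 3 eng mog cd0q0 cd0q2 pd3 true false false .up 0 2 3
    ndB0q0 ndB0q2 pcB3 cut_mm_023_t Ext.none :=
  certNE0 (fam := true) (s1 := false) (s2 := false) (a := 0) (b := 2) (c := 3) (cn := .up) (n1 := ndB0q0) (n2 := ndB0q2) (pc := pcB3) (cut := cut_mm_023_t) (xt := Ext.none) (P1 := 0) (W1 := 536870912) (P2 := 0) (W2 := 536870912) (P3 := 740881858) (W3 := 40050571) (N0 := 3) (En := eng) (mo := mog) (C1 := cd0q0) (C2 := cd0q2) (C3 := pd3)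
    rfl k0_mm_023_t

noncomputable def cut_mm_101_s : Cut := Cut.of [[⟨4, 0, 0, 1449551462⟩], [⟨0, 1, 0, 67108864⟩, ⟨1, 0, 0, 67108864⟩, ⟨2, 1, 0, 67108864⟩]]

noncomputable def f_mm_101_s : ℕ → ℕ → ℕ → ℕ → Bool := onCell 536870912 536870912 0 536870912 740881858 40050571
    (rowNE 3 eng mog cd0q1 cd0q0 pd1 0 true false false .npn 1 0 1 (qsf 536870912 536870912 0 536870912 1) ndB0q1 ndB0q0 pcB1 cut_mm_101_s Ext.none)

def k0_mm_101_s : ∃ t, chk3 f_mm_101_s t 1 1 1 = true :=
  ⟨(l 6), by decide +kernel⟩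

theorem c_mm_101_s : CertNE 536870912 536870912 0 536870912 740881858 40050571 3 eng mog cd0q1 cd0q0 pd1 true false false .npn 1 0 1
    ndB0q1 ndB0q0 pcB1 cut_mm_101_s Ext.none :=
  certNE0 (fam := true) (s1 := false) (s2 := false) (a := 1) (b := 0) (c := 1) (cn := .npn) (n1 := ndB0q1) (n2 := ndB0q0) (pc := pcB1) (cut := cut_mm_101_s) (xt := Ext.none) (P1 := 536870912) (W1 := 536870912) (P2 := 0) (W2 := 536870912) (P3 := 740881858) (W3 := 40050571) (N0 := 3) (En := eng) (mo := mog) (C1 := cd0q1) (C2 := cd0q0) (C3 := pd1)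
    rfl k0_mm_101_s

noncomputable def cut_mm_101_t : Cut := Cut.of [[⟨3, 0, 0, 2845415833⟩], [⟨0, 1, 0, 67108864⟩, ⟨1, 0, 0, 67108864⟩, ⟨2, 1, 0, 67108864⟩]]

noncomputable def f_mm_101_t : ℕ → ℕ → ℕ → ℕ → Bool := onCell 536870912 536870912 0 536870912 740881858 40050571
    (rowNE 3 eng mog cd0q1 cd0q0 pd1 0 true false false .npn 1 0 1 (qsf 536870912 536870912 0 536870912 1) ndB0q1 ndB0q0 pcB1 cut_mm_101_t Ext.none)

def k0_mm_101_t : ∃ t, chk3 f_mm_101_t t 1 1 1 = true :=
  ⟨(a (l 4) (b (a (l 4) (b (a (l 4) (b (a (l 4) (b (l 14) (l 4))) (l 4))) (l 4))) (l 4))), by decide +kernel⟩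

theorem c_mm_101_t : CertNE 536870912 536870912 0 536870912 740881858 40050571 3 eng mog cd0q1 cd0q0 pd1 true false false .npn 1 0 1
    ndB0q1 ndB0q0 pcB1 cut_mm_101_t Ext.none :=
  certNE0 (fam := true) (s1 := false) (s2 := false) (a := 1) (b := 0) (c := 1) (cn := .npn) (n1 := ndB0q1) (n2 := ndB0q0) (pc := pcB1) (cut := cut_mm_101_t) (xt := Ext.none) (P1 := 536870912) (W1 := 536870912) (P2 := 0) (W2 := 536870912) (P3 := 740881858) (W3 := 40050571) (N0 := 3) (En := eng) (mo := mog) (C1 := cd0q1) (C2 := cd0q0) (C3 := pd1)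
    rfl k0_mm_101_t

noncomputable def cut_mm_102_s : Cut := Cut.of [[⟨4, 0, 0, 1449551462⟩], [⟨0, 1, 0, 67108864⟩, ⟨1, 0, 0, 67108864⟩, ⟨2, 1, 0, 67108864⟩]]

noncomputable def f_mm_102_s : ℕ → ℕ → ℕ → ℕ → Bool := onCell 536870912 536870912 0 536870912 740881858 40050571
    (rowNE 3 eng mog cd0q1 cd0q0 pd2 0 true false false .npp 1 0 2 (qsf 536870912 536870912 0 536870912 2) ndB0q1 ndB0q0 pcB2 cut_mm_102_s Ext.none)

def k0_mm_102_s : ∃ t, chk3 f_mm_102_s t 1 1 1 = true :=
  ⟨(l 6), by decide +kernel⟩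

theorem c_mm_102_s : CertNE 536870912 536870912 0 536870912 740881858 40050571 3 eng mog cd0q1 cd0q0 pd2 true false false .npp 1 0 2
    ndB0q1 ndB0q0 pcB2 cut_mm_102_s Ext.none :=
  certNE0 (fam := true) (s1 := false) (s2 := false) (a := 1) (b := 0) (c := 2) (cn := .npp) (n1 := ndB0q1) (n2 := ndB0q0) (pc := pcB2) (cut := cut_mm_102_s) (xt := Ext.none) (P1 := 536870912) (W1 := 536870912) (P2 := 0) (W2 := 536870912) (P3 := 740881858) (W3 := 40050571) (N0 := 3) (En := eng) (mo := mog) (C1 := cd0q1) (C2 := cd0q0) (C3 := pd2)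
    rfl k0_mm_102_s

noncomputable def cut_mm_102_t : Cut := Cut.of [[⟨3, 0, 0, 2845415833⟩], [⟨0, 1, 0, 67108864⟩, ⟨1, 0, 0, 67108864⟩, ⟨2, 1, 0, 67108864⟩]]

noncomputable def f_mm_102_t : ℕ → ℕ → ℕ → ℕ → Bool := onCell 536870912 536870912 0 536870912 740881858 40050571
    (rowNE 3 eng mog cd0q1 cd0q0 pd2 0 true false false .npp 1 0 2 (qsf 536870912 536870912 0 536870912 2) ndB0q1 ndB0q0 pcB2 cut_mm_102_t Ext.none)

def k0_mm_102_t : ∃ t, chk3 f_mm_102_t t 1 1 1 = true :=
  ⟨(a (l 4) (b (a (l 4) (b (a (l 4) (b (a (l 4) (b (l 14) (l 4))) (l 4))) (l 4))) (l 4))), by decide +kernel⟩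

theorem c_mm_102_t : CertNE 536870912 536870912 0 536870912 740881858 40050571 3 eng mog cd0q1 cd0q0 pd2 true false false .npp 1 0 2
    ndB0q1 ndB0q0 pcB2 cut_mm_102_t Ext.none :=
  certNE0 (fam := true) (s1 := false) (s2 := false) (a := 1) (b := 0) (c := 2) (cn := .npp) (n1 := ndB0q1) (n2 := ndB0q0) (pc := pcB2) (cut := cut_mm_102_t) (xt := Ext.none) (P1 := 536870912) (W1 := 536870912) (P2 := 0) (W2 := 536870912) (P3 := 740881858) (W3 := 40050571) (N0 := 3) (En := eng) (mo := mog) (C1 := cd0q1) (C2 := cd0q0) (C3 := pd2)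
    rfl k0_mm_102_t

noncomputable def cut_mm_112_s : Cut := Cut.of [[⟨4, 0, 0, 1449551462⟩]]

noncomputable def f_mm_112_s : ℕ → ℕ → ℕ → ℕ → Bool := onCell 536870912 536870912 536870912 536870912 740881858 40050571
    (rowNE 3 eng mog cd0q1 cd0q1 pd2 0 true false false .dn 1 1 2 (qsf 536870912 536870912 536870912 536870912 2) ndB0q1 ndB0q1 pcB2 cut_mm_112_s Ext.none)

def k0_mm_112_s : ∃ t, chk3 f_mm_112_s t 1 1 1 = true :=
  ⟨(l 4), by decide +kernel⟩

theorem c_mm_112_s : CertNE 536870912 536870912 536870912 536870912 740881858 40050571 3 eng mog cd0q1 cd0q1 pd2 true false false .dn 1 1 2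
    ndB0q1 ndB0q1 pcB2 cut_mm_112_s Ext.none :=
  certNE0 (fam := true) (s1 := false) (s2 := false) (a := 1) (b := 1) (c := 2) (cn := .dn) (n1 := ndB0q1) (n2 := ndB0q1) (pc := pcB2) (cut := cut_mm_112_s) (xt := Ext.none) (P1 := 536870912) (W1 := 536870912) (P2 := 536870912) (W2 := 536870912) (P3 := 740881858) (W3 := 40050571) (N0 := 3) (En := eng) (mo := mog) (C1 := cd0q1) (C2 := cd0q1) (C3 := pd2)
    rfl k0_mm_112_s

noncomputable def cut_mm_112_t : Cut := Cut.of [[⟨3, 0, 0, 2845415833⟩]]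

noncomputable def f_mm_112_t : ℕ → ℕ → ℕ → ℕ → Bool := onCell 536870912 536870912 536870912 536870912 740881858 40050571
    (rowNE 3 eng mog cd0q1 cd0q1 pd2 0 true false false .dn 1 1 2 (qsf 536870912 536870912 536870912 536870912 2) ndB0q1 ndB0q1 pcB2 cut_mm_112_t Ext.none)

def k0_mm_112_t : ∃ t, chk3 f_mm_112_t t 1 1 1 = true :=
  ⟨(l 4), by decide +kernel⟩

theorem c_mm_112_t : CertNE 536870912 536870912 536870912 536870912 740881858 40050571 3 eng mog cd0q1 cd0q1 pd2 true false false .dn 1 1 2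
    ndB0q1 ndB0q1 pcB2 cut_mm_112_t Ext.none :=
  certNE0 (fam := true) (s1 := false) (s2 := false) (a := 1) (b := 1) (c := 2) (cn := .dn) (n1 := ndB0q1) (n2 := ndB0q1) (pc := pcB2) (cut := cut_mm_112_t) (xt := Ext.none) (P1 := 536870912) (W1 := 536870912) (P2 := 536870912) (W2 := 536870912) (P3 := 740881858) (W3 := 40050571) (N0 := 3) (En := eng) (mo := mog) (C1 := cd0q1) (C2 := cd0q1) (C3 := pd2)
    rfl k0_mm_112_t

noncomputable def cut_mm_113_s : Cut := Cut.of [[⟨4, 0, 0, 1449551462⟩]]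

noncomputable def f_mm_113_s : ℕ → ℕ → ℕ → ℕ → Bool := onCell 536870912 536870912 536870912 536870912 740881858 40050571
    (rowNE 3 eng mog cd0q1 cd0q1 pd3 0 true false false .nn 1 1 3 (qsf 536870912 536870912 536870912 536870912 3) ndB0q1 ndB0q1 pcB3 cut_mm_113_s Ext.none)

def k0_mm_113_s : ∃ t, chk3 f_mm_113_s t 1 1 1 = true :=
  ⟨(l 4), by decide +kernel⟩

theorem c_mm_113_s : CertNE 536870912 536870912 536870912 536870912 740881858 40050571 3 eng mog cd0q1 cd0q1 pd3 true false false .nn 1 1 3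
    ndB0q1 ndB0q1 pcB3 cut_mm_113_s Ext.none :=
  certNE0 (fam := true) (s1 := false) (s2 := false) (a := 1) (b := 1) (c := 3) (cn := .nn) (n1 := ndB0q1) (n2 := ndB0q1) (pc := pcB3) (cut := cut_mm_113_s) (xt := Ext.none) (P1 := 536870912) (W1 := 536870912) (P2 := 536870912) (W2 := 536870912) (P3 := 740881858) (W3 := 40050571) (N0 := 3) (En := eng) (mo := mog) (C1 := cd0q1) (C2 := cd0q1) (C3 := pd3)
    rfl k0_mm_113_s

noncomputable def cut_mm_113_t : Cut := Cut.of [[⟨3, 0, 0, 2845415833⟩]]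

noncomputable def f_mm_113_t : ℕ → ℕ → ℕ → ℕ → Bool := onCell 536870912 536870912 536870912 536870912 740881858 40050571
    (rowNE 3 eng mog cd0q1 cd0q1 pd3 0 true false false .nn 1 1 3 (qsf 536870912 536870912 536870912 536870912 3) ndB0q1 ndB0q1 pcB3 cut_mm_113_t Ext.none)

def k0_mm_113_t : ∃ t, chk3 f_mm_113_t t 1 1 1 = true :=
  ⟨(l 4), by decide +kernel⟩

theorem c_mm_113_t : CertNE 536870912 536870912 536870912 536870912 740881858 40050571 3 eng mog cd0q1 cd0q1 pd3 true false false .nn 1 1 3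
    ndB0q1 ndB0q1 pcB3 cut_mm_113_t Ext.none :=
  certNE0 (fam := true) (s1 := false) (s2 := false) (a := 1) (b := 1) (c := 3) (cn := .nn) (n1 := ndB0q1) (n2 := ndB0q1) (pc := pcB3) (cut := cut_mm_113_t) (xt := Ext.none) (P1 := 536870912) (W1 := 536870912) (P2 := 536870912) (W2 := 536870912) (P3 := 740881858) (W3 := 40050571) (N0 := 3) (En := eng) (mo := mog) (C1 := cd0q1) (C2 := cd0q1) (C3 := pd3)
    rfl k0_mm_113_t

noncomputable def cut_mm_123_s : Cut := Cut.of [[⟨4, 0, 0, 1449551462⟩]]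

noncomputable def f_mm_123_s : ℕ → ℕ → ℕ → ℕ → Bool := onCell 536870912 536870912 0 536870912 740881858 40050571
    (rowNE 3 eng mog cd0q1 cd0q2 pd3 0 true false false .npn 1 2 3 (qsf 536870912 536870912 0 536870912 3) ndB0q1 ndB0q2 pcB3 cut_mm_123_s Ext.none)

def k0_mm_123_s : ∃ t, chk3 f_mm_123_s t 1 1 1 = true :=
  ⟨(l 6), by decide +kernel⟩

theorem c_mm_123_s : CertNE 536870912 536870912 0 536870912 740881858 40050571 3 eng mog cd0q1 cd0q2 pd3 true false false .npn 1 2 3
    ndB0q1 ndB0q2 pcB3 cut_mm_123_s Ext.none :=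
  certNE0 (fam := true) (s1 := false) (s2 := false) (a := 1) (b := 2) (c := 3) (cn := .npn) (n1 := ndB0q1) (n2 := ndB0q2) (pc := pcB3) (cut := cut_mm_123_s) (xt := Ext.none) (P1 := 536870912) (W1 := 536870912) (P2 := 0) (W2 := 536870912) (P3 := 740881858) (W3 := 40050571) (N0 := 3) (En := eng) (mo := mog) (C1 := cd0q1) (C2 := cd0q2) (C3 := pd3)
    rfl k0_mm_123_s

noncomputable def cut_mm_123_t : Cut := Cut.of [[⟨3, 0, 0, 2845415833⟩]]

noncomputable def f_mm_123_t : ℕ → ℕ → ℕ → ℕ → Bool := onCell 536870912 536870912 0 536870912 740881858 40050571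
    (rowNE 3 eng mog cd0q1 cd0q2 pd3 0 true false false .npn 1 2 3 (qsf 536870912 536870912 0 536870912 3) ndB0q1 ndB0q2 pcB3 cut_mm_123_t Ext.none)

def k0_mm_123_t : ∃ t, chk3 f_mm_123_t t 1 1 1 = true :=
  ⟨(a (l 5) (l 4)), by decide +kernel⟩

theorem c_mm_123_t : CertNE 536870912 536870912 0 536870912 740881858 40050571 3 eng mog cd0q1 cd0q2 pd3 true false false .npn 1 2 3
    ndB0q1 ndB0q2 pcB3 cut_mm_123_t Ext.none :=
  certNE0 (fam := true) (s1 := false) (s2 := false) (a := 1) (b := 2) (c := 3) (cn := .npn) (n1 := ndB0q1) (n2 := ndB0q2) (pc := pcB3) (cut := cut_mm_123_t) (xt := Ext.none) (P1 := 536870912) (W1 := 536870912) (P2 := 0) (W2 := 536870912) (P3 := 740881858) (W3 := 40050571) (N0 := 3) (En := eng) (mo := mog) (C1 := cd0q1) (C2 := cd0q2) (C3 := pd3)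
    rfl k0_mm_123_t

noncomputable def cut_mm_202_s : Cut := Cut.of [[⟨4, 0, 0, 1449551462⟩], [⟨0, 1, 0, 67108864⟩, ⟨1, 0, 0, 67108864⟩, ⟨2, 1, 0, 67108864⟩]]

noncomputable def f_mm_202_s : ℕ → ℕ → ℕ → ℕ → Bool := onCell 0 536870912 0 536870912 740881858 40050571
    (rowNE 3 eng mog cd0q2 cd0q0 pd2 0 true false false .pp 2 0 2 (qsf 0 536870912 0 536870912 2) ndB0q2 ndB0q0 pcB2 cut_mm_202_s Ext.none)

def k0_mm_202_s : ∃ t, chk3 f_mm_202_s t 1 1 1 = true :=
  ⟨(l 6), by decide +kernel⟩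

theorem c_mm_202_s : CertNE 0 536870912 0 536870912 740881858 40050571 3 eng mog cd0q2 cd0q0 pd2 true false false .pp 2 0 2
    ndB0q2 ndB0q0 pcB2 cut_mm_202_s Ext.none :=
  certNE0 (fam := true) (s1 := false) (s2 := false) (a := 2) (b := 0) (c := 2) (cn := .pp) (n1 := ndB0q2) (n2 := ndB0q0) (pc := pcB2) (cut := cut_mm_202_s) (xt := Ext.none) (P1 := 0) (W1 := 536870912) (P2 := 0) (W2 := 536870912) (P3 := 740881858) (W3 := 40050571) (N0 := 3) (En := eng) (mo := mog) (C1 := cd0q2) (C2 := cd0q0) (C3 := pd2)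
    rfl k0_mm_202_s

end Pool.Agent.Strip051.G.I69_7273.Tab.CS.BA00

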