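import Pool.Agent.Strip051.G.I69_7273.Tab
import Pool.Agent.Strip051.PB.StripB

/-! # Strips, near vertex: certificates 4 (generated) -/

set_option linter.all false
set_option maxRecDepth 100000

namespace Pool.Agent.Strip051.G.I69_7273.Tab.CS.BA00

open Pool.Agent.Strip051.PB Pool.Agent.Strip051.PB.T
open Pool.Agent.Strip051.G.I69_7273.Tab

noncomputable def cut_mm_202_t : Cut := Cut.of [[⟨3, 0, 0, 2845415833⟩], [⟨0, 1, 0, 67108864⟩, ⟨1, 0, 0, 67108864⟩, ⟨2, 1, 0, 67108864⟩]]

noncomputable def f_mm_202_t : ℕ → ℕ → ℕ → ℕ → Bool := onCell 0 536870912 1073741824 536870912 740881858 40050571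
    (rowNE 3 eng mog cd0q2 cd0q0 pd2 1 true false false .pp 2 0 2 (qsf 0 536870912 0 536870912 2) ndB0q2 ndB0q0 pcB2 cut_mm_202_t Ext.none)

def k0_mm_202_t : ∃ t, chk3 f_mm_202_t t 2 2 1 = true :=
  ⟨(b (l 6) (a (l 6) (b (l 6) (a (l 6) (a (l 6) (b (a (l 6) (a (l 6) (b (l 6) (l 16586248)))) (b (c (l 16585472) (a (l 16569056) (l 16564312))) (c (l 16594192) (a (l 16578464) (l 16595320)))))))))), by decide +kernel⟩

def k1_mm_202_t : ∃ t, chk3 f_mm_202_t t 6 8 1 = true :=
  ⟨(l 1), by decide +kernel⟩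

def k2_mm_202_t : ∃ t, chk3 f_mm_202_t t 12 9 1 = true :=
  ⟨(b (l 1) (a (l 6) (a (l 6) (b (l 6) (b (c (l 16575440) (a (l 6) (l 16548464))) (c (l 16583408) (l 16575792))))))), by decide +kernel⟩

def k3_mm_202_t : ∃ t, chk3 f_mm_202_t t 13 18 1 = true :=
  ⟨(b (b (l 1) (a (l 1) (a (b (l 1) (a (l 1) (b (l 1) (l 16583080)))) (b (a (b (l 1) (l 16588328)) (c (b (l 16600016) (l 16603080)) (b (l 16593656) (l 16596744)))) (a (c (l 16596232) (b (l 16587928) (l 16591008))) (c (l 16607624) (l 16601336))))))) (a (a (b (l 1) (b (l 1) (a (l 1) (l 16583352)))) (b (b (l 1) (a (l 1) (c (l 16575576) (l 16567272)))) (b (a (c (l 16571096) (l 16562200)) (c (l 16581632) (l 16573400))) (a (l 16593864) (l 16604624))))) (a (b (b (a (b (l 1) (l 16578024)) (c (l 16591168) (l 16583960))) (a (c (l 16586312) (l 16578616)) (c (l 16597160) (l 16590032)))) (c (a (l 16616176) (l 16616400)) (b (l 16600848) (l 16606720)))) (b (b (c (a (l 16602264) (l 16613568)) (a (l 16595568) (l 16607344))) (c (l 16624288) (a (l 16601552) (l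 16613248)))) (c (b (l 16630024) (l 16635648)) (b (a (l 16607424) (l 16619040)) (a (l 16613184) (l 16624728)))))))), by decide +kernel⟩

def k4_mm_202_t : ∃ t, chk3 f_mm_202_t t 13 19 1 = true :=
  ⟨(b (a (b (a (c (a (l 16587136) (l 16544400)) (b (l 16579240) (l 16564264))) (c (c (a (l 16587808) (l 16597960)) (l 16610096)) (a (l 16577224) (l 16609168)))) (b (c (a (l 16558728) (l 16599480)) (a (l 16570128) (l 16612296))) (a (a (l 16533976) (l 16543808)) (c (l 16604936) (a (l 16591504) (l 16602264)))))) (b (b (a (c (l 16619616) (l 16612480)) (c (l 16641152) (a (l 16618824) (l 16630304)))) (a (c (a (l 16609384) (l 16619888)) (l 16618128)) (c (a (l 16630576) (l 16641480)) (a (l 16624368) (l 16635776))))) (b (a (c (l 16620088) (l 16623672)) (c (l 16641320) (a (l 16629800) (l 16641144)))) (a (c (l 16625384) (a (l 16613104) (l 16624048))) (c (l 16646488) (a (l 16635136) (l 16646408))))))) (c (a (a (b (l 16593512) (l 16601136)) (b (l 16612888) (l 16620032))) (a (b (a (l 16627960) (l 16638216)) (l 16640720))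 (b (a (l 16648664) (l 16659344)) (a (l 16657648) (l 16668976))))) (a (a (b (b (l 16560536) (l 16566056)) (c (l 16597512) (l 16571544))) (a (b (l 16599728) (l 16610304)) (b (l 16610368) (l 16620800)))) (a (a (b (l 16621104) (l 16631408)) (b (l 16631952) (l 16642120))) (b (b (a (l 16640360) (l 16651584)) (l 16656344)) (a (l 16653008) (l 16664096))))))), by decide +kernel⟩

def k5_mm_202_t : ∃ t, chk3 f_mm_202_t t 7 8 1 = true :=
  ⟨(a (b (l 1) (a (b (l 1) (b (l 1) (a (l 1) (b (a (l 1) (l 14)) (b (a (a (l 1) (l 14)) (l 14)) (a (a (c (l 16618152) (l 16612776)) (l 16632824)) (c (l 16635368) (l 16630536)))))))) (b (l 14) (b (l 14) (b (l 14) (b (l 14) (b (l 14) (b (l 14) (a (a (l 16649024) (l 16664664)) (a (l 16686208) (c (l 16699224) (l 16696496)))))))))))) (b (l 14) (b (l 14) (b (l 14) (b (l 14) (b (l 14) (b (l 14) (a (b (l 14) (a (a (c (l 16716312) (l 16716800)) (a (l 16728520) (l 16740064))) (b (l 14) (b (l 14) (a (a (l 16749304) (c (l 16758728) (l 16756680))) (b (l 14) (b (l 14) (b (l 14) (a (a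 (l 16762656) (c (l 16767408) (l 16768376))) (a (a (l 16770696) (a (l 16772424) (l 16773576))) (a (a (l 16774736) (a (l 16775600) (l 16776176))) (a (a (l 16776432) (a (l 16777184) (l 4))) (l 4))))))))))))) (l 4))))))))), by decide +kernel⟩

def k6_mm_202_t : ∃ t, chk3 f_mm_202_t t 28 18 1 = true :=
  ⟨(a (b (b (b (a (l 1) (b (a (l 1) (c (l 16614768) (l 16609216))) (a (c (l 16611632) (l 16605912)) (l 16615152)))) (a (b (a (l 1) (l 16605768)) (c (l 16608728) (l 16602760))) (c (l 16619320) (b (l 16612208) (l 16615272))))) (c (b (a (l 16613288) (l 16625328)) (a (l 16619264) (l 16631216))) (b (a (l 16607368) (l 16619816)) (a (l 16613416) (l 16625784))))) (b (a (b (c (l 16625120) (l 16619344)) (c (l 16630856) (l 16625168))) (b (c (l 16636984) (l 16631632)) (c (l 16642632) (l 16637384)))) (c (a (b (l 16636472) (l 16641976)) (b (l 16648168) (l 16653600))) (a (b (l 16630888) (l 16636496)) (b (l 16643024) (l 16648568)))))) (b (b (b (a (c (b (l 16624576) (l 16627616)) (b (l 16619328) (l 16622400))) (c (l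 16645120) (b (l 16633584) (l 16636600)))) (a (c (l 16632120) (b (l 16625448) (l 16628464))) (c (l 16645776) (b (l 16639592) (l 16642552))))) (c (b (a (l 16638024) (l 16651568)) (a (l 16643808) (l 16657248))) (b (a (l 16632936) (b (l 16645488) (l 16648400))) (a (l 16638808) (l 16657960))))) (a (b (b (c (l 16649480) (l 16644576)) (c (l 16655040) (l 16650240))) (b (c (l 16660488) (l 16655808)) (c (l 16665832) (l 16661272)))) (b (b (c (l 16662808) (l 16668872)) (c (l 16668264) (l 16663960))) (b (c (l 16673616) (l 16669432)) (c (l 16678864) (l 16674808))))))), by decide +kernel⟩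

def k7_mm_202_t : ∃ t, chk3 f_mm_202_t t 58 18 1 = true :=
  ⟨(b (b (b (a (c (b (l 16652992) (l 16655912)) (b (l 16648672) (l 16651632))) (c (b (l 16668336) (l 16671176)) (b (l 16664528) (l 16667416)))) (a (c (l 16665472) (b (l 16654560) (l 16657464))) (c (b (l 16674000) (l 16676792)) (b (l 16670288) (l 16673128))))) (a (c (b (l 16676376) (l 16671448)) (b (b (l 16660344) (l 16663200)) (b (l 16666032) (l 16668840)))) (b (c (b (l 16679552) (l 16682288)) (b (l 16675952) (l 16678744))) (c (b (l 16685000) (l 16687688)) (b (l 16681512) (l 16684256)))))) (a (b (b (c (l 16676896) (c (l 16674016) (l 16671952))) (c (l 16682240) (c (l 16679448) (l 16677448)))) (c (b (l 16687480) (l 16703104)) (b (c (l 16684784) (l 16682848)) (c (l 16690032) (l 16688160))))) (b (c (b (c (l 16692448) (l 16690872)) (c (l 16697632) (l 16696128))) (b (c (l 16689200) (l 16687440)) (c (l 16694520) (l 16692824)))) (c (a (b (l 16698304) (l 16703360)) (b (l 16705728) (l 16710728))) (b (c (l 16699744) (l 16698112)) (c (l 16704880)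 (l 16703320))))))), by decide +kernel⟩

def k8_mm_202_t : ∃ t, chk3 f_mm_202_t t 59 18 1 = true :=
  ⟨(b (a (b (c (b (b (l 16684328) (l 16687104)) (b (l 16689848) (l 16692568))) (b (b (a (l 16676856) (l 16685288)) (a (l 16679696) (l 16688096))) (b (l 16690624) (l 16694712)))) (c (b (b (l 16695256) (l 16697928)) (b (l 16700568) (l 16703192))) (b (b (l 16697464) (l 16700200)) (b (l 16702904) (l 16705584))))) (a (b (b (c (b (l 16696696) (l 16699408)) (b (l 16693864) (l 16696632))) (c (l 16708680) (b (l 16699384) (l 16702112)))) (c (b (l 16713960) (l 16719136)) (b (b (l 16704808) (l 16707488)) (b (l 16710144) (l 16712784))))) (b (c (b (b (l 16705120) (l 16707800)) (b (l 16710448) (l 16713072))) (b (b (l 16702584) (l 16705320)) (b (l 16708032) (l 16710720)))) (c (b (b (l 16715672) (l 16718256)) (b (l 16720808) (l 16723336))) (b (b (l 16713392) (l 16716032)) (b (l 16718656) (l 16721256))))))) (b (a (c (a (b (l 16703152) (l 16708272)) (b (l 16710992) (l 16726536))) (b (b (l 16708248) (l 16710880))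 (b (l 16713496) (l 16716088)))) (b (c (a (l 16724216) (b (l 16725840) (l 16728320))) (a (b (l 16715392) (l 16717984)) (c (l 16725632) (l 16729832)))) (c (a (b (l 16722728) (l 16725200)) (b (l 16730784) (l 16733216))) (a (c (l 16722384) (l 16721248)) (c (l 16730664) (l 16734944)))))) (b (a (a (b (l 16716008) (l 16718536)) (c (l 16731504) (c (l 16719312) (l 16718088)))) (c (a (b (l 16727648) (l 16730072)) (b (l 16735632) (l 16738024))) (a (c (l 16727392) (l 16726344)) (b (l 16739176) (l 16741648))))) (c (b (a (l 16726088) (c (l 16742080) (l 16739976))) (a (l 16728512) (a (l 16734856) (l 16747992)))) (a (c (a (l 16716416) (l 16724304)) (a (l 16715104) (l 16723160))) (a (c (l 16732320) (l 16736592)) (b (l 16744104) (c (l 16741680) (l 16740904))))))))), by decide +kernel⟩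

def k9_mm_202_t : ∃ t, chk3 f_mm_202_t t 28 19 1 = true :=
  ⟨(a (a (b (b (c (b (l 16647368) (l 16652648)) (b (l 16642008) (l 16647416))) (c (l 16660368) (b (l 16652720) (l 16657936)))) (b (c (l 16670296) (b (l 16663048) (l 16647104))) (c (l 16679832) (b (l 16652032) (l 16677832))))) (b (b (c (a (l 16679576) (l 16674960)) (b (l 16654008) (l 16659352))) (c (b (l 16669240) (l 16653272)) (b (l 16664600) (l 16669752)))) (b (c (l 16681568) (b (l 16674816) (l 16658816))) (c (l 16691000) (b (l 16663704) (l 16668488)))))) (a (b (b (c (b (l 16671072) (l 16676208)) (b (l 16666640) (l 16671912))) (c (b (l 16681248) (l 16665216)) (b (l 16677088) (l 16682184)))) (b (c (b (l 16670064) (l 16695784)) (b (l 16697664) (a (l 16688928) (l 16695280)))) (c (b (l 16700448) (l 16705008)) (b (a (l 16693776) (l 16700104)) (a (l 16698528) (l 16704824)))))) (b (b (c (b (l 16684016) (l 16689064)) (b (l 16690576) (l 16695768))) (c (b (l 16704504) (a (l 16695624) (l 16702144))) (b (l 16700872) (l 16705880)))) (b (a (c (l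 16702768) (b (l 16696960) (l 16701824))) (c (l 16714472) (c (l 16717448) (l 16715768)))) (b (c (l 16712912) (a (l 16706608) (l 16723776))) (c (l 16717408) (a (l 16700808) (b (l 16716792) (l 16719088))))))))), by decide +kernel⟩

def k10_mm_202_t : ∃ t, chk3 f_mm_202_t t 58 38 1 = true :=
  ⟨(b (c (a (b (l 16708152) (l 16713104)) (a (b (l 16708328) (l 16713192)) (b (l 16715632) (l 16720448)))) (a (a (b (l 16690664) (l 16695784)) (b (l 16697944) (l 16703024))) (a (b (l 16705400) (l 16710424)) (b (l 16723496) (l 16723224))))) (b (c (a (l 16714024) (a (l 16717976) (l 16735656))) (a (a (l 16700824) (l 16708008)) (b (l 16723136) (l 16725568)))) (c (a (a (l 16708824) (l 16715672)) (a (l 16733152) (b (l 16728664) (l 16730960)))) (a (c (l 16710112) (l 16708536)) (a (l 16730704) (c (l 16728248) (l 16727096))))))), by decide +kernel⟩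

def k11_mm_202_t : ∃ t, chk3 f_mm_202_t t 59 38 1 = true :=
  ⟨(b (b (b (c (a (l 16730920) (a (l 16737216) (l 16750320))) (a (a (l 16719528) (l 16727456)) (a (l 16735512) (c (l 16744072) (l 16743336))))) (c (a (b (l 16737960) (l 16739144)) (a (l 16739560) (l 16750008))) (a (a (l 16722008) (l 16729904)) (a (l 16743184) (c (l 16746440) (l 16745752)))))) (a (c (a (l 16733080) (a (l 16743960) (l 16742512))) (a (c (l 16726256) (l 16725104)) (c (l 16734024) (l 16733048)))) (c (a (b (l 16747120) (l 16749416)) (c (b (l 16749944) (l 16757432)) (a (l 16748552) (l 16757760)))) (b (a (l 16745584) (c (l 16748792) (l 16753392))) (a (l 16746656) (c (l 16756368) (l 16753152))))))) (c (a (c (b (a (l 16732960) (l 16745600)) (a (l 16737504) (a (l 16743000) (l 16746696)))) (a (b (l 16732040) (l 16736672)) (b (l 16744840) (l 16749408)))) (b (b (a (l 16751696) (c (l 16759664) (l 16759192))) (a (a (l 16746800) (l 16750624)) (a (c (l 16754704) (l 16754232)) (a (l 16757384) (l 16754088))))) (b (b (a (l 16750392) (a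 (l 16756136) (l 16760008))) (a (l 16756744) (a (l 16757240) (l 16761104)))) (a (c (a (l 16751536) (l 16755288)) (l 16758152)) (a (a (l 16757928) (l 16754600)) (b (l 16756952) (l 16758040))))))) (b (b (c (a (l 16738968) (a (l 16745448) (l 16756056))) (a (l 16737968) (a (l 16744720) (l 16755512)))) (a (a (l 16731728) (l 16744760)) (a (c (l 16747776) (l 16747088)) (a (l 16756080) (a (l 16761736) (l 16761152)))))) (b (a (a (l 16734104) (l 16747112)) (a (a (l 16747776) (l 16757000)) (a (c (l 16756008) (l 16755512)) (c (l 16760008) (l 16762224))))) (a (a (l 16736464) (l 16748136)) (b (a (l 16756736) (a (l 16757480) (l 16764136))) (a (l 16755272) (a (l 16758624) (l 16765272))))))))), by decide +kernel⟩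

def k12_mm_202_t : ∃ t, chk3 f_mm_202_t t 58 39 1 = true :=
  ⟨(b (a (b (a (c (l 16713528) (l 16710648)) (c (l 16709840) (l 16728232))) (c (a (l 16707656) (l 16709168)) (b (l 16728256) (l 16725376)))) (b (c (a (b (l 16726136) (l 16728416)) (a (l 16722096) (l 16725680))) (a (l 16731552) (a (l 16741032) (l 16739528)))) (b (c (a (l 16730680) (l 16737736)) (a (l 16728536) (l 16735912))) (c (a (l 16732920) (l 16729472)) (a (l 16730864) (l 16738224)))))) (b (a (c (l 16726032) (c (a (l 16720824) (l 16727760)) (l 16728216))) (b (c (a (l 16735144) (l 16731672)) (a (l 16733184) (l 16745760))) (c (l 16740840) (a (l 16735472) (a (l 16740944) (l 16744632)))))) (c (a (l 16730448) (c (l 16744424) (l 16743720))) (b (a (a (l 16723616) (l 16730608)) (a (l 16742992) (a (l 16743200) (l 16746880)))) (a (a (l 16725896) (l 16732864)) (a (a (l 16738192) (l 16741792)) (a (l 16745424) (l 16749096)))))))), by decide +kernel⟩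

def k13_mm_202_t : ∃ t, chk3 f_mm_202_t t 59 156 1 = true :=
  ⟨(c (a (a (c (a (l 16740168) (l 16743776)) (l 16746464)) (c (a (l 16747424) (l 16745856)) (a (l 16746792) (l 16755784)))) (a (a (b (l 16748232) (l 16750416)) (a (b (l 16756304) (l 16758480)) (l 16760600))) (b (c (a (l 16761232) (l 16760440)) (a (l 16760888) (a (l 16763800) (l 16765744)))) (a (b (l 16757440) (l 16758520)) (l 16768360))))) (b (a (a (l 16744056) (c (l 16746880) (l 16746152))) (c (a (l 16757248) (a (l 16760520) (a (l 16763496) (l 16765480)))) (a (l 16756712) (a (l 16762744) (c (l 16766880) (l 16766728)))))) (a (a (l 16746376) (a (l 16746880) (l 16750760))) (a (a (l 16757288) (b (l 16758040) (l 16759168))) (b (a (l 16764640) (c (l 16766152) (l 16768504))) (a (c (l 16763304) (l 16762968)) (c (a (l 16766264) (l 16768248)) (l 16769632)))))))), by decide +kernel⟩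

def k14_mm_202_t : ∃ t, chk3 f_mm_202_t t 59 157 1 = true :=
  ⟨(b (a (c (a (a (l 16743120) (l 16746752)) (a (l 16750408) (l 16748864))) (a (l 16748680) (c (l 16756648) (l 16756024)))) (a (a (c (a (l 16756896) (l 16753520)) (c (l 16757168) (l 16756680))) (c (a (l 16755400) (l 16757280)) (c (l 16761048) (l 16763272)))) (c (c (l 16770000) (l 16768800)) (b (a (a (l 16763264) (l 16765248)) (a (c (l 16767360) (l 16767120)) (c (l 16769344) (l 16769152)))) (a (a (l 16764376) (l 16763744)) (c (a (l 16768456) (l 16770432)) (a (l 16768248) (l 16770272)))))))) (a (a (c (a (l 16745320) (l 16748936)) (a (l 16743832) (l 16747616))) (c (a (l 16742104) (l 16751024)) (c (l 16758888) (l 16755688)))) (a (c (l 16763816) (c (a (l 16759384) (a (l 16762288) (l 16764224))) (a (l 16758944) (a (l 16761920) (l 16763904))))) (c (a (l 16767488) (c (l 16771344) (l 16771224))) (a (b (c (l 16766608) (l 16768968)) (a (l 16763976) (a (l 16768080) (l 16769072)))) (c (l 16772392) (b (a (l 16769360) (a (l 16770880) (l 16771888)))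 (a (l 16770480) (a (l 16771992) (l 16770376)))))))))), by decide +kernel⟩

def k15_mm_202_t : ∃ t, chk3 f_mm_202_t t 59 158 1 = true :=
  ⟨(a (c (b (b (l 16755680) (b (l 16755832) (l 16756368))) (c (l 16757936) (l 16757464))) (a (b (a (l 16746104) (l 16749880)) (c (l 16750568) (l 16755144))) (b (a (c (l 16753968) (l 16753392)) (c (l 16757760) (l 16757280))) (c (a (l 16756176) (l 16759960)) (a (l 16755648) (l 16759528)))))) (b (c (a (b (l 16763448) (l 16764504)) (a (l 16770904) (c (l 16773416) (l 16773992)))) (b (a (a (l 16763464) (a (l 16763768) (l 16765728))) (b (c (l 16771792) (a (l 16768304) (a (l 16771312) (l 16770704)))) (a (a (l 16767976) (l 16769944)) (l 16773576)))) (a (a (c (l 16762136) (l 16761760)) (a (l 16764872) (l 16764208))) (c (a (a (l 16768896) (l 16770848)) (l 16773784)) (a (a (l 16768688) (l 16768064)) (l 16774352)))))) (a (a (c (l 16764224) (c (a (l 16762816) (l 16764728)) (a (l 16762456) (l 16764416)))) (b (b (l 16768240) (l 16768448)) (c (l 16768464) (c (l 16765536) (a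 (l 16766944) (l 16768920)))))) (a (b (a (b (l 16769800) (l 16770328)) (b (l 16771720) (l 16772248))) (c (l 16772200) (a (c (l 16771056) (l 16768280)) (l 16772944)))) (b (a (c (l 16773992) (l 16773840)) (c (l 16775880) (b (l 16775552) (l 16776088)))) (a (c (l 16775024) (c (l 16774944) (l 16774888))) (a (c (l 16776440) (c (l 16776408) (l 16776392))) (b (a (a (l 16776768) (l 16777656)) (b (l 16777856) (l 126936417687))) (c (l 112440903815) (c (l 117272741687) (l 159685542407))))))))))), by decide +kernel⟩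

def k16_mm_202_t : ∃ t, chk3 f_mm_202_t t 59 159 1 = true :=
  ⟨(a (a (b (c (l 16753592) (a (l 16745352) (c (l 16754624) (l 16754056)))) (c (l 16755696) (a (c (l 16753096) (l 16752488)) (a (l 16755600) (l 16752232))))) (b (c (l 16760816) (c (a (l 16758360) (l 16756888)) (a (l 16757888) (a (l 16760784) (l 16762720))))) (a (b (l 16761496) (l 16762880)) (a (b (l 16762968) (l 16764024)) (b (l 16764840) (l 16765888)))))) (b (a (b (c (l 16768960) (a (a (l 16764280) (l 16766216)) (a (l 16765536) (a (l 16767000) (l 16767976))))) (c (l 16770320) (c (l 16769696) (a (a (l 16765224) (l 16767176)) (a (l 16769136) (l 16768488)))))) (b (a (c (l 16773232) (b (l 16772776) (l 16773968))) (a (c (l 16777360) (c (l 16776008) (a (l 16775480) (l 16777128)))) (a (b (c (l 16778480) (a (l 16776952) (l 101166614103))) (c (l 124788934759) (c (l 167201735303) (l 168812348039)))) (l 4)))) (a (c (l 16774264) (a (l 16773136) (a (l 16774608) (l 16775592)))) (a (a (b (l 16776336) (c (l 16776856) (l 16777816))) (b (c (l 16778192)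 (a (l 16777032) (l 118346483287))) (c (l 137673836599) (l 175791670007)))) (l 4))))) (a (a (b (b (l 16768696) (l 16769224)) (a (l 16768744) (a (l 16769168) (l 16770112)))) (c (c (l 16772128) (l 16772016)) (c (l 16773200) (a (b (l 16770224) (l 16768688)) (l 16772736))))) (b (a (c (a (l 16774352) (l 16777528)) (a (l 16774216) (c (l 16777160) (a (l 16775664) (b (l 16776392) (l 16777568)))))) (a (a (b (c (l 79691777943) (a (l 16777768) (l 134989481591))) (c (l 155390576631) (l 189213442919))) (l 4)) (l 4))) (a (a (c (l 16775376) (c (l 16775312) (l 16775264))) (a (b (l 16776504) (a (l 16776784) (b (l 16777120) (l 100092872103)))) (b (a (b (l 16777088) (l 90429195623)) (l 185992217207)) (l 4)))) (l 4)))))), by decide +kernel⟩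

def k17_mm_202_t : ∃ t, chk3 f_mm_202_t t 60 36 2 = true :=
  ⟨(a (b (b (b (a (l 16713656) (l 16722272)) (a (l 16716288) (l 16724864))) (a (b (l 16718904) (l 16721488)) (b (l 16727440) (l 16729992)))) (b (a (b (l 16724056) (l 16726592)) (c (l 16739392) (l 16736000))) (a (b (l 16729112) (l 16731600)) (b (l 16737496) (l 16745200))))) (a (b (b (b (l 16730952) (l 16738752)) (b (l 16741288) (l 16743800))) (b (b (l 16743664) (c (l 16743808) (l 16743208))) (a (c (l 16745336) (l 16749992)) (b (l 16748072) (l 16750488))))) (b (b (b (c (l 16740016) (l 16739384)) (c (l 16742520) (l 16741920))) (a (b (l 16742536) (l 16745024)) (b (l 16746896) (l 16754600)))) (b (b (a (l 16747480) (l 16754424)) (b (l 16754088) (l 16755296))) (b (c (l 16756648) (c (l 16757000) (l 16756784))) (a (c (l 16754928) (l 16754520)) (c (l 16759160) (l 16758824)))))))), by decide +kernel⟩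

def k18_mm_202_t : ∃ t, chk3 f_mm_202_t t 60 36 3 = true :=
  ⟨(a (b (b (b (a (l 16711408) (l 16720328)) (a (l 16714112) (l 16722992))) (a (b (l 16716792) (l 16719448)) (b (l 16730880) (l 16730880)))) (b (a (b (l 16722080) (l 16724688)) (b (l 16733472) (c (l 16733840) (l 16733008)))) (b (a (l 16727272) (c (l 16736376) (l 16735576))) (a (l 16735088) (c (l 16738888) (l 16738128)))))) (b (b (a (b (c (l 16729736) (l 16728888)) (c (l 16732352) (l 16731536))) (b (c (l 16738720) (l 16740648)) (c (l 16741296) (l 16743256)))) (a (b (c (l 16734936) (l 16734160)) (c (l 16737504) (l 16736760))) (b (c (l 16746464) (l 16745848)) (b (l 16748072) (l 16749016))))) (c (b (a (b (l 16740048) (l 16742568)) (b (l 16750848) (a (l 16749160) (l 16753576)))) (a (b (l 16745072) (l 16752792)) (a (b (l 16751632) (l 16754088)) (b (l 16756040) (l 16761096))))) (b (a (b (l 16739344) (l 16741904)) (b (c (l 16748480) (l 16750824)) (c (l 16753624) (l 16753368)))) (a (b (l 16747064) (l 16749584)) (a (b (l 16751136) (l 16753632))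 (b (l 16758248) (l 16759416)))))))), by decide +kernel⟩

def k19_mm_202_t : ∃ t, chk3 f_mm_202_t t 122 72 1 = true :=
  ⟨(b (c (a (b (c (l 16751384) (l 16750896)) (b (l 16753008) (l 16753752))) (b (a (c (l 16755368) (l 16754992)) (c (l 16762416) (l 16761136))) (a (c (l 16757800) (l 16760088)) (b (l 16762784) (a (l 16761568) (l 16763792)))))) (a (b (c (a (l 16745496) (l 16750040)) (c (l 16750000) (l 16749728))) (c (c (l 16753048) (l 16752808)) (b (l 16751800) (l 16753080)))) (b (a (c (l 16754608) (l 16755512)) (c (b (l 16758560) (l 16759808)) (b (l 16758224) (l 16759496)))) (b (a (l 16758928) (c (l 16761056) (l 16760760))) (a (l 16758872) (c (l 16762296) (l 16763336))))))) (b (c (a (a (l 16753888) (c (l 16755840) (l 16755472))) (a (c (l 16762832) (l 16761224)) (a (c (l 16763496) (l 16765880)) (b (l 16765000) (l 16768816))))) (a (c (b (l 16752200) (l 16756072)) (a (l 16750080) (l 16757288))) (a (c (b (l 16758984) (l 16760224)) (c (l 16759360) (l 16761816))) (c (b (l 16766152) (l 16766072)) (b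 (l 16764592) (c (l 16764592) (l 16765784))))))) (b (a (a (c (l 16753104) (l 16752224)) (c (l 16757480) (l 16759376))) (a (c (l 16764496) (c (l 16761456) (l 16761160))) (c (c (l 16769000) (l 16767496)) (c (c (l 16768664) (l 16767248)) (c (l 16767144) (l 16767032)))))) (c (a (c (l 16759304) (l 16758944)) (a (c (l 16763192) (l 16762944)) (a (l 16768992) (c (l 16768648) (l 16768496))))) (a (a (l 16753480) (l 16760624)) (a (c (l 16762688) (l 16762408)) (a (c (l 16766072) (l 16765864)) (c (l 16768344) (l 16769488))))))))), by decide +kernel⟩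

def k20_mm_202_t : ∃ t, chk3 f_mm_202_t t 244 73 1 = true :=
  ⟨(b (b (c (a (c (l 16756320) (l 16755944)) (c (l 16763256) (l 16762960))) (a (c (l 16755552) (l 16757768)) (b (l 16760720) (a (l 16759352) (l 16761616))))) (b (c (a (l 16757936) (l 16764896)) (a (l 16759840) (c (l 16761864) (l 16761568)))) (a (c (l 16759136) (l 16761072)) (c (l 16764776) (c (l 16763080) (l 16762808)))))) (b (b (a (c (l 16760320) (l 16760992)) (c (c (l 16764752) (l 16764528)) (c (l 16766912) (l 16765352)))) (a (c (l 16764128) (c (l 16761064) (l 16760744))) (c (c (l 16768544) (l 16768336)) (c (l 16766808) (l 16766248))))) (b (a (c (l 16765304) (c (l 16762272) (l 16761976))) (c (a (l 16765912) (l 16769376)) (a (l 16766784) (c (l 16767808) (l 16767624))))) (a (c (l 16765168) (c (l 16763480) (l 16765824))) (c (a (l 16769696) (c (l 16769304) (l 16769160))) (a (c (l 16766792) (l 16766584)) (c (l 16769000) (l 16770152)))))))), by decide +kernel⟩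

def k21_mm_202_t : ∃ t, chk3 f_mm_202_t t 490 73 1 = true :=
  ⟨(b (c (a (b (c (l 16763880) (l 16763640)) (b (l 16765544) (l 16769344))) (b (b (l 16765360) (l 16769168)) (b (l 16769040) (c (l 16768976) (l 16768824))))) (b (c (b (l 16766528) (l 16766440)) (b (l 16764968) (l 16765880))) (b (c (c (l 16769016) (l 16768912)) (c (l 16767496) (l 16767392))) (a (c (l 16766432) (l 16766224)) (c (l 16768672) (l 16769816)))))) (b (a (c (b (l 16769208) (c (l 16769136) (l 16768992))) (c (c (l 16769592) (l 16769504)) (b (l 16767448) (l 16769984)))) (c (c (b (l 16770136) (l 16772600)) (b (l 16771312) (l 16772488))) (b (c (l 16771184) (l 16770384)) (c (c (l 16771096) (l 16772344)) (c (l 16772288) (l 16772224)))))) (b (b (c (a (l 16769936) (c (l 16772152) (l 16772056))) (a (l 16770968) (c (l 16773272) (l 16773168)))) (a (c (l 16770520) (l 16770912)) (c (c (l 16772720) (l 16773952)) (c (l 16773864) (l 16773280))))) (a (c (c (a (l 16770904) (l 16771976)) (l 16772640)) (c (c (l 16772560) (l 16772504)) (c (l 16772440)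 (l 16772384)))) (a (b (c (l 16772720) (l 16773200)) (c (l 16771984) (a (l 16772864) (l 16774736)))) (b (c (a (l 16773528) (l 16774072)) (b (l 16773520) (l 16773816))) (c (a (l 16774104) (l 16773336)) (b (l 16774768) (l 16775072))))))))), by decide +kernel⟩

def k22_mm_202_t : ∃ t, chk3 f_mm_202_t t 491 146 1 = true :=
  ⟨(a (c (b (b (l 16768864) (c (l 16768808) (l 16768664))) (c (b (l 16769976) (l 16772448)) (b (l 16771160) (l 16772336)))) (b (c (c (l 16769256) (l 16769168)) (b (l 16767104) (l 16769648))) (b (c (l 16771024) (l 16770224)) (c (c (l 16770944) (l 16772192)) (c (l 16772136) (l 16772072)))))) (b (b (b (c (l 16769464) (l 16770488)) (c (l 16770056) (l 16770440))) (c (c (l 16772296) (l 16772192)) (c (c (l 16770792) (l 16772040)) (c (l 16771976) (l 16771920))))) (b (b (c (l 16772800) (c (l 16772976) (l 16772864))) (c (a (l 16771848) (l 16772944)) (c (l 16773576) (l 16772984)))) (b (c (c (a (l 16772472) (l 16773560)) (l 16774256)) (c (l 16773848) (c (l 16774112) (l 16773408)))) (a (c (l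 16773016) (a (l 16772568) (l 16774448))) (c (a (l 16773832) (l 16773072)) (c (l 16774024) (l 16774616)))))))), by decide +kernel⟩

def k23_mm_202_t : ∃ t, chk3 f_mm_202_t t 982 147 1 = true :=
  ⟨(b (b (b (c (c (l 16772008) (l 16771912)) (c (l 16773120) (l 16773016))) (c (c (l 16772584) (l 16773808)) (c (l 16773720) (l 16773136)))) (a (b (c (l 16772576) (l 16773056)) (c (l 16771840) (a (l 16772720) (l 16773280)))) (b (c (a (l 16773392) (l 16773936)) (a (l 16773248) (l 16774464))) (c (c (l 16774264) (l 16774216)) (b (l 16773976) (l 16774936)))))) (b (a (b (c (a (l 16773456) (l 16774000)) (a (l 16773312) (l 16774536))) (c (a (l 16774040) (l 16773272)) (c (l 16774224) (l 16774824)))) (a (c (l 16774832) (b (b (l 16774296) (l 16774592)) (b (l 16774896) (l 16775192)))) (b (c (l 16773776) (c (l 16775032) (l 16775640))) (b (b (l 16774760) (l 16774904)) (l 16775784))))) (b (c (l 16775712) (a (c (c (l 16774832) (l 16774808)) (c (l 16775440) (l 16775416))) (b (a (l 16774832) (a (l 16775912) (l 16775536)))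 (l 16776072)))) (a (c (l 16775456) (a (b (l 16774960) (l 16775256)) (b (l 16774864) (l 16775160)))) (b (c (l 16776400) (l 16776368)) (c (l 16776680) (a (l 16776384) (a (l 16776800) (l 16777408))))))))), by decide +kernel⟩

def k24_mm_202_t : ∃ t, chk3 f_mm_202_t t 983 147 1 = true :=
  ⟨(b (c (b (a (a (b (l 16773320) (l 16773904)) (b (l 16773872) (l 16773136))) (a (l 16775032) (a (l 16775112) (l 16775712)))) (c (l 16775928) (c (l 16775576) (l 16775896)))) (b (a (b (a (l 16774488) (l 16774400)) (c (l 16774088) (l 16774680))) (b (b (l 16775096) (a (l 16774456) (l 16775024))) (a (c (l 16774928) (l 16775544)) (c (l 16774840) (a (l 16775320) (l 16774944)))))) (a (b (c (c (l 16774696) (l 16774672)) (c (l 16774648) (l 16775280))) (a (c (l 16775000) (l 16775608)) (b (l 16774736) (l 16774952)))) (c (c (l 16776104) (l 16776096)) (c (c (l 16776088) (l 16776080)) (b (a (l 16775480) (c (l 16775408) (l 16775400))) (l 16776376))))))) (a (b (b (c (l 16775904) (a (b (l 16774768) (l 16775064)) (a (l 16776000)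 (l 16776280)))) (c (l 16776808) (b (l 16776304) (b (l 16776528) (l 16776840))))) (a (b (c (l 16776776) (c (l 16776768) (c (l 16776760) (l 16776920)))) (c (b (l 47479522359) (l 118883353751)) (a (b (l 16777392) (b (l 87207969335) (l 4))) (b (b (l 81302389287) (l 165591122423)) (l 4))))) (b (c (b (l 16777728) (l 112440902759)) (b (a (l 16777032) (b (l 63585649223) (l 143042544167))) (a (b (l 70028100183) (l 150558736951)) (l 4)))) (l 4)))) (b (b (c (a (l 16776720) (b (l 16777760) (l 94724162743))) (a (c (l 16776704) (l 16776864)) (a (b (l 16776976) (b (l 16777512) (l 112440902279))) (b (b (l 16777504) (l 105461580407)) (l 4))))) (a (c (b (l 16777784) (l 105998451783)) (a (b (l 16777008) (b (l 16777488) (l 136600093207))) (b (b (l 16777520) (l 123178320471)) (l 4)))) (l 4))) (l 4)))), by decide +kernel⟩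

def k25_mm_202_t : ∃ t, chk3 f_mm_202_t t 246 144 1 = true :=
  ⟨(b (b (a (c (c (l 16763632) (l 16763400)) (c (l 16764472) (l 16764224))) (a (c (c (l 16766976) (l 16766808)) (c (l 16766624) (l 16766432))) (b (c (l 16768848) (l 16769864)) (c (l 16769448) (l 16769832))))) (a (c (c (l 16767456) (l 16767248)) (c (l 16765712) (c (l 16764232) (l 16765424)))) (c (a (c (l 16768176) (l 16768024)) (c (l 16771720) (l 16771608))) (a (c (l 16767864) (l 16769000)) (c (c (l 16770200) (l 16771448)) (c (l 16771384) (l 16770664))))))) (b (b (a (c (l 16766952) (c (l 16765336) (l 16765120))) (c (a (l 16769000) (l 16771904)) (a (l 16770016) (c (l 16771088) (l 16772288))))) (a (c (l 16767552) (c (l 16765952) (l 16767056))) (c (a (l 16769600) (c (l 16771888) (l 16771800))) (a (l 16769984) (c (l 16773016) (l 16772256)))))) (b (a (c (l 16767824) (c (l 16767880) (l 16767680))) (c (a (l 16771504) (c (l 16773792) (l 16773712))) (a (c (l 16770008) (l 16769880)) (c (l 16773296) (c (l 16773560) (l 16772856)))))) (c (a (c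 (l 16767520) (l 16769976)) (a (l 16772104) (c (l 16774384) (l 16773984)))) (a (c (l 16768488) (l 16767976)) (b (a (l 16770408) (c (l 16774080) (l 16773344))) (a (l 16770720) (c (l 16773728) (l 16773656))))))))), by decide +kernel⟩

def k26_mm_202_t : ∃ t, chk3 f_mm_202_t t 492 145 1 = true :=
  ⟨(b (c (b (a (l 16768536) (c (l 16769520) (l 16770696))) (c (a (l 16768488) (l 16772008)) (a (l 16768336) (l 16771896)))) (b (a (b (l 16766552) (l 16767168)) (b (l 16770176) (l 16770136))) (c (a (l 16768176) (c (l 16770496) (l 16771744))) (a (l 16769320) (c (l 16771680) (l 16771616)))))) (b (b (c (a (l 16769304) (l 16772184)) (a (l 16770328) (c (l 16771376) (l 16772576)))) (a (c (l 16769896) (l 16770288)) (c (a (l 16771560) (l 16772672)) (b (l 16772432) (l 16772736))))) (c (a (c (l 16772152) (l 16772040)) (a (b (l 16772152) (l 16772744)) (b (l 16774576) (a (l 16773568) (l 16774128))))) (a (c (c (l 16770640) (l 16771888)) (c (l 16771832) (l 16771768))) (c (a (l 16772976) (b (l 16773152) (l 16773760)))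 (a (c (l 16772248) (l 16772200)) (b (l 16773080) (l 16774344)))))))), by decide +kernel⟩

def k27_mm_202_t : ∃ t, chk3 f_mm_202_t t 493 290 1 = true :=
  ⟨(b (b (c (a (l 16772040) (a (l 16774376) (b (l 16774040) (l 16774336)))) (a (c (l 16771232) (l 16772432)) (c (a (l 16772952) (l 16774760)) (a (l 16772880) (l 16774544))))) (c (a (c (l 16772024) (l 16773248)) (c (a (l 16773688) (l 16773488)) (a (l 16773624) (c (l 16774768) (l 16774744))))) (a (c (l 16773152) (l 16772400)) (c (a (l 16773560) (c (l 16774720) (l 16775352))) (a (l 16774152) (c (l 16775336) (l 16775312))))))) (b (c (a (c (l 16773920) (l 16773840)) (a (c (l 16774272) (l 16774224)) (a (a (l 16773632) (l 16774240)) (b (l 16775496) (l 16774480))))) (a (c (l 16773432) (c (l 16773696) (l 16772992))) (b (a (l 16774640) (c (l 16775824) (l 16775616))) (a (l 16774952) (a (l 16775816) (c (l 16775752) (l 16775728))))))) (a (a (c (l 16772608) (c (l 16772480) (l 16772392))) (c (a (l 16773440) (l 16774000)) (c (l 16773624) (l 16774216)))) (a (c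 (c (l 16773544) (c (l 16774824) (l 16774808))) (c (c (l 16774784) (l 16775416)) (c (l 16775392) (l 16775368)))) (c (l 16775952) (b (a (a (l 16775320) (l 16775608)) (c (l 16776056) (l 16775376))) (a (c (l 16775784) (l 16775760)) (b (l 16775616) (l 16775768))))))))), by decide +kernel⟩

def k28_mm_202_t : ∃ t, chk3 f_mm_202_t t 493 582 1 = true :=
  ⟨(a (b (a (c (l 16774504) (a (l 16774072) (l 16773992))) (b (c (l 16774160) (l 16774704)) (c (l 16774456) (l 16775008)))) (c (a (a (l 16773504) (l 16774064)) (b (l 16773440) (l 16774064))) (c (a (l 16773688) (c (l 16775504) (l 16775480))) (a (l 16774280) (c (l 16775456) (l 16775432)))))) (b (c (b (l 16776080) (c (l 16776464) (a (l 16774248) (l 16776680)))) (a (a (c (l 16775088) (l 16775704)) (a (b (l 16775352) (l 16775656)) (b (l 16775640) (l 16775288)))) (b (c (l 16776368) (l 16776352)) (a (l 16776376) (a (l 16776808) (b (l 16777024) (l 16777488))))))) (a (c (l 16776008) (a (a (b (l 16775384) (l 16775688)) (b (l 16775672) (l 16775320))) (b (c (l 16776112)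 (l 16775440)) (l 16776408)))) (a (b (c (l 16776704) (l 16776680)) (a (b (l 16776776) (l 16776920)) (b (l 16777056) (a (l 16777128) (l 86671098423))))) (a (b (b (l 16777040) (a (l 16777120) (l 81302389271))) (a (b (l 83986743847) (l 4)) (l 4))) (b (a (b (l 76470551063) (l 4)) (l 4)) (l 4))))))), by decide +kernel⟩

def k29_mm_202_t : ∃ t, chk3 f_mm_202_t t 493 583 1 = true :=
  ⟨(a (a (b (b (c (l 16774224) (l 16774768)) (c (l 16774520) (l 16775072))) (b (c (l 16773504) (a (l 16774432) (l 16775008))) (c (l 16774120) (c (l 16775048) (l 16775664))))) (c (c (l 16775792) (l 16775928)) (c (b (a (l 16774496) (a (l 16775576) (l 16775208))) (l 16776040)) (a (b (a (l 16774968) (l 16775256)) (b (l 16775568) (l 16775880))) (b (b (l 16775544) (l 16775848)) (l 16776304)))))) (a (b (b (c (l 16776448) (c (l 16776432) (l 16776416))) (a (c (l 16776464) (l 16776432)) (a (c (l 16776880) (l 16776872)) (b (l 16777408) (a (l 16777160) (l 103314096727)))))) (b (a (c (l 16776752) (l 16776736)) (a (b (l 16777336) (a (l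 16777496) (l 112440902247))) (c (l 137673835287) (c (l 141968802503) (l 182770991399))))) (a (b (c (l 16776968) (l 16777128)) (a (l 16776976) (a (l 16777512) (l 121030836855)))) (c (l 186529087991) (c (l 189750313447) (l 191897797095)))))) (b (a (a (b (b (l 16777392) (a (l 16777144) (l 94724162119))) (a (b (l 99556000327) (l 4)) (l 4))) (a (b (b (l 91502936631) (l 4)) (l 4)) (l 4))) (l 4)) (l 4)))), by decide +kernel⟩

def k30_mm_202_t : ∃ t, chk3 f_mm_202_t t 494 288 1 = true :=
  ⟨(b (b (c (a (l 16771768) (a (l 16774120) (b (l 16773800) (l 16774096)))) (a (c (l 16770952) (l 16771496)) (c (a (l 16772696) (l 16774520)) (a (l 16772616) (l 16774296))))) (c (a (c (l 16771760) (l 16771664)) (a (l 16774064) (b (l 16774392) (a (l 16774408) (l 16774976))))) (a (c (l 16772880) (l 16772120)) (c (a (l 16773312) (c (l 16774488) (l 16775112))) (a (l 16773896) (c (l 16775088) (l 16775064))))))) (a (b (c (c (l 16773664) (l 16773576)) (c (l 16772840) (c (l 16773424) (l 16772720)))) (c (c (l 16774256) (l 16773856))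 (c (c (l 16774120) (l 16773432)) (a (l 16772120) (l 16773960))))) (a (c (b (c (l 16774032) (l 16773976)) (b (l 16774448) (a (l 16774464) (l 16775032)))) (c (b (l 16774576) (c (l 16774544) (l 16775176))) (b (l 16774352) (c (l 16775152) (l 16775128))))) (c (c (l 16775448) (a (b (l 16774832) (l 16774776)) (l 16775704))) (a (b (c (l 16774792) (l 16775408)) (b (l 16775888) (a (l 16775392) (l 16775688)))) (b (b (l 16775856) (a (l 16775368) (l 16775656))) (b (c (l 16775832) (l 16776464)) (c (l 16775480) (a (l 16775968) (l 16776264)))))))))), by decide +kernel⟩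

def k31_mm_202_t : ∃ t, chk3 f_mm_202_t t 494 578 1 = true :=
  ⟨(b (c (a (a (l 16774248) (b (l 16773920) (l 16774216))) (c (l 16775768) (a (a (l 16774888) (l 16774808)) (l 16776320)))) (a (c (a (l 16772824) (l 16774640)) (a (l 16772744) (l 16774416))) (a (a (b (l 16774680) (l 16774984)) (b (l 16775920) (a (l 16775424) (l 16775056)))) (c (l 16776464) (c (l 16776288) (a (b (l 16775824) (l 16775480)) (l 16776576))))))) (a (c (c (a (l 16773560) (l 16773536)) (a (l 16773504) (c (l 16774648) (l 16774624)))) (c (a (l 16773432) (c (l 16774600) (l 16775232))) (a (l 16774024) (c (l 16775208) (l 16775184))))) (a (c (l 16776112) (a (b (l 16775944) (a (l 16775448) (l 16775088))) (b (b (l 16775800) (l 16775952)) (b (l 16775448) (l 16775768))))) (a (c (l 16776632) (b (l 16776456) (l 16776768))) (a (b (c (l 16776912) (l 16776896)) (c (l 16777672) (b (l 16777448) (a (l 16777192) (l 152169349527))))) (c (b (l 16777496) (l 150558737223)) (b (b (l 16777432) (a (l 16777184) (l 143042544007))) (c (l 161296155287)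 (l 193508409687))))))))), by decide +kernel⟩

def k32_mm_202_t : ∃ t, chk3 f_mm_202_t t 494 579 1 = true :=
  ⟨(b (b (a (a (c (l 16773976) (l 16774520)) (c (a (l 16774824) (l 16775384)) (b (l 16775608) (l 16775592)))) (a (c (l 16776232) (a (b (l 16775824) (l 16775976)) (l 16776488))) (a (a (c (l 16776936) (l 16776928)) (c (l 16777600) (b (l 16777456) (a (l 16777368) (l 4))))) (c (l 194045280791) (c (l 197803377175) (l 201024602631)))))) (a (a (c (l 16774272) (l 16774824)) (a (b (l 16775008) (l 16775808)) (c (l 16775680) (a (l 16775480) (l 16775112))))) (a (c (l 16776528) (c (l 16776504) (l 16776576))) (a (a (c (l 52848231191) (b (l 16777472) (a (l 16777376) (l 4)))) (l 4)) (l 4))))) (a (a (c (c (l 16773432) (c (l 16774704) (l 16774688))) (c (c (l 16774664) (l 16775296)) (c (l 16775272) (l 16775248)))) (c (l 16776168) (a (c (c (l 16775528) (l 16775512)) (c (l 16776152) (l 16776136))) (b (b (l 16775856) (l 16775352)) (b (l 16775504) (l 16775824)))))) (a (a (c (l 16776848) (c (l 16776672) (c (l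 16776664) (l 16776656)))) (a (c (b (l 16776960) (l 60364423991)) (b (l 16776952) (b (c (l 16777168) (l 16777496)) (c (l 103850967591) (l 105998451223))))) (b (c (l 56606327591) (b (c (l 16777152) (l 16777480)) (c (l 99019129351) (l 100092871175)))) (l 4)))) (l 4)))), by decide +kernel⟩

def k33_mm_202_t : ∃ t, chk3 f_mm_202_t t 1980 144 1 = true :=
  ⟨(b (c (b (c (l 16775392) (a (b (l 16774776) (l 16774720)) (l 16775648))) (a (b (l 16775984) (l 16776584)) (b (l 16776552) (b (l 16777480) (a (l 16777464) (l 126936417111)))))) (b (a (b (c (l 16774736) (l 16775344)) (b (l 16775832) (a (l 16775336) (l 16775632)))) (b (b (l 16775800) (a (l 16775304) (l 16775600))) (b (c (l 16775776) (l 16775752)) (c (l 16775424) (c (l 16776064) (l 16776056)))))) (b (c (l 16776328) (b (a (l 16776432) (a (l 16776224) (l 16775864))) (l 16776384))) (a (b (l 16776408) (l 16776712)) (b (b (l 16776912) (a (l 16776920) (a (l 16777136) (l 95797903815)))) (a (b (l 16777072) (a (l 16777152) (l 108682805671))) (c (l 137136964263)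 (c (l 138747576967) (l 180086636807))))))))) (b (b (b (c (a (l 16777504) (l 181160378839)) (b (a (l 16777104) (c (l 183844733303) (l 185992216951))) (a (a (l 16776944) (a (l 16777160) (l 116198998455))) (l 4)))) (a (c (a (l 16777488) (l 139821318951)) (a (b (l 16777096) (a (l 16777176) (l 128010158503))) (c (l 145190027975) (l 184918475063)))) (l 4))) (a (b (c (l 189213442551) (c (l 192971538935) (c (l 193508409847) (l 195655893479)))) (l 4)) (l 4))) (l 4))), by decide +kernel⟩

def k34_mm_202_t : ∃ t, chk3 f_mm_202_t t 1981 144 1 = true :=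
  ⟨(b (a (b (c (b (l 16775936) (l 16776528)) (c (b (b (l 16775744) (l 16775400)) (l 16776512)) (b (b (l 16775720) (c (l 16776040) (l 16776024))) (c (l 16776504) (l 16776496))))) (b (c (b (l 16777296) (a (l 16777448) (l 118883353399))) (a (b (l 16776816) (a (l 16777216) (b (l 16777120) (l 85060485591)))) (b (a (l 16777040) (b (l 16777104) (l 77007421895))) (b (a (l 80765518295) (l 4)) (l 4))))) (b (a (a (b (a (l 67880616455) (l 138210705863)) (l 4)) (l 4)) (l 4)) (l 4)))) (b (b (c (l 16776504) (b (c (l 16775680) (a (l 16776168) (l 16775808))) (l 16776632))) (c (b (l 16777272) (a (l 16777096) (l 107072193383))) (a (b (l 16776792) (a (l 16777024) (b (l 16777096) (l 68954358199)))) (b (a (l 16777016) (b (l 16777080) (l 63585649047))) (b (a (l 60364423671) (l 4)) (l 4)))))) (a (b (b (b (a (a (l 16777448) (l 109756547575)) (l 4)) (l 4)) (l 4)) (l 4)) (l 4)))) (l 4)), by decide +kernel⟩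

def k35_mm_202_t : ∃ t, chk3 f_mm_202_t t 991 144 1 = true :=
  ⟨(a (b (b (b (b (c (a (l 16777248) (c (l 118346482663) (l 162906767703))) (a (a (l 16776768) (b (l 16776984) (l 16777376))) (a (b (a (l 16777360) (l 149484994967)) (l 166664864247)) (l 4)))) (a (a (c (l 16777072) (c (l 16777064) (c (l 16777064) (l 16777312)))) (b (a (c (l 16777200) (l 16777368)) (l 150558736903)) (l 4))) (l 4))) (a (a (b (b (a (a (l 16777352) (l 83986743847)) (l 4)) (l 4)) (l 4)) (l 4)) (l 4))) (l 4)) (l 4)) (l 4)), by decide +kernel⟩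

def k36_mm_202_t : ∃ t, chk3 f_mm_202_t t 247 290 1 = true :=
  ⟨(a (b (b (a (c (c (l 16776208) (c (l 16775864) (l 16776096))) (a (b (c (l 16775760) (l 16775720)) (a (l 16775760) (a (l 16775536) (l 16775176)))) (b (a (b (l 16775880) (l 16775384)) (l 16776544)) (c (l 16776560) (c (l 16776552) (l 16776712)))))) (a (a (a (b (c (l 16776984) (l 16777144)) (b (c (l 16777192) (c (l 16777192) (l 11509170615))) (b (l 106535322135) (l 160759284183)))) (b (c (l 64122520407) (b (c (l 16777176) (l 16777424)) (c (l 116198998503) (l 119957094871)))) (l 4))) (l 4)) (l 4))) (a (a (c (l 16775896) (b (a (a (l 16775264) (l 16775552)) (b (l 16775912) (l 16775408))) (a (c (l 16775728) (l 16775696)) (b (l 16775560) (l 16775712))))) (b (a (b (l 16776504) (l 16776656)) (c (a (l 16777008) (l 75933680423)) (a (c (l 16777008) (l 16777000)) (b (c (l 16777192) (l 54458843591)) (l 124788933207))))) (a (b (l 16776808) (c (l 16776960) (l 16777112))) (a (c (l 79691776823) (b (a (l 16777152) (l 111367160247)) (l 137673835031)))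 (l 4))))) (l 4))) (a (a (b (c (c (l 16776488) (l 16776808)) (b (a (c (l 16776024) (l 16775352)) (l 16776600)) (c (l 16776776) (c (l 16776856) (a (l 16775656) (l 16777056)))))) (a (b (c (l 16776648) (l 16776624)) (c (l 16776936) (c (l 16776928) (c (l 16776920) (l 16777168))))) (a (b (c (l 16777064) (c (l 16777056) (l 16777384))) (b (c (l 16777248) (c (l 16777576) (l 81839260199))) (l 4))) (b (b (a (l 16777480) (l 137136964151)) (c (l 161833026039) (l 164517380599))) (l 4))))) (b (a (a (b (c (l 16777032) (c (l 16777032) (l 16777024))) (b (a (l 16777512) (l 121030836855)) (c (l 148411253303) (l 148948124215)))) (b (b (a (l 16777496) (l 112440902247)) (c (l 139284447783) (l 143042544167))) (l 4))) (l 4)) (l 4))) (l 4))) (l 4)), by decide +kernel⟩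

def k37_mm_202_t : ∃ t, chk3 f_mm_202_t t 247 291 1 = true :=
  ⟨(b (b (a (a (a (a (a (b (c (l 16777088) (c (l 16777080) (l 16777368))) (a (b (a (l 16777200) (l 94724162103)) (l 4)) (l 4))) (b (b (c (l 16777256) (c (l 16777424) (l 86671098439))) (l 4)) (l 4))) (l 4)) (l 4)) (l 4)) (l 4)) (l 4)) (l 4)), by decide +kernel⟩

def k38_mm_202_t : ∃ t, chk3 f_mm_202_t t 984 146 1 = true :=
  ⟨(b (b (b (c (l 16772656) (c (l 16771520) (l 16772720))) (c (c (l 16772296) (l 16773520)) (c (l 16773432) (l 16772680)))) (c (b (c (l 16774192) (l 16774112)) (a (l 16772880) (a (l 16773704) (l 16772944)))) (c (a (l 16773112) (b (l 16773288) (l 16773888))) (a (c (l 16772392) (l 16772344)) (b (l 16773216) (l 16774480)))))) (c (b (b (c (a (l 16773496) (l 16774584)) (a (l 16773424) (l 16773224))) (a (c (l 16774072) (l 16774016)) (b (l 16773688) (l 16773976)))) (c (l 16775808) (c (l 16775456) (l 16775768)))) (a (b (c (b (l 16773360) (l 16773952)) (b (l 16773280) (l 16774544))) (b (b (l 16775032) (a (l 16774392) (l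 16774960))) (a (c (l 16774864) (l 16774824)) (c (l 16774776) (c (l 16775400) (l 16775384)))))) (b (b (b (l 16774968) (a (l 16774328) (l 16774896))) (a (c (l 16774800) (l 16774752)) (c (l 16774712) (c (l 16775344) (l 16775320))))) (b (a (c (l 16774744) (a (l 16775216) (l 16774848))) (a (b (l 16775656) (l 16775304)) (l 16776096))) (b (l 16776120) (l 16776496))))))), by decide +kernel⟩

def k39_mm_202_t : ∃ t, chk3 f_mm_202_t t 985 292 1 = true :=
  ⟨(b (b (c (c (a (l 16773360) (l 16774456)) (a (l 16773296) (l 16775720))) (a (a (l 16774208) (l 16774128)) (b (l 16774832) (l 16774976)))) (c (a (a (l 16773640) (l 16774192)) (b (l 16773560) (l 16773856))) (c (a (l 16773824) (a (l 16774672) (l 16774584))) (a (l 16774416) (b (l 16774760) (l 16775720)))))) (c (c (c (l 16775368) (l 16775352)) (c (l 16775336) (l 16775640))) (a (b (b (l 16774904) (l 16775040)) (b (c (l 16774872) (l 16775480)) (c (l 16775168) (l 16775784)))) (c (c (l 16775864) (l 16775848)) (a (b (a (l 16775088) (l 16776040)) (b (l 16775696)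 (l 16775344))) (b (b (l 16775664) (l 16775312)) (l 16776424))))))), by decide +kernel⟩

def k40_mm_202_t : ∃ t, chk3 f_mm_202_t t 985 293 1 = true :=
  ⟨(a (b (c (c (l 16775960) (l 16776104)) (c (c (l 16775920) (l 16775912)) (a (b (c (l 16775312) (l 16775288)) (b (l 16775752) (l 16775400))) (b (b (l 16775728) (l 16775376)) (l 16776480))))) (b (b (c (l 16776672) (a (l 16776368) (b (l 16776864) (l 16777336)))) (a (c (l 16776688) (l 16776672)) (a (c (l 16777096) (a (l 16777024) (l 16777528))) (a (b (l 16777504) (l 4)) (l 4))))) (b (a (c (l 16776976) (c (l 16776968) (c (l 16776960) (l 16777288)))) (c (l 128010159223) (c (l 174181056903) (c (l 176328540551) (l 177402282375))))) (a (a (c (l 16777120) (b (l 16777048) (l 16777512))) (a (b (l 82376131111) (l 4)) (l 4))) (l 4))))) (b (b (b (c (l 16776616) (c (l 16776600) (c (l 16776592) (l 16776752)))) (a (c (l 16776632) (l 16776608)) (a (c (l 16777040) (l 16777280)) (a (b (l 16777176) (l 119957095031)) (c (l 130157642455) (l 133915738823)))))) (b (a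 (c (l 16776920) (c (l 16776912) (l 16777072))) (a (b (a (l 16777512) (l 129083900471)) (l 144116286183)) (l 4))) (a (a (b (l 16777000) (l 16777504)) (b (a (l 16777528) (l 140895060551)) (l 147337511671))) (l 4)))) (a (b (b (a (a (b (l 16777536) (l 4)) (l 4)) (l 4)) (l 4)) (l 4)) (l 4)))), by decide +kernel⟩

def k41_mm_202_t : ∃ t, chk3 f_mm_202_t t 493 146 1 = true :=
  ⟨(a (a (b (b (c (c (l 16775848) (l 16775984)) (c (b (a (l 16774560) (c (l 16775784) (l 16775120))) (l 16776096)) (a (b (c (l 16775184) (l 16775160)) (b (l 16775632) (l 16775936))) (b (b (l 16775600) (l 16775904)) (l 16776368))))) (b (a (c (l 16776432) (c (l 16776408) (l 16776392))) (b (c (l 16776840) (l 16776824)) (c (a (l 16776992) (l 16777560)) (a (l 16776984) (b (l 16777504) (l 108145934983)))))) (a (c (a (l 16776872) (b (l 16777000) (l 77007422247))) (b (c (l 16776856) (l 16776848)) (a (l 16777336) (b (l 53921972759) (l 125862675031))))) (a (b (c (l 16777648) (b (l 10435428887) (l 119420224071))) (l 4)) (l 4))))) (a (a (b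 (b (b (c (l 80228647751) (b (l 58753810999) (l 139284447767))) (l 4)) (l 4)) (l 4)) (l 4)) (l 4))) (b (b (b (a (c (l 16776376) (c (l 16776352) (l 16776336))) (b (c (l 16776784) (l 16776768)) (b (c (l 16777000) (l 16777232)) (a (l 16777008) (a (l 16777488) (l 151632478711)))))) (b (a (c (l 16776808) (l 16776792)) (a (b (c (l 16777144) (l 16777472)) (a (l 56606327351) (l 4))) (l 4))) (a (c (l 16777736) (a (l 16776952) (b (l 16777480) (l 96334774871)))) (l 4)))) (a (a (b (b (c (l 16777544) (b (l 16777496) (l 101703484023))) (l 4)) (l 4)) (l 4)) (l 4))) (l 4))) (b (b (b (a (a (a (b (b (c (l 16777120) (l 16777120)) (a (l 16777520) (l 135526351415))) (c (l 158074929911) (l 195119022423))) (b (c (l 149484995383) (l 190287184199)) (l 4))) (l 4)) (l 4)) (l 4)) (l 4)) (l 4))), by decide +kernel⟩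

def k42_mm_202_t : ∃ t, chk3 f_mm_202_t t 246 147 1 = true :=
  ⟨(a (b (a (a (b (c (c (l 16776080) (l 16776064)) (c (c (l 16776048) (l 16776032)) (b (a (a (l 16775280) (l 16774912)) (b (l 16775848) (l 16775496))) (c (l 16776320) (l 16776312))))) (b (c (b (l 16777280) (a (l 16776808) (c (l 83449873351) (l 85597356983)))) (b (a (l 16776496) (a (l 16776920) (b (l 16777120) (l 80228647463)))) (a (l 16776792) (a (b (l 16777136) (l 86134227511)) (l 195655893335))))) (a (b (c (l 16777736) (a (l 16776952) (b (l 16777144) (l 92576678471)))) (a (c (l 16777208) (b (l 16777160) (l 98482258535))) (l 4))) (l 4)))) (b (b (a (c (l 16776608) (c (l 16776584) (l 16776576))) (a (c (l 16777664) (b (l 16776856) (b (l 16777080) (l 57680069159)))) (b (c (l 16777136) (c (l 16777128) (l 16777496))) (c (l 128547029847) (c (l 137673835175) (l 139284447911)))))) (b (a (c (l 16777024) (a (l 16776888) (b (l 16777096) (l 63048778311)))) (c (l 184381604311) (c (l 185992217047) (l 189213442503)))) (a (a (b (l 16777440) (a (l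 16777184) (l 122104578679))) (b (l 133915738823) (l 4))) (l 4)))) (a (b (c (l 190287184567) (c (l 195655893671) (c (l 197803377319) (l 198340248231)))) (l 4)) (l 4)))) (b (a (a (b (b (b (c (l 134989480775) (l 176328540503)) (l 4)) (l 4)) (l 4)) (l 4)) (l 4)) (l 4))) (l 4)) (l 4)), by decide +kernel⟩

def k43_mm_202_t : ∃ t, chk3 f_mm_202_t t 247 73 1 = true :=
  ⟨(l 4), by decide +kernel⟩

def k44_mm_202_t : ∃ t, chk3 f_mm_202_t t 60 74 1 = true :=
  ⟨(b (b (a (a (c (l 16734072) (l 16737632)) (c (l 16747632) (c (l 16741384) (l 16740664)))) (b (a (c (l 16755416) (l 16751744)) (a (b (l 16758440) (l 16759040)) (c (l 16760760) (l 16761432)))) (a (c (l 16756608) (c (l 16750616) (l 16750088))) (a (b (l 16759640) (l 16760240)) (c (l 16764552) (a (l 16760232) (l 16762440))))))) (c (a (a (l 16736520) (l 16747424)) (b (a (l 16755176) (a (l 16758864) (l 16765720))) (a (l 16756360) (a (l 16760040) (l 16765568))))) (a (a (l 16740152) (c (l 16743856) (l 16743176))) (a (c (c (l 16752568) (l 16757568)) (c (l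 16754696) (l 16754432))) (a (c (l 16761560) (l 16761184)) (a (c (l 16762192) (l 16761888)) (b (l 16763648) (l 16767472)))))))) (b (a (a (c (l 16738944) (l 16740688)) (a (c (l 16745120) (l 16743840)) (c (l 16749256) (l 16750760)))) (b (c (a (l 16757536) (a (l 16761200) (c (l 16765528) (l 16765304)))) (a (c (l 16759504) (l 16756408)) (a (l 16763184) (c (l 16767688) (l 16766128))))) (a (a (c (l 16754000) (l 16753072)) (c (l 16758176) (l 16757408))) (a (c (l 16764984) (c (l 16761920) (l 16761608))) (c (a (l 16765512) (l 16770240)) (c (l 16767560) (l 16767336))))))) (a (c (a (l 16746592) (c (l 16749816) (l 16749288))) (a (c (l 16740280) (l 16739504)) (c (l 16753976) (l 16750760)))) (a (c (a (l 16758376) (a (l 16761496) (l 16763576))) (a (c (l 16755120) (l 16754656)) (c (l 16762024) (l 16761648)))) (b (a (c (l 16766136) (c (l 16763112) (l 16762816))) (c (c (l 16770424) (l 16769592)) (a (l 16767544) (c (l 16768512) (l 16768336))))) (c (a (l 16765976) (a (l 16770424) (c (l 16769976) (l 16769832))))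 (b (a (l 16766480) (c (l 16770936) (l 16769440))) (a (l 16767072) (a (l 16767720) (l 16771216)))))))))), by decide +kernel⟩

def k45_mm_202_t : ∃ t, chk3 f_mm_202_t t 120 150 1 = true :=
  ⟨(b (c (a (l 16748968) (c (l 16757384) (l 16756904))) (a (a (l 16740240) (l 16744480)) (c (l 16753760) (l 16752888)))) (c (a (l 16748712) (a (l 16752184) (l 16758896))) (a (c (l 16745136) (l 16744456)) (c (l 16756152) (c (l 16755776) (l 16755512)))))), by decide +kernel⟩

def k46_mm_202_t : ∃ t, chk3 f_mm_202_t t 121 150 1 = true :=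
  ⟨(b (b (a (a (b (l 16759440) (l 16760032)) (c (l 16764264) (l 16763632))) (c (a (a (l 16764768) (l 16766848)) (c (a (l 16769016) (l 16768472)) (a (l 16768864) (l 16772288)))) (b (a (l 16767672) (a (l 16768312) (l 16771800))) (a (l 16766952) (a (l 16768904) (l 16772064)))))) (a (c (a (l 16758656) (l 16765416)) (a (l 16757896) (c (l 16762360) (l 16762040)))) (c (a (c (l 16769664) (l 16769472)) (c (a (l 16770144) (a (l 16771696) (l 16772736))) (a (l 16770008) (a (l 16771592) (l 16772648))))) (c (a (l 16767952) (a (l 16769856) (c (l 16773352) (l 16773296)))) (a (l 16767728) (a (l 16771016) (a (l 16771352) (l 16773112)))))))) (b (c (a (a (l 16759808) (l 16766560)) (a (a (l 16767040) (c (l 16769200) (l 16769040))) (b (a (l 16770920) (a (l 16772488) (l 16773536))) (a (l 16769520) (a (l 16773048) (l 16772784)))))) (a (a (l 16761712) (c (l 16763536) (l 16763240))) (a (a (l 16767936) (c (l 16768872) (l 16768696))) (a (c (l 16772328) (c (l 16770920) (l 16772168))) (b (c (a (l 16772344) (l 16773424))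 (l 16773776)) (c (a (l 16772920) (l 16774000)) (a (l 16772832) (l 16773928)))))))) (c (a (a (l 16760952) (a (l 16764040) (l 16766104))) (a (a (c (l 16768256) (l 16768088)) (c (l 16770312) (l 16770176))) (c (l 16773408) (l 16774064)))) (a (a (l 16762904) (c (l 16764704) (l 16767056))) (b (a (a (l 16767504) (l 16770976)) (a (c (l 16771888) (l 16773088)) (a (a (l 16773192) (l 16773728)) (b (l 16773088) (l 16773384))))) (a (a (l 16768096) (l 16771560)) (a (c (l 16772464) (l 16773672)) (a (c (l 16774072) (l 16774008)) (c (l 16773840) (c (l 16775112) (l 16774112))))))))))), by decide +kernel⟩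

def k47_mm_202_t : ∃ t, chk3 f_mm_202_t t 120 151 1 = true :=
  ⟨(a (b (a (c (l 16746408) (l 16745120)) (c (l 16750448) (l 16754568))) (c (c (l 16751000) (l 16755720)) (c (l 16755160) (l 16751944)))) (a (c (b (l 16759744) (l 16759416)) (b (c (l 16753800) (l 16753296)) (c (l 16756160) (l 16755696)))) (c (c (b (l 16758752) (l 16761008)) (b (l 16758384) (l 16760688))) (c (b (l 16758000) (l 16762960)) (b (l 16757584) (l 16762592)))))), by decide +kernel⟩

def k48_mm_202_t : ∃ t, chk3 f_mm_202_t t 121 302 1 = true :=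
  ⟨(b (c (a (a (l 16764712) (a (l 16765176) (l 16769856))) (a (a (c (l 16769376) (l 16769224)) (b (l 16771088) (l 16769032))) (a (l 16773448) (c (l 16775536) (l 16775504))))) (a (a (l 16764088) (a (l 16764672) (l 16768128))) (a (a (b (l 16768680) (l 16769264)) (b (l 16772144) (a (l 16770880) (l 16771960)))) (c (c (c (l 16774752) (l 16774896)) (a (a (l 16772768) (l 16772536)) (l 16775464))) (a (a (b (l 16772408) (l 16772992)) (b (l 16773496) (l 16774088))) (c (l 16775768) (c (l 16775432) (l 16775744)))))))) (a (a (c (l 16765848) (c (l 16762800) (l 16762488))) (b (c (l 16769672) (l 16767936)) (a (l 16767680) (b (l 16768328) (l 16769920))))) (a (c (c (a (l 16770488) (l 16769912)) (a (l 16770352) (a (l 16771920) (l 16772960)))) (b (a (l 16771160) (c (l 16772056) (l 16773256))) (a (l 16771736) (c (l 16773936) (l 16773840))))) (a (c (l 16775048) (a (a (b (l 16773344) (l 16772616)) (b (l 16772576) (l 16773480))) (b (b (l 16773240) (l 16773528)) (c (l 16773984) (c (l 16773952) (l 16773936)))))) (c (a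 (l 16776280) (a (b (l 16776616) (l 12046042583)) (b (l 16777928) (l 179012895335)))) (a (b (l 16775776) (c (l 16776368) (l 16776344))) (b (a (l 16776592) (b (l 16777312) (a (l 16777128) (l 125325804327)))) (b (a (l 16777344) (l 180623507879)) (a (a (l 16777488) (l 136600093527)) (l 4)))))))))), by decide +kernel⟩

def k49_mm_202_t : ∃ t, chk3 f_mm_202_t t 121 303 1 = true :=
  ⟨(b (a (c (a (a (l 16763336) (l 16765376)) (a (a (l 16766912) (l 16767944)) (c (l 16769552) (l 16769400)))) (a (c (l 16763960) (l 16763672)) (a (l 16768328) (c (l 16769240) (l 16769064))))) (a (c (a (b (l 16768640) (l 16769192)) (l 16773600)) (b (a (l 16772320) (a (l 16773928) (a (l 16773424) (l 16772656)))) (a (c (l 16771648) (l 16771528)) (c (a (l 16773240) (l 16774304)) (a (l 16773152) (l 16774240)))))) (a (c (c (l 16775680) (l 16775648)) (c (c (l 16775624) (l 16775608)) (c (l 16775752) (c (l 16775576) (l 16775736))))) (b (b (a (a (l 16776528) (c (l 16777056) (l 16777536))) (c (l 190287184695) (a (l 190287184343) (l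 4)))) (a (a (l 16776816) (c (l 16777928) (a (l 16777512) (l 153243091767)))) (l 4))) (a (a (c (l 56069456711) (b (c (l 16777080) (l 16777400)) (a (l 61975036711) (l 4)))) (l 4)) (l 4)))))) (b (a (a (c (l 16765200) (l 16767320)) (c (a (l 16768264) (l 16770320)) (a (l 16767888) (l 16771336)))) (a (c (l 16774056) (a (c (l 16772224) (l 16773424)) (a (a (l 16773504) (l 16772736)) (b (l 16773392) (l 16773680))))) (a (b (a (l 16775808) (a (l 16776600) (a (l 16777000) (a (l 16777672) (l 100629742519))))) (a (l 16776256) (a (l 16777048) (a (a (l 16777688) (l 107072193495)) (l 4))))) (l 4)))) (a (c (a (l 16765768) (a (l 16768824) (l 16770872))) (a (l 16767904) (a (l 16768472) (l 16771920)))) (a (c (l 16774608) (a (c (l 16771152) (l 16774008)) (a (c (l 16774384) (l 16773008)) (l 16775424)))) (a (a (c (l 16776528) (c (l 16776504) (l 16776488))) (a (b (a (l 16777032) (a (l 57143198663) (l 114588386279))) (a (a (l 63585649639) (l 121567708167)) (l 4))) (l 4))) (l 4)))))), by decide +kernel⟩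

def k50_mm_202_t : ∃ t, chk3 f_mm_202_t t 244 148 1 = true :=
  ⟨(a (b (c (c (a (l 16764656) (l 16769392)) (a (l 16764424) (l 16767888))) (c (b (l 16767296) (l 16767184)) (b (l 16765736) (l 16766952)))) (b (c (a (l 16766288) (l 16769728)) (a (l 16767168) (c (l 16768160) (l 16767976)))) (c (a (l 16770064) (c (l 16769632) (l 16769496))) (a (c (l 16767152) (l 16766952)) (c (l 16769344) (l 16770488)))))) (b (a (b (c (l 16769552) (b (l 16767592) (l 16768192))) (c (a (l 16768864) (l 16772552)) (c (l 16769168) (l 16770320)))) (c (b (c (l 16770448) (l 16771632)) (b (l 16772560) (a (l 16771288) (l 16772360)))) (b (c (l 16771504) (l 16770792)) (c (a (l 16770824) (l 16773240)) (c (l 16772600) (l 16772536)))))) (c (a (b (c (l 16770608) (l 16771800)) (b (l 16772720) (c (l 16772032) (l 16771928)))) (a (b (c (l 16772200) (l 16772104)) (b (l 16773008) (l 16772272))) (b (b (l 16772936) (l 16772200)) (l 16774360)))) (b (b (a (l 16771296) (c (l 16773568) (l 16773472))) (a (l 16771240) (c (l 16774160) (c (l 16774096)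 (l 16774048))))) (b (a (c (l 16771240) (l 16771120)) (a (l 16773496) (b (l 16773808) (l 16774104)))) (a (c (l 16771824) (l 16773024)) (c (a (l 16773472) (l 16773264)) (a (l 16773400) (c (l 16774536) (l 16774504)))))))))), by decide +kernel⟩

def k51_mm_202_t : ∃ t, chk3 f_mm_202_t t 488 149 1 = true :=
  ⟨(c (b (c (a (c (l 16771896) (l 16771824)) (b (l 16770768) (a (l 16771376) (l 16772424)))) (a (c (l 16771744) (l 16770360)) (b (l 16771960) (a (l 16771264) (l 16772336))))) (b (b (a (l 16770592) (c (l 16772744) (l 16772656))) (a (l 16772472) (a (l 16772744) (l 16772488)))) (a (c (a (l 16771536) (l 16772576)) (a (l 16771424) (l 16772488))) (a (b (l 16773304) (l 16772560)) (l 16774648))))) (b (a (c (b (l 16768336) (l 16769512)) (b (l 16768152) (l 16770664))) (b (b (l 16771464) (l 16771400)) (c (c (l 16773032) (l 16772976)) (a (l 16771024) (l 16772792))))) (b (a (b (l 16771632) (l 16771568)) (b (c (l 16773880) (l 16773456)) (a (l 16773872) (c (l 16773696) (l 16773624))))) (b (a (a (l 16770952)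 (l 16772048)) (a (a (l 16772872) (l 16773424)) (c (l 16774280) (l 16774872)))) (a (c (l 16772144) (l 16773352)) (c (a (l 16773768) (l 16773544)) (a (l 16773696) (c (l 16774824) (l 16775448))))))))), by decide +kernel⟩

def k52_mm_202_t : ∃ t, chk3 f_mm_202_t t 489 298 1 = true :=
  ⟨(c (a (a (b (c (l 16772352) (l 16772256)) (b (l 16773160) (l 16772416))) (b (b (l 16773080) (l 16772344)) (l 16774504))) (b (c (l 16774984) (l 16774944)) (b (l 16776144) (a (l 16775848) (a (l 16776648) (a (l 16777032) (l 72712455447))))))) (b (a (a (c (l 16773472) (l 16773368)) (b (l 16773576) (a (l 16773232) (l 16775096)))) (c (a (b (l 16774056) (l 16773336)) (l 16775448)) (a (b (l 16775304) (c (l 16774600) (l 16774576))) (a (b (l 16774832) (l 16774608)) (a (b (l 16775256) (l 16775192)) (l 16775832)))))) (b (a (a (a (l 16772720) (l 16773272)) (b (l 16773952) (l 16774904))) (c (l 16775776) (c (l 16775752) (l 16775904)))) (a (c (a (l 16773624) (l 16773400)) (a (l 16773544) (c (l 16774672) (l 16774648)))) (a (a (b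 (l 16775368) (l 16775008)) (l 16776072)) (b (a (l 16776480) (b (l 16776952) (l 16777416))) (a (l 16776768) (a (c (l 16777168) (l 16777496)) (l 144653157143))))))))), by decide +kernel⟩

def k53_mm_202_t : ∃ t, chk3 f_mm_202_t t 489 299 1 = true :=
  ⟨(a (b (c (c (l 16775120) (l 16775080)) (c (a (b (l 16774208) (l 16773472)) (l 16775584)) (a (b (l 16774800) (c (l 16774744) (l 16774720))) (a (b (l 16774976) (l 16774912)) (l 16775992))))) (b (c (l 16776272) (c (l 16776240) (a (a (l 16775048) (l 16774952)) (l 16776600)))) (a (c (l 16775984) (a (c (l 16774360) (l 16774984)) (l 16776208))) (a (b (l 16776624) (b (l 16776840) (l 16776976))) (b (a (c (l 16777032) (l 16777024)) (b (l 16777528) (l 126399546023))) (a (b (l 62511907511) (l 131768255175)) (l 4))))))) (a (b (b (c (l 16776416) (c (l 16776392) (l 16776368))) (b (a (l 16776560) (a (l 16776960) (b (l 16777152) (l 92039807687)))) (a (c (l 16776848) (l 16776832)) (a (b (l 16777496) (l 101166613175)) (l 4))))) (b (a (a (b (l 16777320) (b (l 16777520)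 (l 114051515111))) (b (b (l 16777512) (l 106535322327)) (l 4))) (l 4)) (l 4))) (b (b (a (a (b (l 16776928) (b (l 16777136) (l 82913002199))) (b (b (l 16777128) (l 76470551239)) (c (l 157538058999) (l 161296155367)))) (b (b (l 188676571543) (l 4)) (l 4))) (l 4)) (l 4)))), by decide +kernel⟩

def k54_mm_202_t : ∃ t, chk3 f_mm_202_t t 245 592 1 = true :=
  ⟨(b (a (c (a (c (l 16772296) (l 16772208)) (c (a (l 16773896) (l 16774968)) (a (l 16773840) (l 16773616)))) (a (c (l 16773416) (l 16773320)) (c (a (l 16773776) (c (l 16774896) (l 16774872))) (a (l 16773704) (c (l 16775504) (l 16775480)))))) (a (a (b (a (b (l 16774856) (l 16775000)) (l 16776304)) (c (l 16776176) (l 16776136))) (c (a (l 16777496) (b (l 53921973335) (l 128010159223))) (b (a (l 16776680) (a (l 16777416) (c (l 114051515047) (l 115662127783)))) (a (c (l 16776968) (l 16777296)) (b (l 169886089511) (l 4)))))) (l 4))) (a (a (c (c (l 16772864) (l 16774096)) (c (l 16774008) (c (l 16773944) (l 16773896)))) (c (l 16774984) (a (c (l 16773376)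 (l 16774960)) (a (b (l 16775024) (l 16775320)) (b (l 16774936) (l 16775232)))))) (a (a (b (c (l 16776456) (l 16776432)) (c (l 16776736) (a (l 16776448) (b (l 16776928) (l 16777480))))) (a (b (c (l 62511907895) (a (c (l 16777120) (l 16777448)) (c (l 123178320599) (l 124788933335)))) (a (b (l 111367160551) (l 4)) (l 4))) (l 4))) (l 4)))), by decide +kernel⟩

def k55_mm_202_t : ∃ t, chk3 f_mm_202_t t 245 593 1 = true :=
  ⟨(a (a (a (b (c (l 16772864) (l 16773352)) (c (l 16772128) (a (l 16773008) (l 16774880)))) (c (l 16774880) (b (b (l 16773664) (l 16773960)) (c (l 16773120) (c (l 16774392) (l 16774360)))))) (c (b (l 16775720) (a (l 16775584) (a (l 16776392) (l 16777576)))) (a (b (a (b (l 16774504) (l 16774800)) (b (l 16775064) (l 16775360))) (a (b (l 16775096) (l 16775392)) (l 16775800))) (b (c (l 16776064) (l 16776040)) (b (l 16776496) (a (l 16776512) (a (l 16776928) (a (l 16777128) (l 77007422151))))))))) (a (a (b (a (c (l 16777552) (c (l 16777376) (c (l 16777288) (b (l 16776080) (l 16777432)))))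 (a (b (c (l 16777152) (c (l 16777144) (l 16777472))) (c (l 139284448023) (l 142505673495))) (b (b (l 118346482423) (l 4)) (l 4)))) (a (b (c (l 77007422535) (a (a (l 16777120) (l 70564971191)) (l 147337511719))) (b (l 190824055207) (l 4))) (l 4))) (l 4)) (l 4))), by decide +kernel⟩

def k56_mm_202_t : ∃ t, chk3 f_mm_202_t t 245 297 1 = true :=
  ⟨(a (a (a (c (b (l 16774296) (a (l 16775168) (l 16776024))) (c (b (b (l 16773912) (l 16773192)) (l 16775384)) (b (b (l 16773848) (c (l 16774464) (l 16774432))) (a (b (l 16774760) (l 16774544)) (a (b (l 16775184) (l 16775128)) (l 16775768)))))) (b (a (c (l 16775096) (b (c (l 16774744) (l 16774696)) (b (l 16775160) (l 16774800)))) (c (l 16775960) (b (b (l 16775128) (l 16775424)) (l 16775872)))) (b (c (l 16776216) (c (l 16776192) (l 16776168))) (b (c (l 16776640) (c (l 16776624) (l 16776616))) (a (a (l 16776512) (l 16776784)) (a (b (l 16776984) (l 16777128)) (b (l 70564971191) (l 143042544343)))))))) (a (b (c (b (l 16776160) (c (l 16776720) (l 16777368)))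 (b (c (l 16776128) (l 16776104)) (b (l 16776640) (a (l 16776576) (a (l 16776992) (a (l 16777512) (l 106535322327))))))) (b (a (c (a (l 16776888) (l 16777832)) (b (l 16776864) (a (l 16777024) (a (l 57680069287) (l 124788933287))))) (a (b (b (l 48016392903) (l 114588386039)) (l 4)) (l 4))) (b (a (a (b (l 61975036615) (l 132841996999)) (l 4)) (l 4)) (l 4)))) (b (a (b (c (l 16777688) (b (l 16776808) (a (l 16776960) (a (l 16777488) (l 94187291303))))) (a (b (b (l 16777496) (l 102240355015)) (l 4)) (l 4))) (a (b (b (b (l 16777472) (a (l 16777208) (l 4))) (l 4)) (l 4)) (l 4))) (l 4)))) (l 4)), by decide +kernel⟩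

def k57_mm_202_t : ∃ t, chk3 f_mm_202_t t 245 149 1 = true :=
  ⟨(b (a (a (a (b (b (c (l 16776280) (c (l 16776256) (l 16776240))) (b (c (l 16776704) (c (l 16776688) (c (l 16776680) (l 16777000)))) (a (c (l 16776720) (l 16776704)) (a (c (l 16777112) (l 16777440)) (b (l 101703484087) (l 4)))))) (b (c (a (b (l 16777000) (l 66806875223)) (l 176328540759)) (b (a (c (l 16776992) (l 16777312)) (a (l 124788933415) (l 4))) (a (a (l 16777544) (l 128547029831)) (l 4)))) (a (b (c (l 146263770199) (l 183307862471)) (l 4)) (l 4)))) (b (b (b (a (c (l 16776944) (l 16777256)) (a (b (l 77007422151) (l 146800640759)) (l 4))) (a (a (c (l 16777088) (l 16777408)) (b (l 82913002215) (l 4))) (l 4))) (a (a (b (b (l 92576678599) (l 4)) (l 4)) (l 4)) (l 4))) (l 4))) (l 4)) (l 4)) (l 4)), by decide +kernel⟩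

def k58_mm_202_t : ∃ t, chk3 f_mm_202_t t 976 150 1 = true :=
  ⟨(b (c (c (l 16774392) (a (b (l 16772568) (l 16772392)) (l 16774688))) (b (b (c (l 16774032) (l 16773616)) (a (l 16774032) (b (l 16773664) (l 16773960)))) (a (c (c (l 16773648) (l 16773616)) (c (l 16774888) (l 16774192))) (b (b (l 16774248) (l 16773560)) (c (l 16773688) (c (l 16774968) (l 16773960))))))) (b (b (c (l 16775104) (a (b (l 16774328) (l 16773632)) (l 16775560))) (c (l 16775664) (c (l 16775616) (a (c (l 16775040) (l 16774032)) (l 16776128))))) (b (c (a (l 16775696) (l 16777472)) (a (l 16775632) (a (l 16776448) (a (l 16776856) (b (l 16776984) (l 70564971351)))))) (c (a (l 16776256) (a (l 16777672) (l 114051516023))) (a (c (l 16776224) (l 16776200)) (a (a (l 16777136) (b (l 16777016) (l 84523615031))) (a (b (l 79154905895) (l 4)) (l 4)))))))), by decide +kernel⟩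

def k59_mm_202_t : ∃ t, chk3 f_mm_202_t t 977 150 1 = true :=
  ⟨(b (b (c (c (l 16775264) (l 16775224)) (a (b (b (l 16774176) (l 16773488)) (c (l 16773616) (c (l 16774896) (l 16773888)))) (c (l 16775728) (a (b (l 16775120) (l 16775056)) (l 16776136))))) (b (a (c (l 16775560) (l 16775488)) (c (l 16776608) (a (l 16776312) (b (l 16776712) (l 16777408))))) (a (c (l 16776120) (c (l 16776080) (l 16776056))) (c (a (l 16776896) (c (l 89892324727) (l 91502937447))) (a (c (l 16776888) (c (l 16776880) (l 16777208))) (b (a (l 16777472) (l 130157642567)) (l 184381604295))))))) (b (b (a (c (l 16777328) (a (l 16776376) (a (l 16776792) (b (l 16776920) (l 14193525495))))) (c (b (l 153243091399) (l 192971539271)) (a (b (a (l 16777584) (l 146263769879)) (l 194045280743)) (l 4)))) (a (a (b (l 16776824) (a (l 16776976) (b (l 16777160) (l 98482258599)))) (b (c (l 84523615335) (a (l 55532585735) (l 160759284471))) (l 4))) (l 4))) (a (a (b (a (b (b (l 16777176) (l 104387838663)) (l 4)) (l 4)) (l 4)) (l 4)) (l 4)))),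 by decide +kernel⟩

def k60_mm_202_t : ∃ t, chk3 f_mm_202_t t 489 150 1 = true :=
  ⟨(a (b (b (b (a (c (l 16776544) (c (l 16776520) (c (l 16776512) (l 16776832)))) (a (b (a (c (l 16777056) (l 16777056)) (b (l 68417487575) (l 142505673431))) (c (l 115662128247) (c (l 121567708119) (l 166664864055)))) (l 4))) (a (c (a (l 16776832) (a (l 55532586231) (l 118346483015))) (a (c (l 16776824) (l 16777144)) (b (a (l 16777080) (l 105461580599)) (c (l 96334775207) (l 173107315047))))) (l 4))) (a (a (b (c (a (l 61438166311) (l 125862675815)) (b (a (l 16777440) (l 116735869767)) (l 177402282391))) (l 4)) (l 4)) (l 4))) (l 4)) (l 4)), by decide +kernel⟩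

def k61_mm_202_t : ∃ t, chk3 f_mm_202_t t 244 151 1 = true :=
  ⟨(b (a (a (b (b (b (a (c (l 16776664) (l 16776808)) (a (a (b (l 16777552) (l 139821318871)) (l 4)) (l 4))) (a (a (l 16776672) (a (l 16777560) (b (l 16777568) (l 146263769831)))) (l 4))) (a (c (a (l 16777736) (l 126936417927)) (a (b (l 16776952) (a (l 16777096) (l 109756547911))) (c (l 173107315207) (c (l 176328540663) (l 177402282487))))) (l 4))) (a (b (a (b (c (l 129083901031) (l 173644185975)) (l 4)) (l 4)) (l 4)) (l 4))) (l 4)) (l 4)) (l 4)), by decide +kernel⟩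

def k62_mm_202_t : ∃ t, chk3 f_mm_202_t t 245 75 1 = true :=
  ⟨(l 4), by decide +kernel⟩

def k63_mm_202_t : ∃ t, chk3 f_mm_202_t t 123 37 1 = true :=
  ⟨(l 4), by decide +kernel⟩

def k64_mm_202_t : ∃ t, chk3 f_mm_202_t t 31 18 1 = true :=
  ⟨(l 4), by decide +kernel⟩

def k65_mm_202_t : ∃ t, chk3 f_mm_202_t t 240 38 1 = true :=
  ⟨(b (c (b (b (a (l 16751040) (l 16760288)) (c (l 16760776) (l 16757712))) (b (a (l 16760832) (b (l 16759000) (l 16760120))) (a (c (l 16758024) (l 16757632)) (b (l 16761232) (l 16764968))))) (b (b (c (l 16754904) (l 16754352)) (a (l 16754920) (c (l 16756680) (l 16756224)))) (a (c (b (l 16754896) (l 16757208)) (b (l 16754392) (l 16756752))) (c (b (l 16758992) (l 16763912)) (b (l 16758584) (l 16763552)))))) (c (b (a (c (b (l 16760224) (l 16757168)) (b (l 16759880) (l 16764728))) (b (c (a (l 16763152) (l 16765112)) (a (l 16762864) (l 16764856))) (c (a (l 16765328) (l 16762032)) (a (l 16765080) (l 16764448))))) (b (c (l 16767824) (a (a (l 16763328) (l 16765296)) (a (l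 16764656) (a (l 16766144) (l 16767136))))) (a (c (a (l 16765760) (l 16762448)) (a (l 16765520) (l 16764864))) (a (l 16769536) (l 16772144))))) (b (c (b (a (l 16759496) (l 16766192)) (a (l 16764392) (c (l 16768512) (l 16768384)))) (a (b (l 16761712) (l 16764032)) (b (c (l 16763336) (l 16765792)) (a (l 16767144) (l 16767912))))) (b (b (a (l 16764616) (a (l 16768992) (c (l 16768520) (l 16768320)))) (a (a (l 16763424) (l 16765456)) (a (c (l 16767616) (l 16767384)) (c (l 16769640) (l 16769456))))) (b (a (a (l 16764552) (l 16769208)) (c (a (l 16768728) (l 16770744)) (a (l 16768528) (l 16771904)))) (a (a (l 16765680) (c (l 16767824) (l 16767600))) (c (a (l 16769832) (l 16769232)) (a (l 16769664) (a (l 16771208) (l 16772240)))))))))), by decide +kernel⟩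

def k66_mm_202_t : ∃ t, chk3 f_mm_202_t t 241 76 1 = true :=
  ⟨(c (a (c (b (b (l 16759240) (l 16761472)) (b (a (l 16762696) (l 16764672)) (a (l 16764888) (l 16764240)))) (b (b (l 16758880) (l 16766400)) (b (l 16766032) (c (l 16768328) (l 16768208))))) (b (b (b (l 16765160) (l 16766288)) (c (a (l 16764456) (l 16766456)) (c (l 16767904) (l 16767784)))) (a (b (b (l 16766000) (l 16767104)) (b (l 16765584) (l 16766680))) (b (b (l 16765392) (a (l 16768608) (l 16769616))) (a (l 16770256) (l 16772568)))))) (a (c (b (b (l 16758496) (l 16763432)) (b (l 16765736) (a (l 16764368) (l 16769048)))) (b (b (l 16758080) (l 16763072)) (b (c (l 16762880) (l 16765336)) (a (l 16764072) (l 16767488))))) (b (c (b (l 16765280) (a (l 16763928) (l 16768624))) (b (c (l 16762424) (l 16764880)) (a (l 16763632) (l 16767064)))) (b (b (a (l 16765512) (l 16768928)) (a (l 16769288) (c (l 16768856) (l 16768664)))) (b (c (a (l 16767920) (l 16769984)) (a (l 16767704) (l 16771136))) (a (b (l 16768672) (l 16769240)) (b (l 16772072)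 (a (l 16770808) (l 16771848))))))))), by decide +kernel⟩

def k67_mm_202_t : ∃ t, chk3 f_mm_202_t t 241 154 1 = true :=
  ⟨(b (b (c (c (l 16770792) (a (a (l 16766304) (l 16768312)) (a (l 16770328) (l 16769720)))) (c (a (l 16769712) (a (l 16770176) (a (l 16771720) (l 16772752)))) (a (l 16768824) (a (l 16771328) (b (l 16771832) (l 16773720)))))) (c (a (a (l 16767512) (l 16766872)) (l 16773136)) (a (a (l 16769704) (c (l 16769248) (l 16769064))) (b (a (a (l 16770424) (l 16771464)) (a (l 16772504) (l 16772240))) (a (c (l 16771576) (l 16771448)) (c (l 16772320) (a (l 16773024) (l 16774080)))))))) (a (c (a (l 16769144) (a (l 16770632) (l 16771616))) (b (c (a (l 16768320) (l 16770368)) (a (l 16768112) (l 16771520))) (c (a (l 16769440) (l 16769512)) (a (l 16769256) (a (l 16770824) (l 16771872)))))) (a (c (c (l 16773144) (l 16773064)) (a (b (c (l 16771904) (l 16771776)) (b (l 16772688) (l 16771936))) (b (b (l 16772592) (l 16771848)) (l 16774000)))) (b (b (b (l 16774744) (l 16774688)) (c (l 16774824) (l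 16774720))) (c (l 16775632) (c (l 16775576) (c (l 16775544) (l 16775528)))))))), by decide +kernel⟩

def k68_mm_202_t : ∃ t, chk3 f_mm_202_t t 241 155 1 = true :=
  ⟨(b (a (b (c (l 16771752) (c (a (l 16770552) (a (l 16772080) (l 16770480))) (a (l 16771712) (b (l 16772200) (l 16771128))))) (c (l 16773488) (a (c (l 16769048) (a (l 16771016) (l 16772056))) (a (b (l 16772864) (l 16772112)) (l 16774176))))) (a (b (c (l 16774720) (a (l 16774088) (a (l 16774864) (l 16775384)))) (c (l 16776112) (c (l 16775736) (c (l 16775712) (l 16775696))))) (a (b (c (l 16776200) (c (l 16776168) (l 16776144))) (b (c (l 16778288) (a (l 16776736) (b (l 16777096) (l 95797904535)))) (a (c (l 16777880) (b (l 16777784) (l 110830289959))) (l 4)))) (b (c (b (l 16778216) (a (l 16777176) (l 151095608935))) (a (b (l 16776656) (b (l 16777064) (l 87207969879))) (b (b (l 16777024) (l 79691777047)) (l 191897797239)))) (l 4))))) (a (b (c (c (l 16773936) (l 16773864)) (c (l 16774120) (a (a (l 16772152) (l 16771552)) (l 16774744))))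 (a (a (b (l 16773136) (l 16773688)) (b (l 16774144) (l 16775016))) (b (c (l 16775680) (l 16775608)) (c (l 16776208) (a (l 16775648) (a (l 16776416) (l 16777584))))))) (a (a (b (c (l 16776352) (b (l 16776040) (l 16776920))) (b (a (c (l 16776904) (l 16777544)) (b (a (l 16777136) (l 118883353623)) (l 133915739511))) (a (b (a (l 16777168) (l 130694513735)) (l 145190028711)) (l 4)))) (b (c (b (l 16778032) (l 105998452807)) (a (b (l 16776808) (b (l 16777672) (l 130157642823))) (b (b (l 16777816) (l 118346482791)) (l 4)))) (l 4))) (l 4)))), by decide +kernel⟩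

def k69_mm_202_t : ∃ t, chk3 f_mm_202_t t 242 152 1 = true :=
  ⟨(a (c (a (b (c (l 16766256) (l 16768656)) (b (l 16765192) (a (l 16768416) (l 16769432)))) (b (b (l 16765000) (c (l 16768816) (l 16768648))) (a (b (l 16769336) (l 16767824)) (l 16771560)))) (a (b (b (l 16765096) (l 16768880)) (b (l 16768728) (a (l 16768040) (l 16770408)))) (b (b (l 16768528) (c (l 16768472) (l 16768272))) (c (b (l 16769608) (l 16772064)) (b (l 16769440) (l 16771912)))))) (b (c (c (l 16772608) (b (a (l 16769584) (a (l 16771136) (l 16772168))) (a (l 16770704) (c (l 16770168) (l 16770120))))) (c (b (a (l 16769424) (a (l 16771008) (l 16772064))) (a (l 16771880) (a (l 16772144) (l 16771888)))) (b (a (l 16769256) (a (l 16770872) (l 16773256))) (a (l 16771736) (a (l 16773344) (c (l 16773136) (l 16773088))))))) (b (c (a (c (l 16769304) (l 16769856)) (l 16773912)) (a (c (a (l 16771184) (l 16772232)) (c (l 16772928) (l 16772864))) (c (a (l 16771976) (c (l 16773040) (l 16773008))) (a (c (l 16773216) (l 16773176)) (b (l 16773984)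 (l 16773248)))))) (c (c (l 16774024) (l 16774288)) (c (c (l 16773912) (l 16774368)) (a (a (l 16773520) (c (l 16773304) (l 16773256))) (a (b (l 16774064) (l 16773328)) (l 16775424)))))))), by decide +kernel⟩

def k70_mm_202_t : ∃ t, chk3 f_mm_202_t t 486 152 1 = true :=
  ⟨(a (b (c (b (l 16773752) (l 16775184)) (c (c (l 16774888) (l 16774688)) (b (a (c (l 16773048) (l 16773008)) (b (l 16773816) (l 16773088))) (b (a (l 16773904) (c (l 16774992) (l 16774968))) (a (l 16773168) (a (l 16775288) (l 16774520))))))) (a (c (b (l 16775440) (c (l 16776536) (l 16777176))) (b (c (l 16775392) (l 16775344)) (b (l 16776224) (a (l 16776528) (a (l 16776920) (b (l 16777048) (l 93113549671))))))) (c (b (c (l 16776464) (l 16777104)) (b (a (l 16777016) (l 112440903271)) (l 171496702743))) (b (b (l 16776152) (a (l 16776456) (a (l 16776848) (b (l 16776976) (l 16777544))))) (a (c (b (l 16777008) (l 129083901175)) (b (c (l 16777656) (l 16777616)) (c (l 169349218743) (l 169886089655)))) (a (b (b (l 77544293127) (l 4))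 (l 4)) (l 4))))))) (b (b (b (c (l 16775536) (a (b (l 16773472) (l 16773760)) (l 16776000))) (c (l 16776736) (a (l 16775504) (b (l 16776432) (l 16777040))))) (b (a (c (l 16776120) (l 16776072)) (c (a (l 16776888) (l 86671099447)) (a (c (l 16776872) (l 16777192)) (b (a (l 16777128) (l 122641449767)) (l 179549766039))))) (a (c (l 16776664) (c (l 16776648) (c (l 16776640) (l 16777040)))) (a (c (l 91502937719) (b (a (l 16777152) (l 134452609879)) (l 189750313415))) (l 4))))) (a (b (a (b (b (l 16776816) (b (l 16777016) (l 7751074647))) (a (b (a (l 16777496) (l 94187291543)) (l 4)) (l 4))) (b (b (a (a (l 16777136) (l 73786196999)) (l 140895061111)) (l 191897797111)) (l 4))) (l 4)) (l 4)))), by decide +kernel⟩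

def k71_mm_202_t : ∃ t, chk3 f_mm_202_t t 487 152 1 = true :=
  ⟨(a (a (b (b (a (c (b (l 16776816) (l 79154906711)) (a (b (l 16776672) (b (l 16777096) (l 114588386103))) (b (l 16777264) (b (l 106535322439) (l 4))))) (b (c (l 73786197543) (b (a (l 16777056) (l 92576678743)) (c (l 122641449943) (l 124252062663)))) (l 4))) (l 4)) (l 4)) (l 4)) (l 4)), by decide +kernel⟩

def k72_mm_202_t : ∃ t, chk3 f_mm_202_t t 484 153 1 = true :=
  ⟨(b (a (c (a (b (l 16769520) (l 16768000)) (l 16771736)) (c (b (l 16769800) (a (l 16770408) (l 16771448))) (b (l 16770944) (l 16772096)))) (b (c (c (l 16769480) (l 16769376)) (c (a (l 16771360) (l 16772408)) (c (l 16773104) (l 16773040)))) (c (l 16773144) (a (b (l 16772152) (l 16772720)) (c (l 16772224) (c (l 16773472) (l 16773424))))))) (b (c (b (l 16772952) (l 16773496)) (a (c (a (l 16771536) (l 16772576)) (c (l 16773280) (l 16773224))) (a (b (l 16771984) (a (l 16773600) (l 16772808))) (a (l 16774368) (l 16775216))))) (b (c (l 16774696) (a (a (l 16772328) (l 16772064))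 (l 16775280))) (c (l 16774912) (c (l 16774824) (a (a (l 16772848) (l 16773904)) (l 16775496))))))), by decide +kernel⟩

def k73_mm_202_t : ∃ t, chk3 f_mm_202_t t 485 153 1 = true :=
  ⟨(a (b (c (b (l 16774072) (l 16775488)) (a (b (c (l 16772136) (c (l 16773384) (l 16773344))) (a (l 16774280) (l 16775136))) (c (c (l 16775072) (l 16775048)) (b (b (l 16774144) (l 16773408)) (l 16775584))))) (b (b (c (l 16775976) (c (l 16775936) (l 16775912))) (b (c (l 16776376) (c (l 16777008) (a (l 16774496) (l 16777352)))) (a (l 16776128) (a (l 16776896) (b (l 94187291591) (l 136600093671)))))) (b (a (c (l 16776552) (c (l 16776536) (l 16776520))) (a (a (b (l 16777048) (l 88818582615)) (b (l 83986744375) (l 4))) (l 4))) (a (a (c (l 16776840) (l 16777152)) (a (b (l 16777080) (l 100629742727)) (b (l 94724162663) (l 4)))) (l 4))))) (b (a (b (c (l 16775592) (c (l 16775544) (l 16775504))) (b (c (l 16776408) (l 16776376)) (c (l 16778080) (a (l 16776680) (b (l 16777704) (a (l 16777192) (l 153779962679))))))) (b (b (c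 (l 16776336) (l 16776296)) (b (c (l 16776744) (l 16777048)) (a (l 16776752) (a (l 16777784) (l 119957095447))))) (b (b (c (l 66806875591) (a (l 16777016) (l 143042544695))) (a (a (l 16777736) (l 130694513735)) (l 4))) (c (l 190287184855) (c (l 194582152135) (l 196729635767)))))) (a (a (b (b (c (l 16777840) (b (l 16777744) (a (l 16777544) (l 4)))) (l 4)) (l 4)) (l 4)) (l 4)))), by decide +kernel⟩

def k74_mm_202_t : ∃ t, chk3 f_mm_202_t t 243 153 1 = true :=
  ⟨(b (b (a (a (a (a (b (b (l 16777368) (c (l 16777192) (c (l 16777192) (l 58753810711)))) (c (l 133915739735) (c (l 177402282535) (l 180086637079)))) (b (b (b (l 108682806311) (l 4)) (l 4)) (l 4))) (l 4)) (l 4)) (l 4)) (l 4)) (l 4)), by decide +kernel⟩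

def k75_mm_202_t : ∃ t, chk3 f_mm_202_t t 121 77 1 = true :=
  ⟨(a (b (a (a (b (c (b (l 16774392) (l 16775472)) (c (c (l 16774872) (l 16775176)) (c (c (l 16774824) (l 16775136)) (c (l 16775040) (c (l 16775112) (l 16775104)))))) (b (b (c (l 16776928) (c (l 16776896) (a (l 16774384) (c (l 16776744) (l 16777232))))) (a (c (l 16776320) (l 16776280)) (a (c (l 16777048) (c (l 16777040) (l 16777728))) (c (l 119957095991) (c (l 125325804855) (l 166664864183)))))) (b (a (c (l 16776840) (a (l 16776576) (b (l 16776952) (l 58216940615)))) (b (c (l 136600094311) (l 176328540791)) (l 4))) (a (a (b (l 16777648) (a (l 16777136) (l 120493966359))) (c (l 134452610647) (a (l 128010159447) (l 4)))) (l 4))))) (b (b (b (c (l 16776128) (c (l 16776088) (a (l 16774224) (l 16776592)))) (a (c (l 16776168) (l 16776120)) (a (b (l 16776776) (l 16777696)) (a (b (l 16777800) (l 129620771911)) (b (l 123715191863) (l 4)))))) (b (a (c (l 16776696) (c (l 16776680) (l 16777160))) (a (b (a (l 16777832) (l 138747577447)) (l 189213442535))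 (l 4))) (a (a (c (l 16776984) (c (l 16776968) (l 16777616))) (a (b (l 57680069735) (l 4)) (l 4))) (l 4)))) (a (a (b (a (b (b (l 71101842503) (l 4)) (l 4)) (l 4)) (l 4)) (l 4)) (l 4)))) (a (a (a (b (b (b (b (a (l 16777112) (l 106535322791)) (c (l 16777736) (l 134989481063))) (l 4)) (l 4)) (l 4)) (l 4)) (l 4)) (l 4))) (a (a (a (b (b (a (b (c (l 146263770679) (l 182770991687)) (l 4)) (l 4)) (l 4)) (l 4)) (l 4)) (l 4)) (l 4))) (l 4)), by decide +kernel⟩

def k76_mm_202_t : ∃ t, chk3 f_mm_202_t t 240 156 1 = true :=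
  ⟨(b (c (a (a (b (l 16767264) (l 16763088)) (l 16769736)) (c (l 16772696) (l 16773256))) (c (a (a (b (l 16766928) (l 16768032)) (b (l 16768928) (l 16770032))) (c (l 16772528) (l 16773128))) (b (b (a (l 16767424) (a (l 16770512) (l 16772568))) (a (l 16770608) (a (l 16771072) (l 16771824)))) (a (a (l 16767816) (l 16769864)) (a (a (l 16771400) (l 16772432)) (a (l 16772152) (a (l 16772920) (l 16773440)))))))) (a (b (c (l 16770368) (a (a (l 16768536) (l 16766920)) (b (l 16768160) (l 16769376)))) (a (c (l 16767840) (b (l 16769872) (l 16770432))) (b (l 16772672) (l 16773208)))) (a (b (c (l 16773272) (l 16773744)) (c (l 16774328) (a (l 16773688) (l 16774696)))) (c (b (l 16775208) (b (l 16776000) (l 16777824))) (b (c (l 16775144) (l 16775096)) (b (l 16775944) (a (l 16775984) (a (l 16776744) (a (l 16777768) (l 95261033767)))))))))), by decide +kernel⟩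

def k77_mm_202_t : ∃ t, chk3 f_mm_202_t t 240 157 1 = true :=
  ⟨(a (b (b (a (b (l 16771128) (l 16771664)) (c (l 16773448) (l 16773928))) (a (b (l 16772856) (l 16773400)) (c (l 16774496) (a (l 16773872) (l 16774872))))) (a (b (c (l 16773624) (l 16774112)) (c (l 16774672) (c (l 16774584) (l 16774520)))) (b (c (l 16775544) (c (l 16775488) (l 16775448))) (b (c (l 16776320) (c (l 16776288) (a (l 16774456) (l 16777424)))) (a (c (l 16776368) (l 16776328)) (c (l 70028101591) (a (l 16777720) (l 125862676023)))))))) (a (b (b (c (l 16775376) (c (l 16775312) (l 16775272))) (b (c (l 16776160) (c (l 16776128) (l 16776096))) (a (c (l 16776208) (l 16776160)) (a (c (l 16776920) (l 16776904)) (b (l 70028100967) (l 140895061383)))))) (b (b (a (c (l 16776720) (l 16777352)) (a (b (l 80765519191) (l 151632479511)) (l 4))) (a (a (c (l 16777000) (l 16777640)) (b (l 90429195623) (l 4))) (l 4))) (a (c (l 171496703015) (c (l 176328541207) (b (l 173644186295) (l 4)))) (l 4)))) (b (b (b (a (c (l 16776568) (l 16776536))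 (a (b (l 16777800) (l 105998452103)) (l 4))) (a (a (a (l 16776720) (l 16777616)) (b (l 17414751527) (l 115125257655))) (l 4))) (a (b (a (b (l 60901295447) (l 126399546775)) (l 4)) (l 4)) (l 4))) (l 4)))), by decide +kernel⟩

def k78_mm_202_t : ∃ t, chk3 f_mm_202_t t 241 78 1 = true :=
  ⟨(b (a (a (b (c (b (l 16775048) (c (l 16776112) (l 16776744))) (b (c (l 16774976) (l 16774920)) (b (l 16775776) (a (l 16775816) (a (l 16776584) (a (l 16776960) (l 56069456503))))))) (b (a (b (c (l 16776408) (l 16776368)) (a (l 16776680) (b (l 16777032) (a (l 16777176) (l 132305126471))))) (c (b (l 75396810807) (l 185992217495)) (a (b (a (l 16777000) (l 65733133591)) (l 181697249863)) (b (l 175791669767) (l 4))))) (a (b (b (a (l 16777728) (l 145190028711)) (c (l 116198999639) (l 160222413255))) (l 4)) (l 4)))) (b (a (c (b (l 16777160) (b (l 67343746999) (l 173107315495))) (b (c (l 16777136) (b (l 16776192) (l 16777400))) (a (b (a (l 16776920) (l 10972300503)) (l 168812347863)) (c (l 173107315447) (b (l 123178321271)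 (l 4)))))) (b (b (a (c (l 16776976) (l 16777616)) (b (a (l 16777848) (l 141968802935)) (l 4))) (c (l 164517380807) (c (l 169349218999) (c (l 172033573543) (l 172570444455))))) (l 4))) (l 4))) (l 4)) (l 4)), by decide +kernel⟩

def k79_mm_202_t : ∃ t, chk3 f_mm_202_t t 120 79 1 = true :=
  ⟨(a (b (a (b (b (a (c (l 16775712) (c (l 16775664) (l 16775624))) (b (a (c (l 16776872) (b (l 16776736) (l 16777640))) (c (l 175791670087) (l 180086637351))) (a (a (b (l 16777024) (l 75396810071)) (b (l 132841997671) (l 4))) (l 4)))) (a (b (a (l 16775984) (a (l 16776720) (b (l 16777064) (l 85060486519)))) (a (c (l 16776536) (l 16776504)) (a (b (l 16777104) (l 94724162951)) (l 4)))) (a (b (b (l 188139700983) (l 4)) (l 4)) (l 4)))) (a (a (b (b (a (l 16777456) (b (l 16777792) (l 105998452087))) (a (b (l 16777832) (l 115125257655)) (l 4))) (l 4)) (l 4)) (l 4))) (l 4)) (l 4)) (l 4)), by decide +kernel⟩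

def k80_mm_202_t : ∃ t, chk3 f_mm_202_t t 121 39 1 = true :=
  ⟨(l 4), by decide +kernel⟩

def k81_mm_202_t : ∃ t, chk3 f_mm_202_t t 61 19 1 = true :=
  ⟨(l 4), by decide +kernel⟩

def k82_mm_202_t : ∃ t, chk3 f_mm_202_t t 31 19 1 = true :=
  ⟨(l 4), by decide +kernel⟩

def k83_mm_202_t : ∃ t, chk3 f_mm_202_t t 12 20 1 = true :=
  ⟨(a (l 6) (a (b (b (l 6) (c (l 16570256) (l 16578752))) (c (b (c (l 16570584) (l 16575344)) (b (l 16575200) (b (l 16576504) (l 16578144)))) (b (l 16583928) (b (l 16585992) (l 16587888))))) (b (c (b (l 16585480) (l 16588112)) (b (l 16586344) (l 16596312))) (c (b (a (l 16586568) (l 16596040)) (b (l 16594072) (b (l 16595584) (l 16597264)))) (b (l 16600704) (b (l 16603200) (l 16605344))))))), by decide +kernel⟩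

def k84_mm_202_t : ∃ t, chk3 f_mm_202_t t 13 20 1 = true :=
  ⟨(b (a (c (a (b (l 16603824) (b (l 16606192) (l 16566000))) (a (b (l 16618272) (l 16621952)) (b (l 16628384) (l 16632360)))) (a (b (l 16605360) (l 16615056)) (b (l 16625576) (l 16633880)))) (a (a (c (b (l 16639040) (l 16643312)) (b (l 16641216) (l 16649056))) (c (b (l 16650264) (l 16654832)) (b (l 16651816) (l 16659968)))) (b (c (a (l 16662016) (l 16674288)) (a (l 16662600) (l 16673592))) (c (a (l 16666896) (l 16679464)) (a (l 16671464) (l 16682568)))))) (c (a (a (b (a (l 16584832) (l 16584384)) (b (l 16614016) (b (l 16615736) (l 16617472)))) (b (c (l 16640688) (a (l 16627664) (l 16638200))) (b (l 16645608) (b (l 16647536) (l 16638832))))) (a (b (b (a (l 16646864) (l 16658600)) (a (l 16649392) (l 16661272))) (b (a (l 16652048) (l 16664072)) (b (a (l 16654136) (l 16666264)) (l 16672496)))) (b (c (a (l 16671416) (b (l 16682904) (l 16685904))) (l 16679568)) (b (a (l 16687128) (a (l 16686400) (l 16693064))) (b (a (l 16689424) (a (l 16688776)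 (l 16695488))) (a (l 16680816) (l 16694024))))))) (a (b (a (l 16618672) (c (l 16636120) (l 16639792))) (a (b (l 16621600) (l 16623984)) (b (l 16641256) (a (l 16638728) (l 16649064))))) (b (a (c (l 16657664) (l 16660600)) (a (l 16676512) (l 16688840))) (a (b (l 16662880) (b (l 16664888) (l 16666608))) (b (a (l 16680632) (l 16693192)) (b (a (l 16682800) (l 16695464)) (l 16690888)))))))), by decide +kernel⟩

def k85_mm_202_t : ∃ t, chk3 f_mm_202_t t 6 21 1 = true :=
  ⟨(a (a (a (b (l 6) (c (l 16591112) (l 16580088))) (b (c (b (l 16565504) (l 16573704)) (l 16580864)) (c (b (l 16539960) (l 16590104)) (l 16595832)))) (b (c (a (b (l 16604248) (l 16612464)) (b (l 16623376) (a (l 16605720) (l 16615544)))) (a (b (l 16593280) (l 16600784)) (b (l 16610800) (l 16618384)))) (a (c (b (l 16599728) (l 16607984)) (l 16612216)) (c (b (l 16618912) (l 16627200)) (b (l 16626088) (l 16633176)))))) (a (b (b (a (c (c (l 16621216) (l 16624128)) (l 16629520)) (a (c (l 16638456) (l 16644320)) (c (l 16670472) (l 16654696))))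 (a (c (b (l 16649760) (l 16653896)) (l 16637184)) (c (c (l 16661736) (a (l 16647896) (l 16658800))) (a (l 16652048) (l 16662464))))) (a (c (b (l 16649640) (l 16647464)) (b (l 16644968) (l 16652480))) (b (a (b (l 16655232) (l 16659288)) (b (l 16671232) (l 16670024))) (a (c (l 16663304) (l 16667736)) (a (l 16673328) (l 16678816)))))) (b (a (c (c (a (b (l 16660192) (l 16668544)) (b (l 16672464) (l 16680800))) (b (a (l 16662112) (l 16674136)) (a (l 16670256) (l 16661304)))) (b (a (l 16665680) (l 16677256)) (a (l 16673456) (l 16685048)))) (b (c (a (b (l 16683896) (a (l 16684776) (l 16691240))) (l 16699128)) (a (l 16689408) (l 16702080))) (c (a (l 16694136) (l 16707240)) (a (l 16697168) (l 16709792))))) (a (b (c (a (l 16677616) (l 16689696)) (a (l 16681288) (l 16692840))) (c (a (l 16685808) (l 16697840)) (a (l 16689104) (l 16700616)))) (b (c (a (l 16702272) (l 16715304)) (a (l 16704912) (b (l 16715560) (l 16719400)))) (c (a (l 16710352) (l 16723312)) (a (l 16712472) (b (l 16722808) (l 16726152))))))))),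 by decide +kernel⟩

def k86_mm_202_t : ∃ t, chk3 f_mm_202_t t 12 11 1 = true :=
  ⟨(b (a (a (b (c (l 16586408) (l 16587104)) (c (l 16601720) (l 16594056))) (b (c (l 16602400) (l 16603712)) (c (l 16617936) (l 16611304)))) (b (a (c (b (l 16616240) (l 16624464)) (b (l 16619120) (l 16623144))) (c (b (l 16635480) (l 16643712)) (b (l 16637496) (l 16641992)))) (a (c (l 16635184) (l 16641352)) (a (b (l 16644448) (l 16649112)) (b (l 16654200) (l 16659128)))))) (a (b (a (b (l 16603896) (l 16608376)) (b (l 16621200) (l 16626136))) (a (c (l 16619008) (l 16634144)) (c (l 16637088) (b (l 16628928) (l 16635544))))) (a (b (c (l 16644512) (b (l 16615872) (l 16642512))) (c (l 16667240) (b (l 16648896) (l 16677152)))) (b (a (b (l 16654304) (l 16660184)) (b (l 16664608) (l 16670776))) (c (a (b (l 16668496) (l 16675696)) (l 16682912)) (b (l 16680848) (a (l 16672440) (l 16683840)))))))), by decide +kernel⟩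

def k87_mm_202_t : ∃ t, chk3 f_mm_202_t t 13 22 1 = true :=
  ⟨(c (a (b (a (b (l 16655720) (l 16663944)) (b (l 16682256) (l 16685192))) (a (b (l 16671344) (l 16676576)) (b (l 16692744) (l 16703832)))) (b (a (b (a (l 16693968) (l 16705944)) (a (l 16702088) (l 16714024))) (b (a (l 16718392) (b (l 16729296) (l 16733272))) (a (l 16726416) (b (l 16737240) (l 16741216))))) (a (b (a (l 16709760) (l 16721624)) (a (l 16716096) (l 16733552))) (b (a (b (l 16732200) (l 16735624)) (b (l 16744832) (l 16748456))) (a (b (l 16739144) (l 16742800)) (b (l 16754784) (a (l 16752656) (l 16759392)))))))) (a (b (a (b (l 16657288) (l 16662272)) (b (a (l 16673048) (l 16684040)) (a (l 16678440) (l 16689720)))) (a (b (l 16667488) (l 16673000)) (a (c (l 16687824) (l 16686072)) (b (l 16695648) (l 16701896))))) (b (a (b (a (l 16695328) (l 16706936)) (a (l 16701320) (l 16713264))) (b (a (b (l 16717280) (l 16720560)) (b (l 16729552) (l 16733024))) (a (b (l 16723896) (l 16727312)) (b (l 16736552) (l 16740160))))) (a (a (b (l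 16707568) (l 16714144)) (b (l 16723792) (a (l 16723576) (l 16730000)))) (b (a (b (l 16730792) (l 16734336)) (b (l 16745792) (a (l 16744208) (l 16750944)))) (a (b (l 16737968) (l 16744376)) (b (a (l 16747984) (l 16754816)) (a (l 16751912) (l 16758856))))))))), by decide +kernel⟩

def k88_mm_202_t : ∃ t, chk3 f_mm_202_t t 26 23 1 = true :=
  ⟨(b (a (b (c (l 16682368) (a (l 16673400) (l 16663784))) (c (l 16688856) (a (l 16680056) (l 16702208)))) (b (b (a (l 16696280) (l 16708144)) (a (l 16699648) (l 16711680))) (b (a (l 16703200) (l 16715400)) (a (l 16706984) (l 16724560))))) (a (b (c (l 16696112) (a (l 16687536) (b (l 16697480) (l 16701520)))) (c (l 16714272) (a (l 16716544) (b (l 16705656) (l 16709792))))) (b (b (a (l 16710888) (l 16728592)) (a (l 16714912) (l 16732632))) (b (a (l 16718952) (l 16736680)) (a (l 16722992) (l 16740728)))))), by decide +kernel⟩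

def k89_mm_202_t : ∃ t, chk3 f_mm_202_t t 27 46 1 = true :=
  ⟨(a (b (a (b (l 16724992) (a (l 16720960) (l 16727280))) (a (b (l 16729864) (l 16733728)) (b (l 16736312) (l 16740256)))) (b (a (a (l 16724824) (l 16731224)) (a (l 16737720) (l 16749560))) (a (a (l 16728816) (l 16735272)) (c (l 16745496) (l 16744624))))) (b (a (b (c (l 16746648) (l 16749016)) (c (l 16750608) (b (l 16748816) (l 16750904)))) (b (c (a (l 16756624) (l 16763400)) (a (l 16756024) (l 16764640))) (c (a (l 16760672) (l 16767480)) (a (l 16760208) (c (l 16767288) (l 16767136)))))) (a (c (b (l 16759888) (a (l 16755336) (l 16762008))) (a (c (l 16752856) (l 16757720)) (b (l 16757448) (l 16761608)))) (a (b (c (l 16764720) (l 16765696)) (c (l 16768768) (c (l 16768608) (l 16768488)))) (b (c (b (l 16770528) (l 16772560)) (b (l 16770352) (l 16772440))) (a (c (l 16773888) (b (l 16772760) (l 16774840))) (a (b (l 16775432) (b (l 16778896) (l 124252066151))) (b (b (l 16776640) (l 104387839671)) (l 4))))))))), by decide +kernel⟩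

def k90_mm_202_t : ∃ t, chk3 f_mm_202_t t 27 47 1 = true :=
  ⟨(a (a (b (a (b (l 16732872) (l 16736920)) (b (l 16739328) (l 16743384))) (c (b (l 16744600) (l 16748584)) (c (l 16751288) (l 16749536)))) (b (a (b (l 16745856) (l 16755160)) (c (l 16758696) (c (l 16754352) (l 16756640)))) (c (b (l 16762760) (l 16764960)) (a (c (l 16755888) (l 16758216)) (b (l 16760392) (l 16764512)))))) (a (b (b (c (a (l 16759360) (l 16766048)) (a (l 16758904) (l 16767080))) (c (a (l 16763384) (l 16770080)) (a (l 16763048) (b (l 16768872) (l 16770944))))) (b (a (c (l 16767408) (l 16768488)) (a (c (l 16772424) (l 16772312)) (b (l 16774760) (a (l 16778560) (b (l 16779056) (l 134989484263)))))) (a (c (l 16771424) (b (l 16770264) (l 16772320))) (a (c (b (l 16775432) (b (l 16779504) (l 106535326647))) (b (l 16778008) (a (l 16779176) (l 161296155735)))) (a (b (b (l 90966069143) (l 188139701655)) (l 4)) (l 4)))))) (b (a (b (b (c (l 16771800) (l 16771672)) (a (l 16772064) (c (l 16775520) (a (l 16774616) (l 16778960)))))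 (a (b (l 16774112) (a (l 16775296) (b (l 16776488) (l 94187294695)))) (b (a (b (l 16776176) (l 28689043111)) (b (l 118883356887) (l 4))) (c (l 187602832087) (l 188139702871))))) (b (a (a (c (b (l 16776064) (l 117809615943)) (b (l 16776032) (l 154853701911))) (b (b (l 79154906519) (l 179012895959)) (l 4))) (l 4)) (l 4))) (a (b (a (b (a (b (l 16776800) (l 114588389495)) (l 190824056871)) (l 4)) (l 4)) (l 4)) (l 4))))), by decide +kernel⟩

def k91_mm_202_t : ∃ t, chk3 f_mm_202_t t 28 20 1 = true :=
  ⟨(b (a (b (c (a (l 16687032) (l 16699976)) (a (l 16687464) (c (l 16697384) (l 16695384)))) (c (a (l 16692512) (l 16706000)) (a (l 16693744) (c (l 16706112) (l 16704296))))) (b (b (c (a (l 16709440) (l 16721784)) (a (l 16706280) (a (l 16705384) (a (l 16720808) (l 16713672))))) (c (a (l 16713752) (l 16726032)) (a (l 16710768) (l 16727856)))) (c (a (b (l 16717936) (l 16721168)) (b (l 16730160) (l 16734168))) (a (c (l 16718016) (l 16716488)) (a (b (l 16724640) (l 16728840)) (b (l 16731192) (l 16735368)))))))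 (b (b (a (c (a (l 16696944) (l 16710656)) (a (l 16700072) (l 16711512))) (a (c (l 16724440) (l 16723496)) (c (l 16738056) (c (l 16736728) (l 16735664))))) (a (c (a (l 16700064) (l 16713904)) (a (l 16703184) (l 16715536))) (a (c (l 16727808) (l 16728840)) (c (l 16743512) (c (l 16740712) (l 16739744)))))) (a (b (c (a (l 16703280) (l 16717256)) (a (l 16706240) (l 16719464))) (b (a (c (l 16705776) (l 16708616)) (c (l 16719832) (l 16722184))) (a (l 16708944) (l 16723432)))) (b (a (c (l 16731272) (c (l 16732056) (l 16730872))) (c (c (l 16744784) (l 16745408)) (c (l 16744672) (l 16746424)))) (b (a (c (l 16733912) (c (l 16734968) (l 16733856))) (c (a (l 16744320) (l 16751216)) (c (l 16747616) (l 16748792)))) (a (c (l 16735816) (l 16736264)) (c (l 16749688) (a (l 16745832) (l 16752440))))))))), by decide +kernel⟩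

def k92_mm_202_t : ∃ t, chk3 f_mm_202_t t 58 40 1 = true :=
  ⟨(b (b (a (a (b (l 16729320) (l 16731488)) (c (l 16738072) (b (l 16735096) (l 16726816)))) (a (a (b (l 16741288) (l 16743432)) (b (l 16744792) (l 16749544))) (c (l 16754376) (c (b (l 16749792) (l 16746680)) (b (l 16749096) (l 16756520)))))) (a (a (b (l 16733632) (l 16738368)) (c (l 16742224) (b (l 16728992) (l 16731128)))) (c (c (l 16755280) (a (l 16748656) (l 16755608))) (c (b (l 16753096) (l 16755192)) (b (a (l 16746136) (a (l 16751600) (l 16755288))) (a (l 16748288) (a (l 16753736) (l 16757424)))))))) (a (c (b (c (l 16743344) (l 16742616)) (c (l 16747296) (l 16746648))) (b (b (l 16743560) (b (l 16741864) (l 16742904))) (a (l 16742080) (a (l 16747200) (l 16750680))))) (a (c (b (l 16755616) (c (l 16757184) (l 16756744))) (b (a (l 16750040) (a (l 16752704) (l 16754496))) (b (l 16754944) (l 16757016)))) (c (b (c (l 16760048) (l 16759672)) (c (l 16763984) (l 16765000))) (b (c (l 16761864) (a (b (l 16755872) (l 16757992)) (b (l 16759560)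 (l 16756440)))) (b (b (l 16761624) (l 16762664)) (b (l 16763704) (l 16766048)))))))), by decide +kernel⟩

def k93_mm_202_t : ∃ t, chk3 f_mm_202_t t 236 40 1 = true :=
  ⟨(b (b (b (a (b (l 16754984) (l 16756040)) (b (l 16758624) (l 16759672))) (a (b (l 16757088) (l 16758128)) (b (l 16762032) (l 16763072)))) (c (c (l 16763016) (l 16764016)) (c (c (l 16762440) (l 16762256)) (b (a (l 16759016) (a (l 16761832) (l 16763728))) (a (l 16755912) (a (l 16763976) (l 16760624))))))) (b (b (c (l 16767680) (b (l 16766440) (b (l 16765584) (l 16766112)))) (a (c (l 16766112) (l 16766872)) (c (l 16769656) (b (l 16768760) (l 16769808))))) (c (b (c (l 16769952) (l 16769792)) (c (l 16771912) (a (l 16770000) (l 16773592)))) (b (a (a (l 16766728) (l 16768576)) (c (l 16771448) (l 16771296))) (c (a (l 16769824) (l 16773504)) (a (l 16769632) (b (l 16772872) (l 16773928)))))))), by decide +kernel⟩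

def k94_mm_202_t : ∃ t, chk3 f_mm_202_t t 237 80 1 = true :=
  ⟨(b (b (c (c (l 16765080) (l 16764816)) (c (l 16764520) (a (a (l 16761320) (l 16763232)) (a (l 16765152) (b (l 16766544) (l 16767624)))))) (a (a (b (l 16763464) (l 16764504)) (b (l 16765304) (l 16766344))) (a (b (l 16767160) (l 16769512)) (c (l 16769712) (l 16770000))))) (c (b (c (l 16769104) (l 16770240)) (c (l 16772416) (a (l 16769136) (l 16772800)))) (a (a (b (b (l 16765248) (l 16761064)) (l 16767896)) (b (l 16767664) (l 16770440))) (b (b (l 16769984) (l 16771048)) (c (l 16772688) (c (l 16772600) (l 16772544))))))), by decide +kernel⟩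

def k95_mm_202_t : ∃ t, chk3 f_mm_202_t t 237 81 1 = true :=
  ⟨(a (b (c (b (l 16771240) (c (l 16773280) (l 16773192))) (b (c (l 16771024) (l 16770864)) (c (l 16773096) (c (l 16773016) (l 16772960))))) (b (b (c (l 16774736) (c (l 16774640) (l 16774576))) (b (c (l 16775480) (a (l 16774448) (l 16776336))) (a (l 16775024) (a (l 16776408) (a (l 16778392) (l 122641451047)))))) (b (c (a (l 16775816) (a (l 16778440) (l 182234121351))) (a (l 16775752) (a (b (l 16776888) (l 88281712583)) (a (l 177939153719) (l 4))))) (b (c (a (l 16776552) (l 191360927239)) (a (l 16777664) (l 194045281767))) (a (a (l 16776592) (a (l 70564972647) (l 4))) (l 4)))))) (a (b (c (b (l 16773944) (b (l 16775448) (l 16777744))) (b (c (l 16773832) (l 16773744)) (b (l 16775360) (a (l 16775928) (a (l 16776640) (b (l 16776856) (l 16777992))))))) (b (b (a (b (l 16778032) (a (l 16777000) (l 104924710983))) (c (l 124788935799) (b (l 117272742023) (l 4)))) (a (a (b (l 111904032903) (l 4)) (l 4)) (l 4))) (l 4))) (b (b (c (c (l 16775776)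 (l 16777056)) (b (l 16775168) (c (l 16776224) (a (l 16775720) (l 16777328))))) (a (b (c (l 16776792) (c (l 16776776) (l 16777912))) (b (b (l 94724163415) (l 134452611031)) (l 4))) (b (b (b (l 78618035431) (l 119957096375)) (l 4)) (l 4)))) (l 4)))), by decide +kernel⟩

def k96_mm_202_t : ∃ t, chk3 f_mm_202_t t 238 80 1 = true :=
  ⟨(b (b (a (c (l 16771736) (a (l 16769784) (a (l 16771232) (a (l 16771296) (l 16772440))))) (c (c (l 16774144) (l 16774080)) (a (c (l 16773048) (l 16772936)) (c (l 16774968) (b (l 16774368) (l 16775448)))))) (a (b (c (l 16771952) (l 16772352)) (c (l 16772968) (c (l 16772816) (l 16772696)))) (a (c (c (l 16775240) (l 16775200)) (c (l 16775152) (b (l 16774560) (l 16775632)))) (c (b (c (l 16776552) (l 16777848)) (a (a (l 16776872) (l 72712456695)) (l 174181057623))) (b (b (l 16776880) (a (l 16776312) (a (l 16777032) (l 116735870535)))) (b (a (l 16777488) (l 174717928167)) (a (a (l 16777112) (l 133915739767)) (l 4)))))))) (b (b (a (c (l 16773976) (a (l 16772856) (l 16774784)))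 (b (c (a (l 16776480) (l 188676572647)) (a (c (l 16776448) (l 16777088)) (c (l 192971539911) (l 195119023527)))) (a (a (l 16776512) (c (l 16778328) (c (l 92576679607) (l 94187291671)))) (l 4)))) (a (c (l 16774984) (c (l 16774904) (a (l 16771904) (l 16775824)))) (a (a (c (a (l 16777032) (l 93650422375)) (a (b (l 16776784) (l 76470552055)) (b (l 16777856) (l 4)))) (l 4)) (l 4)))) (a (a (c (c (l 16775600) (l 16775560)) (b (l 16774976) (c (l 16776040) (l 16776664)))) (a (b (c (l 16776448) (l 16776904)) (c (l 80765520183) (b (a (l 16776960) (l 100629743175)) (l 165591122551)))) (b (c (c (l 16778576) (l 74323069255)) (c (c (l 75396810823) (l 74859938663)) (b (l 13656655191) (l 117809612567)))) (l 4)))) (l 4)))), by decide +kernel⟩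

def k97_mm_202_t : ∃ t, chk3 f_mm_202_t t 239 80 1 = true :=
  ⟨(b (a (b (b (b (c (a (l 16776136) (l 160759284743)) (a (l 16776088) (a (a (l 75396810231) (l 4)) (l 4)))) (a (a (l 16776160) (a (l 16777528) (b (l 16777184) (l 121030837719)))) (l 4))) (a (c (a (l 16778560) (l 159685542759)) (b (a (l 16776664) (a (l 91502937639) (l 4))) (a (a (l 16776944) (l 98482259559)) (l 4)))) (l 4))) (a (a (b (b (c (l 123715192903) (l 164517380727)) (l 4)) (l 4)) (l 4)) (l 4))) (l 4)) (l 4)), by decide +kernel⟩

def k98_mm_202_t : ∃ t, chk3 f_mm_202_t t 119 81 1 = true :=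
  ⟨(a (b (a (a (b (a (b (c (l 16776624) (c (l 16776600) (l 16776584))) (c (l 97408519223) (c (l 100629743527) (b (l 82376132311) (l 193508410215))))) (b (c (l 88818583927) (b (a (l 16777048) (l 118883354199)) (l 175791670007))) (l 4))) (l 4)) (l 4)) (l 4)) (l 4)) (l 4)), by decide +kernel⟩

def k99_mm_202_t : ∃ t, chk3 f_mm_202_t t 58 82 1 = true :=
  ⟨(a (a (c (b (l 16747616) (l 16751504)) (b (l 16748800) (c (l 16750592) (l 16749880)))) (c (b (l 16754184) (c (l 16758280) (l 16757864))) (b (a (l 16751320) (l 16756112)) (c (l 16757400) (l 16756872))))) (a (c (b (c (l 16761080) (l 16760728)) (c (l 16764944) (l 16764680))) (b (b (l 16760392) (a (l 16759352) (l 16762920))) (c (b (l 16763360) (l 16765376)) (b (l 16762992) (l 16765056))))) (b (c (c (l 16769200) (b (l 16766688) (l 16768672))) (a (c (l 16765648) (l 16766656)) (b (l 16769264) (a (l 16769264) (l 16771096))))) (c (b (c (l 16770800) (l 16770656)) (c (l 16772728) (a (l 16770872) (l 16774392)))) (b (a (l 16769240) (c (l 16772296) (l 16772168)))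 (c (a (l 16770712) (l 16774328)) (a (l 16770536) (b (l 16773728) (l 16774768))))))))), by decide +kernel⟩

def k100_mm_202_t : ∃ t, chk3 f_mm_202_t t 59 82 1 = true :=
  ⟨(a (a (b (b (a (c (l 16772056) (c (l 16771872) (l 16771728))) (b (c (l 16775112) (c (l 16775040) (l 16774976))) (c (c (l 16778712) (a (l 16775184) (l 13656656567))) (a (l 16775112) (a (l 16776512) (b (l 21172848439) (l 126399547431))))))) (b (a (c (l 16773536) (l 16773352)) (a (c (l 16776192) (c (l 16776152) (l 16776120))) (a (c (l 89355455479) (b (l 70028101527) (l 139284449367))) (l 4)))) (a (c (l 16774520) (c (l 16774424) (l 16774344))) (a (a (c (l 16776728) (l 16778008)) (b (a (l 16778448) (l 131768256615)) (l 184918475623))) (l 4))))) (a (a (b (c (l 16775104) (c (l 16775032) (l 16774968))) (c (b (l 16779176) (c (l 85060488247) (l 84523617463))) (b (c (l 16777840) (a (l 16776064) (l 16778280))) (a (b (l 16776840) (l 78618036231)) (l 175791670263))))) (b (b (c (l 16776376) (b (l 16776088) (l 16777896))) (c (a (l 16776904)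 (l 117272742999)) (c (a (l 16776888) (l 122641451527)) (a (l 16778184) (l 162369897191))))) (b (b (c (l 169349219495) (l 173107315847)) (l 4)) (l 4)))) (a (b (a (a (b (b (l 16778504) (l 4)) (l 4)) (l 4)) (l 4)) (l 4)) (l 4)))) (b (a (a (a (b (b (c (l 72712456999) (b (l 16778376) (l 112440903735))) (l 4)) (l 4)) (l 4)) (l 4)) (l 4)) (l 4))) (l 4)), by decide +kernel⟩

def k101_mm_202_t : ∃ t, chk3 f_mm_202_t t 29 166 1 = true :=
  ⟨(a (a (a (c (l 16755328) (a (l 16752576) (l 16757296))) (c (a (l 16760280) (l 16763616)) (c (l 16761400) (b (l 16759952) (l 16761992))))) (a (c (c (l 16770096) (b (l 16767624) (l 16769576))) (c (b (l 16767384) (l 16769392)) (b (l 16768432) (a (l 16767360) (l 16771000))))) (a (c (b (l 16772888) (c (l 16774848) (l 16774800))) (b (c (l 16772728) (l 16772608)) (c (l 16775392) (b (l 16774160) (l 16775184))))) (a (b (c (l 16775496) (c (l 16775440) (l 16775392))) (c (b (l 12582915351) (l 109756550455)) (a (b (l 16776480) (a (l 67343747511) (l 125325806119))) (b (a (l 18488494423)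 (l 111367162439)) (l 4))))) (b (b (c (l 16778048) (a (l 16776280) (a (l 16778264) (l 86134228871)))) (a (b (l 16778344) (a (l 16778568) (l 4))) (l 4))) (l 4)))))) (a (a (a (a (a (b (b (b (l 144116288247) (l 4)) (l 4)) (l 4)) (l 4)) (l 4)) (l 4)) (l 4)) (l 4))), by decide +kernel⟩

def k102_mm_202_t : ∃ t, chk3 f_mm_202_t t 29 167 1 = true :=
  ⟨(a (a (b (c (a (l 16760696) (b (l 16764344) (l 16765304))) (a (c (l 16757544) (l 16757016)) (b (l 16763712) (c (l 16764880) (l 16764544))))) (c (a (l 16759968) (l 16766704)) (a (l 16759232) (c (l 16766336) (l 16766040))))) (a (b (b (c (l 16771112) (c (l 16770888) (l 16770720))) (b (a (l 16769960) (l 16774112)) (c (l 16772968) (a (l 16770272) (l 16773872))))) (c (a (l 16771792) (c (l 16775240) (l 16776504))) (a (l 16771520) (a (l 16774224) (b (l 16775528) (c (l 16776528) (l 16777824))))))) (a (a (b (b (c (l 16775408) (l 16775320)) (b (l 16776112) (b (l 16776480) (l 16776720)))) (c (b (l 71101844679) (l 172570445255)) (b (a (l 16778184) (l 118883355415))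 (l 176328541591)))) (b (a (b (c (l 16776704) (l 16776680)) (b (l 89355454471) (l 4))) (b (c (l 96871648183) (c (l 99556002215) (l 99556002279))) (l 4))) (l 4))) (l 4)))) (l 4)), by decide +kernel⟩

def k103_mm_202_t : ∃ t, chk3 f_mm_202_t t 28 42 1 = true :=
  ⟨(a (b (c (a (l 16715360) (b (l 16724744) (l 16728728))) (a (b (l 16713296) (l 16717128)) (b (l 16726680) (l 16730088)))) (a (c (l 16722088) (b (l 16720952) (l 16724768))) (c (b (l 16732704) (l 16736656)) (b (l 16733552) (l 16737056))))) (b (a (c (b (l 16738784) (l 16742720)) (b (c (l 16739400) (l 16738432)) (a (l 16739336) (l 16745744)))) (c (b (a (l 16749160) (l 16756032)) (a (l 16753056) (l 16759896))) (b (a (l 16748600) (l 16756584)) (a (l 16752328) (c (l 16759312) (l 16758864)))))) (a (c (b (l 16746640) (l 16752504)) (b (a (l 16742936) (l 16749432)) (a (l 16746584) (l 16753176)))) (b (c (a (l 16756928) (l 16763584)) (a (l 16756112) (c (l 16763144) (l 16762792)))) (c (a (l 16760672) (c (l 16767432) (l 16767240))) (a (c (l 16760152)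 (l 16759744)) (b (l 16765920) (l 16769208)))))))), by decide +kernel⟩

def k104_mm_202_t : ∃ t, chk3 f_mm_202_t t 56 43 1 = true :=
  ⟨(b (a (c (b (l 16726760) (l 16730736)) (b (l 16728232) (l 16731656))) (c (b (l 16740600) (l 16744520)) (b (a (l 16737464) (l 16743792)) (a (l 16741032) (l 16747456))))) (a (c (b (l 16734696) (l 16738648)) (b (l 16735128) (l 16738672))) (c (b (l 16748432) (l 16753968)) (b (a (l 16744656) (l 16751184)) (a (l 16748344) (l 16754976)))))), by decide +kernel⟩

def k105_mm_202_t : ∃ t, chk3 f_mm_202_t t 57 43 1 = true :=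
  ⟨(a (b (c (b (a (l 16750984) (l 16757792)) (a (l 16754864) (l 16761488))) (b (a (l 16750296) (l 16756984)) (a (l 16754064) (c (l 16761024) (l 16760656))))) (b (c (a (l 16758608) (l 16765248)) (a (l 16757888) (c (l 16764904) (l 16764632)))) (a (c (l 16762344) (c (l 16761936) (l 16761616))) (b (a (l 16766224) (l 16770992)) (c (l 16770048) (l 16771088)))))) (b (a (c (b (l 16764392) (c (l 16768264) (l 16768104))) (b (c (l 16764000) (l 16763696)) (b (l 16766816) (l 16770128)))) (a (b (c (l 16769448) (c (l 16769208) (l 16769024))) (c (l 16773320) (b (l 16772136) (l 16774168)))) (b (c (l 16772872) (b (l 16771672) (l 16773704))) (b (b (c (l 16775312) (l 16775224)) (a (l 16775384) (a (l 16776712) (l 102240357687)))) (b (a (l 16777688) (a (l 111904034279) (l 4))) (a (a (l 16778240) (l 123715194343)) (l 4))))))) (a (b (c (b (l 16771080) (l 16773024)) (b (c (l 16770896) (l 16770752)) (a (l 16771064) (l 16774648)))) (a (c (b (l 16773256) (l 16775216)) (b (l 16773096) (a (l 16774240) (l 16778000)))) (a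 (b (c (l 16775848) (l 16775792)) (c (l 98482261847) (b (l 75396810887) (l 181697250679)))) (b (a (b (l 16776656) (l 108682808711)) (b (l 96871648631) (l 4))) (l 4))))) (b (a (a (c (b (l 16775392) (c (l 16779144) (l 74859941927))) (b (l 16775312) (b (l 16778784) (l 111904033079)))) (b (b (c (l 16776616) (l 16776592)) (a (l 24930946119) (l 144653159895))) (l 4))) (b (c (l 189750316279) (a (l 185455347767) (l 4))) (l 4))) (l 4))))), by decide +kernel⟩

def k106_mm_202_t : ∃ t, chk3 f_mm_202_t t 116 42 1 = true :=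
  ⟨(b (c (a (b (l 16762816) (c (l 16766592) (l 16766424))) (b (c (l 16769576) (l 16770752)) (a (l 16772928) (a (l 16774192) (b (l 16774960) (a (l 16776448) (l 71101845303))))))) (a (b (c (l 16762320) (l 16761928)) (b (l 16765056) (l 16768336))) (b (c (b (l 16768280) (l 16770240)) (b (l 16768040) (l 16771368))) (a (c (l 16771432) (l 16771936)) (b (l 16774272) (a (l 16775064) (b (l 16776360) (a (l 16776912) (l 125862677159))))))))) (a (a (b (c (l 16768616) (c (l 16768336) (l 16768112))) (c (l 16773096) (b (l 16771224) (l 16773240)))) (b (c (l 16773336) (c (l 16771856) (l 16772376))) (b (c (l 16774920) (c (l 16774848) (l 16774784))) (a (c (l 16776000) (c (l 16775952) (l 16775920))) (a (b (l 16776800) (l 119957097927)) (b (l 108682808119) (l 4))))))) (b (b (a (c (l 16774504) (l 16774376)) (b (c (a (l 16776600) (l 176865412599)) (a (l 16777880) (l 180086638023))) (a (a (a (l 16776920) (l 82376133383)) (l 177402283047)) (l 4)))) (b (a (c (l 16775944) (a (l 16774992) (c (l 16776776) (l 16778072))))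 (c (l 192434670503) (l 195655895879))) (a (a (l 16776040) (a (a (l 16778432) (l 108682808167)) (l 4))) (l 4)))) (a (a (b (b (a (l 16776584) (a (l 16778488) (l 121567710119))) (c (l 119957098135) (l 159685542871))) (l 4)) (l 4)) (l 4))))), by decide +kernel⟩

def k107_mm_202_t : ∃ t, chk3 f_mm_202_t t 117 42 1 = true :=
  ⟨(b (a (b (b (a (c (l 16773696) (c (l 16773576) (l 16773472))) (c (a (l 16778896) (b (l 85060488551) (l 190287185623))) (a (a (l 16775792) (b (l 16776192) (l 23857203559))) (b (a (l 16778368) (l 176865412071)) (l 192971540135))))) (b (a (c (l 16775136) (l 16775040)) (a (a (a (l 16778376) (l 99556002647)) (l 4)) (l 4))) (a (a (l 16775192) (a (l 16776520) (a (l 23320332919) (l 111904033703)))) (l 4)))) (a (b (b (c (a (l 16776200) (l 113514647175)) (a (l 16776152) (c (l 154316833671) (l 155927446375)))) (a (a (l 16778032) (a (l 83449875255) (l 139284450167))) (l 4))) (a (c (l 169886091111) (b (l 166664864935) (l 4))) (l 4))) (l 4))) (l 4)) (l 4)), by decide +kernel⟩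

def k108_mm_202_t : ∃ t, chk3 f_mm_202_t t 58 43 1 = true :=
  ⟨(a (b (a (b (a (b (c (l 16777968) (a (l 16774368) (c (l 16776176) (l 16778112)))) (a (b (l 16775928) (a (l 16776488) (l 79691778039))) (b (a (l 69491230615) (l 190824055975)) (l 4)))) (a (b (b (a (l 16778648) (l 130694516199)) (l 185992218183)) (l 4)) (l 4))) (a (a (a (b (b (l 90966068519) (l 4)) (l 4)) (l 4)) (l 4)) (l 4))) (l 4)) (l 4)) (l 4)), by decide +kernel⟩

def k109_mm_202_t : ∃ t, chk3 f_mm_202_t t 59 21 1 = true :=
  ⟨(l 4), by decide +kernel⟩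

def k110_mm_202_t : ∃ t, chk3 f_mm_202_t t 15 10 1 = true :=
  ⟨(l 4), by decide +kernel⟩

def k111_mm_202_t : ∃ t, chk3 f_mm_202_t t 56 44 1 = true :=
  ⟨(b (a (c (b (l 16742592) (l 16746528)) (b (l 16743576) (a (l 16742648) (l 16749224)))) (c (b (a (l 16752784) (l 16759464)) (a (l 16756616) (l 16763240))) (b (a (l 16752096) (l 16758824)) (a (l 16755912) (c (l 16762888) (l 16762608)))))) (a (c (b (l 16750456) (a (l 16750904) (l 16757480))) (b (a (l 16746328) (l 16753000)) (a (l 16750080) (l 16756856)))) (b (c (a (l 16760360) (l 16767088)) (a (l 16761112) (c (l 16766840) (l 16766640)))) (c (a (l 16764176) (b (l 16770024) (l 16772008))) (a (c (l 16763872) (l 16763632)) (b (l 16769784) (a (l 16770048) (l 16773624)))))))), by decide +kernel⟩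

def k112_mm_202_t : ∃ t, chk3 f_mm_202_t t 56 45 1 = true :=
  ⟨(a (b (c (b (a (l 16754600) (l 16761272)) (a (l 16758376) (l 16765152))) (b (a (l 16753904) (l 16762096)) (a (l 16757800) (c (l 16764888) (l 16764672))))) (b (a (c (l 16762232) (l 16763088)) (c (l 16770432) (c (l 16768944) (l 16770112)))) (a (c (l 16766232) (c (l 16765992) (l 16765808))) (b (c (l 16772152) (a (l 16770208) (l 16773808))) (a (l 16773704) (a (l 16775048) (a (l 16778992) (b (l 16776744) (l 126399548775))))))))) (b (a (b (c (l 16770696) (c (l 16767872) (l 16769016))) (c (b (l 16771056) (l 16773064)) (a (l 16771416) (b (l 16772656) (l 16774736))))) (b (a (c (l 16773264) (b (l 16772104) (l 16774176))) (b (a (l 16774840) (a (l 16777480) (b (l 16776552) (l 103850970519)))) (a (b (l 16776376) (a (l 16776944) (l 130157645287))) (b (l 169349219431) (l 4))))) (a (a (b (l 16775392) (c (l 83986748295) (b (l 16776888) (l 122641452743)))) (b (b (l 16779256) (a (l 16778456) (l 151095610807))) (l 4))) (b (c (l 194045283559) (a (l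 192434669607) (l 4))) (l 4))))) (a (b (a (c (b (l 16773336) (l 16775360)) (b (l 16773216) (a (l 16774408) (l 16778824)))) (a (b (c (l 16775960) (l 16775920)) (c (l 112977777831) (b (l 90966068711) (l 197803378215)))) (b (c (l 98482263111) (b (l 25467817303) (l 179549766839))) (l 4)))) (a (b (c (a (l 16776512) (l 128010163447)) (a (c (l 16776488) (l 16779096)) (b (l 113514646967) (l 4)))) (c (l 185455348423) (a (l 177402283575) (l 4)))) (l 4))) (l 4)))), by decide +kernel⟩

def k113_mm_202_t : ∃ t, chk3 f_mm_202_t t 57 22 1 = true :=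
  ⟨(b (a (b (a (b (c (l 16766144) (c (l 16765848) (l 16765616))) (c (b (l 16769048) (l 16771000)) (b (l 16768752) (l 16772088)))) (b (c (a (l 16771256) (b (l 16773728) (l 16778312))) (a (c (l 16771096) (l 16770968)) (b (l 16773592) (a (l 16774744) (b (l 16776040) (l 16877882503)))))) (a (a (b (l 16773280) (l 16775304)) (b (l 16775048) (b (l 16779176) (a (l 16778416) (l 144653159911))))) (b (b (a (l 16776312) (a (l 107609066935) (l 4))) (c (l 150021866599) (a (l 75933680471) (l 4)))) (c (l 188139703431) (a (l 185455347671) (l 4))))))) (a (b (b (c (l 16772976) (a (l 16771032) (l 16774624))) (a (c (l 16773224) (l 16773088)) (a (c (l 16775840) (l 16775784)) (c (l 88281713127) (b (l 17414753431) (l 168275477527)))))) (a (c (b (l 16775216) (a (l 16776344) (l 116199003319))) (c (b (l 16775168) (a (l 16776320) (l 156464317415))) (b (l 16775128) (a (l 16778920) (l 157001185671))))) (a (b (b (a (l 16776888) (l 124252065175)) (l 180623508887)) (l 4)) (l 4)))) (b (a (b (a (c (l 75933681911) (b (l 16776784)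 (l 113514647079))) (b (l 194582152903) (l 4))) (l 4)) (l 4)) (l 4)))) (b (a (b (a (a (b (c (l 16776320) (c (l 16776288) (l 16777576))) (c (l 160759285095) (b (l 111904034343) (l 4)))) (b (c (l 111367165095) (b (l 93650421959) (l 197266507447))) (l 4))) (l 4)) (l 4)) (l 4)) (l 4))) (a (b (a (b (a (b (c (l 176328542727) (a (b (l 117272743511) (l 4)) (l 4))) (l 4)) (l 4)) (l 4)) (l 4)) (l 4)) (l 4))), by decide +kernel⟩

def k114_mm_202_t : ∃ t, chk3 f_mm_202_t t 28 23 1 = true :=
  ⟨(a (b (a (b (a (a (b (c (l 16768576) (l 16768328)) (b (l 16771552) (l 16773944))) (b (b (l 16770936) (l 16774312)) (c (b (l 16775088) (b (l 16779208) (l 94724164023))) (b (l 16776344) (a (l 16778840) (b (l 93650423095) (l 197803378151))))))) (b (b (a (c (l 16774496) (l 16774424)) (a (b (l 16776584) (a (l 16777144) (l 150558739863))) (b (l 184381605223) (l 4)))) (a (a (l 16776952) (b (l 9898560999) (l 122104581111))) (l 4))) (a (a (b (b (a (l 16776744) (l 113514646839)) (l 175791670423)) (l 4)) (l 4)) (l 4)))) (a (b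 (a (b (b (l 16775168) (c (l 16776184) (l 16778936))) (a (b (l 16776344) (l 85060486695)) (b (l 131231388151) (l 4)))) (b (c (l 176865413383) (a (l 165054250871) (l 4))) (l 4))) (a (b (c (l 195119025143) (l 195655895927)) (l 4)) (l 4))) (l 4))) (l 4)) (l 4)) (l 4)), by decide +kernel⟩

def k115_mm_202_t : ∃ t, chk3 f_mm_202_t t 29 11 1 = true :=
  ⟨(l 4), by decide +kernel⟩

def k116_mm_202_t : ∃ t, chk3 f_mm_202_t t 15 11 1 = true :=
  ⟨(l 4), by decide +kernel⟩

def k117_mm_202_t : ∃ t, chk3 f_mm_202_t t 2 6 1 = true :=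
  ⟨(a (l 6) (b (a (b (l 6) (a (l 6) (b (l 6) (l 16587672)))) (b (c (a (b (l 16574776) (l 16587904)) (b (l 16616480) (l 16640912))) (a (b (l 16566736) (l 16581136)) (b (a (l 16590648) (l 16608512)) (a (l 16605992) (l 16645024))))) (a (b (c (l 16603224) (l 16597848)) (c (l 16618840) (l 16614728))) (b (c (l 16656512) (a (l 16622880) (l 16661896))) (b (l 16663632) (l 16669504)))))) (a (b (a (b (l 6) (l 16592800)) (b (l 16603432) (l 16618128))) (a (b (l 16606648) (l 16619920)) (b (l 16653112) (l 16645680)))) (b (a (b (a (l 16624784) (l 16640200)) (a (l 16639408) (l 16654640))) (b (b (l 16671840) (l 16679072)) (a (b (l 16667168) (l 16674064)) (b (a (l 16679736) (l 16688520)) (a (l 16686632) (l 16695424)))))) (b (a (a (l 16653216) (l 16668432)) (a (b (l 16680984) (l 16687936)) (l 16711952))) (a (a (l 16667032) (l 16682344)) (a (b (l 16694920) (l 16701928)) (l 16728592)))))))), by decide +kernel⟩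

def k118_mm_202_t : ∃ t, chk3 f_mm_202_t t 4 7 1 = true :=
  ⟨(a (b (l 6) (b (a (l 6) (l 16652792)) (a (l 16636416) (b (l 16647200) (l 16656136))))) (b (b (a (l 6) (l 16638184)) (c (l 16652096) (l 16653776))) (b (a (l 16649472) (l 16691616)) (a (l 16680400) (b (l 16665752) (l 16654304)))))), by decide +kernel⟩

def k119_mm_202_t : ∃ t, chk3 f_mm_202_t t 5 14 1 = true :=
  ⟨(a (b (a (b (l 16633392) (l 16647200)) (b (l 16680432) (l 16715640))) (a (b (l 16661432) (l 16675416)) (a (a (l 16684456) (l 16754152)) (c (l 16765928) (l 16721560))))) (b (a (b (b (l 16685200) (l 16713232)) (b (l 16720456) (l 16727672))) (a (b (b (l 16708952) (l 16737024)) (a (b (l 16719136) (l 16726352)) (l 16730968))) (b (c (l 16750768) (l 16750552)) (b (l 16740344) (l 16768392))))) (a (b (a (a (l 16705968) (l 16713464)) (l 16725024)) (c (l 16773776) (l 16751160))) (a (a (b (l 16736856) (l 16776328)) (b (l 16758056) (c (l 16779320) (l 16778760)))) (b (b (l 16775264) (b (l 16780280) (l 16773072))) (a (b (l 16773592) (l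 16779848)) (b (a (l 16780024) (b (l 16772376) (l 33520886071))) (a (b (l 16774208) (c (l 62511916359) (l 61975045239))) (b (a (l 68954366535) (l 155927442519)) (l 4)))))))))), by decide +kernel⟩

def k120_mm_202_t : ∃ t, chk3 f_mm_202_t t 5 15 1 = true :=
  ⟨(a (b (a (b (l 16636008) (l 16700320)) (b (l 16756784) (a (l 16719552) (l 16733368)))) (a (b (l 16710784) (l 16720760)) (a (b (l 16730288) (l 16740584)) (b (l 16765000) (b (l 16751992) (l 16757376)))))) (b (a (b (b (l 16777248) (a (l 16718168) (l 16753952))) (a (b (l 16744952) (l 16750416)) (b (l 16775368) (b (l 16784744) (l 16776952))))) (b (a (a (c (l 16778464) (l 16783096)) (b (l 16777760) (a (l 16781632) (b (l 16773648) (l 56069466679))))) (a (b (a (c (l 16778608) (l 16773232)) (b (l 44795176263) (a (l 79691785575) (l 4)))) (a (b (a (l 16781824) (l 99019138727)) (l 145726893943)) (l 4))) (b (b (l 155390568119) (l 4)) (l 4)))) (a (a (b (b (l 16769584) (l 16772352)) (a (b (l 16773168) (l 16781112)) (b (l 65733142919) (l 135526347367))))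 (b (a (b (l 16780584) (l 82376142071)) (b (l 122104575319) (l 4))) (l 4))) (l 4)))) (a (a (b (c (l 16779896) (l 16778936)) (a (b (l 16762864) (l 16768328)) (b (l 16780752) (a (l 35668373591) (b (l 16781448) (l 102240366647)))))) (b (b (a (l 16777272) (a (l 16772424) (b (l 16774840) (l 77007432855)))) (a (c (l 16782864) (l 16772128)) (b (a (l 54995724151) (l 149484990151)) (l 140358183367)))) (a (c (b (a (l 54458856247) (l 119420220247)) (l 152706212087)) (b (a (l 16780992) (l 97408532583)) (l 154316822903))) (l 4)))) (b (a (a (b (a (b (l 94187302263) (l 4)) (l 4)) (l 4)) (l 4)) (l 4)) (l 4))))), by decide +kernel⟩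

def k121_mm_202_t : ∃ t, chk3 f_mm_202_t t 12 12 1 = true :=
  ⟨(a (b (b (b (a (l 16646944) (a (l 16640312) (l 16650240))) (a (l 16654368) (a (l 16647960) (l 16658120)))) (a (c (b (l 16643040) (l 16650744)) (l 16664336)) (b (a (l 16655968) (l 16645136)) (b (l 16688024) (l 16639600))))) (a (a (b (l 16656488) (l 16672232)) (b (l 16666080) (l 16681768))) (b (b (l 16677048) (l 16684992)) (b (l 16692832) (l 16700448))))) (b (a (c (b (b (a (l 16662160) (l 16672608)) (a (l 16669896) (l 16680432))) (l 16705248)) (b (b (l 16684984) (l 16693280)) (b (l 16701568) (a (l 16683424) (l 16694304))))) (b (b (c (a (l 16683424) (l 16694520)) (a (l 16680640) (l 16692128))) (c (a (l 16691264) (l 16681424)) (a (l 16688928) (l 16700416)))) (a (c (l 16713552) (b (l 16697216) (l 16705464))) (b (c (l 16689312) (l 16729656)) (l 16722832))))) (b (a (a (c (l 16697168) (b (l 16691656) (l 16699808))) (b (a (l 16679600) (l 16685032)) (l 16711216))) (b (a (l 16714288) (l 16730800)) (b (l 16736344) (l 16740256)))) (a (a (b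 (l 16708312) (l 16715880)) (b (l 16719000) (l 16726504))) (b (c (l 16746256) (l 16745760)) (a (l 16747912) (b (l 16746760) (l 16750448)))))))), by decide +kernel⟩

def k122_mm_202_t : ∃ t, chk3 f_mm_202_t t 26 24 1 = true :=
  ⟨(a (b (c (b (l 16722264) (l 16730184)) (a (b (l 16724880) (b (l 16710120) (l 16714256))) (b (a (l 16712944) (l 16740032)) (c (l 16735112) (l 16734368))))) (b (b (c (l 16725632) (a (l 16718384) (l 16730432))) (b (l 16735952) (l 16737960))) (a (a (l 16726224) (l 16732080)) (b (l 16739008) (l 16742984))))) (a (b (b (b (l 16727040) (l 16731080)) (b (l 16740368) (l 16744392))) (b (b (l 16748408) (l 16752408)) (c (l 16758568) (c (l 16753008) (l 16757984))))) (b (b (a (b (l 16736368) (l 16740408)) (b (l 16742688) (l 16746728))) (a (b (l 16744440) (l 16748464)) (c (l 16753000) (l 16755104)))) (b (c (b (l 16755816) (l 16759752)) (b (l 16755384) (l 16764656))) (b (c (l 16763664) (l 16766696)) (c (l 16768872) (a (l 16764232) (l 16770560)))))))), by decide +kernel⟩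

def k123_mm_202_t : ∃ t, chk3 f_mm_202_t t 54 24 1 = true :=
  ⟨(b (a (b (c (b (l 16752576) (l 16756560)) (b (l 16757248) (l 16758728))) (a (b (l 16759760) (l 16763768)) (b (c (l 16763728) (l 16763456)) (c (l 16767688) (l 16767504))))) (b (b (a (c (l 16762240) (l 16761912)) (c (l 16768792) (l 16769928))) (a (c (l 16766232) (l 16766000)) (c (b (l 16771792) (l 16773776)) (b (l 16771680) (a (l 16772032) (l 16775384)))))) (a (b (c (l 16770208) (l 16770720)) (a (c (l 16772536) (l 16772448)) (b (l 16774784) (a (l 16775952) (a (l 29762785895) (l 119957099623)))))) (b (b (a (l 16774096) (c (a (l 16776568) (l 124788937623)) (a (l 16776544) (l 122641454071)))) (a (c (l 16776080) (a (l 16775248) (l 16779480))) (c (l 179549768103) (l 179549767975)))) (a (b (c (l 103850970999) (a (l 31910269223) (l 187065960231))) (l 4)) (l 4)))))) (a (b (c (a (b (l 16765240) (l 16769168)) (b (l 16771640) (a (l 16773952) (b (l 16776160) (l 105461586263))))) (a (b (l 16765016) (l 16769032)) (b (l 16771536) (a (l 16773896)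 (b (l 16778752) (l 140358187095)))))) (a (b (a (l 16774072) (c (l 16774656) (l 16777232))) (a (c (l 16780600) (b (l 16774368) (l 16778904))) (b (a (l 16779360) (l 125325809687)) (l 182770993543)))) (b (a (a (b (l 16776064) (l 109756553207)) (b (l 94724164887) (l 4))) (l 4)) (l 4)))) (b (a (b (b (a (l 16778096) (c (l 159148672583) (l 159148672487))) (a (a (l 16779240) (l 121567713367)) (l 4))) (a (b (l 175254800711) (l 4)) (l 4))) (l 4)) (l 4)))), by decide +kernel⟩

def k124_mm_202_t : ∃ t, chk3 f_mm_202_t t 55 24 1 = true :=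
  ⟨(b (a (b (a (b (a (c (l 16773760) (l 16773688)) (b (a (l 16775240) (b (l 16776416) (l 88281714535))) (a (b (l 16776736) (l 108682809351)) (l 184918476695)))) (a (a (b (l 16775904) (a (l 90966067687) (l 138747581815))) (b (c (l 93113553527) (l 90966067351)) (l 4))) (l 4))) (b (a (b (c (l 182234122759) (l 182770993559)) (l 4)) (l 4)) (l 4))) (l 4)) (l 4)) (l 4)), by decide +kernel⟩

def k125_mm_202_t : ∃ t, chk3 f_mm_202_t t 13 25 1 = true :=
  ⟨(a (b (a (b (a (a (l 16734176) (l 16745256)) (c (l 16749128) (l 16753880))) (a (c (l 16745144) (l 16744664)) (b (l 16760000) (l 16763856)))) (a (b (c (b (l 16759160) (l 16763024)) (b (l 16758856) (l 16762800))) (b (c (l 16766856) (l 16768016)) (a (l 16767584) (a (l 16772120) (c (l 16775160) (l 16775128)))))) (b (a (b (l 16770880) (c (l 16772168) (l 16772088))) (a (b (l 16772936) (b (l 16775824) (a (l 16776928) (l 132305131479)))) (b (b (l 16775112) (a (l 16776248) (l 101166618407))) (b (l 159148672743) (l 4))))) (a (b (b (c (l 16775008) (l 16778896))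 (a (l 16775376) (l 111904035911))) (a (b (l 75933681447) (l 162369898407)) (l 4))) (b (b (l 189213446183) (l 4)) (l 4)))))) (a (b (a (c (l 16752704) (l 16752416)) (b (c (l 16762496) (l 16762320)) (c (l 16766240) (l 16766120)))) (a (c (b (l 16758280) (l 16761952)) (l 16765224)) (a (b (l 16769568) (c (l 16770704) (l 16770648))) (b (c (l 16772904) (l 16772856)) (a (c (l 16775128) (l 16775104)) (b (c (l 16779672) (l 16777024)) (c (l 141431937479) (l 132305131831)))))))) (a (b (b (a (c (l 16771408) (l 16771336)) (a (b (l 16774960) (l 23320337063)) (b (l 96871650551) (l 4)))) (b (a (l 16774184) (a (l 118346489799) (l 4))) (a (a (l 16774568) (a (l 16776792) (l 122104584279))) (l 4)))) (a (b (b (a (l 13119788999) (l 178476025927)) (c (l 161296157191) (l 157538059527))) (l 4)) (l 4))) (l 4)))) (a (b (a (b (a (b (a (b (c (l 109219682647) (l 107072196439)) (l 4)) (l 4)) (l 4)) (l 4)) (l 4)) (l 4)) (l 4)) (l 4))), by decide +kernel⟩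

def k126_mm_202_t : ∃ t, chk3 f_mm_202_t t 12 26 1 = true :=
  ⟨(a (b (b (a (l 16688248) (l 16707736)) (c (a (l 16674592) (l 16714936)) (l 16725816))) (a (a (l 16706320) (l 16722336)) (b (l 16732368) (l 16739464)))) (b (a (b (c (l 16739072) (l 16728272)) (c (l 16746176) (l 16746000))) (b (c (a (l 16744800) (l 16766488)) (c (l 16760768) (l 16760640))) (a (c (l 16752056) (l 16751936)) (c (l 16768584) (b (l 16761416) (l 16765120)))))) (a (b (c (l 16753336) (l 16753272)) (c (l 16760536) (l 16760552))) (a (b (c (l 16759344) (l 16759296)) (c (l 16770600) (l 16770592))) (a (b (c (l 16767832) (l 16767800)) (b (c (l 16773360) (l 16773352)) (a (c (l 16775592) (l 16775584)) (b (l 91502942951) (l 184381603671))))) (b (b (l 16771728) (a (l 16773984) (b (l 16775936) (l 99019135879)))) (b (a (c (l 92039815479) (l 90429202855)) (l 4)) (l 4)))))))), by decide +kernel⟩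

def k127_mm_202_t : ∃ t, chk3 f_mm_202_t t 12 27 1 = true :=
  ⟨(a (a (b (a (l 16715072) (l 16737728)) (c (l 16754888) (l 16749736))) (b (b (l 16751832) (b (l 16741464) (l 16766008))) (b (c (l 16771288) (l 16771448)) (a (l 16762872) (c (l 16773224) (l 16762864)))))) (b (a (b (a (l 16762360) (c (l 16773272) (l 16773296))) (a (c (l 16759056) (l 16759144)) (a (b (l 16765496) (l 16769144)) (b (l 16771056) (c (l 16779936) (l 16779936)))))) (a (b (a (b (l 16769344) (l 16778256)) (b (c (l 11509178167) (b (l 16774088) (l 16781120))) (a (c (l 50163883895) (l 46405787799)) (l 176328539511)))) (a (b (a (l 16780824) (b (l 46405785991) (l 132842003735))) (b (l 158074928295) (l 4))) (l 4))) (b (b (c (l 184381602087) (l 188139697511)) (l 4)) (l 4)))) (a (a (b (b (l 16775024) (l 16772104)) (b (c (a (l 16769016) (l 16779752)) (l 16779664)) (a (l 16772680) (a (c (l 39963336039) (l 16781936)) (l 159685540423))))) (b (a (b (l 16772792) (a (l 16775040) (b (l 16776848) (l 123715198167)))) (b (a (c (l 43721432711)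 (l 41573948999)) (l 167201733527)) (l 4))) (a (b (b (l 151095606135) (l 4)) (l 4)) (l 4)))) (l 4)))), by decide +kernel⟩

def k128_mm_202_t : ∃ t, chk3 f_mm_202_t t 13 13 1 = true :=
  ⟨(b (a (a (b (a (b (b (c (l 16765640) (l 16765552)) (c (l 16769344) (l 16769288))) (a (b (c (l 16770128) (l 16770088)) (b (l 16772896) (l 16779984))) (a (b (c (l 16774496) (l 16774480)) (b (l 45332044391) (l 138747584071))) (b (b (l 16780400) (l 115662134663)) (l 4))))) (b (b (b (a (l 16773480) (c (l 158074931191) (l 154853704327))) (a (c (l 16775328) (l 16780544)) (l 4))) (a (a (c (l 30836530775) (c (l 16780504) (l 16780488))) (c (l 167738607639) (l 166664864199))) (l 4))) (b (c (l 193508415079) (l 201561473767)) (l 4)))) (a (b (a (c (b (a (l 16781288) (l 154853704503)) (l 181160380055)) (b (a (l 16776024) (l 120493974871)) (l 185992215831))) (l 4)) (l 4)) (l 4))) (l 4)) (l 4)) (l 4)), by decide +kernel⟩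

def k129_mm_202_t : ∃ t, chk3 f_mm_202_t t 7 6 1 = true :=
  ⟨(l 4), by decide +kernel⟩

def k130_mm_202_t : ∃ t, chk3 f_mm_202_t t 3 7 1 = true :=
  ⟨(a (b (a (b (b (b (a (a (l 16755112) (a (l 16770048) (b (l 16773464) (a (l 16769152) (c (l 16779704) (l 16774480)))))) (a (a (a (b (b (l 16780616) (a (l 16775832) (l 117272747063))) (b (l 145190025879) (l 189213439399))) (l 4)) (l 4)) (l 4))) (a (a (c (l 16772736) (l 16772776)) (a (b (l 16764936) (l 16773752)) (a (b (l 16772752) (b (l 16780640) (a (l 16775864) (l 113514650215)))) (b (a (c (l 39963335927) (l 16776640)) (l 154316831031)) (l 182770987495))))) (l 4))) (a (b (a (b (l 16778120) (a (l 16745368) (l 16765496))) (b (c (a (l 16781192) (a (l 151095605511) (l 4))) (a (l 16772032) (l 167201728999))) (a (a (l 16772968) (a (c (l 43184561175) (l 16776696)) (l 151632476231))) (l 4)))) (a (a (l 16771552) (a (l 16773464) (b (l 16771408) (l 16877887239)))) (a (a (b (c (a (l 16775144) (l 85060492951)) (l 39426466583)) (a (l 101166622375) (l 4))) (l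 4)) (l 4)))) (l 4))) (a (a (b (a (b (c (l 16778360) (l 16767808)) (a (c (l 16772128) (l 16772072)) (b (l 23857208903) (a (l 58216947895) (l 155927442919))))) (b (a (b (l 16773296) (a (l 16775400) (l 85597365159))) (b (a (l 50163884263) (l 150558734135)) (l 4))) (a (b (l 144116282503) (l 4)) (l 4)))) (a (b (a (b (c (l 53921981287) (l 52848239399)) (l 147337507591)) (l 4)) (l 4)) (l 4))) (l 4)) (l 4))) (l 4)) (l 4)) (l 4)), by decide +kernel⟩

theorem s131_mm_202_t : ∃ t, chk3 f_mm_202_t t 12 13 1 = true := ex3_b k126_mm_202_t k127_mm_202_t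

theorem s132_mm_202_t : ∃ t, chk3 f_mm_202_t t 6 13 1 = true := ex3_a s131_mm_202_t k128_mm_202_t

theorem s133_mm_202_t : ∃ t, chk3 f_mm_202_t t 27 24 1 = true := ex3_a k123_mm_202_t k124_mm_202_t

theorem s134_mm_202_t : ∃ t, chk3 f_mm_202_t t 13 24 1 = true := ex3_a k122_mm_202_t s133_mm_202_t

theorem s135_mm_202_t : ∃ t, chk3 f_mm_202_t t 13 12 1 = true := ex3_b s134_mm_202_t k125_mm_202_t

theorem s136_mm_202_t : ∃ t, chk3 f_mm_202_t t 6 12 1 = true := ex3_a k121_mm_202_t s135_mm_202_t

theorem s137_mm_202_t : ∃ t, chk3 f_mm_202_t t 6 6 1 = true := ex3_b s136_mm_202_t s132_mm_202_t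

theorem s138_mm_202_t : ∃ t, chk3 f_mm_202_t t 3 6 1 = true := ex3_a s137_mm_202_t k129_mm_202_t

theorem s139_mm_202_t : ∃ t, chk3 f_mm_202_t t 3 3 1 = true := ex3_b s138_mm_202_t k130_mm_202_t

theorem s140_mm_202_t : ∃ t, chk3 f_mm_202_t t 5 7 1 = true := ex3_b k119_mm_202_t k120_mm_202_t

theorem s141_mm_202_t : ∃ t, chk3 f_mm_202_t t 2 7 1 = true := ex3_a k118_mm_202_t s140_mm_202_t

theorem s142_mm_202_t : ∃ t, chk3 f_mm_202_t t 2 3 1 = true := ex3_b k117_mm_202_t s141_mm_202_t

theorem s143_mm_202_t : ∃ t, chk3 f_mm_202_t t 1 3 1 = true := ex3_a s142_mm_202_t s139_mm_202_t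

theorem s144_mm_202_t : ∃ t, chk3 f_mm_202_t t 56 22 1 = true := ex3_b k111_mm_202_t k112_mm_202_t

theorem s145_mm_202_t : ∃ t, chk3 f_mm_202_t t 28 22 1 = true := ex3_a s144_mm_202_t k113_mm_202_t

theorem s146_mm_202_t : ∃ t, chk3 f_mm_202_t t 28 11 1 = true := ex3_b s145_mm_202_t k114_mm_202_t

theorem s147_mm_202_t : ∃ t, chk3 f_mm_202_t t 14 11 1 = true := ex3_a s146_mm_202_t k115_mm_202_t

theorem s148_mm_202_t : ∃ t, chk3 f_mm_202_t t 7 11 1 = true := ex3_a s147_mm_202_t k116_mm_202_t

theorem s149_mm_202_t : ∃ t, chk3 f_mm_202_t t 58 42 1 = true := ex3_a k106_mm_202_t k107_mm_202_t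

theorem s150_mm_202_t : ∃ t, chk3 f_mm_202_t t 58 21 1 = true := ex3_b s149_mm_202_t k108_mm_202_t

theorem s151_mm_202_t : ∃ t, chk3 f_mm_202_t t 29 21 1 = true := ex3_a s150_mm_202_t k109_mm_202_t

theorem s152_mm_202_t : ∃ t, chk3 f_mm_202_t t 28 43 1 = true := ex3_a k104_mm_202_t k105_mm_202_t

theorem s153_mm_202_t : ∃ t, chk3 f_mm_202_t t 28 21 1 = true := ex3_b k103_mm_202_t s152_mm_202_t

theorem s154_mm_202_t : ∃ t, chk3 f_mm_202_t t 14 21 1 = true := ex3_a s153_mm_202_t s151_mm_202_t

theorem s155_mm_202_t : ∃ t, chk3 f_mm_202_t t 29 83 1 = true := ex3_b k101_mm_202_t k102_mm_202_t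

theorem s156_mm_202_t : ∃ t, chk3 f_mm_202_t t 29 82 1 = true := ex3_a k99_mm_202_t k100_mm_202_t

theorem s157_mm_202_t : ∃ t, chk3 f_mm_202_t t 29 41 1 = true := ex3_b s156_mm_202_t s155_mm_202_t

theorem s158_mm_202_t : ∃ t, chk3 f_mm_202_t t 119 80 1 = true := ex3_a k96_mm_202_t k97_mm_202_t

theorem s159_mm_202_t : ∃ t, chk3 f_mm_202_t t 119 40 1 = true := ex3_b s158_mm_202_t k98_mm_202_t

theorem s160_mm_202_t : ∃ t, chk3 f_mm_202_t t 237 40 1 = true := ex3_b k94_mm_202_t k95_mm_202_t

theorem s161_mm_202_t : ∃ t, chk3 f_mm_202_t t 118 40 1 = true := ex3_a k93_mm_202_t s160_mm_202_t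

theorem s162_mm_202_t : ∃ t, chk3 f_mm_202_t t 59 40 1 = true := ex3_a s161_mm_202_t s159_mm_202_t

theorem s163_mm_202_t : ∃ t, chk3 f_mm_202_t t 29 40 1 = true := ex3_a k92_mm_202_t s162_mm_202_t

theorem s164_mm_202_t : ∃ t, chk3 f_mm_202_t t 29 20 1 = true := ex3_b s163_mm_202_t s157_mm_202_t

theorem s165_mm_202_t : ∃ t, chk3 f_mm_202_t t 14 20 1 = true := ex3_a k91_mm_202_t s164_mm_202_t

theorem s166_mm_202_t : ∃ t, chk3 f_mm_202_t t 14 10 1 = true := ex3_b s165_mm_202_t s154_mm_202_t

theorem s167_mm_202_t : ∃ t, chk3 f_mm_202_t t 7 10 1 = true := ex3_a s166_mm_202_t k110_mm_202_t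

theorem s168_mm_202_t : ∃ t, chk3 f_mm_202_t t 7 5 1 = true := ex3_b s167_mm_202_t s148_mm_202_t

theorem s169_mm_202_t : ∃ t, chk3 f_mm_202_t t 27 23 1 = true := ex3_b k89_mm_202_t k90_mm_202_t

theorem s170_mm_202_t : ∃ t, chk3 f_mm_202_t t 13 23 1 = true := ex3_a k88_mm_202_t s169_mm_202_t

theorem s171_mm_202_t : ∃ t, chk3 f_mm_202_t t 13 11 1 = true := ex3_b k87_mm_202_t s170_mm_202_t

theorem s172_mm_202_t : ∃ t, chk3 f_mm_202_t t 6 11 1 = true := ex3_a k86_mm_202_t s171_mm_202_t

theorem s173_mm_202_t : ∃ t, chk3 f_mm_202_t t 6 20 1 = true := ex3_a k83_mm_202_t k84_mm_202_t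

theorem s174_mm_202_t : ∃ t, chk3 f_mm_202_t t 6 10 1 = true := ex3_b s173_mm_202_t k85_mm_202_t

theorem s175_mm_202_t : ∃ t, chk3 f_mm_202_t t 6 5 1 = true := ex3_b s174_mm_202_t s172_mm_202_t

theorem s176_mm_202_t : ∃ t, chk3 f_mm_202_t t 3 5 1 = true := ex3_a s175_mm_202_t s168_mm_202_t

theorem s177_mm_202_t : ∃ t, chk3 f_mm_202_t t 240 78 1 = true := ex3_b k76_mm_202_t k77_mm_202_t

theorem s178_mm_202_t : ∃ t, chk3 f_mm_202_t t 120 78 1 = true := ex3_a s177_mm_202_t k78_mm_202_t

theorem s179_mm_202_t : ∃ t, chk3 f_mm_202_t t 120 39 1 = true := ex3_b s178_mm_202_t k79_mm_202_t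

theorem s180_mm_202_t : ∃ t, chk3 f_mm_202_t t 60 39 1 = true := ex3_a s179_mm_202_t k80_mm_202_t

theorem s181_mm_202_t : ∃ t, chk3 f_mm_202_t t 242 153 1 = true := ex3_a k72_mm_202_t k73_mm_202_t

theorem s182_mm_202_t : ∃ t, chk3 f_mm_202_t t 121 153 1 = true := ex3_a s181_mm_202_t k74_mm_202_t

theorem s183_mm_202_t : ∃ t, chk3 f_mm_202_t t 243 152 1 = true := ex3_a k70_mm_202_t k71_mm_202_t

theorem s184_mm_202_t : ∃ t, chk3 f_mm_202_t t 121 152 1 = true := ex3_a k69_mm_202_t s183_mm_202_t

theorem s185_mm_202_t : ∃ t, chk3 f_mm_202_t t 121 76 1 = true := ex3_b s184_mm_202_t s182_mm_202_t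

theorem s186_mm_202_t : ∃ t, chk3 f_mm_202_t t 121 38 1 = true := ex3_b s185_mm_202_t k75_mm_202_t

theorem s187_mm_202_t : ∃ t, chk3 f_mm_202_t t 241 77 1 = true := ex3_b k67_mm_202_t k68_mm_202_t

theorem s188_mm_202_t : ∃ t, chk3 f_mm_202_t t 241 38 1 = true := ex3_b k66_mm_202_t s187_mm_202_t

theorem s189_mm_202_t : ∃ t, chk3 f_mm_202_t t 120 38 1 = true := ex3_a k65_mm_202_t s188_mm_202_t

theorem s190_mm_202_t : ∃ t, chk3 f_mm_202_t t 60 38 1 = true := ex3_a s189_mm_202_t s186_mm_202_t

theorem s191_mm_202_t : ∃ t, chk3 f_mm_202_t t 60 19 1 = true := ex3_b s190_mm_202_t s180_mm_202_t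

theorem s192_mm_202_t : ∃ t, chk3 f_mm_202_t t 30 19 1 = true := ex3_a s191_mm_202_t k81_mm_202_t

theorem s193_mm_202_t : ∃ t, chk3 f_mm_202_t t 15 19 1 = true := ex3_a s192_mm_202_t k82_mm_202_t

theorem s194_mm_202_t : ∃ t, chk3 f_mm_202_t t 488 150 1 = true := ex3_a k58_mm_202_t k59_mm_202_t

theorem s195_mm_202_t : ∃ t, chk3 f_mm_202_t t 244 150 1 = true := ex3_a s194_mm_202_t k60_mm_202_t

theorem s196_mm_202_t : ∃ t, chk3 f_mm_202_t t 244 75 1 = true := ex3_b s195_mm_202_t k61_mm_202_t

theorem s197_mm_202_t : ∃ t, chk3 f_mm_202_t t 122 75 1 = true := ex3_a s196_mm_202_t k62_mm_202_t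

theorem s198_mm_202_t : ∃ t, chk3 f_mm_202_t t 245 296 1 = true := ex3_b k54_mm_202_t k55_mm_202_t

theorem s199_mm_202_t : ∃ t, chk3 f_mm_202_t t 245 148 1 = true := ex3_b s198_mm_202_t k56_mm_202_t

theorem s200_mm_202_t : ∃ t, chk3 f_mm_202_t t 245 74 1 = true := ex3_b s199_mm_202_t k57_mm_202_t

theorem s201_mm_202_t : ∃ t, chk3 f_mm_202_t t 489 149 1 = true := ex3_b k52_mm_202_t k53_mm_202_t

theorem s202_mm_202_t : ∃ t, chk3 f_mm_202_t t 244 149 1 = true := ex3_a k51_mm_202_t s201_mm_202_t

theorem s203_mm_202_t : ∃ t, chk3 f_mm_202_t t 244 74 1 = true := ex3_b k50_mm_202_t s202_mm_202_t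

theorem s204_mm_202_t : ∃ t, chk3 f_mm_202_t t 122 74 1 = true := ex3_a s203_mm_202_t s200_mm_202_t

theorem s205_mm_202_t : ∃ t, chk3 f_mm_202_t t 122 37 1 = true := ex3_b s204_mm_202_t s197_mm_202_t

theorem s206_mm_202_t : ∃ t, chk3 f_mm_202_t t 61 37 1 = true := ex3_a s205_mm_202_t k63_mm_202_t

theorem s207_mm_202_t : ∃ t, chk3 f_mm_202_t t 121 151 1 = true := ex3_b k48_mm_202_t k49_mm_202_t

theorem s208_mm_202_t : ∃ t, chk3 f_mm_202_t t 60 151 1 = true := ex3_a k47_mm_202_t s207_mm_202_t

theorem s209_mm_202_t : ∃ t, chk3 f_mm_202_t t 60 150 1 = true := ex3_a k45_mm_202_t k46_mm_202_t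

theorem s210_mm_202_t : ∃ t, chk3 f_mm_202_t t 60 75 1 = true := ex3_b s209_mm_202_t s208_mm_202_t

theorem s211_mm_202_t : ∃ t, chk3 f_mm_202_t t 60 37 1 = true := ex3_b k44_mm_202_t s210_mm_202_t

theorem s212_mm_202_t : ∃ t, chk3 f_mm_202_t t 30 37 1 = true := ex3_a s211_mm_202_t s206_mm_202_t

theorem s213_mm_202_t : ∃ t, chk3 f_mm_202_t t 985 146 1 = true := ex3_b k39_mm_202_t k40_mm_202_t

theorem s214_mm_202_t : ∃ t, chk3 f_mm_202_t t 492 146 1 = true := ex3_a k38_mm_202_t s213_mm_202_t

theorem s215_mm_202_t : ∃ t, chk3 f_mm_202_t t 246 146 1 = true := ex3_a s214_mm_202_t k41_mm_202_t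

theorem s216_mm_202_t : ∃ t, chk3 f_mm_202_t t 246 73 1 = true := ex3_b s215_mm_202_t k42_mm_202_t

theorem s217_mm_202_t : ∃ t, chk3 f_mm_202_t t 123 73 1 = true := ex3_a s216_mm_202_t k43_mm_202_t

theorem s218_mm_202_t : ∃ t, chk3 f_mm_202_t t 247 145 1 = true := ex3_b k36_mm_202_t k37_mm_202_t

theorem s219_mm_202_t : ∃ t, chk3 f_mm_202_t t 990 144 1 = true := ex3_a k33_mm_202_t k34_mm_202_t

theorem s220_mm_202_t : ∃ t, chk3 f_mm_202_t t 495 144 1 = true := ex3_a s219_mm_202_t k35_mm_202_t

theorem s221_mm_202_t : ∃ t, chk3 f_mm_202_t t 494 289 1 = true := ex3_b k31_mm_202_t k32_mm_202_t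

theorem s222_mm_202_t : ∃ t, chk3 f_mm_202_t t 494 144 1 = true := ex3_b k30_mm_202_t s221_mm_202_t

theorem s223_mm_202_t : ∃ t, chk3 f_mm_202_t t 247 144 1 = true := ex3_a s222_mm_202_t s220_mm_202_t

theorem s224_mm_202_t : ∃ t, chk3 f_mm_202_t t 247 72 1 = true := ex3_b s223_mm_202_t s218_mm_202_t

theorem s225_mm_202_t : ∃ t, chk3 f_mm_202_t t 493 291 1 = true := ex3_b k28_mm_202_t k29_mm_202_t

theorem s226_mm_202_t : ∃ t, chk3 f_mm_202_t t 493 145 1 = true := ex3_b k27_mm_202_t s225_mm_202_t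

theorem s227_mm_202_t : ∃ t, chk3 f_mm_202_t t 246 145 1 = true := ex3_a k26_mm_202_t s226_mm_202_t

theorem s228_mm_202_t : ∃ t, chk3 f_mm_202_t t 246 72 1 = true := ex3_b k25_mm_202_t s227_mm_202_t

theorem s229_mm_202_t : ∃ t, chk3 f_mm_202_t t 123 72 1 = true := ex3_a s228_mm_202_t s224_mm_202_t

theorem s230_mm_202_t : ∃ t, chk3 f_mm_202_t t 123 36 1 = true := ex3_b s229_mm_202_t s217_mm_202_t

theorem s231_mm_202_t : ∃ t, chk3 f_mm_202_t t 491 147 1 = true := ex3_a k23_mm_202_t k24_mm_202_t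

theorem s232_mm_202_t : ∃ t, chk3 f_mm_202_t t 491 73 1 = true := ex3_b k22_mm_202_t s231_mm_202_t

theorem s233_mm_202_t : ∃ t, chk3 f_mm_202_t t 245 73 1 = true := ex3_a k21_mm_202_t s232_mm_202_t

theorem s234_mm_202_t : ∃ t, chk3 f_mm_202_t t 122 73 1 = true := ex3_a k20_mm_202_t s233_mm_202_t

theorem s235_mm_202_t : ∃ t, chk3 f_mm_202_t t 122 36 1 = true := ex3_b k19_mm_202_t s234_mm_202_t

theorem s236_mm_202_t : ∃ t, chk3 f_mm_202_t t 61 36 1 = true := ex3_a s235_mm_202_t s230_mm_202_t

theorem s237_mm_202_t : ∃ t, chk3 f_mm_202_t t 60 36 1 = true := ex3_c k17_mm_202_t k18_mm_202_t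

theorem s238_mm_202_t : ∃ t, chk3 f_mm_202_t t 30 36 1 = true := ex3_a s237_mm_202_t s236_mm_202_t

theorem s239_mm_202_t : ∃ t, chk3 f_mm_202_t t 30 18 1 = true := ex3_b s238_mm_202_t s212_mm_202_t

theorem s240_mm_202_t : ∃ t, chk3 f_mm_202_t t 15 18 1 = true := ex3_a s239_mm_202_t k64_mm_202_t

theorem s241_mm_202_t : ∃ t, chk3 f_mm_202_t t 15 9 1 = true := ex3_b s240_mm_202_t s193_mm_202_t

theorem s242_mm_202_t : ∃ t, chk3 f_mm_202_t t 59 79 1 = true := ex3_b k15_mm_202_t k16_mm_202_t

theorem s243_mm_202_t : ∃ t, chk3 f_mm_202_t t 59 78 1 = true := ex3_b k13_mm_202_t k14_mm_202_t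

theorem s244_mm_202_t : ∃ t, chk3 f_mm_202_t t 59 39 1 = true := ex3_b s243_mm_202_t s242_mm_202_t

theorem s245_mm_202_t : ∃ t, chk3 f_mm_202_t t 29 39 1 = true := ex3_a k12_mm_202_t s244_mm_202_t

theorem s246_mm_202_t : ∃ t, chk3 f_mm_202_t t 29 38 1 = true := ex3_a k10_mm_202_t k11_mm_202_t

theorem s247_mm_202_t : ∃ t, chk3 f_mm_202_t t 29 19 1 = true := ex3_b s246_mm_202_t s245_mm_202_t

theorem s248_mm_202_t : ∃ t, chk3 f_mm_202_t t 14 19 1 = true := ex3_a k9_mm_202_t s247_mm_202_t

theorem s249_mm_202_t : ∃ t, chk3 f_mm_202_t t 29 18 1 = true := ex3_a k7_mm_202_t k8_mm_202_t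

theorem s250_mm_202_t : ∃ t, chk3 f_mm_202_t t 14 18 1 = true := ex3_a k6_mm_202_t s249_mm_202_t

theorem s251_mm_202_t : ∃ t, chk3 f_mm_202_t t 14 9 1 = true := ex3_b s250_mm_202_t s248_mm_202_t

theorem s252_mm_202_t : ∃ t, chk3 f_mm_202_t t 7 9 1 = true := ex3_a s251_mm_202_t s241_mm_202_t

theorem s253_mm_202_t : ∃ t, chk3 f_mm_202_t t 7 4 1 = true := ex3_b k5_mm_202_t s252_mm_202_t

theorem s254_mm_202_t : ∃ t, chk3 f_mm_202_t t 13 9 1 = true := ex3_b k3_mm_202_t k4_mm_202_t

theorem s255_mm_202_t : ∃ t, chk3 f_mm_202_t t 6 9 1 = true := ex3_a k2_mm_202_t s254_mm_202_t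

theorem s256_mm_202_t : ∃ t, chk3 f_mm_202_t t 6 4 1 = true := ex3_b k1_mm_202_t s255_mm_202_t

theorem s257_mm_202_t : ∃ t, chk3 f_mm_202_t t 3 4 1 = true := ex3_a s256_mm_202_t s253_mm_202_t

theorem s258_mm_202_t : ∃ t, chk3 f_mm_202_t t 3 2 1 = true := ex3_b s257_mm_202_t s176_mm_202_t

theorem s259_mm_202_t : ∃ t, chk3 f_mm_202_t t 1 2 1 = true := ex3_a k0_mm_202_t s258_mm_202_t

theorem s260_mm_202_t : ∃ t, chk3 f_mm_202_t t 1 1 1 = true := ex3_b s259_mm_202_t s143_mm_202_t

theorem c_mm_202_t : CertNE 0 536870912 0 536870912 740881858 40050571 3 eng mog cd0q2 cd0q0 pd2 true false false .pp 2 0 2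
    ndB0q2 ndB0q0 pcB2 cut_mm_202_t Ext.none :=
  certNE1 (fam := true) (s1 := false) (s2 := false) (a := 2) (b := 0) (c := 2) (cn := .pp) (n1 := ndB0q2) (n2 := ndB0q0) (pc := pcB2) (cut := cut_mm_202_t) (xt := Ext.none) (P1 := 0) (W1 := 536870912) (P2 := 0) (W2 := 536870912) (P3 := 740881858) (W3 := 40050571) (N0 := 3) (En := eng) (mo := mog) (C1 := cd0q2) (C2 := cd0q0) (C3 := pd2)
    rfl (fun _ => rfl) s260_mm_202_t

noncomputable def cut_mm_203_s : Cut := Cut.of [[⟨4, 0, 0, 1449551462⟩]]

noncomputable def f_mm_203_s : ℕ → ℕ → ℕ → ℕ → Bool := onCell 0 536870912 0 536870912 740881858 40050571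
    (rowNE 3 eng mog cd0q2 cd0q0 pd3 0 true false false .up 2 0 3 (qsf 0 536870912 0 536870912 3) ndB0q2 ndB0q0 pcB3 cut_mm_203_s Ext.none)

def k0_mm_203_s : ∃ t, chk3 f_mm_203_s t 1 1 1 = true :=
  ⟨(l 6), by decide +kernel⟩

theorem c_mm_203_s : CertNE 0 536870912 0 536870912 740881858 40050571 3 eng mog cd0q2 cd0q0 pd3 true false false .up 2 0 3
    ndB0q2 ndB0q0 pcB3 cut_mm_203_s Ext.none :=
  certNE0 (fam := true) (s1 := false) (s2 := false) (a := 2) (b := 0) (c := 3) (cn := .up) (n1 := ndB0q2) (n2 := ndB0q0) (pc := pcB3) (cut := cut_mm_203_s) (xt := Ext.none) (P1 := 0) (W1 := 536870912) (P2 := 0) (W2 := 536870912) (P3 := 740881858) (W3 := 40050571) (N0 := 3) (En := eng) (mo := mog) (C1 := cd0q2) (C2 := cd0q0) (C3 := pd3)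
    rfl k0_mm_203_s

noncomputable def cut_mm_203_t : Cut := Cut.of [[⟨3, 0, 0, 2845415833⟩]]

noncomputable def f_mm_203_t : ℕ → ℕ → ℕ → ℕ → Bool := onCell 0 536870912 1610612736 536870912 740881858 40050571
    (rowNE 3 eng mog cd0q2 cd0q0 pd3 1 true false false .up 2 0 3 (qsf 0 536870912 0 536870912 3) ndB0q2 ndB0q0 pcB3 cut_mm_203_t Ext.none)

def k0_mm_203_t : ∃ t, chk3 f_mm_203_t t 4 4 1 = true :=
  ⟨(b (a (b (a (l 16652344) (l 16668696)) (a (l 16672616) (l 16715232))) (b (a (l 16706272) (b (l 16705312) (l 16716064))) (a (b (l 16703512) (l 16713600)) (b (l 16747720) (c (l 16737496) (l 16737080)))))) (a (b (a (l 16690648) (l 16747088)) (a (l 16727792) (b (l 16721216) (l 16730720)))) (b (a (b (l 16723392) (l 16733096)) (b (l 16779152) (a (l 16751504) (b (l 16762208) (l 16767688))))) (a (b (l 16763976) (a (l 16747496) (l 16781040))) (b (a (l 16783208) (a (b (l 16769824) (l 16786168)) (b (l 68954375671) (l 145726890007)))) (a (b (l 16786608) (a (l 16773296) (l 100629763527))) (b (l 144116273735)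 (l 4)))))))), by decide +kernel⟩

def k1_mm_203_t : ∃ t, chk3 f_mm_203_t t 5 4 1 = true :=
  ⟨(b (a (b (a (b (l 16751560) (c (l 16773976) (l 16761720))) (b (a (l 16771952) (b (l 16783600) (a (l 16764552) (c (l 16772112) (l 16771768))))) (a (c (l 16780960) (l 16782696)) (a (b (l 16770168) (a (c (l 16774064) (l 16773856)) (b (l 16781432) (l 109756558615)))) (c (b (a (l 60364433095) (l 123715187607)) (l 157001179015)) (b (a (l 16780840) (l 104387854615)) (l 158074919063))))))) (a (b (b (l 16776080) (l 16776328)) (a (l 16777680) (a (l 16782592) (b (l 16771048) (a (l 16774824) (l 79691792743)))))) (b (a (b (a (l 16766984) (c (b (l 16772856) (l 50163886247)) (l 41573954839))) (b (a (l 16771160) (a (l 60364432135) (l 152169344599))) (a (l 16773936) (l 145190021175)))) (a (b (a (b (l 95261043591) (l 4)) (l 4)) (l 4)) (l 4))) (a (a (b (b (a (l 16774936) (l 86134237655)) (l 123715187127)) (l 4)) (l 4)) (l 4))))) (b (a (b (a (a (b (c (a (l 16772096) (l 55532597239)) (l 16784120)) (a (b (l 16776088) (l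 105461590839)) (l 146800633879))) (b (b (l 126399541191) (l 4)) (l 4))) (l 4)) (l 4)) (l 4)) (l 4))) (a (a (b (b (a (b (l 16764848) (a (l 16766896) (l 16784256))) (a (b (a (l 16773392) (l 64122534263)) (l 129620765287)) (b (l 143579406775) (l 4)))) (a (a (b (l 16772424) (l 78618053415)) (b (l 88281730903) (l 4))) (l 4))) (l 4)) (l 4)) (l 4))), by decide +kernel⟩

def k2_mm_203_t : ∃ t, chk3 f_mm_203_t t 2 5 1 = true :=
  ⟨(b (a (b (a (b (a (l 16724000) (l 16764256)) (a (l 16736552) (l 16776280))) (a (b (a (l 16759752) (b (l 16769184) (l 66806897095))) (a (a (l 16768440) (l 54458871319)) (b (l 109756541751) (l 151095593975)))) (b (a (b (a (l 94187312951) (l 4)) (l 4)) (l 4)) (l 4)))) (a (l 2) (l 2))) (l 4)) (l 2)), by decide +kernel⟩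

def k3_mm_203_t : ∃ t, chk3 f_mm_203_t t 3 2 1 = true :=
  ⟨(l 4), by decide +kernel⟩

def k4_mm_203_t : ∃ t, chk3 f_mm_203_t t 1 3 1 = true :=
  ⟨(l 2), by decide +kernel⟩

theorem s5_mm_203_t : ∃ t, chk3 f_mm_203_t t 2 4 1 = true := ex3_a k0_mm_203_t k1_mm_203_t

theorem s6_mm_203_t : ∃ t, chk3 f_mm_203_t t 2 2 1 = true := ex3_b s5_mm_203_t k2_mm_203_t

theorem s7_mm_203_t : ∃ t, chk3 f_mm_203_t t 1 2 1 = true := ex3_a s6_mm_203_t k3_mm_203_t

theorem s8_mm_203_t : ∃ t, chk3 f_mm_203_t t 1 1 1 = true := ex3_b s7_mm_203_t k4_mm_203_t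

theorem c_mm_203_t : CertNE 0 536870912 0 536870912 740881858 40050571 3 eng mog cd0q2 cd0q0 pd3 true false false .up 2 0 3
    ndB0q2 ndB0q0 pcB3 cut_mm_203_t Ext.none :=
  certNE1 (fam := true) (s1 := false) (s2 := false) (a := 2) (b := 0) (c := 3) (cn := .up) (n1 := ndB0q2) (n2 := ndB0q0) (pc := pcB3) (cut := cut_mm_203_t) (xt := Ext.none) (P1 := 0) (W1 := 536870912) (P2 := 0) (W2 := 536870912) (P3 := 740881858) (W3 := 40050571) (N0 := 3) (En := eng) (mo := mog) (C1 := cd0q2) (C2 := cd0q0) (C3 := pd3)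
    rfl (fun _ => rfl) s8_mm_203_t

noncomputable def cut_mm_213_s : Cut := Cut.of [[⟨4, 0, 0, 1449551462⟩]]

noncomputable def f_mm_213_s : ℕ → ℕ → ℕ → ℕ → Bool := onCell 0 536870912 536870912 536870912 740881858 40050571
    (rowNE 3 eng mog cd0q2 cd0q1 pd3 0 true false false .pnn 2 1 3 (qsf 0 536870912 536870912 536870912 3) ndB0q2 ndB0q1 pcB3 cut_mm_213_s Ext.none)

def k0_mm_213_s : ∃ t, chk3 f_mm_213_s t 1 1 1 = true :=
  ⟨(l 6), by decide +kernel⟩

theorem c_mm_213_s : CertNE 0 536870912 536870912 536870912 740881858 40050571 3 eng mog cd0q2 cd0q1 pd3 true false false .pnn 2 1 3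
    ndB0q2 ndB0q1 pcB3 cut_mm_213_s Ext.none :=
  certNE0 (fam := true) (s1 := false) (s2 := false) (a := 2) (b := 1) (c := 3) (cn := .pnn) (n1 := ndB0q2) (n2 := ndB0q1) (pc := pcB3) (cut := cut_mm_213_s) (xt := Ext.none) (P1 := 0) (W1 := 536870912) (P2 := 536870912) (W2 := 536870912) (P3 := 740881858) (W3 := 40050571) (N0 := 3) (En := eng) (mo := mog) (C1 := cd0q2) (C2 := cd0q1) (C3 := pd3)
    rfl k0_mm_213_s

noncomputable def cut_mm_213_t : Cut := Cut.of [[⟨3, 0, 0, 2845415833⟩]]

noncomputable def f_mm_213_t : ℕ → ℕ → ℕ → ℕ → Bool := onCell 0 536870912 536870912 536870912 740881858 40050571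
    (rowNE 3 eng mog cd0q2 cd0q1 pd3 0 true false false .pnn 2 1 3 (qsf 0 536870912 536870912 536870912 3) ndB0q2 ndB0q1 pcB3 cut_mm_213_t Ext.none)

def k0_mm_213_t : ∃ t, chk3 f_mm_213_t t 1 1 1 = true :=
  ⟨(a (b (a (b (b (b (a (a (b (l 16746312) (l 16755992)) (a (b (l 16759488) (l 16769000)) (b (l 16789680) (a (l 60364444871) (l 102777253511))))) (a (a (b (b (l 75933700231) (l 103850993895)) (l 4)) (l 4)) (l 4))) (a (b (a (l 16765032) (a (l 89355482055) (l 4))) (a (a (l 16769488) (l 90429222855)) (l 4))) (l 4))) (a (b (a (b (a (l 92576705831) (l 4)) (l 4)) (l 4)) (l 4)) (l 4))) (l 4)) (l 4)) (l 4)) (l 4)), by decide +kernel⟩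

theorem c_mm_213_t : CertNE 0 536870912 536870912 536870912 740881858 40050571 3 eng mog cd0q2 cd0q1 pd3 true false false .pnn 2 1 3
    ndB0q2 ndB0q1 pcB3 cut_mm_213_t Ext.none :=
  certNE0 (fam := true) (s1 := false) (s2 := false) (a := 2) (b := 1) (c := 3) (cn := .pnn) (n1 := ndB0q2) (n2 := ndB0q1) (pc := pcB3) (cut := cut_mm_213_t) (xt := Ext.none) (P1 := 0) (W1 := 536870912) (P2 := 536870912) (W2 := 536870912) (P3 := 740881858) (W3 := 40050571) (N0 := 3) (En := eng) (mo := mog) (C1 := cd0q2) (C2 := cd0q1) (C3 := pd3)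
    rfl k0_mm_213_t

end Pool.Agent.Strip051.G.I69_7273.Tab.CS.BA00

namespace Pool.Agent.Strip051.G.I69_7273.Tab.CS.BA05

open Pool.Agent.Strip051.PB Pool.Agent.Strip051.PB.T
open Pool.Agent.Strip051.G.I69_7273.Tab

noncomputable def cut_pp_001_s : Cut := Cut.of [[⟨4, 0, 0, 1449551462⟩]]

noncomputable def f_pp_001_s : ℕ → ℕ → ℕ → ℕ → Bool := onCell 0 536870912 0 536870912 740881858 40050571
    (rowNE 3 eng mog cd0q0 cd5q0 pd1 0 true true true .up 0 0 1 (qsf 0 536870912 0 536870912 1) ndB0q0 ndB5q0 pcB1 cut_pp_001_s Ext.none)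

def k0_pp_001_s : ∃ t, chk3 f_pp_001_s t 1 1 1 = true :=
  ⟨(l 4), by decide +kernel⟩

theorem c_pp_001_s : CertNE 0 536870912 0 536870912 740881858 40050571 3 eng mog cd0q0 cd5q0 pd1 true true true .up 0 0 1
    ndB0q0 ndB5q0 pcB1 cut_pp_001_s Ext.none :=
  certNE0 (fam := true) (s1 := true) (s2 := true) (a := 0) (b := 0) (c := 1) (cn := .up) (n1 := ndB0q0) (n2 := ndB5q0) (pc := pcB1) (cut := cut_pp_001_s) (xt := Ext.none) (P1 := 0) (W1 := 536870912) (P2 := 0) (W2 := 536870912) (P3 := 740881858) (W3 := 40050571) (N0 := 3) (En := eng) (mo := mog) (C1 := cd0q0) (C2 := cd5q0) (C3 := pd1)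
    rfl k0_pp_001_s

noncomputable def cut_pp_011_s : Cut := Cut.of [[⟨4, 0, 0, 1449551462⟩]]

noncomputable def f_pp_011_s : ℕ → ℕ → ℕ → ℕ → Bool := onCell 0 536870912 536870912 536870912 740881858 40050571
    (rowNE 3 eng mog cd0q0 cd5q1 pd1 0 true true true .pnn 0 1 1 (qsf 0 536870912 536870912 536870912 1) ndB0q0 ndB5q1 pcB1 cut_pp_011_s Ext.none)

def k0_pp_011_s : ∃ t, chk3 f_pp_011_s t 1 1 1 = true :=
  ⟨(l 4), by decide +kernel⟩

theorem c_pp_011_s : CertNE 0 536870912 536870912 536870912 740881858 40050571 3 eng mog cd0q0 cd5q1 pd1 true true true .pnn 0 1 1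
    ndB0q0 ndB5q1 pcB1 cut_pp_011_s Ext.none :=
  certNE0 (fam := true) (s1 := true) (s2 := true) (a := 0) (b := 1) (c := 1) (cn := .pnn) (n1 := ndB0q0) (n2 := ndB5q1) (pc := pcB1) (cut := cut_pp_011_s) (xt := Ext.none) (P1 := 0) (W1 := 536870912) (P2 := 536870912) (W2 := 536870912) (P3 := 740881858) (W3 := 40050571) (N0 := 3) (En := eng) (mo := mog) (C1 := cd0q0) (C2 := cd5q1) (C3 := pd1)
    rfl k0_pp_011_s

noncomputable def cut_pp_012_s : Cut := Cut.of [[⟨4, 0, 0, 1449551462⟩]]

noncomputable def f_pp_012_s : ℕ → ℕ → ℕ → ℕ → Bool := onCell 0 536870912 536870912 536870912 740881858 40050571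
    (rowNE 3 eng mog cd0q0 cd5q1 pd2 0 true true true .pnp 0 1 2 (qsf 0 536870912 536870912 536870912 2) ndB0q0 ndB5q1 pcB2 cut_pp_012_s Ext.none)

def k0_pp_012_s : ∃ t, chk3 f_pp_012_s t 1 1 1 = true :=
  ⟨(l 4), by decide +kernel⟩

theorem c_pp_012_s : CertNE 0 536870912 536870912 536870912 740881858 40050571 3 eng mog cd0q0 cd5q1 pd2 true true true .pnp 0 1 2
    ndB0q0 ndB5q1 pcB2 cut_pp_012_s Ext.none :=
  certNE0 (fam := true) (s1 := true) (s2 := true) (a := 0) (b := 1) (c := 2) (cn := .pnp) (n1 := ndB0q0) (n2 := ndB5q1) (pc := pcB2) (cut := cut_pp_012_s) (xt := Ext.none) (P1 := 0) (W1 := 536870912) (P2 := 536870912) (W2 := 536870912) (P3 := 740881858) (W3 := 40050571) (N0 := 3) (En := eng) (mo := mog) (C1 := cd0q0) (C2 := cd5q1) (C3 := pd2)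
    rfl k0_pp_012_s

noncomputable def cut_pp_022_s : Cut := Cut.of [[⟨4, 0, 0, 1449551462⟩]]

noncomputable def f_pp_022_s : ℕ → ℕ → ℕ → ℕ → Bool := onCell 0 536870912 1073741824 536870912 740881858 40050571
    (rowNE 3 eng mog cd0q0 cd5q2 pd2 0 true true true .pp 0 2 2 (qsf 0 536870912 1073741824 536870912 2) ndB0q0 ndB5q2 pcB2 cut_pp_022_s Ext.none)

def k0_pp_022_s : ∃ t, chk3 f_pp_022_s t 1 1 1 = true :=
  ⟨(l 4), by decide +kernel⟩

theorem c_pp_022_s : CertNE 0 536870912 1073741824 536870912 740881858 40050571 3 eng mog cd0q0 cd5q2 pd2 true true true .pp 0 2 2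
    ndB0q0 ndB5q2 pcB2 cut_pp_022_s Ext.none :=
  certNE0 (fam := true) (s1 := true) (s2 := true) (a := 0) (b := 2) (c := 2) (cn := .pp) (n1 := ndB0q0) (n2 := ndB5q2) (pc := pcB2) (cut := cut_pp_022_s) (xt := Ext.none) (P1 := 0) (W1 := 536870912) (P2 := 1073741824) (W2 := 536870912) (P3 := 740881858) (W3 := 40050571) (N0 := 3) (En := eng) (mo := mog) (C1 := cd0q0) (C2 := cd5q2) (C3 := pd2)
    rfl k0_pp_022_s

noncomputable def cut_pp_023_s : Cut := Cut.of [[⟨4, 0, 0, 1449551462⟩]]

noncomputable def f_pp_023_s : ℕ → ℕ → ℕ → ℕ → Bool := onCell 0 536870912 1073741824 536870912 740881858 40050571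
    (rowNE 3 eng mog cd0q0 cd5q2 pd3 0 true true true .up 0 2 3 (qsf 0 536870912 1073741824 536870912 3) ndB0q0 ndB5q2 pcB3 cut_pp_023_s Ext.none)

def k0_pp_023_s : ∃ t, chk3 f_pp_023_s t 1 1 1 = true :=
  ⟨(l 4), by decide +kernel⟩

theorem c_pp_023_s : CertNE 0 536870912 1073741824 536870912 740881858 40050571 3 eng mog cd0q0 cd5q2 pd3 true true true .up 0 2 3
    ndB0q0 ndB5q2 pcB3 cut_pp_023_s Ext.none :=
  certNE0 (fam := true) (s1 := true) (s2 := true) (a := 0) (b := 2) (c := 3) (cn := .up) (n1 := ndB0q0) (n2 := ndB5q2) (pc := pcB3) (cut := cut_pp_023_s) (xt := Ext.none) (P1 := 0) (W1 := 536870912) (P2 := 1073741824) (W2 := 536870912) (P3 := 740881858) (W3 := 40050571) (N0 := 3) (En := eng) (mo := mog) (C1 := cd0q0) (C2 := cd5q2) (C3 := pd3)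
    rfl k0_pp_023_s

noncomputable def cut_pp_033_s : Cut := Cut.of [[⟨4, 0, 0, 1449551462⟩]]

noncomputable def f_pp_033_s : ℕ → ℕ → ℕ → ℕ → Bool := onCell 0 536870912 0 1230186008 740881858 40050571
    (rowNE 3 eng mog cd0q0 cd5q3 pd3 0 true true true .pnn 0 3 3 (qsf 0 536870912 0 1230186008 3) ndB0q0 ndB5q3 pcB3 cut_pp_033_s Ext.none)

def k0_pp_033_s : ∃ t, chk3 f_pp_033_s t 1 1 1 = true :=
  ⟨(l 4), by decide +kernel⟩

theorem c_pp_033_s : CertNE 0 536870912 0 1230186008 740881858 40050571 3 eng mog cd0q0 cd5q3 pd3 true true true .pnn 0 3 3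
    ndB0q0 ndB5q3 pcB3 cut_pp_033_s Ext.none :=
  certNE0 (fam := true) (s1 := true) (s2 := true) (a := 0) (b := 3) (c := 3) (cn := .pnn) (n1 := ndB0q0) (n2 := ndB5q3) (pc := pcB3) (cut := cut_pp_033_s) (xt := Ext.none) (P1 := 0) (W1 := 536870912) (P2 := 0) (W2 := 1230186008) (P3 := 740881858) (W3 := 40050571) (N0 := 3) (En := eng) (mo := mog) (C1 := cd0q0) (C2 := cd5q3) (C3 := pd3)
    rfl k0_pp_033_s

noncomputable def cut_pp_101_s : Cut := Cut.of [[⟨4, 0, 0, 1449551462⟩]]

noncomputable def f_pp_101_s : ℕ → ℕ → ℕ → ℕ → Bool := onCell 536870912 536870912 0 536870912 740881858 40050571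
    (rowNE 3 eng mog cd0q1 cd5q0 pd1 0 true true true .npn 1 0 1 (qsf 536870912 536870912 0 536870912 1) ndB0q1 ndB5q0 pcB1 cut_pp_101_s Ext.none)

def k0_pp_101_s : ∃ t, chk3 f_pp_101_s t 1 1 1 = true :=
  ⟨(l 4), by decide +kernel⟩

theorem c_pp_101_s : CertNE 536870912 536870912 0 536870912 740881858 40050571 3 eng mog cd0q1 cd5q0 pd1 true true true .npn 1 0 1
    ndB0q1 ndB5q0 pcB1 cut_pp_101_s Ext.none :=
  certNE0 (fam := true) (s1 := true) (s2 := true) (a := 1) (b := 0) (c := 1) (cn := .npn) (n1 := ndB0q1) (n2 := ndB5q0) (pc := pcB1) (cut := cut_pp_101_s) (xt := Ext.none) (P1 := 536870912) (W1 := 536870912) (P2 := 0) (W2 := 536870912) (P3 := 740881858) (W3 := 40050571) (N0 := 3) (En := eng) (mo := mog) (C1 := cd0q1) (C2 := cd5q0) (C3 := pd1)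
    rfl k0_pp_101_s

noncomputable def cut_pp_102_s : Cut := Cut.of [[⟨4, 0, 0, 1449551462⟩]]

noncomputable def f_pp_102_s : ℕ → ℕ → ℕ → ℕ → Bool := onCell 536870912 536870912 0 536870912 740881858 40050571
    (rowNE 3 eng mog cd0q1 cd5q0 pd2 0 true true true .npp 1 0 2 (qsf 536870912 536870912 0 536870912 2) ndB0q1 ndB5q0 pcB2 cut_pp_102_s Ext.none)

def k0_pp_102_s : ∃ t, chk3 f_pp_102_s t 1 1 1 = true :=
  ⟨(l 4), by decide +kernel⟩

theorem c_pp_102_s : CertNE 536870912 536870912 0 536870912 740881858 40050571 3 eng mog cd0q1 cd5q0 pd2 true true true .npp 1 0 2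
    ndB0q1 ndB5q0 pcB2 cut_pp_102_s Ext.none :=
  certNE0 (fam := true) (s1 := true) (s2 := true) (a := 1) (b := 0) (c := 2) (cn := .npp) (n1 := ndB0q1) (n2 := ndB5q0) (pc := pcB2) (cut := cut_pp_102_s) (xt := Ext.none) (P1 := 536870912) (W1 := 536870912) (P2 := 0) (W2 := 536870912) (P3 := 740881858) (W3 := 40050571) (N0 := 3) (En := eng) (mo := mog) (C1 := cd0q1) (C2 := cd5q0) (C3 := pd2)
    rfl k0_pp_102_s

noncomputable def cut_pp_112_s : Cut := Cut.of [[⟨4, 0, 0, 1449551462⟩]]

noncomputable def f_pp_112_s : ℕ → ℕ → ℕ → ℕ → Bool := onCell 536870912 536870912 536870912 536870912 740881858 40050571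
    (rowNE 3 eng mog cd0q1 cd5q1 pd2 0 true true true .dn 1 1 2 (qsf 536870912 536870912 536870912 536870912 2) ndB0q1 ndB5q1 pcB2 cut_pp_112_s Ext.none)

def k0_pp_112_s : ∃ t, chk3 f_pp_112_s t 1 1 1 = true :=
  ⟨(l 4), by decide +kernel⟩

theorem c_pp_112_s : CertNE 536870912 536870912 536870912 536870912 740881858 40050571 3 eng mog cd0q1 cd5q1 pd2 true true true .dn 1 1 2
    ndB0q1 ndB5q1 pcB2 cut_pp_112_s Ext.none :=
  certNE0 (fam := true) (s1 := true) (s2 := true) (a := 1) (b := 1) (c := 2) (cn := .dn) (n1 := ndB0q1) (n2 := ndB5q1) (pc := pcB2) (cut := cut_pp_112_s) (xt := Ext.none) (P1 := 536870912) (W1 := 536870912) (P2 := 536870912) (W2 := 536870912) (P3 := 740881858) (W3 := 40050571) (N0 := 3) (En := eng) (mo := mog) (C1 := cd0q1) (C2 := cd5q1) (C3 := pd2)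
    rfl k0_pp_112_s

noncomputable def cut_pp_113_s : Cut := Cut.of [[⟨4, 0, 0, 1449551462⟩]]

noncomputable def f_pp_113_s : ℕ → ℕ → ℕ → ℕ → Bool := onCell 536870912 536870912 536870912 536870912 740881858 40050571
    (rowNE 3 eng mog cd0q1 cd5q1 pd3 0 true true true .nn 1 1 3 (qsf 536870912 536870912 536870912 536870912 3) ndB0q1 ndB5q1 pcB3 cut_pp_113_s Ext.none)

def k0_pp_113_s : ∃ t, chk3 f_pp_113_s t 1 1 1 = true :=
  ⟨(l 4), by decide +kernel⟩

theorem c_pp_113_s : CertNE 536870912 536870912 536870912 536870912 740881858 40050571 3 eng mog cd0q1 cd5q1 pd3 true true true .nn 1 1 3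
    ndB0q1 ndB5q1 pcB3 cut_pp_113_s Ext.none :=
  certNE0 (fam := true) (s1 := true) (s2 := true) (a := 1) (b := 1) (c := 3) (cn := .nn) (n1 := ndB0q1) (n2 := ndB5q1) (pc := pcB3) (cut := cut_pp_113_s) (xt := Ext.none) (P1 := 536870912) (W1 := 536870912) (P2 := 536870912) (W2 := 536870912) (P3 := 740881858) (W3 := 40050571) (N0 := 3) (En := eng) (mo := mog) (C1 := cd0q1) (C2 := cd5q1) (C3 := pd3)
    rfl k0_pp_113_s

noncomputable def cut_pp_123_s : Cut := Cut.of [[⟨4, 0, 0, 1449551462⟩]]

noncomputable def f_pp_123_s : ℕ → ℕ → ℕ → ℕ → Bool := onCell 536870912 536870912 1073741824 536870912 740881858 40050571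
    (rowNE 3 eng mog cd0q1 cd5q2 pd3 0 true true true .npn 1 2 3 (qsf 536870912 536870912 1073741824 536870912 3) ndB0q1 ndB5q2 pcB3 cut_pp_123_s Ext.none)

def k0_pp_123_s : ∃ t, chk3 f_pp_123_s t 1 1 1 = true :=
  ⟨(l 4), by decide +kernel⟩

theorem c_pp_123_s : CertNE 536870912 536870912 1073741824 536870912 740881858 40050571 3 eng mog cd0q1 cd5q2 pd3 true true true .npn 1 2 3
    ndB0q1 ndB5q2 pcB3 cut_pp_123_s Ext.none :=
  certNE0 (fam := true) (s1 := true) (s2 := true) (a := 1) (b := 2) (c := 3) (cn := .npn) (n1 := ndB0q1) (n2 := ndB5q2) (pc := pcB3) (cut := cut_pp_123_s) (xt := Ext.none) (P1 := 536870912) (W1 := 536870912) (P2 := 1073741824) (W2 := 536870912) (P3 := 740881858) (W3 := 40050571) (N0 := 3) (En := eng) (mo := mog) (C1 := cd0q1) (C2 := cd5q2) (C3 := pd3)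
    rfl k0_pp_123_s

noncomputable def cut_pp_133_s : Cut := Cut.of [[⟨4, 0, 0, 1449551462⟩]]

noncomputable def f_pp_133_s : ℕ → ℕ → ℕ → ℕ → Bool := onCell 536870912 536870912 0 1230186008 740881858 40050571
    (rowNE 3 eng mog cd0q1 cd5q3 pd3 0 true true true .dn 1 3 3 (qsf 536870912 536870912 0 1230186008 3) ndB0q1 ndB5q3 pcB3 cut_pp_133_s Ext.none)

def k0_pp_133_s : ∃ t, chk3 f_pp_133_s t 1 1 1 = true :=
  ⟨(l 4), by decide +kernel⟩

theorem c_pp_133_s : CertNE 536870912 536870912 0 1230186008 740881858 40050571 3 eng mog cd0q1 cd5q3 pd3 true true true .dn 1 3 3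
    ndB0q1 ndB5q3 pcB3 cut_pp_133_s Ext.none :=
  certNE0 (fam := true) (s1 := true) (s2 := true) (a := 1) (b := 3) (c := 3) (cn := .dn) (n1 := ndB0q1) (n2 := ndB5q3) (pc := pcB3) (cut := cut_pp_133_s) (xt := Ext.none) (P1 := 536870912) (W1 := 536870912) (P2 := 0) (W2 := 1230186008) (P3 := 740881858) (W3 := 40050571) (N0 := 3) (En := eng) (mo := mog) (C1 := cd0q1) (C2 := cd5q3) (C3 := pd3)
    rfl k0_pp_133_s

noncomputable def cut_pp_202_s : Cut := Cut.of [[⟨4, 0, 0, 1449551462⟩]]

noncomputable def f_pp_202_s : ℕ → ℕ → ℕ → ℕ → Bool := onCell 0 536870912 0 536870912 740881858 40050571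
    (rowNE 3 eng mog cd0q2 cd5q0 pd2 0 true true true .pp 2 0 2 (qsf 0 536870912 0 536870912 2) ndB0q2 ndB5q0 pcB2 cut_pp_202_s Ext.none)

def k0_pp_202_s : ∃ t, chk3 f_pp_202_s t 1 1 1 = true :=
  ⟨(l 4), by decide +kernel⟩

theorem c_pp_202_s : CertNE 0 536870912 0 536870912 740881858 40050571 3 eng mog cd0q2 cd5q0 pd2 true true true .pp 2 0 2
    ndB0q2 ndB5q0 pcB2 cut_pp_202_s Ext.none :=
  certNE0 (fam := true) (s1 := true) (s2 := true) (a := 2) (b := 0) (c := 2) (cn := .pp) (n1 := ndB0q2) (n2 := ndB5q0) (pc := pcB2) (cut := cut_pp_202_s) (xt := Ext.none) (P1 := 0) (W1 := 536870912) (P2 := 0) (W2 := 536870912) (P3 := 740881858) (W3 := 40050571) (N0 := 3) (En := eng) (mo := mog) (C1 := cd0q2) (C2 := cd5q0) (C3 := pd2)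
    rfl k0_pp_202_s

noncomputable def cut_pp_203_s : Cut := Cut.of [[⟨4, 0, 0, 1449551462⟩]]

noncomputable def f_pp_203_s : ℕ → ℕ → ℕ → ℕ → Bool := onCell 0 536870912 0 536870912 740881858 40050571
    (rowNE 3 eng mog cd0q2 cd5q0 pd3 0 true true true .up 2 0 3 (qsf 0 536870912 0 536870912 3) ndB0q2 ndB5q0 pcB3 cut_pp_203_s Ext.none)

def k0_pp_203_s : ∃ t, chk3 f_pp_203_s t 1 1 1 = true :=
  ⟨(l 4), by decide +kernel⟩

theorem c_pp_203_s : CertNE 0 536870912 0 536870912 740881858 40050571 3 eng mog cd0q2 cd5q0 pd3 true true true .up 2 0 3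
    ndB0q2 ndB5q0 pcB3 cut_pp_203_s Ext.none :=
  certNE0 (fam := true) (s1 := true) (s2 := true) (a := 2) (b := 0) (c := 3) (cn := .up) (n1 := ndB0q2) (n2 := ndB5q0) (pc := pcB3) (cut := cut_pp_203_s) (xt := Ext.none) (P1 := 0) (W1 := 536870912) (P2 := 0) (W2 := 536870912) (P3 := 740881858) (W3 := 40050571) (N0 := 3) (En := eng) (mo := mog) (C1 := cd0q2) (C2 := cd5q0) (C3 := pd3)
    rfl k0_pp_203_s

noncomputable def cut_pp_213_s : Cut := Cut.of [[⟨4, 0, 0, 1449551462⟩]]

noncomputable def f_pp_213_s : ℕ → ℕ → ℕ → ℕ → Bool := onCell 0 536870912 536870912 536870912 740881858 40050571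
    (rowNE 3 eng mog cd0q2 cd5q1 pd3 0 true true true .pnn 2 1 3 (qsf 0 536870912 536870912 536870912 3) ndB0q2 ndB5q1 pcB3 cut_pp_213_s Ext.none)

def k0_pp_213_s : ∃ t, chk3 f_pp_213_s t 1 1 1 = true :=
  ⟨(l 4), by decide +kernel⟩

theorem c_pp_213_s : CertNE 0 536870912 536870912 536870912 740881858 40050571 3 eng mog cd0q2 cd5q1 pd3 true true true .pnn 2 1 3
    ndB0q2 ndB5q1 pcB3 cut_pp_213_s Ext.none :=
  certNE0 (fam := true) (s1 := true) (s2 := true) (a := 2) (b := 1) (c := 3) (cn := .pnn) (n1 := ndB0q2) (n2 := ndB5q1) (pc := pcB3) (cut := cut_pp_213_s) (xt := Ext.none) (P1 := 0) (W1 := 536870912) (P2 := 536870912) (W2 := 536870912) (P3 := 740881858) (W3 := 40050571) (N0 := 3) (En := eng) (mo := mog) (C1 := cd0q2) (C2 := cd5q1) (C3 := pd3)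
    rfl k0_pp_213_s

end Pool.Agent.Strip051.G.I69_7273.Tab.CS.BA05

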