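import Pool.Agent.Strip051.G.I69_7273.StH
import Pool.Agent.Strip051.G.I69_7273.StF

/-! # Unit strips 11 (generated) -/

set_option linter.all false
set_option maxRecDepth 100000

namespace Pool.Agent.Strip051.G.I69_7273.Tab.St.C

open Pool.Agent.Strip051.PB Pool.Agent.Strip051.PB.T Pool.Agent.StripNear Pool.Agent.Strip051.LC
open Pool.Agent.Strip051.G.I69_7273.Tab Pool.Agent.Strip051.G.I69_7273.Tab.St

noncomputable def cut_B00pm_011_s3 : Cut := Cut.of [[⟨3, 0, 0, 2845415833⟩], [⟨0, 0, 0, 67108864⟩, ⟨1, 1, 0, 67108864⟩, ⟨2, 1, 0, 67108864⟩]]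

noncomputable def xt_B00pm_011_s3 : Ext := strExt dd false true false .u0 .u0m .s0m .pnn 0 1 1 rfl rfl gl1 vv ndB0q0 ndB0q1

noncomputable def f_B00pm_011_s3 : ℕ → ℕ → ℕ → ℕ → Bool := onCell 536870912 536870912 536870912 536870912 740881858 40050571
    (rowF 2 false true false .pnn 0 1 1 (qsf 0 536870912 536870912 536870912 1) ndB0q0 ndB0q1 pcB1 cut_B00pm_011_s3 xt_B00pm_011_s3)

def k0_B00pm_011_s3 : ∃ t, chk3 f_B00pm_011_s3 t 1 2 1 = true :=
  ⟨(l 4), by decide +kernel⟩

def k1_B00pm_011_s3 : ∃ t, chk3 f_B00pm_011_s3 t 2 6 1 = true :=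
  ⟨(b (a (a (b (l 4) (a (b (l 4) (a (l 531703567) (l 4))) (l 4))) (l 4)) (l 4)) (a (a (b (a (b (a (l 532599823) (b (l 531842063) (l 531886863))) (a (b (l 532128783) (a (l 16712928) (l 16721208))) (b (l 531931407) (l 531978767)))) (b (a (b (l 4) (l 531711503)) (l 4)) (a (b (l 531756303) (a (l 531847439) (l 531766543))) (b (a (l 531639567) (l 531838479)) (l 531662607))))) (a (b (a (b (a (l 16669240) (l 16677296)) (l 16650624)) (b (l 532044047) (c (l 16709120) (l 16708360)))) (a (b (l 16628088) (l 16605704)) (b (l 16685928) (l 16621592)))) (b (a (b (l 531877391) (l 531958543)) (b (a (l 531769615) (l 531706127)) (l 532091151))) (a (b (l 16702552) (l 16679640)) (b (l 16720232) (l 16696656)))))) (a (b (b (l 4) (b (a (a (c (l 531469839) (l 531560719)) (l 4)) (l 4)) (a (a (c (l 531517455) (l 532409359)) (l 531543567)) (l 531513871)))) (b (b (a (a (l 532188943) (l 531621903)) (l 531853071)) (a (a (l 531740943) (l 531697423)) (a (l 531669007) (l 531647247)))) (a (b (l 533146895)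 (l 16683592)) (a (b (l 531746831) (l 16687640)) (b (l 532256527) (l 16708088)))))) (b (l 4) (b (a (c (b (l 531526415) (l 531599887)) (b (l 531566607) (l 531635215))) (b (l 4) (l 531577359))) (b (c (a (l 531941903) (l 531910159)) (a (l 531704079) (l 531656975))) (a (a (l 531773711) (l 531753743)) (a (l 531733775) (l 531713295)))))))) (a (b (l 4) (b (l 4) (a (a (c (l 531640079) (l 531640335)) (b (l 4) (l 531633679))) (a (b (l 4) (b (l 4) (a (c (l 531629839) (l 531609103)) (l 4)))) (l 4))))) (l 4)))), by decide +kernel⟩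

def k2_B00pm_011_s3 : ∃ t, chk3 f_B00pm_011_s3 t 4 7 1 = true :=
  ⟨(b (a (b (b (a (a (l 16656120) (l 16671856)) (a (c (l 16688368) (l 16686632)) (a (l 16657872) (l 16666272)))) (a (a (l 16610768) (l 16626128)) (a (l 16557776) (c (l 16658432) (l 16656104))))) (b (a (a (l 6) (l 16495432)) (a (l 16510544) (l 16609872))) (a (l 6) (l 6)))) (a (b (b (a (b (l 16691240) (l 16667576)) (b (a (l 16705304) (l 531879695)) (c (l 16685720) (l 16685848)))) (a (a (l 16669600) (l 16636056)) (b (a (l 16614928) (l 16624024)) (l 16636880)))) (b (a (b (l 16637744) (l 16529928)) (b (l 16570488) (l 16588040))) (a (l 16495496) (b (l 16522416) (l 16500240))))) (b (b (a (a (b (l 16688160) (l 531917839)) (b (l 531826703) (l 531889423))) (b (a (l 531806223) (l 531785743)) (a (l 531865103) (l 531842575)))) (a (b (a (l 16633344) (l 16653352)) (c (l 16655264) (l 16612592))) (a (b (l 531909135) (l 16648072)) (b (l 531882511) (l 531919631))))) (b (a (b (l 16608952) (a (l 16558704) (l 16567416))) (a (b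 (l 16601688) (l 16576352)) (b (l 16611024) (l 16585504)))) (a (c (l 16571200) (l 16567432)) (b (a (l 16551936) (l 16560840)) (l 16533184))))))) (a (l 6) (b (a (l 6) (b (b (a (l 16494960) (l 16511376)) (l 6)) (l 6))) (l 6)))), by decide +kernel⟩

def k3_B00pm_011_s3 : ∃ t, chk3 f_B00pm_011_s3 t 10 28 1 = true :=
  ⟨(a (b (b (a (a (l 531764495) (l 531742479)) (b (l 531690255) (l 531992335))) (a (a (l 531819279) (l 531794703)) (b (l 532014095) (l 532297999)))) (b (a (a (l 531856143) (l 531828239)) (a (l 531798287) (l 531765775))) (a (a (l 532158735) (l 531860239)) (a (l 531827983) (l 532061967))))) (b (a (b (a (b (l 531656463) (l 531687439)) (c (a (b (l 531651599) (l 531678479)) (b (c (l 531910671) (l 531627791)) (b (l 531663375) (l 531667471)))) (b (c (l 532158991) (l 531878415)) (l 532178959)))) (b (a (l 531703055) (c (l 531683855) (l 531648783))) (a (l 531713807) (l 531673871)))) (a (a (b (b (l 4) (a (l 531892751) (l 531616527))) (b (c (b (l 531912975) (l 531652367)) (l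 532141839)) (l 531638031))) (b (b (l 4) (l 531596559)) (b (b (l 531602447) (l 531606799)) (a (l 531619343) (l 531607823))))) (b (l 4) (c (a (b (l 531596047) (l 531609103)) (b (l 531569423) (l 531582735))) (a (b (l 531562255) (l 531567631)) (l 531539215)))))) (a (a (b (c (l 531750671) (l 531707407)) (l 531755535)) (b (c (l 531711503) (l 531663631)) (l 531981839))) (a (b (c (a (l 531678223) (l 531654159)) (l 531883023)) (c (l 531696911) (l 531636495))) (b (b (a (a (l 531604239) (l 531591695)) (l 531573007)) (a (l 531609871) (l 531585039))) (a (l 531631119) (l 531874831))))))), by decide +kernel⟩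

def k4_B00pm_011_s3 : ∃ t, chk3 f_B00pm_011_s3 t 10 29 1 = true :=
  ⟨(b (b (a (a (a (l 16641448) (l 532163855)) (a (l 531862287) (l 531826703))) (a (a (l 531788559) (l 531747087)) (a (l 531970319) (c (l 531689743) (l 531619343))))) (a (a (a (l 16594736) (l 16625040)) (a (c (l 16614368) (l 16612464)) (l 531867663))) (a (a (l 532098063) (c (l 531824399) (l 16661880))) (a (l 532014095) (c (l 531738383) (l 531660815)))))) (a (a (b (b (a (l 16575880) (l 16585088)) (l 16610344)) (l 16592704)) (b (a (c (l 16610240) (l 16586744)) (c (l 16619528) (l 16596024))) (a (l 16564256) (l 16594384)))) (a (b (a (l 531894543) (l 532124687)) (b (a (l 16609416) (l 16618536)) (c (l 16603664) (l 16579544)))) (b (a (c (l 16637072) (l 16624176)) (c (l 531813391) (l 16633680))) (b (c (l 16623296) (l 16610088)) (a (l 16615896) (c (l 16605456) (l 16602552)))))))), by decide +kernel⟩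

def k5_B00pm_011_s3 : ∃ t, chk3 f_B00pm_011_s3 t 11 28 1 = true :=
  ⟨(a (b (b (l 4) (a (a (c (a (l 531548943) (l 531522319)) (l 531500559)) (c (b (l 4) (l 531489807)) (l 531448591))) (l 4))) (a (b (b (a (a (l 531547919) (l 531522831)) (l 531483663)) (a (a (l 531560719) (l 531535887)) (l 531497743))) (a (b (a (l 531574799) (l 531550479)) (a (l 531590927) (l 531566607))) (b (c (l 531541519) (l 531486479)) (c (l 531561487) (l 531500303))))) (c (b (a (a (l 531474447) (l 531447311)) (b (l 4) (l 531683599))) (a (a (l 531513103) (l 531486991)) (a (l 531460367) (l 531432975)))) (a (b (l 531415567) (l 531443215)) (b (l 531360015) (l 531390479)))))) (b (l 4) (a (c (b (a (a (a (l 531369487) (l 4)) (l 4)) (l 4)) (a (a (l 531404559) (b (l 531364623) (l 531388175))) (a (b (l 531334159) (l 531358223)) (b (l 4) (l 531326991))))) (a (b (a (l 531316495) (l 4)) (l 531601679)) (b (l 4) (a (l 531288335) (l 531255567))))) (a (b (l 4) (b (l 4) (c (a (l 531294479) (l 531260687)) (l 531214351))))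 (l 4))))), by decide +kernel⟩

def k6_B00pm_011_s3 : ∃ t, chk3 f_B00pm_011_s3 t 11 58 1 = true :=
  ⟨(a (b (a (a (a (l 531618831) (l 531862799)) (a (c (l 531606031) (l 531535631)) (c (l 531581711) (l 531512591)))) (a (c (b (l 531533327) (l 531557135)) (l 531477007)) (c (l 531493135) (l 531427599)))) (b (a (a (l 531640335) (l 531592207)) (a (c (l 531582735) (l 531507727)) (l 531496207))) (a (a (l 531666703) (l 531887375)) (a (c (l 531611407) (l 16693696)) (l 531792399))))) (c (a (b (a (a (l 531453711) (l 531425807)) (a (l 531396623) (l 531366415))) (a (b (l 531481359) (l 531512847)) (b (l 531425295) (l 531458319)))) (b (a (b (a (l 531321615) (l 531288591)) (a (l 531350543) (l 531318031))) (b (a (l 531253775) (l 531217423)) (a (l 531283983) (l 531248399)))) (a (b (l 531364367) (a (l 531415311) (l 531384591))) (b (a (l 531315983) (l 531281167)) (a (l 531352335) (l 531318543)))))) (a (b (a (l 531373583) (l 531582991)) (a (l 531421967) (b (l 531353103) (l 531382287)))) (b (a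 (a (l 531267343) (l 531232783)) (b (l 531432975) (l 531191567))) (a (b (l 531290383) (l 531322127)) (b (l 531220751) (a (l 531273231) (l 531237903)))))))), by decide +kernel⟩

def k7_B00pm_011_s3 : ∃ t, chk3 f_B00pm_011_s3 t 11 59 1 = true :=
  ⟨(a (a (b (a (c (l 531770127) (l 16653768)) (c (l 531993615) (l 531641359))) (a (b (l 16625472) (l 16623728)) (c (l 16640440) (l 16627480)))) (b (b (a (l 531880719) (c (l 531607311) (l 16690120))) (a (l 531665935) (c (l 16673200) (l 16666232)))) (a (a (l 531770383) (l 531749391)) (a (l 531996943) (l 532110351))))) (a (a (b (b (l 531788047) (c (l 531619087) (l 16686792))) (b (c (l 16675368) (l 16663120)) (c (l 16662736) (l 16650256)))) (b (b (c (l 531509007) (l 531430927)) (c (l 531572495) (l 531493391))) (b (c (l 531642127) (l 531562767)) (c (l 531714575) (l 16670648))))) (a (b (b (c (l 531722767) (l 531375631)) (c (l 531522575) (l 531443727))) (c (b (l 531596815) (l 531673103)) (b (l 531518223) (l 531594767)))) (a (b (b (l 531369999)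 (l 531442703)) (b (l 531520783) (l 531600655))) (b (b (c (l 531380751) (l 531299599)) (l 531414799)) (b (l 531495695) (l 531577615))))))), by decide +kernel⟩

def k8_B00pm_011_s3 : ∃ t, chk3 f_B00pm_011_s3 t 10 15 1 = true :=
  ⟨(b (a (a (b (a (l 16555424) (l 16543040)) (l 6)) (b (b (a (l 16541656) (l 16550536)) (l 16566456)) (a (l 16531392) (l 16518808)))) (a (b (a (b (l 16559472) (l 16537600)) (b (l 16589384) (l 16546352))) (b (a (l 16516640) (l 16525200)) (l 16542232))) (b (c (b (a (l 16579048) (l 16588016)) (a (l 16556992) (l 16565712))) (b (a (l 16575632) (l 16584728)) (l 16578440))) (b (a (l 16533744) (l 16563248)) (c (l 16561320) (l 16514432)))))) (b (l 6) (l 6))), by decide +kernel⟩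

def k9_B00pm_011_s3 : ∃ t, chk3 f_B00pm_011_s3 t 22 60 1 = true :=
  ⟨(b (b (a (a (c (l 16602944) (l 16599968)) (a (l 16629328) (l 16633896))) (a (c (l 16631632) (l 16618496)) (l 16639776))) (a (c (l 16595808) (l 16592632)) (a (l 16608040) (c (b (l 16621576) (l 16615664)) (l 16637000))))) (c (a (a (l 16574464) (l 16583272)) (a (l 16592152) (l 16601112))) (a (l 16596248) (a (l 16588864) (l 16598040))))), by decide +kernel⟩

def k10_B00pm_011_s3 : ∃ t, chk3 f_B00pm_011_s3 t 23 60 4 = true :=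
  ⟨(c (c (b (a (a (b (l 16640928) (l 16639408)) (b (l 16650384) (l 16648680))) (a (b (l 16659944) (l 16647656)) (b (l 16674808) (l 16657128)))) (a (a (l 16611424) (b (b (l 16629384) (l 16623432)) (l 16614680))) (b (a (b (l 16638544) (l 16632712)) (b (l 16647960) (a (l 16639584) (l 16644184)))) (a (l 16623776) (a (l 16630648) (l 16635312)))))) (b (a (a (b (l 16640632) (l 16639088)) (b (l 16650120) (l 16637896))) (a (b (l 16659704) (l 16647384)) (b (l 16674592) (l 16656880)))) (a (a (l 16611064) (b (l 16636632) (l 16614328))) (b (a (b (l 16638256) (l 16632408)) (b (l 16647696) (a (l 16639296) (l 16643912)))) (a (l 16623448) (l 16643192)))))) (c (b (a (b (a (l 16640344) (l 16649856)) (a (l 16638768) (l 16637600))) (a (b (l 16659464) (l 16647120)) (b (l 16679616) (l 16656640)))) (a (a (l 16610696) (b (l 16636312) (l 16613968))) (b (a (b (l 16637960) (l 16632104)) (b (l 16647432) (l 16651792))) (a (l 16623120) (l 16642896))))) (b (a (a (b (l 16640056) (l 16648944)) (b (l 16649592)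 (l 16637312))) (a (b (l 16659224) (l 16646856)) (b (l 16679392) (l 16656392)))) (a (a (l 16610336) (b (l 16636000) (l 16613616))) (b (a (b (l 16637672) (l 16631808)) (b (l 16647168) (l 16651512))) (a (l 16622792) (l 16642600))))))), by decide +kernel⟩

def k11_B00pm_011_s3 : ∃ t, chk3 f_B00pm_011_s3 t 23 60 5 = true :=
  ⟨(c (a (b (a (b (l 16639632) (l 16648472)) (b (l 16649200) (l 16636880))) (a (l 16609800) (b (l 16635528) (l 16613096)))) (b (a (b (l 16658872) (l 16646464)) (b (l 16679072) (l 16656040))) (b (a (b (l 16637248) (l 16631368)) (b (l 16646784) (l 16651104))) (a (l 16622312) (l 16642160))))) (c (b (a (a (b (l 16639208) (l 16627032)) (b (l 16648816) (l 16636448))) (a (l 531761423) (l 531721743))) (a (a (l 16609264) (b (l 16624576) (l 16612576))) (b (a (b (l 16636832) (l 16630928)) (b (l 16646400) (l 16640216))) (a (l 16621832) (l 16631248))))) (a (b (a (b (l 16638928) (l 16626720)) (b (l 16648568) (l 16636168))) (a (l 16608904) (b (l 16624264) (l 16612232))))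 (b (a (l 531751695) (l 531712015)) (b (a (b (l 16636552) (l 16630640)) (b (l 16646152) (l 16639952))) (a (l 16621520) (l 16630968))))))), by decide +kernel⟩

def k12_B00pm_011_s3 : ∃ t, chk3 f_B00pm_011_s3 t 23 60 3 = true :=
  ⟨(c (c (a (b (a (b (l 16638512) (l 16626264)) (b (l 16648192) (l 16635752))) (b (a (l 16614312) (l 16623808)) (l 16607096))) (b (a (l 531737103) (l 531697935)) (b (a (b (l 16636144) (l 16630216)) (b (l 16645784) (l 16639568))) (a (l 16621056) (l 16630544))))) (c (b (a (a (b (l 16638096) (l 16625808)) (b (l 16647824) (l 16635336))) (a (l 531723023) (l 531683855))) (a (b (a (l 16613808) (l 16623360)) (l 16606560)) (b (a (b (l 16635744) (l 16629800)) (b (l 16645432) (l 16639184))) (a (l 16620592) (l 16630136))))) (c (b (a (b (l 16653248) (a (l 16625576) (l 16635128))) (a (l 531715855) (l 531676943))) (a (b (a (l 16613560) (l 16623136)) (l 16606296)) (b (a (b (l 16635544) (l 16629592)) (b (l 16645248) (l 16639000))) (a (l 16620368) (l 16629928))))) (a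 (b (b (l 16653120) (a (l 16625424) (l 16634992))) (b (a (l 16613392) (l 16622984)) (l 16606120))) (b (a (l 531711247) (l 531672335)) (b (a (b (l 16635416) (l 16629456)) (b (l 16645136) (l 16638872))) (a (l 16620216) (l 16629800)))))))) (b (a (a (b (l 16637152) (l 16624752)) (b (l 16646984) (l 16634392))) (a (l 531690767) (l 531652367))) (a (b (a (l 16612648) (l 16622320)) (l 16605328)) (b (a (b (l 16634832) (l 16628848)) (b (l 16644616) (l 16638328))) (a (l 16619544) (l 16629200)))))), by decide +kernel⟩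

def k13_B00pm_011_s3 : ∃ t, chk3 f_B00pm_011_s3 t 11 61 1 = true :=
  ⟨(a (a (a (b (c (l 16552864) (l 16548680)) (l 16529472)) (b (l 16569888) (l 16558752))) (b (c (a (l 16569944) (l 16578592)) (a (l 16566128) (l 16574984))) (c (a (l 16548256) (l 16556576)) (l 16569112)))) (a (c (b (a (l 16587312) (l 16606616)) (a (l 16564968) (l 16573440))) (b (a (l 16583928) (l 16592984)) (a (l 16561040) (l 16569744)))) (b (b (a (l 16619960) (c (l 16619992) (l 16617472))) (a (l 16618720) (c (l 16608232) (l 16605448)))) (c (a (l 16582000) (l 16601152)) (a (l 16578552) (l 16587464)))))), by decide +kernel⟩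

def k14_B00pm_011_s3 : ∃ t, chk3 f_B00pm_011_s3 t 11 31 1 = true :=
  ⟨(a (b (b (a (a (l 16508312) (l 16516368)) (a (a (l 16522400) (l 16526416)) (l 16542960))) (a (l 6) (b (c (l 16514792) (l 16509496)) (l 6)))) (l 6)) (b (a (b (c (a (l 16542856) (l 16550968)) (l 16563472)) (a (b (l 16523984) (l 16512960)) (b (l 16531928) (l 16520688)))) (c (b (a (l 16559168) (l 16567456)) (b (l 16546176) (a (l 16530888) (l 16538680)))) (b (a (l 16555144) (l 16563680)) (b (l 16541824) (l 16530088))))) (b (a (b (c (l 16508600) (l 16503120)) (l 6)) (c (b (l 16523656) (l 16512632)) (b (l 16518688) (l 16507336)))) (l 6)))), by decide +kernel⟩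

def k15_B00pm_011_s3 : ∃ t, chk3 f_B00pm_011_s3 t 3 6 1 = true :=
  ⟨(l 4), by decide +kernel⟩

def k16_B00pm_011_s3 : ∃ t, chk3 f_B00pm_011_s3 t 6 28 1 = true :=
  ⟨(l 4), by decide +kernel⟩

def k17_B00pm_011_s3 : ∃ t, chk3 f_B00pm_011_s3 t 24 58 1 = true :=
  ⟨(a (c (b (b (l 4) (a (a (l 531211023) (a (l 531182351) (b (l 4) (l 531171087)))) (a (b (l 4) (a (l 531150607) (l 531129871))) (l 4)))) (a (b (a (l 531244559) (b (l 531197967) (l 531215375))) (a (b (l 531271695) (l 531297551)) (b (l 531234063) (l 531261711)))) (b (a (a (b (l 531168015) (l 531185935)) (b (c (l 531171087) (l 531124495)) (l 531165455))) (b (l 531115023) (a (a (l 531149839) (l 531139343)) (l 531122959)))) (a (b (a (l 531204879) (l 531184911)) (l 531224591)) (b (a (l 531298319) (b (l 531137295) (l 531149839))) (a (l 531196431) (l 531177487))))))) (b (b (l 4) (a (a (l 531133711) (a (l 531102991) (l 531081487))) (a (a (l 531059471) (l 531036687)) (l 4)))) (a (b (b (l 531135759) (l 531151631)) (b (l 531437327)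 (l 531194895))) (b (a (a (l 531091727) (b (l 531061519) (l 531078159))) (b (l 531026447) (a (l 531055631) (l 531032335)))) (a (b (l 531107087) (l 531137039)) (b (a (l 531074319) (l 531051791)) (a (l 531106831) (l 531086351)))))))) (b (l 4) (b (b (l 4) (a (a (a (l 531052815) (l 531029263)) (a (b (l 4) (a (l 531016207) (l 4))) (l 4))) (l 4))) (a (a (b (b (c (l 531104783) (l 531010575)) (c (l 531118095) (l 531023887))) (a (c (l 531158543) (l 531066127)) (l 531091471))) (b (a (b (l 531020303) (l 531037711)) (a (b (l 531271183) (l 531021839)) (b (l 530988559) (l 531019791)))) (a (l 531074063) (a (l 531063311) (l 531055375))))) (a (a (b (l 530983183) (a (b (l 531033615) (l 531062031)) (l 531035663))) (l 530987279)) (l 530949647)))))), by decide +kernel⟩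

def k18_B00pm_011_s3 : ∃ t, chk3 f_B00pm_011_s3 t 24 59 1 = true :=
  ⟨(a (b (a (b (a (c (l 531349007) (l 531266319)) (b (l 531521807) (l 531293455))) (a (c (l 531428111) (l 531346703)) (c (l 531399439) (l 531316495)))) (c (b (a (b (l 531263247) (l 531305231)) (b (a (l 531237647) (l 531220495)) (l 531273231))) (a (c (l 531393295) (l 531347983)) (b (l 531318799) (l 531364367)))) (b (a (l 531196943) (b (l 531139343) (l 531185167))) (a (l 531285775) (l 531255055))))) (a (b (c (a (l 531511055) (l 531484943)) (a (l 531430927) (l 531403791))) (c (a (l 531594255) (l 531570191)) (l 531502607))) (a (b (c (l 531458319) (l 531376143)) (c (l 531545615) (l 531465231))) (b (c (l 531431951) (l 531348239)) (c (l 531520783) (l 531439375)))))) (b (a (b (a (a (b (l 531424783) (l 531203855)) (b (l 531408143) (l 531188495))) (a (b (l 531124239) (l 531174159)) (l 531404047))) (a (c (a (l 531320335) (l 531306767)) (l 531493391)) (a (c (l 531293711) (l 531204111)) (b (l 531210511) (l 531258895)))))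 (a (b (a (b (l 531632143) (l 531147279)) (b (l 531610639) (l 531130127))) (a (b (l 531196943) (l 531245839)) (l 531206159))) (b (b (l 531037199) (a (l 531106319) (l 531083023))) (a (b (l 531163151) (l 531214351)) (b (l 531139855) (l 531194895)))))) (a (a (a (b (l 531368719) (l 531459599)) (b (l 531355407) (l 531447055))) (a (b (l 531342351) (l 531434255)) (b (l 531330063) (l 531421967)))) (b (a (a (l 531317007) (l 531571471)) (a (l 531287567) (l 531270415))) (a (c (l 531715343) (l 531360783)) (a (l 531381263) (l 531365647))))))), by decide +kernel⟩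

def k19_B00pm_011_s3 : ∃ t, chk3 f_B00pm_011_s3 t 25 29 1 = true :=
  ⟨(b (l 4) (a (b (a (a (b (l 531016207) (a (l 531142927) (l 531118095))) (b (l 530968079) (l 531080463))) (a (b (l 530921231) (l 531032591)) (b (l 4) (l 530986255)))) (a (a (b (a (l 531251215) (l 531228687)) (a (l 531348751) (l 531330319))) (b (l 531191055) (a (l 531309839) (l 531286799)))) (b (a (l 531141903) (l 531094287)) (a (l 531249423) (l 531200527))))) (a (b (b (l 4) (a (l 530941711) (l 530899727))) (a (b (l 531048719) (l 531153423)) (b (l 531004943) (l 531108367)))) (b (l 4) (a (b (l 530963983) (l 531065871)) (b (l 530925583) (l 531025935))))))), by decide +kernel⟩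

def k20_B00pm_011_s3 : ∃ t, chk3 f_B00pm_011_s3 t 13 29 1 = true :=
  ⟨(a (b (l 4) (a (a (b (l 4) (b (l 4) (a (l 530989071) (l 530955535)))) (b (l 4) (a (b (l 4) (l 530925327)) (l 4)))) (l 4))) (l 4)), by decide +kernel⟩

def k21_B00pm_011_s3 : ∃ t, chk3 f_B00pm_011_s3 t 24 30 1 = true :=
  ⟨(b (b (b (a (a (a (l 531636495) (l 531613455)) (a (c (l 531630351) (l 531552015)) (c (l 531606799) (l 531527439)))) (a (a (c (l 531582735) (l 531502351)) (c (l 531558671) (l 531476751))) (a (c (l 531534351) (l 531450639)) (a (l 531470607) (l 531455759))))) (a (a (a (l 531717135) (l 531695375)) (a (l 531672847) (l 531918095))) (a (a (c (l 531666447) (l 531587599)) (c (l 531642639) (l 531562511))) (a (c (l 531618063) (l 531536655)) (c (l 531591951) (l 531508495)))))) (a (b (a (a (l 531794959) (l 531774223)) (a (l 531752463) (l 531729935))) (a (b (a (b (l 16642328) (l 16639344)) (a (l 16654784) (l 16646632))) (c (l 16638160) (l 16636056))) (b (c (l 16664000) (l 16651664)) (a (b (l 16656064)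 (l 16642496)) (c (b (l 16651160) (l 16648160)) (l 16658200)))))) (a (b (a (l 531974927) (c (l 531722767) (l 16678472))) (a (b (l 16659624) (c (l 16664696) (l 16652344))) (l 531759631))) (a (b (c (l 531698447) (l 16683328)) (l 532002831)) (b (c (l 531672591) (l 531590927)) (l 531976463)))))) (a (b (c (a (b (l 16639640) (l 16617248)) (b (a (l 16635992) (l 16640544)) (l 16636752))) (a (b (l 16626864) (l 16614696)) (b (l 16636152) (l 16623920)))) (a (c (b (l 16605384) (l 16593552)) (l 16606992)) (c (b (l 16614288) (l 16602296)) (b (l 16611704) (l 16599448))))) (b (b (a (b (a (c (l 16658680) (l 16646256)) (b (c (l 16654176) (l 16652304)) (l 16650192))) (c (l 16644304) (l 16642280))) (b (a (b (l 16657888) (c (l 16655664) (l 16653792))) (l 16660928)) (a (l 16650088) (b (c (l 16657128) (l 16655256)) (l 16653032))))) (a (c (l 16645704) (l 16633032)) (a (l 16651312) (l 16655776)))) (a (b (c (l 16623120) (l 16620712)) (c (l 16611032) (l 16608392))) (b (c (l 16642384) (l 16629624))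 (c (l 16619680) (l 16617192))))))), by decide +kernel⟩

def k22_B00pm_011_s3 : ∃ t, chk3 f_B00pm_011_s3 t 25 30 1 = true :=
  ⟨(b (a (a (b (a (b (a (l 531440143) (l 531423503)) (a (l 531526927) (l 531511055))) (b (a (l 531405583) (l 531386127)) (a (l 531494671) (l 531477007)))) (a (b (c (l 531644943) (l 531560975)) (c (l 16681400) (l 16679792))) (b (a (l 531578383) (l 531561999)) (c (l 16686128) (l 16684552))))) (b (a (b (a (l 531365135) (l 531341839)) (a (l 531458319) (l 531438351))) (b (l 531304463) (a (l 531417103) (l 531393551)))) (a (b (a (l 531544847) (l 531526671)) (l 531885327)) (b (l 531496975) (l 531849743))))) (b (a (a (b (l 531256079) (l 531356431)) (b (l 531209743) (l 531308559))) (a (b (l 531165711) (l 531263247)) (b (l 531124239) (l 531220239)))) (a (a (b (l 531721743) (l 531542287)) (b (l 531405327) (l 531498511))) (a (b (l 531358479) (l 531451407)) (b (l 531313935) (l 531405327)))))) (a (b (b (a (a (b (l 16665576) (b (l 16660696) (a (l 16656464) (l 16658688))))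 (b (l 16670232) (a (l 16662496) (l 16664872)))) (a (l 531693327) (l 531659791))) (a (a (l 16660240) (b (b (l 16669464) (l 16655776)) (l 16651080))) (b (a (b (l 16663376) (l 16660304)) (b (l 16668008) (l 16664696))) (a (l 16655504) (l 16659984))))) (a (b (c (l 16640624) (l 16638448)) (c (l 16628272) (l 16625888))) (b (a (l 16646064) (l 16650424)) (a (l 16633488) (l 16637760))))) (b (b (a (a (l 531623695) (l 531584271)) (a (l 531540751) (l 531494415))) (a (a (b (l 16670936) (b (l 16665984) (l 16662768))) (b (l 16675520) (b (l 16670472) (l 16667240)))) (a (b (l 16680112) (a (l 16672160) (l 16674512))) (l 531578383)))) (b (a (a (l 16654784) (l 16659144)) (b (a (b (l 16668456) (l 16665136)) (b (l 16672776) (l 16669616))) (l 16662448))) (a (a (l 16642032) (l 16646296)) (a (l 16650568) (l 16654832))))))), by decide +kernel⟩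

def k23_B00pm_011_s3 : ∃ t, chk3 f_B00pm_011_s3 t 12 31 1 = true :=
  ⟨(b (a (a (b (a (c (l 16586328) (l 16572320)) (b (l 16599232) (l 16587144))) (c (a (l 16562880) (l 16560504)) (a (l 16548272) (l 16556648)))) (b (a (c (b (l 16598952) (l 16586840)) (b (l 16596048) (l 16583672))) (b (c (l 16607472) (l 16604752)) (c (l 16595272) (l 16592296)))) (a (c (l 16579192) (l 16565104)) (b (l 16591888) (l 16589992))))) (a (b (a (b (c (l 16615920) (l 16613328)) (c (l 16603584) (l 16600760))) (b (c (l 16624304) (l 16621800)) (c (l 16611816) (l 16609096)))) (a (b (l 16600152) (l 16598160)) (b (c (l 16599328) (l 16596384)) (l 16595688)))) (b (a (b (a (l 16629296) (l 16633472)) (a (l 16616576) (l 16620656))) (b (a (l 16637640) (l 16641808)) (a (l 16624728) (l 16628792)))) (a (b (l 16611096) (l 16593088)) (b (c (l 16615264) (l 16612448)) (c (l 16602424) (l 16599400))))))) (a (b (a (b (c (a (l 16535184) (l 16542968)) (l 16555624)) (c (l 16527624) (l 16522856))) (b (a (c (l 16550808) (l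 16546752)) (b (l 16559712) (l 16553712))) (a (l 16536872) (l 16544768)))) (b (a (a (l 16510000) (l 16517528)) (a (l 16525136) (l 16532832))) (a (l 6) (c (a (l 16515968) (l 16523360)) (a (l 16510952) (l 16518616)))))) (a (b (b (a (b (l 16567784) (l 16561744)) (b (l 16575744) (l 16569560))) (a (l 16552648) (l 16560440))) (a (b (l 16540624) (c (l 16530872) (l 16526384))) (b (l 16548360) (b (l 16539272) (l 16533192))))) (b (b (a (b (l 16583512) (l 16577176)) (b (l 16591168) (c (l 16586368) (l 16583056)))) (a (l 16568032) (l 16575448))) (a (b (l 16555896) (a (l 16541880) (l 16545576))) (b (c (l 16565136) (l 16561448)) (c (l 16553032) (l 16549112)))))))), by decide +kernel⟩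

def k24_B00pm_011_s3 : ∃ t, chk3 f_B00pm_011_s3 t 26 30 1 = true :=
  ⟨(b (a (b (a (a (b (l 531085839) (l 531180303)) (b (l 531050767) (l 531143695))) (b (a (l 531019023) (l 530990863)) (a (l 531110159) (l 531080463)))) (a (a (b (l 531272463) (l 531362319)) (b (l 531234063) (l 531322127))) (a (b (l 531198991) (l 531285519)) (b (l 531167759) (l 531252495))))) (b (b (a (a (l 530956047) (c (l 530992143) (l 530840079))) (l 4)) (a (a (l 531043855) (l 531000847)) (a (a (l 530971407) (l 530952207)) (a (l 530933519) (l 530915855))))) (a (b (a (l 531129615) (l 531084815)) (a (l 531212559) (l 531166223))) (a (b (l 531042831) (l 531122447)) (b (c (l 531080975) (l 531198479)) (l 531081999)))))) (a (b (c (a (b (l 531485199) (l 531565583)) (b (l 531412495) (l 531489295))) (a (b (l 531371279) (l 531456271)) (b (l 531290127) (l 531371535)))) (b (b (a (a (b (l 16677376) (l 16673920)) (l 16680232)) (l 531483663)) (a (a (l 16669048) (b (l 16675072) (l 16671728))) (a (b (l 16679664) (l 16676256))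 (l 16693072)))) (a (a (l 16659120) (l 16663400)) (a (l 16667768) (b (b (l 16677480) (l 16673960)) (l 16668816)))))) (a (a (b (b (l 531293199) (l 531369487)) (b (l 531437327) (b (b (l 16681904) (l 16678552)) (l 16673224)))) (b (b (l 531245071) (l 531319311)) (b (l 531384847) (b (b (l 16686568) (l 16682880)) (l 16677704))))) (b (b (a (l 531199503) (l 531157263)) (a (l 531271951) (l 531227663))) (b (a (l 531335183) (l 531288335)) (b (c (l 16692864) (l 16701336)) (a (b (c (l 16685024) (l 16682872)) (l 16680368)) (b (l 16688680) (c (l 16686120) (l 16683952)))))))))), by decide +kernel⟩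

def k25_B00pm_011_s3 : ∃ t, chk3 f_B00pm_011_s3 t 27 60 1 = true :=
  ⟨(a (b (a (l 4) (l 4)) (a (a (b (c (l 531046927) (l 530892559)) (c (l 531121167) (l 530970639))) (b (c (l 531016463) (l 530858511)) (c (l 531088655) (l 530935055)))) (a (b (c (l 530989071) (l 530828559)) (c (l 531059727) (l 530903055))) (b (l 4) (c (l 531034383) (l 530874895)))))) (b (l 4) (b (l 4) (b (a (a (l 530915087) (l 4)) (l 4)) (a (a (l 530948879) (l 530929935)) (l 4)))))), by decide +kernel⟩

def k26_B00pm_011_s3 : ∃ t, chk3 f_B00pm_011_s3 t 27 61 1 = true :=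
  ⟨(b (a (a (b (a (l 531118095) (c (l 531158543) (l 531008527))) (a (l 531186447) (l 531148559))) (c (b (a (l 531127823) (l 531100687)) (a (l 531190031) (l 531160591))) (b (a (l 530974735) (l 530944783)) (a (l 531040527) (l 531008015))))) (b (b (a (a (l 530981903) (l 530961935)) (a (l 530946319) (l 4))) (a (a (l 531014159) (l 530993167)) (a (c (l 531058447) (l 530896655)) (a (l 530968335) (l 530963215))))) (a (a (c (l 531134735) (l 530979343)) (a (l 531039247) (l 531028495))) (b (a (l 531003407) (c (l 531069455) (l 530907151))) (a (l 531024143) (l 531274511)))))) (c (a (a (b (l 531561743) (a (l 16706848) (l 16701440))) (a (b (l 531241231) (l 16706536)) (b (l 531208719) (l 16722224)))) (a (b (a (l 531179791) (l 531153935)) (a (l 531221775) (l 531193359))) (a (b (l 531131407) (l 531168271)) (b (l 531111695) (l 531146511))))) (c (a (a (b (l 531454991) (a (l 16705328) (l 16700000))) (b (a (l 531130383) (l 531095567)) (a (l 16705160) (l 16720928)))) (a (b (a (l 531064591) (l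 531036943)) (a (l 531108367) (l 531078159))) (a (b (l 531012623) (l 531051279)) (b (l 530991631) (l 531028239))))) (a (a (b (a (l 16714608) (l 531099919)) (a (b (l 16697832) (l 16690080)) (l 16699080))) (a (b (l 531059983) (l 16709536)) (b (l 531023375) (l 531071759)))) (a (b (a (l 530990863) (l 530961679)) (a (l 531036175) (l 531004431))) (a (b (l 530936335) (l 530976271)) (b (a (l 530920719) (l 530910223)) (l 530951951)))))))), by decide +kernel⟩

def k27_B00pm_011_s3 : ∃ t, chk3 f_B00pm_011_s3 t 26 62 1 = true :=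
  ⟨(a (b (a (b (c (l 16649296) (l 16646896)) (c (l 16636224) (l 16633624))) (b (c (l 16657688) (l 16655280)) (a (l 16640992) (l 16645056)))) (a (b (c (l 16623160) (l 16620368)) (c (l 16610120) (l 16607120))) (b (c (l 16631064) (l 16628272)) (c (l 16617784) (l 16614784))))) (b (c (a (b (l 16666144) (l 16652448)) (b (l 16674872) (l 16660736))) (a (b (l 16668984) (l 16660320)) (b (a (l 16670264) (l 16674784)) (l 16668608)))) (a (b (c (l 16638832) (l 16636000)) (c (l 16625304) (l 16622264))) (b (c (l 16646736) (l 16643880)) (c (l 16632928) (l 16629856)))))), by decide +kernel⟩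

def k28_B00pm_011_s3 : ∃ t, chk3 f_B00pm_011_s3 t 27 62 1 = true :=
  ⟨(b (a (b (b (a (a (b (c (l 16687264) (l 16685072)) (l 16682408)) (c (b (l 16691960) (l 16688424)) (b (l 16689824) (l 16686224)))) (a (c (l 16705488) (b (l 16695000) (l 16701520))) (l 16699208))) (a (c (l 16680472) (l 16678128)) (a (c (l 16687768) (l 16685536)) (b (a (l 16692152) (l 16694616)) (l 16689648))))) (a (a (l 16666024) (l 16670608)) (c (l 16678976) (a (l 16674120) (l 16679000))))) (b (a (b (a (l 16709704) (l 531147279)) (a (b (l 16698592) (a (l 16698712) (l 16701200))) (c (l 16702848) (a (l 16699536) (l 16702304))))) (a (c (l 531205647) (l 531053327)) (c (l 531182351) (l 531027983)))) (a (a (c (l 16686336) (l 16684016)) (b (b (c (l 16697176) (b (l 16706464) (l 16694096))) (l 16692184)) (l 16686416))) (b (b (a (a (l 16705176) (l 16702696)) (l 16706776)) (a (c (l 16698576) (a (l 16695104) (l 16708280))) (a (a (l 16700736) (l 16702056)) (l 16704104)))) (a (l 16691600) (c (l 16708568) (a (l 16694504)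 (b (l 16699272) (l 16695224))))))))) (a (a (c (b (l 16655200) (l 16640928)) (b (l 16652384) (l 16637864))) (b (c (l 16664216) (l 16671976)) (c (l 16649552) (l 16646552)))) (c (a (b (l 16673744) (l 16658720)) (b (a (l 16681224) (l 16686352)) (l 16668416))) (b (a (a (l 16668696) (l 16673664)) (a (l 16678768) (l 16684000))) (a (l 16666328) (a (l 16663192) (l 16668256))))))), by decide +kernel⟩

def k29_B00pm_011_s3 : ∃ t, chk3 f_B00pm_011_s3 t 13 63 1 = true :=
  ⟨(a (b (b (a (a (c (l 16597024) (l 16593800)) (c (l 16604512) (l 16601304))) (a (c (l 16611880) (l 16608640)) (c (l 16619176) (l 16615896)))) (a (a (c (l 16584544) (l 16581128)) (c (l 16591752) (b (l 16591424) (l 16585088)))) (a (b (c (l 16601880) (l 16598496)) (l 16593792)) (b (c (l 16608928) (l 16605488)) (l 16600696))))) (a (a (b (c (l 16572288) (l 16568664)) (c (l 16560104) (l 16556264))) (b (c (l 16579328) (l 16575728)) (c (l 16567040) (b (l 16566368) (l 16560120))))) (a (b (c (l 16586264) (l 16582656)) (c (l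 16573864) (c (l 16570968) (l 16569176)))) (b (c (l 16593144) (l 16589496)) (c (l 16580600) (a (l 16575104) (l 16578440))))))) (b (b (c (a (a (l 16626792) (l 16635000)) (a (l 16643784) (l 16653136))) (a (a (l 16623488) (l 16631736)) (a (l 16640624) (l 16650120)))) (a (b (a (c (l 16616232) (l 16612752)) (l 16622400)) (a (l 16607848) (c (l 16617216) (l 16613656)))) (a (c (l 16639376) (b (l 16629288) (l 16621856))) (c (l 16637816) (b (l 16638496) (l 16630736)))))) (a (a (a (b (l 16596376) (l 16583640)) (b (l 16599840) (l 16586952))) (b (c (l 16607176) (l 16603448)) (c (l 16594112) (l 16590184)))) (a (b (l 16613104) (c (l 16601416) (l 16597480))) (c (l 16616392) (b (l 16619848) (l 16605552))))))), by decide +kernel⟩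

def k30_B00pm_011_s3 : ∃ t, chk3 f_B00pm_011_s3 t 7 14 1 = true :=
  ⟨(l 4), by decide +kernel⟩

def k31_B00pm_011_s3 : ∃ t, chk3 f_B00pm_011_s3 t 7 30 1 = true :=
  ⟨(a (b (l 4) (a (a (b (a (a (a (b (b (l 4) (c (l 531043087) (l 530878735))) (b (l 530977551) (l 530995471))) (b (l 4) (b (l 530978319) (l 530987535)))) (b (l 4) (a (l 531251215) (l 530982927)))) (b (l 4) (b (l 4) (a (c (l 531071759) (l 530908175)) (a (l 530991887) (l 4)))))) (a (a (a (b (l 531018767) (l 531053327)) (b (c (l 531094287) (l 530933007)) (l 531045135))) (a (b (b (l 531002639) (l 531015695)) (l 531038223)) (a (b (l 531007759) (l 531034895)) (b (l 531007503) (l 531032847))))) (c (a (b (a (l 531088655) (l 531089167)) (a (l 531112207) (l 531111951))) (b (a (l 531089935) (l 531090959)) (l 531379471))) (a (b (a (l 530926095) (l 530926607)) (a (l 531219727) (l 530950671))) (b (a (l 530927119) (l 530927631)) (a (l 530950927) (l 530951695))))))) (b (l 4) (b (b (a (a (a (l 531005711) (l 4)) (l 4)) (l 4))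 (a (a (a (l 531017231) (l 531018511)) (a (l 531020047) (l 531021839))) (l 4))) (b (a (a (c (l 531109391) (l 530946831)) (a (l 531031567) (l 531033359))) (a (a (l 531035151) (l 531037199)) (a (l 531039503) (l 4)))) (a (a (c (l 531120655) (l 530958863)) (a (l 531043087) (l 531044623))) (a (a (l 531046671) (l 531048719)) (a (l 531051023) (l 531053583)))))))) (a (a (b (l 4) (a (b (l 4) (b (l 4) (a (l 531056143) (l 531058959)))) (l 4))) (l 4)) (l 4)))) (l 4)), by decide +kernel⟩

def k32_B00pm_011_s3 : ∃ t, chk3 f_B00pm_011_s3 t 28 124 1 = true :=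
  ⟨(a (b (a (a (a (l 531088911) (l 531079695)) (a (l 531071759) (l 531065103))) (a (a (l 531059727) (l 531056143)) (c (a (l 531135503) (l 531135759)) (a (l 530975503) (l 530975503))))) (a (a (b (l 531111183) (a (b (b (l 16703856) (l 16701968)) (l 16698960)) (b (c (l 16706560) (l 16704632)) (l 16701728)))) (b (l 531093775) (b (l 16709824) (a (b (l 16705400) (l 16703432)) (b (l 16708200) (l 16711448)))))) (b (a (c (l 16722272) (l 531002895)) (c (l 16727912) (l 530995215))) (c (a (l 16719472) (l 16719904)) (a (a (l 16711080) (l 16713992)) (l 531010063)))))) (a (c (a (b (l 531404047) (b (l 531154191) (l 16725568))) (b (a (l 531139855) (l 531141391)) (l 531429391))) (a (b (a (l 530976271) (l 530977551)) (a (l 531000591) (l 531001103))) (b (a (l 530978575) (l 530980111)) (a (l 531002383) (l 531003663))))) (a (b (a (c (l 531143439) (l 530981647)) (b (l 531060239) (l 531071503))) (a (l 531353359) (c (l 531167759) (l 531007247)))) (c (b (a (l 531147791) (l 531150095)) (a (l 531170063)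 (l 531172367))) (b (a (l 530985487) (l 531256079)) (a (l 531009039) (l 531011343))))))), by decide +kernel⟩

def k33_B00pm_011_s3 : ∃ t, chk3 f_B00pm_011_s3 t 28 125 1 = true :=
  ⟨(a (b (a (c (a (l 16691592) (l 16696928)) (a (l 16699824) (c (l 16695320) (l 16704768)))) (b (a (b (a (b (l 16707008) (l 16704976)) (b (l 16709728) (l 16707816))) (l 16703360)) (a (b (c (l 16712424) (l 16710632)) (l 16707616)) (b (l 16714440) (b (l 16716624) (l 16709392))))) (c (l 16711640) (a (l 16696320) (l 16701944))))) (a (c (l 16699576) (a (l 16673448) (l 16678760))) (c (a (l 16686544) (l 16691960)) (a (l 16684192) (l 16700216))))) (a (b (b (c (a (b (l 16719544) (a (l 16714064) (l 16716904))) (l 16723224)) (a (b (l 16717944) (a (b (l 16713400) (l 16711352)) (l 16715224))) (l 531020303))) (b (b (a (c (l 16712584) (a (l 16709288) (l 16712216))) (c (l 16718128) (l 16721720))) (a (l 16709592) (a (l 16713936) (l 16716728)))) (a (l 16706544) (c (l 16713224) (l 16716712))))) (a (b (l 16710944)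 (l 16692352)) (b (a (l 16704720) (l 16707584)) (l 16697992)))) (b (b (a (c (l 16728928) (l 531023631)) (c (l 16739856) (l 531027727))) (b (a (l 531111951) (l 531116559)) (a (a (b (l 16717600) (l 16715600)) (b (l 16720512) (l 16723720))) (c (l 16724520) (l 16723040))))) (b (a (c (l 16712792) (l 16711032)) (b (a (b (l 16724592) (l 16717272)) (b (l 16722160) (l 16720216))) (l 16715640))) (c (l 16718016) (a (l 16702752) (l 16708584))))))), by decide +kernel⟩

def k34_B00pm_011_s3 : ∃ t, chk3 f_B00pm_011_s3 t 29 124 1 = true :=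
  ⟨(a (b (b (a (a (a (l 531067663) (l 531070479)) (a (l 531073551) (l 531076879))) (a (a (l 531080207) (l 4)) (l 4))) (a (a (a (l 531078927) (l 531081743)) (a (l 531084815) (l 531088143))) (a (a (l 531091727) (l 531095311)) (a (l 531099151) (l 531103247))))) (a (a (a (b (l 531090191) (l 531101711)) (b (l 531093263) (l 531104527))) (a (b (l 531096335) (l 531107599)) (b (l 531099663) (l 531110927)))) (a (b (a (l 531102991) (l 531106575)) (a (l 531114255) (l 531118095))) (a (b (l 531110415) (l 531121935)) (b (l 531114511) (l 531126031)))))) (a (c (c (c (b (l 4) (a (a (l 531532047) (l 532072975)) (b (l 4) (a (l 531281423) (l 531286287))))) (b (l 4) (b (a (a (l 531220751) (l 531225103)) (l 4)) (a (l 532035855) (a (l 531240975) (l 531245839)))))) (c (b (l 4) (b (a (a (l 531180047) (l 531184399)) (l 4)) (a (a (l 531191311) (l 531195663)) (a (l 531200271) (l 531205135))))) (b (l 4) (b (a (a (l 531139343) (l 531143695)) (l 4)) (a (a (l 531150607) (l 531154959)) (a (l 531159567)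 (l 531164431))))))) (c (c (b (l 4) (b (a (a (l 531098383) (l 531102735)) (l 4)) (a (a (l 531109647) (l 531114255)) (a (l 531118863) (l 531123471))))) (b (l 4) (b (a (a (l 531057423) (l 531061519)) (l 4)) (a (a (l 531068943) (l 531073295)) (a (l 531077647) (l 531082511)))))) (c (b (l 4) (b (a (a (l 531016207) (l 531020303)) (l 4)) (a (a (l 531027983) (l 531032079)) (a (l 531036687) (l 531041295))))) (b (l 4) (b (a (a (l 530974991) (l 530979087)) (l 4)) (a (a (l 530987023) (l 530991119)) (a (l 530995215) (l 530999823)))))))) (b (l 4) (a (a (b (l 4) (l 531149071)) (l 4)) (l 4))))), by decide +kernel⟩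

def k35_B00pm_011_s3 : ∃ t, chk3 f_B00pm_011_s3 t 58 125 1 = true :=
  ⟨(a (a (a (b (b (l 531112975) (l 16735432)) (b (b (c (l 16724744) (l 16723256)) (l 16720040)) (l 16713824))) (b (b (l 531115791) (l 531127055)) (b (b (l 16726960) (b (l 16723872) (l 16721872))) (l 16716712)))) (b (a (b (l 531118863) (l 531130127)) (b (l 531122191) (l 531133455))) (b (b (l 531139087) (a (b (l 16726776) (l 16724736)) (l 16728600))) (a (l 16719600) (b (b (l 16725600) (l 16723520)) (l 16720440)))))) (c (a (b (a (l 531209999) (l 531213583)) (b (l 16735568) (b (b (l 16730488) (l 16733776)) (l 16725568)))) (b (a (l 531217423) (l 531221263)) (b (l 531235855) (b (l 16735200) (b (l 16732128) (l 16735464)))))) (a (b (a (b (l 531044879) (l 16741168)) (b (l 531048463) (l 16746688))) (b (c (l 16734680) (l 16736704)) (b (a (b (l 16727720) (l 16725752)) (l 16729568)) (l 16729376)))) (b (a (b (l 531052047) (l 16749576)) (b (l 531055887) (l 531067663))) (b (a (l 16738728) (l 16741624)) (b (l 16734000)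 (a (b (l 16729432) (l 16727416)) (b (l 16732360) (l 16730296))))))))), by decide +kernel⟩

def k36_B00pm_011_s3 : ∃ t, chk3 f_B00pm_011_s3 t 59 125 1 = true :=
  ⟨(b (a (a (a (b (l 531141391) (l 531152655)) (b (l 531145999) (l 531157263))) (a (b (l 531150607) (l 531161871)) (b (l 531155471) (l 531166735)))) (a (a (b (l 531160591) (l 531171855)) (b (l 531165711) (l 531176975))) (a (b (l 531171087) (l 531182607)) (b (a (l 531176975) (l 531179791)) (l 531187983))))) (c (c (a (b (a (l 16752288) (l 531293455)) (a (l 16744296) (l 16749920))) (a (a (l 531575055) (l 532117007)) (a (b (l 531314959) (l 16754368)) (b (l 531320847) (l 16762360))))) (a (a (a (b (l 16745200) (l 16737104)) (l 531212047)) (a (l 531216655) (l 532026639))) (a (a (b (l 531223567) (l 16748432)) (b (l 531228943) (l 16751240))) (a (b (l 531234575) (l 16754032)) (b (l 531240207) (l 531251471)))))) (a (a (b (a (l 16744512) (l 16750016)) (a (l 16736248) (l 16739176))) (a (b (l 531091983) (l 16742056)) (b (l 531096591)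 (l 16744936)))) (a (a (b (l 531101711) (l 531113231)) (b (l 531106831) (l 531118351))) (a (b (l 531111951) (l 531123727)) (b (l 531117583) (l 531129103))))))), by decide +kernel⟩

def k37_B00pm_011_s3 : ∃ t, chk3 f_B00pm_011_s3 t 28 63 1 = true :=
  ⟨(b (a (b (a (c (l 16663008) (l 16670664)) (a (l 16690352) (l 16685216))) (a (a (l 16643336) (l 16648344)) (c (l 16657536) (l 16675568)))) (b (c (a (l 16694640) (a (l 16692504) (l 16698168))) (a (a (l 16678992) (l 16684608)) (a (l 16700808) (l 16706608)))) (a (a (l 16664000) (l 16679928)) (c (l 16689528) (a (l 16673760) (l 16679464)))))) (b (a (a (c (l 16632568) (l 16629128)) (c (l 16642256) (b (l 16642744) (l 16635048)))) (b (a (c (l 16656112) (l 16653168)) (a (l 16662672) (l 16668216))) (a (l 16646856) (l 16657536)))) (a (a (l 16616136) (c (l 16627280) (l 16623688))) (a (c (l 16637064) (l 16633672)) (c (l 16647376) (l 16644216)))))), by decide +kernel⟩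

def k38_B00pm_011_s3 : ∃ t, chk3 f_B00pm_011_s3 t 29 63 1 = true :=
  ⟨(b (a (b (b (a (a (l 16707040) (l 16718064)) (a (l 16723840) (c (l 16725088) (l 16723656)))) (a (a (l 16698784) (l 16704568)) (a (l 16710360) (l 16721384)))) (c (a (a (l 16687504) (l 16693208)) (a (l 16698936) (l 16704664))) (a (a (l 16685264) (l 16691104)) (a (l 16696976) (l 16708080))))) (b (a (b (b (c (a (b (l 16739032) (l 16731872)) (l 16743608)) (a (a (b (l 16731160) (l 16729064)) (b (l 16733984) (l 16732016))) (a (l 16735816) (l 16738776)))) (a (l 16728080) (a (l 16732456) (b (l 16736248) (l 16734264))))) (a (l 16727160) (c (l 16728336) (l 16727008)))) (a (b (a (b (l 16742160) (c (l 16738600) (l 16742728))) (c (l 16743424) (l 16747680))) (a (l 16731976) (b (b (l 16737928) (l 16735864)) (l 16732800)))) (a (b (l 531216399) (b (a (l 16744264) (l 16740392)) (l 16735656))) (b (l 531222031) (b (c (l 16742984) (l 16741984)) (l 16738568)))))) (b (a (a (l 16713672) (l 16719456)) (a (l 16730464) (c (l 16731576)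 (l 16730352)))) (a (a (l 16705416) (l 16711216)) (a (l 16717016) (l 16722792)))))) (a (b (c (a (b (l 16677984) (l 16670072)) (b (l 16689488) (l 16681376))) (a (b (a (l 16672664) (l 16678552)) (l 16667480)) (b (l 16687352) (b (l 16681080) (l 16676952))))) (a (a (l 16653912) (l 16659472)) (c (l 16669312) (b (l 16670816) (l 16662608))))) (b (a (a (b (l 16697136) (l 16688888)) (b (l 16702960) (l 16699920))) (a (b (l 16708784) (c (l 16701384) (l 16699600))) (b (l 16714600) (c (l 16707152) (l 16705512))))) (a (a (l 16676632) (l 16682408)) (c (l 16692128) (b (l 16694296) (l 16685952))))))), by decide +kernel⟩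

def k39_B00pm_011_s3 : ∃ t, chk3 f_B00pm_011_s3 t 15 31 1 = true :=
  ⟨(b (a (b (l 4) (a (a (a (a (b (b (l 4) (a (l 531194127) (l 14))) (b (l 531205391) (l 531216655))) (l 14)) (l 14)) (l 14)) (l 14))) (l 4)) (a (a (a (a (a (a (b (b (b (l 16755968) (b (l 16744672) (l 16745920))) (l 16735688)) (b (l 16719296) (l 16697640))) (l 14)) (l 14)) (l 14)) (l 14)) (l 14)) (l 14))), by decide +kernel⟩

theorem t40_B00pm_011_s3 : ∃ t, chk3 f_B00pm_011_s3 t 14 63 1 = true := ex3_a k37_B00pm_011_s3 k38_B00pm_011_s3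

theorem t41_B00pm_011_s3 : ∃ t, chk3 f_B00pm_011_s3 t 29 125 1 = true := ex3_a k35_B00pm_011_s3 k36_B00pm_011_s3

theorem t42_B00pm_011_s3 : ∃ t, chk3 f_B00pm_011_s3 t 29 62 1 = true := ex3_b k34_B00pm_011_s3 t41_B00pm_011_s3

theorem t43_B00pm_011_s3 : ∃ t, chk3 f_B00pm_011_s3 t 28 62 1 = true := ex3_b k32_B00pm_011_s3 k33_B00pm_011_s3

theorem t44_B00pm_011_s3 : ∃ t, chk3 f_B00pm_011_s3 t 14 62 1 = true := ex3_a t43_B00pm_011_s3 t42_B00pm_011_s3

theorem t45_B00pm_011_s3 : ∃ t, chk3 f_B00pm_011_s3 t 14 31 1 = true := ex3_b t44_B00pm_011_s3 t40_B00pm_011_s3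

theorem t46_B00pm_011_s3 : ∃ t, chk3 f_B00pm_011_s3 t 7 31 1 = true := ex3_a t45_B00pm_011_s3 k39_B00pm_011_s3

theorem t47_B00pm_011_s3 : ∃ t, chk3 f_B00pm_011_s3 t 7 15 1 = true := ex3_b k31_B00pm_011_s3 t46_B00pm_011_s3

theorem t48_B00pm_011_s3 : ∃ t, chk3 f_B00pm_011_s3 t 7 7 1 = true := ex3_b k30_B00pm_011_s3 t47_B00pm_011_s3

theorem t49_B00pm_011_s3 : ∃ t, chk3 f_B00pm_011_s3 t 13 62 1 = true := ex3_a k27_B00pm_011_s3 k28_B00pm_011_s3

theorem t50_B00pm_011_s3 : ∃ t, chk3 f_B00pm_011_s3 t 13 31 1 = true := ex3_b t49_B00pm_011_s3 k29_B00pm_011_s3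

theorem t51_B00pm_011_s3 : ∃ t, chk3 f_B00pm_011_s3 t 27 30 1 = true := ex3_b k25_B00pm_011_s3 k26_B00pm_011_s3

theorem t52_B00pm_011_s3 : ∃ t, chk3 f_B00pm_011_s3 t 13 30 1 = true := ex3_a k24_B00pm_011_s3 t51_B00pm_011_s3

theorem t53_B00pm_011_s3 : ∃ t, chk3 f_B00pm_011_s3 t 13 15 1 = true := ex3_b t52_B00pm_011_s3 t50_B00pm_011_s3

theorem t54_B00pm_011_s3 : ∃ t, chk3 f_B00pm_011_s3 t 12 30 1 = true := ex3_a k21_B00pm_011_s3 k22_B00pm_011_s3

theorem t55_B00pm_011_s3 : ∃ t, chk3 f_B00pm_011_s3 t 12 15 1 = true := ex3_b t54_B00pm_011_s3 k23_B00pm_011_s3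

theorem t56_B00pm_011_s3 : ∃ t, chk3 f_B00pm_011_s3 t 6 15 1 = true := ex3_a t55_B00pm_011_s3 t53_B00pm_011_s3

theorem t57_B00pm_011_s3 : ∃ t, chk3 f_B00pm_011_s3 t 24 29 1 = true := ex3_b k17_B00pm_011_s3 k18_B00pm_011_s3

theorem t58_B00pm_011_s3 : ∃ t, chk3 f_B00pm_011_s3 t 12 29 1 = true := ex3_a t57_B00pm_011_s3 k19_B00pm_011_s3

theorem t59_B00pm_011_s3 : ∃ t, chk3 f_B00pm_011_s3 t 6 29 1 = true := ex3_a t58_B00pm_011_s3 k20_B00pm_011_s3

theorem t60_B00pm_011_s3 : ∃ t, chk3 f_B00pm_011_s3 t 6 14 1 = true := ex3_b k16_B00pm_011_s3 t59_B00pm_011_s3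

theorem t61_B00pm_011_s3 : ∃ t, chk3 f_B00pm_011_s3 t 6 7 1 = true := ex3_b t60_B00pm_011_s3 t56_B00pm_011_s3

theorem t62_B00pm_011_s3 : ∃ t, chk3 f_B00pm_011_s3 t 3 7 1 = true := ex3_a t61_B00pm_011_s3 t48_B00pm_011_s3

theorem t63_B00pm_011_s3 : ∃ t, chk3 f_B00pm_011_s3 t 3 3 1 = true := ex3_b k15_B00pm_011_s3 t62_B00pm_011_s3

theorem t64_B00pm_011_s3 : ∃ t, chk3 f_B00pm_011_s3 t 23 60 2 = true := ex3_c k10_B00pm_011_s3 k11_B00pm_011_s3

theorem t65_B00pm_011_s3 : ∃ t, chk3 f_B00pm_011_s3 t 23 60 1 = true := ex3_c t64_B00pm_011_s3 k12_B00pm_011_s3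

theorem t66_B00pm_011_s3 : ∃ t, chk3 f_B00pm_011_s3 t 11 60 1 = true := ex3_a k9_B00pm_011_s3 t65_B00pm_011_s3

theorem t67_B00pm_011_s3 : ∃ t, chk3 f_B00pm_011_s3 t 11 30 1 = true := ex3_b t66_B00pm_011_s3 k13_B00pm_011_s3

theorem t68_B00pm_011_s3 : ∃ t, chk3 f_B00pm_011_s3 t 11 15 1 = true := ex3_b t67_B00pm_011_s3 k14_B00pm_011_s3

theorem t69_B00pm_011_s3 : ∃ t, chk3 f_B00pm_011_s3 t 5 15 1 = true := ex3_a k8_B00pm_011_s3 t68_B00pm_011_s3

theorem t70_B00pm_011_s3 : ∃ t, chk3 f_B00pm_011_s3 t 11 29 1 = true := ex3_b k6_B00pm_011_s3 k7_B00pm_011_s3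

theorem t71_B00pm_011_s3 : ∃ t, chk3 f_B00pm_011_s3 t 11 14 1 = true := ex3_b k5_B00pm_011_s3 t70_B00pm_011_s3

theorem t72_B00pm_011_s3 : ∃ t, chk3 f_B00pm_011_s3 t 10 14 1 = true := ex3_b k3_B00pm_011_s3 k4_B00pm_011_s3

theorem t73_B00pm_011_s3 : ∃ t, chk3 f_B00pm_011_s3 t 5 14 1 = true := ex3_a t72_B00pm_011_s3 t71_B00pm_011_s3

theorem t74_B00pm_011_s3 : ∃ t, chk3 f_B00pm_011_s3 t 5 7 1 = true := ex3_b t73_B00pm_011_s3 t69_B00pm_011_s3

theorem t75_B00pm_011_s3 : ∃ t, chk3 f_B00pm_011_s3 t 2 7 1 = true := ex3_a k2_B00pm_011_s3 t74_B00pm_011_s3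

theorem t76_B00pm_011_s3 : ∃ t, chk3 f_B00pm_011_s3 t 2 3 1 = true := ex3_b k1_B00pm_011_s3 t75_B00pm_011_s3

theorem t77_B00pm_011_s3 : ∃ t, chk3 f_B00pm_011_s3 t 1 3 1 = true := ex3_a t76_B00pm_011_s3 t63_B00pm_011_s3

theorem t78_B00pm_011_s3 : ∃ t, chk3 f_B00pm_011_s3 t 1 1 1 = true := ex3_b k0_B00pm_011_s3 t77_B00pm_011_s3

theorem c_B00pm_011_s3 : CertF 0 536870912 536870912 536870912 740881858 40050571 false true false .pnn 0 1 1
    ndB0q0 ndB0q1 pcB1 cut_B00pm_011_s3 xt_B00pm_011_s3 :=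
  certF2 (fam := false) (s1 := true) (s2 := false) (a := 0) (b := 1) (c := 1) (cn := .pnn) (n1 := ndB0q0) (n2 := ndB0q1) (pc := pcB1) (cut := cut_B00pm_011_s3) (xt := xt_B00pm_011_s3) (P1 := 0) (W1 := 536870912) (P2 := 536870912) (W2 := 536870912) (P3 := 740881858) (W3 := 40050571)
    rfl (fun _ => rfl) t78_B00pm_011_s3

theorem s_B00pm_011_s3 {κ x : ℝ} (hκ : κ * h0 = ken x) (hx : ((740881858 : ℕ) : ℝ) / S ≤ x)
    (hx' : x ≤ (((740881858 : ℕ) : ℝ) + (40050571 : ℕ)) / S)
    (H : CutB (VFD κ) PP tK tL pcB (Cut.of [[⟨0, 0, 0, 67108864⟩, ⟨1, 1, 0, 67108864⟩, ⟨2, 1, 0, 67108864⟩]]) 0 1 1 0 0 (sgb true) (sgb false) x) :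
    AltB (VFD κ) PP tK tL pcB [⟨4, 0, 0, 2845415833⟩] 0 1 1 0 0 (sgb true) (sgb false) x :=
  strip_altBD (m := 2845415833) false rfl hκ (SH.κ0 hκ (SH.hx1 hx).le (SH.hx2 hx').le) (SH.hx1 hx).le (SH.hx2 hx') (covB00).cov (covB01).cov hx hx' c_B00pm_011_s3 H ((okx hx hx').extB (T := tt) (sideB hx hx') hκ rfl rfl (.O 0 true) (.O 1 false) (Or.inr rfl))

noncomputable def cut_B00pm_012_s1 : Cut := Cut.of [[⟨4, 0, 0, 1449551462⟩], [⟨0, 0, 0, 67108864⟩, ⟨1, 1, 0, 67108864⟩, ⟨2, 1, 0, 67108864⟩]]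

noncomputable def f_B00pm_012_s1 : ℕ → ℕ → ℕ → ℕ → Bool := onCell 0 536870912 0 536870912 740881858 40050571
    (rowF 0 false true false .pnp 0 1 2 (qsf 0 536870912 0 536870912 1) ndB0q0 ndB0q2 pcB1 cut_B00pm_012_s1 Ext.none)

def k0_B00pm_012_s1 : ∃ t, chk3 f_B00pm_012_s1 t 1 1 1 = true :=
  ⟨(a (l 6) (b (a (b (a (l 6) (b (a (l 6) (b (l 16599736) (l 6))) (l 6))) (l 6)) (b (a (b (a (b (l 16620248) (l 6)) (b (l 16725176) (l 16663712))) (l 6)) (b (a (b (a (l 16658256) (b (l 16673984) (l 16663560))) (a (l 16636768) (l 16647032))) (a (b (b (l 16685912) (l 16715792)) (b (l 16663256) (l 16651768))) (b (l 16733784) (b (l 16715504) (l 16662576))))) (a (b (l 16663096) (l 6)) (a (b (l 16635160) (l 16612744)) (b (l 16644888) (l 16621288)))))) (l 6))) (l 6))), by decide +kernel⟩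

theorem c_B00pm_012_s1 : CertF 0 536870912 0 536870912 740881858 40050571 false true false .pnp 0 1 2
    ndB0q0 ndB0q2 pcB1 cut_B00pm_012_s1 Ext.none :=
  certF0 (fam := false) (s1 := true) (s2 := false) (a := 0) (b := 1) (c := 2) (cn := .pnp) (n1 := ndB0q0) (n2 := ndB0q2) (pc := pcB1) (cut := cut_B00pm_012_s1) (xt := Ext.none) (P1 := 0) (W1 := 536870912) (P2 := 0) (W2 := 536870912) (P3 := 740881858) (W3 := 40050571)
    rfl k0_B00pm_012_s1

theorem s_B00pm_012_s1 {κ x : ℝ} (hκ : κ * h0 = ken x) (hx : ((740881858 : ℕ) : ℝ) / S ≤ x)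
    (hx' : x ≤ (((740881858 : ℕ) : ℝ) + (40050571 : ℕ)) / S)
    (H : CutB (VFD κ) PP tK tL pcB (Cut.of [[⟨0, 0, 0, 67108864⟩, ⟨1, 1, 0, 67108864⟩, ⟨2, 1, 0, 67108864⟩]]) 0 1 2 0 0 (sgb true) (sgb false) x) :
    AltB (VFD κ) PP tK tL pcB [⟨3, 0, 0, 1449551462⟩] 0 1 2 0 0 (sgb true) (sgb false) x :=
  strip_altBD (m := 1449551462) true rfl hκ (SH.κ0 hκ (SH.hx1 hx).le (SH.hx2 hx').le) (SH.hx1 hx).le (SH.hx2 hx') (covB00).cov (covB02).cov hx hx' c_B00pm_012_s1 H (noExt_B)

noncomputable def cut_B00pm_012_s3 : Cut := Cut.of [[⟨3, 0, 0, 2845415833⟩], [⟨0, 0, 0, 67108864⟩, ⟨1, 1, 0, 67108864⟩, ⟨2, 1, 0, 67108864⟩]]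

noncomputable def f_B00pm_012_s3 : ℕ → ℕ → ℕ → ℕ → Bool := onCell 0 536870912 0 536870912 740881858 40050571
    (rowF 0 false true false .pnp 0 1 2 (qsf 0 536870912 0 536870912 1) ndB0q0 ndB0q2 pcB1 cut_B00pm_012_s3 Ext.none)

def k0_B00pm_012_s3 : ∃ t, chk3 f_B00pm_012_s3 t 2 2 1 = true :=
  ⟨(l 6), by decide +kernel⟩

def k1_B00pm_012_s3 : ∃ t, chk3 f_B00pm_012_s3 t 4 3 1 = true :=
  ⟨(b (a (l 2) (b (l 6) (a (b (l 6) (l 6)) (l 6)))) (b (a (a (l 2) (b (a (l 2) (b (l 2) (a (l 2) (b (l 16565856) (l 16577720))))) (a (l 14) (a (l 14) (a (l 14) (b (l 16595024) (l 16618072))))))) (a (b (b (b (a (a (l 16542184) (l 16542672)) (l 6)) (a (a (l 16553896) (l 16553992)) (l 16553960))) (a (a (b (l 16565600) (l 16577088)) (l 16570944)) (a (l 16570400) (l 16569648)))) (a (b (a (l 16594136) (l 16592920)) (b (l 16610136) (l 16579360))) (b (a (l 16591656) (l 16590168)) (l 16590744)))) (b (a (b (l 6) (l 16525808)) (l 6)) (a (b (l 16587176) (l 16606664)) (b (l 16581800) (l 16600240))))))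 (a (a (l 14) (a (l 14) (a (l 14) (a (l 14) (b (b (l 16641824) (l 16666872)) (b (l 16683920) (b (l 16688040) (b (l 16689832) (l 16690920))))))))) (b (a (a (b (b (l 16590744) (l 16644392)) (a (l 16664384) (l 16660104))) (b (l 16633176) (l 16640056))) (b (a (l 16621344) (l 16605008)) (a (l 16626176) (l 16608912)))) (b (a (a (b (l 16669608) (a (l 16677536) (l 16667056))) (b (a (l 16654208) (l 16643824)) (l 16661424))) (a (b (l 16628984) (l 16630488)) (b (l 16611080) (l 16612152)))) (a (b (a (a (l 16680032) (l 16669120)) (a (l 16658008) (l 16647136))) (a (b (a (l 16681616) (l 16670344)) (a (c (l 16683504) (l 16681512)) (c (l 16672192) (l 16669912)))) (a (a (l 16664800) (l 16656552)) (a (l 16651008) (l 16645568))))) (b (a (a (l 16636696) (l 16626760)) (l 16612896)) (b (a (c (l 16633696) (l 16630976)) (l 16623712)) (a (a (l 16637800) (l 16627600)) (a (l 16617944) (l 16608896))))))))))), by decide +kernel⟩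

def k2_B00pm_012_s3 : ∃ t, chk3 f_B00pm_012_s3 t 5 3 1 = true :=
  ⟨(b (l 6) (a (b (a (b (l 6) (a (l 16583240) (l 16551880))) (l 6)) (b (a (b (a (l 16591048) (l 16579744)) (a (l 16594104) (l 16581960))) (b (a (l 16569528) (l 6)) (a (l 16570904) (l 16559448)))) (b (a (a (b (l 16595632) (l 16596280)) (b (l 16582856) (l 16583080))) (a (b (l 16571168) (l 16570976)) (b (l 16559088) (l 16558472)))) (a (b (a (l 16596600) (a (l 16586184) (l 16579888))) (b (a (c (l 16598304) (l 16595024)) (a (l 16585960) (l 16579504))) (a (a (l 16600480) (l 16592736)) (a (l 16585696) (c (l 16581048) (l 16577336)))))) (b (a (a (l 16573616) (l 16567272)) (a (l 16560816) (l 16554216))) (b (a (a (l 16573072) (l 16566568)) (a (l 16559960) (l 16553208))) (a (a (c (l 16574488) (l 16570824)) (c (l 16567864) (l 16564224))) (a (c (l 16561152) (l 16557504)) (c (l 16554312) (l 16550624)))))))))) (b (l 6) (b (l 6) (b (a (a (l 16556400) (l 6)) (l 6)) (a (b (a (l 16543992) (l 16529680)) (b (a (a (l 16546280)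 (l 16539168)) (l 16528120)) (a (a (l 16545392) (l 16538176)) (a (l 16530744) (l 16523192))))) (a (b (l 6) (b (l 6) (c (l 16514440) (l 16509656)))) (l 6)))))))), by decide +kernel⟩

def k3_B00pm_012_s3 : ∃ t, chk3 f_B00pm_012_s3 t 3 1 1 = true :=
  ⟨(b (l 6) (a (l 6) (l 6))), by decide +kernel⟩

theorem t4_B00pm_012_s3 : ∃ t, chk3 f_B00pm_012_s3 t 2 3 1 = true := ex3_a k1_B00pm_012_s3 k2_B00pm_012_s3

theorem t5_B00pm_012_s3 : ∃ t, chk3 f_B00pm_012_s3 t 2 1 1 = true := ex3_b k0_B00pm_012_s3 t4_B00pm_012_s3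

theorem t6_B00pm_012_s3 : ∃ t, chk3 f_B00pm_012_s3 t 1 1 1 = true := ex3_a t5_B00pm_012_s3 k3_B00pm_012_s3

theorem c_B00pm_012_s3 : CertF 0 536870912 0 536870912 740881858 40050571 false true false .pnp 0 1 2
    ndB0q0 ndB0q2 pcB1 cut_B00pm_012_s3 Ext.none :=
  certF0 (fam := false) (s1 := true) (s2 := false) (a := 0) (b := 1) (c := 2) (cn := .pnp) (n1 := ndB0q0) (n2 := ndB0q2) (pc := pcB1) (cut := cut_B00pm_012_s3) (xt := Ext.none) (P1 := 0) (W1 := 536870912) (P2 := 0) (W2 := 536870912) (P3 := 740881858) (W3 := 40050571)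
    rfl t6_B00pm_012_s3

theorem s_B00pm_012_s3 {κ x : ℝ} (hκ : κ * h0 = ken x) (hx : ((740881858 : ℕ) : ℝ) / S ≤ x)
    (hx' : x ≤ (((740881858 : ℕ) : ℝ) + (40050571 : ℕ)) / S)
    (H : CutB (VFD κ) PP tK tL pcB (Cut.of [[⟨0, 0, 0, 67108864⟩, ⟨1, 1, 0, 67108864⟩, ⟨2, 1, 0, 67108864⟩]]) 0 1 2 0 0 (sgb true) (sgb false) x) :
    AltB (VFD κ) PP tK tL pcB [⟨4, 0, 0, 2845415833⟩] 0 1 2 0 0 (sgb true) (sgb false) x :=
  strip_altBD (m := 2845415833) false rfl hκ (SH.κ0 hκ (SH.hx1 hx).le (SH.hx2 hx').le) (SH.hx1 hx).le (SH.hx2 hx') (covB00).cov (covB02).cov hx hx' c_B00pm_012_s3 H (noExt_B)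

noncomputable def cut_B00pm_022_s1 : Cut := Cut.of [[⟨4, 0, 0, 1449551462⟩], [⟨0, 0, 0, 67108864⟩, ⟨1, 1, 0, 67108864⟩, ⟨2, 1, 0, 67108864⟩]]

noncomputable def f_B00pm_022_s1 : ℕ → ℕ → ℕ → ℕ → Bool := onCell 1073741824 536870912 0 536870912 740881858 40050571
    (rowF 2 false true false .pp 0 2 2 (qsf 0 536870912 0 536870912 2) ndB0q0 ndB0q2 pcB2 cut_B00pm_022_s1 Ext.none)

def k0_B00pm_022_s1 : ∃ t, chk3 f_B00pm_022_s1 t 1 1 1 = true :=
  ⟨(l 6), by decide +kernel⟩

theorem c_B00pm_022_s1 : CertF 0 536870912 0 536870912 740881858 40050571 false true false .pp 0 2 2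
    ndB0q0 ndB0q2 pcB2 cut_B00pm_022_s1 Ext.none :=
  certF2 (fam := false) (s1 := true) (s2 := false) (a := 0) (b := 2) (c := 2) (cn := .pp) (n1 := ndB0q0) (n2 := ndB0q2) (pc := pcB2) (cut := cut_B00pm_022_s1) (xt := Ext.none) (P1 := 0) (W1 := 536870912) (P2 := 0) (W2 := 536870912) (P3 := 740881858) (W3 := 40050571)
    rfl (fun _ => rfl) k0_B00pm_022_s1

theorem s_B00pm_022_s1 {κ x : ℝ} (hκ : κ * h0 = ken x) (hx : ((740881858 : ℕ) : ℝ) / S ≤ x)
    (hx' : x ≤ (((740881858 : ℕ) : ℝ) + (40050571 : ℕ)) / S)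
    (H : CutB (VFD κ) PP tK tL pcB (Cut.of [[⟨0, 0, 0, 67108864⟩, ⟨1, 1, 0, 67108864⟩, ⟨2, 1, 0, 67108864⟩]]) 0 2 2 0 0 (sgb true) (sgb false) x) :
    AltB (VFD κ) PP tK tL pcB [⟨3, 0, 0, 1449551462⟩] 0 2 2 0 0 (sgb true) (sgb false) x :=
  strip_altBD (m := 1449551462) true rfl hκ (SH.κ0 hκ (SH.hx1 hx).le (SH.hx2 hx').le) (SH.hx1 hx).le (SH.hx2 hx') (covB00).cov (covB02).cov hx hx' c_B00pm_022_s1 H (noExt_B)

noncomputable def cut_B00pm_022_s3 : Cut := Cut.of [[⟨3, 0, 0, 2845415833⟩], [⟨0, 0, 0, 67108864⟩, ⟨1, 1, 0, 67108864⟩, ⟨2, 1, 0, 67108864⟩]]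

noncomputable def f_B00pm_022_s3 : ℕ → ℕ → ℕ → ℕ → Bool := onCell 0 536870912 0 536870912 740881858 40050571
    (rowF 0 false true false .pp 0 2 2 (qsf 0 536870912 0 536870912 2) ndB0q0 ndB0q2 pcB2 cut_B00pm_022_s3 Ext.none)

def k0_B00pm_022_s3 : ∃ t, chk3 f_B00pm_022_s3 t 2 2 1 = true :=
  ⟨(l 6), by decide +kernel⟩

def k1_B00pm_022_s3 : ∃ t, chk3 f_B00pm_022_s3 t 8 12 1 = true :=
  ⟨(l 6), by decide +kernel⟩

def k2_B00pm_022_s3 : ∃ t, chk3 f_B00pm_022_s3 t 16 13 1 = true :=
  ⟨(b (b (b (l 6) (a (a (a (c (l 16579712) (c (l 16562656) (l 16557784))) (l 6)) (l 6)) (l 6))) (c (a (c (a (b (l 16588256) (l 16593704)) (l 16585336)) (a (b (l 16584704) (a (l 16578352) (l 16581456))) (a (l 16560568) (l 16584288)))) (a (l 16573536) (l 6))) (a (a (b (a (c (l 16568480) (a (l 16562888) (l 16565032))) (l 16591160)) (a (c (l 16574488) (a (l 16569224) (l 16571376))) (l 16586840))) (a (b (l 16573936) (l 16580104)) (l 16580600))) (a (a (l 16584000) (l 16584960)) (l 6))))) (b (a (a (b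 (a (a (c (l 16585032) (c (l 16579552) (l 16575544))) (c (l 16586504) (l 16584832))) (c (l 16588632) (l 16593000))) (a (c (c (l 16592952) (l 16589848)) (b (c (l 16584984) (l 16581336)) (c (l 16588000) (l 16584488)))) (c (l 16594288) (c (l 16590144) (l 16587120))))) (c (a (b (l 16591312) (l 16596976)) (l 16596680)) (a (b (l 16586256) (l 16592400)) (l 16592920)))) (a (c (l 16577264) (a (l 16596304) (l 16597776))) (c (c (l 16554536) (l 16586456)) (l 16587304)))) (a (a (a (c (b (c (l 16598600) (l 16595680)) (c (l 16604384) (l 16601640))) (b (b (c (l 16591032) (l 16587648)) (c (l 16594080) (l 16590816))) (b (c (l 16597160) (l 16594016)) (c (l 16600272) (l 16597240))))) (c (b (l 16600040) (l 16605912)) (b (c (l 16596208) (l 16593432)) (c (l 16602368) (l 16599824))))) (a (c (b (l 16602728) (l 16608608)) (b (l 16598576) (l 16604848))) (c (l 16608200) (b (l 16602128) (l 16608392))))) (c (a (l 16590680) (a (l 16603832) (l 16555360))) (a (a (l 16608656) (l 16611848)) (l 16600656)))))),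 by decide +kernel⟩

def k3_B00pm_022_s3 : ∃ t, chk3 f_B00pm_022_s3 t 17 13 1 = true :=
  ⟨(b (l 6) (b (a (a (c (b (l 16570848) (l 16577320)) (b (l 16570240) (l 16576152))) (a (b (l 6) (l 16566648)) (l 6))) (l 6)) (b (a (a (c (l 16584016) (l 16582344)) (b (l 16609656) (l 16612696))) (a (a (l 16558704) (l 16551648)) (l 6))) (a (a (c (l 16590904) (l 16588768)) (b (l 16615776) (l 16597928))) (a (c (l 16563960) (l 16557552)) (c (l 16550416) (l 16541744))))))), by decide +kernel⟩

def k4_B00pm_022_s3 : ∃ t, chk3 f_B00pm_022_s3 t 9 6 1 = true :=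
  ⟨(a (b (l 6) (b (l 6) (l 6))) (l 6)), by decide +kernel⟩

def k5_B00pm_022_s3 : ∃ t, chk3 f_B00pm_022_s3 t 8 7 1 = true :=
  ⟨(b (a (a (b (a (a (b (c (b (c (l 16610352) (l 16607760)) (c (l 16616560) (l 16614120))) (a (b (c (l 16604088) (a (l 16600536) (l 16601616))) (c (l 16610616) (b (l 16606080) (l 16609536)))) (b (c (l 16605960) (l 16603216)) (c (l 16612480) (l 16609936))))) (b (b (b (a (c (l 16618784) (l 16613624)) (l 16618000)) (l 14)) (l 14)) (l 14))) (b (c (b (l 16611960) (l 16618240)) (b (c (l 16608680) (l 16606336)) (a (l 16613176) (l 16615080)))) (b (c (l 16625128) (a (l 16620408) (l 16622304))) (l 14)))) (b (a (b (c (l 16614656) (l 16611248)) (c (l 16620944) (l 16617856))) (c (b (l 16617176) (l 16623464)) (b (l 16614792) (l 16621392)))) (b (b (a (l 16603656) (l 16627640)) (l 14)) (l 14)))) (l 14)) (a (b (b (c (a (l 16622616) (l 16624776)) (a (l 16621400) (l 16624568))) (b (a (l 16632320) (l 16634960)) (l 14))) (l 14)) (b (b (b (l 16611512) (l 16618960)) (c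 (l 16630272) (l 16628768))) (l 14)))) (b (a (b (a (c (c (l 16560256) (l 16558952)) (b (l 16595368) (l 16602096))) (c (b (l 16583984) (l 16590576)) (b (l 16579328) (l 16585520)))) (b (a (c (l 16611872) (l 16608536)) (c (l 16596880) (l 16591424))) (l 14))) (a (b (b (c (l 16569968) (l 16563120)) (c (l 16576040) (l 16568792))) (b (a (l 16582128) (l 16574032)) (l 14))) (b (c (b (l 16555912) (l 16561456)) (b (l 16546792) (l 16551920))) (c (b (l 16566680) (l 16571352)) (b (a (l 16561104) (l 16552368)) (l 16571456)))))) (a (l 14) (a (l 14) (a (l 14) (l 1)))))) (a (l 14) (a (l 14) (l 1)))), by decide +kernel⟩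

def k6_B00pm_022_s3 : ∃ t, chk3 f_B00pm_022_s3 t 9 7 1 = true :=
  ⟨(b (a (b (a (a (b (c (b (a (l 16545360) (l 16538320)) (l 16546848)) (b (a (l 16534464) (l 16526216)) (a (l 16539200) (l 16530680)))) (b (c (l 16551536) (l 16539208)) (l 1))) (b (b (b (l 6) (l 1)) (l 1)) (l 1))) (l 1)) (l 1)) (l 1)) (l 1)), by decide +kernel⟩

def k7_B00pm_022_s3 : ∃ t, chk3 f_B00pm_022_s3 t 5 3 1 = true :=
  ⟨(b (l 1) (l 1)), by decide +kernel⟩

def k8_B00pm_022_s3 : ∃ t, chk3 f_B00pm_022_s3 t 3 1 1 = true :=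
  ⟨(l 1), by decide +kernel⟩

theorem t9_B00pm_022_s3 : ∃ t, chk3 f_B00pm_022_s3 t 4 7 1 = true := ex3_a k5_B00pm_022_s3 k6_B00pm_022_s3

theorem t10_B00pm_022_s3 : ∃ t, chk3 f_B00pm_022_s3 t 8 13 1 = true := ex3_a k2_B00pm_022_s3 k3_B00pm_022_s3

theorem t11_B00pm_022_s3 : ∃ t, chk3 f_B00pm_022_s3 t 8 6 1 = true := ex3_b k1_B00pm_022_s3 t10_B00pm_022_s3

theorem t12_B00pm_022_s3 : ∃ t, chk3 f_B00pm_022_s3 t 4 6 1 = true := ex3_a t11_B00pm_022_s3 k4_B00pm_022_s3

theorem t13_B00pm_022_s3 : ∃ t, chk3 f_B00pm_022_s3 t 4 3 1 = true := ex3_b t12_B00pm_022_s3 t9_B00pm_022_s3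

theorem t14_B00pm_022_s3 : ∃ t, chk3 f_B00pm_022_s3 t 2 3 1 = true := ex3_a t13_B00pm_022_s3 k7_B00pm_022_s3

theorem t15_B00pm_022_s3 : ∃ t, chk3 f_B00pm_022_s3 t 2 1 1 = true := ex3_b k0_B00pm_022_s3 t14_B00pm_022_s3

theorem t16_B00pm_022_s3 : ∃ t, chk3 f_B00pm_022_s3 t 1 1 1 = true := ex3_a t15_B00pm_022_s3 k8_B00pm_022_s3

theorem c_B00pm_022_s3 : CertF 0 536870912 0 536870912 740881858 40050571 false true false .pp 0 2 2
    ndB0q0 ndB0q2 pcB2 cut_B00pm_022_s3 Ext.none :=
  certF0 (fam := false) (s1 := true) (s2 := false) (a := 0) (b := 2) (c := 2) (cn := .pp) (n1 := ndB0q0) (n2 := ndB0q2) (pc := pcB2) (cut := cut_B00pm_022_s3) (xt := Ext.none) (P1 := 0) (W1 := 536870912) (P2 := 0) (W2 := 536870912) (P3 := 740881858) (W3 := 40050571)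
    rfl t16_B00pm_022_s3

theorem s_B00pm_022_s3 {κ x : ℝ} (hκ : κ * h0 = ken x) (hx : ((740881858 : ℕ) : ℝ) / S ≤ x)
    (hx' : x ≤ (((740881858 : ℕ) : ℝ) + (40050571 : ℕ)) / S)
    (H : CutB (VFD κ) PP tK tL pcB (Cut.of [[⟨0, 0, 0, 67108864⟩, ⟨1, 1, 0, 67108864⟩, ⟨2, 1, 0, 67108864⟩]]) 0 2 2 0 0 (sgb true) (sgb false) x) :
    AltB (VFD κ) PP tK tL pcB [⟨4, 0, 0, 2845415833⟩] 0 2 2 0 0 (sgb true) (sgb false) x :=
  strip_altBD (m := 2845415833) false rfl hκ (SH.κ0 hκ (SH.hx1 hx).le (SH.hx2 hx').le) (SH.hx1 hx).le (SH.hx2 hx') (covB00).cov (covB02).cov hx hx' c_B00pm_022_s3 H (noExt_B)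

noncomputable def cut_B00pm_101_s1 : Cut := Cut.of [[⟨4, 0, 0, 1449551462⟩], [⟨0, 1, 0, 53687091⟩, ⟨1, 0, 0, 53687091⟩, ⟨2, 1, 0, 53687091⟩], [⟨0, 0, 1, 20971520⟩, ⟨1, 1, 2, 20971520⟩, ⟨2, 1, 0, 33554432⟩]]

noncomputable def f_B00pm_101_s1 : ℕ → ℕ → ℕ → ℕ → Bool := onCell 536870912 536870912 536870912 536870912 740881858 40050571
    (rowF 0 false true false .npn 1 0 1 (qsf 536870912 536870912 536870912 536870912 0) ndB0q1 ndB0q1 pcB0 cut_B00pm_101_s1 Ext.none)

def k0_B00pm_101_s1 : ∃ t, chk3 f_B00pm_101_s1 t 2 1 1 = true :=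
  ⟨(l 6), by decide +kernel⟩

def k1_B00pm_101_s1 : ∃ t, chk3 f_B00pm_101_s1 t 3 2 1 = true :=
  ⟨(l 6), by decide +kernel⟩

def k2_B00pm_101_s1 : ∃ t, chk3 f_B00pm_101_s1 t 6 3 1 = true :=
  ⟨(b (l 6) (b (l 6) (a (l 6) (b (l 6) (b (l 6) (a (l 6) (a (l 6) (b (l 6) (b (l 6) (a (l 6) (l 16789472))))))))))), by decide +kernel⟩

def k3_B00pm_101_s1 : ∃ t, chk3 f_B00pm_101_s1 t 7 3 1 = true :=
  ⟨(b (a (l 6) (l 1)) (b (a (l 6) (a (b (l 1) (a (a (b (l 1) (l 105797353495)) (l 1)) (l 1))) (l 1))) (a (b (a (l 6) (b (a (l 6) (b (l 16883136) (b (l 16880696) (l 16874312)))) (a (a (l 16782248) (l 16777448)) (b (l 16821104) (l 16805840))))) (b (b (a (a (l 6) (l 16846120)) (a (l 16796656) (l 16790032))) (a (a (l 6) (l 16786352)) (a (a (l 16823632) (l 16819936)) (c (l 16774008) (l 16773728))))) (a (c (b (a (l 16811320) (l 16767176)) (a (a (l 16793224) (l 16793288)) (b (l 16816904) (a (l 16787920) (l 16786248))))) (b (a (l 16815584) (l 16769848)) (a (a (l 16796512) (l 16795952)) (a (l 16794320)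 (l 16749920))))) (a (b (a (l 16806136) (l 16760848)) (a (b (l 16792904) (c (l 16784016) (l 16784248))) (b (l 16789792) (c (l 16781392) (l 16780920))))) (b (a (l 16768592) (c (l 16799240) (l 16798360))) (a (b (l 16787312) (c (l 16779368) (l 16778264))) (b (c (l 16786952) (l 16785704)) (c (b (l 16780776) (l 16776640)) (l 16777128))))))))) (b (a (b (b (a (l 101502335639) (l 1)) (a (b (a (l 16875832) (l 16873232)) (l 16868640)) (b (l 1) (l 110092202807)))) (a (b (l 16858432) (l 16854888)) (l 14))) (b (l 1) (l 14))) (a (a (b (b (a (l 16830024) (l 16787656)) (a (l 16814472) (l 16804048))) (b (a (c (l 16799224) (l 16797864)) (c (l 16799864) (l 16798176))) (b (a (c (l 16787168) (l 16785544)) (c (l 16788056) (l 16786192))) (a (c (b (l 16781104) (l 16782280)) (b (l 16779280) (l 16775072))) (a (c (l 16779816) (l 16777776)) (a (b (l 16781224) (l 16777184)) (l 14))))))) (l 14)) (l 14)))))), by decide +kernel⟩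

theorem t4_B00pm_101_s1 : ∃ t, chk3 f_B00pm_101_s1 t 3 3 1 = true := ex3_a k2_B00pm_101_s1 k3_B00pm_101_s1

theorem t5_B00pm_101_s1 : ∃ t, chk3 f_B00pm_101_s1 t 3 1 1 = true := ex3_b k1_B00pm_101_s1 t4_B00pm_101_s1

theorem t6_B00pm_101_s1 : ∃ t, chk3 f_B00pm_101_s1 t 1 1 1 = true := ex3_a k0_B00pm_101_s1 t5_B00pm_101_s1

theorem c_B00pm_101_s1 : CertF 536870912 536870912 536870912 536870912 740881858 40050571 false true false .npn 1 0 1
    ndB0q1 ndB0q1 pcB0 cut_B00pm_101_s1 Ext.none :=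
  certF0 (fam := false) (s1 := true) (s2 := false) (a := 1) (b := 0) (c := 1) (cn := .npn) (n1 := ndB0q1) (n2 := ndB0q1) (pc := pcB0) (cut := cut_B00pm_101_s1) (xt := Ext.none) (P1 := 536870912) (W1 := 536870912) (P2 := 536870912) (W2 := 536870912) (P3 := 740881858) (W3 := 40050571)
    rfl t6_B00pm_101_s1

theorem s_B00pm_101_s1 {κ x : ℝ} (hκ : κ * h0 = ken x) (hx : ((740881858 : ℕ) : ℝ) / S ≤ x)
    (hx' : x ≤ (((740881858 : ℕ) : ℝ) + (40050571 : ℕ)) / S)
    (H : CutB (VFD κ) PP tK tL pcB (Cut.of [[⟨0, 1, 0, 53687091⟩, ⟨1, 0, 0, 53687091⟩, ⟨2, 1, 0, 53687091⟩], [⟨0, 0, 1, 20971520⟩, ⟨1, 1, 2, 20971520⟩, ⟨2, 1, 0, 33554432⟩]]) 1 0 1 0 0 (sgb true) (sgb false) x) :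
    AltB (VFD κ) PP tK tL pcB [⟨3, 0, 0, 1449551462⟩] 1 0 1 0 0 (sgb true) (sgb false) x :=
  strip_altBD (m := 1449551462) true rfl hκ (SH.κ0 hκ (SH.hx1 hx).le (SH.hx2 hx').le) (SH.hx1 hx).le (SH.hx2 hx') (covB01).cov (covB01).cov hx hx' c_B00pm_101_s1 H (noExt_B)

noncomputable def cut_B00pm_101_s3 : Cut := Cut.of [[⟨3, 0, 0, 2845415833⟩], [⟨0, 1, 0, 53687091⟩, ⟨1, 0, 0, 53687091⟩, ⟨2, 1, 0, 53687091⟩], [⟨0, 0, 1, 20971520⟩, ⟨1, 1, 2, 20971520⟩, ⟨2, 1, 0, 33554432⟩]]

noncomputable def xt_B00pm_101_s3 : Ext := strExt dd false true false .u0 .u0m .s0m .npn 1 0 1 rfl rfl gl0 vv ndB0q1 ndB0q1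

noncomputable def f_B00pm_101_s3 : ℕ → ℕ → ℕ → ℕ → Bool := onCell 536870912 536870912 536870912 536870912 740881858 40050571
    (rowF 0 false true false .npn 1 0 1 (qsf 536870912 536870912 536870912 536870912 0) ndB0q1 ndB0q1 pcB0 cut_B00pm_101_s3 xt_B00pm_101_s3)

def k0_B00pm_101_s3 : ∃ t, chk3 f_B00pm_101_s3 t 4 4 1 = true :=
  ⟨(b (a (l 4) (a (a (l 4) (l 1)) (l 1))) (a (a (b (l 4) (a (l 4) (b (l 4) (a (l 4) (l 535086351))))) (b (a (l 4) (b (l 4) (a (l 4) (l 535837711)))) (a (b (a (l 4) (a (l 4) (b (l 4) (l 535452943)))) (l 535298831)) (a (b (b (l 535604751) (a (l 535531535) (l 535611919))) (c (b (l 535909903) (l 535869967)) (l 535170063))) (b (l 535753999) (b (l 535701519) (l 535669519))))))) (a (b (b (a (l 536248335) (l 536705807)) (a (l 536120847) (l 536541199))) (b (a (l 536019471) (l 536410639)) (b (l 536136719) (a (l 535919375) (l 536283151))))) (b (a (b (l 1) (l 537287951)) (l 1)) (a (b (l 536851983) (l 536717839)) (b (a (l 537223951) (l 1)) (l 537452303))))))),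 by decide +kernel⟩

def k1_B00pm_101_s3 : ∃ t, chk3 f_B00pm_101_s3 t 8 20 1 = true :=
  ⟨(a (c (a (b (b (l 4) (a (l 4) (b (l 4) (a (l 534989327) (l 535066639))))) (a (l 534711055) (b (l 534959375) (l 534868239)))) (b (b (l 535284239) (a (c (b (l 535333135) (l 535314703)) (l 535041295)) (b (l 535335695) (l 535320079)))) (a (b (c (b (a (l 535249935) (l 535328527)) (l 535253007)) (b (l 535012111) (l 534983183))) (a (l 535013903) (l 535101199))) (b (b (l 535300367) (l 535273999)) (b (l 535242767) (l 535207695)))))) (a (a (b (l 4) (l 534264591)) (b (b (l 4) (b (l 4) (a (l 534474511) (l 534536975)))) (b (l 534456847) (l 534396175)))) (b (b (l 534697999) (a (c (l 534764303) (l 534493455)) (l 534747663))) (a (b (c (b (l 534743055) (l 534719759)) (b (l 534479887) (l 534462479))) (a (l 534513935) (l 534585359))) (b (b (l 534735631) (l 534719503)) (b (l 534699279) (l 534675983))))))) (a (b (b (l 535264015) (c (l 535554831) (l 534934031))) (b (c (a (l 535440655) (l 535596815)) (l 534917135))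 (c (a (l 535387663) (l 535549711)) (a (l 534821391) (l 534955023))))) (a (b (b (l 535485199) (l 535996175)) (b (c (l 535757839) (l 535114255)) (c (l 535714575) (l 535090447)))) (b (b (l 535639823) (l 536148495)) (b (c (l 535924495) (l 535250959)) (c (l 535883535) (l 535229199))))))), by decide +kernel⟩

def k2_B00pm_101_s3 : ∃ t, chk3 f_B00pm_101_s3 t 16 21 1 = true :=
  ⟨(a (b (b (c (a (l 534542607) (l 534764815)) (a (l 534150415) (l 534325775))) (c (b (a (l 534451727) (l 534681359)) (a (c (l 534485263) (l 534305039)) (l 534626575))) (b (c (l 534273295) (l 534086415)) (c (l 534230287) (l 534052111))))) (b (c (a (c (b (l 534435855) (l 534394895)) (l 534244367)) (c (l 534657551) (l 534462479))) (c (a (l 534081039) (l 534274831)) (a (l 533924623) (l 534094607)))) (c (a (c (b (l 534359055) (l 534327311)) (b (l 534196751) (l 534169103))) (c (l 534578959) (l 534394895))) (a (c (b (l 534040591) (l 534016783)) (a (l 533838607) (l 533921807))) (c (l 534217743) (l 534047247))))))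 (b (c (a (b (a (l 534920719) (l 535014927)) (b (l 534894095) (a (l 16755072) (l 16753952)))) (b (c (l 535281935) (l 535017999)) (c (b (l 16756928) (l 16754240)) (b (l 16753824) (l 16750928))))) (a (b (a (l 534450447) (l 534526991)) (c (b (l 534549263) (l 16750760)) (b (l 534329103) (l 534298895)))) (b (c (l 534761743) (l 534512911)) (c (b (l 16750824) (l 16747712)) (b (l 16747920) (l 16744616)))))) (c (a (b (c (l 534888719) (l 534670607)) (c (l 534808335) (l 534601743))) (b (c (l 535097615) (l 534860303)) (b (l 16743760) (l 16740688)))) (a (b (c (b (l 16747432) (l 16744048)) (a (l 534219023) (l 16747416))) (c (a (l 16739576) (l 16738184)) (a (l 16736792) (l 16735024)))) (c (b (b (l 16744544) (l 16741312)) (a (l 16736928) (l 16735824))) (b (b (l 16741264) (l 16737848)) (a (l 16733392) (l 16731888)))))))), by decide +kernel⟩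

def k3_B00pm_101_s3 : ∃ t, chk3 f_B00pm_101_s3 t 17 21 1 = true :=
  ⟨(b (a (b (c (a (b (l 16758784) (l 16756432)) (b (l 16757720) (l 16755552))) (a (c (l 534910991) (l 534646799)) (l 534918159))) (c (a (b (l 16753944) (l 16751336)) (b (l 16753248) (l 16750832))) (a (c (l 534852367) (b (l 16744536) (l 16741376))) (b (l 16743944) (c (l 16743440) (l 16738704)))))) (b (c (a (l 535662351) (l 535836175)) (a (l 535058703) (l 535201295))) (c (a (b (l 16753336) (l 16751112)) (b (l 16754248) (l 16752232))) (a (b (l 16742152) (l 16739432)) (b (l 16741032) (l 16738488)))))) (a (c (b (a (c (l 16749528) (l 16745048)) (b (l 16748328) (l 16745744))) (a (c (l 16744064) (l 16739184)) (c (l 16744664) (l 16738848)))) (c (b (a (b (l 16742248) (l 16739184)) (l 16739152)) (a (b (l 16736048) (l 16732856)) (l 16733208))) (b (a (b (l 16738168) (l 16734904)) (b (l 16735648) (l 16732536))) (a (b (l 16731584) (l 16728200)) (b (l 16729360) (l 16726136)))))) (a (c (b (b (l 16748800) (l 16746408)) (c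 (l 16746104) (l 16739272))) (b (b (l 16736648) (l 16733800)) (c (l 16732656) (b (l 16727760) (l 16724688))))) (c (b (b (l 16750120) (l 16747920)) (c (l 16748448) (l 16740528))) (b (b (l 16735880) (l 16733208)) (b (l 16730472) (l 16727664))))))), by decide +kernel⟩

def k4_B00pm_101_s3 : ∃ t, chk3 f_B00pm_101_s3 t 9 10 1 = true :=
  ⟨(b (a (b (a (b (l 535884559) (c (l 536227343) (l 535485199))) (b (l 536239887) (l 536199951))) (a (b (c (l 536454671) (l 535465743)) (c (a (l 536057871) (l 536238351)) (l 535982351))) (b (c (l 536562703) (l 535775503)) (c (c (l 536720143) (l 536327183)) (l 535754511))))) (b (a (b (l 536634639) (l 536584975)) (b (l 537078031) (l 537015567))) (a (b (l 536541967) (c (l 536932623) (l 536092687))) (b (l 537230351) (b (l 536930831) (l 536912911)))))) (b (a (a (b (c (a (l 536013839) (l 536197135)) (c (l 535589391) (l 535256335))) (c (a (b (l 16756040) (l 16754248)) (b (l 16758792) (l 16757216))) (c (b (l 535564303) (l 535545871)) (b (l 535238927) (l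 535225871))))) (b (c (c (l 536676623) (l 536292623)) (l 535733519)) (a (c (b (l 16762568) (l 16761224)) (l 16741200)) (c (l 16766920) (l 16743384))))) (a (b (c (l 536893711) (l 536071439)) (c (a (l 16773128) (l 16780648)) (b (l 536055823) (l 536044303)))) (b (c (l 537344015) (l 536443407)) (c (a (l 16789600) (l 16800112)) (a (l 16756184) (l 16762888)))))) (a (a (c (b (a (b (l 16752344) (l 16750344)) (b (l 16755536) (l 16753752))) (a (b (l 16748256) (l 16746080)) (l 16750888))) (b (a (b (l 16735840) (l 16733352)) (b (l 16736576) (l 16734272))) (a (b (l 16730792) (l 16728160)) (l 16730696)))) (c (b (a (l 16759008) (l 16764472)) (a (l 16755664) (l 16761568))) (b (a (l 16737120) (l 16739712)) (a (l 16732760) (l 16735744))))) (a (b (c (a (l 16771160) (l 16779168)) (a (l 16743288) (l 16747944))) (c (a (l 16768712) (l 16777176)) (a (l 16739736) (l 16744808)))) (b (a (c (l 16788616) (l 16753784)) (l 16790504)) (a (c (l 16787096) (l 16751064)) (l 16778336))))))), by decide +kernel⟩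

def k5_B00pm_101_s3 : ∃ t, chk3 f_B00pm_101_s3 t 16 11 1 = true :=
  ⟨(b (a (b (c (a (b (c (b (l 534298383) (l 534272015)) (l 534132239)) (c (l 534237199) (l 534089487))) (b (c (l 534513423) (l 534338063)) (c (l 534455823) (l 534287887)))) (a (b (c (l 533984271) (a (l 16737288) (l 16735016))) (a (l 16740568) (l 533916687))) (b (c (l 534168847) (a (l 16732936) (l 16731024))) (c (l 534124559) (a (l 16724912) (l 16723136)))))) (c (a (b (l 534124047) (l 16718264)) (c (l 534383119) (l 534222095))) (a (b (a (l 16721760) (l 16719864)) (l 16712288)) (c (b (l 16719040) (l 16710960)) (b (l 16715808) (l 16707368)))))) (b (c (a (b (c (l 16738720) (l 16735176)) (c (l 16732024) (l 16728152))) (c (b (l 16738152) (l 16731792)) (b (l 16733776) (l 16727064)))) (a (c (b (a (l 16732392) (l 16731144)) (l 16724400)) (b (a (l 16729272) (l 16727648)) (a (l 16721520) (l 16720032)))) (c (b (l 16734784) (l 16722488)) (b (a (l 16726152) (l 16724792)) (a (l 16718672) (l 16717456)))))) (c (a (b (c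 (l 16725096) (l 16720896)) (l 16715656)) (b (l 16722616) (l 16715568))) (a (c (b (l 16716800) (l 16708968)) (b (l 16712816) (l 16704624))) (c (b (l 16715168) (l 16707600)) (b (l 16710376) (l 16702448))))))) (a (c (b (a (b (l 16710320) (l 16702216)) (b (l 16708720) (l 16700800))) (a (b (l 16693984) (l 16685608)) (b (l 16692712) (l 16684472)))) (b (a (b (l 16703584) (l 16694664)) (b (l 16700656) (l 16691928))) (a (b (l 16685536) (l 16676200)) (b (l 16682976) (l 16673800))))) (c (b (a (b (l 16708136) (l 16700408)) (b (l 16708280) (l 16700776))) (b (l 16692664) (l 16684664))) (b (a (b (l 16698520) (l 16690008)) (b (a (l 16697320) (l 16696712)) (l 16688720))) (c (b (l 16683616) (l 16674952)) (b (l 16677640) (l 16668504))))))), by decide +kernel⟩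

def k6_B00pm_101_s3 : ∃ t, chk3 f_B00pm_101_s3 t 17 11 1 = true :=
  ⟨(b (a (c (a (b (b (c (l 16738312) (l 16733048)) (l 16729448)) (b (l 16722960) (l 16716208))) (b (b (c (l 16739256) (l 16733040)) (l 16730240)) (b (l 16724072) (l 16717624)))) (b (c (a (b (l 16727952) (l 16721192)) (b (l 16727016) (l 16720560))) (a (b (a (l 16723576) (l 16722504)) (a (l 16716376) (l 16715456))) (b (a (l 16721584) (l 16720816)) (a (l 16714680) (l 16714064))))) (c (a (b (l 16714168) (l 16706880)) (b (l 16713848) (l 16706856))) (a (b (l 16708512) (l 16700856)) (b (l 16707264) (l 16699896)))))) (c (a (b (b (c (l 16741056) (l 16733808)) (l 16731856)) (b (l 16726008) (l 16719872))) (b (b (c (l 16743760) (l 16735416)) (l 16734352)) (b (l 16728832) (l 16723016)))) (b (c (a (b (l 16726784) (l 16720648)) (b (l 16727304) (l 16721504))) (b (a (b (l 16721560) (l 16718360)) (b (l 16720944) (l 16717912))) (a (a (l 16713608) (l 16713328)) (b (l 16714808) (l 16711648))))) (c (a (b (l 16714240) (l 16707560))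 (b (l 16715416) (l 16709048))) (a (b (l 16706664) (l 16699600)) (b (l 16706768) (l 16700016))))))) (c (a (b (a (b (l 16709192) (l 16701920)) (b (l 16710896) (l 16703888))) (b (l 16695392) (l 16687776))) (b (b (a (l 16713448) (l 16716896)) (l 16708456)) (b (l 16701584) (l 16694432)))) (b (b (a (c (a (l 16699328) (l 16699584)) (a (l 16692920) (l 16692240))) (a (c (l 16700584) (l 16692240)) (c (l 16702384) (l 16692968)))) (a (a (l 16688080) (c (l 16692024) (l 16684280))) (a (l 16688920) (l 16690480)))) (b (a (a (l 16679784) (l 16680088)) (a (l 16681144) (l 16683000))) (a (c (l 16675440) (l 16667304)) (a (l 16673056) (l 16675184))))))), by decide +kernel⟩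

def k7_B00pm_101_s3 : ∃ t, chk3 f_B00pm_101_s3 t 18 11 1 = true :=
  ⟨(b (b (b (a (c (a (c (l 16747456) (l 16737912)) (l 16746744)) (c (a (l 16728640) (l 16730824)) (a (l 16719624) (l 16720584)))) (c (a (l 16751920) (l 16758240)) (a (l 16728112) (l 16731488)))) (a (c (a (l 16737792) (l 16742256)) (c (a (l 16723176) (l 16725720)) (a (l 16713760) (l 16715064)))) (c (a (l 16747800) (l 16754520)) (a (c (l 16729200) (l 16717216)) (l 16726936))))) (c (a (b (a (l 16732616) (l 16737424)) (a (l 16727128) (l 16732264))) (b (a (l 16743328) (l 16750416)) (a (l 16738520) (l 16745960)))) (a (b (c (a (l 16717424) (l 16720320)) (a (l 16707624) (l 16709272))) (c (a (l 16711376) (l 16714608)) (a (l 16701200) (l 16703192)))) (b (a (c (l 16724160) (l 16711784)) (l 16722072)) (a (c (l 16718808) (l 16706056)) (l 16716904)))))) (b (a (c (b (a (l 16721320) (l 16726784)) (l 16717936)) (a (b (c (l 16705032) (l 16694472)) (l 16692872)) (b (c (l 16708600) (l 16696800)) (l 16696144)))) (c (b (a (l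 16733368) (l 16741152)) (l 16731776)) (b (a (l 16706544) (l 16711416)) (a (l 16700360) (l 16705592))))) (a (a (c (l 16705384) (b (l 16685696) (l 16678176))) (c (l 16711616) (b (l 16689288) (l 16682080)))) (a (c (l 16718984) (b (l 16693840) (l 16686968))) (c (l 16727584) (b (l 16699424) (l 16692896))))))), by decide +kernel⟩

def k8_B00pm_101_s3 : ∃ t, chk3 f_B00pm_101_s3 t 19 11 1 = true :=
  ⟨(b (b (a (b (a (c (l 16765808) (l 16735880)) (c (l 16774720) (l 16741360))) (a (c (l 16762488) (l 16731720)) (c (l 16771816) (l 16737616)))) (b (a (c (l 16785080) (l 16748040)) (l 16776256)) (a (c (l 16782600) (l 16744704)) (l 16773776)))) (a (b (a (c (l 16758776) (l 16727248)) (c (l 16768496) (l 16733552))) (c (a (l 16754688) (l 16764784)) (a (l 16722464) (l 16729168)))) (b (a (c (l 16779696) (l 16741056)) (l 16770928)) (c (l 16782760) (a (l 16737088) (l 16746336)))))) (b (a (c (b (a (l 16750232) (l 16760688)) (l 16750632)) (b (a (l 16717360) (l 16724448)) (a (l 16711912) (l 16719392))))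 (a (c (l 16770640) (b (l 16732784) (l 16728128))) (b (l 16722152) (l 6)))) (a (a (c (l 16737488) (b (l 16706112) (l 16699936))) (c (l 16748800) (b (l 16713976) (l 6)))) (l 6)))), by decide +kernel⟩

def k9_B00pm_101_s3 : ∃ t, chk3 f_B00pm_101_s3 t 5 4 1 = true :=
  ⟨(a (b (l 1) (a (a (b (l 1) (b (l 1) (a (l 537577487) (l 1)))) (l 1)) (l 1))) (l 1)), by decide +kernel⟩

def k10_B00pm_101_s3 : ∃ t, chk3 f_B00pm_101_s3 t 5 5 1 = true :=
  ⟨(b (a (a (b (a (b (a (c (l 537835023) (l 536894991)) (c (l 537911567) (l 537136399))) (c (a (l 537787663) (b (l 16816920) (l 16818104))) (a (l 536795919) (l 537022479)))) (a (b (c (c (l 537961231) (l 537989135)) (l 537400079)) (b (c (l 16822456) (l 16795040)) (c (l 16823984) (l 16793640)))) (b (l 1) (b (c (l 16827272) (l 16809312)) (c (l 16829144) (l 16807416)))))) (b (a (a (b (l 16791912) (l 16801896)) (b (c (l 16818144) (l 16781656)) (c (l 16817136) (l 16780696)))) (c (b (a (l 16824376) (l 16829880)) (a (l 16823696) (l 16829544))) (b (a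 (l 16792856) (l 16806544)) (a (l 16792264) (l 16806264))))) (a (a (b (l 16790632) (l 16789400)) (b (c (l 16815752) (l 16779560)) (c (l 16814424) (l 16778120)))) (a (b (c (l 16822632) (l 16791528)) (c (l 16821616) (l 16790488))) (b (c (l 16828816) (l 16805872)) (c (l 16828144) (l 16805184))))))) (b (b (l 1) (a (a (a (b (l 1) (l 16824168)) (l 1)) (l 1)) (l 1))) (b (b (a (a (c (l 16834624) (l 16823504)) (c (l 55868241687) (l 16844552))) (l 1)) (a (a (c (l 16834632) (l 16823136)) (c (c (l 16837520) (l 16840592)) (l 16843680))) (a (c (l 52110144247) (l 16851344)) (l 1)))) (a (b (a (c (l 16834256) (l 16823024)) (c (l 16838976) (l 16843440))) (a (c (l 16833936) (l 16822624)) (l 6))) (l 6))))) (b (l 1) (a (l 6) (l 1)))) (a (b (a (a (b (a (b (l 16787760) (l 16785712)) (b (c (l 16813088) (l 16776368)) (l 16778392))) (a (b (l 16783288) (l 16780472)) (b (l 16755416) (l 6)))) (b (a (b (l 16805728) (l 16794040)) (b (l 16809376) (l 6))) (l 6))) (l 6)) (l 6)) (l 6))), by decide +kernel⟩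

def k11_B00pm_101_s3 : ∃ t, chk3 f_B00pm_101_s3 t 2 3 1 = true :=
  ⟨(a (b (b (a (b (a (b (b (a (a (l 16671976) (l 16670336)) (c (l 16676536) (l 16662672))) (a (c (l 16668160) (l 16656216)) (c (l 16668368) (l 16653624)))) (a (b (a (l 16654240) (l 16652792)) (l 16644664)) (b (c (l 16660176) (l 16644608)) (l 16643816)))) (b (a (c (b (l 16679984) (l 16672088)) (b (l 16662696) (l 16653992))) (c (b (l 16687024) (l 16679480)) (b (c (l 16671072) (l 16660544)) (l 16657496)))) (a (b (l 16654696) (l 16646312)) (c (l 16667856) (b (l 16649120) (l 16640672)))))) (a (b (a (b (l 16635968) (l 16627336)) (b (l 16635240) (l 16626688))) (a (l 16613496) (l 16612904))) (b (b (a (l 16637896) (l 16644128)) (l 16642584)) (a (l 16615776) (l 6))))) (b (a (a (a (b (c (l 16691344) (b (l 16670376) (l 16662432))) (c (l 16676488) (l 16650264))) (b (c (l 16698096) (b (l 16674576) (l 16666896))) (l 6))) (b (b (c (l 16713736) (c (l 16690432) (l 16675120))) (l 6)) (l 6))) (l 6)) (l 6))) (a (a (b (a (b (l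 16592648) (l 6)) (l 6)) (l 6)) (l 6)) (l 6))) (l 6)) (b (l 6) (l 6))), by decide +kernel⟩

def k12_B00pm_101_s3 : ∃ t, chk3 f_B00pm_101_s3 t 3 1 1 = true :=
  ⟨(b (a (b (l 1) (l 6)) (l 1)) (l 6)), by decide +kernel⟩

theorem t13_B00pm_101_s3 : ∃ t, chk3 f_B00pm_101_s3 t 5 2 1 = true := ex3_b k9_B00pm_101_s3 k10_B00pm_101_s3

theorem t14_B00pm_101_s3 : ∃ t, chk3 f_B00pm_101_s3 t 9 11 1 = true := ex3_a k7_B00pm_101_s3 k8_B00pm_101_s3

theorem t15_B00pm_101_s3 : ∃ t, chk3 f_B00pm_101_s3 t 8 11 1 = true := ex3_a k5_B00pm_101_s3 k6_B00pm_101_s3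

theorem t16_B00pm_101_s3 : ∃ t, chk3 f_B00pm_101_s3 t 4 11 1 = true := ex3_a t15_B00pm_101_s3 t14_B00pm_101_s3

theorem t17_B00pm_101_s3 : ∃ t, chk3 f_B00pm_101_s3 t 8 21 1 = true := ex3_a k2_B00pm_101_s3 k3_B00pm_101_s3

theorem t18_B00pm_101_s3 : ∃ t, chk3 f_B00pm_101_s3 t 8 10 1 = true := ex3_b k1_B00pm_101_s3 t17_B00pm_101_s3

theorem t19_B00pm_101_s3 : ∃ t, chk3 f_B00pm_101_s3 t 4 10 1 = true := ex3_a t18_B00pm_101_s3 k4_B00pm_101_s3

theorem t20_B00pm_101_s3 : ∃ t, chk3 f_B00pm_101_s3 t 4 5 1 = true := ex3_b t19_B00pm_101_s3 t16_B00pm_101_s3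

theorem t21_B00pm_101_s3 : ∃ t, chk3 f_B00pm_101_s3 t 4 2 1 = true := ex3_b k0_B00pm_101_s3 t20_B00pm_101_s3

theorem t22_B00pm_101_s3 : ∃ t, chk3 f_B00pm_101_s3 t 2 2 1 = true := ex3_a t21_B00pm_101_s3 t13_B00pm_101_s3

theorem t23_B00pm_101_s3 : ∃ t, chk3 f_B00pm_101_s3 t 2 1 1 = true := ex3_b t22_B00pm_101_s3 k11_B00pm_101_s3

theorem t24_B00pm_101_s3 : ∃ t, chk3 f_B00pm_101_s3 t 1 1 1 = true := ex3_a t23_B00pm_101_s3 k12_B00pm_101_s3

theorem c_B00pm_101_s3 : CertF 536870912 536870912 536870912 536870912 740881858 40050571 false true false .npn 1 0 1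
    ndB0q1 ndB0q1 pcB0 cut_B00pm_101_s3 xt_B00pm_101_s3 :=
  certF0 (fam := false) (s1 := true) (s2 := false) (a := 1) (b := 0) (c := 1) (cn := .npn) (n1 := ndB0q1) (n2 := ndB0q1) (pc := pcB0) (cut := cut_B00pm_101_s3) (xt := xt_B00pm_101_s3) (P1 := 536870912) (W1 := 536870912) (P2 := 536870912) (W2 := 536870912) (P3 := 740881858) (W3 := 40050571)
    rfl t24_B00pm_101_s3

theorem s_B00pm_101_s3 {κ x : ℝ} (hκ : κ * h0 = ken x) (hx : ((740881858 : ℕ) : ℝ) / S ≤ x)
    (hx' : x ≤ (((740881858 : ℕ) : ℝ) + (40050571 : ℕ)) / S)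
    (H : CutB (VFD κ) PP tK tL pcB (Cut.of [[⟨0, 1, 0, 53687091⟩, ⟨1, 0, 0, 53687091⟩, ⟨2, 1, 0, 53687091⟩], [⟨0, 0, 1, 20971520⟩, ⟨1, 1, 2, 20971520⟩, ⟨2, 1, 0, 33554432⟩]]) 1 0 1 0 0 (sgb true) (sgb false) x) :
    AltB (VFD κ) PP tK tL pcB [⟨4, 0, 0, 2845415833⟩] 1 0 1 0 0 (sgb true) (sgb false) x :=
  strip_altBD (m := 2845415833) false rfl hκ (SH.κ0 hκ (SH.hx1 hx).le (SH.hx2 hx').le) (SH.hx1 hx).le (SH.hx2 hx') (covB01).cov (covB01).cov hx hx' c_B00pm_101_s3 H ((okx hx hx').extB (T := tt) (sideB hx hx') hκ rfl rfl (.O 1 true) (.O 1 false) (Or.inl rfl))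

end Pool.Agent.Strip051.G.I69_7273.Tab.St.C
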