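import Pool.Agent.Strip051.G.I69_7273.StH
import Pool.Agent.Strip051.G.I69_7273.StF

/-! # Unit strips 12 (generated) -/

set_option linter.all false
set_option maxRecDepth 100000

namespace Pool.Agent.Strip051.G.I69_7273.Tab.St.C

open Pool.Agent.Strip051.PB Pool.Agent.Strip051.PB.T Pool.Agent.StripNear Pool.Agent.Strip051.LC
open Pool.Agent.Strip051.G.I69_7273.Tab Pool.Agent.Strip051.G.I69_7273.Tab.St

noncomputable def cut_B00pm_102_s1 : Cut := Cut.of [[⟨4, 0, 0, 1449551462⟩], [⟨0, 1, 0, 53687091⟩, ⟨1, 0, 0, 53687091⟩, ⟨2, 1, 0, 53687091⟩], [⟨0, 0, 1, 20971520⟩, ⟨1, 1, 2, 20971520⟩, ⟨2, 1, 0, 33554432⟩]]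

noncomputable def xt_B00pm_102_s1 : Ext := strExt dd false true false .u0 .u2 .u0m .npp 1 0 2 rfl rfl gf0 vv ndB0q1 ndB0q2

noncomputable def f_B00pm_102_s1 : ℕ → ℕ → ℕ → ℕ → Bool := onCell 536870912 536870912 0 536870912 740881858 40050571
    (rowF 0 false true false .npp 1 0 2 (qsf 536870912 536870912 0 536870912 0) ndB0q1 ndB0q2 pcB0 cut_B00pm_102_s1 xt_B00pm_102_s1)

def k0_B00pm_102_s1 : ∃ t, chk3 f_B00pm_102_s1 t 4 2 1 = true :=
  ⟨(b (l 2) (a (l 2) (b (l 2) (a (l 2) (b (l 2) (a (l 2) (l 16619976))))))), by decide +kernel⟩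

def k1_B00pm_102_s1 : ∃ t, chk3 f_B00pm_102_s1 t 10 2 1 = true :=
  ⟨(b (b (a (a (l 2) (l 3)) (l 3)) (a (a (l 2) (b (c (l 534049295) (l 533964047)) (c (b (b (l 533989903) (l 533991439)) (l 534547215)) (b (b (l 533923855) (l 533923599)) (l 533933327))))) (b (a (b (l 3) (a (l 533803791) (b (l 3) (c (c (l 533668111) (l 533655823)) (l 533655567))))) (l 3)) (b (a (c (a (b (l 533804815) (l 533827087)) (c (l 533709071) (l 533690639))) (a (l 534047503) (a (l 533707279) (l 533652751)))) (c (l 533491727) (l 533522959))) (a (a (c (l 533861647) (l 533804047)) (a (l 533758991) (l 533701135))) (l 533558543)))))) (b (b (b (a (a (l 2) (a (l 16723376) (l 16749936))) (a (a (l 534147087) (l 533770511)) (l 533607695))) (a (a (l 16724176) (c (l 16735480) (l 16753944))) (a (a (l 16742416) (l 16737680)) (l 533651471)))) (a (a (b (a (l 2) (l 16692480)) (l 16676296)) (b (a (l 16697376) (l 16702824)) (a (l 16684880) (l 16689432)))) (a (b (c (l 16732752) (l 16730480)) (a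 (l 16714856) (l 16699568))) (b (l 533690639) (c (l 16729544) (l 16728016)))))) (b (a (a (l 16697352) (l 16707896)) (a (b (a (l 16681376) (l 16707008)) (l 16669512)) (b (a (l 16711160) (l 16696704)) (a (l 16677664) (b (l 16686240) (l 16679616)))))) (a (a (l 16670904) (b (l 16645936) (l 16632680))) (a (b (l 16656344) (l 16643168)) (b (l 16667016) (l 16654032))))))), by decide +kernel⟩

def k2_B00pm_102_s1 : ∃ t, chk3 f_B00pm_102_s1 t 11 4 1 = true :=
  ⟨(b (l 3) (b (l 3) (a (a (c (l 533280271) (l 533358863)) (l 3)) (l 3)))), by decide +kernel⟩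

def k3_B00pm_102_s1 : ∃ t, chk3 f_B00pm_102_s1 t 11 5 1 = true :=
  ⟨(b (a (b (a (c (b (l 533392655) (l 533459983)) (l 533455119)) (c (b (l 533220623) (l 533304335)) (b (l 533297935) (l 533352719)))) (b (a (l 533521679) (a (l 533424399) (l 533377039))) (a (c (l 533581583) (l 533552655)) (b (l 533445647) (c (l 533480207) (l 533464079)))))) (b (a (b (l 3) (l 533255183)) (l 3)) (a (b (l 533336847) (b (l 533396495) (c (l 533505039) (l 533417231)))) (b (a (l 533405199) (l 3)) (c (a (b (l 533567759) (b (l 533600015) (l 533624335))) (b (a (l 533629455) (a (l 533395727) (l 3))) (a (c (l 533734671) (l 533617935)) (a (l 533445391) (l 533736719))))) (a (b (l 533386767) (b (l 533414159) (l 533437455))) (b (a (l 533404687) (c (l 533491215) (l 533382159))) (a (c (l 533501711) (l 533416975)) (a (l 533476879) (l 533493263)))))))))) (a (b (a (b (c (l 533641743) (l 16726848)) (b (l 16716744) (a (l 16685856) (l 16692056)))) (b (c (l 533540879) (l 533510159)) (a (l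 16713856) (c (l 16711704) (l 16710784))))) (a (b (b (a (l 16679224) (l 16686168)) (l 16676168)) (l 16666688)) (b (b (a (l 16692504) (l 16701120)) (a (l 16687240) (l 16693848))) (a (l 16677448) (l 16707240))))) (b (b (a (c (a (l 533542415) (l 533608975)) (a (l 533481743) (l 533483279))) (a (c (b (l 533663247) (l 533717519)) (b (l 533477391) (l 533534223))) (a (c (l 533495823) (l 533545231)) (c (l 533811983) (l 533575183))))) (a (c (a (l 16730864) (l 533711631)) (a (l 16729704) (l 533585167))) (a (c (l 533800463) (l 533619983)) (c (l 533635343) (l 533678351))))) (a (b (c (a (l 16707136) (l 16727424)) (a (l 16705520) (l 16724872))) (a (b (l 16695960) (l 16691048)) (b (l 16705736) (l 16698672)))) (a (b (b (l 16738392) (l 16721584)) (l 16722640)) (b (b (a (l 16735016) (l 16739600)) (l 16731160)) (b (l 16725080) (l 16718880)))))))), by decide +kernel⟩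

def k4_B00pm_102_s1 : ∃ t, chk3 f_B00pm_102_s1 t 2 3 1 = true :=
  ⟨(a (b (l 6) (l 6)) (b (a (b (a (b (a (l 16600312) (l 16610816)) (l 6)) (b (a (l 16621552) (l 16674816)) (a (l 16589904) (l 16602112)))) (l 6)) (b (b (a (a (b (l 16653192) (l 16638832)) (b (l 16668296) (l 16654600))) (a (b (a (l 16680936) (l 16690776)) (l 16672488)) (b (a (b (l 16702088) (l 16696784)) (b (l 16712592) (l 16706176))) (l 16713456)))) (a (a (l 16616640) (l 16675600)) (a (b (l 16659296) (l 16646608)) (b (l 16680200) (l 16668960))))) (b (a (b (l 16603648) (l 16589888)) (a (l 16629656) (b (l 16658928) (l 16650176)))) (a (l 6) (a (b (l 16613680) (l 6)) (b (l 16642096) (l 16634352))))))) (l 6))), by decide +kernel⟩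

def k5_B00pm_102_s1 : ∃ t, chk3 f_B00pm_102_s1 t 3 2 1 = true :=
  ⟨(b (l 3) (a (a (b (a (a (a (b (l 3) (b (l 3) (b (l 3) (l 533401103)))) (l 3)) (l 3)) (l 3)) (a (b (a (c (l 534009871) (l 533744143)) (c (b (l 534230031) (l 534106639)) (a (l 533925903) (l 534074127)))) (a (b (b (c (l 533905935) (l 533912847)) (c (l 533973519) (l 533981199))) (a (b (l 16734472) (l 16728504)) (b (a (l 16741312) (l 16745744)) (l 16737832)))) (b (c (a (b (l 534403343) (l 534478351)) (b (b (c (l 534636559) (l 534485519)) (a (l 534554639) (l 534649615))) (a (l 534613775) (l 534441999)))) (a (b (b (l 534092815) (l 534130959)) (l 534188303)) (b (a (b (l 534210575) (l 534250511)) (b (b (l 534285583) (l 534306063)) (l 534337295))) (a (l 534310927) (l 534130959))))) (a (b (a (l 16750032) (l 16754176)) (l 534162703)) (b (a (l 534524175) (l 534347279)) (a (l 16752928) (l 16759472))))))) (b (a (a (a (a (b (l 3) (l 534422543)) (l 3)) (l 3)) (l 3)) (l 3)) (a (a (b (b (a (c (b (a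 (l 534682639) (b (l 534722831) (l 534743823))) (l 534749711)) (b (a (c (l 534444815) (l 534281487)) (b (l 534400015) (l 534421519))) (a (l 534406159) (l 534453775)))) (c (l 534833423) (b (l 534483983) (l 534528271)))) (a (a (l 534361615) (l 534677519)) (l 534487823))) (a (b (l 534441999) (l 534734607)) (b (l 534537999) (l 534824719)))) (a (b (b (l 3) (b (l 534827279) (c (l 534766863) (l 534706191)))) (b (a (l 534608911) (l 534923279)) (l 534916111))) (b (b (l 3) (b (l 3) (l 535010831))) (l 535037967)))) (b (l 3) (a (c (l 535134223) (l 535062287)) (b (l 3) (a (l 535152143) (l 535258639))))))))) (l 3)) (l 3))), by decide +kernel⟩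

def k6_B00pm_102_s1 : ∃ t, chk3 f_B00pm_102_s1 t 24 12 1 = true :=
  ⟨(b (a (b (a (l 16719488) (b (l 16732088) (l 16726360))) (a (b (l 16710544) (l 16704672)) (b (l 16720384) (l 16715368)))) (b (a (b (l 16741256) (l 16735856)) (b (a (l 16747736) (l 16751816)) (l 16749984))) (a (b (l 16730536) (l 16724832)) (b (l 16739776) (l 16735016))))) (a (b (l 16701456) (l 16690968)) (b (a (b (a (l 16718128) (l 16722920)) (l 16715056)) (b (a (l 16727504) (l 16732928)) (a (l 16723720) (l 16728904)))) (a (l 16707736) (l 16718960))))), by decide +kernel⟩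

def k7_B00pm_102_s1 : ∃ t, chk3 f_B00pm_102_s1 t 25 12 1 = true :=
  ⟨(b (a (a (b (a (b (l 534755855) (l 16750896)) (b (l 534841615) (l 16754768))) (a (b (l 16746264) (l 16741832)) (b (l 16750392) (l 16746208)))) (b (a (b (l 534947599) (l 534705935)) (b (l 535075599) (l 535104015))) (a (b (l 16754472) (l 16750528)) (b (l 535134735) (l 16754664))))) (b (b (a (l 534996751) (c (l 535382799) (l 535053327))) (a (c (l 535176207) (l 534860303)) (b (a (l 535449103) (l 535280655)) (a (l 535458575) (l 535287823))))) (a (b (c (l 535196687) (l 534891023)) (a (l 535017231) (l 535126031))) (b (a (c (l 535624719) (l 535319311)) (b (l 535295503) (l 535303695))) (a (c (l 535639567) (l 535346703)) (c (l 535728143) (l 535439631))))))) (a (b (a (b (l 16739960) (a (l 16733352) (l 16738712))) (a (b (l 16746784) (l 16743424)) (b (l 16751120) (l 16747936)))) (a (b (a (l 16729840) (b (l 16715184) (l 16734152))) (l 16728048)) (b (a (b (l 16741176) (l 16729200)) (l 16745000))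 (a (l 16736624) (b (l 16732760) (l 16741208)))))) (b (a (b (a (l 16755056) (l 535153935)) (a (l 16752040) (l 16755696))) (b (a (l 535249423) (a (l 535315215) (l 535356175))) (a (l 535288079) (c (l 16758240) (l 16760184))))) (a (b (a (l 16749440) (l 16742736)) (a (b (l 16726488) (a (l 16745432) (l 16726616))) (b (l 16751608) (a (l 16728456) (l 16751568))))) (b (a (l 535339023) (a (l 16748384) (l 16749792))) (a (l 16733616) (l 16747176))))))), by decide +kernel⟩

def k8_B00pm_102_s1 : ∃ t, chk3 f_B00pm_102_s1 t 12 13 1 = true :=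
  ⟨(b (a (a (b (l 16681672) (l 16673584)) (b (l 16704616) (l 16697088))) (b (a (a (l 16721984) (b (l 16735424) (l 16731696))) (a (b (a (l 16743560) (b (a (l 16748416) (l 16729584)) (l 16747536))) (l 16742432)) (b (a (b (a (l 16731192) (l 16754120)) (a (l 16751048) (l 16742736))) (b (l 16756416) (b (l 16755856) (a (l 16754640) (l 16756160))))) (a (l 16749416) (b (a (l 16753424) (b (l 16734832) (l 16754976))) (l 16752736)))))) (a (a (l 16714872) (l 16726688)) (a (b (l 16697184) (l 16736024)) (b (l 16737832) (l 16724328)))))) (a (b (a (l 16666056) (l 16690096)) (a (l 16658496) (l 16683368))) (a (a (b (l 16708280) (l 16701912)) (b (l 16678384) (l 16714168))) (b (a (l 16710448) (a (l 16696688) (l 16721952))) (a (l 16683496) (c (l 16738256) (l 16689824))))))), by decide +kernel⟩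

def k9_B00pm_102_s1 : ∃ t, chk3 f_B00pm_102_s1 t 26 24 1 = true :=
  ⟨(a (b (b (a (a (l 535364111) (l 3)) (l 3)) (b (a (a (b (l 535638543) (a (l 535619599) (l 535662351))) (a (c (l 535855887) (l 535310351)) (b (l 3) (l 535741199)))) (l 3)) (a (a (a (l 535623951) (b (l 535664655) (l 535667215))) (a (l 535470863) (l 535743247))) (a (l 535526671) (l 3))))) (b (a (a (a (b (l 535630095) (l 535636495)) (l 535405327)) (a (l 535443471) (l 535747855))) (a (c (l 535935503) (l 535657487)) (c (l 535987215) (l 535721999)))) (a (a (b (l 535394575) (l 535401231)) (b (l 535467791) (l 535472143))) (a (c (l 535930895) (l 535670543)) (c (l 536246031) (l 535731727)))))) (a (b (l 3) (c (a (b (c (l 536090127) (l 535966223)) (c (l 536071439) (l 535956751))) (b (l 3) (c (l 536093455) (l 535987727)))) (a (b (c (l 535841551) (l 535715855)) (c (l 535842063) (l 535727375))) (b (l 3) (c (l 535882511) (l 535777807)))))) (l 3))), by decide +kernel⟩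

def k10_B00pm_102_s1 : ∃ t, chk3 f_B00pm_102_s1 t 52 25 1 = true :=
  ⟨(b (a (a (b (a (l 535394831) (l 535431183)) (b (l 535436303) (l 535457295))) (b (c (b (l 535874831) (l 535880975)) (l 535353103)) (c (b (l 535894543) (l 16762112)) (l 535658767)))) (b (b (c (a (l 535928335) (l 535971599)) (l 535443215)) (c (a (l 535933199) (l 535975695)) (a (l 535694095) (l 535751951)))) (b (c (a (l 535946255) (l 535989263)) (l 535474191)) (c (a (l 535964175) (l 536007439)) (a (l 535735311) (l 535793935)))))) (a (b (a (c (l 16753424) (l 16755320)) (b (c (l 16766440) (l 16763712)) (l 16758864))) (a (c (l 16762296) (l 16758464)) (c (l 16764456) (l 16750656)))) (b (b (c (a (l 16763040) (l 536027919)) (l 535521295)) (c (a (l 16767464) (l 16763872)) (l 535547151))) (a (c (l 16761104) (l 16758296)) (b (a (l 16766800) (l 16762456)) (l 16761216)))))), by decide +kernel⟩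

def k11_B00pm_102_s1 : ∃ t, chk3 f_B00pm_102_s1 t 53 25 1 = true :=
  ⟨(b (a (a (b (b (c (b (l 536005647) (l 536003599)) (b (l 535789071) (l 535792143))) (a (c (l 536001807) (l 535790863)) (c (l 536016911) (l 535814927)))) (c (b (a (l 536016911) (l 536033295)) (l 536043535)) (b (l 536092175) (l 535846671)))) (a (b (b (b (l 535922703) (c (l 536022031) (l 535824911))) (c (b (l 536026895) (l 536035087)) (l 535837967))) (b (c (l 536049167) (l 535860751)) (c (l 536069903) (l 535885583)))) (b (b (b (c (l 536033295) (l 535841807)) (c (a (l 536029711) (l 536302095)) (c (l 535889167) (l 535797519)))) (a (c (l 536040975) (l 535855375)) (b (l 535951631) (a (l 535960335) (l 535964687))))) (b (a (l 536237839) (l 536245775)) (c (l 536081167) (l 535906831)))))) (c (a (b (a (b (b (a (a (l 536037903) (b (l 3) (l 536037391))) (c (l 536348431) (l 535990287))) (a (a (l 536039695) (l 536041999)) (l 536038415))) (a (b (l 536048911) (l 536055567)) (l 536049167))) (b (b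 (l 3) (l 536032015)) (l 536042767))) (a (a (l 536074255) (l 536070671)) (l 536064783))) (b (b (l 3) (l 536030991)) (l 536053775))) (b (b (a (a (b (a (a (l 535853071) (l 535855631)) (l 535858703)) (a (l 535862287) (l 535865871))) (b (l 3) (l 535870735))) (l 3)) (a (a (a (l 535876623) (l 535880719)) (l 535885583)) (l 535896079))) (a (a (a (l 535906575) (l 535910415)) (l 535915535)) (l 535926543))))) (a (b (a (b (c (l 536065039) (l 535872271)) (c (l 536086543) (l 535897615))) (a (b (l 535998735) (l 536018959)) (b (l 536011791) (l 536029967)))) (a (c (b (l 16764608) (l 16769136)) (b (l 16762832) (l 16767192))) (c (b (l 536126735) (l 16765120)) (b (l 535963151) (l 16763640))))) (b (a (b (a (l 536015887) (l 536015631)) (c (l 536105999) (l 535963663))) (b (l 536016143) (l 536034831))) (a (c (l 536129039) (l 535995407)) (c (l 536117775) (l 536012047)))))), by decide +kernel⟩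

def k12_B00pm_102_s1 : ∃ t, chk3 f_B00pm_102_s1 t 27 12 1 = true :=
  ⟨(b (l 3) (a (b (a (b (l 3) (a (c (l 536041487) (l 535942415)) (a (l 536260879) (l 3)))) (l 3)) (a (b (a (b (b (l 536013839) (l 536023311)) (a (l 536036879) (l 536038927))) (b (a (l 536021519) (b (l 536019215) (l 536029199))) (a (b (l 536036367) (l 536046351)) (a (l 536043535) (l 536045327))))) (a (b (c (l 536100111) (l 536018959)) (l 536077327)) (a (l 536071695) (l 536075279)))) (b (b (l 3) (a (l 536049679) (l 3))) (a (l 536081167) (l 536091151))))) (b (l 3) (a (b (l 3) (a (l 536102927) (l 3))) (l 3))))), by decide +kernel⟩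

def k13_B00pm_102_s1 : ∃ t, chk3 f_B00pm_102_s1 t 26 26 1 = true :=
  ⟨(b (a (a (b (a (l 16748328) (l 16750776)) (a (b (a (b (l 16757160) (l 16735920)) (l 16737272)) (a (l 16755616) (l 16747168))) (b (l 16760264) (a (b (l 16759032) (l 16737880)) (l 16749480))))) (b (c (c (l 16761392) (l 16759912)) (a (l 16761848) (l 16753552))) (a (l 16751656) (c (l 16765544) (l 16762584))))) (a (b (a (c (l 16757648) (l 16760728)) (c (l 536166671) (c (l 16768064) (l 16756760)))) (a (c (l 16766920) (l 16764520)) (c (l 16768048) (l 16755704)))) (b (a (c (l 536161039) (l 536039439)) (c (l 536151311) (l 536057103))) (a (c (l 16758488) (l 16762392)) (c (l 16764616) (l 536103951)))))) (a (b (a (a (l 16733224) (b (a (l 16757552) (l 16738448)) (l 16756880))) (b (a (b (a (l 16739736) (l 16761920)) (a (l 16760504) (l 16740496))) (l 16763184)) (a (l 16749712) (b (a (l 16741208) (l 16763224)) (a (l 16761856) (l 16741864)))))) (a (c (l 16755392) (l 16750648)) (a (l 16736872)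 (b (l 16761424) (l 16759912))))) (a (b (c (l 16755944) (c (l 16754232) (l 16753136))) (b (a (b (a (l 16742448) (l 16764272)) (a (l 16762856) (l 16742960))) (l 16754552)) (a (l 16762376) (a (b (l 16753880) (l 16763672)) (b (l 16764912) (l 16743752)))))) (a (b (c (l 16767840) (l 16766416)) (b (l 16766296) (a (l 16744296) (l 16766008)))) (b (l 536185615) (l 536224783)))))), by decide +kernel⟩

def k14_B00pm_102_s1 : ∃ t, chk3 f_B00pm_102_s1 t 26 27 1 = true :=
  ⟨(b (a (a (b (l 16729096) (l 16726168)) (b (b (l 16736136) (l 16734688)) (c (l 16755504) (l 16730616)))) (b (a (a (l 16749768) (l 16741464)) (a (b (b (a (l 16744032) (l 16765376)) (a (l 16764216) (l 16765248))) (l 16763624)) (b (a (l 16755200) (l 16766504)) (b (c (l 16745144) (l 16754760)) (l 16744344))))) (a (c (l 16759896) (l 16736312)) (c (l 16763176) (l 16740920))))) (b (a (a (l 16723304) (c (l 16752784) (l 16727728))) (a (l 16745304) (c (l 16760520) (l 16759120)))) (a (a (l 16720568) (c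 (l 16750184) (l 16745944))) (a (l 16732176) (l 16736192))))), by decide +kernel⟩

def k15_B00pm_102_s1 : ∃ t, chk3 f_B00pm_102_s1 t 27 13 1 = true :=
  ⟨(b (a (b (a (a (b (c (l 536144143) (l 536076303)) (l 536150287)) (b (c (l 536139535) (l 536096783)) (l 536159247))) (c (l 536156687) (a (l 536143375) (l 536167183)))) (a (a (b (l 536194319) (l 536234767)) (b (l 536204815) (l 536246287))) (b (c (l 536221199) (l 536233743)) (c (l 536259343) (l 536281359))))) (b (a (c (l 536164111) (l 536205071)) (l 535948815)) (b (a (l 536257295) (l 536567567)) (a (c (l 536273935) (l 536336143)) (a (l 536330511) (l 536089615)))))) (b (a (b (a (a (b (l 16767312) (b (l 16766848) (a (l 16766080) (l 16766808)))) (l 16757608)) (c (l 16759040) (l 536306191))) (a (b (a (b (c (l 16745400) (l 16755528)) (l 16765656)) (b (l 16767296) (a (l 16766568) (l 16767256)))) (a (l 16764456) (b (a (l 16766240) (l 16766816)) (l 16765952)))) (a (b (l 16768208) (b (l 16767728) (a (l 16767056)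 (l 16767680)))) (l 16758448)))) (a (b (a (l 536309775) (l 536324367)) (c (l 16759544) (l 536364815))) (a (b (l 536338447) (l 536341775)) (b (l 536350735) (l 537153039))))) (a (a (b (c (l 16763504) (l 16763288)) (l 16739792)) (b (b (a (b (a (l 16766512) (l 16767296)) (l 16766272)) (b (l 16768056) (a (l 16767536) (l 16767976)))) (a (l 16765296) (b (l 16757048) (l 16766664)))) (c (l 16764008) (l 16764640)))) (b (a (a (b (l 16769000) (a (a (l 16746952) (l 16747072)) (l 16768424))) (l 16759192)) (a (l 536346127) (l 536359439))) (a (b (a (a (l 16766976) (l 16747088)) (b (l 16747720) (c (l 16767888) (l 16748368)))) (a (l 16766152) (l 16757616))) (a (b (l 16769760) (a (a (l 16747896) (l 16747992)) (l 16758680))) (l 16759960))))))), by decide +kernel⟩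

def k16_B00pm_102_s1 : ∃ t, chk3 f_B00pm_102_s1 t 12 7 1 = true :=
  ⟨(b (a (b (b (a (l 16653112) (a (l 16670928) (l 16599232))) (a (l 6) (l 16673088))) (l 6)) (b (a (b (a (l 16696072) (l 16666712)) (a (l 16671752) (b (c (l 16710032) (l 16659080)) (l 16704184)))) (b (a (c (l 16724056) (l 16674240)) (b (l 16730976) (l 16707688))) (a (b (l 16696192) (a (l 16671680) (b (l 16687728) (c (l 16722776) (l 16714536))))) (a (b (l 16724792) (a (b (c (l 16685176) (b (l 16719408) (l 16687616))) (c (l 16726816) (l 16677200))) (b (l 16725408) (c (l 16729088) (l 16690312))))) (b (l 16729256) (b (l 16728728) (c (l 16731912) (c (l 16726744) (l 16702456))))))))) (a (b (a (l 16690184) (b (l 16703032) (b (l 16702488) (l 6)))) (l 6)) (b (c (a (a (l 16674776) (l 16680232)) (c (l 16731384) (l 16685464))) (a (b (c (l 16712704) (l 16666296)) (l 16688776)) (b (c (l 16723744) (l 16678128)) (l 16679608)))) (c (c (l 16686576) (l 16681992)) (c (b (l 16676712) (l 16678336)) (a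 (l 16666616) (l 16679264)))))))) (l 6)), by decide +kernel⟩

def k17_B00pm_102_s1 : ∃ t, chk3 f_B00pm_102_s1 t 13 28 1 = true :=
  ⟨(a (a (b (a (c (l 16719744) (c (l 16715408) (l 16723112))) (b (l 16703584) (l 16701360))) (a (b (l 16693240) (c (l 16695360) (c (l 16690904) (l 16688080)))) (c (l 16743792) (l 16697312)))) (a (b (c (l 16709184) (l 16737576)) (c (l 16748320) (l 16703288))) (b (c (l 16712552) (l 16742360)) (c (l 16751712) (l 16708152))))) (b (a (a (b (l 16737400) (l 16756224)) (b (l 16740896) (l 16759736))) (b (a (c (l 16764648) (l 16765960)) (b (a (l 16747488) (c (c (l 16747248) (l 16753248)) (b (l 16770480) (l 16749544)))) (a (l 16767064) (l 16768808)))) (a (l 16742120) (c (l 16765448) (l 16767288))))) (a (c (l 16735248) (b (l 16714760) (l 16714400))) (a (c (l 16760720) (l 16741232)) (b (l 16743816) (l 16764152)))))), by decide +kernel⟩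

def k18_B00pm_102_s1 : ∃ t, chk3 f_B00pm_102_s1 t 13 29 1 = true :=
  ⟨(a (b (c (a (b (a (b (l 16706320) (l 16737576)) (b (l 16743528) (l 16702224))) (c (l 16742584) (l 16697872))) (b (a (l 16748192) (l 16751920)) (a (b (l 16707384) (l 16749592)) (b (l 16752472) (l 16711568))))) (a (a (b (b (a (l 16698512) (l 16702296)) (l 16689640)) (l 16689648)) (b (b (l 16697168) (a (l 16696288) (l 16699352))) (l 16698016))) (b (a (l 16724352) (l 16750568)) (a (b (c (l 16705280) (l 16704112)) (l 16747000)) (b (l 16751328) (l 16731576)))))) (a (c (c (l 16702376) (l 16699704)) (c (b (l 16696240) (l 16698192)) (a (l 16690120) (l 16699296)))) (c (c (l 16711808) (l 16710984)) (c (b (l 16709296) (l 16711536)) (a (l 16706896) (l 16713112)))))) (b (a (a (a (b (l 16753920) (l 16734016)) (l 16756344)) (l 16737968)) (a (b (l 16761560) (l 16762528)) (l 16743520))) (a (b (b (a (c (l 16715544) (l 16716200)) (a (l 16760104) (l 16761856))) (a (l 16737552) (c (l 16729872) (a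 (l 16720840) (l 16763792))))) (c (a (l 16717648) (l 16720408)) (a (a (l 16760056) (l 16720424)) (a (l 16722160) (l 16765344))))) (b (a (l 16763568) (l 16766048)) (a (b (l 16744328) (l 16766000)) (b (l 16767000) (l 16747240))))))), by decide +kernel⟩

def k19_B00pm_102_s1 : ∃ t, chk3 f_B00pm_102_s1 t 13 15 1 = true :=
  ⟨(a (a (b (b (c (c (l 16706544) (l 16704440)) (c (l 16713032) (b (l 16699032) (l 16702920)))) (l 6)) (l 6)) (a (b (b (c (l 16713944) (l 16734456)) (b (a (l 16717688) (b (l 16761464) (l 16732064))) (l 6))) (l 6)) (b (b (c (b (l 16758528) (l 16719320)) (a (l 16718136) (b (l 16760904) (l 16722776)))) (b (c (l 16722008) (c (l 16724208) (l 16736656))) (l 16726200))) (b (c (l 16770376) (l 16732616)) (l 6))))) (b (a (b (a (c (a (l 16720208) (l 16721432)) (b (c (l 16721464) (l 16723016)) (l 16735512))) (l 16745256)) (c (l 16726032) (l 16740216))) (b (c (l 16767776) (l 16728960)) (c (l 16771472) (l 16733128)))) (b (a (c (a (l 16771952) (l 16773512))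 (c (l 16775616) (l 16736168))) (c (a (l 16775000) (l 16776408)) (a (l 16778880) (l 16780032)))) (b (a (a (l 6) (l 16779128)) (c (l 16779112) (l 16782744))) (a (l 6) (c (l 16781584) (l 16805976))))))), by decide +kernel⟩

def k20_B00pm_102_s1 : ∃ t, chk3 f_B00pm_102_s1 t 7 6 1 = true :=
  ⟨(b (l 3) (a (a (b (a (b (l 3) (a (b (a (b (l 536322575) (l 536078095)) (l 536120847)) (a (b (l 536080143) (l 536085775)) (b (l 536404751) (l 536405519)))) (b (l 3) (a (l 536452367) (l 3))))) (l 3)) (a (b (a (a (b (a (l 536356367) (l 536371727)) (l 536370703)) (b (l 536407055) (l 536409615))) (c (l 536382479) (l 536808975))) (a (a (c (l 536325135) (l 536454671)) (l 536681743)) (c (l 536365839) (l 536791311)))) (a (b (c (l 536393231) (l 536569871)) (c (l 536350991) (l 537059343))) (b (l 3) (a (l 536395279) (l 536357391)))))) (b (l 3) (a (a (b (l 3) (a (l 536309263) (a (l 536267279) (l 3)))) (l 3)) (l 3)))) (l 3))), by decide +kernel⟩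

def k21_B00pm_102_s1 : ∃ t, chk3 f_B00pm_102_s1 t 28 14 1 = true :=
  ⟨(b (a (b (b (a (a (b (l 16770624) (c (c (l 16747640) (l 16753712)) (a (l 16749984) (l 16760664)))) (l 536418575)) (l 536695823)) (b (a (a (l 16769136) (c (c (l 16748008) (l 16754136)) (a (l 16750512) (l 16761120)))) (a (l 16760656) (l 16771880))) (b (a (l 16758536) (a (a (l 16770664) (l 16770880)) (l 16771424))) (a (l 16768560) (a (a (l 16770192) (l 16770776)) (l 16770992)))))) (b (a (l 16757168) (a (l 16769504) (b (a (b (l 16770864) (l 16770392)) (b (l 16770872) (l 16770936))) (l 16770120)))) (a (l 16766832) (l 16758560)))) (b (b (a (c (l 536322319) (l 536489999)) (a (l 536350991) (l 536305423))) (a (c (l 536304655) (l 536738319)) (a (l 536324367) (c (l 536197391) (l 536364815))))) (a (b (b (a (a (l 16760416) (l 16771368)) (l 16771648)) (b (a (a (l 16770992) (l 16770856)) (l 16771328)) (a (l 16760528) (a (l 16770856) (l 16771224))))) (a (l 16770152) (b (a (l 16760592) (b (l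 16770856) (l 16771096))) (l 16770504)))) (a (b (l 536336911) (b (a (b (l 16771216) (l 16760368)) (l 16771288)) (b (a (l 16771120) (l 16760384)) (l 16771112)))) (b (l 536289551) (b (l 16771552) (a (b (l 16771200) (l 16760400)) (l 16771288)))))))) (a (b (a (b (l 16766720) (l 16767224)) (b (l 16768792) (l 16769136))) (a (b (l 16768240) (l 16748336)) (b (l 16769968) (l 16771192)))) (b (a (b (c (l 16768944) (l 16771304)) (l 16770200)) (b (a (l 16770592) (b (b (a (l 16771136) (l 16760432)) (l 16771128)) (l 16770792))) (c (l 16769688) (l 16771960)))) (a (b (l 16770848) (l 16771856)) (b (l 16771176) (l 16771952)))))), by decide +kernel⟩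

def k22_B00pm_102_s1 : ∃ t, chk3 f_B00pm_102_s1 t 29 28 1 = true :=
  ⟨(a (b (a (b (a (l 536250127) (c (b (l 536118543) (l 536098575)) (l 536277007))) (a (b (l 536221711) (l 536211727)) (a (b (l 536172047) (l 536163343)) (b (l 536136463) (l 536129551))))) (b (a (b (l 3) (a (a (l 536130319) (l 536111375)) (l 536081935))) (l 3)) (a (b (l 536079119) (a (l 536095759) (c (a (l 536000271) (l 536002575)) (l 536175887)))) (c (b (a (b (l 3) (l 536202511)) (l 3)) (a (l 535952399) (l 535885839))) (b (a (l 536088079) (l 3)) (l 536072463)))))) (a (a (b (c (l 536161551) (l 536326159)) (c (l 536217103) (l 16767416))) (a (b (l 536197135) (l 536263439)) (b (l 536706319) (l 536512015)))) (c (a (a (b (l 536335631) (l 536139279)) (b (c (l 536017167) (l 536082447)) (l 536105487))) (b (a (l 535992591) (l 535936527)) (c (l 536006159) (l 536069391)))) (a (b (a (l 536226831) (l 536206351)) (b (l 536268303) (l 16768064))) (b (l 536116239) (l 536189967)))))) (c (a (a (b (b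 (l 3) (b (l 3) (l 535801359))) (c (b (l 535836431) (l 535930895)) (b (l 535895311) (l 535991055)))) (b (l 3) (c (b (a (l 535782927) (l 535755791)) (a (l 535894287) (l 535877391))) (b (l 535823375) (l 535941391))))) (b (l 3) (b (l 3) (b (a (a (l 535859983) (l 3)) (l 3)) (a (a (l 535906319) (l 535851791)) (a (l 535794447) (l 3))))))) (b (a (b (l 3) (a (b (l 3) (l 535944975)) (l 3))) (l 3)) (b (a (a (l 536009487) (l 535932943)) (l 3)) (a (a (l 536107023) (l 536053263)) (a (l 536523791) (l 535880207))))))), by decide +kernel⟩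

def k23_B00pm_102_s1 : ∃ t, chk3 f_B00pm_102_s1 t 58 29 1 = true :=
  ⟨(b (b (a (a (b (a (b (l 16771232) (l 16760480)) (l 16771336)) (a (l 16771152) (b (l 16760528) (l 16771160)))) (a (b (l 16771560) (b (l 16771288) (a (l 16771192) (l 16771008)))) (l 536304911))) (a (a (l 536279311) (l 536248847)) (c (c (l 536090639) (l 536155151)) (l 536277007)))) (a (a (l 16760480) (b (a (l 16771176) (b (a (l 16760784) (l 16760592)) (l 16771184))) (l 16771120))) (a (b (b (l 536313103) (a (a (l 16760880) (a (l 16760720) (l 16771160))) (l 16771384))) (a (l 16771240) (b (c (c (a (l 16770280) (l 16775352)) (l 16776200)) (l 16772352)) (l 16771336)))) (b (c (l 536195087) (l 16772576)) (a (b (c (l 16770656) (l 16772312)) (a (b (l 16771480) (l 16771424)) (b (l 16771424) (a (l 16771576) (l 16771512))))) (c (b (l 16771072) (a (l 16770752) (l 16770984))) (l 16772360))))))) (a (a (b (l 16771264) (l 16771864)) (b (l 16771304) (l 16771752))) (a (b (b (l 16771328) (l 16771408))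 (c (l 16770440) (l 16772328))) (b (b (a (l 16771424) (b (c (a (b (l 16770880) (l 16770712)) (b (l 16770640) (l 16770648))) (l 16761952)) (l 16771160))) (c (l 16770168) (l 16771864))) (b (l 16770544) (l 16770312)))))), by decide +kernel⟩

def k24_B00pm_102_s1 : ∃ t, chk3 f_B00pm_102_s1 t 59 58 1 = true :=
  ⟨(a (c (c (a (b (l 536305935) (a (l 536143887) (l 536097295))) (b (a (l 536000527) (l 535958287)) (a (l 536037903) (l 535980303)))) (a (b (l 536099343) (l 536175887)) (b (l 536299279) (l 536063247)))) (a (b (l 536217103) (l 536293135)) (b (l 536142607) (l 536171279)))) (c (c (a (b (a (l 535902991) (l 535848207)) (a (l 535928591) (c (l 535872527) (l 535893007)))) (b (a (c (l 535789327) (l 535809551)) (b (l 535744527) (l 535768591))) (b (a (l 535831311) (l 535793935)) (a (l 535854351) (l 535821327))))) (a (b (l 535926031) (l 535952911)) (b (a (l 535845903) (l 535799311)) (b (l 535854863) (l 535878671))))) (a (b (l 536028687) (l 536050959)) (b (l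 535913999) (c (l 535921167) (l 535989519)))))), by decide +kernel⟩

def k25_B00pm_102_s1 : ∃ t, chk3 f_B00pm_102_s1 t 118 59 1 = true :=
  ⟨(c (b (a (b (a (a (b (l 16770392) (b (l 16770344) (l 16770088))) (b (l 16770488) (b (l 16770032) (c (l 16769784) (l 16770408))))) (a (b (l 16770464) (b (l 16770128) (l 16775024))) (l 16770264))) (a (l 16769688) (b (a (b (c (l 16769560) (l 16770160)) (l 16769592)) (a (b (l 16769608) (l 16769560)) (b (l 16769696) (l 16769576)))) (l 16769376)))) (b (c (l 536022543) (l 16775936)) (a (b (a (a (b (l 16769720) (l 16769432)) (l 16769632)) (l 16769704)) (a (a (l 16769296) (b (l 16772040) (l 16769224))) (b (c (a (l 16769040) (l 16769120)) (l 16769520)) (c (a (l 16768960) (l 16769048)) (l 16769608))))) (b (l 16769888) (a (a (b (l 16769440) (a (l 16769192) (l 16769152))) (l 16769328)) (l 16769496)))))) (a (b (l 16769192) (l 16768976)) (b (a (l 16769000) (b (a (a (l 16769048) (a (l 16769144) (b (l 16769168) (l 16769008))))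 (b (a (b (l 16769120) (l 16769120)) (l 16769128)) (a (l 16769016) (b (l 16769096) (l 16769000))))) (l 16768904))) (c (l 16768544) (l 16769024))))) (b (b (a (a (b (l 16771824) (l 16761288)) (b (l 16771784) (l 16771192))) (l 536179727)) (a (a (l 16771224) (a (l 16771264) (b (l 16770992) (l 16770736)))) (a (b (a (l 16770752) (l 16770936)) (a (l 16770816) (b (l 16770520) (l 16770624)))) (b (l 16770992) (a (l 16770376) (l 16770624)))))) (a (l 16770528) (b (a (l 16770296) (b (a (l 16770464) (b (l 16770224) (l 16770328))) (l 16770104))) (l 16770000))))), by decide +kernel⟩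

def k26_B00pm_102_s1 : ∃ t, chk3 f_B00pm_102_s1 t 119 118 1 = true :=
  ⟨(c (a (a (b (l 535975695) (l 535993103)) (b (l 535934479) (l 535956239))) (a (b (l 535898895) (l 535924751)) (b (l 536002575) (a (l 535905039) (l 535893263))))) (a (l 536348175) (c (l 535969295) (l 536034575)))), by decide +kernel⟩

def k27_B00pm_102_s1 : ∃ t, chk3 f_B00pm_102_s1 t 119 119 2 = true :=
  ⟨(a (b (c (b (a (a (b (l 16769120) (a (b (l 16768840) (l 16768864)) (l 16768856))) (l 16769216)) (l 16769576)) (a (a (b (a (l 16768752) (b (l 16768848) (l 16768760))) (l 16768704)) (b (a (b (l 16768808) (l 16768848)) (l 16768840)) (a (l 16768744) (b (l 16768848) (l 16768760))))) (a (b (l 16769096) (a (b (l 16768808) (l 16768864)) (b (l 16768992) (l 16768816)))) (l 16769240)))) (a (b (a (b (l 16769552) (l 16774488)) (l 16769616)) (a (l 16769336) (b (a (l 16769248) (l 16769248)) (l 16769296)))) (b (l 16769936) (a (b (l 16769488) (a (l 16769240) (l 16769232))) (l 16769608)))))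 (a (l 16768824) (b (a (a (l 16768920) (b (b (l 16769056) (l 16768968)) (l 16768936))) (b (c (a (b (l 16768840) (l 16768896)) (b (l 16769024) (l 16768864))) (a (l 16769264) (l 16769248))) (c (a (l 16768800) (l 16768936)) (l 16769304)))) (l 16768912)))) (b (c (a (l 535934479) (l 535913743)) (l 535961103)) (c (a (b (a (b (l 16769184) (a (b (c (l 16768824) (l 16768976)) (l 16768960)) (a (b (l 16769048) (l 16768936)) (l 16769024)))) (l 16769368)) (b (a (l 16768984) (a (b (a (l 16768984) (l 16769016)) (l 16769040)) (a (b (l 16769128) (l 16769032)) (l 16769096)))) (a (l 16768880) (l 16769064)))) (b (l 16769848) (a (b (l 16769352) (b (a (a (l 16769096) (l 16769112)) (l 16769280)) (a (l 16769136) (a (l 16769160) (l 16769168))))) (l 16769584)))) (a (b (a (b (l 16769528) (a (l 16769312) (l 16769288))) (l 16769696)) (b (a (l 16769344) (a (l 16769384) (l 16769360))) (l 16769360))) (b (l 16770136) (a (b (l 16769664) (a (l 16769480) (l 16769456))) (l 16769872))))))),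 by decide +kernel⟩

def k28_B00pm_102_s1 : ∃ t, chk3 f_B00pm_102_s1 t 119 119 3 = true :=
  ⟨(a (b (a (b (a (b (l 16770416) (l 16770128)) (l 16770432)) (a (l 16770224) (b (l 16770056) (l 16770152)))) (b (l 16770664) (a (b (l 16770280) (l 16770024)) (l 16770352)))) (a (l 16769920) (b (a (l 16770104) (b (l 16770008) (l 16770088))) (l 16769920)))) (b (l 536041487) (a (b (a (b (l 16770256) (l 16770024)) (l 16770376)) (a (l 16770096) (b (l 16770072) (l 16770120)))) (b (l 16770744) (a (b (l 16770328) (l 16770136)) (l 16770496)))))), by decide +kernel⟩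

def k29_B00pm_102_s1 : ∃ t, chk3 f_B00pm_102_s1 t 28 15 1 = true :=
  ⟨(b (b (a (b (a (b (c (l 16769696) (l 16730680)) (l 16771680)) (b (l 16772016) (c (l 16771752) (l 16732760)))) (c (l 16772056) (l 16733232))) (b (a (a (l 16772664) (l 16773008)) (l 16772832)) (a (b (c (l 16730776) (l 16754560)) (l 16774496)) (b (l 16773208) (a (l 16774424) (l 16752392)))))) (a (c (a (l 16773984) (l 16775000)) (b (l 16734904) (l 16736624))) (c (a (l 16775000) (l 16774224)) (c (l 16745064) (l 16746664))))) (a (b (a (c (l 16777728) (l 16781056)) (c (l 16778440) (l 16781400))) (a (b (l 16782152) (l 16784192)) (b (l 16782376) (c (l 16783272) (l 16785480))))) (b (a (c (l 16778136) (l 16780664)) (c (l 16777056) (l 16779104))) (a (b (l 16802552) (c (l 16782536) (l 16784144))) (b (c (l 16779376) (l 16780848)) (c (l 16781024) (l 16781984))))))), by decide +kernel⟩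

def k30_B00pm_102_s1 : ∃ t, chk3 f_B00pm_102_s1 t 29 30 1 = true :=
  ⟨(a (b (a (b (a (l 16772496) (l 16771992)) (a (l 16772664) (l 16772232))) (b (a (l 16771152) (c (l 16769480) (l 16771120))) (a (l 16771384) (l 16770464)))) (b (a (b (a (l 16794768) (c (l 16771480) (l 16773584))) (l 16773520)) (b (a (l 16771584) (l 16770888)) (a (b (l 16772192) (l 16772328)) (a (l 16792408) (l 16791736))))) (a (l 16774344) (c (l 16771704) (l 16773304))))) (b (b (a (a (c (l 16774152) (l 16770328)) (c (b (l 16768704) (l 16768744)) (l 16769928))) (a (c (b (c (l 16771256) (l 16769024)) (l 16768856)) (b (l 16769848) (l 16769896))) (c (a (b (c (l 16768912) (l 16769256)) (l 16769120)) (b (b (b (a (l 16769312) (c (b (a (a (l 16769224) (l 16769232)) (l 16769400)) (a (l 16769256) (a (l 16769296) (l 16769304)))) (b (l 16769544) (l 16769624)))) (l 16769352)) (l 16769320)) (l 16769360))) (b (a (l 16769984) (b (b (a (l 16770168) (l 16770232)) (l 16770184)) (l 16770144))) (l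 16770096))))) (a (a (c (l 16769176) (l 16770608)) (c (l 16768992) (l 16770216))) (a (c (b (l 16768992) (l 16769224)) (l 16770144)) (c (b (l 16769360) (l 16769592)) (l 16775584))))) (b (b (a (a (l 16770240) (l 16769968)) (a (l 16770000) (l 16770288))) (a (a (l 16770464) (l 16770392)) (a (l 16770424) (l 16770712)))) (a (b (a (b (c (l 16770480) (l 16771936)) (l 16771224)) (b (l 16770600) (c (l 16770568) (l 16771832)))) (c (l 16770848) (l 16772040))) (b (a (c (l 16770304) (l 16771392)) (l 16771232)) (a (b (a (l 16771504) (l 16771344)) (l 16771528)) (b (l 16771520) (a (l 16772048) (l 16772008))))))))), by decide +kernel⟩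

def k31_B00pm_102_s1 : ∃ t, chk3 f_B00pm_102_s1 t 29 31 1 = true :=
  ⟨(c (a (b (a (l 16775416) (b (l 16772808) (l 16773976))) (a (b (l 16777472) (l 16778936)) (b (l 16775200) (l 16776480)))) (b (a (b (l 16771544) (l 16772528)) (b (l 16771768) (l 16772528))) (a (b (l 16773552) (l 16785104)) (b (l 16773328) (a (l 16774168) (l 16774224)))))) (a (b (a (l 16776960) (l 16795440)) (a (b (l 16778352) (l 16779240)) (b (l 16775496) (l 16776128)))) (b (a (b (l 16772440) (l 16772928)) (b (l 16772448) (l 16772648))) (a (b (l 16773352) (l 16773704)) (b (l 16772784) (a (l 16772936) (l 16772824))))))), by decide +kernel⟩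

def k32_B00pm_102_s1 : ∃ t, chk3 f_B00pm_102_s1 t 30 28 1 = true :=
  ⟨(l 3), by decide +kernel⟩

def k33_B00pm_102_s1 : ∃ t, chk3 f_B00pm_102_s1 t 60 29 1 = true :=
  ⟨(c (a (b (c (a (b (b (l 3) (a (l 535732495) (a (l 535709455) (l 3)))) (b (a (l 535762191) (l 535735823)) (a (l 535860751) (b (l 535762703) (l 535780879))))) (b (l 3) (b (a (l 535714831) (l 3)) (a (b (l 535744527) (a (l 535768335) (l 535761679))) (b (a (l 535734543) (l 3)) (a (l 535756303) (l 535752207))))))) (b (a (a (l 535758351) (l 535723023)) (l 3)) (a (b (l 535785487) (a (l 535831567) (l 535806479))) (b (a (l 535748367) (l 3)) (a (l 535786767) (b (l 535761935) (l 535783439))))))) (b (c (a (b (a (l 535826703) (l 535808527)) (a (l 535861775) (l 535847439))) (a (b (b (l 535785231) (l 535806479)) (l 535838479)) (b (a (l 535789327) (l 535786767)) (l 535834383)))) (a (a (l 535879183) (a (l 535864847) (l 535856911))) (a (b (l 535826959) (l 535868943)) (l 535838223)))) (b (a (c (a (l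 535898639) (l 535888399)) (l 535925263)) (a (l 535896591) (l 535895311))) (a (a (l 535952399) (l 535945231)) (a (l 535942927) (l 535945743)))))) (b (b (l 3) (a (a (b (l 3) (b (l 3) (l 535760143))) (l 3)) (l 3))) (a (b (c (a (l 535808783) (l 535812879)) (a (l 535834895) (l 535836687))) (a (c (l 535913999) (l 535938319)) (c (l 535925775) (l 535947791)))) (b (a (l 535831311) (l 3)) (a (l 535950863) (l 535971343)))))) (a (b (a (b (l 535822351) (c (l 536118287) (l 535912207))) (b (l 3) (a (b (l 535822095) (l 535858703)) (b (l 3) (l 535840015))))) (a (b (b (l 535927823) (l 535961615)) (a (l 536023311) (l 536008719))) (b (a (b (l 535896847) (l 535936783)) (l 535903247)) (a (l 535999247) (l 535994895))))) (b (a (b (l 3) (a (b (l 3) (l 535826959)) (l 3))) (l 3)) (a (b (l 535893263) (l 536265231)) (b (l 535899663) (l 536287247)))))), by decide +kernel⟩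

def k34_B00pm_102_s1 : ∃ t, chk3 f_B00pm_102_s1 t 61 29 1 = true :=
  ⟨(a (b (l 3) (b (l 3) (a (a (c (l 535996431) (l 536050191)) (a (l 536039183) (b (l 3) (l 536096271)))) (l 3)))) (l 3)), by decide +kernel⟩

def k35_B00pm_102_s1 : ∃ t, chk3 f_B00pm_102_s1 t 31 14 1 = true :=
  ⟨(l 3), by decide +kernel⟩

def k36_B00pm_102_s1 : ∃ t, chk3 f_B00pm_102_s1 t 120 120 1 = true :=
  ⟨(a (b (c (c (b (a (a (b (l 16769616) (b (a (a (l 16769376) (l 16769376)) (l 16769552)) (a (l 16769384) (a (l 16769456) (l 16769456))))) (l 16769872)) (l 16770432)) (a (b (a (l 16769424) (b (a (a (l 16769544) (l 16769544)) (l 16769712)) (a (l 16769528) (c (l 16769584) (l 16769696))))) (l 16769488)) (b (l 16770104) (a (b (a (l 16772352) (l 16769872)) (a (l 16769704) (l 16769832))) (l 16770088))))) (a (b (a (b (l 16769888) (b (l 16769672) (l 16769768))) (l 16770128)) (b (a (l 16769704) (b (l 16769824) (l 16769920))) (l 16769760))) (b (l 16770656) (b (l 16770336) (a (b (l 16769992)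 (l 16770096)) (l 16770320)))))) (a (b (a (b (l 16770488) (l 16770336)) (l 16770688)) (b (a (l 16770320) (l 16770464)) (l 16770368))) (b (l 16771152) (a (b (l 16770712) (l 16770608)) (l 16770920))))) (a (c (c (l 16769528) (l 16769800)) (l 16770400)) (b (a (l 16770176) (b (c (c (b (a (l 16769928) (l 16770040)) (a (l 16769896) (l 16770032))) (b (l 16770176) (l 16770280))) (l 16770768)) (l 16770344))) (c (l 16770008) (l 16770688))))) (b (c (a (l 535990031) (l 535996687)) (l 536066575)) (c (b (a (b (c (l 16770456) (l 16770656)) (a (a (b (l 16772864) (l 16770208)) (b (l 16770328) (l 16770352))) (l 16770560))) (l 16771312)) (a (b (a (l 16770272) (a (b (l 16770464) (l 16770424)) (b (l 16770528) (l 16770576)))) (l 16770392)) (b (a (l 16770760) (l 16771240)) (a (a (b (l 16770696) (l 16770648)) (b (l 16770752) (l 16770816))) (l 16770976))))) (a (b (b (l 16771128) (a (l 16770944) (l 16771136))) (a (l 16770912) (b (l 16771136) (l 16771088)))) (b (l 16771808)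 (b (l 16771456) (a (l 16771336) (l 16771488)))))))), by decide +kernel⟩

def k37_B00pm_102_s1 : ∃ t, chk3 f_B00pm_102_s1 t 120 121 1 = true :=
  ⟨(a (c (b (c (l 16769832) (l 16770080)) (l 16770168)) (b (l 16770656) (l 16770888))) (b (a (c (l 16770488) (l 16771096)) (b (a (l 16770976) (b (a (b (l 16771160) (l 16771112)) (b (l 16771192) (l 16771280))) (l 16771192))) (l 16771160))) (c (c (l 16770816) (l 16771008)) (l 16771480)))), by decide +kernel⟩

def k38_B00pm_102_s1 : ∃ t, chk3 f_B00pm_102_s1 t 121 60 1 = true :=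
  ⟨(b (c (a (a (c (l 536290319) (l 536044047)) (c (l 536040207) (l 536060431))) (a (b (l 536044815) (l 536098575)) (b (l 536069903) (l 536125455)))) (a (a (l 536098063) (l 536110863)) (a (l 536129039) (l 536156175)))) (a (b (c (b (a (b (a (l 16773824) (l 16771704)) (b (a (a (l 16771184) (l 16771224)) (l 16771584)) (a (l 16771288) (l 16771424)))) (l 16772232)) (a (b (a (l 16771224) (b (c (l 16776640) (l 16771552)) (l 16771544))) (l 16771376)) (b (a (b (l 16771840) (l 16771672)) (l 16772200)) (a (b (c (l 16771680) (l 16771816)) (l 16771808)) (b (l 16772096) (l 16771944)))))) (a (b (b (l 16771840) (a (l 16771776) (l 16771896))) (a (l 16771752) (b (l 16772016) (l 16771960)))) (b (l 16772616) (a (b (l 16772120) (l 16772264)) (l 16772384))))) (a (c (l 16771520) (l 16772016)) (b (a (l 16771976) (b (c (b (l 16772016) (l 16772080)) (l 16772520)) (l 16772216))) (l 16772208)))) (a (b (l 536173839) (b (a (b (c (b (l 16772368) (l 16772216)) (l 16772600)) (c (b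 (l 16772304) (l 16772360)) (l 16772776))) (b (l 16772864) (c (b (l 16772640) (l 16772496)) (l 16772848)))) (a (l 16772528) (b (c (b (l 16772600) (l 16772640)) (l 16773048)) (l 16772776))))) (b (l 536199951) (b (l 536242959) (a (b (c (l 16778024) (l 16773112)) (a (l 16773000) (l 16778360))) (b (l 16773400) (a (l 16778376) (l 16773400))))))))), by decide +kernel⟩

def k39_B00pm_102_s1 : ∃ t, chk3 f_B00pm_102_s1 t 60 61 1 = true :=
  ⟨(a (b (a (b (c (l 16770480) (l 16771216)) (l 16771200)) (b (c (l 16771208) (l 16771808)) (l 16777104))) (a (b (l 16771720) (c (l 16771840) (l 16772632))) (b (l 16772368) (l 16772968)))) (b (b (a (c (l 16772040) (l 16772512)) (a (l 16772864) (b (a (l 16773104) (b (c (l 16778528) (l 16773608)) (l 16773360))) (l 16773384)))) (a (c (l 16772432) (l 16772928)) (c (l 16773312) (l 16773696)))) (a (b (l 16773120) (l 16773712)) (b (l 16779184) (l 16774520))))), by decide +kernel⟩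

def k40_B00pm_102_s1 : ∃ t, chk3 f_B00pm_102_s1 t 61 60 1 = true :=
  ⟨(a (a (b (a (c (b (l 536103183) (l 536145935)) (l 536431375)) (c (b (l 536129295) (l 536192271)) (l 536203535))) (a (c (l 536241167) (l 536286735)) (c (l 536282127) (l 536324111)))) (a (b (l 536222223) (l 536343823)) (b (l 536268559) (l 536389903)))) (a (b (a (l 536314895) (l 3)) (a (l 536435983) (l 536481807))) (b (l 3) (a (l 536527375) (l 536572943))))), by decide +kernel⟩

def k41_B00pm_102_s1 : ∃ t, chk3 f_B00pm_102_s1 t 61 61 1 = true :=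
  ⟨(a (b (a (b (a (b (a (b (c (l 16773360) (l 16773648)) (c (l 16773592) (l 16773888))) (b (l 16773944) (a (l 16773720) (l 16773960)))) (a (l 16773704) (b (b (l 16773936) (l 16773920)) (l 16773968)))) (b (l 16774432) (a (b (a (l 16774016) (l 16774248)) (l 16779552)) (b (l 16774504) (b (l 16774472) (l 16774392)))))) (a (l 16774104) (b (a (l 16774320) (b (l 16774608) (l 16774584))) (l 16774632)))) (b (a (l 536438543) (l 536484367)) (a (b (a (b (b (l 16774736) (l 16774688)) (l 16774912)) (b (l 16775056) (b (l 16775000) (l 16774976)))) (a (l 16774936) (b (l 16775200) (l 16775184)))) (b (l 16775464) (a (b (b (l 16775256) (l 16775256)) (l 16775480)) (b (l 16775568) (a (l 16775464) (l 16775568)))))))) (a (b (c (l 16774672) (l 16774976)) (l 16775344)) (b (a (l 16775384) (b (a (l 16775528) (l 16781096)) (l 16775848))) (a (l 16775928) (l 16776264))))) (b (a (a (l 536558351) (l 536603663)) (a (l 536648975) (l 536962319))) (b (a (a (b (a (b (a (l 16775720) (l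 16775808)) (l 16776008)) (b (l 16776040) (a (l 16775976) (l 16776040)))) (a (l 16776072) (l 16781600))) (b (l 16776352) (a (b (a (l 16776216) (l 16776264)) (l 16776496)) (b (l 16776472) (a (l 16776456) (l 16776480)))))) (a (l 536743951) (l 536788751))) (a (a (l 16776544) (b (b (l 16781936) (l 16776696)) (l 16776904))) (a (b (a (b (a (l 16776672) (l 16776680)) (l 16776936)) (b (l 16776864) (a (l 16776888) (l 16776872)))) (a (l 16777040) (b (l 16777144) (l 16777176)))) (b (l 16777080) (a (b (b (l 16777008) (l 16782376)) (l 16777336)) (b (l 16777216) (a (l 16782520) (l 16777232)))))))))), by decide +kernel⟩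

def k42_B00pm_102_s1 : ∃ t, chk3 f_B00pm_102_s1 t 30 31 1 = true :=
  ⟨(a (b (b (a (b (a (b (a (l 16772816) (l 16772872)) (l 16772912)) (b (l 16773336) (a (l 16773768) (l 16773904)))) (c (l 16773264) (l 16773728))) (b (a (a (l 16774096) (l 16774608)) (l 16775200)) (a (b (a (l 16774856) (l 16775032)) (l 16774960)) (b (l 16775624) (a (l 16776016) (l 16776216)))))) (a (c (l 16773648) (l 16773640)) (c (l 16775512) (l 16775528)))) (b (a (c (l 16774184) (l 16773448)) (c (a (l 16775328) (l 16776240)) (l 16785464))) (a (a (b (l 16773640) (l 16773728)) (c (l 16775008) (l 16773384))) (c (b (l 16786424) (a (l 16775728) (l 16776440))) (a (l 16773976) (l 16774704)))))) (b (a (b (a (b (l 16776008) (a (l 16776448) (l 16776952))) (b (l 16776736) (l 16777472))) (b (a (b (a (l 16777200) (l 16777408)) (l 16777272)) (b (l 16777952) (a (l 16778360) (l 16778496)))) (a (l 16777136) (l 16778296)))) (b (b (a (a (l 16777160) (l 16777376)) (a (l 16777536) (b (a (l 16777456)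 (b (l 16777520) (l 16777576))) (l 16777800)))) (a (l 16777984) (a (l 16778232) (l 16778320)))) (b (a (a (l 16778600) (l 16778888)) (a (l 16779024) (l 14))) (a (b (a (l 16789816) (l 14)) (l 16779256)) (l 14))))) (a (b (c (a (l 16777232) (l 16778208)) (a (l 16776520) (l 16777576))) (a (b (a (l 16776248) (l 16776696)) (l 14)) (l 14))) (l 14)))), by decide +kernel⟩

def k43_B00pm_102_s1 : ∃ t, chk3 f_B00pm_102_s1 t 31 15 1 = true :=
  ⟨(b (a (b (l 3) (b (a (a (a (l 537543951) (b (l 3) (l 536816911))) (a (b (l 3) (l 536861455)) (l 3))) (l 3)) (b (a (a (a (l 536833295) (l 536877583)) (a (l 536921871) (l 536965647))) (l 3)) (a (a (a (l 536894735) (l 536938767)) (l 14)) (l 14))))) (l 3)) (b (a (a (b (a (b (a (b (a (b (a (b (l 16777368) (l 16777536)) (l 16777400)) (l 16777696)) (b (l 16777528) (l 14))) (a (l 16777840) (l 14))) (l 14)) (l 14)) (l 14)) (l 14)) (l 14)) (l 14)) (l 14))), by decide +kernel⟩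

theorem t44_B00pm_102_s1 : ∃ t, chk3 f_B00pm_102_s1 t 61 30 1 = true := ex3_b k40_B00pm_102_s1 k41_B00pm_102_s1

theorem t45_B00pm_102_s1 : ∃ t, chk3 f_B00pm_102_s1 t 120 60 1 = true := ex3_b k36_B00pm_102_s1 k37_B00pm_102_s1

theorem t46_B00pm_102_s1 : ∃ t, chk3 f_B00pm_102_s1 t 60 60 1 = true := ex3_a t45_B00pm_102_s1 k38_B00pm_102_s1

theorem t47_B00pm_102_s1 : ∃ t, chk3 f_B00pm_102_s1 t 60 30 1 = true := ex3_b t46_B00pm_102_s1 k39_B00pm_102_s1

theorem t48_B00pm_102_s1 : ∃ t, chk3 f_B00pm_102_s1 t 30 30 1 = true := ex3_a t47_B00pm_102_s1 t44_B00pm_102_s1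

theorem t49_B00pm_102_s1 : ∃ t, chk3 f_B00pm_102_s1 t 30 15 1 = true := ex3_b t48_B00pm_102_s1 k42_B00pm_102_s1

theorem t50_B00pm_102_s1 : ∃ t, chk3 f_B00pm_102_s1 t 15 15 1 = true := ex3_a t49_B00pm_102_s1 k43_B00pm_102_s1

theorem t51_B00pm_102_s1 : ∃ t, chk3 f_B00pm_102_s1 t 30 29 1 = true := ex3_a k33_B00pm_102_s1 k34_B00pm_102_s1

theorem t52_B00pm_102_s1 : ∃ t, chk3 f_B00pm_102_s1 t 30 14 1 = true := ex3_b k32_B00pm_102_s1 t51_B00pm_102_s1

theorem t53_B00pm_102_s1 : ∃ t, chk3 f_B00pm_102_s1 t 15 14 1 = true := ex3_a t52_B00pm_102_s1 k35_B00pm_102_s1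

theorem t54_B00pm_102_s1 : ∃ t, chk3 f_B00pm_102_s1 t 15 7 1 = true := ex3_b t53_B00pm_102_s1 t50_B00pm_102_s1

theorem t55_B00pm_102_s1 : ∃ t, chk3 f_B00pm_102_s1 t 29 15 1 = true := ex3_b k30_B00pm_102_s1 k31_B00pm_102_s1

theorem t56_B00pm_102_s1 : ∃ t, chk3 f_B00pm_102_s1 t 14 15 1 = true := ex3_a k29_B00pm_102_s1 t55_B00pm_102_s1

theorem t57_B00pm_102_s1 : ∃ t, chk3 f_B00pm_102_s1 t 119 119 1 = true := ex3_c k27_B00pm_102_s1 k28_B00pm_102_s1

theorem t58_B00pm_102_s1 : ∃ t, chk3 f_B00pm_102_s1 t 119 59 1 = true := ex3_b k26_B00pm_102_s1 t57_B00pm_102_s1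

theorem t59_B00pm_102_s1 : ∃ t, chk3 f_B00pm_102_s1 t 59 59 1 = true := ex3_a k25_B00pm_102_s1 t58_B00pm_102_s1

theorem t60_B00pm_102_s1 : ∃ t, chk3 f_B00pm_102_s1 t 59 29 1 = true := ex3_b k24_B00pm_102_s1 t59_B00pm_102_s1

theorem t61_B00pm_102_s1 : ∃ t, chk3 f_B00pm_102_s1 t 29 29 1 = true := ex3_a k23_B00pm_102_s1 t60_B00pm_102_s1

theorem t62_B00pm_102_s1 : ∃ t, chk3 f_B00pm_102_s1 t 29 14 1 = true := ex3_b k22_B00pm_102_s1 t61_B00pm_102_s1

theorem t63_B00pm_102_s1 : ∃ t, chk3 f_B00pm_102_s1 t 14 14 1 = true := ex3_a k21_B00pm_102_s1 t62_B00pm_102_s1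

theorem t64_B00pm_102_s1 : ∃ t, chk3 f_B00pm_102_s1 t 14 7 1 = true := ex3_b t63_B00pm_102_s1 t56_B00pm_102_s1

theorem t65_B00pm_102_s1 : ∃ t, chk3 f_B00pm_102_s1 t 7 7 1 = true := ex3_a t64_B00pm_102_s1 t54_B00pm_102_s1

theorem t66_B00pm_102_s1 : ∃ t, chk3 f_B00pm_102_s1 t 7 3 1 = true := ex3_b k20_B00pm_102_s1 t65_B00pm_102_s1

theorem t67_B00pm_102_s1 : ∃ t, chk3 f_B00pm_102_s1 t 13 14 1 = true := ex3_b k17_B00pm_102_s1 k18_B00pm_102_s1

theorem t68_B00pm_102_s1 : ∃ t, chk3 f_B00pm_102_s1 t 13 7 1 = true := ex3_b t67_B00pm_102_s1 k19_B00pm_102_s1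

theorem t69_B00pm_102_s1 : ∃ t, chk3 f_B00pm_102_s1 t 6 7 1 = true := ex3_a k16_B00pm_102_s1 t68_B00pm_102_s1

theorem t70_B00pm_102_s1 : ∃ t, chk3 f_B00pm_102_s1 t 26 13 1 = true := ex3_b k13_B00pm_102_s1 k14_B00pm_102_s1

theorem t71_B00pm_102_s1 : ∃ t, chk3 f_B00pm_102_s1 t 13 13 1 = true := ex3_a t70_B00pm_102_s1 k15_B00pm_102_s1

theorem t72_B00pm_102_s1 : ∃ t, chk3 f_B00pm_102_s1 t 26 25 1 = true := ex3_a k10_B00pm_102_s1 k11_B00pm_102_s1

theorem t73_B00pm_102_s1 : ∃ t, chk3 f_B00pm_102_s1 t 26 12 1 = true := ex3_b k9_B00pm_102_s1 t72_B00pm_102_s1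

theorem t74_B00pm_102_s1 : ∃ t, chk3 f_B00pm_102_s1 t 13 12 1 = true := ex3_a t73_B00pm_102_s1 k12_B00pm_102_s1

theorem t75_B00pm_102_s1 : ∃ t, chk3 f_B00pm_102_s1 t 13 6 1 = true := ex3_b t74_B00pm_102_s1 t71_B00pm_102_s1

theorem t76_B00pm_102_s1 : ∃ t, chk3 f_B00pm_102_s1 t 12 12 1 = true := ex3_a k6_B00pm_102_s1 k7_B00pm_102_s1

theorem t77_B00pm_102_s1 : ∃ t, chk3 f_B00pm_102_s1 t 12 6 1 = true := ex3_b t76_B00pm_102_s1 k8_B00pm_102_s1

theorem t78_B00pm_102_s1 : ∃ t, chk3 f_B00pm_102_s1 t 6 6 1 = true := ex3_a t77_B00pm_102_s1 t75_B00pm_102_s1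

theorem t79_B00pm_102_s1 : ∃ t, chk3 f_B00pm_102_s1 t 6 3 1 = true := ex3_b t78_B00pm_102_s1 t69_B00pm_102_s1

theorem t80_B00pm_102_s1 : ∃ t, chk3 f_B00pm_102_s1 t 3 3 1 = true := ex3_a t79_B00pm_102_s1 t66_B00pm_102_s1

theorem t81_B00pm_102_s1 : ∃ t, chk3 f_B00pm_102_s1 t 3 1 1 = true := ex3_b k5_B00pm_102_s1 t80_B00pm_102_s1

theorem t82_B00pm_102_s1 : ∃ t, chk3 f_B00pm_102_s1 t 11 2 1 = true := ex3_b k2_B00pm_102_s1 k3_B00pm_102_s1

theorem t83_B00pm_102_s1 : ∃ t, chk3 f_B00pm_102_s1 t 5 2 1 = true := ex3_a k1_B00pm_102_s1 t82_B00pm_102_s1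

theorem t84_B00pm_102_s1 : ∃ t, chk3 f_B00pm_102_s1 t 2 2 1 = true := ex3_a k0_B00pm_102_s1 t83_B00pm_102_s1

theorem t85_B00pm_102_s1 : ∃ t, chk3 f_B00pm_102_s1 t 2 1 1 = true := ex3_b t84_B00pm_102_s1 k4_B00pm_102_s1

theorem t86_B00pm_102_s1 : ∃ t, chk3 f_B00pm_102_s1 t 1 1 1 = true := ex3_a t85_B00pm_102_s1 t81_B00pm_102_s1

theorem c_B00pm_102_s1 : CertF 536870912 536870912 0 536870912 740881858 40050571 false true false .npp 1 0 2
    ndB0q1 ndB0q2 pcB0 cut_B00pm_102_s1 xt_B00pm_102_s1 :=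
  certF0 (fam := false) (s1 := true) (s2 := false) (a := 1) (b := 0) (c := 2) (cn := .npp) (n1 := ndB0q1) (n2 := ndB0q2) (pc := pcB0) (cut := cut_B00pm_102_s1) (xt := xt_B00pm_102_s1) (P1 := 536870912) (W1 := 536870912) (P2 := 0) (W2 := 536870912) (P3 := 740881858) (W3 := 40050571)
    rfl t86_B00pm_102_s1

theorem s_B00pm_102_s1 {κ x : ℝ} (hκ : κ * h0 = ken x) (hx : ((740881858 : ℕ) : ℝ) / S ≤ x)
    (hx' : x ≤ (((740881858 : ℕ) : ℝ) + (40050571 : ℕ)) / S)
    (H : CutB (VFD κ) PP tK tL pcB (Cut.of [[⟨0, 1, 0, 53687091⟩, ⟨1, 0, 0, 53687091⟩, ⟨2, 1, 0, 53687091⟩], [⟨0, 0, 1, 20971520⟩, ⟨1, 1, 2, 20971520⟩, ⟨2, 1, 0, 33554432⟩]]) 1 0 2 0 0 (sgb true) (sgb false) x) :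
    AltB (VFD κ) PP tK tL pcB [⟨3, 0, 0, 1449551462⟩] 1 0 2 0 0 (sgb true) (sgb false) x :=
  strip_altBD (m := 1449551462) true rfl hκ (SH.κ0 hκ (SH.hx1 hx).le (SH.hx2 hx').le) (SH.hx1 hx).le (SH.hx2 hx') (covB01).cov (covB02).cov hx hx' c_B00pm_102_s1 H ((okx hx hx').extB (T := tt) (sideB hx hx') hκ rfl rfl (.O 1 true) (.O 2 false) (Or.inl rfl))

noncomputable def cut_B00pm_102_s3 : Cut := Cut.of [[⟨3, 0, 0, 2845415833⟩], [⟨0, 1, 0, 53687091⟩, ⟨1, 0, 0, 53687091⟩, ⟨2, 1, 0, 53687091⟩], [⟨0, 0, 1, 20971520⟩, ⟨1, 1, 2, 20971520⟩, ⟨2, 1, 0, 33554432⟩]]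

noncomputable def f_B00pm_102_s3 : ℕ → ℕ → ℕ → ℕ → Bool := onCell 536870912 536870912 0 536870912 740881858 40050571
    (rowF 0 false true false .npp 1 0 2 (qsf 536870912 536870912 0 536870912 0) ndB0q1 ndB0q2 pcB0 cut_B00pm_102_s3 Ext.none)

def k0_B00pm_102_s3 : ∃ t, chk3 f_B00pm_102_s3 t 1 1 1 = true :=
  ⟨(l 6), by decide +kernel⟩

theorem c_B00pm_102_s3 : CertF 536870912 536870912 0 536870912 740881858 40050571 false true false .npp 1 0 2
    ndB0q1 ndB0q2 pcB0 cut_B00pm_102_s3 Ext.none :=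
  certF0 (fam := false) (s1 := true) (s2 := false) (a := 1) (b := 0) (c := 2) (cn := .npp) (n1 := ndB0q1) (n2 := ndB0q2) (pc := pcB0) (cut := cut_B00pm_102_s3) (xt := Ext.none) (P1 := 536870912) (W1 := 536870912) (P2 := 0) (W2 := 536870912) (P3 := 740881858) (W3 := 40050571)
    rfl k0_B00pm_102_s3

theorem s_B00pm_102_s3 {κ x : ℝ} (hκ : κ * h0 = ken x) (hx : ((740881858 : ℕ) : ℝ) / S ≤ x)
    (hx' : x ≤ (((740881858 : ℕ) : ℝ) + (40050571 : ℕ)) / S)
    (H : CutB (VFD κ) PP tK tL pcB (Cut.of [[⟨0, 1, 0, 53687091⟩, ⟨1, 0, 0, 53687091⟩, ⟨2, 1, 0, 53687091⟩], [⟨0, 0, 1, 20971520⟩, ⟨1, 1, 2, 20971520⟩, ⟨2, 1, 0, 33554432⟩]]) 1 0 2 0 0 (sgb true) (sgb false) x) :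
    AltB (VFD κ) PP tK tL pcB [⟨4, 0, 0, 2845415833⟩] 1 0 2 0 0 (sgb true) (sgb false) x :=
  strip_altBD (m := 2845415833) false rfl hκ (SH.κ0 hκ (SH.hx1 hx).le (SH.hx2 hx').le) (SH.hx1 hx).le (SH.hx2 hx') (covB01).cov (covB02).cov hx hx' c_B00pm_102_s3 H (noExt_B)

noncomputable def cut_B00pm_112_s1 : Cut := Cut.of [[⟨4, 0, 0, 1449551462⟩]]

noncomputable def xt_B00pm_112_s1 : Ext := strExt dd false true false .u0 .u2 .u0m .dn 1 1 2 rfl rfl gf1 vv ndB0q1 ndB0q2

noncomputable def f_B00pm_112_s1 : ℕ → ℕ → ℕ → ℕ → Bool := onCell 536870912 536870912 0 536870912 740881858 40050571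
    (rowF 2 false true false .dn 1 1 2 (qsf 536870912 536870912 0 536870912 1) ndB0q1 ndB0q2 pcB1 cut_B00pm_112_s1 xt_B00pm_112_s1)

def k0_B00pm_112_s1 : ∃ t, chk3 f_B00pm_112_s1 t 8 8 1 = true :=
  ⟨(a (b (l 3) (b (a (l 3) (a (l 3) (l 533315087))) (b (a (l 3) (c (a (l 533287439) (l 533377807)) (l 533266191))) (b (a (l 3) (c (a (l 533301007) (l 533391375)) (l 533281039))) (a (a (l 3) (a (l 3) (a (l 3) (b (l 3) (l 533222671))))) (a (c (l 533309711) (l 533243919)) (l 533367311))))))) (b (a (c (b (l 3) (l 533434639)) (l 533341711)) (b (l 533495567) (a (l 533504527) (l 533567247)))) (b (a (l 533437455) (c (l 533610767) (l 533542415))) (a (b (l 533466383) (l 533485071)) (c (l 533647887) (l 533582863)))))), by decide +kernel⟩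

def k1_B00pm_112_s1 : ∃ t, chk3 f_B00pm_112_s1 t 8 18 1 = true :=
  ⟨(a (a (c (a (b (c (c (l 533003279) (l 532995343)) (l 532984079)) (b (l 532928527) (c (l 532880911) (l 532891919)))) (b (c (a (l 533132047) (b (l 533233935) (l 533190671))) (a (l 533110543) (l 533185039))) (c (a (l 533039119) (l 533121551)) (a (l 533037839) (l 533116175))))) (c (a (b (l 532970511) (l 532917263)) (b (a (l 533090575) (l 533161743)) (l 533074703))) (a (b (l 532958991) (l 532924431)) (b (l 533106703) (l 533073423))))) (a (b (c (c (b (a (l 533302031) (l 533365775)) (l 533294863)) (b (a (l 533269519) (l 533331727)) (l 533270543))) (b (c (l 533269519) (l 533240079)) (l 533237263))) (c (c (l 533232143) (l 533222415)) (l 533209359))) (b (b (c (c (l 533422607) (l 533390607)) (l 533345551)) (c (l 533390863) (l 533341711))) (c (c (l 533353999) (l 533340687)) (l 533321999))))) (a (b (b (c (l 533530895) (l 533470479)) (c (l 533659919) (l 533473807))) (c (a (b (l 16744504) (l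 16724880)) (l 533808911)) (a (l 533419791) (l 16743248)))) (b (c (l 533674511) (l 533616143)) (c (l 533658127) (l 533619471))))), by decide +kernel⟩

def k2_B00pm_112_s1 : ∃ t, chk3 f_B00pm_112_s1 t 8 19 1 = true :=
  ⟨(c (b (a (a (a (b (c (c (l 532842255) (l 532851727)) (l 532865807)) (c (c (l 532840719) (l 532850703)) (l 532865551))) (a (b (l 532985359) (c (l 16733056) (l 16728000))) (b (l 533064719) (l 16729552)))) (a (c (b (l 533173519) (l 16729552)) (l 533170447)) (b (l 16732568) (l 16712504)))) (a (a (c (l 16710856) (l 16710832)) (l 16704664)) (a (l 16698720) (l 16692968)))) (b (a (a (a (c (a (l 532818703) (l 16726480)) (l 532877839)) (c (a (l 16717656) (l 16714216)) (l 16726616))) (a (l 16719816) (l 16702968))) (a (a (l 16696880) (l 16691048)) (l 16682688))) (a (a (a (c (a (l 532842767) (l 16710992)) (l 532896527)) (a (l 16718152) (l 16704360))) (a (l 16699576) (l 16693472))) (a (l 16705776) (a (l 16676624) (l 16671160)))))) (a (a (b (a (b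 (l 532894223) (l 532896015)) (b (l 533046799) (l 533044239))) (a (c (a (l 532865295) (l 16727064)) (l 532920591)) (a (l 16723632) (l 16709720)))) (b (a (a (l 16736464) (l 16743432)) (l 16738320)) (a (l 16725736) (l 16698432)))) (a (b (a (l 16710784) (l 16704480)) (l 16710392)) (a (l 16710608) (b (l 16692496) (l 16674912)))))), by decide +kernel⟩

def k3_B00pm_112_s1 : ∃ t, chk3 f_B00pm_112_s1 t 9 4 1 = true :=
  ⟨(b (b (a (a (l 533629199) (l 533720847)) (a (l 533794063) (l 533851151))) (a (b (a (l 533690895) (l 533784335)) (a (l 533730575) (l 533825295))) (b (l 533891599) (l 534203151)))) (b (a (b (a (c (l 16738256) (l 16737080)) (l 16746456)) (a (c (l 16722360) (l 16700312)) (l 16689312))) (a (b (l 16692720) (a (l 16680472) (l 16675160))) (b (a (l 16684032) (l 16677896)) (l 16688496)))) (a (a (b (a (l 16687088) (l 16681432)) (a (b (l 16674216) (l 16666352)) (b (l 16669360) (l 16660968)))) (b (a (b (l 16680160) (l 16672056)) (l 16691896)) (l 16657400)))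 (b (a (l 16663160) (l 16652232)) (l 16684360))))), by decide +kernel⟩

def k4_B00pm_112_s1 : ∃ t, chk3 f_B00pm_112_s1 t 16 10 1 = true :=
  ⟨(b (a (c (a (a (b (c (b (l 16704208) (l 16693928)) (l 16704456)) (c (b (l 16683704) (l 16673544)) (l 16678528))) (b (b (l 16706136) (l 16690736)) (b (l 16680616) (l 16670552)))) (b (c (a (l 16697776) (l 16689448)) (a (l 16692672) (l 16689568))) (b (l 16681448) (l 16666368)))) (a (b (b (l 16713480) (l 16692608)) (c (l 16687472) (l 16676992))) (b (l 16701816) (l 16671168)))) (b (c (a (c (l 16695472) (l 16685080)) (l 16679312)) (a (l 16685248) (l 16679456))) (a (b (l 16681072) (c (a (b (l 16664760) (c (l 16670496) (l 16659808))) (b (l 16662000) (l 16657600))) (a (l 16661840) (l 16659560)))) (a (b (l 16666392) (b (l 16659600) (l 16654832))) (b (b (l 16666272) (l 16661648)) (l 16654704)))))) (a (b (c (a (a (b (c (l 16663440) (l 16663112)) (b (c (b (a (l 16657840) (l 16656432)) (a (b (l 16655904) (l 16654736)) (l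 16654144))) (a (l 16655976) (l 16654824))) (l 16650832))) (b (b (l 16663032) (b (l 16659280) (a (l 16657384) (l 16656168)))) (a (b (b (l 16655048) (l 16652592)) (l 16649016)) (l 16650192)))) (b (a (a (b (l 16661000) (a (l 16666936) (l 16655888))) (b (l 16659568) (l 16654968))) (b (a (l 16658344) (l 16657224)) (l 16653048))) (l 16647216))) (a (b (a (l 16662720) (b (l 16662568) (l 16657232))) (b (a (a (l 16655352) (l 16654224)) (l 16652520)) (l 16648632))) (b (b (a (l 16659720) (l 16657328)) (l 16664376)) (l 16646304)))) (b (c (a (c (l 16642848) (l 16642088)) (l 16637856)) (l 16659776)) (c (a (l 16643448) (l 16628552)) (l 16628936)))) (b (c (a (l 16668152) (l 16642480)) (l 16665096)) (c (a (l 16628800) (l 16624528)) (l 16625120))))), by decide +kernel⟩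

def k5_B00pm_112_s1 : ∃ t, chk3 f_B00pm_112_s1 t 17 10 1 = true :=
  ⟨(b (a (b (a (a (l 16675232) (b (l 16677104) (l 16667744))) (b (l 16673064) (a (l 16665320) (l 16663048)))) (a (b (c (b (l 16683528) (l 16658032)) (l 16660352)) (l 16651080)) (l 16650768))) (b (a (b (c (l 16667776) (l 16667624)) (l 16659104)) (l 16658736)) (l 16643688))) (b (a (c (l 16635712) (l 16634896)) (l 16626568)) (a (c (l 16618328) (l 16616760)) (l 16609584)))), by decide +kernel⟩

def k6_B00pm_112_s1 : ∃ t, chk3 f_B00pm_112_s1 t 8 11 1 = true :=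
  ⟨(a (b (a (b (a (c (a (l 16630440) (l 16617872)) (l 16616384)) (b (l 16618184) (l 16608888))) (c (a (l 16616336) (l 16596904)) (l 16616336))) (a (b (l 16630520) (l 16591624)) (b (l 16605688) (l 16588176)))) (a (b (c (b (l 16585472) (l 16576752)) (l 16597936)) (a (l 16604136) (l 6))) (b (c (l 16574800) (l 16570768)) (l 6)))) (b (a (b (l 16600088) (l 16583192)) (c (l 16628216) (l 16583432))) (l 6))), by decide +kernel⟩

def k7_B00pm_112_s1 : ∃ t, chk3 f_B00pm_112_s1 t 9 5 1 = true :=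
  ⟨(b (a (b (a (c (l 16643048) (l 16642432)) (l 16633552)) (a (c (l 16652704) (l 16609232)) (c (l 16603184) (l 16601384)))) (a (b (l 16624592) (l 16594888)) (b (l 16615864) (l 6)))) (b (l 6) (l 6))), by decide +kernel⟩

def k8_B00pm_112_s1 : ∃ t, chk3 f_B00pm_112_s1 t 5 2 1 = true :=
  ⟨(a (b (b (a (a (b (l 534161423) (a (l 16734464) (b (l 16692792) (l 16679496)))) (b (c (l 16746120) (l 16743456)) (b (l 16683568) (a (l 16673840) (l 16668600))))) (l 1)) (a (a (b (b (a (l 16672680) (l 16667176)) (l 16656008)) (l 16634912)) (b (l 16651808) (l 16625376))) (l 1))) (a (b (a (b (l 16607376) (l 6)) (l 6)) (l 6)) (l 1))) (l 1)), by decide +kernel⟩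

def k9_B00pm_112_s1 : ∃ t, chk3 f_B00pm_112_s1 t 2 3 1 = true :=
  ⟨(a (b (l 6) (l 6)) (l 6)), by decide +kernel⟩

def k10_B00pm_112_s1 : ∃ t, chk3 f_B00pm_112_s1 t 3 1 1 = true :=
  ⟨(l 1), by decide +kernel⟩

theorem t11_B00pm_112_s1 : ∃ t, chk3 f_B00pm_112_s1 t 8 10 1 = true := ex3_a k4_B00pm_112_s1 k5_B00pm_112_s1

theorem t12_B00pm_112_s1 : ∃ t, chk3 f_B00pm_112_s1 t 8 5 1 = true := ex3_b t11_B00pm_112_s1 k6_B00pm_112_s1

theorem t13_B00pm_112_s1 : ∃ t, chk3 f_B00pm_112_s1 t 4 5 1 = true := ex3_a t12_B00pm_112_s1 k7_B00pm_112_s1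

theorem t14_B00pm_112_s1 : ∃ t, chk3 f_B00pm_112_s1 t 8 9 1 = true := ex3_b k1_B00pm_112_s1 k2_B00pm_112_s1

theorem t15_B00pm_112_s1 : ∃ t, chk3 f_B00pm_112_s1 t 8 4 1 = true := ex3_b k0_B00pm_112_s1 t14_B00pm_112_s1

theorem t16_B00pm_112_s1 : ∃ t, chk3 f_B00pm_112_s1 t 4 4 1 = true := ex3_a t15_B00pm_112_s1 k3_B00pm_112_s1

theorem t17_B00pm_112_s1 : ∃ t, chk3 f_B00pm_112_s1 t 4 2 1 = true := ex3_b t16_B00pm_112_s1 t13_B00pm_112_s1

theorem t18_B00pm_112_s1 : ∃ t, chk3 f_B00pm_112_s1 t 2 2 1 = true := ex3_a t17_B00pm_112_s1 k8_B00pm_112_s1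

theorem t19_B00pm_112_s1 : ∃ t, chk3 f_B00pm_112_s1 t 2 1 1 = true := ex3_b t18_B00pm_112_s1 k9_B00pm_112_s1

theorem t20_B00pm_112_s1 : ∃ t, chk3 f_B00pm_112_s1 t 1 1 1 = true := ex3_a t19_B00pm_112_s1 k10_B00pm_112_s1

theorem c_B00pm_112_s1 : CertF 536870912 536870912 0 536870912 740881858 40050571 false true false .dn 1 1 2
    ndB0q1 ndB0q2 pcB1 cut_B00pm_112_s1 xt_B00pm_112_s1 :=
  certF2 (fam := false) (s1 := true) (s2 := false) (a := 1) (b := 1) (c := 2) (cn := .dn) (n1 := ndB0q1) (n2 := ndB0q2) (pc := pcB1) (cut := cut_B00pm_112_s1) (xt := xt_B00pm_112_s1) (P1 := 536870912) (W1 := 536870912) (P2 := 0) (W2 := 536870912) (P3 := 740881858) (W3 := 40050571)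
    rfl (fun _ => rfl) t20_B00pm_112_s1

theorem s_B00pm_112_s1 {κ x : ℝ} (hκ : κ * h0 = ken x) (hx : ((740881858 : ℕ) : ℝ) / S ≤ x)
    (hx' : x ≤ (((740881858 : ℕ) : ℝ) + (40050571 : ℕ)) / S) :
    AltB (VFD κ) PP tK tL pcB [⟨3, 0, 0, 1449551462⟩] 1 1 2 0 0 (sgb true) (sgb false) x :=
  strip_altBD (m := 1449551462) true rfl hκ (SH.κ0 hκ (SH.hx1 hx).le (SH.hx2 hx').le) (SH.hx1 hx).le (SH.hx2 hx') (covB01).cov (covB02).cov hx hx' c_B00pm_112_s1 cutB_nil ((okx hx hx').extB (T := tt) (sideB hx hx') hκ rfl rfl (.O 1 true) (.O 2 false) (Or.inr rfl))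

noncomputable def cut_B00pm_112_s3 : Cut := Cut.of [[⟨3, 0, 0, 2845415833⟩]]

noncomputable def f_B00pm_112_s3 : ℕ → ℕ → ℕ → ℕ → Bool := onCell 536870912 536870912 0 536870912 740881858 40050571
    (rowF 0 false true false .dn 1 1 2 (qsf 536870912 536870912 0 536870912 1) ndB0q1 ndB0q2 pcB1 cut_B00pm_112_s3 Ext.none)

def k0_B00pm_112_s3 : ∃ t, chk3 f_B00pm_112_s3 t 1 1 1 = true :=
  ⟨(l 6), by decide +kernel⟩

theorem c_B00pm_112_s3 : CertF 536870912 536870912 0 536870912 740881858 40050571 false true false .dn 1 1 2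
    ndB0q1 ndB0q2 pcB1 cut_B00pm_112_s3 Ext.none :=
  certF0 (fam := false) (s1 := true) (s2 := false) (a := 1) (b := 1) (c := 2) (cn := .dn) (n1 := ndB0q1) (n2 := ndB0q2) (pc := pcB1) (cut := cut_B00pm_112_s3) (xt := Ext.none) (P1 := 536870912) (W1 := 536870912) (P2 := 0) (W2 := 536870912) (P3 := 740881858) (W3 := 40050571)
    rfl k0_B00pm_112_s3

theorem s_B00pm_112_s3 {κ x : ℝ} (hκ : κ * h0 = ken x) (hx : ((740881858 : ℕ) : ℝ) / S ≤ x)
    (hx' : x ≤ (((740881858 : ℕ) : ℝ) + (40050571 : ℕ)) / S) :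
    AltB (VFD κ) PP tK tL pcB [⟨4, 0, 0, 2845415833⟩] 1 1 2 0 0 (sgb true) (sgb false) x :=
  strip_altBD (m := 2845415833) false rfl hκ (SH.κ0 hκ (SH.hx1 hx).le (SH.hx2 hx').le) (SH.hx1 hx).le (SH.hx2 hx') (covB01).cov (covB02).cov hx hx' c_B00pm_112_s3 cutB_nil (noExt_B)

noncomputable def cut_B00pm_202_s1 : Cut := Cut.of [[⟨4, 0, 0, 1449551462⟩], [⟨0, 1, 0, 67108864⟩, ⟨1, 0, 0, 67108864⟩, ⟨2, 1, 0, 67108864⟩]]

noncomputable def f_B00pm_202_s1 : ℕ → ℕ → ℕ → ℕ → Bool := onCell 0 536870912 0 536870912 740881858 40050571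
    (rowF 0 false true false .pp 2 0 2 (qsf 0 536870912 0 536870912 0) ndB0q2 ndB0q2 pcB0 cut_B00pm_202_s1 Ext.none)

def k0_B00pm_202_s1 : ∃ t, chk3 f_B00pm_202_s1 t 1 1 1 = true :=
  ⟨(a (l 3) (b (l 3) (b (l 3) (a (l 3) (b (l 3) (a (l 3) (l 14))))))), by decide +kernel⟩

theorem c_B00pm_202_s1 : CertF 0 536870912 0 536870912 740881858 40050571 false true false .pp 2 0 2
    ndB0q2 ndB0q2 pcB0 cut_B00pm_202_s1 Ext.none :=
  certF0 (fam := false) (s1 := true) (s2 := false) (a := 2) (b := 0) (c := 2) (cn := .pp) (n1 := ndB0q2) (n2 := ndB0q2) (pc := pcB0) (cut := cut_B00pm_202_s1) (xt := Ext.none) (P1 := 0) (W1 := 536870912) (P2 := 0) (W2 := 536870912) (P3 := 740881858) (W3 := 40050571)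
    rfl k0_B00pm_202_s1

theorem s_B00pm_202_s1 {κ x : ℝ} (hκ : κ * h0 = ken x) (hx : ((740881858 : ℕ) : ℝ) / S ≤ x)
    (hx' : x ≤ (((740881858 : ℕ) : ℝ) + (40050571 : ℕ)) / S)
    (H : CutB (VFD κ) PP tK tL pcB (Cut.of [[⟨0, 1, 0, 67108864⟩, ⟨1, 0, 0, 67108864⟩, ⟨2, 1, 0, 67108864⟩]]) 2 0 2 0 0 (sgb true) (sgb false) x) :
    AltB (VFD κ) PP tK tL pcB [⟨3, 0, 0, 1449551462⟩] 2 0 2 0 0 (sgb true) (sgb false) x :=
  strip_altBD (m := 1449551462) true rfl hκ (SH.κ0 hκ (SH.hx1 hx).le (SH.hx2 hx').le) (SH.hx1 hx).le (SH.hx2 hx') (covB02).cov (covB02).cov hx hx' c_B00pm_202_s1 H (noExt_B)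

noncomputable def cut_B00pm_202_s3 : Cut := Cut.of [[⟨3, 0, 0, 2845415833⟩], [⟨0, 1, 0, 67108864⟩, ⟨1, 0, 0, 67108864⟩, ⟨2, 1, 0, 67108864⟩]]

noncomputable def f_B00pm_202_s3 : ℕ → ℕ → ℕ → ℕ → Bool := onCell 0 536870912 0 536870912 740881858 40050571
    (rowF 0 false true false .pp 2 0 2 (qsf 0 536870912 0 536870912 0) ndB0q2 ndB0q2 pcB0 cut_B00pm_202_s3 Ext.none)

def k0_B00pm_202_s3 : ∃ t, chk3 f_B00pm_202_s3 t 1 1 1 = true :=
  ⟨(l 6), by decide +kernel⟩

theorem c_B00pm_202_s3 : CertF 0 536870912 0 536870912 740881858 40050571 false true false .pp 2 0 2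
    ndB0q2 ndB0q2 pcB0 cut_B00pm_202_s3 Ext.none :=
  certF0 (fam := false) (s1 := true) (s2 := false) (a := 2) (b := 0) (c := 2) (cn := .pp) (n1 := ndB0q2) (n2 := ndB0q2) (pc := pcB0) (cut := cut_B00pm_202_s3) (xt := Ext.none) (P1 := 0) (W1 := 536870912) (P2 := 0) (W2 := 536870912) (P3 := 740881858) (W3 := 40050571)
    rfl k0_B00pm_202_s3

theorem s_B00pm_202_s3 {κ x : ℝ} (hκ : κ * h0 = ken x) (hx : ((740881858 : ℕ) : ℝ) / S ≤ x)
    (hx' : x ≤ (((740881858 : ℕ) : ℝ) + (40050571 : ℕ)) / S)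
    (H : CutB (VFD κ) PP tK tL pcB (Cut.of [[⟨0, 1, 0, 67108864⟩, ⟨1, 0, 0, 67108864⟩, ⟨2, 1, 0, 67108864⟩]]) 2 0 2 0 0 (sgb true) (sgb false) x) :
    AltB (VFD κ) PP tK tL pcB [⟨4, 0, 0, 2845415833⟩] 2 0 2 0 0 (sgb true) (sgb false) x :=
  strip_altBD (m := 2845415833) false rfl hκ (SH.κ0 hκ (SH.hx1 hx).le (SH.hx2 hx').le) (SH.hx1 hx).le (SH.hx2 hx') (covB02).cov (covB02).cov hx hx' c_B00pm_202_s3 H (noExt_B)

noncomputable def cut_B00mm_001_s1 : Cut := Cut.of [[⟨4, 0, 0, 1449551462⟩]]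

noncomputable def f_B00mm_001_s1 : ℕ → ℕ → ℕ → ℕ → Bool := onCell 0 536870912 0 536870912 740881858 40050571
    (rowF 1 false false false .up 0 0 1 (qsf 0 536870912 536870912 536870912 0) ndB0q0 ndB0q1 pcB0 cut_B00mm_001_s1 Ext.none)

def k0_B00mm_001_s1 : ∃ t, chk3 f_B00mm_001_s1 t 1 1 1 = true :=
  ⟨(l 3), by decide +kernel⟩

theorem c_B00mm_001_s1 : CertF 0 536870912 536870912 536870912 740881858 40050571 false false false .up 0 0 1
    ndB0q0 ndB0q1 pcB0 cut_B00mm_001_s1 Ext.none :=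
  certF1 (fam := false) (s1 := false) (s2 := false) (a := 0) (b := 0) (c := 1) (cn := .up) (n1 := ndB0q0) (n2 := ndB0q1) (pc := pcB0) (cut := cut_B00mm_001_s1) (xt := Ext.none) (P1 := 0) (W1 := 536870912) (P2 := 536870912) (W2 := 536870912) (P3 := 740881858) (W3 := 40050571)
    rfl (fun _ => rfl) k0_B00mm_001_s1

theorem s_B00mm_001_s1 {κ x : ℝ} (hκ : κ * h0 = ken x) (hx : ((740881858 : ℕ) : ℝ) / S ≤ x)
    (hx' : x ≤ (((740881858 : ℕ) : ℝ) + (40050571 : ℕ)) / S) :
    AltB (VFD κ) PP tK tL pcB [⟨3, 0, 0, 1449551462⟩] 0 0 1 0 0 (sgb false) (sgb false) x :=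
  strip_altBD (m := 1449551462) true rfl hκ (SH.κ0 hκ (SH.hx1 hx).le (SH.hx2 hx').le) (SH.hx1 hx).le (SH.hx2 hx') (covB00).cov (covB01).cov hx hx' c_B00mm_001_s1 cutB_nil (noExt_B)

noncomputable def cut_B00mm_001_s3 : Cut := Cut.of [[⟨3, 0, 0, 2845415833⟩]]

noncomputable def f_B00mm_001_s3 : ℕ → ℕ → ℕ → ℕ → Bool := onCell 0 536870912 536870912 536870912 740881858 40050571
    (rowF 0 false false false .up 0 0 1 (qsf 0 536870912 536870912 536870912 0) ndB0q0 ndB0q1 pcB0 cut_B00mm_001_s3 Ext.none)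

def k0_B00mm_001_s3 : ∃ t, chk3 f_B00mm_001_s3 t 1 1 1 = true :=
  ⟨(l 6), by decide +kernel⟩

theorem c_B00mm_001_s3 : CertF 0 536870912 536870912 536870912 740881858 40050571 false false false .up 0 0 1
    ndB0q0 ndB0q1 pcB0 cut_B00mm_001_s3 Ext.none :=
  certF0 (fam := false) (s1 := false) (s2 := false) (a := 0) (b := 0) (c := 1) (cn := .up) (n1 := ndB0q0) (n2 := ndB0q1) (pc := pcB0) (cut := cut_B00mm_001_s3) (xt := Ext.none) (P1 := 0) (W1 := 536870912) (P2 := 536870912) (W2 := 536870912) (P3 := 740881858) (W3 := 40050571)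
    rfl k0_B00mm_001_s3

theorem s_B00mm_001_s3 {κ x : ℝ} (hκ : κ * h0 = ken x) (hx : ((740881858 : ℕ) : ℝ) / S ≤ x)
    (hx' : x ≤ (((740881858 : ℕ) : ℝ) + (40050571 : ℕ)) / S) :
    AltB (VFD κ) PP tK tL pcB [⟨4, 0, 0, 2845415833⟩] 0 0 1 0 0 (sgb false) (sgb false) x :=
  strip_altBD (m := 2845415833) false rfl hκ (SH.κ0 hκ (SH.hx1 hx).le (SH.hx2 hx').le) (SH.hx1 hx).le (SH.hx2 hx') (covB00).cov (covB01).cov hx hx' c_B00mm_001_s3 cutB_nil (noExt_B)

noncomputable def cut_B00mm_011_s1 : Cut := Cut.of [[⟨4, 0, 0, 1449551462⟩]]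

noncomputable def f_B00mm_011_s1 : ℕ → ℕ → ℕ → ℕ → Bool := onCell 0 536870912 536870912 536870912 740881858 40050571
    (rowF 1 false false false .pnn 0 1 1 (qsf 0 536870912 536870912 536870912 1) ndB0q0 ndB0q1 pcB1 cut_B00mm_011_s1 Ext.none)

def k0_B00mm_011_s1 : ∃ t, chk3 f_B00mm_011_s1 t 1 1 1 = true :=
  ⟨(l 5), by decide +kernel⟩

theorem c_B00mm_011_s1 : CertF 0 536870912 536870912 536870912 740881858 40050571 false false false .pnn 0 1 1
    ndB0q0 ndB0q1 pcB1 cut_B00mm_011_s1 Ext.none :=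
  certF1 (fam := false) (s1 := false) (s2 := false) (a := 0) (b := 1) (c := 1) (cn := .pnn) (n1 := ndB0q0) (n2 := ndB0q1) (pc := pcB1) (cut := cut_B00mm_011_s1) (xt := Ext.none) (P1 := 0) (W1 := 536870912) (P2 := 536870912) (W2 := 536870912) (P3 := 740881858) (W3 := 40050571)
    rfl (fun _ => rfl) k0_B00mm_011_s1

theorem s_B00mm_011_s1 {κ x : ℝ} (hκ : κ * h0 = ken x) (hx : ((740881858 : ℕ) : ℝ) / S ≤ x)
    (hx' : x ≤ (((740881858 : ℕ) : ℝ) + (40050571 : ℕ)) / S) :
    AltB (VFD κ) PP tK tL pcB [⟨3, 0, 0, 1449551462⟩] 0 1 1 0 0 (sgb false) (sgb false) x :=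
  strip_altBD (m := 1449551462) true rfl hκ (SH.κ0 hκ (SH.hx1 hx).le (SH.hx2 hx').le) (SH.hx1 hx).le (SH.hx2 hx') (covB00).cov (covB01).cov hx hx' c_B00mm_011_s1 cutB_nil (noExt_B)

noncomputable def cut_B00mm_011_s3 : Cut := Cut.of [[⟨3, 0, 0, 2845415833⟩]]

noncomputable def f_B00mm_011_s3 : ℕ → ℕ → ℕ → ℕ → Bool := onCell 0 536870912 536870912 536870912 740881858 40050571
    (rowF 0 false false false .pnn 0 1 1 (qsf 0 536870912 536870912 536870912 1) ndB0q0 ndB0q1 pcB1 cut_B00mm_011_s3 Ext.none)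

def k0_B00mm_011_s3 : ∃ t, chk3 f_B00mm_011_s3 t 1 1 1 = true :=
  ⟨(l 6), by decide +kernel⟩

theorem c_B00mm_011_s3 : CertF 0 536870912 536870912 536870912 740881858 40050571 false false false .pnn 0 1 1
    ndB0q0 ndB0q1 pcB1 cut_B00mm_011_s3 Ext.none :=
  certF0 (fam := false) (s1 := false) (s2 := false) (a := 0) (b := 1) (c := 1) (cn := .pnn) (n1 := ndB0q0) (n2 := ndB0q1) (pc := pcB1) (cut := cut_B00mm_011_s3) (xt := Ext.none) (P1 := 0) (W1 := 536870912) (P2 := 536870912) (W2 := 536870912) (P3 := 740881858) (W3 := 40050571)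
    rfl k0_B00mm_011_s3

theorem s_B00mm_011_s3 {κ x : ℝ} (hκ : κ * h0 = ken x) (hx : ((740881858 : ℕ) : ℝ) / S ≤ x)
    (hx' : x ≤ (((740881858 : ℕ) : ℝ) + (40050571 : ℕ)) / S) :
    AltB (VFD κ) PP tK tL pcB [⟨4, 0, 0, 2845415833⟩] 0 1 1 0 0 (sgb false) (sgb false) x :=
  strip_altBD (m := 2845415833) false rfl hκ (SH.κ0 hκ (SH.hx1 hx).le (SH.hx2 hx').le) (SH.hx1 hx).le (SH.hx2 hx') (covB00).cov (covB01).cov hx hx' c_B00mm_011_s3 cutB_nil (noExt_B)

noncomputable def cut_B00mm_012_s1 : Cut := Cut.of [[⟨4, 0, 0, 1449551462⟩]]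

noncomputable def f_B00mm_012_s1 : ℕ → ℕ → ℕ → ℕ → Bool := onCell 0 536870912 0 536870912 740881858 40050571
    (rowF 0 false false false .pnp 0 1 2 (qsf 0 536870912 0 536870912 1) ndB0q0 ndB0q2 pcB1 cut_B00mm_012_s1 Ext.none)

def k0_B00mm_012_s1 : ∃ t, chk3 f_B00mm_012_s1 t 1 1 1 = true :=
  ⟨(l 5), by decide +kernel⟩

theorem c_B00mm_012_s1 : CertF 0 536870912 0 536870912 740881858 40050571 false false false .pnp 0 1 2
    ndB0q0 ndB0q2 pcB1 cut_B00mm_012_s1 Ext.none :=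
  certF0 (fam := false) (s1 := false) (s2 := false) (a := 0) (b := 1) (c := 2) (cn := .pnp) (n1 := ndB0q0) (n2 := ndB0q2) (pc := pcB1) (cut := cut_B00mm_012_s1) (xt := Ext.none) (P1 := 0) (W1 := 536870912) (P2 := 0) (W2 := 536870912) (P3 := 740881858) (W3 := 40050571)
    rfl k0_B00mm_012_s1

theorem s_B00mm_012_s1 {κ x : ℝ} (hκ : κ * h0 = ken x) (hx : ((740881858 : ℕ) : ℝ) / S ≤ x)
    (hx' : x ≤ (((740881858 : ℕ) : ℝ) + (40050571 : ℕ)) / S) :
    AltB (VFD κ) PP tK tL pcB [⟨3, 0, 0, 1449551462⟩] 0 1 2 0 0 (sgb false) (sgb false) x :=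
  strip_altBD (m := 1449551462) true rfl hκ (SH.κ0 hκ (SH.hx1 hx).le (SH.hx2 hx').le) (SH.hx1 hx).le (SH.hx2 hx') (covB00).cov (covB02).cov hx hx' c_B00mm_012_s1 cutB_nil (noExt_B)

noncomputable def cut_B00mm_012_s3 : Cut := Cut.of [[⟨3, 0, 0, 2845415833⟩]]

noncomputable def f_B00mm_012_s3 : ℕ → ℕ → ℕ → ℕ → Bool := onCell 0 536870912 0 536870912 740881858 40050571
    (rowF 0 false false false .pnp 0 1 2 (qsf 0 536870912 0 536870912 1) ndB0q0 ndB0q2 pcB1 cut_B00mm_012_s3 Ext.none)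

def k0_B00mm_012_s3 : ∃ t, chk3 f_B00mm_012_s3 t 1 1 1 = true :=
  ⟨(l 5), by decide +kernel⟩

theorem c_B00mm_012_s3 : CertF 0 536870912 0 536870912 740881858 40050571 false false false .pnp 0 1 2
    ndB0q0 ndB0q2 pcB1 cut_B00mm_012_s3 Ext.none :=
  certF0 (fam := false) (s1 := false) (s2 := false) (a := 0) (b := 1) (c := 2) (cn := .pnp) (n1 := ndB0q0) (n2 := ndB0q2) (pc := pcB1) (cut := cut_B00mm_012_s3) (xt := Ext.none) (P1 := 0) (W1 := 536870912) (P2 := 0) (W2 := 536870912) (P3 := 740881858) (W3 := 40050571)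
    rfl k0_B00mm_012_s3

theorem s_B00mm_012_s3 {κ x : ℝ} (hκ : κ * h0 = ken x) (hx : ((740881858 : ℕ) : ℝ) / S ≤ x)
    (hx' : x ≤ (((740881858 : ℕ) : ℝ) + (40050571 : ℕ)) / S) :
    AltB (VFD κ) PP tK tL pcB [⟨4, 0, 0, 2845415833⟩] 0 1 2 0 0 (sgb false) (sgb false) x :=
  strip_altBD (m := 2845415833) false rfl hκ (SH.κ0 hκ (SH.hx1 hx).le (SH.hx2 hx').le) (SH.hx1 hx).le (SH.hx2 hx') (covB00).cov (covB02).cov hx hx' c_B00mm_012_s3 cutB_nil (noExt_B)

noncomputable def cut_B00mm_022_s1 : Cut := Cut.of [[⟨4, 0, 0, 1449551462⟩]]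

noncomputable def f_B00mm_022_s1 : ℕ → ℕ → ℕ → ℕ → Bool := onCell 0 536870912 0 536870912 740881858 40050571
    (rowF 0 false false false .pp 0 2 2 (qsf 0 536870912 0 536870912 2) ndB0q0 ndB0q2 pcB2 cut_B00mm_022_s1 Ext.none)

def k0_B00mm_022_s1 : ∃ t, chk3 f_B00mm_022_s1 t 1 1 1 = true :=
  ⟨(l 5), by decide +kernel⟩

theorem c_B00mm_022_s1 : CertF 0 536870912 0 536870912 740881858 40050571 false false false .pp 0 2 2
    ndB0q0 ndB0q2 pcB2 cut_B00mm_022_s1 Ext.none :=
  certF0 (fam := false) (s1 := false) (s2 := false) (a := 0) (b := 2) (c := 2) (cn := .pp) (n1 := ndB0q0) (n2 := ndB0q2) (pc := pcB2) (cut := cut_B00mm_022_s1) (xt := Ext.none) (P1 := 0) (W1 := 536870912) (P2 := 0) (W2 := 536870912) (P3 := 740881858) (W3 := 40050571)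
    rfl k0_B00mm_022_s1

theorem s_B00mm_022_s1 {κ x : ℝ} (hκ : κ * h0 = ken x) (hx : ((740881858 : ℕ) : ℝ) / S ≤ x)
    (hx' : x ≤ (((740881858 : ℕ) : ℝ) + (40050571 : ℕ)) / S) :
    AltB (VFD κ) PP tK tL pcB [⟨3, 0, 0, 1449551462⟩] 0 2 2 0 0 (sgb false) (sgb false) x :=
  strip_altBD (m := 1449551462) true rfl hκ (SH.κ0 hκ (SH.hx1 hx).le (SH.hx2 hx').le) (SH.hx1 hx).le (SH.hx2 hx') (covB00).cov (covB02).cov hx hx' c_B00mm_022_s1 cutB_nil (noExt_B)

noncomputable def cut_B00mm_022_s3 : Cut := Cut.of [[⟨3, 0, 0, 2845415833⟩]]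

noncomputable def f_B00mm_022_s3 : ℕ → ℕ → ℕ → ℕ → Bool := onCell 0 536870912 0 536870912 740881858 40050571
    (rowF 0 false false false .pp 0 2 2 (qsf 0 536870912 0 536870912 2) ndB0q0 ndB0q2 pcB2 cut_B00mm_022_s3 Ext.none)

def k0_B00mm_022_s3 : ∃ t, chk3 f_B00mm_022_s3 t 1 1 1 = true :=
  ⟨(l 5), by decide +kernel⟩

theorem c_B00mm_022_s3 : CertF 0 536870912 0 536870912 740881858 40050571 false false false .pp 0 2 2
    ndB0q0 ndB0q2 pcB2 cut_B00mm_022_s3 Ext.none :=
  certF0 (fam := false) (s1 := false) (s2 := false) (a := 0) (b := 2) (c := 2) (cn := .pp) (n1 := ndB0q0) (n2 := ndB0q2) (pc := pcB2) (cut := cut_B00mm_022_s3) (xt := Ext.none) (P1 := 0) (W1 := 536870912) (P2 := 0) (W2 := 536870912) (P3 := 740881858) (W3 := 40050571)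
    rfl k0_B00mm_022_s3

theorem s_B00mm_022_s3 {κ x : ℝ} (hκ : κ * h0 = ken x) (hx : ((740881858 : ℕ) : ℝ) / S ≤ x)
    (hx' : x ≤ (((740881858 : ℕ) : ℝ) + (40050571 : ℕ)) / S) :
    AltB (VFD κ) PP tK tL pcB [⟨4, 0, 0, 2845415833⟩] 0 2 2 0 0 (sgb false) (sgb false) x :=
  strip_altBD (m := 2845415833) false rfl hκ (SH.κ0 hκ (SH.hx1 hx).le (SH.hx2 hx').le) (SH.hx1 hx).le (SH.hx2 hx') (covB00).cov (covB02).cov hx hx' c_B00mm_022_s3 cutB_nil (noExt_B)

noncomputable def cut_B00mm_101_s1 : Cut := Cut.of [[⟨4, 0, 0, 1449551462⟩]]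

noncomputable def f_B00mm_101_s1 : ℕ → ℕ → ℕ → ℕ → Bool := onCell 536870912 536870912 536870912 536870912 740881858 40050571
    (rowF 0 false false false .npn 1 0 1 (qsf 536870912 536870912 536870912 536870912 0) ndB0q1 ndB0q1 pcB0 cut_B00mm_101_s1 Ext.none)

def k0_B00mm_101_s1 : ∃ t, chk3 f_B00mm_101_s1 t 1 1 1 = true :=
  ⟨(l 3), by decide +kernel⟩

theorem c_B00mm_101_s1 : CertF 536870912 536870912 536870912 536870912 740881858 40050571 false false false .npn 1 0 1
    ndB0q1 ndB0q1 pcB0 cut_B00mm_101_s1 Ext.none :=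
  certF0 (fam := false) (s1 := false) (s2 := false) (a := 1) (b := 0) (c := 1) (cn := .npn) (n1 := ndB0q1) (n2 := ndB0q1) (pc := pcB0) (cut := cut_B00mm_101_s1) (xt := Ext.none) (P1 := 536870912) (W1 := 536870912) (P2 := 536870912) (W2 := 536870912) (P3 := 740881858) (W3 := 40050571)
    rfl k0_B00mm_101_s1

theorem s_B00mm_101_s1 {κ x : ℝ} (hκ : κ * h0 = ken x) (hx : ((740881858 : ℕ) : ℝ) / S ≤ x)
    (hx' : x ≤ (((740881858 : ℕ) : ℝ) + (40050571 : ℕ)) / S) :
    AltB (VFD κ) PP tK tL pcB [⟨3, 0, 0, 1449551462⟩] 1 0 1 0 0 (sgb false) (sgb false) x :=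
  strip_altBD (m := 1449551462) true rfl hκ (SH.κ0 hκ (SH.hx1 hx).le (SH.hx2 hx').le) (SH.hx1 hx).le (SH.hx2 hx') (covB01).cov (covB01).cov hx hx' c_B00mm_101_s1 cutB_nil (noExt_B)

noncomputable def cut_B00mm_101_s3 : Cut := Cut.of [[⟨3, 0, 0, 2845415833⟩]]

noncomputable def f_B00mm_101_s3 : ℕ → ℕ → ℕ → ℕ → Bool := onCell 536870912 536870912 536870912 536870912 740881858 40050571
    (rowF 0 false false false .npn 1 0 1 (qsf 536870912 536870912 536870912 536870912 0) ndB0q1 ndB0q1 pcB0 cut_B00mm_101_s3 Ext.none)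

def k0_B00mm_101_s3 : ∃ t, chk3 f_B00mm_101_s3 t 1 1 1 = true :=
  ⟨(l 3), by decide +kernel⟩

theorem c_B00mm_101_s3 : CertF 536870912 536870912 536870912 536870912 740881858 40050571 false false false .npn 1 0 1
    ndB0q1 ndB0q1 pcB0 cut_B00mm_101_s3 Ext.none :=
  certF0 (fam := false) (s1 := false) (s2 := false) (a := 1) (b := 0) (c := 1) (cn := .npn) (n1 := ndB0q1) (n2 := ndB0q1) (pc := pcB0) (cut := cut_B00mm_101_s3) (xt := Ext.none) (P1 := 536870912) (W1 := 536870912) (P2 := 536870912) (W2 := 536870912) (P3 := 740881858) (W3 := 40050571)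
    rfl k0_B00mm_101_s3

theorem s_B00mm_101_s3 {κ x : ℝ} (hκ : κ * h0 = ken x) (hx : ((740881858 : ℕ) : ℝ) / S ≤ x)
    (hx' : x ≤ (((740881858 : ℕ) : ℝ) + (40050571 : ℕ)) / S) :
    AltB (VFD κ) PP tK tL pcB [⟨4, 0, 0, 2845415833⟩] 1 0 1 0 0 (sgb false) (sgb false) x :=
  strip_altBD (m := 2845415833) false rfl hκ (SH.κ0 hκ (SH.hx1 hx).le (SH.hx2 hx').le) (SH.hx1 hx).le (SH.hx2 hx') (covB01).cov (covB01).cov hx hx' c_B00mm_101_s3 cutB_nil (noExt_B)

noncomputable def cut_B00mm_102_s1 : Cut := Cut.of [[⟨4, 0, 0, 1449551462⟩]]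

noncomputable def f_B00mm_102_s1 : ℕ → ℕ → ℕ → ℕ → Bool := onCell 536870912 536870912 0 536870912 740881858 40050571
    (rowF 0 false false false .npp 1 0 2 (qsf 536870912 536870912 0 536870912 0) ndB0q1 ndB0q2 pcB0 cut_B00mm_102_s1 Ext.none)

def k0_B00mm_102_s1 : ∃ t, chk3 f_B00mm_102_s1 t 1 1 1 = true :=
  ⟨(a (l 5) (l 3)), by decide +kernel⟩

theorem c_B00mm_102_s1 : CertF 536870912 536870912 0 536870912 740881858 40050571 false false false .npp 1 0 2
    ndB0q1 ndB0q2 pcB0 cut_B00mm_102_s1 Ext.none :=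
  certF0 (fam := false) (s1 := false) (s2 := false) (a := 1) (b := 0) (c := 2) (cn := .npp) (n1 := ndB0q1) (n2 := ndB0q2) (pc := pcB0) (cut := cut_B00mm_102_s1) (xt := Ext.none) (P1 := 536870912) (W1 := 536870912) (P2 := 0) (W2 := 536870912) (P3 := 740881858) (W3 := 40050571)
    rfl k0_B00mm_102_s1

theorem s_B00mm_102_s1 {κ x : ℝ} (hκ : κ * h0 = ken x) (hx : ((740881858 : ℕ) : ℝ) / S ≤ x)
    (hx' : x ≤ (((740881858 : ℕ) : ℝ) + (40050571 : ℕ)) / S) :
    AltB (VFD κ) PP tK tL pcB [⟨3, 0, 0, 1449551462⟩] 1 0 2 0 0 (sgb false) (sgb false) x :=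
  strip_altBD (m := 1449551462) true rfl hκ (SH.κ0 hκ (SH.hx1 hx).le (SH.hx2 hx').le) (SH.hx1 hx).le (SH.hx2 hx') (covB01).cov (covB02).cov hx hx' c_B00mm_102_s1 cutB_nil (noExt_B)

noncomputable def cut_B00mm_102_s3 : Cut := Cut.of [[⟨3, 0, 0, 2845415833⟩]]

noncomputable def f_B00mm_102_s3 : ℕ → ℕ → ℕ → ℕ → Bool := onCell 536870912 536870912 0 536870912 740881858 40050571
    (rowF 0 false false false .npp 1 0 2 (qsf 536870912 536870912 0 536870912 0) ndB0q1 ndB0q2 pcB0 cut_B00mm_102_s3 Ext.none)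

def k0_B00mm_102_s3 : ∃ t, chk3 f_B00mm_102_s3 t 1 1 1 = true :=
  ⟨(l 6), by decide +kernel⟩

theorem c_B00mm_102_s3 : CertF 536870912 536870912 0 536870912 740881858 40050571 false false false .npp 1 0 2
    ndB0q1 ndB0q2 pcB0 cut_B00mm_102_s3 Ext.none :=
  certF0 (fam := false) (s1 := false) (s2 := false) (a := 1) (b := 0) (c := 2) (cn := .npp) (n1 := ndB0q1) (n2 := ndB0q2) (pc := pcB0) (cut := cut_B00mm_102_s3) (xt := Ext.none) (P1 := 536870912) (W1 := 536870912) (P2 := 0) (W2 := 536870912) (P3 := 740881858) (W3 := 40050571)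
    rfl k0_B00mm_102_s3

theorem s_B00mm_102_s3 {κ x : ℝ} (hκ : κ * h0 = ken x) (hx : ((740881858 : ℕ) : ℝ) / S ≤ x)
    (hx' : x ≤ (((740881858 : ℕ) : ℝ) + (40050571 : ℕ)) / S) :
    AltB (VFD κ) PP tK tL pcB [⟨4, 0, 0, 2845415833⟩] 1 0 2 0 0 (sgb false) (sgb false) x :=
  strip_altBD (m := 2845415833) false rfl hκ (SH.κ0 hκ (SH.hx1 hx).le (SH.hx2 hx').le) (SH.hx1 hx).le (SH.hx2 hx') (covB01).cov (covB02).cov hx hx' c_B00mm_102_s3 cutB_nil (noExt_B)

noncomputable def cut_B00mm_112_s1 : Cut := Cut.of [[⟨4, 0, 0, 1449551462⟩]]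

noncomputable def f_B00mm_112_s1 : ℕ → ℕ → ℕ → ℕ → Bool := onCell 536870912 536870912 0 536870912 740881858 40050571
    (rowF 2 false false false .dn 1 1 2 (qsf 536870912 536870912 0 536870912 1) ndB0q1 ndB0q2 pcB1 cut_B00mm_112_s1 Ext.none)

def k0_B00mm_112_s1 : ∃ t, chk3 f_B00mm_112_s1 t 1 1 1 = true :=
  ⟨(l 5), by decide +kernel⟩

theorem c_B00mm_112_s1 : CertF 536870912 536870912 0 536870912 740881858 40050571 false false false .dn 1 1 2
    ndB0q1 ndB0q2 pcB1 cut_B00mm_112_s1 Ext.none :=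
  certF2 (fam := false) (s1 := false) (s2 := false) (a := 1) (b := 1) (c := 2) (cn := .dn) (n1 := ndB0q1) (n2 := ndB0q2) (pc := pcB1) (cut := cut_B00mm_112_s1) (xt := Ext.none) (P1 := 536870912) (W1 := 536870912) (P2 := 0) (W2 := 536870912) (P3 := 740881858) (W3 := 40050571)
    rfl (fun _ => rfl) k0_B00mm_112_s1

theorem s_B00mm_112_s1 {κ x : ℝ} (hκ : κ * h0 = ken x) (hx : ((740881858 : ℕ) : ℝ) / S ≤ x)
    (hx' : x ≤ (((740881858 : ℕ) : ℝ) + (40050571 : ℕ)) / S) :
    AltB (VFD κ) PP tK tL pcB [⟨3, 0, 0, 1449551462⟩] 1 1 2 0 0 (sgb false) (sgb false) x :=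
  strip_altBD (m := 1449551462) true rfl hκ (SH.κ0 hκ (SH.hx1 hx).le (SH.hx2 hx').le) (SH.hx1 hx).le (SH.hx2 hx') (covB01).cov (covB02).cov hx hx' c_B00mm_112_s1 cutB_nil (noExt_B)

noncomputable def cut_B00mm_112_s3 : Cut := Cut.of [[⟨3, 0, 0, 2845415833⟩]]

noncomputable def f_B00mm_112_s3 : ℕ → ℕ → ℕ → ℕ → Bool := onCell 536870912 536870912 0 536870912 740881858 40050571
    (rowF 0 false false false .dn 1 1 2 (qsf 536870912 536870912 0 536870912 1) ndB0q1 ndB0q2 pcB1 cut_B00mm_112_s3 Ext.none)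

def k0_B00mm_112_s3 : ∃ t, chk3 f_B00mm_112_s3 t 1 1 1 = true :=
  ⟨(l 6), by decide +kernel⟩

theorem c_B00mm_112_s3 : CertF 536870912 536870912 0 536870912 740881858 40050571 false false false .dn 1 1 2
    ndB0q1 ndB0q2 pcB1 cut_B00mm_112_s3 Ext.none :=
  certF0 (fam := false) (s1 := false) (s2 := false) (a := 1) (b := 1) (c := 2) (cn := .dn) (n1 := ndB0q1) (n2 := ndB0q2) (pc := pcB1) (cut := cut_B00mm_112_s3) (xt := Ext.none) (P1 := 536870912) (W1 := 536870912) (P2 := 0) (W2 := 536870912) (P3 := 740881858) (W3 := 40050571)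
    rfl k0_B00mm_112_s3

theorem s_B00mm_112_s3 {κ x : ℝ} (hκ : κ * h0 = ken x) (hx : ((740881858 : ℕ) : ℝ) / S ≤ x)
    (hx' : x ≤ (((740881858 : ℕ) : ℝ) + (40050571 : ℕ)) / S) :
    AltB (VFD κ) PP tK tL pcB [⟨4, 0, 0, 2845415833⟩] 1 1 2 0 0 (sgb false) (sgb false) x :=
  strip_altBD (m := 2845415833) false rfl hκ (SH.κ0 hκ (SH.hx1 hx).le (SH.hx2 hx').le) (SH.hx1 hx).le (SH.hx2 hx') (covB01).cov (covB02).cov hx hx' c_B00mm_112_s3 cutB_nil (noExt_B)

noncomputable def cut_B00mm_202_s1 : Cut := Cut.of [[⟨4, 0, 0, 1449551462⟩]]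

noncomputable def f_B00mm_202_s1 : ℕ → ℕ → ℕ → ℕ → Bool := onCell 0 536870912 0 536870912 740881858 40050571
    (rowF 0 false false false .pp 2 0 2 (qsf 0 536870912 0 536870912 0) ndB0q2 ndB0q2 pcB0 cut_B00mm_202_s1 Ext.none)

def k0_B00mm_202_s1 : ∃ t, chk3 f_B00mm_202_s1 t 1 1 1 = true :=
  ⟨(l 3), by decide +kernel⟩

theorem c_B00mm_202_s1 : CertF 0 536870912 0 536870912 740881858 40050571 false false false .pp 2 0 2
    ndB0q2 ndB0q2 pcB0 cut_B00mm_202_s1 Ext.none :=
  certF0 (fam := false) (s1 := false) (s2 := false) (a := 2) (b := 0) (c := 2) (cn := .pp) (n1 := ndB0q2) (n2 := ndB0q2) (pc := pcB0) (cut := cut_B00mm_202_s1) (xt := Ext.none) (P1 := 0) (W1 := 536870912) (P2 := 0) (W2 := 536870912) (P3 := 740881858) (W3 := 40050571)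
    rfl k0_B00mm_202_s1

theorem s_B00mm_202_s1 {κ x : ℝ} (hκ : κ * h0 = ken x) (hx : ((740881858 : ℕ) : ℝ) / S ≤ x)
    (hx' : x ≤ (((740881858 : ℕ) : ℝ) + (40050571 : ℕ)) / S) :
    AltB (VFD κ) PP tK tL pcB [⟨3, 0, 0, 1449551462⟩] 2 0 2 0 0 (sgb false) (sgb false) x :=
  strip_altBD (m := 1449551462) true rfl hκ (SH.κ0 hκ (SH.hx1 hx).le (SH.hx2 hx').le) (SH.hx1 hx).le (SH.hx2 hx') (covB02).cov (covB02).cov hx hx' c_B00mm_202_s1 cutB_nil (noExt_B)

noncomputable def cut_B00mm_202_s3 : Cut := Cut.of [[⟨3, 0, 0, 2845415833⟩]]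

noncomputable def f_B00mm_202_s3 : ℕ → ℕ → ℕ → ℕ → Bool := onCell 0 536870912 0 536870912 740881858 40050571
    (rowF 0 false false false .pp 2 0 2 (qsf 0 536870912 0 536870912 0) ndB0q2 ndB0q2 pcB0 cut_B00mm_202_s3 Ext.none)

def k0_B00mm_202_s3 : ∃ t, chk3 f_B00mm_202_s3 t 1 1 1 = true :=
  ⟨(l 3), by decide +kernel⟩

theorem c_B00mm_202_s3 : CertF 0 536870912 0 536870912 740881858 40050571 false false false .pp 2 0 2
    ndB0q2 ndB0q2 pcB0 cut_B00mm_202_s3 Ext.none :=
  certF0 (fam := false) (s1 := false) (s2 := false) (a := 2) (b := 0) (c := 2) (cn := .pp) (n1 := ndB0q2) (n2 := ndB0q2) (pc := pcB0) (cut := cut_B00mm_202_s3) (xt := Ext.none) (P1 := 0) (W1 := 536870912) (P2 := 0) (W2 := 536870912) (P3 := 740881858) (W3 := 40050571)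
    rfl k0_B00mm_202_s3

theorem s_B00mm_202_s3 {κ x : ℝ} (hκ : κ * h0 = ken x) (hx : ((740881858 : ℕ) : ℝ) / S ≤ x)
    (hx' : x ≤ (((740881858 : ℕ) : ℝ) + (40050571 : ℕ)) / S) :
    AltB (VFD κ) PP tK tL pcB [⟨4, 0, 0, 2845415833⟩] 2 0 2 0 0 (sgb false) (sgb false) x :=
  strip_altBD (m := 2845415833) false rfl hκ (SH.κ0 hκ (SH.hx1 hx).le (SH.hx2 hx').le) (SH.hx1 hx).le (SH.hx2 hx') (covB02).cov (covB02).cov hx hx' c_B00mm_202_s3 cutB_nil (noExt_B)

noncomputable def cut_B05pp_001_s1 : Cut := Cut.of [[⟨4, 0, 0, 1449551462⟩]]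

noncomputable def f_B05pp_001_s1 : ℕ → ℕ → ℕ → ℕ → Bool := onCell 0 536870912 0 536870912 740881858 40050571
    (rowF 1 false true true .up 0 0 1 (qsf 0 536870912 536870912 536870912 0) ndB0q0 ndB5q1 pcB0 cut_B05pp_001_s1 Ext.none)

def k0_B05pp_001_s1 : ∃ t, chk3 f_B05pp_001_s1 t 1 1 1 = true :=
  ⟨(l 3), by decide +kernel⟩

theorem c_B05pp_001_s1 : CertF 0 536870912 536870912 536870912 740881858 40050571 false true true .up 0 0 1
    ndB0q0 ndB5q1 pcB0 cut_B05pp_001_s1 Ext.none :=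
  certF1 (fam := false) (s1 := true) (s2 := true) (a := 0) (b := 0) (c := 1) (cn := .up) (n1 := ndB0q0) (n2 := ndB5q1) (pc := pcB0) (cut := cut_B05pp_001_s1) (xt := Ext.none) (P1 := 0) (W1 := 536870912) (P2 := 536870912) (W2 := 536870912) (P3 := 740881858) (W3 := 40050571)
    rfl (fun _ => rfl) k0_B05pp_001_s1

theorem s_B05pp_001_s1 {κ x : ℝ} (hκ : κ * h0 = ken x) (hx : ((740881858 : ℕ) : ℝ) / S ≤ x)
    (hx' : x ≤ (((740881858 : ℕ) : ℝ) + (40050571 : ℕ)) / S) :
    AltB (VFD κ) PP tK tL pcB [⟨3, 0, 0, 1449551462⟩] 0 0 1 0 5 (sgb true) (sgb true) x :=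
  strip_altBD (m := 1449551462) true rfl hκ (SH.κ0 hκ (SH.hx1 hx).le (SH.hx2 hx').le) (SH.hx1 hx).le (SH.hx2 hx') (covB00).cov (covB51).cov hx hx' c_B05pp_001_s1 cutB_nil (noExt_B)

noncomputable def cut_B05pp_011_s1 : Cut := Cut.of [[⟨4, 0, 0, 1449551462⟩], [⟨0, 0, 0, 67108864⟩, ⟨1, 1, 0, 67108864⟩, ⟨2, 1, 0, 67108864⟩]]

noncomputable def f_B05pp_011_s1 : ℕ → ℕ → ℕ → ℕ → Bool := onCell 0 536870912 536870912 536870912 740881858 40050571
    (rowF 1 false true true .pnn 0 1 1 (qsf 0 536870912 536870912 536870912 1) ndB0q0 ndB5q1 pcB1 cut_B05pp_011_s1 Ext.none)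

def k0_B05pp_011_s1 : ∃ t, chk3 f_B05pp_011_s1 t 1 1 1 = true :=
  ⟨(b (l 3) (a (b (l 3) (a (b (l 3) (a (b (l 3) (a (l 14) (l 3))) (l 3))) (l 3))) (l 3))), by decide +kernel⟩

theorem c_B05pp_011_s1 : CertF 0 536870912 536870912 536870912 740881858 40050571 false true true .pnn 0 1 1
    ndB0q0 ndB5q1 pcB1 cut_B05pp_011_s1 Ext.none :=
  certF1 (fam := false) (s1 := true) (s2 := true) (a := 0) (b := 1) (c := 1) (cn := .pnn) (n1 := ndB0q0) (n2 := ndB5q1) (pc := pcB1) (cut := cut_B05pp_011_s1) (xt := Ext.none) (P1 := 0) (W1 := 536870912) (P2 := 536870912) (W2 := 536870912) (P3 := 740881858) (W3 := 40050571)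
    rfl (fun _ => rfl) k0_B05pp_011_s1

theorem s_B05pp_011_s1 {κ x : ℝ} (hκ : κ * h0 = ken x) (hx : ((740881858 : ℕ) : ℝ) / S ≤ x)
    (hx' : x ≤ (((740881858 : ℕ) : ℝ) + (40050571 : ℕ)) / S)
    (H : CutB (VFD κ) PP tK tL pcB (Cut.of [[⟨0, 0, 0, 67108864⟩, ⟨1, 1, 0, 67108864⟩, ⟨2, 1, 0, 67108864⟩]]) 0 1 1 0 5 (sgb true) (sgb true) x) :
    AltB (VFD κ) PP tK tL pcB [⟨3, 0, 0, 1449551462⟩] 0 1 1 0 5 (sgb true) (sgb true) x :=
  strip_altBD (m := 1449551462) true rfl hκ (SH.κ0 hκ (SH.hx1 hx).le (SH.hx2 hx').le) (SH.hx1 hx).le (SH.hx2 hx') (covB00).cov (covB51).cov hx hx' c_B05pp_011_s1 H (noExt_B)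

noncomputable def cut_B05pp_012_s1 : Cut := Cut.of [[⟨4, 0, 0, 1449551462⟩], [⟨0, 0, 0, 67108864⟩, ⟨1, 1, 0, 67108864⟩, ⟨2, 1, 0, 67108864⟩]]

noncomputable def f_B05pp_012_s1 : ℕ → ℕ → ℕ → ℕ → Bool := onCell 0 536870912 536870912 536870912 740881858 40050571
    (rowF 1 false true true .pnp 0 1 2 (qsf 0 536870912 1073741824 536870912 1) ndB0q0 ndB5q2 pcB1 cut_B05pp_012_s1 Ext.none)

def k0_B05pp_012_s1 : ∃ t, chk3 f_B05pp_012_s1 t 1 1 1 = true :=
  ⟨(b (l 3) (a (b (l 3) (a (a (a (b (l 1) (b (l 3) (l 14))) (l 3)) (l 3)) (l 3))) (l 3))), by decide +kernel⟩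

theorem c_B05pp_012_s1 : CertF 0 536870912 1073741824 536870912 740881858 40050571 false true true .pnp 0 1 2
    ndB0q0 ndB5q2 pcB1 cut_B05pp_012_s1 Ext.none :=
  certF1 (fam := false) (s1 := true) (s2 := true) (a := 0) (b := 1) (c := 2) (cn := .pnp) (n1 := ndB0q0) (n2 := ndB5q2) (pc := pcB1) (cut := cut_B05pp_012_s1) (xt := Ext.none) (P1 := 0) (W1 := 536870912) (P2 := 1073741824) (W2 := 536870912) (P3 := 740881858) (W3 := 40050571)
    rfl (fun _ => rfl) k0_B05pp_012_s1

theorem s_B05pp_012_s1 {κ x : ℝ} (hκ : κ * h0 = ken x) (hx : ((740881858 : ℕ) : ℝ) / S ≤ x)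
    (hx' : x ≤ (((740881858 : ℕ) : ℝ) + (40050571 : ℕ)) / S)
    (H : CutB (VFD κ) PP tK tL pcB (Cut.of [[⟨0, 0, 0, 67108864⟩, ⟨1, 1, 0, 67108864⟩, ⟨2, 1, 0, 67108864⟩]]) 0 1 2 0 5 (sgb true) (sgb true) x) :
    AltB (VFD κ) PP tK tL pcB [⟨3, 0, 0, 1449551462⟩] 0 1 2 0 5 (sgb true) (sgb true) x :=
  strip_altBD (m := 1449551462) true rfl hκ (SH.κ0 hκ (SH.hx1 hx).le (SH.hx2 hx').le) (SH.hx1 hx).le (SH.hx2 hx') (covB00).cov (covB52).cov hx hx' c_B05pp_012_s1 H (noExt_B)

noncomputable def cut_B05pp_022_s1 : Cut := Cut.of [[⟨4, 0, 0, 1449551462⟩], [⟨0, 0, 0, 67108864⟩, ⟨1, 1, 0, 67108864⟩, ⟨2, 1, 0, 67108864⟩]]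

noncomputable def xt_B05pp_022_s1 : Ext := strExt dd false true true .u0 .s2 .u2 .pp 0 2 2 rfl rfl gf2 vv ndB0q0 ndB5q2

noncomputable def f_B05pp_022_s1 : ℕ → ℕ → ℕ → ℕ → Bool := onCell 0 536870912 1073741824 536870912 740881858 40050571
    (rowF 1 false true true .pp 0 2 2 (qsf 0 536870912 1073741824 536870912 2) ndB0q0 ndB5q2 pcB2 cut_B05pp_022_s1 xt_B05pp_022_s1)

def k0_B05pp_022_s1 : ∃ t, chk3 f_B05pp_022_s1 t 8 8 1 = true :=
  ⟨(b (a (b (l 14) (a (l 14) (b (l 14) (a (l 14) (b (l 14) (l 16751248)))))) (b (a (a (l 14) (l 3)) (l 3)) (b (a (a (a (l 14) (b (l 14) (l 524747903))) (a (b (l 523957631) (l 523934335)) (b (l 3) (l 523925119)))) (a (b (l 3) (a (l 523915647) (l 3))) (l 3))) (a (a (b (a (b (l 14) (l 16755064)) (b (a (l 16764912) (l 16766776)) (l 16762064))) (b (l 16758000) (l 16748072))) (b (b (a (l 523923071) (l 523914111)) (a (a (l 16761872) (l 16763848)) (l 523899263))) (a (b (l 16761544) (l 16755144)) (b (c (l 16765048) (l 16765160))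 (l 16761024))))) (a (b (a (l 523889279) (l 523879807)) (a (l 523861119) (l 523851903))) (b (a (l 523870591) (l 3)) (l 523815295))))))) (a (a (b (b (l 14) (a (l 14) (l 16687816))) (b (a (l 16658360) (l 16669008)) (a (l 16681368) (l 16692160)))) (b (b (a (b (l 14) (l 16712080)) (b (b (l 16723224) (l 16729024)) (l 16701040))) (a (l 16719032) (b (l 16712664) (l 16703384)))) (b (a (l 16679376) (l 16731456)) (b (l 16670536) (a (l 16656064) (l 16666336)))))) (b (a (b (a (a (l 16744480) (l 16749272)) (b (a (l 16748152) (l 16758032)) (l 16741200))) (a (b (l 16701464) (l 16713168)) (l 16737808))) (b (b (a (a (b (c (l 16757800) (l 16757968)) (l 16754096)) (b (l 523835263) (a (l 16756416) (l 16758288)))) (l 523786367)) (a (b (l 16757312) (l 16748080)) (a (b (l 16762096) (l 16752856)) (b (l 16766088) (l 16756352))))) (a (c (l 16747168) (l 16746936)) (b (a (l 16747448) (l 16755672)) (l 16740968))))) (a (b (b (l 16708736) (a (l 16694696) (l 16704304))) (b (a (l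 16685528) (l 16695144)) (c (l 16723448) (l 16639048)))) (b (c (l 16743944) (l 16743592)) (l 16725592)))))), by decide +kernel⟩

def k1_B05pp_022_s1 : ∃ t, chk3 f_B05pp_022_s1 t 9 8 1 = true :=
  ⟨(b (a (b (l 3) (a (b (l 3) (a (b (l 3) (l 523803007)) (l 3))) (l 3))) (l 3)) (a (b (a (b (a (b (l 523774335) (l 523741823)) (b (l 523761279) (l 523727999))) (a (b (a (b (l 16755864) (l 16751576)) (l 523720319)) (a (l 16746016) (l 16754304))) (a (b (l 523703935) (a (l 16756752) (l 16763896))) (l 523623295)))) (b (a (b (l 3) (l 523734143)) (l 3)) (a (b (l 523635327) (l 523593087)) (l 523605119)))) (b (a (a (l 16746560) (b (a (l 16744528) (b (l 16749568) (l 16745584))) (l 16738800))) (a (b (a (b (l 16743000) (l 16748976)) (l 523634303)) (a (l 16743192) (b (l 16748448) (l 16744392)))) (b (l 523628159) (b (l 16759560) (l 16760376))))) (a (c (l 16743320) (l 16742824)) (b (a (l 16737584) (b (a (l 16743896) (l 16747504)) (l 16752408))) (a (l 16729584) (l 16736696))))))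 (b (b (l 3) (a (a (l 523631743) (l 3)) (l 3))) (a (b (a (b (l 523640959) (l 523740799)) (b (l 523661439) (l 523751551))) (b (a (l 523927935) (l 523928959)) (a (b (a (l 16743040) (l 16746648)) (l 16751624)) (l 524197759)))) (b (b (l 523685247) (l 523758975)) (b (l 523919999) (l 524172927))))))), by decide +kernel⟩

def k2_B05pp_022_s1 : ∃ t, chk3 f_B05pp_022_s1 t 5 8 1 = true :=
  ⟨(a (a (b (l 3) (b (l 3) (b (l 3) (a (b (l 523945343) (l 524004479)) (l 3))))) (l 3)) (l 3)), by decide +kernel⟩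

def k3_B05pp_022_s1 : ∃ t, chk3 f_B05pp_022_s1 t 4 9 1 = true :=
  ⟨(a (b (a (a (b (a (l 16627920) (l 16638752)) (l 16595664)) (b (b (l 16650384) (l 16637368)) (l 16616664))) (b (a (b (l 16680848) (l 16657216)) (b (l 16709824) (l 16675288))) (a (l 16677056) (b (l 16655360) (l 16636416))))) (b (a (a (l 16565696) (l 16586376)) (a (l 16641088) (l 16652136))) (a (a (l 16534312) (l 16554232)) (a (l 16566240) (l 16578280))))) (b (b (a (b (a (l 16726776) (b (l 16735360) (l 16715768))) (a (l 16687992) (c (l 16722304) (l 16701096)))) (b (a (b (a (l 16745184) (a (l 16749920) (b (l 16745368) (l 16740328)))) (a (l 16725368) (l 16731768))) (b (l 524085375) (a (c (l 16748592) (l 16749368)) (l 16756240)))) (a (b (l 16729816) (l 16731096)) (a (b (l 16729272) (l 16720432)) (b (b (l 16738480) (l 16733880)) (l 16727304)))))) (b (a (a (l 16667920) (l 16681936)) (a (l 16717304) (c (l 16731656) (l 16731872)))) (a (a (l 16648512) (l 16662920)) (a (l 16678152) (l 16714536)))))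 (a (b (a (b (l 16630360) (l 16613976)) (b (l 16644440) (l 16627176))) (a (l 16591128) (l 16604928))) (b (a (b (l 16660280) (l 16642872)) (b (l 16675680) (l 16657048))) (a (b (l 16626416) (l 16609608)) (b (l 16638104) (l 16619320))))))), by decide +kernel⟩

def k4_B05pp_022_s1 : ∃ t, chk3 f_B05pp_022_s1 t 5 18 1 = true :=
  ⟨(b (a (a (b (a (b (l 525101951) (a (l 523774847) (l 523773567))) (b (a (b (l 523584127) (l 523650687)) (b (l 3) (l 523616127))) (a (b (l 523667327) (l 523683199)) (l 523654527)))) (a (b (a (l 523707007) (l 523792767)) (a (a (l 16732568) (l 16736240)) (l 16747256))) (a (b (l 523716735) (l 523753599)) (b (l 523697791) (l 523737471))))) (b (b (l 3) (a (l 523687295) (l 3))) (a (l 523756927) (l 523879807)))) (l 3)) (a (a (b (b (a (a (l 16725840) (a (l 16731208) (l 16734448))) (a (l 16750064) (l 523776639))) (a (a (l 16717056) (l 16723312)) (a (l 16730152) (l 16737352)))) (a (c (l 16727152) (l 16726944)) (a (l 16736928) (b (l 16727944)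 (l 16718528))))) (a (b (l 523851391) (b (a (l 16735152) (l 16752768)) (a (l 16725784) (l 16732944)))) (b (l 523999615) (b (l 524094335) (l 524155519))))) (a (b (a (b (l 524174207) (l 524253055)) (a (l 3) (l 3))) (a (b (l 525536895) (a (l 524333695) (l 524462719))) (b (l 524840063) (l 524569215)))) (b (l 3) (b (l 3) (l 524509311)))))), by decide +kernel⟩

def k5_B05pp_022_s1 : ∃ t, chk3 f_B05pp_022_s1 t 5 19 1 = true :=
  ⟨(a (b (a (b (a (l 16686984) (l 16721704)) (a (l 16668192) (l 16703008))) (b (a (a (l 16711784) (c (l 16740000) (l 16739960))) (b (a (l 16730728) (l 16737704)) (a (l 16721512) (l 16728488)))) (a (b (l 16701528) (l 16692320)) (b (l 16736872) (l 16706824))))) (a (b (a (l 16649472) (l 16663472)) (a (l 16630904) (l 16645072))) (b (a (l 16678608) (l 16693392)) (a (l 16660464) (l 16675488))))) (b (a (a (b (b (l 524442495) (l 524490367)) (a (b (l 16726232) (l 16717224)) (b (l 16732680) (l 16723760)))) (a (b (l 524513151) (b (l 16738832)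 (l 16729736))) (b (l 524501119) (l 524578943)))) (b (l 526067071) (b (a (l 524502911) (l 524475775)) (a (l 524587903) (l 525904511))))) (a (b (a (l 16728168) (a (l 16737736) (b (l 16727064) (l 16718312)))) (a (l 16689504) (l 16702112))) (b (a (b (l 524753535) (l 16742832)) (b (l 524744575) (l 524949887))) (a (a (l 16711048) (l 16737968)) (b (a (l 16727144) (l 16732904)) (l 16742424))))))), by decide +kernel⟩

def k6_B05pp_022_s1 : ∃ t, chk3 f_B05pp_022_s1 t 2 10 1 = true :=
  ⟨(a (b (b (a (a (l 16552856) (l 16584680)) (a (a (l 16560904) (l 16570536)) (a (l 16579848) (l 16632544)))) (a (b (a (l 16483160) (l 16513712)) (b (a (l 16467784) (l 16497400)) (a (l 16497864) (b (l 16488552) (l 16482376))))) (b (a (l 16535584) (l 16555880)) (b (a (l 16519976) (l 16457264)) (a (b (l 16427104) (b (l 16422408) (l 16503520))) (a (b (l 16527360) (l 16522024)) (b (l 16540016) (l 16535024)))))))) (a (a (b (l 16433416) (l 16399224)) (b (l 16461784) (l 16426272))) (a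 (a (l 16461232) (b (l 16490104) (l 16455000))) (b (b (l 16590488) (l 16583600)) (a (l 16467296) (l 16481256)))))) (b (b (a (a (b (a (l 16612400) (l 16626832)) (a (l 16593832) (l 16608768))) (b (a (l 16642480) (l 16657536)) (a (l 16624560) (l 16639672)))) (a (b (a (l 16671624) (l 16684312)) (a (l 16653656) (l 16666376))) (b (a (l 16696344) (l 16750192)) (a (l 16678488) (l 16690536))))) (b (a (a (l 16583304) (a (l 16607112) (l 16622032))) (a (a (l 16635696) (l 16648320)) (a (l 16660432) (l 16672616)))) (a (b (a (a (l 16561608) (l 16578080)) (l 16602600)) (a (a (b (l 16554696) (l 16550096)) (b (l 16571704) (l 16567488))) (a (b (l 16588968) (l 16585152)) (b (l 16604640) (l 16601248))))) (a (b (l 16650432) (b (b (l 16625032) (l 16623880)) (b (l 16622968) (l 16579496)))) (b (l 16673952) (b (b (l 16647576) (l 16667088)) (b (b (b (l 16645616) (l 16646136)) (l 16645968)) (l 16644360)))))))) (a (a (a (b (l 16614696) (l 16496808)) (b (l 16632112) (l 16514448)))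 (a (b (b (l 16574640) (l 16557552)) (l 16532064)) (b (b (l 16590880) (l 16573744)) (l 16548224)))) (a (b (b (l 16611656) (l 16594544)) (l 16569088)) (b (a (l 16620672) (l 16631520)) (l 16614240)))))), by decide +kernel⟩

def k7_B05pp_022_s1 : ∃ t, chk3 f_B05pp_022_s1 t 2 11 1 = true :=
  ⟨(a (c (a (b (a (l 16351200) (l 16376944)) (a (l 16282120) (l 16309896))) (a (b (b (l 16334296) (l 16384736)) (b (l 16351672) (l 16318800))) (b (b (l 16527160) (l 16493592)) (b (l 16376816) (l 16343872))))) (a (a (b (l 16342792) (l 16270872)) (b (l 16368424) (b (l 16316104) (l 16282584)))) (b (a (b (l 16410664) (l 16376688)) (b (l 16521064) (l 16403568))) (a (b (l 16343304) (l 16310288)) (c (l 16440440) (l 16353000)))))) (a (b (a (b (b (l 16564352) (l 16547600)) (c (l 16523888) (l 16437040))) (b (l 16506592) (l 16473456))) (a (a (b (l 16397120) (l 16364640)) (b (l 16414584) (l 16382392))) (b (l 16441168) (l 16410448)))) (b (a (b (l 16535832) (l 16504088)) (b (l 16562488)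 (l 16533888))) (a (b (l 16474512) (l 16447032)) (b (l 16506856) (l 16481264)))))), by decide +kernel⟩

def k8_B05pp_022_s1 : ∃ t, chk3 f_B05pp_022_s1 t 2 3 1 = true :=
  ⟨(a (b (b (a (b (a (a (l 16201872) (l 16217480)) (b (l 16339712) (l 16391352))) (a (l 16145608) (b (l 16192256) (l 16161088)))) (b (a (b (l 16450832) (l 16418976)) (b (c (l 16311184) (l 16306792)) (c (l 16279136) (l 16275736)))) (a (l 16204424) (a (l 16434744) (l 16408784))))) (a (l 6) (b (b (a (l 16159368) (l 16191000)) (l 6)) (l 6)))) (l 6)) (b (b (a (b (b (a (a (l 16332880) (l 16351200)) (l 16381816)) (a (a (l 16302120) (l 16322232)) (c (l 16352224) (l 16357152)))) (a (b (l 16452056) (l 16258304)) (l 16318008))) (b (a (b (l 16421040) (l 16396512)) (l 16445880)) (a (b (l 16373560) (l 16352528)) (l 16405592)))) (b (a (a (l 16473800) (l 16274080)) (a (l 16324968) (l 2))) (l 6))) (l 6))), by decide +kernel⟩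

def k9_B05pp_022_s1 : ∃ t, chk3 f_B05pp_022_s1 t 3 4 1 = true :=
  ⟨(b (l 3) (a (a (b (l 3) (b (a (b (a (b (l 3) (l 524418175)) (l 3)) (a (b (l 524444799) (b (l 524492927) (l 524480127))) (b (l 3) (c (l 524447615) (l 524665215))))) (l 3)) (a (b (a (b (l 524767103) (l 525046143)) (b (a (l 524869759) (l 525031551)) (a (l 525218687) (l 525424511)))) (c (b (a (l 16762504) (l 525728895)) (a (l 16759424) (l 526016895))) (b (a (l 16762296) (l 525567615)) (a (l 16753672) (l 16754528))))) (b (a (b (l 525319807) (c (l 525858175) (l 525689471))) (b (l 3) (c (l 526423167) (l 526125183)))) (a (b (c (l 526298751) (l 526005375)) (l 526163727)) (b (l 526708351) (l 527035263))))))) (b (l 3) (b (l 3) (b (l 3) (a (a (b (l 527334527) (b (l 527651711) (l 527949695))) (a (b (l 3) (l 528707087)) (b (l 3) (a (l 527448447) (l 3))))) (l 3)))))) (l 3))), by decide +kernel⟩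

def k10_B05pp_022_s1 : ∃ t, chk3 f_B05pp_022_s1 t 6 40 1 = true :=
  ⟨(a (b (a (b (a (a (l 16721528) (l 16727344)) (a (l 16733176) (l 16738992))) (a (l 16715760) (a (l 16724800) (l 16730624)))) (a (a (b (l 16744512) (l 16736224)) (b (l 16749752) (l 16741600))) (b (b (l 527188607) (l 527196543)) (a (l 16746632) (l 16751344))))) (a (a (l 16702624) (b (l 16719152) (l 16710488))) (b (a (l 16751616) (a (l 16738320) (l 16743072))) (a (l 16722056) (l 16753376))))) (b (a (a (b (b (a (l 527658879) (l 527937151)) (a (l 16766960) (l 527822719))) (b (a (l 16757744) (l 16766984)) (c (l 16767016) (l 16765400)))) (b (c (a (b (l 528480383) (l 528307839)) (b (b (l 528545919) (l 528447615)) (l 528301439))) (b (a (l 527628159) (b (l 527643007) (l 527553407))) (a (l 527474559) (l 527423103)))) (a (b (l 527718271) (l 16761296)) (c (l 528018559) (l 527182463))))) (b (b (b (l 3) (b (l 3) (l 527881087))) (l 527206527)) (c (l 527910015) (l 526956671)))) (a (a (a (b (l 16747400)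 (l 16738920)) (b (l 16761824) (l 16742824))) (b (a (b (l 16757096) (l 16752808)) (b (l 16760592) (l 16756272))) (a (l 16746344) (l 16749736)))) (b (b (l 527127167) (b (l 526994303) (l 526917247))) (a (b (l 526958463) (l 16763128)) (a (b (l 16767360) (l 16757672)) (l 2))))))), by decide +kernel⟩

def k11_B05pp_022_s1 : ∃ t, chk3 f_B05pp_022_s1 t 6 41 1 = true :=
  ⟨(b (a (a (a (l 16684880) (l 16697184)) (a (l 16708744) (b (l 16723568) (l 16714448)))) (b (a (a (a (l 16730344) (l 16734336)) (a (l 16737896) (l 16741240))) (a (a (l 16744560) (l 16747808)) (a (l 16756320) (l 2)))) (a (a (l 16723256) (a (l 16729032) (l 16732616))) (a (b (l 16739848) (l 16735528)) (l 2))))) (a (b (a (l 16698576) (a (l 16695048) (l 16704864))) (a (b (b (l 16671864) (l 16711376)) (b (b (a (l 16662136) (l 16673424)) (l 16708992)) (l 16665536))) (a (b (l 16687712) (l 16703944)) (b (a (l 16695056) (l 16699896)) (l 16713704))))) (b (a (a (l 16713896) (l 16721376)) (a (l 16728152)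 (l 2))) (a (a (b (b (l 16707896) (l 16705240)) (b (l 16702512) (l 16700280))) (b (b (l 16715280) (l 16712552)) (b (l 16709736) (l 16707448)))) (a (b (b (l 16721928) (l 16719128)) (b (l 16716224) (l 16713880))) (l 2)))))), by decide +kernel⟩

def k12_B05pp_022_s1 : ∃ t, chk3 f_B05pp_022_s1 t 6 21 1 = true :=
  ⟨(a (a (b (a (l 16642832) (l 16654672)) (l 16619016)) (b (a (l 16665896) (l 16675584)) (a (l 16637336) (l 16647576)))) (b (a (a (l 16684664) (l 16691784)) (a (l 16719104) (l 2))) (a (a (l 16656720) (l 16665144)) (l 2)))), by decide +kernel⟩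

def k13_B05pp_022_s1 : ∃ t, chk3 f_B05pp_022_s1 t 7 10 1 = true :=
  ⟨(a (b (b (b (a (l 3) (l 2)) (l 2)) (l 2)) (l 2)) (l 2)), by decide +kernel⟩

def k14_B05pp_022_s1 : ∃ t, chk3 f_B05pp_022_s1 t 3 11 1 = true :=
  ⟨(a (b (a (a (b (l 16590768) (l 16563968)) (b (l 16615960) (l 16591248))) (a (b (l 16636552) (l 2)) (l 2))) (a (a (b (l 16538648) (l 16515224)) (l 16610224)) (l 2))) (l 2)), by decide +kernel⟩

def k15_B05pp_022_s1 : ∃ t, chk3 f_B05pp_022_s1 t 3 3 1 = true :=
  ⟨(a (b (b (a (b (a (l 16483832) (l 2)) (l 2)) (l 2)) (l 2)) (l 2)) (l 2)), by decide +kernel⟩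

theorem t16_B05pp_022_s1 : ∃ t, chk3 f_B05pp_022_s1 t 6 20 1 = true := ex3_b k10_B05pp_022_s1 k11_B05pp_022_s1

theorem t17_B05pp_022_s1 : ∃ t, chk3 f_B05pp_022_s1 t 6 10 1 = true := ex3_b t16_B05pp_022_s1 k12_B05pp_022_s1

theorem t18_B05pp_022_s1 : ∃ t, chk3 f_B05pp_022_s1 t 3 10 1 = true := ex3_a t17_B05pp_022_s1 k13_B05pp_022_s1

theorem t19_B05pp_022_s1 : ∃ t, chk3 f_B05pp_022_s1 t 3 5 1 = true := ex3_b t18_B05pp_022_s1 k14_B05pp_022_s1

theorem t20_B05pp_022_s1 : ∃ t, chk3 f_B05pp_022_s1 t 3 2 1 = true := ex3_b k9_B05pp_022_s1 t19_B05pp_022_s1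

theorem t21_B05pp_022_s1 : ∃ t, chk3 f_B05pp_022_s1 t 3 1 1 = true := ex3_b t20_B05pp_022_s1 k15_B05pp_022_s1

theorem t22_B05pp_022_s1 : ∃ t, chk3 f_B05pp_022_s1 t 2 5 1 = true := ex3_b k6_B05pp_022_s1 k7_B05pp_022_s1

theorem t23_B05pp_022_s1 : ∃ t, chk3 f_B05pp_022_s1 t 5 9 1 = true := ex3_b k4_B05pp_022_s1 k5_B05pp_022_s1

theorem t24_B05pp_022_s1 : ∃ t, chk3 f_B05pp_022_s1 t 2 9 1 = true := ex3_a k3_B05pp_022_s1 t23_B05pp_022_s1

theorem t25_B05pp_022_s1 : ∃ t, chk3 f_B05pp_022_s1 t 4 8 1 = true := ex3_a k0_B05pp_022_s1 k1_B05pp_022_s1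

theorem t26_B05pp_022_s1 : ∃ t, chk3 f_B05pp_022_s1 t 2 8 1 = true := ex3_a t25_B05pp_022_s1 k2_B05pp_022_s1

theorem t27_B05pp_022_s1 : ∃ t, chk3 f_B05pp_022_s1 t 2 4 1 = true := ex3_b t26_B05pp_022_s1 t24_B05pp_022_s1

theorem t28_B05pp_022_s1 : ∃ t, chk3 f_B05pp_022_s1 t 2 2 1 = true := ex3_b t27_B05pp_022_s1 t22_B05pp_022_s1

theorem t29_B05pp_022_s1 : ∃ t, chk3 f_B05pp_022_s1 t 2 1 1 = true := ex3_b t28_B05pp_022_s1 k8_B05pp_022_s1

theorem t30_B05pp_022_s1 : ∃ t, chk3 f_B05pp_022_s1 t 1 1 1 = true := ex3_a t29_B05pp_022_s1 t21_B05pp_022_s1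

theorem c_B05pp_022_s1 : CertF 0 536870912 1073741824 536870912 740881858 40050571 false true true .pp 0 2 2
    ndB0q0 ndB5q2 pcB2 cut_B05pp_022_s1 xt_B05pp_022_s1 :=
  certF1 (fam := false) (s1 := true) (s2 := true) (a := 0) (b := 2) (c := 2) (cn := .pp) (n1 := ndB0q0) (n2 := ndB5q2) (pc := pcB2) (cut := cut_B05pp_022_s1) (xt := xt_B05pp_022_s1) (P1 := 0) (W1 := 536870912) (P2 := 1073741824) (W2 := 536870912) (P3 := 740881858) (W3 := 40050571)
    rfl (fun _ => rfl) t30_B05pp_022_s1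

theorem s_B05pp_022_s1 {κ x : ℝ} (hκ : κ * h0 = ken x) (hx : ((740881858 : ℕ) : ℝ) / S ≤ x)
    (hx' : x ≤ (((740881858 : ℕ) : ℝ) + (40050571 : ℕ)) / S)
    (H : CutB (VFD κ) PP tK tL pcB (Cut.of [[⟨0, 0, 0, 67108864⟩, ⟨1, 1, 0, 67108864⟩, ⟨2, 1, 0, 67108864⟩]]) 0 2 2 0 5 (sgb true) (sgb true) x) :
    AltB (VFD κ) PP tK tL pcB [⟨3, 0, 0, 1449551462⟩] 0 2 2 0 5 (sgb true) (sgb true) x :=
  strip_altBD (m := 1449551462) true rfl hκ (SH.κ0 hκ (SH.hx1 hx).le (SH.hx2 hx').le) (SH.hx1 hx).le (SH.hx2 hx') (covB00).cov (covB52).cov hx hx' c_B05pp_022_s1 H ((okx hx hx').extB (T := tt) (sideB hx hx') hκ rfl rfl (.O 0 true) (.N 2 true) rfl)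

end Pool.Agent.Strip051.G.I69_7273.Tab.St.C
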