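import Pool.Agent.Strip051.G.I69_7273.Tab
import Pool.Agent.Strip051.PB.StripB

/-! # Strips, near vertex: certificates 5 (generated) -/

set_option linter.all false
set_option maxRecDepth 100000

namespace Pool.Agent.Strip051.G.I69_7273.Tab.CS.BA05

open Pool.Agent.Strip051.PB Pool.Agent.Strip051.PB.T
open Pool.Agent.Strip051.G.I69_7273.Tab

noncomputable def cut_pm_001_s : Cut := Cut.of [[⟨4, 0, 0, 1449551462⟩]]

noncomputable def f_pm_001_s : ℕ → ℕ → ℕ → ℕ → Bool := onCell 0 536870912 536870912 536870912 740881858 40050571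
    (rowNE 3 eng mog cd0q0 cd5q0 pd1 1 true true false .up 0 0 1 (qsf 0 536870912 0 536870912 1) ndB0q0 ndB5q0 pcB1 cut_pm_001_s Ext.none)

def k0_pm_001_s : ∃ t, chk3 f_pm_001_s t 2 1 1 = true :=
  ⟨(b (l 3) (b (b (l 3) (l 2)) (l 2))), by decide +kernel⟩

def k1_pm_001_s : ∃ t, chk3 f_pm_001_s t 3 4 1 = true :=
  ⟨(l 3), by decide +kernel⟩

def k2_pm_001_s : ∃ t, chk3 f_pm_001_s t 6 5 1 = true :=
  ⟨(l 3), by decide +kernel⟩

def k3_pm_001_s : ∃ t, chk3 f_pm_001_s t 7 10 1 = true :=
  ⟨(a (l 3) (b (a (l 3) (b (l 3) (a (l 3) (b (l 3) (a (l 3) (b (l 540259899623) (a (l 487109683911) (l 212231763319)))))))) (a (b (l 3) (a (l 3) (b (a (l 3) (b (l 3) (l 574082764055))) (a (b (l 3) (a (l 3) (l 539186161415))) (b (a (l 563882222167) (l 306721039783)) (a (c (l 265381980631) (l 16775424)) (l 16769304))))))) (b (a (b (l 3) (a (l 3) (b (a (l 3) (l 403894684471)) (a (c (l 310479128823) (l 307794775863)) (l 16772696))))) (b (a (b (a (l 3) (l 461876751751)) (a (l 434496336039) (l 156934062039)))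 (b (a (l 185925089783) (l 16769416)) (l 16765832))) (a (b (a (l 16773448) (l 16767696)) (l 16763848)) (l 16776984)))) (a (b (a (b (a (l 3) (c (l 312626613879) (l 305110422423))) (a (l 310479133463) (l 16771120))) (b (l 16774120) (l 16772448))) (a (b (l 16777624) (l 16780960)) (l 16772368))) (b (a (l 16774584) (l 16742544)) (l 16776016))))))), by decide +kernel⟩

def k4_pm_001_s : ∃ t, chk3 f_pm_001_s t 14 22 1 = true :=
  ⟨(a (l 3) (b (l 3) (a (l 3) (b (a (l 3) (b (a (l 3) (l 589115154247)) (a (b (l 3) (l 547239225783)) (a (b (l 548312970311) (l 218674224535)) (b (l 277193151943) (l 16772104)))))) (a (b (a (l 3) (b (l 3) (a (l 3) (c (l 350744477079) (l 16776872))))) (a (b (l 594483865367) (c (a (l 576230257495) (l 299204858119)) (l 304573557559))) (c (b (a (l 301889211255) (l 16773744)) (l 16771360)) (l 190220059527)))) (b (a (c (b (a (l 409263405719) (l 16775016)) (l 16772688)) (l 255718306535)) (l 16772832)) (c (l 16773640) (l 16773192)))))))), by decide +kernel⟩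

def k5_pm_001_s : ∃ t, chk3 f_pm_001_s t 28 46 1 = true :=
  ⟨(a (l 3) (b (l 3) (a (l 3) (b (l 3) (a (l 3) (a (l 3) (b (l 3) (c (b (a (l 3) (c (a (l 596631353895) (b (l 3) (b (l 413021503239) (l 246591519175)))) (l 468319206343))) (c (a (b (a (l 3) (l 569787809079)) (c (a (a (l 598778838311) (b (l 3) (l 298131126663))) (a (b (l 301889222983) (l 16776808)) (l 16776648))) (l 299204865383))) (b (a (a (b (l 530059362023) (l 16776976)) (l 143512304391)) (l 16776216)) (l 16776944))) (l 300278602983))) (l 301352338183))))))))), by decide +kernel⟩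

def k6_pm_001_s : ∃ t, chk3 f_pm_001_s t 56 47 1 = true :=
  ⟨(b (l 3) (a (l 3) (b (a (l 3) (b (l 3) (a (l 3) (c (b (l 3) (a (l 3) (c (b (l 3) (c (a (l 3) (c (b (l 505900170823) (l 288467450407)) (l 290614931799))) (l 438254435719))) (l 498920848103)))) (l 548849840215))))) (a (b (l 3) (a (l 3) (c (c (b (a (l 3) (l 560661003863)) (b (a (l 3) (a (l 455971175959) (l 243907163959))) (a (a (l 3) (l 379198635767)) (l 16776296)))) (b (l 570324677799) (l 330343377447))) (l 426443274471)))) (c (b (a (b (l 3) (c (a (l 3) (a (a (l 544018004983) (b (l 3) (b (l 386714829751) (l 16776984)))) (c (b (a (l 549386714471) (l 380809247255)) (l 16776648)) (l 287393704935)))) (l 438254434999))) (c (b (a (b (l 554755422903) (a (l 513416363367) (a (b (l 349133865975) (l 16776960)) (l 16776808)))) (a (b (c (b (l 400673470967) (l 216526748183)) (l 16777168)) (l 16776232)) (l 16776584))) (a (a (a (b (l 284709353479) (l 16776064)) (l 16776808)) (l 16776880)) (l 16777024))) (b (a (l 421611437255) (l 16776296))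 (l 16775136)))) (c (a (b (a (c (a (b (l 567103454311) (l 286856836295)) (b (a (l 393157279511) (l 287393708007)) (l 16776288))) (l 287930574407)) (l 16776904)) (l 16775776)) (l 16777560)) (a (l 190220067207) (l 16772200)))) (b (a (l 503215813767) (l 259476411143)) (l 108615687479))))))), by decide +kernel⟩

def k7_pm_001_s : ∃ t, chk3 f_pm_001_s t 114 94 1 = true :=
  ⟨(b (l 3) (a (l 3) (a (b (l 3) (c (b (a (l 3) (c (b (l 3) (a (l 3) (c (b (l 564419099959) (a (l 531133103751) (a (b (l 301352352631) (l 16777136)) (l 191830687031)))) (l 295983640455)))) (l 531133102519))) (c (c (a (b (l 3) (a (l 558513519703) (c (b (a (l 3) (b (l 497310236455) (l 286319967175))) (a (b (l 292762417783) (l 16777072)) (l 16776808))) (l 288467448615)))) (a (b (b (l 523616910855) (a (b (l 553144811207) (l 290078063383)) (l 164987141271))) (l 16777112)) (a (a (b (b (l 287930579831) (l 16776688)) (l 16775968)) (l 16776904)) (l 16776608)))) (a (l 468319206359) (l 234243485143))) (a (l 471003560855) (l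 16776520)))) (l 397989116487))) (c (b (b (l 3) (b (a (l 3) (c (c (a (l 3) (b (a (l 3) (a (l 541333651159) (b (l 548312973095) (l 284172483927)))) (a (b (l 502678945575) (a (a (l 298667998375) (l 288467451255)) (l 16777072))) (l 69960990247)))) (l 428590759335)) (l 297057380455))) (c (a (a (l 3) (a (l 3) (b (l 3) (l 518785072807)))) (c (a (b (a (l 552607940167) (b (a (l 561197874967) (l 289004321991)) (l 213842394391))) (a (a (a (b (l 315310996487) (l 16777144)) (l 295446772839)) (l 141364821415)) (l 16776720))) (l 16776864)) (l 241759679191))) (l 341080800903)))) (a (c (a (b (a (b (l 3) (b (b (a (l 3) (l 292225547335)) (l 260013292647)) (l 16776760))) (c (b (a (l 542944263671) (b (l 3) (b (l 298667998087) (l 16777112)))) (l 16776944)) (l 286856834967))) (l 16776256)) (b (c (b (c (b (a (a (l 555292294823) (b (l 3) (l 292762418439))) (a (l 287930579991) (l 16776928))) (a (l 117205630311) (l 16776552))) (l 262160774615)) (l 16777336)) (l 16776488)) (l 16777192))) (l 193441294071))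 (b (a (b (c (l 16776680) (l 16776176)) (l 16776520)) (l 16776200)) (l 16775960)))) (b (l 473151043111) (l 16775016)))))), by decide +kernel⟩

def k8_pm_001_s : ∃ t, chk3 f_pm_001_s t 230 376 1 = true :=
  ⟨(a (l 3) (c (b (l 3) (a (l 3) (c (b (l 3) (a (l 3) (c (b (l 3) (a (l 3) (c (c (a (c (b (l 3) (b (b (l 3) (a (l 3) (a (l 3) (a (l 3) (a (l 315310997303) (l 297594257223)))))) (b (a (l 3) (a (b (l 3) (l 293836160855)) (l 225116684167))) (a (a (l 3) (a (a (l 3) (l 309942288199)) (l 290078064471))) (l 16777160))))) (l 499994590999)) (a (b (l 3) (c (b (a (a (b (l 3) (l 289004322663)) (b (a (l 3) (l 352891961143)) (l 16777192))) (a (b (l 304573579095) (l 16777168)) (l 142975434631))) (l 16777088)) (l 240685940359))) (b (b (l 3) (a (b (l 3) (a (l 310479159111) (l 291688677223))) (a (b (l 350744477463) (l 16777192)) (l 296520515383)))) (l 16777216)))) (b (l 535964942087) (l 297594256231))) (l 301889222791)))) (l 517174459767)))) (l 545628616935)))) (l 559050387015))), by decide +kernel⟩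

def k9_pm_001_s : ∃ t, chk3 f_pm_001_s t 460 754 2 = true :=
  ⟨(l 3), by decide +kernel⟩

def k10_pm_001_s : ∃ t, chk3 f_pm_001_s t 922 754 4 = true :=
  ⟨(b (l 3) (c (a (l 3) (b (a (l 3) (a (l 3) (c (b (l 3) (a (b (l 3) (a (b (l 3) (l 290078064391)) (l 299204869879))) (b (a (b (l 3) (l 296520515319)) (l 289541193399)) (l 16777128)))) (l 295446772215)))) (c (a (b (a (l 3) (l 546165489463)) (a (a (l 3) (b (l 3) (b (l 299204869719) (l 312089771783)))) (a (b (a (a (l 3) (l 312626642551)) (l 292762418855)) (l 16777144)) (l 101636374295)))) (a (b (a (b (a (l 3) (a (l 3) (l 311016029831))) (l 260013293271)) (a (b (l 291151806119) (l 16777112)) (l 111300050727))) (l 16777120)) (l 16777040))) (l 292225546071)))) (l 451139337543))), by decide +kernel⟩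

def k11_pm_001_s : ∃ t, chk3 f_pm_001_s t 923 1508 8 = true :=
  ⟨(a (b (a (l 3) (a (l 3) (a (l 3) (b (l 3) (c (l 550460456791) (l 16777128)))))) (c (a (b (l 3) (a (l 3) (a (l 559050391367) (b (l 3) (a (b (l 3) (l 306721062743)) (l 279340646199)))))) (a (c (a (b (l 3) (b (b (a (l 3) (l 295983644407)) (l 290078064375)) (l 16777120))) (b (b (l 3) (a (b (l 3) (l 299741740775)) (a (b (l 3) (l 288467451751)) (l 322290319111)))) (l 16777160))) (l 289541192439)) (c (b (a (a (b (l 3) (l 238538456871)) (b (b (l 3) (l 290614935303)) (l 16777136))) (a (b (b (l 293299289847) (l 16777176)) (l 16777088)) (l 16777176))) (l 16777096)) (l 16777048)))) (a (l 530596232839) (l 288467450455)))) (b (c (a (a (b (l 3) (c (c (b (a (a (l 3) (a (l 3) (b (l 3) (l 314237255431)))) (a (b (l 3) (l 289004322615)) (a (b (l 297594257175) (l 16777184)) (l 222969200471)))) (a (a (b (a (l 3) (l 309405417239)) (l 226727296919)) (l 201494363975)) (l 16777104))) (b (l 293836160311) (l 16777152))) (l 287930580167)))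 (c (b (a (b (l 3) (a (b (l 3) (a (l 313700384535) (l 293299289943))) (b (a (l 3) (l 296520515367)) (l 16777192)))) (b (b (l 3) (a (b (l 3) (l 302962966327)) (l 286856838967))) (b (l 178408914791) (l 16777120)))) (l 16777136)) (l 284172483543))) (c (b (a (b (a (a (a (b (l 296520515399) (l 16777176)) (l 187535720295)) (l 16777144)) (l 16777072)) (l 16777160)) (l 16777184)) (l 16777048)) (l 16776840))) (l 257865808087)) (a (a (b (l 16777056) (l 16776728)) (l 16777304)) (l 16777008)))), by decide +kernel⟩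

def k12_pm_001_s : ∃ t, chk3 f_pm_001_s t 923 1509 8 = true :=
  ⟨(a (c (b (a (c (b (b (a (a (l 3) (a (l 3) (b (l 3) (l 293836160759)))) (a (a (a (l 291151806167) (l 306184191783)) (l 16777168)) (l 16777096))) (a (a (b (l 3) (a (l 315847868119) (l 287930580791))) (l 219211104007)) (l 16777192))) (a (l 16777120) (l 16776840))) (l 241222810519)) (l 16776912)) (b (l 16777160) (l 16776912))) (l 16776616)) (l 16777136)), by decide +kernel⟩

def k13_pm_001_s : ∃ t, chk3 f_pm_001_s t 923 754 9 = true :=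
  ⟨(b (a (l 436106952263) (l 16776784)) (l 16776216)), by decide +kernel⟩

def k14_pm_001_s : ∃ t, chk3 f_pm_001_s t 461 754 5 = true :=
  ⟨(a (l 507510782631) (l 256255191863)), by decide +kernel⟩

def k15_pm_001_s : ∃ t, chk3 f_pm_001_s t 230 755 2 = true :=
  ⟨(a (a (l 3) (c (b (a (l 3) (c (b (l 3) (a (l 3) (c (b (l 3) (l 535428071127)) (l 552607940167)))) (l 561197874215))) (c (a (b (l 3) (b (l 3) (a (l 3) (a (l 549923585847) (a (b (l 314237255079) (l 299204869847)) (l 218137362071)))))) (c (b (b (a (l 3) (a (a (l 564955971399) (b (l 3) (l 289004322407))) (a (a (l 292762418695) (l 227801038487)) (l 16777088)))) (a (b (l 545628618487) (a (l 3) (a (l 297057385943) (l 16777176)))) (a (l 140291079831) (l 16776896)))) (a (a (b (a (b (l 3) (l 290614935127)) (l 306184191479)) (l 16777008)) (l 16777088)) (l 16776960))) (b (l 290614932999) (l 16776824)))) (a (l 529522490615) (l 289004319927)))) (l 434496339063))) (c (b (b (a (c (c (b (b (a (l 566566584471) (a (a (a (l 288467451495)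 (l 16777120)) (l 16776976)) (l 16776672))) (a (a (l 3) (b (l 522543169351) (a (l 3) (a (l 300278611591) (l 16777168))))) (l 16777000))) (a (a (l 3) (c (a (a (b (l 3) (a (l 309942287911) (l 290614935223))) (b (a (l 315310996999) (l 294373031543)) (l 16777152))) (l 85530246919)) (l 286319967175))) (l 16776896))) (a (l 433422597847) (l 16776688))) (l 291151802999)) (l 16776800)) (a (c (c (a (a (a (b (l 557976649495) (a (b (a (l 3) (l 297594256999)) (l 16777168)) (l 168208367287))) (b (b (a (l 3) (l 290078064215)) (l 246054649431)) (l 16776984))) (l 16777048)) (l 16777520)) (l 134922369271)) (l 16776592)) (l 16776312))) (a (a (a (b (l 16776960) (l 16776224)) (l 16777384)) (l 16776784)) (l 16776896))) (l 16775520))), by decide +kernel⟩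

def k16_pm_001_s : ∃ t, chk3 f_pm_001_s t 230 377 3 = true :=
  ⟨(a (l 536501809703) (l 292225535783)), by decide +kernel⟩

def k17_pm_001_s : ∃ t, chk3 f_pm_001_s t 231 188 2 = true :=
  ⟨(c (b (a (b (a (l 3) (c (b (a (l 3) (b (l 582672711095) (a (l 472614174471) (l 252497099719)))) (b (a (a (l 3) (a (l 533817458423) (b (l 349133863799) (l 16777128)))) (c (l 96267664647) (l 16776752))) (a (a (b (l 522543169351) (a (l 300815482039) (l 16777048))) (l 16776864)) (l 16776264)))) (b (l 517174459623) (l 296520511591)))) (c (a (b (a (b (l 3) (a (l 3) (c (b (l 3) (b (l 586967678727) (a (l 3) (a (l 305110449639) (l 16777160))))) (l 558513520327)))) (c (b (a (l 586967678567) (a (b (l 590188904247) (l 301889224103)) (b (l 302962965767) (l 16776960)))) (a (b (a (b (l 3) (a (l 351818218935) (l 300815482503))) (l 221358587463)) (l 76940312263)) (l 16777024))) (b (l 302426092903) (l 16776896)))) (c (a (c (b (a (b (l 605221289639) (b (a (l 3) (a (a (l 3) (b (l 3) (l 306184191735))) (l 297594257047)))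 (a (a (l 3) (b (l 3) (a (l 357723799255) (l 300278611767)))) (a (l 274508807911) (l 16777080))))) (b (a (a (b (l 3) (l 298667998823)) (b (l 302962966103) (l 16777120))) (l 16777032)) (l 16777216))) (a (b (a (c (b (a (a (a (l 3) (b (l 3) (l 307794804551))) (b (l 350744477399) (l 16777136))) (l 181630140215)) (l 16777248)) (l 282025000407)) (l 16777112)) (l 16777128)) (l 16777184))) (b (a (l 449528725287) (l 215453006967)) (l 16777376))) (l 16776824)) (a (b (l 298131125991) (l 16776720)) (l 16776168)))) (a (b (l 16776992) (l 16775368)) (l 16777672))) (a (b (a (l 586430807207) (l 297057383287)) (l 200957490583)) (l 16775432)))) (b (b (a (a (a (b (l 306184190663) (l 16776632)) (l 16776480)) (l 16775872)) (l 16774656)) (l 16775800)) (l 16775640))) (a (b (a (c (b (a (l 16777304) (l 16775192)) (l 16777248)) (l 16775088)) (l 16776112)) (l 16774968)) (l 16775328))) (b (a (b (l 465634849031) (l 263771383031)) (l 16773936)) (l 16776848))), by decide +kernel⟩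

def k18_pm_001_s : ∃ t, chk3 f_pm_001_s t 231 188 3 = true :=
  ⟨(b (a (l 297594243143) (l 16773856)) (l 16771464)), by decide +kernel⟩

def k19_pm_001_s : ∃ t, chk3 f_pm_001_s t 115 189 1 = true :=
  ⟨(b (c (a (c (a (c (b (a (b (a (l 3) (b (l 3) (a (l 564419100183) (b (b (l 538112425751) (a (l 3) (l 287393709495))) (a (a (b (l 3) (l 287930580583)) (l 295446773271)) (l 16777024)))))) (a (b (a (l 3) (l 531133103735)) (a (a (l 3) (a (l 531669974807) (b (l 3) (l 286319967655)))) (a (b (a (a (l 3) (l 309942287623)) (l 290614934871)) (l 16777048)) (l 16777056)))) (c (b (a (a (b (l 527375007559) (l 239612198359)) (b (l 288467451191) (l 16776944))) (l 16776768)) (l 16776808)) (l 16776720)))) (b (a (c (b (a (b (l 529522491127) (a (b (a (l 3) (l 317995351463)) (l 291688676727)) (l 187535720007))) (a (a (b (l 293299289527) (l 16776968)) (l 16776992)) (l 16776840))) (l 16777024)) (l 237464712983)) (l 16776592)) (b (l 16777088) (l 16776600)))) (a (b (b (a (a (a (b (l 293299289351) (l 16776960))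 (l 16776888)) (l 16776592)) (l 16776000)) (l 16776568)) (l 16776496)) (l 16776704))) (b (a (b (l 524153781239) (l 292225543799)) (l 16776000)) (l 16777472))) (b (l 16776232) (l 16776912))) (a (b (a (l 293836153367) (l 16775984)) (l 16774816)) (l 16772552))) (l 16773616)) (a (a (l 229948512503) (l 16772432)) (l 16767392))) (c (a (c (a (l 16777200) (l 16774000)) (l 16775464)) (l 16774288)) (l 16771912))), by decide +kernel⟩

def k20_pm_001_s : ∃ t, chk3 f_pm_001_s t 57 95 1 = true :=
  ⟨(b (a (a (a (b (l 3) (c (a (b (c (b (l 3) (a (l 3) (c (b (l 3) (l 437180694215)) (l 497847106967)))) (l 540796778759)) (c (c (b (b (a (l 555829165415) (l 253033969911)) (a (a (l 516637589175) (l 290078063287)) (l 16776536))) (l 16776864)) (l 256792062903)) (l 16776656))) (c (b (a (b (l 534891199687) (a (b (a (l 541870522055) (l 291688675911)) (l 16776904)) (l 16776752))) (b (a (b (l 535428071015) (l 257865808599)) (b (l 291151804903) (l 16776696))) (l 16776168))) (l 16776432)) (l 221895451719)))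 (l 290614921671))) (c (b (c (a (b (l 3) (a (b (l 3) (c (c (b (l 471540432519) (a (l 289541191975) (l 16776880))) (l 289541190215)) (l 290614931863))) (b (a (l 523080039895) (b (l 526838136455) (l 238001585031))) (l 51170507927)))) (a (b (b (l 3) (a (l 561734745351) (a (l 499457719911) (b (l 3) (l 289004321751))))) (a (b (b (l 289004322007) (l 16776664)) (l 16775944)) (l 16776680))) (b (a (b (l 3) (b (b (l 524690652919) (l 287393708903)) (l 16776840))) (c (b (l 511805750807) (l 16776688)) (l 287930576615))) (l 16776096)))) (b (l 474224785767) (l 258402672359))) (c (b (a (c (l 16776472) (l 16775464)) (l 16776528)) (l 16778016)) (l 16773656))) (b (l 294373016791) (l 16773544)))) (c (b (a (c (b (a (c (b (a (c (b (a (l 513953234631) (l 284172483239)) (l 124184951815)) (l 287930578135)) (l 16776936)) (l 16776368)) (l 139754206151)) (l 16777232)) (l 16776096)) (l 16774376)) (l 16776456)) (c (l 16774240) (l 16768832))) (l 16775832))) (c (a (c (l 16775024) (l 16774784)) (l 16768408))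 (l 16771056))) (a (a (c (b (c (a (b (l 16775456) (l 16777312)) (l 16775136)) (l 16776568)) (l 16772768)) (l 16774352)) (c (l 16773568) (l 16762496))) (c (l 16763856) (l 16752472)))), by decide +kernel⟩

def k21_pm_001_s : ∃ t, chk3 f_pm_001_s t 58 46 1 = true :=
  ⟨(b (a (b (l 3) (a (l 3) (b (l 3) (a (l 3) (c (l 598241964007) (l 599315705271)))))) (b (a (l 3) (a (b (l 3) (a (l 580525225143) (b (l 587504547847) (l 297594251335)))) (c (b (l 491941525095) (b (l 270213833703) (l 16774272))) (l 300278590679)))) (c (a (a (b (l 3) (c (b (l 478519750855) (l 279340639223)) (l 300278598455))) (b (a (l 493552138375) (b (l 475298528167) (l 16776160))) (l 16776608))) (b (a (l 84993371255) (l 16771232)) (l 16779376))) (a (b (l 491404653399) (l 287393694359)) (l 16770768))))) (a (b (a (b (l 3) (a (l 3) (c (a (l 3) (b (l 3) (b (l 531669974135) (a (l 302426091815) (l 16776576))))) (l 535964939511)))) (a (c (b (b (l 3) (a (l 3) (l 474224785031))) (c (b (a (b (l 587504548615) (l 300815477879))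 (l 167671493479)) (l 16777640)) (l 279340636375))) (b (l 579988353351) (l 16775936))) (c (b (a (b (l 571935291911) (l 255181450663)) (b (l 298667993383) (l 16774848))) (l 16775296)) (l 222432316247)))) (c (c (a (b (a (b (l 595557613431) (a (b (l 3) (a (l 3) (l 417853341335))) (b (a (l 485499076055) (l 270213838519)) (l 16776312)))) (a (b (a (b (l 596631354423) (l 298131125383)) (l 277193158999)) (l 16775176)) (l 16777144))) (a (b (a (a (b (a (l 471540432503) (l 295446771351)) (l 16776384)) (l 16777368)) (l 16777464)) (l 16776312)) (l 16776640))) (b (l 16775640) (l 16776936))) (a (b (a (b (l 597168223335) (l 345912639063)) (l 191830680311)) (l 16778208)) (l 16773528))) (a (b (a (l 431275112631) (l 16775256)) (l 16772864)) (l 16768112)))) (b (c (a (b (l 16775576) (l 16778128)) (l 16773336)) (l 16776464)) (c (l 16779192) (l 16757792))))), by decide +kernel⟩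

def k22_pm_001_s : ∃ t, chk3 f_pm_001_s t 59 46 1 = true :=
  ⟨(b (a (b (a (c (b (a (l 263234509207) (l 16772488)) (l 16775376)) (l 16772064)) (l 16775632)) (c (l 16771024) (l 16760296))) (c (l 16771552) (l 16771192))) (a (c (l 16769352) (l 16768888)) (l 16754968))), by decide +kernel⟩

def k23_pm_001_s : ∃ t, chk3 f_pm_001_s t 29 47 1 = true :=
  ⟨(b (a (a (b (c (a (b (l 16776904) (l 16775584)) (l 16770904)) (l 16773808)) (c (l 16766320) (l 16755184))) (c (l 16767224) (l 16766464))) (c (l 16746160) (l 16745344))) (a (c (a (l 16765000) (l 16730512)) (l 16767480)) (l 16729728))), by decide +kernel⟩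

def k24_pm_001_s : ∃ t, chk3 f_pm_001_s t 15 11 1 = true :=
  ⟨(b (a (b (a (b (a (l 3) (b (l 3) (a (l 3) (b (l 586430801671) (l 307257911719))))) (b (a (l 3) (a (b (l 569250933799) (l 303499817015)) (c (l 16772736) (l 16772448)))) (a (a (l 3) (b (l 506973909399) (l 300278594407))) (a (l 16776712) (l 16764864))))) (b (a (b (a (l 476372258103) (b (l 303499819111) (l 16772832))) (a (c (l 170892707015) (l 16773520)) (l 16767232))) (a (l 16775072) (l 16779280))) (a (c (l 16770024) (l 16779424)) (l 16767320)))) (a (b (a (a (b (c (b (l 414095243175) (l 234243476727)) (l 306184166455)) (l 16774216)) (b (l 16775512) (l 16762176))) (b (l 16781216) (l 16752192))) (a (l 16774032) (l 16760760))) (c (c (l 16773040) (l 16771488)) (l 16769216)))) (a (b (b (a (l 16770016) (l 16736976)) (l 16769856)) (c (l 16727448) (l 16723496))) (b (c (l 16734808) (l 16711144)) (l 16682056)))) (a (b (a (c (b (l 16751920) (l 16734744)) (l 16761760)) (c (l 16718760) (l 16713088))) (a (b (l 16716624) (l 16679552))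 (l 16679024))) (a (b (l 16692160) (l 16635008)) (b (l 16649392) (l 16613968))))), by decide +kernel⟩

def k25_pm_001_s : ∃ t, chk3 f_pm_001_s t 12 12 1 = true :=
  ⟨(b (l 3) (a (l 3) (b (l 3) (a (l 3) (b (l 3) (a (b (l 3) (l 2)) (b (a (l 3) (b (a (l 3) (l 571935289639)) (a (c (l 502142072647) (l 517174457639)) (a (b (l 280414393303) (l 16776032)) (l 16778176))))) (a (b (b (l 575693385495) (l 2)) (l 2)) (a (b (b (l 74792832391) (l 16774264)) (l 16771272)) (l 16772968)))))))))), by decide +kernel⟩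

def k26_pm_001_s : ∃ t, chk3 f_pm_001_s t 26 24 1 = true :=
  ⟨(l 3), by decide +kernel⟩

def k27_pm_001_s : ∃ t, chk3 f_pm_001_s t 27 48 1 = true :=
  ⟨(a (l 3) (b (l 3) (a (b (l 3) (a (l 3) (b (l 3) (a (l 3) (b (l 551534195911) (a (l 494625880791) (a (l 292762413735) (l 16776352)))))))) (b (a (b (l 3) (a (l 3) (c (l 550997325767) (l 554218549287)))) (c (b (a (l 3) (b (a (l 3) (l 438791306359)) (a (a (l 481740979335) (l 290614930231)) (l 16776080)))) (a (a (b (l 556366035175) (a (l 290614930279) (l 16776432))) (b (b (l 297057380391) (l 16776720)) (l 16775320))) (l 16776632))) (b (l 445233755271) (l 266455728599)))) (c (a (b (b (a (l 3) (a (l 429127630023) (l 81235281719))) (a (a (l 3) (a (l 466708593879) (l 290614930295))) (l 16775296))) (a (a (a (b (l 253570845751) (l 16775640)) (l 55465477911)) (l 16774728)) (l 16772512))) (a (l 16775328) (l 16778896))) (a (b (a (l 512342619335) (l 16776160)) (l 16773848)) (l 16769608))))))), by decide +kernel⟩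

def k28_pm_001_s : ∃ t, chk3 f_pm_001_s t 27 49 1 = true :=
  ⟨(a (b (a (l 3) (b (l 3) (a (l 3) (b (a (l 3) (c (b (l 3) (a (l 553681680567) (l 212768656711))) (l 484425332295))) (a (a (l 509121393911) (b (l 523080038967) (l 16777776))) (c (c (b (l 88751475127) (l 16774368)) (l 16775224)) (l 16775168))))))) (a (b (a (l 3) (b (l 3) (a (l 3) (c (l 516637586903) (l 527911875543))))) (a (b (l 3) (a (l 3) (a (c (l 449528724103) (l 308868553719)) (b (l 431811984519) (l 16776064))))) (a (a (b (l 539723036023) (l 49023027495)) (b (b (l 555292293143) (l 159081564871)) (l 16774136))) (b (a (a (b (l 280951262663) (l 16775824)) (l 74792831127)) (l 16774960)) (l 16772000))))) (b (a (b (a (l 554218549367) (c (b (l 437180693319) (a (l 189146336199) (l 16775688))) (l 206326209335))) (a (b (a (l 481740979015) (l 130090535415)) (l 16775568)) (l 16776232))) (c (a (l 16777880) (l 16780272)) (l 16770992))) (c (b (l 16774512) (l 16775480)) (l 16776920))))) (b (a (b (a (b (l 3) (c (a (l 535964939239)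 (b (a (l 535428069863) (l 176798305143)) (l 62981671319))) (a (l 546702356871) (l 174650824695)))) (c (b (a (b (l 480130365863) (a (a (l 306184195575) (l 174113949911)) (l 16775960))) (c (l 16777336) (l 16774664))) (l 16775088)) (b (l 295983626951) (l 16772280)))) (a (b (a (b (a (a (l 514490104743) (l 224579816311)) (l 16776216)) (l 16775088)) (l 16775696)) (l 16774752)) (l 16777240))) (b (a (a (l 16773696) (l 16777240)) (l 16772672)) (l 16768192))) (a (b (c (l 16773024) (l 16782976)) (l 16775840)) (l 16767464)))), by decide +kernel⟩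

def k29_pm_001_s : ∃ t, chk3 f_pm_001_s t 26 50 1 = true :=
  ⟨(a (b (l 3) (a (l 3) (b (l 3) (a (l 3) (b (a (l 3) (l 551534195079)) (a (c (l 489257170727) (l 511268877591)) (b (a (l 443086273559) (l 16776592)) (l 16775448)))))))) (b (a (b (l 3) (a (l 3) (b (l 3) (a (l 3) (l 545628615223))))) (b (a (l 3) (a (b (l 3) (c (b (l 3) (l 388325440743)) (l 468319205111))) (b (l 534891197255) (a (b (l 255181459591) (l 16775808)) (l 16775312))))) (a (a (b (l 3) (c (b (l 404431567975) (l 100025764375)) (l 183777630439))) (b (a (l 482277849239) (b (l 491404655367) (l 16776352))) (l 16776952))) (b (c (a (c (l 16777840) (l 16775184)) (l 16772456)) (l 16773712)) (l 16775384))))) (a (b (a (b (l 3) (a (l 3) (a (l 493015267271) (b (l 525227522599) (l 16776544))))) (b (a (c (l 477446010807) (l 490867783143)) (a (b (l 281488134647) (l 16776040)) (l 16778184))) (c (a (c (l 67276638983) (l 16775400)) (l 16772712)) (l 16773968)))) (b (a (a (c (b (l 423758920615) (l 110763183239)) (l 192904436375))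 (l 16778456)) (l 16775648)) (a (l 16776176) (l 16766752)))) (b (a (c (l 16775640) (l 16770192)) (l 16775192)) (l 16770720))))), by decide +kernel⟩

def k30_pm_001_s : ∃ t, chk3 f_pm_001_s t 26 51 1 = true :=
  ⟨(a (b (a (b (a (l 3) (b (l 3) (a (l 3) (l 564419096839)))) (a (b (l 3) (a (l 3) (a (l 530059360023) (b (l 554218551671) (l 16776584))))) (b (a (c (l 502142072551) (l 520932553927)) (a (b (l 460266142679) (l 16776136)) (l 42580576999))) (a (a (b (l 162839661799) (l 16775160)) (l 16774688)) (l 16772552))))) (b (a (a (b (l 3) (c (b (l 440401918791) (l 100562636119)) (l 187535727559))) (b (a (l 517711329063) (b (l 544554875271) (l 16776608))) (l 16777128))) (a (a (b (b (l 171429596391) (l 16775224)) (l 16772408)) (l 16775512)) (l 16774736))) (a (b (l 16775400) (l 16768304)) (l 16775112)))) (b (a (b (a (a (b (l 440401918679) (a (l 152639114407) (l 16775600))) (l 16774408)) (l 16775344)) (a (l 16774560) (l 16766200))) (l 16772792)) (a (a (l 16776488) (l 16760280)) (l 16772808))))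 (b (a (b (a (l 16777168) (l 16761200)) (l 16766880)) (l 16767464)) (a (l 16760528) (l 16754768)))), by decide +kernel⟩

def k31_pm_001_s : ∃ t, chk3 f_pm_001_s t 27 25 1 = true :=
  ⟨(a (b (b (b (a (a (b (a (c (b (l 367924344951) (l 16775952)) (l 169818986231)) (l 16776648)) (l 16774408)) (l 16773168)) (l 16769760)) (a (c (l 16774176) (l 16773744)) (l 16772928))) (a (c (l 16773904) (l 16773160)) (l 16761984))) (b (a (l 16758760) (l 16726224)) (l 16737744))) (b (b (a (l 16764776) (l 16731712)) (l 16744088)) (l 16744056))), by decide +kernel⟩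

def k32_pm_001_s : ∃ t, chk3 f_pm_001_s t 6 13 1 = true :=
  ⟨(a (b (a (l 2) (b (a (l 2) (a (l 2) (a (l 2) (b (l 13522427959) (l 2))))) (l 2))) (l 2)) (a (b (b (a (b (a (c (l 16766856) (l 16771984)) (l 16760784)) (a (l 16755600) (l 16723432))) (b (a (l 16728896) (l 16717984)) (l 16738512))) (a (b (l 16735816) (l 2)) (a (l 16708328) (l 16676568)))) (b (a (l 2) (l 16690232)) (l 2))) (a (b (b (c (l 16735800) (l 16713072)) (l 16680944)) (b (l 16626600) (l 16593936))) (b (b (l 16711408) (l 16657880)) (b (l 16604048) (l 16571720)))))), by decide +kernel⟩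

def k33_pm_001_s : ∃ t, chk3 f_pm_001_s t 28 48 1 = true :=
  ⟨(a (b (b (a (a (l 3) (b (l 3) (c (a (b (l 3) (a (l 3) (l 517174459015))) (a (b (l 561734744247) (b (a (l 475835399623) (l 118816244919)) (l 16776344))) (c (c (b (b (l 413558373895) (a (l 171966465415) (l 16776352))) (l 16775328)) (l 271824446023)) (l 273435058647)))) (a (l 563882225591) (l 292762405223))))) (c (a (b (a (b (a (l 3) (a (l 557439777447) (b (l 570861550599) (a (l 291151803639) (l 16776888))))) (a (a (c (l 496773364903) (l 300815475719)) (b (l 467245465063) (l 16776712))) (a (a (l 202031232471) (l 16776224)) (l 16775648)))) (c (b (a (a (b (a (l 294373028711) (l 152102241287)) (l 16776320)) (l 16776024)) (l 16774872)) (l 16776368)) (l 16774632))) (a (c (l 16776264) (l 16773896)) (l 16776080))) (b (c (l 16775296) (l 16769896)) (l 16776624))) (a (b (a (l 296520499831) (l 16774544)) (l 16772168)) (l 16772880)))) (a (a (b (a (l 3) (c (b (l 3) (a (l 3) (a (l 486035946599) (b (l 479593496007) (l 16776736)))))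 (l 518785070119))) (c (a (a (l 548849841655) (b (l 560661002423) (a (l 290614930167) (l 16776456)))) (a (b (b (l 418927082951) (l 99488892471)) (l 16775328)) (l 16777376))) (a (l 434496338087) (l 16775424)))) (c (a (b (c (b (a (b (l 574082775639) (l 362555637463)) (a (b (l 233706620599) (l 16776368)) (l 16776080))) (c (l 16777968) (l 16775320))) (l 286856827847)) (l 16775096)) (b (l 16775824) (l 16769416))) (c (l 138680454935) (l 16772576)))) (a (c (l 16777144) (l 16766208)) (l 16770520)))) (a (b (a (c (b (a (a (b (b (l 150491629383) (l 16775992)) (l 16774576)) (l 16776632)) (l 16776984)) (l 16774744)) (l 16771120)) (l 16773712)) (c (l 16771304) (l 16781128))) (c (l 16769168) (l 16772056)))) (b (a (c (b (c (l 16769208) (l 16779296)) (l 16771824)) (l 16774664)) (c (l 16762696) (l 16761344))) (a (l 16754368) (l 16746432)))), by decide +kernel⟩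

def k34_pm_001_s : ∃ t, chk3 f_pm_001_s t 28 49 1 = true :=
  ⟨(a (b (a (c (l 16770600) (l 16769528)) (l 16757336)) (a (l 16755072) (l 16721328))) (a (l 16741848) (l 16723352))), by decide +kernel⟩

def k35_pm_001_s : ∃ t, chk3 f_pm_001_s t 29 24 1 = true :=
  ⟨(b (a (c (b (l 16742600) (l 16727232)) (l 16747168)) (b (l 16713848) (l 16677200))) (a (l 16723832) (l 16674824))), by decide +kernel⟩

def k36_pm_001_s : ∃ t, chk3 f_pm_001_s t 14 25 1 = true :=
  ⟨(a (b (a (c (l 16738048) (l 16746136)) (l 16721000)) (a (l 16696560) (l 16649200))) (b (a (l 16672824) (l 16623584)) (l 16665184))), by decide +kernel⟩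

def k37_pm_001_s : ∃ t, chk3 f_pm_001_s t 15 12 1 = true :=
  ⟨(b (a (a (b (l 16676464) (l 16624464)) (l 16671096)) (a (l 16637984) (l 16554672))) (a (b (l 16620256) (l 16569072)) (l 16590776))), by decide +kernel⟩

def k38_pm_001_s : ∃ t, chk3 f_pm_001_s t 7 13 1 = true :=
  ⟨(a (b (a (a (b (l 16644512) (l 16612464)) (b (l 16618272) (l 16586512))) (b (l 16618584) (l 16545392))) (a (a (a (l 16591016) (l 16578952)) (l 16581008)) (a (l 16533952) (l 16485376)))) (b (a (l 16595784) (l 16499104)) (a (l 16462368) (l 16378048)))), by decide +kernel⟩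

def k39_pm_001_s : ∃ t, chk3 f_pm_001_s t 3 7 1 = true :=
  ⟨(a (b (a (l 2) (b (a (l 2) (b (a (l 2) (l 16540176)) (l 2))) (l 2))) (l 2)) (b (a (a (b (b (l 16589424) (l 16496120)) (b (l 16466552) (l 2))) (b (b (l 16455360) (l 16426680)) (a (l 16397496) (l 16373728)))) (b (a (l 16449128) (l 16324856)) (a (l 16399136) (l 16298864)))) (a (b (a (l 2) (l 16433232)) (l 2)) (a (b (l 16331224) (l 16247456)) (b (l 16235224) (l 16196144)))))), by decide +kernel⟩

theorem s40_pm_001_s : ∃ t, chk3 f_pm_001_s t 28 24 1 = true := ex3_b k33_pm_001_s k34_pm_001_s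

theorem s41_pm_001_s : ∃ t, chk3 f_pm_001_s t 14 24 1 = true := ex3_a s40_pm_001_s k35_pm_001_s

theorem s42_pm_001_s : ∃ t, chk3 f_pm_001_s t 14 12 1 = true := ex3_b s41_pm_001_s k36_pm_001_s

theorem s43_pm_001_s : ∃ t, chk3 f_pm_001_s t 7 12 1 = true := ex3_a s42_pm_001_s k37_pm_001_s

theorem s44_pm_001_s : ∃ t, chk3 f_pm_001_s t 7 6 1 = true := ex3_b s43_pm_001_s k38_pm_001_s

theorem s45_pm_001_s : ∃ t, chk3 f_pm_001_s t 26 25 1 = true := ex3_b k29_pm_001_s k30_pm_001_s

theorem s46_pm_001_s : ∃ t, chk3 f_pm_001_s t 13 25 1 = true := ex3_a s45_pm_001_s k31_pm_001_s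

theorem s47_pm_001_s : ∃ t, chk3 f_pm_001_s t 27 24 1 = true := ex3_b k27_pm_001_s k28_pm_001_s

theorem s48_pm_001_s : ∃ t, chk3 f_pm_001_s t 13 24 1 = true := ex3_a k26_pm_001_s s47_pm_001_s

theorem s49_pm_001_s : ∃ t, chk3 f_pm_001_s t 13 12 1 = true := ex3_b s48_pm_001_s s46_pm_001_s

theorem s50_pm_001_s : ∃ t, chk3 f_pm_001_s t 6 12 1 = true := ex3_a k25_pm_001_s s49_pm_001_s

theorem s51_pm_001_s : ∃ t, chk3 f_pm_001_s t 6 6 1 = true := ex3_b s50_pm_001_s k32_pm_001_s

theorem s52_pm_001_s : ∃ t, chk3 f_pm_001_s t 3 6 1 = true := ex3_a s51_pm_001_s s44_pm_001_s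

theorem s53_pm_001_s : ∃ t, chk3 f_pm_001_s t 3 3 1 = true := ex3_b s52_pm_001_s k39_pm_001_s

theorem s54_pm_001_s : ∃ t, chk3 f_pm_001_s t 29 46 1 = true := ex3_a k21_pm_001_s k22_pm_001_s

theorem s55_pm_001_s : ∃ t, chk3 f_pm_001_s t 29 23 1 = true := ex3_b s54_pm_001_s k23_pm_001_s

theorem s56_pm_001_s : ∃ t, chk3 f_pm_001_s t 231 188 1 = true := ex3_c k17_pm_001_s k18_pm_001_s

theorem s57_pm_001_s : ∃ t, chk3 f_pm_001_s t 923 754 8 = true := ex3_b k11_pm_001_s k12_pm_001_s

theorem s58_pm_001_s : ∃ t, chk3 f_pm_001_s t 923 754 4 = true := ex3_c s57_pm_001_s k13_pm_001_s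

theorem s59_pm_001_s : ∃ t, chk3 f_pm_001_s t 461 754 4 = true := ex3_a k10_pm_001_s s58_pm_001_s

theorem s60_pm_001_s : ∃ t, chk3 f_pm_001_s t 461 754 2 = true := ex3_c s59_pm_001_s k14_pm_001_s

theorem s61_pm_001_s : ∃ t, chk3 f_pm_001_s t 230 754 2 = true := ex3_a k9_pm_001_s s60_pm_001_s

theorem s62_pm_001_s : ∃ t, chk3 f_pm_001_s t 230 377 2 = true := ex3_b s61_pm_001_s k15_pm_001_s

theorem s63_pm_001_s : ∃ t, chk3 f_pm_001_s t 230 377 1 = true := ex3_c s62_pm_001_s k16_pm_001_s

theorem s64_pm_001_s : ∃ t, chk3 f_pm_001_s t 230 188 1 = true := ex3_b k8_pm_001_s s63_pm_001_s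

theorem s65_pm_001_s : ∃ t, chk3 f_pm_001_s t 115 188 1 = true := ex3_a s64_pm_001_s s56_pm_001_s

theorem s66_pm_001_s : ∃ t, chk3 f_pm_001_s t 115 94 1 = true := ex3_b s65_pm_001_s k19_pm_001_s

theorem s67_pm_001_s : ∃ t, chk3 f_pm_001_s t 57 94 1 = true := ex3_a k7_pm_001_s s66_pm_001_s

theorem s68_pm_001_s : ∃ t, chk3 f_pm_001_s t 57 47 1 = true := ex3_b s67_pm_001_s k20_pm_001_s

theorem s69_pm_001_s : ∃ t, chk3 f_pm_001_s t 28 47 1 = true := ex3_a k6_pm_001_s s68_pm_001_s

theorem s70_pm_001_s : ∃ t, chk3 f_pm_001_s t 28 23 1 = true := ex3_b k5_pm_001_s s69_pm_001_s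

theorem s71_pm_001_s : ∃ t, chk3 f_pm_001_s t 14 23 1 = true := ex3_a s70_pm_001_s s55_pm_001_s

theorem s72_pm_001_s : ∃ t, chk3 f_pm_001_s t 14 11 1 = true := ex3_b k4_pm_001_s s71_pm_001_s

theorem s73_pm_001_s : ∃ t, chk3 f_pm_001_s t 7 11 1 = true := ex3_a s72_pm_001_s k24_pm_001_s

theorem s74_pm_001_s : ∃ t, chk3 f_pm_001_s t 7 5 1 = true := ex3_b k3_pm_001_s s73_pm_001_s

theorem s75_pm_001_s : ∃ t, chk3 f_pm_001_s t 3 5 1 = true := ex3_a k2_pm_001_s s74_pm_001_s

theorem s76_pm_001_s : ∃ t, chk3 f_pm_001_s t 3 2 1 = true := ex3_b k1_pm_001_s s75_pm_001_s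

theorem s77_pm_001_s : ∃ t, chk3 f_pm_001_s t 3 1 1 = true := ex3_b s76_pm_001_s s53_pm_001_s

theorem s78_pm_001_s : ∃ t, chk3 f_pm_001_s t 1 1 1 = true := ex3_a k0_pm_001_s s77_pm_001_s

theorem c_pm_001_s : CertNE 0 536870912 0 536870912 740881858 40050571 3 eng mog cd0q0 cd5q0 pd1 true true false .up 0 0 1
    ndB0q0 ndB5q0 pcB1 cut_pm_001_s Ext.none :=
  certNE1 (fam := true) (s1 := true) (s2 := false) (a := 0) (b := 0) (c := 1) (cn := .up) (n1 := ndB0q0) (n2 := ndB5q0) (pc := pcB1) (cut := cut_pm_001_s) (xt := Ext.none) (P1 := 0) (W1 := 536870912) (P2 := 0) (W2 := 536870912) (P3 := 740881858) (W3 := 40050571) (N0 := 3) (En := eng) (mo := mog) (C1 := cd0q0) (C2 := cd5q0) (C3 := pd1)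
    rfl (fun _ => rfl) s78_pm_001_s

noncomputable def cut_pm_011_s : Cut := Cut.of [[⟨4, 0, 0, 1449551462⟩], [⟨0, 0, 0, 67108864⟩, ⟨1, 1, 0, 67108864⟩, ⟨2, 1, 0, 67108864⟩]]

noncomputable def f_pm_011_s : ℕ → ℕ → ℕ → ℕ → Bool := onCell 0 536870912 536870912 536870912 740881858 40050571
    (rowNE 3 eng mog cd0q0 cd5q1 pd1 1 true true false .pnn 0 1 1 (qsf 0 536870912 536870912 536870912 1) ndB0q0 ndB5q1 pcB1 cut_pm_011_s Ext.none)

def k0_pm_011_s : ∃ t, chk3 f_pm_011_s t 1 2 1 = true :=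
  ⟨(a (l 3) (b (l 1) (a (l 3) (l 1)))), by decide +kernel⟩

def k1_pm_011_s : ∃ t, chk3 f_pm_011_s t 2 6 1 = true :=
  ⟨(a (l 3) (b (l 3) (a (l 3) (b (l 3) (a (b (l 3) (a (l 3) (b (l 3) (a (l 3) (b (l 3) (a (l 3) (a (c (l 503215818391) (l 529522491159)) (b (l 552071070103) (l 16775376))))))))) (b (a (l 3) (b (a (l 3) (b (l 3) (a (l 3) (l 658908376679)))) (a (b (l 3) (a (l 684678181895) (b (l 555292293479) (a (l 194515051559) (l 16774888))))) (b (a (b (l 3) (a (l 660518992071) (l 170355860263))) (b (a (l 257865821639) (l 16775928)) (l 16773136))) (a (c (l 16777840) (l 16777888)) (l 16766752)))))) (a (b (a (l 3) (b (a (l 3) (c (l 530596232999) (l 563345353735))) (a (b (l 583746452759) (a (l 223506078967) (l 16775248))) (b (c (l 16775168) (l 16780432)) (l 16770960))))) (a (b (b (a (l 3) (a (l 554755424167) (l 81772157991))) (a (a (l 3) (l 229411660487)) (l 16773928))) (a (c (l 16779808) (b (l 16780608) (l 16771192))) (l 16767632))) (b (a (l 16770352) (l 16764648)) (l 16769624))))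 (b (a (a (b (b (a (l 530059361511) (l 16779064)) (l 16773656)) (l 16767312)) (b (l 16769976) (l 16761528))) (a (l 16767784) (l 16764560))) (a (c (l 16762232) (l 16762456)) (l 16750792)))))))))), by decide +kernel⟩

def k2_pm_011_s : ∃ t, chk3 f_pm_011_s t 4 14 1 = true :=
  ⟨(a (l 3) (b (l 3) (a (l 3) (b (l 3) (a (l 3) (b (l 3) (a (b (l 3) (b (l 3) (a (l 3) (a (b (l 3) (c (l 549923589751) (l 552071073399))) (a (b (l 3) (b (a (l 3) (l 255718328823)) (l 16778200))) (b (c (l 294373037223) (l 471540434823)) (l 16777504))))))) (b (a (l 3) (b (a (l 3) (c (l 560661010391) (b (l 3) (l 563345363015)))) (a (b (l 3) (c (a (l 316921615671) (l 16778448)) (a (l 489257175143) (c (l 16777128) (l 101099507063))))) (b (a (c (l 246591525799) (l 428590761351)) (b (l 137069857495) (l 16776232))) (l 16775280))))) (a (b (b (a (l 3) (a (l 559050394391) (b (l 316384743399) (l 16778312)))) (a (c (l 451676211527) (a (l 3) (l 412484633815))) (c (l 16776056) (l 16778016)))) (a (b (a (a (b (l 346449513255)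 (l 16776832)) (l 16778376)) (l 16775816)) (l 16774352)) (l 16773584))) (b (a (c (l 16774632) (l 16775928)) (l 16772136)) (l 16771152))))))))))), by decide +kernel⟩

def k3_pm_011_s : ∃ t, chk3 f_pm_011_s t 8 30 1 = true :=
  ⟨(a (l 3) (b (l 3) (a (l 3) (b (l 3) (a (l 3) (b (l 3) (a (l 3) (b (l 3) (b (a (l 3) (a (l 3) (b (a (l 3) (c (l 563345360263) (c (l 564955972999) (l 569787811191)))) (b (a (l 3) (c (l 120963728519) (a (a (l 321216578519) (l 189146333991)) (l 16777088)))) (a (c (l 144049177815) (b (a (l 3) (l 16777584)) (l 80161538743))) (l 16776880)))))) (a (a (l 3) (b (l 3) (b (a (l 3) (b (c (l 359871284551) (l 528448750167)) (c (l 173040206775) (a (l 356650058615) (l 16777152))))) (a (a (l 3) (c (l 190220076023) (a (l 271287583671) (l 144049177335)))) (c (l 16776904) (l 16777232)))))) (c (a (b (c (a (l 433959469799) (l 66739766583)) (a (l 433959469799) (l 61371057463))) (l 16776968)) (l 16776352)) (b (a (a (b (l 3) (a (l 503215817239) (a (l 191830688551) (l 16777160))))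 (b (a (a (l 3) (l 271824454583)) (l 95193924343)) (l 16776808))) (l 16776536)) (c (l 16776384) (a (l 16776792) (l 16775144))))))))))))))), by decide +kernel⟩

def k4_pm_011_s : ∃ t, chk3 f_pm_011_s t 16 31 1 = true :=
  ⟨(b (b (l 3) (l 14)) (l 14)), by decide +kernel⟩

def k5_pm_011_s : ∃ t, chk3 f_pm_011_s t 34 124 1 = true :=
  ⟨(a (l 3) (b (l 3) (a (l 3) (a (l 3) (b (l 3) (b (l 3) (b (a (l 3) (b (b (l 3) (a (l 3) (a (l 3) (c (l 177335173815) (a (l 327659029063) (l 16777376)))))) (a (a (l 3) (b (l 3) (c (l 233706619559) (a (l 382419862151) (l 160692175319))))) (c (c (l 16777688) (l 16777680)) (b (a (a (l 350744478311) (l 16777432)) (l 16777024)) (l 16776896)))))) (a (a (b (l 3) (a (l 3) (c (l 509658268199) (a (l 3) (l 494089011623))))) (a (b (l 3) (b (a (l 3) (c (l 16777456) (l 231022264903))) (c (l 16777112) (l 16777440)))) (b (a (l 3) (b (l 3) (c (l 16777440) (l 209010557463)))) (c (l 16776968) (l 16777288))))) (a (a (b (c (c (l 104320729879) (l 16777608)) (b (a (l 418390213239)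 (l 184314495479)) (l 16777080))) (l 16776680)) (c (l 16776992) (c (l 16776656) (l 16776984)))) (c (l 16776240) (l 16776224))))))))))), by decide +kernel⟩

def k6_pm_011_s : ∃ t, chk3 f_pm_011_s t 68 125 1 = true :=
  ⟨(b (b (l 3) (l 14)) (l 14)), by decide +kernel⟩

def k7_pm_011_s : ∃ t, chk3 f_pm_011_s t 138 500 1 = true :=
  ⟨(a (l 3) (b (l 3) (b (a (l 3) (a (l 3) (b (l 3) (a (b (l 3) (c (l 233169748647) (a (l 382419862151) (l 160692175319)))) (c (c (l 81235280599) (l 76940313303)) (b (a (l 359334412903) (l 139754209719)) (l 16777040))))))) (a (a (l 3) (b (l 3) (b (b (l 3) (a (l 3) (a (l 3) (a (l 300815483159) (l 16777288))))) (a (a (l 3) (c (l 250886488663) (c (l 258939552295) (l 260013294119)))) (c (l 16777112) (l 16777392)))))) (b (a (b (a (l 3) (c (l 247665263303) (a (l 416242729591) (c (l 16777424) (l 179482657271))))) (a (a (l 3) (c (l 206326202903) (c (l 16777440) (l 202568106519)))) (c (l 16777080) (l 16777400)))) (c (l 16777112) (c (l 16776784) (l 16777024)))) (a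 (a (b (c (l 16777096) (l 16777256)) (l 16776824)) (l 16776760)) (l 16776416))))))), by decide +kernel⟩

def k8_pm_011_s : ∃ t, chk3 f_pm_011_s t 139 500 1 = true :=
  ⟨(b (a (a (a (l 3) (b (l 3) (b (l 3) (a (b (l 3) (c (l 146733531767) (a (l 256255197799) (l 16777344)))) (b (c (l 129553662551) (a (l 232096006727) (l 16777168))) (l 16777096)))))) (b (a (b (l 3) (a (l 3) (c (l 556366037671) (l 563345359511)))) (a (b (l 3) (c (c (l 176261432279) (l 172503335895)) (b (l 539723039127) (a (l 159618433511) (l 16777112))))) (b (a (l 3) (c (l 362555638823) (l 523080040935))) (b (c (l 16777496) (a (l 144049177015) (l 16777096))) (l 16776904))))) (c (a (a (b (b (l 407652795255) (l 113447535159)) (l 16776824)) (c (l 16777136) (l 16777128))) (l 16776384)) (a (b (b (a (l 569787810263) (a (l 183777624583) (l 16777136))) (b (a (l 204715590167) (l 16777008)) (l 16777336))) (l 16776680)) (l 16776536))))) (a (b (b (b (a (a (a (l 3) (c (l 292762419799) (l 292762419799))) (c (l 16777128) (l 16777456)))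 (l 16776872)) (a (a (c (l 16777152) (l 42043703735)) (l 16776864)) (l 16776440))) (c (l 16776328) (l 16776480))) (c (l 16775536) (l 16775512))) (b (c (l 16775464) (l 16775440)) (l 16774384)))) (b (a (a (a (b (a (b (l 3) (c (l 180556399287) (a (l 332490867271) (l 118279373207)))) (c (b (l 163376530071) (l 16777008)) (b (a (l 291688677975) (l 16777448)) (l 16777008)))) (c (l 16776752) (l 16776992))) (b (c (l 16776720) (l 16776712)) (l 16776176))) (c (l 16775600) (l 16775912))) (c (l 16773904) (l 16773856))) (a (a (c (l 16775672) (l 16775976)) (l 16775176)) (l 16773464)))), by decide +kernel⟩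

def k9_pm_011_s : ∃ t, chk3 f_pm_011_s t 69 501 1 = true :=
  ⟨(a (a (b (b (b (l 3) (l 14)) (l 14)) (l 14)) (a (a (b (b (b (c (a (l 527375008343) (b (c (l 337859576567) (l 342691414759)) (l 16777472))) (b (a (l 3) (l 486572818775)) (a (l 508584526199) (a (l 103783858583) (l 16777072))))) (a (a (l 14) (c (l 16776960) (l 16776952))) (c (l 16776744) (l 16776736)))) (a (l 14) (l 16776184))) (l 14)) (b (b (a (b (b (a (c (l 16777192) (l 83919634807)) (l 16777136)) (l 16776864)) (l 16776456)) (c (l 16776448) (l 16776440))) (l 16775840)) (l 16774552))) (b (b (c (l 16776064) (l 16776048)) (l 16774984)) (l 16773696)))) (a (b (a (b (l 16775240) (l 16773512)) (l 16773568)) (l 16771992)) (c (l 16771488) (l 16771392)))), by decide +kernel⟩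

def k10_pm_011_s : ∃ t, chk3 f_pm_011_s t 69 251 1 = true :=
  ⟨(a (a (l 14) (a (l 14) (b (l 16771128) (l 14)))) (b (a (l 16769424) (l 16765840)) (l 16765288))), by decide +kernel⟩

def k11_pm_011_s : ∃ t, chk3 f_pm_011_s t 140 248 1 = true :=
  ⟨(l 3), by decide +kernel⟩

def k12_pm_011_s : ∃ t, chk3 f_pm_011_s t 140 498 1 = true :=
  ⟨(b (l 3) (a (l 3) (a (b (l 3) (a (b (l 3) (a (a (l 3) (c (l 308868547527) (l 480667238791))) (b (a (l 3) (b (l 3) (l 132774887735))) (c (l 16777096) (l 16777096))))) (b (b (a (l 3) (c (l 231022264999) (a (l 378661765767) (l 16777408)))) (a (c (l 249812746951) (a (l 397452247719) (l 182167011831))) (c (l 16777056) (l 16777056)))) (c (l 16776808) (l 16777128))))) (a (b (b (l 3) (b (a (l 3) (c (l 16777600) (a (l 305647321703) (l 16777208)))) (c (l 82845893319) (a (c (l 16777536) (l 205789332103)) (l 16777016))))) (b (c (l 16776768) (l 16776760)) (l 16776232))) (b (b (b (a (l 3) (c (l 16777232) (l 129016791655))) (a (c (l 16777576) (c (l 16777248)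 (l 147270402695))) (l 16776976))) (c (l 16776728) (l 16776720))) (a (l 16776400) (l 16775784))))))), by decide +kernel⟩

def k13_pm_011_s : ∃ t, chk3 f_pm_011_s t 140 499 1 = true :=
  ⟨(b (a (b (a (l 3) (a (b (l 3) (b (c (l 535964942983) (l 541870522999)) (a (c (l 374903669655) (l 545628619175)) (c (l 16777168) (l 64592282087))))) (b (b (b (l 3) (c (l 344838898695) (l 504289558983))) (a (c (l 334638351191) (c (l 349670736647) (l 344302027527))) (c (l 16777136) (l 16777464)))) (a (b (c (l 16777152) (l 16777480)) (l 16776888)) (l 16776736))))) (a (a (b (l 3) (b (l 3) (a (l 3) (c (l 16777528) (a (l 249812746839) (l 16777176)))))) (b (b (c (l 561197875911) (l 568177197751)) (a (l 3) (c (l 16777536) (c (l 16777208) (l 96267665959))))) (c (c (l 16776960) (l 16776952)) (a (a (b (l 223506072119) (l 16777040)) (l 16777024)) (l 16776816))))) (b (a (a (b (c (l 16777192) (l 83919634951)) (l 16776928)) (l 16776944)) (l 16776680)) (c (l 16776112) (l 16776096))))) (a (a (b (b (a (c (l 16776984)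 (l 16777312)) (l 16776704)) (l 16776312)) (l 16775512)) (b (a (l 16776392) (l 16775864)) (l 16774944))) (c (l 16774632) (l 16775256)))) (a (a (b (b (b (a (a (c (l 158544691863) (a (l 288467452487) (l 16777192))) (l 16777152)) (l 16776560)) (c (l 16776584) (l 16776904))) (c (l 16776184) (l 16776168))) (c (l 16775384) (l 16775368))) (c (l 16775440) (l 16775328))) (c (l 16774392) (l 16773688)))), by decide +kernel⟩

def k14_pm_011_s : ∃ t, chk3 f_pm_011_s t 141 248 1 = true :=
  ⟨(b (l 3) (b (a (l 3) (a (l 3) (a (l 3) (b (l 3) (b (l 3) (b (c (l 382419862807) (l 540259910263)) (c (l 180556399575) (a (l 373293056919) (l 16777168))))))))) (a (b (l 3) (b (l 3) (a (l 3) (a (l 3) (a (l 3) (c (l 291688678567) (c (l 288467453095) (l 469929820615)))))))) (b (a (b (l 3) (b (l 3) (a (l 3) (a (l 3) (c (l 16777248) (l 145659789959)))))) (b (a (a (l 3) (c (l 197199397911) (b (l 563345359319) (l 16777536)))) (a (c (l 16777064) (l 16777472)) (l 16776776))) (a (a (b (c (l 16777224) (l 127406178903))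 (l 16776976)) (l 16776824)) (l 16776392)))) (a (c (b (a (l 477982884471) (l 16777576)) (c (l 16777416) (l 16777416))) (b (b (a (l 3) (a (l 167671497383) (l 16776992))) (a (a (l 3) (l 187535721175)) (l 16776872))) (b (a (a (l 209547428599) (l 16777040)) (l 16776608)) (l 16776952)))) (c (l 16775896) (l 16775880))))))), by decide +kernel⟩

def k15_pm_011_s : ∃ t, chk3 f_pm_011_s t 141 249 1 = true :=
  ⟨(b (a (a (a (b (b (l 3) (c (b (l 559050392471) (c (l 104320730199) (l 99488891991))) (a (b (l 3) (b (l 569250939351) (l 113984406071))) (b (l 560661004951) (b (l 87677731367) (l 16776936)))))) (b (c (l 16776424) (l 16776416)) (l 16775352))) (b (a (b (l 3) (b (b (c (l 362018767751) (l 358797542279)) (c (l 16777176) (l 16777504))) (l 16776784))) (b (b (l 3) (c (l 370608702695) (l 531133104727))) (b (c (l 16777032) (l 16777352)) (l 16776504)))) (c (l 16775328) (l 16775632)))) (b (c (b (a (b (l 518785073927) (c (l 16777776) (l 16777776))) (c (l 16777480) (l 16777480))) (l 16776056))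 (b (a (a (b (l 3) (b (l 309405418295) (l 16777136))) (b (l 497310237191) (l 16777312))) (a (b (b (l 267529487095) (l 16777096)) (l 16776704)) (l 16777008))) (l 16776376))) (c (l 16774472) (l 16775096)))) (c (b (c (l 16775544) (l 16775528)) (l 16772768)) (b (a (b (l 16776288) (l 16774896)) (l 16774280)) (l 16772720)))) (a (b (a (l 16774128) (l 16772336)) (l 16770776)) (a (l 16771440) (l 16768992)))), by decide +kernel⟩

def k16_pm_011_s : ∃ t, chk3 f_pm_011_s t 142 248 1 = true :=
  ⟨(a (b (a (l 3) (a (l 3) (b (l 3) (b (l 3) (b (l 3) (a (b (l 3) (c (l 16777272) (l 170355851959))) (c (l 16777128) (c (l 16777128) (l 47412413063))))))))) (a (b (a (b (l 3) (c (b (c (l 205252461927) (l 202031236455)) (l 16776880)) (b (b (l 509121397303) (a (l 328195900231) (l 16777128))) (l 16777200)))) (b (b (l 3) (c (c (l 183777625367) (l 180556399895)) (a (l 487109689847) (b (l 257865810647) (l 16777088))))) (c (l 16776576) (c (l 16776568) (l 16776888))))) (c (l 16775936) (c (l 16775264) (l 16775584))))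 (a (b (b (b (b (c (l 276656293063) (l 445233758615)) (a (c (l 16777312) (l 214916137735)) (l 16777208))) (c (l 16776792) (l 16776784))) (l 16776328)) (l 16775064)) (b (b (c (l 16776488) (l 16776480)) (l 16775424)) (l 16773840))))) (a (b (b (l 3) (c (a (b (l 563345360247) (c (l 32916898919) (l 18421384375))) (b (b (l 542407394151) (c (l 16777832) (l 16777824))) (l 16776400))) (b (b (a (l 3) (l 547239232343)) (a (l 566566585255) (b (a (l 371682444183) (l 16777168)) (l 16777376)))) (a (b (b (a (l 3) (l 16777536)) (l 24326963863)) (l 16776696)) (l 16776392))))) (b (c (l 16775104) (l 16775576)) (l 16772984))) (b (b (b (l 3) (b (a (l 3) (a (l 3) (c (l 292225549479) (l 466171724231)))) (c (a (l 520395686679) (l 16777656)) (b (a (l 3) (a (l 271824454391) (l 16777080))) (a (l 508047655463) (l 16776960)))))) (a (b (b (c (l 72108475351) (b (a (l 315310998343) (l 16777120)) (l 16777000))) (l 16776608)) (l 16775824)) (c (l 16775784) (l 16776096)))) (b (l 16774608) (l 16771840))))), by decide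 +kernel⟩

def k17_pm_011_s : ∃ t, chk3 f_pm_011_s t 143 248 1 = true :=
  ⟨(a (b (b (b (a (b (b (l 3) (a (l 3) (a (l 3) (a (l 256255197783) (l 16777344))))) (a (b (l 3) (a (l 3) (a (l 331953996455) (l 112373793271)))) (a (c (l 16777136) (l 64592282263)) (l 16776856)))) (a (b (c (l 16776952) (l 16777440)) (l 16776424)) (l 16776448))) (a (c (c (l 16777152) (l 16777152)) (b (b (a (a (l 207399944951) (l 16777032)) (l 16776600)) (l 16776624)) (l 16776224))) (l 16775680))) (c (l 16775016) (c (l 16774336) (l 16774976)))) (c (l 16772528) (l 16772456))) (b (b (a (b (l 16775912) (l 16774208)) (l 16773584)) (l 16773368)) (l 16770200))), by decide +kernel⟩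

def k18_pm_011_s : ∃ t, chk3 f_pm_011_s t 71 249 1 = true :=
  ⟨(a (b (c (a (l 16772784) (l 16769280)) (a (b (l 16772552) (l 16770416)) (l 16769192))) (c (l 16766200) (l 16768688))) (b (c (l 16765880) (l 16765744)) (l 16761584))), by decide +kernel⟩

def k19_pm_011_s : ∃ t, chk3 f_pm_011_s t 35 125 1 = true :=
  ⟨(a (b (a (b (a (b (c (l 16773888) (l 16774000)) (l 16772376)) (a (l 16771576) (l 16769288))) (c (l 16768096) (l 16768616))) (b (c (l 16769128) (l 16767680)) (l 16762168))) (a (b (l 16762432) (l 16758136)) (l 16758368))) (b (a (b (l 16761888) (l 16757632)) (l 16757840)) (a (l 16751224) (l 16746696)))), by decide +kernel⟩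

def k20_pm_011_s : ∃ t, chk3 f_pm_011_s t 17 63 1 = true :=
  ⟨(b (a (a (l 14) (a (l 14) (b (c (l 16758952) (l 16758648)) (l 14)))) (a (b (a (l 16751664) (b (l 16749304) (l 16744992))) (l 16745984)) (a (a (l 16743384) (l 16742448)) (l 16739072)))) (a (l 14) (a (a (l 14) (b (l 16729784) (l 14))) (b (a (l 16725312) (l 16720840)) (a (l 16716560) (l 16712112)))))), by decide +kernel⟩

def k21_pm_011_s : ∃ t, chk3 f_pm_011_s t 18 60 1 = true :=
  ⟨(a (l 3) (b (l 3) (a (l 3) (a (b (l 3) (b (l 3) (a (l 3) (a (b (l 3) (b (c (l 555829167911) (l 559050393367)) (a (b (l 384567347191) (l 130627405063)) (c (l 16776912) (l 16776912))))) (b (a (l 3) (c (l 515563849655) (l 520395687863))) (b (a (b (l 334101481287) (l 16777752)) (l 16777432)) (l 16776040))))))) (b (l 3) (b (b (b (l 3) (a (l 3) (a (l 3) (a (l 494625883207) (b (l 253033973447) (l 16776984)))))) (b (a (l 3) (a (c (l 231022267415) (c (l 232632879991) (l 411947762471))) (c (l 16776504) (l 16776504)))) (a (a (l 3) (c (l 272361327751)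 (l 443623146535))) (c (l 16776064) (l 16777040))))) (a (a (b (b (c (l 321216580999) (l 477446014247)) (a (b (l 244444038823) (l 16776968)) (l 16776640))) (l 16775384)) (b (a (c (l 16776568) (l 16777704)) (l 16775984)) (l 16774216))) (c (l 16773504) (l 16774128))))))))), by decide +kernel⟩

def k22_pm_011_s : ∃ t, chk3 f_pm_011_s t 36 122 1 = true :=
  ⟨(a (l 3) (b (l 3) (a (b (l 3) (b (l 3) (b (l 3) (a (l 3) (a (l 3) (a (l 3) (a (l 3) (c (l 292225550247) (l 466171724503))))))))) (b (b (l 3) (b (l 3) (a (l 3) (a (l 3) (a (c (l 527911879831) (l 529522492567)) (c (l 152102242007) (b (l 289541195399) (l 16777040)))))))) (b (b (a (l 3) (a (a (c (l 561734747511) (l 566029714791)) (b (l 535428072247) (c (l 16777160) (l 16777816)))) (c (l 16776560) (c (l 16776552) (l 16777208))))) (a (b (l 3) (a (l 3) (a (l 3) (c (l 16777264) (l 147270403287))))) (a (a (b (c (l 16777208) (l 110226310327)) (l 16776712)) (l 16776392)) (l 16775528)))) (a (b (a (a (l 3) (b (l 3) (c (l 16778024) (l 202031236535))))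 (a (b (c (l 16777320) (l 173577078087)) (l 16776824)) (l 16776840))) (a (b (a (c (l 232632878631) (c (l 233706620375) (l 233706620375))) (l 16777208)) (c (l 16776656) (l 16776648))) (l 16775760))) (c (l 16774560) (l 16775192)))))))), by decide +kernel⟩

def k23_pm_011_s : ∃ t, chk3 f_pm_011_s t 72 246 1 = true :=
  ⟨(a (l 3) (b (l 3) (b (a (l 3) (b (a (l 3) (a (b (l 3) (c (l 258402682407) (l 437180695031))) (b (c (l 225653556759) (a (l 560124134039) (l 173040206791))) (c (l 16776928) (l 16776928))))) (a (b (a (l 3) (c (l 294373033527) (l 464024240727))) (a (c (l 333027739287) (l 490867786423)) (c (l 16777032) (l 16777688)))) (c (l 16776440) (c (l 16776432) (l 16777080)))))) (a (b (a (l 3) (a (c (l 557439780167) (l 561734747447)) (b (c (l 359871284983) (l 527375008535)) (a (b (l 329269642151) (l 16777480)) (l 16777328))))) (a (a (l 3) (b (l 3) (c (l 16777800) (a (l 230485394535) (l 16777104))))) (a (c (l 16777752) (a (b (l 194515043335) (l 16776816)) (l 16776792))) (l 16776688))))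 (c (c (l 16776768) (l 16776600)) (a (a (b (b (l 40969962439) (l 16776568)) (l 16775784)) (l 16775728)) (l 16774864))))))), by decide +kernel⟩

def k24_pm_011_s : ∃ t, chk3 f_pm_011_s t 72 247 1 = true :=
  ⟨(a (b (a (b (l 3) (a (a (l 3) (b (l 3) (b (l 3) (c (l 365776864919) (l 524153783047))))) (a (b (l 3) (b (c (l 331417126535) (l 488720302775)) (a (c (l 16777216) (l 124721824567)) (l 16777272)))) (b (b (l 3) (c (l 293299291703) (l 465097982551))) (b (c (l 16777032) (c (l 16777032) (l 16777520))) (l 16776512)))))) (b (b (a (l 3) (a (l 3) (b (l 3) (c (l 178945787239) (a (l 310479160535) (l 16777608)))))) (b (a (l 3) (a (c (l 203641849287) (a (l 530596233799) (l 145122919287))) (c (l 16776832) (l 16776832)))) (a (a (l 3) (a (l 561734746791) (b (l 371145573255) (l 82845893159)))) (c (l 16776600) (l 16777248))))) (a (a (b (b (c (l 260550166055) (c (l 264845133271) (l 443623145975))) (c (l 16776984) (l 16777640))) (l 16776200)) (b (c (l 16776680) (l 16777160)) (l 16775632))) (c (l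 16775304) (l 16775280))))) (b (a (a (c (a (b (b (l 381882992439) (l 96804537399)) (l 16776408)) (c (l 16777008) (l 16777008))) (b (b (a (l 547776103271) (a (c (l 16777264) (l 148881015703)) (l 16776992))) (b (a (a (l 379198636951) (l 16777168)) (l 16776744)) (l 16777256))) (l 16776112))) (c (l 16775504) (l 16775976))) (c (l 16773792) (l 16774408))) (a (c (l 16773984) (l 16774608)) (l 16771672)))) (b (b (a (b (b (a (a (c (l 154249725191) (a (l 278266905719) (l 16777480))) (l 16776728)) (l 16775872)) (c (l 16775928) (l 16776408))) (a (l 16776200) (l 16774560))) (c (l 16773384) (l 16773344))) (a (a (l 16774800) (l 16772992)) (l 16771272))) (c (l 16771288) (c (l 16771880) (l 16770528))))), by decide +kernel⟩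

def k25_pm_011_s : ∃ t, chk3 f_pm_011_s t 73 123 1 = true :=
  ⟨(b (a (b (b (a (b (l 3) (a (l 3) (a (l 3) (b (l 3) (l 563882230695))))) (b (c (a (l 540259911335) (c (l 68887250807) (l 64055412583))) (b (a (l 3) (a (l 473151046263) (l 16776992))) (a (l 532743718103) (l 16777416)))) (a (b (a (c (l 373293057831) (l 539723039559)) (c (l 16777112) (l 16777760))) (a (c (l 16777160) (l 89288344599)) (l 16776600))) (l 16776320)))) (a (a (b (l 3) (b (a (l 3) (c (l 16777888) (a (l 302962967735) (l 16777192)))) (a (c (l 199883752871) (a (l 350207608087) (l 16777560))) (l 16777144)))) (b (b (a (l 3) (c (l 16777208) (l 119353115751))) (a (c (l 16777920) (a (l 267529487447) (l 16777136))) (l 16776712))) (c (l 16776224) (l 16776208)))) (c (l 16775672) (c (l 16775000) (l 16775648))))) (b (a (a (b (c (l 16776328) (l 16776976)) (l 16775288)) (l 16775392)) (l 16773912)) (c (l 16773336) (a (l 16773128) (l 16770816))))) (b (a (b (c (l 16774792) (l 16775424)) (l 16774016)) (a (l 16773328) (l 16770864)))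 (c (l 16768488) (l 16771016)))) (a (b (c (l 16771536) (l 16770792)) (l 16767320)) (c (l 16762280) (l 16764736)))), by decide +kernel⟩

def k26_pm_011_s : ∃ t, chk3 f_pm_011_s t 74 122 1 = true :=
  ⟨(b (a (b (l 3) (b (l 3) (a (l 3) (a (b (l 3) (c (l 559587264311) (l 562271618871))) (a (b (l 3) (c (l 178945787767) (b (l 352891963095) (l 16777120)))) (b (c (l 350207609367) (l 502678946903)) (c (l 16776808) (l 16776808)))))))) (a (b (l 3) (b (b (a (l 3) (a (l 3) (c (l 240685943015) (l 420000825975)))) (c (a (l 498383979895) (l 16778152)) (b (a (l 3) (a (l 198273140135) (l 16776808))) (a (l 464024241063) (l 16776584))))) (c (c (l 16777688) (l 16777600)) (a (a (b (a (l 189146334887) (l 16777760)) (l 16776224)) (l 16776160)) (l 16775288))))) (b (b (l 3) (b (a (l 3) (b (c (l 346449513207) (l 517174461575)) (a (a (l 3) (l 312626644263)) (l 16777712)))) (a (a (l 3) (c (l 199346882551) (a (l 277193164695) (l 149954758135)))) (c (l 16776584) (l 16777232))))) (b (a (a (b (c (l 16777000)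 (l 16777648)) (l 16775976)) (l 16776240)) (l 16775696)) (l 16774864))))) (a (a (b (b (b (l 3) (a (l 3) (a (c (l 261623908599) (l 435570082535)) (b (a (l 286319969511) (l 16777496)) (l 16776800))))) (a (b (b (c (l 299204872695) (l 459729273735)) (a (a (l 3) (l 221895459879)) (l 16777576))) (c (l 16776440) (l 16776432))) (c (l 16775808) (l 16775792)))) (c (l 16774608) (b (l 16774296) (l 16772216)))) (b (a (b (b (a (c (l 216526751847) (c (l 214916139031) (l 399062860279))) (c (l 16776928) (l 16777584))) (l 16776520)) (l 16774648)) (c (l 16774536) (b (l 16775544) (l 16773472)))) (c (l 16771000) (l 16770936)))) (a (b (c (l 16772808) (l 16774072)) (l 16768656)) (b (l 16771776) (l 16766336))))), by decide +kernel⟩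

def k27_pm_011_s : ∃ t, chk3 f_pm_011_s t 75 122 1 = true :=
  ⟨(b (a (b (a (c (b (a (c (l 423758923095) (l 424295793991)) (c (l 36138125927) (l 28085062231))) (l 16776672)) (b (a (b (l 3) (a (l 480130368471) (l 98415150775))) (b (a (l 435570082535) (l 16777696)) (l 16776312))) (c (l 16775344) (l 16775992)))) (c (l 16775376) (b (l 16775072) (l 16773000)))) (c (l 16773088) (c (l 16773696) (l 16773008)))) (b (c (l 16773184) (l 16772464)) (l 16769016))) (a (b (l 16769576) (l 16762824)) (l 16762792))), by decide +kernel⟩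

def k28_pm_011_s : ∃ t, chk3 f_pm_011_s t 37 123 1 = true :=
  ⟨(a (b (a (b (a (l 16769136) (l 16766840)) (l 16763848)) (c (l 16761384) (l 16763832))) (a (l 16762864) (l 16753032))) (b (c (l 16759640) (l 16759392)) (l 16746008))), by decide +kernel⟩

def k29_pm_011_s : ∃ t, chk3 f_pm_011_s t 38 120 1 = true :=
  ⟨(a (l 3) (b (a (l 3) (b (l 3) (b (l 3) (a (l 3) (b (c (l 544018008759) (l 546702363303)) (a (l 562808489895) (a (l 180556400679) (l 16776784)))))))) (a (b (b (l 3) (a (l 3) (a (l 3) (a (l 3) (b (l 3) (l 198810011815)))))) (b (b (a (l 3) (a (a (l 3) (l 263771392311)) (l 16778024))) (a (c (l 538649299527) (l 540796783159)) (c (l 16776288) (l 16777584)))) (a (a (b (l 555829167911) (c (l 16777184) (l 108078827879))) (c (l 16776528) (c (l 16776520) (l 16777824)))) (l 16775392)))) (b (a (a (b (l 3) (b (a (l 365776866087) (l 150491629415)) (l 16776552))) (b (b (l 3) (a (l 284172487319) (l 16777768))) (l 16775872))) (b (c (l 16778104) (c (l 16777440) (a (l 16778448) (l 16775528))))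 (l 16774072))) (c (l 16773496) (a (l 16773360) (l 16770936))))))), by decide +kernel⟩

def k30_pm_011_s : ∃ t, chk3 f_pm_011_s t 38 121 1 = true :=
  ⟨(a (b (a (b (l 3) (b (a (l 3) (a (c (l 545091750391) (l 546702362471)) (b (c (l 326585290151) (l 480667239751)) (c (l 16776936) (l 16778248))))) (b (a (c (l 563882232711) (l 566566587255)) (c (l 16778464) (c (l 16777808) (a (l 84456507367) (l 16775904))))) (a (a (l 3) (a (b (l 3) (l 16777912)) (l 16777928))) (l 16776128))))) (a (b (b (l 3) (b (a (l 3) (a (l 557439780167) (a (l 247128393623) (l 16777856)))) (a (c (l 265382006071) (l 444160017463)) (a (l 16777584) (l 16776344))))) (b (a (c (l 16776280) (l 16777584)) (l 16775096)) (l 16773624))) (b (b (a (b (l 3) (c (l 195588786935) (a (l 321216580167) (l 16777192)))) (b (a (a (l 377588025671) (l 235317233607)) (l 16778040)) (l 16776328))) (c (l 16775384) (l 16775368))) (c (l 16772304) (l 16772264))))) (a (a (b (b (a (b (c (l 160155306583) (a (l 279340648791) (l 16777088))) (l 16776360))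 (l 16776352)) (l 16774880)) (l 16772440)) (b (a (l 16774800) (l 16772304)) (l 16768760))) (b (c (l 16769368) (l 16769296)) (l 16765192)))) (a (b (a (b (c (l 16774040) (l 16774016)) (l 16769896)) (b (l 16772944) (l 16767488))) (c (l 16762528) (l 16762392))) (b (c (l 16768608) (l 16768512)) (l 16757600)))), by decide +kernel⟩

def k31_pm_011_s : ∃ t, chk3 f_pm_011_s t 39 60 1 = true :=
  ⟨(b (a (b (a (a (b (l 3) (b (c (a (l 499457722599) (l 128479923735)) (a (l 503215818983) (b (l 255181458663) (l 16776736)))) (c (l 16775800) (l 16777096)))) (b (b (l 3) (a (c (l 270213845895) (l 447381243495)) (a (b (l 302426098199) (l 16776696)) (l 16777912)))) (c (l 16774416) (l 16775712)))) (b (b (a (a (c (l 213305528647) (l 392083538887)) (c (l 16776552) (l 16776544))) (l 16774720)) (c (l 16773880) (l 16773856))) (c (l 16770768) (l 16770720)))) (a (b (c (l 16771496) (l 16772760)) (l 16769936)) (c (l 16764536) (l 16767048)))) (b (a (c (l 16770544) (b (l 16769960) (l 16765752))) (c (l 16762936)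 (l 16762824))) (c (l 16762304) (l 16762128)))) (a (b (a (l 16763672) (l 16756096)) (l 16755424)) (a (l 16752744) (l 16746960)))), by decide +kernel⟩

def k32_pm_011_s : ∃ t, chk3 f_pm_011_s t 19 61 1 = true :=
  ⟨(a (b (a (b (a (c (l 16763792) (l 16766280)) (l 16764192)) (a (l 16755416) (l 16750608))) (b (l 16756912) (l 16743288))) (a (b (l 16744704) (l 16736432)) (l 16741240))) (b (a (c (l 16737752) (l 16747784)) (b (c (l 16721328) (l 16720784)) (l 16702064))) (a (b (l 16703920) (l 16716496)) (b (l 16714560) (l 16706104))))), by decide +kernel⟩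

def k33_pm_011_s : ∃ t, chk3 f_pm_011_s t 9 31 1 = true :=
  ⟨(a (b (a (b (a (b (a (b (a (b (l 16773176) (l 16769768)) (l 16769840)) (l 16767432)) (b (l 16767712) (l 16760896))) (a (b (l 16761248) (l 16757032)) (l 16754584))) (b (a (l 16761048) (l 16753864)) (l 16753008))) (a (b (a (l 16750680) (l 16746144)) (l 16739920)) (b (l 16739344) (l 16730888)))) (b (a (b (l 16752256) (l 16738672)) (b (l 16737720) (l 16729432))) (a (l 16731328) (l 16716904)))) (a (b (a (c (l 16732680) (l 16731960)) (l 16728608)) (b (l 16709688) (a (l 16705440) (l 16696568)))) (c (b (l 16715600) (l 16688192)) (b (l 16714552) (a (l 16670368) (l 16682232)))))) (b (a (b (b (l 16733744) (l 16714944)) (c (l 16702968) (a (l 16685888) (l 16696912)))) (a (b (c (l 16683456) (l 16682440)) (l 16666304)) (b (l 16672488) (l 16676656)))) (b (a (a (l 16669648) (l 16659792)) (b (l 16638008) (l 16640112))) (a (b (l 16652112) (l 16643592)) (a (l 16653704) (l 16643096)))))), by decide +kernel⟩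

def k34_pm_011_s : ∃ t, chk3 f_pm_011_s t 10 28 1 = true :=
  ⟨(a (l 3) (b (l 3) (a (b (l 3) (a (l 3) (b (l 3) (a (b (l 3) (b (l 3) (a (l 3) (a (a (l 3) (l 291151811287)) (a (l 161765920263) (l 16776712)))))) (b (a (c (l 546702366775) (b (l 3) (l 541333655543))) (c (b (l 479056628679) (l 16779240)) (b (l 479056628663) (l 16779240)))) (a (b (a (a (l 318532227975) (l 185925111543)) (l 16776496)) (l 16775016)) (l 16773384))))))) (b (a (b (l 3) (a (l 3) (b (l 3) (a (l 3) (c (l 495162757863) (b (l 3) (l 461339888311))))))) (b (a (l 3) (b (l 3) (b (a (l 3) (c (l 263234526647) (l 451139339959))) (a (l 495699627383) (c (l 16776264) (l 16776264)))))) (a (b (a (l 3) (b (l 556366041607) (a (l 273435072167) (l 16776776)))) (a (b (a (l 533280590711) (l 156397210615)) (l 16777224)) (l 16774248))) (b (a (c (l 16779728) (l 16779240)) (l 16773056)) (l 16770152))))) (a (b (b (a (l 3) (a (c (b (l 525227527975) (l 118279377847)) (b (l 526301269783) (c (l 16777072) (l 54928609975)))) (c (l 16778040)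 (l 16778048)))) (b (a (a (l 3) (a (a (l 3) (l 280414392823)) (l 38285610503))) (l 16774224)) (a (a (c (a (l 342691421031) (l 16777512)) (l 416242730871)) (l 16775496)) (l 16771424)))) (a (b (a (c (l 16774984) (l 16774984)) (l 16772272)) (l 16771944)) (c (l 16766040) (l 16766072)))) (b (a (c (l 16770496) (l 16769872)) (l 16766384)) (c (l 16763152) (l 16763224)))))))), by decide +kernel⟩

def k35_pm_011_s : ∃ t, chk3 f_pm_011_s t 20 58 1 = true :=
  ⟨(a (l 3) (b (a (l 3) (b (l 3) (a (l 3) (b (l 3) (a (c (l 548312979303) (b (l 3) (l 535964946231))) (c (b (l 477982886759) (l 16779184)) (b (l 477982886759) (c (l 16776560) (l 16779184))))))))) (a (b (a (l 3) (b (l 3) (a (l 3) (a (l 3) (b (l 3) (b (l 3) (l 149954759783))))))) (a (b (a (l 3) (c (l 558513527031) (b (l 3) (l 560661008631)))) (a (b (l 3) (a (l 496773368103) (b (l 230485397079) (l 16776608)))) (b (a (b (l 3) (l 176798305495)) (a (l 16778640) (l 16776344))) (l 16775168)))) (b (a (b (c (l 510195142039) (l 511805754775)) (a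 (b (l 315311001911) (l 16776976)) (l 16776200))) (b (c (l 16779000) (l 16779000)) (l 16774200))) (c (l 16772280) (l 16772264))))) (b (a (a (b (l 3) (b (a (l 539186170727) (b (l 289004326999) (l 16776856))) (c (l 16775888) (l 16775888)))) (b (b (l 3) (a (b (l 3) (l 231022268103)) (a (l 128479922183) (l 16776568)))) (c (l 16774312) (l 16774304)))) (a (b (b (a (b (l 336785838823) (l 16778504)) (l 16777712)) (l 16774896)) (l 16771632)) (c (l 16771128) (l 16771776)))) (a (b (a (l 16772616) (l 16769952)) (l 16766912)) (c (l 16763768) (l 16763744))))))), by decide +kernel⟩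

def k36_pm_011_s : ∃ t, chk3 f_pm_011_s t 20 59 1 = true :=
  ⟨(a (b (a (b (l 3) (a (b (l 3) (a (l 3) (a (l 3) (b (l 3) (b (l 3) (l 193978174647)))))) (b (b (l 3) (a (l 3) (a (l 503215819095) (b (l 245517782647) (l 16776696))))) (a (b (a (l 3) (b (l 341617676567) (l 16778424))) (c (l 16776160) (l 16777464))) (c (l 16774688) (l 16775984)))))) (b (a (b (l 3) (a (l 3) (a (b (l 3) (c (l 190220079543) (l 184314498199))) (b (l 503215819111) (l 16777672))))) (b (b (a (l 3) (a (l 559587265655) (b (l 334638354791) (l 16777064)))) (a (c (l 473151048423) (l 475298532055)) (c (l 16776104) (l 16778728)))) (a (a (b (b (l 239612202679) (l 16776672)) (l 16775072)) (l 16775496)) (l 16772888)))) (b (b (a (a (a (c (l 259476427863) (l 440401921591)) (b (l 149417888647) (l 16776264))) (l 16774872)) (l 16770976)) (a (c (l 16774032) (l 16774016)) (l 16768832))) (a (c (l 16770848) (l 16770816)) (l 16765608))))) (a (a (b (b (b (a (c (l 516100722055) (l 520395689335)) (a (b (l 238538460743) (l 16776680))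 (l 16775944))) (a (a (b (l 335712096391) (l 16778384)) (l 16777664)) (l 16774472))) (c (l 16772584) (l 16772560))) (c (l 16766280) (l 16768824))) (b (b (a (l 16772992) (l 16770440)) (l 16767480)) (l 16763736))) (b (a (c (l 16764472) (l 16764392)) (l 16764408)) (a (l 16755888) (l 16750560))))) (b (a (b (a (b (a (c (l 16774568) (l 16774560)) (l 16771920)) (l 16770896)) (c (l 16765752) (l 16768320))) (a (c (l 16762488) (l 16762400)) (l 16757024))) (a (b (l 16762968) (l 16751576)) (b (l 16754992) (l 16746200)))) (a (b (a (l 16753792) (l 16748312)) (l 16742368)) (c (l 16741120) (l 16740752))))), by decide +kernel⟩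

def k37_pm_011_s : ∃ t, chk3 f_pm_011_s t 21 29 1 = true :=
  ⟨(b (a (b (a (b (a (l 3) (b (a (l 3) (a (l 3) (c (l 497847111447) (l 498920853255)))) (b (a (c (l 543481139207) (l 544554881031)) (c (l 16779264) (c (l 16776640) (l 16779264)))) (a (a (b (l 336785839031) (l 16778600)) (l 16777808)) (l 16774480))))) (a (a (b (b (l 3) (a (l 552607943847) (b (l 322827194743) (l 16777008)))) (c (l 16777584) (l 16776928))) (b (b (a (l 484425337015) (a (l 158007822503) (l 16776688))) (l 16776840)) (l 16772280))) (b (c (l 16772576) (l 16772576)) (l 16770864)))) (a (a (b (b (b (c (c (l 246591527959) (l 242833431559)) (l 424832665559)) (c (l 16776104) (l 16776104))) (l 16772864)) (l 16768992)) (b (b (c (l 16774480) (l 16774488)) (l 16770160)) (l 16763680))) (b (b (c (l 16770424) (l 16770432)) (l 16766112)) (l 16762256)))) (a (a (b (c (l 16769728) (l 16769064)) (l 16761024)) (b (c (l 16761736) (l 16761728)) (l 16753048))) (b (c (l 16753680) (l 16758920)) (l 16750256)))) (b (a (a (b (a (l 16764216)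 (l 16761520)) (l 16754256)) (b (l 16757472) (l 16748872))) (b (l 16754632) (l 16740832))) (a (b (l 16742952) (l 16734328)) (l 16738456)))) (a (b (a (b (l 16752240) (l 16738192)) (b (l 16736328) (l 16727608))) (a (l 16732816) (l 16724864))) (b (b (l 16730888) (l 16722264)) (c (l 16709456) (l 16709096))))), by decide +kernel⟩

def k38_pm_011_s : ∃ t, chk3 f_pm_011_s t 22 28 1 = true :=
  ⟨(b (a (b (l 3) (a (b (l 3) (a (b (l 3) (a (l 3) (c (l 553681688535) (l 615958711863)))) (a (b (l 3) (c (c (l 174113954295) (l 170355859159)) (b (l 502142076439) (l 16776552)))) (b (c (l 454897437911) (l 487646562039)) (l 16776832))))) (b (b (a (l 3) (a (c (l 485499079447) (l 519321945335)) (c (l 16780320) (l 16780160)))) (a (a (l 618643066807) (b (c (l 319069102455) (l 547239232695)) (l 51707384599))) (c (l 16773704) (l 16773712)))) (a (b (a (c (l 34527516359) (l 28085065415)) (l 16773600)) (l 16770736)) (c (l 16767336) (l 16767368)))))) (b (a (a (b (l 3) (a (b (l 3) (b (l 346449519527) (l 16779576)))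 (b (l 513953236455) (l 16775248)))) (a (b (l 3) (b (b (l 201494371031) (l 16775640)) (l 16772496))) (b (b (l 3) (c (l 213842404423) (l 216526758695))) (l 16771824)))) (a (a (b (b (l 538649297831) (l 16779280)) (l 16769072)) (b (a (b (l 184851372871) (l 16773272)) (l 16777904)) (l 16766304))) (b (l 16772456) (l 16762152)))) (b (a (a (c (l 16770296) (l 16770320)) (l 16764792)) (c (l 16756496) (l 16756568))) (a (c (l 16759064) (l 16759112)) (l 16748088))))) (a (b (a (b (b (a (a (c (l 429127632695) (l 450602469479)) (c (l 9294583159) (b (l 16779792) (l 16775040)))) (l 16773296)) (a (c (l 16773208) (l 16773224)) (l 16767728))) (a (c (l 16766800) (l 16766832)) (l 16761336))) (b (c (l 16766824) (l 16766872)) (l 16758352))) (a (b (a (l 16758304) (l 16752832)) (l 16747096)) (c (l 16750832) (l 16750912)))) (a (b (c (l 16756808) (l 16756872)) (l 16729432)) (b (l 16745856) (l 16718472))))), by decide +kernel⟩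

def k39_pm_011_s : ∃ t, chk3 f_pm_011_s t 23 28 1 = true :=
  ⟨(b (a (b (a (b (l 16768336) (l 16753800)) (b (l 16750832) (l 16742576))) (a (b (l 16745464) (l 16737056)) (l 16730120))) (b (a (l 16745840) (l 16723896)) (a (l 16718872) (l 16707520)))) (a (b (c (l 16729264) (l 16739944)) (l 16717816)) (b (l 16717616) (l 16680056)))), by decide +kernel⟩

def k40_pm_011_s : ∃ t, chk3 f_pm_011_s t 11 29 1 = true :=
  ⟨(a (b (a (b (a (l 16742264) (l 16723616)) (c (l 16732968) (l 16722712))) (b (b (l 16732368) (l 16703120)) (l 16711856))) (a (b (l 16716152) (l 16678256)) (b (l 16674672) (l 16658184)))) (b (a (a (l 16703520) (l 16692664)) (b (l 16663656) (l 16647560))) (a (l 16666824) (l 16624552)))), by decide +kernel⟩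

def k41_pm_011_s : ∃ t, chk3 f_pm_011_s t 5 15 1 = true :=
  ⟨(a (a (b (b (a (b (a (b (c (l 16755288) (l 16760352)) (l 16746680)) (c (l 16745768) (l 16746712))) (b (b (a (l 16729800) (l 16729568)) (l 16735920)) (a (c (l 16719376) (l 16718824)) (l 16739744)))) (b (a (a (b (l 16736472) (l 16727792)) (b (l 16730888) (l 16722168))) (b (a (l 16725288) (l 16719760)) (l 16713728))) (a (b (l 16737240) (l 16707552)) (c (l 16722040) (l 16720984))))) (a (b (a (b (l 16700048) (l 16712448)) (b (l 16710128) (l 16701488))) (a (b (l 16703896) (l 16695384)) (l 16688584))) (b (a (l 16715448) (l 16682968)) (a (l 16677120) (l 16665480))))) (b (b (a (a (l 16682648) (l 16671472)) (a (l 16659880) (l 16648104))) (a (a (l 16665736) (l 16654440)) (l 16657768))) (a (b (a (l 16648872) (l 16637472)) (l 16647368)) (b (l 16619656) (l 16602560))))) (b (b (b (b (a (a (l 16711632) (l 16701112)) (a (l 16690808) (l 16680592))) (a (a (l 16702768) (l 16692200)) (a (l 16681920) (l 16671840)))) (a (a (l 16710440)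 (l 16678784)) (b (l 16688928) (l 16680016)))) (a (b (b (l 16691720) (l 16682848)) (a (l 16654144) (l 16643208))) (b (a (l 16650584) (l 16640680)) (l 16648616)))) (b (a (b (l 16652024) (l 16613584)) (b (l 16609832) (l 16592120))) (b (a (l 16596216) (l 16574504)) (a (l 16578904) (l 16556960)))))) (b (a (b (a (c (l 16673984) (l 16673184)) (l 16654288)) (a (b (l 16647248) (l 16608576)) (b (l 16608008) (l 16590784)))) (b (a (l 16613848) (l 16593640)) (l 16607240))) (a (b (a (b (l 16590680) (l 16572688)) (b (l 16573112) (l 16555424))) (a (b (l 16554848) (l 16537088)) (l 16570568))) (b (a (l 16536936) (l 16529848)) (a (l 16512336) (l 16496168)))))), by decide +kernel⟩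

def k42_pm_011_s : ∃ t, chk3 f_pm_011_s t 6 12 1 = true :=
  ⟨(a (b (l 3) (a (l 3) (b (l 3) (a (l 3) (b (l 3) (a (b (l 3) (a (l 3) (b (l 3) (l 581062096119)))) (b (a (l 3) (a (a (l 3) (l 1)) (l 1))) (a (a (b (l 3) (b (l 425369533319) (l 16778768))) (b (a (l 525764392871) (b (l 553681680887) (l 16776464))) (l 16774208))) (b (c (a (l 25937579239) (l 16772352)) (l 16773784)) (l 16775056)))))))))) (b (l 1) (a (b (l 1) (a (b (l 1) (a (b (l 1) (c (l 16773680) (l 16773576))) (l 1))) (l 1))) (l 1)))), by decide +kernel⟩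

def k43_pm_011_s : ∃ t, chk3 f_pm_011_s t 24 26 1 = true :=
  ⟨(b (l 3) (a (b (l 3) (a (l 3) (b (l 3) (a (b (l 3) (l 571398419287)) (b (a (l 653002797943) (a (l 250886497223) (l 124721829943))) (c (a (l 71571609911) (l 16773376)) (l 9831455495))))))) (b (a (b (l 3) (a (l 3) (a (l 3) (b (l 3) (b (l 628843607735) (l 151028504999)))))) (b (a (l 3) (a (b (l 3) (b (l 546702358727) (l 98952025175))) (b (l 484962203671) (l 16774808)))) (a (a (b (l 561197872615) (l 15200162583)) (b (b (l 195588791159) (l 16775568)) (l 16772328))) (a (l 16773384) (l 16773600))))) (a (b (b (a (l 633138572951) (a (b (l 244444045559) (l 16776128)) (l 16774144))) (a (a (l 477446011239) (c (l 16778552) (l 16775952))) (l 16771344))) (a (b (l 16775776) (l 16768832)) (l 16770104))) (b (a (c (l 16769888) (l 16767464)) (l 16771728)) (l 16764840)))))), by decide +kernel⟩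

def k44_pm_011_s : ∃ t, chk3 f_pm_011_s t 25 26 1 = true :=
  ⟨(b (a (b (a (l 3) (b (l 3) (a (l 3) (b (l 581062096535) (a (c (l 457044916647) (l 465097979863)) (c (b (l 112910668119) (l 16774744)) (l 16775776))))))) (a (b (a (l 3) (b (l 3) (a (l 3) (l 539186165111)))) (b (a (l 3) (a (c (b (l 609516255079) (l 157470955015)) (l 421074565671)) (c (l 16777960) (l 16775360)))) (a (a (l 603610673847) (b (l 444160015207) (l 16776152))) (l 16775272)))) (b (a (b (a (l 607905640471) (b (l 513416362279) (l 91972702567))) (a (c (b (l 184851371799) (l 16775464)) (l 95730800599)) (l 16773496))) (b (c (l 16773120) (l 16773160)) (l 16768968))) (a (c (l 16771264) (l 16768744)) (l 16773152))))) (b (a (b (a (a (l 3) (b (l 3) (a (l 499457718471) (b (l 519858813703) (l 16776224))))) (b (a (c (l 489794041911) (l 501068330535)) (a (b (l 248739009223) (l 16775824)) (l 16775352))) (c (a (l 16775000) (l 16772032)) (l 16773520)))) (b (a (a (b (a (l 580525226263) (l 16778464)) (l 16775864)) (l 16773904))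 (l 16769440)) (a (l 16773904) (l 16765328)))) (b (a (a (l 16773728) (l 16778656)) (l 16774272)) (l 16769040))) (a (b (c (l 16772520) (l 16772616)) (l 16764200)) (l 16761872)))) (a (b (a (b (a (a (b (b (l 129016796727) (l 16774960)) (l 16771752)) (l 16773456)) (l 16771512)) (c (l 16771088) (l 16771352))) (b (l 16767688) (l 16759144))) (a (c (l 16763296) (l 16758552)) (l 16751512))) (b (a (l 16756744) (l 16750288)) (c (l 16738776) (l 16739344))))), by decide +kernel⟩

def k45_pm_011_s : ∃ t, chk3 f_pm_011_s t 12 27 1 = true :=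
  ⟨(a (b (a (b (a (b (a (l 3) (b (l 3) (a (l 589115160551) (c (l 98952027207) (l 16780792))))) (b (a (b (l 665887700151) (l 455971175175)) (l 16778992)) (a (a (l 146196668695) (l 16774280)) (l 16769800)))) (b (b (a (a (a (l 534891199095) (l 161765923735)) (l 16775160)) (l 16770616)) (a (l 16772368) (l 16766320))) (b (l 16770304) (l 16771272)))) (a (b (a (l 16769344) (l 16763392)) (l 16768360)) (c (l 16760440) (l 16760840)))) (b (a (b (c (l 16769640) (l 16759488)) (l 16761264)) (c (l 16752992) (l 16753632))) (a (l 16748568) (l 16746920)))) (a (b (a (c (l 16755528) (l 16745440)) (l 16743864)) (c (l 16743416) (l 16744048))) (b (c (l 16735832) (l 16736800)) (l 16719960)))) (b (a (b (c (l 16745264) (l 16746112)) (l 16728888)) (a (l 16719496) (l 16707912))) (a (a (l 16710112) (l 16698256)) (l 16680760)))), by decide +kernel⟩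

def k46_pm_011_s : ∃ t, chk3 f_pm_011_s t 13 13 1 = true :=
  ⟨(a (b (b (b (a (a (c (l 16761640) (l 16772000)) (l 16760808)) (l 1)) (a (a (l 16755624) (l 16723448)) (l 16728080))) (a (c (l 16734872) (l 16735256)) (c (l 16703368) (l 16702576)))) (b (a (l 16701480) (l 16669320)) (a (l 16658152) (l 16615536)))) (a (b (b (l 1) (l 16681032)) (b (l 16626680) (l 16594000))) (b (l 1) (b (l 16604144) (l 16571808))))), by decide +kernel⟩

def k47_pm_011_s : ∃ t, chk3 f_pm_011_s t 7 6 1 = true :=
  ⟨(b (l 1) (a (a (b (l 1) (b (l 1) (l 16562640))) (l 1)) (l 1))), by decide +kernel⟩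

def k48_pm_011_s : ∃ t, chk3 f_pm_011_s t 3 7 1 = true :=
  ⟨(a (b (a (b (a (b (a (b (l 16727472) (l 16711256)) (b (l 16703880) (l 16666904))) (a (c (l 16686344) (l 16687144)) (l 16663776))) (a (b (l 16672216) (l 16619616)) (b (l 16627968) (l 16596576)))) (a (a (b (l 16654448) (l 16602600)) (b (l 16610848) (l 16580328))) (b (l 16629448) (l 16568368)))) (b (a (b (a (l 16605368) (l 16583688)) (a (l 16574040) (l 16552280))) (b (l 16572272) (l 16540976))) (a (a (l 16571056) (l 16549288)) (b (l 16489544) (l 16461584))))) (a (b (a (b (l 16603936) (l 16553632)) (b (l 16540752) (l 16492480))) (a (a (b (l 16511664) (l 16479392)) (b (l 16492896) (l 16462096))) (a (b (l 16474104) (l 16444832)) (l 16441800)))) (b (a (b (l 16479128) (l 16454064)) (l 16499424)) (a (b (l 16428904) (l 16403104)) (l 16380664))))) (b (a (b (a (b (l 16526744) (l 16475352)) (b (l 1) (l 16426992))) (a (b (l 16445744) (l 16418360)) (l 16406968))) (b (l 1) (a (l 16336872) (l 1)))) (a (b (a (l 16424768) (l 16381112))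 (a (b (l 16352520) (l 16330800)) (l 16296480))) (a (b (l 16289768) (l 16247192)) (l 16341016))))), by decide +kernel⟩

theorem s49_pm_011_s : ∃ t, chk3 f_pm_011_s t 12 26 1 = true := ex3_a k43_pm_011_s k44_pm_011_s

theorem s50_pm_011_s : ∃ t, chk3 f_pm_011_s t 12 13 1 = true := ex3_b s49_pm_011_s k45_pm_011_s

theorem s51_pm_011_s : ∃ t, chk3 f_pm_011_s t 6 13 1 = true := ex3_a s50_pm_011_s k46_pm_011_s

theorem s52_pm_011_s : ∃ t, chk3 f_pm_011_s t 6 6 1 = true := ex3_b k42_pm_011_s s51_pm_011_s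

theorem s53_pm_011_s : ∃ t, chk3 f_pm_011_s t 3 6 1 = true := ex3_a s52_pm_011_s k47_pm_011_s

theorem s54_pm_011_s : ∃ t, chk3 f_pm_011_s t 3 3 1 = true := ex3_b s53_pm_011_s k48_pm_011_s

theorem s55_pm_011_s : ∃ t, chk3 f_pm_011_s t 11 28 1 = true := ex3_a k38_pm_011_s k39_pm_011_s

theorem s56_pm_011_s : ∃ t, chk3 f_pm_011_s t 11 14 1 = true := ex3_b s55_pm_011_s k40_pm_011_s

theorem s57_pm_011_s : ∃ t, chk3 f_pm_011_s t 20 29 1 = true := ex3_b k35_pm_011_s k36_pm_011_s

theorem s58_pm_011_s : ∃ t, chk3 f_pm_011_s t 10 29 1 = true := ex3_a s57_pm_011_s k37_pm_011_s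

theorem s59_pm_011_s : ∃ t, chk3 f_pm_011_s t 10 14 1 = true := ex3_b k34_pm_011_s s58_pm_011_s

theorem s60_pm_011_s : ∃ t, chk3 f_pm_011_s t 5 14 1 = true := ex3_a s59_pm_011_s s56_pm_011_s

theorem s61_pm_011_s : ∃ t, chk3 f_pm_011_s t 5 7 1 = true := ex3_b s60_pm_011_s k41_pm_011_s

theorem s62_pm_011_s : ∃ t, chk3 f_pm_011_s t 38 60 1 = true := ex3_b k29_pm_011_s k30_pm_011_s

theorem s63_pm_011_s : ∃ t, chk3 f_pm_011_s t 19 60 1 = true := ex3_a s62_pm_011_s k31_pm_011_s

theorem s64_pm_011_s : ∃ t, chk3 f_pm_011_s t 19 30 1 = true := ex3_b s63_pm_011_s k32_pm_011_s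

theorem s65_pm_011_s : ∃ t, chk3 f_pm_011_s t 37 122 1 = true := ex3_a k26_pm_011_s k27_pm_011_s

theorem s66_pm_011_s : ∃ t, chk3 f_pm_011_s t 37 61 1 = true := ex3_b s65_pm_011_s k28_pm_011_s

theorem s67_pm_011_s : ∃ t, chk3 f_pm_011_s t 72 123 1 = true := ex3_b k23_pm_011_s k24_pm_011_s

theorem s68_pm_011_s : ∃ t, chk3 f_pm_011_s t 36 123 1 = true := ex3_a s67_pm_011_s k25_pm_011_s

theorem s69_pm_011_s : ∃ t, chk3 f_pm_011_s t 36 61 1 = true := ex3_b k22_pm_011_s s68_pm_011_s

theorem s70_pm_011_s : ∃ t, chk3 f_pm_011_s t 18 61 1 = true := ex3_a s69_pm_011_s s66_pm_011_s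

theorem s71_pm_011_s : ∃ t, chk3 f_pm_011_s t 18 30 1 = true := ex3_b k21_pm_011_s s70_pm_011_s

theorem s72_pm_011_s : ∃ t, chk3 f_pm_011_s t 9 30 1 = true := ex3_a s71_pm_011_s s64_pm_011_s

theorem s73_pm_011_s : ∃ t, chk3 f_pm_011_s t 9 15 1 = true := ex3_b s72_pm_011_s k33_pm_011_s

theorem s74_pm_011_s : ∃ t, chk3 f_pm_011_s t 71 248 1 = true := ex3_a k16_pm_011_s k17_pm_011_s

theorem s75_pm_011_s : ∃ t, chk3 f_pm_011_s t 71 124 1 = true := ex3_b s74_pm_011_s k18_pm_011_s

theorem s76_pm_011_s : ∃ t, chk3 f_pm_011_s t 141 124 1 = true := ex3_b k14_pm_011_s k15_pm_011_s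

theorem s77_pm_011_s : ∃ t, chk3 f_pm_011_s t 140 249 1 = true := ex3_b k12_pm_011_s k13_pm_011_s

theorem s78_pm_011_s : ∃ t, chk3 f_pm_011_s t 140 124 1 = true := ex3_b k11_pm_011_s s77_pm_011_s

theorem s79_pm_011_s : ∃ t, chk3 f_pm_011_s t 70 124 1 = true := ex3_a s78_pm_011_s s76_pm_011_s

theorem s80_pm_011_s : ∃ t, chk3 f_pm_011_s t 35 124 1 = true := ex3_a s79_pm_011_s s75_pm_011_s

theorem s81_pm_011_s : ∃ t, chk3 f_pm_011_s t 35 62 1 = true := ex3_b s80_pm_011_s k19_pm_011_s

theorem s82_pm_011_s : ∃ t, chk3 f_pm_011_s t 69 500 1 = true := ex3_a k7_pm_011_s k8_pm_011_s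

theorem s83_pm_011_s : ∃ t, chk3 f_pm_011_s t 69 250 1 = true := ex3_b s82_pm_011_s k9_pm_011_s

theorem s84_pm_011_s : ∃ t, chk3 f_pm_011_s t 69 125 1 = true := ex3_b s83_pm_011_s k10_pm_011_s

theorem s85_pm_011_s : ∃ t, chk3 f_pm_011_s t 34 125 1 = true := ex3_a k6_pm_011_s s84_pm_011_s

theorem s86_pm_011_s : ∃ t, chk3 f_pm_011_s t 34 62 1 = true := ex3_b k5_pm_011_s s85_pm_011_s

theorem s87_pm_011_s : ∃ t, chk3 f_pm_011_s t 17 62 1 = true := ex3_a s86_pm_011_s s81_pm_011_s

theorem s88_pm_011_s : ∃ t, chk3 f_pm_011_s t 17 31 1 = true := ex3_b s87_pm_011_s k20_pm_011_s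

theorem s89_pm_011_s : ∃ t, chk3 f_pm_011_s t 8 31 1 = true := ex3_a k4_pm_011_s s88_pm_011_s

theorem s90_pm_011_s : ∃ t, chk3 f_pm_011_s t 8 15 1 = true := ex3_b k3_pm_011_s s89_pm_011_s

theorem s91_pm_011_s : ∃ t, chk3 f_pm_011_s t 4 15 1 = true := ex3_a s90_pm_011_s s73_pm_011_s

theorem s92_pm_011_s : ∃ t, chk3 f_pm_011_s t 4 7 1 = true := ex3_b k2_pm_011_s s91_pm_011_s

theorem s93_pm_011_s : ∃ t, chk3 f_pm_011_s t 2 7 1 = true := ex3_a s92_pm_011_s s61_pm_011_s

theorem s94_pm_011_s : ∃ t, chk3 f_pm_011_s t 2 3 1 = true := ex3_b k1_pm_011_s s93_pm_011_s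

theorem s95_pm_011_s : ∃ t, chk3 f_pm_011_s t 1 3 1 = true := ex3_a s94_pm_011_s s54_pm_011_s

theorem s96_pm_011_s : ∃ t, chk3 f_pm_011_s t 1 1 1 = true := ex3_b k0_pm_011_s s95_pm_011_s

theorem c_pm_011_s : CertNE 0 536870912 536870912 536870912 740881858 40050571 3 eng mog cd0q0 cd5q1 pd1 true true false .pnn 0 1 1
    ndB0q0 ndB5q1 pcB1 cut_pm_011_s Ext.none :=
  certNE1 (fam := true) (s1 := true) (s2 := false) (a := 0) (b := 1) (c := 1) (cn := .pnn) (n1 := ndB0q0) (n2 := ndB5q1) (pc := pcB1) (cut := cut_pm_011_s) (xt := Ext.none) (P1 := 0) (W1 := 536870912) (P2 := 536870912) (W2 := 536870912) (P3 := 740881858) (W3 := 40050571) (N0 := 3) (En := eng) (mo := mog) (C1 := cd0q0) (C2 := cd5q1) (C3 := pd1)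
    rfl (fun _ => rfl) s96_pm_011_s

noncomputable def cut_pm_012_s : Cut := Cut.of [[⟨4, 0, 0, 1449551462⟩], [⟨0, 0, 0, 67108864⟩, ⟨1, 1, 0, 67108864⟩, ⟨2, 1, 0, 67108864⟩]]

noncomputable def f_pm_012_s : ℕ → ℕ → ℕ → ℕ → Bool := onCell 1073741824 536870912 536870912 536870912 740881858 40050571
    (rowNE 3 eng mog cd0q0 cd5q1 pd2 2 true true false .pnp 0 1 2 (qsf 0 536870912 536870912 536870912 2) ndB0q0 ndB5q1 pcB2 cut_pm_012_s Ext.none)

def k0_pm_012_s : ∃ t, chk3 f_pm_012_s t 4 2 1 = true :=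
  ⟨(b (a (b (a (b (l 16015824) (a (l 16125408) (l 16032920))) (l 6)) (a (b (a (l 16133880) (l 16105568)) (a (l 16267064) (l 16197680))) (b (l 16100048) (l 16110008)))) (l 6)) (a (b (a (b (a (b (l 16221128) (l 16248304)) (l 16206336)) (a (b (l 16297216) (l 16304232)) (l 16260920))) (b (l 16276160) (l 16356928))) (a (a (b (l 16346288) (l 16400624)) (b (l 16316880) (l 16363168))) (b (a (l 16278632) (l 16239064)) (a (l 16318528) (l 16276224))))) (b (a (b (l 16095048) (l 16203552)) (l 6)) (a (b (a (l 16200984) (l 16226072)) (c (l 16207040) (l 16214096))) (a (b (l 16251800) (l 16178592)) (l 6)))))), by decide +kernel⟩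

def k1_pm_012_s : ∃ t, chk3 f_pm_012_s t 4 6 1 = true :=
  ⟨(a (b (a (a (b (l 16474736) (c (l 16558704) (l 16516752))) (b (l 16403664) (b (l 16432632) (l 16472672)))) (b (a (l 16354880) (b (l 16299992) (l 16315416))) (a (b (l 16381160) (l 16398864)) (b (l 16330976) (l 16347280))))) (a (a (a (b (l 16576080) (b (l 16583136) (l 16599952))) (b (l 16525264) (l 16615560))) (b (b (l 16492488) (l 16513200)) (b (a (l 16529712) (l 16499160)) (l 16537896)))) (b (a (b (l 16416640) (l 16435176)) (a (l 16385128) (l 16358984))) (a (b (l 16454576) (l 16475344)) (a (l 16421432) (l 16434736)))))) (b (a (a (b (l 16325808) (l 16352800)) (b (l 16241872) (l 16243144))) (a (b (l 16285040) (l 16240160)) (b (l 16143296) (l 16157496)))) (a (b (a (l 16361712) (l 16331648)) (a (b (l 16342552) (l 16358312)) (b (l 16289448) (l 16302936)))) (b (a (a (l 16232040) (l 16208216)) (l 16173664)) (a (a (l 16257368) (l 16231984)) (l 16256312)))))), by decide +kernel⟩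

def k2_pm_012_s : ∃ t, chk3 f_pm_012_s t 8 7 1 = true :=
  ⟨(b (a (a (b (a (a (b (l 16620160) (l 16639488)) (l 16644824)) (b (l 16605832) (l 16624256))) (b (a (a (l 16681232) (l 16632944)) (l 16644288)) (a (b (l 16673160) (l 16678680)) (l 16662896)))) (b (b (l 16560656) (l 16581776)) (a (b (l 16615544) (l 16630768)) (b (l 16583840) (l 16599088))))) (b (a (b (l 16539056) (l 16580648)) (b (l 16476816) (a (l 16470112) (l 16438592)))) (a (b (a (l 16552200) (l 16520568)) (a (l 16567528) (l 16536096))) (a (b (l 16488600) (l 16504744)) (b (l 16457064) (l 16473400)))))) (a (b (a (a (b (a (b (l 16697672) (l 14)) (l 16696768)) (l 14)) (b (b (l 16673552) (l 16680424)) (b (l 16687112) (l 14)))) (b (b (a (l 16640960) (l 16608904)) (a (l 16647312) (l 16614888))) (a (b (l 16653488) (l 16669960)) (b (l 16620560) (l 16626056))))) (a (l 14) (b (a (l 14) (b (l 16641832) (l 14))) (l 14)))) (b (a (b (a (l 16580136) (l 16548792)) (a (b (l 16588336) (l 16593328)) (b (l 16556640) (l 16561312)))) (b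 (a (l 16517560) (l 16507448)) (a (l 16548576) (a (l 16504376) (l 16488912))))) (a (b (a (b (l 16598144) (b (l 16601616) (l 14))) (b (l 16565640) (l 16590752))) (b (a (l 14) (b (l 16572736) (l 14))) (l 14))) (b (a (b (l 16533832) (l 16537504)) (b (l 16544512) (a (l 16513768) (l 16498104)))) (a (b (b (l 16540120) (l 16541792)) (b (l 16564384) (l 14))) (b (a (l 16516872) (l 16501024)) (a (b (l 16519064) (l 16520456)) (c (l 16509480) (l 16497752)))))))))), by decide +kernel⟩

def k3_pm_012_s : ∃ t, chk3 f_pm_012_s t 9 7 1 = true :=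
  ⟨(b (a (b (a (a (l 16482016) (l 16388296)) (b (l 16316536) (l 16330048))) (a (b (a (l 16424472) (l 16391296)) (a (l 16440368) (l 16406768))) (b (l 16343760) (a (l 16373696) (l 16341288))))) (b (a (b (l 16283016) (l 16336176)) (b (l 16208560) (l 16217464))) (a (a (b (l 16298552) (l 16310104)) (b (l 16269704) (l 16279936))) (b (l 16225792) (l 16233664))))) (b (a (a (b (a (l 16453824) (l 16419968)) (a (a (l 16472504) (l 16455264)) (l 16450752))) (b (a (l 16386328) (l 16353632)) (a (l 16396376) (l 16363568)))) (a (b (a (l 16321472) (l 16289944)) (a (l 16351952) (a (l 16307232) (l 16291384)))) (b (a (l 16257760) (l 16225608)) (a (l 16266160) (l 16232560))))) (a (a (b (a (b (l 16490536) (a (l 16481408) (l 16463784))) (b (l 16435128) (l 16437832))) (a (b (a (l 16484096) (l 16466152)) (a (c (l 16492696) (l 16480008)) (c (l 16475024) (l 16461064)))) (b (c (l 16447456) (l 16432000)) (a (c (l 16457744) (l 16442528)) (c (l 16440768) (l 16424304)))))) (b (a (b (l 16401536) (l 16404032))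 (b (l 16368688) (l 16371080))) (a (b (c (l 16414608) (l 16396696)) (a (c (l 16424136) (l 16406432)) (c (l 16407808) (l 16388880)))) (b (c (l 16382664) (l 16362328)) (c (l 16404752) (l 16363040)))))) (a (b (a (b (l 16336480) (l 16338872)) (a (l 16314016) (l 16319224))) (a (b (l 16371896) (c (l 16352544) (l 16329408))) (a (b (l 16316712) (l 16317472)) (b (l 16301016) (c (l 16314504) (l 16288488)))))) (b (a (b (l 16271368) (l 16274080)) (b (l 16237432) (l 16240032))) (a (b (l 16275776) (c (l 16289752) (l 16262848))) (b (l 16241968) (c (l 16256512) (l 16228712))))))))), by decide +kernel⟩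

def k4_pm_012_s : ∃ t, chk3 f_pm_012_s t 5 2 1 = true :=
  ⟨(b (l 6) (l 6)), by decide +kernel⟩

def k5_pm_012_s : ∃ t, chk3 f_pm_012_s t 5 6 1 = true :=
  ⟨(a (a (a (b (b (l 6) (l 16119904)) (b (l 16129688) (l 16144176))) (b (l 6) (a (b (l 16099520) (l 16109272)) (b (l 6) (a (l 16092280) (l 16081448)))))) (b (l 6) (b (l 6) (a (l 16055136) (l 6))))) (l 6)), by decide +kernel⟩

def k6_pm_012_s : ∃ t, chk3 f_pm_012_s t 5 7 1 = true :=
  ⟨(a (b (a (a (b (l 16180640) (b (l 16169160) (l 16195504))) (a (b (l 16121072) (b (l 16129064) (l 16132744))) (b (a (l 16102728) (a (l 16093816) (l 16087960))) (a (l 16111448) (a (l 16102040) (l 16095912)))))) (a (b (l 16082216) (b (l 16065856) (l 16067720))) (b (l 6) (b (l 16016864) (l 16016832))))) (a (a (b (b (a (l 16194504) (l 16164512)) (a (l 16200136) (l 16168808))) (b (a (b (l 16204096) (l 16206552)) (l 16214784)) (a (b (l 16208408) (l 16251536)) (b (l 16175496) (c (l 16191048) (l 16161776)))))) (a (b (b (l 16135896) (l 16138736)) (b (c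 (l 16156152) (l 16126704)) (b (l 16143488) (c (l 16159256) (l 16129496))))) (b (a (b (l 16115160) (l 16117168)) (a (b (l 16105424) (l 16107080)) (b (l 16099136) (l 16100584)))) (a (b (l 16119208) (b (l 16120560) (l 16121304))) (a (b (l 16108808) (c (b (l 16124712) (l 16125376)) (l 16095304))) (b (c (l 16116808) (l 16087240)) (a (b (l 16126192) (c (l 16120512) (l 16090960))) (l 16102064)))))))) (b (a (b (a (l 16082128) (l 16055104)) (a (l 16082912) (l 16054464))) (b (l 16015744) (a (l 16026960) (l 16000336)))) (b (a (a (l 16125360) (l 16074440)) (a (l 16045640) (b (l 15997624) (l 15995640)))) (a (c (b (l 16084272) (a (l 16099504) (l 16068984))) (a (l 16068256) (l 16035456))) (c (b (l 16026536) (a (l 16039392) (l 16010752))) (a (l 16003656) (l 15972888)))))))) (a (b (l 6) (a (b (b (l 6) (l 15961608)) (b (a (b (l 15970920) (l 15968272)) (l 15943392)) (c (b (l 15972712) (a (l 15983072) (l 15956432))) (a (l 15943304) (l 15914552))))) (l 6))) (l 6))), by decide +kernel⟩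

def k7_pm_012_s : ∃ t, chk3 f_pm_012_s t 3 1 1 = true :=
  ⟨(b (l 6) (l 6)), by decide +kernel⟩

theorem s8_pm_012_s : ∃ t, chk3 f_pm_012_s t 5 3 1 = true := ex3_b k5_pm_012_s k6_pm_012_s

theorem s9_pm_012_s : ∃ t, chk3 f_pm_012_s t 5 1 1 = true := ex3_b k4_pm_012_s s8_pm_012_s

theorem s10_pm_012_s : ∃ t, chk3 f_pm_012_s t 4 7 1 = true := ex3_a k2_pm_012_s k3_pm_012_s

theorem s11_pm_012_s : ∃ t, chk3 f_pm_012_s t 4 3 1 = true := ex3_b k1_pm_012_s s10_pm_012_s

theorem s12_pm_012_s : ∃ t, chk3 f_pm_012_s t 4 1 1 = true := ex3_b k0_pm_012_s s11_pm_012_s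

theorem s13_pm_012_s : ∃ t, chk3 f_pm_012_s t 2 1 1 = true := ex3_a s12_pm_012_s s9_pm_012_s

theorem s14_pm_012_s : ∃ t, chk3 f_pm_012_s t 1 1 1 = true := ex3_a s13_pm_012_s k7_pm_012_s

theorem c_pm_012_s : CertNE 0 536870912 536870912 536870912 740881858 40050571 3 eng mog cd0q0 cd5q1 pd2 true true false .pnp 0 1 2
    ndB0q0 ndB5q1 pcB2 cut_pm_012_s Ext.none :=
  certNE2 (fam := true) (s1 := true) (s2 := false) (a := 0) (b := 1) (c := 2) (cn := .pnp) (n1 := ndB0q0) (n2 := ndB5q1) (pc := pcB2) (cut := cut_pm_012_s) (xt := Ext.none) (P1 := 0) (W1 := 536870912) (P2 := 536870912) (W2 := 536870912) (P3 := 740881858) (W3 := 40050571) (N0 := 3) (En := eng) (mo := mog) (C1 := cd0q0) (C2 := cd5q1) (C3 := pd2)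
    rfl (fun _ => rfl) s14_pm_012_s

noncomputable def cut_pm_022_s : Cut := Cut.of [[⟨4, 0, 0, 1449551462⟩], [⟨0, 0, 0, 67108864⟩, ⟨1, 1, 0, 67108864⟩, ⟨2, 1, 0, 67108864⟩]]

noncomputable def f_pm_022_s : ℕ → ℕ → ℕ → ℕ → Bool := onCell 1073741824 536870912 1073741824 536870912 740881858 40050571
    (rowNE 3 eng mog cd0q0 cd5q2 pd2 2 true true false .pp 0 2 2 (qsf 0 536870912 1073741824 536870912 2) ndB0q0 ndB5q2 pcB2 cut_pm_022_s Ext.none)

def k0_pm_022_s : ∃ t, chk3 f_pm_022_s t 8 2 1 = true :=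
  ⟨(b (b (a (b (l 14) (b (l 14) (l 1))) (b (a (l 14) (a (l 14) (a (l 14) (a (l 14) (b (b (l 16512920) (l 16536384)) (l 16570296)))))) (a (b (l 14) (b (l 14) (l 1))) (b (a (l 14) (a (l 14) (a (l 14) (l 16592128)))) (a (b (l 14) (l 597033743015)) (a (b (l 14) (l 16647096)) (c (l 152504512823) (l 16582528)))))))) (a (l 1) (b (b (a (l 1) (a (l 1) (b (l 593812479591) (l 1)))) (l 1)) (l 1)))) (l 1)), by decide +kernel⟩

def k1_pm_022_s : ∃ t, chk3 f_pm_022_s t 9 4 1 = true :=
  ⟨(b (a (b (a (b (b (a (a (c (l 16505392) (l 16493424)) (c (l 16487472) (l 16474240))) (c (a (l 16469936) (l 16452768)) (a (l 16455448) (l 16437032)))) (a (a (l 16522904) (l 16504280)) (c (l 16483600) (l 16470312)))) (a (b (a (l 16545640) (l 16526928)) (a (l 16567696) (l 16548896))) (b (l 16499600) (l 16521456)))) (b (b (a (c (b (l 16422072) (l 16433312)) (a (l 16419016) (l 16401312))) (c (b (l 16389784) (l 16400992)) (l 16375392))) (a (c (l 16449816) (l 16434088)) (c (l 16417456) (l 16399336)))) (a (b (l 16464472)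 (l 16486184)) (b (l 16430808) (l 16452392))))) (a (b (a (b (l 16621520) (a (l 16609712) (l 16590760))) (b (l 16542624) (l 16563104))) (a (a (l 16588824) (l 16620280)) (b (l 16582880) (l 16601936)))) (b (a (l 16559432) (l 16483528)) (a (b (l 16547256) (l 16566208)) (l 16543632))))) (b (a (b (a (b (c (l 16364208) (l 16341840)) (l 16397296)) (b (a (l 16329600) (c (l 16326344) (l 16301112))) (a (l 16352888) (l 16337464)))) (a (b (l 16398552) (l 16420016)) (a (l 16385992) (l 16370696)))) (b (a (b (c (l 16301792) (l 16275688)) (l 16312824)) (b (c (l 16268864) (l 16241904)) (l 16279992))) (b (a (l 16335528) (l 16303160)) (l 16425064)))) (a (b (a (l 16451008) (l 16440808)) (a (l 16489976) (l 16458680))) (b (a (l 16388232) (l 16356584)) (l 16453312))))) (a (b (a (b (a (a (l 628709089175) (l 568042651015)) (c (l 168073683687) (l 171294912215))) (l 879427742839)) (b (a (l 16593264) (l 16558968)) (a (l 495028078983) (l 16539184)))) (a (l 1) (b (l 810171341527) (l 1)))) (b (a (b (a (l 16526168)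 (l 16515760)) (a (l 16559464) (l 16528040))) (b (l 16489624) (l 16481216))) (b (a (a (l 472479384487) (l 16550328)) (l 16511840)) (a (l 723735065095) (l 394633004743)))))), by decide +kernel⟩

def k2_pm_022_s : ∃ t, chk3 f_pm_022_s t 9 5 1 = true :=
  ⟨(a (l 1) (b (b (a (l 1) (l 766147784071)) (l 1)) (l 1))), by decide +kernel⟩

def k3_pm_022_s : ∃ t, chk3 f_pm_022_s t 4 3 1 = true :=
  ⟨(l 1), by decide +kernel⟩

def k4_pm_022_s : ∃ t, chk3 f_pm_022_s t 10 4 1 = true :=
  ⟨(b (a (a (b (b (a (b (l 16264696) (l 16247704)) (b (l 16232312) (l 16215976))) (a (l 16282808) (l 16251952))) (b (a (l 16325768) (l 16295896)) (l 16371616))) (a (b (b (b (c (l 16172736) (l 16144016)) (l 16185008)) (l 16221952)) (b (l 16266944) (l 16307648))) (b (a (b (b (l 16135560) (l 16162512)) (l 16200248)) (b (a (b (c (l 16139104) (l 16110456)) (l 16152120)) (b (c (a (l 16134288) (l 16130776)) (l 16103736)) (l 16166392))) (a (l 16190320) (l 16183968)))) (a (l 16267336) (a (b (l 16236728) (l 16278624))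 (b (l 16230736) (l 16272936))))))) (b (b (a (a (b (c (l 16113024) (l 16082992)) (l 16125640)) (b (c (l 16082120) (l 16049432)) (l 16093368))) (c (b (a (l 16052112) (l 16023024)) (l 16063592)) (a (l 16031152) (l 15999432)))) (a (a (l 16164496) (l 16132936)) (a (l 16101728) (l 16071040)))) (b (a (l 16196840) (a (l 16150920) (l 16120960))) (a (l 16239976) (l 16181008))))) (a (a (b (b (l 16387360) (l 16421408)) (b (l 16452632) (l 16480912))) (a (b (l 16383576) (l 16425760)) (b (a (l 16343024) (a (l 16334432) (l 16329056))) (a (l 16406800) (b (l 16380944) (l 16347392)))))) (b (a (b (l 16278824) (l 16314328)) (b (l 16221360) (l 16257608))) (b (a (l 16346776) (l 16290600)) (a (l 16376440) (l 16320552)))))), by decide +kernel⟩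

def k5_pm_022_s : ∃ t, chk3 f_pm_022_s t 11 4 1 = true :=
  ⟨(b (b (a (b (a (a (b (c (l 15994880) (l 15954528)) (l 16001992)) (c (l 15980600) (l 15938976))) (a (b (l 15961240) (l 15945816)) (l 6))) (a (a (l 16041336) (l 16012528)) (a (l 15984648) (l 15957712)))) (l 6)) (a (a (b (a (l 16091392) (l 16062352)) (l 16123208)) (b (l 16020552) (l 16067480))) (b (l 6) (a (l 16014264) (l 6))))) (a (b (b (a (l 16165320) (l 16110600)) (l 16239096)) (a (l 16273088) (l 16200368))) (b (b (a (l 16058032) (l 6)) (l 16177976)) (b (l 16151584) (l 16142640))))), by decide +kernel⟩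

def k6_pm_022_s : ∃ t, chk3 f_pm_022_s t 5 5 1 = true :=
  ⟨(b (a (a (a (b (b (l 270079143111) (l 658236683015)) (l 1)) (a (b (l 188474434487) (l 1)) (b (a (l 16459768) (b (l 16436960) (l 16444152))) (a (l 1) (l 822519142007))))) (b (a (l 16416072) (l 16360888)) (a (l 561062835911) (l 153040713943)))) (b (a (b (l 16311272) (l 16316280)) (a (l 16209128) (l 16162784))) (a (a (l 16355504) (l 16306128)) (a (l 16258888) (l 16213776))))) (a (a (l 1) (b (l 746283264023) (l 1))) (b (a (a (l 498785571335) (l 219075739255)) (l 16383600)) (a (l 724808281095) (b (l 16358360) (l 523481561367)))))), by decide +kernel⟩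

def k7_pm_022_s : ∃ t, chk3 f_pm_022_s t 5 3 1 = true :=
  ⟨(a (l 1) (b (b (a (l 1) (b (l 707091398279) (l 1))) (l 1)) (l 1))), by decide +kernel⟩

def k8_pm_022_s : ∃ t, chk3 f_pm_022_s t 3 1 1 = true :=
  ⟨(a (a (b (b (l 6) (a (b (a (b (l 16118592) (l 16170728)) (l 6)) (b (a (l 16215664) (l 16176024)) (l 16418648))) (l 6))) (b (b (a (b (b (l 357051725111) (l 543882636903)) (l 681858329895)) (b (l 16173472) (l 430602885191))) (a (l 1) (b (l 660383341063) (l 1)))) (l 1))) (b (l 6) (a (b (l 6) (l 1)) (l 6)))) (b (l 6) (l 6))), by decide +kernel⟩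

theorem s9_pm_022_s : ∃ t, chk3 f_pm_022_s t 5 4 1 = true := ex3_a k4_pm_022_s k5_pm_022_s

theorem s10_pm_022_s : ∃ t, chk3 f_pm_022_s t 5 2 1 = true := ex3_b s9_pm_022_s k6_pm_022_s

theorem s11_pm_022_s : ∃ t, chk3 f_pm_022_s t 5 1 1 = true := ex3_b s10_pm_022_s k7_pm_022_s

theorem s12_pm_022_s : ∃ t, chk3 f_pm_022_s t 9 2 1 = true := ex3_b k1_pm_022_s k2_pm_022_s

theorem s13_pm_022_s : ∃ t, chk3 f_pm_022_s t 4 2 1 = true := ex3_a k0_pm_022_s s12_pm_022_s

theorem s14_pm_022_s : ∃ t, chk3 f_pm_022_s t 4 1 1 = true := ex3_b s13_pm_022_s k3_pm_022_s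

theorem s15_pm_022_s : ∃ t, chk3 f_pm_022_s t 2 1 1 = true := ex3_a s14_pm_022_s s11_pm_022_s

theorem s16_pm_022_s : ∃ t, chk3 f_pm_022_s t 1 1 1 = true := ex3_a s15_pm_022_s k8_pm_022_s

theorem c_pm_022_s : CertNE 0 536870912 1073741824 536870912 740881858 40050571 3 eng mog cd0q0 cd5q2 pd2 true true false .pp 0 2 2
    ndB0q0 ndB5q2 pcB2 cut_pm_022_s Ext.none :=
  certNE2 (fam := true) (s1 := true) (s2 := false) (a := 0) (b := 2) (c := 2) (cn := .pp) (n1 := ndB0q0) (n2 := ndB5q2) (pc := pcB2) (cut := cut_pm_022_s) (xt := Ext.none) (P1 := 0) (W1 := 536870912) (P2 := 1073741824) (W2 := 536870912) (P3 := 740881858) (W3 := 40050571) (N0 := 3) (En := eng) (mo := mog) (C1 := cd0q0) (C2 := cd5q2) (C3 := pd2)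
    rfl (fun _ => rfl) s16_pm_022_s

noncomputable def cut_pm_023_s : Cut := Cut.of [[⟨4, 0, 0, 1449551462⟩]]

noncomputable def f_pm_023_s : ℕ → ℕ → ℕ → ℕ → Bool := onCell 1610612736 536870912 1073741824 536870912 740881858 40050571
    (rowNE 3 eng mog cd0q0 cd5q2 pd3 2 true true false .up 0 2 3 (qsf 0 536870912 1073741824 536870912 3) ndB0q0 ndB5q2 pcB3 cut_pm_023_s Ext.none)

def k0_pm_023_s : ∃ t, chk3 f_pm_023_s t 1 1 1 = true :=
  ⟨(a (l 6) (l 6)), by decide +kernel⟩

theorem c_pm_023_s : CertNE 0 536870912 1073741824 536870912 740881858 40050571 3 eng mog cd0q0 cd5q2 pd3 true true false .up 0 2 3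
    ndB0q0 ndB5q2 pcB3 cut_pm_023_s Ext.none :=
  certNE2 (fam := true) (s1 := true) (s2 := false) (a := 0) (b := 2) (c := 3) (cn := .up) (n1 := ndB0q0) (n2 := ndB5q2) (pc := pcB3) (cut := cut_pm_023_s) (xt := Ext.none) (P1 := 0) (W1 := 536870912) (P2 := 1073741824) (W2 := 536870912) (P3 := 740881858) (W3 := 40050571) (N0 := 3) (En := eng) (mo := mog) (C1 := cd0q0) (C2 := cd5q2) (C3 := pd3)
    rfl (fun _ => rfl) k0_pm_023_s

noncomputable def cut_pm_033_s : Cut := Cut.of [[⟨4, 0, 0, 1449551462⟩]]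

noncomputable def f_pm_033_s : ℕ → ℕ → ℕ → ℕ → Bool := onCell 1610612736 536870912 0 1230186008 740881858 40050571
    (rowNE 3 eng mog cd0q0 cd5q3 pd3 2 true true false .pnn 0 3 3 (qsf 0 536870912 0 1230186008 3) ndB0q0 ndB5q3 pcB3 cut_pm_033_s Ext.none)

def k0_pm_033_s : ∃ t, chk3 f_pm_033_s t 1 1 1 = true :=
  ⟨(b (l 6) (l 6)), by decide +kernel⟩

theorem c_pm_033_s : CertNE 0 536870912 0 1230186008 740881858 40050571 3 eng mog cd0q0 cd5q3 pd3 true true false .pnn 0 3 3
    ndB0q0 ndB5q3 pcB3 cut_pm_033_s Ext.none :=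
  certNE2 (fam := true) (s1 := true) (s2 := false) (a := 0) (b := 3) (c := 3) (cn := .pnn) (n1 := ndB0q0) (n2 := ndB5q3) (pc := pcB3) (cut := cut_pm_033_s) (xt := Ext.none) (P1 := 0) (W1 := 536870912) (P2 := 0) (W2 := 1230186008) (P3 := 740881858) (W3 := 40050571) (N0 := 3) (En := eng) (mo := mog) (C1 := cd0q0) (C2 := cd5q3) (C3 := pd3)
    rfl (fun _ => rfl) k0_pm_033_s

noncomputable def cut_pm_101_s : Cut := Cut.of [[⟨4, 0, 0, 1449551462⟩]]

noncomputable def f_pm_101_s : ℕ → ℕ → ℕ → ℕ → Bool := onCell 536870912 536870912 536870912 536870912 740881858 40050571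
    (rowNE 3 eng mog cd0q1 cd5q0 pd1 1 true true false .npn 1 0 1 (qsf 536870912 536870912 0 536870912 1) ndB0q1 ndB5q0 pcB1 cut_pm_101_s Ext.none)

def k0_pm_101_s : ∃ t, chk3 f_pm_101_s t 4 8 1 = true :=
  ⟨(a (l 3) (a (a (l 3) (l 1)) (l 1))), by decide +kernel⟩

def k1_pm_101_s : ∃ t, chk3 f_pm_101_s t 8 9 1 = true :=
  ⟨(a (b (l 3) (a (l 3) (b (l 3) (b (l 3) (a (l 3) (b (l 3) (a (l 3) (b (l 488183427367) (l 311016014279))))))))) (b (b (l 3) (a (l 3) (b (l 3) (a (l 3) (b (l 3) (a (l 3) (b (l 3) (a (l 3) (a (a (l 527911876919) (l 402284081799)) (b (l 366850604647) (l 16776368))))))))))) (b (a (b (l 3) (a (l 3) (b (l 3) (a (l 3) (b (l 536501808231) (a (l 532206842791) (l 283635604247))))))) (b (a (b (l 3) (a (l 3) (a (l 3) (b (l 3) (a (l 396378504279) (l 190756939959)))))) (b (b (a (l 3) (a (b (l 424295788791) (a (l 311016024183) (l 16776328))) (l 16775192))) (a (a (l 3) (c (b (l 421074566055) (l 202568099831)) (l 309942277815))) (c (l 16774104) (l 16773904)))) (a (a (b (a (l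 405505309687) (l 199346874327)) (l 16775032)) (l 16775232)) (c (l 16781192) (l 16770296))))) (a (b (a (b (l 3) (a (l 537575551671) (l 301889213895))) (b (c (a (l 295983633991) (l 16775040)) (l 175724549719)) (l 16773752))) (a (a (b (l 294373021975) (l 16774728)) (l 16773624)) (l 16780680))) (a (b (l 16780848) (l 16765640)) (l 16763448))))) (a (b (a (b (l 3) (a (l 3) (b (l 528985616007) (a (l 509658265063) (l 205789323271))))) (b (a (b (l 532743712103) (a (l 526838133943) (l 226727288055))) (b (a (l 274508798903) (l 16774640)) (l 16773392))) (a (b (a (l 217063611959) (l 16774440)) (l 16773176)) (l 16769784)))) (a (b (a (b (l 505900167111) (c (l 320679695943) (l 311016013943))) (c (l 86603980359) (l 16774016))) (a (l 79087788039) (l 16769248))) (b (l 16767232) (l 16762344)))) (b (a (a (b (l 16780488) (l 16765208)) (l 16763040)) (l 16756224)) (l 16772064)))))), by decide +kernel⟩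

def k2_pm_101_s : ∃ t, chk3 f_pm_101_s t 18 36 1 = true :=
  ⟨(a (b (l 3) (a (l 3) (b (l 3) (a (l 3) (b (l 3) (a (l 3) (c (b (a (l 3) (a (a (l 3) (l 1)) (l 1))) (a (c (b (a (l 3) (a (l 3) (b (l 3) (b (l 3) (l 442549403495))))) (b (a (l 3) (a (l 475298529015) (a (a (l 305110449351) (l 151565368807)) (l 16777048)))) (a (l 508584525351) (a (a (l 249812745431) (l 16777048)) (l 16776848))))) (l 406042180983)) (b (a (a (a (b (l 3) (b (l 311016029415) (l 16777120))) (b (a (l 543481134887) (b (l 1) (l 309942287895))) (l 16777048))) (b (a (l 241088593111) (l 1)) (l 16776840))) (b (l 1) (l 16776424))) (a (a (l 16776536) (l 16776424)) (l 16776000))))) (l 345912631095)))))))) (b (l 1) (b (l 1) (b (l 1) (a (a (b (l 1) (b (l 1) (l 16777320))) (l 1)) (l 1)))))), by decide +kernel⟩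

def k3_pm_101_s : ∃ t, chk3 f_pm_101_s t 36 74 1 = true :=
  ⟨(a (b (l 3) (a (l 3) (b (l 3) (a (l 3) (c (b (a (l 3) (a (l 538649295847) (a (l 404968439415) (l 296520512407)))) (a (a (l 537575554039) (l 336248960311)) (l 75329697703))) (l 341617671735)))))) (b (a (b (l 3) (a (l 3) (c (a (a (l 545091745911) (b (l 3) (b (l 537038683495) (a (l 311016028247) (l 16776960))))) (a (b (l 541870521271) (a (b (l 312089770071) (l 16776688)) (l 16776688))) (b (b (l 537575554391) (a (l 312626640983) (l 16776968))) (l 16776272)))) (l 344838886663)))) (c (b (a (b (a (l 3) (c (b (l 546702360151) (a (l 542407392615) (a (b (l 474224787207) (l 152102239399)) (b (l 152102239399) (l 16776848))))) (l 405505310071))) (b (a (l 542944263751) (c (a (a (b (l 473151045383) (l 16776784)) (l 86067117191)) (l 16776568)) (l 16776816))) (c (a (a (l 541333650791) (a (a (l 328195897623) (l 263771388503)) (l 16776808))) (l 16776296)) (l 175187684839)))) (b (a (c (a (c (b (a (b (l 476372270855) (l 152102239399))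 (a (b (l 249275874519) (l 16776920)) (l 16776920))) (l 16776576)) (l 121500596103)) (b (l 16776568) (l 16776024))) (l 16776536)) (l 16778064)) (l 16775544))) (a (b (a (a (b (a (l 312089770055) (l 16776808)) (l 16776552)) (l 16776280)) (l 16775440)) (l 16777504)) (l 16773208))) (b (a (l 345912628487) (l 16775328)) (l 16774136)))) (a (c (b (a (b (a (l 3) (a (l 540259908551) (b (l 535428070759) (l 196125653127)))) (a (a (l 539186166743) (a (l 408189663559) (l 299204866983))) (a (b (l 194515040391) (l 16776536)) (l 16776264)))) (b (a (c (b (a (l 196662524055) (l 16776560)) (l 16776280)) (l 16776520)) (l 16775432)) (l 16777496))) (a (a (a (b (l 116668757959) (l 16775688)) (l 16775696)) (l 16777480)) (l 16773192))) (b (a (l 343765144871) (l 16775312)) (l 16774120))) (a (l 16777168) (l 16769624))))), by decide +kernel⟩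

def k4_pm_101_s : ∃ t, chk3 f_pm_101_s t 36 75 1 = true :=
  ⟨(a (b (a (b (l 3) (a (l 3) (c (a (b (l 3) (l 381882987495)) (b (l 385641083847) (l 16776464))) (l 311552890087)))) (a (a (c (b (b (l 3) (l 388862309303)) (l 16775920)) (l 276119409271)) (b (b (b (l 530596232167) (l 311016026007)) (l 75866568567)) (l 16776048))) (c (b (b (a (l 16776176) (l 16775400)) (l 16774832)) (l 16773152)) (l 16774080)))) (b (a (c (a (b (l 441475657895) (a (l 373293055575) (l 16776432))) (l 16775336)) (a (l 311016019239) (l 16775216))) (l 16777088)) (a (a (l 16776544) (l 16772960)) (l 16769528)))) (a (a (b (l 16777136) (l 16767264)) (l 16777776)) (l 16774344))), by decide +kernel⟩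

def k5_pm_101_s : ∃ t, chk3 f_pm_101_s t 37 37 1 = true :=
  ⟨(a (b (a (b (a (l 16777176) (l 16769640)) (l 16766184)) (l 16774400)) (l 16777952)) (l 98817799063)), by decide +kernel⟩

def k6_pm_101_s : ∃ t, chk3 f_pm_101_s t 19 18 1 = true :=
  ⟨(b (l 1) (a (l 121366371943) (l 1))), by decide +kernel⟩

def k7_pm_101_s : ∃ t, chk3 f_pm_101_s t 9 19 1 = true :=
  ⟨(a (b (a (b (a (a (b (c (l 16776056) (l 16770408)) (l 16765944)) (l 16774200)) (l 16756880)) (l 16773040)) (l 16769992)) (a (l 16758808) (l 16719864))) (b (a (l 16720512) (l 16703440)) (l 16713752))), by decide +kernel⟩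

def k8_pm_101_s : ∃ t, chk3 f_pm_101_s t 5 4 1 = true :=
  ⟨(b (l 1) (a (a (b (l 1) (l 115460779239)) (l 1)) (l 1))), by decide +kernel⟩

def k9_pm_101_s : ∃ t, chk3 f_pm_101_s t 2 5 1 = true :=
  ⟨(a (b (a (b (a (b (a (b (l 3) (a (l 3) (b (l 3) (a (l 536501805911) (b (l 395841632375) (l 203641834951)))))) (b (a (b (l 3) (a (l 3) (b (l 447918109815) (l 245517764919)))) (b (a (b (l 468856074951) (l 306184176887)) (l 16773576)) (l 16773536))) (a (b (a (b (l 424832661095) (l 222969187655)) (l 16772920)) (l 16775400)) (b (l 16776344) (l 16760736))))) (a (b (a (b (l 538649286135) (a (l 537038677607) (c (l 293836140311) (l 293836140679)))) (b (a (c (l 308868524567) (l 308331654311)) (l 16772064)) (l 16779528))) (a (b (a (c (l 235317211655) (l 16767976)) (l 16770856)) (l 16767560)) (l 16763120))) (b (a (l 16764816) (l 16752808)) (l 16767232)))) (b (a (b (a (b (l 16771856) (l 16761616)) (l 16754920)) (l 16770368)) (b (l 16741288) (l 16731288))) (a (l 16775408) (l 16715504)))) (a (b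 (a (b (a (l 16779368) (l 16748488)) (l 16777296)) (b (l 16734392) (l 16721864))) (a (a (l 16746320) (l 16715800)) (l 16702224))) (b (a (l 16710056) (l 16692480)) (l 16738872)))) (b (a (b (a (l 16718448) (l 16700680)) (l 16709920)) (b (l 16673720) (l 16653872))) (a (b (l 16666480) (l 16642472)) (l 16662720)))) (a (b (a (a (b (l 16692536) (l 16662752)) (b (l 16674920) (l 16645896))) (b (l 16649632) (l 16621776))) (a (a (l 16634448) (l 16597856)) (b (l 16591976) (l 16559776)))) (b (a (b (l 16617376) (l 16590984)) (l 16572896)) (a (l 16547528) (l 16519592))))) (b (a (b (a (l 16712528) (l 16593776)) (a (l 16586240) (l 16548368))) (b (l 1) (a (l 16512952) (l 1)))) (a (a (b (l 16540904) (l 16490176)) (b (l 16502984) (l 16456768))) (a (l 16527216) (l 16406856))))), by decide +kernel⟩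

def k10_pm_101_s : ∃ t, chk3 f_pm_101_s t 3 2 1 = true :=
  ⟨(a (b (l 1) (a (b (l 1) (a (l 16378424) (l 1))) (l 1))) (l 1)), by decide +kernel⟩

def k11_pm_101_s : ∃ t, chk3 f_pm_101_s t 1 3 1 = true :=
  ⟨(a (b (a (b (a (b (a (l 16583520) (l 16506016)) (a (l 16485024) (l 16423624))) (b (a (l 16482464) (l 16458296)) (a (l 16405320) (l 16387008)))) (b (a (a (l 16370992) (l 16323224)) (l 16358728)) (a (a (l 16313952) (l 16251432)) (l 16221848)))) (a (b (a (b (l 16433592) (l 16367144)) (l 16372016)) (a (l 16244064) (l 16227304))) (b (a (l 16339536) (l 16304856)) (a (l 16205464) (l 6))))) (a (b (a (a (b (l 16267040) (l 16224336)) (l 16331664)) (a (l 16128736) (l 16068424))) (a (a (l 16289520) (l 16151232)) (a (l 16056256) (l 6)))) (a (b (a (l 16021952) (l 6)) (l 6)) (l 6)))) (a (a (b (l 6) (l 6)) (l 6)) (l 6))), by decide +kernel⟩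

theorem s12_pm_101_s : ∃ t, chk3 f_pm_101_s t 36 37 1 = true := ex3_b k3_pm_101_s k4_pm_101_s

theorem s13_pm_101_s : ∃ t, chk3 f_pm_101_s t 18 37 1 = true := ex3_a s12_pm_101_s k5_pm_101_s

theorem s14_pm_101_s : ∃ t, chk3 f_pm_101_s t 18 18 1 = true := ex3_b k2_pm_101_s s13_pm_101_s

theorem s15_pm_101_s : ∃ t, chk3 f_pm_101_s t 9 18 1 = true := ex3_a s14_pm_101_s k6_pm_101_s

theorem s16_pm_101_s : ∃ t, chk3 f_pm_101_s t 9 9 1 = true := ex3_b s15_pm_101_s k7_pm_101_s

theorem s17_pm_101_s : ∃ t, chk3 f_pm_101_s t 4 9 1 = true := ex3_a k1_pm_101_s s16_pm_101_s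

theorem s18_pm_101_s : ∃ t, chk3 f_pm_101_s t 4 4 1 = true := ex3_b k0_pm_101_s s17_pm_101_s

theorem s19_pm_101_s : ∃ t, chk3 f_pm_101_s t 2 4 1 = true := ex3_a s18_pm_101_s k8_pm_101_s

theorem s20_pm_101_s : ∃ t, chk3 f_pm_101_s t 2 2 1 = true := ex3_b s19_pm_101_s k9_pm_101_s

theorem s21_pm_101_s : ∃ t, chk3 f_pm_101_s t 1 2 1 = true := ex3_a s20_pm_101_s k10_pm_101_s

theorem s22_pm_101_s : ∃ t, chk3 f_pm_101_s t 1 1 1 = true := ex3_b s21_pm_101_s k11_pm_101_s

theorem c_pm_101_s : CertNE 536870912 536870912 0 536870912 740881858 40050571 3 eng mog cd0q1 cd5q0 pd1 true true false .npn 1 0 1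
    ndB0q1 ndB5q0 pcB1 cut_pm_101_s Ext.none :=
  certNE1 (fam := true) (s1 := true) (s2 := false) (a := 1) (b := 0) (c := 1) (cn := .npn) (n1 := ndB0q1) (n2 := ndB5q0) (pc := pcB1) (cut := cut_pm_101_s) (xt := Ext.none) (P1 := 536870912) (W1 := 536870912) (P2 := 0) (W2 := 536870912) (P3 := 740881858) (W3 := 40050571) (N0 := 3) (En := eng) (mo := mog) (C1 := cd0q1) (C2 := cd5q0) (C3 := pd1)
    rfl (fun _ => rfl) s22_pm_101_s

noncomputable def cut_pm_102_s : Cut := Cut.of [[⟨4, 0, 0, 1449551462⟩]]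

noncomputable def f_pm_102_s : ℕ → ℕ → ℕ → ℕ → Bool := onCell 536870912 536870912 1073741824 536870912 740881858 40050571
    (rowNE 3 eng mog cd0q1 cd5q0 pd2 1 true true false .npp 1 0 2 (qsf 536870912 536870912 0 536870912 2) ndB0q1 ndB5q0 pcB2 cut_pm_102_s Ext.none)

def k0_pm_102_s : ∃ t, chk3 f_pm_102_s t 1 1 1 = true :=
  ⟨(a (b (a (b (b (a (a (b (l 6) (l 6)) (l 6)) (l 6)) (l 6)) (l 6)) (l 6)) (l 6)) (l 6)), by decide +kernel⟩

theorem c_pm_102_s : CertNE 536870912 536870912 0 536870912 740881858 40050571 3 eng mog cd0q1 cd5q0 pd2 true true false .npp 1 0 2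
    ndB0q1 ndB5q0 pcB2 cut_pm_102_s Ext.none :=
  certNE1 (fam := true) (s1 := true) (s2 := false) (a := 1) (b := 0) (c := 2) (cn := .npp) (n1 := ndB0q1) (n2 := ndB5q0) (pc := pcB2) (cut := cut_pm_102_s) (xt := Ext.none) (P1 := 536870912) (W1 := 536870912) (P2 := 0) (W2 := 536870912) (P3 := 740881858) (W3 := 40050571) (N0 := 3) (En := eng) (mo := mog) (C1 := cd0q1) (C2 := cd5q0) (C3 := pd2)
    rfl (fun _ => rfl) k0_pm_102_s

noncomputable def cut_pm_112_s : Cut := Cut.of [[⟨4, 0, 0, 1449551462⟩]]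

noncomputable def f_pm_112_s : ℕ → ℕ → ℕ → ℕ → Bool := onCell 536870912 536870912 536870912 536870912 740881858 40050571
    (rowNE 3 eng mog cd0q1 cd5q1 pd2 0 true true false .dn 1 1 2 (qsf 536870912 536870912 536870912 536870912 2) ndB0q1 ndB5q1 pcB2 cut_pm_112_s Ext.none)

def k0_pm_112_s : ∃ t, chk3 f_pm_112_s t 1 1 1 = true :=
  ⟨(a (b (b (a (a (b (a (l 16123856) (l 6)) (l 6)) (l 6)) (l 6)) (l 6)) (l 6)) (l 6)), by decide +kernel⟩

theorem c_pm_112_s : CertNE 536870912 536870912 536870912 536870912 740881858 40050571 3 eng mog cd0q1 cd5q1 pd2 true true false .dn 1 1 2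
    ndB0q1 ndB5q1 pcB2 cut_pm_112_s Ext.none :=
  certNE0 (fam := true) (s1 := true) (s2 := false) (a := 1) (b := 1) (c := 2) (cn := .dn) (n1 := ndB0q1) (n2 := ndB5q1) (pc := pcB2) (cut := cut_pm_112_s) (xt := Ext.none) (P1 := 536870912) (W1 := 536870912) (P2 := 536870912) (W2 := 536870912) (P3 := 740881858) (W3 := 40050571) (N0 := 3) (En := eng) (mo := mog) (C1 := cd0q1) (C2 := cd5q1) (C3 := pd2)
    rfl k0_pm_112_s

noncomputable def cut_pm_113_s : Cut := Cut.of [[⟨4, 0, 0, 1449551462⟩]]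

noncomputable def f_pm_113_s : ℕ → ℕ → ℕ → ℕ → Bool := onCell 536870912 536870912 1610612736 536870912 740881858 40050571
    (rowNE 3 eng mog cd0q1 cd5q1 pd3 1 true true false .nn 1 1 3 (qsf 536870912 536870912 536870912 536870912 3) ndB0q1 ndB5q1 pcB3 cut_pm_113_s Ext.none)

def k0_pm_113_s : ∃ t, chk3 f_pm_113_s t 1 1 1 = true :=
  ⟨(l 6), by decide +kernel⟩

theorem c_pm_113_s : CertNE 536870912 536870912 536870912 536870912 740881858 40050571 3 eng mog cd0q1 cd5q1 pd3 true true false .nn 1 1 3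
    ndB0q1 ndB5q1 pcB3 cut_pm_113_s Ext.none :=
  certNE1 (fam := true) (s1 := true) (s2 := false) (a := 1) (b := 1) (c := 3) (cn := .nn) (n1 := ndB0q1) (n2 := ndB5q1) (pc := pcB3) (cut := cut_pm_113_s) (xt := Ext.none) (P1 := 536870912) (W1 := 536870912) (P2 := 536870912) (W2 := 536870912) (P3 := 740881858) (W3 := 40050571) (N0 := 3) (En := eng) (mo := mog) (C1 := cd0q1) (C2 := cd5q1) (C3 := pd3)
    rfl (fun _ => rfl) k0_pm_113_s

noncomputable def cut_pm_123_s : Cut := Cut.of [[⟨4, 0, 0, 1449551462⟩]]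

noncomputable def f_pm_123_s : ℕ → ℕ → ℕ → ℕ → Bool := onCell 536870912 536870912 1073741824 536870912 740881858 40050571
    (rowNE 3 eng mog cd0q1 cd5q2 pd3 0 true true false .npn 1 2 3 (qsf 536870912 536870912 1073741824 536870912 3) ndB0q1 ndB5q2 pcB3 cut_pm_123_s Ext.none)

def k0_pm_123_s : ∃ t, chk3 f_pm_123_s t 1 1 1 = true :=
  ⟨(l 6), by decide +kernel⟩

theorem c_pm_123_s : CertNE 536870912 536870912 1073741824 536870912 740881858 40050571 3 eng mog cd0q1 cd5q2 pd3 true true false .npn 1 2 3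
    ndB0q1 ndB5q2 pcB3 cut_pm_123_s Ext.none :=
  certNE0 (fam := true) (s1 := true) (s2 := false) (a := 1) (b := 2) (c := 3) (cn := .npn) (n1 := ndB0q1) (n2 := ndB5q2) (pc := pcB3) (cut := cut_pm_123_s) (xt := Ext.none) (P1 := 536870912) (W1 := 536870912) (P2 := 1073741824) (W2 := 536870912) (P3 := 740881858) (W3 := 40050571) (N0 := 3) (En := eng) (mo := mog) (C1 := cd0q1) (C2 := cd5q2) (C3 := pd3)
    rfl k0_pm_123_s

noncomputable def cut_pm_133_s : Cut := Cut.of [[⟨4, 0, 0, 1449551462⟩]]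

noncomputable def f_pm_133_s : ℕ → ℕ → ℕ → ℕ → Bool := onCell 536870912 536870912 0 1230186008 740881858 40050571
    (rowNE 3 eng mog cd0q1 cd5q3 pd3 0 true true false .dn 1 3 3 (qsf 536870912 536870912 0 1230186008 3) ndB0q1 ndB5q3 pcB3 cut_pm_133_s Ext.none)

def k0_pm_133_s : ∃ t, chk3 f_pm_133_s t 1 1 1 = true :=
  ⟨(l 6), by decide +kernel⟩

theorem c_pm_133_s : CertNE 536870912 536870912 0 1230186008 740881858 40050571 3 eng mog cd0q1 cd5q3 pd3 true true false .dn 1 3 3
    ndB0q1 ndB5q3 pcB3 cut_pm_133_s Ext.none :=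
  certNE0 (fam := true) (s1 := true) (s2 := false) (a := 1) (b := 3) (c := 3) (cn := .dn) (n1 := ndB0q1) (n2 := ndB5q3) (pc := pcB3) (cut := cut_pm_133_s) (xt := Ext.none) (P1 := 536870912) (W1 := 536870912) (P2 := 0) (W2 := 1230186008) (P3 := 740881858) (W3 := 40050571) (N0 := 3) (En := eng) (mo := mog) (C1 := cd0q1) (C2 := cd5q3) (C3 := pd3)
    rfl k0_pm_133_s

noncomputable def cut_pm_202_s : Cut := Cut.of [[⟨4, 0, 0, 1449551462⟩]]

noncomputable def f_pm_202_s : ℕ → ℕ → ℕ → ℕ → Bool := onCell 0 536870912 0 536870912 740881858 40050571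
    (rowNE 3 eng mog cd0q2 cd5q0 pd2 0 true true false .pp 2 0 2 (qsf 0 536870912 0 536870912 2) ndB0q2 ndB5q0 pcB2 cut_pm_202_s Ext.none)

def k0_pm_202_s : ∃ t, chk3 f_pm_202_s t 1 1 1 = true :=
  ⟨(l 6), by decide +kernel⟩

theorem c_pm_202_s : CertNE 0 536870912 0 536870912 740881858 40050571 3 eng mog cd0q2 cd5q0 pd2 true true false .pp 2 0 2
    ndB0q2 ndB5q0 pcB2 cut_pm_202_s Ext.none :=
  certNE0 (fam := true) (s1 := true) (s2 := false) (a := 2) (b := 0) (c := 2) (cn := .pp) (n1 := ndB0q2) (n2 := ndB5q0) (pc := pcB2) (cut := cut_pm_202_s) (xt := Ext.none) (P1 := 0) (W1 := 536870912) (P2 := 0) (W2 := 536870912) (P3 := 740881858) (W3 := 40050571) (N0 := 3) (En := eng) (mo := mog) (C1 := cd0q2) (C2 := cd5q0) (C3 := pd2)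
    rfl k0_pm_202_s

noncomputable def cut_pm_203_s : Cut := Cut.of [[⟨4, 0, 0, 1449551462⟩]]

noncomputable def f_pm_203_s : ℕ → ℕ → ℕ → ℕ → Bool := onCell 0 536870912 0 536870912 740881858 40050571
    (rowNE 3 eng mog cd0q2 cd5q0 pd3 0 true true false .up 2 0 3 (qsf 0 536870912 0 536870912 3) ndB0q2 ndB5q0 pcB3 cut_pm_203_s Ext.none)

def k0_pm_203_s : ∃ t, chk3 f_pm_203_s t 1 1 1 = true :=
  ⟨(l 6), by decide +kernel⟩

theorem c_pm_203_s : CertNE 0 536870912 0 536870912 740881858 40050571 3 eng mog cd0q2 cd5q0 pd3 true true false .up 2 0 3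
    ndB0q2 ndB5q0 pcB3 cut_pm_203_s Ext.none :=
  certNE0 (fam := true) (s1 := true) (s2 := false) (a := 2) (b := 0) (c := 3) (cn := .up) (n1 := ndB0q2) (n2 := ndB5q0) (pc := pcB3) (cut := cut_pm_203_s) (xt := Ext.none) (P1 := 0) (W1 := 536870912) (P2 := 0) (W2 := 536870912) (P3 := 740881858) (W3 := 40050571) (N0 := 3) (En := eng) (mo := mog) (C1 := cd0q2) (C2 := cd5q0) (C3 := pd3)
    rfl k0_pm_203_s

noncomputable def cut_pm_213_s : Cut := Cut.of [[⟨4, 0, 0, 1449551462⟩]]

noncomputable def f_pm_213_s : ℕ → ℕ → ℕ → ℕ → Bool := onCell 0 536870912 536870912 536870912 740881858 40050571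
    (rowNE 3 eng mog cd0q2 cd5q1 pd3 0 true true false .pnn 2 1 3 (qsf 0 536870912 536870912 536870912 3) ndB0q2 ndB5q1 pcB3 cut_pm_213_s Ext.none)

def k0_pm_213_s : ∃ t, chk3 f_pm_213_s t 1 1 1 = true :=
  ⟨(l 6), by decide +kernel⟩

theorem c_pm_213_s : CertNE 0 536870912 536870912 536870912 740881858 40050571 3 eng mog cd0q2 cd5q1 pd3 true true false .pnn 2 1 3
    ndB0q2 ndB5q1 pcB3 cut_pm_213_s Ext.none :=
  certNE0 (fam := true) (s1 := true) (s2 := false) (a := 2) (b := 1) (c := 3) (cn := .pnn) (n1 := ndB0q2) (n2 := ndB5q1) (pc := pcB3) (cut := cut_pm_213_s) (xt := Ext.none) (P1 := 0) (W1 := 536870912) (P2 := 536870912) (W2 := 536870912) (P3 := 740881858) (W3 := 40050571) (N0 := 3) (En := eng) (mo := mog) (C1 := cd0q2) (C2 := cd5q1) (C3 := pd3)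
    rfl k0_pm_213_s

noncomputable def cut_mm_001_s : Cut := Cut.of [[⟨4, 0, 0, 1449551462⟩]]

noncomputable def f_mm_001_s : ℕ → ℕ → ℕ → ℕ → Bool := onCell 0 536870912 0 536870912 740881858 40050571
    (rowNE 3 eng mog cd0q0 cd5q0 pd1 0 true false false .up 0 0 1 (qsf 0 536870912 0 536870912 1) ndB0q0 ndB5q0 pcB1 cut_mm_001_s Ext.none)

def k0_mm_001_s : ∃ t, chk3 f_mm_001_s t 1 1 1 = true :=
  ⟨(l 4), by decide +kernel⟩

theorem c_mm_001_s : CertNE 0 536870912 0 536870912 740881858 40050571 3 eng mog cd0q0 cd5q0 pd1 true false false .up 0 0 1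
    ndB0q0 ndB5q0 pcB1 cut_mm_001_s Ext.none :=
  certNE0 (fam := true) (s1 := false) (s2 := false) (a := 0) (b := 0) (c := 1) (cn := .up) (n1 := ndB0q0) (n2 := ndB5q0) (pc := pcB1) (cut := cut_mm_001_s) (xt := Ext.none) (P1 := 0) (W1 := 536870912) (P2 := 0) (W2 := 536870912) (P3 := 740881858) (W3 := 40050571) (N0 := 3) (En := eng) (mo := mog) (C1 := cd0q0) (C2 := cd5q0) (C3 := pd1)
    rfl k0_mm_001_s

noncomputable def cut_mm_011_s : Cut := Cut.of [[⟨4, 0, 0, 1449551462⟩]]

noncomputable def f_mm_011_s : ℕ → ℕ → ℕ → ℕ → Bool := onCell 0 536870912 536870912 536870912 740881858 40050571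
    (rowNE 3 eng mog cd0q0 cd5q1 pd1 0 true false false .pnn 0 1 1 (qsf 0 536870912 536870912 536870912 1) ndB0q0 ndB5q1 pcB1 cut_mm_011_s Ext.none)

def k0_mm_011_s : ∃ t, chk3 f_mm_011_s t 1 1 1 = true :=
  ⟨(l 4), by decide +kernel⟩

theorem c_mm_011_s : CertNE 0 536870912 536870912 536870912 740881858 40050571 3 eng mog cd0q0 cd5q1 pd1 true false false .pnn 0 1 1
    ndB0q0 ndB5q1 pcB1 cut_mm_011_s Ext.none :=
  certNE0 (fam := true) (s1 := false) (s2 := false) (a := 0) (b := 1) (c := 1) (cn := .pnn) (n1 := ndB0q0) (n2 := ndB5q1) (pc := pcB1) (cut := cut_mm_011_s) (xt := Ext.none) (P1 := 0) (W1 := 536870912) (P2 := 536870912) (W2 := 536870912) (P3 := 740881858) (W3 := 40050571) (N0 := 3) (En := eng) (mo := mog) (C1 := cd0q0) (C2 := cd5q1) (C3 := pd1)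
    rfl k0_mm_011_s

noncomputable def cut_mm_012_s : Cut := Cut.of [[⟨4, 0, 0, 1449551462⟩]]

noncomputable def f_mm_012_s : ℕ → ℕ → ℕ → ℕ → Bool := onCell 0 536870912 536870912 536870912 740881858 40050571
    (rowNE 3 eng mog cd0q0 cd5q1 pd2 0 true false false .pnp 0 1 2 (qsf 0 536870912 536870912 536870912 2) ndB0q0 ndB5q1 pcB2 cut_mm_012_s Ext.none)

def k0_mm_012_s : ∃ t, chk3 f_mm_012_s t 1 1 1 = true :=
  ⟨(l 4), by decide +kernel⟩

theorem c_mm_012_s : CertNE 0 536870912 536870912 536870912 740881858 40050571 3 eng mog cd0q0 cd5q1 pd2 true false false .pnp 0 1 2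
    ndB0q0 ndB5q1 pcB2 cut_mm_012_s Ext.none :=
  certNE0 (fam := true) (s1 := false) (s2 := false) (a := 0) (b := 1) (c := 2) (cn := .pnp) (n1 := ndB0q0) (n2 := ndB5q1) (pc := pcB2) (cut := cut_mm_012_s) (xt := Ext.none) (P1 := 0) (W1 := 536870912) (P2 := 536870912) (W2 := 536870912) (P3 := 740881858) (W3 := 40050571) (N0 := 3) (En := eng) (mo := mog) (C1 := cd0q0) (C2 := cd5q1) (C3 := pd2)
    rfl k0_mm_012_s

noncomputable def cut_mm_022_s : Cut := Cut.of [[⟨4, 0, 0, 1449551462⟩]]

noncomputable def f_mm_022_s : ℕ → ℕ → ℕ → ℕ → Bool := onCell 0 536870912 1073741824 536870912 740881858 40050571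
    (rowNE 3 eng mog cd0q0 cd5q2 pd2 0 true false false .pp 0 2 2 (qsf 0 536870912 1073741824 536870912 2) ndB0q0 ndB5q2 pcB2 cut_mm_022_s Ext.none)

def k0_mm_022_s : ∃ t, chk3 f_mm_022_s t 1 1 1 = true :=
  ⟨(l 4), by decide +kernel⟩

theorem c_mm_022_s : CertNE 0 536870912 1073741824 536870912 740881858 40050571 3 eng mog cd0q0 cd5q2 pd2 true false false .pp 0 2 2
    ndB0q0 ndB5q2 pcB2 cut_mm_022_s Ext.none :=
  certNE0 (fam := true) (s1 := false) (s2 := false) (a := 0) (b := 2) (c := 2) (cn := .pp) (n1 := ndB0q0) (n2 := ndB5q2) (pc := pcB2) (cut := cut_mm_022_s) (xt := Ext.none) (P1 := 0) (W1 := 536870912) (P2 := 1073741824) (W2 := 536870912) (P3 := 740881858) (W3 := 40050571) (N0 := 3) (En := eng) (mo := mog) (C1 := cd0q0) (C2 := cd5q2) (C3 := pd2)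
    rfl k0_mm_022_s

noncomputable def cut_mm_023_s : Cut := Cut.of [[⟨4, 0, 0, 1449551462⟩]]

noncomputable def f_mm_023_s : ℕ → ℕ → ℕ → ℕ → Bool := onCell 0 536870912 1073741824 536870912 740881858 40050571
    (rowNE 3 eng mog cd0q0 cd5q2 pd3 0 true false false .up 0 2 3 (qsf 0 536870912 1073741824 536870912 3) ndB0q0 ndB5q2 pcB3 cut_mm_023_s Ext.none)

def k0_mm_023_s : ∃ t, chk3 f_mm_023_s t 1 1 1 = true :=
  ⟨(l 4), by decide +kernel⟩

theorem c_mm_023_s : CertNE 0 536870912 1073741824 536870912 740881858 40050571 3 eng mog cd0q0 cd5q2 pd3 true false false .up 0 2 3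
    ndB0q0 ndB5q2 pcB3 cut_mm_023_s Ext.none :=
  certNE0 (fam := true) (s1 := false) (s2 := false) (a := 0) (b := 2) (c := 3) (cn := .up) (n1 := ndB0q0) (n2 := ndB5q2) (pc := pcB3) (cut := cut_mm_023_s) (xt := Ext.none) (P1 := 0) (W1 := 536870912) (P2 := 1073741824) (W2 := 536870912) (P3 := 740881858) (W3 := 40050571) (N0 := 3) (En := eng) (mo := mog) (C1 := cd0q0) (C2 := cd5q2) (C3 := pd3)
    rfl k0_mm_023_s

noncomputable def cut_mm_033_s : Cut := Cut.of [[⟨4, 0, 0, 1449551462⟩]]

noncomputable def f_mm_033_s : ℕ → ℕ → ℕ → ℕ → Bool := onCell 0 536870912 0 1230186008 740881858 40050571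
    (rowNE 3 eng mog cd0q0 cd5q3 pd3 0 true false false .pnn 0 3 3 (qsf 0 536870912 0 1230186008 3) ndB0q0 ndB5q3 pcB3 cut_mm_033_s Ext.none)

def k0_mm_033_s : ∃ t, chk3 f_mm_033_s t 1 1 1 = true :=
  ⟨(l 4), by decide +kernel⟩

theorem c_mm_033_s : CertNE 0 536870912 0 1230186008 740881858 40050571 3 eng mog cd0q0 cd5q3 pd3 true false false .pnn 0 3 3
    ndB0q0 ndB5q3 pcB3 cut_mm_033_s Ext.none :=
  certNE0 (fam := true) (s1 := false) (s2 := false) (a := 0) (b := 3) (c := 3) (cn := .pnn) (n1 := ndB0q0) (n2 := ndB5q3) (pc := pcB3) (cut := cut_mm_033_s) (xt := Ext.none) (P1 := 0) (W1 := 536870912) (P2 := 0) (W2 := 1230186008) (P3 := 740881858) (W3 := 40050571) (N0 := 3) (En := eng) (mo := mog) (C1 := cd0q0) (C2 := cd5q3) (C3 := pd3)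
    rfl k0_mm_033_s

noncomputable def cut_mm_101_s : Cut := Cut.of [[⟨4, 0, 0, 1449551462⟩]]

noncomputable def f_mm_101_s : ℕ → ℕ → ℕ → ℕ → Bool := onCell 536870912 536870912 0 536870912 740881858 40050571
    (rowNE 3 eng mog cd0q1 cd5q0 pd1 0 true false false .npn 1 0 1 (qsf 536870912 536870912 0 536870912 1) ndB0q1 ndB5q0 pcB1 cut_mm_101_s Ext.none)

def k0_mm_101_s : ∃ t, chk3 f_mm_101_s t 1 1 1 = true :=
  ⟨(l 4), by decide +kernel⟩

theorem c_mm_101_s : CertNE 536870912 536870912 0 536870912 740881858 40050571 3 eng mog cd0q1 cd5q0 pd1 true false false .npn 1 0 1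
    ndB0q1 ndB5q0 pcB1 cut_mm_101_s Ext.none :=
  certNE0 (fam := true) (s1 := false) (s2 := false) (a := 1) (b := 0) (c := 1) (cn := .npn) (n1 := ndB0q1) (n2 := ndB5q0) (pc := pcB1) (cut := cut_mm_101_s) (xt := Ext.none) (P1 := 536870912) (W1 := 536870912) (P2 := 0) (W2 := 536870912) (P3 := 740881858) (W3 := 40050571) (N0 := 3) (En := eng) (mo := mog) (C1 := cd0q1) (C2 := cd5q0) (C3 := pd1)
    rfl k0_mm_101_s

noncomputable def cut_mm_102_s : Cut := Cut.of [[⟨4, 0, 0, 1449551462⟩]]

noncomputable def f_mm_102_s : ℕ → ℕ → ℕ → ℕ → Bool := onCell 536870912 536870912 0 536870912 740881858 40050571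
    (rowNE 3 eng mog cd0q1 cd5q0 pd2 0 true false false .npp 1 0 2 (qsf 536870912 536870912 0 536870912 2) ndB0q1 ndB5q0 pcB2 cut_mm_102_s Ext.none)

def k0_mm_102_s : ∃ t, chk3 f_mm_102_s t 1 1 1 = true :=
  ⟨(l 4), by decide +kernel⟩

theorem c_mm_102_s : CertNE 536870912 536870912 0 536870912 740881858 40050571 3 eng mog cd0q1 cd5q0 pd2 true false false .npp 1 0 2
    ndB0q1 ndB5q0 pcB2 cut_mm_102_s Ext.none :=
  certNE0 (fam := true) (s1 := false) (s2 := false) (a := 1) (b := 0) (c := 2) (cn := .npp) (n1 := ndB0q1) (n2 := ndB5q0) (pc := pcB2) (cut := cut_mm_102_s) (xt := Ext.none) (P1 := 536870912) (W1 := 536870912) (P2 := 0) (W2 := 536870912) (P3 := 740881858) (W3 := 40050571) (N0 := 3) (En := eng) (mo := mog) (C1 := cd0q1) (C2 := cd5q0) (C3 := pd2)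
    rfl k0_mm_102_s

noncomputable def cut_mm_112_s : Cut := Cut.of [[⟨4, 0, 0, 1449551462⟩]]

noncomputable def f_mm_112_s : ℕ → ℕ → ℕ → ℕ → Bool := onCell 536870912 536870912 536870912 536870912 740881858 40050571
    (rowNE 3 eng mog cd0q1 cd5q1 pd2 0 true false false .dn 1 1 2 (qsf 536870912 536870912 536870912 536870912 2) ndB0q1 ndB5q1 pcB2 cut_mm_112_s Ext.none)

def k0_mm_112_s : ∃ t, chk3 f_mm_112_s t 1 1 1 = true :=
  ⟨(l 4), by decide +kernel⟩

theorem c_mm_112_s : CertNE 536870912 536870912 536870912 536870912 740881858 40050571 3 eng mog cd0q1 cd5q1 pd2 true false false .dn 1 1 2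
    ndB0q1 ndB5q1 pcB2 cut_mm_112_s Ext.none :=
  certNE0 (fam := true) (s1 := false) (s2 := false) (a := 1) (b := 1) (c := 2) (cn := .dn) (n1 := ndB0q1) (n2 := ndB5q1) (pc := pcB2) (cut := cut_mm_112_s) (xt := Ext.none) (P1 := 536870912) (W1 := 536870912) (P2 := 536870912) (W2 := 536870912) (P3 := 740881858) (W3 := 40050571) (N0 := 3) (En := eng) (mo := mog) (C1 := cd0q1) (C2 := cd5q1) (C3 := pd2)
    rfl k0_mm_112_s

noncomputable def cut_mm_113_s : Cut := Cut.of [[⟨4, 0, 0, 1449551462⟩]]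

noncomputable def f_mm_113_s : ℕ → ℕ → ℕ → ℕ → Bool := onCell 536870912 536870912 536870912 536870912 740881858 40050571
    (rowNE 3 eng mog cd0q1 cd5q1 pd3 0 true false false .nn 1 1 3 (qsf 536870912 536870912 536870912 536870912 3) ndB0q1 ndB5q1 pcB3 cut_mm_113_s Ext.none)

def k0_mm_113_s : ∃ t, chk3 f_mm_113_s t 1 1 1 = true :=
  ⟨(l 4), by decide +kernel⟩

theorem c_mm_113_s : CertNE 536870912 536870912 536870912 536870912 740881858 40050571 3 eng mog cd0q1 cd5q1 pd3 true false false .nn 1 1 3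
    ndB0q1 ndB5q1 pcB3 cut_mm_113_s Ext.none :=
  certNE0 (fam := true) (s1 := false) (s2 := false) (a := 1) (b := 1) (c := 3) (cn := .nn) (n1 := ndB0q1) (n2 := ndB5q1) (pc := pcB3) (cut := cut_mm_113_s) (xt := Ext.none) (P1 := 536870912) (W1 := 536870912) (P2 := 536870912) (W2 := 536870912) (P3 := 740881858) (W3 := 40050571) (N0 := 3) (En := eng) (mo := mog) (C1 := cd0q1) (C2 := cd5q1) (C3 := pd3)
    rfl k0_mm_113_s

noncomputable def cut_mm_123_s : Cut := Cut.of [[⟨4, 0, 0, 1449551462⟩]]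

noncomputable def f_mm_123_s : ℕ → ℕ → ℕ → ℕ → Bool := onCell 536870912 536870912 1073741824 536870912 740881858 40050571
    (rowNE 3 eng mog cd0q1 cd5q2 pd3 0 true false false .npn 1 2 3 (qsf 536870912 536870912 1073741824 536870912 3) ndB0q1 ndB5q2 pcB3 cut_mm_123_s Ext.none)

def k0_mm_123_s : ∃ t, chk3 f_mm_123_s t 1 1 1 = true :=
  ⟨(l 4), by decide +kernel⟩

theorem c_mm_123_s : CertNE 536870912 536870912 1073741824 536870912 740881858 40050571 3 eng mog cd0q1 cd5q2 pd3 true false false .npn 1 2 3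
    ndB0q1 ndB5q2 pcB3 cut_mm_123_s Ext.none :=
  certNE0 (fam := true) (s1 := false) (s2 := false) (a := 1) (b := 2) (c := 3) (cn := .npn) (n1 := ndB0q1) (n2 := ndB5q2) (pc := pcB3) (cut := cut_mm_123_s) (xt := Ext.none) (P1 := 536870912) (W1 := 536870912) (P2 := 1073741824) (W2 := 536870912) (P3 := 740881858) (W3 := 40050571) (N0 := 3) (En := eng) (mo := mog) (C1 := cd0q1) (C2 := cd5q2) (C3 := pd3)
    rfl k0_mm_123_s

noncomputable def cut_mm_133_s : Cut := Cut.of [[⟨4, 0, 0, 1449551462⟩]]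

noncomputable def f_mm_133_s : ℕ → ℕ → ℕ → ℕ → Bool := onCell 536870912 536870912 0 1230186008 740881858 40050571
    (rowNE 3 eng mog cd0q1 cd5q3 pd3 0 true false false .dn 1 3 3 (qsf 536870912 536870912 0 1230186008 3) ndB0q1 ndB5q3 pcB3 cut_mm_133_s Ext.none)

def k0_mm_133_s : ∃ t, chk3 f_mm_133_s t 1 1 1 = true :=
  ⟨(l 4), by decide +kernel⟩

theorem c_mm_133_s : CertNE 536870912 536870912 0 1230186008 740881858 40050571 3 eng mog cd0q1 cd5q3 pd3 true false false .dn 1 3 3
    ndB0q1 ndB5q3 pcB3 cut_mm_133_s Ext.none :=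
  certNE0 (fam := true) (s1 := false) (s2 := false) (a := 1) (b := 3) (c := 3) (cn := .dn) (n1 := ndB0q1) (n2 := ndB5q3) (pc := pcB3) (cut := cut_mm_133_s) (xt := Ext.none) (P1 := 536870912) (W1 := 536870912) (P2 := 0) (W2 := 1230186008) (P3 := 740881858) (W3 := 40050571) (N0 := 3) (En := eng) (mo := mog) (C1 := cd0q1) (C2 := cd5q3) (C3 := pd3)
    rfl k0_mm_133_s

noncomputable def cut_mm_202_s : Cut := Cut.of [[⟨4, 0, 0, 1449551462⟩]]

noncomputable def f_mm_202_s : ℕ → ℕ → ℕ → ℕ → Bool := onCell 0 536870912 0 536870912 740881858 40050571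
    (rowNE 3 eng mog cd0q2 cd5q0 pd2 0 true false false .pp 2 0 2 (qsf 0 536870912 0 536870912 2) ndB0q2 ndB5q0 pcB2 cut_mm_202_s Ext.none)

def k0_mm_202_s : ∃ t, chk3 f_mm_202_s t 1 1 1 = true :=
  ⟨(l 4), by decide +kernel⟩

theorem c_mm_202_s : CertNE 0 536870912 0 536870912 740881858 40050571 3 eng mog cd0q2 cd5q0 pd2 true false false .pp 2 0 2
    ndB0q2 ndB5q0 pcB2 cut_mm_202_s Ext.none :=
  certNE0 (fam := true) (s1 := false) (s2 := false) (a := 2) (b := 0) (c := 2) (cn := .pp) (n1 := ndB0q2) (n2 := ndB5q0) (pc := pcB2) (cut := cut_mm_202_s) (xt := Ext.none) (P1 := 0) (W1 := 536870912) (P2 := 0) (W2 := 536870912) (P3 := 740881858) (W3 := 40050571) (N0 := 3) (En := eng) (mo := mog) (C1 := cd0q2) (C2 := cd5q0) (C3 := pd2)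
    rfl k0_mm_202_s

noncomputable def cut_mm_203_s : Cut := Cut.of [[⟨4, 0, 0, 1449551462⟩]]

noncomputable def f_mm_203_s : ℕ → ℕ → ℕ → ℕ → Bool := onCell 0 536870912 0 536870912 740881858 40050571
    (rowNE 3 eng mog cd0q2 cd5q0 pd3 0 true false false .up 2 0 3 (qsf 0 536870912 0 536870912 3) ndB0q2 ndB5q0 pcB3 cut_mm_203_s Ext.none)

def k0_mm_203_s : ∃ t, chk3 f_mm_203_s t 1 1 1 = true :=
  ⟨(l 4), by decide +kernel⟩

theorem c_mm_203_s : CertNE 0 536870912 0 536870912 740881858 40050571 3 eng mog cd0q2 cd5q0 pd3 true false false .up 2 0 3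
    ndB0q2 ndB5q0 pcB3 cut_mm_203_s Ext.none :=
  certNE0 (fam := true) (s1 := false) (s2 := false) (a := 2) (b := 0) (c := 3) (cn := .up) (n1 := ndB0q2) (n2 := ndB5q0) (pc := pcB3) (cut := cut_mm_203_s) (xt := Ext.none) (P1 := 0) (W1 := 536870912) (P2 := 0) (W2 := 536870912) (P3 := 740881858) (W3 := 40050571) (N0 := 3) (En := eng) (mo := mog) (C1 := cd0q2) (C2 := cd5q0) (C3 := pd3)
    rfl k0_mm_203_s

noncomputable def cut_mm_213_s : Cut := Cut.of [[⟨4, 0, 0, 1449551462⟩]]

noncomputable def f_mm_213_s : ℕ → ℕ → ℕ → ℕ → Bool := onCell 0 536870912 536870912 536870912 740881858 40050571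
    (rowNE 3 eng mog cd0q2 cd5q1 pd3 0 true false false .pnn 2 1 3 (qsf 0 536870912 536870912 536870912 3) ndB0q2 ndB5q1 pcB3 cut_mm_213_s Ext.none)

def k0_mm_213_s : ∃ t, chk3 f_mm_213_s t 1 1 1 = true :=
  ⟨(l 4), by decide +kernel⟩

theorem c_mm_213_s : CertNE 0 536870912 536870912 536870912 740881858 40050571 3 eng mog cd0q2 cd5q1 pd3 true false false .pnn 2 1 3
    ndB0q2 ndB5q1 pcB3 cut_mm_213_s Ext.none :=
  certNE0 (fam := true) (s1 := false) (s2 := false) (a := 2) (b := 1) (c := 3) (cn := .pnn) (n1 := ndB0q2) (n2 := ndB5q1) (pc := pcB3) (cut := cut_mm_213_s) (xt := Ext.none) (P1 := 0) (W1 := 536870912) (P2 := 536870912) (W2 := 536870912) (P3 := 740881858) (W3 := 40050571) (N0 := 3) (En := eng) (mo := mog) (C1 := cd0q2) (C2 := cd5q1) (C3 := pd3)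
    rfl k0_mm_213_s

end Pool.Agent.Strip051.G.I69_7273.Tab.CS.BA05

namespace Pool.Agent.Strip051.G.I69_7273.Tab.CS.BB00

open Pool.Agent.Strip051.PB Pool.Agent.Strip051.PB.T
open Pool.Agent.Strip051.G.I69_7273.Tab

noncomputable def cut_pp_001_s : Cut := Cut.of [[⟨4, 0, 0, 1449551462⟩]]

noncomputable def f_pp_001_s : ℕ → ℕ → ℕ → ℕ → Bool := onCell 0 536870912 0 536870912 740881858 40050571
    (rowNE 3 eng mog cd0q0 cd0q1 pd0 1 false true true .up 0 0 1 (qsf 0 536870912 536870912 536870912 0) ndB0q0 ndB0q1 pcB0 cut_pp_001_s Ext.none)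

def k0_pp_001_s : ∃ t, chk3 f_pp_001_s t 1 1 1 = true :=
  ⟨(l 3), by decide +kernel⟩

theorem c_pp_001_s : CertNE 0 536870912 536870912 536870912 740881858 40050571 3 eng mog cd0q0 cd0q1 pd0 false true true .up 0 0 1
    ndB0q0 ndB0q1 pcB0 cut_pp_001_s Ext.none :=
  certNE1 (fam := false) (s1 := true) (s2 := true) (a := 0) (b := 0) (c := 1) (cn := .up) (n1 := ndB0q0) (n2 := ndB0q1) (pc := pcB0) (cut := cut_pp_001_s) (xt := Ext.none) (P1 := 0) (W1 := 536870912) (P2 := 536870912) (W2 := 536870912) (P3 := 740881858) (W3 := 40050571) (N0 := 3) (En := eng) (mo := mog) (C1 := cd0q0) (C2 := cd0q1) (C3 := pd0)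
    rfl (fun _ => rfl) k0_pp_001_s

noncomputable def cut_pp_001_t : Cut := Cut.of [[⟨3, 0, 0, 2845415833⟩]]

noncomputable def f_pp_001_t : ℕ → ℕ → ℕ → ℕ → Bool := onCell 0 536870912 536870912 536870912 740881858 40050571
    (rowNE 3 eng mog cd0q0 cd0q1 pd0 0 false true true .up 0 0 1 (qsf 0 536870912 536870912 536870912 0) ndB0q0 ndB0q1 pcB0 cut_pp_001_t Ext.none)

def k0_pp_001_t : ∃ t, chk3 f_pp_001_t t 1 1 1 = true :=
  ⟨(l 6), by decide +kernel⟩

theorem c_pp_001_t : CertNE 0 536870912 536870912 536870912 740881858 40050571 3 eng mog cd0q0 cd0q1 pd0 false true true .up 0 0 1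
    ndB0q0 ndB0q1 pcB0 cut_pp_001_t Ext.none :=
  certNE0 (fam := false) (s1 := true) (s2 := true) (a := 0) (b := 0) (c := 1) (cn := .up) (n1 := ndB0q0) (n2 := ndB0q1) (pc := pcB0) (cut := cut_pp_001_t) (xt := Ext.none) (P1 := 0) (W1 := 536870912) (P2 := 536870912) (W2 := 536870912) (P3 := 740881858) (W3 := 40050571) (N0 := 3) (En := eng) (mo := mog) (C1 := cd0q0) (C2 := cd0q1) (C3 := pd0)
    rfl k0_pp_001_t

noncomputable def cut_pp_011_s : Cut := Cut.of [[⟨4, 0, 0, 1449551462⟩], [⟨0, 0, 0, 67108864⟩, ⟨1, 1, 0, 67108864⟩, ⟨2, 1, 0, 67108864⟩]]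

noncomputable def f_pp_011_s : ℕ → ℕ → ℕ → ℕ → Bool := onCell 536870912 536870912 536870912 536870912 740881858 40050571
    (rowNE 3 eng mog cd0q0 cd0q1 pd1 2 false true true .pnn 0 1 1 (qsf 0 536870912 536870912 536870912 1) ndB0q0 ndB0q1 pcB1 cut_pp_011_s Ext.none)

def k0_pp_011_s : ∃ t, chk3 f_pp_011_s t 1 1 1 = true :=
  ⟨(a (l 3) (b (l 3) (a (l 3) (b (l 3) (a (l 3) (b (l 3) (b (l 3) (a (l 3) (l 14))))))))), by decide +kernel⟩

theorem c_pp_011_s : CertNE 0 536870912 536870912 536870912 740881858 40050571 3 eng mog cd0q0 cd0q1 pd1 false true true .pnn 0 1 1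
    ndB0q0 ndB0q1 pcB1 cut_pp_011_s Ext.none :=
  certNE2 (fam := false) (s1 := true) (s2 := true) (a := 0) (b := 1) (c := 1) (cn := .pnn) (n1 := ndB0q0) (n2 := ndB0q1) (pc := pcB1) (cut := cut_pp_011_s) (xt := Ext.none) (P1 := 0) (W1 := 536870912) (P2 := 536870912) (W2 := 536870912) (P3 := 740881858) (W3 := 40050571) (N0 := 3) (En := eng) (mo := mog) (C1 := cd0q0) (C2 := cd0q1) (C3 := pd1)
    rfl (fun _ => rfl) k0_pp_011_s

noncomputable def cut_pp_011_t : Cut := Cut.of [[⟨3, 0, 0, 2845415833⟩], [⟨0, 0, 0, 67108864⟩, ⟨1, 1, 0, 67108864⟩, ⟨2, 1, 0, 67108864⟩]]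

noncomputable def f_pp_011_t : ℕ → ℕ → ℕ → ℕ → Bool := onCell 0 536870912 536870912 536870912 740881858 40050571
    (rowNE 3 eng mog cd0q0 cd0q1 pd1 0 false true true .pnn 0 1 1 (qsf 0 536870912 536870912 536870912 1) ndB0q0 ndB0q1 pcB1 cut_pp_011_t Ext.none)

def k0_pp_011_t : ∃ t, chk3 f_pp_011_t t 1 1 1 = true :=
  ⟨(l 6), by decide +kernel⟩

theorem c_pp_011_t : CertNE 0 536870912 536870912 536870912 740881858 40050571 3 eng mog cd0q0 cd0q1 pd1 false true true .pnn 0 1 1
    ndB0q0 ndB0q1 pcB1 cut_pp_011_t Ext.none :=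
  certNE0 (fam := false) (s1 := true) (s2 := true) (a := 0) (b := 1) (c := 1) (cn := .pnn) (n1 := ndB0q0) (n2 := ndB0q1) (pc := pcB1) (cut := cut_pp_011_t) (xt := Ext.none) (P1 := 0) (W1 := 536870912) (P2 := 536870912) (W2 := 536870912) (P3 := 740881858) (W3 := 40050571) (N0 := 3) (En := eng) (mo := mog) (C1 := cd0q0) (C2 := cd0q1) (C3 := pd1)
    rfl k0_pp_011_t

noncomputable def cut_pp_012_s : Cut := Cut.of [[⟨4, 0, 0, 1449551462⟩], [⟨0, 0, 0, 53687091⟩, ⟨1, 1, 0, 53687091⟩, ⟨2, 1, 0, 53687091⟩]]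

noncomputable def f_pp_012_s : ℕ → ℕ → ℕ → ℕ → Bool := onCell 536870912 536870912 0 536870912 740881858 40050571
    (rowNE 3 eng mog cd0q0 cd0q2 pd1 2 false true true .pnp 0 1 2 (qsf 0 536870912 0 536870912 1) ndB0q0 ndB0q2 pcB1 cut_pp_012_s Ext.none)

def k0_pp_012_s : ∃ t, chk3 f_pp_012_s t 4 2 1 = true :=
  ⟨(b (l 2) (l 3)), by decide +kernel⟩

def k1_pp_012_s : ∃ t, chk3 f_pp_012_s t 10 2 1 = true :=
  ⟨(b (a (a (l 2) (b (a (l 2) (b (l 16725416) (c (l 16772800) (l 16771968)))) (b (a (l 2) (a (b (b (l 16769976) (l 79624680295)) (l 3)) (b (l 16769776) (l 167671484743)))) (l 3)))) (b (b (a (l 16757464) (l 16723744)) (a (b (a (l 16738040) (l 16731168)) (c (l 16768856) (l 16747000))) (a (b (l 16724480) (l 16737032)) (l 16765944)))) (b (a (b (a (l 16774816) (l 16778016)) (a (b (a (l 73719089831) (l 16772752)) (a (l 3) (l 141364819271))) (b (l 16767192) (a (b (l 16774304) (l 93046451047)) (l 16772336))))) (a (b (l 16749904) (l 16771208)) (c (l 16765680) (l 16770248)))) (a (b (a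 (l 3) (b (a (l 3) (b (l 84456516087) (l 3))) (l 3))) (l 3)) (b (a (b (c (a (l 28621941415) (l 16772016)) (l 24863846183)) (a (l 3) (b (l 73719097431) (l 185388233287)))) (b (l 16776960) (c (a (l 25937585511) (l 16771648)) (l 16782384)))) (a (l 3) (b (a (l 186461973703) (b (l 65129161623) (l 178945782935))) (l 3)))))))) (l 3)), by decide +kernel⟩

def k2_pp_012_s : ∃ t, chk3 f_pp_012_s t 11 4 1 = true :=
  ⟨(b (a (b (a (l 16690632) (l 16699160)) (a (b (l 16708352) (l 16741344)) (c (l 16723800) (l 16700104)))) (b (a (b (l 16661816) (l 16672176)) (l 16676960)) (a (b (l 16683648) (l 16694968)) (b (l 16671392) (l 16682616))))) (a (b (b (a (l 16732728) (l 16740488)) (a (c (l 16766960) (l 16745184)) (l 16753032))) (a (b (a (b (l 16759280) (l 16776608)) (l 16776576)) (a (a (b (b (l 16773096) (l 60297322759)) (l 183240748903)) (b (l 16771160) (b (c (l 16780080) (l 16776080)) (l 168745236199)))) (b (l 16776216) (c (a (b (l 16772712) (l 16779864)) (l 16770824)) (l 16782816))))) (a (c (b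 (l 16770064) (l 16772744)) (l 16770584)) (b (l 16762704) (l 16775864))))) (b (a (a (l 16758024) (l 16751560)) (b (l 16693976) (l 16726824))) (b (a (a (l 16755912) (l 16728216)) (c (l 16740424) (l 16716864))) (a (a (b (l 16744656) (l 16772136)) (l 16761992)) (a (l 16755160) (l 16748376))))))), by decide +kernel⟩

def k3_pp_012_s : ∃ t, chk3 f_pp_012_s t 22 10 1 = true :=
  ⟨(b (a (b (a (l 3) (b (a (l 175724554183) (b (c (l 16779640) (l 16775624)) (c (l 143512304151) (l 109152576631)))) (l 3))) (l 3)) (b (a (b (c (a (b (l 16772240) (l 16778088)) (l 16770352)) (l 16771832)) (a (b (c (l 136532982535) (l 101636384007)) (l 3)) (c (b (l 16777840) (a (l 191830686119) (l 79087802583))) (b (l 16775112) (l 94657062119))))) (b (l 16775288) (a (c (b (l 16771728) (l 16777584)) (l 16773136)) (l 16774896)))) (a (l 3) (b (a (a (l 190220072007) (b (b (l 16776480) (l 142438563031)) (l 3))) (c (b (l 16777312) (a (l 169818979271) (b (l 16776232) (l 93046444631)))) (b (l 16774544) (l 80161547351))))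 (l 3))))) (l 3)), by decide +kernel⟩

def k4_pp_012_s : ∃ t, chk3 f_pp_012_s t 23 20 1 = true :=
  ⟨(b (a (a (c (l 16770584) (l 16760568)) (a (a (l 16767064) (l 16775792)) (l 16773160))) (a (c (l 16768704) (l 16767096)) (l 16760984))) (a (a (b (a (c (c (l 16778096) (l 16772736)) (l 16772544)) (l 16774312)) (a (b (a (a (l 189683202711) (b (l 69960993959) (l 3))) (b (l 16778528) (a (l 166597754263) (a (l 73719089815) (l 16778160))))) (l 3)) (c (b (l 16776072) (a (a (l 175187688615) (b (l 52781123783) (l 3))) (c (b (l 16775664) (b (l 33453770679) (l 121500598023))) (l 43654319863)))) (a (b (l 16774856) (l 91435834279)) (l 16779880))))) (c (a (b (b (l 16764208) (l 16767400)) (a (l 16777016) (l 16776568))) (a (l 16772952) (b (l 16761480) (l 16773072)))) (a (l 16779016) (l 16775328)))) (a (c (a (b (l 16758888) (l 16775704)) (l 16769096)) (l 16769824)) (a (a (l 16765896) (l 16764128)) (l 16771968))))), by decide +kernel⟩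

def k5_pp_012_s : ∃ t, chk3 f_pp_012_s t 46 21 1 = true :=
  ⟨(b (a (b (a (l 3) (b (c (l 198273136775) (l 198273135655)) (l 3))) (l 3)) (b (c (a (b (b (a (a (b (l 59223574167) (l 186998849143)) (a (l 42043704839) (l 16776424))) (l 16775320)) (a (l 189683203287) (c (a (b (l 32916899047) (l 169282109191)) (b (l 16773480) (l 28621931607))) (l 52781124535)))) (a (l 3) (b (c (a (l 3) (l 174113947271)) (l 183240752359)) (l 3)))) (a (b (l 16776656) (b (c (a (b (l 23790093255) (a (l 198273138439) (a (l 119889986903) (l 70497862759)))) (a (l 16273900311) (l 16776112))) (l 45801802391)) (a (l 3) (a (l 193978170935) (b (b (l 34527511239) (l 168745238391)) (l 3)))))) (c (b (l 16777912) (b (l 16775032) (a (a (b (l 16777504) (l 174113947479)) (b (l 16775440) (b (l 16777008) (l 130627403703)))) (c (b (l 16777096) (l 16777216)) (l 16776160))))) (b (l 16772536) (b (l 16774960) (l 29158803815)))))) (a (a (l 163376522119) (b (l 16775984) (l 191830685895))) (a (b (l 16774184) (l 72108480711)) (l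 16779232)))) (a (l 3) (b (c (a (l 3) (b (c (a (l 3) (b (c (b (a (a (l 189146333095) (l 71571604151)) (l 16776928)) (a (l 3) (a (l 175187689399) (a (l 78550925863) (l 50633638247))))) (l 73182218103)) (l 3))) (l 143512305095)) (l 3))) (l 184851363623)) (l 3))))) (l 3)), by decide +kernel⟩

def k6_pp_012_s : ∃ t, chk3 f_pp_012_s t 94 84 1 = true :=
  ⟨(a (c (c (b (l 16775328) (a (a (a (b (l 16773944) (l 16776824)) (l 16776920)) (l 16776272)) (l 16774976))) (l 16774104)) (l 16771216)) (c (a (a (l 16774624) (l 16773744)) (l 16772440)) (l 16777984))), by decide +kernel⟩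

def k7_pp_012_s : ∃ t, chk3 f_pp_012_s t 188 340 1 = true :=
  ⟨(c (c (a (a (c (b (l 16776808) (b (a (a (l 161765916615) (b (l 16777072) (a (l 137069855095) (l 63518540087)))) (l 16776848)) (a (l 3) (a (a (l 178408914887) (b (l 54391734551) (l 3))) (b (l 16777032) (a (a (l 132774887767) (l 83919634743)) (l 47949283527))))))) (a (b (l 16776688) (l 89825216151)) (l 16777288))) (c (c (a (l 16777048) (l 16777112)) (l 16776008)) (l 16775992))) (c (a (l 16776456) (l 16774288)) (l 16777304))) (a (l 24863836199) (l 16772000))) (l 16778024)), by decide +kernel⟩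

def k8_pp_012_s : ∃ t, chk3 f_pp_012_s t 376 341 1 = true :=
  ⟨(a (l 3) (c (c (a (b (c (b (c (b (c (a (a (b (l 63518539959) (l 148881015015)) (l 36138123431)) (l 16776992)) (l 30232543607)) (a (l 195051913159) (a (b (l 49023025303) (l 134922371335)) (a (a (l 39359348855) (l 16777144)) (l 16777104))))) (l 61371056855)) (a (l 3) (c (l 191293816759) (l 192367558567)))) (l 80698410503)) (l 3)) (b (c (b (l 16776928) (a (c (a (b (a (b (l 46338670727) (l 3)) (b (l 16777144) (b (l 64055410807) (l 138143596695)))) (l 3)) (a (b (a (b (l 16777104) (l 56539217975)) (l 16777128)) (l 197736267751)) (b (l 16777088) (b (b (l 56002347079) (l 131164274839)) (l 3))))) (l 72645345975)) (a (b (a (l 16777192) (l 16776976)) (c (b (b (l 16777128) (a (a (l 60297314391) (l 16777184)) (l 16777064))) (a (a (l 3) (b (l 117742502007) (l 3))) (a (b (l 51707379783) (l 3)) (b (l 16777184) (b (l 82845892647) (l 3)))))) (l 16777192))) (a (a (b (l 16776936) (b (l 16777080) (b (l 16777152) (b (l 16777192) (l 74792828967)))))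 (l 16777168)) (l 16777128))))) (l 16776944)) (c (b (c (c (a (l 3) (b (a (l 3) (b (a (b (c (a (a (l 3) (l 141364822103)) (b (l 81772150823) (l 131164274775))) (l 16777256)) (l 3)) (a (a (b (l 43654316055) (l 3)) (b (l 16777192) (l 131701145687))) (b (l 16777176) (b (l 16777232) (l 119353114711))))) (l 3))) (l 3))) (l 182703882151)) (l 183240753047)) (l 3)) (l 190220074791)))) (l 120426856215)) (l 16778360))), by decide +kernel⟩

def k9_pp_012_s : ∃ t, chk3 f_pp_012_s t 377 341 1 = true :=
  ⟨(c (c (c (a (b (a (b (l 16776992) (l 16777048)) (l 16776752)) (c (b (a (a (a (b (b (l 16777232) (c (c (b (a (a (a (l 3) (l 123111211095)) (b (l 16777200) (l 126332436519))) (l 16777176)) (a (l 3) (a (a (l 134922371159) (l 109689438295)) (a (l 93583310887) (l 16777200))))) (l 84993376487)) (l 16777208))) (l 3)) (b (l 16777232) (b (a (a (b (a (l 129553662039) (l 96804536407)) (l 3)) (b (a (l 78550925351) (l 16777200)) (l 138143596663))) (b (l 16777168) (b (l 30769414199) (a (l 133311758423)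 (l 16777208))))) (l 198273138663)))) (c (a (b (l 16777288) (b (l 16777112) (a (b (a (a (l 103246987351) (l 87140859943)) (l 16777192)) (l 139217338487)) (a (b (l 16777168) (l 78550925399)) (l 16777168))))) (l 16777120)) (l 16777000))) (l 16777008)) (b (c (a (a (l 3) (a (l 193978171367) (a (b (b (a (l 69960990791) (l 16777184)) (l 133311758423)) (l 3)) (b (l 16810770503) (b (l 124721823831) (l 3)))))) (b (l 16777256) (b (l 16777248) (a (a (a (a (l 127943049335) (l 89825214551)) (l 16777184)) (l 16777104)) (l 16776944))))) (a (l 160692174791) (l 16776976))) (b (a (l 3) (a (a (a (l 3) (a (l 138143596695) (b (l 79624667223) (l 3)))) (a (a (b (l 16777192) (l 116131889271)) (l 37211865111)) (l 16777144))) (a (l 16777232) (l 16776960)))) (a (l 3) (b (a (b (a (l 3) (a (l 3) (l 16777208))) (l 184851365863)) (l 16777088)) (a (l 3) (a (a (l 84993376327) (l 16777160)) (l 16777080)))))))) (a (b (a (l 81772151351) (l 16777000)) (l 169818980263)) (b (l 16776024) (l 32380027383))))) (b (l 16776760)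 (l 16776888))) (a (a (b (l 16776520) (l 88751472711)) (l 16776472)) (l 16775816))) (c (l 16777856) (l 16776200))) (l 16776160)), by decide +kernel⟩

def k10_pp_012_s : ∃ t, chk3 f_pp_012_s t 188 171 1 = true :=
  ⟨(a (l 3) (c (b (c (a (b (c (a (l 3) (b (c (a (l 3) (b (b (c (a (a (a (l 3) (l 140827951255)) (b (l 75329699911) (l 139754209399))) (l 18421383255)) (l 74792829223)) (b (a (l 3) (a (l 134385500279) (l 16777200))) (l 188609462247))) (l 3))) (l 159618432951)) (l 3))) (l 180019527415)) (l 3)) (b (c (a (b (a (b (l 16777240) (a (b (a (a (l 3) (l 119353114791)) (b (l 16777184) (l 117742501975))) (l 3)) (b (l 16777128) (a (a (l 138680467607) (l 105931341991)) (b (l 16777176) (l 92509569143)))))) (l 16777248)) (c (a (l 3) (b (a (b (a (a (l 130090533015) (l 93046440103)) (l 31843156087)) (l 151028498663)) (a (b (l 16777136) (a (l 112373792935) (l 93583310935))) (l 16777216))) (l 197199396823))) (l 149954756535))) (a (b (l 16777360) (b (l 16777000) (c (a (a (b (a (l 98952020135)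 (l 81772150855)) (l 3)) (b (l 16777168) (l 120963727591))) (a (b (l 16777112) (l 75866570903)) (l 16777112))) (l 16777176)))) (l 16777008))) (a (l 79624668359) (l 16776784))) (b (c (a (l 3) (a (l 186998849463) (c (b (a (b (l 30769414263) (a (l 3) (l 103246987463))) (l 16777280)) (c (c (l 170355851239) (l 170892722151)) (l 127943049751))) (l 89288344247)))) (l 160155303783)) (l 3)))) (a (l 188072590807) (c (l 88214603159) (l 87677733623)))) (l 3)) (l 160155302775))), by decide +kernel⟩

def k11_pp_012_s : ∃ t, chk3 f_pp_012_s t 189 85 1 = true :=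
  ⟨(b (c (c (a (a (b (l 16773400) (l 16776272)) (l 16775936)) (l 16777264)) (l 16772744)) (l 16772536)) (c (c (a (a (b (b (l 16776792) (b (a (a (b (l 16776952) (a (c (b (l 16777152) (a (l 126332436711) (l 88751472791))) (l 16777192)) (l 16777096))) (l 16776832)) (l 16777160)) (a (c (a (a (l 3) (a (l 188609462215) (b (b (l 76940312727) (l 3)) (l 3)))) (a (b (a (b (l 16777160) (l 115595018439)) (l 16777272)) (l 3)) (b (l 16777072) (b (a (l 104320729287) (l 16777192)) (l 145122918663))))) (l 99488891815)) (b (l 16776800) (b (l 16777272) (a (a (a (l 94120181959) (l 16777176)) (l 16777096)) (l 16776608))))))) (b (c (a (l 3) (b (a (a (l 198273138631) (b (b (l 66202894535) (l 129016791319)) (l 3))) (c (b (l 17347641495) (a (l 130627404167) (b (l 16777176) (l 121500598503)))) (l 16777160))) (l 3))) (l 159081561927)) (l 3))) (b (l 16776640) (b (a (c (b (l 16777184) (c (a (a (l 175724560343) (b (b (l 16777152) (l 102173245687)) (l 3))) (b (l 16777040) (a (a (l 127943049559) (l 101099503943))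 (a (l 76403441879) (l 16777152))))) (l 86067118855))) (l 16777680)) (l 16777272)) (c (a (l 3) (b (a (b (a (a (l 119353114983) (l 92509569303)) (l 33453768871)) (l 196662525911)) (a (b (l 16777048) (a (l 110226309431) (l 82309021927))) (l 16777040))) (l 194515042215))) (l 148881014631))))) (a (b (l 16777416) (a (c (b (l 16777504) (b (l 16776768) (a (b (a (a (l 99488891159) (l 70497861831)) (l 16777112)) (l 169282109415)) (a (b (l 16777008) (l 75329700087)) (l 16777000))))) (l 16776560)) (l 16776792))) (l 16776344))) (a (b (l 16776048) (a (l 173040205367) (l 79624668311))) (l 16775072))) (a (a (l 80161542807) (l 16776312)) (l 16774968)))), by decide +kernel⟩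

def k12_pp_012_s : ∃ t, chk3 f_pp_012_s t 95 42 1 = true :=
  ⟨(a (c (b (l 16775064) (b (l 16774552) (a (a (a (l 16776624) (l 16776184)) (l 16775528)) (l 16776832)))) (l 16772392)) (b (l 16771096) (a (b (l 16766352) (l 16774840)) (l 16774040)))), by decide +kernel⟩

def k13_pp_012_s : ∃ t, chk3 f_pp_012_s t 94 43 1 = true :=
  ⟨(b (a (l 3) (a (l 3) (b (c (b (c (a (b (c (a (l 184851365767) (a (b (b (l 29158801639) (a (l 3) (l 99488891271))) (l 3)) (b (l 16777336) (a (l 197736267719) (b (l 90898956647) (l 3)))))) (l 139217338247)) (l 3)) (a (b (b (l 16776680) (a (b (l 16777080) (a (l 123648082391) (l 83382763831))) (l 16776960))) (a (l 3) (a (l 184851365783) (b (b (l 73182216471) (l 3)) (l 3))))) (b (l 16776440) (a (b (a (b (l 16777088) (l 111300051335)) (l 24863834327)) (l 3)) (b (l 16776920) (a (l 157470949335) (b (l 16777152) (l 128479920583)))))))) (a (l 158544690855) (l 69424122023))) (l 3)) (l 145659788471)) (l 3)))) (l 3)), by decide +kernel⟩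

def k14_pp_012_s : ∃ t, chk3 f_pp_012_s t 95 86 1 = true :=
  ⟨(b (b (a (c (c (c (b (l 16776472) (a (b (l 16777264) (b (l 16776896) (a (a (a (l 71571603799) (l 16776976)) (l 16776648)) (l 16776000)))) (l 16777040))) (l 16777480)) (l 16774800)) (l 16774688)) (c (l 16776560) (l 16781424))) (a (c (c (a (a (b (b (c (a (a (l 185388236743) (b (l 38285607207) (l 126869307943))) (l 17347641607)) (l 73182217303)) (a (l 3) (a (l 169818980295) (b (l 16777120) (l 111836922407))))) (l 3)) (b (c (l 16777144) (l 16776472)) (b (a (a (l 155860336599) (b (l 16777080) (l 99488891351))) (l 16776848)) (a (l 3) (a (b (l 90362085847) (l 3)) (b (l 16777032) (l 82309022167))))))) (c (l 16776896) (l 16775552))) (a (a (l 144586047223) (l 16778120)) (l 16775512))) (a (l 81772154791) (l 16775432))) (a (a (l 16776744) (l 16775832)) (l 16774472)))) (a (a (l 3) (c (a (b (c (b (a (b (a (b (l 78550925671) (l 132774888039)) (l 28621930887)) (l 189683204007)) (a (b (l 16776872) (a (l 102173246119) (l 77477183927)))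 (l 16777168))) (l 189146333015)) (l 95730797655)) (l 3)) (b (b (l 16776944) (c (c (a (b (a (a (l 92509569575) (l 16777312)) (l 16777000)) (l 164450271191)) (a (b (l 16776784) (l 69960991175)) (l 16776760))) (l 67813508439)) (l 16777032))) (c (b (c (a (l 3) (l 167134625719)) (l 176261431127)) (l 3)) (l 185388236375)))) (l 131701142391))) (c (c (a (b (l 16776696) (b (a (a (c (b (l 26474447255) (l 144586047447)) (l 16777816)) (l 16777424)) (l 16776120)) (b (a (a (l 3) (a (l 177872043991) (l 86603989639))) (l 16777360)) (a (l 3) (a (a (l 122037470055) (l 77477184039)) (l 16776872)))))) (l 16777048)) (a (a (b (l 16775776) (l 87140862663)) (l 16775672)) (l 16774336))) (a (l 25937579607) (l 16774200))))), by decide +kernel⟩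

def k15_pp_012_s : ∃ t, chk3 f_pp_012_s t 95 87 1 = true :=
  ⟨(a (l 3) (b (c (b (b (b (a (a (l 3) (a (l 3) (a (l 110226310055) (l 66202894887)))) (l 16777472)) (a (l 3) (a (a (a (l 100562633575) (l 16777104)) (l 16776776)) (l 16777424)))) (a (l 3) (c (a (a (l 203641847703) (b (l 73182216887) (l 189683204039))) (c (a (l 33453769351) (l 16775192)) (l 16776704))) (l 74792831399)))) (b (a (l 3) (a (l 3) (a (l 176798302087) (b (l 39896220263) (l 157470949319))))) (l 3))) (a (l 186998848071) (c (l 84993379431) (l 84456511095)))) (l 3))), by decide +kernel⟩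

def k16_pp_012_s : ∃ t, chk3 f_pp_012_s t 11 11 1 = true :=
  ⟨(l 3), by decide +kernel⟩

def k17_pp_012_s : ∃ t, chk3 f_pp_012_s t 2 3 1 = true :=
  ⟨(l 3), by decide +kernel⟩

def k18_pp_012_s : ∃ t, chk3 f_pp_012_s t 12 4 1 = true :=
  ⟨(b (a (b (l 16680520) (a (b (l 16659792) (l 16670376)) (b (l 16647968) (l 16658336)))) (b (l 16616392) (a (l 16641360) (l 16629400)))) (a (b (a (c (l 16709968) (l 16685640)) (l 16695864)) (a (b (l 16726104) (l 16748832)) (c (l 16720720) (l 16696680)))) (b (a (b (l 16656576) (l 16667672)) (b (l 16644280) (l 16675424))) (a (a (l 16688352) (l 16681680)) (a (l 16674848) (l 16667872)))))), by decide +kernel⟩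

def k19_pp_012_s : ∃ t, chk3 f_pp_012_s t 12 10 1 = true :=
  ⟨(a (a (a (b (b (l 16754128) (a (l 16768472) (l 16744024))) (b (a (b (l 16767544) (c (l 16774384) (l 16763080))) (c (l 16767808) (l 16777136))) (b (c (c (a (b (l 16773976) (a (l 16777936) (l 16770968))) (l 16777320)) (l 16773528)) (l 16773128)) (a (b (c (a (b (l 16776296) (a (c (b (l 16777272) (a (l 162302787527) (a (l 87140860999) (l 16777544)))) (l 16778248)) (l 16777432))) (l 16776640)) (l 16777344)) (c (a (b (a (l 3) (b (a (l 147807272887) (a (l 75866571703) (l 16776968))) (l 3))) (l 3)) (b (a (b (l 16776424) (a (a (l 161229045687) (l 90898957463)) (l 37211865927))) (l 16775936)) (c (a (l 199346880391) (b (a (l 90362086711) (l 16776888)) (l 184314494919))) (l 143512305415)))) (a (l 171429591975) (l 74792831479)))) (c (a (c (b (l 16777576) (b (l 16777272) (c (a (b (l 16776256) (l 62981669975)) (l 16775776)) (l 16776176)))) (l 16776392)) (l 16776008)) (l 16777928)))))) (b (b (l 16726392) (l 16759824)) (b (b (l 16769256)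 (l 16765112)) (b (a (l 16773272) (l 16769720)) (a (b (l 16772848) (l 16776720)) (l 16776112)))))) (a (b (l 16757312) (b (l 16765440) (a (a (l 16775496) (l 16768472)) (l 16771056)))) (b (l 16740016) (b (l 16758456) (c (l 16771616) (l 16770336)))))) (a (a (b (l 16733176) (b (l 16730472) (l 16763864))) (b (l 16726280) (b (l 16723424) (l 16756712)))) (a (b (l 16698192) (b (l 16716112) (l 16749240))) (b (l 16711736) (c (l 16741728) (l 16734512)))))), by decide +kernel⟩

def k20_pp_012_s : ∃ t, chk3 f_pp_012_s t 48 22 1 = true :=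
  ⟨(b (a (b (a (l 3) (b (c (a (b (c (a (l 173577076663) (b (l 39359349751) (l 153175982055))) (l 132238016311)) (l 3)) (c (b (l 18421384343) (a (l 158007820247) (b (l 16776720) (l 100562634647)))) (b (l 16775960) (l 90362089127)))) (a (l 154786594023) (l 63518544135))) (l 3))) (l 3)) (a (a (b (c (b (l 16777960) (b (c (a (l 142975434727) (b (l 16776536) (l 84456507031))) (l 83382766807)) (l 3))) (b (l 16774880) (l 100025768471))) (l 3)) (b (b (l 16775760) (b (l 16776856) (c (c (a (b (l 76940314071) (l 190220075047)) (l 35064382871)) (l 74255961095)) (l 16777016)))) (b (c (l 189683203975) (l 196662524839)) (l 3)))) (a (b (c (l 16776992) (l 16772816)) (b (c (b (a (a (l 135996112855) (l 74792830679)) (l 16776496)) (l 167671496679)) (l 89288349431)) (l 3))) (b (l 16776376) (b (a (b (l 16775584) (b (l 16776776) (l 103783860631))) (l 16777936)) (c (b (c (l 155860336775) (l 160155303831)) (l 3)) (l 175187688679))))))) (l 3)), by decide +kernel⟩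

def k21_pp_012_s : ∃ t, chk3 f_pp_012_s t 49 22 1 = true :=
  ⟨(a (b (b (a (l 16776952) (l 16775320)) (c (a (b (l 16778568) (a (a (b (l 64055411271) (l 3)) (b (l 16776104) (l 131164274679))) (c (b (l 16772184) (l 16777960)) (l 16775512)))) (l 16776600)) (a (b (l 16773112) (a (l 78014059383) (l 16775448))) (l 16771048)))) (b (a (b (a (l 3) (a (l 184314494727) (b (a (l 104320731799) (l 76940314551)) (l 3)))) (l 3)) (b (c (a (b (l 16777416) (a (l 162302787703) (l 76940314855))) (l 16775128)) (l 47412415895)) (a (l 3) (b (a (l 147270402007) (a (l 76403443655) (l 16776760))) (l 3))))) (l 3))) (b (c (b (l 16770360) (l 16776536)) (l 16772768)) (b (b (a (l 16774968) (l 16779208)) (a (a (b (l 16775648) (a (a (l 158007820279) (l 89825216871)) (l 50096768839))) (l 16777248)) (l 16777136))) (a (b (a (l 180556398615) (b (a (a (l 102710119047) (l 74792830919)) (l 16776536)) (l 164987142199))) (l 3)) (b (a (a (b (l 16775648) (l 74255959815)) (l 16775528)) (l 16774168)) (c (a (l 161765917303)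 (b (l 34527512599) (l 140827951415))) (a (l 171966463703) (l 72645349943)))))))), by decide +kernel⟩

def k22_pp_012_s : ∃ t, chk3 f_pp_012_s t 24 23 1 = true :=
  ⟨(l 3), by decide +kernel⟩

def k23_pp_012_s : ∃ t, chk3 f_pp_012_s t 25 22 1 = true :=
  ⟨(a (a (a (b (l 16767712) (b (l 16777168) (a (b (l 16777584) (c (l 18421385079) (l 16775464))) (l 16776040)))) (b (l 16774584) (b (l 16773528) (l 16775920)))) (b (b (l 16745048) (l 16772264)) (c (b (l 16778952) (a (l 16776448) (l 16762320))) (l 16770848)))) (b (a (c (l 16762272) (l 16739968)) (l 16753672)) (a (a (a (l 16776984) (l 16775048)) (l 16772104)) (a (l 16768152) (l 16743200))))), by decide +kernel⟩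

def k24_pp_012_s : ∃ t, chk3 f_pp_012_s t 25 23 1 = true :=
  ⟨(a (b (a (b (a (b (a (a (l 177872044359) (b (l 82309024439) (l 3))) (b (l 16778032) (a (l 153175982279) (l 69960993063)))) (l 3)) (a (b (l 16777664) (b (a (l 136532983975) (l 56539219895)) (l 3))) (b (l 16773208) (a (b (l 16776056) (l 91435830071)) (l 23253223367))))) (a (l 3) (b (a (l 3) (l 169818981143)) (l 3)))) (a (b (c (l 16777408) (l 16771944)) (a (b (b (a (l 78550927879) (l 16776464)) (l 151565369831)) (l 3)) (a (b (c (l 41506834551) (l 16776288)) (l 3)) (b (l 16775424) (b (l 97878281591) (l 3)))))) (b (b (l 16777232) (l 16775160)) (a (b (l 16774040) (c (b (l 39896221655) (l 127406178871)) (l 65666028103))) (c (c (l 16778280) (l 16773784)) (l 16773688)))))) (a (l 3) (b (a (l 3) (a (l 3) (b (a (l 160155304919) (b (l 71034735303) (l 3))) (l 3)))) (l 3)))) (a (b (b (a (l 16775000) (l 16771112)) (a (c (l 16776272) (l 16770800)) (l 16777536))) (b (a (a (b (b (l 16778512) (a (l 102173249159) (l 58686703879))) (l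 3)) (b (l 16777424) (b (a (l 88751476039) (l 16776736)) (l 162302788711)))) (b (l 16774536) (a (a (b (l 16775816) (l 76940315431)) (l 16778280)) (l 16774224)))) (a (l 3) (b (a (b (l 148881015815) (l 3)) (c (b (l 43654318503) (l 135996114119)) (l 68887254119))) (l 3))))) (b (b (l 16770440) (a (l 16773616) (l 16769656))) (b (a (c (l 16775000) (l 16769552)) (b (l 16764056) (l 16777832))) (b (a (c (a (l 16778360) (l 16773664)) (l 16774552)) (l 16775896)) (a (a (b (c (l 124721824695) (l 90362089927)) (l 3)) (c (b (l 16776112) (l 81235284103)) (l 51707384055))) (c (l 16776648) (l 16773952)))))))), by decide +kernel⟩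

def k25_pp_012_s : ∃ t, chk3 f_pp_012_s t 13 2 1 = true :=
  ⟨(b (a (b (b (l 16615384) (a (l 16617552) (l 16606312))) (b (a (b (l 16631704) (l 16641784)) (l 16645792)) (a (b (a (l 16655120) (l 16648640)) (l 16683768)) (b (l 16660640) (a (l 16652640) (l 16646792)))))) (b (b (l 6) (a (l 16596504) (l 6))) (b (a (l 16614448) (l 16605600)) (a (b (l 16628720) (l 16659792)) (l 16666408))))) (b (a (b (a (a (l 16704264) (l 16696944)) (a (l 16690032) (l 16662632))) (a (b (a (l 16700648) (l 16693088)) (c (l 16730616) (l 16728832))) (b (a (l 16685840) (l 16679008)) (a (l 16697432) (l 16690368))))) (b (a (b (a (l 16651400) (l 16646328)) (l 16680160)) (b (l 16660520) (a (l 16651672) (l 16647408)))) (a (b (l 16690800) (a (l 16683840) (l 16677912))) (b (l 16680656) (a (l 16672592) (l 16667784)))))) (a (b (a (a (b (l 16724776) (l 16758200)) (b (l 16716952) (l 16750288))) (a (b (l 16709336) (l 16721568)) (b (l 16702056) (l 16714104)))) (a (b (a (b (l 16767712) (l 16763672)) (b (l 16738784) (l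 16766176))) (a (a (b (l 16772208) (l 16773584)) (b (l 16768208) (l 16774816))) (b (l 16762200) (a (l 16770800) (l 16766784))))) (a (b (c (l 16755496) (l 16754768)) (b (l 16764744) (c (l 16771448) (l 16771128)))) (b (l 16747496) (b (l 16736048) (l 16763472)))))) (b (a (b (a (l 16695304) (l 16689152)) (a (l 16707152) (l 16700800))) (a (b (l 16683568) (l 16694928)) (l 16704976))) (a (a (b (l 16740368) (c (l 16753192) (l 16752744))) (b (l 16712840) (b (l 16722048) (l 16728296)))) (b (a (l 16706712) (l 16700936)) (l 16720912))))))), by decide +kernel⟩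

def k26_pp_012_s : ∃ t, chk3 f_pp_012_s t 12 6 1 = true :=
  ⟨(b (a (l 3) (b (a (l 3) (b (a (l 3) (b (a (l 3) (b (a (b (c (l 70497865271) (l 16777224)) (l 3)) (c (b (l 16775528) (l 57612963095)) (l 16778896))) (a (l 3) (l 156934081319)))) (l 3))) (l 3))) (l 3))) (l 3)), by decide +kernel⟩

def k27_pp_012_s : ∃ t, chk3 f_pp_012_s t 26 12 1 = true :=
  ⟨(b (a (b (a (a (b (b (l 16775984) (c (a (b (l 44728060695) (l 138680469575)) (l 16778344)) (a (l 67276641783) (l 16775696)))) (b (a (l 3) (b (l 128479921495) (l 3))) (l 3))) (a (b (l 16774664) (b (c (b (l 16776256) (l 81235284535)) (l 49023029943)) (l 3))) (b (l 16775272) (b (l 16777720) (b (c (l 69960994919) (l 16780040)) (l 3)))))) (b (c (l 16772920) (l 16775384)) (a (b (l 16774688) (a (b (l 16775632) (l 56539221991)) (l 16774456))) (c (l 16772360) (l 16769672))))) (a (l 3) (b (a (b (a (l 147270406455) (b (l 43117448839) (l 141364824519))) (l 3)) (b (c (a (l 16778432) (l 16773808)) (l 16780024)) (a (b (l 130627405687) (l 3))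 (b (l 16776336) (l 83382769239))))) (l 3)))) (b (b (a (a (l 16769416) (l 16765408)) (a (l 16750960) (l 16747112))) (a (c (l 16770224) (l 16768800)) (a (l 16768072) (l 16764176)))) (a (b (a (a (b (l 16767816) (l 16775160)) (l 16774032)) (l 16773592)) (a (b (a (b (l 74255963255) (l 3)) (a (l 40433095239) (l 16776008))) (l 3)) (b (l 16776072) (a (a (l 129553663927) (l 49559901479)) (l 16779432))))) (b (c (l 16767592) (l 16767520)) (a (c (l 16773696) (l 16771056)) (l 16772280)))))) (a (l 3) (b (a (b (a (l 3) (b (a (l 3) (l 142975438263)) (l 3))) (l 3)) (b (b (a (a (a (l 71034738743) (l 16779272)) (l 16775152)) (l 16772096)) (a (a (l 3) (l 129553663543)) (c (a (l 16779088) (l 16774464)) (l 16779376)))) (a (l 3) (b (a (l 163913404887) (b (l 16776952) (l 111836928967))) (l 3))))) (l 3)))), by decide +kernel⟩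

def k28_pp_012_s : ∃ t, chk3 f_pp_012_s t 27 12 1 = true :=
  ⟨(b (b (b (a (a (l 16762552) (l 16734560)) (l 16724656)) (a (a (c (l 16769104) (l 16768928)) (a (l 16742640) (l 16739128))) (l 16735952))) (a (a (a (a (l 16766024) (l 16764096)) (l 16763864)) (a (l 16762752) (l 16748616))) (a (l 16753784) (l 16736520)))) (a (b (a (b (a (c (l 16769776) (l 16769744)) (l 16765808)) (a (b (c (l 16774776) (l 16774760)) (a (l 146733534455) (l 37748742215))) (c (l 16772432) (l 16772408)))) (b (l 16767888) (c (l 16771760) (l 16771696)))) (a (b (a (l 3) (b (a (l 89825222823) (l 16778984)) (l 172503340823))) (l 3)) (a (b (a (b (l 16774376) (l 73719094135)) (l 16779256)) (b (l 162839663127) (l 3))) (b (l 16771040) (b (c (l 16781144) (l 16781136)) (l 142975436823)))))) (b (a (c (l 16763688) (l 16763544)) (b (l 16745528) (l 16751600))) (a (b (a (l 16767136) (l 16763312)) (a (b (l 16771952) (l 16780416)) (l 16769656))) (b (l 16762976) (a (l 16765824) (l 16762072))))))), by decide +kernel⟩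

def k29_pp_012_s : ∃ t, chk3 f_pp_012_s t 13 13 1 = true :=
  ⟨(a (l 3) (b (a (l 3) (b (a (b (b (a (a (l 166060887671) (l 16780608)) (l 16774448)) (a (l 3) (a (l 105931350311) (l 16779264)))) (l 3)) (b (c (a (l 16772144) (l 16768304)) (l 16771472)) (a (a (b (l 87677735415) (l 3)) (b (l 16775888) (l 122574349063))) (a (c (l 16779440) (l 16780736)) (l 16774872))))) (a (l 3) (a (l 3) (a (l 3) (b (c (l 161765920983) (l 164450275463)) (l 3))))))) (l 3))), by decide +kernel⟩

def k30_pp_012_s : ∃ t, chk3 f_pp_012_s t 6 7 1 = true :=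
  ⟨(l 3), by decide +kernel⟩

def k31_pp_012_s : ∃ t, chk3 f_pp_012_s t 7 2 1 = true :=
  ⟨(a (b (b (l 6) (a (b (a (l 16598264) (l 6)) (a (l 16616464) (l 16609504))) (b (l 6) (l 16600136)))) (b (a (b (a (b (l 16631048) (l 16641408)) (l 16628560)) (a (b (l 16672432) (l 16661312)) (b (l 16643896) (l 16632984)))) (a (b (l 16621720) (l 16641752)) (l 16667568))) (a (b (a (a (l 16700056) (l 16653528)) (l 16668344)) (a (b (l 16692944) (l 16704208)) (b (l 16683376) (l 16693872)))) (b (a (b (l 16657064) (l 16666320)) (l 16671592)) (a (b (l 16675616) (l 16683472)) (b (l 16660264) (l 16667416))))))) (b (l 6) (b (a (b (l 16603072) (l 16614952)) (a (b (l 6) (l 16588720)) (l 6))) (a (b (a (l 16634648) (l 16596056)) (a (b (a (l 16647104) (l 16637944)) (a (l 16653584) (l 16643520))) (b (l 16623656) (a (l 16633296) (l 16622992))))) (b (a (l 16576656) (a (l 16582776) (l 16572944))) (b (a (l 16603480) (a (l 16588264) (l 16578632))) (a (l 16607328) (a (l 16592184) (l 16582648))))))))), by decide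 +kernel⟩

def k32_pp_012_s : ∃ t, chk3 f_pp_012_s t 28 12 1 = true :=
  ⟨(b (a (b (l 16731288) (a (l 16730104) (l 16723888))) (a (l 16733512) (l 16727952))) (a (b (a (l 16751928) (l 16745608)) (a (c (l 16758944) (l 16758784)) (c (l 16751840) (l 16751632)))) (b (c (l 16741208) (l 16740904)) (a (b (l 16736704) (l 16742304)) (l 16732904))))), by decide +kernel⟩

def k33_pp_012_s : ∃ t, chk3 f_pp_012_s t 28 26 1 = true :=
  ⟨(a (b (a (a (b (l 16764512) (c (l 16770696) (l 16770648))) (c (b (l 16760864) (l 16766896)) (l 16766408))) (a (b (l 16757104) (l 16763072)) (b (l 16753400) (l 16759288)))) (a (b (a (b (c (l 16779264) (l 16775320)) (a (l 185925111351) (c (l 16780064) (l 74792834551)))) (c (b (l 16771472) (l 16774544)) (l 16772984))) (a (l 3) (b (c (a (l 111300058391) (l 16776664)) (a (l 105931349239) (l 16776664))) (l 3)))) (b (a (c (l 16769160) (l 16769104)) (c (l 16765336) (l 16765264))) (a (a (b (l 16774712) (a (l 107541960791) (l 71571605495))) (c (l 16776944) (l 16774304)))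 (c (l 16771424) (l 16771392)))))) (b (a (a (l 16757920) (l 16754352)) (c (l 16744048) (l 16754392))) (b (a (a (l 16761544) (l 16757880)) (a (l 16754312) (l 16750880))) (a (a (c (l 16767608) (l 16767576)) (c (l 16763872) (l 16763832))) (a (l 16760216) (l 16756696)))))), by decide +kernel⟩

def k34_pp_012_s : ∃ t, chk3 f_pp_012_s t 28 27 1 = true :=
  ⟨(a (b (a (l 3) (b (a (a (l 3) (c (l 193441306119) (l 190756946247))) (b (a (b (l 16776208) (l 91435832199)) (l 16775032)) (a (l 3) (c (l 99488897655) (l 93046445351))))) (l 3))) (l 3)) (b (a (b (a (a (b (l 16773096) (c (l 16776152) (l 16776152))) (b (l 16771184) (l 16774216))) (c (l 16769856) (l 16769848))) (a (b (a (l 191293817655) (c (l 73182216487) (c (l 67276641287) (l 65129152391)))) (l 3)) (c (b (l 16774352) (a (l 158007822231) (l 16779016))) (b (l 16774352) (a (l 153175984007) (b (l 16775648) (l 16777136))))))) (b (a (c (l 16766136) (l 16766136)) (l 16762280)) (a (c (b (l 16770520) (l 16773488)) (b (l 16770560) (l 16773504)))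 (c (l 16768064) (l 16768096))))) (a (a (l 3) (b (b (c (l 205789337111) (l 203104982519)) (l 3)) (l 3))) (b (a (a (b (a (b (l 16777184) (l 3)) (b (l 16776232) (l 103783862023))) (l 3)) (b (c (l 16775512) (l 16775520)) (b (c (l 101099508439) (l 94120186647)) (l 3)))) (b (c (l 16772552) (l 16772560)) (a (b (l 16775824) (a (l 111300054967) (l 16776848))) (l 16774600)))) (a (l 3) (b (a (l 208473688951) (b (c (l 16776880) (l 16779496)) (c (l 134385505879) (l 178408917031)))) (l 3))))))), by decide +kernel⟩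

def k35_pp_012_s : ∃ t, chk3 f_pp_012_s t 29 6 1 = true :=
  ⟨(b (b (a (c (l 16727296) (l 16728968)) (b (l 16675520) (l 16684704))) (a (b (l 16737032) (a (l 16726784) (l 16718640))) (b (a (l 16699400) (l 16663768)) (a (l 16709840) (b (l 16697672) (l 16702784)))))) (b (a (b (a (l 16747928) (l 16739664)) (a (a (b (l 16747376) (l 16752712)) (l 16751216)) (c (l 16747520) (l 16748864)))) (a (b (l 16730728) (a (b (l 16730352) (l 16735616)) (c (l 16738896) (l 16749032)))) (b (c (l 16731696) (l 16731200)) (b (l 16739104) (a (l 16725888) (l 16720712)))))) (a (b (a (a (b (l 16758280) (c (l 16764064) (l 16764080))) (b (l 16754184) (l 16759968))) (a (b (l 16749992) (l 16755768)) (c (l 16748608) (l 16753696)))) (a (b (a (c (b (l 16768544) (l 16771584)) (b (l 16768544) (l 16771576))) (c (l 16765976) (l 16765936))) (a (b (a (c (l 16775656) (l 16776960)) (l 16773632)) (b (a (c (l 111300056151) (l 104857602567)) (l 16777264)) (a (l 3) (a (l 125258698967) (l 16778632))))) (c (b (l 16770568) (l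 16773672)) (b (l 16770536) (l 16773656))))) (a (b (b (l 16755000) (l 16763288)) (c (b (l 16766400) (l 16769512)) (l 16769200))) (b (b (l 16750688) (a (l 16760072) (l 16757872))) (c (l 16763688) (l 16763560)))))) (b (b (a (a (l 16730648) (l 16736360)) (a (l 16731368) (l 16726152))) (a (a (b (l 16745448) (l 16748392)) (l 16752616)) (a (l 16737104) (l 16731952)))) (a (b (a (a (l 16748832) (l 16751736)) (b (l 16746584) (l 16749648))) (b (a (a (l 16758696) (l 16756352)) (l 16752768)) (a (c (l 16755536) (l 16755312)) (l 16761184)))) (b (a (l 16748392) (l 16748568)) (a (b (l 16747872) (l 16751136)) (c (l 16744968) (l 16744216))))))))), by decide +kernel⟩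

def k36_pp_012_s : ∃ t, chk3 f_pp_012_s t 15 12 1 = true :=
  ⟨(a (a (a (b (l 16707528) (b (l 16679848) (l 16710856))) (b (l 16697104) (b (l 16669064) (l 16699792)))) (a (b (l 16686088) (b (l 16657680) (b (l 16664976) (l 16669976)))) (b (b (l 16628656) (l 16636816)) (b (l 16646208) (l 16677080))))) (b (a (b (a (l 16638656) (l 16607088)) (a (l 16625112) (b (l 16611896) (l 16615976)))) (b (a (l 16597288) (l 16587872)) (a (b (l 16601928) (a (l 16608000) (l 16603088))) (l 16594336)))) (a (b (a (l 16634744) (l 16623592)) (a (l 16666048) (l 16655200))) (b (a (b (a (l 16612704) (l 16607264)) (l 16615256)) (b (a (l 16602384) (l 16597696)) (a (c (l 16610288) (l 16603632)) (b (l 16600760) (a (l 16604288) (l 16601704)))))) (a (a (l 16626168) (l 16620800)) (a (l 16615416) (b (l 16607160) (l 16612888)))))))), by decide +kernel⟩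

def k37_pp_012_s : ∃ t, chk3 f_pp_012_s t 30 13 1 = true :=
  ⟨(b (a (b (a (c (l 16721360) (l 16720232)) (b (l 16686264) (l 16712280))) (a (a (b (l 16710168) (l 16715336)) (b (l 16704704) (l 16709888))) (b (a (l 16699152) (l 16693648)) (a (l 16704456) (l 16699048))))) (b (a (c (l 16699816) (l 16676216)) (c (l 16689248) (l 16664856))) (a (b (c (l 16686792) (l 16684112)) (a (l 16693672) (l 16688344))) (b (l 16690488) (c (l 16682144) (l 16678776)))))) (a (a (b (b (a (l 16720856) (l 16715488)) (a (l 16726720) (l 16721504))) (b (a (l 16743496) (l 16727920)) (a (l 16744896) (l 16739928)))) (b (a (b (l 16710160) (l 16716296)) (b (l 16704856) (l 16711096))) (b (a (l 16722816) (l 16717720)) (a (l 16734944) (l 16735192))))) (b (b (a (a (l 16699576) (l 16694344)) (c (l 16709192) (l 16684952))) (a (a (l 16705912) (l 16700760)) (c (l 16705176) (l 16691584)))) (a (b (a (l 16712632) (l 16707576)) (a (l 16719712) (l 16714744))) (a (b (l 16702576) (l 16709824)) (b (l 16697632) (l 16704960))))))),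 by decide +kernel⟩

def k38_pp_012_s : ∃ t, chk3 f_pp_012_s t 31 13 1 = true :=
  ⟨(a (b (b (a (c (l 16657960) (l 16653744)) (c (l 16647824) (l 16642792))) (a (b (l 16685280) (c (l 16672200) (l 16668120))) (b (l 16674976) (l 16681000)))) (b (a (b (c (l 16678424) (l 16674472)) (a (l 16685664) (l 16680720))) (a (b (l 16668968) (l 16675792)) (l 16688352))) (a (b (a (l 16692728) (l 16687848)) (a (l 16700136) (l 16695328))) (b (a (l 16682992) (l 16678128)) (a (l 16690536) (l 16685736)))))) (b (a (b (a (l 16637496) (l 16632264)) (a (l 16670328) (l 16644256))) (b (a (c (l 16630232) (l 16623680)) (c (l 16625168) (l 16618160))) (a (c (l 16642216) (l 16635912)) (b (l 16630808) (l 16637120))))) (b (a (a (l 16683392) (b (l 16653968) (l 16660976))) (a (b (l 16648920) (l 16655992)) (b (l 16643824) (l 16650912)))) (a (a (b (l 16673256) (l 16680912)) (b (l 16668352) (l 16676056))) (a (b (l 16663400) (l 16671104)) (b (l 16658344) (l 16666040))))))), by decide +kernel⟩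

def k39_pp_012_s : ∃ t, chk3 f_pp_012_s t 28 14 1 = true :=
  ⟨(l 3), by decide +kernel⟩

def k40_pp_012_s : ∃ t, chk3 f_pp_012_s t 58 28 1 = true :=
  ⟨(b (a (b (a (l 3) (a (b (a (b (l 93046442311) (l 3)) (b (l 16776520) (l 132238020855))) (l 3)) (b (c (l 16775760) (b (l 16774968) (l 16779152))) (b (c (l 120426861863) (l 113984409607)) (l 3))))) (l 3)) (b (a (b (c (l 16772648) (l 16772616)) (a (a (b (l 16776568) (l 136532988231)) (c (l 16776312) (l 16778928))) (c (l 16774760) (l 16774736)))) (c (b (l 16768400) (l 16771560)) (b (l 16768304) (l 16771496)))) (a (a (l 3) (b (b (a (l 100025764359) (l 16776608)) (l 193978173239)) (l 3))) (b (c (a (l 16778448) (l 16773712)) (a (b (l 16775016) (l 16779224)) (l 16773664))) (b (a (c (l 124184958295) (l 169818981943)) (c (l 16776120) (l 16776104))) (a (l 3) (c (l 96267670343) (c (l 91972702711) (l 90362087335))))))))) (l 3)), by decide +kernel⟩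

def k41_pp_012_s : ∃ t, chk3 f_pp_012_s t 59 28 1 = true :=
  ⟨(b (a (b (a (c (b (l 16758704) (a (l 16763040) (l 16766040))) (l 16766696)) (a (b (l 16760368) (l 16763672)) (b (l 16758024) (l 16761368)))) (a (c (b (l 16770440) (l 16775048)) (b (l 16770344) (a (l 16774768) (l 16772592)))) (c (c (l 16767752) (l 16767672)) (c (l 16767584) (l 16767496))))) (b (a (a (a (l 16757936) (l 16756760)) (l 16760232)) (c (l 16751720) (l 16756352))) (a (b (a (l 16762512) (l 16760208)) (a (l 16760744) (l 16763728))) (b (l 16761968) (a (l 16761448) (l 16759144)))))) (a (b (b (a (a (b (c (l 16779736) (c (l 16779072) (l 61371057543))) (l 196125657463)) (c (l 16778496) (b (l 16775064) (c (l 16776648) (l 16776640))))) (c (l 16772696) (l 16772624))) (b (a (a (l 3) (c (l 126332441655) (l 170355852807))) (c (l 16777072) (a (l 16776136) (l 16773992)))) (a (l 3) (a (a (l 147270406087) (a (l 89288346327) (l 16776928))) (l 16775632))))) (a (l 3) (b (a (l 3) (a (c (l 176798304119) (l 174650819783)) (b (l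 16777984) (l 148344147703)))) (l 3)))) (b (a (c (a (l 16771096) (l 16768920)) (c (l 16770560) (l 16769832))) (a (b (l 16764912) (a (l 16763600) (l 16767736))) (b (l 16762656) (l 16760824)))) (a (a (b (a (c (l 16776400) (c (l 16779008) (l 16778992))) (l 16776264)) (b (c (l 127406183047) (l 168208369063)) (l 3))) (c (b (l 16773784) (a (l 79624670503) (l 16779000))) (b (l 16773720) (b (l 16776120) (a (l 189683205559) (l 16778592)))))) (a (b (l 16771592) (b (l 16774008) (l 16776384))) (c (l 16773728) (l 16772288))))))), by decide +kernel⟩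

def k42_pp_012_s : ∃ t, chk3 f_pp_012_s t 29 29 1 = true :=
  ⟨(a (l 3) (b (a (l 3) (b (a (l 3) (b (a (b (c (l 65666027271) (a (l 101099506759) (l 16776624))) (c (l 193978173543) (l 193441302615))) (b (l 16775056) (a (a (l 82845894503) (l 16778184)) (l 16776104)))) (a (l 3) (b (c (l 124184957255) (a (l 3) (l 97878281207))) (l 3))))) (l 3))) (l 3))), by decide +kernel⟩

def k43_pp_012_s : ∃ t, chk3 f_pp_012_s t 14 15 1 = true :=
  ⟨(l 3), by decide +kernel⟩

def k44_pp_012_s : ∃ t, chk3 f_pp_012_s t 30 28 1 = true :=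
  ⟨(b (a (b (a (a (b (l 16744848) (l 16748400)) (b (l 16739968) (l 16743592))) (a (b (l 16735072) (l 16738744)) (l 16737256))) (a (a (b (l 16752024) (l 16755672)) (b (l 16747280) (l 16750984))) (a (b (l 16742488) (l 16746248)) (l 16744824)))) (a (b (a (l 16737600) (l 16722232)) (a (l 16745264) (l 16729976))) (a (b (l 16717392) (l 16725224)) (b (l 16712608) (l 16720504))))) (a (b (b (a (a (a (l 16760376) (l 16758072)) (l 16754600)) (a (l 16749928) (l 16745216))) (a (a (a (l 16763824) (l 16761560)) (l 16763376)) (a (l 16753512) (l 16748856)))) (a (a (c (c (l 16767904) (l 16767800)) (c (l 16767688) (l 16767576))) (b (c (l 16761776) (l 16766616)) (a (l 16760824) (l 16763832)))) (a (b (l 16762264) (a (l 16761576) (l 16759304))) (c (l 16759728) (l 16759048))))) (a (b (a (l 16747568) (l 16737608)) (a (b (l 16747752) (l 16751264)) (l 16755360))) (a (b (l 16732928) (l 16740272)) (b (l 16728288) (l 16735688)))))), by decide +kernel⟩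

def k45_pp_012_s : ∃ t, chk3 f_pp_012_s t 60 58 1 = true :=
  ⟨(b (b (a (a (c (l 16773984) (a (l 16773664) (l 16766232))) (c (a (l 16764200) (l 16767264)) (a (l 16764016) (l 16767016)))) (a (a (l 16764920) (l 16762672)) (a (l 16760416) (l 16758144)))) (a (a (a (b (c (l 16776080) (l 16777360)) (a (l 181630141735) (b (l 16776712) (l 95193925879)))) (c (l 16774760) (l 16774704))) (c (l 16774176) (l 16772728))) (a (a (a (l 16763504) (l 16767640)) (a (l 16766536) (l 16765424))) (a (l 16763744) (l 16761496))))) (b (a (a (a (l 3) (b (b (c (l 16776672) (l 16778464)) (a (l 170892724567) (l 16778232))) (c (l 187535722391) (l 187535722359)))) (a (b (l 16775616) (a (b (l 16776664) (a (l 159618434679) (l 16777152))) (l 16775992))) (c (l 16773640) (l 16773552)))) (a (c (l 16773032) (a (l 16767416) (l 16763872))) (a (c (l 16767152) (l 16766872)) (a (l 16765344) (l 16764224))))) (a (a (l 3) (b (a (c (l 158544692295) (a (l 3) (c (l 88214604503) (l 88214603831)))) (c (l 16775960) (b (l 16775544)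 (l 16777632)))) (a (l 3) (c (b (l 57076091799) (l 117205634295)) (a (l 173040206903) (c (l 16778240) (l 41506833287))))))) (a (c (b (l 16772776) (l 16775648)) (c (l 16774312) (l 16774096))) (a (b (l 16766816) (a (l 16771584) (l 16770488))) (c (l 16768152) (l 16762656))))))), by decide +kernel⟩

def k46_pp_012_s : ∃ t, chk3 f_pp_012_s t 60 59 1 = true :=
  ⟨(a (l 3) (b (a (b (a (a (b (c (l 85530249991) (b (l 16778360) (l 145122920471))) (l 3)) (b (c (l 16776416) (l 16776392)) (c (l 130090535783) (b (l 104857602055) (l 3))))) (a (b (l 16775336) (b (l 16776512) (a (l 118816245367) (l 16777008)))) (c (l 16775072) (l 16775016)))) (a (l 3) (b (a (l 216526751319) (c (l 78014057143) (b (l 16778272) (l 131701147703)))) (l 3)))) (c (b (c (l 16772424) (l 16773672)) (a (b (l 16775792) (a (l 120963730295) (l 16778088))) (l 16775744))) (c (b (l 16773600) (a (b (l 16775760) (a (l 161229046551) (l 16778072))) (l 16774376))) (b (l 16773536) (a (b (l 16775744) (a (b (l 94120183655) (l 3)) (b (l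 16776400) (l 54928606983)))) (l 16774336)))))) (a (l 3) (b (a (b (c (l 213842397319) (a (l 3) (l 210084300215))) (l 3)) (a (b (c (c (l 73719089559) (l 68887251383)) (b (l 16778176) (c (l 120426858391) (l 118279374823)))) (l 3)) (b (c (l 16776216) (l 16776192)) (b (a (l 140291081719) (a (l 65666024599) (l 16776968))) (l 3))))) (l 3))))), by decide +kernel⟩

def k47_pp_012_s : ∃ t, chk3 f_pp_012_s t 122 29 1 = true :=
  ⟨(b (a (b (b (l 16754712) (l 16763336)) (a (b (l 16762544) (c (l 16765960) (l 16765632))) (c (l 16767400) (l 16766936)))) (b (b (l 16750120) (l 16753536)) (b (l 16762136) (a (l 16761312) (l 16759072))))) (b (b (a (c (a (l 16763896) (l 16766952)) (a (b (l 16768088) (l 16769712)) (l 16766640))) (a (c (l 16764752) (l 16764368)) (l 16762344))) (a (b (a (c (l 16771496) (l 16771328)) (l 16766576)) (c (l 16773280) (a (l 16770312) (l 16770696)))) (a (a (l 16764400) (l 16767224)) (c (l 16765744) (l 16765384))))) (a (a (b (a (b (l 16775776) (c (l 16777976) (a (b (l 16776560)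 (l 82309023095)) (l 16776408)))) (c (l 16774848) (l 16774784))) (b (c (a (l 200957494567) (c (l 63518542151) (l 58686703319))) (a (b (l 181093270311) (l 3)) (b (l 16778064) (a (l 196125656311) (l 71034733927))))) (l 3))) (b (c (l 16774536) (l 16774424)) (b (c (l 16775560) (a (l 16776064) (l 16772336))) (c (a (b (l 68350379847) (l 212231783447)) (l 16777864)) (a (b (a (l 116668761495) (l 16776968)) (l 212231783431)) (a (b (l 16776432) (l 61907928311)) (l 16776272))))))) (c (a (a (b (l 16768976) (l 16774712)) (c (l 16774728) (l 16773992))) (b (l 16766272) (b (l 16771240) (a (l 16773328) (l 16772240))))) (a (b (a (l 16768808) (l 16767696)) (c (l 16774104) (l 16774056))) (b (b (l 16767824) (l 16769440)) (b (l 16771048) (a (l 16773208) (l 16772088))))))))), by decide +kernel⟩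

def k48_pp_012_s : ∃ t, chk3 f_pp_012_s t 123 29 1 = true :=
  ⟨(b (b (a (l 16752536) (l 16742776)) (a (a (l 16760432) (l 16763440)) (b (l 16747920) (l 16751272)))) (b (a (a (b (l 16760120) (l 16763360)) (b (l 16757904) (l 16761144))) (b (l 16759808) (a (l 16758920) (l 16756680)))) (a (b (a (c (l 16766720) (l 16766384)) (a (l 16764904) (l 16763784))) (a (b (l 16766312) (a (l 16771064) (l 16769952))) (c (l 16767648) (l 16769952)))) (a (b (l 16762112) (c (l 16765448) (l 16765056))) (b (l 16759864) (l 16763000)))))), by decide +kernel⟩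

def k49_pp_012_s : ∃ t, chk3 f_pp_012_s t 31 14 1 = true :=
  ⟨(a (b (b (a (b (a (l 16707848) (l 16703112)) (a (l 16715816) (l 16711144))) (b (a (l 16698376) (l 16693632)) (a (l 16706472) (l 16701776)))) (a (b (a (l 16723664) (l 16719048)) (a (l 16731128) (l 16726568))) (b (a (l 16714424) (l 16709744)) (a (l 16721952) (l 16717272))))) (b (a (b (a (l 16738272) (l 16733720)) (a (l 16750344) (l 16740560))) (b (a (l 16729112) (l 16724400)) (a (l 16735912) (l 16731184)))) (b (a (a (a (l 16763304) (l 16750544)) (c (l 16747648) (l 16746520))) (a (c (l 16743088) (l 16741736)) (c (l 16738456) (l 16736864)))) (a (a (b (l 16761704) (a (l 16760728) (l 16758440))) (b (l 16751856) (l 16760216))) (a (c (l 16754496) (l 16753400)) (c (l 16749840) (l 16748512))))))) (b (b (a (b (a (l 16688864) (l 16684016)) (a (l 16697016) (l 16692168))) (b (a (l 16679064) (l 16679208)) (a (l 16687184) (c (l 16684312) (l 16679704))))) (a (b (a (l 16704984) (l 16700104)) (a (l 16712488) (l 16707584))) (b (a (l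 16695096) (c (l 16692000) (l 16687816))) (a (l 16702560) (a (l 16698712) (l 16696096)))))) (a (b (b (a (l 16719592) (l 16714672)) (a (l 16726352) (l 16726656))) (b (a (c (l 16733736) (l 16731872)) (a (l 16729128) (l 16726616))) (a (c (l 16745088) (l 16743512)) (a (l 16735360) (l 16732848))))) (b (b (a (l 16714872) (a (l 16705768) (l 16703144))) (a (a (l 16717632) (l 16715072)) (a (l 16712480) (l 16709848)))) (b (a (a (l 16724080) (l 16721512)) (a (l 16718912) (l 14))) (a (a (l 16740784) (l 14)) (l 14))))))), by decide +kernel⟩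

def k50_pp_012_s : ∃ t, chk3 f_pp_012_s t 60 30 1 = true :=
  ⟨(l 3), by decide +kernel⟩

def k51_pp_012_s : ∃ t, chk3 f_pp_012_s t 122 60 1 = true :=
  ⟨(b (a (b (a (l 3) (a (l 3) (b (c (l 180019528823) (b (c (l 129553663879) (l 168745239143)) (l 3))) (l 3)))) (l 3)) (b (a (b (c (a (a (l 73182218279) (l 16776752)) (l 16775960)) (a (b (l 16777288) (a (l 164987143479) (l 47412413703))) (l 16775928))) (a (l 3) (c (b (l 51170510567) (l 185388237671)) (b (a (c (l 16777944) (l 91972699415)) (l 16776832)) (l 186461979479))))) (a (c (b (l 16772256) (l 16777728)) (b (l 16773496) (c (l 16777704) (b (l 16773376) (l 16777760))))) (c (l 16774568) (l 16775144)))) (a (l 3) (b (b (a (c (l 112373794663) (c (l 109152569175) (a (l 225653556007) (l 78550926567)))) (c (l 16776504) (l 16776480))) (a (l 3) (a (c (l 127943050519) (l 123648083303)) (c (l 16776992) (l 16777800))))) (c (l 219747977431) (a (l 3) (b (l 215453008935) (l 3)))))))) (l 3)), by decide +kernel⟩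

def k52_pp_012_s : ∃ t, chk3 f_pp_012_s t 246 60 1 = true :=
  ⟨(b (c (b (b (a (c (l 16772192) (l 16772112)) (l 16769960)) (a (c (l 16771104) (l 16771048)) (l 16768880))) (a (b (l 16776568) (a (b (l 16777920) (l 169818980999)) (l 16777568))) (c (l 16775168) (l 16775120)))) (a (b (b (l 16769368) (a (l 16771536) (l 16773024))) (b (c (l 16775208) (l 16775176)) (a (a (b (c (l 16777824) (l 62444799207)) (l 3)) (b (l 16776680) (a (l 169282110503) (l 87140860983)))) (b (l 16774528) (c (l 16776632) (l 16777280)))))) (b (b (l 16769720) (l 16768696)) (a (b (l 16773488) (c (l 16773808) (l 16772464))) (b (l 16772352) (l 16771336)))))) (b (a (a (l 3) (b (b (a (c (l 170892723463) (l 197736268391)) (b (l 16777456) (a (l 182703882935) (l 62981669559)))) (l 3)) (l 3))) (a (a (b (b (l 16776936) (b (a (l 102710117143) (l 16777056)) (l 176261432263))) (l 3)) (b (c (l 16776448) (b (l 16774720) (l 16777480))) (c (l 199346881511) (b (l 175724560887) (l 3))))) (b (c (l 16775624) (l 16775576)) (a (b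 (b (l 16777208) (a (l 134922371815) (l 16777456))) (l 222432330535)) (b (l 16776520) (c (l 79087797527) (b (l 16777744) (l 142438564759)))))))) (l 3))), by decide +kernel⟩

def k53_pp_012_s : ∃ t, chk3 f_pp_012_s t 247 60 1 = true :=
  ⟨(b (b (a (b (l 16767600) (a (l 16769728) (l 16768600))) (c (l 16766304) (l 16765936))) (b (a (c (l 16770840) (l 16768008)) (c (l 16768616) (l 16768320))) (a (a (b (l 16772488) (l 16771968)) (a (l 16772032) (l 16771472))) (c (l 16770160) (l 16769928))))) (b (a (a (c (b (c (l 16771912) (l 16771872)) (l 16776744)) (b (a (l 16773408) (l 16774144)) (c (l 16776712) (l 16776696)))) (b (c (l 16770776) (l 16773272)) (c (c (l 16772368) (l 16773648)) (c (l 16773608) (l 16773568))))) (a (c (b (l 16772280) (l 16772544)) (b (l 16772120) (l 16772432))) (b (l 16771064) (c (l 16772728) (l 16772576))))) (a (a (b (a (b (b (c (l 16777272) (l 94120182695)) (l 3)) (l 3)) (c (b (l 16776968) (l 208473686711)) (b (c (l 16776960) (l 16777616)) (l 208473686695)))) (l 3))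 (a (b (b (l 16776424) (c (l 61907928311) (b (l 16777008) (l 110226310167)))) (l 3)) (b (c (l 16776272) (l 16776896)) (b (b (a (l 129016791751) (l 27011318359)) (l 217063621143)) (l 3))))) (b (c (a (l 16775432) (c (l 16771704) (l 16771664))) (b (a (l 16773656) (l 16773800)) (l 16775856))) (c (a (b (l 16777920) (a (l 155860337879) (l 45264929991))) (l 16775888)) (c (a (b (l 16777248) (a (l 185388237367) (l 41506833527))) (l 16775856)) (a (b (a (l 16777520) (l 16774992)) (a (l 186998850087) (b (l 16776912) (l 88214602615)))) (l 16775832)))))))), by decide +kernel⟩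

def k54_pp_012_s : ∃ t, chk3 f_pp_012_s t 61 61 1 = true :=
  ⟨(a (l 3) (b (a (l 3) (b (b (a (l 3) (a (l 3) (a (b (c (l 86603990311) (b (a (l 91972698759) (l 16777016)) (l 157470950279))) (l 3)) (c (b (l 16776792) (l 134922372327)) (b (c (l 16776784) (l 16776776)) (c (l 169818980775) (b (l 103246988263) (l 3)))))))) (l 3)) (l 3))) (l 3))), by decide +kernel⟩

def k55_pp_012_s : ∃ t, chk3 f_pp_012_s t 30 31 1 = true :=
  ⟨(l 3), by decide +kernel⟩

def k56_pp_012_s : ∃ t, chk3 f_pp_012_s t 62 60 1 = true :=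
  ⟨(a (a (b (a (b (a (l 16764416) (l 16763272)) (c (l 16767144) (l 16769416))) (b (l 16761552) (c (l 16764888) (l 16764448)))) (b (a (c (b (l 16769472) (l 16768416)) (a (b (l 16769792) (l 16771416)) (l 16772056))) (c (b (l 16767216) (l 16768776)) (l 16770288))) (a (a (b (c (l 16770560) (l 16773040)) (b (a (l 16773296) (l 16774032)) (c (l 16773848) (l 16773776)))) (c (b (l 16772048) (c (l 16773656) (l 16773600))) (b (l 16771872) (a (l 16773800) (l 16773208))))) (a (b (l 16770808) (c (l 16772488) (l 16772328))) (b (l 16769648) (c (l 16771352) (l 16771144))))))) (a (b (b (l 16759240) (l 16767600)) (b (b (l 16764720) (l 16766304)) (b (l 16770520) (c (l 16769632) (l 16769360))))) (b (b (l 16756912) (l 16760024)) (b (l 16765792) (c (l 16769160) (l 16768768)))))) (a (a (b (c (l 16761744) (l 16760960)) (b (l 16760808) (c (l 16764224) (l 16763736)))) (b (b (l 16752184) (l 16755288)) (b (l 16758424) (l 16764216)))) (b (b (l 16753832) (a (l 16752888) (l 16750464))) (a (b (l 16756024) (l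 16759192)) (b (l 16753592) (l 14)))))), by decide +kernel⟩

def k57_pp_012_s : ∃ t, chk3 f_pp_012_s t 124 244 1 = true :=
  ⟨(a (a (b (a (a (b (l 16776544) (c (l 16777656) (a (b (l 16776968) (l 118279373463)) (l 16776872)))) (c (l 16776064) (l 16776032))) (b (c (l 16773504) (l 16773424)) (c (l 16774304) (c (l 16774264) (l 16774232))))) (b (c (a (a (l 214916137703) (a (l 106468213735) (l 16777744))) (l 16776408)) (a (a (l 215989879511) (a (b (l 16777504) (l 3)) (b (l 16776912) (l 96804536983)))) (c (l 16776392) (l 16776376)))) (a (l 3) (a (b (c (l 77477184503) (a (l 145659789975) (l 16777128))) (l 225116684871)) (b (l 16776720) (a (b (l 16777480) (l 140827951623)) (l 16777304))))))) (c (b (a (c (l 16772792) (l 16772744)) (l 16774248)) (a (l 16776328) (b (l 16774128) (l 16773616)))) (b (a (c (l 16771376) (l 16772304)) (l 16772784)) (b (a (c (l 16773912) (l 16773880)) (l 16774024)) (a (l 16776032) (l 16773536)))))) (a (a (b (a (l 16771984) (l 16771400)) (b (l 16774216) (a (l 16774016)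 (l 16773424)))) (b (l 16770520) (c (l 16772232) (l 16772048)))) (c (b (l 16768904) (l 16773112)) (b (l 16768600) (l 16771560))))), by decide +kernel⟩

def k58_pp_012_s : ∃ t, chk3 f_pp_012_s t 124 245 1 = true :=
  ⟨(a (a (a (l 3) (b (a (l 3) (a (l 3) (b (c (l 163913401255) (l 183777624487)) (l 3)))) (l 3))) (a (b (b (a (b (c (l 16776952) (l 16777264)) (a (l 183777624695) (b (l 16777104) (l 109689438727)))) (c (l 16776584) (l 16776568))) (a (l 3) (b (c (l 16777808) (a (l 99488891559) (l 16777032))) (c (l 110226311047) (l 193978171831))))) (l 3)) (b (c (c (l 16777120) (b (l 16774408) (l 16777176))) (b (c (l 16774376) (l 16774352)) (c (a (l 16777448) (l 16774912)) (a (l 16777440) (l 16774888))))) (c (b (a (l 171966464471) (a (l 52244251639) (l 16776896))) (l 220284847191)) (b (b (a (a (l 3) (l 76940313255)) (l 16776832)) (a (l 3) (a (l 125258695335) (l 16777416)))) (c (l 221895459911) (l 222969201719))))))) (a (c (b (b (a (l 16773272) (l 16773424)) (a (c (l 16774088) (l 16774056))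 (l 16774224))) (b (c (l 16776280) (l 16776248)) (a (a (b (l 16777712) (l 133848630119)) (l 16776696)) (a (l 16774816) (l 16775544))))) (b (a (b (l 16773176) (c (l 16774024) (l 16773992))) (a (l 16772696) (l 16773408))) (a (b (l 16776480) (a (a (b (l 55465476759) (l 3)) (b (l 16776920) (l 101099504295))) (c (l 16776688) (l 16776672)))) (a (b (l 16775256) (a (l 16775584) (l 16775936))) (b (l 16774656) (l 16774176)))))) (b (a (b (l 16772184) (l 16774304)) (a (l 16771704) (l 16771112))) (b (a (c (l 16773872) (l 16773752)) (l 16772632)) (a (a (b (l 16774720) (l 16775792)) (l 16774992)) (l 14)))))), by decide +kernel⟩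

def k59_pp_012_s : ∃ t, chk3 f_pp_012_s t 125 122 1 = true :=
  ⟨(a (b (a (b (l 16766384) (l 16769640)) (c (l 16767648) (l 16767184))) (a (a (b (l 16770216) (l 14)) (l 14)) (l 14))) (l 14)), by decide +kernel⟩

def k60_pp_012_s : ∃ t, chk3 f_pp_012_s t 62 123 1 = true :=
  ⟨(a (a (l 3) (b (b (b (b (a (a (a (l 3) (c (l 85530248039) (a (l 155860337239) (l 37748736583)))) (c (l 16776440) (l 16776416))) (a (c (l 16773968) (l 16773904)) (l 14))) (a (a (l 3) (a (b (c (l 16777024) (l 16777344)) (a (l 148881015271) (l 16777416))) (c (l 16775248) (l 16775880)))) (l 14))) (a (a (l 3) (b (a (c (l 151028499303) (a (l 3) (l 125795566247))) (c (l 16776952) (c (l 16776944) (l 16777592)))) (a (l 3) (l 14)))) (l 14))) (a (l 3) (l 14))) (l 14))) (l 14)), by decide +kernel⟩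

def k61_pp_012_s : ∃ t, chk3 f_pp_012_s t 63 30 1 = true :=
  ⟨(a (b (b (b (a (l 16748944) (l 16743960)) (a (a (l 16748024) (l 14)) (l 14))) (l 14)) (l 14)) (l 14)), by decide +kernel⟩

def k62_pp_012_s : ∃ t, chk3 f_pp_012_s t 31 31 1 = true :=
  ⟨(a (a (l 3) (l 14)) (l 14)), by decide +kernel⟩

theorem s63_pp_012_s : ∃ t, chk3 f_pp_012_s t 124 122 1 = true := ex3_b k57_pp_012_s k58_pp_012_s

theorem s64_pp_012_s : ∃ t, chk3 f_pp_012_s t 62 122 1 = true := ex3_a s63_pp_012_s k59_pp_012_s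

theorem s65_pp_012_s : ∃ t, chk3 f_pp_012_s t 62 61 1 = true := ex3_b s64_pp_012_s k60_pp_012_s

theorem s66_pp_012_s : ∃ t, chk3 f_pp_012_s t 62 30 1 = true := ex3_b k56_pp_012_s s65_pp_012_s

theorem s67_pp_012_s : ∃ t, chk3 f_pp_012_s t 31 30 1 = true := ex3_a s66_pp_012_s k61_pp_012_s

theorem s68_pp_012_s : ∃ t, chk3 f_pp_012_s t 31 15 1 = true := ex3_b s67_pp_012_s k62_pp_012_s

theorem s69_pp_012_s : ∃ t, chk3 f_pp_012_s t 123 60 1 = true := ex3_a k52_pp_012_s k53_pp_012_s

theorem s70_pp_012_s : ∃ t, chk3 f_pp_012_s t 61 60 1 = true := ex3_a k51_pp_012_s s69_pp_012_s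

theorem s71_pp_012_s : ∃ t, chk3 f_pp_012_s t 61 30 1 = true := ex3_b s70_pp_012_s k54_pp_012_s

theorem s72_pp_012_s : ∃ t, chk3 f_pp_012_s t 30 30 1 = true := ex3_a k50_pp_012_s s71_pp_012_s

theorem s73_pp_012_s : ∃ t, chk3 f_pp_012_s t 30 15 1 = true := ex3_b s72_pp_012_s k55_pp_012_s

theorem s74_pp_012_s : ∃ t, chk3 f_pp_012_s t 15 15 1 = true := ex3_a s73_pp_012_s s68_pp_012_s

theorem s75_pp_012_s : ∃ t, chk3 f_pp_012_s t 61 29 1 = true := ex3_a k47_pp_012_s k48_pp_012_s

theorem s76_pp_012_s : ∃ t, chk3 f_pp_012_s t 60 29 1 = true := ex3_b k45_pp_012_s k46_pp_012_s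

theorem s77_pp_012_s : ∃ t, chk3 f_pp_012_s t 30 29 1 = true := ex3_a s76_pp_012_s s75_pp_012_s

theorem s78_pp_012_s : ∃ t, chk3 f_pp_012_s t 30 14 1 = true := ex3_b k44_pp_012_s s77_pp_012_s

theorem s79_pp_012_s : ∃ t, chk3 f_pp_012_s t 15 14 1 = true := ex3_a s78_pp_012_s k49_pp_012_s

theorem s80_pp_012_s : ∃ t, chk3 f_pp_012_s t 15 7 1 = true := ex3_b s79_pp_012_s s74_pp_012_s

theorem s81_pp_012_s : ∃ t, chk3 f_pp_012_s t 29 28 1 = true := ex3_a k40_pp_012_s k41_pp_012_s

theorem s82_pp_012_s : ∃ t, chk3 f_pp_012_s t 29 14 1 = true := ex3_b s81_pp_012_s k42_pp_012_s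

theorem s83_pp_012_s : ∃ t, chk3 f_pp_012_s t 14 14 1 = true := ex3_a k39_pp_012_s s82_pp_012_s

theorem s84_pp_012_s : ∃ t, chk3 f_pp_012_s t 14 7 1 = true := ex3_b s83_pp_012_s k43_pp_012_s

theorem s85_pp_012_s : ∃ t, chk3 f_pp_012_s t 7 7 1 = true := ex3_a s84_pp_012_s s80_pp_012_s

theorem s86_pp_012_s : ∃ t, chk3 f_pp_012_s t 15 13 1 = true := ex3_a k37_pp_012_s k38_pp_012_s

theorem s87_pp_012_s : ∃ t, chk3 f_pp_012_s t 15 6 1 = true := ex3_b k36_pp_012_s s86_pp_012_s

theorem s88_pp_012_s : ∃ t, chk3 f_pp_012_s t 28 13 1 = true := ex3_b k33_pp_012_s k34_pp_012_s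

theorem s89_pp_012_s : ∃ t, chk3 f_pp_012_s t 28 6 1 = true := ex3_b k32_pp_012_s s88_pp_012_s

theorem s90_pp_012_s : ∃ t, chk3 f_pp_012_s t 14 6 1 = true := ex3_a s89_pp_012_s k35_pp_012_s

theorem s91_pp_012_s : ∃ t, chk3 f_pp_012_s t 7 6 1 = true := ex3_a s90_pp_012_s s87_pp_012_s

theorem s92_pp_012_s : ∃ t, chk3 f_pp_012_s t 7 3 1 = true := ex3_b s91_pp_012_s s85_pp_012_s

theorem s93_pp_012_s : ∃ t, chk3 f_pp_012_s t 7 1 1 = true := ex3_b k31_pp_012_s s92_pp_012_s

theorem s94_pp_012_s : ∃ t, chk3 f_pp_012_s t 13 12 1 = true := ex3_a k27_pp_012_s k28_pp_012_s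

theorem s95_pp_012_s : ∃ t, chk3 f_pp_012_s t 13 6 1 = true := ex3_b s94_pp_012_s k29_pp_012_s

theorem s96_pp_012_s : ∃ t, chk3 f_pp_012_s t 6 6 1 = true := ex3_a k26_pp_012_s s95_pp_012_s

theorem s97_pp_012_s : ∃ t, chk3 f_pp_012_s t 6 3 1 = true := ex3_b s96_pp_012_s k30_pp_012_s

theorem s98_pp_012_s : ∃ t, chk3 f_pp_012_s t 25 11 1 = true := ex3_b k23_pp_012_s k24_pp_012_s

theorem s99_pp_012_s : ∃ t, chk3 f_pp_012_s t 24 22 1 = true := ex3_a k20_pp_012_s k21_pp_012_s

theorem s100_pp_012_s : ∃ t, chk3 f_pp_012_s t 24 11 1 = true := ex3_b s99_pp_012_s k22_pp_012_s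

theorem s101_pp_012_s : ∃ t, chk3 f_pp_012_s t 12 11 1 = true := ex3_a s100_pp_012_s s98_pp_012_s

theorem s102_pp_012_s : ∃ t, chk3 f_pp_012_s t 12 5 1 = true := ex3_b k19_pp_012_s s101_pp_012_s

theorem s103_pp_012_s : ∃ t, chk3 f_pp_012_s t 12 2 1 = true := ex3_b k18_pp_012_s s102_pp_012_s

theorem s104_pp_012_s : ∃ t, chk3 f_pp_012_s t 6 2 1 = true := ex3_a s103_pp_012_s k25_pp_012_s

theorem s105_pp_012_s : ∃ t, chk3 f_pp_012_s t 6 1 1 = true := ex3_b s104_pp_012_s s97_pp_012_s

theorem s106_pp_012_s : ∃ t, chk3 f_pp_012_s t 3 1 1 = true := ex3_a s105_pp_012_s s93_pp_012_s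

theorem s107_pp_012_s : ∃ t, chk3 f_pp_012_s t 95 43 1 = true := ex3_b k14_pp_012_s k15_pp_012_s

theorem s108_pp_012_s : ∃ t, chk3 f_pp_012_s t 47 43 1 = true := ex3_a k13_pp_012_s s107_pp_012_s

theorem s109_pp_012_s : ∃ t, chk3 f_pp_012_s t 188 341 1 = true := ex3_a k8_pp_012_s k9_pp_012_s

theorem s110_pp_012_s : ∃ t, chk3 f_pp_012_s t 188 170 1 = true := ex3_b k7_pp_012_s s109_pp_012_s

theorem s111_pp_012_s : ∃ t, chk3 f_pp_012_s t 188 85 1 = true := ex3_b s110_pp_012_s k10_pp_012_s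

theorem s112_pp_012_s : ∃ t, chk3 f_pp_012_s t 94 85 1 = true := ex3_a s111_pp_012_s k11_pp_012_s

theorem s113_pp_012_s : ∃ t, chk3 f_pp_012_s t 94 42 1 = true := ex3_b k6_pp_012_s s112_pp_012_s

theorem s114_pp_012_s : ∃ t, chk3 f_pp_012_s t 47 42 1 = true := ex3_a s113_pp_012_s k12_pp_012_s

theorem s115_pp_012_s : ∃ t, chk3 f_pp_012_s t 47 21 1 = true := ex3_b s114_pp_012_s s108_pp_012_s

theorem s116_pp_012_s : ∃ t, chk3 f_pp_012_s t 23 21 1 = true := ex3_a k5_pp_012_s s115_pp_012_s

theorem s117_pp_012_s : ∃ t, chk3 f_pp_012_s t 23 10 1 = true := ex3_b k4_pp_012_s s116_pp_012_s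

theorem s118_pp_012_s : ∃ t, chk3 f_pp_012_s t 11 10 1 = true := ex3_a k3_pp_012_s s117_pp_012_s

theorem s119_pp_012_s : ∃ t, chk3 f_pp_012_s t 11 5 1 = true := ex3_b s118_pp_012_s k16_pp_012_s

theorem s120_pp_012_s : ∃ t, chk3 f_pp_012_s t 11 2 1 = true := ex3_b k2_pp_012_s s119_pp_012_s

theorem s121_pp_012_s : ∃ t, chk3 f_pp_012_s t 5 2 1 = true := ex3_a k1_pp_012_s s120_pp_012_s

theorem s122_pp_012_s : ∃ t, chk3 f_pp_012_s t 2 2 1 = true := ex3_a k0_pp_012_s s121_pp_012_s

theorem s123_pp_012_s : ∃ t, chk3 f_pp_012_s t 2 1 1 = true := ex3_b s122_pp_012_s k17_pp_012_s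

theorem s124_pp_012_s : ∃ t, chk3 f_pp_012_s t 1 1 1 = true := ex3_a s123_pp_012_s s106_pp_012_s

theorem c_pp_012_s : CertNE 0 536870912 0 536870912 740881858 40050571 3 eng mog cd0q0 cd0q2 pd1 false true true .pnp 0 1 2
    ndB0q0 ndB0q2 pcB1 cut_pp_012_s Ext.none :=
  certNE2 (fam := false) (s1 := true) (s2 := true) (a := 0) (b := 1) (c := 2) (cn := .pnp) (n1 := ndB0q0) (n2 := ndB0q2) (pc := pcB1) (cut := cut_pp_012_s) (xt := Ext.none) (P1 := 0) (W1 := 536870912) (P2 := 0) (W2 := 536870912) (P3 := 740881858) (W3 := 40050571) (N0 := 3) (En := eng) (mo := mog) (C1 := cd0q0) (C2 := cd0q2) (C3 := pd1)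
    rfl (fun _ => rfl) s124_pp_012_s

noncomputable def cut_pp_012_t : Cut := Cut.of [[⟨3, 0, 0, 2845415833⟩], [⟨0, 0, 0, 53687091⟩, ⟨1, 1, 0, 53687091⟩, ⟨2, 1, 0, 53687091⟩]]

noncomputable def f_pp_012_t : ℕ → ℕ → ℕ → ℕ → Bool := onCell 0 536870912 0 536870912 740881858 40050571
    (rowNE 3 eng mog cd0q0 cd0q2 pd1 0 false true true .pnp 0 1 2 (qsf 0 536870912 0 536870912 1) ndB0q0 ndB0q2 pcB1 cut_pp_012_t Ext.none)

def k0_pp_012_t : ∃ t, chk3 f_pp_012_t t 1 1 1 = true :=
  ⟨(l 6), by decide +kernel⟩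

theorem c_pp_012_t : CertNE 0 536870912 0 536870912 740881858 40050571 3 eng mog cd0q0 cd0q2 pd1 false true true .pnp 0 1 2
    ndB0q0 ndB0q2 pcB1 cut_pp_012_t Ext.none :=
  certNE0 (fam := false) (s1 := true) (s2 := true) (a := 0) (b := 1) (c := 2) (cn := .pnp) (n1 := ndB0q0) (n2 := ndB0q2) (pc := pcB1) (cut := cut_pp_012_t) (xt := Ext.none) (P1 := 0) (W1 := 536870912) (P2 := 0) (W2 := 536870912) (P3 := 740881858) (W3 := 40050571) (N0 := 3) (En := eng) (mo := mog) (C1 := cd0q0) (C2 := cd0q2) (C3 := pd1)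
    rfl k0_pp_012_t

noncomputable def cut_pp_022_s : Cut := Cut.of [[⟨4, 0, 0, 1449551462⟩], [⟨0, 0, 0, 67108864⟩, ⟨1, 1, 0, 67108864⟩, ⟨2, 1, 0, 67108864⟩]]

noncomputable def f_pp_022_s : ℕ → ℕ → ℕ → ℕ → Bool := onCell 1073741824 536870912 0 536870912 740881858 40050571
    (rowNE 3 eng mog cd0q0 cd0q2 pd2 2 false true true .pp 0 2 2 (qsf 0 536870912 0 536870912 2) ndB0q0 ndB0q2 pcB2 cut_pp_022_s Ext.none)

def k0_pp_022_s : ∃ t, chk3 f_pp_022_s t 4 2 1 = true :=
  ⟨(b (l 6) (a (b (l 6) (a (b (l 6) (b (a (a (l 16545896) (l 16551688)) (l 6)) (a (a (l 16556760) (l 16562448)) (l 16585192)))) (l 6))) (l 6))), by decide +kernel⟩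

def k1_pp_022_s : ∃ t, chk3 f_pp_022_s t 8 3 1 = true :=
  ⟨(b (b (a (a (b (a (c (l 16597392) (l 16566664)) (c (l 16581152) (l 16573016))) (a (b (c (l 16588896) (l 16579992)) (c (l 16599376) (l 16591312))) (b (l 16589976) (l 16621224)))) (b (c (l 16586808) (l 16581016)) (a (b (l 16594648) (l 16604552)) (b (l 16598784) (l 16608408))))) (b (a (c (l 16592520) (l 16589760)) (a (l 16578424) (l 16566832))) (a (c (l 16610344) (l 16607872)) (a (l 16593856) (l 16594000))))) (a (a (b (a (b (l 16629656) (c (l 16625016) (l 16618888))) (b (l 16613248) (l 16626480))) (a (b (b (l 16631680) (l 16658824)) (a (b (l 16642680) (l 16648544)) (l 16647984))) (b (l 16639248) (l 16651296)))) (b (b (l 16619264) (l 16632424)) (a (b (l 16643312) (l 16655352)) (l 16653192)))) (a (b (l 16626864) (b (l 16636808) (l 16644176))) (b (a (l 16606432) (b (l 16589976) (l 16594528))) (a (b (l 16614672) (l 16620848)) (b (l 16599344) (l 16604728))))))) (a (b (b (b (a (a (b (c (l 16668192) (l 16653256)) (a (c (l 16662336)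 (l 16657704)) (l 16662400))) (l 16683816)) (a (l 16666904) (l 16670520))) (b (a (a (a (c (l 16678784) (l 16663880)) (l 16668472)) (l 16671824)) (l 16646304)) (l 14))) (l 14)) (l 14)) (b (b (a (a (b (l 16659880) (l 16667072)) (b (l 16643816) (l 16650136))) (b (a (l 16627312) (a (l 16614656) (l 16606080))) (a (l 16653736) (a (l 16619464) (l 84321997031))))) (a (l 14) (a (l 14) (a (l 14) (l 1))))) (a (l 14) (l 1))))), by decide +kernel⟩

def k2_pp_022_s : ∃ t, chk3 f_pp_022_s t 9 3 1 = true :=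
  ⟨(b (b (b (l 6) (a (b (a (a (l 16564304) (l 6)) (l 6)) (a (a (l 16570880) (l 16556656)) (a (l 16541992) (l 6)))) (l 6))) (a (b (a (a (b (l 16575512) (l 16579144)) (b (l 16560496) (l 16563024))) (a (b (l 16545096) (l 16546552)) (b (l 16529320) (l 16529720)))) (a (a (b (l 16582984) (a (l 16591944) (l 16582760))) (b (l 16565704) (l 97743700039))) (a (b (l 16548104) (l 1)) (l 1)))) (a (a (b (b (l 148209439799) (l 1)) (l 1)) (l 1)) (l 1)))) (b (a (b (a (b (a (a (l 16617816) (l 16587000)) (l 46204105079)) (a (a (l 16600664) (l 1)) (l 1))) (l 1)) (l 1)) (l 1)) (l 1))), by decide +kernel⟩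

def k3_pp_022_s : ∃ t, chk3 f_pp_022_s t 5 1 1 = true :=
  ⟨(b (l 6) (b (l 1) (l 1))), by decide +kernel⟩

def k4_pp_022_s : ∃ t, chk3 f_pp_022_s t 3 1 1 = true :=
  ⟨(l 1), by decide +kernel⟩

theorem s5_pp_022_s : ∃ t, chk3 f_pp_022_s t 4 3 1 = true := ex3_a k1_pp_022_s k2_pp_022_s

theorem s6_pp_022_s : ∃ t, chk3 f_pp_022_s t 4 1 1 = true := ex3_b k0_pp_022_s s5_pp_022_s

theorem s7_pp_022_s : ∃ t, chk3 f_pp_022_s t 2 1 1 = true := ex3_a s6_pp_022_s k3_pp_022_s

theorem s8_pp_022_s : ∃ t, chk3 f_pp_022_s t 1 1 1 = true := ex3_a s7_pp_022_s k4_pp_022_s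

theorem c_pp_022_s : CertNE 0 536870912 0 536870912 740881858 40050571 3 eng mog cd0q0 cd0q2 pd2 false true true .pp 0 2 2
    ndB0q0 ndB0q2 pcB2 cut_pp_022_s Ext.none :=
  certNE2 (fam := false) (s1 := true) (s2 := true) (a := 0) (b := 2) (c := 2) (cn := .pp) (n1 := ndB0q0) (n2 := ndB0q2) (pc := pcB2) (cut := cut_pp_022_s) (xt := Ext.none) (P1 := 0) (W1 := 536870912) (P2 := 0) (W2 := 536870912) (P3 := 740881858) (W3 := 40050571) (N0 := 3) (En := eng) (mo := mog) (C1 := cd0q0) (C2 := cd0q2) (C3 := pd2)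
    rfl (fun _ => rfl) s8_pp_022_s

noncomputable def cut_pp_022_t : Cut := Cut.of [[⟨3, 0, 0, 2845415833⟩], [⟨0, 0, 0, 67108864⟩, ⟨1, 1, 0, 67108864⟩, ⟨2, 1, 0, 67108864⟩]]

noncomputable def f_pp_022_t : ℕ → ℕ → ℕ → ℕ → Bool := onCell 0 536870912 0 536870912 740881858 40050571
    (rowNE 3 eng mog cd0q0 cd0q2 pd2 0 false true true .pp 0 2 2 (qsf 0 536870912 0 536870912 2) ndB0q0 ndB0q2 pcB2 cut_pp_022_t Ext.none)

def k0_pp_022_t : ∃ t, chk3 f_pp_022_t t 1 1 1 = true :=
  ⟨(l 6), by decide +kernel⟩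

theorem c_pp_022_t : CertNE 0 536870912 0 536870912 740881858 40050571 3 eng mog cd0q0 cd0q2 pd2 false true true .pp 0 2 2
    ndB0q0 ndB0q2 pcB2 cut_pp_022_t Ext.none :=
  certNE0 (fam := false) (s1 := true) (s2 := true) (a := 0) (b := 2) (c := 2) (cn := .pp) (n1 := ndB0q0) (n2 := ndB0q2) (pc := pcB2) (cut := cut_pp_022_t) (xt := Ext.none) (P1 := 0) (W1 := 536870912) (P2 := 0) (W2 := 536870912) (P3 := 740881858) (W3 := 40050571) (N0 := 3) (En := eng) (mo := mog) (C1 := cd0q0) (C2 := cd0q2) (C3 := pd2)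
    rfl k0_pp_022_t

noncomputable def cut_pp_101_s : Cut := Cut.of [[⟨4, 0, 0, 1449551462⟩]]

noncomputable def f_pp_101_s : ℕ → ℕ → ℕ → ℕ → Bool := onCell 536870912 536870912 536870912 536870912 740881858 40050571
    (rowNE 3 eng mog cd0q1 cd0q1 pd0 0 false true true .npn 1 0 1 (qsf 536870912 536870912 536870912 536870912 0) ndB0q1 ndB0q1 pcB0 cut_pp_101_s Ext.none)

def k0_pp_101_s : ∃ t, chk3 f_pp_101_s t 1 1 1 = true :=
  ⟨(l 3), by decide +kernel⟩

theorem c_pp_101_s : CertNE 536870912 536870912 536870912 536870912 740881858 40050571 3 eng mog cd0q1 cd0q1 pd0 false true true .npn 1 0 1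
    ndB0q1 ndB0q1 pcB0 cut_pp_101_s Ext.none :=
  certNE0 (fam := false) (s1 := true) (s2 := true) (a := 1) (b := 0) (c := 1) (cn := .npn) (n1 := ndB0q1) (n2 := ndB0q1) (pc := pcB0) (cut := cut_pp_101_s) (xt := Ext.none) (P1 := 536870912) (W1 := 536870912) (P2 := 536870912) (W2 := 536870912) (P3 := 740881858) (W3 := 40050571) (N0 := 3) (En := eng) (mo := mog) (C1 := cd0q1) (C2 := cd0q1) (C3 := pd0)
    rfl k0_pp_101_s

noncomputable def cut_pp_101_t : Cut := Cut.of [[⟨3, 0, 0, 2845415833⟩]]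

noncomputable def f_pp_101_t : ℕ → ℕ → ℕ → ℕ → Bool := onCell 536870912 536870912 536870912 536870912 740881858 40050571
    (rowNE 3 eng mog cd0q1 cd0q1 pd0 0 false true true .npn 1 0 1 (qsf 536870912 536870912 536870912 536870912 0) ndB0q1 ndB0q1 pcB0 cut_pp_101_t Ext.none)

def k0_pp_101_t : ∃ t, chk3 f_pp_101_t t 1 1 1 = true :=
  ⟨(l 3), by decide +kernel⟩

theorem c_pp_101_t : CertNE 536870912 536870912 536870912 536870912 740881858 40050571 3 eng mog cd0q1 cd0q1 pd0 false true true .npn 1 0 1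
    ndB0q1 ndB0q1 pcB0 cut_pp_101_t Ext.none :=
  certNE0 (fam := false) (s1 := true) (s2 := true) (a := 1) (b := 0) (c := 1) (cn := .npn) (n1 := ndB0q1) (n2 := ndB0q1) (pc := pcB0) (cut := cut_pp_101_t) (xt := Ext.none) (P1 := 536870912) (W1 := 536870912) (P2 := 536870912) (W2 := 536870912) (P3 := 740881858) (W3 := 40050571) (N0 := 3) (En := eng) (mo := mog) (C1 := cd0q1) (C2 := cd0q1) (C3 := pd0)
    rfl k0_pp_101_t

noncomputable def cut_pp_102_s : Cut := Cut.of [[⟨4, 0, 0, 1449551462⟩]]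

noncomputable def f_pp_102_s : ℕ → ℕ → ℕ → ℕ → Bool := onCell 0 536870912 0 536870912 740881858 40050571
    (rowNE 3 eng mog cd0q1 cd0q2 pd0 2 false true true .npp 1 0 2 (qsf 536870912 536870912 0 536870912 0) ndB0q1 ndB0q2 pcB0 cut_pp_102_s Ext.none)

def k0_pp_102_s : ∃ t, chk3 f_pp_102_s t 1 1 1 = true :=
  ⟨(a (b (l 3) (l 3)) (l 3)), by decide +kernel⟩

theorem c_pp_102_s : CertNE 536870912 536870912 0 536870912 740881858 40050571 3 eng mog cd0q1 cd0q2 pd0 false true true .npp 1 0 2
    ndB0q1 ndB0q2 pcB0 cut_pp_102_s Ext.none :=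
  certNE2 (fam := false) (s1 := true) (s2 := true) (a := 1) (b := 0) (c := 2) (cn := .npp) (n1 := ndB0q1) (n2 := ndB0q2) (pc := pcB0) (cut := cut_pp_102_s) (xt := Ext.none) (P1 := 536870912) (W1 := 536870912) (P2 := 0) (W2 := 536870912) (P3 := 740881858) (W3 := 40050571) (N0 := 3) (En := eng) (mo := mog) (C1 := cd0q1) (C2 := cd0q2) (C3 := pd0)
    rfl (fun _ => rfl) k0_pp_102_s

noncomputable def cut_pp_102_t : Cut := Cut.of [[⟨3, 0, 0, 2845415833⟩]]

noncomputable def f_pp_102_t : ℕ → ℕ → ℕ → ℕ → Bool := onCell 536870912 536870912 0 536870912 740881858 40050571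
    (rowNE 3 eng mog cd0q1 cd0q2 pd0 0 false true true .npp 1 0 2 (qsf 536870912 536870912 0 536870912 0) ndB0q1 ndB0q2 pcB0 cut_pp_102_t Ext.none)

def k0_pp_102_t : ∃ t, chk3 f_pp_102_t t 1 1 1 = true :=
  ⟨(l 6), by decide +kernel⟩

theorem c_pp_102_t : CertNE 536870912 536870912 0 536870912 740881858 40050571 3 eng mog cd0q1 cd0q2 pd0 false true true .npp 1 0 2
    ndB0q1 ndB0q2 pcB0 cut_pp_102_t Ext.none :=
  certNE0 (fam := false) (s1 := true) (s2 := true) (a := 1) (b := 0) (c := 2) (cn := .npp) (n1 := ndB0q1) (n2 := ndB0q2) (pc := pcB0) (cut := cut_pp_102_t) (xt := Ext.none) (P1 := 536870912) (W1 := 536870912) (P2 := 0) (W2 := 536870912) (P3 := 740881858) (W3 := 40050571) (N0 := 3) (En := eng) (mo := mog) (C1 := cd0q1) (C2 := cd0q2) (C3 := pd0)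
    rfl k0_pp_102_t

noncomputable def cut_pp_112_s : Cut := Cut.of [[⟨4, 0, 0, 1449551462⟩]]

noncomputable def f_pp_112_s : ℕ → ℕ → ℕ → ℕ → Bool := onCell 536870912 536870912 0 536870912 740881858 40050571
    (rowNE 3 eng mog cd0q1 cd0q2 pd1 0 false true true .dn 1 1 2 (qsf 536870912 536870912 0 536870912 1) ndB0q1 ndB0q2 pcB1 cut_pp_112_s Ext.none)

def k0_pp_112_s : ∃ t, chk3 f_pp_112_s t 1 1 1 = true :=
  ⟨(a (b (a (b (a (a (b (b (a (a (l 16726920) (l 16754576)) (b (l 16757816) (l 16771448))) (a (b (c (l 16772008) (l 16750080)) (a (l 16761128) (b (l 16764616) (l 16782216)))) (b (a (l 16760944) (l 16767824)) (a (b (l 16771544) (a (l 84993388759) (l 148344140679))) (b (b (l 84456517639) (l 145122915319)) (l 3)))))) (b (a (b (a (b (l 16782376) (a (l 88214606151) (l 155860332679))) (b (a (l 87677734711) (l 150491623991)) (l 3))) (l 3)) (l 3)) (l 3))) (b (b (a (a (l 16753720) (l 16771016)) (b (l 16779512) (a (b (l 16770928) (b (l 16783672) (l 119889998791))) (b (b (l 16780968)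 (l 119353127799)) (l 3))))) (a (b (a (b (l 16771200) (b (l 39896231687) (l 122574353575))) (b (b (l 39359360535) (l 120963740663)) (l 3))) (l 3)) (l 3))) (l 3))) (b (a (b (a (b (a (b (l 16770744) (l 97341406727)) (b (b (l 16780872) (l 120963740295)) (l 3))) (l 3)) (l 3)) (l 3)) (l 3)) (l 3))) (l 3)) (l 3)) (l 3)) (l 1)), by decide +kernel⟩

theorem c_pp_112_s : CertNE 536870912 536870912 0 536870912 740881858 40050571 3 eng mog cd0q1 cd0q2 pd1 false true true .dn 1 1 2
    ndB0q1 ndB0q2 pcB1 cut_pp_112_s Ext.none :=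
  certNE0 (fam := false) (s1 := true) (s2 := true) (a := 1) (b := 1) (c := 2) (cn := .dn) (n1 := ndB0q1) (n2 := ndB0q2) (pc := pcB1) (cut := cut_pp_112_s) (xt := Ext.none) (P1 := 536870912) (W1 := 536870912) (P2 := 0) (W2 := 536870912) (P3 := 740881858) (W3 := 40050571) (N0 := 3) (En := eng) (mo := mog) (C1 := cd0q1) (C2 := cd0q2) (C3 := pd1)
    rfl k0_pp_112_s

noncomputable def cut_pp_112_t : Cut := Cut.of [[⟨3, 0, 0, 2845415833⟩]]

noncomputable def f_pp_112_t : ℕ → ℕ → ℕ → ℕ → Bool := onCell 536870912 536870912 0 536870912 740881858 40050571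
    (rowNE 3 eng mog cd0q1 cd0q2 pd1 0 false true true .dn 1 1 2 (qsf 536870912 536870912 0 536870912 1) ndB0q1 ndB0q2 pcB1 cut_pp_112_t Ext.none)

def k0_pp_112_t : ∃ t, chk3 f_pp_112_t t 1 1 1 = true :=
  ⟨(l 6), by decide +kernel⟩

theorem c_pp_112_t : CertNE 536870912 536870912 0 536870912 740881858 40050571 3 eng mog cd0q1 cd0q2 pd1 false true true .dn 1 1 2
    ndB0q1 ndB0q2 pcB1 cut_pp_112_t Ext.none :=
  certNE0 (fam := false) (s1 := true) (s2 := true) (a := 1) (b := 1) (c := 2) (cn := .dn) (n1 := ndB0q1) (n2 := ndB0q2) (pc := pcB1) (cut := cut_pp_112_t) (xt := Ext.none) (P1 := 536870912) (W1 := 536870912) (P2 := 0) (W2 := 536870912) (P3 := 740881858) (W3 := 40050571) (N0 := 3) (En := eng) (mo := mog) (C1 := cd0q1) (C2 := cd0q2) (C3 := pd1)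
    rfl k0_pp_112_t

noncomputable def cut_pp_202_s : Cut := Cut.of [[⟨4, 0, 0, 1449551462⟩]]

noncomputable def f_pp_202_s : ℕ → ℕ → ℕ → ℕ → Bool := onCell 0 536870912 0 536870912 740881858 40050571
    (rowNE 3 eng mog cd0q2 cd0q2 pd0 0 false true true .pp 2 0 2 (qsf 0 536870912 0 536870912 0) ndB0q2 ndB0q2 pcB0 cut_pp_202_s Ext.none)

def k0_pp_202_s : ∃ t, chk3 f_pp_202_s t 1 1 1 = true :=
  ⟨(l 3), by decide +kernel⟩

theorem c_pp_202_s : CertNE 0 536870912 0 536870912 740881858 40050571 3 eng mog cd0q2 cd0q2 pd0 false true true .pp 2 0 2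
    ndB0q2 ndB0q2 pcB0 cut_pp_202_s Ext.none :=
  certNE0 (fam := false) (s1 := true) (s2 := true) (a := 2) (b := 0) (c := 2) (cn := .pp) (n1 := ndB0q2) (n2 := ndB0q2) (pc := pcB0) (cut := cut_pp_202_s) (xt := Ext.none) (P1 := 0) (W1 := 536870912) (P2 := 0) (W2 := 536870912) (P3 := 740881858) (W3 := 40050571) (N0 := 3) (En := eng) (mo := mog) (C1 := cd0q2) (C2 := cd0q2) (C3 := pd0)
    rfl k0_pp_202_s

noncomputable def cut_pp_202_t : Cut := Cut.of [[⟨3, 0, 0, 2845415833⟩]]

noncomputable def f_pp_202_t : ℕ → ℕ → ℕ → ℕ → Bool := onCell 0 536870912 0 536870912 740881858 40050571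
    (rowNE 3 eng mog cd0q2 cd0q2 pd0 0 false true true .pp 2 0 2 (qsf 0 536870912 0 536870912 0) ndB0q2 ndB0q2 pcB0 cut_pp_202_t Ext.none)

def k0_pp_202_t : ∃ t, chk3 f_pp_202_t t 1 1 1 = true :=
  ⟨(l 3), by decide +kernel⟩

theorem c_pp_202_t : CertNE 0 536870912 0 536870912 740881858 40050571 3 eng mog cd0q2 cd0q2 pd0 false true true .pp 2 0 2
    ndB0q2 ndB0q2 pcB0 cut_pp_202_t Ext.none :=
  certNE0 (fam := false) (s1 := true) (s2 := true) (a := 2) (b := 0) (c := 2) (cn := .pp) (n1 := ndB0q2) (n2 := ndB0q2) (pc := pcB0) (cut := cut_pp_202_t) (xt := Ext.none) (P1 := 0) (W1 := 536870912) (P2 := 0) (W2 := 536870912) (P3 := 740881858) (W3 := 40050571) (N0 := 3) (En := eng) (mo := mog) (C1 := cd0q2) (C2 := cd0q2) (C3 := pd0)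
    rfl k0_pp_202_t

noncomputable def cut_pm_001_s : Cut := Cut.of [[⟨4, 0, 0, 1449551462⟩]]

noncomputable def f_pm_001_s : ℕ → ℕ → ℕ → ℕ → Bool := onCell 0 536870912 536870912 536870912 740881858 40050571
    (rowNE 3 eng mog cd0q0 cd0q1 pd0 0 false true false .up 0 0 1 (qsf 0 536870912 536870912 536870912 0) ndB0q0 ndB0q1 pcB0 cut_pm_001_s Ext.none)

def k0_pm_001_s : ∃ t, chk3 f_pm_001_s t 1 1 1 = true :=
  ⟨(l 6), by decide +kernel⟩

theorem c_pm_001_s : CertNE 0 536870912 536870912 536870912 740881858 40050571 3 eng mog cd0q0 cd0q1 pd0 false true false .up 0 0 1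
    ndB0q0 ndB0q1 pcB0 cut_pm_001_s Ext.none :=
  certNE0 (fam := false) (s1 := true) (s2 := false) (a := 0) (b := 0) (c := 1) (cn := .up) (n1 := ndB0q0) (n2 := ndB0q1) (pc := pcB0) (cut := cut_pm_001_s) (xt := Ext.none) (P1 := 0) (W1 := 536870912) (P2 := 536870912) (W2 := 536870912) (P3 := 740881858) (W3 := 40050571) (N0 := 3) (En := eng) (mo := mog) (C1 := cd0q0) (C2 := cd0q1) (C3 := pd0)
    rfl k0_pm_001_s

end Pool.Agent.Strip051.G.I69_7273.Tab.CS.BB00

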