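import Pool.Agent.Strip051.G.I69_7273.Tab
import Pool.Agent.Strip051.PB.StripB

/-! # Strips, near vertex: certificates 6 (generated) -/

set_option linter.all false
set_option maxRecDepth 100000

namespace Pool.Agent.Strip051.G.I69_7273.Tab.CS.BB00

open Pool.Agent.Strip051.PB Pool.Agent.Strip051.PB.T
open Pool.Agent.Strip051.G.I69_7273.Tab

noncomputable def cut_pm_001_t : Cut := Cut.of [[⟨3, 0, 0, 2845415833⟩]]

noncomputable def f_pm_001_t : ℕ → ℕ → ℕ → ℕ → Bool := onCell 0 536870912 536870912 536870912 740881858 40050571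
    (rowNE 3 eng mog cd0q0 cd0q1 pd0 0 false true false .up 0 0 1 (qsf 0 536870912 536870912 536870912 0) ndB0q0 ndB0q1 pcB0 cut_pm_001_t Ext.none)

def k0_pm_001_t : ∃ t, chk3 f_pm_001_t t 2 1 1 = true :=
  ⟨(b (l 4) (b (b (l 4) (l 2)) (l 2))), by decide +kernel⟩

def k1_pm_001_t : ∃ t, chk3 f_pm_001_t t 3 4 1 = true :=
  ⟨(l 4), by decide +kernel⟩

def k2_pm_001_t : ∃ t, chk3 f_pm_001_t t 6 5 1 = true :=
  ⟨(l 4), by decide +kernel⟩

def k3_pm_001_t : ∃ t, chk3 f_pm_001_t t 7 10 1 = true :=
  ⟨(a (l 4) (b (a (l 4) (b (l 4) (a (l 4) (b (l 4) (a (l 4) (b (a (l 4) (l 185992210919)) (a (l 177402276855) (b (l 75933666167) (l 16775552))))))))) (a (b (l 4) (a (l 4) (b (a (l 4) (b (l 4) (a (l 4) (l 216593850455)))) (a (a (l 4) (a (l 4) (c (l 203708948423) (l 201024593415)))) (b (a (l 210688271495) (c (l 80765499415) (l 16776600))) (a (c (l 70564953335) (l 16776216)) (l 16772568))))))) (b (a (b (l 4) (a (l 4) (b (a (l 4) (c (l 109219645895) (l 112977745815))) (a (c (l 112977746055) (l 111904005799)) (l 16774672)))))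 (b (a (b (a (l 4) (l 168275466695)) (a (b (l 217667594439) (l 112440881847)) (l 42110798359))) (b (a (b (l 16771456) (l 16775152)) (l 16773152)) (l 16771192))) (a (b (a (l 16775144) (l 16771992)) (l 16764536)) (l 16776368)))) (a (b (a (b (a (l 4) (c (l 114051489911) (l 111367136711))) (a (c (l 108145911255) (l 16766136)) (l 16773680))) (c (b (l 16772600) (l 16768768)) (l 16770256))) (a (c (b (l 16771536) (l 16767536)) (l 16769024)) (c (l 16762936) (l 16761976)))) (a (b (c (l 16764536) (l 16763568)) (l 16756240)) (b (l 16758512) (l 16750952)))))))), by decide +kernel⟩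

def k4_pm_001_t : ∃ t, chk3 f_pm_001_t t 14 22 1 = true :=
  ⟨(a (l 4) (b (l 4) (a (l 4) (b (a (l 4) (b (a (l 4) (b (l 4) (l 220888820455))) (a (b (l 4) (c (l 203708952823) (l 204782694231))) (c (a (b (l 190287181223) (l 16776336)) (l 46942641127)) (l 79691759271))))) (a (b (a (l 4) (b (l 4) (c (a (l 4) (c (l 111904018471) (l 108682791991))) (l 108682783735)))) (a (c (b (l 225183787655) (a (l 214446371943) (b (l 112440892919) (l 16776264)))) (b (l 224110045175) (l 111904011607))) (c (b (a (c (l 93650408951) (l 16771744)) (l 16775240)) (l 16773880)) (l 16772264)))) (c (b (a (b (a (c (l 108145920551) (l 108145920631)) (l 16775976)) (l 16774624)) (l 16771888)) (a (l 16771136) (l 16767288))) (b (a (l 65196246359) (l 16771440)) (l 16768504)))))))), by decide +kernel⟩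

def k5_pm_001_t : ∃ t, chk3 f_pm_001_t t 28 46 1 = true :=
  ⟨(a (l 4) (b (l 4) (a (l 4) (b (l 4) (b (l 4) (a (l 4) (a (l 4) (c (c (b (a (l 4) (b (l 4) (a (l 220351954119) (a (b (l 223573179975) (l 92039806167)) (l 74323065799))))) (b (a (a (l 4) (c (l 209077665159) (l 105998446423))) (a (a (b (l 106535319703) (l 16777072)) (l 16776976)) (l 16776608))) (a (c (b (a (l 4) (a (l 107072190871) (l 16777024))) (a (a (l 220888825447) (l 96334772951)) (l 16776848))) (l 125325801175)) (l 16776256)))) (b (l 205856438391) (a (l 107072185495) (l 16776520)))) (l 107609050647))))))))), by decide +kernel⟩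

def k6_pm_001_t : ∃ t, chk3 f_pm_001_t t 56 47 1 = true :=
  ⟨(b (l 4) (a (l 4) (b (a (l 4) (b (l 4) (c (a (l 4) (b (l 4) (c (a (l 4) (b (l 4) (a (l 4) (b (l 178476023399) (a (l 129620769559) (l 16777032)))))) (l 192434665415)))) (l 203172080055)))) (a (a (l 4) (b (l 4) (c (b (a (l 4) (c (b (l 4) (l 194045279207)) (l 206930180423))) (c (a (a (l 4) (a (l 202098342967) (b (l 4) (l 85597354775)))) (b (a (l 161833025095) (a (l 39963329463) (l 16776856))) (l 16776608))) (c (l 103850962807) (l 104387828455)))) (c (l 104924693447) (l 105998435127))))) (c (b (a (b (l 4) (c (a (l 4) (a (b (l 4) (a (l 173644185191) (b (l 140895060695) (l 16777064)))) (b (a (l 199950859671) (b (l 205319568951) (l 77007420151))) (l 16776840)))) (l 156464315159))) (c (b (b (a (l 198877117255) (a (b (a (l 203172085335) (l 79154903623)) (l 51237616583)) (l 16776688))) (a (a (l 182234119591) (a (b (l 101166610439) (l 16777048)) (l 16776952))) (l 16776320))) (a (a (a (b (b (l 102777223591) (l 16776928)) (l 16776456)) (l 16776520)) (l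 16776136)) (l 16776688))) (b (c (l 88818573687) (l 88818576295)) (l 16775808)))) (b (a (c (b (a (b (c (l 181160377703) (l 101703478599)) (a (l 205856439735) (l 64122518535))) (l 16776464)) (a (a (a (a (l 102240352039) (l 48553264087)) (l 16776984)) (l 16776600)) (l 16777144))) (l 64659385223)) (c (l 16775936) (l 16774488))) (c (a (a (l 16775904) (l 16774888)) (l 16773368)) (l 16774224)))) (b (a (l 179012892023) (l 61438155879)) (l 16773408))))))), by decide +kernel⟩

def k7_pm_001_t : ∃ t, chk3 f_pm_001_t t 114 188 1 = true :=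
  ⟨(l 4), by decide +kernel⟩

def k8_pm_001_t : ∃ t, chk3 f_pm_001_t t 228 189 1 = true :=
  ⟨(l 4), by decide +kernel⟩

def k9_pm_001_t : ∃ t, chk3 f_pm_001_t t 458 189 1 = true :=
  ⟨(b (l 4) (c (c (c (b (a (l 4) (b (l 4) (a (l 4) (b (l 206393310583) (a (l 192971538087) (a (b (l 147337510183) (l 16777168)) (l 44795166167))))))) (a (b (l 4) (a (l 204245826743) (b (b (l 192434667127) (a (l 4) (l 76470549975))) (a (a (a (l 101166611207) (l 107072191575)) (l 57680068103)) (l 16776952))))) (a (b (a (b (l 4) (b (l 197803376359) (l 107072192135))) (b (l 172033572615) (l 36742102343))) (l 16776816)) (b (a (a (b (a (l 92576677367) (l 58753809991)) (l 16776880)) (l 16776912)) (l 16776728)) (l 16776240))))) (b (l 196192761671) (a (l 167201732359) (b (l 77007419063) (l 16776472))))) (b (l 197803374263) (a (l 102777217287) (l 16776776)))) (c (l 104387825751) (l 105461564839)))), by decide +kernel⟩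

def k10_pm_001_t : ∃ t, chk3 f_pm_001_t t 459 189 1 = true :=
  ⟨(b (c (b (l 4) (c (a (b (l 4) (a (l 4) (a (l 4) (b (l 4) (c (l 185455345367) (l 16777056)))))) (c (b (a (l 4) (a (b (l 4) (a (a (l 193508409111) (b (l 4) (l 121567706871))) (b (a (l 104924707975) (l 101703482727)) (l 16777128)))) (b (b (l 202635214551) (a (l 143579413815) (l 66806873799))) (l 8824815191)))) (b (a (a (l 202098343543) (a (b (a (l 4) (l 104924707975)) (l 77007421079)) (b (l 80228646231) (l 16777072)))) (l 16776840)) (a (a (a (b (a (l 104924707959) (l 101703482711)) (l 16777144)) (l 30836522519)) (l 16776904)) (l 16776536)))) (b (l 153243090375) (l 55532582855)))) (a (l 205319567543) (l 79154899431)))) (l 168812345047)) (c (b (c (a (c (b (b (a (l 4) (a (a (l 203172085447) (b (l 4) (l 78618033543))) (a (b (l 105461578999) (l 16777088)) (l 16777040)))) (a (a (l 4) (b (l 192434667271) (a (l 135526350183) (l 16777152)))) (a (l 24394071479) (l 16776800)))) (a (a (b (b (a (l 4) (l 101703482519)) (l 64122519079)) (l 16776936)) (l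 16776840)) (l 16776632))) (b (l 105998447511) (l 16776704))) (a (a (b (l 16776696) (l 16776080)) (l 16776792)) (l 16776416))) (l 46942645799)) (c (c (a (b (l 16776760) (l 16775504)) (l 16774824)) (l 16775256)) (l 16775176))) (l 16775728))), by decide +kernel⟩

def k11_pm_001_t : ∃ t, chk3 f_pm_001_t t 230 376 2 = true :=
  ⟨(a (l 4) (b (l 4) (c (a (l 4) (b (l 4) (c (a (l 4) (b (l 4) (c (a (l 4) (a (b (l 4) (c (a (b (l 4) (a (l 4) (b (l 4) (a (a (l 4) (l 100629741383)) (l 130694512551))))) (c (b (a (l 4) (a (l 4) (b (l 4) (b (l 4) (l 158611800023))))) (b (a (b (l 4) (l 101166612311)) (l 50163875783)) (l 16777184))) (l 105998450743))) (l 101703482487))) (a (b (l 4) (c (c (b (a (a (b (l 4) (l 122641448919)) (b (a (l 4) (l 122641448775)) (l 16777200))) (b (b (l 105998450519) (l 16777208)) (l 16777184))) (l 16777144)) (l 16777176)) (l 16777176))) (c (b (b (l 4) (a (b (l 4) (a (l 105998450503) (l 96871645063))) (b (a (l 123178319671) (l 94724161367)) (l 16777192)))) (l 16777120)) (l 94187290215))))) (l 166664863431))))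 (l 195655891959)))) (l 201561470455)))), by decide +kernel⟩

def k12_pm_001_t : ∃ t, chk3 f_pm_001_t t 460 377 2 = true :=
  ⟨(b (l 4) (c (a (l 4) (a (a (l 4) (b (l 4) (b (l 4) (c (a (l 203172085447) (b (l 4) (a (b (l 104924708279) (l 16777200)) (l 52848230167)))) (l 16777104))))) (c (b (b (l 4) (c (a (l 4) (b (l 4) (l 195119021815))) (l 204782697895))) (c (b (a (b (l 4) (b (l 199413989143) (a (l 4) (a (l 101166612007) (l 16777192))))) (a (c (b (b (l 4) (a (l 104387837351) (l 105998450343))) (l 31910264519)) (l 90966064631)) (a (b (b (l 101703482951) (l 16777160)) (l 16777048)) (l 16777064)))) (c (a (b (a (b (a (l 4) (l 101166612039)) (l 71638712119)) (l 16777112)) (l 16777024)) (l 16776936)) (l 26541554839))) (b (l 105461578839) (l 16776976)))) (b (l 205856439431) (l 74859936295))))) (l 177939151127))), by decide +kernel⟩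

def k13_pm_001_t : ∃ t, chk3 f_pm_001_t t 461 1508 4 = true :=
  ⟨(a (l 4) (c (b (a (c (a (l 4) (a (l 4) (a (l 4) (a (l 4) (b (l 4) (b (l 4) (b (l 4) (l 145726898023)))))))) (l 206930181495)) (c (a (b (a (l 4) (a (b (l 4) (b (a (l 4) (a (l 4) (l 101166612295))) (a (a (l 105998450487) (l 101703483223)) (l 16777200)))) (b (b (l 4) (a (l 156464316247) (a (l 101703483223) (l 16777208)))) (a (b (l 63048777671) (l 16777168)) (l 16777160))))) (c (a (b (b (a (l 4) (a (l 4) (a (l 101166612295) (l 120493965271)))) (a (a (l 4) (a (l 4) (l 106535321399))) (a (l 105998450519) (l 16777192)))) (a (b (a (l 156464316263) (l 77544292263)) (l 16777192)) (l 16777144))) (a (l 16777136) (l 16777224))) (l 58753809943))) (c (b (a (c (b (a (a (b (a (l 101166612295) (l 78081163223)) (l 16777184)) (l 16777176)) (l 16777128)) (l 16777248)) (l 16777120)) (l 16777160)) (l 16777080)) (l 16776984))) (a (l 79691774615) (l 16776984)))) (a (c (a (a (l 4) (a (a (l 4) (l 205856440055)) (b (l 4) (b (l 4) (b (a (l 104924708567) (l 107072192343))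 (l 52311359383)))))) (a (c (a (b (l 4) (b (a (b (l 4) (l 101703483175)) (b (l 100629741303) (l 16777200))) (l 16777152))) (b (b (l 4) (a (b (l 4) (l 100092870375)) (b (l 163443638103) (l 16777192)))) (l 16777136))) (l 127473286631)) (b (a (a (b (l 4) (a (l 64659390375) (l 16777192))) (b (b (l 4) (l 108682805079)) (l 16777168))) (a (b (b (a (l 102240354119) (l 102240354135)) (l 16777192)) (l 16777136)) (l 16777144))) (l 16777040)))) (a (l 101166610327) (l 16777176))) (a (a (a (b (l 16777096) (l 16776944)) (l 16777128)) (l 16777112)) (l 16776848)))) (a (l 102240350615) (l 16776952)))), by decide +kernel⟩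

def k14_pm_001_t : ∃ t, chk3 f_pm_001_t t 461 1509 4 = true :=
  ⟨(a (c (c (a (l 4) (a (b (l 4) (b (a (l 4) (l 195119021895)) (b (a (l 4) (a (b (l 105461579367) (l 107609063159)) (l 16777184))) (a (a (l 4) (a (l 101166612103) (l 93113548679))) (l 16777144))))) (b (a (l 4) (b (l 4) (a (b (l 4) (a (a (l 101166612151) (l 108682804983)) (l 77007421303))) (b (b (a (l 4) (l 154316832615)) (l 96871645047)) (l 16777160))))) (b (a (a (a (b (l 4) (l 85597355911)) (b (a (l 4) (l 101166612151)) (l 16777184))) (b (b (l 109219675895) (l 16777192)) (l 16777136))) (l 16777080)) (l 16776992))))) (a (l 4) (b (l 188676570679) (l 85060483415)))) (l 161296153975)) (c (b (c (b (a (a (c (a (a (b (l 4) (b (l 4) (a (l 104924708567) (l 79154904919)))) (a (b (l 4) (l 67343744935)) (b (b (l 4) (l 101703483175)) (l 16777176)))) (a (a (b (b (l 147337510759) (l 16777200)) (l 16777144)) (l 16777152)) (l 16777104))) (l 81839259207)) (l 16776992)) (l 16776752)) (a (a (a (a (l 16777136) (l 16777080)) (l 16776984)) (l 16776808)) (l 16776440)))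 (l 16776752)) (a (a (l 16777152) (l 16776576)) (l 16776544))) (l 16776592))), by decide +kernel⟩

def k15_pm_001_t : ∃ t, chk3 f_pm_001_t t 461 755 4 = true :=
  ⟨(c (a (c (b (a (b (a (l 4) (b (b (l 207467052807) (a (l 4) (a (a (l 4) (l 101166612103)) (l 74859937655)))) (b (a (a (l 4) (l 146263768791)) (l 32447135527)) (a (a (a (l 101166612087) (l 119957094151)) (l 16777176)) (l 16777088))))) (b (a (a (l 205319569207) (c (a (b (l 4) (l 78081162935)) (b (l 105461579399) (l 16777152))) (l 16777200))) (l 16777040)) (a (a (a (b (a (l 4) (l 101166612103)) (l 16777184)) (l 37815844599)) (l 16777072)) (l 16776888)))) (b (c (a (b (a (a (a (b (l 101703483047) (l 16777160)) (l 16777104)) (l 16777120)) (l 16777192)) (l 16777272)) (l 16777104)) (l 16776896)) (l 16776928))) (a (a (b (l 16776912) (l 16776608)) (l 16776848)) (l 16776152))) (a (b (a (b (l 4) (l 16776536)) (l 65733131351)) (l 16776632)) (l 16776440))) (a (b (a (l 16776704) (l 16776128)) (l 16775656)) (b (l 16776096) (l 16775168)))) (a (b (a (l 79691773239)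 (l 16776728)) (l 16776368)) (l 16775672))), by decide +kernel⟩

def k16_pm_001_t : ∃ t, chk3 f_pm_001_t t 461 377 5 = true :=
  ⟨(b (a (l 181160377111) (l 61975033127)) (l 16776136)), by decide +kernel⟩

def k17_pm_001_t : ∃ t, chk3 f_pm_001_t t 230 188 3 = true :=
  ⟨(b (l 205856434135) (a (l 193508406103) (b (l 109756537719) (l 16776048)))), by decide +kernel⟩

def k18_pm_001_t : ∃ t, chk3 f_pm_001_t t 462 376 2 = true :=
  ⟨(a (b (l 4) (c (a (c (b (b (l 4) (a (l 4) (c (b (l 4) (b (l 218741341991) (a (l 4) (a (l 105998450231) (l 16777184))))) (l 105998448759)))) (c (b (b (a (l 225183792839) (c (a (c (b (a (l 4) (l 106535321175)) (a (l 96334773927) (l 16777160))) (l 97408515399)) (l 16777104)) (l 81302388279))) (a (c (b (a (l 4) (a (a (l 4) (a (l 124252061351) (l 105461579447))) (a (l 117272739703) (l 16777192)))) (b (a (l 4) (a (l 97408515975) (l 16777152))) (a (a (l 4) (a (l 122104577751) (l 98482257751))) (l 16777144)))) (l 106535320375)) (l 16777016))) (a (c (b (a (b (a (a (b (l 4) (l 152169348967))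 (b (l 175791669079) (l 16777208))) (l 51237617511)) (l 16777136)) (l 16777048)) (l 16777048)) (l 16777040)) (l 16777120))) (b (l 121030835095) (l 16776912)))) (b (l 218204470519) (l 16777064))) (c (b (c (a (b (l 218204470919) (b (a (b (l 4) (a (l 124252061207) (l 93650419415))) (l 61438164631)) (l 16777072))) (b (a (b (b (l 4) (l 122641448183)) (l 82913001175)) (b (l 94724160903) (l 16777064))) (l 16776904))) (b (l 106535319127) (l 16777024))) (a (b (l 16776848) (l 16776552)) (l 16776456))) (l 64659388135))) (l 92576672551))) (c (a (b (b (l 4) (c (a (b (l 4) (a (b (l 4) (b (l 106535320935) (l 81839259207))) (b (l 106535320711) (l 16777112)))) (b (a (l 192434667271) (b (l 168275475751) (l 16777168))) (l 16777008))) (l 97408513159))) (b (a (b (b (a (l 16777088) (l 16776960)) (l 16777200)) (l 16776648)) (b (l 16777360) (l 16777056))) (l 16776072))) (b (c (b (b (l 217130728951) (c (a (l 170422959895) (l 66270002503)) (l 125862673335))) (c (b (l 26541555079) (l 16776640)) (l 16776784))) (l 91502933831)) (b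 (l 16776832) (a (l 16776360) (l 16776768))))) (b (l 96334768215) (l 16776064)))), by decide +kernel⟩

def k19_pm_001_t : ∃ t, chk3 f_pm_001_t t 463 376 2 = true :=
  ⟨(c (a (b (b (a (a (a (b (l 110293417367) (l 16776920)) (l 16776952)) (l 16776760)) (l 16777704)) (l 16777352)) (l 16776448)) (l 16776064)) (l 16775144)), by decide +kernel⟩

def k20_pm_001_t : ∃ t, chk3 f_pm_001_t t 231 376 3 = true :=
  ⟨(a (b (a (l 4) (l 16777048)) (l 62511900151)) (l 16774984)), by decide +kernel⟩

def k21_pm_001_t : ∃ t, chk3 f_pm_001_t t 231 377 1 = true :=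
  ⟨(c (a (c (b (c (a (a (b (b (l 16777112) (l 16776976)) (l 16776528)) (l 16776336)) (l 16776264)) (l 16775392)) (a (a (b (l 16775904) (l 16774648)) (l 16774456)) (l 16773720))) (l 16774680)) (c (a (b (a (b (l 16775800) (l 16773888)) (a (l 16775128) (l 16773576))) (l 16772744)) (b (l 16772960) (a (l 16772008) (l 16771520)))) (l 16775232))) (a (l 16774488) (l 16772256))), by decide +kernel⟩

def k22_pm_001_t : ∃ t, chk3 f_pm_001_t t 115 189 1 = true :=
  ⟨(c (a (c (b (a (b (a (a (b (l 4) (c (a (a (l 4) (b (l 4) (a (l 187602829111) (b (l 4) (l 82376130295))))) (c (b (l 193508408999) (a (b (b (l 100629740775) (l 106535321095)) (l 16777112)) (l 16777064))) (l 107072191575))) (l 102240350775))) (c (c (b (a (l 207467052375) (b (l 4) (b (b (l 195655892775) (a (l 4) (l 87744839431))) (a (a (a (l 101166611831) (l 106535321079)) (l 66270002999)) (l 16777096))))) (b (a (c (a (b (b (l 4) (l 101166611767)) (l 55532584631)) (b (b (l 107072191991) (l 16777160)) (l 16777048))) (l 75396807495)) (l 16776936)) (l 16776760)))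 (b (l 169886088727) (l 16776912))) (b (l 101703479431) (l 16776904)))) (c (b (a (a (c (b (b (l 192434667271) (a (b (a (l 4) (l 104387837351)) (l 108682805383)) (l 43721424535))) (l 16777032)) (l 74323065911)) (c (b (a (b (b (l 93650419447) (l 16777144)) (l 16777032)) (l 16776984)) (l 16776744)) (l 16776896))) (b (l 16777000) (l 16776376))) (a (l 16777072) (l 16775928))) (l 16776456))) (c (a (b (a (b (a (a (a (b (l 106535320983) (l 16777088)) (l 16777104)) (l 16777008)) (l 16777152)) (l 16777304)) (l 16776960)) (l 16776608)) (a (l 16776168) (l 16775024))) (l 16775720))) (b (c (a (a (a (l 16776184) (l 16776272)) (l 16775576)) (a (l 16774760) (l 16774272))) (l 16774944)) (c (a (l 16774952) (l 16773320)) (l 16773712)))) (a (c (c (a (b (l 16775720) (l 16773864)) (l 16774152)) (l 16776552)) (l 16776488)) (c (a (l 16773152) (l 16772832)) (l 16771864)))) (b (a (b (a (l 103314089255) (l 16776424)) (l 16775656)) (l 16774208)) (l 16772680))) (c (a (c (b (a (a (l 16773848) (l 16772704)) (l 16771984)) (l 16771384))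 (l 16776344)) (b (l 16773064) (l 16768032))) (l 16775064))) (a (b (a (l 50163867927) (l 16773976)) (l 16772336)) (l 16769256))), by decide +kernel⟩

def k23_pm_001_t : ∃ t, chk3 f_pm_001_t t 114 190 1 = true :=
  ⟨(b (a (a (l 4) (c (c (b (a (l 4) (c (b (a (l 4) (b (l 4) (c (l 179549765239) (l 101166609607)))) (a (a (l 204782697815) (a (l 178476023447) (b (l 4) (l 68954357255)))) (a (b (a (a (l 104924707383) (l 101166611175)) (l 94724160919)) (l 16776976)) (l 16776880)))) (b (l 196192762791) (l 97408513591)))) (b (a (c (b (l 197803375703) (a (l 4) (a (l 138747576247) (l 55532584279)))) (l 168812346663)) (a (a (a (b (l 88818580871) (l 16776920)) (l 16776952)) (l 16776760)) (l 16777040))) (a (c (a (a (b (l 4) (l 102240353991)) (b (a (l 100629739927) (l 105461578583)) (l 16777000))) (l 16776776)) (l 69491226503)) (l 16777328)))) (b (l 168812345847) (a (l 107609057223) (l 16776280)))) (l 109219668311))) (c (a (c (b (c (a (a (b (a (b (l 183307861719) (l 46405778727)) (a (b (l 89355451815) (l 16776904)) (l 16776936)))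 (l 16776512)) (a (l 16776440) (l 16777504))) (l 16776888)) (l 10972296519)) (a (l 16775976) (l 16774320))) (l 16775344)) (c (a (b (l 16775864) (l 16773328)) (a (l 16774504) (l 16774008))) (l 16778480))) (l 16774064))) (c (a (c (a (a (b (b (l 4) (c (a (l 4) (b (l 4) (l 155390573655))) (l 191360924711))) (b (a (a (l 194045279703) (b (l 201024601719) (l 70028098775))) (a (b (l 79154903735) (l 16776896)) (l 16776800))) (c (l 16776728) (l 16776544)))) (a (b (c (b (l 194045279527) (a (b (l 133915736791) (l 16777016)) (l 16776920))) (l 102777225271)) (l 16776112)) (c (b (b (b (a (l 194582150807) (l 77544291063)) (l 39963327415)) (l 16776544)) (l 16775624)) (l 20099101799)))) (c (b (a (b (l 16776416) (l 16777112)) (l 16776424)) (l 16776352)) (l 16774936))) (a (b (a (l 197266504119) (l 77007416087)) (l 16776328)) (l 16774840))) (c (c (a (a (l 16774824) (l 16772536)) (l 16772376)) (l 16774520)) (l 16771680))) (a (a (l 75933668359) (l 16774664)) (l 16771256)))), by decide +kernel⟩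

def k24_pm_001_t : ∃ t, chk3 f_pm_001_t t 115 190 1 = true :=
  ⟨(c (c (a (a (b (a (l 16773264) (l 16772280)) (l 16770312)) (b (a (l 16769984) (l 16769008)) (l 16769672))) (a (b (l 16770168) (l 16765104)) (l 16767016))) (a (l 16774048) (l 16764696))) (c (l 16776688) (l 16765672))), by decide +kernel⟩

def k25_pm_001_t : ∃ t, chk3 f_pm_001_t t 57 191 1 = true :=
  ⟨(a (c (c (b (a (a (c (a (b (l 16776952) (l 16774408)) (l 16775336)) (l 16774448)) (a (l 16774288) (l 16771976))) (a (l 16771792) (l 16768504))) (a (a (l 16774608) (l 16769984)) (a (l 16768000) (l 16766024)))) (a (b (l 16773272) (l 16775880)) (l 16772992))) (a (l 16771552) (l 16767024))) (b (c (c (a (a (l 16766544) (l 16764592)) (l 16766944)) (l 16768112)) (l 16772240)) (c (c (a (l 16765720) (l 16759248)) (l 16770752)) (l 16758952)))), by decide +kernel⟩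

def k26_pm_001_t : ∃ t, chk3 f_pm_001_t t 58 92 1 = true :=
  ⟨(a (b (l 4) (a (l 4) (b (l 4) (a (l 4) (c (l 223573179287) (l 224110047047)))))) (b (a (l 4) (c (b (a (l 4) (b (l 4) (l 157538057031))) (a (a (l 218741339735) (a (l 159685540759) (l 95261024823))) (c (l 51237611735) (l 16776072)))) (b (l 211762015719) (l 90966049079)))) (c (a (b (a (l 4) (c (a (l 179012893015) (b (l 107072184951) (l 16776616))) (l 107609049991))) (a (c (b (a (l 4) (l 107609056823)) (a (l 94724156263) (l 16776216))) (l 94724150327)) (l 16775288))) (b (a (c (l 16775736) (l 16775664)) (l 16773704)) (l 16777544))) (a (b (l 165054247943) (l 72712442311)) (l 16773144))))), by decide +kernel⟩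

def k27_pm_001_t : ∃ t, chk3 f_pm_001_t t 58 93 1 = true :=
  ⟨(a (b (a (b (l 4) (c (a (l 4) (b (l 4) (c (a (l 4) (c (b (l 197266504935) (l 90429192183)) (l 107072185927))) (l 159685540631)))) (l 212298886583))) (c (b (a (b (l 4) (c (a (l 4) (l 172033571863)) (l 209077663783))) (c (b (a (l 211225148087) (l 85597352919)) (a (l 66270000103) (l 16775816))) (l 89892316087))) (c (a (b (a (b (l 219278211959) (l 129620768295)) (l 16776608)) (l 16775904)) (l 16774536)) (a (l 72175577175) (l 16774400)))) (a (a (l 150021858167) (l 102240343543)) (l 57680057735)))) (c (c (a (b (b (a (a (l 4) (l 220351953303)) (a (c (b (a (l 223036308647) (l 96334771607)) (l 62511904615)) (l 94724156263)) (l 16776192))) (a (a (a (l 4) (b (l 4) (l 151095605639))) (b (a (l 174717926903) (l 70028098071)) (l 16776672))) (l 16775496))) (a (b (a (a (b (b (l 198877118055) (l 92039805799)) (l 16776712)) (l 16776512)) (l 16775776)) (c (l 16775760) (l 16775048))) (l 16776328))) (b (a (l 16776744) (l 16772176)) (l 16776024))) (a (b (a (b (l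 222499435895) (l 107609054999)) (l 51774482471)) (l 16775864)) (l 16771688))) (a (a (b (l 107072177287) (l 16775472)) (l 16774600)) (l 16771280)))) (b (c (a (b (c (l 16775272) (l 16773800)) (l 16776712)) (l 16773960)) (l 16771360)) (c (c (c (l 16774176) (l 16776504)) (l 16776080)) (l 16764752)))), by decide +kernel⟩

def k28_pm_001_t : ∃ t, chk3 f_pm_001_t t 59 46 1 = true :=
  ⟨(a (b (b (a (c (b (a (b (l 89355444679) (l 16775880)) (l 16774488)) (l 16773104)) (l 16774032)) (c (l 16770360) (l 16769736))) (c (c (l 16778304) (l 16767368)) (l 16766696))) (c (b (l 16773352) (l 16768616)) (l 16769368))) (b (c (b (l 16775048) (l 16759920)) (l 16760888)) (c (l 16763400) (l 16750632)))), by decide +kernel⟩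

def k29_pm_001_t : ∃ t, chk3 f_pm_001_t t 29 47 1 = true :=
  ⟨(b (a (a (c (a (a (b (c (b (l 16775904) (l 16770896)) (l 16771808)) (b (c (c (b (a (l 16769696) (l 16768744)) (l 16770664)) (l 16773632)) (l 16768024)) (l 16765800))) (b (c (l 16772760) (l 16769752)) (b (l 16766280) (a (l 16766944) (l 16768584))))) (c (b (l 16772472) (l 16762496)) (l 16774672))) (b (a (l 16770296) (l 16765904)) (a (a (l 16776440) (l 16774256)) (l 16760512)))) (c (c (b (l 16771968) (l 16767288)) (l 16768656)) (l 16767240))) (c (a (c (l 16762152) (l 16750336)) (l 16743568)) (c (l 16765968) (l 16764512)))) (a (a (a (c (c (b (l 16766768) (l 16756680)) (l 16768576)) (l 16767088)) (c (b (a (b (c (l 16759904) (l 16758936)) (l 16756952)) (b (l 16757472) (l 16755032))) (l 16752272)) (b (l 16765560) (l 16749592)))) (a (c (b (l 16753360) (b (l 16760208) (l 16757768))) (b (l 16750824) (l 16745400))) (c (l 16757608) (l 16743928)))) (c (a (c (l 16742440) (l 16740552)) (l 16734184)) (a (l 16737760) (l 16729776))))), by decide +kernel⟩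

def k30_pm_001_t : ∃ t, chk3 f_pm_001_t t 15 11 1 = true :=
  ⟨(a (b (b (a (b (a (l 4) (b (l 4) (a (l 4) (c (b (l 226794400199) (l 112440882823)) (l 109219647447))))) (a (b (l 4) (a (l 4) (c (b (l 176328536839) (l 79691763783)) (l 112440877815)))) (c (a (b (b (l 216056983143) (l 109756530695)) (l 16773976)) (b (l 16774624) (l 16770224))) (b (a (l 109219648631) (l 16774424)) (l 16771704))))) (b (c (a (b (a (l 177939148215) (l 59827537351)) (a (l 46405766679) (l 16771528))) (b (l 16770360) (l 16766192))) (a (b (a (l 109219645623) (l 16775688)) (l 16773104)) (l 16767656))) (a (c (b (l 16769064) (l 16764760)) (l 16766152)) (l 16769736)))) (a (a (b (a (b (c (b (l 151095597303) (l 60364412919)) (l 89355430583)) (l 16772424)) (b (l 16773152) (l 16768472))) (c (l 16774360) (l 16762768))) (b (b (l 16777784) (l 16773160)) (c (l 16756536) (l 16754848)))) (a (c (b (l 16758240) (l 16749496)) (l 16772984)) (c (l 16768024) (l 16744744))))) (b (a (c (a (b (l 16754760) (l 16745584)) (b (l 16747560) (l 16738528))) (b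 (l 16769816) (l 16759776))) (c (b (l 16758288) (l 16749456)) (a (l 16732664) (l 16725688)))) (a (a (b (a (l 16736256) (l 16732576)) (l 16735072)) (b (l 16727184) (l 16717496))) (c (a (l 16718248) (l 16712008)) (b (l 16714344) (l 16704304)))))) (b (b (a (a (b (l 16771384) (l 16752376)) (c (l 16771984) (l 16749168))) (c (a (l 16745368) (l 16740808)) (a (l 16742984) (l 16737608)))) (a (c (a (l 16740664) (l 16734688)) (a (l 16737888) (l 16731472))) (c (a (l 16729376) (l 16725176)) (l 16723008)))) (a (b (c (a (l 16723584) (l 16717888)) (l 16736904)) (c (a (l 16706136) (l 16700672)) (l 16717592))) (b (c (l 16731672) (l 16705040)) (c (l 16693824) (l 16686280)))))), by decide +kernel⟩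

def k31_pm_001_t : ∃ t, chk3 f_pm_001_t t 12 12 1 = true :=
  ⟨(b (l 4) (a (l 4) (b (l 4) (a (l 4) (b (l 4) (a (b (l 4) (l 2)) (b (a (l 4) (b (a (l 4) (l 205319566023)) (a (c (l 174181054519) (l 179549763127)) (a (b (l 100629746247) (l 16776256)) (l 16775880))))) (a (b (b (l 208003920103) (l 2)) (l 2)) (b (c (a (l 16778928) (l 16773312)) (l 16774408)) (l 16776432)))))))))), by decide +kernel⟩

def k32_pm_001_t : ∃ t, chk3 f_pm_001_t t 26 24 1 = true :=
  ⟨(l 4), by decide +kernel⟩

def k33_pm_001_t : ∃ t, chk3 f_pm_001_t t 27 48 1 = true :=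
  ⟨(a (l 4) (b (l 4) (a (b (l 4) (a (l 4) (b (l 4) (c (a (l 4) (a (l 190824052663) (b (l 195119020551) (l 32447138359)))) (l 175791665719))))) (b (a (b (l 4) (a (l 4) (c (b (l 4) (l 191897794583)) (l 201561469367)))) (a (b (l 4) (c (a (b (l 201561471399) (a (l 53921974887) (l 16776672))) (b (a (l 103314095815) (l 31910266759)) (l 16775880))) (l 82376118983))) (c (b (a (b (l 4) (b (l 184918473831) (l 50163878135))) (c (b (l 155927444711) (l 16776440)) (l 49090138999))) (l 16775624)) (b (l 107072178439) (l 16774768))))) (c (a (b (b (a (l 4) (a (l 152169348359) (l 16777976))) (a (a (l 4) (a (l 102777218903) (l 51774491143))) (l 16775856))) (a (c (b (a (l 85060479703) (l 16776128)) (l 16775344)) (l 16775952)) (l 16773872))) (a (c (l 16774504) (l 16773016)) (l 16776264))) (a (a (b (l 181697246663) (l 16775872)) (l 4529854487)) (l 16771608))))))), by decide +kernel⟩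

def k34_pm_001_t : ∃ t, chk3 f_pm_001_t t 27 49 1 = true :=
  ⟨(a (b (a (l 4) (b (l 4) (a (l 4) (a (b (l 4) (a (c (l 179012892935) (l 104387823687)) (b (l 183307860679) (l 16776664)))) (c (b (b (l 4) (c (l 143042540151) (l 104924698039))) (c (b (l 20099107559) (l 16775152)) (l 16775760))) (b (l 112977781751) (l 16775680))))))) (a (b (a (l 4) (b (l 4) (a (l 4) (c (l 180623503831) (l 187602826503))))) (b (a (l 4) (a (a (l 193508406935) (b (l 198340245751) (l 41037073463))) (a (a (b (l 102777228695) (l 16776160)) (l 14730398135)) (l 16775512)))) (a (a (l 4) (a (b (l 4) (l 87744843767)) (b (l 107609067943) (l 16776344)))) (c (a (l 16775488) (l 16773400)) (l 16774256))))) (b (a (c (b (a (l 198340244327) (b (l 154316829031) (a (l 49627008183) (l 16776088)))) (a (a (b (l 109219680663) (l 16776544)) (l 16776176)) (l 16774600))) (b (l 145726890887) (l 16341014887))) (c (a (l 16775496) (l 16777016)) (l 16772496))) (a (c (c (l 16774336) (l 16771520)) (l 16771232)) (l 16772368))))) (b (a (b (b (a (a (l 4) (l 4))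 (c (b (a (l 168812344615) (l 16776072)) (a (a (l 87207962119) (l 16776312)) (l 16774744))) (a (l 89892331223) (l 16775264)))) (a (a (c (l 192434664743) (l 197803373319)) (c (b (a (l 192434666135) (l 45868911703)) (l 10972301815)) (l 16771656))) (c (c (l 16773864) (l 16773728)) (l 16773520)))) (a (a (c (b (a (b (l 99556003815) (l 16776216)) (l 16775840)) (l 16773696)) (l 16774872)) (c (l 16774248) (l 16772608))) (c (l 16775056) (l 16769232)))) (c (a (b (a (l 16774616) (l 16769912)) (l 16765664)) (c (l 16774912) (l 16774360))) (a (l 16769536) (l 16773544)))) (a (a (c (c (l 16776680) (l 16776256)) (l 16775648)) (c (l 16772336) (l 16760688))) (c (c (l 16766584) (l 16776216)) (l 16774952))))), by decide +kernel⟩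

def k35_pm_001_t : ∃ t, chk3 f_pm_001_t t 26 50 1 = true :=
  ⟨(a (b (l 4) (a (l 4) (b (l 4) (a (l 4) (a (b (l 4) (c (b (l 4) (l 150558735319)) (l 174181054023))) (b (l 195655889719) (a (b (l 104387842631) (l 16776376)) (l 13119786007)))))))) (b (a (b (l 4) (a (l 4) (b (l 4) (a (l 4) (l 191897793479))))) (b (a (l 4) (a (b (l 4) (c (b (l 4) (l 137136962839)) (l 107609072231))) (b (c (l 190824052151) (l 193508406151)) (a (b (l 94187294711) (l 16776136)) (l 16775760))))) (a (a (b (l 4) (c (b (l 141968800935) (l 16777776)) (l 56069462439))) (b (b (l 183844730967) (a (l 97945391287) (l 16776560))) (l 16775000))) (b (c (a (l 7214205927) (l 16773624)) (l 16774504)) (l 16777040))))) (a (b (a (b (l 4) (a (l 4) (b (l 189213439911) (a (l 104387842535) (l 16776704))))) (a (b (c (b (l 4) (l 145726897239)) (l 170959828711)) (c (c (l 16778496) (l 16775832)) (l 16775768))) (b (a (b (l 101703487735) (l 16776312)) (l 16775944)) (l 16773680)))) (b (a (a (c (b (l 147337509911) (l 30836526311)) (l 60901301223)) (l 16777744))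 (l 16774560)) (c (a (l 16773432) (l 16769328)) (l 16776296)))) (b (a (c (l 16774664) (l 16771736)) (l 16772880)) (c (l 16775024) (l 16763800)))))), by decide +kernel⟩

def k36_pm_001_t : ∃ t, chk3 f_pm_001_t t 26 51 1 = true :=
  ⟨(b (a (a (b (a (l 4) (b (l 4) (a (l 4) (l 199950856871)))) (a (b (l 4) (a (l 4) (a (l 183307859975) (b (l 196192762407) (l 16776720))))) (b (a (c (l 173107312615) (l 178476021239)) (a (b (l 101166617255) (l 16776360)) (l 16778608))) (c (a (c (l 16779088) (l 16775784)) (l 16773552)) (l 16774584))))) (b (a (a (b (l 4) (c (b (l 152706218935) (l 29225913927)) (l 62511913911))) (b (a (l 178476021783) (b (l 190287182407) (l 16776752))) (l 16777696))) (c (b (a (c (l 15267269959) (l 16775848)) (l 16773728)) (l 16771896)) (l 16778416))) (a (c (b (l 16773248) (l 16770256)) (l 16771552)) (l 16772504)))) (a (b (a (c (l 16774416) (l 16768768)) (l 16775240)) (a (l 16773480) (l 16769296))) (c (b (l 16769440) (l 16774144)) (l 16765416)))) (b (a (a (a (b (a (b (l 150021864263) (l 26541559767))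 (l 16774960)) (l 16774920)) (c (l 16772680) (l 16769832))) (c (l 16774008) (l 16773504))) (a (a (l 16767344) (l 16752696)) (l 16767424))) (a (a (c (a (l 16778752) (l 16774264)) (l 16770928)) (a (l 16769600) (l 16754776))) (a (l 16758960) (l 16740208))))), by decide +kernel⟩

def k37_pm_001_t : ∃ t, chk3 f_pm_001_t t 27 25 1 = true :=
  ⟨(b (a (b (b (a (a (a (b (a (b (l 191360924215) (l 16776784)) (b (l 51237621015) (l 16775704))) (l 16774152)) (c (l 16776144) (l 16773280))) (c (l 16773024) (l 16769960))) (c (l 16774680) (l 16763304))) (a (a (l 16774160) (l 16775128)) (l 16768728))) (a (c (b (l 16772224) (l 16777312)) (l 16768408)) (b (l 16763248) (l 16768216)))) (b (a (c (l 16769024) (l 16751608)) (c (l 16766112) (l 16763728))) (a (l 16762512) (l 16754072)))) (a (b (a (b (l 16760496) (l 16744144)) (c (l 16760792) (l 16758552))) (a (l 16756000) (l 16747672))) (b (a (l 16751264) (l 16721920)) (c (l 16737000) (l 16733392))))), by decide +kernel⟩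

def k38_pm_001_t : ∃ t, chk3 f_pm_001_t t 6 13 1 = true :=
  ⟨(a (b (a (l 2) (b (a (l 2) (b (a (l 2) (b (a (l 2) (l 16771488)) (l 2))) (l 2))) (l 2))) (l 2)) (b (a (a (a (b (b (c (c (l 16766384) (l 16766592)) (l 16766192)) (b (l 16756256) (l 2))) (l 2)) (b (b (a (b (l 16752608) (l 16745952)) (l 16765952)) (c (l 16755104) (l 16753912))) (b (l 16740296) (l 2)))) (b (a (b (b (l 16762992) (l 16735408)) (l 16746168)) (b (l 16751496) (l 16717072))) (a (b (l 16732048) (l 16696440)) (b (l 16703024) (l 16688472))))) (b (a (b (a (l 16743272) (l 16714072)) (a (l 16708952) (l 16700808))) (b (a (l 16705808) (l 16697552)) (a (l 16692648) (l 16684456)))) (a (c (b (l 16713616) (l 16678336)) (a (l 16707288) (l 16678072))) (b (a (l 16678896) (l 16670800)) (l 16692112))))) (a (a (l 2) (b (b (a (l 2) (l 16673728)) (l 2)) (l 2))) (a (b (b (a (l 16665912) (l 16658096)) (a (l 16651248) (l 16643568))) (b (l 66135551911) (l 2))) (b (b (l 16667296) (l 16652968)) (b (l 16638624) (l 16603272))))))), by decide +kernel⟩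

def k39_pm_001_t : ∃ t, chk3 f_pm_001_t t 56 96 1 = true :=
  ⟨(a (b (a (l 4) (b (l 4) (c (b (a (l 4) (a (l 204782696807) (c (c (b (l 147874380023) (a (l 47479522695) (l 16776640))) (l 84523608711)) (l 16777128)))) (a (a (l 4) (c (l 183844731719) (l 145726891943))) (c (a (a (b (l 105998453063) (l 16776896)) (l 16776704)) (l 16775936)) (l 16776416)))) (a (l 202098340167) (l 81839248071))))) (b (b (a (l 4) (c (a (a (a (l 203172084503) (b (l 208540793943) (l 83449869799))) (a (b (l 87744841671) (l 16776624)) (l 16776432))) (l 16775120)) (l 60901283623))) (a (c (a (l 4) (a (l 4) (a (l 172033572023) (b (l 108145936759) (l 16776888))))) (l 190287180359)) (c (c (a (l 16776592) (l 16773896)) (l 16774800)) (l 16774632)))) (c (a (a (b (l 205319566887) (a (l 182770989847) (a (a (l 92576677895) (l 43721426775)) (l 16776696)))) (a (b (b (a (l 208003923031) (l 87744841671)) (l 24930944631)) (l 16775904)) (l 16776168))) (c (a (l 16775336) (l 16771992)) (l 16772792))) (a (a (l 105998434663) (l 16775936)) (l 16772488)))))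 (c (c (b (a (b (a (b (a (l 4) (a (l 203708955495) (b (l 208540794007) (a (l 87207970151) (l 16777000))))) (a (a (l 170422959335) (b (l 166127992359) (l 16776880))) (c (b (l 16776760) (l 16776128)) (l 16776424)))) (b (a (a (b (a (l 102240351511) (l 42110813127)) (l 16776616)) (l 16776424)) (l 16775664)) (l 16775560))) (a (a (l 16776208) (l 16774528)) (l 16775632))) (b (a (l 16776128) (l 16771488)) (l 16773904))) (a (c (l 16775552) (l 16775368)) (l 16771432))) (b (a (b (a (b (l 179549763879) (l 82912995991)) (l 16775448)) (l 16773856)) (a (l 16771976) (l 16775088))) (a (l 16775104) (l 16765608)))) (b (a (a (b (l 105998436439) (l 16774760)) (l 16773888)) (l 16770432)) (a (l 16769328) (l 16775240))))), by decide +kernel⟩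

def k40_pm_001_t : ∃ t, chk3 f_pm_001_t t 56 97 1 = true :=
  ⟨(a (b (a (c (b (a (c (b (a (l 19562235799) (l 16775680)) (l 16774904)) (l 16775472)) (l 16776040)) (l 16774456)) (l 16772776)) (c (c (l 16774424) (l 16768784)) (l 16768208))) (c (a (l 16773144) (l 16769008)) (l 16775280))) (c (a (b (l 16770088) (l 16759648)) (b (l 16771216) (l 16755560))) (a (l 16771296) (l 16766760)))), by decide +kernel⟩

def k41_pm_001_t : ∃ t, chk3 f_pm_001_t t 57 48 1 = true :=
  ⟨(b (a (c (b (c (a (a (l 16773464) (l 16771480)) (c (l 16768712) (l 16763080))) (a (l 16777168) (l 16762512))) (c (a (l 16767456) (l 16758296)) (l 16769808))) (a (l 16770904) (l 16769040))) (a (c (b (a (l 16763824) (l 16763152)) (l 16759056)) (l 16764632)) (c (c (b (l 16766048) (l 16750648)) (l 16751768)) (l 16749800)))) (c (a (b (a (l 16756664) (l 16752664)) (l 16760008)) (c (b (l 16758064) (l 16742624)) (l 16764344))) (a (c (l 16760664) (l 16769912)) (l 16761816)))), by decide +kernel⟩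

def k42_pm_001_t : ∃ t, chk3 f_pm_001_t t 28 49 1 = true :=
  ⟨(b (a (a (c (a (l 16770512) (l 16766408)) (l 16766776)) (c (c (l 16763552) (l 16770136)) (l 16768264))) (a (c (c (l 16763640) (l 16740944)) (l 16738408)) (c (l 16749784) (l 16729792)))) (a (a (c (l 16757992) (l 16766024)) (c (l 16760400) (l 16736136))) (a (c (l 16731512) (l 16727336)) (l 16742280)))), by decide +kernel⟩

def k43_pm_001_t : ∃ t, chk3 f_pm_001_t t 29 24 1 = true :=
  ⟨(b (a (a (b (c (c (a (l 16759840) (l 16745680)) (l 16766824)) (l 16764384)) (c (c (l 16758704) (l 16735584)) (l 16732424))) (b (c (a (l 16741096) (b (l 16750384) (l 16735024))) (b (l 16758856) (l 16732456))) (c (l 16729376) (l 16724304)))) (b (a (a (b (l 16734000) (l 16749928)) (l 16748632)) (l 16743008)) (a (c (b (l 16745816) (l 16719984)) (l 16737472)) (b (l 16714688) (l 16730752))))) (a (c (b (a (l 16726592) (l 16719432)) (l 16739096)) (b (l 16738392) (l 16727552))) (b (a (l 16709192) (b (l 16704816) (l 16699784))) (a (l 16698896) (l 16692136))))), by decide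 +kernel⟩

def k44_pm_001_t : ∃ t, chk3 f_pm_001_t t 14 25 1 = true :=
  ⟨(a (b (a (b (a (l 16756432) (l 16748008)) (a (l 16745664) (l 16716336))) (b (c (l 16738320) (l 16733024)) (a (l 16708104) (l 16700136)))) (a (a (b (l 16713568) (l 16701760)) (l 16741368)) (c (l 16732520) (l 16725952)))) (b (a (b (a (l 16702992) (l 16695592)) (l 16709704)) (b (l 16706120) (l 16674800))) (a (b (l 16677816) (l 16666136)) (l 16700136)))), by decide +kernel⟩

def k45_pm_001_t : ∃ t, chk3 f_pm_001_t t 15 12 1 = true :=
  ⟨(b (a (a (b (c (a (l 16734216) (l 16706608)) (a (l 16706544) (l 16699344))) (b (a (l 16716464) (l 16688784)) (a (l 16685720) (l 16679408)))) (b (c (a (l 16700264) (l 16694232)) (l 16710152)) (c (l 16679592) (l 16669568)))) (a (b (a (l 16684264) (l 16678816)) (a (l 16665952) (l 16660672))) (b (c (l 16676704) (l 16667112)) (l 16654016)))) (a (b (a (b (l 16714560) (l 16662480)) (b (l 16681904) (l 16672568))) (a (l 16646016) (l 16677696))) (b (a (l 16666376) (l 16636520)) (a (a (l 16629032) (l 16624520))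 (l 16618248))))), by decide +kernel⟩

def k46_pm_001_t : ∃ t, chk3 f_pm_001_t t 7 13 1 = true :=
  ⟨(a (b (a (b (a (a (l 16703800) (l 16695592)) (b (l 16668976) (l 16656008))) (a (b (l 16679552) (l 16665544)) (b (l 16642504) (l 16628568)))) (b (a (l 16689240) (l 16633416)) (a (l 16641208) (l 16606176)))) (a (b (a (a (l 16627344) (l 16619416)) (b (l 16614552) (l 16600624))) (a (a (l 16599080) (l 16591400)) (c (l 16583784) (l 16576184)))) (a (b (l 16613232) (l 16585640)) (b (l 16577992) (l 16550240))))) (b (a (b (a (l 16621224) (l 16611048)) (a (l 16593728) (l 16583312))) (b (a (l 16603080) (l 16596760)) (a (l 16575240) (l 16570464)))) (a (b (a (l 16565184) (l 16554312)) (a (l 16537056) (l 6))) (b (a (l 16545784) (l 6)) (l 6))))), by decide +kernel⟩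

def k47_pm_001_t : ∃ t, chk3 f_pm_001_t t 3 7 1 = true :=
  ⟨(a (b (a (l 2) (b (a (l 2) (b (a (l 2) (b (l 16588832) (l 2))) (l 2))) (l 2))) (l 2)) (b (a (b (a (b (a (b (l 16574208) (l 16559824)) (b (l 16559216) (l 16545208))) (b (a (l 16565736) (l 16572608)) (a (l 2) (l 38218039239)))) (b (a (l 16537368) (l 16544096)) (l 6))) (a (a (l 2) (l 6)) (l 6))) (l 6)) (l 6))), by decide +kernel⟩

theorem s48_pm_001_t : ∃ t, chk3 f_pm_001_t t 56 48 1 = true := ex3_b k39_pm_001_t k40_pm_001_t

theorem s49_pm_001_t : ∃ t, chk3 f_pm_001_t t 28 48 1 = true := ex3_a s48_pm_001_t k41_pm_001_t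

theorem s50_pm_001_t : ∃ t, chk3 f_pm_001_t t 28 24 1 = true := ex3_b s49_pm_001_t k42_pm_001_t

theorem s51_pm_001_t : ∃ t, chk3 f_pm_001_t t 14 24 1 = true := ex3_a s50_pm_001_t k43_pm_001_t

theorem s52_pm_001_t : ∃ t, chk3 f_pm_001_t t 14 12 1 = true := ex3_b s51_pm_001_t k44_pm_001_t

theorem s53_pm_001_t : ∃ t, chk3 f_pm_001_t t 7 12 1 = true := ex3_a s52_pm_001_t k45_pm_001_t

theorem s54_pm_001_t : ∃ t, chk3 f_pm_001_t t 7 6 1 = true := ex3_b s53_pm_001_t k46_pm_001_t

theorem s55_pm_001_t : ∃ t, chk3 f_pm_001_t t 26 25 1 = true := ex3_b k35_pm_001_t k36_pm_001_t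

theorem s56_pm_001_t : ∃ t, chk3 f_pm_001_t t 13 25 1 = true := ex3_a s55_pm_001_t k37_pm_001_t

theorem s57_pm_001_t : ∃ t, chk3 f_pm_001_t t 27 24 1 = true := ex3_b k33_pm_001_t k34_pm_001_t

theorem s58_pm_001_t : ∃ t, chk3 f_pm_001_t t 13 24 1 = true := ex3_a k32_pm_001_t s57_pm_001_t

theorem s59_pm_001_t : ∃ t, chk3 f_pm_001_t t 13 12 1 = true := ex3_b s58_pm_001_t s56_pm_001_t

theorem s60_pm_001_t : ∃ t, chk3 f_pm_001_t t 6 12 1 = true := ex3_a k31_pm_001_t s59_pm_001_t

theorem s61_pm_001_t : ∃ t, chk3 f_pm_001_t t 6 6 1 = true := ex3_b s60_pm_001_t k38_pm_001_t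

theorem s62_pm_001_t : ∃ t, chk3 f_pm_001_t t 3 6 1 = true := ex3_a s61_pm_001_t s54_pm_001_t

theorem s63_pm_001_t : ∃ t, chk3 f_pm_001_t t 3 3 1 = true := ex3_b s62_pm_001_t k47_pm_001_t

theorem s64_pm_001_t : ∃ t, chk3 f_pm_001_t t 58 46 1 = true := ex3_b k26_pm_001_t k27_pm_001_t

theorem s65_pm_001_t : ∃ t, chk3 f_pm_001_t t 29 46 1 = true := ex3_a s64_pm_001_t k28_pm_001_t

theorem s66_pm_001_t : ∃ t, chk3 f_pm_001_t t 29 23 1 = true := ex3_b s65_pm_001_t k29_pm_001_t

theorem s67_pm_001_t : ∃ t, chk3 f_pm_001_t t 57 190 1 = true := ex3_a k23_pm_001_t k24_pm_001_t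

theorem s68_pm_001_t : ∃ t, chk3 f_pm_001_t t 57 95 1 = true := ex3_b s67_pm_001_t k25_pm_001_t

theorem s69_pm_001_t : ∃ t, chk3 f_pm_001_t t 231 376 2 = true := ex3_a k18_pm_001_t k19_pm_001_t

theorem s70_pm_001_t : ∃ t, chk3 f_pm_001_t t 231 376 1 = true := ex3_c s69_pm_001_t k20_pm_001_t

theorem s71_pm_001_t : ∃ t, chk3 f_pm_001_t t 231 188 1 = true := ex3_b s70_pm_001_t k21_pm_001_t

theorem s72_pm_001_t : ∃ t, chk3 f_pm_001_t t 461 754 4 = true := ex3_b k13_pm_001_t k14_pm_001_t

theorem s73_pm_001_t : ∃ t, chk3 f_pm_001_t t 461 377 4 = true := ex3_b s72_pm_001_t k15_pm_001_t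

theorem s74_pm_001_t : ∃ t, chk3 f_pm_001_t t 461 377 2 = true := ex3_c s73_pm_001_t k16_pm_001_t

theorem s75_pm_001_t : ∃ t, chk3 f_pm_001_t t 230 377 2 = true := ex3_a k12_pm_001_t s74_pm_001_t

theorem s76_pm_001_t : ∃ t, chk3 f_pm_001_t t 230 188 2 = true := ex3_b k11_pm_001_t s75_pm_001_t

theorem s77_pm_001_t : ∃ t, chk3 f_pm_001_t t 230 188 1 = true := ex3_c s76_pm_001_t k17_pm_001_t

theorem s78_pm_001_t : ∃ t, chk3 f_pm_001_t t 115 188 1 = true := ex3_a s77_pm_001_t s71_pm_001_t

theorem s79_pm_001_t : ∃ t, chk3 f_pm_001_t t 115 94 1 = true := ex3_b s78_pm_001_t k22_pm_001_t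

theorem s80_pm_001_t : ∃ t, chk3 f_pm_001_t t 229 189 1 = true := ex3_a k9_pm_001_t k10_pm_001_t

theorem s81_pm_001_t : ∃ t, chk3 f_pm_001_t t 114 189 1 = true := ex3_a k8_pm_001_t s80_pm_001_t

theorem s82_pm_001_t : ∃ t, chk3 f_pm_001_t t 114 94 1 = true := ex3_b k7_pm_001_t s81_pm_001_t

theorem s83_pm_001_t : ∃ t, chk3 f_pm_001_t t 57 94 1 = true := ex3_a s82_pm_001_t s79_pm_001_t

theorem s84_pm_001_t : ∃ t, chk3 f_pm_001_t t 57 47 1 = true := ex3_b s83_pm_001_t s68_pm_001_t

theorem s85_pm_001_t : ∃ t, chk3 f_pm_001_t t 28 47 1 = true := ex3_a k6_pm_001_t s84_pm_001_t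

theorem s86_pm_001_t : ∃ t, chk3 f_pm_001_t t 28 23 1 = true := ex3_b k5_pm_001_t s85_pm_001_t

theorem s87_pm_001_t : ∃ t, chk3 f_pm_001_t t 14 23 1 = true := ex3_a s86_pm_001_t s66_pm_001_t

theorem s88_pm_001_t : ∃ t, chk3 f_pm_001_t t 14 11 1 = true := ex3_b k4_pm_001_t s87_pm_001_t

theorem s89_pm_001_t : ∃ t, chk3 f_pm_001_t t 7 11 1 = true := ex3_a s88_pm_001_t k30_pm_001_t

theorem s90_pm_001_t : ∃ t, chk3 f_pm_001_t t 7 5 1 = true := ex3_b k3_pm_001_t s89_pm_001_t

theorem s91_pm_001_t : ∃ t, chk3 f_pm_001_t t 3 5 1 = true := ex3_a k2_pm_001_t s90_pm_001_t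

theorem s92_pm_001_t : ∃ t, chk3 f_pm_001_t t 3 2 1 = true := ex3_b k1_pm_001_t s91_pm_001_t

theorem s93_pm_001_t : ∃ t, chk3 f_pm_001_t t 3 1 1 = true := ex3_b s92_pm_001_t s63_pm_001_t

theorem s94_pm_001_t : ∃ t, chk3 f_pm_001_t t 1 1 1 = true := ex3_a k0_pm_001_t s93_pm_001_t

theorem c_pm_001_t : CertNE 0 536870912 536870912 536870912 740881858 40050571 3 eng mog cd0q0 cd0q1 pd0 false true false .up 0 0 1
    ndB0q0 ndB0q1 pcB0 cut_pm_001_t Ext.none :=
  certNE0 (fam := false) (s1 := true) (s2 := false) (a := 0) (b := 0) (c := 1) (cn := .up) (n1 := ndB0q0) (n2 := ndB0q1) (pc := pcB0) (cut := cut_pm_001_t) (xt := Ext.none) (P1 := 0) (W1 := 536870912) (P2 := 536870912) (W2 := 536870912) (P3 := 740881858) (W3 := 40050571) (N0 := 3) (En := eng) (mo := mog) (C1 := cd0q0) (C2 := cd0q1) (C3 := pd0)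
    rfl s94_pm_001_t

noncomputable def cut_pm_011_s : Cut := Cut.of [[⟨4, 0, 0, 1449551462⟩], [⟨0, 0, 0, 67108864⟩, ⟨1, 1, 0, 67108864⟩, ⟨2, 1, 0, 67108864⟩]]

noncomputable def f_pm_011_s : ℕ → ℕ → ℕ → ℕ → Bool := onCell 0 536870912 536870912 536870912 740881858 40050571
    (rowNE 3 eng mog cd0q0 cd0q1 pd1 0 false true false .pnn 0 1 1 (qsf 0 536870912 536870912 536870912 1) ndB0q0 ndB0q1 pcB1 cut_pm_011_s Ext.none)

def k0_pm_011_s : ∃ t, chk3 f_pm_011_s t 1 1 1 = true :=
  ⟨(l 6), by decide +kernel⟩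

theorem c_pm_011_s : CertNE 0 536870912 536870912 536870912 740881858 40050571 3 eng mog cd0q0 cd0q1 pd1 false true false .pnn 0 1 1
    ndB0q0 ndB0q1 pcB1 cut_pm_011_s Ext.none :=
  certNE0 (fam := false) (s1 := true) (s2 := false) (a := 0) (b := 1) (c := 1) (cn := .pnn) (n1 := ndB0q0) (n2 := ndB0q1) (pc := pcB1) (cut := cut_pm_011_s) (xt := Ext.none) (P1 := 0) (W1 := 536870912) (P2 := 536870912) (W2 := 536870912) (P3 := 740881858) (W3 := 40050571) (N0 := 3) (En := eng) (mo := mog) (C1 := cd0q0) (C2 := cd0q1) (C3 := pd1)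
    rfl k0_pm_011_s

noncomputable def cut_pm_011_t : Cut := Cut.of [[⟨3, 0, 0, 2845415833⟩], [⟨0, 0, 0, 67108864⟩, ⟨1, 1, 0, 67108864⟩, ⟨2, 1, 0, 67108864⟩]]

noncomputable def f_pm_011_t : ℕ → ℕ → ℕ → ℕ → Bool := onCell 0 536870912 536870912 536870912 740881858 40050571
    (rowNE 3 eng mog cd0q0 cd0q1 pd1 0 false true false .pnn 0 1 1 (qsf 0 536870912 536870912 536870912 1) ndB0q0 ndB0q1 pcB1 cut_pm_011_t Ext.none)

def k0_pm_011_t : ∃ t, chk3 f_pm_011_t t 1 2 1 = true :=
  ⟨(a (l 4) (b (l 1) (a (l 4) (l 1)))), by decide +kernel⟩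

def k1_pm_011_t : ∃ t, chk3 f_pm_011_t t 2 6 1 = true :=
  ⟨(a (l 4) (b (l 4) (a (l 4) (b (l 4) (a (b (l 4) (a (l 4) (b (l 4) (a (l 4) (b (l 4) (a (l 4) (b (l 206930181783) (a (a (l 124252070119) (l 16779752)) (l 16775488))))))))) (b (a (l 4) (b (a (l 4) (b (l 4) (a (l 4) (l 238068691175)))) (a (b (l 4) (a (l 247195498087) (b (l 197803375255) (a (l 73786204775) (l 16775112))))) (b (a (b (l 4) (a (l 238605564407) (l 64659399095))) (b (a (l 102240364391) (l 16776064)) (l 16773568))) (a (c (l 16778320) (l 16777680)) (l 16767840)))))) (a (b (a (l 4) (b (a (l 4) (b (l 4) (a (l 4) (l 81302397911)))) (a (b (l 207467052615) (a (l 86671104695) (l 16775408))) (b (c (l 16775344) (l 16780576)) (l 16771504))))) (a (b (b (a (l 4) (a (l 197266505815) (l 21172854119))) (a (a (l 4) (l 89355459431)) (l 16774176))) (a (a (b (l 21172854183) (l 16772904)) (l 16772256)) (l 16768360))) (b (a (l 16770912) (l 16765712)) (l 16765824)))) (b (a (a (b (b (a (l 120493975847) (l 16776496)) (l 16773984)) (l 16768208)) (b (l 16770672)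 (l 16762992))) (b (a (l 16765432) (l 16760208)) (l 16760424))) (a (c (l 16759328) (l 16759312)) (c (l 16743728) (l 16743752))))))))))), by decide +kernel⟩

def k2_pm_011_t : ∃ t, chk3 f_pm_011_t t 4 14 1 = true :=
  ⟨(a (l 4) (b (l 4) (a (l 4) (b (l 4) (a (l 4) (b (l 4) (a (b (l 4) (a (l 4) (b (l 4) (b (a (l 4) (a (l 4) (a (l 4) (b (l 4) (l 71638715015))))) (b (a (l 4) (a (c (l 114588388775) (l 116199001495)) (c (l 16776592) (l 16776576)))) (a (c (l 199413991495) (l 201561475111)) (c (l 16776088) (l 16777368)))))))) (b (a (l 4) (b (a (l 4) (a (l 4) (c (l 211225153255) (l 214446378647)))) (b (a (l 4) (a (c (c (l 95797908215) (l 95797908199)) (l 158611800295)) (c (l 16779232) (l 16778888)))) (a (a (c (l 123715195975) (l 181697250839)) (b (a (l 152706222743) (l 60901296727)) (l 16777808))) (c (l 16774984) (l 16774928)))))) (b (b (a (a (l 4) (b (c (l 195655895031) (l 197803378631)) (a (l 203708958103) (a (l 55532587559) (l 16776600))))) (a (c (l 16775408) (l 16776680)) (c (l 16767336) (c (l 16772504) (l 16768520)))))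 (a (a (b (l 4) (a (l 4) (a (l 107609066151) (l 16778312)))) (a (c (l 16779144) (l 16778792)) (l 16775128))) (c (l 16771600) (a (a (l 16768408) (l 16772192)) (l 16770016))))) (b (a (b (a (a (c (l 16778664) (l 77007424823)) (l 16776176)) (l 16774016)) (c (l 16774920) (a (l 16775648) (l 16772744)))) (a (a (l 16771248) (l 16769816)) (l 16770296))) (a (c (l 16771800) (a (l 16773800) (l 16773512))) (a (l 16769416) (l 16765256))))))))))))), by decide +kernel⟩

def k3_pm_011_t : ∃ t, chk3 f_pm_011_t t 8 30 1 = true :=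
  ⟨(a (l 4) (b (l 4) (a (l 4) (b (l 4) (a (l 4) (b (l 4) (a (l 4) (b (l 4) (b (a (l 4) (b (a (l 4) (a (l 4) (a (l 4) (c (l 206393312199) (l 209077666743))))) (a (l 4) (a (b (l 4) (a (b (l 4) (c (l 16777256) (l 72175584039))) (b (c (l 16777232) (l 64659391223)) (l 16776960)))) (b (a (b (l 4) (c (l 16777208) (l 16777528))) (c (l 16777048) (l 16777528))) (c (l 16776600) (l 16776584))))))) (a (b (l 4) (a (l 4) (b (a (l 4) (c (c (l 82376132087) (l 83449873895)) (b (l 192971538919) (a (l 146263769815) (l 16777120))))) (a (a (l 4) (c (l 70028100759) (b (l 161296155351) (l 16777496)))) (a (c (l 16777000) (l 16777320)) (l 16776656)))))) (a (b (b (a (l 4) (c (c (l 63048779191) (l 63585650103)) (a (a (l 4) (l 107072193463)) (b (l 85597356807) (l 16777016))))) (c (a (c (l 72175584743) (l 71638713863)) (l 16776720)) (a (b (l 177402282407) (a (l 122104578791) (l 16777072))) (l 16776704)))) (c (c (l 16776112) (l 16776096)) (b (c (l 16776408) (a (l 16777080) (l 16775056))) (a (a (l 16776288) (l 16775928)) (l 16775384)))))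 (b (c (c (l 16776000) (l 16775984)) (c (l 16775960) (a (l 16776312) (b (l 16775912) (l 16775248))))) (a (b (a (l 16775528) (l 16775176)) (l 16775032)) (c (l 16774360) (l 16774272))))))))))))))), by decide +kernel⟩

def k4_pm_011_t : ∃ t, chk3 f_pm_011_t t 16 31 1 = true :=
  ⟨(b (b (l 4) (l 14)) (l 14)), by decide +kernel⟩

def k5_pm_011_t : ∃ t, chk3 f_pm_011_t t 34 124 1 = true :=
  ⟨(a (l 4) (b (l 4) (a (l 4) (a (l 4) (b (l 4) (b (l 4) (b (a (l 4) (a (b (l 4) (b (l 4) (b (c (l 161833026423) (l 200487731655)) (a (l 4) (c (l 16777560) (c (l 16777232) (l 68417487367))))))) (a (b (l 4) (b (b (c (l 137136964151) (l 138210705959)) (c (l 16777536) (c (l 16777208) (l 52311360055)))) (c (l 16777000) (l 16777000)))) (b (b (l 4) (a (c (l 128547029527) (l 131231384087)) (c (l 16777192) (l 42110812679)))) (c (l 16776824) (l 16776976)))))) (a (a (b (l 4) (b (l 4) (a (l 4) (a (l 4) (b (l 4) (c (l 16777240) (l 16777408))))))) (a (b (l 4) (b (a (l 4) (c (l 96871645719) (l 99019129367))) (c (l 16777408) (c (l 16777080)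 (l 16777408))))) (b (b (l 4) (a (l 4) (c (l 80228647495) (c (l 16777584) (l 81302389319))))) (c (l 16777232) (b (l 16777384) (l 16776080)))))) (a (c (b (a (b (c (l 93113549543) (l 93650420455)) (l 16777048)) (l 16776864)) (l 16776400)) (a (b (b (a (l 170422960663) (c (l 16777568) (l 72175583783))) (l 16777368)) (b (l 16776064) (l 16776384))) (c (l 16776856) (b (l 16777016) (l 16776848))))) (b (a (c (l 16775872) (a (l 16775936) (l 16775760))) (c (l 16776184) (c (l 16776160) (l 16776144)))) (c (l 16776360) (c (l 16775672) (l 16776312))))))))))))), by decide +kernel⟩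

def k6_pm_011_t : ∃ t, chk3 f_pm_011_t t 68 125 1 = true :=
  ⟨(b (b (l 4) (l 14)) (l 14)), by decide +kernel⟩

def k7_pm_011_t : ∃ t, chk3 f_pm_011_t t 276 250 1 = true :=
  ⟨(b (l 4) (b (b (b (l 4) (l 14)) (l 14)) (l 14))), by decide +kernel⟩

def k8_pm_011_t : ∃ t, chk3 f_pm_011_t t 277 500 1 = true :=
  ⟨(b (l 4) (a (a (l 4) (b (l 4) (b (l 4) (b (b (l 4) (a (l 4) (a (l 4) (c (l 16777224) (l 16777384))))) (a (b (l 4) (a (l 4) (c (l 16777240) (l 75933679991)))) (c (l 16777408) (a (a (l 38889587143) (l 16777128)) (l 16777000)))))))) (a (b (l 4) (b (b (b (c (l 201561473527) (l 205319569895)) (a (l 4) (c (l 73249325623) (a (l 169886089575) (l 16777192))))) (a (b (l 4) (a (l 4) (c (l 16777208) (l 16777368)))) (c (l 16777368) (c (l 16777040) (l 16777280))))) (c (c (l 16777064) (l 16776728)) (b (a (a (l 16777424) (l 16776976)) (l 16776224)) (l 16776560))))) (b (b (l 4) (a (a (c (l 199413989847) (l 203708957127)) (b (l 4) (c (l 64659390983) (a (l 89355452919) (l 41037070791))))) (c (b (c (l 77544293079) (l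 78081163991)) (l 16777008)) (b (b (l 137136964151) (a (l 128010158471) (l 16777152))) (l 16777160))))) (c (c (c (l 16776712) (l 16776376)) (l 16776696)) (a (b (b (l 16777264) (l 16776200)) (c (l 16776200) (l 16776520))) (b (b (l 16776344) (l 16776344)) (l 16775840)))))))), by decide +kernel⟩

def k9_pm_011_t : ∃ t, chk3 f_pm_011_t t 277 501 1 = true :=
  ⟨(a (b (b (b (b (b (a (l 4) (a (c (l 16777504) (a (l 80765518215) (l 16777104))) (l 16776848))) (a (a (l 4) (a (l 4) (c (l 16777256) (l 87207969175)))) (c (l 16776856) (l 16776848)))) (a (b (a (l 4) (c (l 36205232663) (a (l 99556000119) (l 16777120)))) (a (a (l 4) (c (l 16777432) (l 110293418343))) (c (l 16777048) (l 16777040)))) (c (l 16776616) (l 16776600)))) (a (a (a (l 14) (c (l 16776904) (l 16777056))) (c (l 16776648) (l 16776632))) (b (a (c (l 16776464) (l 16776448)) (c (l 16776128) (l 16776096))) (c (l 16775976) (l 16776264))))) (b (a (a (l 14) (c (l 16776008) (l 16776296))) (c (l 16776144) (c (l 16775456) (l 16775752)))) (a (l 14) (c (l 16774848)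 (l 16774776))))) (a (l 14) (b (c (l 16773880) (c (l 16773808) (l 16774416))) (l 14)))) (b (a (b (b (b (a (a (l 16776832) (l 16776328)) (l 16776232)) (c (l 16775936) (l 16776224))) (c (l 16776104) (c (l 16775408) (l 16776040)))) (c (l 16774976) (a (l 16774912) (l 16774224)))) (b (b (c (l 16776064) (l 16775688)) (c (l 16774768) (l 16774696))) (c (l 16773800) (l 16774024)))) (b (a (b (l 16773792) (l 16772808)) (a (l 16773272) (l 16772264))) (a (a (l 14) (l 16771656)) (l 16771792))))), by decide +kernel⟩

def k10_pm_011_t : ∃ t, chk3 f_pm_011_t t 278 1000 1 = true :=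
  ⟨(a (a (l 4) (b (l 4) (b (l 4) (a (b (l 4) (a (b (l 4) (c (l 16777240) (l 16777408))) (c (l 16777168) (c (l 16777168) (l 16777408))))) (b (a (b (l 4) (c (l 16777224) (l 16777392))) (c (l 16777152) (l 16777472))) (c (l 16776928) (l 16776920))))))) (b (a (b (l 4) (a (l 4) (a (l 4) (c (l 167201735495) (l 204782698951))))) (a (b (l 4) (b (c (l 152706220759) (l 196192764247)) (a (c (l 66270003719) (a (l 99556000183) (l 16777360))) (c (l 16777088) (l 16777088))))) (b (a (l 4) (c (l 150021866295) (l 190824055191))) (a (b (c (l 16777536) (a (l 79154905575) (l 16777352))) (l 16776920)) (c (l 16776912) (l 16776904)))))) (a (b (a (b (c (l 175791669895) (l 209077666183)) (b (a (l 4) (c (l 16777200) (l 16777200))) (c (l 16777136) (l 16777456)))) (c (c (l 16777520) (l 16777680)) (a (b (a (l 110293418439) (l 52311359991)) (l 16776960)) (l 16777192)))) (c (l 16776568) (c (l 16776560) (l 16776464)))) (c (c (l 16776216) (l 16776200)) (b (c (l 16776512) (l 16776504)) (a (l 16776680) (l 16775672))))))), by decide +kernel⟩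

def k11_pm_011_t : ∃ t, chk3 f_pm_011_t t 279 1000 1 = true :=
  ⟨(b (a (c (b (a (a (b (l 132841996999) (l 16777448)) (c (l 16776952) (l 16776944))) (l 16776440)) (c (l 16776152) (l 16776136))) (a (b (b (a (l 179549765927) (a (c (l 16777184) (l 16777464)) (l 16777024))) (b (a (a (l 112977772887) (l 16777128)) (l 16776208)) (l 16776880))) (c (l 16776472) (l 16776456))) (b (a (l 16776592) (a (l 16775672) (l 16776152))) (c (l 16776424) (l 16776240))))) (a (b (c (l 16776408) (c (l 16775720) (l 16776192))) (a (l 16775416) (l 16774904))) (c (l 16775400) (a (l 16775176) (l 16774496))))) (b (c (a (a (a (l 16776016) (l 16775672)) (l 16775152)) (l 16774776)) (a (a (a (l 16776632) (l 16775624)) (l 16775752)) (c (l 16774056) (l 16774664)))) (a (a (c (l 16775200) (l 16775792)) (a (l 16774648) (l 16774296))) (c (l 16773472) (l 16773696))))), by decide +kernel⟩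

def k12_pm_011_t : ∃ t, chk3 f_pm_011_t t 139 1001 1 = true :=
  ⟨(b (a (a (a (b (b (a (l 4) (c (c (l 63048778439) (l 16777560)) (a (c (l 121567707655) (l 122641449479)) (a (l 51237618167) (l 16777152))))) (c (a (c (l 68954358503) (l 70028100311)) (l 16776968)) (a (a (l 132841996823) (a (l 61438165527) (l 16777496))) (l 16776960)))) (c (c (l 16776656) (l 16776648)) (c (l 16776640) (a (l 16776976) (a (l 16776056) (l 16776368)))))) (c (c (l 16776296) (l 16776288)) (a (b (l 16776776) (c (l 16776120) (l 16776760))) (b (b (l 16775928) (l 16776256)) (l 16775760))))) (b (a (a (c (l 16776096) (l 16776392)) (c (l 16775752) (l 16775712))) (c (l 16775240) (l 16775840))) (a (c (l 16775280) (l 16775880)) (c (l 16774600) (l 16774520))))) (a (a (c (l 16774888) (a (l 16774320) (l 16773968))) (c (l 16773544) (l 16773432))) (c (l 16773168) (c (l 16772408) (l 16772992))))) (a (a (b (a (a (c (l 16775528) (c (l 16776160) (l 16776472))) (c (l 16775840) (l 16775800))) (c (l 16775328) (l 16775600))) (a (c (l 16775368) (l 16775640))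 (c (l 16774680) (l 16774608)))) (a (c (l 16774976) (c (l 16774256) (l 16774864))) (c (l 16773632) (l 16774184)))) (a (c (l 16773256) (c (l 16772496) (l 16773088))) (c (l 16771216) (l 16771704))))), by decide +kernel⟩

def k13_pm_011_t : ∃ t, chk3 f_pm_011_t t 139 501 1 = true :=
  ⟨(a (c (b (b (a (a (l 16775056) (l 16773712)) (l 16773336)) (a (l 16773096) (l 16771392))) (c (a (l 16771536) (l 16769520)) (a (l 16771200) (l 16769408)))) (b (a (a (b (a (l 16775152) (l 16774144)) (l 16772992)) (b (l 16773944) (l 16772288))) (b (c (l 16772584) (l 16772848)) (l 16771552))) (a (b (l 16771640) (l 16769984)) (a (l 16770240) (l 16768880))))) (a (c (b (c (l 16772024) (l 16771272)) (l 16768080)) (b (b (l 16771792) (l 16769808)) (c (l 16767888) (l 16768408)))) (b (c (l 16769944) (a (l 16770064) (l 16768696))) (b (l 16767864) (l 16765896))))), by decide +kernel⟩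

def k14_pm_011_t : ∃ t, chk3 f_pm_011_t t 69 251 1 = true :=
  ⟨(a (a (l 14) (a (l 14) (a (l 14) (b (b (b (l 16769824) (l 14)) (l 14)) (l 14))))) (b (a (a (c (b (l 16768912) (l 16765672)) (b (c (l 16768056) (l 16768584)) (l 16766648))) (b (b (l 16768040) (l 16766072)) (a (l 16765112) (l 16763760)))) (a (c (b (l 16765504) (l 16762920)) (b (l 16765160) (l 16762504))) (c (b (l 16764120) (l 16761544)) (b (l 16763744) (l 16761080))))) (b (a (a (l 14) (a (l 14) (l 16761144))) (a (l 16760752) (l 16758696))) (a (l 14) (c (l 16757064) (l 16756472)))))), by decide +kernel⟩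

def k15_pm_011_t : ∃ t, chk3 f_pm_011_t t 70 248 1 = true :=
  ⟨(a (l 4) (b (l 4) (b (a (l 4) (a (l 4) (a (l 4) (b (l 4) (b (l 4) (b (a (l 4) (c (l 149484995255) (l 144116286167))) (a (c (l 157001188055) (l 157538058967)) (c (l 16777144) (l 16777472))))))))) (a (b (l 4) (b (l 4) (b (l 4) (a (l 4) (a (l 4) (a (l 4) (c (l 92039807767) (a (l 169886089751) (l 73786196519))))))))) (b (a (b (l 4) (b (l 4) (a (l 4) (a (l 4) (c (l 16777544) (a (l 102777225863) (l 16777168))))))) (a (a (b (l 4) (b (c (l 16777528) (a (l 91502936679) (l 16777144))) (l 16777000))) (b (b (c (l 170422960807) (l 206393311623)) (c (l 16777184) (c (l 16777176) (l 43184554647)))) (c (l 16776736) (l 16776720)))) (c (c (l 16777192) (l 16777176)) (a (b (a (b (l 16777560) (l 16776952)) (l 16776936)) (l 16775712)) (l 16776176))))) (a (a (b (b (l 4) (a (l 4) (c (l 72712454935) (a (l 138210705959) (l 16777528))))) (c (c (l 16777640) (l 16777640)) (b (a (a (l 114051515207) (l 16777544)) (l 16776992)) (l 16777168)))) (c (a (c (l 16777456) (l 16777448))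 (l 16776464)) (b (b (a (a (l 119957094999) (l 16777184)) (l 16776944)) (l 16776792)) (a (l 16775816) (l 16776112))))) (c (c (l 16775608) (l 16775584)) (b (a (a (l 16775768) (l 16776064)) (l 16776184)) (a (l 16776232) (l 16774864)))))))))), by decide +kernel⟩

def k16_pm_011_t : ∃ t, chk3 f_pm_011_t t 280 249 1 = true :=
  ⟨(b (l 4) (b (b (a (l 4) (b (a (l 4) (a (a (l 4) (c (l 145726898983) (l 185992216967))) (b (a (l 4) (c (l 99556000407) (l 102240354951))) (c (l 16777104) (c (l 16777104) (l 16777432)))))) (a (a (c (l 199950860839) (l 203172086295)) (c (b (l 150021866167) (l 16777472)) (b (l 188676571463) (a (l 54458843719) (l 16777072))))) (b (a (c (l 16777456) (a (l 46405779991) (l 16777048))) (l 16776712)) (c (l 16776648) (l 16776632)))))) (a (a (a (l 4) (b (l 4) (b (l 4) (a (c (l 95261033095) (l 97945387639)) (c (l 16777160) (l 16777488)))))) (a (b (l 4) (a (b (c (l 85597356647) (l 88281711191)) (l 16777000)) (c (l 16776984) (l 16777264)))) (c (b (b (l 169886089895) (l 40500200103)) (l 16776736))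 (b (b (l 206930182519) (a (l 78618034743) (l 16777120))) (l 16776720))))) (a (a (a (b (b (c (l 16777560) (l 70564971031)) (l 16776952)) (c (l 16776472) (l 16775800))) (c (l 16776864) (b (l 16776936) (l 16776272)))) (c (l 16776368) (b (l 16776672) (l 16776008)))) (b (a (b (c (l 16776504) (l 16776480)) (l 16776496)) (c (l 16775992) (l 16775960))) (c (l 16775528) (l 16776128)))))) (a (a (c (a (b (b (c (l 16777672) (l 16777744)) (l 16775824)) (l 16776168)) (b (l 16776456) (l 16775824))) (b (b (b (a (a (l 113514644039) (l 16777504)) (l 16776928)) (l 16776776)) (a (a (l 16775888) (l 16775712)) (l 16776760))) (b (a (l 16775792) (l 16775440)) (l 16774952)))) (b (b (a (c (l 16775776) (a (l 16775848) (l 16776320))) (c (l 16776088) (l 16776712))) (c (l 16775616) (l 16775984))) (c (l 16775304) (c (l 16775248) (l 16775048))))) (a (b (b (c (l 16775568) (l 16776016)) (c (l 16774928) (l 16774864))) (c (l 16773960) (l 16774520))) (b (c (l 16775216) (c (l 16774504) (l 16775120))) (c (l 16773272) (l 16773152))))))), by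 decide +kernel⟩

def k17_pm_011_t : ∃ t, chk3 f_pm_011_t t 281 498 1 = true :=
  ⟨(b (l 4) (b (a (l 4) (a (b (l 4) (a (b (l 4) (c (l 75396809463) (a (l 102240355143) (l 16777488)))) (c (c (l 16777768) (l 16777760)) (b (a (l 128010158615) (l 16777520)) (l 16776968))))) (b (a (b (l 4) (c (l 57143198455) (a (l 109756547655) (l 16777168)))) (a (b (c (l 16777608) (l 93113549431)) (l 16777016)) (c (l 16777000) (l 16777320)))) (c (l 16776624) (l 16776600))))) (a (a (b (l 4) (b (a (l 4) (a (l 4) (c (l 16777584) (l 81839260231)))) (a (a (l 4) (c (l 16777608) (l 100092871191))) (c (l 16777064) (l 16777384))))) (c (b (a (c (l 115125257303) (l 115662128215)) (c (l 16777720) (l 16777800))) (l 16777040)) (b (b (b (l 199413989831) (a (l 4) (l 60901294679))) (a (a (l 169886089751) (l 73249325607)) (l 16777016))) (c (l 16776704) (c (l 16777024) (a (l 16777200) (l 16775864))))))) (c (c (c (l 16776016) (l 16776008)) (c (l 16775992) (l 16775984))) (a (c (l 16776328) (b (l 16776808) (a (l 16776160) (l 16775800)))) (b (a (l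 16776776) (l 16775760)) (l 16775936))))))), by decide +kernel⟩

def k18_pm_011_t : ∃ t, chk3 f_pm_011_t t 281 499 1 = true :=
  ⟨(c (b (b (b (a (c (l 16776832) (l 16776736)) (c (l 16776360) (l 16776328))) (a (a (a (l 16776296) (l 16775952)) (l 16775432)) (l 16775048))) (a (a (a (l 16775984) (l 16774984)) (l 16775120)) (c (l 16773456) (l 16773400)))) (b (a (c (l 16773544) (l 16773496)) (l 16772136)) (a (l 16772232) (l 16770848)))) (b (b (a (b (a (b (a (l 16777408) (l 16776088)) (l 16776584)) (a (c (l 16776224) (l 16776208)) (l 16775864))) (a (a (a (l 16776360) (l 16776176)) (l 16775912)) (l 16776032))) (a (b (l 16775984) (l 16774664)) (c (l 16774304) (l 16774920)))) (b (a (a (l 16776080) (l 16774712)) (l 16773976)) (a (a (l 16774768) (l 16774056)) (l 16772984)))) (a (a (b (l 16774424) (l 16772448)) (b (l 16773056) (l 16771736))) (b (a (l 16772344) (l 16771632)) (l 16770664))))), by decide +kernel⟩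

def k19_pm_011_t : ∃ t, chk3 f_pm_011_t t 141 996 1 = true :=
  ⟨(b (a (a (b (l 4) (a (l 4) (c (l 195119022791) (a (l 4) (l 191897797095))))) (a (a (b (l 4) (b (c (l 122641449735) (l 125325804279)) (c (l 16777112) (l 16777432)))) (b (a (l 4) (c (l 123715191687) (l 175791669575))) (c (l 16776936) (c (l 16776928) (l 16777248))))) (b (a (b (a (l 4) (c (l 16777264) (l 82913002055))) (c (l 16777064) (l 16777064))) (c (l 16776888) (l 16777208))) (c (l 16776424) (l 16776400))))) (c (a (c (l 16775712) (l 16775688)) (c (l 16775640) (l 16775600))) (b (a (a (l 16776344) (l 16776288)) (c (l 16774576) (l 16775200))) (a (a (l 16776344) (l 16774968)) (l 16774224))))) (c (a (a (a (b (l 202635215623) (a (b (l 175791669895) (l 16777512)) (c (l 16777024) (l 16777024)))) (b (a (c (l 66270004263) (l 66806875175)) (l 16777304)) (l 16776520))) (c (l 16775816) (l 16775792))) (a (c (l 16775744) (l 16775704)) (l 16774336))) (a (a (a (b (c (l 205319570167) (l 207467053799)) (b (a (l 209077666183) (a (l 74859938343) (l 16777104)))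 (a (a (l 83986743879) (l 16777128)) (l 16776872)))) (b (b (a (l 147337511655) (c (l 16777128) (l 16777456))) (a (a (l 58216940119) (l 16777080)) (l 16776824))) (l 16776504))) (b (a (l 16776448) (l 16776232)) (a (a (l 16775968) (l 16775608)) (l 16775072)))) (a (a (c (l 16774712) (l 16775328)) (l 16774632)) (c (l 16772936) (l 16773528)))))), by decide +kernel⟩

def k20_pm_011_t : ∃ t, chk3 f_pm_011_t t 141 997 1 = true :=
  ⟨(a (b (a (c (c (l 16775912) (l 16775896)) (b (c (l 16776200) (a (l 16776552) (l 16776488))) (a (a (l 16776072) (l 16775712)) (l 16775176)))) (a (c (l 16775520) (c (l 16775464) (l 16775352))) (c (l 16774168) (l 16774736)))) (c (a (a (l 16775616) (l 16774272)) (l 16773888)) (a (a (a (l 16775568) (l 16775376)) (l 16774512)) (a (l 16773472) (l 16772760))))) (b (a (c (l 16773784) (c (l 16773040) (l 16773312))) (c (l 16771736) (l 16772232))) (a (c (l 16771840) (l 16772344)) (a (l 16770704) (l 16770000))))), by decide +kernel⟩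

def k21_pm_011_t : ∃ t, chk3 f_pm_011_t t 141 499 1 = true :=
  ⟨(b (a (b (a (c (l 16773984) (a (l 16773576) (l 16772856))) (c (l 16771944) (l 16772120))) (a (c (l 16772040) (l 16772136)) (c (l 16770656) (l 16770464)))) (a (c (l 16770560) (a (l 16770712) (l 16769336))) (b (a (l 16769400) (l 16768688)) (l 16768232)))) (a (a (a (b (l 16771008) (l 16769704)) (b (l 16770304) (l 16769000))) (c (l 16768720) (a (l 16768832) (l 16768112)))) (a (b (a (l 16768192) (l 16767488)) (l 16766536)) (b (l 16766432) (l 16765120))))), by decide +kernel⟩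

def k22_pm_011_t : ∃ t, chk3 f_pm_011_t t 284 248 1 = true :=
  ⟨(b (a (l 4) (a (l 4) (b (l 4) (b (l 4) (b (l 4) (b (a (l 4) (c (l 16777224) (l 59827552999))) (a (c (l 16777568) (c (l 16777240) (l 67880616679))) (l 16777032)))))))) (b (a (b (b (l 4) (a (l 4) (a (c (l 123715191943) (c (l 128547030055) (l 179549766039))) (b (c (l 97945387767) (l 96871645975)) (c (l 16777056) (l 16777048)))))) (c (b (a (b (l 139284448359) (a (l 126399546135) (l 16777096))) (l 16776744)) (c (l 16776456) (l 16776448))) (a (a (b (l 189213442519) (a (l 16777376) (l 16776880))) (b (b (l 121567707879) (l 16777424)) (l 16776616))) (a (b (l 16777240) (l 16775600)) (l 16776192))))) (b (a (b (a (b (l 4) (c (l 16777608) (l 86671098647))) (b (c (l 16777592) (c (l 16777592) (l 78618034919))) (c (l 16777000) (l 16777000)))) (c (l 16776696) (l 16776848))) (c (l 16776320) (a (l 16776480) (b (l 16775792) (l 16775792))))) (a (b (c (l 16774744) (a (l 16776200) (l 16775840))) (c (l 16775416) (l 16775360))) (c (l 16776352) (c (l 16774992) (l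 16775616)))))) (a (a (b (b (c (l 16774856) (a (l 16775656) (l 16775952))) (a (l 16776000) (l 16775320))) (c (l 16774552) (l 16774968))) (b (c (l 16775800) (a (l 16775920) (l 16774904))) (c (l 16773856) (l 16773760)))) (b (a (c (l 16774448) (l 16775024)) (c (l 16773752) (l 16773656))) (c (l 16772816) (c (l 16772720) (l 16772656))))))), by decide +kernel⟩

def k23_pm_011_t : ∃ t, chk3 f_pm_011_t t 285 248 1 = true :=
  ⟨(b (b (a (l 4) (b (l 4) (a (b (l 4) (a (l 4) (c (l 132305126471) (l 182770991527)))) (b (a (l 4) (c (l 112977773735) (l 170959831399))) (c (c (l 16777688) (l 16777680)) (a (b (l 105461580551) (l 16777064)) (l 16776880))))))) (a (a (b (b (l 4) (c (l 205319570199) (l 208003924743))) (b (a (b (l 4) (c (l 16777200) (l 52311360199))) (b (c (l 16777184) (l 39963329255)) (l 16776896))) (c (l 16776592) (l 16776576)))) (b (c (b (l 197266506455) (c (l 34057749783) (l 35131491591))) (a (b (l 4) (b (l 155390575351) (l 16777488))) (b (l 193508409847) (c (l 16776984) (l 16777304))))) (c (l 16776216) (c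 (l 16776192) (l 16776016))))) (b (c (b (a (c (l 16777736) (l 16777728)) (l 16776424)) (l 16776128)) (b (a (b (a (l 127473287943) (l 16777088)) (l 16777352)) (l 16776400)) (a (l 16776456) (l 16776400)))) (b (a (c (l 16775840) (c (l 16775808) (l 16775792))) (c (l 16775136) (l 16775080))) (c (l 16776160) (c (l 16774792) (l 16775416))))))) (c (b (b (a (a (b (l 16775944) (l 16775304)) (l 16776240)) (l 16774536)) (a (c (l 16774016) (l 16773968)) (l 16772592))) (a (c (l 16773408) (l 16773336)) (l 16771320))) (b (b (b (a (a (a (l 16776088) (l 16775736)) (l 16775192)) (l 16774776)) (a (a (l 16775248) (l 16774536)) (l 16773456))) (a (a (l 16774912) (l 16773544)) (l 16772792))) (b (a (a (l 16772936) (l 16772216)) (l 16771136)) (a (l 16771256) (l 16769816)))))), by decide +kernel⟩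

def k24_pm_011_t : ∃ t, chk3 f_pm_011_t t 143 248 1 = true :=
  ⟨(b (b (c (a (b (a (a (c (l 179012895607) (l 180086637431)) (b (c (l 102777226791) (l 103850968599)) (c (l 16776936) (l 16776928)))) (c (l 16776880) (l 16776864))) (b (a (c (l 16777464) (l 16777296)) (c (l 16775272) (l 16775248))) (c (l 16775336) (l 16774976)))) (a (b (a (l 16776488) (l 16774472)) (l 16774848)) (c (l 16774120) (l 16774056)))) (b (a (a (a (b (l 4) (b (l 4) (a (l 4) (l 71638713127)))) (b (b (l 4) (a (l 4) (l 56069456599))) (b (a (l 62511907591) (l 16776928)) (l 16776776)))) (a (a (a (b (l 16777616) (l 16776496)) (l 16776968)) (l 16776376)) (b (a (l 16775688) (l 16775984)) (l 16775504)))) (a (a (a (l 16775952) (l 16774936)) (l 16775048)) (a (l 16773672) (l 16772952)))) (a (a (b (a (a (b (l 83986744071) (l 16777016)) (l 16776824)) (a (l 16775808) (l 16776104))) (a (l 16776344) (l 16776280))) (a (a (l 16776072) (l 16775056)) (l 16775168))) (a (c (l 16773464) (l 16774064)) (l 16771992))))) (a (a (b (a (b (c (l 16775728) (l 16776336))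 (a (l 16775232) (l 16774872))) (c (l 16774704) (l 16775288))) (c (l 16775080) (a (l 16774032) (l 16773312)))) (b (c (l 16774968) (c (l 16773576) (l 16774184))) (c (l 16772368) (l 16772232)))) (a (b (c (l 16772256) (l 16772112)) (a (l 16771232) (l 16770528))) (c (l 16770208) (c (l 16770064) (l 16770616)))))) (b (a (a (b (c (l 16772480) (l 16773000)) (a (l 16771464) (l 16770760))) (c (l 16770440) (c (l 16770296) (l 16770448)))) (a (b (a (l 16769928) (l 16769224)) (l 16768928)) (b (l 16768808) (l 16766848)))) (a (a (c (l 16769264) (c (l 16769096) (l 16768984))) (c (l 16767864) (l 16767928))) (a (b (l 16766968) (l 16765656)) (a (l 16765248) (l 16764536)))))), by decide +kernel⟩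

def k25_pm_011_t : ∃ t, chk3 f_pm_011_t t 71 249 1 = true :=
  ⟨(a (b (c (a (a (b (b (l 16772920) (l 16771632)) (l 16769704)) (b (c (l 16770928) (l 16770840)) (l 16768304))) (a (b (l 16769488) (l 16766912)) (b (l 16768088) (l 16765512)))) (a (b (b (a (a (l 16773152) (l 16772440)) (l 16771360)) (a (l 16771472) (l 16770040))) (c (a (l 16769536) (l 16768112)) (a (l 16769760) (l 16767984)))) (a (b (c (l 16769320) (l 16769864)) (l 16767272)) (b (c (l 16767896) (l 16767760)) (l 16765176))))) (a (a (c (b (l 16767120) (l 16764544)) (b (l 16767160) (l 16764176))) (c (b (l 16765728) (l 16763152)) (b (l 16765400) (l 16762744)))) (c (b (l 16764288) (l 16761056)) (a (b (l 16763960) (l 16761312)) (b (l 16762528) (l 16759872)))))) (b (a (c (b (c (l 16766072) (l 16765912)) (l 16763416)) (a (b (l 16766392) (l 16763736)) (b (l 16764952) (l 16762296)))) (c (b (l 16763192) (l 16760608)) (b (c (l 16762888) (l 16763344)) (c (l 16760256) (l 16760016))))) (b (c (a (l 16760832) (l 16758032)) (a (c (l 16760480) (l 16760248))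 (l 16758136))) (c (a (l 16758256) (l 16755448)) (a (l 16758368) (l 16754824)))))), by decide +kernel⟩

def k26_pm_011_t : ∃ t, chk3 f_pm_011_t t 70 250 1 = true :=
  ⟨(b (b (a (a (a (b (a (c (l 16774056) (l 16774288)) (c (l 16773360) (l 16773248))) (c (l 16772416) (c (l 16772312) (l 16772896)))) (b (c (l 16772328) (a (l 16772544) (l 16771832))) (c (l 16771040) (l 16770856)))) (a (a (b (l 16771208) (l 16769896)) (b (l 16770504) (l 16769192))) (c (l 16768912) (c (l 16768736) (l 16769272))))) (b (a (c (l 16767480) (c (l 16767272) (l 16767784))) (a (l 16765224) (l 16763816))) (a (a (l 16767392) (l 16765328)) (c (l 16763408) (l 16763008))))) (a (a (a (b (c (l 16771128) (l 16771608)) (c (l 16769840) (l 16769624))) (c (l 16769760) (c (l 16768928) (l 16769136)))) (a (c (l 16767720) (c (l 16767512) (l 16767376))) (c (l 16766336) (l 16766672)))) (a (a (a (l 16765776) (l 16764416)) (a (l 16763712) (l 16763008))) (c (l 16761472) (c (l 16761128) (l 16762216)))))) (a (a (a (c (b (l 16767904) (l 16765328)) (b (c (l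 16767704) (l 16767568)) (l 16764976))) (c (b (l 16766520) (l 16763944)) (b (l 16766872) (l 16763560)))) (c (b (c (l 16764536) (l 16764352)) (l 16763176)) (a (b (l 16764792) (l 16762128)) (b (l 16763360) (l 16760704))))) (a (b (c (l 16762984) (c (l 16761336) (l 16762416))) (a (l 16760184) (l 16758120))) (a (b (l 16759984) (l 16756712)) (b (l 16757920) (l 16755296)))))), by decide +kernel⟩

def k27_pm_011_t : ∃ t, chk3 f_pm_011_t t 70 251 1 = true :=
  ⟨(a (b (a (b (c (l 16762704) (c (l 16761720) (l 16762152))) (a (l 16761224) (l 16758504))) (a (b (l 16760376) (l 16757104)) (b (l 16758320) (l 16755696)))) (a (c (b (l 16756880) (l 16754296)) (b (l 16756288) (l 16753624))) (c (b (l 16754112) (l 16751520)) (b (l 16753440) (l 16750776))))) (a (b (c (b (l 16756504) (l 16753912)) (b (l 16755904) (l 16753240))) (c (b (l 16751328) (l 16748736)) (b (l 16750576) (l 16747912)))) (b (c (b (l 16753720) (l 16751128)) (b (l 16753040) (l 16750376))) (b (a (l 16748832) (l 16747416)) (l 16745496))))), by decide +kernel⟩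

def k28_pm_011_t : ∃ t, chk3 f_pm_011_t t 71 125 1 = true :=
  ⟨(b (b (b (a (a (c (l 16761264) (c (l 16760920) (l 16760688))) (a (l 16759568) (l 16757496))) (c (a (l 16755672) (l 16752864)) (a (l 16755056) (l 16752168)))) (a (a (a (l 16759776) (l 16757704)) (a (l 16756288) (l 16754872))) (c (a (l 16753088) (l 16750280)) (a (l 16752392) (l 16749504))))) (a (b (c (a (l 16756096) (l 16753304)) (a (l 16755488) (l 16752616))) (c (a (l 16753512) (l 16750712)) (a (l 16752832) (l 16749952)))) (c (a (c (l 16749400) (l 16749000)) (l 16747704)) (a (a (l 16749120) (l 16747680)) (c (l 16745736) (l 16745944)))))) (a (b (c (a (b (l 16750920) (l 16748336)) (l 16747808)) (a (a (l 16749552) (l 16748112)) (b (l 16747288) (l 16744624)))) (a (b (l 16746600) (l 16742664)) (b (l 16742448) (l 16739816)))) (b (a (c (l 16744024) (b (l 16744408) (l 16741736))) (b (l 16742008) (l 16739384))) (b (a (l 16739600) (l 16736744)) (a (l 16736968) (c (l 16734696) (l 16733480))))))), by decide +kernel⟩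

def k29_pm_011_t : ∃ t, chk3 f_pm_011_t t 17 126 1 = true :=
  ⟨(a (a (l 14) (b (a (l 14) (a (l 14) (a (l 14) (b (b (l 16753448) (l 14)) (l 14))))) (l 14))) (b (a (a (b (a (b (a (l 16752040) (l 16750632)) (l 16750024)) (b (l 16749832) (l 16745896))) (b (a (l 16746088) (c (l 16743728) (l 16742752))) (a (l 14) (b (a (l 16741984) (l 16740608)) (l 16739968))))) (a (b (b (l 16745696) (l 16743072)) (b (b (l 16741072) (a (l 16740472) (l 16739096))) (l 16737792))) (b (b (l 16742864) (a (l 16740944) (l 16739512))) (b (b (a (l 16738952) (l 16737576)) (l 16736936)) (l 16734944))))) (b (b (a (a (l 16740032) (c (l 16737728) (l 16736592))) (b (a (l 16734968) (a (l 16732832) (l 16731448))) (a (a (l 16734368) (l 16732984)) (l 16730800)))) (a (b (a (l 16738032) (a (l 16735904) (l 16734520))) (a (a (l 16737432) (l 16736048)) (l 16733880))) (c (l 16730888) (l 16729592)))) (a (c (a (l 16734016) (l 16731184)) (a (l 16732808) (l 16729912))) (c (a (l 16728344) (l 16725496)) (a (l 16727008) (l 16724104)))))) (a (a (a (l 14)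 (a (l 14) (b (l 16735936) (l 14)))) (a (b (c (l 16734392) (l 16733232)) (l 16731104)) (b (c (l 16731576) (l 16730352)) (c (l 16726304) (l 16725008))))) (a (a (b (c (l 16728744) (l 16727456)) (l 16725416)) (b (c (l 16725896) (l 16724552)) (l 16719904))) (b (c (l 16724248) (a (l 16721640) (l 16718720))) (c (l 16716336) (l 16714808))))))), by decide +kernel⟩

def k30_pm_011_t : ∃ t, chk3 f_pm_011_t t 17 127 1 = true :=
  ⟨(a (l 14) (b (a (b (a (l 14) (c (l 16724984) (l 16723648))) (l 14)) (b (a (a (l 16720096) (l 16714600)) (c (l 16711048) (l 16709448))) (b (a (c (l 16712792) (l 16711280)) (l 16706256)) (a (c (l 16710088) (l 16708528)) (c (l 16704432) (l 16702744)))))) (a (l 14) (a (b (c (l 16706096) (l 16704448)) (l 14)) (b (l 16699592) (l 16694832)))))), by decide +kernel⟩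

def k31_pm_011_t : ∃ t, chk3 f_pm_011_t t 18 60 1 = true :=
  ⟨(a (l 4) (b (l 4) (a (l 4) (b (l 4) (a (b (l 4) (a (l 4) (a (b (l 4) (b (c (l 203708958135) (l 206393312663)) (b (a (l 162369898119) (a (l 69491229959) (l 16776968))) (c (l 16776848) (l 16778144))))) (b (b (l 4) (c (l 190287185127) (l 188139701447))) (a (b (c (l 57680071079) (a (l 90966067127) (l 16778104))) (l 16776120)) (c (l 16776040) (l 16776664))))))) (b (b (b (l 4) (a (l 4) (a (l 4) (a (c (l 132305127703) (l 183844733767)) (c (l 16778424) (c (l 16777104) (l 43721427127))))))) (a (a (l 4) (a (l 4) (b (l 4) (b (l 4) (a (l 93650421111) (l 16777072)))))) (a (b (a (c (l 119957097943) (l 208003925031)) (c (l 60901296583) (a (l 94724163543) (l 16777776)))) (c (l 16776496) (l 16777624))) (c (l 16775712) (c (l 16775680) (l 16776312)))))) (a (b (b (a (b (l 4) (c (l 105998453287) (l 165591122551))) (a (b (a (l 116198999367) (l 16777800)) (l 16776728)) (l 16776328))) (c (c (l 16778088) (l 16777416)) (a (a (a (l 64659392487) (l 16776992)) (l 16776480))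 (l 16775392)))) (a (c (l 16774976) (l 16774344)) (b (a (l 16774496) (l 16773776)) (l 16774176)))) (b (c (a (l 16774640) (l 16775832)) (c (l 16773856) (a (b (l 16772576) (l 16773896)) (l 16775696)))) (a (b (l 16774000) (l 16771416)) (a (l 16770968) (l 16770248))))))))))), by decide +kernel⟩

def k32_pm_011_t : ∃ t, chk3 f_pm_011_t t 36 122 1 = true :=
  ⟨(a (l 4) (b (l 4) (a (b (l 4) (b (l 4) (b (l 4) (b (l 4) (a (l 4) (a (l 4) (a (l 4) (a (l 4) (b (l 4) (l 56606327575)))))))))) (b (b (l 4) (b (l 4) (a (l 4) (a (l 4) (a (c (l 186529088439) (l 190287184807)) (b (c (l 113514645079) (l 116198999623)) (c (l 16776984) (l 16777624)))))))) (b (b (a (l 4) (c (a (a (l 207467054183) (a (l 100629743511) (l 49090135895))) (a (l 16778048) (l 16776056))) (a (b (l 202098344999) (a (l 209077666535) (a (l 16777728) (l 16776960)))) (a (a (l 16777800) (l 16776568)) (l 16776024))))) (b (a (l 4) (a (a (c (l 16777800) (a (l 82376131783) (l 16777024))) (l 16776512)) (a (a (l 16775968) (l 16775608)) (l 16775072)))) (a (a (l 4)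 (a (l 4) (c (l 16777848) (a (l 102777226391) (l 16777088))))) (c (l 16775528) (a (l 16776208) (l 16774752)))))) (b (a (a (a (l 4) (b (l 4) (c (l 75396810375) (a (l 143042544743) (l 16777840))))) (c (c (l 16777976) (l 16777960)) (b (a (a (l 120493966503) (l 16777152)) (l 16776648)) (l 16776360)))) (c (c (l 16774592) (l 16774552)) (a (a (a (l 16774464) (l 16775408)) (l 16774864)) (l 16775080)))) (a (a (a (b (c (l 88818583159) (a (l 118346483447) (l 66806875319))) (c (l 16776864) (l 16776856))) (c (l 16776488) (l 16776464))) (c (l 16775424) (a (a (l 16774616) (l 16775560)) (l 16775016)))) (c (a (l 16774008) (l 16772592)) (a (l 16775232) (l 16772456)))))))))), by decide +kernel⟩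

def k33_pm_011_t : ∃ t, chk3 f_pm_011_t t 72 246 1 = true :=
  ⟨(a (l 4) (b (l 4) (a (b (l 4) (b (a (l 4) (a (c (l 203708957783) (l 206393312311)) (c (b (l 148948125111) (l 16777904)) (b (l 189750313591) (a (a (l 88281711591) (l 16777496)) (l 16776936)))))) (a (b (l 4) (a (l 4) (a (b (l 4) (a (l 106535322263) (l 16777496))) (c (l 16777064) (l 16777712))))) (a (a (b (c (l 16777768) (c (l 16777928) (l 77007422535))) (l 16776728)) (c (l 16776688) (l 16777168))) (c (l 16776168) (l 16776144)))))) (b (a (b (l 4) (b (a (l 4) (a (l 4) (c (l 96871646343) (l 95261033687)))) (a (c (l 127473288711) (l 179549766183)) (c (l 16776976) (a (l 16777792) (l 16776808)))))) (b (a (b (l 4) (c (l 99556001351) (c (l 102777226727) (l 162369896807)))) (b (c (l 86134228583) (a (l 205856440855) (l 63585649831))) (c (l 16776856) (l 16777496)))) (b (a (c (l 16776912) (l 16777560)) (l 16776168)) (c (l 16775944) (l 16775904))))) (a (a (b (a (b (c (l 16777176) (c (l 16777168) (l 46405780503))) (l 16776592)) (c (l 16776568) (l 16776544)))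 (b (a (l 16776600) (l 16775584)) (l 16775776))) (c (l 16775400) (b (l 16776008) (l 16774688)))) (b (a (c (l 16775336) (a (l 16775464) (l 16775096))) (c (l 16774632) (l 16774552))) (c (l 16773704) (c (l 16773624) (l 16774888))))))))), by decide +kernel⟩

def k34_pm_011_t : ∃ t, chk3 f_pm_011_t t 144 494 1 = true :=
  ⟨(b (a (l 4) (a (a (l 4) (b (l 4) (a (c (l 206393312167) (l 209077666711)) (b (l 4) (c (l 63585649863) (a (l 100629742519) (l 48016393127))))))) (b (b (l 4) (a (l 4) (a (c (l 120493966535) (l 123178321079)) (b (a (l 170959831575) (l 69491229303)) (l 16777368))))) (b (a (b (c (l 137136964791) (l 184381604295)) (c (l 16777864) (a (l 132305126151) (l 16777096)))) (c (l 16776744) (l 16776728))) (c (l 16777112) (a (l 16777120) (l 16774768))))))) (b (a (b (l 4) (b (l 4) (a (l 4) (a (l 4) (a (l 4) (a (l 118346482359) (l 42110812727))))))) (a (a (b (b (l 4) (a (l 4) (a (l 93113549415) (l 16777472)))) (a (c (l 16777088) (l 16777656)) (l 16776752))) (c (l 16777200) (a (b (l 16777680) (l 16776384)) (l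 16776352)))) (c (l 16775496) (a (b (l 16775160) (l 16775480)) (l 16775912))))) (a (a (b (l 4) (a (l 4) (c (l 146800641463) (l 188139700855)))) (b (a (c (l 126399546887) (c (l 179012895271) (l 180623508007))) (c (l 16777624) (a (a (l 50700747703) (l 16777064)) (l 16776808)))) (c (c (l 16777344) (l 16777336)) (a (a (a (l 73249325943) (l 16777448)) (l 16776872)) (l 16776336))))) (c (a (l 16775624) (l 16775528)) (a (a (l 16775904) (c (l 16775232) (l 16775864))) (a (l 16774496) (l 16773768))))))), by decide +kernel⟩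

def k35_pm_011_t : ∃ t, chk3 f_pm_011_t t 145 494 1 = true :=
  ⟨(b (c (a (a (a (b (a (b (l 107072193655) (l 16776856)) (l 16777464)) (l 16774088)) (c (l 16775672) (l 16775648))) (b (a (l 16774288) (l 16774888)) (l 16775272))) (a (c (l 16774536) (l 16774472)) (l 16773096))) (a (a (b (a (b (a (l 110293419111) (l 16777688)) (l 16776664)) (l 16776272)) (a (b (l 16774704) (l 16775352)) (l 16775616))) (b (b (a (l 16774568) (l 16775152)) (l 16775512)) (c (l 16773896) (l 16774504)))) (b (a (c (l 16773760) (l 16775024)) (l 16772288)) (a (l 16772424) (l 16770968))))) (c (b (a (a (l 16775400) (l 16772680)) (l 16771880)) (a (c (l 16774760) (l 16773384)) (l 16769288))) (a (a (b (a (l 16774368) (l 16773640)) (l 16772688)) (b (l 16772552) (l 16771240))) (a (c (l 16770488) (l 16770400)) (l 16769648))))), by decide +kernel⟩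

def k36_pm_011_t : ∃ t, chk3 f_pm_011_t t 72 495 1 = true :=
  ⟨(b (b (a (a (a (a (b (c (l 198340248279) (l 200487731911)) (b (c (l 64659391687) (a (l 158074929911) (l 16777144))) (c (l 16777008) (l 16777488)))) (c (c (l 16777760) (l 16777424)) (a (b (a (l 85597357015) (l 16777664)) (l 16776640)) (l 16776928)))) (c (l 16775752) (a (l 16775904) (b (l 16775672) (l 16775016))))) (a (c (l 16775656) (a (l 16775280) (l 16773896))) (c (l 16772936) (l 16773472)))) (a (c (l 16771480) (a (l 16771368) (l 16769920))) (a (l 16768584) (l 16767152)))) (a (a (a (c (l 16775544) (a (l 16776032) (a (b (l 16775984) (l 16775320)) (l 16775944)))) (c (l 16775448) (a (l 16775408) (l 16774024)))) (a (c (l 16773064) (l 16773600)) (a (l 16771928) (l 16771216)))) (c (a (l 16769544) (l 16766720)) (a (c (l 16769376) (l 16769928)) (l 16767080))))) (a (a (a (b (a (c (l 16774936) (l 16775528)) (c (l 16774240) (l 16774152))) (c (l 16773304) (a (l 16773552) (l 16772832)))) (b (c (l 16773184) (c (l 16773096) (l 16773040))) (c (l 16771896)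 (l 16771752)))) (a (c (l 16772448) (a (l 16771320) (l 16770600))) (c (l 16769728) (c (l 16769568) (l 16769464))))) (a (a (b (l 16769176) (l 16767544)) (a (l 16767120) (l 16766408))) (c (l 16764792) (c (l 16764528) (l 16765008)))))), by decide +kernel⟩

def k37_pm_011_t : ∃ t, chk3 f_pm_011_t t 73 492 1 = true :=
  ⟨(b (a (b (a (l 4) (b (a (l 4) (a (c (l 115662128759) (l 173107315175)) (c (l 16776928) (l 16777576)))) (c (a (l 192971539447) (l 16777304)) (a (c (l 195119023079) (l 196729635799)) (a (l 16777800) (l 16774976)))))) (a (a (l 4) (a (l 4) (c (l 206930183287) (l 209077666919)))) (a (c (a (b (l 153243092455) (l 16777768)) (l 16777728)) (b (a (l 197803377319) (a (l 53921973319) (l 16776896))) (b (a (l 61438166247) (l 16776600)) (l 16777280)))) (c (l 16775712) (c (l 16775680) (l 16775656)))))) (a (b (c (a (l 16775568) (l 16774152)) (a (c (l 16775536) (l 16775512)) (c (l 16774088) (l 16775360)))) (a (c (l 16775608) (a (l 16774576) (l 16773848))) (a (l 16773176) (l 16772456)))) (a (c (l 16773408) (c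 (l 16771992) (l 16772904))) (c (l 16770680) (l 16771152))))) (a (a (a (b (l 4) (b (a (l 4) (c (l 65733133831) (a (l 118883353767) (l 16777800)))) (c (a (l 73786197623) (l 16776728)) (a (a (l 140895061079) (l 48553264263)) (l 16776712))))) (b (a (b (l 4) (c (l 51237619271) (a (l 101703484567) (l 16777088)))) (a (b (c (l 16777960) (l 85060486279)) (l 16776760)) (c (l 16776720) (l 16777368)))) (c (l 16775992) (c (l 16775960) (l 16775616))))) (c (a (c (l 16775224) (l 16775200)) (b (l 16775744) (l 16773160))) (a (c (l 16774680) (b (l 16775800) (l 16775464))) (b (c (l 16774376) (l 16775648)) (l 16773048))))) (a (c (a (l 16773688) (l 16770960)) (a (a (l 16773264) (l 16771880)) (c (l 16770832) (l 16770744)))) (a (b (l 16770736) (l 16768792)) (a (l 16768360) (l 16767640)))))), by decide +kernel⟩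

def k38_pm_011_t : ∃ t, chk3 f_pm_011_t t 73 493 1 = true :=
  ⟨(a (b (b (a (c (c (l 16775592) (l 16775400)) (a (a (l 16776776) (a (l 16774600) (l 16775552))) (a (l 16776312) (l 16774280)))) (a (a (l 16773928) (l 16772880)) (a (l 16772168) (l 16771448)))) (a (c (a (c (l 16774864) (l 16772208)) (l 16773432)) (a (a (a (l 16775328) (l 16774960)) (l 16774416)) (l 16773984))) (c (l 16772624) (a (l 16771872) (l 16770416))))) (a (a (b (c (l 16773568) (l 16774120)) (c (l 16772288) (l 16772152))) (c (l 16772824) (c (l 16771392) (l 16771968)))) (a (c (l 16770104) (l 16770224)) (c (l 16768688) (l 16768448))))) (b (c (a (c (l 16769176) (l 16769056)) (l 16766280)) (a (a (l 16769616) (l 16768160)) (c (l 16766048) (l 16765896)))) (c (a (l 16766560) (l 16763720)) (a (c (l 16766336) (l 16766512)) (c (l 16763440) (l 16763248)))))), by decide +kernel⟩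

def k39_pm_011_t : ∃ t, chk3 f_pm_011_t t 73 247 1 = true :=
  ⟨(b (b (a (a (a (c (l 16770368) (c (l 16770224) (l 16770128))) (b (l 16769816) (l 16768192))) (c (l 16766832) (a (l 16767264) (l 16765816)))) (c (a (l 16764000) (l 16761160)) (a (c (l 16763720) (l 16763536)) (l 16761368)))) (a (c (a (l 16768408) (l 16764272)) (a (a (l 16767544) (l 16766088)) (c (l 16763992) (l 16763816)))) (c (a (l 16761440) (l 16758600)) (a (c (l 16761104) (l 16760880)) (l 16758072))))) (b (a (c (a (l 16764536) (l 16761704)) (a (c (l 16764264) (l 16764088)) (c (l 16761376) (l 16761160)))) (c (a (l 16758872) (l 16756032)) (a (l 16758352) (l 16755440)))) (a (c (a (l 16761968) (l 16759136)) (a (c (l 16761640) (l 16761432)) (l 16758624))) (c (a (l 16756304) (l 16753464)) (a (l 16755712) (l 16752800)))))), by decide +kernel⟩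

def k40_pm_011_t : ∃ t, chk3 f_pm_011_t t 74 244 1 = true :=
  ⟨(a (a (l 4) (b (l 4) (b (l 4) (a (b (l 4) (c (l 204782699991) (l 207467054519))) (b (a (l 4) (c (l 132841998647) (l 184918475623))) (a (b (c (l 140358190647) (l 137136965159)) (c (l 16777072) (l 16777720))) (c (l 16776696) (l 16777336)))))))) (b (a (l 4) (b (l 4) (b (a (l 4) (a (c (l 150558738679) (l 192971539399)) (c (l 52848232791) (b (l 118883354215) (l 16776992))))) (a (b (c (l 203708957799) (l 205856441431)) (a (l 4) (c (l 16777136) (l 16777784)))) (a (c (l 16776768) (l 16777408)) (l 16776064)))))) (c (a (b (a (c (l 183844734791) (l 185992218407)) (c (b (l 108145937591) (l 16778024)) (b (l 165591122791) (l 16778016)))) (a (b (c (l 16778488) (l 16778152)) (l 16775648)) (l 16774856))) (a (b (c (l 16777264) (l 16777240)) (c (l 16773464) (l 16773408))) (b (l 16774544) (l 16772016)))) (a (b (b (a (l 4) (a (l 4) (b (l 4) (l 61975037559)))) (a (c (l 178476024887) (a (l 4) (l 170959831687))) (b (a (l 77007423063) (l 16776704)) (l 16776416))))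 (b (a (a (b (l 105998452311) (l 16776920)) (l 16776528)) (l 16775440)) (a (l 16775608) (l 16775456)))) (a (a (b (b (b (l 16777976) (l 16776624)) (l 16774336)) (l 16775008)) (b (l 16775568) (l 16774272))) (b (b (a (l 16774168) (l 16774752)) (l 16773816)) (l 16772848))))))), by decide +kernel⟩

def k41_pm_011_t : ∃ t, chk3 f_pm_011_t t 74 245 1 = true :=
  ⟨(a (b (b (a (a (l 4) (b (l 4) (b (a (l 4) (c (l 16777880) (a (l 115662128247) (l 16777120)))) (a (c (l 16777936) (c (l 16777936) (l 75396810231))) (l 16777024))))) (a (b (b (a (l 4) (c (l 16777136) (l 16777944))) (a (c (l 16777160) (l 50163877367)) (l 16776544))) (c (l 16775960) (l 16775920))) (c (l 16775168) (c (l 16775128) (b (l 16775752) (l 16775752)))))) (a (b (a (a (a (l 4) (c (l 110293419911) (l 168275477015))) (b (a (l 159148672167) (b (l 130694513511) (l 16777136))) (c (l 16776848) (l 16776832)))) (c (l 16776104) (l 16776072))) (c (c (l 16775552) (l 16775528)) (a (b (l 16777200) (l 16775904)) (a (l 16775136) (l 16774408))))) (a (b (a (a (l 16776504)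 (l 16774832)) (l 16774944)) (a (l 16773720) (l 16773000))) (c (l 16775248) (c (l 16772536) (l 16773776)))))) (c (a (b (a (a (c (l 16772104) (l 16772072)) (l 16776616)) (l 16774240)) (c (l 16773760) (l 16773672))) (b (c (l 16773464) (l 16773376)) (l 16768248))) (a (a (b (b (a (a (l 16775472) (l 16775112)) (l 16774560)) (l 16774928)) (c (l 16771688) (l 16772928))) (b (a (l 16774160) (l 16772448)) (l 16770192))) (a (b (c (l 16771392) (l 16771312)) (l 16768728)) (b (l 16769888) (l 16767272)))))) (c (b (b (a (a (b (l 16774384) (l 16773112)) (l 16772328)) (c (l 16770248) (l 16770144))) (a (c (l 16770544) (l 16773072)) (l 16767656))) (a (b (l 16767952) (l 16765408)) (c (l 16763944) (l 16763752)))) (b (a (a (b (b (l 16775616) (l 16773000)) (l 16772352)) (b (c (l 16772224) (l 16773464)) (l 16769576))) (a (b (l 16770728) (l 16768120)) (b (l 16769272) (l 16766664)))) (b (a (c (l 16767760) (l 16767632)) (c (l 16764864) (l 16764696))) (a (c (l 16765160) (l 16764992)) (l 16762168)))))), by decide +kernel⟩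

def k42_pm_011_t : ∃ t, chk3 f_pm_011_t t 75 122 1 = true :=
  ⟨(c (b (a (a (b (b (b (a (l 4) (c (l 52311362567) (l 52311362551))) (a (a (l 120493967719) (l 16778240)) (l 16776104))) (c (l 16774944) (l 16774904))) (b (a (l 16775736) (l 16771696)) (l 16771192))) (b (b (c (l 16774616) (l 16774584)) (a (l 16775416) (l 16771368))) (b (l 16772184) (l 16767040)))) (b (a (b (c (l 16774408) (l 16774328)) (l 16769232)) (c (l 16770336) (l 16769552))) (a (b (l 16766720) (l 16764208)) (l 16762640)))) (a (b (a (c (l 16768792) (l 16767320)) (c (l 16763360) (l 16763160))) (a (c (l 16761136) (l 16760904)) (l 16758200))) (b (a (l 16760440) (l 16757624)) (a (l 16755384) (l 16752576))))) (b (b (b (a (a (a (b (l 4) (a (l 176328540903) (b (l 86134228663) (l 16776840)))) (b (a (l 160222413319) (c (l 16776952) (l 16778096))) (l 16776072))) (c (l 16773888) (a (l 16775248) (b (l 16774424) (l 16773120))))) (a (a (l 16773640) (l 16770864)) (c (l 16768728) (l 16768624)))) (a (a (b (a (l 16776888) (a (l 16775152) (l 16774416)))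 (a (a (l 16775312) (l 16774584)) (l 16773488))) (a (c (l 16772696) (l 16773952)) (l 16771208))) (a (c (l 16769064) (l 16770272)) (l 16766096)))) (b (a (a (a (a (l 16774680) (l 16772632)) (l 16772848)) (c (l 16769400) (l 16770608))) (a (l 16766432) (l 16763528))) (a (a (a (l 16770408) (l 16768944)) (c (l 16766832) (l 16766696))) (a (l 16763848) (l 16760952))))) (a (b (b (a (c (l 16767152) (l 16767016)) (l 16764168)) (a (l 16764480) (l 16761576))) (a (b (l 16761872) (l 16759264)) (c (l 16757800) (l 16758200)))) (b (a (a (l 16760696) (l 16759248)) (c (l 16757216) (l 16756952))) (a (c (l 16754928) (l 16754640)) (c (l 16752064) (l 16751736))))))), by decide +kernel⟩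

def k43_pm_011_t : ∃ t, chk3 f_pm_011_t t 37 123 1 = true :=
  ⟨(b (a (a (b (b (c (a (l 16769856) (l 16765704)) (a (a (l 16769032) (l 16767576)) (c (l 16765456) (l 16765296)))) (a (c (l 16765992) (c (l 16765760) (l 16765600))) (a (l 16763672) (l 16762232)))) (b (c (a (l 16763440) (l 16760592)) (a (c (l 16763144) (l 16762960)) (l 16760128))) (c (a (l 16760880) (l 16758040)) (a (l 16760424) (l 16757496))))) (a (b (a (b (l 16763376) (l 16760784)) (b (l 16761936) (l 16759344))) (c (l 16756472) (a (l 16756624) (l 16755160)))) (b (c (l 16759408) (b (l 16759544) (l 16756920))) (c (l 16753640) (c (l 16753144) (l 16752824)))))) (a (c (b (a (l 16755928) (l 16753112)) (a (l 16750816) (l 16748008))) (b (a (c (l 16755480) (l 16755848)) (c (l 16752608) (l 16752280))) (a (c (l 16750264) (l 16749904)) (c (l 16747400) (l 16747000))))) (b (c (a (l 16750312) (l 16747512)) (a (c (l 16749744) (l 16749384)) (l 16746696))) (c (a (l 16745208) (l 16742424)) (a (c (l 16744544) (l 16744112)) (l 16741464)))))) (c (a (a (b (a (c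 (l 16757184) (l 16756896)) (l 16754192)) (a (l 16751904) (l 16749064))) (b (a (l 16751352) (l 16748520)) (a (l 16746216) (l 16743384)))) (a (b (a (l 16745696) (l 16742888)) (a (l 16740560) (l 16737752))) (b (a (l 16740088) (l 16737304)) (a (l 16734960) (l 16732176))))) (a (a (b (a (b (l 16757792) (l 16755152)) (a (l 16754280) (l 16752816))) (a (a (l 16751928) (l 16750464)) (c (l 16748464) (l 16748080)))) (b (a (c (l 16750808) (l 16750448)) (c (l 16747912) (l 16747520))) (a (c (l 16745560) (l 16745136)) (c (l 16742672) (l 16742208))))) (a (b (a (c (l 16745032) (l 16744608)) (c (l 16742168) (l 16741704))) (a (c (l 16739792) (l 16739296)) (l 16736656))) (b (a (l 16739064) (l 16736208)) (a (l 16733792) (l 16730944))))))), by decide +kernel⟩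

def k44_pm_011_t : ∃ t, chk3 f_pm_011_t t 38 120 1 = true :=
  ⟨(a (l 4) (b (a (l 4) (b (l 4) (b (l 4) (a (l 4) (b (c (l 199950862423) (l 202098346023)) (a (l 209077667303) (c (l 16776976) (l 16778608)))))))) (a (b (b (l 4) (b (l 4) (a (l 4) (a (l 4) (a (l 4) (a (l 108682807383) (l 53385102887))))))) (a (b (a (l 4) (c (l 197266507671) (c (l 194045282167) (l 195655894887)))) (b (c (a (l 160222415959) (l 16778240)) (a (l 207467054471) (c (l 16776920) (l 16778552)))) (a (c (l 39426460759) (a (l 81839262039) (l 16776800))) (l 16775752)))) (b (a (b (c (l 111904034183) (l 171496702855)) (c (l 16776760) (l 16778056))) (c (l 16775984) (l 16777256))) (c (l 16774248) (l 16773512))))) (b (b (b (a (l 4) (a (a (a (l 126936418407) (l 73786198071)) (l 16778176)) (l 16775816))) (a (a (l 4) (c (l 59827555623) (a (l 119420225783) (l 16777032)))) (c (l 16775320) (l 16775272)))) (a (b (a (a (l 140358191623) (a (l 77544294519) (l 16777728))) (l 16776864)) (c (l 16775704) (l 16775664))) (a (l 16773944) (a (l 16775696) (l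 16772352))))) (c (a (b (l 16773864) (l 16774024)) (b (l 16771032) (l 16768576))) (a (b (l 16773448) (c (l 16771288) (l 16773840))) (b (l 16773496) (l 16768360)))))))), by decide +kernel⟩

def k45_pm_011_t : ∃ t, chk3 f_pm_011_t t 76 242 1 = true :=
  ⟨(a (b (l 4) (a (a (l 4) (b (l 4) (b (c (l 208003925479) (l 210151409095)) (a (c (l 83449874855) (c (l 84523616583) (l 87207971063))) (c (l 16776856) (l 16776840)))))) (a (a (b (l 4) (b (c (l 16778552) (l 63585651063)) (l 16776160))) (c (b (l 190824056375) (l 16776072)) (b (l 194582152727) (l 16776040)))) (b (b (c (l 119420226903) (l 176865412087)) (a (b (l 99019130647) (l 16776912)) (l 16776512))) (c (l 16775008) (l 16774952)))))) (b (a (b (l 4) (b (a (l 4) (a (l 204782699559) (b (l 129083901703) (l 16777712)))) (a (c (l 101703486871) (c (l 104924712087) (l 165054251751))) (c (l 16776496) (l 16776472))))) (b (b (a (l 4) (c (l 53385104647) (a (l 102777227735) (l 16776968)))) (a (a (b (l 4) (l 110293419831)) (b (l 93113550663) (l 16776888))) (c (l 16776144)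 (l 16776112)))) (b (c (l 16775608) (l 16776224)) (c (l 16774376) (l 16774296))))) (b (b (a (a (c (l 16776664) (l 16777952)) (l 16775248)) (a (l 16775112) (l 16772352))) (a (c (l 16774744) (l 16774672)) (c (l 16771888) (l 16774368)))) (a (a (b (a (l 16774528) (l 16773808)) (l 16772904)) (c (l 16772160) (l 16772024))) (c (l 16770024) (l 16771144)))))), by decide +kernel⟩

def k46_pm_011_t : ∃ t, chk3 f_pm_011_t t 76 243 1 = true :=
  ⟨(a (b (a (c (b (a (a (b (l 107609065831) (l 16776520)) (l 16777712)) (l 16775368)) (l 16773576)) (a (b (b (a (l 109756549463) (l 16778312)) (l 16776136)) (b (l 16772232) (l 16773568))) (b (l 16775320) (l 16774056)))) (b (b (a (c (l 16774568) (l 16774496)) (l 16774392)) (c (l 16775224) (l 16773784))) (c (l 16773352) (c (l 16770592) (l 16771824))))) (b (a (c (l 16773696) (a (l 16771640) (l 16770176))) (c (l 16768232) (l 16767992))) (c (a (l 16768568) (l 16765736)) (a (l 16769648) (l 16765424))))) (c (b (a (c (l 16771816) (l 16771704)) (b (l 16767544) (l 16765064))) (a (l 16764160)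 (l 16761344))) (b (a (b (c (l 16770240) (l 16772776)) (l 16767640)) (a (l 16768048) (l 16765288))) (a (c (l 16763896) (l 16765032)) (c (l 16761024) (l 16760816)))))), by decide +kernel⟩

def k47_pm_011_t : ∃ t, chk3 f_pm_011_t t 77 121 1 = true :=
  ⟨(a (a (b (b (c (c (l 16773408) (l 16773360)) (b (c (l 16774568) (l 16774536)) (a (l 16775360) (l 16771280)))) (a (b (l 16771600) (l 16767776)) (b (l 16768856) (l 16766344)))) (c (b (l 16763488) (l 16758544)) (b (c (l 16763208) (l 16763040)) (l 16758048)))) (b (c (b (b (l 16774400) (l 16769312)) (l 16768232)) (b (b (a (l 16772368) (l 16770912)) (l 16769104)) (c (l 16765384) (l 16767856)))) (b (c (l 16760688) (l 16760248)) (c (l 16755760) (l 16755192))))) (b (b (b (a (c (l 16768944) (l 16768736)) (c (l 16766128) (l 16765848))) (c (l 16767704) (a (l 16766208) (l 16763336)))) (c (a (l 16762808) (l 16760016)) (a (l 16763744) (l 16759576)))) (c (b (a (l 16757896) (l 16755128)) (l 16751616)) (b (a (l 16757392) (l 16754560)) (a (l 16752360) (l 16749544)))))), by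 decide +kernel⟩

def k48_pm_011_t : ∃ t, chk3 f_pm_011_t t 78 60 1 = true :=
  ⟨(a (b (b (b (a (l 4) (b (l 4) (b (a (l 4) (a (l 112977775271) (l 16778360))) (a (c (l 79691779479) (l 80765521287)) (l 16776224))))) (a (a (c (b (l 182770992839) (l 16778832)) (b (l 186529089191) (l 16777904))) (b (b (c (l 96871648663) (l 98482261367)) (c (l 16776624) (l 16776608))) (l 16774792))) (c (c (l 16773928) (l 16773888)) (a (b (l 16775792) (l 16770688)) (b (l 16771728) (l 16771864)))))) (a (b (b (a (c (l 16773800) (l 16771096)) (c (l 16772384) (l 16772264))) (c (l 16770648) (l 16773104))) (c (l 16769608) (c (l 16766792) (l 16769288)))) (b (c (c (l 16769104) (l 16774240)) (b (l 16772712) (l 16767600))) (c (l 16764192) (l 16766488))))) (b (b (c (a (l 16762112) (l 16759336)) (a (l 16761728) (l 16758888))) (c (l 16755864) (c (l 16755456) (l 16757816)))) (c (b (l 16751008) (l 16746144)) (b (c (l 16750504) (l 16750184)) (l 16747160))))) (b (b (b (a (b (a (b (l 209077667303) (c (l 16777080) (l 45868911687))) (a (c (l 16776736)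 (l 16778024)) (l 16776056))) (c (l 16774720) (l 16774656))) (c (l 16773088) (c (l 16773016) (l 16772312)))) (b (a (a (a (l 16775928) (l 16772592)) (l 16774136)) (c (l 16769464) (l 16769272))) (a (a (l 16770496) (l 16769064)) (l 16769544)))) (b (a (c (l 16768864) (a (l 16769312) (l 16765256))) (b (l 16764488) (l 16762056))) (c (a (l 16761416) (l 16758648)) (a (l 16761024) (l 16758192))))) (b (a (b (a (l 16757016) (l 16755624)) (l 16751432)) (b (l 16753552) (l 16748688))) (c (b (l 16745576) (l 16740760)) (b (l 16744792) (l 16739856)))))), by decide +kernel⟩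

def k49_pm_011_t : ∃ t, chk3 f_pm_011_t t 79 60 1 = true :=
  ⟨(b (a (b (b (b (a (c (l 16771464) (l 16773944)) (c (l 16768632) (l 16768424))) (a (c (l 16769048) (l 16768848)) (l 16766096))) (a (c (l 16765440) (l 16767776)) (c (l 16762640) (l 16762288)))) (c (b (l 16761880) (l 16754504)) (b (a (l 16760248) (l 16757408)) (a (l 16755368) (l 16752544))))) (b (b (a (c (l 16764624) (l 16764320)) (c (l 16761824) (l 16761464))) (c (l 16758464) (a (l 16759440) (l 16756608)))) (c (b (l 16753728) (l 16749008)) (b (l 16754488) (l 16748344))))) (b (a (a (b (a (l 16751488) (l 16750112)) (l 16745968)) (b (l 16748040) (l 16743256))) (c (b (l 16744312) (l 16739624)) (b (l 16743536) (l 16738744)))) (a (c (b (l 16740232) (l 16735456)) (b (l 16739344) (l 16734448))) (c (b (l 16734944) (l 16730240)) (b (l 16733944) (l 16729136)))))), by decide +kernel⟩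

def k50_pm_011_t : ∃ t, chk3 f_pm_011_t t 38 122 1 = true :=
  ⟨(b (a (a (b (c (a (c (l 16764904) (l 16764728)) (l 16761992)) (a (b (l 16765768) (l 16763192)) (c (l 16761680) (l 16761480)))) (a (c (l 16759816) (c (l 16759464) (l 16759232))) (b (l 16758976) (l 16755472)))) (a (b (b (l 16761512) (l 16757680)) (c (l 16754216) (l 16753592))) (b (c (l 16756384) (l 16755832)) (c (l 16751432) (l 16750744))))) (a (c (b (l 16754184) (l 16747288)) (a (b (l 16752976) (l 16747904)) (b (l 16750144) (l 16745088)))) (c (b (l 16746712) (l 16741816)) (b (c (l 16746112) (l 16745736)) (c (l 16741120) (l 16740672)))))) (b (a (a (c (a (l 16754816) (l 16752016)) (a (c (l 16754352) (l 16754056)) (l 16751336))) (a (a (l 16749552) (l 16748152)) (a (l 16746744) (l 16745352)))) (a (c (l 16742344) (c (l 16741640) (l 16741192))) (c (l 16736904) (l 16738472)))) (a (a (a (c (l 16749784) (l 16749032)) (b (l 16747856) (l 16745304))) (c (l 16745472) (a (l 16743336) (l 16740512)))) (a (c (l 16737368) (c (l 16736568) (l 16736056))) (c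 (l 16731952) (l 16730768)))))), by decide +kernel⟩

def k51_pm_011_t : ∃ t, chk3 f_pm_011_t t 38 123 1 = true :=
  ⟨(a (b (a (a (c (b (l 16744728) (l 16739640)) (b (l 16743840) (l 16738616))) (c (b (l 16741952) (l 16736880)) (b (l 16740992) (l 16735784)))) (c (b (l 16737816) (l 16732760)) (b (c (l 16737016) (l 16739120)) (c (l 16731848) (l 16731272))))) (a (a (c (b (l 16734536) (l 16729416)) (b (l 16733368) (l 16728104))) (c (b (l 16731784) (l 16726664)) (b (l 16730544) (l 16725288)))) (c (b (l 16727672) (l 16722560)) (b (c (l 16726664) (l 16726016)) (c (l 16721448) (l 16720728)))))) (b (a (c (b (l 16732360) (l 16727320)) (b (c (l 16731456) (l 16730880)) (c (l 16726312) (l 16725672)))) (c (b (l 16726968) (l 16721960)) (b (l 16725656) (l 16720504)))) (a (c (b (l 16722256) (l 16717160)) (b (c (l 16721144) (l 16720432)) (c (l 16715944) (l 16715168)))) (c (b (l 16716912) (l 16711832)) (b (l 16715328) (l 16710112)))))), by decide +kernel⟩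

def k52_pm_011_t : ∃ t, chk3 f_pm_011_t t 39 61 1 = true :=
  ⟨(b (a (b (a (c (b (l 16741288) (l 16736416)) (b (l 16740368) (l 16735376))) (c (b (l 16735936) (l 16731104)) (b (l 16734904) (l 16729952)))) (a (c (b (l 16731536) (l 16726624)) (b (l 16730368) (l 16725320))) (c (b (l 16726264) (l 16721376)) (b (l 16724984) (l 16719968))))) (b (b (a (c (l 16730680) (l 16729544)) (l 16727512)) (a (c (l 16725888) (l 16724632)) (l 16720080))) (a (c (l 16718656) (b (l 16719704) (l 16714728))) (c (l 16713592) (l 16714688))))) (a (b (a (c (b (l 16721664) (l 16716680)) (b (l 16720232) (l 16715112))) (c (b (l 16716456) (l 16711496)) (b (l 16714920) (l 16709824)))) (a (c (b (l 16711656) (l 16706600)) (b (l 16709960) (l 16704768))) (c (b (l 16706496) (l 16701464)) (b (l 16704696) (l 16699536))))) (b (a (b (l 16710504) (l 16705512)) (c (l 16703888) (l 16702112))) (a (b (l 16700480) (l 16695408)) (b (l 16695496) (c (l 16691448) (l 16689352))))))), by decide +kernel⟩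

def k53_pm_011_t : ∃ t, chk3 f_pm_011_t t 72 124 1 = true :=
  ⟨(a (b (c (b (a (a (b (l 16772032) (l 16768808)) (b (l 16769976) (l 16767400))) (b (c (l 16767928) (l 16767800)) (l 16765296))) (a (b (l 16766184) (l 16762960)) (b (l 16762720) (l 16760144)))) (b (a (a (a (b (l 16771896) (l 16768928)) (b (l 16770848) (l 16768208))) (b (c (l 16769816) (l 16769712)) (l 16767120))) (a (b (l 16768648) (l 16765680)) (b (l 16766872) (l 16764232)))) (a (a (b (l 16765920) (l 16763272)) (b (l 16764480) (l 16761832))) (b (c (l 16762408) (l 16762208)) (c (l 16759776) (l 16759536)))))) (b (b (c (a (l 16760384) (l 16757568)) (a (c (l 16760024) (l 16759784)) (l 16757664))) (c (a (l 16757800) (l 16754984)) (a (l 16757904) (l 16754352)))) (b (c (a (l 16755216) (l 16752400)) (a (l 16754592) (l 16751696))) (c (a (l 16752640) (l 16749816)) (a (l 16751936) (l 16749040)))))) (b (b (b (c (a (l 16765048) (l 16762224)) (a (a (l 16765424) (l 16763976)) (c (l 16761904) (l 16761696)))) (c (a (l 16762472) (l 16759656)) (a (c (l 16762160)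 (l 16761952)) (c (l 16759280) (l 16759032))))) (b (c (a (l 16759904) (l 16757080)) (a (c (l 16759528) (l 16759288)) (l 16756504))) (c (a (l 16757328) (l 16754504)) (a (l 16756760) (l 16753856))))) (b (b (c (a (l 16754744) (l 16751920)) (a (l 16754112) (l 16751208))) (c (a (l 16752168) (l 16749344)) (a (l 16751456) (l 16748552)))) (c (a (l 16748944) (l 16745464)) (a (a (l 16748192) (l 16746744)) (c (l 16744784) (l 16744344))))))), by decide +kernel⟩

def k54_pm_011_t : ∃ t, chk3 f_pm_011_t t 72 125 1 = true :=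
  ⟨(b (a (b (c (a (c (l 16748960) (l 16748552)) (l 16745936)) (a (a (l 16748672) (l 16747224)) (c (l 16745272) (l 16745480)))) (c (a (l 16743576) (l 16740760)) (a (c (l 16742856) (l 16742376)) (c (l 16739976) (l 16739464))))) (b (c (a (l 16743112) (l 16740288)) (a (c (l 16742384) (l 16741904)) (c (l 16739504) (l 16738984)))) (a (b (l 16738688) (l 16736056)) (b (l 16735816) (l 16733184))))) (b (a (a (b (l 16739152) (l 16736520)) (b (l 16736296) (l 16733656))) (a (c (l 16732744) (l 16731480)) (b (l 16730552) (a (l 16728632) (l 16727168))))) (b (a (a (l 16733888) (a (l 16731736) (l 16730280))) (b (a (l 16728784) (c (a (l 16727352) (l 16725968)) (a (l 16725936) (l 16724528)))) (a (c (a (l 16728888) (l 16727504)) (a (l 16727512) (l 16726104))) (l 16724608)))) (a (b (a (l 16731888) (a (a (l 16730096) (l 16729400)) (l 16730976))) (a (a (l 16732600) (l 16729904)) (l 16727712))) (c (l 16724784) (l 16723320)))))), by decide +kernel⟩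

def k55_pm_011_t : ∃ t, chk3 f_pm_011_t t 146 62 1 = true :=
  ⟨(a (b (b (b (a (b (l 16760520) (l 16757256)) (b (l 16758424) (l 16755816))) (a (b (l 16754640) (l 16752024)) (c (l 16752256) (l 16752200)))) (b (c (l 16747800) (c (l 16747176) (l 16747176))) (c (l 16742632) (c (l 16741896) (l 16741416))))) (b (b (c (l 16737456) (c (l 16736608) (l 16736048))) (c (l 16732264) (l 16730992))) (b (b (l 16727680) (b (l 16725672) (c (a (l 16725816) (l 16724432)) (a (l 16724360) (l 16722952))))) (a (l 16721776) (l 16720328))))) (b (b (b (a (b (l 16756992) (l 16754384)) (b (l 16755552) (l 16752944))) (c (l 16750128) (a (l 16750096) (l 16748640)))) (b (c (l 16744968) (c (l 16744280) (l 16743832))) (c (l 16739800) (c (l 16739000) (l 16738480))))) (b (b (b (l 16735328) (l 16732696)) (c (l 16729424) (l 16728080))) (b (b (c (l 16725496) (l 16724040)) (b (c (a (l 16724272) (l 16722888)) (a (l 16722784) (l 16721368))) (l 16721488))) (a (l 16718880) (l 16717440)))))), by decide +kernel⟩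

def k56_pm_011_t : ∃ t, chk3 f_pm_011_t t 147 62 1 = true :=
  ⟨(b (b (c (b (a (l 16752448) (l 16749608)) (a (l 16747288) (l 16744448))) (b (a (a (l 16752480) (l 16751016)) (a (l 16749560) (l 16748096))) (a (c (l 16746656) (l 16746896)) (c (l 16743760) (l 16743304))))) (b (c (a (l 16742128) (l 16739288)) (a (c (l 16741384) (l 16740896)) (c (l 16738488) (l 16737960)))) (c (a (l 16736960) (l 16734112)) (a (c (l 16736104) (l 16735544)) (c (l 16733200) (l 16732608)))))) (b (b (a (b (l 16732448) (l 16729816)) (c (l 16728928) (l 16727576))) (a (c (l 16726584) (l 16725160)) (b (l 16724296) (c (l 16722400) (l 16720864))))) (b (a (b (b (c (l 16723304) (l 16721784)) (c (a (l 16722736) (l 16721344)) (a (l 16721200) (l 16719784)))) (l 16719256)) (b (b (c (a (l 16721184) (l 16719800)) (a (l 16719616) (l 16718192))) (l 16718360)) (l 16716368))) (c (l 16716312) (c (l 16713400) (l 16712560)))))), by decide +kernel⟩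

def k57_pm_011_t : ∃ t, chk3 f_pm_011_t t 37 124 1 = true :=
  ⟨(a (b (a (b (c (a (l 16746760) (l 16743920)) (a (c (l 16746120) (l 16745696)) (c (l 16743216) (l 16742760)))) (c (a (l 16741608) (l 16738760)) (a (c (l 16740856) (l 16740368)) (c (l 16737952) (l 16737424))))) (c (b (a (l 16741072) (l 16738240)) (a (l 16735912) (l 16733080))) (b (a (c (l 16740312) (l 16739816)) (c (l 16737416) (l 16736888))) (a (c (l 16735048) (l 16734480)) (c (l 16732152) (l 16731552)))))) (a (b (c (a (l 16736440) (l 16733592)) (a (c (l 16735584) (l 16735024)) (c (l 16732672) (l 16732080)))) (b (c (l 16731136) (a (l 16731312) (l 16728384))) (a (l 16729304) (l 16726416)))) (b (c (a (l 16730744) (l 16727912)) (a (c (l 16729768) (l 16729136)) (l 16726536))) (c (a (l 16725568) (l 16722728)) (a (l 16724128) (l 16721216)))))) (b (a (b (c (a (l 16735416) (l 16732608)) (a (c (l 16734536) (l 16733968)) (l 16731368))) (c (a (l 16730256) (l 16727448)) (a (l 16728952) (l 16726072)))) (a (c (b (l 16729808) (l 16724656)) (b (l 16728504)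 (l 16723200))) (c (b (l 16727032) (l 16721872)) (b (l 16725656) (l 16720352))))) (a (b (c (a (l 16725088) (l 16722280)) (a (l 16723640) (l 16720760))) (c (a (l 16719904) (l 16717096)) (a (l 16718312) (l 16715432)))) (a (c (b (l 16719480) (l 16714296)) (b (l 16717888) (l 16712568))) (b (c (l 16716704) (l 16715040)) (b (l 16711920) (a (l 16709992) (b (l 16709248) (l 16707904))))))))), by decide +kernel⟩

def k58_pm_011_t : ∃ t, chk3 f_pm_011_t t 37 125 1 = true :=
  ⟨(b (a (b (b (a (a (l 16726680) (l 16723784)) (a (l 16720896) (l 16718016))) (a (a (l 16724040) (l 16721152)) (a (l 16718264) (a (l 16716104) (b (l 16715328) (l 16713976)))))) (b (a (a (l 16721408) (a (l 16719240) (a (l 16718152) (l 16717400)))) (b (a (c (l 16717096) (l 16715416)) (a (b (l 16714432) (l 16713816)) (a (l 16713072) (l 16712344)))) (a (a (b (l 16715992) (l 16715376)) (a (l 16714632) (l 16713896))) (l 16712088)))) (a (b (a (c (l 16720200) (l 16718600)) (c (a (l 16718088) (l 16716696)) (a (l 16719056) (l 16715016)))) (a (c (a (l 16719640)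 (l 16718248)) (a (l 16718024) (l 16716608))) (l 16715216))) (c (l 16712448) (l 16710664))))) (b (b (a (a (l 16715152) (a (l 16713016) (b (l 16712256) (l 16710912)))) (b (c (a (l 16711016) (a (l 16708968) (l 16707616))) (a (l 16709192) (a (l 16709712) (l 16705720)))) (a (a (b (l 16709832) (l 16709216)) (a (l 16708496) (l 16707776))) (l 16706016)))) (a (b (a (c (l 16714024) (l 16712272)) (a (b (l 16711352) (l 16710736)) (a (l 16710008) (l 16709280)))) (a (a (b (l 16712880) (l 16712264)) (a (l 16711536) (l 16710808))) (l 16709024))) (c (l 16706432) (l 16704504)))) (a (c (l 16710728) (c (l 16706688) (l 16708384))) (c (l 16702536) (c (l 16701024) (l 16700040)))))) (a (a (c (b (c (l 16714664) (l 16713784)) (l 16711584)) (a (b (l 16713960) (l 16708592)) (b (l 16711032) (l 16705672)))) (c (b (l 16709832) (l 16703264)) (b (c (l 16707120) (l 16706208)) (c (l 16701784) (l 16700824))))) (a (c (b (l 16702880) (l 16697632)) (b (c (l 16701384) (l 16700408)) (l 16698160))) (c (b (l 16697328) (l 16692088)) (b (l 16697832)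 (l 16689864)))))), by decide +kernel⟩

def k59_pm_011_t : ∃ t, chk3 f_pm_011_t t 18 126 1 = true :=
  ⟨(a (b (a (a (b (c (a (l 16727944) (l 16725096)) (a (l 16726576) (l 16723656))) (c (l 16722536) (a (l 16721192) (l 16718272)))) (b (c (a (l 16722240) (l 16719384)) (a (l 16720744) (l 16717824))) (c (l 16715512) (a (l 16715352) (l 16712424))))) (a (c (b (l 16715104) (l 16709800)) (b (c (l 16713848) (l 16713032)) (c (l 16708472) (l 16707608)))) (c (b (l 16709392) (l 16704080)) (b (c (l 16708040) (l 16707152)) (l 16704808))))) (a (a (a (b (l 16719192) (l 16711224)) (b (l 16716296) (l 16708320))) (b (c (l 16710200) (l 16711104)) (c (l 16704872) (l 16703072)))) (a (c (b (l 16704480) (l 16699144)) (b (l 16702624) (l 16697208))) (c (b (l 16698752) (l 16693416)) (b (l 16696768) (l 16691336)))))) (a (b (a (c (b (l 16703672) (l 16698368)) (b (c (l 16702216) (l 16701272)) (l 16698960))) (c (b (l 16697984) (l 16692680)) (b (l 16697232) (l 16690512)))) (a (c (b (l 16693040) (l 16687688)) (b (l 16690912) (l 16685472)))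 (c (b (l 16687344) (l 16681992)) (b (l 16685088) (l 16679640))))) (b (a (c (b (l 16692360) (l 16687056)) (b (l 16690160) (l 16684760))) (c (b (l 16686816) (l 16681520)) (b (l 16684488) (l 16679096)))) (c (a (b (l 16681728) (l 16676376)) (b (l 16676192) (l 16670848))) (a (b (l 16679328) (l 16673880)) (b (l 16673672) (l 16668224))))))), by decide +kernel⟩

def k60_pm_011_t : ∃ t, chk3 f_pm_011_t t 18 127 1 = true :=
  ⟨(b (a (a (b (a (c (l 16705296) (l 16703560)) (c (l 16699544) (l 16697664))) (b (a (l 16700408) (c (l 16695536) (l 16693592))) (a (c (l 16698696) (l 16696856)) (c (l 16692952) (l 16690960))))) (b (a (c (l 16693800) (l 16691776)) (c (l 16688056) (l 16685888))) (c (b (a (l 16689752) (l 16684040)) (l 16684312)) (b (a (l 16687664) (l 16681808)) (l 16682096))))) (a (b (a (c (l 16682328) (l 16680016)) (a (l 16676816) (b (l 16675304) (l 16672568)))) (b (a (c (l 16678360) (l 16675984)) (c (l 16672696) (l 16670176))) (c (l 16672936) (l 16670416)))) (a (b (c (b (l 16672344) (l 16669640)) (b (l 16669784)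 (c (l 16667664) (l 16666400)))) (l 16664448)) (b (c (b (l 16666816) (l 16664160)) (b (l 16664120) (l 16661416))) (l 16658904))))) (b (a (a (a (l 16693784) (l 16687960)) (a (l 16682160) (l 16676384))) (a (a (l 16668000) (a (l 16666336) (l 16663496))) (c (a (l 16660720) (l 16655272)) (a (l 16657896) (l 16652304))))) (a (a (a (l 16688464) (l 16682656)) (a (l 16675568) (a (l 16672560) (l 16669688)))) (a (c (a (l 16666736) (l 16661112)) (a (l 16664064) (l 16658296))) (c (a (l 16655584) (l 16650152)) (a (l 16652624) (l 16647056))))))), by decide +kernel⟩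

def k61_pm_011_t : ∃ t, chk3 f_pm_011_t t 38 124 1 = true :=
  ⟨(a (a (a (b (c (b (l 16724272) (l 16719112)) (b (l 16722824) (l 16717520))) (b (c (l 16713944) (l 16712208)) (b (l 16709128) (b (c (l 16708072) (l 16706176)) (a (b (l 16706840) (l 16706232)) (l 16705184)))))) (b (c (b (l 16721520) (l 16716368)) (b (l 16720008) (l 16714712))) (b (c (l 16711200) (l 16709400)) (b (c (l 16707272) (l 16705360)) (b (a (a (l 16705400) (l 16704736)) (l 16703728)) (l 16703080)))))) (b (c (b (l 16717432) (l 16712280)) (b (c (l 16716208) (l 16715424)) (c (l 16710952) (l 16710104)))) (b (a (c (l 16708472) (l 16706608)) (a (l 16705464) (c (l 16705040) (l 16703096)))) (b (b (c (a (l 16705192) (l 16702560)) (a (l 16703240) (a (l 16701208) (l 16699872)))) (a (c (l 16709216) (a (l 16702648) (l 16701304))) (l 16700224))) (c (l 16700680) (l 16698624)))))) (b (a (c (b (l 16712040) (l 16706904)) (b (c (l 16710728) (l 16709880)) (c (l 16705480) (l 16704568)))) (a (b (l 16707120) (l 16701920)) (b (l 16704456) (c (l 16700240) (l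 16698208))))) (b (b (a (a (l 16703376) (a (l 16701352) (l 16699968))) (b (a (l 16698616) (a (l 16696680) (l 16695400))) (a (c (l 16698456) (l 16696368)) (l 16694744)))) (a (b (c (a (l 16702392) (l 16699800)) (a (l 16700384) (l 16702984))) (a (c (l 16701176) (a (l 16699792) (l 16698464))) (l 16697440))) (l 16694136))) (c (a (l 16696640) (l 16691432)) (a (l 16694504) (l 16689192)))))), by decide +kernel⟩

def k62_pm_011_t : ∃ t, chk3 f_pm_011_t t 39 124 1 = true :=
  ⟨(b (a (b (a (c (l 16701520) (l 16699552)) (a (l 16696632) (a (l 16694712) (l 16693384)))) (b (a (c (l 16697624) (l 16700792)) (c (a (l 16693848) (l 16691424)) (a (l 16696944) (l 16689248)))) (a (a (b (l 16695944) (a (l 16695360) (l 16694080))) (b (l 16693440) (l 16692136))) (l 16688984)))) (a (b (a (b (l 16692832) (a (l 16690864) (l 16689672))) (b (l 16690288) (l 16687880))) (l 16685288)) (b (b (a (a (l 16688456) (l 16687288)) (l 16685536)) (l 16684192)) (l 16680464)))) (a (c (a (l 16690816) (l 16683856)) (a (b (l 16689152) (l 16684000)) (l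 16684120))) (c (a (l 16678984) (l 16674232)) (a (l 16676544) (l 16671728))))), by decide +kernel⟩

def k63_pm_011_t : ∃ t, chk3 f_pm_011_t t 19 125 1 = true :=
  ⟨(a (a (b (c (a (b (l 16702232) (l 16697056)) (b (l 16696832) (l 16691672))) (a (b (c (l 16700704) (l 16699720)) (l 16700168)) (b (l 16694696) (l 16689424)))) (c (a (b (l 16691856) (l 16686624)) (b (l 16686480) (l 16681264))) (a (b (l 16689616) (l 16684280)) (b (l 16684128) (l 16678808))))) (b (c (a (b (l 16691528) (l 16686384)) (b (l 16686336) (l 16681208))) (a (b (l 16689288) (l 16684032)) (b (l 16683992) (l 16678752)))) (c (a (b (l 16681216) (l 16676008)) (b (l 16676056) (l 16670864))) (a (b (l 16678752) (l 16673440)) (b (l 16673488) (l 16668192)))))) (a (b (c (a (l 16678704) (l 16673752)) (a (b (l 16678816) (l 16673600)) (l 16671168))) (c (a (l 16668424) (l 16663512)) (a (l 16668328) (l 16660712)))) (b (c (a (l 16668920) (l 16664216)) (a (l 16666264) (l 16661496))) (c (a (l 16658728) (l 16654072)) (a (l 16655848) (l 16651128)))))), by decide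 +kernel⟩

def k64_pm_011_t : ∃ t, chk3 f_pm_011_t t 19 63 1 = true :=
  ⟨(b (a (a (b (c (a (b (l 16681368) (l 16676072)) (b (l 16676016) (l 16670736))) (a (b (l 16678920) (l 16673528)) (b (l 16673448) (l 16668064)))) (c (a (b (l 16670760) (l 16665416)) (b (l 16665424) (l 16660088))) (a (b (l 16668104) (l 16662664)) (b (l 16662656) (l 16657216))))) (b (c (a (b (l 16670768) (l 16665504)) (l 16668256)) (a (b (l 16668096) (l 16662728)) (b (l 16662864) (l 16657504)))) (c (a (b (l 16660208) (l 16654880)) (l 16657688)) (a (b (l 16657320) (l 16651896)) (b (l 16652112) (l 16646696)))))) (b (a (c (a (l 16658016) (l 16653144)) (a (l 16655088) (l 16650128))) (c (a (l 16648400) (l 16643792)) (a (l 16645304) (l 16640632)))) (b (a (c (l 16647688) (l 16647176)) (c (l 16638264) (l 16634976))) (a (a (c (l 16644816) (l 16641616)) (c (l 16639944) (l 16636656))) (a (b (l 16634920) (a (l 16633416) (l 16631120))) (b (l 16630328) (l 16627760))))))) (a (b (a (a (b (b (l 16659952) (a (l 16658680) (l 16655984))) (l 16653480)) (b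 (b (a (l 16655880) (l 16653208)) (l 16651984)) (l 16648168))) (b (a (b (a (l 16650592) (l 16648016)) (l 16646760)) (c (l 16644656) (l 16641464))) (c (l 16642104) (l 16638840)))) (a (c (a (b (l 16649928) (l 16644832)) (l 16642168)) (a (b (l 16646840) (l 16641608)) (b (l 16641488) (l 16636288)))) (c (a (l 16637072) (l 16632112)) (a (l 16631064) (l 16628616))))) (a (b (a (b (c (l 16639752) (l 16636456)) (l 16633016)) (l 16630728)) (c (a (l 16627288) (l 16622600)) (a (l 16623696) (l 16618920)))) (b (c (l 16625648) (l 16622088)) (c (a (l 16618056) (l 16613664)) (a (l 16614304) (l 16609848))))))), by decide +kernel⟩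

def k65_pm_011_t : ∃ t, chk3 f_pm_011_t t 10 28 1 = true :=
  ⟨(a (l 4) (b (l 4) (a (b (l 4) (a (l 4) (b (l 4) (a (b (l 4) (b (l 4) (a (l 4) (a (b (l 4) (l 112440905383)) (b (l 86671101399) (l 16776480)))))) (b (a (c (l 210688282903) (l 212298895543)) (a (b (l 4) (b (l 109756550791) (l 16776728))) (b (b (l 4) (l 85597359431)) (l 16775912)))) (a (a (b (b (l 156464320311) (l 60901297399)) (l 16775656)) (c (l 16775376) (l 16775352))) (l 16772984))))))) (b (a (b (l 4) (a (l 4) (a (l 4) (a (l 4) (b (l 4) (c (l 180623509831) (l 182234122503))))))) (b (a (l 4) (b (l 4) (a (c (l 198877122279) (l 200487734919)) (b (c (l 109219682823) (l 109219682743)) (a (l 16779200) (l 16775608)))))) (b (a (a (l 4) (b (l 217667603575) (c (l 65733136743) (l 64659394903)))) (a (a (c (l 16779720) (l 16779704)) (l 16775128)) (l 16773120))) (b (a (a (a (l 144653161991) (a (l 93113552743) (l 16776992))) (l 16775328)) (l 16771288)) (a (c (l 16774560) (l 16774536)) (l 16769168)))))) (a (b (b (a (l 4) (a (a (c (l 173644187655) (l 174717929415))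 (b (a (l 4) (l 131768258871)) (l 16776368))) (a (c (l 16778696) (l 16778680)) (l 16774736)))) (a (a (b (l 4) (a (l 212298893543) (a (l 104387842167) (l 17414753623)))) (a (b (a (l 4) (l 114588389511)) (l 16776152)) (c (l 16778480) (l 16775840)))) (c (l 16772496) (l 16772448)))) (a (a (b (c (l 16776584) (l 16776232)) (l 16770568)) (c (l 16770072) (l 16769992))) (c (c (l 16766048) (l 16765984)) (c (l 16765920) (l 16765864))))) (a (a (b (c (l 16770592) (l 16770528)) (b (c (l 16764144) (l 16764008)) (l 16759712))) (b (c (l 16767904) (l 16767808)) (b (l 16766624) (l 16757024)))) (b (c (l 16763888) (l 16763760)) (b (a (l 16758696) (l 16756024)) (l 16755632))))))))), by decide +kernel⟩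

def k66_pm_011_t : ∃ t, chk3 f_pm_011_t t 20 58 1 = true :=
  ⟨(a (l 4) (b (a (l 4) (b (l 4) (a (l 4) (b (l 4) (b (a (l 4) (c (l 179012896727) (a (l 4) (l 106535326535)))) (a (c (l 201561475831) (l 203708959415)) (a (c (l 16779680) (l 50163880103)) (l 16775816)))))))) (a (b (a (l 4) (b (l 4) (b (l 4) (a (l 4) (a (l 4) (c (l 92039811959) (l 92039810615))))))) (a (b (a (l 4) (a (l 4) (b (l 4) (l 210151409879)))) (b (a (l 4) (a (c (l 96871650359) (c (l 97945391831) (l 98482262727))) (c (l 16776584) (l 16776568)))) (a (a (c (l 130694517943) (l 188139701879)) (c (l 16779648) (l 41573944279))) (c (l 16774992) (l 16774952))))) (b (b (a (c (l 190824057287) (l 193508411783)) (a (c (l 16779568) (l 16779224)) (l 16775584))) (a (a (b (l 130694516567) (l 16778880)) (c (l 16776104) (l 16776080))) (l 16773952))) (c (c (l 16771928) (l 16771872)) (c (l 16771832) (l 16771784)))))) (b (a (b (b (l 4) (a (l 4) (a (c (l 117809615847) (l 118346486727)) (c (l 16776824) (l 16779432))))) (a (b (c (a (l 153779966919) (l 59290685943))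 (a (l 206930184215) (l 58753813703))) (c (l 16775776) (l 16777056))) (c (l 16774120) (l 16774072)))) (b (a (a (b (c (l 84523618935) (l 83986746679)) (l 16775456)) (c (l 16775192) (l 16775160))) (c (l 16773104) (l 16773040))) (c (l 16769904) (a (a (l 16768000) (l 16765256)) (a (l 16763840) (l 16767664)))))) (a (b (c (l 16770232) (c (l 16770808) (l 16770760))) (a (b (a (l 16769464) (l 16768040)) (l 16766424)) (c (l 16764856) (l 16764656)))) (b (a (b (l 16770376) (l 16765416)) (a (l 16767096) (l 16763072))) (a (c (l 16762064) (l 16761816)) (c (l 16759288) (l 16759000))))))))), by decide +kernel⟩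

def k67_pm_011_t : ∃ t, chk3 f_pm_011_t t 40 118 1 = true :=
  ⟨(a (b (l 4) (b (b (l 4) (a (l 4) (a (l 4) (c (a (l 135526355895) (l 44258300359)) (a (l 189750314679) (c (l 16779640) (l 45332040519))))))) (b (a (l 4) (a (a (l 4) (b (l 141431934743) (a (l 72712456807) (l 16776720)))) (c (l 16775528) (l 16776800)))) (a (a (l 4) (a (l 4) (c (l 100092875767) (l 162369897431)))) (a (a (c (l 16779288) (l 16779264)) (l 16775288)) (l 16773128)))))) (b (a (b (l 4) (a (l 4) (b (c (l 194582153847) (l 196729637447)) (b (a (l 142505676567) (l 16778120)) (c (l 16776344) (l 16778936)))))) (b (b (a (l 4) (a (l 213372635447) (b (l 137673838471) (a (l 16778552) (l 16776680))))) (a (b (l 4) (c (l 104387843559) (l 166127993975))) (c (l 16778576) (a (l 16779256) (l 16775248))))) (b (a (a (c (l 16779336) (c (l 16779656) (l 43721426503))) (l 16775752)) (l 16773600)) (c (l 16772704) (l 16772616))))) (a (b (a (b (a (a (l 197803378279) (b (l 4) (l 16777120))) (c (l 16776680) (l 16779280))) (c (l 16775072) (l 16775032))) (c (l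 16773416) (l 16773336))) (b (c (l 16771288) (l 16771160)) (a (a (l 16770976) (l 16769544)) (l 16770040)))) (b (a (c (c (l 16765376) (l 16765304)) (b (l 16769032) (l 16769248))) (c (l 16773016) (l 16770208))) (a (c (l 16765888) (l 16768280)) (c (l 16763104) (l 16762824))))))), by decide +kernel⟩

def k68_pm_011_t : ∃ t, chk3 f_pm_011_t t 40 119 1 = true :=
  ⟨(b (a (a (b (a (a (b (l 4) (a (b (l 4) (l 65733134967)) (b (l 126399548135) (l 16776680)))) (c (b (l 132842001271) (l 16776200)) (b (l 187065960071) (l 16776168)))) (a (b (b (a (l 159148673607) (l 69491231351)) (l 16777880)) (l 16774776)) (c (l 16774568) (l 16774504)))) (c (c (l 16771952) (l 16771888)) (a (l 16773248) (b (c (l 16771600) (l 16771544)) (l 16769128))))) (c (b (c (l 16771056) (l 16770984)) (a (l 16772920) (l 16764880))) (b (a (l 16772328) (b (l 16770656) (l 16768232))) (a (l 16770088) (l 16764608))))) (c (a (b (a (l 16766792) (l 16764000)) (l 16763328)) (b (l 16762464) (l 16755208))) (a (b (a (l 16769192) (l 16763720)) (a (l 16761768)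 (l 16758944))) (b (a (l 16760896) (l 16758088)) (l 16754760))))) (b (a (b (a (a (c (l 16769752) (l 16769576)) (l 16766808)) (c (l 16762736) (l 16762416))) (a (a (l 16767248) (l 16764408)) (c (l 16760376) (l 16760008)))) (a (c (l 16756040) (l 16758208)) (c (l 16750600) (l 16750056)))) (a (a (a (c (l 16763792) (l 16763480)) (c (l 16761000) (l 16760632))) (a (l 16758016) (l 16755232))) (a (c (l 16751392) (l 16750840)) (c (l 16746000) (l 16745360)))))), by decide +kernel⟩

def k69_pm_011_t : ∃ t, chk3 f_pm_011_t t 41 59 1 = true :=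
  ⟨(a (b (b (b (a (b (a (c (l 16775480) (l 16775448)) (l 16772608)) (c (l 16771728) (l 16771632))) (a (b (a (l 16770472) (l 16769056)) (l 16770040)) (c (l 16765872) (l 16768296)))) (a (a (b (a (l 16771456) (l 16770032)) (l 16771000)) (c (l 16766832) (l 16769256))) (a (c (l 16764040) (l 16763808)) (c (l 16761272) (l 16761000))))) (a (b (a (c (l 16764976) (l 16764744)) (c (l 16762200) (l 16761920))) (c (l 16758968) (a (l 16760016) (l 16757224)))) (a (b (l 16761896) (l 16754656)) (b (l 16756520) (l 16751936))))) (b (a (c (b (l 16754368) (l 16749792)) (b (l 16753928) (l 16749264))) (c (b (l 16748976) (l 16744464)) (b (l 16748472) (l 16743872)))) (a (c (b (l 16745240) (l 16740704)) (b (l 16744616) (l 16739992))) (c (l 16737720) (b (l 16739288) (l 16734720)))))) (a (b (a (b (b (c (l 16763072) (l 16762832)) (l 16758344)) (c (l 16751712) (l 16753896))) (b (b (c (l 16760280) (l 16760000)) (l 16755560)) (c (l 16748992) (l 16748528)))) (b (b (c (l 16743632) (l 16743064)) (l 16740152)) (c (l 16732528) (l 16731752))))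 (b (b (b (c (l 16756120) (l 16757088)) (c (l 16751616) (l 16751200))) (c (b (l 16747144) (l 16742696)) (b (l 16746656) (l 16742136)))) (b (c (l 16736088) (b (l 16737656) (l 16733184))) (c (l 16727328) (l 16726504)))))), by decide +kernel⟩

def k70_pm_011_t : ∃ t, chk3 f_pm_011_t t 84 29 1 = true :=
  ⟨(b (b (b (a (l 4) (b (a (l 4) (b (l 4) (c (l 182234122311) (l 183844734983)))) (a (c (b (l 206393314167) (c (l 49090139479) (l 16779648))) (b (l 208540797735) (a (l 90429199143) (l 16776440)))) (b (a (b (l 110830292727) (l 16776736)) (l 16775920)) (l 16774376))))) (a (b (a (b (l 4) (a (l 213372635399) (b (l 133915742071) (l 16778264)))) (b (a (b (l 4) (l 107609067287)) (c (l 16776952) (l 16779560))) (c (l 16775456) (l 16775432)))) (b (a (c (l 16775968) (l 16777256)) (l 16773176)) (c (l 16772328) (l 16772264)))) (c (a (a (l 16772248) (l 16770864)) (l 16768792)) (a (a (l 16772016) (l 16770776)) (l 16769328))))) (b (b (a (a (a (b (l 16769488) (l 16769800)) (b (l 16770704) (l 16768400))) (b (a (l 16769304) (l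 16767904)) (l 16766304))) (a (c (l 16764760) (l 16764584)) (c (l 16762008) (l 16761800)))) (a (c (c (l 16768320) (l 16768216)) (a (l 16768168) (l 16762736))) (a (l 16762688) (l 16757312)))) (a (c (b (l 16761696) (l 16755152)) (b (a (l 16760864) (l 16758064)) (l 16757424))) (b (c (l 16754248) (l 16753904)) (c (l 16749696) (l 16749272)))))) (a (b (b (c (b (l 16750624) (l 16746144)) (b (l 16750200) (l 16745648))) (c (b (l 16741712) (l 16737320)) (b (l 16741144) (l 16736680)))) (b (c (l 16730776) (l 16730032)) (c (l 16722144) (l 16721256)))) (b (b (c (b (l 16745192) (l 16740744)) (b (l 16744696) (l 16740168))) (b (l 16738624) (l 16731600))) (b (c (l 16725496) (l 16724688)) (c (l 16716960) (l 16716008)))))), by decide +kernel⟩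

def k71_pm_011_t : ∃ t, chk3 f_pm_011_t t 85 29 1 = true :=
  ⟨(a (b (b (b (b (a (b (a (l 213909506359) (b (l 139284451127) (l 16778320))) (c (l 16776048) (l 16778656))) (c (l 16774424) (l 16774384))) (c (l 16771368) (l 16771296))) (b (a (b (a (l 16770040) (l 16768656)) (l 16769712)) (c (l 16765544) (l 16768016))) (a (c (l 16763792) (l 16763608)) (l 16763568)))) (b (c (b (l 16763152) (l 16753376)) (b (l 16760264) (l 16753032))) (c (b (l 16748816) (l 16744288)) (b (l 16748400) (l 16743792))))) (b (b (b (l 16742136) (l 16740304)) (c (l 16728840) (l 16728096))) (b (c (l 16720256) (l 16719368)) (c (l 16711800) (l 16710792))))) (b (b (b (c (c (l 16768136) (l 16768080)) (c (l 16768024) (c (l 16767984) (l 16767960)))) (b (c (l 16764072) (c (l 16766544) (l 16763832))) (c (l 16756984) (l 16761960)))) (b (b (c (l 16752496) (l 16752160)) (c (l 16747976) (l 16747568))) (b (l 16745808) (l 16738640)))) (b (b (c (l 16732280) (l 16731608)) (c (l 16723584) (l 16722768))) (b (c (l 16715064) (l 16714112)) (c (l 16706680)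 (l 16705600)))))), by decide +kernel⟩

def k72_pm_011_t : ∃ t, chk3 f_pm_011_t t 43 29 1 = true :=
  ⟨(a (a (b (b (a (b (b (c (l 16766232) (l 16760856)) (l 16764344)) (b (l 16757264) (l 16752776))) (b (b (c (l 16763520) (l 16763360)) (l 16759008)) (c (l 16752480) (l 16757408)))) (b (b (l 16749536) (l 16742376)) (c (l 16735872) (l 16735280)))) (b (b (c (l 16727016) (l 16726272)) (c (l 16718376) (l 16717488))) (b (c (l 16709912) (l 16708896)) (c (l 16701600) (l 16700448))))) (b (b (b (c (b (l 16764720) (l 16755088)) (b (l 16761896) (l 16754824))) (b (l 16753128) (l 16746040))) (b (c (l 16739560) (l 16739056)) (c (l 16730600) (l 16729936)))) (b (b (c (l 16721792) (l 16720976)) (c (l 16713200) (l 16712248))) (b (c (l 16704800) (l 16703712)) (c (l 16696552) (l 16695344)))))) (b (b (a (b (b (c (l 16754128) (l 16753864)) (l 16754824)) (c (l 16748392) (l 16747968))) (b (b (l 16753888) (l 16744256)) (c (l 16737880) (l 16737392)))) (b (a (c (l 16734280) (l 16733712)) (c (l 16729040) (l 16728400))) (a (c (l 16725368)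 (l 16724632)) (c (l 16720168) (l 16719368))))) (b (b (c (a (l 16716600) (l 16711448)) (a (l 16715720) (l 16710488))) (c (a (l 16708064) (l 16702960)) (a (l 16707040) (l 16701864)))) (b (c (a (l 16699720) (l 16694672)) (l 16701248)) (c (a (l 16691536) (l 16686552)) (l 16698216)))))), by decide +kernel⟩

def k73_pm_011_t : ∃ t, chk3 f_pm_011_t t 22 56 1 = true :=
  ⟨(a (b (a (l 4) (l 4)) (a (b (l 4) (b (a (l 4) (a (l 4) (c (l 168812348423) (l 172570445655)))) (b (a (l 4) (a (a (l 4) (l 103314101271)) (l 16775960))) (a (a (l 4) (l 208003926711)) (c (l 16777848) (l 16777832)))))) (b (a (b (l 4) (b (c (l 203708960695) (l 214983248263)) (a (l 219815086871) (a (l 74323071191) (l 16776136))))) (c (b (a (l 174181059143) (b (l 16779896) (l 16775584))) (l 16773864)) (b (a (l 183307863415) (l 8824822263)) (l 16773840)))) (a (b (a (a (b (l 110830294071) (l 16776024)) (l 16778336)) (l 16773744)) (l 16770968)) (c (l 16767784) (l 16767720)))))) (a (b (b (a (l 4) (a (l 4) (b (l 4) (b (l 145190035207) (l 28152174279)))))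 (a (b (a (l 4) (c (l 126399555223) (l 190287184743))) (b (a (l 136600100231) (l 16776328)) (c (l 16778264) (l 16775624)))) (b (a (c (l 14730402583) (l 16779272)) (l 16774120)) (l 16771456)))) (b (a (c (l 16770672) (l 16770624)) (l 16766752)) (c (c (l 16760024) (l 16759952)) (l 16763128)))) (b (b (c (a (b (a (l 132842006263) (l 16776736)) (l 16776792)) (l 16770952)) (a (b (a (l 202098344295) (l 16779344)) (l 16774152)) (l 16770928))) (a (c (l 16768288) (l 16768232)) (l 16763104))) (c (b (l 16763024) (a (l 16762760) (l 16747168))) (a (l 16758784) (l 16751008)))))), by decide +kernel⟩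

def k74_pm_011_t : ∃ t, chk3 f_pm_011_t t 22 57 1 = true :=
  ⟨(a (b (a (b (b (b (a (a (l 4) (c (l 16779696) (l 16779688))) (l 16773176)) (a (a (a (l 137673839735) (l 19025366871)) (l 16775096)) (l 16771096))) (a (c (l 16773312) (l 16773280)) (l 16767968))) (a (c (l 16767040) (l 16766944)) (a (b (l 16759864) (l 16760880)) (b (l 16757208) (l 16758232))))) (b (c (b (l 16766880) (l 16760120)) (b (l 16764152) (l 16759976))) (b (a (a (l 16759808) (l 16757176)) (l 16763720)) (a (l 16759520) (l 16749032))))) (b (b (a (a (a (a (l 16762616) (l 16761288)) (l 16759288)) (a (l 16756632) (l 16753984))) (a (l 16750032) (l 16744800))) (a (a (a (l 16757664) (l 16755008)) (l 16756280)) (c (l 16748576) (l 16748224)))) (a (a (b (l 16757272) (l 16747696)) (c (l 16744760) (l 16749656))) (a (c (l 16739536) (l 16739128)) (l 16739352))))) (b (b (a (a (b (a (l 16757648) (l 16755048)) (l 16752200)) (c (l 16759704) (l 16759448))) (a (l 16749176) (l 16749304))) (a (a (b (l 16748024) (l 16743816)) (l 16745984)) (a (l 16735600) (l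 16730496)))) (a (b (a (l 16742712) (l 16732296)) (c (l 16731880) (l 16736528))) (b (b (l 16737216) (l 16732976)) (c (l 16716472) (l 16715728)))))), by decide +kernel⟩

def k75_pm_011_t : ∃ t, chk3 f_pm_011_t t 23 28 1 = true :=
  ⟨(b (a (b (c (a (b (l 16763208) (l 16755432)) (l 16754296)) (a (b (l 16763152) (l 16755328)) (l 16754200))) (a (b (l 16747472) (a (l 16752432) (l 16736872))) (c (b (l 16747856) (l 16729424)) (b (l 16747648) (l 16729104))))) (b (a (c (l 16738792) (l 16738704)) (l 16733776)) (a (b (l 16731040) (l 16729648)) (b (l 16727464) (l 16709088))))) (b (a (a (a (b (l 16733744) (l 16725424)) (b (l 16728688) (l 16720384))) (b (l 16726376) (l 16723352))) (a (b (l 16711088) (l 16702888)) (b (l 16701080) (l 16692944)))) (a (a (b (l 16724984) (l 16716496)) (c (l 16705960) (l 16710328))) (a (b (l 16694584) (l 16686184)) (c (l 16681008) (l 16680064)))))), by decide +kernel⟩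

def k76_pm_011_t : ∃ t, chk3 f_pm_011_t t 11 29 1 = true :=
  ⟨(a (a (b (a (a (b (b (c (l 16741368) (l 16740952)) (c (l 16732640) (l 16732088))) (b (c (l 16723840) (l 16723128)) (c (l 16715000) (l 16714128)))) (b (b (c (l 16736136) (l 16735656)) (l 16731048)) (b (l 16723512) (l 16714624)))) (a (b (b (l 16735904) (l 16721904)) (b (l 16713088) (l 16704232))) (b (b (l 16725456) (l 16716728)) (b (l 16707936) (l 16699112))))) (b (a (b (c (a (l 16706328) (l 16701232)) (l 16713192)) (c (a (l 16697888) (l 16692840)) (l 16694152))) (b (c (l 16698880) (l 16692408)) (c (l 16685320) (l 16683936)))) (a (a (b (a (l 16690248) (l 16687728)) (l 16686104)) (b (l 16683952) (l 16675888))) (c (b (l 16677208) (l 16669288)) (b (l 16675704) (l 16667656)))))) (b (c (b (a (b (l 16718088) (l 16709472)) (b (l 16707960) (l 16699384))) (a (b (l 16700800) (l 16692112)) (b (l 16690760) (l 16682128)))) (b (a (b (l 16717344) (l 16708568)) (b (l 16707048) (l 16698304))) (a (b (l 16699728) (l 16690856)) (b (l 16689496) (l 16680672)))))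 (b (a (c (b (l 16683600) (l 16675360)) (b (l 16682176) (l 16673784))) (c (b (l 16673680) (l 16665504)) (l 16667848))) (a (c (b (l 16667336) (l 16659520)) (l 16672112)) (c (b (l 16657568) (l 16649840)) (l 16651680)))))) (a (b (b (a (b (l 16697448) (l 16688824)) (b (l 16687520) (l 16678944))) (a (b (l 16680152) (l 16671472)) (c (l 16666808) (l 16665128)))) (b (a (c (l 16659816) (l 16657912)) (c (l 16650208) (l 16648136))) (a (c (l 16644096) (l 16641896)) (c (l 16634640) (l 16632256))))) (b (b (a (c (l 16674112) (l 16672760)) (c (l 16664408) (l 16663000))) (a (c (l 16657168) (l 16655368)) (c (l 16647608) (l 16645712)))) (b (a (c (l 16640696) (l 16638480)) (l 16640600)) (a (c (l 16625296) (l 16622736)) (c (l 16615960) (l 16613224))))))), by decide +kernel⟩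

def k77_pm_011_t : ∃ t, chk3 f_pm_011_t t 20 60 1 = true :=
  ⟨(a (a (b (b (a (a (b (l 16760144) (l 16754056)) (b (l 16756040) (l 16751288))) (c (b (l 16752176) (l 16747512)) (b (l 16751616) (l 16746848)))) (a (c (b (l 16748264) (l 16743584)) (b (l 16747592) (l 16742808))) (c (b (l 16742864) (l 16738232)) (b (l 16742096) (l 16737360))))) (b (a (c (b (l 16738928) (l 16734280)) (b (l 16738048) (l 16733288))) (c (l 16731312) (b (l 16732640) (l 16727928)))) (a (b (l 16730392) (l 16727032)) (c (l 16722120) (l 16723504))))) (b (b (a (c (b (l 16746760) (l 16742144)) (b (l 16746104) (l 16741392))) (c (l 16739144) (b (l 16740688) (l 16736032)))) (a (c (l 16735256) (b (l 16736696) (l 16732008))) (c (l 16730048) (l 16731032)))) (b (a (c (l 16726104) (l 16727616)) (c (l 16720992) (l 16719816))) (a (c (l 16717000) (l 16715688)) (c (l 16711976) (l 16710600)))))) (b (a (b (a (b (l 16738384) (l 16731208)) (c (l 16728792) (l 16727896))) (a (c (l 16724928) (l 16723896)) (c (l 16719912) (l 16718832)))) (b (a (c (l 16723712)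 (l 16722768)) (c (l 16718632) (l 16717648))) (a (c (l 16714944) (l 16713832)) (c (l 16709984) (l 16708832))))) (a (b (a (c (l 16715984) (l 16714752)) (c (l 16711064) (l 16709800))) (a (c (l 16707056) (l 16705632)) (c (l 16702240) (l 16700792)))) (b (a (c (l 16706208) (l 16704920)) (c (l 16701352) (l 16700032))) (a (c (l 16697480) (l 16696008)) (c (l 16692736) (l 16691240))))))), by decide +kernel⟩

def k78_pm_011_t : ∃ t, chk3 f_pm_011_t t 20 61 1 = true :=
  ⟨(b (a (a (b (a (b (a (l 16721032) (l 16718432)) (l 16717632)) (c (l 16712968) (l 16711528))) (a (c (l 16708640) (l 16707048)) (c (l 16703736) (l 16702080)))) (b (a (c (l 16707920) (l 16706408)) (c (l 16702976) (l 16701408))) (a (c (l 16698824) (l 16697104)) (c (l 16693952) (l 16692176))))) (a (b (a (c (l 16698144) (l 16696528)) (c (l 16693416) (l 16691776))) (a (c (l 16689192) (l 16687376)) (c (l 16684552) (l 16682720)))) (b (c (a (l 16688760) (l 16684104)) (a (l 16687104) (l 16682432))) (a (c (l 16679976) (l 16678136)) (c (b (l 16677600) (l 16673152))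 (l 16683936)))))) (a (a (b (c (a (l 16699008) (l 16694248)) (a (l 16697168) (l 16692360))) (b (a (l 16690640) (c (l 16686896) (l 16684816))) (b (a (l 16686816) (a (l 16683360) (l 16681128))) (a (a (l 16685568) (l 16683288)) (l 16679776))))) (b (a (c (l 16689552) (l 16687616)) (b (l 16686128) (a (l 16682672) (l 16680216)))) (b (b (a (l 16682488) (a (l 16679160) (l 16676880))) (a (a (l 16681240) (l 16679064)) (l 16675664))) (a (l 16676504) (l 16672120))))) (b (a (b (a (l 16681392) (c (l 16677744) (l 16675752))) (b (a (l 16677864) (a (l 16674520) (l 16672344))) (a (a (l 16676800) (l 16674568)) (l 16671176)))) (b (a (c (b (l 16674368) (l 16672280)) (l 16681800)) (c (b (l 16670008) (l 16667824)) (l 16667008))) (c (l 16666792) (l 16664712)))) (a (c (l 16674144) (l 16666696)) (c (l 16660264) (l 16658048)))))), by decide +kernel⟩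

def k79_pm_011_t : ∃ t, chk3 f_pm_011_t t 21 60 1 = true :=
  ⟨(a (b (a (b (a (c (l 16713560) (l 16712528)) (c (l 16708496) (l 16707408))) (a (c (l 16705024) (l 16703832)) (c (l 16700072) (l 16698832)))) (b (c (a (l 16703440) (l 16698400)) (a (l 16702288) (l 16697192))) (c (a (l 16695128) (l 16690192)) (a (l 16693840) (l 16688848))))) (a (b (c (a (l 16696504) (l 16691664)) (a (l 16695152) (l 16690272))) (c (a (l 16687992) (l 16683248)) (a (l 16686464) (l 16681696)))) (b (c (a (l 16686824) (l 16682000)) (a (l 16685392) (l 16680520))) (c (a (l 16678520) (l 16673808)) (l 16679800))))) (b (a (b (c (a (l 16693392) (l 16688424)) (a (l 16692128) (l 16687096))) (c (a (l 16685272) (l 16680384)) (a (l 16683880) (l 16678928)))) (b (c (a (l 16683488) (l 16678568)) (l 16679592)) (c (a (l 16675520) (l 16670688)) (l 16671552)))) (a (b (c (a (l 16677184) (l 16672392)) (l 16678472)) (c (a (l 16669096) (l 16664408)) (l 16665056))) (b (c (a (l 16667616) (l 16662864)) (l 16663568)) (c (a (l 16659728) (b (l 16657016) (l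 16653056))) (a (l 16657952) (l 16653136))))))), by decide +kernel⟩

def k80_pm_011_t : ∃ t, chk3 f_pm_011_t t 21 61 1 = true :=
  ⟨(b (a (b (a (c (a (l 16679464) (l 16674824)) (a (l 16677760) (l 16673104))) (a (c (l 16670200) (l 16668448)) (c (b (l 16667640) (l 16663448)) (l 16674176)))) (a (b (a (l 16672080) (c (l 16668392) (l 16666528))) (a (c (b (l 16669728) (l 16667696)) (l 16677264)) (c (b (l 16665344) (l 16663232)) (l 16662432)))) (b (a (c (b (l 16664912) (l 16662944)) (l 16672528)) (c (b (l 16660504) (l 16658448)) (l 16657640))) (c (l 16657632) (l 16655664))))) (b (a (b (c (a (l 16663016) (l 16658336)) (l 16669296)) (a (c (b (l 16659912) (l 16658008)) (l 16657088)) (c (l 16665008) (l 16652632)))) (b (a (b (l 16664264) (l 16662392)) (a (l 16659952) (l 16647120))) (c (l 16647688) (l 16645704)))) (a (c (l 16656032) (l 16648792)) (c (l 16641904) (l 16639816))))) (a (a (c (b (l 16660208) (l 16651720)) (b (l 16658152) (l 16649488))) (c (b (l 16656752) (l 16643200)) (b (l 16649408) (l 16640936)))) (a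 (c (b (l 16642808) (l 16634680)) (b (l 16640656) (l 16632368))) (c (b (l 16634088) (l 16626128)) (l 16633040))))), by decide +kernel⟩

def k81_pm_011_t : ∃ t, chk3 f_pm_011_t t 20 62 1 = true :=
  ⟨(a (b (a (b (c (a (l 16679432) (l 16674872)) (a (l 16677104) (l 16672512))) (c (a (l 16669608) (l 16665112)) (a (l 16667056) (l 16662520)))) (a (b (c (l 16670448) (l 16668056)) (c (l 16660744) (l 16658128))) (b (l 16670160) (c (l 16656512) (l 16653888))))) (a (b (c (a (l 16659648) (l 16655208)) (a (l 16656872) (l 16652392))) (c (a (l 16649560) (l 16645176)) (a (l 16646560) (l 16642136)))) (b (c (a (l 16650912) (l 16646744)) (a (l 16648064) (l 16643888))) (c (a (l 16640936) (l 16636840)) (a (l 16637872) (l 16633760)))))) (b (a (a (b (c (l 16661912) (l 16659512)) (c (l 16652416) (l 16649792))) (b (l 16656456) (c (l 16648408) (l 16645800)))) (b (c (l 16651392) (l 16648992)) (c (l 16642328) (l 16639736)))) (a (b (c (a (l 16642720) (l 16638840)) (a (l 16639872) (l 16636008))) (c (a (l 16632888) (l 16629080)) (a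 (l 16629808) (l 16626024)))) (b (c (a (l 16634984) (l 16631064)) (a (l 16632184) (l 16628272))) (c (a (l 16625352) (l 16621592)) (a (l 16622320) (l 16618584))))))), by decide +kernel⟩

def k82_pm_011_t : ∃ t, chk3 f_pm_011_t t 20 63 1 = true :=
  ⟨(b (a (b (a (c (a (l 16639328) (l 16635000)) (a (l 16636112) (l 16631744))) (c (a (l 16630824) (l 16626792)) (a (l 16627536) (l 16623496)))) (a (b (c (l 16629408) (l 16626000)) (a (b (l 16625864) (l 16623384)) (c (l 16632712) (l 16618696)))) (a (b (l 16621384) (c (l 16618192) (l 16614632))) (b (l 16617392) (c (l 16614296) (l 16610728)))))) (b (a (c (a (l 16622912) (l 16619184)) (a (l 16619616) (l 16615904))) (c (a (l 16615536) (l 16611880)) (a (l 16612280) (l 16608648)))) (a (b (c (a (l 16615312) (l 16611624)) (a (l 16611840) (l 16608168))) (a (l 16608696) (l 16605104))) (b (c (b (l 16607528) (l 16615624)) (b (l 16604144) (l 16601704))) (c (l 16601704) (l 16598192)))))) (a (a (b (c (l 16617056) (l 16613384)) (c (a (l 16609432) (l 16605352)) (a (l 16605560) (l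 16601440)))) (b (c (l 16609080) (l 16605352)) (c (a (l 16601424) (l 16597664)) (a (l 16597488) (l 16593720))))) (a (a (b (l 16601600) (c (l 16594072) (l 16590136))) (b (l 16598096) (c (l 16590640) (l 16586728)))) (b (c (l 16594864) (l 16591200)) (c (a (l 16587296) (l 16583952)) (l 16581760)))))), by decide +kernel⟩

def k83_pm_011_t : ∃ t, chk3 f_pm_011_t t 21 31 1 = true :=
  ⟨(b (a (b (a (c (b (l 16643048) (l 16634200)) (b (l 16640640) (l 16631600))) (c (b (l 16634728) (l 16626080)) (b (l 16632296) (l 16623464)))) (a (c (b (l 16625144) (a (l 16617784) (l 16613960))) (b (l 16622352) (l 16612880))) (c (b (l 16617240) (c (l 16609016) (l 16607416))) (b (l 16614440) (l 16605208))))) (b (a (c (b (l 16626400) (l 16617944)) (b (l 16623912) (l 16615288))) (c (b (l 16618024) (l 16609768)) (b (l 16615464) (l 16607032)))) (a (c (b (l 16609320) (c (l 16601320) (l 16599704))) (b (l 16606480) (l 16597464))) (c (b (l 16601336) (l 16592728)) (b (l 16598424) (l 16589624)))))) (b (a (b (a (c (a (l 16608216) (l 16604520))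 (a (l 16605000) (l 16601312))) (c (a (l 16600808) (l 16597072)) (l 16595712))) (a (b (c (a (l 16600984) (l 16607928)) (a (l 16597608) (l 16594080))) (c (l 16594712) (l 16591240))) (c (b (a (l 16593880) (l 16590280)) (l 16587672)) (b (l 16588744) (l 16584208))))) (b (a (c (b (l 16593760) (c (l 16600520) (l 16588288))) (b (l 16590576) (l 16585856))) (c (b (l 16586152) (c (l 16593104) (l 16580840))) (b (l 16582904) (l 16578368)))) (a (a (l 16582720) (l 16579104)) (c (l 16575400) (l 16571920))))) (a (a (c (b (l 16587992) (a (l 16580608) (l 16577240))) (b (l 16584376) (l 16575104))) (c (b (l 16581072) (a (l 16573864) (l 16570464))) (b (l 16577472) (l 16568368)))) (a (c (b (l 16574064) (l 16565320)) (b (l 16570448) (l 16561512))) (c (b (l 16566944) (l 16558352)) (b (l 16563272) (l 16554496))))))), by decide +kernel⟩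

def k84_pm_011_t : ∃ t, chk3 f_pm_011_t t 11 30 1 = true :=
  ⟨(b (b (a (a (a (a (b (l 16678128) (l 16670256)) (b (l 16667976) (l 16660176))) (c (b (l 16661528) (l 16653888)) (b (l 16659784) (l 16652032)))) (a (c (b (l 16651864) (l 16644352)) (l 16646080)) (b (c (l 16642288) (l 16640120)) (c (l 16645296) (l 16632512))))) (a (a (b (l 16631656) (a (l 16647552) (l 16642936))) (b (l 16643144) (c (l 16616392) (l 16613688)))) (b (a (c (l 16614304) (l 16611536)) (l 16603768)) (c (l 16602600) (l 16599568))))) (a (a (a (a (b (l 16662456) (b (l 16651384) (a (l 16659128) (l 16656864)))) (b (l 16652456) (b (c (l 16647632) (l 16645688)) (l 16653424)))) (b (c (a (l 16648688) (l 16643912)) (l 16654744)) (b (c (a (l 16643040) (l 16638448)) (l 16659688)) (l 16646384)))) (a (b (a (b (l 16640080) (l 16646832)) (b (l 16635264) (l 16631656))) (c (l 16629576) (l 16627264))) (b (c (b (l 16650416) (l 16625752)) (l 16625280)) (l 16629504)))) (a (c (a (l 16614720) (l 16605624)) (a (l 16612000) (l 16602672))) (a (l 16595040) (l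 16586032))))) (a (a (b (a (c (b (l 16640544) (l 16632984)) (l 16645096)) (c (b (l 16631440) (l 16624024)) (l 16625408))) (a (c (b (l 16625320) (l 16617528)) (l 16618984)) (c (b (l 16616504) (l 16608864)) (l 16610080)))) (c (b (a (b (l 16622288) (l 16615000)) (l 16620040)) (a (c (l 16604616) (l 16603144)) (l 16595048))) (b (a (l 16616104) (l 16606776)) (a (l 16601048) (l 16591976))))) (a (b (c (a (l 16600584) (l 16591720)) (l 16613960)) (c (a (l 16586328) (l 16577720)) (l 16599528))) (a (b (l 16602176) (l 16567296)) (b (l 16572424) (l 16558760)))))), by decide +kernel⟩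

def k85_pm_011_t : ∃ t, chk3 f_pm_011_t t 11 31 1 = true :=
  ⟨(b (a (a (c (b (a (b (l 16609600) (l 16601520)) (b (l 16601088) (l 16593176))) (a (b (l 16593272) (l 16584864)) (b (l 16585120) (l 16576896)))) (b (a (l 16602800) (l 16594216)) (a (l 16585968) (l 16577744)))) (c (b (a (b (l 16592496) (l 16584736)) (l 16590568)) (a (b (l 16576840) (l 16568792)) (c (l 16565568) (l 16563640)))) (b (a (l 16585480) (l 16576688)) (a (l 16569344) (l 16560864))))) (a (b (c (a (l 16571640) (l 16563304)) (l 16584656)) (c (a (l 16556464) (l 16548392)) (a (l 16552472) (l 16544136)))) (b (c (a (l 16555064) (l 16546912)) (l 16546704)) (a (b (l 16541976) (l 16555392)) (b (l 16533936) (l 16547504)))))) (a (a (b (b (c (a (b (l 16578448) (l 16584688)) (b (l 16570600) (l 16566536))) (a (b (l 16575096) (l 16570760)) (l 16565000))) (c (a (l 16567992) (l 16560432)) (a (l 16564408) (l 16556704)))) (a (c (b (l 16559680) (l 16551248)) (l 16551608)) (c (b (l 16552264) (l 16543976)) (l 16544120)))) (b (b (b (c (a (l 16562624) (l 16554648))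 (l 16575776)) (a (l 16556720) (l 16548696))) (c (a (l 16552704) (l 16544896)) (l 16544752))) (c (a (b (l 16544664) (l 16536520)) (c (l 16534144) (l 16531848))) (a (l 16536392) (l 16528528))))) (a (b (c (b (a (l 16544920) (l 16537120)) (l 16533336)) (b (l 16536664) (l 16528768))) (c (a (l 16525456) (l 16518016)) (l 16527360))) (a (b (l 16523240) (a (l 16509888) (l 6))) (b (l 16515576) (l 6)))))), by decide +kernel⟩

def k86_pm_011_t : ∃ t, chk3 f_pm_011_t t 6 12 1 = true :=
  ⟨(a (b (l 4) (a (l 4) (b (l 4) (a (l 4) (b (l 4) (a (b (l 4) (a (l 4) (b (l 4) (a (l 4) (l 208540791655))))) (b (a (l 4) (a (a (l 4) (l 1)) (l 1))) (a (a (b (l 4) (b (a (l 214983243959) (l 68417490695)) (l 16778968))) (b (c (b (l 204782696535) (l 55532589735)) (l 83986751239)) (l 16774736))) (b (c (a (l 16778248) (l 16773240)) (l 16774400)) (l 16776376)))))))))) (b (l 1) (a (b (l 1) (a (b (l 1) (a (a (b (l 1) (l 16773296)) (l 1)) (l 1))) (l 1))) (l 1)))), by decide +kernel⟩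

def k87_pm_011_t : ∃ t, chk3 f_pm_011_t t 24 26 1 = true :=
  ⟨(b (l 4) (a (b (l 4) (a (l 4) (b (l 4) (a (c (l 228405015191) (l 232163109415)) (b (a (l 242363659511) (a (l 97945394999) (l 16779600))) (c (c (l 16780440) (l 16780448)) (l 16780464))))))) (b (a (b (l 4) (a (l 4) (b (l 4) (a (l 4) (c (l 149484993639) (l 88818590487)))))) (a (b (l 4) (a (b (l 201561470727) (l 16779576)) (b (a (l 60364429799) (l 16776064)) (l 16772992)))) (b (a (b (l 4) (a (l 170422958775) (l 50163881975))) (b (c (l 175254796807) (l 179549763543)) (l 16775152))) (c (l 16773472) (l 16770944))))) (a (b (b (a (l 231626240151) (a (a (l 80228654439) (l 16779168)) (l 16774544))) (a (a (l 169886087719) (c (l 16778728) (l 16776120))) (l 16772104))) (a (c (l 16771736) (l 16771816)) (l 16771688))) (b (a (c (l 16768600) (l 16768744)) (l 16768648)) (c (l 16768848) (l 16758648))))))), by decide +kernel⟩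

def k88_pm_011_t : ∃ t, chk3 f_pm_011_t t 25 26 1 = true :=
  ⟨(b (a (b (a (l 4) (b (l 4) (a (l 4) (b (a (l 4) (l 208540791991)) (a (c (l 164517378631) (l 165591120023)) (b (l 41037074951) (l 16775144))))))) (a (b (a (l 4) (b (l 4) (a (l 4) (l 194045277847)))) (b (a (l 4) (a (b (l 223036307239) (l 60364428775)) (a (l 16778904) (l 16774992)))) (a (a (l 223573177383) (b (l 96871651991) (l 16776320))) (l 16774640)))) (b (a (b (a (l 225720660423) (b (l 183844731367) (l 33520881991))) (a (a (a (l 72175588983) (l 42110816871)) (l 16775992)) (l 16774072))) (c (b (l 16773776) (l 16770240)) (l 16772040))) (a (c (l 16772576) (l 16770016)) (l 16775408))))) (b (a (b (a (b (l 4) (a (l 4) (c (b (l 204245825863) (l 46942654727)) (l 78618041735)))) (b (a (c (l 173644183815) (l 177402279703)) (a (a (l 57143202455) (l 16779216)) (l 16775672))) (c (l 16776768) (l 16774144)))) (b (a (a (a (b (l 212835760599) (l 16776720)) (l 16779280)) (l 16774448)) (l 16770736)) (a (l 16772248) (l 16767296)))) (b (a (c (l 16773576) (l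 16770928)) (l 16776632)) (c (l 16772272) (l 16761720)))) (a (b (c (l 16772384) (l 16775032)) (l 16767952)) (c (l 16761856) (l 16761800))))) (a (b (a (b (a (a (a (b (l 39426463255) (l 16773184)) (l 16776336)) (l 16774376)) (c (l 16767816) (l 16767920))) (c (l 16770856) (l 16773656))) (c (a (l 16769480) (l 16764440)) (l 16767136))) (a (b (l 16763480) (l 16758616)) (c (l 16752040) (l 16741928)))) (a (b (c (l 16757040) (l 16746712)) (l 16742376)) (b (l 16747536) (l 16722360))))), by decide +kernel⟩

def k89_pm_011_t : ∃ t, chk3 f_pm_011_t t 12 27 1 = true :=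
  ⟨(a (b (a (b (a (b (a (l 4) (b (l 4) (a (l 211762018551) (l 44258303351)))) (a (a (b (l 4) (l 54458851303)) (b (l 90966074951) (l 16774608))) (b (l 16778376) (l 16770640)))) (a (b (b (a (c (l 78618042839) (l 80228655527)) (l 16775408)) (l 16772944)) (l 16767248)) (b (l 16771168) (l 16761960)))) (a (b (a (l 16770208) (l 16764936)) (a (l 16762592) (l 16757344))) (b (l 16762280) (l 16759968)))) (b (a (b (a (l 16764216) (l 16758912)) (l 16760584)) (c (l 16757528) (l 16757944))) (a (c (l 16753056) (l 16742928)) (l 16742816)))) (a (b (a (c (l 16758992) (l 16759120)) (c (l 16738048) (l 16738280))) (a (l 16738672) (l 16733632))) (b (a (l 16733024) (l 16717456)) (a (l 16712872) (l 16702656))))) (b (b (a (a (c (l 16747160) (l 16737184)) (l 16737352)) (a (l 16717072) (l 16728568))) (a (c (l 16729832) (l 16738320)) (l 16708072))) (a (b (b (l 16716480) (l 16698640)) (l 16695504)) (a (l 16685608) (a (l 16694272) (l 16689664)))))), by decide +kernel⟩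

def k90_pm_011_t : ∃ t, chk3 f_pm_011_t t 13 13 1 = true :=
  ⟨(a (b (b (a (b (a (c (l 16766400) (l 16766152)) (l 18287123079)) (a (l 16752552) (l 16754176))) (a (b (l 1) (l 16745760)) (l 1))) (a (b (a (l 16727832) (l 16739992)) (a (l 16734160) (l 16704424))) (b (a (l 16710656) (l 16702472)) (a (l 16696080) (l 16687936))))) (a (b (b (a (l 16698464) (l 16689728)) (l 16710864)) (a (l 16703880) (l 16674208))) (a (b (l 16689800) (l 16644928)) (b (l 16686928) (l 16636832))))) (a (b (b (l 1) (b (l 1) (l 16696712))) (b (c (l 16675960) (l 16673792)) (l 16656272))) (b (l 1) (b (c (l 16660408) (l 16636152)) (l 16629880))))), by decide +kernel⟩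

def k91_pm_011_t : ∃ t, chk3 f_pm_011_t t 7 6 1 = true :=
  ⟨(b (l 1) (a (b (l 1) (a (b (l 1) (a (l 16613928) (l 1))) (l 1))) (l 1))), by decide +kernel⟩

def k92_pm_011_t : ∃ t, chk3 f_pm_011_t t 6 14 1 = true :=
  ⟨(a (b (b (a (a (b (a (l 16718336) (c (l 16729088) (l 16729160))) (a (c (l 16713552) (l 16723832)) (b (l 16696800) (l 16689040)))) (b (b (l 16701896) (l 16689248)) (a (c (l 16682888) (l 16682864)) (l 16672928)))) (b (a (l 16678288) (c (l 16653728) (l 16654032))) (a (a (l 16663080) (l 16653384)) (a (l 16643880) (l 16634616))))) (a (a (b (a (c (l 16687320) (l 16686808)) (l 16687648)) (a (l 16681224) (l 16660960))) (a (b (l 16667272) (l 16651208)) (b (l 16657432) (l 16641496)))) (a (b (c (l 16653392) (l 16642720)) (a (l 16631872) (l 16622368))) (b (l 16644992) (l 16629384))))) (a (b (a (b (a (c (l 16654736) (l 16653328)) (l 16644424)) (a (l 16647624) (l 16627656))) (b (a (l 16634816) (l 16625240)) (a (l 16618192) (l 16608768)))) (a (a (b (l 16620720) (b (l 16609160) (l 16622728))) (b (l 16611368)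 (b (l 16599872) (l 16592640)))) (b (a (l 16602064) (l 16592728)) (b (a (l 16590728) (l 16581592)) (l 16599856))))) (b (a (b (a (l 16615744) (l 16606344)) (a (l 16599400) (l 16590104))) (b (l 16592504) (a (l 16580928) (l 16571864)))) (a (b (a (l 16583496) (l 16574376)) (l 16564264)) (b (a (l 16565336) (l 16556360)) (l 16546320)))))) (b (a (b (a (a (l 16653912) (l 16624256)) (a (l 16615936) (l 16607832))) (a (b (l 16606104) (l 16590568)) (a (l 16585712) (l 16577584)))) (b (a (l 16616824) (l 16580104)) (a (l 16565608) (l 16549984)))) (b (a (a (b (l 16574736) (a (l 16563032) (l 16554440))) (b (l 16557960) (l 16562960))) (b (a (l 16541968) (l 16526376)) (l 16560104))) (a (b (a (l 16543216) (l 16526496)) (a (l 16528888) (l 16512224))) (a (l 16503256) (l 6)))))), by decide +kernel⟩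

def k93_pm_011_t : ∃ t, chk3 f_pm_011_t t 6 15 1 = true :=
  ⟨(a (b (b (a (a (b (c (l 16588016) (l 16584728)) (c (l 16574464) (l 16570808))) (b (a (l 16572904) (l 16563944)) (c (l 16556992) (l 16553056)))) (a (b (l 16571512) (l 16558568)) (b (l 16532848) (l 16520184)))) (a (a (b (c (l 16561368) (l 16557360)) (c (l 16548256) (l 16543896))) (b (c (l 16544376) (l 16540048)) (c (l 16531768) (l 16527048)))) (a (b (l 16546168) (l 16512832)) (b (l 16508096) (l 6))))) (b (a (a (b (c (l 16555784) (l 16530080)) (c (b (l 16524480) (l 16538440)) (b (l 16519472) (l 16512248)))) (b (c (l 16518864) (l 16513736)) (l 6))) (l 6)) (a (a (b (c (l 16506944) (l 16501424)) (l 6)) (l 6)) (l 6)))) (b (b (a (a (b (l 16515584) (l 16503112)) (a (l 16496768) (l 6))) (l 6)) (l 6)) (l 6))), by decide +kernel⟩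

def k94_pm_011_t : ∃ t, chk3 f_pm_011_t t 7 7 1 = true :=
  ⟨(b (a (b (a (b (a (l 16564440) (l 16548768)) (a (l 16576504) (l 16561104))) (b (l 1) (l 6))) (a (b (a (l 16502976) (l 6)) (l 6)) (l 6))) (l 6)) (l 6)), by decide +kernel⟩

theorem s95_pm_011_t : ∃ t, chk3 f_pm_011_t t 6 7 1 = true := ex3_b k92_pm_011_t k93_pm_011_t

theorem s96_pm_011_t : ∃ t, chk3 f_pm_011_t t 3 7 1 = true := ex3_a s95_pm_011_t k94_pm_011_t

theorem s97_pm_011_t : ∃ t, chk3 f_pm_011_t t 12 26 1 = true := ex3_a k87_pm_011_t k88_pm_011_t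

theorem s98_pm_011_t : ∃ t, chk3 f_pm_011_t t 12 13 1 = true := ex3_b s97_pm_011_t k89_pm_011_t

theorem s99_pm_011_t : ∃ t, chk3 f_pm_011_t t 6 13 1 = true := ex3_a s98_pm_011_t k90_pm_011_t

theorem s100_pm_011_t : ∃ t, chk3 f_pm_011_t t 6 6 1 = true := ex3_b k86_pm_011_t s99_pm_011_t

theorem s101_pm_011_t : ∃ t, chk3 f_pm_011_t t 3 6 1 = true := ex3_a s100_pm_011_t k91_pm_011_t

theorem s102_pm_011_t : ∃ t, chk3 f_pm_011_t t 3 3 1 = true := ex3_b s101_pm_011_t s96_pm_011_t

theorem s103_pm_011_t : ∃ t, chk3 f_pm_011_t t 11 15 1 = true := ex3_b k84_pm_011_t k85_pm_011_t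

theorem s104_pm_011_t : ∃ t, chk3 f_pm_011_t t 20 31 1 = true := ex3_b k81_pm_011_t k82_pm_011_t

theorem s105_pm_011_t : ∃ t, chk3 f_pm_011_t t 10 31 1 = true := ex3_a s104_pm_011_t k83_pm_011_t

theorem s106_pm_011_t : ∃ t, chk3 f_pm_011_t t 21 30 1 = true := ex3_b k79_pm_011_t k80_pm_011_t

theorem s107_pm_011_t : ∃ t, chk3 f_pm_011_t t 20 30 1 = true := ex3_b k77_pm_011_t k78_pm_011_t

theorem s108_pm_011_t : ∃ t, chk3 f_pm_011_t t 10 30 1 = true := ex3_a s107_pm_011_t s106_pm_011_t

theorem s109_pm_011_t : ∃ t, chk3 f_pm_011_t t 10 15 1 = true := ex3_b s108_pm_011_t s105_pm_011_t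

theorem s110_pm_011_t : ∃ t, chk3 f_pm_011_t t 5 15 1 = true := ex3_a s109_pm_011_t s103_pm_011_t

theorem s111_pm_011_t : ∃ t, chk3 f_pm_011_t t 22 28 1 = true := ex3_b k73_pm_011_t k74_pm_011_t

theorem s112_pm_011_t : ∃ t, chk3 f_pm_011_t t 11 28 1 = true := ex3_a s111_pm_011_t k75_pm_011_t

theorem s113_pm_011_t : ∃ t, chk3 f_pm_011_t t 11 14 1 = true := ex3_b s112_pm_011_t k76_pm_011_t

theorem s114_pm_011_t : ∃ t, chk3 f_pm_011_t t 42 29 1 = true := ex3_a k70_pm_011_t k71_pm_011_t

theorem s115_pm_011_t : ∃ t, chk3 f_pm_011_t t 21 29 1 = true := ex3_a s114_pm_011_t k72_pm_011_t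

theorem s116_pm_011_t : ∃ t, chk3 f_pm_011_t t 40 59 1 = true := ex3_b k67_pm_011_t k68_pm_011_t

theorem s117_pm_011_t : ∃ t, chk3 f_pm_011_t t 20 59 1 = true := ex3_a s116_pm_011_t k69_pm_011_t

theorem s118_pm_011_t : ∃ t, chk3 f_pm_011_t t 20 29 1 = true := ex3_b k66_pm_011_t s117_pm_011_t

theorem s119_pm_011_t : ∃ t, chk3 f_pm_011_t t 10 29 1 = true := ex3_a s118_pm_011_t s115_pm_011_t

theorem s120_pm_011_t : ∃ t, chk3 f_pm_011_t t 10 14 1 = true := ex3_b k65_pm_011_t s119_pm_011_t

theorem s121_pm_011_t : ∃ t, chk3 f_pm_011_t t 5 14 1 = true := ex3_a s120_pm_011_t s113_pm_011_t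

theorem s122_pm_011_t : ∃ t, chk3 f_pm_011_t t 5 7 1 = true := ex3_b s121_pm_011_t s110_pm_011_t

theorem s123_pm_011_t : ∃ t, chk3 f_pm_011_t t 19 124 1 = true := ex3_a k61_pm_011_t k62_pm_011_t

theorem s124_pm_011_t : ∃ t, chk3 f_pm_011_t t 19 62 1 = true := ex3_b s123_pm_011_t k63_pm_011_t

theorem s125_pm_011_t : ∃ t, chk3 f_pm_011_t t 19 31 1 = true := ex3_b s124_pm_011_t k64_pm_011_t

theorem s126_pm_011_t : ∃ t, chk3 f_pm_011_t t 18 63 1 = true := ex3_b k59_pm_011_t k60_pm_011_t

theorem s127_pm_011_t : ∃ t, chk3 f_pm_011_t t 37 62 1 = true := ex3_b k57_pm_011_t k58_pm_011_t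

theorem s128_pm_011_t : ∃ t, chk3 f_pm_011_t t 73 62 1 = true := ex3_a k55_pm_011_t k56_pm_011_t

theorem s129_pm_011_t : ∃ t, chk3 f_pm_011_t t 72 62 1 = true := ex3_b k53_pm_011_t k54_pm_011_t

theorem s130_pm_011_t : ∃ t, chk3 f_pm_011_t t 36 62 1 = true := ex3_a s129_pm_011_t s128_pm_011_t

theorem s131_pm_011_t : ∃ t, chk3 f_pm_011_t t 18 62 1 = true := ex3_a s130_pm_011_t s127_pm_011_t

theorem s132_pm_011_t : ∃ t, chk3 f_pm_011_t t 18 31 1 = true := ex3_b s131_pm_011_t s126_pm_011_t

theorem s133_pm_011_t : ∃ t, chk3 f_pm_011_t t 9 31 1 = true := ex3_a s132_pm_011_t s125_pm_011_t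

theorem s134_pm_011_t : ∃ t, chk3 f_pm_011_t t 38 61 1 = true := ex3_b k50_pm_011_t k51_pm_011_t

theorem s135_pm_011_t : ∃ t, chk3 f_pm_011_t t 19 61 1 = true := ex3_a s134_pm_011_t k52_pm_011_t

theorem s136_pm_011_t : ∃ t, chk3 f_pm_011_t t 39 60 1 = true := ex3_a k48_pm_011_t k49_pm_011_t

theorem s137_pm_011_t : ∃ t, chk3 f_pm_011_t t 76 121 1 = true := ex3_b k45_pm_011_t k46_pm_011_t

theorem s138_pm_011_t : ∃ t, chk3 f_pm_011_t t 38 121 1 = true := ex3_a s137_pm_011_t k47_pm_011_t

theorem s139_pm_011_t : ∃ t, chk3 f_pm_011_t t 38 60 1 = true := ex3_b k44_pm_011_t s138_pm_011_t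

theorem s140_pm_011_t : ∃ t, chk3 f_pm_011_t t 19 60 1 = true := ex3_a s139_pm_011_t s136_pm_011_t

theorem s141_pm_011_t : ∃ t, chk3 f_pm_011_t t 19 30 1 = true := ex3_b s140_pm_011_t s135_pm_011_t

theorem s142_pm_011_t : ∃ t, chk3 f_pm_011_t t 74 122 1 = true := ex3_b k40_pm_011_t k41_pm_011_t

theorem s143_pm_011_t : ∃ t, chk3 f_pm_011_t t 37 122 1 = true := ex3_a s142_pm_011_t k42_pm_011_t

theorem s144_pm_011_t : ∃ t, chk3 f_pm_011_t t 37 61 1 = true := ex3_b s143_pm_011_t k43_pm_011_t

theorem s145_pm_011_t : ∃ t, chk3 f_pm_011_t t 73 246 1 = true := ex3_b k37_pm_011_t k38_pm_011_t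

theorem s146_pm_011_t : ∃ t, chk3 f_pm_011_t t 73 123 1 = true := ex3_b s145_pm_011_t k39_pm_011_t

theorem s147_pm_011_t : ∃ t, chk3 f_pm_011_t t 72 494 1 = true := ex3_a k34_pm_011_t k35_pm_011_t

theorem s148_pm_011_t : ∃ t, chk3 f_pm_011_t t 72 247 1 = true := ex3_b s147_pm_011_t k36_pm_011_t

theorem s149_pm_011_t : ∃ t, chk3 f_pm_011_t t 72 123 1 = true := ex3_b k33_pm_011_t s148_pm_011_t

theorem s150_pm_011_t : ∃ t, chk3 f_pm_011_t t 36 123 1 = true := ex3_a s149_pm_011_t s146_pm_011_t

theorem s151_pm_011_t : ∃ t, chk3 f_pm_011_t t 36 61 1 = true := ex3_b k32_pm_011_t s150_pm_011_t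

theorem s152_pm_011_t : ∃ t, chk3 f_pm_011_t t 18 61 1 = true := ex3_a s151_pm_011_t s144_pm_011_t

theorem s153_pm_011_t : ∃ t, chk3 f_pm_011_t t 18 30 1 = true := ex3_b k31_pm_011_t s152_pm_011_t

theorem s154_pm_011_t : ∃ t, chk3 f_pm_011_t t 9 30 1 = true := ex3_a s153_pm_011_t s141_pm_011_t

theorem s155_pm_011_t : ∃ t, chk3 f_pm_011_t t 9 15 1 = true := ex3_b s154_pm_011_t s133_pm_011_t

theorem s156_pm_011_t : ∃ t, chk3 f_pm_011_t t 17 63 1 = true := ex3_b k29_pm_011_t k30_pm_011_t

theorem s157_pm_011_t : ∃ t, chk3 f_pm_011_t t 70 125 1 = true := ex3_b k26_pm_011_t k27_pm_011_t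

theorem s158_pm_011_t : ∃ t, chk3 f_pm_011_t t 35 125 1 = true := ex3_a s157_pm_011_t k28_pm_011_t

theorem s159_pm_011_t : ∃ t, chk3 f_pm_011_t t 142 248 1 = true := ex3_a k22_pm_011_t k23_pm_011_t

theorem s160_pm_011_t : ∃ t, chk3 f_pm_011_t t 71 248 1 = true := ex3_a s159_pm_011_t k24_pm_011_t

theorem s161_pm_011_t : ∃ t, chk3 f_pm_011_t t 71 124 1 = true := ex3_b s160_pm_011_t k25_pm_011_t

theorem s162_pm_011_t : ∃ t, chk3 f_pm_011_t t 141 498 1 = true := ex3_b k19_pm_011_t k20_pm_011_t

theorem s163_pm_011_t : ∃ t, chk3 f_pm_011_t t 141 249 1 = true := ex3_b s162_pm_011_t k21_pm_011_t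

theorem s164_pm_011_t : ∃ t, chk3 f_pm_011_t t 281 249 1 = true := ex3_b k17_pm_011_t k18_pm_011_t

theorem s165_pm_011_t : ∃ t, chk3 f_pm_011_t t 140 249 1 = true := ex3_a k16_pm_011_t s164_pm_011_t

theorem s166_pm_011_t : ∃ t, chk3 f_pm_011_t t 70 249 1 = true := ex3_a s165_pm_011_t s163_pm_011_t

theorem s167_pm_011_t : ∃ t, chk3 f_pm_011_t t 70 124 1 = true := ex3_b k15_pm_011_t s166_pm_011_t

theorem s168_pm_011_t : ∃ t, chk3 f_pm_011_t t 35 124 1 = true := ex3_a s167_pm_011_t s161_pm_011_t

theorem s169_pm_011_t : ∃ t, chk3 f_pm_011_t t 35 62 1 = true := ex3_b s168_pm_011_t s158_pm_011_t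

theorem s170_pm_011_t : ∃ t, chk3 f_pm_011_t t 139 1000 1 = true := ex3_a k10_pm_011_t k11_pm_011_t

theorem s171_pm_011_t : ∃ t, chk3 f_pm_011_t t 139 500 1 = true := ex3_b s170_pm_011_t k12_pm_011_t

theorem s172_pm_011_t : ∃ t, chk3 f_pm_011_t t 139 250 1 = true := ex3_b s171_pm_011_t k13_pm_011_t

theorem s173_pm_011_t : ∃ t, chk3 f_pm_011_t t 277 250 1 = true := ex3_b k8_pm_011_t k9_pm_011_t

theorem s174_pm_011_t : ∃ t, chk3 f_pm_011_t t 138 250 1 = true := ex3_a k7_pm_011_t s173_pm_011_t

theorem s175_pm_011_t : ∃ t, chk3 f_pm_011_t t 69 250 1 = true := ex3_a s174_pm_011_t s172_pm_011_t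

theorem s176_pm_011_t : ∃ t, chk3 f_pm_011_t t 69 125 1 = true := ex3_b s175_pm_011_t k14_pm_011_t

theorem s177_pm_011_t : ∃ t, chk3 f_pm_011_t t 34 125 1 = true := ex3_a k6_pm_011_t s176_pm_011_t

theorem s178_pm_011_t : ∃ t, chk3 f_pm_011_t t 34 62 1 = true := ex3_b k5_pm_011_t s177_pm_011_t

theorem s179_pm_011_t : ∃ t, chk3 f_pm_011_t t 17 62 1 = true := ex3_a s178_pm_011_t s169_pm_011_t

theorem s180_pm_011_t : ∃ t, chk3 f_pm_011_t t 17 31 1 = true := ex3_b s179_pm_011_t s156_pm_011_t

theorem s181_pm_011_t : ∃ t, chk3 f_pm_011_t t 8 31 1 = true := ex3_a k4_pm_011_t s180_pm_011_t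

theorem s182_pm_011_t : ∃ t, chk3 f_pm_011_t t 8 15 1 = true := ex3_b k3_pm_011_t s181_pm_011_t

theorem s183_pm_011_t : ∃ t, chk3 f_pm_011_t t 4 15 1 = true := ex3_a s182_pm_011_t s155_pm_011_t

theorem s184_pm_011_t : ∃ t, chk3 f_pm_011_t t 4 7 1 = true := ex3_b k2_pm_011_t s183_pm_011_t

theorem s185_pm_011_t : ∃ t, chk3 f_pm_011_t t 2 7 1 = true := ex3_a s184_pm_011_t s122_pm_011_t

theorem s186_pm_011_t : ∃ t, chk3 f_pm_011_t t 2 3 1 = true := ex3_b k1_pm_011_t s185_pm_011_t

theorem s187_pm_011_t : ∃ t, chk3 f_pm_011_t t 1 3 1 = true := ex3_a s186_pm_011_t s102_pm_011_t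

theorem s188_pm_011_t : ∃ t, chk3 f_pm_011_t t 1 1 1 = true := ex3_b k0_pm_011_t s187_pm_011_t

theorem c_pm_011_t : CertNE 0 536870912 536870912 536870912 740881858 40050571 3 eng mog cd0q0 cd0q1 pd1 false true false .pnn 0 1 1
    ndB0q0 ndB0q1 pcB1 cut_pm_011_t Ext.none :=
  certNE0 (fam := false) (s1 := true) (s2 := false) (a := 0) (b := 1) (c := 1) (cn := .pnn) (n1 := ndB0q0) (n2 := ndB0q1) (pc := pcB1) (cut := cut_pm_011_t) (xt := Ext.none) (P1 := 0) (W1 := 536870912) (P2 := 536870912) (W2 := 536870912) (P3 := 740881858) (W3 := 40050571) (N0 := 3) (En := eng) (mo := mog) (C1 := cd0q0) (C2 := cd0q1) (C3 := pd1)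
    rfl s188_pm_011_t

noncomputable def cut_pm_012_s : Cut := Cut.of [[⟨4, 0, 0, 1449551462⟩], [⟨0, 0, 0, 67108864⟩, ⟨1, 1, 0, 67108864⟩, ⟨2, 1, 0, 67108864⟩]]

noncomputable def f_pm_012_s : ℕ → ℕ → ℕ → ℕ → Bool := onCell 0 536870912 0 536870912 740881858 40050571
    (rowNE 3 eng mog cd0q0 cd0q2 pd1 0 false true false .pnp 0 1 2 (qsf 0 536870912 0 536870912 1) ndB0q0 ndB0q2 pcB1 cut_pm_012_s Ext.none)

def k0_pm_012_s : ∃ t, chk3 f_pm_012_s t 1 1 1 = true :=
  ⟨(a (l 6) (b (a (b (a (l 6) (b (a (l 6) (b (l 16599736) (l 6))) (l 6))) (l 6)) (b (a (b (a (b (l 16620248) (l 6)) (b (l 16641288) (l 16642736))) (l 6)) (b (a (b (a (l 16658256) (b (l 16673984) (l 16663560))) (l 16662856)) (a (b (b (l 16685912) (l 16673848)) (l 16678936)) (b (l 16691840) (b (l 16673560) (l 16662576))))) (a (b (l 16621152) (l 6)) (b (l 16681928) (l 16616968))))) (l 6))) (l 6))), by decide +kernel⟩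

theorem c_pm_012_s : CertNE 0 536870912 0 536870912 740881858 40050571 3 eng mog cd0q0 cd0q2 pd1 false true false .pnp 0 1 2
    ndB0q0 ndB0q2 pcB1 cut_pm_012_s Ext.none :=
  certNE0 (fam := false) (s1 := true) (s2 := false) (a := 0) (b := 1) (c := 2) (cn := .pnp) (n1 := ndB0q0) (n2 := ndB0q2) (pc := pcB1) (cut := cut_pm_012_s) (xt := Ext.none) (P1 := 0) (W1 := 536870912) (P2 := 0) (W2 := 536870912) (P3 := 740881858) (W3 := 40050571) (N0 := 3) (En := eng) (mo := mog) (C1 := cd0q0) (C2 := cd0q2) (C3 := pd1)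
    rfl k0_pm_012_s

end Pool.Agent.Strip051.G.I69_7273.Tab.CS.BB00

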