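import Pool.Agent.Strip051.G.I69_7273.Tab
import Pool.Agent.Strip051.PB.StripB

/-! # Strips, near vertex: certificates 7 (generated) -/

set_option linter.all false
set_option maxRecDepth 100000

namespace Pool.Agent.Strip051.G.I69_7273.Tab.CS.BB00

open Pool.Agent.Strip051.PB Pool.Agent.Strip051.PB.T
open Pool.Agent.Strip051.G.I69_7273.Tab

noncomputable def cut_pm_012_t : Cut := Cut.of [[⟨3, 0, 0, 2845415833⟩], [⟨0, 0, 0, 67108864⟩, ⟨1, 1, 0, 67108864⟩, ⟨2, 1, 0, 67108864⟩]]

noncomputable def f_pm_012_t : ℕ → ℕ → ℕ → ℕ → Bool := onCell 0 536870912 0 536870912 740881858 40050571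
    (rowNE 3 eng mog cd0q0 cd0q2 pd1 0 false true false .pnp 0 1 2 (qsf 0 536870912 0 536870912 1) ndB0q0 ndB0q2 pcB1 cut_pm_012_t Ext.none)

def k0_pm_012_t : ∃ t, chk3 f_pm_012_t t 1 2 1 = true :=
  ⟨(l 6), by decide +kernel⟩

def k1_pm_012_t : ∃ t, chk3 f_pm_012_t t 4 6 1 = true :=
  ⟨(a (l 2) (b (l 6) (a (b (l 6) (l 6)) (l 6)))), by decide +kernel⟩

def k2_pm_012_t : ∃ t, chk3 f_pm_012_t t 4 14 1 = true :=
  ⟨(a (a (l 2) (b (a (l 2) (a (l 2) (b (l 2) (b (l 16565856) (l 16577720))))) (a (l 14) (a (l 14) (a (l 14) (b (l 16595024) (l 16618072))))))) (a (b (a (b (a (b (l 16542184) (l 16553896)) (b (l 16542672) (l 16553992))) (a (b (l 16565600) (l 16577088)) (l 16570944))) (b (a (l 16548632) (l 6)) (a (l 16570400) (l 16569648)))) (a (b (a (l 16594136) (l 16592920)) (a (l 16616664) (l 16614752))) (b (a (l 16591656) (l 16590168)) (l 16590744)))) (b (b (l 6) (a (l 16567752) (l 6))) (b (a (l 16587176) (l 16581800)) (a (l 16606664) (l 16600240)))))), by decide +kernel⟩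

def k3_pm_012_t : ∃ t, chk3 f_pm_012_t t 4 15 1 = true :=
  ⟨(a (a (l 14) (a (l 14) (a (l 14) (a (l 14) (b (b (l 16641824) (l 16666872)) (b (l 16683920) (b (l 16688040) (b (l 16689832) (l 16692232))))))))) (b (a (a (b (b (l 16611720) (l 16644392)) (a (l 16664384) (l 16660104))) (b (l 16633176) (b (l 16643936) (l 16646632)))) (a (b (l 16621344) (b (l 16625088) (l 16627176))) (b (l 16605008) (l 16608912)))) (a (b (a (b (l 16669608) (a (l 16677536) (l 16667056))) (a (a (l 16657968) (l 16652656)) (l 16644776))) (a (b (a (l 16680032) (l 16669120)) (b (a (l 16681616) (l 16670344)) (b (a (l 16682304) (l 16670872)) (a (a (l 16685584) (l 16679824)) (a (l 16674064) (l 16668328)))))) (b (a (l 16658008) (l 16647136)) (b (a (l 16659056) (l 16648016)) (a (b (l 16659496) (a (l 16662616) (l 16654320))) (a (c (l 16652656) (l 16649880)) (c (l 16647264) (l 16644352)))))))) (b (a (b (l 16628984) (l 16630488)) (b (l 16611080) (l 16612152))) (b (a (a (l 16636696) (l 16626760)) (a (l 16617376)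 (l 16608584))) (a (a (b (l 16637424) (a (a (l 16641760) (l 16639112)) (a (l 16636496) (l 16633912)))) (b (l 16627328) (b (l 16627536) (a (l 16630160) (l 16625176))))) (a (b (l 16617784) (c (l 16619736) (l 16616232))) (b (l 16608840) (c (l 16610768) (l 16607112)))))))))), by decide +kernel⟩

def k4_pm_012_t : ∃ t, chk3 f_pm_012_t t 5 3 1 = true :=
  ⟨(b (l 6) (a (b (a (b (l 6) (a (l 16593728) (l 16572856))) (l 6)) (b (a (b (a (l 16591048) (l 16579744)) (a (l 16594104) (l 16581960))) (b (a (l 16569528) (l 6)) (a (l 16570904) (l 16559448)))) (a (b (a (b (l 16595632) (l 16596280)) (b (l 16582856) (l 16583080))) (a (b (a (l 16600432) (l 16592952)) (a (b (l 16600528) (c (l 16602400) (l 16598648))) (b (l 16592888) (c (l 16594680) (l 16590888))))) (b (a (l 16586184) (l 16579888)) (a (b (l 16585960) (c (l 16587632) (l 16583864))) (b (l 16579504) (c (l 16581048) (l 16577336))))))) (b (a (l 16581608) (l 16579800)) (b (a (a (l 16573616) (l 16567272)) (l 16578504)) (a (c (b (l 16571448)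 (a (l 16574488) (l 16567864))) (a (l 16571200) (l 16564656))) (a (b (l 16559960) (c (l 16561152) (l 16557504))) (c (l 16565080) (l 16551160))))))))) (b (l 6) (b (l 6) (a (b (a (l 16545912) (l 6)) (a (b (l 16564968) (a (c (l 16547664) (l 16544136)) (c (l 16540568) (l 16536896)))) (b (l 16529680) (c (a (l 16533288) (l 16525904)) (l 16546576))))) (a (a (b (l 6) (b (l 6) (l 16526872))) (l 6)) (l 6))))))), by decide +kernel⟩

def k5_pm_012_t : ∃ t, chk3 f_pm_012_t t 3 3 1 = true :=
  ⟨(a (l 6) (l 6)), by decide +kernel⟩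

theorem s6_pm_012_t : ∃ t, chk3 f_pm_012_t t 4 7 1 = true := ex3_b k2_pm_012_t k3_pm_012_t

theorem s7_pm_012_t : ∃ t, chk3 f_pm_012_t t 4 3 1 = true := ex3_b k1_pm_012_t s6_pm_012_t

theorem s8_pm_012_t : ∃ t, chk3 f_pm_012_t t 2 3 1 = true := ex3_a s7_pm_012_t k4_pm_012_t

theorem s9_pm_012_t : ∃ t, chk3 f_pm_012_t t 1 3 1 = true := ex3_a s8_pm_012_t k5_pm_012_t

theorem s10_pm_012_t : ∃ t, chk3 f_pm_012_t t 1 1 1 = true := ex3_b k0_pm_012_t s9_pm_012_t

theorem c_pm_012_t : CertNE 0 536870912 0 536870912 740881858 40050571 3 eng mog cd0q0 cd0q2 pd1 false true false .pnp 0 1 2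
    ndB0q0 ndB0q2 pcB1 cut_pm_012_t Ext.none :=
  certNE0 (fam := false) (s1 := true) (s2 := false) (a := 0) (b := 1) (c := 2) (cn := .pnp) (n1 := ndB0q0) (n2 := ndB0q2) (pc := pcB1) (cut := cut_pm_012_t) (xt := Ext.none) (P1 := 0) (W1 := 536870912) (P2 := 0) (W2 := 536870912) (P3 := 740881858) (W3 := 40050571) (N0 := 3) (En := eng) (mo := mog) (C1 := cd0q0) (C2 := cd0q2) (C3 := pd1)
    rfl s10_pm_012_t

noncomputable def cut_pm_022_s : Cut := Cut.of [[⟨4, 0, 0, 1449551462⟩], [⟨0, 0, 0, 67108864⟩, ⟨1, 1, 0, 67108864⟩, ⟨2, 1, 0, 67108864⟩]]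

noncomputable def f_pm_022_s : ℕ → ℕ → ℕ → ℕ → Bool := onCell 1073741824 536870912 0 536870912 740881858 40050571
    (rowNE 3 eng mog cd0q0 cd0q2 pd2 2 false true false .pp 0 2 2 (qsf 0 536870912 0 536870912 2) ndB0q0 ndB0q2 pcB2 cut_pm_022_s Ext.none)

def k0_pm_022_s : ∃ t, chk3 f_pm_022_s t 1 1 1 = true :=
  ⟨(l 6), by decide +kernel⟩

theorem c_pm_022_s : CertNE 0 536870912 0 536870912 740881858 40050571 3 eng mog cd0q0 cd0q2 pd2 false true false .pp 0 2 2
    ndB0q0 ndB0q2 pcB2 cut_pm_022_s Ext.none :=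
  certNE2 (fam := false) (s1 := true) (s2 := false) (a := 0) (b := 2) (c := 2) (cn := .pp) (n1 := ndB0q0) (n2 := ndB0q2) (pc := pcB2) (cut := cut_pm_022_s) (xt := Ext.none) (P1 := 0) (W1 := 536870912) (P2 := 0) (W2 := 536870912) (P3 := 740881858) (W3 := 40050571) (N0 := 3) (En := eng) (mo := mog) (C1 := cd0q0) (C2 := cd0q2) (C3 := pd2)
    rfl (fun _ => rfl) k0_pm_022_s

noncomputable def cut_pm_022_t : Cut := Cut.of [[⟨3, 0, 0, 2845415833⟩], [⟨0, 0, 0, 67108864⟩, ⟨1, 1, 0, 67108864⟩, ⟨2, 1, 0, 67108864⟩]]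

noncomputable def f_pm_022_t : ℕ → ℕ → ℕ → ℕ → Bool := onCell 1073741824 536870912 0 536870912 740881858 40050571
    (rowNE 3 eng mog cd0q0 cd0q2 pd2 2 false true false .pp 0 2 2 (qsf 0 536870912 0 536870912 2) ndB0q0 ndB0q2 pcB2 cut_pm_022_t Ext.none)

def k0_pm_022_t : ∃ t, chk3 f_pm_022_t t 2 2 1 = true :=
  ⟨(a (l 6) (a (l 6) (l 1))), by decide +kernel⟩

def k1_pm_022_t : ∃ t, chk3 f_pm_022_t t 4 6 1 = true :=
  ⟨(a (b (l 6) (a (b (l 6) (b (l 6) (a (a (l 6) (c (l 16541448) (l 16531912))) (a (a (l 16547616) (l 16554808)) (a (l 16561984) (l 16569136)))))) (a (b (l 6) (b (b (l 6) (a (l 16561280) (l 16574752))) (a (b (l 16573400) (l 16607272)) (a (l 16548496) (l 16597472))))) (b (a (l 6) (b (l 6) (a (l 6) (l 16574488)))) (a (b (a (l 16557744) (l 16585248)) (l 16597472)) (b (l 16594992) (a (l 16609488) (l 16580424)))))))) (b (a (l 6) (a (l 6) (b (l 6) (l 1)))) (a (b (a (b (l 6) (a (l 16583512) (a (l 16584328) (l 16560408)))) (b (a (l 6) (b (l 6) (a (l 16525152) (l 268468622679))))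 (a (c (c (l 16539616) (l 16536408)) (a (l 16574864) (l 16571016))) (a (b (l 259878700455) (l 360810436423)) (b (l 373158455415) (l 1)))))) (b (a (a (a (l 16596968) (l 16573104)) (a (b (l 16589392) (l 16592544)) (b (l 16565248) (l 240551375847)))) (a (a (c (l 322155749111) (l 335577507063)) (b (l 355978610391) (l 1))) (l 1))) (a (b (a (c (l 16581504) (l 16577256)) (c (l 271689902119) (a (l 16592536) (l 376379696743)))) (a (a (l 16605184) (c (l 16604472) (l 16599152))) (a (c (l 295849089287) (l 318934522519)) (l 1)))) (l 1)))) (b (a (a (b (c (l 582001182535) (l 416108059383)) (l 1)) (l 1)) (l 1)) (l 1))))), by decide +kernel⟩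

def k2_pm_022_t : ∃ t, chk3 f_pm_022_t t 4 7 1 = true :=
  ⟨(a (b (a (b (b (a (a (c (a (l 16547448) (l 16554616)) (a (l 16536256) (l 16544616))) (a (c (l 16561784) (l 16552944)) (b (l 16558616) (l 16571712)))) (a (a (l 16572896) (l 16580568)) (c (l 16625376) (l 16621496)))) (b (b (b (a (a (c (l 16564832) (l 16555048)) (l 16576104)) (a (l 16592040) (l 16586896))) (l 14)) (l 14)) (l 14))) (l 14)) (b (b (a (a (a (l 16603416) (l 16610968)) (a (l 16618480) (l 16624872))) (b (a (l 16619016) (c (l 16593840) (l 16590488))) (a (a (l 16624176) (l 16621272)) (a (l 16618184) (c (l 16617112) (l 16612600)))))) (b (a (a (l 16629128) (l 16632648)) (a (a (l 16628376) (l 16604320)) (a (c (l 16624056) (l 16619912)) (c (l 302828451639) (b (l 286185433719) (l 337725037383)))))) (a (l 14) (a (l 14) (a (l 14) (a (l 14) (l 1))))))) (a (l 14) (a (l 14) (a (l 14) (l 1)))))) (a (l 14) (a (l 14) (l 1)))) (b (a (b (a (b (a (c (b (a (l 16610704) (l 296385972679)) (a (l 298533469799) (l 455299755399)))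 (b (a (l 16605816) (l 314102697991)) (a (a (l 16609640) (l 401075791063)) (l 463889676887)))) (a (b (a (l 446172932167) (l 1)) (l 1)) (l 1))) (a (a (b (a (l 447246701415) (l 1)) (l 1)) (l 1)) (l 1))) (l 1)) (l 1)) (l 1)) (l 1))), by decide +kernel⟩

def k3_pm_022_t : ∃ t, chk3 f_pm_022_t t 5 3 1 = true :=
  ⟨(b (l 1) (l 1)), by decide +kernel⟩

def k4_pm_022_t : ∃ t, chk3 f_pm_022_t t 3 1 1 = true :=
  ⟨(l 1), by decide +kernel⟩

theorem s5_pm_022_t : ∃ t, chk3 f_pm_022_t t 4 3 1 = true := ex3_b k1_pm_022_t k2_pm_022_t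

theorem s6_pm_022_t : ∃ t, chk3 f_pm_022_t t 2 3 1 = true := ex3_a s5_pm_022_t k3_pm_022_t

theorem s7_pm_022_t : ∃ t, chk3 f_pm_022_t t 2 1 1 = true := ex3_b k0_pm_022_t s6_pm_022_t

theorem s8_pm_022_t : ∃ t, chk3 f_pm_022_t t 1 1 1 = true := ex3_a s7_pm_022_t k4_pm_022_t

theorem c_pm_022_t : CertNE 0 536870912 0 536870912 740881858 40050571 3 eng mog cd0q0 cd0q2 pd2 false true false .pp 0 2 2
    ndB0q0 ndB0q2 pcB2 cut_pm_022_t Ext.none :=
  certNE2 (fam := false) (s1 := true) (s2 := false) (a := 0) (b := 2) (c := 2) (cn := .pp) (n1 := ndB0q0) (n2 := ndB0q2) (pc := pcB2) (cut := cut_pm_022_t) (xt := Ext.none) (P1 := 0) (W1 := 536870912) (P2 := 0) (W2 := 536870912) (P3 := 740881858) (W3 := 40050571) (N0 := 3) (En := eng) (mo := mog) (C1 := cd0q0) (C2 := cd0q2) (C3 := pd2)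
    rfl (fun _ => rfl) s8_pm_022_t

noncomputable def cut_pm_101_s : Cut := Cut.of [[⟨4, 0, 0, 1449551462⟩], [⟨0, 1, 0, 53687091⟩, ⟨1, 0, 0, 53687091⟩, ⟨2, 1, 0, 53687091⟩], [⟨0, 0, 1, 20971520⟩, ⟨1, 1, 2, 20971520⟩, ⟨2, 1, 0, 33554432⟩]]

noncomputable def f_pm_101_s : ℕ → ℕ → ℕ → ℕ → Bool := onCell 536870912 536870912 536870912 536870912 740881858 40050571
    (rowNE 3 eng mog cd0q1 cd0q1 pd0 0 false true false .npn 1 0 1 (qsf 536870912 536870912 536870912 536870912 0) ndB0q1 ndB0q1 pcB0 cut_pm_101_s Ext.none)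

def k0_pm_101_s : ∃ t, chk3 f_pm_101_s t 2 1 1 = true :=
  ⟨(l 6), by decide +kernel⟩

def k1_pm_101_s : ∃ t, chk3 f_pm_101_s t 3 2 1 = true :=
  ⟨(l 6), by decide +kernel⟩

def k2_pm_101_s : ∃ t, chk3 f_pm_101_s t 6 3 1 = true :=
  ⟨(b (l 6) (b (l 6) (a (l 6) (b (l 6) (b (l 6) (a (l 6) (a (l 6) (a (l 6) (b (l 6) (c (l 16792544) (l 16796392))))))))))), by decide +kernel⟩

def k3_pm_101_s : ∃ t, chk3 f_pm_101_s t 7 6 1 = true :=
  ⟨(a (l 6) (l 1)), by decide +kernel⟩

def k4_pm_101_s : ∃ t, chk3 f_pm_101_s t 7 14 1 = true :=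
  ⟨(a (l 6) (b (l 1) (a (a (b (l 1) (l 54794583223)) (l 1)) (l 1)))), by decide +kernel⟩

def k5_pm_101_s : ∃ t, chk3 f_pm_101_s t 14 15 1 = true :=
  ⟨(a (b (l 6) (b (a (a (l 6) (l 6)) (b (l 16846120) (a (l 16829624) (l 16826936)))) (a (b (a (l 16813544) (l 16813024)) (b (a (l 16799416) (l 16799112)) (a (c (l 16788688) (l 16791608)) (c (l 16788800) (l 16791128))))) (b (a (l 16832440) (b (l 16813584) (l 16804624))) (a (b (l 16797768) (c (l 16787920) (l 16789576))) (b (l 16795624) (c (l 16786248) (l 16787208)))))))) (b (b (a (l 6) (b (l 16883136) (b (l 16880696) (l 16874312)))) (a (a (l 16824192) (l 16819392)) (b (l 16842080) (l 16826808)))) (b (b (a (l 16796656) (l 16790032)) (a (a (l 16823632) (l 16819936)) (a (l 16816824) (l 16815120)))) (a (b (a (b (l 16810552) (l 16801752)) (b (l 16807120) (l 16798480))) (b (a (c (l 16792656) (l 16793392)) (c (l 16789920) (l 16789888))) (a (c (l 16784016) (l 16784248)) (c (a (l 16782104) (l 16780784)) (a (l 16781800) (l 16780144))))))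 (b (a (b (l 16804288) (l 16795832)) (b (l 16802880) (l 16794608))) (b (a (c (l 16787760) (l 16787040)) (c (l 16786952) (l 16785704))) (a (c (a (l 16779752) (l 16779096)) (a (l 16778792) (l 16777864))) (c (a (l 16778776) (l 16778728)) (a (l 16777304) (l 16777056)))))))))), by decide +kernel⟩

def k6_pm_101_s : ∃ t, chk3 f_pm_101_s t 15 15 1 = true :=
  ⟨(b (a (b (b (a (l 16877120) (l 1)) (a (b (l 16874304) (l 16868640)) (a (l 55868232007) (l 1)))) (a (b (l 16858432) (l 16844400)) (l 14))) (b (l 1) (l 14))) (a (a (b (b (a (l 16830024) (l 16829600)) (a (l 16814472) (l 16793560))) (b (a (c (l 16799224) (l 16797864)) (b (l 16802936) (l 16795056))) (b (a (c (l 16787168) (l 16785544)) (c (l 16788056) (l 16786192))) (a (c (a (l 16778912) (l 16779288)) (a (l 16777088) (l 16777336))) (c (b (l 16782104) (a (l 16777816) (l 16778464))) (a (l 16777776) (l 16778360))))))) (l 14)) (l 14))), by decide +kernel⟩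

theorem s7_pm_101_s : ∃ t, chk3 f_pm_101_s t 7 15 1 = true := ex3_a k5_pm_101_s k6_pm_101_s

theorem s8_pm_101_s : ∃ t, chk3 f_pm_101_s t 7 7 1 = true := ex3_b k4_pm_101_s s7_pm_101_s

theorem s9_pm_101_s : ∃ t, chk3 f_pm_101_s t 7 3 1 = true := ex3_b k3_pm_101_s s8_pm_101_s

theorem s10_pm_101_s : ∃ t, chk3 f_pm_101_s t 3 3 1 = true := ex3_a k2_pm_101_s s9_pm_101_s

theorem s11_pm_101_s : ∃ t, chk3 f_pm_101_s t 3 1 1 = true := ex3_b k1_pm_101_s s10_pm_101_s

theorem s12_pm_101_s : ∃ t, chk3 f_pm_101_s t 1 1 1 = true := ex3_a k0_pm_101_s s11_pm_101_s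

theorem c_pm_101_s : CertNE 536870912 536870912 536870912 536870912 740881858 40050571 3 eng mog cd0q1 cd0q1 pd0 false true false .npn 1 0 1
    ndB0q1 ndB0q1 pcB0 cut_pm_101_s Ext.none :=
  certNE0 (fam := false) (s1 := true) (s2 := false) (a := 1) (b := 0) (c := 1) (cn := .npn) (n1 := ndB0q1) (n2 := ndB0q1) (pc := pcB0) (cut := cut_pm_101_s) (xt := Ext.none) (P1 := 536870912) (W1 := 536870912) (P2 := 536870912) (W2 := 536870912) (P3 := 740881858) (W3 := 40050571) (N0 := 3) (En := eng) (mo := mog) (C1 := cd0q1) (C2 := cd0q1) (C3 := pd0)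
    rfl s12_pm_101_s

noncomputable def cut_pm_101_t : Cut := Cut.of [[⟨3, 0, 0, 2845415833⟩], [⟨0, 1, 0, 53687091⟩, ⟨1, 0, 0, 53687091⟩, ⟨2, 1, 0, 53687091⟩], [⟨0, 0, 1, 20971520⟩, ⟨1, 1, 2, 20971520⟩, ⟨2, 1, 0, 33554432⟩]]

noncomputable def f_pm_101_t : ℕ → ℕ → ℕ → ℕ → Bool := onCell 536870912 536870912 536870912 536870912 740881858 40050571
    (rowNE 3 eng mog cd0q1 cd0q1 pd0 0 false true false .npn 1 0 1 (qsf 536870912 536870912 536870912 536870912 0) ndB0q1 ndB0q1 pcB0 cut_pm_101_t Ext.none)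

def k0_pm_101_t : ∃ t, chk3 f_pm_101_t t 8 8 1 = true :=
  ⟨(l 4), by decide +kernel⟩

def k1_pm_101_t : ∃ t, chk3 f_pm_101_t t 16 9 1 = true :=
  ⟨(b (l 4) (a (l 4) (b (l 4) (b (l 4) (a (l 4) (b (l 4) (a (l 4) (b (l 178476020215) (a (l 113514631655) (l 16776720)))))))))), by decide +kernel⟩

def k2_pm_101_t : ∃ t, chk3 f_pm_101_t t 17 9 1 = true :=
  ⟨(b (b (l 4) (a (l 4) (b (l 4) (a (l 4) (b (l 4) (a (l 4) (b (l 4) (a (l 4) (a (b (l 4) (l 103850962279)) (b (a (l 119420218855) (l 89892320215)) (l 16777000))))))))))) (b (a (b (l 4) (a (l 4) (b (l 4) (a (l 4) (b (l 209077661063) (c (a (l 210151404727) (l 67880609319)) (l 107072177815))))))) (b (a (b (l 4) (a (l 4) (a (l 4) (b (l 4) (a (l 110830280679) (l 50163871047)))))) (b (a (a (l 4) (b (l 4) (c (b (l 155927444359) (l 53385096471)) (l 94187281975)))) (c (a (b (a (l 157538055735) (a (l 87207965015) (l 16775744))) (l 16776888)) (l 16776752)) (b (l 49626995991) (l 16776080)))) (a (a (b (c (a (l 151632477143) (l 52311354807))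 (l 16772816)) (l 16776592)) (l 16776640)) (c (l 16776160) (l 16774824))))) (a (b (a (a (l 210688273639) (b (l 4) (a (l 108682797527) (l 16775616)))) (a (b (a (l 110293409847) (l 48553258631)) (l 16776504)) (l 16776200))) (a (a (b (a (l 106535313959) (l 16776912)) (l 16776392)) (l 16776072)) (c (l 16775720) (l 16774432)))) (a (c (b (l 16775944) (l 16774984)) (l 16773744)) (l 16773568))))) (a (b (a (a (l 4) (b (l 4) (a (l 199413985239) (b (l 195119019495) (l 53385094855))))) (b (a (a (l 204245823159) (b (l 203172082903) (l 58753803511))) (c (b (a (l 64122512711) (l 16776568)) (l 16776224)) (l 16775984))) (a (c (b (l 38352708631) (l 16776072)) (l 16775880)) (l 16774632)))) (a (b (a (a (l 191897792775) (b (l 175791666951) (l 16776800))) (c (b (l 16773976) (l 16775912)) (l 16775752))) (a (c (l 16776112) (l 16775608)) (l 16774152))) (c (b (l 16779712) (l 16773048)) (l 16771776)))) (a (b (a (b (l 16774856) (l 16773232)) (l 16772808)) (l 16770184)) (b (c (l 16773248) (l 16769352))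 (l 16768304)))))), by decide +kernel⟩

def k3_pm_101_t : ∃ t, chk3 f_pm_101_t t 9 8 1 = true :=
  ⟨(a (a (l 4) (l 1)) (l 1)), by decide +kernel⟩

def k4_pm_101_t : ∃ t, chk3 f_pm_101_t t 18 36 1 = true :=
  ⟨(a (b (l 4) (a (l 4) (b (l 4) (a (l 4) (b (l 4) (a (l 4) (b (a (l 4) (a (a (l 4) (l 1)) (l 1))) (c (c (b (a (b (l 4) (b (l 4) (b (l 220351954807) (a (l 4) (a (l 4) (l 111367158967)))))) (a (a (a (b (l 4) (b (l 104924708231) (l 16777216))) (b (b (l 4) (l 104924708231)) (l 16777224))) (b (b (l 1) (l 16777224)) (l 16777240))) (l 41372614999))) (b (a (a (l 4) (c (a (l 181697249031) (a (a (l 87207968135) (l 16777048)) (l 16777232))) (l 16776472))) (a (l 16777248) (l 16777288))) (a (c (a (l 195119021639) (a (a (l 57143197079) (l 16777232)) (l 16777248))) (l 70028097079)) (l 16777288)))) (a (l 151632477511) (l 16777136))) (l 61975030503))))))))) (b (l 1) (a (a (b (l 1) (b (l 1) (c (a (c (b (l 1) (l 16777080)) (l 16776472)) (l 1)) (l 16776584)))) (l 1)) (l 1)))), by decide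 +kernel⟩

def k5_pm_101_t : ∃ t, chk3 f_pm_101_t t 72 74 1 = true :=
  ⟨(b (l 4) (a (l 4) (b (l 4) (a (l 4) (c (b (a (l 4) (a (l 210151406615) (b (l 203708956071) (l 16776496)))) (a (a (l 209077664807) (a (l 111367156535) (l 86134224487))) (l 21709715879))) (l 97408506999)))))), by decide +kernel⟩

def k6_pm_101_t : ∃ t, chk3 f_pm_101_t t 73 74 1 = true :=
  ⟨(b (a (b (l 4) (a (l 4) (c (b (a (l 4) (c (a (l 216056986615) (b (l 211225148807) (a (l 90429192663) (l 16777208)))) (l 110830283623))) (a (a (l 213909502967) (b (l 208003923335) (a (l 89892321767) (l 16777192)))) (a (a (b (l 89892321751) (l 16777192)) (l 16777184)) (l 16777184)))) (l 97408506983)))) (c (b (a (a (b (l 4) (c (b (l 216593857527) (a (l 211762019719) (a (a (l 105998449127) (l 78618033095)) (l 16777208)))) (l 110830283623))) (c (a (b (b (l 4) (l 211762019703)) (b (a (b (l 108145932823) (l 16777200)) (l 16776888)) (l 16777240))) (b (b (c (l 213909503367) (l 212298890615)) (b (a (l 108145932823) (l 41573940567))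 (l 24930942327))) (l 16777256))) (b (l 151632477511) (l 16777128)))) (c (a (b (b (a (a (b (l 180086636295) (l 41573940567)) (a (b (l 57143197079) (l 16777232)) (l 16777232))) (l 16777256)) (a (l 16777248) (l 16777280))) (l 16777304)) (l 16777360)) (l 16777080))) (a (c (a (b (a (a (b (a (l 105461578215) (l 77544291271)) (l 16777232)) (l 16777224)) (l 16777248)) (l 16777272)) (l 16777312)) (l 16777048)) (l 16777176))) (b (a (c (l 97408506983) (l 97408507127)) (l 16776760)) (l 16776464)))) (c (a (b (a (b (a (l 4) (a (l 212835761143) (b (l 206393310599) (l 52311357879)))) (b (c (a (l 214446373911) (l 32447134119)) (l 93113543495)) (a (a (l 204245826967) (l 51237616055)) (l 16777160)))) (c (a (a (b (b (l 52311357895) (l 16777224)) (l 16777232)) (l 16777240)) (l 16777264)) (l 16777016))) (a (c (b (a (l 21709715895) (l 16777216)) (l 16777200)) (l 16776984)) (l 16777016))) (a (l 16777056) (l 16777088))) (a (b (a (l 97408506999) (l 16776704)) (l 16776368)) (l 16775584)))), by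 decide +kernel⟩

def k7_pm_101_t : ∃ t, chk3 f_pm_101_t t 36 75 1 = true :=
  ⟨(a (a (a (b (l 4) (c (b (a (b (l 4) (l 106535316807)) (b (l 107072187543) (l 16777104))) (l 16776960)) (b (l 96334765383) (l 16776544)))) (b (b (l 4) (c (b (a (l 4) (c (l 144116283543) (l 16774296))) (c (a (l 108682800263) (l 16777160)) (l 58753805335))) (l 96871636279))) (c (c (l 16776376) (l 16776696)) (l 16776208)))) (a (b (c (b (b (a (l 4) (b (l 208003922983) (l 95797899927))) (a (a (l 205856439367) (l 95797900103)) (l 16777128))) (c (l 16777128) (l 16776920))) (b (l 97408507015) (l 16776616))) (l 16776088)) (b (c (b (c (a (l 16776512) (l 16777168)) (l 16776952)) (l 16776864)) (l 16776304)) (l 16775696)))) (a (b (c (a (l 16776856) (l 16776800)) (l 16775392)) (l 16775216)) (c (c (l 16776192) (l 16775952)) (l 16773704)))), by decide +kernel⟩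

def k8_pm_101_t : ∃ t, chk3 f_pm_101_t t 37 37 1 = true :=
  ⟨(b (a (c (a (b (c (a (c (l 16777032) (l 16777424)) (l 25266487303)) (a (l 16776944) (l 16776936))) (c (l 16777936) (l 16776600))) (c (b (l 70900514823) (l 16778736)) (l 16776992))) (a (b (l 16779728) (l 16774664)) (l 16774576))) (c (c (b (l 1) (l 69826773527)) (l 68216158039)) (l 16774216))) (a (c (c (b (l 16778480) (l 16778552)) (l 16776136)) (l 16772600)) (c (c (b (l 16780552) (l 16781064)) (l 16777344)) (l 16771976)))), by decide +kernel⟩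

def k9_pm_101_t : ∃ t, chk3 f_pm_101_t t 19 18 1 = true :=
  ⟨(b (l 1) (a (a (b (l 1) (c (c (l 67142422007) (l 16780056)) (l 16772704))) (l 1)) (l 1))), by decide +kernel⟩

def k10_pm_101_t : ∃ t, chk3 f_pm_101_t t 9 19 1 = true :=
  ⟨(a (b (a (b (a (a (b (a (l 16775920) (l 16775456)) (l 16774536)) (c (l 16775792) (l 16772960))) (c (c (l 16776992) (l 16774728)) (l 16771432))) (a (c (l 16774504) (l 16770360)) (c (l 16774736) (l 16768464)))) (b (b (c (a (l 16776936) (l 16778936)) (l 16770408)) (a (l 16772952) (l 16773824))) (c (a (l 16775984) (l 16778344)) (l 16767272)))) (a (a (b (l 16769880) (l 16767176)) (b (l 16769312) (l 16766888))) (a (b (l 16769656) (l 16767504)) (b (l 16771008) (l 16769120))))) (b (a (b (c (a (c (l 16784280) (l 16779264)) (l 64458072983)) (a (l 16770360) (l 16772600))) (c (a (l 16781944) (l 16787056)) (l 16769088))) (a (b (l 1) (l 60699984999)) (l 1))) (a (a (b (l 16773464) (l 16771832)) (b (l 16777152) (l 16775760))) (a (b (l 16782392) (l 16781040))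 (a (l 27950865367) (l 28487739687)))))), by decide +kernel⟩

def k11_pm_101_t : ∃ t, chk3 f_pm_101_t t 4 20 1 = true :=
  ⟨(a (a (b (a (b (l 4) (a (l 4) (b (l 4) (a (l 205856433495) (b (c (l 112977755847) (l 112440885143)) (l 53921961751)))))) (b (a (b (l 4) (a (l 4) (b (l 162369893591) (a (l 111904020471) (l 16776472))))) (b (a (b (l 170422956887) (a (l 113514632503) (l 16776608))) (l 16775696)) (a (l 16775512) (l 16773624)))) (a (a (b (a (l 113514626039) (l 59290670455)) (l 16775088)) (b (l 16775312) (l 16773032))) (b (l 16772408) (l 16770208))))) (a (b (a (b (a (l 4) (l 204782691991)) (a (l 199413983255) (b (l 109219659847) (l 16776168)))) (b (a (a (l 111904013783) (l 49626994855)) (l 16774808)) (l 16778584))) (a (b (a (b (l 104924692871) (l 16775888)) (l 16774088)) (l 16772384)) (c (l 16770096) (l 16768424)))) (b (a (b (l 16771672) (l 16769192)) (l 16766800)) (a (l 16765304) (l 16761920))))) (b (a (a (b (a (l 16779448) (l 16771248)) (l 16768000)) (b (l 16769096)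 (l 16765288))) (b (a (l 16766784) (l 16765168)) (c (l 16766296) (l 16758808)))) (a (b (c (l 16765168) (l 16759824)) (a (l 16759144) (l 16757000))) (b (l 16769408) (l 16755088))))) (a (b (a (b (c (l 16769376) (l 16759256)) (c (l 16767232) (l 16755640))) (b (c (l 16773608) (l 16758688)) (c (l 16772024) (l 16755584)))) (a (b (l 16758352) (l 16755168)) (b (l 16761264) (l 16758744)))) (b (a (b (c (l 16782456) (l 16761872)) (c (l 16781400) (l 16759264))) (b (a (l 16779712) (l 16786696)) (c (l 16796296) (l 16767480)))) (a (b (l 16768312) (l 16766456)) (b (l 16780344) (l 16779136)))))), by decide +kernel⟩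

def k12_pm_101_t : ∃ t, chk3 f_pm_101_t t 4 21 1 = true :=
  ⟨(a (a (a (b (b (a (c (l 16768448) (l 16766992)) (l 16763352)) (a (l 16760976) (l 16756920))) (a (c (l 16751800) (l 16748728)) (c (l 16748848) (l 16744488)))) (b (b (a (l 16759696) (l 16756616)) (l 16762624)) (c (l 16756376) (l 16739344)))) (b (a (b (l 16753176) (l 16747880)) (b (l 16750928) (l 16746360))) (a (c (l 16744344) (l 16734448)) (c (l 16745880) (l 16732064))))) (a (b (a (b (l 16751728) (l 16747944)) (b (l 16756064) (l 16753120))) (a (b (l 16743800) (l 16739328)) (c (l 16760136) (l 16736328)))) (b (a (b (l 16764552) (l 16762488)) (b (l 16778016) (l 16776840))) (a (c (l 16774016) (l 16743944)) (b (l 16775360) (l 16773448)))))), by decide +kernel⟩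

def k13_pm_101_t : ∃ t, chk3 f_pm_101_t t 4 11 1 = true :=
  ⟨(a (a (b (a (b (c (a (l 16737368) (l 16734984)) (l 16752112)) (a (l 16719312) (l 16716728))) (b (c (l 16732976) (l 16725040)) (c (l 16719080) (l 16709760)))) (a (b (c (l 16705360) (l 16697616)) (c (l 16689016) (l 16679488))) (b (b (l 16702832) (l 16694832)) (l 16682352)))) (b (b (a (c (l 16732768) (l 16721328)) (b (l 16730704) (l 16724920))) (a (l 16713560) (l 16715712))) (b (a (l 16699088) (l 16702416)) (a (l 16683520) (l 16687912))))) (a (b (b (a (c (l 16742272) (l 16722096)) (b (l 16742152) (l 16737808))) (a (l 16721248) (l 16730688))) (b (a (l 16709232) (l 16720024)) (a (l 16695912) (l 16708008)))) (b (b (a (l 16752408) (l 16769880)) (a (l 16744600) (l 16763720))) (b (a (l 16735408) (l 16756088)) (a (l 16724784) (l 6)))))), by decide +kernel⟩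

def k14_pm_101_t : ∃ t, chk3 f_pm_101_t t 5 2 1 = true :=
  ⟨(b (a (b (l 1) (a (b (l 1) (b (l 1) (a (a (b (l 1) (l 16797232)) (l 1)) (l 1)))) (l 1))) (l 1)) (a (b (b (a (b (a (b (a (l 16795568) (l 16806816)) (a (l 16794240) (l 16805104))) (b (l 1) (c (l 63921257479) (l 16804488)))) (a (a (b (l 16793200) (l 16792456)) (b (l 16804000) (l 16803536))) (b (a (l 16817264) (l 16828840)) (a (l 16816760) (l 16830928))))) (b (l 1) (a (a (b (l 1) (l 16835696)) (l 1)) (l 1)))) (a (b (a (a (l 16791768) (l 16803432)) (b (a (l 16816896) (l 16831952)) (l 16804344))) (a (a (l 16790128) (l 16802688)) (c (l 16803952) (l 16798176)))) (b (a (b (a (l 16837080) (l 16841568)) (a (l 16837448) (l 16842296))) (b (l 1) (c (l 16845504) (l 16853816)))) (a (a (l 16816152) (c (l 16838808) (l 16843480))) (l 6))))) (b (a (a (b (a (l 16786824) (l 16800264)) (l 16788888)) (b (a (l 16815720) (l 16829792)) (l 6))) (l 6)) (l 6))) (b (b (l 1) (a (l 6) (l 1))) (l 6)))), by decide +kernel⟩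

def k15_pm_101_t : ∃ t, chk3 f_pm_101_t t 2 3 1 = true :=
  ⟨(b (a (b (a (b (a (a (b (l 16687544) (l 16648976)) (b (l 16665256) (l 16648064))) (b (a (l 16667136) (l 16672392)) (a (l 16650464) (l 16656352)))) (a (b (a (l 16631680) (l 16630992)) (a (l 16613496) (l 16612904))) (b (l 16657264) (l 16618480)))) (b (a (b (a (l 16681424) (l 16694688)) (a (l 16666168) (l 6))) (l 6)) (l 6))) (a (b (a (b (l 16612720) (l 6)) (l 6)) (l 6)) (l 6))) (l 6)) (l 6)), by decide +kernel⟩

def k16_pm_101_t : ∃ t, chk3 f_pm_101_t t 3 1 1 = true :=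
  ⟨(b (a (b (l 1) (l 6)) (l 1)) (l 6)), by decide +kernel⟩

theorem s17_pm_101_t : ∃ t, chk3 f_pm_101_t t 4 10 1 = true := ex3_b k11_pm_101_t k12_pm_101_t

theorem s18_pm_101_t : ∃ t, chk3 f_pm_101_t t 4 5 1 = true := ex3_b s17_pm_101_t k13_pm_101_t

theorem s19_pm_101_t : ∃ t, chk3 f_pm_101_t t 36 74 1 = true := ex3_a k5_pm_101_t k6_pm_101_t

theorem s20_pm_101_t : ∃ t, chk3 f_pm_101_t t 36 37 1 = true := ex3_b s19_pm_101_t k7_pm_101_t

theorem s21_pm_101_t : ∃ t, chk3 f_pm_101_t t 18 37 1 = true := ex3_a s20_pm_101_t k8_pm_101_t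

theorem s22_pm_101_t : ∃ t, chk3 f_pm_101_t t 18 18 1 = true := ex3_b k4_pm_101_t s21_pm_101_t

theorem s23_pm_101_t : ∃ t, chk3 f_pm_101_t t 9 18 1 = true := ex3_a s22_pm_101_t k9_pm_101_t

theorem s24_pm_101_t : ∃ t, chk3 f_pm_101_t t 9 9 1 = true := ex3_b s23_pm_101_t k10_pm_101_t

theorem s25_pm_101_t : ∃ t, chk3 f_pm_101_t t 9 4 1 = true := ex3_b k3_pm_101_t s24_pm_101_t

theorem s26_pm_101_t : ∃ t, chk3 f_pm_101_t t 8 9 1 = true := ex3_a k1_pm_101_t k2_pm_101_t

theorem s27_pm_101_t : ∃ t, chk3 f_pm_101_t t 8 4 1 = true := ex3_b k0_pm_101_t s26_pm_101_t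

theorem s28_pm_101_t : ∃ t, chk3 f_pm_101_t t 4 4 1 = true := ex3_a s27_pm_101_t s25_pm_101_t

theorem s29_pm_101_t : ∃ t, chk3 f_pm_101_t t 4 2 1 = true := ex3_b s28_pm_101_t s18_pm_101_t

theorem s30_pm_101_t : ∃ t, chk3 f_pm_101_t t 2 2 1 = true := ex3_a s29_pm_101_t k14_pm_101_t

theorem s31_pm_101_t : ∃ t, chk3 f_pm_101_t t 2 1 1 = true := ex3_b s30_pm_101_t k15_pm_101_t

theorem s32_pm_101_t : ∃ t, chk3 f_pm_101_t t 1 1 1 = true := ex3_a s31_pm_101_t k16_pm_101_t

theorem c_pm_101_t : CertNE 536870912 536870912 536870912 536870912 740881858 40050571 3 eng mog cd0q1 cd0q1 pd0 false true false .npn 1 0 1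
    ndB0q1 ndB0q1 pcB0 cut_pm_101_t Ext.none :=
  certNE0 (fam := false) (s1 := true) (s2 := false) (a := 1) (b := 0) (c := 1) (cn := .npn) (n1 := ndB0q1) (n2 := ndB0q1) (pc := pcB0) (cut := cut_pm_101_t) (xt := Ext.none) (P1 := 536870912) (W1 := 536870912) (P2 := 536870912) (W2 := 536870912) (P3 := 740881858) (W3 := 40050571) (N0 := 3) (En := eng) (mo := mog) (C1 := cd0q1) (C2 := cd0q1) (C3 := pd0)
    rfl s32_pm_101_t

noncomputable def cut_pm_102_s : Cut := Cut.of [[⟨4, 0, 0, 1449551462⟩], [⟨0, 1, 0, 53687091⟩, ⟨1, 0, 0, 53687091⟩, ⟨2, 1, 0, 53687091⟩], [⟨0, 0, 1, 20971520⟩, ⟨1, 1, 2, 20971520⟩, ⟨2, 1, 0, 33554432⟩]]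

noncomputable def f_pm_102_s : ℕ → ℕ → ℕ → ℕ → Bool := onCell 536870912 536870912 0 536870912 740881858 40050571
    (rowNE 3 eng mog cd0q1 cd0q2 pd0 0 false true false .npp 1 0 2 (qsf 536870912 536870912 0 536870912 0) ndB0q1 ndB0q2 pcB0 cut_pm_102_s Ext.none)

def k0_pm_102_s : ∃ t, chk3 f_pm_102_s t 4 2 1 = true :=
  ⟨(b (l 2) (a (l 2) (b (l 2) (a (l 2) (b (l 2) (l 16616168)))))), by decide +kernel⟩

def k1_pm_102_s : ∃ t, chk3 f_pm_102_s t 5 4 1 = true :=
  ⟨(a (a (a (l 2) (b (l 3) (a (b (l 2) (l 16763928)) (b (b (b (l 3) (a (l 116131896775) (l 149417881063))) (b (a (l 16771000) (l 16774216)) (l 16765904))) (l 16769944))))) (b (l 3) (b (a (b (l 3) (a (b (a (l 119353122119) (l 151028493111)) (a (l 16771016) (l 46338678135))) (b (l 3) (a (b (l 150491630839) (l 16778976)) (l 161765910615))))) (l 3)) (a (b (a (l 16783256) (b (a (l 16771152) (b (l 67276642327) (l 16773080))) (l 16765800))) (a (l 16748504) (l 16755120))) (b (a (b (a (b (l 160155299815) (l 106468218871))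 (l 160692168247)) (a (l 16771400) (b (l 109689444215) (l 16773424)))) (b (l 3) (a (b (l 3) (l 112910669783)) (l 3)))) (a (l 16772744) (b (a (l 16771720) (b (l 116668765975) (l 16773816))) (l 16766112)))))))) (b (l 3) (a (b (l 3) (a (b (l 3) (a (b (a (b (l 3) (l 120426862231)) (l 3)) (a (l 16772104) (b (c (l 125258698887) (l 123648086087)) (l 16774256)))) (b (l 3) (a (b (l 3) (c (l 132238014999) (l 127943053031))) (l 3))))) (l 3))) (l 3)))), by decide +kernel⟩

def k2_pm_102_s : ∃ t, chk3 f_pm_102_s t 10 5 1 = true :=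
  ⟨(b (a (b (a (l 16709480) (l 16751144)) (a (b (l 16690352) (l 16676296)) (b (l 16699728) (l 16687216)))) (a (b (a (l 16728232) (l 16755184)) (b (l 16710584) (l 16696080))) (b (b (a (l 16747680) (l 16775824)) (l 16757544)) (b (l 16722136) (l 16707816))))) (a (b (l 16702432) (a (l 16628960) (l 16639376))) (b (a (l 16719760) (b (l 16692584) (l 16681128))) (a (l 16649824) (l 16660592))))), by decide +kernel⟩

def k3_pm_102_s : ∃ t, chk3 f_pm_102_s t 22 10 1 = true :=
  ⟨(b (a (b (a (l 16776992) (b (a (b (l 44191192039) (l 16770656)) (b (c (l 135459240167) (l 132238019783)) (c (l 46875545767) (l 16774744)))) (l 16777320))) (a (l 16747312) (l 16771840))) (b (a (b (a (b (l 3) (c (l 138680465287) (l 136532986551))) (l 3)) (a (b (c (a (l 16774120) (l 61907930407)) (l 16774968)) (l 16771208)) (a (b (l 134922369703) (l 16774456)) (b (l 3) (b (l 123111213431) (l 16775616)))))) (b (l 3) (a (b (l 3) (c (l 143512302775) (l 143512302695))) (l 3)))) (a (b (c (l 16777768) (l 16767424))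 (l 16780400)) (b (a (b (a (l 16777392) (b (l 131701147687) (l 48486156871))) (l 16777104)) (b (c (l 145122915127) (l 145122915015)) (c (a (b (l 16777368) (l 16774136)) (b (l 139754208039) (l 58686703975))) (a (l 16775096) (l 113984408647))))) (a (l 16776320) (c (l 16775408) (l 16770248))))))) (a (b (a (l 16732304) (l 16739768)) (l 16721008)) (b (a (l 16768696) (c (c (l 16777112) (l 16777040)) (l 16777112))) (a (l 16732392) (l 16740560))))), by decide +kernel⟩

def k4_pm_102_s : ∃ t, chk3 f_pm_102_s t 23 20 1 = true :=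
  ⟨(a (b (l 3) (a (b (a (b (l 3) (c (l 160692171175) (l 160155300119))) (l 3)) (a (b (c (a (a (l 16774992) (b (l 76940314263) (l 16775104))) (b (l 159081560455) (a (l 16776176) (l 115595014615)))) (a (l 16775384) (l 120426859287))) (c (l 16777872) (l 16772624))) (b (c (l 159618434199) (l 159081557863)) (c (a (b (c (a (l 16776344) (l 122037470439)) (l 73719089271)) (l 16774960)) (b (l 158544689143) (a (b (l 76403442871) (l 16776120)) (a (l 120963724519) (l 139754208471))))) (a (l 16775656) (l 126869309799)))))) (l 3))) (l 3)), by decide +kernel⟩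

def k5_pm_102_s : ∃ t, chk3 f_pm_102_s t 46 21 1 = true :=
  ⟨(a (c (b (b (a (l 16777104) (c (b (l 16778368) (l 16769208)) (l 16776248))) (l 16771440)) (l 16770344)) (b (b (l 16779280) (l 16760792)) (l 16748976))) (b (b (a (b (c (a (b (c (a (b (l 117205631895) (l 16776336)) (b (l 3) (l 121500599159))) (l 115595020055)) (c (l 16778024) (l 16775360))) (b (l 3) (c (a (b (l 128479919799) (l 16776520)) (b (l 3) (c (l 132238016087) (l 120963724231)))) (l 120426858231)))) (a (l 82309013415) (l 133848627799))) (c (a (l 16777664) (b (c (a (l 16775088) (b (c (l 65129150727) (l 16776600)) (l 16775680))) (l 16775552)) (l 16773632))) (l 16773416))) (b (l 3) (c (a (b (c (a (a (b (l 129016790791) (l 16776480)) (b (l 3) (b (l 116131889607) (l 16776776)))) (b (l 3) (c (l 138143595911) (l 138143595911)))) (l 126869306759)) (c (a (l 16775304) (a (l 16777416) (b (b (l 125795565911) (l 16776864)) (l 16776160)))) (l 16775744))) (b (l 3) (c (a (b (a (l 137606725175) (l 3)) (c (a (l 35064380535)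 (b (l 134385499911) (a (l 16776848) (l 69424120103)))) (l 68887249895))) (b (l 3) (c (l 158007820087) (l 158544690343)))) (a (l 118816244983) (l 158007818871))))) (a (b (l 125258696471) (l 16775712)) (l 137606723703))))) (a (c (c (l 16778280) (l 16767528)) (l 16767408)) (c (b (a (l 16775512) (b (c (a (l 16776824) (b (a (a (l 16776656) (b (b (l 125258694823) (l 16777040)) (l 16776688))) (b (l 139217338007) (a (l 16776944) (b (l 134385500279) (l 58149830887))))) (l 16777416))) (l 63518536135)) (c (l 16776760) (l 16774048)))) (c (l 16775456) (l 16770008))) (b (l 30232538071) (l 16769848))))) (c (a (l 16777136) (b (l 16774864) (l 16756872))) (l 16773464)))), by decide +kernel⟩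

def k6_pm_102_s : ∃ t, chk3 f_pm_102_s t 94 84 1 = true :=
  ⟨(l 3), by decide +kernel⟩

def k7_pm_102_s : ∃ t, chk3 f_pm_102_s t 376 340 2 = true :=
  ⟨(c (a (a (b (l 157470949351) (c (b (a (b (l 64592281783) (l 16776888)) (b (l 118279372055) (a (l 16777080) (l 82845892775)))) (l 16776664)) (l 16776840))) (b (l 3) (c (b (l 156934077991) (a (b (b (l 116668759575) (l 67813506743)) (l 16776936)) (b (l 156934078231) (a (l 73719086759) (b (l 132238016151) (l 82309021735)))))) (l 125258695127)))) (b (l 3) (c (a (l 154786594023) (l 3)) (l 155323464647)))) (a (l 127406177831) (l 155323464087))), by decide +kernel⟩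

def k8_pm_102_s : ∃ t, chk3 f_pm_102_s t 376 341 2 = true :=
  ⟨(c (a (c (l 16777056) (l 16775720)) (b (c (a (b (c (a (b (a (b (l 113447534695) (l 16777104)) (a (b (l 3) (l 74792829015)) (l 117742501447))) (l 16776992)) (b (l 3) (c (a (b (a (l 82845892663) (l 136532983703)) (l 16777128)) (a (b (l 3) (l 116668760135)) (l 133848628871))) (l 118279372999)))) (a (l 68350378263) (l 131701145687))) (c (a (l 16776640) (a (l 16776832) (b (b (l 60297314135) (l 16777024)) (l 16776848)))) (l 16776760))) (b (l 3) (c (a (b (c (a (b (a (a (l 86603989063) (l 134922371079)) (l 131701145351)) (a (l 16777120) (b (l 112910663703) (l 16777160)))) (b (l 3) (a (a (b (l 3) (l 16777224)) (l 117742501671)) (l 3)))) (l 123648082055)) (c (a (l 16776976) (b (a (l 16777136) (b (a (l 80698408983) (l 138143596535)) (l 16777168))) (l 16777048))) (l 16777040))) (b (l 3) (c (a (b (a (a (b (l 3) (a (l 76940312599) (l 124721823767))) (l 117205630791)) (l 3)) (c (a (l 26474446791) (b (a (a (l 83382763559)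 (l 131701145623)) (l 132238016391)) (a (l 16777168) (b (l 78014054439) (l 16777184))))) (l 67813507175))) (a (a (b (l 3) (b (l 3) (a (b (l 131701145543) (l 16777208)) (l 118816243607)))) (l 3)) (l 3))) (a (l 117205631111) (l 117205630455))))) (a (l 75329700167) (l 138680467495))))) (a (l 67276636871) (l 132774887095))) (c (a (l 16777368) (b (a (l 16777344) (c (b (c (a (l 16777168) (b (b (a (a (l 16777168) (b (a (l 64592281607) (l 132238016503)) (l 16777192))) (a (a (b (l 3) (l 66739765271)) (l 116131889047)) (l 3))) (a (l 16777128) (a (l 16777176) (b (l 125258694679) (l 16777192))))) (l 16777072))) (l 52781121191)) (l 16777160)) (l 16776944))) (l 16777000))) (l 16776304)))) (a (l 16775688) (b (l 113984406407) (l 16776288)))), by decide +kernel⟩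

def k9_pm_102_s : ∃ t, chk3 f_pm_102_s t 377 170 2 = true :=
  ⟨(a (b (l 3) (c (b (l 3) (c (a (b (c (a (b (c (a (a (a (b (b (l 3) (l 136532983799)) (l 16777192)) (b (l 3) (b (b (l 118816243623) (l 16777200)) (l 16777160)))) (b (l 3) (a (b (l 130627403703) (l 52781121463)) (b (l 3) (b (l 128479920071) (l 60297314327)))))) (l 141364821831)) (l 119353114551)) (c (a (l 16777192) (b (a (b (a (b (l 63518539815) (l 16777184)) (b (l 118279372695) (l 68887248935))) (l 16777152)) (b (l 3) (a (b (l 115058147351) (l 16777192)) (l 131164274711)))) (l 16777264))) (l 56002346567))) (b (l 3) (c (a (b (l 3) (a (b (a (a (l 54391734279) (l 112910663719)) (l 135996112887)) (l 16777168)) (a (b (l 3) (a (l 61907927063) (l 122037469207))) (l 114521276199)))) (l 3)) (l 118279372087)))) (a (l 109689437207) (l 138680467191))) (c (a (l 16777072) (b (a (c (l 17347641271) (l 16777056)) (b (a (b (a (a (l 108615696423) (l 129553661959)) (l 114521276295)) (l 50096766887)) (a (l 136532983815) (l 117742501687)))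 (a (l 16777096) (a (l 16777144) (b (l 59760443399) (l 16777144)))))) (l 16777216))) (l 16776856))) (b (l 3) (c (a (a (a (b (b (l 3) (b (l 137069854727) (a (l 16777176) (l 65129152535)))) (l 16777048)) (b (l 142975434615) (a (l 16777256) (b (b (l 110763180071) (l 16777160)) (l 16777072))))) (b (l 3) (a (b (a (b (l 131164274615) (l 16777184)) (l 132774887431)) (l 16777120)) (b (l 118279372551) (a (l 16777168) (b (l 123648081959) (l 16777168))))))) (b (l 3) (c (a (b (l 3) (a (a (b (l 117742501767) (l 16777200)) (l 117742501687)) (l 3))) (l 3)) (l 116131888455)))) (a (l 116668760359) (l 139217338039))))) (a (b (l 123111211351) (l 16776856)) (l 135996112455)))) (l 133311757655))) (l 3)), by decide +kernel⟩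

def k10_pm_102_s : ∃ t, chk3 f_pm_102_s t 188 170 3 = true :=
  ⟨(a (b (l 134385501399) (l 16776056)) (l 143512303239)), by decide +kernel⟩

def k11_pm_102_s : ∃ t, chk3 f_pm_102_s t 188 171 1 = true :=
  ⟨(c (a (c (a (l 16778136) (b (l 16776864) (l 16773008))) (l 16773304)) (b (c (a (b (c (a (l 16777480) (b (c (a (l 16777120) (b (b (c (a (a (l 16777128) (a (l 56539217799) (b (l 135996112903) (l 16777184)))) (a (l 133311758343) (l 3))) (l 113984405671)) (a (l 16777048) (a (l 16777144) (b (l 127406178327) (l 16777176))))) (l 16776936))) (l 49023024359)) (l 16777112))) (l 16776408)) (l 16776792)) (b (c (a (b (c (a (a (b (l 139217338215) (a (l 27548188599) (b (b (l 135996112903) (l 52781121559)) (l 16777104)))) (b (l 3) (b (l 114521276071) (a (a (l 16777152) (l 62981668711)) (b (l 116131888983) (l 61907927095)))))) (l 141364821639)) (l 132238016279)) (c (a (l 16777176) (b (c (a (b (a (b (l 68887248919) (l 16777152)) (l 126869307447)) (l 16777096)) (b (l 3) (a (b (l 117742501927)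 (l 16777168)) (l 132774887431)))) (l 111836921383)) (l 16777152))) (l 57076087879))) (b (l 3) (c (a (b (l 3) (a (b (a (a (l 53317992519) (l 115595018311)) (l 134922370983)) (l 16777120)) (a (b (l 3) (a (l 63518539831) (l 124721823767))) (l 118816243287)))) (l 3)) (l 135459241687)))) (a (b (l 119353113079) (l 16776936)) (l 138680466903))) (c (a (l 16776928) (b (c (a (b (c (l 24863833959) (l 16777008)) (l 16776784)) (a (b (b (a (l 119889985607) (l 118279372551)) (l 52244250439)) (l 16776976)) (b (l 134922370871) (a (l 16777072) (b (l 58686701639) (l 16777080)))))) (a (l 16776896) (l 61907927351))) (l 16777216))) (l 16776496)))) (a (l 16775904) (b (l 124184953591) (l 16776480)))) (c (l 16776560) (l 16774512)))) (a (l 16773192) (b (l 64592276503) (l 16774416)))), by decide +kernel⟩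

def k12_pm_102_s : ∃ t, chk3 f_pm_102_s t 189 85 1 = true :=
  ⟨(b (l 3) (c (a (b (c (a (b (l 3) (c (a (a (a (b (c (b (l 3) (b (l 117742501527) (a (l 16777144) (l 66739765303)))) (l 131701145703)) (l 16776880)) (b (l 142975434471) (a (l 16777304) (b (b (l 113447534663) (l 16777104)) (l 16776928))))) (b (l 3) (a (b (a (b (l 116131888887) (l 16777160)) (l 133848629255)) (l 16777024)) (b (l 141364821831) (a (l 46338670375) (b (l 126332436535) (l 16777128))))))) (a (a (b (l 3) (a (b (l 3) (b (l 3) (l 58686701639))) (l 139217338135))) (l 3)) (l 3))) (a (l 117205628919) (l 139754208599)))) (l 3)) (l 138680465959)) (c (a (b (c (a (l 16777032) (b (a (a (l 16776936) (b (b (a (l 65666023511) (l 134385500071)) (l 16777120)) (l 16776952))) (a (b (l 134385500183) (l 16777072)) (b (l 3) (b (l 129553661991) (l 16777144))))) (l 16776664))) (l 49559894407)) (l 16777008)) (b (c (a (a (b (l 138680467127) (b (a (l 46338670327) (b (l 117742501527) (l 53317992551))) (l 16776936))) (b (l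 3) (b (l 139217338151) (a (a (l 16777096) (l 65666023095)) (b (l 115595017895) (l 64055410807)))))) (l 140827950327)) (l 132774886935)) (a (l 16777136) (c (b (a (b (a (b (l 69960990807) (l 16777096)) (l 129016791047)) (l 16776984)) (a (b (l 3) (a (l 58686701303) (l 109689437687))) (l 137606725415))) (l 16777096)) (l 54928605815))))) (a (l 16776104) (b (l 119353111415) (l 16776656))))) (b (l 3) (c (a (b (l 3) (c (a (b (l 3) (a (b (a (a (l 56539218055) (l 118816243799)) (l 134385499959)) (l 16777032)) (a (a (b (l 3) (l 65666023543)) (l 135996112727)) (l 142438563559)))) (l 3)) (l 135459241367))) (l 3)) (l 140827949367)))) (a (b (l 140291078631) (l 56002349463)) (l 143512302727)))), by decide +kernel⟩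

def k13_pm_102_s : ∃ t, chk3 f_pm_102_s t 95 42 1 = true :=
  ⟨(l 3), by decide +kernel⟩

def k14_pm_102_s : ∃ t, chk3 f_pm_102_s t 94 43 1 = true :=
  ⟨(b (a (c (a (l 16772904) (b (l 16776952) (l 16767944))) (l 16778816)) (a (c (c (b (a (l 16776000) (l 16777040)) (l 16770208)) (l 16777128)) (l 16771672)) (b (c (b (c (a (b (c (a (a (l 16776464) (b (b (l 46875541159) (l 16776840)) (l 16776488))) (b (a (a (b (l 122037469303) (l 16777032)) (b (l 117742501415) (l 54928605271))) (l 137069854455)) (a (l 16776744) (a (l 16776936) (a (l 16777032) (b (l 110226309255) (l 16776984))))))) (a (l 16776576) (l 62444798663))) (l 16777232)) (b (c (a (b (l 3) (a (b (l 116668759319) (a (l 16777080) (a (l 16777160) (l 118816243799)))) (l 138680467127))) (l 3)) (l 137606724903)) (c (a (b (a (l 16776800) (a (l 16776984) (b (l 116131889271) (l 16777008)))) (l 16776472)) (b (a (a (b (l 114521275895) (l 16777120)) (l 133848629079)) (l 140827950727)) (a (l 16776856) (a (l 49559895575) (b (l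 129016791127) (l 16777056)))))) (a (l 16776680) (l 110226309735))))) (a (l 16776288) (b (l 117742498775) (l 16776816)))) (c (l 16777016) (l 16774984))) (b (l 61907929447) (l 16774880))) (c (l 16775496) (l 16771904))))) (c (c (a (l 16761552) (l 16776320)) (l 16773720)) (l 16773168))), by decide +kernel⟩

def k15_pm_102_s : ∃ t, chk3 f_pm_102_s t 190 86 1 = true :=
  ⟨(b (c (a (b (c (a (a (a (b (l 3) (a (b (l 3) (b (l 3) (l 62444798103))) (l 138680466967))) (l 3)) (l 3)) (l 3)) (l 140291078199)) (c (a (b (b (c (b (a (a (l 16777016) (l 122574339575)) (l 3)) (a (l 16776912) (l 134385499927))) (l 115595018887)) (a (l 16776568) (a (l 36674993815) (b (l 131701145687) (l 57612959271))))) (l 16777448)) (b (c (a (l 138143595879) (l 3)) (l 138680466487)) (c (a (b (c (a (l 49559895511) (b (l 116131888407) (l 56539218151))) (l 62444798407)) (l 16776680)) (b (l 137606725159) (a (b (l 62444798199) (l 16776952)) (b (l 113447533863) (l 68887249063))))) (a (l 16776848) (l 124721824167)))))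 (a (l 60834181991) (l 126332435991)))) (b (l 3) (c (a (b (l 3) (l 140291079111)) (l 3)) (l 141364819783)))) (a (b (l 142975432663) (l 67276638599)) (l 142975431303))) (c (a (c (b (c (l 16777264) (l 16775264)) (l 16773464)) (l 16774272)) (b (c (a (a (b (b (a (b (l 113984405031) (l 16777000)) (a (l 125258694807) (l 137606725399))) (l 16776784)) (l 16776104)) (b (a (b (l 3) (b (l 123648082087) (l 16777048))) (l 137606725159)) (l 24863833559))) (b (l 3) (a (a (b (b (l 133311758423) (l 16777088)) (l 16776768)) (b (l 137069854439) (l 52244249991))) (a (b (l 3) (b (l 116131888391) (l 59223572727))) (l 140827950503))))) (a (l 69424116007) (l 131701144919))) (c (a (l 16777624) (b (a (l 16776216) (a (l 16776592) (a (l 16776784) (b (l 57076089095) (l 16776688))))) (l 16775568))) (l 16775440)))) (a (l 16774128) (b (l 115058149671) (l 16775344))))), by decide +kernel⟩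

def k16_pm_102_s : ∃ t, chk3 f_pm_102_s t 191 86 1 = true :=
  ⟨(a (b (l 3) (c (b (l 3) (b (c (a (c (a (a (b (l 125258694775) (l 16776880)) (b (l 3) (a (l 16777048) (l 66202894599)))) (l 137069854151)) (l 125258694343)) (l 3)) (l 132774886551)) (a (a (l 16776312) (a (l 16777344) (b (b (l 126332436647) (l 16777056)) (l 16776720)))) (a (b (l 137069854343) (a (l 16776968) (b (l 135459242087) (l 16777096)))) (l 141901692215))))) (l 131701146807))) (l 3)), by decide +kernel⟩

def k17_pm_102_s : ∃ t, chk3 f_pm_102_s t 95 87 1 = true :=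
  ⟨(a (c (b (c (l 16775728) (l 16776840)) (l 16768072)) (l 16769360)) (b (c (a (b (c (a (l 16777856) (b (a (l 16776432) (a (l 38822477159) (b (l 115058147607) (l 16776840)))) (l 16775792))) (l 16775656)) (l 16776520)) (a (b (a (b (b (l 141364821511) (a (l 51707380087) (l 122574340327))) (l 16776528)) (b (l 3) (b (a (l 60834185559) (l 129016791175)) (l 16776808)))) (l 16776744)) (b (a (a (b (l 3) (b (l 3) (l 68350378359))) (l 141364820983)) (l 3)) (b (a (l 16777288) (b (l 121500598583) (l 16776904))) (l 16776000))))) (a (l 16774608) (b (l 121500599879) (l 16775784)))) (c (c (l 16776264) (l 16777384)) (l 16771856)))), by decide +kernel⟩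

def k18_pm_102_s : ∃ t, chk3 f_pm_102_s t 11 11 1 = true :=
  ⟨(a (b (a (b (l 16706448) (l 16712224)) (b (l 16742464) (l 16707280))) (a (b (l 16680632) (l 16666688)) (b (b (l 16696232) (l 16690344)) (l 16682512)))) (b (a (b (a (l 16734024) (c (l 16743712) (l 16742424))) (a (l 16719792) (l 16728592))) (b (a (c (b (l 16756240) (l 16749240)) (l 16772288)) (c (b (a (l 16762760) (c (l 16777648) (l 16766768))) (l 16778976)) (b (l 16774432) (l 16756544)))) (a (l 16737856) (b (l 16750368) (l 16743728))))) (a (b (l 16731784) (a (l 16693712) (l 16701392))) (b (a (l 16724784) (l 16734272)) (l 16738016))))), by decide +kernel⟩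

def k19_pm_102_s : ∃ t, chk3 f_pm_102_s t 2 3 1 = true :=
  ⟨(a (b (l 6) (l 6)) (b (a (b (a (b (l 16605328) (l 6)) (b (l 16669024) (l 16595832))) (l 6)) (b (a (b (a (l 16646184) (l 16661616)) (l 16645704)) (b (a (b (l 16686296) (l 16672488)) (b (a (l 16700048) (l 16708544)) (l 16692488))) (a (l 16653120) (l 16674736)))) (a (b (l 16638008) (l 6)) (b (a (l 16629656) (l 16654640)) (a (l 16608920) (b (l 16642096) (l 16634352))))))) (l 6))), by decide +kernel⟩

def k20_pm_102_s : ∃ t, chk3 f_pm_102_s t 6 4 1 = true :=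
  ⟨(l 3), by decide +kernel⟩

def k21_pm_102_s : ∃ t, chk3 f_pm_102_s t 12 10 1 = true :=
  ⟨(a (b (l 3) (a (b (l 3) (a (b (l 3) (a (b (c (a (b (l 3) (c (a (b (l 131164273927) (a (l 16776744) (b (l 111836920343) (l 16776992)))) (l 140291078791)) (l 124721822903))) (l 3)) (l 134922367879)) (c (a (b (c (a (l 16775696) (b (a (l 56002345671) (a (l 107541955063) (l 127406178423))) (l 16776248))) (l 51707376039)) (l 16777024)) (a (b (b (l 139754208247) (a (b (l 69960991223) (l 16776752)) (l 123111210727))) (l 16777208)) (b (l 3) (b (a (a (l 16776912) (l 105931342391)) (l 127406177895)) (l 16776448))))) (a (l 16775056) (b (l 115595011719) (l 16776168))))) (b (l 3) (c (a (b (l 3) (a (a (a (b (l 3) (l 58686702103)) (l 127943049271)) (l 133311757287)) (l 3))) (l 3)) (l 137069850999))))) (l 3))) (l 3))) (l 3)), by decide +kernel⟩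

def k22_pm_102_s : ∃ t, chk3 f_pm_102_s t 48 22 1 = true :=
  ⟨(b (a (b (a (c (a (l 16775288) (b (l 16776400) (l 16770344))) (l 16770552)) (b (c (a (b (c (a (l 16777448) (b (l 122037469463) (l 50633636263))) (l 66739760487)) (l 16774896)) (a (b (c (l 129553660967) (l 131701144583)) (c (b (l 59223570535) (l 16775960)) (l 16776296))) (b (l 3) (b (l 129016790423) (a (l 16776656) (l 67276636839)))))) (a (l 51707373927) (b (l 113447528327) (l 16776544)))) (c (l 16776928) (l 16772976)))) (a (l 16774240) (c (l 16778816) (l 16767536)))) (b (a (b (c (a (b (l 3) (l 133311756503)) (l 3)) (l 140291075959)) (c (a (b (a (a (l 16776336) (b (l 109689438839) (l 16776400))) (a (b (l 110763177959) (l 16776840)) (l 127406177655))) (l 16775384)) (b (l 137069852631) (c (a (b (l 74255958823) (l 16776408)) (l 123648082599)) (l 110226310727)))) (a (l 61907920039) (l 125258693495)))) (l 3)) (a (b (c (a (l 16772904) (l 16776776)) (l 16773544)) (l 16776856)) (b (c (a (a (b (b (l 119353115303)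 (l 16776592)) (l 16775400)) (b (l 128479919239) (l 16776296))) (a (b (l 3) (b (l 129553662247) (l 16776768))) (l 132774885271))) (a (l 70497853511) (l 130627402151))) (a (l 16778520) (a (l 16774728) (b (c (l 54928602567) (l 16776400)) (l 16774864)))))))) (a (c (b (l 16759840) (l 16753608)) (l 16775872)) (b (c (a (l 16765880) (l 16774968)) (l 16777368)) (a (l 16758936) (l 16763032))))), by decide +kernel⟩

def k23_pm_102_s : ∃ t, chk3 f_pm_102_s t 49 22 1 = true :=
  ⟨(b (a (b (l 3) (a (b (l 3) (c (a (b (a (a (l 109689436423) (l 125795564999)) (l 132238015095)) (a (l 16775880) (c (l 65666020247) (l 16776616)))) (b (l 3) (c (l 126332435383) (l 128479919015)))) (a (b (l 117205624791) (l 16776120)) (l 134385497959)))) (l 3))) (l 3)) (a (b (a (b (a (l 16776464) (a (l 16777872) (b (b (l 119353115495) (l 16776560)) (l 16775376)))) (l 16776848)) (a (b (a (b (l 129016790215) (l 16776272)) (b (l 3) (b (l 130090533367) (l 16776736)))) (l 16777016)) (b (c (l 132238013863) (l 135996110119))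 (b (c (a (l 16776496) (l 117205631815)) (l 16776704)) (l 16775432))))) (a (l 16777464) (c (l 16776360) (l 16770392)))) (b (a (b (l 3) (a (b (l 133848627271) (c (a (l 56002348183) (l 123111210455)) (l 16776912))) (l 3))) (l 3)) (a (b (c (a (l 16775072) (b (a (b (l 118279373351) (l 16776632)) (l 126869306599)) (l 16775992))) (a (l 16774800) (l 72108466823))) (l 16778128)) (b (a (a (b (l 3) (a (l 65129153703) (l 119889986263))) (l 131701143511)) (l 3)) (c (a (b (l 46338667719) (l 16774904)) (b (a (l 118816244471) (l 131164273335)) (a (l 16776072) (l 58686702679)))) (a (l 16775304) (l 76403444135)))))))), by decide +kernel⟩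

def k24_pm_102_s : ∃ t, chk3 f_pm_102_s t 24 23 1 = true :=
  ⟨(a (b (a (l 16753840) (b (l 16754936) (l 16749176))) (a (l 16731528) (l 16740720))) (b (a (b (a (l 16761072) (l 16764952)) (l 16757504)) (b (a (l 16773896) (c (l 16777720) (l 16771816))) (a (l 16763312) (l 16766936)))) (a (l 16749440) (b (l 16760048) (l 16754912))))), by decide +kernel⟩

def k25_pm_102_s : ∃ t, chk3 f_pm_102_s t 25 22 1 = true :=
  ⟨(a (b (l 3) (a (b (l 3) (a (b (l 3) (a (c (b (l 3) (l 126332435399)) (l 130090530743)) (l 3))) (l 3))) (l 3))) (l 3)), by decide +kernel⟩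

def k26_pm_102_s : ∃ t, chk3 f_pm_102_s t 25 23 1 = true :=
  ⟨(a (b (a (b (a (b (a (c (b (a (l 16776288) (l 69960991751)) (l 16775408)) (l 16775736)) (c (b (l 127943047863) (a (l 16776480) (l 80161538919))) (l 117205632631))) (c (l 16774320) (l 16773880))) (b (a (c (l 130627401159) (l 132238013783)) (l 3)) (a (c (b (a (l 16776640) (l 119353115047)) (l 16775880)) (l 65129146183)) (b (l 129016789047) (c (a (l 62981670023) (l 115595015991)) (l 82845894039)))))) (a (l 16775576) (b (a (l 16773920) (c (l 16775544) (l 16775264))) (l 16777528)))) (b (l 3) (a (b (a (c (b (a (l 74255958983) (l 124721822855)) (l 16776296)) (l 73182208887)) (b (l 3) (c (a (l 84456505991) (l 126332435303)) (l 123648082967)))) (a (l 16774504) (c (b (a (l 16776208) (l 16776736)) (l 16775480)) (l 16775728)))) (b (l 3) (c (a (b (l 121500599927) (a (l 16776408) (l 69424120871))) (l 124721822839)) (a (b (l 113447530631) (l 16776472)) (l 126332434215))))))) (a (b (a (l 16765448) (l 16768744)) (a (l 16760552)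 (l 16764000))) (b (a (b (l 16778176) (l 16770656)) (b (a (l 16775016) (b (c (a (l 16776584) (l 80161538951)) (l 16776608)) (l 16775800))) (l 16773552))) (c (l 16774880) (l 16778696))))) (b (l 3) (a (b (a (b (a (b (l 124721822119) (a (l 16777992) (l 91972699127))) (l 126332433495)) (a (l 16775520) (b (a (l 64592283063) (l 110226306215)) (l 16776224)))) (a (b (l 3) (a (b (l 3) (l 76940313959)) (l 124184950903))) (l 3))) (a (b (l 16774160) (l 16772208)) (b (a (c (l 16776080) (l 16775808)) (b (c (l 116131891031) (l 103783852647)) (c (l 16775960) (l 16776472)))) (l 16777320)))) (b (l 3) (a (b (a (b (l 3) (l 119353116183)) (l 3)) (a (b (c (l 60834181351) (l 16776600)) (l 16775920)) (b (l 120963725943) (a (l 16776672) (l 84456506295))))) (b (l 3) (a (l 123648079031) (l 3)))))))), by decide +kernel⟩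

def k27_pm_102_s : ∃ t, chk3 f_pm_102_s t 13 5 1 = true :=
  ⟨(l 3), by decide +kernel⟩

def k28_pm_102_s : ∃ t, chk3 f_pm_102_s t 7 2 1 = true :=
  ⟨(l 3), by decide +kernel⟩

def k29_pm_102_s : ∃ t, chk3 f_pm_102_s t 12 6 1 = true :=
  ⟨(b (a (b (a (b (l 16724384) (a (l 16708560) (l 16717264))) (b (a (l 16738576) (l 16747280)) (a (l 16727352) (l 16737400)))) (a (b (l 16701456) (l 16690968)) (b (a (l 16718752) (b (l 16729832) (l 16726528))) (l 16713304)))) (b (a (b (a (b (l 16757512) (l 16752856)) (b (a (l 16762864) (l 16766272)) (l 16760448))) (a (l 16746232) (l 16754536))) (b (a (b (a (l 16769336) (l 16777256)) (a (l 16765576) (l 16768496))) (b (a (b (l 16776488) (l 16773520)) (b (a (b (c (l 80698410007) (l 16776776)) (l 16776296)) (a (b (l 123111209431) (l 67813508199)) (l 120426854679))) (a (l 16775112) (l 16776080)))) (a (l 16771064) (l 16778552)))) (a (b (l 16763544) (l 16760128)) (b (a (l 16767840) (l 16770280)) (l 16766048))))) (a (b (a (l 16737168) (l 16747344))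 (a (l 16731248) (b (l 16742112) (l 16740056)))) (b (a (l 16755408) (l 16770968)) (a (b (l 16751376) (l 16748464)) (l 16757136)))))) (a (a (b (l 16677712) (b (l 16666056) (l 16658496))) (b (b (l 16704616) (l 16697088)) (l 16686816))) (b (a (b (l 16727888) (l 16720904)) (b (a (l 16745080) (b (l 16753792) (l 16752080))) (l 16742360))) (a (l 16711384) (b (l 16736280) (l 16730376)))))), by decide +kernel⟩

def k30_pm_102_s : ∃ t, chk3 f_pm_102_s t 26 12 1 = true :=
  ⟨(b (a (b (a (b (a (b (l 3) (a (b (c (l 85530243655) (l 79087790855)) (l 16776592)) (b (l 3) (c (l 85530241687) (l 84456499751))))) (l 3)) (a (b (a (l 16775528) (b (l 53854859623) (l 16776064))) (l 16774552)) (b (a (b (l 109689436919) (c (l 61371052055) (l 16776720))) (l 122037466343)) (a (l 16775888) (b (c (l 66739760743) (l 16776776)) (l 16776384)))))) (b (l 3) (a (b (l 3) (a (b (l 123648079767) (l 89288344919)) (l 3))) (l 3)))) (a (b (a (l 16772424) (l 16776936)) (a (l 16769624) (l 16771664))) (b (a (b (a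 (l 16776216) (b (c (l 78550919991) (l 77477178039)) (l 16776648))) (l 16775344)) (b (a (b (l 3) (l 84993371239)) (l 3)) (a (b (l 16776744) (l 16776192)) (b (l 91435820551) (l 65129154391))))) (a (l 16773464) (b (l 16775672) (l 16774472)))))) (b (l 3) (a (b (a (b (l 3) (a (l 123648079047) (l 3))) (l 3)) (a (b (a (b (l 77477185175) (l 16776464)) (b (l 126869305223) (l 90362086951))) (l 16775960)) (b (l 132774882055) (a (b (l 84456500983) (l 16776696)) (b (l 3) (l 91435822247)))))) (l 3)))) (a (b (a (b (l 16768000) (l 16765560)) (b (a (l 16770976) (l 16772696)) (l 16769608))) (a (l 16762528) (l 16772064))) (b (a (b (a (l 16774256) (b (a (l 16775872) (l 16776520)) (l 16775144))) (l 16778144)) (b (a (b (a (b (l 93583303655) (l 16776816)) (l 127943046215)) (a (l 16776144) (b (l 75329701607) (l 16776528)))) (b (l 3) (a (b (l 132238014231) (l 68887242855)) (l 3)))) (a (l 16774944) (b (a (l 16776384) (b (l 87140855063) (l 16776736))) (l 16775680))))) (a (b (l 16771008) (l 16769288))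 (b (l 16778904) (l 16771880)))))), by decide +kernel⟩

def k31_pm_102_s : ∃ t, chk3 f_pm_102_s t 27 12 1 = true :=
  ⟨(b (l 3) (a (b (a (b (l 3) (a (b (a (l 120426854263) (l 3)) (a (l 16776568) (b (l 97878270791) (l 16776832)))) (b (l 3) (l 135996108151)))) (l 3)) (a (b (a (l 16775456) (b (a (l 53317984951) (l 94657044663)) (l 16776176))) (a (l 16773624) (l 16774808))) (b (a (b (l 3) (a (l 90362087863) (l 126869304919))) (l 3)) (c (a (l 16775960) (b (l 117742499607) (l 46875532967))) (a (l 16775912) (b (l 115595015943) (l 48486146039))))))) (b (l 3) (a (b (l 3) (a (b (l 3) (l 127943048487)) (l 3))) (l 3))))), by decide +kernel⟩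

def k32_pm_102_s : ∃ t, chk3 f_pm_102_s t 13 13 1 = true :=
  ⟨(a (b (a (b (a (b (l 16760072) (l 16758120)) (l 16763784)) (a (l 16754984) (b (l 16740528) (l 16759400)))) (b (a (l 16767120) (b (l 16770280) (l 16768864))) (a (b (l 16765280) (l 16742880)) (a (l 16745232) (l 16767680))))) (a (b (b (l 16753368) (l 16750464)) (l 16746288)) (b (a (l 16759992) (b (l 16744216) (l 16762488))) (c (l 16736648) (l 16755496))))) (b (a (b (a (b (l 16772544) (l 16771080)) (b (a (l 16774264) (l 16775384)) (l 16762816))) (a (l 16769312) (b (l 16772024) (l 16770888)))) (b (a (b (a (b (a (l 16776600) (l 78014045111)) (l 16776056)) (b (l 138680462935) (a (l 16776712) (l 94120172983)))) (a (l 16774920) (l 16775944))) (b (a (l 148344135479) (l 3)) (a (b (a (l 89288346759) (l 104857589815)) (l 16776512)) (b (l 3) (a (l 88751464087) (l 144049173015)))))) (a (b (l 16774112) (l 16772936)) (b (a (l 16775576) (b (a (l 16776552) (l 64055401911)) (l 16776144))) (c (l 16774616) (l 16775064)))))) (b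 (a (a (b (l 16766968) (a (l 16765680) (l 16745552))) (b (l 16769672) (l 16767688))) (a (b (l 16771704) (l 16770432)) (b (a (l 16773120) (l 16773992)) (l 16761792)))) (a (a (l 16762064) (b (a (l 16766488) (l 16746528)) (l 16764248))) (a (b (a (l 16747112) (l 16769680)) (a (l 16767232) (l 16747472))) (b (l 16771088) (a (l 16747904) (l 16770448)))))))), by decide +kernel⟩

def k33_pm_102_s : ∃ t, chk3 f_pm_102_s t 12 7 1 = true :=
  ⟨(b (a (b (b (a (l 16653112) (l 16676928)) (a (l 6) (l 16673088))) (l 6)) (b (a (b (l 16702368) (b (l 16699512) (l 16697904))) (b (l 16725088) (a (b (l 16717160) (a (l 16713624) (l 16698616))) (b (l 16727064) (c (l 16708200) (l 16700976)))))) (a (b (a (l 16690184) (b (l 16703032) (l 16681456))) (l 6)) (b (c (l 16703624) (c (l 16697144) (l 16692928))) (c (l 16705240) (c (l 16698480) (l 16694088))))))) (l 6)), by decide +kernel⟩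

def k34_pm_102_s : ∃ t, chk3 f_pm_102_s t 13 14 1 = true :=
  ⟨(a (b (a (b (l 16720240) (c (l 16719344) (l 16714096))) (b (l 16751584) (l 16727800))) (b (a (b (a (l 16714224) (a (l 16718928) (l 16721592))) (a (l 16713624) (l 16721096))) (a (b (l 16725696) (a (l 16726264) (l 16728648))) (b (l 16751144) (a (l 16730256) (l 16731824))))) (a (c (a (l 16739472) (l 16746160)) (c (l 16718176) (l 16715832))) (c (a (l 16751328) (l 16755256)) (a (l 16728256) (l 16733992)))))) (b (b (a (b (l 16739128) (l 16736992)) (a (l 16764088) (b (a (l 16767952) (b (l 16769416) (l 16768808))) (l 16766272)))) (a (l 16735248) (a (l 16740384) (l 16759144)))) (b (a (a (b (l 16754824) (l 16734856)) (l 16758936)) (c (l 16741248) (l 16743360))) (a (b (b (a (l 16736712) (a (l 16760104) (l 16761856))) (a (l 16758528) (a (l 16740760) (l 16741624)))) (c (a (l 16759592) (l 16762344)) (a (l 16740232) (l 16743728)))) (b (a (l 16763568) (l 16766048)) (a (b (l 16765296) (l 16766000)) (b (l 16767000) (l 16747240)))))))),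 by decide +kernel⟩

def k35_pm_102_s : ∃ t, chk3 f_pm_102_s t 13 15 1 = true :=
  ⟨(a (b (a (b (c (a (l 16743872) (l 16750648)) (b (l 16720928) (l 16724576))) (l 6)) (a (b (c (l 16755888) (l 16734456)) (b (a (l 16759632) (b (l 16761464) (l 16784496))) (l 6))) (b (b (l 16737920) (c (l 16761264) (l 16742456))) (b (c (l 16763952) (a (l 16766352) (l 16767960))) (l 16768144))))) (a (l 6) (a (l 6) (b (b (l 16791792) (l 6)) (l 6))))) (b (a (b (a (a (b (l 16741088) (l 16743752)) (b (l 16742624) (l 16765776))) (l 16745256)) (c (l 16788944) (a (l 16770800) (l 16772632)))) (b (c (l 16788744) (l 16749928)) (c (a (l 16770680) (l 16772368)) (a (l 16774328) (l 16775904))))) (b (a (c (a (l 16771952) (l 16773512)) (a (l 16776128) (l 16777576))) (c (a (l 16775000) (l 16776408)) (a (l 16778880) (l 16780032)))) (b (b (a (a (l 6) (l 16778472)) (a (l 16779648) (l 16780704))) (a (l 6) (a (l 16780864) (l 16781824)))) (a (l 6) (c (a (l 16781120) (l 16782120)) (a (l 16784752) (l 16785328)))))))),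 by decide +kernel⟩

def k36_pm_102_s : ∃ t, chk3 f_pm_102_s t 14 12 1 = true :=
  ⟨(l 3), by decide +kernel⟩

def k37_pm_102_s : ∃ t, chk3 f_pm_102_s t 28 13 1 = true :=
  ⟨(b (a (b (l 3) (a (b (a (b (a (b (l 120426848343) (l 90898950087)) (l 3)) (a (l 16776760) (c (l 80161531351) (l 74792820631)))) (b (l 3) (a (l 147807269927) (l 3)))) (a (c (l 16775944) (l 16776224)) (b (a (l 54928597335) (b (l 131164268375) (l 78550919815))) (l 16773944)))) (b (l 3) (a (b (l 163376523143) (a (c (l 75329693735) (l 67813499431)) (l 142438561239))) (l 3))))) (l 3)) (a (b (a (b (a (l 16764384) (l 16775736)) (c (l 16773768) (l 16774608))) (b (a (a (l 16776352) (c (l 35064373911) (l 16776760))) (b (a (b (l 119353107783) (l 88751475127)) (l 159081558039)) (a (l 16776768) (c (l 65129144711) (l 61371048951))))) (a (l 16775480) (c (l 16775992) (l 16776408))))) (a (b (a (l 16772520) (l 16773520)) (l 16771936)) (b (c (l 16763864) (l 16775256)) (a (l 16773296) (l 16774008))))) (b (a (b (a (b (l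 3) (a (b (l 3) (l 90898949479)) (l 3))) (l 3)) (a (b (a (c (l 16776808) (l 16776944)) (b (l 102173238167) (l 60297308599))) (l 16775248)) (b (a (l 153712849271) (l 3)) (a (c (b (l 72108468519) (l 16776840)) (l 56539210983)) (b (l 160692171767) (c (l 87140854231) (l 81235273639))))))) (l 3)) (a (b (a (c (l 16775512) (l 16776088)) (b (c (l 16776560) (l 16776784)) (l 16776120))) (c (l 16774536) (l 16775400))) (b (a (b (a (b (c (l 96804529687) (l 93583304391)) (l 51707374087)) (b (l 3) (l 110763172903))) (a (l 16776616) (c (b (l 67276630519) (l 16776744)) (l 52781114743)))) (b (l 3) (a (b (l 149417882919) (c (l 83382758119) (l 76403435399))) (l 3)))) (a (c (l 16775656) (l 16776144)) (b (a (l 16774760) (b (c (l 93583304263) (l 89288336951)) (c (l 16776864) (l 16776952)))) (c (l 16776112) (l 16776424))))))))), by decide +kernel⟩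

def k38_pm_102_s : ∃ t, chk3 f_pm_102_s t 29 13 1 = true :=
  ⟨(b (l 3) (a (b (l 3) (a (b (l 3) (a (b (a (c (l 141901689751) (l 139754206055)) (l 3)) (b (a (c (l 62444792279) (l 16776888)) (l 146196657687)) (a (l 16776688) (c (l 80161537847) (l 73182209831))))) (b (l 3) (a (l 162302782583) (l 3))))) (l 3))) (l 3))), by decide +kernel⟩

def k39_pm_102_s : ∃ t, chk3 f_pm_102_s t 15 6 1 = true :=
  ⟨(l 3), by decide +kernel⟩

def k40_pm_102_s : ∃ t, chk3 f_pm_102_s t 28 14 1 = true :=
  ⟨(b (a (b (a (b (a (b (l 16770624) (l 16748944)) (l 16771328)) (a (l 16768656) (b (l 16770368) (l 16769472)))) (b (c (l 16771720) (l 16773392)) (a (b (l 16771136) (l 16749696)) (l 16750304)))) (a (b (l 16767656) (l 16766832)) (b (a (l 16769504) (b (l 16749888) (l 16770120))) (l 16769040)))) (b (a (b (c (l 16773080) (l 16774352)) (a (l 16772080) (l 16751576))) (b (c (a (l 16774112) (l 16774896)) (a (l 16775008) (l 16775520))) (a (l 16773032) (c (l 16773128) (l 16774144))))) (a (b (a (b (l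 16770944) (l 16750032)) (b (l 16771648) (l 16749872))) (a (l 16770152) (b (a (l 16771072) (l 16770976)) (l 16770504)))) (b (c (l 16766048) (l 16762368)) (a (b (l 16760280) (c (l 16749248) (l 16751416))) (b (l 16771552) (b (l 16771280) (l 16749824)))))))) (a (b (a (l 16766936) (l 16761064)) (a (a (l 16747104) (l 16769520)) (l 16749664))) (b (a (c (l 16748016) (l 16750416)) (b (a (l 16770592) (b (a (l 16771136) (l 16750184)) (l 16770792))) (l 16749760))) (a (l 16750440) (b (l 16771176) (l 16771952)))))), by decide +kernel⟩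

def k41_pm_102_s : ∃ t, chk3 f_pm_102_s t 58 28 1 = true :=
  ⟨(b (a (b (a (b (c (l 16776232) (l 16776480)) (c (l 16775344) (l 16775792))) (b (a (b (c (l 91435823351) (l 86603982199)) (c (l 16776784) (l 16776872))) (b (l 3) (c (l 103246980135) (l 101099496791)))) (a (l 16776232) (a (l 16776616) (c (l 36138117351) (l 51170503047)))))) (a (c (l 16773936) (l 16774680)) (b (c (l 16775408) (l 16775776)) (c (l 16774416) (l 16774984))))) (b (a (b (l 3) (a (b (c (l 144586045111) (l 142975432343)) (c (l 74792827447) (l 70497857767))) (l 159618428119))) (l 3)) (a (b (a (l 16775064) (a (c (l 32916891783) (l 38822472135)) (b (l 107541948967) (l 16776872)))) (c (l 16775584) (l 16775888))) (b (a (a (b (l 3) (a (l 75329695319) (l 98415144455))) (l 157470945559)) (l 3)) (b (a (c (l 16776712) (l 39359343607)) (c (l 140827948807) (l 139754206951))) (a (l 16776376) (a (l 16776840) (a (l 74255953639) (l 96804531751))))))))) (a (b (c (a (l 16772288) (l 16767920)) (a (l 16773432) (l 16774040)))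 (a (l 16766568) (c (l 16771776) (l 16773064)))) (b (a (c (b (l 16774624) (l 16773728)) (l 16774768)) (c (b (l 16773216) (l 16774792)) (b (l 16776064) (l 16775208)))) (c (a (l 16762080) (b (l 16773832) (l 16772976))) (a (l 16773568) (l 16774112)))))), by decide +kernel⟩

def k42_pm_102_s : ∃ t, chk3 f_pm_102_s t 59 28 1 = true :=
  ⟨(b (b (l 3) (a (a (b (l 3) (c (l 160692167975) (l 160155296951))) (l 3)) (l 3))) (a (b (a (b (a (b (c (a (l 16776840) (l 105394465879)) (a (l 16776872) (l 103783853271))) (c (l 16776592) (l 16776688))) (a (b (l 3) (a (l 73719082887) (l 95730789927))) (l 154786591047))) (a (l 16775848) (b (c (l 16775360) (l 35601247127)) (l 16776272)))) (b (l 3) (a (b (c (l 138680465175) (l 137606723303)) (a (l 16776808) (a (l 47949279095) (l 95193919015)))) (b (l 3) (l 152639107895))))) (a (b (c (l 16775016) (l 16775360)) (c (l 16774040) (l 16774568))) (b (a (c (l 16776112) (l 16776280)) (b (c (a (l 16776832) (l 104857595111)) (a (l 16776864) (l 104857595415)))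 (c (l 16776600) (l 16776680)))) (a (c (l 16775048) (l 16775392)) (c (l 16775776) (l 16776000)))))) (b (l 3) (a (b (a (b (l 3) (a (b (l 107005079991) (l 16776960)) (l 149954754375))) (l 3)) (a (b (a (l 16776664) (b (l 104857601719) (l 16776888))) (l 16776304)) (b (c (l 137606723271) (l 137069852295)) (a (l 16776808) (b (l 108078821927) (l 40969957831)))))) (b (l 3) (a (b (l 3) (l 157470945975)) (l 3))))))), by decide +kernel⟩

def k43_pm_102_s : ∃ t, chk3 f_pm_102_s t 58 29 1 = true :=
  ⟨(b (b (a (a (b (a (l 16749840) (l 16771336)) (a (l 16771152) (l 16750312))) (b (l 16771672) (a (l 16760408) (l 16771408)))) (a (c (l 16771288) (l 16772696)) (c (l 16766680) (l 16773032)))) (a (a (l 16770968) (b (a (l 16771176) (b (l 16771168) (l 16771184))) (l 16771120))) (a (b (a (b (l 16771368) (l 16771264)) (l 16771424)) (a (l 16771240) (b (l 16750408) (l 16771336)))) (b (l 16771808) (a (b (l 16771416) (l 16750552)) (l 16761032)))))) (a (b (c (l 16770312) (l 16772408)) (l 16756056))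 (b (a (l 16760872) (b (a (l 16771424) (b (l 16761048) (l 16771160))) (l 16770936))) (a (l 16750328) (c (l 16769680) (l 16771344)))))), by decide +kernel⟩

def k44_pm_102_s : ∃ t, chk3 f_pm_102_s t 59 58 1 = true :=
  ⟨(a (b (b (a (c (l 16773200) (l 16773920)) (a (l 16771744) (a (l 16764312) (l 16775064)))) (a (c (l 16772504) (l 16773424)) (c (l 16768208) (l 16774080)))) (a (c (b (l 16771848) (l 16771112)) (l 16767392)) (c (b (l 16772448) (l 16771440)) (l 16767576)))) (b (a (c (b (a (l 16775368) (l 16776088)) (l 16774536)) (b (l 16774608) (l 16774896))) (b (a (b (c (a (l 16776816) (l 106468208071)) (a (l 42580570023) (l 107005079287))) (c (l 16776560) (l 16776632))) (a (b (l 3) (b (l 110226305671) (l 42580570535))) (l 153712848967))) (a (c (l 16775624) (l 16775808)) (b (a (l 16776600) (b (l 105931342999) (l 16776864))) (l 16773560))))) (a (c (c (l 16777976) (l 16770344)) (b (l 16773896) (l 16772936))) (b (c (a (l 16774392) (l 16775168)) (l 16772416)) (c (l 16778800) (l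 16768712)))))), by decide +kernel⟩

def k45_pm_102_s : ∃ t, chk3 f_pm_102_s t 59 59 1 = true :=
  ⟨(a (b (b (a (a (b (l 16771016) (l 16761760)) (c (l 16769984) (l 16771328))) (l 16764400)) (a (a (l 16770384) (b (c (l 16780264) (l 16771200)) (l 16770016))) (a (a (b (l 16770032) (l 16770080)) (b (l 16770256) (l 16780376))) (b (l 16770384) (c (l 16769184) (l 16770344)))))) (a (c (l 16769080) (l 16770528)) (b (a (l 16769584) (b (c (a (l 16769232) (l 16769144)) (l 16770472)) (l 16769440))) (l 16769320)))) (b (a (c (b (l 16771224) (l 16770224)) (l 16766328)) (c (c (l 16777016) (l 16777240)) (b (l 16772936) (l 16771984)))) (b (a (a (b (c (l 16769056) (l 16770120)) (c (a (l 16769096) (l 16769096)) (l 16770296))) (b (l 16770152) (c (a (l 16768992) (l 16769408)) (l 16770008)))) (c (l 16770352) (l 16771096))) (a (a (l 16769304) (b (c (a (l 16769072) (l 16769152)) (l 16770240)) (l 16769360))) (a (a (b (c (l 16769072) (l 16769992)) (l 16769568)) (b (l 16769896) (c (l 16774552) (l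 16770208)))) (b (l 16770312) (c (a (l 16774488) (l 16769712)) (l 16775360)))))))), by decide +kernel⟩

def k46_pm_102_s : ∃ t, chk3 f_pm_102_s t 28 15 1 = true :=
  ⟨(b (b (a (b (a (b (l 16750040) (l 16771680)) (b (l 16772016) (l 16754736))) (a (l 16772896) (l 16774048))) (b (a (l 16751616) (l 16772832)) (a (b (c (l 16793688) (l 16754560)) (l 16774496)) (b (l 16773208) (a (l 16774424) (l 16752392)))))) (a (a (c (l 16773984) (l 16777352)) (c (l 16775000) (l 16778128))) (a (c (l 16775000) (l 16777824)) (c (l 16774224) (l 16776696))))) (a (b (a (c (l 16777728) (l 16781056)) (c (l 16778440) (l 16781400))) (a (c (b (l 16780808) (l 16783008)) (b (l 16783856) (l 16785744))) (c (b (l 16781256) (l 16783272)) (b (l 16783840) (l 16785480))))) (b (a (c (l 16799112) (l 16801632)) (c (b (l 16776296) (l 16777792)) (b (l 16778480) (l 16779680)))) (a (c (b (l 16780704) (l 16782536)) (b (l 16782760) (l 16784144))) (c (b (l 16779376) (l 16791512)) (b (l 16780848) (l 16781984))))))), by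 decide +kernel⟩

def k47_pm_102_s : ∃ t, chk3 f_pm_102_s t 29 30 1 = true :=
  ⟨(a (b (a (b (l 16751232) (a (l 16772664) (l 16772232))) (b (a (l 16771152) (l 16770216)) (a (l 16771384) (l 16770464)))) (b (a (b (a (b (l 16773376) (l 16773520)) (b (l 16772352) (l 16772840))) (l 16773520)) (b (a (l 16771584) (l 16770888)) (a (b (l 16793160) (l 16772328)) (b (l 16771008) (c (l 16770776) (l 16772448)))))) (a (c (l 16773472) (l 16775464)) (c (l 16771704) (l 16773304))))) (b (b (a (a (c (l 16768904) (l 16770328)) (c (l 16768704) (l 16769928))) (a (c (b (l 16768808) (l 16768856)) (l 16769856)) (b (a (l 16769464) (a (l 16769712) (b (b (l 16769776) (l 16769776)) (l 16769736)))) (c (l 16769232) (l 16770096))))) (a (c (a (l 16769176) (l 16768992)) (l 16749384)) (a (c (l 16769104) (l 16770144)) (b (l 16774976) (l 16769960))))) (a (b (a (b (l 16770240) (l 16770464)) (l 16770168)) (b (a (b (c (l 16770480) (l 16771936)) (l 16771224)) (b (l 16770600) (a (l 16771256) (l 16770944)))) (c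 (l 16770848) (l 16772040)))) (b (a (c (l 16769752) (l 16770816)) (c (l 16770112) (l 16771016))) (b (a (c (l 16770304) (l 16771392)) (l 16771232)) (a (b (a (l 16771504) (l 16771344)) (l 16771528)) (b (l 16771520) (c (a (l 16771648) (l 16771632)) (l 16783056))))))))), by decide +kernel⟩

def k48_pm_102_s : ∃ t, chk3 f_pm_102_s t 29 31 1 = true :=
  ⟨(a (b (a (c (b (l 16774736) (l 16776072)) (b (l 16776456) (l 16777424))) (c (b (l 16772808) (l 16773976)) (b (l 16774072) (l 16774808)))) (a (b (c (l 16777472) (l 16778352)) (c (a (l 16779520) (l 16778368)) (a (l 16779984) (l 16778504)))) (b (c (l 16775200) (l 16775496)) (c (a (l 16777144) (l 16775912)) (a (l 16776960) (l 16775408)))))) (b (a (c (b (l 16771544) (l 16772528)) (b (l 16772440) (l 16772928))) (c (b (a (l 16771608) (l 16772032)) (l 16772528)) (b (l 16772448) (l 16772648)))) (a (b (c (a (l 16773840) (l 16773392)) (l 16783840)) (c (a (l 16774960) (l 16774400)) (a (l 16774176) (l 16773368)))) (b (c (a (l 16773288)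 (l 16773472)) (a (l 16772816) (l 16772864))) (c (a (l 16774168) (b (l 16774032) (l 16774416))) (a (l 16772936) (l 16772824))))))), by decide +kernel⟩

def k49_pm_102_s : ∃ t, chk3 f_pm_102_s t 30 28 1 = true :=
  ⟨(l 3), by decide +kernel⟩

def k50_pm_102_s : ∃ t, chk3 f_pm_102_s t 60 58 1 = true :=
  ⟨(a (b (a (b (l 3) (a (b (c (l 137606723095) (a (l 129553660455) (l 3))) (b (a (l 16776920) (l 113984402215)) (c (l 16776744) (l 31843151831)))) (b (l 3) (l 160692171207)))) (l 3)) (a (b (a (c (l 16773400) (l 16776136)) (b (c (a (l 42043698503) (l 111300046583)) (a (b (l 79624663687) (l 16776888)) (l 131164273079))) (c (l 16776544) (a (l 16776432) (l 16776800))))) (c (a (l 16774736) (l 16772968)) (a (l 16774968) (l 16775736)))) (b (a (a (b (l 3) (b (l 118816240647) (a (l 16776984) (l 84456502647)))) (l 164987137815)) (l 3)) (a (a (c (l 16776264) (l 16776344)) (b (b (a (l 16777008) (l 109152564887)) (l 16776888)) (l 16776416))) (b (c (l 139217335559) (a (l 133311756599)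 (l 3))) (c (a (l 16776776) (b (l 110226304455) (l 16776896))) (a (l 27011314407) (b (l 110763175335) (l 71571600135))))))))) (b (l 3) (a (b (l 3) (a (b (l 3) (l 167134621783)) (l 3))) (l 3)))), by decide +kernel⟩

def k51_pm_102_s : ∃ t, chk3 f_pm_102_s t 60 59 1 = true :=
  ⟨(a (b (a (c (b (a (l 16773528) (l 16774336)) (l 16778024)) (b (l 16774224) (l 16773192))) (b (c (a (l 16775200) (b (l 16776408) (l 16775768))) (a (l 16775360) (b (l 16776472) (l 16775880)))) (c (c (l 16779632) (l 16779712)) (a (l 16774272) (l 16775040))))) (a (c (b (l 16771736) (l 16770808)) (b (l 16772248) (l 16771416))) (b (c (a (l 16772920) (l 16773744)) (l 16772008)) (c (l 16777600) (l 16767520))))) (b (a (a (a (b (b (c (b (l 86603985399) (l 16776904)) (b (l 86603985623) (l 16776920))) (l 16776464)) (c (l 16775512) (l 16775640))) (b (b (c (l 135459240135) (l 135996110999)) (c (l 27011313815) (b (l 41506829367) (l 16776768)))) (b (l 16776288) (l 16775696)))) (a (b (b (l 3) (b (l 151028496855)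 (a (l 16776360) (l 96267662839)))) (c (b (l 16776696) (l 16776088)) (l 16775136))) (b (l 3) (b (b (a (l 101636375303) (l 112910659975)) (c (l 16776928) (l 16776944))) (l 16774736))))) (b (l 3) (a (a (b (c (l 138680465415) (l 139754207175)) (a (l 16776192) (b (a (l 46875539367) (l 93046437847)) (l 16776912)))) (b (l 3) (b (l 158007818487) (c (l 80698405431) (a (l 16777024) (l 108615694391)))))) (l 3)))) (a (b (c (a (l 16774592) (l 16777408)) (a (l 16774784) (l 16776216))) (c (c (l 16779208) (l 16779288)) (a (l 16773864) (l 16774616)))) (b (a (c (b (l 16775408) (l 16776000)) (b (a (l 16776408) (l 16776792)) (l 16776080))) (a (b (c (b (l 99488887671) (l 16776944)) (b (c (l 101099500791) (l 101636371767)) (c (l 16776952) (l 16776304)))) (c (l 16776616) (l 16776656))) (b (c (l 143512303399) (l 144586045159)) (b (a (l 27011315751) (a (l 76403442119) (l 108615694615))) (l 16776880))))) (a (c (l 16777856) (l 16774712)) (c (b (l 16776280) (l 16775784)) (b (l 16776336) (l 16775880)))))))),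 by decide +kernel⟩

def k52_pm_102_s : ∃ t, chk3 f_pm_102_s t 61 29 1 = true :=
  ⟨(b (l 3) (a (b (l 3) (a (b (a (a (b (l 3) (a (b (l 168745237079) (b (l 86603987191) (l 16777088))) (c (l 142975432951) (l 144049174727)))) (l 3)) (l 3)) (b (b (a (c (a (l 16776952) (l 110763177287)) (a (l 16776968) (c (l 127406177159) (l 127943048055)))) (l 3)) (a (a (l 16776736) (a (l 16777008) (b (l 93583309047) (l 16777096)))) (c (l 158007817399) (l 159081559143)))) (a (c (l 16773920) (l 16776584)) (a (a (c (l 16776944) (a (l 16776960) (l 30232540983))) (b (c (l 100025759655) (l 101636372455)) (l 16777040))) (b (l 3) (a (b (l 103783856519) (l 40433088855)) (l 153712851767))))))) (l 3))) (l 3))), by decide +kernel⟩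

def k53_pm_102_s : ∃ t, chk3 f_pm_102_s t 31 14 1 = true :=
  ⟨(l 3), by decide +kernel⟩

def k54_pm_102_s : ∃ t, chk3 f_pm_102_s t 60 60 1 = true :=
  ⟨(a (b (a (b (a (a (b (b (l 16770064) (l 16769904)) (l 16769896)) (b (l 16770296) (b (l 16770056) (l 16770008)))) (a (b (l 16770632) (b (l 16770328) (l 16770216))) (l 16775968))) (a (l 16769976) (a (l 16770200) (b (b (l 16770392) (l 16770344)) (l 16770376))))) (b (c (l 16776736) (l 16771976)) (a (a (b (b (l 16770624) (l 16770592)) (l 16770552)) (b (l 16770880) (b (l 16770800) (l 16770744)))) (b (l 16771520) (a (b (l 16770992) (l 16771016)) (l 16771256)))))) (a (c (b (l 16769944) (l 16770168)) (b (l 16770656) (l 16770888))) (b (a (l 16770744) (a (l 16771016) (b (b (l 16776488) (l 16771192)) (l 16771256)))) (c (l 16770896) (l 16771480))))) (b (a (b (c (a (l 16772704) (l 16773520)) (a (l 16773056) (l 16773792))) (c (l 16777248) (l 16772720))) (b (c (a (l 16774320) (l 16777728)) (a (l 16774528) (l 16777872))) (c (a (l 16773536)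 (l 16774312)) (a (l 16773808) (l 16774512))))) (b (a (a (a (b (b (l 16771408) (l 16776728)) (l 16771456)) (b (l 16771688) (b (l 16771744) (l 16771680)))) (b (l 16772392) (a (b (l 16771872) (l 16772000)) (l 16777400)))) (c (a (l 16772872) (l 16773648)) (a (l 16773200) (l 16773912)))) (a (a (l 16771728) (b (c (a (l 16771792) (l 16777464)) (l 16783088)) (l 16772208))) (a (b (a (b (l 16772376) (l 16772544)) (c (l 16772512) (l 16772864))) (c (b (l 16777880) (l 16772512)) (l 16783600))) (b (l 16773368) (a (b (l 16772912) (l 16773120)) (a (l 16778360) (l 16773440))))))))), by decide +kernel⟩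

def k55_pm_102_s : ∃ t, chk3 f_pm_102_s t 60 61 1 = true :=
  ⟨(a (b (a (b (l 16770784) (l 16771200)) (b (c (l 16771208) (l 16771808)) (l 16771856))) (a (b (l 16771720) (c (l 16771840) (l 16772632))) (b (l 16772368) (l 16772968)))) (b (a (b (c (l 16772040) (l 16772512)) (c (l 16772432) (l 16772928))) (b (a (l 16772864) (b (c (a (l 16772968) (l 16773392)) (l 16773664)) (l 16773384))) (c (l 16773312) (l 16773696)))) (a (b (l 16773120) (l 16773712)) (b (c (l 16773784) (l 16774192)) (l 16774520))))), by decide +kernel⟩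

def k56_pm_102_s : ∃ t, chk3 f_pm_102_s t 122 60 1 = true :=
  ⟨(b (a (b (a (c (c (l 16775832) (l 16775864)) (b (l 16776144) (l 16775744))) (a (b (c (l 16776600) (l 16776640)) (l 16778816)) (b (a (l 16775560) (b (c (l 16777040) (l 43117443063)) (l 16776920))) (c (l 16776504) (l 16776552))))) (a (c (l 16775048) (l 16775200)) (c (b (l 16775936) (l 16775576)) (b (l 16776024) (l 16775688))))) (b (a (b (b (a (c (l 134385498807) (c (l 134922369687) (l 135459240583))) (l 3)) (a (b (a (l 16777104) (l 102710113767)) (c (l 16777040) (l 35064379479))) (l 165524011047))) (c (a (l 16776832) (b (a (l 64592279447) (l 102710112919)) (l 16777008))) (a (l 16776856) (b (a (l 64055411159) (l 132774886503)) (l 16776360))))) (a (a (b (l 3) (b (l 3) (b (l 109152564567) (a (l 16777144) (l 90362084135))))) (l 3)) (l 3))) (a (c (b (a (l 16776432) (l 16776744)) (l 16776232)) (b (l 16775320) (l 16776296))) (b (b (a (a (l 16777056) (b (a (l 16777112) (l 108615694455)) (l 16777120))) (c (l 149954754951)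 (l 146196658519))) (a (l 16776944) (a (c (l 16777080) (l 37748734263)) (b (l 122574337287) (a (l 16777144) (l 108615695351)))))) (c (a (l 16776672) (l 16776936)) (a (l 16776704) (l 16776952))))))) (a (b (c (a (l 16774392) (l 16775104)) (a (l 16774592) (l 16775256))) (c (a (l 16773896) (l 16774616)) (a (l 16774144) (l 16774808)))) (b (a (b (c (l 16775912) (l 16776000)) (l 16778296)) (c (b (l 16777800) (l 16776216)) (b (l 16776536) (l 16776280)))) (a (c (l 16775280) (l 16775424)) (c (b (l 16775976) (l 16775768)) (l 16774008)))))), by decide +kernel⟩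

def k57_pm_102_s : ∃ t, chk3 f_pm_102_s t 123 120 1 = true :=
  ⟨(a (b (l 3) (a (b (l 3) (a (a (b (c (l 75866568519) (a (l 61371054535) (l 91972696455))) (l 16777048)) (b (l 146733529911) (a (l 16777120) (b (l 89825213223) (l 16777152))))) (a (b (l 3) (a (b (l 3) (l 69424118551)) (l 148344142887))) (l 3)))) (l 3))) (l 3)), by decide +kernel⟩

def k58_pm_102_s : ∃ t, chk3 f_pm_102_s t 123 121 1 = true :=
  ⟨(a (b (a (b (a (c (l 16776872) (l 16776896)) (a (c (l 16777032) (l 16776392)) (b (a (b (l 99488889735) (l 16777160)) (b (l 3) (l 76940311383))) (l 16777080)))) (c (a (l 16776592) (l 16776824)) (l 16776744))) (a (b (a (b (l 163376528007) (b (a (l 16776816) (l 110763179063)) (l 16777144))) (b (l 3) (c (l 101636371079) (l 132774886471)))) (b (a (l 16777048) (c (l 16777112) (l 32380025367))) (l 16776976))) (b (l 3) (a (b (a (b (l 103246985399) (l 16777168)) (b (l 3) (l 93583309751))) (l 16777112)) (b (l 3) (a (b (l 72108474519) (l 16777152)) (b (l 109152565335) (l 16776832))))))))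 (a (c (b (l 16776472) (l 16776280)) (b (l 16776528) (l 16776352))) (c (b (a (l 16776800) (l 16776984)) (l 16778008)) (b (a (l 16776832) (l 16777000)) (l 16776416))))) (a (a (b (a (b (l 3) (b (l 3) (c (l 138680466359) (l 140827949975)))) (l 3)) (b (b (a (a (l 16777144) (c (l 16777112) (l 58149829143))) (b (l 162302786599) (a (l 60297313191) (l 98952018151)))) (c (l 16777096) (l 16777104))) (c (l 16776960) (l 16776984)))) (b (l 3) (a (b (b (l 3) (b (c (l 106468211399) (l 95193922551)) (c (l 16777136) (l 16776648)))) (c (l 16777072) (l 16777088))) (b (c (l 156934076263) (l 163376527127)) (b (b (a (l 16776840) (a (l 83919633527) (l 104857598455))) (l 16777168)) (l 16777104)))))) (b (l 3) (b (l 3) (a (b (a (a (b (l 3) (a (l 16777168) (l 89825213559))) (l 160155302855)) (l 3)) (a (c (l 16777144) (l 29158800135)) (b (c (l 124184951559) (l 135459241271)) (c (l 65666022071) (a (l 16777184) (l 83919633399)))))) (c (l 170892719079) (l 172503331719))))))), by decide +kernel⟩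

def k59_pm_102_s : ∃ t, chk3 f_pm_102_s t 122 61 1 = true :=
  ⟨(b (a (b (a (b (a (b (l 16773472) (l 16773704)) (c (l 16773640) (l 16773904))) (c (a (l 16773592) (l 16774008)) (l 16774232))) (b (l 16774432) (a (b (l 16774056) (l 16774304)) (b (l 16774504) (l 16774352))))) (a (l 16774104) (b (c (a (l 16774216) (l 16774624)) (l 16774808)) (l 16774632)))) (b (c (a (l 16774952) (l 16775544)) (a (l 16775136) (l 16775688))) (a (b (a (b (l 16774640) (l 16774912)) (b (l 16775056) (l 16774928))) (c (l 16780400) (l 16775384))) (b (l 16775464) (a (b (l 16775200) (l 16775480)) (b (l 16775568) (l 16775464))))))) (a (b (c (l 16774672) (l 16774976)) (l 16780592)) (b (a (l 16775384) (b (c (l 16775728) (l 16775920)) (l 16775848))) (c (l 16776016) (l 16776256))))), by decide +kernel⟩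

def k60_pm_102_s : ∃ t, chk3 f_pm_102_s t 123 61 1 = true :=
  ⟨(a (b (b (a (c (l 16776056) (l 16776152)) (c (b (l 16776544) (l 16776424)) (b (l 16776600) (l 16776496)))) (a (c (l 16775896) (l 16776024)) (c (l 16776328) (l 16776424)))) (b (a (a (b (b (l 16780960) (l 16776008)) (l 16776072)) (b (b (l 16776040) (l 16781208)) (l 16781600))) (b (l 16776352) (a (b (a (l 16776216) (l 16776264)) (l 16776496)) (a (b (l 16776424) (l 16776456)) (l 16776440))))) (a (l 16776544) (b (c (l 16776744) (l 16776888)) (l 16776904))))) (b (b (a (c (b (c (l 16776880) (l 16776888)) (l 16776768)) (b (l 16775600) (l 16776816))) (b (a (c (l 16777088) (l 16777096)) (b (a (b (c (l 84456503879) (a (l 16777144) (l 102710114631))) (c (l 16777176) (l 16777176))) (a (c (l 119889984343) (l 130627403047)) (l 3))) (a (l 16777136) (b (c (l 57076087543) (l 57612958455)) (l 16777176))))) (c (a (l 16776976) (l 16777080)) (a (l 16777000) (l 16777096))))) (b (a (c (l 16776696) (l 16776752)) (a (l 16776912)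 (a (l 16776992) (l 16777040)))) (a (l 16779304) (c (l 16776920) (l 16776968))))) (b (a (c (l 16776680) (l 16776768)) (b (c (l 16776928) (l 16776984)) (l 16776992))) (a (a (b (b (a (l 16776672) (l 16776680)) (l 16776936)) (l 16777040)) (b (a (b (l 16776832) (l 16776888)) (l 16776824)) (l 16782488))) (b (l 16777080) (a (b (a (l 16777088) (l 16777056)) (l 16777336)) (a (b (l 16777192) (l 16777280)) (l 16782408)))))))), by decide +kernel⟩

def k61_pm_102_s : ∃ t, chk3 f_pm_102_s t 30 31 1 = true :=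
  ⟨(a (b (b (a (b (a (b (a (c (l 16772488) (l 16773304)) (c (l 16772568) (l 16773336))) (l 16772912)) (b (l 16783816) (a (c (l 16773504) (l 16774184)) (c (l 16773648) (l 16774296))))) (c (l 16773264) (l 16773728))) (b (a (a (l 16774096) (l 16774608)) (l 16775200)) (a (b (a (c (l 16774632) (l 16775208)) (c (l 16774824) (l 16775368))) (l 16774960)) (b (l 16786104) (a (c (l 16775840) (l 16776312)) (c (l 16776048) (l 16776504))))))) (a (c (l 16784136) (l 16773640)) (c (a (l 16775016) (l 16776072)) (a (l 16775008) (l 16776120))))) (a (b (c (a (l 16773904) (l 16774536)) (a (l 16773200) (l 16773776))) (c (a (b (l 16774360) (l 16774672)) (b (l 16774888) (l 16775128))) (a (l 16772992) (b (l 16773496) (l 16773272))))) (b (c (a (l 16775328) (l 16776240)) (a (l 16774552) (l 16775480))) (c (a (b (l 16775568) (l 16775728)) (b (l 16776360) (l 16776440))) (a (b (l 16774128) (l 16773808)) (b (l 16774912) (l 16774488))))))) (b (a (b (a (b (l 16776008) (a (l 16776448) (l 16776952))) (b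 (l 16781984) (l 16777472))) (b (a (b (a (c (l 16777064) (l 16777448)) (c (l 16777272) (l 16777648))) (l 16777272)) (b (l 16788440) (a (c (l 16778248) (l 16778560)) (c (l 16778384) (l 16778696))))) (c (l 16777768) (l 16777744)))) (b (b (a (a (l 16777160) (l 16777376)) (a (c (l 16777488) (l 16777632)) (b (c (l 16782832) (l 16777696)) (l 16777800)))) (a (c (l 16777904) (l 16778136)) (a (l 16778232) (l 16780944)))) (b (a (a (l 16778600) (l 16778888)) (a (l 16779024) (l 14))) (a (b (a (c (l 16789736) (l 16779504)) (l 14)) (l 16779256)) (l 14))))) (a (a (b (c (l 16777232) (l 16776520)) (b (a (l 16776248) (l 16776696)) (l 14))) (b (c (l 16778208) (l 16777576)) (l 14))) (l 14)))), by decide +kernel⟩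

def k62_pm_102_s : ∃ t, chk3 f_pm_102_s t 62 60 1 = true :=
  ⟨(l 3), by decide +kernel⟩

def k63_pm_102_s : ∃ t, chk3 f_pm_102_s t 124 122 1 = true :=
  ⟨(a (b (a (a (a (b (b (l 3) (b (l 154786593895) (c (l 75329698983) (a (l 16777168) (l 93583309255))))) (c (l 16777144) (l 16776504))) (b (l 3) (b (b (a (a (l 66202893495) (l 99488890055)) (l 121500596183)) (c (l 16777160) (l 50096765895))) (l 16777168)))) (b (l 3) (a (b (c (l 146733529895) (l 149417884423)) (b (a (l 16776784) (b (l 107005082279) (l 68350377175))) (l 16777192))) (b (l 3) (a (b (l 3) (b (l 91435826439) (l 16777200))) (c (l 150491626503) (l 152639110119))))))) (l 3)) (a (b (a (c (l 16777096) (l 16776456)) (b (a (l 16777168) (a (l 16777192) (c (l 16777184) (l 16776856)))) (c (l 16777152) (l 16777168)))) (c (c (l 16777104) (l 16777104)) (l 16776144))) (a (b (b (a (b (c (l 123111210023) (l 132238015831)) (a (l 16777200) (b (l 94120180503) (l 16777184)))) (c (l 166060882487) (l 167671495175))) (a (l 16777192)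 (b (a (c (l 16777160) (l 16777160)) (c (l 97341405527) (l 98952018247))) (c (l 16777200) (l 16777200))))) (c (c (l 16777184) (l 16777184)) (l 16777192))) (a (b (b (l 3) (a (b (l 3) (b (l 104857598631) (l 66202893543))) (l 173577075447))) (b (b (a (l 16777208) (b (l 89825213719) (l 16777208))) (l 16777208)) (l 16777208))) (b (l 3) (b (b (c (l 147270401175) (l 149954755703)) (a (c (l 16777184) (l 16777192)) (c (l 103246986439) (l 90362083799)))) (c (l 16777208) (l 16777216)))))))) (b (l 3) (b (l 3) (a (a (b (l 3) (a (b (a (c (l 76403440647) (l 78014053383)) (l 158007819607)) (c (l 46338669543) (c (l 16777184) (l 39896218775)))) (b (l 3) (c (l 137069853959) (l 139754208487))))) (l 3)) (l 3))))), by decide +kernel⟩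

def k64_pm_102_s : ∃ t, chk3 f_pm_102_s t 124 123 1 = true :=
  ⟨(a (b (a (c (b (l 16777104) (l 16777152)) (b (l 16777144) (l 16777192))) (b (c (a (l 16777192) (l 16775904)) (a (l 16777208) (l 16777232))) (a (l 16778552) (a (l 16777264) (l 16777272))))) (b (a (c (l 16777240) (l 16777288)) (c (l 16777336) (l 16777368))) (a (l 16777376) (c (l 16777464) (l 16777504))))) (b (a (a (b (b (a (l 16777224) (a (c (l 16777216) (l 16777216)) (b (c (l 88214600743) (l 91435826295)) (l 16777224)))) (c (l 16777232) (l 16777240))) (c (l 16777272) (l 16776632))) (b (a (b (a (b (l 173577075927) (c (l 66739764295) (l 67813506119))) (c (l 149954755591) (l 152639110119))) (b (c (l 16776712) (l 35064380599)) (l 16777232))) (b (l 3) (b (b (l 166597754023) (l 14)) (l 14)))) (l 14))) (b (b (l 3) (l 14)) (l 14))) (l 14))), by decide +kernel⟩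

def k65_pm_102_s : ∃ t, chk3 f_pm_102_s t 125 61 1 = true :=
  ⟨(b (l 3) (l 14)), by decide +kernel⟩

def k66_pm_102_s : ∃ t, chk3 f_pm_102_s t 63 30 1 = true :=
  ⟨(l 3), by decide +kernel⟩

def k67_pm_102_s : ∃ t, chk3 f_pm_102_s t 31 31 1 = true :=
  ⟨(a (b (a (b (a (b (a (a (b (b (a (l 16777456) (l 16777400)) (l 16777696)) (l 16777840)) (b (b (l 16777528) (l 14)) (l 14))) (l 14)) (l 14)) (l 14)) (l 14)) (l 14)) (l 14)) (l 14)), by decide +kernel⟩

theorem s68_pm_102_s : ∃ t, chk3 f_pm_102_s t 124 61 1 = true := ex3_b k63_pm_102_s k64_pm_102_s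

theorem s69_pm_102_s : ∃ t, chk3 f_pm_102_s t 62 61 1 = true := ex3_a s68_pm_102_s k65_pm_102_s

theorem s70_pm_102_s : ∃ t, chk3 f_pm_102_s t 62 30 1 = true := ex3_b k62_pm_102_s s69_pm_102_s

theorem s71_pm_102_s : ∃ t, chk3 f_pm_102_s t 31 30 1 = true := ex3_a s70_pm_102_s k66_pm_102_s

theorem s72_pm_102_s : ∃ t, chk3 f_pm_102_s t 31 15 1 = true := ex3_b s71_pm_102_s k67_pm_102_s

theorem s73_pm_102_s : ∃ t, chk3 f_pm_102_s t 61 61 1 = true := ex3_a k59_pm_102_s k60_pm_102_s

theorem s74_pm_102_s : ∃ t, chk3 f_pm_102_s t 123 60 1 = true := ex3_b k57_pm_102_s k58_pm_102_s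

theorem s75_pm_102_s : ∃ t, chk3 f_pm_102_s t 61 60 1 = true := ex3_a k56_pm_102_s s74_pm_102_s

theorem s76_pm_102_s : ∃ t, chk3 f_pm_102_s t 61 30 1 = true := ex3_b s75_pm_102_s s73_pm_102_s

theorem s77_pm_102_s : ∃ t, chk3 f_pm_102_s t 60 30 1 = true := ex3_b k54_pm_102_s k55_pm_102_s

theorem s78_pm_102_s : ∃ t, chk3 f_pm_102_s t 30 30 1 = true := ex3_a s77_pm_102_s s76_pm_102_s

theorem s79_pm_102_s : ∃ t, chk3 f_pm_102_s t 30 15 1 = true := ex3_b s78_pm_102_s k61_pm_102_s

theorem s80_pm_102_s : ∃ t, chk3 f_pm_102_s t 15 15 1 = true := ex3_a s79_pm_102_s s72_pm_102_s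

theorem s81_pm_102_s : ∃ t, chk3 f_pm_102_s t 60 29 1 = true := ex3_b k50_pm_102_s k51_pm_102_s

theorem s82_pm_102_s : ∃ t, chk3 f_pm_102_s t 30 29 1 = true := ex3_a s81_pm_102_s k52_pm_102_s

theorem s83_pm_102_s : ∃ t, chk3 f_pm_102_s t 30 14 1 = true := ex3_b k49_pm_102_s s82_pm_102_s

theorem s84_pm_102_s : ∃ t, chk3 f_pm_102_s t 15 14 1 = true := ex3_a s83_pm_102_s k53_pm_102_s

theorem s85_pm_102_s : ∃ t, chk3 f_pm_102_s t 15 7 1 = true := ex3_b s84_pm_102_s s80_pm_102_s

theorem s86_pm_102_s : ∃ t, chk3 f_pm_102_s t 29 15 1 = true := ex3_b k47_pm_102_s k48_pm_102_s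

theorem s87_pm_102_s : ∃ t, chk3 f_pm_102_s t 14 15 1 = true := ex3_a k46_pm_102_s s86_pm_102_s

theorem s88_pm_102_s : ∃ t, chk3 f_pm_102_s t 59 29 1 = true := ex3_b k44_pm_102_s k45_pm_102_s

theorem s89_pm_102_s : ∃ t, chk3 f_pm_102_s t 29 29 1 = true := ex3_a k43_pm_102_s s88_pm_102_s

theorem s90_pm_102_s : ∃ t, chk3 f_pm_102_s t 29 28 1 = true := ex3_a k41_pm_102_s k42_pm_102_s

theorem s91_pm_102_s : ∃ t, chk3 f_pm_102_s t 29 14 1 = true := ex3_b s90_pm_102_s s89_pm_102_s

theorem s92_pm_102_s : ∃ t, chk3 f_pm_102_s t 14 14 1 = true := ex3_a k40_pm_102_s s91_pm_102_s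

theorem s93_pm_102_s : ∃ t, chk3 f_pm_102_s t 14 7 1 = true := ex3_b s92_pm_102_s s87_pm_102_s

theorem s94_pm_102_s : ∃ t, chk3 f_pm_102_s t 7 7 1 = true := ex3_a s93_pm_102_s s85_pm_102_s

theorem s95_pm_102_s : ∃ t, chk3 f_pm_102_s t 14 13 1 = true := ex3_a k37_pm_102_s k38_pm_102_s

theorem s96_pm_102_s : ∃ t, chk3 f_pm_102_s t 14 6 1 = true := ex3_b k36_pm_102_s s95_pm_102_s

theorem s97_pm_102_s : ∃ t, chk3 f_pm_102_s t 7 6 1 = true := ex3_a s96_pm_102_s k39_pm_102_s

theorem s98_pm_102_s : ∃ t, chk3 f_pm_102_s t 7 3 1 = true := ex3_b s97_pm_102_s s94_pm_102_s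

theorem s99_pm_102_s : ∃ t, chk3 f_pm_102_s t 13 7 1 = true := ex3_b k34_pm_102_s k35_pm_102_s

theorem s100_pm_102_s : ∃ t, chk3 f_pm_102_s t 6 7 1 = true := ex3_a k33_pm_102_s s99_pm_102_s

theorem s101_pm_102_s : ∃ t, chk3 f_pm_102_s t 13 12 1 = true := ex3_a k30_pm_102_s k31_pm_102_s

theorem s102_pm_102_s : ∃ t, chk3 f_pm_102_s t 13 6 1 = true := ex3_b s101_pm_102_s k32_pm_102_s

theorem s103_pm_102_s : ∃ t, chk3 f_pm_102_s t 6 6 1 = true := ex3_a k29_pm_102_s s102_pm_102_s

theorem s104_pm_102_s : ∃ t, chk3 f_pm_102_s t 6 3 1 = true := ex3_b s103_pm_102_s s100_pm_102_s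

theorem s105_pm_102_s : ∃ t, chk3 f_pm_102_s t 3 3 1 = true := ex3_a s104_pm_102_s s98_pm_102_s

theorem s106_pm_102_s : ∃ t, chk3 f_pm_102_s t 25 11 1 = true := ex3_b k25_pm_102_s k26_pm_102_s

theorem s107_pm_102_s : ∃ t, chk3 f_pm_102_s t 24 22 1 = true := ex3_a k22_pm_102_s k23_pm_102_s

theorem s108_pm_102_s : ∃ t, chk3 f_pm_102_s t 24 11 1 = true := ex3_b s107_pm_102_s k24_pm_102_s

theorem s109_pm_102_s : ∃ t, chk3 f_pm_102_s t 12 11 1 = true := ex3_a s108_pm_102_s s106_pm_102_s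

theorem s110_pm_102_s : ∃ t, chk3 f_pm_102_s t 12 5 1 = true := ex3_b k21_pm_102_s s109_pm_102_s

theorem s111_pm_102_s : ∃ t, chk3 f_pm_102_s t 6 5 1 = true := ex3_a s110_pm_102_s k27_pm_102_s

theorem s112_pm_102_s : ∃ t, chk3 f_pm_102_s t 6 2 1 = true := ex3_b k20_pm_102_s s111_pm_102_s

theorem s113_pm_102_s : ∃ t, chk3 f_pm_102_s t 3 2 1 = true := ex3_a s112_pm_102_s k28_pm_102_s

theorem s114_pm_102_s : ∃ t, chk3 f_pm_102_s t 3 1 1 = true := ex3_b s113_pm_102_s s105_pm_102_s

theorem s115_pm_102_s : ∃ t, chk3 f_pm_102_s t 95 86 1 = true := ex3_a k15_pm_102_s k16_pm_102_s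

theorem s116_pm_102_s : ∃ t, chk3 f_pm_102_s t 95 43 1 = true := ex3_b s115_pm_102_s k17_pm_102_s

theorem s117_pm_102_s : ∃ t, chk3 f_pm_102_s t 47 43 1 = true := ex3_a k14_pm_102_s s116_pm_102_s

theorem s118_pm_102_s : ∃ t, chk3 f_pm_102_s t 376 170 2 = true := ex3_b k7_pm_102_s k8_pm_102_s

theorem s119_pm_102_s : ∃ t, chk3 f_pm_102_s t 188 170 2 = true := ex3_a s118_pm_102_s k9_pm_102_s

theorem s120_pm_102_s : ∃ t, chk3 f_pm_102_s t 188 170 1 = true := ex3_c s119_pm_102_s k10_pm_102_s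

theorem s121_pm_102_s : ∃ t, chk3 f_pm_102_s t 188 85 1 = true := ex3_b s120_pm_102_s k11_pm_102_s

theorem s122_pm_102_s : ∃ t, chk3 f_pm_102_s t 94 85 1 = true := ex3_a s121_pm_102_s k12_pm_102_s

theorem s123_pm_102_s : ∃ t, chk3 f_pm_102_s t 94 42 1 = true := ex3_b k6_pm_102_s s122_pm_102_s

theorem s124_pm_102_s : ∃ t, chk3 f_pm_102_s t 47 42 1 = true := ex3_a s123_pm_102_s k13_pm_102_s

theorem s125_pm_102_s : ∃ t, chk3 f_pm_102_s t 47 21 1 = true := ex3_b s124_pm_102_s s117_pm_102_s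

theorem s126_pm_102_s : ∃ t, chk3 f_pm_102_s t 23 21 1 = true := ex3_a k5_pm_102_s s125_pm_102_s

theorem s127_pm_102_s : ∃ t, chk3 f_pm_102_s t 23 10 1 = true := ex3_b k4_pm_102_s s126_pm_102_s

theorem s128_pm_102_s : ∃ t, chk3 f_pm_102_s t 11 10 1 = true := ex3_a k3_pm_102_s s127_pm_102_s

theorem s129_pm_102_s : ∃ t, chk3 f_pm_102_s t 11 5 1 = true := ex3_b s128_pm_102_s k18_pm_102_s

theorem s130_pm_102_s : ∃ t, chk3 f_pm_102_s t 5 5 1 = true := ex3_a k2_pm_102_s s129_pm_102_s

theorem s131_pm_102_s : ∃ t, chk3 f_pm_102_s t 5 2 1 = true := ex3_b k1_pm_102_s s130_pm_102_s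

theorem s132_pm_102_s : ∃ t, chk3 f_pm_102_s t 2 2 1 = true := ex3_a k0_pm_102_s s131_pm_102_s

theorem s133_pm_102_s : ∃ t, chk3 f_pm_102_s t 2 1 1 = true := ex3_b s132_pm_102_s k19_pm_102_s

theorem s134_pm_102_s : ∃ t, chk3 f_pm_102_s t 1 1 1 = true := ex3_a s133_pm_102_s s114_pm_102_s

theorem c_pm_102_s : CertNE 536870912 536870912 0 536870912 740881858 40050571 3 eng mog cd0q1 cd0q2 pd0 false true false .npp 1 0 2
    ndB0q1 ndB0q2 pcB0 cut_pm_102_s Ext.none :=
  certNE0 (fam := false) (s1 := true) (s2 := false) (a := 1) (b := 0) (c := 2) (cn := .npp) (n1 := ndB0q1) (n2 := ndB0q2) (pc := pcB0) (cut := cut_pm_102_s) (xt := Ext.none) (P1 := 536870912) (W1 := 536870912) (P2 := 0) (W2 := 536870912) (P3 := 740881858) (W3 := 40050571) (N0 := 3) (En := eng) (mo := mog) (C1 := cd0q1) (C2 := cd0q2) (C3 := pd0)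
    rfl s134_pm_102_s

noncomputable def cut_pm_102_t : Cut := Cut.of [[⟨3, 0, 0, 2845415833⟩], [⟨0, 1, 0, 53687091⟩, ⟨1, 0, 0, 53687091⟩, ⟨2, 1, 0, 53687091⟩], [⟨0, 0, 1, 20971520⟩, ⟨1, 1, 2, 20971520⟩, ⟨2, 1, 0, 33554432⟩]]

noncomputable def f_pm_102_t : ℕ → ℕ → ℕ → ℕ → Bool := onCell 536870912 536870912 0 536870912 740881858 40050571
    (rowNE 3 eng mog cd0q1 cd0q2 pd0 0 false true false .npp 1 0 2 (qsf 536870912 536870912 0 536870912 0) ndB0q1 ndB0q2 pcB0 cut_pm_102_t Ext.none)

def k0_pm_102_t : ∃ t, chk3 f_pm_102_t t 1 1 1 = true :=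
  ⟨(l 6), by decide +kernel⟩

theorem c_pm_102_t : CertNE 536870912 536870912 0 536870912 740881858 40050571 3 eng mog cd0q1 cd0q2 pd0 false true false .npp 1 0 2
    ndB0q1 ndB0q2 pcB0 cut_pm_102_t Ext.none :=
  certNE0 (fam := false) (s1 := true) (s2 := false) (a := 1) (b := 0) (c := 2) (cn := .npp) (n1 := ndB0q1) (n2 := ndB0q2) (pc := pcB0) (cut := cut_pm_102_t) (xt := Ext.none) (P1 := 536870912) (W1 := 536870912) (P2 := 0) (W2 := 536870912) (P3 := 740881858) (W3 := 40050571) (N0 := 3) (En := eng) (mo := mog) (C1 := cd0q1) (C2 := cd0q2) (C3 := pd0)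
    rfl k0_pm_102_t

noncomputable def cut_pm_112_s : Cut := Cut.of [[⟨4, 0, 0, 1449551462⟩]]

noncomputable def f_pm_112_s : ℕ → ℕ → ℕ → ℕ → Bool := onCell 536870912 536870912 0 536870912 740881858 40050571
    (rowNE 3 eng mog cd0q1 cd0q2 pd1 2 false true false .dn 1 1 2 (qsf 536870912 536870912 0 536870912 1) ndB0q1 ndB0q2 pcB1 cut_pm_112_s Ext.none)

def k0_pm_112_s : ∃ t, chk3 f_pm_112_s t 8 2 1 = true :=
  ⟨(b (a (b (b (l 3) (a (b (l 3) (a (l 3) (b (l 3) (l 149954771687)))) (b (a (l 3) (l 161229035799)) (a (b (l 155323459703) (a (b (l 130627411527) (l 16775048)) (l 16773120))) (b (a (l 101099496743) (l 16773440)) (l 16767176)))))) (b (a (b (a (a (b (l 3) (b (l 122037479607) (l 16774176))) (b (l 146196656423) (l 16772088))) (b (a (a (l 107541967143) (l 37748748231)) (l 16772664)) (l 16765688))) (a (a (l 16761704) (l 16778352)) (l 16772208))) (a (b (l 16767280) (l 16764496)) (a (a (l 16768808) (l 16766944)) (l 16764192)))) (a (a (a (l 16761968) (l 16768624)) (c (l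 16762960) (l 16742384))) (c (l 16752848) (l 16753080))))) (b (b (a (b (l 3) (l 166060870199)) (b (l 167134612071) (a (a (l 142438548855) (b (l 161229041143) (l 16774136))) (b (a (l 106468225383) (l 16774280)) (l 16768712))))) (a (b (a (b (l 158544684903) (a (l 103247000759) (l 16773720))) (b (a (l 104857613319) (l 16773952)) (l 16768064))) (b (l 16774280) (l 16776632))) (a (b (l 16764496) (l 16748848)) (a (l 16756744) (l 16768968))))) (b (a (a (l 16769304) (l 16772896)) (b (l 16729520) (l 16712968))) (a (l 16740456) (b (l 16695632) (l 16698648)))))) (b (a (b (a (a (l 16729208) (l 16681152)) (b (l 16682232) (a (l 16686256) (l 16660680)))) (a (b (a (b (l 16661288) (l 16651832)) (l 16672976)) (l 16634600)) (l 16635128))) (b (a (b (b (l 16675744) (l 16666496)) (l 16653720)) (b (l 16682416) (l 16643688))) (a (l 16626344) (l 16618008)))) (b (a (a (l 16606184) (l 16598664)) (l 16630104)) (a (a (l 16569904) (l 16564088)) (l 6))))), by decide +kernel⟩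

def k1_pm_112_s : ∃ t, chk3 f_pm_112_s t 9 2 1 = true :=
  ⟨(b (b (a (b (a (b (a (b (l 163376522951) (a (l 107005096167) (l 16774384))) (b (a (l 107005095847) (l 16774448)) (l 16769120))) (l 16772088)) (a (l 16779368) (l 16751520))) (a (c (l 16771392) (l 16760000)) (l 16768360))) (b (a (l 16762432) (l 16749368)) (a (l 16734824) (l 16701600)))) (a (b (a (l 16729608) (l 16696768)) (a (b (l 16684136) (l 16688872)) (b (l 16673296) (l 16657400)))) (b (a (b (l 16692720) (l 16677656)) (b (l 16680592) (l 16667520))) (a (l 16655512) (l 16644872))))) (b (a (b (l 16659104) (l 16627112)) (b (l 16620208) (a (l 16594888) (l 6)))) (a (l 6) (l 6)))), by decide +kernel⟩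

def k2_pm_112_s : ∃ t, chk3 f_pm_112_s t 5 2 1 = true :=
  ⟨(a (b (b (a (b (a (l 16736528) (l 16702888)) (a (b (l 16695832) (l 16682368)) (b (l 16683568) (l 16671248)))) (l 1)) (a (b (a (b (l 16670056) (l 16656008)) (l 16651808)) (l 16672064)) (l 1))) (b (a (b (l 16624336) (l 6)) (l 1)) (l 6))) (l 1)), by decide +kernel⟩

def k3_pm_112_s : ∃ t, chk3 f_pm_112_s t 2 3 1 = true :=
  ⟨(a (b (l 6) (l 6)) (l 6)), by decide +kernel⟩

def k4_pm_112_s : ∃ t, chk3 f_pm_112_s t 3 1 1 = true :=
  ⟨(l 1), by decide +kernel⟩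

theorem s5_pm_112_s : ∃ t, chk3 f_pm_112_s t 4 2 1 = true := ex3_a k0_pm_112_s k1_pm_112_s

theorem s6_pm_112_s : ∃ t, chk3 f_pm_112_s t 2 2 1 = true := ex3_a s5_pm_112_s k2_pm_112_s

theorem s7_pm_112_s : ∃ t, chk3 f_pm_112_s t 2 1 1 = true := ex3_b s6_pm_112_s k3_pm_112_s

theorem s8_pm_112_s : ∃ t, chk3 f_pm_112_s t 1 1 1 = true := ex3_a s7_pm_112_s k4_pm_112_s

theorem c_pm_112_s : CertNE 536870912 536870912 0 536870912 740881858 40050571 3 eng mog cd0q1 cd0q2 pd1 false true false .dn 1 1 2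
    ndB0q1 ndB0q2 pcB1 cut_pm_112_s Ext.none :=
  certNE2 (fam := false) (s1 := true) (s2 := false) (a := 1) (b := 1) (c := 2) (cn := .dn) (n1 := ndB0q1) (n2 := ndB0q2) (pc := pcB1) (cut := cut_pm_112_s) (xt := Ext.none) (P1 := 536870912) (W1 := 536870912) (P2 := 0) (W2 := 536870912) (P3 := 740881858) (W3 := 40050571) (N0 := 3) (En := eng) (mo := mog) (C1 := cd0q1) (C2 := cd0q2) (C3 := pd1)
    rfl (fun _ => rfl) s8_pm_112_s

noncomputable def cut_pm_112_t : Cut := Cut.of [[⟨3, 0, 0, 2845415833⟩]]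

noncomputable def f_pm_112_t : ℕ → ℕ → ℕ → ℕ → Bool := onCell 536870912 536870912 0 536870912 740881858 40050571
    (rowNE 3 eng mog cd0q1 cd0q2 pd1 0 false true false .dn 1 1 2 (qsf 536870912 536870912 0 536870912 1) ndB0q1 ndB0q2 pcB1 cut_pm_112_t Ext.none)

def k0_pm_112_t : ∃ t, chk3 f_pm_112_t t 1 1 1 = true :=
  ⟨(l 6), by decide +kernel⟩

theorem c_pm_112_t : CertNE 536870912 536870912 0 536870912 740881858 40050571 3 eng mog cd0q1 cd0q2 pd1 false true false .dn 1 1 2
    ndB0q1 ndB0q2 pcB1 cut_pm_112_t Ext.none :=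
  certNE0 (fam := false) (s1 := true) (s2 := false) (a := 1) (b := 1) (c := 2) (cn := .dn) (n1 := ndB0q1) (n2 := ndB0q2) (pc := pcB1) (cut := cut_pm_112_t) (xt := Ext.none) (P1 := 536870912) (W1 := 536870912) (P2 := 0) (W2 := 536870912) (P3 := 740881858) (W3 := 40050571) (N0 := 3) (En := eng) (mo := mog) (C1 := cd0q1) (C2 := cd0q2) (C3 := pd1)
    rfl k0_pm_112_t

noncomputable def cut_pm_202_s : Cut := Cut.of [[⟨4, 0, 0, 1449551462⟩], [⟨0, 1, 0, 67108864⟩, ⟨1, 0, 0, 67108864⟩, ⟨2, 1, 0, 67108864⟩]]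

noncomputable def f_pm_202_s : ℕ → ℕ → ℕ → ℕ → Bool := onCell 0 536870912 0 536870912 740881858 40050571
    (rowNE 3 eng mog cd0q2 cd0q2 pd0 0 false true false .pp 2 0 2 (qsf 0 536870912 0 536870912 0) ndB0q2 ndB0q2 pcB0 cut_pm_202_s Ext.none)

def k0_pm_202_s : ∃ t, chk3 f_pm_202_s t 1 1 1 = true :=
  ⟨(a (l 3) (b (l 3) (b (l 3) (a (l 3) (a (l 3) (b (l 3) (l 14))))))), by decide +kernel⟩

theorem c_pm_202_s : CertNE 0 536870912 0 536870912 740881858 40050571 3 eng mog cd0q2 cd0q2 pd0 false true false .pp 2 0 2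
    ndB0q2 ndB0q2 pcB0 cut_pm_202_s Ext.none :=
  certNE0 (fam := false) (s1 := true) (s2 := false) (a := 2) (b := 0) (c := 2) (cn := .pp) (n1 := ndB0q2) (n2 := ndB0q2) (pc := pcB0) (cut := cut_pm_202_s) (xt := Ext.none) (P1 := 0) (W1 := 536870912) (P2 := 0) (W2 := 536870912) (P3 := 740881858) (W3 := 40050571) (N0 := 3) (En := eng) (mo := mog) (C1 := cd0q2) (C2 := cd0q2) (C3 := pd0)
    rfl k0_pm_202_s

noncomputable def cut_pm_202_t : Cut := Cut.of [[⟨3, 0, 0, 2845415833⟩], [⟨0, 1, 0, 67108864⟩, ⟨1, 0, 0, 67108864⟩, ⟨2, 1, 0, 67108864⟩]]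

noncomputable def f_pm_202_t : ℕ → ℕ → ℕ → ℕ → Bool := onCell 0 536870912 0 536870912 740881858 40050571
    (rowNE 3 eng mog cd0q2 cd0q2 pd0 0 false true false .pp 2 0 2 (qsf 0 536870912 0 536870912 0) ndB0q2 ndB0q2 pcB0 cut_pm_202_t Ext.none)

def k0_pm_202_t : ∃ t, chk3 f_pm_202_t t 1 1 1 = true :=
  ⟨(l 6), by decide +kernel⟩

theorem c_pm_202_t : CertNE 0 536870912 0 536870912 740881858 40050571 3 eng mog cd0q2 cd0q2 pd0 false true false .pp 2 0 2
    ndB0q2 ndB0q2 pcB0 cut_pm_202_t Ext.none :=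
  certNE0 (fam := false) (s1 := true) (s2 := false) (a := 2) (b := 0) (c := 2) (cn := .pp) (n1 := ndB0q2) (n2 := ndB0q2) (pc := pcB0) (cut := cut_pm_202_t) (xt := Ext.none) (P1 := 0) (W1 := 536870912) (P2 := 0) (W2 := 536870912) (P3 := 740881858) (W3 := 40050571) (N0 := 3) (En := eng) (mo := mog) (C1 := cd0q2) (C2 := cd0q2) (C3 := pd0)
    rfl k0_pm_202_t

noncomputable def cut_mm_001_s : Cut := Cut.of [[⟨4, 0, 0, 1449551462⟩]]

noncomputable def f_mm_001_s : ℕ → ℕ → ℕ → ℕ → Bool := onCell 0 536870912 0 536870912 740881858 40050571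
    (rowNE 3 eng mog cd0q0 cd0q1 pd0 1 false false false .up 0 0 1 (qsf 0 536870912 536870912 536870912 0) ndB0q0 ndB0q1 pcB0 cut_mm_001_s Ext.none)

def k0_mm_001_s : ∃ t, chk3 f_mm_001_s t 1 1 1 = true :=
  ⟨(l 3), by decide +kernel⟩

theorem c_mm_001_s : CertNE 0 536870912 536870912 536870912 740881858 40050571 3 eng mog cd0q0 cd0q1 pd0 false false false .up 0 0 1
    ndB0q0 ndB0q1 pcB0 cut_mm_001_s Ext.none :=
  certNE1 (fam := false) (s1 := false) (s2 := false) (a := 0) (b := 0) (c := 1) (cn := .up) (n1 := ndB0q0) (n2 := ndB0q1) (pc := pcB0) (cut := cut_mm_001_s) (xt := Ext.none) (P1 := 0) (W1 := 536870912) (P2 := 536870912) (W2 := 536870912) (P3 := 740881858) (W3 := 40050571) (N0 := 3) (En := eng) (mo := mog) (C1 := cd0q0) (C2 := cd0q1) (C3 := pd0)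
    rfl (fun _ => rfl) k0_mm_001_s

noncomputable def cut_mm_001_t : Cut := Cut.of [[⟨3, 0, 0, 2845415833⟩]]

noncomputable def f_mm_001_t : ℕ → ℕ → ℕ → ℕ → Bool := onCell 0 536870912 536870912 536870912 740881858 40050571
    (rowNE 3 eng mog cd0q0 cd0q1 pd0 0 false false false .up 0 0 1 (qsf 0 536870912 536870912 536870912 0) ndB0q0 ndB0q1 pcB0 cut_mm_001_t Ext.none)

def k0_mm_001_t : ∃ t, chk3 f_mm_001_t t 1 1 1 = true :=
  ⟨(l 6), by decide +kernel⟩

theorem c_mm_001_t : CertNE 0 536870912 536870912 536870912 740881858 40050571 3 eng mog cd0q0 cd0q1 pd0 false false false .up 0 0 1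
    ndB0q0 ndB0q1 pcB0 cut_mm_001_t Ext.none :=
  certNE0 (fam := false) (s1 := false) (s2 := false) (a := 0) (b := 0) (c := 1) (cn := .up) (n1 := ndB0q0) (n2 := ndB0q1) (pc := pcB0) (cut := cut_mm_001_t) (xt := Ext.none) (P1 := 0) (W1 := 536870912) (P2 := 536870912) (W2 := 536870912) (P3 := 740881858) (W3 := 40050571) (N0 := 3) (En := eng) (mo := mog) (C1 := cd0q0) (C2 := cd0q1) (C3 := pd0)
    rfl k0_mm_001_t

noncomputable def cut_mm_011_s : Cut := Cut.of [[⟨4, 0, 0, 1449551462⟩]]

noncomputable def f_mm_011_s : ℕ → ℕ → ℕ → ℕ → Bool := onCell 0 536870912 536870912 536870912 740881858 40050571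
    (rowNE 3 eng mog cd0q0 cd0q1 pd1 1 false false false .pnn 0 1 1 (qsf 0 536870912 536870912 536870912 1) ndB0q0 ndB0q1 pcB1 cut_mm_011_s Ext.none)

def k0_mm_011_s : ∃ t, chk3 f_mm_011_s t 1 1 1 = true :=
  ⟨(l 5), by decide +kernel⟩

theorem c_mm_011_s : CertNE 0 536870912 536870912 536870912 740881858 40050571 3 eng mog cd0q0 cd0q1 pd1 false false false .pnn 0 1 1
    ndB0q0 ndB0q1 pcB1 cut_mm_011_s Ext.none :=
  certNE1 (fam := false) (s1 := false) (s2 := false) (a := 0) (b := 1) (c := 1) (cn := .pnn) (n1 := ndB0q0) (n2 := ndB0q1) (pc := pcB1) (cut := cut_mm_011_s) (xt := Ext.none) (P1 := 0) (W1 := 536870912) (P2 := 536870912) (W2 := 536870912) (P3 := 740881858) (W3 := 40050571) (N0 := 3) (En := eng) (mo := mog) (C1 := cd0q0) (C2 := cd0q1) (C3 := pd1)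
    rfl (fun _ => rfl) k0_mm_011_s

noncomputable def cut_mm_011_t : Cut := Cut.of [[⟨3, 0, 0, 2845415833⟩]]

noncomputable def f_mm_011_t : ℕ → ℕ → ℕ → ℕ → Bool := onCell 0 536870912 536870912 536870912 740881858 40050571
    (rowNE 3 eng mog cd0q0 cd0q1 pd1 0 false false false .pnn 0 1 1 (qsf 0 536870912 536870912 536870912 1) ndB0q0 ndB0q1 pcB1 cut_mm_011_t Ext.none)

def k0_mm_011_t : ∃ t, chk3 f_mm_011_t t 1 1 1 = true :=
  ⟨(l 6), by decide +kernel⟩

theorem c_mm_011_t : CertNE 0 536870912 536870912 536870912 740881858 40050571 3 eng mog cd0q0 cd0q1 pd1 false false false .pnn 0 1 1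
    ndB0q0 ndB0q1 pcB1 cut_mm_011_t Ext.none :=
  certNE0 (fam := false) (s1 := false) (s2 := false) (a := 0) (b := 1) (c := 1) (cn := .pnn) (n1 := ndB0q0) (n2 := ndB0q1) (pc := pcB1) (cut := cut_mm_011_t) (xt := Ext.none) (P1 := 0) (W1 := 536870912) (P2 := 536870912) (W2 := 536870912) (P3 := 740881858) (W3 := 40050571) (N0 := 3) (En := eng) (mo := mog) (C1 := cd0q0) (C2 := cd0q1) (C3 := pd1)
    rfl k0_mm_011_t

noncomputable def cut_mm_012_s : Cut := Cut.of [[⟨4, 0, 0, 1449551462⟩]]

noncomputable def f_mm_012_s : ℕ → ℕ → ℕ → ℕ → Bool := onCell 0 536870912 0 536870912 740881858 40050571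
    (rowNE 3 eng mog cd0q0 cd0q2 pd1 0 false false false .pnp 0 1 2 (qsf 0 536870912 0 536870912 1) ndB0q0 ndB0q2 pcB1 cut_mm_012_s Ext.none)

def k0_mm_012_s : ∃ t, chk3 f_mm_012_s t 1 1 1 = true :=
  ⟨(l 5), by decide +kernel⟩

theorem c_mm_012_s : CertNE 0 536870912 0 536870912 740881858 40050571 3 eng mog cd0q0 cd0q2 pd1 false false false .pnp 0 1 2
    ndB0q0 ndB0q2 pcB1 cut_mm_012_s Ext.none :=
  certNE0 (fam := false) (s1 := false) (s2 := false) (a := 0) (b := 1) (c := 2) (cn := .pnp) (n1 := ndB0q0) (n2 := ndB0q2) (pc := pcB1) (cut := cut_mm_012_s) (xt := Ext.none) (P1 := 0) (W1 := 536870912) (P2 := 0) (W2 := 536870912) (P3 := 740881858) (W3 := 40050571) (N0 := 3) (En := eng) (mo := mog) (C1 := cd0q0) (C2 := cd0q2) (C3 := pd1)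
    rfl k0_mm_012_s

noncomputable def cut_mm_012_t : Cut := Cut.of [[⟨3, 0, 0, 2845415833⟩]]

noncomputable def f_mm_012_t : ℕ → ℕ → ℕ → ℕ → Bool := onCell 0 536870912 0 536870912 740881858 40050571
    (rowNE 3 eng mog cd0q0 cd0q2 pd1 0 false false false .pnp 0 1 2 (qsf 0 536870912 0 536870912 1) ndB0q0 ndB0q2 pcB1 cut_mm_012_t Ext.none)

def k0_mm_012_t : ∃ t, chk3 f_mm_012_t t 1 1 1 = true :=
  ⟨(l 5), by decide +kernel⟩

theorem c_mm_012_t : CertNE 0 536870912 0 536870912 740881858 40050571 3 eng mog cd0q0 cd0q2 pd1 false false false .pnp 0 1 2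
    ndB0q0 ndB0q2 pcB1 cut_mm_012_t Ext.none :=
  certNE0 (fam := false) (s1 := false) (s2 := false) (a := 0) (b := 1) (c := 2) (cn := .pnp) (n1 := ndB0q0) (n2 := ndB0q2) (pc := pcB1) (cut := cut_mm_012_t) (xt := Ext.none) (P1 := 0) (W1 := 536870912) (P2 := 0) (W2 := 536870912) (P3 := 740881858) (W3 := 40050571) (N0 := 3) (En := eng) (mo := mog) (C1 := cd0q0) (C2 := cd0q2) (C3 := pd1)
    rfl k0_mm_012_t

noncomputable def cut_mm_022_s : Cut := Cut.of [[⟨4, 0, 0, 1449551462⟩]]

noncomputable def f_mm_022_s : ℕ → ℕ → ℕ → ℕ → Bool := onCell 0 536870912 0 536870912 740881858 40050571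
    (rowNE 3 eng mog cd0q0 cd0q2 pd2 0 false false false .pp 0 2 2 (qsf 0 536870912 0 536870912 2) ndB0q0 ndB0q2 pcB2 cut_mm_022_s Ext.none)

def k0_mm_022_s : ∃ t, chk3 f_mm_022_s t 1 1 1 = true :=
  ⟨(l 5), by decide +kernel⟩

theorem c_mm_022_s : CertNE 0 536870912 0 536870912 740881858 40050571 3 eng mog cd0q0 cd0q2 pd2 false false false .pp 0 2 2
    ndB0q0 ndB0q2 pcB2 cut_mm_022_s Ext.none :=
  certNE0 (fam := false) (s1 := false) (s2 := false) (a := 0) (b := 2) (c := 2) (cn := .pp) (n1 := ndB0q0) (n2 := ndB0q2) (pc := pcB2) (cut := cut_mm_022_s) (xt := Ext.none) (P1 := 0) (W1 := 536870912) (P2 := 0) (W2 := 536870912) (P3 := 740881858) (W3 := 40050571) (N0 := 3) (En := eng) (mo := mog) (C1 := cd0q0) (C2 := cd0q2) (C3 := pd2)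
    rfl k0_mm_022_s

noncomputable def cut_mm_022_t : Cut := Cut.of [[⟨3, 0, 0, 2845415833⟩]]

noncomputable def f_mm_022_t : ℕ → ℕ → ℕ → ℕ → Bool := onCell 0 536870912 0 536870912 740881858 40050571
    (rowNE 3 eng mog cd0q0 cd0q2 pd2 0 false false false .pp 0 2 2 (qsf 0 536870912 0 536870912 2) ndB0q0 ndB0q2 pcB2 cut_mm_022_t Ext.none)

def k0_mm_022_t : ∃ t, chk3 f_mm_022_t t 1 1 1 = true :=
  ⟨(l 5), by decide +kernel⟩

theorem c_mm_022_t : CertNE 0 536870912 0 536870912 740881858 40050571 3 eng mog cd0q0 cd0q2 pd2 false false false .pp 0 2 2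
    ndB0q0 ndB0q2 pcB2 cut_mm_022_t Ext.none :=
  certNE0 (fam := false) (s1 := false) (s2 := false) (a := 0) (b := 2) (c := 2) (cn := .pp) (n1 := ndB0q0) (n2 := ndB0q2) (pc := pcB2) (cut := cut_mm_022_t) (xt := Ext.none) (P1 := 0) (W1 := 536870912) (P2 := 0) (W2 := 536870912) (P3 := 740881858) (W3 := 40050571) (N0 := 3) (En := eng) (mo := mog) (C1 := cd0q0) (C2 := cd0q2) (C3 := pd2)
    rfl k0_mm_022_t

noncomputable def cut_mm_101_s : Cut := Cut.of [[⟨4, 0, 0, 1449551462⟩]]

noncomputable def f_mm_101_s : ℕ → ℕ → ℕ → ℕ → Bool := onCell 536870912 536870912 536870912 536870912 740881858 40050571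
    (rowNE 3 eng mog cd0q1 cd0q1 pd0 0 false false false .npn 1 0 1 (qsf 536870912 536870912 536870912 536870912 0) ndB0q1 ndB0q1 pcB0 cut_mm_101_s Ext.none)

def k0_mm_101_s : ∃ t, chk3 f_mm_101_s t 1 1 1 = true :=
  ⟨(l 3), by decide +kernel⟩

theorem c_mm_101_s : CertNE 536870912 536870912 536870912 536870912 740881858 40050571 3 eng mog cd0q1 cd0q1 pd0 false false false .npn 1 0 1
    ndB0q1 ndB0q1 pcB0 cut_mm_101_s Ext.none :=
  certNE0 (fam := false) (s1 := false) (s2 := false) (a := 1) (b := 0) (c := 1) (cn := .npn) (n1 := ndB0q1) (n2 := ndB0q1) (pc := pcB0) (cut := cut_mm_101_s) (xt := Ext.none) (P1 := 536870912) (W1 := 536870912) (P2 := 536870912) (W2 := 536870912) (P3 := 740881858) (W3 := 40050571) (N0 := 3) (En := eng) (mo := mog) (C1 := cd0q1) (C2 := cd0q1) (C3 := pd0)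
    rfl k0_mm_101_s

noncomputable def cut_mm_101_t : Cut := Cut.of [[⟨3, 0, 0, 2845415833⟩]]

noncomputable def f_mm_101_t : ℕ → ℕ → ℕ → ℕ → Bool := onCell 536870912 536870912 536870912 536870912 740881858 40050571
    (rowNE 3 eng mog cd0q1 cd0q1 pd0 0 false false false .npn 1 0 1 (qsf 536870912 536870912 536870912 536870912 0) ndB0q1 ndB0q1 pcB0 cut_mm_101_t Ext.none)

def k0_mm_101_t : ∃ t, chk3 f_mm_101_t t 1 1 1 = true :=
  ⟨(l 3), by decide +kernel⟩

theorem c_mm_101_t : CertNE 536870912 536870912 536870912 536870912 740881858 40050571 3 eng mog cd0q1 cd0q1 pd0 false false false .npn 1 0 1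
    ndB0q1 ndB0q1 pcB0 cut_mm_101_t Ext.none :=
  certNE0 (fam := false) (s1 := false) (s2 := false) (a := 1) (b := 0) (c := 1) (cn := .npn) (n1 := ndB0q1) (n2 := ndB0q1) (pc := pcB0) (cut := cut_mm_101_t) (xt := Ext.none) (P1 := 536870912) (W1 := 536870912) (P2 := 536870912) (W2 := 536870912) (P3 := 740881858) (W3 := 40050571) (N0 := 3) (En := eng) (mo := mog) (C1 := cd0q1) (C2 := cd0q1) (C3 := pd0)
    rfl k0_mm_101_t

noncomputable def cut_mm_102_s : Cut := Cut.of [[⟨4, 0, 0, 1449551462⟩]]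

noncomputable def f_mm_102_s : ℕ → ℕ → ℕ → ℕ → Bool := onCell 536870912 536870912 0 536870912 740881858 40050571
    (rowNE 3 eng mog cd0q1 cd0q2 pd0 0 false false false .npp 1 0 2 (qsf 536870912 536870912 0 536870912 0) ndB0q1 ndB0q2 pcB0 cut_mm_102_s Ext.none)

def k0_mm_102_s : ∃ t, chk3 f_mm_102_s t 1 1 1 = true :=
  ⟨(a (l 5) (l 3)), by decide +kernel⟩

theorem c_mm_102_s : CertNE 536870912 536870912 0 536870912 740881858 40050571 3 eng mog cd0q1 cd0q2 pd0 false false false .npp 1 0 2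
    ndB0q1 ndB0q2 pcB0 cut_mm_102_s Ext.none :=
  certNE0 (fam := false) (s1 := false) (s2 := false) (a := 1) (b := 0) (c := 2) (cn := .npp) (n1 := ndB0q1) (n2 := ndB0q2) (pc := pcB0) (cut := cut_mm_102_s) (xt := Ext.none) (P1 := 536870912) (W1 := 536870912) (P2 := 0) (W2 := 536870912) (P3 := 740881858) (W3 := 40050571) (N0 := 3) (En := eng) (mo := mog) (C1 := cd0q1) (C2 := cd0q2) (C3 := pd0)
    rfl k0_mm_102_s

noncomputable def cut_mm_102_t : Cut := Cut.of [[⟨3, 0, 0, 2845415833⟩]]

noncomputable def f_mm_102_t : ℕ → ℕ → ℕ → ℕ → Bool := onCell 536870912 536870912 0 536870912 740881858 40050571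
    (rowNE 3 eng mog cd0q1 cd0q2 pd0 0 false false false .npp 1 0 2 (qsf 536870912 536870912 0 536870912 0) ndB0q1 ndB0q2 pcB0 cut_mm_102_t Ext.none)

def k0_mm_102_t : ∃ t, chk3 f_mm_102_t t 1 1 1 = true :=
  ⟨(l 6), by decide +kernel⟩

theorem c_mm_102_t : CertNE 536870912 536870912 0 536870912 740881858 40050571 3 eng mog cd0q1 cd0q2 pd0 false false false .npp 1 0 2
    ndB0q1 ndB0q2 pcB0 cut_mm_102_t Ext.none :=
  certNE0 (fam := false) (s1 := false) (s2 := false) (a := 1) (b := 0) (c := 2) (cn := .npp) (n1 := ndB0q1) (n2 := ndB0q2) (pc := pcB0) (cut := cut_mm_102_t) (xt := Ext.none) (P1 := 536870912) (W1 := 536870912) (P2 := 0) (W2 := 536870912) (P3 := 740881858) (W3 := 40050571) (N0 := 3) (En := eng) (mo := mog) (C1 := cd0q1) (C2 := cd0q2) (C3 := pd0)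
    rfl k0_mm_102_t

noncomputable def cut_mm_112_s : Cut := Cut.of [[⟨4, 0, 0, 1449551462⟩]]

noncomputable def f_mm_112_s : ℕ → ℕ → ℕ → ℕ → Bool := onCell 536870912 536870912 0 536870912 740881858 40050571
    (rowNE 3 eng mog cd0q1 cd0q2 pd1 2 false false false .dn 1 1 2 (qsf 536870912 536870912 0 536870912 1) ndB0q1 ndB0q2 pcB1 cut_mm_112_s Ext.none)

def k0_mm_112_s : ∃ t, chk3 f_mm_112_s t 1 1 1 = true :=
  ⟨(l 5), by decide +kernel⟩

theorem c_mm_112_s : CertNE 536870912 536870912 0 536870912 740881858 40050571 3 eng mog cd0q1 cd0q2 pd1 false false false .dn 1 1 2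
    ndB0q1 ndB0q2 pcB1 cut_mm_112_s Ext.none :=
  certNE2 (fam := false) (s1 := false) (s2 := false) (a := 1) (b := 1) (c := 2) (cn := .dn) (n1 := ndB0q1) (n2 := ndB0q2) (pc := pcB1) (cut := cut_mm_112_s) (xt := Ext.none) (P1 := 536870912) (W1 := 536870912) (P2 := 0) (W2 := 536870912) (P3 := 740881858) (W3 := 40050571) (N0 := 3) (En := eng) (mo := mog) (C1 := cd0q1) (C2 := cd0q2) (C3 := pd1)
    rfl (fun _ => rfl) k0_mm_112_s

noncomputable def cut_mm_112_t : Cut := Cut.of [[⟨3, 0, 0, 2845415833⟩]]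

noncomputable def f_mm_112_t : ℕ → ℕ → ℕ → ℕ → Bool := onCell 536870912 536870912 0 536870912 740881858 40050571
    (rowNE 3 eng mog cd0q1 cd0q2 pd1 0 false false false .dn 1 1 2 (qsf 536870912 536870912 0 536870912 1) ndB0q1 ndB0q2 pcB1 cut_mm_112_t Ext.none)

def k0_mm_112_t : ∃ t, chk3 f_mm_112_t t 1 1 1 = true :=
  ⟨(l 6), by decide +kernel⟩

theorem c_mm_112_t : CertNE 536870912 536870912 0 536870912 740881858 40050571 3 eng mog cd0q1 cd0q2 pd1 false false false .dn 1 1 2
    ndB0q1 ndB0q2 pcB1 cut_mm_112_t Ext.none :=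
  certNE0 (fam := false) (s1 := false) (s2 := false) (a := 1) (b := 1) (c := 2) (cn := .dn) (n1 := ndB0q1) (n2 := ndB0q2) (pc := pcB1) (cut := cut_mm_112_t) (xt := Ext.none) (P1 := 536870912) (W1 := 536870912) (P2 := 0) (W2 := 536870912) (P3 := 740881858) (W3 := 40050571) (N0 := 3) (En := eng) (mo := mog) (C1 := cd0q1) (C2 := cd0q2) (C3 := pd1)
    rfl k0_mm_112_t

noncomputable def cut_mm_202_s : Cut := Cut.of [[⟨4, 0, 0, 1449551462⟩]]

noncomputable def f_mm_202_s : ℕ → ℕ → ℕ → ℕ → Bool := onCell 0 536870912 0 536870912 740881858 40050571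
    (rowNE 3 eng mog cd0q2 cd0q2 pd0 0 false false false .pp 2 0 2 (qsf 0 536870912 0 536870912 0) ndB0q2 ndB0q2 pcB0 cut_mm_202_s Ext.none)

def k0_mm_202_s : ∃ t, chk3 f_mm_202_s t 1 1 1 = true :=
  ⟨(l 3), by decide +kernel⟩

theorem c_mm_202_s : CertNE 0 536870912 0 536870912 740881858 40050571 3 eng mog cd0q2 cd0q2 pd0 false false false .pp 2 0 2
    ndB0q2 ndB0q2 pcB0 cut_mm_202_s Ext.none :=
  certNE0 (fam := false) (s1 := false) (s2 := false) (a := 2) (b := 0) (c := 2) (cn := .pp) (n1 := ndB0q2) (n2 := ndB0q2) (pc := pcB0) (cut := cut_mm_202_s) (xt := Ext.none) (P1 := 0) (W1 := 536870912) (P2 := 0) (W2 := 536870912) (P3 := 740881858) (W3 := 40050571) (N0 := 3) (En := eng) (mo := mog) (C1 := cd0q2) (C2 := cd0q2) (C3 := pd0)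
    rfl k0_mm_202_s

noncomputable def cut_mm_202_t : Cut := Cut.of [[⟨3, 0, 0, 2845415833⟩]]

noncomputable def f_mm_202_t : ℕ → ℕ → ℕ → ℕ → Bool := onCell 0 536870912 0 536870912 740881858 40050571
    (rowNE 3 eng mog cd0q2 cd0q2 pd0 0 false false false .pp 2 0 2 (qsf 0 536870912 0 536870912 0) ndB0q2 ndB0q2 pcB0 cut_mm_202_t Ext.none)

def k0_mm_202_t : ∃ t, chk3 f_mm_202_t t 1 1 1 = true :=
  ⟨(l 3), by decide +kernel⟩

theorem c_mm_202_t : CertNE 0 536870912 0 536870912 740881858 40050571 3 eng mog cd0q2 cd0q2 pd0 false false false .pp 2 0 2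
    ndB0q2 ndB0q2 pcB0 cut_mm_202_t Ext.none :=
  certNE0 (fam := false) (s1 := false) (s2 := false) (a := 2) (b := 0) (c := 2) (cn := .pp) (n1 := ndB0q2) (n2 := ndB0q2) (pc := pcB0) (cut := cut_mm_202_t) (xt := Ext.none) (P1 := 0) (W1 := 536870912) (P2 := 0) (W2 := 536870912) (P3 := 740881858) (W3 := 40050571) (N0 := 3) (En := eng) (mo := mog) (C1 := cd0q2) (C2 := cd0q2) (C3 := pd0)
    rfl k0_mm_202_t

end Pool.Agent.Strip051.G.I69_7273.Tab.CS.BB00

namespace Pool.Agent.Strip051.G.I69_7273.Tab.CS.BB05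

open Pool.Agent.Strip051.PB Pool.Agent.Strip051.PB.T
open Pool.Agent.Strip051.G.I69_7273.Tab

noncomputable def cut_pp_001_s : Cut := Cut.of [[⟨4, 0, 0, 1449551462⟩]]

noncomputable def f_pp_001_s : ℕ → ℕ → ℕ → ℕ → Bool := onCell 0 536870912 0 536870912 740881858 40050571
    (rowNE 3 eng mog cd0q0 cd5q1 pd0 1 false true true .up 0 0 1 (qsf 0 536870912 536870912 536870912 0) ndB0q0 ndB5q1 pcB0 cut_pp_001_s Ext.none)

def k0_pp_001_s : ∃ t, chk3 f_pp_001_s t 1 1 1 = true :=
  ⟨(l 3), by decide +kernel⟩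

theorem c_pp_001_s : CertNE 0 536870912 536870912 536870912 740881858 40050571 3 eng mog cd0q0 cd5q1 pd0 false true true .up 0 0 1
    ndB0q0 ndB5q1 pcB0 cut_pp_001_s Ext.none :=
  certNE1 (fam := false) (s1 := true) (s2 := true) (a := 0) (b := 0) (c := 1) (cn := .up) (n1 := ndB0q0) (n2 := ndB5q1) (pc := pcB0) (cut := cut_pp_001_s) (xt := Ext.none) (P1 := 0) (W1 := 536870912) (P2 := 536870912) (W2 := 536870912) (P3 := 740881858) (W3 := 40050571) (N0 := 3) (En := eng) (mo := mog) (C1 := cd0q0) (C2 := cd5q1) (C3 := pd0)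
    rfl (fun _ => rfl) k0_pp_001_s

noncomputable def cut_pp_011_s : Cut := Cut.of [[⟨4, 0, 0, 1449551462⟩], [⟨0, 0, 0, 67108864⟩, ⟨1, 1, 0, 67108864⟩, ⟨2, 1, 0, 67108864⟩]]

noncomputable def f_pp_011_s : ℕ → ℕ → ℕ → ℕ → Bool := onCell 0 536870912 536870912 536870912 740881858 40050571
    (rowNE 3 eng mog cd0q0 cd5q1 pd1 1 false true true .pnn 0 1 1 (qsf 0 536870912 536870912 536870912 1) ndB0q0 ndB5q1 pcB1 cut_pp_011_s Ext.none)

def k0_pp_011_s : ∃ t, chk3 f_pp_011_s t 1 1 1 = true :=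
  ⟨(b (l 3) (a (b (l 3) (a (b (l 3) (a (b (l 3) (a (l 14) (l 3))) (l 3))) (l 3))) (l 3))), by decide +kernel⟩

theorem c_pp_011_s : CertNE 0 536870912 536870912 536870912 740881858 40050571 3 eng mog cd0q0 cd5q1 pd1 false true true .pnn 0 1 1
    ndB0q0 ndB5q1 pcB1 cut_pp_011_s Ext.none :=
  certNE1 (fam := false) (s1 := true) (s2 := true) (a := 0) (b := 1) (c := 1) (cn := .pnn) (n1 := ndB0q0) (n2 := ndB5q1) (pc := pcB1) (cut := cut_pp_011_s) (xt := Ext.none) (P1 := 0) (W1 := 536870912) (P2 := 536870912) (W2 := 536870912) (P3 := 740881858) (W3 := 40050571) (N0 := 3) (En := eng) (mo := mog) (C1 := cd0q0) (C2 := cd5q1) (C3 := pd1)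
    rfl (fun _ => rfl) k0_pp_011_s

noncomputable def cut_pp_012_s : Cut := Cut.of [[⟨4, 0, 0, 1449551462⟩], [⟨0, 0, 0, 67108864⟩, ⟨1, 1, 0, 67108864⟩, ⟨2, 1, 0, 67108864⟩]]

noncomputable def f_pp_012_s : ℕ → ℕ → ℕ → ℕ → Bool := onCell 0 536870912 536870912 536870912 740881858 40050571
    (rowNE 3 eng mog cd0q0 cd5q2 pd1 1 false true true .pnp 0 1 2 (qsf 0 536870912 1073741824 536870912 1) ndB0q0 ndB5q2 pcB1 cut_pp_012_s Ext.none)

def k0_pp_012_s : ∃ t, chk3 f_pp_012_s t 1 1 1 = true :=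
  ⟨(b (l 3) (a (b (l 3) (a (a (a (b (l 1) (b (l 3) (l 14))) (l 3)) (l 3)) (l 3))) (l 3))), by decide +kernel⟩

theorem c_pp_012_s : CertNE 0 536870912 1073741824 536870912 740881858 40050571 3 eng mog cd0q0 cd5q2 pd1 false true true .pnp 0 1 2
    ndB0q0 ndB5q2 pcB1 cut_pp_012_s Ext.none :=
  certNE1 (fam := false) (s1 := true) (s2 := true) (a := 0) (b := 1) (c := 2) (cn := .pnp) (n1 := ndB0q0) (n2 := ndB5q2) (pc := pcB1) (cut := cut_pp_012_s) (xt := Ext.none) (P1 := 0) (W1 := 536870912) (P2 := 1073741824) (W2 := 536870912) (P3 := 740881858) (W3 := 40050571) (N0 := 3) (En := eng) (mo := mog) (C1 := cd0q0) (C2 := cd5q2) (C3 := pd1)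
    rfl (fun _ => rfl) k0_pp_012_s

noncomputable def cut_pp_022_s : Cut := Cut.of [[⟨4, 0, 0, 1449551462⟩], [⟨0, 0, 0, 67108864⟩, ⟨1, 1, 0, 67108864⟩, ⟨2, 1, 0, 67108864⟩]]

noncomputable def f_pp_022_s : ℕ → ℕ → ℕ → ℕ → Bool := onCell 0 536870912 1073741824 536870912 740881858 40050571
    (rowNE 3 eng mog cd0q0 cd5q2 pd2 1 false true true .pp 0 2 2 (qsf 0 536870912 1073741824 536870912 2) ndB0q0 ndB5q2 pcB2 cut_pp_022_s Ext.none)

def k0_pp_022_s : ∃ t, chk3 f_pp_022_s t 16 16 1 = true :=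
  ⟨(b (l 14) (a (l 14) (b (l 14) (a (l 14) (b (l 14) (a (l 14) (b (l 14) (l 16740848)))))))), by decide +kernel⟩

def k1_pp_022_s : ∃ t, chk3 f_pp_022_s t 17 32 1 = true :=
  ⟨(a (a (l 14) (l 3)) (l 3)), by decide +kernel⟩

def k2_pp_022_s : ∃ t, chk3 f_pp_022_s t 68 66 1 = true :=
  ⟨(a (l 14) (b (l 14) (b (l 14) (b (l 14) (l 16767720))))), by decide +kernel⟩

def k3_pp_022_s : ∃ t, chk3 f_pp_022_s t 69 132 1 = true :=
  ⟨(a (a (l 14) (l 3)) (l 3)), by decide +kernel⟩

def k4_pp_022_s : ∃ t, chk3 f_pp_022_s t 69 266 1 = true :=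
  ⟨(b (a (a (l 14) (a (a (l 14) (b (l 3) (b (l 14) (b (l 14) (l 16776720))))) (a (b (l 3) (b (l 3) (b (b (l 3) (a (a (l 16777384) (l 3)) (l 3))) (a (c (l 16777088) (l 16777256)) (b (l 3) (c (l 16777256) (l 280414388599))))))) (l 3)))) (l 3)) (a (a (b (l 14) (c (l 16773200) (l 16773224))) (b (b (b (a (l 16776360) (a (c (l 16776952) (c (l 16776952) (l 16777112))) (b (l 597168226743) (a (c (l 16777240) (l 243907166583)) (l 3))))) (a (l 16775928) (a (l 16776680) (a (l 16777224) (c (l 268066357863) (a (l 224579813735) (l 453823693239))))))) (a (l 16775528) (c (l 16776528) (c (l 16776696) (a (l 16776288) (l 16776952)))))) (a (l 16774720) (a (l 16775472) (a (l 16775848) (l 16776104)))))) (a (b (a (a (b (l 3) (a (b (c (l 246054650455) (a (l 202568106311) (l 414095245767))) (l 16777024)) (b (l 3) (c (l 226727297591) (a (l 172503335223) (l 386177958311)))))) (l 3)) (l 3)) (b (a (a (a (l 16776624) (l 16777040)) (a (b (a (c (l 16777184) (l 120426856807)) (a (l 317458481511) (l 457581789591)))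 (l 16776992)) (b (l 3) (b (c (l 16777280) (l 344302027127)) (l 16777336))))) (l 3)) (a (c (l 16776464) (c (l 16776464) (l 16776464))) (a (a (b (a (l 16777320) (c (l 16777264) (l 279877517735))) (l 16776952)) (b (l 604147548535) (a (l 16777136) (c (l 16777248) (l 252497101191))))) (c (l 592336388823) (c (l 603073807047) (l 611126870711))))))) (l 3)))), by decide +kernel⟩

def k5_pp_022_s : ∃ t, chk3 f_pp_022_s t 69 267 1 = true :=
  ⟨(b (a (a (a (l 16771088) (l 16772096)) (a (l 16773600) (b (l 16774648) (l 16773576)))) (a (a (b (c (l 16775648) (l 16775904)) (l 16774576)) (a (b (b (l 16776840) (l 16776136)) (l 16775328)) (b (b (b (a (a (l 16777120) (c (l 16777232) (l 229411651943))) (l 564955971911)) (b (a (l 16776984) (a (l 16777168) (l 388862312743))) (l 16777144))) (l 16776640)) (l 16776000)))) (b (a (b (b (l 3) (a (a (l 536501813543) (l 3)) (l 3))) (b (a (a (a (l 16777088) (l 152639111559)) (c (l 405505311319) (c (l 430201373191) (l 440938791415)))) (l 3)) (a (a (l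 16776880) (c (l 16777128) (l 16777376))) (a (a (l 336248963543) (l 3)) (l 3))))) (l 3)) (a (a (c (l 16776336) (l 16776504)) (b (b (a (c (l 16777112) (l 16777440)) (a (l 304573579719) (l 3))) (a (l 16776848) (l 16777336))) (l 16776568))) (b (b (l 3) (b (l 3) (a (a (l 277193163159) (l 3)) (l 3)))) (b (a (a (l 16777400) (b (l 501068333527) (l 252497101175))) (l 3)) (a (c (l 16776936) (l 16776936)) (b (l 579988357527) (a (l 194515042743) (l 3)))))))))) (a (a (l 16769432) (a (l 16770944) (l 16771952))) (a (a (l 16773616) (b (l 16774504) (l 16773424))) (a (b (c (l 16775504) (l 16775512)) (l 16774424)) (a (b (b (l 16776528) (l 16775992)) (l 16775184)) (b (b (b (a (l 16777040) (a (l 175187689879) (c (l 16777312) (l 410874020279)))) (l 16777064)) (l 16776496)) (l 16775680))))))), by decide +kernel⟩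

def k6_pp_022_s : ∃ t, chk3 f_pp_022_s t 34 67 1 = true :=
  ⟨(a (b (a (b (l 14) (l 16755064)) (b (a (l 16762296) (l 16764152)) (l 16761080))) (a (l 16748024) (l 16755408))) (b (b (b (a (c (l 16768248) (l 16768312)) (a (l 16771952) (a (l 16772808) (a (l 16773560) (l 16774384))))) (a (l 16767416) (a (l 16769128) (l 16771792)))) (a (a (l 16761872) (l 16763848)) (a (l 16765864) (a (l 16767376) (l 16768376))))) (a (b (a (l 16758072) (l 16759664)) (l 16755144)) (b (c (l 16765048) (l 16765160)) (a (l 16757520) (l 16759184)))))), by decide +kernel⟩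

def k7_pp_022_s : ∃ t, chk3 f_pp_022_s t 35 66 1 = true :=
  ⟨(b (l 3) (b (l 3) (b (l 3) (a (a (a (b (a (a (b (b (l 3) (a (b (c (l 16777304) (l 389399183783)) (l 120426856903)) (l 3))) (a (l 16776872) (b (a (l 16777344) (l 324974674391)) (l 16776984)))) (a (b (l 3) (b (l 3) (a (l 16777496) (l 296520516023)))) (l 3))) (l 3)) (a (b (a (l 16776456) (a (l 16776832) (b (a (l 16777144) (l 271287583127)) (l 16776944)))) (c (l 16776160) (l 16776168))) (b (a (b (l 599315710487) (a (a (l 16777128) (l 219211104711)) (l 574619648327))) (l 3)) (b (a (a (l 16776928) (a (l 16777112) (l 190220075431))) (c (l 564955972071) (l 569250939351))) (a (l 16776784) (a (c (l 16777144) (l 16777392)) (l 416242729559))))))) (l 3)) (l 3)) (l 3))))), by decide +kernel⟩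

def k8_pp_022_s : ∃ t, chk3 f_pp_022_s t 70 268 1 = true :=
  ⟨(b (a (b (a (b (a (l 16775624) (a (l 16776376) (a (l 16776752) (a (l 16776936) (b (l 16777352) (l 16776928)))))) (a (l 16775080) (l 16776248))) (a (a (b (b (c (l 429127631687) (l 539723039127)) (a (l 16777440) (c (l 365776863767) (l 372756185623)))) (c (l 16776832) (c (l 16776832) (l 16777000)))) (b (l 3) (b (c (l 267529487191) (c (l 504826429799) (l 514490106199))) (a (l 16777072) (a (l 251960230279) (l 337859576631)))))) (l 3))) (a (c (l 16774768) (c (l 16774776) (l 16775112))) (a (a (l 16776192) (a (l 16776568) (b (l 16777088) (l 16776384)))) (a (b (b (a (b (l 312626643751) (l 191293817255)) (l 3)) (a (l 16777032) (b (l 285246227207) (l 16777368)))) (l 16776960)) (b (l 3) (b (a (b (l 258402681575) (l 16777192)) (l 3)) (a (l 16776992) (a (l 16777176) (l 312626643399))))))))) (l 3)) (a (a (c (l 16773792) (c (l 16773152) (l 16773824))) (a (b (l 16775520) (l 16774104)) (b (a (l 16776272) (b (l 16776712) (l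 16776176))) (l 16775440)))) (b (a (a (a (b (b (a (c (l 16777208) (l 171429593559)) (l 606831903079)) (a (l 16776952) (a (l 16777136) (l 232096006615)))) (l 16776672)) (b (c (l 590725776071) (l 602536936119)) (b (a (c (l 16777176) (l 16777416)) (l 466171724375)) (a (l 16776912) (l 29158801863))))) (b (l 3) (c (l 578914616295) (c (l 590188905415) (a (l 574619648631) (l 3)))))) (l 3)) (a (a (c (l 16776104) (c (l 16776112) (l 16776120))) (a (b (b (a (l 16777464) (l 382956733063)) (c (l 16776992) (l 16777320))) (l 16776592)) (b (a (a (l 505363300663) (l 3)) (l 3)) (b (a (l 16777096) (l 333564609095)) (l 16777280))))) (b (l 3) (b (l 3) (a (a (a (a (l 228337910231) (l 338933318455)) (l 3)) (l 3)) (l 3)))))))), by decide +kernel⟩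

def k9_pp_022_s : ∃ t, chk3 f_pp_022_s t 70 269 1 = true :=
  ⟨(b (a (a (l 16770976) (a (l 16772480) (l 16774136))) (a (a (c (l 16774472) (l 16774816)) (b (c (l 16776024) (l 16776192)) (l 16774936))) (a (b (b (b (a (a (l 16777056) (c (l 16777272) (l 266455745111))) (l 3)) (a (l 16776912) (a (a (l 16777208) (l 271287583479)) (l 3)))) (b (a (l 16776640) (a (l 16777016) (c (l 16777232) (l 213842395671)))) (l 16776784))) (c (l 16775936) (l 16775944))) (a (b (b (l 3) (b (l 3) (a (a (l 16777168) (l 308331676087)) (l 3)))) (b (a (l 16776832) (b (l 153175982631) (l 16776944))) (l 16776416))) (b (l 3) (b (b (l 603073806855) (a (l 127943049735) (l 481204109927))) (a (l 16776792) (b (l 16777488) (l 16776904))))))))) (a (a (l 16768792) (l 16770800)) (c (a (l 16772792) (c (l 16774792) (l 16775288))) (a (l 16773480) (a (l 16774320) (b (l 16775856) (l 16774768))))))), by decide +kernel⟩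

def k10_pp_022_s : ∃ t, chk3 f_pp_022_s t 71 134 1 = true :=
  ⟨(b (l 3) (a (a (b (a (a (b (l 3) (b (l 3) (b (l 568714068423) (a (l 16777472) (l 399599731319))))) (l 3)) (l 3)) (a (a (b (a (l 16776472) (b (l 16777320) (l 16776448))) (l 16775504)) (b (b (b (l 523080040839) (a (l 16777104) (l 340007060055))) (c (l 16776824) (l 16776824))) (l 16776008))) (a (b (b (l 3) (a (b (l 315847868983) (l 16777056)) (c (l 249275876791) (l 481740980535)))) (c (l 16776504) (l 16776832))) (b (l 3) (b (b (a (l 248739004983) (l 3)) (a (l 16777016) (l 224042942999))) (l 16776728)))))) (a (b (l 3) (b (l 3) (b (l 3) (a (b (a (l 180556399175) (l 3)) (a (l 16776968) (l 153712853543))) (l 601463194311))))) (l 3))) (l 3))), by decide +kernel⟩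

def k11_pp_022_s : ∃ t, chk3 f_pp_022_s t 70 135 1 = true :=
  ⟨(a (b (a (l 16765520) (l 16768832)) (l 16764752)) (b (a (c (l 16769496) (l 16770872)) (b (a (l 16772120) (l 16773120)) (l 16770432))) (c (l 16767408) (l 16767504)))), by decide +kernel⟩

def k12_pp_022_s : ∃ t, chk3 f_pp_022_s t 71 135 1 = true :=
  ⟨(b (b (a (a (a (a (l 16773872) (l 16775024)) (b (l 16775992) (l 16774576))) (a (b (a (l 16776576) (b (b (a (l 16777512) (l 482277851735)) (a (l 16776920) (l 16777488))) (l 16776640))) (l 16775896)) (a (b (b (c (l 573009035911) (l 583746454135)) (b (a (l 16777136) (l 395304764007)) (l 16777320))) (l 16776320)) (b (a (b (l 3) (l 518248202647)) (l 3)) (b (b (a (l 16777096) (l 334638350919)) (l 16776952)) (l 16776544)))))) (a (a (b (l 3) (b (a (a (l 485499076935) (l 3)) (l 3)) (a (b (a (l 16777048) (l 260550165079)) (l 16776904)) (a (b (l 3) (l 238001586727)) (l 3))))) (l 3)) (l 3))) (b (a (a (l 16772984) (a (l 16774480) (l 16775472))) (a (a (a (l 16776224) (a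 (l 16776592) (b (b (l 193441301079) (l 16776976)) (l 16776568)))) (b (a (a (b (l 3) (l 16777536)) (l 3)) (l 3)) (a (c (l 16776936) (l 16777432)) (b (l 590725775847) (a (l 16777168) (l 453286822503)))))) (l 3))) (a (a (l 16771888) (l 16774536)) (a (a (l 16775376) (a (l 16776120) (a (l 16776496) (b (l 16777336) (l 16776472))))) (a (a (b (b (l 539186168231) (a (l 16777120) (l 364703122039))) (l 16777168)) (b (l 3) (b (l 499457720679) (a (l 16777080) (l 292762419831))))) (l 3)))))) (b (a (c (l 16772200) (a (l 16770272) (l 16772256))) (a (c (l 16774216) (c (l 16774232) (l 16774904))) (a (c (l 16776368) (c (l 16776056) (b (l 16776280) (l 16775192)))) (a (b (b (c (l 200420623367) (b (l 348596994887) (l 101099504279))) (l 16776744)) (l 16775920)) (b (b (l 3) (c (l 16777848) (b (l 307794805511) (l 16777416)))) (l 16776416)))))) (a (c (l 16769008) (l 16769080)) (a (l 16772688) (a (l 16773528) (a (l 16774272) (l 16775424))))))), by decide +kernel⟩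

def k13_pp_022_s : ∃ t, chk3 f_pp_022_s t 8 17 1 = true :=
  ⟨(a (a (b (b (l 14) (a (l 14) (a (l 14) (l 16690392)))) (b (a (l 16658360) (l 16669008)) (a (b (l 16644144) (l 16634688)) (b (l 16654904) (l 16645512))))) (b (a (b (b (l 14) (l 16722568)) (b (l 16702720) (l 16693368))) (b (a (b (l 16728904) (l 16719536)) (b (b (l 16736152) (l 16731472)) (l 16724464))) (b (a (l 16710192) (l 16715136)) (l 16703384)))) (b (a (l 16679376) (b (l 16694128) (l 16684840))) (b (a (l 16665384) (l 16675584)) (a (l 16656064) (l 16666336)))))) (b (a (b (a (a (b (c (l 16728224) (l 16728136)) (l 16729320)) (a (l 16742832) (l 16746520))) (b (a (l 16748152) (l 16755408)) (l 16746440))) (b (a (c (l 16712032) (l 16701408)) (l 16731928)) (a (l 16697440) (c (l 16701840) (l 16701616))))) (b (b (a (a (b (l 16760504) (l 16754096)) (b (l 16761728) (l 16759984))) (a (b (c (l 16765680) (l 16767104)) (l 16761304)) (b (a (c (l 16768688) (l 16768768)) (b (l 16773136) (l 16769616))) (c (l 16765240) (l 16765360)))))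 (a (a (l 16748120) (l 16755664)) (a (b (l 16756856) (l 16752856)) (b (l 16760848) (l 16756352))))) (a (a (l 16744760) (l 16744072)) (b (a (l 16747448) (l 16755016)) (l 16740968))))) (a (b (a (b (l 16703912) (l 16694696)) (b (l 16692512) (l 16704304))) (a (b (l 16685528) (l 16676344)) (b (l 16695144) (l 16686000)))) (b (a (l 16718208) (l 16737752)) (b (l 16709160) (l 16700048)))))), by decide +kernel⟩

def k14_pp_022_s : ∃ t, chk3 f_pp_022_s t 9 16 1 = true :=
  ⟨(a (b (l 3) (b (l 3) (a (b (l 3) (a (b (l 3) (a (b (a (a (a (b (a (l 604684419975) (l 3)) (b (a (l 16777384) (a (l 181093270247) (l 311552901895))) (l 16776640))) (b (l 3) (b (l 577840874103) (a (l 16777008) (a (l 135996113559) (l 254644585223)))))) (a (b (l 3) (b (l 3) (l 548849844775))) (l 3))) (l 3)) (a (a (c (l 16775504) (c (l 16775520) (l 16775856))) (b (b (a (a (l 16776960) (a (l 16777464) (l 204178719447))) (c (l 396915377271) (l 515563848151))) (a (l 16776536) (a (l 16776904) (a (l 16777088) (l 151565370039)))))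 (l 16776288))) (b (b (l 3) (a (a (c (l 358260671607) (l 483351593367)) (l 3)) (l 3))) (a (b (a (c (l 16776968) (l 16777296)) (c (l 319605965943) (c (l 342691414999) (l 460266144055)))) (c (l 16776672) (l 16777168))) (b (l 3) (b (l 586430808855) (a (a (l 16777152) (l 403894698615)) (l 3)))))))) (l 3))) (l 3))) (l 3)))) (l 3)), by decide +kernel⟩

def k15_pp_022_s : ∃ t, chk3 f_pp_022_s t 72 136 1 = true :=
  ⟨(a (a (b (b (a (l 16773312) (l 16774960)) (l 16771600)) (l 16769592)) (b (b (b (a (l 16775848) (b (a (l 16776864) (c (l 243370296439) (a (l 173040206615) (l 402284086103)))) (l 16776896))) (c (l 16775232) (l 16775584))) (c (l 16773576) (l 16774264))) (c (l 16770232) (l 16771616)))) (b (b (a (b (a (a (b (l 3) (a (l 140827951831) (l 337859576743))) (l 3)) (l 3)) (a (a (l 16776480) (b (a (l 16777608) (l 286856840103)) (l 16776704))) (b (l 3) (a (b (l 249275876279) (l 16777056)) (l 583746454135))))) (l 3)) (a (b (a (l 16775632) (a (l 16776368) (a (l 16777232) (b (l 197736268615)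 (l 16776712))))) (c (l 16775008) (l 16775032))) (a (a (b (b (l 552071070247) (a (l 16776960) (l 158007821047))) (l 16776256)) (b (b (l 3) (l 505900171735)) (c (l 16776744) (a (l 16776632) (l 16777520))))) (b (l 3) (b (a (l 474224787847) (l 3)) (a (l 16777616) (a (l 252497101751) (l 588041421303)))))))) (b (c (a (l 16773344) (c (l 16775328) (l 16775992))) (a (l 16773384) (a (l 16774856) (a (l 16775600) (b (l 16776632) (l 16775536)))))) (c (l 16773424) (a (l 16771176) (l 16773152)))))), by decide +kernel⟩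

def k16_pp_022_s : ∃ t, chk3 f_pp_022_s t 73 136 1 = true :=
  ⟨(b (l 3) (b (a (a (a (b (a (b (a (l 208473686887) (l 323900933079)) (l 16776848)) (a (b (l 3) (l 170892722951)) (l 545628619447))) (c (l 16776264) (l 16776280))) (b (l 3) (b (a (a (l 16777800) (l 323900932999)) (l 3)) (a (l 16776736) (a (l 16777096) (l 260550165447)))))) (b (l 3) (c (l 599852582871) (a (l 610590000439) (l 3))))) (l 3)) (a (a (a (l 16775264) (b (l 16776152) (l 16775040))) (a (b (b (a (a (l 16777040) (l 217600492391)) (l 565492843079)) (a (l 16776616) (a (l 16776984) (l 177872044807)))) (l 16776032)) (b (c (l 568177198247) (c (l 576767132823) (l 581598971015))) (b (a (l 16777688) (l 364703122647)) (a (l 16776496) (l 16776976)))))) (b (l 3) (b (l 3) (a (c (l 527911879959) (a (c (l 501068333703) (l 507510784631)) (l 3))) (l 3))))))), by decide +kernel⟩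

def k17_pp_022_s : ∃ t, chk3 f_pp_022_s t 36 137 1 = true :=
  ⟨(a (a (b (c (l 16764768) (l 16764904)) (l 16760360)) (b (c (l 16770720) (b (l 16769952) (l 16767744))) (l 16766952))) (a (a (b (b (l 16773536) (l 16770656)) (l 16767304)) (b (b (a (l 16774368) (a (l 16775104) (l 16775928))) (l 16773944)) (c (l 16769240) (l 16769336)))) (b (b (a (b (b (a (a (l 16776920) (a (l 219211105127) (l 331953997431))) (l 3)) (a (l 16776616) (a (a (l 16777848) (l 372756186071)) (l 3)))) (a (l 16775784) (a (l 16776520) (a (l 16777696) (b (l 325511545735) (l 16776856)))))) (b (l 3) (b (l 3) (a (a (a (l 16777088) (l 258402681799)) (l 598778839687)) (l 3))))) (a (c (l 16774592) (l 16775272)) (b (b (a (a (l 16776672) (l 119353115703)) (l 575156519799)) (a (l 16776360) (a (l 16777736) (l 404968441015)))) (a (l 16775528) (c (l 16776496) (l 16777328)))))) (c (b (l 16774320) (l 16771088)) (b (a (l 16772408) (l 16775016)) (l 16772472)))))), by decide +kernel⟩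

def k18_pp_022_s : ∃ t, chk3 f_pp_022_s t 37 68 1 = true :=
  ⟨(b (l 3) (a (a (a (a (b (b (l 3) (b (l 3) (b (c (l 404968441495) (l 519321944759)) (a (l 16776960) (l 304573580535))))) (b (a (l 16775576) (b (l 16776616) (l 16775504))) (l 16773584))) (b (l 3) (b (b (b (a (l 260550165735) (l 3)) (a (l 16776832) (l 218137363655))) (l 16776240)) (l 16774568)))) (b (l 3) (b (b (l 3) (a (b (a (l 182167012455) (l 3)) (a (l 16776704) (l 135459243111))) (l 592873260263))) (b (a (l 16776112) (b (a (l 16777760) (l 433422599383)) (l 16777456))) (l 16775968))))) (a (b (l 3) (b (l 3) (a (b (c (l 552071070791) (l 561197876263)) (a (l 16777352) (b (l 314774127879) (l 16776912)))) (a (b (l 3) (b (l 3) (l 268603229431))) (l 3))))) (l 3))) (l 3))), by decide +kernel⟩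

def k19_pp_022_s : ∃ t, chk3 f_pp_022_s t 36 69 1 = true :=
  ⟨(b (a (a (b (l 16755864) (l 16751576)) (b (l 16759840) (l 16755312))) (a (b (l 16766416) (l 16759264)) (b (c (l 16767688) (l 16770432)) (l 16763200)))) (a (a (l 16746016) (l 16754304)) (a (b (l 16754720) (l 16750240)) (l 16761600)))), by decide +kernel⟩

def k20_pp_022_s : ∃ t, chk3 f_pp_022_s t 37 69 1 = true :=
  ⟨(a (b (b (b (a (c (l 16772784) (a (l 16771864) (l 16773816))) (b (b (a (a (l 16776112) (a (l 16776840) (l 223506072791))) (l 3)) (a (l 16776696) (a (a (l 178408916151) (l 3)) (l 3)))) (a (l 16775192) (a (c (l 16776648) (l 16777720)) (a (b (l 482814723303) (l 16777096)) (l 561197876055)))))) (a (c (l 16770512) (l 16770600)) (a (l 16774816) (c (l 16775456) (c (l 16776784) (a (l 16775000) (l 16776624))))))) (b (a (l 16768280) (c (l 16772192) (l 16773568))) (a (l 16766000) (l 16771264)))) (b (a (l 16762576) (c (l 16766464) (l 16766616))) (a (l 16758016) (l 16761976)))) (a (b (a (b (b (l 3) (a (b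 (b (l 512879493831) (a (l 16776968) (l 308868547831))) (l 16776376)) (b (l 3) (b (l 458118660599) (c (l 16777040) (l 16777864)))))) (c (l 16775328) (b (l 16775840) (l 16772936)))) (b (l 3) (b (b (a (a (l 59223573895) (a (l 205252462071) (l 324437804663))) (l 586430809271)) (a (l 16776080) (a (l 16776800) (a (l 134385501575) (l 248739006007))))) (c (l 16774856) (l 16774888))))) (b (c (l 16773056) (c (l 16773120) (l 16771872))) (l 16768544))) (b (b (l 3) (b (a (a (b (l 3) (l 542407394295)) (l 3)) (l 3)) (b (a (a (a (l 16776656) (a (l 16777000) (l 182703883671))) (c (l 371682445543) (l 490330915607))) (l 3)) (a (c (l 16776240) (a (l 16775784) (l 16778040))) (c (l 484425335991) (a (l 447381242423) (l 3))))))) (a (b (c (l 16773392) (b (l 16774576) (l 16772328))) (l 16768864)) (b (b (a (c (l 16776008) (l 16777008)) (b (b (l 556366037783) (l 191830689335)) (l 16776424))) (l 16775552)) (l 16772792)))))), by decide +kernel⟩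

def k21_pp_022_s : ∃ t, chk3 f_pp_022_s t 18 35 1 = true :=
  ⟨(b (a (a (b (l 16740304) (l 16731512)) (b (a (l 16744528) (l 16752880)) (l 16738800))) (a (b (a (l 16756456) (l 16760408)) (c (l 16752512) (l 16753072))) (a (b (b (l 16761368) (l 16756848)) (l 16750184)) (b (b (l 16767912) (l 16760760)) (l 16754040))))) (a (b (l 16735200) (l 16728080)) (a (c (l 16744320) (l 16744448)) (b (c (l 16754032) (l 16752112)) (l 16736696))))), by decide +kernel⟩

def k22_pp_022_s : ∃ t, chk3 f_pp_022_s t 19 34 1 = true :=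
  ⟨(b (l 3) (a (b (l 3) (a (b (a (b (b (l 3) (a (a (a (l 125258696439) (l 328195901367)) (l 3)) (l 3))) (b (a (a (l 16776272) (a (l 16778288) (l 259476424567))) (l 600926324519)) (a (l 16775624) (a (a (l 16776824) (l 193441302295)) (l 549386716167))))) (l 3)) (b (a (a (l 16773912) (a (l 16775376) (a (l 16776104) (b (l 123648083687) (l 16776024))))) (a (b (a (l 483351593751) (l 3)) (a (l 16778040) (l 437717565991))) (l 3))) (a (c (l 16772576) (l 16772648)) (a (c (l 16775504) (l 16776848)) (b (a (a (l 186998851319) (l 415168989063)) (l 3)) (a (l 16776408) (a (l 16778400) (l 316384741255)))))))) (l 3))) (l 3))), by decide +kernel⟩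

def k23_pp_022_s : ∃ t, chk3 f_pp_022_s t 19 70 1 = true :=
  ⟨(a (a (b (b (b (a (l 16770336) (a (l 16773248) (l 16775840))) (a (l 16768056) (l 16773576))) (a (l 16764648) (c (l 16768448) (l 16768616)))) (a (l 16761832) (c (l 16761608) (l 16764544)))) (b (b (a (b (b (a (c (l 249812749607) (a (l 147270404023) (l 592336389255))) (l 3)) (a (a (l 16776064) (l 90362087527)) (c (l 557976651271) (l 565492844007)))) (a (l 16774832) (b (a (l 16778128) (l 336248965719)) (l 16777488)))) (b (l 3) (a (c (l 499457722087) (c (l 509121398471) (b (l 3) (l 480130368503)))) (l 3)))) (b (a (c (l 16773488) (l 16773552)) (b (a (a (l 16776480) (a (l 16777152) (l 343228286951))) (l 3)) (a (l 16775824) (a (l 163913402663) (l 602000065735))))) (a (l 16773864) (a (l 16774120) (a (l 16775552) (b (l 16778336) (l 16775936))))))) (a (b (l 16770464) (l 16763352)) (b (a (l 16770712) (l 16774584)) (l 16769768))))) (b (a (a (a (b (l 3) (b (l 3) (a (b (l 546702361559) (l 16776856)) (l 534891201303))))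 (l 3)) (l 3)) (l 3)) (b (a (a (b (b (a (l 16777520) (c (l 357723803079) (l 482814723095))) (a (l 16775080) (a (l 16776496) (l 227264170391)))) (c (l 16774296) (l 16774360))) (b (l 3) (b (a (c (l 272361327831) (l 407652794871)) (l 3)) (a (c (l 16776552) (l 16777880)) (l 564955973127))))) (l 3)) (a (b (a (l 16774680) (a (l 16774888) (a (l 16777592) (b (l 344302029415) (l 16776648))))) (a (l 16769808) (c (l 16773520) (l 16773608)))) (a (b (a (b (l 3) (l 469929821159)) (l 3)) (a (a (l 16775896) (b (l 212231784871) (l 16776264))) (a (b (l 3) (l 16778448)) (l 596094486327)))) (l 3)))))), by decide +kernel⟩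

def k24_pp_022_s : ∃ t, chk3 f_pp_022_s t 19 71 1 = true :=
  ⟨(a (b (a (a (l 16749168) (l 16752960)) (a (l 16761976) (b (l 16762696) (l 16758320)))) (a (c (l 16753112) (l 16753984)) (b (l 16752200) (l 16748088)))) (b (a (a (c (l 16764072) (l 16767680)) (b (a (l 16769256) (l 16771120)) (l 16765744))) (b (a (a (l 16774288) (a (l 16774368) (b (l 16777712) (l 16774168)))) (a (b (a (b (l 390472927847) (l 16776760)) (l 502678947079)) (l 16775544)) (b (l 3) (b (l 452213080935) (l 74792832007))))) (a (l 16772048) (c (l 16773040) (b (l 16774264) (l 16772064)))))) (a (b (a (l 16757728) (l 16761392)) (l 16760584)) (a (b (l 16765040) (l 16760752)) (b (l 16771288) (l 16764336)))))), by decide +kernel⟩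

def k25_pp_022_s : ∃ t, chk3 f_pp_022_s t 5 8 1 = true :=
  ⟨(a (b (l 3) (a (b (l 3) (b (l 3) (a (a (a (b (b (c (l 612200616951) (b (l 3) (l 620790550055))) (c (b (a (l 120426860375) (l 539723040727)) (l 16778848)) (b (a (b (l 234243492983) (l 16776400)) (l 547239233447)) (a (l 16774752) (a (l 16776088) (l 114521279223)))))) (b (c (l 16772208) (l 16773608)) (l 16770456))) (a (b (b (l 3) (a (b (l 3) (l 436106953495)) (l 3))) (b (c (l 16774936) (b (l 16778720) (l 16773848))) (l 16770480))) (b (l 3) (b (b (a (a (l 165524016055) (l 276656295207)) (l 527911880103)) (l 16775648)) (l 16773568))))) (b (l 3) (a (a (b (b (l 3) (b (l 472614175719) (l 94120184807))) (c (l 16774064) (l 16774032))) (b (l 3) (b (a (l 16779152) (a (l 164987145143) (l 277193166119))) (l 16774704)))) (b (l 3) (b (a (l 547776104439) (l 3)) (a (b (l 140291083463) (l 16775936)) (c (l 477982885239) (c (l 482814723431) (l 483888465255))))))))) (l 3)))) (l 3))) (l 3)), by decide +kernel⟩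

def k26_pp_022_s : ∃ t, chk3 f_pp_022_s t 4 9 1 = true :=
  ⟨(b (b (a (b (b (a (a (a (l 16626888) (l 16637744)) (a (l 16648312) (l 16658600))) (a (l 16673528) (l 16692192))) (a (a (l 16623464) (l 16626208)) (a (l 16667120) (l 16685504)))) (a (a (a (l 16610864) (l 16621688)) (l 16637368)) (a (l 16657216) (l 16685776)))) (a (a (b (a (l 16701720) (l 16709736)) (l 16708968)) (b (a (l 16717288) (l 16731632)) (a (l 16697888) (l 16704616)))) (a (b (b (a (l 16734704) (c (l 16751248) (l 16752136))) (a (l 16725368) (l 16731768))) (a (l 16711360) (l 16728584))) (b (b (a (c (l 16747928) (l 16748712)) (c (l 16760520) (a (l 16754104) (l 16757672)))) (a (l 16746328) (l 16756240))) (a (b (l 16729272) (l 16720432)) (b (l 16736208) (l 16727304))))))) (a (a (a (b (l 16602720) (l 16588392)) (b (l 16623664) (l 16609320))) (a (b (l 16643312) (l 16625784)) (b (l 16655360) (l 16636416)))) (a (a (b (l 16667920) (l 16648512)) (b (l 16702904) (l 16662920))) (a (b (l 16712064) (l 16678152)) (b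 (c (l 16731656) (l 16721392)) (l 16714536)))))) (a (a (b (b (a (l 16573376) (l 16594216)) (a (l 16557712) (l 16578336))) (a (l 16534312) (l 16554232))) (b (a (b (l 16607744) (l 16590792)) (b (l 16618656) (l 16602000))) (a (l 16566240) (l 16578280)))) (a (a (b (b (l 16630360) (l 16613976)) (l 16591128)) (b (b (l 16644440) (l 16627176)) (l 16625896))) (a (b (b (l 16660280) (l 16642872)) (c (l 16660976) (l 16649912))) (b (b (l 16675680) (l 16657048)) (b (l 16638104) (l 16619320))))))), by decide +kernel⟩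

def k27_pp_022_s : ∃ t, chk3 f_pp_022_s t 20 36 1 = true :=
  ⟨(b (a (b (a (a (a (l 16765336) (l 16766480)) (b (l 16769488) (l 16762208))) (a (b (c (l 16770408) (l 16770360)) (l 16765824)) (b (b (a (l 16774216) (a (l 16775568) (l 16779104))) (l 16772824)) (l 16772016)))) (a (c (l 16752896) (l 16758712)) (a (l 16763944) (a (l 16766704) (l 16768544))))) (a (a (b (b (a (b (c (l 275582554807) (c (l 279877521607) (l 409800278711))) (l 16775528)) (b (l 3) (b (l 330343387207) (l 16778064)))) (c (l 16772944) (l 16774248))) (b (l 16773544) (l 16763632))) (b (b (a (c (l 620790550519) (l 626696130455)) (l 3)) (b (a (a (l 16776384) (a (l 16778664) (l 240685944391))) (c (l 535428073335) (l 537575556951))) (c (l 16778016) (a (l 16774480) (l 16778936))))) (b (c (l 16771896) (l 16771872)) (l 16767184)))) (b (b (l 3) (b (l 3) (a (a (b (l 3) (l 250886491335)) (l 3)) (l 3)))) (b (b (a (a (l 16778408) (b (l 523080041719) (l 135996116359))) (l 3)) (a (l 16775984) (a (b (l 276119423687)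 (l 16776472)) (l 570324682887)))) (b (a (l 16771992) (a (l 16774704) (a (l 16776056) (l 129553664327)))) (a (l 16769640) (l 16773256))))))) (a (a (b (l 16743648) (l 16734424)) (b (a (l 16749320) (l 16753088)) (l 16742016))) (a (b (a (l 16756616) (l 16765392)) (l 16754224)) (b (a (c (l 16763784) (l 16768984)) (b (l 16772352) (l 16765024))) (c (l 16756184) (l 16761376)))))), by decide +kernel⟩

def k28_pp_022_s : ∃ t, chk3 f_pp_022_s t 21 36 1 = true :=
  ⟨(b (a (b (l 3) (a (b (l 3) (a (a (b (c (l 364703126743) (l 490867787111)) (l 16778576)) (b (l 3) (b (l 554755425735) (l 176261434695)))) (l 3))) (l 3))) (l 3)) (a (b (a (b (a (c (l 16773320) (l 16774624)) (b (a (b (l 309942292311) (l 16776576)) (l 579988359415)) (a (l 16774816) (a (l 16776152) (l 146733534791))))) (a (l 16768616) (c (l 16772176) (l 16772168)))) (b (a (a (a (b (l 3) (l 323900936567)) (l 630454226519)) (l 3)) (l 3)) (b (a (a (l 16778632) (a (l 206326206263) (l 509658268935))) (l 3)) (a (l 16775848) (a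 (a (l 16776712) (l 261623910455)) (l 572472166583)))))) (b (a (c (l 16765696) (l 16770920)) (a (l 16773632) (a (l 16773640) (a (l 16774952) (b (l 16778928) (l 16774648)))))) (a (l 16766232) (c (l 16768056) (l 16771992))))) (b (l 3) (a (a (b (b (a (l 481204110679) (l 3)) (a (l 16775952) (a (l 189146337015) (l 367924351287)))) (c (l 16773288) (l 16773296))) (b (l 3) (a (c (l 16779784) (b (l 159618436871) (l 16774712))) (b (l 547239233511) (l 16779032))))) (b (l 3) (a (a (a (b (l 3) (l 282025005079)) (l 608442518727)) (l 3)) (l 3))))))), by decide +kernel⟩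

def k29_pp_022_s : ∃ t, chk3 f_pp_022_s t 10 37 1 = true :=
  ⟨(a (a (b (a (l 16732128) (b (l 16732848) (l 16723312))) (c (l 16727152) (l 16726944))) (b (a (b (l 16739576) (l 16730152)) (b (l 16757248) (l 16737352))) (a (l 16736928) (b (l 16727944) (l 16718528))))) (b (a (a (b (c (l 16753936) (l 16753912)) (l 16744536)) (b (a (l 16764496) (l 16768016)) (l 16756880))) (b (a (a (c (l 16766240) (l 16771504)) (b (l 16773360) (l 16767368))) (b (b (a (c (l 126869310215) (a (l 16775784) (l 225116688679))) (l 624011775527)) (a (l 16774296) (a (l 126869311703) (l 504826431063)))) (a (l 16770792) (c (l 16774160) (l 16776792))))) (a (c (l 16758608) (l 16763888)) (a (l 16769032) (c (l 16767160) (l 16772440)))))) (a (b (a (l 16735152) (l 16742280)) (a (l 16725784) (l 16732944))) (b (a (l 16749304) (c (l 16756160) (l 16756232))) (a (l 16740008) (l 16746944)))))), by decide +kernel⟩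

def k30_pp_022_s : ∃ t, chk3 f_pp_022_s t 11 18 1 = true :=
  ⟨(b (l 3) (a (a (a (b (b (b (l 3) (a (a (b (l 280414393639) (l 16775512)) (b (l 3) (l 177872048727))) (c (l 610053132823) (l 610053132711)))) (a (b (l 16772856) (l 16768216)) (b (b (a (l 16776472) (l 324974679575)) (l 16774992)) (l 16771520)))) (b (c (l 16773392) (l 16768224)) (l 16764216))) (b (b (l 3) (b (a (a (b (l 3) (l 219211109223)) (l 619716808407)) (l 3)) (a (c (l 16774768) (l 16778728)) (b (l 506437044551) (a (l 16776048) (l 251423364071)))))) (b (b (a (l 16770184) (l 16773408)) (l 16772464)) (c (l 16760264) (l 16760408))))) (a (b (l 3) (b (b (a (a (l 16779704) (b (l 383493609143) (l 16776216))) (c (l 490330917783) (l 487109692215))) (a (l 16772016) (c (l 16775104) (l 16780384)))) (a (l 16765168) (l 16770904)))) (b (l 3) (a (b (b (l 3) (b (l 561197877751) (l 172503340711))) (b (l 16773664) (l 16769064))) (b (l 3) (b (b (l 264845139511) (l 16775576)) (l 16772136))))))) (b (l 3) (a (b (l 3) (a (b (a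 (c (l 528448752615) (l 540259911927)) (l 3)) (a (c (l 16775144) (l 16775176)) (c (l 298668006295) (l 272361331367)))) (l 3))) (l 3))))), by decide +kernel⟩

def k31_pp_022_s : ∃ t, chk3 f_pp_022_s t 5 19 1 = true :=
  ⟨(a (b (a (a (b (l 16686984) (l 16668192)) (b (l 16715152) (l 16703008))) (b (a (a (l 16711784) (l 16729504)) (a (b (l 16730728) (l 16721512)) (b (l 16737704) (l 16728488)))) (a (l 16717896) (c (l 16732304) (l 16732376))))) (b (a (a (l 16649472) (l 16663472)) (a (l 16678608) (l 16693392))) (a (a (l 16630904) (l 16645072)) (a (l 16660464) (l 16675488))))) (b (a (b (a (a (b (l 16744528) (l 16735344)) (c (l 16756832) (l 16757216))) (a (b (l 16767952) (l 16748112)) (b (c (l 16763512) (l 16763728)) (l 16754272)))) (b (a (l 16741352) (a (l 16738832) (l 16744952))) (a (l 16731048) (a (l 16729736) (l 16735800))))) (b (a (a (b (c (l 16774920) (l 16775040)) (l 16770856)) (b (b (a (c (l 173577084535) (l 167134633271)) (c (l 517174463095) (l 535964943415))) (a (l 16771960)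 (l 16780192))) (c (l 16776824) (l 16766496)))) (b (a (b (l 3) (a (c (l 273971943959) (l 273435075495)) (l 628306741111))) (l 3)) (b (a (a (l 16773272) (b (l 241222818743) (l 16775072))) (a (c (l 490330916183) (l 503215816887)) (l 3))) (a (l 16775288) (a (l 16779720) (b (l 363629387975) (l 16778840))))))) (a (b (a (l 16751016) (l 16767504)) (a (l 16741792) (l 16747728))) (b (a (l 16773448) (c (l 16774024) (l 16774144))) (c (l 16772112) (l 16769720)))))) (a (b (a (l 16728168) (a (l 16716760) (l 16743672))) (a (l 16689504) (l 16702112))) (b (a (a (l 16749520) (l 16755376)) (a (l 16758512) (a (l 16754936) (l 16763016)))) (a (a (l 16711048) (l 16717000)) (b (l 16750976) (l 16721448))))))), by decide +kernel⟩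

def k32_pp_022_s : ∃ t, chk3 f_pp_022_s t 4 10 1 = true :=
  ⟨(b (b (a (a (b (l 16519760) (l 16502064)) (a (l 16535944) (l 16549624))) (a (a (l 16560904) (l 16570536)) (a (l 16579848) (l 16622056)))) (a (b (a (l 16483160) (l 16513712)) (a (b (l 16467784) (b (l 16458864) (l 16410632))) (b (l 16497400) (b (l 16488552) (l 16482376))))) (b (a (l 16535584) (l 16555880)) (a (b (l 16519976) (b (a (l 16505760) (l 16516256)) (a (l 16499792) (l 16510592)))) (b (a (l 16535240) (l 16547432)) (b (l 16596400) (a (l 16522024) (l 16535024)))))))) (a (a (b (l 16433416) (l 16399224)) (b (l 16488000) (l 16447240))) (a (a (b (l 16458032) (l 16443464)) (b (l 16469128) (l 16455000))) (b (a (l 16522864) (l 16536272)) (a (l 16467296) (l 16481256)))))), by decide +kernel⟩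

def k33_pp_022_s : ∃ t, chk3 f_pp_022_s t 5 10 1 = true :=
  ⟨(b (b (a (a (a (b (l 16612400) (l 16593832)) (b (l 16626832) (l 16608768))) (a (b (l 16642480) (l 16624560)) (b (l 16657536) (l 16639672)))) (a (a (b (l 16671624) (l 16653656)) (b (l 16684312) (l 16666376))) (a (b (l 16696344) (l 16678488)) (b (l 16729224) (l 16690536))))) (a (b (a (a (l 16575344) (l 16591088)) (a (l 16607112) (l 16622032))) (b (a (a (l 16561608) (l 16578080)) (l 16602600)) (a (b (a (l 16554696) (l 16571704)) (a (l 16550096) (l 16567488))) (b (l 16612760) (a (l 16585152) (l 16601248)))))) (b (a (a (l 16635696) (l 16648320)) (a (l 16660432) (l 16672616))) (b (a (l 16660920) (l 16685744)) (a (a (b (l 16618496) (l 16615568)) (b (l 16630360) (l 16627904))) (b (a (l 16641264) (l 16652560)) (a (l 16639000) (c (l 16650680) (l 16649040))))))))) (a (a (a (b (l 16551776) (l 16496808)) (b (b (l 16556800) (l 16539872)) (l 16514448))) (a (b (b (l 16574640) (l 16557552)) (l 16532064)) (b (b (l 16590880)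 (l 16573744)) (l 16527248)))) (a (a (c (l 16611320) (l 16610848)) (c (l 16626320) (l 16623704))) (b (a (l 16620672) (l 16631520)) (b (l 16601136) (l 16585184)))))), by decide +kernel⟩

def k34_pp_022_s : ∃ t, chk3 f_pp_022_s t 2 11 1 = true :=
  ⟨(a (a (a (a (b (l 16340000) (l 16269584)) (b (l 16374912) (l 16283872))) (a (b (l 16366496) (l 16297888)) (b (l 16400136) (b (l 16328160) (l 16295280))))) (a (b (b (a (l 16408640) (l 16420696)) (a (l 16374624) (l 16387248))) (b (a (l 16341464) (l 16354192)) (a (l 16308720) (l 16321736)))) (b (b (a (l 16433552) (l 16447576)) (a (l 16400184) (l 16414464))) (b (a (l 16367400) (l 16381504)) (a (l 16334800) (l 16348952)))))) (a (b (a (b (a (l 16463368) (l 16480776)) (a (l 16430056) (l 16447464))) (b (l 16522320) (l 16473456))) (a (b (a (l 16397120) (l 16414584)) (c (l 16415416) (l 16372632))) (b (l 16441168) (l 16410448)))) (b (a (b (a (l 16487208) (l 16479176)) (l 16504088)) (b (l 16562488) (l 16533888))) (a (b (l 16474512) (l 16447032))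 (b (l 16506856) (l 16481264)))))), by decide +kernel⟩

def k35_pp_022_s : ∃ t, chk3 f_pp_022_s t 2 3 1 = true :=
  ⟨(b (a (b (a (a (b (a (l 16201872) (l 16217480)) (l 16145608)) (a (b (b (l 16248568) (l 16216392)) (l 16169208)) (b (l 16246672) (l 16183856)))) (b (b (a (l 16325000) (a (l 16302632) (l 16316888))) (a (a (l 16244672) (l 16257696)) (a (l 16270968) (l 16285552)))) (a (l 16204424) (c (c (l 16380592) (l 16338440)) (l 16335848))))) (b (a (l 6) (b (a (l 16159368) (l 16191000)) (l 6))) (l 6))) (b (a (b (a (b (a (l 16332880) (l 16351200)) (c (l 16415680) (l 16312368))) (b (l 16381816) (l 16481016))) (a (a (l 16260096) (l 16282512)) (l 16297032))) (b (a (b (l 16421040) (l 16396512)) (l 16466848)) (a (l 16488632) (l 16468512)))) (b (a (a (l 16410888) (l 16295048)) (a (l 16324968) (l 2))) (l 6)))) (l 6)), by decide +kernel⟩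

def k36_pp_022_s : ∃ t, chk3 f_pp_022_s t 3 8 1 = true :=
  ⟨(l 3), by decide +kernel⟩

def k37_pp_022_s : ∃ t, chk3 f_pp_022_s t 6 18 1 = true :=
  ⟨(l 3), by decide +kernel⟩

def k38_pp_022_s : ∃ t, chk3 f_pp_022_s t 12 19 1 = true :=
  ⟨(b (a (b (a (b (l 3) (a (b (l 3) (a (l 581062099447) (l 3))) (l 3))) (l 3)) (a (b (a (b (a (c (l 16780800) (l 16775576)) (c (l 432348856775) (l 305647328391))) (c (l 16772256) (l 16772328))) (b (l 3) (a (c (l 164987150119) (l 163913408119)) (c (l 518248202551) (l 522006297799))))) (a (c (l 16775568) (l 16775736)) (b (a (l 16771840) (l 16779912)) (l 16773760)))) (b (l 3) (a (a (b (a (l 172503342487) (l 290614945031)) (l 16772736)) (b (l 577840872599) (c (l 16780736) (l 16775512)))) (a (b (l 3) (b (l 590725774551) (l 197199404039))) (l 3)))))) (l 3)) (a (b (a (a (b (l 16766472) (l 16747160)) (b (l 16772080) (l 16752752))) (b (b (a (l 16774704) (a (l 16773584) (a (l 16775584) (l 175187697287)))) (a (l 16764912) (l 16775608))) (a (l 16768784)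 (l 16774896)))) (a (b (l 16757120) (l 16748640)) (b (b (l 16769080) (l 16771480)) (l 16761400)))) (b (a (b (a (a (b (c (l 457581788775) (l 320142846055)) (l 16774304)) (b (l 3) (c (l 181630148103) (l 171966471623)))) (b (l 3) (a (l 499994589991) (l 3)))) (a (c (l 16779512) (l 16768928)) (b (a (l 16774880) (a (l 152639117751) (l 257328946807))) (l 16777032)))) (b (l 3) (a (b (a (l 531669973383) (l 3)) (a (l 16780560) (c (l 236927851735) (l 222969208231)))) (b (l 3) (a (l 544018004039) (l 3)))))) (a (b (a (l 16771072) (l 16774752)) (c (l 16766048) (l 16775728))) (b (a (c (l 16780920) (l 16770160)) (b (a (l 16780872) (c (l 249812753495) (l 231559142951))) (l 16772728))) (a (l 16772960) (l 16777480))))))), by decide +kernel⟩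

def k39_pp_022_s : ∃ t, chk3 f_pp_022_s t 13 19 1 = true :=
  ⟨(b (l 3) (a (b (l 3) (a (a (a (b (b (l 534891198343) (l 16781064)) (l 16780656)) (b (b (l 3) (l 269676979031)) (l 16779720))) (b (b (l 3) (a (l 511268878167) (l 3))) (b (a (l 16781152) (l 266992624503)) (l 16778464)))) (b (l 3) (a (b (a (l 475835398087) (l 3)) (a (l 16781128) (l 254107721735))) (b (l 3) (l 457044915431)))))) (l 3))), by decide +kernel⟩

def k40_pp_022_s : ∃ t, chk3 f_pp_022_s t 7 9 1 = true :=
  ⟨(l 3), by decide +kernel⟩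

def k41_pp_022_s : ∃ t, chk3 f_pp_022_s t 6 10 1 = true :=
  ⟨(b (b (a (b (a (a (b (l 16745432) (l 16715760)) (b (l 16746552) (l 16727728))) (a (b (l 16757648) (l 16738912)) (b (c (l 16768176) (l 16777440)) (l 16769992)))) (a (a (l 16702624) (l 16735768)) (a (b (l 16730640) (l 16722056)) (b (l 16740712) (l 16732400))))) (a (b (b (a (a (l 16774144) (l 16778120)) (a (a (l 16780856) (l 16777360)) (b (c (l 157470957127) (l 16776424)) (l 16772800)))) (a (c (l 16769000) (l 16777984)) (a (l 16763352) (l 16777336)))) (b (a (l 16770384) (a (l 16754936) (l 16758416))) (a (l 16761840) (l 16758584)))) (b (a (a (b (b (l 433422595415) (c (l 16781112) (l 16776096))) (l 16778184)) (b (b (l 3) (l 407652791895)) (b (l 112373803015) (l 16771736)))) (b (l 3) (b (a (l 309405430183) (l 3)) (a (l 16781680) (c (l 286319978071) (l 274508819495)))))) (b (a (c (l 16774656) (l 16784016)) (a (l 16779240) (a (l 16776584) (l 2)))) (a (l 16765288) (c (l 16772600) (l 16771552))))))) (b (a (a (a (l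 16684880) (l 16697184)) (a (l 16708744) (l 16739888))) (a (b (a (l 16732416) (l 16750080)) (a (l 16723256) (l 16730936))) (b (a (l 16746184) (l 16765800)) (a (l 16737624) (l 2))))) (a (b (a (l 16709064) (l 16742072)) (a (b (a (l 16664432) (l 16676560)) (b (a (l 16672120) (l 16683432)) (l 16665536))) (b (a (l 16687712) (l 16697504)) (a (l 16682976) (l 16692736))))) (a (b (a (l 16713896) (l 16721376)) (b (a (l 16706456) (l 16713800)) (a (l 16701600) (l 16708824)))) (a (b (l 16728152) (b (l 16720408) (l 16715296))) (l 2)))))) (a (a (b (a (l 16642832) (l 16654672)) (l 16671448)) (a (a (l 16701120) (l 16714328)) (b (l 16675584) (l 16647576)))) (a (b (a (l 16684664) (l 16691784)) (a (l 16656720) (l 16665144))) (b (a (l 16719104) (l 2)) (l 2))))), by decide +kernel⟩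

def k42_pp_022_s : ∃ t, chk3 f_pp_022_s t 7 10 1 = true :=
  ⟨(b (b (b (b (l 3) (l 2)) (l 2)) (l 2)) (l 2)), by decide +kernel⟩

def k43_pp_022_s : ∃ t, chk3 f_pp_022_s t 3 11 1 = true :=
  ⟨(a (a (b (a (b (l 16611736) (l 16563968)) (b (l 16615960) (l 16591248))) (a (b (l 16538648) (l 16515224)) (l 16599744))) (b (a (b (l 16636552) (l 2)) (l 2)) (l 2))) (l 2)), by decide +kernel⟩

def k44_pp_022_s : ∃ t, chk3 f_pp_022_s t 3 3 1 = true :=
  ⟨(a (b (b (a (b (a (l 16483832) (l 2)) (l 2)) (l 2)) (l 2)) (l 2)) (l 2)), by decide +kernel⟩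

theorem s45_pp_022_s : ∃ t, chk3 f_pp_022_s t 3 10 1 = true := ex3_a k41_pp_022_s k42_pp_022_s

theorem s46_pp_022_s : ∃ t, chk3 f_pp_022_s t 3 5 1 = true := ex3_b s45_pp_022_s k43_pp_022_s

theorem s47_pp_022_s : ∃ t, chk3 f_pp_022_s t 6 19 1 = true := ex3_a k38_pp_022_s k39_pp_022_s

theorem s48_pp_022_s : ∃ t, chk3 f_pp_022_s t 6 9 1 = true := ex3_b k37_pp_022_s s47_pp_022_s

theorem s49_pp_022_s : ∃ t, chk3 f_pp_022_s t 3 9 1 = true := ex3_a s48_pp_022_s k40_pp_022_s

theorem s50_pp_022_s : ∃ t, chk3 f_pp_022_s t 3 4 1 = true := ex3_b k36_pp_022_s s49_pp_022_s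

theorem s51_pp_022_s : ∃ t, chk3 f_pp_022_s t 3 2 1 = true := ex3_b s50_pp_022_s s46_pp_022_s

theorem s52_pp_022_s : ∃ t, chk3 f_pp_022_s t 3 1 1 = true := ex3_b s51_pp_022_s k44_pp_022_s

theorem s53_pp_022_s : ∃ t, chk3 f_pp_022_s t 2 10 1 = true := ex3_a k32_pp_022_s k33_pp_022_s

theorem s54_pp_022_s : ∃ t, chk3 f_pp_022_s t 2 5 1 = true := ex3_b s53_pp_022_s k34_pp_022_s

theorem s55_pp_022_s : ∃ t, chk3 f_pp_022_s t 10 36 1 = true := ex3_a k27_pp_022_s k28_pp_022_s

theorem s56_pp_022_s : ∃ t, chk3 f_pp_022_s t 10 18 1 = true := ex3_b s55_pp_022_s k29_pp_022_s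

theorem s57_pp_022_s : ∃ t, chk3 f_pp_022_s t 5 18 1 = true := ex3_a s56_pp_022_s k30_pp_022_s

theorem s58_pp_022_s : ∃ t, chk3 f_pp_022_s t 5 9 1 = true := ex3_b s57_pp_022_s k31_pp_022_s

theorem s59_pp_022_s : ∃ t, chk3 f_pp_022_s t 2 9 1 = true := ex3_a k26_pp_022_s s58_pp_022_s

theorem s60_pp_022_s : ∃ t, chk3 f_pp_022_s t 19 35 1 = true := ex3_b k23_pp_022_s k24_pp_022_s

theorem s61_pp_022_s : ∃ t, chk3 f_pp_022_s t 19 17 1 = true := ex3_b k22_pp_022_s s60_pp_022_s

theorem s62_pp_022_s : ∃ t, chk3 f_pp_022_s t 18 69 1 = true := ex3_a k19_pp_022_s k20_pp_022_s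

theorem s63_pp_022_s : ∃ t, chk3 f_pp_022_s t 36 136 1 = true := ex3_a k15_pp_022_s k16_pp_022_s

theorem s64_pp_022_s : ∃ t, chk3 f_pp_022_s t 36 68 1 = true := ex3_b s63_pp_022_s k17_pp_022_s

theorem s65_pp_022_s : ∃ t, chk3 f_pp_022_s t 18 68 1 = true := ex3_a s64_pp_022_s k18_pp_022_s

theorem s66_pp_022_s : ∃ t, chk3 f_pp_022_s t 18 34 1 = true := ex3_b s65_pp_022_s s62_pp_022_s

theorem s67_pp_022_s : ∃ t, chk3 f_pp_022_s t 18 17 1 = true := ex3_b s66_pp_022_s k21_pp_022_s

theorem s68_pp_022_s : ∃ t, chk3 f_pp_022_s t 9 17 1 = true := ex3_a s67_pp_022_s s61_pp_022_s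

theorem s69_pp_022_s : ∃ t, chk3 f_pp_022_s t 9 8 1 = true := ex3_b k14_pp_022_s s68_pp_022_s

theorem s70_pp_022_s : ∃ t, chk3 f_pp_022_s t 35 135 1 = true := ex3_a k11_pp_022_s k12_pp_022_s

theorem s71_pp_022_s : ∃ t, chk3 f_pp_022_s t 70 134 1 = true := ex3_b k8_pp_022_s k9_pp_022_s

theorem s72_pp_022_s : ∃ t, chk3 f_pp_022_s t 35 134 1 = true := ex3_a s71_pp_022_s k10_pp_022_s

theorem s73_pp_022_s : ∃ t, chk3 f_pp_022_s t 35 67 1 = true := ex3_b s72_pp_022_s s70_pp_022_s

theorem s74_pp_022_s : ∃ t, chk3 f_pp_022_s t 35 33 1 = true := ex3_b k7_pp_022_s s73_pp_022_s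

theorem s75_pp_022_s : ∃ t, chk3 f_pp_022_s t 69 133 1 = true := ex3_b k4_pp_022_s k5_pp_022_s

theorem s76_pp_022_s : ∃ t, chk3 f_pp_022_s t 69 66 1 = true := ex3_b k3_pp_022_s s75_pp_022_s

theorem s77_pp_022_s : ∃ t, chk3 f_pp_022_s t 34 66 1 = true := ex3_a k2_pp_022_s s76_pp_022_s

theorem s78_pp_022_s : ∃ t, chk3 f_pp_022_s t 34 33 1 = true := ex3_b s77_pp_022_s k6_pp_022_s

theorem s79_pp_022_s : ∃ t, chk3 f_pp_022_s t 17 33 1 = true := ex3_a s78_pp_022_s s74_pp_022_s

theorem s80_pp_022_s : ∃ t, chk3 f_pp_022_s t 17 16 1 = true := ex3_b k1_pp_022_s s79_pp_022_s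

theorem s81_pp_022_s : ∃ t, chk3 f_pp_022_s t 8 16 1 = true := ex3_a k0_pp_022_s s80_pp_022_s

theorem s82_pp_022_s : ∃ t, chk3 f_pp_022_s t 8 8 1 = true := ex3_b s81_pp_022_s k13_pp_022_s

theorem s83_pp_022_s : ∃ t, chk3 f_pp_022_s t 4 8 1 = true := ex3_a s82_pp_022_s s69_pp_022_s

theorem s84_pp_022_s : ∃ t, chk3 f_pp_022_s t 2 8 1 = true := ex3_a s83_pp_022_s k25_pp_022_s

theorem s85_pp_022_s : ∃ t, chk3 f_pp_022_s t 2 4 1 = true := ex3_b s84_pp_022_s s59_pp_022_s

theorem s86_pp_022_s : ∃ t, chk3 f_pp_022_s t 2 2 1 = true := ex3_b s85_pp_022_s s54_pp_022_s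

theorem s87_pp_022_s : ∃ t, chk3 f_pp_022_s t 2 1 1 = true := ex3_b s86_pp_022_s k35_pp_022_s

theorem s88_pp_022_s : ∃ t, chk3 f_pp_022_s t 1 1 1 = true := ex3_a s87_pp_022_s s52_pp_022_s

theorem c_pp_022_s : CertNE 0 536870912 1073741824 536870912 740881858 40050571 3 eng mog cd0q0 cd5q2 pd2 false true true .pp 0 2 2
    ndB0q0 ndB5q2 pcB2 cut_pp_022_s Ext.none :=
  certNE1 (fam := false) (s1 := true) (s2 := true) (a := 0) (b := 2) (c := 2) (cn := .pp) (n1 := ndB0q0) (n2 := ndB5q2) (pc := pcB2) (cut := cut_pp_022_s) (xt := Ext.none) (P1 := 0) (W1 := 536870912) (P2 := 1073741824) (W2 := 536870912) (P3 := 740881858) (W3 := 40050571) (N0 := 3) (En := eng) (mo := mog) (C1 := cd0q0) (C2 := cd5q2) (C3 := pd2)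
    rfl (fun _ => rfl) s88_pp_022_s

noncomputable def cut_pp_023_s : Cut := Cut.of [[⟨4, 0, 0, 1449551462⟩]]

noncomputable def f_pp_023_s : ℕ → ℕ → ℕ → ℕ → Bool := onCell 1073741824 536870912 0 1230186008 740881858 40050571
    (rowNE 3 eng mog cd0q0 cd5q3 pd2 2 false true true .up 0 2 3 (qsf 0 536870912 0 1230186008 2) ndB0q0 ndB5q3 pcB2 cut_pp_023_s Ext.none)

def k0_pp_023_s : ∃ t, chk3 f_pp_023_s t 2 2 1 = true :=
  ⟨(l 2), by decide +kernel⟩

def k1_pp_023_s : ∃ t, chk3 f_pp_023_s t 4 3 1 = true :=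
  ⟨(b (l 2) (b (l 2) (l 3))), by decide +kernel⟩

def k2_pp_023_s : ∃ t, chk3 f_pp_023_s t 5 6 1 = true :=
  ⟨(a (l 2) (b (l 2) (a (l 2) (b (l 2) (l 16754768))))), by decide +kernel⟩

def k3_pp_023_s : ∃ t, chk3 f_pp_023_s t 10 14 1 = true :=
  ⟨(a (a (l 3) (a (l 3) (b (l 2) (b (l 2) (b (a (a (l 3) (l 16787568)) (a (a (l 16775008) (l 16773664)) (l 16771560))) (a (a (l 273435100263) (l 16788880)) (a (a (l 16772040) (l 16770616)) (l 16768344)))))))) (b (b (l 2) (l 322760163975)) (b (a (a (l 291084732439) (l 16757264)) (l 16761784)) (a (b (l 16778944) (l 16774840)) (b (l 16733704) (l 16727960)))))), by decide +kernel⟩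

def k4_pp_023_s : ∃ t, chk3 f_pp_023_s t 40 15 1 = true :=
  ⟨(b (l 3) (b (a (l 3) (a (l 3) (b (a (l 3) (b (l 3) (l 291151823335))) (a (b (l 3) (b (l 298668011943) (l 234243501415))) (c (b (l 181630151911) (l 16773600)) (b (l 16776896) (l 16773400))))))) (a (b (l 3) (a (l 3) (b (l 3) (a (l 3) (c (l 301889236343) (l 289541207111)))))) (a (a (b (l 3) (b (c (l 254107724903) (l 240685953447)) (c (l 16774344) (l 16774048)))) (b (b (c (l 430738240295) (l 328195914919)) (b (l 226190437703) (l 16781048))) (b (l 16778168) (l 16768976)))) (b (a (b (c (l 138143606375) (l 16775136)) (l 16781928)) (b (l 16769832) (l 16766048))) (c (l 16779152) (l 16783408))))))), by decide +kernel⟩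

def k5_pp_023_s : ∃ t, chk3 f_pp_023_s t 41 15 1 = true :=
  ⟨(a (b (b (a (l 3) (b (a (l 3) (l 293299321623)) (a (l 3) (c (l 16787216) (l 16776784))))) (a (b (l 3) (a (b (l 3) (l 302426111719)) (b (l 16784160) (l 16775720)))) (a (b (c (l 201494384151) (l 16777136)) (b (l 16773160) (l 16770208))) (b (l 16782160) (l 16766168))))) (b (a (b (a (b (l 220821731991) (l 16780136)) (b (l 16772672) (l 16769448))) (a (b (l 16771568) (l 16768056)) (b (l 16766112) (l 16762664)))) (b (a (l 16776072) (l 16770784)) (b (a (l 16760768) (l 16755640)) (l 16765288)))) (a (b (c (l 16777240) (l 16780488)) (b (l 16754280) (l 16750504))) (b (b (l 16751376) (l 16747856)) (l 16761200))))) (b (a (b (b (a (c (l 16775456) (l 16775696)) (l 16770496)) (a (l 16781488) (l 16766152))) (a (b (l 16766128) (l 16760928)) (b (l 16761528) (l 16756544)))) (b (a (a (b (l 16768080) (l 16763728)) (b (l 16766624) (l 16762224))) (b (b (l 16765368) (l 16763088)) (c (l 16758552) (l 16759728)))) (a (a (b (l 16759040)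 (l 16753872)) (b (l 16757168) (l 16751160))) (b (c (l 16752400) (l 16753696)) (c (l 16745304) (l 16746480)))))) (a (b (a (b (l 16755344) (l 16759776)) (b (l 16751072) (l 16744496))) (b (a (l 16742352) (l 16736648)) (a (l 16734360) (l 16728344)))) (b (a (a (b (l 16747640) (l 16739848)) (b (l 16743792) (l 16735896))) (b (c (l 16738024) (l 16738824)) (c (l 16730832) (l 16730728)))) (a (b (l 16745216) (l 16732608)) (b (l 16733880) (l 16716168))))))), by decide +kernel⟩

def k6_pp_023_s : ∃ t, chk3 f_pp_023_s t 21 15 1 = true :=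
  ⟨(b (b (a (b (l 16769960) (l 16763984)) (b (l 16722136) (l 16715424))) (a (b (a (l 16742968) (l 16728800)) (a (l 16735640) (l 16720976))) (b (l 16707360) (l 16698656)))) (b (b (a (a (l 16727936) (l 16712712)) (l 16689648)) (a (a (l 16719912) (l 16704192)) (l 16680400))) (b (a (l 16735024) (l 16671368)) (a (a (l 16704360) (l 16686752)) (l 16661600))))), by decide +kernel⟩

def k7_pp_023_s : ∃ t, chk3 f_pp_023_s t 11 7 1 = true :=
  ⟨(b (b (a (b (l 16729176) (l 16719928)) (b (l 16654840) (l 16577472))) (a (b (b (l 16711688) (l 16705088)) (a (l 16642976) (l 16681328))) (b (l 16663896) (l 16644512)))) (b (a (b (a (l 16691560) (l 16685328)) (a (l 16673752) (l 16644776))) (b (l 16666144) (b (l 16607640) (l 16596136)))) (b (a (a (l 16653800) (l 16623288)) (a (l 16592072) (l 16559608))) (a (b (l 16674568) (l 16631064)) (b (l 16553064) (l 16535888)))))), by decide +kernel⟩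

def k8_pp_023_s : ∃ t, chk3 f_pp_023_s t 3 1 1 = true :=
  ⟨(a (b (l 2) (b (b (a (l 2) (b (l 16676512) (l 16673432))) (a (b (a (l 16705896) (l 16791760)) (a (l 16686712) (l 16745232))) (b (l 16659872) (a (l 16633360) (l 6))))) (a (b (b (b (l 16648784) (l 16685936)) (b (l 16682880) (a (l 16596784) (l 16551016)))) (b (b (a (l 16593704) (l 16519104)) (a (l 16543960) (l 16480880))) (b (a (l 16508776) (b (l 16447544) (l 16424104))) (a (l 16530728) (l 16387536))))) (a (b (b (l 16581848) (l 16604208)) (b (b (l 16460584) (l 16411496)) (b (l 16358928) (l 16302568)))) (b (l 6) (l 6)))))) (b (l 6) (l 6))), by decide +kernel⟩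

theorem s9_pp_023_s : ∃ t, chk3 f_pp_023_s t 20 15 1 = true := ex3_a k4_pp_023_s k5_pp_023_s

theorem s10_pp_023_s : ∃ t, chk3 f_pp_023_s t 10 15 1 = true := ex3_a s9_pp_023_s k6_pp_023_s

theorem s11_pp_023_s : ∃ t, chk3 f_pp_023_s t 10 7 1 = true := ex3_b k3_pp_023_s s10_pp_023_s

theorem s12_pp_023_s : ∃ t, chk3 f_pp_023_s t 5 7 1 = true := ex3_a s11_pp_023_s k7_pp_023_s

theorem s13_pp_023_s : ∃ t, chk3 f_pp_023_s t 5 3 1 = true := ex3_b k2_pp_023_s s12_pp_023_s

theorem s14_pp_023_s : ∃ t, chk3 f_pp_023_s t 2 3 1 = true := ex3_a k1_pp_023_s s13_pp_023_s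

theorem s15_pp_023_s : ∃ t, chk3 f_pp_023_s t 2 1 1 = true := ex3_b k0_pp_023_s s14_pp_023_s

theorem s16_pp_023_s : ∃ t, chk3 f_pp_023_s t 1 1 1 = true := ex3_a s15_pp_023_s k8_pp_023_s

theorem c_pp_023_s : CertNE 0 536870912 0 1230186008 740881858 40050571 3 eng mog cd0q0 cd5q3 pd2 false true true .up 0 2 3
    ndB0q0 ndB5q3 pcB2 cut_pp_023_s Ext.none :=
  certNE2 (fam := false) (s1 := true) (s2 := true) (a := 0) (b := 2) (c := 3) (cn := .up) (n1 := ndB0q0) (n2 := ndB5q3) (pc := pcB2) (cut := cut_pp_023_s) (xt := Ext.none) (P1 := 0) (W1 := 536870912) (P2 := 0) (W2 := 1230186008) (P3 := 740881858) (W3 := 40050571) (N0 := 3) (En := eng) (mo := mog) (C1 := cd0q0) (C2 := cd5q3) (C3 := pd2)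
    rfl (fun _ => rfl) s16_pp_023_s

noncomputable def cut_pp_033_s : Cut := Cut.of [[⟨4, 0, 0, 1449551462⟩]]

noncomputable def f_pp_033_s : ℕ → ℕ → ℕ → ℕ → Bool := onCell 1610612736 536870912 0 1230186008 740881858 40050571
    (rowNE 3 eng mog cd0q0 cd5q3 pd3 2 false true true .pnn 0 3 3 (qsf 0 536870912 0 1230186008 3) ndB0q0 ndB5q3 pcB3 cut_pp_033_s Ext.none)

def k0_pp_033_s : ∃ t, chk3 f_pp_033_s t 1 1 1 = true :=
  ⟨(b (l 6) (l 6)), by decide +kernel⟩

theorem c_pp_033_s : CertNE 0 536870912 0 1230186008 740881858 40050571 3 eng mog cd0q0 cd5q3 pd3 false true true .pnn 0 3 3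
    ndB0q0 ndB5q3 pcB3 cut_pp_033_s Ext.none :=
  certNE2 (fam := false) (s1 := true) (s2 := true) (a := 0) (b := 3) (c := 3) (cn := .pnn) (n1 := ndB0q0) (n2 := ndB5q3) (pc := pcB3) (cut := cut_pp_033_s) (xt := Ext.none) (P1 := 0) (W1 := 536870912) (P2 := 0) (W2 := 1230186008) (P3 := 740881858) (W3 := 40050571) (N0 := 3) (En := eng) (mo := mog) (C1 := cd0q0) (C2 := cd5q3) (C3 := pd3)
    rfl (fun _ => rfl) k0_pp_033_s

noncomputable def cut_pp_101_s : Cut := Cut.of [[⟨4, 0, 0, 1449551462⟩]]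

noncomputable def f_pp_101_s : ℕ → ℕ → ℕ → ℕ → Bool := onCell 536870912 536870912 536870912 536870912 740881858 40050571
    (rowNE 3 eng mog cd0q1 cd5q1 pd0 0 false true true .npn 1 0 1 (qsf 536870912 536870912 536870912 536870912 0) ndB0q1 ndB5q1 pcB0 cut_pp_101_s Ext.none)

def k0_pp_101_s : ∃ t, chk3 f_pp_101_s t 1 1 1 = true :=
  ⟨(a (l 3) (l 5)), by decide +kernel⟩

theorem c_pp_101_s : CertNE 536870912 536870912 536870912 536870912 740881858 40050571 3 eng mog cd0q1 cd5q1 pd0 false true true .npn 1 0 1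
    ndB0q1 ndB5q1 pcB0 cut_pp_101_s Ext.none :=
  certNE0 (fam := false) (s1 := true) (s2 := true) (a := 1) (b := 0) (c := 1) (cn := .npn) (n1 := ndB0q1) (n2 := ndB5q1) (pc := pcB0) (cut := cut_pp_101_s) (xt := Ext.none) (P1 := 536870912) (W1 := 536870912) (P2 := 536870912) (W2 := 536870912) (P3 := 740881858) (W3 := 40050571) (N0 := 3) (En := eng) (mo := mog) (C1 := cd0q1) (C2 := cd5q1) (C3 := pd0)
    rfl k0_pp_101_s

noncomputable def cut_pp_102_s : Cut := Cut.of [[⟨4, 0, 0, 1449551462⟩]]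

noncomputable def f_pp_102_s : ℕ → ℕ → ℕ → ℕ → Bool := onCell 536870912 536870912 1073741824 536870912 740881858 40050571
    (rowNE 3 eng mog cd0q1 cd5q2 pd0 0 false true true .npp 1 0 2 (qsf 536870912 536870912 1073741824 536870912 0) ndB0q1 ndB5q2 pcB0 cut_pp_102_s Ext.none)

def k0_pp_102_s : ∃ t, chk3 f_pp_102_s t 1 1 1 = true :=
  ⟨(a (l 3) (b (l 5) (l 3))), by decide +kernel⟩

theorem c_pp_102_s : CertNE 536870912 536870912 1073741824 536870912 740881858 40050571 3 eng mog cd0q1 cd5q2 pd0 false true true .npp 1 0 2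
    ndB0q1 ndB5q2 pcB0 cut_pp_102_s Ext.none :=
  certNE0 (fam := false) (s1 := true) (s2 := true) (a := 1) (b := 0) (c := 2) (cn := .npp) (n1 := ndB0q1) (n2 := ndB5q2) (pc := pcB0) (cut := cut_pp_102_s) (xt := Ext.none) (P1 := 536870912) (W1 := 536870912) (P2 := 1073741824) (W2 := 536870912) (P3 := 740881858) (W3 := 40050571) (N0 := 3) (En := eng) (mo := mog) (C1 := cd0q1) (C2 := cd5q2) (C3 := pd0)
    rfl k0_pp_102_s

noncomputable def cut_pp_112_s : Cut := Cut.of [[⟨4, 0, 0, 1449551462⟩]]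

noncomputable def f_pp_112_s : ℕ → ℕ → ℕ → ℕ → Bool := onCell 536870912 536870912 1073741824 536870912 740881858 40050571
    (rowNE 3 eng mog cd0q1 cd5q2 pd1 0 false true true .dn 1 1 2 (qsf 536870912 536870912 1073741824 536870912 1) ndB0q1 ndB5q2 pcB1 cut_pp_112_s Ext.none)

def k0_pp_112_s : ∃ t, chk3 f_pp_112_s t 1 1 1 = true :=
  ⟨(a (l 3) (b (l 5) (l 3))), by decide +kernel⟩

theorem c_pp_112_s : CertNE 536870912 536870912 1073741824 536870912 740881858 40050571 3 eng mog cd0q1 cd5q2 pd1 false true true .dn 1 1 2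
    ndB0q1 ndB5q2 pcB1 cut_pp_112_s Ext.none :=
  certNE0 (fam := false) (s1 := true) (s2 := true) (a := 1) (b := 1) (c := 2) (cn := .dn) (n1 := ndB0q1) (n2 := ndB5q2) (pc := pcB1) (cut := cut_pp_112_s) (xt := Ext.none) (P1 := 536870912) (W1 := 536870912) (P2 := 1073741824) (W2 := 536870912) (P3 := 740881858) (W3 := 40050571) (N0 := 3) (En := eng) (mo := mog) (C1 := cd0q1) (C2 := cd5q2) (C3 := pd1)
    rfl k0_pp_112_s

noncomputable def cut_pp_113_s : Cut := Cut.of [[⟨4, 0, 0, 1449551462⟩], [⟨0, 1, 0, 67108864⟩, ⟨1, 1, 0, 67108864⟩, ⟨2, 2, 0, 16777216⟩]]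

noncomputable def f_pp_113_s : ℕ → ℕ → ℕ → ℕ → Bool := onCell 536870912 536870912 0 1230186008 740881858 40050571
    (rowNE 3 eng mog cd0q1 cd5q3 pd1 2 false true true .nn 1 1 3 (qsf 536870912 536870912 0 1230186008 1) ndB0q1 ndB5q3 pcB1 cut_pp_113_s Ext.none)

def k0_pp_113_s : ∃ t, chk3 f_pp_113_s t 1 1 1 = true :=
  ⟨(b (a (l 2) (a (l 2) (b (a (l 2) (a (l 2) (b (l 14) (l 3)))) (l 3)))) (b (a (a (l 2) (b (l 2) (a (l 2) (l 3)))) (b (l 3) (l 3))) (a (a (b (l 2) (l 3)) (l 3)) (l 3)))), by decide +kernel⟩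

theorem c_pp_113_s : CertNE 536870912 536870912 0 1230186008 740881858 40050571 3 eng mog cd0q1 cd5q3 pd1 false true true .nn 1 1 3
    ndB0q1 ndB5q3 pcB1 cut_pp_113_s Ext.none :=
  certNE2 (fam := false) (s1 := true) (s2 := true) (a := 1) (b := 1) (c := 3) (cn := .nn) (n1 := ndB0q1) (n2 := ndB5q3) (pc := pcB1) (cut := cut_pp_113_s) (xt := Ext.none) (P1 := 536870912) (W1 := 536870912) (P2 := 0) (W2 := 1230186008) (P3 := 740881858) (W3 := 40050571) (N0 := 3) (En := eng) (mo := mog) (C1 := cd0q1) (C2 := cd5q3) (C3 := pd1)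
    rfl (fun _ => rfl) k0_pp_113_s

noncomputable def cut_pp_123_s : Cut := Cut.of [[⟨4, 0, 0, 1449551462⟩], [⟨0, 1, 0, 67108864⟩, ⟨1, 1, 0, 67108864⟩, ⟨2, 2, 0, 16777216⟩]]

noncomputable def f_pp_123_s : ℕ → ℕ → ℕ → ℕ → Bool := onCell 1073741824 536870912 0 1230186008 740881858 40050571
    (rowNE 3 eng mog cd0q1 cd5q3 pd2 2 false true true .npn 1 2 3 (qsf 536870912 536870912 0 1230186008 2) ndB0q1 ndB5q3 pcB2 cut_pp_123_s Ext.none)

def k0_pp_123_s : ∃ t, chk3 f_pp_123_s t 8 2 1 = true :=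
  ⟨(b (b (a (l 14) (a (l 14) (b (l 16727728) (b (l 16771600) (a (l 14) (b (l 16756016) (l 16763168))))))) (a (l 3) (b (a (l 14) (b (a (a (l 14) (b (b (l 14) (a (l 14) (l 16775704))) (b (a (l 14) (l 16775984)) (a (a (l 3) (b (a (l 14) (b (l 281488131351) (l 353428831511))) (l 3))) (b (c (l 280951261847) (l 287930583415)) (c (a (l 347523250919) (l 297594258791)) (a (b (l 334638349639) (l 408189663479)) (l 301352355991)))))))) (b (a (b (l 16770456) (l 16773632)) (l 16766512)) (a (b (a (l 16775728) (l 16775272)) (a (b (l 16776152) (l 16776552)) (l 16776048))) (b (l 16771328) (a (l 16775344) (l 16772936)))))) (a (b (a (l 3) (b (a (l 3) (b (c (l 387251697063) (a (l 3) (l 372756183335))) (l 3))) (l 3))) (l 3)) (b (a (a (b (a (b (b (l 289004324839) (c (l 323364063271) (l 326048415223))) (l 397989115847)) (b (l 16776824) (c (l 320142835047) (b (l 302962968519) (l 345912638615))))) (l 3)) (b (c (l 16779144) (l 281488134007)) (a (b (b (c (l 314237257799) (l 316384738967)) (l 366313732967))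 (l 3)) (b (c (l 16776952) (l 290078067223)) (b (c (l 330880253367) (l 332490866103)) (l 402284083671)))))) (b (a (l 16776392) (l 16775184)) (a (b (l 16776744) (c (l 290078068295) (a (l 297057389863) (l 16776720)))) (l 16776096)))) (a (l 3) (b (a (b (c (a (l 365776861783) (l 305110453223)) (a (l 368461216247) (l 305647320823))) (c (l 396378502455) (l 397989114967))) (a (b (l 16776832) (c (l 314237259175) (b (l 293836163911) (l 336785833351)))) (c (l 16776760) (l 16776472)))) (a (l 3) (a (l 3) (b (c (l 324974673351) (b (l 305110446439) (l 357723798631))) (l 3)))))))))) (l 3)))) (l 3)), by decide +kernel⟩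

def k1_pp_123_s : ∃ t, chk3 f_pp_123_s t 18 8 1 = true :=
  ⟨(b (l 16742680) (a (a (l 16744664) (l 16737960)) (l 16725384))), by decide +kernel⟩

def k2_pp_123_s : ∃ t, chk3 f_pp_123_s t 36 18 1 = true :=
  ⟨(b (a (b (l 16761896) (a (l 16768552) (l 16765824))) (l 16758328)) (a (b (a (b (l 16772720) (a (l 16775344) (l 16774368))) (l 16770816)) (a (b (a (l 16776128) (l 16775688)) (a (b (c (l 16779464) (l 277730037399)) (c (a (l 337859574951) (l 16778368)) (a (l 339470185063) (l 287930584407)))) (l 16780280))) (b (l 16774080) (a (l 16775800) (l 16775160))))) (b (l 16766512) (a (b (l 16771016) (l 16773072)) (l 16769064))))), by decide +kernel⟩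

def k3_pp_123_s : ∃ t, chk3 f_pp_123_s t 36 19 1 = true :=
  ⟨(a (b (b (a (b (a (a (l 3) (a (l 397989115383) (c (l 365239990663) (l 367387474199)))) (b (c (l 292225552263) (a (l 297594261223) (l 16776632))) (c (a (l 368461216471) (l 307794807767)) (a (l 370608700023) (l 307257933623))))) (a (l 3) (c (l 395304759895) (l 395304759607)))) (a (b (b (l 16776288) (l 16779272)) (b (a (c (l 317458484215) (l 316921609927)) (l 16776864)) (a (l 398525986951) (c (l 327659027991) (l 327122157111))))) (b (l 16775880) (c (l 16776704) (l 278266908455))))) (a (l 3) (b (a (l 3) (b (c (a (l 336785833271) (l 16777032)) (a (l 337322704183) (l 16776936))) (a (l 3) (c (l 347523251351) (l 348060122231))))) (l 3)))) (l 3)) (b (b (a (b (l 16774736) (l 16775672)) (l 16772776)) (a (b (a (b (l 16776504) (c (l 268066360311) (l 268066361543))) (l 16776056)) (a (b (c (a (l 358260669431) (l 261623908759)) (a (l 359334411191) (l 262160780343))) (c (l 380272375831) (l 381346117495))) (b (l 16776592)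 (c (l 261623909895) (a (l 308868549687) (l 16776720)))))) (b (l 16775128) (l 16781056)))) (b (a (b (a (l 3) (a (b (l 378661763671) (l 3)) (b (c (l 316384742007) (l 316384739047)) (l 392083536279)))) (l 3)) (b (a (a (b (l 16776840) (b (l 258402683575) (l 340543929783))) (l 16778984)) (l 16776200)) (a (a (l 3) (b (a (l 348596993351) (l 312626645591)) (l 3))) (a (b (l 16776920) (a (l 360408153287) (l 320142838311))) (a (l 265918876823) (l 16776680)))))) (a (l 3) (b (a (l 3) (b (c (l 358797539895) (l 359334410711)) (l 3))) (l 3)))))), by decide +kernel⟩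

def k4_pp_123_s : ∃ t, chk3 f_pp_123_s t 37 9 1 = true :=
  ⟨(b (b (l 16745792) (a (b (l 16759976) (l 16765064)) (l 16754792))) (b (a (b (l 16768848) (a (l 16773440) (l 16771048))) (b (l 16763944) (l 16767632))) (a (a (b (b (l 16775248) (a (l 16776264) (l 16775608))) (b (a (a (b (l 261087038423) (a (l 386177956775) (l 324437798743))) (b (l 16776648) (l 257865813047))) (l 16776328)) (a (c (l 378124891687) (l 378661762391)) (a (b (l 255181458519) (l 359871282119)) (b (l 16776712) (l 253033974871)))))) (b (l 16784424) (c (l 16781080) (l 16780784)))) (b (a (l 16771712) (l 16769600)) (a (l 16784848) (l 16772408)))))), by decide +kernel⟩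

def k5_pp_123_s : ∃ t, chk3 f_pp_123_s t 19 4 1 = true :=
  ⟨(b (a (l 16684280) (l 16668448)) (b (a (l 16734384) (l 16717912)) (a (b (a (l 16759960) (l 16751944)) (a (l 16768248) (l 16763880))) (b (l 16739032) (a (l 16757368) (l 16748440)))))), by decide +kernel⟩

def k6_pp_123_s : ∃ t, chk3 f_pp_123_s t 18 5 1 = true :=
  ⟨(b (a (l 3) (b (a (b (a (a (l 3) (a (l 3) (b (c (l 389936050727) (l 389936050439)) (l 3)))) (b (a (b (b (c (l 254644587543) (l 255181459127)) (c (l 333564607655) (l 333027736695))) (b (l 399599728503) (l 3))) (b (l 16776448) (b (c (l 251960233159) (l 253033975575)) (c (l 338396445703) (l 338396445655))))) (b (a (l 3) (l 410337145735)) (l 3)))) (l 3)) (b (a (b (c (l 16780840) (l 16780968)) (a (b (b (c (l 250349620599) (l 251960233735)) (c (l 341080800167) (l 341080800103))) (l 3)) (b (l 16776560) (b (c (l 303499840871) (l 250886491863)) (c (l 340007058247) (l 339470187271)))))) (b (l 16774792) (b (l 16775696) (a (l 16776616) (l 16776016))))) (a (l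 3) (b (a (b (c (l 318532222151) (l 319605963959)) (l 3)) (b (l 16776632) (c (l 317995351239) (l 319605963943)))) (l 3))))) (l 3))) (l 3)), by decide +kernel⟩

def k7_pp_123_s : ∃ t, chk3 f_pp_123_s t 19 5 1 = true :=
  ⟨(b (a (b (a (b (b (a (l 16773064) (l 16771272)) (a (l 16774576) (l 16773360))) (a (b (b (l 16775592) (l 16780168)) (a (b (c (l 316384743447) (l 317458480311)) (l 3)) (b (l 16776560) (l 313700383975)))) (b (l 16774400) (l 16781224)))) (b (l 16769544) (a (b (l 16773304) (l 16774352)) (l 16772016)))) (a (b (a (l 3) (b (a (b (l 308331680567) (l 3)) (b (l 16776488) (l 302962971415))) (l 385104210999))) (l 3)) (b (a (b (l 16780976) (a (b (l 297057391575) (l 374903666583)) (l 254107720215))) (b (l 16774408) (l 16780888))) (a (b (a (l 3) (l 370071827607)) (l 3)) (b (a (b (l 282561877111) (l 355576314327)) (l 261087044807)) (a (l 3) (l 327122155287))))))) (b (b (a (l 16765504) (l 16759840)) (a (a (l 16769872) (l 16767736)) (l 16764896))) (a (b (a (b (l 16772184)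 (l 16773624)) (l 16770304)) (a (b (l 16775128) (a (l 286856849959) (l 16776224))) (b (l 16772768) (l 16774560)))) (b (a (l 16768080) (l 16766104)) (a (l 16792256) (l 16768888)))))) (a (l 3) (b (a (b (a (b (a (l 3) (l 310479157399)) (l 3)) (b (a (l 271824465575) (l 16775776)) (a (l 378124890647) (l 290614946087)))) (l 3)) (b (a (b (l 16774032) (a (l 16776480) (l 16775296))) (b (l 16771784) (l 16773560))) (a (b (a (l 351281345767) (l 266455758871)) (l 3)) (b (l 16785864) (a (l 328732784007) (l 16776592)))))) (a (l 3) (b (a (l 3) (b (l 351281343543) (l 3))) (l 3)))))), by decide +kernel⟩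

def k8_pp_123_s : ∃ t, chk3 f_pp_123_s t 5 2 1 = true :=
  ⟨(a (b (a (a (b (l 16659840) (b (l 16704800) (l 16728136))) (b (a (l 16654000) (b (l 6) (l 16668144))) (a (l 16704432) (c (l 16700176) (l 16690648))))) (b (l 16702440) (l 16687664))) (a (a (b (b (b (l 16746168) (a (l 16759896) (l 16751976))) (a (b (l 16763752) (l 16766488)) (b (l 16759736) (l 16764088)))) (b (a (b (a (l 16770728) (l 16769048)) (a (b (l 16773416) (l 16775072)) (l 16772720))) (b (l 16767592) (a (l 16771136) (l 16770000)))) (a (b (a (b (l 235854123351) (l 326585303415)) (b (l 16774752) (l 16776040))) (a (l 3) (b (l 298131145383) (l 335175235095)))) (b (a (l 16773696) (l 16772080)) (a (b (l 16775416) (l 16787032)) (l 16774072)))))) (b (a (b (l 16736880) (l 16829912)) (b (a (l 16729040) (l 16722424)) (a (l 16750256) (l 16743568)))) (a (b (b (l 16765688) (l 16768064)) (b (a (l 16770384) (l 16768952)) (a (l 16772176) (l 16770176)))) (b (a (l 16764648) (a (a (l 16763344) (l 16762184)) (l 16823032)))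 (a (l 16767712) (a (l 16786416) (a (l 16806320) (l 16763936)))))))) (b (b (a (l 16715904) (l 16710584)) (l 16795272)) (b (a (l 16754328) (l 16745512)) (a (l 16823984) (l 16752040)))))) (b (b (l 6) (a (l 16681624) (l 16617888))) (b (b (l 16700320) (a (l 16719704) (l 16706808))) (a (b (l 16732992) (l 16801384)) (b (l 16715776) (l 16720864)))))), by decide +kernel⟩

def k9_pp_123_s : ∃ t, chk3 f_pp_123_s t 3 2 1 = true :=
  ⟨(a (b (l 6) (a (b (a (l 16691448) (l 6)) (a (b (l 16702504) (l 16705368)) (l 16692680))) (l 6))) (l 6)), by decide +kernel⟩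

def k10_pp_123_s : ∃ t, chk3 f_pp_123_s t 1 6 1 = true :=
  ⟨(a (a (l 3) (a (a (a (b (b (a (l 3) (b (a (b (l 295446792583) (l 3)) (b (l 16775744) (l 16787136))) (a (l 3) (l 301352381399)))) (l 3)) (l 3)) (b (a (b (a (b (l 16774192) (l 222432358423)) (b (l 16772024) (l 16774128))) (a (b (l 292762446087) (l 3)) (b (l 221358623463) (l 281488166423)))) (b (a (b (l 16790872) (a (l 16772360) (l 16771160))) (a (a (l 16790392) (l 16789928)) (a (l 16789432) (l 16767912)))) (a (b (a (l 16774328) (l 16773056)) (a (l 16797152) (l 16774888))) (b (a (a (l 16772040) (l 16771456)) (l 16770632)) (a (a (l 16773792) (l 16772872)) (b (l 16771664) (l 16772216))))))) (a (l 3) (b (a (b (a (l 277193197111) (l 16797552)) (a (l 3) (l 307794843719))) (b (a (a (l 16775456) (l 16774608)) (b (l 16772840) (l 16773624))) (a (a (l 16797800) (l 16775968)) (l 16774728)))) (a (l 3) (b (a (a (l 16776384) (l 16777160)) (l 16775864)) (a (a (l 3) (l 16776568)) (l 16776496)))))))) (b (b (a (b (l 16762416)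 (l 16763600)) (l 16753080)) (a (b (l 16764672) (l 16786240)) (b (l 16753472) (l 16754520)))) (b (b (a (a (l 16769488) (l 16763456)) (l 16755480)) (a (b (l 16767672) (l 16768256)) (l 16756552))) (a (b (l 16768528) (l 16768384)) (l 16776120))))) (b (a (b (a (l 16743112) (l 16734336)) (a (l 16744648) (l 16734880))) (b (l 16743800) (l 16723472))) (a (b (b (l 16699456) (l 16701336)) (l 16736216)) (b (l 16722288) (b (l 16632648) (l 16708624))))))) (a (b (a (b (a (l 16707896) (l 16694880)) (a (l 16708744) (l 16695704))) (b (l 16676488) (l 16694256))) (a (b (a (l 16705888) (l 16686824)) (a (l 16686560) (b (l 16669656) (l 1)))) (b (l 209950029975) (l 1)))) (l 6))), by decide +kernel⟩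

def k11_pp_123_s : ∃ t, chk3 f_pp_123_s t 1 7 1 = true :=
  ⟨(a (a (b (l 3) (l 3)) (a (b (a (a (l 3) (a (l 3) (b (a (l 3) (b (a (l 3) (l 16776544)) (a (a (l 3) (l 16776936)) (l 16775856)))) (b (a (a (l 3) (b (l 3) (l 16791512))) (a (a (c (l 119353158119) (l 16798144)) (c (l 16797064) (l 16797008))) (b (l 16774752) (l 16773576)))) (b (a (a (l 3) (l 16787576)) (a (a (l 16775000) (l 16773664)) (l 16771560))) (l 1)))))) (b (a (b (l 16767496) (a (l 16770184) (l 16761176))) (b (l 16751728) (l 16748016))) (b (a (b (l 16763656) (l 16782240)) (l 16782712)) (a (b (l 16778928) (l 1)) (l 1))))) (a (a (b (l 3) (l 1)) (l 1)) (l 1))) (b (b (a (b (l 16729160) (l 16740832)) (b (l 16612816) (l 1))) (l 1)) (l 1)))) (l 1)), by decide +kernel⟩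

theorem s12_pp_123_s : ∃ t, chk3 f_pp_123_s t 1 3 1 = true := ex3_b k10_pp_123_s k11_pp_123_s

theorem s13_pp_123_s : ∃ t, chk3 f_pp_123_s t 9 5 1 = true := ex3_a k6_pp_123_s k7_pp_123_s

theorem s14_pp_123_s : ∃ t, chk3 f_pp_123_s t 36 9 1 = true := ex3_b k2_pp_123_s k3_pp_123_s

theorem s15_pp_123_s : ∃ t, chk3 f_pp_123_s t 18 9 1 = true := ex3_a s14_pp_123_s k4_pp_123_s

theorem s16_pp_123_s : ∃ t, chk3 f_pp_123_s t 18 4 1 = true := ex3_b k1_pp_123_s s15_pp_123_s

theorem s17_pp_123_s : ∃ t, chk3 f_pp_123_s t 9 4 1 = true := ex3_a s16_pp_123_s k5_pp_123_s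

theorem s18_pp_123_s : ∃ t, chk3 f_pp_123_s t 9 2 1 = true := ex3_b s17_pp_123_s s13_pp_123_s

theorem s19_pp_123_s : ∃ t, chk3 f_pp_123_s t 4 2 1 = true := ex3_a k0_pp_123_s s18_pp_123_s

theorem s20_pp_123_s : ∃ t, chk3 f_pp_123_s t 2 2 1 = true := ex3_a s19_pp_123_s k8_pp_123_s

theorem s21_pp_123_s : ∃ t, chk3 f_pp_123_s t 1 2 1 = true := ex3_a s20_pp_123_s k9_pp_123_s

theorem s22_pp_123_s : ∃ t, chk3 f_pp_123_s t 1 1 1 = true := ex3_b s21_pp_123_s s12_pp_123_s

theorem c_pp_123_s : CertNE 536870912 536870912 0 1230186008 740881858 40050571 3 eng mog cd0q1 cd5q3 pd2 false true true .npn 1 2 3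
    ndB0q1 ndB5q3 pcB2 cut_pp_123_s Ext.none :=
  certNE2 (fam := false) (s1 := true) (s2 := true) (a := 1) (b := 2) (c := 3) (cn := .npn) (n1 := ndB0q1) (n2 := ndB5q3) (pc := pcB2) (cut := cut_pp_123_s) (xt := Ext.none) (P1 := 536870912) (W1 := 536870912) (P2 := 0) (W2 := 1230186008) (P3 := 740881858) (W3 := 40050571) (N0 := 3) (En := eng) (mo := mog) (C1 := cd0q1) (C2 := cd5q3) (C3 := pd2)
    rfl (fun _ => rfl) s22_pp_123_s

noncomputable def cut_pp_133_s : Cut := Cut.of [[⟨4, 0, 0, 1449551462⟩]]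

noncomputable def f_pp_133_s : ℕ → ℕ → ℕ → ℕ → Bool := onCell 1610612736 536870912 0 1230186008 740881858 40050571
    (rowNE 3 eng mog cd0q1 cd5q3 pd3 2 false true true .dn 1 3 3 (qsf 536870912 536870912 0 1230186008 3) ndB0q1 ndB5q3 pcB3 cut_pp_133_s Ext.none)

def k0_pp_133_s : ∃ t, chk3 f_pp_133_s t 1 1 1 = true :=
  ⟨(b (l 6) (l 1)), by decide +kernel⟩

theorem c_pp_133_s : CertNE 536870912 536870912 0 1230186008 740881858 40050571 3 eng mog cd0q1 cd5q3 pd3 false true true .dn 1 3 3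
    ndB0q1 ndB5q3 pcB3 cut_pp_133_s Ext.none :=
  certNE2 (fam := false) (s1 := true) (s2 := true) (a := 1) (b := 3) (c := 3) (cn := .dn) (n1 := ndB0q1) (n2 := ndB5q3) (pc := pcB3) (cut := cut_pp_133_s) (xt := Ext.none) (P1 := 536870912) (W1 := 536870912) (P2 := 0) (W2 := 1230186008) (P3 := 740881858) (W3 := 40050571) (N0 := 3) (En := eng) (mo := mog) (C1 := cd0q1) (C2 := cd5q3) (C3 := pd3)
    rfl (fun _ => rfl) k0_pp_133_s

noncomputable def cut_pp_202_s : Cut := Cut.of [[⟨4, 0, 0, 1449551462⟩]]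

noncomputable def f_pp_202_s : ℕ → ℕ → ℕ → ℕ → Bool := onCell 0 536870912 1073741824 536870912 740881858 40050571
    (rowNE 3 eng mog cd0q2 cd5q2 pd0 0 false true true .pp 2 0 2 (qsf 0 536870912 1073741824 536870912 0) ndB0q2 ndB5q2 pcB0 cut_pp_202_s Ext.none)

def k0_pp_202_s : ∃ t, chk3 f_pp_202_s t 1 1 1 = true :=
  ⟨(l 5), by decide +kernel⟩

theorem c_pp_202_s : CertNE 0 536870912 1073741824 536870912 740881858 40050571 3 eng mog cd0q2 cd5q2 pd0 false true true .pp 2 0 2
    ndB0q2 ndB5q2 pcB0 cut_pp_202_s Ext.none :=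
  certNE0 (fam := false) (s1 := true) (s2 := true) (a := 2) (b := 0) (c := 2) (cn := .pp) (n1 := ndB0q2) (n2 := ndB5q2) (pc := pcB0) (cut := cut_pp_202_s) (xt := Ext.none) (P1 := 0) (W1 := 536870912) (P2 := 1073741824) (W2 := 536870912) (P3 := 740881858) (W3 := 40050571) (N0 := 3) (En := eng) (mo := mog) (C1 := cd0q2) (C2 := cd5q2) (C3 := pd0)
    rfl k0_pp_202_s

noncomputable def cut_pp_203_s : Cut := Cut.of [[⟨4, 0, 0, 1449551462⟩]]

noncomputable def f_pp_203_s : ℕ → ℕ → ℕ → ℕ → Bool := onCell 0 536870912 0 1230186008 740881858 40050571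
    (rowNE 3 eng mog cd0q2 cd5q3 pd0 0 false true true .up 2 0 3 (qsf 0 536870912 0 1230186008 0) ndB0q2 ndB5q3 pcB0 cut_pp_203_s Ext.none)

def k0_pp_203_s : ∃ t, chk3 f_pp_203_s t 1 1 1 = true :=
  ⟨(b (l 2) (b (l 2) (a (l 5) (l 3)))), by decide +kernel⟩

theorem c_pp_203_s : CertNE 0 536870912 0 1230186008 740881858 40050571 3 eng mog cd0q2 cd5q3 pd0 false true true .up 2 0 3
    ndB0q2 ndB5q3 pcB0 cut_pp_203_s Ext.none :=
  certNE0 (fam := false) (s1 := true) (s2 := true) (a := 2) (b := 0) (c := 3) (cn := .up) (n1 := ndB0q2) (n2 := ndB5q3) (pc := pcB0) (cut := cut_pp_203_s) (xt := Ext.none) (P1 := 0) (W1 := 536870912) (P2 := 0) (W2 := 1230186008) (P3 := 740881858) (W3 := 40050571) (N0 := 3) (En := eng) (mo := mog) (C1 := cd0q2) (C2 := cd5q3) (C3 := pd0)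
    rfl k0_pp_203_s

noncomputable def cut_pp_213_s : Cut := Cut.of [[⟨4, 0, 0, 1449551462⟩], [⟨0, 1, 0, 67108864⟩, ⟨1, 1, 0, 67108864⟩, ⟨2, 2, 0, 16777216⟩]]

noncomputable def f_pp_213_s : ℕ → ℕ → ℕ → ℕ → Bool := onCell 0 536870912 0 1230186008 740881858 40050571
    (rowNE 3 eng mog cd0q2 cd5q3 pd1 0 false true true .pnn 2 1 3 (qsf 0 536870912 0 1230186008 1) ndB0q2 ndB5q3 pcB1 cut_pp_213_s Ext.none)

def k0_pp_213_s : ∃ t, chk3 f_pp_213_s t 1 1 1 = true :=
  ⟨(a (b (l 3) (l 5)) (b (b (a (l 3) (a (l 3) (b (l 14) (l 3)))) (l 3)) (b (l 3) (l 3)))), by decide +kernel⟩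

theorem c_pp_213_s : CertNE 0 536870912 0 1230186008 740881858 40050571 3 eng mog cd0q2 cd5q3 pd1 false true true .pnn 2 1 3
    ndB0q2 ndB5q3 pcB1 cut_pp_213_s Ext.none :=
  certNE0 (fam := false) (s1 := true) (s2 := true) (a := 2) (b := 1) (c := 3) (cn := .pnn) (n1 := ndB0q2) (n2 := ndB5q3) (pc := pcB1) (cut := cut_pp_213_s) (xt := Ext.none) (P1 := 0) (W1 := 536870912) (P2 := 0) (W2 := 1230186008) (P3 := 740881858) (W3 := 40050571) (N0 := 3) (En := eng) (mo := mog) (C1 := cd0q2) (C2 := cd5q3) (C3 := pd1)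
    rfl k0_pp_213_s

noncomputable def cut_pm_001_s : Cut := Cut.of [[⟨4, 0, 0, 1449551462⟩]]

noncomputable def f_pm_001_s : ℕ → ℕ → ℕ → ℕ → Bool := onCell 0 536870912 536870912 536870912 740881858 40050571
    (rowNE 3 eng mog cd0q0 cd5q1 pd0 0 false true false .up 0 0 1 (qsf 0 536870912 536870912 536870912 0) ndB0q0 ndB5q1 pcB0 cut_pm_001_s Ext.none)

def k0_pm_001_s : ∃ t, chk3 f_pm_001_s t 1 1 1 = true :=
  ⟨(l 4), by decide +kernel⟩

theorem c_pm_001_s : CertNE 0 536870912 536870912 536870912 740881858 40050571 3 eng mog cd0q0 cd5q1 pd0 false true false .up 0 0 1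
    ndB0q0 ndB5q1 pcB0 cut_pm_001_s Ext.none :=
  certNE0 (fam := false) (s1 := true) (s2 := false) (a := 0) (b := 0) (c := 1) (cn := .up) (n1 := ndB0q0) (n2 := ndB5q1) (pc := pcB0) (cut := cut_pm_001_s) (xt := Ext.none) (P1 := 0) (W1 := 536870912) (P2 := 536870912) (W2 := 536870912) (P3 := 740881858) (W3 := 40050571) (N0 := 3) (En := eng) (mo := mog) (C1 := cd0q0) (C2 := cd5q1) (C3 := pd0)
    rfl k0_pm_001_s

noncomputable def cut_pm_011_s : Cut := Cut.of [[⟨4, 0, 0, 1449551462⟩]]

noncomputable def f_pm_011_s : ℕ → ℕ → ℕ → ℕ → Bool := onCell 0 536870912 536870912 536870912 740881858 40050571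
    (rowNE 3 eng mog cd0q0 cd5q1 pd1 0 false true false .pnn 0 1 1 (qsf 0 536870912 536870912 536870912 1) ndB0q0 ndB5q1 pcB1 cut_pm_011_s Ext.none)

def k0_pm_011_s : ∃ t, chk3 f_pm_011_s t 1 1 1 = true :=
  ⟨(l 4), by decide +kernel⟩

theorem c_pm_011_s : CertNE 0 536870912 536870912 536870912 740881858 40050571 3 eng mog cd0q0 cd5q1 pd1 false true false .pnn 0 1 1
    ndB0q0 ndB5q1 pcB1 cut_pm_011_s Ext.none :=
  certNE0 (fam := false) (s1 := true) (s2 := false) (a := 0) (b := 1) (c := 1) (cn := .pnn) (n1 := ndB0q0) (n2 := ndB5q1) (pc := pcB1) (cut := cut_pm_011_s) (xt := Ext.none) (P1 := 0) (W1 := 536870912) (P2 := 536870912) (W2 := 536870912) (P3 := 740881858) (W3 := 40050571) (N0 := 3) (En := eng) (mo := mog) (C1 := cd0q0) (C2 := cd5q1) (C3 := pd1)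
    rfl k0_pm_011_s

noncomputable def cut_pm_012_s : Cut := Cut.of [[⟨4, 0, 0, 1449551462⟩]]

noncomputable def f_pm_012_s : ℕ → ℕ → ℕ → ℕ → Bool := onCell 0 536870912 1073741824 536870912 740881858 40050571
    (rowNE 3 eng mog cd0q0 cd5q2 pd1 0 false true false .pnp 0 1 2 (qsf 0 536870912 1073741824 536870912 1) ndB0q0 ndB5q2 pcB1 cut_pm_012_s Ext.none)

def k0_pm_012_s : ∃ t, chk3 f_pm_012_s t 1 1 1 = true :=
  ⟨(l 4), by decide +kernel⟩

theorem c_pm_012_s : CertNE 0 536870912 1073741824 536870912 740881858 40050571 3 eng mog cd0q0 cd5q2 pd1 false true false .pnp 0 1 2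
    ndB0q0 ndB5q2 pcB1 cut_pm_012_s Ext.none :=
  certNE0 (fam := false) (s1 := true) (s2 := false) (a := 0) (b := 1) (c := 2) (cn := .pnp) (n1 := ndB0q0) (n2 := ndB5q2) (pc := pcB1) (cut := cut_pm_012_s) (xt := Ext.none) (P1 := 0) (W1 := 536870912) (P2 := 1073741824) (W2 := 536870912) (P3 := 740881858) (W3 := 40050571) (N0 := 3) (En := eng) (mo := mog) (C1 := cd0q0) (C2 := cd5q2) (C3 := pd1)
    rfl k0_pm_012_s

noncomputable def cut_pm_022_s : Cut := Cut.of [[⟨4, 0, 0, 1449551462⟩]]

noncomputable def f_pm_022_s : ℕ → ℕ → ℕ → ℕ → Bool := onCell 0 536870912 1073741824 536870912 740881858 40050571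
    (rowNE 3 eng mog cd0q0 cd5q2 pd2 0 false true false .pp 0 2 2 (qsf 0 536870912 1073741824 536870912 2) ndB0q0 ndB5q2 pcB2 cut_pm_022_s Ext.none)

def k0_pm_022_s : ∃ t, chk3 f_pm_022_s t 1 1 1 = true :=
  ⟨(l 4), by decide +kernel⟩

theorem c_pm_022_s : CertNE 0 536870912 1073741824 536870912 740881858 40050571 3 eng mog cd0q0 cd5q2 pd2 false true false .pp 0 2 2
    ndB0q0 ndB5q2 pcB2 cut_pm_022_s Ext.none :=
  certNE0 (fam := false) (s1 := true) (s2 := false) (a := 0) (b := 2) (c := 2) (cn := .pp) (n1 := ndB0q0) (n2 := ndB5q2) (pc := pcB2) (cut := cut_pm_022_s) (xt := Ext.none) (P1 := 0) (W1 := 536870912) (P2 := 1073741824) (W2 := 536870912) (P3 := 740881858) (W3 := 40050571) (N0 := 3) (En := eng) (mo := mog) (C1 := cd0q0) (C2 := cd5q2) (C3 := pd2)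
    rfl k0_pm_022_s

noncomputable def cut_pm_023_s : Cut := Cut.of [[⟨4, 0, 0, 1449551462⟩]]

noncomputable def f_pm_023_s : ℕ → ℕ → ℕ → ℕ → Bool := onCell 0 536870912 0 1230186008 740881858 40050571
    (rowNE 3 eng mog cd0q0 cd5q3 pd2 0 false true false .up 0 2 3 (qsf 0 536870912 0 1230186008 2) ndB0q0 ndB5q3 pcB2 cut_pm_023_s Ext.none)

def k0_pm_023_s : ∃ t, chk3 f_pm_023_s t 1 1 1 = true :=
  ⟨(l 6), by decide +kernel⟩

theorem c_pm_023_s : CertNE 0 536870912 0 1230186008 740881858 40050571 3 eng mog cd0q0 cd5q3 pd2 false true false .up 0 2 3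
    ndB0q0 ndB5q3 pcB2 cut_pm_023_s Ext.none :=
  certNE0 (fam := false) (s1 := true) (s2 := false) (a := 0) (b := 2) (c := 3) (cn := .up) (n1 := ndB0q0) (n2 := ndB5q3) (pc := pcB2) (cut := cut_pm_023_s) (xt := Ext.none) (P1 := 0) (W1 := 536870912) (P2 := 0) (W2 := 1230186008) (P3 := 740881858) (W3 := 40050571) (N0 := 3) (En := eng) (mo := mog) (C1 := cd0q0) (C2 := cd5q3) (C3 := pd2)
    rfl k0_pm_023_s

noncomputable def cut_pm_033_s : Cut := Cut.of [[⟨4, 0, 0, 1449551462⟩]]

noncomputable def f_pm_033_s : ℕ → ℕ → ℕ → ℕ → Bool := onCell 0 536870912 0 1230186008 740881858 40050571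
    (rowNE 3 eng mog cd0q0 cd5q3 pd3 0 false true false .pnn 0 3 3 (qsf 0 536870912 0 1230186008 3) ndB0q0 ndB5q3 pcB3 cut_pm_033_s Ext.none)

def k0_pm_033_s : ∃ t, chk3 f_pm_033_s t 1 1 1 = true :=
  ⟨(l 6), by decide +kernel⟩

theorem c_pm_033_s : CertNE 0 536870912 0 1230186008 740881858 40050571 3 eng mog cd0q0 cd5q3 pd3 false true false .pnn 0 3 3
    ndB0q0 ndB5q3 pcB3 cut_pm_033_s Ext.none :=
  certNE0 (fam := false) (s1 := true) (s2 := false) (a := 0) (b := 3) (c := 3) (cn := .pnn) (n1 := ndB0q0) (n2 := ndB5q3) (pc := pcB3) (cut := cut_pm_033_s) (xt := Ext.none) (P1 := 0) (W1 := 536870912) (P2 := 0) (W2 := 1230186008) (P3 := 740881858) (W3 := 40050571) (N0 := 3) (En := eng) (mo := mog) (C1 := cd0q0) (C2 := cd5q3) (C3 := pd3)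
    rfl k0_pm_033_s

noncomputable def cut_pm_101_s : Cut := Cut.of [[⟨4, 0, 0, 1449551462⟩]]

noncomputable def f_pm_101_s : ℕ → ℕ → ℕ → ℕ → Bool := onCell 536870912 536870912 536870912 536870912 740881858 40050571
    (rowNE 3 eng mog cd0q1 cd5q1 pd0 0 false true false .npn 1 0 1 (qsf 536870912 536870912 536870912 536870912 0) ndB0q1 ndB5q1 pcB0 cut_pm_101_s Ext.none)

def k0_pm_101_s : ∃ t, chk3 f_pm_101_s t 1 1 1 = true :=
  ⟨(l 4), by decide +kernel⟩

theorem c_pm_101_s : CertNE 536870912 536870912 536870912 536870912 740881858 40050571 3 eng mog cd0q1 cd5q1 pd0 false true false .npn 1 0 1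
    ndB0q1 ndB5q1 pcB0 cut_pm_101_s Ext.none :=
  certNE0 (fam := false) (s1 := true) (s2 := false) (a := 1) (b := 0) (c := 1) (cn := .npn) (n1 := ndB0q1) (n2 := ndB5q1) (pc := pcB0) (cut := cut_pm_101_s) (xt := Ext.none) (P1 := 536870912) (W1 := 536870912) (P2 := 536870912) (W2 := 536870912) (P3 := 740881858) (W3 := 40050571) (N0 := 3) (En := eng) (mo := mog) (C1 := cd0q1) (C2 := cd5q1) (C3 := pd0)
    rfl k0_pm_101_s

noncomputable def cut_pm_102_s : Cut := Cut.of [[⟨4, 0, 0, 1449551462⟩]]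

noncomputable def f_pm_102_s : ℕ → ℕ → ℕ → ℕ → Bool := onCell 536870912 536870912 1073741824 536870912 740881858 40050571
    (rowNE 3 eng mog cd0q1 cd5q2 pd0 0 false true false .npp 1 0 2 (qsf 536870912 536870912 1073741824 536870912 0) ndB0q1 ndB5q2 pcB0 cut_pm_102_s Ext.none)

def k0_pm_102_s : ∃ t, chk3 f_pm_102_s t 1 1 1 = true :=
  ⟨(l 6), by decide +kernel⟩

theorem c_pm_102_s : CertNE 536870912 536870912 1073741824 536870912 740881858 40050571 3 eng mog cd0q1 cd5q2 pd0 false true false .npp 1 0 2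
    ndB0q1 ndB5q2 pcB0 cut_pm_102_s Ext.none :=
  certNE0 (fam := false) (s1 := true) (s2 := false) (a := 1) (b := 0) (c := 2) (cn := .npp) (n1 := ndB0q1) (n2 := ndB5q2) (pc := pcB0) (cut := cut_pm_102_s) (xt := Ext.none) (P1 := 536870912) (W1 := 536870912) (P2 := 1073741824) (W2 := 536870912) (P3 := 740881858) (W3 := 40050571) (N0 := 3) (En := eng) (mo := mog) (C1 := cd0q1) (C2 := cd5q2) (C3 := pd0)
    rfl k0_pm_102_s

noncomputable def cut_pm_112_s : Cut := Cut.of [[⟨4, 0, 0, 1449551462⟩]]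

noncomputable def f_pm_112_s : ℕ → ℕ → ℕ → ℕ → Bool := onCell 536870912 536870912 1073741824 536870912 740881858 40050571
    (rowNE 3 eng mog cd0q1 cd5q2 pd1 0 false true false .dn 1 1 2 (qsf 536870912 536870912 1073741824 536870912 1) ndB0q1 ndB5q2 pcB1 cut_pm_112_s Ext.none)

def k0_pm_112_s : ∃ t, chk3 f_pm_112_s t 1 1 1 = true :=
  ⟨(l 6), by decide +kernel⟩

theorem c_pm_112_s : CertNE 536870912 536870912 1073741824 536870912 740881858 40050571 3 eng mog cd0q1 cd5q2 pd1 false true false .dn 1 1 2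
    ndB0q1 ndB5q2 pcB1 cut_pm_112_s Ext.none :=
  certNE0 (fam := false) (s1 := true) (s2 := false) (a := 1) (b := 1) (c := 2) (cn := .dn) (n1 := ndB0q1) (n2 := ndB5q2) (pc := pcB1) (cut := cut_pm_112_s) (xt := Ext.none) (P1 := 536870912) (W1 := 536870912) (P2 := 1073741824) (W2 := 536870912) (P3 := 740881858) (W3 := 40050571) (N0 := 3) (En := eng) (mo := mog) (C1 := cd0q1) (C2 := cd5q2) (C3 := pd1)
    rfl k0_pm_112_s

noncomputable def cut_pm_113_s : Cut := Cut.of [[⟨4, 0, 0, 1449551462⟩], [⟨0, 1, 0, 67108864⟩, ⟨1, 1, 0, 67108864⟩, ⟨2, 2, 0, 16777216⟩]]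

noncomputable def f_pm_113_s : ℕ → ℕ → ℕ → ℕ → Bool := onCell 536870912 536870912 0 1230186008 740881858 40050571
    (rowNE 3 eng mog cd0q1 cd5q3 pd1 0 false true false .nn 1 1 3 (qsf 536870912 536870912 0 1230186008 1) ndB0q1 ndB5q3 pcB1 cut_pm_113_s Ext.none)

def k0_pm_113_s : ∃ t, chk3 f_pm_113_s t 1 1 1 = true :=
  ⟨(b (a (l 2) (a (l 2) (b (a (l 2) (a (l 2) (b (l 14) (b (l 14) (l 16796440))))) (a (l 6) (b (a (l 6) (l 16786064)) (l 6)))))) (b (l 6) (l 6))), by decide +kernel⟩

theorem c_pm_113_s : CertNE 536870912 536870912 0 1230186008 740881858 40050571 3 eng mog cd0q1 cd5q3 pd1 false true false .nn 1 1 3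
    ndB0q1 ndB5q3 pcB1 cut_pm_113_s Ext.none :=
  certNE0 (fam := false) (s1 := true) (s2 := false) (a := 1) (b := 1) (c := 3) (cn := .nn) (n1 := ndB0q1) (n2 := ndB5q3) (pc := pcB1) (cut := cut_pm_113_s) (xt := Ext.none) (P1 := 536870912) (W1 := 536870912) (P2 := 0) (W2 := 1230186008) (P3 := 740881858) (W3 := 40050571) (N0 := 3) (En := eng) (mo := mog) (C1 := cd0q1) (C2 := cd5q3) (C3 := pd1)
    rfl k0_pm_113_s

noncomputable def cut_pm_123_s : Cut := Cut.of [[⟨4, 0, 0, 1449551462⟩], [⟨0, 1, 0, 67108864⟩, ⟨1, 1, 0, 67108864⟩, ⟨2, 2, 0, 16777216⟩]]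

noncomputable def f_pm_123_s : ℕ → ℕ → ℕ → ℕ → Bool := onCell 1073741824 536870912 0 1230186008 740881858 40050571
    (rowNE 3 eng mog cd0q1 cd5q3 pd2 2 false true false .npn 1 2 3 (qsf 536870912 536870912 0 1230186008 2) ndB0q1 ndB5q3 pcB2 cut_pm_123_s Ext.none)

def k0_pm_123_s : ∃ t, chk3 f_pm_123_s t 1 1 1 = true :=
  ⟨(b (a (b (b (a (a (a (l 14) (a (l 14) (l 16694480))) (a (b (l 16660168) (l 16620992)) (b (l 16698448) (l 6)))) (l 6)) (a (a (a (b (l 14) (l 16641640)) (b (l 16610848) (l 6))) (l 6)) (l 6))) (b (l 6) (l 6))) (l 6)) (l 6)), by decide +kernel⟩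

theorem c_pm_123_s : CertNE 536870912 536870912 0 1230186008 740881858 40050571 3 eng mog cd0q1 cd5q3 pd2 false true false .npn 1 2 3
    ndB0q1 ndB5q3 pcB2 cut_pm_123_s Ext.none :=
  certNE2 (fam := false) (s1 := true) (s2 := false) (a := 1) (b := 2) (c := 3) (cn := .npn) (n1 := ndB0q1) (n2 := ndB5q3) (pc := pcB2) (cut := cut_pm_123_s) (xt := Ext.none) (P1 := 536870912) (W1 := 536870912) (P2 := 0) (W2 := 1230186008) (P3 := 740881858) (W3 := 40050571) (N0 := 3) (En := eng) (mo := mog) (C1 := cd0q1) (C2 := cd5q3) (C3 := pd2)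
    rfl (fun _ => rfl) k0_pm_123_s

noncomputable def cut_pm_133_s : Cut := Cut.of [[⟨4, 0, 0, 1449551462⟩]]

noncomputable def f_pm_133_s : ℕ → ℕ → ℕ → ℕ → Bool := onCell 1610612736 536870912 0 1230186008 740881858 40050571
    (rowNE 3 eng mog cd0q1 cd5q3 pd3 2 false true false .dn 1 3 3 (qsf 536870912 536870912 0 1230186008 3) ndB0q1 ndB5q3 pcB3 cut_pm_133_s Ext.none)

def k0_pm_133_s : ∃ t, chk3 f_pm_133_s t 1 1 1 = true :=
  ⟨(l 6), by decide +kernel⟩

theorem c_pm_133_s : CertNE 536870912 536870912 0 1230186008 740881858 40050571 3 eng mog cd0q1 cd5q3 pd3 false true false .dn 1 3 3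
    ndB0q1 ndB5q3 pcB3 cut_pm_133_s Ext.none :=
  certNE2 (fam := false) (s1 := true) (s2 := false) (a := 1) (b := 3) (c := 3) (cn := .dn) (n1 := ndB0q1) (n2 := ndB5q3) (pc := pcB3) (cut := cut_pm_133_s) (xt := Ext.none) (P1 := 536870912) (W1 := 536870912) (P2 := 0) (W2 := 1230186008) (P3 := 740881858) (W3 := 40050571) (N0 := 3) (En := eng) (mo := mog) (C1 := cd0q1) (C2 := cd5q3) (C3 := pd3)
    rfl (fun _ => rfl) k0_pm_133_s

noncomputable def cut_pm_202_s : Cut := Cut.of [[⟨4, 0, 0, 1449551462⟩]]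

noncomputable def f_pm_202_s : ℕ → ℕ → ℕ → ℕ → Bool := onCell 0 536870912 1073741824 536870912 740881858 40050571
    (rowNE 3 eng mog cd0q2 cd5q2 pd0 0 false true false .pp 2 0 2 (qsf 0 536870912 1073741824 536870912 0) ndB0q2 ndB5q2 pcB0 cut_pm_202_s Ext.none)

def k0_pm_202_s : ∃ t, chk3 f_pm_202_s t 1 1 1 = true :=
  ⟨(a (b (l 6) (a (l 6) (l 6))) (l 6)), by decide +kernel⟩

theorem c_pm_202_s : CertNE 0 536870912 1073741824 536870912 740881858 40050571 3 eng mog cd0q2 cd5q2 pd0 false true false .pp 2 0 2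
    ndB0q2 ndB5q2 pcB0 cut_pm_202_s Ext.none :=
  certNE0 (fam := false) (s1 := true) (s2 := false) (a := 2) (b := 0) (c := 2) (cn := .pp) (n1 := ndB0q2) (n2 := ndB5q2) (pc := pcB0) (cut := cut_pm_202_s) (xt := Ext.none) (P1 := 0) (W1 := 536870912) (P2 := 1073741824) (W2 := 536870912) (P3 := 740881858) (W3 := 40050571) (N0 := 3) (En := eng) (mo := mog) (C1 := cd0q2) (C2 := cd5q2) (C3 := pd0)
    rfl k0_pm_202_s

noncomputable def cut_pm_203_s : Cut := Cut.of [[⟨4, 0, 0, 1449551462⟩]]

noncomputable def f_pm_203_s : ℕ → ℕ → ℕ → ℕ → Bool := onCell 0 536870912 0 1230186008 740881858 40050571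
    (rowNE 3 eng mog cd0q2 cd5q3 pd0 0 false true false .up 2 0 3 (qsf 0 536870912 0 1230186008 0) ndB0q2 ndB5q3 pcB0 cut_pm_203_s Ext.none)

def k0_pm_203_s : ∃ t, chk3 f_pm_203_s t 1 1 1 = true :=
  ⟨(b (l 2) (b (l 2) (a (b (b (l 2) (a (a (b (l 2) (l 16741832)) (l 16728856)) (a (l 16708120) (l 6)))) (a (a (b (b (a (l 16730152) (l 16719176)) (l 16704800)) (b (l 16681616) (l 16656480))) (b (b (l 16700056) (l 6)) (l 6))) (l 6))) (l 6)))), by decide +kernel⟩

theorem c_pm_203_s : CertNE 0 536870912 0 1230186008 740881858 40050571 3 eng mog cd0q2 cd5q3 pd0 false true false .up 2 0 3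
    ndB0q2 ndB5q3 pcB0 cut_pm_203_s Ext.none :=
  certNE0 (fam := false) (s1 := true) (s2 := false) (a := 2) (b := 0) (c := 3) (cn := .up) (n1 := ndB0q2) (n2 := ndB5q3) (pc := pcB0) (cut := cut_pm_203_s) (xt := Ext.none) (P1 := 0) (W1 := 536870912) (P2 := 0) (W2 := 1230186008) (P3 := 740881858) (W3 := 40050571) (N0 := 3) (En := eng) (mo := mog) (C1 := cd0q2) (C2 := cd5q3) (C3 := pd0)
    rfl k0_pm_203_s

noncomputable def cut_pm_213_s : Cut := Cut.of [[⟨4, 0, 0, 1449551462⟩], [⟨0, 1, 0, 67108864⟩, ⟨1, 1, 0, 67108864⟩, ⟨2, 2, 0, 16777216⟩]]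

noncomputable def f_pm_213_s : ℕ → ℕ → ℕ → ℕ → Bool := onCell 0 536870912 0 1230186008 740881858 40050571
    (rowNE 3 eng mog cd0q2 cd5q3 pd1 0 false true false .pnn 2 1 3 (qsf 0 536870912 0 1230186008 1) ndB0q2 ndB5q3 pcB1 cut_pm_213_s Ext.none)

def k0_pm_213_s : ∃ t, chk3 f_pm_213_s t 2 2 1 = true :=
  ⟨(b (l 3) (a (l 3) (b (l 3) (a (b (l 3) (a (l 3) (b (l 3) (a (l 3) (l 317995364631))))) (b (a (l 3) (b (a (l 3) (b (l 3) (l 307257928519))) (a (b (l 3) (a (l 3) (l 291688675879))) (b (a (l 298667996999) (l 254644581591)) (a (l 239075340599) (l 16772600)))))) (a (b (a (l 3) (b (l 315847863511) (l 271824472471))) (a (b (l 290614932183) (l 249812741607)) (b (l 229411665415) (l 16770000)))) (b (a (b (a (l 269676968391) (l 16774056)) (l 16771512)) (l 16767944)) (l 16762768)))))))), by decide +kernel⟩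

def k1_pm_213_s : ∃ t, chk3 f_pm_213_s t 6 4 1 = true :=
  ⟨(a (l 3) (b (l 3) (a (l 3) (a (b (l 3) (b (l 3) (b (l 3) (a (b (l 3) (c (c (l 321216575255) (l 318532220663)) (l 314774124231))) (a (c (b (l 328732768471) (b (a (l 314237255159) (l 263234518279)) (l 257865808599))) (b (l 317458479271) (l 261623904071))) (b (c (b (l 312626644999) (l 267529484151)) (b (l 307257933239) (l 260550164935))) (l 16775344))))))) (a (b (l 3) (b (l 3) (b (a (b (l 3) (c (b (l 319069092871) (a (l 312089771703) (l 261087034535))) (b (l 314237254631) (l 263234518999)))) (c (b (c (l 317458482823) (l 314774125623)) (c (l 260550162695) (l 255181453575))) (b (l 309942290007) (l 257328939767)))) (a (b (c (l 250349615335) (l 16777872)) (l 16778712)) (l 16778800))))) (b (l 3) (b (b (l 3) (a (b (l 3) (b (l 3) (c (l 317458482967) (l 312089771207)))) (c (b (l 326585287447) (b (a (l 317458480599) (l 262160776103)) (l 258939550263))) (b (l 321753446551) (b (l 304036710679) (l 251423357479)))))) (b (a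 (b (c (b (a (l 309942288215) (l 16777384)) (l 16777552)) (b (l 261623906311) (l 16777544))) (l 16778000)) (l 16777952)) (l 16779328))))))))), by decide +kernel⟩

def k2_pm_213_s : ∃ t, chk3 f_pm_213_s t 6 10 1 = true :=
  ⟨(a (b (a (l 3) (a (l 3) (b (l 3) (b (l 3) (c (l 317458487015) (l 315847874167)))))) (a (b (l 3) (a (l 3) (b (l 307257939367) (a (l 289004320519) (b (l 271287581863) (l 16776152)))))) (b (a (b (l 3) (a (l 3) (b (l 294909900839) (l 266992614567)))) (b (a (b (l 3) (l 290078063783)) (b (l 263234518455) (l 16776752))) (a (b (l 255181460743) (l 16776328)) (l 16776040)))) (a (b (a (b (l 285783096167) (l 258402687143)) (l 231022254967)) (l 16774904)) (l 16774400))))) (b (a (a (b (l 3) (b (a (l 322827196663) (b (c (l 305647319495) (l 303499835815)) (a (l 294909902631) (l 249812742535)))) (a (b (a (l 302426094119) (l 264845131527)) (l 254644589575)) (b (l 16777048) (l 16776840))))) (b (b (a (l 3) (b (l 3) (a (l 3) (c (b (l 314774125639) (l 268603228247)) (l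 301352353431))))) (c (a (b (l 329806514711) (a (l 308331674439) (b (l 271287582695) (l 16777272)))) (b (a (b (l 308331675207) (l 260550162327)) (l 16777488)) (l 16777544))) (a (b (l 324974671175) (a (l 306184190759) (l 260013293527))) (b (a (l 263771389943) (l 16777400)) (l 16777384))))) (b (a (b (a (b (l 264845134039) (l 16777208)) (l 16777256)) (l 16777160)) (l 16777584)) (l 16777120)))) (a (b (c (b (a (b (a (b (l 329269639767) (l 308331675367)) (b (l 268066357527) (l 16777584))) (a (l 257328937207) (l 16777960))) (l 16778640)) (l 16778928)) (b (a (b (a (l 306721062023) (l 257865810391)) (l 245517775495)) (l 16778520)) (l 16778664))) (l 16779456)) (b (l 16782088) (l 16784064)))) (a (b (a (b (l 16776440) (l 16775544)) (l 16776360)) (l 16773376)) (b (l 16781064) (l 16778936))))), by decide +kernel⟩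

def k3_pm_213_s : ∃ t, chk3 f_pm_213_s t 6 11 1 = true :=
  ⟨(a (b (a (b (a (b (a (l 3) (l 283635612103)) (a (l 276119419527) (l 16775000))) (b (a (l 241759692023) (l 16774496)) (l 16772512))) (a (b (l 16772784) (l 16769400)) (l 16768328))) (b (a (l 16771944) (l 16770744)) (l 16766408))) (a (b (l 16762624) (l 16755512)) (l 16756560))) (b (a (l 16768936) (l 16773384)) (a (l 16759832) (l 16767768)))), by decide +kernel⟩

def k4_pm_213_s : ∃ t, chk3 f_pm_213_s t 28 4 1 = true :=
  ⟨(a (a (b (l 3) (b (l 3) (a (b (b (l 3) (b (c (b (a (l 327659027511) (l 311016029975)) (a (l 267529486215) (l 16777304))) (b (l 309942287735) (l 259476422631))) (l 16777464))) (l 16778736)) (b (b (b (l 3) (c (b (l 322290320983) (a (l 314237255319) (l 261087034407))) (b (l 316921609207) (a (l 308331675271) (l 16777192))))) (b (c (l 255181453511) (l 16777264)) (l 16777520))) (l 16778784))))) (b (l 3) (b (b (l 3) (b (l 3) (b (l 3) (a (l 3) (a (l 3) (b (l 3) (c (l 310479158935) (l 304573578871))))))))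 (b (b (a (c (b (b (l 328195897959) (a (l 321753447719) (l 267529486135))) (c (l 264308262439) (l 255718324023))) (b (b (l 323900930615) (a (l 316921609495) (l 261623906071))) (b (l 258939553047) (l 16777136)))) (b (b (c (a (l 307257933527) (l 16777152)) (l 261087036359)) (l 16777096)) (l 16777064))) (l 16777352)) (l 16778696))))) (b (l 3) (a (b (b (l 3) (a (b (l 3) (c (b (b (l 3) (l 322290318151)) (b (a (l 313700384247) (l 268066357879)) (l 260013292039))) (b (l 321216575623) (b (a (l 308868546007) (l 257328937847)) (l 252497099319))))) (b (b (l 3) (c (l 335712089799) (l 331953993335))) (b (c (b (a (l 323900931175) (l 270750711479)) (a (l 271287583367) (l 16777056))) (b (a (l 320142834759) (l 264845131399)) (l 259476422247))) (l 16776904))))) (b (b (b (l 16776912) (l 16776952)) (l 16777200)) (l 16778744))) (b (b (l 3) (a (b (b (l 3) (c (b (a (l 3) (l 310479158791)) (a (l 306184191623) (l 16777072))) (b (l 312089773607) (a (l 300815482471) (l 16777024))))) (b (c (l 16776928)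 (l 16776816)) (l 16776672))) (b (c (b (b (l 324437801591) (a (l 315310996839) (l 271287583319))) (b (l 263234517463) (l 16776856))) (b (b (l 320679705127) (a (l 311016029495) (l 262160776839))) (l 253570840439))) (l 16776464)))) (b (l 16776760) (l 16778896)))))), by decide +kernel⟩

def k5_pm_213_s : ∃ t, chk3 f_pm_213_s t 29 4 1 = true :=
  ⟨(b (l 14) (b (a (a (b (b (l 3) (b (a (l 3) (a (l 3) (l 14))) (b (a (l 3) (a (c (b (l 316921609655) (l 273971936999)) (l 300815482359)) (l 14))) (c (a (c (l 311552902951) (l 309405416663)) (l 16776896)) (a (a (l 323900930951) (l 295983644199)) (l 16776800)))))) (b (b (a (a (b (c (l 272361324839) (l 265382002263)) (l 16776904)) (l 16776808)) (l 16776488)) (l 16776328)) (l 16776032))) (b (l 14) (l 16775424))) (l 14)) (b (l 16776440) (l 16779384)))), by decide +kernel⟩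

def k6_pm_213_s : ∃ t, chk3 f_pm_213_s t 15 4 1 = true :=
  ⟨(b (l 14) (b (a (b (l 14) (l 16770208)) (l 16760888)) (a (l 16774112) (l 16771224)))), by decide +kernel⟩

def k7_pm_213_s : ∃ t, chk3 f_pm_213_s t 7 5 1 = true :=
  ⟨(b (a (b (a (b (l 16783224) (l 16790392)) (l 16789568)) (a (l 16793624) (l 16803696))) (b (a (l 16793368) (l 16800576)) (l 16810528))) (a (b (l 16793160) (l 16785760)) (l 16797312))), by decide +kernel⟩

def k8_pm_213_s : ∃ t, chk3 f_pm_213_s t 1 3 1 = true :=
  ⟨(b (a (b (a (b (l 3) (a (l 3) (a (l 3) (b (a (l 3) (l 319605955047)) (a (b (l 329269631783) (l 284172481383)) (b (l 247128387063) (l 16772608))))))) (a (b (a (b (l 3) (a (l 3) (b (l 309405411207) (l 272898191863)))) (b (a (b (l 3) (l 292225544583)) (b (l 276119439447) (l 16784288))) (a (b (l 244980924071) (l 16771944)) (l 16768744)))) (a (b (a (b (l 290078061111) (l 235854117703)) (l 213305542615)) (l 16766632)) (b (l 16763976) (l 16755832)))) (b (a (b (a (l 16780896) (l 16764656)) (l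 16760464)) (l 16752200)) (a (l 16746168) (l 16735296))))) (a (b (a (a (l 3) (b (l 3) (a (l 3) (b (l 3) (l 290614931911))))) (a (b (a (l 319069124215) (b (l 300278606807) (l 235317248951))) (a (b (l 276656287063) (l 16771416)) (l 16767896))) (b (b (a (l 16773776) (l 16768656)) (l 16767024)) (l 16759616)))) (a (a (b (l 335175203319) (a (b (l 3) (l 291151802471)) (b (l 278266899671) (l 16771304)))) (b (a (b (l 303499832087) (l 232632887383)) (b (l 16772712) (l 16767672))) (l 16783688))) (a (b (l 16760288) (l 16748384)) (l 16737776)))) (b (a (b (l 16752104) (l 16738360)) (a (l 16730416) (l 16715288))) (a (b (l 16730552) (l 16719872)) (l 16694376))))) (a (b (a (b (a (l 16742512) (l 16746288)) (a (l 16730240) (l 16729400))) (l 16748208)) (b (a (l 16706168) (l 6)) (l 6))) (b (l 6) (l 6)))) (a (b (a (b (a (a (b (b (l 207399960855) (l 16763144)) (l 16752448)) (b (l 16750008) (l 16733016))) (a (b (l 16732392) (l 16716496)) (l 16755192))) (a (b (a (l 16733408) (l 16711768)) (a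 (l 16662584) (l 16683912))) (b (l 16682848) (l 16651088)))) (a (b (l 16687160) (b (l 16647384) (l 6))) (l 6))) (a (l 1) (l 6))) (l 6))), by decide +kernel⟩

theorem s9_pm_213_s : ∃ t, chk3 f_pm_213_s t 14 4 1 = true := ex3_a k4_pm_213_s k5_pm_213_s

theorem s10_pm_213_s : ∃ t, chk3 f_pm_213_s t 7 4 1 = true := ex3_a s9_pm_213_s k6_pm_213_s

theorem s11_pm_213_s : ∃ t, chk3 f_pm_213_s t 7 2 1 = true := ex3_b s10_pm_213_s k7_pm_213_s

theorem s12_pm_213_s : ∃ t, chk3 f_pm_213_s t 6 5 1 = true := ex3_b k2_pm_213_s k3_pm_213_s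

theorem s13_pm_213_s : ∃ t, chk3 f_pm_213_s t 6 2 1 = true := ex3_b k1_pm_213_s s12_pm_213_s

theorem s14_pm_213_s : ∃ t, chk3 f_pm_213_s t 3 2 1 = true := ex3_a s13_pm_213_s s11_pm_213_s

theorem s15_pm_213_s : ∃ t, chk3 f_pm_213_s t 1 2 1 = true := ex3_a k0_pm_213_s s14_pm_213_s

theorem s16_pm_213_s : ∃ t, chk3 f_pm_213_s t 1 1 1 = true := ex3_b s15_pm_213_s k8_pm_213_s

theorem c_pm_213_s : CertNE 0 536870912 0 1230186008 740881858 40050571 3 eng mog cd0q2 cd5q3 pd1 false true false .pnn 2 1 3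
    ndB0q2 ndB5q3 pcB1 cut_pm_213_s Ext.none :=
  certNE0 (fam := false) (s1 := true) (s2 := false) (a := 2) (b := 1) (c := 3) (cn := .pnn) (n1 := ndB0q2) (n2 := ndB5q3) (pc := pcB1) (cut := cut_pm_213_s) (xt := Ext.none) (P1 := 0) (W1 := 536870912) (P2 := 0) (W2 := 1230186008) (P3 := 740881858) (W3 := 40050571) (N0 := 3) (En := eng) (mo := mog) (C1 := cd0q2) (C2 := cd5q3) (C3 := pd1)
    rfl s16_pm_213_s

noncomputable def cut_mm_001_s : Cut := Cut.of [[⟨4, 0, 0, 1449551462⟩]]

noncomputable def f_mm_001_s : ℕ → ℕ → ℕ → ℕ → Bool := onCell 0 536870912 0 536870912 740881858 40050571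
    (rowNE 3 eng mog cd0q0 cd5q1 pd0 1 false false false .up 0 0 1 (qsf 0 536870912 536870912 536870912 0) ndB0q0 ndB5q1 pcB0 cut_mm_001_s Ext.none)

def k0_mm_001_s : ∃ t, chk3 f_mm_001_s t 1 1 1 = true :=
  ⟨(l 3), by decide +kernel⟩

theorem c_mm_001_s : CertNE 0 536870912 536870912 536870912 740881858 40050571 3 eng mog cd0q0 cd5q1 pd0 false false false .up 0 0 1
    ndB0q0 ndB5q1 pcB0 cut_mm_001_s Ext.none :=
  certNE1 (fam := false) (s1 := false) (s2 := false) (a := 0) (b := 0) (c := 1) (cn := .up) (n1 := ndB0q0) (n2 := ndB5q1) (pc := pcB0) (cut := cut_mm_001_s) (xt := Ext.none) (P1 := 0) (W1 := 536870912) (P2 := 536870912) (W2 := 536870912) (P3 := 740881858) (W3 := 40050571) (N0 := 3) (En := eng) (mo := mog) (C1 := cd0q0) (C2 := cd5q1) (C3 := pd0)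
    rfl (fun _ => rfl) k0_mm_001_s

noncomputable def cut_mm_011_s : Cut := Cut.of [[⟨4, 0, 0, 1449551462⟩]]

noncomputable def f_mm_011_s : ℕ → ℕ → ℕ → ℕ → Bool := onCell 0 536870912 536870912 536870912 740881858 40050571
    (rowNE 3 eng mog cd0q0 cd5q1 pd1 1 false false false .pnn 0 1 1 (qsf 0 536870912 536870912 536870912 1) ndB0q0 ndB5q1 pcB1 cut_mm_011_s Ext.none)

def k0_mm_011_s : ∃ t, chk3 f_mm_011_s t 1 1 1 = true :=
  ⟨(l 5), by decide +kernel⟩

theorem c_mm_011_s : CertNE 0 536870912 536870912 536870912 740881858 40050571 3 eng mog cd0q0 cd5q1 pd1 false false false .pnn 0 1 1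
    ndB0q0 ndB5q1 pcB1 cut_mm_011_s Ext.none :=
  certNE1 (fam := false) (s1 := false) (s2 := false) (a := 0) (b := 1) (c := 1) (cn := .pnn) (n1 := ndB0q0) (n2 := ndB5q1) (pc := pcB1) (cut := cut_mm_011_s) (xt := Ext.none) (P1 := 0) (W1 := 536870912) (P2 := 536870912) (W2 := 536870912) (P3 := 740881858) (W3 := 40050571) (N0 := 3) (En := eng) (mo := mog) (C1 := cd0q0) (C2 := cd5q1) (C3 := pd1)
    rfl (fun _ => rfl) k0_mm_011_s

noncomputable def cut_mm_012_s : Cut := Cut.of [[⟨4, 0, 0, 1449551462⟩]]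

noncomputable def f_mm_012_s : ℕ → ℕ → ℕ → ℕ → Bool := onCell 0 536870912 1073741824 536870912 740881858 40050571
    (rowNE 3 eng mog cd0q0 cd5q2 pd1 0 false false false .pnp 0 1 2 (qsf 0 536870912 1073741824 536870912 1) ndB0q0 ndB5q2 pcB1 cut_mm_012_s Ext.none)

def k0_mm_012_s : ∃ t, chk3 f_mm_012_s t 1 1 1 = true :=
  ⟨(l 5), by decide +kernel⟩

theorem c_mm_012_s : CertNE 0 536870912 1073741824 536870912 740881858 40050571 3 eng mog cd0q0 cd5q2 pd1 false false false .pnp 0 1 2
    ndB0q0 ndB5q2 pcB1 cut_mm_012_s Ext.none :=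
  certNE0 (fam := false) (s1 := false) (s2 := false) (a := 0) (b := 1) (c := 2) (cn := .pnp) (n1 := ndB0q0) (n2 := ndB5q2) (pc := pcB1) (cut := cut_mm_012_s) (xt := Ext.none) (P1 := 0) (W1 := 536870912) (P2 := 1073741824) (W2 := 536870912) (P3 := 740881858) (W3 := 40050571) (N0 := 3) (En := eng) (mo := mog) (C1 := cd0q0) (C2 := cd5q2) (C3 := pd1)
    rfl k0_mm_012_s

noncomputable def cut_mm_022_s : Cut := Cut.of [[⟨4, 0, 0, 1449551462⟩]]

noncomputable def f_mm_022_s : ℕ → ℕ → ℕ → ℕ → Bool := onCell 0 536870912 1073741824 536870912 740881858 40050571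
    (rowNE 3 eng mog cd0q0 cd5q2 pd2 0 false false false .pp 0 2 2 (qsf 0 536870912 1073741824 536870912 2) ndB0q0 ndB5q2 pcB2 cut_mm_022_s Ext.none)

def k0_mm_022_s : ∃ t, chk3 f_mm_022_s t 1 1 1 = true :=
  ⟨(l 5), by decide +kernel⟩

theorem c_mm_022_s : CertNE 0 536870912 1073741824 536870912 740881858 40050571 3 eng mog cd0q0 cd5q2 pd2 false false false .pp 0 2 2
    ndB0q0 ndB5q2 pcB2 cut_mm_022_s Ext.none :=
  certNE0 (fam := false) (s1 := false) (s2 := false) (a := 0) (b := 2) (c := 2) (cn := .pp) (n1 := ndB0q0) (n2 := ndB5q2) (pc := pcB2) (cut := cut_mm_022_s) (xt := Ext.none) (P1 := 0) (W1 := 536870912) (P2 := 1073741824) (W2 := 536870912) (P3 := 740881858) (W3 := 40050571) (N0 := 3) (En := eng) (mo := mog) (C1 := cd0q0) (C2 := cd5q2) (C3 := pd2)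
    rfl k0_mm_022_s

noncomputable def cut_mm_023_s : Cut := Cut.of [[⟨4, 0, 0, 1449551462⟩]]

noncomputable def f_mm_023_s : ℕ → ℕ → ℕ → ℕ → Bool := onCell 0 536870912 0 1230186008 740881858 40050571
    (rowNE 3 eng mog cd0q0 cd5q3 pd2 0 false false false .up 0 2 3 (qsf 0 536870912 0 1230186008 2) ndB0q0 ndB5q3 pcB2 cut_mm_023_s Ext.none)

def k0_mm_023_s : ∃ t, chk3 f_mm_023_s t 1 1 1 = true :=
  ⟨(l 5), by decide +kernel⟩

theorem c_mm_023_s : CertNE 0 536870912 0 1230186008 740881858 40050571 3 eng mog cd0q0 cd5q3 pd2 false false false .up 0 2 3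
    ndB0q0 ndB5q3 pcB2 cut_mm_023_s Ext.none :=
  certNE0 (fam := false) (s1 := false) (s2 := false) (a := 0) (b := 2) (c := 3) (cn := .up) (n1 := ndB0q0) (n2 := ndB5q3) (pc := pcB2) (cut := cut_mm_023_s) (xt := Ext.none) (P1 := 0) (W1 := 536870912) (P2 := 0) (W2 := 1230186008) (P3 := 740881858) (W3 := 40050571) (N0 := 3) (En := eng) (mo := mog) (C1 := cd0q0) (C2 := cd5q3) (C3 := pd2)
    rfl k0_mm_023_s

noncomputable def cut_mm_033_s : Cut := Cut.of [[⟨4, 0, 0, 1449551462⟩]]

noncomputable def f_mm_033_s : ℕ → ℕ → ℕ → ℕ → Bool := onCell 0 536870912 0 1230186008 740881858 40050571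
    (rowNE 3 eng mog cd0q0 cd5q3 pd3 0 false false false .pnn 0 3 3 (qsf 0 536870912 0 1230186008 3) ndB0q0 ndB5q3 pcB3 cut_mm_033_s Ext.none)

def k0_mm_033_s : ∃ t, chk3 f_mm_033_s t 1 1 1 = true :=
  ⟨(l 5), by decide +kernel⟩

theorem c_mm_033_s : CertNE 0 536870912 0 1230186008 740881858 40050571 3 eng mog cd0q0 cd5q3 pd3 false false false .pnn 0 3 3
    ndB0q0 ndB5q3 pcB3 cut_mm_033_s Ext.none :=
  certNE0 (fam := false) (s1 := false) (s2 := false) (a := 0) (b := 3) (c := 3) (cn := .pnn) (n1 := ndB0q0) (n2 := ndB5q3) (pc := pcB3) (cut := cut_mm_033_s) (xt := Ext.none) (P1 := 0) (W1 := 536870912) (P2 := 0) (W2 := 1230186008) (P3 := 740881858) (W3 := 40050571) (N0 := 3) (En := eng) (mo := mog) (C1 := cd0q0) (C2 := cd5q3) (C3 := pd3)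
    rfl k0_mm_033_s

noncomputable def cut_mm_101_s : Cut := Cut.of [[⟨4, 0, 0, 1449551462⟩], [⟨0, 1, 0, 67108864⟩, ⟨1, 0, 0, 67108864⟩, ⟨2, 1, 0, 67108864⟩]]

noncomputable def f_mm_101_s : ℕ → ℕ → ℕ → ℕ → Bool := onCell 536870912 536870912 0 536870912 740881858 40050571
    (rowNE 3 eng mog cd0q1 cd5q1 pd0 1 false false false .npn 1 0 1 (qsf 536870912 536870912 536870912 536870912 0) ndB0q1 ndB5q1 pcB0 cut_mm_101_s Ext.none)

def k0_mm_101_s : ∃ t, chk3 f_mm_101_s t 1 1 1 = true :=
  ⟨(a (l 3) (b (a (l 3) (b (a (l 3) (b (a (l 3) (b (l 14) (l 3))) (l 3))) (l 3))) (l 3))), by decide +kernel⟩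

theorem c_mm_101_s : CertNE 536870912 536870912 536870912 536870912 740881858 40050571 3 eng mog cd0q1 cd5q1 pd0 false false false .npn 1 0 1
    ndB0q1 ndB5q1 pcB0 cut_mm_101_s Ext.none :=
  certNE1 (fam := false) (s1 := false) (s2 := false) (a := 1) (b := 0) (c := 1) (cn := .npn) (n1 := ndB0q1) (n2 := ndB5q1) (pc := pcB0) (cut := cut_mm_101_s) (xt := Ext.none) (P1 := 536870912) (W1 := 536870912) (P2 := 536870912) (W2 := 536870912) (P3 := 740881858) (W3 := 40050571) (N0 := 3) (En := eng) (mo := mog) (C1 := cd0q1) (C2 := cd5q1) (C3 := pd0)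
    rfl (fun _ => rfl) k0_mm_101_s

noncomputable def cut_mm_102_s : Cut := Cut.of [[⟨4, 0, 0, 1449551462⟩], [⟨0, 1, 0, 67108864⟩, ⟨1, 0, 0, 67108864⟩, ⟨2, 1, 0, 67108864⟩]]

noncomputable def f_mm_102_s : ℕ → ℕ → ℕ → ℕ → Bool := onCell 536870912 536870912 0 536870912 740881858 40050571
    (rowNE 3 eng mog cd0q1 cd5q2 pd0 1 false false false .npp 1 0 2 (qsf 536870912 536870912 1073741824 536870912 0) ndB0q1 ndB5q2 pcB0 cut_mm_102_s Ext.none)

def k0_mm_102_s : ∃ t, chk3 f_mm_102_s t 1 1 1 = true :=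
  ⟨(a (l 3) (b (a (l 3) (b (a (l 3) (b (a (l 3) (b (l 14) (l 3))) (l 3))) (l 3))) (l 3))), by decide +kernel⟩

theorem c_mm_102_s : CertNE 536870912 536870912 1073741824 536870912 740881858 40050571 3 eng mog cd0q1 cd5q2 pd0 false false false .npp 1 0 2
    ndB0q1 ndB5q2 pcB0 cut_mm_102_s Ext.none :=
  certNE1 (fam := false) (s1 := false) (s2 := false) (a := 1) (b := 0) (c := 2) (cn := .npp) (n1 := ndB0q1) (n2 := ndB5q2) (pc := pcB0) (cut := cut_mm_102_s) (xt := Ext.none) (P1 := 536870912) (W1 := 536870912) (P2 := 1073741824) (W2 := 536870912) (P3 := 740881858) (W3 := 40050571) (N0 := 3) (En := eng) (mo := mog) (C1 := cd0q1) (C2 := cd5q2) (C3 := pd0)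
    rfl (fun _ => rfl) k0_mm_102_s

noncomputable def cut_mm_112_s : Cut := Cut.of [[⟨4, 0, 0, 1449551462⟩]]

noncomputable def f_mm_112_s : ℕ → ℕ → ℕ → ℕ → Bool := onCell 536870912 536870912 1073741824 536870912 740881858 40050571
    (rowNE 3 eng mog cd0q1 cd5q2 pd1 2 false false false .dn 1 1 2 (qsf 536870912 536870912 1073741824 536870912 1) ndB0q1 ndB5q2 pcB1 cut_mm_112_s Ext.none)

def k0_mm_112_s : ∃ t, chk3 f_mm_112_s t 1 1 1 = true :=
  ⟨(a (l 3) (l 5)), by decide +kernel⟩

theorem c_mm_112_s : CertNE 536870912 536870912 1073741824 536870912 740881858 40050571 3 eng mog cd0q1 cd5q2 pd1 false false false .dn 1 1 2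
    ndB0q1 ndB5q2 pcB1 cut_mm_112_s Ext.none :=
  certNE2 (fam := false) (s1 := false) (s2 := false) (a := 1) (b := 1) (c := 2) (cn := .dn) (n1 := ndB0q1) (n2 := ndB5q2) (pc := pcB1) (cut := cut_mm_112_s) (xt := Ext.none) (P1 := 536870912) (W1 := 536870912) (P2 := 1073741824) (W2 := 536870912) (P3 := 740881858) (W3 := 40050571) (N0 := 3) (En := eng) (mo := mog) (C1 := cd0q1) (C2 := cd5q2) (C3 := pd1)
    rfl (fun _ => rfl) k0_mm_112_s

noncomputable def cut_mm_113_s : Cut := Cut.of [[⟨4, 0, 0, 1449551462⟩]]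

noncomputable def f_mm_113_s : ℕ → ℕ → ℕ → ℕ → Bool := onCell 536870912 536870912 0 1230186008 740881858 40050571
    (rowNE 3 eng mog cd0q1 cd5q3 pd1 0 false false false .nn 1 1 3 (qsf 536870912 536870912 0 1230186008 1) ndB0q1 ndB5q3 pcB1 cut_mm_113_s Ext.none)

def k0_mm_113_s : ∃ t, chk3 f_mm_113_s t 1 1 1 = true :=
  ⟨(a (l 5) (b (l 5) (a (b (l 5) (l 3)) (l 3)))), by decide +kernel⟩

theorem c_mm_113_s : CertNE 536870912 536870912 0 1230186008 740881858 40050571 3 eng mog cd0q1 cd5q3 pd1 false false false .nn 1 1 3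
    ndB0q1 ndB5q3 pcB1 cut_mm_113_s Ext.none :=
  certNE0 (fam := false) (s1 := false) (s2 := false) (a := 1) (b := 1) (c := 3) (cn := .nn) (n1 := ndB0q1) (n2 := ndB5q3) (pc := pcB1) (cut := cut_mm_113_s) (xt := Ext.none) (P1 := 536870912) (W1 := 536870912) (P2 := 0) (W2 := 1230186008) (P3 := 740881858) (W3 := 40050571) (N0 := 3) (En := eng) (mo := mog) (C1 := cd0q1) (C2 := cd5q3) (C3 := pd1)
    rfl k0_mm_113_s

noncomputable def cut_mm_123_s : Cut := Cut.of [[⟨4, 0, 0, 1449551462⟩]]

noncomputable def f_mm_123_s : ℕ → ℕ → ℕ → ℕ → Bool := onCell 1073741824 536870912 0 1230186008 740881858 40050571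
    (rowNE 3 eng mog cd0q1 cd5q3 pd2 2 false false false .npn 1 2 3 (qsf 536870912 536870912 0 1230186008 2) ndB0q1 ndB5q3 pcB2 cut_mm_123_s Ext.none)

def k0_mm_123_s : ∃ t, chk3 f_mm_123_s t 1 1 1 = true :=
  ⟨(b (l 5) (l 5)), by decide +kernel⟩

theorem c_mm_123_s : CertNE 536870912 536870912 0 1230186008 740881858 40050571 3 eng mog cd0q1 cd5q3 pd2 false false false .npn 1 2 3
    ndB0q1 ndB5q3 pcB2 cut_mm_123_s Ext.none :=
  certNE2 (fam := false) (s1 := false) (s2 := false) (a := 1) (b := 2) (c := 3) (cn := .npn) (n1 := ndB0q1) (n2 := ndB5q3) (pc := pcB2) (cut := cut_mm_123_s) (xt := Ext.none) (P1 := 536870912) (W1 := 536870912) (P2 := 0) (W2 := 1230186008) (P3 := 740881858) (W3 := 40050571) (N0 := 3) (En := eng) (mo := mog) (C1 := cd0q1) (C2 := cd5q3) (C3 := pd2)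
    rfl (fun _ => rfl) k0_mm_123_s

noncomputable def cut_mm_133_s : Cut := Cut.of [[⟨4, 0, 0, 1449551462⟩]]

noncomputable def f_mm_133_s : ℕ → ℕ → ℕ → ℕ → Bool := onCell 1610612736 536870912 0 1230186008 740881858 40050571
    (rowNE 3 eng mog cd0q1 cd5q3 pd3 2 false false false .dn 1 3 3 (qsf 536870912 536870912 0 1230186008 3) ndB0q1 ndB5q3 pcB3 cut_mm_133_s Ext.none)

def k0_mm_133_s : ∃ t, chk3 f_mm_133_s t 1 1 1 = true :=
  ⟨(l 5), by decide +kernel⟩

theorem c_mm_133_s : CertNE 536870912 536870912 0 1230186008 740881858 40050571 3 eng mog cd0q1 cd5q3 pd3 false false false .dn 1 3 3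
    ndB0q1 ndB5q3 pcB3 cut_mm_133_s Ext.none :=
  certNE2 (fam := false) (s1 := false) (s2 := false) (a := 1) (b := 3) (c := 3) (cn := .dn) (n1 := ndB0q1) (n2 := ndB5q3) (pc := pcB3) (cut := cut_mm_133_s) (xt := Ext.none) (P1 := 536870912) (W1 := 536870912) (P2 := 0) (W2 := 1230186008) (P3 := 740881858) (W3 := 40050571) (N0 := 3) (En := eng) (mo := mog) (C1 := cd0q1) (C2 := cd5q3) (C3 := pd3)
    rfl (fun _ => rfl) k0_mm_133_s

end Pool.Agent.Strip051.G.I69_7273.Tab.CS.BB05

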