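import Pool.Agent.Strip051.G.I69_7273.Tab

/-! # Certificates B0 (generated) -/

set_option linter.all false
set_option maxRecDepth 100000

namespace Pool.Agent.Strip051.G.I69_7273.Tab.C.BA00

open Pool.Agent.Strip051.PB Pool.Agent.Strip051.PB.T
open Pool.Agent.Strip051.G.I69_7273.Tab

noncomputable def cut_pp_001 : Cut := Cut.of [[⟨3, 0, 0, 1449551462⟩], [⟨4, 0, 0, 2845415833⟩]]

noncomputable def f_pp_001 : ℕ → ℕ → ℕ → ℕ → Bool := onCell 0 536870912 0 536870912 740881858 40050571
    (rowB 3 eng mog cd0q0 cd0q0 pd1 0 true true true .up 0 0 1 (qsf 0 536870912 0 536870912 1) ndB0q0 ndB0q0 pcB1 cut_pp_001 Ext.none)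

def k0_pp_001 : ∃ t, chk3 f_pp_001 t 1 1 1 = true :=
  ⟨(l 4), by decide +kernel⟩

theorem c_pp_001 : CertB 0 536870912 0 536870912 740881858 40050571 3 eng mog cd0q0 cd0q0 pd1 true true true .up 0 0 1
    ndB0q0 ndB0q0 pcB1 cut_pp_001 Ext.none :=
  certB0 (fam := true) (s1 := true) (s2 := true) (a := 0) (b := 0) (c := 1) (cn := .up) (n1 := ndB0q0) (n2 := ndB0q0) (pc := pcB1) (cut := cut_pp_001) (xt := Ext.none) (P1 := 0) (W1 := 536870912) (P2 := 0) (W2 := 536870912) (P3 := 740881858) (W3 := 40050571) (N0 := 3) (En := eng) (mo := mog) (C1 := cd0q0) (C2 := cd0q0) (C3 := pd1)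
    rfl k0_pp_001

noncomputable def cut_pp_011 : Cut := Cut.of [[⟨3, 0, 0, 1449551462⟩], [⟨4, 0, 0, 2845415833⟩], [⟨0, 0, 0, 67108864⟩, ⟨1, 1, 0, 67108864⟩, ⟨2, 1, 0, 67108864⟩]]

noncomputable def f_pp_011 : ℕ → ℕ → ℕ → ℕ → Bool := onCell 0 536870912 536870912 536870912 740881858 40050571
    (rowB 3 eng mog cd0q0 cd0q1 pd1 0 true true true .pnn 0 1 1 (qsf 0 536870912 536870912 536870912 1) ndB0q0 ndB0q1 pcB1 cut_pp_011 Ext.none)

def k0_pp_011 : ∃ t, chk3 f_pp_011 t 1 1 1 = true :=
  ⟨(l 14), by decide +kernel⟩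

theorem c_pp_011 : CertB 0 536870912 536870912 536870912 740881858 40050571 3 eng mog cd0q0 cd0q1 pd1 true true true .pnn 0 1 1
    ndB0q0 ndB0q1 pcB1 cut_pp_011 Ext.none :=
  certB0 (fam := true) (s1 := true) (s2 := true) (a := 0) (b := 1) (c := 1) (cn := .pnn) (n1 := ndB0q0) (n2 := ndB0q1) (pc := pcB1) (cut := cut_pp_011) (xt := Ext.none) (P1 := 0) (W1 := 536870912) (P2 := 536870912) (W2 := 536870912) (P3 := 740881858) (W3 := 40050571) (N0 := 3) (En := eng) (mo := mog) (C1 := cd0q0) (C2 := cd0q1) (C3 := pd1)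
    rfl k0_pp_011

noncomputable def cut_pp_012 : Cut := Cut.of [[⟨3, 0, 0, 1449551462⟩], [⟨4, 0, 0, 2845415833⟩], [⟨0, 0, 0, 67108864⟩, ⟨1, 1, 0, 67108864⟩, ⟨2, 1, 0, 67108864⟩]]

noncomputable def f_pp_012 : ℕ → ℕ → ℕ → ℕ → Bool := onCell 0 536870912 536870912 536870912 740881858 40050571
    (rowB 3 eng mog cd0q0 cd0q1 pd2 0 true true true .pnp 0 1 2 (qsf 0 536870912 536870912 536870912 2) ndB0q0 ndB0q1 pcB2 cut_pp_012 Ext.none)

def k0_pp_012 : ∃ t, chk3 f_pp_012 t 1 1 1 = true :=
  ⟨(l 14), by decide +kernel⟩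

theorem c_pp_012 : CertB 0 536870912 536870912 536870912 740881858 40050571 3 eng mog cd0q0 cd0q1 pd2 true true true .pnp 0 1 2
    ndB0q0 ndB0q1 pcB2 cut_pp_012 Ext.none :=
  certB0 (fam := true) (s1 := true) (s2 := true) (a := 0) (b := 1) (c := 2) (cn := .pnp) (n1 := ndB0q0) (n2 := ndB0q1) (pc := pcB2) (cut := cut_pp_012) (xt := Ext.none) (P1 := 0) (W1 := 536870912) (P2 := 536870912) (W2 := 536870912) (P3 := 740881858) (W3 := 40050571) (N0 := 3) (En := eng) (mo := mog) (C1 := cd0q0) (C2 := cd0q1) (C3 := pd2)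
    rfl k0_pp_012

noncomputable def cut_pp_022 : Cut := Cut.of [[⟨3, 0, 0, 1449551462⟩], [⟨4, 0, 0, 2845415833⟩], [⟨0, 0, 0, 67108864⟩, ⟨1, 1, 0, 67108864⟩, ⟨2, 1, 0, 67108864⟩]]

noncomputable def f_pp_022 : ℕ → ℕ → ℕ → ℕ → Bool := onCell 0 536870912 0 536870912 740881858 40050571
    (rowB 3 eng mog cd0q0 cd0q2 pd2 0 true true true .pp 0 2 2 (qsf 0 536870912 0 536870912 2) ndB0q0 ndB0q2 pcB2 cut_pp_022 Ext.none)

def k0_pp_022 : ∃ t, chk3 f_pp_022 t 1 4 1 = true :=
  ⟨(b (a (b (a (a (a (c (l 16375944) (l 16431120)) (c (l 16464656) (l 16440272))) (a (a (l 16458064) (l 16461384)) (a (l 16466160) (l 16473464)))) (a (a (l 16489232) (l 16516784)) (a (l 16542768) (l 16566600)))) (a (a (a (a (c (b (l 16341512) (l 16446128)) (l 16441248)) (c (l 16461856) (l 16444240))) (c (l 16472736) (l 16449640))) (a (c (l 16476416) (l 16458024)) (l 16499216))) (a (a (l 16519760) (l 16527296)) (a (l 16554136) (l 16578736))))) (a (a (a (b (l 16591624) (l 16604536)) (b (l 16615952) (l 16650680)))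 (a (b (l 16635448) (l 16712976)) (b (l 16673248) (l 14)))) (l 2))) (a (a (a (a (a (a (b (l 16334376) (l 16468512)) (b (l 16466440) (l 16472184))) (c (l 16469216) (l 16460224))) (c (b (l 16481040) (l 16491408)) (b (l 16460040) (l 16472408)))) (a (a (b (l 16476224) (l 16488408)) (b (l 16480176) (l 16492784))) (c (l 16502008) (b (l 16481968) (l 16495856))))) (a (a (b (l 16552592) (a (l 16517912) (l 16532048))) (b (l 16540080) (l 16576200))) (a (b (l 16567752) (l 16604760)) (b (l 16593088) (l 16630888))))) (a (a (a (b (l 16661568) (a (l 16630160) (l 16644112))) (b (l 16645608) (l 14))) (l 14)) (l 2)))), by decide +kernel⟩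

def k1_pp_022 : ∃ t, chk3 f_pp_022 t 4 5 1 = true :=
  ⟨(a (b (b (a (a (a (l 16477992) (l 16481232)) (l 16491048)) (c (l 16504752) (l 16487680))) (c (a (a (l 16548056) (l 16538976)) (l 16578224)) (a (a (a (l 16475848) (l 16487320)) (l 16559480)) (a (l 16502840) (l 16508712))))) (b (a (b (a (c (l 16498016) (l 16491480)) (c (l 16537896) (l 16510232))) (a (a (l 16409176) (l 16493936)) (c (a (l 16507016) (l 16510232)) (c (l 16521784) (l 16514576))))) (a (b (l 16523632) (l 16466464)) (c (l 16534936) (l 16530344)))) (a (a (c (b (l 16516424) (a (l 16526584) (l 16526496))) (a (b (l 16439472) (a (l 16467072) (l 16514944))) (b (l 16513944) (l 16486824)))) (a (b (a (l 16524624) (l 16524832)) (b (l 16510960) (l 16482160))) (b (c (a (l 16517312) (l 16518808)) (l 16534536)) (c (c (l 16524912) (l 16531704)) (l 16543880))))) (b (a (a (c (l 16524080) (l 16540000)) (l 16539192)) (c (l 16544384) (l 16548904))) (c (a (a (a (b (l 16527504) (l 16532456)) (b (l 16531240) (l 16535192))) (l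 16539312)) (a (l 16547480) (l 16555592))) (a (a (b (l 16544784) (l 16548872)) (l 16553552)) (l 16562256))))))) (b (a (b (a (l 16503456) (l 16508200)) (c (l 16571880) (a (l 16514416) (l 16520184)))) (b (a (l 16514440) (l 16523024)) (a (l 16538400) (l 16562920)))) (a (b (a (c (l 16548720) (l 16557472)) (c (l 16553568) (l 16554432))) (b (c (a (l 16560328) (l 16571648)) (a (l 16555536) (l 16561792))) (c (a (l 16567680) (l 16583720)) (a (c (l 16572112) (l 16565984)) (a (l 16574048) (l 16577288)))))) (b (a (c (l 16559600) (b (l 16543664) (l 16555800))) (c (l 16588952) (l 16580192))) (b (a (c (l 16577696) (a (l 16566920) (l 16570992))) (c (l 16586032) (l 16578248))) (a (c (l 16590912) (c (l 16543224) (l 16601400))) (l 14))))))), by decide +kernel⟩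

def k2_pp_022 : ∃ t, chk3 f_pp_022 t 5 5 1 = true :=
  ⟨(a (b (a (b (a (l 16534368) (l 16548864)) (a (l 16574472) (l 16589160))) (b (a (l 16564784) (l 16580368)) (a (l 16605384) (l 16600304)))) (a (b (a (b (l 16569600) (l 16602352)) (b (l 16584336) (l 16617048))) (a (a (b (l 16590808) (l 14)) (l 14)) (l 14))) (b (a (b (l 16600640) (l 14)) (l 14)) (l 14)))) (b (b (a (a (l 16595136) (l 16608824)) (a (l 16622080) (l 16635624))) (a (a (l 16615376) (l 14)) (l 14))) (l 14))), by decide +kernel⟩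

def k3_pp_022 : ∃ t, chk3 f_pp_022 t 3 5 1 = true :=
  ⟨(l 14), by decide +kernel⟩

def k4_pp_022 : ∃ t, chk3 f_pp_022 t 4 24 1 = true :=
  ⟨(a (a (a (c (b (a (l 16536968) (l 16538208)) (a (c (l 16547944) (l 16541712)) (l 16572488))) (c (a (b (l 16525704) (b (l 16532416) (l 16536872))) (b (l 16537160) (l 16546184))) (a (b (l 16517056) (l 16547832)) (b (l 16528680) (b (l 16536024) (l 16540944)))))) (a (c (c (b (l 16535840) (l 16549648)) (l 16580304)) (c (a (l 16570976) (l 16555272)) (b (l 16539688) (c (l 16551568) (l 16547600))))) (c (b (c (l 16537296) (l 16543560)) (c (l 16572264) (l 16556968))) (b (l 16554240) (a (l 16561312) (l 16566352)))))) (c (a (a (b (a (l 16562680) (b (l 16561104) (l 16567144))) (c (l 16574504) (b (l 16555440) (l 16562616)))) (a (b (b (l 16543648) (l 16569616)) (b (a (l 16554120) (l 16576152)) (l 16561864))) (b (l 16550136) (b (l 16578848) (a (b (l 16561360) (l 16564920)) (l 16585664)))))) (a (b (l 16577256) (b (l 16564032) (l 16590736))) (b (c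 (l 16562056) (l 16567056)) (b (l 16572232) (l 16598944))))) (b (a (a (b (l 16553720) (l 16559328)) (c (l 16557832) (l 16565488))) (c (l 16569112) (l 16572264))) (b (a (a (l 16565576) (c (l 16575984) (l 16572696))) (c (l 16576352) (l 16582496))) (a (a (l 16572192) (a (l 16573944) (a (l 16575104) (l 16576456)))) (a (l 16581008) (l 16588448))))))) (a (a (b (c (a (c (l 16570352) (l 16575040)) (l 16580728)) (c (l 16584368) (l 16580048))) (b (c (a (l 16601384) (l 16588600)) (c (l 16591704) (l 16590648))) (l 14))) (b (a (c (l 16588856) (l 16588152)) (c (l 16596968) (l 16602024))) (l 14))) (l 14))), by decide +kernel⟩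

def k5_pp_022 : ∃ t, chk3 f_pp_022 t 4 25 1 = true :=
  ⟨(a (a (a (c (a (b (b (l 16520640) (a (l 16510008) (l 16557760))) (c (b (l 16561704) (l 16539928)) (b (l 16556568) (l 16582272)))) (c (b (l 16563568) (l 16575256)) (b (l 16561408) (b (l 16568048) (l 16551848))))) (a (a (b (b (l 16534872) (l 16560680)) (c (b (l 16547856) (l 16552936)) (b (l 16541536) (l 16547016)))) (b (b (l 16540816) (l 16566640)) (b (l 16566464) (c (l 16558888) (l 16553016))))) (b (b (a (l 16504696) (l 16510384)) (a (l 16572472) (l 16525744))) (c (b (l 16583440) (l 16588552)) (a (b (l 16553384) (l 16558888)) (l 16577624)))))) (c (b (a (c (l 16564864) (l 16570096)) (c (b (l 16562752) (l 16570680)) (l 16571744))) (c (a (l 16580752) (b (l 16578712) (l 16586848))) (a (b (l 16579000) (l 16583824)) (l 16587248)))) (a (c (b (l 16545352) (b (l 16573592) (l 16552528))) (b (c (l 16535176) (l 16578840)) (b (l 16588504) (l 16583552)))) (b (c (l 16576768) (c (l 16571976) (l 16542320))) (c (b (l 16584160) (l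 16589376)) (b (l 16552040) (b (l 16561456) (l 14)))))))) (a (b (a (c (a (c (l 16568464) (l 16573368)) (b (l 16568200) (l 16597072))) (c (l 16579592) (l 16580304))) (c (a (b (l 16569624) (l 16598536)) (b (b (l 16586304) (l 16573176)) (l 16600152))) (c (b (l 16583784) (l 16585960)) (b (l 16584968) (l 16591960))))) (a (a (b (b (c (l 16559752) (l 16587544)) (l 14)) (l 14)) (l 14)) (l 14))) (b (b (a (a (b (c (l 16593264) (l 16583312)) (a (c (l 16595656) (l 16585488)) (l 14))) (c (l 16577968) (l 16588448))) (l 14)) (l 14)) (l 14)))) (l 14)), by decide +kernel⟩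

def k6_pp_022 : ∃ t, chk3 f_pp_022 t 4 13 1 = true :=
  ⟨(a (a (b (b (a (b (a (a (c (l 16576152) (c (l 16558248) (l 16552728))) (c (c (l 16573736) (l 16569216)) (c (l 16564216) (l 16558728)))) (c (a (b (l 16555064) (l 16557552)) (l 16561920)) (c (l 16586032) (a (l 16564608) (l 16570376))))) (a (c (a (c (l 16572848) (l 16568536)) (l 16588440)) (a (c (l 16563808) (c (l 16559984) (l 16557304))) (c (l 16569784) (l 16564664)))) (l 14))) (l 14)) (l 14)) (l 14)) (l 14)) (l 14)), by decide +kernel⟩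

def k7_pp_022 : ∃ t, chk3 f_pp_022 t 4 7 1 = true :=
  ⟨(l 14), by decide +kernel⟩

def k8_pp_022 : ∃ t, chk3 f_pp_022 t 5 3 1 = true :=
  ⟨(l 14), by decide +kernel⟩

def k9_pp_022 : ∃ t, chk3 f_pp_022 t 3 3 1 = true :=
  ⟨(l 14), by decide +kernel⟩

theorem s10_pp_022 : ∃ t, chk3 f_pp_022 t 4 12 1 = true := ex3_b k4_pp_022 k5_pp_022

theorem s11_pp_022 : ∃ t, chk3 f_pp_022 t 4 6 1 = true := ex3_b s10_pp_022 k6_pp_022

theorem s12_pp_022 : ∃ t, chk3 f_pp_022 t 4 3 1 = true := ex3_b s11_pp_022 k7_pp_022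

theorem s13_pp_022 : ∃ t, chk3 f_pp_022 t 2 3 1 = true := ex3_a s12_pp_022 k8_pp_022

theorem s14_pp_022 : ∃ t, chk3 f_pp_022 t 1 3 1 = true := ex3_a s13_pp_022 k9_pp_022

theorem s15_pp_022 : ∃ t, chk3 f_pp_022 t 2 5 1 = true := ex3_a k1_pp_022 k2_pp_022

theorem s16_pp_022 : ∃ t, chk3 f_pp_022 t 1 5 1 = true := ex3_a s15_pp_022 k3_pp_022

theorem s17_pp_022 : ∃ t, chk3 f_pp_022 t 1 2 1 = true := ex3_b k0_pp_022 s16_pp_022

theorem s18_pp_022 : ∃ t, chk3 f_pp_022 t 1 1 1 = true := ex3_b s17_pp_022 s14_pp_022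

theorem c_pp_022 : CertB 0 536870912 0 536870912 740881858 40050571 3 eng mog cd0q0 cd0q2 pd2 true true true .pp 0 2 2
    ndB0q0 ndB0q2 pcB2 cut_pp_022 Ext.none :=
  certB0 (fam := true) (s1 := true) (s2 := true) (a := 0) (b := 2) (c := 2) (cn := .pp) (n1 := ndB0q0) (n2 := ndB0q2) (pc := pcB2) (cut := cut_pp_022) (xt := Ext.none) (P1 := 0) (W1 := 536870912) (P2 := 0) (W2 := 536870912) (P3 := 740881858) (W3 := 40050571) (N0 := 3) (En := eng) (mo := mog) (C1 := cd0q0) (C2 := cd0q2) (C3 := pd2)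
    rfl s18_pp_022

noncomputable def cut_pp_023 : Cut := Cut.of [[⟨3, 0, 0, 1449551462⟩], [⟨4, 0, 0, 2845415833⟩]]

noncomputable def f_pp_023 : ℕ → ℕ → ℕ → ℕ → Bool := onCell 1610612736 536870912 0 536870912 740881858 40050571
    (rowB 3 eng mog cd0q0 cd0q2 pd3 2 true true true .up 0 2 3 (qsf 0 536870912 0 536870912 3) ndB0q0 ndB0q2 pcB3 cut_pp_023 Ext.none)

def k0_pp_023 : ∃ t, chk3 f_pp_023 t 1 1 1 = true :=
  ⟨(a (b (a (b (a (b (a (b (l 16652344) (l 14)) (l 14)) (l 14)) (l 14)) (l 14)) (l 14)) (l 4)) (l 2)), by decide +kernel⟩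

theorem c_pp_023 : CertB 0 536870912 0 536870912 740881858 40050571 3 eng mog cd0q0 cd0q2 pd3 true true true .up 0 2 3
    ndB0q0 ndB0q2 pcB3 cut_pp_023 Ext.none :=
  certB2 (fam := true) (s1 := true) (s2 := true) (a := 0) (b := 2) (c := 3) (cn := .up) (n1 := ndB0q0) (n2 := ndB0q2) (pc := pcB3) (cut := cut_pp_023) (xt := Ext.none) (P1 := 0) (W1 := 536870912) (P2 := 0) (W2 := 536870912) (P3 := 740881858) (W3 := 40050571) (N0 := 3) (En := eng) (mo := mog) (C1 := cd0q0) (C2 := cd0q2) (C3 := pd3)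
    rfl (fun _ => rfl) k0_pp_023

noncomputable def cut_pp_101 : Cut := Cut.of [[⟨3, 0, 0, 1449551462⟩], [⟨4, 0, 0, 2845415833⟩]]

noncomputable def f_pp_101 : ℕ → ℕ → ℕ → ℕ → Bool := onCell 536870912 536870912 0 536870912 740881858 40050571
    (rowB 3 eng mog cd0q1 cd0q0 pd1 0 true true true .npn 1 0 1 (qsf 536870912 536870912 0 536870912 1) ndB0q1 ndB0q0 pcB1 cut_pp_101 Ext.none)

def k0_pp_101 : ∃ t, chk3 f_pp_101 t 1 1 1 = true :=
  ⟨(l 14), by decide +kernel⟩

theorem c_pp_101 : CertB 536870912 536870912 0 536870912 740881858 40050571 3 eng mog cd0q1 cd0q0 pd1 true true true .npn 1 0 1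
    ndB0q1 ndB0q0 pcB1 cut_pp_101 Ext.none :=
  certB0 (fam := true) (s1 := true) (s2 := true) (a := 1) (b := 0) (c := 1) (cn := .npn) (n1 := ndB0q1) (n2 := ndB0q0) (pc := pcB1) (cut := cut_pp_101) (xt := Ext.none) (P1 := 536870912) (W1 := 536870912) (P2 := 0) (W2 := 536870912) (P3 := 740881858) (W3 := 40050571) (N0 := 3) (En := eng) (mo := mog) (C1 := cd0q1) (C2 := cd0q0) (C3 := pd1)
    rfl k0_pp_101

noncomputable def cut_pp_102 : Cut := Cut.of [[⟨3, 0, 0, 1449551462⟩], [⟨4, 0, 0, 2845415833⟩]]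

noncomputable def f_pp_102 : ℕ → ℕ → ℕ → ℕ → Bool := onCell 536870912 536870912 0 536870912 740881858 40050571
    (rowB 3 eng mog cd0q1 cd0q0 pd2 0 true true true .npp 1 0 2 (qsf 536870912 536870912 0 536870912 2) ndB0q1 ndB0q0 pcB2 cut_pp_102 Ext.none)

def k0_pp_102 : ∃ t, chk3 f_pp_102 t 1 1 1 = true :=
  ⟨(l 14), by decide +kernel⟩

theorem c_pp_102 : CertB 536870912 536870912 0 536870912 740881858 40050571 3 eng mog cd0q1 cd0q0 pd2 true true true .npp 1 0 2
    ndB0q1 ndB0q0 pcB2 cut_pp_102 Ext.none :=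
  certB0 (fam := true) (s1 := true) (s2 := true) (a := 1) (b := 0) (c := 2) (cn := .npp) (n1 := ndB0q1) (n2 := ndB0q0) (pc := pcB2) (cut := cut_pp_102) (xt := Ext.none) (P1 := 536870912) (W1 := 536870912) (P2 := 0) (W2 := 536870912) (P3 := 740881858) (W3 := 40050571) (N0 := 3) (En := eng) (mo := mog) (C1 := cd0q1) (C2 := cd0q0) (C3 := pd2)
    rfl k0_pp_102

noncomputable def cut_pp_112 : Cut := Cut.of [[⟨3, 0, 0, 1449551462⟩], [⟨4, 0, 0, 2845415833⟩]]

noncomputable def f_pp_112 : ℕ → ℕ → ℕ → ℕ → Bool := onCell 536870912 536870912 536870912 536870912 740881858 40050571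
    (rowB 3 eng mog cd0q1 cd0q1 pd2 0 true true true .dn 1 1 2 (qsf 536870912 536870912 536870912 536870912 2) ndB0q1 ndB0q1 pcB2 cut_pp_112 Ext.none)

def k0_pp_112 : ∃ t, chk3 f_pp_112 t 1 1 1 = true :=
  ⟨(l 4), by decide +kernel⟩

theorem c_pp_112 : CertB 536870912 536870912 536870912 536870912 740881858 40050571 3 eng mog cd0q1 cd0q1 pd2 true true true .dn 1 1 2
    ndB0q1 ndB0q1 pcB2 cut_pp_112 Ext.none :=
  certB0 (fam := true) (s1 := true) (s2 := true) (a := 1) (b := 1) (c := 2) (cn := .dn) (n1 := ndB0q1) (n2 := ndB0q1) (pc := pcB2) (cut := cut_pp_112) (xt := Ext.none) (P1 := 536870912) (W1 := 536870912) (P2 := 536870912) (W2 := 536870912) (P3 := 740881858) (W3 := 40050571) (N0 := 3) (En := eng) (mo := mog) (C1 := cd0q1) (C2 := cd0q1) (C3 := pd2)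
    rfl k0_pp_112

noncomputable def cut_pp_113 : Cut := Cut.of [[⟨3, 0, 0, 1449551462⟩], [⟨4, 0, 0, 2845415833⟩]]

noncomputable def f_pp_113 : ℕ → ℕ → ℕ → ℕ → Bool := onCell 536870912 536870912 536870912 536870912 740881858 40050571
    (rowB 3 eng mog cd0q1 cd0q1 pd3 0 true true true .nn 1 1 3 (qsf 536870912 536870912 536870912 536870912 3) ndB0q1 ndB0q1 pcB3 cut_pp_113 Ext.none)

def k0_pp_113 : ∃ t, chk3 f_pp_113 t 1 1 1 = true :=
  ⟨(l 4), by decide +kernel⟩

theorem c_pp_113 : CertB 536870912 536870912 536870912 536870912 740881858 40050571 3 eng mog cd0q1 cd0q1 pd3 true true true .nn 1 1 3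
    ndB0q1 ndB0q1 pcB3 cut_pp_113 Ext.none :=
  certB0 (fam := true) (s1 := true) (s2 := true) (a := 1) (b := 1) (c := 3) (cn := .nn) (n1 := ndB0q1) (n2 := ndB0q1) (pc := pcB3) (cut := cut_pp_113) (xt := Ext.none) (P1 := 536870912) (W1 := 536870912) (P2 := 536870912) (W2 := 536870912) (P3 := 740881858) (W3 := 40050571) (N0 := 3) (En := eng) (mo := mog) (C1 := cd0q1) (C2 := cd0q1) (C3 := pd3)
    rfl k0_pp_113

noncomputable def cut_pp_123 : Cut := Cut.of [[⟨3, 0, 0, 1449551462⟩], [⟨4, 0, 0, 2845415833⟩]]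

noncomputable def f_pp_123 : ℕ → ℕ → ℕ → ℕ → Bool := onCell 536870912 536870912 0 536870912 740881858 40050571
    (rowB 3 eng mog cd0q1 cd0q2 pd3 0 true true true .npn 1 2 3 (qsf 536870912 536870912 0 536870912 3) ndB0q1 ndB0q2 pcB3 cut_pp_123 Ext.none)

def k0_pp_123 : ∃ t, chk3 f_pp_123 t 1 1 1 = true :=
  ⟨(a (l 14) (l 4)), by decide +kernel⟩

theorem c_pp_123 : CertB 536870912 536870912 0 536870912 740881858 40050571 3 eng mog cd0q1 cd0q2 pd3 true true true .npn 1 2 3
    ndB0q1 ndB0q2 pcB3 cut_pp_123 Ext.none :=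
  certB0 (fam := true) (s1 := true) (s2 := true) (a := 1) (b := 2) (c := 3) (cn := .npn) (n1 := ndB0q1) (n2 := ndB0q2) (pc := pcB3) (cut := cut_pp_123) (xt := Ext.none) (P1 := 536870912) (W1 := 536870912) (P2 := 0) (W2 := 536870912) (P3 := 740881858) (W3 := 40050571) (N0 := 3) (En := eng) (mo := mog) (C1 := cd0q1) (C2 := cd0q2) (C3 := pd3)
    rfl k0_pp_123

noncomputable def cut_pp_202 : Cut := Cut.of [[⟨3, 0, 0, 1449551462⟩], [⟨4, 0, 0, 2845415833⟩]]

noncomputable def f_pp_202 : ℕ → ℕ → ℕ → ℕ → Bool := onCell 0 536870912 0 536870912 740881858 40050571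
    (rowB 3 eng mog cd0q2 cd0q0 pd2 0 true true true .pp 2 0 2 (qsf 0 536870912 0 536870912 2) ndB0q2 ndB0q0 pcB2 cut_pp_202 Ext.none)

def k0_pp_202 : ∃ t, chk3 f_pp_202 t 1 1 1 = true :=
  ⟨(l 5), by decide +kernel⟩

theorem c_pp_202 : CertB 0 536870912 0 536870912 740881858 40050571 3 eng mog cd0q2 cd0q0 pd2 true true true .pp 2 0 2
    ndB0q2 ndB0q0 pcB2 cut_pp_202 Ext.none :=
  certB0 (fam := true) (s1 := true) (s2 := true) (a := 2) (b := 0) (c := 2) (cn := .pp) (n1 := ndB0q2) (n2 := ndB0q0) (pc := pcB2) (cut := cut_pp_202) (xt := Ext.none) (P1 := 0) (W1 := 536870912) (P2 := 0) (W2 := 536870912) (P3 := 740881858) (W3 := 40050571) (N0 := 3) (En := eng) (mo := mog) (C1 := cd0q2) (C2 := cd0q0) (C3 := pd2)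
    rfl k0_pp_202

noncomputable def cut_pp_203 : Cut := Cut.of [[⟨3, 0, 0, 1449551462⟩], [⟨4, 0, 0, 2845415833⟩]]

noncomputable def f_pp_203 : ℕ → ℕ → ℕ → ℕ → Bool := onCell 0 536870912 0 536870912 740881858 40050571
    (rowB 3 eng mog cd0q2 cd0q0 pd3 0 true true true .up 2 0 3 (qsf 0 536870912 0 536870912 3) ndB0q2 ndB0q0 pcB3 cut_pp_203 Ext.none)

def k0_pp_203 : ∃ t, chk3 f_pp_203 t 1 1 1 = true :=
  ⟨(l 5), by decide +kernel⟩

theorem c_pp_203 : CertB 0 536870912 0 536870912 740881858 40050571 3 eng mog cd0q2 cd0q0 pd3 true true true .up 2 0 3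
    ndB0q2 ndB0q0 pcB3 cut_pp_203 Ext.none :=
  certB0 (fam := true) (s1 := true) (s2 := true) (a := 2) (b := 0) (c := 3) (cn := .up) (n1 := ndB0q2) (n2 := ndB0q0) (pc := pcB3) (cut := cut_pp_203) (xt := Ext.none) (P1 := 0) (W1 := 536870912) (P2 := 0) (W2 := 536870912) (P3 := 740881858) (W3 := 40050571) (N0 := 3) (En := eng) (mo := mog) (C1 := cd0q2) (C2 := cd0q0) (C3 := pd3)
    rfl k0_pp_203

noncomputable def cut_pp_213 : Cut := Cut.of [[⟨3, 0, 0, 1449551462⟩], [⟨4, 0, 0, 2845415833⟩]]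

noncomputable def f_pp_213 : ℕ → ℕ → ℕ → ℕ → Bool := onCell 0 536870912 536870912 536870912 740881858 40050571
    (rowB 3 eng mog cd0q2 cd0q1 pd3 0 true true true .pnn 2 1 3 (qsf 0 536870912 536870912 536870912 3) ndB0q2 ndB0q1 pcB3 cut_pp_213 Ext.none)

def k0_pp_213 : ∃ t, chk3 f_pp_213 t 1 1 1 = true :=
  ⟨(a (l 5) (l 4)), by decide +kernel⟩

theorem c_pp_213 : CertB 0 536870912 536870912 536870912 740881858 40050571 3 eng mog cd0q2 cd0q1 pd3 true true true .pnn 2 1 3
    ndB0q2 ndB0q1 pcB3 cut_pp_213 Ext.none :=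
  certB0 (fam := true) (s1 := true) (s2 := true) (a := 2) (b := 1) (c := 3) (cn := .pnn) (n1 := ndB0q2) (n2 := ndB0q1) (pc := pcB3) (cut := cut_pp_213) (xt := Ext.none) (P1 := 0) (W1 := 536870912) (P2 := 536870912) (W2 := 536870912) (P3 := 740881858) (W3 := 40050571) (N0 := 3) (En := eng) (mo := mog) (C1 := cd0q2) (C2 := cd0q1) (C3 := pd3)
    rfl k0_pp_213

noncomputable def cut_pm_001 : Cut := Cut.of [[⟨3, 0, 0, 1449551462⟩], [⟨4, 0, 0, 2845415833⟩]]

noncomputable def f_pm_001 : ℕ → ℕ → ℕ → ℕ → Bool := onCell 0 536870912 0 536870912 740881858 40050571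
    (rowB 3 eng mog cd0q0 cd0q0 pd1 0 true true false .up 0 0 1 (qsf 0 536870912 0 536870912 1) ndB0q0 ndB0q0 pcB1 cut_pm_001 Ext.none)

def k0_pm_001 : ∃ t, chk3 f_pm_001 t 1 1 1 = true :=
  ⟨(l 3), by decide +kernel⟩

theorem c_pm_001 : CertB 0 536870912 0 536870912 740881858 40050571 3 eng mog cd0q0 cd0q0 pd1 true true false .up 0 0 1
    ndB0q0 ndB0q0 pcB1 cut_pm_001 Ext.none :=
  certB0 (fam := true) (s1 := true) (s2 := false) (a := 0) (b := 0) (c := 1) (cn := .up) (n1 := ndB0q0) (n2 := ndB0q0) (pc := pcB1) (cut := cut_pm_001) (xt := Ext.none) (P1 := 0) (W1 := 536870912) (P2 := 0) (W2 := 536870912) (P3 := 740881858) (W3 := 40050571) (N0 := 3) (En := eng) (mo := mog) (C1 := cd0q0) (C2 := cd0q0) (C3 := pd1)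
    rfl k0_pm_001

noncomputable def cut_pm_011 : Cut := Cut.of [[⟨3, 0, 0, 1449551462⟩], [⟨4, 0, 0, 2845415833⟩], [⟨0, 0, 0, 67108864⟩, ⟨1, 1, 0, 67108864⟩, ⟨2, 1, 0, 67108864⟩]]

noncomputable def f_pm_011 : ℕ → ℕ → ℕ → ℕ → Bool := onCell 0 536870912 536870912 536870912 740881858 40050571
    (rowB 3 eng mog cd0q0 cd0q1 pd1 1 true true false .pnn 0 1 1 (qsf 0 536870912 536870912 536870912 1) ndB0q0 ndB0q1 pcB1 cut_pm_011 Ext.none)

def k0_pm_011 : ∃ t, chk3 f_pm_011 t 1 1 1 = true :=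
  ⟨(l 6), by decide +kernel⟩

theorem c_pm_011 : CertB 0 536870912 536870912 536870912 740881858 40050571 3 eng mog cd0q0 cd0q1 pd1 true true false .pnn 0 1 1
    ndB0q0 ndB0q1 pcB1 cut_pm_011 Ext.none :=
  certB1 (fam := true) (s1 := true) (s2 := false) (a := 0) (b := 1) (c := 1) (cn := .pnn) (n1 := ndB0q0) (n2 := ndB0q1) (pc := pcB1) (cut := cut_pm_011) (xt := Ext.none) (P1 := 0) (W1 := 536870912) (P2 := 536870912) (W2 := 536870912) (P3 := 740881858) (W3 := 40050571) (N0 := 3) (En := eng) (mo := mog) (C1 := cd0q0) (C2 := cd0q1) (C3 := pd1)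
    rfl (fun _ => rfl) k0_pm_011

noncomputable def cut_pm_012 : Cut := Cut.of [[⟨3, 0, 0, 1449551462⟩], [⟨4, 0, 0, 2845415833⟩], [⟨0, 0, 0, 53687091⟩, ⟨1, 1, 0, 53687091⟩, ⟨2, 1, 0, 53687091⟩]]

noncomputable def f_pm_012 : ℕ → ℕ → ℕ → ℕ → Bool := onCell 0 536870912 536870912 536870912 740881858 40050571
    (rowB 3 eng mog cd0q0 cd0q1 pd2 0 true true false .pnp 0 1 2 (qsf 0 536870912 536870912 536870912 2) ndB0q0 ndB0q1 pcB2 cut_pm_012 Ext.none)

def k0_pm_012 : ∃ t, chk3 f_pm_012 t 1 2 1 = true :=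
  ⟨(l 6), by decide +kernel⟩

def k1_pm_012 : ∃ t, chk3 f_pm_012 t 2 3 1 = true :=
  ⟨(b (l 6) (a (l 6) (b (l 6) (a (l 6) (b (l 6) (a (l 6) (b (l 6) (a (b (l 6) (a (b (l 6) (c (l 16499656) (l 16488976))) (c (c (l 16498816) (l 16493544)) (c (l 16488240) (l 16482904))))) (a (b (b (l 6) (c (l 16500744) (l 16490040))) (c (c (l 16491216) (l 16485960)) (c (l 16480728) (l 16475512)))) (b (c (c (l 16499680) (l 16494352)) (c (l 16489008) (l 16483648))) (c (c (l 16483696) (l 16478448)) (c (l 16473272) (l 16468160))))))))))))), by decide +kernel⟩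

def k2_pm_012 : ∃ t, chk3 f_pm_012 t 3 6 1 = true :=
  ⟨(a (l 6) (b (l 6) (a (b (l 6) (b (l 6) (a (l 6) (a (l 6) (c (l 16544744) (c (l 16545960) (l 16544880))))))) (a (b (l 6) (c (a (b (l 16553328) (l 16529840)) (b (l 16538680) (l 16515728))) (c (b (l 16570360) (l 16524056)) (b (a (l 16556848) (l 16542280)) (a (l 16530272) (l 16516240)))))) (a (b (b (l 6) (a (l 16557288) (l 16551040))) (c (b (l 16546032) (l 16502568)) (b (l 16549384) (l 16503432)))) (b (b (a (l 16572192) (l 16566504)) (l 16563224)) (b (b (l 16521120) (l 16508584)) (l 16491224)))))))), by decide +kernel⟩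

def k3_pm_012 : ∃ t, chk3 f_pm_012 t 6 14 1 = true :=
  ⟨(a (l 6) (b (l 6) (a (b (l 6) (b (l 6) (a (l 6) (a (a (l 6) (b (l 6) (c (l 16510424) (l 16500680)))) (c (c (l 16511112) (l 16506680)) (c (l 16501896) (c (l 16498080) (a (l 16497120) (l 16493712))))))))) (a (a (b (l 6) (b (b (l 6) (a (b (l 6) (l 16508576)) (a (l 16507896) (l 16506168)))) (c (l 16502168) (c (l 16495128) (l 16489936))))) (b (b (l 6) (a (l 6) (b (l 6) (b (l 6) (l 16513800))))) (c (l 16502408) (c (l 16495712) (b (l 16498584) (l 16483072)))))) (a (b (b (l 6) (c (l 16518096) (c (l 16512592) (l 16513408)))) (c (l 16495472) (c (l 16488800) (b (l 16491552) (l 16476176))))) (b (c (l 16518568) (c (l 16513528) (b (c (l 16519032) (l 16516880)) (l 16500992)))) (c (l 16488520) (c (l 16481872) (b (l 16484504) (l 16469264)))))))))), by decide +kernel⟩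

def k4_pm_012 : ∃ t, chk3 f_pm_012 t 12 30 1 = true :=
  ⟨(a (a (l 6) (a (l 6) (b (l 6) (b (l 6) (b (l 6) (c (l 16528008) (l 16496280))))))) (a (b (l 6) (b (a (l 6) (a (l 6) (b (l 6) (c (l 16504048) (l 16493296))))) (c (c (a (l 16526608) (l 16519352)) (a (l 16500272) (l 16492944))) (c (a (l 16494872) (l 16487488)) (a (l 16489440) (l 16482016)))))) (a (b (l 6) (c (b (c (c (l 16505992) (l 16503352)) (l 16499352)) (c (b (l 16494760) (l 16488064)) (l 16485896))) (b (c (l 16493968) (l 16488512)) (a (c (l 16482128) (l 16476616)) (b (l 16479280) (l 16472448)))))) (b (b (l 6) (c (c (c (l 16512136) (l 16509600)) (l 16505744)) (c (l 16500496) (l 16495120)))) (c (c (b (b (l 16501040) (a (l 16496232) (l 16492880))) (c (l 16507128) (l 16483360))) (b (l 16492400) (l 16479144))) (b (a (c (l 16488672) (l 16483168)) (b (l 16485824) (l 16479120))) (c (c (l 16474920) (l 16472096)) (b (a (l 16473024) (l 16469560)) (l 16464448))))))))), by decide +kernel⟩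

def k5_pm_012 : ∃ t, chk3 f_pm_012 t 13 30 1 = true :=
  ⟨(a (c (b (a (c (b (a (c (l 16518624) (l 16516248)) (a (l 16512344) (l 16529976))) (a (b (l 16507344) (a (l 16502464) (l 16499136))) (a (l 16520056) (l 16495840)))) (b (a (l 16512584) (l 16505792)) (a (l 16498872) (l 16492248)))) (b (a (c (c (l 16505256) (l 16502888)) (l 16499216)) (l 16495136)) (c (l 16487848) (l 16482624)))) (a (b (a (c (a (l 16513768) (l 16489552)) (l 16485712)) (l 16482040)) (c (l 16475256) (l 16469496))) (b (a (l 16475816) (l 16469616)) (a (l 16463248) (l 16457216))))) (b (a (b (a (c (l 16507552) (l 16502328)) (b (l 16501704) (a (l 16496208) (l 16492848)))) (c (a (l 16493560) (l 16486872)) (a (b (l 16491592) (a (l 16486392) (l 16482960))) (b (a (l 16486456) (l 16483104)) (l 16477904))))) (b (a (c (l 16494088) (b (l 16492328) (l 16485144))) (l 16484832)) (a (c (l 16480400) (l 16474744)) (l 16471136)))) (a (b (a (c (c (l 16481560) (l 16478768)) (b (a (l 16479608) (l 16476200)) (l 16471192)))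 (c (l 16473624) (l 16467848))) (a (c (l 16466888) (l 16461064)) (l 16457528))) (b (a (l 16464376) (l 16458056)) (a (l 16451288) (l 16445112)))))) (b (c (a (b (l 16485208) (l 16472424)) (b (l 16471848) (l 16459408))) (a (a (b (l 16478184) (l 16464624)) (b (a (l 16473168) (l 16469808)) (l 16458072))) (b (c (l 16464200) (c (l 16459960) (l 16456984))) (a (l 16451496) (l 16444912))))) (a (c (b (l 16460200) (l 16448072)) (b (c (l 16451536) (l 16445360)) (c (l 16438952) (l 16432504)))) (c (b (l 16447528) (l 16435752)) (b (c (l 16438776) (l 16432392)) (c (l 16426504) (l 16419816))))))), by decide +kernel⟩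

def k6_pm_012 : ∃ t, chk3 f_pm_012 t 24 31 1 = true :=
  ⟨(a (b (a (b (l 6) (b (l 6) (a (l 16518520) (l 16504152)))) (a (b (l 6) (c (l 16498952) (l 16488176))) (b (c (l 16509944) (l 16499168)) (c (l 16495088) (l 16484320))))) (c (b (c (a (l 16492040) (l 16484496)) (a (l 16486704) (l 16479128))) (a (c (l 16476264) (l 16471008)) (c (b (l 16472864) (l 16464984)) (b (l 16467560) (l 16459752))))) (b (a (c (l 16481392) (l 16476096)) (c (l 16473840) (l 16468616))) (a (c (l 16465880) (l 16460872)) (c (b (l 16462400) (l 16454720)) (l 16453632)))))) (b (c (b (c (a (l 16506720) (l 16499048)) (a (l 16501360) (l 16493632))) (a (c (l 16492056) (l 16486632)) (c (l 16484592) (l 16479112)))) (b (a (c (l 16495960) (l 16490528)) (c (l 16488208) (l 16482792))) (a (c (l 16481248) (l 16475888)) (c (l 16473712) (l 16468384))))) (b (c (a (c (l 16477056) (l 16471648)) (b (c (l 16473544) (l 16468064)) (a (l 16465088) (l 16461568)))) (a (c (l 16466360) (l 16461200)) (b (c (l 16462736) (l 16457552))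 (a (l 16454600) (c (l 16453568) (l 16448496)))))) (c (b (a (c (l 16465576) (l 16460232)) (c (a (l 16460272) (l 16456920)) (l 16453128))) (a (a (l 16456936) (c (l 16456080) (l 16450768))) (a (c (l 16452720) (l 16447296)) (l 16446672)))) (a (b (c (l 16455096) (l 16450160)) (a (l 16446904) (c (l 16445728) (l 16440960)))) (c (b (l 16447896) (l 16440368)) (b (a (l 16444760) (l 16441096)) (l 16435416)))))))), by decide +kernel⟩

def k7_pm_012 : ∃ t, chk3 f_pm_012 t 25 31 1 = true :=
  ⟨(a (a (c (b (b (c (l 16491688) (l 16486200)) (b (l 16478256) (a (l 16472792) (l 16469312)))) (b (c (b (l 16466624) (l 16459368)) (b (l 16461024) (l 16453720))) (c (l 16448424) (l 16442680)))) (b (b (c (l 16480744) (l 16475312)) (b (c (l 16470040) (l 16464680)) (a (l 16461976) (l 16458416)))) (b (c (b (l 16455592) (l 16448272)) (b (a (l 16452168) (l 16448552)) (l 16443032))) (c (l 16437168) (l 16431888))))) (b (c (b (b (l 16506296) (a (l 16480088) (l 16476648))) (c (b (l 16474192) (l 16467176))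 (b (l 16468528) (l 16461448)))) (b (a (c (l 16475320) (l 16469872)) (b (l 16472544) (l 16465552))) (c (b (l 16462976) (l 16455848)) (b (a (l 16459336) (l 16455768)) (l 16450392))))) (b (c (c (l 16456584) (l 16450736)) (c (l 16445048) (l 16439528))) (c (c (l 16442272) (l 16436264)) (c (l 16430464) (l 16424864)))))) (b (b (a (c (c (c (l 16500336) (l 16476504)) (l 16472240)) (c (c (l 16468008) (l 16465192)) (b (a (l 16466280) (l 16462760)) (l 16457520)))) (c (l 16468616) (c (l 16459888) (l 16454096)))) (c (a (l 16461328) (l 16455080)) (a (c (l 16452616) (l 16446920)) (l 16443104)))) (c (b (a (c (l 16450424) (l 16444360)) (c (l 16444480) (l 16438232))) (a (c (l 16436352) (l 16430112)) (c (l 16430640) (l 16424192)))) (b (a (c (l 16438424) (l 16432632)) (l 16450000)) (a (c (l 16424032) (l 16418128)) (c (l 16417864) (l 16411664))))))), by decide +kernel⟩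

def k8_pm_012 : ∃ t, chk3 f_pm_012 t 13 31 1 = true :=
  ⟨(a (b (c (a (b (a (l 16462384) (l 16456352)) (a (l 16449056) (l 16443216))) (b (a (l 16450488) (l 16444640)) (a (l 16437536) (l 16431872)))) (a (b (a (l 16450432) (l 16444128)) (a (l 16436704) (l 16430552))) (b (a (l 16438040) (l 16432008)) (a (l 16424616) (l 16418736))))) (a (c (b (a (l 16435520) (l 16429888)) (a (c (l 16425112) (l 16418480)) (c (l 16419744) (l 16412968)))) (b (a (l 16422792) (l 16416800)) (a (c (l 16411928) (l 16405456)) (c (l 16406216) (l 16399488))))) (c (b (a (l 16424392) (l 16418912)) (a (c (l 16414480) (l 16407616)) (c (l 16409216) (l 16402272)))) (b (a (l 16411016) (l 16405280)) (a (c (l 16400696) (l 16393736)) (l 16391648)))))) (b (a (c (b (a (l 16438728) (l 16432776)) (a (l 16426136) (l 16420368))) (b (a (l 16425928) (l 16419824)) (a (l 16412808) (l 16406856)))) (c (b (l 16423792) (a (l 16414560) (l 16408744))) (b (a (l 16413696) (l 16407576)) (a (l 16400888) (l 16394928))))) (a (c (b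 (a (l 16413368) (l 16407776)) (a (l 16400400) (l 16395000))) (b (a (l 16399512) (l 16393720)) (a (l 16386040) (l 16380400)))) (c (b (a (l 16402160) (l 16396528)) (a (l 16389568) (l 16384120))) (b (a (l 16387912) (l 16382112)) (a (l 16374760) (l 16369128))))))), by decide +kernel⟩

def k9_pm_012 : ∃ t, chk3 f_pm_012 t 7 14 1 = true :=
  ⟨(a (a (a (b (b (l 6) (b (l 6) (c (l 16530560) (c (l 16526968) (c (l 16524440) (a (l 16526232) (l 16518760))))))) (c (b (b (l 16515464) (l 16500096)) (b (l 16485160) (l 16471328))) (c (b (l 16523656) (b (l 16478928) (l 16464344))) (a (b (b (l 16510656) (l 16493792)) (b (l 16477448) (l 16462344))) (b (b (l 16503328) (l 16486608)) (b (l 16470400) (l 16455440))))))) (b (b (a (l 6) (b (l 6) (c (l 16540000) (l 16537368)))) (c (l 16522864) (c (l 16519880) (c (l 16517544) (b (l 16523600) (l 16507672)))))) (b (c (b (l 16500872) (l 16485832)) (c (l 16488352) (b (l 16492464) (c (l 16477168) (l 16474672))))) (c (b (l 16471232) (l 16457744)) (c (b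 (l 16465056) (l 16450792)) (b (l 16459952) (l 16445216))))))) (b (b (c (a (l 16535080) (l 16520168)) (c (a (l 16534168) (l 16519480)) (a (c (l 16532664) (l 16531272)) (l 16517432)))) (c (a (l 16508112) (l 16493832)) (c (a (l 16505328) (l 16491232)) (a (b (l 16509856) (l 16494320)) (l 16488120))))) (b (c (a (l 16479112) (l 16465488)) (a (c (l 16474408) (b (l 16478368) (l 16462144))) (c (l 16460936) (l 16456672)))) (c (a (l 16450920) (l 16437976)) (a (b (l 16449120) (l 16434928)) (c (l 16431632) (l 16426256))))))) (b (a (c (b (l 16519992) (l 16494616)) (b (a (c (l 16505328) (l 16503392)) (l 16491048)) (a (l 16476328) (l 16463488)))) (b (c (l 16474016) (a (l 16478296) (l 16466384))) (a (l 16474904) (l 16442904)))) (a (b (a (c (l 16452496) (l 16446064)) (c (l 16440320) (l 16433880))) (a (c (l 16425672) (l 16416856)) (b (l 16416720) (l 16404088)))) (b (a (c (l 16429192) (l 16422480)) (l 16415992)) (a (c (l 16403840) (l 16394680)) (l 16390168)))))), by decide +kernel⟩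

def k10_pm_012 : ∃ t, chk3 f_pm_012 t 14 15 1 = true :=
  ⟨(b (a (b (a (c (b (l 16458456) (l 16446360)) (a (c (l 16447648) (b (l 16448320) (l 16435168))) (b (l 16444592) (l 16431776)))) (c (b (l 16445216) (l 16433472)) (b (c (l 16437568) (l 16431560)) (c (l 16425192) (l 16418792))))) (a (c (b (l 16434832) (l 16423416)) (b (c (l 16426008) (l 16419416)) (a (l 16413808) (l 16407568)))) (c (b (l 16422296) (l 16411232)) (b (a (l 16413272) (l 16407056)) (a (l 16401408) (l 16395360)))))) (b (c (a (b (l 16432312) (l 16420920)) (l 16414288)) (a (b (l 16421808) (l 16409568)) (b (l 16409504) (l 16397600)))) (a (c (b (l 16410104) (l 16399400)) (b (l 16397968) (l 16386528))) (c (b (l 16398408) (l 16388072)) (b (l 16386344) (l 16375264)))))) (a (b (a (c (b (l 16411816) (a (l 16402936) (l 16397160))) (b (a (l 16401472) (l 16395400)) (a (l 16388984) (l 16383080)))) (c (b (l 16400000) (a (l 16391432) (l 16385776))) (b (a (l 16389408) (l 16383528)) (a (l 16377256) (l 16371560))))) (a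 (c (b (a (l 16390896) (l 16385304)) (a (l 16378688) (l 16373272))) (b (a (l 16376336) (l 16370608)) (a (l 16363528) (l 16357968)))) (c (b (a (l 16379760) (l 16374296)) (a (c (l 16371376) (l 16364312)) (c (l 16366072) (l 16359048)))) (b (a (l 16364960) (l 16359432)) (a (l 16352496) (c (l 16351296) (l 16342832))))))) (b (a (c (b (l 16388536) (l 16377496)) (b (l 16374960) (l 16363256))) (c (b (l 16377576) (l 16366912)) (b (l 16364048) (l 16352712)))) (a (c (b (a (l 16368936) (l 16363688)) (a (l 16357472) (l 16352416))) (b (a (l 16354048) (l 16348800)) (a (l 16341952) (l 16336888)))) (c (b (l 16356088) (a (l 16347496) (l 16342752))) (b (l 16341232) (a (l 16331992) (l 16327264)))))))), by decide +kernel⟩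

def k11_pm_012 : ∃ t, chk3 f_pm_012 t 15 15 1 = true :=
  ⟨(b (a (b (a (c (l 16402712) (l 16391928)) (c (l 16392008) (l 16381160))) (a (c (l 16382384) (l 16369968)) (c (l 16372448) (l 16359952)))) (b (a (c (l 16382416) (l 16371248)) (c (l 16374024) (l 16362312))) (a (c (l 16363680) (l 16350848)) (c (l 16356128) (l 16342744))))) (a (b (a (c (b (l 16367312) (l 16357032)) (b (l 16353824) (l 16342856))) (c (b (l 16357968) (l 16348088)) (l 16360088))) (a (c (b (l 16346600) (a (l 16338200) (l 16333864))) (b (l 16331768) (a (l 16322728) (l 16318400)))) (c (b (l 16338048) (a (l 16329784) (l 16325992))) (b (l 16323136) (l 16333288))))) (b (a (c (b (l 16349816) (l 16340344)) (b (l 16335896) (l 16325752))) (c (b (l 16342904) (l 16333864)) (l 16323592))) (a (c (b (a (l 16332400) (l 16329088)) (a (l 16322520) (l 16319424))) (b (l 16315496) (a (l 16306800) (l 16303472)))) (c (b (a (l 16326096) (l 16323304)) (a (l 16316656) (l 16314080))) (b (l 16308920) (a (l 16300424) (l 16297616)))))))),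 by decide +kernel⟩

theorem s12_pm_012 : ∃ t, chk3 f_pm_012 t 7 15 1 = true := ex3_a k10_pm_012 k11_pm_012

theorem s13_pm_012 : ∃ t, chk3 f_pm_012 t 7 7 1 = true := ex3_b k9_pm_012 s12_pm_012

theorem s14_pm_012 : ∃ t, chk3 f_pm_012 t 12 31 1 = true := ex3_a k6_pm_012 k7_pm_012

theorem s15_pm_012 : ∃ t, chk3 f_pm_012 t 6 31 1 = true := ex3_a s14_pm_012 k8_pm_012

theorem s16_pm_012 : ∃ t, chk3 f_pm_012 t 6 30 1 = true := ex3_a k4_pm_012 k5_pm_012

theorem s17_pm_012 : ∃ t, chk3 f_pm_012 t 6 15 1 = true := ex3_b s16_pm_012 s15_pm_012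

theorem s18_pm_012 : ∃ t, chk3 f_pm_012 t 6 7 1 = true := ex3_b k3_pm_012 s17_pm_012

theorem s19_pm_012 : ∃ t, chk3 f_pm_012 t 3 7 1 = true := ex3_a s18_pm_012 s13_pm_012

theorem s20_pm_012 : ∃ t, chk3 f_pm_012 t 3 3 1 = true := ex3_b k2_pm_012 s19_pm_012

theorem s21_pm_012 : ∃ t, chk3 f_pm_012 t 1 3 1 = true := ex3_a k1_pm_012 s20_pm_012

theorem s22_pm_012 : ∃ t, chk3 f_pm_012 t 1 1 1 = true := ex3_b k0_pm_012 s21_pm_012

theorem c_pm_012 : CertB 0 536870912 536870912 536870912 740881858 40050571 3 eng mog cd0q0 cd0q1 pd2 true true false .pnp 0 1 2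
    ndB0q0 ndB0q1 pcB2 cut_pm_012 Ext.none :=
  certB0 (fam := true) (s1 := true) (s2 := false) (a := 0) (b := 1) (c := 2) (cn := .pnp) (n1 := ndB0q0) (n2 := ndB0q1) (pc := pcB2) (cut := cut_pm_012) (xt := Ext.none) (P1 := 0) (W1 := 536870912) (P2 := 536870912) (W2 := 536870912) (P3 := 740881858) (W3 := 40050571) (N0 := 3) (En := eng) (mo := mog) (C1 := cd0q0) (C2 := cd0q1) (C3 := pd2)
    rfl s22_pm_012

noncomputable def cut_pm_022 : Cut := Cut.of [[⟨3, 0, 0, 1449551462⟩], [⟨4, 0, 0, 2845415833⟩], [⟨0, 0, 0, 67108864⟩, ⟨1, 1, 0, 67108864⟩, ⟨2, 1, 0, 67108864⟩]]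

noncomputable def f_pm_022 : ℕ → ℕ → ℕ → ℕ → Bool := onCell 1073741824 536870912 0 536870912 740881858 40050571
    (rowB 3 eng mog cd0q0 cd0q2 pd2 2 true true false .pp 0 2 2 (qsf 0 536870912 0 536870912 2) ndB0q0 ndB0q2 pcB2 cut_pm_022 Ext.none)

def k0_pm_022 : ∃ t, chk3 f_pm_022 t 4 1 1 = true :=
  ⟨(b (b (l 1) (a (l 1) (a (l 1) (b (l 1) (a (l 1) (b (l 1) (a (l 1) (b (c (l 16451136) (l 16429584)) (c (l 16460720) (l 16440648)))))))))) (b (a (l 1) (a (b (l 1) (a (l 6) (b (b (a (l 1) (l 16539576)) (l 6)) (l 6)))) (b (b (b (a (l 1) (a (c (l 16472504) (l 16452024)) (c (l 16472000) (l 16453368)))) (a (a (l 1) (c (l 16485368) (l 16465128))) (a (c (l 16486568) (l 16467392)) (c (l 16484880) (l 16467664))))) (a (b (a (l 1) (c (l 16501912) (l 16482928))) (a (c (l 16513704) (l 16497032)) (c (l 16519096) (l 16501528)))) (a (b (c (l 16501976) (l 16484128)) (c (l 16517984) (l 16501624))) (b (c (l 16499032) (l 16483256)) (l 16506888))))) (b (b (a (a (c (l 16530880) (l 16515416))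 (c (l 16535592) (l 16519312))) (c (l 16531048) (l 16517224))) (a (a (l 16539648) (l 16564120)) (a (l 16541368) (l 16536920)))) (a (a (l 6) (b (c (l 16566128) (l 16551952)) (l 6))) (c (b (l 16560248) (l 16575848)) (b (l 16548360) (l 16565272)))))))) (l 6))), by decide +kernel⟩

def k1_pm_022 : ∃ t, chk3 f_pm_022 t 5 4 1 = true :=
  ⟨(a (a (a (l 1) (a (b (l 1) (b (l 1) (l 16432120))) (b (b (l 16366336) (c (l 16435224) (l 16405600))) (b (c (l 16452272) (l 16402952)) (a (l 16417512) (l 16421088)))))) (b (b (c (l 16449200) (l 16420560)) (c (a (l 16439576) (l 16442488)) (l 16412992))) (a (b (c (l 16435464) (l 16407832)) (l 16465208)) (b (l 16446904) (l 16468344))))) (b (a (b (c (l 16454480) (l 16429584)) (c (a (l 16445512) (l 16448680)) (l 16421760))) (b (a (l 16448880) (l 16453248)) (a (l 16441184) (l 16445656)))) (a (b (a (l 16450488) (l 16433208)) (a (l 16450552) (l 16453800))) (b (a (l 16436976) (l 16441184)) (a (l 16436136) (l 16460976)))))), by decide +kernel⟩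

def k2_pm_022 : ∃ t, chk3 f_pm_022 t 10 5 1 = true :=
  ⟨(b (a (a (a (l 1) (b (l 16431360) (b (l 16418080) (l 16424232)))) (b (a (l 16459416) (c (l 16456904) (l 16411200))) (a (c (l 16437712) (l 16414752)) (b (l 16487192) (c (l 16444056) (l 16423144)))))) (b (a (c (l 16439104) (l 16414504)) (c (l 16441816) (l 16416880))) (a (c (b (l 16443008) (l 16446424)) (l 16422840)) (c (b (l 16445440) (l 16448632)) (l 16424208))))) (b (a (a (a (b (c (l 16437840) (l 16414696)) (c (l 16445112) (l 16423568))) (c (l 16465664) (l 16444760))) (a (c (l 16468776) (l 16428256)) (a (b (l 16438264) (l 16443912)) (b (l 16439976) (l 16466240))))) (a (c (b (l 16450312) (l 16454608)) (b (l 16430648) (l 16436488))) (c (b (l 16452280) (l 16487768)) (b (l 16431160) (l 16436416))))) (a (a (c (b (a (l 16452816) (l 16454552)) (a (l 16461408) (l 16462184))) (b (a (l 16432856) (l 16436096)) (a (l 16443008) (l 16445352)))) (a (b (c (l 16456328) (l 16439320)) (l 16497520)) (b (a (l 16449952) (c (l 16458392)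 (l 16443024))) (a (l 16456776) (c (l 16464024) (l 16450400)))))) (a (b (c (c (l 16463064) (l 16455336)) (l 16442704)) (c (a (l 16464344) (l 16464960)) (l 16449632))) (b (c (a (l 16460376) (l 16461024)) (l 16442024)) (c (a (l 16465496) (l 16465968)) (l 16448288))))))), by decide +kernel⟩

def k3_pm_022 : ∃ t, chk3 f_pm_022 t 11 5 1 = true :=
  ⟨(b (a (b (a (c (l 16444416) (l 16419416)) (c (l 16446936) (l 16422096))) (a (c (b (l 16447720) (l 16450664)) (l 16425712)) (b (l 16480408) (c (l 16452504) (l 16428856))))) (b (a (c (l 16449440) (l 16424968)) (c (l 16452672) (l 16428800))) (a (c (b (l 16452104) (l 16454640)) (l 16429424)) (c (b (l 16455264) (l 16457760)) (l 16432760))))) (a (b (c (a (b (l 16454040) (c (l 16462488) (l 16452832))) (b (a (l 16455264) (l 16456032)) (a (l 16458760) (l 16459456)))) (a (b (l 16431824) (l 16436488)) (b (l 16432608) (l 16436720)))) (c (a (b (c (a (l 16466072) (l 16466744)) (l 16457112)) (a (l 16466368) (c (l 16471144) (l 16462048)))) (b (a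 (c (l 16467360) (l 16457656)) (b (l 16462232) (l 16464256))) (a (c (l 16471696) (l 16462288)) (c (l 16493368) (l 16462720))))) (a (b (l 16441488) (l 16483744)) (b (a (l 16441216) (l 16441248)) (a (l 16446424) (l 16446312)))))) (b (a (c (a (b (l 16456936) (l 16460344)) (b (l 16458176) (l 16461600))) (b (l 16434032) (l 16437840))) (a (c (b (l 16459800) (l 16463280)) (l 16438152)) (c (b (l 16461880) (l 16465432)) (l 16440256)))) (c (a (b (a (b (l 16463160) (l 16465200)) (b (l 16464448) (l 16466520))) (a (a (l 16489344) (l 16489920)) (c (l 16495856) (l 16464840)))) (b (a (b (l 16466176) (l 16468296)) (b (l 16468400) (l 16470576))) (a (c (l 16476760) (l 16466616)) (c (l 16479136) (l 16468944))))) (a (b (c (l 16448216) (l 16435696)) (a (l 16446680) (l 16447568))) (b (c (l 16451392) (l 16438488)) (a (l 16449056) (l 16451184)))))))), by decide +kernel⟩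

def k4_pm_022 : ∃ t, chk3 f_pm_022 t 10 6 1 = true :=
  ⟨(a (a (b (a (b (b (c (l 16471616) (l 16454736)) (c (l 16483344) (l 16467968))) (b (c (l 16496264) (l 16482448)) (l 16503816))) (b (b (c (l 16471352) (l 16456128)) (l 16496272)) (b (l 16487824) (l 16500904)))) (b (b (a (l 16518304) (l 16514296)) (l 16530328)) (a (b (l 16547344) (l 16562912)) (l 16571288)))) (b (b (a (b (c (l 16471184) (l 16457528)) (l 16495792)) (a (b (l 16464992) (l 16474520)) (b (c (l 16471000) (l 16459128)) (l 16495200)))) (b (a (l 16486216) (a (l 16485088) (l 16505272))) (a (l 16498136) (a (l 16496152) (l 16494856))))) (a (b (b (l 16510360) (l 16523880)) (l 16545568)) (a (b (b (l 16507496) (l 16520728)) (l 16542096)) (b (a (b (l 16506064) (l 16519224)) (b (b (l 16502480) (l 16508048)) (l 16518232))) (a (l 16540624) (l 16581696))))))) (b (b (a (b (c (a (l 16471096) (l 16471464)) (l 16457848)) (c (l 16500032) (l 16467248))) (b (c (a (l 16471752) (l 16471976)) (l 16455712)) (c (a (l 16479056) (l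 16478952)) (l 16464200)))) (a (b (c (l 16487736) (l 16477624)) (c (l 16496784) (l 16488520))) (b (c (l 16507816) (l 16473496)) (c (l 16495120) (l 16483352))))) (b (b (a (c (l 16505952) (l 16499680)) (a (l 16499544) (l 16497584))) (a (l 16515016) (l 16509696))) (a (b (l 16528504) (l 16542632)) (b (l 16522216) (l 16535568)))))), by decide +kernel⟩

def k5_pm_022 : ∃ t, chk3 f_pm_022 t 10 7 1 = true :=
  ⟨(b (a (a (b (b (a (l 16578864) (l 16573304)) (l 6)) (l 6)) (a (b (b (l 16567952) (l 16582544)) (l 6)) (a (b (b (l 16564256) (l 16578728)) (l 6)) (a (b (b (l 16562728) (l 16577296)) (l 6)) (b (b (l 16561888) (l 16576528)) (l 16596976)))))) (a (b (b (l 16557032) (l 16550336)) (l 16643880)) (b (b (l 16549368) (l 16542080)) (l 16625136)))) (a (l 6) (b (b (a (l 6) (l 16576504)) (l 6)) (l 6)))), by decide +kernel⟩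

def k6_pm_022 : ∃ t, chk3 f_pm_022 t 11 6 1 = true :=
  ⟨(b (b (a (a (b (c (a (l 16472088) (c (l 16476480) (l 16467792))) (a (l 16454192) (l 16453312))) (c (a (l 16478768) (l 16478656)) (l 16482360))) (b (b (c (a (l 16471008) (l 16471600)) (l 16450784)) (c (a (l 16473952) (l 16474512)) (l 16454128))) (c (a (c (l 16483024) (l 16474392)) (c (l 16483688) (l 16474704))) (a (l 16459912) (l 16459520))))) (a (b (b (c (a (l 16472552) (l 16473936)) (l 16451384)) (c (a (l 16475456) (l 16476848)) (l 16454616))) (c (c (a (l 16484736) (l 16486216)) (l 16497000)) (a (l 16459664) (l 16460416)))) (b (c (a (c (l 16482104) (l 16472168)) (c (l 16484560) (l 16474568))) (a (l 16454960) (l 16457104))) (c (a (c (l 16488192) (l 16478560)) (l 16486016)) (a (l 16461840) (l 16463984)))))) (c (a (b (a (a (l 16486184) (l 16485872)) (a (l 16485904) (l 16486320))) (a (l 16493696) (l 16493560))) (a (b (a (l 16487184) (l 16488552)) (l 16495224)) (b (a (l 16490464) (l 16493080)) (l 16499184)))) (a (a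 (b (l 16469960) (l 16478952)) (b (l 16488688) (l 16476408))) (a (b (l 16488752) (l 16476264)) (b (l 16491840) (l 16479096)))))) (a (b (a (b (l 16537280) (l 16526584)) (b (c (l 16501416) (l 16485608)) (c (l 16510368) (l 16496192)))) (a (b (l 16517656) (l 16530512)) (b (l 16515288) (l 16528056)))) (b (c (a (b (l 16503056) (l 16511848)) (b (l 16506888) (l 16514736))) (a (b (l 16485312) (l 16495688)) (b (l 16487936) (l 16497208)))) (a (b (l 16515496) (a (l 16527376) (l 16527440))) (b (c (l 16523880) (l 16508968)) (l 16527192)))))), by decide +kernel⟩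

def k7_pm_022 : ∃ t, chk3 f_pm_022 t 11 7 1 = true :=
  ⟨(b (a (b (b (a (l 16543792) (l 16540688)) (a (l 16557312) (l 16553088))) (a (l 16646320) (b (l 16562408) (l 16554696)))) (b (b (a (l 16538944) (l 16536632)) (c (l 16547368) (l 16544336))) (b (b (l 16545216) (l 16561968)) (a (l 16541120) (l 16528528))))) (b (a (b (a (a (l 16564784) (l 16557152)) (l 16567048)) (a (l 16593096) (l 16577792))) (b (a (l 16553080) (l 16540136)) (a (a (l 16525048) (l 16518232)) (a (l 16511584) (l 16505088))))) (a (b (a (a (l 6) (l 16535168)) (c (l 16547808) (l 16541336))) (a (l 6) (a (b (l 16516896) (l 6)) (a (b (l 16511240) (l 6)) (b (l 16507544) (a (l 16521776) (l 16498944))))))) (b (a (a (l 16544152) (b (l 16509032) (l 16502256))) (a (l 16519776) (l 16512904))) (a (a (b (c (l 16506224) (l 16497928)) (c (l 16499200) (l 16489384))) (b (l 16494880) (c (l 16491720) (l 16482104)))) (c (b (l 16488096) (a (l 16484304) (l 16476968))) (b (l 16480352) (a (l 16474872) (l 16467680))))))))), by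 decide +kernel⟩

def k8_pm_022 : ∃ t, chk3 f_pm_022 t 6 2 1 = true :=
  ⟨(b (a (b (a (b (a (l 16459032) (l 16466896)) (a (l 16451304) (l 16459088))) (b (a (l 16476776) (l 16489248)) (a (l 16469400) (l 16482400)))) (a (b (a (l 16446848) (l 16454616)) (a (l 16466488) (l 16474176))) (b (a (l 16465192) (l 16477784)) (a (l 16463680) (l 16476216))))) (b (a (b (l 16509352) (l 16524120)) (b (l 16534544) (l 16548336))) (a (b (l 16497624) (l 16494712)) (b (l 16520880) (l 16516208))))) (a (b (b (a (a (c (l 16457600) (l 16434608)) (c (l 16464456) (l 16443168))) (a (l 16486000) (l 16477008))) (a (a (c (b (l 16460248) (l 16462832)) (l 16438344)) (c (b (l 16467216) (l 16491136)) (l 16447296))) (a (c (l 16498400) (l 16459088)) (l 16501008)))) (a (b (a (c (b (c (l 16470856) (l 16460712)) (a (l 16468112) (l 16471384))) (b (l 16442688) (l 16446400))) (c (a (b (l 16471352) (l 16475328)) (l 16477352)) (a (l 16450880) (l 16456312)))) (a (b (c (a (c (l 16477232) (l 16467016)) (l 16496696))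 (l 16471664)) (c (a (c (l 16482048) (l 16471896)) (l 16480800)) (a (l 16454032) (l 16457744)))) (b (a (c (l 16479744) (l 16456992)) (l 16494816)) (a (c (l 16484792) (l 16462088)) (l 16478696))))) (b (a (b (l 16473336) (l 16497840)) (l 16505936)) (a (b (c (l 16489376) (l 16471000)) (l 16506112)) (c (l 16498440) (l 16483368)))))) (b (a (b (a (l 16488544) (l 16499248)) (a (l 16490400) (l 16499600))) (b (l 16513360) (l 16533232))) (a (b (a (l 16493936) (l 16501712)) (a (b (l 16497376) (l 16499864)) (l 16504968))) (b (l 16512144) (a (l 16510752) (l 16516712))))))), by decide +kernel⟩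

def k9_pm_022 : ∃ t, chk3 f_pm_022 t 7 2 1 = true :=
  ⟨(b (a (b (a (b (l 16557368) (l 16548872)) (l 16702816)) (a (b (l 16542032) (l 16535912)) (b (l 16564136) (l 16556256)))) (b (a (b (l 16604488) (l 16593720)) (b (l 16622656) (l 16610504))) (a (b (l 16583632) (l 16574056)) (b (l 16598520) (l 16608008))))) (a (b (a (b (l 16531344) (l 16528592)) (b (l 16549736) (l 16544176))) (a (b (l 16526576) (l 16567688)) (b (l 16539752) (l 16535640)))) (b (a (b (l 16565024) (l 16556136)) (b (l 16575632) (l 16648896))) (a (b (l 16548288) (a (l 16539792) (l 16541552))) (b (l 16554088) (a (l 16543160) (l 16545312))))))), by decide +kernel⟩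

def k10_pm_022 : ∃ t, chk3 f_pm_022 t 6 6 1 = true :=
  ⟨(a (b (a (a (b (c (b (a (l 16503744) (l 16486464)) (a (l 16489176) (l 16492688))) (b (a (l 16460000) (l 16463704)) (l 16468648))) (b (a (l 16507032) (l 16489336)) (a (l 16493736) (l 16496392)))) (b (a (b (c (l 16490392) (l 16467944)) (l 16486080)) (b (l 16484000) (l 16489632))) (b (a (l 16492456) (l 16495424)) (a (l 16498896) (l 16501192))))) (b (a (b (l 16510752) (l 16494608)) (c (l 16505384) (l 16490920))) (a (b (l 16499448) (l 16504168)) (b (l 16503720) (l 16507024))))) (a (a (b (b (l 16523384) (a (l 16508968) (l 16478744))) (c (l 16528568) (l 16430584))) (b (c (b (l 16514456) (l 16519496)) (b (l 16495816) (l 16501928))) (b (l 16418336) (l 16523832)))) (a (b (b (l 16508616) (l 16512536)) (b (l 16516784) (l 16520648))) (b (b (l 16509936) (l 16512512)) (l 16516192))))) (b (a (b (a (l 16503848) (l 16508256)) (a (l 16529296) (l 16510616))) (b (a (l 16512704) (l 16517176)) (a (l 16513040) (l 16515448)))) (a (b (a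 (l 16511472) (l 16511568)) (a (l 16513288) (l 16510296))) (b (l 16532384) (c (l 16503336) (l 16504352)))))), by decide +kernel⟩

def k11_pm_022 : ∃ t, chk3 f_pm_022 t 12 7 1 = true :=
  ⟨(b (c (b (a (b (l 16533560) (l 16525000)) (l 16532800)) (a (a (b (l 16522352) (l 16514784)) (b (l 16511712) (l 16503568))) (b (l 16497528) (l 16509216)))) (a (b (a (l 16531952) (l 16526712)) (a (l 16524768) (l 16534608))) (b (l 16519016) (b (l 16501584) (l 16489504))))) (b (a (b (a (l 16527848) (l 16536752)) (a (c (l 16496528) (l 16494752)) (a (l 16485832) (l 16479552)))) (b (a (l 16483024) (l 16471592)) (a (l 16512200) (l 16479376)))) (b (c (a (a (l 16484424) (a (l 16474384) (l 16468064))) (a (l 16479952) (l 16447424))) (a (a (l 16479432) (a (l 16469464) (l 16462480))) (a (l 16452248) (l 16439280)))) (a (a (c (b (a (l 16477400) (l 16470384)) (a (b (l 16471688) (l 16467688)) (b (l 16464560) (l 16460480)))) (b (a (l 16469888) (l 16462976)) (a (b (l 16462936) (l 16458112)) (b (l 16455904)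 (l 16450984))))) (b (a (c (l 16463504) (l 16456088)) (c (l 16456968) (l 16448944))) (a (a (c (l 16457224) (l 16448192)) (b (l 16472280) (c (l 16451672) (l 16442096)))) (c (b (l 16450920) (l 16446704)) (b (l 16441672) (l 16436632)))))) (b (a (c (l 16447568) (l 16438512)) (c (l 16435848) (l 16425520))) (b (a (a (c (l 16444528) (l 16434616)) (l 16453968)) (c (l 16440144) (l 16418216))) (a (c (a (l 16440296) (l 16434152)) (a (l 16429584) (l 16422824))) (c (a (l 16428240) (l 16422552)) (a (l 16416328) (l 16410096)))))))))), by decide +kernel⟩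

def k12_pm_022 : ∃ t, chk3 f_pm_022 t 13 7 1 = true :=
  ⟨(a (b (b (b (l 16503456) (l 16491232)) (b (a (l 16484200) (l 16474864)) (a (l 16472872) (l 16463120)))) (b (b (a (l 16460768) (l 16450712)) (a (l 16447264) (l 16436944))) (b (a (b (l 16435920) (l 16448752)) (b (l 16425448) (l 16438248))) (a (b (c (l 16424968) (l 16413536)) (c (a (b (l 16421368) (l 16417056)) (b (l 16416064) (l 16411728))) (a (l 16406640) (l 16400880)))) (b (c (l 16414728) (l 16402464)) (a (c (b (l 16410912) (l 16406544)) (l 16395344)) (c (l 16403616) (l 16389912)))))))) (a (b (b (l 16485152) (l 16481272)) (b (b (l 16441264) (l 16427240)) (b (a (l 16413880) (l 16408928)) (b (c (l 16404648) (l 16391800)) (c (a (l 16398432) (l 16393200)) (a (l 16384448) (l 16378968))))))) (b (b (l 16477504) (l 16472768)) (b (b (l 16432192) (l 16417712)) (b (b (l 16405704) (l 16397056)) (b (c (l 16394408) (l 16381096)) (c (a (l 16387936) (l 16382648)) (a (l 16373480) (l 16368000))))))))), by decide +kernel⟩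

def k13_pm_022 : ∃ t, chk3 f_pm_022 t 7 6 1 = true :=
  ⟨(a (b (a (b (l 16628408) (l 16517600)) (b (l 16570904) (l 16516992))) (a (b (l 16508536) (l 16555664)) (b (l 16501288) (l 16563864)))) (b (a (b (l 16516888) (a (l 16514528) (l 16512528))) (b (l 16520184) (l 16510176))) (a (b (l 16492656) (l 16530408)) (b (l 16484040) (l 16531120))))), by decide +kernel⟩

def k14_pm_022 : ∃ t, chk3 f_pm_022 t 7 7 1 = true :=
  ⟨(b (a (b (a (b (l 16473384) (l 16501096)) (l 16451464)) (a (a (l 16464392) (l 16435080)) (a (l 16426872) (l 16418992)))) (a (b (b (l 16445632) (l 16430032)) (b (l 16415112) (l 16400624))) (b (b (l 16434976) (l 16418768)) (b (l 16403344) (l 16388344))))) (a (b (a (b (l 16460616) (a (l 16408256) (l 16398832))) (b (a (l 16405416) (l 16397024)) (a (l 16389664) (l 16380936)))) (a (b (a (b (l 16395832) (l 16386928)) (b (l 16386064) (l 16376936))) (b (a (c (l 16384112) (l 16370456)) (c (l 16373936) (l 16360032))) (a (a (c (l 16377368) (l 16362544)) (c (l 16372120)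 (l 16357136))) (a (c (l 16366912) (l 16351816)) (c (b (l 16364248) (l 16359296)) (l 16346608)))))) (b (a (b (l 16376608) (l 16367280)) (b (l 16367616) (l 16358128))) (a (b (a (l 16359864) (l 16355056)) (c (a (l 16356752) (l 16351832)) (a (l 16341536) (l 16336608)))) (c (b (l 16354648) (a (l 16347048) (l 16342424))) (a (l 16337464) (l 16332912))))))) (b (a (b (l 16406448) (a (l 16372768) (l 16365320))) (b (l 16372768) (a (l 16358760) (l 16353288)))) (a (b (a (l 16354464) (l 16346792)) (a (b (l 16339456) (c (a (l 16337992) (l 16333776)) (l 16320720))) (b (l 16331632) (c (a (l 16329808) (l 16326120)) (l 16312768))))) (b (a (l 16340080) (b (l 16339464) (l 16329608))) (a (b (c (l 16331272) (l 16317304)) (a (c (l 16322752) (l 16307448)) (c (l 16319760) (l 16304248)))) (b (c (l 16325936) (l 16311544)) (c (a (l 16317088) (l 16314688)) (a (l 16301328) (l 16298672)))))))))), by decide +kernel⟩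

theorem s15_pm_022 : ∃ t, chk3 f_pm_022 t 7 3 1 = true := ex3_b k13_pm_022 k14_pm_022

theorem s16_pm_022 : ∃ t, chk3 f_pm_022 t 6 7 1 = true := ex3_a k11_pm_022 k12_pm_022

theorem s17_pm_022 : ∃ t, chk3 f_pm_022 t 6 3 1 = true := ex3_b k10_pm_022 s16_pm_022

theorem s18_pm_022 : ∃ t, chk3 f_pm_022 t 3 3 1 = true := ex3_a s17_pm_022 s15_pm_022

theorem s19_pm_022 : ∃ t, chk3 f_pm_022 t 3 2 1 = true := ex3_a k8_pm_022 k9_pm_022

theorem s20_pm_022 : ∃ t, chk3 f_pm_022 t 3 1 1 = true := ex3_b s19_pm_022 s18_pm_022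

theorem s21_pm_022 : ∃ t, chk3 f_pm_022 t 11 3 1 = true := ex3_b k6_pm_022 k7_pm_022

theorem s22_pm_022 : ∃ t, chk3 f_pm_022 t 10 3 1 = true := ex3_b k4_pm_022 k5_pm_022

theorem s23_pm_022 : ∃ t, chk3 f_pm_022 t 5 3 1 = true := ex3_a s22_pm_022 s21_pm_022

theorem s24_pm_022 : ∃ t, chk3 f_pm_022 t 5 5 1 = true := ex3_a k2_pm_022 k3_pm_022

theorem s25_pm_022 : ∃ t, chk3 f_pm_022 t 5 2 1 = true := ex3_b k1_pm_022 s24_pm_022

theorem s26_pm_022 : ∃ t, chk3 f_pm_022 t 5 1 1 = true := ex3_b s25_pm_022 s23_pm_022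

theorem s27_pm_022 : ∃ t, chk3 f_pm_022 t 2 1 1 = true := ex3_a k0_pm_022 s26_pm_022

theorem s28_pm_022 : ∃ t, chk3 f_pm_022 t 1 1 1 = true := ex3_a s27_pm_022 s20_pm_022

theorem c_pm_022 : CertB 0 536870912 0 536870912 740881858 40050571 3 eng mog cd0q0 cd0q2 pd2 true true false .pp 0 2 2
    ndB0q0 ndB0q2 pcB2 cut_pm_022 Ext.none :=
  certB2 (fam := true) (s1 := true) (s2 := false) (a := 0) (b := 2) (c := 2) (cn := .pp) (n1 := ndB0q0) (n2 := ndB0q2) (pc := pcB2) (cut := cut_pm_022) (xt := Ext.none) (P1 := 0) (W1 := 536870912) (P2 := 0) (W2 := 536870912) (P3 := 740881858) (W3 := 40050571) (N0 := 3) (En := eng) (mo := mog) (C1 := cd0q0) (C2 := cd0q2) (C3 := pd2)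
    rfl (fun _ => rfl) s28_pm_022

noncomputable def cut_pm_023 : Cut := Cut.of [[⟨3, 0, 0, 1449551462⟩], [⟨4, 0, 0, 2845415833⟩]]

noncomputable def f_pm_023 : ℕ → ℕ → ℕ → ℕ → Bool := onCell 0 536870912 0 536870912 740881858 40050571
    (rowB 3 eng mog cd0q0 cd0q2 pd3 0 true true false .up 0 2 3 (qsf 0 536870912 0 536870912 3) ndB0q0 ndB0q2 pcB3 cut_pm_023 Ext.none)

def k0_pm_023 : ∃ t, chk3 f_pm_023 t 1 1 1 = true :=
  ⟨(a (l 1) (b (a (a (l 1) (a (b (b (l 1) (l 1)) (l 1)) (b (b (b (l 16636216) (l 16622008)) (b (l 16607208) (l 16612464))) (b (b (l 16575912) (l 16560656)) (b (l 16545720) (l 187937962343)))))) (b (a (a (b (b (l 16656464) (l 16642200)) (b (l 16627080) (l 16610432))) (b (b (l 16673680) (l 16658424)) (l 16682856))) (b (a (b (l 14) (l 16669720)) (l 14)) (a (b (l 16651168) (l 16632856)) (b (l 16684344) (l 16660856))))) (a (b (a (b (l 16593936) (l 16577528)) (b (l 16604192) (l 16586144))) (a (b (l 16561720) (a (l 16543448) (l 16549456))) (b (l 16568984) (l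 16553248)))) (b (a (b (l 16613568) (l 16594680)) (b (l 16641992) (a (l 16615864) (l 16629552)))) (a (b (l 16574968) (l 16555488)) (b (l 16581400) (l 16581920))))))) (a (b (l 1) (l 1)) (b (a (b (a (b (l 91301189911) (a (l 1) (l 16508312))) (b (l 16533776) (l 16508720))) (a (b (c (l 99891008103) (l 16482160)) (l 1)) (b (l 16482192) (l 120292063543)))) (b (a (b (l 16532736) (l 16505168)) (b (l 16557264) (l 16526664))) (a (b (l 16475584) (l 16443520)) (b (l 16493144) (l 16456120))))) (a (b (a (l 1) (b (l 131029435031) (l 1))) (l 1)) (b (a (b (l 16431128) (l 16383096)) (b (b (l 16425056) (l 16406656)) (l 16383184))) (a (b (l 241624688679) (l 1)) (a (b (l 16353240) (l 253972632007)) (b (l 16353112) (a (l 247530151287) (b (l 16327768) (a (l 251825099783) (c (l 16317616) (l 16299928)))))))))))))), by decide +kernel⟩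

theorem c_pm_023 : CertB 0 536870912 0 536870912 740881858 40050571 3 eng mog cd0q0 cd0q2 pd3 true true false .up 0 2 3
    ndB0q0 ndB0q2 pcB3 cut_pm_023 Ext.none :=
  certB0 (fam := true) (s1 := true) (s2 := false) (a := 0) (b := 2) (c := 3) (cn := .up) (n1 := ndB0q0) (n2 := ndB0q2) (pc := pcB3) (cut := cut_pm_023) (xt := Ext.none) (P1 := 0) (W1 := 536870912) (P2 := 0) (W2 := 536870912) (P3 := 740881858) (W3 := 40050571) (N0 := 3) (En := eng) (mo := mog) (C1 := cd0q0) (C2 := cd0q2) (C3 := pd3)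
    rfl k0_pm_023

noncomputable def cut_pm_101 : Cut := Cut.of [[⟨3, 0, 0, 1449551462⟩], [⟨4, 0, 0, 2845415833⟩], [⟨0, 1, 0, 67108864⟩, ⟨1, 0, 0, 67108864⟩, ⟨2, 1, 0, 67108864⟩]]

noncomputable def f_pm_101 : ℕ → ℕ → ℕ → ℕ → Bool := onCell 536870912 536870912 536870912 536870912 740881858 40050571
    (rowB 3 eng mog cd0q1 cd0q0 pd1 1 true true false .npn 1 0 1 (qsf 536870912 536870912 0 536870912 1) ndB0q1 ndB0q0 pcB1 cut_pm_101 Ext.none)

def k0_pm_101 : ∃ t, chk3 f_pm_101 t 1 1 1 = true :=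
  ⟨(l 6), by decide +kernel⟩

theorem c_pm_101 : CertB 536870912 536870912 0 536870912 740881858 40050571 3 eng mog cd0q1 cd0q0 pd1 true true false .npn 1 0 1
    ndB0q1 ndB0q0 pcB1 cut_pm_101 Ext.none :=
  certB1 (fam := true) (s1 := true) (s2 := false) (a := 1) (b := 0) (c := 1) (cn := .npn) (n1 := ndB0q1) (n2 := ndB0q0) (pc := pcB1) (cut := cut_pm_101) (xt := Ext.none) (P1 := 536870912) (W1 := 536870912) (P2 := 0) (W2 := 536870912) (P3 := 740881858) (W3 := 40050571) (N0 := 3) (En := eng) (mo := mog) (C1 := cd0q1) (C2 := cd0q0) (C3 := pd1)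
    rfl (fun _ => rfl) k0_pm_101

noncomputable def cut_pm_102 : Cut := Cut.of [[⟨3, 0, 0, 1449551462⟩], [⟨4, 0, 0, 2845415833⟩], [⟨0, 1, 0, 53687091⟩, ⟨1, 0, 0, 53687091⟩, ⟨2, 1, 0, 53687091⟩]]

noncomputable def f_pm_102 : ℕ → ℕ → ℕ → ℕ → Bool := onCell 536870912 536870912 0 536870912 740881858 40050571
    (rowB 3 eng mog cd0q1 cd0q0 pd2 0 true true false .npp 1 0 2 (qsf 536870912 536870912 0 536870912 2) ndB0q1 ndB0q0 pcB2 cut_pm_102 Ext.none)

def k0_pm_102 : ∃ t, chk3 f_pm_102 t 2 1 1 = true :=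
  ⟨(l 6), by decide +kernel⟩

def k1_pm_102 : ∃ t, chk3 f_pm_102 t 3 2 1 = true :=
  ⟨(a (l 6) (b (l 6) (a (l 6) (b (l 6) (a (l 6) (b (l 6) (a (l 6) (a (b (l 6) (a (b (l 6) (b (l 16518520) (l 16514656))) (c (b (l 16500744) (l 16493072)) (b (l 16490040) (l 16482448))))) (a (b (b (l 6) (c (l 16500312) (l 16489624))) (c (b (l 16492672) (l 16485096)) (b (l 16482104) (l 16474632)))) (b (c (b (l 16499656) (l 16492048)) (b (l 16488976) (l 16481536))) (c (b (l 16484504) (l 16477032)) (b (l 16474136) (l 16466792))))))))))))), by decide +kernel⟩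

def k2_pm_102 : ∃ t, chk3 f_pm_102 t 6 3 1 = true :=
  ⟨(b (l 6) (a (l 6) (b (a (l 6) (a (l 6) (b (l 6) (b (l 6) (c (l 16544744) (c (l 16545960) (l 16544880))))))) (b (a (l 6) (c (a (b (l 16553328) (l 16538680)) (b (l 16529840) (l 16515728))) (c (a (l 16570360) (l 16524056)) (a (b (l 16556848) (l 16542280)) (b (l 16530272) (l 16516240)))))) (b (a (a (l 6) (a (l 16561176) (l 16547048))) (c (a (l 16546032) (l 16502568)) (a (l 16549384) (l 16503432)))) (a (a (a (l 6) (l 16562808)) (l 16563224)) (a (a (l 16521120) (l 16508584)) (l 16491224)))))))), by decide +kernel⟩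

def k3_pm_102 : ∃ t, chk3 f_pm_102 t 14 6 1 = true :=
  ⟨(a (l 6) (b (l 6) (b (a (l 6) (a (l 6) (b (l 6) (b (a (l 6) (b (l 6) (c (l 16510424) (l 16500680)))) (c (c (l 16511112) (l 16506680)) (c (l 16501896) (c (l 16498080) (b (l 16497120) (l 16493712))))))))) (b (b (a (l 6) (a (a (l 6) (a (b (l 6) (l 16508952)) (a (l 16497320) (l 16505912)))) (c (l 16502168) (c (l 16495128) (l 16489936))))) (a (a (l 6) (a (l 6) (a (l 6) (b (l 6) (l 16513800))))) (c (l 16502408) (c (l 16495712) (a (l 16498584) (l 16483072)))))) (b (a (a (l 6) (c (l 16518096) (c (l 16512592) (l 16513408)))) (c (l 16495472) (c (l 16488800) (a (l 16491552) (l 16476176))))) (a (c (l 16518568) (c (l 16513528) (a (c (l 16519032) (l 16516880)) (l 16500992)))) (c (l 16488520) (c (l 16481872) (a (l 16484504) (l 16469264)))))))))), by decide +kernel⟩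

def k4_pm_102 : ∃ t, chk3 f_pm_102 t 15 24 1 = true :=
  ⟨(b (a (l 6) (b (a (a (l 6) (a (l 6) (b (l 16497544) (l 16493664)))) (a (c (c (l 16492040) (l 16486704)) (c (l 16481392) (l 16476096))) (c (c (l 16476264) (l 16471008)) (c (l 16465880) (l 16460872))))) (a (b (a (l 6) (c (l 16498952) (l 16488176))) (a (c (l 16509944) (l 16499168)) (c (l 16495088) (l 16484320)))) (c (a (c (l 16484496) (l 16479128)) (a (l 16470192) (a (l 16464312) (l 16460368)))) (a (c (l 16473840) (l 16468616)) (c (l 16458560) (l 16453632))))))) (b (a (l 6) (a (c (a (c (l 16506720) (l 16501360)) (c (l 16492056) (l 16486632))) (a (c (l 16495960) (l 16490528)) (c (l 16481248) (l 16475888)))) (a (c (c (l 16477056) (l 16471648)) (c (l 16466360) (l 16461200))) (c (a (c (l 16465576) (l 16460232)) (b (l 16456936) (c (l 16456080) (l 16450768)))) (a (c (l 16455096) (l 16450160)) (b (l 16446904) (c (l 16445728) (l 16440960)))))))) (a (a (l 6) (a (l 6) (a (l 6) (c (l 16528008) (l 16496280))))) (a (c (a (c (l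 16499048) (l 16493632)) (c (l 16484592) (l 16479112))) (a (c (l 16488208) (l 16482792)) (c (l 16473712) (l 16468384)))) (c (a (a (c (l 16473544) (l 16468064)) (b (l 16465088) (l 16461568))) (a (c (b (l 16460272) (l 16456920)) (l 16453128)) (b (c (l 16452720) (l 16447296)) (l 16446672)))) (a (a (c (l 16462736) (l 16457552)) (b (l 16454600) (l 16451008))) (c (a (l 16447896) (l 16440368)) (a (b (l 16444760) (l 16441096)) (l 16435416))))))))), by decide +kernel⟩

def k5_pm_102 : ∃ t, chk3 f_pm_102 t 30 25 1 = true :=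
  ⟨(b (a (l 6) (a (a (l 6) (b (l 6) (b (l 6) (c (l 16504048) (l 16493296))))) (c (c (b (l 16526608) (l 16519352)) (b (l 16500272) (l 16492944))) (c (b (l 16494872) (l 16487488)) (b (l 16489440) (l 16482016)))))) (b (a (l 6) (c (a (c (c (l 16505992) (l 16503352)) (l 16499352)) (c (a (l 16494760) (l 16488064)) (l 16485896))) (a (c (l 16493968) (l 16488512)) (a (a (l 16482744) (l 16479328)) (b (l 16475944) (l 16472448)))))) (a (a (l 6) (c (c (c (l 16512136) (l 16509600)) (l 16505744)) (c (l 16500496) (l 16495120)))) (c (c (a (a (l 16501040) (l 16512904)) (c (l 16507128) (l 16483360))) (a (l 16492400) (l 16479144))) (a (a (a (l 16489248) (l 16485880)) (b (l 16482568) (l 16479120))) (c (c (l 16474920) (l 16472096)) (a (b (l 16473024) (l 16469560)) (l 16464448)))))))), by decide +kernel⟩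

def k6_pm_102 : ∃ t, chk3 f_pm_102 t 31 25 1 = true :=
  ⟨(b (b (c (a (a (c (l 16491688) (l 16486200)) (a (l 16478256) (b (l 16472792) (l 16469312)))) (a (c (a (l 16466624) (l 16459368)) (a (l 16461024) (l 16453720))) (c (l 16448424) (l 16442680)))) (a (a (c (l 16480744) (l 16475312)) (a (c (l 16470040) (l 16464680)) (b (l 16461976) (l 16458416)))) (a (c (a (l 16455592) (l 16448272)) (a (b (l 16452168) (l 16448552)) (l 16443032))) (c (l 16437168) (l 16431888))))) (a (c (a (a (l 16506296) (b (l 16480088) (l 16476648))) (c (a (l 16474192) (l 16467176)) (a (l 16468528) (l 16461448)))) (a (a (a (l 16476064) (l 16472568)) (b (l 16469080) (l 16465552))) (c (a (l 16462976) (l 16455848)) (a (b (l 16459336) (l 16455768)) (l 16450392))))) (a (c (c (l 16456584) (l 16450736)) (c (l 16445048) (l 16439528))) (c (c (l 16442272) (l 16436264)) (c (l 16430464) (l 16424864)))))) (a (a (b (c (c (c (l 16500336) (l 16476504)) (l 16472240)) (c (c (l 16468008) (l 16465192)) (a (b (l 16466280)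 (l 16462760)) (l 16457520)))) (c (l 16468616) (c (l 16459888) (l 16454096)))) (c (b (l 16461328) (l 16455080)) (b (c (l 16452616) (l 16446920)) (l 16443104)))) (c (a (b (c (l 16450424) (l 16444360)) (l 16446584)) (b (c (l 16436352) (l 16430112)) (c (l 16430640) (l 16424192)))) (a (b (c (l 16438424) (l 16432632)) (l 16429024)) (b (c (l 16424032) (l 16418128)) (c (l 16417864) (l 16411664))))))), by decide +kernel⟩

def k7_pm_102 : ∃ t, chk3 f_pm_102 t 30 13 1 = true :=
  ⟨(b (c (a (b (c (a (b (c (l 16518624) (l 16516248)) (b (l 16512344) (l 16529976))) (a (b (l 16507344) (l 16500704)) (b (b (l 16502464) (l 16499136)) (l 16494256)))) (a (b (l 16512584) (l 16505792)) (b (l 16498872) (l 16492248)))) (a (b (c (c (l 16505256) (l 16502888)) (l 16499216)) (l 16495136)) (c (l 16487848) (l 16482624)))) (b (a (b (c (a (l 16494360) (l 16487992)) (l 16485712)) (l 16482040)) (b (l 16475520) (l 16469296))) (a (b (l 16475816) (l 16469616)) (b (l 16463248) (l 16457216))))) (a (b (a (a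 (b (l 6) (l 16501704)) (b (l 16501368) (b (l 16496208) (l 16492848)))) (c (b (l 16493560) (l 16486872)) (b (a (l 16491592) (b (l 16486392) (l 16482960))) (a (b (l 16486456) (l 16483104)) (l 16477904))))) (a (b (c (l 16494088) (a (l 16492328) (l 16485144))) (l 16484832)) (b (c (l 16480400) (l 16474744)) (l 16471136)))) (b (a (b (c (l 16480168) (a (b (l 16479608) (l 16476200)) (l 16471192))) (c (l 16473624) (l 16467848))) (b (c (l 16466888) (l 16461064)) (l 16457528))) (a (b (l 16464376) (l 16458056)) (b (l 16451288) (l 16445112)))))) (a (c (b (a (l 16485208) (l 16472424)) (a (l 16471848) (l 16459408))) (b (a (c (l 16477576) (c (l 16473440) (l 16470560))) (b (l 16464624) (l 16458072))) (a (c (l 16464200) (c (l 16459960) (l 16456984))) (b (l 16451496) (l 16444912))))) (b (c (a (l 16460200) (l 16448072)) (a (c (l 16451536) (l 16445360)) (c (l 16438952) (l 16432504)))) (c (a (l 16447528) (l 16435752)) (a (c (l 16438776) (l 16432392)) (c (l 16426504) (l 16419816))))))), by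 decide +kernel⟩

def k8_pm_102 : ∃ t, chk3 f_pm_102 t 31 13 1 = true :=
  ⟨(b (a (c (b (a (b (l 16462384) (l 16456352)) (b (l 16449056) (l 16443216))) (a (b (l 16450488) (l 16444640)) (b (l 16437536) (l 16431872)))) (b (a (b (l 16450432) (l 16444128)) (b (l 16436704) (l 16430552))) (a (b (l 16438040) (l 16432008)) (b (l 16424616) (l 16418736))))) (b (c (a (b (l 16435520) (l 16429888)) (b (c (l 16425112) (l 16418480)) (c (l 16419744) (l 16412968)))) (a (b (l 16422792) (l 16416800)) (b (c (l 16411928) (l 16405456)) (c (l 16406216) (l 16399488))))) (c (a (b (l 16424392) (l 16418912)) (b (c (l 16414480) (l 16407616)) (l 16405760))) (a (b (l 16411016) (l 16405280)) (b (c (l 16400696) (l 16393736)) (l 16391648)))))) (a (b (c (a (b (l 16438728) (l 16432776)) (b (l 16426136) (l 16420368))) (a (b (l 16425928) (l 16419824)) (b (l 16412808) (l 16406856)))) (c (a (l 16423792) (l 16411656)) (a (b (l 16413696) (l 16407576)) (b (l 16400888) (l 16394928))))) (b (c (a (b (l 16413368)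 (l 16407776)) (b (l 16400400) (l 16395000))) (a (b (l 16399512) (l 16393720)) (b (l 16386040) (l 16380400)))) (c (a (b (l 16402160) (l 16396528)) (b (l 16389568) (l 16384120))) (a (b (l 16387912) (l 16382112)) (b (l 16374760) (l 16369128))))))), by decide +kernel⟩

def k9_pm_102 : ∃ t, chk3 f_pm_102 t 14 7 1 = true :=
  ⟨(b (b (b (a (a (l 6) (a (l 6) (c (l 16530560) (c (l 16526968) (c (l 16524440) (b (l 16526232) (l 16518760))))))) (c (a (a (l 16515464) (l 16500096)) (a (l 16485160) (l 16471328))) (c (a (l 16502680) (a (l 16478928) (l 16464344))) (b (a (a (l 16510656) (l 16493792)) (a (l 16477448) (l 16462344))) (a (a (l 16503328) (l 16486608)) (a (l 16470400) (l 16455440))))))) (a (a (a (l 6) (b (l 6) (c (l 16540000) (l 16537368)))) (c (l 16522864) (c (l 16519880) (c (l 16517544) (a (l 16523600) (l 16507672)))))) (a (c (a (l 16500872) (l 16485832)) (c (l 16488352) (a (l 16492464) (c (l 16477168) (l 16474672))))) (c (a (l 16471232) (l 16457744)) (c (l 16457768) (a (l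 16459952) (l 16445216))))))) (a (c (a (b (l 16535080) (l 16520168)) (b (l 16508112) (l 16493832))) (a (c (b (l 16534168) (l 16519480)) (b (c (l 16532664) (l 16531272)) (l 16517432))) (c (b (l 16505328) (l 16491232)) (b (a (l 16509856) (l 16494320)) (l 16488120))))) (a (c (b (l 16479112) (l 16465488)) (b (c (l 16474408) (a (l 16478368) (l 16462144))) (c (l 16460936) (l 16456672)))) (b (c (l 16450920) (a (l 16449120) (l 16434928))) (c (l 16437976) (c (l 16431632) (l 16426256))))))) (a (b (c (a (l 16519992) (l 16494616)) (a (b (c (l 16505328) (l 16503392)) (l 16491048)) (b (l 16476328) (l 16463488)))) (a (c (l 16474016) (b (l 16478296) (l 16466384))) (b (l 16474904) (l 16442904)))) (b (a (c (b (l 16452496) (l 16440320)) (b (l 16446064) (l 16433880))) (b (c (l 16425672) (l 16416856)) (c (l 16414216) (l 16405360)))) (a (b (c (l 16429192) (l 16422480)) (l 16415992)) (b (l 16399688) (l 16390168)))))), by decide +kernel⟩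

def k10_pm_102 : ∃ t, chk3 f_pm_102 t 15 14 1 = true :=
  ⟨(a (b (a (b (c (a (l 16458456) (l 16446360)) (a (c (l 16450800) (c (l 16446456) (l 16443368))) (b (l 16438336) (l 16431776)))) (c (a (l 16445216) (l 16433472)) (a (c (l 16437568) (l 16431560)) (b (l 16425288) (l 16418904))))) (b (c (a (l 16434832) (l 16423416)) (a (c (l 16426008) (l 16419416)) (b (l 16413808) (l 16407568)))) (c (a (l 16422296) (l 16411232)) (a (l 16420632) (l 16398368))))) (a (b (c (a (l 16432312) (l 16420920)) (a (l 16421808) (l 16409568))) (c (l 16414288) (c (l 16406480) (l 16400176)))) (b (c (a (l 16410104) (l 16399400)) (a (l 16397968) (l 16386528))) (c (l 16393208) (a (l 16386344) (l 16375264)))))) (b (a (b (c (a (l 16411816) (b (l 16402936) (l 16397160))) (a (b (l 16401472) (l 16395400)) (b (l 16388984) (l 16383080)))) (c (a (l 16400000) (b (l 16391432) (l 16385776))) (a (b (l 16389408) (l 16383528)) (b (l 16377256) (l 16371560))))) (b (c (a (b (l 16390896) (l 16385304)) (b (l 16378688)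 (l 16373272))) (a (b (l 16376336) (l 16370608)) (b (l 16363528) (l 16357968)))) (c (a (b (l 16379760) (l 16374296)) (b (l 16367920) (c (l 16366072) (l 16359048)))) (a (b (l 16364960) (l 16359432)) (b (l 16352496) (l 16357640)))))) (a (b (c (a (l 16388536) (l 16377496)) (a (l 16374960) (l 16363256))) (c (a (l 16377576) (l 16366912)) (a (l 16364048) (l 16352712)))) (b (c (a (b (l 16368936) (l 16363688)) (b (l 16357472) (l 16352416))) (a (b (l 16354048) (l 16348800)) (b (l 16341952) (l 16336888)))) (c (a (l 16356088) (b (l 16347496) (l 16342752))) (a (l 16341232) (b (l 16331992) (l 16327264)))))))), by decide +kernel⟩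

def k11_pm_102 : ∃ t, chk3 f_pm_102 t 15 15 1 = true :=
  ⟨(a (b (a (b (c (l 16402712) (l 16391928)) (c (l 16392008) (l 16381160))) (b (c (l 16382384) (l 16369968)) (c (l 16372448) (l 16359952)))) (a (b (c (l 16382416) (l 16371248)) (c (l 16374024) (l 16362312))) (b (c (l 16363680) (l 16350848)) (c (l 16356128) (l 16342744))))) (b (a (b (c (a (l 16367312) (l 16357032)) (a (l 16353824) (l 16342856))) (c (a (l 16357968) (l 16348088)) (l 16339112))) (b (c (a (l 16346600) (b (l 16338200) (l 16333864))) (a (l 16331768) (b (l 16322728) (l 16318400)))) (c (a (l 16338048) (b (l 16329784) (l 16325992))) (a (l 16323136) (l 16312320))))) (a (b (c (a (l 16349816) (l 16340344)) (l 16351800)) (c (a (l 16342904) (l 16333864)) (l 16323592))) (b (c (a (b (l 16332400) (l 16329088)) (b (l 16322520) (l 16319424))) (a (l 16315496) (b (l 16306800) (l 16303472)))) (c (a (l 16324680) (b (l 16316656) (l 16314080))) (a (l 16308920) (b (l 16300424) (l 16297616)))))))), by decide +kernel⟩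

theorem s12_pm_102 : ∃ t, chk3 f_pm_102 t 15 7 1 = true := ex3_b k10_pm_102 k11_pm_102

theorem s13_pm_102 : ∃ t, chk3 f_pm_102 t 7 7 1 = true := ex3_a k9_pm_102 s12_pm_102

theorem s14_pm_102 : ∃ t, chk3 f_pm_102 t 15 13 1 = true := ex3_a k7_pm_102 k8_pm_102

theorem s15_pm_102 : ∃ t, chk3 f_pm_102 t 15 25 1 = true := ex3_a k5_pm_102 k6_pm_102

theorem s16_pm_102 : ∃ t, chk3 f_pm_102 t 15 12 1 = true := ex3_b k4_pm_102 s15_pm_102

theorem s17_pm_102 : ∃ t, chk3 f_pm_102 t 15 6 1 = true := ex3_b s16_pm_102 s14_pm_102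

theorem s18_pm_102 : ∃ t, chk3 f_pm_102 t 7 6 1 = true := ex3_a k3_pm_102 s17_pm_102

theorem s19_pm_102 : ∃ t, chk3 f_pm_102 t 7 3 1 = true := ex3_b s18_pm_102 s13_pm_102

theorem s20_pm_102 : ∃ t, chk3 f_pm_102 t 3 3 1 = true := ex3_a k2_pm_102 s19_pm_102

theorem s21_pm_102 : ∃ t, chk3 f_pm_102 t 3 1 1 = true := ex3_b k1_pm_102 s20_pm_102

theorem s22_pm_102 : ∃ t, chk3 f_pm_102 t 1 1 1 = true := ex3_a k0_pm_102 s21_pm_102

theorem c_pm_102 : CertB 536870912 536870912 0 536870912 740881858 40050571 3 eng mog cd0q1 cd0q0 pd2 true true false .npp 1 0 2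
    ndB0q1 ndB0q0 pcB2 cut_pm_102 Ext.none :=
  certB0 (fam := true) (s1 := true) (s2 := false) (a := 1) (b := 0) (c := 2) (cn := .npp) (n1 := ndB0q1) (n2 := ndB0q0) (pc := pcB2) (cut := cut_pm_102) (xt := Ext.none) (P1 := 536870912) (W1 := 536870912) (P2 := 0) (W2 := 536870912) (P3 := 740881858) (W3 := 40050571) (N0 := 3) (En := eng) (mo := mog) (C1 := cd0q1) (C2 := cd0q0) (C3 := pd2)
    rfl s22_pm_102

noncomputable def cut_pm_112 : Cut := Cut.of [[⟨3, 0, 0, 1449551462⟩], [⟨4, 0, 0, 2845415833⟩]]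

noncomputable def f_pm_112 : ℕ → ℕ → ℕ → ℕ → Bool := onCell 536870912 536870912 536870912 536870912 740881858 40050571
    (rowB 3 eng mog cd0q1 cd0q1 pd2 0 true true false .dn 1 1 2 (qsf 536870912 536870912 536870912 536870912 2) ndB0q1 ndB0q1 pcB2 cut_pm_112 Ext.none)

def k0_pm_112 : ∃ t, chk3 f_pm_112 t 2 2 1 = true :=
  ⟨(a (b (l 6) (b (l 6) (a (l 6) (b (a (l 6) (l 16648672)) (a (b (l 6) (a (l 6) (l 16618784))) (b (l 16626272) (l 16610776))))))) (b (a (l 6) (b (l 6) (a (b (l 6) (l 16648672)) (b (a (l 6) (b (l 6) (l 16618784))) (a (l 16626272) (l 16610776)))))) (b (a (b (a (l 6) (l 16682624)) (a (l 16682624) (l 16643752))) (b (a (l 16636416) (l 16610592)) (a (l 16624512) (l 16605336)))) (a (a (b (l 16636416) (l 16610592)) (b (l 16624512) (l 16605336))) (b (a (l 16612872) (l 16602448)) (a (l 16602448) (l 16602432))))))), by decide +kernel⟩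

def k1_pm_112 : ∃ t, chk3 f_pm_112 t 2 6 1 = true :=
  ⟨(a (b (a (b (a (l 6) (a (l 6) (b (l 6) (l 16596120)))) (a (c (b (a (l 6) (l 16594728)) (a (l 16582592) (l 16573736))) (b (l 16638992) (l 16576368))) (a (b (l 16605952) (l 16564568)) (b (l 16577528) (l 16557504))))) (b (a (b (a (l 16607480) (l 16601496)) (l 16607632)) (b (l 16594872) (l 16578864))) (a (b (l 16568920) (l 16549664)) (b (l 16562720) (l 16544976))))) (a (b (b (a (a (l 16558568) (l 16549080)) (l 16537312)) (a (c (l 16547104) (l 16526328)) (l 16510616))) (a (b (c (a (l 16502328) (l 16493096)) (l 16498744)) (c (l 16494920) (l 16473672))) (b (l 16482104) (c (l 16456216) (l 16454256))))) (b (a (b (l 16526904) (l 16500784)) (l 16511192)) (a (b (l 16472648) (l 16444536)) (l 16457312))))) (a (b (b (a (a (l 16583984) (l 16583816)) (l 16585648)) (a (b (l 16563192) (l 16547744)) (l 16607016))) (b (a (l 16517192) (l 16534408)) (a (l 16466936) (l 16491464)))) (b (b (a (l 16592552) (l 16604552)) (a (l 16582560) (l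 16608032))) (b (a (l 16563616) (l 2)) (l 2))))), by decide +kernel⟩

def k2_pm_112 : ∃ t, chk3 f_pm_112 t 2 7 1 = true :=
  ⟨(a (b (a (a (b (b (c (l 16452888) (l 16450160)) (a (l 16432760) (l 16423432))) (b (a (l 16406576) (l 16397984)) (a (l 16381520) (l 16373688)))) (b (b (l 16433920) (l 16411472)) (b (a (l 16390456) (l 16384240)) (a (l 16366960) (l 16361592))))) (b (a (b (l 16421208) (l 16400424)) (b (l 16417184) (l 16396824))) (a (b (l 16377888) (c (l 16363280) (l 16349512))) (b (l 16376400) (l 2))))) (a (b (a (b (a (c (l 16366432) (l 16354264)) (l 16353672)) (a (c (l 16349352) (l 16335520)) (c (l 16343296) (l 16329152)))) (b (a (l 16347784) (l 16343304)) (a (c (l 16338512) (l 16323896)) (l 82777941751)))) (a (b (a (c (b (l 16336744) (l 16328128)) (l 16317232)) (c (b (l 16331296) (l 16323072)) (l 16311728))) (a (c (b (a (l 16320664) (l 16318136)) (a (l 81704124551) (l 84388475127))) (b (l 16303224) (a (l 16295008) (l 16292584)))) (c (l 87072838711) (l 97273357639))))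 (b (a (c (l 83314769335) (l 16307400)) (l 2)) (l 2)))) (b (a (b (c (l 16347328) (l 16331776)) (l 2)) (l 2)) (l 2)))) (b (a (b (a (b (l 16426344) (l 2)) (l 2)) (l 2)) (l 2)) (l 2))), by decide +kernel⟩

def k3_pm_112 : ∃ t, chk3 f_pm_112 t 6 2 1 = true :=
  ⟨(b (a (b (a (a (l 6) (b (l 6) (b (l 6) (l 16596120)))) (b (c (a (b (l 6) (l 16594728)) (b (l 16582592) (l 16573736))) (a (l 16638992) (l 16576368))) (a (b (l 16605952) (l 16577528)) (c (l 16562952) (l 16558144))))) (a (b (a (b (l 16607480) (l 16601496)) (l 16607632)) (a (l 16594872) (l 16578864))) (b (a (l 16568920) (l 16549664)) (a (l 16562720) (l 16544976))))) (b (a (a (b (b (l 16558568) (l 16549080)) (l 16537312)) (b (c (l 16547104) (l 16526328)) (l 16510616))) (b (a (c (b (l 16502328) (l 16493096)) (l 16498744)) (c (l 16494920) (l 16473672))) (a (l 16482104) (c (l 16456216) (l 16454256))))) (a (b (a (l 16526904) (l 16500784)) (l 16511192)) (b (a (l 16472648) (l 16444536)) (l 16457312))))) (b (a (a (b (b (l 16583984)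 (l 16583816)) (l 16585648)) (b (a (l 16563192) (l 16547744)) (l 16607016))) (a (b (l 16517192) (l 16534408)) (b (l 16466936) (l 16491464)))) (a (a (b (l 16592552) (l 16604552)) (b (l 16582560) (l 16608032))) (a (b (l 16563616) (l 2)) (l 2))))), by decide +kernel⟩

def k4_pm_112 : ∃ t, chk3 f_pm_112 t 7 2 1 = true :=
  ⟨(b (a (b (b (a (c (a (l 16452888) (l 16430264)) (a (l 16450160) (l 16425008))) (a (b (l 16406576) (l 16397984)) (b (l 16381520) (l 16373688)))) (a (a (l 16433920) (l 16411472)) (a (l 16408152) (b (l 16366960) (l 16361592))))) (a (b (a (l 16421208) (l 16400424)) (a (l 16417184) (l 16396824))) (b (a (l 16377888) (b (l 16357824) (l 16355936))) (a (l 16376400) (l 2))))) (b (a (b (a (b (c (l 16366432) (l 16354264)) (l 16353672)) (b (c (l 16349352) (l 16335520)) (c (l 16343296) (l 16329152)))) (a (b (l 16347784) (l 16343304)) (b (c (l 16338512) (l 16323896)) (l 82777941095)))) (b (a (b (c (a (l 16336744) (l 16328128)) (l 16317232)) (c (a (l 16331296) (l 16323072))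 (l 16311728))) (b (c (a (b (l 16320664) (l 16318136)) (b (l 16311648) (l 84388475127))) (a (l 16303224) (b (l 16295008) (l 16292584)))) (c (l 87072838711) (l 96736486391)))) (a (b (c (l 83314769335) (l 16307400)) (l 2)) (l 2)))) (a (b (a (l 103715976807) (l 2)) (l 2)) (l 2)))) (a (b (a (b (a (l 16426344) (l 2)) (l 2)) (l 2)) (l 2)) (l 2))), by decide +kernel⟩

def k5_pm_112 : ∃ t, chk3 f_pm_112 t 3 3 1 = true :=
  ⟨(a (b (a (b (a (b (l 16621000) (l 2)) (l 2)) (l 2)) (l 2)) (l 2)) (l 2)), by decide +kernel⟩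

theorem s6_pm_112 : ∃ t, chk3 f_pm_112 t 3 2 1 = true := ex3_a k3_pm_112 k4_pm_112

theorem s7_pm_112 : ∃ t, chk3 f_pm_112 t 3 1 1 = true := ex3_b s6_pm_112 k5_pm_112

theorem s8_pm_112 : ∃ t, chk3 f_pm_112 t 2 3 1 = true := ex3_b k1_pm_112 k2_pm_112

theorem s9_pm_112 : ∃ t, chk3 f_pm_112 t 2 1 1 = true := ex3_b k0_pm_112 s8_pm_112

theorem s10_pm_112 : ∃ t, chk3 f_pm_112 t 1 1 1 = true := ex3_a s9_pm_112 s7_pm_112

theorem c_pm_112 : CertB 536870912 536870912 536870912 536870912 740881858 40050571 3 eng mog cd0q1 cd0q1 pd2 true true false .dn 1 1 2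
    ndB0q1 ndB0q1 pcB2 cut_pm_112 Ext.none :=
  certB0 (fam := true) (s1 := true) (s2 := false) (a := 1) (b := 1) (c := 2) (cn := .dn) (n1 := ndB0q1) (n2 := ndB0q1) (pc := pcB2) (cut := cut_pm_112) (xt := Ext.none) (P1 := 536870912) (W1 := 536870912) (P2 := 536870912) (W2 := 536870912) (P3 := 740881858) (W3 := 40050571) (N0 := 3) (En := eng) (mo := mog) (C1 := cd0q1) (C2 := cd0q1) (C3 := pd2)
    rfl s10_pm_112

end Pool.Agent.Strip051.G.I69_7273.Tab.C.BA00

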