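import Pool.Agent.Strip051.G.I69_7273.Tab
import Pool.Agent.Strip051.PB.ExtD2

/-! # Certificates B3 (generated) -/

set_option linter.all false
set_option maxRecDepth 100000

namespace Pool.Agent.Strip051.G.I69_7273.Tab.C.BA00

open Pool.Agent.Strip051.PB Pool.Agent.Strip051.PB.T
open Pool.Agent.Strip051.G.I69_7273.Tab

noncomputable def cut_pm_213 : Cut := Cut.of [[⟨3, 0, 0, 1449551462⟩], [⟨4, 0, 0, 2845415833⟩], [⟨0, 1, 0, 67108864⟩, ⟨1, 1, 0, 67108864⟩, ⟨2, 2, 0, 16777216⟩], [⟨0, 1, 0, 33554432⟩, ⟨1, 0, 1, 20971520⟩, ⟨2, 1, 1, 20971520⟩]]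

noncomputable def xt_pm_213 : Ext := extD2 3 ⟨4, 1, 1, 5, 7, 3, 99, 100, 9, 20, 1, 8⟩ eng cd0q2 cd0q1 pd3 true true false .pnn 2 1 3 rfl ndB0q2 ndB0q1 pcB3

noncomputable def f_pm_213 : ℕ → ℕ → ℕ → ℕ → Bool := onCell 0 536870912 1610612736 536870912 740881858 40050571
    (rowB 3 eng mog cd0q2 cd0q1 pd3 1 true true false .pnn 2 1 3 (qsf 0 536870912 536870912 536870912 3) ndB0q2 ndB0q1 pcB3 cut_pm_213 xt_pm_213)

def k0_pm_213 : ∃ t, chk3 f_pm_213 t 2 1 1 = true :=
  ⟨(b (b (a (l 1) (b (l 1) (a (l 1) (b (l 1) (a (l 1) (l 16584000)))))) (b (a (a (l 14) (b (b (l 1) (l 16734648)) (l 14))) (a (b (a (l 16652128) (b (l 16632160) (l 16643720))) (a (b (l 16669608) (l 16679816)) (b (l 16654264) (l 16665024)))) (b (a (l 16623440) (l 16651504)) (a (b (l 16640392) (l 16651344)) (b (l 16627552) (l 16638872)))))) (a (l 14) (a (b (a (l 14) (b (l 16675808) (l 16686736))) (l 14)) (b (a (b (l 16662448) (l 16673960)) (b (l 16650400) (l 16662712))) (a (b (a (l 16688728) (l 16683256)) (l 14)) (b (a (l 16678384) (l 16673056)) (a (a (l 16692600)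 (l 16690600)) (b (l 16683544) (l 16690880)))))))))) (b (b (a (l 14) (a (l 14) (b (a (l 14) (b (a (l 14) (b (l 16700488) (l 14))) (l 14))) (l 14)))) (l 14)) (l 14))), by decide +kernel⟩

def k1_pm_213 : ∃ t, chk3 f_pm_213 t 6 4 1 = true :=
  ⟨(b (l 1) (a (b (l 1) (a (l 16566392) (l 16543848))) (b (a (l 16495040) (l 16506504)) (a (l 16517480) (l 16487328))))), by decide +kernel⟩

def k2_pm_213 : ∃ t, chk3 f_pm_213 t 7 8 1 = true :=
  ⟨(a (b (l 1) (a (a (l 1) (l 16407592)) (b (l 16384552) (l 16388768)))) (a (b (a (l 16360600) (b (l 1) (l 16345392))) (a (l 16364648) (b (l 16347216) (l 16351144)))) (b (a (b (l 16348792) (l 16348832)) (a (b (c (l 16322192) (l 16304688)) (c (l 16323432) (l 16303448))) (b (c (a (l 16315360) (b (l 16310608) (l 16310768))) (l 16314544)) (c (b (a (l 16316104) (l 16311416)) (l 16314944)) (b (l 16292552) (l 16292536)))))) (a (b (a (l 16334344) (l 16325208)) (l 16334232)) (b (a (l 16315792) (c (a (l 16320256) (b (l 16314536) (l 16317160))) (l 16314696))) (a (l 16320728) (c (a (l 16326808) (b (l 16320536)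 (l 16345664))) (b (l 16296424) (l 16299128))))))))), by decide +kernel⟩

def k3_pm_213 : ∃ t, chk3 f_pm_213 t 7 9 1 = true :=
  ⟨(a (b (a (a (l 16437912) (l 16420632)) (a (l 16405672) (l 16391256))) (a (a (l 16459792) (l 16442296)) (a (l 16427696) (l 16414616)))) (a (b (a (l 16377152) (b (l 16357856) (l 16367608))) (a (b (l 16394360) (l 16410168)) (b (l 16380720) (l 16418536)))) (b (a (b (l 16341592) (c (l 16366080) (l 16337952))) (c (a (b (l 16342496) (b (l 16351784) (c (l 16366928) (l 16351272)))) (b (c (a (l 16343720) (b (l 16336920) (a (l 16344096) (c (b (l 16344336) (a (l 16348256) (l 141601600535199775))) (l 16338392))))) (a (l 16329304) (b (l 16322376) (l 16327856)))) (c (b (b (a (l 16352064) (b (l 141307618614083615) (l 140972611168813087))) (l 140984156050456607)) (l 141143516529623071)) (a (l 16341784) (b (b (l 16332544) (l 16346456)) (a (l 16342552) (l 140762398271422495))))))) (b (a (l 16314568) (a (l 16307152) (b (l 16300040) (l 16304376)))) (a (l 16324320) (a (l 16317280) (b (c (l 16317856) (l 16301216))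 (a (l 16316840) (c (l 16344216) (l 16305656))))))))) (b (a (c (a (l 16385032) (l 16378608)) (l 16350448)) (c (a (c (l 141629225832710175) (a (l 16365320) (l 140864584176664607))) (b (l 141140630312386591) (c (l 140950964595474463) (l 140782807998054431)))) (a (l 16337648) (c (a (l 16361128) (b (a (l 16332912) (a (l 16331304) (l 140547718604881951))) (l 140564486177964063))) (a (l 16321928) (b (l 16313528) (b (l 16319144) (l 140354754299854879)))))))) (a (b (c (l 141485945756139551) (l 16362288)) (c (l 141511853021495327) (l 16371480))) (a (c (b (l 140983537643372575) (l 141012812164382751)) (c (l 140727626265362463) (l 16345336))) (c (a (b (l 140909732916051999) (l 140941481338945567)) (b (b (l 140853932688818207) (l 140866302206558239)) (c (b (l 140972611270541343) (l 140996113345331231)) (l 140798750958764063)))) (b (l 140499683714793503) (l 140520986773422111))))))))), by decide +kernel⟩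

def k4_pm_213 : ∃ t, chk3 f_pm_213 t 6 10 1 = true :=
  ⟨(b (a (a (l 16634272) (l 16569136)) (a (l 16544232) (l 16516488))) (a (a (b (l 16611728) (l 16623680)) (b (l 16591104) (l 16603976))) (b (a (l 16569008) (l 16544976)) (a (l 16583176) (l 16560896))))), by decide +kernel⟩

def k5_pm_213 : ∃ t, chk3 f_pm_213 t 14 10 1 = true :=
  ⟨(b (a (a (l 16492384) (l 16476472)) (a (l 16463336) (l 16452032))) (a (b (a (l 16524408) (l 16511112)) (a (l 16542040) (l 16530168))) (b (b (l 16488848) (l 16502520)) (a (c (l 16536640) (l 16504024)) (l 16513416))))), by decide +kernel⟩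

def k6_pm_213 : ∃ t, chk3 f_pm_213 t 15 20 1 = true :=
  ⟨(b (a (a (l 16429888) (c (l 16435848) (l 16401056))) (a (c (a (l 16428608) (b (l 141149082923630623) (l 141209556091289631))) (a (l 16390816) (l 16404856))) (a (c (b (l 141239517744611359) (c (l 141216290612543519) (l 141028892555690015))) (b (l 140673337891717151) (l 140722884659347487))) (c (c (a (b (l 141083043509927967) (l 141156779539677215)) (c (b (a (l 141096787412844575) (b (l 141059472727179295) (l 141094313517416479))) (a (l 141174784051068959) (c (b (l 141158291372326943) (b (l 141192376245616671) (l 141216771668656159))) (l 141131628212076575)))) (b (l 140993502016077855) (l 141067169326317599)))) (b (l 140871387475345439) (a (l 140960035632185375) (l 140913581260668959)))) (b (c (l 140666259792920607) (l 140446975897894943)) (c (l 140723503144009759) (l 140498034493915167))))))) (a (a (l 16453960) (a (l 16446664) (l 16441760))) (b (c (c (a (l 141416539211579423) (a (l 141305625965510687) (a (l 141251749890899999) (a (l 141405818998489119) (c (a (l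 141264256887521311) (c (b (b (l 141238693190467615) (l 141267143063306271)) (b (l 141297654520791071) (l 141330227562922015))) (l 141230103257841695))) (l 141155061571026975)))))) (a (l 141237112615223327) (a (l 141107919984869407) (b (l 140999343194243103) (l 141048546356789279))))) (a (l 140945260932890655) (a (l 140789473859895327) (c (a (l 140825345441529887) (l 140777310521753631)) (l 140568059668578335))))) (a (a (c (l 16465848) (l 16422776)) (c (l 141386921125642271) (l 16438120))) (a (c (c (l 141420731126382623) (l 141210655637372959)) (l 141057204972273695)) (c (c (a (l 141374757793185823) (c (a (l 141408842665345055) (a (l 141399496816132127) (b (b (l 141337855450415135) (l 141374276762402847)) (b (l 141412965838962719) (l 141453853939171359))))) (b (l 141256079231860767) (l 141327753667330079)))) (a (l 141154236941697055) (b (l 141086891841601567) (l 141152862559338527)))) (c (a (l 140924095363170335) (l 140881489283137567)) (l 140659594043047967)))))))), by decide +kernel⟩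

def k7_pm_213 : ∃ t, chk3 f_pm_213 t 30 21 1 = true :=
  ⟨(b (b (a (l 16475168) (a (l 16468848) (l 16464792))) (a (l 16490136) (a (l 16484840) (l 16481536)))) (a (b (l 16501888) (l 16514272)) (a (l 16546816) (b (l 16495888) (l 16511664))))), by decide +kernel⟩

def k8_pm_213 : ∃ t, chk3 f_pm_213 t 31 42 1 = true :=
  ⟨(b (c (a (a (l 16483536) (l 141511097258262559)) (a (c (l 141564767191695391) (l 141340054451208223)) (c (a (b (l 141489038315896863) (l 141576380794634271)) (b (a (l 141472683080122399) (c (b (l 141499483683618847) (l 141544769831059487)) (l 141402451761102879))) (a (l 141563255374905375) (c (b (l 141592461160595487) (l 141642557672243231)) (l 141492817897422879))))) (a (l 141294974471454751) (b (l 141406987205705759) (a (l 141315521605255199) (l 141483128408522783))))))) (a (a (l 16438080) (l 141074041288163359)) (a (c (l 141107232812220447) (l 140866508433162271)) (c (a (l 141050607958114335) (b (l 140978383774498847) (l 141052325952520223))) (a (l 140798682302119967) (l 140754564393304095)))))) (c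 (a (a (l 16502544) (b (l 141624828024356895) (l 141695746544123935))) (a (b (l 141578236217671711) (a (l 141666334608048159) (l 141649292178341919))) (a (b (c (l 141673000404320287) (l 141421968099164191)) (b (c (l 141744193800667167) (l 141486426985496607)) (a (l 141657194923868191) (c (l 141784051108085791) (l 141520992892207135))))) (b (c (a (l 141663242239623199) (b (c (l 141695128085463071) (l 141566691354263583)) (a (l 141685988393910303) (b (l 141669908033388575) (c (b (l 141756632033198111) (l 141771819041128479)) (l 141721791230312479)))))) (a (l 141405406704926751) (b (l 141371184399155231) (b (l 141407193414418463) (a (l 141434200175149087) (l 141430283165040671)))))) (b (a (c (b (l 141727288808259615) (l 141748935448707103)) (l 141473507724001311)) (c (a (b (l 141905478412271647) (l 141749141608038431)) (c (l 141804460799868959) (l 141670389070512159))) (a (l 141468834799730719) (l 141466910654513183)))) (c (a (l 141784669584637983) (c (a (l 141852701882744863) (l 141854144992575519)) (l 141718630153633823)))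 (a (l 141517007162884127) (l 141513914786791455)))))))) (a (a (l 16454632) (l 141375719827177503)) (a (b (l 141089159593132063) (l 141155199029002271)) (b (a (l 141034046567792671) (c (a (l 141141661295149087) (b (l 141105239965728799) (l 141149083003519007))) (l 140862660160552991))) (b (a (l 141089640639791135) (c (a (l 141203508840546335) (l 141193200918315039)) (l 140921071730966559))) (a (l 141123656789753887) (c (l 141240205050380319) (l 140959760805412895))))))))), by decide +kernel⟩

def k9_pm_213 : ∃ t, chk3 f_pm_213 t 31 86 1 = true :=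
  ⟨(b (a (a (l 16490392) (c (l 141758418724454431) (l 16483960))) (a (c (a (l 141736565932261407) (b (l 141705504725106719) (l 141748591847260191))) (a (l 141232439739334687) (l 141205295543894047))) (c (a (a (b (l 141700282046038047) (l 141747835934490655)) (l 141903829142355999)) (c (a (l 141859024074932255) (c (a (l 141928980518797343) (b (a (l 141904585099526175) (l 141905478453182495)) (b (l 141943961368526879) (l 141970280933933087)))) (b (l 141767970748858399) (l 141998593323941919)))) (a (l 141587169764212767) (c (a (l 141654995903578143) (l 141654652306636831)) (l 141515220457242655))))) (a (c (l 141320125817339935) (l 141044698095124511)) (c (a (l 141309955334258719) (l 141303358264164383)) (l 141021814506848287)))))) (a (a (l 16498400) (c (l 141830505474555935) (l 141341703728021535))) (a (a (c (l 141820060116713503) (l 141304595207929887)) (c (l 141820197557895199) (l 141286384545169439))) (c (a (c (l 141956674471395359) (l 141685988392026143)) (c (a (l 142142354500272159) (b (a (l 141938738686296095) (c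 (a (l 142009657202671647) (l 30)) (l 141870775109025823))) (c (l 30) (b (l 141909601621688351) (l 142026356018561055))))) (a (l 141684682723262495) (c (b (l 141729693991567391) (l 141781096171520031)) (l 141792984603836447))))) (a (l 141269823150014495) (c (c (l 141651147572248607) (l 141326929049780255)) (l 141108332347408415))))))), by decide +kernel⟩

def k10_pm_213 : ∃ t, chk3 f_pm_213 t 31 87 1 = true :=
  ⟨(a (a (b (l 16507008) (l 16516112)) (c (a (l 16538616) (l 141963065377259551)) (a (l 16484872) (l 141447600468541471)))) (a (c (a (l 141966707512410143) (b (l 141919978260054047) (l 142024294448627743))) (c (l 141564286168875039) (l 141287552776323103))) (c (a (b (c (l 142062296330354719) (l 141785837813727263)) (c (l 142172797273178143) (l 141890428880289823))) (c (b (a (l 142250312821981215) (b (c (l 30) (c (l 30) (l 141941281307328543))) (l 30))) (l 30)) (b (a (l 141786868607696927) (c (a (l 141859917428424735) (b (l 141834285058490399) (l 141888367298576415))) (b (l 141689080771837983) (l 141741513744121887))))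 (a (l 141893933575979039) (c (c (l 30) (b (l 141905959488159775) (l 142052057107988511))) (a (l 141821984268795935) (b (l 141795527264976927) (l 141850640297426975)))))))) (a (c (b (l 141503881738895391) (l 141602425490259999)) (l 141262057848553503)) (c (b (a (l 141497971864289311) (c (l 141568409344344095) (l 141420250120421407))) (a (l 141598989517357087) (c (a (l 141672794252197919) (l 141852701842800671)) (l 141521473931968543)))) (b (a (l 141203508843233311) (l 141195331224928287)) (a (l 141298410461610015) (l 141291950830583839)))))))), by decide +kernel⟩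

def k11_pm_213 : ∃ t, chk3 f_pm_213 t 6 11 1 = true :=
  ⟨(b (a (a (b (l 16635728) (l 16648888)) (b (l 16616832) (l 16631184))) (a (b (l 16597184) (l 16613144)) (b (l 16576520) (l 16594488)))) (a (b (a (a (l 16666696) (l 16659264)) (a (l 16651032) (l 16642768))) (a (b (l 16674584) (a (l 16685616) (l 16679392))) (b (c (l 16669536) (l 16650464)) (a (l 16672704) (l 16666368))))) (b (a (a (l 16634720) (l 16627344)) (l 16616672)) (a (b (l 16647032) (a (l 16661080) (l 16657000))) (b (l 16636680) (l 16652360)))))), by decide +kernel⟩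

def k12_pm_213 : ∃ t, chk3 f_pm_213 t 7 44 1 = true :=
  ⟨(a (a (a (l 16558952) (l 16548608)) (a (b (l 16535640) (l 16547144)) (a (l 16537968) (l 16536896)))) (a (a (b (l 16528616) (l 16545088)) (b (a (l 16528680) (l 16529392)) (c (l 16573192) (l 16522376)))) (a (b (a (a (l 16530328) (l 16552056)) (c (l 142164894523424799) (l 141633486692991007))) (a (a (l 16550896) (l 16552280)) (c (l 142386652322988063) (l 141829199805595679)))) (c (a (a (b (l 142178775863935007) (l 142410566709329951)) (c (l 30) (b (l 142048208831250463) (l 142280755591102495)))) (c (l 30) (b (a (b (l 141999899030716447) (l 142114591862407199)) (b (a (l 142186197535096863) (c (l 30) (a (l 141933928320925727) (b (l 141997150234181663) (a (l 141964302336671775) (l 30)))))) (a (l 142303639146463263) (l 30)))) (l 30)))) (c (a (b (l 141761098793500703) (l 142157266624004127)) (a (b (b (l 141705779605962783) (l 141814150244483103)) (b (l 141927743564267551) (l 142046765723811871))) (a (b (b (l 141705023693226015) (l 141816143111389215)) (b (l 141932691369312287)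 (l 142054874625441823))) (c (b (b (b (l 141754158130790431) (l 141810164516585503)) (a (l 141895857722507295) (b (l 141868232487370783) (a (l 141926644055195679) (l 141927674847838239))))) (l 30)) (b (b (a (l 141627920424517663) (l 141627508108115999)) (b (l 141710796131860511) (l 141767902029479967))) (b (a (l 141855381942140959) (b (l 141827000792629279) (l 141887199067308063))) (a (l 141977496478777375) (l 30)))))))) (a (b (l 141471858453676063) (l 141674855832403999)) (b (a (l 141636510320132127) (b (c (l 141653827633905695) (l 141317651920568351)) (a (l 141502988388778015) (c (l 141580297817702431) (l 141419837805461535))))) (a (b (l 141615001158598687) (l 141727357527490591)) (b (a (l 141613008295051295) (c (a (l 141693822417715231) (l 141874348483739679)) (l 141530338748137503))) (a (l 141728525760528415) (a (l 141909739021729823) (c (b (l 141783501354876959) (l 141844936580382751)) (l 141646474689314847))))))))))))), by decide +kernel⟩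

def k13_pm_213 : ∃ t, chk3 f_pm_213 t 7 45 1 = true :=
  ⟨(b (a (a (l 16569664) (a (l 16560448) (l 16560368))) (a (a (l 16563288) (l 16568800)) (c (a (a (l 16603600) (l 142608891158511647)) (c (b (l 30) (a (l 142524778539417631) (a (l 142527046284263583) (a (l 142528283235844255) (c (a (l 142563398895386783) (b (l 30) (c (l 142775810804072607) (l 30)))) (l 30)))))) (l 30))) (a (a (l 16544808) (l 142043742058594335)) (c (a (l 142394142711595039) (a (b (l 142171422881579039) (l 30)) (l 30))) (a (l 141897988021829663) (a (b (l 141845211455619103) (l 141968837820940319)) (b (a (l 141849746943705119) (b (a (l 141821159636041759) (c (l 142087928663703583) (l 141737665454669855))) (c (l 30) (l 141799444277313567)))) (a (l 141976878003060767) (c (l 30) (a (l 141894620772794399) (b (l 141864521636069407) (l 30))))))))))))) (a (a (l 16581864) (a (l 16575760) (l 16577912))) (a (a (l 16583352) (l 16591208)) (c (a (a (l 16616528) (l 142725851728740383)) (c (a (b (l 142582846507499679) (l 142639540085817503)) (a (c (l 142646893073121439)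 (l 142580097686274207)) (b (a (l 142586145045364895) (b (a (l 142572401147969695) (c (b (l 142780140131631263) (l 142794433785266335)) (l 30))) (c (a (l 142815118351155359) (b (l 142808589999947935) (l 142822677495136415))) (b (l 30) (c (l 142771412755808415) (l 30)))))) (b (a (l 142808796157411487) (c (b (l 142836421392760991) (l 142850371448963231)) (a (l 142775467205329055) (c (l 142792784516907167) (a (l 142758630930579615) (l 142758768369664159)))))) (a (l 142836696269848735) (a (l 142837314745581727) (c (l 142871330893136031) (b (l 142796907686035615) (l 142810857742254239))))))))) (l 30))) (a (a (l 16567944) (l 142278556561276959)) (c (l 30) (a (l 142323155477184543) (a (b (l 142098374062440479) (l 30)) (l 30))))))))), by decide +kernel⟩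

def k14_pm_213 : ∃ t, chk3 f_pm_213 t 14 23 1 = true :=
  ⟨(a (b (a (l 16606288) (l 16601968)) (a (l 16638288) (c (l 16642240) (l 16616656)))) (b (a (b (c (l 16613048) (l 16572296)) (c (l 16625048) (l 16589240))) (c (l 16622312) (l 16583072))) (b (a (c (l 16634832) (l 16607312)) (l 16626176)) (a (b (l 16631520) (b (l 16634664) (l 16617640))) (c (l 16624920) (l 16623968)))))), by decide +kernel⟩

def k15_pm_213 : ∃ t, chk3 f_pm_213 t 30 23 1 = true :=
  ⟨(b (a (c (l 16625688) (l 16588856)) (b (l 16592376) (b (l 16599352) (l 16603872)))) (b (a (l 16607792) (b (l 16608296) (l 16612616))) (a (c (l 16627800) (l 16626256)) (b (l 16616832) (c (l 16653896) (l 16610352)))))), by decide +kernel⟩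

def k16_pm_213 : ∃ t, chk3 f_pm_213 t 31 92 1 = true :=
  ⟨(c (a (a (l 16626320) (l 142657200991387679)) (a (a (l 142657407151669279) (b (l 142630262954655903) (l 142684757509357663))) (a (b (b (l 142616862655381663) (l 142644487889879199)) (b (l 142581747012436063) (l 142608685052051551))) (c (b (a (b (l 142864321504329887) (l 142891534421885023)) (b (a (l 142864871260569759) (c (l 142898681249644703) (b (l 142824739078979743) (l 142838551696212127)))) (b (c (l 142918678620766303) (l 142852158154883231)) (c (l 142932078921072735) (l 142865764613652639))))) (a (b (l 142918403742007391) (l 142944998184157279)) (a (b (c (l 142951801414238303) (l 142885968143237279)) (l 142855456706363487)) (b (c (l 142907202474115167) (l 142886243021406367)) (c (l 142978533295571039) (c (l 142929467580006495) (l 142896550944538783))))))) (c (b (a (l 142777803666948255) (b (c (a (l 142780896044417183) (l 142781033478258847)) (l 30)) (a (l 142791822442987679) (b (l 142785019213824159) (l 142798900550549663))))) (a (l 142832916696940703)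 (c (b (l 142836215227613343) (l 142863290711572639)) (a (l 142816424019820703) (b (l 142802748841771167) (l 142830099198312607)))))) (b (l 30) (a (l 142586007604805791) (a (l 142585938885656735) (b (c (a (l 142769076291960991) (l 142769076292075679)) (l 30)) (c (l 142796632807030943) (a (l 142763028976730271) (l 142763028971471007)))))))))))) (a (a (l 16593032) (l 142535430020382751)) (l 30))), by decide +kernel⟩

def k17_pm_213 : ∃ t, chk3 f_pm_213 t 31 93 1 = true :=
  ⟨(c (a (a (l 16635688) (l 142763510040920159)) (a (a (l 142763784920563807) (c (b (l 142982175426068575) (l 143033440164806751)) (l 142699875796353183))) (a (b (a (l 142558244962893919) (b (l 142545394418925663) (l 142571713983152223))) (c (a (l 143034196079837279) (l 143034745836159071)) (a (l 142906102951395423) (l 142906309110300767)))) (b (a (b (c (l 142971249028874335) (l 142840269681983647)) (c (l 142997087556665439) (l 142867070282612895))) (a (b (c (l 142971730065588319) (c (l 142873529915146399) (l 142807215607955615))) (c (l 142997568593379423)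 (c (l 142900055637819487) (l 142834222367047839)))) (b (c (c (l 143004509262315615) (c (l 142955787144200287) (l 142923076667195487))) (c (l 142873667354329247) (b (l 142800412378792095) (l 142814018837561503)))) (c (c (l 143030141631610975) (l 142920534054174815)) (b (c (l 142893664725549151) (l 142827556576854175)) (c (l 142906858867392607) (l 142841025596653727))))))) (c (a (b (l 143022651206500447) (l 143047871258902623)) (c (b (l 143055292964421727) (l 143080238138851423)) (b (a (l 142991040241582175) (l 142991315119718495)) (a (l 143016466452447327) (l 143016741330567263))))) (a (b (l 142893458566332511) (l 142919571972079711)) (c (b (a (l 142926306482536543) (c (l 142942799160164447) (l 142910226122211423))) (b (l 142945891536928863) (l 142958742081339487))) (b (b (l 142854357177368735) (l 142867620038705311)) (a (l 142887273812410463) (c (l 142903766490021983) (l 142871124732625055))))))))))) (a (a (l 16612968) (l 142688193404256287)) (c (a (b (l 142542851762896927) (l 142596178086314143)) (a (b (l 142540996338352287)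 (l 142595147295588511)) (b (c (a (l 142573981693886623) (a (l 142573912931778719) (c (b (b (l 30) (l 142763853610467487)) (a (l 142784400737550495) (l 142784469457141919))) (l 30)))) (l 30)) (a (b (l 142581472118014111) (l 142608410157645983)) (a (c (b (l 142794846099603615) (l 142821715419709599)) (l 142584289570373791)) (c (b (c (l 142811544935661727) (a (l 142778284702892191) (l 142778284702990495))) (b (l 142815118349009055) (l 142828518649315487))) (b (l 30) (c (a (l 142772168668250271) (l 142772237387841695)) (l 30))))))))) (l 30)))), by decide +kernel⟩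

def k18_pm_213 : ∃ t, chk3 f_pm_213 t 62 47 1 = true :=
  ⟨(a (b (a (l 16611936) (l 16612520)) (b (l 16597656) (b (l 16600768) (l 16604112)))) (b (a (c (l 16645512) (l 16601592)) (b (l 142713138655166495) (l 142762891565252639))) (b (a (l 16598512) (l 142811338762125407)) (a (b (l 16601632) (l 16604912)) (b (a (l 142846660622221407) (l 142846866695323743)) (l 142884318902386783)))))), by decide +kernel⟩

def k19_pm_213 : ∃ t, chk3 f_pm_213 t 63 47 2 = true :=
  ⟨(b (b (a (a (l 143020108582387807) (c (l 143083467952750687) (l 142957092811472991))) (a (c (a (l 143084155148255327) (l 143084636185067615)) (a (l 142957436409593951) (l 142957711287976031))) (c (a (b (l 143072816433348703) (l 143097349290868831)) (c (l 143117071784853727) (b (l 143019215236038751) (l 143066494240391263)))) (a (b (l 142945341780377695) (l 142970767991259231)) (b (c (a (l 142977777379655775) (l 142978052257775711)) (a (l 142913318498664543) (c (l 142929742456782943) (l 142897306857865311)))) (c (a (l 143003066151534687) (l 143003341029654623))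 (a (l 142939088306962527) (c (l 142955374826111071) (l 142923214105133151))))))))) (a (a (l 143069380456022111) (c (l 143132190070440031) (l 143006983160447071))) (b (c (a (l 143120920075026527) (a (l 143121607270432863) (l 143122157026656479))) (a (l 142995232128712799) (a (l 142995919324168287) (b (c (l 143021895291568223) (l 142958261044445279)) (c (l 143034333519036511) (l 142970905430392927)))))) (a (c (l 143144903176650847) (l 143019971144712287)) (c (a (l 143145521652564191) (l 143146071408771295)) (a (l 143020727059644511) (a (l 142931048142848095) (c (l 143052887781097567) (l 142989872009379935))))))))) (b (a (a (l 143117415378862175) (c (l 143179675237318751) (l 143055567839166559))) (a (c (l 143180293713461471) (a (l 143056186315178079) (l 143056736071467103))) (c (a (l 143180843469865183) (b (l 143169573473976543) (l 143192869380702431))) (a (b (l 143045191197687903) (l 143069380457775199)) (a (b (l 143045672234369119) (l 143069930213933151)) (c (l 143089240390697183) (b (l 143014679744856159) (l 143039212602359903))))))))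 (b (a (a (l 143152531037782111) (c (l 143214378579296479) (l 143091164534472799))) (a (c (l 143214928335896799) (c (l 143123187817316447) (l 143061202837864543))) (c (a (l 143215409372774623) (b (l 143210049252933855) (c (l 143251143507673311) (l 143191082673717471)))) (b (a (l 143087316244365407) (c (l 143118789770838239) (l 143057148388868191))) (a (l 143099135996477535) (b (l 143097005692616927) (a (l 143102709410119903) (c (l 143133152144163039) (l 143071923079135455))))))))) (a (c (l 143242416130162911) (l 143124974522466399)) (a (c (l 143242691009151199) (l 143126005315928159)) (a (c (b (l 143234994426970335) (l 143249494239101151)) (b (l 143116109710115039) (a (l 143136862995529951) (l 143135488606191839)))) (a (b (c (l 143234169793495263) (l 143115697393582303)) (l 143189639564558559)) (c (l 143237330890834143) (b (l 143113704528953567) (l 143129647451046111)))))))))), by decide +kernel⟩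

def k20_pm_213 : ∃ t, chk3 f_pm_213 t 63 94 3 = true :=
  ⟨(a (a (l 142698776223612959) (b (l 142582365469425695) (l 142633973805613215))) (c (a (b (l 142647992582520991) (b (l 142866864122773663) (l 142892359053148255))) (b (a (b (l 142725164553306271) (l 142841506632040607)) (c (c (b (l 142864665100402847) (a (l 142890641067065503) (l 142890915945218143))) (b (a (l 142831817184493727) (l 142832023343169695)) (l 142858274187788447))) (a (b (l 142782476591349919) (l 142809139753009311)) (b (a (l 142782545311006879) (b (l 142775948240175263) (l 142789417259974815))) (b (l 142802680121278623) (l 142816011702091935)))))) (a (c (b (l 142899849478209631) (l 142925344408567903)) (l 142848103702855839)) (c (b (a (l 142900330514907231) (c (l 142916685753516127) (l 142884456313110623))) (a (l 142925894164742239) (c (l 142942249403351135) (l 142910226121408607)))) (b (a (l 142835459317219487) (b (l 142829205843935391) (l 142842399985778847))) (b (l 142855250524717215) (c (l 142884318873911391) (l 142852089433555103)))))))) (a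 (b (l 142515913724641439) (l 142569033889530015)) (b (b (l 30) (b (l 30) (a (l 142716437162082463) (a (l 142536667011350687) (c (c (l 142766739828506783) (l 30)) (l 30)))))) (a (c (l 142602706439798943) (l 142536804449976479)) (b (c (a (l 142770038363717791) (a (l 142770313241837727) (b (c (l 142780208848355487) (l 30)) (l 142777185190822047)))) (l 30)) (b (a (l 142577074070749343) (c (a (l 142790310613074079) (l 142790516771635359)) (l 30))) (a (l 142590336932085919) (c (l 142803642193952927) (c (l 142754645198389407) (l 30))))))))))), by decide +kernel⟩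

def k21_pm_213 : ∃ t, chk3 f_pm_213 t 126 95 3 = true :=
  ⟨(b (a (l 142683383117135967) (l 142684276471529567)) (b (a (l 142719735726833759) (c (l 142965270430023775) (l 142836696265916575))) (c (l 143004990294114399) (l 142882669603553439)))), by decide +kernel⟩

def k22_pm_213 : ∃ t, chk3 f_pm_213 t 127 190 3 = true :=
  ⟨(a (c (c (l 142961903176040543) (l 142897994051141727)) (l 142620848384131231)) (a (a (b (l 142628957292413023) (l 142654383503294559)) (c (b (l 142918816057081951) (l 142943967389991007)) (c (l 142835253158379679) (l 142590130773393567)))) (c (c (b (a (l 142951114217160799) (c (l 142967400736260191) (l 142935652332273759))) (b (l 142970080796164191) (l 142982519023632479))) (b (a (l 142887273811771487) (b (l 142836352678658143) (l 142894214480330847))) (a (l 142912700022636639) (c (l 142929192700182623) (l 142897375576768607))))) (c (c (b (a (l 142838964011024543) (l 142839513767116959)) (l 142865146136330399)) (a (l 142819653834604703) (b (l 142807215607333023) (l 142833329013063839)))) (a (b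 (l 142757737575153823) (l 142784125858840735)) (b (c (b (l 142768045498695839) (l 142781308360016031)) (l 30)) (a (l 142784744334393503) (b (l 142778490855653535) (l 142791685002870943))))))))), by decide +kernel⟩

def k23_pm_213 : ∃ t, chk3 f_pm_213 t 127 191 3 = true :=
  ⟨(b (a (c (c (l 142998530663645279) (l 142935171294642271)) (c (l 142871262169809055) (l 142806665850208415))) (c (a (c (l 142999905053966431) (l 142936889282429023)) (b (c (l 142994888531607647) (a (l 142931597882064991) (l 142932285077110879))) (b (c (l 143004028223635551) (l 142941287330070623)) (a (l 142978602012541023) (c (a (l 143010281697165407) (b (l 143008838588006495) (l 143011243770249311))) (a (b (l 142946166413819999) (l 142949258790830175)) (b (a (l 142946441291841631) (l 142946303852953695)) (c (l 142964445798154335) (l 142933040991649887))))))))) (b (a (l 142834703402336415) (c (c (l 142884318873714783) (l 142852364311363743)) (c (l 142820272310059167) (l 142788042869801119)))) (a (c (l 142879577228574815) (l 142815393225932959)) (a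 (c (l 142880745460170847) (l 142816767616008351)) (b (c (l 142878340278239327) (l 142814431153586335)) (b (a (l 142851058641092703) (c (a (l 142883219361972319) (c (l 142899024844521567) (l 142867276440633503))) (a (l 142819447676289183) (l 142819378956910751)))) (b (a (l 142853463823204447) (c (l 142885074788302943) (l 142821371822112927))) (a (c (l 142886930214322271) (l 142823227248115871)) (c (l 142886311739195487) (l 142822677492482207))))))))))) (a (a (l 142585595318009951) (c (l 143007258038665311) (l 142886036860059743))) (a (b (a (l 142662698569334879) (c (l 142995094689628255) (c (l 142902598257410143) (l 142840200961507487)))) (b (a (l 142955168666173535) (a (l 142685032403337311) (l 142684413928177759))) (a (c (l 143027461568643167) (l 142910844595880031)) (l 142697470631247967)))) (c (b (c (a (b (l 143019627547508831) (l 143031034982809695)) (a (l 143024163034251359) (l 143022857364308063))) (a (b (l 142957848726798431) (l 142970699271356511)) (a (b (l 142957367690674271) (l 142968981284651103)) (l 142961971896959071))))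 (c (l 143044985039896671) (a (l 142988222741528671) (l 142985473962704991)))) (b (a (b (a (l 142863977904799839) (c (l 142895588869832799) (l 142832641818017951))) (a (c (l 142910226120900703) (l 142848722178359455)) (l 142878752595279967))) (a (b (c (b (l 142891740578611295) (l 142898406369198175)) (l 142832229501337759)) (l 142877584364339295)) (c (l 142855456697057375) (b (l 142831267428827295) (l 142845698521890975))))) (c (a (l 142929467578466399) (b (l 142920534045442143) (l 142933315870752863))) (a (l 142870231379083423) (a (l 142868444672917663) (c (l 142882051132063903) (b (l 142845080046878879) (l 142859786017882271))))))))))), by decide +kernel⟩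

def k24_pm_213 : ∃ t, chk3 f_pm_213 t 6 6 1 = true :=
  ⟨(b (a (b (a (b (a (c (l 16709008) (l 16693760)) (c (l 16704536) (l 16689168))) (a (l 14) (c (l 16726744) (l 16716880)))) (b (a (a (l 16695120) (l 16693240)) (c (l 16694784) (l 16680208))) (a (c (l 16723584) (l 16716688)) (c (l 16720464) (l 16717456))))) (a (l 14) (b (a (l 16744432) (l 16723248)) (l 14)))) (b (a (b (a (c (l 16690688) (l 16677008)) (l 16684464)) (a (l 16718368) (l 16716880))) (b (a (l 16680448) (l 16676152)) (a (l 16714768) (l 16711616)))) (b (a (a (l 16723248) (l 16723400)) (a (l 16743872) (l 16742304))) (a (a (b (l 16760352) (l 14)) (b (l 16761744) (l 16771712))) (b (c (l 16750576) (l 16775624)) (a (l 16773248) (l 16773664))))))) (a (l 14) (b (a (l 14) (b (a (l 16778976) (l 16757824)) (l 14))) (l 14)))), by decide +kernel⟩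

def k25_pm_213 : ∃ t, chk3 f_pm_213 t 14 12 1 = true :=
  ⟨(b (a (b (a (l 16670712) (l 16665992)) (a (l 16707752) (c (l 16699328) (l 16710656)))) (c (b (a (c (l 16648512) (l 16665408)) (l 16646752)) (a (c (l 16673256) (l 16700352)) (c (l 16672600) (l 16678720)))) (b (a (b (l 16646008) (l 16673000)) (b (l 16645688) (l 16672216))) (a (b (l 16698672) (l 16722968)) (b (l 16697896) (l 16722688)))))) (a (b (a (l 16740008) (c (l 16724608) (l 16753624))) (c (a (l 16749392) (b (l 16740960) (l 16750496))) (a (l 16787320) (b (l 16782192) (l 16799008))))) (b (a (b (c (l 16716768) (l 16745904)) (c (l 16728672) (l 16767544))) (c (b (l 16694936) (l 16732360)) (b (c (l 16738432) (l 16755160)) (c (l 16758328) (a (l 16782728) (l 16779432)))))) (a (b (c (l 16739528) (a (l 16785968) (l 16789144))) (b (c (l 16746984) (l 16801488)) (c (l 16751304) (l 16809432)))) (a (b (c (l 16739376) (c (l 16778336) (l 16807000))) (b (c (l 16746920) (l 16829408)) (c (l 16751240) (c (l 16798368) (l 16833024))))) (b (c (l 16738056) (l 16789728)) (b (c (l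 16745608) (l 16805064)) (c (l 16750040) (a (l 16836736) (l 16812376)))))))))), by decide +kernel⟩

def k26_pm_213 : ∃ t, chk3 f_pm_213 t 30 48 1 = true :=
  ⟨(c (a (l 16648376) (c (a (l 16673288) (l 16674032)) (l 16647128))) (a (c (l 16661880) (l 16657192)) (b (l 16627328) (l 16650408)))), by decide +kernel⟩

def k27_pm_213 : ∃ t, chk3 f_pm_213 t 62 96 1 = true :=
  ⟨(a (c (a (l 16665048) (l 16665408)) (l 16628240)) (c (a (c (l 16669840) (l 16661680)) (b (l 16662944) (l 16669096))) (c (l 142964239666987103) (l 142872430386872415)))), by decide +kernel⟩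

def k28_pm_213 : ∃ t, chk3 f_pm_213 t 126 96 1 = true :=
  ⟨(a (c (c (b (l 16667904) (l 16672912)) (b (l 143190051877584991) (l 16665760))) (b (l 142855044400480351) (c (c (l 16660504) (l 16657064)) (l 142932972301336671)))) (b (b (c (l 143221800282800223) (c (l 143059965885481055) (l 142949739825184863))) (b (c (l 143249700394975327) (l 143004921582649439)) (a (l 142814431215091807) (a (l 142813744020537439) (l 142811819875319903))))) (b (c (a (l 143293131111710943) (l 143287358675878111)) (a (a (l 143123256534351967) (l 143121057511211103)) (l 143116247148003423))) (c (l 143316564459290847) (l 143168405240905823))))), by decide +kernel⟩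

def k29_pm_213 : ∃ t, chk3 f_pm_213 t 254 96 1 = true :=
  ⟨(b (b (c (a (c (l 143274508131844319) (l 143168336520544351)) (c (l 143272102950453471) (b (l 143157341402857695) (l 143175552067698911)))) (a (c (l 143060240764026975) (l 142950358301229151)) (b (a (l 142991177677897823) (b (l 142983962131791967) (l 142997568590757983))) (c (l 143070548688224351) (l 142963964760932447))))) (c (c (l 143297941478572255) (a (l 143205857361903839) (l 143199397731352799))) (c (a (l 143109031601684575) (l 143102915568549983)) (a (b (l 142997018834485343) (l 143025193825615967)) (l 143005265174872159))))) (c (c (l 143328246775103711) (l 143248875764744415)) (c (c (l 143189089809170527) (l 143149163786092639)) (c (l 143109169043636319) (l 143069174301278303))))), by decide +kernel⟩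

def k30_pm_213 : ∃ t, chk3 f_pm_213 t 255 96 2 = true :=
  ⟨(b (b (c (a (l 143266880270483679) (b (l 143254785641595103) (l 143264956126593247))) (a (l 143161327134589151) (c (l 143181187068559583) (b (l 143119683125280991) (l 143136519400751327))))) (c (a (l 143287358679466207) (c (l 143303439041642719) (l 143256297471705311))) (a (l 143192319625461983) (a (l 143186890786947295) (c (l 143207094317596895) (b (l 143151294091935967) (l 143167511892017375))))))) (a (c (l 143316427025252575) (a (l 143238980160176351) (l 143234994430542047))) (b (c (a (l 143301033860186335) (b (l 143292375205003487) (l 143301721056166111))) (b (c (l 143229084554707167) (l 143185378959474911)) (c (l 143242278697271519) (l 143201184442630367)))) (c (a (l 143319450684571871) (c (l 143333881778241823) (l 143296704534266079))) (b (c (l 143255197961879775) (l 143216715047829727)) (c (l 143267911068041439) (l 143232039494582495))))))), by decide +kernel⟩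

def k31_pm_213 : ∃ t, chk3 f_pm_213 t 255 192 3 = true :=
  ⟨(c (b (a (c (l 143080925332193375) (l 143026843094286431)) (b (c (l 143064844972884063) (b (l 143003959505387615) (l 143015229501931615))) (a (l 143059828450476127) (c (l 143082780760572127) (b (l 143024850231099487) (l 143035914069180511)))))) (a (l 143096112340615263) (b (a (l 143080650456318047) (c (l 143102022218170591) (b (l 143046977907261535) (l 143057904306356319)))) (a (l 143101197584220255) (c (l 143120920078336223) (b (l 143068761985974367) (l 143079550946099295))))))) (c (a (b (l 142972279820075103) (l 143023269682348127)) (a (b (l 142968019212845151) (l 143018321880219743)) (a (b (l 142965820189753439) (l 143015779259662431)) (c (b (b (l 142965682750767199) (l 142990146889531487)) (b (l 143014267430879327) (l 143038113094271071))) (b (b (l 142937782638264415) (l 142963689886318687)) (a (l 143002378959601759) (b (l 142988841220096095) (l 143014129992761439)))))))) (b (a (b (l 142902873136005279) (l 142931735322099807)) (a (l 142913318499762271)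 (c (c (b (l 142917441669398623) (l 142944517148770399)) (a (l 142918060145016927) (b (l 142902735698968735) (l 142930498373238879)))) (a (l 142897513017884831) (a (l 142896482225815711) (b (b (l 142874079672041631) (l 142888579484582047)) (a (l 142910363563081887) (b (l 142902804419215519) (b (l 142913593379242143) (l 142920740206280863)))))))))) (a (l 142974341406376031) (a (l 142969531043217503) (a (l 142967125861613663) (c (c (b (l 142970493116498015) (l 142996881400987743)) (b (l 142957917450076255) (l 142985061648941151))) (a (l 142953656842109023) (b (a (l 142938882151743583) (c (l 142944792027856991) (b (l 142925000814903455) (l 142939363188474015)))) (c (l 142972829574676575) (b (l 142953863000965279) (l 142968087935549535)))))))))))), by decide +kernel⟩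

def k32_pm_213 : ∃ t, chk3 f_pm_213 t 255 193 3 = true :=
  ⟨(c (b (a (l 143137206596436063) (a (l 143086422903177311) (b (c (l 143139611780038879) (b (l 143090271186731231) (l 143100922707886303))) (c (l 143158028603785439) (b (l 143111505509548255) (l 143122019591717087)))))) (a (l 143177132620972255) (a (l 143170810429063391) (b (a (l 143157959884800223) (c (l 143175139757424863) (l 143136656843571423))) (c (l 143194037617426655) (l 143158303483150559)))))) (b (a (c (l 143073022593826911) (l 143030072913412191)) (b (a (l 143033027852025951) (a (l 143030279062257759) (b (a (l 143022513762762847) (c (l 143044091690467423) (c (l 143010350421491807) (l 142987810429223007)))) (c (l 143056598637723743) (c (l 143023956880588895) (l 143002172802695263)))))) (a (l 143058728941633631) (a (l 143055774004133983) (b (c (l 143068555829182559) (b (l 143023132247048287) (l 143029798037667935))) (c (l 143080444301131871) (a (l 143040312119672927) (l 143039350046982239)))))))) (a (l 143102984292597855) (c (b (a (l 143103327890636895)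 (b (l 143093294845755487) (l 143105045878751327))) (c (l 143133701905809631) (l 143115903558238303))) (a (l 143078176558235743) (a (l 143075015462256735) (b (b (l 143053093945065567) (l 143066288087318623)) (a (l 143086422898065503) (l 143085323381047391))))))))), by decide +kernel⟩

def k33_pm_213 : ∃ t, chk3 f_pm_213 t 31 97 1 = true :=
  ⟨(a (a (c (c (l 16679680) (l 16675952)) (l 16650024)) (b (c (c (l 16677536) (l 16672520)) (l 16644544)) (c (l 16680760) (l 16654656)))) (a (b (c (c (l 143390300471804127) (l 143332713539666143)) (c (a (l 16667696) (l 143267361307148383)) (l 143039899829747807))) (c (c (l 143426378206347487) (l 143390369193869535)) (c (l 143356353047003231) (l 143144353456160863)))) (c (a (c (b (l 143365149143417055) (l 143398752976355615)) (b (l 143306668857802975) (l 143360682379083999))) (a (b (c (l 143352092442771679) (l 143293131120689375)) (c (a (l 143386933226144031) (l 143382191582167327)) (l 143345426654724319))) (b (c (c (a (l 143360476221767967) (b (l 143348862628184351) (a (l 143364118355951903)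 (l 143361919332679967)))) (a (l 143330583243669791) (b (l 143316495748464927) (l 143335462328844575)))) (c (b (b (l 143280349296247007) (l 143292581365989599)) (b (l 143304607277269215) (l 143316358310625503))) (c (b (l 143262482229313759) (l 143290313623781599)) (b (l 143246539307794655) (l 143276913323376863))))) (c (c (b (b (l 143375457072496927) (l 143381985424671007)) (b (l 143388376337858847) (l 143394561092600095))) (a (l 143367279453651231) (b (l 143353535555879199) (l 143370852868571423)))) (b (a (l 143325154405843167) (c (l 143331133002203423) (l 143309211485044959))) (c (l 143355872019349791) (l 143338967024910559))))))) (b (c (a (c (l 143263444299153631) (l 143234856991801439)) (a (a (l 143237399614636255) (l 143232657970610399)) (b (b (a (l 143199603896041695) (c (l 143211629807337695) (l 143178644452606175))) (c (l 143231352301027551) (l 143201047006396639))) (b (c (l 143248532174012639) (l 143220906939465951)) (b (l 143248394735583455) (l 143257396989018335)))))) (b (a (l 143167030855729247) (a (l 143153218240528479)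 (b (a (l 143133908064796767) (c (l 143145727817498719) (l 143112948621459551))) (c (l 143170947870343391) (l 143141054892867679))))) (a (l 143217402242678879) (a (l 143202215237681247) (a (l 143194518655942751) (b (b (l 143171497627254879) (l 143183386099220575)) (l 143201047008460895))))))) (c (a (l 143324742086344927) (a (l 143308455569588447) (b (c (a (l 143292993684865247) (l 143287702284927199)) (l 143269354181050591)) (b (l 143306050389262559) (l 143323230262264031))))) (b (a (l 143266605398327391) (a (l 143250044003532895) (c (l 143248875773477087) (l 143228809682927711)))) (a (l 143314640322658399) (c (l 143297804050464991) (l 143283510397010015))))))))), by decide +kernel⟩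

def k34_pm_213 : ∃ t, chk3 f_pm_213 t 30 49 1 = true :=
  ⟨(a (b (b (l 16687768) (l 16696832)) (c (l 16702352) (l 16718800))) (c (a (l 16674912) (b (l 16689672) (l 16700976))) (b (l 16693576) (l 16714616)))), by decide +kernel⟩

def k35_pm_213 : ∃ t, chk3 f_pm_213 t 31 49 1 = true :=
  ⟨(a (b (b (a (l 16665344) (c (l 16686288) (l 16664448))) (a (l 16673104) (c (l 16691560) (l 16673848)))) (b (a (l 16680552) (a (l 16679328) (l 16681064))) (c (l 143455309146554591) (l 16703672)))) (c (c (a (c (b (l 143476131120906527) (l 16695664)) (b (l 143472763865792735) (l 16697008))) (a (b (b (l 143429126993445151) (l 143456408633655583)) (b (l 143480597896986911) (l 143501763502948639))) (b (b (b (a (l 143406793161064735) (c (b (l 143400539688894751) (l 143406312126710047)) (l 143389956887626015))) (a (l 143420605779869983) (c (a (l 143417238526214431) (l 143412084565311775)) (l 143405693652140319)))) (a (l 143439915958616351) (c (b (l 143425141269381407) (l 143434899438403871)) (b (l 143420674502295839) (l 143434830718615839)))))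 (b (a (l 143463074429632799) (b (c (l 143443901693083999) (l 143448231020593439)) (l 143456408641569055))) (c (a (l 143475443941146975) (l 143463486751637855)) (l 143484995950625119)))))) (a (b (b (l 143443970398306527) (l 16691040)) (b (l 16696648) (l 16702008))) (a (b (b (l 143410985048047839) (l 143457645584187679)) (b (l 143500732707029279) (l 143540315136033055))) (b (b (a (l 143394080055951583) (b (b (l 143365217870905631) (l 143376900184785183)) (b (l 143388307620725023) (l 143399508898218271)))) (a (l 143439091324371231) (b (l 143415932857254175) (l 143437029741953311)))) (b (b (l 143463899063042335) (l 143483552838533407)) (a (l 143518668499190047) (l 143504099968991519))))))) (c (b (b (a (l 143432150646472927) (a (l 143396072919007455) (a (l 143377587378569439) (b (a (l 143351542692528351) (l 143345495378198751)) (l 143381366952640735))))) (a (l 143503756357189855) (a (l 143463280582394079) (b (l 143419987306315999) (l 143451117236420831))))) (b (a (l 16699528) (a (l 143526433796014303) (c (l 143489943750115615)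 (l 143502381977665759)))) (a (l 16706688) (a (l 143585601279361311) (l 143552341049426207))))) (b (a (c (l 143290519813849183) (l 143292993715896415)) (a (b (l 143384459325833311) (l 143473382347751647)) (b (a (l 143364393237037279) (b (l 143328933981290719) (l 143372295980368095))) (b (l 143421911452336351) (l 143463418025263327))))) (a (l 143471320753242335) (a (b (l 143557701163974879) (l 143637553213456607)) (b (c (l 143516194595078367) (l 143531312882893023)) (b (l 143581065795223775) (l 143618036881932511))))))))), by decide +kernel⟩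

def k36_pm_213 : ∃ t, chk3 f_pm_213 t 30 25 1 = true :=
  ⟨(b (a (c (a (l 16720328) (l 16713832)) (b (l 16740896) (l 16782848))) (c (b (l 16691048) (l 16700752)) (b (l 16734480) (a (l 16755224) (l 16750520))))) (a (b (c (l 16714064) (a (l 16784288) (l 16778752))) (c (b (l 16720968) (a (l 16747384) (l 16744632))) (c (l 16784864) (a (l 16818808) (l 16810904))))) (c (b (c (l 16721688) (l 16739832)) (b (l 16720896) (b (l 16718536) (l 16719896)))) (b (b (l 16765904) (l 16784672)) (a (b (l 16785528) (l 16792880)) (b (l 16778704) (l 16785504))))))), by decide +kernel⟩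

def k37_pm_213 : ∃ t, chk3 f_pm_213 t 31 50 1 = true :=
  ⟨(b (a (c (a (l 16709824) (a (l 16708576) (l 16707696))) (b (l 16712344) (l 16720680))) (b (a (b (c (l 16703176) (l 143535779680698591)) (c (l 16705256) (l 143569795829465311))) (c (a (c (l 143520111609987423) (l 16705304)) (c (b (l 143490012476064095) (l 143497846499590495)) (l 143545606543065375))) (a (c (l 143640920471388447) (l 143712938496229599)) (c (a (l 143613844994769183) (l 143595703051043103)) (c (l 143654183335559455) (a (l 143700156673229087) (l 143678647474389279))))))) (a (c (a (l 16708792) (l 16707744)) (a (l 16725664) (l 143598314464297183))) (c (a (c (l 16703632) (l 16709912)) (c (l 143508291864658271) (l 143576599036166495))) (a (c (l 16722352) (l 143783994451247391)) (c (a (l 143663254310830367) (l 143643737998786847)) (b (a (l 143733554347311391) (l 143711426673082655)) (c (l 143731836362375455) (l 143779115370873119))))))))) (a (c (a (l 16718656) (b (l 16714416) (l 16718344))) (a (l 16724632) (a (l 16720800) (l 16726048)))) (a (b (c (a (l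 16712712) (l 16711536)) (c (l 16726400) (l 16737216))) (c (a (l 16716440) (l 143643875417506143)) (a (l 16739920) (a (l 16737776) (l 16757304))))) (c (c (a (b (l 16706576) (l 143558457096044895)) (b (a (l 143527052288115039) (l 143512208880075103)) (a (l 143536398142521695) (l 143521898331963743)))) (b (a (l 16714296) (a (l 16713096) (l 143595153302585695))) (a (l 16718432) (b (l 143623122136711519) (l 143635422927192415))))) (b (c (a (l 16723016) (c (l 143673493518991711) (a (l 16723488) (l 143712320030802207)))) (c (a (l 16730216) (b (l 143761110866428191) (l 143789148419686687))) (a (l 16735328) (a (l 143842337302724895) (b (l 143800624573219103) (a (l 16733504) (l 143826600542044447))))))) (c (a (l 16728624) (a (l 143751077846483295) (b (l 143718985824059743) (l 143739189355692383)))) (b (a (l 16738152) (c (l 143816704947290399) (a (l 16738416) (a (l 16737104) (l 143857936630759711))))) (a (l 16741656) (a (l 16739104) (c (l 16734672) (b (l 16739336) (l 16741120)))))))))))), by decide +kernel⟩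

def k38_pm_213 : ∃ t, chk3 f_pm_213 t 31 102 1 = true :=
  ⟨(a (a (b (a (l 16741296) (l 16744448)) (c (l 16728528) (l 16743648))) (c (b (l 16722080) (a (l 16726360) (l 16724840))) (b (l 16740736) (a (l 16759688) (l 16735360))))) (b (a (c (c (l 16713568) (l 16725216)) (a (l 16725568) (b (l 16741856) (l 16765976)))) (a (c (c (l 143567528072642911) (l 16722528)) (b (c (l 16732728) (l 16745128)) (c (l 16735448) (l 16748568)))) (c (b (c (l 143536054548939103) (l 143647586278719839)) (c (l 143541277232234847) (l 143660161968734559))) (c (b (a (l 16730784) (l 16729536)) (c (l 16730024) (l 16735832))) (c (a (l 16741104) (b (l 16737888) (l 16741128))) (c (a (l 16745816) (b (l 16742296) (l 16745784))) (a (l 16749048) (a (l 16747624) (b (l 16744856) (l 16748512)))))))))) (a (c (a (l 16723368) (c (l 16715816) (l 16728400))) (c (a (l 16745088) (l 16742280)) (a (l 16761248) (l 16757448)))) (c (a (c (l 143576873927410015) (l 16726680)) (c (a (l 143556532961231199) (b (l 143540383881904479) (l 143546637357646175))) (a (l 16725472)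 (b (l 16723616) (l 16725816))))) (a (b (c (l 16738208) (l 16752040)) (c (l 16741000) (l 16755512))) (c (b (c (l 16732640) (l 16738760)) (c (l 16735272) (l 16741712))) (c (a (l 16747632) (b (l 16744368) (l 16747632))) (a (a (l 16755112) (l 16764648)) (c (b (l 16749280) (l 16752776)) (a (l 16754968) (b (l 16752168) (l 16755816)))))))))))), by decide +kernel⟩

def k39_pm_213 : ∃ t, chk3 f_pm_213 t 31 206 1 = true :=
  ⟨(a (c (a (a (l 16732904) (l 16731320)) (a (l 16729784) (l 16728296))) (a (l 16771624) (a (l 16766352) (l 16747112)))) (a (c (c (a (l 16719616) (l 16718832)) (a (l 16734448) (l 16732688))) (a (c (l 16750704) (l 16768384)) (c (l 16747912) (l 16764512)))) (a (c (c (a (l 16718328) (l 16718040)) (a (l 16731448) (l 16730664))) (b (c (l 16743824) (l 16769480)) (c (l 16746664) (l 16772968)))) (c (c (b (a (l 16716936) (l 143553234430902623)) (c (l 143531725232669023) (l 16721472))) (c (a (l 16726768) (l 16726176)) (a (l 16733144) (l 16732304)))) (c (b (c (l 16737944) (l 16744672)) (c (l 16740632) (l 16747656))) (c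 (a (l 16754200) (b (l 16750896) (l 16754168))) (c (a (l 16759904) (b (l 16756280) (l 16759776))) (a (l 16763808) (a (l 16762288) (b (l 16759464) (l 16763104))))))))))), by decide +kernel⟩

def k40_pm_213 : ∃ t, chk3 f_pm_213 t 31 207 1 = true :=
  ⟨(a (c (a (c (l 16725808) (l 16745376)) (c (l 16723768) (a (l 16742264) (l 16740360)))) (a (a (l 16779848) (l 16765624)) (c (a (l 16761952) (l 16758944)) (l 16765448)))) (a (c (c (a (l 16722584) (a (l 16722104) (l 16721832))) (a (l 16738568) (b (l 16736016) (l 16737808)))) (b (a (l 16764200) (a (l 16761664) (l 16760008))) (a (l 16748832) (c (l 16754360) (l 16772360))))) (c (c (a (b (l 16720728) (a (l 16722360) (l 16722176))) (b (c (a (l 16717400) (l 16717368)) (l 16723384)) (b (c (l 16718624) (l 16724792)) (a (l 16722328) (l 16722232))))) (b (a (l 16734448) (a (l 16733352) (l 16732664))) (a (l 16736296) (a (l 16735248) (b (l 16734320) (l 16734864)))))) (c (b (a (l 16749528) (c (l 16743352) (l 16750656))) (a (a (l 16752360) (l 16751072)) (b (a (l 16749584) (a (l 16748640) (l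 16748024))) (l 16749408)))) (a (b (l 16776456) (b (a (l 16769312) (l 16767400)) (l 16768672))) (b (a (c (l 16759136) (l 16767248)) (c (l 16757440) (b (l 16764352) (l 16766136)))) (b (a (c (l 16761408) (l 16769704)) (b (a (l 16763904) (l 16773464)) (l 16763864))) (a (l 16765864) (l 16764032))))))))), by decide +kernel⟩

def k41_pm_213 : ∃ t, chk3 f_pm_213 t 7 52 1 = true :=
  ⟨(a (a (a (l 16714848) (c (l 16755064) (l 16801600))) (a (c (a (l 16753176) (l 16752464)) (a (l 16805480) (l 16766680))) (c (a (a (l 16752136) (l 16752008)) (b (l 16751128) (l 16730032))) (a (b (l 16814272) (l 16809760)) (b (c (l 16797368) (l 16831360)) (a (l 16811936) (l 16810056))))))) (b (a (a (c (l 16736608) (a (l 16807488) (l 16800392))) (c (b (a (l 16742616) (l 16739472)) (l 16720320)) (a (l 16793040) (l 16785808)))) (a (c (a (c (l 16727680) (l 16746880)) (c (l 16726120) (l 16743272))) (a (l 16778880) (a (l 16752616) (l 16754608)))) (b (a (c (c (l 16724344) (l 16739640)) (a (l 16766920) (a (l 16764536) (l 16762976)))) (a (c (c (l 16723896)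 (l 16737600)) (c (l 16752656) (l 16769080))) (c (c (c (l 602169316016344746812767) (l 16726808)) (a (l 16736680) (l 16736104))) (a (c (l 16750880) (l 16766392)) (c (l 16749728) (b (l 16774864) (l 16764888))))))) (a (a (c (l 16733920) (l 16767512)) (c (l 16733248) (l 16764592))) (c (a (c (l 16726248) (l 16739464)) (c (l 602598779315499874035039) (l 16738480))) (a (a (l 16762464) (l 16761080)) (c (l 16751880) (a (l 16767368) (l 16765728))))))))) (a (c (a (a (l 16748360) (l 16745720)) (a (l 16743192) (l 16740792))) (a (a (l 16804752) (l 16797944)) (a (l 16791232) (l 16784624)))) (a (c (a (c (l 16730112) (l 16748248)) (a (l 16737888) (l 16737312))) (a (l 16757560) (c (l 16763448) (l 16782576)))) (a (c (c (a (l 16729752) (l 16729920)) (l 16743864)) (a (l 16779264) (b (l 16765616) (l 16766824)))) (a (c (c (l 16730200) (l 16742656)) (b (l 16773520) (l 16764456))) (c (b (c (l 16729136) (l 16740776)) (c (l 16732104) (l 16743240))) (c (b (l 16753640) (l 16755568)) (b (l 16767744) (l 16769088)))))))))), by decide +kernel⟩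

def k42_pm_213 : ∃ t, chk3 f_pm_213 t 7 53 1 = true :=
  ⟨(a (a (a (c (l 16761888) (l 16794048)) (c (l 16756232) (l 16795416))) (a (b (c (l 16752760) (l 16801008)) (c (l 16731160) (l 16796400))) (c (a (a (l 16729968) (l 16729608)) (b (l 16729376) (l 16728952))) (a (b (l 16804696) (l 16799856)) (a (b (l 16807016) (l 16801912)) (b (l 16806512) (l 16802872))))))) (a (a (c (b (a (l 16748328) (l 16746120)) (l 16727184)) (c (b (l 16785272) (l 16784024)) (c (l 16805176) (l 16819272)))) (c (a (c (l 16735568) (l 16755824)) (b (l 16743048) (l 16746248))) (b (b (l 16787216) (l 16787072)) (l 16789848)))) (a (c (b (a (l 16742120) (a (l 16741680) (l 16741528))) (a (l 16746120) (l 16746368))) (a (b (l 16779248) (l 16780672)) (b (l 16753480) (l 16776720)))) (c (c (b (a (l 16735184) (b (l 603755880694648711549983) (l 16738120))) (a (l 16741336) (a (l 16742672) (l 16743680)))) (b (a (l 16748136) (a (l 16747520) (l 16747248))) (a (l 16753152) (l 16752992)))) (a (b (a (l 16771064) (l 16789904)) (a (l 16773952) (l 16772248))) (b (c (a (l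 16760128) (l 16758736)) (a (l 16773928) (l 16771368))) (c (l 16763880) (a (l 16776968) (l 16774744))))))))), by decide +kernel⟩

def k43_pm_213 : ∃ t, chk3 f_pm_213 t 7 27 1 = true :=
  ⟨(a (b (a (l 14) (a (b (c (l 16730912) (l 16792144)) (l 14)) (c (b (b (l 16729360) (l 16729792)) (l 16730984)) (b (c (l 16763912) (l 16810256)) (l 16794200))))) (l 14)) (a (a (b (c (b (l 16729192) (c (l 16743496) (l 16762912))) (a (b (l 16798104) (l 16797112)) (l 16793944))) (l 14)) (b (c (b (b (l 16749112) (l 16751104)) (c (l 16746752) (l 16762744))) (b (l 16788024) (l 16768560))) (b (c (l 16780112) (l 16770216)) (l 14)))) (c (b (a (b (a (l 16750824) (l 16751784)) (a (l 16756040) (l 16757152))) (a (b (a (l 16752576) (l 16753096)) (l 16758432)) (c (b (l 16749744) (l 16755656)) (a (l 16761072) (l 16761112))))) (a (c (a (l 16757880) (l 16759856)) (l 16769600)) (a (b (l 16763400) (l 16767816)) (c (b (l 16760976) (l 16765704)) (c (l 16768344) (l 16771864)))))) (b (a (b (b (l 16759600) (l 16760848)) (c (l 16776576) (l 16791392))) (b (a (l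 16786992) (a (l 16774304) (l 16772808))) (a (l 16779792) (l 16798000)))) (b (a (l 16765464) (c (l 16776736) (l 16807368))) (a (l 16788616) (a (l 16785192) (l 16782864)))))))), by decide +kernel⟩

def k44_pm_213 : ∃ t, chk3 f_pm_213 t 3 7 1 = true :=
  ⟨(b (a (l 14) (l 14)) (l 14)), by decide +kernel⟩

theorem s45_pm_213 : ∃ t, chk3 f_pm_213 t 7 26 1 = true := ex3_b k41_pm_213 k42_pm_213

theorem s46_pm_213 : ∃ t, chk3 f_pm_213 t 7 13 1 = true := ex3_b s45_pm_213 k43_pm_213

theorem s47_pm_213 : ∃ t, chk3 f_pm_213 t 31 103 1 = true := ex3_b k39_pm_213 k40_pm_213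

theorem s48_pm_213 : ∃ t, chk3 f_pm_213 t 31 51 1 = true := ex3_b k38_pm_213 s47_pm_213

theorem s49_pm_213 : ∃ t, chk3 f_pm_213 t 31 25 1 = true := ex3_b k37_pm_213 s48_pm_213

theorem s50_pm_213 : ∃ t, chk3 f_pm_213 t 15 25 1 = true := ex3_a k36_pm_213 s49_pm_213

theorem s51_pm_213 : ∃ t, chk3 f_pm_213 t 15 49 1 = true := ex3_a k34_pm_213 k35_pm_213

theorem s52_pm_213 : ∃ t, chk3 f_pm_213 t 255 96 3 = true := ex3_b k31_pm_213 k32_pm_213

theorem s53_pm_213 : ∃ t, chk3 f_pm_213 t 255 96 1 = true := ex3_c k30_pm_213 s52_pm_213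

theorem s54_pm_213 : ∃ t, chk3 f_pm_213 t 127 96 1 = true := ex3_a k29_pm_213 s53_pm_213

theorem s55_pm_213 : ∃ t, chk3 f_pm_213 t 63 96 1 = true := ex3_a k28_pm_213 s54_pm_213

theorem s56_pm_213 : ∃ t, chk3 f_pm_213 t 31 96 1 = true := ex3_a k27_pm_213 s55_pm_213

theorem s57_pm_213 : ∃ t, chk3 f_pm_213 t 31 48 1 = true := ex3_b s56_pm_213 k33_pm_213

theorem s58_pm_213 : ∃ t, chk3 f_pm_213 t 15 48 1 = true := ex3_a k26_pm_213 s57_pm_213

theorem s59_pm_213 : ∃ t, chk3 f_pm_213 t 15 24 1 = true := ex3_b s58_pm_213 s51_pm_213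

theorem s60_pm_213 : ∃ t, chk3 f_pm_213 t 15 12 1 = true := ex3_b s59_pm_213 s50_pm_213

theorem s61_pm_213 : ∃ t, chk3 f_pm_213 t 7 12 1 = true := ex3_a k25_pm_213 s60_pm_213

theorem s62_pm_213 : ∃ t, chk3 f_pm_213 t 7 6 1 = true := ex3_b s61_pm_213 s46_pm_213

theorem s63_pm_213 : ∃ t, chk3 f_pm_213 t 3 6 1 = true := ex3_a k24_pm_213 s62_pm_213

theorem s64_pm_213 : ∃ t, chk3 f_pm_213 t 3 3 1 = true := ex3_b s63_pm_213 k44_pm_213

theorem s65_pm_213 : ∃ t, chk3 f_pm_213 t 127 95 3 = true := ex3_b k22_pm_213 k23_pm_213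

theorem s66_pm_213 : ∃ t, chk3 f_pm_213 t 63 95 3 = true := ex3_a k21_pm_213 s65_pm_213

theorem s67_pm_213 : ∃ t, chk3 f_pm_213 t 63 47 3 = true := ex3_b k20_pm_213 s66_pm_213

theorem s68_pm_213 : ∃ t, chk3 f_pm_213 t 63 47 1 = true := ex3_c k19_pm_213 s67_pm_213

theorem s69_pm_213 : ∃ t, chk3 f_pm_213 t 31 47 1 = true := ex3_a k18_pm_213 s68_pm_213

theorem s70_pm_213 : ∃ t, chk3 f_pm_213 t 31 46 1 = true := ex3_b k16_pm_213 k17_pm_213

theorem s71_pm_213 : ∃ t, chk3 f_pm_213 t 31 23 1 = true := ex3_b s70_pm_213 s69_pm_213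

theorem s72_pm_213 : ∃ t, chk3 f_pm_213 t 15 23 1 = true := ex3_a k15_pm_213 s71_pm_213

theorem s73_pm_213 : ∃ t, chk3 f_pm_213 t 7 23 1 = true := ex3_a k14_pm_213 s72_pm_213

theorem s74_pm_213 : ∃ t, chk3 f_pm_213 t 7 22 1 = true := ex3_b k12_pm_213 k13_pm_213

theorem s75_pm_213 : ∃ t, chk3 f_pm_213 t 7 11 1 = true := ex3_b s74_pm_213 s73_pm_213

theorem s76_pm_213 : ∃ t, chk3 f_pm_213 t 3 11 1 = true := ex3_a k11_pm_213 s75_pm_213

theorem s77_pm_213 : ∃ t, chk3 f_pm_213 t 31 43 1 = true := ex3_b k9_pm_213 k10_pm_213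

theorem s78_pm_213 : ∃ t, chk3 f_pm_213 t 31 21 1 = true := ex3_b k8_pm_213 s77_pm_213

theorem s79_pm_213 : ∃ t, chk3 f_pm_213 t 15 21 1 = true := ex3_a k7_pm_213 s78_pm_213

theorem s80_pm_213 : ∃ t, chk3 f_pm_213 t 15 10 1 = true := ex3_b k6_pm_213 s79_pm_213

theorem s81_pm_213 : ∃ t, chk3 f_pm_213 t 7 10 1 = true := ex3_a k5_pm_213 s80_pm_213

theorem s82_pm_213 : ∃ t, chk3 f_pm_213 t 3 10 1 = true := ex3_a k4_pm_213 s81_pm_213

theorem s83_pm_213 : ∃ t, chk3 f_pm_213 t 3 5 1 = true := ex3_b s82_pm_213 s76_pm_213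

theorem s84_pm_213 : ∃ t, chk3 f_pm_213 t 7 4 1 = true := ex3_b k2_pm_213 k3_pm_213

theorem s85_pm_213 : ∃ t, chk3 f_pm_213 t 3 4 1 = true := ex3_a k1_pm_213 s84_pm_213

theorem s86_pm_213 : ∃ t, chk3 f_pm_213 t 3 2 1 = true := ex3_b s85_pm_213 s83_pm_213

theorem s87_pm_213 : ∃ t, chk3 f_pm_213 t 3 1 1 = true := ex3_b s86_pm_213 s64_pm_213

theorem s88_pm_213 : ∃ t, chk3 f_pm_213 t 1 1 1 = true := ex3_a k0_pm_213 s87_pm_213

theorem c_pm_213 : CertB 0 536870912 536870912 536870912 740881858 40050571 3 eng mog cd0q2 cd0q1 pd3 true true false .pnn 2 1 3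
    ndB0q2 ndB0q1 pcB3 cut_pm_213 xt_pm_213 :=
  certB1 (fam := true) (s1 := true) (s2 := false) (a := 2) (b := 1) (c := 3) (cn := .pnn) (n1 := ndB0q2) (n2 := ndB0q1) (pc := pcB3) (cut := cut_pm_213) (xt := xt_pm_213) (P1 := 0) (W1 := 536870912) (P2 := 536870912) (W2 := 536870912) (P3 := 740881858) (W3 := 40050571) (N0 := 3) (En := eng) (mo := mog) (C1 := cd0q2) (C2 := cd0q1) (C3 := pd3)
    rfl (fun _ => rfl) s88_pm_213

noncomputable def cut_mm_001 : Cut := Cut.of [[⟨3, 0, 0, 1449551462⟩], [⟨4, 0, 0, 2845415833⟩]]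

noncomputable def f_mm_001 : ℕ → ℕ → ℕ → ℕ → Bool := onCell 0 536870912 0 536870912 740881858 40050571
    (rowB 3 eng mog cd0q0 cd0q0 pd1 0 true false false .up 0 0 1 (qsf 0 536870912 0 536870912 1) ndB0q0 ndB0q0 pcB1 cut_mm_001 Ext.none)

def k0_mm_001 : ∃ t, chk3 f_mm_001 t 1 1 1 = true :=
  ⟨(l 4), by decide +kernel⟩

theorem c_mm_001 : CertB 0 536870912 0 536870912 740881858 40050571 3 eng mog cd0q0 cd0q0 pd1 true false false .up 0 0 1
    ndB0q0 ndB0q0 pcB1 cut_mm_001 Ext.none :=
  certB0 (fam := true) (s1 := false) (s2 := false) (a := 0) (b := 0) (c := 1) (cn := .up) (n1 := ndB0q0) (n2 := ndB0q0) (pc := pcB1) (cut := cut_mm_001) (xt := Ext.none) (P1 := 0) (W1 := 536870912) (P2 := 0) (W2 := 536870912) (P3 := 740881858) (W3 := 40050571) (N0 := 3) (En := eng) (mo := mog) (C1 := cd0q0) (C2 := cd0q0) (C3 := pd1)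
    rfl k0_mm_001

noncomputable def cut_mm_011 : Cut := Cut.of [[⟨3, 0, 0, 1449551462⟩], [⟨4, 0, 0, 2845415833⟩]]

noncomputable def f_mm_011 : ℕ → ℕ → ℕ → ℕ → Bool := onCell 0 536870912 536870912 536870912 740881858 40050571
    (rowB 3 eng mog cd0q0 cd0q1 pd1 0 true false false .pnn 0 1 1 (qsf 0 536870912 536870912 536870912 1) ndB0q0 ndB0q1 pcB1 cut_mm_011 Ext.none)

def k0_mm_011 : ∃ t, chk3 f_mm_011 t 1 1 1 = true :=
  ⟨(l 14), by decide +kernel⟩

theorem c_mm_011 : CertB 0 536870912 536870912 536870912 740881858 40050571 3 eng mog cd0q0 cd0q1 pd1 true false false .pnn 0 1 1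
    ndB0q0 ndB0q1 pcB1 cut_mm_011 Ext.none :=
  certB0 (fam := true) (s1 := false) (s2 := false) (a := 0) (b := 1) (c := 1) (cn := .pnn) (n1 := ndB0q0) (n2 := ndB0q1) (pc := pcB1) (cut := cut_mm_011) (xt := Ext.none) (P1 := 0) (W1 := 536870912) (P2 := 536870912) (W2 := 536870912) (P3 := 740881858) (W3 := 40050571) (N0 := 3) (En := eng) (mo := mog) (C1 := cd0q0) (C2 := cd0q1) (C3 := pd1)
    rfl k0_mm_011

noncomputable def cut_mm_012 : Cut := Cut.of [[⟨3, 0, 0, 1449551462⟩], [⟨4, 0, 0, 2845415833⟩]]

noncomputable def f_mm_012 : ℕ → ℕ → ℕ → ℕ → Bool := onCell 0 536870912 536870912 536870912 740881858 40050571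
    (rowB 3 eng mog cd0q0 cd0q1 pd2 0 true false false .pnp 0 1 2 (qsf 0 536870912 536870912 536870912 2) ndB0q0 ndB0q1 pcB2 cut_mm_012 Ext.none)

def k0_mm_012 : ∃ t, chk3 f_mm_012 t 1 1 1 = true :=
  ⟨(l 14), by decide +kernel⟩

theorem c_mm_012 : CertB 0 536870912 536870912 536870912 740881858 40050571 3 eng mog cd0q0 cd0q1 pd2 true false false .pnp 0 1 2
    ndB0q0 ndB0q1 pcB2 cut_mm_012 Ext.none :=
  certB0 (fam := true) (s1 := false) (s2 := false) (a := 0) (b := 1) (c := 2) (cn := .pnp) (n1 := ndB0q0) (n2 := ndB0q1) (pc := pcB2) (cut := cut_mm_012) (xt := Ext.none) (P1 := 0) (W1 := 536870912) (P2 := 536870912) (W2 := 536870912) (P3 := 740881858) (W3 := 40050571) (N0 := 3) (En := eng) (mo := mog) (C1 := cd0q0) (C2 := cd0q1) (C3 := pd2)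
    rfl k0_mm_012

noncomputable def cut_mm_022 : Cut := Cut.of [[⟨3, 0, 0, 1449551462⟩], [⟨4, 0, 0, 2845415833⟩]]

noncomputable def f_mm_022 : ℕ → ℕ → ℕ → ℕ → Bool := onCell 0 536870912 0 536870912 740881858 40050571
    (rowB 3 eng mog cd0q0 cd0q2 pd2 0 true false false .pp 0 2 2 (qsf 0 536870912 0 536870912 2) ndB0q0 ndB0q2 pcB2 cut_mm_022 Ext.none)

def k0_mm_022 : ∃ t, chk3 f_mm_022 t 1 1 1 = true :=
  ⟨(l 5), by decide +kernel⟩

theorem c_mm_022 : CertB 0 536870912 0 536870912 740881858 40050571 3 eng mog cd0q0 cd0q2 pd2 true false false .pp 0 2 2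
    ndB0q0 ndB0q2 pcB2 cut_mm_022 Ext.none :=
  certB0 (fam := true) (s1 := false) (s2 := false) (a := 0) (b := 2) (c := 2) (cn := .pp) (n1 := ndB0q0) (n2 := ndB0q2) (pc := pcB2) (cut := cut_mm_022) (xt := Ext.none) (P1 := 0) (W1 := 536870912) (P2 := 0) (W2 := 536870912) (P3 := 740881858) (W3 := 40050571) (N0 := 3) (En := eng) (mo := mog) (C1 := cd0q0) (C2 := cd0q2) (C3 := pd2)
    rfl k0_mm_022

noncomputable def cut_mm_023 : Cut := Cut.of [[⟨3, 0, 0, 1449551462⟩], [⟨4, 0, 0, 2845415833⟩]]

noncomputable def f_mm_023 : ℕ → ℕ → ℕ → ℕ → Bool := onCell 0 536870912 0 536870912 740881858 40050571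
    (rowB 3 eng mog cd0q0 cd0q2 pd3 0 true false false .up 0 2 3 (qsf 0 536870912 0 536870912 3) ndB0q0 ndB0q2 pcB3 cut_mm_023 Ext.none)

def k0_mm_023 : ∃ t, chk3 f_mm_023 t 1 1 1 = true :=
  ⟨(l 5), by decide +kernel⟩

theorem c_mm_023 : CertB 0 536870912 0 536870912 740881858 40050571 3 eng mog cd0q0 cd0q2 pd3 true false false .up 0 2 3
    ndB0q0 ndB0q2 pcB3 cut_mm_023 Ext.none :=
  certB0 (fam := true) (s1 := false) (s2 := false) (a := 0) (b := 2) (c := 3) (cn := .up) (n1 := ndB0q0) (n2 := ndB0q2) (pc := pcB3) (cut := cut_mm_023) (xt := Ext.none) (P1 := 0) (W1 := 536870912) (P2 := 0) (W2 := 536870912) (P3 := 740881858) (W3 := 40050571) (N0 := 3) (En := eng) (mo := mog) (C1 := cd0q0) (C2 := cd0q2) (C3 := pd3)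
    rfl k0_mm_023

noncomputable def cut_mm_101 : Cut := Cut.of [[⟨3, 0, 0, 1449551462⟩], [⟨4, 0, 0, 2845415833⟩], [⟨0, 1, 0, 67108864⟩, ⟨1, 0, 0, 67108864⟩, ⟨2, 1, 0, 67108864⟩]]

noncomputable def f_mm_101 : ℕ → ℕ → ℕ → ℕ → Bool := onCell 536870912 536870912 0 536870912 740881858 40050571
    (rowB 3 eng mog cd0q1 cd0q0 pd1 0 true false false .npn 1 0 1 (qsf 536870912 536870912 0 536870912 1) ndB0q1 ndB0q0 pcB1 cut_mm_101 Ext.none)

def k0_mm_101 : ∃ t, chk3 f_mm_101 t 1 1 1 = true :=
  ⟨(l 14), by decide +kernel⟩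

theorem c_mm_101 : CertB 536870912 536870912 0 536870912 740881858 40050571 3 eng mog cd0q1 cd0q0 pd1 true false false .npn 1 0 1
    ndB0q1 ndB0q0 pcB1 cut_mm_101 Ext.none :=
  certB0 (fam := true) (s1 := false) (s2 := false) (a := 1) (b := 0) (c := 1) (cn := .npn) (n1 := ndB0q1) (n2 := ndB0q0) (pc := pcB1) (cut := cut_mm_101) (xt := Ext.none) (P1 := 536870912) (W1 := 536870912) (P2 := 0) (W2 := 536870912) (P3 := 740881858) (W3 := 40050571) (N0 := 3) (En := eng) (mo := mog) (C1 := cd0q1) (C2 := cd0q0) (C3 := pd1)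
    rfl k0_mm_101

noncomputable def cut_mm_102 : Cut := Cut.of [[⟨3, 0, 0, 1449551462⟩], [⟨4, 0, 0, 2845415833⟩], [⟨0, 1, 0, 67108864⟩, ⟨1, 0, 0, 67108864⟩, ⟨2, 1, 0, 67108864⟩]]

noncomputable def f_mm_102 : ℕ → ℕ → ℕ → ℕ → Bool := onCell 536870912 536870912 0 536870912 740881858 40050571
    (rowB 3 eng mog cd0q1 cd0q0 pd2 0 true false false .npp 1 0 2 (qsf 536870912 536870912 0 536870912 2) ndB0q1 ndB0q0 pcB2 cut_mm_102 Ext.none)

def k0_mm_102 : ∃ t, chk3 f_mm_102 t 1 1 1 = true :=
  ⟨(l 14), by decide +kernel⟩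

theorem c_mm_102 : CertB 536870912 536870912 0 536870912 740881858 40050571 3 eng mog cd0q1 cd0q0 pd2 true false false .npp 1 0 2
    ndB0q1 ndB0q0 pcB2 cut_mm_102 Ext.none :=
  certB0 (fam := true) (s1 := false) (s2 := false) (a := 1) (b := 0) (c := 2) (cn := .npp) (n1 := ndB0q1) (n2 := ndB0q0) (pc := pcB2) (cut := cut_mm_102) (xt := Ext.none) (P1 := 536870912) (W1 := 536870912) (P2 := 0) (W2 := 536870912) (P3 := 740881858) (W3 := 40050571) (N0 := 3) (En := eng) (mo := mog) (C1 := cd0q1) (C2 := cd0q0) (C3 := pd2)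
    rfl k0_mm_102

noncomputable def cut_mm_112 : Cut := Cut.of [[⟨3, 0, 0, 1449551462⟩], [⟨4, 0, 0, 2845415833⟩]]

noncomputable def f_mm_112 : ℕ → ℕ → ℕ → ℕ → Bool := onCell 536870912 536870912 536870912 536870912 740881858 40050571
    (rowB 3 eng mog cd0q1 cd0q1 pd2 0 true false false .dn 1 1 2 (qsf 536870912 536870912 536870912 536870912 2) ndB0q1 ndB0q1 pcB2 cut_mm_112 Ext.none)

def k0_mm_112 : ∃ t, chk3 f_mm_112 t 1 1 1 = true :=
  ⟨(l 4), by decide +kernel⟩

theorem c_mm_112 : CertB 536870912 536870912 536870912 536870912 740881858 40050571 3 eng mog cd0q1 cd0q1 pd2 true false false .dn 1 1 2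
    ndB0q1 ndB0q1 pcB2 cut_mm_112 Ext.none :=
  certB0 (fam := true) (s1 := false) (s2 := false) (a := 1) (b := 1) (c := 2) (cn := .dn) (n1 := ndB0q1) (n2 := ndB0q1) (pc := pcB2) (cut := cut_mm_112) (xt := Ext.none) (P1 := 536870912) (W1 := 536870912) (P2 := 536870912) (W2 := 536870912) (P3 := 740881858) (W3 := 40050571) (N0 := 3) (En := eng) (mo := mog) (C1 := cd0q1) (C2 := cd0q1) (C3 := pd2)
    rfl k0_mm_112

noncomputable def cut_mm_113 : Cut := Cut.of [[⟨3, 0, 0, 1449551462⟩], [⟨4, 0, 0, 2845415833⟩]]

noncomputable def f_mm_113 : ℕ → ℕ → ℕ → ℕ → Bool := onCell 536870912 536870912 536870912 536870912 740881858 40050571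
    (rowB 3 eng mog cd0q1 cd0q1 pd3 0 true false false .nn 1 1 3 (qsf 536870912 536870912 536870912 536870912 3) ndB0q1 ndB0q1 pcB3 cut_mm_113 Ext.none)

def k0_mm_113 : ∃ t, chk3 f_mm_113 t 1 1 1 = true :=
  ⟨(l 4), by decide +kernel⟩

theorem c_mm_113 : CertB 536870912 536870912 536870912 536870912 740881858 40050571 3 eng mog cd0q1 cd0q1 pd3 true false false .nn 1 1 3
    ndB0q1 ndB0q1 pcB3 cut_mm_113 Ext.none :=
  certB0 (fam := true) (s1 := false) (s2 := false) (a := 1) (b := 1) (c := 3) (cn := .nn) (n1 := ndB0q1) (n2 := ndB0q1) (pc := pcB3) (cut := cut_mm_113) (xt := Ext.none) (P1 := 536870912) (W1 := 536870912) (P2 := 536870912) (W2 := 536870912) (P3 := 740881858) (W3 := 40050571) (N0 := 3) (En := eng) (mo := mog) (C1 := cd0q1) (C2 := cd0q1) (C3 := pd3)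
    rfl k0_mm_113

noncomputable def cut_mm_123 : Cut := Cut.of [[⟨3, 0, 0, 1449551462⟩], [⟨4, 0, 0, 2845415833⟩]]

noncomputable def f_mm_123 : ℕ → ℕ → ℕ → ℕ → Bool := onCell 536870912 536870912 0 536870912 740881858 40050571
    (rowB 3 eng mog cd0q1 cd0q2 pd3 0 true false false .npn 1 2 3 (qsf 536870912 536870912 0 536870912 3) ndB0q1 ndB0q2 pcB3 cut_mm_123 Ext.none)

def k0_mm_123 : ∃ t, chk3 f_mm_123 t 1 1 1 = true :=
  ⟨(a (l 5) (l 4)), by decide +kernel⟩

theorem c_mm_123 : CertB 536870912 536870912 0 536870912 740881858 40050571 3 eng mog cd0q1 cd0q2 pd3 true false false .npn 1 2 3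
    ndB0q1 ndB0q2 pcB3 cut_mm_123 Ext.none :=
  certB0 (fam := true) (s1 := false) (s2 := false) (a := 1) (b := 2) (c := 3) (cn := .npn) (n1 := ndB0q1) (n2 := ndB0q2) (pc := pcB3) (cut := cut_mm_123) (xt := Ext.none) (P1 := 536870912) (W1 := 536870912) (P2 := 0) (W2 := 536870912) (P3 := 740881858) (W3 := 40050571) (N0 := 3) (En := eng) (mo := mog) (C1 := cd0q1) (C2 := cd0q2) (C3 := pd3)
    rfl k0_mm_123

noncomputable def cut_mm_202 : Cut := Cut.of [[⟨3, 0, 0, 1449551462⟩], [⟨4, 0, 0, 2845415833⟩], [⟨0, 1, 0, 67108864⟩, ⟨1, 0, 0, 67108864⟩, ⟨2, 1, 0, 67108864⟩]]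

noncomputable def f_mm_202 : ℕ → ℕ → ℕ → ℕ → Bool := onCell 0 536870912 0 536870912 740881858 40050571
    (rowB 3 eng mog cd0q2 cd0q0 pd2 0 true false false .pp 2 0 2 (qsf 0 536870912 0 536870912 2) ndB0q2 ndB0q0 pcB2 cut_mm_202 Ext.none)

def k0_mm_202 : ∃ t, chk3 f_mm_202 t 4 1 1 = true :=
  ⟨(b (a (a (b (b (b (c (l 16354968) (l 16431120)) (c (l 16464656) (l 16440272))) (b (b (l 16458064) (l 16461384)) (b (l 16466160) (l 16473464)))) (b (b (l 16489232) (l 16516784)) (b (l 16542768) (l 16566600)))) (b (b (c (b (b (a (l 16341512) (l 16446128)) (l 16461856)) (l 16472736)) (b (b (l 16441248) (l 16444240)) (l 16449640))) (b (c (l 16476416) (l 16458024)) (l 16499216))) (b (b (l 16519760) (l 16527296)) (b (l 16554136) (l 16578736))))) (b (b (b (b (c (a (c (l 16444184) (l 16456584)) (l 16458776)) (c (l 16461928) (l 16467568))) (c (l 16448240) (l 16460224))) (c (a (l 16481040) (l 16491408)) (a (l 16460040) (l 16472408)))) (b (a (c (l 16485760) (l 16468968)) (c (l 16497552) (l 16419392))) (c (l 16502008) (a (l 16481968) (l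 16495856))))) (b (b (a (l 16552592) (b (l 16517912) (l 16532048))) (a (l 16540080) (l 16597176))) (b (b (l 16632248) (l 16645344)) (a (l 16593088) (l 16630888)))))) (b (a (a (b (b (l 16591624) (l 16615952)) (b (l 16635448) (l 16673248))) (b (b (l 16604536) (l 16650680)) (b (l 16692008) (l 14)))) (b (b (a (l 16661568) (b (l 16630160) (l 16644112))) (a (l 16645608) (l 14))) (l 14))) (l 2))), by decide +kernel⟩

def k1_mm_202 : ∃ t, chk3 f_mm_202 t 5 4 1 = true :=
  ⟨(b (a (a (b (b (b (l 16477992) (l 16439288)) (l 16491048)) (c (l 16504752) (l 16487680))) (c (b (b (l 16548056) (l 16542912)) (b (l 16507488) (l 16523000))) (b (b (b (l 16475848) (l 16487320)) (l 16559480)) (b (l 16502840) (l 16508712))))) (a (b (a (b (c (l 16498016) (l 16491480)) (c (l 16537896) (l 16510232))) (b (b (l 16409176) (l 16493936)) (c (b (l 16507016) (l 16510232)) (c (l 16521784) (l 16514576))))) (b (c (l 16518984) (l 16523856)) (c (l 16534936) (l 16530344)))) (b (b (c (a (l 16516424) (a (l 16523776) (l 16529184))) (a (b (l 16439472) (l 16513944))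 (b (b (l 16467072) (l 16514944)) (l 16486824)))) (c (a (b (l 16516672) (a (l 16515840) (l 16520288))) (c (b (l 16523656) (l 16524912)) (l 16531104))) (a (b (l 16524840) (l 16555512)) (c (l 16539048) (l 16535024))))) (a (b (b (c (l 16524080) (l 16540000)) (l 16539192)) (c (l 16544384) (l 16548904))) (c (b (b (b (a (l 16527504) (l 16532456)) (a (l 16531240) (l 16535192))) (l 16539312)) (b (l 16547480) (l 16555592))) (b (b (a (l 16544784) (l 16548872)) (l 16553552)) (l 16562256))))))) (a (b (a (b (l 16503456) (l 16508200)) (c (l 16571880) (b (l 16514416) (l 16520184)))) (a (b (l 16514440) (l 16523024)) (b (l 16538400) (l 16562920)))) (b (b (c (a (l 16548720) (a (l 16560328) (l 16567680))) (a (l 16557472) (a (l 16555536) (c (l 16572112) (l 16565984))))) (a (c (l 16553568) (c (l 16545704) (l 16560320))) (a (c (l 16571648) (l 16561792)) (c (l 16583720) (a (l 16572104) (l 16579120)))))) (a (b (c (l 16559600) (a (l 16543664) (l 16555800))) (c (l 16588952) (l 16580192))) (a (b (c (l 16577696) (a (l 16565480) (l 16572256))) (c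 (l 16586032) (l 16578248))) (b (c (l 16590912) (c (l 16543224) (l 16601400))) (l 14))))))), by decide +kernel⟩

def k2_mm_202 : ∃ t, chk3 f_mm_202 t 5 5 1 = true :=
  ⟨(b (a (b (a (b (l 16534368) (l 16548864)) (b (l 16574472) (l 16589160))) (a (b (l 16564784) (l 16580368)) (b (l 16605384) (l 16600304)))) (b (a (b (a (l 16569600) (l 16602352)) (a (l 16584336) (l 16617048))) (a (a (b (l 16590704) (l 14)) (l 14)) (l 14))) (a (b (a (l 16600640) (l 14)) (l 14)) (l 14)))) (a (a (b (b (l 16595136) (l 16608824)) (b (l 16622080) (l 16635624))) (b (b (l 16615376) (l 14)) (l 14))) (l 14))), by decide +kernel⟩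

def k3_mm_202 : ∃ t, chk3 f_mm_202 t 5 3 1 = true :=
  ⟨(l 14), by decide +kernel⟩

def k4_mm_202 : ∃ t, chk3 f_mm_202 t 24 4 1 = true :=
  ⟨(b (b (b (c (a (b (l 16536968) (l 16538208)) (b (c (l 16547944) (l 16541712)) (l 16572488))) (c (b (a (l 16525704) (a (l 16532416) (l 16536872))) (a (l 16537160) (l 16546184))) (a (b (l 16517056) (l 16507704)) (b (a (l 16524376) (l 16529272)) (a (l 16536024) (l 16540944)))))) (b (c (c (a (l 16535840) (l 16549648)) (l 16581616)) (c (b (l 16570976) (l 16555272)) (a (l 16539688) (c (l 16551568) (l 16547600))))) (c (a (c (l 16537296) (l 16543560)) (c (l 16572264) (l 16556968))) (a (l 16554240) (a (l 16561416) (l 16566232)))))) (b (b (a (c (b (l 16562680) (a (l 16561104) (l 16567144))) (a (l 16553720) (l 16559328))) (c (c (l 16574504) (a (l 16555440) (l 16562616))) (c (l 16565360) (l 16569968)))) (a (c (a (l 16545704) (b (l 16569616) (l 16552592))) (c (l 16557832) (l 16565488))) (c (a (b (b (l 16554120) (l 16576152)) (l 16578848)) (b (l 16561864) (b (a (l 16561360) (l 16564920)) (l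 16585664)))) (a (c (l 16575984) (l 16572696)) (b (l 16573944) (a (l 16574280) (l 16577304))))))) (a (b (c (l 16577256) (l 16568800)) (c (c (l 16562056) (l 16567056)) (l 16576168))) (c (b (a (l 16564032) (l 16590736)) (a (l 16572232) (l 16598944))) (c (b (l 16575184) (l 16582824)) (b (l 16581792) (l 16588080))))))) (b (b (a (c (b (c (l 16570352) (l 16575040)) (l 16580728)) (c (l 16584368) (l 16580048))) (a (c (b (l 16601384) (l 16588600)) (c (l 16591704) (l 16590648))) (l 14))) (a (b (c (l 16588856) (l 16588152)) (c (l 16596968) (l 16602024))) (l 14))) (l 14))), by decide +kernel⟩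

def k5_mm_202 : ∃ t, chk3 f_mm_202 t 25 4 1 = true :=
  ⟨(b (b (b (c (c (b (a (l 16555584) (a (l 16561704) (l 16539928))) (a (l 16563568) (l 16564768))) (b (a (a (l 16547816) (l 16531104)) (a (l 16556568) (l 16582272))) (a (l 16561408) (a (l 16568048) (l 16551848))))) (c (a (b (a (l 16541360) (l 16545992)) (a (l 16552928) (l 16536624))) (b (b (a (l 16547856) (l 16552936)) (l 16577320)) (a (l 16583440) (l 16588552)))) (b (a (b (l 16554728) (l 16539728)) (b (a (l 16541536) (l 16547016)) (a (l 16547520) (l 16553016)))) (a (a (l 16545896) (l 16550984)) (a (l 16577248) (b (l 16558888) (l 16564640))))))) (c (a (b (c (l 16564864) (l 16570096)) (c (a (l 16562752) (l 16570680)) (l 16571744))) (c (b (l 16580752) (a (l 16578712) (l 16586848))) (b (a (l 16579000) (l 16583824)) (l 16587248)))) (c (b (a (l 16545184) (a (l 16573592) (l 16552528))) (a (l 16576768) (a (l 16584160) (l 16589376)))) (b (a (c (l 16535176) (l 16578840)) (a (l 16588504) (l 16583552))) (a (c (l 16571976) (l 16542320)) (a (l 16552040) (a (l 16561456) (l 14))))))))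 (b (a (b (c (a (c (l 16565128) (l 16570136)) (c (l 16573152) (l 16577856))) (c (l 16579592) (l 16580304))) (c (a (a (b (l 16567656) (l 16586304)) (l 16588096)) (b (l 16598536) (l 16600152))) (c (a (l 16583784) (l 16585960)) (a (l 16584968) (l 16591960))))) (a (a (b (b (c (l 16559752) (l 16587544)) (l 14)) (l 14)) (l 14)) (l 14))) (a (a (b (b (a (c (l 16593264) (l 16583312)) (a (c (l 16590448) (l 16585512)) (l 14))) (c (l 16577968) (l 16588448))) (l 14)) (l 14)) (l 14)))) (l 14)), by decide +kernel⟩

def k6_mm_202 : ∃ t, chk3 f_mm_202 t 13 4 1 = true :=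
  ⟨(b (b (a (b (a (a (b (b (c (l 16576152) (c (l 16558248) (l 16552728))) (c (c (l 16573736) (l 16569216)) (c (l 16564216) (l 16558728)))) (c (b (a (l 16555064) (l 16557552)) (l 16561920)) (b (c (l 16570056) (l 16564608)) (c (l 16575768) (l 16570376))))) (b (c (b (c (l 16572848) (l 16568536)) (l 16588440)) (b (c (l 16563808) (c (l 16559984) (l 16557304))) (c (l 16569784) (l 16564664)))) (l 14))) (l 14)) (l 14)) (l 14)) (l 14)) (l 14)), by decide +kernel⟩

def k7_mm_202 : ∃ t, chk3 f_mm_202 t 7 4 1 = true :=
  ⟨(l 14), by decide +kernel⟩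

def k8_mm_202 : ∃ t, chk3 f_mm_202 t 3 5 1 = true :=
  ⟨(l 14), by decide +kernel⟩

def k9_mm_202 : ∃ t, chk3 f_mm_202 t 3 3 1 = true :=
  ⟨(l 14), by decide +kernel⟩

theorem s10_mm_202 : ∃ t, chk3 f_mm_202 t 12 4 1 = true := ex3_a k4_mm_202 k5_mm_202

theorem s11_mm_202 : ∃ t, chk3 f_mm_202 t 6 4 1 = true := ex3_a s10_mm_202 k6_mm_202

theorem s12_mm_202 : ∃ t, chk3 f_mm_202 t 3 4 1 = true := ex3_a s11_mm_202 k7_mm_202

theorem s13_mm_202 : ∃ t, chk3 f_mm_202 t 3 2 1 = true := ex3_b s12_mm_202 k8_mm_202

theorem s14_mm_202 : ∃ t, chk3 f_mm_202 t 3 1 1 = true := ex3_b s13_mm_202 k9_mm_202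

theorem s15_mm_202 : ∃ t, chk3 f_mm_202 t 5 2 1 = true := ex3_b k1_mm_202 k2_mm_202

theorem s16_mm_202 : ∃ t, chk3 f_mm_202 t 5 1 1 = true := ex3_b s15_mm_202 k3_mm_202

theorem s17_mm_202 : ∃ t, chk3 f_mm_202 t 2 1 1 = true := ex3_a k0_mm_202 s16_mm_202

theorem s18_mm_202 : ∃ t, chk3 f_mm_202 t 1 1 1 = true := ex3_a s17_mm_202 s14_mm_202

theorem c_mm_202 : CertB 0 536870912 0 536870912 740881858 40050571 3 eng mog cd0q2 cd0q0 pd2 true false false .pp 2 0 2
    ndB0q2 ndB0q0 pcB2 cut_mm_202 Ext.none :=
  certB0 (fam := true) (s1 := false) (s2 := false) (a := 2) (b := 0) (c := 2) (cn := .pp) (n1 := ndB0q2) (n2 := ndB0q0) (pc := pcB2) (cut := cut_mm_202) (xt := Ext.none) (P1 := 0) (W1 := 536870912) (P2 := 0) (W2 := 536870912) (P3 := 740881858) (W3 := 40050571) (N0 := 3) (En := eng) (mo := mog) (C1 := cd0q2) (C2 := cd0q0) (C3 := pd2)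
    rfl s18_mm_202

noncomputable def cut_mm_203 : Cut := Cut.of [[⟨3, 0, 0, 1449551462⟩], [⟨4, 0, 0, 2845415833⟩]]

noncomputable def f_mm_203 : ℕ → ℕ → ℕ → ℕ → Bool := onCell 0 536870912 1610612736 536870912 740881858 40050571
    (rowB 3 eng mog cd0q2 cd0q0 pd3 1 true false false .up 2 0 3 (qsf 0 536870912 0 536870912 3) ndB0q2 ndB0q0 pcB3 cut_mm_203 Ext.none)

def k0_mm_203 : ∃ t, chk3 f_mm_203 t 1 1 1 = true :=
  ⟨(a (b (b (a (b (a (b (a (l 16652344) (l 14)) (l 14)) (l 14)) (l 14)) (l 14)) (l 14)) (l 2)) (l 14)), by decide +kernel⟩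

theorem c_mm_203 : CertB 0 536870912 0 536870912 740881858 40050571 3 eng mog cd0q2 cd0q0 pd3 true false false .up 2 0 3
    ndB0q2 ndB0q0 pcB3 cut_mm_203 Ext.none :=
  certB1 (fam := true) (s1 := false) (s2 := false) (a := 2) (b := 0) (c := 3) (cn := .up) (n1 := ndB0q2) (n2 := ndB0q0) (pc := pcB3) (cut := cut_mm_203) (xt := Ext.none) (P1 := 0) (W1 := 536870912) (P2 := 0) (W2 := 536870912) (P3 := 740881858) (W3 := 40050571) (N0 := 3) (En := eng) (mo := mog) (C1 := cd0q2) (C2 := cd0q0) (C3 := pd3)
    rfl (fun _ => rfl) k0_mm_203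

noncomputable def cut_mm_213 : Cut := Cut.of [[⟨3, 0, 0, 1449551462⟩], [⟨4, 0, 0, 2845415833⟩]]

noncomputable def f_mm_213 : ℕ → ℕ → ℕ → ℕ → Bool := onCell 0 536870912 536870912 536870912 740881858 40050571
    (rowB 3 eng mog cd0q2 cd0q1 pd3 0 true false false .pnn 2 1 3 (qsf 0 536870912 536870912 536870912 3) ndB0q2 ndB0q1 pcB3 cut_mm_213 Ext.none)

def k0_mm_213 : ∃ t, chk3 f_mm_213 t 1 1 1 = true :=
  ⟨(a (l 14) (l 4)), by decide +kernel⟩

theorem c_mm_213 : CertB 0 536870912 536870912 536870912 740881858 40050571 3 eng mog cd0q2 cd0q1 pd3 true false false .pnn 2 1 3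
    ndB0q2 ndB0q1 pcB3 cut_mm_213 Ext.none :=
  certB0 (fam := true) (s1 := false) (s2 := false) (a := 2) (b := 1) (c := 3) (cn := .pnn) (n1 := ndB0q2) (n2 := ndB0q1) (pc := pcB3) (cut := cut_mm_213) (xt := Ext.none) (P1 := 0) (W1 := 536870912) (P2 := 536870912) (W2 := 536870912) (P3 := 740881858) (W3 := 40050571) (N0 := 3) (En := eng) (mo := mog) (C1 := cd0q2) (C2 := cd0q1) (C3 := pd3)
    rfl k0_mm_213

end Pool.Agent.Strip051.G.I69_7273.Tab.C.BA00

namespace Pool.Agent.Strip051.G.I69_7273.Tab.C.BA01

open Pool.Agent.Strip051.PB Pool.Agent.Strip051.PB.T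
open Pool.Agent.Strip051.G.I69_7273.Tab

noncomputable def f_pp_001 : ℕ → ℕ → ℕ → ℕ → Bool := onCell 0 536870912 0 536870912 740881858 40050571
    (rowB 3 eng mog cd0q0 cd1q0 pd1 0 true true true .up 0 0 1 (qsf 0 536870912 0 536870912 1) ndB0q0 ndB1q0 pcB1 Cut.none Ext.none)

def k0_pp_001 : ∃ t, chk3 f_pp_001 t 1 1 1 = true :=
  ⟨(l 4), by decide +kernel⟩

theorem c_pp_001 : CertB 0 536870912 0 536870912 740881858 40050571 3 eng mog cd0q0 cd1q0 pd1 true true true .up 0 0 1
    ndB0q0 ndB1q0 pcB1 Cut.none Ext.none :=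
  certB0 (fam := true) (s1 := true) (s2 := true) (a := 0) (b := 0) (c := 1) (cn := .up) (n1 := ndB0q0) (n2 := ndB1q0) (pc := pcB1) (cut := Cut.none) (xt := Ext.none) (P1 := 0) (W1 := 536870912) (P2 := 0) (W2 := 536870912) (P3 := 740881858) (W3 := 40050571) (N0 := 3) (En := eng) (mo := mog) (C1 := cd0q0) (C2 := cd1q0) (C3 := pd1)
    rfl k0_pp_001

noncomputable def f_pp_011 : ℕ → ℕ → ℕ → ℕ → Bool := onCell 0 536870912 536870912 536870912 740881858 40050571
    (rowB 3 eng mog cd0q0 cd1q1 pd1 0 true true true .pnn 0 1 1 (qsf 0 536870912 536870912 536870912 1) ndB0q0 ndB1q1 pcB1 Cut.none Ext.none)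

def k0_pp_011 : ∃ t, chk3 f_pp_011 t 1 1 1 = true :=
  ⟨(l 4), by decide +kernel⟩

theorem c_pp_011 : CertB 0 536870912 536870912 536870912 740881858 40050571 3 eng mog cd0q0 cd1q1 pd1 true true true .pnn 0 1 1
    ndB0q0 ndB1q1 pcB1 Cut.none Ext.none :=
  certB0 (fam := true) (s1 := true) (s2 := true) (a := 0) (b := 1) (c := 1) (cn := .pnn) (n1 := ndB0q0) (n2 := ndB1q1) (pc := pcB1) (cut := Cut.none) (xt := Ext.none) (P1 := 0) (W1 := 536870912) (P2 := 536870912) (W2 := 536870912) (P3 := 740881858) (W3 := 40050571) (N0 := 3) (En := eng) (mo := mog) (C1 := cd0q0) (C2 := cd1q1) (C3 := pd1)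
    rfl k0_pp_011

noncomputable def f_pp_012 : ℕ → ℕ → ℕ → ℕ → Bool := onCell 0 536870912 536870912 536870912 740881858 40050571
    (rowB 3 eng mog cd0q0 cd1q1 pd2 0 true true true .pnp 0 1 2 (qsf 0 536870912 536870912 536870912 2) ndB0q0 ndB1q1 pcB2 Cut.none Ext.none)

def k0_pp_012 : ∃ t, chk3 f_pp_012 t 1 1 1 = true :=
  ⟨(l 4), by decide +kernel⟩

theorem c_pp_012 : CertB 0 536870912 536870912 536870912 740881858 40050571 3 eng mog cd0q0 cd1q1 pd2 true true true .pnp 0 1 2
    ndB0q0 ndB1q1 pcB2 Cut.none Ext.none :=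
  certB0 (fam := true) (s1 := true) (s2 := true) (a := 0) (b := 1) (c := 2) (cn := .pnp) (n1 := ndB0q0) (n2 := ndB1q1) (pc := pcB2) (cut := Cut.none) (xt := Ext.none) (P1 := 0) (W1 := 536870912) (P2 := 536870912) (W2 := 536870912) (P3 := 740881858) (W3 := 40050571) (N0 := 3) (En := eng) (mo := mog) (C1 := cd0q0) (C2 := cd1q1) (C3 := pd2)
    rfl k0_pp_012

noncomputable def cut_pp_022_a : Cut := Cut.of [[⟨0, 0, 0, 67108864⟩, ⟨1, 1, 0, 67108864⟩, ⟨2, 1, 0, 67108864⟩]]

noncomputable def f_pp_022_a : ℕ → ℕ → ℕ → ℕ → Bool := onCell 1073741824 536870912 0 536870912 740881858 40050571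
    (rowB 3 eng mog cd0q0 cd1q2a pd2 2 true true true .pp 0 2 2 (qsf 0 536870912 0 536870912 2) ndB0q0 ndB1q2a pcB2 cut_pp_022_a Ext.none)

def k0_pp_022_a : ∃ t, chk3 f_pp_022_a t 8 1 1 = true :=
  ⟨(b (l 1) (b (l 1) (b (a (l 1) (b (a (l 1) (a (l 1) (b (l 1) (b (a (l 1) (a (l 16623944) (l 16626920))) (a (l 6) (l 16640384)))))) (a (l 6) (a (l 6) (a (l 6) (a (l 6) (b (b (l 16657064) (l 16672592)) (b (l 16688424) (l 16715040))))))))) (a (l 6) (a (l 6) (a (l 6) (a (l 6) (a (l 6) (a (l 6) (b (a (l 6) (b (b (l 16732440) (b (l 16734456) (l 16732408))) (b (b (l 16751416) (l 16759632)) (l 4)))) (l 4))))))))))), by decide +kernel⟩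

def k1_pp_022_a : ∃ t, chk3 f_pp_022_a t 18 2 1 = true :=
  ⟨(l 1), by decide +kernel⟩

def k2_pp_022_a : ∃ t, chk3 f_pp_022_a t 18 6 1 = true :=
  ⟨(b (l 1) (a (b (l 1) (a (l 1) (b (a (l 1) (l 16606024)) (a (b (l 16595560) (l 16606816)) (b (l 16601408) (l 16612600)))))) (a (b (b (l 1) (a (l 1) (b (l 1) (l 16580848)))) (b (a (a (l 16589448) (l 16613312)) (b (l 16591288) (l 16601928))) (a (b (l 16607152) (l 16618272)) (b (l 16612776) (l 16623832))))) (c (b (b (l 16567760) (l 16597752)) (b (l 16607608) (l 16628824))) (b (b (l 16581808) (b (l 16596896) (l 16586248))) (b (a (l 16599352) (l 16604912)) (a (l 16621240) (l 16626680)))))))), by decide +kernel⟩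

def k3_pp_022_a : ∃ t, chk3 f_pp_022_a t 18 14 1 = true :=
  ⟨(b (a (b (a (a (b (l 1) (l 16618320)) (b (l 16612456) (l 16624192))) (a (c (l 16626512) (l 16621600)) (c (l 16632128) (l 16627344)))) (a (b (a (l 16631328) (l 16637112)) (c (l 16671936) (l 16667880))) (b (c (l 16647704) (l 16664288)) (c (l 16682912) (l 16679112))))) (b (a (a (b (l 16629600) (l 16641144)) (b (l 16635104) (l 16646584))) (a (a (l 16623920) (l 16626584)) (l 16651488))) (b (a (a (l 16653816) (l 16638208)) (a (l 16643472) (l 16648640))) (c (a (a (l 16669896) (l 16675072)) (b (l 16658192) (l 16665168))) (a (l 16689960) (a (l 16676872) (l 16682016))))))) (b (b (a (a (a (l 16682256) (l 16687792)) (a (l 16693232) (c (l 16679112) (l 16675968)))) (a (c (b (l 16662224) (l 16669464)) (a (l 16681280) (l 16686496))) (a (a (l 16670800) (l 16673296)) (l 16697976)))) (a (a (a (c (l 16678168) (l 16675184)) (c (l 16683520) (l 16680664))) (a (c (l 16688760) (l 16686056)) (b (l 16688864) (l 16675504)))) (a (a (a (l 16675552) (l 16678088)) (l 16702824)) (c (l 16711160)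 (l 16714416))))) (a (a (c (a (b (l 16693632) (b (l 16705416) (l 16713376))) (b (l 16698856) (b (l 16710544) (l 16718440)))) (a (b (l 16691208) (l 16715400)) (b (l 16696576) (a (l 16711480) (l 16714080))))) (a (b (c (b (l 16700128) (l 16707816)) (l 16712328)) (b (a (l 16713488) (l 16716016)) (l 16722728))) (b (c (b (l 16705184) (l 16712808)) (b (l 16703064) (l 16710976))) (b (l 16719768) (l 16727688))))) (a (a (b (b (a (l 16707952) (l 16710448)) (l 16716912)) (a (l 16727416) (l 16729848))) (a (b (l 16716760) (l 16732256)) (b (l 16719200) (l 16734640)))) (a (b (a (l 16721624) (l 16724016)) (c (l 16738600) (l 16737720))) (b (c (l 16728192) (l 16726888)) (c (l 16743040) (l 16742456)))))))), by decide +kernel⟩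

def k4_pp_022_a : ∃ t, chk3 f_pp_022_a t 18 15 1 = true :=
  ⟨(b (b (b (a (a (b (a (c (l 16710928) (l 16719960)) (c (l 16715928) (l 16714640))) (b (a (a (l 16725616) (l 16728152)) (l 16731928)) (a (l 16731032) (l 16736040)))) (a (c (l 16735328) (l 16736960)) (a (l 16741464) (a (l 16740336) (l 16741536))))) (a (a (c (b (l 16740880) (l 16748760)) (b (l 16740088) (l 16748256))) (c (b (l 16745528) (l 16752168)) (b (l 16744912) (l 16752560)))) (a (b (c (l 16749120) (l 16749632)) (c (a (l 16754792) (l 16756776)) (c (l 16758688) (l 16758864)))) (b (c (l 16755176) (l 16754240)) (a (c (l 16758904) (l 16759208)) (l 4)))))) (a (a (a (a (a (l 16739624) (l 16740872)) (c (l 16743080) (l 16742368))) (c (b (l 16742600) (l 16750808)) (b (l 16741872) (l 16750360)))) (a (a (b (l 16745912) (l 16754216)) (b (l 16748328) (a (l 16755592) (l 16756408)))) (b (c (l 16751984) (l 16751704)) (a (c (l 16757672) (l 16757920)) (b (l 16757752) (l 4)))))) (a (a (a (b (c (l 16754408) (l 16754728)) (b (l 16759816) (l 4))) (b (c (l 16756216) (l 16756488))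 (l 4))) (b (b (a (l 16756328) (l 16758384)) (l 4)) (l 4))) (l 4)))) (a (b (a (a (a (b (l 16752952) (b (l 16758992) (a (l 16761976) (l 16763040)))) (b (l 16756544) (b (a (l 16760232) (l 16761192)) (l 4)))) (b (a (c (l 16757392) (l 16757648)) (b (l 16757472) (a (l 16760424) (l 16761480)))) (a (a (b (l 16762256) (l 4)) (l 4)) (l 4)))) (a (b (b (a (c (l 16759144) (l 16759328)) (c (l 16761208) (l 16761400))) (l 4)) (l 4)) (l 4))) (l 4)) (l 4))) (l 4)), by decide +kernel⟩

def k5_pp_022_a : ∃ t, chk3 f_pp_022_a t 19 2 1 = true :=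
  ⟨(b (l 1) (a (l 1) (b (l 1) (a (l 1) (b (l 1) (c (l 16517600) (l 16530720))))))), by decide +kernel⟩

def k6_pp_022_a : ∃ t, chk3 f_pp_022_a t 19 6 1 = true :=
  ⟨(a (a (b (b (l 1) (b (l 1) (c (l 16560544) (a (l 16550128) (l 16555856))))) (a (b (b (c (l 16576184) (l 16569440)) (l 16592640)) (b (l 16613120) (l 16634448))) (b (b (l 16578512) (l 16598040)) (b (l 16618400) (l 16639616))))) (c (b (b (l 16529120) (a (l 16591656) (l 16576112))) (b (b (l 16589616) (l 16608584)) (b (l 16628424) (l 16649176)))) (b (b (l 16519408) (b (l 16546016) (l 16564224))) (b (b (l 16583200) (l 16602960)) (b (l 16623536) (l 16644944)))))) (c (b (b (a (a (l 16537568) (l 16540168)) (b (l 16534928) (l 16548032))) (a (b (l 16560344) (l 16576480)) (b (l 16562800) (l 16579448)))) (b (a (b (l 16594144) (l 16613416)) (b (l 16597624) (l 16617424))) (b (a (l 16634416) (l 16638936)) (a (l 16657232) (l 16662280))))) (b (b (a (b (l 16522192) (l 16539408)) (l 16557576)) (a (b (l 16557024) (l 16574976)) (b (l 16567576) (l 16585288)))) (b (a (b (l 16593712)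 (l 16613256)) (b (l 16603400) (l 16622392))) (a (b (l 16633624) (l 16654856)) (b (l 16643184) (l 16664408))))))), by decide +kernel⟩

def k7_pp_022_a : ∃ t, chk3 f_pp_022_a t 19 7 1 = true :=
  ⟨(b (b (a (b (a (a (l 16656656) (l 16661720)) (c (l 16670872) (l 16667224))) (b (a (a (l 16653712) (l 16679656)) (a (l 16684544) (l 16689344))) (a (a (l 16688608) (l 16693488)) (c (l 16701824) (l 16699336))))) (b (a (c (l 16680264) (l 16676984)) (c (l 16687560) (l 16686408))) (a (c (b (l 16697680) (l 16710888)) (b (l 16694944) (l 16708776))) (c (b (l 16706576) (l 16718568)) (b (l 16704240) (l 16717912)))))) (b (b (a (a (c (l 16706320) (l 16704072)) (c (l 16715528) (l 16713656))) (a (c (l 16724112) (l 16722928)) (c (l 16730608) (l 16731896)))) (a (a (c (l 16720520) (l 16718888)) (a (l 16726680) (l 16736440))) (a (a (l 16739408) (c (l 16737928) (l 16738880))) (a (c (l 16741328) (l 16742112)) (b (l 16741944) (a (l 16747504) (l 16760016))))))) (a (a (a (a (b (l 16731080) (l 16748392)) (b (l 16733392) (a (l 16746968) (l 16747792))))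 (b (c (l 16737152) (l 16736336)) (b (c (l 16746424) (l 16747016)) (a (l 16757512) (c (l 16754080) (l 16754440)))))) (b (a (c (l 16740392) (l 16740936)) (c (l 16748960) (l 16744416))) (a (a (b (l 16749184) (a (l 16755824) (l 4))) (b (l 16751008) (l 4))) (b (a (l 16758240) (l 16760376)) (l 4))))) (b (b (a (a (l 16744224) (c (l 16747488) (l 16748024))) (a (c (l 16756720) (l 16757232)) (l 4))) (a (a (c (l 16755864) (l 16756328)) (a (l 16759168) (l 4))) (l 4))) (l 4))))) (b (b (a (b (b (a (a (b (a (l 16753608) (l 16755664)) (l 4)) (l 4)) (l 4)) (l 4)) (l 4)) (l 4)) (l 4)) (l 4))), by decide +kernel⟩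

def k8_pp_022_a : ∃ t, chk3 f_pp_022_a t 5 2 1 = true :=
  ⟨(a (a (a (b (l 1) (a (b (l 1) (b (b (l 16493448) (l 16505984)) (c (l 16518856) (l 16520752)))) (c (b (l 16475112) (b (l 16499280) (l 16520704))) (b (l 16490536) (b (l 16503640) (l 16531136)))))) (b (b (c (l 16441456) (l 16435168)) (b (c (l 16448168) (l 16446776)) (a (l 16464632) (l 16465704)))) (b (a (b (l 16476096) (l 16489512)) (b (l 16476528) (a (l 16490224) (l 16491400)))) (a (b (c (l 16500800) (l 16513416)) (c (b (l 16517008) (l 16529240)) (l 16533416))) (b (c (l 16503160) (l 16515352)) (c (a (l 16525344) (a (l 16526576) (l 16528184))) (l 16557200))))))) (c (b (b (l 16458192) (a (l 16462368) (l 16478264))) (b (a (b (l 16478944) (l 16494576)) (l 16523864)) (a (b (l 16513928) (a (l 16554240) (l 16562376))) (b (l 16530120) (b (l 16547200) (l 16570512)))))) (b (b (l 16449632) (a (l 16465568) (l 16471800))) (a (b (l 16519048) (b (l 16524912) (a (l 16542464) (l 16549864)))) (b (l 16526256) (b (l 16538792) (l 16582104))))))) (b (a (a (b (l 16467472) (l 16548840))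 (b (l 16471712) (l 16512008))) (a (b (l 16476208) (l 16517272)) (b (l 16481600) (l 16502664)))) (a (b (b (a (l 16508096) (l 16513744)) (a (l 16527592) (l 16533496))) (a (b (c (l 16546272) (l 16546208)) (a (c (l 16565920) (l 16571816)) (l 16608536))) (b (c (l 16560128) (l 16552984)) (c (l 16607392) (l 16601896))))) (b (a (b (l 16519504) (l 16539768)) (b (l 16484608) (l 16547552))) (a (b (c (l 16566640) (l 16518200)) (c (l 16593912) (l 16588928))) (b (l 16572488) (b (l 16593800) (l 16609536)))))))), by decide +kernel⟩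

def k9_pp_022_a : ∃ t, chk3 f_pp_022_a t 20 12 1 = true :=
  ⟨(b (a (c (a (a (l 16543104) (l 16544360)) (b (l 16518496) (l 16511584))) (a (l 16552264) (l 16575912))) (b (a (c (l 16542584) (l 16551200)) (c (a (l 16545304) (l 16547616)) (l 16554680))) (a (c (l 16578080) (l 16564664)) (c (a (l 16560160) (l 16583640)) (a (l 16567456) (l 16569752)))))) (a (b (c (a (l 16565760) (c (l 16567864) (l 16570800))) (a (l 16573000) (l 16576168))) (c (a (b (l 16578432) (l 16566408)) (a (l 16585848) (l 16587976))) (a (l 16589216) (l 16592864)))) (a (c (b (c (l 16572008) (l 16574760)) (c (l 16590296) (l 16592656))) (b (l 16579872) (l 16597048))) (b (a (c (l 16576712) (l 16562040)) (a (b (l 16597968) (l 16606688)) (l 16596144))) (c (a (l 16595160) (a (l 16597152) (l 16598944))) (a (l 16579568) (a (l 16581432) (l 16604064)))))))), by decide +kernel⟩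

def k10_pp_022_a : ∃ t, chk3 f_pp_022_a t 20 13 1 = true :=
  ⟨(b (a (b (c (a (c (l 16600464) (l 16581824)) (a (l 16604888) (l 16607256))) (a (l 16607024) (l 16611160))) (c (c (a (l 16621424) (l 16636472)) (b (l 16619984) (l 16630592))) (a (l 16626520) (l 16631152)))) (b (a (c (a (l 16609760) (l 16633360)) (a (l 16593632) (l 16585616))) (c (a (l 16636120) (a (l 16638288) (l 16619136))) (a (b (l 16614680) (l 16624656)) (a (a (l 16621352) (l 16622056)) (l 16623416))))) (a (b (c (l 16638600) (l 16630960)) (c (a (l 16636408) (l 16639336)) (l 16641632))) (a (c (b (l 16631152) (l 16642384)) (b (l 16635072) (l 16645920))) (a (c (b (l 16633448) (l 16644760)) (b (l 16637240) (l 16648176))) (b (l 16647464) (l 16658632))))))) (b (a (a (c (b (l 16638176) (l 16649640)) (l 16647808)) (a (b (l 16643904) (l 16655392)) (b (a (l 16645920) (l 16647312)) (l 16652976)))) (a (b (c (a (l 16647848) (l 16650888)) (l 16652768)) (c (a (l 16659728) (l 16662888)) (l 16664368))) (a (c (b (l 16654056) (l 16666176)) (b (l 16657232) (l 16669016)))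 (a (c (b (l 16656520) (l 16668728)) (b (l 16659576) (l 16671448))) (c (l 16675008) (l 16642416)))))) (a (a (c (l 16659888) (l 16671016)) (a (a (l 16672832) (l 16663824)) (a (l 16665328) (l 16669488)))) (a (b (c (b (l 16649568) (l 16655896)) (l 16676456)) (a (l 16686072) (l 16689400))) (a (c (b (l 16678760) (l 16691832)) (l 16687672)) (b (a (c (l 16681392) (l 16662824)) (l 16663424)) (a (l 16695512) (l 16697432)))))))), by decide +kernel⟩

def k11_pp_022_a : ∃ t, chk3 f_pp_022_a t 42 6 1 = true :=
  ⟨(b (b (b (c (a (l 16553536) (l 16561680)) (l 16564872)) (a (c (l 16568600) (l 16575208)) (c (l 16576768) (l 16582776)))) (b (c (a (l 16606336) (l 16614512)) (c (a (l 16589416) (l 16597208)) (l 16596464))) (c (a (c (l 16603096) (l 16605056)) (c (l 16611400) (l 16613144))) (a (b (l 16604168) (l 16613456)) (a (l 16593600) (l 16597496)))))) (b (b (c (a (b (l 16618976) (l 16629480)) (a (l 16640872) (l 16645000))) (a (b (l 16602176) (l 16612288)) (b (l 16609936) (l 16620088)))) (a (c (b (l 16650880) (l 16662224)) (b (a (l 16641872)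 (l 16645744)) (b (l 16651984) (l 16657592)))) (c (b (l 16659128) (a (l 16657920) (l 16662064))) (b (b (l 16648944) (l 16633368)) (b (l 16638880) (l 16644496)))))) (b (a (b (c (a (l 16661472) (l 16665576)) (b (l 16663312) (l 16648184))) (c (a (l 16673712) (l 16677808)) (b (l 16654136) (l 16660216)))) (c (b (a (l 16669704) (l 16673832)) (a (l 16681920) (l 16686024))) (a (b (l 16672144) (l 16684056)) (l 16682056)))) (a (b (c (a (l 16686400) (l 16690488)) (l 16690528)) (a (l 16700416) (l 16704400))) (a (b (l 16695408) (l 16708376)) (b (l 16699424) (l 16712360))))))), by decide +kernel⟩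

def k12_pp_022_a : ∃ t, chk3 f_pp_022_a t 43 6 1 = true :=
  ⟨(b (b (c (a (b (l 16569872) (l 16584984)) (b (l 16578112) (l 16614248))) (a (l 16606960) (l 16612128))) (c (b (a (l 16622768) (b (l 16605640) (l 16614648))) (a (a (l 16618432) (l 16622608)) (b (l 16624024) (l 16654744)))) (b (a (l 16606440) (l 16614400)) (a (l 16624400) (l 16632424))))) (a (b (b (b (c (l 16646000) (l 16617880)) (c (l 16656520) (l 16628056))) (c (b (a (l 16654880) (l 16659048)) (a (l 16666216) (l 16670368))) (a (b (l 16657624) (l 16668648)) (l 16667152)))) (a (b (c (b (l 16677968) (l 16690128)) (l 16686032)) (b (l 16703432) (l 16716336))) (b (c (b (l 16682096) (l 16694240)) (l 16690008)) (c (l 16713280) (l 16714584))))) (a (b (b (c (l 16654928) (l 16649992)) (c (b (l 16663224) (l 16674528)) (l 16671176))) (b (b (l 16687072) (l 16699056)) (b (l 16711464) (l 16724288)))) (b (b (b (l 16651272) (l 16660320)) (b (l 16668448) (l 16679600))) (b (b (l 16691152) (l 16703112)) (b (l 16715480) (l 16728288))))))), by decide +kernel⟩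

def k13_pp_022_a : ∃ t, chk3 f_pp_022_a t 11 12 1 = true :=
  ⟨(a (a (b (a (b (l 16609896) (a (l 16601720) (l 16605848))) (c (l 16623400) (l 16606776))) (b (a (c (b (l 16614048) (l 16623072)) (l 16622488)) (c (l 16627008) (l 16630680))) (a (c (b (l 16611480) (a (l 16640096) (l 16644304))) (l 16640576)) (c (l 16645768) (l 16648784))))) (b (a (b (l 16604688) (l 16620408)) (b (l 16608576) (l 16625400))) (b (a (c (l 16635456) (l 16637040)) (l 16643280)) (a (c (l 16654216) (l 16655936)) (c (l 16662656) (l 16661144)))))) (a (b (a (b (l 16612912) (l 16630096)) (a (l 16625312) (l 16628040))) (a (b (l 16648400) (l 16667920)) (b (l 16654192) (l 16674232)))) (b (b (l 16636960) (b (l 16639976) (l 16659904))) (a (b (l 16660672) (l 16681272)) (b (l 16668016) (l 16689088)))))), by decide +kernel⟩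

def k14_pp_022_a : ∃ t, chk3 f_pp_022_a t 11 13 1 = true :=
  ⟨(a (b (a (b (a (a (b (l 16651488) (l 16661840)) (b (l 16655648) (l 16665984))) (c (b (l 16660728) (l 16671192)) (l 16668360))) (a (a (b (l 16672576) (l 16683712)) (b (l 16676712) (l 16687824))) (c (b (l 16682032) (l 16693248)) (l 16689456)))) (b (a (c (l 16674392) (l 16676120)) (c (l 16682824) (l 16681864))) (a (c (b (l 16690432) (l 16701616)) (l 16697688)) (c (l 16704408) (l 16704056))))) (a (b (a (a (b (l 16695240) (l 16707168)) (b (l 16699336) (l 16711240))) (c (b (l 16704848) (l 16716832)) (b (l 16706240) (l 16717960)))) (b (a (c (l 16721040) (l 16722088)) (c (l 16729368) (l 16730288))) (a (a (l 16732440) (a (l 16735632) (l 16737856))) (a (c (l 16751328) (l 16751856)) (l 4))))) (b (a (c (b (l 16713168) (l 16725144)) (b (l 16714408) (l 16726136))) (b (c (l 16721496) (l 16721688)) (a (l 16731928) (l 16745648)))) (a (b (a (l 16741568) (l 37278916295)) (l 4)) (l 4))))) (b (a (a (b (c (l 16689432) (l 16688152)) (c (l 16711616) (l 16710968))) (b (c (l 16696240)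 (l 16695176)) (b (l 16712976) (a (l 16722848) (l 16726728))))) (b (a (c (l 16703792) (l 16703008)) (a (l 16709528) (l 16713712))) (a (b (l 16720912) (c (l 16742944) (l 16742688))) (b (a (l 16726952) (l 16730744)) (l 4))))) (a (b (b (a (a (l 16727208) (l 16730760)) (a (l 16744824) (l 4))) (l 4)) (l 4)) (l 4)))), by decide +kernel⟩

def k15_pp_022_a : ∃ t, chk3 f_pp_022_a t 5 7 1 = true :=
  ⟨(b (a (a (b (b (a (a (c (l 16693544) (l 16695400)) (c (b (l 16693176) (l 16706824)) (l 16698432))) (a (c (b (l 16699992) (l 16713864)) (b (l 16702168) (l 16715792))) (a (c (l 16712392) (l 16714216)) (a (b (l 16709024) (l 16723008)) (b (l 16710952) (l 16724936)))))) (a (a (c (b (l 16713240) (l 16725184)) (b (l 16713128) (l 16726640))) (c (b (l 16720056) (l 16742744)) (b (l 16721528) (l 16738744)))) (b (a (a (l 16726232) (l 16740368)) (a (l 16746728) (a (l 16752200) (l 16748944)))) (a (a (b (l 16735232) (l 16751896)) (c (l 16752352) (l 16753288))) (b (a (a (l 16741888) (l 16743976)) (a (l 16759280) (l 4))) (l 4)))))) (b (a (a (b (a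 (l 16741456) (a (l 16738800) (l 16751088))) (a (c (b (l 16745296) (l 16763040)) (b (l 16745928) (l 16761008))) (a (b (l 16759080) (l 4)) (l 4)))) (b (a (c (l 16753640) (a (l 16742912) (l 16755360))) (b (c (l 16743656) (l 16744416)) (l 4))) (l 4))) (a (b (a (b (c (l 16758384) (l 16759152)) (l 4)) (l 4)) (l 4)) (l 4))) (l 4))) (b (a (b (a (b (c (l 16715168) (l 16716720)) (c (l 16729216) (l 16730520))) (b (c (l 16723184) (l 16724440)) (c (b (l 16733624) (l 40500153287)) (c (l 16751312) (l 16750624))))) (b (a (a (c (l 16756808) (l 16752664)) (b (l 16754216) (l 4))) (b (a (l 58216894071) (l 4)) (l 4))) (l 4))) (b (b (a (c (l 16736512) (l 16737536)) (c (a (l 16748024) (l 21709668439)) (a (l 16748984) (l 32983953079)))) (a (b (a (l 16750808) (l 4)) (l 4)) (l 4))) (l 4))) (l 4))) (l 4)) (l 4)), by decide +kernel⟩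

def k16_pp_022_a : ∃ t, chk3 f_pp_022_a t 6 2 1 = true :=
  ⟨(a (b (a (b (a (l 16488504) (l 16497864)) (a (l 16552608) (l 16542328))) (b (a (l 16510064) (l 16525272)) (a (l 16556192) (l 16572208)))) (a (b (a (b (l 16535848) (l 16578784)) (b (l 16547864) (l 16592240))) (a (b (b (l 16576816) (l 16611928)) (a (b (l 16602864) (l 16619176)) (b (l 16609848) (l 16626656)))) (b (b (l 16591032) (l 16626792)) (a (b (l 16617672) (l 16634712)) (b (l 16626056) (l 16643184)))))) (b (a (b (l 16563040) (l 16608000)) (b (l 16580080) (l 16625248))) (b (a (a (l 16611000) (l 16619560)) (a (l 16649088) (l 16657504))) (a (b (a (l 16634560) (l 16643080)) (l 16655896)) (c (l 16685760) (l 16684600))))))) (b (a (b (l 16633256) (a (l 16568152) (l 16584136))) (b (l 16641680) (a (l 16599056) (l 16634272)))) (a (b (b (a (l 16596832) (l 16612752)) (b (l 16632904) (a (l 16627368) (l 16642872)))) (a (b (l 16648728) (c (l 16701344) (l 16700728))) (b (l 16664000) (b (l 16686848) (l 16724376))))) (b (a (l 16665792) (l 16680040)) (a (b (l 16699504) (a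 (l 16727032) (l 5066646615))) (b (l 16714080) (b (l 16739624) (a (l 43721352087) (l 65733060535))))))))), by decide +kernel⟩

def k17_pp_022_a : ∃ t, chk3 f_pp_022_a t 6 3 1 = true :=
  ⟨(b (a (b (a (a (b (b (l 16656400) (b (l 16654776) (l 16677728))) (b (a (l 16675888) (l 16684208)) (a (l 16697352) (l 16705664)))) (b (b (l 16672872) (a (l 16672200) (l 16680568))) (b (a (l 16692528) (l 16700848)) (a (a (l 16711896) (l 16716016)) (b (l 16716744) (l 16727256)))))) (b (b (a (l 16694960) (l 16708880)) (a (a (l 16688920) (l 16697216)) (a (l 16705400) (l 16713320)))) (a (b (a (l 16709128) (l 16727712)) (b (a (l 16724696) (l 16742640)) (l 4))) (b (a (c (l 16735304) (l 16725056)) (b (l 16727568) (l 4))) (l 4))))) (a (b (b (a (a (b (l 16714136) (l 16735928)) (b (l 16722320) (l 29762712743))) (b (a (l 16740512) (l 4)) (l 4))) (l 4)) (l 4)) (l 4))) (b (b (a (a (a (b (l 16702360) (l 16741704)) (b (l 16709848) (c (l 16748664) (l 16748864)))) (b (c (l 16741544) (l 16741592)) (a (l 42110751207) (l 4)))) (a (b (a (l 42110745495) (l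 4)) (l 4)) (l 4))) (l 4)) (l 4))) (l 4)), by decide +kernel⟩

def k18_pp_022_a : ∃ t, chk3 f_pp_022_a t 7 1 1 = true :=
  ⟨(b (a (b (a (b (l 16668864) (a (l 16648184) (l 16662576))) (b (l 16644928) (a (b (l 16647536) (l 16665136)) (l 16671208)))) (b (a (a (b (l 16677136) (l 16680144)) (a (l 16700288) (l 16717040))) (a (b (l 16685960) (b (l 16703616) (l 16716512))) (b (l 16700760) (a (l 16742032) (l 20635948247))))) (a (b (a (c (l 16729272) (l 16728352)) (a (l 17414680135) (a (l 17414704295) (l 27078360151)))) (a (b (a (l 16737304) (l 53385027735)) (l 4)) (l 4))) (b (a (b (c (l 16877857559) (l 16760736)) (l 4)) (a (l 54995669239) (l 4))) (l 4))))) (b (a (b (l 16696120) (a (l 16706304) (b (l 16689248) (l 16706696)))) (b (a (l 16679336) (l 16689472)) (a (b (l 16700528) (l 16742712)) (b (l 16710800) (c (l 26541507975) (l 23320279239)))))) (b (a (b (a (l 16735448) (a (l 16723856) (l 30299603031))) (a (a (b (l 16728384) (l 57143137031)) (b (l 16734712) (l 4))) (a (b (l 58216887847) (l 4)) (l 4)))) (b (a (b (a (l 16729608)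 (l 16755792)) (a (l 64122469607) (l 4))) (b (a (l 46942600599) (l 51237592855)) (l 4))) (l 4))) (l 4)))) (l 4)), by decide +kernel⟩

theorem s19_pp_022_a : ∃ t, chk3 f_pp_022_a t 6 1 1 = true := ex3_b k16_pp_022_a k17_pp_022_a

theorem s20_pp_022_a : ∃ t, chk3 f_pp_022_a t 3 1 1 = true := ex3_a s19_pp_022_a k18_pp_022_a

theorem s21_pp_022_a : ∃ t, chk3 f_pp_022_a t 11 6 1 = true := ex3_b k13_pp_022_a k14_pp_022_a

theorem s22_pp_022_a : ∃ t, chk3 f_pp_022_a t 21 6 1 = true := ex3_a k11_pp_022_a k12_pp_022_a

theorem s23_pp_022_a : ∃ t, chk3 f_pp_022_a t 20 6 1 = true := ex3_b k9_pp_022_a k10_pp_022_a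

theorem s24_pp_022_a : ∃ t, chk3 f_pp_022_a t 10 6 1 = true := ex3_a s23_pp_022_a s22_pp_022_a

theorem s25_pp_022_a : ∃ t, chk3 f_pp_022_a t 5 6 1 = true := ex3_a s24_pp_022_a s21_pp_022_a

theorem s26_pp_022_a : ∃ t, chk3 f_pp_022_a t 5 3 1 = true := ex3_b s25_pp_022_a k15_pp_022_a

theorem s27_pp_022_a : ∃ t, chk3 f_pp_022_a t 5 1 1 = true := ex3_b k8_pp_022_a s26_pp_022_a

theorem s28_pp_022_a : ∃ t, chk3 f_pp_022_a t 19 3 1 = true := ex3_b k6_pp_022_a k7_pp_022_a

theorem s29_pp_022_a : ∃ t, chk3 f_pp_022_a t 19 1 1 = true := ex3_b k5_pp_022_a s28_pp_022_a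

theorem s30_pp_022_a : ∃ t, chk3 f_pp_022_a t 18 7 1 = true := ex3_b k3_pp_022_a k4_pp_022_a

theorem s31_pp_022_a : ∃ t, chk3 f_pp_022_a t 18 3 1 = true := ex3_b k2_pp_022_a s30_pp_022_a

theorem s32_pp_022_a : ∃ t, chk3 f_pp_022_a t 18 1 1 = true := ex3_b k1_pp_022_a s31_pp_022_a

theorem s33_pp_022_a : ∃ t, chk3 f_pp_022_a t 9 1 1 = true := ex3_a s32_pp_022_a s29_pp_022_a

theorem s34_pp_022_a : ∃ t, chk3 f_pp_022_a t 4 1 1 = true := ex3_a k0_pp_022_a s33_pp_022_a

theorem s35_pp_022_a : ∃ t, chk3 f_pp_022_a t 2 1 1 = true := ex3_a s34_pp_022_a s27_pp_022_a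

theorem s36_pp_022_a : ∃ t, chk3 f_pp_022_a t 1 1 1 = true := ex3_a s35_pp_022_a s20_pp_022_a

theorem c_pp_022_a : CertB 0 536870912 0 536870912 740881858 40050571 3 eng mog cd0q0 cd1q2a pd2 true true true .pp 0 2 2
    ndB0q0 ndB1q2a pcB2 cut_pp_022_a Ext.none :=
  certB2 (fam := true) (s1 := true) (s2 := true) (a := 0) (b := 2) (c := 2) (cn := .pp) (n1 := ndB0q0) (n2 := ndB1q2a) (pc := pcB2) (cut := cut_pp_022_a) (xt := Ext.none) (P1 := 0) (W1 := 536870912) (P2 := 0) (W2 := 536870912) (P3 := 740881858) (W3 := 40050571) (N0 := 3) (En := eng) (mo := mog) (C1 := cd0q0) (C2 := cd1q2a) (C3 := pd2)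
    rfl (fun _ => rfl) s36_pp_022_a

noncomputable def cut_pp_022_b : Cut := Cut.of [[⟨0, 0, 0, 67108864⟩, ⟨1, 1, 0, 67108864⟩, ⟨2, 1, 0, 67108864⟩]]

noncomputable def f_pp_022_b : ℕ → ℕ → ℕ → ℕ → Bool := onCell 1073741824 536870912 1239849684 370763052 740881858 40050571
    (rowB 3 eng mog cd0q0 cd1q2b pd2 2 true true true .pp 0 2 2 (qsf 0 536870912 1239849684 370763052 2) ndB0q0 ndB1q2b pcB2 cut_pp_022_b Ext.none)

def k0_pp_022_b : ∃ t, chk3 f_pp_022_b t 2 1 1 = true :=
  ⟨(a (l 1) (b (b (a (b (b (a (a (l 1) (c (l 16415456) (l 16395264))) (a (c (l 16423520) (l 16407968)) (l 16489104))) (a (l 1) (a (l 1) (l 16400536)))) (l 1)) (a (b (a (b (l 16430360) (l 16364496)) (b (l 16434888) (l 16370696))) (b (a (l 16296256) (l 16304232)) (l 1))) (b (b (a (l 16439800) (l 16466144)) (a (l 16377240) (l 16384272))) (b (l 16358688) (a (l 16245464) (l 16255936)))))) (a (l 1) (b (a (l 1) (b (l 16182160) (l 1))) (l 1)))) (l 1))), by decide +kernel⟩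

def k1_pp_022_b : ∃ t, chk3 f_pp_022_b t 3 1 1 = true :=
  ⟨(a (b (b (a (b (a (a (b (l 16451728) (l 16391640)) (b (l 16459760) (l 16399936))) (b (a (l 16470488) (l 16484456)) (l 16435992))) (a (b (l 16355496) (l 16272336)) (a (l 16319720) (l 16331320)))) (b (a (b (a (l 16500080) (l 16516976)) (a (l 16436296) (l 16452872))) (b (l 16644856) (a (l 16470176) (l 16489176)))) (a (b (l 16380960) (l 16321120)) (b (l 16416320) (l 16353520))))) (a (b (a (b (l 16207488) (l 16140392)) (l 16202592)) (a (l 1) (l 16071224))) (b (a (l 16336224) (l 16367152)) (a (l 16107512) (l 16142816))))) (a (l 1) (b (a (b (l 15974744) (l 1)) (b (l 16018024) (l 15884152))) (l 1)))) (b (b (a (b (b (a (a (l 16561992) (l 16575888)) (a (l 16590392) (l 16605384))) (a (l 16534984) (l 16609856))) (a (b (l 16455944) (l 16392816)) (b (l 16492120) (l 16435096)))) (b (a (b (l 16668856) (a (l 16570392) (l 16586656))) (a (l 16677576) (a (l 16654696) (l 16660848)))) (a (b (l 16569808) (l 16474528)) (a (l 16570344) (l 16587848))))) (a (b (a (b (l 16329824) (l 16267296))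 (b (l 16373168) (l 16311608))) (a (l 16179184) (l 16263992))) (b (a (l 16515432) (l 16537832)) (a (l 16287432) (l 16418304))))) (b (a (b (a (l 16060528) (l 16101960)) (a (l 15934120) (l 15982912))) (b (a (l 16145464) (l 16194072)) (a (l 16029432) (l 16075448)))) (a (a (l 1) (l 15789016)) (a (l 15846552) (l 15983480)))))), by decide +kernel⟩

theorem s2_pp_022_b : ∃ t, chk3 f_pp_022_b t 1 1 1 = true := ex3_a k0_pp_022_b k1_pp_022_b

theorem c_pp_022_b : CertB 0 536870912 1239849684 370763052 740881858 40050571 3 eng mog cd0q0 cd1q2b pd2 true true true .pp 0 2 2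
    ndB0q0 ndB1q2b pcB2 cut_pp_022_b Ext.none :=
  certB2 (fam := true) (s1 := true) (s2 := true) (a := 0) (b := 2) (c := 2) (cn := .pp) (n1 := ndB0q0) (n2 := ndB1q2b) (pc := pcB2) (cut := cut_pp_022_b) (xt := Ext.none) (P1 := 0) (W1 := 536870912) (P2 := 1239849684) (W2 := 370763052) (P3 := 740881858) (W3 := 40050571) (N0 := 3) (En := eng) (mo := mog) (C1 := cd0q0) (C2 := cd1q2b) (C3 := pd2)
    rfl (fun _ => rfl) s2_pp_022_b

noncomputable def f_pp_023_a : ℕ → ℕ → ℕ → ℕ → Bool := onCell 1610612736 536870912 0 536870912 740881858 40050571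
    (rowB 3 eng mog cd0q0 cd1q2a pd3 2 true true true .up 0 2 3 (qsf 0 536870912 0 536870912 3) ndB0q0 ndB1q2a pcB3 Cut.none Ext.none)

def k0_pp_023_a : ∃ t, chk3 f_pp_023_a t 1 1 1 = true :=
  ⟨(a (a (b (a (b (a (b (a (l 16698968) (l 16709496)) (b (a (l 16721152) (a (l 16729048) (l 16755352))) (a (b (l 31910218295) (a (l 50700696311) (l 55532557159))) (b (a (l 50163838935) (l 59827528871)) (l 4))))) (b (a (b (l 16713128) (l 16726824)) (b (l 16723696) (b (l 16733880) (l 47479477383)))) (b (a (b (l 47479478839) (a (l 59827505639) (l 67343726519))) (b (a (l 63585603351) (l 70028085063)) (l 4))) (l 4)))) (l 4)) (b (b (a (b (a (l 16734280) (a (l 16742376) (l 16768880))) (a (b (a (l 16742024) (l 16747560)) (a (l 59290660599) (l 93650376663))) (b (a (l 61975020903) (l 93650383671)) (l 4)))) (b (a (b (a (l 16749920) (l 16755656)) (a (l 65196252615) (l 95797875031))) (b (a (a (l 16770560) (l 68954352311)) (b (l 90429173991) (l 4))) (l 4))) (l 4))) (l 4)) (l 4))) (l 4)) (b (a (b (l 4) (l 4)) (l 2)) (l 4))) (l 2)), by decide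 +kernel⟩

theorem c_pp_023_a : CertB 0 536870912 0 536870912 740881858 40050571 3 eng mog cd0q0 cd1q2a pd3 true true true .up 0 2 3
    ndB0q0 ndB1q2a pcB3 Cut.none Ext.none :=
  certB2 (fam := true) (s1 := true) (s2 := true) (a := 0) (b := 2) (c := 3) (cn := .up) (n1 := ndB0q0) (n2 := ndB1q2a) (pc := pcB3) (cut := Cut.none) (xt := Ext.none) (P1 := 0) (W1 := 536870912) (P2 := 0) (W2 := 536870912) (P3 := 740881858) (W3 := 40050571) (N0 := 3) (En := eng) (mo := mog) (C1 := cd0q0) (C2 := cd1q2a) (C3 := pd3)
    rfl (fun _ => rfl) k0_pp_023_a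

noncomputable def f_pp_023_b : ℕ → ℕ → ℕ → ℕ → Bool := onCell 1610612736 536870912 1239849684 370763052 740881858 40050571
    (rowB 3 eng mog cd0q0 cd1q2b pd3 2 true true true .up 0 2 3 (qsf 0 536870912 1239849684 370763052 3) ndB0q0 ndB1q2b pcB3 Cut.none Ext.none)

def k0_pp_023_b : ∃ t, chk3 f_pp_023_b t 1 1 1 = true :=
  ⟨(a (b (a (b (a (b (a (b (b (l 16681712) (l 16663192)) (l 16633816)) (b (a (l 16688208) (l 16698912)) (l 16655648))) (a (b (l 16591680) (a (l 16538520) (l 16555664))) (b (l 16617656) (l 16577176)))) (b (a (a (b (l 16735968) (l 16630848)) (b (b (l 16729760) (l 16712088)) (l 16684624))) (a (b (b (l 16760672) (l 16723688)) (l 16696816)) (b (b (a (l 16770656) (a (l 16775000) (l 76470545175))) (l 16735368)) (l 16708864)))) (a (b (l 16641064) (l 16603520)) (a (l 16641176) (l 4))))) (a (b (a (l 16472696) (l 16510040)) (a (l 16365864) (b (l 16435632) (l 16383584)))) (a (b (l 16563992) (b (l 16476480) (l 16427384))) (l 4)))) (a (a (a (l 4) (l 4)) (l 4)) (l 4))) (a (b (a (b (a (l 16246536) (l 16300400)) (a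 (l 16125680) (l 16179480))) (a (b (l 16350624) (l 16239024)) (l 4))) (a (a (l 15993808) (l 16240776)) (a (a (l 16048152) (l 4)) (l 4)))) (l 4))) (l 4)), by decide +kernel⟩

theorem c_pp_023_b : CertB 0 536870912 1239849684 370763052 740881858 40050571 3 eng mog cd0q0 cd1q2b pd3 true true true .up 0 2 3
    ndB0q0 ndB1q2b pcB3 Cut.none Ext.none :=
  certB2 (fam := true) (s1 := true) (s2 := true) (a := 0) (b := 2) (c := 3) (cn := .up) (n1 := ndB0q0) (n2 := ndB1q2b) (pc := pcB3) (cut := Cut.none) (xt := Ext.none) (P1 := 0) (W1 := 536870912) (P2 := 1239849684) (W2 := 370763052) (P3 := 740881858) (W3 := 40050571) (N0 := 3) (En := eng) (mo := mog) (C1 := cd0q0) (C2 := cd1q2b) (C3 := pd3)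
    rfl (fun _ => rfl) k0_pp_023_b

noncomputable def f_pp_033 : ℕ → ℕ → ℕ → ℕ → Bool := onCell 0 536870912 1610612736 536870912 740881858 40050571
    (rowB 3 eng mog cd0q0 cd1q3 pd3 1 true true true .pnn 0 3 3 (qsf 0 536870912 1610612736 536870912 3) ndB0q0 ndB1q3 pcB3 Cut.none Ext.none)

def k0_pp_033 : ∃ t, chk3 f_pp_033 t 1 1 1 = true :=
  ⟨(b (a (b (a (b (a (l 15873024) (l 16034304)) (a (l 15844176) (l 15996976))) (b (l 1) (a (l 224981727319) (l 1)))) (l 4)) (b (l 1) (a (l 4) (l 1)))) (l 4)), by decide +kernel⟩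

theorem c_pp_033 : CertB 0 536870912 1610612736 536870912 740881858 40050571 3 eng mog cd0q0 cd1q3 pd3 true true true .pnn 0 3 3
    ndB0q0 ndB1q3 pcB3 Cut.none Ext.none :=
  certB1 (fam := true) (s1 := true) (s2 := true) (a := 0) (b := 3) (c := 3) (cn := .pnn) (n1 := ndB0q0) (n2 := ndB1q3) (pc := pcB3) (cut := Cut.none) (xt := Ext.none) (P1 := 0) (W1 := 536870912) (P2 := 1610612736) (W2 := 536870912) (P3 := 740881858) (W3 := 40050571) (N0 := 3) (En := eng) (mo := mog) (C1 := cd0q0) (C2 := cd1q3) (C3 := pd3)
    rfl (fun _ => rfl) k0_pp_033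

noncomputable def f_pp_101 : ℕ → ℕ → ℕ → ℕ → Bool := onCell 536870912 536870912 0 536870912 740881858 40050571
    (rowB 3 eng mog cd0q1 cd1q0 pd1 0 true true true .npn 1 0 1 (qsf 536870912 536870912 0 536870912 1) ndB0q1 ndB1q0 pcB1 Cut.none Ext.none)

def k0_pp_101 : ∃ t, chk3 f_pp_101 t 1 1 1 = true :=
  ⟨(a (l 4) (l 5)), by decide +kernel⟩

theorem c_pp_101 : CertB 536870912 536870912 0 536870912 740881858 40050571 3 eng mog cd0q1 cd1q0 pd1 true true true .npn 1 0 1
    ndB0q1 ndB1q0 pcB1 Cut.none Ext.none :=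
  certB0 (fam := true) (s1 := true) (s2 := true) (a := 1) (b := 0) (c := 1) (cn := .npn) (n1 := ndB0q1) (n2 := ndB1q0) (pc := pcB1) (cut := Cut.none) (xt := Ext.none) (P1 := 536870912) (W1 := 536870912) (P2 := 0) (W2 := 536870912) (P3 := 740881858) (W3 := 40050571) (N0 := 3) (En := eng) (mo := mog) (C1 := cd0q1) (C2 := cd1q0) (C3 := pd1)
    rfl k0_pp_101

noncomputable def f_pp_102 : ℕ → ℕ → ℕ → ℕ → Bool := onCell 536870912 536870912 0 536870912 740881858 40050571
    (rowB 3 eng mog cd0q1 cd1q0 pd2 0 true true true .npp 1 0 2 (qsf 536870912 536870912 0 536870912 2) ndB0q1 ndB1q0 pcB2 Cut.none Ext.none)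

def k0_pp_102 : ∃ t, chk3 f_pp_102 t 1 1 1 = true :=
  ⟨(a (l 4) (l 5)), by decide +kernel⟩

theorem c_pp_102 : CertB 536870912 536870912 0 536870912 740881858 40050571 3 eng mog cd0q1 cd1q0 pd2 true true true .npp 1 0 2
    ndB0q1 ndB1q0 pcB2 Cut.none Ext.none :=
  certB0 (fam := true) (s1 := true) (s2 := true) (a := 1) (b := 0) (c := 2) (cn := .npp) (n1 := ndB0q1) (n2 := ndB1q0) (pc := pcB2) (cut := Cut.none) (xt := Ext.none) (P1 := 536870912) (W1 := 536870912) (P2 := 0) (W2 := 536870912) (P3 := 740881858) (W3 := 40050571) (N0 := 3) (En := eng) (mo := mog) (C1 := cd0q1) (C2 := cd1q0) (C3 := pd2)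
    rfl k0_pp_102

noncomputable def f_pp_112 : ℕ → ℕ → ℕ → ℕ → Bool := onCell 536870912 536870912 536870912 536870912 740881858 40050571
    (rowB 3 eng mog cd0q1 cd1q1 pd2 0 true true true .dn 1 1 2 (qsf 536870912 536870912 536870912 536870912 2) ndB0q1 ndB1q1 pcB2 Cut.none Ext.none)

def k0_pp_112 : ∃ t, chk3 f_pp_112 t 1 1 1 = true :=
  ⟨(l 4), by decide +kernel⟩

theorem c_pp_112 : CertB 536870912 536870912 536870912 536870912 740881858 40050571 3 eng mog cd0q1 cd1q1 pd2 true true true .dn 1 1 2
    ndB0q1 ndB1q1 pcB2 Cut.none Ext.none :=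
  certB0 (fam := true) (s1 := true) (s2 := true) (a := 1) (b := 1) (c := 2) (cn := .dn) (n1 := ndB0q1) (n2 := ndB1q1) (pc := pcB2) (cut := Cut.none) (xt := Ext.none) (P1 := 536870912) (W1 := 536870912) (P2 := 536870912) (W2 := 536870912) (P3 := 740881858) (W3 := 40050571) (N0 := 3) (En := eng) (mo := mog) (C1 := cd0q1) (C2 := cd1q1) (C3 := pd2)
    rfl k0_pp_112

noncomputable def f_pp_113 : ℕ → ℕ → ℕ → ℕ → Bool := onCell 536870912 536870912 536870912 536870912 740881858 40050571
    (rowB 3 eng mog cd0q1 cd1q1 pd3 0 true true true .nn 1 1 3 (qsf 536870912 536870912 536870912 536870912 3) ndB0q1 ndB1q1 pcB3 Cut.none Ext.none)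

def k0_pp_113 : ∃ t, chk3 f_pp_113 t 1 1 1 = true :=
  ⟨(l 4), by decide +kernel⟩

theorem c_pp_113 : CertB 536870912 536870912 536870912 536870912 740881858 40050571 3 eng mog cd0q1 cd1q1 pd3 true true true .nn 1 1 3
    ndB0q1 ndB1q1 pcB3 Cut.none Ext.none :=
  certB0 (fam := true) (s1 := true) (s2 := true) (a := 1) (b := 1) (c := 3) (cn := .nn) (n1 := ndB0q1) (n2 := ndB1q1) (pc := pcB3) (cut := Cut.none) (xt := Ext.none) (P1 := 536870912) (W1 := 536870912) (P2 := 536870912) (W2 := 536870912) (P3 := 740881858) (W3 := 40050571) (N0 := 3) (En := eng) (mo := mog) (C1 := cd0q1) (C2 := cd1q1) (C3 := pd3)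
    rfl k0_pp_113

noncomputable def f_pp_123_a : ℕ → ℕ → ℕ → ℕ → Bool := onCell 536870912 536870912 0 536870912 740881858 40050571
    (rowB 3 eng mog cd0q1 cd1q2a pd3 0 true true true .npn 1 2 3 (qsf 536870912 536870912 0 536870912 3) ndB0q1 ndB1q2a pcB3 Cut.none Ext.none)

def k0_pp_123_a : ∃ t, chk3 f_pp_123_a t 1 1 1 = true :=
  ⟨(a (b (l 4) (l 4)) (l 4)), by decide +kernel⟩

theorem c_pp_123_a : CertB 536870912 536870912 0 536870912 740881858 40050571 3 eng mog cd0q1 cd1q2a pd3 true true true .npn 1 2 3
    ndB0q1 ndB1q2a pcB3 Cut.none Ext.none :=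
  certB0 (fam := true) (s1 := true) (s2 := true) (a := 1) (b := 2) (c := 3) (cn := .npn) (n1 := ndB0q1) (n2 := ndB1q2a) (pc := pcB3) (cut := Cut.none) (xt := Ext.none) (P1 := 536870912) (W1 := 536870912) (P2 := 0) (W2 := 536870912) (P3 := 740881858) (W3 := 40050571) (N0 := 3) (En := eng) (mo := mog) (C1 := cd0q1) (C2 := cd1q2a) (C3 := pd3)
    rfl k0_pp_123_a

noncomputable def f_pp_123_b : ℕ → ℕ → ℕ → ℕ → Bool := onCell 536870912 536870912 1239849684 370763052 740881858 40050571
    (rowB 3 eng mog cd0q1 cd1q2b pd3 0 true true true .npn 1 2 3 (qsf 536870912 536870912 1239849684 370763052 3) ndB0q1 ndB1q2b pcB3 Cut.none Ext.none)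

def k0_pp_123_b : ∃ t, chk3 f_pp_123_b t 1 1 1 = true :=
  ⟨(a (b (a (l 4) (l 4)) (l 4)) (l 4)), by decide +kernel⟩

theorem c_pp_123_b : CertB 536870912 536870912 1239849684 370763052 740881858 40050571 3 eng mog cd0q1 cd1q2b pd3 true true true .npn 1 2 3
    ndB0q1 ndB1q2b pcB3 Cut.none Ext.none :=
  certB0 (fam := true) (s1 := true) (s2 := true) (a := 1) (b := 2) (c := 3) (cn := .npn) (n1 := ndB0q1) (n2 := ndB1q2b) (pc := pcB3) (cut := Cut.none) (xt := Ext.none) (P1 := 536870912) (W1 := 536870912) (P2 := 1239849684) (W2 := 370763052) (P3 := 740881858) (W3 := 40050571) (N0 := 3) (En := eng) (mo := mog) (C1 := cd0q1) (C2 := cd1q2b) (C3 := pd3)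
    rfl k0_pp_123_b

noncomputable def f_pp_133 : ℕ → ℕ → ℕ → ℕ → Bool := onCell 536870912 536870912 1610612736 536870912 740881858 40050571
    (rowB 3 eng mog cd0q1 cd1q3 pd3 0 true true true .dn 1 3 3 (qsf 536870912 536870912 1610612736 536870912 3) ndB0q1 ndB1q3 pcB3 Cut.none Ext.none)

def k0_pp_133 : ∃ t, chk3 f_pp_133 t 1 1 1 = true :=
  ⟨(l 4), by decide +kernel⟩

theorem c_pp_133 : CertB 536870912 536870912 1610612736 536870912 740881858 40050571 3 eng mog cd0q1 cd1q3 pd3 true true true .dn 1 3 3
    ndB0q1 ndB1q3 pcB3 Cut.none Ext.none :=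
  certB0 (fam := true) (s1 := true) (s2 := true) (a := 1) (b := 3) (c := 3) (cn := .dn) (n1 := ndB0q1) (n2 := ndB1q3) (pc := pcB3) (cut := Cut.none) (xt := Ext.none) (P1 := 536870912) (W1 := 536870912) (P2 := 1610612736) (W2 := 536870912) (P3 := 740881858) (W3 := 40050571) (N0 := 3) (En := eng) (mo := mog) (C1 := cd0q1) (C2 := cd1q3) (C3 := pd3)
    rfl k0_pp_133

noncomputable def f_pp_202 : ℕ → ℕ → ℕ → ℕ → Bool := onCell 0 536870912 0 536870912 740881858 40050571
    (rowB 3 eng mog cd0q2 cd1q0 pd2 0 true true true .pp 2 0 2 (qsf 0 536870912 0 536870912 2) ndB0q2 ndB1q0 pcB2 Cut.none Ext.none)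

def k0_pp_202 : ∃ t, chk3 f_pp_202 t 1 1 1 = true :=
  ⟨(l 5), by decide +kernel⟩

theorem c_pp_202 : CertB 0 536870912 0 536870912 740881858 40050571 3 eng mog cd0q2 cd1q0 pd2 true true true .pp 2 0 2
    ndB0q2 ndB1q0 pcB2 Cut.none Ext.none :=
  certB0 (fam := true) (s1 := true) (s2 := true) (a := 2) (b := 0) (c := 2) (cn := .pp) (n1 := ndB0q2) (n2 := ndB1q0) (pc := pcB2) (cut := Cut.none) (xt := Ext.none) (P1 := 0) (W1 := 536870912) (P2 := 0) (W2 := 536870912) (P3 := 740881858) (W3 := 40050571) (N0 := 3) (En := eng) (mo := mog) (C1 := cd0q2) (C2 := cd1q0) (C3 := pd2)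
    rfl k0_pp_202

noncomputable def f_pp_203 : ℕ → ℕ → ℕ → ℕ → Bool := onCell 0 536870912 0 536870912 740881858 40050571
    (rowB 3 eng mog cd0q2 cd1q0 pd3 0 true true true .up 2 0 3 (qsf 0 536870912 0 536870912 3) ndB0q2 ndB1q0 pcB3 Cut.none Ext.none)

def k0_pp_203 : ∃ t, chk3 f_pp_203 t 1 1 1 = true :=
  ⟨(l 5), by decide +kernel⟩

theorem c_pp_203 : CertB 0 536870912 0 536870912 740881858 40050571 3 eng mog cd0q2 cd1q0 pd3 true true true .up 2 0 3
    ndB0q2 ndB1q0 pcB3 Cut.none Ext.none :=
  certB0 (fam := true) (s1 := true) (s2 := true) (a := 2) (b := 0) (c := 3) (cn := .up) (n1 := ndB0q2) (n2 := ndB1q0) (pc := pcB3) (cut := Cut.none) (xt := Ext.none) (P1 := 0) (W1 := 536870912) (P2 := 0) (W2 := 536870912) (P3 := 740881858) (W3 := 40050571) (N0 := 3) (En := eng) (mo := mog) (C1 := cd0q2) (C2 := cd1q0) (C3 := pd3)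
    rfl k0_pp_203

noncomputable def f_pp_213 : ℕ → ℕ → ℕ → ℕ → Bool := onCell 0 536870912 536870912 536870912 740881858 40050571
    (rowB 3 eng mog cd0q2 cd1q1 pd3 0 true true true .pnn 2 1 3 (qsf 0 536870912 536870912 536870912 3) ndB0q2 ndB1q1 pcB3 Cut.none Ext.none)

def k0_pp_213 : ∃ t, chk3 f_pp_213 t 1 1 1 = true :=
  ⟨(l 5), by decide +kernel⟩

theorem c_pp_213 : CertB 0 536870912 536870912 536870912 740881858 40050571 3 eng mog cd0q2 cd1q1 pd3 true true true .pnn 2 1 3
    ndB0q2 ndB1q1 pcB3 Cut.none Ext.none :=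
  certB0 (fam := true) (s1 := true) (s2 := true) (a := 2) (b := 1) (c := 3) (cn := .pnn) (n1 := ndB0q2) (n2 := ndB1q1) (pc := pcB3) (cut := Cut.none) (xt := Ext.none) (P1 := 0) (W1 := 536870912) (P2 := 536870912) (W2 := 536870912) (P3 := 740881858) (W3 := 40050571) (N0 := 3) (En := eng) (mo := mog) (C1 := cd0q2) (C2 := cd1q1) (C3 := pd3)
    rfl k0_pp_213

noncomputable def f_pm_001 : ℕ → ℕ → ℕ → ℕ → Bool := onCell 0 536870912 0 536870912 740881858 40050571
    (rowB 3 eng mog cd0q0 cd1q0 pd1 0 true true false .up 0 0 1 (qsf 0 536870912 0 536870912 1) ndB0q0 ndB1q0 pcB1 Cut.none Ext.none)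

def k0_pm_001 : ∃ t, chk3 f_pm_001 t 1 1 1 = true :=
  ⟨(l 3), by decide +kernel⟩

theorem c_pm_001 : CertB 0 536870912 0 536870912 740881858 40050571 3 eng mog cd0q0 cd1q0 pd1 true true false .up 0 0 1
    ndB0q0 ndB1q0 pcB1 Cut.none Ext.none :=
  certB0 (fam := true) (s1 := true) (s2 := false) (a := 0) (b := 0) (c := 1) (cn := .up) (n1 := ndB0q0) (n2 := ndB1q0) (pc := pcB1) (cut := Cut.none) (xt := Ext.none) (P1 := 0) (W1 := 536870912) (P2 := 0) (W2 := 536870912) (P3 := 740881858) (W3 := 40050571) (N0 := 3) (En := eng) (mo := mog) (C1 := cd0q0) (C2 := cd1q0) (C3 := pd1)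
    rfl k0_pm_001

noncomputable def f_pm_011 : ℕ → ℕ → ℕ → ℕ → Bool := onCell 0 536870912 536870912 536870912 740881858 40050571
    (rowB 3 eng mog cd0q0 cd1q1 pd1 1 true true false .pnn 0 1 1 (qsf 0 536870912 536870912 536870912 1) ndB0q0 ndB1q1 pcB1 Cut.none Ext.none)

def k0_pm_011 : ∃ t, chk3 f_pm_011 t 1 1 1 = true :=
  ⟨(l 3), by decide +kernel⟩

theorem c_pm_011 : CertB 0 536870912 536870912 536870912 740881858 40050571 3 eng mog cd0q0 cd1q1 pd1 true true false .pnn 0 1 1
    ndB0q0 ndB1q1 pcB1 Cut.none Ext.none :=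
  certB1 (fam := true) (s1 := true) (s2 := false) (a := 0) (b := 1) (c := 1) (cn := .pnn) (n1 := ndB0q0) (n2 := ndB1q1) (pc := pcB1) (cut := Cut.none) (xt := Ext.none) (P1 := 0) (W1 := 536870912) (P2 := 536870912) (W2 := 536870912) (P3 := 740881858) (W3 := 40050571) (N0 := 3) (En := eng) (mo := mog) (C1 := cd0q0) (C2 := cd1q1) (C3 := pd1)
    rfl (fun _ => rfl) k0_pm_011

noncomputable def f_pm_012 : ℕ → ℕ → ℕ → ℕ → Bool := onCell 1073741824 536870912 536870912 536870912 740881858 40050571
    (rowB 3 eng mog cd0q0 cd1q1 pd2 2 true true false .pnp 0 1 2 (qsf 0 536870912 536870912 536870912 2) ndB0q0 ndB1q1 pcB2 Cut.none Ext.none)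

def k0_pm_012 : ∃ t, chk3 f_pm_012 t 4 1 1 = true :=
  ⟨(b (l 3) (a (l 3) (b (l 3) (a (l 3) (b (l 3) (a (b (l 3) (a (l 3) (b (l 3) (a (b (l 3) (b (l 152638778551) (a (l 155323118375) (l 16600968)))) (b (a (l 16608520) (l 16606632)) (c (a (l 16603984) (l 16601560)) (a (l 16597160) (l 16594800)))))))) (b (a (b (l 3) (a (l 3) (b (l 3) (l 16626640)))) (b (a (l 3) (l 127942701927)) (a (b (l 16633256) (l 16624864)) (l 16648336)))) (a (b (a (b (l 16620296) (a (l 16612936) (l 16611360))) (b (l 16617976) (l 16608992))) (a (a (b (l 16604624) (l 16596032)) (b (l 16602680) (l 16594080))) (b (l 16600144) (c (l 16594888) (l 16588040))))) (b (a (b (l 16615696) (l 16606392)) (b (l 16613736) (l 16604288))) (a (b (l 16597344) (b (l 16590712) (l 16586280))) (b (l 16594712) (b (l 16587928) (l 16583312))))))))))))), by decide +kernel⟩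

def k1_pm_012 : ∃ t, chk3 f_pm_012 t 5 2 1 = true :=
  ⟨(a (a (a (b (b (l 2) (l 3)) (l 3)) (b (l 2) (a (l 3) (a (b (b (b (l 2) (l 3)) (l 3)) (l 3)) (b (a (a (b (l 8153597799) (l 3)) (b (l 16672296) (l 16670840))) (b (l 16671320) (l 16669616))) (a (a (l 3) (b (l 3) (l 16664600))) (b (l 16667264) (l 16663072)))))))) (b (l 2) (b (b (a (b (l 2) (l 16665112)) (l 2)) (a (b (l 16663440) (l 16661744)) (l 16650792))) (b (a (b (l 16659928) (l 16657944)) (l 16665776)) (a (l 16674912) (l 16638216)))))) (b (l 2) (b (a (b (l 2) (a (l 16640048) (l 2))) (l 2)) (b (a (a (l 16631792) (l 16619616)) (l 16667016)) (a (a (l 16643824) (l 16609000)) (l 16674576)))))), by decide +kernel⟩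

def k2_pm_012 : ∃ t, chk3 f_pm_012 t 20 6 1 = true :=
  ⟨(a (b (l 3) (l 3)) (a (b (l 3) (b (a (l 3) (c (b (a (l 3) (l 16653208)) (a (l 16671776) (c (l 16648904) (l 16647432)))) (b (l 16651528) (l 97341194359)))) (b (a (c (a (l 3) (l 67276409991)) (l 16648792)) (a (b (l 75866339335) (l 67813272919)) (c (l 16664960) (l 16641744)))) (a (c (a (l 168208143799) (b (l 16647184) (l 16645920))) (l 16667224)) (c (a (l 16659424) (l 16640768)) (l 16661432)))))) (a (b (b (l 3) (a (b (l 3) (l 16654272)) (b (l 16656160) (l 16672616)))) (a (a (b (b (l 16649728) (l 16644760)) (b (l 16640720) (l 16637632))) (b (b (l 16648424) (l 16643432)) (b (l 16639344) (l 16636192)))) (b (b (c (l 16648008) (l 16645080)) (c (l 16642840) (l 16640192))) (b (c (l 16638496) (l 16636184)) (c (l 16635032) (l 16633080)))))) (b (a (a (b (l 16680936) (b (l 16654352) (l 16649832))) (b (l 16658872) (l 16672032))) (b (l 16657208) (l 16649320))) (a (a (b (b (l 16644680) (l 16639528)) (b (l 16635208) (l 16631832))) (b (b (l 16643488) (l 16638256)) (b (c (l 16635136)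 (l 16632688)) (c (l 16652472) (l 16629544))))) (a (a (a (b (b (l 16642744) (l 16637456)) (b (l 16633008) (l 16629656))) (b (b (l 16642432) (c (l 16638576) (l 16635752))) (b (l 16632688) (l 16650328)))) (b (b (l 16641984) (l 16636608)) (b (l 16632184) (l 16628856)))) (b (b (l 16641080) (l 16635664)) (b (l 16631160) (l 16627768))))))))), by decide +kernel⟩

def k3_pm_012 : ∃ t, chk3 f_pm_012 t 21 6 1 = true :=
  ⟨(a (a (b (b (l 16672608) (l 16664432)) (b (b (l 16656608) (c (l 16631744) (l 16628608))) (b (c (l 16626528) (l 16623880)) (c (l 16622464) (l 16620376))))) (b (b (l 16642864) (l 16655056)) (b (b (l 16626296) (l 16620384)) (b (l 16614760) (l 16610280))))) (b (b (l 16650928) (b (l 16622920) (l 16617792))) (b (b (l 16612304) (a (l 16610848) (l 16601640))) (b (c (l 16622984) (l 16598136)) (c (l 16617128) (l 16592816)))))), by decide +kernel⟩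

def k4_pm_012 : ∃ t, chk3 f_pm_012 t 40 7 1 = true :=
  ⟨(b (a (b (l 3) (a (b (l 3) (l 16654176)) (a (l 18421215271) (l 16687472)))) (b (a (b (l 3) (l 304036464743)) (b (c (b (l 16652272) (l 16651152)) (l 16650432)) (c (l 16649608) (l 16648944)))) (a (b (l 16653824) (l 16647560)) (b (l 16647928) (l 16643280))))) (a (b (a (b (l 16620280) (l 16625224)) (b (l 16638296) (l 16622424))) (b (a (b (l 16611680) (l 16601896)) (b (l 16609056) (l 16599392))) (b (a (l 16592200) (l 16589248)) (a (l 16582416) (l 16579184))))) (b (a (b (l 16634784) (l 16619344)) (b (l 16630944) (l 16616032))) (b (b (l 16604392) (l 16594808)) (b (l 16584648) (l 16595352)))))), by decide +kernel⟩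

def k5_pm_012 : ∃ t, chk3 f_pm_012 t 41 7 1 = true :=
  ⟨(a (b (b (a (b (c (a (l 16647232) (l 16644296)) (l 16644464)) (c (l 16643736) (l 16643096))) (b (c (a (l 16641312) (l 16638392)) (l 16638528)) (a (l 16638960) (l 16635976)))) (a (b (l 16642056) (l 16638968)) (b (l 16636144) (l 16634536)))) (b (a (b (l 16627104) (l 16612072)) (b (l 16622288) (l 16607952))) (b (a (l 16594608) (l 16590944)) (b (l 16578200) (l 16567792))))) (a (b (a (b (b (l 16655664) (l 16632992)) (l 16631632)) (b (b (c (l 16632496) (l 16631016)) (l 16630128)) (l 16628968))) (b (b (l 16617320) (l 16603504)) (b (l 16587040) (b (l 16573216) (l 16564176))))) (b (a (a (b (b (l 16629576) (l 16628120)) (l 16627008)) (b (b (c (l 16628968) (l 16627640)) (l 16626840)) (b (l 16625936) (l 16623800)))) (a (b (b (a (a (l 16627448) (a (l 16627240) (l 16627120))) (l 16626672)) (b (l 16646840) (l 16625304))) (b (l 16624728) (l 16622080))) (b (b (l 16625536) (l 16624168)) (l 16623200)))) (b (a (b (l 16613208) (l 16620864)) (a (b (l 16611016) (a (a (l 16598440) (b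 (l 16601512) (l 16594712))) (l 16597880))) (b (l 16609856) (l 16597336)))) (a (a (b (l 16584576) (l 16568656)) (b (l 16584296) (l 16570424))) (a (a (a (b (l 16584576) (l 16572216)) (b (a (l 16585400) (l 16586384)) (l 16594736))) (b (l 16586704) (l 16574576))) (b (l 16586224) (l 16574168)))))))), by decide +kernel⟩

def k6_pm_012 : ∃ t, chk3 f_pm_012 t 21 7 1 = true :=
  ⟨(b (b (a (a (b (c (l 16619592) (l 16618112)) (b (l 16617512) (l 16616936))) (b (l 16627984) (l 16626000))) (b (c (l 16612568) (l 16588824)) (c (l 16609456) (l 16586288)))) (b (a (l 16610144) (c (l 16649416) (l 16584920))) (a (l 16609856) (l 16585296)))) (b (a (b (l 16602896) (l 16601288)) (a (l 16639680) (l 16580032))) (a (a (b (l 16562296) (a (l 16572792) (l 16570528))) (b (l 16556752) (l 16546000))) (b (l 16568512) (a (l 16540968) (l 16556512)))))), by decide +kernel⟩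

def k7_pm_012 : ∃ t, chk3 f_pm_012 t 11 3 1 = true :=
  ⟨(b (b (a (b (a (l 16613552) (l 16598056)) (b (l 16597120) (l 16612216))) (b (a (l 16583144) (l 16569888)) (l 16583344))) (a (b (b (l 16606088) (a (l 16587848) (l 16569824))) (a (b (a (l 16585856) (l 16576752)) (c (l 16577000) (l 16572728))) (b (l 16563136) (l 16619112)))) (a (b (l 16597952) (b (l 16545360) (l 16538400))) (b (l 16539656) (b (l 16528264) (l 16520848)))))) (b (b (a (a (b (c (l 16571056) (l 16567312)) (c (l 16566560) (l 16563344))) (b (c (l 16552120) (l 16547512)) (c (l 16546312) (l 16542160)))) (a (b (l 16594344) (l 16567208)) (b (l 16513824) (l 16548960)))) (a (a (b (a (l 16568112) (l 16556704)) (l 16561304)) (b (l 16561384) (a (l 16543960) (l 16532736)))) (a (b (l 16541024) (l 16537672)) (b (l 16543168) (l 16517600))))) (b (a (b (a (l 16561632) (l 16538048)) (a (l 16563144) (l 16539496))) (b (a (l 16515504) (c (l 16496416) (l 16491168))) (a (c (l 16518264) (l 16513672)) (l 16494160)))) (a (a (b (l 16555344) (l 16547480)) (b (l 16540232) (l 16534576)))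 (a (b (l 16517408) (l 16516728)) (b (a (l 16500528) (l 16489560)) (l 16494536))))))), by decide +kernel⟩

def k8_pm_012 : ∃ t, chk3 f_pm_012 t 3 1 1 = true :=
  ⟨(b (a (b (l 2) (a (b (l 2) (a (b (l 2) (l 16570312)) (l 2))) (l 2))) (l 2)) (b (a (a (b (b (a (l 16573656) (l 16534248)) (a (l 16618368) (l 16512520))) (b (a (l 16517088) (l 16532736)) (a (b (l 16546056) (a (l 16503976) (l 16487888))) (l 16512528)))) (b (b (l 2) (a (l 16496272) (l 2))) (b (a (l 16470624) (l 16456600)) (a (b (l 16451832) (l 16439992)) (l 16427376))))) (b (l 2) (a (b (l 2) (a (l 16415448) (l 2))) (l 2)))) (a (a (b (a (a (b (b (l 16496472) (l 16489576)) (b (l 16525104) (c (l 16480472) (l 16474808)))) (b (b (l 16479800) (l 16472400)) (c (b (l 16468584) (l 16462672)) (l 16501104)))) (b (b (l 16456368) (l 16447968)) (b (l 16440568) (l 16497272)))) (b (a (a (b (c (l 16476856) (l 16470960)) (l 16473112)) (b (c (l 16458488) (l 16452360)) (l 16456160))) (a (b (l 16438152) (l 16435272)) (b (l 16421040) (l 16417600)))) (a (a (c (b (l 16476616) (l 16476136))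 (l 16489920)) (c (b (l 16456304) (l 16455600)) (l 16469216))) (a (b (l 16434016) (l 16432344)) (b (l 16416096) (l 16413976)))))) (a (b (b (l 16444680) (b (l 16409520) (l 16401904))) (a (b (b (l 16404176) (l 16400528)) (b (l 16398648) (l 16396752))) (b (l 16385640) (b (l 16381680) (l 16379960))))) (b (b (b (l 16406744) (l 16394096)) (l 16377760)) (b (b (l 16365152) (l 16359584)) (b (l 16356616) (l 16355344)))))) (b (a (b (a (l 16404208) (l 16373072)) (a (b (l 16361608) (l 16349136)) (l 16338976))) (b (l 2) (a (l 16330016) (l 2)))) (a (b (a (l 16334392) (b (l 16317840) (l 16306720))) (a (b (l 16325512) (l 16323528)) (l 16296224))) (b (a (l 16295904) (l 16287320)) (a (b (l 16277272) (l 16269672)) (l 16402968)))))))), by decide +kernel⟩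

theorem s9_pm_012 : ∃ t, chk3 f_pm_012 t 20 7 1 = true := ex3_a k4_pm_012 k5_pm_012

theorem s10_pm_012 : ∃ t, chk3 f_pm_012 t 10 7 1 = true := ex3_a s9_pm_012 k6_pm_012

theorem s11_pm_012 : ∃ t, chk3 f_pm_012 t 10 6 1 = true := ex3_a k2_pm_012 k3_pm_012

theorem s12_pm_012 : ∃ t, chk3 f_pm_012 t 10 3 1 = true := ex3_b s11_pm_012 s10_pm_012

theorem s13_pm_012 : ∃ t, chk3 f_pm_012 t 5 3 1 = true := ex3_a s12_pm_012 k7_pm_012

theorem s14_pm_012 : ∃ t, chk3 f_pm_012 t 5 1 1 = true := ex3_b k1_pm_012 s13_pm_012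

theorem s15_pm_012 : ∃ t, chk3 f_pm_012 t 2 1 1 = true := ex3_a k0_pm_012 s14_pm_012

theorem s16_pm_012 : ∃ t, chk3 f_pm_012 t 1 1 1 = true := ex3_a s15_pm_012 k8_pm_012

theorem c_pm_012 : CertB 0 536870912 536870912 536870912 740881858 40050571 3 eng mog cd0q0 cd1q1 pd2 true true false .pnp 0 1 2
    ndB0q0 ndB1q1 pcB2 Cut.none Ext.none :=
  certB2 (fam := true) (s1 := true) (s2 := false) (a := 0) (b := 1) (c := 2) (cn := .pnp) (n1 := ndB0q0) (n2 := ndB1q1) (pc := pcB2) (cut := Cut.none) (xt := Ext.none) (P1 := 0) (W1 := 536870912) (P2 := 536870912) (W2 := 536870912) (P3 := 740881858) (W3 := 40050571) (N0 := 3) (En := eng) (mo := mog) (C1 := cd0q0) (C2 := cd1q1) (C3 := pd2)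
    rfl (fun _ => rfl) s16_pm_012

end Pool.Agent.Strip051.G.I69_7273.Tab.C.BA01

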