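import Pool.Agent.Strip051.G.I69_7273.Tab

/-! # Certificates B5 (generated) -/

set_option linter.all false
set_option maxRecDepth 100000

namespace Pool.Agent.Strip051.G.I69_7273.Tab.C.BA01

open Pool.Agent.Strip051.PB Pool.Agent.Strip051.PB.T
open Pool.Agent.Strip051.G.I69_7273.Tab

noncomputable def f_pm_203 : ℕ → ℕ → ℕ → ℕ → Bool := onCell 0 536870912 1610612736 536870912 740881858 40050571
    (rowB 3 eng mog cd0q2 cd1q0 pd3 1 true true false .up 2 0 3 (qsf 0 536870912 0 536870912 3) ndB0q2 ndB1q0 pcB3 Cut.none Ext.none)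

def k0_pm_203 : ∃ t, chk3 f_pm_203 t 1 1 1 = true :=
  ⟨(b (b (a (a (b (a (l 16667128) (l 16638800)) (a (l 16712136) (l 16684488))) (b (a (l 16609776) (l 16585328)) (a (l 16653848) (l 16625072)))) (a (b (a (l 16551552) (l 16500664)) (a (l 16588912) (l 16535688))) (a (b (l 16432384) (l 16468784)) (b (a (l 16377320) (l 16339808)) (l 2))))) (b (a (a (b (l 16727360) (l 16744064)) (a (l 16716056) (l 16667648))) (a (l 2) (l 2))) (a (l 2) (l 2)))) (l 2)), by decide +kernel⟩

theorem c_pm_203 : CertB 0 536870912 0 536870912 740881858 40050571 3 eng mog cd0q2 cd1q0 pd3 true true false .up 2 0 3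
    ndB0q2 ndB1q0 pcB3 Cut.none Ext.none :=
  certB1 (fam := true) (s1 := true) (s2 := false) (a := 2) (b := 0) (c := 3) (cn := .up) (n1 := ndB0q2) (n2 := ndB1q0) (pc := pcB3) (cut := Cut.none) (xt := Ext.none) (P1 := 0) (W1 := 536870912) (P2 := 0) (W2 := 536870912) (P3 := 740881858) (W3 := 40050571) (N0 := 3) (En := eng) (mo := mog) (C1 := cd0q2) (C2 := cd1q0) (C3 := pd3)
    rfl (fun _ => rfl) k0_pm_203

noncomputable def f_pm_213 : ℕ → ℕ → ℕ → ℕ → Bool := onCell 0 536870912 1610612736 536870912 740881858 40050571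
    (rowB 3 eng mog cd0q2 cd1q1 pd3 1 true true false .pnn 2 1 3 (qsf 0 536870912 536870912 536870912 3) ndB0q2 ndB1q1 pcB3 Cut.none Ext.none)

def k0_pm_213 : ∃ t, chk3 f_pm_213 t 1 1 1 = true :=
  ⟨(a (b (b (a (l 1) (b (l 1) (a (l 1) (l 16656360)))) (a (b (a (b (l 16708200) (l 16705384)) (l 16828616)) (a (b (l 16701640) (l 4)) (l 16826488))) (a (b (l 16712768) (l 16745888)) (b (l 16694424) (l 16742288))))) (b (a (l 4) (a (b (b (l 16735312) (l 16693520)) (l 4)) (b (l 16955200) (b (l 16727256) (l 16793208))))) (l 4))) (b (b (a (b (l 1) (a (l 16621872) (l 16570392))) (a (b (l 16463888) (l 16506872)) (b (a (l 16405872) (l 16367496)) (a (l 16462064) (l 16434232))))) (b (a (a (l 16689584) (l 16653984)) (a (b (l 16569928) (l 16627408)) (b (l 16542280) (a (l 16626560) (l 16639568))))) (a (a (l 16734248) (b (l 16699432) (l 16754776))) (a (b (l 16692288) (l 16775264)) (b (l 16730080) (b (l 16811272) (l 16817968))))))) (b (a (b (a (l 16816248) (b (l 16824968) (l 16893744)))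 (b (a (l 16774808) (l 16849384)) (a (l 16747080) (l 16811080)))) (b (a (b (l 16852968) (l 16879040)) (b (l 16850912) (b (l 16882504) (l 16897416)))) (b (a (l 16884272) (l 16895040)) (a (l 16881360) (l 16880832))))) (a (b (b (a (l 89355618887) (l 16779736)) (a (l 4) (b (l 16755448) (l 16736720)))) (l 4)) (a (b (b (l 16886160) (b (l 16820624) (l 16806400))) (b (b (l 16959784) (l 150022185031)) (l 4))) (a (b (b (l 16865032) (l 16844128)) (b (b (l 16818496) (l 16797248)) (b (l 310009739399) (l 4)))) (b (b (l 16862792) (l 16840272)) (b (b (l 16819856) (l 16795488)) (b (b (l 16777680) (l 16787656)) (l 4)))))))))), by decide +kernel⟩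

theorem c_pm_213 : CertB 0 536870912 536870912 536870912 740881858 40050571 3 eng mog cd0q2 cd1q1 pd3 true true false .pnn 2 1 3
    ndB0q2 ndB1q1 pcB3 Cut.none Ext.none :=
  certB1 (fam := true) (s1 := true) (s2 := false) (a := 2) (b := 1) (c := 3) (cn := .pnn) (n1 := ndB0q2) (n2 := ndB1q1) (pc := pcB3) (cut := Cut.none) (xt := Ext.none) (P1 := 0) (W1 := 536870912) (P2 := 536870912) (W2 := 536870912) (P3 := 740881858) (W3 := 40050571) (N0 := 3) (En := eng) (mo := mog) (C1 := cd0q2) (C2 := cd1q1) (C3 := pd3)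
    rfl (fun _ => rfl) k0_pm_213

noncomputable def f_mm_001 : ℕ → ℕ → ℕ → ℕ → Bool := onCell 0 536870912 0 536870912 740881858 40050571
    (rowB 3 eng mog cd0q0 cd1q0 pd1 0 true false false .up 0 0 1 (qsf 0 536870912 0 536870912 1) ndB0q0 ndB1q0 pcB1 Cut.none Ext.none)

def k0_mm_001 : ∃ t, chk3 f_mm_001 t 1 1 1 = true :=
  ⟨(l 4), by decide +kernel⟩

theorem c_mm_001 : CertB 0 536870912 0 536870912 740881858 40050571 3 eng mog cd0q0 cd1q0 pd1 true false false .up 0 0 1
    ndB0q0 ndB1q0 pcB1 Cut.none Ext.none :=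
  certB0 (fam := true) (s1 := false) (s2 := false) (a := 0) (b := 0) (c := 1) (cn := .up) (n1 := ndB0q0) (n2 := ndB1q0) (pc := pcB1) (cut := Cut.none) (xt := Ext.none) (P1 := 0) (W1 := 536870912) (P2 := 0) (W2 := 536870912) (P3 := 740881858) (W3 := 40050571) (N0 := 3) (En := eng) (mo := mog) (C1 := cd0q0) (C2 := cd1q0) (C3 := pd1)
    rfl k0_mm_001

noncomputable def f_mm_011 : ℕ → ℕ → ℕ → ℕ → Bool := onCell 0 536870912 536870912 536870912 740881858 40050571
    (rowB 3 eng mog cd0q0 cd1q1 pd1 0 true false false .pnn 0 1 1 (qsf 0 536870912 536870912 536870912 1) ndB0q0 ndB1q1 pcB1 Cut.none Ext.none)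

def k0_mm_011 : ∃ t, chk3 f_mm_011 t 1 1 1 = true :=
  ⟨(l 4), by decide +kernel⟩

theorem c_mm_011 : CertB 0 536870912 536870912 536870912 740881858 40050571 3 eng mog cd0q0 cd1q1 pd1 true false false .pnn 0 1 1
    ndB0q0 ndB1q1 pcB1 Cut.none Ext.none :=
  certB0 (fam := true) (s1 := false) (s2 := false) (a := 0) (b := 1) (c := 1) (cn := .pnn) (n1 := ndB0q0) (n2 := ndB1q1) (pc := pcB1) (cut := Cut.none) (xt := Ext.none) (P1 := 0) (W1 := 536870912) (P2 := 536870912) (W2 := 536870912) (P3 := 740881858) (W3 := 40050571) (N0 := 3) (En := eng) (mo := mog) (C1 := cd0q0) (C2 := cd1q1) (C3 := pd1)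
    rfl k0_mm_011

noncomputable def f_mm_012 : ℕ → ℕ → ℕ → ℕ → Bool := onCell 0 536870912 536870912 536870912 740881858 40050571
    (rowB 3 eng mog cd0q0 cd1q1 pd2 0 true false false .pnp 0 1 2 (qsf 0 536870912 536870912 536870912 2) ndB0q0 ndB1q1 pcB2 Cut.none Ext.none)

def k0_mm_012 : ∃ t, chk3 f_mm_012 t 1 1 1 = true :=
  ⟨(l 4), by decide +kernel⟩

theorem c_mm_012 : CertB 0 536870912 536870912 536870912 740881858 40050571 3 eng mog cd0q0 cd1q1 pd2 true false false .pnp 0 1 2
    ndB0q0 ndB1q1 pcB2 Cut.none Ext.none :=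
  certB0 (fam := true) (s1 := false) (s2 := false) (a := 0) (b := 1) (c := 2) (cn := .pnp) (n1 := ndB0q0) (n2 := ndB1q1) (pc := pcB2) (cut := Cut.none) (xt := Ext.none) (P1 := 0) (W1 := 536870912) (P2 := 536870912) (W2 := 536870912) (P3 := 740881858) (W3 := 40050571) (N0 := 3) (En := eng) (mo := mog) (C1 := cd0q0) (C2 := cd1q1) (C3 := pd2)
    rfl k0_mm_012

noncomputable def f_mm_022_a : ℕ → ℕ → ℕ → ℕ → Bool := onCell 0 536870912 0 536870912 740881858 40050571
    (rowB 3 eng mog cd0q0 cd1q2a pd2 0 true false false .pp 0 2 2 (qsf 0 536870912 0 536870912 2) ndB0q0 ndB1q2a pcB2 Cut.none Ext.none)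

def k0_mm_022_a : ∃ t, chk3 f_mm_022_a t 1 1 1 = true :=
  ⟨(l 5), by decide +kernel⟩

theorem c_mm_022_a : CertB 0 536870912 0 536870912 740881858 40050571 3 eng mog cd0q0 cd1q2a pd2 true false false .pp 0 2 2
    ndB0q0 ndB1q2a pcB2 Cut.none Ext.none :=
  certB0 (fam := true) (s1 := false) (s2 := false) (a := 0) (b := 2) (c := 2) (cn := .pp) (n1 := ndB0q0) (n2 := ndB1q2a) (pc := pcB2) (cut := Cut.none) (xt := Ext.none) (P1 := 0) (W1 := 536870912) (P2 := 0) (W2 := 536870912) (P3 := 740881858) (W3 := 40050571) (N0 := 3) (En := eng) (mo := mog) (C1 := cd0q0) (C2 := cd1q2a) (C3 := pd2)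
    rfl k0_mm_022_a

noncomputable def f_mm_022_b : ℕ → ℕ → ℕ → ℕ → Bool := onCell 0 536870912 1239849684 370763052 740881858 40050571
    (rowB 3 eng mog cd0q0 cd1q2b pd2 0 true false false .pp 0 2 2 (qsf 0 536870912 1239849684 370763052 2) ndB0q0 ndB1q2b pcB2 Cut.none Ext.none)

def k0_mm_022_b : ∃ t, chk3 f_mm_022_b t 1 1 1 = true :=
  ⟨(l 5), by decide +kernel⟩

theorem c_mm_022_b : CertB 0 536870912 1239849684 370763052 740881858 40050571 3 eng mog cd0q0 cd1q2b pd2 true false false .pp 0 2 2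
    ndB0q0 ndB1q2b pcB2 Cut.none Ext.none :=
  certB0 (fam := true) (s1 := false) (s2 := false) (a := 0) (b := 2) (c := 2) (cn := .pp) (n1 := ndB0q0) (n2 := ndB1q2b) (pc := pcB2) (cut := Cut.none) (xt := Ext.none) (P1 := 0) (W1 := 536870912) (P2 := 1239849684) (W2 := 370763052) (P3 := 740881858) (W3 := 40050571) (N0 := 3) (En := eng) (mo := mog) (C1 := cd0q0) (C2 := cd1q2b) (C3 := pd2)
    rfl k0_mm_022_b

noncomputable def f_mm_023_a : ℕ → ℕ → ℕ → ℕ → Bool := onCell 0 536870912 0 536870912 740881858 40050571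
    (rowB 3 eng mog cd0q0 cd1q2a pd3 0 true false false .up 0 2 3 (qsf 0 536870912 0 536870912 3) ndB0q0 ndB1q2a pcB3 Cut.none Ext.none)

def k0_mm_023_a : ∃ t, chk3 f_mm_023_a t 1 1 1 = true :=
  ⟨(l 5), by decide +kernel⟩

theorem c_mm_023_a : CertB 0 536870912 0 536870912 740881858 40050571 3 eng mog cd0q0 cd1q2a pd3 true false false .up 0 2 3
    ndB0q0 ndB1q2a pcB3 Cut.none Ext.none :=
  certB0 (fam := true) (s1 := false) (s2 := false) (a := 0) (b := 2) (c := 3) (cn := .up) (n1 := ndB0q0) (n2 := ndB1q2a) (pc := pcB3) (cut := Cut.none) (xt := Ext.none) (P1 := 0) (W1 := 536870912) (P2 := 0) (W2 := 536870912) (P3 := 740881858) (W3 := 40050571) (N0 := 3) (En := eng) (mo := mog) (C1 := cd0q0) (C2 := cd1q2a) (C3 := pd3)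
    rfl k0_mm_023_a

noncomputable def f_mm_023_b : ℕ → ℕ → ℕ → ℕ → Bool := onCell 0 536870912 1239849684 370763052 740881858 40050571
    (rowB 3 eng mog cd0q0 cd1q2b pd3 0 true false false .up 0 2 3 (qsf 0 536870912 1239849684 370763052 3) ndB0q0 ndB1q2b pcB3 Cut.none Ext.none)

def k0_mm_023_b : ∃ t, chk3 f_mm_023_b t 1 1 1 = true :=
  ⟨(l 5), by decide +kernel⟩

theorem c_mm_023_b : CertB 0 536870912 1239849684 370763052 740881858 40050571 3 eng mog cd0q0 cd1q2b pd3 true false false .up 0 2 3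
    ndB0q0 ndB1q2b pcB3 Cut.none Ext.none :=
  certB0 (fam := true) (s1 := false) (s2 := false) (a := 0) (b := 2) (c := 3) (cn := .up) (n1 := ndB0q0) (n2 := ndB1q2b) (pc := pcB3) (cut := Cut.none) (xt := Ext.none) (P1 := 0) (W1 := 536870912) (P2 := 1239849684) (W2 := 370763052) (P3 := 740881858) (W3 := 40050571) (N0 := 3) (En := eng) (mo := mog) (C1 := cd0q0) (C2 := cd1q2b) (C3 := pd3)
    rfl k0_mm_023_b

noncomputable def f_mm_033 : ℕ → ℕ → ℕ → ℕ → Bool := onCell 0 536870912 1610612736 536870912 740881858 40050571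
    (rowB 3 eng mog cd0q0 cd1q3 pd3 0 true false false .pnn 0 3 3 (qsf 0 536870912 1610612736 536870912 3) ndB0q0 ndB1q3 pcB3 Cut.none Ext.none)

def k0_mm_033 : ∃ t, chk3 f_mm_033 t 1 1 1 = true :=
  ⟨(l 5), by decide +kernel⟩

theorem c_mm_033 : CertB 0 536870912 1610612736 536870912 740881858 40050571 3 eng mog cd0q0 cd1q3 pd3 true false false .pnn 0 3 3
    ndB0q0 ndB1q3 pcB3 Cut.none Ext.none :=
  certB0 (fam := true) (s1 := false) (s2 := false) (a := 0) (b := 3) (c := 3) (cn := .pnn) (n1 := ndB0q0) (n2 := ndB1q3) (pc := pcB3) (cut := Cut.none) (xt := Ext.none) (P1 := 0) (W1 := 536870912) (P2 := 1610612736) (W2 := 536870912) (P3 := 740881858) (W3 := 40050571) (N0 := 3) (En := eng) (mo := mog) (C1 := cd0q0) (C2 := cd1q3) (C3 := pd3)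
    rfl k0_mm_033

noncomputable def cut_mm_101 : Cut := Cut.of [[⟨0, 1, 0, 67108864⟩, ⟨1, 0, 0, 67108864⟩, ⟨2, 1, 0, 67108864⟩]]

noncomputable def f_mm_101 : ℕ → ℕ → ℕ → ℕ → Bool := onCell 536870912 536870912 0 536870912 740881858 40050571
    (rowB 3 eng mog cd0q1 cd1q0 pd1 0 true false false .npn 1 0 1 (qsf 536870912 536870912 0 536870912 1) ndB0q1 ndB1q0 pcB1 cut_mm_101 Ext.none)

def k0_mm_101 : ∃ t, chk3 f_mm_101 t 1 1 1 = true :=
  ⟨(a (l 4) (b (a (l 4) (b (a (l 4) (b (a (l 4) (b (l 6) (l 4))) (l 4))) (l 4))) (l 4))), by decide +kernel⟩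

theorem c_mm_101 : CertB 536870912 536870912 0 536870912 740881858 40050571 3 eng mog cd0q1 cd1q0 pd1 true false false .npn 1 0 1
    ndB0q1 ndB1q0 pcB1 cut_mm_101 Ext.none :=
  certB0 (fam := true) (s1 := false) (s2 := false) (a := 1) (b := 0) (c := 1) (cn := .npn) (n1 := ndB0q1) (n2 := ndB1q0) (pc := pcB1) (cut := cut_mm_101) (xt := Ext.none) (P1 := 536870912) (W1 := 536870912) (P2 := 0) (W2 := 536870912) (P3 := 740881858) (W3 := 40050571) (N0 := 3) (En := eng) (mo := mog) (C1 := cd0q1) (C2 := cd1q0) (C3 := pd1)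
    rfl k0_mm_101

noncomputable def cut_mm_102 : Cut := Cut.of [[⟨0, 1, 0, 67108864⟩, ⟨1, 0, 0, 67108864⟩, ⟨2, 1, 0, 67108864⟩]]

noncomputable def f_mm_102 : ℕ → ℕ → ℕ → ℕ → Bool := onCell 536870912 536870912 0 536870912 740881858 40050571
    (rowB 3 eng mog cd0q1 cd1q0 pd2 0 true false false .npp 1 0 2 (qsf 536870912 536870912 0 536870912 2) ndB0q1 ndB1q0 pcB2 cut_mm_102 Ext.none)

def k0_mm_102 : ∃ t, chk3 f_mm_102 t 1 1 1 = true :=
  ⟨(a (l 4) (b (a (l 4) (b (a (l 4) (b (a (l 4) (b (l 6) (l 4))) (l 4))) (l 4))) (l 4))), by decide +kernel⟩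

theorem c_mm_102 : CertB 536870912 536870912 0 536870912 740881858 40050571 3 eng mog cd0q1 cd1q0 pd2 true false false .npp 1 0 2
    ndB0q1 ndB1q0 pcB2 cut_mm_102 Ext.none :=
  certB0 (fam := true) (s1 := false) (s2 := false) (a := 1) (b := 0) (c := 2) (cn := .npp) (n1 := ndB0q1) (n2 := ndB1q0) (pc := pcB2) (cut := cut_mm_102) (xt := Ext.none) (P1 := 536870912) (W1 := 536870912) (P2 := 0) (W2 := 536870912) (P3 := 740881858) (W3 := 40050571) (N0 := 3) (En := eng) (mo := mog) (C1 := cd0q1) (C2 := cd1q0) (C3 := pd2)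
    rfl k0_mm_102

noncomputable def f_mm_112 : ℕ → ℕ → ℕ → ℕ → Bool := onCell 536870912 536870912 536870912 536870912 740881858 40050571
    (rowB 3 eng mog cd0q1 cd1q1 pd2 0 true false false .dn 1 1 2 (qsf 536870912 536870912 536870912 536870912 2) ndB0q1 ndB1q1 pcB2 Cut.none Ext.none)

def k0_mm_112 : ∃ t, chk3 f_mm_112 t 1 1 1 = true :=
  ⟨(l 4), by decide +kernel⟩

theorem c_mm_112 : CertB 536870912 536870912 536870912 536870912 740881858 40050571 3 eng mog cd0q1 cd1q1 pd2 true false false .dn 1 1 2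
    ndB0q1 ndB1q1 pcB2 Cut.none Ext.none :=
  certB0 (fam := true) (s1 := false) (s2 := false) (a := 1) (b := 1) (c := 2) (cn := .dn) (n1 := ndB0q1) (n2 := ndB1q1) (pc := pcB2) (cut := Cut.none) (xt := Ext.none) (P1 := 536870912) (W1 := 536870912) (P2 := 536870912) (W2 := 536870912) (P3 := 740881858) (W3 := 40050571) (N0 := 3) (En := eng) (mo := mog) (C1 := cd0q1) (C2 := cd1q1) (C3 := pd2)
    rfl k0_mm_112

noncomputable def f_mm_113 : ℕ → ℕ → ℕ → ℕ → Bool := onCell 536870912 536870912 536870912 536870912 740881858 40050571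
    (rowB 3 eng mog cd0q1 cd1q1 pd3 0 true false false .nn 1 1 3 (qsf 536870912 536870912 536870912 536870912 3) ndB0q1 ndB1q1 pcB3 Cut.none Ext.none)

def k0_mm_113 : ∃ t, chk3 f_mm_113 t 1 1 1 = true :=
  ⟨(l 4), by decide +kernel⟩

theorem c_mm_113 : CertB 536870912 536870912 536870912 536870912 740881858 40050571 3 eng mog cd0q1 cd1q1 pd3 true false false .nn 1 1 3
    ndB0q1 ndB1q1 pcB3 Cut.none Ext.none :=
  certB0 (fam := true) (s1 := false) (s2 := false) (a := 1) (b := 1) (c := 3) (cn := .nn) (n1 := ndB0q1) (n2 := ndB1q1) (pc := pcB3) (cut := Cut.none) (xt := Ext.none) (P1 := 536870912) (W1 := 536870912) (P2 := 536870912) (W2 := 536870912) (P3 := 740881858) (W3 := 40050571) (N0 := 3) (En := eng) (mo := mog) (C1 := cd0q1) (C2 := cd1q1) (C3 := pd3)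
    rfl k0_mm_113

noncomputable def f_mm_123_a : ℕ → ℕ → ℕ → ℕ → Bool := onCell 536870912 536870912 0 536870912 740881858 40050571
    (rowB 3 eng mog cd0q1 cd1q2a pd3 0 true false false .npn 1 2 3 (qsf 536870912 536870912 0 536870912 3) ndB0q1 ndB1q2a pcB3 Cut.none Ext.none)

def k0_mm_123_a : ∃ t, chk3 f_mm_123_a t 1 1 1 = true :=
  ⟨(a (l 5) (l 4)), by decide +kernel⟩

theorem c_mm_123_a : CertB 536870912 536870912 0 536870912 740881858 40050571 3 eng mog cd0q1 cd1q2a pd3 true false false .npn 1 2 3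
    ndB0q1 ndB1q2a pcB3 Cut.none Ext.none :=
  certB0 (fam := true) (s1 := false) (s2 := false) (a := 1) (b := 2) (c := 3) (cn := .npn) (n1 := ndB0q1) (n2 := ndB1q2a) (pc := pcB3) (cut := Cut.none) (xt := Ext.none) (P1 := 536870912) (W1 := 536870912) (P2 := 0) (W2 := 536870912) (P3 := 740881858) (W3 := 40050571) (N0 := 3) (En := eng) (mo := mog) (C1 := cd0q1) (C2 := cd1q2a) (C3 := pd3)
    rfl k0_mm_123_a

noncomputable def f_mm_123_b : ℕ → ℕ → ℕ → ℕ → Bool := onCell 536870912 536870912 1239849684 370763052 740881858 40050571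
    (rowB 3 eng mog cd0q1 cd1q2b pd3 0 true false false .npn 1 2 3 (qsf 536870912 536870912 1239849684 370763052 3) ndB0q1 ndB1q2b pcB3 Cut.none Ext.none)

def k0_mm_123_b : ∃ t, chk3 f_mm_123_b t 1 1 1 = true :=
  ⟨(l 5), by decide +kernel⟩

theorem c_mm_123_b : CertB 536870912 536870912 1239849684 370763052 740881858 40050571 3 eng mog cd0q1 cd1q2b pd3 true false false .npn 1 2 3
    ndB0q1 ndB1q2b pcB3 Cut.none Ext.none :=
  certB0 (fam := true) (s1 := false) (s2 := false) (a := 1) (b := 2) (c := 3) (cn := .npn) (n1 := ndB0q1) (n2 := ndB1q2b) (pc := pcB3) (cut := Cut.none) (xt := Ext.none) (P1 := 536870912) (W1 := 536870912) (P2 := 1239849684) (W2 := 370763052) (P3 := 740881858) (W3 := 40050571) (N0 := 3) (En := eng) (mo := mog) (C1 := cd0q1) (C2 := cd1q2b) (C3 := pd3)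
    rfl k0_mm_123_b

noncomputable def f_mm_133 : ℕ → ℕ → ℕ → ℕ → Bool := onCell 536870912 536870912 1610612736 536870912 740881858 40050571
    (rowB 3 eng mog cd0q1 cd1q3 pd3 0 true false false .dn 1 3 3 (qsf 536870912 536870912 1610612736 536870912 3) ndB0q1 ndB1q3 pcB3 Cut.none Ext.none)

def k0_mm_133 : ∃ t, chk3 f_mm_133 t 1 1 1 = true :=
  ⟨(l 4), by decide +kernel⟩

theorem c_mm_133 : CertB 536870912 536870912 1610612736 536870912 740881858 40050571 3 eng mog cd0q1 cd1q3 pd3 true false false .dn 1 3 3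
    ndB0q1 ndB1q3 pcB3 Cut.none Ext.none :=
  certB0 (fam := true) (s1 := false) (s2 := false) (a := 1) (b := 3) (c := 3) (cn := .dn) (n1 := ndB0q1) (n2 := ndB1q3) (pc := pcB3) (cut := Cut.none) (xt := Ext.none) (P1 := 536870912) (W1 := 536870912) (P2 := 1610612736) (W2 := 536870912) (P3 := 740881858) (W3 := 40050571) (N0 := 3) (En := eng) (mo := mog) (C1 := cd0q1) (C2 := cd1q3) (C3 := pd3)
    rfl k0_mm_133

noncomputable def cut_mm_202 : Cut := Cut.of [[⟨0, 1, 0, 67108864⟩, ⟨1, 0, 0, 67108864⟩, ⟨2, 1, 0, 67108864⟩]]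

noncomputable def f_mm_202 : ℕ → ℕ → ℕ → ℕ → Bool := onCell 0 536870912 0 536870912 740881858 40050571
    (rowB 3 eng mog cd0q2 cd1q0 pd2 0 true false false .pp 2 0 2 (qsf 0 536870912 0 536870912 2) ndB0q2 ndB1q0 pcB2 cut_mm_202 Ext.none)

def k0_mm_202 : ∃ t, chk3 f_mm_202 t 2 2 1 = true :=
  ⟨(b (a (b (a (a (b (b (l 16362984) (c (l 16461312) (l 16438040))) (c (l 16471384) (l 16447568))) (b (b (c (a (c (l 16439000) (l 16452560)) (l 16445480)) (l 16441952)) (l 16398888)) (l 16468448))) (a (b (b (c (b (l 16446208) (l 16452544)) (l 16451024)) (l 16470216)) (l 16477544)) (b (b (b (l 16426184) (l 16471040)) (l 16480392)) (l 16488848)))) (b (a (a (l 16472352) (l 16480216)) (a (l 16490312) (l 16502872))) (a (l 16491168) (l 16512976)))) (b (b (a (a (b (b (l 16478312) (l 16480080)) (l 16488744)) (c (b (l 16552584) (l 16489752)) (b (b (l 16476256) (l 16488568)) (l 16499344)))) (a (c (b (l 16501888) (b (l 16501088) (l 16504760))) (b (a (l 16492368) (l 16416360)) (b (l 16513904)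 (l 16521760)))) (a (b (b (c (l 16516232) (l 16439952)) (l 16444560)) (b (l 16522512) (a (l 16520856) (l 16525032)))) (b (b (c (l 16526136) (l 16449584)) (a (l 16530200) (l 16514360))) (c (l 16525184) (l 16540320)))))) (a (a (l 16503248) (a (l 16515216) (l 16520536))) (b (a (l 16501416) (a (c (l 16524536) (l 16538728)) (c (b (b (l 16527000) (l 16529720)) (l 16535216)) (l 16587304)))) (a (l 16535760) (c (l 16542616) (l 16554232)))))) (a (b (b (l 16565352) (l 16531512)) (l 16628984)) (a (b (b (l 16549288) (l 16562648)) (l 16576432)) (b (b (a (l 16558296) (l 16565104)) (l 16575792)) (b (l 16589896) (l 16603912))))))) (a (b (a (b (l 16511472) (l 16536576)) (b (l 16535160) (l 16562128))) (a (l 16679088) (b (l 16588904) (l 16614888)))) (b (b (a (l 16568720) (c (l 16691512) (l 16694280))) (a (l 16597040) (a (l 16628928) (l 16648032)))) (a (b (l 16625296) (l 16651712)) (b (a (l 16654408) (l 16672808)) (a (l 16679808) (l 16720280))))))), by decide +kernel⟩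

def k1_mm_202 : ∃ t, chk3 f_mm_202 t 6 32 2 = true :=
  ⟨(a (a (a (b (l 16537384) (l 16536872)) (b (a (l 16543360) (l 16547304)) (l 16550104))) (b (c (a (l 16556040) (a (l 16562184) (l 16545664))) (a (a (l 16548312) (l 16531616)) (a (l 16536120) (l 16530384)))) (a (l 16564704) (a (l 16572104) (l 16576776))))) (a (a (b (a (c (l 16539896) (b (l 16563592) (l 16570056))) (b (c (l 16573112) (l 16568832)) (l 16556496))) (a (l 16539760) (l 16551496))) (b (a (b (c (l 16578360) (l 16574344)) (l 16556664)) (b (c (l 16583816) (l 16580064)) (l 16609464))) (b (c (l 16572864) (l 16569208)) (c (l 16600000) (l 16575496))))) (b (a (a (b (c (l 16589328) (l 16585808)) (l 16604640)) (b (c (l 16594896) (l 16591584)) (l 16610352))) (a (b (c (l 16600568) (l 16602688)) (l 16616152)) (b (c (l 16606368) (b (l 16601720) (l 16605112))) (c (l 16613000) (l 16610152))))) (a (b (a (l 16600568) (l 16606320)) (c (l 16590312) (l 16608192))) (a (b (l 16612168) (l 16618544)) (b (l 16618152) (l 16624576))))))),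 by decide +kernel⟩

def k2_mm_202 : ∃ t, chk3 f_mm_202 t 6 32 3 = true :=
  ⟨(b (c (a (a (a (l 16526200) (l 16493264)) (a (a (l 16541904) (l 16546552)) (a (l 16572400) (b (l 16553232) (l 16559776))))) (b (a (a (a (l 16558560) (l 16564128)) (a (l 16569960) (l 16581216))) (a (a (b (l 16580296) (l 16583672)) (b (l 16586320) (l 16589712))) (a (b (l 16592392) (l 16595800)) (b (l 16598560) (l 16602000))))) (a (a (l 16588904) (a (l 16576584) (l 16582624))) (a (a (l 16588680) (l 16594744)) (a (l 16600872) (l 16607096)))))) (a (a (a (l 16517608) (a (l 16524952) (l 16529856))) (a (a (l 16534800) (l 16560856)) (b (a (l 16541848) (l 16547344)) (l 16551232)))) (a (a (b (a (l 16553056) (b (l 16557312) (l 16560680))) (a (l 16559728) (l 16565696))) (a (b (b (l 16563496) (l 16566888)) (l 16571912)) (b (b (l 16569848) (l 16573248)) (l 16578288)))) (a (b (a (a (l 16576296) (l 16579456)) (b (a (l 16580888) (l 16584048)) (l 16585904))) (a (l 16584656) (l 16591000))) (a (b (b (a (l 16587208)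 (l 16590392)) (l 16592256)) (l 16597384)) (b (b (a (l 16593592) (l 16596824)) (l 16598688)) (l 16603848))))))) (a (a (a (l 16492680) (a (l 16541720) (l 16525496))) (a (a (l 16509288) (l 16514208)) (a (c (l 16543240) (l 16558184)) (a (l 16523312) (l 16526040))))) (a (a (c (a (l 16574768) (l 16580400)) (a (l 16569512) (l 16575520))) (a (b (l 16580848) (l 16587288)) (b (l 16587080) (l 16593544)))) (a (a (b (l 16593312) (l 16599808)) (b (l 16599552) (l 16606088))) (a (b (l 16605848) (l 16612416)) (b (l 16612232) (l 16618848))))))), by decide +kernel⟩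

def k3_mm_202 : ∃ t, chk3 f_mm_202 t 6 33 1 = true :=
  ⟨(a (a (a (c (l 16558048) (l 16490656)) (c (c (l 16547936) (l 16553352)) (a (l 16559656) (l 16522584)))) (c (a (b (l 16565016) (l 16565960)) (b (l 16580480) (l 16581576))) (b (a (l 16545048) (a (l 16573688) (l 16579104))) (a (l 16576664) (l 16588328))))) (c (b (a (a (l 16596280) (c (l 16609016) (l 16605672))) (a (b (l 16615960) (l 16622016)) (b (l 16627856) (l 16634000)))) (a (a (l 16597568) (l 16613920)) (a (l 16630872) (l 16643008)))) (b (a (a (a (l 16584744) (l 16569632)) (c (l 16601920) (l 16566312))) (a (a (l 16567400) (l 16573736)) (a (l 16580128) (l 16597112)))) (a (a (l 16599768) (l 16612120)) (a (l 16624896) (b (l 16634768) (l 16640920))))))), by decide +kernel⟩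

def k4_mm_202 : ∃ t, chk3 f_mm_202 t 6 17 1 = true :=
  ⟨(a (b (a (b (c (a (l 16544368) (l 16552536)) (a (l 16552040) (l 16564104))) (c (a (a (l 16541576) (l 16546480)) (a (l 16489288) (b (l 16557744) (l 16559592)))) (a (l 16556024) (l 16566440)))) (b (c (a (l 16567584) (l 16583320)) (a (l 16577680) (l 16592000))) (a (c (a (l 16566008) (l 16573792)) (l 16579360)) (c (l 16585720) (l 16593784))))) (a (c (a (l 16554904) (l 16565408)) (a (l 16565320) (l 16574808))) (b (a (c (b (a (l 16569096) (l 16576152)) (l 16575768)) (l 16583040)) (c (b (l 16587944) (a (l 16585976) (l 16593656))) (l 16596392))) (a (l 16584752) (a (l 16594128) (b (l 16609600) (l 16602312))))))) (b (b (a (a (c (l 16599424) (l 16606808)) (c (l 16615944) (l 16622144))) (a (c (l 16633400) (l 16636816)) (c (l 16652112) (l 16649960)))) (a (a (c (l 16559984) (l 16608704)) (c (l 16618528) (l 16624136))) (a (c (l 16636136) (l 16640728)) (c (l 16655016) (l 16658784))))) (a (a (b (c (l 16605056) (l 16611224))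 (a (b (l 16606472) (l 16609072)) (b (l 16614408) (l 16616448)))) (c (b (l 16600776) (l 16625576)) (l 16628256))) (a (c (c (l 16598624) (l 16642064)) (l 16644952)) (c (a (l 16655416) (l 16665256)) (l 16642248)))))), by decide +kernel⟩

def k5_mm_202 : ∃ t, chk3 f_mm_202 t 6 9 1 = true :=
  ⟨(a (b (b (a (a (l 16573472) (l 16583504)) (c (a (l 16592128) (l 16605192)) (l 16625392))) (a (c (l 16589768) (l 16596440)) (a (l 16609256) (l 16621704)))) (a (b (l 16607440) (l 16622336)) (b (a (l 16624240) (l 16636704)) (l 16666696)))) (b (b (a (b (a (c (a (l 16611840) (l 16618952)) (l 16578200)) (c (a (b (l 16624824) (l 16628032)) (b (l 16633144) (l 16635824))) (l 16634296))) (a (l 16582408) (c (l 16637144) (l 16640152)))) (a (b (c (a (l 16643224) (l 16652464)) (l 16650608)) (a (b (l 16585504) (l 16651664)) (b (l 16615232) (l 16618104)))) (b (l 16678272) (a (b (l 16666544) (l 16627208)) (l 16656520))))) (a (c (a (l 16633576) (l 16647960)) (l 16656176)) (a (a (l 16618224) (l 16626464))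 (b (a (b (l 16630200) (l 16675456)) (l 16693120)) (l 16685064))))) (a (b (a (l 16586616) (c (l 16662936) (l 16663840))) (a (l 16665232) (l 16636864))) (b (a (c (l 16678480) (l 16678552)) (b (l 16691960) (l 16699072))) (a (l 16630640) (c (l 16670016) (l 16668976))))))), by decide +kernel⟩

def k6_mm_202 : ∃ t, chk3 f_mm_202 t 28 16 1 = true :=
  ⟨(b (a (b (c (a (b (c (l 16612352) (b (l 16607848) (l 16611272))) (c (l 16619040) (l 16616344))) (b (c (l 16618584) (b (l 16614216) (l 16617656))) (c (l 16625320) (l 16622768)))) (a (b (c (b (l 16604880) (l 16608344)) (b (a (l 16600096) (l 16603408)) (l 16605248))) (c (l 16613480) (l 16610440))) (b (c (b (l 16611416) (l 16614904)) (b (a (l 16606760) (l 16610224)) (l 16612008))) (c (l 16620072) (l 16617232))))) (c (a (b (l 16624312) (l 16630784)) (b (l 16630712) (l 16637232))) (a (b (l 16618760) (l 16625424)) (b (l 16635984) (l 16632208))))) (a (b (b (c (c (l 16625416) (b (l 16621184) (l 16624648))) (c (a (l 16618440) (l 16622240))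 (b (a (l 16613904) (l 16617800)) (l 16619376)))) (c (c (l 16632192) (l 16629792)) (c (l 16627264) (l 16624624)))) (c (b (l 16637696) (l 16644256)) (b (c (l 16634088) (l 16631528)) (l 16639576)))) (b (b (b (l 6) (a (c (l 16631632) (l 16626744)) (l 6))) (c (c (l 16639888) (l 16637656)) (c (l 16635320) (l 16638136)))) (b (c (l 16645504) (c (l 16642168) (l 16639824))) (c (l 16652088) (l 16647784)))))) (a (b (a (c (l 16619296) (l 16603760)) (b (a (l 16639592) (l 16643016)) (l 16605744))) (c (l 16655768) (b (l 16627208) (l 16654424)))) (b (c (a (l 16632912) (l 16630296)) (a (b (l 16646216) (l 16652744)) (b (l 16654456) (l 16661008)))) (c (l 16680688) (a (l 16641376) (l 16649672)))))), by decide +kernel⟩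

def k7_mm_202 : ∃ t, chk3 f_mm_202 t 29 16 1 = true :=
  ⟨(b (b (b (l 6) (b (l 6) (a (a (c (l 16649048) (l 16644824)) (l 6)) (l 6)))) (b (a (c (a (l 16654096) (l 16673920)) (a (c (l 16651056) (l 16648920)) (c (l 16660704) (l 16658800)))) (l 6)) (a (a (c (l 16660696) (l 16656792)) (c (l 16670048) (l 16666560))) (a (c (l 16680104) (l 16687536)) (l 6))))) (a (a (b (c (b (l 16667184) (l 16673544)) (b (l 16663472) (l 16670048))) (c (l 16661896) (l 16658736))) (b (c (b (l 16676536) (l 16682904)) (a (l 16653064) (l 16658128))) (c (l 16671264) (l 16668528)))) (b (b (a (c (l 16686584) (l 16683736)) (l 6)) (c (a (l 16692952) (l 16703656)) (a (l 16690304) (l 16701464)))) (c (a (l 16702280) (l 16712968)) (a (l 16668520) (l 16711112)))))), by decide +kernel⟩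

def k8_mm_202 : ∃ t, chk3 f_mm_202 t 14 17 1 = true :=
  ⟨(c (a (b (a (b (l 16667560) (l 16674888)) (b (l 16682168) (l 16693688))) (a (l 16669936) (l 16700296))) (b (a (b (l 16699552) (l 16711144)) (b (a (l 16714304) (l 16724968)) (l 16728888))) (a (b (l 16716464) (l 16720928)) (b (l 16733200) (l 16759648))))) (a (b (a (b (l 16663608) (l 16675480)) (b (l 16678896) (l 16690928))) (a (l 16661648) (b (l 16700152) (l 16703784)))) (b (a (b (l 16697080) (l 16709184)) (b (a (l 16712488) (l 16723600)) (l 16729768))) (a (b (l 16717592) (l 16721464)) (b (l 16733512) (l 16759560)))))), by decide +kernel⟩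

def k9_mm_202 : ∃ t, chk3 f_mm_202 t 15 8 1 = true :=
  ⟨(b (a (b (l 6) (a (b (l 6) (a (c (l 16724192) (l 16722784)) (b (l 6) (l 16738464)))) (l 6))) (l 6)) (a (a (b (b (c (a (l 16736152) (l 16744320)) (a (l 16735240) (l 16744688))) (a (l 16751304) (c (l 16749408) (l 16749392)))) (b (a (c (l 16746248) (l 16746136)) (l 4)) (l 4))) (b (a (b (b (l 16761672) (c (l 16754048) (l 16754024))) (b (l 16770880) (l 4))) (b (b (l 6) (l 4)) (l 4))) (l 4))) (l 4))), by decide +kernel⟩

def k10_mm_202 : ∃ t, chk3 f_mm_202 t 7 9 1 = true :=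
  ⟨(a (b (a (b (a (c (l 16689616) (l 16690608)) (c (l 16709768) (l 16710120))) (a (a (b (l 16692920) (a (l 16696776) (l 16659696))) (b (l 16682072) (l 16709136))) (b (l 16718000) (c (b (l 16723360) (l 16727176)) (l 16745576))))) (b (a (a (a (l 16721416) (l 16736528)) (b (l 16730136) (l 16736536))) (b (c (l 16766456) (l 16766240)) (l 4))) (a (b (a (l 62511739911) (l 4)) (l 4)) (l 4)))) (a (b (a (b (a (l 16705944) (l 16716136)) (l 54995491575)) (a (a (l 57679881223) (l 4)) (l 4))) (a (l 4) (l 4))) (l 4))) (l 4)), by decide +kernel⟩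

def k11_mm_202 : ∃ t, chk3 f_mm_202 t 3 5 1 = true :=
  ⟨(a (b (a (b (a (l 16685000) (b (l 16660816) (l 16674976))) (a (l 16669176) (b (l 16688944) (l 16703400)))) (b (a (b (l 16716200) (l 16724344)) (b (a (l 16710488) (l 4)) (l 4))) (a (b (l 50163858407) (l 4)) (l 4)))) (a (b (a (b (l 16688552) (l 16702144)) (b (l 16718320) (l 4))) (a (l 16787328) (l 4))) (l 4))) (l 4)), by decide +kernel⟩

def k12_mm_202 : ∃ t, chk3 f_mm_202 t 1 3 1 = true :=
  ⟨(a (a (b (b (a (b (l 16610264) (l 16632440)) (b (l 16639632) (l 16663896))) (a (b (l 16656568) (l 16681112)) (b (l 16688632) (l 16711840)))) (l 2)) (b (b (a (b (l 16676704) (a (l 16691720) (l 16711784))) (a (b (l 16706320) (l 16733336)) (b (l 16748936) (l 4)))) (a (b (a (l 16715832) (l 16735744)) (l 35131547943)) (l 4))) (l 4))) (l 4)), by decide +kernel⟩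

theorem s13_mm_202 : ∃ t, chk3 f_mm_202 t 14 16 1 = true := ex3_a k6_mm_202 k7_mm_202

theorem s14_mm_202 : ∃ t, chk3 f_mm_202 t 14 8 1 = true := ex3_b s13_mm_202 k8_mm_202

theorem s15_mm_202 : ∃ t, chk3 f_mm_202 t 7 8 1 = true := ex3_a s14_mm_202 k9_mm_202

theorem s16_mm_202 : ∃ t, chk3 f_mm_202 t 7 4 1 = true := ex3_b s15_mm_202 k10_mm_202

theorem s17_mm_202 : ∃ t, chk3 f_mm_202 t 6 32 1 = true := ex3_c k1_mm_202 k2_mm_202

theorem s18_mm_202 : ∃ t, chk3 f_mm_202 t 6 16 1 = true := ex3_b s17_mm_202 k3_mm_202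

theorem s19_mm_202 : ∃ t, chk3 f_mm_202 t 6 8 1 = true := ex3_b s18_mm_202 k4_mm_202

theorem s20_mm_202 : ∃ t, chk3 f_mm_202 t 6 4 1 = true := ex3_b s19_mm_202 k5_mm_202

theorem s21_mm_202 : ∃ t, chk3 f_mm_202 t 3 4 1 = true := ex3_a s20_mm_202 s16_mm_202

theorem s22_mm_202 : ∃ t, chk3 f_mm_202 t 3 2 1 = true := ex3_b s21_mm_202 k11_mm_202

theorem s23_mm_202 : ∃ t, chk3 f_mm_202 t 1 2 1 = true := ex3_a k0_mm_202 s22_mm_202

theorem s24_mm_202 : ∃ t, chk3 f_mm_202 t 1 1 1 = true := ex3_b s23_mm_202 k12_mm_202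

theorem c_mm_202 : CertB 0 536870912 0 536870912 740881858 40050571 3 eng mog cd0q2 cd1q0 pd2 true false false .pp 2 0 2
    ndB0q2 ndB1q0 pcB2 cut_mm_202 Ext.none :=
  certB0 (fam := true) (s1 := false) (s2 := false) (a := 2) (b := 0) (c := 2) (cn := .pp) (n1 := ndB0q2) (n2 := ndB1q0) (pc := pcB2) (cut := cut_mm_202) (xt := Ext.none) (P1 := 0) (W1 := 536870912) (P2 := 0) (W2 := 536870912) (P3 := 740881858) (W3 := 40050571) (N0 := 3) (En := eng) (mo := mog) (C1 := cd0q2) (C2 := cd1q0) (C3 := pd2)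
    rfl s24_mm_202

noncomputable def f_mm_203 : ℕ → ℕ → ℕ → ℕ → Bool := onCell 0 536870912 1610612736 536870912 740881858 40050571
    (rowB 3 eng mog cd0q2 cd1q0 pd3 1 true false false .up 2 0 3 (qsf 0 536870912 0 536870912 3) ndB0q2 ndB1q0 pcB3 Cut.none Ext.none)

def k0_mm_203 : ∃ t, chk3 f_mm_203 t 1 1 1 = true :=
  ⟨(b (a (b (a (b (a (l 16736728) (b (l 16716824) (l 16736048))) (a (b (l 16726000) (l 16743048)) (l 4))) (l 4)) (a (b (b (l 89892611143) (l 4)) (l 2)) (l 4))) (l 4)) (l 2)), by decide +kernel⟩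

theorem c_mm_203 : CertB 0 536870912 0 536870912 740881858 40050571 3 eng mog cd0q2 cd1q0 pd3 true false false .up 2 0 3
    ndB0q2 ndB1q0 pcB3 Cut.none Ext.none :=
  certB1 (fam := true) (s1 := false) (s2 := false) (a := 2) (b := 0) (c := 3) (cn := .up) (n1 := ndB0q2) (n2 := ndB1q0) (pc := pcB3) (cut := Cut.none) (xt := Ext.none) (P1 := 0) (W1 := 536870912) (P2 := 0) (W2 := 536870912) (P3 := 740881858) (W3 := 40050571) (N0 := 3) (En := eng) (mo := mog) (C1 := cd0q2) (C2 := cd1q0) (C3 := pd3)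
    rfl (fun _ => rfl) k0_mm_203

noncomputable def f_mm_213 : ℕ → ℕ → ℕ → ℕ → Bool := onCell 0 536870912 536870912 536870912 740881858 40050571
    (rowB 3 eng mog cd0q2 cd1q1 pd3 0 true false false .pnn 2 1 3 (qsf 0 536870912 536870912 536870912 3) ndB0q2 ndB1q1 pcB3 Cut.none Ext.none)

def k0_mm_213 : ∃ t, chk3 f_mm_213 t 1 1 1 = true :=
  ⟨(a (b (l 4) (l 4)) (l 4)), by decide +kernel⟩

theorem c_mm_213 : CertB 0 536870912 536870912 536870912 740881858 40050571 3 eng mog cd0q2 cd1q1 pd3 true false false .pnn 2 1 3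
    ndB0q2 ndB1q1 pcB3 Cut.none Ext.none :=
  certB0 (fam := true) (s1 := false) (s2 := false) (a := 2) (b := 1) (c := 3) (cn := .pnn) (n1 := ndB0q2) (n2 := ndB1q1) (pc := pcB3) (cut := Cut.none) (xt := Ext.none) (P1 := 0) (W1 := 536870912) (P2 := 536870912) (W2 := 536870912) (P3 := 740881858) (W3 := 40050571) (N0 := 3) (En := eng) (mo := mog) (C1 := cd0q2) (C2 := cd1q1) (C3 := pd3)
    rfl k0_mm_213

end Pool.Agent.Strip051.G.I69_7273.Tab.C.BA01

namespace Pool.Agent.Strip051.G.I69_7273.Tab.C.BA02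

open Pool.Agent.Strip051.PB Pool.Agent.Strip051.PB.T
open Pool.Agent.Strip051.G.I69_7273.Tab

noncomputable def f_pp_001 : ℕ → ℕ → ℕ → ℕ → Bool := onCell 0 536870912 0 536870912 740881858 40050571
    (rowB 3 eng mog cd0q0 cd2q0 pd1 0 true true true .up 0 0 1 (qsf 0 536870912 0 536870912 1) ndB0q0 ndB2q0 pcB1 Cut.none Ext.none)

def k0_pp_001 : ∃ t, chk3 f_pp_001 t 1 1 1 = true :=
  ⟨(l 4), by decide +kernel⟩

theorem c_pp_001 : CertB 0 536870912 0 536870912 740881858 40050571 3 eng mog cd0q0 cd2q0 pd1 true true true .up 0 0 1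
    ndB0q0 ndB2q0 pcB1 Cut.none Ext.none :=
  certB0 (fam := true) (s1 := true) (s2 := true) (a := 0) (b := 0) (c := 1) (cn := .up) (n1 := ndB0q0) (n2 := ndB2q0) (pc := pcB1) (cut := Cut.none) (xt := Ext.none) (P1 := 0) (W1 := 536870912) (P2 := 0) (W2 := 536870912) (P3 := 740881858) (W3 := 40050571) (N0 := 3) (En := eng) (mo := mog) (C1 := cd0q0) (C2 := cd2q0) (C3 := pd1)
    rfl k0_pp_001

noncomputable def f_pp_011 : ℕ → ℕ → ℕ → ℕ → Bool := onCell 0 536870912 536870912 536870912 740881858 40050571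
    (rowB 3 eng mog cd0q0 cd2q1 pd1 0 true true true .pnn 0 1 1 (qsf 0 536870912 536870912 536870912 1) ndB0q0 ndB2q1 pcB1 Cut.none Ext.none)

def k0_pp_011 : ∃ t, chk3 f_pp_011 t 1 1 1 = true :=
  ⟨(l 4), by decide +kernel⟩

theorem c_pp_011 : CertB 0 536870912 536870912 536870912 740881858 40050571 3 eng mog cd0q0 cd2q1 pd1 true true true .pnn 0 1 1
    ndB0q0 ndB2q1 pcB1 Cut.none Ext.none :=
  certB0 (fam := true) (s1 := true) (s2 := true) (a := 0) (b := 1) (c := 1) (cn := .pnn) (n1 := ndB0q0) (n2 := ndB2q1) (pc := pcB1) (cut := Cut.none) (xt := Ext.none) (P1 := 0) (W1 := 536870912) (P2 := 536870912) (W2 := 536870912) (P3 := 740881858) (W3 := 40050571) (N0 := 3) (En := eng) (mo := mog) (C1 := cd0q0) (C2 := cd2q1) (C3 := pd1)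
    rfl k0_pp_011

noncomputable def f_pp_012 : ℕ → ℕ → ℕ → ℕ → Bool := onCell 0 536870912 536870912 536870912 740881858 40050571
    (rowB 3 eng mog cd0q0 cd2q1 pd2 0 true true true .pnp 0 1 2 (qsf 0 536870912 536870912 536870912 2) ndB0q0 ndB2q1 pcB2 Cut.none Ext.none)

def k0_pp_012 : ∃ t, chk3 f_pp_012 t 1 1 1 = true :=
  ⟨(l 4), by decide +kernel⟩

theorem c_pp_012 : CertB 0 536870912 536870912 536870912 740881858 40050571 3 eng mog cd0q0 cd2q1 pd2 true true true .pnp 0 1 2
    ndB0q0 ndB2q1 pcB2 Cut.none Ext.none :=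
  certB0 (fam := true) (s1 := true) (s2 := true) (a := 0) (b := 1) (c := 2) (cn := .pnp) (n1 := ndB0q0) (n2 := ndB2q1) (pc := pcB2) (cut := Cut.none) (xt := Ext.none) (P1 := 0) (W1 := 536870912) (P2 := 536870912) (W2 := 536870912) (P3 := 740881858) (W3 := 40050571) (N0 := 3) (En := eng) (mo := mog) (C1 := cd0q0) (C2 := cd2q1) (C3 := pd2)
    rfl k0_pp_012

noncomputable def cut_pp_022_a : Cut := Cut.of [[⟨0, 0, 0, 67108864⟩, ⟨1, 1, 0, 67108864⟩, ⟨2, 1, 0, 67108864⟩]]

noncomputable def f_pp_022_a : ℕ → ℕ → ℕ → ℕ → Bool := onCell 0 536870912 0 536870912 740881858 40050571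
    (rowB 3 eng mog cd0q0 cd2q2a pd2 0 true true true .pp 0 2 2 (qsf 0 536870912 0 536870912 2) ndB0q0 ndB2q2a pcB2 cut_pp_022_a Ext.none)

def k0_pp_022_a : ∃ t, chk3 f_pp_022_a t 4 2 1 = true :=
  ⟨(a (b (b (a (a (b (l 16445640) (c (l 16442872) (l 16451448))) (b (l 16460856) (l 16462040))) (b (l 16546960) (a (l 16477528) (l 16493336)))) (a (a (a (b (l 16446736) (l 16453384)) (b (l 16453840) (l 16459464))) (c (l 16465920) (l 16471096))) (a (l 16504880) (l 16500072)))) (a (b (a (b (a (l 16463352) (a (l 16466544) (l 16469640))) (a (l 16476520) (a (l 16479536) (l 16481816)))) (a (b (l 16475312) (a (l 16484728) (l 16425336))) (l 16509568))) (a (b (c (l 16441288) (l 16496160)) (c (l 16513808) (l 16515392))) (b (b (a (l 16497384) (l 16504200)) (a (l 16464264) (a (l 16489472) (l 16514024)))) (a (l 16521440) (b (l 16521560) (l 16511144)))))) (b (a (b (l 16494880) (l 16505824)) (b (l 16511120) (l 16522064))) (a (b (l 16519832) (a (b (a (l 16526656) (l 16530544)) (l 16538472))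 (l 16499304))) (b (l 16535976) (l 16553256)))))) (b (b (a (a (l 16542064) (l 16506768)) (b (l 16516960) (l 16530416))) (a (a (l 16515936) (l 16522712)) (a (l 16531096) (l 16541872)))) (a (b (a (b (l 16527920) (l 16539016)) (l 16570176)) (a (b (l 16553024) (l 16569968)) (b (l 16570328) (l 16587544)))) (a (b (l 16557656) (b (l 16584040) (l 16604920))) (b (l 16568456) (b (l 16594856) (l 16657464))))))), by decide +kernel⟩

def k1_pp_022_a : ∃ t, chk3 f_pp_022_a t 4 6 1 = true :=
  ⟨(a (a (b (a (b (c (l 16537280) (l 16538216)) (b (l 16557456) (l 16572008))) (b (c (l 16547240) (l 16547456)) (c (l 16574592) (l 16574456)))) (a (a (b (l 16608792) (b (l 16602808) (l 16613192))) (b (l 16618856) (b (l 16613200) (l 16623832)))) (a (b (l 16645176) (b (l 16623200) (l 16634088))) (b (b (l 16600216) (l 16617048)) (b (l 16632832) (l 16643976)))))) (b (a (b (a (b (l 16549664) (l 16541160)) (b (a (l 16512872) (l 16558680)) (l 16568696))) (b (a (l 16554696) (l 16581984)) (l 16614272)))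 (a (b (b (l 16564608) (l 16576248)) (b (l 16610072) (l 16624288))) (b (l 16536480) (b (l 16596920) (l 16631800))))) (a (c (b (b (l 16609424) (l 16626248)) (b (l 16644184) (l 16679200))) (b (b (l 16608520) (l 16625424)) (b (l 16643528) (l 16658232)))) (b (a (b (l 16618856) (l 16635600)) (b (c (l 16647928) (l 16625240)) (l 16642720))) (b (a (l 16653576) (l 16661024)) (a (l 16692160) (l 16699296))))))) (b (a (b (a (l 16590808) (l 16648992)) (a (a (a (l 16567904) (l 16571976)) (l 16620120)) (c (l 16655672) (l 16674696)))) (a (b (b (l 16620632) (l 16653696)) (l 4)) (l 4))) (a (a (b (a (b (l 16654856) (b (l 16667200) (l 16686648))) (b (l 16642424) (l 4))) (b (l 4) (l 4))) (l 4)) (l 4)))), by decide +kernel⟩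

def k2_pp_022_a : ∃ t, chk3 f_pp_022_a t 4 7 1 = true :=
  ⟨(a (b (a (a (b (b (a (c (b (l 16621824) (l 16627280)) (b (l 16620392) (l 16625632))) (c (b (l 16632544) (l 16638144)) (l 16613096))) (a (b (c (l 16634112) (l 16632408)) (c (l 16643200) (l 16641720))) (c (b (l 16645056) (l 16654128)) (a (l 16624520) (l 16630016))))) (a (a (l 6) (b (b (l 16646864) (l 6)) (l 6))) (a (b (c (l 16686624) (l 16685640)) (l 6)) (b (c (l 16691984) (b (l 16665208) (l 16675072))) (b (c (l 16685776) (l 16685208)) (l 6)))))) (b (b (a (c (l 16616936) (l 16623752)) (c (l 16655792) (l 16655016))) (b (a (c (l 16655608) (l 16654400)) (a (l 16641784) (l 16646848))) (a (a (l 16640552) (l 16645800)) (a (l 16650944) (l 16656008))))) (b (a (c (b (a (l 16671432) (l 16676600)) (a (l 16681080) (l 16686248))) (b (l 16652296) (a (l 16680456) (l 16685752)))) (b (c (a (l 16681680) (l 16686664)) (a (l 16681120) (l 16686248))) (c (b (l 16670376) (l 64122322007)) (a (l 16690960) (l 16695896))))) (a (a (b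 (b (l 16688240) (l 16672352)) (l 6)) (c (b (l 16696176) (b (l 16703808) (l 16708968))) (b (l 16695880) (l 63585474135)))) (b (c (a (l 16685432) (l 248805940151)) (a (l 16680016) (l 16689504))) (a (c (l 235384174951) (l 237531657767)) (l 4))))))) (b (a (b (a (c (l 16665464) (l 16664976)) (c (l 16674536) (l 16674280))) (a (c (b (l 16654624) (a (l 16682216) (l 16686696))) (b (l 16653992) (l 96334541575))) (a (b (l 225183554647) (l 4)) (l 4)))) (b (a (b (l 16679568) (l 4)) (l 4)) (l 4))) (a (b (a (a (b (a (l 16669136) (l 16671288)) (l 252564009287)) (l 4)) (l 4)) (l 4)) (l 4)))) (a (a (l 6) (a (b (l 6) (l 4)) (l 4))) (l 4))) (l 4)), by decide +kernel⟩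

def k3_pp_022_a : ∃ t, chk3 f_pp_022_a t 5 1 1 = true :=
  ⟨(b (a (b (b (a (b (a (l 16535856) (l 16552264)) (a (l 16541680) (l 16558256))) (a (l 16573032) (l 16610984))) (a (a (b (l 16549936) (l 16560664)) (l 16572160)) (a (l 16590064) (l 16607224)))) (b (a (a (l 16603016) (b (l 16590680) (l 16606128))) (a (b (l 16608472) (l 16623064)) (b (l 16625080) (l 4)))) (a (a (b (l 16607864) (l 73249062215)) (b (l 16643944) (l 4))) (l 4)))) (b (a (a (b (l 16627064) (l 16644104)) (b (l 16647280) (l 18488283127))) (b (b (a (l 16632152) (l 16646912)) (a (l 16638680) (l 16663592))) (a (l 34594417783) (l 4)))) (l 4))) (l 4)), by decide +kernel⟩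

def k4_pp_022_a : ∃ t, chk3 f_pp_022_a t 3 1 1 = true :=
  ⟨(b (a (b (a (b (a (b (a (l 16661712) (l 16676520)) (l 4)) (l 4)) (l 4)) (l 4)) (l 4)) (l 4)) (l 4)), by decide +kernel⟩

theorem s5_pp_022_a : ∃ t, chk3 f_pp_022_a t 4 3 1 = true := ex3_b k1_pp_022_a k2_pp_022_a

theorem s6_pp_022_a : ∃ t, chk3 f_pp_022_a t 4 1 1 = true := ex3_b k0_pp_022_a s5_pp_022_a

theorem s7_pp_022_a : ∃ t, chk3 f_pp_022_a t 2 1 1 = true := ex3_a s6_pp_022_a k3_pp_022_a

theorem s8_pp_022_a : ∃ t, chk3 f_pp_022_a t 1 1 1 = true := ex3_a s7_pp_022_a k4_pp_022_a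

theorem c_pp_022_a : CertB 0 536870912 0 536870912 740881858 40050571 3 eng mog cd0q0 cd2q2a pd2 true true true .pp 0 2 2
    ndB0q0 ndB2q2a pcB2 cut_pp_022_a Ext.none :=
  certB0 (fam := true) (s1 := true) (s2 := true) (a := 0) (b := 2) (c := 2) (cn := .pp) (n1 := ndB0q0) (n2 := ndB2q2a) (pc := pcB2) (cut := cut_pp_022_a) (xt := Ext.none) (P1 := 0) (W1 := 536870912) (P2 := 0) (W2 := 536870912) (P3 := 740881858) (W3 := 40050571) (N0 := 3) (En := eng) (mo := mog) (C1 := cd0q0) (C2 := cd2q2a) (C3 := pd2)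
    rfl s8_pp_022_a

noncomputable def cut_pp_022_b : Cut := Cut.of [[⟨0, 0, 0, 67108864⟩, ⟨1, 1, 0, 67108864⟩, ⟨2, 1, 0, 67108864⟩]]

noncomputable def f_pp_022_b : ℕ → ℕ → ℕ → ℕ → Bool := onCell 0 536870912 1239849684 370763052 740881858 40050571
    (rowB 3 eng mog cd0q0 cd2q2b pd2 0 true true true .pp 0 2 2 (qsf 0 536870912 1239849684 370763052 2) ndB0q0 ndB2q2b pcB2 cut_pp_022_b Ext.none)

def k0_pp_022_b : ∃ t, chk3 f_pp_022_b t 4 2 1 = true :=
  ⟨(b (a (b (b (b (b (a (c (a (l 16436104) (l 16452056)) (l 16454272)) (c (a (l 16467928) (l 16483768)) (l 16475896))) (a (a (l 16432192) (l 16447320)) (l 16466776))) (a (a (l 16418576) (l 16433688)) (l 16530880))) (a (a (l 16389656) (l 16397064)) (a (l 16404352) (l 16411632)))) (b (a (c (l 16347744) (l 16332248)) (a (l 16353008) (l 16362088))) (a (c (l 16296920) (l 16279632)) (l 16330544)))) (b (b (b (b (a (c (l 16495200) (l 16488888)) (b (l 16511944) (l 16505928))) (a (l 16479560) (l 16496976))) (a (l 16460728) (l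 16479464))) (a (a (l 16419712) (l 16428472)) (a (l 16438880) (b (l 16462696) (l 16440304))))) (a (b (a (l 16371912) (l 16382128)) (l 16352592)) (b (a (l 16498616) (l 16428488)) (l 16357208))))) (a (b (a (b (l 16239896) (l 16193056)) (b (l 16263432) (l 16218992))) (a (b (l 16148024) (l 16146688)) (a (l 16148168) (l 16162584)))) (b (a (b (l 16288024) (l 16245568)) (b (l 16325544) (l 16274376))) (a (a (l 16177144) (l 16191776)) (b (a (l 16226792) (l 16243680)) (a (l 16188208) (l 4))))))), by decide +kernel⟩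

def k1_pp_022_b : ∃ t, chk3 f_pp_022_b t 5 2 1 = true :=
  ⟨(b (a (b (b (a (b (c (b (a (l 16530088) (l 16546072)) (l 16463776)) (b (a (l 16525776) (l 16542696)) (l 16459936))) (l 16508128)) (b (b (b (l 16583752) (l 16567872)) (l 16559816)) (l 16543824))) (b (a (l 16486296) (l 16522712)) (a (a (l 16455728) (l 16473672)) (l 16501800)))) (a (b (l 16464144) (b (l 16401264) (c (l 16380744) (l 16379904)))) (a (c (l 16482400) (l 16441608)) (b (l 16480600) (l 16441144))))) (a (b (b (b (b (c (l 16618800) (l 16601904)) (l 16592104)) (l 16597728)) (a (l 16538424) (l 16554632))) (b (a (l 16498728) (l 16515624)) (a (l 16459968) (l 4)))) (b (b (c (b (b (a (l 16625208) (l 16640208)) (l 16622472)) (l 16607288)) (b (b (l 16652336) (l 16621752)) (l 16607520))) (a (l 16570376) (l 16607176))) (l 4)))) (a (b (a (b (a (l 16361624) (l 16486792)) (c (l 16309896) (l 16437616))) (b (a (l 16508008) (l 4)) (l 4))) (a (b (a (l 16262896) (l 4)) (l 4)) (l 4))) (l 4))), by decide +kernel⟩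

def k2_pp_022_b : ∃ t, chk3 f_pp_022_b t 2 3 1 = true :=
  ⟨(a (a (b (b (a (a (l 16222648) (l 16218272)) (a (l 16234768) (l 16314080))) (a (b (l 15983240) (l 15945832)) (b (l 16060904) (l 4)))) (b (a (b (l 15910048) (l 4)) (l 4)) (l 4))) (a (b (b (b (l 16273072) (l 16236336)) (l 4)) (l 4)) (l 4))) (l 4)), by decide +kernel⟩

def k3_pp_022_b : ∃ t, chk3 f_pp_022_b t 3 1 1 = true :=
  ⟨(b (a (b (a (b (b (b (a (b (c (a (l 16655472) (l 35131351543)) (c (l 16703240) (l 16702312))) (a (l 16644800) (l 4))) (l 4)) (a (a (l 16630424) (l 4)) (l 4))) (l 4)) (l 4)) (l 4)) (l 4)) (l 2)) (l 2)), by decide +kernel⟩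

theorem s4_pp_022_b : ∃ t, chk3 f_pp_022_b t 2 2 1 = true := ex3_a k0_pp_022_b k1_pp_022_b

theorem s5_pp_022_b : ∃ t, chk3 f_pp_022_b t 2 1 1 = true := ex3_b s4_pp_022_b k2_pp_022_b

theorem s6_pp_022_b : ∃ t, chk3 f_pp_022_b t 1 1 1 = true := ex3_a s5_pp_022_b k3_pp_022_b

theorem c_pp_022_b : CertB 0 536870912 1239849684 370763052 740881858 40050571 3 eng mog cd0q0 cd2q2b pd2 true true true .pp 0 2 2
    ndB0q0 ndB2q2b pcB2 cut_pp_022_b Ext.none :=
  certB0 (fam := true) (s1 := true) (s2 := true) (a := 0) (b := 2) (c := 2) (cn := .pp) (n1 := ndB0q0) (n2 := ndB2q2b) (pc := pcB2) (cut := cut_pp_022_b) (xt := Ext.none) (P1 := 0) (W1 := 536870912) (P2 := 1239849684) (W2 := 370763052) (P3 := 740881858) (W3 := 40050571) (N0 := 3) (En := eng) (mo := mog) (C1 := cd0q0) (C2 := cd2q2b) (C3 := pd2)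
    rfl s6_pp_022_b

noncomputable def f_pp_023_a : ℕ → ℕ → ℕ → ℕ → Bool := onCell 1610612736 536870912 0 536870912 740881858 40050571
    (rowB 3 eng mog cd0q0 cd2q2a pd3 2 true true true .up 0 2 3 (qsf 0 536870912 0 536870912 3) ndB0q0 ndB2q2a pcB3 Cut.none Ext.none)

def k0_pp_023_a : ∃ t, chk3 f_pp_023_a t 1 1 1 = true :=
  ⟨(a (l 4) (l 2)), by decide +kernel⟩

theorem c_pp_023_a : CertB 0 536870912 0 536870912 740881858 40050571 3 eng mog cd0q0 cd2q2a pd3 true true true .up 0 2 3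
    ndB0q0 ndB2q2a pcB3 Cut.none Ext.none :=
  certB2 (fam := true) (s1 := true) (s2 := true) (a := 0) (b := 2) (c := 3) (cn := .up) (n1 := ndB0q0) (n2 := ndB2q2a) (pc := pcB3) (cut := Cut.none) (xt := Ext.none) (P1 := 0) (W1 := 536870912) (P2 := 0) (W2 := 536870912) (P3 := 740881858) (W3 := 40050571) (N0 := 3) (En := eng) (mo := mog) (C1 := cd0q0) (C2 := cd2q2a) (C3 := pd3)
    rfl (fun _ => rfl) k0_pp_023_a

noncomputable def f_pp_023_b : ℕ → ℕ → ℕ → ℕ → Bool := onCell 1610612736 536870912 1239849684 370763052 740881858 40050571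
    (rowB 3 eng mog cd0q0 cd2q2b pd3 2 true true true .up 0 2 3 (qsf 0 536870912 1239849684 370763052 3) ndB0q0 ndB2q2b pcB3 Cut.none Ext.none)

def k0_pp_023_b : ∃ t, chk3 f_pp_023_b t 1 1 1 = true :=
  ⟨(a (l 4) (l 4)), by decide +kernel⟩

theorem c_pp_023_b : CertB 0 536870912 1239849684 370763052 740881858 40050571 3 eng mog cd0q0 cd2q2b pd3 true true true .up 0 2 3
    ndB0q0 ndB2q2b pcB3 Cut.none Ext.none :=
  certB2 (fam := true) (s1 := true) (s2 := true) (a := 0) (b := 2) (c := 3) (cn := .up) (n1 := ndB0q0) (n2 := ndB2q2b) (pc := pcB3) (cut := Cut.none) (xt := Ext.none) (P1 := 0) (W1 := 536870912) (P2 := 1239849684) (W2 := 370763052) (P3 := 740881858) (W3 := 40050571) (N0 := 3) (En := eng) (mo := mog) (C1 := cd0q0) (C2 := cd2q2b) (C3 := pd3)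
    rfl (fun _ => rfl) k0_pp_023_b

noncomputable def f_pp_033 : ℕ → ℕ → ℕ → ℕ → Bool := onCell 0 536870912 1610612736 536870912 740881858 40050571
    (rowB 3 eng mog cd0q0 cd2q3 pd3 0 true true true .pnn 0 3 3 (qsf 0 536870912 1610612736 536870912 3) ndB0q0 ndB2q3 pcB3 Cut.none Ext.none)

def k0_pp_033 : ∃ t, chk3 f_pp_033 t 1 1 1 = true :=
  ⟨(a (b (l 4) (l 4)) (l 4)), by decide +kernel⟩

theorem c_pp_033 : CertB 0 536870912 1610612736 536870912 740881858 40050571 3 eng mog cd0q0 cd2q3 pd3 true true true .pnn 0 3 3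
    ndB0q0 ndB2q3 pcB3 Cut.none Ext.none :=
  certB0 (fam := true) (s1 := true) (s2 := true) (a := 0) (b := 3) (c := 3) (cn := .pnn) (n1 := ndB0q0) (n2 := ndB2q3) (pc := pcB3) (cut := Cut.none) (xt := Ext.none) (P1 := 0) (W1 := 536870912) (P2 := 1610612736) (W2 := 536870912) (P3 := 740881858) (W3 := 40050571) (N0 := 3) (En := eng) (mo := mog) (C1 := cd0q0) (C2 := cd2q3) (C3 := pd3)
    rfl k0_pp_033

noncomputable def f_pp_101 : ℕ → ℕ → ℕ → ℕ → Bool := onCell 536870912 536870912 0 536870912 740881858 40050571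
    (rowB 3 eng mog cd0q1 cd2q0 pd1 0 true true true .npn 1 0 1 (qsf 536870912 536870912 0 536870912 1) ndB0q1 ndB2q0 pcB1 Cut.none Ext.none)

def k0_pp_101 : ∃ t, chk3 f_pp_101 t 1 1 1 = true :=
  ⟨(l 5), by decide +kernel⟩

theorem c_pp_101 : CertB 536870912 536870912 0 536870912 740881858 40050571 3 eng mog cd0q1 cd2q0 pd1 true true true .npn 1 0 1
    ndB0q1 ndB2q0 pcB1 Cut.none Ext.none :=
  certB0 (fam := true) (s1 := true) (s2 := true) (a := 1) (b := 0) (c := 1) (cn := .npn) (n1 := ndB0q1) (n2 := ndB2q0) (pc := pcB1) (cut := Cut.none) (xt := Ext.none) (P1 := 536870912) (W1 := 536870912) (P2 := 0) (W2 := 536870912) (P3 := 740881858) (W3 := 40050571) (N0 := 3) (En := eng) (mo := mog) (C1 := cd0q1) (C2 := cd2q0) (C3 := pd1)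
    rfl k0_pp_101

noncomputable def f_pp_102 : ℕ → ℕ → ℕ → ℕ → Bool := onCell 536870912 536870912 0 536870912 740881858 40050571
    (rowB 3 eng mog cd0q1 cd2q0 pd2 0 true true true .npp 1 0 2 (qsf 536870912 536870912 0 536870912 2) ndB0q1 ndB2q0 pcB2 Cut.none Ext.none)

def k0_pp_102 : ∃ t, chk3 f_pp_102 t 1 1 1 = true :=
  ⟨(l 5), by decide +kernel⟩

theorem c_pp_102 : CertB 536870912 536870912 0 536870912 740881858 40050571 3 eng mog cd0q1 cd2q0 pd2 true true true .npp 1 0 2
    ndB0q1 ndB2q0 pcB2 Cut.none Ext.none :=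
  certB0 (fam := true) (s1 := true) (s2 := true) (a := 1) (b := 0) (c := 2) (cn := .npp) (n1 := ndB0q1) (n2 := ndB2q0) (pc := pcB2) (cut := Cut.none) (xt := Ext.none) (P1 := 536870912) (W1 := 536870912) (P2 := 0) (W2 := 536870912) (P3 := 740881858) (W3 := 40050571) (N0 := 3) (En := eng) (mo := mog) (C1 := cd0q1) (C2 := cd2q0) (C3 := pd2)
    rfl k0_pp_102

noncomputable def f_pp_112 : ℕ → ℕ → ℕ → ℕ → Bool := onCell 536870912 536870912 536870912 536870912 740881858 40050571
    (rowB 3 eng mog cd0q1 cd2q1 pd2 0 true true true .dn 1 1 2 (qsf 536870912 536870912 536870912 536870912 2) ndB0q1 ndB2q1 pcB2 Cut.none Ext.none)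

def k0_pp_112 : ∃ t, chk3 f_pp_112 t 1 1 1 = true :=
  ⟨(l 4), by decide +kernel⟩

theorem c_pp_112 : CertB 536870912 536870912 536870912 536870912 740881858 40050571 3 eng mog cd0q1 cd2q1 pd2 true true true .dn 1 1 2
    ndB0q1 ndB2q1 pcB2 Cut.none Ext.none :=
  certB0 (fam := true) (s1 := true) (s2 := true) (a := 1) (b := 1) (c := 2) (cn := .dn) (n1 := ndB0q1) (n2 := ndB2q1) (pc := pcB2) (cut := Cut.none) (xt := Ext.none) (P1 := 536870912) (W1 := 536870912) (P2 := 536870912) (W2 := 536870912) (P3 := 740881858) (W3 := 40050571) (N0 := 3) (En := eng) (mo := mog) (C1 := cd0q1) (C2 := cd2q1) (C3 := pd2)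
    rfl k0_pp_112

noncomputable def f_pp_113 : ℕ → ℕ → ℕ → ℕ → Bool := onCell 536870912 536870912 536870912 536870912 740881858 40050571
    (rowB 3 eng mog cd0q1 cd2q1 pd3 0 true true true .nn 1 1 3 (qsf 536870912 536870912 536870912 536870912 3) ndB0q1 ndB2q1 pcB3 Cut.none Ext.none)

def k0_pp_113 : ∃ t, chk3 f_pp_113 t 1 1 1 = true :=
  ⟨(l 4), by decide +kernel⟩

theorem c_pp_113 : CertB 536870912 536870912 536870912 536870912 740881858 40050571 3 eng mog cd0q1 cd2q1 pd3 true true true .nn 1 1 3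
    ndB0q1 ndB2q1 pcB3 Cut.none Ext.none :=
  certB0 (fam := true) (s1 := true) (s2 := true) (a := 1) (b := 1) (c := 3) (cn := .nn) (n1 := ndB0q1) (n2 := ndB2q1) (pc := pcB3) (cut := Cut.none) (xt := Ext.none) (P1 := 536870912) (W1 := 536870912) (P2 := 536870912) (W2 := 536870912) (P3 := 740881858) (W3 := 40050571) (N0 := 3) (En := eng) (mo := mog) (C1 := cd0q1) (C2 := cd2q1) (C3 := pd3)
    rfl k0_pp_113

noncomputable def f_pp_123_a : ℕ → ℕ → ℕ → ℕ → Bool := onCell 536870912 536870912 0 536870912 740881858 40050571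
    (rowB 3 eng mog cd0q1 cd2q2a pd3 0 true true true .npn 1 2 3 (qsf 536870912 536870912 0 536870912 3) ndB0q1 ndB2q2a pcB3 Cut.none Ext.none)

def k0_pp_123_a : ∃ t, chk3 f_pp_123_a t 1 1 1 = true :=
  ⟨(l 4), by decide +kernel⟩

theorem c_pp_123_a : CertB 536870912 536870912 0 536870912 740881858 40050571 3 eng mog cd0q1 cd2q2a pd3 true true true .npn 1 2 3
    ndB0q1 ndB2q2a pcB3 Cut.none Ext.none :=
  certB0 (fam := true) (s1 := true) (s2 := true) (a := 1) (b := 2) (c := 3) (cn := .npn) (n1 := ndB0q1) (n2 := ndB2q2a) (pc := pcB3) (cut := Cut.none) (xt := Ext.none) (P1 := 536870912) (W1 := 536870912) (P2 := 0) (W2 := 536870912) (P3 := 740881858) (W3 := 40050571) (N0 := 3) (En := eng) (mo := mog) (C1 := cd0q1) (C2 := cd2q2a) (C3 := pd3)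
    rfl k0_pp_123_a

noncomputable def f_pp_123_b : ℕ → ℕ → ℕ → ℕ → Bool := onCell 536870912 536870912 1239849684 370763052 740881858 40050571
    (rowB 3 eng mog cd0q1 cd2q2b pd3 0 true true true .npn 1 2 3 (qsf 536870912 536870912 1239849684 370763052 3) ndB0q1 ndB2q2b pcB3 Cut.none Ext.none)

def k0_pp_123_b : ∃ t, chk3 f_pp_123_b t 1 1 1 = true :=
  ⟨(l 4), by decide +kernel⟩

theorem c_pp_123_b : CertB 536870912 536870912 1239849684 370763052 740881858 40050571 3 eng mog cd0q1 cd2q2b pd3 true true true .npn 1 2 3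
    ndB0q1 ndB2q2b pcB3 Cut.none Ext.none :=
  certB0 (fam := true) (s1 := true) (s2 := true) (a := 1) (b := 2) (c := 3) (cn := .npn) (n1 := ndB0q1) (n2 := ndB2q2b) (pc := pcB3) (cut := Cut.none) (xt := Ext.none) (P1 := 536870912) (W1 := 536870912) (P2 := 1239849684) (W2 := 370763052) (P3 := 740881858) (W3 := 40050571) (N0 := 3) (En := eng) (mo := mog) (C1 := cd0q1) (C2 := cd2q2b) (C3 := pd3)
    rfl k0_pp_123_b

noncomputable def f_pp_133 : ℕ → ℕ → ℕ → ℕ → Bool := onCell 536870912 536870912 1610612736 536870912 740881858 40050571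
    (rowB 3 eng mog cd0q1 cd2q3 pd3 0 true true true .dn 1 3 3 (qsf 536870912 536870912 1610612736 536870912 3) ndB0q1 ndB2q3 pcB3 Cut.none Ext.none)

def k0_pp_133 : ∃ t, chk3 f_pp_133 t 1 1 1 = true :=
  ⟨(l 4), by decide +kernel⟩

theorem c_pp_133 : CertB 536870912 536870912 1610612736 536870912 740881858 40050571 3 eng mog cd0q1 cd2q3 pd3 true true true .dn 1 3 3
    ndB0q1 ndB2q3 pcB3 Cut.none Ext.none :=
  certB0 (fam := true) (s1 := true) (s2 := true) (a := 1) (b := 3) (c := 3) (cn := .dn) (n1 := ndB0q1) (n2 := ndB2q3) (pc := pcB3) (cut := Cut.none) (xt := Ext.none) (P1 := 536870912) (W1 := 536870912) (P2 := 1610612736) (W2 := 536870912) (P3 := 740881858) (W3 := 40050571) (N0 := 3) (En := eng) (mo := mog) (C1 := cd0q1) (C2 := cd2q3) (C3 := pd3)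
    rfl k0_pp_133

noncomputable def f_pp_202 : ℕ → ℕ → ℕ → ℕ → Bool := onCell 0 536870912 0 536870912 740881858 40050571
    (rowB 3 eng mog cd0q2 cd2q0 pd2 0 true true true .pp 2 0 2 (qsf 0 536870912 0 536870912 2) ndB0q2 ndB2q0 pcB2 Cut.none Ext.none)

def k0_pp_202 : ∃ t, chk3 f_pp_202 t 1 1 1 = true :=
  ⟨(l 5), by decide +kernel⟩

theorem c_pp_202 : CertB 0 536870912 0 536870912 740881858 40050571 3 eng mog cd0q2 cd2q0 pd2 true true true .pp 2 0 2
    ndB0q2 ndB2q0 pcB2 Cut.none Ext.none :=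
  certB0 (fam := true) (s1 := true) (s2 := true) (a := 2) (b := 0) (c := 2) (cn := .pp) (n1 := ndB0q2) (n2 := ndB2q0) (pc := pcB2) (cut := Cut.none) (xt := Ext.none) (P1 := 0) (W1 := 536870912) (P2 := 0) (W2 := 536870912) (P3 := 740881858) (W3 := 40050571) (N0 := 3) (En := eng) (mo := mog) (C1 := cd0q2) (C2 := cd2q0) (C3 := pd2)
    rfl k0_pp_202

noncomputable def f_pp_203 : ℕ → ℕ → ℕ → ℕ → Bool := onCell 0 536870912 0 536870912 740881858 40050571
    (rowB 3 eng mog cd0q2 cd2q0 pd3 0 true true true .up 2 0 3 (qsf 0 536870912 0 536870912 3) ndB0q2 ndB2q0 pcB3 Cut.none Ext.none)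

def k0_pp_203 : ∃ t, chk3 f_pp_203 t 1 1 1 = true :=
  ⟨(l 5), by decide +kernel⟩

theorem c_pp_203 : CertB 0 536870912 0 536870912 740881858 40050571 3 eng mog cd0q2 cd2q0 pd3 true true true .up 2 0 3
    ndB0q2 ndB2q0 pcB3 Cut.none Ext.none :=
  certB0 (fam := true) (s1 := true) (s2 := true) (a := 2) (b := 0) (c := 3) (cn := .up) (n1 := ndB0q2) (n2 := ndB2q0) (pc := pcB3) (cut := Cut.none) (xt := Ext.none) (P1 := 0) (W1 := 536870912) (P2 := 0) (W2 := 536870912) (P3 := 740881858) (W3 := 40050571) (N0 := 3) (En := eng) (mo := mog) (C1 := cd0q2) (C2 := cd2q0) (C3 := pd3)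
    rfl k0_pp_203

noncomputable def f_pp_213 : ℕ → ℕ → ℕ → ℕ → Bool := onCell 0 536870912 536870912 536870912 740881858 40050571
    (rowB 3 eng mog cd0q2 cd2q1 pd3 0 true true true .pnn 2 1 3 (qsf 0 536870912 536870912 536870912 3) ndB0q2 ndB2q1 pcB3 Cut.none Ext.none)

def k0_pp_213 : ∃ t, chk3 f_pp_213 t 1 1 1 = true :=
  ⟨(l 4), by decide +kernel⟩

theorem c_pp_213 : CertB 0 536870912 536870912 536870912 740881858 40050571 3 eng mog cd0q2 cd2q1 pd3 true true true .pnn 2 1 3
    ndB0q2 ndB2q1 pcB3 Cut.none Ext.none :=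
  certB0 (fam := true) (s1 := true) (s2 := true) (a := 2) (b := 1) (c := 3) (cn := .pnn) (n1 := ndB0q2) (n2 := ndB2q1) (pc := pcB3) (cut := Cut.none) (xt := Ext.none) (P1 := 0) (W1 := 536870912) (P2 := 536870912) (W2 := 536870912) (P3 := 740881858) (W3 := 40050571) (N0 := 3) (En := eng) (mo := mog) (C1 := cd0q2) (C2 := cd2q1) (C3 := pd3)
    rfl k0_pp_213

noncomputable def f_pm_001 : ℕ → ℕ → ℕ → ℕ → Bool := onCell 0 536870912 0 536870912 740881858 40050571
    (rowB 3 eng mog cd0q0 cd2q0 pd1 0 true true false .up 0 0 1 (qsf 0 536870912 0 536870912 1) ndB0q0 ndB2q0 pcB1 Cut.none Ext.none)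

def k0_pm_001 : ∃ t, chk3 f_pm_001 t 1 1 1 = true :=
  ⟨(l 3), by decide +kernel⟩

theorem c_pm_001 : CertB 0 536870912 0 536870912 740881858 40050571 3 eng mog cd0q0 cd2q0 pd1 true true false .up 0 0 1
    ndB0q0 ndB2q0 pcB1 Cut.none Ext.none :=
  certB0 (fam := true) (s1 := true) (s2 := false) (a := 0) (b := 0) (c := 1) (cn := .up) (n1 := ndB0q0) (n2 := ndB2q0) (pc := pcB1) (cut := Cut.none) (xt := Ext.none) (P1 := 0) (W1 := 536870912) (P2 := 0) (W2 := 536870912) (P3 := 740881858) (W3 := 40050571) (N0 := 3) (En := eng) (mo := mog) (C1 := cd0q0) (C2 := cd2q0) (C3 := pd1)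
    rfl k0_pm_001

noncomputable def f_pm_011 : ℕ → ℕ → ℕ → ℕ → Bool := onCell 0 536870912 536870912 536870912 740881858 40050571
    (rowB 3 eng mog cd0q0 cd2q1 pd1 1 true true false .pnn 0 1 1 (qsf 0 536870912 536870912 536870912 1) ndB0q0 ndB2q1 pcB1 Cut.none Ext.none)

def k0_pm_011 : ∃ t, chk3 f_pm_011 t 1 1 1 = true :=
  ⟨(l 3), by decide +kernel⟩

theorem c_pm_011 : CertB 0 536870912 536870912 536870912 740881858 40050571 3 eng mog cd0q0 cd2q1 pd1 true true false .pnn 0 1 1
    ndB0q0 ndB2q1 pcB1 Cut.none Ext.none :=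
  certB1 (fam := true) (s1 := true) (s2 := false) (a := 0) (b := 1) (c := 1) (cn := .pnn) (n1 := ndB0q0) (n2 := ndB2q1) (pc := pcB1) (cut := Cut.none) (xt := Ext.none) (P1 := 0) (W1 := 536870912) (P2 := 536870912) (W2 := 536870912) (P3 := 740881858) (W3 := 40050571) (N0 := 3) (En := eng) (mo := mog) (C1 := cd0q0) (C2 := cd2q1) (C3 := pd1)
    rfl (fun _ => rfl) k0_pm_011

noncomputable def f_pm_012 : ℕ → ℕ → ℕ → ℕ → Bool := onCell 0 536870912 1073741824 536870912 740881858 40050571
    (rowB 3 eng mog cd0q0 cd2q1 pd2 1 true true false .pnp 0 1 2 (qsf 0 536870912 536870912 536870912 2) ndB0q0 ndB2q1 pcB2 Cut.none Ext.none)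

def k0_pm_012 : ∃ t, chk3 f_pm_012 t 1 4 1 = true :=
  ⟨(a (l 3) (b (l 3) (a (l 3) (b (l 3) (a (l 3) (b (l 3) (b (l 3) (a (l 3) (b (l 16534464) (l 16532680)))))))))), by decide +kernel⟩

def k1_pm_012 : ∃ t, chk3 f_pm_012 t 2 5 1 = true :=
  ⟨(b (b (b (a (a (l 2) (l 3)) (l 3)) (a (l 2) (b (l 3) (b (a (l 3) (a (l 3) (l 16531720))) (a (b (a (l 3) (l 3948316116631)) (a (l 16503704) (l 16528584))) (b (a (l 16531776) (l 16525560)) (a (l 16527728) (l 16521680)))))))) (a (l 2) (a (a (a (l 2) (l 16489200)) (l 16565456)) (a (l 16492368) (l 16487752))))) (a (l 2) (a (a (l 2) (b (l 16436640) (l 2))) (a (b (a (l 16427424) (l 16424440)) (l 16362704)) (b (l 16422736) (l 16358448)))))), by decide +kernel⟩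

def k2_pm_012 : ∃ t, chk3 f_pm_012 t 3 5 1 = true :=
  ⟨(b (b (b (a (a (l 3) (b (l 3) (a (l 3) (l 152638732439)))) (a (b (a (l 3) (b (l 3) (l 16540608))) (a (b (l 16541696) (l 16538112)) (b (l 16537800) (l 16535432)))) (b (a (b (l 16537568) (l 16535400)) (b (l 16531112) (l 16530208))) (a (b (l 16533864) (l 16532256)) (b (l 16529504) (l 16528560)))))) (a (b (b (a (l 3) (a (l 16535304) (l 16535640))) (a (a (l 16534032) (l 16529848)) (a (l 16529696) (l 16531072)))) (b (a (a (b (l 16528288) (l 16524416)) (l 16586040)) (a (l 16565864) (l 16526160))) (a (b (a (a (l 16542792) (l 16540664)) (c (l 16583512) (l 16536336))) (a (l 16517024) (l 16514584))) (b (a (c (l 16606064) (l 16558480)) (c (l 16546416) (l 16519384))) (a (l 16516464) (l 16520288)))))) (b (a (b (a (l 16534680) (l 16532784)) (a (l 16530872) (l 16529888))) (b (a (l 16530424) (l 16527640)) (a (l 16528576) (l 16526936)))) (b (a (a (l 16547992) (l 16527304)) (a (l 16527112) (l 16526168))) (a (b (a (l 16524528)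 (l 16525616)) (a (l 16522808) (l 16524352))) (b (a (l 16526056) (l 16525648)) (a (l 16525192) (l 16525072)))))))) (a (a (a (l 16568960) (l 16526880)) (a (l 16510400) (l 16496112))) (a (a (l 16501640) (l 16506248)) (a (l 16510176) (l 16513120))))) (a (a (a (b (l 16422808) (l 16359632)) (b (l 16426424) (l 16365840))) (a (b (l 16435080) (l 16377880)) (b (l 16446360) (l 16393000)))) (a (a (b (l 16456928) (l 16408016)) (l 16550368)) (a (l 16499408) (l 16531432))))), by decide +kernel⟩

def k3_pm_012 : ∃ t, chk3 f_pm_012 t 1 3 1 = true :=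
  ⟨(a (a (l 2) (b (b (a (l 2) (a (l 2) (b (l 16297600) (l 2)))) (l 2)) (l 2))) (a (b (a (b (a (b (l 16297480) (l 16238928)) (b (l 16304656) (l 16244648))) (a (l 2) (b (l 16188240) (l 2)))) (b (a (b (l 16318992) (l 16259696)) (b (l 16337200) (l 16279976))) (a (b (l 16201560) (l 16146888)) (b (l 16222424) (l 16165936))))) (a (l 2) (b (a (l 2) (b (l 16112656) (l 2))) (l 2)))) (b (b (a (a (b (l 16356072) (l 16302032)) (b (l 16375360) (l 16325360))) (a (b (l 16394728) (l 16349368)) (b (l 16413480) (l 16373128)))) (a (a (b (l 16246760) (l 16191208)) (b (l 16273568) (l 16220696))) (a (l 16277912) (l 16309000)))) (a (b (a (b (l 16136552) (l 16084736)) (l 16162824)) (a (l 2) (l 16148408))) (b (a (l 16178496) (l 16218656)) (a (l 16268464) (b (l 16148688) (l 16102296)))))))), by decide +kernel⟩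

theorem s4_pm_012 : ∃ t, chk3 f_pm_012 t 1 5 1 = true := ex3_a k1_pm_012 k2_pm_012

theorem s5_pm_012 : ∃ t, chk3 f_pm_012 t 1 2 1 = true := ex3_b k0_pm_012 s4_pm_012

theorem s6_pm_012 : ∃ t, chk3 f_pm_012 t 1 1 1 = true := ex3_b s5_pm_012 k3_pm_012

theorem c_pm_012 : CertB 0 536870912 536870912 536870912 740881858 40050571 3 eng mog cd0q0 cd2q1 pd2 true true false .pnp 0 1 2
    ndB0q0 ndB2q1 pcB2 Cut.none Ext.none :=
  certB1 (fam := true) (s1 := true) (s2 := false) (a := 0) (b := 1) (c := 2) (cn := .pnp) (n1 := ndB0q0) (n2 := ndB2q1) (pc := pcB2) (cut := Cut.none) (xt := Ext.none) (P1 := 0) (W1 := 536870912) (P2 := 536870912) (W2 := 536870912) (P3 := 740881858) (W3 := 40050571) (N0 := 3) (En := eng) (mo := mog) (C1 := cd0q0) (C2 := cd2q1) (C3 := pd2)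
    rfl (fun _ => rfl) s6_pm_012

noncomputable def cut_pm_022_a : Cut := Cut.of [[⟨0, 0, 0, 67108864⟩, ⟨1, 1, 0, 67108864⟩, ⟨2, 1, 0, 67108864⟩]]

noncomputable def f_pm_022_a : ℕ → ℕ → ℕ → ℕ → Bool := onCell 1073741824 536870912 0 536870912 740881858 40050571
    (rowB 3 eng mog cd0q0 cd2q2a pd2 2 true true false .pp 0 2 2 (qsf 0 536870912 0 536870912 2) ndB0q0 ndB2q2a pcB2 cut_pm_022_a Ext.none)

def k0_pm_022_a : ∃ t, chk3 f_pm_022_a t 4 2 1 = true :=
  ⟨(a (l 1) (b (l 1) (a (l 1) (b (l 1) (a (l 1) (a (l 1) (b (l 1) (c (b (l 16407088) (l 16420000)) (b (a (l 1) (l 16381728)) (a (l 16395096) (l 16395480))))))))))), by decide +kernel⟩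

def k1_pm_022_a : ∃ t, chk3 f_pm_022_a t 8 3 1 = true :=
  ⟨(b (l 1) (b (a (l 1) (b (a (l 1) (a (l 1) (b (l 1) (a (b (l 1) (l 6)) (b (c (l 16604224) (l 16595760)) (a (l 6) (l 16610872))))))) (a (l 6) (a (l 6) (a (l 6) (a (l 6) (b (l 16626960) (l 16648552)))))))) (a (l 6) (a (l 6) (a (l 6) (a (l 6) (a (l 6) (b (b (l 16670312) (l 16691960)) (a (l 6) (a (l 6) (b (l 16686704) (b (l 16682784) (b (l 16680536) (c (l 16680632) (l 16677240))))))))))))))), by decide +kernel⟩

def k2_pm_022_a : ∃ t, chk3 f_pm_022_a t 18 6 1 = true :=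
  ⟨(b (l 1) (a (b (l 1) (a (l 1) (b (a (l 1) (a (l 1) (b (l 1) (l 16554616)))) (a (b (c (l 16552608) (l 16539104)) (c (l 16564904) (l 16552488))) (b (c (l 49425241767) (l 16538872)) (c (l 16564720) (l 16551984))))))) (b (a (a (l 1) (b (l 1) (b (l 1) (c (l 16519616) (l 16502128))))) (b (a (l 1) (b (l 1) (c (l 50498878903) (l 66068104471)))) (a (b (c (l 35466516743) (l 46203899335)) (c (a (l 16520368) (l 16520880)) (l 113849655911))) (b (c (a (l 16511024) (l 16511664)) (l 140693182327)) (c (l 16521656) (l 16503608)))))) (a (b (a (b (c (l 16529872) (l 16513656)) (c (l 67678831223) (l 68215672407))) (b (c (a (l 16530408) (l 16530776)) (l 89690486199)) (c (l 16541736) (l 16526248)))) (a (b (c (l 16552856) (l 16538712)) (l 16558248)) (b (l 16546040) (l 16558056)))) (b (a (b (c (l 16531352) (l 16514552)) (l 16534584)) (b (l 16523864) (l 16535024))) (a (l 16573056) (l 16552144))))))), by decide +kernel⟩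

def k3_pm_022_a : ∃ t, chk3 f_pm_022_a t 18 14 1 = true :=
  ⟨(b (a (b (a (a (b (l 1) (c (l 16591752) (l 16582312))) (b (c (l 16577912) (l 16566960)) (c (l 16590824) (l 16581040)))) (a (b (c (l 16577368) (l 16566080)) (l 16585056)) (b (l 16571240) (l 16584144)))) (a (a (b (c (l 16603800) (l 16595376)) (l 16610144)) (b (l 16598320) (l 16608536))) (a (b (l 16597048) (l 16607040)) (l 16600792)))) (a (b (a (b (l 16570704) (l 16583320)) (l 16576448)) (a (l 16599592) (l 16598472))) (b (a (l 16575912) (l 16575440)) (l 16617928)))) (a (b (a (a (c (l 16629144) (l 16622640)) (l 16624008)) (a (l 16622152) (l 16620400))) (a (a (l 16668192) (l 16644760)) (l 16667504))) (b (a (l 16638936) (l 16615040)) (a (l 16658032) (l 16633248))))), by decide +kernel⟩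

def k4_pm_022_a : ∃ t, chk3 f_pm_022_a t 18 15 1 = true :=
  ⟨(b (a (a (a (b (l 16668616) (l 16688712)) (b (l 16665640) (l 16685128))) (b (l 16661416) (l 16679480))) (b (a (l 16656224) (l 16651488)) (a (l 16671464) (l 16662944)))) (a (b (b (a (c (l 16683864) (l 16684336)) (l 16676760)) (a (a (l 16683448) (l 16680008)) (c (l 16674576) (l 16674624)))) (b (a (a (c (l 16681712) (l 16679880)) (l 16698376)) (c (l 16672600) (l 16671520))) (b (a (a (c (a (l 16680752) (l 16679056)) (l 16677224)) (c (l 16676432) (l 16674056))) (c (l 16691888) (l 16668968))) (a (a (a (a (b (l 16678576) (c (l 16679520) (l 16675992))) (c (l 16679032) (l 16675728))) (b (l 16676568) (c (l 16677432) (l 16674088)))) (c (a (l 16676048) (l 16674280)) (a (l 16673000) (l 16671384)))) (c (a (l 16682048) (l 16667800)) (a (l 16668872) (l 16665376))))))) (b (a (b (l 16668872) (l 16687728)) (b (l 16660448) (l 16679400))) (a (b (c (l 16664640) (l 16664104)) (c (a (l 16664496) (l 16660408)) (a (l 16662640)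 (l 16658792)))) (b (c (l 16656128) (l 16656080)) (c (b (l 16654520) (l 16674320)) (a (l 16654768) (l 16650544)))))))), by decide +kernel⟩

def k5_pm_022_a : ∃ t, chk3 f_pm_022_a t 38 3 1 = true :=
  ⟨(a (b (b (b (l 1) (b (l 1) (b (a (l 1) (c (l 16476328) (l 16453392))) (a (c (l 16483504) (l 16461624)) (c (l 95059124759) (l 113312710599)))))) (b (b (a (b (c (l 74658048711) (l 78416117351)) (c (l 166999872535) (l 16482568))) (b (c (l 16494752) (l 16473464)) (l 16504840))) (a (c (l 16517704) (l 16498928)) (b (l 16504496) (l 16514824)))) (b (a (l 16530080) (l 16530720)) (l 16573304)))) (b (b (b (l 16574856) (l 16595192)) (b (l 16612456) (l 16629816))) (b (b (l 16647168) (l 16653960)) (b (b (l 16651536) (l 16649496)) (b (l 16668032) (c (l 16655136) (l 16643768))))))) (b (a (b (b (l 1) (b (c (b (l 16461240) (l 53183153719)) (b (l 16436568) (l 60162452775))) (b (c (l 124050137847) (l 145524950359)) (c (l 16487376) (l 16465024))))) (b (b (b (l 16486072) (l 16495800)) (l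 16510816)) (b (l 16531400) (l 16552632)))) (b (b (b (l 1) (a (l 1) (b (l 1) (c (l 16455808) (l 16430304))))) (a (b (c (l 70363018711) (l 91837830663)) (b (l 16468760) (l 16477936))) (b (b (c (l 16463888) (l 16439088)) (l 16471016)) (b (l 16469400) (l 16478488))))) (b (b (a (l 16492136) (l 16492560)) (l 16511800)) (b (l 16531960) (l 16552728))))) (b (b (b (l 16616152) (l 16635568)) (c (l 16622496) (l 16593160))) (b (b (l 16643176) (a (l 16646944) (l 16642216))) (b (a (l 16643440) (l 16659616)) (b (a (l 16639792) (l 16634784)) (a (l 16657680) (a (l 16632800) (l 16630320))))))))), by decide +kernel⟩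

def k6_pm_022_a : ∃ t, chk3 f_pm_022_a t 39 3 1 = true :=
  ⟨(b (b (b (a (b (c (a (l 16436024) (l 16435136)) (a (l 16409688) (l 16409872))) (a (c (b (l 16447248) (l 16455032)) (l 16447048)) (c (l 16450088) (l 16426040)))) (b (c (l 16433816) (l 46740571623)) (a (l 16437824) (l 16437256)))) (a (b (a (c (l 16467168) (l 16443464)) (c (l 16465872) (l 16443184))) (a (l 16494208) (l 16472176))) (b (a (l 16454056) (l 16453272)) (a (l 16471128) (l 16470104))))) (b (a (b (a (l 16491616) (l 16490288)) (l 16509944)) (b (l 16488344) (l 16506768))) (a (b (l 16529608) (l 16549856)) (b (l 16525824) (l 16545416))))) (b (b (b (l 16602096) (a (l 16589280) (l 16583504))) (b (l 16602064) (l 16617664))) (b (b (l 16633352) (a (l 16637080) (l 16630400))) (b (a (c (l 16632264) (l 16634200)) (c (l 16625432) (l 16626152))) (b (a (c (l 16628912) (l 16629008)) (c (l 16621472) (l 16620360))) (a (c (a (l 16627928) (l 16624136)) (a (l 16626976) (l 16622632))) (a (c (l 16620192) (l 16618080)) (c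 (l 16616080) (l 16613320))))))))), by decide +kernel⟩

def k7_pm_022_a : ∃ t, chk3 f_pm_022_a t 20 4 1 = true :=
  ⟨(a (l 1) (b (a (l 1) (a (l 1) (b (c (a (b (l 1) (l 16341992)) (b (l 16345096) (l 16342680))) (a (l 16339208) (l 16319192))) (b (a (c (l 16340560) (l 16316016)) (c (l 16341208) (l 16316936))) (a (c (l 16340072) (l 16315968)) (c (l 16340688) (l 16316848))))))) (a (a (l 1) (b (l 1) (a (b (l 1) (c (l 16346360) (l 16323000))) (c (b (l 16343008) (l 16346664)) (b (l 16319360) (l 16323776)))))) (a (b (c (b (a (l 1) (l 16339896)) (a (l 16340864) (l 16341408))) (b (l 16315320) (c (l 16323528) (l 16311344)))) (c (b (c (l 16349208) (l 16338032)) (l 16347128)) (b (l 16320696) (l 16324944)))) (b (a (c (b (l 16340544) (l 16341960)) (b (l 16316944) (l 16318968))) (c (b (l 16341112) (l 16342480)) (l 16339800))) (a (c (b (l 16344320) (l 16347616)) (b (l 16322024) (l 16326112))) (c (b (l 16344776) (l 16348000)) (b (l 16322752) (l 16326768))))))))), by decide +kernel⟩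

def k8_pm_022_a : ∃ t, chk3 f_pm_022_a t 21 4 1 = true :=
  ⟨(b (a (b (c (a (b (l 16347536) (l 16345152)) (b (l 16351408) (l 16349080))) (a (b (l 16321904) (l 16319752)) (l 16323576))) (c (a (b (c (l 16349648) (l 16337624)) (l 16353664)) (b (l 16347656) (l 16347136))) (b (a (l 16318608) (l 16321248)) (a (l 16318472) (l 16321048))))) (b (c (a (l 16354064) (l 16357704)) (a (l 16326240) (l 16328888))) (c (c (b (l 16359856) (l 16359296)) (a (l 16344672) (l 16348112))) (b (a (l 16323864) (l 16326456)) (a (l 16323592) (l 16326112)))))) (a (b (a (c (a (a (l 16363792) (l 16343824)) (l 16345304)) (b (l 16319352) (l 16321240))) (c (b (l 16347512) (l 16348792)) (b (l 16321832) (l 16323592)))) (a (c (b (a (l 16346200) (l 16348136)) (a (l 16349384) (l 16351264))) (b (l 16345112) (l 16328048))) (c (b (l 16350960) (l 16354008)) (b (l 16326344) (l 16330064))))) (c (b (a (l 16351968) (l 16355584)) (a (l 16356136) (l 16359584))) (b (a (l 16325160) (l 16327512)) (a (b (l 16328512)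 (l 16332056)) (l 16332392)))))), by decide +kernel⟩

def k9_pm_022_a : ∃ t, chk3 f_pm_022_a t 10 10 1 = true :=
  ⟨(b (a (b (a (l 1) (a (c (a (l 16350840) (l 16351168)) (a (l 16327608) (l 16328912))) (a (c (l 16351536) (l 16330232)) (a (c (l 16351832) (l 16331232)) (c (l 16352144) (l 16331808)))))) (a (a (l 1) (a (l 1) (c (l 16356744) (l 16333360)))) (a (c (a (b (l 16355112) (l 16358408)) (l 16356744)) (a (b (l 16332576) (l 16336280)) (l 16335432))) (a (c (l 16377760) (l 16357432)) (a (b (l 16345672) (c (l 16358264) (l 16338912))) (a (a (a (l 16347336) (a (l 16347360) (b (l 16345888) (l 16348816)))) (l 16347448)) (l 16347696))))))) (a (a (c (b (l 16375352) (l 16359312)) (b (l 16332952) (l 16338848))) (c (b (l 16357928) (l 16362696)) (b (l 16334752) (l 16340400)))) (c (a (l 16363680) (l 16366856)) (a (l 16339296) (l 16340928))))) (a (a (a (l 1) (a (b (l 1) (c (l 16373296) (l 16349624))) (b (c (l 16364400) (l 16341440)) (c (l 16373088) (l 16350520))))) (a (a (b (l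 16353464) (l 16362280)) (b (l 16353824) (l 16362584))) (a (b (l 16354160) (l 16362896)) (a (a (l 16358816) (l 16379880)) (a (a (a (l 16358984) (a (l 16359016) (b (l 16354536) (l 16363368)))) (l 16359088)) (l 16380240)))))) (a (a (b (c (l 16365848) (l 16346168)) (l 16364568)) (b (c (l 16368744) (l 16347304)) (l 16366304))) (a (c (l 16375456) (l 16352656)) (c (l 16377960) (l 16353584)))))), by decide +kernel⟩

def k10_pm_022_a : ∃ t, chk3 f_pm_022_a t 10 11 1 = true :=
  ⟨(b (a (b (a (a (a (l 1) (c (l 16383312) (c (l 16365288) (l 16352656)))) (c (l 16382864) (a (l 16359848) (l 16360648)))) (a (a (l 16372072) (l 16372296)) (a (l 16372560) (a (l 16372824) (c (l 16402840) (l 16364256)))))) (a (a (c (l 16394264) (a (c (l 16376120) (l 16363184)) (l 16370416))) (c (l 16393448) (a (l 16371112) (l 16371800)))) (a (a (l 16382808) (l 16382944)) (a (l 16383136) (a (l 16383384) (c (l 16392096) (l 16375144))))))) (a (a (b (l 16374056) (l 16384424)) (l 16380536)) (a (l 16381696)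 (l 16382792)))) (a (a (a (c (b (l 16405984) (l 16418608)) (b (a (l 16382280) (l 16382832)) (a (l 16395864) (l 16396256)))) (b (c (l 16404920) (l 16383672)) (c (l 16417248) (l 16396864)))) (a (b (a (l 16394472) (l 16394496)) (l 16406992)) (a (l 16400848) (a (l 16401048) (c (b (l 16403144) (l 16414976)) (l 16393400)))))) (a (a (l 16401736) (l 16402184)) (a (l 16402568) (l 16402896))))), by decide +kernel⟩

def k11_pm_022_a : ∃ t, chk3 f_pm_022_a t 11 2 1 = true :=
  ⟨(b (b (a (a (b (c (l 16362944) (l 16353776)) (c (c (l 16367120) (l 16353072)) (b (a (l 16329016) (l 16331568)) (l 16329840)))) (b (c (l 16369560) (l 16337984)) (c (c (l 16374048) (l 16359376)) (c (l 16343496) (l 16326408))))) (a (b (c (l 16375768) (l 16343112)) (c (l 16373008) (b (l 16340352) (l 16339536)))) (b (c (l 16381760) (l 16348360)) (c (l 16379112) (l 16345128))))) (a (a (c (b (a (l 16359064) (l 16362432)) (a (l 16362896) (l 16366080))) (b (a (l 16329848) (l 16332160)) (a (l 16334424) (l 16336432))))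 (c (b (l 16367240) (l 16370616)) (b (a (l 16334456) (l 16336736)) (a (l 16338424) (l 16340400))))) (a (c (b (l 16373224) (l 16376256)) (b (l 16340072) (l 16343312))) (c (b (l 16379144) (l 16381984)) (b (l 16344856) (l 16347712)))))) (a (b (a (b (c (a (l 16369888) (l 16372784)) (a (l 16342536) (l 16344128))) (c (b (l 16378248) (l 16384648)) (b (l 16351264) (l 16358464)))) (b (c (l 16376896) (a (l 16345712) (l 16347280))) (c (b (l 16383304) (l 16388720)) (b (l 16353728) (l 16359872))))) (a (b (c (l 16396376) (l 16371576)) (a (l 16403176) (l 16403376))) (b (c (l 16399368) (l 16372056)) (a (l 16403656) (l 16404072))))) (b (a (b (c (l 16382024) (l 16349640)) (c (l 16390416) (a (l 16358304) (l 16359656)))) (b (c (l 16387528) (l 16353616)) (c (l 16395744) (l 16362568)))) (a (b (c (l 16402648) (l 16373104)) (c (l 16418288) (l 16391472))) (b (c (l 16407456) (l 16376032)) (l 16408912)))))), by decide +kernel⟩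

def k12_pm_022_a : ∃ t, chk3 f_pm_022_a t 10 6 1 = true :=
  ⟨(a (a (a (b (b (b (c (l 16432088) (l 16410544)) (c (l 16446384) (l 16425984))) (b (l 16483576) (l 16468608))) (b (b (l 16485832) (l 16503712)) (l 16531792))) (b (b (b (l 16420888) (l 16435376)) (b (l 16450672) (l 16466720))) (b (l 16492256) (l 16528024)))) (a (b (b (b (l 16420336) (l 16434496)) (b (l 16449424) (l 16465064))) (b (l 16489904) (l 16524608))) (b (a (b (l 16427152) (l 16456504)) (a (b (l 16427248) (l 16456448)) (b (b (l 16420432) (l 16434280)) (l 16493256)))) (a (b (l 16488480) (l 16522376)) (b (a (l 16488208) (l 16488192)) (a (l 16521864) (l 16521696))))))) (b (b (a (a (l 16427376) (l 16426896)) (l 16426080)) (a (a (l 16455888) (l 16454352)) (l 16451904))) (b (a (l 16527280) (l 16480104)) (a (l 16538544) (l 16510296))))), by decide +kernel⟩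

def k13_pm_022_a : ∃ t, chk3 f_pm_022_a t 20 7 1 = true :=
  ⟨(a (b (b (b (l 16537176) (a (l 16577928) (l 16572576))) (a (l 16600472) (l 16594720))) (b (b (l 16620048) (a (l 16623096) (l 16615088))) (b (a (c (l 16618000) (l 16617344)) (b (l 16610560) (l 16606840))) (a (b (a (l 16614384) (l 16609808)) (a (c (l 16611792) (l 16608328)) (b (l 16606424) (c (l 16606224) (l 16601672))))) (a (b (l 16605024) (b (l 16601432) (c (l 16601480) (a (l 16597536) (l 16594688))))) (b (l 16599992) (b (l 16596192) (c (b (l 16597128) (l 16595880)) (b (l 16591064) (l 16589456)))))))))) (b (a (b (b (l 16551360) (l 16567768)) (l 16589592)) (a (b (l 16556824) (l 16586608)) (b (a (l 16555992) (b (l 16547544) (l 16563672))) (a (l 16585888) (l 16585656))))) (a (a (b (l 16611256) (b (l 16601552) (b (l 16594688) (b (l 16590664) (c (a (l 16592624) (l 16589944)) (a (l 16585680) (l 16582504))))))) (b (l 16606736) (b (l 16596312) (b (l 16589016) (c (a (l 16588536) (l 16585688)) (b (l 16580920) (a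 (l 16579208) (l 16575784)))))))) (a (b (b (l 16604392) (l 16598568)) (b (l 16590512) (b (c (l 16586456) (l 16578784)) (c (a (l 16582736) (l 16579616)) (b (l 16573792) (a (l 16572208) (l 16568392))))))) (b (a (b (l 16600128) (l 16593904)) (b (l 16597032) (l 16590528))) (b (a (l 16606368) (c (l 16585312) (l 16577832))) (b (a (c (l 16581536) (l 16572752)) (a (c (l 16578520) (c (l 16571496) (l 16566440))) (l 16572072))) (a (a (c (l 16577080) (l 16567128)) (c (l 16575120) (a (l 16565408) (l 16564088)))) (a (a (a (l 16568456) (a (l 16567744) (b (l 16568784) (l 16565496)))) (l 16566592)) (l 16565704)))))))))), by decide +kernel⟩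

def k14_pm_022_a : ∃ t, chk3 f_pm_022_a t 21 7 1 = true :=
  ⟨(a (b (b (b (l 16542528) (l 16558296)) (l 16580080)) (b (b (l 16588184) (b (l 16540704) (l 16599448))) (b (a (l 16596432) (l 16566496)) (b (a (l 16587872) (l 16557560)) (a (c (b (l 16567272) (l 16564320)) (b (l 16556520) (l 16552832))) (c (l 16556472) (l 16545464))))))) (b (b (l 16541824) (l 16571440)) (b (b (l 16572168) (a (l 16567856) (l 16559128))) (b (a (l 16557416) (l 16548640)) (a (b (l 16548512) (c (l 16547352) (l 16536464))) (b (l 16539688) (c (l 16538480) (l 16527728)))))))), by decide +kernel⟩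

def k15_pm_022_a : ∃ t, chk3 f_pm_022_a t 11 3 1 = true :=
  ⟨(a (b (b (b (a (l 16424872) (l 16424248)) (a (l 16449184) (l 16447480))) (b (a (l 16475752) (l 16473360)) (a (l 16504840) (b (l 16494200) (l 16509080))))) (b (a (b (l 16535824) (l 16563888)) (b (l 16530992) (l 16550680))) (b (a (b (l 16555544) (l 16567480)) (b (l 16560600) (l 16530464))) (b (a (a (l 16540088) (l 16531784)) (a (l 16523768) (l 16516048))) (a (a (b (l 16531128) (c (l 16529896) (l 16519288))) (b (l 16522864) (c (l 16521608) (l 16511168)))) (a (b (l 16514904) (c (l 16513664) (l 16503424))) (b (l 16507288) (c (b (l 16507392) (l 16525472)) (l 16495928))))))))) (a (b (b (b (l 16425264) (l 16447936)) (b (l 16473664) (b (l 16493696) (l 16507480)))) (b (b (l 16527536) (l 16535912)) (b (a (l 16544808) (l 16537664)) (b (a (l 16508656) (l 16501408)) (a (b (l 16499848) (c (l 16498408) (l 16488600))) (b (l 16492560) (c (l 16490896) (l 16481280)))))))) (b (b (b (l 16428456) (l 16451096)) (b (l 16475568)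 (l 16500696))) (b (b (l 16523168) (l 16522184)) (b (a (l 16530640) (l 16544768)) (b (c (l 16493648) (l 16488136)) (c (b (l 16485632) (a (l 16483456) (l 16476080))) (b (l 16477832) (a (l 16474008) (l 16466776)))))))))), by decide +kernel⟩

def k16_pm_022_a : ∃ t, chk3 f_pm_022_a t 3 2 1 = true :=
  ⟨(a (b (a (a (b (a (b (c (l 16388504) (l 16354712)) (c (l 16385912) (l 16351376))) (b (c (l 16396488) (l 16363672)) (c (l 16393984) (l 16360328)))) (a (c (l 16387664) (b (l 16351056) (l 16353744))) (c (l 16395848) (a (l 16358736) (l 16364536))))) (b (a (b (l 16391816) (l 16388984)) (b (l 16405400) (l 16402576))) (a (a (l 16387712) (l 16394056)) (l 16404064)))) (b (a (b (l 16426744) (l 16423688)) (l 16450128)) (a (l 16466256) (l 16447216)))) (a (a (b (a (b (c (l 16394448) (l 16359480)) (c (l 16402680) (l 16368296))) (b (a (l 16384152) (l 16389160)) (a (l 16392760) (l 16398016)))) (a (b (c (l 16414072) (l 16381216)) (l 16415200)) (b (a (l 16404912) (l 16409792)) (l 16423264))))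 (b (a (b (l 16398032) (l 16406616)) (l 16415088)) (b (a (l 16417936) (l 16428392)) (l 16436832)))) (b (a (a (l 16426864) (l 16437272)) (l 16451584)) (a (a (l 16443200) (l 16450672)) (b (l 16457520) (l 16463072)))))) (b (a (b (a (l 16471808) (l 16493816)) (a (l 16467528) (l 16488128))) (b (a (l 16513560) (l 16527288)) (a (l 16505752) (l 16517376)))) (a (a (b (l 16469576) (l 16515720)) (b (l 16486384) (l 16485304))) (b (a (l 16498992) (l 16507712)) (a (l 16490976) (l 16493856)))))), by decide +kernel⟩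

def k17_pm_022_a : ∃ t, chk3 f_pm_022_a t 6 6 1 = true :=
  ⟨(a (b (a (a (b (l 16434376) (l 16455832)) (b (l 16441848) (l 16461264))) (b (l 16451976) (l 16466816))) (a (b (a (l 16478512) (l 16459504)) (a (l 16499752) (l 16497440))) (b (l 16481072) (l 16492520)))) (b (a (b (l 16461744) (l 16471840)) (l 16473000)) (a (b (l 16479440) (l 16484248)) (b (l 16477192) (l 16473816))))), by decide +kernel⟩

def k18_pm_022_a : ∃ t, chk3 f_pm_022_a t 6 7 1 = true :=
  ⟨(a (b (a (b (c (l 16512064) (l 16511792)) (a (l 16509088) (l 16538648))) (b (l 16493568) (a (l 16484600) (l 16472784)))) (b (a (a (b (l 16497488) (l 16487912)) (b (l 16484504) (l 16495512))) (b (a (l 16471840) (l 16459552)) (a (l 16461472) (l 16449008)))) (a (b (a (c (l 16479536) (l 16474296)) (a (l 16466416) (l 16459576))) (a (c (b (l 16471240) (a (l 16479280) (b (l 16463160) (l 16460000)))) (b (l 16463680) (a (l 16470088) (b (l 16454448) (l 16450496))))) (a (b (l 16477744) (a (c (l 16456256) (l 16447184)) (b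 (l 16449824) (c (l 16451176) (l 16441584))))) (b (l 16449848) (b (l 16444616) (c (l 16446192) (l 16436104))))))) (a (b (b (l 16452760) (l 16446480)) (b (c (l 16444504) (l 16435392)) (b (a (l 16437864) (l 16431384)) (a (c (l 16439768) (l 16429048)) (c (l 16433600) (l 16422264)))))) (b (b (l 16440168) (l 16433896)) (b (c (l 16432584) (l 16422240)) (c (b (l 16427968) (a (l 16427672) (l 16421968))) (a (l 16417736) (l 16411472))))))))) (b (a (b (l 16514256) (a (l 16482504) (l 16450848))) (b (l 16453128) (b (l 16440184) (l 16431648)))) (b (a (a (b (l 16447912) (l 16437280)) (l 16473784)) (a (l 16484560) (b (l 16417048) (l 16406096)))) (a (b (a (b (l 16428504) (l 16422272)) (b (l 16417640) (l 16411488))) (b (a (c (l 16421504) (l 16410104)) (a (l 16407616) (l 16402344))) (a (c (b (l 16416920) (a (l 16416456) (l 16411120))) (a (l 16405464) (l 16399680))) (a (c (l 16428464) (l 16394120)) (c (l 16402336) (l 16388656)))))) (b (a (a (l 16406816) (l 16401704)) (l 16393976)) (a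 (b (l 16394512) (a (c (l 16397120) (l 16383176)) (c (l 16391864) (l 16377672)))) (b (l 16383968) (a (c (l 16386568) (l 16372160)) (c (l 16381256) (l 16366656)))))))))), by decide +kernel⟩

def k19_pm_022_a : ∃ t, chk3 f_pm_022_a t 7 3 1 = true :=
  ⟨(b (a (a (b (l 16477304) (l 16487168)) (b (l 16477712) (l 16453160))) (b (a (l 16474768) (l 16470672)) (b (l 16486656) (l 16535776)))) (a (b (a (b (l 16435392) (a (l 16421904) (l 16412608))) (b (l 16417992) (a (l 16403496) (l 16394760)))) (b (a (b (l 16402488) (l 16412144)) (a (l 16382560) (l 16373472))) (a (b (a (l 16383672) (l 16373512)) (b (a (l 16373432) (c (l 16369640) (l 16355888))) (a (a (c (l 16375952) (l 16361176)) (c (l 16370672) (l 16355744))) (a (c (l 16365448) (l 16350400)) (c (l 16360296) (l 16345168)))))) (b (a (l 16384656) (l 16354352)) (a (b (a (l 16355544) (l 16350672)) (c (a (l 16355240) (l 16350296)) (a (l 16340080) (l 16335128)))) (b (l 16343640) (c (a (l 16345488) (l 16340848)) (l 16348992))))))))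 (b (a (b (l 16402144) (a (l 16386544) (l 16379016))) (b (l 16389120) (l 16369208))) (b (a (b (l 16366896) (l 16354872)) (b (l 16353200) (l 16341088))) (a (b (a (l 16345656) (l 16337752)) (a (b (l 16334856) (a (l 16350320) (l 16346112))) (b (l 16326920) (c (b (l 16328056) (l 16324504)) (l 16311176))))) (b (a (l 16330832) (l 16325136)) (a (b (l 16320016) (a (c (l 16321088) (l 16305832)) (c (l 16318080) (l 16302616)))) (c (b (l 16320976) (a (l 16315392) (l 16312984))) (a (l 16303888) (l 16301208)))))))))), by decide +kernel⟩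

theorem s20_pm_022_a : ∃ t, chk3 f_pm_022_a t 6 3 1 = true := ex3_b k17_pm_022_a k18_pm_022_a

theorem s21_pm_022_a : ∃ t, chk3 f_pm_022_a t 3 3 1 = true := ex3_a s20_pm_022_a k19_pm_022_a

theorem s22_pm_022_a : ∃ t, chk3 f_pm_022_a t 3 1 1 = true := ex3_b k16_pm_022_a s21_pm_022_a

theorem s23_pm_022_a : ∃ t, chk3 f_pm_022_a t 10 7 1 = true := ex3_a k13_pm_022_a k14_pm_022_a

theorem s24_pm_022_a : ∃ t, chk3 f_pm_022_a t 10 3 1 = true := ex3_b k12_pm_022_a s23_pm_022_a

theorem s25_pm_022_a : ∃ t, chk3 f_pm_022_a t 5 3 1 = true := ex3_a s24_pm_022_a k15_pm_022_a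

theorem s26_pm_022_a : ∃ t, chk3 f_pm_022_a t 10 5 1 = true := ex3_b k9_pm_022_a k10_pm_022_a

theorem s27_pm_022_a : ∃ t, chk3 f_pm_022_a t 10 4 1 = true := ex3_a k7_pm_022_a k8_pm_022_a

theorem s28_pm_022_a : ∃ t, chk3 f_pm_022_a t 10 2 1 = true := ex3_b s27_pm_022_a s26_pm_022_a

theorem s29_pm_022_a : ∃ t, chk3 f_pm_022_a t 5 2 1 = true := ex3_a s28_pm_022_a k11_pm_022_a

theorem s30_pm_022_a : ∃ t, chk3 f_pm_022_a t 5 1 1 = true := ex3_b s29_pm_022_a s25_pm_022_a

theorem s31_pm_022_a : ∃ t, chk3 f_pm_022_a t 19 3 1 = true := ex3_a k5_pm_022_a k6_pm_022_a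

theorem s32_pm_022_a : ∃ t, chk3 f_pm_022_a t 18 7 1 = true := ex3_b k3_pm_022_a k4_pm_022_a

theorem s33_pm_022_a : ∃ t, chk3 f_pm_022_a t 18 3 1 = true := ex3_b k2_pm_022_a s32_pm_022_a

theorem s34_pm_022_a : ∃ t, chk3 f_pm_022_a t 9 3 1 = true := ex3_a s33_pm_022_a s31_pm_022_a

theorem s35_pm_022_a : ∃ t, chk3 f_pm_022_a t 4 3 1 = true := ex3_a k1_pm_022_a s34_pm_022_a

theorem s36_pm_022_a : ∃ t, chk3 f_pm_022_a t 4 1 1 = true := ex3_b k0_pm_022_a s35_pm_022_a

theorem s37_pm_022_a : ∃ t, chk3 f_pm_022_a t 2 1 1 = true := ex3_a s36_pm_022_a s30_pm_022_a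

theorem s38_pm_022_a : ∃ t, chk3 f_pm_022_a t 1 1 1 = true := ex3_a s37_pm_022_a s22_pm_022_a

theorem c_pm_022_a : CertB 0 536870912 0 536870912 740881858 40050571 3 eng mog cd0q0 cd2q2a pd2 true true false .pp 0 2 2
    ndB0q0 ndB2q2a pcB2 cut_pm_022_a Ext.none :=
  certB2 (fam := true) (s1 := true) (s2 := false) (a := 0) (b := 2) (c := 2) (cn := .pp) (n1 := ndB0q0) (n2 := ndB2q2a) (pc := pcB2) (cut := cut_pm_022_a) (xt := Ext.none) (P1 := 0) (W1 := 536870912) (P2 := 0) (W2 := 536870912) (P3 := 740881858) (W3 := 40050571) (N0 := 3) (En := eng) (mo := mog) (C1 := cd0q0) (C2 := cd2q2a) (C3 := pd2)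
    rfl (fun _ => rfl) s38_pm_022_a

noncomputable def cut_pm_022_b : Cut := Cut.of [[⟨0, 0, 0, 67108864⟩, ⟨1, 1, 0, 67108864⟩, ⟨2, 1, 0, 67108864⟩]]

noncomputable def f_pm_022_b : ℕ → ℕ → ℕ → ℕ → Bool := onCell 0 536870912 1239849684 370763052 740881858 40050571
    (rowB 3 eng mog cd0q0 cd2q2b pd2 0 true true false .pp 0 2 2 (qsf 0 536870912 1239849684 370763052 2) ndB0q0 ndB2q2b pcB2 cut_pm_022_b Ext.none)

def k0_pm_022_b : ∃ t, chk3 f_pm_022_b t 4 4 2 = true :=
  ⟨(c (a (b (b (a (b (b (a (c (a (b (l 16353376) (l 16345768)) (l 16353944)) (a (l 16343528) (l 16347696))) (c (l 16360200) (l 16353688))) (a (a (l 16331384) (l 16336048)) (l 16342760))) (a (a (l 16309208) (l 16314440)) (l 16322000))) (b (c (b (a (l 16368032) (l 16375304)) (l 16358728)) (a (l 16354424) (l 16361864))) (a (l 16331568) (l 16340592)))) (a (a (a (b (l 16280728) (l 16253488)) (l 16294288)) (b (l 16295376) (l 16269960))) (a (l 16294272) (l 16305424)))) (a (b (a (b (l 16231232) (l 16206824))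 (l 16234080)) (a (l 16172512) (l 16190400))) (b (a (l 16248600) (l 16262224)) (l 16235616)))) (b (b (a (b (b (a (l 16378552) (l 16384904)) (l 16370040)) (l 16395048)) (b (b (a (l 16391824) (b (l 16402168) (l 16396904))) (l 16426720)) (l 16390152))) (a (a (l 16315960) (l 16325368)) (l 16339552))) (a (b (l 16280008) (l 16243624)) (l 16350864)))) (a (b (b (a (b (a (b (a (b (l 16338136) (l 16330232)) (l 16337984)) (l 16320632)) (c (b (l 16346960) (l 16332408)) (l 16353552))) (a (a (l 16295656) (l 16300456)) (l 16307440))) (b (c (a (l 16347248) (l 16354456)) (a (l 16339808) (l 16346728))) (a (l 16316392) (l 16324952)))) (a (a (b (l 16290048) (l 16241368)) (b (l 16279984) (l 16253760))) (a (l 16277904) (l 16288640)))) (a (a (b (b (l 16214928) (l 16189736)) (l 16154304)) (b (l 16216744) (l 16171616))) (b (a (l 16230760) (l 16244168)) (l 16195984)))) (b (b (a (b (b (a (l 16363600) (l 16369760)) (l 16354568)) (l 16358024)) (b (b (a (l 16376656) (l 16384952)) (l 16369768))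 (l 16354064))) (a (a (l 16298944) (l 16308672)) (l 16324352))) (a (b (l 16262768) (l 16226112)) (l 16272200))))), by decide +kernel⟩

def k1_pm_022_b : ∃ t, chk3 f_pm_022_b t 4 4 3 = true :=
  ⟨(a (b (c (b (a (b (a (b (c (l 16326168) (l 16319344)) (l 16306856)) (b (l 16329152) (l 16314048))) (a (l 16304568) (l 16292008))) (b (a (b (l 16335344) (l 16321032)) (b (l 16341360) (l 16327832))) (a (l 16300168) (l 16308112)))) (a (a (b (l 16253744) (l 16225200)) (b (l 16263728) (l 16236728))) (a (l 16260536) (l 16270712)))) (b (a (b (a (b (c (l 16312344) (l 16305184)) (l 16292392)) (b (l 16313920) (l 16298376))) (a (l 16268448) (l 16275696))) (b (a (b (l 16319072) (l 16304352)) (b (l 16324256) (l 16310344))) (a (l 16282896) (l 16290064)))) (a (a (b (l 16237720) (l 16208352)) (l 16253544)) (a (l 16242152) (l 16251632))))) (a (b (a (b (a (l 16186048) (l 16192400)) (l 16162912)) (b (l 16201792) (l 16176960))) (a (b (l 16137888) (l 16114152)) (b (l 16153392) (l 16131080))))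 (b (a (l 16223208) (l 16215192)) (a (l 16158368) (l 16174872))))) (b (b (a (b (c (b (a (l 16347240) (l 16353064)) (l 16337640)) (a (l 16322872) (l 16328608))) (a (l 16306704) (l 16314160))) (b (b (b (a (l 16353656) (l 16362592)) (l 16373320)) (a (l 16339336) (l 16349760))) (a (l 16323136) (l 16334984)))) (a (a (b (l 16282584) (l 16259728)) (l 16281312)) (a (l 16293112) (l 16307000)))) (a (b (a (l 16228544) (l 16242248)) (l 16199296)) (b (l 16264528) (l 16232920))))), by decide +kernel⟩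

def k2_pm_022_b : ∃ t, chk3 f_pm_022_b t 4 5 1 = true :=
  ⟨(a (b (a (b (a (c (b (l 16131336) (l 16111336)) (b (l 16091680) (l 16070592))) (c (l 16140880) (l 16100616))) (a (b (c (l 16092288) (l 16051056)) (l 16053656)) (c (l 16105080) (l 16064368)))) (b (a (l 16140000) (l 16158440)) (c (l 16136448) (l 16097144)))) (b (a (a (c (l 16050560) (l 16006672)) (l 16053136)) (l 16130424)) (a (a (l 16020296) (l 16026056)) (l 16064600)))) (b (a (b (l 16184992) (l 16156976)) (b (l 16221256) (l 16197576))) (a (b (l 16133104) (l 16113264)) (l 16169312)))), by decide +kernel⟩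

def k3_pm_022_b : ∃ t, chk3 f_pm_022_b t 5 2 1 = true :=
  ⟨(b (c (a (b (b (b (b (a (a (c (l 16408064) (l 16395040)) (l 16413704)) (l 16433232)) (a (l 16398184) (l 16425384))) (a (l 16384576) (l 16414040))) (a (l 16359128) (l 16392928))) (a (b (l 16328832) (l 16302688)) (l 16357000))) (b (b (b (a (l 16474408) (l 16474992)) (a (l 16441112) (l 16465456))) (a (l 16424136) (l 16452416))) (a (l 16395704) (l 16431032)))) (a (b (b (a (b (b (a (l 16372792) (l 16388464)) (l 16371288)) (l 16357872)) (b (c (l 16414488) (l 16403624)) (l 16393584))) (a (l 16332536) (l 16371744))) (a (l 16287704) (l 16333488))) (b (b (b (a (l 16438712) (l 16464096)) (l 16481856)) (l 16486088)) (a (l 16375200) (l 16412320))))) (a (b (a (b (l 16265128) (l 16245600)) (l 16307152)) (a (l 16223032) (l 16282632))) (b (a (l 16355416) (l 16399248)) (l 16510384)))), by decide +kernel⟩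

def k4_pm_022_b : ∃ t, chk3 f_pm_022_b t 2 3 1 = true :=
  ⟨(a (b (a (b (a (b (a (l 15974560) (l 16003360)) (a (l 15954176) (l 15984920))) (b (l 16044896) (l 16029248))) (a (b (l 15954424) (l 15943208)) (l 16013056))) (b (a (l 16090816) (l 16144488)) (a (l 16073792) (l 16133528)))) (a (b (a (l 15933528) (l 16004200)) (a (l 15932976) (l 16008624))) (b (l 16186744) (l 2)))) (b (a (a (b (l 16204880) (l 16199584)) (l 16416248)) (l 2)) (l 2))), by decide +kernel⟩

def k5_pm_022_b : ∃ t, chk3 f_pm_022_b t 3 1 1 = true :=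
  ⟨(b (a (b (b (b (b (a (c (a (l 16497408) (l 16518256)) (l 16563552)) (c (a (l 16532960) (l 16544608)) (l 16598960))) (a (a (l 16485424) (l 16509600)) (l 16619312))) (a (a (l 16474800) (l 16502448)) (l 16679744))) (a (a (l 16457480) (l 16491296)) (l 2))) (a (b (a (l 16442672) (l 2)) (l 2)) (l 2))) (l 2)) (l 2)), by decide +kernel⟩

theorem s6_pm_022_b : ∃ t, chk3 f_pm_022_b t 4 4 1 = true := ex3_c k0_pm_022_b k1_pm_022_b

theorem s7_pm_022_b : ∃ t, chk3 f_pm_022_b t 4 2 1 = true := ex3_b s6_pm_022_b k2_pm_022_b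

theorem s8_pm_022_b : ∃ t, chk3 f_pm_022_b t 2 2 1 = true := ex3_a s7_pm_022_b k3_pm_022_b

theorem s9_pm_022_b : ∃ t, chk3 f_pm_022_b t 2 1 1 = true := ex3_b s8_pm_022_b k4_pm_022_b

theorem s10_pm_022_b : ∃ t, chk3 f_pm_022_b t 1 1 1 = true := ex3_a s9_pm_022_b k5_pm_022_b

theorem c_pm_022_b : CertB 0 536870912 1239849684 370763052 740881858 40050571 3 eng mog cd0q0 cd2q2b pd2 true true false .pp 0 2 2
    ndB0q0 ndB2q2b pcB2 cut_pm_022_b Ext.none :=
  certB0 (fam := true) (s1 := true) (s2 := false) (a := 0) (b := 2) (c := 2) (cn := .pp) (n1 := ndB0q0) (n2 := ndB2q2b) (pc := pcB2) (cut := cut_pm_022_b) (xt := Ext.none) (P1 := 0) (W1 := 536870912) (P2 := 1239849684) (W2 := 370763052) (P3 := 740881858) (W3 := 40050571) (N0 := 3) (En := eng) (mo := mog) (C1 := cd0q0) (C2 := cd2q2b) (C3 := pd2)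
    rfl s10_pm_022_b

noncomputable def f_pm_023_a : ℕ → ℕ → ℕ → ℕ → Bool := onCell 0 536870912 0 536870912 740881858 40050571
    (rowB 3 eng mog cd0q0 cd2q2a pd3 0 true true false .up 0 2 3 (qsf 0 536870912 0 536870912 3) ndB0q0 ndB2q2a pcB3 Cut.none Ext.none)

def k0_pm_023_a : ∃ t, chk3 f_pm_023_a t 1 1 1 = true :=
  ⟨(a (l 1) (b (a (a (l 1) (b (b (a (l 1) (l 16530584)) (a (l 1) (l 16515712))) (a (l 1) (l 124587238295)))) (b (a (b (l 16581352) (l 16544424)) (b (l 16572344) (l 16553856))) (a (a (l 16610568) (l 16516152)) (a (l 16511712) (l 16532600))))) (a (b (l 1) (l 1)) (b (a (b (a (l 129955763383) (l 16466968)) (a (l 16429704) (l 16419808))) (b (a (l 16453816) (l 16473632)) (a (l 16410856) (l 16423112)))) (a (b (a (l 1) (l 329671690423)) (l 1)) (a (b (l 16388096) (l 310344138247)) (b (l 16389784) (b (l 16337064) (a (l 321081483991) (a (l 318397105335) (b (l 16319136) (c (l 16314680) (l 16297232))))))))))))), by decide +kernel⟩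

theorem c_pm_023_a : CertB 0 536870912 0 536870912 740881858 40050571 3 eng mog cd0q0 cd2q2a pd3 true true false .up 0 2 3
    ndB0q0 ndB2q2a pcB3 Cut.none Ext.none :=
  certB0 (fam := true) (s1 := true) (s2 := false) (a := 0) (b := 2) (c := 3) (cn := .up) (n1 := ndB0q0) (n2 := ndB2q2a) (pc := pcB3) (cut := Cut.none) (xt := Ext.none) (P1 := 0) (W1 := 536870912) (P2 := 0) (W2 := 536870912) (P3 := 740881858) (W3 := 40050571) (N0 := 3) (En := eng) (mo := mog) (C1 := cd0q0) (C2 := cd2q2a) (C3 := pd3)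
    rfl k0_pm_023_a

noncomputable def f_pm_023_b : ℕ → ℕ → ℕ → ℕ → Bool := onCell 1610612736 536870912 1239849684 370763052 740881858 40050571
    (rowB 3 eng mog cd0q0 cd2q2b pd3 2 true true false .up 0 2 3 (qsf 0 536870912 1239849684 370763052 3) ndB0q0 ndB2q2b pcB3 Cut.none Ext.none)

def k0_pm_023_b : ∃ t, chk3 f_pm_023_b t 1 1 1 = true :=
  ⟨(a (a (b (b (b (a (b (b (c (a (l 16539176) (l 16559104)) (l 16565952)) (a (l 16529224) (l 16553144))) (a (l 16516808) (l 16543760))) (b (b (c (l 16579168) (l 16582808)) (l 16581560)) (l 16578928))) (a (a (l 16480600) (l 16519816)) (a (l 16530232) (l 16576480)))) (a (b (a (l 16419544) (l 16469936)) (a (l 16343992) (l 16404384))) (b (a (l 16511952) (l 16546904)) (a (l 16455920) (l 16500208))))) (b (a (a (b (l 16254304) (l 16162944)) (b (l 16323696) (l 16231976))) (b (a (l 16385496) (l 16441424)) (l 16378216))) (b (a (a (l 16075528) (l 16144216)) (a (l 16210336) (l 16280352))) (a (l 16020928) (a (l 16121288) (l 16192352))))))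 (b (b (a (b (b (b (a (l 16615544) (b (l 16627264) (l 16623736))) (a (l 16593480) (l 16615336))) (a (l 16604992) (l 16616112))) (a (l 16601840) (l 16628584))) (b (b (l 2) (a (l 16626552) (l 2))) (a (l 16651800) (l 16675248)))) (a (b (a (l 16576312) (l 16606568)) (a (l 16541336) (l 16575864))) (b (l 16716136) (l 16620992)))) (a (b (a (l 16671224) (b (l 16535608) (l 16483864))) (b (l 16412608) (l 16469128))) (b (a (l 16806528) (l 16653736)) (b (l 16587712) (l 16453680)))))) (b (a (b (l 2) (a (b (a (l 16691360) (l 16712592)) (l 16824488)) (a (b (l 2) (l 16697216)) (l 2)))) (l 2)) (a (b (a (b (a (l 16634512) (l 16662200)) (l 16619440)) (a (b (l 16672624) (l 16650448)) (b (l 16674584) (l 4)))) (a (a (l 16659960) (b (l 16610552) (l 16587792))) (a (b (l 16632584) (l 4)) (l 4)))) (l 4)))), by decide +kernel⟩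

theorem c_pm_023_b : CertB 0 536870912 1239849684 370763052 740881858 40050571 3 eng mog cd0q0 cd2q2b pd3 true true false .up 0 2 3
    ndB0q0 ndB2q2b pcB3 Cut.none Ext.none :=
  certB2 (fam := true) (s1 := true) (s2 := false) (a := 0) (b := 2) (c := 3) (cn := .up) (n1 := ndB0q0) (n2 := ndB2q2b) (pc := pcB3) (cut := Cut.none) (xt := Ext.none) (P1 := 0) (W1 := 536870912) (P2 := 1239849684) (W2 := 370763052) (P3 := 740881858) (W3 := 40050571) (N0 := 3) (En := eng) (mo := mog) (C1 := cd0q0) (C2 := cd2q2b) (C3 := pd3)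
    rfl (fun _ => rfl) k0_pm_023_b

noncomputable def f_pm_033 : ℕ → ℕ → ℕ → ℕ → Bool := onCell 1610612736 536870912 1610612736 536870912 740881858 40050571
    (rowB 3 eng mog cd0q0 cd2q3 pd3 2 true true false .pnn 0 3 3 (qsf 0 536870912 1610612736 536870912 3) ndB0q0 ndB2q3 pcB3 Cut.none Ext.none)

def k0_pm_033 : ∃ t, chk3 f_pm_033 t 1 1 1 = true :=
  ⟨(a (b (a (b (a (b (l 167535850711) (l 390337044839)) (b (a (l 15977152) (l 16042904)) (l 15859448))) (a (l 1) (b (l 15729104) (l 1)))) (b (a (b (a (l 16116832) (l 16188944)) (a (l 15971840) (l 16050152))) (b (a (l 16267176) (l 16353936)) (a (l 16136472) (l 16222856)))) (a (b (l 15861768) (l 15689792)) (b (l 16047160) (l 15908224))))) (a (l 1) (b (a (l 1) (a (l 1) (l 15735792))) (l 1)))) (a (b (a (b (a (b (l 16434800) (l 16317224)) (b (l 16505832) (l 4))) (b (a (l 16188040) (l 4)) (l 4))) (l 4)) (l 4)) (l 4))), by decide +kernel⟩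

theorem c_pm_033 : CertB 0 536870912 1610612736 536870912 740881858 40050571 3 eng mog cd0q0 cd2q3 pd3 true true false .pnn 0 3 3
    ndB0q0 ndB2q3 pcB3 Cut.none Ext.none :=
  certB2 (fam := true) (s1 := true) (s2 := false) (a := 0) (b := 3) (c := 3) (cn := .pnn) (n1 := ndB0q0) (n2 := ndB2q3) (pc := pcB3) (cut := Cut.none) (xt := Ext.none) (P1 := 0) (W1 := 536870912) (P2 := 1610612736) (W2 := 536870912) (P3 := 740881858) (W3 := 40050571) (N0 := 3) (En := eng) (mo := mog) (C1 := cd0q0) (C2 := cd2q3) (C3 := pd3)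
    rfl (fun _ => rfl) k0_pm_033

noncomputable def cut_pm_101 : Cut := Cut.of [[⟨0, 1, 0, 67108864⟩, ⟨1, 0, 0, 67108864⟩, ⟨2, 1, 0, 67108864⟩]]

noncomputable def f_pm_101 : ℕ → ℕ → ℕ → ℕ → Bool := onCell 536870912 536870912 0 536870912 740881858 40050571
    (rowB 3 eng mog cd0q1 cd2q0 pd1 2 true true false .npn 1 0 1 (qsf 536870912 536870912 0 536870912 1) ndB0q1 ndB2q0 pcB1 cut_pm_101 Ext.none)

def k0_pm_101 : ∃ t, chk3 f_pm_101 t 1 1 1 = true :=
  ⟨(a (l 3) (b (a (l 3) (b (a (l 3) (b (a (l 3) (a (l 3) (b (l 6) (l 3)))) (l 3))) (l 3))) (l 3))), by decide +kernel⟩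

theorem c_pm_101 : CertB 536870912 536870912 0 536870912 740881858 40050571 3 eng mog cd0q1 cd2q0 pd1 true true false .npn 1 0 1
    ndB0q1 ndB2q0 pcB1 cut_pm_101 Ext.none :=
  certB2 (fam := true) (s1 := true) (s2 := false) (a := 1) (b := 0) (c := 1) (cn := .npn) (n1 := ndB0q1) (n2 := ndB2q0) (pc := pcB1) (cut := cut_pm_101) (xt := Ext.none) (P1 := 536870912) (W1 := 536870912) (P2 := 0) (W2 := 536870912) (P3 := 740881858) (W3 := 40050571) (N0 := 3) (En := eng) (mo := mog) (C1 := cd0q1) (C2 := cd2q0) (C3 := pd1)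
    rfl (fun _ => rfl) k0_pm_101

noncomputable def cut_pm_102 : Cut := Cut.of [[⟨0, 1, 0, 67108864⟩, ⟨1, 0, 0, 67108864⟩, ⟨2, 1, 0, 67108864⟩]]

noncomputable def f_pm_102 : ℕ → ℕ → ℕ → ℕ → Bool := onCell 536870912 536870912 1073741824 536870912 740881858 40050571
    (rowB 3 eng mog cd0q1 cd2q0 pd2 1 true true false .npp 1 0 2 (qsf 536870912 536870912 0 536870912 2) ndB0q1 ndB2q0 pcB2 cut_pm_102 Ext.none)

def k0_pm_102 : ∃ t, chk3 f_pm_102 t 2 4 1 = true :=
  ⟨(b (l 3) (a (b (l 3) (a (l 2) (a (b (b (l 3) (l 2)) (l 2)) (b (b (l 16553048) (l 16551856)) (b (l 16553616) (l 16553096)))))) (b (a (b (l 3) (a (b (l 3) (l 16555352)) (b (l 61370679831) (l 16560776)))) (b (b (l 3) (a (l 328732445447) (a (l 330343086007) (l 160155028967)))) (a (b (l 16581064) (l 16572864)) (b (a (l 16599592) (l 16616304)) (a (l 16588584) (l 16602152)))))) (a (b (a (b (l 16552832) (l 16552000)) (b (l 16578064) (l 16553040))) (a (b (l 16550336) (l 16547600)) (l 16544472))) (b (a (b (l 16563336)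 (l 16555920)) (l 16576344)) (a (l 16539656) (l 16557416))))))), by decide +kernel⟩

def k1_pm_102 : ∃ t, chk3 f_pm_102 t 6 4 1 = true :=
  ⟨(b (b (l 3) (a (a (l 3) (b (l 3) (b (l 3) (b (a (l 3) (c (a (l 16725880) (l 137069783767)) (a (l 123647933543) (l 154786451175)))) (a (a (l 16698408) (l 199883578231)) (b (a (l 16714264) (l 16719672)) (l 16691792))))))) (b (a (l 3) (b (a (l 3) (b (l 3) (b (l 3) (a (l 3) (l 16772856))))) (a (b (b (l 3) (a (l 3) (l 16768160))) (a (l 16740696) (l 16739576))) (b (a (b (l 16770608) (l 16765320)) (b (l 16767696) (l 16763680))) (a (l 16759400) (l 16758232)))))) (a (b (a (b (l 3) (a (l 130627287543) (a (l 111836874007) (l 152102194487)))) (a (b (l 138143510343) (l 195588745767)) (b (l 154249635623) (l 16743472)))) (a (a (b (b (l 188072509799) (l 16727968)) (l 16721384)) (b (l 16732840) (l 16723608))) (b (l 16713216) (l 16723064)))) (b (a (b (b (l 16733168) (l 16750216)) (b (l 16745752) (l 16740464))) (b (a (l 16751384) (l 16748352))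 (l 16738616))) (b (a (l 16731624) (l 16726856)) (l 16696184))))))) (b (a (b (a (b (b (a (l 3) (l 16678352)) (a (l 16655728) (l 16670288))) (a (l 16644656) (b (l 16663312) (l 16656176)))) (b (a (b (l 16672392) (l 16686264)) (b (l 16685920) (l 16699000))) (a (a (l 16670936) (l 16678104)) (l 16686536)))) (a (b (a (l 16630424) (l 16644672)) (l 16623144)) (b (l 16665312) (l 16651592)))) (b (a (b (b (a (l 16713120) (l 16712752)) (l 16683536)) (c (l 16674368) (l 16669184))) (b (b (l 16707432) (l 16700112)) (l 16689336))) (a (a (l 16649496) (l 16671056)) (l 16668120)))) (a (a (b (c (l 16610528) (l 16599624)) (l 16582512)) (b (b (l 16638544) (l 16624768)) (l 16605872))) (a (b (l 16642256) (l 16620360)) (b (l 16623872) (l 16647816)))))), by decide +kernel⟩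

def k2_pm_102 : ∃ t, chk3 f_pm_102 t 14 8 1 = true :=
  ⟨(b (b (l 3) (a (b (l 3) (a (l 3) (b (l 3) (a (l 3) (b (l 3) (l 16775328)))))) (b (a (l 3) (b (l 3) (a (a (l 3) (b (l 3) (a (l 270750719783) (l 262160784967)))) (b (b (a (l 3) (l 268066363479)) (a (l 272898200679) (l 16771656))) (a (a (l 16771048) (l 16770080)) (l 16769024)))))) (a (b (a (a (l 3) (b (l 3) (l 16776848))) (a (b (l 3) (l 16773136)) (b (l 268066373671) (l 16769880)))) (a (b (a (l 16775232) (l 16771952)) (l 16769592)) (b (a (l 16769088) (l 16766472)) (l 16763776)))) (b (a (b (a (l 255181466839) (l 16768768)) (a (l 16767400) (l 16765304))) (b (a (l 16767128) (l 16765112)) (a (l 16762736) (l 16759984)))) (a (b (a (l 16763640) (l 16760536)) (l 16756744)) (l 16753144))))))) (b (b (a (a (b (a (l 3) (b (l 3) (l 16776176))) (a (b (l 16774912) (l 16769912)) (b (l 16771384) (l 16767624)))) (b (a (b (l 16776232) (l 16771656)) (b (l 16770984) (l 16767520))) (a (b (l 16768040) (l 16764240)) (b (l 16763240)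 (l 16758088))))) (a (b (a (b (l 16766024) (l 16761352)) (b (l 16758824) (l 16753328))) (l 16748808)) (b (a (l 16748416) (l 16742320)) (l 16734536)))) (a (a (b (a (b (l 16766024) (l 16762560)) (l 16761608)) (a (l 16755512) (l 16751168))) (b (a (l 16756416) (l 16749576)) (l 16741776))) (a (a (l 16736424) (l 16728800)) (a (l 16721912) (l 16716952))))) (a (b (a (l 16736344) (l 16725232)) (a (l 16714248) (l 16704264))) (a (b (l 16711456) (l 16692584)) (b (l 16700712) (l 16686352)))))), by decide +kernel⟩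

def k3_pm_102 : ∃ t, chk3 f_pm_102 t 15 8 1 = true :=
  ⟨(b (a (b (b (l 3) (a (b (l 3) (a (l 3) (a (l 3) (a (l 3) (b (l 3) (b (l 3) (l 16777584))))))) (b (l 6) (a (a (a (b (l 3) (b (l 6) (l 16776832))) (l 6)) (l 6)) (l 6))))) (a (b (b (a (b (l 3) (b (a (l 3) (l 237464723879)) (a (l 241222819367) (l 16772608)))) (b (b (a (a (l 3) (l 16777024)) (l 16775888)) (a (l 221358598327) (l 16774136))) (b (a (l 16773328) (l 16772440)) (a (l 16771752) (l 16770208))))) (a (b (b (a (l 16772040) (l 16770976)) (a (l 16770328) (l 16769224))) (a (l 16767592) (l 16765568))) (a (b (a (l 16769000) (l 16768008)) (l 16763256)) (l 16763624)))) (b (a (b (a (l 16762760) (l 16760232)) (l 16756016)) (b (l 16756704) (l 16751512))) (a (l 16747992) (l 16743832)))) (b (b (a (b (a (b (l 16774992) (l 16773032)) (l 6)) (a (c (l 16789544) (l 16747992)) (l 16766968))) (l 6)) (a (b (l 16762848) (l 16757720)) (l 16777088))) (a (b (l 16750128) (l 16740280)) (l 16741488))))) (b (l 6) (a (b (l 6) (l 16760616))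 (l 6)))) (a (b (a (b (a (l 16711952) (l 16729096)) (l 16712704)) (l 16765888)) (a (b (l 16703568) (l 16694072)) (b (l 16701952) (l 16685976)))) (b (a (a (l 16717856) (l 16710712)) (a (l 16702648) (l 6))) (a (b (l 16689024) (l 16672272)) (b (l 16672216) (l 16675984)))))), by decide +kernel⟩

def k4_pm_102 : ∃ t, chk3 f_pm_102 t 7 9 1 = true :=
  ⟨(a (b (a (b (a (l 16669600) (l 16683408)) (a (l 16667160) (l 16672016))) (b (a (l 16719184) (l 16684392)) (a (l 16676488) (l 16666376)))) (a (b (b (l 16668280) (l 16662384)) (l 16650704)) (b (a (l 16656912) (l 16642696)) (l 16627552)))) (a (b (b (a (l 16677560) (l 16708320)) (a (l 16654304) (l 16641224))) (b (a (l 16628672) (l 16614400)) (l 16598152))) (b (b (a (b (l 16657904) (l 16645312)) (b (l 16640168) (l 16627048))) (a (l 16625400) (l 16606368))) (b (a (l 16597592) (l 16661416)) (a (l 16573672) (l 16553472)))))), by decide +kernel⟩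

def k5_pm_102 : ∃ t, chk3 f_pm_102 t 1 5 1 = true :=
  ⟨(a (b (a (a (l 2) (a (l 2) (b (b (l 16552592) (l 2)) (l 2)))) (b (b (a (a (l 16555096) (l 16560904)) (a (l 16568392) (l 16575136))) (a (b (l 16573952) (b (l 16571264) (l 16563904))) (b (l 16577584) (b (l 16574808) (a (l 16565904) (l 16572824)))))) (a (l 16573416) (a (l 16573848) (l 16578552))))) (a (l 2) (a (a (l 2) (l 16669488)) (b (l 16685048) (l 16576960))))) (a (b (b (b (a (a (l 16586432) (l 16605216)) (a (l 16629432) (l 16639936))) (b (a (a (l 16592224) (l 16608992)) (a (l 16625416) (l 16628616))) (a (b (l 16597144) (a (l 16584408) (l 16600600))) (b (l 16643400) (a (l 16614624) (l 16615464)))))) (a (a (l 16586896) (l 16598600)) (a (l 16605720) (l 16600640)))) (a (a (l 16579368) (l 16582072)) (a (l 16578408) (l 16585240)))) (b (b (b (a (a (l 16632488) (l 16606384)) (a (l 16577328) (l 16606656))) (a (b (a (l 16617656) (l 16590288)) (a (b (l 16609608) (l 16603352)) (b (l 16581904) (l 16575648)))) (b (a (l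 16561696) (l 16528992)) (a (b (l 16553536) (l 16589400)) (b (l 16521424) (b (l 16517256) (l 16514352))))))) (a (a (l 16584880) (l 16555392)) (a (l 16526560) (b (l 16504336) (l 16487584))))) (a (a (b (l 16556096) (l 16530312)) (b (l 16524104) (l 16496744))) (a (b (l 16494120) (l 16465824)) (b (l 16463624) (l 16434984))))))), by decide +kernel⟩

def k6_pm_102 : ∃ t, chk3 f_pm_102 t 1 3 1 = true :=
  ⟨(a (a (l 2) (b (a (l 2) (b (b (l 16572208) (l 2)) (l 2))) (l 2))) (a (b (a (b (a (l 16560232) (l 16555784)) (l 16546216)) (b (a (l 16544880) (l 16524600)) (l 16513992))) (a (l 2) (b (l 16510392) (l 2)))) (b (b (a (a (l 16498752) (l 16693992)) (a (b (l 16441824) (l 16422160)) (b (l 16410624) (l 16390648)))) (a (a (l 16472280) (l 16434640)) (a (l 16401352) (l 16369096)))) (a (b (l 16443016) (l 16456152)) (b (a (l 16391304) (l 16358496)) (l 16386984)))))), by decide +kernel⟩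

theorem s7_pm_102 : ∃ t, chk3 f_pm_102 t 7 8 1 = true := ex3_a k2_pm_102 k3_pm_102

theorem s8_pm_102 : ∃ t, chk3 f_pm_102 t 7 4 1 = true := ex3_b s7_pm_102 k4_pm_102

theorem s9_pm_102 : ∃ t, chk3 f_pm_102 t 3 4 1 = true := ex3_a k1_pm_102 s8_pm_102

theorem s10_pm_102 : ∃ t, chk3 f_pm_102 t 1 4 1 = true := ex3_a k0_pm_102 s9_pm_102

theorem s11_pm_102 : ∃ t, chk3 f_pm_102 t 1 2 1 = true := ex3_b s10_pm_102 k5_pm_102

theorem s12_pm_102 : ∃ t, chk3 f_pm_102 t 1 1 1 = true := ex3_b s11_pm_102 k6_pm_102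

theorem c_pm_102 : CertB 536870912 536870912 0 536870912 740881858 40050571 3 eng mog cd0q1 cd2q0 pd2 true true false .npp 1 0 2
    ndB0q1 ndB2q0 pcB2 cut_pm_102 Ext.none :=
  certB1 (fam := true) (s1 := true) (s2 := false) (a := 1) (b := 0) (c := 2) (cn := .npp) (n1 := ndB0q1) (n2 := ndB2q0) (pc := pcB2) (cut := cut_pm_102) (xt := Ext.none) (P1 := 536870912) (W1 := 536870912) (P2 := 0) (W2 := 536870912) (P3 := 740881858) (W3 := 40050571) (N0 := 3) (En := eng) (mo := mog) (C1 := cd0q1) (C2 := cd2q0) (C3 := pd2)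
    rfl (fun _ => rfl) s12_pm_102

noncomputable def f_pm_112 : ℕ → ℕ → ℕ → ℕ → Bool := onCell 536870912 536870912 1073741824 536870912 740881858 40050571
    (rowB 3 eng mog cd0q1 cd2q1 pd2 1 true true false .dn 1 1 2 (qsf 536870912 536870912 536870912 536870912 2) ndB0q1 ndB2q1 pcB2 Cut.none Ext.none)

def k0_pm_112 : ∃ t, chk3 f_pm_112 t 1 2 1 = true :=
  ⟨(b (a (b (l 3) (a (b (l 3) (a (b (l 3) (a (b (a (l 3) (l 16523536)) (b (l 16547024) (l 16525712))) (b (b (l 16515144) (l 16517016)) (l 16518760)))) (b (b (a (l 3) (a (l 16482272) (l 1))) (a (b (l 16497672) (l 16501520)) (b (l 16486120) (l 16491712)))) (b (a (b (l 16505368) (l 16508320)) (l 16518888)) (a (l 16511528) (l 16503456)))))) (b (l 1) (a (b (l 1) (a (b (l 1) (l 16495384)) (l 1))) (l 1))))) (l 1)) (a (b (a (b (b (a (b (a (b (l 16525416) (l 16525560)) (l 16520520)) (a (b (l 16525424) (l 16525608)) (l 16522680))) (b (a (l 16515064) (l 16509336)) (l 16517104))) (b (a (a (l 16525848) (l 16524656)) (l 16541568))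 (a (b (a (l 16525736) (l 16525704)) (b (a (l 16525720) (l 16525096)) (a (c (l 16528496) (l 16521248)) (l 16522496)))) (b (l 16520248) (b (l 16516560) (l 16512264)))))) (a (a (l 16516008) (l 16515720)) (l 16510096))) (a (b (b (a (l 16548184) (l 1)) (b (a (l 16510872) (l 1)) (b (l 16520136) (a (l 16499808) (l 16485936))))) (a (l 16499480) (l 16488200))) (b (l 1) (l 218002844679)))) (a (a (a (a (l 16477008) (l 16482856)) (l 16552048)) (b (l 16502472) (l 16488280))) (a (b (l 16643448) (l 16513464)) (b (l 85395803559) (l 58552287847))))) (a (b (l 1) (a (b (l 1) (l 205654976535)) (l 1))) (l 1)))), by decide +kernel⟩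

def k1_pm_112 : ∃ t, chk3 f_pm_112 t 1 3 1 = true :=
  ⟨(a (a (b (a (b (a (b (l 16432728) (l 16397376)) (b (l 16450568) (l 16420720))) (a (l 16340736) (l 16371936))) (b (b (l 16469336) (l 16447080)) (l 16452160))) (a (b (a (l 16260504) (l 16302584)) (a (l 16177224) (l 16230328))) (b (a (l 16341280) (l 16373408)) (a (l 16366560) (l 16328032))))) (b (a (b (b (l 16525184) (l 16470400)) (l 16447384)) (b (b (l 16605304) (l 16475376)) (l 16465600))) (a (b (l 16456400) (a (l 16366752) (l 16401824))) (b (l 16451688) (l 16444880))))) (a (b (a (b (a (l 16512096) (l 16566384)) (l 16532984)) (b (b (l 1) (l 16435672)) (l 16447856))) (a (b (l 16471968) (l 16483600)) (b (l 16463216) (l 16489760)))) (b (a (b (l 1) (l 255046961527)) (l 1)) (a (b (l 16413792) (l 16450104)) (b (l 216392199687) (l 16401416)))))), by decide +kernel⟩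

theorem s2_pm_112 : ∃ t, chk3 f_pm_112 t 1 1 1 = true := ex3_b k0_pm_112 k1_pm_112

theorem c_pm_112 : CertB 536870912 536870912 536870912 536870912 740881858 40050571 3 eng mog cd0q1 cd2q1 pd2 true true false .dn 1 1 2
    ndB0q1 ndB2q1 pcB2 Cut.none Ext.none :=
  certB1 (fam := true) (s1 := true) (s2 := false) (a := 1) (b := 1) (c := 2) (cn := .dn) (n1 := ndB0q1) (n2 := ndB2q1) (pc := pcB2) (cut := Cut.none) (xt := Ext.none) (P1 := 536870912) (W1 := 536870912) (P2 := 536870912) (W2 := 536870912) (P3 := 740881858) (W3 := 40050571) (N0 := 3) (En := eng) (mo := mog) (C1 := cd0q1) (C2 := cd2q1) (C3 := pd2)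
    rfl (fun _ => rfl) s2_pm_112

noncomputable def f_pm_113 : ℕ → ℕ → ℕ → ℕ → Bool := onCell 536870912 536870912 1610612736 536870912 740881858 40050571
    (rowB 3 eng mog cd0q1 cd2q1 pd3 1 true true false .nn 1 1 3 (qsf 536870912 536870912 536870912 536870912 3) ndB0q1 ndB2q1 pcB3 Cut.none Ext.none)

def k0_pm_113 : ∃ t, chk3 f_pm_113 t 2 1 1 = true :=
  ⟨(b (b (a (a (b (a (b (l 16101952) (l 16061264)) (l 16135456)) (a (l 2) (b (l 16077920) (l 2)))) (b (b (l 16238488) (a (l 16174216) (l 16235608))) (a (l 16123624) (b (l 16205296) (l 16176184))))) (a (b (a (l 16305784) (l 16360080)) (a (a (l 16242328) (l 16275568)) (l 16328336))) (b (a (l 16411536) (l 16456960)) (a (l 16398696) (l 16465376))))) (a (b (a (l 2) (a (l 2) (b (l 16148792) (l 2)))) (l 2)) (b (a (a (b (l 16226944) (c (l 16251664) (l 16164424))) (b (l 16307856) (l 16319400))) (a (b (l 16393048) (l 16394208)) (b (l 16477744) (l 16492248)))) (a (a (l 2) (b (l 16294120) (l 2))) (a (b (l 16405960) (c (l 16426648)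 (l 16357016))) (b (l 16489352) (a (l 16445632) (l 16478584)))))))) (b (a (l 2) (b (a (l 2) (b (a (l 2) (l 129485772727)) (l 2))) (l 2))) (l 2))), by decide +kernel⟩

def k1_pm_113 : ∃ t, chk3 f_pm_113 t 3 1 1 = true :=
  ⟨(b (b (a (a (a (b (l 16494728) (l 16525832)) (l 16548224)) (b (l 16542816) (l 16636032))) (a (b (l 16510672) (l 16645056)) (b (l 16462944) (l 16609256)))) (a (b (a (b (l 16596384) (a (l 16572544) (l 16621416))) (b (l 16735824) (l 16589480))) (a (a (b (l 16548096) (l 16481968)) (b (l 16598504) (l 16575904))) (b (l 16566912) (a (l 16636296) (l 16704320))))) (b (a (b (l 16801168) (l 16875624)) (a (l 16863200) (l 16842464))) (a (b (l 16803960) (b (l 16823288) (l 16786768))) (a (l 16931912) (l 16992456)))))) (b (a (b (a (b (a (l 16484016) (l 16532400)) (a (b (l 16446696) (l 2)) (a (l 16401528) (l 16484680)))) (b (a (l 16588992) (l 16655784)) (a (b (l 16540792) (l 16447288)) (l 16408096)))) (a (b (a (l 2) (l 155255865399)) (l 2)) (b (a (a (l 16477288)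 (l 16510888)) (l 16568816)) (a (c (l 16531744) (l 228270477527)) (l 16559944))))) (b (a (b (a (l 16723872) (l 16800528)) (a (l 16670664) (l 16750848))) (b (l 16893160) (l 16846120))) (a (b (a (l 16642208) (l 16720376)) (a (l 16626560) (l 16698048))) (b (l 16809040) (l 16780872))))) (b (a (a (l 2) (a (l 2) (b (l 16551856) (l 2)))) (a (b (a (l 16612720) (l 16676056)) (a (l 342624451687) (l 16790320))) (b (l 16896704) (b (l 16718608) (l 16697544))))) (a (l 2) (a (b (b (a (l 2) (l 16661352)) (l 2)) (l 2)) (b (b (l 16678400) (l 4)) (l 4))))))), by decide +kernel⟩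

theorem s2_pm_113 : ∃ t, chk3 f_pm_113 t 1 1 1 = true := ex3_a k0_pm_113 k1_pm_113

theorem c_pm_113 : CertB 536870912 536870912 536870912 536870912 740881858 40050571 3 eng mog cd0q1 cd2q1 pd3 true true false .nn 1 1 3
    ndB0q1 ndB2q1 pcB3 Cut.none Ext.none :=
  certB1 (fam := true) (s1 := true) (s2 := false) (a := 1) (b := 1) (c := 3) (cn := .nn) (n1 := ndB0q1) (n2 := ndB2q1) (pc := pcB3) (cut := Cut.none) (xt := Ext.none) (P1 := 536870912) (W1 := 536870912) (P2 := 536870912) (W2 := 536870912) (P3 := 740881858) (W3 := 40050571) (N0 := 3) (En := eng) (mo := mog) (C1 := cd0q1) (C2 := cd2q1) (C3 := pd3)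
    rfl (fun _ => rfl) s2_pm_113

end Pool.Agent.Strip051.G.I69_7273.Tab.C.BA02

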