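import Pool.Agent.Strip051.G.I69_7273.Tab
import Pool.Agent.Strip051.PB.ExtD2

/-! # Certificates B6 (generated) -/

set_option linter.all false
set_option maxRecDepth 100000

namespace Pool.Agent.Strip051.G.I69_7273.Tab.C.BA02

open Pool.Agent.Strip051.PB Pool.Agent.Strip051.PB.T
open Pool.Agent.Strip051.G.I69_7273.Tab

noncomputable def cut_pm_123_a : Cut := Cut.of [[⟨0, 1, 0, 67108864⟩, ⟨1, 1, 0, 67108864⟩, ⟨2, 2, 0, 16777216⟩], [⟨0, 0, 1, 20971520⟩, ⟨1, 1, 0, 33554432⟩, ⟨2, 1, 1, 20971520⟩]]

noncomputable def xt_pm_123_a : Ext := extD2 3 ⟨4, 1, 1, 5, 7, 3, 99, 100, 9, 20, 1, 8⟩ eng cd0q1 cd2q2a pd3 true true false .npn 1 2 3 rfl ndB0q1 ndB2q2a pcB3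

noncomputable def f_pm_123_a : ℕ → ℕ → ℕ → ℕ → Bool := onCell 1610612736 536870912 0 536870912 740881858 40050571
    (rowB 3 eng mog cd0q1 cd2q2a pd3 2 true true false .npn 1 2 3 (qsf 536870912 536870912 0 536870912 3) ndB0q1 ndB2q2a pcB3 cut_pm_123_a xt_pm_123_a)

def k0_pm_123_a : ∃ t, chk3 f_pm_123_a t 4 2 1 = true :=
  ⟨(b (l 1) (a (l 1) (a (l 1) (l 16523912)))), by decide +kernel⟩

def k1_pm_123_a : ∃ t, chk3 f_pm_123_a t 4 6 1 = true :=
  ⟨(a (l 1) (b (a (l 1) (l 16487760)) (a (b (l 16438136) (l 16416104)) (b (l 16460184) (l 16437280))))), by decide +kernel⟩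

def k2_pm_123_a : ∃ t, chk3 f_pm_123_a t 8 7 1 = true :=
  ⟨(b (a (l 1) (b (l 16379048) (l 16381216))) (b (a (b (l 16342464) (l 16352240)) (a (l 16339008) (l 16342832))) (a (b (a (l 16319208) (l 16319176)) (b (a (l 16309152) (c (l 16319000) (l 16298880))) (a (c (b (l 16313112) (a (l 16309848) (l 16310008))) (l 16312992)) (c (a (b (l 16313848) (l 16310656)) (l 16313424)) (a (l 16291000) (l 16290976)))))) (b (a (l 16321128) (l 16325376)) (a (b (l 16311248) (c (a (l 16315288) (l 16328344)) (l 16313128))) (b (l 16316136) (c (b (l 16324504) (a (l 16319760) (b (l 16324592) (l 16323240)))) (a (l 16294848) (l 16297544))))))))), by decide +kernel⟩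

def k3_pm_123_a : ∃ t, chk3 f_pm_123_a t 9 7 1 = true :=
  ⟨(b (a (b (l 16390984) (a (l 16368600) (l 16376392))) (b (l 16410872) (l 16393944))) (b (a (b (l 16358056) (l 16348008)) (a (l 16370448) (l 16386440))) (b (a (a (l 16332632) (l 16343072)) (a (c (l 16372712) (l 16341128)) (c (b (l 16393808) (l 16390976)) (l 16357288)))) (c (b (a (a (l 16337912) (c (l 16358312) (l 16343008))) (a (c (l 141540990014930959) (l 16358776)) (a (l 140940244363165711) (l 140969175286677519)))) (c (a (a (b (l 16341400) (a (l 16336136) (b (l 16342920) (c (a (l 16343944) (a (l 141126611510296591) (l 141205845070643215))) (l 16338000))))) (a (b (l 16351560) (a (l 141075965258285071) (l 140951651732717583))) (l 141128810558357519))) (a (a (l 140934334457856015) (l 140936189904666639)) (b (l 140986630037585935) (a (l 140938732590399503) (a (l 140965120845873167) (l 140988622920663055)))))) (a (b (a (l 16326952) (l 16339400)) (a (a (l 16321584) (l 16327056)) (a (a (l 16331744) (l 16345656)) (b (l 16341344) (l 140758756138319887)))))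 (a (l 140768239455846415) (a (l 140780540273344527) (l 140809677355319311)))))) (a (b (a (l 16309872) (l 16319560)) (a (b (l 16304760) (a (l 16299240) (l 16303568))) (b (l 16314856) (b (l 16333456) (a (l 16307936) (c (l 16333320) (l 16305240))))))) (a (b (l 16332824) (c (b (l 16337704) (a (b (l 16331680) (b (l 16330688) (l 140545931898060815))) (l 140557339350679567))) (b (l 16319472) (a (l 16312704) (a (l 16318312) (l 140347744911523855)))))) (a (b (l 16345360) (l 140485458779684879)) (a (l 140545931939397647) (l 140559400967602191))))))))), by decide +kernel⟩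

def k4_pm_123_a : ∃ t, chk3 f_pm_123_a t 5 2 1 = true :=
  ⟨(a (b (a (b (l 16592320) (l 16579008)) (b (l 16621968) (l 16608896))) (a (l 16554592) (a (l 16580200) (l 16591112)))) (b (b (a (l 16643736) (l 16667048)) (a (l 16630472) (l 16654488))) (a (l 16607984) (a (l 16627408) (l 16642048))))), by decide +kernel⟩

def k5_pm_123_a : ∃ t, chk3 f_pm_123_a t 10 6 1 = true :=
  ⟨(a (b (l 16518536) (l 16478400)) (b (l 16549664) (a (l 16507736) (l 16523440)))), by decide +kernel⟩

def k6_pm_123_a : ∃ t, chk3 f_pm_123_a t 10 14 1 = true :=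
  ⟨(a (b (l 16443016) (l 16429360)) (b (a (l 16476192) (l 16495264)) (a (l 16466184) (l 16488328)))), by decide +kernel⟩

def k7_pm_123_a : ∃ t, chk3 f_pm_123_a t 20 15 1 = true :=
  ⟨(a (b (l 16427400) (c (c (b (l 141214641323343887) (b (l 141134651848589327) (c (b (l 141140630452617231) (a (a (l 141062290225102863) (b (l 141103040890404879) (l 141090533945327631))) (b (l 141163307895832591) (b (l 141154992839147535) (a (l 141127642500481039) (a (l 141161315035349007) (l 141185435580448783))))))) (a (l 141000580121165839) (b (l 141086135901028367) (l 141059541462646799)))))) (b (l 16407000) (b (l 140952613911953423) (a (l 140856475345420303) (b (l 140937564358066191) (l 140906022116458511)))))) (b (l 16377720) (b (a (l 16365952) (l 140679728817668111)) (a (l 140723984127557647) (c (l 140708659733512207) (l 140483465961324559))))))) (b (l 16451856) (c (b (a (l 16438200) (l 141334694306545679)) (b (a (l 141343215485927439) (c (l 141374551627513871) (l 141165163333238799))) (c (a (b (l 141228660141441039)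 (c (b (l 141265356354600975) (b (l 141258346968236047) (a (a (l 141211411551698959) (l 141239449129074703)) (a (l 141269479550124047) (l 141301640275296271))))) (l 141157054477959183))) (b (l 141351255726784527) (b (l 141522092347408399) (a (b (l 141301708975652879) (c (a (l 141335862563667983) (l 141372283897118735)) (l 141242747652161551))) (c (a (l 141411866347978767) (l 141452479548751887)) (l 141317170866667535)))))) (a (a (l 140984087466868751) (l 141033221909921807)) (b (l 141131078472663055) (a (l 141079126538928143) (l 141145028537171983))))))) (b (b (l 16404280) (l 16401456)) (b (a (l 140745699542794255) (l 140832629711765519)) (a (c (l 140786312772419599) (l 140553284977524751)) (c (b (l 140901349210996751) (l 140873792699924495)) (l 140644613193515023)))))))), by decide +kernel⟩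

def k8_pm_123_a : ∃ t, chk3 f_pm_123_a t 21 30 1 = true :=
  ⟨(a (b (l 16461040) (c (l 16480384) (l 16437120))) (b (l 16487272) (l 16489040))), by decide +kernel⟩

def k9_pm_123_a : ∃ t, chk3 f_pm_123_a t 21 62 1 = true :=
  ⟨(c (a (a (l 141453647757852687) (b (l 16490888) (l 16492984))) (b (l 16516592) (a (l 16511272) (l 16531072)))) (a (a (l 16425680) (l 16463584)) (a (l 16458416) (l 16475400)))), by decide +kernel⟩

def k10_pm_123_a : ∃ t, chk3 f_pm_123_a t 42 63 1 = true :=
  ⟨(a (b (c (c (l 141517763058941967) (l 141293737513205775)) (l 140942649628786703)) (b (c (c (l 141507730019844111) (l 141271403685478415)) (l 141082768640671759)) (c (c (a (b (l 141460657168957455) (b (l 141458870463856655) (a (l 141435986894487567) (l 141480310947610639)))) (b (l 141551092024770575) (c (b (l 141612733411180559) (l 141748660537425935)) (l 141488763447361551)))) (a (l 141218970715537423) (b (l 141303564413550607) (l 141479142677938191)))) (c (a (l 140970618471792655) (l 141044491930320911)) (l 140746936529551375)))))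 (a (b (c (l 141530888487403535) (l 141043323691384847)) (c (b (l 141524085264416783) (a (c (b (l 141625102920581135) (c (l 141691004915925007) (l 141562568184725519))) (l 141368504337793039)) (b (l 141547999651872783) (a (c (l 141847204282187791) (l 141403138964357135)) (b (l 141921764890918927) (c (b (l 141695196806955023) (a (l 141869263240511503) (l 141704336499867663))) (l 141428221580263439))))))) (b (l 141010750659690511) (c (b (l 141129841542381583) (a (l 141101254235144207) (l 141145097272934415))) (l 140854894857830415))))) (b (c (l 141610259504480271) (l 141109294407778319)) (c (b (a (l 141591773966778383) (b (l 141629226090446863) (l 141633074383634447))) (a (b (a (l 141763778818031631) (l 141784738263580687)) (c (b (a (l 141719111189954575) (l 141742956853739535)) (c (l 141802399215091727) (l 141668327485734927))) (b (l 141462787484368911) (l 141464917789212687)))) (b (l 141639327858638863) (c (b (l 141779653062443023) (c (l 141852083407798287) (l 141716706008088591))) (l 141509860336746511)))))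 (b (c (l 141217665053081615) (l 140948147206995983)) (a (b (l 141054662421479439) (c (l 141189215187730447) (l 140909389418184719))) (c (l 141232302308704271) (l 140951926783213583)))))))), by decide +kernel⟩

def k11_pm_123_a : ∃ t, chk3 f_pm_123_a t 43 63 1 = true :=
  ⟨(a (a (b (c (b (l 16509664) (l 141688118693642255)) (l 141173822013931535)) (b (c (b (l 141695952717889551) (l 141703786741039119)) (l 141159871962431503)) (c (c (b (l 141846929444274191) (b (l 142035014654656527) (a (c (l 141993027065856015) (l 141766252761792527)) (c (a (l 141941899783766031) (l 141968219349172239)) (l 141816899027353615))))) (b (l 141575212572508175) (c (b (l 141648948588232719) (l 141652659441336335)) (l 141511234726674447)))) (c (b (l 141298204300984335) (l 141299441253072911)) (l 141014049204142095))))) (b (b (l 141691966943051791) (l 141877784411897871)) (c (b (l 141798413480869903) (b (c (l 141950214840614927) (l 141672862970560527)) (c (b (c (l 142028623782035471) (l 141889535529779215)) (b (a (l 141937158138347535)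 (l 141990828061507599)) (c (l 14) (a (l 141870087914242063) (l 141923276800950287))))) (c (a (l 141725708260999183) (l 141777179160444943)) (l 141788998873268239))))) (b (l 141246802119917583) (c (a (l 141367679708053519) (l 141595278625505295)) (l 141100567044718607)))))) (b (c (b (l 141913999661842447) (l 141933515999690767)) (l 141381835917869071)) (a (c (b (l 141901423999172623) (b (c (l 142058379320803343) (l 141775117574504463)) (c (a (c (l 14) (c (l 14) (l 141937364296253455))) (l 14)) (b (l 141781783366057999) (c (a (l 141832292193206287) (l 141886374433308687)) (a (l 141687087906816015) (l 141739727037579279))))))) (b (l 141337924166320143) (c (b (l 141486358270033935) (c (l 141564492333269007) (l 141416333109346319))) (l 141371871559139343)))) (c (b (l 142009244881846287) (c (l 14) (b (l 141882319981756431) (c (c (l 14) (a (l 141902042477101071) (l 141958117582405647))) (a (l 141791266656174095) (l 141936264764145679)))))) (b (l 141433581699104783) (b (l 141618093496975375) (c (b (l 141591842690973711)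 (c (l 141670663948484623) (l 141518862591524879))) (l 141288102538985487)))))))), by decide +kernel⟩

def k12_pm_123_a : ∃ t, chk3 f_pm_123_a t 11 6 1 = true :=
  ⟨(a (b (l 16575672) (a (l 16538288) (l 16555184))) (b (a (l 16599248) (l 16617776)) (a (l 16576496) (b (l 16606080) (l 16600792))))), by decide +kernel⟩

def k13_pm_123_a : ∃ t, chk3 f_pm_123_a t 11 14 1 = true :=
  ⟨(a (b (a (l 16513920) (l 16537288)) (a (l 16512416) (l 16543056))) (a (b (l 16566864) (l 16580624)) (b (a (l 16592840) (l 16603176)) (c (l 16618792) (l 16597320))))), by decide +kernel⟩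

def k14_pm_123_a : ∃ t, chk3 f_pm_123_a t 22 30 1 = true :=
  ⟨(a (b (l 16517120) (l 16523504)) (b (l 16554536) (l 16566096))), by decide +kernel⟩

def k15_pm_123_a : ∃ t, chk3 f_pm_123_a t 22 62 1 = true :=
  ⟨(a (b (l 16530232) (a (l 142190458094092303) (l 16567904))) (b (l 16576344) (a (l 16571336) (l 16597848)))), by decide +kernel⟩

def k16_pm_123_a : ∃ t, chk3 f_pm_123_a t 22 126 1 = true :=
  ⟨(c (a (a (l 142320269258866703) (l 142376756720238607)) (a (l 142567384587976719) (l 142506842750025743))) (a (a (l 141573288422309903) (l 141783844945084431)) (a (l 142015086034485263) (l 142268729677774863)))), by decide +kernel⟩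

def k17_pm_123_a : ∃ t, chk3 f_pm_123_a t 22 127 1 = true :=
  ⟨(c (c (a (l 14) (b (a (l 142477087214829583) (l 142594185223684239)) (a (a (l 14) (b (l 142518112750928015) (b (l 142523816469151887) (c (a (l 14) (c (l 142774161536237711) (l 14))) (l 14))))) (b (a (l 142756431906422927) (l 142813262923595919)) (b (a (l 142581815717642383) (a (l 142804535549165711) (l 142832573100556431))) (a (a (c (a (l 142778490863796367) (l 142792784517447823)) (l 14)) (a (c (l 142806940732113039) (l 14)) (c (l 142821096946778255) (b (l 142751896420712591) (l 142753683127632015))))) (a (a (c (l 142835047002996879) (l 142767014697615503)) (c (l 142848997059215503) (l 142781239642505359))) (c (l 142869750344794255) (a (l 142795258418217103) (l 142809277193912463)))))))))) (a (a (b (l 142034190056882191) (c (l 14) (b (l 141977359038791695) (a (b (l 141928224603045903) (a (l 142085317322391567) (b (l 141961416117993487) (l 14)))) (l 14))))) (l 14)) (l 14))) (b (a (a (c (l 141737046974447631) (l 141434131455934479)) (c (l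 141964783370010639) (l 141648879867658255))) (a (c (l 142214853599969295) (l 141885274918862863)) (c (l 14) (l 142145172035764239)))) (a (a (c (b (a (l 141693616257449999) (l 141804941834092559)) (a (c (a (l 141750309839208463) (l 141806316225003535)) (l 141804048442736655)) (b (l 141811951223144463) (c (a (l 141866308341579791) (b (l 141923826555994127) (l 141926712774950927))) (a (l 141709078144811023) (l 141766390200926223)))))) (a (a (l 141362594467512335) (l 141594316554403855)) (b (l 141491787111464975) (a (l 141469247119441935) (l 141523947834867727))))) (c (b (a (l 141921627531001871) (l 142043879506657295)) (a (b (l 141930080029360143) (c (l 14) (a (l 141825145366315023) (l 141885343641010191)))) (b (l 142234026301833231) (l 14)))) (b (a (l 141601944456708111) (l 141717599361187855)) (a (b (l 141606892261048335) (c (l 141872493057441807) (l 141528071005175823))) (b (l 141724058994327567) (c (a (l 141781714648055823) (l 141843081154084879)) (l 141644619263016975))))))) (a (c (l 14) (b (a (l 141838957983350799)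 (l 141966226481709071)) (a (b (l 141847066884276239) (c (a (l 141905959488880655) (l 14)) (a (l 141735810028371983) (l 141798550924148751)))) (b (l 141976122089373711) (c (l 14) (a (l 141862734929248271) (l 14))))))) (l 14))))), by decide +kernel⟩

def k18_pm_123_a : ∃ t, chk3 f_pm_123_a t 23 30 1 = true :=
  ⟨(a (a (l 16595016) (l 16606656)) (a (l 16595120) (c (l 16615808) (l 16614024)))), by decide +kernel⟩

def k19_pm_123_a : ∃ t, chk3 f_pm_123_a t 23 62 1 = true :=
  ⟨(a (b (l 16589408) (c (l 16604672) (l 16602344))) (c (a (l 142800618559881295) (a (l 16644264) (l 16648840))) (a (l 16593704) (b (l 16622136) (l 16604656))))), by decide +kernel⟩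

def k20_pm_123_a : ∃ t, chk3 f_pm_123_a t 23 126 2 = true :=
  ⟨(a (a (l 142665928358756367) (b (l 16633064) (a (l 142888716918653007) (l 142941562205585487)))) (b (a (l 16642024) (a (l 16648464) (l 16652912))) (a (a (l 142992964383277135) (l 143043129610174543)) (a (l 143091989166800975) (a (l 143127723301077071) (l 16655856)))))), by decide +kernel⟩

def k21_pm_123_a : ∃ t, chk3 f_pm_123_a t 23 254 2 = true :=
  ⟨(c (a (a (a (l 142858411626463375) (l 142912837461573711)) (a (l 142965888906936399) (l 143017565962534991))) (a (a (l 143067937347862607) (l 143117003062919247)) (a (l 143164763107705039) (a (l 143199672608080079) (l 143227641439764687))))) (a (a (l 142573225778266255) (a (l 142835596754911375) (l 142888854358753359))) (a (a (l 142940806292308047) (l 142991383836115023)) (a (l 143040793148620879) (a (l 143076939599773775) (l 143110680868634703)))))), by decide +kernel⟩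

def k22_pm_123_a : ∃ t, chk3 f_pm_123_a t 23 510 2 = true :=
  ⟨(a (a (a (a (l 142607791682994319) (l 142545531841953871)) (a (l 142573019637448783) (l 142600163835510863))) (a (a (l 142626895716663375) (l 142653352719843407)) (a (l 142634454868328527) (l 142615213419380815)))) (a (a (a (l 142640708349722703) (l 142665859682631759)) (c (l 143125661719642191) (a (l 142987672984895567) (l 143012618159341647)))) (a (c (l 143173078166962383) (a (l 143037219736354895) (l 143061546435412047))) (a (c (l 143207781508858063) (l 143085529537019983)) (a (l 143168267802001615) (c (l 143241935094661327) (l 143128273059021007))))))), by decide +kernel⟩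

def k23_pm_123_a : ∃ t, chk3 f_pm_123_a t 46 511 2 = true :=
  ⟨(a (a (c (a (c (l 142895313994399887) (a (l 142821440543211663) (l 142835321879937167))) (a (c (l 142915586243575887) (l 142849065777676431)) (c (l 142929055263359055) (l 142862672236462223)))) (c (b (l 142773199461236879) (a (c (l 142779452935274639) (l 14)) (a (l 142783438665482383) (l 142797320002207887)))) (l 14))) (a (b (c (l 142914418011652175) (l 142781170921652367)) (c (c (l 142950770622005327) (l 142884731192541327)) (c (a (l 142811132619440271) (l 142824807797719183)) (b (l 142749766115360911) (c (l 142768251658174607) (l 14)))))) (b (c (l 142941012453802063) (l 142808727436656783)) (c (c (l 142977090186182735) (a (l 142904866002747471) (l 142918128864084047))) (c (b (l 142844461571391631) (l 142846042119831695)) (c (l 142795120978165903) (b (l 142760692513964175) (l 142762273062404239)))))))) (a (a (b (c (l 142967332017995855) (l 142835871634718863)) (c (c (l 143003066152943695) (b (l 142937164162367567) (l 142938813430284367)))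 (c (l 142872155525464207) (a (l 142798900549927055) (l 142812507008712847))))) (b (c (l 142993239265263695) (l 142862740954841167)) (c (c (l 143028698522239055) (l 142964102202064975)) (a (c (l 142892152896700495) (l 142826044748005519)) (c (l 142905415758020687) (l 142839513767805071)))))) (c (c (a (l 143052406745677903) (l 143077420639600719)) (b (l 142999561457877071) (a (l 142989872010346575) (l 143015366940688463)))) (b (a (l 142889266677514319) (l 142915517522214991)) (a (c (c (l 142941356050792527) (l 142908783012839503)) (b (l 142858823944044687) (l 142860335773008015))) (c (c (l 142967125859106895) (l 142934827699093583)) (c (l 142902323380650063) (l 142869681623269519)))))))), by decide +kernel⟩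

def k24_pm_123_a : ∃ t, chk3 f_pm_123_a t 47 511 2 = true :=
  ⟨(a (c (a (c (l 143114323005096143) (a (l 143038937725157455) (l 143063745460617295))) (a (l 143119476966375631) (l 143143391348506831))) (b (a (a (l 142941356050022479) (l 142966919699857487)) (a (l 142992208471736399) (l 143017084926689359))) (a (a (c (l 142976609148420175) (c (l 142928299347427407) (l 142895932467970127))) (c (l 143001897920299087) (c (l 142954000436215887) (l 142921839715254351)))) (a (c (l 143026911814221903) (c (l 142979357927587919) (l 142947403365089359))) (c (l 143051582110695503) (l 142988566338977871)))))) (a (c (a (l 143166962133188815) (l 143190258039898319)) (b (a (l 143041686503686223) (l 143066013202743375)) (c (l 143087934720295119) (a (l 143013374074454095) (l 143037906931957839))))) (a (c (a (l 143207506631622863) (a (l 143216027848245455) (l 143198916699537615))) (a (b (l 143083948989333583) (l 143086972647211215)) (b (l 143095906180399311) (a (l 143095906180759759) (b (l 143101060142334159) (l 143101884776497359))))))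 (b (a (c (l 143230390221258959) (l 143111849101869263)) (l 143185859992322255)) (c (l 143236025220448463) (a (l 143112467578044623) (l 143128341780644047))))))), by decide +kernel⟩

def k25_pm_123_a : ∃ t, chk3 f_pm_123_a t 46 63 3 = true :=
  ⟨(c (a (l 14) (b (l 142533780788264975) (b (l 142550273468235919) (a (b (l 142531238171115663) (c (c (a (a (l 14) (l 142760829952639119)) (a (l 142774573850394767) (l 142788180309180559))) (l 14)) (l 14))) (b (l 142586076323184783) (c (b (l 142803917071810703) (a (a (l 142786668480544911) (l 142800206219837583)) (a (l 142813675239637135) (l 142827006820466831)))) (c (a (l 14) (a (l 142762410500587663) (l 142775948239880335))) (l 14)))))))) (l 14)), by decide +kernel⟩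

def k26_pm_123_a : ∃ t, chk3 f_pm_123_a t 47 126 3 = true :=
  ⟨(a (c (l 142640295996080271) (l 142508904333000719)) (a (l 142652047028502607) (a (l 142689636588945487) (l 142913181054419023)))), by decide +kernel⟩

def k27_pm_123_a : ∃ t, chk3 f_pm_123_a t 47 254 3 = true :=
  ⟨(a (a (l 142564979438633103) (l 142617962164535375)) (a (l 142669639220166735) (a (c (l 142951457812398159) (l 142823502123827343)) (c (l 142991383835312207) (l 142869819059290191))))), by decide +kernel⟩

def k28_pm_123_a : ∃ t, chk3 f_pm_123_a t 47 510 3 = true :=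
  ⟨(a (a (a (l 142560237795197071) (l 142587175834796175)) (c (a (l 142859167540068431) (l 142885006067859535)) (l 142561406026399887))) (a (c (a (l 142910569717710927) (l 142935789770113103)) (l 142614320032776335)) (a (a (l 142620779680661583) (c (l 142966919698546767) (l 142839788643893327))) (b (c (l 142998736821600335) (l 142877721801523279)) (a (l 142656857412452431) (a (l 142588069220057167) (l 142961147261796431))))))), by decide +kernel⟩

def k29_pm_123_a : ∃ t, chk3 f_pm_123_a t 47 511 6 = true :=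
  ⟨(b (a (a (c (l 142857105956143247) (l 142746467586834575)) (a (l 142863771746418767) (l 142889678993686607))) (a (a (l 142915242643537999) (l 142940531415416911)) (a (a (l 142959223116382287) (l 142971661343850575)) (a (a (l 142984992924680271) (l 142997087554863183)) (l 143013511513194575))))) (a (a (a (a (c (l 142840338401280143) (b (l 142773611777310863) (l 142775192325750927))) (c (l 142853532543139983) (l 142787905425703055))) (a (c (l 142866726684967055) (l 142801305731383439)) (c (l 142879783387840591) (l 142814568592736399)))) (a (a (c (l 142892771371221071) (l 142827831454056591)) (c (l 142905690635124815) (l 142840956876423311))) (c (c (l 142940875013472335) (l 142908851731529807)) (c (l 142876691010650191) (l 142844392850800783))))) (a (a (a (c (l 142943898670891087) (l 142879989546041423)) (c (l 142956474337345615) (l 142892840090452047))) (c (c (l 142990971520811087) (l 142959497994780751)) (c (l 142927887029796943) (l 142896069906366543)))) (c (a (a (l 142993857739259983) (a (l 143003066150764623)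 (b (l 143008357551308879) (a (l 143008220112552015) (l 143010556575318095))))) (a (b (l 143022238888394831) (l 143022170169376847)) (l 143042236260597839))) (a (a (l 142930979406725199) (a (l 142940393976692815) (b (l 142945754096730191) (a (b (l 142945479218905167) (l 142945960255488079)) (c (l 142963758603206735) (l 142932422516195407)))))) (a (b (l 142961215982075983) (l 142961284702027855)) (l 142984168292302927))))))), by decide +kernel⟩

def k30_pm_123_a : ∃ t, chk3 f_pm_123_a t 47 511 7 = true :=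
  ⟨(a (a (c (a (l 14) (a (l 14) (c (l 142763716168007823) (l 14)))) (l 14)) (a (c (a (c (l 142777116471001231) (l 14)) (b (l 142772512265011343) (b (l 142774848727941263) (l 142776497995874447)))) (l 14)) (b (l 142579547972059279) (a (c (b (l 142788180308770959) (l 142789829576704143)) (l 14)) (c (l 142802267804074127) (c (l 142753270808510607) (l 14))))))) (a (b (c (l 142831817183838351) (l 142586832237822095)) (c (a (a (l 142815461945901199) (l 142828587368267919)) (a (l 142841575351648399) (l 142854563335012495))) (a (c (a (l 142766671108817039) (l 142779933970153615)) (l 14)) (b (l 142782751469060239) (a (l 142777803666079887) (l 142791066527400079)))))) (a (c (a (c (l 142881707532927055) (l 142849752970576015)) (b (l 142876828448997455) (a (l 142877034607853647) (b (a (l 142880951618617423) (l 142884181434597455)) (a (b (l 142882257289052239) (c (l 142898681247055951) (l 142866932843167887))) (a (l 142884456312848463) (l 142885624544264271))))))) (b (l 142806390972907663) (a (l 142803298596307087)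 (a (l 142813125483200655) (b (l 142818760481177743) (a (b (l 142818416883892367) (l 142819035359428751)) (c (l 142837314743517327) (l 142805360181215375)))))))) (a (b (a (b (l 142859511137648719) (l 142860954247168079)) (b (l 142874973022748751) (l 142875454059577423))) (b (c (a (l 142893114968326223) (l 142906240391053391)) (l 142837589621489807)) (c (l 142854838221602895) (a (l 142830580233896079) (l 142845080046436495))))) (b (l 142896001187070031) (a (c (l 142919228375040079) (a (l 142855800286740623) (l 142862947113795727))) (c (l 142932010200367183) (c (l 142888304605446287) (l 142859030103228559))))))))), by decide +kernel⟩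

def k31_pm_123_a : ∃ t, chk3 f_pm_123_a t 6 2 1 = true :=
  ⟨(a (b (b (a (l 16698072) (l 16727328)) (a (l 16689992) (l 16702000))) (a (b (l 16682368) (l 16675776)) (a (l 16675904) (l 16739088)))) (b (b (a (l 16752048) (l 16769040)) (a (l 16751576) (l 16770592))) (a (b (l 16752224) (l 16761560)) (b (l 16774368) (l 16775072))))), by decide +kernel⟩

def k32_pm_123_a : ∃ t, chk3 f_pm_123_a t 6 6 1 = true :=
  ⟨(a (a (b (b (l 16671488) (l 16667064)) (b (l 16663456) (a (l 16636800) (l 16680064)))) (b (a (l 16719320) (l 16728456)) (a (c (l 16704248) (l 16736096)) (b (l 16751336) (l 16666680))))) (a (b (l 16766072) (b (l 16723992) (a (l 16763136) (l 16762656)))) (b (b (l 16774432) (l 16771664)) (b (a (l 16766992) (l 16766224)) (a (l 16760760) (l 16757104)))))), by decide +kernel⟩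

def k33_pm_123_a : ∃ t, chk3 f_pm_123_a t 12 14 1 = true :=
  ⟨(a (b (a (l 16632944) (l 16674488)) (a (l 16640176) (l 16678048))) (c (b (a (l 16695936) (l 16699312)) (a (l 16698584) (l 16720120))) (b (a (l 16730784) (b (l 16778112) (l 16774584))) (a (l 16728384) (l 16727200))))), by decide +kernel⟩

def k34_pm_123_a : ∃ t, chk3 f_pm_123_a t 24 30 1 = true :=
  ⟨(a (a (l 16620280) (l 16659032)) (b (l 16682568) (a (l 16656696) (l 16693048)))), by decide +kernel⟩

def k35_pm_123_a : ∃ t, chk3 f_pm_123_a t 24 62 1 = true :=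
  ⟨(a (a (c (c (l 16662344) (l 16654024)) (l 16620808)) (b (l 16643888) (c (l 16671424) (l 16642504)))) (a (a (l 16656576) (l 16663896)) (a (l 16670880) (l 16677576)))), by decide +kernel⟩

def k36_pm_123_a : ∃ t, chk3 f_pm_123_a t 24 126 1 = true :=
  ⟨(a (c (c (a (a (l 16664256) (l 16669176)) (l 143378549437989071)) (a (a (b (l 16654200) (l 16655792)) (l 16661904)) (l 143329277564092623))) (b (a (l 16624624) (l 143081818714931279)) (a (a (l 142827762762301519) (b (l 16651680) (l 143115078915588175))) (l 143074671891742799)))) (a (c (a (l 16681720) (l 16686624)) (b (l 143256572381642831) (l 143243378243354703))) (a (a (l 143323986205606095) (l 143350924246909135)) (a (l 143376900215390415) (l 143446994087805135))))), by decide +kernel⟩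

def k37_pm_123_a : ∃ t, chk3 f_pm_123_a t 48 254 1 = true :=
  ⟨(a (a (a (a (b (l 142724133806374991) (c (l 143199191570923727) (c (l 143033646321270863) (l 142920946359451727)))) (b (l 142747704590942287) (c (l 143214653456187599) (l 143004028221882447)))) (b (c (l 143235819057905871) (l 143041068025708623)) (c (l 143234375950450895) (l 143040586991042639)))) (c (c (l 143313128486207695) (l 143233001561473231)) (c (l 143152531039748175) (l 143071854359986255)))) (a (a (c (l 143308661721137359) (l 143180568593563727)) (c (l 143331339153899727) (l 143224755226460239))) (c (c (l 143383565967933711) (l 143344189700358351)) (c (l 143306806298394831) (l 143271553200996431))))), by decide +kernel⟩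

def k38_pm_123_a : ∃ t, chk3 f_pm_123_a t 96 255 2 = true :=
  ⟨(b (a (c (l 143269697769488591) (a (l 143153561831686351) (l 143184485603066063))) (c (l 143308799161319631) (l 143229015833985231))) (c (a (a (a (l 143252243020284111) (l 143262413505282255)) (a (l 143272446551310543) (l 143282204719382735))) (a (b (l 143297254287950031) (a (l 143291138254078159) (l 143300415385764047))) (b (l 143315602392858831) (c (l 143332644827316495) (l 143295398863864015))))) (a (a (c (l 143178575727755471) (a (l 143117071784493263) (l 143133908059947215))) (b (l 143182973775741135) (c (l 143205788647194831) (a (l 143149988421533903) (l 143166206221598927))))) (c (a (a (l 143226473213903055) (l 143239667356451023)) (a (l 143252586621075663) (l 143265231007744207))) (a (a (l 143182767618654415) (l 143198504382333135)) (a (l 143214034987532495) (l 143229290714808527))))))), by decide +kernel⟩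

def k39_pm_123_a : ∃ t, chk3 f_pm_123_a t 96 255 3 = true :=
  ⟨(a (a (c (b (l 143046015831097423) (a (c (l 143062233632096335) (a (l 143001279445123151) (l 143012549441650767))) (b (l 143055842719793231) (c (l 143081475090170063) (a (l 143023544560697423) (l 143034608398778447)))))) (b (c (l 142964239639265359) (l 142909264048226383)) (b (c (l 142964033482178639) (l 142909264049602639)) (a (b (l 142923145386639439) (a (c (l 142944723306414159) (c (l 142902185942810703) (l 142873736074461327))) (c (l 142957436412215375) (b (l 142902117223612495) (c (l 142915929841090639) (l 142888235887116431)))))) (b (l 142949877268561999) (c (c (l 142989459694600271) (l 142963002691387471)) (a (c (l 142929673739124815) (a (l 142899093566521487) (l 142906240393560207))) (c (l 142943280198287439) (a (l 142913455940092047) (l 142920602767114383)))))))))) (c (b (l 143088072159756367) (b (l 143086903929847887) (a (c (l 143100647828275407) (a (l 143045603517366351) (l 143056529916477519))) (c (l 143119614407934159) (a (l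 143067387596079183) (l 143078176556204111)))))) (b (l 142990559205048399) (a (b (l 142976609149812815) (c (c (l 143013717674688591) (a (l 142982312868102223) (l 142995094693396559))) (b (l 142951182939652175) (a (c (l 142956817937989711) (a (l 142927749594153103) (l 142934827701715087))) (c (l 142970218238705743) (a (l 142941974528737359) (l 142948983916806223))))))) (b (l 143002859995316303) (b (l 143002378959585359) (c (c (l 143037425899323471) (l 143013855114657871)) (a (c (l 142983618539405391) (a (l 142956062024351823) (l 142963071412404303))) (c (l 142996881401151567) (a (l 142970149519949903) (l 142977090188525647))))))))))) (c (c (b (l 143169023719915727) (b (l 143167099575632079) (a (a (l 143138237390143695) (l 143156654213890255)) (a (l 143174796159697103) (l 143192663227531471))))) (b (l 143128960257851471) (b (l 143127173552521295) (a (a (a (l 143088896796852431) (l 143099548317991119)) (a (l 143110131119653071) (l 143120645201821903))) (a (a (l 143131090564497615) (l 143141467207696591))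 (l 143156860373778639)))))) (b (c (l 143088896795885647) (l 143048764614525007)) (b (a (l 143041686507683919) (l 143092264053047375)) (c (a (a (b (l 143050345163538511) (a (l 143043816807006287) (l 143055842723299407))) (c (l 143084430030995535) (l 143063745464877135))) (a (a (l 143091851736383567) (l 143103602769363023)) (b (l 143121538556297295) (l 143120782642380879)))) (a (b (l 143019490113536079) (a (a (c (l 143010075543404623) (l 142987535545761871)) (c (l 143023200966164559) (l 143001416888270927))) (c (l 143042786021064783) (a (l 143015229505912911) (l 143028904684585039))))) (a (c (l 143068899427385423) (l 143049657965215823)) (a (l 143079001192874063) (l 143091989176664143))))))))), by decide +kernel⟩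

def k40_pm_123_a : ∃ t, chk3 f_pm_123_a t 97 255 1 = true :=
  ⟨(b (c (a (c (l 143344533298299087) (l 143285022220304591)) (c (l 143376968899936527) (l 143337180315353295))) (a (c (l 143226404496097487) (a (l 143144147267338319) (l 143192938106011727))) (c (l 143299453315858639) (l 143263856620912719)))) (c (a (a (c (b (l 143333194583392527) (c (l 143347625677275407) (l 143315190078062863))) (a (c (l 143277737955426511) (l 143244340283588815)) (a (l 143271140884922575) (l 143277806675706063)))) (c (b (l 143349962140090639) (c (l 143361781893398799) (l 143334156658426127))) (a (a (l 143284472466489551) (l 143291000818319567)) (a (l 143297529170116815) (l 143303988802453711))))) (c (c (a (a (l 143372983170662671) (l 143379511522836751)) (a (l 143385902436024591) (l 143392018471289103))) (b (l 143363362442428687) (a (l 143352229885477135) (l 143369547198169359)))) (a (b (l 143321031236157647) (a (l 143312441300615375) (l 143324948248346831))) (c (l 143353123239559439) (l 143336080806150351))))) (a (a (a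 (c (c (l 143211080050835663) (l 143178025971269839)) (b (l 143129441297678415) (c (l 143144215988633679) (l 143111436792594511)))) (c (c (l 143228534801760463) (l 143198092068159695)) (c (l 143167924212613327) (l 143137962515644495)))) (a (a (c (l 143227160412520655) (l 143170947870785615)) (c (l 143236368824418511) (l 143182836342751311))) (b (l 143226198340223055) (c (l 143248875772428495) (l 143199535179579471))))) (c (a (c (l 143287427406397647) (l 143266330523320527)) (a (l 143303026731516111) (l 143320206604517583))) (a (a (l 143223999317966927) (l 143247089067016399)) (b (l 143282617043501263) (l 143279730825871567))))))), by decide +kernel⟩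

def k41_pm_123_a : ∃ t, chk3 f_pm_123_a t 49 127 1 = true :=
  ⟨(a (b (a (c (c (l 143413939985006863) (l 143394148771856591)) (c (l 143377587375096015) (l 143364187075231823))) (c (l 143440259552166159) (c (l 143444107843567823) (l 143452148024262863)))) (a (b (c (c (l 143406174685708559) (l 143385627558101199)) (c (l 143368310246867151) (l 143354222751989967))) (a (c (c (c (a (l 143397997067567375) (l 143403838224875791)) (l 143387345546805519)) (a (l 143362400371622159) (l 143374082685501711))) (c (b (l 143346938486423759) (l 143343983549317327)) (l 143325635445571791))) (c (c (b (l 143408854748053775) (c (l 143410847614386447) (l 143401639202554127))) (b (l 143392636948201743) (l 143389613291651343))) (c (l 143378205855908047) (l 143368860005695695))))) (a (c (b (l 143422323767689487) (c (c (l 143422667367547151) (l 143418063161475343)) (l 143413046638477583))) (c (l 143413596393373903) (l 143414902063988943))) (c (b (l 143439160044077327) (c (a (l 143429264439509263) (l 143435036877390095)) (l 143434143523176719)))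 (c (l 143444657603969231) (l 143456271197913295)))))) (b (c (c (l 143476406008398095) (l 143503481486803215)) (c (a (l 16695248) (l 16701952)) (a (l 143535504767598799) (l 16706440)))) (a (a (c (c (c (l 143444588886720783) (l 143449055653200143)) (l 143458057905996047)) (c (l 143474688022266063) (l 143496403381076175))) (c (c (b (l 16693200) (l 143453866020225295)) (l 143477642961993999)) (c (l 143503756367724815) (l 143535504771907791)))) (c (c (a (b (l 16694896) (l 143463555469869391)) (l 143476406015000911)) (l 143505474357543183)) (c (l 143545537819509007) (c (l 143579760125165839) (l 143604636580380879))))))), by decide +kernel⟩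

def k42_pm_123_a : ∃ t, chk3 f_pm_123_a t 25 30 1 = true :=
  ⟨(a (b (l 16692728) (a (l 16707392) (l 16720560))) (c (a (l 16695456) (l 16703448)) (a (l 16752528) (a (l 16764336) (l 16771280))))), by decide +kernel⟩

def k43_pm_123_a : ∃ t, chk3 f_pm_123_a t 50 31 1 = true :=
  ⟨(b (a (a (l 16683984) (l 16690112)) (a (l 16695976) (l 16722544))) (c (a (a (b (l 16699944) (b (l 143530694409634063) (c (a (l 143484927233376591) (l 143492692537426255)) (l 143539559227523343)))) (b (l 16703952) (b (l 143554608795369743) (c (l 143503137902477647) (l 143570414281638223))))) (a (b (l 16707752) (b (l 143575568243212623) (c (l 143514064326443343) (b (l 16711896) (l 143591992205836623))))) (b (l 16711360) (c (b (l 16707248) (b (l 16707552) (l 143519286991126863))) (b (l 16716008) (a (l 143616731223720271) (l 143629032014184783))))))) (b (a (b (l 16715608) (l 143528495459270863)) (a (l 16725984) (l 16732632))) (b (c (a (l 143645868274827535) (b (l 16723160) (l 143732386119500047))) (a (a (l 16714536) (l 16722288))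 (a (l 16729696) (l 16736752)))) (a (a (c (l 143597764656005391) (a (l 143646005715091727) (l 143680640360677647))) (c (b (l 16714240) (l 143640095844139279)) (a (b (l 16719856) (l 143707234784002319)) (a (l 143738639590867215) (l 143754651232665871))))) (c (a (a (l 143680159307940111) (l 143701324933824783)) (b (l 16725352) (a (l 143715137532412239) (l 143735341064028495)))) (a (b (l 143801380486447375) (a (a (l 143762828853559567) (l 143778084580983055)) (c (l 143773068059607311) (l 143828387248210191)))) (b (l 16735824) (a (c (l 16730960) (b (l 16736296) (l 143855600168009999))) (c (l 16734152) (a (l 16738792) (l 16740576)))))))))))), by decide +kernel⟩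

def k44_pm_123_a : ∃ t, chk3 f_pm_123_a t 51 62 1 = true :=
  ⟨(a (b (l 16731040) (a (l 16706392) (l 16732240))) (a (b (l 16738568) (l 16737056)) (b (l 16743128) (a (l 16740608) (l 16742408))))), by decide +kernel⟩

def k45_pm_123_a : ∃ t, chk3 f_pm_123_a t 102 63 1 = true :=
  ⟨(c (b (a (l 16714744) (l 16718152)) (b (c (a (l 16710008) (l 16712888)) (b (l 16722200) (l 16722072))) (a (c (a (l 143530831867265359) (l 143536123270037839)) (a (l 143641057926742351) (l 143653633595277647))) (a (c (l 143541758270308687) (l 143666484141801807)) (c (b (l 16714208) (l 143544026016809295)) (l 143679540862959951)))))) (a (b (l 16759928) (c (b (l 16731272) (b (l 16730720) (a (l 16729056) (l 16731792)))) (b (l 16743632) (b (b (l 16742760) (l 16742440)) (a (c (l 16737368) (a (l 16742352) (l 16744136))) (b (l 16743824) (c (l 16740464) (a (l 16745744) (l 16747528))))))))) (b (l 16724200) (c (b (l 16736688) (a (b (l 16734832) (l 16745040)) (a (l 16736768) (l 16748656)))) (b (l 16750432) (c (b (l 16746000) (a (l 16743832)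 (l 16747080))) (b (l 16752904) (b (l 16752352) (a (a (l 16749312) (l 16751096)) (a (l 16752880) (l 16754656))))))))))), by decide +kernel⟩

def k46_pm_123_a : ∃ t, chk3 f_pm_123_a t 103 63 1 = true :=
  ⟨(c (a (b (l 16721616) (c (b (l 16716064) (b (l 16716720) (a (l 143550623090065743) (l 143557495041327439)))) (b (l 16728512) (b (l 16728640) (a (l 16727632) (l 16729912)))))) (a (b (l 16724400) (b (l 16725072) (b (l 16725544) (c (b (l 16719768) (l 16720056)) (l 16732224))))) (b (l 16725968) (b (l 16726760) (a (b (l 16727008) (c (l 16716000) (l 16733880))) (c (l 16721560) (l 16734320))))))) (a (b (l 16730336) (c (b (l 16742256) (a (a (l 16750056) (l 16751464)) (a (l 16752880) (l 16754296)))) (b (l 16757296) (b (b (l 16756424) (l 16756088)) (a (b (l 16754048) (c (l 16750208) (a (l 16756440) (l 16758224)))) (c (l 16753608) (a (l 16760184) (l 16761968)))))))) (a (b (l 16755992) (b (l 16754296) (c (a (l 16755720) (l 16757144)) (b (l 16761384) (c (l 16756872) (a (l 16763744) (l 16765520))))))) (b (l 16758288)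 (b (b (l 16756888) (l 16756392)) (c (a (a (l 16747728) (l 16748136)) (l 16748384)) (b (l 16774392) (a (a (b (l 16763008) (l 16762680)) (l 16763272)) (l 16763440))))))))), by decide +kernel⟩

def k47_pm_123_a : ∃ t, chk3 f_pm_123_a t 13 14 1 = true :=
  ⟨(a (b (b (a (l 16760248) (l 16757848)) (a (l 16758792) (l 16756696))) (a (b (l 16756832) (l 16753800)) (c (l 16730000) (l 16779512)))) (b (a (b (l 16753304) (l 16752064)) (b (l 16749720) (l 16748504))) (a (b (l 16753040) (l 16752032)) (b (l 16752600) (l 16755144))))), by decide +kernel⟩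

def k48_pm_123_a : ∃ t, chk3 f_pm_123_a t 13 15 1 = true :=
  ⟨(a (b (a (b (b (l 16750776) (l 16749312)) (a (l 16746848) (l 16747368))) (b (l 16750464) (a (l 16748240) (l 16750312)))) (b (b (a (a (l 16744664) (l 16745896)) (l 16749792)) (a (a (l 16743440) (l 16724776)) (a (l 16727928) (l 16731776)))) (a (a (b (b (l 16732552) (c (l 16728464) (l 16758792))) (b (a (c (l 16728248) (l 16757440)) (c (l 16730400) (l 16758568))) (c (a (b (l 16728896) (c (l 602202174308019507995983) (l 16735672))) (c (l 602544303769321957795151) (l 16737640))) (a (b (l 16777808) (c (l 16749224) (a (l 16763792) (l 16764304)))) (b (l 16758112) (a (l 16778464) (l 16758224))))))) (c (b (l 16732248) (b (b (l 16733704) (l 16734352)) (c (b (l 16729464) (l 603209395901465056793615)) (l 16741168)))) (b (l 16761296) (a (b (l 16759888) (a (l 16780064) (l 16759880))) (c (l 16754496) (l 16778800)))))) (b (a (c (l 16737200) (l 16764032)) (c (l 16742920) (l 16767408))) (a (c (b (l 16739496) (c (l 16736224) (l 16746448))) (b (l 16763872) (a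 (l 16762944) (l 16764872)))) (c (c (b (l 16740744) (l 16743024)) (l 16751448)) (a (l 16787768) (l 16768784)))))))) (b (a (b (l 16752688) (a (l 16753144) (l 16756760))) (b (l 16758432) (b (l 16761280) (l 16742320)))) (b (a (c (b (l 16744600) (l 16748040)) (l 16750896)) (a (l 16743920) (l 16747632))) (a (b (c (a (l 16748808) (l 16754520)) (c (l 16766992) (l 16778592))) (c (c (a (l 16748488) (l 16754440)) (c (l 16757544) (l 16761816))) (a (b (l 16771520) (l 16771872)) (l 16775248)))) (c (b (c (l 16758288) (l 16765904)) (c (a (l 16759784) (l 16764552)) (l 16768712))) (b (l 16779024) (a (l 16778416) (l 16781224)))))))), by decide +kernel⟩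

def k49_pm_123_a : ∃ t, chk3 f_pm_123_a t 14 2 1 = true :=
  ⟨(b (a (b (a (l 16773936) (l 16774632)) (l 16819864)) (a (b (a (l 16767760) (l 151632517351)) (l 16776104)) (a (b (l 158074855735) (l 16768392)) (b (l 4) (l 16763224))))) (b (a (l 16782768) (a (l 16780960) (l 16774608))) (a (a (l 16782352) (l 16785680)) (a (l 16783432) (l 16778488))))), by decide +kernel⟩

def k50_pm_123_a : ∃ t, chk3 f_pm_123_a t 14 3 1 = true :=
  ⟨(b (a (b (b (l 16777304) (l 16771440)) (b (l 16826904) (a (l 16755792) (l 16756696)))) (b (a (l 16818320) (b (l 16781032) (l 16778944))) (b (a (l 16768232) (l 16774904)) (a (l 16762032) (l 16768648))))) (b (a (b (a (l 16686128) (l 16668816)) (a (b (l 16755544) (l 16760352)) (b (l 16738072) (l 16764904)))) (b (a (b (l 16756968) (l 16757552)) (b (l 16762352) (l 16761152))) (a (b (l 16762712) (a (l 16767296) (l 16768360))) (b (l 16765560) (a (l 16769592) (l 16771136)))))) (a (b (b (a (l 16764288) (l 16769528)) (a (l 16748104) (a (l 16772816) (l 16774752)))) (b (b (a (l 16751280)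 (l 16756200)) (a (a (l 16772904) (l 16775600)) (c (l 16773720) (l 16786616)))) (a (c (b (a (l 16768176) (l 16771688)) (a (c (l 16768704) (l 16774128)) (b (l 16774184) (l 16775864)))) (b (a (l 16782704) (l 16784736)) (a (l 16783616) (l 16786144)))) (c (b (a (l 16775216) (l 16779120)) (a (c (l 16776888) (l 16781248)) (l 16783232))) (b (l 16809288) (a (l 16788936) (l 16792256))))))) (b (a (b (l 16772632) (a (l 16776912) (l 16779120))) (b (a (l 16774984) (l 16777104)) (c (l 16777960) (l 16768064)))) (b (b (a (l 16772080) (a (l 16787256) (l 16790400))) (a (c (l 16781040) (l 16791544)) (c (l 16767728) (l 16776400)))) (a (b (a (l 16808712) (l 16770432)) (a (c (l 16787504) (l 16795760)) (c (l 16812720) (l 16799352)))) (b (a (c (l 16791112) (l 16799176)) (l 16786744)) (a (c (l 16815880) (l 16801912)) (c (l 16796624) (l 16803024)))))))))), by decide +kernel⟩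

def k51_pm_123_a : ∃ t, chk3 f_pm_123_a t 15 2 1 = true :=
  ⟨(a (b (a (b (l 4) (a (l 186529155063) (l 4))) (l 4)) (a (b (a (l 16768160) (l 16764448)) (l 16770432)) (b (a (l 182233963735) (l 4)) (a (l 16767536) (b (l 230552377655) (l 16766336)))))) (a (b (l 4) (a (b (l 4) (b (l 4) (l 338463639735))) (l 4))) (l 4))), by decide +kernel⟩

def k52_pm_123_a : ∃ t, chk3 f_pm_123_a t 30 3 1 = true :=
  ⟨(b (a (b (b (l 16775968) (l 16780792)) (b (l 16778096) (l 16771760))) (b (a (l 16772664) (l 16770312)) (b (a (l 16777304) (l 16772520)) (a (l 16771864) (l 16771480))))) (b (a (a (b (l 16764448) (l 16749808)) (b (l 16765456) (l 16751904))) (b (l 16767080) (b (l 16773648) (l 16779144)))) (b (a (a (b (l 16779544) (l 16787296)) (b (l 16761232) (l 16767704))) (a (b (l 16741904) (l 16746776)) (b (l 16784280) (l 16745120)))) (a (b (a (b (l 16792416) (l 16795456)) (b (l 16793008) (l 16794984))) (b (a (l 16787128) (c (l 16793672) (l 16799480))) (a (c (l 16796456) (l 16802208)) (c (l 16805432) (l 16800024))))) (b (a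 (b (l 16791704) (l 16772088)) (c (l 16766248) (l 16771032))) (a (b (c (l 16791624) (l 16796600)) (c (c (l 16791496) (l 16793416)) (l 16783688))) (b (c (l 16788720) (l 16792840)) (c (b (l 16789304) (l 16800120)) (a (l 16794064) (l 16792176)))))))))), by decide +kernel⟩

def k53_pm_123_a : ∃ t, chk3 f_pm_123_a t 31 3 1 = true :=
  ⟨(a (a (b (b (b (l 16820672) (l 16769144)) (b (l 16768344) (l 16769984))) (b (b (b (l 16767752) (l 16769944)) (l 16777960)) (b (b (l 16762088) (c (l 16761712) (l 16765496))) (c (b (l 16763216) (b (l 16785560) (a (l 16797728) (b (l 16785528) (l 16786024))))) (b (l 16766920) (b (l 16788800) (a (l 16790336) (l 16788504)))))))) (b (b (b (l 4) (a (l 16767416) (l 16767296))) (a (l 16767240) (b (l 16766680) (l 16765368)))) (b (b (b (l 16767712) (l 16769608)) (l 16797496)) (b (b (l 16780584) (b (l 16759928) (l 16781072))) (a (b (b (l 16782456) (l 16783440)) (b (c (l 16783240) (l 16785808)) (b (l 16779616) (c (l 16784608) (l 16786888))))) (b (b (l 16759448) (l 16760584)) (b (c (l 16781720)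 (l 16783824)) (c (b (l 16782608) (c (l 16782808) (l 16783640))) (b (l 16784600) (l 16785112)))))))))) (b (a (b (l 4) (a (b (l 139821419927) (l 16766536)) (b (l 4) (a (l 16768080) (l 234847559351))))) (l 4)) (b (b (a (a (l 16765784) (a (l 16743432) (l 16765992))) (a (b (a (l 16768712) (l 4)) (a (l 16765720) (a (l 16767984) (l 4)))) (l 4))) (a (a (b (l 16773504) (l 16776864)) (b (l 16770960) (l 6))) (a (a (b (l 16767776) (l 6)) (l 6)) (l 6)))) (a (a (a (b (l 16778848) (b (b (l 16779104) (l 16780160)) (b (l 16770920) (c (b (l 16781528) (l 16782160)) (l 16793992))))) (l 6)) (l 6)) (l 6))))), by decide +kernel⟩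

theorem s54_pm_123_a : ∃ t, chk3 f_pm_123_a t 15 3 1 = true := ex3_a k52_pm_123_a k53_pm_123_a

theorem s55_pm_123_a : ∃ t, chk3 f_pm_123_a t 15 1 1 = true := ex3_b k51_pm_123_a s54_pm_123_a

theorem s56_pm_123_a : ∃ t, chk3 f_pm_123_a t 14 1 1 = true := ex3_b k49_pm_123_a k50_pm_123_a

theorem s57_pm_123_a : ∃ t, chk3 f_pm_123_a t 7 1 1 = true := ex3_a s56_pm_123_a s55_pm_123_a

theorem s58_pm_123_a : ∃ t, chk3 f_pm_123_a t 13 7 1 = true := ex3_b k47_pm_123_a k48_pm_123_a

theorem s59_pm_123_a : ∃ t, chk3 f_pm_123_a t 51 63 1 = true := ex3_a k45_pm_123_a k46_pm_123_a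

theorem s60_pm_123_a : ∃ t, chk3 f_pm_123_a t 51 31 1 = true := ex3_b k44_pm_123_a s59_pm_123_a

theorem s61_pm_123_a : ∃ t, chk3 f_pm_123_a t 25 31 1 = true := ex3_a k43_pm_123_a s60_pm_123_a

theorem s62_pm_123_a : ∃ t, chk3 f_pm_123_a t 25 15 1 = true := ex3_b k42_pm_123_a s61_pm_123_a

theorem s63_pm_123_a : ∃ t, chk3 f_pm_123_a t 96 255 1 = true := ex3_c k38_pm_123_a k39_pm_123_a

theorem s64_pm_123_a : ∃ t, chk3 f_pm_123_a t 48 255 1 = true := ex3_a s63_pm_123_a k40_pm_123_a

theorem s65_pm_123_a : ∃ t, chk3 f_pm_123_a t 48 127 1 = true := ex3_b k37_pm_123_a s64_pm_123_a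

theorem s66_pm_123_a : ∃ t, chk3 f_pm_123_a t 24 127 1 = true := ex3_a s65_pm_123_a k41_pm_123_a

theorem s67_pm_123_a : ∃ t, chk3 f_pm_123_a t 24 63 1 = true := ex3_b k36_pm_123_a s66_pm_123_a

theorem s68_pm_123_a : ∃ t, chk3 f_pm_123_a t 24 31 1 = true := ex3_b k35_pm_123_a s67_pm_123_a

theorem s69_pm_123_a : ∃ t, chk3 f_pm_123_a t 24 15 1 = true := ex3_b k34_pm_123_a s68_pm_123_a

theorem s70_pm_123_a : ∃ t, chk3 f_pm_123_a t 12 15 1 = true := ex3_a s69_pm_123_a s62_pm_123_a

theorem s71_pm_123_a : ∃ t, chk3 f_pm_123_a t 12 7 1 = true := ex3_b k33_pm_123_a s70_pm_123_a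

theorem s72_pm_123_a : ∃ t, chk3 f_pm_123_a t 6 7 1 = true := ex3_a s71_pm_123_a s58_pm_123_a

theorem s73_pm_123_a : ∃ t, chk3 f_pm_123_a t 6 3 1 = true := ex3_b k32_pm_123_a s72_pm_123_a

theorem s74_pm_123_a : ∃ t, chk3 f_pm_123_a t 6 1 1 = true := ex3_b k31_pm_123_a s73_pm_123_a

theorem s75_pm_123_a : ∃ t, chk3 f_pm_123_a t 3 1 1 = true := ex3_a s74_pm_123_a s57_pm_123_a

theorem s76_pm_123_a : ∃ t, chk3 f_pm_123_a t 47 511 3 = true := ex3_c k29_pm_123_a k30_pm_123_a

theorem s77_pm_123_a : ∃ t, chk3 f_pm_123_a t 47 255 3 = true := ex3_b k28_pm_123_a s76_pm_123_a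

theorem s78_pm_123_a : ∃ t, chk3 f_pm_123_a t 47 127 3 = true := ex3_b k27_pm_123_a s77_pm_123_a

theorem s79_pm_123_a : ∃ t, chk3 f_pm_123_a t 47 63 3 = true := ex3_b k26_pm_123_a s78_pm_123_a

theorem s80_pm_123_a : ∃ t, chk3 f_pm_123_a t 23 63 3 = true := ex3_a k25_pm_123_a s79_pm_123_a

theorem s81_pm_123_a : ∃ t, chk3 f_pm_123_a t 23 511 2 = true := ex3_a k23_pm_123_a k24_pm_123_a

theorem s82_pm_123_a : ∃ t, chk3 f_pm_123_a t 23 255 2 = true := ex3_b k22_pm_123_a s81_pm_123_a

theorem s83_pm_123_a : ∃ t, chk3 f_pm_123_a t 23 127 2 = true := ex3_b k21_pm_123_a s82_pm_123_a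

theorem s84_pm_123_a : ∃ t, chk3 f_pm_123_a t 23 63 2 = true := ex3_b k20_pm_123_a s83_pm_123_a

theorem s85_pm_123_a : ∃ t, chk3 f_pm_123_a t 23 63 1 = true := ex3_c s84_pm_123_a s80_pm_123_a

theorem s86_pm_123_a : ∃ t, chk3 f_pm_123_a t 23 31 1 = true := ex3_b k19_pm_123_a s85_pm_123_a

theorem s87_pm_123_a : ∃ t, chk3 f_pm_123_a t 23 15 1 = true := ex3_b k18_pm_123_a s86_pm_123_a

theorem s88_pm_123_a : ∃ t, chk3 f_pm_123_a t 22 63 1 = true := ex3_b k16_pm_123_a k17_pm_123_a

theorem s89_pm_123_a : ∃ t, chk3 f_pm_123_a t 22 31 1 = true := ex3_b k15_pm_123_a s88_pm_123_a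

theorem s90_pm_123_a : ∃ t, chk3 f_pm_123_a t 22 15 1 = true := ex3_b k14_pm_123_a s89_pm_123_a

theorem s91_pm_123_a : ∃ t, chk3 f_pm_123_a t 11 15 1 = true := ex3_a s90_pm_123_a s87_pm_123_a

theorem s92_pm_123_a : ∃ t, chk3 f_pm_123_a t 11 7 1 = true := ex3_b k13_pm_123_a s91_pm_123_a

theorem s93_pm_123_a : ∃ t, chk3 f_pm_123_a t 11 3 1 = true := ex3_b k12_pm_123_a s92_pm_123_a

theorem s94_pm_123_a : ∃ t, chk3 f_pm_123_a t 21 63 1 = true := ex3_a k10_pm_123_a k11_pm_123_a

theorem s95_pm_123_a : ∃ t, chk3 f_pm_123_a t 21 31 1 = true := ex3_b k9_pm_123_a s94_pm_123_a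

theorem s96_pm_123_a : ∃ t, chk3 f_pm_123_a t 21 15 1 = true := ex3_b k8_pm_123_a s95_pm_123_a

theorem s97_pm_123_a : ∃ t, chk3 f_pm_123_a t 10 15 1 = true := ex3_a k7_pm_123_a s96_pm_123_a

theorem s98_pm_123_a : ∃ t, chk3 f_pm_123_a t 10 7 1 = true := ex3_b k6_pm_123_a s97_pm_123_a

theorem s99_pm_123_a : ∃ t, chk3 f_pm_123_a t 10 3 1 = true := ex3_b k5_pm_123_a s98_pm_123_a

theorem s100_pm_123_a : ∃ t, chk3 f_pm_123_a t 5 3 1 = true := ex3_a s99_pm_123_a s93_pm_123_a

theorem s101_pm_123_a : ∃ t, chk3 f_pm_123_a t 5 1 1 = true := ex3_b k4_pm_123_a s100_pm_123_a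

theorem s102_pm_123_a : ∃ t, chk3 f_pm_123_a t 4 7 1 = true := ex3_a k2_pm_123_a k3_pm_123_a

theorem s103_pm_123_a : ∃ t, chk3 f_pm_123_a t 4 3 1 = true := ex3_b k1_pm_123_a s102_pm_123_a

theorem s104_pm_123_a : ∃ t, chk3 f_pm_123_a t 4 1 1 = true := ex3_b k0_pm_123_a s103_pm_123_a

theorem s105_pm_123_a : ∃ t, chk3 f_pm_123_a t 2 1 1 = true := ex3_a s104_pm_123_a s101_pm_123_a

theorem s106_pm_123_a : ∃ t, chk3 f_pm_123_a t 1 1 1 = true := ex3_a s105_pm_123_a s75_pm_123_a

theorem c_pm_123_a : CertB 536870912 536870912 0 536870912 740881858 40050571 3 eng mog cd0q1 cd2q2a pd3 true true false .npn 1 2 3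
    ndB0q1 ndB2q2a pcB3 cut_pm_123_a xt_pm_123_a :=
  certB2 (fam := true) (s1 := true) (s2 := false) (a := 1) (b := 2) (c := 3) (cn := .npn) (n1 := ndB0q1) (n2 := ndB2q2a) (pc := pcB3) (cut := cut_pm_123_a) (xt := xt_pm_123_a) (P1 := 536870912) (W1 := 536870912) (P2 := 0) (W2 := 536870912) (P3 := 740881858) (W3 := 40050571) (N0 := 3) (En := eng) (mo := mog) (C1 := cd0q1) (C2 := cd2q2a) (C3 := pd3)
    rfl (fun _ => rfl) s106_pm_123_a

noncomputable def cut_pm_123_b : Cut := Cut.of [[⟨0, 1, 0, 67108864⟩, ⟨1, 1, 0, 67108864⟩, ⟨2, 2, 0, 16777216⟩], [⟨0, 0, 1, 20971520⟩, ⟨1, 1, 0, 33554432⟩, ⟨2, 1, 1, 20971520⟩]]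

noncomputable def f_pm_123_b : ℕ → ℕ → ℕ → ℕ → Bool := onCell 1610612736 536870912 1239849684 370763052 740881858 40050571
    (rowB 3 eng mog cd0q1 cd2q2b pd3 2 true true false .npn 1 2 3 (qsf 536870912 536870912 1239849684 370763052 3) ndB0q1 ndB2q2b pcB3 cut_pm_123_b Ext.none)

def k0_pm_123_b : ∃ t, chk3 f_pm_123_b t 1 1 1 = true :=
  ⟨(a (b (a (l 1) (b (a (b (b (a (b (b (l 16597112) (l 1)) (l 1)) (b (b (l 16627240) (l 16623712)) (l 16615272))) (a (l 1) (l 16616112))) (l 1)) (b (b (b (a (b (l 16649192) (l 16646048)) (b (l 16671944) (l 16668432))) (a (l 16641344) (l 16662512))) (l 16808160)) (a (l 16651656) (l 16675200)))) (a (l 1) (b (l 99354769623) (l 1))))) (l 1)) (a (b (b (a (b (b (b (a (b (l 16701288) (l 16698152)) (b (l 16728600) (l 16725184))) (a (l 16693920) (l 16720568))) (l 16702280)) (a (l 16700320) (l 16722048))) (a (b (b (b (b (l 16751368) (l 16746704)) (l 16741592)) (l 16736440)) (l 16736824)) (b (b (b (b (l 16766888) (l 16762552)) (l 16758096)) (l 16755920)) (b (l 16744784) (l 16731816)))))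 (a (b (a (l 16691264) (l 16712584)) (a (l 1) (l 16688232))) (a (b (l 16719256) (l 16697192)) (b (l 16714712) (l 16693264))))) (b (a (l 1) (a (b (l 16672488) (l 1)) (b (l 16674552) (l 4)))) (l 1))) (a (b (b (b (a (b (b (b (a (l 16772568) (l 16790456)) (l 16768720)) (a (l 16765680) (l 16760352))) (a (l 16754504) (l 16750400))) (b (a (b (b (a (l 16772376) (l 4)) (l 16756896)) (l 16753784)) (l 4)) (l 4))) (a (a (l 16733168) (l 16836728)) (l 4))) (a (b (a (l 16709752) (l 4)) (l 4)) (l 4))) (l 4)) (l 4)))), by decide +kernel⟩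

theorem c_pm_123_b : CertB 536870912 536870912 1239849684 370763052 740881858 40050571 3 eng mog cd0q1 cd2q2b pd3 true true false .npn 1 2 3
    ndB0q1 ndB2q2b pcB3 cut_pm_123_b Ext.none :=
  certB2 (fam := true) (s1 := true) (s2 := false) (a := 1) (b := 2) (c := 3) (cn := .npn) (n1 := ndB0q1) (n2 := ndB2q2b) (pc := pcB3) (cut := cut_pm_123_b) (xt := Ext.none) (P1 := 536870912) (W1 := 536870912) (P2 := 1239849684) (W2 := 370763052) (P3 := 740881858) (W3 := 40050571) (N0 := 3) (En := eng) (mo := mog) (C1 := cd0q1) (C2 := cd2q2b) (C3 := pd3)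
    rfl (fun _ => rfl) k0_pm_123_b

noncomputable def f_pm_133 : ℕ → ℕ → ℕ → ℕ → Bool := onCell 536870912 536870912 1610612736 536870912 740881858 40050571
    (rowB 3 eng mog cd0q1 cd2q3 pd3 0 true true false .dn 1 3 3 (qsf 536870912 536870912 1610612736 536870912 3) ndB0q1 ndB2q3 pcB3 Cut.none Ext.none)

def k0_pm_133 : ∃ t, chk3 f_pm_133 t 1 1 1 = true :=
  ⟨(l 4), by decide +kernel⟩

theorem c_pm_133 : CertB 536870912 536870912 1610612736 536870912 740881858 40050571 3 eng mog cd0q1 cd2q3 pd3 true true false .dn 1 3 3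
    ndB0q1 ndB2q3 pcB3 Cut.none Ext.none :=
  certB0 (fam := true) (s1 := true) (s2 := false) (a := 1) (b := 3) (c := 3) (cn := .dn) (n1 := ndB0q1) (n2 := ndB2q3) (pc := pcB3) (cut := Cut.none) (xt := Ext.none) (P1 := 536870912) (W1 := 536870912) (P2 := 1610612736) (W2 := 536870912) (P3 := 740881858) (W3 := 40050571) (N0 := 3) (En := eng) (mo := mog) (C1 := cd0q1) (C2 := cd2q3) (C3 := pd3)
    rfl k0_pm_133

noncomputable def cut_pm_202 : Cut := Cut.of [[⟨0, 1, 0, 67108864⟩, ⟨1, 0, 0, 67108864⟩, ⟨2, 1, 0, 67108864⟩]]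

noncomputable def f_pm_202 : ℕ → ℕ → ℕ → ℕ → Bool := onCell 0 536870912 1073741824 536870912 740881858 40050571
    (rowB 3 eng mog cd0q2 cd2q0 pd2 1 true true false .pp 2 0 2 (qsf 0 536870912 0 536870912 2) ndB0q2 ndB2q0 pcB2 cut_pm_202 Ext.none)

def k0_pm_202 : ∃ t, chk3 f_pm_202 t 2 2 1 = true :=
  ⟨(a (b (l 1) (b (b (b (l 1) (b (a (l 1) (a (l 1) (l 16451656))) (a (a (c (l 16442696) (l 16411872)) (c (l 16434736) (l 16405144))) (c (a (b (l 16428992) (l 16434864)) (l 16434384)) (a (l 16403536) (l 16407336)))))) (b (a (a (l 16438856) (c (l 16444856) (l 16416000))) (c (a (l 16441936) (l 16444080)) (a (l 16414016) (l 16417280)))) (a (a (l 16449672) (l 16442440)) (c (l 16454000) (l 16448272))))) (a (b (a (c (l 16473000) (l 16452616)) (l 16459264)) (a (l 16483448) (l 16480904))) (a (b (l 16456760) (l 16478960)) (b (l 16458728) (l 16480144)))))) (b (b (l 1) (b (l 1) (a (l 1) (b (l 1) (a (l 1) (b (l 1) (a (c (l 16449624) (l 16428160)) (c (l 16461080) (l 163241643015))))))))) (b (b (a (b (b (l 1) (a (l 63383687015)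 (c (l 16432552) (l 16408352)))) (b (a (c (l 16430488) (l 16404576)) (a (l 16426624) (l 16433536))) (a (c (l 16440680) (l 16415648)) (c (l 16471152) (l 16427976))))) (c (b (a (b (a (l 16436280) (l 16445224)) (l 16447704)) (b (a (l 16454808) (l 16465528)) (l 16465656))) (a (b (l 16455056) (l 16462672)) (b (l 16471616) (l 16519848)))) (b (a (b (a (l 16413240) (l 16423672)) (l 16426624)) (b (a (l 16434744) (l 16446920)) (l 16447656))) (a (b (l 16435104) (l 16443760)) (b (l 16454848) (l 16462272)))))) (a (b (a (l 16480080) (c (l 16458984) (l 16436488))) (a (l 16448672) (l 16479328))) (b (a (l 16503600) (c (l 16485560) (l 16469032))) (a (l 16492040) (l 16528312))))) (a (b (a (l 16464328) (l 16515064)) (a (l 16484608) (l 16491968))) (b (a (l 16505720) (b (l 16494752) (l 16502792))) (a (l 16501912) (l 16514080))))))), by decide +kernel⟩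

def k1_pm_202 : ∃ t, chk3 f_pm_202 t 2 3 1 = true :=
  ⟨(b (a (b (a (b (l 16501248) (l 16522208)) (b (a (l 16499992) (l 16500784)) (l 16519000))) (a (l 16548624) (l 16561200))) (b (a (b (l 16611880) (l 16521368)) (b (c (l 16521368) (l 16514992)) (l 16526296))) (a (b (l 16527680) (l 16538680)) (b (l 16528224) (l 16533496))))) (a (b (a (l 16587984) (l 16573256)) (b (l 16695448) (l 16631896))) (b (a (l 16559240) (b (l 16541576) (l 16553536))) (a (l 16592816) (l 16575160))))), by decide +kernel⟩

def k2_pm_202 : ∃ t, chk3 f_pm_202 t 3 8 1 = true :=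
  ⟨(a (l 1) (b (a (l 1) (l 6)) (b (a (a (l 1) (l 6)) (l 6)) (b (a (a (l 1) (l 6)) (l 6)) (a (a (a (l 1) (b (l 310881501047) (a (l 344167498343) (l 16621816)))) (b (l 6) (a (l 16662800) (l 16667608)))) (b (l 6) (a (l 16672760) (l 16654112)))))))), by decide +kernel⟩

def k3_pm_202 : ∃ t, chk3 f_pm_202 t 3 9 1 = true :=
  ⟨(a (b (a (l 1) (b (a (l 1) (b (l 1) (a (l 255046823799) (l 358662966535)))) (a (b (a (l 1) (l 243772472887)) (a (l 264710398983) (l 264710455127))) (a (b (l 293701513255) (l 16559096)) (b (l 16575904) (l 16582584)))))) (a (b (a (a (l 1) (b (l 1) (b (l 1) (l 198675208247)))) (b (a (l 1) (b (l 16502648) (l 16506904))) (a (c (l 240014348631) (b (l 16480960) (l 16485000))) (b (l 16511080) (l 16515008))))) (b (a (a (c (l 16471536) (l 153041113783)) (c (l 16487696) (l 177737214743))) (a (c (l 16505488) (l 16487512)) (l 16516208))) (a (a (c (l 16474488) (l 16455736)) (c (l 16489752) (l 16472328))) (a (l 16498832) (l 16517256))))) (a (b (b (a (b (l 16523288) (l 16527704)) (l 16545552)) (a (b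 (l 16531872) (l 16535616)) (b (l 16551872) (l 16555832)))) (a (b (l 16536240) (l 16536312)) (b (l 16556432) (l 16555808)))) (b (b (c (l 16542024) (l 16508920)) (l 16501408)) (l 16524088))))) (a (b (a (a (b (b (b (l 289406643415) (l 354368026567)) (a (l 16589176) (l 16602608))) (c (l 16524544) (l 16536832))) (b (b (b (a (l 16610616) (l 16624112)) (l 16619336)) (l 16580448)) (l 16608200))) (b (b (a (l 16581560) (l 16669584)) (l 16596648)) (a (l 16640416) (l 16636184)))) (b (a (b (l 16624976) (l 16611776)) (b (l 16617040) (l 16602672))) (a (l 16599184) (l 16588848)))) (b (a (b (a (l 16658848) (l 16714744)) (a (l 16630944) (l 16623888))) (b (b (a (l 16649088) (l 16637160)) (l 16629920)) (a (l 16614472) (l 16602608)))) (a (b (b (l 16605696) (l 16591056)) (l 16576024)) (b (b (l 16586832) (l 16572008)) (l 16555864)))))), by decide +kernel⟩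

def k4_pm_202 : ∃ t, chk3 f_pm_202 t 3 5 1 = true :=
  ⟨(b (a (b (b (a (a (b (a (l 16469816) (l 16484880)) (a (l 16474768) (l 16488984))) (a (a (l 16498824) (l 16507152)) (l 16478048))) (a (b (l 16546384) (l 16547136)) (l 16584784))) (b (a (a (l 16507896) (l 16516144)) (a (l 16548376) (l 16583064))) (a (a (b (l 16490984) (l 16493600)) (a (l 16512392) (l 16527024))) (a (l 16550032) (b (l 16582624) (l 16582552)))))) (a (a (b (c (l 16504928) (l 16491456)) (l 16506032)) (b (l 16524424) (l 16530200))) (a (l 16554776) (l 16567768)))) (b (b (a (a (l 16586464) (l 16574112)) (a (l 16559320) (l 16537296))) (b (a (a (l 16577576) (l 16563608)) (a (l 16547240) (l 16523728))) (a (b (a (l 16573240) (l 16558456)) (a (l 16570576) (l 16555000))) (b (l 16571384) (a (l 16536904) (l 16511848)))))) (a (a (l 16555088) (l 16538808)) (a (l 16519464) (l 16493072))))) (a (a (b (a (b (l 16513176) (l 16519864)) (a (l 16532200) (l 16543344))) (a (l 16528928) (l 16538720))) (b (a (l 16551240) (l 16543960)) (a (l 16533872) (l 16523784))))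 (a (a (b (l 16529024) (l 16506072)) (b (b (l 16518736) (l 16506104)) (l 16487408))) (a (b (l 16491408) (l 16465192)) (b (l 16462728) (l 16434944)))))), by decide +kernel⟩

def k5_pm_202 : ∃ t, chk3 f_pm_202 t 3 3 1 = true :=
  ⟨(b (a (b (a (b (c (l 16524328) (l 16537232)) (l 16607512)) (b (a (l 16520000) (l 16507056)) (l 16544080))) (a (b (l 16520456) (l 16520768)) (b (l 16514640) (l 16489096)))) (b (a (b (a (l 16486384) (l 16464832)) (a (l 16470248) (l 16446552))) (b (a (l 16441792) (l 16410616)) (a (l 16421616) (l 16390736)))) (a (b (l 16467752) (l 16438376)) (b (l 16390856) (l 16380256))))) (a (b (a (l 16527624) (l 16489568)) (a (l 16631728) (l 16504016))) (a (b (l 16434328) (l 16445640)) (b (l 16374320) (l 16385952))))), by decide +kernel⟩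

theorem s6_pm_202 : ∃ t, chk3 f_pm_202 t 3 4 1 = true := ex3_b k2_pm_202 k3_pm_202

theorem s7_pm_202 : ∃ t, chk3 f_pm_202 t 3 2 1 = true := ex3_b s6_pm_202 k4_pm_202

theorem s8_pm_202 : ∃ t, chk3 f_pm_202 t 3 1 1 = true := ex3_b s7_pm_202 k5_pm_202

theorem s9_pm_202 : ∃ t, chk3 f_pm_202 t 2 1 1 = true := ex3_b k0_pm_202 k1_pm_202

theorem s10_pm_202 : ∃ t, chk3 f_pm_202 t 1 1 1 = true := ex3_a s9_pm_202 s8_pm_202

theorem c_pm_202 : CertB 0 536870912 0 536870912 740881858 40050571 3 eng mog cd0q2 cd2q0 pd2 true true false .pp 2 0 2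
    ndB0q2 ndB2q0 pcB2 cut_pm_202 Ext.none :=
  certB1 (fam := true) (s1 := true) (s2 := false) (a := 2) (b := 0) (c := 2) (cn := .pp) (n1 := ndB0q2) (n2 := ndB2q0) (pc := pcB2) (cut := cut_pm_202) (xt := Ext.none) (P1 := 0) (W1 := 536870912) (P2 := 0) (W2 := 536870912) (P3 := 740881858) (W3 := 40050571) (N0 := 3) (En := eng) (mo := mog) (C1 := cd0q2) (C2 := cd2q0) (C3 := pd2)
    rfl (fun _ => rfl) s10_pm_202

noncomputable def f_pm_203 : ℕ → ℕ → ℕ → ℕ → Bool := onCell 0 536870912 1610612736 536870912 740881858 40050571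
    (rowB 3 eng mog cd0q2 cd2q0 pd3 1 true true false .up 2 0 3 (qsf 0 536870912 0 536870912 3) ndB0q2 ndB2q0 pcB3 Cut.none Ext.none)

def k0_pm_203 : ∃ t, chk3 f_pm_203 t 1 1 1 = true :=
  ⟨(b (b (a (a (b (b (l 16651856) (l 16669272)) (b (l 16685592) (l 16698912))) (b (a (l 16630344) (l 16609576)) (a (l 16666216) (l 16648208)))) (a (b (a (l 16580248) (l 16534632)) (a (l 16623248) (l 16586056))) (b (l 16703800) (l 272831088615)))) (a (a (l 4) (b (a (l 16704736) (l 16694824)) (l 2))) (a (l 2) (l 2)))) (l 2)), by decide +kernel⟩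

theorem c_pm_203 : CertB 0 536870912 0 536870912 740881858 40050571 3 eng mog cd0q2 cd2q0 pd3 true true false .up 2 0 3
    ndB0q2 ndB2q0 pcB3 Cut.none Ext.none :=
  certB1 (fam := true) (s1 := true) (s2 := false) (a := 2) (b := 0) (c := 3) (cn := .up) (n1 := ndB0q2) (n2 := ndB2q0) (pc := pcB3) (cut := Cut.none) (xt := Ext.none) (P1 := 0) (W1 := 536870912) (P2 := 0) (W2 := 536870912) (P3 := 740881858) (W3 := 40050571) (N0 := 3) (En := eng) (mo := mog) (C1 := cd0q2) (C2 := cd2q0) (C3 := pd3)
    rfl (fun _ => rfl) k0_pm_203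

noncomputable def f_pm_213 : ℕ → ℕ → ℕ → ℕ → Bool := onCell 0 536870912 1610612736 536870912 740881858 40050571
    (rowB 3 eng mog cd0q2 cd2q1 pd3 1 true true false .pnn 2 1 3 (qsf 0 536870912 536870912 536870912 3) ndB0q2 ndB2q1 pcB3 Cut.none Ext.none)

def k0_pm_213 : ∃ t, chk3 f_pm_213 t 1 1 1 = true :=
  ⟨(a (b (b (a (l 1) (b (l 1) (a (l 1) (l 16616672)))) (a (l 4) (b (a (l 16561200) (l 16636968)) (l 16834776)))) (l 4)) (b (b (a (b (l 1) (a (l 16621016) (l 16610488))) (b (l 16701248) (a (l 16590528) (l 16582792)))) (b (a (a (l 16677312) (l 16693960)) (a (l 16713216) (l 16772728))) (a (l 16803568) (a (l 16860568) (l 16968752))))) (b (a (b (l 75933935895) (l 4)) (b (a (l 16794656) (l 16882416)) (b (l 16983424) (a (l 16725064) (l 16801024))))) (b (a (l 4) (b (a (l 4) (l 16767280)) (l 4))) (l 4))))), by decide +kernel⟩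

theorem c_pm_213 : CertB 0 536870912 536870912 536870912 740881858 40050571 3 eng mog cd0q2 cd2q1 pd3 true true false .pnn 2 1 3
    ndB0q2 ndB2q1 pcB3 Cut.none Ext.none :=
  certB1 (fam := true) (s1 := true) (s2 := false) (a := 2) (b := 1) (c := 3) (cn := .pnn) (n1 := ndB0q2) (n2 := ndB2q1) (pc := pcB3) (cut := Cut.none) (xt := Ext.none) (P1 := 0) (W1 := 536870912) (P2 := 536870912) (W2 := 536870912) (P3 := 740881858) (W3 := 40050571) (N0 := 3) (En := eng) (mo := mog) (C1 := cd0q2) (C2 := cd2q1) (C3 := pd3)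
    rfl (fun _ => rfl) k0_pm_213

noncomputable def f_mm_001 : ℕ → ℕ → ℕ → ℕ → Bool := onCell 0 536870912 0 536870912 740881858 40050571
    (rowB 3 eng mog cd0q0 cd2q0 pd1 0 true false false .up 0 0 1 (qsf 0 536870912 0 536870912 1) ndB0q0 ndB2q0 pcB1 Cut.none Ext.none)

def k0_mm_001 : ∃ t, chk3 f_mm_001 t 1 1 1 = true :=
  ⟨(l 4), by decide +kernel⟩

theorem c_mm_001 : CertB 0 536870912 0 536870912 740881858 40050571 3 eng mog cd0q0 cd2q0 pd1 true false false .up 0 0 1
    ndB0q0 ndB2q0 pcB1 Cut.none Ext.none :=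
  certB0 (fam := true) (s1 := false) (s2 := false) (a := 0) (b := 0) (c := 1) (cn := .up) (n1 := ndB0q0) (n2 := ndB2q0) (pc := pcB1) (cut := Cut.none) (xt := Ext.none) (P1 := 0) (W1 := 536870912) (P2 := 0) (W2 := 536870912) (P3 := 740881858) (W3 := 40050571) (N0 := 3) (En := eng) (mo := mog) (C1 := cd0q0) (C2 := cd2q0) (C3 := pd1)
    rfl k0_mm_001

noncomputable def f_mm_011 : ℕ → ℕ → ℕ → ℕ → Bool := onCell 0 536870912 536870912 536870912 740881858 40050571
    (rowB 3 eng mog cd0q0 cd2q1 pd1 0 true false false .pnn 0 1 1 (qsf 0 536870912 536870912 536870912 1) ndB0q0 ndB2q1 pcB1 Cut.none Ext.none)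

def k0_mm_011 : ∃ t, chk3 f_mm_011 t 1 1 1 = true :=
  ⟨(l 4), by decide +kernel⟩

theorem c_mm_011 : CertB 0 536870912 536870912 536870912 740881858 40050571 3 eng mog cd0q0 cd2q1 pd1 true false false .pnn 0 1 1
    ndB0q0 ndB2q1 pcB1 Cut.none Ext.none :=
  certB0 (fam := true) (s1 := false) (s2 := false) (a := 0) (b := 1) (c := 1) (cn := .pnn) (n1 := ndB0q0) (n2 := ndB2q1) (pc := pcB1) (cut := Cut.none) (xt := Ext.none) (P1 := 0) (W1 := 536870912) (P2 := 536870912) (W2 := 536870912) (P3 := 740881858) (W3 := 40050571) (N0 := 3) (En := eng) (mo := mog) (C1 := cd0q0) (C2 := cd2q1) (C3 := pd1)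
    rfl k0_mm_011

noncomputable def f_mm_012 : ℕ → ℕ → ℕ → ℕ → Bool := onCell 0 536870912 536870912 536870912 740881858 40050571
    (rowB 3 eng mog cd0q0 cd2q1 pd2 0 true false false .pnp 0 1 2 (qsf 0 536870912 536870912 536870912 2) ndB0q0 ndB2q1 pcB2 Cut.none Ext.none)

def k0_mm_012 : ∃ t, chk3 f_mm_012 t 1 1 1 = true :=
  ⟨(l 4), by decide +kernel⟩

theorem c_mm_012 : CertB 0 536870912 536870912 536870912 740881858 40050571 3 eng mog cd0q0 cd2q1 pd2 true false false .pnp 0 1 2
    ndB0q0 ndB2q1 pcB2 Cut.none Ext.none :=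
  certB0 (fam := true) (s1 := false) (s2 := false) (a := 0) (b := 1) (c := 2) (cn := .pnp) (n1 := ndB0q0) (n2 := ndB2q1) (pc := pcB2) (cut := Cut.none) (xt := Ext.none) (P1 := 0) (W1 := 536870912) (P2 := 536870912) (W2 := 536870912) (P3 := 740881858) (W3 := 40050571) (N0 := 3) (En := eng) (mo := mog) (C1 := cd0q0) (C2 := cd2q1) (C3 := pd2)
    rfl k0_mm_012

noncomputable def f_mm_022_a : ℕ → ℕ → ℕ → ℕ → Bool := onCell 0 536870912 0 536870912 740881858 40050571
    (rowB 3 eng mog cd0q0 cd2q2a pd2 0 true false false .pp 0 2 2 (qsf 0 536870912 0 536870912 2) ndB0q0 ndB2q2a pcB2 Cut.none Ext.none)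

def k0_mm_022_a : ∃ t, chk3 f_mm_022_a t 1 1 1 = true :=
  ⟨(l 5), by decide +kernel⟩

theorem c_mm_022_a : CertB 0 536870912 0 536870912 740881858 40050571 3 eng mog cd0q0 cd2q2a pd2 true false false .pp 0 2 2
    ndB0q0 ndB2q2a pcB2 Cut.none Ext.none :=
  certB0 (fam := true) (s1 := false) (s2 := false) (a := 0) (b := 2) (c := 2) (cn := .pp) (n1 := ndB0q0) (n2 := ndB2q2a) (pc := pcB2) (cut := Cut.none) (xt := Ext.none) (P1 := 0) (W1 := 536870912) (P2 := 0) (W2 := 536870912) (P3 := 740881858) (W3 := 40050571) (N0 := 3) (En := eng) (mo := mog) (C1 := cd0q0) (C2 := cd2q2a) (C3 := pd2)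
    rfl k0_mm_022_a

noncomputable def f_mm_022_b : ℕ → ℕ → ℕ → ℕ → Bool := onCell 0 536870912 1239849684 370763052 740881858 40050571
    (rowB 3 eng mog cd0q0 cd2q2b pd2 0 true false false .pp 0 2 2 (qsf 0 536870912 1239849684 370763052 2) ndB0q0 ndB2q2b pcB2 Cut.none Ext.none)

def k0_mm_022_b : ∃ t, chk3 f_mm_022_b t 1 1 1 = true :=
  ⟨(l 5), by decide +kernel⟩

theorem c_mm_022_b : CertB 0 536870912 1239849684 370763052 740881858 40050571 3 eng mog cd0q0 cd2q2b pd2 true false false .pp 0 2 2
    ndB0q0 ndB2q2b pcB2 Cut.none Ext.none :=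
  certB0 (fam := true) (s1 := false) (s2 := false) (a := 0) (b := 2) (c := 2) (cn := .pp) (n1 := ndB0q0) (n2 := ndB2q2b) (pc := pcB2) (cut := Cut.none) (xt := Ext.none) (P1 := 0) (W1 := 536870912) (P2 := 1239849684) (W2 := 370763052) (P3 := 740881858) (W3 := 40050571) (N0 := 3) (En := eng) (mo := mog) (C1 := cd0q0) (C2 := cd2q2b) (C3 := pd2)
    rfl k0_mm_022_b

noncomputable def f_mm_023_a : ℕ → ℕ → ℕ → ℕ → Bool := onCell 0 536870912 0 536870912 740881858 40050571
    (rowB 3 eng mog cd0q0 cd2q2a pd3 0 true false false .up 0 2 3 (qsf 0 536870912 0 536870912 3) ndB0q0 ndB2q2a pcB3 Cut.none Ext.none)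

def k0_mm_023_a : ∃ t, chk3 f_mm_023_a t 1 1 1 = true :=
  ⟨(l 5), by decide +kernel⟩

theorem c_mm_023_a : CertB 0 536870912 0 536870912 740881858 40050571 3 eng mog cd0q0 cd2q2a pd3 true false false .up 0 2 3
    ndB0q0 ndB2q2a pcB3 Cut.none Ext.none :=
  certB0 (fam := true) (s1 := false) (s2 := false) (a := 0) (b := 2) (c := 3) (cn := .up) (n1 := ndB0q0) (n2 := ndB2q2a) (pc := pcB3) (cut := Cut.none) (xt := Ext.none) (P1 := 0) (W1 := 536870912) (P2 := 0) (W2 := 536870912) (P3 := 740881858) (W3 := 40050571) (N0 := 3) (En := eng) (mo := mog) (C1 := cd0q0) (C2 := cd2q2a) (C3 := pd3)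
    rfl k0_mm_023_a

noncomputable def f_mm_023_b : ℕ → ℕ → ℕ → ℕ → Bool := onCell 0 536870912 1239849684 370763052 740881858 40050571
    (rowB 3 eng mog cd0q0 cd2q2b pd3 0 true false false .up 0 2 3 (qsf 0 536870912 1239849684 370763052 3) ndB0q0 ndB2q2b pcB3 Cut.none Ext.none)

def k0_mm_023_b : ∃ t, chk3 f_mm_023_b t 1 1 1 = true :=
  ⟨(l 5), by decide +kernel⟩

theorem c_mm_023_b : CertB 0 536870912 1239849684 370763052 740881858 40050571 3 eng mog cd0q0 cd2q2b pd3 true false false .up 0 2 3
    ndB0q0 ndB2q2b pcB3 Cut.none Ext.none :=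
  certB0 (fam := true) (s1 := false) (s2 := false) (a := 0) (b := 2) (c := 3) (cn := .up) (n1 := ndB0q0) (n2 := ndB2q2b) (pc := pcB3) (cut := Cut.none) (xt := Ext.none) (P1 := 0) (W1 := 536870912) (P2 := 1239849684) (W2 := 370763052) (P3 := 740881858) (W3 := 40050571) (N0 := 3) (En := eng) (mo := mog) (C1 := cd0q0) (C2 := cd2q2b) (C3 := pd3)
    rfl k0_mm_023_b

noncomputable def f_mm_033 : ℕ → ℕ → ℕ → ℕ → Bool := onCell 0 536870912 1610612736 536870912 740881858 40050571
    (rowB 3 eng mog cd0q0 cd2q3 pd3 0 true false false .pnn 0 3 3 (qsf 0 536870912 1610612736 536870912 3) ndB0q0 ndB2q3 pcB3 Cut.none Ext.none)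

def k0_mm_033 : ∃ t, chk3 f_mm_033 t 1 1 1 = true :=
  ⟨(l 5), by decide +kernel⟩

theorem c_mm_033 : CertB 0 536870912 1610612736 536870912 740881858 40050571 3 eng mog cd0q0 cd2q3 pd3 true false false .pnn 0 3 3
    ndB0q0 ndB2q3 pcB3 Cut.none Ext.none :=
  certB0 (fam := true) (s1 := false) (s2 := false) (a := 0) (b := 3) (c := 3) (cn := .pnn) (n1 := ndB0q0) (n2 := ndB2q3) (pc := pcB3) (cut := Cut.none) (xt := Ext.none) (P1 := 0) (W1 := 536870912) (P2 := 1610612736) (W2 := 536870912) (P3 := 740881858) (W3 := 40050571) (N0 := 3) (En := eng) (mo := mog) (C1 := cd0q0) (C2 := cd2q3) (C3 := pd3)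
    rfl k0_mm_033

noncomputable def cut_mm_101 : Cut := Cut.of [[⟨0, 1, 0, 67108864⟩, ⟨1, 0, 0, 67108864⟩, ⟨2, 1, 0, 67108864⟩]]

noncomputable def f_mm_101 : ℕ → ℕ → ℕ → ℕ → Bool := onCell 536870912 536870912 0 536870912 740881858 40050571
    (rowB 3 eng mog cd0q1 cd2q0 pd1 0 true false false .npn 1 0 1 (qsf 536870912 536870912 0 536870912 1) ndB0q1 ndB2q0 pcB1 cut_mm_101 Ext.none)

def k0_mm_101 : ∃ t, chk3 f_mm_101 t 1 1 1 = true :=
  ⟨(a (l 4) (b (a (l 4) (b (a (l 4) (b (a (l 4) (b (l 6) (l 4))) (l 4))) (l 4))) (l 4))), by decide +kernel⟩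

theorem c_mm_101 : CertB 536870912 536870912 0 536870912 740881858 40050571 3 eng mog cd0q1 cd2q0 pd1 true false false .npn 1 0 1
    ndB0q1 ndB2q0 pcB1 cut_mm_101 Ext.none :=
  certB0 (fam := true) (s1 := false) (s2 := false) (a := 1) (b := 0) (c := 1) (cn := .npn) (n1 := ndB0q1) (n2 := ndB2q0) (pc := pcB1) (cut := cut_mm_101) (xt := Ext.none) (P1 := 536870912) (W1 := 536870912) (P2 := 0) (W2 := 536870912) (P3 := 740881858) (W3 := 40050571) (N0 := 3) (En := eng) (mo := mog) (C1 := cd0q1) (C2 := cd2q0) (C3 := pd1)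
    rfl k0_mm_101

noncomputable def cut_mm_102 : Cut := Cut.of [[⟨0, 1, 0, 67108864⟩, ⟨1, 0, 0, 67108864⟩, ⟨2, 1, 0, 67108864⟩]]

noncomputable def f_mm_102 : ℕ → ℕ → ℕ → ℕ → Bool := onCell 536870912 536870912 0 536870912 740881858 40050571
    (rowB 3 eng mog cd0q1 cd2q0 pd2 0 true false false .npp 1 0 2 (qsf 536870912 536870912 0 536870912 2) ndB0q1 ndB2q0 pcB2 cut_mm_102 Ext.none)

def k0_mm_102 : ∃ t, chk3 f_mm_102 t 1 1 1 = true :=
  ⟨(a (l 4) (b (a (l 4) (b (a (l 4) (a (l 4) (b (b (l 6) (l 4)) (l 4)))) (l 4))) (l 4))), by decide +kernel⟩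

theorem c_mm_102 : CertB 536870912 536870912 0 536870912 740881858 40050571 3 eng mog cd0q1 cd2q0 pd2 true false false .npp 1 0 2
    ndB0q1 ndB2q0 pcB2 cut_mm_102 Ext.none :=
  certB0 (fam := true) (s1 := false) (s2 := false) (a := 1) (b := 0) (c := 2) (cn := .npp) (n1 := ndB0q1) (n2 := ndB2q0) (pc := pcB2) (cut := cut_mm_102) (xt := Ext.none) (P1 := 536870912) (W1 := 536870912) (P2 := 0) (W2 := 536870912) (P3 := 740881858) (W3 := 40050571) (N0 := 3) (En := eng) (mo := mog) (C1 := cd0q1) (C2 := cd2q0) (C3 := pd2)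
    rfl k0_mm_102

noncomputable def f_mm_112 : ℕ → ℕ → ℕ → ℕ → Bool := onCell 536870912 536870912 536870912 536870912 740881858 40050571
    (rowB 3 eng mog cd0q1 cd2q1 pd2 0 true false false .dn 1 1 2 (qsf 536870912 536870912 536870912 536870912 2) ndB0q1 ndB2q1 pcB2 Cut.none Ext.none)

def k0_mm_112 : ∃ t, chk3 f_mm_112 t 1 1 1 = true :=
  ⟨(l 4), by decide +kernel⟩

theorem c_mm_112 : CertB 536870912 536870912 536870912 536870912 740881858 40050571 3 eng mog cd0q1 cd2q1 pd2 true false false .dn 1 1 2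
    ndB0q1 ndB2q1 pcB2 Cut.none Ext.none :=
  certB0 (fam := true) (s1 := false) (s2 := false) (a := 1) (b := 1) (c := 2) (cn := .dn) (n1 := ndB0q1) (n2 := ndB2q1) (pc := pcB2) (cut := Cut.none) (xt := Ext.none) (P1 := 536870912) (W1 := 536870912) (P2 := 536870912) (W2 := 536870912) (P3 := 740881858) (W3 := 40050571) (N0 := 3) (En := eng) (mo := mog) (C1 := cd0q1) (C2 := cd2q1) (C3 := pd2)
    rfl k0_mm_112

noncomputable def f_mm_113 : ℕ → ℕ → ℕ → ℕ → Bool := onCell 536870912 536870912 536870912 536870912 740881858 40050571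
    (rowB 3 eng mog cd0q1 cd2q1 pd3 0 true false false .nn 1 1 3 (qsf 536870912 536870912 536870912 536870912 3) ndB0q1 ndB2q1 pcB3 Cut.none Ext.none)

def k0_mm_113 : ∃ t, chk3 f_mm_113 t 1 1 1 = true :=
  ⟨(l 4), by decide +kernel⟩

theorem c_mm_113 : CertB 536870912 536870912 536870912 536870912 740881858 40050571 3 eng mog cd0q1 cd2q1 pd3 true false false .nn 1 1 3
    ndB0q1 ndB2q1 pcB3 Cut.none Ext.none :=
  certB0 (fam := true) (s1 := false) (s2 := false) (a := 1) (b := 1) (c := 3) (cn := .nn) (n1 := ndB0q1) (n2 := ndB2q1) (pc := pcB3) (cut := Cut.none) (xt := Ext.none) (P1 := 536870912) (W1 := 536870912) (P2 := 536870912) (W2 := 536870912) (P3 := 740881858) (W3 := 40050571) (N0 := 3) (En := eng) (mo := mog) (C1 := cd0q1) (C2 := cd2q1) (C3 := pd3)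
    rfl k0_mm_113

noncomputable def f_mm_123_a : ℕ → ℕ → ℕ → ℕ → Bool := onCell 536870912 536870912 0 536870912 740881858 40050571
    (rowB 3 eng mog cd0q1 cd2q2a pd3 0 true false false .npn 1 2 3 (qsf 536870912 536870912 0 536870912 3) ndB0q1 ndB2q2a pcB3 Cut.none Ext.none)

def k0_mm_123_a : ∃ t, chk3 f_mm_123_a t 1 1 1 = true :=
  ⟨(l 4), by decide +kernel⟩

theorem c_mm_123_a : CertB 536870912 536870912 0 536870912 740881858 40050571 3 eng mog cd0q1 cd2q2a pd3 true false false .npn 1 2 3
    ndB0q1 ndB2q2a pcB3 Cut.none Ext.none :=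
  certB0 (fam := true) (s1 := false) (s2 := false) (a := 1) (b := 2) (c := 3) (cn := .npn) (n1 := ndB0q1) (n2 := ndB2q2a) (pc := pcB3) (cut := Cut.none) (xt := Ext.none) (P1 := 536870912) (W1 := 536870912) (P2 := 0) (W2 := 536870912) (P3 := 740881858) (W3 := 40050571) (N0 := 3) (En := eng) (mo := mog) (C1 := cd0q1) (C2 := cd2q2a) (C3 := pd3)
    rfl k0_mm_123_a

noncomputable def f_mm_123_b : ℕ → ℕ → ℕ → ℕ → Bool := onCell 536870912 536870912 1239849684 370763052 740881858 40050571
    (rowB 3 eng mog cd0q1 cd2q2b pd3 0 true false false .npn 1 2 3 (qsf 536870912 536870912 1239849684 370763052 3) ndB0q1 ndB2q2b pcB3 Cut.none Ext.none)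

def k0_mm_123_b : ∃ t, chk3 f_mm_123_b t 1 1 1 = true :=
  ⟨(l 4), by decide +kernel⟩

theorem c_mm_123_b : CertB 536870912 536870912 1239849684 370763052 740881858 40050571 3 eng mog cd0q1 cd2q2b pd3 true false false .npn 1 2 3
    ndB0q1 ndB2q2b pcB3 Cut.none Ext.none :=
  certB0 (fam := true) (s1 := false) (s2 := false) (a := 1) (b := 2) (c := 3) (cn := .npn) (n1 := ndB0q1) (n2 := ndB2q2b) (pc := pcB3) (cut := Cut.none) (xt := Ext.none) (P1 := 536870912) (W1 := 536870912) (P2 := 1239849684) (W2 := 370763052) (P3 := 740881858) (W3 := 40050571) (N0 := 3) (En := eng) (mo := mog) (C1 := cd0q1) (C2 := cd2q2b) (C3 := pd3)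
    rfl k0_mm_123_b

noncomputable def f_mm_133 : ℕ → ℕ → ℕ → ℕ → Bool := onCell 536870912 536870912 1610612736 536870912 740881858 40050571
    (rowB 3 eng mog cd0q1 cd2q3 pd3 0 true false false .dn 1 3 3 (qsf 536870912 536870912 1610612736 536870912 3) ndB0q1 ndB2q3 pcB3 Cut.none Ext.none)

def k0_mm_133 : ∃ t, chk3 f_mm_133 t 1 1 1 = true :=
  ⟨(l 4), by decide +kernel⟩

theorem c_mm_133 : CertB 536870912 536870912 1610612736 536870912 740881858 40050571 3 eng mog cd0q1 cd2q3 pd3 true false false .dn 1 3 3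
    ndB0q1 ndB2q3 pcB3 Cut.none Ext.none :=
  certB0 (fam := true) (s1 := false) (s2 := false) (a := 1) (b := 3) (c := 3) (cn := .dn) (n1 := ndB0q1) (n2 := ndB2q3) (pc := pcB3) (cut := Cut.none) (xt := Ext.none) (P1 := 536870912) (W1 := 536870912) (P2 := 1610612736) (W2 := 536870912) (P3 := 740881858) (W3 := 40050571) (N0 := 3) (En := eng) (mo := mog) (C1 := cd0q1) (C2 := cd2q3) (C3 := pd3)
    rfl k0_mm_133

noncomputable def cut_mm_202 : Cut := Cut.of [[⟨0, 1, 0, 67108864⟩, ⟨1, 0, 0, 67108864⟩, ⟨2, 1, 0, 67108864⟩]]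

noncomputable def f_mm_202 : ℕ → ℕ → ℕ → ℕ → Bool := onCell 0 536870912 0 536870912 740881858 40050571
    (rowB 3 eng mog cd0q2 cd2q0 pd2 0 true false false .pp 2 0 2 (qsf 0 536870912 0 536870912 2) ndB0q2 ndB2q0 pcB2 cut_mm_202 Ext.none)

def k0_mm_202 : ∃ t, chk3 f_mm_202 t 2 2 1 = true :=
  ⟨(b (a (b (c (b (a (a (b (l 16449512) (l 16456536)) (b (a (a (l 16339376) (l 16401984)) (l 16444464)) (l 16456136))) (b (b (a (l 16445696) (l 16455392)) (l 16507032)) (l 16464128))) (a (b (l 16467192) (l 16476856)) (l 16481944))) (b (b (a (a (l 16433136) (l 16443176)) (a (l 16452336) (l 16461464))) (a (l 16446976) (l 16467232))) (a (l 16461096) (l 16482408)))) (a (a (l 16602032) (l 16631048)) (b (l 16509216) (l 16528904)))) (b (a (b (b (b (a (l 16478928) (a (l 16485576) (l 16491000))) (a (l 16478256) (a (l 16487240) (l 16495136)))) (a (l 16485128) (b (l 16492256) (l 16497192)))) (b (l 16500784) (l 16511480))) (b (b (b (a (a (l 16497312) (l 16410296)) (a (a (l 16447928) (l 16431408)) (b (a (l 16474368) (l 16457864))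 (l 16483688)))) (a (l 16420184) (a (l 16521008) (l 16509488)))) (a (b (c (l 16498328) (l 16515448)) (l 16571240)) (a (b (l 16519096) (l 16518584)) (b (l 16528656) (l 16527736))))) (b (a (l 16516176) (b (c (l 16519896) (l 16532664)) (l 16530800))) (a (l 16527176) (l 16539056))))) (a (b (l 16528040) (l 16550584)) (b (a (l 16544560) (l 16556584)) (a (l 16569064) (l 16581360)))))) (a (a (b (l 16561720) (l 16580344)) (b (l 16663008) (b (l 16590192) (l 16614232)))) (b (a (b (l 16572600) (l 16594904)) (b (l 16600080) (l 16668024))) (a (b (l 16618704) (l 16646536)) (b (l 16696752) (l 4)))))), by decide +kernel⟩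

def k1_mm_202 : ∃ t, chk3 f_mm_202 t 12 16 1 = true :=
  ⟨(b (b (a (a (c (l 16536832) (a (l 16478576) (l 16462344))) (c (b (l 16542648) (l 16549256)) (b (a (l 16526248) (l 16530944)) (l 16494096)))) (c (b (a (a (l 16548528) (l 16531656)) (a (l 16515024) (c (l 16563904) (l 16559080)))) (a (l 16557712) (l 16545520))) (b (a (a (l 16556624) (l 16561480)) (a (c (l 16548640) (l 16542384)) (c (l 16553744) (l 16547888)))) (a (c (l 16548896) (l 16542168)) (a (l 16553160) (l 16558512)))))) (a (a (a (l 16538488) (l 16544344)) (b (l 16508328) (l 16553392))) (a (c (l 16562320) (l 16504176)) (c (l 16577032) (b (l 16563296) (l 16570592)))))) (c (a (b (l 16540056) (l 16539752)) (a (l 16561112) (l 16576360))) (a (b (l 16552632) (l 16551352)) (a (l 16571008) (l 16532400))))), by decide +kernel⟩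

def k2_mm_202 : ∃ t, chk3 f_mm_202 t 13 16 1 = true :=
  ⟨(b (a (b (a (c (b (a (c (l 16568608) (l 16564080)) (b (l 16569632) (l 16573376))) (a (l 16573728) (l 16578896))) (b (a (c (l 16559080) (l 16553616)) (b (c (l 16562720) (l 16557600)) (l 16564120))) (a (l 16564088) (l 16569904)))) (c (b (a (b (l 16575016) (l 16578784)) (b (l 16591080) (l 16584392))) (c (l 16568016) (l 16585312))) (b (a (b (c (l 16568560) (l 16563792)) (l 16570152)) (b (c (l 16574568) (l 16570152)) (l 16576360))) (a (l 16575984) (l 16582232))))) (c (a (l 16587032) (b (l 16594504) (l 16601640))) (a (b (l 16532608) (l 16581952)) (c (l 16592584) (l 16546496))))) (b (b (a (a (c (c (l 16589848) (l 16586360)) (b (c (l 16580592) (b (l 16575472) (l 16577488))) (l 16582560))) (b (c (c (l 16593512) (l 16590192)) (c (l 16586616) (b (l 16581776) (l 16583816)))) (c (l 16595752) (l 16588760)))) (a (b (c (c (l 16599176) (l 16596048)) (c (l 16592696) (b (l 16588104) (l 16590160)))) (c (l 16601544) (l 16595008))) (c (b (c (l 16604976) (l 16602016))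 (l 16607472)) (b (c (l 16598880) (a (l 16593928) (l 16597160))) (l 16601336))))) (a (c (a (l 16595720) (l 16601480)) (a (l 16588480) (l 16594728))) (c (a (l 16607336) (l 16613320)) (a (l 16601024) (l 16607416))))) (a (a (c (l 16606776) (l 16558104)) (c (l 16612648) (l 16564456))) (c (b (l 16576000) (l 16625368)) (a (l 16570864) (l 16577368)))))) (b (a (a (c (l 16592088) (l 16592808)) (c (l 16607992) (l 16605272))) (a (c (l 16623944) (l 16618208)) (c (l 16636200) (l 16631312)))) (a (a (l 16595168) (l 16610608)) (a (l 16627016) (l 16644680))))), by decide +kernel⟩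

def k3_mm_202 : ∃ t, chk3 f_mm_202 t 6 17 1 = true :=
  ⟨(a (b (a (b (a (l 16539152) (l 16551616)) (a (l 16542456) (l 16553312))) (b (c (l 16569320) (l 16577056)) (a (l 16566648) (l 16581352)))) (a (l 16565872) (b (a (l 16569664) (l 16583352)) (a (l 16574728) (l 16524392))))) (b (a (a (c (l 16593432) (l 16598656)) (c (l 16609512) (l 16613568))) (a (c (l 16626472) (l 16629536)) (b (l 16645216) (l 16646376)))) (a (a (c (l 16598328) (l 16601536)) (l 16614984)) (a (l 16631480) (l 16649400))))), by decide +kernel⟩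

def k4_mm_202 : ∃ t, chk3 f_mm_202 t 6 9 1 = true :=
  ⟨(a (b (a (b (l 16566584) (l 16557792)) (b (l 16505048) (l 16579464))) (a (l 16598040) (l 16651920))) (b (b (b (a (a (l 16584808) (l 16557224)) (l 16673904)) (a (l 16617896) (b (l 16669128) (l 16671704)))) (a (l 16563152) (a (l 16649312) (b (l 49089710631) (l 4))))) (a (b (l 16534768) (l 16594312)) (l 4)))), by decide +kernel⟩

def k5_mm_202 : ∃ t, chk3 f_mm_202 t 7 8 1 = true :=
  ⟨(a (b (b (a (b (b (a (c (a (b (c (l 16610960) (l 16608160)) (l 16613576)) (b (c (l 16617184) (l 16614536)) (l 16619920))) (a (b (c (l 16605208) (a (l 16600440) (l 16603752))) (l 16607816)) (b (c (l 16617000) (a (l 16607112) (l 16610584))) (l 16619744)))) (a (b (c (c (l 16624016) (l 16621520)) (c (a (l 16617024) (l 16620824)) (a (l 16614264) (l 16618168)))) (c (l 16626856) (c (l 16623096) (l 16620448)))) (b (l 6) (c (l 16634648) (c (l 16631160) (l 16628720)))))) (a (a (c (l 16619488) (l 16613952)) (c (l 16625896) (l 16620696))) (a (c (l 16632896) (l 16628048)) (c (l 16640736)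 (l 16646744))))) (a (a (c (l 16610048) (l 16584024)) (c (l 16616576) (l 16590888))) (c (a (l 16602728) (l 16610664)) (b (a (l 16636248) (l 16644520)) (l 16648400))))) (b (a (a (b (l 6) (b (l 6) (l 16670400))) (l 6)) (l 6)) (a (b (a (c (l 16657384) (l 16653616)) (c (l 16666840) (l 16663480))) (a (l 16642568) (l 16652264))) (b (l 6) (a (l 16652192) (l 6)))))) (a (a (b (c (l 16649088) (l 16644904)) (l 16661640)) (b (c (l 16663728) (l 16660224)) (l 16676880))) (b (a (b (l 16676192) (l 16683872)) (b (a (l 16691552) (l 6)) (l 16704888))) (a (l 16695096) (c (l 16712728) (l 16713608)))))) (b (a (b (a (l 16663960) (l 16682384)) (a (l 16665264) (l 16683800))) (a (b (l 16699040) (l 16700776)) (b (l 16714616) (l 16719288)))) (a (a (l 16668312) (l 16719576)) (b (a (l 16705136) (l 4)) (l 4))))) (b (a (b (l 6) (b (l 6) (a (a (l 16723824) (l 16732000)) (l 6)))) (l 6)) (a (b (b (a (a (l 16727720) (l 4)) (l 4)) (l 4)) (l 4)) (l 4)))), by decide +kernel⟩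

def k6_mm_202 : ∃ t, chk3 f_mm_202 t 7 9 1 = true :=
  ⟨(a (b (a (b (a (l 16677216) (l 16700280)) (l 4)) (l 4)) (l 4)) (l 4)), by decide +kernel⟩

def k7_mm_202 : ∃ t, chk3 f_mm_202 t 3 5 1 = true :=
  ⟨(a (b (a (b (a (l 16626808) (l 16654376)) (l 4)) (l 4)) (l 4)) (l 4)), by decide +kernel⟩

def k8_mm_202 : ∃ t, chk3 f_mm_202 t 1 3 1 = true :=
  ⟨(a (b (b (a (b (a (l 16615000) (l 16702688)) (a (l 16637376) (l 16664896))) (a (l 4) (l 4))) (a (a (b (l 16658608) (l 16679224)) (l 4)) (l 4))) (l 4)) (l 4)), by decide +kernel⟩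

theorem s9_mm_202 : ∃ t, chk3 f_mm_202 t 7 4 1 = true := ex3_b k5_mm_202 k6_mm_202

theorem s10_mm_202 : ∃ t, chk3 f_mm_202 t 6 16 1 = true := ex3_a k1_mm_202 k2_mm_202

theorem s11_mm_202 : ∃ t, chk3 f_mm_202 t 6 8 1 = true := ex3_b s10_mm_202 k3_mm_202

theorem s12_mm_202 : ∃ t, chk3 f_mm_202 t 6 4 1 = true := ex3_b s11_mm_202 k4_mm_202

theorem s13_mm_202 : ∃ t, chk3 f_mm_202 t 3 4 1 = true := ex3_a s12_mm_202 s9_mm_202

theorem s14_mm_202 : ∃ t, chk3 f_mm_202 t 3 2 1 = true := ex3_b s13_mm_202 k7_mm_202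

theorem s15_mm_202 : ∃ t, chk3 f_mm_202 t 1 2 1 = true := ex3_a k0_mm_202 s14_mm_202

theorem s16_mm_202 : ∃ t, chk3 f_mm_202 t 1 1 1 = true := ex3_b s15_mm_202 k8_mm_202

theorem c_mm_202 : CertB 0 536870912 0 536870912 740881858 40050571 3 eng mog cd0q2 cd2q0 pd2 true false false .pp 2 0 2
    ndB0q2 ndB2q0 pcB2 cut_mm_202 Ext.none :=
  certB0 (fam := true) (s1 := false) (s2 := false) (a := 2) (b := 0) (c := 2) (cn := .pp) (n1 := ndB0q2) (n2 := ndB2q0) (pc := pcB2) (cut := cut_mm_202) (xt := Ext.none) (P1 := 0) (W1 := 536870912) (P2 := 0) (W2 := 536870912) (P3 := 740881858) (W3 := 40050571) (N0 := 3) (En := eng) (mo := mog) (C1 := cd0q2) (C2 := cd2q0) (C3 := pd2)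
    rfl s16_mm_202

noncomputable def f_mm_203 : ℕ → ℕ → ℕ → ℕ → Bool := onCell 0 536870912 0 536870912 740881858 40050571
    (rowB 3 eng mog cd0q2 cd2q0 pd3 0 true false false .up 2 0 3 (qsf 0 536870912 0 536870912 3) ndB0q2 ndB2q0 pcB3 Cut.none Ext.none)

def k0_mm_203 : ∃ t, chk3 f_mm_203 t 1 1 1 = true :=
  ⟨(b (l 1) (a (b (b (l 1) (a (b (l 214781900855) (l 16798384)) (l 4))) (l 4)) (l 4))), by decide +kernel⟩

theorem c_mm_203 : CertB 0 536870912 0 536870912 740881858 40050571 3 eng mog cd0q2 cd2q0 pd3 true false false .up 2 0 3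
    ndB0q2 ndB2q0 pcB3 Cut.none Ext.none :=
  certB0 (fam := true) (s1 := false) (s2 := false) (a := 2) (b := 0) (c := 3) (cn := .up) (n1 := ndB0q2) (n2 := ndB2q0) (pc := pcB3) (cut := Cut.none) (xt := Ext.none) (P1 := 0) (W1 := 536870912) (P2 := 0) (W2 := 536870912) (P3 := 740881858) (W3 := 40050571) (N0 := 3) (En := eng) (mo := mog) (C1 := cd0q2) (C2 := cd2q0) (C3 := pd3)
    rfl k0_mm_203

noncomputable def f_mm_213 : ℕ → ℕ → ℕ → ℕ → Bool := onCell 0 536870912 536870912 536870912 740881858 40050571
    (rowB 3 eng mog cd0q2 cd2q1 pd3 0 true false false .pnn 2 1 3 (qsf 0 536870912 536870912 536870912 3) ndB0q2 ndB2q1 pcB3 Cut.none Ext.none)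

def k0_mm_213 : ∃ t, chk3 f_mm_213 t 1 1 1 = true :=
  ⟨(l 4), by decide +kernel⟩

theorem c_mm_213 : CertB 0 536870912 536870912 536870912 740881858 40050571 3 eng mog cd0q2 cd2q1 pd3 true false false .pnn 2 1 3
    ndB0q2 ndB2q1 pcB3 Cut.none Ext.none :=
  certB0 (fam := true) (s1 := false) (s2 := false) (a := 2) (b := 1) (c := 3) (cn := .pnn) (n1 := ndB0q2) (n2 := ndB2q1) (pc := pcB3) (cut := Cut.none) (xt := Ext.none) (P1 := 0) (W1 := 536870912) (P2 := 536870912) (W2 := 536870912) (P3 := 740881858) (W3 := 40050571) (N0 := 3) (En := eng) (mo := mog) (C1 := cd0q2) (C2 := cd2q1) (C3 := pd3)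
    rfl k0_mm_213

end Pool.Agent.Strip051.G.I69_7273.Tab.C.BA02

namespace Pool.Agent.Strip051.G.I69_7273.Tab.C.BA03

open Pool.Agent.Strip051.PB Pool.Agent.Strip051.PB.T
open Pool.Agent.Strip051.G.I69_7273.Tab

noncomputable def f_pp_001 : ℕ → ℕ → ℕ → ℕ → Bool := onCell 0 536870912 0 536870912 740881858 40050571
    (rowB 3 eng mog cd0q0 cd3q0 pd1 0 true true true .up 0 0 1 (qsf 0 536870912 0 536870912 1) ndB0q0 ndB3q0 pcB1 Cut.none Ext.none)

def k0_pp_001 : ∃ t, chk3 f_pp_001 t 1 1 1 = true :=
  ⟨(l 4), by decide +kernel⟩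

theorem c_pp_001 : CertB 0 536870912 0 536870912 740881858 40050571 3 eng mog cd0q0 cd3q0 pd1 true true true .up 0 0 1
    ndB0q0 ndB3q0 pcB1 Cut.none Ext.none :=
  certB0 (fam := true) (s1 := true) (s2 := true) (a := 0) (b := 0) (c := 1) (cn := .up) (n1 := ndB0q0) (n2 := ndB3q0) (pc := pcB1) (cut := Cut.none) (xt := Ext.none) (P1 := 0) (W1 := 536870912) (P2 := 0) (W2 := 536870912) (P3 := 740881858) (W3 := 40050571) (N0 := 3) (En := eng) (mo := mog) (C1 := cd0q0) (C2 := cd3q0) (C3 := pd1)
    rfl k0_pp_001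

noncomputable def f_pp_011 : ℕ → ℕ → ℕ → ℕ → Bool := onCell 0 536870912 536870912 536870912 740881858 40050571
    (rowB 3 eng mog cd0q0 cd3q1 pd1 0 true true true .pnn 0 1 1 (qsf 0 536870912 536870912 536870912 1) ndB0q0 ndB3q1 pcB1 Cut.none Ext.none)

def k0_pp_011 : ∃ t, chk3 f_pp_011 t 1 1 1 = true :=
  ⟨(l 4), by decide +kernel⟩

theorem c_pp_011 : CertB 0 536870912 536870912 536870912 740881858 40050571 3 eng mog cd0q0 cd3q1 pd1 true true true .pnn 0 1 1
    ndB0q0 ndB3q1 pcB1 Cut.none Ext.none :=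
  certB0 (fam := true) (s1 := true) (s2 := true) (a := 0) (b := 1) (c := 1) (cn := .pnn) (n1 := ndB0q0) (n2 := ndB3q1) (pc := pcB1) (cut := Cut.none) (xt := Ext.none) (P1 := 0) (W1 := 536870912) (P2 := 536870912) (W2 := 536870912) (P3 := 740881858) (W3 := 40050571) (N0 := 3) (En := eng) (mo := mog) (C1 := cd0q0) (C2 := cd3q1) (C3 := pd1)
    rfl k0_pp_011

noncomputable def f_pp_012 : ℕ → ℕ → ℕ → ℕ → Bool := onCell 0 536870912 536870912 536870912 740881858 40050571
    (rowB 3 eng mog cd0q0 cd3q1 pd2 0 true true true .pnp 0 1 2 (qsf 0 536870912 536870912 536870912 2) ndB0q0 ndB3q1 pcB2 Cut.none Ext.none)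

def k0_pp_012 : ∃ t, chk3 f_pp_012 t 1 1 1 = true :=
  ⟨(l 4), by decide +kernel⟩

theorem c_pp_012 : CertB 0 536870912 536870912 536870912 740881858 40050571 3 eng mog cd0q0 cd3q1 pd2 true true true .pnp 0 1 2
    ndB0q0 ndB3q1 pcB2 Cut.none Ext.none :=
  certB0 (fam := true) (s1 := true) (s2 := true) (a := 0) (b := 1) (c := 2) (cn := .pnp) (n1 := ndB0q0) (n2 := ndB3q1) (pc := pcB2) (cut := Cut.none) (xt := Ext.none) (P1 := 0) (W1 := 536870912) (P2 := 536870912) (W2 := 536870912) (P3 := 740881858) (W3 := 40050571) (N0 := 3) (En := eng) (mo := mog) (C1 := cd0q0) (C2 := cd3q1) (C3 := pd2)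
    rfl k0_pp_012

noncomputable def f_pp_022 : ℕ → ℕ → ℕ → ℕ → Bool := onCell 0 536870912 1073741824 536870912 740881858 40050571
    (rowB 3 eng mog cd0q0 cd3q2 pd2 0 true true true .pp 0 2 2 (qsf 0 536870912 1073741824 536870912 2) ndB0q0 ndB3q2 pcB2 Cut.none Ext.none)

def k0_pp_022 : ∃ t, chk3 f_pp_022 t 1 1 1 = true :=
  ⟨(l 4), by decide +kernel⟩

theorem c_pp_022 : CertB 0 536870912 1073741824 536870912 740881858 40050571 3 eng mog cd0q0 cd3q2 pd2 true true true .pp 0 2 2
    ndB0q0 ndB3q2 pcB2 Cut.none Ext.none :=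
  certB0 (fam := true) (s1 := true) (s2 := true) (a := 0) (b := 2) (c := 2) (cn := .pp) (n1 := ndB0q0) (n2 := ndB3q2) (pc := pcB2) (cut := Cut.none) (xt := Ext.none) (P1 := 0) (W1 := 536870912) (P2 := 1073741824) (W2 := 536870912) (P3 := 740881858) (W3 := 40050571) (N0 := 3) (En := eng) (mo := mog) (C1 := cd0q0) (C2 := cd3q2) (C3 := pd2)
    rfl k0_pp_022

noncomputable def f_pp_023 : ℕ → ℕ → ℕ → ℕ → Bool := onCell 0 536870912 1073741824 536870912 740881858 40050571
    (rowB 3 eng mog cd0q0 cd3q2 pd3 0 true true true .up 0 2 3 (qsf 0 536870912 1073741824 536870912 3) ndB0q0 ndB3q2 pcB3 Cut.none Ext.none)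

def k0_pp_023 : ∃ t, chk3 f_pp_023 t 1 1 1 = true :=
  ⟨(l 4), by decide +kernel⟩

theorem c_pp_023 : CertB 0 536870912 1073741824 536870912 740881858 40050571 3 eng mog cd0q0 cd3q2 pd3 true true true .up 0 2 3
    ndB0q0 ndB3q2 pcB3 Cut.none Ext.none :=
  certB0 (fam := true) (s1 := true) (s2 := true) (a := 0) (b := 2) (c := 3) (cn := .up) (n1 := ndB0q0) (n2 := ndB3q2) (pc := pcB3) (cut := Cut.none) (xt := Ext.none) (P1 := 0) (W1 := 536870912) (P2 := 1073741824) (W2 := 536870912) (P3 := 740881858) (W3 := 40050571) (N0 := 3) (En := eng) (mo := mog) (C1 := cd0q0) (C2 := cd3q2) (C3 := pd3)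
    rfl k0_pp_023

noncomputable def f_pp_033 : ℕ → ℕ → ℕ → ℕ → Bool := onCell 0 536870912 0 1230186008 740881858 40050571
    (rowB 3 eng mog cd0q0 cd3q3 pd3 0 true true true .pnn 0 3 3 (qsf 0 536870912 0 1230186008 3) ndB0q0 ndB3q3 pcB3 Cut.none Ext.none)

def k0_pp_033 : ∃ t, chk3 f_pp_033 t 1 1 1 = true :=
  ⟨(b (l 4) (l 4)), by decide +kernel⟩

theorem c_pp_033 : CertB 0 536870912 0 1230186008 740881858 40050571 3 eng mog cd0q0 cd3q3 pd3 true true true .pnn 0 3 3
    ndB0q0 ndB3q3 pcB3 Cut.none Ext.none :=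
  certB0 (fam := true) (s1 := true) (s2 := true) (a := 0) (b := 3) (c := 3) (cn := .pnn) (n1 := ndB0q0) (n2 := ndB3q3) (pc := pcB3) (cut := Cut.none) (xt := Ext.none) (P1 := 0) (W1 := 536870912) (P2 := 0) (W2 := 1230186008) (P3 := 740881858) (W3 := 40050571) (N0 := 3) (En := eng) (mo := mog) (C1 := cd0q0) (C2 := cd3q3) (C3 := pd3)
    rfl k0_pp_033

noncomputable def f_pp_101 : ℕ → ℕ → ℕ → ℕ → Bool := onCell 536870912 536870912 0 536870912 740881858 40050571
    (rowB 3 eng mog cd0q1 cd3q0 pd1 0 true true true .npn 1 0 1 (qsf 536870912 536870912 0 536870912 1) ndB0q1 ndB3q0 pcB1 Cut.none Ext.none)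

def k0_pp_101 : ∃ t, chk3 f_pp_101 t 1 1 1 = true :=
  ⟨(l 4), by decide +kernel⟩

theorem c_pp_101 : CertB 536870912 536870912 0 536870912 740881858 40050571 3 eng mog cd0q1 cd3q0 pd1 true true true .npn 1 0 1
    ndB0q1 ndB3q0 pcB1 Cut.none Ext.none :=
  certB0 (fam := true) (s1 := true) (s2 := true) (a := 1) (b := 0) (c := 1) (cn := .npn) (n1 := ndB0q1) (n2 := ndB3q0) (pc := pcB1) (cut := Cut.none) (xt := Ext.none) (P1 := 536870912) (W1 := 536870912) (P2 := 0) (W2 := 536870912) (P3 := 740881858) (W3 := 40050571) (N0 := 3) (En := eng) (mo := mog) (C1 := cd0q1) (C2 := cd3q0) (C3 := pd1)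
    rfl k0_pp_101

noncomputable def f_pp_102 : ℕ → ℕ → ℕ → ℕ → Bool := onCell 536870912 536870912 0 536870912 740881858 40050571
    (rowB 3 eng mog cd0q1 cd3q0 pd2 0 true true true .npp 1 0 2 (qsf 536870912 536870912 0 536870912 2) ndB0q1 ndB3q0 pcB2 Cut.none Ext.none)

def k0_pp_102 : ∃ t, chk3 f_pp_102 t 1 1 1 = true :=
  ⟨(l 4), by decide +kernel⟩

theorem c_pp_102 : CertB 536870912 536870912 0 536870912 740881858 40050571 3 eng mog cd0q1 cd3q0 pd2 true true true .npp 1 0 2
    ndB0q1 ndB3q0 pcB2 Cut.none Ext.none :=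
  certB0 (fam := true) (s1 := true) (s2 := true) (a := 1) (b := 0) (c := 2) (cn := .npp) (n1 := ndB0q1) (n2 := ndB3q0) (pc := pcB2) (cut := Cut.none) (xt := Ext.none) (P1 := 536870912) (W1 := 536870912) (P2 := 0) (W2 := 536870912) (P3 := 740881858) (W3 := 40050571) (N0 := 3) (En := eng) (mo := mog) (C1 := cd0q1) (C2 := cd3q0) (C3 := pd2)
    rfl k0_pp_102

noncomputable def f_pp_112 : ℕ → ℕ → ℕ → ℕ → Bool := onCell 536870912 536870912 536870912 536870912 740881858 40050571
    (rowB 3 eng mog cd0q1 cd3q1 pd2 0 true true true .dn 1 1 2 (qsf 536870912 536870912 536870912 536870912 2) ndB0q1 ndB3q1 pcB2 Cut.none Ext.none)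

def k0_pp_112 : ∃ t, chk3 f_pp_112 t 1 1 1 = true :=
  ⟨(l 4), by decide +kernel⟩

theorem c_pp_112 : CertB 536870912 536870912 536870912 536870912 740881858 40050571 3 eng mog cd0q1 cd3q1 pd2 true true true .dn 1 1 2
    ndB0q1 ndB3q1 pcB2 Cut.none Ext.none :=
  certB0 (fam := true) (s1 := true) (s2 := true) (a := 1) (b := 1) (c := 2) (cn := .dn) (n1 := ndB0q1) (n2 := ndB3q1) (pc := pcB2) (cut := Cut.none) (xt := Ext.none) (P1 := 536870912) (W1 := 536870912) (P2 := 536870912) (W2 := 536870912) (P3 := 740881858) (W3 := 40050571) (N0 := 3) (En := eng) (mo := mog) (C1 := cd0q1) (C2 := cd3q1) (C3 := pd2)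
    rfl k0_pp_112

noncomputable def f_pp_113 : ℕ → ℕ → ℕ → ℕ → Bool := onCell 536870912 536870912 536870912 536870912 740881858 40050571
    (rowB 3 eng mog cd0q1 cd3q1 pd3 0 true true true .nn 1 1 3 (qsf 536870912 536870912 536870912 536870912 3) ndB0q1 ndB3q1 pcB3 Cut.none Ext.none)

def k0_pp_113 : ∃ t, chk3 f_pp_113 t 1 1 1 = true :=
  ⟨(l 4), by decide +kernel⟩

theorem c_pp_113 : CertB 536870912 536870912 536870912 536870912 740881858 40050571 3 eng mog cd0q1 cd3q1 pd3 true true true .nn 1 1 3
    ndB0q1 ndB3q1 pcB3 Cut.none Ext.none :=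
  certB0 (fam := true) (s1 := true) (s2 := true) (a := 1) (b := 1) (c := 3) (cn := .nn) (n1 := ndB0q1) (n2 := ndB3q1) (pc := pcB3) (cut := Cut.none) (xt := Ext.none) (P1 := 536870912) (W1 := 536870912) (P2 := 536870912) (W2 := 536870912) (P3 := 740881858) (W3 := 40050571) (N0 := 3) (En := eng) (mo := mog) (C1 := cd0q1) (C2 := cd3q1) (C3 := pd3)
    rfl k0_pp_113

noncomputable def f_pp_123 : ℕ → ℕ → ℕ → ℕ → Bool := onCell 536870912 536870912 1073741824 536870912 740881858 40050571
    (rowB 3 eng mog cd0q1 cd3q2 pd3 0 true true true .npn 1 2 3 (qsf 536870912 536870912 1073741824 536870912 3) ndB0q1 ndB3q2 pcB3 Cut.none Ext.none)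

def k0_pp_123 : ∃ t, chk3 f_pp_123 t 1 1 1 = true :=
  ⟨(l 4), by decide +kernel⟩

theorem c_pp_123 : CertB 536870912 536870912 1073741824 536870912 740881858 40050571 3 eng mog cd0q1 cd3q2 pd3 true true true .npn 1 2 3
    ndB0q1 ndB3q2 pcB3 Cut.none Ext.none :=
  certB0 (fam := true) (s1 := true) (s2 := true) (a := 1) (b := 2) (c := 3) (cn := .npn) (n1 := ndB0q1) (n2 := ndB3q2) (pc := pcB3) (cut := Cut.none) (xt := Ext.none) (P1 := 536870912) (W1 := 536870912) (P2 := 1073741824) (W2 := 536870912) (P3 := 740881858) (W3 := 40050571) (N0 := 3) (En := eng) (mo := mog) (C1 := cd0q1) (C2 := cd3q2) (C3 := pd3)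
    rfl k0_pp_123

noncomputable def f_pp_133 : ℕ → ℕ → ℕ → ℕ → Bool := onCell 536870912 536870912 0 1230186008 740881858 40050571
    (rowB 3 eng mog cd0q1 cd3q3 pd3 0 true true true .dn 1 3 3 (qsf 536870912 536870912 0 1230186008 3) ndB0q1 ndB3q3 pcB3 Cut.none Ext.none)

def k0_pp_133 : ∃ t, chk3 f_pp_133 t 1 1 1 = true :=
  ⟨(l 4), by decide +kernel⟩

theorem c_pp_133 : CertB 536870912 536870912 0 1230186008 740881858 40050571 3 eng mog cd0q1 cd3q3 pd3 true true true .dn 1 3 3
    ndB0q1 ndB3q3 pcB3 Cut.none Ext.none :=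
  certB0 (fam := true) (s1 := true) (s2 := true) (a := 1) (b := 3) (c := 3) (cn := .dn) (n1 := ndB0q1) (n2 := ndB3q3) (pc := pcB3) (cut := Cut.none) (xt := Ext.none) (P1 := 536870912) (W1 := 536870912) (P2 := 0) (W2 := 1230186008) (P3 := 740881858) (W3 := 40050571) (N0 := 3) (En := eng) (mo := mog) (C1 := cd0q1) (C2 := cd3q3) (C3 := pd3)
    rfl k0_pp_133

noncomputable def f_pp_202 : ℕ → ℕ → ℕ → ℕ → Bool := onCell 0 536870912 0 536870912 740881858 40050571
    (rowB 3 eng mog cd0q2 cd3q0 pd2 0 true true true .pp 2 0 2 (qsf 0 536870912 0 536870912 2) ndB0q2 ndB3q0 pcB2 Cut.none Ext.none)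

def k0_pp_202 : ∃ t, chk3 f_pp_202 t 1 1 1 = true :=
  ⟨(l 5), by decide +kernel⟩

theorem c_pp_202 : CertB 0 536870912 0 536870912 740881858 40050571 3 eng mog cd0q2 cd3q0 pd2 true true true .pp 2 0 2
    ndB0q2 ndB3q0 pcB2 Cut.none Ext.none :=
  certB0 (fam := true) (s1 := true) (s2 := true) (a := 2) (b := 0) (c := 2) (cn := .pp) (n1 := ndB0q2) (n2 := ndB3q0) (pc := pcB2) (cut := Cut.none) (xt := Ext.none) (P1 := 0) (W1 := 536870912) (P2 := 0) (W2 := 536870912) (P3 := 740881858) (W3 := 40050571) (N0 := 3) (En := eng) (mo := mog) (C1 := cd0q2) (C2 := cd3q0) (C3 := pd2)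
    rfl k0_pp_202

noncomputable def f_pp_203 : ℕ → ℕ → ℕ → ℕ → Bool := onCell 0 536870912 0 536870912 740881858 40050571
    (rowB 3 eng mog cd0q2 cd3q0 pd3 0 true true true .up 2 0 3 (qsf 0 536870912 0 536870912 3) ndB0q2 ndB3q0 pcB3 Cut.none Ext.none)

def k0_pp_203 : ∃ t, chk3 f_pp_203 t 1 1 1 = true :=
  ⟨(l 5), by decide +kernel⟩

theorem c_pp_203 : CertB 0 536870912 0 536870912 740881858 40050571 3 eng mog cd0q2 cd3q0 pd3 true true true .up 2 0 3
    ndB0q2 ndB3q0 pcB3 Cut.none Ext.none :=
  certB0 (fam := true) (s1 := true) (s2 := true) (a := 2) (b := 0) (c := 3) (cn := .up) (n1 := ndB0q2) (n2 := ndB3q0) (pc := pcB3) (cut := Cut.none) (xt := Ext.none) (P1 := 0) (W1 := 536870912) (P2 := 0) (W2 := 536870912) (P3 := 740881858) (W3 := 40050571) (N0 := 3) (En := eng) (mo := mog) (C1 := cd0q2) (C2 := cd3q0) (C3 := pd3)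
    rfl k0_pp_203

noncomputable def f_pp_213 : ℕ → ℕ → ℕ → ℕ → Bool := onCell 0 536870912 536870912 536870912 740881858 40050571
    (rowB 3 eng mog cd0q2 cd3q1 pd3 0 true true true .pnn 2 1 3 (qsf 0 536870912 536870912 536870912 3) ndB0q2 ndB3q1 pcB3 Cut.none Ext.none)

def k0_pp_213 : ∃ t, chk3 f_pp_213 t 1 1 1 = true :=
  ⟨(l 4), by decide +kernel⟩

theorem c_pp_213 : CertB 0 536870912 536870912 536870912 740881858 40050571 3 eng mog cd0q2 cd3q1 pd3 true true true .pnn 2 1 3
    ndB0q2 ndB3q1 pcB3 Cut.none Ext.none :=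
  certB0 (fam := true) (s1 := true) (s2 := true) (a := 2) (b := 1) (c := 3) (cn := .pnn) (n1 := ndB0q2) (n2 := ndB3q1) (pc := pcB3) (cut := Cut.none) (xt := Ext.none) (P1 := 0) (W1 := 536870912) (P2 := 536870912) (W2 := 536870912) (P3 := 740881858) (W3 := 40050571) (N0 := 3) (En := eng) (mo := mog) (C1 := cd0q2) (C2 := cd3q1) (C3 := pd3)
    rfl k0_pp_213

noncomputable def f_pm_001 : ℕ → ℕ → ℕ → ℕ → Bool := onCell 0 536870912 536870912 536870912 740881858 40050571
    (rowB 3 eng mog cd0q0 cd3q0 pd1 1 true true false .up 0 0 1 (qsf 0 536870912 0 536870912 1) ndB0q0 ndB3q0 pcB1 Cut.none Ext.none)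

def k0_pm_001 : ∃ t, chk3 f_pm_001 t 1 1 1 = true :=
  ⟨(b (l 3) (b (l 3) (b (l 3) (a (l 2) (a (l 2) (a (b (l 3) (l 2)) (b (a (l 3) (b (l 3) (a (l 3) (l 96266938919)))) (a (b (a (l 2) (l 16338168)) (l 2)) (b (a (l 16326288) (l 16315696)) (l 16290880)))))))))), by decide +kernel⟩

theorem c_pm_001 : CertB 0 536870912 0 536870912 740881858 40050571 3 eng mog cd0q0 cd3q0 pd1 true true false .up 0 0 1
    ndB0q0 ndB3q0 pcB1 Cut.none Ext.none :=
  certB1 (fam := true) (s1 := true) (s2 := false) (a := 0) (b := 0) (c := 1) (cn := .up) (n1 := ndB0q0) (n2 := ndB3q0) (pc := pcB1) (cut := Cut.none) (xt := Ext.none) (P1 := 0) (W1 := 536870912) (P2 := 0) (W2 := 536870912) (P3 := 740881858) (W3 := 40050571) (N0 := 3) (En := eng) (mo := mog) (C1 := cd0q0) (C2 := cd3q0) (C3 := pd1)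
    rfl (fun _ => rfl) k0_pm_001

noncomputable def cut_pm_011 : Cut := Cut.of [[⟨0, 0, 0, 67108864⟩, ⟨1, 1, 0, 67108864⟩, ⟨2, 1, 0, 67108864⟩]]

noncomputable def f_pm_011 : ℕ → ℕ → ℕ → ℕ → Bool := onCell 0 536870912 536870912 536870912 740881858 40050571
    (rowB 3 eng mog cd0q0 cd3q1 pd1 1 true true false .pnn 0 1 1 (qsf 0 536870912 536870912 536870912 1) ndB0q0 ndB3q1 pcB1 cut_pm_011 Ext.none)

def k0_pm_011 : ∃ t, chk3 f_pm_011 t 1 2 1 = true :=
  ⟨(l 3), by decide +kernel⟩

def k1_pm_011 : ∃ t, chk3 f_pm_011 t 2 6 1 = true :=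
  ⟨(l 3), by decide +kernel⟩

def k2_pm_011 : ∃ t, chk3 f_pm_011 t 4 7 1 = true :=
  ⟨(b (l 3) (a (b (l 3) (b (l 3) (a (l 6) (b (l 3) (a (l 6) (a (b (l 3) (l 6)) (b (b (l 3) (b (l 3) (a (l 16714344) (l 16703576)))) (b (a (l 16706552) (l 16701232)) (l 16711384))))))))) (b (l 3) (b (l 3) (a (b (l 3) (a (b (b (l 3) (a (c (b (l 16700632) (l 16701368)) (b (l 70497702359) (l 16699504))) (c (b (l 96267492903) (l 16685168)) (b (l 97878100343) (l 16683080))))) (a (b (c (l 16693824) (l 16692096)) (l 16690072)) (b (l 16687160) (l 16679016)))) (b (b (b (l 3) (a (c (l 71034540535) (l 72645147399)) (c (l 95730588967) (l 96804315287)))) (a (a (a (l 16678016) (l 16675264)) (l 73718883047)) (c (l 16664440) (l 16661896)))) (a (b (l 16670928) (l 16668000)) (b (l 16660160) (l 16657208)))))) (b (a (l 3) (b (l 3) (b (l 3) (a (c (l 76403186183) (l 77476922039)) (c (l 94656779431) (l 96267385975)))))) (a (b (a (b (c (b (l 82845668791) (l 16656544)) (b (l 73718858103) (l 16653680))) (c (l 16654184) (l 16651456))) (b (c (l 117742258663)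 (l 119889736855)) (l 16642880))) (a (l 16658776) (l 16638352))) (b (a (b (c (l 16638184) (l 16634992)) (l 16633472)) (b (l 16638168) (l 16624608))) (a (l 16628928) (l 16620048)))))))))), by decide +kernel⟩

def k3_pm_011 : ∃ t, chk3 f_pm_011 t 5 7 1 = true :=
  ⟨(b (l 3) (a (b (l 3) (b (l 3) (a (b (b (l 3) (b (a (l 3) (a (c (l 85529942151) (l 141364509287)) (c (l 94119862055) (l 16602872)))) (a (a (c (l 108078543239) (l 111299761591)) (c (l 16616656) (l 16613192))) (a (c (l 16609520) (l 16606136)) (l 16601136))))) (a (b (a (b (l 16619400) (l 16616320)) (l 16631152)) (a (l 16611752) (l 16604080))) (b (a (l 16603144) (l 16596528)) (a (l 16597072) (l 16590496))))) (b (a (b (a (l 3) (c (l 67813176183) (l 114520938423))) (a (c (b (l 16609888) (l 16596096)) (l 129553323431)) (c (l 95193576807) (l 16587728)))) (b (c (a (l 71034388151) (l 80161179607)) (a (l 78013703271) (l 16596248))) (a (c (l 16583920) (l 16580824)) (c (l 16576824) (l 16573752))))) (a (b (a (l 16589896) (l 16583152)) (l 16580552)) (a (l 16594256)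 (l 16566240))))))) (b (l 3) (b (a (l 3) (b (l 3) (b (l 3) (a (a (l 3) (l 125795132935)) (a (l 16555872) (l 16526992)))))) (a (b (a (a (b (c (l 89287970791) (l 16572984)) (l 16567968)) (b (c (l 98414761367) (l 16565256)) (l 16560480))) (b (c (a (l 107541551271) (l 16553112)) (l 102709715447)) (c (l 16550584) (l 16547192)))) (a (b (l 16558248) (l 16552376)) (b (l 16542864) (l 16537008)))) (b (a (c (b (l 120426425751) (l 16535128)) (l 16560536)) (c (l 16543976) (l 16518648))) (a (l 16524280) (l 16508872)))))))), by decide +kernel⟩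

def k4_pm_011 : ∃ t, chk3 f_pm_011 t 3 3 1 = true :=
  ⟨(b (l 3) (a (b (l 3) (b (l 3) (a (b (b (l 3) (a (a (a (l 76939853959) (l 76402966727)) (c (l 86603504679) (l 90898461799))) (a (l 76939796903) (l 16492816)))) (a (b (a (c (l 16507904) (l 16503160)) (l 16511352)) (a (l 16493640) (l 16478496))) (a (b (l 16474888) (l 16463016)) (l 16494816)))) (b (b (a (l 3) (a (l 16439400) (l 16424232))) (a (a (l 16455496) (l 16439232)) (a (l 16423584) (l 16408656)))) (a (a (l 16457504) (l 16441048)) (a (l 16404120) (l 16388872))))))) (b (l 3) (a (b (l 3) (a (b (a (l 82845231239) (l 83918957815)) (a (l 16374216) (l 16359976))) (b (a (l 16415800) (l 16360088)) (l 16339112)))) (b (a (l 3) (b (l 1) (a (l 3) (l 1)))) (a (b (l 82308283847) (l 16311632)) (b (a (l 16318184) (l 16303648)) (l 16283464)))))))), by decide +kernel⟩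

theorem s5_pm_011 : ∃ t, chk3 f_pm_011 t 2 7 1 = true := ex3_a k2_pm_011 k3_pm_011

theorem s6_pm_011 : ∃ t, chk3 f_pm_011 t 2 3 1 = true := ex3_b k1_pm_011 s5_pm_011

theorem s7_pm_011 : ∃ t, chk3 f_pm_011 t 1 3 1 = true := ex3_a s6_pm_011 k4_pm_011

theorem s8_pm_011 : ∃ t, chk3 f_pm_011 t 1 1 1 = true := ex3_b k0_pm_011 s7_pm_011

theorem c_pm_011 : CertB 0 536870912 536870912 536870912 740881858 40050571 3 eng mog cd0q0 cd3q1 pd1 true true false .pnn 0 1 1
    ndB0q0 ndB3q1 pcB1 cut_pm_011 Ext.none :=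
  certB1 (fam := true) (s1 := true) (s2 := false) (a := 0) (b := 1) (c := 1) (cn := .pnn) (n1 := ndB0q0) (n2 := ndB3q1) (pc := pcB1) (cut := cut_pm_011) (xt := Ext.none) (P1 := 0) (W1 := 536870912) (P2 := 536870912) (W2 := 536870912) (P3 := 740881858) (W3 := 40050571) (N0 := 3) (En := eng) (mo := mog) (C1 := cd0q0) (C2 := cd3q1) (C3 := pd1)
    rfl (fun _ => rfl) s8_pm_011

noncomputable def cut_pm_012 : Cut := Cut.of [[⟨0, 0, 0, 67108864⟩, ⟨1, 1, 0, 67108864⟩, ⟨2, 1, 0, 67108864⟩]]

noncomputable def f_pm_012 : ℕ → ℕ → ℕ → ℕ → Bool := onCell 1073741824 536870912 536870912 536870912 740881858 40050571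
    (rowB 3 eng mog cd0q0 cd3q1 pd2 2 true true false .pnp 0 1 2 (qsf 0 536870912 536870912 536870912 2) ndB0q0 ndB3q1 pcB2 cut_pm_012 Ext.none)

def k0_pm_012 : ∃ t, chk3 f_pm_012 t 4 2 1 = true :=
  ⟨(b (a (b (a (b (a (b (l 16218912) (l 16234448)) (l 16206040)) (a (b (l 16249896) (l 16265208)) (l 16258368))) (a (b (l 16182680) (l 16214400)) (l 25332619431))) (a (b (a (l 16287832) (l 16268280)) (a (b (l 16310688) (l 16326192)) (l 16298872))) (b (a (l 16245592) (l 16220008)) (l 16285200)))) (b (a (a (l 16295976) (l 2)) (l 2)) (a (a (l 16339760) (l 16219048)) (b (l 16162352) (l 16184152))))) (a (b (a (b (a (b (l 16342088) (l 16358496)) (l 16351224)) (a (a (b (l 16380456) (l 16398152)) (l 16442392)) (l 16384712))) (b (l 16366040) (l 16411216))) (a (a (b (a (b (l 16415960) (l 16433312)) (b (l 16406256) (l 16423912))) (a (b (l 16450072) (l 16466464)) (b (l 16441072) (l 16457632)))) (b (l 16398824) (l 16454936))) (b (a (l 16374672) (l 16340728)) (a (l 16402264) (l 16364688))))) (b (a (a (l 16314600) (l 16248872))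 (b (l 16203936) (a (l 16233192) (l 16210840)))) (a (b (l 16295392) (a (l 16329896) (l 16338936))) (a (c (l 16427568) (l 16403080)) (b (l 16224328) (l 16234792))))))), by decide +kernel⟩

def k1_pm_012 : ∃ t, chk3 f_pm_012 t 8 6 1 = true :=
  ⟨(b (a (a (b (a (b (l 16482720) (l 16499192)) (b (l 16473944) (l 16490400))) (a (b (a (l 16518008) (l 16513824)) (a (l 16534528) (l 16530376))) (b (l 16507016) (l 16523816)))) (b (b (l 16459312) (l 16475696)) (b (l 16492256) (l 16509152)))) (b (a (l 16430168) (l 16387408)) (a (l 16458200) (a (l 16422376) (l 16399208))))) (a (b (b (a (a (a (l 16550168) (l 16546352)) (l 16540128)) (l 16525768)) (a (a (a (l 16585976) (l 16561384)) (l 16555488)) (l 16541952))) (a (a (a (b (b (l 16575760) (l 16582824)) (b (l 16590200) (l 16598240))) (b (l 16575608) (l 16590432))) (b (l 16570128) (l 16568680))) (b (l 16557168) (a (l 16576016) (l 16562952))))) (b (a (l 16484456) (a (l 16445928) (l 16421184))) (a (l 16511088) (c (l 16563576) (l 16535592)))))), by decide +kernel⟩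

def k2_pm_012 : ∃ t, chk3 f_pm_012 t 8 7 1 = true :=
  ⟨(b (a (a (b (a (a (b (b (l 16606904) (l 16616176)) (b (l 16626008) (l 16636368))) (b (l 16606968) (l 16626088))) (b (l 16600128) (l 16639360))) (a (b (a (b (l 16647192) (a (l 16659808) (l 16657064))) (l 16668248)) (a (b (a (l 16671336) (l 16668528)) (a (l 16682920) (l 16680128))) (b (l 16664272) (l 16675840)))) (a (b (l 16641704) (l 16664144)) (b (l 16636024) (l 16658120))))) (b (b (a (l 16591112) (l 16579120)) (l 16623504)) (b (l 16641920) (a (l 16645936) (l 16614592))))) (b (a (b (l 16532800) (l 16546504)) (a (b (l 16487024) (l 16499888)) (l 16505272))) (a (b (l 16558632) (a (l 16583384) (l 16552336))) (b (a (l 16511616) (l 16480632)) (a (l 16521384) (l 16490472)))))) (a (b (b (b (a (a (a (a (l 16694200) (l 16691400)) (l 16687104)) (l 16678168)) (l 16636336)) (a (a (a (l 6) (l 16698064)) (l 16689120)) (a (l 16656664) (l 16624456)))) (a (a (l 6) (b (l 16694472) (l 6))) (a (b (a (l 16669296) (l 16652744)) (l 16686256)) (b (l 16628248) (l 16632000)))))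 (a (l 6) (b (a (l 6) (b (l 16635696) (l 6))) (l 6)))) (b (a (b (a (l 16590952) (l 16559880)) (a (b (l 16596208) (l 16599424)) (l 16587160))) (a (b (l 16528944) (l 16534960)) (b (l 16498168) (a (l 16511888) (l 16496536))))) (b (a (b (a (l 16602600) (l 16570224)) (a (l 16626704) (l 16572840))) (a (b (l 16538552) (l 16540664)) (b (l 16528400) (a (l 16517000) (l 16501392))))) (a (b (a (l 6) (b (l 16574768) (l 6))) (l 6)) (a (b (l 16563704) (b (l 16544248) (l 6))) (b (a (l 16518680) (l 16502864)) (a (b (l 16519920) (l 16520736)) (c (l 16510056) (l 16498328)))))))))), by decide +kernel⟩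

def k3_pm_012 : ∃ t, chk3 f_pm_012 t 9 6 1 = true :=
  ⟨(b (a (b (a (l 16368048) (l 16310160)) (a (l 16407352) (l 16322464))) (a (b (l 16295216) (l 16281272)) (b (l 16240728) (l 16243800)))) (a (b (a (l 16404928) (l 16356544)) (a (a (l 16414232) (l 16387104)) (b (l 16345200) (l 16350664)))) (b (a (l 16331640) (l 16246224)) (a (l 16340160) (l 16249488))))), by decide +kernel⟩

def k4_pm_012 : ∃ t, chk3 f_pm_012 t 9 7 1 = true :=
  ⟨(b (a (b (a (a (l 16453864) (l 16402424)) (b (l 16356136) (l 16361752))) (a (b (a (l 16448344) (l 16415280)) (a (l 16457624) (l 16424032))) (b (l 16368080) (a (l 16391064) (l 16358832))))) (b (a (a (l 16317792) (l 16291464)) (b (l 16251648) (l 16252080))) (a (a (l 16367592) (b (l 16295024) (l 16298088))) (b (l 16252480) (l 16252968))))) (b (a (a (b (a (l 16465624) (l 16431712)) (a (a (l 16480152) (l 16462856)) (l 16437312))) (b (a (l 16398104) (l 16365496)) (a (l 16403896) (l 16371120)))) (a (b (a (l 16333504) (l 16302216)) (a (l 16338632) (a (l 16314984) (l 16299232)))) (b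 (l 16317736) (a (l 16274376) (l 16241328))))) (a (a (b (a (b (l 16474440) (a (l 16484696) (l 16467032))) (b (l 16439928) (l 16441032))) (a (b (a (l 16485936) (l 16467968)) (a (c (l 16493264) (l 16480584)) (c (l 16475576) (l 16461624)))) (b (c (l 16449224) (l 16433792)) (a (c (l 16458288) (l 16443080)) (c (l 16441304) (l 16424856)))))) (b (a (b (l 16406304) (l 16407200)) (b (l 16373464) (l 16374248))) (a (b (c (l 16416344) (l 16398472)) (c (b (l 16416480) (l 16416440)) (l 16419128))) (b (c (l 16384384) (l 16364112)) (c (l 16405280) (l 16363584)))))) (a (b (a (b (l 16341312) (l 16342072)) (a (l 16318072) (l 16302360))) (a (b (l 16363176) (c (l 16353064) (l 16329960))) (a (b (l 16318504) (l 16318016)) (b (l 16302832) (c (l 16315048) (l 16289064)))))) (b (a (b (l 16276600) (l 16277568)) (l 16285448)) (a (b (l 16277712) (c (l 16290336) (l 16263464))) (b (l 16244088) (c (l 16257160) (l 16229376))))))))), by decide +kernel⟩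

def k5_pm_012 : ∃ t, chk3 f_pm_012 t 5 2 1 = true :=
  ⟨(a (b (a (a (b (l 2) (l 16183600)) (l 2)) (l 2)) (a (a (b (l 16397440) (b (l 16201656) (l 16207808))) (b (a (l 16176448) (a (l 16170696) (l 16166368))) (a (l 16187072) (a (l 16178024) (l 16171624))))) (b (b (l 16151864) (l 16151080)) (b (l 16148784) (l 16145112))))) (b (l 2) (b (a (b (l 2) (l 16126624)) (l 2)) (a (b (l 16116328) (l 16104040)) (b (l 16090472) (l 16070792)))))), by decide +kernel⟩

def k6_pm_012 : ∃ t, chk3 f_pm_012 t 5 6 1 = true :=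
  ⟨(a (a (a (b (b (l 16210424) (l 16208856)) (b (l 16205080) (l 16202992))) (a (b (b (l 16188104) (l 16183768)) (b (l 16176864) (l 16170056))) (b (a (l 16174984) (b (l 16169360) (l 16163728))) (a (b (l 16163040) (l 16154040)) (b (l 16154056) (l 16143872)))))) (b (b (l 16138792) (l 16129240)) (b (a (l 16132448) (l 16099312)) (a (l 16118888) (l 16081624))))) (b (a (b (l 16090328) (l 16073856)) (b (l 16048984) (l 16025664))) (a (b (l 16054104) (a (l 16046904) (l 16014264))) (b (l 15999480) (l 15969968))))), by decide +kernel⟩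

def k7_pm_012 : ∃ t, chk3 f_pm_012 t 10 7 1 = true :=
  ⟨(a (a (b (b (l 16201032) (b (l 16197912) (l 16195624))) (b (b (l 16215104) (a (l 16209448) (l 16178688))) (b (a (l 16252464) (l 16178224)) (a (b (l 16210704) (l 16231280)) (b (l 16177984) (c (l 16191824) (l 16162560))))))) (b (a (b (l 16164224) (l 16178104)) (b (a (l 16146816) (a (l 16138416) (l 16132920))) (a (l 16138600) (a (l 16129656) (l 16123848))))) (a (b (b (l 16151696) (l 16149200)) (b (l 16147368) (b (l 16146160) (c (l 16160096) (l 16130344))))) (b (a (b (l 16131584) (l 16128104)) (a (b (l 16122224) (l 16118312)) (b (l 16116200) (l 16112024)))) (a (b (l 16125280) (b (l 16123400) (l 16122208))) (a (b (l 16115072) (c (b (l 16127632) (l 16126304)) (l 16097248))) (a (b (l 16131440) (b (l 16108224) (c (l 16121464) (l 16091928)))) (b (l 16107120) (l 16104056))))))))) (b (b (a (l 16107160) (l 16063680)) (a (l 16116560) (b (l 16050872) (l 16042472)))) (b (a (b (l 16086008) (a (l 16094584) (l 16066448))) (b (l 16034168) (a (l 16039240) (l 16012912))))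 (b (a (a (l 16089960) (l 16060208)) (a (l 16031592) (l 16056176))) (a (c (b (l 16087360) (a (l 16100480) (l 16069984))) (a (l 16070312) (l 16037592))) (c (b (l 16029776) (a (l 16040424) (l 16011800))) (a (l 16005872) (l 15975176)))))))), by decide +kernel⟩

def k8_pm_012 : ∃ t, chk3 f_pm_012 t 11 7 1 = true :=
  ⟨(b (b (a (a (l 16023048) (l 15986488)) (a (l 15952568) (l 15920824))) (a (a (b (l 16006224) (l 15995248)) (b (l 15964808) (l 15951176))) (a (l 15960664) (a (l 15891896) (l 15874736))))) (b (a (a (b (l 15984872) (l 15974624)) (b (l 15938272) (l 15925984))) (a (b (l 15894872) (l 15880104)) (b (l 15854784) (l 15837472)))) (a (a (b (a (l 16039776) (l 15950856)) (a (b (l 15968976) (c (l 15984152) (l 15942840))) (b (l 15941936) (l 15977936)))) (b (c (l 15935480) (l 15890048)) (a (b (l 15915792) (c (l 15931800) (l 15885848))) (b (l 15890352) (l 15904160))))) (a (b (c (l 15889552) (l 15840072)) (c (b (l 15878480) (l 15870912)) (b (l 15827832) (l 15819512)))) (b (c (l 15846344) (l 15793024)) (c (b (l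 15833896) (l 15825352)) (b (l 15779200) (l 15769792)))))))), by decide +kernel⟩

def k9_pm_012 : ∃ t, chk3 f_pm_012 t 3 2 1 = true :=
  ⟨(a (b (l 2) (a (b (l 2) (a (b (l 2) (l 16044968)) (l 2))) (l 2))) (l 2)), by decide +kernel⟩

def k10_pm_012 : ∃ t, chk3 f_pm_012 t 3 6 1 = true :=
  ⟨(a (a (b (a (b (l 16016248) (l 15985280)) (b (l 15991608) (l 15954088))) (a (b (l 15952624) (l 15917016)) (b (l 15914176) (l 15872360)))) (b (a (b (l 2) (l 15931232)) (l 2)) (a (b (l 15885408) (l 15836688)) (b (l 15865408) (l 15810824))))) (b (l 2) (a (a (b (l 2) (l 15794144)) (l 2)) (l 2)))), by decide +kernel⟩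

def k11_pm_012 : ∃ t, chk3 f_pm_012 t 3 7 1 = true :=
  ⟨(a (b (a (a (b (a (l 15891912) (l 15864568)) (a (b (l 15861080) (l 15839632)) (b (l 15831880) (l 15808592)))) (b (l 15827480) (b (l 15791528) (l 15766416)))) (b (a (l 15785760) (l 15753592)) (a (b (l 15745416) (l 15717560)) (l 15693560)))) (a (b (a (a (b (l 15818392) (l 15798184)) (b (l 15785488) (l 15762600))) (b (a (l 15755192) (l 15727440)) (a (l 15730488) (l 15701008)))) (a (a (b (a (l 15788416) (l 15768304)) (c (b (l 15792128) (l 15782576)) (b (l 15733584) (l 15723048)))) (b (a (l 15749160) (l 15730928)) (a (b (l 15732768) (l 15721904)) (b (l 15713528) (l 15701976))))) (b (a (l 15768152) (b (l 15680824) (l 15667104))) (a (b (l 15686376) (c (l 15705664) (l 15641024))) (b (l 15653256) (c (l 15672280) (l 15605768))))))) (b (a (b (l 15689536) (a (l 15674088) (l 15649144))) (b (l 15647096) (l 15679056))) (a (b (a (b (l 15652776) (l 15638176)) (l 15619368)) (a (b (l 15623472) (a (l 15615952) (l 15601328))) (b (l 15596344) (a (l 15587384) (l 15574080)))))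 (b (a (l 15595400) (l 15573816)) (a (b (l 15571440) (l 15555152)) (b (l 15548840) (l 15531920)))))))) (b (a (a (b (l 15731536) (l 15749280)) (b (l 15718360) (l 15647592))) (a (b (l 2) (l 15638992)) (l 2))) (a (b (a (b (l 15614688) (l 15580792)) (a (l 15579304) (l 15570320))) (b (a (a (l 15554696) (l 15538176)) (l 15518336)) (a (a (b (l 15528680) (l 15511072)) (l 15501952)) (a (l 15486640) (l 15474040))))) (b (a (b (l 15580624) (l 15541416)) (l 15557832)) (a (b (l 15522328) (a (l 15464200) (l 15457016))) (a (l 15515944) (l 15472752))))))), by decide +kernel⟩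

theorem s12_pm_012 : ∃ t, chk3 f_pm_012 t 3 3 1 = true := ex3_b k10_pm_012 k11_pm_012

theorem s13_pm_012 : ∃ t, chk3 f_pm_012 t 3 1 1 = true := ex3_b k9_pm_012 s12_pm_012

theorem s14_pm_012 : ∃ t, chk3 f_pm_012 t 5 7 1 = true := ex3_a k7_pm_012 k8_pm_012

theorem s15_pm_012 : ∃ t, chk3 f_pm_012 t 5 3 1 = true := ex3_b k6_pm_012 s14_pm_012

theorem s16_pm_012 : ∃ t, chk3 f_pm_012 t 5 1 1 = true := ex3_b k5_pm_012 s15_pm_012

theorem s17_pm_012 : ∃ t, chk3 f_pm_012 t 9 3 1 = true := ex3_b k3_pm_012 k4_pm_012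

theorem s18_pm_012 : ∃ t, chk3 f_pm_012 t 8 3 1 = true := ex3_b k1_pm_012 k2_pm_012

theorem s19_pm_012 : ∃ t, chk3 f_pm_012 t 4 3 1 = true := ex3_a s18_pm_012 s17_pm_012

theorem s20_pm_012 : ∃ t, chk3 f_pm_012 t 4 1 1 = true := ex3_b k0_pm_012 s19_pm_012

theorem s21_pm_012 : ∃ t, chk3 f_pm_012 t 2 1 1 = true := ex3_a s20_pm_012 s16_pm_012

theorem s22_pm_012 : ∃ t, chk3 f_pm_012 t 1 1 1 = true := ex3_a s21_pm_012 s13_pm_012

theorem c_pm_012 : CertB 0 536870912 536870912 536870912 740881858 40050571 3 eng mog cd0q0 cd3q1 pd2 true true false .pnp 0 1 2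
    ndB0q0 ndB3q1 pcB2 cut_pm_012 Ext.none :=
  certB2 (fam := true) (s1 := true) (s2 := false) (a := 0) (b := 1) (c := 2) (cn := .pnp) (n1 := ndB0q0) (n2 := ndB3q1) (pc := pcB2) (cut := cut_pm_012) (xt := Ext.none) (P1 := 0) (W1 := 536870912) (P2 := 536870912) (W2 := 536870912) (P3 := 740881858) (W3 := 40050571) (N0 := 3) (En := eng) (mo := mog) (C1 := cd0q0) (C2 := cd3q1) (C3 := pd2)
    rfl (fun _ => rfl) s22_pm_012

noncomputable def f_pm_022 : ℕ → ℕ → ℕ → ℕ → Bool := onCell 0 536870912 1073741824 536870912 740881858 40050571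
    (rowB 3 eng mog cd0q0 cd3q2 pd2 1 true true false .pp 0 2 2 (qsf 0 536870912 1073741824 536870912 2) ndB0q0 ndB3q2 pcB2 Cut.none Ext.none)

def k0_pm_022 : ∃ t, chk3 f_pm_022 t 1 4 1 = true :=
  ⟨(a (b (l 3) (b (l 3) (a (a (b (b (b (a (a (l 16554864) (l 123647603335)) (l 3)) (a (a (l 16521512) (l 16552472)) (a (l 16581256) (l 16607864)))) (b (a (a (l 16508480) (l 16539472)) (a (l 16568400) (l 16595248))) (a (a (a (a (l 16483504) (l 16491760)) (l 16503704)) (l 16526720)) (a (l 16555632) (l 16582480))))) (a (c (a (b (a (b (l 16484080) (l 16470744)) (l 16494672)) (a (l 16448216) (l 16470472))) (b (l 16515328) (l 16494288))) (b (a (a (b (l 16464544) (l 16450424)) (l 16498160)) (l 16502696)) (a (a (l 16427464) (l 16450512)) (l 16478192)))) (b (a (b (l 16543704) (l 16532504)) (c (l 16502768) (l 16563944))) (a (l 16515520) (l 16563416))))) (b (a (a (b (l 16557552) (l 16605416)) (b (l 1610243254151) (b (l 16597352) (l 16596064)))) (b (l 3) (a (b (a (l 16589416) (l 275447946535)) (l 218002800215)) (b (l 1)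 (l 459594644231))))) (b (a (a (l 16589544) (l 16592696)) (a (b (l 16583896) (l 16581544)) (a (l 273300481223) (l 406444412279)))) (a (a (l 16567336) (l 16586768)) (a (b (l 16578824) (l 16576360)) (b (l 266321139319) (l 16564264))))))) (a (b (l 1) (a (b (l 1) (a (a (l 399465065847) (l 1)) (l 1))) (l 1))) (l 1))))) (l 1)), by decide +kernel⟩

def k1_pm_022 : ∃ t, chk3 f_pm_022 t 16 10 1 = true :=
  ⟨(b (b (b (a (c (a (l 16417808) (l 16441584)) (a (l 16396536) (l 16420600))) (a (a (l 16448600) (l 16458560)) (l 16491816))) (a (a (c (b (l 16395256) (l 16380384)) (b (l 16373536) (l 16358344))) (c (l 16411472) (l 16389888))) (a (l 16424072) (c (l 16454920) (l 16434672))))) (b (a (b (a (c (b (l 16369616) (l 16363976)) (b (a (l 16341320) (l 16353336)) (l 16342032))) (c (l 16390120) (l 16368272))) (a (c (l 16356472) (l 16335224)) (l 16369200))) (b (c (l 16423696) (l 16402400)) (c (l 16412624) (l 16391976)))) (b (a (a (c (l 16347264) (l 16327192)) (l 16360528)) (c (l 16403416) (l 16383968))) (a (b (c (a (b (l 16342112)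 (c (l 16345368) (l 16336136))) (l 16364728)) (b (l 16334704) (l 16333952))) (a (c (b (b (b (l 16340304) (b (l 16340560) (l 16340920))) (l 16340280)) (a (l 16332040) (l 16343720))) (b (b (b (l 16322280) (l 16323112)) (l 16322920)) (l 16320592))) (c (b (l 16383952) (l 16360968)) (l 16343880)))) (b (c (l 16397832) (l 16379728)) (c (l 16415456) (l 16377472))))))) (b (a (c (a (b (c (a (b (l 16329248) (l 16318400)) (l 16334248)) (a (l 16314536) (l 16325544))) (c (l 16307600) (l 16297512))) (b (c (l 16350784) (l 16342488)) (c (l 16327128) (l 16318560)))) (a (b (c (l 16311168) (l 16302240)) (c (l 16287456) (l 16277432))) (c (l 16322128) (l 16313776)))) (a (b (l 16381792) (c (l 16343944) (l 16328616))) (c (l 16377680) (l 16362376)))) (a (a (c (c (b (l 16287352) (l 16267760)) (b (l 16275984) (l 16255144))) (b (c (l 16264568) (l 16253088)) (c (l 16242384) (l 16229472)))) (c (c (l 16296192) (l 16285976)) (c (l 16275824) (l 16265728)))) (c (a (b (l 16320856) (l 16299952)) (b (l 16341152) (l 16318776))) (c (l 16308440)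 (l 16300616)))))), by decide +kernel⟩

def k2_pm_022 : ∃ t, chk3 f_pm_022 t 16 11 1 = true :=
  ⟨(b (a (c (b (c (a (b (l 16248832) (l 16230552)) (l 16258120)) (a (b (l 16234992) (l 16215520)) (l 16245456))) (c (a (b (l 16212920) (l 16195928)) (l 16222624)) (a (b (l 16196720) (l 16178600)) (l 16207616)))) (b (a (b (c (l 16220912) (l 16206592)) (c (l 16200144) (l 16184432))) (c (l 16232656) (l 16219736))) (a (b (c (l 16180088) (l 16163008)) (c (l 16160728) (l 16142304))) (c (l 16192280) (l 16176616))))) (b (c (c (l 16284840) (l 16274752)) (c (l 16264784) (l 16254920))) (c (c (l 16249048) (l 16236608)) (c (l 16224088) (l 16211488))))) (a (c (b (c (b (l 16188680) (l 16172896)) (a (b (l 16161144) (l 16144360)) (l 16172448))) (b (a (a (l 16133856) (l 16143320)) (l 16157288)) (c (l 16143184) (l 16122528)))) (b (a (c (b (l 16142064) (l 16124104)) (b (l 16122336) (l 16103080))) (c (l 16154680) (l 16136376))) (b (a (a (l 16090104) (l 16101472)) (l 16118264)) (c (l 16100960) (l 16078480))))) (c (b (c (l 16215768)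 (l 16201096)) (c (l 16184968) (l 16168176))) (b (c (l 16186128) (l 16170872)) (c (l 16150880) (l 16133064)))))), by decide +kernel⟩

def k3_pm_022 : ∃ t, chk3 f_pm_022 t 17 5 1 = true :=
  ⟨(a (b (b (b (b (l 16492480) (a (l 16462112) (l 16476216))) (b (c (b (l 16460408) (l 16451056)) (b (l 16441792) (l 16432144))) (b (a (l 16425528) (l 16444112)) (b (a (l 16420600) (l 16440376)) (c (l 16435656) (l 16419608)))))) (b (c (l 16429152) (l 16393664)) (b (l 16406792) (c (l 16348144) (l 16335344))))) (b (b (c (b (l 16326152) (l 16305752)) (l 16302144)) (c (l 16277768) (l 16259944))) (c (b (l 16243040) (l 16210800)) (b (l 16220320) (l 16183384))))) (b (b (b (c (l 16554200) (l 16566048)) (b (b (l 16479064) (l 16469864)) (b (l 16464432) (b (l 16461928) (a (l 16454264) (l 16466952)))))) (b (c (c (l 16508744) (l 16461104)) (l 16472680)) (c (l 16397232) (l 16385672)))) (b (b (c (b (l 16363008) (l 16341208)) (l 16341256)) (c (l 16353176) (l 16299232))) (c (b (l 16275360) (l 16242816)) (b (l 16259504) (l 16222288)))))),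 by decide +kernel⟩

def k4_pm_022 : ∃ t, chk3 f_pm_022 t 9 5 1 = true :=
  ⟨(b (b (b (a (a (b (l 16544560) (l 16521512)) (b (l 16567632) (l 16544728))) (a (l 16507888) (b (l 16561384) (l 16557792)))) (b (a (a (b (l 16504272) (l 16494240)) (b (l 16527576) (l 16516944))) (l 16555216)) (b (a (a (l 16488544) (l 16510760)) (l 16542304)) (b (a (a (l 16486104) (l 16508376)) (l 16539968)) (a (a (l 16484928) (l 16486264)) (c (l 16538208) (l 16495920))))))) (a (b (a (b (l 16474312) (l 16518152)) (l 16487152)) (a (b (c (l 16439800) (l 16430688)) (l 16456392)) (a (l 16528240) (l 16455288)))) (c (a (l 16489856) (l 16509384)) (a (l 16489840) (l 16554576))))) (a (b (b (a (l 16444480) (b (l 16403496) (l 16423032))) (a (b (l 16349720) (l 16413248)) (l 16392304))) (c (a (b (l 16306056) (l 16272584)) (b (l 16335736) (l 16300656))) (a (l 16360760) (l 16331208)))) (b (a (b (l 16451336) (b (l 16408904) (l 16390288))) (b (l 16457064) (l 16422816))) (b (a (l 16382704) (c (l 16383488) (l 16388416))) (c (a (l 16328192) (l 16354664))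 (l 16422248)))))), by decide +kernel⟩

def k5_pm_022 : ∃ t, chk3 f_pm_022 t 10 5 1 = true :=
  ⟨(b (b (b (a (a (b (l 347925443255) (l 294238401303)) (b (l 1) (l 427919166055))) (l 1)) (b (a (a (l 16498808) (l 359736608679)) (l 1)) (b (a (a (l 16535968) (l 329671848855)) (l 1)) (a (b (a (l 16528920) (c (l 16517608) (l 16508928))) (a (c (l 16526736) (l 16520384)) (c (l 271689769367) (b (a (l 16508384) (b (a (l 16501408) (l 310881273911)) (l 16496968))) (l 16501400))))) (a (b (l 1) (a (b (l 1) (l 394096234967)) (l 1))) (l 1)))))) (a (a (b (b (l 16518304) (l 16511880)) (b (l 16505112) (l 16497992))) (b (b (c (l 16508504) (a (l 16502920) (l 16493712))) (l 16529704)) (b (l 16429656) (l 16486568)))) (a (b (b (c (l 316249951655) (c (l 303365029943) (a (l 279742706423) (l 360810192839)))) (c (l 273300289447) (a (l 16479280) (b (l 301754393751) (l 272226489319))))) (c (l 16480896) (b (a (l 16474368) (c (l 16468888) (l 16461288))) (l 16464928)))) (b (b (l 1) (c (l 329134810871) (a (c (l 319471119671) (l 314639264839))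 (l 1)))) (b (c (l 282963905175) (c (l 281890138615) (a (a (l 254509719847) (l 291016931623)) (l 311954881559)))) (c (l 252362269063) (c (l 252362232823) (a (l 16447048) (a (l 255046562487) (l 281353227111)))))))))) (a (b (b (c (l 16548472) (a (l 16481624) (l 16471768))) (a (l 16444512) (l 16462880))) (a (b (l 16411840) (c (l 16420456) (l 16380896))) (b (l 16433912) (l 16402864)))) (b (a (b (b (l 16466712) (l 16398280)) (c (l 16458144) (l 16361824))) (b (c (l 16456816) (b (a (l 16446976) (c (l 16442520) (l 16433224))) (l 16438152))) (b (l 16441920) (l 16436880)))) (b (a (l 16439320) (b (l 16431528) (l 16425864))) (a (l 16423592) (l 16416744)))))), by decide +kernel⟩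

def k6_pm_022 : ∃ t, chk3 f_pm_022 t 11 5 1 = true :=
  ⟨(a (b (b (l 1) (b (l 1) (a (b (l 1) (c (l 322155440775) (a (c (l 314102357511) (l 309270499223)) (l 1)))) (l 1)))) (b (c (b (a (b (l 243235410071) (l 229276769415)) (l 315176076263)) (a (l 16433816) (b (l 256657137863) (l 213170596455)))) (c (a (b (a (l 236256073319) (l 252899045111)) (l 16419920)) (b (l 310344205095) (b (l 251825267303) (l 224981713751)))) (b (a (b (a (b (l 272226401143) (l 256657141127)) (l 305512376039)) (a (l 16419832) (b (l 271152632871) (l 244845954855)))) (b (l 1) (a (l 299606770263) (l 1)))) (a (b (a (l 16415976) (l 16406912)) (l 16407648)) (b (a (l 260415187687) (l 313028518135)) (a (l 16394488) (l 288332450599))))))) (a (b (c (l 16424640) (l 16406616)) (c (l 16414104) (l 16397384))) (b (c (l 16412016) (b (a (l 16396832) (l 16388536)) (l 16389280))) (l 16415112))))) (b (l 1) (b (b (l 1) (a (b (l 1) (a (c (l 325913455703) (l 315712861095)) (l 1))) (l 1))) (c (b (a (b (l 223907967175) (l 16396080)) (l 329671502631)) (a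 (l 16390904) (l 221223592535))) (b (a (b (a (l 270078816519) (l 315175966519)) (l 228739746551)) (b (l 1) (l 316786546359))) (a (l 16368296) (l 271152512599))))))), by decide +kernel⟩

def k7_pm_022 : ∃ t, chk3 f_pm_022 t 3 5 1 = true :=
  ⟨(b (l 1) (a (a (b (l 1) (a (b (l 1) (a (b (l 1) (l 321618367335)) (l 1))) (l 1))) (l 1)) (l 1))), by decide +kernel⟩

def k8_pm_022 : ∃ t, chk3 f_pm_022 t 4 6 1 = true :=
  ⟨(a (b (b (a (a (b (c (a (b (l 16109312) (l 16095616)) (c (l 16131208) (l 16109968))) (a (c (l 16066680) (l 16041392)) (c (l 16087720) (l 16064464)))) (b (b (c (l 16094872) (l 16045968)) (a (a (l 16070160) (l 16059200)) (l 16074008))) (a (c (l 16069712) (l 16017400)) (l 16105864)))) (b (c (c (l 16156592) (l 16137832)) (l 16150224)) (c (b (l 16126920) (l 16114160)) (b (l 16084744) (l 16069824))))) (c (b (a (l 16181024) (l 16212688)) (a (l 16153728) (l 16185016))) (a (b (l 16149136) (l 16117472)) (b (l 16187680) (l 16155584))))) (a (a (b (b (a (a (l 16047584) (l 16036472)) (l 16051048)) (c (l 16054616)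 (l 16002528))) (c (a (l 16028856) (l 16046928)) (a (l 15975312) (l 15995216)))) (c (b (l 16095936) (l 16073160)) (b (l 16048992) (l 16024328)))) (a (b (l 16109120) (l 16084784)) (c (l 16148024) (l 16112136))))) (a (b (a (a (b (c (l 16009160) (l 15954640)) (c (l 15992080) (l 15936336))) (b (c (l 16026808) (l 15974176)) (l 15982776))) (b (l 16091064) (l 16009384))) (a (b (c (l 15986008) (l 15929768)) (c (l 15973800) (l 15915840))) (b (l 15993024) (l 15979032)))) (b (a (b (l 16062912) (l 16043456)) (b (l 16095920) (l 16075872))) (a (l 16018728) (l 16050184))))) (c (b (a (b (b (l 16256064) (l 16228008)) (l 16253304)) (b (c (b (l 16311120) (l 16282840)) (l 16376520)) (l 16242152))) (a (b (l 16189456) (l 16112688)) (b (l 16198600) (l 16162872)))) (b (a (b (b (l 16240744) (l 16208264)) (l 16163976)) (b (b (l 16304096) (l 16271872)) (l 16227352))) (a (b (l 16156000) (l 16074824)) (b (l 16176464) (l 16135240)))))), by decide +kernel⟩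

def k9_pm_022 : ∃ t, chk3 f_pm_022 t 4 7 1 = true :=
  ⟨(a (b (a (b (a (b (c (l 15964072) (l 15904104)) (c (l 15956760) (l 15894496))) (b (l 15967344) (l 15957920))) (a (a (b (l 15911160) (l 15907176)) (l 15987640)) (l 15947888))) (b (a (l 15993800) (l 16023864)) (l 15992136))) (b (a (a (b (l 15912872) (l 15912736)) (l 15941840)) (l 15983632)) (a (a (b (l 15914536) (l 15918184)) (l 15943664)) (l 15982984)))) (b (a (b (l 16066160) (l 16046624)) (b (l 16119688) (l 16098192))) (a (b (l 16035264) (l 16031648)) (l 16080680)))), by decide +kernel⟩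

def k10_pm_022 : ∃ t, chk3 f_pm_022 t 5 3 1 = true :=
  ⟨(b (a (b (a (b (a (b (l 16368464) (c (l 16318408) (l 16316696))) (c (b (l 16370400) (l 16342560)) (l 16360008))) (c (a (l 16280200) (l 16305272)) (l 16330024))) (c (b (b (l 16503688) (a (l 16362920) (l 16379424))) (a (b (l 16338528) (l 16316488)) (l 16385936))) (a (b (l 16384280) (l 16328984)) (b (l 16456816) (l 16350248))))) (a (b (c (l 16249872) (l 16238056)) (l 16205528)) (b (a (l 16325304) (c (l 16305840) (l 16304376))) (l 16258408)))) (b (b (b (a (a (l 16416232) (c (l 16393568) (l 16375360))) (a (c (l 16382928) (l 16361760)) (c (b (l 16371744) (l 16368376)) (l 16346168)))) (a (c (a (l 16386416) (l 16381600)) (l 16373016)) (a (b (l 16366896) (l 16362472)) (b (l 16354056) (l 16350584))))) (b (a (c (l 16410360) (l 16363976)) (a (l 16355304) (b (l 16346848) (l 16342840)))) (a (c (l 16465824) (l 16356440)) (c (l 16345792) (l 16334696))))) (a (b (c (a (l 16319168) (l 16326440)) (l 16433624)) (c (l 16296032) (l 16293800))) (a (b (c (l 16349888)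 (l 16330096)) (l 16306744)) (b (c (l 16323152) (l 16318624)) (l 16444616)))))) (a (b (a (b (l 16175296) (l 16152824)) (b (l 16229248) (l 16207208))) (a (l 16133144) (l 16354912))) (b (a (b (l 16268800) (l 16248816)) (b (l 16289472) (l 16274408))) (a (l 16251456) (b (l 16263696) (l 16258200)))))), by decide +kernel⟩

def k11_pm_022 : ∃ t, chk3 f_pm_022 t 6 3 1 = true :=
  ⟨(b (b (a (a (a (b (b (c (b (l 216928561271) (l 215317988807)) (l 267394371623)) (b (c (a (l 16354720) (l 16368400)) (l 16325816)) (l 16336608))) (b (l 16332304) (l 16367616))) (c (b (b (b (l 1) (l 328060802279)) (b (a (c (l 202969920791) (l 213707310759)) (l 322155210071)) (l 201359301015))) (b (a (l 16332632) (l 16325512)) (l 16322944))) (b (b (l 320007682711) (b (l 266320642439) (l 16306792))) (l 16324360)))) (a (b (b (l 1) (b (l 1) (c (l 318933955943) (l 310880834887)))) (c (b (b (l 223370929895) (l 177736935959)) (l 16309768)) (l 239477075319))) (b (l 1) (c (b (l 311954596791) (l 215854743943)) (l 284574122551))))) (b (l 1) (a (b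 (l 1) (a (l 300143373399) (l 1))) (l 1)))) (a (c (a (b (a (l 16318800) (l 16311536)) (a (l 16296824) (l 16290552))) (b (b (a (l 16304432) (l 16291576)) (l 16334776)) (l 16313480))) (a (b (a (l 16307648) (l 16295160)) (a (l 16297456) (l 16285480))) (b (a (l 16281624) (l 16267176)) (l 16268448)))) (a (b (b (a (c (l 193843000503) (l 16252016)) (l 295311501479)) (a (l 16263424) (l 182031833367))) (a (b (l 16260592) (l 16256944)) (l 16246120))) (b (b (l 1) (l 299069548247)) (b (l 260414943159) (l 197064153927)))))) (a (b (a (b (b (l 16392336) (l 16285808)) (l 16282144)) (b (a (l 16289288) (b (l 16261752) (l 16254808))) (a (l 16269944) (l 16254968)))) (a (l 16277264) (l 16336456))) (b (a (a (b (l 16249912) (l 16240968)) (b (l 16239640) (l 16355736))) (b (b (l 16222648) (l 16220456)) (l 16215840))) (a (b (a (l 16246680) (l 16229296)) (l 16251288)) (b (a (l 16214120) (l 16203000)) (l 16277968)))))), by decide +kernel⟩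

def k12_pm_022 : ∃ t, chk3 f_pm_022 t 7 3 1 = true :=
  ⟨(b (b (l 1) (a (a (b (l 1) (l 294237726279)) (l 1)) (l 1))) (a (b (a (b (l 257730528327) (a (l 16198704) (l 16185640))) (b (l 271152128743) (l 258267326311))) (a (b (l 16189296) (l 16196896)) (b (b (l 16165648) (l 16166416)) (l 16166648)))) (b (a (b (l 1) (l 282426359447)) (l 1)) (a (b (l 262025391927) (l 16165144)) (b (l 296921825495) (l 270615333847)))))), by decide +kernel⟩

theorem s13_pm_022 : ∃ t, chk3 f_pm_022 t 3 3 1 = true := ex3_a k11_pm_022 k12_pm_022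

theorem s14_pm_022 : ∃ t, chk3 f_pm_022 t 4 3 1 = true := ex3_b k8_pm_022 k9_pm_022

theorem s15_pm_022 : ∃ t, chk3 f_pm_022 t 2 3 1 = true := ex3_a s14_pm_022 k10_pm_022

theorem s16_pm_022 : ∃ t, chk3 f_pm_022 t 1 3 1 = true := ex3_a s15_pm_022 s13_pm_022

theorem s17_pm_022 : ∃ t, chk3 f_pm_022 t 5 5 1 = true := ex3_a k5_pm_022 k6_pm_022

theorem s18_pm_022 : ∃ t, chk3 f_pm_022 t 16 5 1 = true := ex3_b k1_pm_022 k2_pm_022

theorem s19_pm_022 : ∃ t, chk3 f_pm_022 t 8 5 1 = true := ex3_a s18_pm_022 k3_pm_022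

theorem s20_pm_022 : ∃ t, chk3 f_pm_022 t 4 5 1 = true := ex3_a s19_pm_022 k4_pm_022

theorem s21_pm_022 : ∃ t, chk3 f_pm_022 t 2 5 1 = true := ex3_a s20_pm_022 s17_pm_022

theorem s22_pm_022 : ∃ t, chk3 f_pm_022 t 1 5 1 = true := ex3_a s21_pm_022 k7_pm_022

theorem s23_pm_022 : ∃ t, chk3 f_pm_022 t 1 2 1 = true := ex3_b k0_pm_022 s22_pm_022

theorem s24_pm_022 : ∃ t, chk3 f_pm_022 t 1 1 1 = true := ex3_b s23_pm_022 s16_pm_022

theorem c_pm_022 : CertB 0 536870912 1073741824 536870912 740881858 40050571 3 eng mog cd0q0 cd3q2 pd2 true true false .pp 0 2 2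
    ndB0q0 ndB3q2 pcB2 Cut.none Ext.none :=
  certB1 (fam := true) (s1 := true) (s2 := false) (a := 0) (b := 2) (c := 2) (cn := .pp) (n1 := ndB0q0) (n2 := ndB3q2) (pc := pcB2) (cut := Cut.none) (xt := Ext.none) (P1 := 0) (W1 := 536870912) (P2 := 1073741824) (W2 := 536870912) (P3 := 740881858) (W3 := 40050571) (N0 := 3) (En := eng) (mo := mog) (C1 := cd0q0) (C2 := cd3q2) (C3 := pd2)
    rfl (fun _ => rfl) s24_pm_022

noncomputable def f_pm_023 : ℕ → ℕ → ℕ → ℕ → Bool := onCell 0 536870912 1610612736 536870912 740881858 40050571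
    (rowB 3 eng mog cd0q0 cd3q2 pd3 1 true true false .up 0 2 3 (qsf 0 536870912 1073741824 536870912 3) ndB0q0 ndB3q2 pcB3 Cut.none Ext.none)

def k0_pm_023 : ∃ t, chk3 f_pm_023 t 1 1 1 = true :=
  ⟨(a (b (b (a (b (a (a (b (a (l 15930328) (l 15954872)) (l 177266653159)) (b (l 15990424) (l 15999984))) (a (l 16038888) (l 16082424))) (a (b (l 165992402023) (l 2)) (a (l 16058808) (l 16100848)))) (a (b (a (l 16131984) (l 16185040)) (l 16362280)) (b (a (l 16229536) (l 16262816)) (l 16262664)))) (b (a (b (a (l 2) (l 16095656)) (l 2)) (a (b (l 16190048) (l 132170069287)) (b (l 16279872) (l 16293640)))) (a (l 2) (a (b (l 16230096) (l 2)) (b (l 16316960) (l 16346616)))))) (b (a (l 2) (b (a (l 2) (b (l 16372504) (l 2))) (l 2))) (l 2))) (b (b (a (a (b (a (l 16285696) (l 16291584)) (a (l 16305184) (l 16318232))) (b (a (l 16272376) (l 16240096)) (l 16297368))) (a (b (a (b (l 16206640) (l 16230560)) (b (l 16178888) (l 16180320))) (a (l 16251696) (l 16246512))) (b (a (b (l 16162024) (l 16174760)) (b (a (l 16149248)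 (l 16139752)) (l 16160720))) (a (b (l 16204192) (l 16244592)) (b (l 16179976) (l 16216640)))))) (a (b (a (b (l 16335312) (l 16351808)) (a (l 16350696) (l 16331208))) (b (a (l 16375712) (l 16387712)) (a (l 16404448) (l 16422368)))) (b (a (b (l 16271680) (l 16278088)) (b (l 16274408) (l 16311256))) (a (b (l 16330928) (l 16385368)) (b (l 16336232) (l 16356952)))))) (a (b (b (a (b (l 16427920) (l 16449688)) (b (l 16448504) (l 16470032))) (a (b (l 16485968) (l 2)) (b (l 16512352) (l 16556344)))) (b (b (a (l 2) (l 16592616)) (l 2)) (l 2))) (b (b (a (b (l 16425424) (l 16475624)) (b (l 16425096) (l 16488136))) (a (b (l 16520024) (l 16565056)) (b (l 16534784) (l 16572632)))) (b (b (a (l 16607848) (l 16613368)) (b (l 63451673623) (l 16807640))) (b (a (l 16669608) (l 16706016)) (l 4))))))), by decide +kernel⟩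

theorem c_pm_023 : CertB 0 536870912 1073741824 536870912 740881858 40050571 3 eng mog cd0q0 cd3q2 pd3 true true false .up 0 2 3
    ndB0q0 ndB3q2 pcB3 Cut.none Ext.none :=
  certB1 (fam := true) (s1 := true) (s2 := false) (a := 0) (b := 2) (c := 3) (cn := .up) (n1 := ndB0q0) (n2 := ndB3q2) (pc := pcB3) (cut := Cut.none) (xt := Ext.none) (P1 := 0) (W1 := 536870912) (P2 := 1073741824) (W2 := 536870912) (P3 := 740881858) (W3 := 40050571) (N0 := 3) (En := eng) (mo := mog) (C1 := cd0q0) (C2 := cd3q2) (C3 := pd3)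
    rfl (fun _ => rfl) k0_pm_023

noncomputable def f_pm_033 : ℕ → ℕ → ℕ → ℕ → Bool := onCell 1610612736 536870912 0 1230186008 740881858 40050571
    (rowB 3 eng mog cd0q0 cd3q3 pd3 2 true true false .pnn 0 3 3 (qsf 0 536870912 0 1230186008 3) ndB0q0 ndB3q3 pcB3 Cut.none Ext.none)

def k0_pm_033 : ∃ t, chk3 f_pm_033 t 1 2 1 = true :=
  ⟨(a (l 1) (a (l 1) (l 4))), by decide +kernel⟩

def k1_pm_033 : ∃ t, chk3 f_pm_033 t 1 6 1 = true :=
  ⟨(a (b (l 1) (a (l 1) (a (l 1) (b (l 1) (a (l 1) (b (l 1) (l 15928536))))))) (b (a (a (l 1) (a (b (l 1) (l 15960712)) (l 4))) (l 4)) (a (b (a (a (l 15836328) (l 15928592)) (a (l 16105464) (a (l 16085448) (l 4)))) (a (a (l 15973688) (b (l 16019096) (l 16078424))) (a (b (l 16100384) (l 16152816)) (b (l 16178928) (l 16229920))))) (a (b (l 4) (a (l 4) (l 4))) (l 4))))), by decide +kernel⟩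

def k2_pm_033 : ∃ t, chk3 f_pm_033 t 1 7 1 = true :=
  ⟨(a (b (a (l 1) (a (b (a (l 1) (b (l 1) (l 15825704))) (a (b (l 1) (l 15872888)) (b (l 289405159655) (l 15933904)))) (b (a (b (l 15880584) (l 15915048)) (l 15985968)) (a (b (l 15949920) (l 16009840)) (b (l 16031552) (l 16087824)))))) (a (a (b (l 1) (b (a (l 1) (b (l 219612013975) (l 220148951655))) (a (b (l 229275700199) (l 230349551831)) (b (l 219075401223) (l 16004888))))) (b (a (b (l 1) (a (l 213169551191) (b (l 244308152327) (l 15945512)))) (b (l 298532116311) (a (l 151429598263) (l 15981760)))) (b (a (b (l 15965048) (l 15998424)) (a (l 16024376) (l 16050872))) (a (l 16046992) (l 16103456))))) (a (b (a (b (l 15948032) (l 16019672)) (b (l 16004944) (l 16074968))) (a (b (l 16089736) (l 16162440)) (b (l 16148600) (l 16226912)))) (b (a (b (l 16077576) (l 16148808)) (b (l 16156160) (l 16227336))) (a (b (l 16223464) (l 16302968)) (l 16340184)))))) (a (b (b (a (a (l 16056632) (b (l 16110464) (l 16137984))) (a (l 16179920) (l 16259336))) (a (b (a (l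 16100656) (l 16167776)) (a (l 16153664) (l 16224176))) (a (b (l 16246200) (l 16302216)) (b (l 16329920) (l 16379064))))) (a (b (a (l 16258616) (l 16324416)) (a (l 16426632) (l 16455880))) (b (a (l 16398736) (l 16460768)) (a (l 16509064) (l 16567208))))) (a (b (b (a (b (l 16340704) (l 16377832)) (l 4)) (a (b (l 16409120) (l 16453672)) (a (l 16479888) (l 4)))) (a (b (l 16524288) (l 16636832)) (b (a (l 16573320) (l 16598264)) (l 16663856)))) (b (l 4) (a (b (l 4) (l 16694592)) (l 4)))))), by decide +kernel⟩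

theorem s3_pm_033 : ∃ t, chk3 f_pm_033 t 1 3 1 = true := ex3_b k1_pm_033 k2_pm_033

theorem s4_pm_033 : ∃ t, chk3 f_pm_033 t 1 1 1 = true := ex3_b k0_pm_033 s3_pm_033

theorem c_pm_033 : CertB 0 536870912 0 1230186008 740881858 40050571 3 eng mog cd0q0 cd3q3 pd3 true true false .pnn 0 3 3
    ndB0q0 ndB3q3 pcB3 Cut.none Ext.none :=
  certB2 (fam := true) (s1 := true) (s2 := false) (a := 0) (b := 3) (c := 3) (cn := .pnn) (n1 := ndB0q0) (n2 := ndB3q3) (pc := pcB3) (cut := Cut.none) (xt := Ext.none) (P1 := 0) (W1 := 536870912) (P2 := 0) (W2 := 1230186008) (P3 := 740881858) (W3 := 40050571) (N0 := 3) (En := eng) (mo := mog) (C1 := cd0q0) (C2 := cd3q3) (C3 := pd3)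
    rfl (fun _ => rfl) s4_pm_033

noncomputable def xt_pm_101 : Ext := extD2 3 ⟨4, 1, 1, 5, 7, 3, 99, 100, 9, 20, 1, 8⟩ eng cd0q1 cd3q0 pd1 true true false .npn 1 0 1 rfl ndB0q1 ndB3q0 pcB1

noncomputable def f_pm_101 : ℕ → ℕ → ℕ → ℕ → Bool := onCell 536870912 536870912 0 536870912 740881858 40050571
    (rowB 3 eng mog cd0q1 cd3q0 pd1 2 true true false .npn 1 0 1 (qsf 536870912 536870912 0 536870912 1) ndB0q1 ndB3q0 pcB1 Cut.none xt_pm_101)

def k0_pm_101 : ∃ t, chk3 f_pm_101 t 2 1 1 = true :=
  ⟨(l 3), by decide +kernel⟩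

def k1_pm_101 : ∃ t, chk3 f_pm_101 t 6 1 1 = true :=
  ⟨(l 3), by decide +kernel⟩

def k2_pm_101 : ∃ t, chk3 f_pm_101 t 14 1 1 = true :=
  ⟨(b (b (l 3) (l 3)) (l 3)), by decide +kernel⟩

def k3_pm_101 : ∃ t, chk3 f_pm_101 t 15 2 1 = true :=
  ⟨(a (a (a (b (b (l 3) (l 3)) (l 3)) (b (b (b (b (l 16867440) (l 16875720)) (b (l 16886408) (l 16897752))) (b (b (l 16904808) (l 16909048)) (b (l 16912856) (l 16914776)))) (b (b (b (l 234243608007) (l 227801124663)) (b (l 221895505927) (l 197736289719))) (b (b (b (l 197199389095) (l 3)) (l 3)) (l 3))))) (b (a (b (b (l 16860544) (b (l 16851192) (l 16862216))) (b (l 16872760) (b (l 16877888) (l 16880200)))) (b (b (b (l 16807816) (l 16811640)) (b (l 16818296) (l 16827392))) (b (l 16797824) (l 16742696)))) (b (a (b (b (l 16880352) (l 16875592)) (b (l 16864688) (l 16849992))) (b (l 16763144) (b (l 16837360) (l 16824200)))) (b (b (a (b (l 16835832) (l 16819288)) (l 16738008)) (a (c (l 132238059399) (a (l 162302734839) (l 16794072))) (a (l 16773656) (l 16760464)))) (a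 (b (b (a (l 153175869383) (l 16761312)) (a (l 148344003863) (l 16743600))) (a (b (l 3010225290985389041086545967) (l 144754107254112303)) (c (l 16700976) (l 144776097507868719)))) (b (a (l 16738920) (l 16725440)) (a (l 144421023954632751) (l 16689328)))))))) (b (b (b (a (b (l 16766320) (l 16769848)) (b (l 16714792) (l 16718560))) (a (b (l 16772688) (l 16779112)) (l 16784072))) (b (a (b (l 16786768) (l 16794968)) (b (l 16726576) (l 16732760))) (a (b (l 16799384) (l 16800808)) (l 16741136)))) (b (b (a (b (l 16801976) (l 16800912)) (l 16638216)) (a (b (l 16796464) (l 16785432)) (l 16673552))) (b (a (b (a (l 16775320) (l 16751128)) (l 16686216)) (b (l 16714712) (l 16680944))) (a (b (b (l 16701720) (l 16683704)) (b (l 16665336) (l 16646856))) (b (l 16642944) (l 16605024))))))), by decide +kernel⟩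

def k4_pm_101 : ∃ t, chk3 f_pm_101 t 15 6 1 = true :=
  ⟨(b (b (a (a (l 3) (b (b (b (a (a (l 2787782940175976627798786095) (l 16673248)) (l 16673712)) (a (a (l 133848372935) (l 16691248)) (l 16670616))) (a (c (l 2662054654935830137337561135) (l 2545997776252652975625797679)) (l 16646208))) (b (a (a (l 2565340589366616166272319535) (l 144088284185362479)) (l 143934489975832623)) (a (c (l 2497640743468060249553600559) (l 2352569645114118175064260655)) (l 143860272888512559))))) (b (a (b (l 16579440) (l 16626336)) (a (l 16589912) (l 16543160))) (a (b (l 16620584) (l 16614192)) (l 16563928)))) (a (a (l 3) (a (a (l 3) (b (b (l 143931534950350895) (c (l 143867488427425839) (l 143283991196631087))) (b (l 2120455887747651770515554351) (l 2072098854962858108591620143)))) (b (b (l 143623946554802223) (a (l 143646486500524079) (l 16583232))) (b (a (l 143425415898202159) (l 16560936)) (c (l 143236299920048175) (l 142687849634447407)))))) (a (b (b (l 16590256) (a (l 16572976) (l 16557912))) (a (b (l 16550464) (l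 16529360)) (l 16548168))) (b (l 16544624) (l 16498312))))) (a (b (a (l 3) (b (a (a (l 3) (b (l 2014070415621133669376573487) (l 1975384789393214297340018735))) (b (c (l 142999423838994479) (l 142480522934861871)) (c (l 142761723125514287) (l 142279793307140143)))) (b (a (b (l 2004399009063811190997221423) (l 2420269491011146870053945391)) (b (l 142359988971814959) (l 142238424194940975))) (a (l 1898013536937512579912351791) (l 142042711087611951))))) (a (l 3) (a (l 3) (b (a (b (l 141863628093767727) (l 16464736)) (l 16445288)) (c (l 141473713728258095) (l 16394224)))))) (b (b (b (a (a (l 16509464) (l 16494088)) (l 16468312)) (a (a (l 16490296) (l 16475416)) (l 16449784))) (b (a (a (l 142235263082774575) (l 16456096)) (l 16431008)) (a (a (l 16446056) (l 16430880)) (l 16406096)))) (a (b (a (l 16412456) (l 16396448)) (a (l 16376912) (l 16359384))) (b (l 16370792) (l 16353984)))))), by decide +kernel⟩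

def k5_pm_101 : ∃ t, chk3 f_pm_101 t 15 7 1 = true :=
  ⟨(a (a (l 3) (a (l 3) (b (b (b (c (l 16387160) (l 16350960)) (l 16372280)) (b (l 16340224) (l 16334752))) (b (b (l 16333952) (l 16337560)) (b (l 16344952) (l 1)))))) (b (b (a (b (a (l 16350464) (l 16332016)) (l 16322272)) (l 16355960)) (a (b (l 16310168) (l 16303864)) (l 16267128))) (b (a (b (l 16302432) (l 16346960)) (l 16263480)) (a (b (l 16353408) (l 195453801671)) (b (l 16270952) (l 16279832)))))), by decide +kernel⟩

theorem s6_pm_101 : ∃ t, chk3 f_pm_101 t 15 3 1 = true := ex3_b k4_pm_101 k5_pm_101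

theorem s7_pm_101 : ∃ t, chk3 f_pm_101 t 15 1 1 = true := ex3_b k3_pm_101 s6_pm_101

theorem s8_pm_101 : ∃ t, chk3 f_pm_101 t 7 1 1 = true := ex3_a k2_pm_101 s7_pm_101

theorem s9_pm_101 : ∃ t, chk3 f_pm_101 t 3 1 1 = true := ex3_a k1_pm_101 s8_pm_101

theorem s10_pm_101 : ∃ t, chk3 f_pm_101 t 1 1 1 = true := ex3_a k0_pm_101 s9_pm_101

theorem c_pm_101 : CertB 536870912 536870912 0 536870912 740881858 40050571 3 eng mog cd0q1 cd3q0 pd1 true true false .npn 1 0 1
    ndB0q1 ndB3q0 pcB1 Cut.none xt_pm_101 :=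
  certB2 (fam := true) (s1 := true) (s2 := false) (a := 1) (b := 0) (c := 1) (cn := .npn) (n1 := ndB0q1) (n2 := ndB3q0) (pc := pcB1) (cut := Cut.none) (xt := xt_pm_101) (P1 := 536870912) (W1 := 536870912) (P2 := 0) (W2 := 536870912) (P3 := 740881858) (W3 := 40050571) (N0 := 3) (En := eng) (mo := mog) (C1 := cd0q1) (C2 := cd3q0) (C3 := pd1)
    rfl (fun _ => rfl) s10_pm_101

noncomputable def f_pm_102 : ℕ → ℕ → ℕ → ℕ → Bool := onCell 536870912 536870912 1073741824 536870912 740881858 40050571
    (rowB 3 eng mog cd0q1 cd3q0 pd2 1 true true false .npp 1 0 2 (qsf 536870912 536870912 0 536870912 2) ndB0q1 ndB3q0 pcB2 Cut.none Ext.none)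

def k0_pm_102 : ∃ t, chk3 f_pm_102 t 2 1 1 = true :=
  ⟨(b (b (a (b (a (b (a (b (l 16216016) (l 16210264)) (b (l 16199608) (l 16189480))) (a (l 16199816) (l 16172872))) (b (a (b (l 16197016) (l 16180344)) (b (l 16256936) (l 16188656))) (b (l 16203112) (l 16140368)))) (a (b (a (l 2) (l 16154384)) (l 2)) (b (l 16176904) (l 16113864)))) (b (a (b (a (b (a (l 16247064) (l 16278912)) (l 16221232)) (a (b (b (a (l 16322528) (l 16345624)) (l 16303960)) (l 16263224)) (b (b (b (l 16360120) (l 16367800)) (l 16346040)) (l 16300568)))) (a (l 16229384) (l 16243920))) (b (a (b (a (a (l 16387328) (l 16405464)) (a (l 16425040) (l 16441520))) (a (l 16339160) (l 16373560))) (b (a (a (l 16449944) (l 16457576)) (b (b (l 16444552) (l 16473720)) (l 16433432))) (a (l 16398904) (l 16415776)))) (a (b (a (l 16278208) (l 16314944)) (a (l 16214624) (l 16250352))) (b (l 16355088) (a (l 16286088) (l 16313496)))))) (a (b (a (l 16101872) (l 16111296)) (a (l 16072984) (l 16048168))) (b (a (l 16139528) (b (l 16241720) (l 16182416))) (a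 (l 16024608) (l 16102464)))))) (b (a (b (b (a (l 2) (l 16141512)) (l 2)) (l 2)) (b (b (a (l 16111280) (l 16107704)) (a (b (l 16129584) (b (l 16136896) (l 16140800))) (b (l 16136728) (b (l 16147888) (l 16154792))))) (a (l 16176560) (l 16171896)))) (a (l 2) (a (b (l 16173688) (l 2)) (b (l 16187744) (l 16193384)))))) (a (l 2) (b (a (l 2) (b (l 16202064) (l 2))) (l 2)))), by decide +kernel⟩

def k1_pm_102 : ∃ t, chk3 f_pm_102 t 6 2 1 = true :=
  ⟨(b (b (a (b (a (b (a (a (a (l 16454632) (l 16460112)) (b (l 16510064) (l 16473632))) (l 16539768)) (a (l 16428976) (a (l 16441552) (l 16455056)))) (b (a (l 16555304) (l 16566840)) (l 16477024))) (a (b (a (l 16380984) (l 16374200)) (l 16343760)) (b (a (a (l 16408104) (l 16421376)) (l 16444480)) (a (l 16366240) (l 16385048))))) (b (a (b (a (l 16629096) (l 16614304)) (a (l 16540424) (l 16555472))) (l 16754256)) (a (b (l 16502664) (l 16418056)) (a (l 16453112) (l 16713472))))) (a (b (a (b (l 16301280) (l 16258400)) (a (l 16311824) (b (l 16341824) (l 16309320)))) (a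 (b (l 16212720) (l 16175584)) (b (l 16269400) (l 16393464)))) (a (b (b (a (l 16355536) (l 16372952)) (a (l 16318280) (l 16328472))) (b (a (l 16290000) (l 16296584)) (l 16281040))) (b (b (l 16400984) (l 16354184)) (b (a (l 16306776) (l 16324496)) (a (l 16294040) (l 16308008))))))) (b (a (b (b (a (l 16149280) (l 16231904)) (b (a (l 16165680) (l 16221616)) (b (l 16196736) (l 16206880)))) (l 16289752)) (b (b (a (l 16279792) (l 16305144)) (a (l 16277688) (l 16329864))) (a (b (l 16296176) (l 16303176)) (b (l 16344448) (l 16349720))))) (a (a (l 16220736) (l 16252896)) (a (l 16293224) (b (l 16344088) (l 16323256)))))), by decide +kernel⟩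

def k2_pm_102 : ∃ t, chk3 f_pm_102 t 7 2 1 = true :=
  ⟨(b (b (a (b (a (b (l 16608792) (l 16556512)) (a (l 16572296) (l 16565088))) (a (l 16589848) (l 16689360))) (b (a (b (l 16585344) (l 16539768)) (b (a (l 16584064) (l 16577320)) (a (l 16544984) (l 16539488)))) (a (b (l 16504000) (l 16484840)) (b (l 16542760) (l 16490760))))) (a (b (a (b (l 16425184) (l 16389288)) (l 16654280)) (a (b (l 16357936) (l 16345592)) (b (l 16410776) (l 16404680)))) (b (a (b (l 16471680) (l 16450784)) (b (l 16461680) (l 16433320))) (a (l 16609320) (b (l 16405760) (l 16386776)))))) (a (b (b (a (b (l 16611632) (l 16490024)) (b (l 16396128) (l 16381656))) (a (b (l 16366336) (l 16369016)) (b (l 16537400) (l 16361016)))) (a (b (b (l 16368552) (l 16364768)) (l 16351848)) (b (a (l 16361296) (l 16349368)) (a (l 16353704) (l 16344856))))) (b (b (a (b (l 16400736) (l 16384488)) (b (l 16372368) (l 16357088))) (a (l 16401152) (a (l 16346192) (l 16326792)))) (a (b (b (a (l 16341200) (l 16334504)) (l 16352192)) (a (l 16333376) (l 16319176)))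 (b (a (l 16318472) (l 16302752)) (b (a (l 16304008) (l 16286608)) (l 16417632))))))), by decide +kernel⟩

def k3_pm_102 : ∃ t, chk3 f_pm_102 t 3 3 1 = true :=
  ⟨(a (b (a (b (l 16230288) (l 16241272)) (b (l 16284736) (l 16279760))) (a (l 2) (l 16335944))) (b (a (b (a (l 16320360) (b (l 16336128) (l 16319744))) (l 16309088)) (b (a (b (a (l 16328296) (l 16317784)) (l 16316728)) (b (b (l 16290504) (l 16291928)) (a (l 16302592) (l 16284192)))) (a (l 16311728) (b (l 16296728) (l 16304216))))) (a (b (l 16335016) (l 16402640)) (b (l 16341872) (l 16424480))))), by decide +kernel⟩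

theorem s4_pm_102 : ∃ t, chk3 f_pm_102 t 3 2 1 = true := ex3_a k1_pm_102 k2_pm_102

theorem s5_pm_102 : ∃ t, chk3 f_pm_102 t 3 1 1 = true := ex3_b s4_pm_102 k3_pm_102

theorem s6_pm_102 : ∃ t, chk3 f_pm_102 t 1 1 1 = true := ex3_a k0_pm_102 s5_pm_102

theorem c_pm_102 : CertB 536870912 536870912 0 536870912 740881858 40050571 3 eng mog cd0q1 cd3q0 pd2 true true false .npp 1 0 2
    ndB0q1 ndB3q0 pcB2 Cut.none Ext.none :=
  certB1 (fam := true) (s1 := true) (s2 := false) (a := 1) (b := 0) (c := 2) (cn := .npp) (n1 := ndB0q1) (n2 := ndB3q0) (pc := pcB2) (cut := Cut.none) (xt := Ext.none) (P1 := 536870912) (W1 := 536870912) (P2 := 0) (W2 := 536870912) (P3 := 740881858) (W3 := 40050571) (N0 := 3) (En := eng) (mo := mog) (C1 := cd0q1) (C2 := cd3q0) (C3 := pd2)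
    rfl (fun _ => rfl) s6_pm_102

noncomputable def f_pm_112 : ℕ → ℕ → ℕ → ℕ → Bool := onCell 536870912 536870912 1073741824 536870912 740881858 40050571
    (rowB 3 eng mog cd0q1 cd3q1 pd2 1 true true false .dn 1 1 2 (qsf 536870912 536870912 536870912 536870912 2) ndB0q1 ndB3q1 pcB2 Cut.none Ext.none)

def k0_pm_112 : ∃ t, chk3 f_pm_112 t 1 1 1 = true :=
  ⟨(b (b (a (a (b (a (b (a (b (l 16203544) (l 16198384)) (l 16170200)) (a (l 16185976) (l 16154320))) (b (l 1) (l 354367176439))) (a (b (a (l 16177112) (l 16144984)) (a (l 16173944) (l 16150832))) (b (l 16097144) (l 16114288)))) (b (l 1) (a (b (l 1) (l 285110681399)) (l 1)))) (l 1)) (a (b (a (b (b (a (l 16250304) (l 16135184)) (a (b (l 16165272) (b (l 16163352) (l 16161128))) (b (l 16143032) (l 16145720)))) (a (l 16152264) (l 16149152))) (a (b (b (l 16106216) (b (l 16121376) (b (l 16127704) (l 16131096)))) (l 16143792)) (b (l 1) (l 16144264)))) (a (a (a (l 16102776) (l 16117496)) (l 16136144)) (a (l 16406496) (l 16339712)))) (a (b (l 1) (a (l 16351664)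 (l 1))) (l 1)))) (a (a (b (a (b (a (l 16003072) (l 16035608)) (a (l 15874352) (l 15923648))) (b (l 16079192) (l 15991176))) (a (b (a (l 15724240) (l 15789016)) (a (b (l 15600712) (l 15516104)) (l 15638984))) (b (l 15880704) (l 15755072)))) (b (a (b (l 16129568) (l 16071264)) (b (l 16171160) (l 16143856))) (a (b (l 15993704) (l 15902448)) (l 16074176)))) (a (b (a (b (l 16207560) (l 16209216)) (b (l 16229672) (l 16258400))) (a (l 16189968) (l 16291752))) (b (a (b (l 1) (l 16267864)) (l 1)) (a (b (l 16320936) (l 16387176)) (b (l 16327704) (l 16423784))))))), by decide +kernel⟩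

theorem c_pm_112 : CertB 536870912 536870912 536870912 536870912 740881858 40050571 3 eng mog cd0q1 cd3q1 pd2 true true false .dn 1 1 2
    ndB0q1 ndB3q1 pcB2 Cut.none Ext.none :=
  certB1 (fam := true) (s1 := true) (s2 := false) (a := 1) (b := 1) (c := 2) (cn := .dn) (n1 := ndB0q1) (n2 := ndB3q1) (pc := pcB2) (cut := Cut.none) (xt := Ext.none) (P1 := 536870912) (W1 := 536870912) (P2 := 536870912) (W2 := 536870912) (P3 := 740881858) (W3 := 40050571) (N0 := 3) (En := eng) (mo := mog) (C1 := cd0q1) (C2 := cd3q1) (C3 := pd2)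
    rfl (fun _ => rfl) k0_pm_112

end Pool.Agent.Strip051.G.I69_7273.Tab.C.BA03

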