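import Pool.Agent.Strip051.G.I69_7273.Tab

/-! # Certificates B7 (generated) -/

set_option linter.all false
set_option maxRecDepth 100000

namespace Pool.Agent.Strip051.G.I69_7273.Tab.C.BA03

open Pool.Agent.Strip051.PB Pool.Agent.Strip051.PB.T
open Pool.Agent.Strip051.G.I69_7273.Tab

noncomputable def f_pm_113 : ℕ → ℕ → ℕ → ℕ → Bool := onCell 536870912 536870912 1610612736 536870912 740881858 40050571
    (rowB 3 eng mog cd0q1 cd3q1 pd3 1 true true false .nn 1 1 3 (qsf 536870912 536870912 536870912 536870912 3) ndB0q1 ndB3q1 pcB3 Cut.none Ext.none)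

def k0_pm_113 : ∃ t, chk3 f_pm_113 t 1 1 1 = true :=
  ⟨(a (b (b (a (a (b (a (b (l 293766523895) (l 357653967559)) (l 158475120391)) (a (l 2) (l 354432618183))) (b (a (l 15579520) (l 15670872)) (a (l 300208875143) (l 15503000)))) (a (b (l 15807752) (l 15663320)) (b (l 15991384) (l 15895928)))) (b (a (a (l 2) (b (l 354969581287) (l 2))) (a (b (l 15562904) (l 15568672)) (b (l 15831632) (l 15806248)))) (a (l 2) (a (b (l 372149844775) (l 2)) (l 15760720))))) (b (a (l 2) (b (a (l 2) (l 411341474951)) (l 2))) (l 2))) (b (b (a (a (b (l 16168664) (l 16128928)) (b (l 16343728) (l 16316312))) (a (b (l 16486608) (l 16481360)) (b (l 16568232) (l 16616896)))) (a (b (a (l 16049616) (l 16231688)) (a (l 15966840) (l 16154272))) (b (a (l 16412560) (l 16554576)) (a (l 16340360) (l 16482472))))) (b (a (b (a (b (l 15905104) (l 507979229223)) (b (l 16092312) (l 4))) (a (b (l 509052902679) (l 2)) (l 4))) (b (l 4) (l 4))) (l 4)))), by decide +kernel⟩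

theorem c_pm_113 : CertB 536870912 536870912 536870912 536870912 740881858 40050571 3 eng mog cd0q1 cd3q1 pd3 true true false .nn 1 1 3
    ndB0q1 ndB3q1 pcB3 Cut.none Ext.none :=
  certB1 (fam := true) (s1 := true) (s2 := false) (a := 1) (b := 1) (c := 3) (cn := .nn) (n1 := ndB0q1) (n2 := ndB3q1) (pc := pcB3) (cut := Cut.none) (xt := Ext.none) (P1 := 536870912) (W1 := 536870912) (P2 := 536870912) (W2 := 536870912) (P3 := 740881858) (W3 := 40050571) (N0 := 3) (En := eng) (mo := mog) (C1 := cd0q1) (C2 := cd3q1) (C3 := pd3)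
    rfl (fun _ => rfl) k0_pm_113

noncomputable def f_pm_123 : ℕ → ℕ → ℕ → ℕ → Bool := onCell 536870912 536870912 1610612736 536870912 740881858 40050571
    (rowB 3 eng mog cd0q1 cd3q2 pd3 1 true true false .npn 1 2 3 (qsf 536870912 536870912 1073741824 536870912 3) ndB0q1 ndB3q2 pcB3 Cut.none Ext.none)

def k0_pm_123 : ∃ t, chk3 f_pm_123 t 2 1 1 = true :=
  ⟨(b (b (a (a (b (a (b (l 285647718999) (a (l 16149376) (l 16140368))) (l 293700615223)) (a (b (l 16166856) (l 16192192)) (b (l 16153552) (l 16180320)))) (b (a (l 347387676711) (l 1)) (a (b (l 265783513255) (l 16173608)) (l 317323023655)))) (a (b (l 1) (a (l 360809589607) (l 1))) (l 1))) (a (b (a (a (b (l 16235552) (l 16290960)) (b (l 16211408) (l 16260328))) (b (a (l 16205240) (l 16207848)) (a (l 16241584) (l 16244256)))) (a (b (l 16329160) (l 16372872)) (b (a (l 16293920) (l 16284328)) (a (l 16355720) (l 16340464))))) (a (b (a (b (l 16221256) (l 16259944)) (l 346851165559)) (b (a (l 16300504)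 (l 16341376)) (a (l 16344352) (l 16385016)))) (b (a (l 386042875207) (l 1)) (a (b (l 16411032) (l 16431664)) (l 380137564311)))))) (b (a (b (a (b (l 16425128) (l 16491320)) (b (l 16412720) (l 16476744))) (a (b (l 16541520) (l 16575256)) (b (l 16527624) (l 16564008)))) (a (b (b (a (l 16396304) (l 16405552)) (a (l 16457832) (l 16445840))) (b (l 16505320) (l 16545400))) (b (a (b (l 16439776) (l 16452696)) (l 16479136)) (b (a (l 16486392) (l 16529768)) (a (l 16531096) (l 16516040)))))) (b (a (a (b (l 16608392) (a (l 16651344) (l 16641192))) (b (l 16594064) (l 16627168))) (a (b (l 16577816) (l 16606936)) (b (l 16562720) (l 16592496)))) (b (a (a (l 16694512) (l 16669424)) (a (b (l 16631048) (l 16648312)) (l 16620248))) (a (b (l 16730168) (b (l 16725624) (l 4))) (b (a (l 16675168) (l 16643736)) (b (a (l 16697616) (l 16665464)) (a (l 4) (b (l 16677056) (b (l 16682496) (l 4))))))))))), by decide +kernel⟩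

def k1_pm_123 : ∃ t, chk3 f_pm_123 t 3 1 1 = true :=
  ⟨(b (a (a (b (l 1) (b (l 1) (a (l 397317532359) (l 1)))) (l 1)) (l 1)) (b (a (a (b (a (b (l 16517120) (l 16531960)) (l 328598390295)) (a (b (l 16508128) (l 16512040)) (a (l 16521720) (l 16595192)))) (a (b (l 389264595015) (b (l 16565608) (l 16551064))) (b (l 1) (l 329135340823)))) (a (b (l 1) (b (l 1) (a (l 366179457927) (l 1)))) (l 1))) (b (a (a (a (b (l 16536896) (l 16573672)) (b (l 16546456) (l 16548416))) (a (b (l 16541072) (l 16539904)) (b (l 16571816) (l 16557896)))) (a (a (b (l 16607808) (a (l 16576912) (l 16596880))) (b (l 353294687991) (l 16633640))) (a (b (l 1) (l 354905427463)) (l 1)))) (a (b (a (a (l 16599312) (l 16584960)) (a (a (l 16568072) (l 16557176)) (l 16744968))) (b (a (a (l 16624656) (l 16607016)) (a (l 16593704) (l 16572600))) (b (a (l 16627904) (a (l 16609408) (l 16590336))) (a (b (l 16638864) (b (a (l 16654528) (l 16632728)) (a (l 16663504) (l 16642008)))) (b (a (l 16617064)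 (l 16601824)) (b (l 16385512) (b (a (l 16622368) (l 16610984)) (b (l 16389800) (b (l 16411552) (l 16705752)))))))))) (b (a (a (l 16620776) (b (l 16623312) (l 16620912))) (a (b (l 16657080) (l 16712288)) (a (l 348462982471) (l 1)))) (b (a (a (l 16627920) (l 16661272)) (a (b (l 16648368) (a (l 16642248) (l 16653624))) (b (l 16671296) (a (l 16664432) (l 16679072))))) (b (a (a (l 16591736) (a (l 16615112) (l 16700864))) (a (l 16880712) (l 16853432))) (a (b (a (l 16600000) (l 16627712)) (b (a (l 16604072) (l 16621608)) (b (a (l 16602560) (l 16618352)) (a (c (l 727158269463) (l 16821024)) (l 4))))) (b (a (l 16644376) (l 16646488)) (b (l 1124442780151) (l 4))))))))))), by decide +kernel⟩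

theorem s2_pm_123 : ∃ t, chk3 f_pm_123 t 1 1 1 = true := ex3_a k0_pm_123 k1_pm_123

theorem c_pm_123 : CertB 536870912 536870912 1073741824 536870912 740881858 40050571 3 eng mog cd0q1 cd3q2 pd3 true true false .npn 1 2 3
    ndB0q1 ndB3q2 pcB3 Cut.none Ext.none :=
  certB1 (fam := true) (s1 := true) (s2 := false) (a := 1) (b := 2) (c := 3) (cn := .npn) (n1 := ndB0q1) (n2 := ndB3q2) (pc := pcB3) (cut := Cut.none) (xt := Ext.none) (P1 := 536870912) (W1 := 536870912) (P2 := 1073741824) (W2 := 536870912) (P3 := 740881858) (W3 := 40050571) (N0 := 3) (En := eng) (mo := mog) (C1 := cd0q1) (C2 := cd3q2) (C3 := pd3)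
    rfl (fun _ => rfl) s2_pm_123

noncomputable def f_pm_133 : ℕ → ℕ → ℕ → ℕ → Bool := onCell 536870912 536870912 0 1230186008 740881858 40050571
    (rowB 3 eng mog cd0q1 cd3q3 pd3 0 true true false .dn 1 3 3 (qsf 536870912 536870912 0 1230186008 3) ndB0q1 ndB3q3 pcB3 Cut.none Ext.none)

def k0_pm_133 : ∃ t, chk3 f_pm_133 t 1 1 1 = true :=
  ⟨(b (l 2) (b (l 2) (a (l 4) (l 2)))), by decide +kernel⟩

theorem c_pm_133 : CertB 536870912 536870912 0 1230186008 740881858 40050571 3 eng mog cd0q1 cd3q3 pd3 true true false .dn 1 3 3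
    ndB0q1 ndB3q3 pcB3 Cut.none Ext.none :=
  certB0 (fam := true) (s1 := true) (s2 := false) (a := 1) (b := 3) (c := 3) (cn := .dn) (n1 := ndB0q1) (n2 := ndB3q3) (pc := pcB3) (cut := Cut.none) (xt := Ext.none) (P1 := 536870912) (W1 := 536870912) (P2 := 0) (W2 := 1230186008) (P3 := 740881858) (W3 := 40050571) (N0 := 3) (En := eng) (mo := mog) (C1 := cd0q1) (C2 := cd3q3) (C3 := pd3)
    rfl k0_pm_133

noncomputable def f_pm_202 : ℕ → ℕ → ℕ → ℕ → Bool := onCell 0 536870912 0 536870912 740881858 40050571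
    (rowB 3 eng mog cd0q2 cd3q0 pd2 0 true true false .pp 2 0 2 (qsf 0 536870912 0 536870912 2) ndB0q2 ndB3q0 pcB2 Cut.none Ext.none)

def k0_pm_202 : ∃ t, chk3 f_pm_202 t 2 1 1 = true :=
  ⟨(b (b (a (b (b (a (b (a (l 16386880) (l 16408856)) (l 16397824)) (b (c (a (l 16379888) (b (a (l 16378080) (l 16383512)) (l 16401392))) (a (l 16398920) (l 16466320))) (a (l 16397952) (l 16417688)))) (a (l 16433376) (a (l 16411944) (l 16410176)))) (a (b (l 16432200) (l 16451936)) (b (l 16428440) (l 16446008)))) (b (a (b (a (b (b (l 16407864) (l 16482400)) (a (l 16501328) (l 16399032))) (b (c (b (l 16419568) (l 16407368)) (l 16430872)) (c (l 16462384) (l 16417504)))) (a (b (l 16425640) (l 16411912)) (b (c (l 16398808) (l 16415760)) (l 16452896)))) (a (b (b (c (l 16435560) (l 16449256)) (b (l 16529640) (l 16502072))) (c (l 16409360) (l 16423784))) (b (b (c (l 16458032) (l 16468560)) (c (a (l 16430136) (l 16441264)) (l 16447192))) (b (c (l 16464216) (l 16434144)) (l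 16424288))))) (a (b (a (l 16423888) (l 16420168)) (l 16437040)) (b (a (b (l 16416216) (l 16421552)) (b (l 16422784) (l 16421792))) (a (l 16430280) (l 16490400)))))) (a (b (b (a (l 16470880) (l 16462832)) (a (l 16490744) (l 16479360))) (b (a (l 16515816) (l 16496072)) (a (l 4) (l 16515904)))) (b (a (b (l 16451464) (l 16465752)) (b (l 16440664) (l 16452424))) (a (b (l 16479144) (l 16492392)) (b (l 16462600) (l 16472296)))))) (a (b (b (b (a (l 4) (l 16540544)) (l 4)) (l 4)) (l 2)) (b (b (a (b (l 16508912) (l 16529128)) (b (l 16485672) (l 16501488))) (b (a (l 4) (l 16515600)) (a (l 4) (l 16525328)))) (l 4)))), by decide +kernel⟩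

def k1_pm_202 : ∃ t, chk3 f_pm_202 t 3 4 1 = true :=
  ⟨(a (b (b (a (a (b (c (l 16476528) (l 16484632)) (l 16543344)) (b (c (l 16490184) (l 16496088)) (l 16556344))) (a (b (a (l 16501384) (l 16508488)) (c (l 16480576) (l 16484296))) (b (l 16538888) (l 16574168)))) (b (a (a (c (l 16562096) (l 16445040)) (c (l 16449296) (l 16455296))) (a (l 16462312) (l 16509640))) (a (a (l 16430768) (c (l 16474384) (l 16439088))) (a (a (l 16439360) (l 16443912)) (l 16448352))))) (a (b (a (l 16447136) (l 16551304)) (a (l 16422984) (l 16419048))) (b (a (b (c (l 16425928) (l 16430064)) (l 16420136)) (b (c (l 16429560) (l 16429320)) (l 16498744))) (a (l 16412776) (l 16403984))))) (b (a (b (a (b (l 16589488) (l 16497488)) (b (a (l 16534104) (l 16540592)) (l 16508056))) (a (b (l 16490680) (l 16447376)) (b (l 16478432) (l 16450344)))) (b (a (b (a (l 16546768) (l 16554056)) (l 16603488)) (a (b (b (l 16570992) (l 16553168)) (l 16528016)) (b (l 16612168) (l 16534344)))) (a (b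 (l 16490072) (l 16460128)) (b (a (l 16496944) (l 16500664)) (l 16468504))))) (a (c (b (a (b (l 16431008) (l 16412368)) (l 16423592)) (a (l 16414264) (b (l 16396312) (l 16381672)))) (b (a (l 16564408) (l 16415384)) (a (l 16390600) (l 16443856)))) (b (a (b (l 16431592) (l 16408896)) (b (l 16438600) (l 16409752))) (a (b (l 16390776) (l 16540976)) (b (l 16386472) (l 16368528))))))), by decide +kernel⟩

def k2_pm_202 : ∃ t, chk3 f_pm_202 t 3 5 1 = true :=
  ⟨(a (b (a (b (a (l 16429040) (l 16416104)) (l 16514904)) (b (l 16505304) (a (l 16403840) (l 16388152)))) (a (b (l 16436536) (l 16442000)) (b (a (l 16406520) (l 16382464)) (l 16396184)))) (b (a (a (b (l 16376952) (l 16367544)) (b (l 16363472) (l 16350464))) (b (a (b (l 16463480) (l 16348408)) (b (a (l 16353392) (l 16350144)) (l 16526184))) (a (l 16336512) (l 16321928)))) (a (b (a (l 16358768) (l 16337984)) (l 16527560)) (b (a (l 16320360) (l 16302176)) (a (l 16305544) (l 16283800)))))), by decide +kernel⟩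

def k3_pm_202 : ∃ t, chk3 f_pm_202 t 3 3 1 = true :=
  ⟨(b (a (b (b (a (l 16453080) (l 16403504)) (a (l 16468304) (l 16417920))) (b (a (l 16482176) (l 16432568)) (a (l 16490464) (l 16444464)))) (b (a (b (a (l 16356480) (l 16327176)) (l 16355800)) (b (l 16479976) (l 16298872))) (a (b (l 16368528) (l 16382160)) (b (l 16308248) (l 16320864))))) (a (b (a (b (l 16499600) (l 2)) (b (l 16459072) (l 16478096))) (l 2)) (b (a (l 16414856) (l 16420240)) (a (l 16490440) (l 16448160))))), by decide +kernel⟩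

theorem s4_pm_202 : ∃ t, chk3 f_pm_202 t 3 2 1 = true := ex3_b k1_pm_202 k2_pm_202

theorem s5_pm_202 : ∃ t, chk3 f_pm_202 t 3 1 1 = true := ex3_b s4_pm_202 k3_pm_202

theorem s6_pm_202 : ∃ t, chk3 f_pm_202 t 1 1 1 = true := ex3_a k0_pm_202 s5_pm_202

theorem c_pm_202 : CertB 0 536870912 0 536870912 740881858 40050571 3 eng mog cd0q2 cd3q0 pd2 true true false .pp 2 0 2
    ndB0q2 ndB3q0 pcB2 Cut.none Ext.none :=
  certB0 (fam := true) (s1 := true) (s2 := false) (a := 2) (b := 0) (c := 2) (cn := .pp) (n1 := ndB0q2) (n2 := ndB3q0) (pc := pcB2) (cut := Cut.none) (xt := Ext.none) (P1 := 0) (W1 := 536870912) (P2 := 0) (W2 := 536870912) (P3 := 740881858) (W3 := 40050571) (N0 := 3) (En := eng) (mo := mog) (C1 := cd0q2) (C2 := cd3q0) (C3 := pd2)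
    rfl s6_pm_202

noncomputable def f_pm_203 : ℕ → ℕ → ℕ → ℕ → Bool := onCell 0 536870912 1610612736 536870912 740881858 40050571
    (rowB 3 eng mog cd0q2 cd3q0 pd3 1 true true false .up 2 0 3 (qsf 0 536870912 0 536870912 3) ndB0q2 ndB3q0 pcB3 Cut.none Ext.none)

def k0_pm_203 : ∃ t, chk3 f_pm_203 t 1 1 1 = true :=
  ⟨(b (a (b (l 4) (l 4)) (b (a (b (b (l 16497448) (l 16518696)) (b (l 16545456) (l 4))) (b (l 16523360) (a (l 16623096) (l 2)))) (a (l 2) (l 2)))) (l 2)), by decide +kernel⟩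

theorem c_pm_203 : CertB 0 536870912 0 536870912 740881858 40050571 3 eng mog cd0q2 cd3q0 pd3 true true false .up 2 0 3
    ndB0q2 ndB3q0 pcB3 Cut.none Ext.none :=
  certB1 (fam := true) (s1 := true) (s2 := false) (a := 2) (b := 0) (c := 3) (cn := .up) (n1 := ndB0q2) (n2 := ndB3q0) (pc := pcB3) (cut := Cut.none) (xt := Ext.none) (P1 := 0) (W1 := 536870912) (P2 := 0) (W2 := 536870912) (P3 := 740881858) (W3 := 40050571) (N0 := 3) (En := eng) (mo := mog) (C1 := cd0q2) (C2 := cd3q0) (C3 := pd3)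
    rfl (fun _ => rfl) k0_pm_203

noncomputable def f_pm_213 : ℕ → ℕ → ℕ → ℕ → Bool := onCell 0 536870912 1610612736 536870912 740881858 40050571
    (rowB 3 eng mog cd0q2 cd3q1 pd3 1 true true false .pnn 2 1 3 (qsf 0 536870912 536870912 536870912 3) ndB0q2 ndB3q1 pcB3 Cut.none Ext.none)

def k0_pm_213 : ∃ t, chk3 f_pm_213 t 1 1 1 = true :=
  ⟨(b (a (b (l 4) (l 4)) (b (a (b (l 1) (l 323766129639)) (b (l 16526088) (a (l 16584624) (l 16642000)))) (a (l 4) (b (a (l 4) (l 16591728)) (l 4))))) (l 4)), by decide +kernel⟩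

theorem c_pm_213 : CertB 0 536870912 536870912 536870912 740881858 40050571 3 eng mog cd0q2 cd3q1 pd3 true true false .pnn 2 1 3
    ndB0q2 ndB3q1 pcB3 Cut.none Ext.none :=
  certB1 (fam := true) (s1 := true) (s2 := false) (a := 2) (b := 1) (c := 3) (cn := .pnn) (n1 := ndB0q2) (n2 := ndB3q1) (pc := pcB3) (cut := Cut.none) (xt := Ext.none) (P1 := 0) (W1 := 536870912) (P2 := 536870912) (W2 := 536870912) (P3 := 740881858) (W3 := 40050571) (N0 := 3) (En := eng) (mo := mog) (C1 := cd0q2) (C2 := cd3q1) (C3 := pd3)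
    rfl (fun _ => rfl) k0_pm_213

noncomputable def f_mm_001 : ℕ → ℕ → ℕ → ℕ → Bool := onCell 0 536870912 0 536870912 740881858 40050571
    (rowB 3 eng mog cd0q0 cd3q0 pd1 0 true false false .up 0 0 1 (qsf 0 536870912 0 536870912 1) ndB0q0 ndB3q0 pcB1 Cut.none Ext.none)

def k0_mm_001 : ∃ t, chk3 f_mm_001 t 1 1 1 = true :=
  ⟨(l 4), by decide +kernel⟩

theorem c_mm_001 : CertB 0 536870912 0 536870912 740881858 40050571 3 eng mog cd0q0 cd3q0 pd1 true false false .up 0 0 1
    ndB0q0 ndB3q0 pcB1 Cut.none Ext.none :=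
  certB0 (fam := true) (s1 := false) (s2 := false) (a := 0) (b := 0) (c := 1) (cn := .up) (n1 := ndB0q0) (n2 := ndB3q0) (pc := pcB1) (cut := Cut.none) (xt := Ext.none) (P1 := 0) (W1 := 536870912) (P2 := 0) (W2 := 536870912) (P3 := 740881858) (W3 := 40050571) (N0 := 3) (En := eng) (mo := mog) (C1 := cd0q0) (C2 := cd3q0) (C3 := pd1)
    rfl k0_mm_001

noncomputable def f_mm_011 : ℕ → ℕ → ℕ → ℕ → Bool := onCell 0 536870912 536870912 536870912 740881858 40050571
    (rowB 3 eng mog cd0q0 cd3q1 pd1 0 true false false .pnn 0 1 1 (qsf 0 536870912 536870912 536870912 1) ndB0q0 ndB3q1 pcB1 Cut.none Ext.none)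

def k0_mm_011 : ∃ t, chk3 f_mm_011 t 1 1 1 = true :=
  ⟨(l 4), by decide +kernel⟩

theorem c_mm_011 : CertB 0 536870912 536870912 536870912 740881858 40050571 3 eng mog cd0q0 cd3q1 pd1 true false false .pnn 0 1 1
    ndB0q0 ndB3q1 pcB1 Cut.none Ext.none :=
  certB0 (fam := true) (s1 := false) (s2 := false) (a := 0) (b := 1) (c := 1) (cn := .pnn) (n1 := ndB0q0) (n2 := ndB3q1) (pc := pcB1) (cut := Cut.none) (xt := Ext.none) (P1 := 0) (W1 := 536870912) (P2 := 536870912) (W2 := 536870912) (P3 := 740881858) (W3 := 40050571) (N0 := 3) (En := eng) (mo := mog) (C1 := cd0q0) (C2 := cd3q1) (C3 := pd1)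
    rfl k0_mm_011

noncomputable def f_mm_012 : ℕ → ℕ → ℕ → ℕ → Bool := onCell 0 536870912 536870912 536870912 740881858 40050571
    (rowB 3 eng mog cd0q0 cd3q1 pd2 0 true false false .pnp 0 1 2 (qsf 0 536870912 536870912 536870912 2) ndB0q0 ndB3q1 pcB2 Cut.none Ext.none)

def k0_mm_012 : ∃ t, chk3 f_mm_012 t 1 1 1 = true :=
  ⟨(l 4), by decide +kernel⟩

theorem c_mm_012 : CertB 0 536870912 536870912 536870912 740881858 40050571 3 eng mog cd0q0 cd3q1 pd2 true false false .pnp 0 1 2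
    ndB0q0 ndB3q1 pcB2 Cut.none Ext.none :=
  certB0 (fam := true) (s1 := false) (s2 := false) (a := 0) (b := 1) (c := 2) (cn := .pnp) (n1 := ndB0q0) (n2 := ndB3q1) (pc := pcB2) (cut := Cut.none) (xt := Ext.none) (P1 := 0) (W1 := 536870912) (P2 := 536870912) (W2 := 536870912) (P3 := 740881858) (W3 := 40050571) (N0 := 3) (En := eng) (mo := mog) (C1 := cd0q0) (C2 := cd3q1) (C3 := pd2)
    rfl k0_mm_012

noncomputable def f_mm_022 : ℕ → ℕ → ℕ → ℕ → Bool := onCell 0 536870912 1073741824 536870912 740881858 40050571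
    (rowB 3 eng mog cd0q0 cd3q2 pd2 0 true false false .pp 0 2 2 (qsf 0 536870912 1073741824 536870912 2) ndB0q0 ndB3q2 pcB2 Cut.none Ext.none)

def k0_mm_022 : ∃ t, chk3 f_mm_022 t 1 1 1 = true :=
  ⟨(l 4), by decide +kernel⟩

theorem c_mm_022 : CertB 0 536870912 1073741824 536870912 740881858 40050571 3 eng mog cd0q0 cd3q2 pd2 true false false .pp 0 2 2
    ndB0q0 ndB3q2 pcB2 Cut.none Ext.none :=
  certB0 (fam := true) (s1 := false) (s2 := false) (a := 0) (b := 2) (c := 2) (cn := .pp) (n1 := ndB0q0) (n2 := ndB3q2) (pc := pcB2) (cut := Cut.none) (xt := Ext.none) (P1 := 0) (W1 := 536870912) (P2 := 1073741824) (W2 := 536870912) (P3 := 740881858) (W3 := 40050571) (N0 := 3) (En := eng) (mo := mog) (C1 := cd0q0) (C2 := cd3q2) (C3 := pd2)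
    rfl k0_mm_022

noncomputable def f_mm_023 : ℕ → ℕ → ℕ → ℕ → Bool := onCell 0 536870912 1073741824 536870912 740881858 40050571
    (rowB 3 eng mog cd0q0 cd3q2 pd3 0 true false false .up 0 2 3 (qsf 0 536870912 1073741824 536870912 3) ndB0q0 ndB3q2 pcB3 Cut.none Ext.none)

def k0_mm_023 : ∃ t, chk3 f_mm_023 t 1 1 1 = true :=
  ⟨(l 4), by decide +kernel⟩

theorem c_mm_023 : CertB 0 536870912 1073741824 536870912 740881858 40050571 3 eng mog cd0q0 cd3q2 pd3 true false false .up 0 2 3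
    ndB0q0 ndB3q2 pcB3 Cut.none Ext.none :=
  certB0 (fam := true) (s1 := false) (s2 := false) (a := 0) (b := 2) (c := 3) (cn := .up) (n1 := ndB0q0) (n2 := ndB3q2) (pc := pcB3) (cut := Cut.none) (xt := Ext.none) (P1 := 0) (W1 := 536870912) (P2 := 1073741824) (W2 := 536870912) (P3 := 740881858) (W3 := 40050571) (N0 := 3) (En := eng) (mo := mog) (C1 := cd0q0) (C2 := cd3q2) (C3 := pd3)
    rfl k0_mm_023

noncomputable def f_mm_033 : ℕ → ℕ → ℕ → ℕ → Bool := onCell 0 536870912 0 1230186008 740881858 40050571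
    (rowB 3 eng mog cd0q0 cd3q3 pd3 0 true false false .pnn 0 3 3 (qsf 0 536870912 0 1230186008 3) ndB0q0 ndB3q3 pcB3 Cut.none Ext.none)

def k0_mm_033 : ∃ t, chk3 f_mm_033 t 1 1 1 = true :=
  ⟨(l 5), by decide +kernel⟩

theorem c_mm_033 : CertB 0 536870912 0 1230186008 740881858 40050571 3 eng mog cd0q0 cd3q3 pd3 true false false .pnn 0 3 3
    ndB0q0 ndB3q3 pcB3 Cut.none Ext.none :=
  certB0 (fam := true) (s1 := false) (s2 := false) (a := 0) (b := 3) (c := 3) (cn := .pnn) (n1 := ndB0q0) (n2 := ndB3q3) (pc := pcB3) (cut := Cut.none) (xt := Ext.none) (P1 := 0) (W1 := 536870912) (P2 := 0) (W2 := 1230186008) (P3 := 740881858) (W3 := 40050571) (N0 := 3) (En := eng) (mo := mog) (C1 := cd0q0) (C2 := cd3q3) (C3 := pd3)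
    rfl k0_mm_033

noncomputable def f_mm_101 : ℕ → ℕ → ℕ → ℕ → Bool := onCell 536870912 536870912 0 536870912 740881858 40050571
    (rowB 3 eng mog cd0q1 cd3q0 pd1 0 true false false .npn 1 0 1 (qsf 536870912 536870912 0 536870912 1) ndB0q1 ndB3q0 pcB1 Cut.none Ext.none)

def k0_mm_101 : ∃ t, chk3 f_mm_101 t 1 1 1 = true :=
  ⟨(l 4), by decide +kernel⟩

theorem c_mm_101 : CertB 536870912 536870912 0 536870912 740881858 40050571 3 eng mog cd0q1 cd3q0 pd1 true false false .npn 1 0 1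
    ndB0q1 ndB3q0 pcB1 Cut.none Ext.none :=
  certB0 (fam := true) (s1 := false) (s2 := false) (a := 1) (b := 0) (c := 1) (cn := .npn) (n1 := ndB0q1) (n2 := ndB3q0) (pc := pcB1) (cut := Cut.none) (xt := Ext.none) (P1 := 536870912) (W1 := 536870912) (P2 := 0) (W2 := 536870912) (P3 := 740881858) (W3 := 40050571) (N0 := 3) (En := eng) (mo := mog) (C1 := cd0q1) (C2 := cd3q0) (C3 := pd1)
    rfl k0_mm_101

noncomputable def f_mm_102 : ℕ → ℕ → ℕ → ℕ → Bool := onCell 536870912 536870912 0 536870912 740881858 40050571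
    (rowB 3 eng mog cd0q1 cd3q0 pd2 0 true false false .npp 1 0 2 (qsf 536870912 536870912 0 536870912 2) ndB0q1 ndB3q0 pcB2 Cut.none Ext.none)

def k0_mm_102 : ∃ t, chk3 f_mm_102 t 1 1 1 = true :=
  ⟨(l 4), by decide +kernel⟩

theorem c_mm_102 : CertB 536870912 536870912 0 536870912 740881858 40050571 3 eng mog cd0q1 cd3q0 pd2 true false false .npp 1 0 2
    ndB0q1 ndB3q0 pcB2 Cut.none Ext.none :=
  certB0 (fam := true) (s1 := false) (s2 := false) (a := 1) (b := 0) (c := 2) (cn := .npp) (n1 := ndB0q1) (n2 := ndB3q0) (pc := pcB2) (cut := Cut.none) (xt := Ext.none) (P1 := 536870912) (W1 := 536870912) (P2 := 0) (W2 := 536870912) (P3 := 740881858) (W3 := 40050571) (N0 := 3) (En := eng) (mo := mog) (C1 := cd0q1) (C2 := cd3q0) (C3 := pd2)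
    rfl k0_mm_102

noncomputable def f_mm_112 : ℕ → ℕ → ℕ → ℕ → Bool := onCell 536870912 536870912 536870912 536870912 740881858 40050571
    (rowB 3 eng mog cd0q1 cd3q1 pd2 0 true false false .dn 1 1 2 (qsf 536870912 536870912 536870912 536870912 2) ndB0q1 ndB3q1 pcB2 Cut.none Ext.none)

def k0_mm_112 : ∃ t, chk3 f_mm_112 t 1 1 1 = true :=
  ⟨(l 4), by decide +kernel⟩

theorem c_mm_112 : CertB 536870912 536870912 536870912 536870912 740881858 40050571 3 eng mog cd0q1 cd3q1 pd2 true false false .dn 1 1 2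
    ndB0q1 ndB3q1 pcB2 Cut.none Ext.none :=
  certB0 (fam := true) (s1 := false) (s2 := false) (a := 1) (b := 1) (c := 2) (cn := .dn) (n1 := ndB0q1) (n2 := ndB3q1) (pc := pcB2) (cut := Cut.none) (xt := Ext.none) (P1 := 536870912) (W1 := 536870912) (P2 := 536870912) (W2 := 536870912) (P3 := 740881858) (W3 := 40050571) (N0 := 3) (En := eng) (mo := mog) (C1 := cd0q1) (C2 := cd3q1) (C3 := pd2)
    rfl k0_mm_112

noncomputable def f_mm_113 : ℕ → ℕ → ℕ → ℕ → Bool := onCell 536870912 536870912 536870912 536870912 740881858 40050571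
    (rowB 3 eng mog cd0q1 cd3q1 pd3 0 true false false .nn 1 1 3 (qsf 536870912 536870912 536870912 536870912 3) ndB0q1 ndB3q1 pcB3 Cut.none Ext.none)

def k0_mm_113 : ∃ t, chk3 f_mm_113 t 1 1 1 = true :=
  ⟨(l 4), by decide +kernel⟩

theorem c_mm_113 : CertB 536870912 536870912 536870912 536870912 740881858 40050571 3 eng mog cd0q1 cd3q1 pd3 true false false .nn 1 1 3
    ndB0q1 ndB3q1 pcB3 Cut.none Ext.none :=
  certB0 (fam := true) (s1 := false) (s2 := false) (a := 1) (b := 1) (c := 3) (cn := .nn) (n1 := ndB0q1) (n2 := ndB3q1) (pc := pcB3) (cut := Cut.none) (xt := Ext.none) (P1 := 536870912) (W1 := 536870912) (P2 := 536870912) (W2 := 536870912) (P3 := 740881858) (W3 := 40050571) (N0 := 3) (En := eng) (mo := mog) (C1 := cd0q1) (C2 := cd3q1) (C3 := pd3)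
    rfl k0_mm_113

noncomputable def f_mm_123 : ℕ → ℕ → ℕ → ℕ → Bool := onCell 536870912 536870912 1073741824 536870912 740881858 40050571
    (rowB 3 eng mog cd0q1 cd3q2 pd3 0 true false false .npn 1 2 3 (qsf 536870912 536870912 1073741824 536870912 3) ndB0q1 ndB3q2 pcB3 Cut.none Ext.none)

def k0_mm_123 : ∃ t, chk3 f_mm_123 t 1 1 1 = true :=
  ⟨(l 4), by decide +kernel⟩

theorem c_mm_123 : CertB 536870912 536870912 1073741824 536870912 740881858 40050571 3 eng mog cd0q1 cd3q2 pd3 true false false .npn 1 2 3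
    ndB0q1 ndB3q2 pcB3 Cut.none Ext.none :=
  certB0 (fam := true) (s1 := false) (s2 := false) (a := 1) (b := 2) (c := 3) (cn := .npn) (n1 := ndB0q1) (n2 := ndB3q2) (pc := pcB3) (cut := Cut.none) (xt := Ext.none) (P1 := 536870912) (W1 := 536870912) (P2 := 1073741824) (W2 := 536870912) (P3 := 740881858) (W3 := 40050571) (N0 := 3) (En := eng) (mo := mog) (C1 := cd0q1) (C2 := cd3q2) (C3 := pd3)
    rfl k0_mm_123

noncomputable def f_mm_133 : ℕ → ℕ → ℕ → ℕ → Bool := onCell 536870912 536870912 0 1230186008 740881858 40050571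
    (rowB 3 eng mog cd0q1 cd3q3 pd3 0 true false false .dn 1 3 3 (qsf 536870912 536870912 0 1230186008 3) ndB0q1 ndB3q3 pcB3 Cut.none Ext.none)

def k0_mm_133 : ∃ t, chk3 f_mm_133 t 1 1 1 = true :=
  ⟨(l 4), by decide +kernel⟩

theorem c_mm_133 : CertB 536870912 536870912 0 1230186008 740881858 40050571 3 eng mog cd0q1 cd3q3 pd3 true false false .dn 1 3 3
    ndB0q1 ndB3q3 pcB3 Cut.none Ext.none :=
  certB0 (fam := true) (s1 := false) (s2 := false) (a := 1) (b := 3) (c := 3) (cn := .dn) (n1 := ndB0q1) (n2 := ndB3q3) (pc := pcB3) (cut := Cut.none) (xt := Ext.none) (P1 := 536870912) (W1 := 536870912) (P2 := 0) (W2 := 1230186008) (P3 := 740881858) (W3 := 40050571) (N0 := 3) (En := eng) (mo := mog) (C1 := cd0q1) (C2 := cd3q3) (C3 := pd3)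
    rfl k0_mm_133

noncomputable def f_mm_202 : ℕ → ℕ → ℕ → ℕ → Bool := onCell 0 536870912 0 536870912 740881858 40050571
    (rowB 3 eng mog cd0q2 cd3q0 pd2 0 true false false .pp 2 0 2 (qsf 0 536870912 0 536870912 2) ndB0q2 ndB3q0 pcB2 Cut.none Ext.none)

def k0_mm_202 : ∃ t, chk3 f_mm_202 t 1 1 1 = true :=
  ⟨(a (b (b (b (a (b (a (b (a (l 16386552) (l 16386792)) (l 16396640)) (b (l 16623168) (l 16401640))) (a (l 16412064) (l 16417736))) (b (a (b (a (l 16402488) (l 16411720)) (l 16456232)) (b (l 16468680) (a (l 16427096) (l 16437768)))) (a (l 16451064) (b (a (l 16437120) (l 16451760)) (l 16461472))))) (a (b (a (l 16433912) (l 16440832)) (a (l 16455816) (l 16470344))) (a (b (l 16565952) (l 4)) (l 4)))) (a (b (b (a (l 16479584) (l 16503952)) (l 16524472)) (l 4)) (l 4))) (l 4)) (b (b (a (b (b (a (b (a (l 16445280) (l 16469144)) (a (l 16457008) (l 4))) (l 4)) (l 4)) (l 4)) (l 4)) (l 4)) (l 4))), by decide +kernel⟩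

theorem c_mm_202 : CertB 0 536870912 0 536870912 740881858 40050571 3 eng mog cd0q2 cd3q0 pd2 true false false .pp 2 0 2
    ndB0q2 ndB3q0 pcB2 Cut.none Ext.none :=
  certB0 (fam := true) (s1 := false) (s2 := false) (a := 2) (b := 0) (c := 2) (cn := .pp) (n1 := ndB0q2) (n2 := ndB3q0) (pc := pcB2) (cut := Cut.none) (xt := Ext.none) (P1 := 0) (W1 := 536870912) (P2 := 0) (W2 := 536870912) (P3 := 740881858) (W3 := 40050571) (N0 := 3) (En := eng) (mo := mog) (C1 := cd0q2) (C2 := cd3q0) (C3 := pd2)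
    rfl k0_mm_202

noncomputable def f_mm_203 : ℕ → ℕ → ℕ → ℕ → Bool := onCell 0 536870912 1610612736 536870912 740881858 40050571
    (rowB 3 eng mog cd0q2 cd3q0 pd3 1 true false false .up 2 0 3 (qsf 0 536870912 0 536870912 3) ndB0q2 ndB3q0 pcB3 Cut.none Ext.none)

def k0_mm_203 : ∃ t, chk3 f_mm_203 t 1 1 1 = true :=
  ⟨(l 4), by decide +kernel⟩

theorem c_mm_203 : CertB 0 536870912 0 536870912 740881858 40050571 3 eng mog cd0q2 cd3q0 pd3 true false false .up 2 0 3
    ndB0q2 ndB3q0 pcB3 Cut.none Ext.none :=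
  certB1 (fam := true) (s1 := false) (s2 := false) (a := 2) (b := 0) (c := 3) (cn := .up) (n1 := ndB0q2) (n2 := ndB3q0) (pc := pcB3) (cut := Cut.none) (xt := Ext.none) (P1 := 0) (W1 := 536870912) (P2 := 0) (W2 := 536870912) (P3 := 740881858) (W3 := 40050571) (N0 := 3) (En := eng) (mo := mog) (C1 := cd0q2) (C2 := cd3q0) (C3 := pd3)
    rfl (fun _ => rfl) k0_mm_203

noncomputable def f_mm_213 : ℕ → ℕ → ℕ → ℕ → Bool := onCell 0 536870912 536870912 536870912 740881858 40050571
    (rowB 3 eng mog cd0q2 cd3q1 pd3 0 true false false .pnn 2 1 3 (qsf 0 536870912 536870912 536870912 3) ndB0q2 ndB3q1 pcB3 Cut.none Ext.none)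

def k0_mm_213 : ∃ t, chk3 f_mm_213 t 1 1 1 = true :=
  ⟨(l 4), by decide +kernel⟩

theorem c_mm_213 : CertB 0 536870912 536870912 536870912 740881858 40050571 3 eng mog cd0q2 cd3q1 pd3 true false false .pnn 2 1 3
    ndB0q2 ndB3q1 pcB3 Cut.none Ext.none :=
  certB0 (fam := true) (s1 := false) (s2 := false) (a := 2) (b := 1) (c := 3) (cn := .pnn) (n1 := ndB0q2) (n2 := ndB3q1) (pc := pcB3) (cut := Cut.none) (xt := Ext.none) (P1 := 0) (W1 := 536870912) (P2 := 536870912) (W2 := 536870912) (P3 := 740881858) (W3 := 40050571) (N0 := 3) (En := eng) (mo := mog) (C1 := cd0q2) (C2 := cd3q1) (C3 := pd3)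
    rfl k0_mm_213

end Pool.Agent.Strip051.G.I69_7273.Tab.C.BA03

namespace Pool.Agent.Strip051.G.I69_7273.Tab.C.BA04

open Pool.Agent.Strip051.PB Pool.Agent.Strip051.PB.T
open Pool.Agent.Strip051.G.I69_7273.Tab

noncomputable def f_pp_001 : ℕ → ℕ → ℕ → ℕ → Bool := onCell 0 536870912 0 536870912 740881858 40050571
    (rowB 3 eng mog cd0q0 cd4q0 pd1 0 true true true .up 0 0 1 (qsf 0 536870912 0 536870912 1) ndB0q0 ndB4q0 pcB1 Cut.none Ext.none)

def k0_pp_001 : ∃ t, chk3 f_pp_001 t 1 1 1 = true :=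
  ⟨(l 4), by decide +kernel⟩

theorem c_pp_001 : CertB 0 536870912 0 536870912 740881858 40050571 3 eng mog cd0q0 cd4q0 pd1 true true true .up 0 0 1
    ndB0q0 ndB4q0 pcB1 Cut.none Ext.none :=
  certB0 (fam := true) (s1 := true) (s2 := true) (a := 0) (b := 0) (c := 1) (cn := .up) (n1 := ndB0q0) (n2 := ndB4q0) (pc := pcB1) (cut := Cut.none) (xt := Ext.none) (P1 := 0) (W1 := 536870912) (P2 := 0) (W2 := 536870912) (P3 := 740881858) (W3 := 40050571) (N0 := 3) (En := eng) (mo := mog) (C1 := cd0q0) (C2 := cd4q0) (C3 := pd1)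
    rfl k0_pp_001

noncomputable def f_pp_011 : ℕ → ℕ → ℕ → ℕ → Bool := onCell 0 536870912 536870912 536870912 740881858 40050571
    (rowB 3 eng mog cd0q0 cd4q1 pd1 0 true true true .pnn 0 1 1 (qsf 0 536870912 536870912 536870912 1) ndB0q0 ndB4q1 pcB1 Cut.none Ext.none)

def k0_pp_011 : ∃ t, chk3 f_pp_011 t 1 1 1 = true :=
  ⟨(l 4), by decide +kernel⟩

theorem c_pp_011 : CertB 0 536870912 536870912 536870912 740881858 40050571 3 eng mog cd0q0 cd4q1 pd1 true true true .pnn 0 1 1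
    ndB0q0 ndB4q1 pcB1 Cut.none Ext.none :=
  certB0 (fam := true) (s1 := true) (s2 := true) (a := 0) (b := 1) (c := 1) (cn := .pnn) (n1 := ndB0q0) (n2 := ndB4q1) (pc := pcB1) (cut := Cut.none) (xt := Ext.none) (P1 := 0) (W1 := 536870912) (P2 := 536870912) (W2 := 536870912) (P3 := 740881858) (W3 := 40050571) (N0 := 3) (En := eng) (mo := mog) (C1 := cd0q0) (C2 := cd4q1) (C3 := pd1)
    rfl k0_pp_011

noncomputable def f_pp_012 : ℕ → ℕ → ℕ → ℕ → Bool := onCell 0 536870912 536870912 536870912 740881858 40050571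
    (rowB 3 eng mog cd0q0 cd4q1 pd2 0 true true true .pnp 0 1 2 (qsf 0 536870912 536870912 536870912 2) ndB0q0 ndB4q1 pcB2 Cut.none Ext.none)

def k0_pp_012 : ∃ t, chk3 f_pp_012 t 1 1 1 = true :=
  ⟨(l 4), by decide +kernel⟩

theorem c_pp_012 : CertB 0 536870912 536870912 536870912 740881858 40050571 3 eng mog cd0q0 cd4q1 pd2 true true true .pnp 0 1 2
    ndB0q0 ndB4q1 pcB2 Cut.none Ext.none :=
  certB0 (fam := true) (s1 := true) (s2 := true) (a := 0) (b := 1) (c := 2) (cn := .pnp) (n1 := ndB0q0) (n2 := ndB4q1) (pc := pcB2) (cut := Cut.none) (xt := Ext.none) (P1 := 0) (W1 := 536870912) (P2 := 536870912) (W2 := 536870912) (P3 := 740881858) (W3 := 40050571) (N0 := 3) (En := eng) (mo := mog) (C1 := cd0q0) (C2 := cd4q1) (C3 := pd2)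
    rfl k0_pp_012

noncomputable def f_pp_022 : ℕ → ℕ → ℕ → ℕ → Bool := onCell 0 536870912 1073741824 536870912 740881858 40050571
    (rowB 3 eng mog cd0q0 cd4q2 pd2 0 true true true .pp 0 2 2 (qsf 0 536870912 1073741824 536870912 2) ndB0q0 ndB4q2 pcB2 Cut.none Ext.none)

def k0_pp_022 : ∃ t, chk3 f_pp_022 t 1 1 1 = true :=
  ⟨(l 4), by decide +kernel⟩

theorem c_pp_022 : CertB 0 536870912 1073741824 536870912 740881858 40050571 3 eng mog cd0q0 cd4q2 pd2 true true true .pp 0 2 2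
    ndB0q0 ndB4q2 pcB2 Cut.none Ext.none :=
  certB0 (fam := true) (s1 := true) (s2 := true) (a := 0) (b := 2) (c := 2) (cn := .pp) (n1 := ndB0q0) (n2 := ndB4q2) (pc := pcB2) (cut := Cut.none) (xt := Ext.none) (P1 := 0) (W1 := 536870912) (P2 := 1073741824) (W2 := 536870912) (P3 := 740881858) (W3 := 40050571) (N0 := 3) (En := eng) (mo := mog) (C1 := cd0q0) (C2 := cd4q2) (C3 := pd2)
    rfl k0_pp_022

noncomputable def f_pp_023 : ℕ → ℕ → ℕ → ℕ → Bool := onCell 0 536870912 1073741824 536870912 740881858 40050571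
    (rowB 3 eng mog cd0q0 cd4q2 pd3 0 true true true .up 0 2 3 (qsf 0 536870912 1073741824 536870912 3) ndB0q0 ndB4q2 pcB3 Cut.none Ext.none)

def k0_pp_023 : ∃ t, chk3 f_pp_023 t 1 1 1 = true :=
  ⟨(l 4), by decide +kernel⟩

theorem c_pp_023 : CertB 0 536870912 1073741824 536870912 740881858 40050571 3 eng mog cd0q0 cd4q2 pd3 true true true .up 0 2 3
    ndB0q0 ndB4q2 pcB3 Cut.none Ext.none :=
  certB0 (fam := true) (s1 := true) (s2 := true) (a := 0) (b := 2) (c := 3) (cn := .up) (n1 := ndB0q0) (n2 := ndB4q2) (pc := pcB3) (cut := Cut.none) (xt := Ext.none) (P1 := 0) (W1 := 536870912) (P2 := 1073741824) (W2 := 536870912) (P3 := 740881858) (W3 := 40050571) (N0 := 3) (En := eng) (mo := mog) (C1 := cd0q0) (C2 := cd4q2) (C3 := pd3)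
    rfl k0_pp_023

noncomputable def f_pp_033 : ℕ → ℕ → ℕ → ℕ → Bool := onCell 0 536870912 0 1230186008 740881858 40050571
    (rowB 3 eng mog cd0q0 cd4q3 pd3 0 true true true .pnn 0 3 3 (qsf 0 536870912 0 1230186008 3) ndB0q0 ndB4q3 pcB3 Cut.none Ext.none)

def k0_pp_033 : ∃ t, chk3 f_pp_033 t 1 1 1 = true :=
  ⟨(b (l 4) (l 4)), by decide +kernel⟩

theorem c_pp_033 : CertB 0 536870912 0 1230186008 740881858 40050571 3 eng mog cd0q0 cd4q3 pd3 true true true .pnn 0 3 3
    ndB0q0 ndB4q3 pcB3 Cut.none Ext.none :=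
  certB0 (fam := true) (s1 := true) (s2 := true) (a := 0) (b := 3) (c := 3) (cn := .pnn) (n1 := ndB0q0) (n2 := ndB4q3) (pc := pcB3) (cut := Cut.none) (xt := Ext.none) (P1 := 0) (W1 := 536870912) (P2 := 0) (W2 := 1230186008) (P3 := 740881858) (W3 := 40050571) (N0 := 3) (En := eng) (mo := mog) (C1 := cd0q0) (C2 := cd4q3) (C3 := pd3)
    rfl k0_pp_033

noncomputable def f_pp_101 : ℕ → ℕ → ℕ → ℕ → Bool := onCell 536870912 536870912 0 536870912 740881858 40050571
    (rowB 3 eng mog cd0q1 cd4q0 pd1 0 true true true .npn 1 0 1 (qsf 536870912 536870912 0 536870912 1) ndB0q1 ndB4q0 pcB1 Cut.none Ext.none)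

def k0_pp_101 : ∃ t, chk3 f_pp_101 t 1 1 1 = true :=
  ⟨(l 4), by decide +kernel⟩

theorem c_pp_101 : CertB 536870912 536870912 0 536870912 740881858 40050571 3 eng mog cd0q1 cd4q0 pd1 true true true .npn 1 0 1
    ndB0q1 ndB4q0 pcB1 Cut.none Ext.none :=
  certB0 (fam := true) (s1 := true) (s2 := true) (a := 1) (b := 0) (c := 1) (cn := .npn) (n1 := ndB0q1) (n2 := ndB4q0) (pc := pcB1) (cut := Cut.none) (xt := Ext.none) (P1 := 536870912) (W1 := 536870912) (P2 := 0) (W2 := 536870912) (P3 := 740881858) (W3 := 40050571) (N0 := 3) (En := eng) (mo := mog) (C1 := cd0q1) (C2 := cd4q0) (C3 := pd1)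
    rfl k0_pp_101

noncomputable def f_pp_102 : ℕ → ℕ → ℕ → ℕ → Bool := onCell 536870912 536870912 0 536870912 740881858 40050571
    (rowB 3 eng mog cd0q1 cd4q0 pd2 0 true true true .npp 1 0 2 (qsf 536870912 536870912 0 536870912 2) ndB0q1 ndB4q0 pcB2 Cut.none Ext.none)

def k0_pp_102 : ∃ t, chk3 f_pp_102 t 1 1 1 = true :=
  ⟨(l 4), by decide +kernel⟩

theorem c_pp_102 : CertB 536870912 536870912 0 536870912 740881858 40050571 3 eng mog cd0q1 cd4q0 pd2 true true true .npp 1 0 2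
    ndB0q1 ndB4q0 pcB2 Cut.none Ext.none :=
  certB0 (fam := true) (s1 := true) (s2 := true) (a := 1) (b := 0) (c := 2) (cn := .npp) (n1 := ndB0q1) (n2 := ndB4q0) (pc := pcB2) (cut := Cut.none) (xt := Ext.none) (P1 := 536870912) (W1 := 536870912) (P2 := 0) (W2 := 536870912) (P3 := 740881858) (W3 := 40050571) (N0 := 3) (En := eng) (mo := mog) (C1 := cd0q1) (C2 := cd4q0) (C3 := pd2)
    rfl k0_pp_102

noncomputable def f_pp_112 : ℕ → ℕ → ℕ → ℕ → Bool := onCell 536870912 536870912 536870912 536870912 740881858 40050571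
    (rowB 3 eng mog cd0q1 cd4q1 pd2 0 true true true .dn 1 1 2 (qsf 536870912 536870912 536870912 536870912 2) ndB0q1 ndB4q1 pcB2 Cut.none Ext.none)

def k0_pp_112 : ∃ t, chk3 f_pp_112 t 1 1 1 = true :=
  ⟨(l 4), by decide +kernel⟩

theorem c_pp_112 : CertB 536870912 536870912 536870912 536870912 740881858 40050571 3 eng mog cd0q1 cd4q1 pd2 true true true .dn 1 1 2
    ndB0q1 ndB4q1 pcB2 Cut.none Ext.none :=
  certB0 (fam := true) (s1 := true) (s2 := true) (a := 1) (b := 1) (c := 2) (cn := .dn) (n1 := ndB0q1) (n2 := ndB4q1) (pc := pcB2) (cut := Cut.none) (xt := Ext.none) (P1 := 536870912) (W1 := 536870912) (P2 := 536870912) (W2 := 536870912) (P3 := 740881858) (W3 := 40050571) (N0 := 3) (En := eng) (mo := mog) (C1 := cd0q1) (C2 := cd4q1) (C3 := pd2)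
    rfl k0_pp_112

noncomputable def f_pp_113 : ℕ → ℕ → ℕ → ℕ → Bool := onCell 536870912 536870912 536870912 536870912 740881858 40050571
    (rowB 3 eng mog cd0q1 cd4q1 pd3 0 true true true .nn 1 1 3 (qsf 536870912 536870912 536870912 536870912 3) ndB0q1 ndB4q1 pcB3 Cut.none Ext.none)

def k0_pp_113 : ∃ t, chk3 f_pp_113 t 1 1 1 = true :=
  ⟨(l 4), by decide +kernel⟩

theorem c_pp_113 : CertB 536870912 536870912 536870912 536870912 740881858 40050571 3 eng mog cd0q1 cd4q1 pd3 true true true .nn 1 1 3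
    ndB0q1 ndB4q1 pcB3 Cut.none Ext.none :=
  certB0 (fam := true) (s1 := true) (s2 := true) (a := 1) (b := 1) (c := 3) (cn := .nn) (n1 := ndB0q1) (n2 := ndB4q1) (pc := pcB3) (cut := Cut.none) (xt := Ext.none) (P1 := 536870912) (W1 := 536870912) (P2 := 536870912) (W2 := 536870912) (P3 := 740881858) (W3 := 40050571) (N0 := 3) (En := eng) (mo := mog) (C1 := cd0q1) (C2 := cd4q1) (C3 := pd3)
    rfl k0_pp_113

noncomputable def f_pp_123 : ℕ → ℕ → ℕ → ℕ → Bool := onCell 536870912 536870912 1073741824 536870912 740881858 40050571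
    (rowB 3 eng mog cd0q1 cd4q2 pd3 0 true true true .npn 1 2 3 (qsf 536870912 536870912 1073741824 536870912 3) ndB0q1 ndB4q2 pcB3 Cut.none Ext.none)

def k0_pp_123 : ∃ t, chk3 f_pp_123 t 1 1 1 = true :=
  ⟨(l 4), by decide +kernel⟩

theorem c_pp_123 : CertB 536870912 536870912 1073741824 536870912 740881858 40050571 3 eng mog cd0q1 cd4q2 pd3 true true true .npn 1 2 3
    ndB0q1 ndB4q2 pcB3 Cut.none Ext.none :=
  certB0 (fam := true) (s1 := true) (s2 := true) (a := 1) (b := 2) (c := 3) (cn := .npn) (n1 := ndB0q1) (n2 := ndB4q2) (pc := pcB3) (cut := Cut.none) (xt := Ext.none) (P1 := 536870912) (W1 := 536870912) (P2 := 1073741824) (W2 := 536870912) (P3 := 740881858) (W3 := 40050571) (N0 := 3) (En := eng) (mo := mog) (C1 := cd0q1) (C2 := cd4q2) (C3 := pd3)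
    rfl k0_pp_123

noncomputable def f_pp_133 : ℕ → ℕ → ℕ → ℕ → Bool := onCell 536870912 536870912 0 1230186008 740881858 40050571
    (rowB 3 eng mog cd0q1 cd4q3 pd3 0 true true true .dn 1 3 3 (qsf 536870912 536870912 0 1230186008 3) ndB0q1 ndB4q3 pcB3 Cut.none Ext.none)

def k0_pp_133 : ∃ t, chk3 f_pp_133 t 1 1 1 = true :=
  ⟨(l 4), by decide +kernel⟩

theorem c_pp_133 : CertB 536870912 536870912 0 1230186008 740881858 40050571 3 eng mog cd0q1 cd4q3 pd3 true true true .dn 1 3 3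
    ndB0q1 ndB4q3 pcB3 Cut.none Ext.none :=
  certB0 (fam := true) (s1 := true) (s2 := true) (a := 1) (b := 3) (c := 3) (cn := .dn) (n1 := ndB0q1) (n2 := ndB4q3) (pc := pcB3) (cut := Cut.none) (xt := Ext.none) (P1 := 536870912) (W1 := 536870912) (P2 := 0) (W2 := 1230186008) (P3 := 740881858) (W3 := 40050571) (N0 := 3) (En := eng) (mo := mog) (C1 := cd0q1) (C2 := cd4q3) (C3 := pd3)
    rfl k0_pp_133

noncomputable def f_pp_202 : ℕ → ℕ → ℕ → ℕ → Bool := onCell 0 536870912 0 536870912 740881858 40050571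
    (rowB 3 eng mog cd0q2 cd4q0 pd2 0 true true true .pp 2 0 2 (qsf 0 536870912 0 536870912 2) ndB0q2 ndB4q0 pcB2 Cut.none Ext.none)

def k0_pp_202 : ∃ t, chk3 f_pp_202 t 1 1 1 = true :=
  ⟨(l 5), by decide +kernel⟩

theorem c_pp_202 : CertB 0 536870912 0 536870912 740881858 40050571 3 eng mog cd0q2 cd4q0 pd2 true true true .pp 2 0 2
    ndB0q2 ndB4q0 pcB2 Cut.none Ext.none :=
  certB0 (fam := true) (s1 := true) (s2 := true) (a := 2) (b := 0) (c := 2) (cn := .pp) (n1 := ndB0q2) (n2 := ndB4q0) (pc := pcB2) (cut := Cut.none) (xt := Ext.none) (P1 := 0) (W1 := 536870912) (P2 := 0) (W2 := 536870912) (P3 := 740881858) (W3 := 40050571) (N0 := 3) (En := eng) (mo := mog) (C1 := cd0q2) (C2 := cd4q0) (C3 := pd2)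
    rfl k0_pp_202

noncomputable def f_pp_203 : ℕ → ℕ → ℕ → ℕ → Bool := onCell 0 536870912 0 536870912 740881858 40050571
    (rowB 3 eng mog cd0q2 cd4q0 pd3 0 true true true .up 2 0 3 (qsf 0 536870912 0 536870912 3) ndB0q2 ndB4q0 pcB3 Cut.none Ext.none)

def k0_pp_203 : ∃ t, chk3 f_pp_203 t 1 1 1 = true :=
  ⟨(l 5), by decide +kernel⟩

theorem c_pp_203 : CertB 0 536870912 0 536870912 740881858 40050571 3 eng mog cd0q2 cd4q0 pd3 true true true .up 2 0 3
    ndB0q2 ndB4q0 pcB3 Cut.none Ext.none :=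
  certB0 (fam := true) (s1 := true) (s2 := true) (a := 2) (b := 0) (c := 3) (cn := .up) (n1 := ndB0q2) (n2 := ndB4q0) (pc := pcB3) (cut := Cut.none) (xt := Ext.none) (P1 := 0) (W1 := 536870912) (P2 := 0) (W2 := 536870912) (P3 := 740881858) (W3 := 40050571) (N0 := 3) (En := eng) (mo := mog) (C1 := cd0q2) (C2 := cd4q0) (C3 := pd3)
    rfl k0_pp_203

noncomputable def f_pp_213 : ℕ → ℕ → ℕ → ℕ → Bool := onCell 0 536870912 536870912 536870912 740881858 40050571
    (rowB 3 eng mog cd0q2 cd4q1 pd3 0 true true true .pnn 2 1 3 (qsf 0 536870912 536870912 536870912 3) ndB0q2 ndB4q1 pcB3 Cut.none Ext.none)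

def k0_pp_213 : ∃ t, chk3 f_pp_213 t 1 1 1 = true :=
  ⟨(l 4), by decide +kernel⟩

theorem c_pp_213 : CertB 0 536870912 536870912 536870912 740881858 40050571 3 eng mog cd0q2 cd4q1 pd3 true true true .pnn 2 1 3
    ndB0q2 ndB4q1 pcB3 Cut.none Ext.none :=
  certB0 (fam := true) (s1 := true) (s2 := true) (a := 2) (b := 1) (c := 3) (cn := .pnn) (n1 := ndB0q2) (n2 := ndB4q1) (pc := pcB3) (cut := Cut.none) (xt := Ext.none) (P1 := 0) (W1 := 536870912) (P2 := 536870912) (W2 := 536870912) (P3 := 740881858) (W3 := 40050571) (N0 := 3) (En := eng) (mo := mog) (C1 := cd0q2) (C2 := cd4q1) (C3 := pd3)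
    rfl k0_pp_213

noncomputable def f_pm_001 : ℕ → ℕ → ℕ → ℕ → Bool := onCell 0 536870912 536870912 536870912 740881858 40050571
    (rowB 3 eng mog cd0q0 cd4q0 pd1 1 true true false .up 0 0 1 (qsf 0 536870912 0 536870912 1) ndB0q0 ndB4q0 pcB1 Cut.none Ext.none)

def k0_pm_001 : ∃ t, chk3 f_pm_001 t 1 1 1 = true :=
  ⟨(b (l 3) (a (b (l 3) (l 2)) (b (a (l 3) (b (l 3) (a (l 3) (b (l 3) (a (l 3) (b (l 3) (l 125258329239))))))) (a (b (b (b (l 3) (l 2)) (l 2)) (l 2)) (b (a (b (a (b (l 3) (a (b (l 3) (l 2)) (c (l 18957852487) (l 16518416)))) (b (a (l 3) (l 134385109831)) (a (l 16548464) (l 16489352)))) (a (a (l 2) (b (l 90831353015) (l 2))) (b (a (l 16468416) (l 16451232)) (l 65061494455)))) (b (a (b (a (l 16512160) (l 16496944)) (l 16505840)) (b (a (l 16483072) (l 16471632)) (l 16432832))) (a (b (l 16424864) (l 16389992)) (b (l 16390920) (l 16354000))))) (a (a (l 2) (b (b (l 16437624) (l 2)) (l 2))) (b (a (b (l 16360728) (l 16335176)) (l 16372944)) (a (l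 16300328) (l 16263616))))))))), by decide +kernel⟩

theorem c_pm_001 : CertB 0 536870912 0 536870912 740881858 40050571 3 eng mog cd0q0 cd4q0 pd1 true true false .up 0 0 1
    ndB0q0 ndB4q0 pcB1 Cut.none Ext.none :=
  certB1 (fam := true) (s1 := true) (s2 := false) (a := 0) (b := 0) (c := 1) (cn := .up) (n1 := ndB0q0) (n2 := ndB4q0) (pc := pcB1) (cut := Cut.none) (xt := Ext.none) (P1 := 0) (W1 := 536870912) (P2 := 0) (W2 := 536870912) (P3 := 740881858) (W3 := 40050571) (N0 := 3) (En := eng) (mo := mog) (C1 := cd0q0) (C2 := cd4q0) (C3 := pd1)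
    rfl (fun _ => rfl) k0_pm_001

noncomputable def cut_pm_011 : Cut := Cut.of [[⟨0, 0, 0, 67108864⟩, ⟨1, 1, 0, 67108864⟩, ⟨2, 1, 0, 67108864⟩]]

noncomputable def f_pm_011 : ℕ → ℕ → ℕ → ℕ → Bool := onCell 0 536870912 536870912 536870912 740881858 40050571
    (rowB 3 eng mog cd0q0 cd4q1 pd1 1 true true false .pnn 0 1 1 (qsf 0 536870912 536870912 536870912 1) ndB0q0 ndB4q1 pcB1 cut_pm_011 Ext.none)

def k0_pm_011 : ∃ t, chk3 f_pm_011 t 1 2 1 = true :=
  ⟨(l 3), by decide +kernel⟩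

def k1_pm_011 : ∃ t, chk3 f_pm_011 t 2 6 1 = true :=
  ⟨(l 3), by decide +kernel⟩

def k2_pm_011 : ∃ t, chk3 f_pm_011 t 4 14 1 = true :=
  ⟨(l 3), by decide +kernel⟩

def k3_pm_011 : ∃ t, chk3 f_pm_011 t 8 15 1 = true :=
  ⟨(b (l 3) (a (b (l 3) (l 6)) (a (b (l 3) (b (b (b (l 3) (l 6)) (l 6)) (l 6))) (b (b (l 3) (a (l 3) (b (l 3) (b (l 3) (a (l 3) (a (l 3) (a (l 3) (l 68887167575)))))))) (b (b (a (b (a (l 3) (a (l 3) (a (l 3) (l 64592212871)))) (b (a (c (l 46875484375) (l 47412353431)) (a (l 90898887623) (l 16737912))) (a (a (l 6) (l 16740944)) (l 16737384)))) (a (a (b (c (l 71034663911) (l 72108403431)) (l 16734688)) (b (c (l 88751399159) (l 89825138791)) (l 16732328))) (b (b (a (l 95730713223) (l 16734416)) (l 16731280)) (l 16728768)))) (a (b (a (c (l 16740024) (l 16739112)) (l 16734880)) (a (l 6) (l 16731560))) (b (a (l 16730176) (l 16725440)) (l 16724496)))) (b (a (c (l 16739736) (l 16739136)) (l 16730040)) (a (l 6) (l 16713040)))))))), by decide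 +kernel⟩

def k4_pm_011 : ∃ t, chk3 f_pm_011 t 9 30 1 = true :=
  ⟨(a (l 3) (b (l 3) (a (l 3) (b (l 3) (a (l 3) (b (l 3) (a (l 3) (c (l 88751318087) (l 98414990775))))))))), by decide +kernel⟩

def k5_pm_011 : ∃ t, chk3 f_pm_011 t 18 62 1 = true :=
  ⟨(a (b (l 3) (b (a (l 3) (b (l 3) (a (l 3) (c (l 61907826327) (b (l 3) (l 69960887527)))))) (a (b (a (l 3) (c (l 58686613191) (b (l 3) (l 65129061975)))) (b (a (c (l 61370974535) (l 62444713863)) (a (l 98951926007) (l 106468113543))) (a (a (l 97878190551) (l 104320636183)) (l 16728376)))) (a (b (a (c (l 79624573799) (l 82308925415)) (b (l 75866468839) (l 109689332535))) (c (l 16721848) (l 16720448))) (b (a (b (l 101636267943) (l 16720064)) (b (l 111836809767) (l 16717656))) (l 16716344)))))) (b (a (l 3) (b (l 3) (b (l 3) (a (l 3) (c (l 66739644967) (b (l 3) (l 76940183991))))))) (b (a (b (a (l 3) (a (l 3) (b (l 3) (l 79624546087)))) (a (a (b (l 3) (l 102709998087)) (b (l 78550810519) (l 112910545303)))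 (c (b (l 84456389399) (l 16713424)) (b (a (l 103783737847) (l 16712248)) (l 16711760))))) (a (b (a (c (l 84993257895) (l 88214477191)) (b (l 81772023255) (l 130627272679))) (c (l 16709520) (l 16707816))) (b (c (b (l 105931213479) (l 16707392)) (b (l 107541822679) (l 16705584))) (l 16703944)))) (a (a (b (c (l 16715656) (l 16714104)) (l 16711520)) (b (l 16710056) (l 16706704))) (a (l 16714096) (l 16698896)))))), by decide +kernel⟩

def k6_pm_011 : ∃ t, chk3 f_pm_011 t 19 62 1 = true :=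
  ⟨(a (b (b (a (l 3) (a (l 3) (b (l 3) (c (l 98415005751) (l 102709969015))))) (a (b (a (l 3) (c (l 84456373175) (l 86603852983))) (a (c (l 93046308023) (b (l 83919499863) (l 112910525655))) (c (l 117205491447) (b (l 113984261495) (l 16699696))))) (b (a (c (l 92509428071) (b (l 108615550327) (l 114521126759))) (c (l 16697056) (l 123111056103))) (a (c (l 16697984) (l 16696032)) (l 16692584))))) (b (a (a (b (a (l 16703832) (l 16701528)) (l 16699304)) (a (l 16697552) (l 16695288))) (b (l 16701880) (l 16688024))) (a (l 16702448) (l 16683000)))) (b (b (a (a (b (l 3) (c (l 93583158919) (l 98414993063))) (b (l 105394314423) (l 121500434359))) (b (a (l 97341242647) (l 16686016)) (a (l 16686640) (l 16682592)))) (a (a (b (l 16691640) (l 16688256)) (l 16685712)) (l 16690024))) (a (b (l 16681072) (l 16674384)) (l 16690456)))), by decide +kernel⟩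

def k7_pm_011 : ∃ t, chk3 f_pm_011 t 9 63 1 = true :=
  ⟨(a (a (b (b (a (a (b (a (l 16728552) (l 16726168)) (l 16724016)) (b (l 16722584) (l 16719248))) (a (l 16726616) (l 16711328))) (a (l 16727144) (l 16707096))) (b (a (l 16710080) (l 16700536)) (a (l 16703584) (l 16694056)))) (b (b (a (l 16714584) (l 16694560)) (a (l 16697472) (l 16687952))) (b (l 16707128) (l 16700672)))) (a (a (b (l 16702952) (l 16668936)) (b (l 16673040) (l 16660048))) (b (a (l 16664472) (l 16656312)) (l 16668408)))), by decide +kernel⟩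

def k8_pm_011 : ∃ t, chk3 f_pm_011 t 5 14 1 = true :=
  ⟨(a (l 3) (b (l 3) (a (l 3) (b (l 3) (a (l 3) (a (l 3) (a (l 3) (b (l 3) (l 67813215479))))))))), by decide +kernel⟩

def k9_pm_011 : ∃ t, chk3 f_pm_011 t 10 15 1 = true :=
  ⟨(b (a (b (l 3) (a (b (l 3) (a (b (l 3) (c (b (l 87677569191) (l 97341238583)) (b (l 101636208711) (l 101636201943)))) (b (a (l 3) (l 75866398983)) (a (l 104857421735) (l 16686192))))) (b (a (l 3) (a (l 3) (b (l 3) (l 67276453623)))) (b (a (a (l 78013883287) (l 91435647927)) (a (l 105394283063) (l 16677248))) (a (a (l 16671856) (l 16668040)) (l 16662368)))))) (b (a (l 3) (a (l 3) (a (l 3) (b (l 3) (b (l 3) (l 69423898343)))))) (a (b (b (a (l 3) (c (a (l 3) (l 71571398583)) (l 67276437063))) (a (c (b (l 71034539895) (l 16677232)) (l 98414950119)) (c (b (l 74255748935) (l 16658640)) (l 80698197783)))) (a (b (c (l 16661832) (l 16660120)) (l 16654704)) (b (l 16653072) (l 16646888)))) (b (b (a (c (b (l 69423907607) (l 84993157175))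 (l 89825001399)) (a (l 101636147639) (l 119352877527))) (a (c (l 16652072) (l 16650408)) (l 16642928))) (a (b (l 16645024) (l 16638896)) (l 16633736)))))) (b (a (a (b (a (b (a (l 16680328) (l 16676472)) (l 16671664)) (b (l 16670888) (l 16664216))) (a (l 16661680) (l 16654312))) (b (a (b (l 16663584) (l 16657160)) (l 16674000)) (a (l 16647424) (l 16640632)))) (a (b (a (l 16645456) (l 16637720)) (a (l 16633368) (l 16625768))) (b (a (l 16629808) (l 16621696)) (l 16613992)))) (a (a (b (l 16665888) (l 16611272)) (b (l 16599920) (l 16619048))) (a (l 16624984) (l 16597064))))), by decide +kernel⟩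

def k10_pm_011 : ∃ t, chk3 f_pm_011 t 11 15 1 = true :=
  ⟨(b (a (b (a (b (l 3) (a (b (l 3) (a (l 79087566023) (l 91972458871))) (b (c (l 71571368631) (l 92509330391)) (c (l 108615446039) (l 16637304))))) (b (a (l 3) (b (l 3) (l 74255685527))) (a (b (c (l 75866318151) (l 16655960)) (l 16650224)) (b (l 85529979911) (l 16620184))))) (a (b (a (b (c (l 16641520) (l 16639776)) (l 16634448)) (b (l 16631904) (l 16625760))) (a (l 16625312) (l 16616672))) (b (a (l 16640872) (l 16610848)) (l 16624280)))) (b (a (a (b (b (l 3) (l 71034461943)) (b (l 16617560) (l 16611096))) (b (b (l 62981393383) (l 16615184)) (l 16605192))) (b (c (b (l 72645053143) (l 16602744)) (l 73718794951)) (l 16612488))) (b (a (l 16618224) (l 16579096)) (a (l 16585256) (l 16567176))))) (b (a (a (a (l 16607488) (l 16598960)) (l 16606704)) (a (l 16567816) (l 16549896))) (a (c (l 16591872) (l 16591368)) (l 16534664)))), by decide +kernel⟩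

def k11_pm_011 : ∃ t, chk3 f_pm_011 t 3 3 1 = true :=
  ⟨(b (a (l 3) (a (l 3) (l 1))) (a (b (a (b (l 3) (b (a (l 3) (a (l 3) (b (l 3) (l 16599336)))) (a (a (b (l 3) (c (a (l 58149530071) (l 16618960)) (l 56002048823))) (b (a (l 3) (l 16615152)) (a (l 16608024) (l 16577576)))) (a (b (a (l 16584360) (l 16574616)) (l 16563408)) (b (l 16581208) (l 16544488)))))) (b (a (l 3) (b (l 3) (a (l 3) (l 16554296)))) (a (b (a (b (l 3) (l 16580200)) (c (l 16593776) (l 16569880))) (a (b (l 16541504) (l 16525760)) (l 16536216))) (b (a (l 16553664) (l 16515256)) (a (l 16497536) (l 16480064)))))) (a (b (a (b (b (a (c (l 16608776) (l 16585032)) (l 16588888)) (a (l 16573200) (l 16554752))) (a (b (l 16560864) (l 16549032)) (l 16536544))) (b (a (b (l 16549136) (l 16536024)) (l 16565448)) (a (l 16517912) (l 16498944)))) (a (b (l 16554384) (l 16498024)) (a (l 16526672) (l 16486760)))) (b (a (b (a (l 16504656) (l 16486160)) (l 16470400)) (b (l 16480200) (l 16433504))) (a (b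 (l 16447472) (l 16426544)) (l 16398720))))) (b (a (b (a (b (l 3) (a (l 16557864) (l 16540336))) (b (l 1) (a (l 16501752) (l 1)))) (a (b (a (l 16497960) (l 16480568)) (l 16495936)) (b (l 16496240) (l 16419008)))) (b (l 1) (a (b (l 1) (l 16383128)) (l 1)))) (a (b (a (a (l 16482360) (l 16443768)) (b (l 16388936) (l 16362520))) (a (l 16362432) (l 16326872))) (b (a (l 16402552) (l 16343944)) (a (l 16291192) (l 16254304))))))), by decide +kernel⟩

theorem s12_pm_011 : ∃ t, chk3 f_pm_011 t 5 15 1 = true := ex3_a k9_pm_011 k10_pm_011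

theorem s13_pm_011 : ∃ t, chk3 f_pm_011 t 5 7 1 = true := ex3_b k8_pm_011 s12_pm_011

theorem s14_pm_011 : ∃ t, chk3 f_pm_011 t 9 62 1 = true := ex3_a k5_pm_011 k6_pm_011

theorem s15_pm_011 : ∃ t, chk3 f_pm_011 t 9 31 1 = true := ex3_b s14_pm_011 k7_pm_011

theorem s16_pm_011 : ∃ t, chk3 f_pm_011 t 9 15 1 = true := ex3_b k4_pm_011 s15_pm_011

theorem s17_pm_011 : ∃ t, chk3 f_pm_011 t 4 15 1 = true := ex3_a k3_pm_011 s16_pm_011

theorem s18_pm_011 : ∃ t, chk3 f_pm_011 t 4 7 1 = true := ex3_b k2_pm_011 s17_pm_011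

theorem s19_pm_011 : ∃ t, chk3 f_pm_011 t 2 7 1 = true := ex3_a s18_pm_011 s13_pm_011

theorem s20_pm_011 : ∃ t, chk3 f_pm_011 t 2 3 1 = true := ex3_b k1_pm_011 s19_pm_011

theorem s21_pm_011 : ∃ t, chk3 f_pm_011 t 1 3 1 = true := ex3_a s20_pm_011 k11_pm_011

theorem s22_pm_011 : ∃ t, chk3 f_pm_011 t 1 1 1 = true := ex3_b k0_pm_011 s21_pm_011

theorem c_pm_011 : CertB 0 536870912 536870912 536870912 740881858 40050571 3 eng mog cd0q0 cd4q1 pd1 true true false .pnn 0 1 1
    ndB0q0 ndB4q1 pcB1 cut_pm_011 Ext.none :=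
  certB1 (fam := true) (s1 := true) (s2 := false) (a := 0) (b := 1) (c := 1) (cn := .pnn) (n1 := ndB0q0) (n2 := ndB4q1) (pc := pcB1) (cut := cut_pm_011) (xt := Ext.none) (P1 := 0) (W1 := 536870912) (P2 := 536870912) (W2 := 536870912) (P3 := 740881858) (W3 := 40050571) (N0 := 3) (En := eng) (mo := mog) (C1 := cd0q0) (C2 := cd4q1) (C3 := pd1)
    rfl (fun _ => rfl) s22_pm_011

noncomputable def cut_pm_012 : Cut := Cut.of [[⟨0, 0, 0, 67108864⟩, ⟨1, 1, 0, 67108864⟩, ⟨2, 1, 0, 67108864⟩]]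

noncomputable def f_pm_012 : ℕ → ℕ → ℕ → ℕ → Bool := onCell 1073741824 536870912 536870912 536870912 740881858 40050571
    (rowB 3 eng mog cd0q0 cd4q1 pd2 2 true true false .pnp 0 1 2 (qsf 0 536870912 536870912 536870912 2) ndB0q0 ndB4q1 pcB2 cut_pm_012 Ext.none)

def k0_pm_012 : ∃ t, chk3 f_pm_012 t 4 2 1 = true :=
  ⟨(b (a (b (a (b (a (l 16118648) (l 16092640)) (a (l 16204632) (l 16137512))) (b (l 16091384) (l 16137168))) (a (b (a (l 16206032) (l 16181464)) (a (l 16248952) (l 16224608))) (b (l 16202544) (l 16183464)))) (b (a (b (l 2) (l 16034128)) (l 2)) (a (a (l 16222408) (l 16114048)) (b (l 16042168) (l 16080480))))) (a (b (b (a (a (b (l 16281560) (l 16303656)) (l 16267912)) (l 16268560)) (a (a (l 16337816) (l 16312640)) (l 16332968))) (a (a (b (l 16383912) (b (l 16417024) (l 16438304))) (b (l 16358408) (l 16402080))) (b (a (l 16325832) (l 16288888)) (a (l 16359936) (l 16319928))))) (b (a (b (l 16168360) (l 16205368)) (b (l 16115272) (l 16146224)))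 (a (b (l 16237576) (a (l 16177312) (l 16287856))) (a (c (l 16389440) (l 16365736)) (b (l 16159096) (l 16179016))))))), by decide +kernel⟩

def k1_pm_012 : ∃ t, chk3 f_pm_012 t 8 6 1 = true :=
  ⟨(b (a (b (a (b (l 16459128) (l 16479928)) (l 16439984)) (a (b (l 16500856) (l 16531776)) (l 16496952))) (c (b (l 16435024) (a (l 16427632) (l 16358352))) (b (l 16390688) (a (l 16424640) (l 16374496))))) (a (b (a (a (b (l 16545944) (l 16563536)) (l 16545144)) (l 16553088)) (a (a (b (b (l 16575568) (l 16583288)) (a (l 16597488) (l 16593120))) (b (l 16570496) (l 16586080))) (b (l 16539064) (l 16559064)))) (b (a (b (l 16448696) (l 16464152)) (a (l 16416848) (l 16391408))) (a (b (l 16480480) (l 16497536)) (a (l 16446232) (l 16418128)))))), by decide +kernel⟩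

def k2_pm_012 : ∃ t, chk3 f_pm_012 t 8 7 1 = true :=
  ⟨(b (a (a (b (a (b (a (l 16615456) (l 16610376)) (a (l 16635296) (l 16629768))) (b (l 16581680) (l 16621320))) (b (a (a (l 16677672) (l 16650760)) (l 16641736)) (a (a (b (l 16673296) (l 16684408)) (b (l 16667304) (l 16678424))) (l 16663488)))) (b (a (l 16643512) (l 16571048)) (b (l 16610168) (a (l 16638200) (l 16564744))))) (b (a (a (l 16539600) (a (l 16537024) (l 16492632))) (a (a (l 16466776) (l 16470016)) (l 16488416))) (a (b (a (l 16563024) (l 16531640)) (a (l 16575304) (l 16544064))) (a (b (l 16499944) (l 16512904)) (b (l 16468680) (l 16481776)))))) (a (b (a (a (b (a (b (l 16695408) (l 6)) (l 16694920)) (l 6)) (b (l 16681816) (b (l 16690328) (l 6)))) (a (b (l 16649128) (b (l 16656776) (l 16661848))) (b (b (l 16614512) (l 16619328)) (b (l 16623936) (l 16628496))))) (a (l 6) (b (a (l 6) (b (l 16653960) (l 6))) (l 6)))) (b (a (b (a (l 16585288) (l 16554072)) (a (b (l 16591800) (l 16595848)) (l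 16583080))) (b (a (l 16522992) (l 16492056)) (a (l 16530784) (a (l 16507632) (l 16492216))))) (a (b (a (b (l 16599840) (l 16616880)) (b (l 16567400) (l 16570840))) (b (a (l 6) (b (l 16573376) (l 6))) (l 6))) (b (a (b (l 16535656) (l 16538616)) (b (l 16525432) (a (l 16514912) (l 16499280)))) (a (b (l 16562488) (b (l 16564608) (l 6))) (b (a (l 16517440) (l 16501608)) (a (l 16546136) (c (l 16509632) (l 16497920)))))))))), by decide +kernel⟩

def k3_pm_012 : ∃ t, chk3 f_pm_012 t 9 6 1 = true :=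
  ⟨(b (a (b (a (l 16326880) (l 16266464)) (a (l 16371656) (l 16284904))) (a (b (l 16249144) (l 16241880)) (b (l 16193000) (l 16202824)))) (a (b (a (l 16374152) (l 16324448)) (a (a (l 16390336) (l 16362832)) (b (l 16318440) (l 16327616)))) (b (a (l 16319136) (l 16211304)) (a (l 16335288) (l 16222400))))), by decide +kernel⟩

def k4_pm_012 : ∃ t, chk3 f_pm_012 t 9 7 1 = true :=
  ⟨(b (b (a (a (a (l 16436744) (l 16385136)) (b (l 16336720) (l 16345904))) (a (a (l 16299744) (l 16294048)) (b (l 16230496) (l 16234776)))) (a (a (b (a (l 16436240) (l 16403112)) (a (l 16448840) (l 16415240))) (b (l 16355744) (a (l 16382216) (l 16349904)))) (a (a (l 16377736) (b (l 16282184) (l 16288848))) (b (l 16238952) (l 16243152))))) (b (a (a (b (a (l 16459456) (l 16425576)) (a (a (l 16475824) (l 16458560)) (l 16433040))) (b (a (l 16391952) (l 16359296)) (a (l 16399632) (l 16366840)))) (a (b (a (l 16327224) (l 16295816)) (a (l 16334304) (a (l 16310600) (l 16294800)))) (b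 (l 16331832) (a (l 16269760) (l 16236432))))) (a (a (b (a (a (b (l 16480224) (l 16482584)) (l 16484888)) (b (l 16436992) (l 16438960))) (a (b (a (l 16484680) (l 16466720)) (a (c (l 16492848) (l 16480168)) (c (l 16475160) (l 16461216)))) (b (c (l 16447984) (l 16432576)) (a (c (l 16457880) (l 16442680)) (c (l 16440904) (l 16424456)))))) (c (b (a (l 16412800) (l 16381072)) (b (a (l 16415120) (l 16383168)) (a (b (l 16415880) (l 16416240)) (l 16404880)))) (b (a (l 16395560) (l 16361432)) (a (b (l 16397264) (l 16408240)) (b (l 16362904) (l 16363184)))))) (a (b (a (b (l 16338360) (l 16340000)) (a (l 16315536) (l 16299800))) (a (b (l 16361952) (c (l 16352664) (l 16329560))) (a (b (l 16317272) (l 16317616)) (b (l 16301584) (c (l 16314640) (l 16288648)))))) (b (a (b (l 16273448) (l 16275352)) (b (l 16239704) (l 16241448))) (a (b (l 16276408) (c (l 16289912) (l 16263032))) (b (l 16242688) (l 16306000)))))))), by decide +kernel⟩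

def k5_pm_012 : ∃ t, chk3 f_pm_012 t 5 2 1 = true :=
  ⟨(a (b (b (l 2) (a (a (b (l 2) (l 16068600)) (l 2)) (l 2))) (a (a (b (l 16337216) (b (l 16136496) (l 16151472))) (a (b (l 16096832) (l 16126592)) (b (a (l 16092216) (l 16173136)) (a (l 16117864) (l 16111968))))) (b (b (l 16068320) (l 16078104)) (b (l 16084464) (l 16088056))))) (b (l 2) (b (a (b (l 2) (l 16050760)) (l 2)) (a (b (l 16049464) (l 16044752)) (b (l 16020360) (l 16009032)))))), by decide +kernel⟩

def k6_pm_012 : ∃ t, chk3 f_pm_012 t 5 6 1 = true :=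
  ⟨(a (a (a (b (b (l 16161688) (l 16166608)) (b (l 16168768) (l 16174560))) (a (b (b (l 16138824) (l 16140712)) (b (l 16139592) (l 16140648))) (b (a (l 16128688) (b (l 16120024) (l 16120216))) (a (b (l 16125328) (l 16124152)) (b (l 16116080) (l 16113656)))))) (b (b (l 16088224) (l 16084432)) (b (a (l 16093768) (l 16059520)) (a (l 16088016) (l 16049792))))) (b (a (b (l 16037424) (l 16026744)) (b (l 15993928) (l 15976504))) (a (b (l 16012728) (a (l 16014144) (l 15980616))) (b (l 15956160) (l 15935072))))), by decide +kernel⟩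

def k7_pm_012 : ∃ t, chk3 f_pm_012 t 10 7 1 = true :=
  ⟨(a (a (b (b (l 16180608) (b (l 16183352) (l 16184920))) (b (b (l 16228472) (a (l 16204288) (l 16173240))) (b (a (b (l 16206568) (l 16208112)) (l 16175024)) (a (b (l 16209216) (l 16230792)) (b (l 16176400) (c (l 16191296) (l 16162040))))))) (b (a (b (l 16142912) (b (l 16144040) (l 16143808))) (b (a (l 16125040) (a (l 16116384) (l 16110704))) (a (l 16124840) (a (l 16115664) (l 16109696))))) (a (b (b (l 16143528) (l 16143456)) (b (l 16185920) (b (l 16144488) (c (l 16159544) (l 16129792))))) (b (a (b (l 16123104) (l 16122120)) (a (b (l 16113552) (l 16112184)) (b (l 16107392) (l 16105792)))) (a (b (l 16121736) (b (l 16121640) (l 16121624))) (a (b (l 16111432) (c (b (l 16125816) (l 16125704)) (l 16096048))) (a (b (l 16148712) (b (l 16106384) (c (l 16120848) (l 16091320)))) (b (l 16103392) (l 16102816))))))))) (b (b (a (l 16084472) (l 16040200)) (a (l 16123016) (b (l 16033680) (l 16029488)))) (b (a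 (b (l 16097904) (a (l 16088232) (l 16059944))) (b (l 16024680) (a (l 16032584) (l 16006112)))) (b (a (a (l 16086184) (l 16056328)) (a (l 16027616) (b (l 16001288) (l 15998072)))) (a (c (b (l 16085464) (a (l 16099856) (l 16069352))) (a (l 16069064) (l 16036304))) (c (b (l 16027800) (a (l 16039768) (l 16011144))) (a (l 16004536) (l 15973800)))))))), by decide +kernel⟩

def k8_pm_012 : ∃ t, chk3 f_pm_012 t 11 7 1 = true :=
  ⟨(b (b (a (a (l 15998824) (l 15961552)) (a (l 15926936) (l 15894528))) (a (a (b (l 15988432) (l 15981760)) (b (l 15946424) (l 15937200))) (a (l 15943968) (a (l 15874824) (l 15857416))))) (b (a (a (b (l 15974992) (l 15967600)) (b (l 15928000) (l 15918672))) (a (b (l 15884224) (l 15872520)) (b (l 15843776) (l 15829624)))) (a (a (b (a (b (l 15974688) (l 15970784)) (l 15946608)) (a (b (l 15966904) (c (l 15983480) (l 15942136))) (b (l 15939824) (l 15977224)))) (b (c (l 15931208) (l 15885568)) (a (b (l 15913632) (c (l 15931096) (l 15885112)))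 (b (l 15888144) (l 15903424))))) (a (b (c (l 15885128) (l 15835400)) (c (b (l 15876280) (l 15870176)) (b (l 15825488) (l 15818728)))) (b (c (l 15841776) (l 15788160)) (c (b (l 15831616) (l 15824600)) (b (l 15776768) (l 15768984)))))))), by decide +kernel⟩

def k9_pm_012 : ∃ t, chk3 f_pm_012 t 3 2 1 = true :=
  ⟨(a (b (l 2) (a (b (l 2) (a (b (l 2) (l 15979616)) (l 2))) (l 2))) (l 2)), by decide +kernel⟩

def k10_pm_012 : ∃ t, chk3 f_pm_012 t 6 3 1 = true :=
  ⟨(b (a (b (a (b (l 15958944) (l 15934096)) (b (l 15930664) (l 15900872))) (a (b (l 15907568) (l 15880584)) (b (l 15867336) (l 15834544)))) (b (a (l 16018800) (l 2)) (a (b (l 15836632) (l 15797408)) (b (l 15813760) (l 15769880))))) (b (a (b (a (a (l 15864976) (l 15837032)) (l 15799088)) (a (a (b (l 15841080) (l 15824296)) (b (l 15811384) (l 15792848))) (b (l 15770320) (l 15750072)))) (b (a (l 15756328) (l 15723008)) (a (b (l 15723344) (l 15700488)) (l 15673200)))) (a (b (a (a (b (l 15807040) (l 15790080))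 (b (l 15773800) (l 15754248))) (b (a (l 15743184) (l 15715128)) (a (l 15721904) (l 15692200)))) (a (a (b (a (l 15783592) (l 15763400)) (c (b (l 15789776) (l 15781800)) (b (l 15731056) (l 15722208)))) (b (a (l 15744184) (l 15725872)) (a (b (l 15730280) (l 15721072)) (b (l 15711000) (l 15701128))))) (b (a (l 15810184) (b (l 15674640) (l 15662688))) (a (b (l 15683792) (c (l 15704824) (l 15640128))) (b (l 15650600) (c (l 15671416) (l 15604856))))))) (b (a (b (l 15676784) (a (l 15665056) (l 15639904))) (b (l 15633808) (l 15669520))) (a (b (a (b (l 15646432) (l 15633640)) (l 15613800)) (a (b (l 15641720) (c (l 15641520) (l 15573040))) (b (l 15593552) (a (l 15586456) (l 15573144))))) (b (a (l 15589704) (l 15568008)) (a (b (l 15568584) (l 15554192)) (b (l 15545928) (l 15530944))))))))), by decide +kernel⟩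

def k11_pm_012 : ∃ t, chk3 f_pm_012 t 7 3 1 = true :=
  ⟨(b (b (l 2) (a (a (b (l 2) (l 15751032)) (l 2)) (l 2))) (b (a (a (b (l 15699320) (a (l 15650624) (l 15638792))) (b (l 15685088) (l 15625224))) (a (b (l 2) (l 15616072)) (l 2))) (a (b (a (b (l 15600840) (l 15570896)) (b (l 15578208) (l 15587648))) (b (a (a (l 15548776) (l 15532152)) (l 15596032)) (a (a (b (l 15525704) (l 15510072)) (l 15499928)) (a (l 15484584) (l 15471928))))) (b (a (b (l 15565536) (l 15530600)) (l 15544480)) (a (b (l 15494856) (a (l 15462064) (l 15454824))) (a (l 15532456) (l 15468224))))))), by decide +kernel⟩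

theorem s12_pm_012 : ∃ t, chk3 f_pm_012 t 3 3 1 = true := ex3_a k10_pm_012 k11_pm_012

theorem s13_pm_012 : ∃ t, chk3 f_pm_012 t 3 1 1 = true := ex3_b k9_pm_012 s12_pm_012

theorem s14_pm_012 : ∃ t, chk3 f_pm_012 t 5 7 1 = true := ex3_a k7_pm_012 k8_pm_012

theorem s15_pm_012 : ∃ t, chk3 f_pm_012 t 5 3 1 = true := ex3_b k6_pm_012 s14_pm_012

theorem s16_pm_012 : ∃ t, chk3 f_pm_012 t 5 1 1 = true := ex3_b k5_pm_012 s15_pm_012

theorem s17_pm_012 : ∃ t, chk3 f_pm_012 t 9 3 1 = true := ex3_b k3_pm_012 k4_pm_012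

theorem s18_pm_012 : ∃ t, chk3 f_pm_012 t 8 3 1 = true := ex3_b k1_pm_012 k2_pm_012

theorem s19_pm_012 : ∃ t, chk3 f_pm_012 t 4 3 1 = true := ex3_a s18_pm_012 s17_pm_012

theorem s20_pm_012 : ∃ t, chk3 f_pm_012 t 4 1 1 = true := ex3_b k0_pm_012 s19_pm_012

theorem s21_pm_012 : ∃ t, chk3 f_pm_012 t 2 1 1 = true := ex3_a s20_pm_012 s16_pm_012

theorem s22_pm_012 : ∃ t, chk3 f_pm_012 t 1 1 1 = true := ex3_a s21_pm_012 s13_pm_012

theorem c_pm_012 : CertB 0 536870912 536870912 536870912 740881858 40050571 3 eng mog cd0q0 cd4q1 pd2 true true false .pnp 0 1 2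
    ndB0q0 ndB4q1 pcB2 cut_pm_012 Ext.none :=
  certB2 (fam := true) (s1 := true) (s2 := false) (a := 0) (b := 1) (c := 2) (cn := .pnp) (n1 := ndB0q0) (n2 := ndB4q1) (pc := pcB2) (cut := cut_pm_012) (xt := Ext.none) (P1 := 0) (W1 := 536870912) (P2 := 536870912) (W2 := 536870912) (P3 := 740881858) (W3 := 40050571) (N0 := 3) (En := eng) (mo := mog) (C1 := cd0q0) (C2 := cd4q1) (C3 := pd2)
    rfl (fun _ => rfl) s22_pm_012

noncomputable def f_pm_022 : ℕ → ℕ → ℕ → ℕ → Bool := onCell 1073741824 536870912 1073741824 536870912 740881858 40050571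
    (rowB 3 eng mog cd0q0 cd4q2 pd2 2 true true false .pp 0 2 2 (qsf 0 536870912 1073741824 536870912 2) ndB0q0 ndB4q2 pcB2 Cut.none Ext.none)

def k0_pm_022 : ∃ t, chk3 f_pm_022 t 4 1 1 = true :=
  ⟨(l 3), by decide +kernel⟩

def k1_pm_022 : ∃ t, chk3 f_pm_022 t 10 2 1 = true :=
  ⟨(a (a (l 3) (b (a (b (b (a (l 3) (l 16455224)) (l 3)) (l 3)) (a (a (b (b (l 16382096) (l 16414968)) (l 3)) (b (b (l 16396296) (l 16408512)) (b (l 16455328) (a (l 3) (l 16393616))))) (b (a (a (b (l 16433824) (l 16446320)) (b (l 16430992) (l 16443704))) (b (b (l 16421560) (l 16431032)) (l 16439744))) (a (a (b (l 16451312) (c (l 16442568) (l 16466728))) (b (l 16448808) (l 16430480))) (b (l 16445008) (l 16426712)))))) (a (l 3) (a (l 3) (b (a (b (b (a (l 16454856) (l 16452384)) (c (a (l 16440000) (l 16437584)) (l 16444504))) (l 1)) (b (b (l 16448648) (c (l 16433928) (l 16442912))) (l 347924995879))) (l 1)))))) (b (b (b (b (a (l 16394296) (l 16347560)) (a (l 16404696) (l 16359000)))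 (b (a (l 16412624) (l 16368400)) (l 16459488))) (b (c (a (l 16415464) (l 16375944)) (l 16387632)) (c (a (l 16435120) (l 16354712)) (l 16417192)))) (b (b (c (c (b (l 16387656) (l 16407272)) (l 16399816)) (c (l 16414440) (l 16429344))) (b (b (a (l 16349712) (l 16334712)) (l 277057904903)) (l 322691978967))) (b (b (l 585221976023) (l 1)) (l 1))))), by decide +kernel⟩

def k2_pm_022 : ∃ t, chk3 f_pm_022 t 11 2 1 = true :=
  ⟨(b (b (a (b (b (a (l 16303920) (l 16263376)) (l 16335768)) (b (a (l 16325192) (l 16283480)) (l 16354968))) (b (a (b (l 16225408) (l 16235176)) (b (l 16189920) (l 16199320))) (b (a (l 16244520) (l 16208328)) (l 16276800)))) (b (a (b (l 16424640) (l 16387952)) (b (l 16348296) (l 16292024))) (a (c (b (l 16320160) (l 16320280)) (l 16339568)) (a (l 16359176) (b (l 16237912) (l 16242240)))))) (c (b (b (a (a (l 16400464) (l 16386136)) (b (l 16251360) (l 16251616))) (c (b (a (l 16329656) (l 16263240)) (l 16381416)) (a (l 16353664) (l 16349744))))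 (b (a (l 326450009847) (l 16296856)) (a (l 335576810087) (l 405369830103)))) (b (a (b (b (l 16344912) (l 16347608)) (l 16340968)) (b (b (l 16273640) (l 16298280)) (l 16307168))) (b (a (l 333429167047) (l 16277456)) (l 332892505303))))), by decide +kernel⟩

def k3_pm_022 : ∃ t, chk3 f_pm_022 t 5 3 1 = true :=
  ⟨(a (l 1) (b (b (b (a (l 1) (l 349535247703)) (l 1)) (l 1)) (l 1))), by decide +kernel⟩

def k4_pm_022 : ∃ t, chk3 f_pm_022 t 6 2 1 = true :=
  ⟨(b (a (b (a (b (b (a (l 16156360) (l 16124912)) (l 16149832)) (b (a (l 16174520) (l 16143008)) (a (l 16182768) (l 16150944)))) (b (b (a (l 16096016) (l 16069792)) (l 16132976)) (b (l 16120256) (l 16107240)))) (a (b (b (a (l 16190368) (l 16158368)) (l 16181000)) (b (l 16271424) (l 16234456))) (b (b (l 16114264) (l 16120896)) (b (l 16126824) (l 16132000))))) (b (b (a (b (a (l 16046504) (l 16025968)) (l 16084176)) (b (a (l 16007560) (l 15991280)) (c (l 16023216) (l 15984784)))) (a (b (l 16112080) (l 16056000))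 (b (a (l 16017848) (l 16000056)) (l 16013952)))) (b (a (b (l 16062688) (l 16069000)) (a (l 16032376) (l 16033688))) (a (b (l 16074536) (l 16079560)) (b (l 16030072) (l 16034704)))))) (b (a (b (a (b (l 16280184) (c (l 16188600) (l 16211728))) (b (l 16199440) (l 16265904))) (a (b (c (l 16206624) (l 16230832)) (l 16242264)) (b (l 16222760) (l 16185488)))) (b (a (b (l 16083888) (l 16087728)) (b (l 16038800) (l 16042568))) (a (b (l 16129304) (l 16135256)) (b (l 16063992) (l 16092416))))) (a (b (a (l 16325048) (l 16214728)) (a (b (l 16225320) (l 16195576)) (l 16193648))) (b (a (l 16186968) (l 16124544)) (a (l 16172088) (l 16147768)))))), by decide +kernel⟩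

def k5_pm_022 : ∃ t, chk3 f_pm_022 t 7 2 1 = true :=
  ⟨(b (b (a (b (a (b (a (l 15976872) (l 15964688)) (a (l 15980456) (l 15967360))) (b (a (l 15954920) (l 15947752)) (a (l 15956496) (l 15948040)))) (a (b (a (l 15984264) (l 15970448)) (l 16064800)) (b (c (l 15974568) (l 15933080)) (l 15976656)))) (b (a (b (a (l 15943360) (l 15983904)) (a (l 15942168) (l 15939048))) (b (a (b (l 15945288) (l 15942400)) (b (l 15951072) (l 15947104))) (a (l 15938888) (b (l 15943584) (l 15940376))))) (a (b (c (l 15963128) (l 15915800)) (l 16001920)) (b (c (l 15962600) (l 15908872)) (l 15932288))))) (a (b (a (b (l 15985016) (l 15989288)) (b (a (l 15964296) (l 15952792)) (l 15961344))) (a (c (l 15999008) (l 15993664)) (b (l 15964600) (l 15967944)))) (b (a (c (l 15975312) (l 15926968)) (b (l 15930128) (l 15928800))) (a (b (l 15942744) (l 15944824)) (c (l 15938104) (l 15920216)))))) (b (a (b (a (b (l 16001056) (l 16004376)) (c (l 15972288) (l 15974304))) (a (l 16167352) (l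 16052848))) (b (a (b (l 15947224) (l 15949960)) (c (l 16018472) (l 15928688))) (a (l 15987184) (l 15969096)))) (a (b (a (l 16090784) (l 16062624)) (a (l 16116432) (l 16093376))) (b (a (l 16040224) (l 16024168)) (l 16069360))))), by decide +kernel⟩

def k6_pm_022 : ∃ t, chk3 f_pm_022 t 3 3 1 = true :=
  ⟨(a (b (b (a (b (a (l 16144448) (l 16141544)) (l 348998411127)) (b (a (l 16132976) (l 16120760)) (a (l 16080680) (l 16080536)))) (a (b (l 380136583527) (l 1)) (b (l 340945154151) (l 376915366199)))) (a (l 1) (b (b (l 408053650775) (l 1)) (l 1)))) (b (b (a (b (l 16102288) (l 16080056)) (b (l 16079336) (l 16068008))) (a (b (l 16039648) (l 15993992)) (b (l 16054128) (l 16028272)))) (b (a (b (l 15940856) (l 382820880231)) (b (l 15988592) (l 15947752))) (a (b (l 440802647895) (l 1)) (l 401611618807))))), by decide +kernel⟩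

theorem s7_pm_022 : ∃ t, chk3 f_pm_022 t 3 2 1 = true := ex3_a k4_pm_022 k5_pm_022

theorem s8_pm_022 : ∃ t, chk3 f_pm_022 t 3 1 1 = true := ex3_b s7_pm_022 k6_pm_022

theorem s9_pm_022 : ∃ t, chk3 f_pm_022 t 5 2 1 = true := ex3_a k1_pm_022 k2_pm_022

theorem s10_pm_022 : ∃ t, chk3 f_pm_022 t 5 1 1 = true := ex3_b s9_pm_022 k3_pm_022

theorem s11_pm_022 : ∃ t, chk3 f_pm_022 t 2 1 1 = true := ex3_a k0_pm_022 s10_pm_022

theorem s12_pm_022 : ∃ t, chk3 f_pm_022 t 1 1 1 = true := ex3_a s11_pm_022 s8_pm_022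

theorem c_pm_022 : CertB 0 536870912 1073741824 536870912 740881858 40050571 3 eng mog cd0q0 cd4q2 pd2 true true false .pp 0 2 2
    ndB0q0 ndB4q2 pcB2 Cut.none Ext.none :=
  certB2 (fam := true) (s1 := true) (s2 := false) (a := 0) (b := 2) (c := 2) (cn := .pp) (n1 := ndB0q0) (n2 := ndB4q2) (pc := pcB2) (cut := Cut.none) (xt := Ext.none) (P1 := 0) (W1 := 536870912) (P2 := 1073741824) (W2 := 536870912) (P3 := 740881858) (W3 := 40050571) (N0 := 3) (En := eng) (mo := mog) (C1 := cd0q0) (C2 := cd4q2) (C3 := pd2)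
    rfl (fun _ => rfl) s12_pm_022

noncomputable def f_pm_023 : ℕ → ℕ → ℕ → ℕ → Bool := onCell 0 536870912 1073741824 536870912 740881858 40050571
    (rowB 3 eng mog cd0q0 cd4q2 pd3 0 true true false .up 0 2 3 (qsf 0 536870912 1073741824 536870912 3) ndB0q0 ndB4q2 pcB3 Cut.none Ext.none)

def k0_pm_023 : ∃ t, chk3 f_pm_023 t 1 1 1 = true :=
  ⟨(a (b (a (l 1) (b (l 1) (a (l 1) (b (l 1) (l 502006536823))))) (b (a (a (l 1) (l 351146004087)) (a (l 207264805319) (l 16220400))) (a (a (b (l 15942200) (l 15915584)) (l 98279854727)) (a (l 16056824) (l 16121936))))) (b (b (a (a (l 1) (b (l 1) (a (l 1) (l 176125845799)))) (a (b (a (l 1) (l 173978194807)) (a (c (l 15940264) (l 15918992)) (b (l 15925408) (l 15919104)))) (c (b (a (l 79489017975) (b (l 15967928) (c (l 15972232) (l 15946416)))) (a (b (l 15941720) (l 15934000)) (b (l 15953128) (l 15949312)))) (b (a (l 202432308439) (b (l 83783796375) (l 15908224))) (a (l 15909824) (l 15917600)))))) (a (a (b (b (l 1)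 (l 16031448)) (l 16061632)) (b (b (a (l 15941544) (l 15925256)) (a (l 15963992) (l 15951512))) (l 16025168))) (a (b (b (c (l 15939832) (l 15911344)) (l 15946640)) (l 16027984)) (b (b (a (l 15921840) (l 15938040)) (l 15969864)) (l 16065144))))) (a (b (a (l 16078872) (l 16106352)) (b (a (l 16114520) (l 16188568)) (a (b (l 16176656) (l 16243152)) (l 16335320)))) (b (a (b (l 16112432) (l 16165944)) (b (l 16171184) (l 16302624))) (b (a (l 16320504) (l 16428392)) (a (b (l 16411104) (l 16459480)) (b (l 16503336) (a (l 16524080) (b (l 16553112) (a (l 16562664) (b (l 16576208) (a (l 16581192) (b (l 16587520) (a (l 16590336) (l 16342736))))))))))))))), by decide +kernel⟩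

theorem c_pm_023 : CertB 0 536870912 1073741824 536870912 740881858 40050571 3 eng mog cd0q0 cd4q2 pd3 true true false .up 0 2 3
    ndB0q0 ndB4q2 pcB3 Cut.none Ext.none :=
  certB0 (fam := true) (s1 := true) (s2 := false) (a := 0) (b := 2) (c := 3) (cn := .up) (n1 := ndB0q0) (n2 := ndB4q2) (pc := pcB3) (cut := Cut.none) (xt := Ext.none) (P1 := 0) (W1 := 536870912) (P2 := 1073741824) (W2 := 536870912) (P3 := 740881858) (W3 := 40050571) (N0 := 3) (En := eng) (mo := mog) (C1 := cd0q0) (C2 := cd4q2) (C3 := pd3)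
    rfl k0_pm_023

noncomputable def f_pm_033 : ℕ → ℕ → ℕ → ℕ → Bool := onCell 1610612736 536870912 0 1230186008 740881858 40050571
    (rowB 3 eng mog cd0q0 cd4q3 pd3 2 true true false .pnn 0 3 3 (qsf 0 536870912 0 1230186008 3) ndB0q0 ndB4q3 pcB3 Cut.none Ext.none)

def k0_pm_033 : ∃ t, chk3 f_pm_033 t 1 1 1 = true :=
  ⟨(b (a (l 1) (a (l 1) (a (b (l 1) (a (b (l 1) (l 464962769335)) (l 4))) (l 4)))) (b (a (a (l 1) (a (l 1) (b (l 1) (a (l 1) (b (l 1) (l 346313352711)))))) (a (a (b (l 1) (a (b (l 409127768023) (l 15965720)) (b (l 16060776) (l 16150176)))) (b (a (b (l 1) (l 15987848)) (l 16049600)) (a (b (l 16030840) (l 16070808)) (b (l 16102056) (l 16147312))))) (a (b (a (a (l 16107664) (l 16139960)) (a (l 16138288) (l 4))) (a (b (l 16174272) (l 16220272)) (b (a (l 16229216) (l 16265512)) (a (l 16279064) (l 16320048))))) (a (b (l 4) (b (l 148410768423) (l 16568592))) (l 4))))) (a (a (b (l 1) (b (a (l 1) (l 326449444599)) (a (l 333965707383) (b (l 15933456)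 (l 15985992))))) (b (a (a (l 335576332151) (b (l 307658624679) (l 15889096))) (a (b (l 15895336) (l 15949072)) (b (l 15970288) (l 16012640)))) (a (b (a (l 15926760) (l 15970704)) (b (l 16025784) (l 16077664))) (b (a (l 16024672) (l 16073840)) (a (l 16119008) (l 16172816)))))) (a (b (a (b (a (l 16014048) (l 16042656)) (a (l 16067632) (l 16105320))) (a (b (l 16091632) (l 16172320)) (b (l 16196288) (l 16260232)))) (b (a (a (l 16132320) (l 16196128)) (a (l 16266072) (l 16332024))) (a (a (l 16226648) (l 16286320)) (a (l 16343808) (l 16401752))))) (a (b (a (b (l 16274040) (l 16339488)) (b (l 16352128) (l 16413312))) (b (a (l 16393528) (l 16449488)) (l 16624448))) (a (b (b (a (l 16408952) (l 16434408)) (a (l 16449120) (l 16476640))) (b (b (l 16496304) (l 16504656)) (l 16534224))) (b (a (b (l 16452624) (l 16502752)) (a (l 16482312) (l 4))) (a (b (l 16531560) (l 16569608)) (a (l 16560120) (b (a (l 16544648) (l 4)) (l 16587240))))))))))), by decide +kernel⟩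

theorem c_pm_033 : CertB 0 536870912 0 1230186008 740881858 40050571 3 eng mog cd0q0 cd4q3 pd3 true true false .pnn 0 3 3
    ndB0q0 ndB4q3 pcB3 Cut.none Ext.none :=
  certB2 (fam := true) (s1 := true) (s2 := false) (a := 0) (b := 3) (c := 3) (cn := .pnn) (n1 := ndB0q0) (n2 := ndB4q3) (pc := pcB3) (cut := Cut.none) (xt := Ext.none) (P1 := 0) (W1 := 536870912) (P2 := 0) (W2 := 1230186008) (P3 := 740881858) (W3 := 40050571) (N0 := 3) (En := eng) (mo := mog) (C1 := cd0q0) (C2 := cd4q3) (C3 := pd3)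
    rfl (fun _ => rfl) k0_pm_033

noncomputable def f_pm_101 : ℕ → ℕ → ℕ → ℕ → Bool := onCell 536870912 536870912 536870912 536870912 740881858 40050571
    (rowB 3 eng mog cd0q1 cd4q0 pd1 1 true true false .npn 1 0 1 (qsf 536870912 536870912 0 536870912 1) ndB0q1 ndB4q0 pcB1 Cut.none Ext.none)

def k0_pm_101 : ∃ t, chk3 f_pm_101 t 2 1 1 = true :=
  ⟨(b (a (l 3) (b (a (b (l 1) (l 3)) (l 1)) (l 3))) (b (a (b (l 3) (a (b (l 3) (a (b (l 3) (a (l 16513304) (l 16513752))) (b (l 167671105591) (l 16556984)))) (b (b (l 3) (a (l 3) (l 204715315543))) (a (b (l 113984020583) (l 16522104)) (b (l 16602704) (l 16546816)))))) (b (a (l 3) (b (l 3) (b (l 3) (a (l 3) (l 284709645943))))) (a (b (a (b (l 3) (l 148880819191)) (b (l 194515019719) (l 16700744))) (a (b (l 16660416) (l 16597776)) (b (l 16688048) (l 16617936)))) (b (a (b (l 211158040167) (l 16782064)) (b (l 158544719383) (l 16803040))) (a (l 16669888) (l 16689936)))))) (a (b (a (b (a (b (l 16462960) (l 16413368))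 (b (l 16465288) (l 16411864))) (a (l 16449632) (l 16332648))) (b (a (b (l 16471176) (l 16419160)) (l 16458592)) (a (l 16356632) (l 16345256)))) (a (b (a (l 16296616) (l 16250576)) (a (l 16225896) (l 16192144))) (b (a (l 16238056) (l 16241216)) (a (l 16166200) (l 16150136))))) (b (a (b (a (l 16494872) (l 16517536)) (a (l 16360424) (l 16385056))) (b (a (l 16536472) (l 16557752)) (a (l 16408192) (l 16433712)))) (a (b (a (l 16249208) (l 16252736)) (a (l 16147144) (l 16138224))) (b (a (l 16279800) (l 16308512)) (l 16144936))))))), by decide +kernel⟩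

def k1_pm_101 : ∃ t, chk3 f_pm_101 t 3 1 1 = true :=
  ⟨(b (a (b (l 1) (a (b (l 1) (l 3)) (l 1))) (l 1)) (a (b (b (b (l 3) (a (b (l 3) (a (l 186999141239) (b (a (l 225117060807) (a (a (l 248202575463) (l 514356283575)) (l 700113655687))) (a (l 17005456) (l 16996752))))) (b (l 1) (a (b (l 1) (l 653405839239)) (l 1))))) (a (b (a (b (l 16892168) (l 16826168)) (b (a (l 16912616) (l 16882520)) (l 16851320))) (a (l 16711992) (l 16735952))) (b (a (b (b (l 73585287335) (l 80027513559)) (l 65532042551)) (b (l 1) (l 146062801063))) (a (b (l 16785120) (l 16714248)) (b (l 16786992) (l 16716152)))))) (b (a (b (a (l 16580808) (l 16605512)) (a (l 16461976) (l 16489248))) (b (a (l 16619280) (l 16622760)) (a (l 16504504) (l 16508208)))) (a (a (l 16270704) (l 16304392)) (a (l 16325184) (l 16334072))))) (b (a (b (l 1) (a (b (l 1) (l 260415933767)) (l 1))) (l 1)) (b (a (b (a (l 116534557639) (l 173442909463)) (a (l 16507328) (l 16507784))) (b (l 1) (a (l 16510832) (l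 1)))) (a (a (b (l 16396712) (l 16278616)) (b (l 16391568) (l 16279392))) (a (b (l 16399544) (l 16286344)) (b (l 16407256) (l 16298488)))))))), by decide +kernel⟩

theorem s2_pm_101 : ∃ t, chk3 f_pm_101 t 1 1 1 = true := ex3_a k0_pm_101 k1_pm_101

theorem c_pm_101 : CertB 536870912 536870912 0 536870912 740881858 40050571 3 eng mog cd0q1 cd4q0 pd1 true true false .npn 1 0 1
    ndB0q1 ndB4q0 pcB1 Cut.none Ext.none :=
  certB1 (fam := true) (s1 := true) (s2 := false) (a := 1) (b := 0) (c := 1) (cn := .npn) (n1 := ndB0q1) (n2 := ndB4q0) (pc := pcB1) (cut := Cut.none) (xt := Ext.none) (P1 := 536870912) (W1 := 536870912) (P2 := 0) (W2 := 536870912) (P3 := 740881858) (W3 := 40050571) (N0 := 3) (En := eng) (mo := mog) (C1 := cd0q1) (C2 := cd4q0) (C3 := pd1)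
    rfl (fun _ => rfl) s2_pm_101

noncomputable def f_pm_102 : ℕ → ℕ → ℕ → ℕ → Bool := onCell 536870912 536870912 1073741824 536870912 740881858 40050571
    (rowB 3 eng mog cd0q1 cd4q0 pd2 1 true true false .npp 1 0 2 (qsf 536870912 536870912 0 536870912 2) ndB0q1 ndB4q0 pcB2 Cut.none Ext.none)

def k0_pm_102 : ∃ t, chk3 f_pm_102 t 2 1 1 = true :=
  ⟨(b (b (a (b (a (a (b (l 16096360) (l 16098680)) (b (l 16049568) (l 16046888))) (b (a (l 16005928) (l 15971168)) (l 16046096))) (a (b (l 79556204791) (l 2)) (b (l 15960232) (l 15955704)))) (a (b (b (a (l 15948384) (l 15932144)) (a (l 15910960) (l 15875616))) (b (l 15889928) (l 15882840))) (b (b (a (l 15905464) (l 15924144)) (a (l 15843416) (l 15872016))) (b (l 15779784) (l 15836336))))) (a (b (a (l 2) (b (l 16018600) (l 2))) (l 2)) (a (b (b (l 15948048) (l 16002952)) (l 16073264)) (b (b (l 15946344) (l 15960720)) (l 16033520))))) (a (l 2) (b (a (l 2) (b (l 16113488) (l 2))) (l 2)))), by decide +kernel⟩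

def k1_pm_102 : ∃ t, chk3 f_pm_102 t 6 2 1 = true :=
  ⟨(b (b (a (a (b (l 15961992) (l 15909432)) (b (l 16002096) (l 15947312))) (b (a (l 16133768) (a (l 16040088) (l 16046904))) (a (l 15973368) (l 15988808)))) (a (b (a (l 15872496) (l 15910176)) (a (l 15839192) (l 15889848))) (b (a (l 15936344) (l 15954088)) (a (l 15917216) (l 15937072))))) (b (a (b (a (l 15891768) (l 15897192)) (l 15949696)) (b (a (l 15924104) (l 15951056)) (l 15986504))) (a (l 16023336) (l 16116640)))), by decide +kernel⟩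

def k2_pm_102 : ∃ t, chk3 f_pm_102 t 7 2 1 = true :=
  ⟨(b (a (b (b (a (b (a (l 16070800) (l 16074824)) (l 16039688)) (b (a (l 16076176) (l 16078936)) (a (l 16044376) (l 16048280)))) (a (b (l 16013776) (l 15993728)) (b (l 16022960) (l 16006688)))) (a (b (l 15993528) (l 15959096)) (b (b (l 15995480) (l 15993896)) (c (l 16012416) (l 15977976))))) (b (a (b (b (a (b (l 16095624) (l 16078088)) (b (l 16105320) (l 16088504))) (a (l 16057432) (l 16070216))) (b (a (l 16038360) (l 16055344)) (a (l 16026416) (l 16052800)))) (b (b (a (b (c (l 16147000) (l 16080704)) (l 16099032)) (b (a (b (l 16123616) (l 16115912)) (a (b (b (l 16127984) (l 16124080)) (l 16120488)) (b (l 16170144) (a (l 16124384) (l 16123792))))) (a (l 16108904) (a (l 16116808) (l 16115720))))) (a (b (l 16089224) (l 16084528)) (a (b (l 16105464) (l 16097808)) (b (c (l 16138176) (l 16073408)) (l 16094736))))) (a (b (l 16121752) (l 16108464)) (b (a (l 16084008) (c (l 16110136) (l 16046784))) (c (a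 (l 16095960) (l 16089328)) (l 16031344)))))) (a (b (b (a (l 16026680) (l 16044496)) (l 16112344)) (b (l 16144968) (l 16013272))) (b (b (a (l 16051528) (c (a (l 16077464) (l 16070072)) (l 16013888))) (a (l 16036872) (c (l 16057024) (l 15998328)))) (a (b (l 16023392) (l 16013904)) (c (b (l 16042072) (l 16031760)) (l 15979104))))))) (a (b (b (a (l 15979904) (b (l 15998128) (l 15999280))) (a (l 16018008) (l 16025304))) (a (l 16084688) (l 16088312))) (b (b (a (c (b (l 16033568) (l 16030080)) (l 15984272)) (c (b (a (l 16034928) (l 16024384)) (a (l 16029400) (c (l 16034592) (l 16002968)))) (b (l 15974016) (l 15967384)))) (a (l 16025536) (c (a (l 16048544) (l 16037872)) (l 15983464)))) (a (l 16082024) (b (b (l 16039640) (l 16057776)) (l 16088552)))))), by decide +kernel⟩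

def k3_pm_102 : ∃ t, chk3 f_pm_102 t 3 3 1 = true :=
  ⟨(a (b (a (b (l 16098288) (l 16173376)) (b (l 16115968) (l 16182256))) (a (l 2) (b (l 16262496) (l 2)))) (b (a (b (l 16332776) (l 16203656)) (b (a (l 16155680) (l 16150320)) (l 16226016))) (a (b (l 16284832) (l 16385880)) (b (l 16311144) (l 16425048))))), by decide +kernel⟩

theorem s4_pm_102 : ∃ t, chk3 f_pm_102 t 3 2 1 = true := ex3_a k1_pm_102 k2_pm_102

theorem s5_pm_102 : ∃ t, chk3 f_pm_102 t 3 1 1 = true := ex3_b s4_pm_102 k3_pm_102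

theorem s6_pm_102 : ∃ t, chk3 f_pm_102 t 1 1 1 = true := ex3_a k0_pm_102 s5_pm_102

theorem c_pm_102 : CertB 536870912 536870912 0 536870912 740881858 40050571 3 eng mog cd0q1 cd4q0 pd2 true true false .npp 1 0 2
    ndB0q1 ndB4q0 pcB2 Cut.none Ext.none :=
  certB1 (fam := true) (s1 := true) (s2 := false) (a := 1) (b := 0) (c := 2) (cn := .npp) (n1 := ndB0q1) (n2 := ndB4q0) (pc := pcB2) (cut := Cut.none) (xt := Ext.none) (P1 := 536870912) (W1 := 536870912) (P2 := 0) (W2 := 536870912) (P3 := 740881858) (W3 := 40050571) (N0 := 3) (En := eng) (mo := mog) (C1 := cd0q1) (C2 := cd4q0) (C3 := pd2)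
    rfl (fun _ => rfl) s6_pm_102

noncomputable def f_pm_112 : ℕ → ℕ → ℕ → ℕ → Bool := onCell 536870912 536870912 1073741824 536870912 740881858 40050571
    (rowB 3 eng mog cd0q1 cd4q1 pd2 1 true true false .dn 1 1 2 (qsf 536870912 536870912 536870912 536870912 2) ndB0q1 ndB4q1 pcB2 Cut.none Ext.none)

def k0_pm_112 : ∃ t, chk3 f_pm_112 t 1 1 1 = true :=
  ⟨(a (b (b (a (b (a (a (b (l 16083592) (l 16072584)) (l 258267194327)) (b (l 1) (l 15998176))) (a (b (l 16139944) (a (l 16062072) (l 16022040))) (b (l 15936968) (l 15961216)))) (a (b (l 1) (b (l 1) (l 15887184))) (l 1))) (a (b (a (b (b (l 16061848) (b (l 16068584) (b (l 16070704) (l 16156080)))) (l 16236440)) (b (l 16050440) (l 16034024))) (a (a (l 16034824) (l 16038808)) (l 16037552))) (a (b (b (l 15924784) (l 15989808)) (l 16026352)) (b (b (l 1) (l 15953848)) (l 16015488))))) (a (b (a (b (a (l 15944152) (l 15968056)) (a (l 15825208) (l 15865704))) (b (l 15997392) (l 15922112))) (a (b (a (l 15691304)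 (l 15745608)) (a (b (l 15582744) (l 15507152)) (l 15615248))) (b (l 15824408) (l 15715248)))) (b (a (b (l 16026240) (l 15987632)) (b (l 16050384) (l 16047176))) (a (b (l 15923720) (l 15845008)) (l 16000184))))) (b (a (b (l 1) (b (l 1) (a (l 16010288) (l 1)))) (l 1)) (a (b (a (b (l 16074880) (l 16104280)) (l 284574352471)) (a (l 16112336) (b (l 16199272) (l 16240240)))) (b (a (b (l 1) (l 16190952)) (l 1)) (a (b (l 16268176) (l 16348136)) (b (l 16306376) (l 16423040))))))), by decide +kernel⟩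

theorem c_pm_112 : CertB 536870912 536870912 536870912 536870912 740881858 40050571 3 eng mog cd0q1 cd4q1 pd2 true true false .dn 1 1 2
    ndB0q1 ndB4q1 pcB2 Cut.none Ext.none :=
  certB1 (fam := true) (s1 := true) (s2 := false) (a := 1) (b := 1) (c := 2) (cn := .dn) (n1 := ndB0q1) (n2 := ndB4q1) (pc := pcB2) (cut := Cut.none) (xt := Ext.none) (P1 := 536870912) (W1 := 536870912) (P2 := 536870912) (W2 := 536870912) (P3 := 740881858) (W3 := 40050571) (N0 := 3) (En := eng) (mo := mog) (C1 := cd0q1) (C2 := cd4q1) (C3 := pd2)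
    rfl (fun _ => rfl) k0_pm_112

noncomputable def f_pm_113 : ℕ → ℕ → ℕ → ℕ → Bool := onCell 536870912 536870912 1610612736 536870912 740881858 40050571
    (rowB 3 eng mog cd0q1 cd4q1 pd3 1 true true false .nn 1 1 3 (qsf 536870912 536870912 536870912 536870912 3) ndB0q1 ndB4q1 pcB3 Cut.none Ext.none)

def k0_pm_113 : ∃ t, chk3 f_pm_113 t 1 1 1 = true :=
  ⟨(a (b (b (a (a (a (b (b (l 320610087175) (l 367317682583)) (l 2)) (b (l 187466158919) (l 362485735463))) (b (a (l 15564688) (l 15645320)) (a (l 314704420199) (l 15498040)))) (a (b (l 15765424) (l 15642664)) (b (l 15932120) (l 15849208)))) (b (a (a (l 2) (b (l 363559571143) (l 2))) (a (b (l 15558152) (l 329737226103)) (l 15799696))) (a (l 2) (a (b (l 375907969687) (l 2)) (l 15760696))))) (b (a (l 2) (b (a (l 2) (l 421005191495)) (l 2))) (l 2))) (b (b (a (a (b (l 16101400) (l 16074904)) (b (l 16283768) (l 16239464))) (a (b (l 16450904) (l 16399768)) (b (l 16556728) (l 16524016)))) (a (b (a (l 16011696)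 (l 16179792)) (a (l 15949384) (l 16119856))) (b (a (l 16351360) (l 16487408)) (a (l 16292512) (l 4))))) (b (a (b (a (b (l 15901136) (l 537507137143)) (b (l 16071904) (l 4))) (a (b (l 533212119591) (l 2)) (l 4))) (l 4)) (l 4)))), by decide +kernel⟩

theorem c_pm_113 : CertB 536870912 536870912 536870912 536870912 740881858 40050571 3 eng mog cd0q1 cd4q1 pd3 true true false .nn 1 1 3
    ndB0q1 ndB4q1 pcB3 Cut.none Ext.none :=
  certB1 (fam := true) (s1 := true) (s2 := false) (a := 1) (b := 1) (c := 3) (cn := .nn) (n1 := ndB0q1) (n2 := ndB4q1) (pc := pcB3) (cut := Cut.none) (xt := Ext.none) (P1 := 536870912) (W1 := 536870912) (P2 := 536870912) (W2 := 536870912) (P3 := 740881858) (W3 := 40050571) (N0 := 3) (En := eng) (mo := mog) (C1 := cd0q1) (C2 := cd4q1) (C3 := pd3)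
    rfl (fun _ => rfl) k0_pm_113

noncomputable def f_pm_123 : ℕ → ℕ → ℕ → ℕ → Bool := onCell 1610612736 536870912 1073741824 536870912 740881858 40050571
    (rowB 3 eng mog cd0q1 cd4q2 pd3 2 true true false .npn 1 2 3 (qsf 536870912 536870912 1073741824 536870912 3) ndB0q1 ndB4q2 pcB3 Cut.none Ext.none)

def k0_pm_123 : ∃ t, chk3 f_pm_123 t 4 2 1 = true :=
  ⟨(b (b (a (b (a (b (a (l 15982104) (c (l 15981104) (l 15908184))) (a (l 15935280) (l 15960248))) (b (c (a (l 15988112) (l 15997232)) (l 15915600)) (a (c (l 15977968) (l 15911592)) (l 15972152)))) (a (b (c (l 15958648) (l 15905920)) (l 1)) (a (b (l 15938928) (l 15933272)) (b (a (l 15943688) (l 15946984)) (l 15939088))))) (b (a (b (c (l 16036080) (l 15932288)) (c (l 16001112) (l 15928056))) (b (c (l 16047648) (l 15957680)) (c (l 16029592) (l 15950096)))) (a (a (b (l 15952400) (l 15946272)) (b (l 15961368) (l 15954136))) (c (b (l 16013800) (l 15999912)) (l 15941696))))) (a (b (a (l 1) (c (b (l 15950904)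 (l 1)) (l 15910120))) (l 1)) (c (b (a (b (l 15967200) (l 15955792)) (b (l 15987632) (l 15976808))) (a (b (l 15945560) (l 1)) (b (l 15965456) (l 15953376)))) (b (a (l 15918960) (l 15934816)) (a (l 15915536) (l 15927832)))))) (b (a (l 1) (b (a (l 1) (c (l 15937424) (l 15922448))) (l 1))) (l 1))), by decide +kernel⟩

def k1_pm_123 : ∃ t, chk3 f_pm_123 t 5 2 1 = true :=
  ⟨(b (a (b (a (b (b (a (b (l 16035448) (l 16026776)) (l 16054288)) (a (l 16014736) (l 16034440))) (b (l 16009408) (l 15996496))) (b (a (b (l 16125192) (l 16058424)) (b (l 16124848) (l 16092672))) (b (c (l 16095272) (l 16010272)) (b (l 16037872) (l 16030400))))) (b (a (c (l 16007728) (l 15954696)) (c (l 16042992) (l 15983312))) (a (b (l 15967736) (l 15960344)) (l 16031360)))) (b (a (a (b (b (l 16179280) (l 16138176)) (c (l 16137736) (l 16047752))) (b (b (l 16244264) (l 16194648)) (c (l 16183296) (l 16086000)))) (b (b (a (l 16274600) (c (l 16338088) (l 16240944))) (a (l 16240072) (l 16245120)))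 (a (b (l 16206392) (l 16166520)) (b (l 16233168) (l 16201144))))) (a (b (b (l 16071672) (l 16050736)) (l 16027384)) (a (b (l 16116288) (l 16065544)) (b (a (l 16148456) (l 16161384)) (l 16099928)))))) (a (b (b (a (a (l 15963592) (l 15954200)) (b (l 15975992) (l 15968216))) (a (l 15969672) (l 15991360))) (b (l 141229601799) (l 1))) (b (a (b (l 16001672) (l 16020136)) (b (c (l 16066192) (l 16026360)) (l 16053480))) (b (a (l 16060096) (l 16092568)) (l 16105952))))), by decide +kernel⟩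

def k2_pm_123 : ∃ t, chk3 f_pm_123 t 2 3 1 = true :=
  ⟨(a (l 1) (b (b (a (l 1) (b (l 16131624) (l 1))) (l 1)) (l 1))), by decide +kernel⟩

def k3_pm_123 : ∃ t, chk3 f_pm_123 t 6 1 1 = true :=
  ⟨(b (b (a (b (a (a (b (c (b (l 16349360) (l 16315928)) (b (b (l 16274344) (l 16259160)) (l 16237104))) (l 16230688)) (b (b (c (l 16352256) (a (l 16257280) (l 16250112))) (c (l 16320776) (l 16225832))) (b (l 16246616) (l 16219152)))) (b (a (b (a (c (l 16353144) (l 16245656)) (l 16299920)) (a (l 16270680) (l 16269472))) (c (a (l 16340736) (l 16344328)) (a (l 16229296) (l 16233608)))) (b (a (b (l 16249184) (l 16235992)) (a (l 16240840) (l 16243800))) (a (l 16218376) (a (l 16214976) (l 16214688)))))) (a (a (b (l 16171688) (l 16122600)) (b (l 16159560) (l 16111016))) (b (a (b (l 16194768) (l 16172448)) (b (l 16276216) (l 16172656))) (b (l 16153152) (l 16133152))))) (a (a (b (b (c (l 16359024) (l 16260976)) (a (l 16241216) (l 16254768))) (b (b (l 16207344) (l 16185136))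 (l 16157848))) (b (b (c (l 16381128) (l 16301848)) (l 16423344)) (b (a (l 16217400) (l 16232064)) (l 16369904)))) (b (b (a (l 16372024) (a (l 16393504) (l 16406344))) (a (l 16303272) (l 16328816))) (a (b (l 16376008) (l 16248632)) (b (l 16274648) (l 16232896)))))) (a (b (a (b (c (l 16108688) (l 16068336)) (l 16095016)) (b (b (l 16115648) (l 16101912)) (l 16119536))) (a (b (l 16127640) (l 16158928)) (l 16180904))) (a (b (b (b (l 16144440) (l 16129304)) (l 16149208)) (b (l 16190136) (l 16231896))) (b (b (a (l 16169448) (l 16299032)) (a (l 16177904) (l 16200424))) (b (l 16227912) (l 16265120)))))) (b (a (b (b (l 16201944) (l 16220368)) (l 16237224)) (b (a (l 16286136) (l 16319896)) (a (l 16327984) (l 16373256)))) (a (l 1) (b (l 16376696) (l 1))))), by decide +kernel⟩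

def k4_pm_123 : ∃ t, chk3 f_pm_123 t 7 1 1 = true :=
  ⟨(a (b (b (b (a (b (a (l 16425480) (l 16455648)) (a (l 16354448) (l 16379384))) (a (b (l 16489352) (l 16409320)) (b (l 16503432) (l 16437016)))) (a (a (b (l 16296152) (l 16253144)) (b (l 16318072) (l 16272744))) (a (b (l 16342592) (l 16291640)) (b (l 16373880) (l 16316688))))) (b (a (b (c (l 16246392) (l 16215312)) (l 16424520)) (a (b (l 16277448) (l 16267576)) (b (l 16274544) (l 16285976)))) (a (b (l 16268952) (l 16304376)) (b (l 16314264) (l 16341768))))) (b (a (b (l 16352088) (l 16413752)) (b (b (l 16375232) (l 16404032)) (l 16444376))) (b (l 16320776) (l 16229992)))) (b (b (a (b (a (b (l 4) (a (l 16450400) (l 4))) (l 4)) (a (b (l 16461528) (l 16348688)) (b (l 4) (l 16361176)))) (l 4)) (b (a (a (b (l 16302904) (l 16304864)) (b (a (l 16324760) (l 16332024)) (l 16368336))) (a (b (l 4) (l 16431744)) (l 4))) (a (a (b (l 16343400) (l 16375376)) (b (l 16361408) (l 16398872))) (a (b (l 16374016) (l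 16418760)) (l 4))))) (a (b (b (a (l 16417472) (b (l 16427336) (l 16450432))) (l 16477096)) (l 16720200)) (b (b (a (b (l 16445504) (l 16474792)) (a (l 16470880) (l 4))) (a (b (l 16499280) (l 16512720)) (a (l 16520192) (a (l 16520760) (a (l 16520568) (l 4)))))) (a (l 16577560) (a (l 16570888) (b (c (l 16652240) (l 16614280)) (l 16734280)))))))), by decide +kernel⟩

theorem s5_pm_123 : ∃ t, chk3 f_pm_123 t 3 1 1 = true := ex3_a k3_pm_123 k4_pm_123

theorem s6_pm_123 : ∃ t, chk3 f_pm_123 t 2 2 1 = true := ex3_a k0_pm_123 k1_pm_123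

theorem s7_pm_123 : ∃ t, chk3 f_pm_123 t 2 1 1 = true := ex3_b s6_pm_123 k2_pm_123

theorem s8_pm_123 : ∃ t, chk3 f_pm_123 t 1 1 1 = true := ex3_a s7_pm_123 s5_pm_123

theorem c_pm_123 : CertB 536870912 536870912 1073741824 536870912 740881858 40050571 3 eng mog cd0q1 cd4q2 pd3 true true false .npn 1 2 3
    ndB0q1 ndB4q2 pcB3 Cut.none Ext.none :=
  certB2 (fam := true) (s1 := true) (s2 := false) (a := 1) (b := 2) (c := 3) (cn := .npn) (n1 := ndB0q1) (n2 := ndB4q2) (pc := pcB3) (cut := Cut.none) (xt := Ext.none) (P1 := 536870912) (W1 := 536870912) (P2 := 1073741824) (W2 := 536870912) (P3 := 740881858) (W3 := 40050571) (N0 := 3) (En := eng) (mo := mog) (C1 := cd0q1) (C2 := cd4q2) (C3 := pd3)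
    rfl (fun _ => rfl) s8_pm_123

noncomputable def f_pm_133 : ℕ → ℕ → ℕ → ℕ → Bool := onCell 536870912 536870912 0 1230186008 740881858 40050571
    (rowB 3 eng mog cd0q1 cd4q3 pd3 0 true true false .dn 1 3 3 (qsf 536870912 536870912 0 1230186008 3) ndB0q1 ndB4q3 pcB3 Cut.none Ext.none)

def k0_pm_133 : ∃ t, chk3 f_pm_133 t 1 1 1 = true :=
  ⟨(b (l 2) (b (l 2) (a (b (l 2) (a (b (l 2) (a (l 16653672) (l 2))) (l 2))) (l 2)))), by decide +kernel⟩

theorem c_pm_133 : CertB 536870912 536870912 0 1230186008 740881858 40050571 3 eng mog cd0q1 cd4q3 pd3 true true false .dn 1 3 3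
    ndB0q1 ndB4q3 pcB3 Cut.none Ext.none :=
  certB0 (fam := true) (s1 := true) (s2 := false) (a := 1) (b := 3) (c := 3) (cn := .dn) (n1 := ndB0q1) (n2 := ndB4q3) (pc := pcB3) (cut := Cut.none) (xt := Ext.none) (P1 := 536870912) (W1 := 536870912) (P2 := 0) (W2 := 1230186008) (P3 := 740881858) (W3 := 40050571) (N0 := 3) (En := eng) (mo := mog) (C1 := cd0q1) (C2 := cd4q3) (C3 := pd3)
    rfl k0_pm_133

noncomputable def f_pm_202 : ℕ → ℕ → ℕ → ℕ → Bool := onCell 0 536870912 1073741824 536870912 740881858 40050571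
    (rowB 3 eng mog cd0q2 cd4q0 pd2 1 true true false .pp 2 0 2 (qsf 0 536870912 0 536870912 2) ndB0q2 ndB4q0 pcB2 Cut.none Ext.none)

def k0_pm_202 : ∃ t, chk3 f_pm_202 t 2 1 1 = true :=
  ⟨(b (a (b (l 1) (b (b (b (l 1) (a (l 16139984) (l 16138624))) (a (l 16170032) (l 16158984))) (b (a (l 4) (l 16193944)) (l 16420344)))) (b (b (l 1) (a (l 1) (b (l 1) (b (l 1) (a (l 1) (l 16135568)))))) (b (b (a (b (l 16130984) (l 16155272)) (b (a (l 16130912) (l 16129080)) (a (l 16128800) (l 16123992)))) (a (l 16151904) (a (l 16144864) (l 16139280)))) (a (b (l 16182512) (l 16216432)) (b (l 16172608) (l 16204752)))))) (b (a (l 4) (b (a (l 16482904) (l 16334136)) (a (l 4) (l 16314696)))) (l 4))), by decide +kernel⟩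

def k1_pm_202 : ∃ t, chk3 f_pm_202 t 6 4 1 = true :=
  ⟨(b (l 1) (a (b (l 1) (c (a (b (l 16157600) (l 16146824)) (b (a (l 16152480) (l 16147144)) (l 16134856))) (a (b (l 16129384) (l 16118144)) (b (l 16121744) (l 16106688))))) (b (b (a (l 1) (b (l 1) (a (l 16149968) (a (l 16184944) (l 16137104))))) (a (b (a (l 1) (l 16144920)) (a (l 16140448) (l 16134072))) (a (b (l 16137480) (l 16125056)) (c (b (l 16143368) (l 16129584)) (l 16105616))))) (a (b (c (a (l 16140592) (l 16132600)) (l 16108240)) (c (l 16118136) (l 16089872))) (b (c (a (l 16122912) (l 16111240)) (l 16087360)) (c (l 16096712) (l 16067176))))))), by decide +kernel⟩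

def k2_pm_202 : ∃ t, chk3 f_pm_202 t 14 4 1 = true :=
  ⟨(b (b (l 1) (a (b (l 1) (b (l 1) (a (l 1) (l 16138192)))) (a (b (l 1) (b (l 16158632) (l 16124376))) (b (b (b (l 1) (l 16147224)) (a (l 16140896) (l 16134144))) (b (l 16123952) (l 16110208)))))) (b (c (a (b (a (b (l 16158120) (l 16144496)) (l 16138024)) (a (b (l 16130248) (l 16116776)) (l 16110376))) (b (a (l 16125216) (l 16113040)) (a (l 16098192) (l 16086904)))) (a (b (a (l 16115280) (l 16099312)) (a (l 16090008) (l 16074496))) (b (l 16076208) (l 16052344)))) (a (b (a (b (l 16087616) (l 16075608)) (c (b (l 16090464) (l 16078632)) (l 16050712))) (c (a (l 16076320) (l 16062768)) (l 16037368))) (b (c (a (l 16073008) (l 16062776)) (l 16029976)) (c (a (a (l 16053192) (l 16047416)) (l 16040520)) (l 16009000)))))), by decide +kernel⟩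

def k3_pm_202 : ∃ t, chk3 f_pm_202 t 15 8 1 = true :=
  ⟨(a (c (b (b (l 1) (a (b (l 1) (b (l 1) (l 16173232))) (b (b (l 1) (a (l 1) (l 16168904))) (a (l 16166160) (l 16158176))))) (b (a (b (a (l 16166464) (l 16159632)) (l 16148752)) (b (l 16147832) (l 16133752))) (a (l 16127592) (l 16113648)))) (b (b (l 1) (a (b (l 1) (b (l 1) (l 16119608))) (b (b (l 1) (l 16115192)) (a (l 16110184) (l 16100776))))) (b (a (b (l 16110008) (l 16096944)) (l 16085528)) (a (l 16077424) (l 16060384))))) (b (a (b (b (l 1) (a (b (l 1) (b (l 1) (l 16142616))) (b (b (l 1) (l 16139784)) (a (l 16137224) (l 16132176))))) (b (a (b (l 16137552) (l 16130632)) (l 16124088)) (a (l 16120024) (l 16110416)))) (b (a (b (b (l 1) (a (b (l 1) (l 16139008)) (b (a (l 1) (l 16135888)) (l 16133792)))) (b (a (l 16133872) (l 16128488)) (l 16124152))) (a (b (b (b (l 1) (a (b (l 1) (l 16135768)) (c (l 16186800) (l 16142224)))) (b (a (l 16133192) (l 16130376)) (l 16128240))) (l 16182672)) (b (b (a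 (c (l 16175776) (l 16099280)) (b (l 16131680) (l 16128376))) (l 16124712)) (l 16115200)))) (b (a (l 16113984) (l 16146824)) (a (l 16101088) (l 16092904))))) (b (a (b (l 16101880) (l 16089168)) (b (c (l 16115928) (l 16053872)) (l 16115424))) (a (c (l 16099600) (l 16042976)) (b (l 16062568) (l 16052136)))))), by decide +kernel⟩

def k4_pm_202 : ∃ t, chk3 f_pm_202 t 15 9 1 = true :=
  ⟨(c (b (a (b (a (l 16100824) (l 16088400)) (a (l 16075920) (l 16065144))) (b (a (l 16076440) (l 16067128)) (a (l 16055312) (l 16048536)))) (a (a (b (l 16053176) (l 16033464)) (b (l 16044184) (l 16026768))) (a (b (l 16036576) (l 16021840)) (b (l 16032400) (l 16020624))))) (b (a (b (l 16045136) (l 16023504)) (b (a (l 16021864) (l 16008320)) (l 15996712))) (a (b (l 16003624) (l 15986208)) (b (l 15980640) (l 15967632))))), by decide +kernel⟩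

def k5_pm_202 : ∃ t, chk3 f_pm_202 t 3 5 1 = true :=
  ⟨(a (b (b (a (b (a (l 16121616) (l 16107024)) (a (l 16114272) (l 16160488))) (c (a (b (l 16103096) (l 16092016)) (b (l 16080032) (l 16067504))) (a (l 16152600) (l 16148584)))) (a (a (l 16128864) (l 16111648)) (a (l 16090824) (b (l 16058056) (l 16073904))))) (a (b (l 16150440) (l 16181976)) (b (l 16109960) (l 16142680)))) (b (a (b (c (a (b (a (l 16058800) (l 16044432)) (c (l 16047424) (l 16029432))) (b (a (l 16031840) (b (l 16025984) (l 16017816))) (c (a (l 16028448) (l 16018552)) (l 16003560)))) (a (b (l 16019504) (l 16005832)) (b (l 15991864) (l 15977288)))) (a (c (l 16055776) (l 16018800)) (c (b (l 16022696) (l 16043320)) (l 15992008)))) (c (b (a (a (b (l 16035776) (c (b (l 16014224) (l 16009008)) (l 15989864))) (b (l 16011416) (c (b (l 16012952) (l 16006704)) (l 15985144)))) (b (c (l 16066304) (l 15996032)) (c (b (l 16017392) (l 16013824)) (l 15986776)))) (a (b (a (l 16010216) (c (l 16018752)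 (l 15993432))) (l 16029800)) (b (c (l 16024888) (l 15995024)) (l 16029800)))) (b (a (b (l 15970136) (l 15956248)) (b (l 15956664) (l 15947184))) (a (l 15972904) (l 15962224))))) (a (b (a (l 16070728) (l 16048952)) (l 16096792)) (b (a (l 16035048) (l 16052136)) (l 16073104))))), by decide +kernel⟩

def k6_pm_202 : ∃ t, chk3 f_pm_202 t 3 3 1 = true :=
  ⟨(b (a (b (a (l 16227016) (l 16191056)) (a (l 16284488) (l 16254768))) (b (a (l 16151912) (l 16136032)) (a (l 16226504) (l 16218320)))) (a (b (a (l 16353856) (l 16322280)) (b (l 16385264) (l 4))) (b (a (l 16300336) (l 16304696)) (a (l 16379808) (l 16415568))))), by decide +kernel⟩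

theorem s7_pm_202 : ∃ t, chk3 f_pm_202 t 15 4 1 = true := ex3_b k3_pm_202 k4_pm_202

theorem s8_pm_202 : ∃ t, chk3 f_pm_202 t 7 4 1 = true := ex3_a k2_pm_202 s7_pm_202

theorem s9_pm_202 : ∃ t, chk3 f_pm_202 t 3 4 1 = true := ex3_a k1_pm_202 s8_pm_202

theorem s10_pm_202 : ∃ t, chk3 f_pm_202 t 3 2 1 = true := ex3_b s9_pm_202 k5_pm_202

theorem s11_pm_202 : ∃ t, chk3 f_pm_202 t 3 1 1 = true := ex3_b s10_pm_202 k6_pm_202

theorem s12_pm_202 : ∃ t, chk3 f_pm_202 t 1 1 1 = true := ex3_a k0_pm_202 s11_pm_202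

theorem c_pm_202 : CertB 0 536870912 0 536870912 740881858 40050571 3 eng mog cd0q2 cd4q0 pd2 true true false .pp 2 0 2
    ndB0q2 ndB4q0 pcB2 Cut.none Ext.none :=
  certB1 (fam := true) (s1 := true) (s2 := false) (a := 2) (b := 0) (c := 2) (cn := .pp) (n1 := ndB0q2) (n2 := ndB4q0) (pc := pcB2) (cut := Cut.none) (xt := Ext.none) (P1 := 0) (W1 := 536870912) (P2 := 0) (W2 := 536870912) (P3 := 740881858) (W3 := 40050571) (N0 := 3) (En := eng) (mo := mog) (C1 := cd0q2) (C2 := cd4q0) (C3 := pd2)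
    rfl (fun _ => rfl) s12_pm_202

noncomputable def f_pm_203 : ℕ → ℕ → ℕ → ℕ → Bool := onCell 0 536870912 1610612736 536870912 740881858 40050571
    (rowB 3 eng mog cd0q2 cd4q0 pd3 1 true true false .up 2 0 3 (qsf 0 536870912 0 536870912 3) ndB0q2 ndB4q0 pcB3 Cut.none Ext.none)

def k0_pm_203 : ∃ t, chk3 f_pm_203 t 1 1 1 = true :=
  ⟨(b (a (l 4) (b (a (l 4) (b (a (l 16489120) (l 16562840)) (l 16541800))) (l 4))) (l 2)), by decide +kernel⟩

theorem c_pm_203 : CertB 0 536870912 0 536870912 740881858 40050571 3 eng mog cd0q2 cd4q0 pd3 true true false .up 2 0 3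
    ndB0q2 ndB4q0 pcB3 Cut.none Ext.none :=
  certB1 (fam := true) (s1 := true) (s2 := false) (a := 2) (b := 0) (c := 3) (cn := .up) (n1 := ndB0q2) (n2 := ndB4q0) (pc := pcB3) (cut := Cut.none) (xt := Ext.none) (P1 := 0) (W1 := 536870912) (P2 := 0) (W2 := 536870912) (P3 := 740881858) (W3 := 40050571) (N0 := 3) (En := eng) (mo := mog) (C1 := cd0q2) (C2 := cd4q0) (C3 := pd3)
    rfl (fun _ => rfl) k0_pm_203

noncomputable def f_pm_213 : ℕ → ℕ → ℕ → ℕ → Bool := onCell 0 536870912 1610612736 536870912 740881858 40050571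
    (rowB 3 eng mog cd0q2 cd4q1 pd3 1 true true false .pnn 2 1 3 (qsf 0 536870912 536870912 536870912 3) ndB0q2 ndB4q1 pcB3 Cut.none Ext.none)

def k0_pm_213 : ∃ t, chk3 f_pm_213 t 1 1 1 = true :=
  ⟨(b (a (l 4) (b (a (l 4) (b (a (l 16485968) (l 16564744)) (l 16526784))) (l 4))) (l 4)), by decide +kernel⟩

theorem c_pm_213 : CertB 0 536870912 536870912 536870912 740881858 40050571 3 eng mog cd0q2 cd4q1 pd3 true true false .pnn 2 1 3
    ndB0q2 ndB4q1 pcB3 Cut.none Ext.none :=
  certB1 (fam := true) (s1 := true) (s2 := false) (a := 2) (b := 1) (c := 3) (cn := .pnn) (n1 := ndB0q2) (n2 := ndB4q1) (pc := pcB3) (cut := Cut.none) (xt := Ext.none) (P1 := 0) (W1 := 536870912) (P2 := 536870912) (W2 := 536870912) (P3 := 740881858) (W3 := 40050571) (N0 := 3) (En := eng) (mo := mog) (C1 := cd0q2) (C2 := cd4q1) (C3 := pd3)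
    rfl (fun _ => rfl) k0_pm_213

noncomputable def f_mm_001 : ℕ → ℕ → ℕ → ℕ → Bool := onCell 0 536870912 0 536870912 740881858 40050571
    (rowB 3 eng mog cd0q0 cd4q0 pd1 0 true false false .up 0 0 1 (qsf 0 536870912 0 536870912 1) ndB0q0 ndB4q0 pcB1 Cut.none Ext.none)

def k0_mm_001 : ∃ t, chk3 f_mm_001 t 1 1 1 = true :=
  ⟨(l 4), by decide +kernel⟩

theorem c_mm_001 : CertB 0 536870912 0 536870912 740881858 40050571 3 eng mog cd0q0 cd4q0 pd1 true false false .up 0 0 1
    ndB0q0 ndB4q0 pcB1 Cut.none Ext.none :=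
  certB0 (fam := true) (s1 := false) (s2 := false) (a := 0) (b := 0) (c := 1) (cn := .up) (n1 := ndB0q0) (n2 := ndB4q0) (pc := pcB1) (cut := Cut.none) (xt := Ext.none) (P1 := 0) (W1 := 536870912) (P2 := 0) (W2 := 536870912) (P3 := 740881858) (W3 := 40050571) (N0 := 3) (En := eng) (mo := mog) (C1 := cd0q0) (C2 := cd4q0) (C3 := pd1)
    rfl k0_mm_001

noncomputable def f_mm_011 : ℕ → ℕ → ℕ → ℕ → Bool := onCell 0 536870912 536870912 536870912 740881858 40050571
    (rowB 3 eng mog cd0q0 cd4q1 pd1 0 true false false .pnn 0 1 1 (qsf 0 536870912 536870912 536870912 1) ndB0q0 ndB4q1 pcB1 Cut.none Ext.none)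

def k0_mm_011 : ∃ t, chk3 f_mm_011 t 1 1 1 = true :=
  ⟨(l 4), by decide +kernel⟩

theorem c_mm_011 : CertB 0 536870912 536870912 536870912 740881858 40050571 3 eng mog cd0q0 cd4q1 pd1 true false false .pnn 0 1 1
    ndB0q0 ndB4q1 pcB1 Cut.none Ext.none :=
  certB0 (fam := true) (s1 := false) (s2 := false) (a := 0) (b := 1) (c := 1) (cn := .pnn) (n1 := ndB0q0) (n2 := ndB4q1) (pc := pcB1) (cut := Cut.none) (xt := Ext.none) (P1 := 0) (W1 := 536870912) (P2 := 536870912) (W2 := 536870912) (P3 := 740881858) (W3 := 40050571) (N0 := 3) (En := eng) (mo := mog) (C1 := cd0q0) (C2 := cd4q1) (C3 := pd1)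
    rfl k0_mm_011

noncomputable def f_mm_012 : ℕ → ℕ → ℕ → ℕ → Bool := onCell 0 536870912 536870912 536870912 740881858 40050571
    (rowB 3 eng mog cd0q0 cd4q1 pd2 0 true false false .pnp 0 1 2 (qsf 0 536870912 536870912 536870912 2) ndB0q0 ndB4q1 pcB2 Cut.none Ext.none)

def k0_mm_012 : ∃ t, chk3 f_mm_012 t 1 1 1 = true :=
  ⟨(l 4), by decide +kernel⟩

theorem c_mm_012 : CertB 0 536870912 536870912 536870912 740881858 40050571 3 eng mog cd0q0 cd4q1 pd2 true false false .pnp 0 1 2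
    ndB0q0 ndB4q1 pcB2 Cut.none Ext.none :=
  certB0 (fam := true) (s1 := false) (s2 := false) (a := 0) (b := 1) (c := 2) (cn := .pnp) (n1 := ndB0q0) (n2 := ndB4q1) (pc := pcB2) (cut := Cut.none) (xt := Ext.none) (P1 := 0) (W1 := 536870912) (P2 := 536870912) (W2 := 536870912) (P3 := 740881858) (W3 := 40050571) (N0 := 3) (En := eng) (mo := mog) (C1 := cd0q0) (C2 := cd4q1) (C3 := pd2)
    rfl k0_mm_012

noncomputable def f_mm_022 : ℕ → ℕ → ℕ → ℕ → Bool := onCell 0 536870912 1073741824 536870912 740881858 40050571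
    (rowB 3 eng mog cd0q0 cd4q2 pd2 0 true false false .pp 0 2 2 (qsf 0 536870912 1073741824 536870912 2) ndB0q0 ndB4q2 pcB2 Cut.none Ext.none)

def k0_mm_022 : ∃ t, chk3 f_mm_022 t 1 1 1 = true :=
  ⟨(l 4), by decide +kernel⟩

theorem c_mm_022 : CertB 0 536870912 1073741824 536870912 740881858 40050571 3 eng mog cd0q0 cd4q2 pd2 true false false .pp 0 2 2
    ndB0q0 ndB4q2 pcB2 Cut.none Ext.none :=
  certB0 (fam := true) (s1 := false) (s2 := false) (a := 0) (b := 2) (c := 2) (cn := .pp) (n1 := ndB0q0) (n2 := ndB4q2) (pc := pcB2) (cut := Cut.none) (xt := Ext.none) (P1 := 0) (W1 := 536870912) (P2 := 1073741824) (W2 := 536870912) (P3 := 740881858) (W3 := 40050571) (N0 := 3) (En := eng) (mo := mog) (C1 := cd0q0) (C2 := cd4q2) (C3 := pd2)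
    rfl k0_mm_022

noncomputable def f_mm_023 : ℕ → ℕ → ℕ → ℕ → Bool := onCell 0 536870912 1073741824 536870912 740881858 40050571
    (rowB 3 eng mog cd0q0 cd4q2 pd3 0 true false false .up 0 2 3 (qsf 0 536870912 1073741824 536870912 3) ndB0q0 ndB4q2 pcB3 Cut.none Ext.none)

def k0_mm_023 : ∃ t, chk3 f_mm_023 t 1 1 1 = true :=
  ⟨(l 4), by decide +kernel⟩

theorem c_mm_023 : CertB 0 536870912 1073741824 536870912 740881858 40050571 3 eng mog cd0q0 cd4q2 pd3 true false false .up 0 2 3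
    ndB0q0 ndB4q2 pcB3 Cut.none Ext.none :=
  certB0 (fam := true) (s1 := false) (s2 := false) (a := 0) (b := 2) (c := 3) (cn := .up) (n1 := ndB0q0) (n2 := ndB4q2) (pc := pcB3) (cut := Cut.none) (xt := Ext.none) (P1 := 0) (W1 := 536870912) (P2 := 1073741824) (W2 := 536870912) (P3 := 740881858) (W3 := 40050571) (N0 := 3) (En := eng) (mo := mog) (C1 := cd0q0) (C2 := cd4q2) (C3 := pd3)
    rfl k0_mm_023

noncomputable def f_mm_033 : ℕ → ℕ → ℕ → ℕ → Bool := onCell 0 536870912 0 1230186008 740881858 40050571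
    (rowB 3 eng mog cd0q0 cd4q3 pd3 0 true false false .pnn 0 3 3 (qsf 0 536870912 0 1230186008 3) ndB0q0 ndB4q3 pcB3 Cut.none Ext.none)

def k0_mm_033 : ∃ t, chk3 f_mm_033 t 1 1 1 = true :=
  ⟨(l 5), by decide +kernel⟩

theorem c_mm_033 : CertB 0 536870912 0 1230186008 740881858 40050571 3 eng mog cd0q0 cd4q3 pd3 true false false .pnn 0 3 3
    ndB0q0 ndB4q3 pcB3 Cut.none Ext.none :=
  certB0 (fam := true) (s1 := false) (s2 := false) (a := 0) (b := 3) (c := 3) (cn := .pnn) (n1 := ndB0q0) (n2 := ndB4q3) (pc := pcB3) (cut := Cut.none) (xt := Ext.none) (P1 := 0) (W1 := 536870912) (P2 := 0) (W2 := 1230186008) (P3 := 740881858) (W3 := 40050571) (N0 := 3) (En := eng) (mo := mog) (C1 := cd0q0) (C2 := cd4q3) (C3 := pd3)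
    rfl k0_mm_033

noncomputable def f_mm_101 : ℕ → ℕ → ℕ → ℕ → Bool := onCell 536870912 536870912 0 536870912 740881858 40050571
    (rowB 3 eng mog cd0q1 cd4q0 pd1 0 true false false .npn 1 0 1 (qsf 536870912 536870912 0 536870912 1) ndB0q1 ndB4q0 pcB1 Cut.none Ext.none)

def k0_mm_101 : ∃ t, chk3 f_mm_101 t 1 1 1 = true :=
  ⟨(l 4), by decide +kernel⟩

theorem c_mm_101 : CertB 536870912 536870912 0 536870912 740881858 40050571 3 eng mog cd0q1 cd4q0 pd1 true false false .npn 1 0 1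
    ndB0q1 ndB4q0 pcB1 Cut.none Ext.none :=
  certB0 (fam := true) (s1 := false) (s2 := false) (a := 1) (b := 0) (c := 1) (cn := .npn) (n1 := ndB0q1) (n2 := ndB4q0) (pc := pcB1) (cut := Cut.none) (xt := Ext.none) (P1 := 536870912) (W1 := 536870912) (P2 := 0) (W2 := 536870912) (P3 := 740881858) (W3 := 40050571) (N0 := 3) (En := eng) (mo := mog) (C1 := cd0q1) (C2 := cd4q0) (C3 := pd1)
    rfl k0_mm_101

noncomputable def f_mm_102 : ℕ → ℕ → ℕ → ℕ → Bool := onCell 536870912 536870912 0 536870912 740881858 40050571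
    (rowB 3 eng mog cd0q1 cd4q0 pd2 0 true false false .npp 1 0 2 (qsf 536870912 536870912 0 536870912 2) ndB0q1 ndB4q0 pcB2 Cut.none Ext.none)

def k0_mm_102 : ∃ t, chk3 f_mm_102 t 1 1 1 = true :=
  ⟨(l 4), by decide +kernel⟩

theorem c_mm_102 : CertB 536870912 536870912 0 536870912 740881858 40050571 3 eng mog cd0q1 cd4q0 pd2 true false false .npp 1 0 2
    ndB0q1 ndB4q0 pcB2 Cut.none Ext.none :=
  certB0 (fam := true) (s1 := false) (s2 := false) (a := 1) (b := 0) (c := 2) (cn := .npp) (n1 := ndB0q1) (n2 := ndB4q0) (pc := pcB2) (cut := Cut.none) (xt := Ext.none) (P1 := 536870912) (W1 := 536870912) (P2 := 0) (W2 := 536870912) (P3 := 740881858) (W3 := 40050571) (N0 := 3) (En := eng) (mo := mog) (C1 := cd0q1) (C2 := cd4q0) (C3 := pd2)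
    rfl k0_mm_102

noncomputable def f_mm_112 : ℕ → ℕ → ℕ → ℕ → Bool := onCell 536870912 536870912 536870912 536870912 740881858 40050571
    (rowB 3 eng mog cd0q1 cd4q1 pd2 0 true false false .dn 1 1 2 (qsf 536870912 536870912 536870912 536870912 2) ndB0q1 ndB4q1 pcB2 Cut.none Ext.none)

def k0_mm_112 : ∃ t, chk3 f_mm_112 t 1 1 1 = true :=
  ⟨(l 4), by decide +kernel⟩

theorem c_mm_112 : CertB 536870912 536870912 536870912 536870912 740881858 40050571 3 eng mog cd0q1 cd4q1 pd2 true false false .dn 1 1 2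
    ndB0q1 ndB4q1 pcB2 Cut.none Ext.none :=
  certB0 (fam := true) (s1 := false) (s2 := false) (a := 1) (b := 1) (c := 2) (cn := .dn) (n1 := ndB0q1) (n2 := ndB4q1) (pc := pcB2) (cut := Cut.none) (xt := Ext.none) (P1 := 536870912) (W1 := 536870912) (P2 := 536870912) (W2 := 536870912) (P3 := 740881858) (W3 := 40050571) (N0 := 3) (En := eng) (mo := mog) (C1 := cd0q1) (C2 := cd4q1) (C3 := pd2)
    rfl k0_mm_112

noncomputable def f_mm_113 : ℕ → ℕ → ℕ → ℕ → Bool := onCell 536870912 536870912 536870912 536870912 740881858 40050571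
    (rowB 3 eng mog cd0q1 cd4q1 pd3 0 true false false .nn 1 1 3 (qsf 536870912 536870912 536870912 536870912 3) ndB0q1 ndB4q1 pcB3 Cut.none Ext.none)

def k0_mm_113 : ∃ t, chk3 f_mm_113 t 1 1 1 = true :=
  ⟨(l 4), by decide +kernel⟩

theorem c_mm_113 : CertB 536870912 536870912 536870912 536870912 740881858 40050571 3 eng mog cd0q1 cd4q1 pd3 true false false .nn 1 1 3
    ndB0q1 ndB4q1 pcB3 Cut.none Ext.none :=
  certB0 (fam := true) (s1 := false) (s2 := false) (a := 1) (b := 1) (c := 3) (cn := .nn) (n1 := ndB0q1) (n2 := ndB4q1) (pc := pcB3) (cut := Cut.none) (xt := Ext.none) (P1 := 536870912) (W1 := 536870912) (P2 := 536870912) (W2 := 536870912) (P3 := 740881858) (W3 := 40050571) (N0 := 3) (En := eng) (mo := mog) (C1 := cd0q1) (C2 := cd4q1) (C3 := pd3)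
    rfl k0_mm_113

noncomputable def f_mm_123 : ℕ → ℕ → ℕ → ℕ → Bool := onCell 536870912 536870912 1073741824 536870912 740881858 40050571
    (rowB 3 eng mog cd0q1 cd4q2 pd3 0 true false false .npn 1 2 3 (qsf 536870912 536870912 1073741824 536870912 3) ndB0q1 ndB4q2 pcB3 Cut.none Ext.none)

def k0_mm_123 : ∃ t, chk3 f_mm_123 t 1 1 1 = true :=
  ⟨(l 4), by decide +kernel⟩

theorem c_mm_123 : CertB 536870912 536870912 1073741824 536870912 740881858 40050571 3 eng mog cd0q1 cd4q2 pd3 true false false .npn 1 2 3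
    ndB0q1 ndB4q2 pcB3 Cut.none Ext.none :=
  certB0 (fam := true) (s1 := false) (s2 := false) (a := 1) (b := 2) (c := 3) (cn := .npn) (n1 := ndB0q1) (n2 := ndB4q2) (pc := pcB3) (cut := Cut.none) (xt := Ext.none) (P1 := 536870912) (W1 := 536870912) (P2 := 1073741824) (W2 := 536870912) (P3 := 740881858) (W3 := 40050571) (N0 := 3) (En := eng) (mo := mog) (C1 := cd0q1) (C2 := cd4q2) (C3 := pd3)
    rfl k0_mm_123

noncomputable def f_mm_133 : ℕ → ℕ → ℕ → ℕ → Bool := onCell 536870912 536870912 0 1230186008 740881858 40050571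
    (rowB 3 eng mog cd0q1 cd4q3 pd3 0 true false false .dn 1 3 3 (qsf 536870912 536870912 0 1230186008 3) ndB0q1 ndB4q3 pcB3 Cut.none Ext.none)

def k0_mm_133 : ∃ t, chk3 f_mm_133 t 1 1 1 = true :=
  ⟨(l 4), by decide +kernel⟩

theorem c_mm_133 : CertB 536870912 536870912 0 1230186008 740881858 40050571 3 eng mog cd0q1 cd4q3 pd3 true false false .dn 1 3 3
    ndB0q1 ndB4q3 pcB3 Cut.none Ext.none :=
  certB0 (fam := true) (s1 := false) (s2 := false) (a := 1) (b := 3) (c := 3) (cn := .dn) (n1 := ndB0q1) (n2 := ndB4q3) (pc := pcB3) (cut := Cut.none) (xt := Ext.none) (P1 := 536870912) (W1 := 536870912) (P2 := 0) (W2 := 1230186008) (P3 := 740881858) (W3 := 40050571) (N0 := 3) (En := eng) (mo := mog) (C1 := cd0q1) (C2 := cd4q3) (C3 := pd3)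
    rfl k0_mm_133

noncomputable def f_mm_202 : ℕ → ℕ → ℕ → ℕ → Bool := onCell 0 536870912 0 536870912 740881858 40050571
    (rowB 3 eng mog cd0q2 cd4q0 pd2 0 true false false .pp 2 0 2 (qsf 0 536870912 0 536870912 2) ndB0q2 ndB4q0 pcB2 Cut.none Ext.none)

def k0_mm_202 : ∃ t, chk3 f_mm_202 t 1 1 1 = true :=
  ⟨(b (a (l 4) (l 4)) (l 4)), by decide +kernel⟩

theorem c_mm_202 : CertB 0 536870912 0 536870912 740881858 40050571 3 eng mog cd0q2 cd4q0 pd2 true false false .pp 2 0 2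
    ndB0q2 ndB4q0 pcB2 Cut.none Ext.none :=
  certB0 (fam := true) (s1 := false) (s2 := false) (a := 2) (b := 0) (c := 2) (cn := .pp) (n1 := ndB0q2) (n2 := ndB4q0) (pc := pcB2) (cut := Cut.none) (xt := Ext.none) (P1 := 0) (W1 := 536870912) (P2 := 0) (W2 := 536870912) (P3 := 740881858) (W3 := 40050571) (N0 := 3) (En := eng) (mo := mog) (C1 := cd0q2) (C2 := cd4q0) (C3 := pd2)
    rfl k0_mm_202

noncomputable def f_mm_203 : ℕ → ℕ → ℕ → ℕ → Bool := onCell 0 536870912 1610612736 536870912 740881858 40050571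
    (rowB 3 eng mog cd0q2 cd4q0 pd3 1 true false false .up 2 0 3 (qsf 0 536870912 0 536870912 3) ndB0q2 ndB4q0 pcB3 Cut.none Ext.none)

def k0_mm_203 : ∃ t, chk3 f_mm_203 t 1 1 1 = true :=
  ⟨(l 4), by decide +kernel⟩

theorem c_mm_203 : CertB 0 536870912 0 536870912 740881858 40050571 3 eng mog cd0q2 cd4q0 pd3 true false false .up 2 0 3
    ndB0q2 ndB4q0 pcB3 Cut.none Ext.none :=
  certB1 (fam := true) (s1 := false) (s2 := false) (a := 2) (b := 0) (c := 3) (cn := .up) (n1 := ndB0q2) (n2 := ndB4q0) (pc := pcB3) (cut := Cut.none) (xt := Ext.none) (P1 := 0) (W1 := 536870912) (P2 := 0) (W2 := 536870912) (P3 := 740881858) (W3 := 40050571) (N0 := 3) (En := eng) (mo := mog) (C1 := cd0q2) (C2 := cd4q0) (C3 := pd3)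
    rfl (fun _ => rfl) k0_mm_203

noncomputable def f_mm_213 : ℕ → ℕ → ℕ → ℕ → Bool := onCell 0 536870912 536870912 536870912 740881858 40050571
    (rowB 3 eng mog cd0q2 cd4q1 pd3 0 true false false .pnn 2 1 3 (qsf 0 536870912 536870912 536870912 3) ndB0q2 ndB4q1 pcB3 Cut.none Ext.none)

def k0_mm_213 : ∃ t, chk3 f_mm_213 t 1 1 1 = true :=
  ⟨(l 4), by decide +kernel⟩

theorem c_mm_213 : CertB 0 536870912 536870912 536870912 740881858 40050571 3 eng mog cd0q2 cd4q1 pd3 true false false .pnn 2 1 3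
    ndB0q2 ndB4q1 pcB3 Cut.none Ext.none :=
  certB0 (fam := true) (s1 := false) (s2 := false) (a := 2) (b := 1) (c := 3) (cn := .pnn) (n1 := ndB0q2) (n2 := ndB4q1) (pc := pcB3) (cut := Cut.none) (xt := Ext.none) (P1 := 0) (W1 := 536870912) (P2 := 536870912) (W2 := 536870912) (P3 := 740881858) (W3 := 40050571) (N0 := 3) (En := eng) (mo := mog) (C1 := cd0q2) (C2 := cd4q1) (C3 := pd3)
    rfl k0_mm_213

end Pool.Agent.Strip051.G.I69_7273.Tab.C.BA04

namespace Pool.Agent.Strip051.G.I69_7273.Tab.C.BA05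

open Pool.Agent.Strip051.PB Pool.Agent.Strip051.PB.T
open Pool.Agent.Strip051.G.I69_7273.Tab

noncomputable def cut_pp_001 : Cut := Cut.of [[⟨3, 0, 0, 1449551462⟩]]

noncomputable def f_pp_001 : ℕ → ℕ → ℕ → ℕ → Bool := onCell 0 536870912 0 536870912 740881858 40050571
    (rowB 3 eng mog cd0q0 cd5q0 pd1 0 true true true .up 0 0 1 (qsf 0 536870912 0 536870912 1) ndB0q0 ndB5q0 pcB1 cut_pp_001 Ext.none)

def k0_pp_001 : ∃ t, chk3 f_pp_001 t 1 1 1 = true :=
  ⟨(l 4), by decide +kernel⟩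

theorem c_pp_001 : CertB 0 536870912 0 536870912 740881858 40050571 3 eng mog cd0q0 cd5q0 pd1 true true true .up 0 0 1
    ndB0q0 ndB5q0 pcB1 cut_pp_001 Ext.none :=
  certB0 (fam := true) (s1 := true) (s2 := true) (a := 0) (b := 0) (c := 1) (cn := .up) (n1 := ndB0q0) (n2 := ndB5q0) (pc := pcB1) (cut := cut_pp_001) (xt := Ext.none) (P1 := 0) (W1 := 536870912) (P2 := 0) (W2 := 536870912) (P3 := 740881858) (W3 := 40050571) (N0 := 3) (En := eng) (mo := mog) (C1 := cd0q0) (C2 := cd5q0) (C3 := pd1)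
    rfl k0_pp_001

noncomputable def cut_pp_011 : Cut := Cut.of [[⟨3, 0, 0, 1449551462⟩]]

noncomputable def f_pp_011 : ℕ → ℕ → ℕ → ℕ → Bool := onCell 0 536870912 536870912 536870912 740881858 40050571
    (rowB 3 eng mog cd0q0 cd5q1 pd1 0 true true true .pnn 0 1 1 (qsf 0 536870912 536870912 536870912 1) ndB0q0 ndB5q1 pcB1 cut_pp_011 Ext.none)

def k0_pp_011 : ∃ t, chk3 f_pp_011 t 1 1 1 = true :=
  ⟨(l 4), by decide +kernel⟩

theorem c_pp_011 : CertB 0 536870912 536870912 536870912 740881858 40050571 3 eng mog cd0q0 cd5q1 pd1 true true true .pnn 0 1 1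
    ndB0q0 ndB5q1 pcB1 cut_pp_011 Ext.none :=
  certB0 (fam := true) (s1 := true) (s2 := true) (a := 0) (b := 1) (c := 1) (cn := .pnn) (n1 := ndB0q0) (n2 := ndB5q1) (pc := pcB1) (cut := cut_pp_011) (xt := Ext.none) (P1 := 0) (W1 := 536870912) (P2 := 536870912) (W2 := 536870912) (P3 := 740881858) (W3 := 40050571) (N0 := 3) (En := eng) (mo := mog) (C1 := cd0q0) (C2 := cd5q1) (C3 := pd1)
    rfl k0_pp_011

noncomputable def cut_pp_012 : Cut := Cut.of [[⟨3, 0, 0, 1449551462⟩]]

noncomputable def f_pp_012 : ℕ → ℕ → ℕ → ℕ → Bool := onCell 0 536870912 536870912 536870912 740881858 40050571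
    (rowB 3 eng mog cd0q0 cd5q1 pd2 0 true true true .pnp 0 1 2 (qsf 0 536870912 536870912 536870912 2) ndB0q0 ndB5q1 pcB2 cut_pp_012 Ext.none)

def k0_pp_012 : ∃ t, chk3 f_pp_012 t 1 1 1 = true :=
  ⟨(l 4), by decide +kernel⟩

theorem c_pp_012 : CertB 0 536870912 536870912 536870912 740881858 40050571 3 eng mog cd0q0 cd5q1 pd2 true true true .pnp 0 1 2
    ndB0q0 ndB5q1 pcB2 cut_pp_012 Ext.none :=
  certB0 (fam := true) (s1 := true) (s2 := true) (a := 0) (b := 1) (c := 2) (cn := .pnp) (n1 := ndB0q0) (n2 := ndB5q1) (pc := pcB2) (cut := cut_pp_012) (xt := Ext.none) (P1 := 0) (W1 := 536870912) (P2 := 536870912) (W2 := 536870912) (P3 := 740881858) (W3 := 40050571) (N0 := 3) (En := eng) (mo := mog) (C1 := cd0q0) (C2 := cd5q1) (C3 := pd2)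
    rfl k0_pp_012

noncomputable def cut_pp_022 : Cut := Cut.of [[⟨3, 0, 0, 1449551462⟩]]

noncomputable def f_pp_022 : ℕ → ℕ → ℕ → ℕ → Bool := onCell 0 536870912 1073741824 536870912 740881858 40050571
    (rowB 3 eng mog cd0q0 cd5q2 pd2 0 true true true .pp 0 2 2 (qsf 0 536870912 1073741824 536870912 2) ndB0q0 ndB5q2 pcB2 cut_pp_022 Ext.none)

def k0_pp_022 : ∃ t, chk3 f_pp_022 t 1 1 1 = true :=
  ⟨(l 4), by decide +kernel⟩

theorem c_pp_022 : CertB 0 536870912 1073741824 536870912 740881858 40050571 3 eng mog cd0q0 cd5q2 pd2 true true true .pp 0 2 2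
    ndB0q0 ndB5q2 pcB2 cut_pp_022 Ext.none :=
  certB0 (fam := true) (s1 := true) (s2 := true) (a := 0) (b := 2) (c := 2) (cn := .pp) (n1 := ndB0q0) (n2 := ndB5q2) (pc := pcB2) (cut := cut_pp_022) (xt := Ext.none) (P1 := 0) (W1 := 536870912) (P2 := 1073741824) (W2 := 536870912) (P3 := 740881858) (W3 := 40050571) (N0 := 3) (En := eng) (mo := mog) (C1 := cd0q0) (C2 := cd5q2) (C3 := pd2)
    rfl k0_pp_022

noncomputable def cut_pp_023 : Cut := Cut.of [[⟨3, 0, 0, 1449551462⟩]]

noncomputable def f_pp_023 : ℕ → ℕ → ℕ → ℕ → Bool := onCell 0 536870912 1073741824 536870912 740881858 40050571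
    (rowB 3 eng mog cd0q0 cd5q2 pd3 0 true true true .up 0 2 3 (qsf 0 536870912 1073741824 536870912 3) ndB0q0 ndB5q2 pcB3 cut_pp_023 Ext.none)

def k0_pp_023 : ∃ t, chk3 f_pp_023 t 1 1 1 = true :=
  ⟨(l 4), by decide +kernel⟩

theorem c_pp_023 : CertB 0 536870912 1073741824 536870912 740881858 40050571 3 eng mog cd0q0 cd5q2 pd3 true true true .up 0 2 3
    ndB0q0 ndB5q2 pcB3 cut_pp_023 Ext.none :=
  certB0 (fam := true) (s1 := true) (s2 := true) (a := 0) (b := 2) (c := 3) (cn := .up) (n1 := ndB0q0) (n2 := ndB5q2) (pc := pcB3) (cut := cut_pp_023) (xt := Ext.none) (P1 := 0) (W1 := 536870912) (P2 := 1073741824) (W2 := 536870912) (P3 := 740881858) (W3 := 40050571) (N0 := 3) (En := eng) (mo := mog) (C1 := cd0q0) (C2 := cd5q2) (C3 := pd3)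
    rfl k0_pp_023

noncomputable def cut_pp_033 : Cut := Cut.of [[⟨3, 0, 0, 1449551462⟩]]

noncomputable def f_pp_033 : ℕ → ℕ → ℕ → ℕ → Bool := onCell 0 536870912 0 1230186008 740881858 40050571
    (rowB 3 eng mog cd0q0 cd5q3 pd3 0 true true true .pnn 0 3 3 (qsf 0 536870912 0 1230186008 3) ndB0q0 ndB5q3 pcB3 cut_pp_033 Ext.none)

def k0_pp_033 : ∃ t, chk3 f_pp_033 t 1 1 1 = true :=
  ⟨(l 4), by decide +kernel⟩

theorem c_pp_033 : CertB 0 536870912 0 1230186008 740881858 40050571 3 eng mog cd0q0 cd5q3 pd3 true true true .pnn 0 3 3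
    ndB0q0 ndB5q3 pcB3 cut_pp_033 Ext.none :=
  certB0 (fam := true) (s1 := true) (s2 := true) (a := 0) (b := 3) (c := 3) (cn := .pnn) (n1 := ndB0q0) (n2 := ndB5q3) (pc := pcB3) (cut := cut_pp_033) (xt := Ext.none) (P1 := 0) (W1 := 536870912) (P2 := 0) (W2 := 1230186008) (P3 := 740881858) (W3 := 40050571) (N0 := 3) (En := eng) (mo := mog) (C1 := cd0q0) (C2 := cd5q3) (C3 := pd3)
    rfl k0_pp_033

noncomputable def cut_pp_101 : Cut := Cut.of [[⟨3, 0, 0, 1449551462⟩]]

noncomputable def f_pp_101 : ℕ → ℕ → ℕ → ℕ → Bool := onCell 536870912 536870912 0 536870912 740881858 40050571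
    (rowB 3 eng mog cd0q1 cd5q0 pd1 0 true true true .npn 1 0 1 (qsf 536870912 536870912 0 536870912 1) ndB0q1 ndB5q0 pcB1 cut_pp_101 Ext.none)

def k0_pp_101 : ∃ t, chk3 f_pp_101 t 1 1 1 = true :=
  ⟨(l 4), by decide +kernel⟩

theorem c_pp_101 : CertB 536870912 536870912 0 536870912 740881858 40050571 3 eng mog cd0q1 cd5q0 pd1 true true true .npn 1 0 1
    ndB0q1 ndB5q0 pcB1 cut_pp_101 Ext.none :=
  certB0 (fam := true) (s1 := true) (s2 := true) (a := 1) (b := 0) (c := 1) (cn := .npn) (n1 := ndB0q1) (n2 := ndB5q0) (pc := pcB1) (cut := cut_pp_101) (xt := Ext.none) (P1 := 536870912) (W1 := 536870912) (P2 := 0) (W2 := 536870912) (P3 := 740881858) (W3 := 40050571) (N0 := 3) (En := eng) (mo := mog) (C1 := cd0q1) (C2 := cd5q0) (C3 := pd1)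
    rfl k0_pp_101

noncomputable def cut_pp_102 : Cut := Cut.of [[⟨3, 0, 0, 1449551462⟩]]

noncomputable def f_pp_102 : ℕ → ℕ → ℕ → ℕ → Bool := onCell 536870912 536870912 0 536870912 740881858 40050571
    (rowB 3 eng mog cd0q1 cd5q0 pd2 0 true true true .npp 1 0 2 (qsf 536870912 536870912 0 536870912 2) ndB0q1 ndB5q0 pcB2 cut_pp_102 Ext.none)

def k0_pp_102 : ∃ t, chk3 f_pp_102 t 1 1 1 = true :=
  ⟨(l 4), by decide +kernel⟩

theorem c_pp_102 : CertB 536870912 536870912 0 536870912 740881858 40050571 3 eng mog cd0q1 cd5q0 pd2 true true true .npp 1 0 2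
    ndB0q1 ndB5q0 pcB2 cut_pp_102 Ext.none :=
  certB0 (fam := true) (s1 := true) (s2 := true) (a := 1) (b := 0) (c := 2) (cn := .npp) (n1 := ndB0q1) (n2 := ndB5q0) (pc := pcB2) (cut := cut_pp_102) (xt := Ext.none) (P1 := 536870912) (W1 := 536870912) (P2 := 0) (W2 := 536870912) (P3 := 740881858) (W3 := 40050571) (N0 := 3) (En := eng) (mo := mog) (C1 := cd0q1) (C2 := cd5q0) (C3 := pd2)
    rfl k0_pp_102

noncomputable def cut_pp_112 : Cut := Cut.of [[⟨3, 0, 0, 1449551462⟩]]

noncomputable def f_pp_112 : ℕ → ℕ → ℕ → ℕ → Bool := onCell 536870912 536870912 536870912 536870912 740881858 40050571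
    (rowB 3 eng mog cd0q1 cd5q1 pd2 0 true true true .dn 1 1 2 (qsf 536870912 536870912 536870912 536870912 2) ndB0q1 ndB5q1 pcB2 cut_pp_112 Ext.none)

def k0_pp_112 : ∃ t, chk3 f_pp_112 t 1 1 1 = true :=
  ⟨(l 4), by decide +kernel⟩

theorem c_pp_112 : CertB 536870912 536870912 536870912 536870912 740881858 40050571 3 eng mog cd0q1 cd5q1 pd2 true true true .dn 1 1 2
    ndB0q1 ndB5q1 pcB2 cut_pp_112 Ext.none :=
  certB0 (fam := true) (s1 := true) (s2 := true) (a := 1) (b := 1) (c := 2) (cn := .dn) (n1 := ndB0q1) (n2 := ndB5q1) (pc := pcB2) (cut := cut_pp_112) (xt := Ext.none) (P1 := 536870912) (W1 := 536870912) (P2 := 536870912) (W2 := 536870912) (P3 := 740881858) (W3 := 40050571) (N0 := 3) (En := eng) (mo := mog) (C1 := cd0q1) (C2 := cd5q1) (C3 := pd2)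
    rfl k0_pp_112

noncomputable def cut_pp_113 : Cut := Cut.of [[⟨3, 0, 0, 1449551462⟩]]

noncomputable def f_pp_113 : ℕ → ℕ → ℕ → ℕ → Bool := onCell 536870912 536870912 536870912 536870912 740881858 40050571
    (rowB 3 eng mog cd0q1 cd5q1 pd3 0 true true true .nn 1 1 3 (qsf 536870912 536870912 536870912 536870912 3) ndB0q1 ndB5q1 pcB3 cut_pp_113 Ext.none)

def k0_pp_113 : ∃ t, chk3 f_pp_113 t 1 1 1 = true :=
  ⟨(l 4), by decide +kernel⟩

theorem c_pp_113 : CertB 536870912 536870912 536870912 536870912 740881858 40050571 3 eng mog cd0q1 cd5q1 pd3 true true true .nn 1 1 3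
    ndB0q1 ndB5q1 pcB3 cut_pp_113 Ext.none :=
  certB0 (fam := true) (s1 := true) (s2 := true) (a := 1) (b := 1) (c := 3) (cn := .nn) (n1 := ndB0q1) (n2 := ndB5q1) (pc := pcB3) (cut := cut_pp_113) (xt := Ext.none) (P1 := 536870912) (W1 := 536870912) (P2 := 536870912) (W2 := 536870912) (P3 := 740881858) (W3 := 40050571) (N0 := 3) (En := eng) (mo := mog) (C1 := cd0q1) (C2 := cd5q1) (C3 := pd3)
    rfl k0_pp_113

noncomputable def cut_pp_123 : Cut := Cut.of [[⟨3, 0, 0, 1449551462⟩]]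

noncomputable def f_pp_123 : ℕ → ℕ → ℕ → ℕ → Bool := onCell 536870912 536870912 1073741824 536870912 740881858 40050571
    (rowB 3 eng mog cd0q1 cd5q2 pd3 0 true true true .npn 1 2 3 (qsf 536870912 536870912 1073741824 536870912 3) ndB0q1 ndB5q2 pcB3 cut_pp_123 Ext.none)

def k0_pp_123 : ∃ t, chk3 f_pp_123 t 1 1 1 = true :=
  ⟨(l 4), by decide +kernel⟩

theorem c_pp_123 : CertB 536870912 536870912 1073741824 536870912 740881858 40050571 3 eng mog cd0q1 cd5q2 pd3 true true true .npn 1 2 3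
    ndB0q1 ndB5q2 pcB3 cut_pp_123 Ext.none :=
  certB0 (fam := true) (s1 := true) (s2 := true) (a := 1) (b := 2) (c := 3) (cn := .npn) (n1 := ndB0q1) (n2 := ndB5q2) (pc := pcB3) (cut := cut_pp_123) (xt := Ext.none) (P1 := 536870912) (W1 := 536870912) (P2 := 1073741824) (W2 := 536870912) (P3 := 740881858) (W3 := 40050571) (N0 := 3) (En := eng) (mo := mog) (C1 := cd0q1) (C2 := cd5q2) (C3 := pd3)
    rfl k0_pp_123

noncomputable def cut_pp_133 : Cut := Cut.of [[⟨3, 0, 0, 1449551462⟩]]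

noncomputable def f_pp_133 : ℕ → ℕ → ℕ → ℕ → Bool := onCell 536870912 536870912 0 1230186008 740881858 40050571
    (rowB 3 eng mog cd0q1 cd5q3 pd3 0 true true true .dn 1 3 3 (qsf 536870912 536870912 0 1230186008 3) ndB0q1 ndB5q3 pcB3 cut_pp_133 Ext.none)

def k0_pp_133 : ∃ t, chk3 f_pp_133 t 1 1 1 = true :=
  ⟨(l 4), by decide +kernel⟩

theorem c_pp_133 : CertB 536870912 536870912 0 1230186008 740881858 40050571 3 eng mog cd0q1 cd5q3 pd3 true true true .dn 1 3 3
    ndB0q1 ndB5q3 pcB3 cut_pp_133 Ext.none :=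
  certB0 (fam := true) (s1 := true) (s2 := true) (a := 1) (b := 3) (c := 3) (cn := .dn) (n1 := ndB0q1) (n2 := ndB5q3) (pc := pcB3) (cut := cut_pp_133) (xt := Ext.none) (P1 := 536870912) (W1 := 536870912) (P2 := 0) (W2 := 1230186008) (P3 := 740881858) (W3 := 40050571) (N0 := 3) (En := eng) (mo := mog) (C1 := cd0q1) (C2 := cd5q3) (C3 := pd3)
    rfl k0_pp_133

noncomputable def cut_pp_202 : Cut := Cut.of [[⟨3, 0, 0, 1449551462⟩]]

noncomputable def f_pp_202 : ℕ → ℕ → ℕ → ℕ → Bool := onCell 0 536870912 0 536870912 740881858 40050571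
    (rowB 3 eng mog cd0q2 cd5q0 pd2 0 true true true .pp 2 0 2 (qsf 0 536870912 0 536870912 2) ndB0q2 ndB5q0 pcB2 cut_pp_202 Ext.none)

def k0_pp_202 : ∃ t, chk3 f_pp_202 t 1 1 1 = true :=
  ⟨(l 4), by decide +kernel⟩

theorem c_pp_202 : CertB 0 536870912 0 536870912 740881858 40050571 3 eng mog cd0q2 cd5q0 pd2 true true true .pp 2 0 2
    ndB0q2 ndB5q0 pcB2 cut_pp_202 Ext.none :=
  certB0 (fam := true) (s1 := true) (s2 := true) (a := 2) (b := 0) (c := 2) (cn := .pp) (n1 := ndB0q2) (n2 := ndB5q0) (pc := pcB2) (cut := cut_pp_202) (xt := Ext.none) (P1 := 0) (W1 := 536870912) (P2 := 0) (W2 := 536870912) (P3 := 740881858) (W3 := 40050571) (N0 := 3) (En := eng) (mo := mog) (C1 := cd0q2) (C2 := cd5q0) (C3 := pd2)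
    rfl k0_pp_202

noncomputable def cut_pp_203 : Cut := Cut.of [[⟨3, 0, 0, 1449551462⟩]]

noncomputable def f_pp_203 : ℕ → ℕ → ℕ → ℕ → Bool := onCell 0 536870912 0 536870912 740881858 40050571
    (rowB 3 eng mog cd0q2 cd5q0 pd3 0 true true true .up 2 0 3 (qsf 0 536870912 0 536870912 3) ndB0q2 ndB5q0 pcB3 cut_pp_203 Ext.none)

def k0_pp_203 : ∃ t, chk3 f_pp_203 t 1 1 1 = true :=
  ⟨(l 4), by decide +kernel⟩

theorem c_pp_203 : CertB 0 536870912 0 536870912 740881858 40050571 3 eng mog cd0q2 cd5q0 pd3 true true true .up 2 0 3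
    ndB0q2 ndB5q0 pcB3 cut_pp_203 Ext.none :=
  certB0 (fam := true) (s1 := true) (s2 := true) (a := 2) (b := 0) (c := 3) (cn := .up) (n1 := ndB0q2) (n2 := ndB5q0) (pc := pcB3) (cut := cut_pp_203) (xt := Ext.none) (P1 := 0) (W1 := 536870912) (P2 := 0) (W2 := 536870912) (P3 := 740881858) (W3 := 40050571) (N0 := 3) (En := eng) (mo := mog) (C1 := cd0q2) (C2 := cd5q0) (C3 := pd3)
    rfl k0_pp_203

noncomputable def cut_pp_213 : Cut := Cut.of [[⟨3, 0, 0, 1449551462⟩]]

noncomputable def f_pp_213 : ℕ → ℕ → ℕ → ℕ → Bool := onCell 0 536870912 536870912 536870912 740881858 40050571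
    (rowB 3 eng mog cd0q2 cd5q1 pd3 0 true true true .pnn 2 1 3 (qsf 0 536870912 536870912 536870912 3) ndB0q2 ndB5q1 pcB3 cut_pp_213 Ext.none)

def k0_pp_213 : ∃ t, chk3 f_pp_213 t 1 1 1 = true :=
  ⟨(l 4), by decide +kernel⟩

theorem c_pp_213 : CertB 0 536870912 536870912 536870912 740881858 40050571 3 eng mog cd0q2 cd5q1 pd3 true true true .pnn 2 1 3
    ndB0q2 ndB5q1 pcB3 cut_pp_213 Ext.none :=
  certB0 (fam := true) (s1 := true) (s2 := true) (a := 2) (b := 1) (c := 3) (cn := .pnn) (n1 := ndB0q2) (n2 := ndB5q1) (pc := pcB3) (cut := cut_pp_213) (xt := Ext.none) (P1 := 0) (W1 := 536870912) (P2 := 536870912) (W2 := 536870912) (P3 := 740881858) (W3 := 40050571) (N0 := 3) (En := eng) (mo := mog) (C1 := cd0q2) (C2 := cd5q1) (C3 := pd3)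
    rfl k0_pp_213

noncomputable def cut_pm_001 : Cut := Cut.of [[⟨3, 0, 0, 1449551462⟩]]

noncomputable def f_pm_001 : ℕ → ℕ → ℕ → ℕ → Bool := onCell 0 536870912 0 536870912 740881858 40050571
    (rowB 3 eng mog cd0q0 cd5q0 pd1 0 true true false .up 0 0 1 (qsf 0 536870912 0 536870912 1) ndB0q0 ndB5q0 pcB1 cut_pm_001 Ext.none)

def k0_pm_001 : ∃ t, chk3 f_pm_001 t 1 1 1 = true :=
  ⟨(a (l 3) (b (l 6) (a (l 6) (b (l 6) (a (l 6) (b (l 6) (a (l 6) (b (l 6) (l 16214696))))))))), by decide +kernel⟩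

theorem c_pm_001 : CertB 0 536870912 0 536870912 740881858 40050571 3 eng mog cd0q0 cd5q0 pd1 true true false .up 0 0 1
    ndB0q0 ndB5q0 pcB1 cut_pm_001 Ext.none :=
  certB0 (fam := true) (s1 := true) (s2 := false) (a := 0) (b := 0) (c := 1) (cn := .up) (n1 := ndB0q0) (n2 := ndB5q0) (pc := pcB1) (cut := cut_pm_001) (xt := Ext.none) (P1 := 0) (W1 := 536870912) (P2 := 0) (W2 := 536870912) (P3 := 740881858) (W3 := 40050571) (N0 := 3) (En := eng) (mo := mog) (C1 := cd0q0) (C2 := cd5q0) (C3 := pd1)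
    rfl k0_pm_001

noncomputable def cut_pm_011 : Cut := Cut.of [[⟨3, 0, 0, 1449551462⟩], [⟨0, 0, 0, 67108864⟩, ⟨1, 1, 0, 67108864⟩, ⟨2, 1, 0, 67108864⟩]]

noncomputable def f_pm_011 : ℕ → ℕ → ℕ → ℕ → Bool := onCell 0 536870912 536870912 536870912 740881858 40050571
    (rowB 3 eng mog cd0q0 cd5q1 pd1 1 true true false .pnn 0 1 1 (qsf 0 536870912 536870912 536870912 1) ndB0q0 ndB5q1 pcB1 cut_pm_011 Ext.none)

def k0_pm_011 : ∃ t, chk3 f_pm_011 t 1 1 1 = true :=
  ⟨(b (l 6) (a (l 6) (b (l 6) (a (l 6) (b (l 6) (a (l 6) (a (l 6) (l 16341016)))))))), by decide +kernel⟩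

theorem c_pm_011 : CertB 0 536870912 536870912 536870912 740881858 40050571 3 eng mog cd0q0 cd5q1 pd1 true true false .pnn 0 1 1
    ndB0q0 ndB5q1 pcB1 cut_pm_011 Ext.none :=
  certB1 (fam := true) (s1 := true) (s2 := false) (a := 0) (b := 1) (c := 1) (cn := .pnn) (n1 := ndB0q0) (n2 := ndB5q1) (pc := pcB1) (cut := cut_pm_011) (xt := Ext.none) (P1 := 0) (W1 := 536870912) (P2 := 536870912) (W2 := 536870912) (P3 := 740881858) (W3 := 40050571) (N0 := 3) (En := eng) (mo := mog) (C1 := cd0q0) (C2 := cd5q1) (C3 := pd1)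
    rfl (fun _ => rfl) k0_pm_011

noncomputable def cut_pm_012 : Cut := Cut.of [[⟨3, 0, 0, 1449551462⟩], [⟨0, 0, 0, 67108864⟩, ⟨1, 1, 0, 67108864⟩, ⟨2, 1, 0, 67108864⟩]]

noncomputable def f_pm_012 : ℕ → ℕ → ℕ → ℕ → Bool := onCell 1073741824 536870912 536870912 536870912 740881858 40050571
    (rowB 3 eng mog cd0q0 cd5q1 pd2 2 true true false .pnp 0 1 2 (qsf 0 536870912 536870912 536870912 2) ndB0q0 ndB5q1 pcB2 cut_pm_012 Ext.none)

def k0_pm_012 : ∃ t, chk3 f_pm_012 t 4 1 1 = true :=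
  ⟨(b (b (a (b (a (b (l 16015824) (a (l 16125408) (l 16032920))) (b (l 15948216) (l 16004904))) (a (b (a (l 6) (l 16105568)) (l 6)) (b (l 16100048) (l 16110008)))) (b (a (b (l 2) (l 15938464)) (l 2)) (a (a (l 16182248) (l 16068808)) (b (l 15942616) (l 15990928))))) (a (b (a (l 6) (b (l 16276160) (l 6))) (l 6)) (b (a (b (l 16095048) (l 16203552)) (b (l 16035248) (l 16075704))) (a (b (a (l 6) (l 16226072)) (l 6)) (b (a (l 16251800) (l 16097096)) (a (l 16178592) (l 16124488))))))) (b (a (l 6) (b (a (l 6) (a (b (l 16285040) (l 6)) (b (l 16143296) (l 16157496)))) (l 6))) (l 6))), by decide +kernel⟩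

def k1_pm_012 : ∃ t, chk3 f_pm_012 t 5 2 1 = true :=
  ⟨(b (a (b (l 2) (a (a (l 15946544) (l 2)) (l 2))) (l 2)) (a (b (a (b (a (l 16008736) (l 15992424)) (a (l 16044224) (l 16025136))) (b (l 15971072) (l 15997840))) (a (a (b (l 16074248) (l 16096368)) (a (l 16193808) (b (l 16046112) (a (l 16066888) (l 16060832))))) (b (l 16017952) (l 16031016)))) (b (a (b (l 2) (l 15966744)) (l 2)) (a (b (l 15978672) (l 15983136)) (b (l 15946392) (l 15943456)))))), by decide +kernel⟩

def k2_pm_012 : ∃ t, chk3 f_pm_012 t 5 3 1 = true :=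
  ⟨(b (a (a (a (b (b (l 16110912) (l 16119904)) (b (l 16129688) (l 6))) (b (a (b (l 16087464) (l 16093120)) (a (b (l 16076072) (l 16080632)) (b (l 16068752) (l 16072120)))) (a (b (l 16099520) (l 16109272)) (b (a (l 16084800) (l 16075272)) (a (l 16092280) (l 16081448)))))) (b (b (l 16119096) (l 16034944)) (b (a (l 16052232) (l 16016832)) (a (l 16055136) (l 16015936))))) (b (a (b (l 15981344) (l 15974640)) (b (l 15933872) (l 15921832))) (a (b (l 15968408) (a (l 15979352) (l 15944928))) (b (l 15909752) (l 15981992))))) (a (a (l 6) (a (b (b (l 16082216) (b (l 16065856) (l 6))) (l 6)) (b (b (l 16037160) (b (l 16016864) (l 16016832))) (b (b (l 16015744) (a (l 6) (l 16000336))) (l 6))))) (b (b (a (a (l 15974056) (l 15936064)) (a (l 15900752) (l 15867680))) (a (a (b (l 15971008) (l 15968600)) (b (l 15928424) (l 15923552))) (b (a (l 15889544) (l 15854208)) (a (l 15881816) (l 15843792))))) (b (a (a (b (l 15965656) (l 15961608)) (b (l 15918280) (l 15912400)))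 (b (a (l 15874136) (l 15833328)) (a (l 15886944) (l 15822808)))) (a (a (b (a (b (l 15970920) (l 15968272)) (l 15943392)) (a (l 6) (b (l 15938384) (c (l 15956432) (l 15912680))))) (b (c (l 15928032) (l 15882024)) (a (b (l 15912152) (c (l 15930672) (l 15884624))) (b (l 15886624) (l 15923928))))) (b (a (c (l 15881808) (l 15831664)) (c (l 15838304) (l 15784248))) (a (c (b (l 15874792) (l 15869712)) (b (l 15823792) (l 15818200))) (c (b (l 15830048) (l 15824112)) (b (l 15774968) (l 15768416)))))))))), by decide +kernel⟩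

def k3_pm_012 : ∃ t, chk3 f_pm_012 t 3 2 1 = true :=
  ⟨(a (b (l 2) (a (b (l 2) (a (b (l 2) (l 15911472)) (l 2))) (l 2))) (l 2)), by decide +kernel⟩

def k4_pm_012 : ∃ t, chk3 f_pm_012 t 3 6 1 = true :=
  ⟨(a (a (b (a (b (l 15895192) (l 15876160)) (b (l 15864744) (l 15839656))) (a (b (l 15859112) (a (l 15855224) (l 15829200))) (b (l 15816328) (l 15794376)))) (b (a (b (l 2) (l 15811832)) (l 2)) (b (a (l 15782968) (l 15758680)) (a (l 15755296) (l 15725800))))) (b (l 2) (a (b (l 2) (a (l 15705768) (l 2))) (l 2)))), by decide +kernel⟩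

def k5_pm_012 : ∃ t, chk3 f_pm_012 t 3 7 1 = true :=
  ⟨(a (b (a (b (a (a (l 15837496) (l 15808936)) (b (l 15776480) (l 15763624))) (a (a (b (l 15821464) (l 15809304)) (b (l 15791264) (l 15777432))) (b (l 15749504) (l 15734064)))) (b (a (l 15726160) (l 15691456)) (a (b (l 15701656) (l 15683752)) (a (l 15662208) (l 15644920))))) (a (b (a (a (b (l 15796240) (l 15783016)) (b (l 15762672) (l 15746944))) (b (a (l 15731736) (l 15703368)) (a (l 15714360) (l 15684424)))) (a (a (b (a (l 15779792) (l 15759528)) (c (b (l 15788136) (l 15802256)) (b (l 15729176) (l 15721616)))) (b (a (l 15740240) (l 15721856)) (a (b (l 15728464) (l 15720504)) (b (l 15709152) (l 15700544))))) (b (a (b (l 15700576) (l 15691288)) (b (l 15669552) (l 15659224))) (a (b (l 15681888) (c (l 15704264) (l 15639488))) (b (l 15648624) (c (l 15670824) (l 15604192))))))) (b (a (b (l 15664592) (a (l 15657072) (l 15631712))) (a (l 15641000) (l 15600080))) (a (b (a (b (l 15641192) (l 15630064))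 (l 15609272)) (a (b (l 15639672) (c (l 15640904) (l 15572352))) (b (l 15591440) (a (l 15585792) (l 15572464))))) (b (a (l 15585048) (l 15563232)) (a (b (l 15566416) (l 15553504)) (b (l 15543688) (l 15530232)))))))) (b (a (b (a (l 15666400) (l 15651216)) (a (a (l 15629936) (l 15617400)) (l 15603352))) (a (b (l 2) (l 15593528)) (l 2))) (a (b (a (b (l 15587616) (l 15562008)) (b (l 15564160) (l 15557368))) (a (b (a (l 15543888) (l 15527160)) (a (b (l 15523416) (l 15509344)) (l 15498384))) (b (a (l 15513056) (l 15501672)) (a (l 15483008) (l 15470312))))) (b (a (b (l 15551008) (l 15520848)) (l 15531952)) (a (b (l 15489384) (a (l 15460400) (l 15453104))) (b (l 15482256) (a (l 15448536) (l 15446568)))))))), by decide +kernel⟩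

theorem s6_pm_012 : ∃ t, chk3 f_pm_012 t 3 3 1 = true := ex3_b k4_pm_012 k5_pm_012

theorem s7_pm_012 : ∃ t, chk3 f_pm_012 t 3 1 1 = true := ex3_b k3_pm_012 s6_pm_012

theorem s8_pm_012 : ∃ t, chk3 f_pm_012 t 5 1 1 = true := ex3_b k1_pm_012 k2_pm_012

theorem s9_pm_012 : ∃ t, chk3 f_pm_012 t 2 1 1 = true := ex3_a k0_pm_012 s8_pm_012

theorem s10_pm_012 : ∃ t, chk3 f_pm_012 t 1 1 1 = true := ex3_a s9_pm_012 s7_pm_012

theorem c_pm_012 : CertB 0 536870912 536870912 536870912 740881858 40050571 3 eng mog cd0q0 cd5q1 pd2 true true false .pnp 0 1 2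
    ndB0q0 ndB5q1 pcB2 cut_pm_012 Ext.none :=
  certB2 (fam := true) (s1 := true) (s2 := false) (a := 0) (b := 1) (c := 2) (cn := .pnp) (n1 := ndB0q0) (n2 := ndB5q1) (pc := pcB2) (cut := cut_pm_012) (xt := Ext.none) (P1 := 0) (W1 := 536870912) (P2 := 536870912) (W2 := 536870912) (P3 := 740881858) (W3 := 40050571) (N0 := 3) (En := eng) (mo := mog) (C1 := cd0q0) (C2 := cd5q1) (C3 := pd2)
    rfl (fun _ => rfl) s10_pm_012

noncomputable def cut_pm_022 : Cut := Cut.of [[⟨3, 0, 0, 1449551462⟩], [⟨0, 0, 0, 67108864⟩, ⟨1, 1, 0, 67108864⟩, ⟨2, 1, 0, 67108864⟩]]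

noncomputable def f_pm_022 : ℕ → ℕ → ℕ → ℕ → Bool := onCell 0 536870912 1073741824 536870912 740881858 40050571
    (rowB 3 eng mog cd0q0 cd5q2 pd2 0 true true false .pp 0 2 2 (qsf 0 536870912 1073741824 536870912 2) ndB0q0 ndB5q2 pcB2 cut_pm_022 Ext.none)

def k0_pm_022 : ∃ t, chk3 f_pm_022 t 2 2 1 = true :=
  ⟨(b (a (b (l 6) (a (l 6) (a (l 6) (b (l 6) (b (l 6) (l 16166584)))))) (b (a (a (l 6) (b (b (l 6) (a (l 6) (c (l 16017280) (l 15979136)))) (b (a (l 16048192) (l 15993752)) (a (l 16040328) (l 15989016))))) (b (a (b (a (c (b (a (l 6) (l 15954472)) (l 15966944)) (b (l 15924928) (l 15924104))) (a (c (l 15928912) (l 15882648)) (c (l 15904440) (l 15855984)))) (a (c (l 15965680) (l 15922864)) (c (l 15917752) (l 15870568)))) (b (a (c (b (l 15868080) (l 15870104)) (b (l 15816352) (l 15818488))) (c (b (l 15822728) (l 15826096)) (b (l 15766816) (l 15770376)))) (a (c (l 15872984) (l 15821648)) (b (l 15865064) (l 15805512))))) (a (b (a (l 15942904) (l 15895704))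 (a (l 15941136) (l 15896752))) (b (a (l 15851672) (l 15810440)) (a (l 15855424) (l 15816856)))))) (a (b (a (b (a (l 6) (l 16083960)) (l 16140064)) (b (l 16070912) (l 16085624))) (a (a (l 16102768) (l 16077600)) (b (l 15995504) (l 15989296)))) (b (a (b (l 16064968) (l 16022528)) (l 15843072)) (a (l 15916664) (l 15852232)))))) (a (b (a (l 6) (a (b (l 6) (c (l 16258560) (l 16251456))) (b (b (l 16148976) (l 16132440)) (l 16256840)))) (a (a (b (l 6) (a (l 6) (l 16245336))) (b (a (l 6) (l 16215648)) (l 16214312))) (b (a (a (l 16197000) (l 16159296)) (l 16085640)) (a (l 16125320) (l 16064864))))) (a (b (b (a (a (l 16076288) (l 16036160)) (l 15980776)) (a (l 16036824) (l 15973536))) (b (a (l 16023848) (l 15972496)) (l 16182400))) (b (b (a (l 15916272) (l 15861888)) (l 16106328)) (b (l 15911512) (l 15930616)))))), by decide +kernel⟩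

def k1_pm_022 : ∃ t, chk3 f_pm_022 t 2 3 1 = true :=
  ⟨(b (a (b (a (a (b (a (l 16189856) (l 16179696)) (l 16121760)) (l 16312112)) (b (l 16065448) (l 16032416))) (a (b (a (l 16060976) (l 16042424)) (l 15996392)) (l 16123072))) (a (b (a (l 16204848) (l 15974160)) (l 15955760)) (b (a (l 15958904) (l 15948648)) (l 15969904)))) (a (b (a (b (l 15943296) (l 15893568)) (l 15887512)) (a (b (l 15848248) (l 15810416)) (l 15818168))) (a (b (l 15912368) (l 2)) (l 2)))), by decide +kernel⟩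

def k2_pm_022 : ∃ t, chk3 f_pm_022 t 3 1 1 = true :=
  ⟨(b (a (b (a (b (b (a (b (a (a (b (l 15824544) (l 15766136)) (c (l 15772384) (l 15711992))) (b (a (c (l 15749976) (l 15687728)) (l 15699488)) (l 15715536))) (a (b (l 15760424) (l 15765128)) (l 15724640))) (c (b (a (l 15738040) (l 15715744)) (l 15704672)) (b (a (l 15642632) (l 15607896)) (l 15641992)))) (a (a (l 15797488) (l 15742280)) (b (l 15689184) (l 15704344)))) (b (a (l 15779152) (l 15726376)) (a (l 15798240) (l 15754624)))) (b (b (a (b (a (c (l 15644416) (l 15576520)) (c (l 15618104) (l 15548232))) (a (l 15630032) (l 15604656))) (b (a (c (l 15594312) (l 15522360)) (l 15640888)) (a (l 15581688) (l 15560984)))) (a (b (l 15636776) (l 15656048)) (l 15689832))) (a (b (l 15684080) (l 15720056)) (b (l 15650728) (l 15693488))))) (a (b (b (l 15903832) (l 15826240)) (b (l 15859536) (l 15897048))) (b (a (l 15774048) (l 15757080)) (l 15922160)))) (b (a (b (b (a (b (a (l 15515824) (l 15498120)) (l 15534432))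 (b (a (l 15483040) (l 15470648)) (l 15507992))) (a (l 15574832) (l 15553784))) (a (b (l 15626648) (l 15676104)) (l 15640056))) (b (a (b (a (b (l 15461008) (l 15495208)) (l 15472024)) (l 15543272)) (b (a (l 15468696) (l 15468120)) (l 15543288))) (a (b (l 15608584) (l 2)) (l 2)))) (a (b (l 15916264) (l 2)) (l 2)))) (a (b (a (b (l 15946824) (l 2)) (l 2)) (l 2)) (l 2))), by decide +kernel⟩

theorem s3_pm_022 : ∃ t, chk3 f_pm_022 t 2 1 1 = true := ex3_b k0_pm_022 k1_pm_022

theorem s4_pm_022 : ∃ t, chk3 f_pm_022 t 1 1 1 = true := ex3_a s3_pm_022 k2_pm_022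

theorem c_pm_022 : CertB 0 536870912 1073741824 536870912 740881858 40050571 3 eng mog cd0q0 cd5q2 pd2 true true false .pp 0 2 2
    ndB0q0 ndB5q2 pcB2 cut_pm_022 Ext.none :=
  certB0 (fam := true) (s1 := true) (s2 := false) (a := 0) (b := 2) (c := 2) (cn := .pp) (n1 := ndB0q0) (n2 := ndB5q2) (pc := pcB2) (cut := cut_pm_022) (xt := Ext.none) (P1 := 0) (W1 := 536870912) (P2 := 1073741824) (W2 := 536870912) (P3 := 740881858) (W3 := 40050571) (N0 := 3) (En := eng) (mo := mog) (C1 := cd0q0) (C2 := cd5q2) (C3 := pd2)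
    rfl s4_pm_022

noncomputable def cut_pm_023 : Cut := Cut.of [[⟨3, 0, 0, 1449551462⟩]]

noncomputable def f_pm_023 : ℕ → ℕ → ℕ → ℕ → Bool := onCell 0 536870912 1610612736 536870912 740881858 40050571
    (rowB 3 eng mog cd0q0 cd5q2 pd3 1 true true false .up 0 2 3 (qsf 0 536870912 1073741824 536870912 3) ndB0q0 ndB5q2 pcB3 cut_pm_023 Ext.none)

def k0_pm_023 : ∃ t, chk3 f_pm_023 t 1 1 1 = true :=
  ⟨(a (b (b (a (a (b (a (l 15795016) (l 15833792)) (l 342622840183)) (b (a (l 15861680) (l 15878288)) (a (l 15828640) (l 15848816)))) (a (b (a (l 15901584) (l 15948664)) (a (l 15863624) (l 15878728))) (b (a (l 15965912) (l 15957960)) (l 16083272)))) (a (b (a (l 2) (l 15844200)) (l 2)) (b (a (b (l 15866704) (l 15870496)) (b (l 15921728) (l 15882536))) (a (b (l 15890408) (l 2)) (b (l 15878496) (l 15947992)))))) (a (l 2) (b (a (l 2) (b (l 16082176) (l 2))) (l 2)))) (b (b (a (a (b (a (l 15933248) (l 15891904)) (a (l 15975640) (l 15962520))) (b (a (l 15839104)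 (l 15782960)) (a (l 15928464) (l 15879320)))) (a (b (a (l 15724488) (b (l 15641904) (l 15695656))) (a (l 15827688) (l 15777280))) (b (a (b (l 15581040) (l 15640272)) (b (l 15513744) (l 15580296))) (a (l 15724152) (l 15672200))))) (a (b (a (b (l 15990680) (l 15993032)) (b (l 15963608) (l 15993104))) (a (b (l 15989056) (l 15977656)) (b (l 16021176) (l 16045608)))) (b (a (b (l 15880664) (l 15932032)) (b (l 15787040) (l 15846616))) (a (b (l 15984376) (l 16033472)) (b (l 15917800) (l 15990512)))))) (b (a (b (a (b (l 16065408) (l 16143800)) (b (l 16064072) (l 16149448))) (a (l 90830253127) (b (l 16221320) (l 16278008)))) (a (b (b (l 16063424) (l 16128496)) (b (l 16202128) (l 16271752))) (b (b (l 16045784) (l 16103720)) (b (l 16182608) (l 16259552))))) (b (a (a (l 2) (l 16352952)) (a (b (l 16328448) (l 16373744)) (b (l 16321160) (l 16382096)))) (a (l 2) (a (b (l 16416624) (l 2)) (b (b (l 16413448) (l 16437296)) (b (l 16453600) (b (l 16467168) (l 4)))))))))),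 by decide +kernel⟩

theorem c_pm_023 : CertB 0 536870912 1073741824 536870912 740881858 40050571 3 eng mog cd0q0 cd5q2 pd3 true true false .up 0 2 3
    ndB0q0 ndB5q2 pcB3 cut_pm_023 Ext.none :=
  certB1 (fam := true) (s1 := true) (s2 := false) (a := 0) (b := 2) (c := 3) (cn := .up) (n1 := ndB0q0) (n2 := ndB5q2) (pc := pcB3) (cut := cut_pm_023) (xt := Ext.none) (P1 := 0) (W1 := 536870912) (P2 := 1073741824) (W2 := 536870912) (P3 := 740881858) (W3 := 40050571) (N0 := 3) (En := eng) (mo := mog) (C1 := cd0q0) (C2 := cd5q2) (C3 := pd3)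
    rfl (fun _ => rfl) k0_pm_023

noncomputable def cut_pm_033 : Cut := Cut.of [[⟨3, 0, 0, 1449551462⟩]]

noncomputable def f_pm_033 : ℕ → ℕ → ℕ → ℕ → Bool := onCell 1610612736 536870912 0 1230186008 740881858 40050571
    (rowB 3 eng mog cd0q0 cd5q3 pd3 2 true true false .pnn 0 3 3 (qsf 0 536870912 0 1230186008 3) ndB0q0 ndB5q3 pcB3 cut_pm_033 Ext.none)

def k0_pm_033 : ∃ t, chk3 f_pm_033 t 1 2 1 = true :=
  ⟨(b (a (l 1) (a (l 1) (l 4))) (a (l 1) (a (l 1) (a (a (b (l 1) (b (l 1) (l 16094888))) (b (l 4) (a (l 16111520) (l 16129584)))) (a (b (l 4) (a (l 16148808) (l 4))) (l 4)))))), by decide +kernel⟩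

def k1_pm_033 : ∃ t, chk3 f_pm_033 t 1 3 1 = true :=
  ⟨(b (a (a (l 1) (a (l 1) (b (l 1) (a (l 1) (b (l 1) (l 15914088)))))) (a (b (a (l 1) (a (b (l 1) (l 15977696)) (b (l 16042488) (l 16054296)))) (a (b (l 443487233223) (l 15983184)) (b (a (l 16007920) (l 16073704)) (a (l 16052416) (l 16111496))))) (a (b (a (b (l 16107400) (l 16121824)) (b (a (l 16154552) (l 16190728)) (a (l 16169360) (l 16198832)))) (b (a (l 16140416) (l 16209440)) (a (l 16178328) (l 16250064)))) (a (b (a (b (l 16206760) (l 16235480)) (l 16399072)) (b (a (l 16262432) (l 16304168)) (l 16322888))) (a (b (l 136062705335) (b (l 16332320) (l 16381008))) (b (l 4) (a (l 16458288) (b (l 4) (a (l 16403048) (l 16395896)))))))))) (a (a (b (l 1) (b (a (l 1) (l 15750952)) (a (l 402148323607) (b (l 15802448) (l 15827504))))) (b (b (a (l 15779632) (l 397316517223)) (a (l 15805960) (l 15903184))) (b (a (l 15834592) (l 15909848)) (a (b (l 15855760) (l 15860960)) (a (l 15888096) (l 15943136))))))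 (a (b (b (a (l 16014088) (a (l 16102432) (l 16163720))) (a (l 16043840) (l 16179096))) (b (a (l 16060808) (a (l 16196304) (l 16263904))) (a (a (l 16050208) (l 16138048)) (a (l 16213224) (l 16279000))))) (a (b (b (l 16108512) (l 16324272)) (b (l 16347488) (a (l 16332272) (l 16374104)))) (b (a (b (l 16368848) (l 16401024)) (a (l 16419664) (a (l 16437760) (b (a (l 16441104) (l 16442472)) (l 16463680))))) (a (b (l 16420192) (b (l 16417632) (l 16421472))) (a (b (l 16444320) (l 16454456)) (a (b (l 16459248) (l 16466552)) (a (l 16470256) (a (l 16473472) (l 16539000))))))))))), by decide +kernel⟩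

theorem s2_pm_033 : ∃ t, chk3 f_pm_033 t 1 1 1 = true := ex3_b k0_pm_033 k1_pm_033

theorem c_pm_033 : CertB 0 536870912 0 1230186008 740881858 40050571 3 eng mog cd0q0 cd5q3 pd3 true true false .pnn 0 3 3
    ndB0q0 ndB5q3 pcB3 cut_pm_033 Ext.none :=
  certB2 (fam := true) (s1 := true) (s2 := false) (a := 0) (b := 3) (c := 3) (cn := .pnn) (n1 := ndB0q0) (n2 := ndB5q3) (pc := pcB3) (cut := cut_pm_033) (xt := Ext.none) (P1 := 0) (W1 := 536870912) (P2 := 0) (W2 := 1230186008) (P3 := 740881858) (W3 := 40050571) (N0 := 3) (En := eng) (mo := mog) (C1 := cd0q0) (C2 := cd5q3) (C3 := pd3)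
    rfl (fun _ => rfl) s2_pm_033

noncomputable def cut_pm_101 : Cut := Cut.of [[⟨3, 0, 0, 1449551462⟩]]

noncomputable def f_pm_101 : ℕ → ℕ → ℕ → ℕ → Bool := onCell 536870912 536870912 536870912 536870912 740881858 40050571
    (rowB 3 eng mog cd0q1 cd5q0 pd1 1 true true false .npn 1 0 1 (qsf 536870912 536870912 0 536870912 1) ndB0q1 ndB5q0 pcB1 cut_pm_101 Ext.none)

def k0_pm_101 : ∃ t, chk3 f_pm_101 t 1 1 1 = true :=
  ⟨(b (a (b (l 6) (a (l 6) (b (l 6) (a (l 6) (a (l 6) (l 16406856)))))) (a (b (l 1) (a (b (l 1) (a (l 16378424) (l 1))) (l 1))) (l 1))) (a (b (a (l 6) (a (b (a (l 6) (l 16372016)) (a (l 16244064) (l 16227304))) (b (a (l 16339536) (l 16304856)) (a (l 16205464) (l 16182480))))) (a (b (a (l 6) (a (l 16128736) (l 16068424))) (a (a (l 16289520) (l 16151232)) (a (l 16056256) (l 16002528)))) (a (b (a (l 16021952) (l 16023208)) (a (l 15950384) (l 15903976))) (b (a (l 16018032) (l 16009552)) (a (l 15863328) (l 15825784)))))) (a (a (b (b (a (l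 16270720) (l 16241632)) (a (l 16157224) (l 16129288))) (b (a (l 15998912) (l 15987280)) (a (l 15790824) (l 15769304)))) (b (b (a (l 16212200) (l 1)) (a (l 16093568) (l 16054240))) (b (a (l 15963744) (l 15921504)) (a (l 15816664) (l 15716528))))) (a (b (b (l 1) (a (b (l 1) (l 15978944)) (l 1))) (b (a (l 15867224) (b (a (l 15857872) (l 1)) (a (l 15774896) (l 15743904)))) (a (l 15860616) (b (l 15673024) (l 15553864))))) (b (l 1) (b (a (b (l 1) (a (a (l 15724384) (l 1)) (l 1))) (l 1)) (a (b (a (l 15628392) (b (l 146060277895) (l 15602224))) (a (l 15521272) (l 15497504))) (b (a (b (l 1) (l 15584624)) (l 1)) (b (l 158408159991) (l 15433352)))))))))), by decide +kernel⟩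

theorem c_pm_101 : CertB 536870912 536870912 0 536870912 740881858 40050571 3 eng mog cd0q1 cd5q0 pd1 true true false .npn 1 0 1
    ndB0q1 ndB5q0 pcB1 cut_pm_101 Ext.none :=
  certB1 (fam := true) (s1 := true) (s2 := false) (a := 1) (b := 0) (c := 1) (cn := .npn) (n1 := ndB0q1) (n2 := ndB5q0) (pc := pcB1) (cut := cut_pm_101) (xt := Ext.none) (P1 := 536870912) (W1 := 536870912) (P2 := 0) (W2 := 536870912) (P3 := 740881858) (W3 := 40050571) (N0 := 3) (En := eng) (mo := mog) (C1 := cd0q1) (C2 := cd5q0) (C3 := pd1)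
    rfl (fun _ => rfl) k0_pm_101

noncomputable def cut_pm_102 : Cut := Cut.of [[⟨3, 0, 0, 1449551462⟩]]

noncomputable def f_pm_102 : ℕ → ℕ → ℕ → ℕ → Bool := onCell 536870912 536870912 1073741824 536870912 740881858 40050571
    (rowB 3 eng mog cd0q1 cd5q0 pd2 1 true true false .npp 1 0 2 (qsf 536870912 536870912 0 536870912 2) ndB0q1 ndB5q0 pcB2 cut_pm_102 Ext.none)

def k0_pm_102 : ∃ t, chk3 f_pm_102 t 2 1 1 = true :=
  ⟨(b (a (b (b (a (a (b (l 15986992) (l 15976112)) (b (l 15927752) (l 15918040))) (b (l 15999176) (l 15898536))) (a (b (a (l 2) (l 15909112)) (l 2)) (b (l 15820960) (l 15833904)))) (b (a (l 2) (b (l 15866624) (l 2))) (l 2))) (b (a (b (b (l 15848808) (l 15806144)) (b (l 15818808) (l 15728328))) (b (b (l 15611304) (l 15628464)) (b (l 15639696) (l 15629784)))) (a (b (b (l 15763264) (l 15816216)) (a (l 2) (l 15874920))) (b (b (l 15656840) (l 15738464)) (b (l 15812144) (l 15868416)))))) (a (l 2) (b (a (l 2) (b (l 227195842087) (l 2))) (l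 2)))), by decide +kernel⟩

def k1_pm_102 : ∃ t, chk3 f_pm_102 t 3 1 1 = true :=
  ⟨(b (a (b (a (b (a (c (l 15596400) (l 15570504)) (b (l 15557168) (l 15570944))) (a (b (l 15599152) (l 15608456)) (b (l 15580552) (l 15588840)))) (b (a (b (l 15550496) (l 15563952)) (b (l 15546632) (l 15561216))) (a (b (l 15573848) (l 15582048)) (b (l 15572696) (l 15581736))))) (a (b (b (a (l 15628024) (l 15603352)) (l 15781472)) (a (l 15812528) (l 15797840))) (b (b (a (l 15592448) (l 15592808)) (a (l 15655792) (l 15660368))) (a (l 15789688) (l 15801904))))) (b (a (b (a (b (a (l 15539992) (l 15529016)) (a (l 15555592) (l 15545368))) (b (a (l 15506088) (l 15481848)) (l 15542056))) (a (b (l 15568248) (l 15585784)) (b (l 15551544) (l 15584936)))) (b (a (b (b (l 15437824) (l 15458168)) (b (l 15479208) (l 15501088))) (b (b (a (l 15404056) (l 15380944)) (l 15419632)) (b (l 15447768) (l 15476512)))) (a (b (l 15534568) (l 15581800)) (b (b (l 15505824) (l 15535776)) (l 15581008)))))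 (a (b (b (a (l 15607784) (l 15621024)) (a (l 15679040) (l 15695384))) (a (l 15817272) (l 15830400))) (b (b (a (l 15631920) (l 15643816)) (a (l 15709984) (l 15726688))) (a (l 15843496) (l 15859904)))))) (a (b (a (b (l 16128480) (l 16004296)) (b (a (l 15932440) (l 15949768)) (l 16041712))) (a (l 2) (b (l 16110352) (l 2)))) (b (a (b (l 16013128) (l 16092920)) (b (b (l 15970832) (l 16041976)) (l 16140712))) (b (a (l 16196960) (l 16272440)) (a (l 16295808) (l 16410600)))))), by decide +kernel⟩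

theorem s2_pm_102 : ∃ t, chk3 f_pm_102 t 1 1 1 = true := ex3_a k0_pm_102 k1_pm_102

theorem c_pm_102 : CertB 536870912 536870912 0 536870912 740881858 40050571 3 eng mog cd0q1 cd5q0 pd2 true true false .npp 1 0 2
    ndB0q1 ndB5q0 pcB2 cut_pm_102 Ext.none :=
  certB1 (fam := true) (s1 := true) (s2 := false) (a := 1) (b := 0) (c := 2) (cn := .npp) (n1 := ndB0q1) (n2 := ndB5q0) (pc := pcB2) (cut := cut_pm_102) (xt := Ext.none) (P1 := 536870912) (W1 := 536870912) (P2 := 0) (W2 := 536870912) (P3 := 740881858) (W3 := 40050571) (N0 := 3) (En := eng) (mo := mog) (C1 := cd0q1) (C2 := cd5q0) (C3 := pd2)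
    rfl (fun _ => rfl) s2_pm_102

noncomputable def cut_pm_112 : Cut := Cut.of [[⟨3, 0, 0, 1449551462⟩]]

noncomputable def f_pm_112 : ℕ → ℕ → ℕ → ℕ → Bool := onCell 536870912 536870912 1073741824 536870912 740881858 40050571
    (rowB 3 eng mog cd0q1 cd5q1 pd2 1 true true false .dn 1 1 2 (qsf 536870912 536870912 536870912 536870912 2) ndB0q1 ndB5q1 pcB2 cut_pm_112 Ext.none)

def k0_pm_112 : ∃ t, chk3 f_pm_112 t 1 1 1 = true :=
  ⟨(a (b (a (b (a (b (a (l 16109136) (l 16008096)) (b (l 16022640) (l 16037224))) (b (b (l 1) (l 15817656)) (b (l 15819912) (l 15833656)))) (a (b (b (a (l 16044840) (l 15940176)) (a (l 15985496) (l 15955896))) (a (l 15960632) (l 15953848))) (b (b (l 15867384) (l 15922800)) (a (l 15940568) (l 15922200))))) (b (a (b (l 1) (b (l 1) (l 15727768))) (l 1)) (a (b (b (l 15763456) (l 15817240)) (l 16098368)) (b (b (l 1) (l 15739400)) (l 15927440))))) (a (b (a (b (a (l 15878400) (l 15895600)) (a (l 15771616) (l 15802952))) (b (l 15936400)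 (l 15870536))) (a (b (a (l 15657240) (l 15699464)) (a (b (l 15565448) (l 15499096)) (l 15590848))) (b (l 15870808) (l 15693872)))) (b (a (b (l 15987808) (l 15905336)) (b (l 15922992) (l 15952008))) (a (b (l 15849832) (l 15785280)) (b (l 15940168) (l 15905264)))))) (b (a (b (l 1) (a (b (l 1) (l 16015432)) (l 1))) (l 1)) (a (b (a (b (l 15923592) (l 15989976)) (b (l 15945216) (l 16046880))) (a (b (l 16026760) (l 16037072)) (b (l 16116744) (l 16171616)))) (b (a (b (l 1) (l 16096816)) (l 1)) (b (a (l 16200888) (l 16273976)) (a (l 16300096) (l 16416312))))))), by decide +kernel⟩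

theorem c_pm_112 : CertB 536870912 536870912 536870912 536870912 740881858 40050571 3 eng mog cd0q1 cd5q1 pd2 true true false .dn 1 1 2
    ndB0q1 ndB5q1 pcB2 cut_pm_112 Ext.none :=
  certB1 (fam := true) (s1 := true) (s2 := false) (a := 1) (b := 1) (c := 2) (cn := .dn) (n1 := ndB0q1) (n2 := ndB5q1) (pc := pcB2) (cut := cut_pm_112) (xt := Ext.none) (P1 := 536870912) (W1 := 536870912) (P2 := 536870912) (W2 := 536870912) (P3 := 740881858) (W3 := 40050571) (N0 := 3) (En := eng) (mo := mog) (C1 := cd0q1) (C2 := cd5q1) (C3 := pd2)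
    rfl (fun _ => rfl) k0_pm_112

noncomputable def cut_pm_113 : Cut := Cut.of [[⟨3, 0, 0, 1449551462⟩]]

noncomputable def f_pm_113 : ℕ → ℕ → ℕ → ℕ → Bool := onCell 536870912 536870912 1610612736 536870912 740881858 40050571
    (rowB 3 eng mog cd0q1 cd5q1 pd3 1 true true false .nn 1 1 3 (qsf 536870912 536870912 536870912 536870912 3) ndB0q1 ndB5q1 pcB3 cut_pm_113 Ext.none)

def k0_pm_113 : ∃ t, chk3 f_pm_113 t 1 1 1 = true :=
  ⟨(a (b (b (a (a (b (a (b (l 339400588279) (l 382886781383)) (l 219678438663)) (a (l 2) (l 381276088247))) (b (a (l 15550752) (l 15619088)) (a (l 325978752183) (l 15493400)))) (a (b (l 15720488) (b (l 15645936) (l 15599280))) (b (l 15868208) (l 15807288)))) (b (a (a (l 2) (b (l 388255619655) (l 2))) (a (b (l 15553608) (l 360338873351)) (a (l 15715896) (l 15843504)))) (a (l 2) (a (b (l 398456549735) (l 2)) (l 419931663223))))) (b (a (l 2) (b (a (l 2) (l 448385534967)) (l 2))) (l 2))) (a (b (b (a (b (l 16031072) (l 16016568))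 (b (l 16217000) (l 16166800))) (b (a (l 15971336) (l 16126208)) (a (l 15931104) (l 16083232)))) (b (b (a (b (l 15897488) (l 574551233847)) (a (l 111366234615) (l 4))) (a (b (l 571866836983) (l 2)) (l 4))) (l 4))) (b (a (b (b (l 16350480) (l 16326032)) (b (l 16290536) (l 16243384))) (b (b (l 16447536) (l 16456576)) (l 4))) (l 4)))), by decide +kernel⟩

theorem c_pm_113 : CertB 536870912 536870912 536870912 536870912 740881858 40050571 3 eng mog cd0q1 cd5q1 pd3 true true false .nn 1 1 3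
    ndB0q1 ndB5q1 pcB3 cut_pm_113 Ext.none :=
  certB1 (fam := true) (s1 := true) (s2 := false) (a := 1) (b := 1) (c := 3) (cn := .nn) (n1 := ndB0q1) (n2 := ndB5q1) (pc := pcB3) (cut := cut_pm_113) (xt := Ext.none) (P1 := 536870912) (W1 := 536870912) (P2 := 536870912) (W2 := 536870912) (P3 := 740881858) (W3 := 40050571) (N0 := 3) (En := eng) (mo := mog) (C1 := cd0q1) (C2 := cd5q1) (C3 := pd3)
    rfl (fun _ => rfl) k0_pm_113

noncomputable def cut_pm_123 : Cut := Cut.of [[⟨3, 0, 0, 1449551462⟩]]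

noncomputable def f_pm_123 : ℕ → ℕ → ℕ → ℕ → Bool := onCell 536870912 536870912 1610612736 536870912 740881858 40050571
    (rowB 3 eng mog cd0q1 cd5q2 pd3 1 true true false .npn 1 2 3 (qsf 536870912 536870912 1073741824 536870912 3) ndB0q1 ndB5q2 pcB3 cut_pm_123 Ext.none)

def k0_pm_123 : ∃ t, chk3 f_pm_123 t 1 1 1 = true :=
  ⟨(a (b (b (a (a (b (a (b (l 163239858087) (l 15512840)) (l 259339714983)) (a (l 15614664) (l 15552176))) (b (b (l 1) (l 424158969175)) (b (l 188472810183) (l 15494136)))) (a (b (l 1) (a (l 442412598375) (l 1))) (l 1))) (a (b (a (b (l 15686008) (l 15754184)) (b (l 15578736) (l 15663312))) (a (b (l 15835352) (l 15917648)) (b (l 15755512) (l 15848584)))) (b (a (b (l 201894927895) (l 15588968)) (b (l 1) (l 499858268711))) (a (b (l 15702984) (l 15817408)) (c (l 15816032) (l 15700632)))))) (b (a (b (a (b (l 15993320) (l 16067808)) (b (l 15937104) (l 16012832))) (a (b (l 16150360) (l 16230512)) (b (l 16095464) (l 16178392)))) (b (a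 (a (l 15938336) (l 15923520)) (b (l 15876776) (l 15945304))) (a (b (l 16044568) (l 16123632)) (b (l 16017568) (l 16086408))))) (b (a (b (a (l 16299832) (l 16257208)) (a (l 16363064) (l 16320760))) (a (b (l 16182736) (b (l 16260888) (l 16289752))) (b (a (l 16162752) (l 4)) (l 4)))) (a (b (a (b (l 16409552) (l 16430872)) (l 16372976)) (b (a (l 16448376) (l 4)) (l 4))) (l 4))))) (a (b (b (l 1) (b (l 1) (a (b (l 1) (l 532071126039)) (l 1)))) (b (b (a (b (l 15849808) (l 15917712)) (b (l 1) (l 4))) (a (b (l 16130192) (l 4)) (l 4))) (l 4))) (b (l 1) (l 4)))), by decide +kernel⟩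

theorem c_pm_123 : CertB 536870912 536870912 1073741824 536870912 740881858 40050571 3 eng mog cd0q1 cd5q2 pd3 true true false .npn 1 2 3
    ndB0q1 ndB5q2 pcB3 cut_pm_123 Ext.none :=
  certB1 (fam := true) (s1 := true) (s2 := false) (a := 1) (b := 2) (c := 3) (cn := .npn) (n1 := ndB0q1) (n2 := ndB5q2) (pc := pcB3) (cut := cut_pm_123) (xt := Ext.none) (P1 := 536870912) (W1 := 536870912) (P2 := 1073741824) (W2 := 536870912) (P3 := 740881858) (W3 := 40050571) (N0 := 3) (En := eng) (mo := mog) (C1 := cd0q1) (C2 := cd5q2) (C3 := pd3)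
    rfl (fun _ => rfl) k0_pm_123

noncomputable def cut_pm_133 : Cut := Cut.of [[⟨3, 0, 0, 1449551462⟩]]

noncomputable def f_pm_133 : ℕ → ℕ → ℕ → ℕ → Bool := onCell 536870912 536870912 0 1230186008 740881858 40050571
    (rowB 3 eng mog cd0q1 cd5q3 pd3 0 true true false .dn 1 3 3 (qsf 536870912 536870912 0 1230186008 3) ndB0q1 ndB5q3 pcB3 cut_pm_133 Ext.none)

def k0_pm_133 : ∃ t, chk3 f_pm_133 t 1 1 1 = true :=
  ⟨(b (l 2) (b (l 2) (a (b (l 2) (l 4)) (l 2)))), by decide +kernel⟩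

theorem c_pm_133 : CertB 536870912 536870912 0 1230186008 740881858 40050571 3 eng mog cd0q1 cd5q3 pd3 true true false .dn 1 3 3
    ndB0q1 ndB5q3 pcB3 cut_pm_133 Ext.none :=
  certB0 (fam := true) (s1 := true) (s2 := false) (a := 1) (b := 3) (c := 3) (cn := .dn) (n1 := ndB0q1) (n2 := ndB5q3) (pc := pcB3) (cut := cut_pm_133) (xt := Ext.none) (P1 := 536870912) (W1 := 536870912) (P2 := 0) (W2 := 1230186008) (P3 := 740881858) (W3 := 40050571) (N0 := 3) (En := eng) (mo := mog) (C1 := cd0q1) (C2 := cd5q3) (C3 := pd3)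
    rfl k0_pm_133

noncomputable def cut_pm_202 : Cut := Cut.of [[⟨3, 0, 0, 1449551462⟩]]

noncomputable def f_pm_202 : ℕ → ℕ → ℕ → ℕ → Bool := onCell 0 536870912 0 536870912 740881858 40050571
    (rowB 3 eng mog cd0q2 cd5q0 pd2 0 true true false .pp 2 0 2 (qsf 0 536870912 0 536870912 2) ndB0q2 ndB5q0 pcB2 cut_pm_202 Ext.none)

def k0_pm_202 : ∃ t, chk3 f_pm_202 t 1 1 1 = true :=
  ⟨(b (a (l 4) (b (a (b (a (a (l 4) (b (l 15578848) (l 15690432))) (b (a (l 15540504) (l 15504520)) (a (l 15600944) (l 15559952)))) (a (l 4) (b (a (l 15671080) (l 15623976)) (l 15726328)))) (b (a (b (a (b (l 15454200) (l 15478200)) (b (l 15589464) (l 15443800))) (a (l 15517176) (l 15522888))) (a (b (b (a (l 15402016) (b (l 15385552) (l 15394520))) (a (l 15422688) (l 15410072))) (b (l 15439960) (l 15466752))) (b (a (b (b (a (l 15376800) (l 15370888)) (l 15382728)) (l 15399136)) (b (a (b (b (l 15363352) (l 15367752)) (l 15375408)) (b (a (b (l 15357928) (l 15364416)) (l 15466624))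 (l 15373952))) (a (l 15394080) (l 15395808)))) (a (b (l 15425040) (l 15453768)) (b (l 15423992) (l 15455312)))))) (a (b (a (l 15744672) (l 15537864)) (a (l 15650176) (l 15816256))) (a (b (l 15678072) (b (l 15558128) (l 15592688))) (b (a (l 15499896) (l 15504000)) (a (l 15565848) (l 15571336))))))) (a (a (l 4) (b (b (l 15808984) (l 15892536)) (l 4))) (b (a (b (l 15712200) (l 15796712)) (b (a (l 15740152) (b (l 15620032) (l 15661272))) (a (l 15747800) (l 15730856)))) (a (a (l 15935248) (l 15900392)) (b (l 15826528) (l 15912208))))))) (a (l 4) (a (l 4) (b (a (b (b (l 16030864) (l 16101576)) (b (l 16170272) (l 4))) (b (b (l 15990552) (l 16064112)) (b (l 16134992) (l 16205048)))) (a (l 4) (b (b (l 16275120) (l 16346864)) (b (l 16422592) (l 4)))))))), by decide +kernel⟩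

theorem c_pm_202 : CertB 0 536870912 0 536870912 740881858 40050571 3 eng mog cd0q2 cd5q0 pd2 true true false .pp 2 0 2
    ndB0q2 ndB5q0 pcB2 cut_pm_202 Ext.none :=
  certB0 (fam := true) (s1 := true) (s2 := false) (a := 2) (b := 0) (c := 2) (cn := .pp) (n1 := ndB0q2) (n2 := ndB5q0) (pc := pcB2) (cut := cut_pm_202) (xt := Ext.none) (P1 := 0) (W1 := 536870912) (P2 := 0) (W2 := 536870912) (P3 := 740881858) (W3 := 40050571) (N0 := 3) (En := eng) (mo := mog) (C1 := cd0q2) (C2 := cd5q0) (C3 := pd2)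
    rfl k0_pm_202

noncomputable def cut_pm_203 : Cut := Cut.of [[⟨3, 0, 0, 1449551462⟩]]

noncomputable def f_pm_203 : ℕ → ℕ → ℕ → ℕ → Bool := onCell 0 536870912 1610612736 536870912 740881858 40050571
    (rowB 3 eng mog cd0q2 cd5q0 pd3 1 true true false .up 2 0 3 (qsf 0 536870912 0 536870912 3) ndB0q2 ndB5q0 pcB3 cut_pm_203 Ext.none)

def k0_pm_203 : ∃ t, chk3 f_pm_203 t 1 1 1 = true :=
  ⟨(a (l 4) (b (l 4) (l 2))), by decide +kernel⟩

theorem c_pm_203 : CertB 0 536870912 0 536870912 740881858 40050571 3 eng mog cd0q2 cd5q0 pd3 true true false .up 2 0 3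
    ndB0q2 ndB5q0 pcB3 cut_pm_203 Ext.none :=
  certB1 (fam := true) (s1 := true) (s2 := false) (a := 2) (b := 0) (c := 3) (cn := .up) (n1 := ndB0q2) (n2 := ndB5q0) (pc := pcB3) (cut := cut_pm_203) (xt := Ext.none) (P1 := 0) (W1 := 536870912) (P2 := 0) (W2 := 536870912) (P3 := 740881858) (W3 := 40050571) (N0 := 3) (En := eng) (mo := mog) (C1 := cd0q2) (C2 := cd5q0) (C3 := pd3)
    rfl (fun _ => rfl) k0_pm_203

noncomputable def cut_pm_213 : Cut := Cut.of [[⟨3, 0, 0, 1449551462⟩]]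

noncomputable def f_pm_213 : ℕ → ℕ → ℕ → ℕ → Bool := onCell 0 536870912 536870912 536870912 740881858 40050571
    (rowB 3 eng mog cd0q2 cd5q1 pd3 0 true true false .pnn 2 1 3 (qsf 0 536870912 536870912 536870912 3) ndB0q2 ndB5q1 pcB3 cut_pm_213 Ext.none)

def k0_pm_213 : ∃ t, chk3 f_pm_213 t 1 1 1 = true :=
  ⟨(a (l 4) (b (l 4) (l 4))), by decide +kernel⟩

theorem c_pm_213 : CertB 0 536870912 536870912 536870912 740881858 40050571 3 eng mog cd0q2 cd5q1 pd3 true true false .pnn 2 1 3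
    ndB0q2 ndB5q1 pcB3 cut_pm_213 Ext.none :=
  certB0 (fam := true) (s1 := true) (s2 := false) (a := 2) (b := 1) (c := 3) (cn := .pnn) (n1 := ndB0q2) (n2 := ndB5q1) (pc := pcB3) (cut := cut_pm_213) (xt := Ext.none) (P1 := 0) (W1 := 536870912) (P2 := 536870912) (W2 := 536870912) (P3 := 740881858) (W3 := 40050571) (N0 := 3) (En := eng) (mo := mog) (C1 := cd0q2) (C2 := cd5q1) (C3 := pd3)
    rfl k0_pm_213

noncomputable def cut_mm_001 : Cut := Cut.of [[⟨3, 0, 0, 1449551462⟩]]

noncomputable def f_mm_001 : ℕ → ℕ → ℕ → ℕ → Bool := onCell 0 536870912 0 536870912 740881858 40050571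
    (rowB 3 eng mog cd0q0 cd5q0 pd1 0 true false false .up 0 0 1 (qsf 0 536870912 0 536870912 1) ndB0q0 ndB5q0 pcB1 cut_mm_001 Ext.none)

def k0_mm_001 : ∃ t, chk3 f_mm_001 t 1 1 1 = true :=
  ⟨(l 4), by decide +kernel⟩

theorem c_mm_001 : CertB 0 536870912 0 536870912 740881858 40050571 3 eng mog cd0q0 cd5q0 pd1 true false false .up 0 0 1
    ndB0q0 ndB5q0 pcB1 cut_mm_001 Ext.none :=
  certB0 (fam := true) (s1 := false) (s2 := false) (a := 0) (b := 0) (c := 1) (cn := .up) (n1 := ndB0q0) (n2 := ndB5q0) (pc := pcB1) (cut := cut_mm_001) (xt := Ext.none) (P1 := 0) (W1 := 536870912) (P2 := 0) (W2 := 536870912) (P3 := 740881858) (W3 := 40050571) (N0 := 3) (En := eng) (mo := mog) (C1 := cd0q0) (C2 := cd5q0) (C3 := pd1)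
    rfl k0_mm_001

noncomputable def cut_mm_011 : Cut := Cut.of [[⟨3, 0, 0, 1449551462⟩]]

noncomputable def f_mm_011 : ℕ → ℕ → ℕ → ℕ → Bool := onCell 0 536870912 536870912 536870912 740881858 40050571
    (rowB 3 eng mog cd0q0 cd5q1 pd1 0 true false false .pnn 0 1 1 (qsf 0 536870912 536870912 536870912 1) ndB0q0 ndB5q1 pcB1 cut_mm_011 Ext.none)

def k0_mm_011 : ∃ t, chk3 f_mm_011 t 1 1 1 = true :=
  ⟨(l 4), by decide +kernel⟩

theorem c_mm_011 : CertB 0 536870912 536870912 536870912 740881858 40050571 3 eng mog cd0q0 cd5q1 pd1 true false false .pnn 0 1 1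
    ndB0q0 ndB5q1 pcB1 cut_mm_011 Ext.none :=
  certB0 (fam := true) (s1 := false) (s2 := false) (a := 0) (b := 1) (c := 1) (cn := .pnn) (n1 := ndB0q0) (n2 := ndB5q1) (pc := pcB1) (cut := cut_mm_011) (xt := Ext.none) (P1 := 0) (W1 := 536870912) (P2 := 536870912) (W2 := 536870912) (P3 := 740881858) (W3 := 40050571) (N0 := 3) (En := eng) (mo := mog) (C1 := cd0q0) (C2 := cd5q1) (C3 := pd1)
    rfl k0_mm_011

noncomputable def cut_mm_012 : Cut := Cut.of [[⟨3, 0, 0, 1449551462⟩]]

noncomputable def f_mm_012 : ℕ → ℕ → ℕ → ℕ → Bool := onCell 0 536870912 536870912 536870912 740881858 40050571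
    (rowB 3 eng mog cd0q0 cd5q1 pd2 0 true false false .pnp 0 1 2 (qsf 0 536870912 536870912 536870912 2) ndB0q0 ndB5q1 pcB2 cut_mm_012 Ext.none)

def k0_mm_012 : ∃ t, chk3 f_mm_012 t 1 1 1 = true :=
  ⟨(l 4), by decide +kernel⟩

theorem c_mm_012 : CertB 0 536870912 536870912 536870912 740881858 40050571 3 eng mog cd0q0 cd5q1 pd2 true false false .pnp 0 1 2
    ndB0q0 ndB5q1 pcB2 cut_mm_012 Ext.none :=
  certB0 (fam := true) (s1 := false) (s2 := false) (a := 0) (b := 1) (c := 2) (cn := .pnp) (n1 := ndB0q0) (n2 := ndB5q1) (pc := pcB2) (cut := cut_mm_012) (xt := Ext.none) (P1 := 0) (W1 := 536870912) (P2 := 536870912) (W2 := 536870912) (P3 := 740881858) (W3 := 40050571) (N0 := 3) (En := eng) (mo := mog) (C1 := cd0q0) (C2 := cd5q1) (C3 := pd2)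
    rfl k0_mm_012

noncomputable def cut_mm_022 : Cut := Cut.of [[⟨3, 0, 0, 1449551462⟩]]

noncomputable def f_mm_022 : ℕ → ℕ → ℕ → ℕ → Bool := onCell 0 536870912 1073741824 536870912 740881858 40050571
    (rowB 3 eng mog cd0q0 cd5q2 pd2 0 true false false .pp 0 2 2 (qsf 0 536870912 1073741824 536870912 2) ndB0q0 ndB5q2 pcB2 cut_mm_022 Ext.none)

def k0_mm_022 : ∃ t, chk3 f_mm_022 t 1 1 1 = true :=
  ⟨(l 4), by decide +kernel⟩

theorem c_mm_022 : CertB 0 536870912 1073741824 536870912 740881858 40050571 3 eng mog cd0q0 cd5q2 pd2 true false false .pp 0 2 2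
    ndB0q0 ndB5q2 pcB2 cut_mm_022 Ext.none :=
  certB0 (fam := true) (s1 := false) (s2 := false) (a := 0) (b := 2) (c := 2) (cn := .pp) (n1 := ndB0q0) (n2 := ndB5q2) (pc := pcB2) (cut := cut_mm_022) (xt := Ext.none) (P1 := 0) (W1 := 536870912) (P2 := 1073741824) (W2 := 536870912) (P3 := 740881858) (W3 := 40050571) (N0 := 3) (En := eng) (mo := mog) (C1 := cd0q0) (C2 := cd5q2) (C3 := pd2)
    rfl k0_mm_022

noncomputable def cut_mm_023 : Cut := Cut.of [[⟨3, 0, 0, 1449551462⟩]]

noncomputable def f_mm_023 : ℕ → ℕ → ℕ → ℕ → Bool := onCell 0 536870912 1073741824 536870912 740881858 40050571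
    (rowB 3 eng mog cd0q0 cd5q2 pd3 0 true false false .up 0 2 3 (qsf 0 536870912 1073741824 536870912 3) ndB0q0 ndB5q2 pcB3 cut_mm_023 Ext.none)

def k0_mm_023 : ∃ t, chk3 f_mm_023 t 1 1 1 = true :=
  ⟨(l 4), by decide +kernel⟩

theorem c_mm_023 : CertB 0 536870912 1073741824 536870912 740881858 40050571 3 eng mog cd0q0 cd5q2 pd3 true false false .up 0 2 3
    ndB0q0 ndB5q2 pcB3 cut_mm_023 Ext.none :=
  certB0 (fam := true) (s1 := false) (s2 := false) (a := 0) (b := 2) (c := 3) (cn := .up) (n1 := ndB0q0) (n2 := ndB5q2) (pc := pcB3) (cut := cut_mm_023) (xt := Ext.none) (P1 := 0) (W1 := 536870912) (P2 := 1073741824) (W2 := 536870912) (P3 := 740881858) (W3 := 40050571) (N0 := 3) (En := eng) (mo := mog) (C1 := cd0q0) (C2 := cd5q2) (C3 := pd3)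
    rfl k0_mm_023

noncomputable def cut_mm_033 : Cut := Cut.of [[⟨3, 0, 0, 1449551462⟩]]

noncomputable def f_mm_033 : ℕ → ℕ → ℕ → ℕ → Bool := onCell 0 536870912 0 1230186008 740881858 40050571
    (rowB 3 eng mog cd0q0 cd5q3 pd3 0 true false false .pnn 0 3 3 (qsf 0 536870912 0 1230186008 3) ndB0q0 ndB5q3 pcB3 cut_mm_033 Ext.none)

def k0_mm_033 : ∃ t, chk3 f_mm_033 t 1 1 1 = true :=
  ⟨(l 4), by decide +kernel⟩

theorem c_mm_033 : CertB 0 536870912 0 1230186008 740881858 40050571 3 eng mog cd0q0 cd5q3 pd3 true false false .pnn 0 3 3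
    ndB0q0 ndB5q3 pcB3 cut_mm_033 Ext.none :=
  certB0 (fam := true) (s1 := false) (s2 := false) (a := 0) (b := 3) (c := 3) (cn := .pnn) (n1 := ndB0q0) (n2 := ndB5q3) (pc := pcB3) (cut := cut_mm_033) (xt := Ext.none) (P1 := 0) (W1 := 536870912) (P2 := 0) (W2 := 1230186008) (P3 := 740881858) (W3 := 40050571) (N0 := 3) (En := eng) (mo := mog) (C1 := cd0q0) (C2 := cd5q3) (C3 := pd3)
    rfl k0_mm_033

noncomputable def cut_mm_101 : Cut := Cut.of [[⟨3, 0, 0, 1449551462⟩]]

noncomputable def f_mm_101 : ℕ → ℕ → ℕ → ℕ → Bool := onCell 536870912 536870912 0 536870912 740881858 40050571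
    (rowB 3 eng mog cd0q1 cd5q0 pd1 0 true false false .npn 1 0 1 (qsf 536870912 536870912 0 536870912 1) ndB0q1 ndB5q0 pcB1 cut_mm_101 Ext.none)

def k0_mm_101 : ∃ t, chk3 f_mm_101 t 1 1 1 = true :=
  ⟨(l 4), by decide +kernel⟩

theorem c_mm_101 : CertB 536870912 536870912 0 536870912 740881858 40050571 3 eng mog cd0q1 cd5q0 pd1 true false false .npn 1 0 1
    ndB0q1 ndB5q0 pcB1 cut_mm_101 Ext.none :=
  certB0 (fam := true) (s1 := false) (s2 := false) (a := 1) (b := 0) (c := 1) (cn := .npn) (n1 := ndB0q1) (n2 := ndB5q0) (pc := pcB1) (cut := cut_mm_101) (xt := Ext.none) (P1 := 536870912) (W1 := 536870912) (P2 := 0) (W2 := 536870912) (P3 := 740881858) (W3 := 40050571) (N0 := 3) (En := eng) (mo := mog) (C1 := cd0q1) (C2 := cd5q0) (C3 := pd1)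
    rfl k0_mm_101

noncomputable def cut_mm_102 : Cut := Cut.of [[⟨3, 0, 0, 1449551462⟩]]

noncomputable def f_mm_102 : ℕ → ℕ → ℕ → ℕ → Bool := onCell 536870912 536870912 0 536870912 740881858 40050571
    (rowB 3 eng mog cd0q1 cd5q0 pd2 0 true false false .npp 1 0 2 (qsf 536870912 536870912 0 536870912 2) ndB0q1 ndB5q0 pcB2 cut_mm_102 Ext.none)

def k0_mm_102 : ∃ t, chk3 f_mm_102 t 1 1 1 = true :=
  ⟨(l 4), by decide +kernel⟩

theorem c_mm_102 : CertB 536870912 536870912 0 536870912 740881858 40050571 3 eng mog cd0q1 cd5q0 pd2 true false false .npp 1 0 2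
    ndB0q1 ndB5q0 pcB2 cut_mm_102 Ext.none :=
  certB0 (fam := true) (s1 := false) (s2 := false) (a := 1) (b := 0) (c := 2) (cn := .npp) (n1 := ndB0q1) (n2 := ndB5q0) (pc := pcB2) (cut := cut_mm_102) (xt := Ext.none) (P1 := 536870912) (W1 := 536870912) (P2 := 0) (W2 := 536870912) (P3 := 740881858) (W3 := 40050571) (N0 := 3) (En := eng) (mo := mog) (C1 := cd0q1) (C2 := cd5q0) (C3 := pd2)
    rfl k0_mm_102

noncomputable def cut_mm_112 : Cut := Cut.of [[⟨3, 0, 0, 1449551462⟩]]

noncomputable def f_mm_112 : ℕ → ℕ → ℕ → ℕ → Bool := onCell 536870912 536870912 536870912 536870912 740881858 40050571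
    (rowB 3 eng mog cd0q1 cd5q1 pd2 0 true false false .dn 1 1 2 (qsf 536870912 536870912 536870912 536870912 2) ndB0q1 ndB5q1 pcB2 cut_mm_112 Ext.none)

def k0_mm_112 : ∃ t, chk3 f_mm_112 t 1 1 1 = true :=
  ⟨(l 4), by decide +kernel⟩

theorem c_mm_112 : CertB 536870912 536870912 536870912 536870912 740881858 40050571 3 eng mog cd0q1 cd5q1 pd2 true false false .dn 1 1 2
    ndB0q1 ndB5q1 pcB2 cut_mm_112 Ext.none :=
  certB0 (fam := true) (s1 := false) (s2 := false) (a := 1) (b := 1) (c := 2) (cn := .dn) (n1 := ndB0q1) (n2 := ndB5q1) (pc := pcB2) (cut := cut_mm_112) (xt := Ext.none) (P1 := 536870912) (W1 := 536870912) (P2 := 536870912) (W2 := 536870912) (P3 := 740881858) (W3 := 40050571) (N0 := 3) (En := eng) (mo := mog) (C1 := cd0q1) (C2 := cd5q1) (C3 := pd2)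
    rfl k0_mm_112

noncomputable def cut_mm_113 : Cut := Cut.of [[⟨3, 0, 0, 1449551462⟩]]

noncomputable def f_mm_113 : ℕ → ℕ → ℕ → ℕ → Bool := onCell 536870912 536870912 536870912 536870912 740881858 40050571
    (rowB 3 eng mog cd0q1 cd5q1 pd3 0 true false false .nn 1 1 3 (qsf 536870912 536870912 536870912 536870912 3) ndB0q1 ndB5q1 pcB3 cut_mm_113 Ext.none)

def k0_mm_113 : ∃ t, chk3 f_mm_113 t 1 1 1 = true :=
  ⟨(l 4), by decide +kernel⟩

theorem c_mm_113 : CertB 536870912 536870912 536870912 536870912 740881858 40050571 3 eng mog cd0q1 cd5q1 pd3 true false false .nn 1 1 3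
    ndB0q1 ndB5q1 pcB3 cut_mm_113 Ext.none :=
  certB0 (fam := true) (s1 := false) (s2 := false) (a := 1) (b := 1) (c := 3) (cn := .nn) (n1 := ndB0q1) (n2 := ndB5q1) (pc := pcB3) (cut := cut_mm_113) (xt := Ext.none) (P1 := 536870912) (W1 := 536870912) (P2 := 536870912) (W2 := 536870912) (P3 := 740881858) (W3 := 40050571) (N0 := 3) (En := eng) (mo := mog) (C1 := cd0q1) (C2 := cd5q1) (C3 := pd3)
    rfl k0_mm_113

noncomputable def cut_mm_123 : Cut := Cut.of [[⟨3, 0, 0, 1449551462⟩]]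

noncomputable def f_mm_123 : ℕ → ℕ → ℕ → ℕ → Bool := onCell 536870912 536870912 1073741824 536870912 740881858 40050571
    (rowB 3 eng mog cd0q1 cd5q2 pd3 0 true false false .npn 1 2 3 (qsf 536870912 536870912 1073741824 536870912 3) ndB0q1 ndB5q2 pcB3 cut_mm_123 Ext.none)

def k0_mm_123 : ∃ t, chk3 f_mm_123 t 1 1 1 = true :=
  ⟨(l 4), by decide +kernel⟩

theorem c_mm_123 : CertB 536870912 536870912 1073741824 536870912 740881858 40050571 3 eng mog cd0q1 cd5q2 pd3 true false false .npn 1 2 3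
    ndB0q1 ndB5q2 pcB3 cut_mm_123 Ext.none :=
  certB0 (fam := true) (s1 := false) (s2 := false) (a := 1) (b := 2) (c := 3) (cn := .npn) (n1 := ndB0q1) (n2 := ndB5q2) (pc := pcB3) (cut := cut_mm_123) (xt := Ext.none) (P1 := 536870912) (W1 := 536870912) (P2 := 1073741824) (W2 := 536870912) (P3 := 740881858) (W3 := 40050571) (N0 := 3) (En := eng) (mo := mog) (C1 := cd0q1) (C2 := cd5q2) (C3 := pd3)
    rfl k0_mm_123

noncomputable def cut_mm_133 : Cut := Cut.of [[⟨3, 0, 0, 1449551462⟩]]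

noncomputable def f_mm_133 : ℕ → ℕ → ℕ → ℕ → Bool := onCell 536870912 536870912 0 1230186008 740881858 40050571
    (rowB 3 eng mog cd0q1 cd5q3 pd3 0 true false false .dn 1 3 3 (qsf 536870912 536870912 0 1230186008 3) ndB0q1 ndB5q3 pcB3 cut_mm_133 Ext.none)

def k0_mm_133 : ∃ t, chk3 f_mm_133 t 1 1 1 = true :=
  ⟨(l 4), by decide +kernel⟩

theorem c_mm_133 : CertB 536870912 536870912 0 1230186008 740881858 40050571 3 eng mog cd0q1 cd5q3 pd3 true false false .dn 1 3 3
    ndB0q1 ndB5q3 pcB3 cut_mm_133 Ext.none :=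
  certB0 (fam := true) (s1 := false) (s2 := false) (a := 1) (b := 3) (c := 3) (cn := .dn) (n1 := ndB0q1) (n2 := ndB5q3) (pc := pcB3) (cut := cut_mm_133) (xt := Ext.none) (P1 := 536870912) (W1 := 536870912) (P2 := 0) (W2 := 1230186008) (P3 := 740881858) (W3 := 40050571) (N0 := 3) (En := eng) (mo := mog) (C1 := cd0q1) (C2 := cd5q3) (C3 := pd3)
    rfl k0_mm_133

noncomputable def cut_mm_202 : Cut := Cut.of [[⟨3, 0, 0, 1449551462⟩]]

noncomputable def f_mm_202 : ℕ → ℕ → ℕ → ℕ → Bool := onCell 0 536870912 0 536870912 740881858 40050571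
    (rowB 3 eng mog cd0q2 cd5q0 pd2 0 true false false .pp 2 0 2 (qsf 0 536870912 0 536870912 2) ndB0q2 ndB5q0 pcB2 cut_mm_202 Ext.none)

def k0_mm_202 : ∃ t, chk3 f_mm_202 t 1 1 1 = true :=
  ⟨(l 4), by decide +kernel⟩

theorem c_mm_202 : CertB 0 536870912 0 536870912 740881858 40050571 3 eng mog cd0q2 cd5q0 pd2 true false false .pp 2 0 2
    ndB0q2 ndB5q0 pcB2 cut_mm_202 Ext.none :=
  certB0 (fam := true) (s1 := false) (s2 := false) (a := 2) (b := 0) (c := 2) (cn := .pp) (n1 := ndB0q2) (n2 := ndB5q0) (pc := pcB2) (cut := cut_mm_202) (xt := Ext.none) (P1 := 0) (W1 := 536870912) (P2 := 0) (W2 := 536870912) (P3 := 740881858) (W3 := 40050571) (N0 := 3) (En := eng) (mo := mog) (C1 := cd0q2) (C2 := cd5q0) (C3 := pd2)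
    rfl k0_mm_202

noncomputable def cut_mm_203 : Cut := Cut.of [[⟨3, 0, 0, 1449551462⟩]]

noncomputable def f_mm_203 : ℕ → ℕ → ℕ → ℕ → Bool := onCell 0 536870912 0 536870912 740881858 40050571
    (rowB 3 eng mog cd0q2 cd5q0 pd3 0 true false false .up 2 0 3 (qsf 0 536870912 0 536870912 3) ndB0q2 ndB5q0 pcB3 cut_mm_203 Ext.none)

def k0_mm_203 : ∃ t, chk3 f_mm_203 t 1 1 1 = true :=
  ⟨(l 4), by decide +kernel⟩

theorem c_mm_203 : CertB 0 536870912 0 536870912 740881858 40050571 3 eng mog cd0q2 cd5q0 pd3 true false false .up 2 0 3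
    ndB0q2 ndB5q0 pcB3 cut_mm_203 Ext.none :=
  certB0 (fam := true) (s1 := false) (s2 := false) (a := 2) (b := 0) (c := 3) (cn := .up) (n1 := ndB0q2) (n2 := ndB5q0) (pc := pcB3) (cut := cut_mm_203) (xt := Ext.none) (P1 := 0) (W1 := 536870912) (P2 := 0) (W2 := 536870912) (P3 := 740881858) (W3 := 40050571) (N0 := 3) (En := eng) (mo := mog) (C1 := cd0q2) (C2 := cd5q0) (C3 := pd3)
    rfl k0_mm_203

noncomputable def cut_mm_213 : Cut := Cut.of [[⟨3, 0, 0, 1449551462⟩]]

noncomputable def f_mm_213 : ℕ → ℕ → ℕ → ℕ → Bool := onCell 0 536870912 536870912 536870912 740881858 40050571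
    (rowB 3 eng mog cd0q2 cd5q1 pd3 0 true false false .pnn 2 1 3 (qsf 0 536870912 536870912 536870912 3) ndB0q2 ndB5q1 pcB3 cut_mm_213 Ext.none)

def k0_mm_213 : ∃ t, chk3 f_mm_213 t 1 1 1 = true :=
  ⟨(l 4), by decide +kernel⟩

theorem c_mm_213 : CertB 0 536870912 536870912 536870912 740881858 40050571 3 eng mog cd0q2 cd5q1 pd3 true false false .pnn 2 1 3
    ndB0q2 ndB5q1 pcB3 cut_mm_213 Ext.none :=
  certB0 (fam := true) (s1 := false) (s2 := false) (a := 2) (b := 1) (c := 3) (cn := .pnn) (n1 := ndB0q2) (n2 := ndB5q1) (pc := pcB3) (cut := cut_mm_213) (xt := Ext.none) (P1 := 0) (W1 := 536870912) (P2 := 536870912) (W2 := 536870912) (P3 := 740881858) (W3 := 40050571) (N0 := 3) (En := eng) (mo := mog) (C1 := cd0q2) (C2 := cd5q1) (C3 := pd3)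
    rfl k0_mm_213

end Pool.Agent.Strip051.G.I69_7273.Tab.C.BA05

namespace Pool.Agent.Strip051.G.I69_7273.Tab.C.BA11

open Pool.Agent.Strip051.PB Pool.Agent.Strip051.PB.T
open Pool.Agent.Strip051.G.I69_7273.Tab

noncomputable def f_pp_001 : ℕ → ℕ → ℕ → ℕ → Bool := onCell 0 536870912 0 536870912 740881858 40050571
    (rowB 3 eng mog cd1q0 cd1q0 pd1 0 true true true .up 0 0 1 (qsf 0 536870912 0 536870912 1) ndB1q0 ndB1q0 pcB1 Cut.none Ext.none)

def k0_pp_001 : ∃ t, chk3 f_pp_001 t 1 1 1 = true :=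
  ⟨(l 4), by decide +kernel⟩

theorem c_pp_001 : CertB 0 536870912 0 536870912 740881858 40050571 3 eng mog cd1q0 cd1q0 pd1 true true true .up 0 0 1
    ndB1q0 ndB1q0 pcB1 Cut.none Ext.none :=
  certB0 (fam := true) (s1 := true) (s2 := true) (a := 0) (b := 0) (c := 1) (cn := .up) (n1 := ndB1q0) (n2 := ndB1q0) (pc := pcB1) (cut := Cut.none) (xt := Ext.none) (P1 := 0) (W1 := 536870912) (P2 := 0) (W2 := 536870912) (P3 := 740881858) (W3 := 40050571) (N0 := 3) (En := eng) (mo := mog) (C1 := cd1q0) (C2 := cd1q0) (C3 := pd1)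
    rfl k0_pp_001

noncomputable def f_pp_011 : ℕ → ℕ → ℕ → ℕ → Bool := onCell 0 536870912 536870912 536870912 740881858 40050571
    (rowB 3 eng mog cd1q0 cd1q1 pd1 0 true true true .pnn 0 1 1 (qsf 0 536870912 536870912 536870912 1) ndB1q0 ndB1q1 pcB1 Cut.none Ext.none)

def k0_pp_011 : ∃ t, chk3 f_pp_011 t 1 1 1 = true :=
  ⟨(l 4), by decide +kernel⟩

theorem c_pp_011 : CertB 0 536870912 536870912 536870912 740881858 40050571 3 eng mog cd1q0 cd1q1 pd1 true true true .pnn 0 1 1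
    ndB1q0 ndB1q1 pcB1 Cut.none Ext.none :=
  certB0 (fam := true) (s1 := true) (s2 := true) (a := 0) (b := 1) (c := 1) (cn := .pnn) (n1 := ndB1q0) (n2 := ndB1q1) (pc := pcB1) (cut := Cut.none) (xt := Ext.none) (P1 := 0) (W1 := 536870912) (P2 := 536870912) (W2 := 536870912) (P3 := 740881858) (W3 := 40050571) (N0 := 3) (En := eng) (mo := mog) (C1 := cd1q0) (C2 := cd1q1) (C3 := pd1)
    rfl k0_pp_011

noncomputable def f_pp_012 : ℕ → ℕ → ℕ → ℕ → Bool := onCell 0 536870912 536870912 536870912 740881858 40050571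
    (rowB 3 eng mog cd1q0 cd1q1 pd2 0 true true true .pnp 0 1 2 (qsf 0 536870912 536870912 536870912 2) ndB1q0 ndB1q1 pcB2 Cut.none Ext.none)

def k0_pp_012 : ∃ t, chk3 f_pp_012 t 1 1 1 = true :=
  ⟨(l 4), by decide +kernel⟩

theorem c_pp_012 : CertB 0 536870912 536870912 536870912 740881858 40050571 3 eng mog cd1q0 cd1q1 pd2 true true true .pnp 0 1 2
    ndB1q0 ndB1q1 pcB2 Cut.none Ext.none :=
  certB0 (fam := true) (s1 := true) (s2 := true) (a := 0) (b := 1) (c := 2) (cn := .pnp) (n1 := ndB1q0) (n2 := ndB1q1) (pc := pcB2) (cut := Cut.none) (xt := Ext.none) (P1 := 0) (W1 := 536870912) (P2 := 536870912) (W2 := 536870912) (P3 := 740881858) (W3 := 40050571) (N0 := 3) (En := eng) (mo := mog) (C1 := cd1q0) (C2 := cd1q1) (C3 := pd2)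
    rfl k0_pp_012

noncomputable def cut_pp_022_a : Cut := Cut.of [[⟨0, 0, 0, 67108864⟩, ⟨1, 1, 0, 67108864⟩, ⟨2, 1, 0, 67108864⟩]]

noncomputable def f_pp_022_a : ℕ → ℕ → ℕ → ℕ → Bool := onCell 1073741824 536870912 0 536870912 740881858 40050571
    (rowB 3 eng mog cd1q0 cd1q2a pd2 2 true true true .pp 0 2 2 (qsf 0 536870912 0 536870912 2) ndB1q0 ndB1q2a pcB2 cut_pp_022_a Ext.none)

def k0_pp_022_a : ∃ t, chk3 f_pp_022_a t 2 2 1 = true :=
  ⟨(a (a (l 1) (b (l 1) (a (l 1) (a (l 1) (b (l 1) (b (l 1) (a (l 1) (c (l 16517752) (l 16509600))))))))) (a (b (c (a (a (l 1) (b (l 16441904) (a (l 16453264) (l 16452024)))) (b (l 16456664) (a (l 16461128) (l 16475648)))) (b (a (a (l 1) (l 16434784)) (l 16451680)) (a (a (l 1) (c (l 16459160) (l 16447176))) (l 16471384)))) (a (c (b (a (a (l 1) (l 16475448)) (a (l 16474888) (l 16475344))) (a (b (a (l 16498536) (l 16498656)) (a (l 16518144) (l 16519216))) (b (a (l 16499480) (l 16459288)) (a (l 16520968) (l 16460672)))))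 (b (a (b (l 16452152) (l 16473480)) (a (l 16481184) (l 16490784))) (a (b (l 55330828151) (a (l 16521576) (l 16529400))) (a (l 16542096) (b (l 16512712) (l 16532488)))))) (b (a (c (l 16484768) (l 16498416)) (l 16504600)) (a (b (l 16515448) (c (l 16533400) (l 16540872))) (b (l 16529152) (l 16550624)))))) (b (b (a (l 16476080) (l 16491440)) (a (a (l 16491912) (l 16499904)) (l 16512856))) (a (b (a (l 16518168) (l 16532048)) (a (b (l 16543168) (l 16564936)) (l 16568928))) (b (l 16548584) (a (l 16583976) (l 16598536))))))), by decide +kernel⟩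

def k1_pp_022_a : ∃ t, chk3 f_pp_022_a t 4 6 1 = true :=
  ⟨(a (l 1) (b (a (l 1) (c (a (b (a (l 1) (l 16528328)) (a (b (l 1) (l 16560280)) (b (l 16554232) (l 16572248)))) (b (a (l 16560736) (l 16540520)) (a (l 16546008) (l 16568768)))) (a (b (a (l 1) (l 16518408)) (a (b (l 1) (a (l 16549504) (l 16555840))) (b (l 16546040) (l 16565128)))) (b (a (b (l 16521896) (l 16539784)) (l 16542968)) (a (l 16546776) (l 16575272)))))) (a (a (a (l 1) (b (l 1) (b (a (l 1) (l 16605208)) (a (l 16621864) (b (l 16601480) (l 16613336)))))) (b (a (b (l 1) (b (l 1) (a (l 1) (l 16580520)))) (a (b (l 1) (b (l 16555216) (l 16565904))) (b (l 16587992) (l 16577328)))) (a (b (c (a (l 16593528) (l 16599824)) (a (l 16587752) (l 16594256))) (c (l 16577432) (l 16572528))) (b (c (l 16609032) (l 16582832)) (l 16597936))))) (a (b (b (a (a (l 16573264) (l 16579392)) (l 16567392)) (a (c (l 16599664) (l 16594032)) (l 16608824))) (a (b (l 16597672) (l 16641328)) (b (l 16628456) (l 16649104))))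 (b (a (c (l 16600600) (l 16584592)) (c (l 16603432) (l 16607808))) (a (b (l 16631320) (l 16652512)) (b (l 16634632) (l 16656344)))))))), by decide +kernel⟩

def k2_pp_022_a : ∃ t, chk3 f_pp_022_a t 4 7 1 = true :=
  ⟨(a (b (a (l 1) (b (a (l 1) (a (l 1) (b (l 1) (b (a (l 1) (l 16646312)) (a (l 6) (l 16641120)))))) (a (l 6) (a (l 6) (a (l 6) (a (l 6) (a (l 6) (b (l 16667984) (l 16701688))))))))) (a (l 6) (a (l 6) (a (l 6) (a (l 6) (a (l 6) (b (b (l 16732160) (l 4)) (l 4)))))))) (b (a (b (a (a (b (a (b (l 1) (l 16618240)) (b (l 16612408) (l 16624896))) (b (a (l 16632040) (l 16638624)) (a (l 16647712) (l 16654184)))) (a (b (b (l 16618992) (l 16631424)) (b (l 16645080) (l 16660544))) (b (l 16610696) (l 16659136)))) (a (b (a (l 16617024) (l 16623232)) (a (l 16665320) (l 16671400))) (b (l 16653320) (l 16680328)))) (a (a (b (a (b (l 16663760) (l 16659208)) (l 16673064)) (a (l 16705560) (l 16711648))) (b (a (l 16684504) (l 16690600)) (a (l 16716640) (l 16718584))))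 (b (a (l 16699544) (l 16705288)) (b (a (l 16716376) (l 16721728)) (a (l 16728320) (l 4)))))) (b (a (b (a (l 16665096) (l 16671576)) (a (l 16689528) (l 16693616))) (b (a (l 16675520) (l 16679872)) (a (l 16698272) (l 16704128)))) (a (b (a (l 16710000) (l 16737064)) (a (a (l 16734656) (l 4)) (l 4))) (a (b (l 16744312) (l 4)) (l 4))))) (a (b (b (a (a (b (l 16727872) (a (l 16740256) (l 16744240))) (b (a (l 16733192) (l 16736880)) (l 4))) (l 4)) (l 4)) (l 4)) (l 4)))), by decide +kernel⟩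

def k3_pp_022_a : ∃ t, chk3 f_pp_022_a t 5 3 1 = true :=
  ⟨(a (b (b (a (b (b (a (c (l 16536208) (l 16544800)) (a (l 16543176) (l 16546120))) (a (c (l 16549424) (l 16556784)) (a (l 16556520) (l 16570392)))) (a (c (b (l 16564240) (l 16538928)) (a (l 16577048) (l 16579448))) (a (c (l 16577776) (l 16540528)) (a (l 16519896) (a (l 16605384) (l 16585880)))))) (a (b (c (l 16539096) (l 16523256)) (b (l 16521920) (l 16560256))) (b (l 16576296) (c (l 16606880) (l 16608520))))) (a (b (a (c (b (l 16556992) (l 16576568)) (l 16591376)) (a (a (l 16552448) (l 16575720)) (a (l 16578176) (b (l 16612664) (l 16633040))))) (c (a (a (l 16606760) (l 16632688)) (a (l 16659192) (b (l 16653352) (l 16614760)))) (a (l 16631712) (a (l 16659888) (b (l 16653888) (l 16635544)))))) (b (a (b (l 16579096) (l 16620440)) (b (l 16635112) (l 16613664))) (a (b (a (l 16660024) (l 16667080)) (b (l 16640320) (l 16654560))) (b (a (l 16675024) (l 16683888)) (l 4)))))) (b (a (b (a (b (a (l 16642800)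 (l 34594344935)) (a (l 16711176) (l 4))) (a (b (l 16698016) (l 4)) (l 4))) (l 4)) (l 4)) (l 4))) (b (b (a (a (b (l 16590880) (l 16559456)) (b (l 16606376) (l 16575400))) (b (l 16629864) (a (l 16655336) (l 16672520)))) (b (a (a (b (l 16650176) (l 16609440)) (l 16680000)) (l 4)) (l 4))) (l 4))), by decide +kernel⟩

def k4_pp_022_a : ∃ t, chk3 f_pp_022_a t 3 1 1 = true :=
  ⟨(a (b (a (b (a (l 16585208) (l 16547920)) (a (b (l 16570656) (l 16619152)) (b (l 16599240) (l 16709160)))) (b (a (l 16577008) (l 16605384)) (a (b (l 16627160) (l 25467771527)) (b (l 16653752) (l 16767976))))) (b (a (b (a (a (l 5603530807) (l 30299637127)) (a (l 16877902007) (l 4))) (l 4)) (l 4)) (l 4))) (b (a (b (a (l 16632600) (l 16658256)) (b (a (l 16682136) (l 16710864)) (l 4))) (b (a (l 16747736) (l 16732008)) (l 4))) (l 4))), by decide +kernel⟩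

theorem s5_pp_022_a : ∃ t, chk3 f_pp_022_a t 4 3 1 = true := ex3_b k1_pp_022_a k2_pp_022_a

theorem s6_pp_022_a : ∃ t, chk3 f_pp_022_a t 2 3 1 = true := ex3_a s5_pp_022_a k3_pp_022_a

theorem s7_pp_022_a : ∃ t, chk3 f_pp_022_a t 2 1 1 = true := ex3_b k0_pp_022_a s6_pp_022_a

theorem s8_pp_022_a : ∃ t, chk3 f_pp_022_a t 1 1 1 = true := ex3_a s7_pp_022_a k4_pp_022_a

theorem c_pp_022_a : CertB 0 536870912 0 536870912 740881858 40050571 3 eng mog cd1q0 cd1q2a pd2 true true true .pp 0 2 2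
    ndB1q0 ndB1q2a pcB2 cut_pp_022_a Ext.none :=
  certB2 (fam := true) (s1 := true) (s2 := true) (a := 0) (b := 2) (c := 2) (cn := .pp) (n1 := ndB1q0) (n2 := ndB1q2a) (pc := pcB2) (cut := cut_pp_022_a) (xt := Ext.none) (P1 := 0) (W1 := 536870912) (P2 := 0) (W2 := 536870912) (P3 := 740881858) (W3 := 40050571) (N0 := 3) (En := eng) (mo := mog) (C1 := cd1q0) (C2 := cd1q2a) (C3 := pd2)
    rfl (fun _ => rfl) s8_pp_022_a

noncomputable def cut_pp_022_b : Cut := Cut.of [[⟨0, 0, 0, 67108864⟩, ⟨1, 1, 0, 67108864⟩, ⟨2, 1, 0, 67108864⟩]]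

noncomputable def f_pp_022_b : ℕ → ℕ → ℕ → ℕ → Bool := onCell 1073741824 536870912 1239849684 370763052 740881858 40050571
    (rowB 3 eng mog cd1q0 cd1q2b pd2 2 true true true .pp 0 2 2 (qsf 0 536870912 1239849684 370763052 2) ndB1q0 ndB1q2b pcB2 cut_pp_022_b Ext.none)

def k0_pp_022_b : ∃ t, chk3 f_pp_022_b t 1 1 1 = true :=
  ⟨(a (b (a (l 1) (a (b (b (b (a (a (l 1) (c (l 16416856) (l 16394488))) (a (l 16506432) (l 16427568))) (a (l 1) (a (l 1) (l 16358368)))) (l 1)) (l 1)) (b (a (a (b (a (l 16408432) (l 16401456)) (l 16303232)) (b (l 16407128) (l 16333008))) (a (b (l 16415328) (l 16342904)) (b (l 16424416) (l 16290960)))) (a (l 1) (b (a (l 1) (l 16154096)) (l 1)))))) (l 1)) (b (a (a (b (a (b (l 16439632) (a (l 16302904) (l 16315728))) (b (l 16463888) (l 16336560))) (a (b (l 16216816) (l 1)) (b (l 16205872) (l 16071920)))) (b (a (b (l 16492672) (l 16366744)) (l 16547440)) (b (a (l 16239704) (l 16275120)) (a (l 16109176) (l 16148576))))) (a (b (a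 (l 16518232) (l 16552112)) (a (b (l 16313576) (l 16189232)) (l 16358176))) (b (a (l 16605800) (l 16592248)) (b (l 16419848) (l 16302224))))) (a (a (l 1) (b (b (a (l 15976352) (l 16018808)) (l 32781216295)) (l 1))) (a (b (a (l 16021048) (l 16047512)) (a (l 1) (l 15796584))) (b (a (l 16095768) (l 16145000)) (a (l 15849032) (l 15902080))))))), by decide +kernel⟩

theorem c_pp_022_b : CertB 0 536870912 1239849684 370763052 740881858 40050571 3 eng mog cd1q0 cd1q2b pd2 true true true .pp 0 2 2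
    ndB1q0 ndB1q2b pcB2 cut_pp_022_b Ext.none :=
  certB2 (fam := true) (s1 := true) (s2 := true) (a := 0) (b := 2) (c := 2) (cn := .pp) (n1 := ndB1q0) (n2 := ndB1q2b) (pc := pcB2) (cut := cut_pp_022_b) (xt := Ext.none) (P1 := 0) (W1 := 536870912) (P2 := 1239849684) (W2 := 370763052) (P3 := 740881858) (W3 := 40050571) (N0 := 3) (En := eng) (mo := mog) (C1 := cd1q0) (C2 := cd1q2b) (C3 := pd2)
    rfl (fun _ => rfl) k0_pp_022_b

noncomputable def f_pp_023_a : ℕ → ℕ → ℕ → ℕ → Bool := onCell 1610612736 536870912 0 536870912 740881858 40050571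
    (rowB 3 eng mog cd1q0 cd1q2a pd3 2 true true true .up 0 2 3 (qsf 0 536870912 0 536870912 3) ndB1q0 ndB1q2a pcB3 Cut.none Ext.none)

def k0_pp_023_a : ∃ t, chk3 f_pp_023_a t 1 1 1 = true :=
  ⟨(a (a (a (b (a (b (l 16756120) (l 4)) (l 4)) (l 4)) (l 4)) (l 4)) (l 2)), by decide +kernel⟩

theorem c_pp_023_a : CertB 0 536870912 0 536870912 740881858 40050571 3 eng mog cd1q0 cd1q2a pd3 true true true .up 0 2 3
    ndB1q0 ndB1q2a pcB3 Cut.none Ext.none :=
  certB2 (fam := true) (s1 := true) (s2 := true) (a := 0) (b := 2) (c := 3) (cn := .up) (n1 := ndB1q0) (n2 := ndB1q2a) (pc := pcB3) (cut := Cut.none) (xt := Ext.none) (P1 := 0) (W1 := 536870912) (P2 := 0) (W2 := 536870912) (P3 := 740881858) (W3 := 40050571) (N0 := 3) (En := eng) (mo := mog) (C1 := cd1q0) (C2 := cd1q2a) (C3 := pd3)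
    rfl (fun _ => rfl) k0_pp_023_a

noncomputable def f_pp_023_b : ℕ → ℕ → ℕ → ℕ → Bool := onCell 1610612736 536870912 1239849684 370763052 740881858 40050571
    (rowB 3 eng mog cd1q0 cd1q2b pd3 2 true true true .up 0 2 3 (qsf 0 536870912 1239849684 370763052 3) ndB1q0 ndB1q2b pcB3 Cut.none Ext.none)

def k0_pp_023_b : ∃ t, chk3 f_pp_023_b t 1 1 1 = true :=
  ⟨(a (a (a (a (b (b (l 16624032) (l 16425440)) (b (l 16236816) (l 15955256))) (b (l 4) (b (l 16247056) (l 16010168)))) (l 4)) (l 4)) (l 4)), by decide +kernel⟩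

theorem c_pp_023_b : CertB 0 536870912 1239849684 370763052 740881858 40050571 3 eng mog cd1q0 cd1q2b pd3 true true true .up 0 2 3
    ndB1q0 ndB1q2b pcB3 Cut.none Ext.none :=
  certB2 (fam := true) (s1 := true) (s2 := true) (a := 0) (b := 2) (c := 3) (cn := .up) (n1 := ndB1q0) (n2 := ndB1q2b) (pc := pcB3) (cut := Cut.none) (xt := Ext.none) (P1 := 0) (W1 := 536870912) (P2 := 1239849684) (W2 := 370763052) (P3 := 740881858) (W3 := 40050571) (N0 := 3) (En := eng) (mo := mog) (C1 := cd1q0) (C2 := cd1q2b) (C3 := pd3)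
    rfl (fun _ => rfl) k0_pp_023_b

noncomputable def f_pp_033 : ℕ → ℕ → ℕ → ℕ → Bool := onCell 0 536870912 1610612736 536870912 740881858 40050571
    (rowB 3 eng mog cd1q0 cd1q3 pd3 1 true true true .pnn 0 3 3 (qsf 0 536870912 1610612736 536870912 3) ndB1q0 ndB1q3 pcB3 Cut.none Ext.none)

def k0_pp_033 : ∃ t, chk3 f_pp_033 t 1 1 1 = true :=
  ⟨(b (b (a (b (a (b (l 15972536) (l 15946520)) (l 1)) (a (b (l 15930656) (l 4)) (l 4))) (l 1)) (l 4)) (l 4)), by decide +kernel⟩

theorem c_pp_033 : CertB 0 536870912 1610612736 536870912 740881858 40050571 3 eng mog cd1q0 cd1q3 pd3 true true true .pnn 0 3 3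
    ndB1q0 ndB1q3 pcB3 Cut.none Ext.none :=
  certB1 (fam := true) (s1 := true) (s2 := true) (a := 0) (b := 3) (c := 3) (cn := .pnn) (n1 := ndB1q0) (n2 := ndB1q3) (pc := pcB3) (cut := Cut.none) (xt := Ext.none) (P1 := 0) (W1 := 536870912) (P2 := 1610612736) (W2 := 536870912) (P3 := 740881858) (W3 := 40050571) (N0 := 3) (En := eng) (mo := mog) (C1 := cd1q0) (C2 := cd1q3) (C3 := pd3)
    rfl (fun _ => rfl) k0_pp_033

noncomputable def f_pp_101 : ℕ → ℕ → ℕ → ℕ → Bool := onCell 536870912 536870912 0 536870912 740881858 40050571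
    (rowB 3 eng mog cd1q1 cd1q0 pd1 0 true true true .npn 1 0 1 (qsf 536870912 536870912 0 536870912 1) ndB1q1 ndB1q0 pcB1 Cut.none Ext.none)

def k0_pp_101 : ∃ t, chk3 f_pp_101 t 1 1 1 = true :=
  ⟨(l 4), by decide +kernel⟩

theorem c_pp_101 : CertB 536870912 536870912 0 536870912 740881858 40050571 3 eng mog cd1q1 cd1q0 pd1 true true true .npn 1 0 1
    ndB1q1 ndB1q0 pcB1 Cut.none Ext.none :=
  certB0 (fam := true) (s1 := true) (s2 := true) (a := 1) (b := 0) (c := 1) (cn := .npn) (n1 := ndB1q1) (n2 := ndB1q0) (pc := pcB1) (cut := Cut.none) (xt := Ext.none) (P1 := 536870912) (W1 := 536870912) (P2 := 0) (W2 := 536870912) (P3 := 740881858) (W3 := 40050571) (N0 := 3) (En := eng) (mo := mog) (C1 := cd1q1) (C2 := cd1q0) (C3 := pd1)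
    rfl k0_pp_101

noncomputable def f_pp_102 : ℕ → ℕ → ℕ → ℕ → Bool := onCell 536870912 536870912 0 536870912 740881858 40050571
    (rowB 3 eng mog cd1q1 cd1q0 pd2 0 true true true .npp 1 0 2 (qsf 536870912 536870912 0 536870912 2) ndB1q1 ndB1q0 pcB2 Cut.none Ext.none)

def k0_pp_102 : ∃ t, chk3 f_pp_102 t 1 1 1 = true :=
  ⟨(l 4), by decide +kernel⟩

theorem c_pp_102 : CertB 536870912 536870912 0 536870912 740881858 40050571 3 eng mog cd1q1 cd1q0 pd2 true true true .npp 1 0 2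
    ndB1q1 ndB1q0 pcB2 Cut.none Ext.none :=
  certB0 (fam := true) (s1 := true) (s2 := true) (a := 1) (b := 0) (c := 2) (cn := .npp) (n1 := ndB1q1) (n2 := ndB1q0) (pc := pcB2) (cut := Cut.none) (xt := Ext.none) (P1 := 536870912) (W1 := 536870912) (P2 := 0) (W2 := 536870912) (P3 := 740881858) (W3 := 40050571) (N0 := 3) (En := eng) (mo := mog) (C1 := cd1q1) (C2 := cd1q0) (C3 := pd2)
    rfl k0_pp_102

noncomputable def f_pp_112 : ℕ → ℕ → ℕ → ℕ → Bool := onCell 536870912 536870912 536870912 536870912 740881858 40050571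
    (rowB 3 eng mog cd1q1 cd1q1 pd2 0 true true true .dn 1 1 2 (qsf 536870912 536870912 536870912 536870912 2) ndB1q1 ndB1q1 pcB2 Cut.none Ext.none)

def k0_pp_112 : ∃ t, chk3 f_pp_112 t 1 1 1 = true :=
  ⟨(l 4), by decide +kernel⟩

theorem c_pp_112 : CertB 536870912 536870912 536870912 536870912 740881858 40050571 3 eng mog cd1q1 cd1q1 pd2 true true true .dn 1 1 2
    ndB1q1 ndB1q1 pcB2 Cut.none Ext.none :=
  certB0 (fam := true) (s1 := true) (s2 := true) (a := 1) (b := 1) (c := 2) (cn := .dn) (n1 := ndB1q1) (n2 := ndB1q1) (pc := pcB2) (cut := Cut.none) (xt := Ext.none) (P1 := 536870912) (W1 := 536870912) (P2 := 536870912) (W2 := 536870912) (P3 := 740881858) (W3 := 40050571) (N0 := 3) (En := eng) (mo := mog) (C1 := cd1q1) (C2 := cd1q1) (C3 := pd2)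
    rfl k0_pp_112

noncomputable def f_pp_113 : ℕ → ℕ → ℕ → ℕ → Bool := onCell 536870912 536870912 536870912 536870912 740881858 40050571
    (rowB 3 eng mog cd1q1 cd1q1 pd3 0 true true true .nn 1 1 3 (qsf 536870912 536870912 536870912 536870912 3) ndB1q1 ndB1q1 pcB3 Cut.none Ext.none)

def k0_pp_113 : ∃ t, chk3 f_pp_113 t 1 1 1 = true :=
  ⟨(l 4), by decide +kernel⟩

theorem c_pp_113 : CertB 536870912 536870912 536870912 536870912 740881858 40050571 3 eng mog cd1q1 cd1q1 pd3 true true true .nn 1 1 3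
    ndB1q1 ndB1q1 pcB3 Cut.none Ext.none :=
  certB0 (fam := true) (s1 := true) (s2 := true) (a := 1) (b := 1) (c := 3) (cn := .nn) (n1 := ndB1q1) (n2 := ndB1q1) (pc := pcB3) (cut := Cut.none) (xt := Ext.none) (P1 := 536870912) (W1 := 536870912) (P2 := 536870912) (W2 := 536870912) (P3 := 740881858) (W3 := 40050571) (N0 := 3) (En := eng) (mo := mog) (C1 := cd1q1) (C2 := cd1q1) (C3 := pd3)
    rfl k0_pp_113

noncomputable def f_pp_123_a : ℕ → ℕ → ℕ → ℕ → Bool := onCell 536870912 536870912 0 536870912 740881858 40050571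
    (rowB 3 eng mog cd1q1 cd1q2a pd3 0 true true true .npn 1 2 3 (qsf 536870912 536870912 0 536870912 3) ndB1q1 ndB1q2a pcB3 Cut.none Ext.none)

def k0_pp_123_a : ∃ t, chk3 f_pp_123_a t 1 1 1 = true :=
  ⟨(l 4), by decide +kernel⟩

theorem c_pp_123_a : CertB 536870912 536870912 0 536870912 740881858 40050571 3 eng mog cd1q1 cd1q2a pd3 true true true .npn 1 2 3
    ndB1q1 ndB1q2a pcB3 Cut.none Ext.none :=
  certB0 (fam := true) (s1 := true) (s2 := true) (a := 1) (b := 2) (c := 3) (cn := .npn) (n1 := ndB1q1) (n2 := ndB1q2a) (pc := pcB3) (cut := Cut.none) (xt := Ext.none) (P1 := 536870912) (W1 := 536870912) (P2 := 0) (W2 := 536870912) (P3 := 740881858) (W3 := 40050571) (N0 := 3) (En := eng) (mo := mog) (C1 := cd1q1) (C2 := cd1q2a) (C3 := pd3)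
    rfl k0_pp_123_a

noncomputable def f_pp_123_b : ℕ → ℕ → ℕ → ℕ → Bool := onCell 536870912 536870912 1239849684 370763052 740881858 40050571
    (rowB 3 eng mog cd1q1 cd1q2b pd3 0 true true true .npn 1 2 3 (qsf 536870912 536870912 1239849684 370763052 3) ndB1q1 ndB1q2b pcB3 Cut.none Ext.none)

def k0_pp_123_b : ∃ t, chk3 f_pp_123_b t 1 1 1 = true :=
  ⟨(a (l 4) (l 4)), by decide +kernel⟩

theorem c_pp_123_b : CertB 536870912 536870912 1239849684 370763052 740881858 40050571 3 eng mog cd1q1 cd1q2b pd3 true true true .npn 1 2 3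
    ndB1q1 ndB1q2b pcB3 Cut.none Ext.none :=
  certB0 (fam := true) (s1 := true) (s2 := true) (a := 1) (b := 2) (c := 3) (cn := .npn) (n1 := ndB1q1) (n2 := ndB1q2b) (pc := pcB3) (cut := Cut.none) (xt := Ext.none) (P1 := 536870912) (W1 := 536870912) (P2 := 1239849684) (W2 := 370763052) (P3 := 740881858) (W3 := 40050571) (N0 := 3) (En := eng) (mo := mog) (C1 := cd1q1) (C2 := cd1q2b) (C3 := pd3)
    rfl k0_pp_123_b

noncomputable def f_pp_133 : ℕ → ℕ → ℕ → ℕ → Bool := onCell 536870912 536870912 1610612736 536870912 740881858 40050571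
    (rowB 3 eng mog cd1q1 cd1q3 pd3 0 true true true .dn 1 3 3 (qsf 536870912 536870912 1610612736 536870912 3) ndB1q1 ndB1q3 pcB3 Cut.none Ext.none)

def k0_pp_133 : ∃ t, chk3 f_pp_133 t 1 1 1 = true :=
  ⟨(l 4), by decide +kernel⟩

theorem c_pp_133 : CertB 536870912 536870912 1610612736 536870912 740881858 40050571 3 eng mog cd1q1 cd1q3 pd3 true true true .dn 1 3 3
    ndB1q1 ndB1q3 pcB3 Cut.none Ext.none :=
  certB0 (fam := true) (s1 := true) (s2 := true) (a := 1) (b := 3) (c := 3) (cn := .dn) (n1 := ndB1q1) (n2 := ndB1q3) (pc := pcB3) (cut := Cut.none) (xt := Ext.none) (P1 := 536870912) (W1 := 536870912) (P2 := 1610612736) (W2 := 536870912) (P3 := 740881858) (W3 := 40050571) (N0 := 3) (En := eng) (mo := mog) (C1 := cd1q1) (C2 := cd1q3) (C3 := pd3)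
    rfl k0_pp_133

noncomputable def f_pp_202_a : ℕ → ℕ → ℕ → ℕ → Bool := onCell 0 536870912 0 536870912 740881858 40050571
    (rowB 3 eng mog cd1q2a cd1q0 pd2 0 true true true .pp 2 0 2 (qsf 0 536870912 0 536870912 2) ndB1q2a ndB1q0 pcB2 Cut.none Ext.none)

def k0_pp_202_a : ∃ t, chk3 f_pp_202_a t 1 1 1 = true :=
  ⟨(l 5), by decide +kernel⟩

theorem c_pp_202_a : CertB 0 536870912 0 536870912 740881858 40050571 3 eng mog cd1q2a cd1q0 pd2 true true true .pp 2 0 2
    ndB1q2a ndB1q0 pcB2 Cut.none Ext.none :=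
  certB0 (fam := true) (s1 := true) (s2 := true) (a := 2) (b := 0) (c := 2) (cn := .pp) (n1 := ndB1q2a) (n2 := ndB1q0) (pc := pcB2) (cut := Cut.none) (xt := Ext.none) (P1 := 0) (W1 := 536870912) (P2 := 0) (W2 := 536870912) (P3 := 740881858) (W3 := 40050571) (N0 := 3) (En := eng) (mo := mog) (C1 := cd1q2a) (C2 := cd1q0) (C3 := pd2)
    rfl k0_pp_202_a

noncomputable def f_pp_202_b : ℕ → ℕ → ℕ → ℕ → Bool := onCell 1239849684 370763052 0 536870912 740881858 40050571
    (rowB 3 eng mog cd1q2b cd1q0 pd2 0 true true true .pp 2 0 2 (qsf 1239849684 370763052 0 536870912 2) ndB1q2b ndB1q0 pcB2 Cut.none Ext.none)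

def k0_pp_202_b : ∃ t, chk3 f_pp_202_b t 1 1 1 = true :=
  ⟨(l 5), by decide +kernel⟩

theorem c_pp_202_b : CertB 1239849684 370763052 0 536870912 740881858 40050571 3 eng mog cd1q2b cd1q0 pd2 true true true .pp 2 0 2
    ndB1q2b ndB1q0 pcB2 Cut.none Ext.none :=
  certB0 (fam := true) (s1 := true) (s2 := true) (a := 2) (b := 0) (c := 2) (cn := .pp) (n1 := ndB1q2b) (n2 := ndB1q0) (pc := pcB2) (cut := Cut.none) (xt := Ext.none) (P1 := 1239849684) (W1 := 370763052) (P2 := 0) (W2 := 536870912) (P3 := 740881858) (W3 := 40050571) (N0 := 3) (En := eng) (mo := mog) (C1 := cd1q2b) (C2 := cd1q0) (C3 := pd2)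
    rfl k0_pp_202_b

noncomputable def f_pp_203_a : ℕ → ℕ → ℕ → ℕ → Bool := onCell 0 536870912 0 536870912 740881858 40050571
    (rowB 3 eng mog cd1q2a cd1q0 pd3 0 true true true .up 2 0 3 (qsf 0 536870912 0 536870912 3) ndB1q2a ndB1q0 pcB3 Cut.none Ext.none)

def k0_pp_203_a : ∃ t, chk3 f_pp_203_a t 1 1 1 = true :=
  ⟨(l 5), by decide +kernel⟩

theorem c_pp_203_a : CertB 0 536870912 0 536870912 740881858 40050571 3 eng mog cd1q2a cd1q0 pd3 true true true .up 2 0 3
    ndB1q2a ndB1q0 pcB3 Cut.none Ext.none :=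
  certB0 (fam := true) (s1 := true) (s2 := true) (a := 2) (b := 0) (c := 3) (cn := .up) (n1 := ndB1q2a) (n2 := ndB1q0) (pc := pcB3) (cut := Cut.none) (xt := Ext.none) (P1 := 0) (W1 := 536870912) (P2 := 0) (W2 := 536870912) (P3 := 740881858) (W3 := 40050571) (N0 := 3) (En := eng) (mo := mog) (C1 := cd1q2a) (C2 := cd1q0) (C3 := pd3)
    rfl k0_pp_203_a

noncomputable def f_pp_203_b : ℕ → ℕ → ℕ → ℕ → Bool := onCell 1239849684 370763052 0 536870912 740881858 40050571
    (rowB 3 eng mog cd1q2b cd1q0 pd3 0 true true true .up 2 0 3 (qsf 1239849684 370763052 0 536870912 3) ndB1q2b ndB1q0 pcB3 Cut.none Ext.none)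

def k0_pp_203_b : ∃ t, chk3 f_pp_203_b t 1 1 1 = true :=
  ⟨(l 5), by decide +kernel⟩

theorem c_pp_203_b : CertB 1239849684 370763052 0 536870912 740881858 40050571 3 eng mog cd1q2b cd1q0 pd3 true true true .up 2 0 3
    ndB1q2b ndB1q0 pcB3 Cut.none Ext.none :=
  certB0 (fam := true) (s1 := true) (s2 := true) (a := 2) (b := 0) (c := 3) (cn := .up) (n1 := ndB1q2b) (n2 := ndB1q0) (pc := pcB3) (cut := Cut.none) (xt := Ext.none) (P1 := 1239849684) (W1 := 370763052) (P2 := 0) (W2 := 536870912) (P3 := 740881858) (W3 := 40050571) (N0 := 3) (En := eng) (mo := mog) (C1 := cd1q2b) (C2 := cd1q0) (C3 := pd3)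
    rfl k0_pp_203_b

noncomputable def f_pp_213_a : ℕ → ℕ → ℕ → ℕ → Bool := onCell 0 536870912 536870912 536870912 740881858 40050571
    (rowB 3 eng mog cd1q2a cd1q1 pd3 0 true true true .pnn 2 1 3 (qsf 0 536870912 536870912 536870912 3) ndB1q2a ndB1q1 pcB3 Cut.none Ext.none)

def k0_pp_213_a : ∃ t, chk3 f_pp_213_a t 1 1 1 = true :=
  ⟨(l 4), by decide +kernel⟩

theorem c_pp_213_a : CertB 0 536870912 536870912 536870912 740881858 40050571 3 eng mog cd1q2a cd1q1 pd3 true true true .pnn 2 1 3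
    ndB1q2a ndB1q1 pcB3 Cut.none Ext.none :=
  certB0 (fam := true) (s1 := true) (s2 := true) (a := 2) (b := 1) (c := 3) (cn := .pnn) (n1 := ndB1q2a) (n2 := ndB1q1) (pc := pcB3) (cut := Cut.none) (xt := Ext.none) (P1 := 0) (W1 := 536870912) (P2 := 536870912) (W2 := 536870912) (P3 := 740881858) (W3 := 40050571) (N0 := 3) (En := eng) (mo := mog) (C1 := cd1q2a) (C2 := cd1q1) (C3 := pd3)
    rfl k0_pp_213_a

noncomputable def f_pp_213_b : ℕ → ℕ → ℕ → ℕ → Bool := onCell 1239849684 370763052 536870912 536870912 740881858 40050571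
    (rowB 3 eng mog cd1q2b cd1q1 pd3 0 true true true .pnn 2 1 3 (qsf 1239849684 370763052 536870912 536870912 3) ndB1q2b ndB1q1 pcB3 Cut.none Ext.none)

def k0_pp_213_b : ∃ t, chk3 f_pp_213_b t 1 1 1 = true :=
  ⟨(l 5), by decide +kernel⟩

theorem c_pp_213_b : CertB 1239849684 370763052 536870912 536870912 740881858 40050571 3 eng mog cd1q2b cd1q1 pd3 true true true .pnn 2 1 3
    ndB1q2b ndB1q1 pcB3 Cut.none Ext.none :=
  certB0 (fam := true) (s1 := true) (s2 := true) (a := 2) (b := 1) (c := 3) (cn := .pnn) (n1 := ndB1q2b) (n2 := ndB1q1) (pc := pcB3) (cut := Cut.none) (xt := Ext.none) (P1 := 1239849684) (W1 := 370763052) (P2 := 536870912) (W2 := 536870912) (P3 := 740881858) (W3 := 40050571) (N0 := 3) (En := eng) (mo := mog) (C1 := cd1q2b) (C2 := cd1q1) (C3 := pd3)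
    rfl k0_pp_213_b

noncomputable def f_pp_303 : ℕ → ℕ → ℕ → ℕ → Bool := onCell 1610612736 536870912 0 536870912 740881858 40050571
    (rowB 3 eng mog cd1q3 cd1q0 pd3 0 true true true .npn 3 0 3 (qsf 1610612736 536870912 0 536870912 3) ndB1q3 ndB1q0 pcB3 Cut.none Ext.none)

def k0_pp_303 : ∃ t, chk3 f_pp_303 t 1 1 1 = true :=
  ⟨(l 5), by decide +kernel⟩

theorem c_pp_303 : CertB 1610612736 536870912 0 536870912 740881858 40050571 3 eng mog cd1q3 cd1q0 pd3 true true true .npn 3 0 3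
    ndB1q3 ndB1q0 pcB3 Cut.none Ext.none :=
  certB0 (fam := true) (s1 := true) (s2 := true) (a := 3) (b := 0) (c := 3) (cn := .npn) (n1 := ndB1q3) (n2 := ndB1q0) (pc := pcB3) (cut := Cut.none) (xt := Ext.none) (P1 := 1610612736) (W1 := 536870912) (P2 := 0) (W2 := 536870912) (P3 := 740881858) (W3 := 40050571) (N0 := 3) (En := eng) (mo := mog) (C1 := cd1q3) (C2 := cd1q0) (C3 := pd3)
    rfl k0_pp_303

noncomputable def f_pp_313 : ℕ → ℕ → ℕ → ℕ → Bool := onCell 1610612736 536870912 536870912 536870912 740881858 40050571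
    (rowB 3 eng mog cd1q3 cd1q1 pd3 0 true true true .dn 3 1 3 (qsf 1610612736 536870912 536870912 536870912 3) ndB1q3 ndB1q1 pcB3 Cut.none Ext.none)

def k0_pp_313 : ∃ t, chk3 f_pp_313 t 1 1 1 = true :=
  ⟨(l 4), by decide +kernel⟩

theorem c_pp_313 : CertB 1610612736 536870912 536870912 536870912 740881858 40050571 3 eng mog cd1q3 cd1q1 pd3 true true true .dn 3 1 3
    ndB1q3 ndB1q1 pcB3 Cut.none Ext.none :=
  certB0 (fam := true) (s1 := true) (s2 := true) (a := 3) (b := 1) (c := 3) (cn := .dn) (n1 := ndB1q3) (n2 := ndB1q1) (pc := pcB3) (cut := Cut.none) (xt := Ext.none) (P1 := 1610612736) (W1 := 536870912) (P2 := 536870912) (W2 := 536870912) (P3 := 740881858) (W3 := 40050571) (N0 := 3) (En := eng) (mo := mog) (C1 := cd1q3) (C2 := cd1q1) (C3 := pd3)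
    rfl k0_pp_313

noncomputable def f_pm_001 : ℕ → ℕ → ℕ → ℕ → Bool := onCell 0 536870912 0 536870912 740881858 40050571
    (rowB 3 eng mog cd1q0 cd1q0 pd1 0 true true false .up 0 0 1 (qsf 0 536870912 0 536870912 1) ndB1q0 ndB1q0 pcB1 Cut.none Ext.none)

def k0_pm_001 : ∃ t, chk3 f_pm_001 t 1 1 1 = true :=
  ⟨(l 3), by decide +kernel⟩

theorem c_pm_001 : CertB 0 536870912 0 536870912 740881858 40050571 3 eng mog cd1q0 cd1q0 pd1 true true false .up 0 0 1
    ndB1q0 ndB1q0 pcB1 Cut.none Ext.none :=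
  certB0 (fam := true) (s1 := true) (s2 := false) (a := 0) (b := 0) (c := 1) (cn := .up) (n1 := ndB1q0) (n2 := ndB1q0) (pc := pcB1) (cut := Cut.none) (xt := Ext.none) (P1 := 0) (W1 := 536870912) (P2 := 0) (W2 := 536870912) (P3 := 740881858) (W3 := 40050571) (N0 := 3) (En := eng) (mo := mog) (C1 := cd1q0) (C2 := cd1q0) (C3 := pd1)
    rfl k0_pm_001

noncomputable def f_pm_011 : ℕ → ℕ → ℕ → ℕ → Bool := onCell 0 536870912 536870912 536870912 740881858 40050571
    (rowB 3 eng mog cd1q0 cd1q1 pd1 1 true true false .pnn 0 1 1 (qsf 0 536870912 536870912 536870912 1) ndB1q0 ndB1q1 pcB1 Cut.none Ext.none)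

def k0_pm_011 : ∃ t, chk3 f_pm_011 t 1 1 1 = true :=
  ⟨(l 3), by decide +kernel⟩

theorem c_pm_011 : CertB 0 536870912 536870912 536870912 740881858 40050571 3 eng mog cd1q0 cd1q1 pd1 true true false .pnn 0 1 1
    ndB1q0 ndB1q1 pcB1 Cut.none Ext.none :=
  certB1 (fam := true) (s1 := true) (s2 := false) (a := 0) (b := 1) (c := 1) (cn := .pnn) (n1 := ndB1q0) (n2 := ndB1q1) (pc := pcB1) (cut := Cut.none) (xt := Ext.none) (P1 := 0) (W1 := 536870912) (P2 := 536870912) (W2 := 536870912) (P3 := 740881858) (W3 := 40050571) (N0 := 3) (En := eng) (mo := mog) (C1 := cd1q0) (C2 := cd1q1) (C3 := pd1)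
    rfl (fun _ => rfl) k0_pm_011

noncomputable def f_pm_012 : ℕ → ℕ → ℕ → ℕ → Bool := onCell 1073741824 536870912 536870912 536870912 740881858 40050571
    (rowB 3 eng mog cd1q0 cd1q1 pd2 2 true true false .pnp 0 1 2 (qsf 0 536870912 536870912 536870912 2) ndB1q0 ndB1q1 pcB2 Cut.none Ext.none)

def k0_pm_012 : ∃ t, chk3 f_pm_012 t 4 1 1 = true :=
  ⟨(a (l 3) (b (l 3) (b (l 3) (a (b (l 3) (a (l 3) (b (l 3) (a (l 3) (b (l 3) (a (l 3) (l 16640328))))))) (a (b (l 3) (b (a (l 3) (l 16667552)) (a (b (l 302425722039) (a (l 16637224) (l 16633160))) (b (l 16644352) (l 16626176))))) (b (a (l 75866479143) (b (l 16668232) (l 16664608))) (b (a (l 16662592) (l 16656992)) (a (b (l 16637096) (l 16618704)) (b (l 16631528) (l 16612184)))))))))), by decide +kernel⟩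

def k1_pm_012 : ∃ t, chk3 f_pm_012 t 5 1 1 = true :=
  ⟨(a (a (a (b (l 3) (b (b (a (l 3) (l 16745072)) (a (b (l 3) (l 16660032)) (a (l 16653728) (l 16647888)))) (b (a (b (l 16633896) (l 16651456)) (b (l 16558704) (l 16638688))) (b (a (l 16650656) (l 16639848)) (a (l 16615280) (l 16608016)))))) (b (b (l 2) (a (b (l 3) (a (l 3) (l 16659136))) (a (b (l 16666040) (l 16676032)) (b (a (l 16726504) (l 16661992)) (a (b (l 16654840) (l 16649096)) (l 16650008)))))) (a (b (a (b (l 16653616) (l 16642408)) (b (l 16648680) (l 16657800))) (b (a (l 16631760) (l 16626672)) (b (l 16628680) (l 16603104)))) (b (a (b (a (l 16645048) (l 16642648)) (b (l 16634520) (l 16628368))) (b (a (b (l 16643216) (l 16637072)) (l 16637904)) (a (l 16627664) (l 16625080)))) (a (b (l 16621256) (b (l 16619696) (l 16602528))) (b (a (l 16617208) (b (l 16616424) (l 16612440))) (a (b (l 16613608) (l 16605264)) (l 16606320)))))))) (b (b (l 2) (b (l 16648992) (l 16633544))) (b (b (l 16617960)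 (l 16623160)) (b (b (l 16591928) (l 16586848)) (b (l 16581096) (l 16576504)))))) (b (b (l 2) (b (l 16619256) (a (l 16605976) (l 16583088)))) (b (b (a (l 16583824) (l 16554280)) (a (l 16562224) (l 16526512))) (b (a (b (l 16548520) (l 16541688)) (b (l 16508904) (l 16500136))) (b (l 16554680) (a (l 16528928) (l 16484920))))))), by decide +kernel⟩

def k2_pm_012 : ∃ t, chk3 f_pm_012 t 3 1 1 = true :=
  ⟨(b (a (b (l 2) (a (b (l 2) (l 16558080)) (l 2))) (l 2)) (a (b (b (a (a (l 16529536) (l 16509760)) (l 16489928)) (a (a (l 16495192) (l 16468432)) (l 16437352))) (b (a (b (a (l 16473208) (l 16441584)) (a (l 16462280) (l 16428224))) (b (l 16402208) (l 16384512))) (a (a (l 16464400) (l 16412704)) (b (l 16371424) (l 16360288))))) (b (b (l 2) (a (l 16414128) (l 2))) (b (a (l 16395496) (l 16333648)) (a (l 16317944) (l 16287088)))))), by decide +kernel⟩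

theorem s3_pm_012 : ∃ t, chk3 f_pm_012 t 2 1 1 = true := ex3_a k0_pm_012 k1_pm_012

theorem s4_pm_012 : ∃ t, chk3 f_pm_012 t 1 1 1 = true := ex3_a s3_pm_012 k2_pm_012

theorem c_pm_012 : CertB 0 536870912 536870912 536870912 740881858 40050571 3 eng mog cd1q0 cd1q1 pd2 true true false .pnp 0 1 2
    ndB1q0 ndB1q1 pcB2 Cut.none Ext.none :=
  certB2 (fam := true) (s1 := true) (s2 := false) (a := 0) (b := 1) (c := 2) (cn := .pnp) (n1 := ndB1q0) (n2 := ndB1q1) (pc := pcB2) (cut := Cut.none) (xt := Ext.none) (P1 := 0) (W1 := 536870912) (P2 := 536870912) (W2 := 536870912) (P3 := 740881858) (W3 := 40050571) (N0 := 3) (En := eng) (mo := mog) (C1 := cd1q0) (C2 := cd1q1) (C3 := pd2)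
    rfl (fun _ => rfl) s4_pm_012

end Pool.Agent.Strip051.G.I69_7273.Tab.C.BA11

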