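import Pool.Agent.Strip051.G.I69_7273.Gn
import Pool.Agent.Strip051.PB.Corns
import Pool.Agent.Strip051.PB.CornW

/-! # Certificates of the aligned corners (generated) -/

set_option linter.all false

namespace Pool.Agent.Strip051.G.I69_7273.Tab.CG

open Pool.Agent.Strip051.PB

def B022R_204 :
    ∃ t, chk3 (onCell 0 67108864 0 1073741824 740881858 40050571 (corT true 1 c0B cB022R gB2q0 gB0q2 gB4q2 gB5q2 false true)) t 1 1 1 = true :=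
  ⟨(T.a (T.a (T.b (T.b (T.b (T.b (T.c (T.l 204) (T.b (T.l 204) (T.l 204))) (T.l 204)) (T.l 204)) (T.l 0)) (T.l 816)) (T.a (T.b (T.b (T.c (T.l 204) (T.b (T.l 204) (T.l 204))) (T.l 0)) (T.l 816)) (T.b (T.b (T.b (T.a (T.c (T.l 204) (T.l 204)) (T.b (T.l 204) (T.l 204))) (T.l 204)) (T.l 0)) (T.l 816)))) (T.a (T.b (T.b (T.a (T.b (T.a (T.l 204) (T.b (T.l 204) (T.l 204))) (T.l 204)) (T.b (T.c (T.l 204) (T.a (T.l 204) (T.l 204))) (T.l 204))) (T.l 0)) (T.l 816)) (T.b (T.b (T.a (T.b (T.a (T.b (T.l 204) (T.l 204)) (T.l 220)) (T.l 0)) (T.b (T.a (T.l 204) (T.l 220)) (T.l 0))) (T.l 0)) (T.l 816)))), by decide +kernel⟩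

def B022R_214 :
    ∃ t, chk3 (onCell 0 67108864 0 1073741824 740881858 40050571 (corT true 1 c0B cB022R gB2q0 gB1q2 gB4q2 gB5q2 false true)) t 1 1 1 = true :=
  ⟨(T.a (T.b (T.b (T.l 0) (T.l 816)) (T.l 816)) (T.a (T.b (T.l 0) (T.l 816)) (T.b (T.b (T.l 0) (T.l 816)) (T.l 816)))), by decide +kernel⟩

def B022R_224 :
    ∃ t, chk3 (onCell 0 67108864 0 1073741824 740881858 40050571 (corT true 1 c0B cB022R gB2q0 gB2q2 gB4q2 gB5q2 false true)) t 1 1 1 = true :=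
  ⟨(T.a (T.l 0) (T.a (T.l 0) (T.l 16))), by decide +kernel⟩

def B101E_000 :
    ∃ t, chk3 (onCell 0 53687091 0 1073741824 740881858 40050571 (corT true 1 c0B cB101E gB0q1 gB0q1 gB0q0 gB1q0 true true)) t 1 1 1 = true :=
  ⟨(T.l 2), by decide +kernel⟩

def B101E_001 :
    ∃ t, chk3 (onCell 0 53687091 0 1073741824 740881858 40050571 (corT true 1 c0B cB101E gB0q1 gB0q1 gB1q0 gB2q0 true true)) t 1 1 1 = true :=
  ⟨(T.l 2), by decide +kernel⟩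

def B101E_002 :
    ∃ t, chk3 (onCell 0 53687091 0 1073741824 740881858 40050571 (corT true 1 c0B cB101E gB0q1 gB0q1 gB2q0 gB3q0 true false)) t 1 1 1 = true :=
  ⟨(T.a (T.b (T.b (T.b (T.l 0) (T.l 0)) (T.b (T.l 204) (T.l 204))) (T.b (T.b (T.l 204) (T.b (T.l 204) (T.l 204))) (T.b (T.a (T.l 204) (T.l 204)) (T.a (T.c (T.b (T.l 204) (T.l 204)) (T.l 204)) (T.c (T.b (T.l 204) (T.l 204)) (T.l 204)))))) (T.b (T.b (T.a (T.a (T.l 32) (T.l 0)) (T.b (T.l 0) (T.l 32))) (T.a (T.b (T.b (T.l 204) (T.l 204)) (T.l 204)) (T.b (T.l 204) (T.l 204)))) (T.a (T.b (T.b (T.l 204) (T.l 204)) (T.a (T.b (T.l 204) (T.c (T.b (T.l 204) (T.l 204)) (T.l 204))) (T.b (T.l 204) (T.b (T.l 204) (T.l 204))))) (T.b (T.b (T.l 204) (T.l 204)) (T.b (T.l 236) (T.b (T.l 236) (T.a (T.l 204) (T.l 204)))))))), by decide +kernel⟩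

def B101L_300 :
    ∃ t, chk3 (onCell 0 67108864 0 1073741824 740881858 40050571 (corT true 1 c0B cB101L gB3q1 gB0q1 gB0q0 gB1q0 true true)) t 1 1 1 = true :=
  ⟨(T.b (T.l 1) (T.b (T.l 1) (T.b (T.l 1) (T.b (T.b (T.l 1) (T.b (T.l 1) (T.a (T.l 816) (T.a (T.l 816) (T.a (T.l 816) (T.l 816)))))) (T.a (T.l 816) (T.a (T.l 816) (T.b (T.l 816) (T.l 816)))))))), by decide +kernel⟩

def B101L_301 :
    ∃ t, chk3 (onCell 0 67108864 0 1073741824 740881858 40050571 (corT true 1 c0B cB101L gB3q1 gB0q1 gB1q0 gB2q0 true true)) t 1 1 1 = true :=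
  ⟨(T.l 1), by decide +kernel⟩

def B101L_302 :
    ∃ t, chk3 (onCell 0 67108864 0 1073741824 740881858 40050571 (corT true 1 c0B cB101L gB3q1 gB0q1 gB2q0 gB3q0 true false)) t 1 1 1 = true :=
  ⟨(T.l 1), by decide +kernel⟩

def B101L_400 :
    ∃ t, chk3 (onCell 0 67108864 0 1073741824 740881858 40050571 (corT true 1 c0B cB101L gB4q1 gB0q1 gB0q0 gB1q0 true true)) t 1 1 1 = true :=
  ⟨(T.b (T.l 1) (T.b (T.l 1) (T.b (T.b (T.b (T.l 1) (T.b (T.l 1) (T.a (T.l 816) (T.a (T.l 816) (T.c (T.l 816) (T.l 816)))))) (T.a (T.l 816) (T.a (T.l 816) (T.l 816)))) (T.a (T.l 0) (T.a (T.l 0) (T.l 0)))))), by decide +kernel⟩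

def B101L_401 :
    ∃ t, chk3 (onCell 0 67108864 0 1073741824 740881858 40050571 (corT true 1 c0B cB101L gB4q1 gB0q1 gB1q0 gB2q0 true true)) t 1 1 1 = true :=
  ⟨(T.b (T.l 1) (T.b (T.l 1) (T.b (T.l 1) (T.a (T.l 0) (T.l 0))))), by decide +kernel⟩

def B101L_402 :
    ∃ t, chk3 (onCell 0 67108864 0 1073741824 740881858 40050571 (corT true 1 c0B cB101L gB4q1 gB0q1 gB2q0 gB3q0 true false)) t 1 1 1 = true :=
  ⟨(T.l 1), by decide +kernel⟩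

def B101L_500 :
    ∃ t, chk3 (onCell 0 67108864 0 1073741824 740881858 40050571 (corX 1 c0B cB101L tB101L gB5q1 gB0q1 gB0q0 gB1q0 gB0q0 true true)) t 1 1 1 = true :=
  ⟨(T.b (T.l 1) (T.b (T.b (T.l 1) (T.l 207)) (T.a (T.l 207) (T.a (T.l 207) (T.b (T.l 204) (T.l 2)))))), by decide +kernel⟩

def B101L_501 :
    ∃ t, chk3 (onCell 0 67108864 0 1073741824 740881858 40050571 (corT true 1 c0B cB101L gB5q1 gB0q1 gB1q0 gB2q0 true true)) t 1 1 1 = true :=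
  ⟨(T.b (T.l 1) (T.b (T.l 1) (T.b (T.l 0) (T.l 204)))), by decide +kernel⟩

def B101L_502 :
    ∃ t, chk3 (onCell 0 67108864 0 1073741824 740881858 40050571 (corT true 1 c0B cB101L gB5q1 gB0q1 gB2q0 gB3q0 true false)) t 1 1 1 = true :=
  ⟨(T.l 1), by decide +kernel⟩

def B101R_030 :
    ∃ t, chk3 (onCell 0 67108864 0 1073741824 740881858 40050571 (corT true 1 c0B cB101R gB0q1 gB3q1 gB0q0 gB1q0 true true)) t 1 1 1 = true :=
  ⟨(T.l 1), by decide +kernel⟩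

def B101R_031 :
    ∃ t, chk3 (onCell 0 67108864 0 1073741824 740881858 40050571 (corT true 1 c0B cB101R gB0q1 gB3q1 gB1q0 gB2q0 true true)) t 1 1 1 = true :=
  ⟨(T.l 1), by decide +kernel⟩

def B101R_032 :
    ∃ t, chk3 (onCell 0 67108864 0 1073741824 740881858 40050571 (corT true 1 c0B cB101R gB0q1 gB3q1 gB2q0 gB3q0 true false)) t 1 1 1 = true :=
  ⟨(T.l 1), by decide +kernel⟩

def B101R_040 :
    ∃ t, chk3 (onCell 0 67108864 0 1073741824 740881858 40050571 (corT true 1 c0B cB101R gB0q1 gB4q1 gB0q0 gB1q0 true true)) t 1 1 1 = true :=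
  ⟨(T.l 1), by decide +kernel⟩

def B101R_041 :
    ∃ t, chk3 (onCell 0 67108864 0 1073741824 740881858 40050571 (corT true 1 c0B cB101R gB0q1 gB4q1 gB1q0 gB2q0 true true)) t 1 1 1 = true :=
  ⟨(T.l 1), by decide +kernel⟩

def B101R_042 :
    ∃ t, chk3 (onCell 0 67108864 0 1073741824 740881858 40050571 (corT true 1 c0B cB101R gB0q1 gB4q1 gB2q0 gB3q0 true false)) t 1 1 1 = true :=
  ⟨(T.l 1), by decide +kernel⟩

def B101R_050 :
    ∃ t, chk3 (onCell 0 67108864 0 1073741824 740881858 40050571 (corT true 1 c0B cB101R gB0q1 gB5q1 gB0q0 gB1q0 true true)) t 1 1 1 = true :=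
  ⟨(T.l 1), by decide +kernel⟩

def B101R_051 :
    ∃ t, chk3 (onCell 0 67108864 0 1073741824 740881858 40050571 (corT true 1 c0B cB101R gB0q1 gB5q1 gB1q0 gB2q0 true true)) t 1 1 1 = true :=
  ⟨(T.l 1), by decide +kernel⟩

def B101R_052 :
    ∃ t, chk3 (onCell 0 67108864 0 1073741824 740881858 40050571 (corT true 1 c0B cB101R gB0q1 gB5q1 gB2q0 gB3q0 true false)) t 1 1 1 = true :=
  ⟨(T.l 1), by decide +kernel⟩

def B102E_000 :
    ∃ t, chk3 (onCell 0 53687091 0 1073741824 740881858 40050571 (corX 1 c0B cB102E tB102E gB0q1 gB0q2 gB0q0 gB1q0 gB0q0 true true)) t 1 1 1 = true :=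
  ⟨(T.b (T.b (T.l 1) (T.b (T.l 1) (T.a (T.a (T.l 207) (T.l 1)) (T.l 1)))) (T.b (T.b (T.a (T.a (T.l 207) (T.l 207)) (T.a (T.l 207) (T.b (T.b (T.l 207) (T.a (T.l 207) (T.a (T.l 207) (T.a (T.l 207) (T.b (T.c (T.l 204) (T.l 204)) (T.l 204)))))) (T.a (T.b (T.l 207) (T.l 204)) (T.b (T.c (T.b (T.l 204) (T.l 204)) (T.l 748)) (T.c (T.l 204) (T.l 204))))))) (T.l 2)) (T.l 2))), by decide +kernel⟩

def B102E_001 :
    ∃ t, chk3 (onCell 0 53687091 0 1073741824 740881858 40050571 (corT true 1 c0B cB102E gB0q1 gB0q2 gB1q0 gB2q0 true true)) t 1 1 1 = true :=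
  ⟨(T.b (T.l 1) (T.b (T.b (T.b (T.l 1) (T.b (T.l 1) (T.a (T.c (T.a (T.l 204) (T.l 204)) (T.l 204)) (T.a (T.c (T.l 204) (T.l 204)) (T.a (T.l 204) (T.c (T.l 204) (T.l 204))))))) (T.a (T.b (T.a (T.l 204) (T.l 236)) (T.l 204)) (T.a (T.b (T.l 236) (T.a (T.l 204) (T.l 204))) (T.b (T.a (T.b (T.l 204) (T.l 204)) (T.b (T.l 204) (T.l 204))) (T.a (T.l 204) (T.l 204)))))) (T.b (T.b (T.a (T.l 204) (T.b (T.a (T.a (T.l 204) (T.l 204)) (T.l 204)) (T.l 2))) (T.l 2)) (T.l 2)))), by decide +kernel⟩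

def B102E_002 :
    ∃ t, chk3 (onCell 0 53687091 0 1073741824 740881858 40050571 (corT true 1 c0B cB102E gB0q1 gB0q2 gB2q0 gB3q0 true false)) t 1 1 1 = true :=
  ⟨(T.b (T.l 1) (T.b (T.b (T.l 1) (T.b (T.l 1) (T.a (T.b (T.l 1) (T.l 204)) (T.l 1)))) (T.a (T.b (T.a (T.l 204) (T.l 204)) (T.c (T.b (T.l 204) (T.a (T.l 204) (T.l 204))) (T.b (T.l 204) (T.l 204)))) (T.a (T.b (T.a (T.b (T.l 204) (T.l 204)) (T.b (T.l 204) (T.l 204))) (T.a (T.b (T.b (T.l 204) (T.l 204)) (T.c (T.b (T.l 204) (T.l 204)) (T.l 204))) (T.b (T.b (T.l 204) (T.l 204)) (T.b (T.l 204) (T.l 204))))) (T.b (T.a (T.b (T.l 204) (T.l 204)) (T.b (T.l 204) (T.l 204))) (T.a (T.b (T.l 204) (T.a (T.l 204) (T.l 204))) (T.b (T.l 204) (T.b (T.l 204) (T.l 204))))))))), by decide +kernel⟩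

def B102E_010_1_4_1 :
    ∃ t, chk3 (onCell 0 67108864 0 1073741824 740881858 40050571 (corT true 1 c0B cB102E gB0q1 gB1q2 gB0q0 gB1q0 true true)) t 1 4 1 = true :=
  ⟨(T.l 1), by decide +kernel⟩

def B102E_010_1_10_1 :
    ∃ t, chk3 (onCell 0 67108864 0 1073741824 740881858 40050571 (corT true 1 c0B cB102E gB0q1 gB1q2 gB0q0 gB1q0 true true)) t 1 10 1 = true :=
  ⟨(T.l 1), by decide +kernel⟩

def B102E_010_1_22_1 :
    ∃ t, chk3 (onCell 0 67108864 0 1073741824 740881858 40050571 (corT true 1 c0B cB102E gB0q1 gB1q2 gB0q0 gB1q0 true true)) t 1 22 1 = true :=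
  ⟨(T.l 1), by decide +kernel⟩

def B102E_010_2_184_1 :
    ∃ t, chk3 (onCell 0 67108864 0 1073741824 740881858 40050571 (corT true 1 c0B cB102E gB0q1 gB1q2 gB0q0 gB1q0 true true)) t 2 184 1 = true :=
  ⟨(T.a (T.a (T.a (T.b (T.l 1) (T.b (T.l 1) (T.b (T.l 1) (T.a (T.c (T.a (T.l 0) (T.b (T.b (T.l 1) (T.l 816)) (T.l 0))) (T.a (T.l 0) (T.b (T.b (T.l 1) (T.l 816)) (T.l 0)))) (T.a (T.b (T.l 1) (T.a (T.l 816) (T.l 1))) (T.l 1)))))) (T.l 1)) (T.l 1)) (T.l 1)), by decide +kernel⟩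

def B102E_010_4_185_1 :
    ∃ t, chk3 (onCell 0 67108864 0 1073741824 740881858 40050571 (corT true 1 c0B cB102E gB0q1 gB1q2 gB0q0 gB1q0 true true)) t 4 185 1 = true :=
  ⟨(T.a (T.b (T.a (T.b (T.a (T.l 0) (T.a (T.l 0) (T.c (T.c (T.l 0) (T.l 0)) (T.l 0)))) (T.l 0)) (T.b (T.b (T.a (T.b (T.l 1) (T.a (T.l 816) (T.c (T.a (T.l 816) (T.l 1)) (T.l 816)))) (T.l 1)) (T.a (T.c (T.l 0) (T.l 0)) (T.c (T.b (T.a (T.c (T.l 816) (T.l 816)) (T.l 1)) (T.l 816)) (T.c (T.c (T.c (T.l 816) (T.l 816)) (T.l 816)) (T.l 816))))) (T.c (T.l 0) (T.l 0)))) (T.l 0)) (T.b (T.b (T.l 1) (T.a (T.c (T.a (T.c (T.c (T.c (T.a (T.l 816) (T.l 816)) (T.l 816)) (T.l 816)) (T.l 816)) (T.b (T.b (T.l 1) (T.a (T.l 816) (T.l 1))) (T.l 816))) (T.a (T.l 816) (T.b (T.b (T.l 1) (T.l 816)) (T.l 816)))) (T.a (T.b (T.l 1) (T.b (T.a (T.c (T.a (T.l 816) (T.l 1)) (T.l 816)) (T.l 1)) (T.c (T.c (T.c (T.l 816) (T.l 816)) (T.l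 816)) (T.l 816)))) (T.l 1)))) (T.a (T.l 0) (T.b (T.c (T.a (T.l 816) (T.c (T.a (T.l 816) (T.b (T.b (T.l 1) (T.l 816)) (T.l 816))) (T.l 816))) (T.l 816)) (T.l 0))))), by decide +kernel⟩

def B102E_010_5_185_1 :
    ∃ t, chk3 (onCell 0 67108864 0 1073741824 740881858 40050571 (corT true 1 c0B cB102E gB0q1 gB1q2 gB0q0 gB1q0 true true)) t 5 185 1 = true :=
  ⟨(T.b (T.l 1) (T.a (T.b (T.a (T.b (T.a (T.a (T.c (T.a (T.b (T.l 1) (T.l 816)) (T.l 1)) (T.l 816)) (T.l 1)) (T.l 1)) (T.c (T.a (T.c (T.l 816) (T.l 816)) (T.b (T.l 1) (T.a (T.l 816) (T.l 1)))) (T.c (T.l 816) (T.l 816)))) (T.l 1)) (T.a (T.c (T.c (T.l 816) (T.l 816)) (T.l 816)) (T.c (T.b (T.a (T.b (T.c (T.a (T.l 820) (T.l 1)) (T.l 816)) (T.l 820)) (T.l 1)) (T.c (T.c (T.a (T.l 816) (T.c (T.a (T.l 816) (T.b (T.l 1) (T.l 816))) (T.l 816))) (T.l 816)) (T.l 816))) (T.c (T.c (T.a (T.l 816) (T.b (T.l 1) (T.l 816))) (T.l 816))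 (T.l 816))))) (T.a (T.a (T.a (T.b (T.l 1) (T.a (T.b (T.l 1) (T.b (T.l 1) (T.l 816))) (T.l 1))) (T.l 1)) (T.l 1)) (T.l 1)))), by decide +kernel⟩

def B102E_010_2_93_1 :
    ∃ t, chk3 (onCell 0 67108864 0 1073741824 740881858 40050571 (corT true 1 c0B cB102E gB0q1 gB1q2 gB0q0 gB1q0 true true)) t 2 93 1 = true :=
  ⟨(T.a (T.c (T.l 0) (T.l 0)) (T.b (T.a (T.c (T.c (T.l 0) (T.l 0)) (T.l 0)) (T.b (T.c (T.a (T.b (T.b (T.a (T.l 820) (T.b (T.l 1) (T.a (T.l 816) (T.l 1)))) (T.l 816)) (T.l 816)) (T.b (T.a (T.b (T.l 1) (T.c (T.c (T.b (T.a (T.l 816) (T.l 1)) (T.l 816)) (T.l 816)) (T.l 816))) (T.l 1)) (T.c (T.c (T.a (T.l 816) (T.c (T.l 820) (T.l 816))) (T.l 816)) (T.l 816)))) (T.a (T.l 816) (T.b (T.b (T.l 1) (T.l 816)) (T.l 816)))) (T.l 0))) (T.l 0))), by decide +kernel⟩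

def B102E_010_2_47_1 :
    ∃ t, chk3 (onCell 0 67108864 0 1073741824 740881858 40050571 (corT true 1 c0B cB102E gB0q1 gB1q2 gB0q0 gB1q0 true true)) t 2 47 1 = true :=
  ⟨(T.a (T.l 204) (T.l 0)), by decide +kernel⟩

def B102E_010_6_23_1 :
    ∃ t, chk3 (onCell 0 67108864 0 1073741824 740881858 40050571 (corT true 1 c0B cB102E gB0q1 gB1q2 gB0q0 gB1q0 true true)) t 6 23 1 = true :=
  ⟨(T.b (T.b (T.l 1) (T.b (T.b (T.a (T.a (T.b (T.l 1) (T.b (T.a (T.c (T.a (T.b (T.l 1) (T.l 816)) (T.l 1)) (T.l 816)) (T.l 1)) (T.c (T.c (T.a (T.l 816) (T.b (T.l 1) (T.l 820))) (T.l 816)) (T.l 816)))) (T.l 1)) (T.l 1)) (T.a (T.c (T.a (T.l 816) (T.b (T.c (T.b (T.a (T.c (T.c (T.a (T.l 816) (T.b (T.l 1) (T.l 816))) (T.l 820)) (T.l 816)) (T.l 1)) (T.c (T.l 820) (T.l 816))) (T.c (T.a (T.l 816) (T.b (T.l 1) (T.l 816))) (T.l 816))) (T.l 816))) (T.c (T.l 816) (T.l 816))) (T.b (T.a (T.a (T.a (T.c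 (T.b (T.l 1) (T.b (T.l 1) (T.l 816))) (T.l 816)) (T.l 1)) (T.l 1)) (T.l 1)) (T.a (T.c (T.c (T.c (T.a (T.l 816) (T.b (T.b (T.l 1) (T.l 816)) (T.l 816))) (T.l 820)) (T.l 816)) (T.l 816)) (T.a (T.b (T.l 1) (T.c (T.c (T.c (T.c (T.a (T.l 816) (T.b (T.l 1) (T.l 816))) (T.l 816)) (T.l 816)) (T.l 816)) (T.l 816))) (T.l 1)))))) (T.c (T.a (T.l 0) (T.c (T.a (T.l 0) (T.c (T.a (T.l 816) (T.l 820)) (T.l 816))) (T.l 0))) (T.l 0)))) (T.l 0)), by decide +kernel⟩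

def B102E_010_7_23_1 :
    ∃ t, chk3 (onCell 0 67108864 0 1073741824 740881858 40050571 (corT true 1 c0B cB102E gB0q1 gB1q2 gB0q0 gB1q0 true true)) t 7 23 1 = true :=
  ⟨(T.b (T.b (T.l 1) (T.b (T.l 1) (T.a (T.b (T.b (T.a (T.c (T.b (T.a (T.c (T.a (T.b (T.l 1) (T.l 816)) (T.l 1)) (T.l 816)) (T.l 1)) (T.c (T.c (T.a (T.l 816) (T.a (T.l 820) (T.l 1))) (T.l 816)) (T.l 816))) (T.l 816)) (T.l 1)) (T.c (T.a (T.l 816) (T.c (T.a (T.c (T.a (T.l 816) (T.c (T.a (T.l 820) (T.b (T.l 1) (T.l 816))) (T.l 816))) (T.l 816)) (T.b (T.l 1) (T.l 820))) (T.l 820))) (T.l 816))) (T.a (T.l 0) (T.l 816))) (T.b (T.a (T.a (T.b (T.l 1) (T.c (T.a (T.b (T.l 1) (T.b (T.l 1) (T.l 816))) (T.l 1)) (T.l 816))) (T.l 1)) (T.l 1)) (T.a (T.c (T.a (T.l 816) (T.c (T.b (T.c (T.a (T.l 820) (T.b (T.l 1) (T.l 816))) (T.l 816)) (T.l 816)) (T.l 816))) (T.l 816)) (T.b (T.a (T.b (T.l 1) (T.c (T.c (T.a (T.l 816) (T.l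 820)) (T.l 816)) (T.l 816))) (T.l 1)) (T.a (T.l 816) (T.c (T.l 820) (T.l 816))))))))) (T.a (T.l 0) (T.b (T.a (T.l 0) (T.l 0)) (T.l 204)))), by decide +kernel⟩

def B102E_010_1_3_1 :
    ∃ t, chk3 (onCell 0 67108864 0 1073741824 740881858 40050571 (corT true 1 c0B cB102E gB0q1 gB1q2 gB0q0 gB1q0 true true)) t 1 3 1 = true :=
  ⟨(T.b (T.b (T.a (T.b (T.l 204) (T.l 204)) (T.a (T.b (T.l 204) (T.b (T.l 204) (T.l 2))) (T.b (T.b (T.l 204) (T.l 204)) (T.b (T.l 204) (T.l 2))))) (T.l 2)) (T.l 2)), by decide +kernel⟩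

theorem B102E_010_3_23_1 :
    ∃ t, chk3 (onCell 0 67108864 0 1073741824 740881858 40050571 (corT true 1 c0B cB102E gB0q1 gB1q2 gB0q0 gB1q0 true true)) t 3 23 1 = true :=
  ex3_a B102E_010_6_23_1 B102E_010_7_23_1
theorem B102E_010_2_185_1 :
    ∃ t, chk3 (onCell 0 67108864 0 1073741824 740881858 40050571 (corT true 1 c0B cB102E gB0q1 gB1q2 gB0q0 gB1q0 true true)) t 2 185 1 = true :=
  ex3_a B102E_010_4_185_1 B102E_010_5_185_1
theorem B102E_010_2_92_1 :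
    ∃ t, chk3 (onCell 0 67108864 0 1073741824 740881858 40050571 (corT true 1 c0B cB102E gB0q1 gB1q2 gB0q0 gB1q0 true true)) t 2 92 1 = true :=
  ex3_b B102E_010_2_184_1 B102E_010_2_185_1
theorem B102E_010_2_46_1 :
    ∃ t, chk3 (onCell 0 67108864 0 1073741824 740881858 40050571 (corT true 1 c0B cB102E gB0q1 gB1q2 gB0q0 gB1q0 true true)) t 2 46 1 = true :=
  ex3_b B102E_010_2_92_1 B102E_010_2_93_1
theorem B102E_010_2_23_1 :
    ∃ t, chk3 (onCell 0 67108864 0 1073741824 740881858 40050571 (corT true 1 c0B cB102E gB0q1 gB1q2 gB0q0 gB1q0 true true)) t 2 23 1 = true :=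
  ex3_b B102E_010_2_46_1 B102E_010_2_47_1
theorem B102E_010_1_23_1 :
    ∃ t, chk3 (onCell 0 67108864 0 1073741824 740881858 40050571 (corT true 1 c0B cB102E gB0q1 gB1q2 gB0q0 gB1q0 true true)) t 1 23 1 = true :=
  ex3_a B102E_010_2_23_1 B102E_010_3_23_1
theorem B102E_010_1_11_1 :
    ∃ t, chk3 (onCell 0 67108864 0 1073741824 740881858 40050571 (corT true 1 c0B cB102E gB0q1 gB1q2 gB0q0 gB1q0 true true)) t 1 11 1 = true :=
  ex3_b B102E_010_1_22_1 B102E_010_1_23_1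
theorem B102E_010_1_5_1 :
    ∃ t, chk3 (onCell 0 67108864 0 1073741824 740881858 40050571 (corT true 1 c0B cB102E gB0q1 gB1q2 gB0q0 gB1q0 true true)) t 1 5 1 = true :=
  ex3_b B102E_010_1_10_1 B102E_010_1_11_1
theorem B102E_010_1_2_1 :
    ∃ t, chk3 (onCell 0 67108864 0 1073741824 740881858 40050571 (corT true 1 c0B cB102E gB0q1 gB1q2 gB0q0 gB1q0 true true)) t 1 2 1 = true :=
  ex3_b B102E_010_1_4_1 B102E_010_1_5_1
theorem B102E_010 :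
    ∃ t, chk3 (onCell 0 67108864 0 1073741824 740881858 40050571 (corT true 1 c0B cB102E gB0q1 gB1q2 gB0q0 gB1q0 true true)) t 1 1 1 = true :=
  ex3_b B102E_010_1_2_1 B102E_010_1_3_1

def B102E_011 :
    ∃ t, chk3 (onCell 0 67108864 0 1073741824 740881858 40050571 (corT true 1 c0B cB102E gB0q1 gB1q2 gB1q0 gB2q0 true true)) t 1 1 1 = true :=
  ⟨(T.b (T.l 1) (T.b (T.b (T.a (T.b (T.l 204) (T.l 204)) (T.a (T.b (T.l 204) (T.b (T.l 204) (T.l 204))) (T.b (T.l 1) (T.l 204)))) (T.a (T.l 204) (T.a (T.a (T.l 236) (T.l 204)) (T.b (T.l 204) (T.l 716))))) (T.l 2))), by decide +kernel⟩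

def B102E_012 :
    ∃ t, chk3 (onCell 0 67108864 0 1073741824 740881858 40050571 (corT true 1 c0B cB102E gB0q1 gB1q2 gB2q0 gB3q0 true false)) t 1 1 1 = true :=
  ⟨(T.b (T.l 1) (T.b (T.b (T.l 1) (T.a (T.l 0) (T.b (T.l 1) (T.a (T.b (T.l 1) (T.l 204)) (T.l 716))))) (T.b (T.b (T.a (T.l 204) (T.a (T.b (T.l 204) (T.l 204)) (T.b (T.l 204) (T.l 204)))) (T.a (T.a (T.l 204) (T.a (T.l 204) (T.l 204))) (T.a (T.a (T.l 204) (T.l 204)) (T.b (T.l 204) (T.l 236))))) (T.b (T.a (T.a (T.l 204) (T.a (T.l 204) (T.c (T.l 204) (T.l 204)))) (T.a (T.a (T.b (T.l 204) (T.l 204)) (T.b (T.l 204) (T.l 204))) (T.a (T.l 204) (T.l 204)))) (T.a (T.a (T.c (T.b (T.l 204) (T.l 204)) (T.l 204)) (T.a (T.l 236) (T.a (T.l 204) (T.b (T.l 204) (T.l 204))))) (T.a (T.a (T.c (T.l 236) (T.l 204)) (T.a (T.l 204) (T.l 204))) (T.a (T.b (T.l 204) (T.l 236)) (T.b (T.l 204) (T.l 204))))))))), by decide +kernel⟩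

def B102E_020 :
    ∃ t, chk3 (onCell 0 67108864 0 1073741824 740881858 40050571 (corT true 1 c0B cB102E gB0q1 gB2q2 gB0q0 gB1q0 true true)) t 1 1 1 = true :=
  ⟨(T.b (T.b (T.l 1) (T.b (T.b (T.l 1) (T.a (T.b (T.b (T.l 1) (T.a (T.l 204) (T.l 204))) (T.l 204)) (T.b (T.a (T.a (T.b (T.l 1) (T.l 204)) (T.l 1)) (T.l 1)) (T.a (T.l 204) (T.c (T.l 204) (T.l 204)))))) (T.a (T.b (T.l 204) (T.l 204)) (T.a (T.l 204) (T.b (T.b (T.l 204) (T.l 204)) (T.l 204)))))) (T.b (T.l 2) (T.l 2))), by decide +kernel⟩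

def B102E_021 :
    ∃ t, chk3 (onCell 0 67108864 0 1073741824 740881858 40050571 (corT true 1 c0B cB102E gB0q1 gB2q2 gB1q0 gB2q0 true true)) t 1 1 1 = true :=
  ⟨(T.b (T.b (T.l 1) (T.b (T.l 1) (T.b (T.l 1) (T.a (T.l 204) (T.a (T.l 204) (T.l 204)))))) (T.b (T.a (T.l 204) (T.b (T.a (T.b (T.l 204) (T.l 204)) (T.l 204)) (T.a (T.b (T.l 204) (T.l 2)) (T.b (T.l 204) (T.l 2))))) (T.l 2))), by decide +kernel⟩

def B102E_022 :
    ∃ t, chk3 (onCell 0 67108864 0 1073741824 740881858 40050571 (corT true 1 c0B cB102E gB0q1 gB2q2 gB2q0 gB3q0 true false)) t 1 1 1 = true :=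
  ⟨(T.b (T.l 1) (T.b (T.b (T.l 1) (T.a (T.l 204) (T.a (T.b (T.l 204) (T.l 204)) (T.b (T.l 204) (T.l 204))))) (T.b (T.b (T.a (T.l 204) (T.a (T.l 204) (T.l 204))) (T.a (T.a (T.l 204) (T.a (T.l 204) (T.l 204))) (T.a (T.b (T.l 204) (T.l 204)) (T.b (T.l 204) (T.l 204))))) (T.b (T.a (T.a (T.l 204) (T.a (T.l 204) (T.b (T.l 204) (T.l 204)))) (T.a (T.a (T.l 204) (T.l 204)) (T.a (T.l 204) (T.l 204)))) (T.a (T.a (T.c (T.l 204) (T.l 204)) (T.a (T.l 236) (T.a (T.l 204) (T.b (T.l 204) (T.l 204))))) (T.a (T.a (T.c (T.l 204) (T.l 204)) (T.a (T.l 204) (T.l 204))) (T.a (T.b (T.l 204) (T.l 236)) (T.b (T.l 204) (T.l 204))))))))), by decide +kernel⟩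

def B102L_300 :
    ∃ t, chk3 (onCell 0 67108864 0 1073741824 740881858 40050571 (corT true 1 c0B cB102L gB3q1 gB0q2 gB0q0 gB1q0 true true)) t 1 1 1 = true :=
  ⟨(T.b (T.l 2) (T.b (T.l 2) (T.a (T.l 0) (T.a (T.l 0) (T.b (T.l 204) (T.l 0)))))), by decide +kernel⟩

def B102L_301 :
    ∃ t, chk3 (onCell 0 67108864 0 1073741824 740881858 40050571 (corT true 1 c0B cB102L gB3q1 gB0q2 gB1q0 gB2q0 true true)) t 1 1 1 = true :=
  ⟨(T.b (T.b (T.l 2) (T.b (T.l 2) (T.l 2))) (T.b (T.b (T.a (T.l 204) (T.l 204)) (T.l 204)) (T.b (T.l 204) (T.b (T.l 0) (T.l 1))))), by decide +kernel⟩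

def B102L_302 :
    ∃ t, chk3 (onCell 0 67108864 0 1073741824 740881858 40050571 (corT true 1 c0B cB102L gB3q1 gB0q2 gB2q0 gB3q0 true false)) t 1 1 1 = true :=
  ⟨(T.b (T.b (T.b (T.a (T.a (T.l 204) (T.l 204)) (T.a (T.l 204) (T.l 204))) (T.a (T.a (T.l 204) (T.l 204)) (T.a (T.l 204) (T.l 204)))) (T.a (T.l 204) (T.a (T.l 204) (T.b (T.l 204) (T.l 204))))) (T.b (T.a (T.l 204) (T.b (T.l 204) (T.l 1))) (T.l 1))), by decide +kernel⟩

def B102L_310 :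
    ∃ t, chk3 (onCell 0 67108864 0 1073741824 740881858 40050571 (corT true 1 c0B cB102L gB3q1 gB1q2 gB0q0 gB1q0 true true)) t 1 1 1 = true :=
  ⟨(T.b (T.l 2) (T.b (T.l 2) (T.a (T.l 0) (T.a (T.l 0) (T.b (T.l 204) (T.l 0)))))), by decide +kernel⟩

def B102L_311 :
    ∃ t, chk3 (onCell 0 67108864 0 1073741824 740881858 40050571 (corT true 1 c0B cB102L gB3q1 gB1q2 gB1q0 gB2q0 true true)) t 1 1 1 = true :=
  ⟨(T.b (T.b (T.l 2) (T.l 204)) (T.b (T.l 204) (T.b (T.l 204) (T.l 1)))), by decide +kernel⟩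

def B102L_312 :
    ∃ t, chk3 (onCell 0 67108864 0 1073741824 740881858 40050571 (corT true 1 c0B cB102L gB3q1 gB1q2 gB2q0 gB3q0 true false)) t 1 1 1 = true :=
  ⟨(T.b (T.b (T.a (T.l 204) (T.a (T.l 204) (T.l 204))) (T.l 204)) (T.b (T.l 204) (T.l 1))), by decide +kernel⟩

def B102L_320 :
    ∃ t, chk3 (onCell 0 67108864 0 1073741824 740881858 40050571 (corT true 1 c0B cB102L gB3q1 gB2q2 gB0q0 gB1q0 true true)) t 1 1 1 = true :=
  ⟨(T.b (T.l 2) (T.a (T.l 0) (T.b (T.l 204) (T.a (T.l 0) (T.b (T.l 204) (T.l 0)))))), by decide +kernel⟩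

def B102L_321 :
    ∃ t, chk3 (onCell 0 67108864 0 1073741824 740881858 40050571 (corT true 1 c0B cB102L gB3q1 gB2q2 gB1q0 gB2q0 true true)) t 1 1 1 = true :=
  ⟨(T.b (T.b (T.b (T.a (T.l 204) (T.b (T.l 2) (T.l 2))) (T.l 204)) (T.l 204)) (T.b (T.l 204) (T.b (T.l 204) (T.l 1)))), by decide +kernel⟩

def B102L_322 :
    ∃ t, chk3 (onCell 0 67108864 0 1073741824 740881858 40050571 (corT true 1 c0B cB102L gB3q1 gB2q2 gB2q0 gB3q0 true false)) t 1 1 1 = true :=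
  ⟨(T.b (T.b (T.a (T.l 204) (T.a (T.l 204) (T.l 204))) (T.l 204)) (T.l 1)), by decide +kernel⟩

def B102L_400 :
    ∃ t, chk3 (onCell 0 67108864 0 1073741824 740881858 40050571 (corT true 1 c0B cB102L gB4q1 gB0q2 gB0q0 gB1q0 true true)) t 1 1 1 = true :=
  ⟨(T.b (T.l 2) (T.b (T.l 2) (T.a (T.l 0) (T.l 2)))), by decide +kernel⟩

def B102L_401 :
    ∃ t, chk3 (onCell 0 67108864 0 1073741824 740881858 40050571 (corT true 1 c0B cB102L gB4q1 gB0q2 gB1q0 gB2q0 true true)) t 1 1 1 = true :=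
  ⟨(T.b (T.b (T.l 2) (T.l 2)) (T.a (T.l 0) (T.b (T.b (T.l 2) (T.l 204)) (T.l 0)))), by decide +kernel⟩

def B102L_402 :
    ∃ t, chk3 (onCell 0 67108864 0 1073741824 740881858 40050571 (corT true 1 c0B cB102L gB4q1 gB0q2 gB2q0 gB3q0 true false)) t 1 1 1 = true :=
  ⟨(T.b (T.b (T.b (T.a (T.a (T.l 204) (T.l 204)) (T.a (T.l 204) (T.l 204))) (T.a (T.a (T.l 204) (T.l 204)) (T.a (T.l 204) (T.l 204)))) (T.a (T.l 204) (T.a (T.l 204) (T.b (T.l 204) (T.l 204))))) (T.b (T.a (T.l 204) (T.b (T.l 204) (T.l 204))) (T.l 1))), by decide +kernel⟩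

def B102L_410 :
    ∃ t, chk3 (onCell 0 67108864 0 1073741824 740881858 40050571 (corT true 1 c0B cB102L gB4q1 gB1q2 gB0q0 gB1q0 true true)) t 1 1 1 = true :=
  ⟨(T.b (T.l 2) (T.b (T.l 2) (T.a (T.l 0) (T.l 2)))), by decide +kernel⟩

def B102L_411 :
    ∃ t, chk3 (onCell 0 67108864 0 1073741824 740881858 40050571 (corT true 1 c0B cB102L gB4q1 gB1q2 gB1q0 gB2q0 true true)) t 1 1 1 = true :=
  ⟨(T.a (T.l 0) (T.b (T.b (T.l 2) (T.l 2)) (T.b (T.l 204) (T.l 0)))), by decide +kernel⟩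

def B102L_412 :
    ∃ t, chk3 (onCell 0 67108864 0 1073741824 740881858 40050571 (corT true 1 c0B cB102L gB4q1 gB1q2 gB2q0 gB3q0 true false)) t 1 1 1 = true :=
  ⟨(T.a (T.b (T.l 204) (T.l 0)) (T.a (T.l 0) (T.a (T.l 0) (T.b (T.b (T.l 204) (T.l 204)) (T.l 0))))), by decide +kernel⟩

def B102L_420 :
    ∃ t, chk3 (onCell 0 67108864 0 1073741824 740881858 40050571 (corT true 1 c0B cB102L gB4q1 gB2q2 gB0q0 gB1q0 true true)) t 1 1 1 = true :=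
  ⟨(T.b (T.l 2) (T.b (T.l 2) (T.a (T.l 0) (T.l 2)))), by decide +kernel⟩

def B102L_421 :
    ∃ t, chk3 (onCell 0 67108864 0 1073741824 740881858 40050571 (corT true 1 c0B cB102L gB4q1 gB2q2 gB1q0 gB2q0 true true)) t 1 1 1 = true :=
  ⟨(T.a (T.l 0) (T.a (T.l 0) (T.b (T.b (T.l 204) (T.l 204)) (T.b (T.l 204) (T.l 0))))), by decide +kernel⟩

def B102L_422 :
    ∃ t, chk3 (onCell 0 67108864 0 1073741824 740881858 40050571 (corT true 1 c0B cB102L gB4q1 gB2q2 gB2q0 gB3q0 true false)) t 1 1 1 = true :=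
  ⟨(T.b (T.b (T.a (T.l 204) (T.a (T.l 204) (T.l 204))) (T.l 204)) (T.l 1)), by decide +kernel⟩

def B102L_500 :
    ∃ t, chk3 (onCell 0 67108864 0 1073741824 740881858 40050571 (corT true 1 c0B cB102L gB5q1 gB0q2 gB0q0 gB1q0 true true)) t 1 1 1 = true :=
  ⟨(T.b (T.l 2) (T.l 2)), by decide +kernel⟩

def B102L_501 :
    ∃ t, chk3 (onCell 0 67108864 0 1073741824 740881858 40050571 (corT true 1 c0B cB102L gB5q1 gB0q2 gB1q0 gB2q0 true true)) t 1 1 1 = true :=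
  ⟨(T.b (T.l 2) (T.b (T.b (T.l 2) (T.l 204)) (T.l 204))), by decide +kernel⟩

def B102L_502 :
    ∃ t, chk3 (onCell 0 67108864 0 1073741824 740881858 40050571 (corT true 1 c0B cB102L gB5q1 gB0q2 gB2q0 gB3q0 true false)) t 1 1 1 = true :=
  ⟨(T.b (T.b (T.b (T.a (T.a (T.l 204) (T.l 204)) (T.a (T.l 204) (T.l 204))) (T.a (T.a (T.l 204) (T.l 204)) (T.a (T.l 204) (T.l 204)))) (T.a (T.l 204) (T.a (T.l 204) (T.b (T.l 204) (T.l 204))))) (T.b (T.a (T.l 204) (T.b (T.l 204) (T.l 204))) (T.l 0))), by decide +kernel⟩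

def B102L_510 :
    ∃ t, chk3 (onCell 0 67108864 0 1073741824 740881858 40050571 (corT true 1 c0B cB102L gB5q1 gB1q2 gB0q0 gB1q0 true true)) t 1 1 1 = true :=
  ⟨(T.l 2), by decide +kernel⟩

def B102L_511 :
    ∃ t, chk3 (onCell 0 67108864 0 1073741824 740881858 40050571 (corT true 1 c0B cB102L gB5q1 gB1q2 gB1q0 gB2q0 true true)) t 1 1 1 = true :=
  ⟨(T.b (T.b (T.l 2) (T.l 2)) (T.l 0)), by decide +kernel⟩

def B102L_512 :
    ∃ t, chk3 (onCell 0 67108864 0 1073741824 740881858 40050571 (corT true 1 c0B cB102L gB5q1 gB1q2 gB2q0 gB3q0 true false)) t 1 1 1 = true :=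
  ⟨(T.b (T.b (T.a (T.l 204) (T.a (T.l 204) (T.l 204))) (T.l 204)) (T.l 0)), by decide +kernel⟩

def B102L_520 :
    ∃ t, chk3 (onCell 0 67108864 0 1073741824 740881858 40050571 (corT true 1 c0B cB102L gB5q1 gB2q2 gB0q0 gB1q0 true true)) t 1 1 1 = true :=
  ⟨(T.l 2), by decide +kernel⟩

def B102L_521 :
    ∃ t, chk3 (onCell 0 67108864 0 1073741824 740881858 40050571 (corT true 1 c0B cB102L gB5q1 gB2q2 gB1q0 gB2q0 true true)) t 1 1 1 = true :=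
  ⟨(T.b (T.b (T.a (T.l 204) (T.b (T.l 2) (T.l 2))) (T.l 204)) (T.l 204)), by decide +kernel⟩

def B102L_522 :
    ∃ t, chk3 (onCell 0 67108864 0 1073741824 740881858 40050571 (corT true 1 c0B cB102L gB5q1 gB2q2 gB2q0 gB3q0 true false)) t 1 1 1 = true :=
  ⟨(T.b (T.b (T.a (T.l 204) (T.a (T.l 204) (T.l 204))) (T.l 204)) (T.l 0)), by decide +kernel⟩

def B102R_050 :
    ∃ t, chk3 (onCell 0 67108864 0 1073741824 740881858 40050571 (corT true 1 c0B cB102R gB0q1 gB5q2 gB0q0 gB1q0 true true)) t 1 1 1 = true :=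
  ⟨(T.l 1), by decide +kernel⟩

def B102R_051 :
    ∃ t, chk3 (onCell 0 67108864 0 1073741824 740881858 40050571 (corT true 1 c0B cB102R gB0q1 gB5q2 gB1q0 gB2q0 true true)) t 1 1 1 = true :=
  ⟨(T.l 1), by decide +kernel⟩

def B102R_052 :
    ∃ t, chk3 (onCell 0 67108864 0 1073741824 740881858 40050571 (corT true 1 c0B cB102R gB0q1 gB5q2 gB2q0 gB3q0 true false)) t 1 1 1 = true :=
  ⟨(T.l 1), by decide +kernel⟩

def B202E_000 :
    ∃ t, chk3 (onCell 0 67108864 0 1073741824 740881858 40050571 (corT true 1 c0B cB202E gB0q2 gB0q2 gB0q0 gB1q0 true true)) t 1 1 1 = true :=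
  ⟨(T.l 1), by decide +kernel⟩

def B202E_001 :
    ∃ t, chk3 (onCell 0 67108864 0 1073741824 740881858 40050571 (corT true 1 c0B cB202E gB0q2 gB0q2 gB1q0 gB2q0 true true)) t 1 1 1 = true :=
  ⟨(T.l 1), by decide +kernel⟩

def B202E_002 :
    ∃ t, chk3 (onCell 0 67108864 0 1073741824 740881858 40050571 (corT true 1 c0B cB202E gB0q2 gB0q2 gB2q0 gB3q0 true false)) t 1 1 1 = true :=
  ⟨(T.l 1), by decide +kernel⟩

def B202E_010 :
    ∃ t, chk3 (onCell 0 67108864 0 1073741824 740881858 40050571 (corT true 1 c0B cB202E gB0q2 gB1q2 gB0q0 gB1q0 true true)) t 1 1 1 = true :=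
  ⟨(T.l 1), by decide +kernel⟩

def B202E_011 :
    ∃ t, chk3 (onCell 0 67108864 0 1073741824 740881858 40050571 (corT true 1 c0B cB202E gB0q2 gB1q2 gB1q0 gB2q0 true true)) t 1 1 1 = true :=
  ⟨(T.l 1), by decide +kernel⟩

def B202E_012 :
    ∃ t, chk3 (onCell 0 67108864 0 1073741824 740881858 40050571 (corT true 1 c0B cB202E gB0q2 gB1q2 gB2q0 gB3q0 true false)) t 1 1 1 = true :=
  ⟨(T.l 1), by decide +kernel⟩

def B202E_020 :
    ∃ t, chk3 (onCell 0 67108864 0 1073741824 740881858 40050571 (corT true 1 c0B cB202E gB0q2 gB2q2 gB0q0 gB1q0 true true)) t 1 1 1 = true :=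
  ⟨(T.l 1), by decide +kernel⟩

def B202E_021 :
    ∃ t, chk3 (onCell 0 67108864 0 1073741824 740881858 40050571 (corT true 1 c0B cB202E gB0q2 gB2q2 gB1q0 gB2q0 true true)) t 1 1 1 = true :=
  ⟨(T.l 1), by decide +kernel⟩

def B202E_022 :
    ∃ t, chk3 (onCell 0 67108864 0 1073741824 740881858 40050571 (corT true 1 c0B cB202E gB0q2 gB2q2 gB2q0 gB3q0 true false)) t 1 1 1 = true :=
  ⟨(T.l 1), by decide +kernel⟩

def B202E_100 :
    ∃ t, chk3 (onCell 0 67108864 0 1073741824 740881858 40050571 (corT true 1 c0B cB202E gB1q2 gB0q2 gB0q0 gB1q0 true true)) t 1 1 1 = true :=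
  ⟨(T.l 1), by decide +kernel⟩

def B202E_101 :
    ∃ t, chk3 (onCell 0 67108864 0 1073741824 740881858 40050571 (corT true 1 c0B cB202E gB1q2 gB0q2 gB1q0 gB2q0 true true)) t 1 1 1 = true :=
  ⟨(T.l 1), by decide +kernel⟩

def B202E_102 :
    ∃ t, chk3 (onCell 0 67108864 0 1073741824 740881858 40050571 (corT true 1 c0B cB202E gB1q2 gB0q2 gB2q0 gB3q0 true false)) t 1 1 1 = true :=
  ⟨(T.l 1), by decide +kernel⟩

def B202E_110 :
    ∃ t, chk3 (onCell 0 67108864 0 1073741824 740881858 40050571 (corT true 1 c0B cB202E gB1q2 gB1q2 gB0q0 gB1q0 true true)) t 1 1 1 = true :=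
  ⟨(T.l 1), by decide +kernel⟩

def B202E_111 :
    ∃ t, chk3 (onCell 0 67108864 0 1073741824 740881858 40050571 (corT true 1 c0B cB202E gB1q2 gB1q2 gB1q0 gB2q0 true true)) t 1 1 1 = true :=
  ⟨(T.l 1), by decide +kernel⟩

def B202E_112 :
    ∃ t, chk3 (onCell 0 67108864 0 1073741824 740881858 40050571 (corT true 1 c0B cB202E gB1q2 gB1q2 gB2q0 gB3q0 true false)) t 1 1 1 = true :=
  ⟨(T.l 1), by decide +kernel⟩

def B202E_120 :
    ∃ t, chk3 (onCell 0 67108864 0 1073741824 740881858 40050571 (corT true 1 c0B cB202E gB1q2 gB2q2 gB0q0 gB1q0 true true)) t 1 1 1 = true :=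
  ⟨(T.l 1), by decide +kernel⟩

def B202E_121 :
    ∃ t, chk3 (onCell 0 67108864 0 1073741824 740881858 40050571 (corT true 1 c0B cB202E gB1q2 gB2q2 gB1q0 gB2q0 true true)) t 1 1 1 = true :=
  ⟨(T.l 1), by decide +kernel⟩

def B202E_122 :
    ∃ t, chk3 (onCell 0 67108864 0 1073741824 740881858 40050571 (corT true 1 c0B cB202E gB1q2 gB2q2 gB2q0 gB3q0 true false)) t 1 1 1 = true :=
  ⟨(T.l 1), by decide +kernel⟩

def B202E_200 :
    ∃ t, chk3 (onCell 0 67108864 0 1073741824 740881858 40050571 (corT true 1 c0B cB202E gB2q2 gB0q2 gB0q0 gB1q0 true true)) t 1 1 1 = true :=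
  ⟨(T.l 1), by decide +kernel⟩

def B202E_201 :
    ∃ t, chk3 (onCell 0 67108864 0 1073741824 740881858 40050571 (corT true 1 c0B cB202E gB2q2 gB0q2 gB1q0 gB2q0 true true)) t 1 1 1 = true :=
  ⟨(T.l 1), by decide +kernel⟩

def B202E_202 :
    ∃ t, chk3 (onCell 0 67108864 0 1073741824 740881858 40050571 (corT true 1 c0B cB202E gB2q2 gB0q2 gB2q0 gB3q0 true false)) t 1 1 1 = true :=
  ⟨(T.l 1), by decide +kernel⟩

def B202E_210 :
    ∃ t, chk3 (onCell 0 67108864 0 1073741824 740881858 40050571 (corT true 1 c0B cB202E gB2q2 gB1q2 gB0q0 gB1q0 true true)) t 1 1 1 = true :=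
  ⟨(T.l 1), by decide +kernel⟩

def B202E_211 :
    ∃ t, chk3 (onCell 0 67108864 0 1073741824 740881858 40050571 (corT true 1 c0B cB202E gB2q2 gB1q2 gB1q0 gB2q0 true true)) t 1 1 1 = true :=
  ⟨(T.l 1), by decide +kernel⟩

def B202E_212 :
    ∃ t, chk3 (onCell 0 67108864 0 1073741824 740881858 40050571 (corT true 1 c0B cB202E gB2q2 gB1q2 gB2q0 gB3q0 true false)) t 1 1 1 = true :=
  ⟨(T.l 1), by decide +kernel⟩

def B202E_220 :
    ∃ t, chk3 (onCell 0 67108864 0 1073741824 740881858 40050571 (corT true 1 c0B cB202E gB2q2 gB2q2 gB0q0 gB1q0 true true)) t 1 1 1 = true :=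
  ⟨(T.l 1), by decide +kernel⟩

def B202E_221 :
    ∃ t, chk3 (onCell 0 67108864 0 1073741824 740881858 40050571 (corT true 1 c0B cB202E gB2q2 gB2q2 gB1q0 gB2q0 true true)) t 1 1 1 = true :=
  ⟨(T.l 1), by decide +kernel⟩

def B202E_222 :
    ∃ t, chk3 (onCell 0 67108864 0 1073741824 740881858 40050571 (corT true 1 c0B cB202E gB2q2 gB2q2 gB2q0 gB3q0 true false)) t 1 1 1 = true :=
  ⟨(T.l 1), by decide +kernel⟩

def B202L_500 :
    ∃ t, chk3 (onCell 0 67108864 0 1073741824 740881858 40050571 (corT true 1 c0B cB202L gB5q2 gB0q2 gB0q0 gB1q0 true true)) t 1 1 1 = true :=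
  ⟨(T.l 2), by decide +kernel⟩

def B202L_501 :
    ∃ t, chk3 (onCell 0 67108864 0 1073741824 740881858 40050571 (corT true 1 c0B cB202L gB5q2 gB0q2 gB1q0 gB2q0 true true)) t 1 1 1 = true :=
  ⟨(T.l 2), by decide +kernel⟩

def B202L_502 :
    ∃ t, chk3 (onCell 0 67108864 0 1073741824 740881858 40050571 (corT true 1 c0B cB202L gB5q2 gB0q2 gB2q0 gB3q0 true false)) t 1 1 1 = true :=
  ⟨(T.a (T.a (T.l 204) (T.l 204)) (T.a (T.l 204) (T.l 204))), by decide +kernel⟩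

def B202L_510 :
    ∃ t, chk3 (onCell 0 67108864 0 1073741824 740881858 40050571 (corT true 1 c0B cB202L gB5q2 gB1q2 gB0q0 gB1q0 true true)) t 1 1 1 = true :=
  ⟨(T.l 2), by decide +kernel⟩

def B202L_511 :
    ∃ t, chk3 (onCell 0 67108864 0 1073741824 740881858 40050571 (corT true 1 c0B cB202L gB5q2 gB1q2 gB1q0 gB2q0 true true)) t 1 1 1 = true :=
  ⟨(T.l 2), by decide +kernel⟩

def B202L_512 :
    ∃ t, chk3 (onCell 0 67108864 0 1073741824 740881858 40050571 (corT true 1 c0B cB202L gB5q2 gB1q2 gB2q0 gB3q0 true false)) t 1 1 1 = true :=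
  ⟨(T.a (T.l 0) (T.b (T.l 204) (T.l 0))), by decide +kernel⟩

def B202L_520 :
    ∃ t, chk3 (onCell 0 67108864 0 1073741824 740881858 40050571 (corT true 1 c0B cB202L gB5q2 gB2q2 gB0q0 gB1q0 true true)) t 1 1 1 = true :=
  ⟨(T.l 2), by decide +kernel⟩

def B202L_521 :
    ∃ t, chk3 (onCell 0 67108864 0 1073741824 740881858 40050571 (corT true 1 c0B cB202L gB5q2 gB2q2 gB1q0 gB2q0 true true)) t 1 1 1 = true :=
  ⟨(T.a (T.l 0) (T.l 2)), by decide +kernel⟩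

def B202L_522 :
    ∃ t, chk3 (onCell 0 67108864 0 1073741824 740881858 40050571 (corT true 1 c0B cB202L gB5q2 gB2q2 gB2q0 gB3q0 true false)) t 1 1 1 = true :=
  ⟨(T.a (T.l 0) (T.b (T.l 204) (T.l 0))), by decide +kernel⟩

def B202R_050 :
    ∃ t, chk3 (onCell 0 67108864 0 1073741824 740881858 40050571 (corX 1 c0B cB202R tB202R gB0q2 gB5q2 gB0q0 gB1q0 gB0q0 true true)) t 1 1 1 = true :=
  ⟨(T.b (T.b (T.l 1) (T.b (T.b (T.l 1) (T.b (T.l 207) (T.a (T.l 207) (T.l 207)))) (T.a (T.l 3) (T.a (T.l 0) (T.b (T.b (T.l 204) (T.l 204)) (T.l 2)))))) (T.b (T.l 2) (T.l 2))), by decide +kernel⟩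

def B202R_051 :
    ∃ t, chk3 (onCell 0 67108864 0 1073741824 740881858 40050571 (corT true 1 c0B cB202R gB0q2 gB5q2 gB1q0 gB2q0 true true)) t 1 1 1 = true :=
  ⟨(T.b (T.b (T.l 1) (T.b (T.l 1) (T.a (T.b (T.l 0) (T.l 204)) (T.a (T.l 0) (T.b (T.b (T.l 1) (T.l 204)) (T.l 204)))))) (T.b (T.a (T.l 0) (T.b (T.b (T.a (T.l 204) (T.l 204)) (T.l 2)) (T.l 2))) (T.l 2))), by decide +kernel⟩

def B202R_052 :
    ∃ t, chk3 (onCell 0 67108864 0 1073741824 740881858 40050571 (corT true 1 c0B cB202R gB0q2 gB5q2 gB2q0 gB3q0 true false)) t 1 1 1 = true :=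
  ⟨(T.b (T.l 1) (T.b (T.a (T.l 0) (T.a (T.b (T.l 204) (T.l 204)) (T.b (T.b (T.l 204) (T.l 204)) (T.l 0)))) (T.b (T.b (T.a (T.a (T.l 204) (T.l 204)) (T.a (T.l 204) (T.l 204))) (T.a (T.a (T.l 204) (T.l 204)) (T.a (T.l 204) (T.l 204)))) (T.a (T.a (T.l 204) (T.l 204)) (T.a (T.l 0) (T.l 204)))))), by decide +kernel⟩

def B202R_150 :
    ∃ t, chk3 (onCell 0 67108864 0 1073741824 740881858 40050571 (corT true 1 c0B cB202R gB1q2 gB5q2 gB0q0 gB1q0 true true)) t 1 1 1 = true :=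
  ⟨(T.b (T.b (T.l 1) (T.b (T.l 1) (T.b (T.b (T.a (T.l 1) (T.a (T.l 1) (T.b (T.l 1) (T.l 0)))) (T.a (T.l 0) (T.l 0))) (T.l 0)))) (T.b (T.b (T.l 0) (T.l 2)) (T.l 2))), by decide +kernel⟩

def B202R_151 :
    ∃ t, chk3 (onCell 0 67108864 0 1073741824 740881858 40050571 (corT true 1 c0B cB202R gB1q2 gB5q2 gB1q0 gB2q0 true true)) t 1 1 1 = true :=
  ⟨(T.b (T.b (T.l 1) (T.l 1)) (T.b (T.l 0) (T.l 2))), by decide +kernel⟩

def B202R_152 :
    ∃ t, chk3 (onCell 0 67108864 0 1073741824 740881858 40050571 (corT true 1 c0B cB202R gB1q2 gB5q2 gB2q0 gB3q0 true false)) t 1 1 1 = true :=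
  ⟨(T.b (T.l 1) (T.b (T.b (T.a (T.l 0) (T.l 0)) (T.l 0)) (T.b (T.l 204) (T.a (T.l 204) (T.b (T.l 204) (T.l 16)))))), by decide +kernel⟩

def B202R_250 :
    ∃ t, chk3 (onCell 0 67108864 0 1073741824 740881858 40050571 (corT true 1 c0B cB202R gB2q2 gB5q2 gB0q0 gB1q0 true true)) t 1 1 1 = true :=
  ⟨(T.b (T.l 1) (T.b (T.b (T.l 1) (T.l 816)) (T.b (T.l 816) (T.l 2)))), by decide +kernel⟩

def B202R_251 :
    ∃ t, chk3 (onCell 0 67108864 0 1073741824 740881858 40050571 (corT true 1 c0B cB202R gB2q2 gB5q2 gB1q0 gB2q0 true true)) t 1 1 1 = true :=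
  ⟨(T.b (T.l 1) (T.b (T.b (T.l 1) (T.l 816)) (T.b (T.l 816) (T.l 2)))), by decide +kernel⟩

def B202R_252 :
    ∃ t, chk3 (onCell 0 67108864 0 1073741824 740881858 40050571 (corT true 1 c0B cB202R gB2q2 gB5q2 gB2q0 gB3q0 true false)) t 1 1 1 = true :=
  ⟨(T.b (T.l 1) (T.b (T.l 1) (T.b (T.l 0) (T.a (T.l 0) (T.b (T.l 0) (T.l 0)))))), by decide +kernel⟩

end Pool.Agent.Strip051.G.I69_7273.Tab.CG
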