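import Pool.Agent.Strip051.G.I69_7273.Gn
import Pool.Agent.Strip051.PB.Corns
import Pool.Agent.Strip051.PB.CornW

/-! # Certificates of the aligned corners (generated) -/

set_option linter.all false

namespace Pool.Agent.Strip051.G.I69_7273.Tab.CW

open Pool.Agent.Strip051.PB

def B012R_022 :
    ∃ t, chk3 (onCell 0 67108864 0 1073741824 740881858 40050571 (corW 3 c0B eng mog cB012R gB0q0 gB2q2 gB2q1 gB3q1 dB0q0 dB2q2 dB2q1 dB3q1 false true)) t 1 1 1 = true :=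
  ⟨(T.a (T.b (T.b (T.b (T.b (T.l 204) (T.l 204)) (T.l 0)) (T.l 0)) (T.b (T.l 816) (T.l 816))) (T.a (T.b (T.b (T.b (T.l 204) (T.l 0)) (T.l 0)) (T.l 816)) (T.a (T.b (T.b (T.b (T.l 204) (T.l 0)) (T.l 0)) (T.l 816)) (T.b (T.b (T.b (T.b (T.b (T.l 204) (T.l 204)) (T.l 204)) (T.l 0)) (T.l 0)) (T.b (T.l 816) (T.b (T.l 816) (T.l 816))))))), by decide +kernel⟩

def B012R_023 :
    ∃ t, chk3 (onCell 0 67108864 0 1073741824 740881858 40050571 (corW 3 c0B eng mog cB012R gB0q0 gB2q2 gB3q1 gB4q1 dB0q0 dB2q2 dB3q1 dB4q1 true true)) t 1 1 1 = true :=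
  ⟨(T.b (T.l 1) (T.l 1)), by decide +kernel⟩

def B012R_024 :
    ∃ t, chk3 (onCell 0 67108864 0 1073741824 740881858 40050571 (corW 3 c0B eng mog cB012R gB0q0 gB2q2 gB4q1 gB5q1 dB0q0 dB2q2 dB4q1 dB5q1 true true)) t 1 1 1 = true :=
  ⟨(T.l 1), by decide +kernel⟩

def B012R_102 :
    ∃ t, chk3 (onCell 0 67108864 0 1073741824 740881858 40050571 (corW 3 c0B eng mog cB012R gB1q0 gB0q2 gB2q1 gB3q1 dB1q0 dB0q2 dB2q1 dB3q1 false true)) t 1 1 1 = true :=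
  ⟨(T.b (T.a (T.l 0) (T.a (T.l 0) (T.b (T.l 0) (T.b (T.l 816) (T.l 816))))) (T.b (T.a (T.l 816) (T.a (T.b (T.l 816) (T.l 816)) (T.b (T.l 816) (T.l 816)))) (T.b (T.a (T.a (T.l 816) (T.b (T.l 816) (T.l 816))) (T.a (T.b (T.l 816) (T.l 816)) (T.b (T.l 816) (T.l 816)))) (T.a (T.a (T.l 816) (T.b (T.l 816) (T.l 816))) (T.a (T.b (T.l 816) (T.l 816)) (T.b (T.l 816) (T.l 816))))))), by decide +kernel⟩

def B012R_103 :
    ∃ t, chk3 (onCell 0 67108864 0 1073741824 740881858 40050571 (corW 3 c0B eng mog cB012R gB1q0 gB0q2 gB3q1 gB4q1 dB1q0 dB0q2 dB3q1 dB4q1 true true)) t 1 1 1 = true :=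
  ⟨(T.b (T.b (T.b (T.b (T.b (T.a (T.l 0) (T.a (T.l 0) (T.l 0))) (T.l 816)) (T.l 816)) (T.l 816)) (T.l 1)) (T.l 1)), by decide +kernel⟩

def B012R_104 :
    ∃ t, chk3 (onCell 0 67108864 0 1073741824 740881858 40050571 (corW 3 c0B eng mog cB012R gB1q0 gB0q2 gB4q1 gB5q1 dB1q0 dB0q2 dB4q1 dB5q1 true true)) t 1 1 1 = true :=
  ⟨(T.b (T.b (T.a (T.l 0) (T.l 1)) (T.l 1)) (T.l 1)), by decide +kernel⟩

def B012R_112 :
    ∃ t, chk3 (onCell 0 67108864 0 1073741824 740881858 40050571 (corW 3 c0B eng mog cB012R gB1q0 gB1q2 gB2q1 gB3q1 dB1q0 dB1q2 dB2q1 dB3q1 false true)) t 1 1 1 = true :=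
  ⟨(T.a (T.b (T.l 0) (T.l 816)) (T.a (T.b (T.l 0) (T.l 816)) (T.a (T.l 0) (T.b (T.b (T.l 0) (T.l 816)) (T.b (T.l 816) (T.l 816)))))), by decide +kernel⟩

def B012R_113 :
    ∃ t, chk3 (onCell 0 67108864 0 1073741824 740881858 40050571 (corW 3 c0B eng mog cB012R gB1q0 gB1q2 gB3q1 gB4q1 dB1q0 dB1q2 dB3q1 dB4q1 true true)) t 1 1 1 = true :=
  ⟨(T.b (T.b (T.b (T.b (T.b (T.a (T.l 0) (T.a (T.l 0) (T.l 0))) (T.l 816)) (T.l 816)) (T.l 816)) (T.l 1)) (T.l 1)), by decide +kernel⟩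

def B012R_114 :
    ∃ t, chk3 (onCell 0 67108864 0 1073741824 740881858 40050571 (corW 3 c0B eng mog cB012R gB1q0 gB1q2 gB4q1 gB5q1 dB1q0 dB1q2 dB4q1 dB5q1 true true)) t 1 1 1 = true :=
  ⟨(T.b (T.b (T.a (T.l 0) (T.l 1)) (T.l 1)) (T.l 1)), by decide +kernel⟩

def B012R_122 :
    ∃ t, chk3 (onCell 0 67108864 0 1073741824 740881858 40050571 (corW 3 c0B eng mog cB012R gB1q0 gB2q2 gB2q1 gB3q1 dB1q0 dB2q2 dB2q1 dB3q1 false true)) t 1 1 1 = true :=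
  ⟨(T.a (T.l 0) (T.a (T.l 0) (T.a (T.l 0) (T.b (T.b (T.l 0) (T.l 816)) (T.b (T.l 816) (T.l 816)))))), by decide +kernel⟩

def B012R_123 :
    ∃ t, chk3 (onCell 0 67108864 0 1073741824 740881858 40050571 (corW 3 c0B eng mog cB012R gB1q0 gB2q2 gB3q1 gB4q1 dB1q0 dB2q2 dB3q1 dB4q1 true true)) t 1 1 1 = true :=
  ⟨(T.b (T.b (T.b (T.b (T.b (T.a (T.l 0) (T.a (T.l 0) (T.l 0))) (T.l 816)) (T.l 816)) (T.l 816)) (T.l 816)) (T.l 1)), by decide +kernel⟩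

def B012R_124 :
    ∃ t, chk3 (onCell 0 67108864 0 1073741824 740881858 40050571 (corW 3 c0B eng mog cB012R gB1q0 gB2q2 gB4q1 gB5q1 dB1q0 dB2q2 dB4q1 dB5q1 true true)) t 1 1 1 = true :=
  ⟨(T.b (T.b (T.a (T.l 0) (T.l 1)) (T.l 1)) (T.l 1)), by decide +kernel⟩

def B012R_202 :
    ∃ t, chk3 (onCell 0 67108864 0 1073741824 740881858 40050571 (corW 3 c0B eng mog cB012R gB2q0 gB0q2 gB2q1 gB3q1 dB2q0 dB0q2 dB2q1 dB3q1 false true)) t 1 1 1 = true :=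
  ⟨(T.b (T.b (T.l 2) (T.a (T.l 816) (T.b (T.l 2) (T.l 816)))) (T.b (T.a (T.l 816) (T.a (T.l 816) (T.b (T.l 816) (T.l 816)))) (T.b (T.a (T.a (T.l 816) (T.l 816)) (T.a (T.l 816) (T.l 816))) (T.a (T.a (T.l 816) (T.l 816)) (T.a (T.l 816) (T.l 816)))))), by decide +kernel⟩

def B012R_203 :
    ∃ t, chk3 (onCell 0 67108864 0 1073741824 740881858 40050571 (corW 3 c0B eng mog cB012R gB2q0 gB0q2 gB3q1 gB4q1 dB2q0 dB0q2 dB3q1 dB4q1 true true)) t 1 1 1 = true :=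
  ⟨(T.b (T.b (T.l 2) (T.b (T.l 816) (T.a (T.l 816) (T.l 816)))) (T.b (T.b (T.l 1) (T.l 1)) (T.l 1))), by decide +kernel⟩

def B012R_204 :
    ∃ t, chk3 (onCell 0 67108864 0 1073741824 740881858 40050571 (corW 3 c0B eng mog cB012R gB2q0 gB0q2 gB4q1 gB5q1 dB2q0 dB0q2 dB4q1 dB5q1 true true)) t 1 1 1 = true :=
  ⟨(T.b (T.b (T.b (T.l 2) (T.l 816)) (T.b (T.l 816) (T.a (T.l 816) (T.l 1)))) (T.b (T.l 1) (T.l 1))), by decide +kernel⟩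

def B012R_212 :
    ∃ t, chk3 (onCell 0 67108864 0 1073741824 740881858 40050571 (corW 3 c0B eng mog cB012R gB2q0 gB1q2 gB2q1 gB3q1 dB2q0 dB1q2 dB2q1 dB3q1 false true)) t 1 1 1 = true :=
  ⟨(T.a (T.l 816) (T.a (T.l 816) (T.a (T.l 816) (T.b (T.l 0) (T.b (T.l 816) (T.l 816)))))), by decide +kernel⟩

def B012R_213 :
    ∃ t, chk3 (onCell 0 67108864 0 1073741824 740881858 40050571 (corW 3 c0B eng mog cB012R gB2q0 gB1q2 gB3q1 gB4q1 dB2q0 dB1q2 dB3q1 dB4q1 true true)) t 1 1 1 = true :=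
  ⟨(T.b (T.b (T.l 2) (T.l 816)) (T.b (T.l 816) (T.l 1))), by decide +kernel⟩

def B012R_214 :
    ∃ t, chk3 (onCell 0 67108864 0 1073741824 740881858 40050571 (corW 3 c0B eng mog cB012R gB2q0 gB1q2 gB4q1 gB5q1 dB2q0 dB1q2 dB4q1 dB5q1 true true)) t 1 1 1 = true :=
  ⟨(T.b (T.b (T.b (T.l 2) (T.l 816)) (T.l 816)) (T.b (T.l 816) (T.l 1))), by decide +kernel⟩

def B012R_222 :
    ∃ t, chk3 (onCell 0 67108864 0 1073741824 740881858 40050571 (corW 3 c0B eng mog cB012R gB2q0 gB2q2 gB2q1 gB3q1 dB2q0 dB2q2 dB2q1 dB3q1 false true)) t 1 1 1 = true :=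
  ⟨(T.b (T.l 2) (T.b (T.l 816) (T.a (T.l 816) (T.a (T.l 816) (T.l 816))))), by decide +kernel⟩

def B012R_223 :
    ∃ t, chk3 (onCell 0 67108864 0 1073741824 740881858 40050571 (corW 3 c0B eng mog cB012R gB2q0 gB2q2 gB3q1 gB4q1 dB2q0 dB2q2 dB3q1 dB4q1 true true)) t 1 1 1 = true :=
  ⟨(T.b (T.l 2) (T.b (T.l 816) (T.b (T.l 816) (T.a (T.l 816) (T.b (T.l 1) (T.l 1)))))), by decide +kernel⟩

def B012R_224 :
    ∃ t, chk3 (onCell 0 67108864 0 1073741824 740881858 40050571 (corW 3 c0B eng mog cB012R gB2q0 gB2q2 gB4q1 gB5q1 dB2q0 dB2q2 dB4q1 dB5q1 true true)) t 1 1 1 = true :=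
  ⟨(T.a (T.l 816) (T.b (T.l 2) (T.b (T.l 816) (T.b (T.l 816) (T.l 1))))), by decide +kernel⟩

def B022E_000 :
    ∃ t, chk3 (onCell 0 67108864 0 1073741824 740881858 40050571 (corW 3 c0B eng mog cB022E gB0q0 gB0q2 gB0q2 gB1q2 dB0q0 dB0q2 dB0q2 dB1q2 true true)) t 1 1 1 = true :=
  ⟨(T.l 2), by decide +kernel⟩

def B022E_001 :
    ∃ t, chk3 (onCell 0 67108864 0 1073741824 740881858 40050571 (corW 3 c0B eng mog cB022E gB0q0 gB0q2 gB1q2 gB2q2 dB0q0 dB0q2 dB1q2 dB2q2 true true)) t 1 1 1 = true :=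
  ⟨(T.l 2), by decide +kernel⟩

def B022E_002 :
    ∃ t, chk3 (onCell 0 67108864 0 1073741824 740881858 40050571 (corW 3 c0B eng mog cB022E gB0q0 gB0q2 gB2q2 gB3q2 dB0q0 dB0q2 dB2q2 dB3q2 true false)) t 1 1 1 = true :=
  ⟨(T.a (T.a (T.b (T.b (T.b (T.a (T.b (T.l 204) (T.l 204)) (T.l 204)) (T.l 204)) (T.l 204)) (T.b (T.l 0) (T.b (T.l 816) (T.b (T.l 816) (T.b (T.l 816) (T.c (T.a (T.l 816) (T.l 816)) (T.a (T.l 816) (T.l 816)))))))) (T.b (T.a (T.b (T.l 220) (T.l 204)) (T.b (T.b (T.l 204) (T.l 204)) (T.l 204))) (T.a (T.b (T.l 0) (T.b (T.l 816) (T.b (T.l 816) (T.c (T.l 816) (T.l 816))))) (T.b (T.l 0) (T.b (T.l 816) (T.b (T.l 816) (T.a (T.c (T.l 816) (T.l 816)) (T.b (T.l 816) (T.l 816))))))))) (T.a (T.b (T.a (T.b (T.b (T.l 204) (T.l 204)) (T.l 0)) (T.b (T.l 204) (T.l 0))) (T.b (T.b (T.l 0) (T.l 0)) (T.a (T.b (T.l 816) (T.b (T.l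 816) (T.a (T.b (T.l 816) (T.l 816)) (T.c (T.l 816) (T.l 816))))) (T.b (T.l 816) (T.b (T.l 816) (T.b (T.l 816) (T.a (T.c (T.l 816) (T.l 816)) (T.c (T.l 816) (T.l 816))))))))) (T.b (T.b (T.a (T.l 204) (T.b (T.b (T.l 204) (T.l 204)) (T.l 204))) (T.l 0)) (T.b (T.l 4) (T.a (T.b (T.l 816) (T.b (T.l 816) (T.a (T.c (T.l 816) (T.l 816)) (T.b (T.l 816) (T.l 816))))) (T.b (T.l 816) (T.b (T.l 816) (T.a (T.l 816) (T.l 816))))))))), by decide +kernel⟩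

def B022E_010 :
    ∃ t, chk3 (onCell 0 67108864 0 1073741824 740881858 40050571 (corW 3 c0B eng mog cB022E gB0q0 gB1q2 gB0q2 gB1q2 dB0q0 dB1q2 dB0q2 dB1q2 true true)) t 1 1 1 = true :=
  ⟨(T.l 2), by decide +kernel⟩

def B022E_011 :
    ∃ t, chk3 (onCell 0 67108864 0 1073741824 740881858 40050571 (corW 3 c0B eng mog cB022E gB0q0 gB1q2 gB1q2 gB2q2 dB0q0 dB1q2 dB1q2 dB2q2 true true)) t 1 1 1 = true :=
  ⟨(T.l 2), by decide +kernel⟩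

def B022E_012 :
    ∃ t, chk3 (onCell 0 67108864 0 1073741824 740881858 40050571 (corW 3 c0B eng mog cB022E gB0q0 gB1q2 gB2q2 gB3q2 dB0q0 dB1q2 dB2q2 dB3q2 true false)) t 1 1 1 = true :=
  ⟨(T.a (T.b (T.b (T.b (T.a (T.b (T.c (T.b (T.l 204) (T.l 204)) (T.l 204)) (T.l 204)) (T.c (T.l 204) (T.l 204))) (T.a (T.l 204) (T.l 204))) (T.b (T.l 204) (T.l 204))) (T.b (T.l 0) (T.b (T.l 816) (T.a (T.b (T.l 816) (T.l 816)) (T.l 816))))) (T.a (T.b (T.b (T.b (T.b (T.l 204) (T.l 204)) (T.l 204)) (T.l 204)) (T.b (T.l 0) (T.b (T.l 816) (T.l 816)))) (T.b (T.b (T.a (T.b (T.l 204) (T.l 204)) (T.b (T.a (T.l 204) (T.b (T.l 204) (T.l 204))) (T.l 204))) (T.b (T.l 204) (T.l 204))) (T.b (T.l 0) (T.b (T.l 0) (T.a (T.l 816) (T.l 816))))))), by decide +kernel⟩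

def B022E_020 :
    ∃ t, chk3 (onCell 0 67108864 0 1073741824 740881858 40050571 (corW 3 c0B eng mog cB022E gB0q0 gB2q2 gB0q2 gB1q2 dB0q0 dB2q2 dB0q2 dB1q2 true true)) t 1 1 1 = true :=
  ⟨(T.l 2), by decide +kernel⟩

def B022E_021 :
    ∃ t, chk3 (onCell 0 67108864 0 1073741824 740881858 40050571 (corW 3 c0B eng mog cB022E gB0q0 gB2q2 gB1q2 gB2q2 dB0q0 dB2q2 dB1q2 dB2q2 true true)) t 1 1 1 = true :=
  ⟨(T.l 2), by decide +kernel⟩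

def B022E_022 :
    ∃ t, chk3 (onCell 0 67108864 0 1073741824 740881858 40050571 (corW 3 c0B eng mog cB022E gB0q0 gB2q2 gB2q2 gB3q2 dB0q0 dB2q2 dB2q2 dB3q2 true false)) t 1 1 1 = true :=
  ⟨(T.a (T.b (T.b (T.b (T.a (T.c (T.l 204) (T.l 204)) (T.b (T.l 204) (T.l 204))) (T.b (T.l 204) (T.l 204))) (T.l 204)) (T.b (T.l 0) (T.b (T.l 816) (T.b (T.l 816) (T.a (T.b (T.l 816) (T.l 816)) (T.l 816)))))) (T.a (T.b (T.b (T.b (T.l 204) (T.l 204)) (T.l 204)) (T.b (T.l 0) (T.b (T.l 816) (T.l 816)))) (T.b (T.b (T.a (T.l 204) (T.b (T.a (T.l 204) (T.b (T.l 204) (T.l 204))) (T.l 204))) (T.l 0)) (T.b (T.l 0) (T.b (T.l 816) (T.a (T.l 816) (T.b (T.l 816) (T.l 816)))))))), by decide +kernel⟩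

def B022E_100 :
    ∃ t, chk3 (onCell 0 67108864 0 1073741824 740881858 40050571 (corW 3 c0B eng mog cB022E gB1q0 gB0q2 gB0q2 gB1q2 dB1q0 dB0q2 dB0q2 dB1q2 true true)) t 1 1 1 = true :=
  ⟨(T.l 2), by decide +kernel⟩

def B022E_101 :
    ∃ t, chk3 (onCell 0 67108864 0 1073741824 740881858 40050571 (corW 3 c0B eng mog cB022E gB1q0 gB0q2 gB1q2 gB2q2 dB1q0 dB0q2 dB1q2 dB2q2 true true)) t 1 1 1 = true :=
  ⟨(T.l 2), by decide +kernel⟩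

def B022E_102 :
    ∃ t, chk3 (onCell 0 67108864 0 1073741824 740881858 40050571 (corW 3 c0B eng mog cB022E gB1q0 gB0q2 gB2q2 gB3q2 dB1q0 dB0q2 dB2q2 dB3q2 true false)) t 1 1 1 = true :=
  ⟨(T.a (T.a (T.b (T.b (T.b (T.a (T.b (T.l 204) (T.l 204)) (T.l 204)) (T.l 204)) (T.l 0)) (T.l 0)) (T.b (T.a (T.b (T.l 204) (T.l 0)) (T.b (T.b (T.l 204) (T.l 204)) (T.l 0))) (T.a (T.l 0) (T.l 0)))) (T.a (T.b (T.b (T.a (T.l 204) (T.l 204)) (T.l 0)) (T.b (T.l 0) (T.l 880))) (T.b (T.b (T.a (T.l 204) (T.b (T.b (T.l 204) (T.l 204)) (T.l 204))) (T.l 0)) (T.b (T.l 0) (T.l 816))))), by decide +kernel⟩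

def B022E_110 :
    ∃ t, chk3 (onCell 0 67108864 0 1073741824 740881858 40050571 (corW 3 c0B eng mog cB022E gB1q0 gB1q2 gB0q2 gB1q2 dB1q0 dB1q2 dB0q2 dB1q2 true true)) t 1 1 1 = true :=
  ⟨(T.l 2), by decide +kernel⟩

def B022E_111 :
    ∃ t, chk3 (onCell 0 67108864 0 1073741824 740881858 40050571 (corW 3 c0B eng mog cB022E gB1q0 gB1q2 gB1q2 gB2q2 dB1q0 dB1q2 dB1q2 dB2q2 true true)) t 1 1 1 = true :=
  ⟨(T.l 2), by decide +kernel⟩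

def B022E_112 :
    ∃ t, chk3 (onCell 0 67108864 0 1073741824 740881858 40050571 (corW 3 c0B eng mog cB022E gB1q0 gB1q2 gB2q2 gB3q2 dB1q0 dB1q2 dB2q2 dB3q2 true false)) t 1 1 1 = true :=
  ⟨(T.a (T.b (T.b (T.b (T.a (T.b (T.c (T.b (T.l 204) (T.l 204)) (T.l 204)) (T.l 204)) (T.c (T.l 204) (T.l 204))) (T.l 204)) (T.l 204)) (T.l 0)) (T.b (T.a (T.b (T.b (T.b (T.l 204) (T.l 204)) (T.l 204)) (T.l 204)) (T.b (T.b (T.a (T.l 204) (T.a (T.l 204) (T.b (T.l 204) (T.l 204)))) (T.l 204)) (T.l 0))) (T.a (T.l 0) (T.l 0)))), by decide +kernel⟩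

def B022E_120 :
    ∃ t, chk3 (onCell 0 67108864 0 1073741824 740881858 40050571 (corW 3 c0B eng mog cB022E gB1q0 gB2q2 gB0q2 gB1q2 dB1q0 dB2q2 dB0q2 dB1q2 true true)) t 1 1 1 = true :=
  ⟨(T.l 2), by decide +kernel⟩

def B022E_121 :
    ∃ t, chk3 (onCell 0 67108864 0 1073741824 740881858 40050571 (corW 3 c0B eng mog cB022E gB1q0 gB2q2 gB1q2 gB2q2 dB1q0 dB2q2 dB1q2 dB2q2 true true)) t 1 1 1 = true :=
  ⟨(T.l 2), by decide +kernel⟩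

def B022E_122 :
    ∃ t, chk3 (onCell 0 67108864 0 1073741824 740881858 40050571 (corW 3 c0B eng mog cB022E gB1q0 gB2q2 gB2q2 gB3q2 dB1q0 dB2q2 dB2q2 dB3q2 true false)) t 1 1 1 = true :=
  ⟨(T.a (T.b (T.b (T.b (T.b (T.a (T.c (T.l 204) (T.l 204)) (T.l 204)) (T.l 204)) (T.l 204)) (T.l 0)) (T.l 0)) (T.b (T.a (T.b (T.b (T.l 204) (T.l 204)) (T.l 0)) (T.b (T.a (T.l 204) (T.b (T.a (T.l 204) (T.b (T.l 204) (T.l 204))) (T.l 204))) (T.l 0))) (T.a (T.l 0) (T.l 0)))), by decide +kernel⟩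

def B022E_200 :
    ∃ t, chk3 (onCell 0 67108864 0 1073741824 740881858 40050571 (corW 3 c0B eng mog cB022E gB2q0 gB0q2 gB0q2 gB1q2 dB2q0 dB0q2 dB0q2 dB1q2 true true)) t 1 1 1 = true :=
  ⟨(T.l 2), by decide +kernel⟩

def B022E_201 :
    ∃ t, chk3 (onCell 0 67108864 0 1073741824 740881858 40050571 (corW 3 c0B eng mog cB022E gB2q0 gB0q2 gB1q2 gB2q2 dB2q0 dB0q2 dB1q2 dB2q2 true true)) t 1 1 1 = true :=
  ⟨(T.l 2), by decide +kernel⟩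

def B022E_202 :
    ∃ t, chk3 (onCell 0 67108864 0 1073741824 740881858 40050571 (corW 3 c0B eng mog cB022E gB2q0 gB0q2 gB2q2 gB3q2 dB2q0 dB0q2 dB2q2 dB3q2 true false)) t 1 1 1 = true :=
  ⟨(T.a (T.a (T.b (T.b (T.b (T.a (T.b (T.l 204) (T.l 204)) (T.l 204)) (T.l 204)) (T.l 0)) (T.l 0)) (T.b (T.a (T.b (T.l 204) (T.l 0)) (T.b (T.b (T.l 204) (T.l 204)) (T.l 0))) (T.l 0))) (T.b (T.a (T.b (T.a (T.l 204) (T.l 204)) (T.l 0)) (T.b (T.a (T.l 204) (T.b (T.b (T.l 204) (T.l 204)) (T.l 204))) (T.l 0))) (T.a (T.l 0) (T.l 0)))), by decide +kernel⟩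

def B022E_210 :
    ∃ t, chk3 (onCell 0 67108864 0 1073741824 740881858 40050571 (corW 3 c0B eng mog cB022E gB2q0 gB1q2 gB0q2 gB1q2 dB2q0 dB1q2 dB0q2 dB1q2 true true)) t 1 1 1 = true :=
  ⟨(T.l 2), by decide +kernel⟩

def B022E_211 :
    ∃ t, chk3 (onCell 0 67108864 0 1073741824 740881858 40050571 (corW 3 c0B eng mog cB022E gB2q0 gB1q2 gB1q2 gB2q2 dB2q0 dB1q2 dB1q2 dB2q2 true true)) t 1 1 1 = true :=
  ⟨(T.l 2), by decide +kernel⟩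

def B022E_212 :
    ∃ t, chk3 (onCell 0 67108864 0 1073741824 740881858 40050571 (corW 3 c0B eng mog cB022E gB2q0 gB1q2 gB2q2 gB3q2 dB2q0 dB1q2 dB2q2 dB3q2 true false)) t 1 1 1 = true :=
  ⟨(T.a (T.b (T.b (T.b (T.b (T.a (T.c (T.b (T.l 204) (T.l 204)) (T.l 204)) (T.b (T.l 204) (T.l 204))) (T.l 204)) (T.l 204)) (T.l 0)) (T.l 0)) (T.b (T.a (T.b (T.b (T.b (T.l 204) (T.l 204)) (T.l 204)) (T.l 0)) (T.b (T.b (T.a (T.l 204) (T.a (T.l 204) (T.b (T.l 204) (T.l 204)))) (T.l 204)) (T.l 0))) (T.b (T.l 0) (T.l 0)))), by decide +kernel⟩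

def B022E_220 :
    ∃ t, chk3 (onCell 0 67108864 0 1073741824 740881858 40050571 (corW 3 c0B eng mog cB022E gB2q0 gB2q2 gB0q2 gB1q2 dB2q0 dB2q2 dB0q2 dB1q2 true true)) t 1 1 1 = true :=
  ⟨(T.l 2), by decide +kernel⟩

def B022E_221 :
    ∃ t, chk3 (onCell 0 67108864 0 1073741824 740881858 40050571 (corW 3 c0B eng mog cB022E gB2q0 gB2q2 gB1q2 gB2q2 dB2q0 dB2q2 dB1q2 dB2q2 true true)) t 1 1 1 = true :=
  ⟨(T.l 2), by decide +kernel⟩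

def B022E_222 :
    ∃ t, chk3 (onCell 0 67108864 0 1073741824 740881858 40050571 (corW 3 c0B eng mog cB022E gB2q0 gB2q2 gB2q2 gB3q2 dB2q0 dB2q2 dB2q2 dB3q2 true false)) t 1 1 1 = true :=
  ⟨(T.a (T.b (T.b (T.b (T.b (T.a (T.c (T.l 204) (T.l 204)) (T.l 204)) (T.l 204)) (T.l 204)) (T.l 0)) (T.l 0)) (T.b (T.b (T.a (T.b (T.l 204) (T.l 204)) (T.a (T.l 204) (T.b (T.a (T.l 204) (T.b (T.l 204) (T.l 204))) (T.l 204)))) (T.b (T.l 0) (T.l 0))) (T.l 68))), by decide +kernel⟩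

def B022L_050_1_2_1 :
    ∃ t, chk3 (onCell 0 67108864 0 1073741824 740881858 40050571 (corW 3 c0B eng mog cB022L gB0q0 gB5q2 gB0q2 gB1q2 dB0q0 dB5q2 dB0q2 dB1q2 true true)) t 1 2 1 = true :=
  ⟨(T.b (T.l 2) (T.l 2)), by decide +kernel⟩

def B022L_050_1_12_1 :
    ∃ t, chk3 (onCell 0 67108864 0 1073741824 740881858 40050571 (corW 3 c0B eng mog cB022L gB0q0 gB5q2 gB0q2 gB1q2 dB0q0 dB5q2 dB0q2 dB1q2 true true)) t 1 12 1 = true :=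
  ⟨(T.b (T.l 2) (T.a (T.b (T.l 0) (T.a (T.l 0) (T.l 0))) (T.b (T.a (T.l 0) (T.a (T.l 0) (T.l 816))) (T.a (T.l 0) (T.a (T.l 0) (T.l 0)))))), by decide +kernel⟩

def B022L_050_1_52_1 :
    ∃ t, chk3 (onCell 0 67108864 0 1073741824 740881858 40050571 (corW 3 c0B eng mog cB022L gB0q0 gB5q2 gB0q2 gB1q2 dB0q0 dB5q2 dB0q2 dB1q2 true true)) t 1 52 1 = true :=
  ⟨(T.a (T.a (T.c (T.l 0) (T.l 0)) (T.c (T.l 0) (T.l 0))) (T.a (T.c (T.l 0) (T.l 0)) (T.c (T.l 0) (T.l 0)))), by decide +kernel⟩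

def B022L_050_4_106_1 :
    ∃ t, chk3 (onCell 0 67108864 0 1073741824 740881858 40050571 (corW 3 c0B eng mog cB022L gB0q0 gB5q2 gB0q2 gB1q2 dB0q0 dB5q2 dB0q2 dB1q2 true true)) t 4 106 1 = true :=
  ⟨(T.a (T.b (T.c (T.l 0) (T.l 0)) (T.b (T.c (T.b (T.l 0) (T.a (T.b (T.l 0) (T.a (T.l 1) (T.b (T.c (T.l 0) (T.l 0)) (T.l 1)))) (T.b (T.l 0) (T.a (T.b (T.l 0) (T.l 1)) (T.l 0))))) (T.b (T.l 0) (T.a (T.c (T.b (T.l 0) (T.a (T.l 1) (T.b (T.b (T.l 0) (T.l 1)) (T.l 1)))) (T.b (T.l 0) (T.a (T.l 1) (T.b (T.b (T.l 0) (T.l 1)) (T.l 1))))) (T.b (T.l 0) (T.c (T.b (T.l 0) (T.a (T.l 1) (T.a (T.l 1) (T.l 0)))) (T.b (T.l 0) (T.a (T.l 1) (T.b (T.l 0) (T.l 1))))))))) (T.l 1))) (T.b (T.c (T.l 0) (T.l 0)) (T.c (T.b (T.c (T.l 0) (T.l 0)) (T.b (T.b (T.b (T.a (T.a (T.l 1) (T.l 0)) (T.l 0)) (T.l 1)) (T.l 1)) (T.l 1))) (T.a (T.b (T.c (T.l 0) (T.c (T.l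 0) (T.l 0))) (T.a (T.l 1) (T.a (T.l 1) (T.b (T.a (T.l 1) (T.b (T.b (T.l 0) (T.l 1)) (T.l 1))) (T.l 1))))) (T.b (T.l 0) (T.b (T.b (T.b (T.c (T.l 0) (T.l 0)) (T.l 1)) (T.l 1)) (T.l 1))))))), by decide +kernel⟩

def B022L_050_5_106_1 :
    ∃ t, chk3 (onCell 0 67108864 0 1073741824 740881858 40050571 (corW 3 c0B eng mog cB022L gB0q0 gB5q2 gB0q2 gB1q2 dB0q0 dB5q2 dB0q2 dB1q2 true true)) t 5 106 1 = true :=
  ⟨(T.b (T.c (T.l 0) (T.l 0)) (T.a (T.b (T.c (T.l 0) (T.l 0)) (T.b (T.c (T.a (T.b (T.l 0) (T.l 1)) (T.c (T.l 0) (T.a (T.c (T.l 0) (T.c (T.l 0) (T.a (T.b (T.l 0) (T.a (T.l 1) (T.l 0))) (T.l 0)))) (T.l 0)))) (T.a (T.b (T.c (T.l 0) (T.c (T.l 0) (T.l 0))) (T.l 1)) (T.b (T.l 0) (T.b (T.c (T.l 0) (T.c (T.l 0) (T.l 0))) (T.l 1))))) (T.l 1))) (T.b (T.c (T.l 0) (T.l 0)) (T.c (T.b (T.c (T.l 0) (T.l 0)) (T.a (T.l 1) (T.b (T.b (T.l 0)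 (T.l 1)) (T.l 1)))) (T.a (T.b (T.c (T.l 0) (T.c (T.l 0) (T.l 0))) (T.l 1)) (T.b (T.l 0) (T.b (T.b (T.c (T.l 0) (T.c (T.l 0) (T.l 0))) (T.l 1)) (T.l 1)))))))), by decide +kernel⟩

def B022L_050_2_107_1 :
    ∃ t, chk3 (onCell 0 67108864 0 1073741824 740881858 40050571 (corW 3 c0B eng mog cB022L gB0q0 gB5q2 gB0q2 gB1q2 dB0q0 dB5q2 dB0q2 dB1q2 true true)) t 2 107 1 = true :=
  ⟨(T.l 1), by decide +kernel⟩

def B022L_050_3_53_1 :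
    ∃ t, chk3 (onCell 0 67108864 0 1073741824 740881858 40050571 (corW 3 c0B eng mog cB022L gB0q0 gB5q2 gB0q2 gB1q2 dB0q0 dB5q2 dB0q2 dB1q2 true true)) t 3 53 1 = true :=
  ⟨(T.b (T.a (T.b (T.c (T.l 0) (T.l 0)) (T.a (T.b (T.l 0) (T.b (T.c (T.l 0) (T.l 0)) (T.c (T.b (T.l 0) (T.a (T.l 1) (T.a (T.l 1) (T.l 0)))) (T.a (T.b (T.c (T.l 0) (T.c (T.l 0) (T.l 0))) (T.l 1)) (T.b (T.l 0) (T.a (T.l 1) (T.b (T.l 0) (T.l 1)))))))) (T.b (T.l 0) (T.c (T.l 0) (T.c (T.l 0) (T.a (T.c (T.l 0) (T.a (T.l 0) (T.l 0))) (T.l 0))))))) (T.c (T.a (T.l 0) (T.l 0)) (T.a (T.l 0) (T.l 0)))) (T.b (T.b (T.b (T.a (T.a (T.l 1) (T.a (T.l 1) (T.a (T.l 1) (T.a (T.l 1) (T.b (T.b (T.l 0) (T.l 1)) (T.l 1)))))) (T.a (T.b (T.c (T.l 0) (T.c (T.l 0) (T.a (T.c (T.l 0) (T.l 0)) (T.l 0)))) (T.a (T.l 1) (T.a (T.l 1) (T.b (T.l 0) (T.l 1))))) (T.c (T.l 0) (T.c (T.l 0) (T.a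 (T.c (T.l 0) (T.a (T.l 0) (T.l 0))) (T.l 0)))))) (T.l 1)) (T.l 1)) (T.l 1))), by decide +kernel⟩

def B022L_050_1_27_1 :
    ∃ t, chk3 (onCell 0 67108864 0 1073741824 740881858 40050571 (corW 3 c0B eng mog cB022L gB0q0 gB5q2 gB0q2 gB1q2 dB0q0 dB5q2 dB0q2 dB1q2 true true)) t 1 27 1 = true :=
  ⟨(T.l 1), by decide +kernel⟩

def B022L_050_1_7_1 :
    ∃ t, chk3 (onCell 0 67108864 0 1073741824 740881858 40050571 (corW 3 c0B eng mog cB022L gB0q0 gB5q2 gB0q2 gB1q2 dB0q0 dB5q2 dB0q2 dB1q2 true true)) t 1 7 1 = true :=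
  ⟨(T.l 1), by decide +kernel⟩

theorem B022L_050_2_106_1 :
    ∃ t, chk3 (onCell 0 67108864 0 1073741824 740881858 40050571 (corW 3 c0B eng mog cB022L gB0q0 gB5q2 gB0q2 gB1q2 dB0q0 dB5q2 dB0q2 dB1q2 true true)) t 2 106 1 = true :=
  ex3_a B022L_050_4_106_1 B022L_050_5_106_1
theorem B022L_050_2_53_1 :
    ∃ t, chk3 (onCell 0 67108864 0 1073741824 740881858 40050571 (corW 3 c0B eng mog cB022L gB0q0 gB5q2 gB0q2 gB1q2 dB0q0 dB5q2 dB0q2 dB1q2 true true)) t 2 53 1 = true :=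
  ex3_b B022L_050_2_106_1 B022L_050_2_107_1
theorem B022L_050_1_53_1 :
    ∃ t, chk3 (onCell 0 67108864 0 1073741824 740881858 40050571 (corW 3 c0B eng mog cB022L gB0q0 gB5q2 gB0q2 gB1q2 dB0q0 dB5q2 dB0q2 dB1q2 true true)) t 1 53 1 = true :=
  ex3_a B022L_050_2_53_1 B022L_050_3_53_1
theorem B022L_050_1_26_1 :
    ∃ t, chk3 (onCell 0 67108864 0 1073741824 740881858 40050571 (corW 3 c0B eng mog cB022L gB0q0 gB5q2 gB0q2 gB1q2 dB0q0 dB5q2 dB0q2 dB1q2 true true)) t 1 26 1 = true :=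
  ex3_b B022L_050_1_52_1 B022L_050_1_53_1
theorem B022L_050_1_13_1 :
    ∃ t, chk3 (onCell 0 67108864 0 1073741824 740881858 40050571 (corW 3 c0B eng mog cB022L gB0q0 gB5q2 gB0q2 gB1q2 dB0q0 dB5q2 dB0q2 dB1q2 true true)) t 1 13 1 = true :=
  ex3_b B022L_050_1_26_1 B022L_050_1_27_1
theorem B022L_050_1_6_1 :
    ∃ t, chk3 (onCell 0 67108864 0 1073741824 740881858 40050571 (corW 3 c0B eng mog cB022L gB0q0 gB5q2 gB0q2 gB1q2 dB0q0 dB5q2 dB0q2 dB1q2 true true)) t 1 6 1 = true :=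
  ex3_b B022L_050_1_12_1 B022L_050_1_13_1
theorem B022L_050_1_3_1 :
    ∃ t, chk3 (onCell 0 67108864 0 1073741824 740881858 40050571 (corW 3 c0B eng mog cB022L gB0q0 gB5q2 gB0q2 gB1q2 dB0q0 dB5q2 dB0q2 dB1q2 true true)) t 1 3 1 = true :=
  ex3_b B022L_050_1_6_1 B022L_050_1_7_1
theorem B022L_050 :
    ∃ t, chk3 (onCell 0 67108864 0 1073741824 740881858 40050571 (corW 3 c0B eng mog cB022L gB0q0 gB5q2 gB0q2 gB1q2 dB0q0 dB5q2 dB0q2 dB1q2 true true)) t 1 1 1 = true :=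
  ex3_b B022L_050_1_2_1 B022L_050_1_3_1

def B022L_051 :
    ∃ t, chk3 (onCell 0 67108864 0 1073741824 740881858 40050571 (corW 3 c0B eng mog cB022L gB0q0 gB5q2 gB1q2 gB2q2 dB0q0 dB5q2 dB1q2 dB2q2 true true)) t 1 1 1 = true :=
  ⟨(T.b (T.b (T.l 2) (T.b (T.l 0) (T.a (T.l 204) (T.l 0)))) (T.b (T.b (T.b (T.l 0) (T.b (T.l 0) (T.a (T.l 1) (T.a (T.l 1) (T.l 0))))) (T.l 1)) (T.l 1))), by decide +kernel⟩

def B022L_052 :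
    ∃ t, chk3 (onCell 0 67108864 0 1073741824 740881858 40050571 (corW 3 c0B eng mog cB022L gB0q0 gB5q2 gB2q2 gB3q2 dB0q0 dB5q2 dB2q2 dB3q2 true false)) t 1 1 1 = true :=
  ⟨(T.b (T.b (T.b (T.a (T.l 204) (T.a (T.l 204) (T.l 0))) (T.l 204)) (T.b (T.l 204) (T.l 1))) (T.l 1)), by decide +kernel⟩

def B022L_150 :
    ∃ t, chk3 (onCell 0 67108864 0 1073741824 740881858 40050571 (corW 3 c0B eng mog cB022L gB1q0 gB5q2 gB0q2 gB1q2 dB1q0 dB5q2 dB0q2 dB1q2 true true)) t 1 1 1 = true :=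
  ⟨(T.b (T.b (T.l 2) (T.b (T.l 2) (T.a (T.l 0) (T.b (T.l 2) (T.a (T.l 816) (T.l 816)))))) (T.b (T.b (T.a (T.l 0) (T.a (T.l 816) (T.b (T.l 816) (T.l 816)))) (T.l 1)) (T.l 1))), by decide +kernel⟩

def B022L_151 :
    ∃ t, chk3 (onCell 0 67108864 0 1073741824 740881858 40050571 (corW 3 c0B eng mog cB022L gB1q0 gB5q2 gB1q2 gB2q2 dB1q0 dB5q2 dB1q2 dB2q2 true true)) t 1 1 1 = true :=
  ⟨(T.b (T.b (T.b (T.l 2) (T.l 0)) (T.l 0)) (T.b (T.l 1) (T.l 1))), by decide +kernel⟩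

def B022L_152 :
    ∃ t, chk3 (onCell 0 67108864 0 1073741824 740881858 40050571 (corW 3 c0B eng mog cB022L gB1q0 gB5q2 gB2q2 gB3q2 dB1q0 dB5q2 dB2q2 dB3q2 true false)) t 1 1 1 = true :=
  ⟨(T.b (T.b (T.b (T.a (T.l 204) (T.a (T.l 204) (T.l 0))) (T.l 204)) (T.l 0)) (T.l 1)), by decide +kernel⟩

def B022L_250 :
    ∃ t, chk3 (onCell 0 67108864 0 1073741824 740881858 40050571 (corW 3 c0B eng mog cB022L gB2q0 gB5q2 gB0q2 gB1q2 dB2q0 dB5q2 dB0q2 dB1q2 true true)) t 1 1 1 = true :=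
  ⟨(T.b (T.b (T.l 2) (T.a (T.l 0) (T.b (T.b (T.l 2) (T.a (T.l 816) (T.l 2))) (T.b (T.a (T.l 816) (T.l 0)) (T.a (T.l 816) (T.l 816)))))) (T.l 1)), by decide +kernel⟩

def B022L_251 :
    ∃ t, chk3 (onCell 0 67108864 0 1073741824 740881858 40050571 (corW 3 c0B eng mog cB022L gB2q0 gB5q2 gB1q2 gB2q2 dB2q0 dB5q2 dB1q2 dB2q2 true true)) t 1 1 1 = true :=
  ⟨(T.b (T.b (T.b (T.l 2) (T.l 0)) (T.l 0)) (T.l 1)), by decide +kernel⟩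

def B022L_252 :
    ∃ t, chk3 (onCell 0 67108864 0 1073741824 740881858 40050571 (corW 3 c0B eng mog cB022L gB2q0 gB5q2 gB2q2 gB3q2 dB2q0 dB5q2 dB2q2 dB3q2 true false)) t 1 1 1 = true :=
  ⟨(T.b (T.b (T.b (T.a (T.l 204) (T.a (T.l 204) (T.l 0))) (T.l 0)) (T.l 1)) (T.l 1)), by decide +kernel⟩

def B022R_004 :
    ∃ t, chk3 (onCell 0 67108864 0 1073741824 740881858 40050571 (corW 3 c0B eng mog cB022R gB0q0 gB0q2 gB4q2 gB5q2 dB0q0 dB0q2 dB4q2 dB5q2 false true)) t 1 1 1 = true :=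
  ⟨(T.b (T.a (T.a (T.b (T.b (T.c (T.b (T.l 204) (T.l 204)) (T.l 204)) (T.l 204)) (T.l 0)) (T.a (T.b (T.b (T.l 204) (T.l 204)) (T.l 0)) (T.b (T.b (T.c (T.l 204) (T.l 204)) (T.l 204)) (T.l 0)))) (T.a (T.b (T.a (T.a (T.l 220) (T.b (T.l 204) (T.l 204))) (T.c (T.l 204) (T.l 220))) (T.l 0)) (T.b (T.a (T.c (T.l 204) (T.l 204)) (T.b (T.l 204) (T.l 204))) (T.l 0)))) (T.a (T.a (T.b (T.l 816) (T.l 816)) (T.a (T.l 816) (T.b (T.l 816) (T.l 816)))) (T.a (T.a (T.b (T.l 0) (T.l 816)) (T.l 0)) (T.b (T.l 0) (T.a (T.l 816) (T.l 816)))))), by decide +kernel⟩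

def B022R_014 :
    ∃ t, chk3 (onCell 0 67108864 0 1073741824 740881858 40050571 (corW 3 c0B eng mog cB022R gB0q0 gB1q2 gB4q2 gB5q2 dB0q0 dB1q2 dB4q2 dB5q2 false true)) t 1 1 1 = true :=
  ⟨(T.a (T.b (T.b (T.l 0) (T.l 0)) (T.b (T.l 816) (T.b (T.l 816) (T.a (T.l 816) (T.l 816))))) (T.b (T.a (T.l 0) (T.b (T.l 0) (T.l 0))) (T.a (T.b (T.l 816) (T.l 816)) (T.b (T.l 816) (T.b (T.l 816) (T.l 816)))))), by decide +kernel⟩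

def B022R_024 :
    ∃ t, chk3 (onCell 0 67108864 0 1073741824 740881858 40050571 (corW 3 c0B eng mog cB022R gB0q0 gB2q2 gB4q2 gB5q2 dB0q0 dB2q2 dB4q2 dB5q2 false true)) t 1 1 1 = true :=
  ⟨(T.a (T.b (T.l 0) (T.b (T.l 816) (T.l 816))) (T.b (T.a (T.l 0) (T.l 0)) (T.a (T.l 816) (T.b (T.l 816) (T.l 816))))), by decide +kernel⟩

def B022R_104 :
    ∃ t, chk3 (onCell 0 67108864 0 1073741824 740881858 40050571 (corW 3 c0B eng mog cB022R gB1q0 gB0q2 gB4q2 gB5q2 dB1q0 dB0q2 dB4q2 dB5q2 false true)) t 1 1 1 = true :=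
  ⟨(T.a (T.a (T.b (T.b (T.b (T.c (T.b (T.l 204) (T.l 204)) (T.l 204)) (T.l 204)) (T.l 0)) (T.l 816)) (T.b (T.a (T.b (T.b (T.l 204) (T.l 204)) (T.l 0)) (T.b (T.a (T.b (T.l 204) (T.l 204)) (T.l 220)) (T.l 0))) (T.l 816))) (T.a (T.b (T.b (T.a (T.a (T.l 204) (T.b (T.l 204) (T.l 204))) (T.c (T.l 204) (T.l 220))) (T.l 0)) (T.l 0)) (T.b (T.b (T.a (T.c (T.l 204) (T.l 204)) (T.b (T.l 204) (T.l 204))) (T.l 0)) (T.l 0)))), by decide +kernel⟩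

def B022R_114 :
    ∃ t, chk3 (onCell 0 67108864 0 1073741824 740881858 40050571 (corW 3 c0B eng mog cB022R gB1q0 gB1q2 gB4q2 gB5q2 dB1q0 dB1q2 dB4q2 dB5q2 false true)) t 1 1 1 = true :=
  ⟨(T.a (T.b (T.b (T.l 0) (T.l 0)) (T.l 816)) (T.a (T.b (T.l 0) (T.l 816)) (T.b (T.b (T.l 0) (T.l 0)) (T.l 816)))), by decide +kernel⟩

def B022R_124 :
    ∃ t, chk3 (onCell 0 67108864 0 1073741824 740881858 40050571 (corW 3 c0B eng mog cB022R gB1q0 gB2q2 gB4q2 gB5q2 dB1q0 dB2q2 dB4q2 dB5q2 false true)) t 1 1 1 = true :=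
  ⟨(T.a (T.b (T.l 0) (T.l 816)) (T.a (T.l 16) (T.b (T.l 0) (T.l 816)))), by decide +kernel⟩

def B022R_204 :
    ∃ t, chk3 (onCell 0 67108864 0 1073741824 740881858 40050571 (corW 3 c0B eng mog cB022R gB2q0 gB0q2 gB4q2 gB5q2 dB2q0 dB0q2 dB4q2 dB5q2 false true)) t 1 1 1 = true :=
  ⟨(T.a (T.a (T.b (T.b (T.b (T.c (T.b (T.l 204) (T.l 204)) (T.l 204)) (T.l 204)) (T.l 0)) (T.l 816)) (T.b (T.a (T.b (T.b (T.l 204) (T.l 204)) (T.l 0)) (T.b (T.b (T.c (T.l 204) (T.l 204)) (T.l 204)) (T.l 0))) (T.l 816))) (T.a (T.b (T.b (T.b (T.a (T.c (T.l 204) (T.l 204)) (T.c (T.l 204) (T.l 204))) (T.l 0)) (T.l 0)) (T.l 816)) (T.b (T.b (T.a (T.c (T.l 0) (T.l 16)) (T.b (T.l 204) (T.l 0))) (T.l 0)) (T.l 816)))), by decide +kernel⟩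

def B022R_214 :
    ∃ t, chk3 (onCell 0 67108864 0 1073741824 740881858 40050571 (corW 3 c0B eng mog cB022R gB2q0 gB1q2 gB4q2 gB5q2 dB2q0 dB1q2 dB4q2 dB5q2 false true)) t 1 1 1 = true :=
  ⟨(T.a (T.b (T.b (T.l 0) (T.l 816)) (T.l 816)) (T.a (T.b (T.l 0) (T.l 816)) (T.b (T.b (T.l 0) (T.l 816)) (T.l 816)))), by decide +kernel⟩

def B022R_224 :
    ∃ t, chk3 (onCell 0 67108864 0 1073741824 740881858 40050571 (corW 3 c0B eng mog cB022R gB2q0 gB2q2 gB4q2 gB5q2 dB2q0 dB2q2 dB4q2 dB5q2 false true)) t 1 1 1 = true :=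
  ⟨(T.a (T.b (T.l 0) (T.l 816)) (T.b (T.a (T.l 0) (T.l 0)) (T.l 816))), by decide +kernel⟩

def B101E_000 :
    ∃ t, chk3 (onCell 0 53687091 0 1073741824 740881858 40050571 (corW 3 c0B eng mog cB101E gB0q1 gB0q1 gB0q0 gB1q0 dB0q1 dB0q1 dB0q0 dB1q0 true true)) t 1 1 1 = true :=
  ⟨(T.l 2), by decide +kernel⟩

def B101E_001 :
    ∃ t, chk3 (onCell 0 53687091 0 1073741824 740881858 40050571 (corW 3 c0B eng mog cB101E gB0q1 gB0q1 gB1q0 gB2q0 dB0q1 dB0q1 dB1q0 dB2q0 true true)) t 1 1 1 = true :=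
  ⟨(T.l 2), by decide +kernel⟩

def B101E_002 :
    ∃ t, chk3 (onCell 0 53687091 0 1073741824 740881858 40050571 (corW 3 c0B eng mog cB101E gB0q1 gB0q1 gB2q0 gB3q0 dB0q1 dB0q1 dB2q0 dB3q0 true false)) t 1 1 1 = true :=
  ⟨(T.a (T.b (T.b (T.l 0) (T.l 0)) (T.b (T.b (T.l 204) (T.l 204)) (T.b (T.l 204) (T.a (T.l 204) (T.b (T.l 204) (T.l 204)))))) (T.b (T.b (T.a (T.l 32) (T.b (T.l 0) (T.l 0))) (T.a (T.b (T.l 204) (T.l 204)) (T.b (T.l 204) (T.l 204)))) (T.a (T.b (T.l 204) (T.b (T.l 204) (T.a (T.l 204) (T.l 204)))) (T.b (T.l 204) (T.b (T.l 204) (T.b (T.l 204) (T.a (T.l 204) (T.l 204)))))))), by decide +kernel⟩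

def B101L_300 :
    ∃ t, chk3 (onCell 0 67108864 0 1073741824 740881858 40050571 (corW 3 c0B eng mog cB101L gB3q1 gB0q1 gB0q0 gB1q0 dB3q1 dB0q1 dB0q0 dB1q0 true true)) t 1 1 1 = true :=
  ⟨(T.b (T.l 1) (T.b (T.l 1) (T.b (T.l 1) (T.b (T.b (T.l 1) (T.b (T.l 1) (T.b (T.l 1) (T.a (T.l 880) (T.a (T.l 816) (T.a (T.l 816) (T.l 816))))))) (T.a (T.l 880) (T.a (T.l 816) (T.a (T.l 816) (T.l 816)))))))), by decide +kernel⟩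

def B101L_301 :
    ∃ t, chk3 (onCell 0 67108864 0 1073741824 740881858 40050571 (corW 3 c0B eng mog cB101L gB3q1 gB0q1 gB1q0 gB2q0 dB3q1 dB0q1 dB1q0 dB2q0 true true)) t 1 1 1 = true :=
  ⟨(T.l 1), by decide +kernel⟩

def B101L_302 :
    ∃ t, chk3 (onCell 0 67108864 0 1073741824 740881858 40050571 (corW 3 c0B eng mog cB101L gB3q1 gB0q1 gB2q0 gB3q0 dB3q1 dB0q1 dB2q0 dB3q0 true false)) t 1 1 1 = true :=
  ⟨(T.l 1), by decide +kernel⟩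

def B101L_400 :
    ∃ t, chk3 (onCell 0 67108864 0 1073741824 740881858 40050571 (corW 3 c0B eng mog cB101L gB4q1 gB0q1 gB0q0 gB1q0 dB4q1 dB0q1 dB0q0 dB1q0 true true)) t 1 1 1 = true :=
  ⟨(T.b (T.l 1) (T.b (T.l 1) (T.b (T.b (T.b (T.l 1) (T.b (T.l 1) (T.a (T.c (T.l 816) (T.l 816)) (T.a (T.l 816) (T.a (T.l 816) (T.c (T.l 816) (T.l 816))))))) (T.a (T.l 816) (T.a (T.l 816) (T.b (T.l 816) (T.l 816))))) (T.a (T.l 0) (T.b (T.l 816) (T.l 0)))))), by decide +kernel⟩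

def B101L_401 :
    ∃ t, chk3 (onCell 0 67108864 0 1073741824 740881858 40050571 (corW 3 c0B eng mog cB101L gB4q1 gB0q1 gB1q0 gB2q0 dB4q1 dB0q1 dB1q0 dB2q0 true true)) t 1 1 1 = true :=
  ⟨(T.b (T.l 1) (T.b (T.l 1) (T.b (T.l 1) (T.a (T.l 0) (T.l 0))))), by decide +kernel⟩

def B101L_402 :
    ∃ t, chk3 (onCell 0 67108864 0 1073741824 740881858 40050571 (corW 3 c0B eng mog cB101L gB4q1 gB0q1 gB2q0 gB3q0 dB4q1 dB0q1 dB2q0 dB3q0 true false)) t 1 1 1 = true :=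
  ⟨(T.l 1), by decide +kernel⟩

def B101L_500_1_2_1 :
    ∃ t, chk3 (onCell 0 67108864 0 1073741824 740881858 40050571 (corW 3 c0B eng mog cB101L gB5q1 gB0q1 gB0q0 gB1q0 dB5q1 dB0q1 dB0q0 dB1q0 true true)) t 1 2 1 = true :=
  ⟨(T.l 1), by decide +kernel⟩

def B101L_500_1_12_1 :
    ∃ t, chk3 (onCell 0 67108864 0 1073741824 740881858 40050571 (corW 3 c0B eng mog cB101L gB5q1 gB0q1 gB0q0 gB1q0 dB5q1 dB0q1 dB0q0 dB1q0 true true)) t 1 12 1 = true :=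
  ⟨(T.l 1), by decide +kernel⟩

def B101L_500_1_52_1 :
    ∃ t, chk3 (onCell 0 67108864 0 1073741824 740881858 40050571 (corW 3 c0B eng mog cB101L gB5q1 gB0q1 gB0q0 gB1q0 dB5q1 dB0q1 dB0q0 dB1q0 true true)) t 1 52 1 = true :=
  ⟨(T.l 1), by decide +kernel⟩

def B101L_500_1_212_1 :
    ∃ t, chk3 (onCell 0 67108864 0 1073741824 740881858 40050571 (corW 3 c0B eng mog cB101L gB5q1 gB0q1 gB0q0 gB1q0 dB5q1 dB0q1 dB0q0 dB1q0 true true)) t 1 212 1 = true :=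
  ⟨(T.a (T.a (T.l 1) (T.b (T.l 1) (T.b (T.l 1) (T.a (T.l 1) (T.b (T.l 1) (T.a (T.b (T.l 1) (T.c (T.c (T.l 0) (T.c (T.l 0) (T.l 0))) (T.c (T.l 0) (T.c (T.l 0) (T.a (T.b (T.l 1) (T.l 0)) (T.l 0)))))) (T.c (T.c (T.l 0) (T.c (T.l 0) (T.l 0))) (T.c (T.l 0) (T.a (T.c (T.l 0) (T.a (T.b (T.b (T.l 1) (T.l 0)) (T.l 0)) (T.l 0))) (T.l 0)))))))))) (T.b (T.a (T.l 1) (T.a (T.l 1) (T.a (T.l 1) (T.b (T.l 1) (T.b (T.l 1) (T.b (T.l 1) (T.c (T.l 0) (T.c (T.l 0) (T.c (T.l 0) (T.l 0)))))))))) (T.a (T.b (T.a (T.l 1) (T.b (T.l 1) (T.a (T.a (T.l 1) (T.b (T.l 1) (T.b (T.l 1) (T.c (T.l 0) (T.l 0))))) (T.b (T.a (T.l 1) (T.a (T.l 1) (T.c (T.l 0) (T.l 0)))) (T.c (T.l 0) (T.l 0)))))) (T.c (T.a (T.b (T.a (T.b (T.l 1) (T.c (T.l 0) (T.c (T.l 0) (T.l 0)))) (T.c (T.l 0) (T.c (T.l 0) (T.l 0)))) (T.c (T.l 0) (T.l 0))) (T.c (T.l 0) (T.l 0))) (T.a (T.b (T.a (T.b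 (T.l 1) (T.c (T.l 0) (T.a (T.b (T.l 1) (T.l 0)) (T.l 0)))) (T.b (T.b (T.l 1) (T.c (T.l 0) (T.c (T.l 0) (T.l 0)))) (T.l 0))) (T.l 0)) (T.c (T.l 0) (T.l 0))))) (T.c (T.b (T.a (T.b (T.b (T.l 1) (T.a (T.c (T.l 0) (T.c (T.l 0) (T.l 0))) (T.l 0))) (T.c (T.l 0) (T.l 0))) (T.c (T.l 0) (T.l 0))) (T.l 0)) (T.b (T.a (T.b (T.b (T.l 1) (T.a (T.a (T.l 1) (T.b (T.l 1) (T.l 0))) (T.c (T.l 0) (T.l 0)))) (T.c (T.l 0) (T.l 0))) (T.c (T.l 0) (T.a (T.l 0) (T.l 0)))) (T.l 0)))))), by decide +kernel⟩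

def B101L_500_4_426_1 :
    ∃ t, chk3 (onCell 0 67108864 0 1073741824 740881858 40050571 (corW 3 c0B eng mog cB101L gB5q1 gB0q1 gB0q0 gB1q0 dB5q1 dB0q1 dB0q0 dB1q0 true true)) t 4 426 1 = true :=
  ⟨(T.a (T.b (T.a (T.l 1) (T.b (T.l 1) (T.b (T.l 1) (T.a (T.l 1) (T.b (T.l 1) (T.c (T.c (T.l 0) (T.l 0)) (T.c (T.l 0) (T.l 0)))))))) (T.c (T.b (T.a (T.c (T.b (T.a (T.a (T.l 1) (T.b (T.l 1) (T.l 0))) (T.b (T.a (T.l 1) (T.l 0)) (T.l 0))) (T.l 0)) (T.b (T.a (T.a (T.l 1) (T.b (T.l 1) (T.c (T.l 0) (T.l 0)))) (T.c (T.l 0) (T.l 0))) (T.l 0))) (T.c (T.l 0) (T.c (T.l 0) (T.l 0)))) (T.c (T.l 0) (T.l 0))) (T.b (T.a (T.b (T.a (T.a (T.l 1) (T.b (T.l 1) (T.b (T.l 1) (T.l 0)))) (T.b (T.a (T.l 1) (T.b (T.l 1) (T.l 0))) (T.l 0))) (T.c (T.l 0) (T.l 0))) (T.c (T.l 0) (T.l 0))) (T.l 0)))) (T.b (T.b (T.a (T.l 1) (T.a (T.l 1) (T.a (T.l 1) (T.b (T.l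 1) (T.b (T.l 1) (T.c (T.c (T.l 0) (T.l 0)) (T.l 0))))))) (T.a (T.c (T.b (T.a (T.l 1) (T.b (T.l 1) (T.c (T.l 0) (T.l 0)))) (T.c (T.l 0) (T.l 0))) (T.b (T.a (T.l 1) (T.b (T.l 1) (T.c (T.l 0) (T.l 0)))) (T.c (T.l 0) (T.c (T.l 0) (T.l 0))))) (T.c (T.c (T.l 0) (T.c (T.l 0) (T.l 0))) (T.c (T.l 0) (T.c (T.l 0) (T.l 0)))))) (T.c (T.c (T.l 0) (T.l 0)) (T.l 0)))), by decide +kernel⟩

def B101L_500_5_426_1 :
    ∃ t, chk3 (onCell 0 67108864 0 1073741824 740881858 40050571 (corW 3 c0B eng mog cB101L gB5q1 gB0q1 gB0q0 gB1q0 dB5q1 dB0q1 dB0q0 dB1q0 true true)) t 5 426 1 = true :=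
  ⟨(T.c (T.b (T.a (T.b (T.a (T.b (T.a (T.l 1) (T.a (T.l 1) (T.c (T.l 0) (T.c (T.l 0) (T.l 0))))) (T.c (T.l 0) (T.c (T.l 0) (T.l 0)))) (T.c (T.l 0) (T.c (T.l 0) (T.l 0)))) (T.c (T.l 0) (T.l 0))) (T.c (T.l 0) (T.l 0))) (T.l 0)) (T.a (T.b (T.b (T.a (T.b (T.a (T.l 1) (T.a (T.l 1) (T.b (T.l 1) (T.l 0)))) (T.c (T.l 0) (T.c (T.l 0) (T.l 0)))) (T.c (T.l 0) (T.c (T.l 0) (T.a (T.c (T.l 0) (T.l 0)) (T.l 0))))) (T.l 0)) (T.l 204)) (T.l 0))), by decide +kernel⟩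

def B101L_500_2_427_1 :
    ∃ t, chk3 (onCell 0 67108864 0 1073741824 740881858 40050571 (corW 3 c0B eng mog cB101L gB5q1 gB0q1 gB0q0 gB1q0 dB5q1 dB0q1 dB0q0 dB1q0 true true)) t 2 427 1 = true :=
  ⟨(T.c (T.c (T.l 0) (T.l 0)) (T.a (T.l 0) (T.l 204))), by decide +kernel⟩

def B101L_500_3_213_1 :
    ∃ t, chk3 (onCell 0 67108864 0 1073741824 740881858 40050571 (corW 3 c0B eng mog cB101L gB5q1 gB0q1 gB0q0 gB1q0 dB5q1 dB0q1 dB0q0 dB1q0 true true)) t 3 213 1 = true :=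
  ⟨(T.c (T.c (T.l 0) (T.l 0)) (T.a (T.l 0) (T.l 0))), by decide +kernel⟩

def B101L_500_1_107_1 :
    ∃ t, chk3 (onCell 0 67108864 0 1073741824 740881858 40050571 (corW 3 c0B eng mog cB101L gB5q1 gB0q1 gB0q0 gB1q0 dB5q1 dB0q1 dB0q0 dB1q0 true true)) t 1 107 1 = true :=
  ⟨(T.a (T.c (T.l 0) (T.l 0)) (T.a (T.l 204) (T.l 204))), by decide +kernel⟩

def B101L_500_1_27_1 :
    ∃ t, chk3 (onCell 0 67108864 0 1073741824 740881858 40050571 (corW 3 c0B eng mog cB101L gB5q1 gB0q1 gB0q0 gB1q0 dB5q1 dB0q1 dB0q0 dB1q0 true true)) t 1 27 1 = true :=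
  ⟨(T.a (T.l 0) (T.l 0)), by decide +kernel⟩

def B101L_500_1_7_1 :
    ∃ t, chk3 (onCell 0 67108864 0 1073741824 740881858 40050571 (corW 3 c0B eng mog cB101L gB5q1 gB0q1 gB0q0 gB1q0 dB5q1 dB0q1 dB0q0 dB1q0 true true)) t 1 7 1 = true :=
  ⟨(T.b (T.b (T.l 0) (T.a (T.l 204) (T.l 204))) (T.l 2)), by decide +kernel⟩

theorem B101L_500_2_426_1 :
    ∃ t, chk3 (onCell 0 67108864 0 1073741824 740881858 40050571 (corW 3 c0B eng mog cB101L gB5q1 gB0q1 gB0q0 gB1q0 dB5q1 dB0q1 dB0q0 dB1q0 true true)) t 2 426 1 = true :=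
  ex3_a B101L_500_4_426_1 B101L_500_5_426_1
theorem B101L_500_2_213_1 :
    ∃ t, chk3 (onCell 0 67108864 0 1073741824 740881858 40050571 (corW 3 c0B eng mog cB101L gB5q1 gB0q1 gB0q0 gB1q0 dB5q1 dB0q1 dB0q0 dB1q0 true true)) t 2 213 1 = true :=
  ex3_b B101L_500_2_426_1 B101L_500_2_427_1
theorem B101L_500_1_213_1 :
    ∃ t, chk3 (onCell 0 67108864 0 1073741824 740881858 40050571 (corW 3 c0B eng mog cB101L gB5q1 gB0q1 gB0q0 gB1q0 dB5q1 dB0q1 dB0q0 dB1q0 true true)) t 1 213 1 = true :=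
  ex3_a B101L_500_2_213_1 B101L_500_3_213_1
theorem B101L_500_1_106_1 :
    ∃ t, chk3 (onCell 0 67108864 0 1073741824 740881858 40050571 (corW 3 c0B eng mog cB101L gB5q1 gB0q1 gB0q0 gB1q0 dB5q1 dB0q1 dB0q0 dB1q0 true true)) t 1 106 1 = true :=
  ex3_b B101L_500_1_212_1 B101L_500_1_213_1
theorem B101L_500_1_53_1 :
    ∃ t, chk3 (onCell 0 67108864 0 1073741824 740881858 40050571 (corW 3 c0B eng mog cB101L gB5q1 gB0q1 gB0q0 gB1q0 dB5q1 dB0q1 dB0q0 dB1q0 true true)) t 1 53 1 = true :=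
  ex3_b B101L_500_1_106_1 B101L_500_1_107_1
theorem B101L_500_1_26_1 :
    ∃ t, chk3 (onCell 0 67108864 0 1073741824 740881858 40050571 (corW 3 c0B eng mog cB101L gB5q1 gB0q1 gB0q0 gB1q0 dB5q1 dB0q1 dB0q0 dB1q0 true true)) t 1 26 1 = true :=
  ex3_b B101L_500_1_52_1 B101L_500_1_53_1
theorem B101L_500_1_13_1 :
    ∃ t, chk3 (onCell 0 67108864 0 1073741824 740881858 40050571 (corW 3 c0B eng mog cB101L gB5q1 gB0q1 gB0q0 gB1q0 dB5q1 dB0q1 dB0q0 dB1q0 true true)) t 1 13 1 = true :=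
  ex3_b B101L_500_1_26_1 B101L_500_1_27_1
theorem B101L_500_1_6_1 :
    ∃ t, chk3 (onCell 0 67108864 0 1073741824 740881858 40050571 (corW 3 c0B eng mog cB101L gB5q1 gB0q1 gB0q0 gB1q0 dB5q1 dB0q1 dB0q0 dB1q0 true true)) t 1 6 1 = true :=
  ex3_b B101L_500_1_12_1 B101L_500_1_13_1
theorem B101L_500_1_3_1 :
    ∃ t, chk3 (onCell 0 67108864 0 1073741824 740881858 40050571 (corW 3 c0B eng mog cB101L gB5q1 gB0q1 gB0q0 gB1q0 dB5q1 dB0q1 dB0q0 dB1q0 true true)) t 1 3 1 = true :=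
  ex3_b B101L_500_1_6_1 B101L_500_1_7_1
theorem B101L_500 :
    ∃ t, chk3 (onCell 0 67108864 0 1073741824 740881858 40050571 (corW 3 c0B eng mog cB101L gB5q1 gB0q1 gB0q0 gB1q0 dB5q1 dB0q1 dB0q0 dB1q0 true true)) t 1 1 1 = true :=
  ex3_b B101L_500_1_2_1 B101L_500_1_3_1

def B101L_501 :
    ∃ t, chk3 (onCell 0 67108864 0 1073741824 740881858 40050571 (corW 3 c0B eng mog cB101L gB5q1 gB0q1 gB1q0 gB2q0 dB5q1 dB0q1 dB1q0 dB2q0 true true)) t 1 1 1 = true :=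
  ⟨(T.b (T.l 1) (T.b (T.l 1) (T.b (T.l 0) (T.l 204)))), by decide +kernel⟩

def B101L_502 :
    ∃ t, chk3 (onCell 0 67108864 0 1073741824 740881858 40050571 (corW 3 c0B eng mog cB101L gB5q1 gB0q1 gB2q0 gB3q0 dB5q1 dB0q1 dB2q0 dB3q0 true false)) t 1 1 1 = true :=
  ⟨(T.l 1), by decide +kernel⟩

def B101R_030 :
    ∃ t, chk3 (onCell 0 67108864 0 1073741824 740881858 40050571 (corW 3 c0B eng mog cB101R gB0q1 gB3q1 gB0q0 gB1q0 dB0q1 dB3q1 dB0q0 dB1q0 true true)) t 1 1 1 = true :=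
  ⟨(T.l 1), by decide +kernel⟩

def B101R_031 :
    ∃ t, chk3 (onCell 0 67108864 0 1073741824 740881858 40050571 (corW 3 c0B eng mog cB101R gB0q1 gB3q1 gB1q0 gB2q0 dB0q1 dB3q1 dB1q0 dB2q0 true true)) t 1 1 1 = true :=
  ⟨(T.l 1), by decide +kernel⟩

def B101R_032 :
    ∃ t, chk3 (onCell 0 67108864 0 1073741824 740881858 40050571 (corW 3 c0B eng mog cB101R gB0q1 gB3q1 gB2q0 gB3q0 dB0q1 dB3q1 dB2q0 dB3q0 true false)) t 1 1 1 = true :=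
  ⟨(T.l 1), by decide +kernel⟩

def B101R_040 :
    ∃ t, chk3 (onCell 0 67108864 0 1073741824 740881858 40050571 (corW 3 c0B eng mog cB101R gB0q1 gB4q1 gB0q0 gB1q0 dB0q1 dB4q1 dB0q0 dB1q0 true true)) t 1 1 1 = true :=
  ⟨(T.l 1), by decide +kernel⟩

def B101R_041 :
    ∃ t, chk3 (onCell 0 67108864 0 1073741824 740881858 40050571 (corW 3 c0B eng mog cB101R gB0q1 gB4q1 gB1q0 gB2q0 dB0q1 dB4q1 dB1q0 dB2q0 true true)) t 1 1 1 = true :=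
  ⟨(T.l 1), by decide +kernel⟩

def B101R_042 :
    ∃ t, chk3 (onCell 0 67108864 0 1073741824 740881858 40050571 (corW 3 c0B eng mog cB101R gB0q1 gB4q1 gB2q0 gB3q0 dB0q1 dB4q1 dB2q0 dB3q0 true false)) t 1 1 1 = true :=
  ⟨(T.l 1), by decide +kernel⟩

def B101R_050 :
    ∃ t, chk3 (onCell 0 67108864 0 1073741824 740881858 40050571 (corW 3 c0B eng mog cB101R gB0q1 gB5q1 gB0q0 gB1q0 dB0q1 dB5q1 dB0q0 dB1q0 true true)) t 1 1 1 = true :=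
  ⟨(T.l 1), by decide +kernel⟩

def B101R_051 :
    ∃ t, chk3 (onCell 0 67108864 0 1073741824 740881858 40050571 (corW 3 c0B eng mog cB101R gB0q1 gB5q1 gB1q0 gB2q0 dB0q1 dB5q1 dB1q0 dB2q0 true true)) t 1 1 1 = true :=
  ⟨(T.l 1), by decide +kernel⟩

def B101R_052 :
    ∃ t, chk3 (onCell 0 67108864 0 1073741824 740881858 40050571 (corW 3 c0B eng mog cB101R gB0q1 gB5q1 gB2q0 gB3q0 dB0q1 dB5q1 dB2q0 dB3q0 true false)) t 1 1 1 = true :=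
  ⟨(T.l 1), by decide +kernel⟩

def B102E_000_1_2_1 :
    ∃ t, chk3 (onCell 0 53687091 0 1073741824 740881858 40050571 (corW 3 c0B eng mog cB102E gB0q1 gB0q2 gB0q0 gB1q0 dB0q1 dB0q2 dB0q0 dB1q0 true true)) t 1 2 1 = true :=
  ⟨(T.b (T.l 1) (T.b (T.l 1) (T.a (T.b (T.l 1) (T.b (T.l 1) (T.a (T.b (T.l 1) (T.a (T.b (T.l 1) (T.a (T.b (T.l 1) (T.a (T.b (T.l 1) (T.a (T.b (T.l 1) (T.c (T.c (T.a (T.b (T.l 1) (T.l 0)) (T.l 1)) (T.l 0)) (T.l 0))) (T.l 1))) (T.l 1))) (T.l 1))) (T.l 1))) (T.l 1)))) (T.l 1)))), by decide +kernel⟩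

def B102E_000_2_24_1 :
    ∃ t, chk3 (onCell 0 53687091 0 1073741824 740881858 40050571 (corW 3 c0B eng mog cB102E gB0q1 gB0q2 gB0q0 gB1q0 dB0q1 dB0q2 dB0q0 dB1q0 true true)) t 2 24 1 = true :=
  ⟨(T.b (T.b (T.a (T.b (T.c (T.b (T.a (T.c (T.b (T.a (T.a (T.l 0) (T.c (T.b (T.b (T.l 1) (T.l 0)) (T.l 0)) (T.l 0))) (T.b (T.l 1) (T.a (T.l 0) (T.b (T.l 1) (T.l 0))))) (T.l 0)) (T.a (T.l 0) (T.b (T.b (T.l 1) (T.l 0)) (T.l 0)))) (T.b (T.l 1) (T.a (T.c (T.a (T.l 0) (T.b (T.b (T.l 1) (T.l 0)) (T.l 0))) (T.l 0)) (T.a (T.b (T.l 1) (T.c (T.l 0) (T.l 0))) (T.l 1))))) (T.c (T.a (T.l 204) (T.l 0)) (T.l 0))) (T.b (T.a (T.a (T.l 0) (T.a (T.l 0) (T.a (T.l 0) (T.b (T.l 1) (T.l 0))))) (T.b (T.l 1) (T.a (T.l 0) (T.a (T.l 0) (T.l 1))))) (T.l 0))) (T.c (T.a (T.l 204) (T.l 204)) (T.l 204))) (T.b (T.b (T.l 1) (T.a (T.c (T.c (T.b (T.a (T.b (T.a (T.l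 0) (T.l 1)) (T.l 0)) (T.a (T.a (T.b (T.l 1) (T.l 0)) (T.l 1)) (T.l 1))) (T.l 0)) (T.a (T.l 0) (T.b (T.b (T.l 1) (T.l 0)) (T.l 0)))) (T.a (T.l 0) (T.b (T.b (T.l 1) (T.l 0)) (T.l 0)))) (T.a (T.b (T.l 1) (T.b (T.l 1) (T.c (T.c (T.l 0) (T.l 0)) (T.l 0)))) (T.l 1)))) (T.c (T.c (T.a (T.l 204) (T.a (T.l 0) (T.l 0))) (T.l 0)) (T.a (T.l 0) (T.l 0))))) (T.c (T.c (T.a (T.l 204) (T.l 204)) (T.l 204)) (T.a (T.l 204) (T.l 204)))) (T.c (T.a (T.l 204) (T.l 236)) (T.a (T.l 204) (T.l 204)))), by decide +kernel⟩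

def B102E_000_3_24_1 :
    ∃ t, chk3 (onCell 0 53687091 0 1073741824 740881858 40050571 (corW 3 c0B eng mog cB102E gB0q1 gB0q2 gB0q0 gB1q0 dB0q1 dB0q2 dB0q0 dB1q0 true true)) t 3 24 1 = true :=
  ⟨(T.a (T.b (T.b (T.b (T.l 1) (T.b (T.a (T.b (T.a (T.a (T.b (T.l 1) (T.c (T.l 0) (T.l 0))) (T.l 1)) (T.l 1)) (T.c (T.c (T.l 0) (T.l 0)) (T.l 0))) (T.a (T.a (T.b (T.l 1) (T.a (T.l 1) (T.l 1))) (T.l 1)) (T.l 1))) (T.a (T.c (T.l 0) (T.l 0)) (T.b (T.c (T.c (T.l 0) (T.l 0)) (T.l 0)) (T.l 0))))) (T.c (T.a (T.l 204) (T.l 204)) (T.l 0))) (T.c (T.l 236) (T.l 204))) (T.b (T.b (T.a (T.b (T.l 1) (T.b (T.l 1) (T.b (T.l 1) (T.c (T.c (T.l 0) (T.l 0)) (T.c (T.l 0) (T.l 0)))))) (T.l 1)) (T.c (T.a (T.l 0) (T.c (T.c (T.b (T.l 0) (T.l 204)) (T.l 0)) (T.l 0))) (T.a (T.l 0) (T.b (T.c (T.l 0) (T.c (T.l 0) (T.a (T.l 0) (T.b (T.l 0) (T.l 204))))) (T.l 204)))))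 (T.a (T.c (T.l 204) (T.l 204)) (T.c (T.l 204) (T.l 204))))), by decide +kernel⟩

def B102E_000_1_25_1 :
    ∃ t, chk3 (onCell 0 53687091 0 1073741824 740881858 40050571 (corW 3 c0B eng mog cB102E gB0q1 gB0q2 gB0q0 gB1q0 dB0q1 dB0q2 dB0q0 dB1q0 true true)) t 1 25 1 = true :=
  ⟨(T.a (T.c (T.a (T.l 204) (T.l 204)) (T.b (T.l 204) (T.l 204))) (T.a (T.c (T.l 204) (T.l 204)) (T.a (T.b (T.l 204) (T.l 204)) (T.b (T.l 236) (T.l 204))))), by decide +kernel⟩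

def B102E_000_1_13_1 :
    ∃ t, chk3 (onCell 0 53687091 0 1073741824 740881858 40050571 (corW 3 c0B eng mog cB102E gB0q1 gB0q2 gB0q0 gB1q0 dB0q1 dB0q2 dB0q0 dB1q0 true true)) t 1 13 1 = true :=
  ⟨(T.l 2), by decide +kernel⟩

def B102E_000_1_7_1 :
    ∃ t, chk3 (onCell 0 53687091 0 1073741824 740881858 40050571 (corW 3 c0B eng mog cB102E gB0q1 gB0q2 gB0q0 gB1q0 dB0q1 dB0q2 dB0q0 dB1q0 true true)) t 1 7 1 = true :=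
  ⟨(T.l 2), by decide +kernel⟩

theorem B102E_000_1_24_1 :
    ∃ t, chk3 (onCell 0 53687091 0 1073741824 740881858 40050571 (corW 3 c0B eng mog cB102E gB0q1 gB0q2 gB0q0 gB1q0 dB0q1 dB0q2 dB0q0 dB1q0 true true)) t 1 24 1 = true :=
  ex3_a B102E_000_2_24_1 B102E_000_3_24_1
theorem B102E_000_1_12_1 :
    ∃ t, chk3 (onCell 0 53687091 0 1073741824 740881858 40050571 (corW 3 c0B eng mog cB102E gB0q1 gB0q2 gB0q0 gB1q0 dB0q1 dB0q2 dB0q0 dB1q0 true true)) t 1 12 1 = true :=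
  ex3_b B102E_000_1_24_1 B102E_000_1_25_1
theorem B102E_000_1_6_1 :
    ∃ t, chk3 (onCell 0 53687091 0 1073741824 740881858 40050571 (corW 3 c0B eng mog cB102E gB0q1 gB0q2 gB0q0 gB1q0 dB0q1 dB0q2 dB0q0 dB1q0 true true)) t 1 6 1 = true :=
  ex3_b B102E_000_1_12_1 B102E_000_1_13_1
theorem B102E_000_1_3_1 :
    ∃ t, chk3 (onCell 0 53687091 0 1073741824 740881858 40050571 (corW 3 c0B eng mog cB102E gB0q1 gB0q2 gB0q0 gB1q0 dB0q1 dB0q2 dB0q0 dB1q0 true true)) t 1 3 1 = true :=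
  ex3_b B102E_000_1_6_1 B102E_000_1_7_1
theorem B102E_000 :
    ∃ t, chk3 (onCell 0 53687091 0 1073741824 740881858 40050571 (corW 3 c0B eng mog cB102E gB0q1 gB0q2 gB0q0 gB1q0 dB0q1 dB0q2 dB0q0 dB1q0 true true)) t 1 1 1 = true :=
  ex3_b B102E_000_1_2_1 B102E_000_1_3_1

def B102E_001 :
    ∃ t, chk3 (onCell 0 53687091 0 1073741824 740881858 40050571 (corW 3 c0B eng mog cB102E gB0q1 gB0q2 gB1q0 gB2q0 dB0q1 dB0q2 dB1q0 dB2q0 true true)) t 1 1 1 = true :=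
  ⟨(T.b (T.l 1) (T.b (T.b (T.b (T.l 1) (T.b (T.l 1) (T.a (T.a (T.l 204) (T.l 204)) (T.a (T.l 204) (T.c (T.l 204) (T.l 204)))))) (T.a (T.b (T.b (T.l 204) (T.l 204)) (T.l 204)) (T.a (T.b (T.l 204) (T.b (T.l 204) (T.l 204))) (T.b (T.a (T.l 236) (T.l 236)) (T.b (T.l 204) (T.l 204)))))) (T.b (T.b (T.a (T.l 204) (T.a (T.b (T.l 204) (T.l 2)) (T.l 204))) (T.l 2)) (T.l 2)))), by decide +kernel⟩

def B102E_002 :
    ∃ t, chk3 (onCell 0 53687091 0 1073741824 740881858 40050571 (corW 3 c0B eng mog cB102E gB0q1 gB0q2 gB2q0 gB3q0 dB0q1 dB0q2 dB2q0 dB3q0 true false)) t 1 1 1 = true :=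
  ⟨(T.b (T.l 1) (T.b (T.b (T.l 1) (T.b (T.l 1) (T.a (T.l 204) (T.l 1)))) (T.a (T.b (T.b (T.l 204) (T.l 204)) (T.a (T.l 204) (T.b (T.l 204) (T.l 204)))) (T.a (T.b (T.a (T.b (T.l 204) (T.l 204)) (T.b (T.l 204) (T.l 204))) (T.a (T.b (T.l 204) (T.l 236)) (T.b (T.l 204) (T.l 204)))) (T.b (T.a (T.l 204) (T.b (T.l 204) (T.l 204))) (T.a (T.b (T.l 204) (T.b (T.l 204) (T.l 204))) (T.b (T.l 236) (T.b (T.l 204) (T.l 204))))))))), by decide +kernel⟩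

def B102E_010 :
    ∃ t, chk3 (onCell 0 67108864 0 1073741824 740881858 40050571 (corW 3 c0B eng mog cB102E gB0q1 gB1q2 gB0q0 gB1q0 dB0q1 dB1q2 dB0q0 dB1q0 true true)) t 1 1 1 = true :=
  ⟨(T.b (T.b (T.l 1) (T.b (T.l 1) (T.b (T.l 1) (T.a (T.b (T.b (T.b (T.a (T.a (T.a (T.b (T.l 1) (T.b (T.l 1) (T.l 0))) (T.l 1)) (T.l 1)) (T.l 1)) (T.a (T.c (T.c (T.a (T.l 0) (T.c (T.l 4) (T.l 0))) (T.l 0)) (T.l 0)) (T.b (T.l 1) (T.a (T.c (T.l 816) (T.l 0)) (T.a (T.b (T.l 1) (T.l 816)) (T.l 1)))))) (T.a (T.l 0) (T.c (T.a (T.l 0) (T.l 0)) (T.l 0)))) (T.l 0)) (T.a (T.b (T.b (T.l 1) (T.b (T.b (T.a (T.b (T.l 1) (T.c (T.l 816) (T.l 816))) (T.l 1)) (T.c (T.c (T.l 816) (T.l 816)) (T.l 0))) (T.l 0))) (T.l 0)) (T.b (T.b (T.l 1) (T.b (T.l 1) (T.a (T.c (T.l 816) (T.l 0)) (T.b (T.a (T.b (T.l 1) (T.l 816)) (T.l 1)) (T.c (T.l 816) (T.l 816)))))) (T.a (T.l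 0) (T.l 0)))))))) (T.b (T.b (T.a (T.b (T.l 204) (T.l 204)) (T.a (T.b (T.l 204) (T.l 204)) (T.b (T.l 204) (T.l 204)))) (T.l 2)) (T.l 2))), by decide +kernel⟩

def B102E_011 :
    ∃ t, chk3 (onCell 0 67108864 0 1073741824 740881858 40050571 (corW 3 c0B eng mog cB102E gB0q1 gB1q2 gB1q0 gB2q0 dB0q1 dB1q2 dB1q0 dB2q0 true true)) t 1 1 1 = true :=
  ⟨(T.b (T.l 1) (T.b (T.b (T.a (T.l 0) (T.b (T.a (T.l 204) (T.l 1)) (T.a (T.l 204) (T.l 204)))) (T.a (T.l 204) (T.a (T.b (T.l 204) (T.l 204)) (T.b (T.l 204) (T.l 204))))) (T.l 2))), by decide +kernel⟩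

def B102E_012 :
    ∃ t, chk3 (onCell 0 67108864 0 1073741824 740881858 40050571 (corW 3 c0B eng mog cB102E gB0q1 gB1q2 gB2q0 gB3q0 dB0q1 dB1q2 dB2q0 dB3q0 true false)) t 1 1 1 = true :=
  ⟨(T.b (T.l 1) (T.b (T.b (T.l 1) (T.a (T.l 0) (T.b (T.l 1) (T.a (T.l 204) (T.l 204))))) (T.b (T.b (T.a (T.l 204) (T.a (T.l 204) (T.b (T.l 204) (T.l 204)))) (T.a (T.a (T.l 204) (T.a (T.l 204) (T.l 204))) (T.a (T.b (T.l 204) (T.l 204)) (T.b (T.l 204) (T.l 236))))) (T.a (T.a (T.b (T.l 204) (T.l 204)) (T.a (T.l 204) (T.a (T.l 204) (T.b (T.l 204) (T.l 204))))) (T.a (T.a (T.b (T.l 204) (T.l 204)) (T.b (T.l 236) (T.a (T.l 204) (T.l 204)))) (T.a (T.b (T.l 236) (T.a (T.l 204) (T.l 204))) (T.b (T.l 204) (T.b (T.l 204) (T.l 236))))))))), by decide +kernel⟩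

def B102E_020 :
    ∃ t, chk3 (onCell 0 67108864 0 1073741824 740881858 40050571 (corW 3 c0B eng mog cB102E gB0q1 gB2q2 gB0q0 gB1q0 dB0q1 dB2q2 dB0q0 dB1q0 true true)) t 1 1 1 = true :=
  ⟨(T.b (T.b (T.l 1) (T.b (T.b (T.l 1) (T.a (T.b (T.b (T.l 1) (T.c (T.c (T.b (T.b (T.l 1) (T.a (T.l 204) (T.l 1))) (T.l 204)) (T.a (T.l 204) (T.a (T.l 204) (T.l 204)))) (T.a (T.l 204) (T.a (T.l 204) (T.l 204))))) (T.a (T.l 204) (T.c (T.l 204) (T.l 204)))) (T.b (T.a (T.a (T.b (T.l 1) (T.b (T.l 1) (T.l 220))) (T.l 1)) (T.l 1)) (T.a (T.c (T.l 204) (T.l 204)) (T.a (T.l 220) (T.c (T.l 204) (T.l 204))))))) (T.a (T.b (T.l 204) (T.l 204)) (T.a (T.l 204) (T.b (T.b (T.l 204) (T.l 204)) (T.l 204)))))) (T.b (T.l 2) (T.l 2))), by decide +kernel⟩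

def B102E_021 :
    ∃ t, chk3 (onCell 0 67108864 0 1073741824 740881858 40050571 (corW 3 c0B eng mog cB102E gB0q1 gB2q2 gB1q0 gB2q0 dB0q1 dB2q2 dB1q0 dB2q0 true true)) t 1 1 1 = true :=
  ⟨(T.b (T.b (T.l 1) (T.b (T.l 1) (T.b (T.l 1) (T.a (T.l 204) (T.a (T.l 204) (T.l 204)))))) (T.b (T.a (T.l 204) (T.b (T.a (T.l 204) (T.l 204)) (T.b (T.a (T.l 204) (T.l 204)) (T.l 2)))) (T.l 2))), by decide +kernel⟩

def B102E_022 :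
    ∃ t, chk3 (onCell 0 67108864 0 1073741824 740881858 40050571 (corW 3 c0B eng mog cB102E gB0q1 gB2q2 gB2q0 gB3q0 dB0q1 dB2q2 dB2q0 dB3q0 true false)) t 1 1 1 = true :=
  ⟨(T.b (T.l 1) (T.b (T.b (T.l 1) (T.a (T.l 204) (T.a (T.l 204) (T.b (T.l 204) (T.l 204))))) (T.b (T.b (T.a (T.l 204) (T.a (T.l 204) (T.l 204))) (T.a (T.a (T.l 204) (T.a (T.l 204) (T.l 204))) (T.a (T.l 204) (T.b (T.l 204) (T.l 204))))) (T.a (T.a (T.l 204) (T.a (T.l 204) (T.a (T.l 204) (T.b (T.l 204) (T.l 204))))) (T.a (T.a (T.b (T.l 204) (T.l 204)) (T.b (T.l 204) (T.a (T.l 204) (T.l 204)))) (T.a (T.b (T.l 204) (T.c (T.l 236) (T.l 204))) (T.b (T.l 204) (T.b (T.l 204) (T.l 236))))))))), by decide +kernel⟩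

def B102L_300 :
    ∃ t, chk3 (onCell 0 67108864 0 1073741824 740881858 40050571 (corW 3 c0B eng mog cB102L gB3q1 gB0q2 gB0q0 gB1q0 dB3q1 dB0q2 dB0q0 dB1q0 true true)) t 1 1 1 = true :=
  ⟨(T.b (T.l 2) (T.b (T.l 2) (T.a (T.l 0) (T.a (T.l 0) (T.b (T.l 204) (T.l 0)))))), by decide +kernel⟩

def B102L_301 :
    ∃ t, chk3 (onCell 0 67108864 0 1073741824 740881858 40050571 (corW 3 c0B eng mog cB102L gB3q1 gB0q2 gB1q0 gB2q0 dB3q1 dB0q2 dB1q0 dB2q0 true true)) t 1 1 1 = true :=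
  ⟨(T.b (T.b (T.l 2) (T.b (T.l 2) (T.l 2))) (T.b (T.b (T.a (T.l 204) (T.l 204)) (T.l 204)) (T.b (T.l 204) (T.b (T.l 0) (T.l 1))))), by decide +kernel⟩

def B102L_302 :
    ∃ t, chk3 (onCell 0 67108864 0 1073741824 740881858 40050571 (corW 3 c0B eng mog cB102L gB3q1 gB0q2 gB2q0 gB3q0 dB3q1 dB0q2 dB2q0 dB3q0 true false)) t 1 1 1 = true :=
  ⟨(T.b (T.b (T.b (T.a (T.a (T.l 204) (T.l 204)) (T.a (T.l 204) (T.l 204))) (T.a (T.a (T.l 204) (T.l 204)) (T.a (T.l 204) (T.l 204)))) (T.a (T.l 204) (T.a (T.l 204) (T.b (T.l 204) (T.l 204))))) (T.b (T.a (T.l 204) (T.b (T.l 204) (T.l 1))) (T.l 1))), by decide +kernel⟩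

def B102L_310 :
    ∃ t, chk3 (onCell 0 67108864 0 1073741824 740881858 40050571 (corW 3 c0B eng mog cB102L gB3q1 gB1q2 gB0q0 gB1q0 dB3q1 dB1q2 dB0q0 dB1q0 true true)) t 1 1 1 = true :=
  ⟨(T.b (T.l 2) (T.b (T.l 2) (T.a (T.l 0) (T.a (T.l 0) (T.b (T.l 204) (T.l 0)))))), by decide +kernel⟩

def B102L_311 :
    ∃ t, chk3 (onCell 0 67108864 0 1073741824 740881858 40050571 (corW 3 c0B eng mog cB102L gB3q1 gB1q2 gB1q0 gB2q0 dB3q1 dB1q2 dB1q0 dB2q0 true true)) t 1 1 1 = true :=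
  ⟨(T.b (T.b (T.l 2) (T.l 204)) (T.b (T.l 204) (T.b (T.l 204) (T.l 1)))), by decide +kernel⟩

def B102L_312 :
    ∃ t, chk3 (onCell 0 67108864 0 1073741824 740881858 40050571 (corW 3 c0B eng mog cB102L gB3q1 gB1q2 gB2q0 gB3q0 dB3q1 dB1q2 dB2q0 dB3q0 true false)) t 1 1 1 = true :=
  ⟨(T.b (T.b (T.a (T.l 204) (T.a (T.l 204) (T.l 204))) (T.l 204)) (T.b (T.l 204) (T.l 1))), by decide +kernel⟩

def B102L_320 :
    ∃ t, chk3 (onCell 0 67108864 0 1073741824 740881858 40050571 (corW 3 c0B eng mog cB102L gB3q1 gB2q2 gB0q0 gB1q0 dB3q1 dB2q2 dB0q0 dB1q0 true true)) t 1 1 1 = true :=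
  ⟨(T.b (T.l 2) (T.a (T.l 0) (T.b (T.l 204) (T.a (T.l 0) (T.b (T.l 204) (T.l 0)))))), by decide +kernel⟩

def B102L_321 :
    ∃ t, chk3 (onCell 0 67108864 0 1073741824 740881858 40050571 (corW 3 c0B eng mog cB102L gB3q1 gB2q2 gB1q0 gB2q0 dB3q1 dB2q2 dB1q0 dB2q0 true true)) t 1 1 1 = true :=
  ⟨(T.b (T.b (T.b (T.a (T.l 204) (T.b (T.l 2) (T.l 2))) (T.l 204)) (T.l 204)) (T.b (T.l 204) (T.b (T.l 204) (T.l 1)))), by decide +kernel⟩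

def B102L_322 :
    ∃ t, chk3 (onCell 0 67108864 0 1073741824 740881858 40050571 (corW 3 c0B eng mog cB102L gB3q1 gB2q2 gB2q0 gB3q0 dB3q1 dB2q2 dB2q0 dB3q0 true false)) t 1 1 1 = true :=
  ⟨(T.b (T.b (T.a (T.l 204) (T.a (T.l 204) (T.l 204))) (T.l 204)) (T.l 1)), by decide +kernel⟩

def B102L_400 :
    ∃ t, chk3 (onCell 0 67108864 0 1073741824 740881858 40050571 (corW 3 c0B eng mog cB102L gB4q1 gB0q2 gB0q0 gB1q0 dB4q1 dB0q2 dB0q0 dB1q0 true true)) t 1 1 1 = true :=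
  ⟨(T.b (T.l 2) (T.b (T.l 2) (T.a (T.l 0) (T.l 2)))), by decide +kernel⟩

def B102L_401 :
    ∃ t, chk3 (onCell 0 67108864 0 1073741824 740881858 40050571 (corW 3 c0B eng mog cB102L gB4q1 gB0q2 gB1q0 gB2q0 dB4q1 dB0q2 dB1q0 dB2q0 true true)) t 1 1 1 = true :=
  ⟨(T.b (T.b (T.l 2) (T.l 2)) (T.a (T.l 0) (T.b (T.b (T.l 2) (T.l 204)) (T.l 0)))), by decide +kernel⟩

def B102L_402 :
    ∃ t, chk3 (onCell 0 67108864 0 1073741824 740881858 40050571 (corW 3 c0B eng mog cB102L gB4q1 gB0q2 gB2q0 gB3q0 dB4q1 dB0q2 dB2q0 dB3q0 true false)) t 1 1 1 = true :=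
  ⟨(T.b (T.b (T.b (T.a (T.a (T.l 204) (T.l 204)) (T.a (T.l 204) (T.l 204))) (T.a (T.a (T.l 204) (T.l 204)) (T.a (T.l 204) (T.l 204)))) (T.a (T.l 204) (T.a (T.l 204) (T.b (T.l 204) (T.l 204))))) (T.b (T.a (T.l 204) (T.b (T.l 204) (T.l 204))) (T.l 1))), by decide +kernel⟩

def B102L_410 :
    ∃ t, chk3 (onCell 0 67108864 0 1073741824 740881858 40050571 (corW 3 c0B eng mog cB102L gB4q1 gB1q2 gB0q0 gB1q0 dB4q1 dB1q2 dB0q0 dB1q0 true true)) t 1 1 1 = true :=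
  ⟨(T.b (T.l 2) (T.b (T.l 2) (T.a (T.l 0) (T.l 2)))), by decide +kernel⟩

def B102L_411 :
    ∃ t, chk3 (onCell 0 67108864 0 1073741824 740881858 40050571 (corW 3 c0B eng mog cB102L gB4q1 gB1q2 gB1q0 gB2q0 dB4q1 dB1q2 dB1q0 dB2q0 true true)) t 1 1 1 = true :=
  ⟨(T.a (T.l 0) (T.b (T.b (T.l 2) (T.l 2)) (T.b (T.l 204) (T.l 0)))), by decide +kernel⟩

def B102L_412 :
    ∃ t, chk3 (onCell 0 67108864 0 1073741824 740881858 40050571 (corW 3 c0B eng mog cB102L gB4q1 gB1q2 gB2q0 gB3q0 dB4q1 dB1q2 dB2q0 dB3q0 true false)) t 1 1 1 = true :=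
  ⟨(T.a (T.b (T.l 204) (T.l 0)) (T.a (T.l 0) (T.b (T.b (T.l 204) (T.l 204)) (T.l 0)))), by decide +kernel⟩

def B102L_420 :
    ∃ t, chk3 (onCell 0 67108864 0 1073741824 740881858 40050571 (corW 3 c0B eng mog cB102L gB4q1 gB2q2 gB0q0 gB1q0 dB4q1 dB2q2 dB0q0 dB1q0 true true)) t 1 1 1 = true :=
  ⟨(T.b (T.l 2) (T.b (T.l 2) (T.a (T.l 0) (T.l 2)))), by decide +kernel⟩

def B102L_421 :
    ∃ t, chk3 (onCell 0 67108864 0 1073741824 740881858 40050571 (corW 3 c0B eng mog cB102L gB4q1 gB2q2 gB1q0 gB2q0 dB4q1 dB2q2 dB1q0 dB2q0 true true)) t 1 1 1 = true :=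
  ⟨(T.a (T.l 0) (T.a (T.l 0) (T.b (T.b (T.l 204) (T.l 204)) (T.l 0)))), by decide +kernel⟩

def B102L_422 :
    ∃ t, chk3 (onCell 0 67108864 0 1073741824 740881858 40050571 (corW 3 c0B eng mog cB102L gB4q1 gB2q2 gB2q0 gB3q0 dB4q1 dB2q2 dB2q0 dB3q0 true false)) t 1 1 1 = true :=
  ⟨(T.b (T.b (T.a (T.l 204) (T.a (T.l 204) (T.l 204))) (T.l 204)) (T.l 1)), by decide +kernel⟩

def B102L_500 :
    ∃ t, chk3 (onCell 0 67108864 0 1073741824 740881858 40050571 (corW 3 c0B eng mog cB102L gB5q1 gB0q2 gB0q0 gB1q0 dB5q1 dB0q2 dB0q0 dB1q0 true true)) t 1 1 1 = true :=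
  ⟨(T.b (T.l 2) (T.l 2)), by decide +kernel⟩

def B102L_501 :
    ∃ t, chk3 (onCell 0 67108864 0 1073741824 740881858 40050571 (corW 3 c0B eng mog cB102L gB5q1 gB0q2 gB1q0 gB2q0 dB5q1 dB0q2 dB1q0 dB2q0 true true)) t 1 1 1 = true :=
  ⟨(T.b (T.l 2) (T.b (T.b (T.l 2) (T.l 204)) (T.l 204))), by decide +kernel⟩

def B102L_502 :
    ∃ t, chk3 (onCell 0 67108864 0 1073741824 740881858 40050571 (corW 3 c0B eng mog cB102L gB5q1 gB0q2 gB2q0 gB3q0 dB5q1 dB0q2 dB2q0 dB3q0 true false)) t 1 1 1 = true :=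
  ⟨(T.b (T.b (T.b (T.a (T.a (T.l 204) (T.l 204)) (T.a (T.l 204) (T.l 204))) (T.a (T.a (T.l 204) (T.l 204)) (T.a (T.l 204) (T.l 204)))) (T.a (T.l 204) (T.a (T.l 204) (T.b (T.l 204) (T.l 204))))) (T.b (T.a (T.l 204) (T.b (T.l 204) (T.l 204))) (T.l 0))), by decide +kernel⟩

def B102L_510 :
    ∃ t, chk3 (onCell 0 67108864 0 1073741824 740881858 40050571 (corW 3 c0B eng mog cB102L gB5q1 gB1q2 gB0q0 gB1q0 dB5q1 dB1q2 dB0q0 dB1q0 true true)) t 1 1 1 = true :=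
  ⟨(T.l 2), by decide +kernel⟩

def B102L_511 :
    ∃ t, chk3 (onCell 0 67108864 0 1073741824 740881858 40050571 (corW 3 c0B eng mog cB102L gB5q1 gB1q2 gB1q0 gB2q0 dB5q1 dB1q2 dB1q0 dB2q0 true true)) t 1 1 1 = true :=
  ⟨(T.b (T.b (T.l 2) (T.l 2)) (T.l 0)), by decide +kernel⟩

def B102L_512 :
    ∃ t, chk3 (onCell 0 67108864 0 1073741824 740881858 40050571 (corW 3 c0B eng mog cB102L gB5q1 gB1q2 gB2q0 gB3q0 dB5q1 dB1q2 dB2q0 dB3q0 true false)) t 1 1 1 = true :=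
  ⟨(T.b (T.b (T.a (T.l 204) (T.a (T.l 204) (T.l 204))) (T.l 204)) (T.l 0)), by decide +kernel⟩

def B102L_520 :
    ∃ t, chk3 (onCell 0 67108864 0 1073741824 740881858 40050571 (corW 3 c0B eng mog cB102L gB5q1 gB2q2 gB0q0 gB1q0 dB5q1 dB2q2 dB0q0 dB1q0 true true)) t 1 1 1 = true :=
  ⟨(T.l 2), by decide +kernel⟩

def B102L_521 :
    ∃ t, chk3 (onCell 0 67108864 0 1073741824 740881858 40050571 (corW 3 c0B eng mog cB102L gB5q1 gB2q2 gB1q0 gB2q0 dB5q1 dB2q2 dB1q0 dB2q0 true true)) t 1 1 1 = true :=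
  ⟨(T.b (T.b (T.a (T.l 204) (T.b (T.l 2) (T.l 2))) (T.l 204)) (T.l 204)), by decide +kernel⟩

def B102L_522 :
    ∃ t, chk3 (onCell 0 67108864 0 1073741824 740881858 40050571 (corW 3 c0B eng mog cB102L gB5q1 gB2q2 gB2q0 gB3q0 dB5q1 dB2q2 dB2q0 dB3q0 true false)) t 1 1 1 = true :=
  ⟨(T.b (T.b (T.a (T.l 204) (T.a (T.l 204) (T.l 204))) (T.l 204)) (T.l 0)), by decide +kernel⟩

def B102R_050 :
    ∃ t, chk3 (onCell 0 67108864 0 1073741824 740881858 40050571 (corW 3 c0B eng mog cB102R gB0q1 gB5q2 gB0q0 gB1q0 dB0q1 dB5q2 dB0q0 dB1q0 true true)) t 1 1 1 = true :=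
  ⟨(T.l 1), by decide +kernel⟩

def B102R_051 :
    ∃ t, chk3 (onCell 0 67108864 0 1073741824 740881858 40050571 (corW 3 c0B eng mog cB102R gB0q1 gB5q2 gB1q0 gB2q0 dB0q1 dB5q2 dB1q0 dB2q0 true true)) t 1 1 1 = true :=
  ⟨(T.l 1), by decide +kernel⟩

def B102R_052 :
    ∃ t, chk3 (onCell 0 67108864 0 1073741824 740881858 40050571 (corW 3 c0B eng mog cB102R gB0q1 gB5q2 gB2q0 gB3q0 dB0q1 dB5q2 dB2q0 dB3q0 true false)) t 1 1 1 = true :=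
  ⟨(T.l 1), by decide +kernel⟩

def B202E_000 :
    ∃ t, chk3 (onCell 0 67108864 0 1073741824 740881858 40050571 (corW 3 c0B eng mog cB202E gB0q2 gB0q2 gB0q0 gB1q0 dB0q2 dB0q2 dB0q0 dB1q0 true true)) t 1 1 1 = true :=
  ⟨(T.l 1), by decide +kernel⟩

def B202E_001 :
    ∃ t, chk3 (onCell 0 67108864 0 1073741824 740881858 40050571 (corW 3 c0B eng mog cB202E gB0q2 gB0q2 gB1q0 gB2q0 dB0q2 dB0q2 dB1q0 dB2q0 true true)) t 1 1 1 = true :=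
  ⟨(T.l 1), by decide +kernel⟩

def B202E_002 :
    ∃ t, chk3 (onCell 0 67108864 0 1073741824 740881858 40050571 (corW 3 c0B eng mog cB202E gB0q2 gB0q2 gB2q0 gB3q0 dB0q2 dB0q2 dB2q0 dB3q0 true false)) t 1 1 1 = true :=
  ⟨(T.l 1), by decide +kernel⟩

def B202E_010 :
    ∃ t, chk3 (onCell 0 67108864 0 1073741824 740881858 40050571 (corW 3 c0B eng mog cB202E gB0q2 gB1q2 gB0q0 gB1q0 dB0q2 dB1q2 dB0q0 dB1q0 true true)) t 1 1 1 = true :=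
  ⟨(T.l 1), by decide +kernel⟩

def B202E_011 :
    ∃ t, chk3 (onCell 0 67108864 0 1073741824 740881858 40050571 (corW 3 c0B eng mog cB202E gB0q2 gB1q2 gB1q0 gB2q0 dB0q2 dB1q2 dB1q0 dB2q0 true true)) t 1 1 1 = true :=
  ⟨(T.l 1), by decide +kernel⟩

def B202E_012 :
    ∃ t, chk3 (onCell 0 67108864 0 1073741824 740881858 40050571 (corW 3 c0B eng mog cB202E gB0q2 gB1q2 gB2q0 gB3q0 dB0q2 dB1q2 dB2q0 dB3q0 true false)) t 1 1 1 = true :=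
  ⟨(T.l 1), by decide +kernel⟩

def B202E_020 :
    ∃ t, chk3 (onCell 0 67108864 0 1073741824 740881858 40050571 (corW 3 c0B eng mog cB202E gB0q2 gB2q2 gB0q0 gB1q0 dB0q2 dB2q2 dB0q0 dB1q0 true true)) t 1 1 1 = true :=
  ⟨(T.l 1), by decide +kernel⟩

def B202E_021 :
    ∃ t, chk3 (onCell 0 67108864 0 1073741824 740881858 40050571 (corW 3 c0B eng mog cB202E gB0q2 gB2q2 gB1q0 gB2q0 dB0q2 dB2q2 dB1q0 dB2q0 true true)) t 1 1 1 = true :=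
  ⟨(T.l 1), by decide +kernel⟩

def B202E_022 :
    ∃ t, chk3 (onCell 0 67108864 0 1073741824 740881858 40050571 (corW 3 c0B eng mog cB202E gB0q2 gB2q2 gB2q0 gB3q0 dB0q2 dB2q2 dB2q0 dB3q0 true false)) t 1 1 1 = true :=
  ⟨(T.l 1), by decide +kernel⟩

def B202E_100 :
    ∃ t, chk3 (onCell 0 67108864 0 1073741824 740881858 40050571 (corW 3 c0B eng mog cB202E gB1q2 gB0q2 gB0q0 gB1q0 dB1q2 dB0q2 dB0q0 dB1q0 true true)) t 1 1 1 = true :=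
  ⟨(T.l 1), by decide +kernel⟩

def B202E_101 :
    ∃ t, chk3 (onCell 0 67108864 0 1073741824 740881858 40050571 (corW 3 c0B eng mog cB202E gB1q2 gB0q2 gB1q0 gB2q0 dB1q2 dB0q2 dB1q0 dB2q0 true true)) t 1 1 1 = true :=
  ⟨(T.l 1), by decide +kernel⟩

def B202E_102 :
    ∃ t, chk3 (onCell 0 67108864 0 1073741824 740881858 40050571 (corW 3 c0B eng mog cB202E gB1q2 gB0q2 gB2q0 gB3q0 dB1q2 dB0q2 dB2q0 dB3q0 true false)) t 1 1 1 = true :=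
  ⟨(T.l 1), by decide +kernel⟩

def B202E_110 :
    ∃ t, chk3 (onCell 0 67108864 0 1073741824 740881858 40050571 (corW 3 c0B eng mog cB202E gB1q2 gB1q2 gB0q0 gB1q0 dB1q2 dB1q2 dB0q0 dB1q0 true true)) t 1 1 1 = true :=
  ⟨(T.l 1), by decide +kernel⟩

def B202E_111 :
    ∃ t, chk3 (onCell 0 67108864 0 1073741824 740881858 40050571 (corW 3 c0B eng mog cB202E gB1q2 gB1q2 gB1q0 gB2q0 dB1q2 dB1q2 dB1q0 dB2q0 true true)) t 1 1 1 = true :=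
  ⟨(T.l 1), by decide +kernel⟩

def B202E_112 :
    ∃ t, chk3 (onCell 0 67108864 0 1073741824 740881858 40050571 (corW 3 c0B eng mog cB202E gB1q2 gB1q2 gB2q0 gB3q0 dB1q2 dB1q2 dB2q0 dB3q0 true false)) t 1 1 1 = true :=
  ⟨(T.l 1), by decide +kernel⟩

def B202E_120 :
    ∃ t, chk3 (onCell 0 67108864 0 1073741824 740881858 40050571 (corW 3 c0B eng mog cB202E gB1q2 gB2q2 gB0q0 gB1q0 dB1q2 dB2q2 dB0q0 dB1q0 true true)) t 1 1 1 = true :=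
  ⟨(T.l 1), by decide +kernel⟩

def B202E_121 :
    ∃ t, chk3 (onCell 0 67108864 0 1073741824 740881858 40050571 (corW 3 c0B eng mog cB202E gB1q2 gB2q2 gB1q0 gB2q0 dB1q2 dB2q2 dB1q0 dB2q0 true true)) t 1 1 1 = true :=
  ⟨(T.l 1), by decide +kernel⟩

def B202E_122 :
    ∃ t, chk3 (onCell 0 67108864 0 1073741824 740881858 40050571 (corW 3 c0B eng mog cB202E gB1q2 gB2q2 gB2q0 gB3q0 dB1q2 dB2q2 dB2q0 dB3q0 true false)) t 1 1 1 = true :=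
  ⟨(T.l 1), by decide +kernel⟩

def B202E_200 :
    ∃ t, chk3 (onCell 0 67108864 0 1073741824 740881858 40050571 (corW 3 c0B eng mog cB202E gB2q2 gB0q2 gB0q0 gB1q0 dB2q2 dB0q2 dB0q0 dB1q0 true true)) t 1 1 1 = true :=
  ⟨(T.l 1), by decide +kernel⟩

def B202E_201 :
    ∃ t, chk3 (onCell 0 67108864 0 1073741824 740881858 40050571 (corW 3 c0B eng mog cB202E gB2q2 gB0q2 gB1q0 gB2q0 dB2q2 dB0q2 dB1q0 dB2q0 true true)) t 1 1 1 = true :=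
  ⟨(T.l 1), by decide +kernel⟩

def B202E_202 :
    ∃ t, chk3 (onCell 0 67108864 0 1073741824 740881858 40050571 (corW 3 c0B eng mog cB202E gB2q2 gB0q2 gB2q0 gB3q0 dB2q2 dB0q2 dB2q0 dB3q0 true false)) t 1 1 1 = true :=
  ⟨(T.l 1), by decide +kernel⟩

def B202E_210 :
    ∃ t, chk3 (onCell 0 67108864 0 1073741824 740881858 40050571 (corW 3 c0B eng mog cB202E gB2q2 gB1q2 gB0q0 gB1q0 dB2q2 dB1q2 dB0q0 dB1q0 true true)) t 1 1 1 = true :=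
  ⟨(T.l 1), by decide +kernel⟩

def B202E_211 :
    ∃ t, chk3 (onCell 0 67108864 0 1073741824 740881858 40050571 (corW 3 c0B eng mog cB202E gB2q2 gB1q2 gB1q0 gB2q0 dB2q2 dB1q2 dB1q0 dB2q0 true true)) t 1 1 1 = true :=
  ⟨(T.l 1), by decide +kernel⟩

def B202E_212 :
    ∃ t, chk3 (onCell 0 67108864 0 1073741824 740881858 40050571 (corW 3 c0B eng mog cB202E gB2q2 gB1q2 gB2q0 gB3q0 dB2q2 dB1q2 dB2q0 dB3q0 true false)) t 1 1 1 = true :=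
  ⟨(T.l 1), by decide +kernel⟩

def B202E_220 :
    ∃ t, chk3 (onCell 0 67108864 0 1073741824 740881858 40050571 (corW 3 c0B eng mog cB202E gB2q2 gB2q2 gB0q0 gB1q0 dB2q2 dB2q2 dB0q0 dB1q0 true true)) t 1 1 1 = true :=
  ⟨(T.l 1), by decide +kernel⟩

def B202E_221 :
    ∃ t, chk3 (onCell 0 67108864 0 1073741824 740881858 40050571 (corW 3 c0B eng mog cB202E gB2q2 gB2q2 gB1q0 gB2q0 dB2q2 dB2q2 dB1q0 dB2q0 true true)) t 1 1 1 = true :=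
  ⟨(T.l 1), by decide +kernel⟩

def B202E_222 :
    ∃ t, chk3 (onCell 0 67108864 0 1073741824 740881858 40050571 (corW 3 c0B eng mog cB202E gB2q2 gB2q2 gB2q0 gB3q0 dB2q2 dB2q2 dB2q0 dB3q0 true false)) t 1 1 1 = true :=
  ⟨(T.l 1), by decide +kernel⟩

def B202L_500 :
    ∃ t, chk3 (onCell 0 67108864 0 1073741824 740881858 40050571 (corW 3 c0B eng mog cB202L gB5q2 gB0q2 gB0q0 gB1q0 dB5q2 dB0q2 dB0q0 dB1q0 true true)) t 1 1 1 = true :=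
  ⟨(T.l 2), by decide +kernel⟩

def B202L_501 :
    ∃ t, chk3 (onCell 0 67108864 0 1073741824 740881858 40050571 (corW 3 c0B eng mog cB202L gB5q2 gB0q2 gB1q0 gB2q0 dB5q2 dB0q2 dB1q0 dB2q0 true true)) t 1 1 1 = true :=
  ⟨(T.l 2), by decide +kernel⟩

def B202L_502 :
    ∃ t, chk3 (onCell 0 67108864 0 1073741824 740881858 40050571 (corW 3 c0B eng mog cB202L gB5q2 gB0q2 gB2q0 gB3q0 dB5q2 dB0q2 dB2q0 dB3q0 true false)) t 1 1 1 = true :=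
  ⟨(T.a (T.a (T.l 204) (T.l 204)) (T.a (T.l 204) (T.l 204))), by decide +kernel⟩

def B202L_510 :
    ∃ t, chk3 (onCell 0 67108864 0 1073741824 740881858 40050571 (corW 3 c0B eng mog cB202L gB5q2 gB1q2 gB0q0 gB1q0 dB5q2 dB1q2 dB0q0 dB1q0 true true)) t 1 1 1 = true :=
  ⟨(T.l 2), by decide +kernel⟩

def B202L_511 :
    ∃ t, chk3 (onCell 0 67108864 0 1073741824 740881858 40050571 (corW 3 c0B eng mog cB202L gB5q2 gB1q2 gB1q0 gB2q0 dB5q2 dB1q2 dB1q0 dB2q0 true true)) t 1 1 1 = true :=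
  ⟨(T.l 2), by decide +kernel⟩

def B202L_512 :
    ∃ t, chk3 (onCell 0 67108864 0 1073741824 740881858 40050571 (corW 3 c0B eng mog cB202L gB5q2 gB1q2 gB2q0 gB3q0 dB5q2 dB1q2 dB2q0 dB3q0 true false)) t 1 1 1 = true :=
  ⟨(T.a (T.l 0) (T.b (T.l 204) (T.l 0))), by decide +kernel⟩

def B202L_520 :
    ∃ t, chk3 (onCell 0 67108864 0 1073741824 740881858 40050571 (corW 3 c0B eng mog cB202L gB5q2 gB2q2 gB0q0 gB1q0 dB5q2 dB2q2 dB0q0 dB1q0 true true)) t 1 1 1 = true :=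
  ⟨(T.l 2), by decide +kernel⟩

def B202L_521 :
    ∃ t, chk3 (onCell 0 67108864 0 1073741824 740881858 40050571 (corW 3 c0B eng mog cB202L gB5q2 gB2q2 gB1q0 gB2q0 dB5q2 dB2q2 dB1q0 dB2q0 true true)) t 1 1 1 = true :=
  ⟨(T.a (T.l 0) (T.l 2)), by decide +kernel⟩

def B202L_522 :
    ∃ t, chk3 (onCell 0 67108864 0 1073741824 740881858 40050571 (corW 3 c0B eng mog cB202L gB5q2 gB2q2 gB2q0 gB3q0 dB5q2 dB2q2 dB2q0 dB3q0 true false)) t 1 1 1 = true :=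
  ⟨(T.a (T.l 0) (T.b (T.l 204) (T.l 0))), by decide +kernel⟩

def B202R_050_1_4_1 :
    ∃ t, chk3 (onCell 0 67108864 0 1073741824 740881858 40050571 (corW 3 c0B eng mog cB202R gB0q2 gB5q2 gB0q0 gB1q0 dB0q2 dB5q2 dB0q0 dB1q0 true true)) t 1 4 1 = true :=
  ⟨(T.l 1), by decide +kernel⟩

def B202R_050_1_20_1 :
    ∃ t, chk3 (onCell 0 67108864 0 1073741824 740881858 40050571 (corW 3 c0B eng mog cB202R gB0q2 gB5q2 gB0q0 gB1q0 dB0q2 dB5q2 dB0q0 dB1q0 true true)) t 1 20 1 = true :=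
  ⟨(T.l 1), by decide +kernel⟩

def B202R_050_1_84_1 :
    ∃ t, chk3 (onCell 0 67108864 0 1073741824 740881858 40050571 (corW 3 c0B eng mog cB202R gB0q2 gB5q2 gB0q0 gB1q0 dB0q2 dB5q2 dB0q0 dB1q0 true true)) t 1 84 1 = true :=
  ⟨(T.a (T.l 1) (T.b (T.l 1) (T.b (T.l 1) (T.b (T.l 1) (T.a (T.a (T.l 1) (T.a (T.l 1) (T.a (T.l 1) (T.a (T.l 1) (T.b (T.l 1) (T.b (T.l 1) (T.c (T.l 0) (T.l 0)))))))) (T.a (T.b (T.a (T.l 1) (T.a (T.l 1) (T.a (T.l 1) (T.a (T.l 1) (T.b (T.l 1) (T.l 0)))))) (T.a (T.b (T.a (T.l 1) (T.b (T.l 1) (T.l 0))) (T.c (T.l 0) (T.l 0))) (T.c (T.l 0) (T.l 0)))) (T.b (T.a (T.b (T.l 1) (T.c (T.l 0) (T.l 0))) (T.c (T.l 0) (T.c (T.l 0) (T.l 0)))) (T.c (T.l 0) (T.l 0))))))))), by decide +kernel⟩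

def B202R_050_2_170_1 :
    ∃ t, chk3 (onCell 0 67108864 0 1073741824 740881858 40050571 (corW 3 c0B eng mog cB202R gB0q2 gB5q2 gB0q0 gB1q0 dB0q2 dB5q2 dB0q0 dB1q0 true true)) t 2 170 1 = true :=
  ⟨(T.b (T.a (T.a (T.l 1) (T.b (T.l 1) (T.b (T.l 1) (T.b (T.l 1) (T.a (T.a (T.l 1) (T.a (T.l 1) (T.a (T.l 1) (T.b (T.l 1) (T.l 0))))) (T.c (T.c (T.l 0) (T.l 0)) (T.a (T.b (T.l 1) (T.l 0)) (T.l 0)))))))) (T.b (T.a (T.l 1) (T.a (T.l 1) (T.b (T.l 1) (T.b (T.l 1) (T.c (T.c (T.l 0) (T.l 0)) (T.a (T.a (T.l 1) (T.b (T.l 1) (T.l 0))) (T.c (T.l 0) (T.l 0)))))))) (T.a (T.b (T.a (T.l 1) (T.b (T.l 1) (T.c (T.c (T.l 0) (T.l 0)) (T.a (T.b (T.l 1) (T.l 0)) (T.l 0))))) (T.a (T.b (T.c (T.c (T.l 0) (T.l 0)) (T.a (T.b (T.l 1) (T.l 0)) (T.l 0))) (T.l 0)) (T.c (T.l 0) (T.l 0)))) (T.a (T.b (T.b (T.c (T.c (T.l 0) (T.l 0)) (T.a (T.b (T.l 1) (T.l 0)) (T.c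 (T.l 0) (T.l 0)))) (T.c (T.l 0) (T.l 0))) (T.l 0)) (T.c (T.l 0) (T.l 0)))))) (T.a (T.a (T.b (T.b (T.a (T.a (T.l 1) (T.b (T.l 1) (T.b (T.l 1) (T.c (T.l 0) (T.b (T.l 1) (T.l 0)))))) (T.b (T.a (T.l 1) (T.a (T.l 1) (T.b (T.l 1) (T.c (T.l 0) (T.l 0))))) (T.a (T.c (T.l 0) (T.c (T.l 0) (T.a (T.b (T.l 1) (T.l 0)) (T.l 0)))) (T.l 0)))) (T.a (T.a (T.c (T.l 0) (T.c (T.l 0) (T.c (T.l 0) (T.c (T.l 0) (T.a (T.l 0) (T.l 0)))))) (T.l 0)) (T.l 0))) (T.c (T.l 0) (T.l 0))) (T.b (T.a (T.b (T.b (T.c (T.c (T.l 0) (T.l 0)) (T.a (T.b (T.a (T.l 1) (T.l 0)) (T.l 0)) (T.l 0))) (T.l 0)) (T.l 0)) (T.c (T.l 0) (T.l 0))) (T.l 0))) (T.c (T.l 0) (T.a (T.l 0) (T.l 0))))), by decide +kernel⟩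

def B202R_050_3_170_1 :
    ∃ t, chk3 (onCell 0 67108864 0 1073741824 740881858 40050571 (corW 3 c0B eng mog cB202R gB0q2 gB5q2 gB0q0 gB1q0 dB0q2 dB5q2 dB0q0 dB1q0 true true)) t 3 170 1 = true :=
  ⟨(T.a (T.b (T.b (T.a (T.b (T.a (T.l 1) (T.a (T.l 1) (T.b (T.l 1) (T.b (T.l 1) (T.l 0))))) (T.a (T.b (T.a (T.l 1) (T.b (T.l 1) (T.l 0))) (T.c (T.l 0) (T.l 0))) (T.c (T.l 0) (T.l 0)))) (T.c (T.c (T.l 0) (T.a (T.c (T.l 0) (T.l 0)) (T.l 0))) (T.a (T.b (T.b (T.a (T.l 1) (T.b (T.l 1) (T.l 0))) (T.l 0)) (T.l 0)) (T.l 0)))) (T.c (T.l 0) (T.a (T.l 0) (T.l 204)))) (T.c (T.l 0) (T.l 0))) (T.c (T.l 0) (T.a (T.l 0) (T.l 0)))), by decide +kernel⟩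

def B202R_050_1_171_1 :
    ∃ t, chk3 (onCell 0 67108864 0 1073741824 740881858 40050571 (corW 3 c0B eng mog cB202R gB0q2 gB5q2 gB0q0 gB1q0 dB0q2 dB5q2 dB0q0 dB1q0 true true)) t 1 171 1 = true :=
  ⟨(T.a (T.a (T.c (T.l 0) (T.l 0)) (T.l 0)) (T.a (T.l 204) (T.l 204))), by decide +kernel⟩

def B202R_050_1_43_1 :
    ∃ t, chk3 (onCell 0 67108864 0 1073741824 740881858 40050571 (corW 3 c0B eng mog cB202R gB0q2 gB5q2 gB0q0 gB1q0 dB0q2 dB5q2 dB0q0 dB1q0 true true)) t 1 43 1 = true :=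
  ⟨(T.a (T.a (T.l 0) (T.l 0)) (T.l 0)), by decide +kernel⟩

def B202R_050_1_11_1 :
    ∃ t, chk3 (onCell 0 67108864 0 1073741824 740881858 40050571 (corW 3 c0B eng mog cB202R gB0q2 gB5q2 gB0q0 gB1q0 dB0q2 dB5q2 dB0q0 dB1q0 true true)) t 1 11 1 = true :=
  ⟨(T.a (T.b (T.l 0) (T.l 204)) (T.a (T.l 0) (T.b (T.l 204) (T.l 2)))), by decide +kernel⟩

def B202R_050_1_3_1 :
    ∃ t, chk3 (onCell 0 67108864 0 1073741824 740881858 40050571 (corW 3 c0B eng mog cB202R gB0q2 gB5q2 gB0q0 gB1q0 dB0q2 dB5q2 dB0q0 dB1q0 true true)) t 1 3 1 = true :=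
  ⟨(T.b (T.l 2) (T.l 2)), by decide +kernel⟩

theorem B202R_050_1_170_1 :
    ∃ t, chk3 (onCell 0 67108864 0 1073741824 740881858 40050571 (corW 3 c0B eng mog cB202R gB0q2 gB5q2 gB0q0 gB1q0 dB0q2 dB5q2 dB0q0 dB1q0 true true)) t 1 170 1 = true :=
  ex3_a B202R_050_2_170_1 B202R_050_3_170_1
theorem B202R_050_1_85_1 :
    ∃ t, chk3 (onCell 0 67108864 0 1073741824 740881858 40050571 (corW 3 c0B eng mog cB202R gB0q2 gB5q2 gB0q0 gB1q0 dB0q2 dB5q2 dB0q0 dB1q0 true true)) t 1 85 1 = true :=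
  ex3_b B202R_050_1_170_1 B202R_050_1_171_1
theorem B202R_050_1_42_1 :
    ∃ t, chk3 (onCell 0 67108864 0 1073741824 740881858 40050571 (corW 3 c0B eng mog cB202R gB0q2 gB5q2 gB0q0 gB1q0 dB0q2 dB5q2 dB0q0 dB1q0 true true)) t 1 42 1 = true :=
  ex3_b B202R_050_1_84_1 B202R_050_1_85_1
theorem B202R_050_1_21_1 :
    ∃ t, chk3 (onCell 0 67108864 0 1073741824 740881858 40050571 (corW 3 c0B eng mog cB202R gB0q2 gB5q2 gB0q0 gB1q0 dB0q2 dB5q2 dB0q0 dB1q0 true true)) t 1 21 1 = true :=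
  ex3_b B202R_050_1_42_1 B202R_050_1_43_1
theorem B202R_050_1_10_1 :
    ∃ t, chk3 (onCell 0 67108864 0 1073741824 740881858 40050571 (corW 3 c0B eng mog cB202R gB0q2 gB5q2 gB0q0 gB1q0 dB0q2 dB5q2 dB0q0 dB1q0 true true)) t 1 10 1 = true :=
  ex3_b B202R_050_1_20_1 B202R_050_1_21_1
theorem B202R_050_1_5_1 :
    ∃ t, chk3 (onCell 0 67108864 0 1073741824 740881858 40050571 (corW 3 c0B eng mog cB202R gB0q2 gB5q2 gB0q0 gB1q0 dB0q2 dB5q2 dB0q0 dB1q0 true true)) t 1 5 1 = true :=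
  ex3_b B202R_050_1_10_1 B202R_050_1_11_1
theorem B202R_050_1_2_1 :
    ∃ t, chk3 (onCell 0 67108864 0 1073741824 740881858 40050571 (corW 3 c0B eng mog cB202R gB0q2 gB5q2 gB0q0 gB1q0 dB0q2 dB5q2 dB0q0 dB1q0 true true)) t 1 2 1 = true :=
  ex3_b B202R_050_1_4_1 B202R_050_1_5_1
theorem B202R_050 :
    ∃ t, chk3 (onCell 0 67108864 0 1073741824 740881858 40050571 (corW 3 c0B eng mog cB202R gB0q2 gB5q2 gB0q0 gB1q0 dB0q2 dB5q2 dB0q0 dB1q0 true true)) t 1 1 1 = true :=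
  ex3_b B202R_050_1_2_1 B202R_050_1_3_1

def B202R_051 :
    ∃ t, chk3 (onCell 0 67108864 0 1073741824 740881858 40050571 (corW 3 c0B eng mog cB202R gB0q2 gB5q2 gB1q0 gB2q0 dB0q2 dB5q2 dB1q0 dB2q0 true true)) t 1 1 1 = true :=
  ⟨(T.b (T.b (T.l 1) (T.b (T.l 1) (T.a (T.b (T.l 0) (T.l 204)) (T.a (T.l 0) (T.b (T.l 204) (T.l 204)))))) (T.b (T.a (T.l 0) (T.b (T.b (T.l 204) (T.l 2)) (T.l 2))) (T.l 2))), by decide +kernel⟩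

def B202R_052 :
    ∃ t, chk3 (onCell 0 67108864 0 1073741824 740881858 40050571 (corW 3 c0B eng mog cB202R gB0q2 gB5q2 gB2q0 gB3q0 dB0q2 dB5q2 dB2q0 dB3q0 true false)) t 1 1 1 = true :=
  ⟨(T.b (T.l 1) (T.b (T.a (T.l 0) (T.a (T.b (T.l 204) (T.l 204)) (T.b (T.b (T.l 204) (T.l 204)) (T.l 0)))) (T.b (T.a (T.a (T.l 204) (T.l 204)) (T.a (T.l 0) (T.l 204))) (T.a (T.a (T.l 204) (T.l 204)) (T.a (T.l 0) (T.l 204)))))), by decide +kernel⟩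

def B202R_150 :
    ∃ t, chk3 (onCell 0 67108864 0 1073741824 740881858 40050571 (corW 3 c0B eng mog cB202R gB1q2 gB5q2 gB0q0 gB1q0 dB1q2 dB5q2 dB0q0 dB1q0 true true)) t 1 1 1 = true :=
  ⟨(T.b (T.b (T.l 1) (T.b (T.l 1) (T.b (T.b (T.a (T.l 1) (T.a (T.l 1) (T.b (T.l 1) (T.l 0)))) (T.a (T.l 0) (T.l 0))) (T.l 0)))) (T.b (T.b (T.l 0) (T.l 2)) (T.l 2))), by decide +kernel⟩

def B202R_151 :
    ∃ t, chk3 (onCell 0 67108864 0 1073741824 740881858 40050571 (corW 3 c0B eng mog cB202R gB1q2 gB5q2 gB1q0 gB2q0 dB1q2 dB5q2 dB1q0 dB2q0 true true)) t 1 1 1 = true :=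
  ⟨(T.b (T.b (T.l 1) (T.l 1)) (T.b (T.b (T.l 0) (T.l 204)) (T.l 2))), by decide +kernel⟩

def B202R_152 :
    ∃ t, chk3 (onCell 0 67108864 0 1073741824 740881858 40050571 (corW 3 c0B eng mog cB202R gB1q2 gB5q2 gB2q0 gB3q0 dB1q2 dB5q2 dB2q0 dB3q0 true false)) t 1 1 1 = true :=
  ⟨(T.b (T.l 1) (T.b (T.b (T.a (T.l 0) (T.l 0)) (T.l 0)) (T.b (T.l 204) (T.a (T.l 204) (T.b (T.l 204) (T.l 0)))))), by decide +kernel⟩

def B202R_250 :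
    ∃ t, chk3 (onCell 0 67108864 0 1073741824 740881858 40050571 (corW 3 c0B eng mog cB202R gB2q2 gB5q2 gB0q0 gB1q0 dB2q2 dB5q2 dB0q0 dB1q0 true true)) t 1 1 1 = true :=
  ⟨(T.b (T.l 1) (T.b (T.b (T.l 1) (T.l 816)) (T.b (T.l 816) (T.l 2)))), by decide +kernel⟩

def B202R_251 :
    ∃ t, chk3 (onCell 0 67108864 0 1073741824 740881858 40050571 (corW 3 c0B eng mog cB202R gB2q2 gB5q2 gB1q0 gB2q0 dB2q2 dB5q2 dB1q0 dB2q0 true true)) t 1 1 1 = true :=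
  ⟨(T.b (T.l 1) (T.b (T.b (T.l 1) (T.l 816)) (T.b (T.l 816) (T.l 2)))), by decide +kernel⟩

def B202R_252 :
    ∃ t, chk3 (onCell 0 67108864 0 1073741824 740881858 40050571 (corW 3 c0B eng mog cB202R gB2q2 gB5q2 gB2q0 gB3q0 dB2q2 dB5q2 dB2q0 dB3q0 true false)) t 1 1 1 = true :=
  ⟨(T.b (T.l 1) (T.b (T.l 1) (T.b (T.l 0) (T.a (T.l 0) (T.b (T.l 0) (T.l 0)))))), by decide +kernel⟩

end Pool.Agent.Strip051.G.I69_7273.Tab.CW
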