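import Pool.Agent.Strip051.G.I69_7273.CrnB
import Pool.Agent.Strip051.G.I69_7273.CG_0
import Pool.Agent.Strip051.G.I69_7273.CG_1
import Pool.Agent.Strip051.G.I69_7273.CW_0
import Pool.Agent.Strip051.G.I69_7273.CW_1

/-! # Aligned corners: the alternatives (generated) -/

set_option linter.all false

namespace Pool.Agent.Strip051.G.I69_7273.Tab

open Pool.Agent.Strip051.PB Pool.Agent.StripNear Pool.Agent.Strip051.LC

theorem altB_A202R_22 {κ x : ℝ} (hκ : κ * h0 = ken x) (hx : ((740881858 : ℕ) : ℝ) / S ≤ x) (hx' : x ≤ (((740881858 : ℕ) : ℝ) + (40050571 : ℕ)) / S) :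
    AltEA 3 κ (eng.v x) (1 / 20) (tnt (h0 * x) (1 / 5)) PP tK tL tC pcB (scP esg pd) [⟨0, 1, 0, 67108864⟩, ⟨1, 0, 0, 67108864⟩, ⟨2, 1, 0, 67108864⟩] 2 0 2 2 2 (sgb false) (sgb false) x := by
  have X : XR 67108864 x := XR.of hx hx' (by norm_num) (by norm_num) (by norm_num) (by norm_num)
  have hen : 0 < eng.v x := en_pos X.x0.le
  refine CornW.altA (C := cA202R) (j := (2 : Fin 6)) (k := (2 : Fin 6)) (Ef := esg) (pd := pd) (o := 1 / 20)
    (cornW_of (C := cA202R) (C0 := c0B) (En := eng) (mo := mog) (j := (2 : Fin 6)) (k := (2 : Fin 6)) (lo := 5) (hi := 5) (W := 67108864) (N0 := 3) cA202R_q (sideB hx hx') gokB (pinU hx hx') dokB X (by norm_num) (by norm_num) (l := (5 : Fin 6)) rfl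
      (gatB22 x) (gatB20 x) (gatB52 x) (datB22 x) (datB20 x) (datB52 x) ?_)
    (cornS_of (C := cA202R) (C0 := c0B) (j := (2 : Fin 6)) (k := (2 : Fin 6)) (lo := 5) (hi := 5) (W := 67108864) (N0 := 3) cA202R_q (sideB hx hx') gokB X (by norm_num) (by norm_num) (l := (5 : Fin 6)) rfl
      (gatB22 x) (gatB20 x) (gatB52 x) ?_)
    (thU (pinU hx hx')) rfl hκ (fun j q y => tC_eq j q y x) (esg_rng X.x0.le (by linarith [X.b, X.p0])).1 (mo_v x) le_rfl le_rfl
  · intro ρ a B hρ hd i h1 h2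
    fin_cases i
    · exact absurd h1 (by norm_num)
    · exact absurd h1 (by norm_num)
    · exact absurd h1 (by norm_num)
    · exact absurd h1 (by norm_num)
    · exact corW_cert (G1 := gB2q2) (G2 := gB2q0) (Ga := gB4q2) (Gb := gB5q2) (D1 := dB2q2) (D2 := dB2q0) (Da := dB4q2) (Db := dB5q2) cA202R_ok B hρ hen (gatB22 x) (gatB20 x) (fun h => absurd h (by decide)) (fun _ => gatB52 x) (datB22 x) (datB20 x) (fun h => absurd h (by decide)) (fun _ => datB52 x) hd hx hx' CW.A202R_224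
  · intro ρ a B hρ hd i h1 h2
    fin_cases i
    · exact absurd h1 (by norm_num)
    · exact absurd h1 (by norm_num)
    · exact absurd h1 (by norm_num)
    · exact absurd h1 (by norm_num)
    · exact corT_cert (G1 := gB2q2) (G2 := gB2q0) (Ga := gB4q2) (Gb := gB5q2) cA202R_ok B hρ (gatB22 x) (gatB20 x) (fun h => absurd h (by decide)) (fun _ => gatB52 x) hd hx hx' CG.A202R_224

theorem altB_B011E_00 {κ x : ℝ} (hκ : κ * h0 = ken x) (hx : ((740881858 : ℕ) : ℝ) / S ≤ x) (hx' : x ≤ (((740881858 : ℕ) : ℝ) + (40050571 : ℕ)) / S) :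
    AltEB 3 κ (eng.v x) (1 / 20) (tnt (h0 * x) (1 / 5)) PP tK tL tC pcB (scP esg pd) [⟨0, 0, 0, 67108864⟩, ⟨1, 1, 0, 67108864⟩, ⟨2, 1, 0, 67108864⟩] 0 1 1 0 0 (sgb true) (sgb true) x := by
  have X : XR 67108864 x := XR.of hx hx' (by norm_num) (by norm_num) (by norm_num) (by norm_num)
  have hen : 0 < eng.v x := en_pos X.x0.le
  refine CornW.altB (C := cB011E) (j := (0 : Fin 6)) (k := (0 : Fin 6)) (Ef := esg) (pd := pd) (o := 1 / 20)
    (cornW_of (C := cB011E) (C0 := c0B) (En := eng) (mo := mog) (j := (0 : Fin 6)) (k := (0 : Fin 6)) (lo := 0) (hi := 0) (W := 67108864) (N0 := 3) cB011E_q (sideB hx hx') gokB (pinU hx hx') dokB X (by norm_num) (by norm_num) (l := (0 : Fin 6)) rfl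
      (gatB00 x) (gatB01 x) (gatB01 x) (datB00 x) (datB01 x) (datB01 x) ?_)
    (cornS_of (C := cB011E) (C0 := c0B) (j := (0 : Fin 6)) (k := (0 : Fin 6)) (lo := 0) (hi := 0) (W := 67108864) (N0 := 3) cB011E_q (sideB hx hx') gokB X (by norm_num) (by norm_num) (l := (0 : Fin 6)) rfl
      (gatB00 x) (gatB01 x) (gatB01 x) ?_)
    (thU (pinU hx hx')) rfl hκ (fun j q y => tC_eq j q y x) (esg_rng X.x0.le (by linarith [X.b, X.p0])).1 (mo_v x) le_rfl le_rfl
  · intro ρ a B hρ hd i h1 h2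
    fin_cases i
    · exact corW_cert (G1 := gB0q0) (G2 := gB0q1) (Ga := gB0q1) (Gb := gB1q1) (D1 := dB0q0) (D2 := dB0q1) (Da := dB0q1) (Db := dB1q1) cB011E_ok B hρ hen (gatB00 x) (gatB01 x) (fun _ => gatB01 x) (fun h => absurd h (by decide)) (datB00 x) (datB01 x) (fun _ => datB01 x) (fun h => absurd h (by decide)) hd hx hx' CW.B011E_000
    · exact absurd h2 (by norm_num)
    · exact absurd h2 (by norm_num)
    · exact absurd h2 (by norm_num)
    · exact absurd h2 (by norm_num)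
  · intro ρ a B hρ hd i h1 h2
    fin_cases i
    · exact corT_cert (G1 := gB0q0) (G2 := gB0q1) (Ga := gB0q1) (Gb := gB1q1) cB011E_ok B hρ (gatB00 x) (gatB01 x) (fun _ => gatB01 x) (fun h => absurd h (by decide)) hd hx hx' CG.B011E_000
    · exact absurd h2 (by norm_num)
    · exact absurd h2 (by norm_num)
    · exact absurd h2 (by norm_num)
    · exact absurd h2 (by norm_num)

theorem altB_B011E_10 {κ x : ℝ} (hκ : κ * h0 = ken x) (hx : ((740881858 : ℕ) : ℝ) / S ≤ x) (hx' : x ≤ (((740881858 : ℕ) : ℝ) + (40050571 : ℕ)) / S) :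
    AltEB 3 κ (eng.v x) (1 / 20) (tnt (h0 * x) (1 / 5)) PP tK tL tC pcB (scP esg pd) [⟨0, 0, 0, 67108864⟩, ⟨1, 1, 0, 67108864⟩, ⟨2, 1, 0, 67108864⟩] 0 1 1 1 0 (sgb true) (sgb true) x := by
  have X : XR 67108864 x := XR.of hx hx' (by norm_num) (by norm_num) (by norm_num) (by norm_num)
  have hen : 0 < eng.v x := en_pos X.x0.le
  refine CornW.altB (C := cB011E) (j := (1 : Fin 6)) (k := (0 : Fin 6)) (Ef := esg) (pd := pd) (o := 1 / 20)
    (cornW_of (C := cB011E) (C0 := c0B) (En := eng) (mo := mog) (j := (1 : Fin 6)) (k := (0 : Fin 6)) (lo := 0) (hi := 0) (W := 67108864) (N0 := 3) cB011E_q (sideB hx hx') gokB (pinU hx hx') dokB X (by norm_num) (by norm_num) (l := (0 : Fin 6)) rfl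
      (gatB10 x) (gatB01 x) (gatB01 x) (datB10 x) (datB01 x) (datB01 x) ?_)
    (cornS_of (C := cB011E) (C0 := c0B) (j := (1 : Fin 6)) (k := (0 : Fin 6)) (lo := 0) (hi := 0) (W := 67108864) (N0 := 3) cB011E_q (sideB hx hx') gokB X (by norm_num) (by norm_num) (l := (0 : Fin 6)) rfl
      (gatB10 x) (gatB01 x) (gatB01 x) ?_)
    (thU (pinU hx hx')) rfl hκ (fun j q y => tC_eq j q y x) (esg_rng X.x0.le (by linarith [X.b, X.p0])).1 (mo_v x) le_rfl le_rfl
  · intro ρ a B hρ hd i h1 h2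
    fin_cases i
    · exact corW_cert (G1 := gB1q0) (G2 := gB0q1) (Ga := gB0q1) (Gb := gB1q1) (D1 := dB1q0) (D2 := dB0q1) (Da := dB0q1) (Db := dB1q1) cB011E_ok B hρ hen (gatB10 x) (gatB01 x) (fun _ => gatB01 x) (fun h => absurd h (by decide)) (datB10 x) (datB01 x) (fun _ => datB01 x) (fun h => absurd h (by decide)) hd hx hx' CW.B011E_100
    · exact absurd h2 (by norm_num)
    · exact absurd h2 (by norm_num)
    · exact absurd h2 (by norm_num)
    · exact absurd h2 (by norm_num)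
  · intro ρ a B hρ hd i h1 h2
    fin_cases i
    · exact corT_cert (G1 := gB1q0) (G2 := gB0q1) (Ga := gB0q1) (Gb := gB1q1) cB011E_ok B hρ (gatB10 x) (gatB01 x) (fun _ => gatB01 x) (fun h => absurd h (by decide)) hd hx hx' CG.B011E_100
    · exact absurd h2 (by norm_num)
    · exact absurd h2 (by norm_num)
    · exact absurd h2 (by norm_num)
    · exact absurd h2 (by norm_num)

theorem altB_B011E_20 {κ x : ℝ} (hκ : κ * h0 = ken x) (hx : ((740881858 : ℕ) : ℝ) / S ≤ x) (hx' : x ≤ (((740881858 : ℕ) : ℝ) + (40050571 : ℕ)) / S) :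
    AltEB 3 κ (eng.v x) (1 / 20) (tnt (h0 * x) (1 / 5)) PP tK tL tC pcB (scP esg pd) [⟨0, 0, 0, 67108864⟩, ⟨1, 1, 0, 67108864⟩, ⟨2, 1, 0, 67108864⟩] 0 1 1 2 0 (sgb true) (sgb true) x := by
  have X : XR 67108864 x := XR.of hx hx' (by norm_num) (by norm_num) (by norm_num) (by norm_num)
  have hen : 0 < eng.v x := en_pos X.x0.le
  refine CornW.altB (C := cB011E) (j := (2 : Fin 6)) (k := (0 : Fin 6)) (Ef := esg) (pd := pd) (o := 1 / 20)
    (cornW_of (C := cB011E) (C0 := c0B) (En := eng) (mo := mog) (j := (2 : Fin 6)) (k := (0 : Fin 6)) (lo := 0) (hi := 0) (W := 67108864) (N0 := 3) cB011E_q (sideB hx hx') gokB (pinU hx hx') dokB X (by norm_num) (by norm_num) (l := (0 : Fin 6)) rfl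
      (gatB20 x) (gatB01 x) (gatB01 x) (datB20 x) (datB01 x) (datB01 x) ?_)
    (cornS_of (C := cB011E) (C0 := c0B) (j := (2 : Fin 6)) (k := (0 : Fin 6)) (lo := 0) (hi := 0) (W := 67108864) (N0 := 3) cB011E_q (sideB hx hx') gokB X (by norm_num) (by norm_num) (l := (0 : Fin 6)) rfl
      (gatB20 x) (gatB01 x) (gatB01 x) ?_)
    (thU (pinU hx hx')) rfl hκ (fun j q y => tC_eq j q y x) (esg_rng X.x0.le (by linarith [X.b, X.p0])).1 (mo_v x) le_rfl le_rfl
  · intro ρ a B hρ hd i h1 h2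
    fin_cases i
    · exact corW_cert (G1 := gB2q0) (G2 := gB0q1) (Ga := gB0q1) (Gb := gB1q1) (D1 := dB2q0) (D2 := dB0q1) (Da := dB0q1) (Db := dB1q1) cB011E_ok B hρ hen (gatB20 x) (gatB01 x) (fun _ => gatB01 x) (fun h => absurd h (by decide)) (datB20 x) (datB01 x) (fun _ => datB01 x) (fun h => absurd h (by decide)) hd hx hx' CW.B011E_200
    · exact absurd h2 (by norm_num)
    · exact absurd h2 (by norm_num)
    · exact absurd h2 (by norm_num)
    · exact absurd h2 (by norm_num)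
  · intro ρ a B hρ hd i h1 h2
    fin_cases i
    · exact corT_cert (G1 := gB2q0) (G2 := gB0q1) (Ga := gB0q1) (Gb := gB1q1) cB011E_ok B hρ (gatB20 x) (gatB01 x) (fun _ => gatB01 x) (fun h => absurd h (by decide)) hd hx hx' CG.B011E_200
    · exact absurd h2 (by norm_num)
    · exact absurd h2 (by norm_num)
    · exact absurd h2 (by norm_num)
    · exact absurd h2 (by norm_num)

theorem altB_B011L_03 {κ x : ℝ} (hκ : κ * h0 = ken x) (hx : ((740881858 : ℕ) : ℝ) / S ≤ x) (hx' : x ≤ (((740881858 : ℕ) : ℝ) + (40050571 : ℕ)) / S) :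
    AltEB 3 κ (eng.v x) (1 / 20) (tnt (h0 * x) (1 / 5)) PP tK tL tC pcB (scP esg pd) [⟨0, 0, 0, 67108864⟩, ⟨1, 1, 0, 67108864⟩, ⟨2, 1, 0, 67108864⟩] 0 1 1 0 3 (sgb true) (sgb true) x := by
  have X : XR 67108864 x := XR.of hx hx' (by norm_num) (by norm_num) (by norm_num) (by norm_num)
  have hen : 0 < eng.v x := en_pos X.x0.le
  refine CornW.altB (C := cB011L) (j := (0 : Fin 6)) (k := (3 : Fin 6)) (Ef := esg) (pd := pd) (o := 1 / 20)
    (cornW_of (C := cB011L) (C0 := c0B) (En := eng) (mo := mog) (j := (0 : Fin 6)) (k := (3 : Fin 6)) (lo := 0) (hi := 0) (W := 67108864) (N0 := 3) cB011L_q (sideB hx hx') gokB (pinU hx hx') dokB X (by norm_num) (by norm_num) (l := (0 : Fin 6)) rfl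
      (gatB00 x) (gatB31 x) (gatB01 x) (datB00 x) (datB31 x) (datB01 x) ?_)
    (cornS_of (C := cB011L) (C0 := c0B) (j := (0 : Fin 6)) (k := (3 : Fin 6)) (lo := 0) (hi := 0) (W := 67108864) (N0 := 3) cB011L_q (sideB hx hx') gokB X (by norm_num) (by norm_num) (l := (0 : Fin 6)) rfl
      (gatB00 x) (gatB31 x) (gatB01 x) ?_)
    (thU (pinU hx hx')) rfl hκ (fun j q y => tC_eq j q y x) (esg_rng X.x0.le (by linarith [X.b, X.p0])).1 (mo_v x) le_rfl le_rfl
  · intro ρ a B hρ hd i h1 h2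
    fin_cases i
    · exact corW_cert (G1 := gB0q0) (G2 := gB3q1) (Ga := gB0q1) (Gb := gB1q1) (D1 := dB0q0) (D2 := dB3q1) (Da := dB0q1) (Db := dB1q1) cB011L_ok B hρ hen (gatB00 x) (gatB31 x) (fun _ => gatB01 x) (fun h => absurd h (by decide)) (datB00 x) (datB31 x) (fun _ => datB01 x) (fun h => absurd h (by decide)) hd hx hx' CW.B011L_030
    · exact absurd h2 (by norm_num)
    · exact absurd h2 (by norm_num)
    · exact absurd h2 (by norm_num)
    · exact absurd h2 (by norm_num)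
  · intro ρ a B hρ hd i h1 h2
    fin_cases i
    · exact corT_cert (G1 := gB0q0) (G2 := gB3q1) (Ga := gB0q1) (Gb := gB1q1) cB011L_ok B hρ (gatB00 x) (gatB31 x) (fun _ => gatB01 x) (fun h => absurd h (by decide)) hd hx hx' CG.B011L_030
    · exact absurd h2 (by norm_num)
    · exact absurd h2 (by norm_num)
    · exact absurd h2 (by norm_num)
    · exact absurd h2 (by norm_num)

theorem altB_B011L_04 {κ x : ℝ} (hκ : κ * h0 = ken x) (hx : ((740881858 : ℕ) : ℝ) / S ≤ x) (hx' : x ≤ (((740881858 : ℕ) : ℝ) + (40050571 : ℕ)) / S) :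
    AltEB 3 κ (eng.v x) (1 / 20) (tnt (h0 * x) (1 / 5)) PP tK tL tC pcB (scP esg pd) [⟨0, 0, 0, 67108864⟩, ⟨1, 1, 0, 67108864⟩, ⟨2, 1, 0, 67108864⟩] 0 1 1 0 4 (sgb true) (sgb true) x := by
  have X : XR 67108864 x := XR.of hx hx' (by norm_num) (by norm_num) (by norm_num) (by norm_num)
  have hen : 0 < eng.v x := en_pos X.x0.le
  refine CornW.altB (C := cB011L) (j := (0 : Fin 6)) (k := (4 : Fin 6)) (Ef := esg) (pd := pd) (o := 1 / 20)
    (cornW_of (C := cB011L) (C0 := c0B) (En := eng) (mo := mog) (j := (0 : Fin 6)) (k := (4 : Fin 6)) (lo := 0) (hi := 0) (W := 67108864) (N0 := 3) cB011L_q (sideB hx hx') gokB (pinU hx hx') dokB X (by norm_num) (by norm_num) (l := (0 : Fin 6)) rfl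
      (gatB00 x) (gatB41 x) (gatB01 x) (datB00 x) (datB41 x) (datB01 x) ?_)
    (cornS_of (C := cB011L) (C0 := c0B) (j := (0 : Fin 6)) (k := (4 : Fin 6)) (lo := 0) (hi := 0) (W := 67108864) (N0 := 3) cB011L_q (sideB hx hx') gokB X (by norm_num) (by norm_num) (l := (0 : Fin 6)) rfl
      (gatB00 x) (gatB41 x) (gatB01 x) ?_)
    (thU (pinU hx hx')) rfl hκ (fun j q y => tC_eq j q y x) (esg_rng X.x0.le (by linarith [X.b, X.p0])).1 (mo_v x) le_rfl le_rfl
  · intro ρ a B hρ hd i h1 h2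
    fin_cases i
    · exact corW_cert (G1 := gB0q0) (G2 := gB4q1) (Ga := gB0q1) (Gb := gB1q1) (D1 := dB0q0) (D2 := dB4q1) (Da := dB0q1) (Db := dB1q1) cB011L_ok B hρ hen (gatB00 x) (gatB41 x) (fun _ => gatB01 x) (fun h => absurd h (by decide)) (datB00 x) (datB41 x) (fun _ => datB01 x) (fun h => absurd h (by decide)) hd hx hx' CW.B011L_040
    · exact absurd h2 (by norm_num)
    · exact absurd h2 (by norm_num)
    · exact absurd h2 (by norm_num)
    · exact absurd h2 (by norm_num)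
  · intro ρ a B hρ hd i h1 h2
    fin_cases i
    · exact corT_cert (G1 := gB0q0) (G2 := gB4q1) (Ga := gB0q1) (Gb := gB1q1) cB011L_ok B hρ (gatB00 x) (gatB41 x) (fun _ => gatB01 x) (fun h => absurd h (by decide)) hd hx hx' CG.B011L_040
    · exact absurd h2 (by norm_num)
    · exact absurd h2 (by norm_num)
    · exact absurd h2 (by norm_num)
    · exact absurd h2 (by norm_num)

theorem altB_B011L_05 {κ x : ℝ} (hκ : κ * h0 = ken x) (hx : ((740881858 : ℕ) : ℝ) / S ≤ x) (hx' : x ≤ (((740881858 : ℕ) : ℝ) + (40050571 : ℕ)) / S) :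
    AltEB 3 κ (eng.v x) (1 / 20) (tnt (h0 * x) (1 / 5)) PP tK tL tC pcB (scP esg pd) [⟨0, 0, 0, 67108864⟩, ⟨1, 1, 0, 67108864⟩, ⟨2, 1, 0, 67108864⟩] 0 1 1 0 5 (sgb true) (sgb true) x := by
  have X : XR 67108864 x := XR.of hx hx' (by norm_num) (by norm_num) (by norm_num) (by norm_num)
  have hen : 0 < eng.v x := en_pos X.x0.le
  refine CornW.altB (C := cB011L) (j := (0 : Fin 6)) (k := (5 : Fin 6)) (Ef := esg) (pd := pd) (o := 1 / 20)
    (cornW_of (C := cB011L) (C0 := c0B) (En := eng) (mo := mog) (j := (0 : Fin 6)) (k := (5 : Fin 6)) (lo := 0) (hi := 0) (W := 67108864) (N0 := 3) cB011L_q (sideB hx hx') gokB (pinU hx hx') dokB X (by norm_num) (by norm_num) (l := (0 : Fin 6)) rfl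
      (gatB00 x) (gatB51 x) (gatB01 x) (datB00 x) (datB51 x) (datB01 x) ?_)
    (cornS_of (C := cB011L) (C0 := c0B) (j := (0 : Fin 6)) (k := (5 : Fin 6)) (lo := 0) (hi := 0) (W := 67108864) (N0 := 3) cB011L_q (sideB hx hx') gokB X (by norm_num) (by norm_num) (l := (0 : Fin 6)) rfl
      (gatB00 x) (gatB51 x) (gatB01 x) ?_)
    (thU (pinU hx hx')) rfl hκ (fun j q y => tC_eq j q y x) (esg_rng X.x0.le (by linarith [X.b, X.p0])).1 (mo_v x) le_rfl le_rfl
  · intro ρ a B hρ hd i h1 h2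
    fin_cases i
    · exact corW_cert (G1 := gB0q0) (G2 := gB5q1) (Ga := gB0q1) (Gb := gB1q1) (D1 := dB0q0) (D2 := dB5q1) (Da := dB0q1) (Db := dB1q1) cB011L_ok B hρ hen (gatB00 x) (gatB51 x) (fun _ => gatB01 x) (fun h => absurd h (by decide)) (datB00 x) (datB51 x) (fun _ => datB01 x) (fun h => absurd h (by decide)) hd hx hx' CW.B011L_050
    · exact absurd h2 (by norm_num)
    · exact absurd h2 (by norm_num)
    · exact absurd h2 (by norm_num)
    · exact absurd h2 (by norm_num)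
  · intro ρ a B hρ hd i h1 h2
    fin_cases i
    · exact corT_cert (G1 := gB0q0) (G2 := gB5q1) (Ga := gB0q1) (Gb := gB1q1) cB011L_ok B hρ (gatB00 x) (gatB51 x) (fun _ => gatB01 x) (fun h => absurd h (by decide)) hd hx hx' CG.B011L_050
    · exact absurd h2 (by norm_num)
    · exact absurd h2 (by norm_num)
    · exact absurd h2 (by norm_num)
    · exact absurd h2 (by norm_num)

theorem altB_B011L_13 {κ x : ℝ} (hκ : κ * h0 = ken x) (hx : ((740881858 : ℕ) : ℝ) / S ≤ x) (hx' : x ≤ (((740881858 : ℕ) : ℝ) + (40050571 : ℕ)) / S) :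
    AltEB 3 κ (eng.v x) (1 / 20) (tnt (h0 * x) (1 / 5)) PP tK tL tC pcB (scP esg pd) [⟨0, 0, 0, 67108864⟩, ⟨1, 1, 0, 67108864⟩, ⟨2, 1, 0, 67108864⟩] 0 1 1 1 3 (sgb true) (sgb true) x := by
  have X : XR 67108864 x := XR.of hx hx' (by norm_num) (by norm_num) (by norm_num) (by norm_num)
  have hen : 0 < eng.v x := en_pos X.x0.le
  refine CornW.altB (C := cB011L) (j := (1 : Fin 6)) (k := (3 : Fin 6)) (Ef := esg) (pd := pd) (o := 1 / 20)
    (cornW_of (C := cB011L) (C0 := c0B) (En := eng) (mo := mog) (j := (1 : Fin 6)) (k := (3 : Fin 6)) (lo := 0) (hi := 0) (W := 67108864) (N0 := 3) cB011L_q (sideB hx hx') gokB (pinU hx hx') dokB X (by norm_num) (by norm_num) (l := (0 : Fin 6)) rfl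
      (gatB10 x) (gatB31 x) (gatB01 x) (datB10 x) (datB31 x) (datB01 x) ?_)
    (cornS_of (C := cB011L) (C0 := c0B) (j := (1 : Fin 6)) (k := (3 : Fin 6)) (lo := 0) (hi := 0) (W := 67108864) (N0 := 3) cB011L_q (sideB hx hx') gokB X (by norm_num) (by norm_num) (l := (0 : Fin 6)) rfl
      (gatB10 x) (gatB31 x) (gatB01 x) ?_)
    (thU (pinU hx hx')) rfl hκ (fun j q y => tC_eq j q y x) (esg_rng X.x0.le (by linarith [X.b, X.p0])).1 (mo_v x) le_rfl le_rfl
  · intro ρ a B hρ hd i h1 h2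
    fin_cases i
    · exact corW_cert (G1 := gB1q0) (G2 := gB3q1) (Ga := gB0q1) (Gb := gB1q1) (D1 := dB1q0) (D2 := dB3q1) (Da := dB0q1) (Db := dB1q1) cB011L_ok B hρ hen (gatB10 x) (gatB31 x) (fun _ => gatB01 x) (fun h => absurd h (by decide)) (datB10 x) (datB31 x) (fun _ => datB01 x) (fun h => absurd h (by decide)) hd hx hx' CW.B011L_130
    · exact absurd h2 (by norm_num)
    · exact absurd h2 (by norm_num)
    · exact absurd h2 (by norm_num)
    · exact absurd h2 (by norm_num)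
  · intro ρ a B hρ hd i h1 h2
    fin_cases i
    · exact corT_cert (G1 := gB1q0) (G2 := gB3q1) (Ga := gB0q1) (Gb := gB1q1) cB011L_ok B hρ (gatB10 x) (gatB31 x) (fun _ => gatB01 x) (fun h => absurd h (by decide)) hd hx hx' CG.B011L_130
    · exact absurd h2 (by norm_num)
    · exact absurd h2 (by norm_num)
    · exact absurd h2 (by norm_num)
    · exact absurd h2 (by norm_num)

theorem altB_B011L_14 {κ x : ℝ} (hκ : κ * h0 = ken x) (hx : ((740881858 : ℕ) : ℝ) / S ≤ x) (hx' : x ≤ (((740881858 : ℕ) : ℝ) + (40050571 : ℕ)) / S) :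
    AltEB 3 κ (eng.v x) (1 / 20) (tnt (h0 * x) (1 / 5)) PP tK tL tC pcB (scP esg pd) [⟨0, 0, 0, 67108864⟩, ⟨1, 1, 0, 67108864⟩, ⟨2, 1, 0, 67108864⟩] 0 1 1 1 4 (sgb true) (sgb true) x := by
  have X : XR 67108864 x := XR.of hx hx' (by norm_num) (by norm_num) (by norm_num) (by norm_num)
  have hen : 0 < eng.v x := en_pos X.x0.le
  refine CornW.altB (C := cB011L) (j := (1 : Fin 6)) (k := (4 : Fin 6)) (Ef := esg) (pd := pd) (o := 1 / 20)
    (cornW_of (C := cB011L) (C0 := c0B) (En := eng) (mo := mog) (j := (1 : Fin 6)) (k := (4 : Fin 6)) (lo := 0) (hi := 0) (W := 67108864) (N0 := 3) cB011L_q (sideB hx hx') gokB (pinU hx hx') dokB X (by norm_num) (by norm_num) (l := (0 : Fin 6)) rfl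
      (gatB10 x) (gatB41 x) (gatB01 x) (datB10 x) (datB41 x) (datB01 x) ?_)
    (cornS_of (C := cB011L) (C0 := c0B) (j := (1 : Fin 6)) (k := (4 : Fin 6)) (lo := 0) (hi := 0) (W := 67108864) (N0 := 3) cB011L_q (sideB hx hx') gokB X (by norm_num) (by norm_num) (l := (0 : Fin 6)) rfl
      (gatB10 x) (gatB41 x) (gatB01 x) ?_)
    (thU (pinU hx hx')) rfl hκ (fun j q y => tC_eq j q y x) (esg_rng X.x0.le (by linarith [X.b, X.p0])).1 (mo_v x) le_rfl le_rfl
  · intro ρ a B hρ hd i h1 h2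
    fin_cases i
    · exact corW_cert (G1 := gB1q0) (G2 := gB4q1) (Ga := gB0q1) (Gb := gB1q1) (D1 := dB1q0) (D2 := dB4q1) (Da := dB0q1) (Db := dB1q1) cB011L_ok B hρ hen (gatB10 x) (gatB41 x) (fun _ => gatB01 x) (fun h => absurd h (by decide)) (datB10 x) (datB41 x) (fun _ => datB01 x) (fun h => absurd h (by decide)) hd hx hx' CW.B011L_140
    · exact absurd h2 (by norm_num)
    · exact absurd h2 (by norm_num)
    · exact absurd h2 (by norm_num)
    · exact absurd h2 (by norm_num)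
  · intro ρ a B hρ hd i h1 h2
    fin_cases i
    · exact corT_cert (G1 := gB1q0) (G2 := gB4q1) (Ga := gB0q1) (Gb := gB1q1) cB011L_ok B hρ (gatB10 x) (gatB41 x) (fun _ => gatB01 x) (fun h => absurd h (by decide)) hd hx hx' CG.B011L_140
    · exact absurd h2 (by norm_num)
    · exact absurd h2 (by norm_num)
    · exact absurd h2 (by norm_num)
    · exact absurd h2 (by norm_num)

theorem altB_B011L_15 {κ x : ℝ} (hκ : κ * h0 = ken x) (hx : ((740881858 : ℕ) : ℝ) / S ≤ x) (hx' : x ≤ (((740881858 : ℕ) : ℝ) + (40050571 : ℕ)) / S) :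
    AltEB 3 κ (eng.v x) (1 / 20) (tnt (h0 * x) (1 / 5)) PP tK tL tC pcB (scP esg pd) [⟨0, 0, 0, 67108864⟩, ⟨1, 1, 0, 67108864⟩, ⟨2, 1, 0, 67108864⟩] 0 1 1 1 5 (sgb true) (sgb true) x := by
  have X : XR 67108864 x := XR.of hx hx' (by norm_num) (by norm_num) (by norm_num) (by norm_num)
  have hen : 0 < eng.v x := en_pos X.x0.le
  refine CornW.altB (C := cB011L) (j := (1 : Fin 6)) (k := (5 : Fin 6)) (Ef := esg) (pd := pd) (o := 1 / 20)
    (cornW_of (C := cB011L) (C0 := c0B) (En := eng) (mo := mog) (j := (1 : Fin 6)) (k := (5 : Fin 6)) (lo := 0) (hi := 0) (W := 67108864) (N0 := 3) cB011L_q (sideB hx hx') gokB (pinU hx hx') dokB X (by norm_num) (by norm_num) (l := (0 : Fin 6)) rfl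
      (gatB10 x) (gatB51 x) (gatB01 x) (datB10 x) (datB51 x) (datB01 x) ?_)
    (cornS_of (C := cB011L) (C0 := c0B) (j := (1 : Fin 6)) (k := (5 : Fin 6)) (lo := 0) (hi := 0) (W := 67108864) (N0 := 3) cB011L_q (sideB hx hx') gokB X (by norm_num) (by norm_num) (l := (0 : Fin 6)) rfl
      (gatB10 x) (gatB51 x) (gatB01 x) ?_)
    (thU (pinU hx hx')) rfl hκ (fun j q y => tC_eq j q y x) (esg_rng X.x0.le (by linarith [X.b, X.p0])).1 (mo_v x) le_rfl le_rfl
  · intro ρ a B hρ hd i h1 h2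
    fin_cases i
    · exact corW_cert (G1 := gB1q0) (G2 := gB5q1) (Ga := gB0q1) (Gb := gB1q1) (D1 := dB1q0) (D2 := dB5q1) (Da := dB0q1) (Db := dB1q1) cB011L_ok B hρ hen (gatB10 x) (gatB51 x) (fun _ => gatB01 x) (fun h => absurd h (by decide)) (datB10 x) (datB51 x) (fun _ => datB01 x) (fun h => absurd h (by decide)) hd hx hx' CW.B011L_150
    · exact absurd h2 (by norm_num)
    · exact absurd h2 (by norm_num)
    · exact absurd h2 (by norm_num)
    · exact absurd h2 (by norm_num)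
  · intro ρ a B hρ hd i h1 h2
    fin_cases i
    · exact corT_cert (G1 := gB1q0) (G2 := gB5q1) (Ga := gB0q1) (Gb := gB1q1) cB011L_ok B hρ (gatB10 x) (gatB51 x) (fun _ => gatB01 x) (fun h => absurd h (by decide)) hd hx hx' CG.B011L_150
    · exact absurd h2 (by norm_num)
    · exact absurd h2 (by norm_num)
    · exact absurd h2 (by norm_num)
    · exact absurd h2 (by norm_num)

theorem altB_B011L_23 {κ x : ℝ} (hκ : κ * h0 = ken x) (hx : ((740881858 : ℕ) : ℝ) / S ≤ x) (hx' : x ≤ (((740881858 : ℕ) : ℝ) + (40050571 : ℕ)) / S) :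
    AltEB 3 κ (eng.v x) (1 / 20) (tnt (h0 * x) (1 / 5)) PP tK tL tC pcB (scP esg pd) [⟨0, 0, 0, 67108864⟩, ⟨1, 1, 0, 67108864⟩, ⟨2, 1, 0, 67108864⟩] 0 1 1 2 3 (sgb true) (sgb true) x := by
  have X : XR 67108864 x := XR.of hx hx' (by norm_num) (by norm_num) (by norm_num) (by norm_num)
  have hen : 0 < eng.v x := en_pos X.x0.le
  refine CornW.altB (C := cB011L) (j := (2 : Fin 6)) (k := (3 : Fin 6)) (Ef := esg) (pd := pd) (o := 1 / 20)
    (cornW_of (C := cB011L) (C0 := c0B) (En := eng) (mo := mog) (j := (2 : Fin 6)) (k := (3 : Fin 6)) (lo := 0) (hi := 0) (W := 67108864) (N0 := 3) cB011L_q (sideB hx hx') gokB (pinU hx hx') dokB X (by norm_num) (by norm_num) (l := (0 : Fin 6)) rfl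
      (gatB20 x) (gatB31 x) (gatB01 x) (datB20 x) (datB31 x) (datB01 x) ?_)
    (cornS_of (C := cB011L) (C0 := c0B) (j := (2 : Fin 6)) (k := (3 : Fin 6)) (lo := 0) (hi := 0) (W := 67108864) (N0 := 3) cB011L_q (sideB hx hx') gokB X (by norm_num) (by norm_num) (l := (0 : Fin 6)) rfl
      (gatB20 x) (gatB31 x) (gatB01 x) ?_)
    (thU (pinU hx hx')) rfl hκ (fun j q y => tC_eq j q y x) (esg_rng X.x0.le (by linarith [X.b, X.p0])).1 (mo_v x) le_rfl le_rfl
  · intro ρ a B hρ hd i h1 h2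
    fin_cases i
    · exact corW_cert (G1 := gB2q0) (G2 := gB3q1) (Ga := gB0q1) (Gb := gB1q1) (D1 := dB2q0) (D2 := dB3q1) (Da := dB0q1) (Db := dB1q1) cB011L_ok B hρ hen (gatB20 x) (gatB31 x) (fun _ => gatB01 x) (fun h => absurd h (by decide)) (datB20 x) (datB31 x) (fun _ => datB01 x) (fun h => absurd h (by decide)) hd hx hx' CW.B011L_230
    · exact absurd h2 (by norm_num)
    · exact absurd h2 (by norm_num)
    · exact absurd h2 (by norm_num)
    · exact absurd h2 (by norm_num)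
  · intro ρ a B hρ hd i h1 h2
    fin_cases i
    · exact corT_cert (G1 := gB2q0) (G2 := gB3q1) (Ga := gB0q1) (Gb := gB1q1) cB011L_ok B hρ (gatB20 x) (gatB31 x) (fun _ => gatB01 x) (fun h => absurd h (by decide)) hd hx hx' CG.B011L_230
    · exact absurd h2 (by norm_num)
    · exact absurd h2 (by norm_num)
    · exact absurd h2 (by norm_num)
    · exact absurd h2 (by norm_num)

theorem altB_B011L_24 {κ x : ℝ} (hκ : κ * h0 = ken x) (hx : ((740881858 : ℕ) : ℝ) / S ≤ x) (hx' : x ≤ (((740881858 : ℕ) : ℝ) + (40050571 : ℕ)) / S) :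
    AltEB 3 κ (eng.v x) (1 / 20) (tnt (h0 * x) (1 / 5)) PP tK tL tC pcB (scP esg pd) [⟨0, 0, 0, 67108864⟩, ⟨1, 1, 0, 67108864⟩, ⟨2, 1, 0, 67108864⟩] 0 1 1 2 4 (sgb true) (sgb true) x := by
  have X : XR 67108864 x := XR.of hx hx' (by norm_num) (by norm_num) (by norm_num) (by norm_num)
  have hen : 0 < eng.v x := en_pos X.x0.le
  refine CornW.altB (C := cB011L) (j := (2 : Fin 6)) (k := (4 : Fin 6)) (Ef := esg) (pd := pd) (o := 1 / 20)
    (cornW_of (C := cB011L) (C0 := c0B) (En := eng) (mo := mog) (j := (2 : Fin 6)) (k := (4 : Fin 6)) (lo := 0) (hi := 0) (W := 67108864) (N0 := 3) cB011L_q (sideB hx hx') gokB (pinU hx hx') dokB X (by norm_num) (by norm_num) (l := (0 : Fin 6)) rfl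
      (gatB20 x) (gatB41 x) (gatB01 x) (datB20 x) (datB41 x) (datB01 x) ?_)
    (cornS_of (C := cB011L) (C0 := c0B) (j := (2 : Fin 6)) (k := (4 : Fin 6)) (lo := 0) (hi := 0) (W := 67108864) (N0 := 3) cB011L_q (sideB hx hx') gokB X (by norm_num) (by norm_num) (l := (0 : Fin 6)) rfl
      (gatB20 x) (gatB41 x) (gatB01 x) ?_)
    (thU (pinU hx hx')) rfl hκ (fun j q y => tC_eq j q y x) (esg_rng X.x0.le (by linarith [X.b, X.p0])).1 (mo_v x) le_rfl le_rfl
  · intro ρ a B hρ hd i h1 h2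
    fin_cases i
    · exact corW_cert (G1 := gB2q0) (G2 := gB4q1) (Ga := gB0q1) (Gb := gB1q1) (D1 := dB2q0) (D2 := dB4q1) (Da := dB0q1) (Db := dB1q1) cB011L_ok B hρ hen (gatB20 x) (gatB41 x) (fun _ => gatB01 x) (fun h => absurd h (by decide)) (datB20 x) (datB41 x) (fun _ => datB01 x) (fun h => absurd h (by decide)) hd hx hx' CW.B011L_240
    · exact absurd h2 (by norm_num)
    · exact absurd h2 (by norm_num)
    · exact absurd h2 (by norm_num)
    · exact absurd h2 (by norm_num)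
  · intro ρ a B hρ hd i h1 h2
    fin_cases i
    · exact corT_cert (G1 := gB2q0) (G2 := gB4q1) (Ga := gB0q1) (Gb := gB1q1) cB011L_ok B hρ (gatB20 x) (gatB41 x) (fun _ => gatB01 x) (fun h => absurd h (by decide)) hd hx hx' CG.B011L_240
    · exact absurd h2 (by norm_num)
    · exact absurd h2 (by norm_num)
    · exact absurd h2 (by norm_num)
    · exact absurd h2 (by norm_num)

theorem altB_B011L_25 {κ x : ℝ} (hκ : κ * h0 = ken x) (hx : ((740881858 : ℕ) : ℝ) / S ≤ x) (hx' : x ≤ (((740881858 : ℕ) : ℝ) + (40050571 : ℕ)) / S) :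
    AltEB 3 κ (eng.v x) (1 / 20) (tnt (h0 * x) (1 / 5)) PP tK tL tC pcB (scP esg pd) [⟨0, 0, 0, 67108864⟩, ⟨1, 1, 0, 67108864⟩, ⟨2, 1, 0, 67108864⟩] 0 1 1 2 5 (sgb true) (sgb true) x := by
  have X : XR 67108864 x := XR.of hx hx' (by norm_num) (by norm_num) (by norm_num) (by norm_num)
  have hen : 0 < eng.v x := en_pos X.x0.le
  refine CornW.altB (C := cB011L) (j := (2 : Fin 6)) (k := (5 : Fin 6)) (Ef := esg) (pd := pd) (o := 1 / 20)
    (cornW_of (C := cB011L) (C0 := c0B) (En := eng) (mo := mog) (j := (2 : Fin 6)) (k := (5 : Fin 6)) (lo := 0) (hi := 0) (W := 67108864) (N0 := 3) cB011L_q (sideB hx hx') gokB (pinU hx hx') dokB X (by norm_num) (by norm_num) (l := (0 : Fin 6)) rfl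
      (gatB20 x) (gatB51 x) (gatB01 x) (datB20 x) (datB51 x) (datB01 x) ?_)
    (cornS_of (C := cB011L) (C0 := c0B) (j := (2 : Fin 6)) (k := (5 : Fin 6)) (lo := 0) (hi := 0) (W := 67108864) (N0 := 3) cB011L_q (sideB hx hx') gokB X (by norm_num) (by norm_num) (l := (0 : Fin 6)) rfl
      (gatB20 x) (gatB51 x) (gatB01 x) ?_)
    (thU (pinU hx hx')) rfl hκ (fun j q y => tC_eq j q y x) (esg_rng X.x0.le (by linarith [X.b, X.p0])).1 (mo_v x) le_rfl le_rfl
  · intro ρ a B hρ hd i h1 h2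
    fin_cases i
    · exact corW_cert (G1 := gB2q0) (G2 := gB5q1) (Ga := gB0q1) (Gb := gB1q1) (D1 := dB2q0) (D2 := dB5q1) (Da := dB0q1) (Db := dB1q1) cB011L_ok B hρ hen (gatB20 x) (gatB51 x) (fun _ => gatB01 x) (fun h => absurd h (by decide)) (datB20 x) (datB51 x) (fun _ => datB01 x) (fun h => absurd h (by decide)) hd hx hx' CW.B011L_250
    · exact absurd h2 (by norm_num)
    · exact absurd h2 (by norm_num)
    · exact absurd h2 (by norm_num)
    · exact absurd h2 (by norm_num)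
  · intro ρ a B hρ hd i h1 h2
    fin_cases i
    · exact corT_cert (G1 := gB2q0) (G2 := gB5q1) (Ga := gB0q1) (Gb := gB1q1) cB011L_ok B hρ (gatB20 x) (gatB51 x) (fun _ => gatB01 x) (fun h => absurd h (by decide)) hd hx hx' CG.B011L_250
    · exact absurd h2 (by norm_num)
    · exact absurd h2 (by norm_num)
    · exact absurd h2 (by norm_num)
    · exact absurd h2 (by norm_num)

theorem altB_B011R_00 {κ x : ℝ} (hκ : κ * h0 = ken x) (hx : ((740881858 : ℕ) : ℝ) / S ≤ x) (hx' : x ≤ (((740881858 : ℕ) : ℝ) + (40050571 : ℕ)) / S) :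
    AltEB 3 κ (eng.v x) (1 / 20) (tnt (h0 * x) (1 / 5)) PP tK tL tC pcB (scP esg pd) [⟨0, 0, 0, 67108864⟩, ⟨1, 1, 0, 67108864⟩, ⟨2, 1, 0, 67108864⟩] 0 1 1 0 0 (sgb true) (sgb false) x := by
  have X : XR 67108864 x := XR.of hx hx' (by norm_num) (by norm_num) (by norm_num) (by norm_num)
  have hen : 0 < eng.v x := en_pos X.x0.le
  refine CornW.altB (C := cB011R) (j := (0 : Fin 6)) (k := (0 : Fin 6)) (Ef := esg) (pd := pd) (o := 1 / 20)
    (cornW_of (C := cB011R) (C0 := c0B) (En := eng) (mo := mog) (j := (0 : Fin 6)) (k := (0 : Fin 6)) (lo := 3) (hi := 5) (W := 67108864) (N0 := 3) cB011R_q (sideB hx hx') gokB (pinU hx hx') dokB X (by norm_num) (by norm_num) (l := (3 : Fin 6)) rfl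
      (gatB00 x) (gatB01 x) (gatB31 x) (datB00 x) (datB01 x) (datB31 x) ?_)
    (cornS_of (C := cB011R) (C0 := c0B) (j := (0 : Fin 6)) (k := (0 : Fin 6)) (lo := 3) (hi := 5) (W := 67108864) (N0 := 3) cB011R_q (sideB hx hx') gokB X (by norm_num) (by norm_num) (l := (3 : Fin 6)) rfl
      (gatB00 x) (gatB01 x) (gatB31 x) ?_)
    (thU (pinU hx hx')) rfl hκ (fun j q y => tC_eq j q y x) (esg_rng X.x0.le (by linarith [X.b, X.p0])).1 (mo_v x) le_rfl le_rfl
  · intro ρ a B hρ hd i h1 h2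
    fin_cases i
    · exact absurd h1 (by norm_num)
    · exact absurd h1 (by norm_num)
    · exact corW_cert (G1 := gB0q0) (G2 := gB0q1) (Ga := gB2q1) (Gb := gB3q1) (D1 := dB0q0) (D2 := dB0q1) (Da := dB2q1) (Db := dB3q1) cB011R_ok B hρ hen (gatB00 x) (gatB01 x) (fun h => absurd h (by decide)) (fun _ => gatB31 x) (datB00 x) (datB01 x) (fun h => absurd h (by decide)) (fun _ => datB31 x) hd hx hx' CW.B011R_002
    · exact corW_cert (G1 := gB0q0) (G2 := gB0q1) (Ga := gB3q1) (Gb := gB4q1) (D1 := dB0q0) (D2 := dB0q1) (Da := dB3q1) (Db := dB4q1) cB011R_ok B hρ hen (gatB00 x) (gatB01 x) (fun _ => gatB31 x) (fun _ => gatB41 x) (datB00 x) (datB01 x) (fun _ => datB31 x) (fun _ => datB41 x) hd hx hx' CW.B011R_003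
    · exact corW_cert (G1 := gB0q0) (G2 := gB0q1) (Ga := gB4q1) (Gb := gB5q1) (D1 := dB0q0) (D2 := dB0q1) (Da := dB4q1) (Db := dB5q1) cB011R_ok B hρ hen (gatB00 x) (gatB01 x) (fun _ => gatB41 x) (fun _ => gatB51 x) (datB00 x) (datB01 x) (fun _ => datB41 x) (fun _ => datB51 x) hd hx hx' CW.B011R_004
  · intro ρ a B hρ hd i h1 h2
    fin_cases i
    · exact absurd h1 (by norm_num)
    · exact absurd h1 (by norm_num)
    · exact corT_cert (G1 := gB0q0) (G2 := gB0q1) (Ga := gB2q1) (Gb := gB3q1) cB011R_ok B hρ (gatB00 x) (gatB01 x) (fun h => absurd h (by decide)) (fun _ => gatB31 x) hd hx hx' CG.B011R_002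
    · exact corT_cert (G1 := gB0q0) (G2 := gB0q1) (Ga := gB3q1) (Gb := gB4q1) cB011R_ok B hρ (gatB00 x) (gatB01 x) (fun _ => gatB31 x) (fun _ => gatB41 x) hd hx hx' CG.B011R_003
    · exact corX_cert (G1 := gB0q0) (G2 := gB0q1) (Ga := gB4q1) (Gb := gB5q1) (GT := gB5q1) cB011R_ok tB011R_ok B hρ (gatB00 x) (gatB01 x) (fun _ => gatB41 x) (fun _ => gatB51 x) rfl (tgh_B011R (kodd x) (gpu0 x) (gpu1 x) (gpt1 x) (gatB00 x) (gatB01 x) (gatB51 x) B (le_sixteenth hd (by norm_num))) hd hx hx' CG.B011R_004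

theorem altB_B011R_10 {κ x : ℝ} (hκ : κ * h0 = ken x) (hx : ((740881858 : ℕ) : ℝ) / S ≤ x) (hx' : x ≤ (((740881858 : ℕ) : ℝ) + (40050571 : ℕ)) / S) :
    AltEB 3 κ (eng.v x) (1 / 20) (tnt (h0 * x) (1 / 5)) PP tK tL tC pcB (scP esg pd) [⟨0, 0, 0, 67108864⟩, ⟨1, 1, 0, 67108864⟩, ⟨2, 1, 0, 67108864⟩] 0 1 1 1 0 (sgb true) (sgb false) x := by
  have X : XR 67108864 x := XR.of hx hx' (by norm_num) (by norm_num) (by norm_num) (by norm_num)
  have hen : 0 < eng.v x := en_pos X.x0.le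
  refine CornW.altB (C := cB011R) (j := (1 : Fin 6)) (k := (0 : Fin 6)) (Ef := esg) (pd := pd) (o := 1 / 20)
    (cornW_of (C := cB011R) (C0 := c0B) (En := eng) (mo := mog) (j := (1 : Fin 6)) (k := (0 : Fin 6)) (lo := 3) (hi := 5) (W := 67108864) (N0 := 3) cB011R_q (sideB hx hx') gokB (pinU hx hx') dokB X (by norm_num) (by norm_num) (l := (3 : Fin 6)) rfl
      (gatB10 x) (gatB01 x) (gatB31 x) (datB10 x) (datB01 x) (datB31 x) ?_)
    (cornS_of (C := cB011R) (C0 := c0B) (j := (1 : Fin 6)) (k := (0 : Fin 6)) (lo := 3) (hi := 5) (W := 67108864) (N0 := 3) cB011R_q (sideB hx hx') gokB X (by norm_num) (by norm_num) (l := (3 : Fin 6)) rfl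
      (gatB10 x) (gatB01 x) (gatB31 x) ?_)
    (thU (pinU hx hx')) rfl hκ (fun j q y => tC_eq j q y x) (esg_rng X.x0.le (by linarith [X.b, X.p0])).1 (mo_v x) le_rfl le_rfl
  · intro ρ a B hρ hd i h1 h2
    fin_cases i
    · exact absurd h1 (by norm_num)
    · exact absurd h1 (by norm_num)
    · exact corW_cert (G1 := gB1q0) (G2 := gB0q1) (Ga := gB2q1) (Gb := gB3q1) (D1 := dB1q0) (D2 := dB0q1) (Da := dB2q1) (Db := dB3q1) cB011R_ok B hρ hen (gatB10 x) (gatB01 x) (fun h => absurd h (by decide)) (fun _ => gatB31 x) (datB10 x) (datB01 x) (fun h => absurd h (by decide)) (fun _ => datB31 x) hd hx hx' CW.B011R_102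
    · exact corW_cert (G1 := gB1q0) (G2 := gB0q1) (Ga := gB3q1) (Gb := gB4q1) (D1 := dB1q0) (D2 := dB0q1) (Da := dB3q1) (Db := dB4q1) cB011R_ok B hρ hen (gatB10 x) (gatB01 x) (fun _ => gatB31 x) (fun _ => gatB41 x) (datB10 x) (datB01 x) (fun _ => datB31 x) (fun _ => datB41 x) hd hx hx' CW.B011R_103
    · exact corW_cert (G1 := gB1q0) (G2 := gB0q1) (Ga := gB4q1) (Gb := gB5q1) (D1 := dB1q0) (D2 := dB0q1) (Da := dB4q1) (Db := dB5q1) cB011R_ok B hρ hen (gatB10 x) (gatB01 x) (fun _ => gatB41 x) (fun _ => gatB51 x) (datB10 x) (datB01 x) (fun _ => datB41 x) (fun _ => datB51 x) hd hx hx' CW.B011R_104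
  · intro ρ a B hρ hd i h1 h2
    fin_cases i
    · exact absurd h1 (by norm_num)
    · exact absurd h1 (by norm_num)
    · exact corT_cert (G1 := gB1q0) (G2 := gB0q1) (Ga := gB2q1) (Gb := gB3q1) cB011R_ok B hρ (gatB10 x) (gatB01 x) (fun h => absurd h (by decide)) (fun _ => gatB31 x) hd hx hx' CG.B011R_102
    · exact corT_cert (G1 := gB1q0) (G2 := gB0q1) (Ga := gB3q1) (Gb := gB4q1) cB011R_ok B hρ (gatB10 x) (gatB01 x) (fun _ => gatB31 x) (fun _ => gatB41 x) hd hx hx' CG.B011R_103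
    · exact corT_cert (G1 := gB1q0) (G2 := gB0q1) (Ga := gB4q1) (Gb := gB5q1) cB011R_ok B hρ (gatB10 x) (gatB01 x) (fun _ => gatB41 x) (fun _ => gatB51 x) hd hx hx' CG.B011R_104

theorem altB_B011R_20 {κ x : ℝ} (hκ : κ * h0 = ken x) (hx : ((740881858 : ℕ) : ℝ) / S ≤ x) (hx' : x ≤ (((740881858 : ℕ) : ℝ) + (40050571 : ℕ)) / S) :
    AltEB 3 κ (eng.v x) (1 / 20) (tnt (h0 * x) (1 / 5)) PP tK tL tC pcB (scP esg pd) [⟨0, 0, 0, 67108864⟩, ⟨1, 1, 0, 67108864⟩, ⟨2, 1, 0, 67108864⟩] 0 1 1 2 0 (sgb true) (sgb false) x := by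
  have X : XR 67108864 x := XR.of hx hx' (by norm_num) (by norm_num) (by norm_num) (by norm_num)
  have hen : 0 < eng.v x := en_pos X.x0.le
  refine CornW.altB (C := cB011R) (j := (2 : Fin 6)) (k := (0 : Fin 6)) (Ef := esg) (pd := pd) (o := 1 / 20)
    (cornW_of (C := cB011R) (C0 := c0B) (En := eng) (mo := mog) (j := (2 : Fin 6)) (k := (0 : Fin 6)) (lo := 3) (hi := 5) (W := 67108864) (N0 := 3) cB011R_q (sideB hx hx') gokB (pinU hx hx') dokB X (by norm_num) (by norm_num) (l := (3 : Fin 6)) rfl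
      (gatB20 x) (gatB01 x) (gatB31 x) (datB20 x) (datB01 x) (datB31 x) ?_)
    (cornS_of (C := cB011R) (C0 := c0B) (j := (2 : Fin 6)) (k := (0 : Fin 6)) (lo := 3) (hi := 5) (W := 67108864) (N0 := 3) cB011R_q (sideB hx hx') gokB X (by norm_num) (by norm_num) (l := (3 : Fin 6)) rfl
      (gatB20 x) (gatB01 x) (gatB31 x) ?_)
    (thU (pinU hx hx')) rfl hκ (fun j q y => tC_eq j q y x) (esg_rng X.x0.le (by linarith [X.b, X.p0])).1 (mo_v x) le_rfl le_rfl
  · intro ρ a B hρ hd i h1 h2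
    fin_cases i
    · exact absurd h1 (by norm_num)
    · exact absurd h1 (by norm_num)
    · exact corW_cert (G1 := gB2q0) (G2 := gB0q1) (Ga := gB2q1) (Gb := gB3q1) (D1 := dB2q0) (D2 := dB0q1) (Da := dB2q1) (Db := dB3q1) cB011R_ok B hρ hen (gatB20 x) (gatB01 x) (fun h => absurd h (by decide)) (fun _ => gatB31 x) (datB20 x) (datB01 x) (fun h => absurd h (by decide)) (fun _ => datB31 x) hd hx hx' CW.B011R_202
    · exact corW_cert (G1 := gB2q0) (G2 := gB0q1) (Ga := gB3q1) (Gb := gB4q1) (D1 := dB2q0) (D2 := dB0q1) (Da := dB3q1) (Db := dB4q1) cB011R_ok B hρ hen (gatB20 x) (gatB01 x) (fun _ => gatB31 x) (fun _ => gatB41 x) (datB20 x) (datB01 x) (fun _ => datB31 x) (fun _ => datB41 x) hd hx hx' CW.B011R_203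
    · exact corW_cert (G1 := gB2q0) (G2 := gB0q1) (Ga := gB4q1) (Gb := gB5q1) (D1 := dB2q0) (D2 := dB0q1) (Da := dB4q1) (Db := dB5q1) cB011R_ok B hρ hen (gatB20 x) (gatB01 x) (fun _ => gatB41 x) (fun _ => gatB51 x) (datB20 x) (datB01 x) (fun _ => datB41 x) (fun _ => datB51 x) hd hx hx' CW.B011R_204
  · intro ρ a B hρ hd i h1 h2
    fin_cases i
    · exact absurd h1 (by norm_num)
    · exact absurd h1 (by norm_num)
    · exact corT_cert (G1 := gB2q0) (G2 := gB0q1) (Ga := gB2q1) (Gb := gB3q1) cB011R_ok B hρ (gatB20 x) (gatB01 x) (fun h => absurd h (by decide)) (fun _ => gatB31 x) hd hx hx' CG.B011R_202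
    · exact corT_cert (G1 := gB2q0) (G2 := gB0q1) (Ga := gB3q1) (Gb := gB4q1) cB011R_ok B hρ (gatB20 x) (gatB01 x) (fun _ => gatB31 x) (fun _ => gatB41 x) hd hx hx' CG.B011R_203
    · exact corT_cert (G1 := gB2q0) (G2 := gB0q1) (Ga := gB4q1) (Gb := gB5q1) cB011R_ok B hρ (gatB20 x) (gatB01 x) (fun _ => gatB41 x) (fun _ => gatB51 x) hd hx hx' CG.B011R_204

theorem altB_B012E_00 {κ x : ℝ} (hκ : κ * h0 = ken x) (hx : ((740881858 : ℕ) : ℝ) / S ≤ x) (hx' : x ≤ (((740881858 : ℕ) : ℝ) + (40050571 : ℕ)) / S) :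
    AltEB 3 κ (eng.v x) (1 / 20) (tnt (h0 * x) (1 / 5)) PP tK tL tC pcB (scP esg pd) [⟨0, 0, 0, 53687091⟩, ⟨1, 1, 0, 53687091⟩, ⟨2, 1, 0, 53687091⟩] 0 1 2 0 0 (sgb true) (sgb true) x := by
  have X : XR 53687091 x := XR.of hx hx' (by norm_num) (by norm_num) (by norm_num) (by norm_num)
  have hen : 0 < eng.v x := en_pos X.x0.le
  refine CornW.altB (C := cB012E) (j := (0 : Fin 6)) (k := (0 : Fin 6)) (Ef := esg) (pd := pd) (o := 1 / 20)
    (cornW_of (C := cB012E) (C0 := c0B) (En := eng) (mo := mog) (j := (0 : Fin 6)) (k := (0 : Fin 6)) (lo := 0) (hi := 0) (W := 53687091) (N0 := 3) cB012E_q (sideB hx hx') gokB (pinU hx hx') dokB X (by norm_num) (by norm_num) (l := (0 : Fin 6)) rfl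
      (gatB00 x) (gatB02 x) (gatB01 x) (datB00 x) (datB02 x) (datB01 x) ?_)
    (cornS_of (C := cB012E) (C0 := c0B) (j := (0 : Fin 6)) (k := (0 : Fin 6)) (lo := 0) (hi := 0) (W := 53687091) (N0 := 3) cB012E_q (sideB hx hx') gokB X (by norm_num) (by norm_num) (l := (0 : Fin 6)) rfl
      (gatB00 x) (gatB02 x) (gatB01 x) ?_)
    (thU (pinU hx hx')) rfl hκ (fun j q y => tC_eq j q y x) (esg_rng X.x0.le (by linarith [X.b, X.p0])).1 (mo_v x) le_rfl le_rfl
  · intro ρ a B hρ hd i h1 h2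
    fin_cases i
    · exact corW_cert (G1 := gB0q0) (G2 := gB0q2) (Ga := gB0q1) (Gb := gB1q1) (D1 := dB0q0) (D2 := dB0q2) (Da := dB0q1) (Db := dB1q1) cB012E_ok B hρ hen (gatB00 x) (gatB02 x) (fun _ => gatB01 x) (fun h => absurd h (by decide)) (datB00 x) (datB02 x) (fun _ => datB01 x) (fun h => absurd h (by decide)) hd hx hx' CW.B012E_000
    · exact absurd h2 (by norm_num)
    · exact absurd h2 (by norm_num)
    · exact absurd h2 (by norm_num)
    · exact absurd h2 (by norm_num)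
  · intro ρ a B hρ hd i h1 h2
    fin_cases i
    · exact corX_cert (G1 := gB0q0) (G2 := gB0q2) (Ga := gB0q1) (Gb := gB1q1) (GT := gB0q1) cB012E_ok tB012E_ok B hρ (gatB00 x) (gatB02 x) (fun _ => gatB01 x) (fun h => absurd h (by decide)) rfl (tgh_B012E (kodd x) (gpu0 x) (gpu2 x) (gpu1 x) (gatB00 x) (gatB02 x) (gatB01 x) B (le_sixteenth hd (by norm_num))) hd hx hx' CG.B012E_000
    · exact absurd h2 (by norm_num)
    · exact absurd h2 (by norm_num)
    · exact absurd h2 (by norm_num)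
    · exact absurd h2 (by norm_num)

theorem altB_B012E_01 {κ x : ℝ} (hκ : κ * h0 = ken x) (hx : ((740881858 : ℕ) : ℝ) / S ≤ x) (hx' : x ≤ (((740881858 : ℕ) : ℝ) + (40050571 : ℕ)) / S) :
    AltEB 3 κ (eng.v x) (1 / 20) (tnt (h0 * x) (1 / 5)) PP tK tL tC pcB (scP esg pd) [⟨0, 0, 0, 67108864⟩, ⟨1, 1, 0, 67108864⟩, ⟨2, 1, 0, 67108864⟩] 0 1 2 0 1 (sgb true) (sgb true) x := by
  have X : XR 67108864 x := XR.of hx hx' (by norm_num) (by norm_num) (by norm_num) (by norm_num)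
  have hen : 0 < eng.v x := en_pos X.x0.le
  refine CornW.altB (C := cB012E) (j := (0 : Fin 6)) (k := (1 : Fin 6)) (Ef := esg) (pd := pd) (o := 1 / 20)
    (cornW_of (C := cB012E) (C0 := c0B) (En := eng) (mo := mog) (j := (0 : Fin 6)) (k := (1 : Fin 6)) (lo := 0) (hi := 0) (W := 67108864) (N0 := 3) cB012E_q (sideB hx hx') gokB (pinU hx hx') dokB X (by norm_num) (by norm_num) (l := (0 : Fin 6)) rfl
      (gatB00 x) (gatB12 x) (gatB01 x) (datB00 x) (datB12 x) (datB01 x) ?_)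
    (cornS_of (C := cB012E) (C0 := c0B) (j := (0 : Fin 6)) (k := (1 : Fin 6)) (lo := 0) (hi := 0) (W := 67108864) (N0 := 3) cB012E_q (sideB hx hx') gokB X (by norm_num) (by norm_num) (l := (0 : Fin 6)) rfl
      (gatB00 x) (gatB12 x) (gatB01 x) ?_)
    (thU (pinU hx hx')) rfl hκ (fun j q y => tC_eq j q y x) (esg_rng X.x0.le (by linarith [X.b, X.p0])).1 (mo_v x) le_rfl le_rfl
  · intro ρ a B hρ hd i h1 h2
    fin_cases i
    · exact corW_cert (G1 := gB0q0) (G2 := gB1q2) (Ga := gB0q1) (Gb := gB1q1) (D1 := dB0q0) (D2 := dB1q2) (Da := dB0q1) (Db := dB1q1) cB012E_ok B hρ hen (gatB00 x) (gatB12 x) (fun _ => gatB01 x) (fun h => absurd h (by decide)) (datB00 x) (datB12 x) (fun _ => datB01 x) (fun h => absurd h (by decide)) hd hx hx' CW.B012E_010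
    · exact absurd h2 (by norm_num)
    · exact absurd h2 (by norm_num)
    · exact absurd h2 (by norm_num)
    · exact absurd h2 (by norm_num)
  · intro ρ a B hρ hd i h1 h2
    fin_cases i
    · exact corT_cert (G1 := gB0q0) (G2 := gB1q2) (Ga := gB0q1) (Gb := gB1q1) cB012E_ok B hρ (gatB00 x) (gatB12 x) (fun _ => gatB01 x) (fun h => absurd h (by decide)) hd hx hx' CG.B012E_010
    · exact absurd h2 (by norm_num)
    · exact absurd h2 (by norm_num)
    · exact absurd h2 (by norm_num)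
    · exact absurd h2 (by norm_num)

theorem altB_B012E_02 {κ x : ℝ} (hκ : κ * h0 = ken x) (hx : ((740881858 : ℕ) : ℝ) / S ≤ x) (hx' : x ≤ (((740881858 : ℕ) : ℝ) + (40050571 : ℕ)) / S) :
    AltEB 3 κ (eng.v x) (1 / 20) (tnt (h0 * x) (1 / 5)) PP tK tL tC pcB (scP esg pd) [⟨0, 0, 0, 67108864⟩, ⟨1, 1, 0, 67108864⟩, ⟨2, 1, 0, 67108864⟩] 0 1 2 0 2 (sgb true) (sgb true) x := by
  have X : XR 67108864 x := XR.of hx hx' (by norm_num) (by norm_num) (by norm_num) (by norm_num)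
  have hen : 0 < eng.v x := en_pos X.x0.le
  refine CornW.altB (C := cB012E) (j := (0 : Fin 6)) (k := (2 : Fin 6)) (Ef := esg) (pd := pd) (o := 1 / 20)
    (cornW_of (C := cB012E) (C0 := c0B) (En := eng) (mo := mog) (j := (0 : Fin 6)) (k := (2 : Fin 6)) (lo := 0) (hi := 0) (W := 67108864) (N0 := 3) cB012E_q (sideB hx hx') gokB (pinU hx hx') dokB X (by norm_num) (by norm_num) (l := (0 : Fin 6)) rfl
      (gatB00 x) (gatB22 x) (gatB01 x) (datB00 x) (datB22 x) (datB01 x) ?_)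
    (cornS_of (C := cB012E) (C0 := c0B) (j := (0 : Fin 6)) (k := (2 : Fin 6)) (lo := 0) (hi := 0) (W := 67108864) (N0 := 3) cB012E_q (sideB hx hx') gokB X (by norm_num) (by norm_num) (l := (0 : Fin 6)) rfl
      (gatB00 x) (gatB22 x) (gatB01 x) ?_)
    (thU (pinU hx hx')) rfl hκ (fun j q y => tC_eq j q y x) (esg_rng X.x0.le (by linarith [X.b, X.p0])).1 (mo_v x) le_rfl le_rfl
  · intro ρ a B hρ hd i h1 h2
    fin_cases i
    · exact corW_cert (G1 := gB0q0) (G2 := gB2q2) (Ga := gB0q1) (Gb := gB1q1) (D1 := dB0q0) (D2 := dB2q2) (Da := dB0q1) (Db := dB1q1) cB012E_ok B hρ hen (gatB00 x) (gatB22 x) (fun _ => gatB01 x) (fun h => absurd h (by decide)) (datB00 x) (datB22 x) (fun _ => datB01 x) (fun h => absurd h (by decide)) hd hx hx' CW.B012E_020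
    · exact absurd h2 (by norm_num)
    · exact absurd h2 (by norm_num)
    · exact absurd h2 (by norm_num)
    · exact absurd h2 (by norm_num)
  · intro ρ a B hρ hd i h1 h2
    fin_cases i
    · exact corT_cert (G1 := gB0q0) (G2 := gB2q2) (Ga := gB0q1) (Gb := gB1q1) cB012E_ok B hρ (gatB00 x) (gatB22 x) (fun _ => gatB01 x) (fun h => absurd h (by decide)) hd hx hx' CG.B012E_020
    · exact absurd h2 (by norm_num)
    · exact absurd h2 (by norm_num)
    · exact absurd h2 (by norm_num)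
    · exact absurd h2 (by norm_num)

theorem altB_B012E_10 {κ x : ℝ} (hκ : κ * h0 = ken x) (hx : ((740881858 : ℕ) : ℝ) / S ≤ x) (hx' : x ≤ (((740881858 : ℕ) : ℝ) + (40050571 : ℕ)) / S) :
    AltEB 3 κ (eng.v x) (1 / 20) (tnt (h0 * x) (1 / 5)) PP tK tL tC pcB (scP esg pd) [⟨0, 0, 0, 67108864⟩, ⟨1, 1, 0, 67108864⟩, ⟨2, 1, 0, 67108864⟩] 0 1 2 1 0 (sgb true) (sgb true) x := by
  have X : XR 67108864 x := XR.of hx hx' (by norm_num) (by norm_num) (by norm_num) (by norm_num)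
  have hen : 0 < eng.v x := en_pos X.x0.le
  refine CornW.altB (C := cB012E) (j := (1 : Fin 6)) (k := (0 : Fin 6)) (Ef := esg) (pd := pd) (o := 1 / 20)
    (cornW_of (C := cB012E) (C0 := c0B) (En := eng) (mo := mog) (j := (1 : Fin 6)) (k := (0 : Fin 6)) (lo := 0) (hi := 0) (W := 67108864) (N0 := 3) cB012E_q (sideB hx hx') gokB (pinU hx hx') dokB X (by norm_num) (by norm_num) (l := (0 : Fin 6)) rfl
      (gatB10 x) (gatB02 x) (gatB01 x) (datB10 x) (datB02 x) (datB01 x) ?_)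
    (cornS_of (C := cB012E) (C0 := c0B) (j := (1 : Fin 6)) (k := (0 : Fin 6)) (lo := 0) (hi := 0) (W := 67108864) (N0 := 3) cB012E_q (sideB hx hx') gokB X (by norm_num) (by norm_num) (l := (0 : Fin 6)) rfl
      (gatB10 x) (gatB02 x) (gatB01 x) ?_)
    (thU (pinU hx hx')) rfl hκ (fun j q y => tC_eq j q y x) (esg_rng X.x0.le (by linarith [X.b, X.p0])).1 (mo_v x) le_rfl le_rfl
  · intro ρ a B hρ hd i h1 h2
    fin_cases i
    · exact corW_cert (G1 := gB1q0) (G2 := gB0q2) (Ga := gB0q1) (Gb := gB1q1) (D1 := dB1q0) (D2 := dB0q2) (Da := dB0q1) (Db := dB1q1) cB012E_ok B hρ hen (gatB10 x) (gatB02 x) (fun _ => gatB01 x) (fun h => absurd h (by decide)) (datB10 x) (datB02 x) (fun _ => datB01 x) (fun h => absurd h (by decide)) hd hx hx' CW.B012E_100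
    · exact absurd h2 (by norm_num)
    · exact absurd h2 (by norm_num)
    · exact absurd h2 (by norm_num)
    · exact absurd h2 (by norm_num)
  · intro ρ a B hρ hd i h1 h2
    fin_cases i
    · exact corT_cert (G1 := gB1q0) (G2 := gB0q2) (Ga := gB0q1) (Gb := gB1q1) cB012E_ok B hρ (gatB10 x) (gatB02 x) (fun _ => gatB01 x) (fun h => absurd h (by decide)) hd hx hx' CG.B012E_100
    · exact absurd h2 (by norm_num)
    · exact absurd h2 (by norm_num)
    · exact absurd h2 (by norm_num)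
    · exact absurd h2 (by norm_num)

theorem altB_B012E_11 {κ x : ℝ} (hκ : κ * h0 = ken x) (hx : ((740881858 : ℕ) : ℝ) / S ≤ x) (hx' : x ≤ (((740881858 : ℕ) : ℝ) + (40050571 : ℕ)) / S) :
    AltEB 3 κ (eng.v x) (1 / 20) (tnt (h0 * x) (1 / 5)) PP tK tL tC pcB (scP esg pd) [⟨0, 0, 0, 67108864⟩, ⟨1, 1, 0, 67108864⟩, ⟨2, 1, 0, 67108864⟩] 0 1 2 1 1 (sgb true) (sgb true) x := by
  have X : XR 67108864 x := XR.of hx hx' (by norm_num) (by norm_num) (by norm_num) (by norm_num)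
  have hen : 0 < eng.v x := en_pos X.x0.le
  refine CornW.altB (C := cB012E) (j := (1 : Fin 6)) (k := (1 : Fin 6)) (Ef := esg) (pd := pd) (o := 1 / 20)
    (cornW_of (C := cB012E) (C0 := c0B) (En := eng) (mo := mog) (j := (1 : Fin 6)) (k := (1 : Fin 6)) (lo := 0) (hi := 0) (W := 67108864) (N0 := 3) cB012E_q (sideB hx hx') gokB (pinU hx hx') dokB X (by norm_num) (by norm_num) (l := (0 : Fin 6)) rfl
      (gatB10 x) (gatB12 x) (gatB01 x) (datB10 x) (datB12 x) (datB01 x) ?_)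
    (cornS_of (C := cB012E) (C0 := c0B) (j := (1 : Fin 6)) (k := (1 : Fin 6)) (lo := 0) (hi := 0) (W := 67108864) (N0 := 3) cB012E_q (sideB hx hx') gokB X (by norm_num) (by norm_num) (l := (0 : Fin 6)) rfl
      (gatB10 x) (gatB12 x) (gatB01 x) ?_)
    (thU (pinU hx hx')) rfl hκ (fun j q y => tC_eq j q y x) (esg_rng X.x0.le (by linarith [X.b, X.p0])).1 (mo_v x) le_rfl le_rfl
  · intro ρ a B hρ hd i h1 h2
    fin_cases i
    · exact corW_cert (G1 := gB1q0) (G2 := gB1q2) (Ga := gB0q1) (Gb := gB1q1) (D1 := dB1q0) (D2 := dB1q2) (Da := dB0q1) (Db := dB1q1) cB012E_ok B hρ hen (gatB10 x) (gatB12 x) (fun _ => gatB01 x) (fun h => absurd h (by decide)) (datB10 x) (datB12 x) (fun _ => datB01 x) (fun h => absurd h (by decide)) hd hx hx' CW.B012E_110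
    · exact absurd h2 (by norm_num)
    · exact absurd h2 (by norm_num)
    · exact absurd h2 (by norm_num)
    · exact absurd h2 (by norm_num)
  · intro ρ a B hρ hd i h1 h2
    fin_cases i
    · exact corT_cert (G1 := gB1q0) (G2 := gB1q2) (Ga := gB0q1) (Gb := gB1q1) cB012E_ok B hρ (gatB10 x) (gatB12 x) (fun _ => gatB01 x) (fun h => absurd h (by decide)) hd hx hx' CG.B012E_110
    · exact absurd h2 (by norm_num)
    · exact absurd h2 (by norm_num)
    · exact absurd h2 (by norm_num)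
    · exact absurd h2 (by norm_num)

theorem altB_B012E_12 {κ x : ℝ} (hκ : κ * h0 = ken x) (hx : ((740881858 : ℕ) : ℝ) / S ≤ x) (hx' : x ≤ (((740881858 : ℕ) : ℝ) + (40050571 : ℕ)) / S) :
    AltEB 3 κ (eng.v x) (1 / 20) (tnt (h0 * x) (1 / 5)) PP tK tL tC pcB (scP esg pd) [⟨0, 0, 0, 67108864⟩, ⟨1, 1, 0, 67108864⟩, ⟨2, 1, 0, 67108864⟩] 0 1 2 1 2 (sgb true) (sgb true) x := by
  have X : XR 67108864 x := XR.of hx hx' (by norm_num) (by norm_num) (by norm_num) (by norm_num)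
  have hen : 0 < eng.v x := en_pos X.x0.le
  refine CornW.altB (C := cB012E) (j := (1 : Fin 6)) (k := (2 : Fin 6)) (Ef := esg) (pd := pd) (o := 1 / 20)
    (cornW_of (C := cB012E) (C0 := c0B) (En := eng) (mo := mog) (j := (1 : Fin 6)) (k := (2 : Fin 6)) (lo := 0) (hi := 0) (W := 67108864) (N0 := 3) cB012E_q (sideB hx hx') gokB (pinU hx hx') dokB X (by norm_num) (by norm_num) (l := (0 : Fin 6)) rfl
      (gatB10 x) (gatB22 x) (gatB01 x) (datB10 x) (datB22 x) (datB01 x) ?_)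
    (cornS_of (C := cB012E) (C0 := c0B) (j := (1 : Fin 6)) (k := (2 : Fin 6)) (lo := 0) (hi := 0) (W := 67108864) (N0 := 3) cB012E_q (sideB hx hx') gokB X (by norm_num) (by norm_num) (l := (0 : Fin 6)) rfl
      (gatB10 x) (gatB22 x) (gatB01 x) ?_)
    (thU (pinU hx hx')) rfl hκ (fun j q y => tC_eq j q y x) (esg_rng X.x0.le (by linarith [X.b, X.p0])).1 (mo_v x) le_rfl le_rfl
  · intro ρ a B hρ hd i h1 h2
    fin_cases i
    · exact corW_cert (G1 := gB1q0) (G2 := gB2q2) (Ga := gB0q1) (Gb := gB1q1) (D1 := dB1q0) (D2 := dB2q2) (Da := dB0q1) (Db := dB1q1) cB012E_ok B hρ hen (gatB10 x) (gatB22 x) (fun _ => gatB01 x) (fun h => absurd h (by decide)) (datB10 x) (datB22 x) (fun _ => datB01 x) (fun h => absurd h (by decide)) hd hx hx' CW.B012E_120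
    · exact absurd h2 (by norm_num)
    · exact absurd h2 (by norm_num)
    · exact absurd h2 (by norm_num)
    · exact absurd h2 (by norm_num)
  · intro ρ a B hρ hd i h1 h2
    fin_cases i
    · exact corT_cert (G1 := gB1q0) (G2 := gB2q2) (Ga := gB0q1) (Gb := gB1q1) cB012E_ok B hρ (gatB10 x) (gatB22 x) (fun _ => gatB01 x) (fun h => absurd h (by decide)) hd hx hx' CG.B012E_120
    · exact absurd h2 (by norm_num)
    · exact absurd h2 (by norm_num)
    · exact absurd h2 (by norm_num)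
    · exact absurd h2 (by norm_num)

theorem altB_B012E_20 {κ x : ℝ} (hκ : κ * h0 = ken x) (hx : ((740881858 : ℕ) : ℝ) / S ≤ x) (hx' : x ≤ (((740881858 : ℕ) : ℝ) + (40050571 : ℕ)) / S) :
    AltEB 3 κ (eng.v x) (1 / 20) (tnt (h0 * x) (1 / 5)) PP tK tL tC pcB (scP esg pd) [⟨0, 0, 0, 67108864⟩, ⟨1, 1, 0, 67108864⟩, ⟨2, 1, 0, 67108864⟩] 0 1 2 2 0 (sgb true) (sgb true) x := by
  have X : XR 67108864 x := XR.of hx hx' (by norm_num) (by norm_num) (by norm_num) (by norm_num)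
  have hen : 0 < eng.v x := en_pos X.x0.le
  refine CornW.altB (C := cB012E) (j := (2 : Fin 6)) (k := (0 : Fin 6)) (Ef := esg) (pd := pd) (o := 1 / 20)
    (cornW_of (C := cB012E) (C0 := c0B) (En := eng) (mo := mog) (j := (2 : Fin 6)) (k := (0 : Fin 6)) (lo := 0) (hi := 0) (W := 67108864) (N0 := 3) cB012E_q (sideB hx hx') gokB (pinU hx hx') dokB X (by norm_num) (by norm_num) (l := (0 : Fin 6)) rfl
      (gatB20 x) (gatB02 x) (gatB01 x) (datB20 x) (datB02 x) (datB01 x) ?_)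
    (cornS_of (C := cB012E) (C0 := c0B) (j := (2 : Fin 6)) (k := (0 : Fin 6)) (lo := 0) (hi := 0) (W := 67108864) (N0 := 3) cB012E_q (sideB hx hx') gokB X (by norm_num) (by norm_num) (l := (0 : Fin 6)) rfl
      (gatB20 x) (gatB02 x) (gatB01 x) ?_)
    (thU (pinU hx hx')) rfl hκ (fun j q y => tC_eq j q y x) (esg_rng X.x0.le (by linarith [X.b, X.p0])).1 (mo_v x) le_rfl le_rfl
  · intro ρ a B hρ hd i h1 h2
    fin_cases i
    · exact corW_cert (G1 := gB2q0) (G2 := gB0q2) (Ga := gB0q1) (Gb := gB1q1) (D1 := dB2q0) (D2 := dB0q2) (Da := dB0q1) (Db := dB1q1) cB012E_ok B hρ hen (gatB20 x) (gatB02 x) (fun _ => gatB01 x) (fun h => absurd h (by decide)) (datB20 x) (datB02 x) (fun _ => datB01 x) (fun h => absurd h (by decide)) hd hx hx' CW.B012E_200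
    · exact absurd h2 (by norm_num)
    · exact absurd h2 (by norm_num)
    · exact absurd h2 (by norm_num)
    · exact absurd h2 (by norm_num)
  · intro ρ a B hρ hd i h1 h2
    fin_cases i
    · exact corT_cert (G1 := gB2q0) (G2 := gB0q2) (Ga := gB0q1) (Gb := gB1q1) cB012E_ok B hρ (gatB20 x) (gatB02 x) (fun _ => gatB01 x) (fun h => absurd h (by decide)) hd hx hx' CG.B012E_200
    · exact absurd h2 (by norm_num)
    · exact absurd h2 (by norm_num)
    · exact absurd h2 (by norm_num)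
    · exact absurd h2 (by norm_num)

theorem altB_B012E_21 {κ x : ℝ} (hκ : κ * h0 = ken x) (hx : ((740881858 : ℕ) : ℝ) / S ≤ x) (hx' : x ≤ (((740881858 : ℕ) : ℝ) + (40050571 : ℕ)) / S) :
    AltEB 3 κ (eng.v x) (1 / 20) (tnt (h0 * x) (1 / 5)) PP tK tL tC pcB (scP esg pd) [⟨0, 0, 0, 67108864⟩, ⟨1, 1, 0, 67108864⟩, ⟨2, 1, 0, 67108864⟩] 0 1 2 2 1 (sgb true) (sgb true) x := by
  have X : XR 67108864 x := XR.of hx hx' (by norm_num) (by norm_num) (by norm_num) (by norm_num)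
  have hen : 0 < eng.v x := en_pos X.x0.le
  refine CornW.altB (C := cB012E) (j := (2 : Fin 6)) (k := (1 : Fin 6)) (Ef := esg) (pd := pd) (o := 1 / 20)
    (cornW_of (C := cB012E) (C0 := c0B) (En := eng) (mo := mog) (j := (2 : Fin 6)) (k := (1 : Fin 6)) (lo := 0) (hi := 0) (W := 67108864) (N0 := 3) cB012E_q (sideB hx hx') gokB (pinU hx hx') dokB X (by norm_num) (by norm_num) (l := (0 : Fin 6)) rfl
      (gatB20 x) (gatB12 x) (gatB01 x) (datB20 x) (datB12 x) (datB01 x) ?_)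
    (cornS_of (C := cB012E) (C0 := c0B) (j := (2 : Fin 6)) (k := (1 : Fin 6)) (lo := 0) (hi := 0) (W := 67108864) (N0 := 3) cB012E_q (sideB hx hx') gokB X (by norm_num) (by norm_num) (l := (0 : Fin 6)) rfl
      (gatB20 x) (gatB12 x) (gatB01 x) ?_)
    (thU (pinU hx hx')) rfl hκ (fun j q y => tC_eq j q y x) (esg_rng X.x0.le (by linarith [X.b, X.p0])).1 (mo_v x) le_rfl le_rfl
  · intro ρ a B hρ hd i h1 h2
    fin_cases i
    · exact corW_cert (G1 := gB2q0) (G2 := gB1q2) (Ga := gB0q1) (Gb := gB1q1) (D1 := dB2q0) (D2 := dB1q2) (Da := dB0q1) (Db := dB1q1) cB012E_ok B hρ hen (gatB20 x) (gatB12 x) (fun _ => gatB01 x) (fun h => absurd h (by decide)) (datB20 x) (datB12 x) (fun _ => datB01 x) (fun h => absurd h (by decide)) hd hx hx' CW.B012E_210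
    · exact absurd h2 (by norm_num)
    · exact absurd h2 (by norm_num)
    · exact absurd h2 (by norm_num)
    · exact absurd h2 (by norm_num)
  · intro ρ a B hρ hd i h1 h2
    fin_cases i
    · exact corT_cert (G1 := gB2q0) (G2 := gB1q2) (Ga := gB0q1) (Gb := gB1q1) cB012E_ok B hρ (gatB20 x) (gatB12 x) (fun _ => gatB01 x) (fun h => absurd h (by decide)) hd hx hx' CG.B012E_210
    · exact absurd h2 (by norm_num)
    · exact absurd h2 (by norm_num)
    · exact absurd h2 (by norm_num)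
    · exact absurd h2 (by norm_num)

theorem altB_B012E_22 {κ x : ℝ} (hκ : κ * h0 = ken x) (hx : ((740881858 : ℕ) : ℝ) / S ≤ x) (hx' : x ≤ (((740881858 : ℕ) : ℝ) + (40050571 : ℕ)) / S) :
    AltEB 3 κ (eng.v x) (1 / 20) (tnt (h0 * x) (1 / 5)) PP tK tL tC pcB (scP esg pd) [⟨0, 0, 0, 67108864⟩, ⟨1, 1, 0, 67108864⟩, ⟨2, 1, 0, 67108864⟩] 0 1 2 2 2 (sgb true) (sgb true) x := by
  have X : XR 67108864 x := XR.of hx hx' (by norm_num) (by norm_num) (by norm_num) (by norm_num)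
  have hen : 0 < eng.v x := en_pos X.x0.le
  refine CornW.altB (C := cB012E) (j := (2 : Fin 6)) (k := (2 : Fin 6)) (Ef := esg) (pd := pd) (o := 1 / 20)
    (cornW_of (C := cB012E) (C0 := c0B) (En := eng) (mo := mog) (j := (2 : Fin 6)) (k := (2 : Fin 6)) (lo := 0) (hi := 0) (W := 67108864) (N0 := 3) cB012E_q (sideB hx hx') gokB (pinU hx hx') dokB X (by norm_num) (by norm_num) (l := (0 : Fin 6)) rfl
      (gatB20 x) (gatB22 x) (gatB01 x) (datB20 x) (datB22 x) (datB01 x) ?_)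
    (cornS_of (C := cB012E) (C0 := c0B) (j := (2 : Fin 6)) (k := (2 : Fin 6)) (lo := 0) (hi := 0) (W := 67108864) (N0 := 3) cB012E_q (sideB hx hx') gokB X (by norm_num) (by norm_num) (l := (0 : Fin 6)) rfl
      (gatB20 x) (gatB22 x) (gatB01 x) ?_)
    (thU (pinU hx hx')) rfl hκ (fun j q y => tC_eq j q y x) (esg_rng X.x0.le (by linarith [X.b, X.p0])).1 (mo_v x) le_rfl le_rfl
  · intro ρ a B hρ hd i h1 h2
    fin_cases i
    · exact corW_cert (G1 := gB2q0) (G2 := gB2q2) (Ga := gB0q1) (Gb := gB1q1) (D1 := dB2q0) (D2 := dB2q2) (Da := dB0q1) (Db := dB1q1) cB012E_ok B hρ hen (gatB20 x) (gatB22 x) (fun _ => gatB01 x) (fun h => absurd h (by decide)) (datB20 x) (datB22 x) (fun _ => datB01 x) (fun h => absurd h (by decide)) hd hx hx' CW.B012E_220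
    · exact absurd h2 (by norm_num)
    · exact absurd h2 (by norm_num)
    · exact absurd h2 (by norm_num)
    · exact absurd h2 (by norm_num)
  · intro ρ a B hρ hd i h1 h2
    fin_cases i
    · exact corT_cert (G1 := gB2q0) (G2 := gB2q2) (Ga := gB0q1) (Gb := gB1q1) cB012E_ok B hρ (gatB20 x) (gatB22 x) (fun _ => gatB01 x) (fun h => absurd h (by decide)) hd hx hx' CG.B012E_220
    · exact absurd h2 (by norm_num)
    · exact absurd h2 (by norm_num)
    · exact absurd h2 (by norm_num)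
    · exact absurd h2 (by norm_num)

theorem altB_B012L_05 {κ x : ℝ} (hκ : κ * h0 = ken x) (hx : ((740881858 : ℕ) : ℝ) / S ≤ x) (hx' : x ≤ (((740881858 : ℕ) : ℝ) + (40050571 : ℕ)) / S) :
    AltEB 3 κ (eng.v x) (1 / 20) (tnt (h0 * x) (1 / 5)) PP tK tL tC pcB (scP esg pd) [⟨0, 0, 0, 67108864⟩, ⟨1, 1, 0, 67108864⟩, ⟨2, 1, 0, 67108864⟩] 0 1 2 0 5 (sgb true) (sgb true) x := by
  have X : XR 67108864 x := XR.of hx hx' (by norm_num) (by norm_num) (by norm_num) (by norm_num)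
  have hen : 0 < eng.v x := en_pos X.x0.le
  refine CornW.altB (C := cB012L) (j := (0 : Fin 6)) (k := (5 : Fin 6)) (Ef := esg) (pd := pd) (o := 1 / 20)
    (cornW_of (C := cB012L) (C0 := c0B) (En := eng) (mo := mog) (j := (0 : Fin 6)) (k := (5 : Fin 6)) (lo := 0) (hi := 0) (W := 67108864) (N0 := 3) cB012L_q (sideB hx hx') gokB (pinU hx hx') dokB X (by norm_num) (by norm_num) (l := (0 : Fin 6)) rfl
      (gatB00 x) (gatB52 x) (gatB01 x) (datB00 x) (datB52 x) (datB01 x) ?_)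
    (cornS_of (C := cB012L) (C0 := c0B) (j := (0 : Fin 6)) (k := (5 : Fin 6)) (lo := 0) (hi := 0) (W := 67108864) (N0 := 3) cB012L_q (sideB hx hx') gokB X (by norm_num) (by norm_num) (l := (0 : Fin 6)) rfl
      (gatB00 x) (gatB52 x) (gatB01 x) ?_)
    (thU (pinU hx hx')) rfl hκ (fun j q y => tC_eq j q y x) (esg_rng X.x0.le (by linarith [X.b, X.p0])).1 (mo_v x) le_rfl le_rfl
  · intro ρ a B hρ hd i h1 h2
    fin_cases i
    · exact corW_cert (G1 := gB0q0) (G2 := gB5q2) (Ga := gB0q1) (Gb := gB1q1) (D1 := dB0q0) (D2 := dB5q2) (Da := dB0q1) (Db := dB1q1) cB012L_ok B hρ hen (gatB00 x) (gatB52 x) (fun _ => gatB01 x) (fun h => absurd h (by decide)) (datB00 x) (datB52 x) (fun _ => datB01 x) (fun h => absurd h (by decide)) hd hx hx' CW.B012L_050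
    · exact absurd h2 (by norm_num)
    · exact absurd h2 (by norm_num)
    · exact absurd h2 (by norm_num)
    · exact absurd h2 (by norm_num)
  · intro ρ a B hρ hd i h1 h2
    fin_cases i
    · exact corT_cert (G1 := gB0q0) (G2 := gB5q2) (Ga := gB0q1) (Gb := gB1q1) cB012L_ok B hρ (gatB00 x) (gatB52 x) (fun _ => gatB01 x) (fun h => absurd h (by decide)) hd hx hx' CG.B012L_050
    · exact absurd h2 (by norm_num)
    · exact absurd h2 (by norm_num)
    · exact absurd h2 (by norm_num)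
    · exact absurd h2 (by norm_num)

theorem altB_B012L_15 {κ x : ℝ} (hκ : κ * h0 = ken x) (hx : ((740881858 : ℕ) : ℝ) / S ≤ x) (hx' : x ≤ (((740881858 : ℕ) : ℝ) + (40050571 : ℕ)) / S) :
    AltEB 3 κ (eng.v x) (1 / 20) (tnt (h0 * x) (1 / 5)) PP tK tL tC pcB (scP esg pd) [⟨0, 0, 0, 67108864⟩, ⟨1, 1, 0, 67108864⟩, ⟨2, 1, 0, 67108864⟩] 0 1 2 1 5 (sgb true) (sgb true) x := by
  have X : XR 67108864 x := XR.of hx hx' (by norm_num) (by norm_num) (by norm_num) (by norm_num)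
  have hen : 0 < eng.v x := en_pos X.x0.le
  refine CornW.altB (C := cB012L) (j := (1 : Fin 6)) (k := (5 : Fin 6)) (Ef := esg) (pd := pd) (o := 1 / 20)
    (cornW_of (C := cB012L) (C0 := c0B) (En := eng) (mo := mog) (j := (1 : Fin 6)) (k := (5 : Fin 6)) (lo := 0) (hi := 0) (W := 67108864) (N0 := 3) cB012L_q (sideB hx hx') gokB (pinU hx hx') dokB X (by norm_num) (by norm_num) (l := (0 : Fin 6)) rfl
      (gatB10 x) (gatB52 x) (gatB01 x) (datB10 x) (datB52 x) (datB01 x) ?_)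
    (cornS_of (C := cB012L) (C0 := c0B) (j := (1 : Fin 6)) (k := (5 : Fin 6)) (lo := 0) (hi := 0) (W := 67108864) (N0 := 3) cB012L_q (sideB hx hx') gokB X (by norm_num) (by norm_num) (l := (0 : Fin 6)) rfl
      (gatB10 x) (gatB52 x) (gatB01 x) ?_)
    (thU (pinU hx hx')) rfl hκ (fun j q y => tC_eq j q y x) (esg_rng X.x0.le (by linarith [X.b, X.p0])).1 (mo_v x) le_rfl le_rfl
  · intro ρ a B hρ hd i h1 h2
    fin_cases i
    · exact corW_cert (G1 := gB1q0) (G2 := gB5q2) (Ga := gB0q1) (Gb := gB1q1) (D1 := dB1q0) (D2 := dB5q2) (Da := dB0q1) (Db := dB1q1) cB012L_ok B hρ hen (gatB10 x) (gatB52 x) (fun _ => gatB01 x) (fun h => absurd h (by decide)) (datB10 x) (datB52 x) (fun _ => datB01 x) (fun h => absurd h (by decide)) hd hx hx' CW.B012L_150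
    · exact absurd h2 (by norm_num)
    · exact absurd h2 (by norm_num)
    · exact absurd h2 (by norm_num)
    · exact absurd h2 (by norm_num)
  · intro ρ a B hρ hd i h1 h2
    fin_cases i
    · exact corT_cert (G1 := gB1q0) (G2 := gB5q2) (Ga := gB0q1) (Gb := gB1q1) cB012L_ok B hρ (gatB10 x) (gatB52 x) (fun _ => gatB01 x) (fun h => absurd h (by decide)) hd hx hx' CG.B012L_150
    · exact absurd h2 (by norm_num)
    · exact absurd h2 (by norm_num)
    · exact absurd h2 (by norm_num)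
    · exact absurd h2 (by norm_num)

theorem altB_B012L_25 {κ x : ℝ} (hκ : κ * h0 = ken x) (hx : ((740881858 : ℕ) : ℝ) / S ≤ x) (hx' : x ≤ (((740881858 : ℕ) : ℝ) + (40050571 : ℕ)) / S) :
    AltEB 3 κ (eng.v x) (1 / 20) (tnt (h0 * x) (1 / 5)) PP tK tL tC pcB (scP esg pd) [⟨0, 0, 0, 67108864⟩, ⟨1, 1, 0, 67108864⟩, ⟨2, 1, 0, 67108864⟩] 0 1 2 2 5 (sgb true) (sgb true) x := by
  have X : XR 67108864 x := XR.of hx hx' (by norm_num) (by norm_num) (by norm_num) (by norm_num)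
  have hen : 0 < eng.v x := en_pos X.x0.le
  refine CornW.altB (C := cB012L) (j := (2 : Fin 6)) (k := (5 : Fin 6)) (Ef := esg) (pd := pd) (o := 1 / 20)
    (cornW_of (C := cB012L) (C0 := c0B) (En := eng) (mo := mog) (j := (2 : Fin 6)) (k := (5 : Fin 6)) (lo := 0) (hi := 0) (W := 67108864) (N0 := 3) cB012L_q (sideB hx hx') gokB (pinU hx hx') dokB X (by norm_num) (by norm_num) (l := (0 : Fin 6)) rfl
      (gatB20 x) (gatB52 x) (gatB01 x) (datB20 x) (datB52 x) (datB01 x) ?_)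
    (cornS_of (C := cB012L) (C0 := c0B) (j := (2 : Fin 6)) (k := (5 : Fin 6)) (lo := 0) (hi := 0) (W := 67108864) (N0 := 3) cB012L_q (sideB hx hx') gokB X (by norm_num) (by norm_num) (l := (0 : Fin 6)) rfl
      (gatB20 x) (gatB52 x) (gatB01 x) ?_)
    (thU (pinU hx hx')) rfl hκ (fun j q y => tC_eq j q y x) (esg_rng X.x0.le (by linarith [X.b, X.p0])).1 (mo_v x) le_rfl le_rfl
  · intro ρ a B hρ hd i h1 h2
    fin_cases i
    · exact corW_cert (G1 := gB2q0) (G2 := gB5q2) (Ga := gB0q1) (Gb := gB1q1) (D1 := dB2q0) (D2 := dB5q2) (Da := dB0q1) (Db := dB1q1) cB012L_ok B hρ hen (gatB20 x) (gatB52 x) (fun _ => gatB01 x) (fun h => absurd h (by decide)) (datB20 x) (datB52 x) (fun _ => datB01 x) (fun h => absurd h (by decide)) hd hx hx' CW.B012L_250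
    · exact absurd h2 (by norm_num)
    · exact absurd h2 (by norm_num)
    · exact absurd h2 (by norm_num)
    · exact absurd h2 (by norm_num)
  · intro ρ a B hρ hd i h1 h2
    fin_cases i
    · exact corT_cert (G1 := gB2q0) (G2 := gB5q2) (Ga := gB0q1) (Gb := gB1q1) cB012L_ok B hρ (gatB20 x) (gatB52 x) (fun _ => gatB01 x) (fun h => absurd h (by decide)) hd hx hx' CG.B012L_250
    · exact absurd h2 (by norm_num)
    · exact absurd h2 (by norm_num)
    · exact absurd h2 (by norm_num)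
    · exact absurd h2 (by norm_num)

theorem altB_B012R_00 {κ x : ℝ} (hκ : κ * h0 = ken x) (hx : ((740881858 : ℕ) : ℝ) / S ≤ x) (hx' : x ≤ (((740881858 : ℕ) : ℝ) + (40050571 : ℕ)) / S) :
    AltEB 3 κ (eng.v x) (1 / 20) (tnt (h0 * x) (1 / 5)) PP tK tL tC pcB (scP esg pd) [⟨0, 0, 0, 67108864⟩, ⟨1, 1, 0, 67108864⟩, ⟨2, 1, 0, 67108864⟩] 0 1 2 0 0 (sgb true) (sgb false) x := by
  have X : XR 67108864 x := XR.of hx hx' (by norm_num) (by norm_num) (by norm_num) (by norm_num)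
  have hen : 0 < eng.v x := en_pos X.x0.le
  refine CornW.altB (C := cB012R) (j := (0 : Fin 6)) (k := (0 : Fin 6)) (Ef := esg) (pd := pd) (o := 1 / 20)
    (cornW_of (C := cB012R) (C0 := c0B) (En := eng) (mo := mog) (j := (0 : Fin 6)) (k := (0 : Fin 6)) (lo := 3) (hi := 5) (W := 67108864) (N0 := 3) cB012R_q (sideB hx hx') gokB (pinU hx hx') dokB X (by norm_num) (by norm_num) (l := (3 : Fin 6)) rfl
      (gatB00 x) (gatB02 x) (gatB31 x) (datB00 x) (datB02 x) (datB31 x) ?_)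
    (cornS_of (C := cB012R) (C0 := c0B) (j := (0 : Fin 6)) (k := (0 : Fin 6)) (lo := 3) (hi := 5) (W := 67108864) (N0 := 3) cB012R_q (sideB hx hx') gokB X (by norm_num) (by norm_num) (l := (3 : Fin 6)) rfl
      (gatB00 x) (gatB02 x) (gatB31 x) ?_)
    (thU (pinU hx hx')) rfl hκ (fun j q y => tC_eq j q y x) (esg_rng X.x0.le (by linarith [X.b, X.p0])).1 (mo_v x) le_rfl le_rfl
  · intro ρ a B hρ hd i h1 h2
    fin_cases i
    · exact absurd h1 (by norm_num)
    · exact absurd h1 (by norm_num)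
    · exact corW_cert (G1 := gB0q0) (G2 := gB0q2) (Ga := gB2q1) (Gb := gB3q1) (D1 := dB0q0) (D2 := dB0q2) (Da := dB2q1) (Db := dB3q1) cB012R_ok B hρ hen (gatB00 x) (gatB02 x) (fun h => absurd h (by decide)) (fun _ => gatB31 x) (datB00 x) (datB02 x) (fun h => absurd h (by decide)) (fun _ => datB31 x) hd hx hx' CW.B012R_002
    · exact corW_cert (G1 := gB0q0) (G2 := gB0q2) (Ga := gB3q1) (Gb := gB4q1) (D1 := dB0q0) (D2 := dB0q2) (Da := dB3q1) (Db := dB4q1) cB012R_ok B hρ hen (gatB00 x) (gatB02 x) (fun _ => gatB31 x) (fun _ => gatB41 x) (datB00 x) (datB02 x) (fun _ => datB31 x) (fun _ => datB41 x) hd hx hx' CW.B012R_003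
    · exact corW_cert (G1 := gB0q0) (G2 := gB0q2) (Ga := gB4q1) (Gb := gB5q1) (D1 := dB0q0) (D2 := dB0q2) (Da := dB4q1) (Db := dB5q1) cB012R_ok B hρ hen (gatB00 x) (gatB02 x) (fun _ => gatB41 x) (fun _ => gatB51 x) (datB00 x) (datB02 x) (fun _ => datB41 x) (fun _ => datB51 x) hd hx hx' CW.B012R_004
  · intro ρ a B hρ hd i h1 h2
    fin_cases i
    · exact absurd h1 (by norm_num)
    · exact absurd h1 (by norm_num)
    · exact corT_cert (G1 := gB0q0) (G2 := gB0q2) (Ga := gB2q1) (Gb := gB3q1) cB012R_ok B hρ (gatB00 x) (gatB02 x) (fun h => absurd h (by decide)) (fun _ => gatB31 x) hd hx hx' CG.B012R_002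
    · exact corT_cert (G1 := gB0q0) (G2 := gB0q2) (Ga := gB3q1) (Gb := gB4q1) cB012R_ok B hρ (gatB00 x) (gatB02 x) (fun _ => gatB31 x) (fun _ => gatB41 x) hd hx hx' CG.B012R_003
    · exact corT_cert (G1 := gB0q0) (G2 := gB0q2) (Ga := gB4q1) (Gb := gB5q1) cB012R_ok B hρ (gatB00 x) (gatB02 x) (fun _ => gatB41 x) (fun _ => gatB51 x) hd hx hx' CG.B012R_004

theorem altB_B012R_01 {κ x : ℝ} (hκ : κ * h0 = ken x) (hx : ((740881858 : ℕ) : ℝ) / S ≤ x) (hx' : x ≤ (((740881858 : ℕ) : ℝ) + (40050571 : ℕ)) / S) :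
    AltEB 3 κ (eng.v x) (1 / 20) (tnt (h0 * x) (1 / 5)) PP tK tL tC pcB (scP esg pd) [⟨0, 0, 0, 67108864⟩, ⟨1, 1, 0, 67108864⟩, ⟨2, 1, 0, 67108864⟩] 0 1 2 0 1 (sgb true) (sgb false) x := by
  have X : XR 67108864 x := XR.of hx hx' (by norm_num) (by norm_num) (by norm_num) (by norm_num)
  have hen : 0 < eng.v x := en_pos X.x0.le
  refine CornW.altB (C := cB012R) (j := (0 : Fin 6)) (k := (1 : Fin 6)) (Ef := esg) (pd := pd) (o := 1 / 20)
    (cornW_of (C := cB012R) (C0 := c0B) (En := eng) (mo := mog) (j := (0 : Fin 6)) (k := (1 : Fin 6)) (lo := 3) (hi := 5) (W := 67108864) (N0 := 3) cB012R_q (sideB hx hx') gokB (pinU hx hx') dokB X (by norm_num) (by norm_num) (l := (3 : Fin 6)) rfl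
      (gatB00 x) (gatB12 x) (gatB31 x) (datB00 x) (datB12 x) (datB31 x) ?_)
    (cornS_of (C := cB012R) (C0 := c0B) (j := (0 : Fin 6)) (k := (1 : Fin 6)) (lo := 3) (hi := 5) (W := 67108864) (N0 := 3) cB012R_q (sideB hx hx') gokB X (by norm_num) (by norm_num) (l := (3 : Fin 6)) rfl
      (gatB00 x) (gatB12 x) (gatB31 x) ?_)
    (thU (pinU hx hx')) rfl hκ (fun j q y => tC_eq j q y x) (esg_rng X.x0.le (by linarith [X.b, X.p0])).1 (mo_v x) le_rfl le_rfl
  · intro ρ a B hρ hd i h1 h2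
    fin_cases i
    · exact absurd h1 (by norm_num)
    · exact absurd h1 (by norm_num)
    · exact corW_cert (G1 := gB0q0) (G2 := gB1q2) (Ga := gB2q1) (Gb := gB3q1) (D1 := dB0q0) (D2 := dB1q2) (Da := dB2q1) (Db := dB3q1) cB012R_ok B hρ hen (gatB00 x) (gatB12 x) (fun h => absurd h (by decide)) (fun _ => gatB31 x) (datB00 x) (datB12 x) (fun h => absurd h (by decide)) (fun _ => datB31 x) hd hx hx' CW.B012R_012
    · exact corW_cert (G1 := gB0q0) (G2 := gB1q2) (Ga := gB3q1) (Gb := gB4q1) (D1 := dB0q0) (D2 := dB1q2) (Da := dB3q1) (Db := dB4q1) cB012R_ok B hρ hen (gatB00 x) (gatB12 x) (fun _ => gatB31 x) (fun _ => gatB41 x) (datB00 x) (datB12 x) (fun _ => datB31 x) (fun _ => datB41 x) hd hx hx' CW.B012R_013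
    · exact corW_cert (G1 := gB0q0) (G2 := gB1q2) (Ga := gB4q1) (Gb := gB5q1) (D1 := dB0q0) (D2 := dB1q2) (Da := dB4q1) (Db := dB5q1) cB012R_ok B hρ hen (gatB00 x) (gatB12 x) (fun _ => gatB41 x) (fun _ => gatB51 x) (datB00 x) (datB12 x) (fun _ => datB41 x) (fun _ => datB51 x) hd hx hx' CW.B012R_014
  · intro ρ a B hρ hd i h1 h2
    fin_cases i
    · exact absurd h1 (by norm_num)
    · exact absurd h1 (by norm_num)
    · exact corT_cert (G1 := gB0q0) (G2 := gB1q2) (Ga := gB2q1) (Gb := gB3q1) cB012R_ok B hρ (gatB00 x) (gatB12 x) (fun h => absurd h (by decide)) (fun _ => gatB31 x) hd hx hx' CG.B012R_012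
    · exact corT_cert (G1 := gB0q0) (G2 := gB1q2) (Ga := gB3q1) (Gb := gB4q1) cB012R_ok B hρ (gatB00 x) (gatB12 x) (fun _ => gatB31 x) (fun _ => gatB41 x) hd hx hx' CG.B012R_013
    · exact corT_cert (G1 := gB0q0) (G2 := gB1q2) (Ga := gB4q1) (Gb := gB5q1) cB012R_ok B hρ (gatB00 x) (gatB12 x) (fun _ => gatB41 x) (fun _ => gatB51 x) hd hx hx' CG.B012R_014

theorem altB_B012R_02 {κ x : ℝ} (hκ : κ * h0 = ken x) (hx : ((740881858 : ℕ) : ℝ) / S ≤ x) (hx' : x ≤ (((740881858 : ℕ) : ℝ) + (40050571 : ℕ)) / S) :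
    AltEB 3 κ (eng.v x) (1 / 20) (tnt (h0 * x) (1 / 5)) PP tK tL tC pcB (scP esg pd) [⟨0, 0, 0, 67108864⟩, ⟨1, 1, 0, 67108864⟩, ⟨2, 1, 0, 67108864⟩] 0 1 2 0 2 (sgb true) (sgb false) x := by
  have X : XR 67108864 x := XR.of hx hx' (by norm_num) (by norm_num) (by norm_num) (by norm_num)
  have hen : 0 < eng.v x := en_pos X.x0.le
  refine CornW.altB (C := cB012R) (j := (0 : Fin 6)) (k := (2 : Fin 6)) (Ef := esg) (pd := pd) (o := 1 / 20)
    (cornW_of (C := cB012R) (C0 := c0B) (En := eng) (mo := mog) (j := (0 : Fin 6)) (k := (2 : Fin 6)) (lo := 3) (hi := 5) (W := 67108864) (N0 := 3) cB012R_q (sideB hx hx') gokB (pinU hx hx') dokB X (by norm_num) (by norm_num) (l := (3 : Fin 6)) rfl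
      (gatB00 x) (gatB22 x) (gatB31 x) (datB00 x) (datB22 x) (datB31 x) ?_)
    (cornS_of (C := cB012R) (C0 := c0B) (j := (0 : Fin 6)) (k := (2 : Fin 6)) (lo := 3) (hi := 5) (W := 67108864) (N0 := 3) cB012R_q (sideB hx hx') gokB X (by norm_num) (by norm_num) (l := (3 : Fin 6)) rfl
      (gatB00 x) (gatB22 x) (gatB31 x) ?_)
    (thU (pinU hx hx')) rfl hκ (fun j q y => tC_eq j q y x) (esg_rng X.x0.le (by linarith [X.b, X.p0])).1 (mo_v x) le_rfl le_rfl
  · intro ρ a B hρ hd i h1 h2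
    fin_cases i
    · exact absurd h1 (by norm_num)
    · exact absurd h1 (by norm_num)
    · exact corW_cert (G1 := gB0q0) (G2 := gB2q2) (Ga := gB2q1) (Gb := gB3q1) (D1 := dB0q0) (D2 := dB2q2) (Da := dB2q1) (Db := dB3q1) cB012R_ok B hρ hen (gatB00 x) (gatB22 x) (fun h => absurd h (by decide)) (fun _ => gatB31 x) (datB00 x) (datB22 x) (fun h => absurd h (by decide)) (fun _ => datB31 x) hd hx hx' CW.B012R_022
    · exact corW_cert (G1 := gB0q0) (G2 := gB2q2) (Ga := gB3q1) (Gb := gB4q1) (D1 := dB0q0) (D2 := dB2q2) (Da := dB3q1) (Db := dB4q1) cB012R_ok B hρ hen (gatB00 x) (gatB22 x) (fun _ => gatB31 x) (fun _ => gatB41 x) (datB00 x) (datB22 x) (fun _ => datB31 x) (fun _ => datB41 x) hd hx hx' CW.B012R_023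
    · exact corW_cert (G1 := gB0q0) (G2 := gB2q2) (Ga := gB4q1) (Gb := gB5q1) (D1 := dB0q0) (D2 := dB2q2) (Da := dB4q1) (Db := dB5q1) cB012R_ok B hρ hen (gatB00 x) (gatB22 x) (fun _ => gatB41 x) (fun _ => gatB51 x) (datB00 x) (datB22 x) (fun _ => datB41 x) (fun _ => datB51 x) hd hx hx' CW.B012R_024
  · intro ρ a B hρ hd i h1 h2
    fin_cases i
    · exact absurd h1 (by norm_num)
    · exact absurd h1 (by norm_num)
    · exact corT_cert (G1 := gB0q0) (G2 := gB2q2) (Ga := gB2q1) (Gb := gB3q1) cB012R_ok B hρ (gatB00 x) (gatB22 x) (fun h => absurd h (by decide)) (fun _ => gatB31 x) hd hx hx' CG.B012R_022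
    · exact corT_cert (G1 := gB0q0) (G2 := gB2q2) (Ga := gB3q1) (Gb := gB4q1) cB012R_ok B hρ (gatB00 x) (gatB22 x) (fun _ => gatB31 x) (fun _ => gatB41 x) hd hx hx' CG.B012R_023
    · exact corT_cert (G1 := gB0q0) (G2 := gB2q2) (Ga := gB4q1) (Gb := gB5q1) cB012R_ok B hρ (gatB00 x) (gatB22 x) (fun _ => gatB41 x) (fun _ => gatB51 x) hd hx hx' CG.B012R_024

theorem altB_B012R_10 {κ x : ℝ} (hκ : κ * h0 = ken x) (hx : ((740881858 : ℕ) : ℝ) / S ≤ x) (hx' : x ≤ (((740881858 : ℕ) : ℝ) + (40050571 : ℕ)) / S) :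
    AltEB 3 κ (eng.v x) (1 / 20) (tnt (h0 * x) (1 / 5)) PP tK tL tC pcB (scP esg pd) [⟨0, 0, 0, 67108864⟩, ⟨1, 1, 0, 67108864⟩, ⟨2, 1, 0, 67108864⟩] 0 1 2 1 0 (sgb true) (sgb false) x := by
  have X : XR 67108864 x := XR.of hx hx' (by norm_num) (by norm_num) (by norm_num) (by norm_num)
  have hen : 0 < eng.v x := en_pos X.x0.le
  refine CornW.altB (C := cB012R) (j := (1 : Fin 6)) (k := (0 : Fin 6)) (Ef := esg) (pd := pd) (o := 1 / 20)
    (cornW_of (C := cB012R) (C0 := c0B) (En := eng) (mo := mog) (j := (1 : Fin 6)) (k := (0 : Fin 6)) (lo := 3) (hi := 5) (W := 67108864) (N0 := 3) cB012R_q (sideB hx hx') gokB (pinU hx hx') dokB X (by norm_num) (by norm_num) (l := (3 : Fin 6)) rfl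
      (gatB10 x) (gatB02 x) (gatB31 x) (datB10 x) (datB02 x) (datB31 x) ?_)
    (cornS_of (C := cB012R) (C0 := c0B) (j := (1 : Fin 6)) (k := (0 : Fin 6)) (lo := 3) (hi := 5) (W := 67108864) (N0 := 3) cB012R_q (sideB hx hx') gokB X (by norm_num) (by norm_num) (l := (3 : Fin 6)) rfl
      (gatB10 x) (gatB02 x) (gatB31 x) ?_)
    (thU (pinU hx hx')) rfl hκ (fun j q y => tC_eq j q y x) (esg_rng X.x0.le (by linarith [X.b, X.p0])).1 (mo_v x) le_rfl le_rfl
  · intro ρ a B hρ hd i h1 h2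
    fin_cases i
    · exact absurd h1 (by norm_num)
    · exact absurd h1 (by norm_num)
    · exact corW_cert (G1 := gB1q0) (G2 := gB0q2) (Ga := gB2q1) (Gb := gB3q1) (D1 := dB1q0) (D2 := dB0q2) (Da := dB2q1) (Db := dB3q1) cB012R_ok B hρ hen (gatB10 x) (gatB02 x) (fun h => absurd h (by decide)) (fun _ => gatB31 x) (datB10 x) (datB02 x) (fun h => absurd h (by decide)) (fun _ => datB31 x) hd hx hx' CW.B012R_102
    · exact corW_cert (G1 := gB1q0) (G2 := gB0q2) (Ga := gB3q1) (Gb := gB4q1) (D1 := dB1q0) (D2 := dB0q2) (Da := dB3q1) (Db := dB4q1) cB012R_ok B hρ hen (gatB10 x) (gatB02 x) (fun _ => gatB31 x) (fun _ => gatB41 x) (datB10 x) (datB02 x) (fun _ => datB31 x) (fun _ => datB41 x) hd hx hx' CW.B012R_103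
    · exact corW_cert (G1 := gB1q0) (G2 := gB0q2) (Ga := gB4q1) (Gb := gB5q1) (D1 := dB1q0) (D2 := dB0q2) (Da := dB4q1) (Db := dB5q1) cB012R_ok B hρ hen (gatB10 x) (gatB02 x) (fun _ => gatB41 x) (fun _ => gatB51 x) (datB10 x) (datB02 x) (fun _ => datB41 x) (fun _ => datB51 x) hd hx hx' CW.B012R_104
  · intro ρ a B hρ hd i h1 h2
    fin_cases i
    · exact absurd h1 (by norm_num)
    · exact absurd h1 (by norm_num)
    · exact corT_cert (G1 := gB1q0) (G2 := gB0q2) (Ga := gB2q1) (Gb := gB3q1) cB012R_ok B hρ (gatB10 x) (gatB02 x) (fun h => absurd h (by decide)) (fun _ => gatB31 x) hd hx hx' CG.B012R_102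
    · exact corT_cert (G1 := gB1q0) (G2 := gB0q2) (Ga := gB3q1) (Gb := gB4q1) cB012R_ok B hρ (gatB10 x) (gatB02 x) (fun _ => gatB31 x) (fun _ => gatB41 x) hd hx hx' CG.B012R_103
    · exact corT_cert (G1 := gB1q0) (G2 := gB0q2) (Ga := gB4q1) (Gb := gB5q1) cB012R_ok B hρ (gatB10 x) (gatB02 x) (fun _ => gatB41 x) (fun _ => gatB51 x) hd hx hx' CG.B012R_104

theorem altB_B012R_11 {κ x : ℝ} (hκ : κ * h0 = ken x) (hx : ((740881858 : ℕ) : ℝ) / S ≤ x) (hx' : x ≤ (((740881858 : ℕ) : ℝ) + (40050571 : ℕ)) / S) :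
    AltEB 3 κ (eng.v x) (1 / 20) (tnt (h0 * x) (1 / 5)) PP tK tL tC pcB (scP esg pd) [⟨0, 0, 0, 67108864⟩, ⟨1, 1, 0, 67108864⟩, ⟨2, 1, 0, 67108864⟩] 0 1 2 1 1 (sgb true) (sgb false) x := by
  have X : XR 67108864 x := XR.of hx hx' (by norm_num) (by norm_num) (by norm_num) (by norm_num)
  have hen : 0 < eng.v x := en_pos X.x0.le
  refine CornW.altB (C := cB012R) (j := (1 : Fin 6)) (k := (1 : Fin 6)) (Ef := esg) (pd := pd) (o := 1 / 20)
    (cornW_of (C := cB012R) (C0 := c0B) (En := eng) (mo := mog) (j := (1 : Fin 6)) (k := (1 : Fin 6)) (lo := 3) (hi := 5) (W := 67108864) (N0 := 3) cB012R_q (sideB hx hx') gokB (pinU hx hx') dokB X (by norm_num) (by norm_num) (l := (3 : Fin 6)) rfl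
      (gatB10 x) (gatB12 x) (gatB31 x) (datB10 x) (datB12 x) (datB31 x) ?_)
    (cornS_of (C := cB012R) (C0 := c0B) (j := (1 : Fin 6)) (k := (1 : Fin 6)) (lo := 3) (hi := 5) (W := 67108864) (N0 := 3) cB012R_q (sideB hx hx') gokB X (by norm_num) (by norm_num) (l := (3 : Fin 6)) rfl
      (gatB10 x) (gatB12 x) (gatB31 x) ?_)
    (thU (pinU hx hx')) rfl hκ (fun j q y => tC_eq j q y x) (esg_rng X.x0.le (by linarith [X.b, X.p0])).1 (mo_v x) le_rfl le_rfl
  · intro ρ a B hρ hd i h1 h2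
    fin_cases i
    · exact absurd h1 (by norm_num)
    · exact absurd h1 (by norm_num)
    · exact corW_cert (G1 := gB1q0) (G2 := gB1q2) (Ga := gB2q1) (Gb := gB3q1) (D1 := dB1q0) (D2 := dB1q2) (Da := dB2q1) (Db := dB3q1) cB012R_ok B hρ hen (gatB10 x) (gatB12 x) (fun h => absurd h (by decide)) (fun _ => gatB31 x) (datB10 x) (datB12 x) (fun h => absurd h (by decide)) (fun _ => datB31 x) hd hx hx' CW.B012R_112
    · exact corW_cert (G1 := gB1q0) (G2 := gB1q2) (Ga := gB3q1) (Gb := gB4q1) (D1 := dB1q0) (D2 := dB1q2) (Da := dB3q1) (Db := dB4q1) cB012R_ok B hρ hen (gatB10 x) (gatB12 x) (fun _ => gatB31 x) (fun _ => gatB41 x) (datB10 x) (datB12 x) (fun _ => datB31 x) (fun _ => datB41 x) hd hx hx' CW.B012R_113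
    · exact corW_cert (G1 := gB1q0) (G2 := gB1q2) (Ga := gB4q1) (Gb := gB5q1) (D1 := dB1q0) (D2 := dB1q2) (Da := dB4q1) (Db := dB5q1) cB012R_ok B hρ hen (gatB10 x) (gatB12 x) (fun _ => gatB41 x) (fun _ => gatB51 x) (datB10 x) (datB12 x) (fun _ => datB41 x) (fun _ => datB51 x) hd hx hx' CW.B012R_114
  · intro ρ a B hρ hd i h1 h2
    fin_cases i
    · exact absurd h1 (by norm_num)
    · exact absurd h1 (by norm_num)
    · exact corT_cert (G1 := gB1q0) (G2 := gB1q2) (Ga := gB2q1) (Gb := gB3q1) cB012R_ok B hρ (gatB10 x) (gatB12 x) (fun h => absurd h (by decide)) (fun _ => gatB31 x) hd hx hx' CG.B012R_112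
    · exact corT_cert (G1 := gB1q0) (G2 := gB1q2) (Ga := gB3q1) (Gb := gB4q1) cB012R_ok B hρ (gatB10 x) (gatB12 x) (fun _ => gatB31 x) (fun _ => gatB41 x) hd hx hx' CG.B012R_113
    · exact corT_cert (G1 := gB1q0) (G2 := gB1q2) (Ga := gB4q1) (Gb := gB5q1) cB012R_ok B hρ (gatB10 x) (gatB12 x) (fun _ => gatB41 x) (fun _ => gatB51 x) hd hx hx' CG.B012R_114

theorem altB_B012R_12 {κ x : ℝ} (hκ : κ * h0 = ken x) (hx : ((740881858 : ℕ) : ℝ) / S ≤ x) (hx' : x ≤ (((740881858 : ℕ) : ℝ) + (40050571 : ℕ)) / S) :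
    AltEB 3 κ (eng.v x) (1 / 20) (tnt (h0 * x) (1 / 5)) PP tK tL tC pcB (scP esg pd) [⟨0, 0, 0, 67108864⟩, ⟨1, 1, 0, 67108864⟩, ⟨2, 1, 0, 67108864⟩] 0 1 2 1 2 (sgb true) (sgb false) x := by
  have X : XR 67108864 x := XR.of hx hx' (by norm_num) (by norm_num) (by norm_num) (by norm_num)
  have hen : 0 < eng.v x := en_pos X.x0.le
  refine CornW.altB (C := cB012R) (j := (1 : Fin 6)) (k := (2 : Fin 6)) (Ef := esg) (pd := pd) (o := 1 / 20)
    (cornW_of (C := cB012R) (C0 := c0B) (En := eng) (mo := mog) (j := (1 : Fin 6)) (k := (2 : Fin 6)) (lo := 3) (hi := 5) (W := 67108864) (N0 := 3) cB012R_q (sideB hx hx') gokB (pinU hx hx') dokB X (by norm_num) (by norm_num) (l := (3 : Fin 6)) rfl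
      (gatB10 x) (gatB22 x) (gatB31 x) (datB10 x) (datB22 x) (datB31 x) ?_)
    (cornS_of (C := cB012R) (C0 := c0B) (j := (1 : Fin 6)) (k := (2 : Fin 6)) (lo := 3) (hi := 5) (W := 67108864) (N0 := 3) cB012R_q (sideB hx hx') gokB X (by norm_num) (by norm_num) (l := (3 : Fin 6)) rfl
      (gatB10 x) (gatB22 x) (gatB31 x) ?_)
    (thU (pinU hx hx')) rfl hκ (fun j q y => tC_eq j q y x) (esg_rng X.x0.le (by linarith [X.b, X.p0])).1 (mo_v x) le_rfl le_rfl
  · intro ρ a B hρ hd i h1 h2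
    fin_cases i
    · exact absurd h1 (by norm_num)
    · exact absurd h1 (by norm_num)
    · exact corW_cert (G1 := gB1q0) (G2 := gB2q2) (Ga := gB2q1) (Gb := gB3q1) (D1 := dB1q0) (D2 := dB2q2) (Da := dB2q1) (Db := dB3q1) cB012R_ok B hρ hen (gatB10 x) (gatB22 x) (fun h => absurd h (by decide)) (fun _ => gatB31 x) (datB10 x) (datB22 x) (fun h => absurd h (by decide)) (fun _ => datB31 x) hd hx hx' CW.B012R_122
    · exact corW_cert (G1 := gB1q0) (G2 := gB2q2) (Ga := gB3q1) (Gb := gB4q1) (D1 := dB1q0) (D2 := dB2q2) (Da := dB3q1) (Db := dB4q1) cB012R_ok B hρ hen (gatB10 x) (gatB22 x) (fun _ => gatB31 x) (fun _ => gatB41 x) (datB10 x) (datB22 x) (fun _ => datB31 x) (fun _ => datB41 x) hd hx hx' CW.B012R_123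
    · exact corW_cert (G1 := gB1q0) (G2 := gB2q2) (Ga := gB4q1) (Gb := gB5q1) (D1 := dB1q0) (D2 := dB2q2) (Da := dB4q1) (Db := dB5q1) cB012R_ok B hρ hen (gatB10 x) (gatB22 x) (fun _ => gatB41 x) (fun _ => gatB51 x) (datB10 x) (datB22 x) (fun _ => datB41 x) (fun _ => datB51 x) hd hx hx' CW.B012R_124
  · intro ρ a B hρ hd i h1 h2
    fin_cases i
    · exact absurd h1 (by norm_num)
    · exact absurd h1 (by norm_num)
    · exact corT_cert (G1 := gB1q0) (G2 := gB2q2) (Ga := gB2q1) (Gb := gB3q1) cB012R_ok B hρ (gatB10 x) (gatB22 x) (fun h => absurd h (by decide)) (fun _ => gatB31 x) hd hx hx' CG.B012R_122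
    · exact corT_cert (G1 := gB1q0) (G2 := gB2q2) (Ga := gB3q1) (Gb := gB4q1) cB012R_ok B hρ (gatB10 x) (gatB22 x) (fun _ => gatB31 x) (fun _ => gatB41 x) hd hx hx' CG.B012R_123
    · exact corT_cert (G1 := gB1q0) (G2 := gB2q2) (Ga := gB4q1) (Gb := gB5q1) cB012R_ok B hρ (gatB10 x) (gatB22 x) (fun _ => gatB41 x) (fun _ => gatB51 x) hd hx hx' CG.B012R_124

theorem altB_B012R_20 {κ x : ℝ} (hκ : κ * h0 = ken x) (hx : ((740881858 : ℕ) : ℝ) / S ≤ x) (hx' : x ≤ (((740881858 : ℕ) : ℝ) + (40050571 : ℕ)) / S) :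
    AltEB 3 κ (eng.v x) (1 / 20) (tnt (h0 * x) (1 / 5)) PP tK tL tC pcB (scP esg pd) [⟨0, 0, 0, 67108864⟩, ⟨1, 1, 0, 67108864⟩, ⟨2, 1, 0, 67108864⟩] 0 1 2 2 0 (sgb true) (sgb false) x := by
  have X : XR 67108864 x := XR.of hx hx' (by norm_num) (by norm_num) (by norm_num) (by norm_num)
  have hen : 0 < eng.v x := en_pos X.x0.le
  refine CornW.altB (C := cB012R) (j := (2 : Fin 6)) (k := (0 : Fin 6)) (Ef := esg) (pd := pd) (o := 1 / 20)
    (cornW_of (C := cB012R) (C0 := c0B) (En := eng) (mo := mog) (j := (2 : Fin 6)) (k := (0 : Fin 6)) (lo := 3) (hi := 5) (W := 67108864) (N0 := 3) cB012R_q (sideB hx hx') gokB (pinU hx hx') dokB X (by norm_num) (by norm_num) (l := (3 : Fin 6)) rfl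
      (gatB20 x) (gatB02 x) (gatB31 x) (datB20 x) (datB02 x) (datB31 x) ?_)
    (cornS_of (C := cB012R) (C0 := c0B) (j := (2 : Fin 6)) (k := (0 : Fin 6)) (lo := 3) (hi := 5) (W := 67108864) (N0 := 3) cB012R_q (sideB hx hx') gokB X (by norm_num) (by norm_num) (l := (3 : Fin 6)) rfl
      (gatB20 x) (gatB02 x) (gatB31 x) ?_)
    (thU (pinU hx hx')) rfl hκ (fun j q y => tC_eq j q y x) (esg_rng X.x0.le (by linarith [X.b, X.p0])).1 (mo_v x) le_rfl le_rfl
  · intro ρ a B hρ hd i h1 h2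
    fin_cases i
    · exact absurd h1 (by norm_num)
    · exact absurd h1 (by norm_num)
    · exact corW_cert (G1 := gB2q0) (G2 := gB0q2) (Ga := gB2q1) (Gb := gB3q1) (D1 := dB2q0) (D2 := dB0q2) (Da := dB2q1) (Db := dB3q1) cB012R_ok B hρ hen (gatB20 x) (gatB02 x) (fun h => absurd h (by decide)) (fun _ => gatB31 x) (datB20 x) (datB02 x) (fun h => absurd h (by decide)) (fun _ => datB31 x) hd hx hx' CW.B012R_202
    · exact corW_cert (G1 := gB2q0) (G2 := gB0q2) (Ga := gB3q1) (Gb := gB4q1) (D1 := dB2q0) (D2 := dB0q2) (Da := dB3q1) (Db := dB4q1) cB012R_ok B hρ hen (gatB20 x) (gatB02 x) (fun _ => gatB31 x) (fun _ => gatB41 x) (datB20 x) (datB02 x) (fun _ => datB31 x) (fun _ => datB41 x) hd hx hx' CW.B012R_203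
    · exact corW_cert (G1 := gB2q0) (G2 := gB0q2) (Ga := gB4q1) (Gb := gB5q1) (D1 := dB2q0) (D2 := dB0q2) (Da := dB4q1) (Db := dB5q1) cB012R_ok B hρ hen (gatB20 x) (gatB02 x) (fun _ => gatB41 x) (fun _ => gatB51 x) (datB20 x) (datB02 x) (fun _ => datB41 x) (fun _ => datB51 x) hd hx hx' CW.B012R_204
  · intro ρ a B hρ hd i h1 h2
    fin_cases i
    · exact absurd h1 (by norm_num)
    · exact absurd h1 (by norm_num)
    · exact corT_cert (G1 := gB2q0) (G2 := gB0q2) (Ga := gB2q1) (Gb := gB3q1) cB012R_ok B hρ (gatB20 x) (gatB02 x) (fun h => absurd h (by decide)) (fun _ => gatB31 x) hd hx hx' CG.B012R_202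
    · exact corT_cert (G1 := gB2q0) (G2 := gB0q2) (Ga := gB3q1) (Gb := gB4q1) cB012R_ok B hρ (gatB20 x) (gatB02 x) (fun _ => gatB31 x) (fun _ => gatB41 x) hd hx hx' CG.B012R_203
    · exact corT_cert (G1 := gB2q0) (G2 := gB0q2) (Ga := gB4q1) (Gb := gB5q1) cB012R_ok B hρ (gatB20 x) (gatB02 x) (fun _ => gatB41 x) (fun _ => gatB51 x) hd hx hx' CG.B012R_204

theorem altB_B012R_21 {κ x : ℝ} (hκ : κ * h0 = ken x) (hx : ((740881858 : ℕ) : ℝ) / S ≤ x) (hx' : x ≤ (((740881858 : ℕ) : ℝ) + (40050571 : ℕ)) / S) :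
    AltEB 3 κ (eng.v x) (1 / 20) (tnt (h0 * x) (1 / 5)) PP tK tL tC pcB (scP esg pd) [⟨0, 0, 0, 67108864⟩, ⟨1, 1, 0, 67108864⟩, ⟨2, 1, 0, 67108864⟩] 0 1 2 2 1 (sgb true) (sgb false) x := by
  have X : XR 67108864 x := XR.of hx hx' (by norm_num) (by norm_num) (by norm_num) (by norm_num)
  have hen : 0 < eng.v x := en_pos X.x0.le
  refine CornW.altB (C := cB012R) (j := (2 : Fin 6)) (k := (1 : Fin 6)) (Ef := esg) (pd := pd) (o := 1 / 20)
    (cornW_of (C := cB012R) (C0 := c0B) (En := eng) (mo := mog) (j := (2 : Fin 6)) (k := (1 : Fin 6)) (lo := 3) (hi := 5) (W := 67108864) (N0 := 3) cB012R_q (sideB hx hx') gokB (pinU hx hx') dokB X (by norm_num) (by norm_num) (l := (3 : Fin 6)) rfl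
      (gatB20 x) (gatB12 x) (gatB31 x) (datB20 x) (datB12 x) (datB31 x) ?_)
    (cornS_of (C := cB012R) (C0 := c0B) (j := (2 : Fin 6)) (k := (1 : Fin 6)) (lo := 3) (hi := 5) (W := 67108864) (N0 := 3) cB012R_q (sideB hx hx') gokB X (by norm_num) (by norm_num) (l := (3 : Fin 6)) rfl
      (gatB20 x) (gatB12 x) (gatB31 x) ?_)
    (thU (pinU hx hx')) rfl hκ (fun j q y => tC_eq j q y x) (esg_rng X.x0.le (by linarith [X.b, X.p0])).1 (mo_v x) le_rfl le_rfl
  · intro ρ a B hρ hd i h1 h2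
    fin_cases i
    · exact absurd h1 (by norm_num)
    · exact absurd h1 (by norm_num)
    · exact corW_cert (G1 := gB2q0) (G2 := gB1q2) (Ga := gB2q1) (Gb := gB3q1) (D1 := dB2q0) (D2 := dB1q2) (Da := dB2q1) (Db := dB3q1) cB012R_ok B hρ hen (gatB20 x) (gatB12 x) (fun h => absurd h (by decide)) (fun _ => gatB31 x) (datB20 x) (datB12 x) (fun h => absurd h (by decide)) (fun _ => datB31 x) hd hx hx' CW.B012R_212
    · exact corW_cert (G1 := gB2q0) (G2 := gB1q2) (Ga := gB3q1) (Gb := gB4q1) (D1 := dB2q0) (D2 := dB1q2) (Da := dB3q1) (Db := dB4q1) cB012R_ok B hρ hen (gatB20 x) (gatB12 x) (fun _ => gatB31 x) (fun _ => gatB41 x) (datB20 x) (datB12 x) (fun _ => datB31 x) (fun _ => datB41 x) hd hx hx' CW.B012R_213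
    · exact corW_cert (G1 := gB2q0) (G2 := gB1q2) (Ga := gB4q1) (Gb := gB5q1) (D1 := dB2q0) (D2 := dB1q2) (Da := dB4q1) (Db := dB5q1) cB012R_ok B hρ hen (gatB20 x) (gatB12 x) (fun _ => gatB41 x) (fun _ => gatB51 x) (datB20 x) (datB12 x) (fun _ => datB41 x) (fun _ => datB51 x) hd hx hx' CW.B012R_214
  · intro ρ a B hρ hd i h1 h2
    fin_cases i
    · exact absurd h1 (by norm_num)
    · exact absurd h1 (by norm_num)
    · exact corT_cert (G1 := gB2q0) (G2 := gB1q2) (Ga := gB2q1) (Gb := gB3q1) cB012R_ok B hρ (gatB20 x) (gatB12 x) (fun h => absurd h (by decide)) (fun _ => gatB31 x) hd hx hx' CG.B012R_212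
    · exact corT_cert (G1 := gB2q0) (G2 := gB1q2) (Ga := gB3q1) (Gb := gB4q1) cB012R_ok B hρ (gatB20 x) (gatB12 x) (fun _ => gatB31 x) (fun _ => gatB41 x) hd hx hx' CG.B012R_213
    · exact corT_cert (G1 := gB2q0) (G2 := gB1q2) (Ga := gB4q1) (Gb := gB5q1) cB012R_ok B hρ (gatB20 x) (gatB12 x) (fun _ => gatB41 x) (fun _ => gatB51 x) hd hx hx' CG.B012R_214

theorem altB_B012R_22 {κ x : ℝ} (hκ : κ * h0 = ken x) (hx : ((740881858 : ℕ) : ℝ) / S ≤ x) (hx' : x ≤ (((740881858 : ℕ) : ℝ) + (40050571 : ℕ)) / S) :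
    AltEB 3 κ (eng.v x) (1 / 20) (tnt (h0 * x) (1 / 5)) PP tK tL tC pcB (scP esg pd) [⟨0, 0, 0, 67108864⟩, ⟨1, 1, 0, 67108864⟩, ⟨2, 1, 0, 67108864⟩] 0 1 2 2 2 (sgb true) (sgb false) x := by
  have X : XR 67108864 x := XR.of hx hx' (by norm_num) (by norm_num) (by norm_num) (by norm_num)
  have hen : 0 < eng.v x := en_pos X.x0.le
  refine CornW.altB (C := cB012R) (j := (2 : Fin 6)) (k := (2 : Fin 6)) (Ef := esg) (pd := pd) (o := 1 / 20)
    (cornW_of (C := cB012R) (C0 := c0B) (En := eng) (mo := mog) (j := (2 : Fin 6)) (k := (2 : Fin 6)) (lo := 3) (hi := 5) (W := 67108864) (N0 := 3) cB012R_q (sideB hx hx') gokB (pinU hx hx') dokB X (by norm_num) (by norm_num) (l := (3 : Fin 6)) rfl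
      (gatB20 x) (gatB22 x) (gatB31 x) (datB20 x) (datB22 x) (datB31 x) ?_)
    (cornS_of (C := cB012R) (C0 := c0B) (j := (2 : Fin 6)) (k := (2 : Fin 6)) (lo := 3) (hi := 5) (W := 67108864) (N0 := 3) cB012R_q (sideB hx hx') gokB X (by norm_num) (by norm_num) (l := (3 : Fin 6)) rfl
      (gatB20 x) (gatB22 x) (gatB31 x) ?_)
    (thU (pinU hx hx')) rfl hκ (fun j q y => tC_eq j q y x) (esg_rng X.x0.le (by linarith [X.b, X.p0])).1 (mo_v x) le_rfl le_rfl
  · intro ρ a B hρ hd i h1 h2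
    fin_cases i
    · exact absurd h1 (by norm_num)
    · exact absurd h1 (by norm_num)
    · exact corW_cert (G1 := gB2q0) (G2 := gB2q2) (Ga := gB2q1) (Gb := gB3q1) (D1 := dB2q0) (D2 := dB2q2) (Da := dB2q1) (Db := dB3q1) cB012R_ok B hρ hen (gatB20 x) (gatB22 x) (fun h => absurd h (by decide)) (fun _ => gatB31 x) (datB20 x) (datB22 x) (fun h => absurd h (by decide)) (fun _ => datB31 x) hd hx hx' CW.B012R_222
    · exact corW_cert (G1 := gB2q0) (G2 := gB2q2) (Ga := gB3q1) (Gb := gB4q1) (D1 := dB2q0) (D2 := dB2q2) (Da := dB3q1) (Db := dB4q1) cB012R_ok B hρ hen (gatB20 x) (gatB22 x) (fun _ => gatB31 x) (fun _ => gatB41 x) (datB20 x) (datB22 x) (fun _ => datB31 x) (fun _ => datB41 x) hd hx hx' CW.B012R_223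
    · exact corW_cert (G1 := gB2q0) (G2 := gB2q2) (Ga := gB4q1) (Gb := gB5q1) (D1 := dB2q0) (D2 := dB2q2) (Da := dB4q1) (Db := dB5q1) cB012R_ok B hρ hen (gatB20 x) (gatB22 x) (fun _ => gatB41 x) (fun _ => gatB51 x) (datB20 x) (datB22 x) (fun _ => datB41 x) (fun _ => datB51 x) hd hx hx' CW.B012R_224
  · intro ρ a B hρ hd i h1 h2
    fin_cases i
    · exact absurd h1 (by norm_num)
    · exact absurd h1 (by norm_num)
    · exact corT_cert (G1 := gB2q0) (G2 := gB2q2) (Ga := gB2q1) (Gb := gB3q1) cB012R_ok B hρ (gatB20 x) (gatB22 x) (fun h => absurd h (by decide)) (fun _ => gatB31 x) hd hx hx' CG.B012R_222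
    · exact corT_cert (G1 := gB2q0) (G2 := gB2q2) (Ga := gB3q1) (Gb := gB4q1) cB012R_ok B hρ (gatB20 x) (gatB22 x) (fun _ => gatB31 x) (fun _ => gatB41 x) hd hx hx' CG.B012R_223
    · exact corT_cert (G1 := gB2q0) (G2 := gB2q2) (Ga := gB4q1) (Gb := gB5q1) cB012R_ok B hρ (gatB20 x) (gatB22 x) (fun _ => gatB41 x) (fun _ => gatB51 x) hd hx hx' CG.B012R_224

theorem altB_B022E_00 {κ x : ℝ} (hκ : κ * h0 = ken x) (hx : ((740881858 : ℕ) : ℝ) / S ≤ x) (hx' : x ≤ (((740881858 : ℕ) : ℝ) + (40050571 : ℕ)) / S) :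
    AltEB 3 κ (eng.v x) (1 / 20) (tnt (h0 * x) (1 / 5)) PP tK tL tC pcB (scP esg pd) [⟨0, 0, 0, 67108864⟩, ⟨1, 1, 0, 67108864⟩, ⟨2, 1, 0, 67108864⟩] 0 2 2 0 0 (sgb true) (sgb true) x := by
  have X : XR 67108864 x := XR.of hx hx' (by norm_num) (by norm_num) (by norm_num) (by norm_num)
  have hen : 0 < eng.v x := en_pos X.x0.le
  refine CornW.altB (C := cB022E) (j := (0 : Fin 6)) (k := (0 : Fin 6)) (Ef := esg) (pd := pd) (o := 1 / 20)
    (cornW_of (C := cB022E) (C0 := c0B) (En := eng) (mo := mog) (j := (0 : Fin 6)) (k := (0 : Fin 6)) (lo := 0) (hi := 2) (W := 67108864) (N0 := 3) cB022E_q (sideB hx hx') gokB (pinU hx hx') dokB X (by norm_num) (by norm_num) (l := (0 : Fin 6)) rfl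
      (gatB00 x) (gatB02 x) (gatB02 x) (datB00 x) (datB02 x) (datB02 x) ?_)
    (cornS_of (C := cB022E) (C0 := c0B) (j := (0 : Fin 6)) (k := (0 : Fin 6)) (lo := 0) (hi := 2) (W := 67108864) (N0 := 3) cB022E_q (sideB hx hx') gokB X (by norm_num) (by norm_num) (l := (0 : Fin 6)) rfl
      (gatB00 x) (gatB02 x) (gatB02 x) ?_)
    (thU (pinU hx hx')) rfl hκ (fun j q y => tC_eq j q y x) (esg_rng X.x0.le (by linarith [X.b, X.p0])).1 (mo_v x) le_rfl le_rfl
  · intro ρ a B hρ hd i h1 h2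
    fin_cases i
    · exact corW_cert (G1 := gB0q0) (G2 := gB0q2) (Ga := gB0q2) (Gb := gB1q2) (D1 := dB0q0) (D2 := dB0q2) (Da := dB0q2) (Db := dB1q2) cB022E_ok B hρ hen (gatB00 x) (gatB02 x) (fun _ => gatB02 x) (fun _ => gatB12 x) (datB00 x) (datB02 x) (fun _ => datB02 x) (fun _ => datB12 x) hd hx hx' CW.B022E_000
    · exact corW_cert (G1 := gB0q0) (G2 := gB0q2) (Ga := gB1q2) (Gb := gB2q2) (D1 := dB0q0) (D2 := dB0q2) (Da := dB1q2) (Db := dB2q2) cB022E_ok B hρ hen (gatB00 x) (gatB02 x) (fun _ => gatB12 x) (fun _ => gatB22 x) (datB00 x) (datB02 x) (fun _ => datB12 x) (fun _ => datB22 x) hd hx hx' CW.B022E_001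
    · exact corW_cert (G1 := gB0q0) (G2 := gB0q2) (Ga := gB2q2) (Gb := gB3q2) (D1 := dB0q0) (D2 := dB0q2) (Da := dB2q2) (Db := dB3q2) cB022E_ok B hρ hen (gatB00 x) (gatB02 x) (fun _ => gatB22 x) (fun h => absurd h (by decide)) (datB00 x) (datB02 x) (fun _ => datB22 x) (fun h => absurd h (by decide)) hd hx hx' CW.B022E_002
    · exact absurd h2 (by norm_num)
    · exact absurd h2 (by norm_num)
  · intro ρ a B hρ hd i h1 h2
    fin_cases i
    · exact corT_cert (G1 := gB0q0) (G2 := gB0q2) (Ga := gB0q2) (Gb := gB1q2) cB022E_ok B hρ (gatB00 x) (gatB02 x) (fun _ => gatB02 x) (fun _ => gatB12 x) hd hx hx' CG.B022E_000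
    · exact corT_cert (G1 := gB0q0) (G2 := gB0q2) (Ga := gB1q2) (Gb := gB2q2) cB022E_ok B hρ (gatB00 x) (gatB02 x) (fun _ => gatB12 x) (fun _ => gatB22 x) hd hx hx' CG.B022E_001
    · exact corT_cert (G1 := gB0q0) (G2 := gB0q2) (Ga := gB2q2) (Gb := gB3q2) cB022E_ok B hρ (gatB00 x) (gatB02 x) (fun _ => gatB22 x) (fun h => absurd h (by decide)) hd hx hx' CG.B022E_002
    · exact absurd h2 (by norm_num)
    · exact absurd h2 (by norm_num)

theorem altB_B022E_01 {κ x : ℝ} (hκ : κ * h0 = ken x) (hx : ((740881858 : ℕ) : ℝ) / S ≤ x) (hx' : x ≤ (((740881858 : ℕ) : ℝ) + (40050571 : ℕ)) / S) :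
    AltEB 3 κ (eng.v x) (1 / 20) (tnt (h0 * x) (1 / 5)) PP tK tL tC pcB (scP esg pd) [⟨0, 0, 0, 67108864⟩, ⟨1, 1, 0, 67108864⟩, ⟨2, 1, 0, 67108864⟩] 0 2 2 0 1 (sgb true) (sgb true) x := by
  have X : XR 67108864 x := XR.of hx hx' (by norm_num) (by norm_num) (by norm_num) (by norm_num)
  have hen : 0 < eng.v x := en_pos X.x0.le
  refine CornW.altB (C := cB022E) (j := (0 : Fin 6)) (k := (1 : Fin 6)) (Ef := esg) (pd := pd) (o := 1 / 20)
    (cornW_of (C := cB022E) (C0 := c0B) (En := eng) (mo := mog) (j := (0 : Fin 6)) (k := (1 : Fin 6)) (lo := 0) (hi := 2) (W := 67108864) (N0 := 3) cB022E_q (sideB hx hx') gokB (pinU hx hx') dokB X (by norm_num) (by norm_num) (l := (0 : Fin 6)) rfl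
      (gatB00 x) (gatB12 x) (gatB02 x) (datB00 x) (datB12 x) (datB02 x) ?_)
    (cornS_of (C := cB022E) (C0 := c0B) (j := (0 : Fin 6)) (k := (1 : Fin 6)) (lo := 0) (hi := 2) (W := 67108864) (N0 := 3) cB022E_q (sideB hx hx') gokB X (by norm_num) (by norm_num) (l := (0 : Fin 6)) rfl
      (gatB00 x) (gatB12 x) (gatB02 x) ?_)
    (thU (pinU hx hx')) rfl hκ (fun j q y => tC_eq j q y x) (esg_rng X.x0.le (by linarith [X.b, X.p0])).1 (mo_v x) le_rfl le_rfl
  · intro ρ a B hρ hd i h1 h2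
    fin_cases i
    · exact corW_cert (G1 := gB0q0) (G2 := gB1q2) (Ga := gB0q2) (Gb := gB1q2) (D1 := dB0q0) (D2 := dB1q2) (Da := dB0q2) (Db := dB1q2) cB022E_ok B hρ hen (gatB00 x) (gatB12 x) (fun _ => gatB02 x) (fun _ => gatB12 x) (datB00 x) (datB12 x) (fun _ => datB02 x) (fun _ => datB12 x) hd hx hx' CW.B022E_010
    · exact corW_cert (G1 := gB0q0) (G2 := gB1q2) (Ga := gB1q2) (Gb := gB2q2) (D1 := dB0q0) (D2 := dB1q2) (Da := dB1q2) (Db := dB2q2) cB022E_ok B hρ hen (gatB00 x) (gatB12 x) (fun _ => gatB12 x) (fun _ => gatB22 x) (datB00 x) (datB12 x) (fun _ => datB12 x) (fun _ => datB22 x) hd hx hx' CW.B022E_011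
    · exact corW_cert (G1 := gB0q0) (G2 := gB1q2) (Ga := gB2q2) (Gb := gB3q2) (D1 := dB0q0) (D2 := dB1q2) (Da := dB2q2) (Db := dB3q2) cB022E_ok B hρ hen (gatB00 x) (gatB12 x) (fun _ => gatB22 x) (fun h => absurd h (by decide)) (datB00 x) (datB12 x) (fun _ => datB22 x) (fun h => absurd h (by decide)) hd hx hx' CW.B022E_012
    · exact absurd h2 (by norm_num)
    · exact absurd h2 (by norm_num)
  · intro ρ a B hρ hd i h1 h2
    fin_cases i
    · exact corT_cert (G1 := gB0q0) (G2 := gB1q2) (Ga := gB0q2) (Gb := gB1q2) cB022E_ok B hρ (gatB00 x) (gatB12 x) (fun _ => gatB02 x) (fun _ => gatB12 x) hd hx hx' CG.B022E_010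
    · exact corT_cert (G1 := gB0q0) (G2 := gB1q2) (Ga := gB1q2) (Gb := gB2q2) cB022E_ok B hρ (gatB00 x) (gatB12 x) (fun _ => gatB12 x) (fun _ => gatB22 x) hd hx hx' CG.B022E_011
    · exact corT_cert (G1 := gB0q0) (G2 := gB1q2) (Ga := gB2q2) (Gb := gB3q2) cB022E_ok B hρ (gatB00 x) (gatB12 x) (fun _ => gatB22 x) (fun h => absurd h (by decide)) hd hx hx' CG.B022E_012
    · exact absurd h2 (by norm_num)
    · exact absurd h2 (by norm_num)

theorem altB_B022E_02 {κ x : ℝ} (hκ : κ * h0 = ken x) (hx : ((740881858 : ℕ) : ℝ) / S ≤ x) (hx' : x ≤ (((740881858 : ℕ) : ℝ) + (40050571 : ℕ)) / S) :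
    AltEB 3 κ (eng.v x) (1 / 20) (tnt (h0 * x) (1 / 5)) PP tK tL tC pcB (scP esg pd) [⟨0, 0, 0, 67108864⟩, ⟨1, 1, 0, 67108864⟩, ⟨2, 1, 0, 67108864⟩] 0 2 2 0 2 (sgb true) (sgb true) x := by
  have X : XR 67108864 x := XR.of hx hx' (by norm_num) (by norm_num) (by norm_num) (by norm_num)
  have hen : 0 < eng.v x := en_pos X.x0.le
  refine CornW.altB (C := cB022E) (j := (0 : Fin 6)) (k := (2 : Fin 6)) (Ef := esg) (pd := pd) (o := 1 / 20)
    (cornW_of (C := cB022E) (C0 := c0B) (En := eng) (mo := mog) (j := (0 : Fin 6)) (k := (2 : Fin 6)) (lo := 0) (hi := 2) (W := 67108864) (N0 := 3) cB022E_q (sideB hx hx') gokB (pinU hx hx') dokB X (by norm_num) (by norm_num) (l := (0 : Fin 6)) rfl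
      (gatB00 x) (gatB22 x) (gatB02 x) (datB00 x) (datB22 x) (datB02 x) ?_)
    (cornS_of (C := cB022E) (C0 := c0B) (j := (0 : Fin 6)) (k := (2 : Fin 6)) (lo := 0) (hi := 2) (W := 67108864) (N0 := 3) cB022E_q (sideB hx hx') gokB X (by norm_num) (by norm_num) (l := (0 : Fin 6)) rfl
      (gatB00 x) (gatB22 x) (gatB02 x) ?_)
    (thU (pinU hx hx')) rfl hκ (fun j q y => tC_eq j q y x) (esg_rng X.x0.le (by linarith [X.b, X.p0])).1 (mo_v x) le_rfl le_rfl
  · intro ρ a B hρ hd i h1 h2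
    fin_cases i
    · exact corW_cert (G1 := gB0q0) (G2 := gB2q2) (Ga := gB0q2) (Gb := gB1q2) (D1 := dB0q0) (D2 := dB2q2) (Da := dB0q2) (Db := dB1q2) cB022E_ok B hρ hen (gatB00 x) (gatB22 x) (fun _ => gatB02 x) (fun _ => gatB12 x) (datB00 x) (datB22 x) (fun _ => datB02 x) (fun _ => datB12 x) hd hx hx' CW.B022E_020
    · exact corW_cert (G1 := gB0q0) (G2 := gB2q2) (Ga := gB1q2) (Gb := gB2q2) (D1 := dB0q0) (D2 := dB2q2) (Da := dB1q2) (Db := dB2q2) cB022E_ok B hρ hen (gatB00 x) (gatB22 x) (fun _ => gatB12 x) (fun _ => gatB22 x) (datB00 x) (datB22 x) (fun _ => datB12 x) (fun _ => datB22 x) hd hx hx' CW.B022E_021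
    · exact corW_cert (G1 := gB0q0) (G2 := gB2q2) (Ga := gB2q2) (Gb := gB3q2) (D1 := dB0q0) (D2 := dB2q2) (Da := dB2q2) (Db := dB3q2) cB022E_ok B hρ hen (gatB00 x) (gatB22 x) (fun _ => gatB22 x) (fun h => absurd h (by decide)) (datB00 x) (datB22 x) (fun _ => datB22 x) (fun h => absurd h (by decide)) hd hx hx' CW.B022E_022
    · exact absurd h2 (by norm_num)
    · exact absurd h2 (by norm_num)
  · intro ρ a B hρ hd i h1 h2
    fin_cases i
    · exact corT_cert (G1 := gB0q0) (G2 := gB2q2) (Ga := gB0q2) (Gb := gB1q2) cB022E_ok B hρ (gatB00 x) (gatB22 x) (fun _ => gatB02 x) (fun _ => gatB12 x) hd hx hx' CG.B022E_020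
    · exact corT_cert (G1 := gB0q0) (G2 := gB2q2) (Ga := gB1q2) (Gb := gB2q2) cB022E_ok B hρ (gatB00 x) (gatB22 x) (fun _ => gatB12 x) (fun _ => gatB22 x) hd hx hx' CG.B022E_021
    · exact corT_cert (G1 := gB0q0) (G2 := gB2q2) (Ga := gB2q2) (Gb := gB3q2) cB022E_ok B hρ (gatB00 x) (gatB22 x) (fun _ => gatB22 x) (fun h => absurd h (by decide)) hd hx hx' CG.B022E_022
    · exact absurd h2 (by norm_num)
    · exact absurd h2 (by norm_num)

theorem altB_B022E_10 {κ x : ℝ} (hκ : κ * h0 = ken x) (hx : ((740881858 : ℕ) : ℝ) / S ≤ x) (hx' : x ≤ (((740881858 : ℕ) : ℝ) + (40050571 : ℕ)) / S) :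
    AltEB 3 κ (eng.v x) (1 / 20) (tnt (h0 * x) (1 / 5)) PP tK tL tC pcB (scP esg pd) [⟨0, 0, 0, 67108864⟩, ⟨1, 1, 0, 67108864⟩, ⟨2, 1, 0, 67108864⟩] 0 2 2 1 0 (sgb true) (sgb true) x := by
  have X : XR 67108864 x := XR.of hx hx' (by norm_num) (by norm_num) (by norm_num) (by norm_num)
  have hen : 0 < eng.v x := en_pos X.x0.le
  refine CornW.altB (C := cB022E) (j := (1 : Fin 6)) (k := (0 : Fin 6)) (Ef := esg) (pd := pd) (o := 1 / 20)
    (cornW_of (C := cB022E) (C0 := c0B) (En := eng) (mo := mog) (j := (1 : Fin 6)) (k := (0 : Fin 6)) (lo := 0) (hi := 2) (W := 67108864) (N0 := 3) cB022E_q (sideB hx hx') gokB (pinU hx hx') dokB X (by norm_num) (by norm_num) (l := (0 : Fin 6)) rfl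
      (gatB10 x) (gatB02 x) (gatB02 x) (datB10 x) (datB02 x) (datB02 x) ?_)
    (cornS_of (C := cB022E) (C0 := c0B) (j := (1 : Fin 6)) (k := (0 : Fin 6)) (lo := 0) (hi := 2) (W := 67108864) (N0 := 3) cB022E_q (sideB hx hx') gokB X (by norm_num) (by norm_num) (l := (0 : Fin 6)) rfl
      (gatB10 x) (gatB02 x) (gatB02 x) ?_)
    (thU (pinU hx hx')) rfl hκ (fun j q y => tC_eq j q y x) (esg_rng X.x0.le (by linarith [X.b, X.p0])).1 (mo_v x) le_rfl le_rfl
  · intro ρ a B hρ hd i h1 h2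
    fin_cases i
    · exact corW_cert (G1 := gB1q0) (G2 := gB0q2) (Ga := gB0q2) (Gb := gB1q2) (D1 := dB1q0) (D2 := dB0q2) (Da := dB0q2) (Db := dB1q2) cB022E_ok B hρ hen (gatB10 x) (gatB02 x) (fun _ => gatB02 x) (fun _ => gatB12 x) (datB10 x) (datB02 x) (fun _ => datB02 x) (fun _ => datB12 x) hd hx hx' CW.B022E_100
    · exact corW_cert (G1 := gB1q0) (G2 := gB0q2) (Ga := gB1q2) (Gb := gB2q2) (D1 := dB1q0) (D2 := dB0q2) (Da := dB1q2) (Db := dB2q2) cB022E_ok B hρ hen (gatB10 x) (gatB02 x) (fun _ => gatB12 x) (fun _ => gatB22 x) (datB10 x) (datB02 x) (fun _ => datB12 x) (fun _ => datB22 x) hd hx hx' CW.B022E_101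
    · exact corW_cert (G1 := gB1q0) (G2 := gB0q2) (Ga := gB2q2) (Gb := gB3q2) (D1 := dB1q0) (D2 := dB0q2) (Da := dB2q2) (Db := dB3q2) cB022E_ok B hρ hen (gatB10 x) (gatB02 x) (fun _ => gatB22 x) (fun h => absurd h (by decide)) (datB10 x) (datB02 x) (fun _ => datB22 x) (fun h => absurd h (by decide)) hd hx hx' CW.B022E_102
    · exact absurd h2 (by norm_num)
    · exact absurd h2 (by norm_num)
  · intro ρ a B hρ hd i h1 h2
    fin_cases i
    · exact corT_cert (G1 := gB1q0) (G2 := gB0q2) (Ga := gB0q2) (Gb := gB1q2) cB022E_ok B hρ (gatB10 x) (gatB02 x) (fun _ => gatB02 x) (fun _ => gatB12 x) hd hx hx' CG.B022E_100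
    · exact corT_cert (G1 := gB1q0) (G2 := gB0q2) (Ga := gB1q2) (Gb := gB2q2) cB022E_ok B hρ (gatB10 x) (gatB02 x) (fun _ => gatB12 x) (fun _ => gatB22 x) hd hx hx' CG.B022E_101
    · exact corT_cert (G1 := gB1q0) (G2 := gB0q2) (Ga := gB2q2) (Gb := gB3q2) cB022E_ok B hρ (gatB10 x) (gatB02 x) (fun _ => gatB22 x) (fun h => absurd h (by decide)) hd hx hx' CG.B022E_102
    · exact absurd h2 (by norm_num)
    · exact absurd h2 (by norm_num)

theorem altB_B022E_11 {κ x : ℝ} (hκ : κ * h0 = ken x) (hx : ((740881858 : ℕ) : ℝ) / S ≤ x) (hx' : x ≤ (((740881858 : ℕ) : ℝ) + (40050571 : ℕ)) / S) :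
    AltEB 3 κ (eng.v x) (1 / 20) (tnt (h0 * x) (1 / 5)) PP tK tL tC pcB (scP esg pd) [⟨0, 0, 0, 67108864⟩, ⟨1, 1, 0, 67108864⟩, ⟨2, 1, 0, 67108864⟩] 0 2 2 1 1 (sgb true) (sgb true) x := by
  have X : XR 67108864 x := XR.of hx hx' (by norm_num) (by norm_num) (by norm_num) (by norm_num)
  have hen : 0 < eng.v x := en_pos X.x0.le
  refine CornW.altB (C := cB022E) (j := (1 : Fin 6)) (k := (1 : Fin 6)) (Ef := esg) (pd := pd) (o := 1 / 20)
    (cornW_of (C := cB022E) (C0 := c0B) (En := eng) (mo := mog) (j := (1 : Fin 6)) (k := (1 : Fin 6)) (lo := 0) (hi := 2) (W := 67108864) (N0 := 3) cB022E_q (sideB hx hx') gokB (pinU hx hx') dokB X (by norm_num) (by norm_num) (l := (0 : Fin 6)) rfl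
      (gatB10 x) (gatB12 x) (gatB02 x) (datB10 x) (datB12 x) (datB02 x) ?_)
    (cornS_of (C := cB022E) (C0 := c0B) (j := (1 : Fin 6)) (k := (1 : Fin 6)) (lo := 0) (hi := 2) (W := 67108864) (N0 := 3) cB022E_q (sideB hx hx') gokB X (by norm_num) (by norm_num) (l := (0 : Fin 6)) rfl
      (gatB10 x) (gatB12 x) (gatB02 x) ?_)
    (thU (pinU hx hx')) rfl hκ (fun j q y => tC_eq j q y x) (esg_rng X.x0.le (by linarith [X.b, X.p0])).1 (mo_v x) le_rfl le_rfl
  · intro ρ a B hρ hd i h1 h2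
    fin_cases i
    · exact corW_cert (G1 := gB1q0) (G2 := gB1q2) (Ga := gB0q2) (Gb := gB1q2) (D1 := dB1q0) (D2 := dB1q2) (Da := dB0q2) (Db := dB1q2) cB022E_ok B hρ hen (gatB10 x) (gatB12 x) (fun _ => gatB02 x) (fun _ => gatB12 x) (datB10 x) (datB12 x) (fun _ => datB02 x) (fun _ => datB12 x) hd hx hx' CW.B022E_110
    · exact corW_cert (G1 := gB1q0) (G2 := gB1q2) (Ga := gB1q2) (Gb := gB2q2) (D1 := dB1q0) (D2 := dB1q2) (Da := dB1q2) (Db := dB2q2) cB022E_ok B hρ hen (gatB10 x) (gatB12 x) (fun _ => gatB12 x) (fun _ => gatB22 x) (datB10 x) (datB12 x) (fun _ => datB12 x) (fun _ => datB22 x) hd hx hx' CW.B022E_111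
    · exact corW_cert (G1 := gB1q0) (G2 := gB1q2) (Ga := gB2q2) (Gb := gB3q2) (D1 := dB1q0) (D2 := dB1q2) (Da := dB2q2) (Db := dB3q2) cB022E_ok B hρ hen (gatB10 x) (gatB12 x) (fun _ => gatB22 x) (fun h => absurd h (by decide)) (datB10 x) (datB12 x) (fun _ => datB22 x) (fun h => absurd h (by decide)) hd hx hx' CW.B022E_112
    · exact absurd h2 (by norm_num)
    · exact absurd h2 (by norm_num)
  · intro ρ a B hρ hd i h1 h2
    fin_cases i
    · exact corT_cert (G1 := gB1q0) (G2 := gB1q2) (Ga := gB0q2) (Gb := gB1q2) cB022E_ok B hρ (gatB10 x) (gatB12 x) (fun _ => gatB02 x) (fun _ => gatB12 x) hd hx hx' CG.B022E_110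
    · exact corT_cert (G1 := gB1q0) (G2 := gB1q2) (Ga := gB1q2) (Gb := gB2q2) cB022E_ok B hρ (gatB10 x) (gatB12 x) (fun _ => gatB12 x) (fun _ => gatB22 x) hd hx hx' CG.B022E_111
    · exact corT_cert (G1 := gB1q0) (G2 := gB1q2) (Ga := gB2q2) (Gb := gB3q2) cB022E_ok B hρ (gatB10 x) (gatB12 x) (fun _ => gatB22 x) (fun h => absurd h (by decide)) hd hx hx' CG.B022E_112
    · exact absurd h2 (by norm_num)
    · exact absurd h2 (by norm_num)

theorem altB_B022E_12 {κ x : ℝ} (hκ : κ * h0 = ken x) (hx : ((740881858 : ℕ) : ℝ) / S ≤ x) (hx' : x ≤ (((740881858 : ℕ) : ℝ) + (40050571 : ℕ)) / S) :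
    AltEB 3 κ (eng.v x) (1 / 20) (tnt (h0 * x) (1 / 5)) PP tK tL tC pcB (scP esg pd) [⟨0, 0, 0, 67108864⟩, ⟨1, 1, 0, 67108864⟩, ⟨2, 1, 0, 67108864⟩] 0 2 2 1 2 (sgb true) (sgb true) x := by
  have X : XR 67108864 x := XR.of hx hx' (by norm_num) (by norm_num) (by norm_num) (by norm_num)
  have hen : 0 < eng.v x := en_pos X.x0.le
  refine CornW.altB (C := cB022E) (j := (1 : Fin 6)) (k := (2 : Fin 6)) (Ef := esg) (pd := pd) (o := 1 / 20)
    (cornW_of (C := cB022E) (C0 := c0B) (En := eng) (mo := mog) (j := (1 : Fin 6)) (k := (2 : Fin 6)) (lo := 0) (hi := 2) (W := 67108864) (N0 := 3) cB022E_q (sideB hx hx') gokB (pinU hx hx') dokB X (by norm_num) (by norm_num) (l := (0 : Fin 6)) rfl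
      (gatB10 x) (gatB22 x) (gatB02 x) (datB10 x) (datB22 x) (datB02 x) ?_)
    (cornS_of (C := cB022E) (C0 := c0B) (j := (1 : Fin 6)) (k := (2 : Fin 6)) (lo := 0) (hi := 2) (W := 67108864) (N0 := 3) cB022E_q (sideB hx hx') gokB X (by norm_num) (by norm_num) (l := (0 : Fin 6)) rfl
      (gatB10 x) (gatB22 x) (gatB02 x) ?_)
    (thU (pinU hx hx')) rfl hκ (fun j q y => tC_eq j q y x) (esg_rng X.x0.le (by linarith [X.b, X.p0])).1 (mo_v x) le_rfl le_rfl
  · intro ρ a B hρ hd i h1 h2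
    fin_cases i
    · exact corW_cert (G1 := gB1q0) (G2 := gB2q2) (Ga := gB0q2) (Gb := gB1q2) (D1 := dB1q0) (D2 := dB2q2) (Da := dB0q2) (Db := dB1q2) cB022E_ok B hρ hen (gatB10 x) (gatB22 x) (fun _ => gatB02 x) (fun _ => gatB12 x) (datB10 x) (datB22 x) (fun _ => datB02 x) (fun _ => datB12 x) hd hx hx' CW.B022E_120
    · exact corW_cert (G1 := gB1q0) (G2 := gB2q2) (Ga := gB1q2) (Gb := gB2q2) (D1 := dB1q0) (D2 := dB2q2) (Da := dB1q2) (Db := dB2q2) cB022E_ok B hρ hen (gatB10 x) (gatB22 x) (fun _ => gatB12 x) (fun _ => gatB22 x) (datB10 x) (datB22 x) (fun _ => datB12 x) (fun _ => datB22 x) hd hx hx' CW.B022E_121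
    · exact corW_cert (G1 := gB1q0) (G2 := gB2q2) (Ga := gB2q2) (Gb := gB3q2) (D1 := dB1q0) (D2 := dB2q2) (Da := dB2q2) (Db := dB3q2) cB022E_ok B hρ hen (gatB10 x) (gatB22 x) (fun _ => gatB22 x) (fun h => absurd h (by decide)) (datB10 x) (datB22 x) (fun _ => datB22 x) (fun h => absurd h (by decide)) hd hx hx' CW.B022E_122
    · exact absurd h2 (by norm_num)
    · exact absurd h2 (by norm_num)
  · intro ρ a B hρ hd i h1 h2
    fin_cases i
    · exact corT_cert (G1 := gB1q0) (G2 := gB2q2) (Ga := gB0q2) (Gb := gB1q2) cB022E_ok B hρ (gatB10 x) (gatB22 x) (fun _ => gatB02 x) (fun _ => gatB12 x) hd hx hx' CG.B022E_120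
    · exact corT_cert (G1 := gB1q0) (G2 := gB2q2) (Ga := gB1q2) (Gb := gB2q2) cB022E_ok B hρ (gatB10 x) (gatB22 x) (fun _ => gatB12 x) (fun _ => gatB22 x) hd hx hx' CG.B022E_121
    · exact corT_cert (G1 := gB1q0) (G2 := gB2q2) (Ga := gB2q2) (Gb := gB3q2) cB022E_ok B hρ (gatB10 x) (gatB22 x) (fun _ => gatB22 x) (fun h => absurd h (by decide)) hd hx hx' CG.B022E_122
    · exact absurd h2 (by norm_num)
    · exact absurd h2 (by norm_num)

theorem altB_B022E_20 {κ x : ℝ} (hκ : κ * h0 = ken x) (hx : ((740881858 : ℕ) : ℝ) / S ≤ x) (hx' : x ≤ (((740881858 : ℕ) : ℝ) + (40050571 : ℕ)) / S) :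
    AltEB 3 κ (eng.v x) (1 / 20) (tnt (h0 * x) (1 / 5)) PP tK tL tC pcB (scP esg pd) [⟨0, 0, 0, 67108864⟩, ⟨1, 1, 0, 67108864⟩, ⟨2, 1, 0, 67108864⟩] 0 2 2 2 0 (sgb true) (sgb true) x := by
  have X : XR 67108864 x := XR.of hx hx' (by norm_num) (by norm_num) (by norm_num) (by norm_num)
  have hen : 0 < eng.v x := en_pos X.x0.le
  refine CornW.altB (C := cB022E) (j := (2 : Fin 6)) (k := (0 : Fin 6)) (Ef := esg) (pd := pd) (o := 1 / 20)
    (cornW_of (C := cB022E) (C0 := c0B) (En := eng) (mo := mog) (j := (2 : Fin 6)) (k := (0 : Fin 6)) (lo := 0) (hi := 2) (W := 67108864) (N0 := 3) cB022E_q (sideB hx hx') gokB (pinU hx hx') dokB X (by norm_num) (by norm_num) (l := (0 : Fin 6)) rfl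
      (gatB20 x) (gatB02 x) (gatB02 x) (datB20 x) (datB02 x) (datB02 x) ?_)
    (cornS_of (C := cB022E) (C0 := c0B) (j := (2 : Fin 6)) (k := (0 : Fin 6)) (lo := 0) (hi := 2) (W := 67108864) (N0 := 3) cB022E_q (sideB hx hx') gokB X (by norm_num) (by norm_num) (l := (0 : Fin 6)) rfl
      (gatB20 x) (gatB02 x) (gatB02 x) ?_)
    (thU (pinU hx hx')) rfl hκ (fun j q y => tC_eq j q y x) (esg_rng X.x0.le (by linarith [X.b, X.p0])).1 (mo_v x) le_rfl le_rfl
  · intro ρ a B hρ hd i h1 h2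
    fin_cases i
    · exact corW_cert (G1 := gB2q0) (G2 := gB0q2) (Ga := gB0q2) (Gb := gB1q2) (D1 := dB2q0) (D2 := dB0q2) (Da := dB0q2) (Db := dB1q2) cB022E_ok B hρ hen (gatB20 x) (gatB02 x) (fun _ => gatB02 x) (fun _ => gatB12 x) (datB20 x) (datB02 x) (fun _ => datB02 x) (fun _ => datB12 x) hd hx hx' CW.B022E_200
    · exact corW_cert (G1 := gB2q0) (G2 := gB0q2) (Ga := gB1q2) (Gb := gB2q2) (D1 := dB2q0) (D2 := dB0q2) (Da := dB1q2) (Db := dB2q2) cB022E_ok B hρ hen (gatB20 x) (gatB02 x) (fun _ => gatB12 x) (fun _ => gatB22 x) (datB20 x) (datB02 x) (fun _ => datB12 x) (fun _ => datB22 x) hd hx hx' CW.B022E_201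
    · exact corW_cert (G1 := gB2q0) (G2 := gB0q2) (Ga := gB2q2) (Gb := gB3q2) (D1 := dB2q0) (D2 := dB0q2) (Da := dB2q2) (Db := dB3q2) cB022E_ok B hρ hen (gatB20 x) (gatB02 x) (fun _ => gatB22 x) (fun h => absurd h (by decide)) (datB20 x) (datB02 x) (fun _ => datB22 x) (fun h => absurd h (by decide)) hd hx hx' CW.B022E_202
    · exact absurd h2 (by norm_num)
    · exact absurd h2 (by norm_num)
  · intro ρ a B hρ hd i h1 h2
    fin_cases i
    · exact corT_cert (G1 := gB2q0) (G2 := gB0q2) (Ga := gB0q2) (Gb := gB1q2) cB022E_ok B hρ (gatB20 x) (gatB02 x) (fun _ => gatB02 x) (fun _ => gatB12 x) hd hx hx' CG.B022E_200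
    · exact corT_cert (G1 := gB2q0) (G2 := gB0q2) (Ga := gB1q2) (Gb := gB2q2) cB022E_ok B hρ (gatB20 x) (gatB02 x) (fun _ => gatB12 x) (fun _ => gatB22 x) hd hx hx' CG.B022E_201
    · exact corT_cert (G1 := gB2q0) (G2 := gB0q2) (Ga := gB2q2) (Gb := gB3q2) cB022E_ok B hρ (gatB20 x) (gatB02 x) (fun _ => gatB22 x) (fun h => absurd h (by decide)) hd hx hx' CG.B022E_202
    · exact absurd h2 (by norm_num)
    · exact absurd h2 (by norm_num)

theorem altB_B022E_21 {κ x : ℝ} (hκ : κ * h0 = ken x) (hx : ((740881858 : ℕ) : ℝ) / S ≤ x) (hx' : x ≤ (((740881858 : ℕ) : ℝ) + (40050571 : ℕ)) / S) :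
    AltEB 3 κ (eng.v x) (1 / 20) (tnt (h0 * x) (1 / 5)) PP tK tL tC pcB (scP esg pd) [⟨0, 0, 0, 67108864⟩, ⟨1, 1, 0, 67108864⟩, ⟨2, 1, 0, 67108864⟩] 0 2 2 2 1 (sgb true) (sgb true) x := by
  have X : XR 67108864 x := XR.of hx hx' (by norm_num) (by norm_num) (by norm_num) (by norm_num)
  have hen : 0 < eng.v x := en_pos X.x0.le
  refine CornW.altB (C := cB022E) (j := (2 : Fin 6)) (k := (1 : Fin 6)) (Ef := esg) (pd := pd) (o := 1 / 20)
    (cornW_of (C := cB022E) (C0 := c0B) (En := eng) (mo := mog) (j := (2 : Fin 6)) (k := (1 : Fin 6)) (lo := 0) (hi := 2) (W := 67108864) (N0 := 3) cB022E_q (sideB hx hx') gokB (pinU hx hx') dokB X (by norm_num) (by norm_num) (l := (0 : Fin 6)) rfl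
      (gatB20 x) (gatB12 x) (gatB02 x) (datB20 x) (datB12 x) (datB02 x) ?_)
    (cornS_of (C := cB022E) (C0 := c0B) (j := (2 : Fin 6)) (k := (1 : Fin 6)) (lo := 0) (hi := 2) (W := 67108864) (N0 := 3) cB022E_q (sideB hx hx') gokB X (by norm_num) (by norm_num) (l := (0 : Fin 6)) rfl
      (gatB20 x) (gatB12 x) (gatB02 x) ?_)
    (thU (pinU hx hx')) rfl hκ (fun j q y => tC_eq j q y x) (esg_rng X.x0.le (by linarith [X.b, X.p0])).1 (mo_v x) le_rfl le_rfl
  · intro ρ a B hρ hd i h1 h2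
    fin_cases i
    · exact corW_cert (G1 := gB2q0) (G2 := gB1q2) (Ga := gB0q2) (Gb := gB1q2) (D1 := dB2q0) (D2 := dB1q2) (Da := dB0q2) (Db := dB1q2) cB022E_ok B hρ hen (gatB20 x) (gatB12 x) (fun _ => gatB02 x) (fun _ => gatB12 x) (datB20 x) (datB12 x) (fun _ => datB02 x) (fun _ => datB12 x) hd hx hx' CW.B022E_210
    · exact corW_cert (G1 := gB2q0) (G2 := gB1q2) (Ga := gB1q2) (Gb := gB2q2) (D1 := dB2q0) (D2 := dB1q2) (Da := dB1q2) (Db := dB2q2) cB022E_ok B hρ hen (gatB20 x) (gatB12 x) (fun _ => gatB12 x) (fun _ => gatB22 x) (datB20 x) (datB12 x) (fun _ => datB12 x) (fun _ => datB22 x) hd hx hx' CW.B022E_211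
    · exact corW_cert (G1 := gB2q0) (G2 := gB1q2) (Ga := gB2q2) (Gb := gB3q2) (D1 := dB2q0) (D2 := dB1q2) (Da := dB2q2) (Db := dB3q2) cB022E_ok B hρ hen (gatB20 x) (gatB12 x) (fun _ => gatB22 x) (fun h => absurd h (by decide)) (datB20 x) (datB12 x) (fun _ => datB22 x) (fun h => absurd h (by decide)) hd hx hx' CW.B022E_212
    · exact absurd h2 (by norm_num)
    · exact absurd h2 (by norm_num)
  · intro ρ a B hρ hd i h1 h2
    fin_cases i
    · exact corT_cert (G1 := gB2q0) (G2 := gB1q2) (Ga := gB0q2) (Gb := gB1q2) cB022E_ok B hρ (gatB20 x) (gatB12 x) (fun _ => gatB02 x) (fun _ => gatB12 x) hd hx hx' CG.B022E_210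
    · exact corT_cert (G1 := gB2q0) (G2 := gB1q2) (Ga := gB1q2) (Gb := gB2q2) cB022E_ok B hρ (gatB20 x) (gatB12 x) (fun _ => gatB12 x) (fun _ => gatB22 x) hd hx hx' CG.B022E_211
    · exact corT_cert (G1 := gB2q0) (G2 := gB1q2) (Ga := gB2q2) (Gb := gB3q2) cB022E_ok B hρ (gatB20 x) (gatB12 x) (fun _ => gatB22 x) (fun h => absurd h (by decide)) hd hx hx' CG.B022E_212
    · exact absurd h2 (by norm_num)
    · exact absurd h2 (by norm_num)

theorem altB_B022E_22 {κ x : ℝ} (hκ : κ * h0 = ken x) (hx : ((740881858 : ℕ) : ℝ) / S ≤ x) (hx' : x ≤ (((740881858 : ℕ) : ℝ) + (40050571 : ℕ)) / S) :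
    AltEB 3 κ (eng.v x) (1 / 20) (tnt (h0 * x) (1 / 5)) PP tK tL tC pcB (scP esg pd) [⟨0, 0, 0, 67108864⟩, ⟨1, 1, 0, 67108864⟩, ⟨2, 1, 0, 67108864⟩] 0 2 2 2 2 (sgb true) (sgb true) x := by
  have X : XR 67108864 x := XR.of hx hx' (by norm_num) (by norm_num) (by norm_num) (by norm_num)
  have hen : 0 < eng.v x := en_pos X.x0.le
  refine CornW.altB (C := cB022E) (j := (2 : Fin 6)) (k := (2 : Fin 6)) (Ef := esg) (pd := pd) (o := 1 / 20)
    (cornW_of (C := cB022E) (C0 := c0B) (En := eng) (mo := mog) (j := (2 : Fin 6)) (k := (2 : Fin 6)) (lo := 0) (hi := 2) (W := 67108864) (N0 := 3) cB022E_q (sideB hx hx') gokB (pinU hx hx') dokB X (by norm_num) (by norm_num) (l := (0 : Fin 6)) rfl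
      (gatB20 x) (gatB22 x) (gatB02 x) (datB20 x) (datB22 x) (datB02 x) ?_)
    (cornS_of (C := cB022E) (C0 := c0B) (j := (2 : Fin 6)) (k := (2 : Fin 6)) (lo := 0) (hi := 2) (W := 67108864) (N0 := 3) cB022E_q (sideB hx hx') gokB X (by norm_num) (by norm_num) (l := (0 : Fin 6)) rfl
      (gatB20 x) (gatB22 x) (gatB02 x) ?_)
    (thU (pinU hx hx')) rfl hκ (fun j q y => tC_eq j q y x) (esg_rng X.x0.le (by linarith [X.b, X.p0])).1 (mo_v x) le_rfl le_rfl
  · intro ρ a B hρ hd i h1 h2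
    fin_cases i
    · exact corW_cert (G1 := gB2q0) (G2 := gB2q2) (Ga := gB0q2) (Gb := gB1q2) (D1 := dB2q0) (D2 := dB2q2) (Da := dB0q2) (Db := dB1q2) cB022E_ok B hρ hen (gatB20 x) (gatB22 x) (fun _ => gatB02 x) (fun _ => gatB12 x) (datB20 x) (datB22 x) (fun _ => datB02 x) (fun _ => datB12 x) hd hx hx' CW.B022E_220
    · exact corW_cert (G1 := gB2q0) (G2 := gB2q2) (Ga := gB1q2) (Gb := gB2q2) (D1 := dB2q0) (D2 := dB2q2) (Da := dB1q2) (Db := dB2q2) cB022E_ok B hρ hen (gatB20 x) (gatB22 x) (fun _ => gatB12 x) (fun _ => gatB22 x) (datB20 x) (datB22 x) (fun _ => datB12 x) (fun _ => datB22 x) hd hx hx' CW.B022E_221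
    · exact corW_cert (G1 := gB2q0) (G2 := gB2q2) (Ga := gB2q2) (Gb := gB3q2) (D1 := dB2q0) (D2 := dB2q2) (Da := dB2q2) (Db := dB3q2) cB022E_ok B hρ hen (gatB20 x) (gatB22 x) (fun _ => gatB22 x) (fun h => absurd h (by decide)) (datB20 x) (datB22 x) (fun _ => datB22 x) (fun h => absurd h (by decide)) hd hx hx' CW.B022E_222
    · exact absurd h2 (by norm_num)
    · exact absurd h2 (by norm_num)
  · intro ρ a B hρ hd i h1 h2
    fin_cases i
    · exact corT_cert (G1 := gB2q0) (G2 := gB2q2) (Ga := gB0q2) (Gb := gB1q2) cB022E_ok B hρ (gatB20 x) (gatB22 x) (fun _ => gatB02 x) (fun _ => gatB12 x) hd hx hx' CG.B022E_220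
    · exact corT_cert (G1 := gB2q0) (G2 := gB2q2) (Ga := gB1q2) (Gb := gB2q2) cB022E_ok B hρ (gatB20 x) (gatB22 x) (fun _ => gatB12 x) (fun _ => gatB22 x) hd hx hx' CG.B022E_221
    · exact corT_cert (G1 := gB2q0) (G2 := gB2q2) (Ga := gB2q2) (Gb := gB3q2) cB022E_ok B hρ (gatB20 x) (gatB22 x) (fun _ => gatB22 x) (fun h => absurd h (by decide)) hd hx hx' CG.B022E_222
    · exact absurd h2 (by norm_num)
    · exact absurd h2 (by norm_num)

theorem altB_B022L_05 {κ x : ℝ} (hκ : κ * h0 = ken x) (hx : ((740881858 : ℕ) : ℝ) / S ≤ x) (hx' : x ≤ (((740881858 : ℕ) : ℝ) + (40050571 : ℕ)) / S) :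
    AltEB 3 κ (eng.v x) (1 / 20) (tnt (h0 * x) (1 / 5)) PP tK tL tC pcB (scP esg pd) [⟨0, 0, 0, 67108864⟩, ⟨1, 1, 0, 67108864⟩, ⟨2, 1, 0, 67108864⟩] 0 2 2 0 5 (sgb true) (sgb true) x := by
  have X : XR 67108864 x := XR.of hx hx' (by norm_num) (by norm_num) (by norm_num) (by norm_num)
  have hen : 0 < eng.v x := en_pos X.x0.le
  refine CornW.altB (C := cB022L) (j := (0 : Fin 6)) (k := (5 : Fin 6)) (Ef := esg) (pd := pd) (o := 1 / 20)
    (cornW_of (C := cB022L) (C0 := c0B) (En := eng) (mo := mog) (j := (0 : Fin 6)) (k := (5 : Fin 6)) (lo := 0) (hi := 2) (W := 67108864) (N0 := 3) cB022L_q (sideB hx hx') gokB (pinU hx hx') dokB X (by norm_num) (by norm_num) (l := (0 : Fin 6)) rfl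
      (gatB00 x) (gatB52 x) (gatB02 x) (datB00 x) (datB52 x) (datB02 x) ?_)
    (cornS_of (C := cB022L) (C0 := c0B) (j := (0 : Fin 6)) (k := (5 : Fin 6)) (lo := 0) (hi := 2) (W := 67108864) (N0 := 3) cB022L_q (sideB hx hx') gokB X (by norm_num) (by norm_num) (l := (0 : Fin 6)) rfl
      (gatB00 x) (gatB52 x) (gatB02 x) ?_)
    (thU (pinU hx hx')) rfl hκ (fun j q y => tC_eq j q y x) (esg_rng X.x0.le (by linarith [X.b, X.p0])).1 (mo_v x) le_rfl le_rfl
  · intro ρ a B hρ hd i h1 h2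
    fin_cases i
    · exact corW_cert (G1 := gB0q0) (G2 := gB5q2) (Ga := gB0q2) (Gb := gB1q2) (D1 := dB0q0) (D2 := dB5q2) (Da := dB0q2) (Db := dB1q2) cB022L_ok B hρ hen (gatB00 x) (gatB52 x) (fun _ => gatB02 x) (fun _ => gatB12 x) (datB00 x) (datB52 x) (fun _ => datB02 x) (fun _ => datB12 x) hd hx hx' CW.B022L_050
    · exact corW_cert (G1 := gB0q0) (G2 := gB5q2) (Ga := gB1q2) (Gb := gB2q2) (D1 := dB0q0) (D2 := dB5q2) (Da := dB1q2) (Db := dB2q2) cB022L_ok B hρ hen (gatB00 x) (gatB52 x) (fun _ => gatB12 x) (fun _ => gatB22 x) (datB00 x) (datB52 x) (fun _ => datB12 x) (fun _ => datB22 x) hd hx hx' CW.B022L_051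
    · exact corW_cert (G1 := gB0q0) (G2 := gB5q2) (Ga := gB2q2) (Gb := gB3q2) (D1 := dB0q0) (D2 := dB5q2) (Da := dB2q2) (Db := dB3q2) cB022L_ok B hρ hen (gatB00 x) (gatB52 x) (fun _ => gatB22 x) (fun h => absurd h (by decide)) (datB00 x) (datB52 x) (fun _ => datB22 x) (fun h => absurd h (by decide)) hd hx hx' CW.B022L_052
    · exact absurd h2 (by norm_num)
    · exact absurd h2 (by norm_num)
  · intro ρ a B hρ hd i h1 h2
    fin_cases i
    · exact corX_cert (G1 := gB0q0) (G2 := gB5q2) (Ga := gB0q2) (Gb := gB1q2) (GT := gB0q2) cB022L_ok tB022L_ok B hρ (gatB00 x) (gatB52 x) (fun _ => gatB02 x) (fun _ => gatB12 x) rfl (tgh_B022L (kodd x) (gpu0 x) (gpt2 x) (gpu2 x) (gatB00 x) (gatB52 x) (gatB02 x) B (le_sixteenth hd (by norm_num))) hd hx hx' CG.B022L_050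
    · exact corT_cert (G1 := gB0q0) (G2 := gB5q2) (Ga := gB1q2) (Gb := gB2q2) cB022L_ok B hρ (gatB00 x) (gatB52 x) (fun _ => gatB12 x) (fun _ => gatB22 x) hd hx hx' CG.B022L_051
    · exact corT_cert (G1 := gB0q0) (G2 := gB5q2) (Ga := gB2q2) (Gb := gB3q2) cB022L_ok B hρ (gatB00 x) (gatB52 x) (fun _ => gatB22 x) (fun h => absurd h (by decide)) hd hx hx' CG.B022L_052
    · exact absurd h2 (by norm_num)
    · exact absurd h2 (by norm_num)

theorem altB_B022L_15 {κ x : ℝ} (hκ : κ * h0 = ken x) (hx : ((740881858 : ℕ) : ℝ) / S ≤ x) (hx' : x ≤ (((740881858 : ℕ) : ℝ) + (40050571 : ℕ)) / S) :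
    AltEB 3 κ (eng.v x) (1 / 20) (tnt (h0 * x) (1 / 5)) PP tK tL tC pcB (scP esg pd) [⟨0, 0, 0, 67108864⟩, ⟨1, 1, 0, 67108864⟩, ⟨2, 1, 0, 67108864⟩] 0 2 2 1 5 (sgb true) (sgb true) x := by
  have X : XR 67108864 x := XR.of hx hx' (by norm_num) (by norm_num) (by norm_num) (by norm_num)
  have hen : 0 < eng.v x := en_pos X.x0.le
  refine CornW.altB (C := cB022L) (j := (1 : Fin 6)) (k := (5 : Fin 6)) (Ef := esg) (pd := pd) (o := 1 / 20)
    (cornW_of (C := cB022L) (C0 := c0B) (En := eng) (mo := mog) (j := (1 : Fin 6)) (k := (5 : Fin 6)) (lo := 0) (hi := 2) (W := 67108864) (N0 := 3) cB022L_q (sideB hx hx') gokB (pinU hx hx') dokB X (by norm_num) (by norm_num) (l := (0 : Fin 6)) rfl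
      (gatB10 x) (gatB52 x) (gatB02 x) (datB10 x) (datB52 x) (datB02 x) ?_)
    (cornS_of (C := cB022L) (C0 := c0B) (j := (1 : Fin 6)) (k := (5 : Fin 6)) (lo := 0) (hi := 2) (W := 67108864) (N0 := 3) cB022L_q (sideB hx hx') gokB X (by norm_num) (by norm_num) (l := (0 : Fin 6)) rfl
      (gatB10 x) (gatB52 x) (gatB02 x) ?_)
    (thU (pinU hx hx')) rfl hκ (fun j q y => tC_eq j q y x) (esg_rng X.x0.le (by linarith [X.b, X.p0])).1 (mo_v x) le_rfl le_rfl
  · intro ρ a B hρ hd i h1 h2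
    fin_cases i
    · exact corW_cert (G1 := gB1q0) (G2 := gB5q2) (Ga := gB0q2) (Gb := gB1q2) (D1 := dB1q0) (D2 := dB5q2) (Da := dB0q2) (Db := dB1q2) cB022L_ok B hρ hen (gatB10 x) (gatB52 x) (fun _ => gatB02 x) (fun _ => gatB12 x) (datB10 x) (datB52 x) (fun _ => datB02 x) (fun _ => datB12 x) hd hx hx' CW.B022L_150
    · exact corW_cert (G1 := gB1q0) (G2 := gB5q2) (Ga := gB1q2) (Gb := gB2q2) (D1 := dB1q0) (D2 := dB5q2) (Da := dB1q2) (Db := dB2q2) cB022L_ok B hρ hen (gatB10 x) (gatB52 x) (fun _ => gatB12 x) (fun _ => gatB22 x) (datB10 x) (datB52 x) (fun _ => datB12 x) (fun _ => datB22 x) hd hx hx' CW.B022L_151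
    · exact corW_cert (G1 := gB1q0) (G2 := gB5q2) (Ga := gB2q2) (Gb := gB3q2) (D1 := dB1q0) (D2 := dB5q2) (Da := dB2q2) (Db := dB3q2) cB022L_ok B hρ hen (gatB10 x) (gatB52 x) (fun _ => gatB22 x) (fun h => absurd h (by decide)) (datB10 x) (datB52 x) (fun _ => datB22 x) (fun h => absurd h (by decide)) hd hx hx' CW.B022L_152
    · exact absurd h2 (by norm_num)
    · exact absurd h2 (by norm_num)
  · intro ρ a B hρ hd i h1 h2
    fin_cases i
    · exact corT_cert (G1 := gB1q0) (G2 := gB5q2) (Ga := gB0q2) (Gb := gB1q2) cB022L_ok B hρ (gatB10 x) (gatB52 x) (fun _ => gatB02 x) (fun _ => gatB12 x) hd hx hx' CG.B022L_150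
    · exact corT_cert (G1 := gB1q0) (G2 := gB5q2) (Ga := gB1q2) (Gb := gB2q2) cB022L_ok B hρ (gatB10 x) (gatB52 x) (fun _ => gatB12 x) (fun _ => gatB22 x) hd hx hx' CG.B022L_151
    · exact corT_cert (G1 := gB1q0) (G2 := gB5q2) (Ga := gB2q2) (Gb := gB3q2) cB022L_ok B hρ (gatB10 x) (gatB52 x) (fun _ => gatB22 x) (fun h => absurd h (by decide)) hd hx hx' CG.B022L_152
    · exact absurd h2 (by norm_num)
    · exact absurd h2 (by norm_num)

theorem altB_B022L_25 {κ x : ℝ} (hκ : κ * h0 = ken x) (hx : ((740881858 : ℕ) : ℝ) / S ≤ x) (hx' : x ≤ (((740881858 : ℕ) : ℝ) + (40050571 : ℕ)) / S) :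
    AltEB 3 κ (eng.v x) (1 / 20) (tnt (h0 * x) (1 / 5)) PP tK tL tC pcB (scP esg pd) [⟨0, 0, 0, 67108864⟩, ⟨1, 1, 0, 67108864⟩, ⟨2, 1, 0, 67108864⟩] 0 2 2 2 5 (sgb true) (sgb true) x := by
  have X : XR 67108864 x := XR.of hx hx' (by norm_num) (by norm_num) (by norm_num) (by norm_num)
  have hen : 0 < eng.v x := en_pos X.x0.le
  refine CornW.altB (C := cB022L) (j := (2 : Fin 6)) (k := (5 : Fin 6)) (Ef := esg) (pd := pd) (o := 1 / 20)
    (cornW_of (C := cB022L) (C0 := c0B) (En := eng) (mo := mog) (j := (2 : Fin 6)) (k := (5 : Fin 6)) (lo := 0) (hi := 2) (W := 67108864) (N0 := 3) cB022L_q (sideB hx hx') gokB (pinU hx hx') dokB X (by norm_num) (by norm_num) (l := (0 : Fin 6)) rfl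
      (gatB20 x) (gatB52 x) (gatB02 x) (datB20 x) (datB52 x) (datB02 x) ?_)
    (cornS_of (C := cB022L) (C0 := c0B) (j := (2 : Fin 6)) (k := (5 : Fin 6)) (lo := 0) (hi := 2) (W := 67108864) (N0 := 3) cB022L_q (sideB hx hx') gokB X (by norm_num) (by norm_num) (l := (0 : Fin 6)) rfl
      (gatB20 x) (gatB52 x) (gatB02 x) ?_)
    (thU (pinU hx hx')) rfl hκ (fun j q y => tC_eq j q y x) (esg_rng X.x0.le (by linarith [X.b, X.p0])).1 (mo_v x) le_rfl le_rfl
  · intro ρ a B hρ hd i h1 h2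
    fin_cases i
    · exact corW_cert (G1 := gB2q0) (G2 := gB5q2) (Ga := gB0q2) (Gb := gB1q2) (D1 := dB2q0) (D2 := dB5q2) (Da := dB0q2) (Db := dB1q2) cB022L_ok B hρ hen (gatB20 x) (gatB52 x) (fun _ => gatB02 x) (fun _ => gatB12 x) (datB20 x) (datB52 x) (fun _ => datB02 x) (fun _ => datB12 x) hd hx hx' CW.B022L_250
    · exact corW_cert (G1 := gB2q0) (G2 := gB5q2) (Ga := gB1q2) (Gb := gB2q2) (D1 := dB2q0) (D2 := dB5q2) (Da := dB1q2) (Db := dB2q2) cB022L_ok B hρ hen (gatB20 x) (gatB52 x) (fun _ => gatB12 x) (fun _ => gatB22 x) (datB20 x) (datB52 x) (fun _ => datB12 x) (fun _ => datB22 x) hd hx hx' CW.B022L_251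
    · exact corW_cert (G1 := gB2q0) (G2 := gB5q2) (Ga := gB2q2) (Gb := gB3q2) (D1 := dB2q0) (D2 := dB5q2) (Da := dB2q2) (Db := dB3q2) cB022L_ok B hρ hen (gatB20 x) (gatB52 x) (fun _ => gatB22 x) (fun h => absurd h (by decide)) (datB20 x) (datB52 x) (fun _ => datB22 x) (fun h => absurd h (by decide)) hd hx hx' CW.B022L_252
    · exact absurd h2 (by norm_num)
    · exact absurd h2 (by norm_num)
  · intro ρ a B hρ hd i h1 h2
    fin_cases i
    · exact corT_cert (G1 := gB2q0) (G2 := gB5q2) (Ga := gB0q2) (Gb := gB1q2) cB022L_ok B hρ (gatB20 x) (gatB52 x) (fun _ => gatB02 x) (fun _ => gatB12 x) hd hx hx' CG.B022L_250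
    · exact corT_cert (G1 := gB2q0) (G2 := gB5q2) (Ga := gB1q2) (Gb := gB2q2) cB022L_ok B hρ (gatB20 x) (gatB52 x) (fun _ => gatB12 x) (fun _ => gatB22 x) hd hx hx' CG.B022L_251
    · exact corT_cert (G1 := gB2q0) (G2 := gB5q2) (Ga := gB2q2) (Gb := gB3q2) cB022L_ok B hρ (gatB20 x) (gatB52 x) (fun _ => gatB22 x) (fun h => absurd h (by decide)) hd hx hx' CG.B022L_252
    · exact absurd h2 (by norm_num)
    · exact absurd h2 (by norm_num)

theorem altB_B022R_00 {κ x : ℝ} (hκ : κ * h0 = ken x) (hx : ((740881858 : ℕ) : ℝ) / S ≤ x) (hx' : x ≤ (((740881858 : ℕ) : ℝ) + (40050571 : ℕ)) / S) :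
    AltEB 3 κ (eng.v x) (1 / 20) (tnt (h0 * x) (1 / 5)) PP tK tL tC pcB (scP esg pd) [⟨0, 0, 0, 67108864⟩, ⟨1, 1, 0, 67108864⟩, ⟨2, 1, 0, 67108864⟩] 0 2 2 0 0 (sgb true) (sgb false) x := by
  have X : XR 67108864 x := XR.of hx hx' (by norm_num) (by norm_num) (by norm_num) (by norm_num)
  have hen : 0 < eng.v x := en_pos X.x0.le
  refine CornW.altB (C := cB022R) (j := (0 : Fin 6)) (k := (0 : Fin 6)) (Ef := esg) (pd := pd) (o := 1 / 20)
    (cornW_of (C := cB022R) (C0 := c0B) (En := eng) (mo := mog) (j := (0 : Fin 6)) (k := (0 : Fin 6)) (lo := 5) (hi := 5) (W := 67108864) (N0 := 3) cB022R_q (sideB hx hx') gokB (pinU hx hx') dokB X (by norm_num) (by norm_num) (l := (5 : Fin 6)) rfl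
      (gatB00 x) (gatB02 x) (gatB52 x) (datB00 x) (datB02 x) (datB52 x) ?_)
    (cornS_of (C := cB022R) (C0 := c0B) (j := (0 : Fin 6)) (k := (0 : Fin 6)) (lo := 5) (hi := 5) (W := 67108864) (N0 := 3) cB022R_q (sideB hx hx') gokB X (by norm_num) (by norm_num) (l := (5 : Fin 6)) rfl
      (gatB00 x) (gatB02 x) (gatB52 x) ?_)
    (thU (pinU hx hx')) rfl hκ (fun j q y => tC_eq j q y x) (esg_rng X.x0.le (by linarith [X.b, X.p0])).1 (mo_v x) le_rfl le_rfl
  · intro ρ a B hρ hd i h1 h2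
    fin_cases i
    · exact absurd h1 (by norm_num)
    · exact absurd h1 (by norm_num)
    · exact absurd h1 (by norm_num)
    · exact absurd h1 (by norm_num)
    · exact corW_cert (G1 := gB0q0) (G2 := gB0q2) (Ga := gB4q2) (Gb := gB5q2) (D1 := dB0q0) (D2 := dB0q2) (Da := dB4q2) (Db := dB5q2) cB022R_ok B hρ hen (gatB00 x) (gatB02 x) (fun h => absurd h (by decide)) (fun _ => gatB52 x) (datB00 x) (datB02 x) (fun h => absurd h (by decide)) (fun _ => datB52 x) hd hx hx' CW.B022R_004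
  · intro ρ a B hρ hd i h1 h2
    fin_cases i
    · exact absurd h1 (by norm_num)
    · exact absurd h1 (by norm_num)
    · exact absurd h1 (by norm_num)
    · exact absurd h1 (by norm_num)
    · exact corT_cert (G1 := gB0q0) (G2 := gB0q2) (Ga := gB4q2) (Gb := gB5q2) cB022R_ok B hρ (gatB00 x) (gatB02 x) (fun h => absurd h (by decide)) (fun _ => gatB52 x) hd hx hx' CG.B022R_004

theorem altB_B022R_01 {κ x : ℝ} (hκ : κ * h0 = ken x) (hx : ((740881858 : ℕ) : ℝ) / S ≤ x) (hx' : x ≤ (((740881858 : ℕ) : ℝ) + (40050571 : ℕ)) / S) :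
    AltEB 3 κ (eng.v x) (1 / 20) (tnt (h0 * x) (1 / 5)) PP tK tL tC pcB (scP esg pd) [⟨0, 0, 0, 67108864⟩, ⟨1, 1, 0, 67108864⟩, ⟨2, 1, 0, 67108864⟩] 0 2 2 0 1 (sgb true) (sgb false) x := by
  have X : XR 67108864 x := XR.of hx hx' (by norm_num) (by norm_num) (by norm_num) (by norm_num)
  have hen : 0 < eng.v x := en_pos X.x0.le
  refine CornW.altB (C := cB022R) (j := (0 : Fin 6)) (k := (1 : Fin 6)) (Ef := esg) (pd := pd) (o := 1 / 20)
    (cornW_of (C := cB022R) (C0 := c0B) (En := eng) (mo := mog) (j := (0 : Fin 6)) (k := (1 : Fin 6)) (lo := 5) (hi := 5) (W := 67108864) (N0 := 3) cB022R_q (sideB hx hx') gokB (pinU hx hx') dokB X (by norm_num) (by norm_num) (l := (5 : Fin 6)) rfl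
      (gatB00 x) (gatB12 x) (gatB52 x) (datB00 x) (datB12 x) (datB52 x) ?_)
    (cornS_of (C := cB022R) (C0 := c0B) (j := (0 : Fin 6)) (k := (1 : Fin 6)) (lo := 5) (hi := 5) (W := 67108864) (N0 := 3) cB022R_q (sideB hx hx') gokB X (by norm_num) (by norm_num) (l := (5 : Fin 6)) rfl
      (gatB00 x) (gatB12 x) (gatB52 x) ?_)
    (thU (pinU hx hx')) rfl hκ (fun j q y => tC_eq j q y x) (esg_rng X.x0.le (by linarith [X.b, X.p0])).1 (mo_v x) le_rfl le_rfl
  · intro ρ a B hρ hd i h1 h2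
    fin_cases i
    · exact absurd h1 (by norm_num)
    · exact absurd h1 (by norm_num)
    · exact absurd h1 (by norm_num)
    · exact absurd h1 (by norm_num)
    · exact corW_cert (G1 := gB0q0) (G2 := gB1q2) (Ga := gB4q2) (Gb := gB5q2) (D1 := dB0q0) (D2 := dB1q2) (Da := dB4q2) (Db := dB5q2) cB022R_ok B hρ hen (gatB00 x) (gatB12 x) (fun h => absurd h (by decide)) (fun _ => gatB52 x) (datB00 x) (datB12 x) (fun h => absurd h (by decide)) (fun _ => datB52 x) hd hx hx' CW.B022R_014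
  · intro ρ a B hρ hd i h1 h2
    fin_cases i
    · exact absurd h1 (by norm_num)
    · exact absurd h1 (by norm_num)
    · exact absurd h1 (by norm_num)
    · exact absurd h1 (by norm_num)
    · exact corT_cert (G1 := gB0q0) (G2 := gB1q2) (Ga := gB4q2) (Gb := gB5q2) cB022R_ok B hρ (gatB00 x) (gatB12 x) (fun h => absurd h (by decide)) (fun _ => gatB52 x) hd hx hx' CG.B022R_014

theorem altB_B022R_02 {κ x : ℝ} (hκ : κ * h0 = ken x) (hx : ((740881858 : ℕ) : ℝ) / S ≤ x) (hx' : x ≤ (((740881858 : ℕ) : ℝ) + (40050571 : ℕ)) / S) :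
    AltEB 3 κ (eng.v x) (1 / 20) (tnt (h0 * x) (1 / 5)) PP tK tL tC pcB (scP esg pd) [⟨0, 0, 0, 67108864⟩, ⟨1, 1, 0, 67108864⟩, ⟨2, 1, 0, 67108864⟩] 0 2 2 0 2 (sgb true) (sgb false) x := by
  have X : XR 67108864 x := XR.of hx hx' (by norm_num) (by norm_num) (by norm_num) (by norm_num)
  have hen : 0 < eng.v x := en_pos X.x0.le
  refine CornW.altB (C := cB022R) (j := (0 : Fin 6)) (k := (2 : Fin 6)) (Ef := esg) (pd := pd) (o := 1 / 20)
    (cornW_of (C := cB022R) (C0 := c0B) (En := eng) (mo := mog) (j := (0 : Fin 6)) (k := (2 : Fin 6)) (lo := 5) (hi := 5) (W := 67108864) (N0 := 3) cB022R_q (sideB hx hx') gokB (pinU hx hx') dokB X (by norm_num) (by norm_num) (l := (5 : Fin 6)) rfl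
      (gatB00 x) (gatB22 x) (gatB52 x) (datB00 x) (datB22 x) (datB52 x) ?_)
    (cornS_of (C := cB022R) (C0 := c0B) (j := (0 : Fin 6)) (k := (2 : Fin 6)) (lo := 5) (hi := 5) (W := 67108864) (N0 := 3) cB022R_q (sideB hx hx') gokB X (by norm_num) (by norm_num) (l := (5 : Fin 6)) rfl
      (gatB00 x) (gatB22 x) (gatB52 x) ?_)
    (thU (pinU hx hx')) rfl hκ (fun j q y => tC_eq j q y x) (esg_rng X.x0.le (by linarith [X.b, X.p0])).1 (mo_v x) le_rfl le_rfl
  · intro ρ a B hρ hd i h1 h2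
    fin_cases i
    · exact absurd h1 (by norm_num)
    · exact absurd h1 (by norm_num)
    · exact absurd h1 (by norm_num)
    · exact absurd h1 (by norm_num)
    · exact corW_cert (G1 := gB0q0) (G2 := gB2q2) (Ga := gB4q2) (Gb := gB5q2) (D1 := dB0q0) (D2 := dB2q2) (Da := dB4q2) (Db := dB5q2) cB022R_ok B hρ hen (gatB00 x) (gatB22 x) (fun h => absurd h (by decide)) (fun _ => gatB52 x) (datB00 x) (datB22 x) (fun h => absurd h (by decide)) (fun _ => datB52 x) hd hx hx' CW.B022R_024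
  · intro ρ a B hρ hd i h1 h2
    fin_cases i
    · exact absurd h1 (by norm_num)
    · exact absurd h1 (by norm_num)
    · exact absurd h1 (by norm_num)
    · exact absurd h1 (by norm_num)
    · exact corT_cert (G1 := gB0q0) (G2 := gB2q2) (Ga := gB4q2) (Gb := gB5q2) cB022R_ok B hρ (gatB00 x) (gatB22 x) (fun h => absurd h (by decide)) (fun _ => gatB52 x) hd hx hx' CG.B022R_024

theorem altB_B022R_10 {κ x : ℝ} (hκ : κ * h0 = ken x) (hx : ((740881858 : ℕ) : ℝ) / S ≤ x) (hx' : x ≤ (((740881858 : ℕ) : ℝ) + (40050571 : ℕ)) / S) :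
    AltEB 3 κ (eng.v x) (1 / 20) (tnt (h0 * x) (1 / 5)) PP tK tL tC pcB (scP esg pd) [⟨0, 0, 0, 67108864⟩, ⟨1, 1, 0, 67108864⟩, ⟨2, 1, 0, 67108864⟩] 0 2 2 1 0 (sgb true) (sgb false) x := by
  have X : XR 67108864 x := XR.of hx hx' (by norm_num) (by norm_num) (by norm_num) (by norm_num)
  have hen : 0 < eng.v x := en_pos X.x0.le
  refine CornW.altB (C := cB022R) (j := (1 : Fin 6)) (k := (0 : Fin 6)) (Ef := esg) (pd := pd) (o := 1 / 20)
    (cornW_of (C := cB022R) (C0 := c0B) (En := eng) (mo := mog) (j := (1 : Fin 6)) (k := (0 : Fin 6)) (lo := 5) (hi := 5) (W := 67108864) (N0 := 3) cB022R_q (sideB hx hx') gokB (pinU hx hx') dokB X (by norm_num) (by norm_num) (l := (5 : Fin 6)) rfl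
      (gatB10 x) (gatB02 x) (gatB52 x) (datB10 x) (datB02 x) (datB52 x) ?_)
    (cornS_of (C := cB022R) (C0 := c0B) (j := (1 : Fin 6)) (k := (0 : Fin 6)) (lo := 5) (hi := 5) (W := 67108864) (N0 := 3) cB022R_q (sideB hx hx') gokB X (by norm_num) (by norm_num) (l := (5 : Fin 6)) rfl
      (gatB10 x) (gatB02 x) (gatB52 x) ?_)
    (thU (pinU hx hx')) rfl hκ (fun j q y => tC_eq j q y x) (esg_rng X.x0.le (by linarith [X.b, X.p0])).1 (mo_v x) le_rfl le_rfl
  · intro ρ a B hρ hd i h1 h2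
    fin_cases i
    · exact absurd h1 (by norm_num)
    · exact absurd h1 (by norm_num)
    · exact absurd h1 (by norm_num)
    · exact absurd h1 (by norm_num)
    · exact corW_cert (G1 := gB1q0) (G2 := gB0q2) (Ga := gB4q2) (Gb := gB5q2) (D1 := dB1q0) (D2 := dB0q2) (Da := dB4q2) (Db := dB5q2) cB022R_ok B hρ hen (gatB10 x) (gatB02 x) (fun h => absurd h (by decide)) (fun _ => gatB52 x) (datB10 x) (datB02 x) (fun h => absurd h (by decide)) (fun _ => datB52 x) hd hx hx' CW.B022R_104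
  · intro ρ a B hρ hd i h1 h2
    fin_cases i
    · exact absurd h1 (by norm_num)
    · exact absurd h1 (by norm_num)
    · exact absurd h1 (by norm_num)
    · exact absurd h1 (by norm_num)
    · exact corT_cert (G1 := gB1q0) (G2 := gB0q2) (Ga := gB4q2) (Gb := gB5q2) cB022R_ok B hρ (gatB10 x) (gatB02 x) (fun h => absurd h (by decide)) (fun _ => gatB52 x) hd hx hx' CG.B022R_104

theorem altB_B022R_11 {κ x : ℝ} (hκ : κ * h0 = ken x) (hx : ((740881858 : ℕ) : ℝ) / S ≤ x) (hx' : x ≤ (((740881858 : ℕ) : ℝ) + (40050571 : ℕ)) / S) :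
    AltEB 3 κ (eng.v x) (1 / 20) (tnt (h0 * x) (1 / 5)) PP tK tL tC pcB (scP esg pd) [⟨0, 0, 0, 67108864⟩, ⟨1, 1, 0, 67108864⟩, ⟨2, 1, 0, 67108864⟩] 0 2 2 1 1 (sgb true) (sgb false) x := by
  have X : XR 67108864 x := XR.of hx hx' (by norm_num) (by norm_num) (by norm_num) (by norm_num)
  have hen : 0 < eng.v x := en_pos X.x0.le
  refine CornW.altB (C := cB022R) (j := (1 : Fin 6)) (k := (1 : Fin 6)) (Ef := esg) (pd := pd) (o := 1 / 20)
    (cornW_of (C := cB022R) (C0 := c0B) (En := eng) (mo := mog) (j := (1 : Fin 6)) (k := (1 : Fin 6)) (lo := 5) (hi := 5) (W := 67108864) (N0 := 3) cB022R_q (sideB hx hx') gokB (pinU hx hx') dokB X (by norm_num) (by norm_num) (l := (5 : Fin 6)) rfl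
      (gatB10 x) (gatB12 x) (gatB52 x) (datB10 x) (datB12 x) (datB52 x) ?_)
    (cornS_of (C := cB022R) (C0 := c0B) (j := (1 : Fin 6)) (k := (1 : Fin 6)) (lo := 5) (hi := 5) (W := 67108864) (N0 := 3) cB022R_q (sideB hx hx') gokB X (by norm_num) (by norm_num) (l := (5 : Fin 6)) rfl
      (gatB10 x) (gatB12 x) (gatB52 x) ?_)
    (thU (pinU hx hx')) rfl hκ (fun j q y => tC_eq j q y x) (esg_rng X.x0.le (by linarith [X.b, X.p0])).1 (mo_v x) le_rfl le_rfl
  · intro ρ a B hρ hd i h1 h2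
    fin_cases i
    · exact absurd h1 (by norm_num)
    · exact absurd h1 (by norm_num)
    · exact absurd h1 (by norm_num)
    · exact absurd h1 (by norm_num)
    · exact corW_cert (G1 := gB1q0) (G2 := gB1q2) (Ga := gB4q2) (Gb := gB5q2) (D1 := dB1q0) (D2 := dB1q2) (Da := dB4q2) (Db := dB5q2) cB022R_ok B hρ hen (gatB10 x) (gatB12 x) (fun h => absurd h (by decide)) (fun _ => gatB52 x) (datB10 x) (datB12 x) (fun h => absurd h (by decide)) (fun _ => datB52 x) hd hx hx' CW.B022R_114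
  · intro ρ a B hρ hd i h1 h2
    fin_cases i
    · exact absurd h1 (by norm_num)
    · exact absurd h1 (by norm_num)
    · exact absurd h1 (by norm_num)
    · exact absurd h1 (by norm_num)
    · exact corT_cert (G1 := gB1q0) (G2 := gB1q2) (Ga := gB4q2) (Gb := gB5q2) cB022R_ok B hρ (gatB10 x) (gatB12 x) (fun h => absurd h (by decide)) (fun _ => gatB52 x) hd hx hx' CG.B022R_114

theorem altB_B022R_12 {κ x : ℝ} (hκ : κ * h0 = ken x) (hx : ((740881858 : ℕ) : ℝ) / S ≤ x) (hx' : x ≤ (((740881858 : ℕ) : ℝ) + (40050571 : ℕ)) / S) :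
    AltEB 3 κ (eng.v x) (1 / 20) (tnt (h0 * x) (1 / 5)) PP tK tL tC pcB (scP esg pd) [⟨0, 0, 0, 67108864⟩, ⟨1, 1, 0, 67108864⟩, ⟨2, 1, 0, 67108864⟩] 0 2 2 1 2 (sgb true) (sgb false) x := by
  have X : XR 67108864 x := XR.of hx hx' (by norm_num) (by norm_num) (by norm_num) (by norm_num)
  have hen : 0 < eng.v x := en_pos X.x0.le
  refine CornW.altB (C := cB022R) (j := (1 : Fin 6)) (k := (2 : Fin 6)) (Ef := esg) (pd := pd) (o := 1 / 20)
    (cornW_of (C := cB022R) (C0 := c0B) (En := eng) (mo := mog) (j := (1 : Fin 6)) (k := (2 : Fin 6)) (lo := 5) (hi := 5) (W := 67108864) (N0 := 3) cB022R_q (sideB hx hx') gokB (pinU hx hx') dokB X (by norm_num) (by norm_num) (l := (5 : Fin 6)) rfl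
      (gatB10 x) (gatB22 x) (gatB52 x) (datB10 x) (datB22 x) (datB52 x) ?_)
    (cornS_of (C := cB022R) (C0 := c0B) (j := (1 : Fin 6)) (k := (2 : Fin 6)) (lo := 5) (hi := 5) (W := 67108864) (N0 := 3) cB022R_q (sideB hx hx') gokB X (by norm_num) (by norm_num) (l := (5 : Fin 6)) rfl
      (gatB10 x) (gatB22 x) (gatB52 x) ?_)
    (thU (pinU hx hx')) rfl hκ (fun j q y => tC_eq j q y x) (esg_rng X.x0.le (by linarith [X.b, X.p0])).1 (mo_v x) le_rfl le_rfl
  · intro ρ a B hρ hd i h1 h2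
    fin_cases i
    · exact absurd h1 (by norm_num)
    · exact absurd h1 (by norm_num)
    · exact absurd h1 (by norm_num)
    · exact absurd h1 (by norm_num)
    · exact corW_cert (G1 := gB1q0) (G2 := gB2q2) (Ga := gB4q2) (Gb := gB5q2) (D1 := dB1q0) (D2 := dB2q2) (Da := dB4q2) (Db := dB5q2) cB022R_ok B hρ hen (gatB10 x) (gatB22 x) (fun h => absurd h (by decide)) (fun _ => gatB52 x) (datB10 x) (datB22 x) (fun h => absurd h (by decide)) (fun _ => datB52 x) hd hx hx' CW.B022R_124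
  · intro ρ a B hρ hd i h1 h2
    fin_cases i
    · exact absurd h1 (by norm_num)
    · exact absurd h1 (by norm_num)
    · exact absurd h1 (by norm_num)
    · exact absurd h1 (by norm_num)
    · exact corT_cert (G1 := gB1q0) (G2 := gB2q2) (Ga := gB4q2) (Gb := gB5q2) cB022R_ok B hρ (gatB10 x) (gatB22 x) (fun h => absurd h (by decide)) (fun _ => gatB52 x) hd hx hx' CG.B022R_124

theorem altB_B022R_20 {κ x : ℝ} (hκ : κ * h0 = ken x) (hx : ((740881858 : ℕ) : ℝ) / S ≤ x) (hx' : x ≤ (((740881858 : ℕ) : ℝ) + (40050571 : ℕ)) / S) :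
    AltEB 3 κ (eng.v x) (1 / 20) (tnt (h0 * x) (1 / 5)) PP tK tL tC pcB (scP esg pd) [⟨0, 0, 0, 67108864⟩, ⟨1, 1, 0, 67108864⟩, ⟨2, 1, 0, 67108864⟩] 0 2 2 2 0 (sgb true) (sgb false) x := by
  have X : XR 67108864 x := XR.of hx hx' (by norm_num) (by norm_num) (by norm_num) (by norm_num)
  have hen : 0 < eng.v x := en_pos X.x0.le
  refine CornW.altB (C := cB022R) (j := (2 : Fin 6)) (k := (0 : Fin 6)) (Ef := esg) (pd := pd) (o := 1 / 20)
    (cornW_of (C := cB022R) (C0 := c0B) (En := eng) (mo := mog) (j := (2 : Fin 6)) (k := (0 : Fin 6)) (lo := 5) (hi := 5) (W := 67108864) (N0 := 3) cB022R_q (sideB hx hx') gokB (pinU hx hx') dokB X (by norm_num) (by norm_num) (l := (5 : Fin 6)) rfl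
      (gatB20 x) (gatB02 x) (gatB52 x) (datB20 x) (datB02 x) (datB52 x) ?_)
    (cornS_of (C := cB022R) (C0 := c0B) (j := (2 : Fin 6)) (k := (0 : Fin 6)) (lo := 5) (hi := 5) (W := 67108864) (N0 := 3) cB022R_q (sideB hx hx') gokB X (by norm_num) (by norm_num) (l := (5 : Fin 6)) rfl
      (gatB20 x) (gatB02 x) (gatB52 x) ?_)
    (thU (pinU hx hx')) rfl hκ (fun j q y => tC_eq j q y x) (esg_rng X.x0.le (by linarith [X.b, X.p0])).1 (mo_v x) le_rfl le_rfl
  · intro ρ a B hρ hd i h1 h2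
    fin_cases i
    · exact absurd h1 (by norm_num)
    · exact absurd h1 (by norm_num)
    · exact absurd h1 (by norm_num)
    · exact absurd h1 (by norm_num)
    · exact corW_cert (G1 := gB2q0) (G2 := gB0q2) (Ga := gB4q2) (Gb := gB5q2) (D1 := dB2q0) (D2 := dB0q2) (Da := dB4q2) (Db := dB5q2) cB022R_ok B hρ hen (gatB20 x) (gatB02 x) (fun h => absurd h (by decide)) (fun _ => gatB52 x) (datB20 x) (datB02 x) (fun h => absurd h (by decide)) (fun _ => datB52 x) hd hx hx' CW.B022R_204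
  · intro ρ a B hρ hd i h1 h2
    fin_cases i
    · exact absurd h1 (by norm_num)
    · exact absurd h1 (by norm_num)
    · exact absurd h1 (by norm_num)
    · exact absurd h1 (by norm_num)
    · exact corT_cert (G1 := gB2q0) (G2 := gB0q2) (Ga := gB4q2) (Gb := gB5q2) cB022R_ok B hρ (gatB20 x) (gatB02 x) (fun h => absurd h (by decide)) (fun _ => gatB52 x) hd hx hx' CG.B022R_204

theorem altB_B022R_21 {κ x : ℝ} (hκ : κ * h0 = ken x) (hx : ((740881858 : ℕ) : ℝ) / S ≤ x) (hx' : x ≤ (((740881858 : ℕ) : ℝ) + (40050571 : ℕ)) / S) :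
    AltEB 3 κ (eng.v x) (1 / 20) (tnt (h0 * x) (1 / 5)) PP tK tL tC pcB (scP esg pd) [⟨0, 0, 0, 67108864⟩, ⟨1, 1, 0, 67108864⟩, ⟨2, 1, 0, 67108864⟩] 0 2 2 2 1 (sgb true) (sgb false) x := by
  have X : XR 67108864 x := XR.of hx hx' (by norm_num) (by norm_num) (by norm_num) (by norm_num)
  have hen : 0 < eng.v x := en_pos X.x0.le
  refine CornW.altB (C := cB022R) (j := (2 : Fin 6)) (k := (1 : Fin 6)) (Ef := esg) (pd := pd) (o := 1 / 20)
    (cornW_of (C := cB022R) (C0 := c0B) (En := eng) (mo := mog) (j := (2 : Fin 6)) (k := (1 : Fin 6)) (lo := 5) (hi := 5) (W := 67108864) (N0 := 3) cB022R_q (sideB hx hx') gokB (pinU hx hx') dokB X (by norm_num) (by norm_num) (l := (5 : Fin 6)) rfl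
      (gatB20 x) (gatB12 x) (gatB52 x) (datB20 x) (datB12 x) (datB52 x) ?_)
    (cornS_of (C := cB022R) (C0 := c0B) (j := (2 : Fin 6)) (k := (1 : Fin 6)) (lo := 5) (hi := 5) (W := 67108864) (N0 := 3) cB022R_q (sideB hx hx') gokB X (by norm_num) (by norm_num) (l := (5 : Fin 6)) rfl
      (gatB20 x) (gatB12 x) (gatB52 x) ?_)
    (thU (pinU hx hx')) rfl hκ (fun j q y => tC_eq j q y x) (esg_rng X.x0.le (by linarith [X.b, X.p0])).1 (mo_v x) le_rfl le_rfl
  · intro ρ a B hρ hd i h1 h2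
    fin_cases i
    · exact absurd h1 (by norm_num)
    · exact absurd h1 (by norm_num)
    · exact absurd h1 (by norm_num)
    · exact absurd h1 (by norm_num)
    · exact corW_cert (G1 := gB2q0) (G2 := gB1q2) (Ga := gB4q2) (Gb := gB5q2) (D1 := dB2q0) (D2 := dB1q2) (Da := dB4q2) (Db := dB5q2) cB022R_ok B hρ hen (gatB20 x) (gatB12 x) (fun h => absurd h (by decide)) (fun _ => gatB52 x) (datB20 x) (datB12 x) (fun h => absurd h (by decide)) (fun _ => datB52 x) hd hx hx' CW.B022R_214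
  · intro ρ a B hρ hd i h1 h2
    fin_cases i
    · exact absurd h1 (by norm_num)
    · exact absurd h1 (by norm_num)
    · exact absurd h1 (by norm_num)
    · exact absurd h1 (by norm_num)
    · exact corT_cert (G1 := gB2q0) (G2 := gB1q2) (Ga := gB4q2) (Gb := gB5q2) cB022R_ok B hρ (gatB20 x) (gatB12 x) (fun h => absurd h (by decide)) (fun _ => gatB52 x) hd hx hx' CG.B022R_214

theorem altB_B022R_22 {κ x : ℝ} (hκ : κ * h0 = ken x) (hx : ((740881858 : ℕ) : ℝ) / S ≤ x) (hx' : x ≤ (((740881858 : ℕ) : ℝ) + (40050571 : ℕ)) / S) :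
    AltEB 3 κ (eng.v x) (1 / 20) (tnt (h0 * x) (1 / 5)) PP tK tL tC pcB (scP esg pd) [⟨0, 0, 0, 67108864⟩, ⟨1, 1, 0, 67108864⟩, ⟨2, 1, 0, 67108864⟩] 0 2 2 2 2 (sgb true) (sgb false) x := by
  have X : XR 67108864 x := XR.of hx hx' (by norm_num) (by norm_num) (by norm_num) (by norm_num)
  have hen : 0 < eng.v x := en_pos X.x0.le
  refine CornW.altB (C := cB022R) (j := (2 : Fin 6)) (k := (2 : Fin 6)) (Ef := esg) (pd := pd) (o := 1 / 20)
    (cornW_of (C := cB022R) (C0 := c0B) (En := eng) (mo := mog) (j := (2 : Fin 6)) (k := (2 : Fin 6)) (lo := 5) (hi := 5) (W := 67108864) (N0 := 3) cB022R_q (sideB hx hx') gokB (pinU hx hx') dokB X (by norm_num) (by norm_num) (l := (5 : Fin 6)) rfl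
      (gatB20 x) (gatB22 x) (gatB52 x) (datB20 x) (datB22 x) (datB52 x) ?_)
    (cornS_of (C := cB022R) (C0 := c0B) (j := (2 : Fin 6)) (k := (2 : Fin 6)) (lo := 5) (hi := 5) (W := 67108864) (N0 := 3) cB022R_q (sideB hx hx') gokB X (by norm_num) (by norm_num) (l := (5 : Fin 6)) rfl
      (gatB20 x) (gatB22 x) (gatB52 x) ?_)
    (thU (pinU hx hx')) rfl hκ (fun j q y => tC_eq j q y x) (esg_rng X.x0.le (by linarith [X.b, X.p0])).1 (mo_v x) le_rfl le_rfl
  · intro ρ a B hρ hd i h1 h2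
    fin_cases i
    · exact absurd h1 (by norm_num)
    · exact absurd h1 (by norm_num)
    · exact absurd h1 (by norm_num)
    · exact absurd h1 (by norm_num)
    · exact corW_cert (G1 := gB2q0) (G2 := gB2q2) (Ga := gB4q2) (Gb := gB5q2) (D1 := dB2q0) (D2 := dB2q2) (Da := dB4q2) (Db := dB5q2) cB022R_ok B hρ hen (gatB20 x) (gatB22 x) (fun h => absurd h (by decide)) (fun _ => gatB52 x) (datB20 x) (datB22 x) (fun h => absurd h (by decide)) (fun _ => datB52 x) hd hx hx' CW.B022R_224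
  · intro ρ a B hρ hd i h1 h2
    fin_cases i
    · exact absurd h1 (by norm_num)
    · exact absurd h1 (by norm_num)
    · exact absurd h1 (by norm_num)
    · exact absurd h1 (by norm_num)
    · exact corT_cert (G1 := gB2q0) (G2 := gB2q2) (Ga := gB4q2) (Gb := gB5q2) cB022R_ok B hρ (gatB20 x) (gatB22 x) (fun h => absurd h (by decide)) (fun _ => gatB52 x) hd hx hx' CG.B022R_224

theorem altB_B101E_00 {κ x : ℝ} (hκ : κ * h0 = ken x) (hx : ((740881858 : ℕ) : ℝ) / S ≤ x) (hx' : x ≤ (((740881858 : ℕ) : ℝ) + (40050571 : ℕ)) / S) :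
    AltEB 3 κ (eng.v x) (1 / 20) (tnt (h0 * x) (1 / 5)) PP tK tL tC pcB (scP esg pd) [⟨0, 1, 0, 53687091⟩, ⟨1, 0, 0, 53687091⟩, ⟨2, 1, 0, 53687091⟩] 1 0 1 0 0 (sgb true) (sgb false) x := by
  have X : XR 53687091 x := XR.of hx hx' (by norm_num) (by norm_num) (by norm_num) (by norm_num)
  have hen : 0 < eng.v x := en_pos X.x0.le
  refine CornW.altB (C := cB101E) (j := (0 : Fin 6)) (k := (0 : Fin 6)) (Ef := esg) (pd := pd) (o := 1 / 20)
    (cornW_of (C := cB101E) (C0 := c0B) (En := eng) (mo := mog) (j := (0 : Fin 6)) (k := (0 : Fin 6)) (lo := 0) (hi := 2) (W := 53687091) (N0 := 3) cB101E_q (sideB hx hx') gokB (pinU hx hx') dokB X (by norm_num) (by norm_num) (l := (0 : Fin 6)) rfl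
      (gatB01 x) (gatB01 x) (gatB00 x) (datB01 x) (datB01 x) (datB00 x) ?_)
    (cornS_of (C := cB101E) (C0 := c0B) (j := (0 : Fin 6)) (k := (0 : Fin 6)) (lo := 0) (hi := 2) (W := 53687091) (N0 := 3) cB101E_q (sideB hx hx') gokB X (by norm_num) (by norm_num) (l := (0 : Fin 6)) rfl
      (gatB01 x) (gatB01 x) (gatB00 x) ?_)
    (thU (pinU hx hx')) rfl hκ (fun j q y => tC_eq j q y x) (esg_rng X.x0.le (by linarith [X.b, X.p0])).1 (mo_v x) le_rfl le_rfl
  · intro ρ a B hρ hd i h1 h2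
    fin_cases i
    · exact corW_cert (G1 := gB0q1) (G2 := gB0q1) (Ga := gB0q0) (Gb := gB1q0) (D1 := dB0q1) (D2 := dB0q1) (Da := dB0q0) (Db := dB1q0) cB101E_ok B hρ hen (gatB01 x) (gatB01 x) (fun _ => gatB00 x) (fun _ => gatB10 x) (datB01 x) (datB01 x) (fun _ => datB00 x) (fun _ => datB10 x) hd hx hx' CW.B101E_000
    · exact corW_cert (G1 := gB0q1) (G2 := gB0q1) (Ga := gB1q0) (Gb := gB2q0) (D1 := dB0q1) (D2 := dB0q1) (Da := dB1q0) (Db := dB2q0) cB101E_ok B hρ hen (gatB01 x) (gatB01 x) (fun _ => gatB10 x) (fun _ => gatB20 x) (datB01 x) (datB01 x) (fun _ => datB10 x) (fun _ => datB20 x) hd hx hx' CW.B101E_001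
    · exact corW_cert (G1 := gB0q1) (G2 := gB0q1) (Ga := gB2q0) (Gb := gB3q0) (D1 := dB0q1) (D2 := dB0q1) (Da := dB2q0) (Db := dB3q0) cB101E_ok B hρ hen (gatB01 x) (gatB01 x) (fun _ => gatB20 x) (fun h => absurd h (by decide)) (datB01 x) (datB01 x) (fun _ => datB20 x) (fun h => absurd h (by decide)) hd hx hx' CW.B101E_002
    · exact absurd h2 (by norm_num)
    · exact absurd h2 (by norm_num)
  · intro ρ a B hρ hd i h1 h2
    fin_cases i
    · exact corT_cert (G1 := gB0q1) (G2 := gB0q1) (Ga := gB0q0) (Gb := gB1q0) cB101E_ok B hρ (gatB01 x) (gatB01 x) (fun _ => gatB00 x) (fun _ => gatB10 x) hd hx hx' CG.B101E_000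
    · exact corT_cert (G1 := gB0q1) (G2 := gB0q1) (Ga := gB1q0) (Gb := gB2q0) cB101E_ok B hρ (gatB01 x) (gatB01 x) (fun _ => gatB10 x) (fun _ => gatB20 x) hd hx hx' CG.B101E_001
    · exact corT_cert (G1 := gB0q1) (G2 := gB0q1) (Ga := gB2q0) (Gb := gB3q0) cB101E_ok B hρ (gatB01 x) (gatB01 x) (fun _ => gatB20 x) (fun h => absurd h (by decide)) hd hx hx' CG.B101E_002
    · exact absurd h2 (by norm_num)
    · exact absurd h2 (by norm_num)

theorem altB_B101L_30 {κ x : ℝ} (hκ : κ * h0 = ken x) (hx : ((740881858 : ℕ) : ℝ) / S ≤ x) (hx' : x ≤ (((740881858 : ℕ) : ℝ) + (40050571 : ℕ)) / S) :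
    AltEB 3 κ (eng.v x) (1 / 20) (tnt (h0 * x) (1 / 5)) PP tK tL tC pcB (scP esg pd) [⟨0, 1, 0, 67108864⟩, ⟨1, 0, 0, 67108864⟩, ⟨2, 1, 0, 67108864⟩] 1 0 1 3 0 (sgb true) (sgb true) x := by
  have X : XR 67108864 x := XR.of hx hx' (by norm_num) (by norm_num) (by norm_num) (by norm_num)
  have hen : 0 < eng.v x := en_pos X.x0.le
  refine CornW.altB (C := cB101L) (j := (3 : Fin 6)) (k := (0 : Fin 6)) (Ef := esg) (pd := pd) (o := 1 / 20)
    (cornW_of (C := cB101L) (C0 := c0B) (En := eng) (mo := mog) (j := (3 : Fin 6)) (k := (0 : Fin 6)) (lo := 0) (hi := 2) (W := 67108864) (N0 := 3) cB101L_q (sideB hx hx') gokB (pinU hx hx') dokB X (by norm_num) (by norm_num) (l := (0 : Fin 6)) rfl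
      (gatB31 x) (gatB01 x) (gatB00 x) (datB31 x) (datB01 x) (datB00 x) ?_)
    (cornS_of (C := cB101L) (C0 := c0B) (j := (3 : Fin 6)) (k := (0 : Fin 6)) (lo := 0) (hi := 2) (W := 67108864) (N0 := 3) cB101L_q (sideB hx hx') gokB X (by norm_num) (by norm_num) (l := (0 : Fin 6)) rfl
      (gatB31 x) (gatB01 x) (gatB00 x) ?_)
    (thU (pinU hx hx')) rfl hκ (fun j q y => tC_eq j q y x) (esg_rng X.x0.le (by linarith [X.b, X.p0])).1 (mo_v x) le_rfl le_rfl
  · intro ρ a B hρ hd i h1 h2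
    fin_cases i
    · exact corW_cert (G1 := gB3q1) (G2 := gB0q1) (Ga := gB0q0) (Gb := gB1q0) (D1 := dB3q1) (D2 := dB0q1) (Da := dB0q0) (Db := dB1q0) cB101L_ok B hρ hen (gatB31 x) (gatB01 x) (fun _ => gatB00 x) (fun _ => gatB10 x) (datB31 x) (datB01 x) (fun _ => datB00 x) (fun _ => datB10 x) hd hx hx' CW.B101L_300
    · exact corW_cert (G1 := gB3q1) (G2 := gB0q1) (Ga := gB1q0) (Gb := gB2q0) (D1 := dB3q1) (D2 := dB0q1) (Da := dB1q0) (Db := dB2q0) cB101L_ok B hρ hen (gatB31 x) (gatB01 x) (fun _ => gatB10 x) (fun _ => gatB20 x) (datB31 x) (datB01 x) (fun _ => datB10 x) (fun _ => datB20 x) hd hx hx' CW.B101L_301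
    · exact corW_cert (G1 := gB3q1) (G2 := gB0q1) (Ga := gB2q0) (Gb := gB3q0) (D1 := dB3q1) (D2 := dB0q1) (Da := dB2q0) (Db := dB3q0) cB101L_ok B hρ hen (gatB31 x) (gatB01 x) (fun _ => gatB20 x) (fun h => absurd h (by decide)) (datB31 x) (datB01 x) (fun _ => datB20 x) (fun h => absurd h (by decide)) hd hx hx' CW.B101L_302
    · exact absurd h2 (by norm_num)
    · exact absurd h2 (by norm_num)
  · intro ρ a B hρ hd i h1 h2
    fin_cases i
    · exact corT_cert (G1 := gB3q1) (G2 := gB0q1) (Ga := gB0q0) (Gb := gB1q0) cB101L_ok B hρ (gatB31 x) (gatB01 x) (fun _ => gatB00 x) (fun _ => gatB10 x) hd hx hx' CG.B101L_300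
    · exact corT_cert (G1 := gB3q1) (G2 := gB0q1) (Ga := gB1q0) (Gb := gB2q0) cB101L_ok B hρ (gatB31 x) (gatB01 x) (fun _ => gatB10 x) (fun _ => gatB20 x) hd hx hx' CG.B101L_301
    · exact corT_cert (G1 := gB3q1) (G2 := gB0q1) (Ga := gB2q0) (Gb := gB3q0) cB101L_ok B hρ (gatB31 x) (gatB01 x) (fun _ => gatB20 x) (fun h => absurd h (by decide)) hd hx hx' CG.B101L_302
    · exact absurd h2 (by norm_num)
    · exact absurd h2 (by norm_num)

end Pool.Agent.Strip051.G.I69_7273.Tab
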