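import Pool.Agent.Strip051.G.I69_7273.Tab

/-! # Certificates B8 (generated) -/

set_option linter.all false
set_option maxRecDepth 100000

namespace Pool.Agent.Strip051.G.I69_7273.Tab.C.BA11

open Pool.Agent.Strip051.PB Pool.Agent.Strip051.PB.T
open Pool.Agent.Strip051.G.I69_7273.Tab

noncomputable def cut_pm_022_a : Cut := Cut.of [[⟨0, 0, 0, 67108864⟩, ⟨1, 1, 0, 67108864⟩, ⟨2, 1, 0, 67108864⟩]]

noncomputable def f_pm_022_a : ℕ → ℕ → ℕ → ℕ → Bool := onCell 1073741824 536870912 0 536870912 740881858 40050571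
    (rowB 3 eng mog cd1q0 cd1q2a pd2 2 true true false .pp 0 2 2 (qsf 0 536870912 0 536870912 2) ndB1q0 ndB1q2a pcB2 cut_pm_022_a Ext.none)

def k0_pm_022_a : ∃ t, chk3 f_pm_022_a t 2 2 1 = true :=
  ⟨(a (a (l 1) (b (l 1) (a (l 1) (b (l 1) (a (l 1) (b (l 1) (a (l 1) (c (l 85395368215) (b (l 16412856) (l 16426104)))))))))) (a (b (a (a (l 1) (b (a (l 1) (b (l 16414896) (a (l 1) (l 16390696)))) (a (b (l 1) (c (l 16394688) (l 16369792))) (b (a (l 16385384) (l 16389112)) (a (l 16388112) (l 16412384)))))) (b (a (b (l 16400880) (l 16416416)) (b (l 16408200) (l 16402880))) (a (b (c (l 16405976) (l 16380520)) (c (l 16407552) (l 16383400))) (b (l 16401224) (l 16424168))))) (b (a (a (a (l 1) (b (c (l 16396064) (l 16371552)) (c (l 16407656) (l 16385112)))) (a (b (c (l 16401312) (l 16378160)) (c (l 16411656) (l 16390584))) (b (a (l 16394720) (l 16418520)) (a (l 16405144) (l 16428424))))) (a (b (c (l 16412712) (l 16390168)) (a (l 16409816) (l 16412976))) (b (l 16450672)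 (l 16459672)))) (a (a (b (a (c (b (l 16415968) (l 16425240)) (b (l 16393488) (l 16403976))) (c (l 85932203639) (b (l 16397776) (l 16407616)))) (a (c (l 60162436727) (b (l 16415496) (l 16428024))) (c (l 16441848) (l 16424440)))) (b (a (c (l 16425608) (l 16407008)) (a (l 16419288) (l 16442008))) (a (c (l 16443032) (l 16427320)) (a (l 16437040) (l 16438168))))) (a (b (a (l 16423088) (l 16425888)) (a (l 16439824) (l 16442152))) (b (l 16451056) (l 16445632)))))) (b (a (b (a (l 16455304) (l 16442112)) (a (b (l 16408784) (l 16410528)) (l 16459400))) (b (a (l 16429088) (l 16437184)) (a (l 16425104) (l 16432832)))) (a (b (a (b (l 16415664) (l 16424096)) (b (l 16422664) (l 16430488))) (a (b (l 16435680) (l 16450232)) (b (l 16441264) (l 16454800)))) (a (b (l 16454544) (l 16495336)) (b (l 16440312) (l 16479504))))))), by decide +kernel⟩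

def k1_pm_022_a : ∃ t, chk3 f_pm_022_a t 8 3 1 = true :=
  ⟨(b (l 1) (a (b (l 1) (l 6)) (a (b (b (l 1) (l 6)) (l 6)) (a (b (b (l 1) (l 6)) (l 6)) (a (b (b (b (l 1) (b (l 1) (l 6))) (l 6)) (l 6)) (b (b (b (l 1) (b (a (l 16600232) (l 160557622615)) (a (l 6) (l 16612568)))) (b (b (l 16623776) (l 16635520)) (l 16653400))) (b (l 16646944) (b (l 16678792) (l 16669568))))))))), by decide +kernel⟩

def k2_pm_022_a : ∃ t, chk3 f_pm_022_a t 9 6 1 = true :=
  ⟨(a (b (l 1) (a (b (l 1) (a (l 1) (b (l 67141980391) (a (l 125660937159) (l 153578229959))))) (b (a (b (l 1) (l 86469247943)) (b (l 84321729047) (a (l 16520568) (l 16523080)))) (a (b (a (l 16537960) (l 16539952)) (a (l 16561272) (l 16562792))) (b (a (l 16542000) (l 16544088)) (l 16565192)))))) (b (a (b (a (l 1) (c (l 16508336) (b (l 1) (l 16452576)))) (a (b (l 1) (l 119755194359)) (c (a (l 16494944) (l 16498200)) (b (l 16468336) (l 16485688))))) (b (a (c (b (l 16460672) (l 16474904)) (b (l 16439552) (l 16455176)))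 (b (c (l 16459328) (l 16440368)) (c (l 16472864) (l 16455464)))) (a (b (l 16480456) (l 16496800)) (l 16487608)))) (a (b (a (b (a (l 16505984) (l 16508912)) (l 16526896)) (a (l 16521400) (l 16544896))) (a (b (l 16547288) (l 16568552)) (a (l 16560976) (l 16583712)))) (b (a (l 16523320) (l 16521520)) (a (l 16561400) (l 16558712)))))), by decide +kernel⟩

def k3_pm_022_a : ∃ t, chk3 f_pm_022_a t 9 7 1 = true :=
  ⟨(b (a (b (a (c (b (a (a (l 105796768631) (l 115460424503)) (a (l 16587640) (l 16588664))) (a (a (b (l 16604560) (l 16615536)) (l 16610384)) (l 16611048))) (b (a (a (l 98280537111) (l 16579072)) (l 16579944)) (a (a (l 236256420071) (l 16604408)) (l 16604536)))) (b (a (l 16586016) (l 16588208)) (a (l 16608768) (l 16610008)))) (b (a (a (a (l 16630128) (l 16629776)) (l 16629488)) (a (l 16629480) (l 16629832))) (a (a (a (l 16653400) (l 16652544)) (l 16651504)) (l 16650208)))) (b (a (a (b (l 16590616) (l 16611496)) (b (l 16593088) (l 16613072))) (l 16578608))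 (a (a (l 16640232) (l 16633032)) (l 16621696)))) (a (b (a (a (a (l 16683008) (l 16678096)) (l 16628512)) (b (l 16656760) (l 16651552))) (a (b (a (l 16691480) (l 16660544)) (a (a (l 16663672) (l 16658912)) (l 16672432))) (b (l 16686456) (a (l 16640984) (l 16629960))))) (b (a (a (l 16637320) (a (l 16628544) (l 16622744))) (b (l 16615984) (l 16610120))) (a (a (b (l 16627464) (l 16618472)) (b (l 16615680) (l 16606632))) (b (l 16602472) (l 16613880)))))), by decide +kernel⟩

def k4_pm_022_a : ∃ t, chk3 f_pm_022_a t 5 3 1 = true :=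
  ⟨(a (a (a (b (b (a (b (b (l 16450216) (l 16463760)) (l 16507600)) (b (c (l 16464144) (l 16449976)) (l 16485568))) (b (l 16539872) (l 16512880))) (b (b (l 16592216) (l 16608792)) (b (a (l 16602336) (l 16594888)) (b (l 16586360) (l 16627608))))) (b (a (b (b (l 16457648) (l 16484480)) (b (l 16516320) (l 16551048))) (b (a (b (l 16458208) (l 16483720)) (b (l 16458656) (a (l 16483344) (l 16483088)))) (a (l 16574688) (b (a (l 16514584) (l 16514320)) (l 16485576))))) (a (b (l 16603216) (b (l 16587136) (l 16566904))) (b (a (l 16598312) (a (l 16595512) (l 16593504))) (a (b (l 16580848) (l 16559000)) (b (a (l 16577128) (l 16574416)) (a (l 16554392) (l 16551128)))))))) (b (b (a (b (l 16481672) (b (l 16477552) (l 16490688))) (b (l 16464144) (l 16485752))) (b (a (l 16513672) (l 16512568)) (l 16544400))) (a (b (b (l 16579560) (l 16580920)) (b (l 16565368) (l 16541192))) (b (l 16616168) (b (l 16550160) (l 16524904)))))) (b (b (a (a (b (l 16467520) (l 16487680)) (b (l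 16470832) (l 16489368))) (c (b (l 16486816) (l 16503000)) (b (l 16464488) (l 16482848)))) (a (b (a (l 16511488) (l 16510656)) (l 16537680)) (b (a (l 16511568) (l 16513856)) (l 16534520)))) (b (b (a (l 16561552) (l 16538144)) (a (l 16547440) (l 16521992))) (b (a (l 16570128) (l 16521904)) (a (a (l 16509224) (l 16494168)) (a (l 16479736) (l 16465944))))))), by decide +kernel⟩

def k5_pm_022_a : ∃ t, chk3 f_pm_022_a t 3 1 1 = true :=
  ⟨(b (a (a (b (a (b (a (l 16445408) (l 16453792)) (a (l 16440632) (l 16448936))) (b (l 16470136) (l 16465008))) (a (b (a (l 16447176) (l 16455600)) (a (l 16485952) (l 16493792))) (b (l 16491400) (l 16484584)))) (b (b (l 16504888) (l 16497368)) (a (b (l 16489432) (l 16498960)) (l 16510560)))) (b (a (b (l 16547080) (l 16536296)) (a (l 16568896) (l 16583936))) (a (b (l 16530648) (l 16526616)) (l 16546184)))) (a (b (a (b (a (c (b (l 16497464) (l 16510928)) (b (l 16475424) (l 16490896))) (l 16504224)) (a (b (l 16516608) (l 16530672))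 (l 16647744))) (b (a (l 16511344) (l 16516024)) (l 16651464))) (a (b (a (b (l 16516840) (l 16498848)) (b (l 16497720) (l 16478104))) (a (b (l 16518056) (a (l 16452808) (l 16440336))) (b (l 16453832) (l 16422904)))) (b (b (l 16473464) (l 16451704)) (a (l 16544576) (l 16401320))))) (b (a (b (l 16516744) (l 16487160)) (b (l 16518360) (l 16480856))) (a (b (b (l 16450240) (l 16425744)) (b (l 16397368) (l 16363072))) (b (l 16572592) (a (l 16367280) (l 16362680))))))), by decide +kernel⟩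

theorem s6_pm_022_a : ∃ t, chk3 f_pm_022_a t 9 3 1 = true := ex3_b k2_pm_022_a k3_pm_022_a

theorem s7_pm_022_a : ∃ t, chk3 f_pm_022_a t 4 3 1 = true := ex3_a k1_pm_022_a s6_pm_022_a

theorem s8_pm_022_a : ∃ t, chk3 f_pm_022_a t 2 3 1 = true := ex3_a s7_pm_022_a k4_pm_022_a

theorem s9_pm_022_a : ∃ t, chk3 f_pm_022_a t 2 1 1 = true := ex3_b k0_pm_022_a s8_pm_022_a

theorem s10_pm_022_a : ∃ t, chk3 f_pm_022_a t 1 1 1 = true := ex3_a s9_pm_022_a k5_pm_022_a

theorem c_pm_022_a : CertB 0 536870912 0 536870912 740881858 40050571 3 eng mog cd1q0 cd1q2a pd2 true true false .pp 0 2 2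
    ndB1q0 ndB1q2a pcB2 cut_pm_022_a Ext.none :=
  certB2 (fam := true) (s1 := true) (s2 := false) (a := 0) (b := 2) (c := 2) (cn := .pp) (n1 := ndB1q0) (n2 := ndB1q2a) (pc := pcB2) (cut := cut_pm_022_a) (xt := Ext.none) (P1 := 0) (W1 := 536870912) (P2 := 0) (W2 := 536870912) (P3 := 740881858) (W3 := 40050571) (N0 := 3) (En := eng) (mo := mog) (C1 := cd1q0) (C2 := cd1q2a) (C3 := pd2)
    rfl (fun _ => rfl) s10_pm_022_a

noncomputable def cut_pm_022_b : Cut := Cut.of [[⟨0, 0, 0, 67108864⟩, ⟨1, 1, 0, 67108864⟩, ⟨2, 1, 0, 67108864⟩]]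

noncomputable def f_pm_022_b : ℕ → ℕ → ℕ → ℕ → Bool := onCell 1073741824 536870912 1239849684 370763052 740881858 40050571
    (rowB 3 eng mog cd1q0 cd1q2b pd2 2 true true false .pp 0 2 2 (qsf 0 536870912 1239849684 370763052 2) ndB1q0 ndB1q2b pcB2 cut_pm_022_b Ext.none)

def k0_pm_022_b : ∃ t, chk3 f_pm_022_b t 1 1 1 = true :=
  ⟨(a (b (a (l 1) (a (b (b (a (a (l 1) (b (a (l 1) (l 16401192)) (l 1))) (b (a (a (l 16364992) (l 16369096)) (l 57478056391)) (a (l 1) (l 16300376)))) (l 1)) (l 1)) (b (b (a (b (a (l 16384056) (l 16392936)) (a (l 16311232) (l 16322376))) (b (l 16427648) (l 16339544))) (a (a (l 16282216) (b (l 16249528) (l 1))) (b (a (l 16263064) (l 16276824)) (l 87542516519)))) (b (a (l 1) (a (l 1) (l 16097264))) (l 1))))) (l 1)) (b (a (b (a (b (a (b (l 16425560) (l 16363016)) (l 16501872)) (a (a (l 16256840) (l 16272008)) (l 16295048))) (b (a (l 16486256) (l 16472536)) (a (l 16326592) (l 16361120)))) (a (a (b (a (l 16116128) (l 16135304)) (l 1))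 (b (l 16164552) (l 112774917463))) (b (a (l 16203736) (l 16243176)) (a (l 16074064) (l 16121184))))) (a (b (a (l 16450560) (l 16482352)) (a (l 16227880) (l 16274112))) (b (a (l 16513704) (l 16544096)) (l 16535568)))) (a (b (a (l 1) (b (a (l 15939456) (l 15993264)) (a (l 1) (l 15862192)))) (l 1)) (a (b (a (b (l 16047624) (l 15922352)) (l 16043536)) (a (l 1) (l 242697481879))) (b (a (l 16101088) (l 16159880)) (a (l 15870008) (l 15938272))))))), by decide +kernel⟩

theorem c_pm_022_b : CertB 0 536870912 1239849684 370763052 740881858 40050571 3 eng mog cd1q0 cd1q2b pd2 true true false .pp 0 2 2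
    ndB1q0 ndB1q2b pcB2 cut_pm_022_b Ext.none :=
  certB2 (fam := true) (s1 := true) (s2 := false) (a := 0) (b := 2) (c := 2) (cn := .pp) (n1 := ndB1q0) (n2 := ndB1q2b) (pc := pcB2) (cut := cut_pm_022_b) (xt := Ext.none) (P1 := 0) (W1 := 536870912) (P2 := 1239849684) (W2 := 370763052) (P3 := 740881858) (W3 := 40050571) (N0 := 3) (En := eng) (mo := mog) (C1 := cd1q0) (C2 := cd1q2b) (C3 := pd2)
    rfl (fun _ => rfl) k0_pm_022_b

noncomputable def f_pm_023_a : ℕ → ℕ → ℕ → ℕ → Bool := onCell 1610612736 536870912 0 536870912 740881858 40050571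
    (rowB 3 eng mog cd1q0 cd1q2a pd3 2 true true false .up 0 2 3 (qsf 0 536870912 0 536870912 3) ndB1q0 ndB1q2a pcB3 Cut.none Ext.none)

def k0_pm_023_a : ∃ t, chk3 f_pm_023_a t 1 1 1 = true :=
  ⟨(a (a (b (a (b (a (l 16597576) (l 16621688)) (l 16569136)) (b (l 16657632) (l 16611592))) (b (a (l 16508008) (l 16543256)) (b (a (l 16422000) (l 16457832)) (a (l 16398672) (l 2))))) (b (a (b (l 16700536) (l 16655080)) (l 2)) (b (l 2) (l 2)))) (l 2)), by decide +kernel⟩

theorem c_pm_023_a : CertB 0 536870912 0 536870912 740881858 40050571 3 eng mog cd1q0 cd1q2a pd3 true true false .up 0 2 3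
    ndB1q0 ndB1q2a pcB3 Cut.none Ext.none :=
  certB2 (fam := true) (s1 := true) (s2 := false) (a := 0) (b := 2) (c := 3) (cn := .up) (n1 := ndB1q0) (n2 := ndB1q2a) (pc := pcB3) (cut := Cut.none) (xt := Ext.none) (P1 := 0) (W1 := 536870912) (P2 := 0) (W2 := 536870912) (P3 := 740881858) (W3 := 40050571) (N0 := 3) (En := eng) (mo := mog) (C1 := cd1q0) (C2 := cd1q2a) (C3 := pd3)
    rfl (fun _ => rfl) k0_pm_023_a

noncomputable def f_pm_023_b : ℕ → ℕ → ℕ → ℕ → Bool := onCell 1610612736 536870912 1239849684 370763052 740881858 40050571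
    (rowB 3 eng mog cd1q0 cd1q2b pd3 2 true true false .up 0 2 3 (qsf 0 536870912 1239849684 370763052 3) ndB1q0 ndB1q2b pcB3 Cut.none Ext.none)

def k0_pm_023_b : ∃ t, chk3 f_pm_023_b t 1 1 1 = true :=
  ⟨(a (a (b (a (b (b (l 16606104) (l 16556528)) (l 16442056)) (b (l 16631576) (l 16529168))) (a (b (l 16250480) (l 16039592)) (b (l 16367088) (l 16171952)))) (a (b (b (l 16711160) (l 16606896)) (a (l 16409408) (l 16428792))) (b (b (l 16921408) (l 16675480)) (b (l 4) (l 4))))) (a (l 4) (l 4))), by decide +kernel⟩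

theorem c_pm_023_b : CertB 0 536870912 1239849684 370763052 740881858 40050571 3 eng mog cd1q0 cd1q2b pd3 true true false .up 0 2 3
    ndB1q0 ndB1q2b pcB3 Cut.none Ext.none :=
  certB2 (fam := true) (s1 := true) (s2 := false) (a := 0) (b := 2) (c := 3) (cn := .up) (n1 := ndB1q0) (n2 := ndB1q2b) (pc := pcB3) (cut := Cut.none) (xt := Ext.none) (P1 := 0) (W1 := 536870912) (P2 := 1239849684) (W2 := 370763052) (P3 := 740881858) (W3 := 40050571) (N0 := 3) (En := eng) (mo := mog) (C1 := cd1q0) (C2 := cd1q2b) (C3 := pd3)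
    rfl (fun _ => rfl) k0_pm_023_b

noncomputable def f_pm_033 : ℕ → ℕ → ℕ → ℕ → Bool := onCell 0 536870912 1610612736 536870912 740881858 40050571
    (rowB 3 eng mog cd1q0 cd1q3 pd3 1 true true false .pnn 0 3 3 (qsf 0 536870912 1610612736 536870912 3) ndB1q0 ndB1q3 pcB3 Cut.none Ext.none)

def k0_pm_033 : ∃ t, chk3 f_pm_033 t 1 1 1 = true :=
  ⟨(b (b (a (b (a (a (l 15920264) (l 16079312)) (l 1)) (a (l 15974312) (l 16284024))) (l 1)) (a (b (a (l 16165088) (l 16354208)) (l 4)) (b (l 1) (a (l 4) (l 1))))) (l 4)), by decide +kernel⟩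

theorem c_pm_033 : CertB 0 536870912 1610612736 536870912 740881858 40050571 3 eng mog cd1q0 cd1q3 pd3 true true false .pnn 0 3 3
    ndB1q0 ndB1q3 pcB3 Cut.none Ext.none :=
  certB1 (fam := true) (s1 := true) (s2 := false) (a := 0) (b := 3) (c := 3) (cn := .pnn) (n1 := ndB1q0) (n2 := ndB1q3) (pc := pcB3) (cut := Cut.none) (xt := Ext.none) (P1 := 0) (W1 := 536870912) (P2 := 1610612736) (W2 := 536870912) (P3 := 740881858) (W3 := 40050571) (N0 := 3) (En := eng) (mo := mog) (C1 := cd1q0) (C2 := cd1q3) (C3 := pd3)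
    rfl (fun _ => rfl) k0_pm_033

noncomputable def f_pm_101 : ℕ → ℕ → ℕ → ℕ → Bool := onCell 536870912 536870912 0 536870912 740881858 40050571
    (rowB 3 eng mog cd1q1 cd1q0 pd1 2 true true false .npn 1 0 1 (qsf 536870912 536870912 0 536870912 1) ndB1q1 ndB1q0 pcB1 Cut.none Ext.none)

def k0_pm_101 : ∃ t, chk3 f_pm_101 t 1 1 1 = true :=
  ⟨(l 3), by decide +kernel⟩

theorem c_pm_101 : CertB 536870912 536870912 0 536870912 740881858 40050571 3 eng mog cd1q1 cd1q0 pd1 true true false .npn 1 0 1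
    ndB1q1 ndB1q0 pcB1 Cut.none Ext.none :=
  certB2 (fam := true) (s1 := true) (s2 := false) (a := 1) (b := 0) (c := 1) (cn := .npn) (n1 := ndB1q1) (n2 := ndB1q0) (pc := pcB1) (cut := Cut.none) (xt := Ext.none) (P1 := 536870912) (W1 := 536870912) (P2 := 0) (W2 := 536870912) (P3 := 740881858) (W3 := 40050571) (N0 := 3) (En := eng) (mo := mog) (C1 := cd1q1) (C2 := cd1q0) (C3 := pd1)
    rfl (fun _ => rfl) k0_pm_101

noncomputable def f_pm_102 : ℕ → ℕ → ℕ → ℕ → Bool := onCell 536870912 536870912 1073741824 536870912 740881858 40050571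
    (rowB 3 eng mog cd1q1 cd1q0 pd2 1 true true false .npp 1 0 2 (qsf 536870912 536870912 0 536870912 2) ndB1q1 ndB1q0 pcB2 Cut.none Ext.none)

def k0_pm_102 : ∃ t, chk3 f_pm_102 t 1 4 1 = true :=
  ⟨(b (l 3) (a (l 3) (a (l 3) (b (a (l 3) (b (l 3) (a (l 3) (b (l 3) (a (l 3) (b (l 3) (l 16640328))))))) (b (a (l 3) (a (b (l 3) (l 16667552)) (b (a (l 302425722039) (b (l 16637224) (l 16633160))) (a (l 16644352) (l 16626176))))) (a (b (l 75866479143) (a (l 16668232) (l 16664608))) (a (b (l 16662592) (l 16656992)) (b (a (l 16637096) (l 16618704)) (a (l 16631528) (l 16612184)))))))))), by decide +kernel⟩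

def k1_pm_102 : ∃ t, chk3 f_pm_102 t 1 5 1 = true :=
  ⟨(b (b (b (a (l 3) (a (a (b (l 3) (l 16745072)) (b (a (l 3) (l 16660032)) (b (l 16653728) (l 16647888)))) (a (b (a (l 16633896) (l 16651456)) (a (l 16558704) (l 16638688))) (a (b (l 16650656) (l 16639848)) (b (l 16615280) (l 16608016)))))) (a (a (l 2) (b (a (l 3) (b (l 3) (l 16659136))) (b (a (l 16666040) (l 16676032)) (a (b (l 16726504) (l 16661992)) (b (a (l 16654840) (l 16649096)) (l 16650008)))))) (b (a (a (b (l 16653616) (l 16648680)) (b (l 16642408) (l 16657800))) (a (b (l 16631760) (l 16626672)) (a (l 16628680) (l 16603104)))) (a (b (a (b (l 16645048) (l 16642648)) (a (l 16634520) (l 16628368))) (a (b (a (l 16643216) (l 16637072)) (l 16637904)) (b (l 16627664) (l 16625080)))) (b (a (l 16621256) (a (l 16619696) (l 16602528))) (a (b (l 16617208) (a (l 16616424) (l 16612440))) (b (a (l 16613608) (l 16605264)) (l 16606320)))))))) (a (a (l 2) (a (l 16648992) (l 16633544))) (a (a (l 16617960) (l 16623160))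 (a (a (l 16591928) (l 16586848)) (a (l 16581096) (l 16576504)))))) (a (a (l 2) (a (l 16619256) (b (l 16605976) (l 16583088)))) (a (a (b (l 16583824) (l 16554280)) (b (l 16562224) (l 16526512))) (a (b (a (l 16548520) (l 16520720)) (a (l 16508904) (l 16500136))) (a (l 16575648) (b (l 16528928) (l 16484920))))))), by decide +kernel⟩

def k2_pm_102 : ∃ t, chk3 f_pm_102 t 1 3 1 = true :=
  ⟨(a (b (a (l 2) (b (a (l 2) (l 16558080)) (l 2))) (l 2)) (b (a (a (b (b (l 16529536) (l 16509760)) (l 16489928)) (b (b (l 16495192) (l 16468432)) (l 16437352))) (a (b (a (b (l 16473208) (l 16441584)) (b (l 16462280) (l 16428224))) (a (l 16402208) (l 16384512))) (b (b (l 16459160) (l 16412704)) (a (l 16371424) (l 16360288))))) (a (a (l 2) (b (l 16414128) (l 2))) (a (b (l 16395496) (l 16333648)) (b (l 16317944) (l 16287088)))))), by decide +kernel⟩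

theorem s3_pm_102 : ∃ t, chk3 f_pm_102 t 1 2 1 = true := ex3_b k0_pm_102 k1_pm_102

theorem s4_pm_102 : ∃ t, chk3 f_pm_102 t 1 1 1 = true := ex3_b s3_pm_102 k2_pm_102

theorem c_pm_102 : CertB 536870912 536870912 0 536870912 740881858 40050571 3 eng mog cd1q1 cd1q0 pd2 true true false .npp 1 0 2
    ndB1q1 ndB1q0 pcB2 Cut.none Ext.none :=
  certB1 (fam := true) (s1 := true) (s2 := false) (a := 1) (b := 0) (c := 2) (cn := .npp) (n1 := ndB1q1) (n2 := ndB1q0) (pc := pcB2) (cut := Cut.none) (xt := Ext.none) (P1 := 536870912) (W1 := 536870912) (P2 := 0) (W2 := 536870912) (P3 := 740881858) (W3 := 40050571) (N0 := 3) (En := eng) (mo := mog) (C1 := cd1q1) (C2 := cd1q0) (C3 := pd2)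
    rfl (fun _ => rfl) s4_pm_102

noncomputable def f_pm_112 : ℕ → ℕ → ℕ → ℕ → Bool := onCell 536870912 536870912 1073741824 536870912 740881858 40050571
    (rowB 3 eng mog cd1q1 cd1q1 pd2 1 true true false .dn 1 1 2 (qsf 536870912 536870912 536870912 536870912 2) ndB1q1 ndB1q1 pcB2 Cut.none Ext.none)

def k0_pm_112 : ∃ t, chk3 f_pm_112 t 1 1 1 = true :=
  ⟨(b (b (a (l 3) (l 1)) (a (b (b (b (l 3) (b (a (l 3) (a (l 3) (l 1))) (a (b (l 3) (b (a (l 16730288) (l 16671888)) (l 16628784))) (a (b (l 62847329383) (b (a (l 16620248) (l 1)) (l 16613552))) (l 1))))) (a (a (l 16609504) (l 16616832)) (a (l 16604608) (l 16594592)))) (a (a (b (l 16582024) (l 16553784)) (l 16582792)) (a (l 16577736) (l 136935515095)))) (b (l 1) (a (a (l 198675590375) (l 1)) (l 1))))) (a (b (b (a (a (b (l 16524728) (l 16494752)) (l 16536584)) (a (l 16542256) (l 16525368))) (a (a (l 16448104) (l 16489552)) (l 16532064))) (b (a (a (l 16424768) (l 16440048)) (l 16641168)) (a (a (b (l 16335104)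 (l 16310120)) (l 16386752)) (l 16549040)))) (b (b (a (a (b (l 16496600) (l 16484704)) (l 177737623943)) (l 1)) (a (a (l 16470248) (l 16423424)) (a (l 124587265927) (l 1)))) (a (a (l 16492696) (b (l 16410976) (l 16424432))) (a (b (l 16354880) (l 16348512)) (b (l 16316992) (l 16301400))))))), by decide +kernel⟩

theorem c_pm_112 : CertB 536870912 536870912 536870912 536870912 740881858 40050571 3 eng mog cd1q1 cd1q1 pd2 true true false .dn 1 1 2
    ndB1q1 ndB1q1 pcB2 Cut.none Ext.none :=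
  certB1 (fam := true) (s1 := true) (s2 := false) (a := 1) (b := 1) (c := 2) (cn := .dn) (n1 := ndB1q1) (n2 := ndB1q1) (pc := pcB2) (cut := Cut.none) (xt := Ext.none) (P1 := 536870912) (W1 := 536870912) (P2 := 536870912) (W2 := 536870912) (P3 := 740881858) (W3 := 40050571) (N0 := 3) (En := eng) (mo := mog) (C1 := cd1q1) (C2 := cd1q1) (C3 := pd2)
    rfl (fun _ => rfl) k0_pm_112

noncomputable def f_pm_113 : ℕ → ℕ → ℕ → ℕ → Bool := onCell 536870912 536870912 536870912 536870912 740881858 40050571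
    (rowB 3 eng mog cd1q1 cd1q1 pd3 0 true true false .nn 1 1 3 (qsf 536870912 536870912 536870912 536870912 3) ndB1q1 ndB1q1 pcB3 Cut.none Ext.none)

def k0_pm_113 : ∃ t, chk3 f_pm_113 t 1 1 1 = true :=
  ⟨(a (b (b (l 1) (a (l 1) (l 110628850871))) (b (a (b (l 1) (l 16414624)) (b (l 16487840) (l 16495320))) (a (b (a (l 16357960) (l 16382088)) (a (l 16315136) (l 16364136))) (b (a (l 16457008) (a (l 16562248) (l 16664784))) (a (a (l 16446776) (l 16533320)) (b (a (l 16621424) (l 16765752)) (a (l 16679416) (l 16775712)))))))) (b (a (b (a (l 1) (l 16414624)) (a (l 16487840) (l 16495320))) (b (a (b (l 16357960) (l 16382088)) (b (l 16315136) (l 16364136))) (a (b (l 16457008) (b (l 16562248) (l 16664784))) (b (b (l 16446776) (l 16533320)) (a (b (l 16621664) (l 16767312)) (b (l 16681920) (l 16756184))))))) (a (b (a (l 16633960) (l 16810168)) (b (a (l 16882952) (l 16966640)) (a (b (l 16862952) (b (l 16845504) (l 16836584))) (b (l 16904392) (l 16874440))))) (b (a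 (b (l 16882952) (l 16966640)) (b (a (l 16862952) (a (l 16845504) (l 16836584))) (a (l 16904392) (l 16874440)))) (a (b (l 16978208) (b (l 16906632) (l 16867688))) (b (a (l 16906632) (l 16867688)) (b (l 16861304) (a (l 16840240) (a (l 16820736) (b (l 16810816) (b (l 16799312) (a (l 16794560) (b (l 16788424) (a (l 16786040) (b (l 16782800) (a (l 16781672) (l 16947208))))))))))))))))), by decide +kernel⟩

theorem c_pm_113 : CertB 536870912 536870912 536870912 536870912 740881858 40050571 3 eng mog cd1q1 cd1q1 pd3 true true false .nn 1 1 3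
    ndB1q1 ndB1q1 pcB3 Cut.none Ext.none :=
  certB0 (fam := true) (s1 := true) (s2 := false) (a := 1) (b := 1) (c := 3) (cn := .nn) (n1 := ndB1q1) (n2 := ndB1q1) (pc := pcB3) (cut := Cut.none) (xt := Ext.none) (P1 := 536870912) (W1 := 536870912) (P2 := 536870912) (W2 := 536870912) (P3 := 740881858) (W3 := 40050571) (N0 := 3) (En := eng) (mo := mog) (C1 := cd1q1) (C2 := cd1q1) (C3 := pd3)
    rfl k0_pm_113

noncomputable def f_pm_123_a : ℕ → ℕ → ℕ → ℕ → Bool := onCell 1610612736 536870912 0 536870912 740881858 40050571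
    (rowB 3 eng mog cd1q1 cd1q2a pd3 2 true true false .npn 1 2 3 (qsf 536870912 536870912 0 536870912 3) ndB1q1 ndB1q2a pcB3 Cut.none Ext.none)

def k0_pm_123_a : ∃ t, chk3 f_pm_123_a t 1 1 1 = true :=
  ⟨(a (a (b (a (l 1) (b (l 1) (l 16649016))) (b (a (l 1) (l 16579584)) (b (a (l 16454136) (l 16496480)) (a (l 16426568) (b (l 16457368) (l 16432544)))))) (a (b (b (l 16738424) (l 16748848)) (b (a (l 16618856) (l 16653736)) (a (b (l 16560264) (l 16539568)) (b (l 16618752) (b (l 16622992) (l 16638000)))))) (b (b (l 16744512) (l 16734208)) (b (a (l 16694208) (l 16742400)) (a (b (l 16683976) (l 16727752)) (b (l 16767760) (l 16749520))))))) (a (b (a (b (a (l 16727064) (l 80765317735)) (l 16886032)) (b (l 4) (a (l 16739936) (l 16780104)))) (a (a (b (l 16802632) (b (l 16845984) (l 16849656))) (b (l 16871136) (b (l 16877488) (l 16890760)))) (a (b (l 16833168) (b (l 16881960) (l 16895664))) (b (l 16797152) (b (l 16877808) (l 16881088)))))) (b (a (a (b (l 4) (l 125325828487))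 (l 4)) (l 4)) (b (a (a (b (l 16740952) (l 16793648)) (a (l 52848503703) (l 103314297847))) (a (a (l 162370049063) (l 4)) (l 4))) (b (a (a (l 16850920) (a (l 16825536) (l 16811360))) (a (a (l 16799008) (l 16758448)) (l 4))) (a (a (l 16862592) (l 16968680)) (a (a (l 16821432) (b (l 16797272) (l 16795696))) (a (a (l 16797616) (l 16787480)) (a (l 396445925543) (l 4)))))))))), by decide +kernel⟩

theorem c_pm_123_a : CertB 536870912 536870912 0 536870912 740881858 40050571 3 eng mog cd1q1 cd1q2a pd3 true true false .npn 1 2 3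
    ndB1q1 ndB1q2a pcB3 Cut.none Ext.none :=
  certB2 (fam := true) (s1 := true) (s2 := false) (a := 1) (b := 2) (c := 3) (cn := .npn) (n1 := ndB1q1) (n2 := ndB1q2a) (pc := pcB3) (cut := Cut.none) (xt := Ext.none) (P1 := 536870912) (W1 := 536870912) (P2 := 0) (W2 := 536870912) (P3 := 740881858) (W3 := 40050571) (N0 := 3) (En := eng) (mo := mog) (C1 := cd1q1) (C2 := cd1q2a) (C3 := pd3)
    rfl (fun _ => rfl) k0_pm_123_a

noncomputable def f_pm_123_b : ℕ → ℕ → ℕ → ℕ → Bool := onCell 1610612736 536870912 1239849684 370763052 740881858 40050571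
    (rowB 3 eng mog cd1q1 cd1q2b pd3 2 true true false .npn 1 2 3 (qsf 536870912 536870912 1239849684 370763052 3) ndB1q1 ndB1q2b pcB3 Cut.none Ext.none)

def k0_pm_123_b : ∃ t, chk3 f_pm_123_b t 1 1 1 = true :=
  ⟨(a (b (a (l 1) (a (b (l 16729056) (l 1)) (b (l 16896288) (l 16751072)))) (l 1)) (a (l 4) (l 4))), by decide +kernel⟩

theorem c_pm_123_b : CertB 536870912 536870912 1239849684 370763052 740881858 40050571 3 eng mog cd1q1 cd1q2b pd3 true true false .npn 1 2 3
    ndB1q1 ndB1q2b pcB3 Cut.none Ext.none :=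
  certB2 (fam := true) (s1 := true) (s2 := false) (a := 1) (b := 2) (c := 3) (cn := .npn) (n1 := ndB1q1) (n2 := ndB1q2b) (pc := pcB3) (cut := Cut.none) (xt := Ext.none) (P1 := 536870912) (W1 := 536870912) (P2 := 1239849684) (W2 := 370763052) (P3 := 740881858) (W3 := 40050571) (N0 := 3) (En := eng) (mo := mog) (C1 := cd1q1) (C2 := cd1q2b) (C3 := pd3)
    rfl (fun _ => rfl) k0_pm_123_b

noncomputable def f_pm_133 : ℕ → ℕ → ℕ → ℕ → Bool := onCell 536870912 536870912 1610612736 536870912 740881858 40050571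
    (rowB 3 eng mog cd1q1 cd1q3 pd3 0 true true false .dn 1 3 3 (qsf 536870912 536870912 1610612736 536870912 3) ndB1q1 ndB1q3 pcB3 Cut.none Ext.none)

def k0_pm_133 : ∃ t, chk3 f_pm_133 t 1 1 1 = true :=
  ⟨(l 4), by decide +kernel⟩

theorem c_pm_133 : CertB 536870912 536870912 1610612736 536870912 740881858 40050571 3 eng mog cd1q1 cd1q3 pd3 true true false .dn 1 3 3
    ndB1q1 ndB1q3 pcB3 Cut.none Ext.none :=
  certB0 (fam := true) (s1 := true) (s2 := false) (a := 1) (b := 3) (c := 3) (cn := .dn) (n1 := ndB1q1) (n2 := ndB1q3) (pc := pcB3) (cut := Cut.none) (xt := Ext.none) (P1 := 536870912) (W1 := 536870912) (P2 := 1610612736) (W2 := 536870912) (P3 := 740881858) (W3 := 40050571) (N0 := 3) (En := eng) (mo := mog) (C1 := cd1q1) (C2 := cd1q3) (C3 := pd3)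
    rfl k0_pm_133

noncomputable def cut_pm_202_a : Cut := Cut.of [[⟨0, 1, 0, 67108864⟩, ⟨1, 0, 0, 67108864⟩, ⟨2, 1, 0, 67108864⟩]]

noncomputable def f_pm_202_a : ℕ → ℕ → ℕ → ℕ → Bool := onCell 0 536870912 1073741824 536870912 740881858 40050571
    (rowB 3 eng mog cd1q2a cd1q0 pd2 1 true true false .pp 2 0 2 (qsf 0 536870912 0 536870912 2) ndB1q2a ndB1q0 pcB2 cut_pm_202_a Ext.none)

def k0_pm_202_a : ∃ t, chk3 f_pm_202_a t 2 4 1 = true :=
  ⟨(b (l 1) (a (l 1) (b (l 1) (a (l 1) (b (l 1) (a (l 1) (b (l 1) (c (a (l 16434688) (l 16446552)) (a (l 16412856) (l 16426104)))))))))), by decide +kernel⟩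

def k1_pm_202_a : ∃ t, chk3 f_pm_202_a t 2 5 1 = true :=
  ⟨(b (a (b (b (l 1) (a (b (l 1) (a (l 16435864) (b (l 1) (l 16390696)))) (b (a (l 1) (c (l 16394688) (l 16369792))) (a (b (l 16385384) (l 16389112)) (b (l 16388112) (l 16412384)))))) (a (b (a (l 16400880) (l 16416416)) (a (l 16408200) (l 16402880))) (b (a (c (l 16405976) (l 16380520)) (c (l 16407552) (l 16383400))) (a (l 16401224) (l 16424168))))) (a (b (b (b (l 1) (a (c (l 16396064) (l 16371552)) (c (a (l 16404216) (l 16410952)) (a (l 16381136) (l 16388944))))) (b (a (c (l 16401312) (l 16378160)) (c (l 16411656) (l 16390584))) (a (b (l 16394720) (l 16418520)) (b (l 16405144) (l 16428424))))) (b (a (b (l 16400144) (l 16403560)) (b (l 16409816) (l 16412976))) (a (l 16450672) (l 16459672)))) (b (b (a (b (c (a (l 16415968) (l 16425240)) (a (l 16393488) (l 16403976))) (c (a (l 16418600) (l 16427160)) (a (l 16397776) (l 16407616)))) (b (c (a (l 16435432) (l 16446520)) (a (l 16415496) (l 16428024))) (c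 (l 16441848) (l 16424440)))) (a (b (c (l 16425608) (l 16407008)) (b (l 16419288) (l 16442008))) (b (c (l 16443032) (l 16427320)) (b (l 16437040) (l 16438168))))) (b (a (b (l 16423088) (l 16425888)) (b (l 16439824) (l 16442152))) (a (l 16451056) (l 16445632)))))) (a (b (a (b (l 16455304) (l 16442112)) (b (a (l 16408784) (l 16410528)) (l 16480368))) (a (b (l 16429088) (l 16437184)) (b (l 16425104) (l 16432832)))) (b (a (b (a (l 16415664) (l 16424096)) (a (l 16422664) (l 16430488))) (b (a (l 16435680) (l 16450232)) (a (l 16441264) (l 16454800)))) (a (b (l 16454544) (l 16440312)) (b (l 16495336) (l 16479504)))))), by decide +kernel⟩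

def k2_pm_202_a : ∃ t, chk3 f_pm_202_a t 2 3 1 = true :=
  ⟨(b (b (a (b (a (b (l 16445408) (l 16453792)) (b (l 16440632) (l 16448936))) (a (l 16470136) (l 16465008))) (b (a (b (l 16447176) (l 16455600)) (b (l 16485952) (l 16493792))) (a (l 16491400) (l 16484584)))) (a (a (l 16504888) (l 16497368)) (b (a (l 16489432) (l 16498960)) (l 16510560)))) (a (b (a (l 16547080) (l 16536296)) (b (l 16568896) (l 16583936))) (b (a (l 16530648) (l 16526616)) (l 16546184)))), by decide +kernel⟩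

def k3_pm_202_a : ∃ t, chk3 f_pm_202_a t 3 8 1 = true :=
  ⟨(a (l 1) (b (a (l 1) (l 6)) (b (a (a (l 1) (l 6)) (l 6)) (b (a (a (l 1) (l 6)) (l 6)) (b (a (a (a (l 1) (a (l 1) (l 6))) (l 6)) (l 6)) (a (a (a (l 1) (a (b (l 16600232) (l 160557622615)) (b (l 6) (l 16612568)))) (a (a (l 16623776) (l 16635520)) (l 16653400))) (a (l 16646944) (a (l 16678792) (l 16669568))))))))), by decide +kernel⟩

def k4_pm_202_a : ∃ t, chk3 f_pm_202_a t 6 9 1 = true :=
  ⟨(b (a (l 1) (b (a (l 1) (b (l 1) (a (b (l 1) (l 16536032)) (b (l 127808420807) (l 153578229959))))) (a (b (a (l 1) (b (l 1) (l 16518096))) (a (b (l 1) (l 16503064)) (b (l 16520568) (l 16523080)))) (b (a (b (l 16537960) (l 16539952)) (b (l 16561272) (l 16562792))) (a (b (l 16542000) (l 16544088)) (l 16565192)))))) (a (b (a (a (l 1) (a (l 1) (b (l 1) (l 16466992)))) (b (a (l 1) (l 121902677847)) (a (b (l 16477024) (l 16480336)) (b (l 16493928) (l 16496944))))) (a (b (c (a (l 16460672) (l 16474904)) (a (l 16439552)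 (l 16455176))) (a (c (l 16459328) (l 16440368)) (c (l 16472864) (l 16455464)))) (b (a (l 16480456) (l 16496800)) (l 16487608)))) (b (a (b (a (b (l 16505984) (l 16508912)) (l 16526896)) (a (b (l 16511848) (l 16514536)) (l 16552880))) (b (a (l 16547288) (l 16568552)) (b (l 16560976) (l 16583712)))) (a (b (l 16523320) (l 16521520)) (b (l 16561400) (l 16558712)))))), by decide +kernel⟩

def k5_pm_202_a : ∃ t, chk3 f_pm_202_a t 7 9 1 = true :=
  ⟨(b (a (a (b (b (a (b (a (l 1) (c (l 16592320) (l 16585544))) (a (l 16586824) (l 16589480))) (b (a (c (l 16604560) (l 16598640)) (l 16612920)) (a (l 16601880) (l 16612936)))) (a (b (a (l 16577232) (l 16590104)) (l 16584568)) (b (l 16607696) (l 16608056)))) (a (b (l 16586016) (l 16588208)) (b (l 16608768) (l 16610008)))) (a (b (b (b (l 16630128) (l 16629776)) (l 16629488)) (b (l 16629480) (l 16629832))) (b (b (b (l 16653400) (l 16652544)) (l 16651504)) (l 16650208)))) (a (b (b (a (l 16676328) (l 16677712)) (l 16649488))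 (a (l 16656760) (l 16651552))) (b (a (b (l 16691480) (l 16660544)) (b (b (l 16663672) (l 16658912)) (l 16651464))) (a (l 16686456) (b (l 16640984) (l 16629960)))))) (a (a (b (b (a (l 16590616) (l 16611496)) (a (l 16593088) (l 16613072))) (l 16578608)) (b (b (l 16640232) (l 16633032)) (l 16621696))) (a (b (b (l 16637320) (a (l 16628136) (l 16622808))) (a (l 16615984) (l 16610120))) (b (b (a (l 16627464) (l 16618472)) (a (l 16615680) (l 16606632))) (a (l 16602472) (l 16613880)))))), by decide +kernel⟩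

def k6_pm_202_a : ∃ t, chk3 f_pm_202_a t 3 5 1 = true :=
  ⟨(b (b (b (a (a (a (b (a (l 16450216) (l 16463760)) (c (l 16464144) (l 16449976))) (a (b (l 16478600) (l 16477592)) (l 16493672))) (a (l 16560848) (l 16491912))) (a (a (l 16592216) (l 16608792)) (a (b (l 16602336) (l 16594888)) (a (l 16586360) (l 16617120))))) (a (b (a (a (l 16457648) (l 16484480)) (a (l 16516320) (l 16551048))) (a (b (a (l 16458208) (l 16483720)) (a (l 16458656) (b (l 16483344) (l 16483088)))) (b (l 16574688) (a (b (l 16514584) (l 16514320)) (l 16464600))))) (b (a (l 16603216) (a (l 16587136) (l 16566904))) (a (b (l 16598312) (a (l 16583384) (l 16589456))) (b (a (l 16580848) (l 16559000)) (a (b (l 16577128) (l 16574416)) (b (l 16554392) (l 16551128)))))))) (a (a (b (a (l 16502640) (a (l 16477552) (l 16490688))) (a (l 16464144) (l 16485752))) (a (b (l 16513672) (l 16512568)) (l 16544400))) (b (a (a (l 16579560) (l 16580920)) (a (l 16565368) (l 16541192))) (a (l 16637144) (a (l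 16550160) (l 16524904)))))) (a (a (b (b (a (l 16467520) (l 16487680)) (a (l 16470832) (l 16489368))) (c (a (l 16486816) (l 16503000)) (a (l 16464488) (l 16482848)))) (b (a (a (l 16546528) (l 16433336)) (l 16537680)) (a (b (l 16511568) (l 16513856)) (l 16534520)))) (a (a (b (l 16561552) (l 16538144)) (b (l 16547440) (l 16521992))) (a (b (l 16570128) (l 16542872)) (b (b (l 16509224) (l 16494168)) (b (l 16479736) (l 16465944))))))), by decide +kernel⟩

def k7_pm_202_a : ∃ t, chk3 f_pm_202_a t 3 3 1 = true :=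
  ⟨(b (a (b (a (b (c (a (l 16497464) (l 16510928)) (a (l 16475424) (l 16490896))) (l 16504224)) (b (a (l 16516608) (l 16530672)) (l 16647744))) (a (b (l 16511344) (l 16516024)) (l 16630496))) (b (a (b (a (l 16516840) (l 16498848)) (a (l 16497720) (l 16478104))) (b (a (l 16518056) (b (l 16452808) (l 16440336))) (a (l 16453832) (l 16422904)))) (a (a (l 16494440) (l 16451704)) (a (l 16446368) (b (l 16402104) (l 16384200)))))) (a (b (a (l 16516744) (l 16487160)) (a (l 16518360) (l 16480856))) (b (a (a (l 16450240) (l 16425744)) (a (l 16397368) (l 16363072))) (a (l 16572592) (b (l 16367280) (l 16362680)))))), by decide +kernel⟩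

theorem s8_pm_202_a : ∃ t, chk3 f_pm_202_a t 3 9 1 = true := ex3_a k4_pm_202_a k5_pm_202_a

theorem s9_pm_202_a : ∃ t, chk3 f_pm_202_a t 3 4 1 = true := ex3_b k3_pm_202_a s8_pm_202_a

theorem s10_pm_202_a : ∃ t, chk3 f_pm_202_a t 3 2 1 = true := ex3_b s9_pm_202_a k6_pm_202_a

theorem s11_pm_202_a : ∃ t, chk3 f_pm_202_a t 3 1 1 = true := ex3_b s10_pm_202_a k7_pm_202_a

theorem s12_pm_202_a : ∃ t, chk3 f_pm_202_a t 2 2 1 = true := ex3_b k0_pm_202_a k1_pm_202_a

theorem s13_pm_202_a : ∃ t, chk3 f_pm_202_a t 2 1 1 = true := ex3_b s12_pm_202_a k2_pm_202_a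

theorem s14_pm_202_a : ∃ t, chk3 f_pm_202_a t 1 1 1 = true := ex3_a s13_pm_202_a s11_pm_202_a

theorem c_pm_202_a : CertB 0 536870912 0 536870912 740881858 40050571 3 eng mog cd1q2a cd1q0 pd2 true true false .pp 2 0 2
    ndB1q2a ndB1q0 pcB2 cut_pm_202_a Ext.none :=
  certB1 (fam := true) (s1 := true) (s2 := false) (a := 2) (b := 0) (c := 2) (cn := .pp) (n1 := ndB1q2a) (n2 := ndB1q0) (pc := pcB2) (cut := cut_pm_202_a) (xt := Ext.none) (P1 := 0) (W1 := 536870912) (P2 := 0) (W2 := 536870912) (P3 := 740881858) (W3 := 40050571) (N0 := 3) (En := eng) (mo := mog) (C1 := cd1q2a) (C2 := cd1q0) (C3 := pd2)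
    rfl (fun _ => rfl) s14_pm_202_a

noncomputable def cut_pm_202_b : Cut := Cut.of [[⟨0, 1, 0, 67108864⟩, ⟨1, 0, 0, 67108864⟩, ⟨2, 1, 0, 67108864⟩]]

noncomputable def f_pm_202_b : ℕ → ℕ → ℕ → ℕ → Bool := onCell 1239849684 370763052 1073741824 536870912 740881858 40050571
    (rowB 3 eng mog cd1q2b cd1q0 pd2 1 true true false .pp 2 0 2 (qsf 1239849684 370763052 0 536870912 2) ndB1q2b ndB1q0 pcB2 cut_pm_202_b Ext.none)

def k0_pm_202_b : ∃ t, chk3 f_pm_202_b t 1 1 1 = true :=
  ⟨(b (a (b (l 1) (b (a (a (b (b (l 1) (a (b (l 1) (l 16401192)) (l 1))) (b (a (b (l 16364992) (l 16369096)) (l 1)) (a (a (l 16393800) (l 16356848)) (l 16321344)))) (l 1)) (l 1)) (a (a (b (a (b (l 16384056) (l 16392936)) (b (l 16311232) (l 16322376))) (a (l 16427648) (l 16339544))) (a (b (b (l 16236288) (l 16249528)) (b (l 16263064) (l 16276824))) (b (l 1) (b (l 16190360) (l 16206184))))) (b (l 1) (a (b (l 1) (l 16097264)) (l 1)))))) (l 1)) (a (b (a (b (a (b (a (l 16425560) (l 16363016))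 (l 16501872)) (b (b (l 16256840) (l 16272008)) (l 16295048))) (a (b (l 16486256) (l 16472536)) (b (l 16326592) (l 16361120)))) (b (b (a (b (l 16116128) (l 16135304)) (l 1)) (a (l 16164552) (l 114922487943))) (a (b (l 16203736) (l 16243176)) (b (l 16074064) (l 16121184))))) (b (a (b (l 16450560) (l 16482352)) (b (l 16227880) (l 16274112))) (a (b (l 16513704) (l 16544096)) (l 16556536)))) (b (a (b (l 1) (b (a (l 15939456) (l 1)) (a (l 15993264) (l 15862192)))) (l 1)) (b (a (b (a (l 16047624) (l 15922352)) (l 16043536)) (b (l 1) (l 244844968151))) (a (b (l 16101088) (l 16159880)) (b (l 15870008) (l 15938272))))))), by decide +kernel⟩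

theorem c_pm_202_b : CertB 1239849684 370763052 0 536870912 740881858 40050571 3 eng mog cd1q2b cd1q0 pd2 true true false .pp 2 0 2
    ndB1q2b ndB1q0 pcB2 cut_pm_202_b Ext.none :=
  certB1 (fam := true) (s1 := true) (s2 := false) (a := 2) (b := 0) (c := 2) (cn := .pp) (n1 := ndB1q2b) (n2 := ndB1q0) (pc := pcB2) (cut := cut_pm_202_b) (xt := Ext.none) (P1 := 1239849684) (W1 := 370763052) (P2 := 0) (W2 := 536870912) (P3 := 740881858) (W3 := 40050571) (N0 := 3) (En := eng) (mo := mog) (C1 := cd1q2b) (C2 := cd1q0) (C3 := pd2)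
    rfl (fun _ => rfl) k0_pm_202_b

noncomputable def f_pm_203_a : ℕ → ℕ → ℕ → ℕ → Bool := onCell 0 536870912 1610612736 536870912 740881858 40050571
    (rowB 3 eng mog cd1q2a cd1q0 pd3 1 true true false .up 2 0 3 (qsf 0 536870912 0 536870912 3) ndB1q2a ndB1q0 pcB3 Cut.none Ext.none)

def k0_pm_203_a : ∃ t, chk3 f_pm_203_a t 1 1 1 = true :=
  ⟨(b (b (a (b (a (b (l 16597576) (l 16621688)) (l 16569136)) (a (l 16657632) (l 16611592))) (a (b (l 16508008) (l 16543256)) (a (b (l 16422000) (l 16457832)) (b (l 16440616) (l 2))))) (a (b (a (l 16700536) (l 16655080)) (l 2)) (a (l 2) (l 2)))) (l 2)), by decide +kernel⟩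

theorem c_pm_203_a : CertB 0 536870912 0 536870912 740881858 40050571 3 eng mog cd1q2a cd1q0 pd3 true true false .up 2 0 3
    ndB1q2a ndB1q0 pcB3 Cut.none Ext.none :=
  certB1 (fam := true) (s1 := true) (s2 := false) (a := 2) (b := 0) (c := 3) (cn := .up) (n1 := ndB1q2a) (n2 := ndB1q0) (pc := pcB3) (cut := Cut.none) (xt := Ext.none) (P1 := 0) (W1 := 536870912) (P2 := 0) (W2 := 536870912) (P3 := 740881858) (W3 := 40050571) (N0 := 3) (En := eng) (mo := mog) (C1 := cd1q2a) (C2 := cd1q0) (C3 := pd3)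
    rfl (fun _ => rfl) k0_pm_203_a

noncomputable def f_pm_203_b : ℕ → ℕ → ℕ → ℕ → Bool := onCell 1239849684 370763052 1610612736 536870912 740881858 40050571
    (rowB 3 eng mog cd1q2b cd1q0 pd3 1 true true false .up 2 0 3 (qsf 1239849684 370763052 0 536870912 3) ndB1q2b ndB1q0 pcB3 Cut.none Ext.none)

def k0_pm_203_b : ∃ t, chk3 f_pm_203_b t 1 1 1 = true :=
  ⟨(b (b (a (b (a (a (l 16606104) (l 16556528)) (l 16442056)) (a (l 16631576) (l 16529168))) (b (a (l 16250480) (l 16123480)) (a (l 16367088) (l 16171952)))) (b (a (a (l 16711160) (l 16606896)) (b (l 16409408) (l 16428792))) (a (a (l 16921408) (l 16675480)) (a (l 4) (l 4))))) (b (l 4) (l 4))), by decide +kernel⟩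

theorem c_pm_203_b : CertB 1239849684 370763052 0 536870912 740881858 40050571 3 eng mog cd1q2b cd1q0 pd3 true true false .up 2 0 3
    ndB1q2b ndB1q0 pcB3 Cut.none Ext.none :=
  certB1 (fam := true) (s1 := true) (s2 := false) (a := 2) (b := 0) (c := 3) (cn := .up) (n1 := ndB1q2b) (n2 := ndB1q0) (pc := pcB3) (cut := Cut.none) (xt := Ext.none) (P1 := 1239849684) (W1 := 370763052) (P2 := 0) (W2 := 536870912) (P3 := 740881858) (W3 := 40050571) (N0 := 3) (En := eng) (mo := mog) (C1 := cd1q2b) (C2 := cd1q0) (C3 := pd3)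
    rfl (fun _ => rfl) k0_pm_203_b

noncomputable def f_pm_213_a : ℕ → ℕ → ℕ → ℕ → Bool := onCell 0 536870912 1610612736 536870912 740881858 40050571
    (rowB 3 eng mog cd1q2a cd1q1 pd3 1 true true false .pnn 2 1 3 (qsf 0 536870912 536870912 536870912 3) ndB1q2a ndB1q1 pcB3 Cut.none Ext.none)

def k0_pm_213_a : ∃ t, chk3 f_pm_213_a t 1 1 1 = true :=
  ⟨(a (b (b (b (l 1) (a (l 1) (l 16649016))) (b (a (l 16738424) (l 16748848)) (a (l 16744512) (l 16734208)))) (b (b (a (b (l 16727064) (l 80765317735)) (l 16886032)) (a (l 4) (b (l 16739936) (l 16759136)))) (b (b (a (l 4) (l 125325828487)) (l 4)) (l 4)))) (b (b (a (b (l 1) (l 16579584)) (a (b (l 16454136) (l 16496480)) (b (l 16489480) (a (l 16457368) (l 16432544))))) (b (a (b (l 16618856) (l 16653736)) (b (a (l 16560264) (l 16539568)) (a (l 16618752) (a (l 16622992) (l 16638000))))) (a (b (l 16694208) (l 16742400)) (b (a (l 16683976) (l 16727752)) (a (l 16767760) (l 16749520)))))) (b (b (b (a (l 16802632) (a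 (l 16845984) (l 16849656))) (a (l 16871136) (a (l 16877488) (l 16890760)))) (b (a (l 16833168) (a (l 16881960) (l 16895664))) (a (l 16797152) (a (l 16877808) (l 16881088))))) (a (b (b (a (l 16740952) (l 16793648)) (b (l 16845704) (l 102240566519))) (b (b (l 162370049063) (l 4)) (l 4))) (a (b (b (l 16850920) (b (l 16825536) (l 16811360))) (b (b (l 16799008) (l 16758448)) (l 4))) (b (b (l 16862592) (l 16968680)) (b (b (l 16821432) (a (l 16797272) (l 16795696))) (a (b (l 16883440) (l 4)) (b (l 16932496) (l 4)))))))))), by decide +kernel⟩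

theorem c_pm_213_a : CertB 0 536870912 536870912 536870912 740881858 40050571 3 eng mog cd1q2a cd1q1 pd3 true true false .pnn 2 1 3
    ndB1q2a ndB1q1 pcB3 Cut.none Ext.none :=
  certB1 (fam := true) (s1 := true) (s2 := false) (a := 2) (b := 1) (c := 3) (cn := .pnn) (n1 := ndB1q2a) (n2 := ndB1q1) (pc := pcB3) (cut := Cut.none) (xt := Ext.none) (P1 := 0) (W1 := 536870912) (P2 := 536870912) (W2 := 536870912) (P3 := 740881858) (W3 := 40050571) (N0 := 3) (En := eng) (mo := mog) (C1 := cd1q2a) (C2 := cd1q1) (C3 := pd3)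
    rfl (fun _ => rfl) k0_pm_213_a

noncomputable def f_pm_213_b : ℕ → ℕ → ℕ → ℕ → Bool := onCell 1239849684 370763052 1610612736 536870912 740881858 40050571
    (rowB 3 eng mog cd1q2b cd1q1 pd3 1 true true false .pnn 2 1 3 (qsf 1239849684 370763052 536870912 536870912 3) ndB1q2b ndB1q1 pcB3 Cut.none Ext.none)

def k0_pm_213_b : ∃ t, chk3 f_pm_213_b t 1 1 1 = true :=
  ⟨(b (a (b (l 1) (b (a (l 16729056) (l 1)) (a (l 16896288) (l 16751072)))) (l 1)) (b (l 4) (l 4))), by decide +kernel⟩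

theorem c_pm_213_b : CertB 1239849684 370763052 536870912 536870912 740881858 40050571 3 eng mog cd1q2b cd1q1 pd3 true true false .pnn 2 1 3
    ndB1q2b ndB1q1 pcB3 Cut.none Ext.none :=
  certB1 (fam := true) (s1 := true) (s2 := false) (a := 2) (b := 1) (c := 3) (cn := .pnn) (n1 := ndB1q2b) (n2 := ndB1q1) (pc := pcB3) (cut := Cut.none) (xt := Ext.none) (P1 := 1239849684) (W1 := 370763052) (P2 := 536870912) (W2 := 536870912) (P3 := 740881858) (W3 := 40050571) (N0 := 3) (En := eng) (mo := mog) (C1 := cd1q2b) (C2 := cd1q1) (C3 := pd3)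
    rfl (fun _ => rfl) k0_pm_213_b

noncomputable def f_pm_303 : ℕ → ℕ → ℕ → ℕ → Bool := onCell 1610612736 536870912 0 536870912 740881858 40050571
    (rowB 3 eng mog cd1q3 cd1q0 pd3 2 true true false .npn 3 0 3 (qsf 1610612736 536870912 0 536870912 3) ndB1q3 ndB1q0 pcB3 Cut.none Ext.none)

def k0_pm_303 : ∃ t, chk3 f_pm_303 t 1 1 1 = true :=
  ⟨(a (a (b (a (b (b (l 15920264) (l 16079312)) (l 1)) (b (l 15974312) (l 16284024))) (l 1)) (b (a (b (a (l 15972816) (l 15984016)) (l 16354208)) (l 4)) (a (l 1) (b (l 4) (l 1))))) (l 4)), by decide +kernel⟩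

theorem c_pm_303 : CertB 1610612736 536870912 0 536870912 740881858 40050571 3 eng mog cd1q3 cd1q0 pd3 true true false .npn 3 0 3
    ndB1q3 ndB1q0 pcB3 Cut.none Ext.none :=
  certB2 (fam := true) (s1 := true) (s2 := false) (a := 3) (b := 0) (c := 3) (cn := .npn) (n1 := ndB1q3) (n2 := ndB1q0) (pc := pcB3) (cut := Cut.none) (xt := Ext.none) (P1 := 1610612736) (W1 := 536870912) (P2 := 0) (W2 := 536870912) (P3 := 740881858) (W3 := 40050571) (N0 := 3) (En := eng) (mo := mog) (C1 := cd1q3) (C2 := cd1q0) (C3 := pd3)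
    rfl (fun _ => rfl) k0_pm_303

noncomputable def f_pm_313 : ℕ → ℕ → ℕ → ℕ → Bool := onCell 1610612736 536870912 536870912 536870912 740881858 40050571
    (rowB 3 eng mog cd1q3 cd1q1 pd3 0 true true false .dn 3 1 3 (qsf 1610612736 536870912 536870912 536870912 3) ndB1q3 ndB1q1 pcB3 Cut.none Ext.none)

def k0_pm_313 : ∃ t, chk3 f_pm_313 t 1 1 1 = true :=
  ⟨(l 4), by decide +kernel⟩

theorem c_pm_313 : CertB 1610612736 536870912 536870912 536870912 740881858 40050571 3 eng mog cd1q3 cd1q1 pd3 true true false .dn 3 1 3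
    ndB1q3 ndB1q1 pcB3 Cut.none Ext.none :=
  certB0 (fam := true) (s1 := true) (s2 := false) (a := 3) (b := 1) (c := 3) (cn := .dn) (n1 := ndB1q3) (n2 := ndB1q1) (pc := pcB3) (cut := Cut.none) (xt := Ext.none) (P1 := 1610612736) (W1 := 536870912) (P2 := 536870912) (W2 := 536870912) (P3 := 740881858) (W3 := 40050571) (N0 := 3) (En := eng) (mo := mog) (C1 := cd1q3) (C2 := cd1q1) (C3 := pd3)
    rfl k0_pm_313

noncomputable def f_mm_001 : ℕ → ℕ → ℕ → ℕ → Bool := onCell 0 536870912 0 536870912 740881858 40050571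
    (rowB 3 eng mog cd1q0 cd1q0 pd1 0 true false false .up 0 0 1 (qsf 0 536870912 0 536870912 1) ndB1q0 ndB1q0 pcB1 Cut.none Ext.none)

def k0_mm_001 : ∃ t, chk3 f_mm_001 t 1 1 1 = true :=
  ⟨(l 4), by decide +kernel⟩

theorem c_mm_001 : CertB 0 536870912 0 536870912 740881858 40050571 3 eng mog cd1q0 cd1q0 pd1 true false false .up 0 0 1
    ndB1q0 ndB1q0 pcB1 Cut.none Ext.none :=
  certB0 (fam := true) (s1 := false) (s2 := false) (a := 0) (b := 0) (c := 1) (cn := .up) (n1 := ndB1q0) (n2 := ndB1q0) (pc := pcB1) (cut := Cut.none) (xt := Ext.none) (P1 := 0) (W1 := 536870912) (P2 := 0) (W2 := 536870912) (P3 := 740881858) (W3 := 40050571) (N0 := 3) (En := eng) (mo := mog) (C1 := cd1q0) (C2 := cd1q0) (C3 := pd1)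
    rfl k0_mm_001

noncomputable def f_mm_011 : ℕ → ℕ → ℕ → ℕ → Bool := onCell 0 536870912 536870912 536870912 740881858 40050571
    (rowB 3 eng mog cd1q0 cd1q1 pd1 0 true false false .pnn 0 1 1 (qsf 0 536870912 536870912 536870912 1) ndB1q0 ndB1q1 pcB1 Cut.none Ext.none)

def k0_mm_011 : ∃ t, chk3 f_mm_011 t 1 1 1 = true :=
  ⟨(l 4), by decide +kernel⟩

theorem c_mm_011 : CertB 0 536870912 536870912 536870912 740881858 40050571 3 eng mog cd1q0 cd1q1 pd1 true false false .pnn 0 1 1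
    ndB1q0 ndB1q1 pcB1 Cut.none Ext.none :=
  certB0 (fam := true) (s1 := false) (s2 := false) (a := 0) (b := 1) (c := 1) (cn := .pnn) (n1 := ndB1q0) (n2 := ndB1q1) (pc := pcB1) (cut := Cut.none) (xt := Ext.none) (P1 := 0) (W1 := 536870912) (P2 := 536870912) (W2 := 536870912) (P3 := 740881858) (W3 := 40050571) (N0 := 3) (En := eng) (mo := mog) (C1 := cd1q0) (C2 := cd1q1) (C3 := pd1)
    rfl k0_mm_011

noncomputable def f_mm_012 : ℕ → ℕ → ℕ → ℕ → Bool := onCell 0 536870912 536870912 536870912 740881858 40050571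
    (rowB 3 eng mog cd1q0 cd1q1 pd2 0 true false false .pnp 0 1 2 (qsf 0 536870912 536870912 536870912 2) ndB1q0 ndB1q1 pcB2 Cut.none Ext.none)

def k0_mm_012 : ∃ t, chk3 f_mm_012 t 1 1 1 = true :=
  ⟨(l 4), by decide +kernel⟩

theorem c_mm_012 : CertB 0 536870912 536870912 536870912 740881858 40050571 3 eng mog cd1q0 cd1q1 pd2 true false false .pnp 0 1 2
    ndB1q0 ndB1q1 pcB2 Cut.none Ext.none :=
  certB0 (fam := true) (s1 := false) (s2 := false) (a := 0) (b := 1) (c := 2) (cn := .pnp) (n1 := ndB1q0) (n2 := ndB1q1) (pc := pcB2) (cut := Cut.none) (xt := Ext.none) (P1 := 0) (W1 := 536870912) (P2 := 536870912) (W2 := 536870912) (P3 := 740881858) (W3 := 40050571) (N0 := 3) (En := eng) (mo := mog) (C1 := cd1q0) (C2 := cd1q1) (C3 := pd2)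
    rfl k0_mm_012

noncomputable def f_mm_022_a : ℕ → ℕ → ℕ → ℕ → Bool := onCell 0 536870912 0 536870912 740881858 40050571
    (rowB 3 eng mog cd1q0 cd1q2a pd2 0 true false false .pp 0 2 2 (qsf 0 536870912 0 536870912 2) ndB1q0 ndB1q2a pcB2 Cut.none Ext.none)

def k0_mm_022_a : ∃ t, chk3 f_mm_022_a t 1 1 1 = true :=
  ⟨(l 5), by decide +kernel⟩

theorem c_mm_022_a : CertB 0 536870912 0 536870912 740881858 40050571 3 eng mog cd1q0 cd1q2a pd2 true false false .pp 0 2 2
    ndB1q0 ndB1q2a pcB2 Cut.none Ext.none :=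
  certB0 (fam := true) (s1 := false) (s2 := false) (a := 0) (b := 2) (c := 2) (cn := .pp) (n1 := ndB1q0) (n2 := ndB1q2a) (pc := pcB2) (cut := Cut.none) (xt := Ext.none) (P1 := 0) (W1 := 536870912) (P2 := 0) (W2 := 536870912) (P3 := 740881858) (W3 := 40050571) (N0 := 3) (En := eng) (mo := mog) (C1 := cd1q0) (C2 := cd1q2a) (C3 := pd2)
    rfl k0_mm_022_a

noncomputable def f_mm_022_b : ℕ → ℕ → ℕ → ℕ → Bool := onCell 0 536870912 1239849684 370763052 740881858 40050571
    (rowB 3 eng mog cd1q0 cd1q2b pd2 0 true false false .pp 0 2 2 (qsf 0 536870912 1239849684 370763052 2) ndB1q0 ndB1q2b pcB2 Cut.none Ext.none)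

def k0_mm_022_b : ∃ t, chk3 f_mm_022_b t 1 1 1 = true :=
  ⟨(l 5), by decide +kernel⟩

theorem c_mm_022_b : CertB 0 536870912 1239849684 370763052 740881858 40050571 3 eng mog cd1q0 cd1q2b pd2 true false false .pp 0 2 2
    ndB1q0 ndB1q2b pcB2 Cut.none Ext.none :=
  certB0 (fam := true) (s1 := false) (s2 := false) (a := 0) (b := 2) (c := 2) (cn := .pp) (n1 := ndB1q0) (n2 := ndB1q2b) (pc := pcB2) (cut := Cut.none) (xt := Ext.none) (P1 := 0) (W1 := 536870912) (P2 := 1239849684) (W2 := 370763052) (P3 := 740881858) (W3 := 40050571) (N0 := 3) (En := eng) (mo := mog) (C1 := cd1q0) (C2 := cd1q2b) (C3 := pd2)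
    rfl k0_mm_022_b

noncomputable def f_mm_023_a : ℕ → ℕ → ℕ → ℕ → Bool := onCell 0 536870912 0 536870912 740881858 40050571
    (rowB 3 eng mog cd1q0 cd1q2a pd3 0 true false false .up 0 2 3 (qsf 0 536870912 0 536870912 3) ndB1q0 ndB1q2a pcB3 Cut.none Ext.none)

def k0_mm_023_a : ∃ t, chk3 f_mm_023_a t 1 1 1 = true :=
  ⟨(l 5), by decide +kernel⟩

theorem c_mm_023_a : CertB 0 536870912 0 536870912 740881858 40050571 3 eng mog cd1q0 cd1q2a pd3 true false false .up 0 2 3
    ndB1q0 ndB1q2a pcB3 Cut.none Ext.none :=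
  certB0 (fam := true) (s1 := false) (s2 := false) (a := 0) (b := 2) (c := 3) (cn := .up) (n1 := ndB1q0) (n2 := ndB1q2a) (pc := pcB3) (cut := Cut.none) (xt := Ext.none) (P1 := 0) (W1 := 536870912) (P2 := 0) (W2 := 536870912) (P3 := 740881858) (W3 := 40050571) (N0 := 3) (En := eng) (mo := mog) (C1 := cd1q0) (C2 := cd1q2a) (C3 := pd3)
    rfl k0_mm_023_a

noncomputable def f_mm_023_b : ℕ → ℕ → ℕ → ℕ → Bool := onCell 0 536870912 1239849684 370763052 740881858 40050571
    (rowB 3 eng mog cd1q0 cd1q2b pd3 0 true false false .up 0 2 3 (qsf 0 536870912 1239849684 370763052 3) ndB1q0 ndB1q2b pcB3 Cut.none Ext.none)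

def k0_mm_023_b : ∃ t, chk3 f_mm_023_b t 1 1 1 = true :=
  ⟨(l 5), by decide +kernel⟩

theorem c_mm_023_b : CertB 0 536870912 1239849684 370763052 740881858 40050571 3 eng mog cd1q0 cd1q2b pd3 true false false .up 0 2 3
    ndB1q0 ndB1q2b pcB3 Cut.none Ext.none :=
  certB0 (fam := true) (s1 := false) (s2 := false) (a := 0) (b := 2) (c := 3) (cn := .up) (n1 := ndB1q0) (n2 := ndB1q2b) (pc := pcB3) (cut := Cut.none) (xt := Ext.none) (P1 := 0) (W1 := 536870912) (P2 := 1239849684) (W2 := 370763052) (P3 := 740881858) (W3 := 40050571) (N0 := 3) (En := eng) (mo := mog) (C1 := cd1q0) (C2 := cd1q2b) (C3 := pd3)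
    rfl k0_mm_023_b

noncomputable def f_mm_033 : ℕ → ℕ → ℕ → ℕ → Bool := onCell 0 536870912 1610612736 536870912 740881858 40050571
    (rowB 3 eng mog cd1q0 cd1q3 pd3 0 true false false .pnn 0 3 3 (qsf 0 536870912 1610612736 536870912 3) ndB1q0 ndB1q3 pcB3 Cut.none Ext.none)

def k0_mm_033 : ∃ t, chk3 f_mm_033 t 1 1 1 = true :=
  ⟨(l 5), by decide +kernel⟩

theorem c_mm_033 : CertB 0 536870912 1610612736 536870912 740881858 40050571 3 eng mog cd1q0 cd1q3 pd3 true false false .pnn 0 3 3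
    ndB1q0 ndB1q3 pcB3 Cut.none Ext.none :=
  certB0 (fam := true) (s1 := false) (s2 := false) (a := 0) (b := 3) (c := 3) (cn := .pnn) (n1 := ndB1q0) (n2 := ndB1q3) (pc := pcB3) (cut := Cut.none) (xt := Ext.none) (P1 := 0) (W1 := 536870912) (P2 := 1610612736) (W2 := 536870912) (P3 := 740881858) (W3 := 40050571) (N0 := 3) (En := eng) (mo := mog) (C1 := cd1q0) (C2 := cd1q3) (C3 := pd3)
    rfl k0_mm_033

noncomputable def f_mm_101 : ℕ → ℕ → ℕ → ℕ → Bool := onCell 536870912 536870912 0 536870912 740881858 40050571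
    (rowB 3 eng mog cd1q1 cd1q0 pd1 0 true false false .npn 1 0 1 (qsf 536870912 536870912 0 536870912 1) ndB1q1 ndB1q0 pcB1 Cut.none Ext.none)

def k0_mm_101 : ∃ t, chk3 f_mm_101 t 1 1 1 = true :=
  ⟨(l 4), by decide +kernel⟩

theorem c_mm_101 : CertB 536870912 536870912 0 536870912 740881858 40050571 3 eng mog cd1q1 cd1q0 pd1 true false false .npn 1 0 1
    ndB1q1 ndB1q0 pcB1 Cut.none Ext.none :=
  certB0 (fam := true) (s1 := false) (s2 := false) (a := 1) (b := 0) (c := 1) (cn := .npn) (n1 := ndB1q1) (n2 := ndB1q0) (pc := pcB1) (cut := Cut.none) (xt := Ext.none) (P1 := 536870912) (W1 := 536870912) (P2 := 0) (W2 := 536870912) (P3 := 740881858) (W3 := 40050571) (N0 := 3) (En := eng) (mo := mog) (C1 := cd1q1) (C2 := cd1q0) (C3 := pd1)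
    rfl k0_mm_101

noncomputable def f_mm_102 : ℕ → ℕ → ℕ → ℕ → Bool := onCell 536870912 536870912 0 536870912 740881858 40050571
    (rowB 3 eng mog cd1q1 cd1q0 pd2 0 true false false .npp 1 0 2 (qsf 536870912 536870912 0 536870912 2) ndB1q1 ndB1q0 pcB2 Cut.none Ext.none)

def k0_mm_102 : ∃ t, chk3 f_mm_102 t 1 1 1 = true :=
  ⟨(l 4), by decide +kernel⟩

theorem c_mm_102 : CertB 536870912 536870912 0 536870912 740881858 40050571 3 eng mog cd1q1 cd1q0 pd2 true false false .npp 1 0 2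
    ndB1q1 ndB1q0 pcB2 Cut.none Ext.none :=
  certB0 (fam := true) (s1 := false) (s2 := false) (a := 1) (b := 0) (c := 2) (cn := .npp) (n1 := ndB1q1) (n2 := ndB1q0) (pc := pcB2) (cut := Cut.none) (xt := Ext.none) (P1 := 536870912) (W1 := 536870912) (P2 := 0) (W2 := 536870912) (P3 := 740881858) (W3 := 40050571) (N0 := 3) (En := eng) (mo := mog) (C1 := cd1q1) (C2 := cd1q0) (C3 := pd2)
    rfl k0_mm_102

noncomputable def f_mm_112 : ℕ → ℕ → ℕ → ℕ → Bool := onCell 536870912 536870912 536870912 536870912 740881858 40050571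
    (rowB 3 eng mog cd1q1 cd1q1 pd2 0 true false false .dn 1 1 2 (qsf 536870912 536870912 536870912 536870912 2) ndB1q1 ndB1q1 pcB2 Cut.none Ext.none)

def k0_mm_112 : ∃ t, chk3 f_mm_112 t 1 1 1 = true :=
  ⟨(l 4), by decide +kernel⟩

theorem c_mm_112 : CertB 536870912 536870912 536870912 536870912 740881858 40050571 3 eng mog cd1q1 cd1q1 pd2 true false false .dn 1 1 2
    ndB1q1 ndB1q1 pcB2 Cut.none Ext.none :=
  certB0 (fam := true) (s1 := false) (s2 := false) (a := 1) (b := 1) (c := 2) (cn := .dn) (n1 := ndB1q1) (n2 := ndB1q1) (pc := pcB2) (cut := Cut.none) (xt := Ext.none) (P1 := 536870912) (W1 := 536870912) (P2 := 536870912) (W2 := 536870912) (P3 := 740881858) (W3 := 40050571) (N0 := 3) (En := eng) (mo := mog) (C1 := cd1q1) (C2 := cd1q1) (C3 := pd2)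
    rfl k0_mm_112

noncomputable def f_mm_113 : ℕ → ℕ → ℕ → ℕ → Bool := onCell 536870912 536870912 536870912 536870912 740881858 40050571
    (rowB 3 eng mog cd1q1 cd1q1 pd3 0 true false false .nn 1 1 3 (qsf 536870912 536870912 536870912 536870912 3) ndB1q1 ndB1q1 pcB3 Cut.none Ext.none)

def k0_mm_113 : ∃ t, chk3 f_mm_113 t 1 1 1 = true :=
  ⟨(l 4), by decide +kernel⟩

theorem c_mm_113 : CertB 536870912 536870912 536870912 536870912 740881858 40050571 3 eng mog cd1q1 cd1q1 pd3 true false false .nn 1 1 3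
    ndB1q1 ndB1q1 pcB3 Cut.none Ext.none :=
  certB0 (fam := true) (s1 := false) (s2 := false) (a := 1) (b := 1) (c := 3) (cn := .nn) (n1 := ndB1q1) (n2 := ndB1q1) (pc := pcB3) (cut := Cut.none) (xt := Ext.none) (P1 := 536870912) (W1 := 536870912) (P2 := 536870912) (W2 := 536870912) (P3 := 740881858) (W3 := 40050571) (N0 := 3) (En := eng) (mo := mog) (C1 := cd1q1) (C2 := cd1q1) (C3 := pd3)
    rfl k0_mm_113

noncomputable def f_mm_123_a : ℕ → ℕ → ℕ → ℕ → Bool := onCell 536870912 536870912 0 536870912 740881858 40050571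
    (rowB 3 eng mog cd1q1 cd1q2a pd3 0 true false false .npn 1 2 3 (qsf 536870912 536870912 0 536870912 3) ndB1q1 ndB1q2a pcB3 Cut.none Ext.none)

def k0_mm_123_a : ∃ t, chk3 f_mm_123_a t 1 1 1 = true :=
  ⟨(l 4), by decide +kernel⟩

theorem c_mm_123_a : CertB 536870912 536870912 0 536870912 740881858 40050571 3 eng mog cd1q1 cd1q2a pd3 true false false .npn 1 2 3
    ndB1q1 ndB1q2a pcB3 Cut.none Ext.none :=
  certB0 (fam := true) (s1 := false) (s2 := false) (a := 1) (b := 2) (c := 3) (cn := .npn) (n1 := ndB1q1) (n2 := ndB1q2a) (pc := pcB3) (cut := Cut.none) (xt := Ext.none) (P1 := 536870912) (W1 := 536870912) (P2 := 0) (W2 := 536870912) (P3 := 740881858) (W3 := 40050571) (N0 := 3) (En := eng) (mo := mog) (C1 := cd1q1) (C2 := cd1q2a) (C3 := pd3)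
    rfl k0_mm_123_a

noncomputable def f_mm_123_b : ℕ → ℕ → ℕ → ℕ → Bool := onCell 536870912 536870912 1239849684 370763052 740881858 40050571
    (rowB 3 eng mog cd1q1 cd1q2b pd3 0 true false false .npn 1 2 3 (qsf 536870912 536870912 1239849684 370763052 3) ndB1q1 ndB1q2b pcB3 Cut.none Ext.none)

def k0_mm_123_b : ∃ t, chk3 f_mm_123_b t 1 1 1 = true :=
  ⟨(l 5), by decide +kernel⟩

theorem c_mm_123_b : CertB 536870912 536870912 1239849684 370763052 740881858 40050571 3 eng mog cd1q1 cd1q2b pd3 true false false .npn 1 2 3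
    ndB1q1 ndB1q2b pcB3 Cut.none Ext.none :=
  certB0 (fam := true) (s1 := false) (s2 := false) (a := 1) (b := 2) (c := 3) (cn := .npn) (n1 := ndB1q1) (n2 := ndB1q2b) (pc := pcB3) (cut := Cut.none) (xt := Ext.none) (P1 := 536870912) (W1 := 536870912) (P2 := 1239849684) (W2 := 370763052) (P3 := 740881858) (W3 := 40050571) (N0 := 3) (En := eng) (mo := mog) (C1 := cd1q1) (C2 := cd1q2b) (C3 := pd3)
    rfl k0_mm_123_b

noncomputable def f_mm_133 : ℕ → ℕ → ℕ → ℕ → Bool := onCell 536870912 536870912 1610612736 536870912 740881858 40050571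
    (rowB 3 eng mog cd1q1 cd1q3 pd3 0 true false false .dn 1 3 3 (qsf 536870912 536870912 1610612736 536870912 3) ndB1q1 ndB1q3 pcB3 Cut.none Ext.none)

def k0_mm_133 : ∃ t, chk3 f_mm_133 t 1 1 1 = true :=
  ⟨(l 4), by decide +kernel⟩

theorem c_mm_133 : CertB 536870912 536870912 1610612736 536870912 740881858 40050571 3 eng mog cd1q1 cd1q3 pd3 true false false .dn 1 3 3
    ndB1q1 ndB1q3 pcB3 Cut.none Ext.none :=
  certB0 (fam := true) (s1 := false) (s2 := false) (a := 1) (b := 3) (c := 3) (cn := .dn) (n1 := ndB1q1) (n2 := ndB1q3) (pc := pcB3) (cut := Cut.none) (xt := Ext.none) (P1 := 536870912) (W1 := 536870912) (P2 := 1610612736) (W2 := 536870912) (P3 := 740881858) (W3 := 40050571) (N0 := 3) (En := eng) (mo := mog) (C1 := cd1q1) (C2 := cd1q3) (C3 := pd3)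
    rfl k0_mm_133

noncomputable def cut_mm_202_a : Cut := Cut.of [[⟨0, 1, 0, 67108864⟩, ⟨1, 0, 0, 67108864⟩, ⟨2, 1, 0, 67108864⟩]]

noncomputable def f_mm_202_a : ℕ → ℕ → ℕ → ℕ → Bool := onCell 0 536870912 1073741824 536870912 740881858 40050571
    (rowB 3 eng mog cd1q2a cd1q0 pd2 1 true false false .pp 2 0 2 (qsf 0 536870912 0 536870912 2) ndB1q2a ndB1q0 pcB2 cut_mm_202_a Ext.none)

def k0_mm_202_a : ∃ t, chk3 f_mm_202_a t 2 1 1 = true :=
  ⟨(b (b (b (l 1) (a (l 1) (b (l 1) (a (l 1) (b (l 1) (a (l 1) (b (l 1) (c (l 16517752) (l 16509600))))))))) (b (a (a (b (b (l 1) (b (l 1) (l 16337272))) (b (l 16460256) (l 16466224))) (b (b (l 1) (a (c (l 16448384) (l 16446584)) (c (l 16456504) (l 16459592)))) (b (l 16469800) (l 16483016)))) (b (c (a (b (b (l 1) (l 16475448)) (b (l 16474888) (l 16475344))) (b (a (b (l 16498536) (l 16498656)) (b (l 16518144) (l 16519216))) (a (b (l 16499480) (l 16459288)) (b (l 16520968) (l 16460672))))) (a (b (a (l 16452152) (l 16473480))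 (b (l 16481184) (l 16490784))) (b (a (c (l 16502136) (l 16494720)) (b (l 16521576) (l 16529400))) (b (l 16539472) (a (l 16512712) (l 16532488)))))) (a (b (c (l 16484768) (l 16498416)) (l 16546536)) (a (b (l 16515448) (l 16529152)) (b (c (l 16533400) (l 16540872)) (l 16550624)))))) (a (a (b (l 16476080) (l 16491440)) (b (b (l 16491912) (l 16499904)) (l 16512856))) (b (a (b (l 16518168) (l 16532048)) (b (a (l 16543168) (l 16564936)) (l 16568928))) (a (l 16548584) (b (l 16583976) (l 16598536))))))) (b (b (a (b (l 16606176) (l 16547920)) (b (a (l 16570656) (l 16619152)) (a (l 16599240) (l 16709160)))) (a (b (l 16577008) (l 16605384)) (b (a (l 16627160) (l 9361644167)) (a (l 16653752) (l 16767976))))) (b (a (b (l 16632600) (l 16658256)) (a (b (l 16682136) (l 16710864)) (l 4))) (a (b (a (l 16670144) (l 16698480)) (l 16732008)) (l 4))))), by decide +kernel⟩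

def k1_mm_202_a : ∃ t, chk3 f_mm_202_a t 6 4 1 = true :=
  ⟨(b (l 1) (a (b (l 1) (a (b (b (l 1) (c (l 16528328) (l 16539376))) (b (a (c (l 16531944) (l 16521896)) (c (l 16545744) (l 16539784))) (c (l 16540520) (l 16542968)))) (b (b (a (l 1) (b (l 16553544) (l 16559768))) (a (c (l 16554232) (l 16546040)) (c (l 16572248) (l 16565128)))) (a (b (l 16541320) (l 16564136)) (b (l 16556752) (l 16579480)))))) (b (b (b (l 1) (a (l 1) (a (b (l 1) (l 16605208)) (b (a (l 16594920) (l 16606824)) (a (l 16601480) (l 16613336)))))) (a (b (a (l 1) (b (l 1) (a (l 1) (l 16580520)))) (a (b (l 1) (l 16577512)) (b (a (l 16555216) (l 16565904)) (l 16577328)))) (b (a (b (a (l 16585088) (l 16596376)) (a (l 16591512) (l 16602752))) (c (l 16577432) (l 16572528))) (a (c (l 16609032) (l 16582832)) (b (l 16626336) (l 16632416)))))) (b (a (a (b (b (l 16573264) (l 16579392)) (l 16567392)) (b (c (l 16599664) (l 16594032)) (l 16608824))) (b (a (l 16597672) (l 16641328)) (a (l 16628456)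 (l 16649104)))) (a (c (b (l 16600600) (l 16603432)) (b (l 16584592) (l 16607808))) (b (a (l 16631320) (l 16652512)) (a (l 16634632) (l 16656344)))))))), by decide +kernel⟩

def k2_mm_202_a : ∃ t, chk3 f_mm_202_a t 7 4 1 = true :=
  ⟨(b (a (b (l 1) (a (b (l 1) (b (l 1) (a (l 1) (a (b (l 1) (l 16646312)) (b (l 6) (l 16641120)))))) (b (l 6) (b (l 6) (b (l 6) (a (a (l 16657280) (l 16652832)) (a (l 16669728) (l 16707960)))))))) (b (l 6) (b (l 6) (b (l 6) (b (l 6) (a (a (a (l 16725600) (l 16737008)) (l 4)) (l 4))))))) (a (b (a (b (b (a (b (a (l 1) (l 16618240)) (a (l 16612408) (l 16624896))) (a (b (l 16632040) (l 16638624)) (b (l 16647712) (l 16654184)))) (b (a (a (l 16618992) (l 16631424)) (a (l 16645080) (l 16660544))) (a (l 16610696) (l 16659136)))) (b (a (b (l 16617024) (l 16623232)) (b (l 16665320) (l 16671400))) (a (l 16653320) (l 16680328)))) (b (b (a (b (c (l 16631472) (l 16639016)) (l 16673064)) (b (l 16705560) (l 16711648))) (a (b (l 16684504) (l 16690600))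 (b (l 16716640) (l 16718584)))) (a (b (l 16699544) (l 16705288)) (a (b (l 16716376) (l 16721728)) (b (l 16728320) (l 4)))))) (a (b (a (b (l 16665096) (l 16671576)) (b (l 16689528) (l 16693616))) (a (b (l 16675520) (l 16679872)) (b (l 16698272) (l 16704128)))) (b (a (b (l 16710000) (l 16737064)) (b (b (l 16734656) (l 4)) (l 4))) (b (a (l 16744312) (l 4)) (l 4))))) (b (a (a (b (b (a (b (l 16728008) (l 16730216)) (b (l 16740256) (l 16744240))) (a (b (l 16733192) (l 16736880)) (l 4))) (l 4)) (l 4)) (l 4)) (l 4)))), by decide +kernel⟩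

def k3_mm_202_a : ∃ t, chk3 f_mm_202_a t 3 5 1 = true :=
  ⟨(b (a (a (b (a (a (b (c (l 16536208) (l 16544800)) (b (l 16543176) (l 16556608))) (b (c (l 16549424) (l 16556784)) (b (l 16556520) (l 16570392)))) (b (c (a (l 16564240) (l 16538928)) (b (l 16577048) (l 16579448))) (c (b (l 16577776) (b (l 16580920) (l 16583416))) (a (l 16576040) (l 16592496))))) (b (a (c (l 16539096) (l 16523256)) (a (l 16521920) (l 16560256))) (a (l 16576296) (c (l 16606880) (l 16608520))))) (b (a (b (c (a (l 16556992) (l 16576568)) (b (l 16610584) (l 16572016))) (c (b (l 16615376) (b (l 16619216) (l 16622088))) (a (l 16610440) (l 16629952)))) (b (c (b (l 16606760) (l 16611712)) (l 16631712)) (b (b (l 16605648) (l 16608416)) (b (a (l 16652032) (l 16675680)) (a (l 16655040) (l 16658208)))))) (a (b (a (l 16579096) (l 16599464)) (a (l 16635112) (l 16613664))) (b (a (b (l 16660024) (l 16667080)) (c (l 16647768) (l 16647496))) (a (a (l 16630888) (l 16644064)) (l 4)))))) (a (b (a (b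 (a (c (l 16687664) (l 16688200)) (b (l 16711176) (l 4))) (b (a (l 16698016) (l 4)) (l 4))) (l 4)) (l 4)) (l 4))) (a (a (b (b (a (l 16590880) (l 16559456)) (a (l 16606376) (l 16575400))) (a (l 16650832) (b (l 16655336) (l 16672520)))) (a (b (a (b (l 16650176) (l 16625848)) (b (l 16609440) (l 4))) (l 4)) (l 4))) (l 4))), by decide +kernel⟩

def k4_mm_202_a : ∃ t, chk3 f_mm_202_a t 3 3 1 = true :=
  ⟨(b (a (b (a (b (b (a (l 16652480) (l 16690016)) (l 13656638855)) (b (l 16877902007) (l 4))) (l 4)) (l 4)) (l 4)) (l 4)), by decide +kernel⟩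

theorem s5_mm_202_a : ∃ t, chk3 f_mm_202_a t 3 4 1 = true := ex3_a k1_mm_202_a k2_mm_202_a

theorem s6_mm_202_a : ∃ t, chk3 f_mm_202_a t 3 2 1 = true := ex3_b s5_mm_202_a k3_mm_202_a

theorem s7_mm_202_a : ∃ t, chk3 f_mm_202_a t 3 1 1 = true := ex3_b s6_mm_202_a k4_mm_202_a

theorem s8_mm_202_a : ∃ t, chk3 f_mm_202_a t 1 1 1 = true := ex3_a k0_mm_202_a s7_mm_202_a

theorem c_mm_202_a : CertB 0 536870912 0 536870912 740881858 40050571 3 eng mog cd1q2a cd1q0 pd2 true false false .pp 2 0 2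
    ndB1q2a ndB1q0 pcB2 cut_mm_202_a Ext.none :=
  certB1 (fam := true) (s1 := false) (s2 := false) (a := 2) (b := 0) (c := 2) (cn := .pp) (n1 := ndB1q2a) (n2 := ndB1q0) (pc := pcB2) (cut := cut_mm_202_a) (xt := Ext.none) (P1 := 0) (W1 := 536870912) (P2 := 0) (W2 := 536870912) (P3 := 740881858) (W3 := 40050571) (N0 := 3) (En := eng) (mo := mog) (C1 := cd1q2a) (C2 := cd1q0) (C3 := pd2)
    rfl (fun _ => rfl) s8_mm_202_a

noncomputable def cut_mm_202_b : Cut := Cut.of [[⟨0, 1, 0, 67108864⟩, ⟨1, 0, 0, 67108864⟩, ⟨2, 1, 0, 67108864⟩]]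

noncomputable def f_mm_202_b : ℕ → ℕ → ℕ → ℕ → Bool := onCell 1239849684 370763052 1073741824 536870912 740881858 40050571
    (rowB 3 eng mog cd1q2b cd1q0 pd2 1 true false false .pp 2 0 2 (qsf 1239849684 370763052 0 536870912 2) ndB1q2b ndB1q0 pcB2 cut_mm_202_b Ext.none)

def k0_mm_202_b : ∃ t, chk3 f_mm_202_b t 1 1 1 = true :=
  ⟨(b (a (b (l 1) (b (a (a (a (b (b (l 1) (c (l 16416856) (l 16394488))) (b (c (l 16423640) (l 16408008)) (l 16427568))) (b (l 1) (b (l 1) (l 16358368)))) (l 1)) (l 1)) (a (b (a (b (a (l 16433712) (l 16365248)) (l 16407128)) (a (a (l 16317416) (l 16282760)) (l 1))) (a (a (l 16452624) (l 16386560)) (b (l 16332416) (l 16290960)))) (b (l 1) (a (b (l 1) (l 16154096)) (l 1)))))) (l 1)) (a (b (b (a (b (a (l 16439632) (b (l 16302904) (l 16315728))) (a (l 16463888) (l 16336560))) (b (a (l 16237784) (l 1)) (a (l 16205872) (l 16071920)))) (a (b (a (l 16492672) (l 16366744)) (a (l 16523696) (l 16400656))) (a (b (l 16239704) (l 16275120))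 (b (l 16109176) (l 16148576))))) (b (a (b (l 16518232) (l 16552112)) (b (a (l 16313576) (l 16189232)) (l 16358176))) (a (b (l 16605800) (l 16592248)) (a (l 16419848) (l 16302224))))) (b (a (b (l 1) (b (a (l 15976352) (l 1)) (a (l 16018808) (l 15887848)))) (l 1)) (b (a (b (l 16042024) (l 16047512)) (b (l 1) (l 15796584))) (a (b (l 16095768) (l 16145000)) (b (l 15849032) (l 15902080))))))), by decide +kernel⟩

theorem c_mm_202_b : CertB 1239849684 370763052 0 536870912 740881858 40050571 3 eng mog cd1q2b cd1q0 pd2 true false false .pp 2 0 2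
    ndB1q2b ndB1q0 pcB2 cut_mm_202_b Ext.none :=
  certB1 (fam := true) (s1 := false) (s2 := false) (a := 2) (b := 0) (c := 2) (cn := .pp) (n1 := ndB1q2b) (n2 := ndB1q0) (pc := pcB2) (cut := cut_mm_202_b) (xt := Ext.none) (P1 := 1239849684) (W1 := 370763052) (P2 := 0) (W2 := 536870912) (P3 := 740881858) (W3 := 40050571) (N0 := 3) (En := eng) (mo := mog) (C1 := cd1q2b) (C2 := cd1q0) (C3 := pd2)
    rfl (fun _ => rfl) k0_mm_202_b

noncomputable def f_mm_203_a : ℕ → ℕ → ℕ → ℕ → Bool := onCell 0 536870912 1610612736 536870912 740881858 40050571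
    (rowB 3 eng mog cd1q2a cd1q0 pd3 1 true false false .up 2 0 3 (qsf 0 536870912 0 536870912 3) ndB1q2a ndB1q0 pcB3 Cut.none Ext.none)

def k0_mm_203_a : ∃ t, chk3 f_mm_203_a t 1 1 1 = true :=
  ⟨(b (b (a (a (b (b (l 16756120) (l 4)) (l 4)) (l 4)) (l 4)) (l 4)) (l 2)), by decide +kernel⟩

theorem c_mm_203_a : CertB 0 536870912 0 536870912 740881858 40050571 3 eng mog cd1q2a cd1q0 pd3 true false false .up 2 0 3
    ndB1q2a ndB1q0 pcB3 Cut.none Ext.none :=
  certB1 (fam := true) (s1 := false) (s2 := false) (a := 2) (b := 0) (c := 3) (cn := .up) (n1 := ndB1q2a) (n2 := ndB1q0) (pc := pcB3) (cut := Cut.none) (xt := Ext.none) (P1 := 0) (W1 := 536870912) (P2 := 0) (W2 := 536870912) (P3 := 740881858) (W3 := 40050571) (N0 := 3) (En := eng) (mo := mog) (C1 := cd1q2a) (C2 := cd1q0) (C3 := pd3)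
    rfl (fun _ => rfl) k0_mm_203_a

noncomputable def f_mm_203_b : ℕ → ℕ → ℕ → ℕ → Bool := onCell 1239849684 370763052 1610612736 536870912 740881858 40050571
    (rowB 3 eng mog cd1q2b cd1q0 pd3 1 true false false .up 2 0 3 (qsf 1239849684 370763052 0 536870912 3) ndB1q2b ndB1q0 pcB3 Cut.none Ext.none)

def k0_mm_203_b : ∃ t, chk3 f_mm_203_b t 1 1 1 = true :=
  ⟨(b (b (b (b (a (a (l 16624032) (l 16425440)) (a (l 16236816) (l 15955256))) (a (l 4) (a (l 16247056) (l 16010168)))) (l 4)) (l 4)) (l 4)), by decide +kernel⟩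

theorem c_mm_203_b : CertB 1239849684 370763052 0 536870912 740881858 40050571 3 eng mog cd1q2b cd1q0 pd3 true false false .up 2 0 3
    ndB1q2b ndB1q0 pcB3 Cut.none Ext.none :=
  certB1 (fam := true) (s1 := false) (s2 := false) (a := 2) (b := 0) (c := 3) (cn := .up) (n1 := ndB1q2b) (n2 := ndB1q0) (pc := pcB3) (cut := Cut.none) (xt := Ext.none) (P1 := 1239849684) (W1 := 370763052) (P2 := 0) (W2 := 536870912) (P3 := 740881858) (W3 := 40050571) (N0 := 3) (En := eng) (mo := mog) (C1 := cd1q2b) (C2 := cd1q0) (C3 := pd3)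
    rfl (fun _ => rfl) k0_mm_203_b

noncomputable def f_mm_213_a : ℕ → ℕ → ℕ → ℕ → Bool := onCell 0 536870912 536870912 536870912 740881858 40050571
    (rowB 3 eng mog cd1q2a cd1q1 pd3 0 true false false .pnn 2 1 3 (qsf 0 536870912 536870912 536870912 3) ndB1q2a ndB1q1 pcB3 Cut.none Ext.none)

def k0_mm_213_a : ∃ t, chk3 f_mm_213_a t 1 1 1 = true :=
  ⟨(l 4), by decide +kernel⟩

theorem c_mm_213_a : CertB 0 536870912 536870912 536870912 740881858 40050571 3 eng mog cd1q2a cd1q1 pd3 true false false .pnn 2 1 3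
    ndB1q2a ndB1q1 pcB3 Cut.none Ext.none :=
  certB0 (fam := true) (s1 := false) (s2 := false) (a := 2) (b := 1) (c := 3) (cn := .pnn) (n1 := ndB1q2a) (n2 := ndB1q1) (pc := pcB3) (cut := Cut.none) (xt := Ext.none) (P1 := 0) (W1 := 536870912) (P2 := 536870912) (W2 := 536870912) (P3 := 740881858) (W3 := 40050571) (N0 := 3) (En := eng) (mo := mog) (C1 := cd1q2a) (C2 := cd1q1) (C3 := pd3)
    rfl k0_mm_213_a

noncomputable def f_mm_213_b : ℕ → ℕ → ℕ → ℕ → Bool := onCell 1239849684 370763052 536870912 536870912 740881858 40050571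
    (rowB 3 eng mog cd1q2b cd1q1 pd3 0 true false false .pnn 2 1 3 (qsf 1239849684 370763052 536870912 536870912 3) ndB1q2b ndB1q1 pcB3 Cut.none Ext.none)

def k0_mm_213_b : ∃ t, chk3 f_mm_213_b t 1 1 1 = true :=
  ⟨(b (l 4) (l 4)), by decide +kernel⟩

theorem c_mm_213_b : CertB 1239849684 370763052 536870912 536870912 740881858 40050571 3 eng mog cd1q2b cd1q1 pd3 true false false .pnn 2 1 3
    ndB1q2b ndB1q1 pcB3 Cut.none Ext.none :=
  certB0 (fam := true) (s1 := false) (s2 := false) (a := 2) (b := 1) (c := 3) (cn := .pnn) (n1 := ndB1q2b) (n2 := ndB1q1) (pc := pcB3) (cut := Cut.none) (xt := Ext.none) (P1 := 1239849684) (W1 := 370763052) (P2 := 536870912) (W2 := 536870912) (P3 := 740881858) (W3 := 40050571) (N0 := 3) (En := eng) (mo := mog) (C1 := cd1q2b) (C2 := cd1q1) (C3 := pd3)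
    rfl k0_mm_213_b

noncomputable def f_mm_303 : ℕ → ℕ → ℕ → ℕ → Bool := onCell 1610612736 536870912 0 536870912 740881858 40050571
    (rowB 3 eng mog cd1q3 cd1q0 pd3 2 true false false .npn 3 0 3 (qsf 1610612736 536870912 0 536870912 3) ndB1q3 ndB1q0 pcB3 Cut.none Ext.none)

def k0_mm_303 : ∃ t, chk3 f_mm_303 t 1 1 1 = true :=
  ⟨(a (a (b (a (b (a (l 15972536) (l 15946520)) (l 1)) (b (a (l 15930656) (l 4)) (l 4))) (l 1)) (l 4)) (l 4)), by decide +kernel⟩

theorem c_mm_303 : CertB 1610612736 536870912 0 536870912 740881858 40050571 3 eng mog cd1q3 cd1q0 pd3 true false false .npn 3 0 3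
    ndB1q3 ndB1q0 pcB3 Cut.none Ext.none :=
  certB2 (fam := true) (s1 := false) (s2 := false) (a := 3) (b := 0) (c := 3) (cn := .npn) (n1 := ndB1q3) (n2 := ndB1q0) (pc := pcB3) (cut := Cut.none) (xt := Ext.none) (P1 := 1610612736) (W1 := 536870912) (P2 := 0) (W2 := 536870912) (P3 := 740881858) (W3 := 40050571) (N0 := 3) (En := eng) (mo := mog) (C1 := cd1q3) (C2 := cd1q0) (C3 := pd3)
    rfl (fun _ => rfl) k0_mm_303

noncomputable def f_mm_313 : ℕ → ℕ → ℕ → ℕ → Bool := onCell 1610612736 536870912 536870912 536870912 740881858 40050571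
    (rowB 3 eng mog cd1q3 cd1q1 pd3 0 true false false .dn 3 1 3 (qsf 1610612736 536870912 536870912 536870912 3) ndB1q3 ndB1q1 pcB3 Cut.none Ext.none)

def k0_mm_313 : ∃ t, chk3 f_mm_313 t 1 1 1 = true :=
  ⟨(l 4), by decide +kernel⟩

theorem c_mm_313 : CertB 1610612736 536870912 536870912 536870912 740881858 40050571 3 eng mog cd1q3 cd1q1 pd3 true false false .dn 3 1 3
    ndB1q3 ndB1q1 pcB3 Cut.none Ext.none :=
  certB0 (fam := true) (s1 := false) (s2 := false) (a := 3) (b := 1) (c := 3) (cn := .dn) (n1 := ndB1q3) (n2 := ndB1q1) (pc := pcB3) (cut := Cut.none) (xt := Ext.none) (P1 := 1610612736) (W1 := 536870912) (P2 := 536870912) (W2 := 536870912) (P3 := 740881858) (W3 := 40050571) (N0 := 3) (En := eng) (mo := mog) (C1 := cd1q3) (C2 := cd1q1) (C3 := pd3)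
    rfl k0_mm_313

end Pool.Agent.Strip051.G.I69_7273.Tab.C.BA11

namespace Pool.Agent.Strip051.G.I69_7273.Tab.C.BA12

open Pool.Agent.Strip051.PB Pool.Agent.Strip051.PB.T
open Pool.Agent.Strip051.G.I69_7273.Tab

noncomputable def f_pp_001 : ℕ → ℕ → ℕ → ℕ → Bool := onCell 0 536870912 0 536870912 740881858 40050571
    (rowB 3 eng mog cd1q0 cd2q0 pd1 0 true true true .up 0 0 1 (qsf 0 536870912 0 536870912 1) ndB1q0 ndB2q0 pcB1 Cut.none Ext.none)

def k0_pp_001 : ∃ t, chk3 f_pp_001 t 1 1 1 = true :=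
  ⟨(l 4), by decide +kernel⟩

theorem c_pp_001 : CertB 0 536870912 0 536870912 740881858 40050571 3 eng mog cd1q0 cd2q0 pd1 true true true .up 0 0 1
    ndB1q0 ndB2q0 pcB1 Cut.none Ext.none :=
  certB0 (fam := true) (s1 := true) (s2 := true) (a := 0) (b := 0) (c := 1) (cn := .up) (n1 := ndB1q0) (n2 := ndB2q0) (pc := pcB1) (cut := Cut.none) (xt := Ext.none) (P1 := 0) (W1 := 536870912) (P2 := 0) (W2 := 536870912) (P3 := 740881858) (W3 := 40050571) (N0 := 3) (En := eng) (mo := mog) (C1 := cd1q0) (C2 := cd2q0) (C3 := pd1)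
    rfl k0_pp_001

noncomputable def f_pp_011 : ℕ → ℕ → ℕ → ℕ → Bool := onCell 0 536870912 536870912 536870912 740881858 40050571
    (rowB 3 eng mog cd1q0 cd2q1 pd1 0 true true true .pnn 0 1 1 (qsf 0 536870912 536870912 536870912 1) ndB1q0 ndB2q1 pcB1 Cut.none Ext.none)

def k0_pp_011 : ∃ t, chk3 f_pp_011 t 1 1 1 = true :=
  ⟨(l 4), by decide +kernel⟩

theorem c_pp_011 : CertB 0 536870912 536870912 536870912 740881858 40050571 3 eng mog cd1q0 cd2q1 pd1 true true true .pnn 0 1 1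
    ndB1q0 ndB2q1 pcB1 Cut.none Ext.none :=
  certB0 (fam := true) (s1 := true) (s2 := true) (a := 0) (b := 1) (c := 1) (cn := .pnn) (n1 := ndB1q0) (n2 := ndB2q1) (pc := pcB1) (cut := Cut.none) (xt := Ext.none) (P1 := 0) (W1 := 536870912) (P2 := 536870912) (W2 := 536870912) (P3 := 740881858) (W3 := 40050571) (N0 := 3) (En := eng) (mo := mog) (C1 := cd1q0) (C2 := cd2q1) (C3 := pd1)
    rfl k0_pp_011

noncomputable def f_pp_012 : ℕ → ℕ → ℕ → ℕ → Bool := onCell 0 536870912 536870912 536870912 740881858 40050571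
    (rowB 3 eng mog cd1q0 cd2q1 pd2 0 true true true .pnp 0 1 2 (qsf 0 536870912 536870912 536870912 2) ndB1q0 ndB2q1 pcB2 Cut.none Ext.none)

def k0_pp_012 : ∃ t, chk3 f_pp_012 t 1 1 1 = true :=
  ⟨(l 4), by decide +kernel⟩

theorem c_pp_012 : CertB 0 536870912 536870912 536870912 740881858 40050571 3 eng mog cd1q0 cd2q1 pd2 true true true .pnp 0 1 2
    ndB1q0 ndB2q1 pcB2 Cut.none Ext.none :=
  certB0 (fam := true) (s1 := true) (s2 := true) (a := 0) (b := 1) (c := 2) (cn := .pnp) (n1 := ndB1q0) (n2 := ndB2q1) (pc := pcB2) (cut := Cut.none) (xt := Ext.none) (P1 := 0) (W1 := 536870912) (P2 := 536870912) (W2 := 536870912) (P3 := 740881858) (W3 := 40050571) (N0 := 3) (En := eng) (mo := mog) (C1 := cd1q0) (C2 := cd2q1) (C3 := pd2)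
    rfl k0_pp_012

noncomputable def cut_pp_022_a : Cut := Cut.of [[⟨0, 0, 0, 67108864⟩, ⟨1, 1, 0, 67108864⟩, ⟨2, 1, 0, 67108864⟩]]

noncomputable def f_pp_022_a : ℕ → ℕ → ℕ → ℕ → Bool := onCell 0 536870912 0 536870912 740881858 40050571
    (rowB 3 eng mog cd1q0 cd2q2a pd2 0 true true true .pp 0 2 2 (qsf 0 536870912 0 536870912 2) ndB1q0 ndB2q2a pcB2 cut_pp_022_a Ext.none)

def k0_pp_022_a : ∃ t, chk3 f_pp_022_a t 2 2 1 = true :=
  ⟨(a (a (b (a (b (a (b (l 16444872) (a (l 16442656) (l 16449408))) (b (l 16458496) (l 16459664))) (a (a (b (l 16446360) (l 16452992)) (b (l 16452680) (l 16458304))) (l 16465848))) (b (a (l 16473056) (l 16487432)) (a (l 16479896) (l 16494648)))) (a (b (a (a (b (l 16462944) (l 16476088)) (b (l 16467016) (l 16500416))) (b (l 16434800) (a (l 16495024) (l 16491176)))) (a (b (c (l 16450992) (l 16495120)) (c (l 16512952) (l 16514272))) (b (a (a (l 16498592) (l 16500920)) (l 16505384)) (a (l 16477216) (b (l 16455680) (l 16529016))))))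 (b (a (l 16517208) (l 16510872)) (b (a (l 16473640) (l 16508968)) (a (a (l 16550696) (l 16536456)) (l 16526056)))))) (b (b (a (l 16509200) (l 16536072)) (a (l 16538024) (l 16546544))) (a (b (a (l 16526456) (l 16542456)) (a (l 16585472) (l 16613080))) (b (l 16650760) (a (l 16610856) (l 4)))))) (b (a (b (a (l 16562120) (l 16588848)) (a (l 16574792) (l 16604720))) (b (a (l 16618320) (l 4)) (l 4))) (a (a (b (l 16662400) (l 4)) (l 4)) (l 4)))), by decide +kernel⟩

def k1_pp_022_a : ∃ t, chk3 f_pp_022_a t 2 3 1 = true :=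
  ⟨(a (b (a (a (b (a (b (a (l 16535048) (l 16538352)) (a (l 16561992) (l 16565304))) (b (c (l 16544672) (l 16544104)) (c (l 16571704) (l 16570784)))) (a (b (a (l 16609408) (l 16596360)) (a (b (l 16603480) (l 16613912)) (b (l 16615208) (l 16625976)))) (b (a (l 16600152) (l 16604472)) (b (l 16659752) (a (l 16637632) (l 16648896)))))) (b (a (b (a (b (l 16482752) (l 16557928)) (b (l 16509960) (l 16500824))) (a (l 16578368) (l 16604864))) (b (l 16505056) (a (b (l 16520184) (l 16597176)) (b (l 16590184) (l 16604952))))) (a (a (b (l 16609232) (b (l 16635344) (l 16655120))) (b (l 16614800) (b (l 16642040) (l 4)))) (a (b (l 16621976) (l 4)) (l 4))))) (b (a (a (b (b (l 16577440) (l 16589680)) (l 16611000)) (l 4)) (l 4)) (l 4))) (a (b (a (a (b (b (a (c (l 16604328) (l 16602888)) (l 16644856)) (b (a (c (l 16634872) (l 16633264)) (c (l 16647304) (l 16646136))) (a (c (l 16643984) (l 16642600)) (c (l 16656456) (l 16655512))))) (b (a (b (c (l 16632432) (l 16631264)) (l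 6)) (c (b (l 16665920) (l 16654696)) (b (l 16665184) (l 16654160)))) (a (l 6) (b (a (l 6) (l 16667664)) (l 6))))) (a (b (b (l 16649000) (c (l 27078127911) (l 16621376))) (b (c (l 16682320) (l 16682056)) (c (a (l 259543318839) (l 4)) (l 16716600)))) (b (b (l 16660272) (l 16694824)) (l 4)))) (a (b (b (a (l 16669136) (l 4)) (l 4)) (l 4)) (l 4))) (a (a (l 6) (l 4)) (l 4))) (l 4))) (l 4)), by decide +kernel⟩

def k2_pp_022_a : ∃ t, chk3 f_pp_022_a t 3 1 1 = true :=
  ⟨(l 4), by decide +kernel⟩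

theorem s3_pp_022_a : ∃ t, chk3 f_pp_022_a t 2 1 1 = true := ex3_b k0_pp_022_a k1_pp_022_a

theorem s4_pp_022_a : ∃ t, chk3 f_pp_022_a t 1 1 1 = true := ex3_a s3_pp_022_a k2_pp_022_a

theorem c_pp_022_a : CertB 0 536870912 0 536870912 740881858 40050571 3 eng mog cd1q0 cd2q2a pd2 true true true .pp 0 2 2
    ndB1q0 ndB2q2a pcB2 cut_pp_022_a Ext.none :=
  certB0 (fam := true) (s1 := true) (s2 := true) (a := 0) (b := 2) (c := 2) (cn := .pp) (n1 := ndB1q0) (n2 := ndB2q2a) (pc := pcB2) (cut := cut_pp_022_a) (xt := Ext.none) (P1 := 0) (W1 := 536870912) (P2 := 0) (W2 := 536870912) (P3 := 740881858) (W3 := 40050571) (N0 := 3) (En := eng) (mo := mog) (C1 := cd1q0) (C2 := cd2q2a) (C3 := pd2)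
    rfl s4_pp_022_a

noncomputable def cut_pp_022_b : Cut := Cut.of [[⟨0, 0, 0, 67108864⟩, ⟨1, 1, 0, 67108864⟩, ⟨2, 1, 0, 67108864⟩]]

noncomputable def f_pp_022_b : ℕ → ℕ → ℕ → ℕ → Bool := onCell 0 536870912 1239849684 370763052 740881858 40050571
    (rowB 3 eng mog cd1q0 cd2q2b pd2 0 true true true .pp 0 2 2 (qsf 0 536870912 1239849684 370763052 2) ndB1q0 ndB2q2b pcB2 cut_pp_022_b Ext.none)

def k0_pp_022_b : ∃ t, chk3 f_pp_022_b t 1 1 1 = true :=
  ⟨(a (b (a (b (a (b (b (b (b (a (c (a (l 16435456) (l 16450048)) (l 16452464)) (c (l 16472104) (l 16478288))) (a (a (l 16431424) (l 16445008)) (l 16465944))) (a (a (l 16417816) (l 16431432)) (l 16452384))) (a (a (l 16390256) (l 16399296)) (a (l 16408696) (l 16418456)))) (b (a (a (l 16337024) (l 16346512)) (l 16362760)) (a (a (l 16284760) (l 16295760)) (l 16314472)))) (a (b (b (b (b (l 16503072) (l 16491312)) (l 16472304)) (l 16435168)) (b (l 16387608) (l 16341776))) (b (b (b (a (l 16534312) (l 16524744)) (l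 16495240)) (l 16460240)) (b (l 16414840) (l 16371072))))) (a (b (a (b (l 16240928) (l 16193960)) (b (l 16267968) (l 16223136))) (a (a (l 16119080) (l 16134768)) (b (l 16180096) (l 16138016)))) (b (a (b (l 16297600) (l 16254504)) (b (l 16327760) (l 16285576))) (a (b (l 16212344) (l 16171600)) (b (l 4) (l 4)))))) (b (a (b (b (b (b (a (l 16551872) (l 16579560)) (a (l 16540464) (l 16569848))) (a (l 16523464) (l 16555000))) (a (l 16490192) (l 16521968))) (a (b (l 16446224) (l 16402808)) (b (l 16478992) (l 4)))) (b (b (b (a (b (l 16607808) (l 16598600)) (l 4)) (l 4)) (l 4)) (l 4))) (a (b (a (b (l 16360784) (l 4)) (l 4)) (l 4)) (l 4)))) (a (b (a (b (a (c (l 16048880) (l 16202736)) (b (l 16244128) (l 16100096))) (a (b (l 15983328) (l 15945800)) (b (l 16062848) (l 4)))) (b (a (b (l 16216536) (l 4)) (l 4)) (l 4))) (a (b (a (b (l 15910008) (l 4)) (l 4)) (l 4)) (l 4))) (l 4))) (l 4)), by decide +kernel⟩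

theorem c_pp_022_b : CertB 0 536870912 1239849684 370763052 740881858 40050571 3 eng mog cd1q0 cd2q2b pd2 true true true .pp 0 2 2
    ndB1q0 ndB2q2b pcB2 cut_pp_022_b Ext.none :=
  certB0 (fam := true) (s1 := true) (s2 := true) (a := 0) (b := 2) (c := 2) (cn := .pp) (n1 := ndB1q0) (n2 := ndB2q2b) (pc := pcB2) (cut := cut_pp_022_b) (xt := Ext.none) (P1 := 0) (W1 := 536870912) (P2 := 1239849684) (W2 := 370763052) (P3 := 740881858) (W3 := 40050571) (N0 := 3) (En := eng) (mo := mog) (C1 := cd1q0) (C2 := cd2q2b) (C3 := pd2)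
    rfl k0_pp_022_b

noncomputable def f_pp_023_a : ℕ → ℕ → ℕ → ℕ → Bool := onCell 0 536870912 0 536870912 740881858 40050571
    (rowB 3 eng mog cd1q0 cd2q2a pd3 0 true true true .up 0 2 3 (qsf 0 536870912 0 536870912 3) ndB1q0 ndB2q2a pcB3 Cut.none Ext.none)

def k0_pp_023_a : ∃ t, chk3 f_pp_023_a t 1 1 1 = true :=
  ⟨(a (l 1) (l 4)), by decide +kernel⟩

theorem c_pp_023_a : CertB 0 536870912 0 536870912 740881858 40050571 3 eng mog cd1q0 cd2q2a pd3 true true true .up 0 2 3
    ndB1q0 ndB2q2a pcB3 Cut.none Ext.none :=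
  certB0 (fam := true) (s1 := true) (s2 := true) (a := 0) (b := 2) (c := 3) (cn := .up) (n1 := ndB1q0) (n2 := ndB2q2a) (pc := pcB3) (cut := Cut.none) (xt := Ext.none) (P1 := 0) (W1 := 536870912) (P2 := 0) (W2 := 536870912) (P3 := 740881858) (W3 := 40050571) (N0 := 3) (En := eng) (mo := mog) (C1 := cd1q0) (C2 := cd2q2a) (C3 := pd3)
    rfl k0_pp_023_a

noncomputable def f_pp_023_b : ℕ → ℕ → ℕ → ℕ → Bool := onCell 0 536870912 1610612736 536870912 740881858 40050571
    (rowB 3 eng mog cd1q0 cd2q2b pd3 1 true true true .up 0 2 3 (qsf 0 536870912 1239849684 370763052 3) ndB1q0 ndB2q2b pcB3 Cut.none Ext.none)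

def k0_pp_023_b : ∃ t, chk3 f_pp_023_b t 1 1 1 = true :=
  ⟨(b (l 4) (l 4)), by decide +kernel⟩

theorem c_pp_023_b : CertB 0 536870912 1239849684 370763052 740881858 40050571 3 eng mog cd1q0 cd2q2b pd3 true true true .up 0 2 3
    ndB1q0 ndB2q2b pcB3 Cut.none Ext.none :=
  certB1 (fam := true) (s1 := true) (s2 := true) (a := 0) (b := 2) (c := 3) (cn := .up) (n1 := ndB1q0) (n2 := ndB2q2b) (pc := pcB3) (cut := Cut.none) (xt := Ext.none) (P1 := 0) (W1 := 536870912) (P2 := 1239849684) (W2 := 370763052) (P3 := 740881858) (W3 := 40050571) (N0 := 3) (En := eng) (mo := mog) (C1 := cd1q0) (C2 := cd2q2b) (C3 := pd3)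
    rfl (fun _ => rfl) k0_pp_023_b

noncomputable def f_pp_033 : ℕ → ℕ → ℕ → ℕ → Bool := onCell 0 536870912 1610612736 536870912 740881858 40050571
    (rowB 3 eng mog cd1q0 cd2q3 pd3 1 true true true .pnn 0 3 3 (qsf 0 536870912 1610612736 536870912 3) ndB1q0 ndB2q3 pcB3 Cut.none Ext.none)

def k0_pp_033 : ∃ t, chk3 f_pp_033 t 1 1 1 = true :=
  ⟨(b (l 4) (l 4)), by decide +kernel⟩

theorem c_pp_033 : CertB 0 536870912 1610612736 536870912 740881858 40050571 3 eng mog cd1q0 cd2q3 pd3 true true true .pnn 0 3 3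
    ndB1q0 ndB2q3 pcB3 Cut.none Ext.none :=
  certB1 (fam := true) (s1 := true) (s2 := true) (a := 0) (b := 3) (c := 3) (cn := .pnn) (n1 := ndB1q0) (n2 := ndB2q3) (pc := pcB3) (cut := Cut.none) (xt := Ext.none) (P1 := 0) (W1 := 536870912) (P2 := 1610612736) (W2 := 536870912) (P3 := 740881858) (W3 := 40050571) (N0 := 3) (En := eng) (mo := mog) (C1 := cd1q0) (C2 := cd2q3) (C3 := pd3)
    rfl (fun _ => rfl) k0_pp_033

noncomputable def f_pp_101 : ℕ → ℕ → ℕ → ℕ → Bool := onCell 536870912 536870912 0 536870912 740881858 40050571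
    (rowB 3 eng mog cd1q1 cd2q0 pd1 0 true true true .npn 1 0 1 (qsf 536870912 536870912 0 536870912 1) ndB1q1 ndB2q0 pcB1 Cut.none Ext.none)

def k0_pp_101 : ∃ t, chk3 f_pp_101 t 1 1 1 = true :=
  ⟨(l 4), by decide +kernel⟩

theorem c_pp_101 : CertB 536870912 536870912 0 536870912 740881858 40050571 3 eng mog cd1q1 cd2q0 pd1 true true true .npn 1 0 1
    ndB1q1 ndB2q0 pcB1 Cut.none Ext.none :=
  certB0 (fam := true) (s1 := true) (s2 := true) (a := 1) (b := 0) (c := 1) (cn := .npn) (n1 := ndB1q1) (n2 := ndB2q0) (pc := pcB1) (cut := Cut.none) (xt := Ext.none) (P1 := 536870912) (W1 := 536870912) (P2 := 0) (W2 := 536870912) (P3 := 740881858) (W3 := 40050571) (N0 := 3) (En := eng) (mo := mog) (C1 := cd1q1) (C2 := cd2q0) (C3 := pd1)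
    rfl k0_pp_101

noncomputable def f_pp_102 : ℕ → ℕ → ℕ → ℕ → Bool := onCell 536870912 536870912 0 536870912 740881858 40050571
    (rowB 3 eng mog cd1q1 cd2q0 pd2 0 true true true .npp 1 0 2 (qsf 536870912 536870912 0 536870912 2) ndB1q1 ndB2q0 pcB2 Cut.none Ext.none)

def k0_pp_102 : ∃ t, chk3 f_pp_102 t 1 1 1 = true :=
  ⟨(l 4), by decide +kernel⟩

theorem c_pp_102 : CertB 536870912 536870912 0 536870912 740881858 40050571 3 eng mog cd1q1 cd2q0 pd2 true true true .npp 1 0 2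
    ndB1q1 ndB2q0 pcB2 Cut.none Ext.none :=
  certB0 (fam := true) (s1 := true) (s2 := true) (a := 1) (b := 0) (c := 2) (cn := .npp) (n1 := ndB1q1) (n2 := ndB2q0) (pc := pcB2) (cut := Cut.none) (xt := Ext.none) (P1 := 536870912) (W1 := 536870912) (P2 := 0) (W2 := 536870912) (P3 := 740881858) (W3 := 40050571) (N0 := 3) (En := eng) (mo := mog) (C1 := cd1q1) (C2 := cd2q0) (C3 := pd2)
    rfl k0_pp_102

noncomputable def f_pp_112 : ℕ → ℕ → ℕ → ℕ → Bool := onCell 536870912 536870912 536870912 536870912 740881858 40050571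
    (rowB 3 eng mog cd1q1 cd2q1 pd2 0 true true true .dn 1 1 2 (qsf 536870912 536870912 536870912 536870912 2) ndB1q1 ndB2q1 pcB2 Cut.none Ext.none)

def k0_pp_112 : ∃ t, chk3 f_pp_112 t 1 1 1 = true :=
  ⟨(l 4), by decide +kernel⟩

theorem c_pp_112 : CertB 536870912 536870912 536870912 536870912 740881858 40050571 3 eng mog cd1q1 cd2q1 pd2 true true true .dn 1 1 2
    ndB1q1 ndB2q1 pcB2 Cut.none Ext.none :=
  certB0 (fam := true) (s1 := true) (s2 := true) (a := 1) (b := 1) (c := 2) (cn := .dn) (n1 := ndB1q1) (n2 := ndB2q1) (pc := pcB2) (cut := Cut.none) (xt := Ext.none) (P1 := 536870912) (W1 := 536870912) (P2 := 536870912) (W2 := 536870912) (P3 := 740881858) (W3 := 40050571) (N0 := 3) (En := eng) (mo := mog) (C1 := cd1q1) (C2 := cd2q1) (C3 := pd2)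
    rfl k0_pp_112

noncomputable def f_pp_113 : ℕ → ℕ → ℕ → ℕ → Bool := onCell 536870912 536870912 536870912 536870912 740881858 40050571
    (rowB 3 eng mog cd1q1 cd2q1 pd3 0 true true true .nn 1 1 3 (qsf 536870912 536870912 536870912 536870912 3) ndB1q1 ndB2q1 pcB3 Cut.none Ext.none)

def k0_pp_113 : ∃ t, chk3 f_pp_113 t 1 1 1 = true :=
  ⟨(l 4), by decide +kernel⟩

theorem c_pp_113 : CertB 536870912 536870912 536870912 536870912 740881858 40050571 3 eng mog cd1q1 cd2q1 pd3 true true true .nn 1 1 3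
    ndB1q1 ndB2q1 pcB3 Cut.none Ext.none :=
  certB0 (fam := true) (s1 := true) (s2 := true) (a := 1) (b := 1) (c := 3) (cn := .nn) (n1 := ndB1q1) (n2 := ndB2q1) (pc := pcB3) (cut := Cut.none) (xt := Ext.none) (P1 := 536870912) (W1 := 536870912) (P2 := 536870912) (W2 := 536870912) (P3 := 740881858) (W3 := 40050571) (N0 := 3) (En := eng) (mo := mog) (C1 := cd1q1) (C2 := cd2q1) (C3 := pd3)
    rfl k0_pp_113

noncomputable def f_pp_123_a : ℕ → ℕ → ℕ → ℕ → Bool := onCell 536870912 536870912 0 536870912 740881858 40050571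
    (rowB 3 eng mog cd1q1 cd2q2a pd3 0 true true true .npn 1 2 3 (qsf 536870912 536870912 0 536870912 3) ndB1q1 ndB2q2a pcB3 Cut.none Ext.none)

def k0_pp_123_a : ∃ t, chk3 f_pp_123_a t 1 1 1 = true :=
  ⟨(l 4), by decide +kernel⟩

theorem c_pp_123_a : CertB 536870912 536870912 0 536870912 740881858 40050571 3 eng mog cd1q1 cd2q2a pd3 true true true .npn 1 2 3
    ndB1q1 ndB2q2a pcB3 Cut.none Ext.none :=
  certB0 (fam := true) (s1 := true) (s2 := true) (a := 1) (b := 2) (c := 3) (cn := .npn) (n1 := ndB1q1) (n2 := ndB2q2a) (pc := pcB3) (cut := Cut.none) (xt := Ext.none) (P1 := 536870912) (W1 := 536870912) (P2 := 0) (W2 := 536870912) (P3 := 740881858) (W3 := 40050571) (N0 := 3) (En := eng) (mo := mog) (C1 := cd1q1) (C2 := cd2q2a) (C3 := pd3)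
    rfl k0_pp_123_a

noncomputable def f_pp_123_b : ℕ → ℕ → ℕ → ℕ → Bool := onCell 536870912 536870912 1239849684 370763052 740881858 40050571
    (rowB 3 eng mog cd1q1 cd2q2b pd3 0 true true true .npn 1 2 3 (qsf 536870912 536870912 1239849684 370763052 3) ndB1q1 ndB2q2b pcB3 Cut.none Ext.none)

def k0_pp_123_b : ∃ t, chk3 f_pp_123_b t 1 1 1 = true :=
  ⟨(l 4), by decide +kernel⟩

theorem c_pp_123_b : CertB 536870912 536870912 1239849684 370763052 740881858 40050571 3 eng mog cd1q1 cd2q2b pd3 true true true .npn 1 2 3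
    ndB1q1 ndB2q2b pcB3 Cut.none Ext.none :=
  certB0 (fam := true) (s1 := true) (s2 := true) (a := 1) (b := 2) (c := 3) (cn := .npn) (n1 := ndB1q1) (n2 := ndB2q2b) (pc := pcB3) (cut := Cut.none) (xt := Ext.none) (P1 := 536870912) (W1 := 536870912) (P2 := 1239849684) (W2 := 370763052) (P3 := 740881858) (W3 := 40050571) (N0 := 3) (En := eng) (mo := mog) (C1 := cd1q1) (C2 := cd2q2b) (C3 := pd3)
    rfl k0_pp_123_b

noncomputable def f_pp_133 : ℕ → ℕ → ℕ → ℕ → Bool := onCell 536870912 536870912 1610612736 536870912 740881858 40050571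
    (rowB 3 eng mog cd1q1 cd2q3 pd3 0 true true true .dn 1 3 3 (qsf 536870912 536870912 1610612736 536870912 3) ndB1q1 ndB2q3 pcB3 Cut.none Ext.none)

def k0_pp_133 : ∃ t, chk3 f_pp_133 t 1 1 1 = true :=
  ⟨(l 4), by decide +kernel⟩

theorem c_pp_133 : CertB 536870912 536870912 1610612736 536870912 740881858 40050571 3 eng mog cd1q1 cd2q3 pd3 true true true .dn 1 3 3
    ndB1q1 ndB2q3 pcB3 Cut.none Ext.none :=
  certB0 (fam := true) (s1 := true) (s2 := true) (a := 1) (b := 3) (c := 3) (cn := .dn) (n1 := ndB1q1) (n2 := ndB2q3) (pc := pcB3) (cut := Cut.none) (xt := Ext.none) (P1 := 536870912) (W1 := 536870912) (P2 := 1610612736) (W2 := 536870912) (P3 := 740881858) (W3 := 40050571) (N0 := 3) (En := eng) (mo := mog) (C1 := cd1q1) (C2 := cd2q3) (C3 := pd3)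
    rfl k0_pp_133

noncomputable def f_pp_202_a : ℕ → ℕ → ℕ → ℕ → Bool := onCell 0 536870912 0 536870912 740881858 40050571
    (rowB 3 eng mog cd1q2a cd2q0 pd2 0 true true true .pp 2 0 2 (qsf 0 536870912 0 536870912 2) ndB1q2a ndB2q0 pcB2 Cut.none Ext.none)

def k0_pp_202_a : ∃ t, chk3 f_pp_202_a t 1 1 1 = true :=
  ⟨(l 5), by decide +kernel⟩

theorem c_pp_202_a : CertB 0 536870912 0 536870912 740881858 40050571 3 eng mog cd1q2a cd2q0 pd2 true true true .pp 2 0 2
    ndB1q2a ndB2q0 pcB2 Cut.none Ext.none :=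
  certB0 (fam := true) (s1 := true) (s2 := true) (a := 2) (b := 0) (c := 2) (cn := .pp) (n1 := ndB1q2a) (n2 := ndB2q0) (pc := pcB2) (cut := Cut.none) (xt := Ext.none) (P1 := 0) (W1 := 536870912) (P2 := 0) (W2 := 536870912) (P3 := 740881858) (W3 := 40050571) (N0 := 3) (En := eng) (mo := mog) (C1 := cd1q2a) (C2 := cd2q0) (C3 := pd2)
    rfl k0_pp_202_a

noncomputable def f_pp_202_b : ℕ → ℕ → ℕ → ℕ → Bool := onCell 1239849684 370763052 0 536870912 740881858 40050571
    (rowB 3 eng mog cd1q2b cd2q0 pd2 0 true true true .pp 2 0 2 (qsf 1239849684 370763052 0 536870912 2) ndB1q2b ndB2q0 pcB2 Cut.none Ext.none)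

def k0_pp_202_b : ∃ t, chk3 f_pp_202_b t 1 1 1 = true :=
  ⟨(l 5), by decide +kernel⟩

theorem c_pp_202_b : CertB 1239849684 370763052 0 536870912 740881858 40050571 3 eng mog cd1q2b cd2q0 pd2 true true true .pp 2 0 2
    ndB1q2b ndB2q0 pcB2 Cut.none Ext.none :=
  certB0 (fam := true) (s1 := true) (s2 := true) (a := 2) (b := 0) (c := 2) (cn := .pp) (n1 := ndB1q2b) (n2 := ndB2q0) (pc := pcB2) (cut := Cut.none) (xt := Ext.none) (P1 := 1239849684) (W1 := 370763052) (P2 := 0) (W2 := 536870912) (P3 := 740881858) (W3 := 40050571) (N0 := 3) (En := eng) (mo := mog) (C1 := cd1q2b) (C2 := cd2q0) (C3 := pd2)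
    rfl k0_pp_202_b

noncomputable def f_pp_203_a : ℕ → ℕ → ℕ → ℕ → Bool := onCell 0 536870912 0 536870912 740881858 40050571
    (rowB 3 eng mog cd1q2a cd2q0 pd3 0 true true true .up 2 0 3 (qsf 0 536870912 0 536870912 3) ndB1q2a ndB2q0 pcB3 Cut.none Ext.none)

def k0_pp_203_a : ∃ t, chk3 f_pp_203_a t 1 1 1 = true :=
  ⟨(l 5), by decide +kernel⟩

theorem c_pp_203_a : CertB 0 536870912 0 536870912 740881858 40050571 3 eng mog cd1q2a cd2q0 pd3 true true true .up 2 0 3
    ndB1q2a ndB2q0 pcB3 Cut.none Ext.none :=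
  certB0 (fam := true) (s1 := true) (s2 := true) (a := 2) (b := 0) (c := 3) (cn := .up) (n1 := ndB1q2a) (n2 := ndB2q0) (pc := pcB3) (cut := Cut.none) (xt := Ext.none) (P1 := 0) (W1 := 536870912) (P2 := 0) (W2 := 536870912) (P3 := 740881858) (W3 := 40050571) (N0 := 3) (En := eng) (mo := mog) (C1 := cd1q2a) (C2 := cd2q0) (C3 := pd3)
    rfl k0_pp_203_a

noncomputable def f_pp_203_b : ℕ → ℕ → ℕ → ℕ → Bool := onCell 1239849684 370763052 0 536870912 740881858 40050571
    (rowB 3 eng mog cd1q2b cd2q0 pd3 0 true true true .up 2 0 3 (qsf 1239849684 370763052 0 536870912 3) ndB1q2b ndB2q0 pcB3 Cut.none Ext.none)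

def k0_pp_203_b : ∃ t, chk3 f_pp_203_b t 1 1 1 = true :=
  ⟨(l 5), by decide +kernel⟩

theorem c_pp_203_b : CertB 1239849684 370763052 0 536870912 740881858 40050571 3 eng mog cd1q2b cd2q0 pd3 true true true .up 2 0 3
    ndB1q2b ndB2q0 pcB3 Cut.none Ext.none :=
  certB0 (fam := true) (s1 := true) (s2 := true) (a := 2) (b := 0) (c := 3) (cn := .up) (n1 := ndB1q2b) (n2 := ndB2q0) (pc := pcB3) (cut := Cut.none) (xt := Ext.none) (P1 := 1239849684) (W1 := 370763052) (P2 := 0) (W2 := 536870912) (P3 := 740881858) (W3 := 40050571) (N0 := 3) (En := eng) (mo := mog) (C1 := cd1q2b) (C2 := cd2q0) (C3 := pd3)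
    rfl k0_pp_203_b

noncomputable def f_pp_213_a : ℕ → ℕ → ℕ → ℕ → Bool := onCell 0 536870912 536870912 536870912 740881858 40050571
    (rowB 3 eng mog cd1q2a cd2q1 pd3 0 true true true .pnn 2 1 3 (qsf 0 536870912 536870912 536870912 3) ndB1q2a ndB2q1 pcB3 Cut.none Ext.none)

def k0_pp_213_a : ∃ t, chk3 f_pp_213_a t 1 1 1 = true :=
  ⟨(l 4), by decide +kernel⟩

theorem c_pp_213_a : CertB 0 536870912 536870912 536870912 740881858 40050571 3 eng mog cd1q2a cd2q1 pd3 true true true .pnn 2 1 3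
    ndB1q2a ndB2q1 pcB3 Cut.none Ext.none :=
  certB0 (fam := true) (s1 := true) (s2 := true) (a := 2) (b := 1) (c := 3) (cn := .pnn) (n1 := ndB1q2a) (n2 := ndB2q1) (pc := pcB3) (cut := Cut.none) (xt := Ext.none) (P1 := 0) (W1 := 536870912) (P2 := 536870912) (W2 := 536870912) (P3 := 740881858) (W3 := 40050571) (N0 := 3) (En := eng) (mo := mog) (C1 := cd1q2a) (C2 := cd2q1) (C3 := pd3)
    rfl k0_pp_213_a

noncomputable def f_pp_213_b : ℕ → ℕ → ℕ → ℕ → Bool := onCell 1239849684 370763052 536870912 536870912 740881858 40050571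
    (rowB 3 eng mog cd1q2b cd2q1 pd3 0 true true true .pnn 2 1 3 (qsf 1239849684 370763052 536870912 536870912 3) ndB1q2b ndB2q1 pcB3 Cut.none Ext.none)

def k0_pp_213_b : ∃ t, chk3 f_pp_213_b t 1 1 1 = true :=
  ⟨(l 4), by decide +kernel⟩

theorem c_pp_213_b : CertB 1239849684 370763052 536870912 536870912 740881858 40050571 3 eng mog cd1q2b cd2q1 pd3 true true true .pnn 2 1 3
    ndB1q2b ndB2q1 pcB3 Cut.none Ext.none :=
  certB0 (fam := true) (s1 := true) (s2 := true) (a := 2) (b := 1) (c := 3) (cn := .pnn) (n1 := ndB1q2b) (n2 := ndB2q1) (pc := pcB3) (cut := Cut.none) (xt := Ext.none) (P1 := 1239849684) (W1 := 370763052) (P2 := 536870912) (W2 := 536870912) (P3 := 740881858) (W3 := 40050571) (N0 := 3) (En := eng) (mo := mog) (C1 := cd1q2b) (C2 := cd2q1) (C3 := pd3)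
    rfl k0_pp_213_b

noncomputable def f_pp_303 : ℕ → ℕ → ℕ → ℕ → Bool := onCell 1610612736 536870912 0 536870912 740881858 40050571
    (rowB 3 eng mog cd1q3 cd2q0 pd3 0 true true true .npn 3 0 3 (qsf 1610612736 536870912 0 536870912 3) ndB1q3 ndB2q0 pcB3 Cut.none Ext.none)

def k0_pp_303 : ∃ t, chk3 f_pp_303 t 1 1 1 = true :=
  ⟨(l 5), by decide +kernel⟩

theorem c_pp_303 : CertB 1610612736 536870912 0 536870912 740881858 40050571 3 eng mog cd1q3 cd2q0 pd3 true true true .npn 3 0 3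
    ndB1q3 ndB2q0 pcB3 Cut.none Ext.none :=
  certB0 (fam := true) (s1 := true) (s2 := true) (a := 3) (b := 0) (c := 3) (cn := .npn) (n1 := ndB1q3) (n2 := ndB2q0) (pc := pcB3) (cut := Cut.none) (xt := Ext.none) (P1 := 1610612736) (W1 := 536870912) (P2 := 0) (W2 := 536870912) (P3 := 740881858) (W3 := 40050571) (N0 := 3) (En := eng) (mo := mog) (C1 := cd1q3) (C2 := cd2q0) (C3 := pd3)
    rfl k0_pp_303

noncomputable def f_pp_313 : ℕ → ℕ → ℕ → ℕ → Bool := onCell 1610612736 536870912 536870912 536870912 740881858 40050571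
    (rowB 3 eng mog cd1q3 cd2q1 pd3 0 true true true .dn 3 1 3 (qsf 1610612736 536870912 536870912 536870912 3) ndB1q3 ndB2q1 pcB3 Cut.none Ext.none)

def k0_pp_313 : ∃ t, chk3 f_pp_313 t 1 1 1 = true :=
  ⟨(l 4), by decide +kernel⟩

theorem c_pp_313 : CertB 1610612736 536870912 536870912 536870912 740881858 40050571 3 eng mog cd1q3 cd2q1 pd3 true true true .dn 3 1 3
    ndB1q3 ndB2q1 pcB3 Cut.none Ext.none :=
  certB0 (fam := true) (s1 := true) (s2 := true) (a := 3) (b := 1) (c := 3) (cn := .dn) (n1 := ndB1q3) (n2 := ndB2q1) (pc := pcB3) (cut := Cut.none) (xt := Ext.none) (P1 := 1610612736) (W1 := 536870912) (P2 := 536870912) (W2 := 536870912) (P3 := 740881858) (W3 := 40050571) (N0 := 3) (En := eng) (mo := mog) (C1 := cd1q3) (C2 := cd2q1) (C3 := pd3)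
    rfl k0_pp_313

noncomputable def f_pm_001 : ℕ → ℕ → ℕ → ℕ → Bool := onCell 0 536870912 0 536870912 740881858 40050571
    (rowB 3 eng mog cd1q0 cd2q0 pd1 0 true true false .up 0 0 1 (qsf 0 536870912 0 536870912 1) ndB1q0 ndB2q0 pcB1 Cut.none Ext.none)

def k0_pm_001 : ∃ t, chk3 f_pm_001 t 1 1 1 = true :=
  ⟨(l 3), by decide +kernel⟩

theorem c_pm_001 : CertB 0 536870912 0 536870912 740881858 40050571 3 eng mog cd1q0 cd2q0 pd1 true true false .up 0 0 1
    ndB1q0 ndB2q0 pcB1 Cut.none Ext.none :=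
  certB0 (fam := true) (s1 := true) (s2 := false) (a := 0) (b := 0) (c := 1) (cn := .up) (n1 := ndB1q0) (n2 := ndB2q0) (pc := pcB1) (cut := Cut.none) (xt := Ext.none) (P1 := 0) (W1 := 536870912) (P2 := 0) (W2 := 536870912) (P3 := 740881858) (W3 := 40050571) (N0 := 3) (En := eng) (mo := mog) (C1 := cd1q0) (C2 := cd2q0) (C3 := pd1)
    rfl k0_pm_001

noncomputable def f_pm_011 : ℕ → ℕ → ℕ → ℕ → Bool := onCell 0 536870912 536870912 536870912 740881858 40050571
    (rowB 3 eng mog cd1q0 cd2q1 pd1 1 true true false .pnn 0 1 1 (qsf 0 536870912 536870912 536870912 1) ndB1q0 ndB2q1 pcB1 Cut.none Ext.none)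

def k0_pm_011 : ∃ t, chk3 f_pm_011 t 1 1 1 = true :=
  ⟨(l 3), by decide +kernel⟩

theorem c_pm_011 : CertB 0 536870912 536870912 536870912 740881858 40050571 3 eng mog cd1q0 cd2q1 pd1 true true false .pnn 0 1 1
    ndB1q0 ndB2q1 pcB1 Cut.none Ext.none :=
  certB1 (fam := true) (s1 := true) (s2 := false) (a := 0) (b := 1) (c := 1) (cn := .pnn) (n1 := ndB1q0) (n2 := ndB2q1) (pc := pcB1) (cut := Cut.none) (xt := Ext.none) (P1 := 0) (W1 := 536870912) (P2 := 536870912) (W2 := 536870912) (P3 := 740881858) (W3 := 40050571) (N0 := 3) (En := eng) (mo := mog) (C1 := cd1q0) (C2 := cd2q1) (C3 := pd1)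
    rfl (fun _ => rfl) k0_pm_011

noncomputable def f_pm_012 : ℕ → ℕ → ℕ → ℕ → Bool := onCell 1073741824 536870912 536870912 536870912 740881858 40050571
    (rowB 3 eng mog cd1q0 cd2q1 pd2 2 true true false .pnp 0 1 2 (qsf 0 536870912 536870912 536870912 2) ndB1q0 ndB2q1 pcB2 Cut.none Ext.none)

def k0_pm_012 : ∃ t, chk3 f_pm_012 t 1 1 1 = true :=
  ⟨(a (a (b (l 3) (l 3)) (a (a (a (b (b (a (l 16566832) (l 2)) (l 3)) (l 3)) (b (b (l 2) (a (b (l 16530304) (l 16526928)) (a (l 16691160) (a (a (l 16521096) (l 16520320)) (l 16519232))))) (a (b (l 3) (l 3)) (b (a (b (l 16516904) (l 16515320)) (b (a (l 16512808) (l 16510032)) (a (l 16510176) (l 16506808)))) (a (l 3) (a (a (l 3) (b (l 16510664) (l 16520968))) (b (l 16507640) (l 16517424)))))))) (b (b (l 2) (l 16651768)) (b (b (l 16487632) (l 16479048)) (b (l 16474344) (b (l 16476040) (l 16481504)))))) (b (b (l 2) (b (l 16487488) (l 16460032))) (b (b (l 16434592) (l 16411208)) (b (l 16391264) (b (l 16381232) (l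 16379016))))))) (b (a (a (b (l 2) (b (l 2) (l 16431904))) (l 2)) (l 2)) (a (b (a (b (l 16388232) (l 16345880)) (b (l 16371032) (l 16310648))) (b (a (l 16306256) (l 16251696)) (a (l 16274448) (l 16199320)))) (b (a (l 16346544) (l 2)) (b (l 16356728) (a (l 16155640) (l 16145488))))))), by decide +kernel⟩

theorem c_pm_012 : CertB 0 536870912 536870912 536870912 740881858 40050571 3 eng mog cd1q0 cd2q1 pd2 true true false .pnp 0 1 2
    ndB1q0 ndB2q1 pcB2 Cut.none Ext.none :=
  certB2 (fam := true) (s1 := true) (s2 := false) (a := 0) (b := 1) (c := 2) (cn := .pnp) (n1 := ndB1q0) (n2 := ndB2q1) (pc := pcB2) (cut := Cut.none) (xt := Ext.none) (P1 := 0) (W1 := 536870912) (P2 := 536870912) (W2 := 536870912) (P3 := 740881858) (W3 := 40050571) (N0 := 3) (En := eng) (mo := mog) (C1 := cd1q0) (C2 := cd2q1) (C3 := pd2)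
    rfl (fun _ => rfl) k0_pm_012

noncomputable def cut_pm_022_a : Cut := Cut.of [[⟨0, 0, 0, 67108864⟩, ⟨1, 1, 0, 67108864⟩, ⟨2, 1, 0, 67108864⟩]]

noncomputable def f_pm_022_a : ℕ → ℕ → ℕ → ℕ → Bool := onCell 1073741824 536870912 0 536870912 740881858 40050571
    (rowB 3 eng mog cd1q0 cd2q2a pd2 2 true true false .pp 0 2 2 (qsf 0 536870912 0 536870912 2) ndB1q0 ndB2q2a pcB2 cut_pm_022_a Ext.none)

def k0_pm_022_a : ∃ t, chk3 f_pm_022_a t 4 2 1 = true :=
  ⟨(a (l 1) (b (l 1) (a (l 1) (a (l 1) (b (l 1) (b (l 1) (a (l 1) (c (b (l 16406488) (l 147135499687)) (b (a (l 1) (l 85932078647)) (a (l 16394880) (l 16396024))))))))))), by decide +kernel⟩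

def k1_pm_022_a : ∃ t, chk3 f_pm_022_a t 10 4 1 = true :=
  ⟨(a (a (l 1) (b (a (l 1) (a (l 1) (b (c (a (b (l 1) (l 16341808)) (b (l 16345208) (l 16342840))) (a (l 16339008) (l 16319328))) (b (a (c (l 16340472) (l 16315936)) (c (l 16341480) (l 16317192))) (a (c (l 16340144) (l 16316024)) (l 16350360)))))) (a (a (l 1) (b (l 1) (c (b (l 16342416) (l 16346464)) (b (l 16318560) (l 31171145191))))) (a (b (c (b (l 16339312) (l 16341136)) (b (l 16315088) (l 16338456))) (c (b (l 75194634295) (l 16347816)) (b (l 115459921479) (l 16325584)))) (b (a (c (b (l 16340824) (l 16342504)) (b (l 16317208) (l 16319472))) (c (l 16342640) (l 16319568))) (a (b (c (l 16345192) (l 16322840)) (c (l 16348888) (l 16327304))) (b (l 16335112) (l 16339104)))))))) (b (a (b (a (c (c (l 16353456) (l 16341288)) (b (l 16322864) (l 16320768))) (c (l 16352832) (l 16326024))) (c (a (b (l 16344880) (l 16344528)) (l 16350224)) (a (b (l 16319728) (l 16319752)) (b (l 16323832) (l 16323808))))) (b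 (a (l 16344624) (l 16349448)) (c (a (l 16355600) (l 16360896)) (a (l 16328040) (l 16332272))))) (a (a (b (c (a (l 16344664) (l 16347408)) (a (l 16321024) (l 16322968))) (c (a (l 16349896) (l 16352592)) (b (l 16326256) (l 16330568)))) (b (c (l 16351480) (l 16325928)) (c (l 16356584) (l 16332176)))) (c (b (l 16359480) (l 16364416)) (b (l 16331976) (l 16337848)))))), by decide +kernel⟩

def k2_pm_022_a : ∃ t, chk3 f_pm_022_a t 10 5 1 = true :=
  ⟨(a (a (a (b (l 1) (b (c (b (l 16382912) (l 16394304)) (b (a (l 1) (l 16358760)) (a (l 51572317543) (l 139619151239)))) (b (c (l 16406728) (a (l 139619173735) (l 16384016))) (c (l 16420152) (l 16397760))))) (b (b (a (l 1) (b (l 1) (c (l 16356280) (l 16332888)))) (c (b (l 16364128) (l 16373328)) (a (b (l 1) (l 16349432)) (b (l 16341376) (l 16351008))))) (b (b (a (c (l 16383384) (l 16360264)) (l 16372912)) (c (l 16394784) (l 16372944))) (b (l 16396680) (l 16410344))))) (a (b (b (c (b (a (l 16350520) (l 16351536)) (a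 (b (l 16355112) (l 16358616)) (l 16357568))) (b (a (l 16327312) (l 16329264)) (a (b (l 16332584) (l 16336496)) (l 16336224)))) (a (b (l 16354024) (l 16363376)) (b (l 16355056) (l 16364312)))) (b (a (l 16379592) (l 16380440)) (l 16404912))) (a (b (b (b (a (l 16341688) (l 16342488)) (l 16369360)) (b (l 16356040) (l 16365248))) (b (l 16381312) (l 16405968))) (b (b (a (b (l 16343304) (l 16349440)) (b (l 16344144) (l 16350208))) (b (a (l 16356752) (b (l 16355384) (c (l 16389360) (l 16350112)))) (a (l 16365960) (c (l 16375248) (l 16357368))))) (a (b (l 16382016) (l 16406632)) (b (c (l 16390960) (l 16374096)) (l 16407168))))))) (b (a (b (a (c (l 16360368) (l 16339264)) (c (l 16365496) (l 16342608))) (a (b (l 16359800) (l 16368576)) (b (l 16363872) (l 16371904)))) (b (a (l 16358544) (l 16362824)) (a (l 16371664) (l 16375632)))) (a (b (l 16385736) (l 16409632)) (b (l 16391536) (l 16413840))))), by decide +kernel⟩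

def k3_pm_022_a : ∃ t, chk3 f_pm_022_a t 11 2 1 = true :=
  ⟨(b (b (a (a (b (l 16356680) (c (l 16368696) (l 16338736))) (b (l 16366304) (l 16363856))) (b (l 16422656) (a (l 16373408) (l 16382904)))) (a (a (c (l 16372424) (l 16343176)) (c (l 16382328) (l 16351408))) (a (l 16376616) (l 16385664)))) (a (b (a (b (l 16369200) (l 16381416)) (b (l 16377616) (l 16389048))) (a (b (l 16397360) (l 16418064)) (b (l 16403600) (l 16422512)))) (b (a (l 16391520) (l 16399352)) (a (l 16439656) (l 16424384))))), by decide +kernel⟩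

def k4_pm_022_a : ∃ t, chk3 f_pm_022_a t 8 6 1 = true :=
  ⟨(l 1), by decide +kernel⟩

def k5_pm_022_a : ∃ t, chk3 f_pm_022_a t 18 6 1 = true :=
  ⟨(b (l 1) (a (b (l 1) (a (l 1) (b (a (l 1) (b (l 1) (c (l 125124015479) (l 129418953223)))) (a (b (c (l 117070973847) (l 120829042759)) (c (l 161094412935) (l 155188808567))) (b (a (l 207802162135) (l 219613322999)) (c (l 16565520) (l 16552856))))))) (a (a (b (l 1) (b (b (c (l 135861413239) (l 141230090503)) (c (l 196527849447) (l 192769723351))) (b (a (l 16546656) (l 16547112)) (l 16559968)))) (b (b (l 1) (b (l 1) (c (l 149283166423) (l 154651841479)))) (b (b (c (l 218002665751) (l 215318279207)) (a (l 16534904) (l 16535528))) (l 16554312)))) (b (b (a (l 1) (b (l 1) (c (l 182569123799) (l 191695896023)))) (a (c (b (l 165926146871) (l 242161838103)) (b (l 171831690727) (l 240014320263))) (b (c (l 268468495591) (l 267394717399)) (l 16514160)))) (b (a (c (l 16538304) (l 16522128)) (l 16531920)) (l 16576760)))))),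 by decide +kernel⟩

def k6_pm_022_a : ∃ t, chk3 f_pm_022_a t 19 6 1 = true :=
  ⟨(b (a (a (b (l 1) (b (l 1) (a (b (l 1) (c (l 113312730055) (l 120292026263))) (b (c (l 147135579303) (l 148746169559)) (c (l 225518755591) (l 241087986663)))))) (b (a (l 1) (b (l 1) (a (l 1) (c (b (l 1) (l 16455608)) (l 16436080))))) (b (a (a (b (l 1) (l 133176908263)) (c (l 143914329111) (l 161631044055))) (a (b (l 172368470343) (l 16460304)) (b (c (l 16464224) (l 16439440)) (l 16461456)))) (a (b (c (l 253972897271) (l 272763356103)) (l 16488144)) (a (l 16474816) (l 16475856)))))) (b (a (b (a (l 41908800871) (c (l 16435064) (l 16409792))) (a (c (l 51572520151) (l 58014932903)) (c (l 16450976) (l 16427000)))) (b (c (l 16434840) (l 164852171223)) (a (l 16439544) (l 16439768)))) (a (b (a (b (l 16462808) (l 16461480)) (l 16456936)) (l 16497952)) (b (l 16456984) (l 16475288))))) (a (b (b (a (a (c (b (l 205654551047) (l 16503432)) (b (l 206191393159) (l 16483312))) (b (a (l 16484704)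 (l 16485960)) (l 16495952))) (a (l 16493112) (l 16495424))) (a (a (b (l 16504712) (l 16516016)) (l 16512416)) (a (l 16514504) (l 16516472)))) (a (b (l 16534296) (l 16558072)) (b (l 16537616) (l 16560568)))) (b (a (b (l 16495376) (l 16516016)) (l 16504720)) (a (l 16548776) (l 16546536))))), by decide +kernel⟩

def k7_pm_022_a : ∃ t, chk3 f_pm_022_a t 5 6 1 = true :=
  ⟨(a (a (a (b (b (a (b (l 16424160) (l 16440128)) (l 16432936)) (a (l 16466144) (l 16466120))) (b (l 16545240) (l 16459552))) (a (b (b (l 16433736) (l 16466248)) (b (l 16502064) (l 16540576))) (b (a (b (l 16434464) (l 16466528)) (a (l 16451384) (a (l 16514720) (l 16452072)))) (a (l 16542152) (b (l 16502016) (l 16497392)))))) (b (b (a (l 16437128) (l 16439704)) (l 16489216)) (b (l 16500688) (l 16535008)))) (b (a (b (l 16443584) (l 16469448)) (b (l 16449584) (l 16472456))) (a (b (l 16497344) (l 16526952)) (b (l 16497152) (l 16522056))))), by decide +kernel⟩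

def k8_pm_022_a : ∃ t, chk3 f_pm_022_a t 2 14 1 = true :=
  ⟨(a (a (a (l 1) (b (a (l 1) (a (l 1) (b (l 1) (a (b (l 1) (l 6)) (b (a (l 16599624) (l 187401174871)) (a (l 6) (l 16611784))))))) (a (l 6) (a (l 6) (a (l 6) (b (b (l 16623064) (l 16634792)) (l 16652672))))))) (a (b (a (b (a (b (a (l 1) (c (l 211560303591) (l 16566912))) (a (a (l 191696112823) (l 16597456)) (c (l 16591528) (l 16581808)))) (a (b (c (l 16578112) (l 16566896)) (l 16586656)) (l 16600800))) (a (a (b (c (l 16604472) (l 16596120)) (l 16611704)) (b (l 16599896) (l 16611016))) (a (l 16605048) (l 16604760)))) (b (a (a (l 16580096) (l 16580488)) (l 16581272)) (a (l 16604560) (l 16604704)))) (b (a (a (a (l 16628944) (l 16627976)) (l 16626808)) (a (l 16625744) (l 16625152))) (a (a (b (l 16645712) (l 16657392)) (l 16649160)) (l 16646584)))) (b (a (a (b (l 16582640) (l 16605232)) (b (l 16584240) (l 16605992))) (b (l 16581064) (l 16601816))) (a (a (l 16635128) (l 16632728)) (l 16620272))))) (a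 (a (a (b (l 16584712) (l 16605496)) (a (l 16597480) (a (l 16592760) (b (l 16577184) (l 16583136))))) (a (l 16621064) (l 16607632))) (b (a (l 16550880) (l 16525032)) (a (l 16537936) (l 16510736))))), by decide +kernel⟩

def k9_pm_022_a : ∃ t, chk3 f_pm_022_a t 2 15 1 = true :=
  ⟨(a (a (a (l 6) (a (l 6) (a (l 6) (a (l 6) (b (l 16645584) (b (l 16677712) (l 16669112))))))) (a (b (a (a (a (l 16681656) (l 16676840)) (l 16601168)) (b (l 16655864) (l 16650496))) (a (b (a (l 16690424) (l 16659576)) (a (a (l 16663216) (l 16658480)) (l 16672016))) (b (l 16685552) (a (l 16640584) (l 16629568))))) (b (a (a (l 16636296) (a (l 16627456) (l 16621592))) (b (l 16614176) (l 16608408))) (a (a (b (l 16626552) (l 16618072)) (b (l 16614720) (l 16606216))) (b (l 16601176) (l 16613352)))))) (a (a (a (b (l 16595608) (b (l 16584496) (l 16616400))) (a (b (l 16583304) (l 16565264)) (a (b (l 16576520) (l 16557192)) (b (a (l 16572480) (l 16569536)) (a (l 16552480) (l 16549144))))))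 (b (a (l 16560104) (l 16544312)) (a (l 16539080) (l 16522600)))) (a (b (l 16542480) (a (l 16506736) (l 16491496))) (b (l 16493208) (a (l 16476888) (l 16462928)))))), by decide +kernel⟩

def k10_pm_022_a : ∃ t, chk3 f_pm_022_a t 3 1 1 = true :=
  ⟨(b (a (b (a (b (a (b (l 16399768) (l 16397096)) (l 16421224)) (a (a (l 16394640) (l 16404008)) (l 16421624))) (b (a (l 16446152) (l 16469848)) (l 16498536))) (a (a (b (a (l 16407208) (l 16416560)) (a (l 16431688) (l 16440184))) (b (l 16432752) (l 16452856))) (a (b (l 16453352) (l 16468296)) (l 16478248)))) (b (a (b (l 16502808) (l 16498048)) (b (l 16540616) (l 16531936))) (a (l 16498968) (l 16517064)))) (a (b (b (a (a (a (l 16383912) (l 16472312)) (l 16478504)) (l 16488176)) (a (a (l 16508240) (l 16503904)) (l 16548712))) (a (b (a (b (l 16501432) (l 16485952)) (l 16545992)) (b (a (l 16467408) (l 16444208)) (a (a (l 16449632) (l 16437000)) (l 16419336)))) (b (b (l 16453272) (l 16435176)) (a (l 16453376) (l 16393480)))))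 (b (a (b (l 16491224) (l 16462904)) (l 16471104)) (b (a (l 16543056) (l 16464696)) (a (l 16477080) (l 16355136)))))), by decide +kernel⟩

theorem s11_pm_022_a : ∃ t, chk3 f_pm_022_a t 2 7 1 = true := ex3_b k8_pm_022_a k9_pm_022_a

theorem s12_pm_022_a : ∃ t, chk3 f_pm_022_a t 9 6 1 = true := ex3_a k5_pm_022_a k6_pm_022_a

theorem s13_pm_022_a : ∃ t, chk3 f_pm_022_a t 4 6 1 = true := ex3_a k4_pm_022_a s12_pm_022_a

theorem s14_pm_022_a : ∃ t, chk3 f_pm_022_a t 2 6 1 = true := ex3_a s13_pm_022_a k7_pm_022_a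

theorem s15_pm_022_a : ∃ t, chk3 f_pm_022_a t 2 3 1 = true := ex3_b s14_pm_022_a s11_pm_022_a

theorem s16_pm_022_a : ∃ t, chk3 f_pm_022_a t 10 2 1 = true := ex3_b k1_pm_022_a k2_pm_022_a

theorem s17_pm_022_a : ∃ t, chk3 f_pm_022_a t 5 2 1 = true := ex3_a s16_pm_022_a k3_pm_022_a

theorem s18_pm_022_a : ∃ t, chk3 f_pm_022_a t 2 2 1 = true := ex3_a k0_pm_022_a s17_pm_022_a

theorem s19_pm_022_a : ∃ t, chk3 f_pm_022_a t 2 1 1 = true := ex3_b s18_pm_022_a s15_pm_022_a

theorem s20_pm_022_a : ∃ t, chk3 f_pm_022_a t 1 1 1 = true := ex3_a s19_pm_022_a k10_pm_022_a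

theorem c_pm_022_a : CertB 0 536870912 0 536870912 740881858 40050571 3 eng mog cd1q0 cd2q2a pd2 true true false .pp 0 2 2
    ndB1q0 ndB2q2a pcB2 cut_pm_022_a Ext.none :=
  certB2 (fam := true) (s1 := true) (s2 := false) (a := 0) (b := 2) (c := 2) (cn := .pp) (n1 := ndB1q0) (n2 := ndB2q2a) (pc := pcB2) (cut := cut_pm_022_a) (xt := Ext.none) (P1 := 0) (W1 := 536870912) (P2 := 0) (W2 := 536870912) (P3 := 740881858) (W3 := 40050571) (N0 := 3) (En := eng) (mo := mog) (C1 := cd1q0) (C2 := cd2q2a) (C3 := pd2)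
    rfl (fun _ => rfl) s20_pm_022_a

noncomputable def cut_pm_022_b : Cut := Cut.of [[⟨0, 0, 0, 67108864⟩, ⟨1, 1, 0, 67108864⟩, ⟨2, 1, 0, 67108864⟩]]

noncomputable def f_pm_022_b : ℕ → ℕ → ℕ → ℕ → Bool := onCell 0 536870912 1239849684 370763052 740881858 40050571
    (rowB 3 eng mog cd1q0 cd2q2b pd2 0 true true false .pp 0 2 2 (qsf 0 536870912 1239849684 370763052 2) ndB1q0 ndB2q2b pcB2 cut_pm_022_b Ext.none)

def k0_pm_022_b : ∃ t, chk3 f_pm_022_b t 4 4 2 = true :=
  ⟨(a (b (c (b (a (b (a (b (a (b (c (l 16354088) (l 16348112)) (l 16343440)) (l 16353000)) (a (l 16332064) (l 16338128))) (b (l 16361400) (l 16347040))) (a (a (l 16309848) (l 16316408)) (l 16326080))) (b (b (a (l 16372256) (l 16382752)) (l 16364240)) (l 16344808))) (a (a (a (b (l 16281320) (l 16254032)) (l 16275064)) (l 16286200)) (l 16307904))) (b (a (b (a (b (a (c (l 16338032) (l 16331672)) (l 16340128)) (l 16322016)) (c (l 16344032) (l 16336976))) (a (a (l 16296296) (l 16302432)) (l 16311584)))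 (b (b (l 16363400) (l 16349680)) (l 16329672))) (a (a (b (l 16291280) (l 16242512)) (l 16270520)) (l 16291672)))) (a (a (b (b (a (l 16220024) (l 16228344)) (a (l 16194824) (l 16203776))) (b (l 16175664) (l 16153248))) (b (l 16291680) (l 16183896))) (b (a (l 16245672) (l 16262176)) (l 16212048)))) (b (b (a (b (c (b (l 16397904) (l 16385976)) (l 16377336)) (l 16361136)) (b (c (l 16411168) (l 16397432)) (l 16383096))) (a (l 16327304) (l 16352680))) (a (b (l 16285608) (l 16248160)) (l 16299312)))), by decide +kernel⟩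

def k1_pm_022_b : ∃ t, chk3 f_pm_022_b t 4 4 3 = true :=
  ⟨(c (a (b (a (b (b (a (b (c (l 16327576) (l 16320728)) (l 16308216)) (b (l 16333592) (l 16318384))) (a (l 16305872) (l 16296176))) (a (a (l 16258128) (l 16243848)) (l 16253952))) (b (b (c (l 16344928) (l 16336824)) (l 16313344)) (l 16274304))) (a (a (b (a (l 16181840) (l 16189912)) (l 16136408)) (b (l 16202072) (l 16155208))) (b (l 16226560) (l 16183936)))) (b (b (a (b (l 16361184) (l 16336480)) (b (l 16381968) (l 16360344))) (a (l 16301816) (l 16330064))) (a (l 16240640) (l 16276328)))) (a (b (a (b (b (a (b (a (l 16308160) (l 16312120)) (l 16293712)) (b (l 16318288) (l 16302664))) (a (l 16269720) (l 16279856))) (a (a (l 16221008) (l 16227128)) (l 16236496))) (b (b (a (l 16319424) (l 16328792)) (l 16295816)) (l 16255816))) (b (a (a (a (l 16164112) (l 16171704)) (l 16183248)) (l 16207064)) (a (a (l 16117056) (l 16135160)) (l 16164344)))) (b (b (a (b (l 16343472) (l 16318176)) (b (l 16364784) (l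 16343336))) (a (l 16283224) (l 16313688))) (a (l 16222792) (l 16260728))))), by decide +kernel⟩

def k2_pm_022_b : ∃ t, chk3 f_pm_022_b t 4 5 1 = true :=
  ⟨(a (b (a (b (a (c (b (l 16132056) (l 16111976)) (b (l 16092520) (l 16071368))) (c (l 16143272) (l 16103424))) (a (b (c (l 16092864) (l 16051768)) (l 16054224)) (l 16086960))) (b (l 16176624) (l 16122384))) (a (a (b (c (l 16050976) (l 16007208)) (l 16020648)) (b (l 16054992) (l 16027560))) (a (l 16067464) (l 16093984)))) (b (a (b (l 16197864) (l 16168936)) (l 16226560)) (a (l 16133360) (l 16184856)))), by decide +kernel⟩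

def k3_pm_022_b : ∃ t, chk3 f_pm_022_b t 5 2 1 = true :=
  ⟨(b (b (b (b (a (c (a (l 16446304) (l 16448872)) (a (l 16400360) (l 16430424))) (c (l 16482824) (l 16472464))) (a (l 16514432) (l 16465960))) (a (l 16552872) (l 16449384))) (a (a (l 16321752) (l 16362392)) (l 16420960))) (a (b (l 16318848) (l 16267424)) (b (l 16393000) (l 16376944)))), by decide +kernel⟩

def k4_pm_022_b : ∃ t, chk3 f_pm_022_b t 2 3 1 = true :=
  ⟨(a (b (a (a (b (a (b (l 15974784) (l 15954296)) (l 15994648)) (a (l 15931480) (l 15965336))) (b (l 16040208) (l 16015624))) (b (l 16150296) (l 16113768))) (a (b (a (l 15933336) (l 16005848)) (a (l 15932472) (l 16009128))) (b (l 16321200) (l 2)))) (b (a (b (l 16250464) (l 16245832)) (l 2)) (l 2))), by decide +kernel⟩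

def k5_pm_022_b : ∃ t, chk3 f_pm_022_b t 3 1 1 = true :=
  ⟨(b (a (b (b (b (c (a (l 16595552) (l 16561560)) (a (l 16518176) (l 16561320))) (a (l 16508360) (l 16561008))) (a (l 16493904) (l 2))) (a (b (l 16481904) (l 2)) (l 2))) (l 2)) (l 2)), by decide +kernel⟩

theorem s6_pm_022_b : ∃ t, chk3 f_pm_022_b t 4 4 1 = true := ex3_c k0_pm_022_b k1_pm_022_b

theorem s7_pm_022_b : ∃ t, chk3 f_pm_022_b t 4 2 1 = true := ex3_b s6_pm_022_b k2_pm_022_b

theorem s8_pm_022_b : ∃ t, chk3 f_pm_022_b t 2 2 1 = true := ex3_a s7_pm_022_b k3_pm_022_b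

theorem s9_pm_022_b : ∃ t, chk3 f_pm_022_b t 2 1 1 = true := ex3_b s8_pm_022_b k4_pm_022_b

theorem s10_pm_022_b : ∃ t, chk3 f_pm_022_b t 1 1 1 = true := ex3_a s9_pm_022_b k5_pm_022_b

theorem c_pm_022_b : CertB 0 536870912 1239849684 370763052 740881858 40050571 3 eng mog cd1q0 cd2q2b pd2 true true false .pp 0 2 2
    ndB1q0 ndB2q2b pcB2 cut_pm_022_b Ext.none :=
  certB0 (fam := true) (s1 := true) (s2 := false) (a := 0) (b := 2) (c := 2) (cn := .pp) (n1 := ndB1q0) (n2 := ndB2q2b) (pc := pcB2) (cut := cut_pm_022_b) (xt := Ext.none) (P1 := 0) (W1 := 536870912) (P2 := 1239849684) (W2 := 370763052) (P3 := 740881858) (W3 := 40050571) (N0 := 3) (En := eng) (mo := mog) (C1 := cd1q0) (C2 := cd2q2b) (C3 := pd2)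
    rfl s10_pm_022_b

noncomputable def f_pm_023_a : ℕ → ℕ → ℕ → ℕ → Bool := onCell 0 536870912 0 536870912 740881858 40050571
    (rowB 3 eng mog cd1q0 cd2q2a pd3 0 true true false .up 0 2 3 (qsf 0 536870912 0 536870912 3) ndB1q0 ndB2q2a pcB3 Cut.none Ext.none)

def k0_pm_023_a : ∃ t, chk3 f_pm_023_a t 1 1 1 = true :=
  ⟨(a (l 1) (b (a (a (l 1) (b (l 258268098679) (l 16511768))) (b (a (l 16571760) (l 16624480)) (a (l 16528984) (l 16574864)))) (b (a (l 1) (a (l 16609712) (l 16486936))) (a (l 1) (b (a (l 16396720) (l 16392592)) (a (l 1) (l 16342576))))))), by decide +kernel⟩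

theorem c_pm_023_a : CertB 0 536870912 0 536870912 740881858 40050571 3 eng mog cd1q0 cd2q2a pd3 true true false .up 0 2 3
    ndB1q0 ndB2q2a pcB3 Cut.none Ext.none :=
  certB0 (fam := true) (s1 := true) (s2 := false) (a := 0) (b := 2) (c := 3) (cn := .up) (n1 := ndB1q0) (n2 := ndB2q2a) (pc := pcB3) (cut := Cut.none) (xt := Ext.none) (P1 := 0) (W1 := 536870912) (P2 := 0) (W2 := 536870912) (P3 := 740881858) (W3 := 40050571) (N0 := 3) (En := eng) (mo := mog) (C1 := cd1q0) (C2 := cd2q2a) (C3 := pd3)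
    rfl k0_pm_023_a

noncomputable def f_pm_023_b : ℕ → ℕ → ℕ → ℕ → Bool := onCell 1610612736 536870912 1239849684 370763052 740881858 40050571
    (rowB 3 eng mog cd1q0 cd2q2b pd3 2 true true false .up 0 2 3 (qsf 0 536870912 1239849684 370763052 3) ndB1q0 ndB2q2b pcB3 Cut.none Ext.none)

def k0_pm_023_b : ∃ t, chk3 f_pm_023_b t 1 1 1 = true :=
  ⟨(a (a (b (b (b (a (b (b (l 16574488) (l 16571544)) (l 16561512)) (b (b (l 16615104) (l 16608088)) (l 16592768))) (a (l 16527712) (l 16593592))) (a (b (l 16464688) (l 16388368)) (l 16527240))) (a (b (l 16258232) (a (l 16036584) (l 16106000))) (b (l 16386000) (l 16213432)))) (b (b (b (a (b (l 16664272) (l 16655504)) (b (l 2) (l 16701984))) (a (l 16635016) (l 16678512))) (a (l 16609776) (l 16677848))) (a (b (l 16500216) (l 16355512)) (b (l 16597048) (l 16488712))))) (a (a (b (b (l 2) (l 16719704)) (a (l 16613832) (l 16645424))) (b (b (l 2) (l 4)) (l 4))) (l 4))), by decide +kernel⟩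

theorem c_pm_023_b : CertB 0 536870912 1239849684 370763052 740881858 40050571 3 eng mog cd1q0 cd2q2b pd3 true true false .up 0 2 3
    ndB1q0 ndB2q2b pcB3 Cut.none Ext.none :=
  certB2 (fam := true) (s1 := true) (s2 := false) (a := 0) (b := 2) (c := 3) (cn := .up) (n1 := ndB1q0) (n2 := ndB2q2b) (pc := pcB3) (cut := Cut.none) (xt := Ext.none) (P1 := 0) (W1 := 536870912) (P2 := 1239849684) (W2 := 370763052) (P3 := 740881858) (W3 := 40050571) (N0 := 3) (En := eng) (mo := mog) (C1 := cd1q0) (C2 := cd2q2b) (C3 := pd3)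
    rfl (fun _ => rfl) k0_pm_023_b

noncomputable def f_pm_033 : ℕ → ℕ → ℕ → ℕ → Bool := onCell 0 536870912 1610612736 536870912 740881858 40050571
    (rowB 3 eng mog cd1q0 cd2q3 pd3 1 true true false .pnn 0 3 3 (qsf 0 536870912 1610612736 536870912 3) ndB1q0 ndB2q3 pcB3 Cut.none Ext.none)

def k0_pm_033 : ∃ t, chk3 f_pm_033 t 1 1 1 = true :=
  ⟨(b (b (a (b (a (a (l 15953336) (l 16100232)) (l 1)) (a (a (l 15935984) (l 16086072)) (l 16306992))) (l 1)) (a (b (a (a (l 15938296) (l 16085736)) (l 16301752)) (a (b (l 16037784) (l 16068272)) (l 16319360))) (b (l 1) (a (l 16544168) (l 1))))) (b (a (b (a (l 4) (b (l 16359128) (l 4))) (l 4)) (b (a (b (l 16554856) (l 4)) (l 1)) (l 4))) (l 4))), by decide +kernel⟩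

theorem c_pm_033 : CertB 0 536870912 1610612736 536870912 740881858 40050571 3 eng mog cd1q0 cd2q3 pd3 true true false .pnn 0 3 3
    ndB1q0 ndB2q3 pcB3 Cut.none Ext.none :=
  certB1 (fam := true) (s1 := true) (s2 := false) (a := 0) (b := 3) (c := 3) (cn := .pnn) (n1 := ndB1q0) (n2 := ndB2q3) (pc := pcB3) (cut := Cut.none) (xt := Ext.none) (P1 := 0) (W1 := 536870912) (P2 := 1610612736) (W2 := 536870912) (P3 := 740881858) (W3 := 40050571) (N0 := 3) (En := eng) (mo := mog) (C1 := cd1q0) (C2 := cd2q3) (C3 := pd3)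
    rfl (fun _ => rfl) k0_pm_033

noncomputable def f_pm_101 : ℕ → ℕ → ℕ → ℕ → Bool := onCell 536870912 536870912 0 536870912 740881858 40050571
    (rowB 3 eng mog cd1q1 cd2q0 pd1 2 true true false .npn 1 0 1 (qsf 536870912 536870912 0 536870912 1) ndB1q1 ndB2q0 pcB1 Cut.none Ext.none)

def k0_pm_101 : ∃ t, chk3 f_pm_101 t 1 1 1 = true :=
  ⟨(l 3), by decide +kernel⟩

theorem c_pm_101 : CertB 536870912 536870912 0 536870912 740881858 40050571 3 eng mog cd1q1 cd2q0 pd1 true true false .npn 1 0 1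
    ndB1q1 ndB2q0 pcB1 Cut.none Ext.none :=
  certB2 (fam := true) (s1 := true) (s2 := false) (a := 1) (b := 0) (c := 1) (cn := .npn) (n1 := ndB1q1) (n2 := ndB2q0) (pc := pcB1) (cut := Cut.none) (xt := Ext.none) (P1 := 536870912) (W1 := 536870912) (P2 := 0) (W2 := 536870912) (P3 := 740881858) (W3 := 40050571) (N0 := 3) (En := eng) (mo := mog) (C1 := cd1q1) (C2 := cd2q0) (C3 := pd1)
    rfl (fun _ => rfl) k0_pm_101

noncomputable def f_pm_102 : ℕ → ℕ → ℕ → ℕ → Bool := onCell 536870912 536870912 1073741824 536870912 740881858 40050571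
    (rowB 3 eng mog cd1q1 cd2q0 pd2 1 true true false .npp 1 0 2 (qsf 536870912 536870912 0 536870912 2) ndB1q1 ndB2q0 pcB2 Cut.none Ext.none)

def k0_pm_102 : ∃ t, chk3 f_pm_102 t 1 2 1 = true :=
  ⟨(b (b (a (l 3) (l 3)) (a (b (l 3) (a (l 3) (b (l 3) (b (l 3) (a (l 3) (l 16611392)))))) (b (a (l 3) (a (l 3) (b (l 3) (a (l 16695360) (b (l 16682672) (l 16677216)))))) (a (b (a (l 3) (b (l 3) (l 16702544))) (a (b (l 16635376) (l 16626464)) (b (l 16670208) (a (l 16636064) (l 16639424))))) (a (b (b (l 16677608) (a (l 16664768) (l 16664408))) (b (a (l 16652392) (l 16651920)) (a (l 16640112) (l 16639680)))) (b (a (b (l 16675656) (l 16662512)) (b (l 16672480) (l 16664912))) (a (l 16645128) (l 16647320)))))))) (b (b (b (a (a (b (l 3) (l 2)) (b (a (l 16596704) (l 16604408)) (a (l 16592056) (l 16599032)))) (a (a (b (l 16618072) (l 16609800)) (b (a (l 16626016) (l 16628456)) (l 16617776))) (a (a (l 16623016) (l 16621880)) (a (l 16620208) (l 16618336))))) (a (a (l 2)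 (b (a (l 16589128) (l 16593904)) (b (l 16589304) (a (l 16587168) (l 16588920))))) (a (b (a (l 16603544) (l 16608048)) (b (a (l 16598200) (l 16600016)) (a (b (l 16595216) (l 16592576)) (b (l 16594872) (l 16590712))))) (b (a (l 16624688) (l 16594600)) (a (b (l 16592456) (l 16583400)) (b (l 16580928) (l 16444568))))))) (a (a (l 2) (a (l 16578368) (l 16576048))) (a (a (l 16574360) (l 16568384)) (a (l 16555800) (a (l 16543840) (l 16536744)))))) (a (a (l 2) (a (l 16555656) (l 16542056))) (a (a (l 16592024) (l 16765528)) (a (b (l 16513592) (l 16476256)) (b (l 16536072) (l 16452752))))))), by decide +kernel⟩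

def k1_pm_102 : ∃ t, chk3 f_pm_102 t 1 3 1 = true :=
  ⟨(a (b (b (a (l 2) (a (l 2) (l 16509480))) (l 2)) (l 2)) (b (a (b (a (l 16484096) (l 16458192)) (l 16546648)) (b (a (l 16576536) (b (l 16416552) (l 16385608))) (a (l 16386632) (l 16349528)))) (a (b (l 16432984) (l 2)) (b (l 16597432) (l 16346544))))), by decide +kernel⟩

theorem s2_pm_102 : ∃ t, chk3 f_pm_102 t 1 1 1 = true := ex3_b k0_pm_102 k1_pm_102

theorem c_pm_102 : CertB 536870912 536870912 0 536870912 740881858 40050571 3 eng mog cd1q1 cd2q0 pd2 true true false .npp 1 0 2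
    ndB1q1 ndB2q0 pcB2 Cut.none Ext.none :=
  certB1 (fam := true) (s1 := true) (s2 := false) (a := 1) (b := 0) (c := 2) (cn := .npp) (n1 := ndB1q1) (n2 := ndB2q0) (pc := pcB2) (cut := Cut.none) (xt := Ext.none) (P1 := 536870912) (W1 := 536870912) (P2 := 0) (W2 := 536870912) (P3 := 740881858) (W3 := 40050571) (N0 := 3) (En := eng) (mo := mog) (C1 := cd1q1) (C2 := cd2q0) (C3 := pd2)
    rfl (fun _ => rfl) s2_pm_102

noncomputable def f_pm_112 : ℕ → ℕ → ℕ → ℕ → Bool := onCell 1073741824 536870912 536870912 536870912 740881858 40050571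
    (rowB 3 eng mog cd1q1 cd2q1 pd2 2 true true false .dn 1 1 2 (qsf 536870912 536870912 536870912 536870912 2) ndB1q1 ndB2q1 pcB2 Cut.none Ext.none)

def k0_pm_112 : ∃ t, chk3 f_pm_112 t 1 1 1 = true :=
  ⟨(a (b (a (l 3) (a (a (a (b (a (l 82308864535) (b (l 16500392) (l 16505200))) (l 3)) (a (b (b (l 16496536) (l 16500640)) (b (l 16490240) (l 1))) (b (a (b (l 16494464) (l 16498024)) (b (l 16494048) (a (l 16497072) (l 16496784)))) (b (a (l 16486920) (a (l 16485552) (l 16484816))) (l 1))))) (b (l 16488640) (l 16611168))) (b (b (l 16459680) (l 16464160)) (b (l 16452064) (l 16425000))))) (a (l 1) (a (l 1) (b (l 238940780775) (l 1))))) (b (a (a (b (a (l 16482448) (l 16425232)) (b (l 16427936) (l 16401312))) (b (b (l 16391784) (l 16411872)) (l 16552384))) (b (a (l 16384728) (l 16380536)) (a (l 16429080) (l 16429152)))) (a (b (a (b (l 16359888) (l 16307744)) (l 144451423591)) (a (l 1) (l 218002448103))) (b (a (l 16331448) (l 16372208)) (b (l 16232088) (l 16172672)))))),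 by decide +kernel⟩

theorem c_pm_112 : CertB 536870912 536870912 536870912 536870912 740881858 40050571 3 eng mog cd1q1 cd2q1 pd2 true true false .dn 1 1 2
    ndB1q1 ndB2q1 pcB2 Cut.none Ext.none :=
  certB2 (fam := true) (s1 := true) (s2 := false) (a := 1) (b := 1) (c := 2) (cn := .dn) (n1 := ndB1q1) (n2 := ndB2q1) (pc := pcB2) (cut := Cut.none) (xt := Ext.none) (P1 := 536870912) (W1 := 536870912) (P2 := 536870912) (W2 := 536870912) (P3 := 740881858) (W3 := 40050571) (N0 := 3) (En := eng) (mo := mog) (C1 := cd1q1) (C2 := cd2q1) (C3 := pd2)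
    rfl (fun _ => rfl) k0_pm_112

noncomputable def f_pm_113 : ℕ → ℕ → ℕ → ℕ → Bool := onCell 536870912 536870912 1610612736 536870912 740881858 40050571
    (rowB 3 eng mog cd1q1 cd2q1 pd3 1 true true false .nn 1 1 3 (qsf 536870912 536870912 536870912 536870912 3) ndB1q1 ndB2q1 pcB3 Cut.none Ext.none)

def k0_pm_113 : ∃ t, chk3 f_pm_113 t 1 1 1 = true :=
  ⟨(a (b (b (a (b (l 16197280) (l 16162536)) (a (l 16356232) (l 16463712))) (b (a (a (l 2) (l 16204832)) (a (l 16376408) (l 16566352))) (a (l 2) (a (l 16423184) (l 16624616))))) (b (b (a (l 2) (a (l 2) (l 16571320))) (l 2)) (l 2))) (a (b (b (l 16541920) (b (l 16781664) (b (l 16824768) (l 16781168)))) (b (b (a (l 16664672) (l 16753400)) (b (l 16655256) (l 16635264))) (b (a (l 2) (l 16395560)) (l 2)))) (b (b (l 16485576) (b (l 16818832) (b (l 17052952) (l 16996080)))) (b (b (a (l 16838384) (l 17136552)) (b (l 16945200) (l 16762472))) (b (b (l 16729696) (a (l 16670984) (l 16747128))) (b (b (l 16683976) (l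 16669448)) (b (l 16799848) (b (l 16636168) (b (l 16623376) (l 221828473511)))))))))), by decide +kernel⟩

theorem c_pm_113 : CertB 536870912 536870912 536870912 536870912 740881858 40050571 3 eng mog cd1q1 cd2q1 pd3 true true false .nn 1 1 3
    ndB1q1 ndB2q1 pcB3 Cut.none Ext.none :=
  certB1 (fam := true) (s1 := true) (s2 := false) (a := 1) (b := 1) (c := 3) (cn := .nn) (n1 := ndB1q1) (n2 := ndB2q1) (pc := pcB3) (cut := Cut.none) (xt := Ext.none) (P1 := 536870912) (W1 := 536870912) (P2 := 536870912) (W2 := 536870912) (P3 := 740881858) (W3 := 40050571) (N0 := 3) (En := eng) (mo := mog) (C1 := cd1q1) (C2 := cd2q1) (C3 := pd3)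
    rfl (fun _ => rfl) k0_pm_113

noncomputable def f_pm_123_a : ℕ → ℕ → ℕ → ℕ → Bool := onCell 1610612736 536870912 0 536870912 740881858 40050571
    (rowB 3 eng mog cd1q1 cd2q2a pd3 2 true true false .npn 1 2 3 (qsf 536870912 536870912 0 536870912 3) ndB1q1 ndB2q2a pcB3 Cut.none Ext.none)

def k0_pm_123_a : ∃ t, chk3 f_pm_123_a t 1 1 1 = true :=
  ⟨(a (a (b (b (l 1) (l 16605624)) (b (a (l 1) (l 16545192)) (b (a (l 16427408) (l 16468936)) (a (l 16374904) (l 16434584))))) (b (a (b (l 16750712) (l 16655688)) (b (l 16730120) (l 16711160))) (a (b (a (l 16586248) (l 16623640)) (a (b (l 16534136) (l 16529336)) (b (l 16594520) (l 16619680)))) (b (a (l 16665816) (l 16717680)) (a (b (l 16660640) (l 16718264)) (b (l 16746280) (l 16802496))))))) (a (b (a (b (l 16768264) (l 16780144)) (b (a (l 16737952) (l 16740520)) (a (l 16786968) (l 16754416)))) (a (b (a (l 16787040) (l 16863864)) (a (b (l 16822528) (l 16841248)) (b (l 16860488) (l 16884480)))) (a (b (l 16876968)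 (b (l 16868032) (l 16889952))) (b (l 16838616) (b (l 16859576) (l 16874808)))))) (a (b (b (l 4) (a (l 16727400) (a (l 16720392) (l 4)))) (b (a (l 16801848) (a (l 16777248) (l 16741712))) (a (b (l 16850592) (l 16857864)) (b (l 16832624) (l 16836376))))) (b (l 4) (b (a (a (l 16720808) (l 4)) (l 4)) (b (a (a (l 16804488) (l 16790136)) (a (l 16907736) (l 4))) (a (a (l 16816048) (a (l 16797888) (l 16785608))) (a (a (l 16788160) (l 16789408)) (a (l 16777760) (l 4)))))))))), by decide +kernel⟩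

theorem c_pm_123_a : CertB 536870912 536870912 0 536870912 740881858 40050571 3 eng mog cd1q1 cd2q2a pd3 true true false .npn 1 2 3
    ndB1q1 ndB2q2a pcB3 Cut.none Ext.none :=
  certB2 (fam := true) (s1 := true) (s2 := false) (a := 1) (b := 2) (c := 3) (cn := .npn) (n1 := ndB1q1) (n2 := ndB2q2a) (pc := pcB3) (cut := Cut.none) (xt := Ext.none) (P1 := 536870912) (W1 := 536870912) (P2 := 0) (W2 := 536870912) (P3 := 740881858) (W3 := 40050571) (N0 := 3) (En := eng) (mo := mog) (C1 := cd1q1) (C2 := cd2q2a) (C3 := pd3)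
    rfl (fun _ => rfl) k0_pm_123_a

noncomputable def f_pm_123_b : ℕ → ℕ → ℕ → ℕ → Bool := onCell 1610612736 536870912 1239849684 370763052 740881858 40050571
    (rowB 3 eng mog cd1q1 cd2q2b pd3 2 true true false .npn 1 2 3 (qsf 536870912 536870912 1239849684 370763052 3) ndB1q1 ndB2q2b pcB3 Cut.none Ext.none)

def k0_pm_123_b : ∃ t, chk3 f_pm_123_b t 1 1 1 = true :=
  ⟨(a (a (l 1) (b (b (b (a (b (l 16701896) (l 16708680)) (b (l 16737592) (l 16740952))) (a (l 1) (l 16749368))) (a (l 1) (l 16758856))) (l 1))) (a (b (b (a (b (c (l 16884048) (l 16858040)) (l 16759184)) (a (b (b (l 16726688) (l 16741616)) (l 16744048)) (l 4))) (a (l 16750184) (l 4))) (a (l 1) (l 4))) (l 4))), by decide +kernel⟩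

theorem c_pm_123_b : CertB 536870912 536870912 1239849684 370763052 740881858 40050571 3 eng mog cd1q1 cd2q2b pd3 true true false .npn 1 2 3
    ndB1q1 ndB2q2b pcB3 Cut.none Ext.none :=
  certB2 (fam := true) (s1 := true) (s2 := false) (a := 1) (b := 2) (c := 3) (cn := .npn) (n1 := ndB1q1) (n2 := ndB2q2b) (pc := pcB3) (cut := Cut.none) (xt := Ext.none) (P1 := 536870912) (W1 := 536870912) (P2 := 1239849684) (W2 := 370763052) (P3 := 740881858) (W3 := 40050571) (N0 := 3) (En := eng) (mo := mog) (C1 := cd1q1) (C2 := cd2q2b) (C3 := pd3)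
    rfl (fun _ => rfl) k0_pm_123_b

noncomputable def f_pm_133 : ℕ → ℕ → ℕ → ℕ → Bool := onCell 536870912 536870912 1610612736 536870912 740881858 40050571
    (rowB 3 eng mog cd1q1 cd2q3 pd3 0 true true false .dn 1 3 3 (qsf 536870912 536870912 1610612736 536870912 3) ndB1q1 ndB2q3 pcB3 Cut.none Ext.none)

def k0_pm_133 : ∃ t, chk3 f_pm_133 t 1 1 1 = true :=
  ⟨(l 4), by decide +kernel⟩

theorem c_pm_133 : CertB 536870912 536870912 1610612736 536870912 740881858 40050571 3 eng mog cd1q1 cd2q3 pd3 true true false .dn 1 3 3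
    ndB1q1 ndB2q3 pcB3 Cut.none Ext.none :=
  certB0 (fam := true) (s1 := true) (s2 := false) (a := 1) (b := 3) (c := 3) (cn := .dn) (n1 := ndB1q1) (n2 := ndB2q3) (pc := pcB3) (cut := Cut.none) (xt := Ext.none) (P1 := 536870912) (W1 := 536870912) (P2 := 1610612736) (W2 := 536870912) (P3 := 740881858) (W3 := 40050571) (N0 := 3) (En := eng) (mo := mog) (C1 := cd1q1) (C2 := cd2q3) (C3 := pd3)
    rfl k0_pm_133

noncomputable def cut_pm_202_a : Cut := Cut.of [[⟨0, 1, 0, 67108864⟩, ⟨1, 0, 0, 67108864⟩, ⟨2, 1, 0, 67108864⟩]]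

noncomputable def f_pm_202_a : ℕ → ℕ → ℕ → ℕ → Bool := onCell 0 536870912 1073741824 536870912 740881858 40050571
    (rowB 3 eng mog cd1q2a cd2q0 pd2 1 true true false .pp 2 0 2 (qsf 0 536870912 0 536870912 2) ndB1q2a ndB2q0 pcB2 cut_pm_202_a Ext.none)

def k0_pm_202_a : ∃ t, chk3 f_pm_202_a t 2 2 1 = true :=
  ⟨(b (b (l 1) (b (l 1) (a (l 1) (b (l 1) (a (l 1) (a (l 1) (b (l 1) (c (a (l 16433712) (l 16446776)) (a (l 141766741047) (l 16426312)))))))))) (b (a (b (b (l 1) (a (b (l 1) (a (l 128345053159) (b (l 1) (l 16390976)))) (b (a (l 1) (c (l 16393736) (l 16368912))) (b (a (l 16385176) (l 16388936)) (a (l 16390096) (l 16393456)))))) (a (b (a (l 16424720) (l 16440608)) (a (l 16415592) (l 16410648))) (b (a (l 16460672) (b (l 16398032) (l 16403968))) (c (l 16423824) (l 16398000))))) (b (b (a (b (l 1) (a (c (l 16394208) (l 16369832)) (c (a (l 16403536) (l 16411200)) (b (l 16383056) (l 16386800))))) (a (b (c (a (l 16414968) (l 16425304)) (a (l 16392552) (l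 162167820071))) (b (a (l 16408264) (l 16418720)) (l 16416408))) (b (a (b (l 16425936) (l 16428016)) (c (l 16449088) (l 16430456))) (a (l 16431424) (l 16443848))))) (a (c (b (a (l 16422712) (l 16413880)) (a (b (l 16407744) (l 16411592)) (l 16420744))) (b (a (l 16378560) (l 16392664)) (a (l 16387576) (l 16400728)))) (a (b (c (l 16430096) (l 16411216)) (b (l 16425720) (l 16428872))) (b (l 16442440) (l 16468584))))) (a (b (a (b (l 16405496) (l 16411296)) (l 16482816)) (a (l 16419936) (l 16430936))) (b (a (l 16435432) (l 16454880)) (a (l 16445752) (l 16464256)))))) (a (b (a (c (l 16443288) (l 16417552)) (b (l 16444376) (l 16435128))) (a (l 16454840) (l 16452416))) (b (a (b (l 16457808) (l 16447728)) (b (l 16506832) (l 16474096))) (a (l 16463592) (l 16487184)))))), by decide +kernel⟩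

def k1_pm_202_a : ∃ t, chk3 f_pm_202_a t 2 3 1 = true :=
  ⟨(b (b (a (b (a (l 16477776) (l 16474624)) (l 16583208)) (b (a (l 16483560) (l 16502960)) (a (l 16501808) (l 16516352)))) (a (a (l 16528736) (l 16524288)) (b (l 16522520) (l 16526400)))) (b (a (l 16556440) (a (l 16542280) (l 16532920))) (a (l 16593960) (l 16565808)))), by decide +kernel⟩

def k2_pm_202_a : ∃ t, chk3 f_pm_202_a t 3 8 1 = true :=
  ⟨(a (l 1) (b (a (l 1) (l 6)) (a (b (a (l 1) (l 6)) (a (b (l 1) (a (l 1) (b (a (l 1) (l 6)) (a (b (l 302291530967) (l 339335635015)) (b (l 6) (l 16614080)))))) (b (l 6) (b (l 6) (a (a (l 16626368) (l 16639576)) (l 16659792)))))) (b (l 6) (b (l 6) (b (l 6) (a (l 16677544) (l 16655376)))))))), by decide +kernel⟩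

def k3_pm_202_a : ∃ t, chk3 f_pm_202_a t 3 9 1 = true :=
  ⟨(a (b (a (l 1) (b (a (l 1) (b (l 1) (a (b (l 1) (l 256120522647)) (b (l 312492034295) (l 337188083367))))) (a (b (a (l 1) (b (l 1) (l 277058399399))) (a (b (l 1) (l 287795786023)) (b (l 276521538119) (l 16524584)))) (b (a (b (l 266321069127) (l 308733839415)) (b (l 16563424) (l 16566392))) (a (b (l 16544480) (l 16548016)) (l 16571000)))))) (a (b (a (b (l 1) (b (l 1) (a (l 1) (l 193306459559)))) (b (a (l 1) (b (l 16485968) (l 16490592))) (a (b (l 16476376) (l 16481048)) (b (l 16495240) (l 16499648))))) (a (b (a (c (l 16460048) (l 16438960)) (c (l 16475640) (l 16455912))) (a (c (l 16460888) (l 16441848)) (l 16467480))) (a (b (l 16483168) (l 16484648)) (l 16502168)))) (b (a (b (a (b (l 16506640) (l 16510968)) (l 16530536)) (b (l 16526040) (l 16530000))) (b (a (l 16553408) (l 16577368)) (l 16467456))) (a (b (l 16531400) (l 16532088)) (l 16574424))))) (b (a (a (a (b (b (b (a (l 1) (b (l 271153001767)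 (l 302828385383))) (a (l 330208785687) (l 16590696))) (b (a (l 16578520) (l 16592728)) (l 16587944))) (b (l 16591616) (l 16596832))) (b (b (b (a (b (l 416645049271) (l 16603200)) (l 16615472)) (l 16610728)) (l 16634320)) (b (l 16617304) (l 16621640)))) (b (b (b (a (l 16634872) (l 16661256)) (l 16586232)) (l 16566944)) (l 16563008))) (a (b (b (l 16666912) (l 16653536)) (a (l 16636888) (l 16627792))) (b (a (b (l 16651120) (l 16637720)) (l 16694056)) (a (l 16616616) (l 16603240))))) (a (a (b (b (l 16614416) (l 16619472)) (l 16606856)) (b (l 16691576) (l 16596392))) (b (a (b (l 16610752) (l 16596064)) (b (l 16588176) (l 16573328))) (a (l 16580600) (l 16557032)))))), by decide +kernel⟩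

def k4_pm_202_a : ∃ t, chk3 f_pm_202_a t 3 5 1 = true :=
  ⟨(b (b (b (a (a (a (b (a (l 16454160) (l 16469352)) (l 16464656)) (b (l 16494952) (l 16496216))) (a (l 16470112) (l 16573536))) (a (a (l 16592416) (l 16580432)) (a (l 16563152) (l 16538216)))) (a (a (a (b (l 16468040) (l 16471904)) (b (l 16498240) (l 16500608))) (b (l 16532752) (b (l 16553472) (a (l 16533336) (l 16570776))))) (b (a (l 16576296) (l 16538136)) (a (b (l 16570936) (a (l 16573792) (l 16559224))) (b (l 16531432) (b (l 16527808) (l 16525272))))))) (a (a (a (b (l 16478088) (l 16486216)) (b (l 16505400) (l 16511856))) (a (l 16538640) (l 16571808))) (a (a (l 16557944) (l 16542440)) (a (l 16521568) (l 16493408))))) (b (a (a (a (l 16497616) (l 16520544)) (l 16553464)) (a (a (l 16532000) (l 16515008)) (a (l 16492792) (l 16462824)))) (a (a (l 16499992) (l 16531960)) (a (a (l 16507528) (l 16490184)) (a (l 16466144) (l 16434808)))))), by decide +kernel⟩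

def k5_pm_202_a : ∃ t, chk3 f_pm_202_a t 3 3 1 = true :=
  ⟨(b (a (b (a (b (l 16529608) (l 16520616)) (b (l 16514080) (l 16499656))) (a (l 16512952) (l 16485328))) (b (a (b (a (l 16486024) (l 16466640)) (l 16458320)) (b (a (l 16442504) (l 16410424)) (l 16448760))) (a (l 16522640) (l 16510336)))) (a (b (l 16499912) (l 16513880)) (b (a (l 16428736) (l 16372984)) (l 16580360)))), by decide +kernel⟩

theorem s6_pm_202_a : ∃ t, chk3 f_pm_202_a t 3 4 1 = true := ex3_b k2_pm_202_a k3_pm_202_a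

theorem s7_pm_202_a : ∃ t, chk3 f_pm_202_a t 3 2 1 = true := ex3_b s6_pm_202_a k4_pm_202_a

theorem s8_pm_202_a : ∃ t, chk3 f_pm_202_a t 3 1 1 = true := ex3_b s7_pm_202_a k5_pm_202_a

theorem s9_pm_202_a : ∃ t, chk3 f_pm_202_a t 2 1 1 = true := ex3_b k0_pm_202_a k1_pm_202_a

theorem s10_pm_202_a : ∃ t, chk3 f_pm_202_a t 1 1 1 = true := ex3_a s9_pm_202_a s8_pm_202_a

theorem c_pm_202_a : CertB 0 536870912 0 536870912 740881858 40050571 3 eng mog cd1q2a cd2q0 pd2 true true false .pp 2 0 2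
    ndB1q2a ndB2q0 pcB2 cut_pm_202_a Ext.none :=
  certB1 (fam := true) (s1 := true) (s2 := false) (a := 2) (b := 0) (c := 2) (cn := .pp) (n1 := ndB1q2a) (n2 := ndB2q0) (pc := pcB2) (cut := cut_pm_202_a) (xt := Ext.none) (P1 := 0) (W1 := 536870912) (P2 := 0) (W2 := 536870912) (P3 := 740881858) (W3 := 40050571) (N0 := 3) (En := eng) (mo := mog) (C1 := cd1q2a) (C2 := cd2q0) (C3 := pd2)
    rfl (fun _ => rfl) s10_pm_202_a

noncomputable def cut_pm_202_b : Cut := Cut.of [[⟨0, 1, 0, 67108864⟩, ⟨1, 0, 0, 67108864⟩, ⟨2, 1, 0, 67108864⟩]]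

noncomputable def f_pm_202_b : ℕ → ℕ → ℕ → ℕ → Bool := onCell 1073741824 536870912 0 536870912 740881858 40050571
    (rowB 3 eng mog cd1q2b cd2q0 pd2 2 true true false .pp 2 0 2 (qsf 1239849684 370763052 0 536870912 2) ndB1q2b ndB2q0 pcB2 cut_pm_202_b Ext.none)

def k0_pm_202_b : ∃ t, chk3 f_pm_202_b t 1 1 1 = true :=
  ⟨(a (b (a (l 1) (b (a (b (a (b (a (l 1) (a (l 1) (b (b (l 16441504) (l 1)) (l 1)))) (l 1)) (b (b (a (c (b (l 16400344) (l 16429064)) (l 16386768)) (l 16376544)) (a (c (l 16471400) (l 16445648)) (c (l 16426352) (l 16398824)))) (a (l 1) (c (l 16466288) (l 16484584))))) (l 1)) (b (b (a (a (a (l 16414272) (l 16350784)) (l 16361496)) (b (l 16212088) (l 16267560))) (a (b (a (l 16425384) (l 16382688)) (l 16458360)) (b (l 16322480) (l 16376560)))) (a (b (b (l 120828762967) (l 1)) (l 1)) (b (a (l 16474968) (l 16435800)) (l 222834140631))))) (l 1))) (l 1)) (a (b (b (a (b (b (a (l 16232432) (l 16107824)) (a (l 16276432) (l 16211696))) (b (a (l 16380344)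 (l 16313432)) (a (l 16478552) (l 16411048)))) (b (b (l 16031136) (l 16130344)) (b (l 16227552) (l 16384864)))) (a (b (a (b (l 263636299175) (l 1)) (b (l 16500400) (l 16549840))) (l 1)) (b (a (l 16481456) (l 16427992)) (a (l 336650998519) (l 227666213575))))) (l 1)) (b (b (a (b (b (l 15956840) (l 16048896)) (l 16186528)) (b (l 15997112) (l 16127288))) (a (b (l 16360704) (l 103649572823)) (b (l 16294784) (l 16448648)))) (b (a (b (l 330745468599) (l 1)) (b (l 176663557559) (l 417718823927))) (l 1))))), by decide +kernel⟩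

theorem c_pm_202_b : CertB 1239849684 370763052 0 536870912 740881858 40050571 3 eng mog cd1q2b cd2q0 pd2 true true false .pp 2 0 2
    ndB1q2b ndB2q0 pcB2 cut_pm_202_b Ext.none :=
  certB2 (fam := true) (s1 := true) (s2 := false) (a := 2) (b := 0) (c := 2) (cn := .pp) (n1 := ndB1q2b) (n2 := ndB2q0) (pc := pcB2) (cut := cut_pm_202_b) (xt := Ext.none) (P1 := 1239849684) (W1 := 370763052) (P2 := 0) (W2 := 536870912) (P3 := 740881858) (W3 := 40050571) (N0 := 3) (En := eng) (mo := mog) (C1 := cd1q2b) (C2 := cd2q0) (C3 := pd2)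
    rfl (fun _ => rfl) k0_pm_202_b

noncomputable def f_pm_203_a : ℕ → ℕ → ℕ → ℕ → Bool := onCell 0 536870912 1610612736 536870912 740881858 40050571
    (rowB 3 eng mog cd1q2a cd2q0 pd3 1 true true false .up 2 0 3 (qsf 0 536870912 0 536870912 3) ndB1q2a ndB2q0 pcB3 Cut.none Ext.none)

def k0_pm_203_a : ∃ t, chk3 f_pm_203_a t 1 1 1 = true :=
  ⟨(b (b (a (b (a (l 16635552) (l 16601568)) (a (l 16673064) (l 16641232))) (a (b (l 16543128) (l 16590576)) (b (l 16443184) (l 16516688)))) (a (b (l 16851200) (l 2)) (a (l 2) (l 2)))) (l 2)), by decide +kernel⟩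

theorem c_pm_203_a : CertB 0 536870912 0 536870912 740881858 40050571 3 eng mog cd1q2a cd2q0 pd3 true true false .up 2 0 3
    ndB1q2a ndB2q0 pcB3 Cut.none Ext.none :=
  certB1 (fam := true) (s1 := true) (s2 := false) (a := 2) (b := 0) (c := 3) (cn := .up) (n1 := ndB1q2a) (n2 := ndB2q0) (pc := pcB3) (cut := Cut.none) (xt := Ext.none) (P1 := 0) (W1 := 536870912) (P2 := 0) (W2 := 536870912) (P3 := 740881858) (W3 := 40050571) (N0 := 3) (En := eng) (mo := mog) (C1 := cd1q2a) (C2 := cd2q0) (C3 := pd3)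
    rfl (fun _ => rfl) k0_pm_203_a

noncomputable def f_pm_203_b : ℕ → ℕ → ℕ → ℕ → Bool := onCell 1239849684 370763052 1610612736 536870912 740881858 40050571
    (rowB 3 eng mog cd1q2b cd2q0 pd3 1 true true false .up 2 0 3 (qsf 1239849684 370763052 0 536870912 3) ndB1q2b ndB2q0 pcB3 Cut.none Ext.none)

def k0_pm_203_b : ∃ t, chk3 f_pm_203_b t 1 1 1 = true :=
  ⟨(b (b (a (b (a (l 16615896) (l 16465328)) (a (l 16677336) (l 16551504))) (b (a (l 16264016) (b (l 16008528) (l 16075192))) (a (l 16384032) (l 16179256)))) (b (a (l 4) (a (l 4) (l 16327040))) (l 4))) (l 4)), by decide +kernel⟩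

theorem c_pm_203_b : CertB 1239849684 370763052 0 536870912 740881858 40050571 3 eng mog cd1q2b cd2q0 pd3 true true false .up 2 0 3
    ndB1q2b ndB2q0 pcB3 Cut.none Ext.none :=
  certB1 (fam := true) (s1 := true) (s2 := false) (a := 2) (b := 0) (c := 3) (cn := .up) (n1 := ndB1q2b) (n2 := ndB2q0) (pc := pcB3) (cut := Cut.none) (xt := Ext.none) (P1 := 1239849684) (W1 := 370763052) (P2 := 0) (W2 := 536870912) (P3 := 740881858) (W3 := 40050571) (N0 := 3) (En := eng) (mo := mog) (C1 := cd1q2b) (C2 := cd2q0) (C3 := pd3)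
    rfl (fun _ => rfl) k0_pm_203_b

noncomputable def f_pm_213_a : ℕ → ℕ → ℕ → ℕ → Bool := onCell 0 536870912 1610612736 536870912 740881858 40050571
    (rowB 3 eng mog cd1q2a cd2q1 pd3 1 true true false .pnn 2 1 3 (qsf 0 536870912 536870912 536870912 3) ndB1q2a ndB2q1 pcB3 Cut.none Ext.none)

def k0_pm_213_a : ∃ t, chk3 f_pm_213_a t 1 1 1 = true :=
  ⟨(a (b (b (b (l 1) (a (l 1) (l 16618152))) (b (l 133177750455) (a (l 4) (l 16632840)))) (b (b (l 86134340519) (l 4)) (l 4))) (b (b (a (b (l 1) (l 16610072)) (b (l 16483328) (l 16581664))) (b (a (l 16682064) (a (l 16706112) (l 16770144))) (a (l 16732800) (l 16924296)))) (b (b (a (l 16681752) (l 16844976)) (a (l 86671295607) (b (l 16795936) (l 16747216)))) (b (a (l 4) (b (l 16727520) (l 4))) (l 4))))), by decide +kernel⟩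

theorem c_pm_213_a : CertB 0 536870912 536870912 536870912 740881858 40050571 3 eng mog cd1q2a cd2q1 pd3 true true false .pnn 2 1 3
    ndB1q2a ndB2q1 pcB3 Cut.none Ext.none :=
  certB1 (fam := true) (s1 := true) (s2 := false) (a := 2) (b := 1) (c := 3) (cn := .pnn) (n1 := ndB1q2a) (n2 := ndB2q1) (pc := pcB3) (cut := Cut.none) (xt := Ext.none) (P1 := 0) (W1 := 536870912) (P2 := 536870912) (W2 := 536870912) (P3 := 740881858) (W3 := 40050571) (N0 := 3) (En := eng) (mo := mog) (C1 := cd1q2a) (C2 := cd2q1) (C3 := pd3)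
    rfl (fun _ => rfl) k0_pm_213_a

noncomputable def f_pm_213_b : ℕ → ℕ → ℕ → ℕ → Bool := onCell 1239849684 370763052 536870912 536870912 740881858 40050571
    (rowB 3 eng mog cd1q2b cd2q1 pd3 0 true true false .pnn 2 1 3 (qsf 1239849684 370763052 536870912 536870912 3) ndB1q2b ndB2q1 pcB3 Cut.none Ext.none)

def k0_pm_213_b : ∃ t, chk3 f_pm_213_b t 1 1 1 = true :=
  ⟨(b (l 4) (l 4)), by decide +kernel⟩

theorem c_pm_213_b : CertB 1239849684 370763052 536870912 536870912 740881858 40050571 3 eng mog cd1q2b cd2q1 pd3 true true false .pnn 2 1 3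
    ndB1q2b ndB2q1 pcB3 Cut.none Ext.none :=
  certB0 (fam := true) (s1 := true) (s2 := false) (a := 2) (b := 1) (c := 3) (cn := .pnn) (n1 := ndB1q2b) (n2 := ndB2q1) (pc := pcB3) (cut := Cut.none) (xt := Ext.none) (P1 := 1239849684) (W1 := 370763052) (P2 := 536870912) (W2 := 536870912) (P3 := 740881858) (W3 := 40050571) (N0 := 3) (En := eng) (mo := mog) (C1 := cd1q2b) (C2 := cd2q1) (C3 := pd3)
    rfl k0_pm_213_b

noncomputable def f_pm_303 : ℕ → ℕ → ℕ → ℕ → Bool := onCell 1610612736 536870912 0 536870912 740881858 40050571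
    (rowB 3 eng mog cd1q3 cd2q0 pd3 2 true true false .npn 3 0 3 (qsf 1610612736 536870912 0 536870912 3) ndB1q3 ndB2q0 pcB3 Cut.none Ext.none)

def k0_pm_303 : ∃ t, chk3 f_pm_303 t 1 1 1 = true :=
  ⟨(a (a (b (b (a (b (l 15919064) (l 16085112)) (b (l 15892808) (l 16054584))) (a (l 1) (l 16296328))) (l 1)) (b (a (b (a (l 15974624) (l 15988264)) (l 16284936)) (l 4)) (l 4))) (l 4)), by decide +kernel⟩

theorem c_pm_303 : CertB 1610612736 536870912 0 536870912 740881858 40050571 3 eng mog cd1q3 cd2q0 pd3 true true false .npn 3 0 3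
    ndB1q3 ndB2q0 pcB3 Cut.none Ext.none :=
  certB2 (fam := true) (s1 := true) (s2 := false) (a := 3) (b := 0) (c := 3) (cn := .npn) (n1 := ndB1q3) (n2 := ndB2q0) (pc := pcB3) (cut := Cut.none) (xt := Ext.none) (P1 := 1610612736) (W1 := 536870912) (P2 := 0) (W2 := 536870912) (P3 := 740881858) (W3 := 40050571) (N0 := 3) (En := eng) (mo := mog) (C1 := cd1q3) (C2 := cd2q0) (C3 := pd3)
    rfl (fun _ => rfl) k0_pm_303

noncomputable def f_pm_313 : ℕ → ℕ → ℕ → ℕ → Bool := onCell 1610612736 536870912 536870912 536870912 740881858 40050571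
    (rowB 3 eng mog cd1q3 cd2q1 pd3 0 true true false .dn 3 1 3 (qsf 1610612736 536870912 536870912 536870912 3) ndB1q3 ndB2q1 pcB3 Cut.none Ext.none)

def k0_pm_313 : ∃ t, chk3 f_pm_313 t 1 1 1 = true :=
  ⟨(l 4), by decide +kernel⟩

theorem c_pm_313 : CertB 1610612736 536870912 536870912 536870912 740881858 40050571 3 eng mog cd1q3 cd2q1 pd3 true true false .dn 3 1 3
    ndB1q3 ndB2q1 pcB3 Cut.none Ext.none :=
  certB0 (fam := true) (s1 := true) (s2 := false) (a := 3) (b := 1) (c := 3) (cn := .dn) (n1 := ndB1q3) (n2 := ndB2q1) (pc := pcB3) (cut := Cut.none) (xt := Ext.none) (P1 := 1610612736) (W1 := 536870912) (P2 := 536870912) (W2 := 536870912) (P3 := 740881858) (W3 := 40050571) (N0 := 3) (En := eng) (mo := mog) (C1 := cd1q3) (C2 := cd2q1) (C3 := pd3)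
    rfl k0_pm_313

noncomputable def f_mm_001 : ℕ → ℕ → ℕ → ℕ → Bool := onCell 0 536870912 0 536870912 740881858 40050571
    (rowB 3 eng mog cd1q0 cd2q0 pd1 0 true false false .up 0 0 1 (qsf 0 536870912 0 536870912 1) ndB1q0 ndB2q0 pcB1 Cut.none Ext.none)

def k0_mm_001 : ∃ t, chk3 f_mm_001 t 1 1 1 = true :=
  ⟨(l 4), by decide +kernel⟩

theorem c_mm_001 : CertB 0 536870912 0 536870912 740881858 40050571 3 eng mog cd1q0 cd2q0 pd1 true false false .up 0 0 1
    ndB1q0 ndB2q0 pcB1 Cut.none Ext.none :=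
  certB0 (fam := true) (s1 := false) (s2 := false) (a := 0) (b := 0) (c := 1) (cn := .up) (n1 := ndB1q0) (n2 := ndB2q0) (pc := pcB1) (cut := Cut.none) (xt := Ext.none) (P1 := 0) (W1 := 536870912) (P2 := 0) (W2 := 536870912) (P3 := 740881858) (W3 := 40050571) (N0 := 3) (En := eng) (mo := mog) (C1 := cd1q0) (C2 := cd2q0) (C3 := pd1)
    rfl k0_mm_001

noncomputable def f_mm_011 : ℕ → ℕ → ℕ → ℕ → Bool := onCell 0 536870912 536870912 536870912 740881858 40050571
    (rowB 3 eng mog cd1q0 cd2q1 pd1 0 true false false .pnn 0 1 1 (qsf 0 536870912 536870912 536870912 1) ndB1q0 ndB2q1 pcB1 Cut.none Ext.none)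

def k0_mm_011 : ∃ t, chk3 f_mm_011 t 1 1 1 = true :=
  ⟨(l 4), by decide +kernel⟩

theorem c_mm_011 : CertB 0 536870912 536870912 536870912 740881858 40050571 3 eng mog cd1q0 cd2q1 pd1 true false false .pnn 0 1 1
    ndB1q0 ndB2q1 pcB1 Cut.none Ext.none :=
  certB0 (fam := true) (s1 := false) (s2 := false) (a := 0) (b := 1) (c := 1) (cn := .pnn) (n1 := ndB1q0) (n2 := ndB2q1) (pc := pcB1) (cut := Cut.none) (xt := Ext.none) (P1 := 0) (W1 := 536870912) (P2 := 536870912) (W2 := 536870912) (P3 := 740881858) (W3 := 40050571) (N0 := 3) (En := eng) (mo := mog) (C1 := cd1q0) (C2 := cd2q1) (C3 := pd1)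
    rfl k0_mm_011

noncomputable def f_mm_012 : ℕ → ℕ → ℕ → ℕ → Bool := onCell 0 536870912 536870912 536870912 740881858 40050571
    (rowB 3 eng mog cd1q0 cd2q1 pd2 0 true false false .pnp 0 1 2 (qsf 0 536870912 536870912 536870912 2) ndB1q0 ndB2q1 pcB2 Cut.none Ext.none)

def k0_mm_012 : ∃ t, chk3 f_mm_012 t 1 1 1 = true :=
  ⟨(l 4), by decide +kernel⟩

theorem c_mm_012 : CertB 0 536870912 536870912 536870912 740881858 40050571 3 eng mog cd1q0 cd2q1 pd2 true false false .pnp 0 1 2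
    ndB1q0 ndB2q1 pcB2 Cut.none Ext.none :=
  certB0 (fam := true) (s1 := false) (s2 := false) (a := 0) (b := 1) (c := 2) (cn := .pnp) (n1 := ndB1q0) (n2 := ndB2q1) (pc := pcB2) (cut := Cut.none) (xt := Ext.none) (P1 := 0) (W1 := 536870912) (P2 := 536870912) (W2 := 536870912) (P3 := 740881858) (W3 := 40050571) (N0 := 3) (En := eng) (mo := mog) (C1 := cd1q0) (C2 := cd2q1) (C3 := pd2)
    rfl k0_mm_012

noncomputable def f_mm_022_a : ℕ → ℕ → ℕ → ℕ → Bool := onCell 0 536870912 0 536870912 740881858 40050571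
    (rowB 3 eng mog cd1q0 cd2q2a pd2 0 true false false .pp 0 2 2 (qsf 0 536870912 0 536870912 2) ndB1q0 ndB2q2a pcB2 Cut.none Ext.none)

def k0_mm_022_a : ∃ t, chk3 f_mm_022_a t 1 1 1 = true :=
  ⟨(l 5), by decide +kernel⟩

theorem c_mm_022_a : CertB 0 536870912 0 536870912 740881858 40050571 3 eng mog cd1q0 cd2q2a pd2 true false false .pp 0 2 2
    ndB1q0 ndB2q2a pcB2 Cut.none Ext.none :=
  certB0 (fam := true) (s1 := false) (s2 := false) (a := 0) (b := 2) (c := 2) (cn := .pp) (n1 := ndB1q0) (n2 := ndB2q2a) (pc := pcB2) (cut := Cut.none) (xt := Ext.none) (P1 := 0) (W1 := 536870912) (P2 := 0) (W2 := 536870912) (P3 := 740881858) (W3 := 40050571) (N0 := 3) (En := eng) (mo := mog) (C1 := cd1q0) (C2 := cd2q2a) (C3 := pd2)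
    rfl k0_mm_022_a

noncomputable def f_mm_022_b : ℕ → ℕ → ℕ → ℕ → Bool := onCell 0 536870912 1239849684 370763052 740881858 40050571
    (rowB 3 eng mog cd1q0 cd2q2b pd2 0 true false false .pp 0 2 2 (qsf 0 536870912 1239849684 370763052 2) ndB1q0 ndB2q2b pcB2 Cut.none Ext.none)

def k0_mm_022_b : ∃ t, chk3 f_mm_022_b t 1 1 1 = true :=
  ⟨(l 5), by decide +kernel⟩

theorem c_mm_022_b : CertB 0 536870912 1239849684 370763052 740881858 40050571 3 eng mog cd1q0 cd2q2b pd2 true false false .pp 0 2 2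
    ndB1q0 ndB2q2b pcB2 Cut.none Ext.none :=
  certB0 (fam := true) (s1 := false) (s2 := false) (a := 0) (b := 2) (c := 2) (cn := .pp) (n1 := ndB1q0) (n2 := ndB2q2b) (pc := pcB2) (cut := Cut.none) (xt := Ext.none) (P1 := 0) (W1 := 536870912) (P2 := 1239849684) (W2 := 370763052) (P3 := 740881858) (W3 := 40050571) (N0 := 3) (En := eng) (mo := mog) (C1 := cd1q0) (C2 := cd2q2b) (C3 := pd2)
    rfl k0_mm_022_b

noncomputable def f_mm_023_a : ℕ → ℕ → ℕ → ℕ → Bool := onCell 0 536870912 0 536870912 740881858 40050571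
    (rowB 3 eng mog cd1q0 cd2q2a pd3 0 true false false .up 0 2 3 (qsf 0 536870912 0 536870912 3) ndB1q0 ndB2q2a pcB3 Cut.none Ext.none)

def k0_mm_023_a : ∃ t, chk3 f_mm_023_a t 1 1 1 = true :=
  ⟨(l 5), by decide +kernel⟩

theorem c_mm_023_a : CertB 0 536870912 0 536870912 740881858 40050571 3 eng mog cd1q0 cd2q2a pd3 true false false .up 0 2 3
    ndB1q0 ndB2q2a pcB3 Cut.none Ext.none :=
  certB0 (fam := true) (s1 := false) (s2 := false) (a := 0) (b := 2) (c := 3) (cn := .up) (n1 := ndB1q0) (n2 := ndB2q2a) (pc := pcB3) (cut := Cut.none) (xt := Ext.none) (P1 := 0) (W1 := 536870912) (P2 := 0) (W2 := 536870912) (P3 := 740881858) (W3 := 40050571) (N0 := 3) (En := eng) (mo := mog) (C1 := cd1q0) (C2 := cd2q2a) (C3 := pd3)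
    rfl k0_mm_023_a

noncomputable def f_mm_023_b : ℕ → ℕ → ℕ → ℕ → Bool := onCell 0 536870912 1239849684 370763052 740881858 40050571
    (rowB 3 eng mog cd1q0 cd2q2b pd3 0 true false false .up 0 2 3 (qsf 0 536870912 1239849684 370763052 3) ndB1q0 ndB2q2b pcB3 Cut.none Ext.none)

def k0_mm_023_b : ∃ t, chk3 f_mm_023_b t 1 1 1 = true :=
  ⟨(l 5), by decide +kernel⟩

theorem c_mm_023_b : CertB 0 536870912 1239849684 370763052 740881858 40050571 3 eng mog cd1q0 cd2q2b pd3 true false false .up 0 2 3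
    ndB1q0 ndB2q2b pcB3 Cut.none Ext.none :=
  certB0 (fam := true) (s1 := false) (s2 := false) (a := 0) (b := 2) (c := 3) (cn := .up) (n1 := ndB1q0) (n2 := ndB2q2b) (pc := pcB3) (cut := Cut.none) (xt := Ext.none) (P1 := 0) (W1 := 536870912) (P2 := 1239849684) (W2 := 370763052) (P3 := 740881858) (W3 := 40050571) (N0 := 3) (En := eng) (mo := mog) (C1 := cd1q0) (C2 := cd2q2b) (C3 := pd3)
    rfl k0_mm_023_b

noncomputable def f_mm_033 : ℕ → ℕ → ℕ → ℕ → Bool := onCell 0 536870912 1610612736 536870912 740881858 40050571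
    (rowB 3 eng mog cd1q0 cd2q3 pd3 0 true false false .pnn 0 3 3 (qsf 0 536870912 1610612736 536870912 3) ndB1q0 ndB2q3 pcB3 Cut.none Ext.none)

def k0_mm_033 : ∃ t, chk3 f_mm_033 t 1 1 1 = true :=
  ⟨(l 5), by decide +kernel⟩

theorem c_mm_033 : CertB 0 536870912 1610612736 536870912 740881858 40050571 3 eng mog cd1q0 cd2q3 pd3 true false false .pnn 0 3 3
    ndB1q0 ndB2q3 pcB3 Cut.none Ext.none :=
  certB0 (fam := true) (s1 := false) (s2 := false) (a := 0) (b := 3) (c := 3) (cn := .pnn) (n1 := ndB1q0) (n2 := ndB2q3) (pc := pcB3) (cut := Cut.none) (xt := Ext.none) (P1 := 0) (W1 := 536870912) (P2 := 1610612736) (W2 := 536870912) (P3 := 740881858) (W3 := 40050571) (N0 := 3) (En := eng) (mo := mog) (C1 := cd1q0) (C2 := cd2q3) (C3 := pd3)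
    rfl k0_mm_033

noncomputable def f_mm_101 : ℕ → ℕ → ℕ → ℕ → Bool := onCell 536870912 536870912 0 536870912 740881858 40050571
    (rowB 3 eng mog cd1q1 cd2q0 pd1 0 true false false .npn 1 0 1 (qsf 536870912 536870912 0 536870912 1) ndB1q1 ndB2q0 pcB1 Cut.none Ext.none)

def k0_mm_101 : ∃ t, chk3 f_mm_101 t 1 1 1 = true :=
  ⟨(l 4), by decide +kernel⟩

theorem c_mm_101 : CertB 536870912 536870912 0 536870912 740881858 40050571 3 eng mog cd1q1 cd2q0 pd1 true false false .npn 1 0 1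
    ndB1q1 ndB2q0 pcB1 Cut.none Ext.none :=
  certB0 (fam := true) (s1 := false) (s2 := false) (a := 1) (b := 0) (c := 1) (cn := .npn) (n1 := ndB1q1) (n2 := ndB2q0) (pc := pcB1) (cut := Cut.none) (xt := Ext.none) (P1 := 536870912) (W1 := 536870912) (P2 := 0) (W2 := 536870912) (P3 := 740881858) (W3 := 40050571) (N0 := 3) (En := eng) (mo := mog) (C1 := cd1q1) (C2 := cd2q0) (C3 := pd1)
    rfl k0_mm_101

noncomputable def f_mm_102 : ℕ → ℕ → ℕ → ℕ → Bool := onCell 536870912 536870912 0 536870912 740881858 40050571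
    (rowB 3 eng mog cd1q1 cd2q0 pd2 0 true false false .npp 1 0 2 (qsf 536870912 536870912 0 536870912 2) ndB1q1 ndB2q0 pcB2 Cut.none Ext.none)

def k0_mm_102 : ∃ t, chk3 f_mm_102 t 1 1 1 = true :=
  ⟨(l 4), by decide +kernel⟩

theorem c_mm_102 : CertB 536870912 536870912 0 536870912 740881858 40050571 3 eng mog cd1q1 cd2q0 pd2 true false false .npp 1 0 2
    ndB1q1 ndB2q0 pcB2 Cut.none Ext.none :=
  certB0 (fam := true) (s1 := false) (s2 := false) (a := 1) (b := 0) (c := 2) (cn := .npp) (n1 := ndB1q1) (n2 := ndB2q0) (pc := pcB2) (cut := Cut.none) (xt := Ext.none) (P1 := 536870912) (W1 := 536870912) (P2 := 0) (W2 := 536870912) (P3 := 740881858) (W3 := 40050571) (N0 := 3) (En := eng) (mo := mog) (C1 := cd1q1) (C2 := cd2q0) (C3 := pd2)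
    rfl k0_mm_102

noncomputable def f_mm_112 : ℕ → ℕ → ℕ → ℕ → Bool := onCell 536870912 536870912 536870912 536870912 740881858 40050571
    (rowB 3 eng mog cd1q1 cd2q1 pd2 0 true false false .dn 1 1 2 (qsf 536870912 536870912 536870912 536870912 2) ndB1q1 ndB2q1 pcB2 Cut.none Ext.none)

def k0_mm_112 : ∃ t, chk3 f_mm_112 t 1 1 1 = true :=
  ⟨(l 4), by decide +kernel⟩

theorem c_mm_112 : CertB 536870912 536870912 536870912 536870912 740881858 40050571 3 eng mog cd1q1 cd2q1 pd2 true false false .dn 1 1 2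
    ndB1q1 ndB2q1 pcB2 Cut.none Ext.none :=
  certB0 (fam := true) (s1 := false) (s2 := false) (a := 1) (b := 1) (c := 2) (cn := .dn) (n1 := ndB1q1) (n2 := ndB2q1) (pc := pcB2) (cut := Cut.none) (xt := Ext.none) (P1 := 536870912) (W1 := 536870912) (P2 := 536870912) (W2 := 536870912) (P3 := 740881858) (W3 := 40050571) (N0 := 3) (En := eng) (mo := mog) (C1 := cd1q1) (C2 := cd2q1) (C3 := pd2)
    rfl k0_mm_112

noncomputable def f_mm_113 : ℕ → ℕ → ℕ → ℕ → Bool := onCell 536870912 536870912 536870912 536870912 740881858 40050571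
    (rowB 3 eng mog cd1q1 cd2q1 pd3 0 true false false .nn 1 1 3 (qsf 536870912 536870912 536870912 536870912 3) ndB1q1 ndB2q1 pcB3 Cut.none Ext.none)

def k0_mm_113 : ∃ t, chk3 f_mm_113 t 1 1 1 = true :=
  ⟨(l 4), by decide +kernel⟩

theorem c_mm_113 : CertB 536870912 536870912 536870912 536870912 740881858 40050571 3 eng mog cd1q1 cd2q1 pd3 true false false .nn 1 1 3
    ndB1q1 ndB2q1 pcB3 Cut.none Ext.none :=
  certB0 (fam := true) (s1 := false) (s2 := false) (a := 1) (b := 1) (c := 3) (cn := .nn) (n1 := ndB1q1) (n2 := ndB2q1) (pc := pcB3) (cut := Cut.none) (xt := Ext.none) (P1 := 536870912) (W1 := 536870912) (P2 := 536870912) (W2 := 536870912) (P3 := 740881858) (W3 := 40050571) (N0 := 3) (En := eng) (mo := mog) (C1 := cd1q1) (C2 := cd2q1) (C3 := pd3)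
    rfl k0_mm_113

noncomputable def f_mm_123_a : ℕ → ℕ → ℕ → ℕ → Bool := onCell 536870912 536870912 0 536870912 740881858 40050571
    (rowB 3 eng mog cd1q1 cd2q2a pd3 0 true false false .npn 1 2 3 (qsf 536870912 536870912 0 536870912 3) ndB1q1 ndB2q2a pcB3 Cut.none Ext.none)

def k0_mm_123_a : ∃ t, chk3 f_mm_123_a t 1 1 1 = true :=
  ⟨(l 4), by decide +kernel⟩

theorem c_mm_123_a : CertB 536870912 536870912 0 536870912 740881858 40050571 3 eng mog cd1q1 cd2q2a pd3 true false false .npn 1 2 3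
    ndB1q1 ndB2q2a pcB3 Cut.none Ext.none :=
  certB0 (fam := true) (s1 := false) (s2 := false) (a := 1) (b := 2) (c := 3) (cn := .npn) (n1 := ndB1q1) (n2 := ndB2q2a) (pc := pcB3) (cut := Cut.none) (xt := Ext.none) (P1 := 536870912) (W1 := 536870912) (P2 := 0) (W2 := 536870912) (P3 := 740881858) (W3 := 40050571) (N0 := 3) (En := eng) (mo := mog) (C1 := cd1q1) (C2 := cd2q2a) (C3 := pd3)
    rfl k0_mm_123_a

noncomputable def f_mm_123_b : ℕ → ℕ → ℕ → ℕ → Bool := onCell 536870912 536870912 1239849684 370763052 740881858 40050571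
    (rowB 3 eng mog cd1q1 cd2q2b pd3 0 true false false .npn 1 2 3 (qsf 536870912 536870912 1239849684 370763052 3) ndB1q1 ndB2q2b pcB3 Cut.none Ext.none)

def k0_mm_123_b : ∃ t, chk3 f_mm_123_b t 1 1 1 = true :=
  ⟨(l 4), by decide +kernel⟩

theorem c_mm_123_b : CertB 536870912 536870912 1239849684 370763052 740881858 40050571 3 eng mog cd1q1 cd2q2b pd3 true false false .npn 1 2 3
    ndB1q1 ndB2q2b pcB3 Cut.none Ext.none :=
  certB0 (fam := true) (s1 := false) (s2 := false) (a := 1) (b := 2) (c := 3) (cn := .npn) (n1 := ndB1q1) (n2 := ndB2q2b) (pc := pcB3) (cut := Cut.none) (xt := Ext.none) (P1 := 536870912) (W1 := 536870912) (P2 := 1239849684) (W2 := 370763052) (P3 := 740881858) (W3 := 40050571) (N0 := 3) (En := eng) (mo := mog) (C1 := cd1q1) (C2 := cd2q2b) (C3 := pd3)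
    rfl k0_mm_123_b

noncomputable def f_mm_133 : ℕ → ℕ → ℕ → ℕ → Bool := onCell 536870912 536870912 1610612736 536870912 740881858 40050571
    (rowB 3 eng mog cd1q1 cd2q3 pd3 0 true false false .dn 1 3 3 (qsf 536870912 536870912 1610612736 536870912 3) ndB1q1 ndB2q3 pcB3 Cut.none Ext.none)

def k0_mm_133 : ∃ t, chk3 f_mm_133 t 1 1 1 = true :=
  ⟨(l 4), by decide +kernel⟩

theorem c_mm_133 : CertB 536870912 536870912 1610612736 536870912 740881858 40050571 3 eng mog cd1q1 cd2q3 pd3 true false false .dn 1 3 3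
    ndB1q1 ndB2q3 pcB3 Cut.none Ext.none :=
  certB0 (fam := true) (s1 := false) (s2 := false) (a := 1) (b := 3) (c := 3) (cn := .dn) (n1 := ndB1q1) (n2 := ndB2q3) (pc := pcB3) (cut := Cut.none) (xt := Ext.none) (P1 := 536870912) (W1 := 536870912) (P2 := 1610612736) (W2 := 536870912) (P3 := 740881858) (W3 := 40050571) (N0 := 3) (En := eng) (mo := mog) (C1 := cd1q1) (C2 := cd2q3) (C3 := pd3)
    rfl k0_mm_133

noncomputable def cut_mm_202_a : Cut := Cut.of [[⟨0, 1, 0, 67108864⟩, ⟨1, 0, 0, 67108864⟩, ⟨2, 1, 0, 67108864⟩]]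

noncomputable def f_mm_202_a : ℕ → ℕ → ℕ → ℕ → Bool := onCell 0 536870912 0 536870912 740881858 40050571
    (rowB 3 eng mog cd1q2a cd2q0 pd2 0 true false false .pp 2 0 2 (qsf 0 536870912 0 536870912 2) ndB1q2a ndB2q0 pcB2 cut_mm_202_a Ext.none)

def k0_mm_202_a : ∃ t, chk3 f_mm_202_a t 2 2 1 = true :=
  ⟨(b (b (a (a (b (b (c (l 16446096) (l 16448384)) (l 16467704)) (l 16483192)) (b (b (b (a (l 16458448) (l 16464960)) (l 16559776)) (l 16473608)) (l 16511008))) (b (b (a (a (b (l 16475016) (l 16475304)) (b (l 16488152) (a (l 16483376) (l 16490536)))) (a (c (l 16518480) (b (l 16501784) (l 16509152))) (a (b (l 16517288) (l 16516360)) (b (l 16485240) (l 16526296))))) (a (a (l 16482600) (b (l 16489168) (l 16494288))) (a (b (c (l 16498048) (l 16508776)) (l 16526960)) (b (l 16521320) (a (l 16517464) (l 16527096)))))) (b (a (l 16498144) (a (l 16514016) (b (l 16557232) (l 16530968)))) (a (l 16509520) (l 16553296))))) (a (b (a (l 16503936) (l 16512360)) (l 16530264))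 (b (a (l 16527760) (b (l 16544608) (l 16557352))) (a (l 16553056) (b (l 16570608) (l 16585360)))))) (b (a (b (l 16551808) (l 16574048)) (a (b (l 16577896) (l 16605696)) (b (l 16609696) (l 4)))) (a (b (l 16599536) (l 16628264)) (l 4)))), by decide +kernel⟩

def k1_mm_202_a : ∃ t, chk3 f_mm_202_a t 6 4 1 = true :=
  ⟨(b (b (a (c (b (a (b (a (l 16533360) (l 16545040)) (l 16538896)) (b (a (l 16557872) (l 16570464)) (l 16564672))) (a (l 16539896) (b (l 16565168) (l 16524480)))) (b (a (b (a (l 16532608) (l 16542768)) (l 16546920)) (b (a (l 16553048) (l 16563368)) (l 16571128))) (a (l 16546440) (b (l 16570680) (l 16570952))))) (a (b (b (c (a (l 16580576) (l 16591200)) (b (a (l 16549480) (l 16560608)) (l 16583456))) (a (l 16568320) (l 16581656))) (b (c (l 16595200) (l 16599480)) (c (l 16596504) (l 16599832)))) (b (b (b (a (c (l 16577696) (l 16572144)) (c (l 16589240) (l 16584064))) (a (l 16603440) (l 16615328))) (a (l 16598568) (c (l 16628488) (l 16624216)))) (b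 (c (l 16628864) (l 16632272)) (c (l 16630200) (l 16632688)))))) (a (b (a (a (b (l 16539576) (l 16501648)) (b (l 16550712) (l 16490736))) (b (l 16570064) (a (l 16502688) (l 16579312)))) (c (a (l 16555584) (b (a (l 16568816) (l 16582152)) (l 16538888))) (a (l 16557744) (l 16600104)))) (b (a (c (l 16599784) (l 16601624)) (a (l 16624976) (l 16642616))) (a (a (a (l 16595208) (l 16602600)) (l 16551352)) (a (l 16630928) (l 16649888)))))) (a (a (b (l 16574520) (l 16604520)) (b (b (l 16568032) (l 16539112)) (l 16671448))) (b (b (a (b (a (l 16605928) (l 16537312)) (l 16599120)) (b (a (l 16576376) (l 4)) (l 4))) (a (l 16548520) (l 4))) (l 4)))), by decide +kernel⟩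

def k2_mm_202_a : ∃ t, chk3 f_mm_202_a t 7 4 1 = true :=
  ⟨(b (a (b (b (b (b (a (c (a (l 16601264) (a (l 16632456) (l 16641312))) (a (l 16596360) (a (l 16627840) (l 16637144)))) (l 6)) (a (a (c (l 16608888) (l 16625304)) (a (l 16617176) (l 16626304))) (a (a (c (l 16658376) (l 16654984)) (l 6)) (l 6)))) (a (a (c (l 16640992) (l 16636992)) (b (l 16661000) (l 16658144))) (a (b (c (l 16649912) (l 16647080)) (l 16677240)) (b (l 6) (l 16708128))))) (b (a (a (l 16653712) (l 16669304)) (a (l 16699024) (b (l 16705088) (l 16705376)))) (a (a (l 16658760) (l 16676080)) (a (l 16690976) (a (l 16702832) (l 16711912)))))) (b (a (b (a (l 16660336) (l 16677744)) (a (l 16662696) (l 16682048))) (b (a (l 16694464) (l 4)) (l 4))) (a (a (l 16671304) (l 4)) (l 4)))) (b (a (b (l 6) (a (b (l 6) (a (l 16722032) (l 4))) (l 6))) (l 6)) (l 4))) (l 4)), by decide +kernel⟩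

def k3_mm_202_a : ∃ t, chk3 f_mm_202_a t 3 5 1 = true :=
  ⟨(l 4), by decide +kernel⟩

def k4_mm_202_a : ∃ t, chk3 f_mm_202_a t 1 3 1 = true :=
  ⟨(a (b (a (b (b (l 16658056) (l 4)) (l 4)) (l 4)) (l 4)) (l 4)), by decide +kernel⟩

theorem s5_mm_202_a : ∃ t, chk3 f_mm_202_a t 3 4 1 = true := ex3_a k1_mm_202_a k2_mm_202_a

theorem s6_mm_202_a : ∃ t, chk3 f_mm_202_a t 3 2 1 = true := ex3_b s5_mm_202_a k3_mm_202_a

theorem s7_mm_202_a : ∃ t, chk3 f_mm_202_a t 1 2 1 = true := ex3_a k0_mm_202_a s6_mm_202_a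

theorem s8_mm_202_a : ∃ t, chk3 f_mm_202_a t 1 1 1 = true := ex3_b s7_mm_202_a k4_mm_202_a

theorem c_mm_202_a : CertB 0 536870912 0 536870912 740881858 40050571 3 eng mog cd1q2a cd2q0 pd2 true false false .pp 2 0 2
    ndB1q2a ndB2q0 pcB2 cut_mm_202_a Ext.none :=
  certB0 (fam := true) (s1 := false) (s2 := false) (a := 2) (b := 0) (c := 2) (cn := .pp) (n1 := ndB1q2a) (n2 := ndB2q0) (pc := pcB2) (cut := cut_mm_202_a) (xt := Ext.none) (P1 := 0) (W1 := 536870912) (P2 := 0) (W2 := 536870912) (P3 := 740881858) (W3 := 40050571) (N0 := 3) (En := eng) (mo := mog) (C1 := cd1q2a) (C2 := cd2q0) (C3 := pd2)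
    rfl s8_mm_202_a

noncomputable def cut_mm_202_b : Cut := Cut.of [[⟨0, 1, 0, 67108864⟩, ⟨1, 0, 0, 67108864⟩, ⟨2, 1, 0, 67108864⟩]]

noncomputable def f_mm_202_b : ℕ → ℕ → ℕ → ℕ → Bool := onCell 1073741824 536870912 0 536870912 740881858 40050571
    (rowB 3 eng mog cd1q2b cd2q0 pd2 2 true false false .pp 2 0 2 (qsf 1239849684 370763052 0 536870912 2) ndB1q2b ndB2q0 pcB2 cut_mm_202_b Ext.none)

def k0_mm_202_b : ∃ t, chk3 f_mm_202_b t 1 1 1 = true :=
  ⟨(a (a (l 1) (b (b (a (b (a (a (l 1) (a (l 1) (b (l 313565275751) (l 1)))) (b (b (a (l 16453560) (l 16408264)) (l 245919565431)) (l 342019432695))) (l 1)) (a (b (b (c (l 16380184) (l 16358256)) (l 16390744)) (b (l 336113924711) (l 1))) (b (b (b (l 16284528) (l 16315280)) (l 16392888)) (b (l 16495232) (l 310881441559))))) (l 1)) (l 1))) (a (b (b (a (a (b (b (l 16215944) (l 16318240)) (l 16469768)) (b (b (l 16149472) (l 16250488)) (l 16400856))) (b (b (l 16145464) (l 16223224)) (l 16476048))) (a (b (a (l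 335577537399) (l 237867035895)) (l 1)) (b (a (l 16526064) (l 16467856)) (a (l 463352789223) (l 362421050615))))) (l 1)) (b (a (b (b (a (l 16034216) (l 15989512)) (a (l 16226656) (l 16178576))) (b (l 16387952) (a (l 16575136) (l 16532968)))) (b (b (a (l 15949016) (l 15911288)) (a (l 16134720) (l 16093600))) (a (l 16510480) (l 16362632)))) (a (b (b (a (l 404833626919) (l 345241185799)) (l 1)) (l 1)) (l 4))))), by decide +kernel⟩

theorem c_mm_202_b : CertB 1239849684 370763052 0 536870912 740881858 40050571 3 eng mog cd1q2b cd2q0 pd2 true false false .pp 2 0 2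
    ndB1q2b ndB2q0 pcB2 cut_mm_202_b Ext.none :=
  certB2 (fam := true) (s1 := false) (s2 := false) (a := 2) (b := 0) (c := 2) (cn := .pp) (n1 := ndB1q2b) (n2 := ndB2q0) (pc := pcB2) (cut := cut_mm_202_b) (xt := Ext.none) (P1 := 1239849684) (W1 := 370763052) (P2 := 0) (W2 := 536870912) (P3 := 740881858) (W3 := 40050571) (N0 := 3) (En := eng) (mo := mog) (C1 := cd1q2b) (C2 := cd2q0) (C3 := pd2)
    rfl (fun _ => rfl) k0_mm_202_b

noncomputable def f_mm_203_a : ℕ → ℕ → ℕ → ℕ → Bool := onCell 0 536870912 1610612736 536870912 740881858 40050571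
    (rowB 3 eng mog cd1q2a cd2q0 pd3 1 true false false .up 2 0 3 (qsf 0 536870912 0 536870912 3) ndB1q2a ndB2q0 pcB3 Cut.none Ext.none)

def k0_mm_203_a : ∃ t, chk3 f_mm_203_a t 1 1 1 = true :=
  ⟨(b (l 4) (l 2)), by decide +kernel⟩

theorem c_mm_203_a : CertB 0 536870912 0 536870912 740881858 40050571 3 eng mog cd1q2a cd2q0 pd3 true false false .up 2 0 3
    ndB1q2a ndB2q0 pcB3 Cut.none Ext.none :=
  certB1 (fam := true) (s1 := false) (s2 := false) (a := 2) (b := 0) (c := 3) (cn := .up) (n1 := ndB1q2a) (n2 := ndB2q0) (pc := pcB3) (cut := Cut.none) (xt := Ext.none) (P1 := 0) (W1 := 536870912) (P2 := 0) (W2 := 536870912) (P3 := 740881858) (W3 := 40050571) (N0 := 3) (En := eng) (mo := mog) (C1 := cd1q2a) (C2 := cd2q0) (C3 := pd3)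
    rfl (fun _ => rfl) k0_mm_203_a

noncomputable def f_mm_203_b : ℕ → ℕ → ℕ → ℕ → Bool := onCell 1239849684 370763052 1610612736 536870912 740881858 40050571
    (rowB 3 eng mog cd1q2b cd2q0 pd3 1 true false false .up 2 0 3 (qsf 1239849684 370763052 0 536870912 3) ndB1q2b ndB2q0 pcB3 Cut.none Ext.none)

def k0_mm_203_b : ∃ t, chk3 f_mm_203_b t 1 1 1 = true :=
  ⟨(b (b (a (l 4) (b (a (b (l 16205512) (l 4)) (b (l 15957384) (l 16017216))) (l 4))) (l 4)) (l 4)), by decide +kernel⟩

theorem c_mm_203_b : CertB 1239849684 370763052 0 536870912 740881858 40050571 3 eng mog cd1q2b cd2q0 pd3 true false false .up 2 0 3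
    ndB1q2b ndB2q0 pcB3 Cut.none Ext.none :=
  certB1 (fam := true) (s1 := false) (s2 := false) (a := 2) (b := 0) (c := 3) (cn := .up) (n1 := ndB1q2b) (n2 := ndB2q0) (pc := pcB3) (cut := Cut.none) (xt := Ext.none) (P1 := 1239849684) (W1 := 370763052) (P2 := 0) (W2 := 536870912) (P3 := 740881858) (W3 := 40050571) (N0 := 3) (En := eng) (mo := mog) (C1 := cd1q2b) (C2 := cd2q0) (C3 := pd3)
    rfl (fun _ => rfl) k0_mm_203_b

noncomputable def f_mm_213_a : ℕ → ℕ → ℕ → ℕ → Bool := onCell 0 536870912 536870912 536870912 740881858 40050571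
    (rowB 3 eng mog cd1q2a cd2q1 pd3 0 true false false .pnn 2 1 3 (qsf 0 536870912 536870912 536870912 3) ndB1q2a ndB2q1 pcB3 Cut.none Ext.none)

def k0_mm_213_a : ∃ t, chk3 f_mm_213_a t 1 1 1 = true :=
  ⟨(l 4), by decide +kernel⟩

theorem c_mm_213_a : CertB 0 536870912 536870912 536870912 740881858 40050571 3 eng mog cd1q2a cd2q1 pd3 true false false .pnn 2 1 3
    ndB1q2a ndB2q1 pcB3 Cut.none Ext.none :=
  certB0 (fam := true) (s1 := false) (s2 := false) (a := 2) (b := 1) (c := 3) (cn := .pnn) (n1 := ndB1q2a) (n2 := ndB2q1) (pc := pcB3) (cut := Cut.none) (xt := Ext.none) (P1 := 0) (W1 := 536870912) (P2 := 536870912) (W2 := 536870912) (P3 := 740881858) (W3 := 40050571) (N0 := 3) (En := eng) (mo := mog) (C1 := cd1q2a) (C2 := cd2q1) (C3 := pd3)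
    rfl k0_mm_213_a

noncomputable def f_mm_213_b : ℕ → ℕ → ℕ → ℕ → Bool := onCell 1239849684 370763052 536870912 536870912 740881858 40050571
    (rowB 3 eng mog cd1q2b cd2q1 pd3 0 true false false .pnn 2 1 3 (qsf 1239849684 370763052 536870912 536870912 3) ndB1q2b ndB2q1 pcB3 Cut.none Ext.none)

def k0_mm_213_b : ∃ t, chk3 f_mm_213_b t 1 1 1 = true :=
  ⟨(l 4), by decide +kernel⟩

theorem c_mm_213_b : CertB 1239849684 370763052 536870912 536870912 740881858 40050571 3 eng mog cd1q2b cd2q1 pd3 true false false .pnn 2 1 3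
    ndB1q2b ndB2q1 pcB3 Cut.none Ext.none :=
  certB0 (fam := true) (s1 := false) (s2 := false) (a := 2) (b := 1) (c := 3) (cn := .pnn) (n1 := ndB1q2b) (n2 := ndB2q1) (pc := pcB3) (cut := Cut.none) (xt := Ext.none) (P1 := 1239849684) (W1 := 370763052) (P2 := 536870912) (W2 := 536870912) (P3 := 740881858) (W3 := 40050571) (N0 := 3) (En := eng) (mo := mog) (C1 := cd1q2b) (C2 := cd2q1) (C3 := pd3)
    rfl k0_mm_213_b

noncomputable def f_mm_303 : ℕ → ℕ → ℕ → ℕ → Bool := onCell 1610612736 536870912 0 536870912 740881858 40050571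
    (rowB 3 eng mog cd1q3 cd2q0 pd3 2 true false false .npn 3 0 3 (qsf 1610612736 536870912 0 536870912 3) ndB1q3 ndB2q0 pcB3 Cut.none Ext.none)

def k0_mm_303 : ∃ t, chk3 f_mm_303 t 1 1 1 = true :=
  ⟨(a (a (b (b (a (a (b (l 15885152) (l 1)) (l 16118304)) (b (l 15846192) (l 4))) (l 4)) (l 1)) (l 4)) (l 4)), by decide +kernel⟩

theorem c_mm_303 : CertB 1610612736 536870912 0 536870912 740881858 40050571 3 eng mog cd1q3 cd2q0 pd3 true false false .npn 3 0 3
    ndB1q3 ndB2q0 pcB3 Cut.none Ext.none :=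
  certB2 (fam := true) (s1 := false) (s2 := false) (a := 3) (b := 0) (c := 3) (cn := .npn) (n1 := ndB1q3) (n2 := ndB2q0) (pc := pcB3) (cut := Cut.none) (xt := Ext.none) (P1 := 1610612736) (W1 := 536870912) (P2 := 0) (W2 := 536870912) (P3 := 740881858) (W3 := 40050571) (N0 := 3) (En := eng) (mo := mog) (C1 := cd1q3) (C2 := cd2q0) (C3 := pd3)
    rfl (fun _ => rfl) k0_mm_303

noncomputable def f_mm_313 : ℕ → ℕ → ℕ → ℕ → Bool := onCell 1610612736 536870912 536870912 536870912 740881858 40050571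
    (rowB 3 eng mog cd1q3 cd2q1 pd3 0 true false false .dn 3 1 3 (qsf 1610612736 536870912 536870912 536870912 3) ndB1q3 ndB2q1 pcB3 Cut.none Ext.none)

def k0_mm_313 : ∃ t, chk3 f_mm_313 t 1 1 1 = true :=
  ⟨(l 4), by decide +kernel⟩

theorem c_mm_313 : CertB 1610612736 536870912 536870912 536870912 740881858 40050571 3 eng mog cd1q3 cd2q1 pd3 true false false .dn 3 1 3
    ndB1q3 ndB2q1 pcB3 Cut.none Ext.none :=
  certB0 (fam := true) (s1 := false) (s2 := false) (a := 3) (b := 1) (c := 3) (cn := .dn) (n1 := ndB1q3) (n2 := ndB2q1) (pc := pcB3) (cut := Cut.none) (xt := Ext.none) (P1 := 1610612736) (W1 := 536870912) (P2 := 536870912) (W2 := 536870912) (P3 := 740881858) (W3 := 40050571) (N0 := 3) (En := eng) (mo := mog) (C1 := cd1q3) (C2 := cd2q1) (C3 := pd3)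
    rfl k0_mm_313

end Pool.Agent.Strip051.G.I69_7273.Tab.C.BA12

namespace Pool.Agent.Strip051.G.I69_7273.Tab.C.BA13

open Pool.Agent.Strip051.PB Pool.Agent.Strip051.PB.T
open Pool.Agent.Strip051.G.I69_7273.Tab

noncomputable def f_pp_001 : ℕ → ℕ → ℕ → ℕ → Bool := onCell 0 536870912 0 536870912 740881858 40050571
    (rowB 3 eng mog cd1q0 cd3q0 pd1 0 true true true .up 0 0 1 (qsf 0 536870912 0 536870912 1) ndB1q0 ndB3q0 pcB1 Cut.none Ext.none)

def k0_pp_001 : ∃ t, chk3 f_pp_001 t 1 1 1 = true :=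
  ⟨(l 4), by decide +kernel⟩

theorem c_pp_001 : CertB 0 536870912 0 536870912 740881858 40050571 3 eng mog cd1q0 cd3q0 pd1 true true true .up 0 0 1
    ndB1q0 ndB3q0 pcB1 Cut.none Ext.none :=
  certB0 (fam := true) (s1 := true) (s2 := true) (a := 0) (b := 0) (c := 1) (cn := .up) (n1 := ndB1q0) (n2 := ndB3q0) (pc := pcB1) (cut := Cut.none) (xt := Ext.none) (P1 := 0) (W1 := 536870912) (P2 := 0) (W2 := 536870912) (P3 := 740881858) (W3 := 40050571) (N0 := 3) (En := eng) (mo := mog) (C1 := cd1q0) (C2 := cd3q0) (C3 := pd1)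
    rfl k0_pp_001

noncomputable def f_pp_011 : ℕ → ℕ → ℕ → ℕ → Bool := onCell 0 536870912 536870912 536870912 740881858 40050571
    (rowB 3 eng mog cd1q0 cd3q1 pd1 0 true true true .pnn 0 1 1 (qsf 0 536870912 536870912 536870912 1) ndB1q0 ndB3q1 pcB1 Cut.none Ext.none)

def k0_pp_011 : ∃ t, chk3 f_pp_011 t 1 1 1 = true :=
  ⟨(l 4), by decide +kernel⟩

theorem c_pp_011 : CertB 0 536870912 536870912 536870912 740881858 40050571 3 eng mog cd1q0 cd3q1 pd1 true true true .pnn 0 1 1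
    ndB1q0 ndB3q1 pcB1 Cut.none Ext.none :=
  certB0 (fam := true) (s1 := true) (s2 := true) (a := 0) (b := 1) (c := 1) (cn := .pnn) (n1 := ndB1q0) (n2 := ndB3q1) (pc := pcB1) (cut := Cut.none) (xt := Ext.none) (P1 := 0) (W1 := 536870912) (P2 := 536870912) (W2 := 536870912) (P3 := 740881858) (W3 := 40050571) (N0 := 3) (En := eng) (mo := mog) (C1 := cd1q0) (C2 := cd3q1) (C3 := pd1)
    rfl k0_pp_011

noncomputable def f_pp_012 : ℕ → ℕ → ℕ → ℕ → Bool := onCell 0 536870912 536870912 536870912 740881858 40050571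
    (rowB 3 eng mog cd1q0 cd3q1 pd2 0 true true true .pnp 0 1 2 (qsf 0 536870912 536870912 536870912 2) ndB1q0 ndB3q1 pcB2 Cut.none Ext.none)

def k0_pp_012 : ∃ t, chk3 f_pp_012 t 1 1 1 = true :=
  ⟨(l 4), by decide +kernel⟩

theorem c_pp_012 : CertB 0 536870912 536870912 536870912 740881858 40050571 3 eng mog cd1q0 cd3q1 pd2 true true true .pnp 0 1 2
    ndB1q0 ndB3q1 pcB2 Cut.none Ext.none :=
  certB0 (fam := true) (s1 := true) (s2 := true) (a := 0) (b := 1) (c := 2) (cn := .pnp) (n1 := ndB1q0) (n2 := ndB3q1) (pc := pcB2) (cut := Cut.none) (xt := Ext.none) (P1 := 0) (W1 := 536870912) (P2 := 536870912) (W2 := 536870912) (P3 := 740881858) (W3 := 40050571) (N0 := 3) (En := eng) (mo := mog) (C1 := cd1q0) (C2 := cd3q1) (C3 := pd2)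
    rfl k0_pp_012

noncomputable def f_pp_022 : ℕ → ℕ → ℕ → ℕ → Bool := onCell 0 536870912 1073741824 536870912 740881858 40050571
    (rowB 3 eng mog cd1q0 cd3q2 pd2 0 true true true .pp 0 2 2 (qsf 0 536870912 1073741824 536870912 2) ndB1q0 ndB3q2 pcB2 Cut.none Ext.none)

def k0_pp_022 : ∃ t, chk3 f_pp_022 t 1 1 1 = true :=
  ⟨(l 4), by decide +kernel⟩

theorem c_pp_022 : CertB 0 536870912 1073741824 536870912 740881858 40050571 3 eng mog cd1q0 cd3q2 pd2 true true true .pp 0 2 2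
    ndB1q0 ndB3q2 pcB2 Cut.none Ext.none :=
  certB0 (fam := true) (s1 := true) (s2 := true) (a := 0) (b := 2) (c := 2) (cn := .pp) (n1 := ndB1q0) (n2 := ndB3q2) (pc := pcB2) (cut := Cut.none) (xt := Ext.none) (P1 := 0) (W1 := 536870912) (P2 := 1073741824) (W2 := 536870912) (P3 := 740881858) (W3 := 40050571) (N0 := 3) (En := eng) (mo := mog) (C1 := cd1q0) (C2 := cd3q2) (C3 := pd2)
    rfl k0_pp_022

noncomputable def f_pp_023 : ℕ → ℕ → ℕ → ℕ → Bool := onCell 0 536870912 1073741824 536870912 740881858 40050571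
    (rowB 3 eng mog cd1q0 cd3q2 pd3 0 true true true .up 0 2 3 (qsf 0 536870912 1073741824 536870912 3) ndB1q0 ndB3q2 pcB3 Cut.none Ext.none)

def k0_pp_023 : ∃ t, chk3 f_pp_023 t 1 1 1 = true :=
  ⟨(l 4), by decide +kernel⟩

theorem c_pp_023 : CertB 0 536870912 1073741824 536870912 740881858 40050571 3 eng mog cd1q0 cd3q2 pd3 true true true .up 0 2 3
    ndB1q0 ndB3q2 pcB3 Cut.none Ext.none :=
  certB0 (fam := true) (s1 := true) (s2 := true) (a := 0) (b := 2) (c := 3) (cn := .up) (n1 := ndB1q0) (n2 := ndB3q2) (pc := pcB3) (cut := Cut.none) (xt := Ext.none) (P1 := 0) (W1 := 536870912) (P2 := 1073741824) (W2 := 536870912) (P3 := 740881858) (W3 := 40050571) (N0 := 3) (En := eng) (mo := mog) (C1 := cd1q0) (C2 := cd3q2) (C3 := pd3)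
    rfl k0_pp_023

noncomputable def f_pp_033 : ℕ → ℕ → ℕ → ℕ → Bool := onCell 0 536870912 0 1230186008 740881858 40050571
    (rowB 3 eng mog cd1q0 cd3q3 pd3 0 true true true .pnn 0 3 3 (qsf 0 536870912 0 1230186008 3) ndB1q0 ndB3q3 pcB3 Cut.none Ext.none)

def k0_pp_033 : ∃ t, chk3 f_pp_033 t 1 1 1 = true :=
  ⟨(b (l 4) (l 4)), by decide +kernel⟩

theorem c_pp_033 : CertB 0 536870912 0 1230186008 740881858 40050571 3 eng mog cd1q0 cd3q3 pd3 true true true .pnn 0 3 3
    ndB1q0 ndB3q3 pcB3 Cut.none Ext.none :=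
  certB0 (fam := true) (s1 := true) (s2 := true) (a := 0) (b := 3) (c := 3) (cn := .pnn) (n1 := ndB1q0) (n2 := ndB3q3) (pc := pcB3) (cut := Cut.none) (xt := Ext.none) (P1 := 0) (W1 := 536870912) (P2 := 0) (W2 := 1230186008) (P3 := 740881858) (W3 := 40050571) (N0 := 3) (En := eng) (mo := mog) (C1 := cd1q0) (C2 := cd3q3) (C3 := pd3)
    rfl k0_pp_033

noncomputable def f_pp_101 : ℕ → ℕ → ℕ → ℕ → Bool := onCell 536870912 536870912 0 536870912 740881858 40050571
    (rowB 3 eng mog cd1q1 cd3q0 pd1 0 true true true .npn 1 0 1 (qsf 536870912 536870912 0 536870912 1) ndB1q1 ndB3q0 pcB1 Cut.none Ext.none)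

def k0_pp_101 : ∃ t, chk3 f_pp_101 t 1 1 1 = true :=
  ⟨(l 4), by decide +kernel⟩

theorem c_pp_101 : CertB 536870912 536870912 0 536870912 740881858 40050571 3 eng mog cd1q1 cd3q0 pd1 true true true .npn 1 0 1
    ndB1q1 ndB3q0 pcB1 Cut.none Ext.none :=
  certB0 (fam := true) (s1 := true) (s2 := true) (a := 1) (b := 0) (c := 1) (cn := .npn) (n1 := ndB1q1) (n2 := ndB3q0) (pc := pcB1) (cut := Cut.none) (xt := Ext.none) (P1 := 536870912) (W1 := 536870912) (P2 := 0) (W2 := 536870912) (P3 := 740881858) (W3 := 40050571) (N0 := 3) (En := eng) (mo := mog) (C1 := cd1q1) (C2 := cd3q0) (C3 := pd1)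
    rfl k0_pp_101

noncomputable def f_pp_102 : ℕ → ℕ → ℕ → ℕ → Bool := onCell 536870912 536870912 0 536870912 740881858 40050571
    (rowB 3 eng mog cd1q1 cd3q0 pd2 0 true true true .npp 1 0 2 (qsf 536870912 536870912 0 536870912 2) ndB1q1 ndB3q0 pcB2 Cut.none Ext.none)

def k0_pp_102 : ∃ t, chk3 f_pp_102 t 1 1 1 = true :=
  ⟨(l 4), by decide +kernel⟩

theorem c_pp_102 : CertB 536870912 536870912 0 536870912 740881858 40050571 3 eng mog cd1q1 cd3q0 pd2 true true true .npp 1 0 2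
    ndB1q1 ndB3q0 pcB2 Cut.none Ext.none :=
  certB0 (fam := true) (s1 := true) (s2 := true) (a := 1) (b := 0) (c := 2) (cn := .npp) (n1 := ndB1q1) (n2 := ndB3q0) (pc := pcB2) (cut := Cut.none) (xt := Ext.none) (P1 := 536870912) (W1 := 536870912) (P2 := 0) (W2 := 536870912) (P3 := 740881858) (W3 := 40050571) (N0 := 3) (En := eng) (mo := mog) (C1 := cd1q1) (C2 := cd3q0) (C3 := pd2)
    rfl k0_pp_102

noncomputable def f_pp_112 : ℕ → ℕ → ℕ → ℕ → Bool := onCell 536870912 536870912 536870912 536870912 740881858 40050571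
    (rowB 3 eng mog cd1q1 cd3q1 pd2 0 true true true .dn 1 1 2 (qsf 536870912 536870912 536870912 536870912 2) ndB1q1 ndB3q1 pcB2 Cut.none Ext.none)

def k0_pp_112 : ∃ t, chk3 f_pp_112 t 1 1 1 = true :=
  ⟨(l 4), by decide +kernel⟩

theorem c_pp_112 : CertB 536870912 536870912 536870912 536870912 740881858 40050571 3 eng mog cd1q1 cd3q1 pd2 true true true .dn 1 1 2
    ndB1q1 ndB3q1 pcB2 Cut.none Ext.none :=
  certB0 (fam := true) (s1 := true) (s2 := true) (a := 1) (b := 1) (c := 2) (cn := .dn) (n1 := ndB1q1) (n2 := ndB3q1) (pc := pcB2) (cut := Cut.none) (xt := Ext.none) (P1 := 536870912) (W1 := 536870912) (P2 := 536870912) (W2 := 536870912) (P3 := 740881858) (W3 := 40050571) (N0 := 3) (En := eng) (mo := mog) (C1 := cd1q1) (C2 := cd3q1) (C3 := pd2)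
    rfl k0_pp_112

noncomputable def f_pp_113 : ℕ → ℕ → ℕ → ℕ → Bool := onCell 536870912 536870912 536870912 536870912 740881858 40050571
    (rowB 3 eng mog cd1q1 cd3q1 pd3 0 true true true .nn 1 1 3 (qsf 536870912 536870912 536870912 536870912 3) ndB1q1 ndB3q1 pcB3 Cut.none Ext.none)

def k0_pp_113 : ∃ t, chk3 f_pp_113 t 1 1 1 = true :=
  ⟨(l 4), by decide +kernel⟩

theorem c_pp_113 : CertB 536870912 536870912 536870912 536870912 740881858 40050571 3 eng mog cd1q1 cd3q1 pd3 true true true .nn 1 1 3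
    ndB1q1 ndB3q1 pcB3 Cut.none Ext.none :=
  certB0 (fam := true) (s1 := true) (s2 := true) (a := 1) (b := 1) (c := 3) (cn := .nn) (n1 := ndB1q1) (n2 := ndB3q1) (pc := pcB3) (cut := Cut.none) (xt := Ext.none) (P1 := 536870912) (W1 := 536870912) (P2 := 536870912) (W2 := 536870912) (P3 := 740881858) (W3 := 40050571) (N0 := 3) (En := eng) (mo := mog) (C1 := cd1q1) (C2 := cd3q1) (C3 := pd3)
    rfl k0_pp_113

noncomputable def f_pp_123 : ℕ → ℕ → ℕ → ℕ → Bool := onCell 536870912 536870912 1073741824 536870912 740881858 40050571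
    (rowB 3 eng mog cd1q1 cd3q2 pd3 0 true true true .npn 1 2 3 (qsf 536870912 536870912 1073741824 536870912 3) ndB1q1 ndB3q2 pcB3 Cut.none Ext.none)

def k0_pp_123 : ∃ t, chk3 f_pp_123 t 1 1 1 = true :=
  ⟨(l 4), by decide +kernel⟩

theorem c_pp_123 : CertB 536870912 536870912 1073741824 536870912 740881858 40050571 3 eng mog cd1q1 cd3q2 pd3 true true true .npn 1 2 3
    ndB1q1 ndB3q2 pcB3 Cut.none Ext.none :=
  certB0 (fam := true) (s1 := true) (s2 := true) (a := 1) (b := 2) (c := 3) (cn := .npn) (n1 := ndB1q1) (n2 := ndB3q2) (pc := pcB3) (cut := Cut.none) (xt := Ext.none) (P1 := 536870912) (W1 := 536870912) (P2 := 1073741824) (W2 := 536870912) (P3 := 740881858) (W3 := 40050571) (N0 := 3) (En := eng) (mo := mog) (C1 := cd1q1) (C2 := cd3q2) (C3 := pd3)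
    rfl k0_pp_123

noncomputable def f_pp_133 : ℕ → ℕ → ℕ → ℕ → Bool := onCell 536870912 536870912 0 1230186008 740881858 40050571
    (rowB 3 eng mog cd1q1 cd3q3 pd3 0 true true true .dn 1 3 3 (qsf 536870912 536870912 0 1230186008 3) ndB1q1 ndB3q3 pcB3 Cut.none Ext.none)

def k0_pp_133 : ∃ t, chk3 f_pp_133 t 1 1 1 = true :=
  ⟨(l 4), by decide +kernel⟩

theorem c_pp_133 : CertB 536870912 536870912 0 1230186008 740881858 40050571 3 eng mog cd1q1 cd3q3 pd3 true true true .dn 1 3 3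
    ndB1q1 ndB3q3 pcB3 Cut.none Ext.none :=
  certB0 (fam := true) (s1 := true) (s2 := true) (a := 1) (b := 3) (c := 3) (cn := .dn) (n1 := ndB1q1) (n2 := ndB3q3) (pc := pcB3) (cut := Cut.none) (xt := Ext.none) (P1 := 536870912) (W1 := 536870912) (P2 := 0) (W2 := 1230186008) (P3 := 740881858) (W3 := 40050571) (N0 := 3) (En := eng) (mo := mog) (C1 := cd1q1) (C2 := cd3q3) (C3 := pd3)
    rfl k0_pp_133

noncomputable def f_pp_202_a : ℕ → ℕ → ℕ → ℕ → Bool := onCell 0 536870912 0 536870912 740881858 40050571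
    (rowB 3 eng mog cd1q2a cd3q0 pd2 0 true true true .pp 2 0 2 (qsf 0 536870912 0 536870912 2) ndB1q2a ndB3q0 pcB2 Cut.none Ext.none)

def k0_pp_202_a : ∃ t, chk3 f_pp_202_a t 1 1 1 = true :=
  ⟨(l 5), by decide +kernel⟩

theorem c_pp_202_a : CertB 0 536870912 0 536870912 740881858 40050571 3 eng mog cd1q2a cd3q0 pd2 true true true .pp 2 0 2
    ndB1q2a ndB3q0 pcB2 Cut.none Ext.none :=
  certB0 (fam := true) (s1 := true) (s2 := true) (a := 2) (b := 0) (c := 2) (cn := .pp) (n1 := ndB1q2a) (n2 := ndB3q0) (pc := pcB2) (cut := Cut.none) (xt := Ext.none) (P1 := 0) (W1 := 536870912) (P2 := 0) (W2 := 536870912) (P3 := 740881858) (W3 := 40050571) (N0 := 3) (En := eng) (mo := mog) (C1 := cd1q2a) (C2 := cd3q0) (C3 := pd2)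
    rfl k0_pp_202_a

noncomputable def f_pp_202_b : ℕ → ℕ → ℕ → ℕ → Bool := onCell 1239849684 370763052 0 536870912 740881858 40050571
    (rowB 3 eng mog cd1q2b cd3q0 pd2 0 true true true .pp 2 0 2 (qsf 1239849684 370763052 0 536870912 2) ndB1q2b ndB3q0 pcB2 Cut.none Ext.none)

def k0_pp_202_b : ∃ t, chk3 f_pp_202_b t 1 1 1 = true :=
  ⟨(l 5), by decide +kernel⟩

theorem c_pp_202_b : CertB 1239849684 370763052 0 536870912 740881858 40050571 3 eng mog cd1q2b cd3q0 pd2 true true true .pp 2 0 2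
    ndB1q2b ndB3q0 pcB2 Cut.none Ext.none :=
  certB0 (fam := true) (s1 := true) (s2 := true) (a := 2) (b := 0) (c := 2) (cn := .pp) (n1 := ndB1q2b) (n2 := ndB3q0) (pc := pcB2) (cut := Cut.none) (xt := Ext.none) (P1 := 1239849684) (W1 := 370763052) (P2 := 0) (W2 := 536870912) (P3 := 740881858) (W3 := 40050571) (N0 := 3) (En := eng) (mo := mog) (C1 := cd1q2b) (C2 := cd3q0) (C3 := pd2)
    rfl k0_pp_202_b

noncomputable def f_pp_203_a : ℕ → ℕ → ℕ → ℕ → Bool := onCell 0 536870912 0 536870912 740881858 40050571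
    (rowB 3 eng mog cd1q2a cd3q0 pd3 0 true true true .up 2 0 3 (qsf 0 536870912 0 536870912 3) ndB1q2a ndB3q0 pcB3 Cut.none Ext.none)

def k0_pp_203_a : ∃ t, chk3 f_pp_203_a t 1 1 1 = true :=
  ⟨(l 5), by decide +kernel⟩

theorem c_pp_203_a : CertB 0 536870912 0 536870912 740881858 40050571 3 eng mog cd1q2a cd3q0 pd3 true true true .up 2 0 3
    ndB1q2a ndB3q0 pcB3 Cut.none Ext.none :=
  certB0 (fam := true) (s1 := true) (s2 := true) (a := 2) (b := 0) (c := 3) (cn := .up) (n1 := ndB1q2a) (n2 := ndB3q0) (pc := pcB3) (cut := Cut.none) (xt := Ext.none) (P1 := 0) (W1 := 536870912) (P2 := 0) (W2 := 536870912) (P3 := 740881858) (W3 := 40050571) (N0 := 3) (En := eng) (mo := mog) (C1 := cd1q2a) (C2 := cd3q0) (C3 := pd3)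
    rfl k0_pp_203_a

noncomputable def f_pp_203_b : ℕ → ℕ → ℕ → ℕ → Bool := onCell 1239849684 370763052 0 536870912 740881858 40050571
    (rowB 3 eng mog cd1q2b cd3q0 pd3 0 true true true .up 2 0 3 (qsf 1239849684 370763052 0 536870912 3) ndB1q2b ndB3q0 pcB3 Cut.none Ext.none)

def k0_pp_203_b : ∃ t, chk3 f_pp_203_b t 1 1 1 = true :=
  ⟨(l 5), by decide +kernel⟩

theorem c_pp_203_b : CertB 1239849684 370763052 0 536870912 740881858 40050571 3 eng mog cd1q2b cd3q0 pd3 true true true .up 2 0 3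
    ndB1q2b ndB3q0 pcB3 Cut.none Ext.none :=
  certB0 (fam := true) (s1 := true) (s2 := true) (a := 2) (b := 0) (c := 3) (cn := .up) (n1 := ndB1q2b) (n2 := ndB3q0) (pc := pcB3) (cut := Cut.none) (xt := Ext.none) (P1 := 1239849684) (W1 := 370763052) (P2 := 0) (W2 := 536870912) (P3 := 740881858) (W3 := 40050571) (N0 := 3) (En := eng) (mo := mog) (C1 := cd1q2b) (C2 := cd3q0) (C3 := pd3)
    rfl k0_pp_203_b

noncomputable def f_pp_213_a : ℕ → ℕ → ℕ → ℕ → Bool := onCell 0 536870912 536870912 536870912 740881858 40050571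
    (rowB 3 eng mog cd1q2a cd3q1 pd3 0 true true true .pnn 2 1 3 (qsf 0 536870912 536870912 536870912 3) ndB1q2a ndB3q1 pcB3 Cut.none Ext.none)

def k0_pp_213_a : ∃ t, chk3 f_pp_213_a t 1 1 1 = true :=
  ⟨(l 4), by decide +kernel⟩

theorem c_pp_213_a : CertB 0 536870912 536870912 536870912 740881858 40050571 3 eng mog cd1q2a cd3q1 pd3 true true true .pnn 2 1 3
    ndB1q2a ndB3q1 pcB3 Cut.none Ext.none :=
  certB0 (fam := true) (s1 := true) (s2 := true) (a := 2) (b := 1) (c := 3) (cn := .pnn) (n1 := ndB1q2a) (n2 := ndB3q1) (pc := pcB3) (cut := Cut.none) (xt := Ext.none) (P1 := 0) (W1 := 536870912) (P2 := 536870912) (W2 := 536870912) (P3 := 740881858) (W3 := 40050571) (N0 := 3) (En := eng) (mo := mog) (C1 := cd1q2a) (C2 := cd3q1) (C3 := pd3)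
    rfl k0_pp_213_a

noncomputable def f_pp_213_b : ℕ → ℕ → ℕ → ℕ → Bool := onCell 1239849684 370763052 536870912 536870912 740881858 40050571
    (rowB 3 eng mog cd1q2b cd3q1 pd3 0 true true true .pnn 2 1 3 (qsf 1239849684 370763052 536870912 536870912 3) ndB1q2b ndB3q1 pcB3 Cut.none Ext.none)

def k0_pp_213_b : ∃ t, chk3 f_pp_213_b t 1 1 1 = true :=
  ⟨(l 4), by decide +kernel⟩

theorem c_pp_213_b : CertB 1239849684 370763052 536870912 536870912 740881858 40050571 3 eng mog cd1q2b cd3q1 pd3 true true true .pnn 2 1 3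
    ndB1q2b ndB3q1 pcB3 Cut.none Ext.none :=
  certB0 (fam := true) (s1 := true) (s2 := true) (a := 2) (b := 1) (c := 3) (cn := .pnn) (n1 := ndB1q2b) (n2 := ndB3q1) (pc := pcB3) (cut := Cut.none) (xt := Ext.none) (P1 := 1239849684) (W1 := 370763052) (P2 := 536870912) (W2 := 536870912) (P3 := 740881858) (W3 := 40050571) (N0 := 3) (En := eng) (mo := mog) (C1 := cd1q2b) (C2 := cd3q1) (C3 := pd3)
    rfl k0_pp_213_b

noncomputable def f_pp_303 : ℕ → ℕ → ℕ → ℕ → Bool := onCell 1610612736 536870912 0 536870912 740881858 40050571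
    (rowB 3 eng mog cd1q3 cd3q0 pd3 0 true true true .npn 3 0 3 (qsf 1610612736 536870912 0 536870912 3) ndB1q3 ndB3q0 pcB3 Cut.none Ext.none)

def k0_pp_303 : ∃ t, chk3 f_pp_303 t 1 1 1 = true :=
  ⟨(l 5), by decide +kernel⟩

theorem c_pp_303 : CertB 1610612736 536870912 0 536870912 740881858 40050571 3 eng mog cd1q3 cd3q0 pd3 true true true .npn 3 0 3
    ndB1q3 ndB3q0 pcB3 Cut.none Ext.none :=
  certB0 (fam := true) (s1 := true) (s2 := true) (a := 3) (b := 0) (c := 3) (cn := .npn) (n1 := ndB1q3) (n2 := ndB3q0) (pc := pcB3) (cut := Cut.none) (xt := Ext.none) (P1 := 1610612736) (W1 := 536870912) (P2 := 0) (W2 := 536870912) (P3 := 740881858) (W3 := 40050571) (N0 := 3) (En := eng) (mo := mog) (C1 := cd1q3) (C2 := cd3q0) (C3 := pd3)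
    rfl k0_pp_303

noncomputable def f_pp_313 : ℕ → ℕ → ℕ → ℕ → Bool := onCell 1610612736 536870912 536870912 536870912 740881858 40050571
    (rowB 3 eng mog cd1q3 cd3q1 pd3 0 true true true .dn 3 1 3 (qsf 1610612736 536870912 536870912 536870912 3) ndB1q3 ndB3q1 pcB3 Cut.none Ext.none)

def k0_pp_313 : ∃ t, chk3 f_pp_313 t 1 1 1 = true :=
  ⟨(l 4), by decide +kernel⟩

theorem c_pp_313 : CertB 1610612736 536870912 536870912 536870912 740881858 40050571 3 eng mog cd1q3 cd3q1 pd3 true true true .dn 3 1 3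
    ndB1q3 ndB3q1 pcB3 Cut.none Ext.none :=
  certB0 (fam := true) (s1 := true) (s2 := true) (a := 3) (b := 1) (c := 3) (cn := .dn) (n1 := ndB1q3) (n2 := ndB3q1) (pc := pcB3) (cut := Cut.none) (xt := Ext.none) (P1 := 1610612736) (W1 := 536870912) (P2 := 536870912) (W2 := 536870912) (P3 := 740881858) (W3 := 40050571) (N0 := 3) (En := eng) (mo := mog) (C1 := cd1q3) (C2 := cd3q1) (C3 := pd3)
    rfl k0_pp_313

noncomputable def f_pm_001 : ℕ → ℕ → ℕ → ℕ → Bool := onCell 0 536870912 0 536870912 740881858 40050571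
    (rowB 3 eng mog cd1q0 cd3q0 pd1 0 true true false .up 0 0 1 (qsf 0 536870912 0 536870912 1) ndB1q0 ndB3q0 pcB1 Cut.none Ext.none)

def k0_pm_001 : ∃ t, chk3 f_pm_001 t 1 1 1 = true :=
  ⟨(a (l 3) (b (l 3) (l 3))), by decide +kernel⟩

theorem c_pm_001 : CertB 0 536870912 0 536870912 740881858 40050571 3 eng mog cd1q0 cd3q0 pd1 true true false .up 0 0 1
    ndB1q0 ndB3q0 pcB1 Cut.none Ext.none :=
  certB0 (fam := true) (s1 := true) (s2 := false) (a := 0) (b := 0) (c := 1) (cn := .up) (n1 := ndB1q0) (n2 := ndB3q0) (pc := pcB1) (cut := Cut.none) (xt := Ext.none) (P1 := 0) (W1 := 536870912) (P2 := 0) (W2 := 536870912) (P3 := 740881858) (W3 := 40050571) (N0 := 3) (En := eng) (mo := mog) (C1 := cd1q0) (C2 := cd3q0) (C3 := pd1)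
    rfl k0_pm_001

noncomputable def cut_pm_011 : Cut := Cut.of [[⟨0, 0, 0, 67108864⟩, ⟨1, 1, 0, 67108864⟩, ⟨2, 1, 0, 67108864⟩]]

noncomputable def f_pm_011 : ℕ → ℕ → ℕ → ℕ → Bool := onCell 0 536870912 536870912 536870912 740881858 40050571
    (rowB 3 eng mog cd1q0 cd3q1 pd1 1 true true false .pnn 0 1 1 (qsf 0 536870912 536870912 536870912 1) ndB1q0 ndB3q1 pcB1 cut_pm_011 Ext.none)

def k0_pm_011 : ∃ t, chk3 f_pm_011 t 1 1 1 = true :=
  ⟨(b (l 3) (b (l 3) (a (b (l 3) (a (b (l 3) (a (a (b (l 3) (l 6)) (l 3)) (l 3))) (l 3))) (l 3)))), by decide +kernel⟩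

theorem c_pm_011 : CertB 0 536870912 536870912 536870912 740881858 40050571 3 eng mog cd1q0 cd3q1 pd1 true true false .pnn 0 1 1
    ndB1q0 ndB3q1 pcB1 cut_pm_011 Ext.none :=
  certB1 (fam := true) (s1 := true) (s2 := false) (a := 0) (b := 1) (c := 1) (cn := .pnn) (n1 := ndB1q0) (n2 := ndB3q1) (pc := pcB1) (cut := cut_pm_011) (xt := Ext.none) (P1 := 0) (W1 := 536870912) (P2 := 536870912) (W2 := 536870912) (P3 := 740881858) (W3 := 40050571) (N0 := 3) (En := eng) (mo := mog) (C1 := cd1q0) (C2 := cd3q1) (C3 := pd1)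
    rfl (fun _ => rfl) k0_pm_011

noncomputable def cut_pm_012 : Cut := Cut.of [[⟨0, 0, 0, 67108864⟩, ⟨1, 1, 0, 67108864⟩, ⟨2, 1, 0, 67108864⟩]]

noncomputable def f_pm_012 : ℕ → ℕ → ℕ → ℕ → Bool := onCell 1073741824 536870912 536870912 536870912 740881858 40050571
    (rowB 3 eng mog cd1q0 cd3q1 pd2 2 true true false .pnp 0 1 2 (qsf 0 536870912 536870912 536870912 2) ndB1q0 ndB3q1 pcB2 cut_pm_012 Ext.none)

def k0_pm_012 : ∃ t, chk3 f_pm_012 t 8 1 1 = true :=
  ⟨(b (b (a (b (l 16318504) (l 16364024)) (a (l 16295592) (l 16424816))) (b (a (l 16410888) (l 16479456)) (a (l 16481456) (a (l 16404384) (l 16367976))))) (b (a (a (b (l 3) (l 16682184)) (b (b (l 16477280) (l 16502048)) (l 16561656))) (b (a (l 16443304) (l 16398632)) (a (b (l 16474344) (l 16495976)) (l 16515568)))) (a (b (a (b (l 16706728) (a (l 3) (l 16653000))) (b (l 16580472) (b (l 16640096) (l 16671432)))) (b (b (a (a (l 16707200) (a (l 16680432) (l 16662768))) (a (l 16636784) (l 16602624))) (a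 (a (l 6) (a (l 6) (l 16675840))) (a (l 16648984) (l 16613736)))) (a (l 6) (b (a (l 6) (b (l 16622064) (l 6))) (l 6))))) (b (b (a (l 16518368) (l 16458216)) (a (l 16518128) (a (l 16491968) (l 16460832)))) (b (a (b (l 16552592) (l 16562144)) (a (l 16508064) (l 16517960))) (a (b (b (l 16569304) (l 16574072)) (b (a (l 6) (l 16561080)) (l 6))) (b (a (l 16520096) (l 16486560)) (a (b (l 16526104) (l 16530104)) (b (l 16491816) (l 16516288)))))))))), by decide +kernel⟩

def k1_pm_012 : ∃ t, chk3 f_pm_012 t 9 1 1 = true :=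
  ⟨(b (b (a (b (l 16276944) (l 16291632)) (b (l 2) (l 16264960))) (a (b (l 16305296) (l 16319888)) (b (l 16263120) (l 16261064)))) (b (a (b (l 16524544) (b (l 16369776) (l 16525856))) (b (l 16405952) (a (l 16280704) (l 16235424)))) (b (a (b (a (l 16397944) (l 16338840)) (a (l 16432208) (l 16346448))) (b (a (l 16283792) (l 16231344)) (a (l 16286328) (l 16228896)))) (b (a (a (b (l 16421376) (l 16448208)) (b (l 16353200) (l 16357960))) (a (a (l 16306536) (l 16275112)) (l 16228136))) (a (b (a (a (l 16451008) (l 16414016)) (l 16361144)) (a (a (b (l 16455360) (l 16458248)) (l 16439392)) (a (l 16381472) (l 16345952)))) (a (b (a (l 16311016) (l 16278608)) (a (l 16311816) (l 16279008))) (b (l 16228944) (a (l 16245720) (l 16212176))))))))), by decide +kernel⟩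

def k2_pm_012 : ∃ t, chk3 f_pm_012 t 5 1 1 = true :=
  ⟨(a (b (a (a (b (l 16253360) (l 16228664)) (b (l 2) (a (l 16212784) (b (l 16211896) (l 16189904))))) (b (l 2) (l 16179264))) (b (a (a (b (l 16207232) (l 16192512)) (a (b (l 16182880) (l 16162096)) (b (l 16166792) (a (l 16147488) (l 16138048))))) (b (l 16130560) (l 16096176))) (a (a (b (b (l 16181416) (l 16174096)) (b (l 16168280) (b (l 16165176) (l 16163232)))) (b (a (l 16140904) (a (l 16123464) (b (l 16118960) (l 16106088)))) (a (b (l 16126224) (l 16118576)) (a (b (l 16106544) (l 16097328)) (b (l 16094560) (a (l 16087760) (l 16081688))))))) (b (b (l 16069472) (l 16051304)) (b (l 16034280) (a (l 16069128) (l 15989888))))))) (b (b (l 2) (b (l 16168520) (l 16115800))) (b (b (l 16059728) (a (l 16029680) (l 15973648))) (b (a (b (l 15989336) (l 15961640)) (l 15902536)) (b (a (l 15934736) (l 15847888)) (a (a (l 15934976) (l 15883408)) (a (l 15835168) (l 15790240)))))))), by decide +kernel⟩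

def k3_pm_012 : ∃ t, chk3 f_pm_012 t 3 1 1 = true :=
  ⟨(b (a (b (l 2) (a (l 16308064) (l 2))) (l 2)) (a (b (a (b (l 15997336) (l 16013768)) (b (l 15970528) (l 15857920))) (a (b (a (l 15841048) (l 15791000)) (a (b (l 15773608) (l 15854848)) (b (l 15711712) (l 15658760)))) (b (l 15736896) (a (l 15694936) (l 15590728))))) (b (a (l 15912944) (l 2)) (b (a (l 15702536) (l 15708888)) (a (b (l 15589176) (l 15511944)) (l 15537736)))))), by decide +kernel⟩

theorem s4_pm_012 : ∃ t, chk3 f_pm_012 t 4 1 1 = true := ex3_a k0_pm_012 k1_pm_012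

theorem s5_pm_012 : ∃ t, chk3 f_pm_012 t 2 1 1 = true := ex3_a s4_pm_012 k2_pm_012

theorem s6_pm_012 : ∃ t, chk3 f_pm_012 t 1 1 1 = true := ex3_a s5_pm_012 k3_pm_012

theorem c_pm_012 : CertB 0 536870912 536870912 536870912 740881858 40050571 3 eng mog cd1q0 cd3q1 pd2 true true false .pnp 0 1 2
    ndB1q0 ndB3q1 pcB2 cut_pm_012 Ext.none :=
  certB2 (fam := true) (s1 := true) (s2 := false) (a := 0) (b := 1) (c := 2) (cn := .pnp) (n1 := ndB1q0) (n2 := ndB3q1) (pc := pcB2) (cut := cut_pm_012) (xt := Ext.none) (P1 := 0) (W1 := 536870912) (P2 := 536870912) (W2 := 536870912) (P3 := 740881858) (W3 := 40050571) (N0 := 3) (En := eng) (mo := mog) (C1 := cd1q0) (C2 := cd3q1) (C3 := pd2)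
    rfl (fun _ => rfl) s6_pm_012

noncomputable def f_pm_022 : ℕ → ℕ → ℕ → ℕ → Bool := onCell 0 536870912 1073741824 536870912 740881858 40050571
    (rowB 3 eng mog cd1q0 cd3q2 pd2 1 true true false .pp 0 2 2 (qsf 0 536870912 1073741824 536870912 2) ndB1q0 ndB3q2 pcB2 Cut.none Ext.none)

def k0_pm_022 : ∃ t, chk3 f_pm_022 t 1 4 1 = true :=
  ⟨(b (l 3) (a (b (b (l 3) (b (l 3) (a (a (l 3) (a (a (l 3) (l 16608832)) (l 563747584007))) (l 1)))) (a (b (b (a (a (a (b (l 16555824) (l 16522152)) (b (l 16525920) (l 16554968))) (a (l 16592816) (l 16609096))) (a (a (l 16597728) (l 16584432)) (l 447246654951))) (a (a (a (a (a (b (l 16496480) (l 16483648)) (l 16498488)) (l 16511008)) (l 16577432)) (a (l 16566888) (l 16596784))) (a (l 16505200) (l 254510038951)))) (a (a (a (b (a (c (b (l 16484432) (l 16471064)) (b (l 16464872) (l 16450720))) (b (l 16493000) (l 16481640))) (a (c (l 16448504) (l 16427720)) (c (l 16471480) (l 16451432)))) (b (l 16532896) (a (l 16480824)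 (l 16496928)))) (b (a (l 16480432) (l 16573208)) (a (l 16520336) (l 16550216)))) (a (b (l 16584400) (l 16579184)) (b (l 226592725671) (l 16554176))))) (b (l 1) (a (a (l 464963248839) (l 1)) (l 1))))) (l 1))), by decide +kernel⟩

def k1_pm_022 : ∃ t, chk3 f_pm_022 t 4 20 1 = true :=
  ⟨(b (a (a (a (b (a (c (l 16418056) (l 16396752)) (l 16432264)) (a (c (b (l 16395480) (l 16380600)) (b (l 16373728) (l 16358520))) (c (l 16412280) (l 16390600)))) (a (b (l 16475944) (l 16425592)) (b (l 16473496) (l 16447632)))) (a (b (l 16496928) (c (l 16481416) (l 16464648))) (b (l 16526792) (l 16503296)))) (a (a (l 16543184) (l 16567312)) (b (l 16551288) (l 16548328)))) (b (a (a (a (a (b (b (c (l 16369976) (l 16347752)) (a (l 16347536) (l 16359984))) (c (l 16357032) (l 16335856))) (b (l 16381000) (l 16371128))) (c (l 16421968) (l 16401368))) (a (c (l 16462344) (l 16444272)) (l 16485344))) (a (l 16527456) (l 16539472))) (a (a (b (a (a (c (l 16347800) (l 16327792)) (l 16362376))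 (l 16398048)) (a (a (b (c (b (l 16342624) (a (l 16335112) (l 16347368))) (l 16323456)) (c (b (b (b (l 16340800) (b (l 16341048) (l 16341408))) (l 16340768)) (l 16338392)) (b (b (b (l 16322840) (l 16323672)) (l 16323464)) (l 16321144)))) (b (c (l 16366392) (l 16348040)) (c (l 16362976) (l 16345688)))) (b (l 16392928) (a (l 16378264) (l 16401528))))) (b (a (l 16442432) (l 16476120)) (a (b (l 16437984) (a (l 16424120) (l 16445968))) (b (l 16473256) (l 16471736))))) (c (b (l 16538528) (a (l 16516200) (l 16522000))) (b (l 16540104) (a (l 16512072) (l 16517960))))))), by decide +kernel⟩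

def k2_pm_022 : ∃ t, chk3 f_pm_022 t 4 21 1 = true :=
  ⟨(b (a (a (b (a (a (c (a (b (c (l 16329472) (l 16320480)) (l 16313832)) (c (l 16334944) (l 16326288))) (c (l 16311680) (l 16302784))) (c (l 16348200) (l 16331856))) (l 16396472)) (c (a (a (c (l 16308040) (l 16297976)) (l 16324336)) (l 16358176)) (a (a (c (l 16287944) (l 16277944)) (l 16307632)) (l 16343344)))) (a (l 16491920) (a (l 16502176) (l 16457120)))) (a (a (l 16479520) (l 16506168)) (l 16508440))) (a (a (a (a (c (c (b (l 16287776) (l 16268168)) (b (l 16276432) (l 16255568))) (b (c (l 16265032) (l 16253568)) (b (l 16242048) (l 16230776)))) (c (c (l 16297592) (l 16287432)) (l 16272296))) (c (b (l 16334600) (l 16312776)) (l 16308016))) (a (b (l 16371504) (l 16390048)) (l 16401712))) (a (a (l 16438624) (l 16468104)) (l 16494128)))), by decide +kernel⟩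

def k3_pm_022 : ∃ t, chk3 f_pm_022 t 4 11 1 = true :=
  ⟨(a (a (b (a (b (c (a (b (b (l 16247168) (l 16237560)) (a (l 16239312) (l 16228544))) (l 16253120)) (a (b (b (l 16219680) (l 16208760)) (b (l 16198024) (l 16187464))) (l 16227568))) (c (a (b (a (l 16200160) (l 16210280)) (a (l 16182640) (l 16192680))) (l 16216376)) (a (b (a (l 16165920) (l 16177984)) (a (l 16156408) (l 16157888))) (l 16185696)))) (b (c (l 16282888) (l 16263032)) (c (l 16245744) (l 16220696)))) (a (c (b (a (a (b (l 16165776) (l 16149560)) (l 16188472)) (l 16182232)) (a (c (l 16162688) (a (l 16115592) (l 16125760))) (l 16150656))) (b (a (c (a (l 16127632) (l 16138944)) (a (l 16127696) (l 16119064))) (l 16146648)) (a (a (b (l 16090224) (l 16073080)) (l 16114136)) (l 16110424)))) (b (c (l 16211168) (l 16181144)) (c (l 16179128) (l 16144376))))) (a (b (b (c (l 16322136) (l 16308360)) (l 16295488)) (c (l 16231912) (l 16206608))) (c (b (b (l 16361568) (l 16320416)) (l 16267392)) (b (l 16329368)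 (l 16248872))))) (b (a (b (a (l 16395144) (l 16429112)) (a (l 16394432) (l 16388296))) (a (l 16479200) (l 16482448))) (a (c (a (l 16301496) (l 16334320)) (l 16349696)) (b (l 16416344) (a (l 16344312) (l 16373664)))))), by decide +kernel⟩

def k4_pm_022 : ∃ t, chk3 f_pm_022 t 5 5 1 = true :=
  ⟨(a (b (b (b (a (b (l 369937153207) (l 286185344951)) (l 1)) (b (a (l 16509376) (l 1)) (b (a (l 16500536) (l 1)) (b (l 254509918039) (a (l 16489888) (l 426845299447)))))) (a (b (l 16483376) (a (l 16479824) (l 16466056))) (b (l 294238209047) (l 16441544)))) (b (a (b (l 16461784) (l 16448944)) (b (l 16434256) (a (l 16432424) (l 16418624)))) (a (c (l 16425504) (l 16429688)) (l 16410856)))) (b (b (l 1) (a (l 436508902039) (l 1))) (b (a (l 282963933911) (l 426308218039)) (a (b (l 16388592) (l 16381848)) (l 281890081447))))), by decide +kernel⟩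

def k5_pm_022 : ∃ t, chk3 f_pm_022 t 3 5 1 = true :=
  ⟨(b (l 1) (a (a (b (l 1) (l 432213752247)) (l 1)) (l 1))), by decide +kernel⟩

def k6_pm_022 : ∃ t, chk3 f_pm_022 t 2 6 1 = true :=
  ⟨(a (a (a (b (b (a (b (c (a (b (l 16109568) (l 16095848)) (l 16121608)) (a (b (l 16083344) (l 16046576)) (l 16077000))) (b (a (a (b (l 16056096) (l 16049272)) (l 16062928)) (l 16078216)) (a (c (l 16069904) (l 16017552)) (l 16064632)))) (b (c (l 16149600) (l 16110360)) (c (l 16122552) (l 16079048)))) (b (a (a (c (l 16051392) (l 15998528)) (b (l 16051696) (l 16039408))) (l 16116824)) (a (a (c (l 16028976) (l 15975408)) (l 16022168)) (a (l 16041408) (l 16060424))))) (c (b (a (a (b (l 16009240) (l 15992120)) (l 16018112)) (l 16044432)) (a (b (l 15986104) (l 15973840)) (l 16012864))) (b (a (b (a (l 15954712) (l 15974560)) (l 15967088)) (l 15994080)) (a (b (l 15929872) (l 15915888)) (l 15959864))))) (b (b (c (b (l 16203496) (l 16175624)) (a (l 16137256) (l 16178552))) (a (b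 (l 16113136) (l 16088488)) (l 16137192))) (b (c (l 16095424) (l 16051408)) (l 16038528)))) (b (b (a (c (l 16255288) (l 16236864)) (c (l 16377088) (l 16305800))) (a (l 16210416) (l 16252384))) (a (b (l 16184256) (l 16104400)) (b (l 16204336) (l 16165048))))) (b (a (b (a (b (l 16380024) (l 16349920)) (b (l 16392896) (l 16382608))) (a (l 16308672) (a (l 16343720) (l 16360920)))) (b (a (l 16369616) (b (l 16346456) (l 16341408))) (a (l 16351664) (l 16331920)))) (a (a (l 16408384) (b (l 16309000) (l 16271904))) (a (b (l 16337888) (l 16306328)) (b (l 16318032) (l 16313304)))))), by decide +kernel⟩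

def k7_pm_022 : ∃ t, chk3 f_pm_022 t 2 7 1 = true :=
  ⟨(a (a (b (a (b (a (a (b (l 15925592) (l 15917216)) (l 15937912)) (l 15962952)) (a (b (a (l 15911064) (l 15927096)) (l 15935808)) (l 15948176))) (b (l 16012264) (l 15994848))) (a (b (a (b (l 15912656) (l 15912480)) (l 15941848)) (a (b (l 15914232) (l 15917840)) (l 15943440))) (b (l 15985824) (l 15984712)))) (b (a (l 16085200) (b (l 16134280) (l 16111792))) (a (l 16039840) (l 16092912)))) (a (b (a (l 16177936) (l 16376192)) (b (l 16177928) (l 16168720))) (b (a (l 16269048) (l 16291976)) (l 16257192)))), by decide +kernel⟩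

def k8_pm_022 : ∃ t, chk3 f_pm_022 t 3 3 1 = true :=
  ⟨(b (a (b (a (b (a (l 283500660903) (l 408054594087)) (a (l 16306424) (l 16274200))) (b (l 1) (l 415033648919))) (a (b (a (l 16297864) (l 16272488)) (a (l 16288072) (l 16267568))) (b (l 293701029543) (l 236792831703)))) (b (l 1) (a (l 411812292359) (l 1)))) (a (b (b (a (a (l 16288336) (l 16261904)) (l 16229640)) (a (l 16385288) (a (l 16239656) (l 16218736)))) (a (l 16285344) (a (l 16257728) (l 16379256)))) (b (a (b (l 16169576) (l 16285144)) (l 393558590439)) (a (b (l 16189336) (l 16198504)) (b (l 16132824) (l 16150184)))))), by decide +kernel⟩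

theorem s9_pm_022 : ∃ t, chk3 f_pm_022 t 2 3 1 = true := ex3_b k6_pm_022 k7_pm_022

theorem s10_pm_022 : ∃ t, chk3 f_pm_022 t 1 3 1 = true := ex3_a s9_pm_022 k8_pm_022

theorem s11_pm_022 : ∃ t, chk3 f_pm_022 t 4 10 1 = true := ex3_b k1_pm_022 k2_pm_022

theorem s12_pm_022 : ∃ t, chk3 f_pm_022 t 4 5 1 = true := ex3_b s11_pm_022 k3_pm_022

theorem s13_pm_022 : ∃ t, chk3 f_pm_022 t 2 5 1 = true := ex3_a s12_pm_022 k4_pm_022

theorem s14_pm_022 : ∃ t, chk3 f_pm_022 t 1 5 1 = true := ex3_a s13_pm_022 k5_pm_022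

theorem s15_pm_022 : ∃ t, chk3 f_pm_022 t 1 2 1 = true := ex3_b k0_pm_022 s14_pm_022

theorem s16_pm_022 : ∃ t, chk3 f_pm_022 t 1 1 1 = true := ex3_b s15_pm_022 s10_pm_022

theorem c_pm_022 : CertB 0 536870912 1073741824 536870912 740881858 40050571 3 eng mog cd1q0 cd3q2 pd2 true true false .pp 0 2 2
    ndB1q0 ndB3q2 pcB2 Cut.none Ext.none :=
  certB1 (fam := true) (s1 := true) (s2 := false) (a := 0) (b := 2) (c := 2) (cn := .pp) (n1 := ndB1q0) (n2 := ndB3q2) (pc := pcB2) (cut := Cut.none) (xt := Ext.none) (P1 := 0) (W1 := 536870912) (P2 := 1073741824) (W2 := 536870912) (P3 := 740881858) (W3 := 40050571) (N0 := 3) (En := eng) (mo := mog) (C1 := cd1q0) (C2 := cd3q2) (C3 := pd2)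
    rfl (fun _ => rfl) s16_pm_022

noncomputable def f_pm_023 : ℕ → ℕ → ℕ → ℕ → Bool := onCell 1610612736 536870912 1073741824 536870912 740881858 40050571
    (rowB 3 eng mog cd1q0 cd3q2 pd3 2 true true false .up 0 2 3 (qsf 0 536870912 1073741824 536870912 3) ndB1q0 ndB3q2 pcB3 Cut.none Ext.none)

def k0_pm_023 : ∃ t, chk3 f_pm_023 t 1 1 1 = true :=
  ⟨(a (a (b (b (b (a (l 16164496) (l 16192552)) (b (l 16197088) (l 16214656))) (b (l 16269200) (l 16281824))) (b (b (l 16309744) (a (l 16215104) (l 16301296))) (a (b (l 16120928) (b (l 16046016) (a (l 15967688) (l 16026096)))) (b (l 16229256) (l 16137536))))) (b (a (b (b (l 2) (l 16288472)) (b (l 16325520) (l 16358336))) (b (l 2) (a (l 16387480) (l 16412912)))) (a (b (b (l 16317240) (l 16363104)) (a (l 16266328) (l 16317440))) (b (a (l 16366384) (l 16406984)) (a (l 16372008) (l 16425352)))))) (b (a (b (l 2) (a (l 385573896407) (l 2))) (l 2)) (b (a (a (a (l 16472536) (l 16535632)) (a (l 16574944) (l 16596600)))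 (a (a (l 16613080) (l 2)) (l 2))) (a (a (a (l 16469488) (l 16508936)) (a (l 16564168) (l 16616344))) (a (a (l 16664848) (l 16693920)) (a (l 16708808) (l 4))))))), by decide +kernel⟩

theorem c_pm_023 : CertB 0 536870912 1073741824 536870912 740881858 40050571 3 eng mog cd1q0 cd3q2 pd3 true true false .up 0 2 3
    ndB1q0 ndB3q2 pcB3 Cut.none Ext.none :=
  certB2 (fam := true) (s1 := true) (s2 := false) (a := 0) (b := 2) (c := 3) (cn := .up) (n1 := ndB1q0) (n2 := ndB3q2) (pc := pcB3) (cut := Cut.none) (xt := Ext.none) (P1 := 0) (W1 := 536870912) (P2 := 1073741824) (W2 := 536870912) (P3 := 740881858) (W3 := 40050571) (N0 := 3) (En := eng) (mo := mog) (C1 := cd1q0) (C2 := cd3q2) (C3 := pd3)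
    rfl (fun _ => rfl) k0_pm_023

noncomputable def f_pm_033 : ℕ → ℕ → ℕ → ℕ → Bool := onCell 1610612736 536870912 0 1230186008 740881858 40050571
    (rowB 3 eng mog cd1q0 cd3q3 pd3 2 true true false .pnn 0 3 3 (qsf 0 536870912 0 1230186008 3) ndB1q0 ndB3q3 pcB3 Cut.none Ext.none)

def k0_pm_033 : ∃ t, chk3 f_pm_033 t 1 1 1 = true :=
  ⟨(b (a (l 1) (a (l 1) (b (l 4) (l 4)))) (b (a (b (l 1) (a (l 1) (a (l 1) (b (l 1) (a (l 1) (b (l 1) (l 15930120))))))) (a (b (a (l 1) (a (a (l 15921624) (l 15965192)) (l 4))) (b (a (a (l 15819848) (l 15929264)) (a (l 16023728) (l 16107040))) (a (a (l 15974344) (b (l 16020672) (l 16082696))) (a (l 16137256) (l 16323096))))) (l 4))) (a (b (a (l 1) (a (b (a (l 1) (b (l 1) (l 489120942695))) (a (b (l 1) (l 476236010967)) (b (l 467646270615) (l 15933656)))) (b (a (l 209948238839) (l 15986984)) (a (b (l 15949752) (l 16012408)) (b (l 16034872) (l 16094824)))))) (a (a (b (l 1) (b (a (l 1) (b (l 367788388423) (l 360809130967))) (a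 (b (l 375841461271) (l 367788461607)) (b (l 353293120935) (l 16006008))))) (b (a (b (l 1) (a (l 359735313687) (l 325912500743))) (b (l 475699420631) (a (l 15954960) (l 15980776)))) (b (a (b (l 339871262871) (l 15999088)) (l 16040128)) (l 16081528)))) (a (b (a (l 248066158151) (l 16045512)) (a (l 16134848) (l 16197640))) (a (b (l 16121440) (l 16271432)) (b (l 16201552) (l 16345792)))))) (a (b (a (b (a (l 16062184) (l 16135400)) (b (l 16146056) (l 16203504))) (b (a (l 16215744) (l 16300224)) (a (l 16292696) (l 16375640)))) (a (b (a (l 16274280) (l 16342584)) (l 16442928)) (a (l 16479008) (l 16546720)))) (a (a (b (b (l 16370848) (l 16449488)) (l 16604344)) (b (l 4) (l 16646648))) (b (l 4) (l 4))))))), by decide +kernel⟩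

theorem c_pm_033 : CertB 0 536870912 0 1230186008 740881858 40050571 3 eng mog cd1q0 cd3q3 pd3 true true false .pnn 0 3 3
    ndB1q0 ndB3q3 pcB3 Cut.none Ext.none :=
  certB2 (fam := true) (s1 := true) (s2 := false) (a := 0) (b := 3) (c := 3) (cn := .pnn) (n1 := ndB1q0) (n2 := ndB3q3) (pc := pcB3) (cut := Cut.none) (xt := Ext.none) (P1 := 0) (W1 := 536870912) (P2 := 0) (W2 := 1230186008) (P3 := 740881858) (W3 := 40050571) (N0 := 3) (En := eng) (mo := mog) (C1 := cd1q0) (C2 := cd3q3) (C3 := pd3)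
    rfl (fun _ => rfl) k0_pm_033

noncomputable def f_pm_101 : ℕ → ℕ → ℕ → ℕ → Bool := onCell 536870912 536870912 0 536870912 740881858 40050571
    (rowB 3 eng mog cd1q1 cd3q0 pd1 2 true true false .npn 1 0 1 (qsf 536870912 536870912 0 536870912 1) ndB1q1 ndB3q0 pcB1 Cut.none Ext.none)

def k0_pm_101 : ∃ t, chk3 f_pm_101 t 1 1 1 = true :=
  ⟨(a (l 3) (a (l 3) (a (l 3) (b (l 3) (l 3))))), by decide +kernel⟩

theorem c_pm_101 : CertB 536870912 536870912 0 536870912 740881858 40050571 3 eng mog cd1q1 cd3q0 pd1 true true false .npn 1 0 1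
    ndB1q1 ndB3q0 pcB1 Cut.none Ext.none :=
  certB2 (fam := true) (s1 := true) (s2 := false) (a := 1) (b := 0) (c := 1) (cn := .npn) (n1 := ndB1q1) (n2 := ndB3q0) (pc := pcB1) (cut := Cut.none) (xt := Ext.none) (P1 := 536870912) (W1 := 536870912) (P2 := 0) (W2 := 536870912) (P3 := 740881858) (W3 := 40050571) (N0 := 3) (En := eng) (mo := mog) (C1 := cd1q1) (C2 := cd3q0) (C3 := pd1)
    rfl (fun _ => rfl) k0_pm_101

noncomputable def f_pm_102 : ℕ → ℕ → ℕ → ℕ → Bool := onCell 1073741824 536870912 0 536870912 740881858 40050571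
    (rowB 3 eng mog cd1q1 cd3q0 pd2 2 true true false .npp 1 0 2 (qsf 536870912 536870912 0 536870912 2) ndB1q1 ndB3q0 pcB2 Cut.none Ext.none)

def k0_pm_102 : ∃ t, chk3 f_pm_102 t 2 1 1 = true :=
  ⟨(b (a (a (b (a (a (l 3) (b (b (l 16663552) (l 16666600)) (l 16627960))) (b (b (a (l 16622376) (l 2)) (a (l 16627192) (l 16586000))) (b (l 16698112) (l 16596808)))) (a (b (a (l 3) (l 16577728)) (b (l 158007420839) (l 16454352))) (b (a (l 16546848) (l 16526512)) (a (l 16450432) (l 16429016))))) (b (a (b (a (b (l 2) (l 16548720)) (l 2)) (b (l 16686152) (l 16552120))) (b (l 2) (a (l 16656736) (l 16497392)))) (b (a (a (l 16551184) (l 16541880)) (b (l 16494664) (l 16504264))) (a (b (l 16492376) (l 16430616)) (b (l 16493904) (l 16460896)))))) (b (a (b (l 2) (a (a (l 16531936) (l 2)) (l 2))) (l 2)) (a (a (a (b (l 16456256) (l 16459920)) (b (a (l 16433712) (l 16417992)) (a (l 16445992) (l 16434672)))) (b (l 16382776) (l 16407528))) (a (b (l 16560168) (l 16361216)) (b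 (l 2) (l 16418488)))))) (a (b (a (b (a (b (l 158544023543) (l 16348264)) (b (l 16348432) (l 16307160))) (a (b (l 16389968) (l 16251960)) (b (l 16246640) (l 16213880)))) (b (a (b (l 16383120) (l 16347416)) (b (l 16431864) (l 16409992))) (a (b (l 16319896) (l 16301576)) (b (l 16382288) (l 16344704))))) (a (a (b (l 16215032) (l 16278792)) (b (l 16250616) (l 16354576))) (a (b (l 16281752) (l 16270392)) (b (l 16300336) (l 16269144))))) (b (a (b (a (a (b (l 16434192) (l 16423072)) (a (l 16469280) (b (l 16422808) (l 16419224)))) (b (l 16407544) (l 16411072))) (a (a (l 16402968) (a (l 16386128) (l 16574160))) (l 16386376))) (b (b (l 16357680) (l 16374888)) (b (l 16380352) (l 16361648)))) (a (a (a (l 16285168) (a (l 16286088) (l 16283984))) (l 16286592)) (b (l 16320744) (l 16271712)))))), by decide +kernel⟩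

def k1_pm_102 : ∃ t, chk3 f_pm_102 t 3 1 1 = true :=
  ⟨(b (a (b (l 2) (a (b (l 2) (b (l 2) (l 16255192))) (l 2))) (l 2)) (b (a (b (a (b (l 16278616) (l 16305832)) (b (l 2) (l 16239752))) (a (b (l 16325928) (l 16327608)) (l 16361696))) (b (l 2) (a (b (l 2) (l 16256496)) (l 2)))) (a (a (b (l 16312024) (l 16278736)) (b (l 16297936) (l 16288648))) (a (l 16311984) (b (l 16331432) (l 16366368)))))), by decide +kernel⟩

theorem s2_pm_102 : ∃ t, chk3 f_pm_102 t 1 1 1 = true := ex3_a k0_pm_102 k1_pm_102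

theorem c_pm_102 : CertB 536870912 536870912 0 536870912 740881858 40050571 3 eng mog cd1q1 cd3q0 pd2 true true false .npp 1 0 2
    ndB1q1 ndB3q0 pcB2 Cut.none Ext.none :=
  certB2 (fam := true) (s1 := true) (s2 := false) (a := 1) (b := 0) (c := 2) (cn := .npp) (n1 := ndB1q1) (n2 := ndB3q0) (pc := pcB2) (cut := Cut.none) (xt := Ext.none) (P1 := 536870912) (W1 := 536870912) (P2 := 0) (W2 := 536870912) (P3 := 740881858) (W3 := 40050571) (N0 := 3) (En := eng) (mo := mog) (C1 := cd1q1) (C2 := cd3q0) (C3 := pd2)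
    rfl (fun _ => rfl) s2_pm_102

noncomputable def f_pm_112 : ℕ → ℕ → ℕ → ℕ → Bool := onCell 536870912 536870912 1073741824 536870912 740881858 40050571
    (rowB 3 eng mog cd1q1 cd3q1 pd2 1 true true false .dn 1 1 2 (qsf 536870912 536870912 536870912 536870912 2) ndB1q1 ndB3q1 pcB2 Cut.none Ext.none)

def k0_pm_112 : ∃ t, chk3 f_pm_112 t 1 1 1 = true :=
  ⟨(b (a (a (b (b (b (a (l 16284328) (l 1)) (a (l 16276760) (l 16253456))) (b (a (l 16266216) (l 16255320)) (l 16353848))) (b (b (b (l 16233704) (b (l 16223648) (l 16214368))) (l 16196992)) (l 16190680))) (b (b (l 1) (b (l 1) (l 321618653863))) (b (b (b (l 16238688) (b (l 16237496) (l 16233920))) (l 16232168)) (l 16223040)))) (b (l 1) (b (l 1) (a (l 16235656) (l 1))))) (a (b (a (b (l 16146392) (l 15959152)) (b (l 16190432) (l 16143400))) (a (b (l 15844048) (l 15722200)) (b (l 16089104) (l 16035056)))) (a (b (b (l 16247824) (l 16250504)) (l 16450928)) (b (b (l 1) (l 16254872)) (l 16330792))))), by decide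 +kernel⟩

theorem c_pm_112 : CertB 536870912 536870912 536870912 536870912 740881858 40050571 3 eng mog cd1q1 cd3q1 pd2 true true false .dn 1 1 2
    ndB1q1 ndB3q1 pcB2 Cut.none Ext.none :=
  certB1 (fam := true) (s1 := true) (s2 := false) (a := 1) (b := 1) (c := 2) (cn := .dn) (n1 := ndB1q1) (n2 := ndB3q1) (pc := pcB2) (cut := Cut.none) (xt := Ext.none) (P1 := 536870912) (W1 := 536870912) (P2 := 536870912) (W2 := 536870912) (P3 := 740881858) (W3 := 40050571) (N0 := 3) (En := eng) (mo := mog) (C1 := cd1q1) (C2 := cd3q1) (C3 := pd2)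
    rfl (fun _ => rfl) k0_pm_112

noncomputable def f_pm_113 : ℕ → ℕ → ℕ → ℕ → Bool := onCell 536870912 536870912 1610612736 536870912 740881858 40050571
    (rowB 3 eng mog cd1q1 cd3q1 pd3 1 true true false .nn 1 1 3 (qsf 536870912 536870912 536870912 536870912 3) ndB1q1 ndB3q1 pcB3 Cut.none Ext.none)

def k0_pm_113 : ∃ t, chk3 f_pm_113 t 1 1 1 = true :=
  ⟨(a (b (b (a (b (a (l 15504304) (l 15704808)) (l 339937739191)) (b (l 15995312) (l 15910160))) (b (a (b (l 371612353207) (l 2)) (b (l 15850968) (l 15823392))) (a (l 2) (l 372150176903)))) (b (b (a (l 2) (l 409731011639)) (l 2)) (l 2))) (b (b (a (l 16342248) (b (l 16488832) (l 16702320))) (b (a (l 16333936) (l 16604168)) (a (l 16235760) (l 16503568)))) (b (b (a (l 16132664) (l 16396688)) (a (b (l 16068264) (l 16031840)) (b (l 16308584) (l 16247704)))) (a (a (l 2) (l 4)) (l 4))))), by decide +kernel⟩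

theorem c_pm_113 : CertB 536870912 536870912 536870912 536870912 740881858 40050571 3 eng mog cd1q1 cd3q1 pd3 true true false .nn 1 1 3
    ndB1q1 ndB3q1 pcB3 Cut.none Ext.none :=
  certB1 (fam := true) (s1 := true) (s2 := false) (a := 1) (b := 1) (c := 3) (cn := .nn) (n1 := ndB1q1) (n2 := ndB3q1) (pc := pcB3) (cut := Cut.none) (xt := Ext.none) (P1 := 536870912) (W1 := 536870912) (P2 := 536870912) (W2 := 536870912) (P3 := 740881858) (W3 := 40050571) (N0 := 3) (En := eng) (mo := mog) (C1 := cd1q1) (C2 := cd3q1) (C3 := pd3)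
    rfl (fun _ => rfl) k0_pm_113

noncomputable def f_pm_123 : ℕ → ℕ → ℕ → ℕ → Bool := onCell 1610612736 536870912 1073741824 536870912 740881858 40050571
    (rowB 3 eng mog cd1q1 cd3q2 pd3 2 true true false .npn 1 2 3 (qsf 536870912 536870912 1073741824 536870912 3) ndB1q1 ndB3q2 pcB3 Cut.none Ext.none)

def k0_pm_123 : ∃ t, chk3 f_pm_123 t 1 1 1 = true :=
  ⟨(a (a (b (b (b (a (l 16193168) (l 16238064)) (b (l 16236080) (l 16263472))) (b (l 16348384) (l 1))) (l 1)) (b (b (a (b (l 16351216) (l 16324232)) (a (b (l 16494976) (l 16403896)) (b (l 16601776) (l 16477216)))) (a (b (l 16382496) (l 16453536)) (a (l 16451648) (l 16482352)))) (a (l 1) (b (a (l 1) (l 16555392)) (l 1))))) (a (b (b (a (b (c (l 16667376) (l 16662712)) (a (l 16565880) (l 16620288))) (b (a (l 16702488) (l 16703464)) (l 16838472))) (a (b (l 16581312) (l 16574848)) (a (l 16653376) (l 16658272)))) (b (a (b (l 16588240) (l 16607376)) (a (l 16645336) (l 16656824))) (a (l 1) (l 16783360)))) (a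 (b (b (b (l 16630320) (l 16643792)) (b (l 16657256) (l 16663752))) (b (a (l 16670456) (l 16690176)) (a (l 16722864) (l 16718768)))) (a (b (b (b (l 16539056) (l 16590576)) (b (l 16639704) (l 16672648))) (b (l 16724704) (l 16717104))) (b (a (b (b (l 16649552) (l 16361704)) (l 16697064)) (b (a (b (l 16640800) (l 16578736)) (a (b (l 16612648) (l 16610120)) (b (a (l 16633816) (b (l 16643072) (l 16647472))) (l 16877880)))) (a (l 16694328) (a (l 16709120) (l 4))))) (a (b (l 16721680) (l 4)) (l 4))))))), by decide +kernel⟩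

theorem c_pm_123 : CertB 536870912 536870912 1073741824 536870912 740881858 40050571 3 eng mog cd1q1 cd3q2 pd3 true true false .npn 1 2 3
    ndB1q1 ndB3q2 pcB3 Cut.none Ext.none :=
  certB2 (fam := true) (s1 := true) (s2 := false) (a := 1) (b := 2) (c := 3) (cn := .npn) (n1 := ndB1q1) (n2 := ndB3q2) (pc := pcB3) (cut := Cut.none) (xt := Ext.none) (P1 := 536870912) (W1 := 536870912) (P2 := 1073741824) (W2 := 536870912) (P3 := 740881858) (W3 := 40050571) (N0 := 3) (En := eng) (mo := mog) (C1 := cd1q1) (C2 := cd3q2) (C3 := pd3)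
    rfl (fun _ => rfl) k0_pm_123

end Pool.Agent.Strip051.G.I69_7273.Tab.C.BA13

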