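import Pool.Agent.Strip051.G.I69_7273.AsmD
import Pool.Agent.Strip051.G.I69_7273.TrB10
import Pool.Agent.Strip051.G.I69_7273.TrB8
import Pool.Agent.Strip051.G.I69_7273.TrB9
import Pool.Agent.Strip051.G.I69_7273.CrnE_0
import Pool.Agent.Strip051.G.I69_7273.CrnE_1

/-! # Rows from certificates (generated) -/

set_option linter.all false
set_option maxRecDepth 100000

namespace Pool.Agent.Strip051.G.I69_7273.Tab

open Pool.Agent.Strip051.PB Pool.Agent.StripNear Pool.Agent.Strip051.LC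

theorem BA13_pp_001 {κ x : ℝ} (hκ : κ * h0 = ken x) (hx : ((740881858 : ℕ) : ℝ) / S ≤ x) (hx' : x ≤ (((740881858 : ℕ) : ℝ) + (40050571 : ℕ)) / S) :
    TriA PP.cur (VE (h0 * 0) 3 κ (h0 * x) (eng.v x) (h0 * (1 / 20)) (tnt (h0 * x) (1 / 5)) (tbl tK x) (tbl tL x) (tbl (smT h0⁻¹ tC) x)) 0 0 1 1 3 1 1 :=
  (sideB hx hx').bothA (thrB hx hx') (en_pos (hx1 hx).le) (Or.inl rfl) (Or.inl rfl) fun y y' F =>
    bothA_cert (s1 := true) (s2 := true) rfl hκ (en_pos (hx1 hx).le) (esg_rng (hx1 hx).le (hx2 hx').le).1 (mo_v x) covB10 covB30 hx hx'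
        Pool.Agent.Strip051.G.I69_7273.Tab.C.BA13.c_pp_001 noCut_EA noExt_EA F trivial trivial

theorem BA13_pp_011 {κ x : ℝ} (hκ : κ * h0 = ken x) (hx : ((740881858 : ℕ) : ℝ) / S ≤ x) (hx' : x ≤ (((740881858 : ℕ) : ℝ) + (40050571 : ℕ)) / S) :
    TriA PP.cur (VE (h0 * 0) 3 κ (h0 * x) (eng.v x) (h0 * (1 / 20)) (tnt (h0 * x) (1 / 5)) (tbl tK x) (tbl tL x) (tbl (smT h0⁻¹ tC) x)) 0 1 1 1 3 1 1 :=
  (sideB hx hx').bothA (thrB hx hx') (en_pos (hx1 hx).le) (Or.inl rfl) (Or.inl rfl) fun y y' F =>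
    bothA_cert (s1 := true) (s2 := true) rfl hκ (en_pos (hx1 hx).le) (esg_rng (hx1 hx).le (hx2 hx').le).1 (mo_v x) covB10 covB31 hx hx'
        Pool.Agent.Strip051.G.I69_7273.Tab.C.BA13.c_pp_011 noCut_EA noExt_EA F trivial trivial

theorem BA13_pp_012 {κ x : ℝ} (hκ : κ * h0 = ken x) (hx : ((740881858 : ℕ) : ℝ) / S ≤ x) (hx' : x ≤ (((740881858 : ℕ) : ℝ) + (40050571 : ℕ)) / S) :
    TriA PP.cur (VE (h0 * 0) 3 κ (h0 * x) (eng.v x) (h0 * (1 / 20)) (tnt (h0 * x) (1 / 5)) (tbl tK x) (tbl tL x) (tbl (smT h0⁻¹ tC) x)) 0 1 2 1 3 1 1 :=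
  (sideB hx hx').bothA (thrB hx hx') (en_pos (hx1 hx).le) (Or.inl rfl) (Or.inl rfl) fun y y' F =>
    bothA_cert (s1 := true) (s2 := true) rfl hκ (en_pos (hx1 hx).le) (esg_rng (hx1 hx).le (hx2 hx').le).1 (mo_v x) covB10 covB31 hx hx'
        Pool.Agent.Strip051.G.I69_7273.Tab.C.BA13.c_pp_012 noCut_EA noExt_EA F trivial trivial

theorem BA13_pp_022 {κ x : ℝ} (hκ : κ * h0 = ken x) (hx : ((740881858 : ℕ) : ℝ) / S ≤ x) (hx' : x ≤ (((740881858 : ℕ) : ℝ) + (40050571 : ℕ)) / S) :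
    TriA PP.cur (VE (h0 * 0) 3 κ (h0 * x) (eng.v x) (h0 * (1 / 20)) (tnt (h0 * x) (1 / 5)) (tbl tK x) (tbl tL x) (tbl (smT h0⁻¹ tC) x)) 0 2 2 1 3 1 1 :=
  (sideB hx hx').bothA (thrB hx hx') (en_pos (hx1 hx).le) (Or.inl rfl) (Or.inl rfl) fun y y' F =>
    bothA_cert (s1 := true) (s2 := true) rfl hκ (en_pos (hx1 hx).le) (esg_rng (hx1 hx).le (hx2 hx').le).1 (mo_v x) covB10 covB32 hx hx'
        Pool.Agent.Strip051.G.I69_7273.Tab.C.BA13.c_pp_022 noCut_EA noExt_EA F trivial trivial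

theorem BA13_pp_023 {κ x : ℝ} (hκ : κ * h0 = ken x) (hx : ((740881858 : ℕ) : ℝ) / S ≤ x) (hx' : x ≤ (((740881858 : ℕ) : ℝ) + (40050571 : ℕ)) / S) :
    TriA PP.cur (VE (h0 * 0) 3 κ (h0 * x) (eng.v x) (h0 * (1 / 20)) (tnt (h0 * x) (1 / 5)) (tbl tK x) (tbl tL x) (tbl (smT h0⁻¹ tC) x)) 0 2 3 1 3 1 1 :=
  (sideB hx hx').bothA (thrB hx hx') (en_pos (hx1 hx).le) (Or.inl rfl) (Or.inl rfl) fun y y' F =>
    bothA_cert (s1 := true) (s2 := true) rfl hκ (en_pos (hx1 hx).le) (esg_rng (hx1 hx).le (hx2 hx').le).1 (mo_v x) covB10 covB32 hx hx'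
        Pool.Agent.Strip051.G.I69_7273.Tab.C.BA13.c_pp_023 noCut_EA noExt_EA F trivial trivial

theorem BA13_pp_033 {κ x : ℝ} (hκ : κ * h0 = ken x) (hx : ((740881858 : ℕ) : ℝ) / S ≤ x) (hx' : x ≤ (((740881858 : ℕ) : ℝ) + (40050571 : ℕ)) / S) :
    TriA PP.cur (VE (h0 * 0) 3 κ (h0 * x) (eng.v x) (h0 * (1 / 20)) (tnt (h0 * x) (1 / 5)) (tbl tK x) (tbl tL x) (tbl (smT h0⁻¹ tC) x)) 0 3 3 1 3 1 1 :=
  (sideB hx hx').bothA (thrB hx hx') (en_pos (hx1 hx).le) (Or.inl rfl) (Or.inl rfl) fun y y' F =>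
    bothA_cert (s1 := true) (s2 := true) rfl hκ (en_pos (hx1 hx).le) (esg_rng (hx1 hx).le (hx2 hx').le).1 (mo_v x) covB10 covB33 hx hx'
        Pool.Agent.Strip051.G.I69_7273.Tab.C.BA13.c_pp_033 noCut_EA noExt_EA F trivial trivial

theorem BA13_pp_101 {κ x : ℝ} (hκ : κ * h0 = ken x) (hx : ((740881858 : ℕ) : ℝ) / S ≤ x) (hx' : x ≤ (((740881858 : ℕ) : ℝ) + (40050571 : ℕ)) / S) :
    TriA PP.cur (VE (h0 * 0) 3 κ (h0 * x) (eng.v x) (h0 * (1 / 20)) (tnt (h0 * x) (1 / 5)) (tbl tK x) (tbl tL x) (tbl (smT h0⁻¹ tC) x)) 1 0 1 1 3 1 1 :=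
  (sideB hx hx').bothA (thrB hx hx') (en_pos (hx1 hx).le) (Or.inl rfl) (Or.inl rfl) fun y y' F =>
    bothA_cert (s1 := true) (s2 := true) rfl hκ (en_pos (hx1 hx).le) (esg_rng (hx1 hx).le (hx2 hx').le).1 (mo_v x) covB11 covB30 hx hx'
        Pool.Agent.Strip051.G.I69_7273.Tab.C.BA13.c_pp_101 noCut_EA noExt_EA F trivial trivial

theorem BA13_pp_102 {κ x : ℝ} (hκ : κ * h0 = ken x) (hx : ((740881858 : ℕ) : ℝ) / S ≤ x) (hx' : x ≤ (((740881858 : ℕ) : ℝ) + (40050571 : ℕ)) / S) :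
    TriA PP.cur (VE (h0 * 0) 3 κ (h0 * x) (eng.v x) (h0 * (1 / 20)) (tnt (h0 * x) (1 / 5)) (tbl tK x) (tbl tL x) (tbl (smT h0⁻¹ tC) x)) 1 0 2 1 3 1 1 :=
  (sideB hx hx').bothA (thrB hx hx') (en_pos (hx1 hx).le) (Or.inl rfl) (Or.inl rfl) fun y y' F =>
    bothA_cert (s1 := true) (s2 := true) rfl hκ (en_pos (hx1 hx).le) (esg_rng (hx1 hx).le (hx2 hx').le).1 (mo_v x) covB11 covB30 hx hx'
        Pool.Agent.Strip051.G.I69_7273.Tab.C.BA13.c_pp_102 noCut_EA noExt_EA F trivial trivial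

theorem BA13_pp_112 {κ x : ℝ} (hκ : κ * h0 = ken x) (hx : ((740881858 : ℕ) : ℝ) / S ≤ x) (hx' : x ≤ (((740881858 : ℕ) : ℝ) + (40050571 : ℕ)) / S) :
    TriA PP.cur (VE (h0 * 0) 3 κ (h0 * x) (eng.v x) (h0 * (1 / 20)) (tnt (h0 * x) (1 / 5)) (tbl tK x) (tbl tL x) (tbl (smT h0⁻¹ tC) x)) 1 1 2 1 3 1 1 :=
  (sideB hx hx').bothA (thrB hx hx') (en_pos (hx1 hx).le) (Or.inl rfl) (Or.inl rfl) fun y y' F =>
    bothA_cert (s1 := true) (s2 := true) rfl hκ (en_pos (hx1 hx).le) (esg_rng (hx1 hx).le (hx2 hx').le).1 (mo_v x) covB11 covB31 hx hx'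
        Pool.Agent.Strip051.G.I69_7273.Tab.C.BA13.c_pp_112 noCut_EA noExt_EA F trivial trivial

theorem BA13_pp_113 {κ x : ℝ} (hκ : κ * h0 = ken x) (hx : ((740881858 : ℕ) : ℝ) / S ≤ x) (hx' : x ≤ (((740881858 : ℕ) : ℝ) + (40050571 : ℕ)) / S) :
    TriA PP.cur (VE (h0 * 0) 3 κ (h0 * x) (eng.v x) (h0 * (1 / 20)) (tnt (h0 * x) (1 / 5)) (tbl tK x) (tbl tL x) (tbl (smT h0⁻¹ tC) x)) 1 1 3 1 3 1 1 :=
  (sideB hx hx').bothA (thrB hx hx') (en_pos (hx1 hx).le) (Or.inl rfl) (Or.inl rfl) fun y y' F =>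
    bothA_cert (s1 := true) (s2 := true) rfl hκ (en_pos (hx1 hx).le) (esg_rng (hx1 hx).le (hx2 hx').le).1 (mo_v x) covB11 covB31 hx hx'
        Pool.Agent.Strip051.G.I69_7273.Tab.C.BA13.c_pp_113 noCut_EA noExt_EA F trivial trivial

theorem BA13_pp_123 {κ x : ℝ} (hκ : κ * h0 = ken x) (hx : ((740881858 : ℕ) : ℝ) / S ≤ x) (hx' : x ≤ (((740881858 : ℕ) : ℝ) + (40050571 : ℕ)) / S) :
    TriA PP.cur (VE (h0 * 0) 3 κ (h0 * x) (eng.v x) (h0 * (1 / 20)) (tnt (h0 * x) (1 / 5)) (tbl tK x) (tbl tL x) (tbl (smT h0⁻¹ tC) x)) 1 2 3 1 3 1 1 :=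
  (sideB hx hx').bothA (thrB hx hx') (en_pos (hx1 hx).le) (Or.inl rfl) (Or.inl rfl) fun y y' F =>
    bothA_cert (s1 := true) (s2 := true) rfl hκ (en_pos (hx1 hx).le) (esg_rng (hx1 hx).le (hx2 hx').le).1 (mo_v x) covB11 covB32 hx hx'
        Pool.Agent.Strip051.G.I69_7273.Tab.C.BA13.c_pp_123 noCut_EA noExt_EA F trivial trivial

theorem BA13_pp_133 {κ x : ℝ} (hκ : κ * h0 = ken x) (hx : ((740881858 : ℕ) : ℝ) / S ≤ x) (hx' : x ≤ (((740881858 : ℕ) : ℝ) + (40050571 : ℕ)) / S) :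
    TriA PP.cur (VE (h0 * 0) 3 κ (h0 * x) (eng.v x) (h0 * (1 / 20)) (tnt (h0 * x) (1 / 5)) (tbl tK x) (tbl tL x) (tbl (smT h0⁻¹ tC) x)) 1 3 3 1 3 1 1 :=
  (sideB hx hx').bothA (thrB hx hx') (en_pos (hx1 hx).le) (Or.inl rfl) (Or.inl rfl) fun y y' F =>
    bothA_cert (s1 := true) (s2 := true) rfl hκ (en_pos (hx1 hx).le) (esg_rng (hx1 hx).le (hx2 hx').le).1 (mo_v x) covB11 covB33 hx hx'
        Pool.Agent.Strip051.G.I69_7273.Tab.C.BA13.c_pp_133 noCut_EA noExt_EA F trivial trivial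

theorem BA13_pp_202 {κ x : ℝ} (hκ : κ * h0 = ken x) (hx : ((740881858 : ℕ) : ℝ) / S ≤ x) (hx' : x ≤ (((740881858 : ℕ) : ℝ) + (40050571 : ℕ)) / S) :
    TriA PP.cur (VE (h0 * 0) 3 κ (h0 * x) (eng.v x) (h0 * (1 / 20)) (tnt (h0 * x) (1 / 5)) (tbl tK x) (tbl tL x) (tbl (smT h0⁻¹ tC) x)) 2 0 2 1 3 1 1 :=
  (sideB hx hx').bothA (thrB hx hx') (en_pos (hx1 hx).le) (Or.inl rfl) (Or.inl rfl) fun y y' F =>
    (lt_or_ge (h0 * y) 1).elim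
      (fun h => bothA_cert (s1 := true) (s2 := true) rfl hκ (en_pos (hx1 hx).le) (esg_rng (hx1 hx).le (hx2 hx').le).1 (mo_v x) covB12a covB30 hx hx'
        Pool.Agent.Strip051.G.I69_7273.Tab.C.BA13.c_pp_202_a noCut_EA noExt_EA F h trivial)
      (fun h => bothA_cert (s1 := true) (s2 := true) rfl hκ (en_pos (hx1 hx).le) (esg_rng (hx1 hx).le (hx2 hx').le).1 (mo_v x) covB12b covB30 hx hx'
        Pool.Agent.Strip051.G.I69_7273.Tab.C.BA13.c_pp_202_b noCut_EA noExt_EA F h trivial)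

theorem BA13_pp_203 {κ x : ℝ} (hκ : κ * h0 = ken x) (hx : ((740881858 : ℕ) : ℝ) / S ≤ x) (hx' : x ≤ (((740881858 : ℕ) : ℝ) + (40050571 : ℕ)) / S) :
    TriA PP.cur (VE (h0 * 0) 3 κ (h0 * x) (eng.v x) (h0 * (1 / 20)) (tnt (h0 * x) (1 / 5)) (tbl tK x) (tbl tL x) (tbl (smT h0⁻¹ tC) x)) 2 0 3 1 3 1 1 :=
  (sideB hx hx').bothA (thrB hx hx') (en_pos (hx1 hx).le) (Or.inl rfl) (Or.inl rfl) fun y y' F =>
    (lt_or_ge (h0 * y) 1).elim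
      (fun h => bothA_cert (s1 := true) (s2 := true) rfl hκ (en_pos (hx1 hx).le) (esg_rng (hx1 hx).le (hx2 hx').le).1 (mo_v x) covB12a covB30 hx hx'
        Pool.Agent.Strip051.G.I69_7273.Tab.C.BA13.c_pp_203_a noCut_EA noExt_EA F h trivial)
      (fun h => bothA_cert (s1 := true) (s2 := true) rfl hκ (en_pos (hx1 hx).le) (esg_rng (hx1 hx).le (hx2 hx').le).1 (mo_v x) covB12b covB30 hx hx'
        Pool.Agent.Strip051.G.I69_7273.Tab.C.BA13.c_pp_203_b noCut_EA noExt_EA F h trivial)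

theorem BA13_pp_213 {κ x : ℝ} (hκ : κ * h0 = ken x) (hx : ((740881858 : ℕ) : ℝ) / S ≤ x) (hx' : x ≤ (((740881858 : ℕ) : ℝ) + (40050571 : ℕ)) / S) :
    TriA PP.cur (VE (h0 * 0) 3 κ (h0 * x) (eng.v x) (h0 * (1 / 20)) (tnt (h0 * x) (1 / 5)) (tbl tK x) (tbl tL x) (tbl (smT h0⁻¹ tC) x)) 2 1 3 1 3 1 1 :=
  (sideB hx hx').bothA (thrB hx hx') (en_pos (hx1 hx).le) (Or.inl rfl) (Or.inl rfl) fun y y' F =>
    (lt_or_ge (h0 * y) 1).elim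
      (fun h => bothA_cert (s1 := true) (s2 := true) rfl hκ (en_pos (hx1 hx).le) (esg_rng (hx1 hx).le (hx2 hx').le).1 (mo_v x) covB12a covB31 hx hx'
        Pool.Agent.Strip051.G.I69_7273.Tab.C.BA13.c_pp_213_a noCut_EA noExt_EA F h trivial)
      (fun h => bothA_cert (s1 := true) (s2 := true) rfl hκ (en_pos (hx1 hx).le) (esg_rng (hx1 hx).le (hx2 hx').le).1 (mo_v x) covB12b covB31 hx hx'
        Pool.Agent.Strip051.G.I69_7273.Tab.C.BA13.c_pp_213_b noCut_EA noExt_EA F h trivial)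

theorem BA13_pp_303 {κ x : ℝ} (hκ : κ * h0 = ken x) (hx : ((740881858 : ℕ) : ℝ) / S ≤ x) (hx' : x ≤ (((740881858 : ℕ) : ℝ) + (40050571 : ℕ)) / S) :
    TriA PP.cur (VE (h0 * 0) 3 κ (h0 * x) (eng.v x) (h0 * (1 / 20)) (tnt (h0 * x) (1 / 5)) (tbl tK x) (tbl tL x) (tbl (smT h0⁻¹ tC) x)) 3 0 3 1 3 1 1 :=
  (sideB hx hx').bothA (thrB hx hx') (en_pos (hx1 hx).le) (Or.inl rfl) (Or.inl rfl) fun y y' F =>
    bothA_cert (s1 := true) (s2 := true) rfl hκ (en_pos (hx1 hx).le) (esg_rng (hx1 hx).le (hx2 hx').le).1 (mo_v x) covB13 covB30 hx hx'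
        Pool.Agent.Strip051.G.I69_7273.Tab.C.BA13.c_pp_303 noCut_EA noExt_EA F trivial trivial

theorem BA13_pp_313 {κ x : ℝ} (hκ : κ * h0 = ken x) (hx : ((740881858 : ℕ) : ℝ) / S ≤ x) (hx' : x ≤ (((740881858 : ℕ) : ℝ) + (40050571 : ℕ)) / S) :
    TriA PP.cur (VE (h0 * 0) 3 κ (h0 * x) (eng.v x) (h0 * (1 / 20)) (tnt (h0 * x) (1 / 5)) (tbl tK x) (tbl tL x) (tbl (smT h0⁻¹ tC) x)) 3 1 3 1 3 1 1 :=
  (sideB hx hx').bothA (thrB hx hx') (en_pos (hx1 hx).le) (Or.inl rfl) (Or.inl rfl) fun y y' F =>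
    bothA_cert (s1 := true) (s2 := true) rfl hκ (en_pos (hx1 hx).le) (esg_rng (hx1 hx).le (hx2 hx').le).1 (mo_v x) covB13 covB31 hx hx'
        Pool.Agent.Strip051.G.I69_7273.Tab.C.BA13.c_pp_313 noCut_EA noExt_EA F trivial trivial

theorem BA13_pm_001 {κ x : ℝ} (hκ : κ * h0 = ken x) (hx : ((740881858 : ℕ) : ℝ) / S ≤ x) (hx' : x ≤ (((740881858 : ℕ) : ℝ) + (40050571 : ℕ)) / S) :
    TriA PP.cur (VE (h0 * 0) 3 κ (h0 * x) (eng.v x) (h0 * (1 / 20)) (tnt (h0 * x) (1 / 5)) (tbl tK x) (tbl tL x) (tbl (smT h0⁻¹ tC) x)) 0 0 1 1 3 1 (-1) :=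
  (sideB hx hx').bothA (thrB hx hx') (en_pos (hx1 hx).le) (Or.inl rfl) (Or.inr rfl) fun y y' F =>
    bothA_cert (s1 := true) (s2 := false) rfl hκ (en_pos (hx1 hx).le) (esg_rng (hx1 hx).le (hx2 hx').le).1 (mo_v x) covB10 covB30 hx hx'
        Pool.Agent.Strip051.G.I69_7273.Tab.C.BA13.c_pm_001 noCut_EA noExt_EA F trivial trivial

theorem BA13_pm_011 {κ x : ℝ} (hκ : κ * h0 = ken x) (hx : ((740881858 : ℕ) : ℝ) / S ≤ x) (hx' : x ≤ (((740881858 : ℕ) : ℝ) + (40050571 : ℕ)) / S) :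
    TriA PP.cur (VE (h0 * 0) 3 κ (h0 * x) (eng.v x) (h0 * (1 / 20)) (tnt (h0 * x) (1 / 5)) (tbl tK x) (tbl tL x) (tbl (smT h0⁻¹ tC) x)) 0 1 1 1 3 1 (-1) :=
  (sideB hx hx').bothA (thrB hx hx') (en_pos (hx1 hx).le) (Or.inl rfl) (Or.inr rfl) fun y y' F =>
    bothA_cert (s1 := true) (s2 := false) rfl hκ (en_pos (hx1 hx).le) (esg_rng (hx1 hx).le (hx2 hx').le).1 (mo_v x) covB10 covB31 hx hx'
        Pool.Agent.Strip051.G.I69_7273.Tab.C.BA13.c_pm_011 (cutEA_cons (Pool.Agent.Strip051.G.I69_7273.Tab.altB_A011R_13 hκ hx hx') cutEA_nil) noExt_EA F trivial trivial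

theorem BA13_pm_012 {κ x : ℝ} (hκ : κ * h0 = ken x) (hx : ((740881858 : ℕ) : ℝ) / S ≤ x) (hx' : x ≤ (((740881858 : ℕ) : ℝ) + (40050571 : ℕ)) / S) :
    TriA PP.cur (VE (h0 * 0) 3 κ (h0 * x) (eng.v x) (h0 * (1 / 20)) (tnt (h0 * x) (1 / 5)) (tbl tK x) (tbl tL x) (tbl (smT h0⁻¹ tC) x)) 0 1 2 1 3 1 (-1) :=
  (sideB hx hx').bothA (thrB hx hx') (en_pos (hx1 hx).le) (Or.inl rfl) (Or.inr rfl) fun y y' F =>
    bothA_cert (s1 := true) (s2 := false) rfl hκ (en_pos (hx1 hx).le) (esg_rng (hx1 hx).le (hx2 hx').le).1 (mo_v x) covB10 covB31 hx hx'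
        Pool.Agent.Strip051.G.I69_7273.Tab.C.BA13.c_pm_012 (cutEA_cons (Pool.Agent.Strip051.G.I69_7273.Tab.altB_A012R_13 hκ hx hx') cutEA_nil) noExt_EA F trivial trivial

theorem BA13_pm_022 {κ x : ℝ} (hκ : κ * h0 = ken x) (hx : ((740881858 : ℕ) : ℝ) / S ≤ x) (hx' : x ≤ (((740881858 : ℕ) : ℝ) + (40050571 : ℕ)) / S) :
    TriA PP.cur (VE (h0 * 0) 3 κ (h0 * x) (eng.v x) (h0 * (1 / 20)) (tnt (h0 * x) (1 / 5)) (tbl tK x) (tbl tL x) (tbl (smT h0⁻¹ tC) x)) 0 2 2 1 3 1 (-1) :=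
  (sideB hx hx').bothA (thrB hx hx') (en_pos (hx1 hx).le) (Or.inl rfl) (Or.inr rfl) fun y y' F =>
    bothA_cert (s1 := true) (s2 := false) rfl hκ (en_pos (hx1 hx).le) (esg_rng (hx1 hx).le (hx2 hx').le).1 (mo_v x) covB10 covB32 hx hx'
        Pool.Agent.Strip051.G.I69_7273.Tab.C.BA13.c_pm_022 noCut_EA noExt_EA F trivial trivial

theorem BA13_pm_023 {κ x : ℝ} (hκ : κ * h0 = ken x) (hx : ((740881858 : ℕ) : ℝ) / S ≤ x) (hx' : x ≤ (((740881858 : ℕ) : ℝ) + (40050571 : ℕ)) / S) :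
    TriA PP.cur (VE (h0 * 0) 3 κ (h0 * x) (eng.v x) (h0 * (1 / 20)) (tnt (h0 * x) (1 / 5)) (tbl tK x) (tbl tL x) (tbl (smT h0⁻¹ tC) x)) 0 2 3 1 3 1 (-1) :=
  (sideB hx hx').bothA (thrB hx hx') (en_pos (hx1 hx).le) (Or.inl rfl) (Or.inr rfl) fun y y' F =>
    bothA_cert (s1 := true) (s2 := false) rfl hκ (en_pos (hx1 hx).le) (esg_rng (hx1 hx).le (hx2 hx').le).1 (mo_v x) covB10 covB32 hx hx'
        Pool.Agent.Strip051.G.I69_7273.Tab.C.BA13.c_pm_023 noCut_EA noExt_EA F trivial trivial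

theorem BA13_pm_033 {κ x : ℝ} (hκ : κ * h0 = ken x) (hx : ((740881858 : ℕ) : ℝ) / S ≤ x) (hx' : x ≤ (((740881858 : ℕ) : ℝ) + (40050571 : ℕ)) / S) :
    TriA PP.cur (VE (h0 * 0) 3 κ (h0 * x) (eng.v x) (h0 * (1 / 20)) (tnt (h0 * x) (1 / 5)) (tbl tK x) (tbl tL x) (tbl (smT h0⁻¹ tC) x)) 0 3 3 1 3 1 (-1) :=
  (sideB hx hx').bothA (thrB hx hx') (en_pos (hx1 hx).le) (Or.inl rfl) (Or.inr rfl) fun y y' F =>
    bothA_cert (s1 := true) (s2 := false) rfl hκ (en_pos (hx1 hx).le) (esg_rng (hx1 hx).le (hx2 hx').le).1 (mo_v x) covB10 covB33 hx hx'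
        Pool.Agent.Strip051.G.I69_7273.Tab.C.BA13.c_pm_033 noCut_EA noExt_EA F trivial trivial

theorem BA13_pm_101 {κ x : ℝ} (hκ : κ * h0 = ken x) (hx : ((740881858 : ℕ) : ℝ) / S ≤ x) (hx' : x ≤ (((740881858 : ℕ) : ℝ) + (40050571 : ℕ)) / S) :
    TriA PP.cur (VE (h0 * 0) 3 κ (h0 * x) (eng.v x) (h0 * (1 / 20)) (tnt (h0 * x) (1 / 5)) (tbl tK x) (tbl tL x) (tbl (smT h0⁻¹ tC) x)) 1 0 1 1 3 1 (-1) :=
  (sideB hx hx').bothA (thrB hx hx') (en_pos (hx1 hx).le) (Or.inl rfl) (Or.inr rfl) fun y y' F =>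
    bothA_cert (s1 := true) (s2 := false) rfl hκ (en_pos (hx1 hx).le) (esg_rng (hx1 hx).le (hx2 hx').le).1 (mo_v x) covB11 covB30 hx hx'
        Pool.Agent.Strip051.G.I69_7273.Tab.C.BA13.c_pm_101 noCut_EA noExt_EA F trivial trivial

theorem BA13_pm_102 {κ x : ℝ} (hκ : κ * h0 = ken x) (hx : ((740881858 : ℕ) : ℝ) / S ≤ x) (hx' : x ≤ (((740881858 : ℕ) : ℝ) + (40050571 : ℕ)) / S) :
    TriA PP.cur (VE (h0 * 0) 3 κ (h0 * x) (eng.v x) (h0 * (1 / 20)) (tnt (h0 * x) (1 / 5)) (tbl tK x) (tbl tL x) (tbl (smT h0⁻¹ tC) x)) 1 0 2 1 3 1 (-1) :=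
  (sideB hx hx').bothA (thrB hx hx') (en_pos (hx1 hx).le) (Or.inl rfl) (Or.inr rfl) fun y y' F =>
    bothA_cert (s1 := true) (s2 := false) rfl hκ (en_pos (hx1 hx).le) (esg_rng (hx1 hx).le (hx2 hx').le).1 (mo_v x) covB11 covB30 hx hx'
        Pool.Agent.Strip051.G.I69_7273.Tab.C.BA13.c_pm_102 noCut_EA noExt_EA F trivial trivial

theorem BA13_pm_112 {κ x : ℝ} (hκ : κ * h0 = ken x) (hx : ((740881858 : ℕ) : ℝ) / S ≤ x) (hx' : x ≤ (((740881858 : ℕ) : ℝ) + (40050571 : ℕ)) / S) :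
    TriA PP.cur (VE (h0 * 0) 3 κ (h0 * x) (eng.v x) (h0 * (1 / 20)) (tnt (h0 * x) (1 / 5)) (tbl tK x) (tbl tL x) (tbl (smT h0⁻¹ tC) x)) 1 1 2 1 3 1 (-1) :=
  (sideB hx hx').bothA (thrB hx hx') (en_pos (hx1 hx).le) (Or.inl rfl) (Or.inr rfl) fun y y' F =>
    bothA_cert (s1 := true) (s2 := false) rfl hκ (en_pos (hx1 hx).le) (esg_rng (hx1 hx).le (hx2 hx').le).1 (mo_v x) covB11 covB31 hx hx'
        Pool.Agent.Strip051.G.I69_7273.Tab.C.BA13.c_pm_112 noCut_EA noExt_EA F trivial trivial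

theorem BA13_pm_113 {κ x : ℝ} (hκ : κ * h0 = ken x) (hx : ((740881858 : ℕ) : ℝ) / S ≤ x) (hx' : x ≤ (((740881858 : ℕ) : ℝ) + (40050571 : ℕ)) / S) :
    TriA PP.cur (VE (h0 * 0) 3 κ (h0 * x) (eng.v x) (h0 * (1 / 20)) (tnt (h0 * x) (1 / 5)) (tbl tK x) (tbl tL x) (tbl (smT h0⁻¹ tC) x)) 1 1 3 1 3 1 (-1) :=
  (sideB hx hx').bothA (thrB hx hx') (en_pos (hx1 hx).le) (Or.inl rfl) (Or.inr rfl) fun y y' F =>
    bothA_cert (s1 := true) (s2 := false) rfl hκ (en_pos (hx1 hx).le) (esg_rng (hx1 hx).le (hx2 hx').le).1 (mo_v x) covB11 covB31 hx hx'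
        Pool.Agent.Strip051.G.I69_7273.Tab.C.BA13.c_pm_113 noCut_EA noExt_EA F trivial trivial

theorem BA13_pm_123 {κ x : ℝ} (hκ : κ * h0 = ken x) (hx : ((740881858 : ℕ) : ℝ) / S ≤ x) (hx' : x ≤ (((740881858 : ℕ) : ℝ) + (40050571 : ℕ)) / S) :
    TriA PP.cur (VE (h0 * 0) 3 κ (h0 * x) (eng.v x) (h0 * (1 / 20)) (tnt (h0 * x) (1 / 5)) (tbl tK x) (tbl tL x) (tbl (smT h0⁻¹ tC) x)) 1 2 3 1 3 1 (-1) :=
  (sideB hx hx').bothA (thrB hx hx') (en_pos (hx1 hx).le) (Or.inl rfl) (Or.inr rfl) fun y y' F =>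
    bothA_cert (s1 := true) (s2 := false) rfl hκ (en_pos (hx1 hx).le) (esg_rng (hx1 hx).le (hx2 hx').le).1 (mo_v x) covB11 covB32 hx hx'
        Pool.Agent.Strip051.G.I69_7273.Tab.C.BA13.c_pm_123 noCut_EA noExt_EA F trivial trivial

theorem BA13_pm_133 {κ x : ℝ} (hκ : κ * h0 = ken x) (hx : ((740881858 : ℕ) : ℝ) / S ≤ x) (hx' : x ≤ (((740881858 : ℕ) : ℝ) + (40050571 : ℕ)) / S) :
    TriA PP.cur (VE (h0 * 0) 3 κ (h0 * x) (eng.v x) (h0 * (1 / 20)) (tnt (h0 * x) (1 / 5)) (tbl tK x) (tbl tL x) (tbl (smT h0⁻¹ tC) x)) 1 3 3 1 3 1 (-1) :=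
  (sideB hx hx').bothA (thrB hx hx') (en_pos (hx1 hx).le) (Or.inl rfl) (Or.inr rfl) fun y y' F =>
    bothA_cert (s1 := true) (s2 := false) rfl hκ (en_pos (hx1 hx).le) (esg_rng (hx1 hx).le (hx2 hx').le).1 (mo_v x) covB11 covB33 hx hx'
        Pool.Agent.Strip051.G.I69_7273.Tab.C.BA13.c_pm_133 noCut_EA noExt_EA F trivial trivial

theorem BA13_pm_202 {κ x : ℝ} (hκ : κ * h0 = ken x) (hx : ((740881858 : ℕ) : ℝ) / S ≤ x) (hx' : x ≤ (((740881858 : ℕ) : ℝ) + (40050571 : ℕ)) / S) :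
    TriA PP.cur (VE (h0 * 0) 3 κ (h0 * x) (eng.v x) (h0 * (1 / 20)) (tnt (h0 * x) (1 / 5)) (tbl tK x) (tbl tL x) (tbl (smT h0⁻¹ tC) x)) 2 0 2 1 3 1 (-1) :=
  (sideB hx hx').bothA (thrB hx hx') (en_pos (hx1 hx).le) (Or.inl rfl) (Or.inr rfl) fun y y' F =>
    (lt_or_ge (h0 * y) 1).elim
      (fun h => bothA_cert (s1 := true) (s2 := false) rfl hκ (en_pos (hx1 hx).le) (esg_rng (hx1 hx).le (hx2 hx').le).1 (mo_v x) covB12a covB30 hx hx'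
        Pool.Agent.Strip051.G.I69_7273.Tab.C.BA13.c_pm_202_a noCut_EA noExt_EA F h trivial)
      (fun h => bothA_cert (s1 := true) (s2 := false) rfl hκ (en_pos (hx1 hx).le) (esg_rng (hx1 hx).le (hx2 hx').le).1 (mo_v x) covB12b covB30 hx hx'
        Pool.Agent.Strip051.G.I69_7273.Tab.C.BA13.c_pm_202_b noCut_EA noExt_EA F h trivial)

theorem BA13_pm_203 {κ x : ℝ} (hκ : κ * h0 = ken x) (hx : ((740881858 : ℕ) : ℝ) / S ≤ x) (hx' : x ≤ (((740881858 : ℕ) : ℝ) + (40050571 : ℕ)) / S) :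
    TriA PP.cur (VE (h0 * 0) 3 κ (h0 * x) (eng.v x) (h0 * (1 / 20)) (tnt (h0 * x) (1 / 5)) (tbl tK x) (tbl tL x) (tbl (smT h0⁻¹ tC) x)) 2 0 3 1 3 1 (-1) :=
  (sideB hx hx').bothA (thrB hx hx') (en_pos (hx1 hx).le) (Or.inl rfl) (Or.inr rfl) fun y y' F =>
    (lt_or_ge (h0 * y) 1).elim
      (fun h => bothA_cert (s1 := true) (s2 := false) rfl hκ (en_pos (hx1 hx).le) (esg_rng (hx1 hx).le (hx2 hx').le).1 (mo_v x) covB12a covB30 hx hx'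
        Pool.Agent.Strip051.G.I69_7273.Tab.C.BA13.c_pm_203_a noCut_EA noExt_EA F h trivial)
      (fun h => bothA_cert (s1 := true) (s2 := false) rfl hκ (en_pos (hx1 hx).le) (esg_rng (hx1 hx).le (hx2 hx').le).1 (mo_v x) covB12b covB30 hx hx'
        Pool.Agent.Strip051.G.I69_7273.Tab.C.BA13.c_pm_203_b noCut_EA noExt_EA F h trivial)

theorem BA13_pm_213 {κ x : ℝ} (hκ : κ * h0 = ken x) (hx : ((740881858 : ℕ) : ℝ) / S ≤ x) (hx' : x ≤ (((740881858 : ℕ) : ℝ) + (40050571 : ℕ)) / S) :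
    TriA PP.cur (VE (h0 * 0) 3 κ (h0 * x) (eng.v x) (h0 * (1 / 20)) (tnt (h0 * x) (1 / 5)) (tbl tK x) (tbl tL x) (tbl (smT h0⁻¹ tC) x)) 2 1 3 1 3 1 (-1) :=
  (sideB hx hx').bothA (thrB hx hx') (en_pos (hx1 hx).le) (Or.inl rfl) (Or.inr rfl) fun y y' F =>
    (lt_or_ge (h0 * y) 1).elim
      (fun h => bothA_cert (s1 := true) (s2 := false) rfl hκ (en_pos (hx1 hx).le) (esg_rng (hx1 hx).le (hx2 hx').le).1 (mo_v x) covB12a covB31 hx hx'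
        Pool.Agent.Strip051.G.I69_7273.Tab.C.BA13.c_pm_213_a noCut_EA noExt_EA F h trivial)
      (fun h => bothA_cert (s1 := true) (s2 := false) rfl hκ (en_pos (hx1 hx).le) (esg_rng (hx1 hx).le (hx2 hx').le).1 (mo_v x) covB12b covB31 hx hx'
        Pool.Agent.Strip051.G.I69_7273.Tab.C.BA13.c_pm_213_b noCut_EA noExt_EA F h trivial)

theorem BA13_pm_303 {κ x : ℝ} (hκ : κ * h0 = ken x) (hx : ((740881858 : ℕ) : ℝ) / S ≤ x) (hx' : x ≤ (((740881858 : ℕ) : ℝ) + (40050571 : ℕ)) / S) :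
    TriA PP.cur (VE (h0 * 0) 3 κ (h0 * x) (eng.v x) (h0 * (1 / 20)) (tnt (h0 * x) (1 / 5)) (tbl tK x) (tbl tL x) (tbl (smT h0⁻¹ tC) x)) 3 0 3 1 3 1 (-1) :=
  (sideB hx hx').bothA (thrB hx hx') (en_pos (hx1 hx).le) (Or.inl rfl) (Or.inr rfl) fun y y' F =>
    bothA_cert (s1 := true) (s2 := false) rfl hκ (en_pos (hx1 hx).le) (esg_rng (hx1 hx).le (hx2 hx').le).1 (mo_v x) covB13 covB30 hx hx'
        Pool.Agent.Strip051.G.I69_7273.Tab.C.BA13.c_pm_303 noCut_EA noExt_EA F trivial trivial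

theorem BA13_pm_313 {κ x : ℝ} (hκ : κ * h0 = ken x) (hx : ((740881858 : ℕ) : ℝ) / S ≤ x) (hx' : x ≤ (((740881858 : ℕ) : ℝ) + (40050571 : ℕ)) / S) :
    TriA PP.cur (VE (h0 * 0) 3 κ (h0 * x) (eng.v x) (h0 * (1 / 20)) (tnt (h0 * x) (1 / 5)) (tbl tK x) (tbl tL x) (tbl (smT h0⁻¹ tC) x)) 3 1 3 1 3 1 (-1) :=
  (sideB hx hx').bothA (thrB hx hx') (en_pos (hx1 hx).le) (Or.inl rfl) (Or.inr rfl) fun y y' F =>
    bothA_cert (s1 := true) (s2 := false) rfl hκ (en_pos (hx1 hx).le) (esg_rng (hx1 hx).le (hx2 hx').le).1 (mo_v x) covB13 covB31 hx hx'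
        Pool.Agent.Strip051.G.I69_7273.Tab.C.BA13.c_pm_313 noCut_EA noExt_EA F trivial trivial

theorem BA13_mm_001 {κ x : ℝ} (hκ : κ * h0 = ken x) (hx : ((740881858 : ℕ) : ℝ) / S ≤ x) (hx' : x ≤ (((740881858 : ℕ) : ℝ) + (40050571 : ℕ)) / S) :
    TriA PP.cur (VE (h0 * 0) 3 κ (h0 * x) (eng.v x) (h0 * (1 / 20)) (tnt (h0 * x) (1 / 5)) (tbl tK x) (tbl tL x) (tbl (smT h0⁻¹ tC) x)) 0 0 1 1 3 (-1) (-1) :=
  (sideB hx hx').bothA (thrB hx hx') (en_pos (hx1 hx).le) (Or.inr rfl) (Or.inr rfl) fun y y' F =>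
    bothA_cert (s1 := false) (s2 := false) rfl hκ (en_pos (hx1 hx).le) (esg_rng (hx1 hx).le (hx2 hx').le).1 (mo_v x) covB10 covB30 hx hx'
        Pool.Agent.Strip051.G.I69_7273.Tab.C.BA13.c_mm_001 noCut_EA noExt_EA F trivial trivial

theorem BA13_mm_011 {κ x : ℝ} (hκ : κ * h0 = ken x) (hx : ((740881858 : ℕ) : ℝ) / S ≤ x) (hx' : x ≤ (((740881858 : ℕ) : ℝ) + (40050571 : ℕ)) / S) :
    TriA PP.cur (VE (h0 * 0) 3 κ (h0 * x) (eng.v x) (h0 * (1 / 20)) (tnt (h0 * x) (1 / 5)) (tbl tK x) (tbl tL x) (tbl (smT h0⁻¹ tC) x)) 0 1 1 1 3 (-1) (-1) :=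
  (sideB hx hx').bothA (thrB hx hx') (en_pos (hx1 hx).le) (Or.inr rfl) (Or.inr rfl) fun y y' F =>
    bothA_cert (s1 := false) (s2 := false) rfl hκ (en_pos (hx1 hx).le) (esg_rng (hx1 hx).le (hx2 hx').le).1 (mo_v x) covB10 covB31 hx hx'
        Pool.Agent.Strip051.G.I69_7273.Tab.C.BA13.c_mm_011 noCut_EA noExt_EA F trivial trivial

theorem BA13_mm_012 {κ x : ℝ} (hκ : κ * h0 = ken x) (hx : ((740881858 : ℕ) : ℝ) / S ≤ x) (hx' : x ≤ (((740881858 : ℕ) : ℝ) + (40050571 : ℕ)) / S) :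
    TriA PP.cur (VE (h0 * 0) 3 κ (h0 * x) (eng.v x) (h0 * (1 / 20)) (tnt (h0 * x) (1 / 5)) (tbl tK x) (tbl tL x) (tbl (smT h0⁻¹ tC) x)) 0 1 2 1 3 (-1) (-1) :=
  (sideB hx hx').bothA (thrB hx hx') (en_pos (hx1 hx).le) (Or.inr rfl) (Or.inr rfl) fun y y' F =>
    bothA_cert (s1 := false) (s2 := false) rfl hκ (en_pos (hx1 hx).le) (esg_rng (hx1 hx).le (hx2 hx').le).1 (mo_v x) covB10 covB31 hx hx'
        Pool.Agent.Strip051.G.I69_7273.Tab.C.BA13.c_mm_012 noCut_EA noExt_EA F trivial trivial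

theorem BA13_mm_022 {κ x : ℝ} (hκ : κ * h0 = ken x) (hx : ((740881858 : ℕ) : ℝ) / S ≤ x) (hx' : x ≤ (((740881858 : ℕ) : ℝ) + (40050571 : ℕ)) / S) :
    TriA PP.cur (VE (h0 * 0) 3 κ (h0 * x) (eng.v x) (h0 * (1 / 20)) (tnt (h0 * x) (1 / 5)) (tbl tK x) (tbl tL x) (tbl (smT h0⁻¹ tC) x)) 0 2 2 1 3 (-1) (-1) :=
  (sideB hx hx').bothA (thrB hx hx') (en_pos (hx1 hx).le) (Or.inr rfl) (Or.inr rfl) fun y y' F =>
    bothA_cert (s1 := false) (s2 := false) rfl hκ (en_pos (hx1 hx).le) (esg_rng (hx1 hx).le (hx2 hx').le).1 (mo_v x) covB10 covB32 hx hx'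
        Pool.Agent.Strip051.G.I69_7273.Tab.C.BA13.c_mm_022 noCut_EA noExt_EA F trivial trivial

theorem BA13_mm_023 {κ x : ℝ} (hκ : κ * h0 = ken x) (hx : ((740881858 : ℕ) : ℝ) / S ≤ x) (hx' : x ≤ (((740881858 : ℕ) : ℝ) + (40050571 : ℕ)) / S) :
    TriA PP.cur (VE (h0 * 0) 3 κ (h0 * x) (eng.v x) (h0 * (1 / 20)) (tnt (h0 * x) (1 / 5)) (tbl tK x) (tbl tL x) (tbl (smT h0⁻¹ tC) x)) 0 2 3 1 3 (-1) (-1) :=
  (sideB hx hx').bothA (thrB hx hx') (en_pos (hx1 hx).le) (Or.inr rfl) (Or.inr rfl) fun y y' F =>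
    bothA_cert (s1 := false) (s2 := false) rfl hκ (en_pos (hx1 hx).le) (esg_rng (hx1 hx).le (hx2 hx').le).1 (mo_v x) covB10 covB32 hx hx'
        Pool.Agent.Strip051.G.I69_7273.Tab.C.BA13.c_mm_023 noCut_EA noExt_EA F trivial trivial

theorem BA13_mm_033 {κ x : ℝ} (hκ : κ * h0 = ken x) (hx : ((740881858 : ℕ) : ℝ) / S ≤ x) (hx' : x ≤ (((740881858 : ℕ) : ℝ) + (40050571 : ℕ)) / S) :
    TriA PP.cur (VE (h0 * 0) 3 κ (h0 * x) (eng.v x) (h0 * (1 / 20)) (tnt (h0 * x) (1 / 5)) (tbl tK x) (tbl tL x) (tbl (smT h0⁻¹ tC) x)) 0 3 3 1 3 (-1) (-1) :=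
  (sideB hx hx').bothA (thrB hx hx') (en_pos (hx1 hx).le) (Or.inr rfl) (Or.inr rfl) fun y y' F =>
    bothA_cert (s1 := false) (s2 := false) rfl hκ (en_pos (hx1 hx).le) (esg_rng (hx1 hx).le (hx2 hx').le).1 (mo_v x) covB10 covB33 hx hx'
        Pool.Agent.Strip051.G.I69_7273.Tab.C.BA13.c_mm_033 noCut_EA noExt_EA F trivial trivial

theorem BA13_mm_101 {κ x : ℝ} (hκ : κ * h0 = ken x) (hx : ((740881858 : ℕ) : ℝ) / S ≤ x) (hx' : x ≤ (((740881858 : ℕ) : ℝ) + (40050571 : ℕ)) / S) :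
    TriA PP.cur (VE (h0 * 0) 3 κ (h0 * x) (eng.v x) (h0 * (1 / 20)) (tnt (h0 * x) (1 / 5)) (tbl tK x) (tbl tL x) (tbl (smT h0⁻¹ tC) x)) 1 0 1 1 3 (-1) (-1) :=
  (sideB hx hx').bothA (thrB hx hx') (en_pos (hx1 hx).le) (Or.inr rfl) (Or.inr rfl) fun y y' F =>
    bothA_cert (s1 := false) (s2 := false) rfl hκ (en_pos (hx1 hx).le) (esg_rng (hx1 hx).le (hx2 hx').le).1 (mo_v x) covB11 covB30 hx hx'
        Pool.Agent.Strip051.G.I69_7273.Tab.C.BA13.c_mm_101 noCut_EA noExt_EA F trivial trivial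

theorem BA13_mm_102 {κ x : ℝ} (hκ : κ * h0 = ken x) (hx : ((740881858 : ℕ) : ℝ) / S ≤ x) (hx' : x ≤ (((740881858 : ℕ) : ℝ) + (40050571 : ℕ)) / S) :
    TriA PP.cur (VE (h0 * 0) 3 κ (h0 * x) (eng.v x) (h0 * (1 / 20)) (tnt (h0 * x) (1 / 5)) (tbl tK x) (tbl tL x) (tbl (smT h0⁻¹ tC) x)) 1 0 2 1 3 (-1) (-1) :=
  (sideB hx hx').bothA (thrB hx hx') (en_pos (hx1 hx).le) (Or.inr rfl) (Or.inr rfl) fun y y' F =>
    bothA_cert (s1 := false) (s2 := false) rfl hκ (en_pos (hx1 hx).le) (esg_rng (hx1 hx).le (hx2 hx').le).1 (mo_v x) covB11 covB30 hx hx'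
        Pool.Agent.Strip051.G.I69_7273.Tab.C.BA13.c_mm_102 noCut_EA noExt_EA F trivial trivial

theorem BA13_mm_112 {κ x : ℝ} (hκ : κ * h0 = ken x) (hx : ((740881858 : ℕ) : ℝ) / S ≤ x) (hx' : x ≤ (((740881858 : ℕ) : ℝ) + (40050571 : ℕ)) / S) :
    TriA PP.cur (VE (h0 * 0) 3 κ (h0 * x) (eng.v x) (h0 * (1 / 20)) (tnt (h0 * x) (1 / 5)) (tbl tK x) (tbl tL x) (tbl (smT h0⁻¹ tC) x)) 1 1 2 1 3 (-1) (-1) :=
  (sideB hx hx').bothA (thrB hx hx') (en_pos (hx1 hx).le) (Or.inr rfl) (Or.inr rfl) fun y y' F =>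
    bothA_cert (s1 := false) (s2 := false) rfl hκ (en_pos (hx1 hx).le) (esg_rng (hx1 hx).le (hx2 hx').le).1 (mo_v x) covB11 covB31 hx hx'
        Pool.Agent.Strip051.G.I69_7273.Tab.C.BA13.c_mm_112 noCut_EA noExt_EA F trivial trivial

theorem BA13_mm_113 {κ x : ℝ} (hκ : κ * h0 = ken x) (hx : ((740881858 : ℕ) : ℝ) / S ≤ x) (hx' : x ≤ (((740881858 : ℕ) : ℝ) + (40050571 : ℕ)) / S) :
    TriA PP.cur (VE (h0 * 0) 3 κ (h0 * x) (eng.v x) (h0 * (1 / 20)) (tnt (h0 * x) (1 / 5)) (tbl tK x) (tbl tL x) (tbl (smT h0⁻¹ tC) x)) 1 1 3 1 3 (-1) (-1) :=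
  (sideB hx hx').bothA (thrB hx hx') (en_pos (hx1 hx).le) (Or.inr rfl) (Or.inr rfl) fun y y' F =>
    bothA_cert (s1 := false) (s2 := false) rfl hκ (en_pos (hx1 hx).le) (esg_rng (hx1 hx).le (hx2 hx').le).1 (mo_v x) covB11 covB31 hx hx'
        Pool.Agent.Strip051.G.I69_7273.Tab.C.BA13.c_mm_113 noCut_EA noExt_EA F trivial trivial

theorem BA13_mm_123 {κ x : ℝ} (hκ : κ * h0 = ken x) (hx : ((740881858 : ℕ) : ℝ) / S ≤ x) (hx' : x ≤ (((740881858 : ℕ) : ℝ) + (40050571 : ℕ)) / S) :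
    TriA PP.cur (VE (h0 * 0) 3 κ (h0 * x) (eng.v x) (h0 * (1 / 20)) (tnt (h0 * x) (1 / 5)) (tbl tK x) (tbl tL x) (tbl (smT h0⁻¹ tC) x)) 1 2 3 1 3 (-1) (-1) :=
  (sideB hx hx').bothA (thrB hx hx') (en_pos (hx1 hx).le) (Or.inr rfl) (Or.inr rfl) fun y y' F =>
    bothA_cert (s1 := false) (s2 := false) rfl hκ (en_pos (hx1 hx).le) (esg_rng (hx1 hx).le (hx2 hx').le).1 (mo_v x) covB11 covB32 hx hx'
        Pool.Agent.Strip051.G.I69_7273.Tab.C.BA13.c_mm_123 noCut_EA noExt_EA F trivial trivial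

theorem BA13_mm_133 {κ x : ℝ} (hκ : κ * h0 = ken x) (hx : ((740881858 : ℕ) : ℝ) / S ≤ x) (hx' : x ≤ (((740881858 : ℕ) : ℝ) + (40050571 : ℕ)) / S) :
    TriA PP.cur (VE (h0 * 0) 3 κ (h0 * x) (eng.v x) (h0 * (1 / 20)) (tnt (h0 * x) (1 / 5)) (tbl tK x) (tbl tL x) (tbl (smT h0⁻¹ tC) x)) 1 3 3 1 3 (-1) (-1) :=
  (sideB hx hx').bothA (thrB hx hx') (en_pos (hx1 hx).le) (Or.inr rfl) (Or.inr rfl) fun y y' F =>
    bothA_cert (s1 := false) (s2 := false) rfl hκ (en_pos (hx1 hx).le) (esg_rng (hx1 hx).le (hx2 hx').le).1 (mo_v x) covB11 covB33 hx hx'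
        Pool.Agent.Strip051.G.I69_7273.Tab.C.BA13.c_mm_133 noCut_EA noExt_EA F trivial trivial

theorem BA13_mm_202 {κ x : ℝ} (hκ : κ * h0 = ken x) (hx : ((740881858 : ℕ) : ℝ) / S ≤ x) (hx' : x ≤ (((740881858 : ℕ) : ℝ) + (40050571 : ℕ)) / S) :
    TriA PP.cur (VE (h0 * 0) 3 κ (h0 * x) (eng.v x) (h0 * (1 / 20)) (tnt (h0 * x) (1 / 5)) (tbl tK x) (tbl tL x) (tbl (smT h0⁻¹ tC) x)) 2 0 2 1 3 (-1) (-1) :=
  (sideB hx hx').bothA (thrB hx hx') (en_pos (hx1 hx).le) (Or.inr rfl) (Or.inr rfl) fun y y' F =>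
    (lt_or_ge (h0 * y) 1).elim
      (fun h => bothA_cert (s1 := false) (s2 := false) rfl hκ (en_pos (hx1 hx).le) (esg_rng (hx1 hx).le (hx2 hx').le).1 (mo_v x) covB12a covB30 hx hx'
        Pool.Agent.Strip051.G.I69_7273.Tab.C.BA13.c_mm_202_a noCut_EA noExt_EA F h trivial)
      (fun h => bothA_cert (s1 := false) (s2 := false) rfl hκ (en_pos (hx1 hx).le) (esg_rng (hx1 hx).le (hx2 hx').le).1 (mo_v x) covB12b covB30 hx hx'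
        Pool.Agent.Strip051.G.I69_7273.Tab.C.BA13.c_mm_202_b noCut_EA noExt_EA F h trivial)

theorem BA13_mm_203 {κ x : ℝ} (hκ : κ * h0 = ken x) (hx : ((740881858 : ℕ) : ℝ) / S ≤ x) (hx' : x ≤ (((740881858 : ℕ) : ℝ) + (40050571 : ℕ)) / S) :
    TriA PP.cur (VE (h0 * 0) 3 κ (h0 * x) (eng.v x) (h0 * (1 / 20)) (tnt (h0 * x) (1 / 5)) (tbl tK x) (tbl tL x) (tbl (smT h0⁻¹ tC) x)) 2 0 3 1 3 (-1) (-1) :=
  (sideB hx hx').bothA (thrB hx hx') (en_pos (hx1 hx).le) (Or.inr rfl) (Or.inr rfl) fun y y' F =>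
    (lt_or_ge (h0 * y) 1).elim
      (fun h => bothA_cert (s1 := false) (s2 := false) rfl hκ (en_pos (hx1 hx).le) (esg_rng (hx1 hx).le (hx2 hx').le).1 (mo_v x) covB12a covB30 hx hx'
        Pool.Agent.Strip051.G.I69_7273.Tab.C.BA13.c_mm_203_a noCut_EA noExt_EA F h trivial)
      (fun h => bothA_cert (s1 := false) (s2 := false) rfl hκ (en_pos (hx1 hx).le) (esg_rng (hx1 hx).le (hx2 hx').le).1 (mo_v x) covB12b covB30 hx hx'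
        Pool.Agent.Strip051.G.I69_7273.Tab.C.BA13.c_mm_203_b noCut_EA noExt_EA F h trivial)

theorem BA13_mm_213 {κ x : ℝ} (hκ : κ * h0 = ken x) (hx : ((740881858 : ℕ) : ℝ) / S ≤ x) (hx' : x ≤ (((740881858 : ℕ) : ℝ) + (40050571 : ℕ)) / S) :
    TriA PP.cur (VE (h0 * 0) 3 κ (h0 * x) (eng.v x) (h0 * (1 / 20)) (tnt (h0 * x) (1 / 5)) (tbl tK x) (tbl tL x) (tbl (smT h0⁻¹ tC) x)) 2 1 3 1 3 (-1) (-1) :=
  (sideB hx hx').bothA (thrB hx hx') (en_pos (hx1 hx).le) (Or.inr rfl) (Or.inr rfl) fun y y' F =>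
    (lt_or_ge (h0 * y) 1).elim
      (fun h => bothA_cert (s1 := false) (s2 := false) rfl hκ (en_pos (hx1 hx).le) (esg_rng (hx1 hx).le (hx2 hx').le).1 (mo_v x) covB12a covB31 hx hx'
        Pool.Agent.Strip051.G.I69_7273.Tab.C.BA13.c_mm_213_a noCut_EA noExt_EA F h trivial)
      (fun h => bothA_cert (s1 := false) (s2 := false) rfl hκ (en_pos (hx1 hx).le) (esg_rng (hx1 hx).le (hx2 hx').le).1 (mo_v x) covB12b covB31 hx hx'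
        Pool.Agent.Strip051.G.I69_7273.Tab.C.BA13.c_mm_213_b noCut_EA noExt_EA F h trivial)

theorem BA13_mm_303 {κ x : ℝ} (hκ : κ * h0 = ken x) (hx : ((740881858 : ℕ) : ℝ) / S ≤ x) (hx' : x ≤ (((740881858 : ℕ) : ℝ) + (40050571 : ℕ)) / S) :
    TriA PP.cur (VE (h0 * 0) 3 κ (h0 * x) (eng.v x) (h0 * (1 / 20)) (tnt (h0 * x) (1 / 5)) (tbl tK x) (tbl tL x) (tbl (smT h0⁻¹ tC) x)) 3 0 3 1 3 (-1) (-1) :=
  (sideB hx hx').bothA (thrB hx hx') (en_pos (hx1 hx).le) (Or.inr rfl) (Or.inr rfl) fun y y' F =>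
    bothA_cert (s1 := false) (s2 := false) rfl hκ (en_pos (hx1 hx).le) (esg_rng (hx1 hx).le (hx2 hx').le).1 (mo_v x) covB13 covB30 hx hx'
        Pool.Agent.Strip051.G.I69_7273.Tab.C.BA13.c_mm_303 noCut_EA noExt_EA F trivial trivial

theorem BA13_mm_313 {κ x : ℝ} (hκ : κ * h0 = ken x) (hx : ((740881858 : ℕ) : ℝ) / S ≤ x) (hx' : x ≤ (((740881858 : ℕ) : ℝ) + (40050571 : ℕ)) / S) :
    TriA PP.cur (VE (h0 * 0) 3 κ (h0 * x) (eng.v x) (h0 * (1 / 20)) (tnt (h0 * x) (1 / 5)) (tbl tK x) (tbl tL x) (tbl (smT h0⁻¹ tC) x)) 3 1 3 1 3 (-1) (-1) :=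
  (sideB hx hx').bothA (thrB hx hx') (en_pos (hx1 hx).le) (Or.inr rfl) (Or.inr rfl) fun y y' F =>
    bothA_cert (s1 := false) (s2 := false) rfl hκ (en_pos (hx1 hx).le) (esg_rng (hx1 hx).le (hx2 hx').le).1 (mo_v x) covB13 covB31 hx hx'
        Pool.Agent.Strip051.G.I69_7273.Tab.C.BA13.c_mm_313 noCut_EA noExt_EA F trivial trivial

theorem BA13 {κ x : ℝ} (hκ : κ * h0 = ken x) (hx : ((740881858 : ℕ) : ℝ) / S ≤ x) (hx' : x ≤ (((740881858 : ℕ) : ℝ) + (40050571 : ℕ)) / S) : AllTA PP.cur (VE (h0 * 0) 3 κ (h0 * x) (eng.v x) (h0 * (1 / 20)) (tnt (h0 * x) (1 / 5)) (tbl tK x) (tbl tL x) (tbl (smT h0⁻¹ tC) x)) 1 3 where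
  pp := all17 (Q := fun a b c => TriA PP.cur (VE (h0 * 0) 3 κ (h0 * x) (eng.v x) (h0 * (1 / 20)) (tnt (h0 * x) (1 / 5)) (tbl tK x) (tbl tL x) (tbl (smT h0⁻¹ tC) x)) a b c 1 3 1 1)
    (BA13_pp_001 hκ hx hx') (BA13_pp_011 hκ hx hx') (BA13_pp_012 hκ hx hx') (BA13_pp_022 hκ hx hx') (BA13_pp_023 hκ hx hx') (BA13_pp_033 hκ hx hx') (BA13_pp_101 hκ hx hx') (BA13_pp_102 hκ hx hx') (BA13_pp_112 hκ hx hx') (BA13_pp_113 hκ hx hx') (BA13_pp_123 hκ hx hx') (BA13_pp_133 hκ hx hx') (BA13_pp_202 hκ hx hx') (BA13_pp_203 hκ hx hx') (BA13_pp_213 hκ hx hx') (BA13_pp_303 hκ hx hx') (BA13_pp_313 hκ hx hx')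
  pm := all17 (Q := fun a b c => TriA PP.cur (VE (h0 * 0) 3 κ (h0 * x) (eng.v x) (h0 * (1 / 20)) (tnt (h0 * x) (1 / 5)) (tbl tK x) (tbl tL x) (tbl (smT h0⁻¹ tC) x)) a b c 1 3 1 (-1))
    (BA13_pm_001 hκ hx hx') (BA13_pm_011 hκ hx hx') (BA13_pm_012 hκ hx hx') (BA13_pm_022 hκ hx hx') (BA13_pm_023 hκ hx hx') (BA13_pm_033 hκ hx hx') (BA13_pm_101 hκ hx hx') (BA13_pm_102 hκ hx hx') (BA13_pm_112 hκ hx hx') (BA13_pm_113 hκ hx hx') (BA13_pm_123 hκ hx hx') (BA13_pm_133 hκ hx hx') (BA13_pm_202 hκ hx hx') (BA13_pm_203 hκ hx hx') (BA13_pm_213 hκ hx hx') (BA13_pm_303 hκ hx hx') (BA13_pm_313 hκ hx hx')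
  mm := all17 (Q := fun a b c => TriA PP.cur (VE (h0 * 0) 3 κ (h0 * x) (eng.v x) (h0 * (1 / 20)) (tnt (h0 * x) (1 / 5)) (tbl tK x) (tbl tL x) (tbl (smT h0⁻¹ tC) x)) a b c 1 3 (-1) (-1))
    (BA13_mm_001 hκ hx hx') (BA13_mm_011 hκ hx hx') (BA13_mm_012 hκ hx hx') (BA13_mm_022 hκ hx hx') (BA13_mm_023 hκ hx hx') (BA13_mm_033 hκ hx hx') (BA13_mm_101 hκ hx hx') (BA13_mm_102 hκ hx hx') (BA13_mm_112 hκ hx hx') (BA13_mm_113 hκ hx hx') (BA13_mm_123 hκ hx hx') (BA13_mm_133 hκ hx hx') (BA13_mm_202 hκ hx hx') (BA13_mm_203 hκ hx hx') (BA13_mm_213 hκ hx hx') (BA13_mm_303 hκ hx hx') (BA13_mm_313 hκ hx hx')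

theorem BA14_pp_001 {κ x : ℝ} (hκ : κ * h0 = ken x) (hx : ((740881858 : ℕ) : ℝ) / S ≤ x) (hx' : x ≤ (((740881858 : ℕ) : ℝ) + (40050571 : ℕ)) / S) :
    TriA PP.cur (VE (h0 * 0) 3 κ (h0 * x) (eng.v x) (h0 * (1 / 20)) (tnt (h0 * x) (1 / 5)) (tbl tK x) (tbl tL x) (tbl (smT h0⁻¹ tC) x)) 0 0 1 1 4 1 1 :=
  (sideB hx hx').bothA (thrB hx hx') (en_pos (hx1 hx).le) (Or.inl rfl) (Or.inl rfl) fun y y' F =>
    bothA_cert (s1 := true) (s2 := true) rfl hκ (en_pos (hx1 hx).le) (esg_rng (hx1 hx).le (hx2 hx').le).1 (mo_v x) covB10 covB40 hx hx'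
        Pool.Agent.Strip051.G.I69_7273.Tab.C.BA14.c_pp_001 noCut_EA noExt_EA F trivial trivial

theorem BA14_pp_011 {κ x : ℝ} (hκ : κ * h0 = ken x) (hx : ((740881858 : ℕ) : ℝ) / S ≤ x) (hx' : x ≤ (((740881858 : ℕ) : ℝ) + (40050571 : ℕ)) / S) :
    TriA PP.cur (VE (h0 * 0) 3 κ (h0 * x) (eng.v x) (h0 * (1 / 20)) (tnt (h0 * x) (1 / 5)) (tbl tK x) (tbl tL x) (tbl (smT h0⁻¹ tC) x)) 0 1 1 1 4 1 1 :=
  (sideB hx hx').bothA (thrB hx hx') (en_pos (hx1 hx).le) (Or.inl rfl) (Or.inl rfl) fun y y' F =>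
    bothA_cert (s1 := true) (s2 := true) rfl hκ (en_pos (hx1 hx).le) (esg_rng (hx1 hx).le (hx2 hx').le).1 (mo_v x) covB10 covB41 hx hx'
        Pool.Agent.Strip051.G.I69_7273.Tab.C.BA14.c_pp_011 noCut_EA noExt_EA F trivial trivial

theorem BA14_pp_012 {κ x : ℝ} (hκ : κ * h0 = ken x) (hx : ((740881858 : ℕ) : ℝ) / S ≤ x) (hx' : x ≤ (((740881858 : ℕ) : ℝ) + (40050571 : ℕ)) / S) :
    TriA PP.cur (VE (h0 * 0) 3 κ (h0 * x) (eng.v x) (h0 * (1 / 20)) (tnt (h0 * x) (1 / 5)) (tbl tK x) (tbl tL x) (tbl (smT h0⁻¹ tC) x)) 0 1 2 1 4 1 1 :=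
  (sideB hx hx').bothA (thrB hx hx') (en_pos (hx1 hx).le) (Or.inl rfl) (Or.inl rfl) fun y y' F =>
    bothA_cert (s1 := true) (s2 := true) rfl hκ (en_pos (hx1 hx).le) (esg_rng (hx1 hx).le (hx2 hx').le).1 (mo_v x) covB10 covB41 hx hx'
        Pool.Agent.Strip051.G.I69_7273.Tab.C.BA14.c_pp_012 noCut_EA noExt_EA F trivial trivial

theorem BA14_pp_022 {κ x : ℝ} (hκ : κ * h0 = ken x) (hx : ((740881858 : ℕ) : ℝ) / S ≤ x) (hx' : x ≤ (((740881858 : ℕ) : ℝ) + (40050571 : ℕ)) / S) :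
    TriA PP.cur (VE (h0 * 0) 3 κ (h0 * x) (eng.v x) (h0 * (1 / 20)) (tnt (h0 * x) (1 / 5)) (tbl tK x) (tbl tL x) (tbl (smT h0⁻¹ tC) x)) 0 2 2 1 4 1 1 :=
  (sideB hx hx').bothA (thrB hx hx') (en_pos (hx1 hx).le) (Or.inl rfl) (Or.inl rfl) fun y y' F =>
    bothA_cert (s1 := true) (s2 := true) rfl hκ (en_pos (hx1 hx).le) (esg_rng (hx1 hx).le (hx2 hx').le).1 (mo_v x) covB10 covB42 hx hx'
        Pool.Agent.Strip051.G.I69_7273.Tab.C.BA14.c_pp_022 noCut_EA noExt_EA F trivial trivial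

theorem BA14_pp_023 {κ x : ℝ} (hκ : κ * h0 = ken x) (hx : ((740881858 : ℕ) : ℝ) / S ≤ x) (hx' : x ≤ (((740881858 : ℕ) : ℝ) + (40050571 : ℕ)) / S) :
    TriA PP.cur (VE (h0 * 0) 3 κ (h0 * x) (eng.v x) (h0 * (1 / 20)) (tnt (h0 * x) (1 / 5)) (tbl tK x) (tbl tL x) (tbl (smT h0⁻¹ tC) x)) 0 2 3 1 4 1 1 :=
  (sideB hx hx').bothA (thrB hx hx') (en_pos (hx1 hx).le) (Or.inl rfl) (Or.inl rfl) fun y y' F =>
    bothA_cert (s1 := true) (s2 := true) rfl hκ (en_pos (hx1 hx).le) (esg_rng (hx1 hx).le (hx2 hx').le).1 (mo_v x) covB10 covB42 hx hx'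
        Pool.Agent.Strip051.G.I69_7273.Tab.C.BA14.c_pp_023 noCut_EA noExt_EA F trivial trivial

theorem BA14_pp_033 {κ x : ℝ} (hκ : κ * h0 = ken x) (hx : ((740881858 : ℕ) : ℝ) / S ≤ x) (hx' : x ≤ (((740881858 : ℕ) : ℝ) + (40050571 : ℕ)) / S) :
    TriA PP.cur (VE (h0 * 0) 3 κ (h0 * x) (eng.v x) (h0 * (1 / 20)) (tnt (h0 * x) (1 / 5)) (tbl tK x) (tbl tL x) (tbl (smT h0⁻¹ tC) x)) 0 3 3 1 4 1 1 :=
  (sideB hx hx').bothA (thrB hx hx') (en_pos (hx1 hx).le) (Or.inl rfl) (Or.inl rfl) fun y y' F =>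
    bothA_cert (s1 := true) (s2 := true) rfl hκ (en_pos (hx1 hx).le) (esg_rng (hx1 hx).le (hx2 hx').le).1 (mo_v x) covB10 covB43 hx hx'
        Pool.Agent.Strip051.G.I69_7273.Tab.C.BA14.c_pp_033 noCut_EA noExt_EA F trivial trivial

theorem BA14_pp_101 {κ x : ℝ} (hκ : κ * h0 = ken x) (hx : ((740881858 : ℕ) : ℝ) / S ≤ x) (hx' : x ≤ (((740881858 : ℕ) : ℝ) + (40050571 : ℕ)) / S) :
    TriA PP.cur (VE (h0 * 0) 3 κ (h0 * x) (eng.v x) (h0 * (1 / 20)) (tnt (h0 * x) (1 / 5)) (tbl tK x) (tbl tL x) (tbl (smT h0⁻¹ tC) x)) 1 0 1 1 4 1 1 :=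
  (sideB hx hx').bothA (thrB hx hx') (en_pos (hx1 hx).le) (Or.inl rfl) (Or.inl rfl) fun y y' F =>
    bothA_cert (s1 := true) (s2 := true) rfl hκ (en_pos (hx1 hx).le) (esg_rng (hx1 hx).le (hx2 hx').le).1 (mo_v x) covB11 covB40 hx hx'
        Pool.Agent.Strip051.G.I69_7273.Tab.C.BA14.c_pp_101 noCut_EA noExt_EA F trivial trivial

theorem BA14_pp_102 {κ x : ℝ} (hκ : κ * h0 = ken x) (hx : ((740881858 : ℕ) : ℝ) / S ≤ x) (hx' : x ≤ (((740881858 : ℕ) : ℝ) + (40050571 : ℕ)) / S) :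
    TriA PP.cur (VE (h0 * 0) 3 κ (h0 * x) (eng.v x) (h0 * (1 / 20)) (tnt (h0 * x) (1 / 5)) (tbl tK x) (tbl tL x) (tbl (smT h0⁻¹ tC) x)) 1 0 2 1 4 1 1 :=
  (sideB hx hx').bothA (thrB hx hx') (en_pos (hx1 hx).le) (Or.inl rfl) (Or.inl rfl) fun y y' F =>
    bothA_cert (s1 := true) (s2 := true) rfl hκ (en_pos (hx1 hx).le) (esg_rng (hx1 hx).le (hx2 hx').le).1 (mo_v x) covB11 covB40 hx hx'
        Pool.Agent.Strip051.G.I69_7273.Tab.C.BA14.c_pp_102 noCut_EA noExt_EA F trivial trivial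

theorem BA14_pp_112 {κ x : ℝ} (hκ : κ * h0 = ken x) (hx : ((740881858 : ℕ) : ℝ) / S ≤ x) (hx' : x ≤ (((740881858 : ℕ) : ℝ) + (40050571 : ℕ)) / S) :
    TriA PP.cur (VE (h0 * 0) 3 κ (h0 * x) (eng.v x) (h0 * (1 / 20)) (tnt (h0 * x) (1 / 5)) (tbl tK x) (tbl tL x) (tbl (smT h0⁻¹ tC) x)) 1 1 2 1 4 1 1 :=
  (sideB hx hx').bothA (thrB hx hx') (en_pos (hx1 hx).le) (Or.inl rfl) (Or.inl rfl) fun y y' F =>
    bothA_cert (s1 := true) (s2 := true) rfl hκ (en_pos (hx1 hx).le) (esg_rng (hx1 hx).le (hx2 hx').le).1 (mo_v x) covB11 covB41 hx hx'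
        Pool.Agent.Strip051.G.I69_7273.Tab.C.BA14.c_pp_112 noCut_EA noExt_EA F trivial trivial

theorem BA14_pp_113 {κ x : ℝ} (hκ : κ * h0 = ken x) (hx : ((740881858 : ℕ) : ℝ) / S ≤ x) (hx' : x ≤ (((740881858 : ℕ) : ℝ) + (40050571 : ℕ)) / S) :
    TriA PP.cur (VE (h0 * 0) 3 κ (h0 * x) (eng.v x) (h0 * (1 / 20)) (tnt (h0 * x) (1 / 5)) (tbl tK x) (tbl tL x) (tbl (smT h0⁻¹ tC) x)) 1 1 3 1 4 1 1 :=
  (sideB hx hx').bothA (thrB hx hx') (en_pos (hx1 hx).le) (Or.inl rfl) (Or.inl rfl) fun y y' F =>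
    bothA_cert (s1 := true) (s2 := true) rfl hκ (en_pos (hx1 hx).le) (esg_rng (hx1 hx).le (hx2 hx').le).1 (mo_v x) covB11 covB41 hx hx'
        Pool.Agent.Strip051.G.I69_7273.Tab.C.BA14.c_pp_113 noCut_EA noExt_EA F trivial trivial

theorem BA14_pp_123 {κ x : ℝ} (hκ : κ * h0 = ken x) (hx : ((740881858 : ℕ) : ℝ) / S ≤ x) (hx' : x ≤ (((740881858 : ℕ) : ℝ) + (40050571 : ℕ)) / S) :
    TriA PP.cur (VE (h0 * 0) 3 κ (h0 * x) (eng.v x) (h0 * (1 / 20)) (tnt (h0 * x) (1 / 5)) (tbl tK x) (tbl tL x) (tbl (smT h0⁻¹ tC) x)) 1 2 3 1 4 1 1 :=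
  (sideB hx hx').bothA (thrB hx hx') (en_pos (hx1 hx).le) (Or.inl rfl) (Or.inl rfl) fun y y' F =>
    bothA_cert (s1 := true) (s2 := true) rfl hκ (en_pos (hx1 hx).le) (esg_rng (hx1 hx).le (hx2 hx').le).1 (mo_v x) covB11 covB42 hx hx'
        Pool.Agent.Strip051.G.I69_7273.Tab.C.BA14.c_pp_123 noCut_EA noExt_EA F trivial trivial

theorem BA14_pp_133 {κ x : ℝ} (hκ : κ * h0 = ken x) (hx : ((740881858 : ℕ) : ℝ) / S ≤ x) (hx' : x ≤ (((740881858 : ℕ) : ℝ) + (40050571 : ℕ)) / S) :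
    TriA PP.cur (VE (h0 * 0) 3 κ (h0 * x) (eng.v x) (h0 * (1 / 20)) (tnt (h0 * x) (1 / 5)) (tbl tK x) (tbl tL x) (tbl (smT h0⁻¹ tC) x)) 1 3 3 1 4 1 1 :=
  (sideB hx hx').bothA (thrB hx hx') (en_pos (hx1 hx).le) (Or.inl rfl) (Or.inl rfl) fun y y' F =>
    bothA_cert (s1 := true) (s2 := true) rfl hκ (en_pos (hx1 hx).le) (esg_rng (hx1 hx).le (hx2 hx').le).1 (mo_v x) covB11 covB43 hx hx'
        Pool.Agent.Strip051.G.I69_7273.Tab.C.BA14.c_pp_133 noCut_EA noExt_EA F trivial trivial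

theorem BA14_pp_202 {κ x : ℝ} (hκ : κ * h0 = ken x) (hx : ((740881858 : ℕ) : ℝ) / S ≤ x) (hx' : x ≤ (((740881858 : ℕ) : ℝ) + (40050571 : ℕ)) / S) :
    TriA PP.cur (VE (h0 * 0) 3 κ (h0 * x) (eng.v x) (h0 * (1 / 20)) (tnt (h0 * x) (1 / 5)) (tbl tK x) (tbl tL x) (tbl (smT h0⁻¹ tC) x)) 2 0 2 1 4 1 1 :=
  (sideB hx hx').bothA (thrB hx hx') (en_pos (hx1 hx).le) (Or.inl rfl) (Or.inl rfl) fun y y' F =>
    (lt_or_ge (h0 * y) 1).elim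
      (fun h => bothA_cert (s1 := true) (s2 := true) rfl hκ (en_pos (hx1 hx).le) (esg_rng (hx1 hx).le (hx2 hx').le).1 (mo_v x) covB12a covB40 hx hx'
        Pool.Agent.Strip051.G.I69_7273.Tab.C.BA14.c_pp_202_a noCut_EA noExt_EA F h trivial)
      (fun h => bothA_cert (s1 := true) (s2 := true) rfl hκ (en_pos (hx1 hx).le) (esg_rng (hx1 hx).le (hx2 hx').le).1 (mo_v x) covB12b covB40 hx hx'
        Pool.Agent.Strip051.G.I69_7273.Tab.C.BA14.c_pp_202_b noCut_EA noExt_EA F h trivial)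

theorem BA14_pp_203 {κ x : ℝ} (hκ : κ * h0 = ken x) (hx : ((740881858 : ℕ) : ℝ) / S ≤ x) (hx' : x ≤ (((740881858 : ℕ) : ℝ) + (40050571 : ℕ)) / S) :
    TriA PP.cur (VE (h0 * 0) 3 κ (h0 * x) (eng.v x) (h0 * (1 / 20)) (tnt (h0 * x) (1 / 5)) (tbl tK x) (tbl tL x) (tbl (smT h0⁻¹ tC) x)) 2 0 3 1 4 1 1 :=
  (sideB hx hx').bothA (thrB hx hx') (en_pos (hx1 hx).le) (Or.inl rfl) (Or.inl rfl) fun y y' F =>
    (lt_or_ge (h0 * y) 1).elim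
      (fun h => bothA_cert (s1 := true) (s2 := true) rfl hκ (en_pos (hx1 hx).le) (esg_rng (hx1 hx).le (hx2 hx').le).1 (mo_v x) covB12a covB40 hx hx'
        Pool.Agent.Strip051.G.I69_7273.Tab.C.BA14.c_pp_203_a noCut_EA noExt_EA F h trivial)
      (fun h => bothA_cert (s1 := true) (s2 := true) rfl hκ (en_pos (hx1 hx).le) (esg_rng (hx1 hx).le (hx2 hx').le).1 (mo_v x) covB12b covB40 hx hx'
        Pool.Agent.Strip051.G.I69_7273.Tab.C.BA14.c_pp_203_b noCut_EA noExt_EA F h trivial)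

theorem BA14_pp_213 {κ x : ℝ} (hκ : κ * h0 = ken x) (hx : ((740881858 : ℕ) : ℝ) / S ≤ x) (hx' : x ≤ (((740881858 : ℕ) : ℝ) + (40050571 : ℕ)) / S) :
    TriA PP.cur (VE (h0 * 0) 3 κ (h0 * x) (eng.v x) (h0 * (1 / 20)) (tnt (h0 * x) (1 / 5)) (tbl tK x) (tbl tL x) (tbl (smT h0⁻¹ tC) x)) 2 1 3 1 4 1 1 :=
  (sideB hx hx').bothA (thrB hx hx') (en_pos (hx1 hx).le) (Or.inl rfl) (Or.inl rfl) fun y y' F =>
    (lt_or_ge (h0 * y) 1).elim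
      (fun h => bothA_cert (s1 := true) (s2 := true) rfl hκ (en_pos (hx1 hx).le) (esg_rng (hx1 hx).le (hx2 hx').le).1 (mo_v x) covB12a covB41 hx hx'
        Pool.Agent.Strip051.G.I69_7273.Tab.C.BA14.c_pp_213_a noCut_EA noExt_EA F h trivial)
      (fun h => bothA_cert (s1 := true) (s2 := true) rfl hκ (en_pos (hx1 hx).le) (esg_rng (hx1 hx).le (hx2 hx').le).1 (mo_v x) covB12b covB41 hx hx'
        Pool.Agent.Strip051.G.I69_7273.Tab.C.BA14.c_pp_213_b noCut_EA noExt_EA F h trivial)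

theorem BA14_pp_303 {κ x : ℝ} (hκ : κ * h0 = ken x) (hx : ((740881858 : ℕ) : ℝ) / S ≤ x) (hx' : x ≤ (((740881858 : ℕ) : ℝ) + (40050571 : ℕ)) / S) :
    TriA PP.cur (VE (h0 * 0) 3 κ (h0 * x) (eng.v x) (h0 * (1 / 20)) (tnt (h0 * x) (1 / 5)) (tbl tK x) (tbl tL x) (tbl (smT h0⁻¹ tC) x)) 3 0 3 1 4 1 1 :=
  (sideB hx hx').bothA (thrB hx hx') (en_pos (hx1 hx).le) (Or.inl rfl) (Or.inl rfl) fun y y' F =>
    bothA_cert (s1 := true) (s2 := true) rfl hκ (en_pos (hx1 hx).le) (esg_rng (hx1 hx).le (hx2 hx').le).1 (mo_v x) covB13 covB40 hx hx'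
        Pool.Agent.Strip051.G.I69_7273.Tab.C.BA14.c_pp_303 noCut_EA noExt_EA F trivial trivial

theorem BA14_pp_313 {κ x : ℝ} (hκ : κ * h0 = ken x) (hx : ((740881858 : ℕ) : ℝ) / S ≤ x) (hx' : x ≤ (((740881858 : ℕ) : ℝ) + (40050571 : ℕ)) / S) :
    TriA PP.cur (VE (h0 * 0) 3 κ (h0 * x) (eng.v x) (h0 * (1 / 20)) (tnt (h0 * x) (1 / 5)) (tbl tK x) (tbl tL x) (tbl (smT h0⁻¹ tC) x)) 3 1 3 1 4 1 1 :=
  (sideB hx hx').bothA (thrB hx hx') (en_pos (hx1 hx).le) (Or.inl rfl) (Or.inl rfl) fun y y' F =>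
    bothA_cert (s1 := true) (s2 := true) rfl hκ (en_pos (hx1 hx).le) (esg_rng (hx1 hx).le (hx2 hx').le).1 (mo_v x) covB13 covB41 hx hx'
        Pool.Agent.Strip051.G.I69_7273.Tab.C.BA14.c_pp_313 noCut_EA noExt_EA F trivial trivial

theorem BA14_pm_001 {κ x : ℝ} (hκ : κ * h0 = ken x) (hx : ((740881858 : ℕ) : ℝ) / S ≤ x) (hx' : x ≤ (((740881858 : ℕ) : ℝ) + (40050571 : ℕ)) / S) :
    TriA PP.cur (VE (h0 * 0) 3 κ (h0 * x) (eng.v x) (h0 * (1 / 20)) (tnt (h0 * x) (1 / 5)) (tbl tK x) (tbl tL x) (tbl (smT h0⁻¹ tC) x)) 0 0 1 1 4 1 (-1) :=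
  (sideB hx hx').bothA (thrB hx hx') (en_pos (hx1 hx).le) (Or.inl rfl) (Or.inr rfl) fun y y' F =>
    bothA_cert (s1 := true) (s2 := false) rfl hκ (en_pos (hx1 hx).le) (esg_rng (hx1 hx).le (hx2 hx').le).1 (mo_v x) covB10 covB40 hx hx'
        Pool.Agent.Strip051.G.I69_7273.Tab.C.BA14.c_pm_001 noCut_EA noExt_EA F trivial trivial

theorem BA14_pm_011 {κ x : ℝ} (hκ : κ * h0 = ken x) (hx : ((740881858 : ℕ) : ℝ) / S ≤ x) (hx' : x ≤ (((740881858 : ℕ) : ℝ) + (40050571 : ℕ)) / S) :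
    TriA PP.cur (VE (h0 * 0) 3 κ (h0 * x) (eng.v x) (h0 * (1 / 20)) (tnt (h0 * x) (1 / 5)) (tbl tK x) (tbl tL x) (tbl (smT h0⁻¹ tC) x)) 0 1 1 1 4 1 (-1) :=
  (sideB hx hx').bothA (thrB hx hx') (en_pos (hx1 hx).le) (Or.inl rfl) (Or.inr rfl) fun y y' F =>
    bothA_cert (s1 := true) (s2 := false) rfl hκ (en_pos (hx1 hx).le) (esg_rng (hx1 hx).le (hx2 hx').le).1 (mo_v x) covB10 covB41 hx hx'
        Pool.Agent.Strip051.G.I69_7273.Tab.C.BA14.c_pm_011 (cutEA_cons (Pool.Agent.Strip051.G.I69_7273.Tab.altB_A011R_14 hκ hx hx') cutEA_nil) noExt_EA F trivial trivial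

theorem BA14_pm_012 {κ x : ℝ} (hκ : κ * h0 = ken x) (hx : ((740881858 : ℕ) : ℝ) / S ≤ x) (hx' : x ≤ (((740881858 : ℕ) : ℝ) + (40050571 : ℕ)) / S) :
    TriA PP.cur (VE (h0 * 0) 3 κ (h0 * x) (eng.v x) (h0 * (1 / 20)) (tnt (h0 * x) (1 / 5)) (tbl tK x) (tbl tL x) (tbl (smT h0⁻¹ tC) x)) 0 1 2 1 4 1 (-1) :=
  (sideB hx hx').bothA (thrB hx hx') (en_pos (hx1 hx).le) (Or.inl rfl) (Or.inr rfl) fun y y' F =>
    bothA_cert (s1 := true) (s2 := false) rfl hκ (en_pos (hx1 hx).le) (esg_rng (hx1 hx).le (hx2 hx').le).1 (mo_v x) covB10 covB41 hx hx'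
        Pool.Agent.Strip051.G.I69_7273.Tab.C.BA14.c_pm_012 (cutEA_cons (Pool.Agent.Strip051.G.I69_7273.Tab.altB_A012R_14 hκ hx hx') cutEA_nil) noExt_EA F trivial trivial

theorem BA14_pm_022 {κ x : ℝ} (hκ : κ * h0 = ken x) (hx : ((740881858 : ℕ) : ℝ) / S ≤ x) (hx' : x ≤ (((740881858 : ℕ) : ℝ) + (40050571 : ℕ)) / S) :
    TriA PP.cur (VE (h0 * 0) 3 κ (h0 * x) (eng.v x) (h0 * (1 / 20)) (tnt (h0 * x) (1 / 5)) (tbl tK x) (tbl tL x) (tbl (smT h0⁻¹ tC) x)) 0 2 2 1 4 1 (-1) :=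
  (sideB hx hx').bothA (thrB hx hx') (en_pos (hx1 hx).le) (Or.inl rfl) (Or.inr rfl) fun y y' F =>
    bothA_cert (s1 := true) (s2 := false) rfl hκ (en_pos (hx1 hx).le) (esg_rng (hx1 hx).le (hx2 hx').le).1 (mo_v x) covB10 covB42 hx hx'
        Pool.Agent.Strip051.G.I69_7273.Tab.C.BA14.c_pm_022 noCut_EA noExt_EA F trivial trivial

theorem BA14_pm_023 {κ x : ℝ} (hκ : κ * h0 = ken x) (hx : ((740881858 : ℕ) : ℝ) / S ≤ x) (hx' : x ≤ (((740881858 : ℕ) : ℝ) + (40050571 : ℕ)) / S) :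
    TriA PP.cur (VE (h0 * 0) 3 κ (h0 * x) (eng.v x) (h0 * (1 / 20)) (tnt (h0 * x) (1 / 5)) (tbl tK x) (tbl tL x) (tbl (smT h0⁻¹ tC) x)) 0 2 3 1 4 1 (-1) :=
  (sideB hx hx').bothA (thrB hx hx') (en_pos (hx1 hx).le) (Or.inl rfl) (Or.inr rfl) fun y y' F =>
    bothA_cert (s1 := true) (s2 := false) rfl hκ (en_pos (hx1 hx).le) (esg_rng (hx1 hx).le (hx2 hx').le).1 (mo_v x) covB10 covB42 hx hx'
        Pool.Agent.Strip051.G.I69_7273.Tab.C.BA14.c_pm_023 noCut_EA noExt_EA F trivial trivial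

theorem BA14_pm_033 {κ x : ℝ} (hκ : κ * h0 = ken x) (hx : ((740881858 : ℕ) : ℝ) / S ≤ x) (hx' : x ≤ (((740881858 : ℕ) : ℝ) + (40050571 : ℕ)) / S) :
    TriA PP.cur (VE (h0 * 0) 3 κ (h0 * x) (eng.v x) (h0 * (1 / 20)) (tnt (h0 * x) (1 / 5)) (tbl tK x) (tbl tL x) (tbl (smT h0⁻¹ tC) x)) 0 3 3 1 4 1 (-1) :=
  (sideB hx hx').bothA (thrB hx hx') (en_pos (hx1 hx).le) (Or.inl rfl) (Or.inr rfl) fun y y' F =>
    bothA_cert (s1 := true) (s2 := false) rfl hκ (en_pos (hx1 hx).le) (esg_rng (hx1 hx).le (hx2 hx').le).1 (mo_v x) covB10 covB43 hx hx'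
        Pool.Agent.Strip051.G.I69_7273.Tab.C.BA14.c_pm_033 noCut_EA noExt_EA F trivial trivial

theorem BA14_pm_101 {κ x : ℝ} (hκ : κ * h0 = ken x) (hx : ((740881858 : ℕ) : ℝ) / S ≤ x) (hx' : x ≤ (((740881858 : ℕ) : ℝ) + (40050571 : ℕ)) / S) :
    TriA PP.cur (VE (h0 * 0) 3 κ (h0 * x) (eng.v x) (h0 * (1 / 20)) (tnt (h0 * x) (1 / 5)) (tbl tK x) (tbl tL x) (tbl (smT h0⁻¹ tC) x)) 1 0 1 1 4 1 (-1) :=
  (sideB hx hx').bothA (thrB hx hx') (en_pos (hx1 hx).le) (Or.inl rfl) (Or.inr rfl) fun y y' F =>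
    bothA_cert (s1 := true) (s2 := false) rfl hκ (en_pos (hx1 hx).le) (esg_rng (hx1 hx).le (hx2 hx').le).1 (mo_v x) covB11 covB40 hx hx'
        Pool.Agent.Strip051.G.I69_7273.Tab.C.BA14.c_pm_101 noCut_EA noExt_EA F trivial trivial

theorem BA14_pm_102 {κ x : ℝ} (hκ : κ * h0 = ken x) (hx : ((740881858 : ℕ) : ℝ) / S ≤ x) (hx' : x ≤ (((740881858 : ℕ) : ℝ) + (40050571 : ℕ)) / S) :
    TriA PP.cur (VE (h0 * 0) 3 κ (h0 * x) (eng.v x) (h0 * (1 / 20)) (tnt (h0 * x) (1 / 5)) (tbl tK x) (tbl tL x) (tbl (smT h0⁻¹ tC) x)) 1 0 2 1 4 1 (-1) :=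
  (sideB hx hx').bothA (thrB hx hx') (en_pos (hx1 hx).le) (Or.inl rfl) (Or.inr rfl) fun y y' F =>
    bothA_cert (s1 := true) (s2 := false) rfl hκ (en_pos (hx1 hx).le) (esg_rng (hx1 hx).le (hx2 hx').le).1 (mo_v x) covB11 covB40 hx hx'
        Pool.Agent.Strip051.G.I69_7273.Tab.C.BA14.c_pm_102 noCut_EA noExt_EA F trivial trivial

theorem BA14_pm_112 {κ x : ℝ} (hκ : κ * h0 = ken x) (hx : ((740881858 : ℕ) : ℝ) / S ≤ x) (hx' : x ≤ (((740881858 : ℕ) : ℝ) + (40050571 : ℕ)) / S) :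
    TriA PP.cur (VE (h0 * 0) 3 κ (h0 * x) (eng.v x) (h0 * (1 / 20)) (tnt (h0 * x) (1 / 5)) (tbl tK x) (tbl tL x) (tbl (smT h0⁻¹ tC) x)) 1 1 2 1 4 1 (-1) :=
  (sideB hx hx').bothA (thrB hx hx') (en_pos (hx1 hx).le) (Or.inl rfl) (Or.inr rfl) fun y y' F =>
    bothA_cert (s1 := true) (s2 := false) rfl hκ (en_pos (hx1 hx).le) (esg_rng (hx1 hx).le (hx2 hx').le).1 (mo_v x) covB11 covB41 hx hx'
        Pool.Agent.Strip051.G.I69_7273.Tab.C.BA14.c_pm_112 noCut_EA noExt_EA F trivial trivial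

theorem BA14_pm_113 {κ x : ℝ} (hκ : κ * h0 = ken x) (hx : ((740881858 : ℕ) : ℝ) / S ≤ x) (hx' : x ≤ (((740881858 : ℕ) : ℝ) + (40050571 : ℕ)) / S) :
    TriA PP.cur (VE (h0 * 0) 3 κ (h0 * x) (eng.v x) (h0 * (1 / 20)) (tnt (h0 * x) (1 / 5)) (tbl tK x) (tbl tL x) (tbl (smT h0⁻¹ tC) x)) 1 1 3 1 4 1 (-1) :=
  (sideB hx hx').bothA (thrB hx hx') (en_pos (hx1 hx).le) (Or.inl rfl) (Or.inr rfl) fun y y' F =>
    bothA_cert (s1 := true) (s2 := false) rfl hκ (en_pos (hx1 hx).le) (esg_rng (hx1 hx).le (hx2 hx').le).1 (mo_v x) covB11 covB41 hx hx'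
        Pool.Agent.Strip051.G.I69_7273.Tab.C.BA14.c_pm_113 noCut_EA noExt_EA F trivial trivial

theorem BA14_pm_123 {κ x : ℝ} (hκ : κ * h0 = ken x) (hx : ((740881858 : ℕ) : ℝ) / S ≤ x) (hx' : x ≤ (((740881858 : ℕ) : ℝ) + (40050571 : ℕ)) / S) :
    TriA PP.cur (VE (h0 * 0) 3 κ (h0 * x) (eng.v x) (h0 * (1 / 20)) (tnt (h0 * x) (1 / 5)) (tbl tK x) (tbl tL x) (tbl (smT h0⁻¹ tC) x)) 1 2 3 1 4 1 (-1) :=
  (sideB hx hx').bothA (thrB hx hx') (en_pos (hx1 hx).le) (Or.inl rfl) (Or.inr rfl) fun y y' F =>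
    bothA_cert (s1 := true) (s2 := false) rfl hκ (en_pos (hx1 hx).le) (esg_rng (hx1 hx).le (hx2 hx').le).1 (mo_v x) covB11 covB42 hx hx'
        Pool.Agent.Strip051.G.I69_7273.Tab.C.BA14.c_pm_123 noCut_EA noExt_EA F trivial trivial

theorem BA14_pm_133 {κ x : ℝ} (hκ : κ * h0 = ken x) (hx : ((740881858 : ℕ) : ℝ) / S ≤ x) (hx' : x ≤ (((740881858 : ℕ) : ℝ) + (40050571 : ℕ)) / S) :
    TriA PP.cur (VE (h0 * 0) 3 κ (h0 * x) (eng.v x) (h0 * (1 / 20)) (tnt (h0 * x) (1 / 5)) (tbl tK x) (tbl tL x) (tbl (smT h0⁻¹ tC) x)) 1 3 3 1 4 1 (-1) :=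
  (sideB hx hx').bothA (thrB hx hx') (en_pos (hx1 hx).le) (Or.inl rfl) (Or.inr rfl) fun y y' F =>
    bothA_cert (s1 := true) (s2 := false) rfl hκ (en_pos (hx1 hx).le) (esg_rng (hx1 hx).le (hx2 hx').le).1 (mo_v x) covB11 covB43 hx hx'
        Pool.Agent.Strip051.G.I69_7273.Tab.C.BA14.c_pm_133 noCut_EA noExt_EA F trivial trivial

theorem BA14_pm_202 {κ x : ℝ} (hκ : κ * h0 = ken x) (hx : ((740881858 : ℕ) : ℝ) / S ≤ x) (hx' : x ≤ (((740881858 : ℕ) : ℝ) + (40050571 : ℕ)) / S) :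
    TriA PP.cur (VE (h0 * 0) 3 κ (h0 * x) (eng.v x) (h0 * (1 / 20)) (tnt (h0 * x) (1 / 5)) (tbl tK x) (tbl tL x) (tbl (smT h0⁻¹ tC) x)) 2 0 2 1 4 1 (-1) :=
  (sideB hx hx').bothA (thrB hx hx') (en_pos (hx1 hx).le) (Or.inl rfl) (Or.inr rfl) fun y y' F =>
    (lt_or_ge (h0 * y) 1).elim
      (fun h => bothA_cert (s1 := true) (s2 := false) rfl hκ (en_pos (hx1 hx).le) (esg_rng (hx1 hx).le (hx2 hx').le).1 (mo_v x) covB12a covB40 hx hx'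
        Pool.Agent.Strip051.G.I69_7273.Tab.C.BA14.c_pm_202_a noCut_EA noExt_EA F h trivial)
      (fun h => bothA_cert (s1 := true) (s2 := false) rfl hκ (en_pos (hx1 hx).le) (esg_rng (hx1 hx).le (hx2 hx').le).1 (mo_v x) covB12b covB40 hx hx'
        Pool.Agent.Strip051.G.I69_7273.Tab.C.BA14.c_pm_202_b noCut_EA noExt_EA F h trivial)

theorem BA14_pm_203 {κ x : ℝ} (hκ : κ * h0 = ken x) (hx : ((740881858 : ℕ) : ℝ) / S ≤ x) (hx' : x ≤ (((740881858 : ℕ) : ℝ) + (40050571 : ℕ)) / S) :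
    TriA PP.cur (VE (h0 * 0) 3 κ (h0 * x) (eng.v x) (h0 * (1 / 20)) (tnt (h0 * x) (1 / 5)) (tbl tK x) (tbl tL x) (tbl (smT h0⁻¹ tC) x)) 2 0 3 1 4 1 (-1) :=
  (sideB hx hx').bothA (thrB hx hx') (en_pos (hx1 hx).le) (Or.inl rfl) (Or.inr rfl) fun y y' F =>
    (lt_or_ge (h0 * y) 1).elim
      (fun h => bothA_cert (s1 := true) (s2 := false) rfl hκ (en_pos (hx1 hx).le) (esg_rng (hx1 hx).le (hx2 hx').le).1 (mo_v x) covB12a covB40 hx hx'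
        Pool.Agent.Strip051.G.I69_7273.Tab.C.BA14.c_pm_203_a noCut_EA noExt_EA F h trivial)
      (fun h => bothA_cert (s1 := true) (s2 := false) rfl hκ (en_pos (hx1 hx).le) (esg_rng (hx1 hx).le (hx2 hx').le).1 (mo_v x) covB12b covB40 hx hx'
        Pool.Agent.Strip051.G.I69_7273.Tab.C.BA14.c_pm_203_b noCut_EA noExt_EA F h trivial)

theorem BA14_pm_213 {κ x : ℝ} (hκ : κ * h0 = ken x) (hx : ((740881858 : ℕ) : ℝ) / S ≤ x) (hx' : x ≤ (((740881858 : ℕ) : ℝ) + (40050571 : ℕ)) / S) :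
    TriA PP.cur (VE (h0 * 0) 3 κ (h0 * x) (eng.v x) (h0 * (1 / 20)) (tnt (h0 * x) (1 / 5)) (tbl tK x) (tbl tL x) (tbl (smT h0⁻¹ tC) x)) 2 1 3 1 4 1 (-1) :=
  (sideB hx hx').bothA (thrB hx hx') (en_pos (hx1 hx).le) (Or.inl rfl) (Or.inr rfl) fun y y' F =>
    (lt_or_ge (h0 * y) 1).elim
      (fun h => bothA_cert (s1 := true) (s2 := false) rfl hκ (en_pos (hx1 hx).le) (esg_rng (hx1 hx).le (hx2 hx').le).1 (mo_v x) covB12a covB41 hx hx'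
        Pool.Agent.Strip051.G.I69_7273.Tab.C.BA14.c_pm_213_a noCut_EA noExt_EA F h trivial)
      (fun h => bothA_cert (s1 := true) (s2 := false) rfl hκ (en_pos (hx1 hx).le) (esg_rng (hx1 hx).le (hx2 hx').le).1 (mo_v x) covB12b covB41 hx hx'
        Pool.Agent.Strip051.G.I69_7273.Tab.C.BA14.c_pm_213_b noCut_EA noExt_EA F h trivial)

theorem BA14_pm_303 {κ x : ℝ} (hκ : κ * h0 = ken x) (hx : ((740881858 : ℕ) : ℝ) / S ≤ x) (hx' : x ≤ (((740881858 : ℕ) : ℝ) + (40050571 : ℕ)) / S) :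
    TriA PP.cur (VE (h0 * 0) 3 κ (h0 * x) (eng.v x) (h0 * (1 / 20)) (tnt (h0 * x) (1 / 5)) (tbl tK x) (tbl tL x) (tbl (smT h0⁻¹ tC) x)) 3 0 3 1 4 1 (-1) :=
  (sideB hx hx').bothA (thrB hx hx') (en_pos (hx1 hx).le) (Or.inl rfl) (Or.inr rfl) fun y y' F =>
    bothA_cert (s1 := true) (s2 := false) rfl hκ (en_pos (hx1 hx).le) (esg_rng (hx1 hx).le (hx2 hx').le).1 (mo_v x) covB13 covB40 hx hx'
        Pool.Agent.Strip051.G.I69_7273.Tab.C.BA14.c_pm_303 noCut_EA noExt_EA F trivial trivial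

theorem BA14_pm_313 {κ x : ℝ} (hκ : κ * h0 = ken x) (hx : ((740881858 : ℕ) : ℝ) / S ≤ x) (hx' : x ≤ (((740881858 : ℕ) : ℝ) + (40050571 : ℕ)) / S) :
    TriA PP.cur (VE (h0 * 0) 3 κ (h0 * x) (eng.v x) (h0 * (1 / 20)) (tnt (h0 * x) (1 / 5)) (tbl tK x) (tbl tL x) (tbl (smT h0⁻¹ tC) x)) 3 1 3 1 4 1 (-1) :=
  (sideB hx hx').bothA (thrB hx hx') (en_pos (hx1 hx).le) (Or.inl rfl) (Or.inr rfl) fun y y' F =>
    bothA_cert (s1 := true) (s2 := false) rfl hκ (en_pos (hx1 hx).le) (esg_rng (hx1 hx).le (hx2 hx').le).1 (mo_v x) covB13 covB41 hx hx'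
        Pool.Agent.Strip051.G.I69_7273.Tab.C.BA14.c_pm_313 noCut_EA noExt_EA F trivial trivial

theorem BA14_mm_001 {κ x : ℝ} (hκ : κ * h0 = ken x) (hx : ((740881858 : ℕ) : ℝ) / S ≤ x) (hx' : x ≤ (((740881858 : ℕ) : ℝ) + (40050571 : ℕ)) / S) :
    TriA PP.cur (VE (h0 * 0) 3 κ (h0 * x) (eng.v x) (h0 * (1 / 20)) (tnt (h0 * x) (1 / 5)) (tbl tK x) (tbl tL x) (tbl (smT h0⁻¹ tC) x)) 0 0 1 1 4 (-1) (-1) :=
  (sideB hx hx').bothA (thrB hx hx') (en_pos (hx1 hx).le) (Or.inr rfl) (Or.inr rfl) fun y y' F =>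
    bothA_cert (s1 := false) (s2 := false) rfl hκ (en_pos (hx1 hx).le) (esg_rng (hx1 hx).le (hx2 hx').le).1 (mo_v x) covB10 covB40 hx hx'
        Pool.Agent.Strip051.G.I69_7273.Tab.C.BA14.c_mm_001 noCut_EA noExt_EA F trivial trivial

theorem BA14_mm_011 {κ x : ℝ} (hκ : κ * h0 = ken x) (hx : ((740881858 : ℕ) : ℝ) / S ≤ x) (hx' : x ≤ (((740881858 : ℕ) : ℝ) + (40050571 : ℕ)) / S) :
    TriA PP.cur (VE (h0 * 0) 3 κ (h0 * x) (eng.v x) (h0 * (1 / 20)) (tnt (h0 * x) (1 / 5)) (tbl tK x) (tbl tL x) (tbl (smT h0⁻¹ tC) x)) 0 1 1 1 4 (-1) (-1) :=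
  (sideB hx hx').bothA (thrB hx hx') (en_pos (hx1 hx).le) (Or.inr rfl) (Or.inr rfl) fun y y' F =>
    bothA_cert (s1 := false) (s2 := false) rfl hκ (en_pos (hx1 hx).le) (esg_rng (hx1 hx).le (hx2 hx').le).1 (mo_v x) covB10 covB41 hx hx'
        Pool.Agent.Strip051.G.I69_7273.Tab.C.BA14.c_mm_011 noCut_EA noExt_EA F trivial trivial

theorem BA14_mm_012 {κ x : ℝ} (hκ : κ * h0 = ken x) (hx : ((740881858 : ℕ) : ℝ) / S ≤ x) (hx' : x ≤ (((740881858 : ℕ) : ℝ) + (40050571 : ℕ)) / S) :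
    TriA PP.cur (VE (h0 * 0) 3 κ (h0 * x) (eng.v x) (h0 * (1 / 20)) (tnt (h0 * x) (1 / 5)) (tbl tK x) (tbl tL x) (tbl (smT h0⁻¹ tC) x)) 0 1 2 1 4 (-1) (-1) :=
  (sideB hx hx').bothA (thrB hx hx') (en_pos (hx1 hx).le) (Or.inr rfl) (Or.inr rfl) fun y y' F =>
    bothA_cert (s1 := false) (s2 := false) rfl hκ (en_pos (hx1 hx).le) (esg_rng (hx1 hx).le (hx2 hx').le).1 (mo_v x) covB10 covB41 hx hx'
        Pool.Agent.Strip051.G.I69_7273.Tab.C.BA14.c_mm_012 noCut_EA noExt_EA F trivial trivial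

theorem BA14_mm_022 {κ x : ℝ} (hκ : κ * h0 = ken x) (hx : ((740881858 : ℕ) : ℝ) / S ≤ x) (hx' : x ≤ (((740881858 : ℕ) : ℝ) + (40050571 : ℕ)) / S) :
    TriA PP.cur (VE (h0 * 0) 3 κ (h0 * x) (eng.v x) (h0 * (1 / 20)) (tnt (h0 * x) (1 / 5)) (tbl tK x) (tbl tL x) (tbl (smT h0⁻¹ tC) x)) 0 2 2 1 4 (-1) (-1) :=
  (sideB hx hx').bothA (thrB hx hx') (en_pos (hx1 hx).le) (Or.inr rfl) (Or.inr rfl) fun y y' F =>
    bothA_cert (s1 := false) (s2 := false) rfl hκ (en_pos (hx1 hx).le) (esg_rng (hx1 hx).le (hx2 hx').le).1 (mo_v x) covB10 covB42 hx hx'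
        Pool.Agent.Strip051.G.I69_7273.Tab.C.BA14.c_mm_022 noCut_EA noExt_EA F trivial trivial

theorem BA14_mm_023 {κ x : ℝ} (hκ : κ * h0 = ken x) (hx : ((740881858 : ℕ) : ℝ) / S ≤ x) (hx' : x ≤ (((740881858 : ℕ) : ℝ) + (40050571 : ℕ)) / S) :
    TriA PP.cur (VE (h0 * 0) 3 κ (h0 * x) (eng.v x) (h0 * (1 / 20)) (tnt (h0 * x) (1 / 5)) (tbl tK x) (tbl tL x) (tbl (smT h0⁻¹ tC) x)) 0 2 3 1 4 (-1) (-1) :=
  (sideB hx hx').bothA (thrB hx hx') (en_pos (hx1 hx).le) (Or.inr rfl) (Or.inr rfl) fun y y' F =>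
    bothA_cert (s1 := false) (s2 := false) rfl hκ (en_pos (hx1 hx).le) (esg_rng (hx1 hx).le (hx2 hx').le).1 (mo_v x) covB10 covB42 hx hx'
        Pool.Agent.Strip051.G.I69_7273.Tab.C.BA14.c_mm_023 noCut_EA noExt_EA F trivial trivial

theorem BA14_mm_033 {κ x : ℝ} (hκ : κ * h0 = ken x) (hx : ((740881858 : ℕ) : ℝ) / S ≤ x) (hx' : x ≤ (((740881858 : ℕ) : ℝ) + (40050571 : ℕ)) / S) :
    TriA PP.cur (VE (h0 * 0) 3 κ (h0 * x) (eng.v x) (h0 * (1 / 20)) (tnt (h0 * x) (1 / 5)) (tbl tK x) (tbl tL x) (tbl (smT h0⁻¹ tC) x)) 0 3 3 1 4 (-1) (-1) :=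
  (sideB hx hx').bothA (thrB hx hx') (en_pos (hx1 hx).le) (Or.inr rfl) (Or.inr rfl) fun y y' F =>
    bothA_cert (s1 := false) (s2 := false) rfl hκ (en_pos (hx1 hx).le) (esg_rng (hx1 hx).le (hx2 hx').le).1 (mo_v x) covB10 covB43 hx hx'
        Pool.Agent.Strip051.G.I69_7273.Tab.C.BA14.c_mm_033 noCut_EA noExt_EA F trivial trivial

theorem BA14_mm_101 {κ x : ℝ} (hκ : κ * h0 = ken x) (hx : ((740881858 : ℕ) : ℝ) / S ≤ x) (hx' : x ≤ (((740881858 : ℕ) : ℝ) + (40050571 : ℕ)) / S) :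
    TriA PP.cur (VE (h0 * 0) 3 κ (h0 * x) (eng.v x) (h0 * (1 / 20)) (tnt (h0 * x) (1 / 5)) (tbl tK x) (tbl tL x) (tbl (smT h0⁻¹ tC) x)) 1 0 1 1 4 (-1) (-1) :=
  (sideB hx hx').bothA (thrB hx hx') (en_pos (hx1 hx).le) (Or.inr rfl) (Or.inr rfl) fun y y' F =>
    bothA_cert (s1 := false) (s2 := false) rfl hκ (en_pos (hx1 hx).le) (esg_rng (hx1 hx).le (hx2 hx').le).1 (mo_v x) covB11 covB40 hx hx'
        Pool.Agent.Strip051.G.I69_7273.Tab.C.BA14.c_mm_101 noCut_EA noExt_EA F trivial trivial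

theorem BA14_mm_102 {κ x : ℝ} (hκ : κ * h0 = ken x) (hx : ((740881858 : ℕ) : ℝ) / S ≤ x) (hx' : x ≤ (((740881858 : ℕ) : ℝ) + (40050571 : ℕ)) / S) :
    TriA PP.cur (VE (h0 * 0) 3 κ (h0 * x) (eng.v x) (h0 * (1 / 20)) (tnt (h0 * x) (1 / 5)) (tbl tK x) (tbl tL x) (tbl (smT h0⁻¹ tC) x)) 1 0 2 1 4 (-1) (-1) :=
  (sideB hx hx').bothA (thrB hx hx') (en_pos (hx1 hx).le) (Or.inr rfl) (Or.inr rfl) fun y y' F =>
    bothA_cert (s1 := false) (s2 := false) rfl hκ (en_pos (hx1 hx).le) (esg_rng (hx1 hx).le (hx2 hx').le).1 (mo_v x) covB11 covB40 hx hx'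
        Pool.Agent.Strip051.G.I69_7273.Tab.C.BA14.c_mm_102 noCut_EA noExt_EA F trivial trivial

theorem BA14_mm_112 {κ x : ℝ} (hκ : κ * h0 = ken x) (hx : ((740881858 : ℕ) : ℝ) / S ≤ x) (hx' : x ≤ (((740881858 : ℕ) : ℝ) + (40050571 : ℕ)) / S) :
    TriA PP.cur (VE (h0 * 0) 3 κ (h0 * x) (eng.v x) (h0 * (1 / 20)) (tnt (h0 * x) (1 / 5)) (tbl tK x) (tbl tL x) (tbl (smT h0⁻¹ tC) x)) 1 1 2 1 4 (-1) (-1) :=
  (sideB hx hx').bothA (thrB hx hx') (en_pos (hx1 hx).le) (Or.inr rfl) (Or.inr rfl) fun y y' F =>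
    bothA_cert (s1 := false) (s2 := false) rfl hκ (en_pos (hx1 hx).le) (esg_rng (hx1 hx).le (hx2 hx').le).1 (mo_v x) covB11 covB41 hx hx'
        Pool.Agent.Strip051.G.I69_7273.Tab.C.BA14.c_mm_112 noCut_EA noExt_EA F trivial trivial

theorem BA14_mm_113 {κ x : ℝ} (hκ : κ * h0 = ken x) (hx : ((740881858 : ℕ) : ℝ) / S ≤ x) (hx' : x ≤ (((740881858 : ℕ) : ℝ) + (40050571 : ℕ)) / S) :
    TriA PP.cur (VE (h0 * 0) 3 κ (h0 * x) (eng.v x) (h0 * (1 / 20)) (tnt (h0 * x) (1 / 5)) (tbl tK x) (tbl tL x) (tbl (smT h0⁻¹ tC) x)) 1 1 3 1 4 (-1) (-1) :=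
  (sideB hx hx').bothA (thrB hx hx') (en_pos (hx1 hx).le) (Or.inr rfl) (Or.inr rfl) fun y y' F =>
    bothA_cert (s1 := false) (s2 := false) rfl hκ (en_pos (hx1 hx).le) (esg_rng (hx1 hx).le (hx2 hx').le).1 (mo_v x) covB11 covB41 hx hx'
        Pool.Agent.Strip051.G.I69_7273.Tab.C.BA14.c_mm_113 noCut_EA noExt_EA F trivial trivial

theorem BA14_mm_123 {κ x : ℝ} (hκ : κ * h0 = ken x) (hx : ((740881858 : ℕ) : ℝ) / S ≤ x) (hx' : x ≤ (((740881858 : ℕ) : ℝ) + (40050571 : ℕ)) / S) :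
    TriA PP.cur (VE (h0 * 0) 3 κ (h0 * x) (eng.v x) (h0 * (1 / 20)) (tnt (h0 * x) (1 / 5)) (tbl tK x) (tbl tL x) (tbl (smT h0⁻¹ tC) x)) 1 2 3 1 4 (-1) (-1) :=
  (sideB hx hx').bothA (thrB hx hx') (en_pos (hx1 hx).le) (Or.inr rfl) (Or.inr rfl) fun y y' F =>
    bothA_cert (s1 := false) (s2 := false) rfl hκ (en_pos (hx1 hx).le) (esg_rng (hx1 hx).le (hx2 hx').le).1 (mo_v x) covB11 covB42 hx hx'
        Pool.Agent.Strip051.G.I69_7273.Tab.C.BA14.c_mm_123 noCut_EA noExt_EA F trivial trivial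

theorem BA14_mm_133 {κ x : ℝ} (hκ : κ * h0 = ken x) (hx : ((740881858 : ℕ) : ℝ) / S ≤ x) (hx' : x ≤ (((740881858 : ℕ) : ℝ) + (40050571 : ℕ)) / S) :
    TriA PP.cur (VE (h0 * 0) 3 κ (h0 * x) (eng.v x) (h0 * (1 / 20)) (tnt (h0 * x) (1 / 5)) (tbl tK x) (tbl tL x) (tbl (smT h0⁻¹ tC) x)) 1 3 3 1 4 (-1) (-1) :=
  (sideB hx hx').bothA (thrB hx hx') (en_pos (hx1 hx).le) (Or.inr rfl) (Or.inr rfl) fun y y' F =>
    bothA_cert (s1 := false) (s2 := false) rfl hκ (en_pos (hx1 hx).le) (esg_rng (hx1 hx).le (hx2 hx').le).1 (mo_v x) covB11 covB43 hx hx'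
        Pool.Agent.Strip051.G.I69_7273.Tab.C.BA14.c_mm_133 noCut_EA noExt_EA F trivial trivial

theorem BA14_mm_202 {κ x : ℝ} (hκ : κ * h0 = ken x) (hx : ((740881858 : ℕ) : ℝ) / S ≤ x) (hx' : x ≤ (((740881858 : ℕ) : ℝ) + (40050571 : ℕ)) / S) :
    TriA PP.cur (VE (h0 * 0) 3 κ (h0 * x) (eng.v x) (h0 * (1 / 20)) (tnt (h0 * x) (1 / 5)) (tbl tK x) (tbl tL x) (tbl (smT h0⁻¹ tC) x)) 2 0 2 1 4 (-1) (-1) :=
  (sideB hx hx').bothA (thrB hx hx') (en_pos (hx1 hx).le) (Or.inr rfl) (Or.inr rfl) fun y y' F =>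
    (lt_or_ge (h0 * y) 1).elim
      (fun h => bothA_cert (s1 := false) (s2 := false) rfl hκ (en_pos (hx1 hx).le) (esg_rng (hx1 hx).le (hx2 hx').le).1 (mo_v x) covB12a covB40 hx hx'
        Pool.Agent.Strip051.G.I69_7273.Tab.C.BA14.c_mm_202_a noCut_EA noExt_EA F h trivial)
      (fun h => bothA_cert (s1 := false) (s2 := false) rfl hκ (en_pos (hx1 hx).le) (esg_rng (hx1 hx).le (hx2 hx').le).1 (mo_v x) covB12b covB40 hx hx'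
        Pool.Agent.Strip051.G.I69_7273.Tab.C.BA14.c_mm_202_b noCut_EA noExt_EA F h trivial)

theorem BA14_mm_203 {κ x : ℝ} (hκ : κ * h0 = ken x) (hx : ((740881858 : ℕ) : ℝ) / S ≤ x) (hx' : x ≤ (((740881858 : ℕ) : ℝ) + (40050571 : ℕ)) / S) :
    TriA PP.cur (VE (h0 * 0) 3 κ (h0 * x) (eng.v x) (h0 * (1 / 20)) (tnt (h0 * x) (1 / 5)) (tbl tK x) (tbl tL x) (tbl (smT h0⁻¹ tC) x)) 2 0 3 1 4 (-1) (-1) :=
  (sideB hx hx').bothA (thrB hx hx') (en_pos (hx1 hx).le) (Or.inr rfl) (Or.inr rfl) fun y y' F =>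
    (lt_or_ge (h0 * y) 1).elim
      (fun h => bothA_cert (s1 := false) (s2 := false) rfl hκ (en_pos (hx1 hx).le) (esg_rng (hx1 hx).le (hx2 hx').le).1 (mo_v x) covB12a covB40 hx hx'
        Pool.Agent.Strip051.G.I69_7273.Tab.C.BA14.c_mm_203_a noCut_EA noExt_EA F h trivial)
      (fun h => bothA_cert (s1 := false) (s2 := false) rfl hκ (en_pos (hx1 hx).le) (esg_rng (hx1 hx).le (hx2 hx').le).1 (mo_v x) covB12b covB40 hx hx'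
        Pool.Agent.Strip051.G.I69_7273.Tab.C.BA14.c_mm_203_b noCut_EA noExt_EA F h trivial)

theorem BA14_mm_213 {κ x : ℝ} (hκ : κ * h0 = ken x) (hx : ((740881858 : ℕ) : ℝ) / S ≤ x) (hx' : x ≤ (((740881858 : ℕ) : ℝ) + (40050571 : ℕ)) / S) :
    TriA PP.cur (VE (h0 * 0) 3 κ (h0 * x) (eng.v x) (h0 * (1 / 20)) (tnt (h0 * x) (1 / 5)) (tbl tK x) (tbl tL x) (tbl (smT h0⁻¹ tC) x)) 2 1 3 1 4 (-1) (-1) :=
  (sideB hx hx').bothA (thrB hx hx') (en_pos (hx1 hx).le) (Or.inr rfl) (Or.inr rfl) fun y y' F =>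
    (lt_or_ge (h0 * y) 1).elim
      (fun h => bothA_cert (s1 := false) (s2 := false) rfl hκ (en_pos (hx1 hx).le) (esg_rng (hx1 hx).le (hx2 hx').le).1 (mo_v x) covB12a covB41 hx hx'
        Pool.Agent.Strip051.G.I69_7273.Tab.C.BA14.c_mm_213_a noCut_EA noExt_EA F h trivial)
      (fun h => bothA_cert (s1 := false) (s2 := false) rfl hκ (en_pos (hx1 hx).le) (esg_rng (hx1 hx).le (hx2 hx').le).1 (mo_v x) covB12b covB41 hx hx'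
        Pool.Agent.Strip051.G.I69_7273.Tab.C.BA14.c_mm_213_b noCut_EA noExt_EA F h trivial)

theorem BA14_mm_303 {κ x : ℝ} (hκ : κ * h0 = ken x) (hx : ((740881858 : ℕ) : ℝ) / S ≤ x) (hx' : x ≤ (((740881858 : ℕ) : ℝ) + (40050571 : ℕ)) / S) :
    TriA PP.cur (VE (h0 * 0) 3 κ (h0 * x) (eng.v x) (h0 * (1 / 20)) (tnt (h0 * x) (1 / 5)) (tbl tK x) (tbl tL x) (tbl (smT h0⁻¹ tC) x)) 3 0 3 1 4 (-1) (-1) :=
  (sideB hx hx').bothA (thrB hx hx') (en_pos (hx1 hx).le) (Or.inr rfl) (Or.inr rfl) fun y y' F =>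
    bothA_cert (s1 := false) (s2 := false) rfl hκ (en_pos (hx1 hx).le) (esg_rng (hx1 hx).le (hx2 hx').le).1 (mo_v x) covB13 covB40 hx hx'
        Pool.Agent.Strip051.G.I69_7273.Tab.C.BA14.c_mm_303 noCut_EA noExt_EA F trivial trivial

theorem BA14_mm_313 {κ x : ℝ} (hκ : κ * h0 = ken x) (hx : ((740881858 : ℕ) : ℝ) / S ≤ x) (hx' : x ≤ (((740881858 : ℕ) : ℝ) + (40050571 : ℕ)) / S) :
    TriA PP.cur (VE (h0 * 0) 3 κ (h0 * x) (eng.v x) (h0 * (1 / 20)) (tnt (h0 * x) (1 / 5)) (tbl tK x) (tbl tL x) (tbl (smT h0⁻¹ tC) x)) 3 1 3 1 4 (-1) (-1) :=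
  (sideB hx hx').bothA (thrB hx hx') (en_pos (hx1 hx).le) (Or.inr rfl) (Or.inr rfl) fun y y' F =>
    bothA_cert (s1 := false) (s2 := false) rfl hκ (en_pos (hx1 hx).le) (esg_rng (hx1 hx).le (hx2 hx').le).1 (mo_v x) covB13 covB41 hx hx'
        Pool.Agent.Strip051.G.I69_7273.Tab.C.BA14.c_mm_313 noCut_EA noExt_EA F trivial trivial

theorem BA14 {κ x : ℝ} (hκ : κ * h0 = ken x) (hx : ((740881858 : ℕ) : ℝ) / S ≤ x) (hx' : x ≤ (((740881858 : ℕ) : ℝ) + (40050571 : ℕ)) / S) : AllTA PP.cur (VE (h0 * 0) 3 κ (h0 * x) (eng.v x) (h0 * (1 / 20)) (tnt (h0 * x) (1 / 5)) (tbl tK x) (tbl tL x) (tbl (smT h0⁻¹ tC) x)) 1 4 where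
  pp := all17 (Q := fun a b c => TriA PP.cur (VE (h0 * 0) 3 κ (h0 * x) (eng.v x) (h0 * (1 / 20)) (tnt (h0 * x) (1 / 5)) (tbl tK x) (tbl tL x) (tbl (smT h0⁻¹ tC) x)) a b c 1 4 1 1)
    (BA14_pp_001 hκ hx hx') (BA14_pp_011 hκ hx hx') (BA14_pp_012 hκ hx hx') (BA14_pp_022 hκ hx hx') (BA14_pp_023 hκ hx hx') (BA14_pp_033 hκ hx hx') (BA14_pp_101 hκ hx hx') (BA14_pp_102 hκ hx hx') (BA14_pp_112 hκ hx hx') (BA14_pp_113 hκ hx hx') (BA14_pp_123 hκ hx hx') (BA14_pp_133 hκ hx hx') (BA14_pp_202 hκ hx hx') (BA14_pp_203 hκ hx hx') (BA14_pp_213 hκ hx hx') (BA14_pp_303 hκ hx hx') (BA14_pp_313 hκ hx hx')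
  pm := all17 (Q := fun a b c => TriA PP.cur (VE (h0 * 0) 3 κ (h0 * x) (eng.v x) (h0 * (1 / 20)) (tnt (h0 * x) (1 / 5)) (tbl tK x) (tbl tL x) (tbl (smT h0⁻¹ tC) x)) a b c 1 4 1 (-1))
    (BA14_pm_001 hκ hx hx') (BA14_pm_011 hκ hx hx') (BA14_pm_012 hκ hx hx') (BA14_pm_022 hκ hx hx') (BA14_pm_023 hκ hx hx') (BA14_pm_033 hκ hx hx') (BA14_pm_101 hκ hx hx') (BA14_pm_102 hκ hx hx') (BA14_pm_112 hκ hx hx') (BA14_pm_113 hκ hx hx') (BA14_pm_123 hκ hx hx') (BA14_pm_133 hκ hx hx') (BA14_pm_202 hκ hx hx') (BA14_pm_203 hκ hx hx') (BA14_pm_213 hκ hx hx') (BA14_pm_303 hκ hx hx') (BA14_pm_313 hκ hx hx')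
  mm := all17 (Q := fun a b c => TriA PP.cur (VE (h0 * 0) 3 κ (h0 * x) (eng.v x) (h0 * (1 / 20)) (tnt (h0 * x) (1 / 5)) (tbl tK x) (tbl tL x) (tbl (smT h0⁻¹ tC) x)) a b c 1 4 (-1) (-1))
    (BA14_mm_001 hκ hx hx') (BA14_mm_011 hκ hx hx') (BA14_mm_012 hκ hx hx') (BA14_mm_022 hκ hx hx') (BA14_mm_023 hκ hx hx') (BA14_mm_033 hκ hx hx') (BA14_mm_101 hκ hx hx') (BA14_mm_102 hκ hx hx') (BA14_mm_112 hκ hx hx') (BA14_mm_113 hκ hx hx') (BA14_mm_123 hκ hx hx') (BA14_mm_133 hκ hx hx') (BA14_mm_202 hκ hx hx') (BA14_mm_203 hκ hx hx') (BA14_mm_213 hκ hx hx') (BA14_mm_303 hκ hx hx') (BA14_mm_313 hκ hx hx')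

theorem BA15_pp_001 {κ x : ℝ} (hκ : κ * h0 = ken x) (hx : ((740881858 : ℕ) : ℝ) / S ≤ x) (hx' : x ≤ (((740881858 : ℕ) : ℝ) + (40050571 : ℕ)) / S) :
    TriA PP.cur (VE (h0 * 0) 3 κ (h0 * x) (eng.v x) (h0 * (1 / 20)) (tnt (h0 * x) (1 / 5)) (tbl tK x) (tbl tL x) (tbl (smT h0⁻¹ tC) x)) 0 0 1 1 5 1 1 :=
  (sideB hx hx').bothA (thrB hx hx') (en_pos (hx1 hx).le) (Or.inl rfl) (Or.inl rfl) fun y y' F =>
    bothA_cert (s1 := true) (s2 := true) rfl hκ (en_pos (hx1 hx).le) (esg_rng (hx1 hx).le (hx2 hx').le).1 (mo_v x) covB10 covB50 hx hx'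
        Pool.Agent.Strip051.G.I69_7273.Tab.C.BA15.c_pp_001 noCut_EA noExt_EA F trivial trivial

theorem BA15_pp_011 {κ x : ℝ} (hκ : κ * h0 = ken x) (hx : ((740881858 : ℕ) : ℝ) / S ≤ x) (hx' : x ≤ (((740881858 : ℕ) : ℝ) + (40050571 : ℕ)) / S) :
    TriA PP.cur (VE (h0 * 0) 3 κ (h0 * x) (eng.v x) (h0 * (1 / 20)) (tnt (h0 * x) (1 / 5)) (tbl tK x) (tbl tL x) (tbl (smT h0⁻¹ tC) x)) 0 1 1 1 5 1 1 :=
  (sideB hx hx').bothA (thrB hx hx') (en_pos (hx1 hx).le) (Or.inl rfl) (Or.inl rfl) fun y y' F =>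
    bothA_cert (s1 := true) (s2 := true) rfl hκ (en_pos (hx1 hx).le) (esg_rng (hx1 hx).le (hx2 hx').le).1 (mo_v x) covB10 covB51 hx hx'
        Pool.Agent.Strip051.G.I69_7273.Tab.C.BA15.c_pp_011 noCut_EA noExt_EA F trivial trivial

theorem BA15_pp_012 {κ x : ℝ} (hκ : κ * h0 = ken x) (hx : ((740881858 : ℕ) : ℝ) / S ≤ x) (hx' : x ≤ (((740881858 : ℕ) : ℝ) + (40050571 : ℕ)) / S) :
    TriA PP.cur (VE (h0 * 0) 3 κ (h0 * x) (eng.v x) (h0 * (1 / 20)) (tnt (h0 * x) (1 / 5)) (tbl tK x) (tbl tL x) (tbl (smT h0⁻¹ tC) x)) 0 1 2 1 5 1 1 :=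
  (sideB hx hx').bothA (thrB hx hx') (en_pos (hx1 hx).le) (Or.inl rfl) (Or.inl rfl) fun y y' F =>
    bothA_cert (s1 := true) (s2 := true) rfl hκ (en_pos (hx1 hx).le) (esg_rng (hx1 hx).le (hx2 hx').le).1 (mo_v x) covB10 covB51 hx hx'
        Pool.Agent.Strip051.G.I69_7273.Tab.C.BA15.c_pp_012 noCut_EA noExt_EA F trivial trivial

theorem BA15_pp_022 {κ x : ℝ} (hκ : κ * h0 = ken x) (hx : ((740881858 : ℕ) : ℝ) / S ≤ x) (hx' : x ≤ (((740881858 : ℕ) : ℝ) + (40050571 : ℕ)) / S) :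
    TriA PP.cur (VE (h0 * 0) 3 κ (h0 * x) (eng.v x) (h0 * (1 / 20)) (tnt (h0 * x) (1 / 5)) (tbl tK x) (tbl tL x) (tbl (smT h0⁻¹ tC) x)) 0 2 2 1 5 1 1 :=
  (sideB hx hx').bothA (thrB hx hx') (en_pos (hx1 hx).le) (Or.inl rfl) (Or.inl rfl) fun y y' F =>
    bothA_cert (s1 := true) (s2 := true) rfl hκ (en_pos (hx1 hx).le) (esg_rng (hx1 hx).le (hx2 hx').le).1 (mo_v x) covB10 covB52 hx hx'
        Pool.Agent.Strip051.G.I69_7273.Tab.C.BA15.c_pp_022 noCut_EA noExt_EA F trivial trivial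

theorem BA15_pp_023 {κ x : ℝ} (hκ : κ * h0 = ken x) (hx : ((740881858 : ℕ) : ℝ) / S ≤ x) (hx' : x ≤ (((740881858 : ℕ) : ℝ) + (40050571 : ℕ)) / S) :
    TriA PP.cur (VE (h0 * 0) 3 κ (h0 * x) (eng.v x) (h0 * (1 / 20)) (tnt (h0 * x) (1 / 5)) (tbl tK x) (tbl tL x) (tbl (smT h0⁻¹ tC) x)) 0 2 3 1 5 1 1 :=
  (sideB hx hx').bothA (thrB hx hx') (en_pos (hx1 hx).le) (Or.inl rfl) (Or.inl rfl) fun y y' F =>
    bothA_cert (s1 := true) (s2 := true) rfl hκ (en_pos (hx1 hx).le) (esg_rng (hx1 hx).le (hx2 hx').le).1 (mo_v x) covB10 covB52 hx hx'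
        Pool.Agent.Strip051.G.I69_7273.Tab.C.BA15.c_pp_023 noCut_EA noExt_EA F trivial trivial

theorem BA15_pp_033 {κ x : ℝ} (hκ : κ * h0 = ken x) (hx : ((740881858 : ℕ) : ℝ) / S ≤ x) (hx' : x ≤ (((740881858 : ℕ) : ℝ) + (40050571 : ℕ)) / S) :
    TriA PP.cur (VE (h0 * 0) 3 κ (h0 * x) (eng.v x) (h0 * (1 / 20)) (tnt (h0 * x) (1 / 5)) (tbl tK x) (tbl tL x) (tbl (smT h0⁻¹ tC) x)) 0 3 3 1 5 1 1 :=
  (sideB hx hx').bothA (thrB hx hx') (en_pos (hx1 hx).le) (Or.inl rfl) (Or.inl rfl) fun y y' F =>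
    bothA_cert (s1 := true) (s2 := true) rfl hκ (en_pos (hx1 hx).le) (esg_rng (hx1 hx).le (hx2 hx').le).1 (mo_v x) covB10 covB53 hx hx'
        Pool.Agent.Strip051.G.I69_7273.Tab.C.BA15.c_pp_033 noCut_EA noExt_EA F trivial trivial

theorem BA15_pp_101 {κ x : ℝ} (hκ : κ * h0 = ken x) (hx : ((740881858 : ℕ) : ℝ) / S ≤ x) (hx' : x ≤ (((740881858 : ℕ) : ℝ) + (40050571 : ℕ)) / S) :
    TriA PP.cur (VE (h0 * 0) 3 κ (h0 * x) (eng.v x) (h0 * (1 / 20)) (tnt (h0 * x) (1 / 5)) (tbl tK x) (tbl tL x) (tbl (smT h0⁻¹ tC) x)) 1 0 1 1 5 1 1 :=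
  (sideB hx hx').bothA (thrB hx hx') (en_pos (hx1 hx).le) (Or.inl rfl) (Or.inl rfl) fun y y' F =>
    bothA_cert (s1 := true) (s2 := true) rfl hκ (en_pos (hx1 hx).le) (esg_rng (hx1 hx).le (hx2 hx').le).1 (mo_v x) covB11 covB50 hx hx'
        Pool.Agent.Strip051.G.I69_7273.Tab.C.BA15.c_pp_101 noCut_EA noExt_EA F trivial trivial

theorem BA15_pp_102 {κ x : ℝ} (hκ : κ * h0 = ken x) (hx : ((740881858 : ℕ) : ℝ) / S ≤ x) (hx' : x ≤ (((740881858 : ℕ) : ℝ) + (40050571 : ℕ)) / S) :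
    TriA PP.cur (VE (h0 * 0) 3 κ (h0 * x) (eng.v x) (h0 * (1 / 20)) (tnt (h0 * x) (1 / 5)) (tbl tK x) (tbl tL x) (tbl (smT h0⁻¹ tC) x)) 1 0 2 1 5 1 1 :=
  (sideB hx hx').bothA (thrB hx hx') (en_pos (hx1 hx).le) (Or.inl rfl) (Or.inl rfl) fun y y' F =>
    bothA_cert (s1 := true) (s2 := true) rfl hκ (en_pos (hx1 hx).le) (esg_rng (hx1 hx).le (hx2 hx').le).1 (mo_v x) covB11 covB50 hx hx'
        Pool.Agent.Strip051.G.I69_7273.Tab.C.BA15.c_pp_102 noCut_EA noExt_EA F trivial trivial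

theorem BA15_pp_112 {κ x : ℝ} (hκ : κ * h0 = ken x) (hx : ((740881858 : ℕ) : ℝ) / S ≤ x) (hx' : x ≤ (((740881858 : ℕ) : ℝ) + (40050571 : ℕ)) / S) :
    TriA PP.cur (VE (h0 * 0) 3 κ (h0 * x) (eng.v x) (h0 * (1 / 20)) (tnt (h0 * x) (1 / 5)) (tbl tK x) (tbl tL x) (tbl (smT h0⁻¹ tC) x)) 1 1 2 1 5 1 1 :=
  (sideB hx hx').bothA (thrB hx hx') (en_pos (hx1 hx).le) (Or.inl rfl) (Or.inl rfl) fun y y' F =>
    bothA_cert (s1 := true) (s2 := true) rfl hκ (en_pos (hx1 hx).le) (esg_rng (hx1 hx).le (hx2 hx').le).1 (mo_v x) covB11 covB51 hx hx'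
        Pool.Agent.Strip051.G.I69_7273.Tab.C.BA15.c_pp_112 noCut_EA noExt_EA F trivial trivial

theorem BA15_pp_113 {κ x : ℝ} (hκ : κ * h0 = ken x) (hx : ((740881858 : ℕ) : ℝ) / S ≤ x) (hx' : x ≤ (((740881858 : ℕ) : ℝ) + (40050571 : ℕ)) / S) :
    TriA PP.cur (VE (h0 * 0) 3 κ (h0 * x) (eng.v x) (h0 * (1 / 20)) (tnt (h0 * x) (1 / 5)) (tbl tK x) (tbl tL x) (tbl (smT h0⁻¹ tC) x)) 1 1 3 1 5 1 1 :=
  (sideB hx hx').bothA (thrB hx hx') (en_pos (hx1 hx).le) (Or.inl rfl) (Or.inl rfl) fun y y' F =>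
    bothA_cert (s1 := true) (s2 := true) rfl hκ (en_pos (hx1 hx).le) (esg_rng (hx1 hx).le (hx2 hx').le).1 (mo_v x) covB11 covB51 hx hx'
        Pool.Agent.Strip051.G.I69_7273.Tab.C.BA15.c_pp_113 noCut_EA noExt_EA F trivial trivial

theorem BA15_pp_123 {κ x : ℝ} (hκ : κ * h0 = ken x) (hx : ((740881858 : ℕ) : ℝ) / S ≤ x) (hx' : x ≤ (((740881858 : ℕ) : ℝ) + (40050571 : ℕ)) / S) :
    TriA PP.cur (VE (h0 * 0) 3 κ (h0 * x) (eng.v x) (h0 * (1 / 20)) (tnt (h0 * x) (1 / 5)) (tbl tK x) (tbl tL x) (tbl (smT h0⁻¹ tC) x)) 1 2 3 1 5 1 1 :=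
  (sideB hx hx').bothA (thrB hx hx') (en_pos (hx1 hx).le) (Or.inl rfl) (Or.inl rfl) fun y y' F =>
    bothA_cert (s1 := true) (s2 := true) rfl hκ (en_pos (hx1 hx).le) (esg_rng (hx1 hx).le (hx2 hx').le).1 (mo_v x) covB11 covB52 hx hx'
        Pool.Agent.Strip051.G.I69_7273.Tab.C.BA15.c_pp_123 noCut_EA noExt_EA F trivial trivial

theorem BA15_pp_133 {κ x : ℝ} (hκ : κ * h0 = ken x) (hx : ((740881858 : ℕ) : ℝ) / S ≤ x) (hx' : x ≤ (((740881858 : ℕ) : ℝ) + (40050571 : ℕ)) / S) :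
    TriA PP.cur (VE (h0 * 0) 3 κ (h0 * x) (eng.v x) (h0 * (1 / 20)) (tnt (h0 * x) (1 / 5)) (tbl tK x) (tbl tL x) (tbl (smT h0⁻¹ tC) x)) 1 3 3 1 5 1 1 :=
  (sideB hx hx').bothA (thrB hx hx') (en_pos (hx1 hx).le) (Or.inl rfl) (Or.inl rfl) fun y y' F =>
    bothA_cert (s1 := true) (s2 := true) rfl hκ (en_pos (hx1 hx).le) (esg_rng (hx1 hx).le (hx2 hx').le).1 (mo_v x) covB11 covB53 hx hx'
        Pool.Agent.Strip051.G.I69_7273.Tab.C.BA15.c_pp_133 noCut_EA noExt_EA F trivial trivial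

theorem BA15_pp_202 {κ x : ℝ} (hκ : κ * h0 = ken x) (hx : ((740881858 : ℕ) : ℝ) / S ≤ x) (hx' : x ≤ (((740881858 : ℕ) : ℝ) + (40050571 : ℕ)) / S) :
    TriA PP.cur (VE (h0 * 0) 3 κ (h0 * x) (eng.v x) (h0 * (1 / 20)) (tnt (h0 * x) (1 / 5)) (tbl tK x) (tbl tL x) (tbl (smT h0⁻¹ tC) x)) 2 0 2 1 5 1 1 :=
  (sideB hx hx').bothA (thrB hx hx') (en_pos (hx1 hx).le) (Or.inl rfl) (Or.inl rfl) fun y y' F =>
    (lt_or_ge (h0 * y) 1).elim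
      (fun h => bothA_cert (s1 := true) (s2 := true) rfl hκ (en_pos (hx1 hx).le) (esg_rng (hx1 hx).le (hx2 hx').le).1 (mo_v x) covB12a covB50 hx hx'
        Pool.Agent.Strip051.G.I69_7273.Tab.C.BA15.c_pp_202_a noCut_EA noExt_EA F h trivial)
      (fun h => bothA_cert (s1 := true) (s2 := true) rfl hκ (en_pos (hx1 hx).le) (esg_rng (hx1 hx).le (hx2 hx').le).1 (mo_v x) covB12b covB50 hx hx'
        Pool.Agent.Strip051.G.I69_7273.Tab.C.BA15.c_pp_202_b noCut_EA noExt_EA F h trivial)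

theorem BA15_pp_203 {κ x : ℝ} (hκ : κ * h0 = ken x) (hx : ((740881858 : ℕ) : ℝ) / S ≤ x) (hx' : x ≤ (((740881858 : ℕ) : ℝ) + (40050571 : ℕ)) / S) :
    TriA PP.cur (VE (h0 * 0) 3 κ (h0 * x) (eng.v x) (h0 * (1 / 20)) (tnt (h0 * x) (1 / 5)) (tbl tK x) (tbl tL x) (tbl (smT h0⁻¹ tC) x)) 2 0 3 1 5 1 1 :=
  (sideB hx hx').bothA (thrB hx hx') (en_pos (hx1 hx).le) (Or.inl rfl) (Or.inl rfl) fun y y' F =>
    (lt_or_ge (h0 * y) 1).elim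
      (fun h => bothA_cert (s1 := true) (s2 := true) rfl hκ (en_pos (hx1 hx).le) (esg_rng (hx1 hx).le (hx2 hx').le).1 (mo_v x) covB12a covB50 hx hx'
        Pool.Agent.Strip051.G.I69_7273.Tab.C.BA15.c_pp_203_a noCut_EA noExt_EA F h trivial)
      (fun h => bothA_cert (s1 := true) (s2 := true) rfl hκ (en_pos (hx1 hx).le) (esg_rng (hx1 hx).le (hx2 hx').le).1 (mo_v x) covB12b covB50 hx hx'
        Pool.Agent.Strip051.G.I69_7273.Tab.C.BA15.c_pp_203_b noCut_EA noExt_EA F h trivial)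

theorem BA15_pp_213 {κ x : ℝ} (hκ : κ * h0 = ken x) (hx : ((740881858 : ℕ) : ℝ) / S ≤ x) (hx' : x ≤ (((740881858 : ℕ) : ℝ) + (40050571 : ℕ)) / S) :
    TriA PP.cur (VE (h0 * 0) 3 κ (h0 * x) (eng.v x) (h0 * (1 / 20)) (tnt (h0 * x) (1 / 5)) (tbl tK x) (tbl tL x) (tbl (smT h0⁻¹ tC) x)) 2 1 3 1 5 1 1 :=
  (sideB hx hx').bothA (thrB hx hx') (en_pos (hx1 hx).le) (Or.inl rfl) (Or.inl rfl) fun y y' F =>
    (lt_or_ge (h0 * y) 1).elim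
      (fun h => bothA_cert (s1 := true) (s2 := true) rfl hκ (en_pos (hx1 hx).le) (esg_rng (hx1 hx).le (hx2 hx').le).1 (mo_v x) covB12a covB51 hx hx'
        Pool.Agent.Strip051.G.I69_7273.Tab.C.BA15.c_pp_213_a noCut_EA noExt_EA F h trivial)
      (fun h => bothA_cert (s1 := true) (s2 := true) rfl hκ (en_pos (hx1 hx).le) (esg_rng (hx1 hx).le (hx2 hx').le).1 (mo_v x) covB12b covB51 hx hx'
        Pool.Agent.Strip051.G.I69_7273.Tab.C.BA15.c_pp_213_b noCut_EA noExt_EA F h trivial)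

theorem BA15_pp_303 {κ x : ℝ} (hκ : κ * h0 = ken x) (hx : ((740881858 : ℕ) : ℝ) / S ≤ x) (hx' : x ≤ (((740881858 : ℕ) : ℝ) + (40050571 : ℕ)) / S) :
    TriA PP.cur (VE (h0 * 0) 3 κ (h0 * x) (eng.v x) (h0 * (1 / 20)) (tnt (h0 * x) (1 / 5)) (tbl tK x) (tbl tL x) (tbl (smT h0⁻¹ tC) x)) 3 0 3 1 5 1 1 :=
  (sideB hx hx').bothA (thrB hx hx') (en_pos (hx1 hx).le) (Or.inl rfl) (Or.inl rfl) fun y y' F =>
    bothA_cert (s1 := true) (s2 := true) rfl hκ (en_pos (hx1 hx).le) (esg_rng (hx1 hx).le (hx2 hx').le).1 (mo_v x) covB13 covB50 hx hx'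
        Pool.Agent.Strip051.G.I69_7273.Tab.C.BA15.c_pp_303 noCut_EA noExt_EA F trivial trivial

theorem BA15_pp_313 {κ x : ℝ} (hκ : κ * h0 = ken x) (hx : ((740881858 : ℕ) : ℝ) / S ≤ x) (hx' : x ≤ (((740881858 : ℕ) : ℝ) + (40050571 : ℕ)) / S) :
    TriA PP.cur (VE (h0 * 0) 3 κ (h0 * x) (eng.v x) (h0 * (1 / 20)) (tnt (h0 * x) (1 / 5)) (tbl tK x) (tbl tL x) (tbl (smT h0⁻¹ tC) x)) 3 1 3 1 5 1 1 :=
  (sideB hx hx').bothA (thrB hx hx') (en_pos (hx1 hx).le) (Or.inl rfl) (Or.inl rfl) fun y y' F =>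
    bothA_cert (s1 := true) (s2 := true) rfl hκ (en_pos (hx1 hx).le) (esg_rng (hx1 hx).le (hx2 hx').le).1 (mo_v x) covB13 covB51 hx hx'
        Pool.Agent.Strip051.G.I69_7273.Tab.C.BA15.c_pp_313 noCut_EA noExt_EA F trivial trivial

theorem BA15_pm_001 {κ x : ℝ} (hκ : κ * h0 = ken x) (hx : ((740881858 : ℕ) : ℝ) / S ≤ x) (hx' : x ≤ (((740881858 : ℕ) : ℝ) + (40050571 : ℕ)) / S) :
    TriA PP.cur (VE (h0 * 0) 3 κ (h0 * x) (eng.v x) (h0 * (1 / 20)) (tnt (h0 * x) (1 / 5)) (tbl tK x) (tbl tL x) (tbl (smT h0⁻¹ tC) x)) 0 0 1 1 5 1 (-1) :=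
  (sideB hx hx').bothA (thrB hx hx') (en_pos (hx1 hx).le) (Or.inl rfl) (Or.inr rfl) fun y y' F =>
    bothA_cert (s1 := true) (s2 := false) rfl hκ (en_pos (hx1 hx).le) (esg_rng (hx1 hx).le (hx2 hx').le).1 (mo_v x) covB10 covB50 hx hx'
        Pool.Agent.Strip051.G.I69_7273.Tab.C.BA15.c_pm_001 noCut_EA noExt_EA F trivial trivial

theorem BA15_pm_011 {κ x : ℝ} (hκ : κ * h0 = ken x) (hx : ((740881858 : ℕ) : ℝ) / S ≤ x) (hx' : x ≤ (((740881858 : ℕ) : ℝ) + (40050571 : ℕ)) / S) :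
    TriA PP.cur (VE (h0 * 0) 3 κ (h0 * x) (eng.v x) (h0 * (1 / 20)) (tnt (h0 * x) (1 / 5)) (tbl tK x) (tbl tL x) (tbl (smT h0⁻¹ tC) x)) 0 1 1 1 5 1 (-1) :=
  (sideB hx hx').bothA (thrB hx hx') (en_pos (hx1 hx).le) (Or.inl rfl) (Or.inr rfl) fun y y' F =>
    bothA_cert (s1 := true) (s2 := false) rfl hκ (en_pos (hx1 hx).le) (esg_rng (hx1 hx).le (hx2 hx').le).1 (mo_v x) covB10 covB51 hx hx'
        Pool.Agent.Strip051.G.I69_7273.Tab.C.BA15.c_pm_011 (cutEA_cons (Pool.Agent.Strip051.G.I69_7273.Tab.altB_A011R_15 hκ hx hx') cutEA_nil) noExt_EA F trivial trivial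

theorem BA15_pm_012 {κ x : ℝ} (hκ : κ * h0 = ken x) (hx : ((740881858 : ℕ) : ℝ) / S ≤ x) (hx' : x ≤ (((740881858 : ℕ) : ℝ) + (40050571 : ℕ)) / S) :
    TriA PP.cur (VE (h0 * 0) 3 κ (h0 * x) (eng.v x) (h0 * (1 / 20)) (tnt (h0 * x) (1 / 5)) (tbl tK x) (tbl tL x) (tbl (smT h0⁻¹ tC) x)) 0 1 2 1 5 1 (-1) :=
  (sideB hx hx').bothA (thrB hx hx') (en_pos (hx1 hx).le) (Or.inl rfl) (Or.inr rfl) fun y y' F =>
    bothA_cert (s1 := true) (s2 := false) rfl hκ (en_pos (hx1 hx).le) (esg_rng (hx1 hx).le (hx2 hx').le).1 (mo_v x) covB10 covB51 hx hx'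
        Pool.Agent.Strip051.G.I69_7273.Tab.C.BA15.c_pm_012 (cutEA_cons (Pool.Agent.Strip051.G.I69_7273.Tab.altB_A012R_15 hκ hx hx') cutEA_nil) (xdA0 hκ hx hx' rfl) F trivial trivial

theorem BA15_pm_022 {κ x : ℝ} (hκ : κ * h0 = ken x) (hx : ((740881858 : ℕ) : ℝ) / S ≤ x) (hx' : x ≤ (((740881858 : ℕ) : ℝ) + (40050571 : ℕ)) / S) :
    TriA PP.cur (VE (h0 * 0) 3 κ (h0 * x) (eng.v x) (h0 * (1 / 20)) (tnt (h0 * x) (1 / 5)) (tbl tK x) (tbl tL x) (tbl (smT h0⁻¹ tC) x)) 0 2 2 1 5 1 (-1) :=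
  (sideB hx hx').bothA (thrB hx hx') (en_pos (hx1 hx).le) (Or.inl rfl) (Or.inr rfl) fun y y' F =>
    bothA_cert (s1 := true) (s2 := false) rfl hκ (en_pos (hx1 hx).le) (esg_rng (hx1 hx).le (hx2 hx').le).1 (mo_v x) covB10 covB52 hx hx'
        Pool.Agent.Strip051.G.I69_7273.Tab.C.BA15.c_pm_022 (cutEA_cons (Pool.Agent.Strip051.G.I69_7273.Tab.altB_A022R_15 hκ hx hx') cutEA_nil) noExt_EA F trivial trivial

theorem BA15_pm_023 {κ x : ℝ} (hκ : κ * h0 = ken x) (hx : ((740881858 : ℕ) : ℝ) / S ≤ x) (hx' : x ≤ (((740881858 : ℕ) : ℝ) + (40050571 : ℕ)) / S) :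
    TriA PP.cur (VE (h0 * 0) 3 κ (h0 * x) (eng.v x) (h0 * (1 / 20)) (tnt (h0 * x) (1 / 5)) (tbl tK x) (tbl tL x) (tbl (smT h0⁻¹ tC) x)) 0 2 3 1 5 1 (-1) :=
  (sideB hx hx').bothA (thrB hx hx') (en_pos (hx1 hx).le) (Or.inl rfl) (Or.inr rfl) fun y y' F =>
    bothA_cert (s1 := true) (s2 := false) rfl hκ (en_pos (hx1 hx).le) (esg_rng (hx1 hx).le (hx2 hx').le).1 (mo_v x) covB10 covB52 hx hx'
        Pool.Agent.Strip051.G.I69_7273.Tab.C.BA15.c_pm_023 noCut_EA noExt_EA F trivial trivial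

theorem BA15_pm_033 {κ x : ℝ} (hκ : κ * h0 = ken x) (hx : ((740881858 : ℕ) : ℝ) / S ≤ x) (hx' : x ≤ (((740881858 : ℕ) : ℝ) + (40050571 : ℕ)) / S) :
    TriA PP.cur (VE (h0 * 0) 3 κ (h0 * x) (eng.v x) (h0 * (1 / 20)) (tnt (h0 * x) (1 / 5)) (tbl tK x) (tbl tL x) (tbl (smT h0⁻¹ tC) x)) 0 3 3 1 5 1 (-1) :=
  (sideB hx hx').bothA (thrB hx hx') (en_pos (hx1 hx).le) (Or.inl rfl) (Or.inr rfl) fun y y' F =>
    bothA_cert (s1 := true) (s2 := false) rfl hκ (en_pos (hx1 hx).le) (esg_rng (hx1 hx).le (hx2 hx').le).1 (mo_v x) covB10 covB53 hx hx'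
        Pool.Agent.Strip051.G.I69_7273.Tab.C.BA15.c_pm_033 noCut_EA noExt_EA F trivial trivial

theorem BA15_pm_101 {κ x : ℝ} (hκ : κ * h0 = ken x) (hx : ((740881858 : ℕ) : ℝ) / S ≤ x) (hx' : x ≤ (((740881858 : ℕ) : ℝ) + (40050571 : ℕ)) / S) :
    TriA PP.cur (VE (h0 * 0) 3 κ (h0 * x) (eng.v x) (h0 * (1 / 20)) (tnt (h0 * x) (1 / 5)) (tbl tK x) (tbl tL x) (tbl (smT h0⁻¹ tC) x)) 1 0 1 1 5 1 (-1) :=
  (sideB hx hx').bothA (thrB hx hx') (en_pos (hx1 hx).le) (Or.inl rfl) (Or.inr rfl) fun y y' F =>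
    bothA_cert (s1 := true) (s2 := false) rfl hκ (en_pos (hx1 hx).le) (esg_rng (hx1 hx).le (hx2 hx').le).1 (mo_v x) covB11 covB50 hx hx'
        Pool.Agent.Strip051.G.I69_7273.Tab.C.BA15.c_pm_101 noCut_EA noExt_EA F trivial trivial

theorem BA15_pm_102 {κ x : ℝ} (hκ : κ * h0 = ken x) (hx : ((740881858 : ℕ) : ℝ) / S ≤ x) (hx' : x ≤ (((740881858 : ℕ) : ℝ) + (40050571 : ℕ)) / S) :
    TriA PP.cur (VE (h0 * 0) 3 κ (h0 * x) (eng.v x) (h0 * (1 / 20)) (tnt (h0 * x) (1 / 5)) (tbl tK x) (tbl tL x) (tbl (smT h0⁻¹ tC) x)) 1 0 2 1 5 1 (-1) :=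
  (sideB hx hx').bothA (thrB hx hx') (en_pos (hx1 hx).le) (Or.inl rfl) (Or.inr rfl) fun y y' F =>
    bothA_cert (s1 := true) (s2 := false) rfl hκ (en_pos (hx1 hx).le) (esg_rng (hx1 hx).le (hx2 hx').le).1 (mo_v x) covB11 covB50 hx hx'
        Pool.Agent.Strip051.G.I69_7273.Tab.C.BA15.c_pm_102 noCut_EA noExt_EA F trivial trivial

theorem BA15_pm_112 {κ x : ℝ} (hκ : κ * h0 = ken x) (hx : ((740881858 : ℕ) : ℝ) / S ≤ x) (hx' : x ≤ (((740881858 : ℕ) : ℝ) + (40050571 : ℕ)) / S) :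
    TriA PP.cur (VE (h0 * 0) 3 κ (h0 * x) (eng.v x) (h0 * (1 / 20)) (tnt (h0 * x) (1 / 5)) (tbl tK x) (tbl tL x) (tbl (smT h0⁻¹ tC) x)) 1 1 2 1 5 1 (-1) :=
  (sideB hx hx').bothA (thrB hx hx') (en_pos (hx1 hx).le) (Or.inl rfl) (Or.inr rfl) fun y y' F =>
    bothA_cert (s1 := true) (s2 := false) rfl hκ (en_pos (hx1 hx).le) (esg_rng (hx1 hx).le (hx2 hx').le).1 (mo_v x) covB11 covB51 hx hx'
        Pool.Agent.Strip051.G.I69_7273.Tab.C.BA15.c_pm_112 noCut_EA noExt_EA F trivial trivial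

theorem BA15_pm_113 {κ x : ℝ} (hκ : κ * h0 = ken x) (hx : ((740881858 : ℕ) : ℝ) / S ≤ x) (hx' : x ≤ (((740881858 : ℕ) : ℝ) + (40050571 : ℕ)) / S) :
    TriA PP.cur (VE (h0 * 0) 3 κ (h0 * x) (eng.v x) (h0 * (1 / 20)) (tnt (h0 * x) (1 / 5)) (tbl tK x) (tbl tL x) (tbl (smT h0⁻¹ tC) x)) 1 1 3 1 5 1 (-1) :=
  (sideB hx hx').bothA (thrB hx hx') (en_pos (hx1 hx).le) (Or.inl rfl) (Or.inr rfl) fun y y' F =>
    bothA_cert (s1 := true) (s2 := false) rfl hκ (en_pos (hx1 hx).le) (esg_rng (hx1 hx).le (hx2 hx').le).1 (mo_v x) covB11 covB51 hx hx'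
        Pool.Agent.Strip051.G.I69_7273.Tab.C.BA15.c_pm_113 noCut_EA noExt_EA F trivial trivial

theorem BA15_pm_123 {κ x : ℝ} (hκ : κ * h0 = ken x) (hx : ((740881858 : ℕ) : ℝ) / S ≤ x) (hx' : x ≤ (((740881858 : ℕ) : ℝ) + (40050571 : ℕ)) / S) :
    TriA PP.cur (VE (h0 * 0) 3 κ (h0 * x) (eng.v x) (h0 * (1 / 20)) (tnt (h0 * x) (1 / 5)) (tbl tK x) (tbl tL x) (tbl (smT h0⁻¹ tC) x)) 1 2 3 1 5 1 (-1) :=
  (sideB hx hx').bothA (thrB hx hx') (en_pos (hx1 hx).le) (Or.inl rfl) (Or.inr rfl) fun y y' F =>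
    bothA_cert (s1 := true) (s2 := false) rfl hκ (en_pos (hx1 hx).le) (esg_rng (hx1 hx).le (hx2 hx').le).1 (mo_v x) covB11 covB52 hx hx'
        Pool.Agent.Strip051.G.I69_7273.Tab.C.BA15.c_pm_123 noCut_EA noExt_EA F trivial trivial

theorem BA15_pm_133 {κ x : ℝ} (hκ : κ * h0 = ken x) (hx : ((740881858 : ℕ) : ℝ) / S ≤ x) (hx' : x ≤ (((740881858 : ℕ) : ℝ) + (40050571 : ℕ)) / S) :
    TriA PP.cur (VE (h0 * 0) 3 κ (h0 * x) (eng.v x) (h0 * (1 / 20)) (tnt (h0 * x) (1 / 5)) (tbl tK x) (tbl tL x) (tbl (smT h0⁻¹ tC) x)) 1 3 3 1 5 1 (-1) :=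
  (sideB hx hx').bothA (thrB hx hx') (en_pos (hx1 hx).le) (Or.inl rfl) (Or.inr rfl) fun y y' F =>
    bothA_cert (s1 := true) (s2 := false) rfl hκ (en_pos (hx1 hx).le) (esg_rng (hx1 hx).le (hx2 hx').le).1 (mo_v x) covB11 covB53 hx hx'
        Pool.Agent.Strip051.G.I69_7273.Tab.C.BA15.c_pm_133 noCut_EA noExt_EA F trivial trivial

theorem BA15_pm_202 {κ x : ℝ} (hκ : κ * h0 = ken x) (hx : ((740881858 : ℕ) : ℝ) / S ≤ x) (hx' : x ≤ (((740881858 : ℕ) : ℝ) + (40050571 : ℕ)) / S) :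
    TriA PP.cur (VE (h0 * 0) 3 κ (h0 * x) (eng.v x) (h0 * (1 / 20)) (tnt (h0 * x) (1 / 5)) (tbl tK x) (tbl tL x) (tbl (smT h0⁻¹ tC) x)) 2 0 2 1 5 1 (-1) :=
  (sideB hx hx').bothA (thrB hx hx') (en_pos (hx1 hx).le) (Or.inl rfl) (Or.inr rfl) fun y y' F =>
    (lt_or_ge (h0 * y) 1).elim
      (fun h => bothA_cert (s1 := true) (s2 := false) rfl hκ (en_pos (hx1 hx).le) (esg_rng (hx1 hx).le (hx2 hx').le).1 (mo_v x) covB12a covB50 hx hx'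
        Pool.Agent.Strip051.G.I69_7273.Tab.C.BA15.c_pm_202_a noCut_EA noExt_EA F h trivial)
      (fun h => bothA_cert (s1 := true) (s2 := false) rfl hκ (en_pos (hx1 hx).le) (esg_rng (hx1 hx).le (hx2 hx').le).1 (mo_v x) covB12b covB50 hx hx'
        Pool.Agent.Strip051.G.I69_7273.Tab.C.BA15.c_pm_202_b noCut_EA noExt_EA F h trivial)

theorem BA15_pm_203 {κ x : ℝ} (hκ : κ * h0 = ken x) (hx : ((740881858 : ℕ) : ℝ) / S ≤ x) (hx' : x ≤ (((740881858 : ℕ) : ℝ) + (40050571 : ℕ)) / S) :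
    TriA PP.cur (VE (h0 * 0) 3 κ (h0 * x) (eng.v x) (h0 * (1 / 20)) (tnt (h0 * x) (1 / 5)) (tbl tK x) (tbl tL x) (tbl (smT h0⁻¹ tC) x)) 2 0 3 1 5 1 (-1) :=
  (sideB hx hx').bothA (thrB hx hx') (en_pos (hx1 hx).le) (Or.inl rfl) (Or.inr rfl) fun y y' F =>
    (lt_or_ge (h0 * y) 1).elim
      (fun h => bothA_cert (s1 := true) (s2 := false) rfl hκ (en_pos (hx1 hx).le) (esg_rng (hx1 hx).le (hx2 hx').le).1 (mo_v x) covB12a covB50 hx hx'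
        Pool.Agent.Strip051.G.I69_7273.Tab.C.BA15.c_pm_203_a noCut_EA noExt_EA F h trivial)
      (fun h => bothA_cert (s1 := true) (s2 := false) rfl hκ (en_pos (hx1 hx).le) (esg_rng (hx1 hx).le (hx2 hx').le).1 (mo_v x) covB12b covB50 hx hx'
        Pool.Agent.Strip051.G.I69_7273.Tab.C.BA15.c_pm_203_b noCut_EA noExt_EA F h trivial)

theorem BA15_pm_213 {κ x : ℝ} (hκ : κ * h0 = ken x) (hx : ((740881858 : ℕ) : ℝ) / S ≤ x) (hx' : x ≤ (((740881858 : ℕ) : ℝ) + (40050571 : ℕ)) / S) :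
    TriA PP.cur (VE (h0 * 0) 3 κ (h0 * x) (eng.v x) (h0 * (1 / 20)) (tnt (h0 * x) (1 / 5)) (tbl tK x) (tbl tL x) (tbl (smT h0⁻¹ tC) x)) 2 1 3 1 5 1 (-1) :=
  (sideB hx hx').bothA (thrB hx hx') (en_pos (hx1 hx).le) (Or.inl rfl) (Or.inr rfl) fun y y' F =>
    (lt_or_ge (h0 * y) 1).elim
      (fun h => bothA_cert (s1 := true) (s2 := false) rfl hκ (en_pos (hx1 hx).le) (esg_rng (hx1 hx).le (hx2 hx').le).1 (mo_v x) covB12a covB51 hx hx'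
        Pool.Agent.Strip051.G.I69_7273.Tab.C.BA15.c_pm_213_a noCut_EA noExt_EA F h trivial)
      (fun h => bothA_cert (s1 := true) (s2 := false) rfl hκ (en_pos (hx1 hx).le) (esg_rng (hx1 hx).le (hx2 hx').le).1 (mo_v x) covB12b covB51 hx hx'
        Pool.Agent.Strip051.G.I69_7273.Tab.C.BA15.c_pm_213_b noCut_EA noExt_EA F h trivial)

theorem BA15_pm_303 {κ x : ℝ} (hκ : κ * h0 = ken x) (hx : ((740881858 : ℕ) : ℝ) / S ≤ x) (hx' : x ≤ (((740881858 : ℕ) : ℝ) + (40050571 : ℕ)) / S) :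
    TriA PP.cur (VE (h0 * 0) 3 κ (h0 * x) (eng.v x) (h0 * (1 / 20)) (tnt (h0 * x) (1 / 5)) (tbl tK x) (tbl tL x) (tbl (smT h0⁻¹ tC) x)) 3 0 3 1 5 1 (-1) :=
  (sideB hx hx').bothA (thrB hx hx') (en_pos (hx1 hx).le) (Or.inl rfl) (Or.inr rfl) fun y y' F =>
    bothA_cert (s1 := true) (s2 := false) rfl hκ (en_pos (hx1 hx).le) (esg_rng (hx1 hx).le (hx2 hx').le).1 (mo_v x) covB13 covB50 hx hx'
        Pool.Agent.Strip051.G.I69_7273.Tab.C.BA15.c_pm_303 noCut_EA noExt_EA F trivial trivial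

theorem BA15_pm_313 {κ x : ℝ} (hκ : κ * h0 = ken x) (hx : ((740881858 : ℕ) : ℝ) / S ≤ x) (hx' : x ≤ (((740881858 : ℕ) : ℝ) + (40050571 : ℕ)) / S) :
    TriA PP.cur (VE (h0 * 0) 3 κ (h0 * x) (eng.v x) (h0 * (1 / 20)) (tnt (h0 * x) (1 / 5)) (tbl tK x) (tbl tL x) (tbl (smT h0⁻¹ tC) x)) 3 1 3 1 5 1 (-1) :=
  (sideB hx hx').bothA (thrB hx hx') (en_pos (hx1 hx).le) (Or.inl rfl) (Or.inr rfl) fun y y' F =>
    bothA_cert (s1 := true) (s2 := false) rfl hκ (en_pos (hx1 hx).le) (esg_rng (hx1 hx).le (hx2 hx').le).1 (mo_v x) covB13 covB51 hx hx'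
        Pool.Agent.Strip051.G.I69_7273.Tab.C.BA15.c_pm_313 noCut_EA noExt_EA F trivial trivial

theorem BA15_mm_001 {κ x : ℝ} (hκ : κ * h0 = ken x) (hx : ((740881858 : ℕ) : ℝ) / S ≤ x) (hx' : x ≤ (((740881858 : ℕ) : ℝ) + (40050571 : ℕ)) / S) :
    TriA PP.cur (VE (h0 * 0) 3 κ (h0 * x) (eng.v x) (h0 * (1 / 20)) (tnt (h0 * x) (1 / 5)) (tbl tK x) (tbl tL x) (tbl (smT h0⁻¹ tC) x)) 0 0 1 1 5 (-1) (-1) :=
  (sideB hx hx').bothA (thrB hx hx') (en_pos (hx1 hx).le) (Or.inr rfl) (Or.inr rfl) fun y y' F =>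
    bothA_cert (s1 := false) (s2 := false) rfl hκ (en_pos (hx1 hx).le) (esg_rng (hx1 hx).le (hx2 hx').le).1 (mo_v x) covB10 covB50 hx hx'
        Pool.Agent.Strip051.G.I69_7273.Tab.C.BA15.c_mm_001 noCut_EA noExt_EA F trivial trivial

theorem BA15_mm_011 {κ x : ℝ} (hκ : κ * h0 = ken x) (hx : ((740881858 : ℕ) : ℝ) / S ≤ x) (hx' : x ≤ (((740881858 : ℕ) : ℝ) + (40050571 : ℕ)) / S) :
    TriA PP.cur (VE (h0 * 0) 3 κ (h0 * x) (eng.v x) (h0 * (1 / 20)) (tnt (h0 * x) (1 / 5)) (tbl tK x) (tbl tL x) (tbl (smT h0⁻¹ tC) x)) 0 1 1 1 5 (-1) (-1) :=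
  (sideB hx hx').bothA (thrB hx hx') (en_pos (hx1 hx).le) (Or.inr rfl) (Or.inr rfl) fun y y' F =>
    bothA_cert (s1 := false) (s2 := false) rfl hκ (en_pos (hx1 hx).le) (esg_rng (hx1 hx).le (hx2 hx').le).1 (mo_v x) covB10 covB51 hx hx'
        Pool.Agent.Strip051.G.I69_7273.Tab.C.BA15.c_mm_011 noCut_EA noExt_EA F trivial trivial

theorem BA15_mm_012 {κ x : ℝ} (hκ : κ * h0 = ken x) (hx : ((740881858 : ℕ) : ℝ) / S ≤ x) (hx' : x ≤ (((740881858 : ℕ) : ℝ) + (40050571 : ℕ)) / S) :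
    TriA PP.cur (VE (h0 * 0) 3 κ (h0 * x) (eng.v x) (h0 * (1 / 20)) (tnt (h0 * x) (1 / 5)) (tbl tK x) (tbl tL x) (tbl (smT h0⁻¹ tC) x)) 0 1 2 1 5 (-1) (-1) :=
  (sideB hx hx').bothA (thrB hx hx') (en_pos (hx1 hx).le) (Or.inr rfl) (Or.inr rfl) fun y y' F =>
    bothA_cert (s1 := false) (s2 := false) rfl hκ (en_pos (hx1 hx).le) (esg_rng (hx1 hx).le (hx2 hx').le).1 (mo_v x) covB10 covB51 hx hx'
        Pool.Agent.Strip051.G.I69_7273.Tab.C.BA15.c_mm_012 noCut_EA noExt_EA F trivial trivial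

theorem BA15_mm_022 {κ x : ℝ} (hκ : κ * h0 = ken x) (hx : ((740881858 : ℕ) : ℝ) / S ≤ x) (hx' : x ≤ (((740881858 : ℕ) : ℝ) + (40050571 : ℕ)) / S) :
    TriA PP.cur (VE (h0 * 0) 3 κ (h0 * x) (eng.v x) (h0 * (1 / 20)) (tnt (h0 * x) (1 / 5)) (tbl tK x) (tbl tL x) (tbl (smT h0⁻¹ tC) x)) 0 2 2 1 5 (-1) (-1) :=
  (sideB hx hx').bothA (thrB hx hx') (en_pos (hx1 hx).le) (Or.inr rfl) (Or.inr rfl) fun y y' F =>
    bothA_cert (s1 := false) (s2 := false) rfl hκ (en_pos (hx1 hx).le) (esg_rng (hx1 hx).le (hx2 hx').le).1 (mo_v x) covB10 covB52 hx hx'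
        Pool.Agent.Strip051.G.I69_7273.Tab.C.BA15.c_mm_022 noCut_EA noExt_EA F trivial trivial

theorem BA15_mm_023 {κ x : ℝ} (hκ : κ * h0 = ken x) (hx : ((740881858 : ℕ) : ℝ) / S ≤ x) (hx' : x ≤ (((740881858 : ℕ) : ℝ) + (40050571 : ℕ)) / S) :
    TriA PP.cur (VE (h0 * 0) 3 κ (h0 * x) (eng.v x) (h0 * (1 / 20)) (tnt (h0 * x) (1 / 5)) (tbl tK x) (tbl tL x) (tbl (smT h0⁻¹ tC) x)) 0 2 3 1 5 (-1) (-1) :=
  (sideB hx hx').bothA (thrB hx hx') (en_pos (hx1 hx).le) (Or.inr rfl) (Or.inr rfl) fun y y' F =>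
    bothA_cert (s1 := false) (s2 := false) rfl hκ (en_pos (hx1 hx).le) (esg_rng (hx1 hx).le (hx2 hx').le).1 (mo_v x) covB10 covB52 hx hx'
        Pool.Agent.Strip051.G.I69_7273.Tab.C.BA15.c_mm_023 noCut_EA noExt_EA F trivial trivial

theorem BA15_mm_033 {κ x : ℝ} (hκ : κ * h0 = ken x) (hx : ((740881858 : ℕ) : ℝ) / S ≤ x) (hx' : x ≤ (((740881858 : ℕ) : ℝ) + (40050571 : ℕ)) / S) :
    TriA PP.cur (VE (h0 * 0) 3 κ (h0 * x) (eng.v x) (h0 * (1 / 20)) (tnt (h0 * x) (1 / 5)) (tbl tK x) (tbl tL x) (tbl (smT h0⁻¹ tC) x)) 0 3 3 1 5 (-1) (-1) :=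
  (sideB hx hx').bothA (thrB hx hx') (en_pos (hx1 hx).le) (Or.inr rfl) (Or.inr rfl) fun y y' F =>
    bothA_cert (s1 := false) (s2 := false) rfl hκ (en_pos (hx1 hx).le) (esg_rng (hx1 hx).le (hx2 hx').le).1 (mo_v x) covB10 covB53 hx hx'
        Pool.Agent.Strip051.G.I69_7273.Tab.C.BA15.c_mm_033 noCut_EA noExt_EA F trivial trivial

theorem BA15_mm_101 {κ x : ℝ} (hκ : κ * h0 = ken x) (hx : ((740881858 : ℕ) : ℝ) / S ≤ x) (hx' : x ≤ (((740881858 : ℕ) : ℝ) + (40050571 : ℕ)) / S) :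
    TriA PP.cur (VE (h0 * 0) 3 κ (h0 * x) (eng.v x) (h0 * (1 / 20)) (tnt (h0 * x) (1 / 5)) (tbl tK x) (tbl tL x) (tbl (smT h0⁻¹ tC) x)) 1 0 1 1 5 (-1) (-1) :=
  (sideB hx hx').bothA (thrB hx hx') (en_pos (hx1 hx).le) (Or.inr rfl) (Or.inr rfl) fun y y' F =>
    bothA_cert (s1 := false) (s2 := false) rfl hκ (en_pos (hx1 hx).le) (esg_rng (hx1 hx).le (hx2 hx').le).1 (mo_v x) covB11 covB50 hx hx'
        Pool.Agent.Strip051.G.I69_7273.Tab.C.BA15.c_mm_101 noCut_EA noExt_EA F trivial trivial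

theorem BA15_mm_102 {κ x : ℝ} (hκ : κ * h0 = ken x) (hx : ((740881858 : ℕ) : ℝ) / S ≤ x) (hx' : x ≤ (((740881858 : ℕ) : ℝ) + (40050571 : ℕ)) / S) :
    TriA PP.cur (VE (h0 * 0) 3 κ (h0 * x) (eng.v x) (h0 * (1 / 20)) (tnt (h0 * x) (1 / 5)) (tbl tK x) (tbl tL x) (tbl (smT h0⁻¹ tC) x)) 1 0 2 1 5 (-1) (-1) :=
  (sideB hx hx').bothA (thrB hx hx') (en_pos (hx1 hx).le) (Or.inr rfl) (Or.inr rfl) fun y y' F =>
    bothA_cert (s1 := false) (s2 := false) rfl hκ (en_pos (hx1 hx).le) (esg_rng (hx1 hx).le (hx2 hx').le).1 (mo_v x) covB11 covB50 hx hx'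
        Pool.Agent.Strip051.G.I69_7273.Tab.C.BA15.c_mm_102 noCut_EA noExt_EA F trivial trivial

theorem BA15_mm_112 {κ x : ℝ} (hκ : κ * h0 = ken x) (hx : ((740881858 : ℕ) : ℝ) / S ≤ x) (hx' : x ≤ (((740881858 : ℕ) : ℝ) + (40050571 : ℕ)) / S) :
    TriA PP.cur (VE (h0 * 0) 3 κ (h0 * x) (eng.v x) (h0 * (1 / 20)) (tnt (h0 * x) (1 / 5)) (tbl tK x) (tbl tL x) (tbl (smT h0⁻¹ tC) x)) 1 1 2 1 5 (-1) (-1) :=
  (sideB hx hx').bothA (thrB hx hx') (en_pos (hx1 hx).le) (Or.inr rfl) (Or.inr rfl) fun y y' F =>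
    bothA_cert (s1 := false) (s2 := false) rfl hκ (en_pos (hx1 hx).le) (esg_rng (hx1 hx).le (hx2 hx').le).1 (mo_v x) covB11 covB51 hx hx'
        Pool.Agent.Strip051.G.I69_7273.Tab.C.BA15.c_mm_112 noCut_EA noExt_EA F trivial trivial

theorem BA15_mm_113 {κ x : ℝ} (hκ : κ * h0 = ken x) (hx : ((740881858 : ℕ) : ℝ) / S ≤ x) (hx' : x ≤ (((740881858 : ℕ) : ℝ) + (40050571 : ℕ)) / S) :
    TriA PP.cur (VE (h0 * 0) 3 κ (h0 * x) (eng.v x) (h0 * (1 / 20)) (tnt (h0 * x) (1 / 5)) (tbl tK x) (tbl tL x) (tbl (smT h0⁻¹ tC) x)) 1 1 3 1 5 (-1) (-1) :=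
  (sideB hx hx').bothA (thrB hx hx') (en_pos (hx1 hx).le) (Or.inr rfl) (Or.inr rfl) fun y y' F =>
    bothA_cert (s1 := false) (s2 := false) rfl hκ (en_pos (hx1 hx).le) (esg_rng (hx1 hx).le (hx2 hx').le).1 (mo_v x) covB11 covB51 hx hx'
        Pool.Agent.Strip051.G.I69_7273.Tab.C.BA15.c_mm_113 noCut_EA noExt_EA F trivial trivial

theorem BA15_mm_123 {κ x : ℝ} (hκ : κ * h0 = ken x) (hx : ((740881858 : ℕ) : ℝ) / S ≤ x) (hx' : x ≤ (((740881858 : ℕ) : ℝ) + (40050571 : ℕ)) / S) :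
    TriA PP.cur (VE (h0 * 0) 3 κ (h0 * x) (eng.v x) (h0 * (1 / 20)) (tnt (h0 * x) (1 / 5)) (tbl tK x) (tbl tL x) (tbl (smT h0⁻¹ tC) x)) 1 2 3 1 5 (-1) (-1) :=
  (sideB hx hx').bothA (thrB hx hx') (en_pos (hx1 hx).le) (Or.inr rfl) (Or.inr rfl) fun y y' F =>
    bothA_cert (s1 := false) (s2 := false) rfl hκ (en_pos (hx1 hx).le) (esg_rng (hx1 hx).le (hx2 hx').le).1 (mo_v x) covB11 covB52 hx hx'
        Pool.Agent.Strip051.G.I69_7273.Tab.C.BA15.c_mm_123 noCut_EA noExt_EA F trivial trivial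

theorem BA15_mm_133 {κ x : ℝ} (hκ : κ * h0 = ken x) (hx : ((740881858 : ℕ) : ℝ) / S ≤ x) (hx' : x ≤ (((740881858 : ℕ) : ℝ) + (40050571 : ℕ)) / S) :
    TriA PP.cur (VE (h0 * 0) 3 κ (h0 * x) (eng.v x) (h0 * (1 / 20)) (tnt (h0 * x) (1 / 5)) (tbl tK x) (tbl tL x) (tbl (smT h0⁻¹ tC) x)) 1 3 3 1 5 (-1) (-1) :=
  (sideB hx hx').bothA (thrB hx hx') (en_pos (hx1 hx).le) (Or.inr rfl) (Or.inr rfl) fun y y' F =>
    bothA_cert (s1 := false) (s2 := false) rfl hκ (en_pos (hx1 hx).le) (esg_rng (hx1 hx).le (hx2 hx').le).1 (mo_v x) covB11 covB53 hx hx'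
        Pool.Agent.Strip051.G.I69_7273.Tab.C.BA15.c_mm_133 noCut_EA noExt_EA F trivial trivial

theorem BA15_mm_202 {κ x : ℝ} (hκ : κ * h0 = ken x) (hx : ((740881858 : ℕ) : ℝ) / S ≤ x) (hx' : x ≤ (((740881858 : ℕ) : ℝ) + (40050571 : ℕ)) / S) :
    TriA PP.cur (VE (h0 * 0) 3 κ (h0 * x) (eng.v x) (h0 * (1 / 20)) (tnt (h0 * x) (1 / 5)) (tbl tK x) (tbl tL x) (tbl (smT h0⁻¹ tC) x)) 2 0 2 1 5 (-1) (-1) :=
  (sideB hx hx').bothA (thrB hx hx') (en_pos (hx1 hx).le) (Or.inr rfl) (Or.inr rfl) fun y y' F =>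
    (lt_or_ge (h0 * y) 1).elim
      (fun h => bothA_cert (s1 := false) (s2 := false) rfl hκ (en_pos (hx1 hx).le) (esg_rng (hx1 hx).le (hx2 hx').le).1 (mo_v x) covB12a covB50 hx hx'
        Pool.Agent.Strip051.G.I69_7273.Tab.C.BA15.c_mm_202_a noCut_EA noExt_EA F h trivial)
      (fun h => bothA_cert (s1 := false) (s2 := false) rfl hκ (en_pos (hx1 hx).le) (esg_rng (hx1 hx).le (hx2 hx').le).1 (mo_v x) covB12b covB50 hx hx'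
        Pool.Agent.Strip051.G.I69_7273.Tab.C.BA15.c_mm_202_b noCut_EA noExt_EA F h trivial)

theorem BA15_mm_203 {κ x : ℝ} (hκ : κ * h0 = ken x) (hx : ((740881858 : ℕ) : ℝ) / S ≤ x) (hx' : x ≤ (((740881858 : ℕ) : ℝ) + (40050571 : ℕ)) / S) :
    TriA PP.cur (VE (h0 * 0) 3 κ (h0 * x) (eng.v x) (h0 * (1 / 20)) (tnt (h0 * x) (1 / 5)) (tbl tK x) (tbl tL x) (tbl (smT h0⁻¹ tC) x)) 2 0 3 1 5 (-1) (-1) :=
  (sideB hx hx').bothA (thrB hx hx') (en_pos (hx1 hx).le) (Or.inr rfl) (Or.inr rfl) fun y y' F =>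
    (lt_or_ge (h0 * y) 1).elim
      (fun h => bothA_cert (s1 := false) (s2 := false) rfl hκ (en_pos (hx1 hx).le) (esg_rng (hx1 hx).le (hx2 hx').le).1 (mo_v x) covB12a covB50 hx hx'
        Pool.Agent.Strip051.G.I69_7273.Tab.C.BA15.c_mm_203_a noCut_EA noExt_EA F h trivial)
      (fun h => bothA_cert (s1 := false) (s2 := false) rfl hκ (en_pos (hx1 hx).le) (esg_rng (hx1 hx).le (hx2 hx').le).1 (mo_v x) covB12b covB50 hx hx'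
        Pool.Agent.Strip051.G.I69_7273.Tab.C.BA15.c_mm_203_b noCut_EA noExt_EA F h trivial)

theorem BA15_mm_213 {κ x : ℝ} (hκ : κ * h0 = ken x) (hx : ((740881858 : ℕ) : ℝ) / S ≤ x) (hx' : x ≤ (((740881858 : ℕ) : ℝ) + (40050571 : ℕ)) / S) :
    TriA PP.cur (VE (h0 * 0) 3 κ (h0 * x) (eng.v x) (h0 * (1 / 20)) (tnt (h0 * x) (1 / 5)) (tbl tK x) (tbl tL x) (tbl (smT h0⁻¹ tC) x)) 2 1 3 1 5 (-1) (-1) :=
  (sideB hx hx').bothA (thrB hx hx') (en_pos (hx1 hx).le) (Or.inr rfl) (Or.inr rfl) fun y y' F =>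
    (lt_or_ge (h0 * y) 1).elim
      (fun h => bothA_cert (s1 := false) (s2 := false) rfl hκ (en_pos (hx1 hx).le) (esg_rng (hx1 hx).le (hx2 hx').le).1 (mo_v x) covB12a covB51 hx hx'
        Pool.Agent.Strip051.G.I69_7273.Tab.C.BA15.c_mm_213_a noCut_EA noExt_EA F h trivial)
      (fun h => bothA_cert (s1 := false) (s2 := false) rfl hκ (en_pos (hx1 hx).le) (esg_rng (hx1 hx).le (hx2 hx').le).1 (mo_v x) covB12b covB51 hx hx'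
        Pool.Agent.Strip051.G.I69_7273.Tab.C.BA15.c_mm_213_b noCut_EA noExt_EA F h trivial)

theorem BA15_mm_303 {κ x : ℝ} (hκ : κ * h0 = ken x) (hx : ((740881858 : ℕ) : ℝ) / S ≤ x) (hx' : x ≤ (((740881858 : ℕ) : ℝ) + (40050571 : ℕ)) / S) :
    TriA PP.cur (VE (h0 * 0) 3 κ (h0 * x) (eng.v x) (h0 * (1 / 20)) (tnt (h0 * x) (1 / 5)) (tbl tK x) (tbl tL x) (tbl (smT h0⁻¹ tC) x)) 3 0 3 1 5 (-1) (-1) :=
  (sideB hx hx').bothA (thrB hx hx') (en_pos (hx1 hx).le) (Or.inr rfl) (Or.inr rfl) fun y y' F =>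
    bothA_cert (s1 := false) (s2 := false) rfl hκ (en_pos (hx1 hx).le) (esg_rng (hx1 hx).le (hx2 hx').le).1 (mo_v x) covB13 covB50 hx hx'
        Pool.Agent.Strip051.G.I69_7273.Tab.C.BA15.c_mm_303 noCut_EA noExt_EA F trivial trivial

theorem BA15_mm_313 {κ x : ℝ} (hκ : κ * h0 = ken x) (hx : ((740881858 : ℕ) : ℝ) / S ≤ x) (hx' : x ≤ (((740881858 : ℕ) : ℝ) + (40050571 : ℕ)) / S) :
    TriA PP.cur (VE (h0 * 0) 3 κ (h0 * x) (eng.v x) (h0 * (1 / 20)) (tnt (h0 * x) (1 / 5)) (tbl tK x) (tbl tL x) (tbl (smT h0⁻¹ tC) x)) 3 1 3 1 5 (-1) (-1) :=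
  (sideB hx hx').bothA (thrB hx hx') (en_pos (hx1 hx).le) (Or.inr rfl) (Or.inr rfl) fun y y' F =>
    bothA_cert (s1 := false) (s2 := false) rfl hκ (en_pos (hx1 hx).le) (esg_rng (hx1 hx).le (hx2 hx').le).1 (mo_v x) covB13 covB51 hx hx'
        Pool.Agent.Strip051.G.I69_7273.Tab.C.BA15.c_mm_313 noCut_EA noExt_EA F trivial trivial

theorem BA15 {κ x : ℝ} (hκ : κ * h0 = ken x) (hx : ((740881858 : ℕ) : ℝ) / S ≤ x) (hx' : x ≤ (((740881858 : ℕ) : ℝ) + (40050571 : ℕ)) / S) : AllTA PP.cur (VE (h0 * 0) 3 κ (h0 * x) (eng.v x) (h0 * (1 / 20)) (tnt (h0 * x) (1 / 5)) (tbl tK x) (tbl tL x) (tbl (smT h0⁻¹ tC) x)) 1 5 where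
  pp := all17 (Q := fun a b c => TriA PP.cur (VE (h0 * 0) 3 κ (h0 * x) (eng.v x) (h0 * (1 / 20)) (tnt (h0 * x) (1 / 5)) (tbl tK x) (tbl tL x) (tbl (smT h0⁻¹ tC) x)) a b c 1 5 1 1)
    (BA15_pp_001 hκ hx hx') (BA15_pp_011 hκ hx hx') (BA15_pp_012 hκ hx hx') (BA15_pp_022 hκ hx hx') (BA15_pp_023 hκ hx hx') (BA15_pp_033 hκ hx hx') (BA15_pp_101 hκ hx hx') (BA15_pp_102 hκ hx hx') (BA15_pp_112 hκ hx hx') (BA15_pp_113 hκ hx hx') (BA15_pp_123 hκ hx hx') (BA15_pp_133 hκ hx hx') (BA15_pp_202 hκ hx hx') (BA15_pp_203 hκ hx hx') (BA15_pp_213 hκ hx hx') (BA15_pp_303 hκ hx hx') (BA15_pp_313 hκ hx hx')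
  pm := all17 (Q := fun a b c => TriA PP.cur (VE (h0 * 0) 3 κ (h0 * x) (eng.v x) (h0 * (1 / 20)) (tnt (h0 * x) (1 / 5)) (tbl tK x) (tbl tL x) (tbl (smT h0⁻¹ tC) x)) a b c 1 5 1 (-1))
    (BA15_pm_001 hκ hx hx') (BA15_pm_011 hκ hx hx') (BA15_pm_012 hκ hx hx') (BA15_pm_022 hκ hx hx') (BA15_pm_023 hκ hx hx') (BA15_pm_033 hκ hx hx') (BA15_pm_101 hκ hx hx') (BA15_pm_102 hκ hx hx') (BA15_pm_112 hκ hx hx') (BA15_pm_113 hκ hx hx') (BA15_pm_123 hκ hx hx') (BA15_pm_133 hκ hx hx') (BA15_pm_202 hκ hx hx') (BA15_pm_203 hκ hx hx') (BA15_pm_213 hκ hx hx') (BA15_pm_303 hκ hx hx') (BA15_pm_313 hκ hx hx')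
  mm := all17 (Q := fun a b c => TriA PP.cur (VE (h0 * 0) 3 κ (h0 * x) (eng.v x) (h0 * (1 / 20)) (tnt (h0 * x) (1 / 5)) (tbl tK x) (tbl tL x) (tbl (smT h0⁻¹ tC) x)) a b c 1 5 (-1) (-1))
    (BA15_mm_001 hκ hx hx') (BA15_mm_011 hκ hx hx') (BA15_mm_012 hκ hx hx') (BA15_mm_022 hκ hx hx') (BA15_mm_023 hκ hx hx') (BA15_mm_033 hκ hx hx') (BA15_mm_101 hκ hx hx') (BA15_mm_102 hκ hx hx') (BA15_mm_112 hκ hx hx') (BA15_mm_113 hκ hx hx') (BA15_mm_123 hκ hx hx') (BA15_mm_133 hκ hx hx') (BA15_mm_202 hκ hx hx') (BA15_mm_203 hκ hx hx') (BA15_mm_213 hκ hx hx') (BA15_mm_303 hκ hx hx') (BA15_mm_313 hκ hx hx')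

theorem BA22_pp_001 {κ x : ℝ} (hκ : κ * h0 = ken x) (hx : ((740881858 : ℕ) : ℝ) / S ≤ x) (hx' : x ≤ (((740881858 : ℕ) : ℝ) + (40050571 : ℕ)) / S) :
    TriA PP.cur (VE (h0 * 0) 3 κ (h0 * x) (eng.v x) (h0 * (1 / 20)) (tnt (h0 * x) (1 / 5)) (tbl tK x) (tbl tL x) (tbl (smT h0⁻¹ tC) x)) 0 0 1 2 2 1 1 :=
  (sideB hx hx').bothA (thrB hx hx') (en_pos (hx1 hx).le) (Or.inl rfl) (Or.inl rfl) fun y y' F =>
    bothA_cert (s1 := true) (s2 := true) rfl hκ (en_pos (hx1 hx).le) (esg_rng (hx1 hx).le (hx2 hx').le).1 (mo_v x) covB20 covB20 hx hx'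
        Pool.Agent.Strip051.G.I69_7273.Tab.C.BA22.c_pp_001 noCut_EA noExt_EA F trivial trivial

theorem BA22_pp_011 {κ x : ℝ} (hκ : κ * h0 = ken x) (hx : ((740881858 : ℕ) : ℝ) / S ≤ x) (hx' : x ≤ (((740881858 : ℕ) : ℝ) + (40050571 : ℕ)) / S) :
    TriA PP.cur (VE (h0 * 0) 3 κ (h0 * x) (eng.v x) (h0 * (1 / 20)) (tnt (h0 * x) (1 / 5)) (tbl tK x) (tbl tL x) (tbl (smT h0⁻¹ tC) x)) 0 1 1 2 2 1 1 :=
  (sideB hx hx').bothA (thrB hx hx') (en_pos (hx1 hx).le) (Or.inl rfl) (Or.inl rfl) fun y y' F =>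
    bothA_cert (s1 := true) (s2 := true) rfl hκ (en_pos (hx1 hx).le) (esg_rng (hx1 hx).le (hx2 hx').le).1 (mo_v x) covB20 covB21 hx hx'
        Pool.Agent.Strip051.G.I69_7273.Tab.C.BA22.c_pp_011 noCut_EA noExt_EA F trivial trivial

theorem BA22_pp_012 {κ x : ℝ} (hκ : κ * h0 = ken x) (hx : ((740881858 : ℕ) : ℝ) / S ≤ x) (hx' : x ≤ (((740881858 : ℕ) : ℝ) + (40050571 : ℕ)) / S) :
    TriA PP.cur (VE (h0 * 0) 3 κ (h0 * x) (eng.v x) (h0 * (1 / 20)) (tnt (h0 * x) (1 / 5)) (tbl tK x) (tbl tL x) (tbl (smT h0⁻¹ tC) x)) 0 1 2 2 2 1 1 :=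
  (sideB hx hx').bothA (thrB hx hx') (en_pos (hx1 hx).le) (Or.inl rfl) (Or.inl rfl) fun y y' F =>
    bothA_cert (s1 := true) (s2 := true) rfl hκ (en_pos (hx1 hx).le) (esg_rng (hx1 hx).le (hx2 hx').le).1 (mo_v x) covB20 covB21 hx hx'
        Pool.Agent.Strip051.G.I69_7273.Tab.C.BA22.c_pp_012 noCut_EA noExt_EA F trivial trivial

theorem BA22_pp_022 {κ x : ℝ} (hκ : κ * h0 = ken x) (hx : ((740881858 : ℕ) : ℝ) / S ≤ x) (hx' : x ≤ (((740881858 : ℕ) : ℝ) + (40050571 : ℕ)) / S) :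
    TriA PP.cur (VE (h0 * 0) 3 κ (h0 * x) (eng.v x) (h0 * (1 / 20)) (tnt (h0 * x) (1 / 5)) (tbl tK x) (tbl tL x) (tbl (smT h0⁻¹ tC) x)) 0 2 2 2 2 1 1 :=
  (sideB hx hx').bothA (thrB hx hx') (en_pos (hx1 hx).le) (Or.inl rfl) (Or.inl rfl) fun y y' F =>
    (lt_or_ge (h0 * y') 1).elim
      (fun g => bothA_cert (s1 := true) (s2 := true) rfl hκ (en_pos (hx1 hx).le) (esg_rng (hx1 hx).le (hx2 hx').le).1 (mo_v x) covB20 covB22a hx hx'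
        Pool.Agent.Strip051.G.I69_7273.Tab.C.BA22.c_pp_022_a (cutEA_cons (Pool.Agent.Strip051.G.I69_7273.Tab.altB_A022L_22 hκ hx hx') cutEA_nil) noExt_EA F trivial g)
      (fun g => bothA_cert (s1 := true) (s2 := true) rfl hκ (en_pos (hx1 hx).le) (esg_rng (hx1 hx).le (hx2 hx').le).1 (mo_v x) covB20 covB22b hx hx'
        Pool.Agent.Strip051.G.I69_7273.Tab.C.BA22.c_pp_022_b (cutEA_cons (Pool.Agent.Strip051.G.I69_7273.Tab.altB_A022L_22 hκ hx hx') cutEA_nil) noExt_EA F trivial g)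

theorem BA22_pp_023 {κ x : ℝ} (hκ : κ * h0 = ken x) (hx : ((740881858 : ℕ) : ℝ) / S ≤ x) (hx' : x ≤ (((740881858 : ℕ) : ℝ) + (40050571 : ℕ)) / S) :
    TriA PP.cur (VE (h0 * 0) 3 κ (h0 * x) (eng.v x) (h0 * (1 / 20)) (tnt (h0 * x) (1 / 5)) (tbl tK x) (tbl tL x) (tbl (smT h0⁻¹ tC) x)) 0 2 3 2 2 1 1 :=
  (sideB hx hx').bothA (thrB hx hx') (en_pos (hx1 hx).le) (Or.inl rfl) (Or.inl rfl) fun y y' F =>
    (lt_or_ge (h0 * y') 1).elim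
      (fun g => bothA_cert (s1 := true) (s2 := true) rfl hκ (en_pos (hx1 hx).le) (esg_rng (hx1 hx).le (hx2 hx').le).1 (mo_v x) covB20 covB22a hx hx'
        Pool.Agent.Strip051.G.I69_7273.Tab.C.BA22.c_pp_023_a noCut_EA noExt_EA F trivial g)
      (fun g => bothA_cert (s1 := true) (s2 := true) rfl hκ (en_pos (hx1 hx).le) (esg_rng (hx1 hx).le (hx2 hx').le).1 (mo_v x) covB20 covB22b hx hx'
        Pool.Agent.Strip051.G.I69_7273.Tab.C.BA22.c_pp_023_b noCut_EA noExt_EA F trivial g)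

theorem BA22_pp_033 {κ x : ℝ} (hκ : κ * h0 = ken x) (hx : ((740881858 : ℕ) : ℝ) / S ≤ x) (hx' : x ≤ (((740881858 : ℕ) : ℝ) + (40050571 : ℕ)) / S) :
    TriA PP.cur (VE (h0 * 0) 3 κ (h0 * x) (eng.v x) (h0 * (1 / 20)) (tnt (h0 * x) (1 / 5)) (tbl tK x) (tbl tL x) (tbl (smT h0⁻¹ tC) x)) 0 3 3 2 2 1 1 :=
  (sideB hx hx').bothA (thrB hx hx') (en_pos (hx1 hx).le) (Or.inl rfl) (Or.inl rfl) fun y y' F =>
    bothA_cert (s1 := true) (s2 := true) rfl hκ (en_pos (hx1 hx).le) (esg_rng (hx1 hx).le (hx2 hx').le).1 (mo_v x) covB20 covB23 hx hx'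
        Pool.Agent.Strip051.G.I69_7273.Tab.C.BA22.c_pp_033 noCut_EA noExt_EA F trivial trivial

theorem BA22_pp_101 {κ x : ℝ} (hκ : κ * h0 = ken x) (hx : ((740881858 : ℕ) : ℝ) / S ≤ x) (hx' : x ≤ (((740881858 : ℕ) : ℝ) + (40050571 : ℕ)) / S) :
    TriA PP.cur (VE (h0 * 0) 3 κ (h0 * x) (eng.v x) (h0 * (1 / 20)) (tnt (h0 * x) (1 / 5)) (tbl tK x) (tbl tL x) (tbl (smT h0⁻¹ tC) x)) 1 0 1 2 2 1 1 :=
  (sideB hx hx').bothA (thrB hx hx') (en_pos (hx1 hx).le) (Or.inl rfl) (Or.inl rfl) fun y y' F =>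
    bothA_cert (s1 := true) (s2 := true) rfl hκ (en_pos (hx1 hx).le) (esg_rng (hx1 hx).le (hx2 hx').le).1 (mo_v x) covB21 covB20 hx hx'
        Pool.Agent.Strip051.G.I69_7273.Tab.C.BA22.c_pp_101 noCut_EA noExt_EA F trivial trivial

theorem BA22_pp_102 {κ x : ℝ} (hκ : κ * h0 = ken x) (hx : ((740881858 : ℕ) : ℝ) / S ≤ x) (hx' : x ≤ (((740881858 : ℕ) : ℝ) + (40050571 : ℕ)) / S) :
    TriA PP.cur (VE (h0 * 0) 3 κ (h0 * x) (eng.v x) (h0 * (1 / 20)) (tnt (h0 * x) (1 / 5)) (tbl tK x) (tbl tL x) (tbl (smT h0⁻¹ tC) x)) 1 0 2 2 2 1 1 :=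
  (sideB hx hx').bothA (thrB hx hx') (en_pos (hx1 hx).le) (Or.inl rfl) (Or.inl rfl) fun y y' F =>
    bothA_cert (s1 := true) (s2 := true) rfl hκ (en_pos (hx1 hx).le) (esg_rng (hx1 hx).le (hx2 hx').le).1 (mo_v x) covB21 covB20 hx hx'
        Pool.Agent.Strip051.G.I69_7273.Tab.C.BA22.c_pp_102 noCut_EA noExt_EA F trivial trivial

theorem BA22_pp_112 {κ x : ℝ} (hκ : κ * h0 = ken x) (hx : ((740881858 : ℕ) : ℝ) / S ≤ x) (hx' : x ≤ (((740881858 : ℕ) : ℝ) + (40050571 : ℕ)) / S) :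
    TriA PP.cur (VE (h0 * 0) 3 κ (h0 * x) (eng.v x) (h0 * (1 / 20)) (tnt (h0 * x) (1 / 5)) (tbl tK x) (tbl tL x) (tbl (smT h0⁻¹ tC) x)) 1 1 2 2 2 1 1 :=
  (sideB hx hx').bothA (thrB hx hx') (en_pos (hx1 hx).le) (Or.inl rfl) (Or.inl rfl) fun y y' F =>
    bothA_cert (s1 := true) (s2 := true) rfl hκ (en_pos (hx1 hx).le) (esg_rng (hx1 hx).le (hx2 hx').le).1 (mo_v x) covB21 covB21 hx hx'
        Pool.Agent.Strip051.G.I69_7273.Tab.C.BA22.c_pp_112 noCut_EA noExt_EA F trivial trivial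

theorem BA22_pp_113 {κ x : ℝ} (hκ : κ * h0 = ken x) (hx : ((740881858 : ℕ) : ℝ) / S ≤ x) (hx' : x ≤ (((740881858 : ℕ) : ℝ) + (40050571 : ℕ)) / S) :
    TriA PP.cur (VE (h0 * 0) 3 κ (h0 * x) (eng.v x) (h0 * (1 / 20)) (tnt (h0 * x) (1 / 5)) (tbl tK x) (tbl tL x) (tbl (smT h0⁻¹ tC) x)) 1 1 3 2 2 1 1 :=
  (sideB hx hx').bothA (thrB hx hx') (en_pos (hx1 hx).le) (Or.inl rfl) (Or.inl rfl) fun y y' F =>
    bothA_cert (s1 := true) (s2 := true) rfl hκ (en_pos (hx1 hx).le) (esg_rng (hx1 hx).le (hx2 hx').le).1 (mo_v x) covB21 covB21 hx hx'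
        Pool.Agent.Strip051.G.I69_7273.Tab.C.BA22.c_pp_113 noCut_EA noExt_EA F trivial trivial

theorem BA22_pp_123 {κ x : ℝ} (hκ : κ * h0 = ken x) (hx : ((740881858 : ℕ) : ℝ) / S ≤ x) (hx' : x ≤ (((740881858 : ℕ) : ℝ) + (40050571 : ℕ)) / S) :
    TriA PP.cur (VE (h0 * 0) 3 κ (h0 * x) (eng.v x) (h0 * (1 / 20)) (tnt (h0 * x) (1 / 5)) (tbl tK x) (tbl tL x) (tbl (smT h0⁻¹ tC) x)) 1 2 3 2 2 1 1 :=
  (sideB hx hx').bothA (thrB hx hx') (en_pos (hx1 hx).le) (Or.inl rfl) (Or.inl rfl) fun y y' F =>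
    (lt_or_ge (h0 * y') 1).elim
      (fun g => bothA_cert (s1 := true) (s2 := true) rfl hκ (en_pos (hx1 hx).le) (esg_rng (hx1 hx).le (hx2 hx').le).1 (mo_v x) covB21 covB22a hx hx'
        Pool.Agent.Strip051.G.I69_7273.Tab.C.BA22.c_pp_123_a noCut_EA noExt_EA F trivial g)
      (fun g => bothA_cert (s1 := true) (s2 := true) rfl hκ (en_pos (hx1 hx).le) (esg_rng (hx1 hx).le (hx2 hx').le).1 (mo_v x) covB21 covB22b hx hx'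
        Pool.Agent.Strip051.G.I69_7273.Tab.C.BA22.c_pp_123_b noCut_EA noExt_EA F trivial g)

theorem BA22_pp_133 {κ x : ℝ} (hκ : κ * h0 = ken x) (hx : ((740881858 : ℕ) : ℝ) / S ≤ x) (hx' : x ≤ (((740881858 : ℕ) : ℝ) + (40050571 : ℕ)) / S) :
    TriA PP.cur (VE (h0 * 0) 3 κ (h0 * x) (eng.v x) (h0 * (1 / 20)) (tnt (h0 * x) (1 / 5)) (tbl tK x) (tbl tL x) (tbl (smT h0⁻¹ tC) x)) 1 3 3 2 2 1 1 :=
  (sideB hx hx').bothA (thrB hx hx') (en_pos (hx1 hx).le) (Or.inl rfl) (Or.inl rfl) fun y y' F =>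
    bothA_cert (s1 := true) (s2 := true) rfl hκ (en_pos (hx1 hx).le) (esg_rng (hx1 hx).le (hx2 hx').le).1 (mo_v x) covB21 covB23 hx hx'
        Pool.Agent.Strip051.G.I69_7273.Tab.C.BA22.c_pp_133 noCut_EA noExt_EA F trivial trivial

theorem BA22_pp_202 {κ x : ℝ} (hκ : κ * h0 = ken x) (hx : ((740881858 : ℕ) : ℝ) / S ≤ x) (hx' : x ≤ (((740881858 : ℕ) : ℝ) + (40050571 : ℕ)) / S) :
    TriA PP.cur (VE (h0 * 0) 3 κ (h0 * x) (eng.v x) (h0 * (1 / 20)) (tnt (h0 * x) (1 / 5)) (tbl tK x) (tbl tL x) (tbl (smT h0⁻¹ tC) x)) 2 0 2 2 2 1 1 :=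
  (sideB hx hx').bothA (thrB hx hx') (en_pos (hx1 hx).le) (Or.inl rfl) (Or.inl rfl) fun y y' F =>
    (lt_or_ge (h0 * y) 1).elim
      (fun h => bothA_cert (s1 := true) (s2 := true) rfl hκ (en_pos (hx1 hx).le) (esg_rng (hx1 hx).le (hx2 hx').le).1 (mo_v x) covB22a covB20 hx hx'
        Pool.Agent.Strip051.G.I69_7273.Tab.C.BA22.c_pp_202_a noCut_EA noExt_EA F h trivial)
      (fun h => bothA_cert (s1 := true) (s2 := true) rfl hκ (en_pos (hx1 hx).le) (esg_rng (hx1 hx).le (hx2 hx').le).1 (mo_v x) covB22b covB20 hx hx'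
        Pool.Agent.Strip051.G.I69_7273.Tab.C.BA22.c_pp_202_b noCut_EA noExt_EA F h trivial)

theorem BA22_pp_203 {κ x : ℝ} (hκ : κ * h0 = ken x) (hx : ((740881858 : ℕ) : ℝ) / S ≤ x) (hx' : x ≤ (((740881858 : ℕ) : ℝ) + (40050571 : ℕ)) / S) :
    TriA PP.cur (VE (h0 * 0) 3 κ (h0 * x) (eng.v x) (h0 * (1 / 20)) (tnt (h0 * x) (1 / 5)) (tbl tK x) (tbl tL x) (tbl (smT h0⁻¹ tC) x)) 2 0 3 2 2 1 1 :=
  (sideB hx hx').bothA (thrB hx hx') (en_pos (hx1 hx).le) (Or.inl rfl) (Or.inl rfl) fun y y' F =>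
    (lt_or_ge (h0 * y) 1).elim
      (fun h => bothA_cert (s1 := true) (s2 := true) rfl hκ (en_pos (hx1 hx).le) (esg_rng (hx1 hx).le (hx2 hx').le).1 (mo_v x) covB22a covB20 hx hx'
        Pool.Agent.Strip051.G.I69_7273.Tab.C.BA22.c_pp_203_a noCut_EA noExt_EA F h trivial)
      (fun h => bothA_cert (s1 := true) (s2 := true) rfl hκ (en_pos (hx1 hx).le) (esg_rng (hx1 hx).le (hx2 hx').le).1 (mo_v x) covB22b covB20 hx hx'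
        Pool.Agent.Strip051.G.I69_7273.Tab.C.BA22.c_pp_203_b noCut_EA noExt_EA F h trivial)

theorem BA22_pp_213 {κ x : ℝ} (hκ : κ * h0 = ken x) (hx : ((740881858 : ℕ) : ℝ) / S ≤ x) (hx' : x ≤ (((740881858 : ℕ) : ℝ) + (40050571 : ℕ)) / S) :
    TriA PP.cur (VE (h0 * 0) 3 κ (h0 * x) (eng.v x) (h0 * (1 / 20)) (tnt (h0 * x) (1 / 5)) (tbl tK x) (tbl tL x) (tbl (smT h0⁻¹ tC) x)) 2 1 3 2 2 1 1 :=
  (sideB hx hx').bothA (thrB hx hx') (en_pos (hx1 hx).le) (Or.inl rfl) (Or.inl rfl) fun y y' F =>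
    (lt_or_ge (h0 * y) 1).elim
      (fun h => bothA_cert (s1 := true) (s2 := true) rfl hκ (en_pos (hx1 hx).le) (esg_rng (hx1 hx).le (hx2 hx').le).1 (mo_v x) covB22a covB21 hx hx'
        Pool.Agent.Strip051.G.I69_7273.Tab.C.BA22.c_pp_213_a noCut_EA noExt_EA F h trivial)
      (fun h => bothA_cert (s1 := true) (s2 := true) rfl hκ (en_pos (hx1 hx).le) (esg_rng (hx1 hx).le (hx2 hx').le).1 (mo_v x) covB22b covB21 hx hx'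
        Pool.Agent.Strip051.G.I69_7273.Tab.C.BA22.c_pp_213_b noCut_EA noExt_EA F h trivial)

theorem BA22_pp_303 {κ x : ℝ} (hκ : κ * h0 = ken x) (hx : ((740881858 : ℕ) : ℝ) / S ≤ x) (hx' : x ≤ (((740881858 : ℕ) : ℝ) + (40050571 : ℕ)) / S) :
    TriA PP.cur (VE (h0 * 0) 3 κ (h0 * x) (eng.v x) (h0 * (1 / 20)) (tnt (h0 * x) (1 / 5)) (tbl tK x) (tbl tL x) (tbl (smT h0⁻¹ tC) x)) 3 0 3 2 2 1 1 :=
  (sideB hx hx').bothA (thrB hx hx') (en_pos (hx1 hx).le) (Or.inl rfl) (Or.inl rfl) fun y y' F =>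
    bothA_cert (s1 := true) (s2 := true) rfl hκ (en_pos (hx1 hx).le) (esg_rng (hx1 hx).le (hx2 hx').le).1 (mo_v x) covB23 covB20 hx hx'
        Pool.Agent.Strip051.G.I69_7273.Tab.C.BA22.c_pp_303 noCut_EA noExt_EA F trivial trivial

theorem BA22_pp_313 {κ x : ℝ} (hκ : κ * h0 = ken x) (hx : ((740881858 : ℕ) : ℝ) / S ≤ x) (hx' : x ≤ (((740881858 : ℕ) : ℝ) + (40050571 : ℕ)) / S) :
    TriA PP.cur (VE (h0 * 0) 3 κ (h0 * x) (eng.v x) (h0 * (1 / 20)) (tnt (h0 * x) (1 / 5)) (tbl tK x) (tbl tL x) (tbl (smT h0⁻¹ tC) x)) 3 1 3 2 2 1 1 :=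
  (sideB hx hx').bothA (thrB hx hx') (en_pos (hx1 hx).le) (Or.inl rfl) (Or.inl rfl) fun y y' F =>
    bothA_cert (s1 := true) (s2 := true) rfl hκ (en_pos (hx1 hx).le) (esg_rng (hx1 hx).le (hx2 hx').le).1 (mo_v x) covB23 covB21 hx hx'
        Pool.Agent.Strip051.G.I69_7273.Tab.C.BA22.c_pp_313 noCut_EA noExt_EA F trivial trivial

theorem BA22_pm_001 {κ x : ℝ} (hκ : κ * h0 = ken x) (hx : ((740881858 : ℕ) : ℝ) / S ≤ x) (hx' : x ≤ (((740881858 : ℕ) : ℝ) + (40050571 : ℕ)) / S) :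
    TriA PP.cur (VE (h0 * 0) 3 κ (h0 * x) (eng.v x) (h0 * (1 / 20)) (tnt (h0 * x) (1 / 5)) (tbl tK x) (tbl tL x) (tbl (smT h0⁻¹ tC) x)) 0 0 1 2 2 1 (-1) :=
  (sideB hx hx').bothA (thrB hx hx') (en_pos (hx1 hx).le) (Or.inl rfl) (Or.inr rfl) fun y y' F =>
    bothA_cert (s1 := true) (s2 := false) rfl hκ (en_pos (hx1 hx).le) (esg_rng (hx1 hx).le (hx2 hx').le).1 (mo_v x) covB20 covB20 hx hx'
        Pool.Agent.Strip051.G.I69_7273.Tab.C.BA22.c_pm_001 noCut_EA noExt_EA F trivial trivial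

theorem BA22_pm_011 {κ x : ℝ} (hκ : κ * h0 = ken x) (hx : ((740881858 : ℕ) : ℝ) / S ≤ x) (hx' : x ≤ (((740881858 : ℕ) : ℝ) + (40050571 : ℕ)) / S) :
    TriA PP.cur (VE (h0 * 0) 3 κ (h0 * x) (eng.v x) (h0 * (1 / 20)) (tnt (h0 * x) (1 / 5)) (tbl tK x) (tbl tL x) (tbl (smT h0⁻¹ tC) x)) 0 1 1 2 2 1 (-1) :=
  (sideB hx hx').bothA (thrB hx hx') (en_pos (hx1 hx).le) (Or.inl rfl) (Or.inr rfl) fun y y' F =>
    bothA_cert (s1 := true) (s2 := false) rfl hκ (en_pos (hx1 hx).le) (esg_rng (hx1 hx).le (hx2 hx').le).1 (mo_v x) covB20 covB21 hx hx'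
        Pool.Agent.Strip051.G.I69_7273.Tab.C.BA22.c_pm_011 noCut_EA noExt_EA F trivial trivial

theorem BA22_pm_012 {κ x : ℝ} (hκ : κ * h0 = ken x) (hx : ((740881858 : ℕ) : ℝ) / S ≤ x) (hx' : x ≤ (((740881858 : ℕ) : ℝ) + (40050571 : ℕ)) / S) :
    TriA PP.cur (VE (h0 * 0) 3 κ (h0 * x) (eng.v x) (h0 * (1 / 20)) (tnt (h0 * x) (1 / 5)) (tbl tK x) (tbl tL x) (tbl (smT h0⁻¹ tC) x)) 0 1 2 2 2 1 (-1) :=
  (sideB hx hx').bothA (thrB hx hx') (en_pos (hx1 hx).le) (Or.inl rfl) (Or.inr rfl) fun y y' F =>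
    bothA_cert (s1 := true) (s2 := false) rfl hκ (en_pos (hx1 hx).le) (esg_rng (hx1 hx).le (hx2 hx').le).1 (mo_v x) covB20 covB21 hx hx'
        Pool.Agent.Strip051.G.I69_7273.Tab.C.BA22.c_pm_012 noCut_EA noExt_EA F trivial trivial

theorem BA22_pm_022 {κ x : ℝ} (hκ : κ * h0 = ken x) (hx : ((740881858 : ℕ) : ℝ) / S ≤ x) (hx' : x ≤ (((740881858 : ℕ) : ℝ) + (40050571 : ℕ)) / S) :
    TriA PP.cur (VE (h0 * 0) 3 κ (h0 * x) (eng.v x) (h0 * (1 / 20)) (tnt (h0 * x) (1 / 5)) (tbl tK x) (tbl tL x) (tbl (smT h0⁻¹ tC) x)) 0 2 2 2 2 1 (-1) :=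
  (sideB hx hx').bothA (thrB hx hx') (en_pos (hx1 hx).le) (Or.inl rfl) (Or.inr rfl) fun y y' F =>
    (lt_or_ge (h0 * y') 1).elim
      (fun g => bothA_cert (s1 := true) (s2 := false) rfl hκ (en_pos (hx1 hx).le) (esg_rng (hx1 hx).le (hx2 hx').le).1 (mo_v x) covB20 covB22a hx hx'
        Pool.Agent.Strip051.G.I69_7273.Tab.C.BA22.c_pm_022_a (cutEA_cons (Pool.Agent.Strip051.G.I69_7273.Tab.altB_A022E_22 hκ hx hx') cutEA_nil) noExt_EA F trivial g)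
      (fun g => bothA_cert (s1 := true) (s2 := false) rfl hκ (en_pos (hx1 hx).le) (esg_rng (hx1 hx).le (hx2 hx').le).1 (mo_v x) covB20 covB22b hx hx'
        Pool.Agent.Strip051.G.I69_7273.Tab.C.BA22.c_pm_022_b (cutEA_cons (Pool.Agent.Strip051.G.I69_7273.Tab.altB_A022E_22 hκ hx hx') cutEA_nil) noExt_EA F trivial g)

theorem BA22_pm_023 {κ x : ℝ} (hκ : κ * h0 = ken x) (hx : ((740881858 : ℕ) : ℝ) / S ≤ x) (hx' : x ≤ (((740881858 : ℕ) : ℝ) + (40050571 : ℕ)) / S) :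
    TriA PP.cur (VE (h0 * 0) 3 κ (h0 * x) (eng.v x) (h0 * (1 / 20)) (tnt (h0 * x) (1 / 5)) (tbl tK x) (tbl tL x) (tbl (smT h0⁻¹ tC) x)) 0 2 3 2 2 1 (-1) :=
  (sideB hx hx').bothA (thrB hx hx') (en_pos (hx1 hx).le) (Or.inl rfl) (Or.inr rfl) fun y y' F =>
    (lt_or_ge (h0 * y') 1).elim
      (fun g => bothA_cert (s1 := true) (s2 := false) rfl hκ (en_pos (hx1 hx).le) (esg_rng (hx1 hx).le (hx2 hx').le).1 (mo_v x) covB20 covB22a hx hx'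
        Pool.Agent.Strip051.G.I69_7273.Tab.C.BA22.c_pm_023_a noCut_EA noExt_EA F trivial g)
      (fun g => bothA_cert (s1 := true) (s2 := false) rfl hκ (en_pos (hx1 hx).le) (esg_rng (hx1 hx).le (hx2 hx').le).1 (mo_v x) covB20 covB22b hx hx'
        Pool.Agent.Strip051.G.I69_7273.Tab.C.BA22.c_pm_023_b noCut_EA noExt_EA F trivial g)

theorem BA22_pm_033 {κ x : ℝ} (hκ : κ * h0 = ken x) (hx : ((740881858 : ℕ) : ℝ) / S ≤ x) (hx' : x ≤ (((740881858 : ℕ) : ℝ) + (40050571 : ℕ)) / S) :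
    TriA PP.cur (VE (h0 * 0) 3 κ (h0 * x) (eng.v x) (h0 * (1 / 20)) (tnt (h0 * x) (1 / 5)) (tbl tK x) (tbl tL x) (tbl (smT h0⁻¹ tC) x)) 0 3 3 2 2 1 (-1) :=
  (sideB hx hx').bothA (thrB hx hx') (en_pos (hx1 hx).le) (Or.inl rfl) (Or.inr rfl) fun y y' F =>
    bothA_cert (s1 := true) (s2 := false) rfl hκ (en_pos (hx1 hx).le) (esg_rng (hx1 hx).le (hx2 hx').le).1 (mo_v x) covB20 covB23 hx hx'
        Pool.Agent.Strip051.G.I69_7273.Tab.C.BA22.c_pm_033 noCut_EA noExt_EA F trivial trivial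

theorem BA22_pm_101 {κ x : ℝ} (hκ : κ * h0 = ken x) (hx : ((740881858 : ℕ) : ℝ) / S ≤ x) (hx' : x ≤ (((740881858 : ℕ) : ℝ) + (40050571 : ℕ)) / S) :
    TriA PP.cur (VE (h0 * 0) 3 κ (h0 * x) (eng.v x) (h0 * (1 / 20)) (tnt (h0 * x) (1 / 5)) (tbl tK x) (tbl tL x) (tbl (smT h0⁻¹ tC) x)) 1 0 1 2 2 1 (-1) :=
  (sideB hx hx').bothA (thrB hx hx') (en_pos (hx1 hx).le) (Or.inl rfl) (Or.inr rfl) fun y y' F =>
    bothA_cert (s1 := true) (s2 := false) rfl hκ (en_pos (hx1 hx).le) (esg_rng (hx1 hx).le (hx2 hx').le).1 (mo_v x) covB21 covB20 hx hx'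
        Pool.Agent.Strip051.G.I69_7273.Tab.C.BA22.c_pm_101 noCut_EA noExt_EA F trivial trivial

theorem BA22_pm_102 {κ x : ℝ} (hκ : κ * h0 = ken x) (hx : ((740881858 : ℕ) : ℝ) / S ≤ x) (hx' : x ≤ (((740881858 : ℕ) : ℝ) + (40050571 : ℕ)) / S) :
    TriA PP.cur (VE (h0 * 0) 3 κ (h0 * x) (eng.v x) (h0 * (1 / 20)) (tnt (h0 * x) (1 / 5)) (tbl tK x) (tbl tL x) (tbl (smT h0⁻¹ tC) x)) 1 0 2 2 2 1 (-1) :=
  (sideB hx hx').bothA (thrB hx hx') (en_pos (hx1 hx).le) (Or.inl rfl) (Or.inr rfl) fun y y' F =>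
    bothA_cert (s1 := true) (s2 := false) rfl hκ (en_pos (hx1 hx).le) (esg_rng (hx1 hx).le (hx2 hx').le).1 (mo_v x) covB21 covB20 hx hx'
        Pool.Agent.Strip051.G.I69_7273.Tab.C.BA22.c_pm_102 noCut_EA noExt_EA F trivial trivial

theorem BA22_pm_112 {κ x : ℝ} (hκ : κ * h0 = ken x) (hx : ((740881858 : ℕ) : ℝ) / S ≤ x) (hx' : x ≤ (((740881858 : ℕ) : ℝ) + (40050571 : ℕ)) / S) :
    TriA PP.cur (VE (h0 * 0) 3 κ (h0 * x) (eng.v x) (h0 * (1 / 20)) (tnt (h0 * x) (1 / 5)) (tbl tK x) (tbl tL x) (tbl (smT h0⁻¹ tC) x)) 1 1 2 2 2 1 (-1) :=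
  (sideB hx hx').bothA (thrB hx hx') (en_pos (hx1 hx).le) (Or.inl rfl) (Or.inr rfl) fun y y' F =>
    bothA_cert (s1 := true) (s2 := false) rfl hκ (en_pos (hx1 hx).le) (esg_rng (hx1 hx).le (hx2 hx').le).1 (mo_v x) covB21 covB21 hx hx'
        Pool.Agent.Strip051.G.I69_7273.Tab.C.BA22.c_pm_112 noCut_EA noExt_EA F trivial trivial

theorem BA22_pm_113 {κ x : ℝ} (hκ : κ * h0 = ken x) (hx : ((740881858 : ℕ) : ℝ) / S ≤ x) (hx' : x ≤ (((740881858 : ℕ) : ℝ) + (40050571 : ℕ)) / S) :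
    TriA PP.cur (VE (h0 * 0) 3 κ (h0 * x) (eng.v x) (h0 * (1 / 20)) (tnt (h0 * x) (1 / 5)) (tbl tK x) (tbl tL x) (tbl (smT h0⁻¹ tC) x)) 1 1 3 2 2 1 (-1) :=
  (sideB hx hx').bothA (thrB hx hx') (en_pos (hx1 hx).le) (Or.inl rfl) (Or.inr rfl) fun y y' F =>
    bothA_cert (s1 := true) (s2 := false) rfl hκ (en_pos (hx1 hx).le) (esg_rng (hx1 hx).le (hx2 hx').le).1 (mo_v x) covB21 covB21 hx hx'
        Pool.Agent.Strip051.G.I69_7273.Tab.C.BA22.c_pm_113 noCut_EA noExt_EA F trivial trivial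

theorem BA22_pm_123 {κ x : ℝ} (hκ : κ * h0 = ken x) (hx : ((740881858 : ℕ) : ℝ) / S ≤ x) (hx' : x ≤ (((740881858 : ℕ) : ℝ) + (40050571 : ℕ)) / S) :
    TriA PP.cur (VE (h0 * 0) 3 κ (h0 * x) (eng.v x) (h0 * (1 / 20)) (tnt (h0 * x) (1 / 5)) (tbl tK x) (tbl tL x) (tbl (smT h0⁻¹ tC) x)) 1 2 3 2 2 1 (-1) :=
  (sideB hx hx').bothA (thrB hx hx') (en_pos (hx1 hx).le) (Or.inl rfl) (Or.inr rfl) fun y y' F =>
    (lt_or_ge (h0 * y') 1).elim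
      (fun g => bothA_cert (s1 := true) (s2 := false) rfl hκ (en_pos (hx1 hx).le) (esg_rng (hx1 hx).le (hx2 hx').le).1 (mo_v x) covB21 covB22a hx hx'
        Pool.Agent.Strip051.G.I69_7273.Tab.C.BA22.c_pm_123_a noCut_EA noExt_EA F trivial g)
      (fun g => bothA_cert (s1 := true) (s2 := false) rfl hκ (en_pos (hx1 hx).le) (esg_rng (hx1 hx).le (hx2 hx').le).1 (mo_v x) covB21 covB22b hx hx'
        Pool.Agent.Strip051.G.I69_7273.Tab.C.BA22.c_pm_123_b noCut_EA noExt_EA F trivial g)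

theorem BA22_pm_133 {κ x : ℝ} (hκ : κ * h0 = ken x) (hx : ((740881858 : ℕ) : ℝ) / S ≤ x) (hx' : x ≤ (((740881858 : ℕ) : ℝ) + (40050571 : ℕ)) / S) :
    TriA PP.cur (VE (h0 * 0) 3 κ (h0 * x) (eng.v x) (h0 * (1 / 20)) (tnt (h0 * x) (1 / 5)) (tbl tK x) (tbl tL x) (tbl (smT h0⁻¹ tC) x)) 1 3 3 2 2 1 (-1) :=
  (sideB hx hx').bothA (thrB hx hx') (en_pos (hx1 hx).le) (Or.inl rfl) (Or.inr rfl) fun y y' F =>
    bothA_cert (s1 := true) (s2 := false) rfl hκ (en_pos (hx1 hx).le) (esg_rng (hx1 hx).le (hx2 hx').le).1 (mo_v x) covB21 covB23 hx hx'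
        Pool.Agent.Strip051.G.I69_7273.Tab.C.BA22.c_pm_133 noCut_EA noExt_EA F trivial trivial

theorem BA22_pm_202 {κ x : ℝ} (hκ : κ * h0 = ken x) (hx : ((740881858 : ℕ) : ℝ) / S ≤ x) (hx' : x ≤ (((740881858 : ℕ) : ℝ) + (40050571 : ℕ)) / S) :
    TriA PP.cur (VE (h0 * 0) 3 κ (h0 * x) (eng.v x) (h0 * (1 / 20)) (tnt (h0 * x) (1 / 5)) (tbl tK x) (tbl tL x) (tbl (smT h0⁻¹ tC) x)) 2 0 2 2 2 1 (-1) :=
  (sideB hx hx').bothA (thrB hx hx') (en_pos (hx1 hx).le) (Or.inl rfl) (Or.inr rfl) fun y y' F =>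
    (lt_or_ge (h0 * y) 1).elim
      (fun h => bothA_cert (s1 := true) (s2 := false) rfl hκ (en_pos (hx1 hx).le) (esg_rng (hx1 hx).le (hx2 hx').le).1 (mo_v x) covB22a covB20 hx hx'
        Pool.Agent.Strip051.G.I69_7273.Tab.C.BA22.c_pm_202_a (cutEA_cons (Pool.Agent.Strip051.G.I69_7273.Tab.altB_A202E_22 hκ hx hx') cutEA_nil) noExt_EA F h trivial)
      (fun h => bothA_cert (s1 := true) (s2 := false) rfl hκ (en_pos (hx1 hx).le) (esg_rng (hx1 hx).le (hx2 hx').le).1 (mo_v x) covB22b covB20 hx hx'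
        Pool.Agent.Strip051.G.I69_7273.Tab.C.BA22.c_pm_202_b (cutEA_cons (Pool.Agent.Strip051.G.I69_7273.Tab.altB_A202E_22 hκ hx hx') cutEA_nil) noExt_EA F h trivial)

theorem BA22_pm_203 {κ x : ℝ} (hκ : κ * h0 = ken x) (hx : ((740881858 : ℕ) : ℝ) / S ≤ x) (hx' : x ≤ (((740881858 : ℕ) : ℝ) + (40050571 : ℕ)) / S) :
    TriA PP.cur (VE (h0 * 0) 3 κ (h0 * x) (eng.v x) (h0 * (1 / 20)) (tnt (h0 * x) (1 / 5)) (tbl tK x) (tbl tL x) (tbl (smT h0⁻¹ tC) x)) 2 0 3 2 2 1 (-1) :=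
  (sideB hx hx').bothA (thrB hx hx') (en_pos (hx1 hx).le) (Or.inl rfl) (Or.inr rfl) fun y y' F =>
    (lt_or_ge (h0 * y) 1).elim
      (fun h => bothA_cert (s1 := true) (s2 := false) rfl hκ (en_pos (hx1 hx).le) (esg_rng (hx1 hx).le (hx2 hx').le).1 (mo_v x) covB22a covB20 hx hx'
        Pool.Agent.Strip051.G.I69_7273.Tab.C.BA22.c_pm_203_a noCut_EA noExt_EA F h trivial)
      (fun h => bothA_cert (s1 := true) (s2 := false) rfl hκ (en_pos (hx1 hx).le) (esg_rng (hx1 hx).le (hx2 hx').le).1 (mo_v x) covB22b covB20 hx hx'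
        Pool.Agent.Strip051.G.I69_7273.Tab.C.BA22.c_pm_203_b noCut_EA noExt_EA F h trivial)

theorem BA22_pm_213 {κ x : ℝ} (hκ : κ * h0 = ken x) (hx : ((740881858 : ℕ) : ℝ) / S ≤ x) (hx' : x ≤ (((740881858 : ℕ) : ℝ) + (40050571 : ℕ)) / S) :
    TriA PP.cur (VE (h0 * 0) 3 κ (h0 * x) (eng.v x) (h0 * (1 / 20)) (tnt (h0 * x) (1 / 5)) (tbl tK x) (tbl tL x) (tbl (smT h0⁻¹ tC) x)) 2 1 3 2 2 1 (-1) :=
  (sideB hx hx').bothA (thrB hx hx') (en_pos (hx1 hx).le) (Or.inl rfl) (Or.inr rfl) fun y y' F =>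
    (lt_or_ge (h0 * y) 1).elim
      (fun h => bothA_cert (s1 := true) (s2 := false) rfl hκ (en_pos (hx1 hx).le) (esg_rng (hx1 hx).le (hx2 hx').le).1 (mo_v x) covB22a covB21 hx hx'
        Pool.Agent.Strip051.G.I69_7273.Tab.C.BA22.c_pm_213_a noCut_EA noExt_EA F h trivial)
      (fun h => bothA_cert (s1 := true) (s2 := false) rfl hκ (en_pos (hx1 hx).le) (esg_rng (hx1 hx).le (hx2 hx').le).1 (mo_v x) covB22b covB21 hx hx'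
        Pool.Agent.Strip051.G.I69_7273.Tab.C.BA22.c_pm_213_b noCut_EA noExt_EA F h trivial)

theorem BA22_pm_303 {κ x : ℝ} (hκ : κ * h0 = ken x) (hx : ((740881858 : ℕ) : ℝ) / S ≤ x) (hx' : x ≤ (((740881858 : ℕ) : ℝ) + (40050571 : ℕ)) / S) :
    TriA PP.cur (VE (h0 * 0) 3 κ (h0 * x) (eng.v x) (h0 * (1 / 20)) (tnt (h0 * x) (1 / 5)) (tbl tK x) (tbl tL x) (tbl (smT h0⁻¹ tC) x)) 3 0 3 2 2 1 (-1) :=
  (sideB hx hx').bothA (thrB hx hx') (en_pos (hx1 hx).le) (Or.inl rfl) (Or.inr rfl) fun y y' F =>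
    bothA_cert (s1 := true) (s2 := false) rfl hκ (en_pos (hx1 hx).le) (esg_rng (hx1 hx).le (hx2 hx').le).1 (mo_v x) covB23 covB20 hx hx'
        Pool.Agent.Strip051.G.I69_7273.Tab.C.BA22.c_pm_303 noCut_EA noExt_EA F trivial trivial

theorem BA22_pm_313 {κ x : ℝ} (hκ : κ * h0 = ken x) (hx : ((740881858 : ℕ) : ℝ) / S ≤ x) (hx' : x ≤ (((740881858 : ℕ) : ℝ) + (40050571 : ℕ)) / S) :
    TriA PP.cur (VE (h0 * 0) 3 κ (h0 * x) (eng.v x) (h0 * (1 / 20)) (tnt (h0 * x) (1 / 5)) (tbl tK x) (tbl tL x) (tbl (smT h0⁻¹ tC) x)) 3 1 3 2 2 1 (-1) :=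
  (sideB hx hx').bothA (thrB hx hx') (en_pos (hx1 hx).le) (Or.inl rfl) (Or.inr rfl) fun y y' F =>
    bothA_cert (s1 := true) (s2 := false) rfl hκ (en_pos (hx1 hx).le) (esg_rng (hx1 hx).le (hx2 hx').le).1 (mo_v x) covB23 covB21 hx hx'
        Pool.Agent.Strip051.G.I69_7273.Tab.C.BA22.c_pm_313 noCut_EA noExt_EA F trivial trivial

theorem BA22_mm_001 {κ x : ℝ} (hκ : κ * h0 = ken x) (hx : ((740881858 : ℕ) : ℝ) / S ≤ x) (hx' : x ≤ (((740881858 : ℕ) : ℝ) + (40050571 : ℕ)) / S) :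
    TriA PP.cur (VE (h0 * 0) 3 κ (h0 * x) (eng.v x) (h0 * (1 / 20)) (tnt (h0 * x) (1 / 5)) (tbl tK x) (tbl tL x) (tbl (smT h0⁻¹ tC) x)) 0 0 1 2 2 (-1) (-1) :=
  (sideB hx hx').bothA (thrB hx hx') (en_pos (hx1 hx).le) (Or.inr rfl) (Or.inr rfl) fun y y' F =>
    bothA_cert (s1 := false) (s2 := false) rfl hκ (en_pos (hx1 hx).le) (esg_rng (hx1 hx).le (hx2 hx').le).1 (mo_v x) covB20 covB20 hx hx'
        Pool.Agent.Strip051.G.I69_7273.Tab.C.BA22.c_mm_001 noCut_EA noExt_EA F trivial trivial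

theorem BA22_mm_011 {κ x : ℝ} (hκ : κ * h0 = ken x) (hx : ((740881858 : ℕ) : ℝ) / S ≤ x) (hx' : x ≤ (((740881858 : ℕ) : ℝ) + (40050571 : ℕ)) / S) :
    TriA PP.cur (VE (h0 * 0) 3 κ (h0 * x) (eng.v x) (h0 * (1 / 20)) (tnt (h0 * x) (1 / 5)) (tbl tK x) (tbl tL x) (tbl (smT h0⁻¹ tC) x)) 0 1 1 2 2 (-1) (-1) :=
  (sideB hx hx').bothA (thrB hx hx') (en_pos (hx1 hx).le) (Or.inr rfl) (Or.inr rfl) fun y y' F =>
    bothA_cert (s1 := false) (s2 := false) rfl hκ (en_pos (hx1 hx).le) (esg_rng (hx1 hx).le (hx2 hx').le).1 (mo_v x) covB20 covB21 hx hx'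
        Pool.Agent.Strip051.G.I69_7273.Tab.C.BA22.c_mm_011 noCut_EA noExt_EA F trivial trivial

theorem BA22_mm_012 {κ x : ℝ} (hκ : κ * h0 = ken x) (hx : ((740881858 : ℕ) : ℝ) / S ≤ x) (hx' : x ≤ (((740881858 : ℕ) : ℝ) + (40050571 : ℕ)) / S) :
    TriA PP.cur (VE (h0 * 0) 3 κ (h0 * x) (eng.v x) (h0 * (1 / 20)) (tnt (h0 * x) (1 / 5)) (tbl tK x) (tbl tL x) (tbl (smT h0⁻¹ tC) x)) 0 1 2 2 2 (-1) (-1) :=
  (sideB hx hx').bothA (thrB hx hx') (en_pos (hx1 hx).le) (Or.inr rfl) (Or.inr rfl) fun y y' F =>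
    bothA_cert (s1 := false) (s2 := false) rfl hκ (en_pos (hx1 hx).le) (esg_rng (hx1 hx).le (hx2 hx').le).1 (mo_v x) covB20 covB21 hx hx'
        Pool.Agent.Strip051.G.I69_7273.Tab.C.BA22.c_mm_012 noCut_EA noExt_EA F trivial trivial

theorem BA22_mm_022 {κ x : ℝ} (hκ : κ * h0 = ken x) (hx : ((740881858 : ℕ) : ℝ) / S ≤ x) (hx' : x ≤ (((740881858 : ℕ) : ℝ) + (40050571 : ℕ)) / S) :
    TriA PP.cur (VE (h0 * 0) 3 κ (h0 * x) (eng.v x) (h0 * (1 / 20)) (tnt (h0 * x) (1 / 5)) (tbl tK x) (tbl tL x) (tbl (smT h0⁻¹ tC) x)) 0 2 2 2 2 (-1) (-1) :=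
  (sideB hx hx').bothA (thrB hx hx') (en_pos (hx1 hx).le) (Or.inr rfl) (Or.inr rfl) fun y y' F =>
    (lt_or_ge (h0 * y') 1).elim
      (fun g => bothA_cert (s1 := false) (s2 := false) rfl hκ (en_pos (hx1 hx).le) (esg_rng (hx1 hx).le (hx2 hx').le).1 (mo_v x) covB20 covB22a hx hx'
        Pool.Agent.Strip051.G.I69_7273.Tab.C.BA22.c_mm_022_a noCut_EA noExt_EA F trivial g)
      (fun g => bothA_cert (s1 := false) (s2 := false) rfl hκ (en_pos (hx1 hx).le) (esg_rng (hx1 hx).le (hx2 hx').le).1 (mo_v x) covB20 covB22b hx hx'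
        Pool.Agent.Strip051.G.I69_7273.Tab.C.BA22.c_mm_022_b noCut_EA noExt_EA F trivial g)

theorem BA22_mm_023 {κ x : ℝ} (hκ : κ * h0 = ken x) (hx : ((740881858 : ℕ) : ℝ) / S ≤ x) (hx' : x ≤ (((740881858 : ℕ) : ℝ) + (40050571 : ℕ)) / S) :
    TriA PP.cur (VE (h0 * 0) 3 κ (h0 * x) (eng.v x) (h0 * (1 / 20)) (tnt (h0 * x) (1 / 5)) (tbl tK x) (tbl tL x) (tbl (smT h0⁻¹ tC) x)) 0 2 3 2 2 (-1) (-1) :=
  (sideB hx hx').bothA (thrB hx hx') (en_pos (hx1 hx).le) (Or.inr rfl) (Or.inr rfl) fun y y' F =>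
    (lt_or_ge (h0 * y') 1).elim
      (fun g => bothA_cert (s1 := false) (s2 := false) rfl hκ (en_pos (hx1 hx).le) (esg_rng (hx1 hx).le (hx2 hx').le).1 (mo_v x) covB20 covB22a hx hx'
        Pool.Agent.Strip051.G.I69_7273.Tab.C.BA22.c_mm_023_a noCut_EA noExt_EA F trivial g)
      (fun g => bothA_cert (s1 := false) (s2 := false) rfl hκ (en_pos (hx1 hx).le) (esg_rng (hx1 hx).le (hx2 hx').le).1 (mo_v x) covB20 covB22b hx hx'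
        Pool.Agent.Strip051.G.I69_7273.Tab.C.BA22.c_mm_023_b noCut_EA noExt_EA F trivial g)

theorem BA22_mm_033 {κ x : ℝ} (hκ : κ * h0 = ken x) (hx : ((740881858 : ℕ) : ℝ) / S ≤ x) (hx' : x ≤ (((740881858 : ℕ) : ℝ) + (40050571 : ℕ)) / S) :
    TriA PP.cur (VE (h0 * 0) 3 κ (h0 * x) (eng.v x) (h0 * (1 / 20)) (tnt (h0 * x) (1 / 5)) (tbl tK x) (tbl tL x) (tbl (smT h0⁻¹ tC) x)) 0 3 3 2 2 (-1) (-1) :=
  (sideB hx hx').bothA (thrB hx hx') (en_pos (hx1 hx).le) (Or.inr rfl) (Or.inr rfl) fun y y' F =>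
    bothA_cert (s1 := false) (s2 := false) rfl hκ (en_pos (hx1 hx).le) (esg_rng (hx1 hx).le (hx2 hx').le).1 (mo_v x) covB20 covB23 hx hx'
        Pool.Agent.Strip051.G.I69_7273.Tab.C.BA22.c_mm_033 noCut_EA noExt_EA F trivial trivial

theorem BA22_mm_101 {κ x : ℝ} (hκ : κ * h0 = ken x) (hx : ((740881858 : ℕ) : ℝ) / S ≤ x) (hx' : x ≤ (((740881858 : ℕ) : ℝ) + (40050571 : ℕ)) / S) :
    TriA PP.cur (VE (h0 * 0) 3 κ (h0 * x) (eng.v x) (h0 * (1 / 20)) (tnt (h0 * x) (1 / 5)) (tbl tK x) (tbl tL x) (tbl (smT h0⁻¹ tC) x)) 1 0 1 2 2 (-1) (-1) :=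
  (sideB hx hx').bothA (thrB hx hx') (en_pos (hx1 hx).le) (Or.inr rfl) (Or.inr rfl) fun y y' F =>
    bothA_cert (s1 := false) (s2 := false) rfl hκ (en_pos (hx1 hx).le) (esg_rng (hx1 hx).le (hx2 hx').le).1 (mo_v x) covB21 covB20 hx hx'
        Pool.Agent.Strip051.G.I69_7273.Tab.C.BA22.c_mm_101 noCut_EA noExt_EA F trivial trivial

theorem BA22_mm_102 {κ x : ℝ} (hκ : κ * h0 = ken x) (hx : ((740881858 : ℕ) : ℝ) / S ≤ x) (hx' : x ≤ (((740881858 : ℕ) : ℝ) + (40050571 : ℕ)) / S) :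
    TriA PP.cur (VE (h0 * 0) 3 κ (h0 * x) (eng.v x) (h0 * (1 / 20)) (tnt (h0 * x) (1 / 5)) (tbl tK x) (tbl tL x) (tbl (smT h0⁻¹ tC) x)) 1 0 2 2 2 (-1) (-1) :=
  (sideB hx hx').bothA (thrB hx hx') (en_pos (hx1 hx).le) (Or.inr rfl) (Or.inr rfl) fun y y' F =>
    bothA_cert (s1 := false) (s2 := false) rfl hκ (en_pos (hx1 hx).le) (esg_rng (hx1 hx).le (hx2 hx').le).1 (mo_v x) covB21 covB20 hx hx'
        Pool.Agent.Strip051.G.I69_7273.Tab.C.BA22.c_mm_102 noCut_EA noExt_EA F trivial trivial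

theorem BA22_mm_112 {κ x : ℝ} (hκ : κ * h0 = ken x) (hx : ((740881858 : ℕ) : ℝ) / S ≤ x) (hx' : x ≤ (((740881858 : ℕ) : ℝ) + (40050571 : ℕ)) / S) :
    TriA PP.cur (VE (h0 * 0) 3 κ (h0 * x) (eng.v x) (h0 * (1 / 20)) (tnt (h0 * x) (1 / 5)) (tbl tK x) (tbl tL x) (tbl (smT h0⁻¹ tC) x)) 1 1 2 2 2 (-1) (-1) :=
  (sideB hx hx').bothA (thrB hx hx') (en_pos (hx1 hx).le) (Or.inr rfl) (Or.inr rfl) fun y y' F =>
    bothA_cert (s1 := false) (s2 := false) rfl hκ (en_pos (hx1 hx).le) (esg_rng (hx1 hx).le (hx2 hx').le).1 (mo_v x) covB21 covB21 hx hx'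
        Pool.Agent.Strip051.G.I69_7273.Tab.C.BA22.c_mm_112 noCut_EA noExt_EA F trivial trivial

theorem BA22_mm_113 {κ x : ℝ} (hκ : κ * h0 = ken x) (hx : ((740881858 : ℕ) : ℝ) / S ≤ x) (hx' : x ≤ (((740881858 : ℕ) : ℝ) + (40050571 : ℕ)) / S) :
    TriA PP.cur (VE (h0 * 0) 3 κ (h0 * x) (eng.v x) (h0 * (1 / 20)) (tnt (h0 * x) (1 / 5)) (tbl tK x) (tbl tL x) (tbl (smT h0⁻¹ tC) x)) 1 1 3 2 2 (-1) (-1) :=
  (sideB hx hx').bothA (thrB hx hx') (en_pos (hx1 hx).le) (Or.inr rfl) (Or.inr rfl) fun y y' F =>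
    bothA_cert (s1 := false) (s2 := false) rfl hκ (en_pos (hx1 hx).le) (esg_rng (hx1 hx).le (hx2 hx').le).1 (mo_v x) covB21 covB21 hx hx'
        Pool.Agent.Strip051.G.I69_7273.Tab.C.BA22.c_mm_113 noCut_EA noExt_EA F trivial trivial

theorem BA22_mm_123 {κ x : ℝ} (hκ : κ * h0 = ken x) (hx : ((740881858 : ℕ) : ℝ) / S ≤ x) (hx' : x ≤ (((740881858 : ℕ) : ℝ) + (40050571 : ℕ)) / S) :
    TriA PP.cur (VE (h0 * 0) 3 κ (h0 * x) (eng.v x) (h0 * (1 / 20)) (tnt (h0 * x) (1 / 5)) (tbl tK x) (tbl tL x) (tbl (smT h0⁻¹ tC) x)) 1 2 3 2 2 (-1) (-1) :=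
  (sideB hx hx').bothA (thrB hx hx') (en_pos (hx1 hx).le) (Or.inr rfl) (Or.inr rfl) fun y y' F =>
    (lt_or_ge (h0 * y') 1).elim
      (fun g => bothA_cert (s1 := false) (s2 := false) rfl hκ (en_pos (hx1 hx).le) (esg_rng (hx1 hx).le (hx2 hx').le).1 (mo_v x) covB21 covB22a hx hx'
        Pool.Agent.Strip051.G.I69_7273.Tab.C.BA22.c_mm_123_a noCut_EA noExt_EA F trivial g)
      (fun g => bothA_cert (s1 := false) (s2 := false) rfl hκ (en_pos (hx1 hx).le) (esg_rng (hx1 hx).le (hx2 hx').le).1 (mo_v x) covB21 covB22b hx hx'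
        Pool.Agent.Strip051.G.I69_7273.Tab.C.BA22.c_mm_123_b noCut_EA noExt_EA F trivial g)

theorem BA22_mm_133 {κ x : ℝ} (hκ : κ * h0 = ken x) (hx : ((740881858 : ℕ) : ℝ) / S ≤ x) (hx' : x ≤ (((740881858 : ℕ) : ℝ) + (40050571 : ℕ)) / S) :
    TriA PP.cur (VE (h0 * 0) 3 κ (h0 * x) (eng.v x) (h0 * (1 / 20)) (tnt (h0 * x) (1 / 5)) (tbl tK x) (tbl tL x) (tbl (smT h0⁻¹ tC) x)) 1 3 3 2 2 (-1) (-1) :=
  (sideB hx hx').bothA (thrB hx hx') (en_pos (hx1 hx).le) (Or.inr rfl) (Or.inr rfl) fun y y' F =>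
    bothA_cert (s1 := false) (s2 := false) rfl hκ (en_pos (hx1 hx).le) (esg_rng (hx1 hx).le (hx2 hx').le).1 (mo_v x) covB21 covB23 hx hx'
        Pool.Agent.Strip051.G.I69_7273.Tab.C.BA22.c_mm_133 noCut_EA noExt_EA F trivial trivial

theorem BA22_mm_202 {κ x : ℝ} (hκ : κ * h0 = ken x) (hx : ((740881858 : ℕ) : ℝ) / S ≤ x) (hx' : x ≤ (((740881858 : ℕ) : ℝ) + (40050571 : ℕ)) / S) :
    TriA PP.cur (VE (h0 * 0) 3 κ (h0 * x) (eng.v x) (h0 * (1 / 20)) (tnt (h0 * x) (1 / 5)) (tbl tK x) (tbl tL x) (tbl (smT h0⁻¹ tC) x)) 2 0 2 2 2 (-1) (-1) :=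
  (sideB hx hx').bothA (thrB hx hx') (en_pos (hx1 hx).le) (Or.inr rfl) (Or.inr rfl) fun y y' F =>
    (lt_or_ge (h0 * y) 1).elim
      (fun h => bothA_cert (s1 := false) (s2 := false) rfl hκ (en_pos (hx1 hx).le) (esg_rng (hx1 hx).le (hx2 hx').le).1 (mo_v x) covB22a covB20 hx hx'
        Pool.Agent.Strip051.G.I69_7273.Tab.C.BA22.c_mm_202_a (cutEA_cons (Pool.Agent.Strip051.G.I69_7273.Tab.altB_A202R_22 hκ hx hx') cutEA_nil) noExt_EA F h trivial)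
      (fun h => bothA_cert (s1 := false) (s2 := false) rfl hκ (en_pos (hx1 hx).le) (esg_rng (hx1 hx).le (hx2 hx').le).1 (mo_v x) covB22b covB20 hx hx'
        Pool.Agent.Strip051.G.I69_7273.Tab.C.BA22.c_mm_202_b (cutEA_cons (Pool.Agent.Strip051.G.I69_7273.Tab.altB_A202R_22 hκ hx hx') cutEA_nil) noExt_EA F h trivial)

theorem BA22_mm_203 {κ x : ℝ} (hκ : κ * h0 = ken x) (hx : ((740881858 : ℕ) : ℝ) / S ≤ x) (hx' : x ≤ (((740881858 : ℕ) : ℝ) + (40050571 : ℕ)) / S) :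
    TriA PP.cur (VE (h0 * 0) 3 κ (h0 * x) (eng.v x) (h0 * (1 / 20)) (tnt (h0 * x) (1 / 5)) (tbl tK x) (tbl tL x) (tbl (smT h0⁻¹ tC) x)) 2 0 3 2 2 (-1) (-1) :=
  (sideB hx hx').bothA (thrB hx hx') (en_pos (hx1 hx).le) (Or.inr rfl) (Or.inr rfl) fun y y' F =>
    (lt_or_ge (h0 * y) 1).elim
      (fun h => bothA_cert (s1 := false) (s2 := false) rfl hκ (en_pos (hx1 hx).le) (esg_rng (hx1 hx).le (hx2 hx').le).1 (mo_v x) covB22a covB20 hx hx'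
        Pool.Agent.Strip051.G.I69_7273.Tab.C.BA22.c_mm_203_a noCut_EA noExt_EA F h trivial)
      (fun h => bothA_cert (s1 := false) (s2 := false) rfl hκ (en_pos (hx1 hx).le) (esg_rng (hx1 hx).le (hx2 hx').le).1 (mo_v x) covB22b covB20 hx hx'
        Pool.Agent.Strip051.G.I69_7273.Tab.C.BA22.c_mm_203_b noCut_EA noExt_EA F h trivial)

theorem BA22_mm_213 {κ x : ℝ} (hκ : κ * h0 = ken x) (hx : ((740881858 : ℕ) : ℝ) / S ≤ x) (hx' : x ≤ (((740881858 : ℕ) : ℝ) + (40050571 : ℕ)) / S) :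
    TriA PP.cur (VE (h0 * 0) 3 κ (h0 * x) (eng.v x) (h0 * (1 / 20)) (tnt (h0 * x) (1 / 5)) (tbl tK x) (tbl tL x) (tbl (smT h0⁻¹ tC) x)) 2 1 3 2 2 (-1) (-1) :=
  (sideB hx hx').bothA (thrB hx hx') (en_pos (hx1 hx).le) (Or.inr rfl) (Or.inr rfl) fun y y' F =>
    (lt_or_ge (h0 * y) 1).elim
      (fun h => bothA_cert (s1 := false) (s2 := false) rfl hκ (en_pos (hx1 hx).le) (esg_rng (hx1 hx).le (hx2 hx').le).1 (mo_v x) covB22a covB21 hx hx'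
        Pool.Agent.Strip051.G.I69_7273.Tab.C.BA22.c_mm_213_a noCut_EA noExt_EA F h trivial)
      (fun h => bothA_cert (s1 := false) (s2 := false) rfl hκ (en_pos (hx1 hx).le) (esg_rng (hx1 hx).le (hx2 hx').le).1 (mo_v x) covB22b covB21 hx hx'
        Pool.Agent.Strip051.G.I69_7273.Tab.C.BA22.c_mm_213_b noCut_EA noExt_EA F h trivial)

theorem BA22_mm_303 {κ x : ℝ} (hκ : κ * h0 = ken x) (hx : ((740881858 : ℕ) : ℝ) / S ≤ x) (hx' : x ≤ (((740881858 : ℕ) : ℝ) + (40050571 : ℕ)) / S) :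
    TriA PP.cur (VE (h0 * 0) 3 κ (h0 * x) (eng.v x) (h0 * (1 / 20)) (tnt (h0 * x) (1 / 5)) (tbl tK x) (tbl tL x) (tbl (smT h0⁻¹ tC) x)) 3 0 3 2 2 (-1) (-1) :=
  (sideB hx hx').bothA (thrB hx hx') (en_pos (hx1 hx).le) (Or.inr rfl) (Or.inr rfl) fun y y' F =>
    bothA_cert (s1 := false) (s2 := false) rfl hκ (en_pos (hx1 hx).le) (esg_rng (hx1 hx).le (hx2 hx').le).1 (mo_v x) covB23 covB20 hx hx'
        Pool.Agent.Strip051.G.I69_7273.Tab.C.BA22.c_mm_303 noCut_EA noExt_EA F trivial trivial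

theorem BA22_mm_313 {κ x : ℝ} (hκ : κ * h0 = ken x) (hx : ((740881858 : ℕ) : ℝ) / S ≤ x) (hx' : x ≤ (((740881858 : ℕ) : ℝ) + (40050571 : ℕ)) / S) :
    TriA PP.cur (VE (h0 * 0) 3 κ (h0 * x) (eng.v x) (h0 * (1 / 20)) (tnt (h0 * x) (1 / 5)) (tbl tK x) (tbl tL x) (tbl (smT h0⁻¹ tC) x)) 3 1 3 2 2 (-1) (-1) :=
  (sideB hx hx').bothA (thrB hx hx') (en_pos (hx1 hx).le) (Or.inr rfl) (Or.inr rfl) fun y y' F =>
    bothA_cert (s1 := false) (s2 := false) rfl hκ (en_pos (hx1 hx).le) (esg_rng (hx1 hx).le (hx2 hx').le).1 (mo_v x) covB23 covB21 hx hx'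
        Pool.Agent.Strip051.G.I69_7273.Tab.C.BA22.c_mm_313 noCut_EA noExt_EA F trivial trivial

theorem BA22 {κ x : ℝ} (hκ : κ * h0 = ken x) (hx : ((740881858 : ℕ) : ℝ) / S ≤ x) (hx' : x ≤ (((740881858 : ℕ) : ℝ) + (40050571 : ℕ)) / S) : AllTA PP.cur (VE (h0 * 0) 3 κ (h0 * x) (eng.v x) (h0 * (1 / 20)) (tnt (h0 * x) (1 / 5)) (tbl tK x) (tbl tL x) (tbl (smT h0⁻¹ tC) x)) 2 2 where
  pp := all17 (Q := fun a b c => TriA PP.cur (VE (h0 * 0) 3 κ (h0 * x) (eng.v x) (h0 * (1 / 20)) (tnt (h0 * x) (1 / 5)) (tbl tK x) (tbl tL x) (tbl (smT h0⁻¹ tC) x)) a b c 2 2 1 1)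
    (BA22_pp_001 hκ hx hx') (BA22_pp_011 hκ hx hx') (BA22_pp_012 hκ hx hx') (BA22_pp_022 hκ hx hx') (BA22_pp_023 hκ hx hx') (BA22_pp_033 hκ hx hx') (BA22_pp_101 hκ hx hx') (BA22_pp_102 hκ hx hx') (BA22_pp_112 hκ hx hx') (BA22_pp_113 hκ hx hx') (BA22_pp_123 hκ hx hx') (BA22_pp_133 hκ hx hx') (BA22_pp_202 hκ hx hx') (BA22_pp_203 hκ hx hx') (BA22_pp_213 hκ hx hx') (BA22_pp_303 hκ hx hx') (BA22_pp_313 hκ hx hx')
  pm := all17 (Q := fun a b c => TriA PP.cur (VE (h0 * 0) 3 κ (h0 * x) (eng.v x) (h0 * (1 / 20)) (tnt (h0 * x) (1 / 5)) (tbl tK x) (tbl tL x) (tbl (smT h0⁻¹ tC) x)) a b c 2 2 1 (-1))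
    (BA22_pm_001 hκ hx hx') (BA22_pm_011 hκ hx hx') (BA22_pm_012 hκ hx hx') (BA22_pm_022 hκ hx hx') (BA22_pm_023 hκ hx hx') (BA22_pm_033 hκ hx hx') (BA22_pm_101 hκ hx hx') (BA22_pm_102 hκ hx hx') (BA22_pm_112 hκ hx hx') (BA22_pm_113 hκ hx hx') (BA22_pm_123 hκ hx hx') (BA22_pm_133 hκ hx hx') (BA22_pm_202 hκ hx hx') (BA22_pm_203 hκ hx hx') (BA22_pm_213 hκ hx hx') (BA22_pm_303 hκ hx hx') (BA22_pm_313 hκ hx hx')
  mm := all17 (Q := fun a b c => TriA PP.cur (VE (h0 * 0) 3 κ (h0 * x) (eng.v x) (h0 * (1 / 20)) (tnt (h0 * x) (1 / 5)) (tbl tK x) (tbl tL x) (tbl (smT h0⁻¹ tC) x)) a b c 2 2 (-1) (-1))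
    (BA22_mm_001 hκ hx hx') (BA22_mm_011 hκ hx hx') (BA22_mm_012 hκ hx hx') (BA22_mm_022 hκ hx hx') (BA22_mm_023 hκ hx hx') (BA22_mm_033 hκ hx hx') (BA22_mm_101 hκ hx hx') (BA22_mm_102 hκ hx hx') (BA22_mm_112 hκ hx hx') (BA22_mm_113 hκ hx hx') (BA22_mm_123 hκ hx hx') (BA22_mm_133 hκ hx hx') (BA22_mm_202 hκ hx hx') (BA22_mm_203 hκ hx hx') (BA22_mm_213 hκ hx hx') (BA22_mm_303 hκ hx hx') (BA22_mm_313 hκ hx hx')

theorem BA23_pp_001 {κ x : ℝ} (hκ : κ * h0 = ken x) (hx : ((740881858 : ℕ) : ℝ) / S ≤ x) (hx' : x ≤ (((740881858 : ℕ) : ℝ) + (40050571 : ℕ)) / S) :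
    TriA PP.cur (VE (h0 * 0) 3 κ (h0 * x) (eng.v x) (h0 * (1 / 20)) (tnt (h0 * x) (1 / 5)) (tbl tK x) (tbl tL x) (tbl (smT h0⁻¹ tC) x)) 0 0 1 2 3 1 1 :=
  (sideB hx hx').bothA (thrB hx hx') (en_pos (hx1 hx).le) (Or.inl rfl) (Or.inl rfl) fun y y' F =>
    bothA_cert (s1 := true) (s2 := true) rfl hκ (en_pos (hx1 hx).le) (esg_rng (hx1 hx).le (hx2 hx').le).1 (mo_v x) covB20 covB30 hx hx'
        Pool.Agent.Strip051.G.I69_7273.Tab.C.BA23.c_pp_001 noCut_EA noExt_EA F trivial trivial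

theorem BA23_pp_011 {κ x : ℝ} (hκ : κ * h0 = ken x) (hx : ((740881858 : ℕ) : ℝ) / S ≤ x) (hx' : x ≤ (((740881858 : ℕ) : ℝ) + (40050571 : ℕ)) / S) :
    TriA PP.cur (VE (h0 * 0) 3 κ (h0 * x) (eng.v x) (h0 * (1 / 20)) (tnt (h0 * x) (1 / 5)) (tbl tK x) (tbl tL x) (tbl (smT h0⁻¹ tC) x)) 0 1 1 2 3 1 1 :=
  (sideB hx hx').bothA (thrB hx hx') (en_pos (hx1 hx).le) (Or.inl rfl) (Or.inl rfl) fun y y' F =>
    bothA_cert (s1 := true) (s2 := true) rfl hκ (en_pos (hx1 hx).le) (esg_rng (hx1 hx).le (hx2 hx').le).1 (mo_v x) covB20 covB31 hx hx'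
        Pool.Agent.Strip051.G.I69_7273.Tab.C.BA23.c_pp_011 noCut_EA noExt_EA F trivial trivial

theorem BA23_pp_012 {κ x : ℝ} (hκ : κ * h0 = ken x) (hx : ((740881858 : ℕ) : ℝ) / S ≤ x) (hx' : x ≤ (((740881858 : ℕ) : ℝ) + (40050571 : ℕ)) / S) :
    TriA PP.cur (VE (h0 * 0) 3 κ (h0 * x) (eng.v x) (h0 * (1 / 20)) (tnt (h0 * x) (1 / 5)) (tbl tK x) (tbl tL x) (tbl (smT h0⁻¹ tC) x)) 0 1 2 2 3 1 1 :=
  (sideB hx hx').bothA (thrB hx hx') (en_pos (hx1 hx).le) (Or.inl rfl) (Or.inl rfl) fun y y' F =>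
    bothA_cert (s1 := true) (s2 := true) rfl hκ (en_pos (hx1 hx).le) (esg_rng (hx1 hx).le (hx2 hx').le).1 (mo_v x) covB20 covB31 hx hx'
        Pool.Agent.Strip051.G.I69_7273.Tab.C.BA23.c_pp_012 noCut_EA noExt_EA F trivial trivial

theorem BA23_pp_022 {κ x : ℝ} (hκ : κ * h0 = ken x) (hx : ((740881858 : ℕ) : ℝ) / S ≤ x) (hx' : x ≤ (((740881858 : ℕ) : ℝ) + (40050571 : ℕ)) / S) :
    TriA PP.cur (VE (h0 * 0) 3 κ (h0 * x) (eng.v x) (h0 * (1 / 20)) (tnt (h0 * x) (1 / 5)) (tbl tK x) (tbl tL x) (tbl (smT h0⁻¹ tC) x)) 0 2 2 2 3 1 1 :=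
  (sideB hx hx').bothA (thrB hx hx') (en_pos (hx1 hx).le) (Or.inl rfl) (Or.inl rfl) fun y y' F =>
    bothA_cert (s1 := true) (s2 := true) rfl hκ (en_pos (hx1 hx).le) (esg_rng (hx1 hx).le (hx2 hx').le).1 (mo_v x) covB20 covB32 hx hx'
        Pool.Agent.Strip051.G.I69_7273.Tab.C.BA23.c_pp_022 noCut_EA noExt_EA F trivial trivial

theorem BA23_pp_023 {κ x : ℝ} (hκ : κ * h0 = ken x) (hx : ((740881858 : ℕ) : ℝ) / S ≤ x) (hx' : x ≤ (((740881858 : ℕ) : ℝ) + (40050571 : ℕ)) / S) :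
    TriA PP.cur (VE (h0 * 0) 3 κ (h0 * x) (eng.v x) (h0 * (1 / 20)) (tnt (h0 * x) (1 / 5)) (tbl tK x) (tbl tL x) (tbl (smT h0⁻¹ tC) x)) 0 2 3 2 3 1 1 :=
  (sideB hx hx').bothA (thrB hx hx') (en_pos (hx1 hx).le) (Or.inl rfl) (Or.inl rfl) fun y y' F =>
    bothA_cert (s1 := true) (s2 := true) rfl hκ (en_pos (hx1 hx).le) (esg_rng (hx1 hx).le (hx2 hx').le).1 (mo_v x) covB20 covB32 hx hx'
        Pool.Agent.Strip051.G.I69_7273.Tab.C.BA23.c_pp_023 noCut_EA noExt_EA F trivial trivial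

theorem BA23_pp_033 {κ x : ℝ} (hκ : κ * h0 = ken x) (hx : ((740881858 : ℕ) : ℝ) / S ≤ x) (hx' : x ≤ (((740881858 : ℕ) : ℝ) + (40050571 : ℕ)) / S) :
    TriA PP.cur (VE (h0 * 0) 3 κ (h0 * x) (eng.v x) (h0 * (1 / 20)) (tnt (h0 * x) (1 / 5)) (tbl tK x) (tbl tL x) (tbl (smT h0⁻¹ tC) x)) 0 3 3 2 3 1 1 :=
  (sideB hx hx').bothA (thrB hx hx') (en_pos (hx1 hx).le) (Or.inl rfl) (Or.inl rfl) fun y y' F =>
    bothA_cert (s1 := true) (s2 := true) rfl hκ (en_pos (hx1 hx).le) (esg_rng (hx1 hx).le (hx2 hx').le).1 (mo_v x) covB20 covB33 hx hx'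
        Pool.Agent.Strip051.G.I69_7273.Tab.C.BA23.c_pp_033 noCut_EA noExt_EA F trivial trivial

theorem BA23_pp_101 {κ x : ℝ} (hκ : κ * h0 = ken x) (hx : ((740881858 : ℕ) : ℝ) / S ≤ x) (hx' : x ≤ (((740881858 : ℕ) : ℝ) + (40050571 : ℕ)) / S) :
    TriA PP.cur (VE (h0 * 0) 3 κ (h0 * x) (eng.v x) (h0 * (1 / 20)) (tnt (h0 * x) (1 / 5)) (tbl tK x) (tbl tL x) (tbl (smT h0⁻¹ tC) x)) 1 0 1 2 3 1 1 :=
  (sideB hx hx').bothA (thrB hx hx') (en_pos (hx1 hx).le) (Or.inl rfl) (Or.inl rfl) fun y y' F =>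
    bothA_cert (s1 := true) (s2 := true) rfl hκ (en_pos (hx1 hx).le) (esg_rng (hx1 hx).le (hx2 hx').le).1 (mo_v x) covB21 covB30 hx hx'
        Pool.Agent.Strip051.G.I69_7273.Tab.C.BA23.c_pp_101 noCut_EA noExt_EA F trivial trivial

theorem BA23_pp_102 {κ x : ℝ} (hκ : κ * h0 = ken x) (hx : ((740881858 : ℕ) : ℝ) / S ≤ x) (hx' : x ≤ (((740881858 : ℕ) : ℝ) + (40050571 : ℕ)) / S) :
    TriA PP.cur (VE (h0 * 0) 3 κ (h0 * x) (eng.v x) (h0 * (1 / 20)) (tnt (h0 * x) (1 / 5)) (tbl tK x) (tbl tL x) (tbl (smT h0⁻¹ tC) x)) 1 0 2 2 3 1 1 :=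
  (sideB hx hx').bothA (thrB hx hx') (en_pos (hx1 hx).le) (Or.inl rfl) (Or.inl rfl) fun y y' F =>
    bothA_cert (s1 := true) (s2 := true) rfl hκ (en_pos (hx1 hx).le) (esg_rng (hx1 hx).le (hx2 hx').le).1 (mo_v x) covB21 covB30 hx hx'
        Pool.Agent.Strip051.G.I69_7273.Tab.C.BA23.c_pp_102 noCut_EA noExt_EA F trivial trivial

theorem BA23_pp_112 {κ x : ℝ} (hκ : κ * h0 = ken x) (hx : ((740881858 : ℕ) : ℝ) / S ≤ x) (hx' : x ≤ (((740881858 : ℕ) : ℝ) + (40050571 : ℕ)) / S) :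
    TriA PP.cur (VE (h0 * 0) 3 κ (h0 * x) (eng.v x) (h0 * (1 / 20)) (tnt (h0 * x) (1 / 5)) (tbl tK x) (tbl tL x) (tbl (smT h0⁻¹ tC) x)) 1 1 2 2 3 1 1 :=
  (sideB hx hx').bothA (thrB hx hx') (en_pos (hx1 hx).le) (Or.inl rfl) (Or.inl rfl) fun y y' F =>
    bothA_cert (s1 := true) (s2 := true) rfl hκ (en_pos (hx1 hx).le) (esg_rng (hx1 hx).le (hx2 hx').le).1 (mo_v x) covB21 covB31 hx hx'
        Pool.Agent.Strip051.G.I69_7273.Tab.C.BA23.c_pp_112 noCut_EA noExt_EA F trivial trivial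

theorem BA23_pp_113 {κ x : ℝ} (hκ : κ * h0 = ken x) (hx : ((740881858 : ℕ) : ℝ) / S ≤ x) (hx' : x ≤ (((740881858 : ℕ) : ℝ) + (40050571 : ℕ)) / S) :
    TriA PP.cur (VE (h0 * 0) 3 κ (h0 * x) (eng.v x) (h0 * (1 / 20)) (tnt (h0 * x) (1 / 5)) (tbl tK x) (tbl tL x) (tbl (smT h0⁻¹ tC) x)) 1 1 3 2 3 1 1 :=
  (sideB hx hx').bothA (thrB hx hx') (en_pos (hx1 hx).le) (Or.inl rfl) (Or.inl rfl) fun y y' F =>
    bothA_cert (s1 := true) (s2 := true) rfl hκ (en_pos (hx1 hx).le) (esg_rng (hx1 hx).le (hx2 hx').le).1 (mo_v x) covB21 covB31 hx hx'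
        Pool.Agent.Strip051.G.I69_7273.Tab.C.BA23.c_pp_113 noCut_EA noExt_EA F trivial trivial

theorem BA23_pp_123 {κ x : ℝ} (hκ : κ * h0 = ken x) (hx : ((740881858 : ℕ) : ℝ) / S ≤ x) (hx' : x ≤ (((740881858 : ℕ) : ℝ) + (40050571 : ℕ)) / S) :
    TriA PP.cur (VE (h0 * 0) 3 κ (h0 * x) (eng.v x) (h0 * (1 / 20)) (tnt (h0 * x) (1 / 5)) (tbl tK x) (tbl tL x) (tbl (smT h0⁻¹ tC) x)) 1 2 3 2 3 1 1 :=
  (sideB hx hx').bothA (thrB hx hx') (en_pos (hx1 hx).le) (Or.inl rfl) (Or.inl rfl) fun y y' F =>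
    bothA_cert (s1 := true) (s2 := true) rfl hκ (en_pos (hx1 hx).le) (esg_rng (hx1 hx).le (hx2 hx').le).1 (mo_v x) covB21 covB32 hx hx'
        Pool.Agent.Strip051.G.I69_7273.Tab.C.BA23.c_pp_123 noCut_EA noExt_EA F trivial trivial

theorem BA23_pp_133 {κ x : ℝ} (hκ : κ * h0 = ken x) (hx : ((740881858 : ℕ) : ℝ) / S ≤ x) (hx' : x ≤ (((740881858 : ℕ) : ℝ) + (40050571 : ℕ)) / S) :
    TriA PP.cur (VE (h0 * 0) 3 κ (h0 * x) (eng.v x) (h0 * (1 / 20)) (tnt (h0 * x) (1 / 5)) (tbl tK x) (tbl tL x) (tbl (smT h0⁻¹ tC) x)) 1 3 3 2 3 1 1 :=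
  (sideB hx hx').bothA (thrB hx hx') (en_pos (hx1 hx).le) (Or.inl rfl) (Or.inl rfl) fun y y' F =>
    bothA_cert (s1 := true) (s2 := true) rfl hκ (en_pos (hx1 hx).le) (esg_rng (hx1 hx).le (hx2 hx').le).1 (mo_v x) covB21 covB33 hx hx'
        Pool.Agent.Strip051.G.I69_7273.Tab.C.BA23.c_pp_133 noCut_EA noExt_EA F trivial trivial

theorem BA23_pp_202 {κ x : ℝ} (hκ : κ * h0 = ken x) (hx : ((740881858 : ℕ) : ℝ) / S ≤ x) (hx' : x ≤ (((740881858 : ℕ) : ℝ) + (40050571 : ℕ)) / S) :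
    TriA PP.cur (VE (h0 * 0) 3 κ (h0 * x) (eng.v x) (h0 * (1 / 20)) (tnt (h0 * x) (1 / 5)) (tbl tK x) (tbl tL x) (tbl (smT h0⁻¹ tC) x)) 2 0 2 2 3 1 1 :=
  (sideB hx hx').bothA (thrB hx hx') (en_pos (hx1 hx).le) (Or.inl rfl) (Or.inl rfl) fun y y' F =>
    (lt_or_ge (h0 * y) 1).elim
      (fun h => bothA_cert (s1 := true) (s2 := true) rfl hκ (en_pos (hx1 hx).le) (esg_rng (hx1 hx).le (hx2 hx').le).1 (mo_v x) covB22a covB30 hx hx'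
        Pool.Agent.Strip051.G.I69_7273.Tab.C.BA23.c_pp_202_a noCut_EA noExt_EA F h trivial)
      (fun h => bothA_cert (s1 := true) (s2 := true) rfl hκ (en_pos (hx1 hx).le) (esg_rng (hx1 hx).le (hx2 hx').le).1 (mo_v x) covB22b covB30 hx hx'
        Pool.Agent.Strip051.G.I69_7273.Tab.C.BA23.c_pp_202_b noCut_EA noExt_EA F h trivial)

theorem BA23_pp_203 {κ x : ℝ} (hκ : κ * h0 = ken x) (hx : ((740881858 : ℕ) : ℝ) / S ≤ x) (hx' : x ≤ (((740881858 : ℕ) : ℝ) + (40050571 : ℕ)) / S) :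
    TriA PP.cur (VE (h0 * 0) 3 κ (h0 * x) (eng.v x) (h0 * (1 / 20)) (tnt (h0 * x) (1 / 5)) (tbl tK x) (tbl tL x) (tbl (smT h0⁻¹ tC) x)) 2 0 3 2 3 1 1 :=
  (sideB hx hx').bothA (thrB hx hx') (en_pos (hx1 hx).le) (Or.inl rfl) (Or.inl rfl) fun y y' F =>
    (lt_or_ge (h0 * y) 1).elim
      (fun h => bothA_cert (s1 := true) (s2 := true) rfl hκ (en_pos (hx1 hx).le) (esg_rng (hx1 hx).le (hx2 hx').le).1 (mo_v x) covB22a covB30 hx hx'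
        Pool.Agent.Strip051.G.I69_7273.Tab.C.BA23.c_pp_203_a noCut_EA noExt_EA F h trivial)
      (fun h => bothA_cert (s1 := true) (s2 := true) rfl hκ (en_pos (hx1 hx).le) (esg_rng (hx1 hx).le (hx2 hx').le).1 (mo_v x) covB22b covB30 hx hx'
        Pool.Agent.Strip051.G.I69_7273.Tab.C.BA23.c_pp_203_b noCut_EA noExt_EA F h trivial)

theorem BA23_pp_213 {κ x : ℝ} (hκ : κ * h0 = ken x) (hx : ((740881858 : ℕ) : ℝ) / S ≤ x) (hx' : x ≤ (((740881858 : ℕ) : ℝ) + (40050571 : ℕ)) / S) :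
    TriA PP.cur (VE (h0 * 0) 3 κ (h0 * x) (eng.v x) (h0 * (1 / 20)) (tnt (h0 * x) (1 / 5)) (tbl tK x) (tbl tL x) (tbl (smT h0⁻¹ tC) x)) 2 1 3 2 3 1 1 :=
  (sideB hx hx').bothA (thrB hx hx') (en_pos (hx1 hx).le) (Or.inl rfl) (Or.inl rfl) fun y y' F =>
    (lt_or_ge (h0 * y) 1).elim
      (fun h => bothA_cert (s1 := true) (s2 := true) rfl hκ (en_pos (hx1 hx).le) (esg_rng (hx1 hx).le (hx2 hx').le).1 (mo_v x) covB22a covB31 hx hx'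
        Pool.Agent.Strip051.G.I69_7273.Tab.C.BA23.c_pp_213_a noCut_EA noExt_EA F h trivial)
      (fun h => bothA_cert (s1 := true) (s2 := true) rfl hκ (en_pos (hx1 hx).le) (esg_rng (hx1 hx).le (hx2 hx').le).1 (mo_v x) covB22b covB31 hx hx'
        Pool.Agent.Strip051.G.I69_7273.Tab.C.BA23.c_pp_213_b noCut_EA noExt_EA F h trivial)

theorem BA23_pp_303 {κ x : ℝ} (hκ : κ * h0 = ken x) (hx : ((740881858 : ℕ) : ℝ) / S ≤ x) (hx' : x ≤ (((740881858 : ℕ) : ℝ) + (40050571 : ℕ)) / S) :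
    TriA PP.cur (VE (h0 * 0) 3 κ (h0 * x) (eng.v x) (h0 * (1 / 20)) (tnt (h0 * x) (1 / 5)) (tbl tK x) (tbl tL x) (tbl (smT h0⁻¹ tC) x)) 3 0 3 2 3 1 1 :=
  (sideB hx hx').bothA (thrB hx hx') (en_pos (hx1 hx).le) (Or.inl rfl) (Or.inl rfl) fun y y' F =>
    bothA_cert (s1 := true) (s2 := true) rfl hκ (en_pos (hx1 hx).le) (esg_rng (hx1 hx).le (hx2 hx').le).1 (mo_v x) covB23 covB30 hx hx'
        Pool.Agent.Strip051.G.I69_7273.Tab.C.BA23.c_pp_303 noCut_EA noExt_EA F trivial trivial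

theorem BA23_pp_313 {κ x : ℝ} (hκ : κ * h0 = ken x) (hx : ((740881858 : ℕ) : ℝ) / S ≤ x) (hx' : x ≤ (((740881858 : ℕ) : ℝ) + (40050571 : ℕ)) / S) :
    TriA PP.cur (VE (h0 * 0) 3 κ (h0 * x) (eng.v x) (h0 * (1 / 20)) (tnt (h0 * x) (1 / 5)) (tbl tK x) (tbl tL x) (tbl (smT h0⁻¹ tC) x)) 3 1 3 2 3 1 1 :=
  (sideB hx hx').bothA (thrB hx hx') (en_pos (hx1 hx).le) (Or.inl rfl) (Or.inl rfl) fun y y' F =>
    bothA_cert (s1 := true) (s2 := true) rfl hκ (en_pos (hx1 hx).le) (esg_rng (hx1 hx).le (hx2 hx').le).1 (mo_v x) covB23 covB31 hx hx'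
        Pool.Agent.Strip051.G.I69_7273.Tab.C.BA23.c_pp_313 noCut_EA noExt_EA F trivial trivial

theorem BA23_pm_001 {κ x : ℝ} (hκ : κ * h0 = ken x) (hx : ((740881858 : ℕ) : ℝ) / S ≤ x) (hx' : x ≤ (((740881858 : ℕ) : ℝ) + (40050571 : ℕ)) / S) :
    TriA PP.cur (VE (h0 * 0) 3 κ (h0 * x) (eng.v x) (h0 * (1 / 20)) (tnt (h0 * x) (1 / 5)) (tbl tK x) (tbl tL x) (tbl (smT h0⁻¹ tC) x)) 0 0 1 2 3 1 (-1) :=
  (sideB hx hx').bothA (thrB hx hx') (en_pos (hx1 hx).le) (Or.inl rfl) (Or.inr rfl) fun y y' F =>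
    bothA_cert (s1 := true) (s2 := false) rfl hκ (en_pos (hx1 hx).le) (esg_rng (hx1 hx).le (hx2 hx').le).1 (mo_v x) covB20 covB30 hx hx'
        Pool.Agent.Strip051.G.I69_7273.Tab.C.BA23.c_pm_001 noCut_EA noExt_EA F trivial trivial

theorem BA23_pm_011 {κ x : ℝ} (hκ : κ * h0 = ken x) (hx : ((740881858 : ℕ) : ℝ) / S ≤ x) (hx' : x ≤ (((740881858 : ℕ) : ℝ) + (40050571 : ℕ)) / S) :
    TriA PP.cur (VE (h0 * 0) 3 κ (h0 * x) (eng.v x) (h0 * (1 / 20)) (tnt (h0 * x) (1 / 5)) (tbl tK x) (tbl tL x) (tbl (smT h0⁻¹ tC) x)) 0 1 1 2 3 1 (-1) :=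
  (sideB hx hx').bothA (thrB hx hx') (en_pos (hx1 hx).le) (Or.inl rfl) (Or.inr rfl) fun y y' F =>
    bothA_cert (s1 := true) (s2 := false) rfl hκ (en_pos (hx1 hx).le) (esg_rng (hx1 hx).le (hx2 hx').le).1 (mo_v x) covB20 covB31 hx hx'
        Pool.Agent.Strip051.G.I69_7273.Tab.C.BA23.c_pm_011 (cutEA_cons (Pool.Agent.Strip051.G.I69_7273.Tab.altB_A011R_23 hκ hx hx') cutEA_nil) noExt_EA F trivial trivial

theorem BA23_pm_012 {κ x : ℝ} (hκ : κ * h0 = ken x) (hx : ((740881858 : ℕ) : ℝ) / S ≤ x) (hx' : x ≤ (((740881858 : ℕ) : ℝ) + (40050571 : ℕ)) / S) :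
    TriA PP.cur (VE (h0 * 0) 3 κ (h0 * x) (eng.v x) (h0 * (1 / 20)) (tnt (h0 * x) (1 / 5)) (tbl tK x) (tbl tL x) (tbl (smT h0⁻¹ tC) x)) 0 1 2 2 3 1 (-1) :=
  (sideB hx hx').bothA (thrB hx hx') (en_pos (hx1 hx).le) (Or.inl rfl) (Or.inr rfl) fun y y' F =>
    bothA_cert (s1 := true) (s2 := false) rfl hκ (en_pos (hx1 hx).le) (esg_rng (hx1 hx).le (hx2 hx').le).1 (mo_v x) covB20 covB31 hx hx'
        Pool.Agent.Strip051.G.I69_7273.Tab.C.BA23.c_pm_012 (cutEA_cons (Pool.Agent.Strip051.G.I69_7273.Tab.altB_A012R_23 hκ hx hx') cutEA_nil) noExt_EA F trivial trivial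

theorem BA23_pm_022 {κ x : ℝ} (hκ : κ * h0 = ken x) (hx : ((740881858 : ℕ) : ℝ) / S ≤ x) (hx' : x ≤ (((740881858 : ℕ) : ℝ) + (40050571 : ℕ)) / S) :
    TriA PP.cur (VE (h0 * 0) 3 κ (h0 * x) (eng.v x) (h0 * (1 / 20)) (tnt (h0 * x) (1 / 5)) (tbl tK x) (tbl tL x) (tbl (smT h0⁻¹ tC) x)) 0 2 2 2 3 1 (-1) :=
  (sideB hx hx').bothA (thrB hx hx') (en_pos (hx1 hx).le) (Or.inl rfl) (Or.inr rfl) fun y y' F =>
    bothA_cert (s1 := true) (s2 := false) rfl hκ (en_pos (hx1 hx).le) (esg_rng (hx1 hx).le (hx2 hx').le).1 (mo_v x) covB20 covB32 hx hx'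
        Pool.Agent.Strip051.G.I69_7273.Tab.C.BA23.c_pm_022 noCut_EA noExt_EA F trivial trivial

theorem BA23_pm_023 {κ x : ℝ} (hκ : κ * h0 = ken x) (hx : ((740881858 : ℕ) : ℝ) / S ≤ x) (hx' : x ≤ (((740881858 : ℕ) : ℝ) + (40050571 : ℕ)) / S) :
    TriA PP.cur (VE (h0 * 0) 3 κ (h0 * x) (eng.v x) (h0 * (1 / 20)) (tnt (h0 * x) (1 / 5)) (tbl tK x) (tbl tL x) (tbl (smT h0⁻¹ tC) x)) 0 2 3 2 3 1 (-1) :=
  (sideB hx hx').bothA (thrB hx hx') (en_pos (hx1 hx).le) (Or.inl rfl) (Or.inr rfl) fun y y' F =>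
    bothA_cert (s1 := true) (s2 := false) rfl hκ (en_pos (hx1 hx).le) (esg_rng (hx1 hx).le (hx2 hx').le).1 (mo_v x) covB20 covB32 hx hx'
        Pool.Agent.Strip051.G.I69_7273.Tab.C.BA23.c_pm_023 noCut_EA noExt_EA F trivial trivial

theorem BA23_pm_033 {κ x : ℝ} (hκ : κ * h0 = ken x) (hx : ((740881858 : ℕ) : ℝ) / S ≤ x) (hx' : x ≤ (((740881858 : ℕ) : ℝ) + (40050571 : ℕ)) / S) :
    TriA PP.cur (VE (h0 * 0) 3 κ (h0 * x) (eng.v x) (h0 * (1 / 20)) (tnt (h0 * x) (1 / 5)) (tbl tK x) (tbl tL x) (tbl (smT h0⁻¹ tC) x)) 0 3 3 2 3 1 (-1) :=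
  (sideB hx hx').bothA (thrB hx hx') (en_pos (hx1 hx).le) (Or.inl rfl) (Or.inr rfl) fun y y' F =>
    bothA_cert (s1 := true) (s2 := false) rfl hκ (en_pos (hx1 hx).le) (esg_rng (hx1 hx).le (hx2 hx').le).1 (mo_v x) covB20 covB33 hx hx'
        Pool.Agent.Strip051.G.I69_7273.Tab.C.BA23.c_pm_033 noCut_EA noExt_EA F trivial trivial

theorem BA23_pm_101 {κ x : ℝ} (hκ : κ * h0 = ken x) (hx : ((740881858 : ℕ) : ℝ) / S ≤ x) (hx' : x ≤ (((740881858 : ℕ) : ℝ) + (40050571 : ℕ)) / S) :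
    TriA PP.cur (VE (h0 * 0) 3 κ (h0 * x) (eng.v x) (h0 * (1 / 20)) (tnt (h0 * x) (1 / 5)) (tbl tK x) (tbl tL x) (tbl (smT h0⁻¹ tC) x)) 1 0 1 2 3 1 (-1) :=
  (sideB hx hx').bothA (thrB hx hx') (en_pos (hx1 hx).le) (Or.inl rfl) (Or.inr rfl) fun y y' F =>
    bothA_cert (s1 := true) (s2 := false) rfl hκ (en_pos (hx1 hx).le) (esg_rng (hx1 hx).le (hx2 hx').le).1 (mo_v x) covB21 covB30 hx hx'
        Pool.Agent.Strip051.G.I69_7273.Tab.C.BA23.c_pm_101 noCut_EA noExt_EA F trivial trivial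

theorem BA23_pm_102 {κ x : ℝ} (hκ : κ * h0 = ken x) (hx : ((740881858 : ℕ) : ℝ) / S ≤ x) (hx' : x ≤ (((740881858 : ℕ) : ℝ) + (40050571 : ℕ)) / S) :
    TriA PP.cur (VE (h0 * 0) 3 κ (h0 * x) (eng.v x) (h0 * (1 / 20)) (tnt (h0 * x) (1 / 5)) (tbl tK x) (tbl tL x) (tbl (smT h0⁻¹ tC) x)) 1 0 2 2 3 1 (-1) :=
  (sideB hx hx').bothA (thrB hx hx') (en_pos (hx1 hx).le) (Or.inl rfl) (Or.inr rfl) fun y y' F =>
    bothA_cert (s1 := true) (s2 := false) rfl hκ (en_pos (hx1 hx).le) (esg_rng (hx1 hx).le (hx2 hx').le).1 (mo_v x) covB21 covB30 hx hx'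
        Pool.Agent.Strip051.G.I69_7273.Tab.C.BA23.c_pm_102 noCut_EA noExt_EA F trivial trivial

theorem BA23_pm_112 {κ x : ℝ} (hκ : κ * h0 = ken x) (hx : ((740881858 : ℕ) : ℝ) / S ≤ x) (hx' : x ≤ (((740881858 : ℕ) : ℝ) + (40050571 : ℕ)) / S) :
    TriA PP.cur (VE (h0 * 0) 3 κ (h0 * x) (eng.v x) (h0 * (1 / 20)) (tnt (h0 * x) (1 / 5)) (tbl tK x) (tbl tL x) (tbl (smT h0⁻¹ tC) x)) 1 1 2 2 3 1 (-1) :=
  (sideB hx hx').bothA (thrB hx hx') (en_pos (hx1 hx).le) (Or.inl rfl) (Or.inr rfl) fun y y' F =>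
    bothA_cert (s1 := true) (s2 := false) rfl hκ (en_pos (hx1 hx).le) (esg_rng (hx1 hx).le (hx2 hx').le).1 (mo_v x) covB21 covB31 hx hx'
        Pool.Agent.Strip051.G.I69_7273.Tab.C.BA23.c_pm_112 noCut_EA noExt_EA F trivial trivial

theorem BA23_pm_113 {κ x : ℝ} (hκ : κ * h0 = ken x) (hx : ((740881858 : ℕ) : ℝ) / S ≤ x) (hx' : x ≤ (((740881858 : ℕ) : ℝ) + (40050571 : ℕ)) / S) :
    TriA PP.cur (VE (h0 * 0) 3 κ (h0 * x) (eng.v x) (h0 * (1 / 20)) (tnt (h0 * x) (1 / 5)) (tbl tK x) (tbl tL x) (tbl (smT h0⁻¹ tC) x)) 1 1 3 2 3 1 (-1) :=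
  (sideB hx hx').bothA (thrB hx hx') (en_pos (hx1 hx).le) (Or.inl rfl) (Or.inr rfl) fun y y' F =>
    bothA_cert (s1 := true) (s2 := false) rfl hκ (en_pos (hx1 hx).le) (esg_rng (hx1 hx).le (hx2 hx').le).1 (mo_v x) covB21 covB31 hx hx'
        Pool.Agent.Strip051.G.I69_7273.Tab.C.BA23.c_pm_113 noCut_EA noExt_EA F trivial trivial

theorem BA23_pm_123 {κ x : ℝ} (hκ : κ * h0 = ken x) (hx : ((740881858 : ℕ) : ℝ) / S ≤ x) (hx' : x ≤ (((740881858 : ℕ) : ℝ) + (40050571 : ℕ)) / S) :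
    TriA PP.cur (VE (h0 * 0) 3 κ (h0 * x) (eng.v x) (h0 * (1 / 20)) (tnt (h0 * x) (1 / 5)) (tbl tK x) (tbl tL x) (tbl (smT h0⁻¹ tC) x)) 1 2 3 2 3 1 (-1) :=
  (sideB hx hx').bothA (thrB hx hx') (en_pos (hx1 hx).le) (Or.inl rfl) (Or.inr rfl) fun y y' F =>
    bothA_cert (s1 := true) (s2 := false) rfl hκ (en_pos (hx1 hx).le) (esg_rng (hx1 hx).le (hx2 hx').le).1 (mo_v x) covB21 covB32 hx hx'
        Pool.Agent.Strip051.G.I69_7273.Tab.C.BA23.c_pm_123 noCut_EA noExt_EA F trivial trivial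

theorem BA23_pm_133 {κ x : ℝ} (hκ : κ * h0 = ken x) (hx : ((740881858 : ℕ) : ℝ) / S ≤ x) (hx' : x ≤ (((740881858 : ℕ) : ℝ) + (40050571 : ℕ)) / S) :
    TriA PP.cur (VE (h0 * 0) 3 κ (h0 * x) (eng.v x) (h0 * (1 / 20)) (tnt (h0 * x) (1 / 5)) (tbl tK x) (tbl tL x) (tbl (smT h0⁻¹ tC) x)) 1 3 3 2 3 1 (-1) :=
  (sideB hx hx').bothA (thrB hx hx') (en_pos (hx1 hx).le) (Or.inl rfl) (Or.inr rfl) fun y y' F =>
    bothA_cert (s1 := true) (s2 := false) rfl hκ (en_pos (hx1 hx).le) (esg_rng (hx1 hx).le (hx2 hx').le).1 (mo_v x) covB21 covB33 hx hx'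
        Pool.Agent.Strip051.G.I69_7273.Tab.C.BA23.c_pm_133 noCut_EA noExt_EA F trivial trivial

theorem BA23_pm_202 {κ x : ℝ} (hκ : κ * h0 = ken x) (hx : ((740881858 : ℕ) : ℝ) / S ≤ x) (hx' : x ≤ (((740881858 : ℕ) : ℝ) + (40050571 : ℕ)) / S) :
    TriA PP.cur (VE (h0 * 0) 3 κ (h0 * x) (eng.v x) (h0 * (1 / 20)) (tnt (h0 * x) (1 / 5)) (tbl tK x) (tbl tL x) (tbl (smT h0⁻¹ tC) x)) 2 0 2 2 3 1 (-1) :=
  (sideB hx hx').bothA (thrB hx hx') (en_pos (hx1 hx).le) (Or.inl rfl) (Or.inr rfl) fun y y' F =>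
    (lt_or_ge (h0 * y) 1).elim
      (fun h => bothA_cert (s1 := true) (s2 := false) rfl hκ (en_pos (hx1 hx).le) (esg_rng (hx1 hx).le (hx2 hx').le).1 (mo_v x) covB22a covB30 hx hx'
        Pool.Agent.Strip051.G.I69_7273.Tab.C.BA23.c_pm_202_a noCut_EA noExt_EA F h trivial)
      (fun h => bothA_cert (s1 := true) (s2 := false) rfl hκ (en_pos (hx1 hx).le) (esg_rng (hx1 hx).le (hx2 hx').le).1 (mo_v x) covB22b covB30 hx hx'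
        Pool.Agent.Strip051.G.I69_7273.Tab.C.BA23.c_pm_202_b noCut_EA noExt_EA F h trivial)

theorem BA23_pm_203 {κ x : ℝ} (hκ : κ * h0 = ken x) (hx : ((740881858 : ℕ) : ℝ) / S ≤ x) (hx' : x ≤ (((740881858 : ℕ) : ℝ) + (40050571 : ℕ)) / S) :
    TriA PP.cur (VE (h0 * 0) 3 κ (h0 * x) (eng.v x) (h0 * (1 / 20)) (tnt (h0 * x) (1 / 5)) (tbl tK x) (tbl tL x) (tbl (smT h0⁻¹ tC) x)) 2 0 3 2 3 1 (-1) :=
  (sideB hx hx').bothA (thrB hx hx') (en_pos (hx1 hx).le) (Or.inl rfl) (Or.inr rfl) fun y y' F =>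
    (lt_or_ge (h0 * y) 1).elim
      (fun h => bothA_cert (s1 := true) (s2 := false) rfl hκ (en_pos (hx1 hx).le) (esg_rng (hx1 hx).le (hx2 hx').le).1 (mo_v x) covB22a covB30 hx hx'
        Pool.Agent.Strip051.G.I69_7273.Tab.C.BA23.c_pm_203_a noCut_EA noExt_EA F h trivial)
      (fun h => bothA_cert (s1 := true) (s2 := false) rfl hκ (en_pos (hx1 hx).le) (esg_rng (hx1 hx).le (hx2 hx').le).1 (mo_v x) covB22b covB30 hx hx'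
        Pool.Agent.Strip051.G.I69_7273.Tab.C.BA23.c_pm_203_b noCut_EA noExt_EA F h trivial)

theorem BA23_pm_213 {κ x : ℝ} (hκ : κ * h0 = ken x) (hx : ((740881858 : ℕ) : ℝ) / S ≤ x) (hx' : x ≤ (((740881858 : ℕ) : ℝ) + (40050571 : ℕ)) / S) :
    TriA PP.cur (VE (h0 * 0) 3 κ (h0 * x) (eng.v x) (h0 * (1 / 20)) (tnt (h0 * x) (1 / 5)) (tbl tK x) (tbl tL x) (tbl (smT h0⁻¹ tC) x)) 2 1 3 2 3 1 (-1) :=
  (sideB hx hx').bothA (thrB hx hx') (en_pos (hx1 hx).le) (Or.inl rfl) (Or.inr rfl) fun y y' F =>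
    (lt_or_ge (h0 * y) 1).elim
      (fun h => bothA_cert (s1 := true) (s2 := false) rfl hκ (en_pos (hx1 hx).le) (esg_rng (hx1 hx).le (hx2 hx').le).1 (mo_v x) covB22a covB31 hx hx'
        Pool.Agent.Strip051.G.I69_7273.Tab.C.BA23.c_pm_213_a noCut_EA noExt_EA F h trivial)
      (fun h => bothA_cert (s1 := true) (s2 := false) rfl hκ (en_pos (hx1 hx).le) (esg_rng (hx1 hx).le (hx2 hx').le).1 (mo_v x) covB22b covB31 hx hx'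
        Pool.Agent.Strip051.G.I69_7273.Tab.C.BA23.c_pm_213_b noCut_EA noExt_EA F h trivial)

theorem BA23_pm_303 {κ x : ℝ} (hκ : κ * h0 = ken x) (hx : ((740881858 : ℕ) : ℝ) / S ≤ x) (hx' : x ≤ (((740881858 : ℕ) : ℝ) + (40050571 : ℕ)) / S) :
    TriA PP.cur (VE (h0 * 0) 3 κ (h0 * x) (eng.v x) (h0 * (1 / 20)) (tnt (h0 * x) (1 / 5)) (tbl tK x) (tbl tL x) (tbl (smT h0⁻¹ tC) x)) 3 0 3 2 3 1 (-1) :=
  (sideB hx hx').bothA (thrB hx hx') (en_pos (hx1 hx).le) (Or.inl rfl) (Or.inr rfl) fun y y' F =>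
    bothA_cert (s1 := true) (s2 := false) rfl hκ (en_pos (hx1 hx).le) (esg_rng (hx1 hx).le (hx2 hx').le).1 (mo_v x) covB23 covB30 hx hx'
        Pool.Agent.Strip051.G.I69_7273.Tab.C.BA23.c_pm_303 noCut_EA noExt_EA F trivial trivial

theorem BA23_pm_313 {κ x : ℝ} (hκ : κ * h0 = ken x) (hx : ((740881858 : ℕ) : ℝ) / S ≤ x) (hx' : x ≤ (((740881858 : ℕ) : ℝ) + (40050571 : ℕ)) / S) :
    TriA PP.cur (VE (h0 * 0) 3 κ (h0 * x) (eng.v x) (h0 * (1 / 20)) (tnt (h0 * x) (1 / 5)) (tbl tK x) (tbl tL x) (tbl (smT h0⁻¹ tC) x)) 3 1 3 2 3 1 (-1) :=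
  (sideB hx hx').bothA (thrB hx hx') (en_pos (hx1 hx).le) (Or.inl rfl) (Or.inr rfl) fun y y' F =>
    bothA_cert (s1 := true) (s2 := false) rfl hκ (en_pos (hx1 hx).le) (esg_rng (hx1 hx).le (hx2 hx').le).1 (mo_v x) covB23 covB31 hx hx'
        Pool.Agent.Strip051.G.I69_7273.Tab.C.BA23.c_pm_313 noCut_EA noExt_EA F trivial trivial

theorem BA23_mm_001 {κ x : ℝ} (hκ : κ * h0 = ken x) (hx : ((740881858 : ℕ) : ℝ) / S ≤ x) (hx' : x ≤ (((740881858 : ℕ) : ℝ) + (40050571 : ℕ)) / S) :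
    TriA PP.cur (VE (h0 * 0) 3 κ (h0 * x) (eng.v x) (h0 * (1 / 20)) (tnt (h0 * x) (1 / 5)) (tbl tK x) (tbl tL x) (tbl (smT h0⁻¹ tC) x)) 0 0 1 2 3 (-1) (-1) :=
  (sideB hx hx').bothA (thrB hx hx') (en_pos (hx1 hx).le) (Or.inr rfl) (Or.inr rfl) fun y y' F =>
    bothA_cert (s1 := false) (s2 := false) rfl hκ (en_pos (hx1 hx).le) (esg_rng (hx1 hx).le (hx2 hx').le).1 (mo_v x) covB20 covB30 hx hx'
        Pool.Agent.Strip051.G.I69_7273.Tab.C.BA23.c_mm_001 noCut_EA noExt_EA F trivial trivial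

theorem BA23_mm_011 {κ x : ℝ} (hκ : κ * h0 = ken x) (hx : ((740881858 : ℕ) : ℝ) / S ≤ x) (hx' : x ≤ (((740881858 : ℕ) : ℝ) + (40050571 : ℕ)) / S) :
    TriA PP.cur (VE (h0 * 0) 3 κ (h0 * x) (eng.v x) (h0 * (1 / 20)) (tnt (h0 * x) (1 / 5)) (tbl tK x) (tbl tL x) (tbl (smT h0⁻¹ tC) x)) 0 1 1 2 3 (-1) (-1) :=
  (sideB hx hx').bothA (thrB hx hx') (en_pos (hx1 hx).le) (Or.inr rfl) (Or.inr rfl) fun y y' F =>
    bothA_cert (s1 := false) (s2 := false) rfl hκ (en_pos (hx1 hx).le) (esg_rng (hx1 hx).le (hx2 hx').le).1 (mo_v x) covB20 covB31 hx hx'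
        Pool.Agent.Strip051.G.I69_7273.Tab.C.BA23.c_mm_011 noCut_EA noExt_EA F trivial trivial

theorem BA23_mm_012 {κ x : ℝ} (hκ : κ * h0 = ken x) (hx : ((740881858 : ℕ) : ℝ) / S ≤ x) (hx' : x ≤ (((740881858 : ℕ) : ℝ) + (40050571 : ℕ)) / S) :
    TriA PP.cur (VE (h0 * 0) 3 κ (h0 * x) (eng.v x) (h0 * (1 / 20)) (tnt (h0 * x) (1 / 5)) (tbl tK x) (tbl tL x) (tbl (smT h0⁻¹ tC) x)) 0 1 2 2 3 (-1) (-1) :=
  (sideB hx hx').bothA (thrB hx hx') (en_pos (hx1 hx).le) (Or.inr rfl) (Or.inr rfl) fun y y' F =>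
    bothA_cert (s1 := false) (s2 := false) rfl hκ (en_pos (hx1 hx).le) (esg_rng (hx1 hx).le (hx2 hx').le).1 (mo_v x) covB20 covB31 hx hx'
        Pool.Agent.Strip051.G.I69_7273.Tab.C.BA23.c_mm_012 noCut_EA noExt_EA F trivial trivial

theorem BA23_mm_022 {κ x : ℝ} (hκ : κ * h0 = ken x) (hx : ((740881858 : ℕ) : ℝ) / S ≤ x) (hx' : x ≤ (((740881858 : ℕ) : ℝ) + (40050571 : ℕ)) / S) :
    TriA PP.cur (VE (h0 * 0) 3 κ (h0 * x) (eng.v x) (h0 * (1 / 20)) (tnt (h0 * x) (1 / 5)) (tbl tK x) (tbl tL x) (tbl (smT h0⁻¹ tC) x)) 0 2 2 2 3 (-1) (-1) :=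
  (sideB hx hx').bothA (thrB hx hx') (en_pos (hx1 hx).le) (Or.inr rfl) (Or.inr rfl) fun y y' F =>
    bothA_cert (s1 := false) (s2 := false) rfl hκ (en_pos (hx1 hx).le) (esg_rng (hx1 hx).le (hx2 hx').le).1 (mo_v x) covB20 covB32 hx hx'
        Pool.Agent.Strip051.G.I69_7273.Tab.C.BA23.c_mm_022 noCut_EA noExt_EA F trivial trivial

theorem BA23_mm_023 {κ x : ℝ} (hκ : κ * h0 = ken x) (hx : ((740881858 : ℕ) : ℝ) / S ≤ x) (hx' : x ≤ (((740881858 : ℕ) : ℝ) + (40050571 : ℕ)) / S) :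
    TriA PP.cur (VE (h0 * 0) 3 κ (h0 * x) (eng.v x) (h0 * (1 / 20)) (tnt (h0 * x) (1 / 5)) (tbl tK x) (tbl tL x) (tbl (smT h0⁻¹ tC) x)) 0 2 3 2 3 (-1) (-1) :=
  (sideB hx hx').bothA (thrB hx hx') (en_pos (hx1 hx).le) (Or.inr rfl) (Or.inr rfl) fun y y' F =>
    bothA_cert (s1 := false) (s2 := false) rfl hκ (en_pos (hx1 hx).le) (esg_rng (hx1 hx).le (hx2 hx').le).1 (mo_v x) covB20 covB32 hx hx'
        Pool.Agent.Strip051.G.I69_7273.Tab.C.BA23.c_mm_023 noCut_EA noExt_EA F trivial trivial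

theorem BA23_mm_033 {κ x : ℝ} (hκ : κ * h0 = ken x) (hx : ((740881858 : ℕ) : ℝ) / S ≤ x) (hx' : x ≤ (((740881858 : ℕ) : ℝ) + (40050571 : ℕ)) / S) :
    TriA PP.cur (VE (h0 * 0) 3 κ (h0 * x) (eng.v x) (h0 * (1 / 20)) (tnt (h0 * x) (1 / 5)) (tbl tK x) (tbl tL x) (tbl (smT h0⁻¹ tC) x)) 0 3 3 2 3 (-1) (-1) :=
  (sideB hx hx').bothA (thrB hx hx') (en_pos (hx1 hx).le) (Or.inr rfl) (Or.inr rfl) fun y y' F =>
    bothA_cert (s1 := false) (s2 := false) rfl hκ (en_pos (hx1 hx).le) (esg_rng (hx1 hx).le (hx2 hx').le).1 (mo_v x) covB20 covB33 hx hx'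
        Pool.Agent.Strip051.G.I69_7273.Tab.C.BA23.c_mm_033 noCut_EA noExt_EA F trivial trivial

theorem BA23_mm_101 {κ x : ℝ} (hκ : κ * h0 = ken x) (hx : ((740881858 : ℕ) : ℝ) / S ≤ x) (hx' : x ≤ (((740881858 : ℕ) : ℝ) + (40050571 : ℕ)) / S) :
    TriA PP.cur (VE (h0 * 0) 3 κ (h0 * x) (eng.v x) (h0 * (1 / 20)) (tnt (h0 * x) (1 / 5)) (tbl tK x) (tbl tL x) (tbl (smT h0⁻¹ tC) x)) 1 0 1 2 3 (-1) (-1) :=
  (sideB hx hx').bothA (thrB hx hx') (en_pos (hx1 hx).le) (Or.inr rfl) (Or.inr rfl) fun y y' F =>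
    bothA_cert (s1 := false) (s2 := false) rfl hκ (en_pos (hx1 hx).le) (esg_rng (hx1 hx).le (hx2 hx').le).1 (mo_v x) covB21 covB30 hx hx'
        Pool.Agent.Strip051.G.I69_7273.Tab.C.BA23.c_mm_101 noCut_EA noExt_EA F trivial trivial

theorem BA23_mm_102 {κ x : ℝ} (hκ : κ * h0 = ken x) (hx : ((740881858 : ℕ) : ℝ) / S ≤ x) (hx' : x ≤ (((740881858 : ℕ) : ℝ) + (40050571 : ℕ)) / S) :
    TriA PP.cur (VE (h0 * 0) 3 κ (h0 * x) (eng.v x) (h0 * (1 / 20)) (tnt (h0 * x) (1 / 5)) (tbl tK x) (tbl tL x) (tbl (smT h0⁻¹ tC) x)) 1 0 2 2 3 (-1) (-1) :=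
  (sideB hx hx').bothA (thrB hx hx') (en_pos (hx1 hx).le) (Or.inr rfl) (Or.inr rfl) fun y y' F =>
    bothA_cert (s1 := false) (s2 := false) rfl hκ (en_pos (hx1 hx).le) (esg_rng (hx1 hx).le (hx2 hx').le).1 (mo_v x) covB21 covB30 hx hx'
        Pool.Agent.Strip051.G.I69_7273.Tab.C.BA23.c_mm_102 noCut_EA noExt_EA F trivial trivial

theorem BA23_mm_112 {κ x : ℝ} (hκ : κ * h0 = ken x) (hx : ((740881858 : ℕ) : ℝ) / S ≤ x) (hx' : x ≤ (((740881858 : ℕ) : ℝ) + (40050571 : ℕ)) / S) :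
    TriA PP.cur (VE (h0 * 0) 3 κ (h0 * x) (eng.v x) (h0 * (1 / 20)) (tnt (h0 * x) (1 / 5)) (tbl tK x) (tbl tL x) (tbl (smT h0⁻¹ tC) x)) 1 1 2 2 3 (-1) (-1) :=
  (sideB hx hx').bothA (thrB hx hx') (en_pos (hx1 hx).le) (Or.inr rfl) (Or.inr rfl) fun y y' F =>
    bothA_cert (s1 := false) (s2 := false) rfl hκ (en_pos (hx1 hx).le) (esg_rng (hx1 hx).le (hx2 hx').le).1 (mo_v x) covB21 covB31 hx hx'
        Pool.Agent.Strip051.G.I69_7273.Tab.C.BA23.c_mm_112 noCut_EA noExt_EA F trivial trivial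

theorem BA23_mm_113 {κ x : ℝ} (hκ : κ * h0 = ken x) (hx : ((740881858 : ℕ) : ℝ) / S ≤ x) (hx' : x ≤ (((740881858 : ℕ) : ℝ) + (40050571 : ℕ)) / S) :
    TriA PP.cur (VE (h0 * 0) 3 κ (h0 * x) (eng.v x) (h0 * (1 / 20)) (tnt (h0 * x) (1 / 5)) (tbl tK x) (tbl tL x) (tbl (smT h0⁻¹ tC) x)) 1 1 3 2 3 (-1) (-1) :=
  (sideB hx hx').bothA (thrB hx hx') (en_pos (hx1 hx).le) (Or.inr rfl) (Or.inr rfl) fun y y' F =>
    bothA_cert (s1 := false) (s2 := false) rfl hκ (en_pos (hx1 hx).le) (esg_rng (hx1 hx).le (hx2 hx').le).1 (mo_v x) covB21 covB31 hx hx'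
        Pool.Agent.Strip051.G.I69_7273.Tab.C.BA23.c_mm_113 noCut_EA noExt_EA F trivial trivial

theorem BA23_mm_123 {κ x : ℝ} (hκ : κ * h0 = ken x) (hx : ((740881858 : ℕ) : ℝ) / S ≤ x) (hx' : x ≤ (((740881858 : ℕ) : ℝ) + (40050571 : ℕ)) / S) :
    TriA PP.cur (VE (h0 * 0) 3 κ (h0 * x) (eng.v x) (h0 * (1 / 20)) (tnt (h0 * x) (1 / 5)) (tbl tK x) (tbl tL x) (tbl (smT h0⁻¹ tC) x)) 1 2 3 2 3 (-1) (-1) :=
  (sideB hx hx').bothA (thrB hx hx') (en_pos (hx1 hx).le) (Or.inr rfl) (Or.inr rfl) fun y y' F =>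
    bothA_cert (s1 := false) (s2 := false) rfl hκ (en_pos (hx1 hx).le) (esg_rng (hx1 hx).le (hx2 hx').le).1 (mo_v x) covB21 covB32 hx hx'
        Pool.Agent.Strip051.G.I69_7273.Tab.C.BA23.c_mm_123 noCut_EA noExt_EA F trivial trivial

theorem BA23_mm_133 {κ x : ℝ} (hκ : κ * h0 = ken x) (hx : ((740881858 : ℕ) : ℝ) / S ≤ x) (hx' : x ≤ (((740881858 : ℕ) : ℝ) + (40050571 : ℕ)) / S) :
    TriA PP.cur (VE (h0 * 0) 3 κ (h0 * x) (eng.v x) (h0 * (1 / 20)) (tnt (h0 * x) (1 / 5)) (tbl tK x) (tbl tL x) (tbl (smT h0⁻¹ tC) x)) 1 3 3 2 3 (-1) (-1) :=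
  (sideB hx hx').bothA (thrB hx hx') (en_pos (hx1 hx).le) (Or.inr rfl) (Or.inr rfl) fun y y' F =>
    bothA_cert (s1 := false) (s2 := false) rfl hκ (en_pos (hx1 hx).le) (esg_rng (hx1 hx).le (hx2 hx').le).1 (mo_v x) covB21 covB33 hx hx'
        Pool.Agent.Strip051.G.I69_7273.Tab.C.BA23.c_mm_133 noCut_EA noExt_EA F trivial trivial

theorem BA23_mm_202 {κ x : ℝ} (hκ : κ * h0 = ken x) (hx : ((740881858 : ℕ) : ℝ) / S ≤ x) (hx' : x ≤ (((740881858 : ℕ) : ℝ) + (40050571 : ℕ)) / S) :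
    TriA PP.cur (VE (h0 * 0) 3 κ (h0 * x) (eng.v x) (h0 * (1 / 20)) (tnt (h0 * x) (1 / 5)) (tbl tK x) (tbl tL x) (tbl (smT h0⁻¹ tC) x)) 2 0 2 2 3 (-1) (-1) :=
  (sideB hx hx').bothA (thrB hx hx') (en_pos (hx1 hx).le) (Or.inr rfl) (Or.inr rfl) fun y y' F =>
    (lt_or_ge (h0 * y) 1).elim
      (fun h => bothA_cert (s1 := false) (s2 := false) rfl hκ (en_pos (hx1 hx).le) (esg_rng (hx1 hx).le (hx2 hx').le).1 (mo_v x) covB22a covB30 hx hx'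
        Pool.Agent.Strip051.G.I69_7273.Tab.C.BA23.c_mm_202_a noCut_EA noExt_EA F h trivial)
      (fun h => bothA_cert (s1 := false) (s2 := false) rfl hκ (en_pos (hx1 hx).le) (esg_rng (hx1 hx).le (hx2 hx').le).1 (mo_v x) covB22b covB30 hx hx'
        Pool.Agent.Strip051.G.I69_7273.Tab.C.BA23.c_mm_202_b noCut_EA noExt_EA F h trivial)

theorem BA23_mm_203 {κ x : ℝ} (hκ : κ * h0 = ken x) (hx : ((740881858 : ℕ) : ℝ) / S ≤ x) (hx' : x ≤ (((740881858 : ℕ) : ℝ) + (40050571 : ℕ)) / S) :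
    TriA PP.cur (VE (h0 * 0) 3 κ (h0 * x) (eng.v x) (h0 * (1 / 20)) (tnt (h0 * x) (1 / 5)) (tbl tK x) (tbl tL x) (tbl (smT h0⁻¹ tC) x)) 2 0 3 2 3 (-1) (-1) :=
  (sideB hx hx').bothA (thrB hx hx') (en_pos (hx1 hx).le) (Or.inr rfl) (Or.inr rfl) fun y y' F =>
    (lt_or_ge (h0 * y) 1).elim
      (fun h => bothA_cert (s1 := false) (s2 := false) rfl hκ (en_pos (hx1 hx).le) (esg_rng (hx1 hx).le (hx2 hx').le).1 (mo_v x) covB22a covB30 hx hx'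
        Pool.Agent.Strip051.G.I69_7273.Tab.C.BA23.c_mm_203_a noCut_EA noExt_EA F h trivial)
      (fun h => bothA_cert (s1 := false) (s2 := false) rfl hκ (en_pos (hx1 hx).le) (esg_rng (hx1 hx).le (hx2 hx').le).1 (mo_v x) covB22b covB30 hx hx'
        Pool.Agent.Strip051.G.I69_7273.Tab.C.BA23.c_mm_203_b noCut_EA noExt_EA F h trivial)

theorem BA23_mm_213 {κ x : ℝ} (hκ : κ * h0 = ken x) (hx : ((740881858 : ℕ) : ℝ) / S ≤ x) (hx' : x ≤ (((740881858 : ℕ) : ℝ) + (40050571 : ℕ)) / S) :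
    TriA PP.cur (VE (h0 * 0) 3 κ (h0 * x) (eng.v x) (h0 * (1 / 20)) (tnt (h0 * x) (1 / 5)) (tbl tK x) (tbl tL x) (tbl (smT h0⁻¹ tC) x)) 2 1 3 2 3 (-1) (-1) :=
  (sideB hx hx').bothA (thrB hx hx') (en_pos (hx1 hx).le) (Or.inr rfl) (Or.inr rfl) fun y y' F =>
    (lt_or_ge (h0 * y) 1).elim
      (fun h => bothA_cert (s1 := false) (s2 := false) rfl hκ (en_pos (hx1 hx).le) (esg_rng (hx1 hx).le (hx2 hx').le).1 (mo_v x) covB22a covB31 hx hx'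
        Pool.Agent.Strip051.G.I69_7273.Tab.C.BA23.c_mm_213_a noCut_EA noExt_EA F h trivial)
      (fun h => bothA_cert (s1 := false) (s2 := false) rfl hκ (en_pos (hx1 hx).le) (esg_rng (hx1 hx).le (hx2 hx').le).1 (mo_v x) covB22b covB31 hx hx'
        Pool.Agent.Strip051.G.I69_7273.Tab.C.BA23.c_mm_213_b noCut_EA noExt_EA F h trivial)

theorem BA23_mm_303 {κ x : ℝ} (hκ : κ * h0 = ken x) (hx : ((740881858 : ℕ) : ℝ) / S ≤ x) (hx' : x ≤ (((740881858 : ℕ) : ℝ) + (40050571 : ℕ)) / S) :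
    TriA PP.cur (VE (h0 * 0) 3 κ (h0 * x) (eng.v x) (h0 * (1 / 20)) (tnt (h0 * x) (1 / 5)) (tbl tK x) (tbl tL x) (tbl (smT h0⁻¹ tC) x)) 3 0 3 2 3 (-1) (-1) :=
  (sideB hx hx').bothA (thrB hx hx') (en_pos (hx1 hx).le) (Or.inr rfl) (Or.inr rfl) fun y y' F =>
    bothA_cert (s1 := false) (s2 := false) rfl hκ (en_pos (hx1 hx).le) (esg_rng (hx1 hx).le (hx2 hx').le).1 (mo_v x) covB23 covB30 hx hx'
        Pool.Agent.Strip051.G.I69_7273.Tab.C.BA23.c_mm_303 noCut_EA noExt_EA F trivial trivial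

theorem BA23_mm_313 {κ x : ℝ} (hκ : κ * h0 = ken x) (hx : ((740881858 : ℕ) : ℝ) / S ≤ x) (hx' : x ≤ (((740881858 : ℕ) : ℝ) + (40050571 : ℕ)) / S) :
    TriA PP.cur (VE (h0 * 0) 3 κ (h0 * x) (eng.v x) (h0 * (1 / 20)) (tnt (h0 * x) (1 / 5)) (tbl tK x) (tbl tL x) (tbl (smT h0⁻¹ tC) x)) 3 1 3 2 3 (-1) (-1) :=
  (sideB hx hx').bothA (thrB hx hx') (en_pos (hx1 hx).le) (Or.inr rfl) (Or.inr rfl) fun y y' F =>
    bothA_cert (s1 := false) (s2 := false) rfl hκ (en_pos (hx1 hx).le) (esg_rng (hx1 hx).le (hx2 hx').le).1 (mo_v x) covB23 covB31 hx hx'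
        Pool.Agent.Strip051.G.I69_7273.Tab.C.BA23.c_mm_313 noCut_EA noExt_EA F trivial trivial

theorem BA23 {κ x : ℝ} (hκ : κ * h0 = ken x) (hx : ((740881858 : ℕ) : ℝ) / S ≤ x) (hx' : x ≤ (((740881858 : ℕ) : ℝ) + (40050571 : ℕ)) / S) : AllTA PP.cur (VE (h0 * 0) 3 κ (h0 * x) (eng.v x) (h0 * (1 / 20)) (tnt (h0 * x) (1 / 5)) (tbl tK x) (tbl tL x) (tbl (smT h0⁻¹ tC) x)) 2 3 where
  pp := all17 (Q := fun a b c => TriA PP.cur (VE (h0 * 0) 3 κ (h0 * x) (eng.v x) (h0 * (1 / 20)) (tnt (h0 * x) (1 / 5)) (tbl tK x) (tbl tL x) (tbl (smT h0⁻¹ tC) x)) a b c 2 3 1 1)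
    (BA23_pp_001 hκ hx hx') (BA23_pp_011 hκ hx hx') (BA23_pp_012 hκ hx hx') (BA23_pp_022 hκ hx hx') (BA23_pp_023 hκ hx hx') (BA23_pp_033 hκ hx hx') (BA23_pp_101 hκ hx hx') (BA23_pp_102 hκ hx hx') (BA23_pp_112 hκ hx hx') (BA23_pp_113 hκ hx hx') (BA23_pp_123 hκ hx hx') (BA23_pp_133 hκ hx hx') (BA23_pp_202 hκ hx hx') (BA23_pp_203 hκ hx hx') (BA23_pp_213 hκ hx hx') (BA23_pp_303 hκ hx hx') (BA23_pp_313 hκ hx hx')
  pm := all17 (Q := fun a b c => TriA PP.cur (VE (h0 * 0) 3 κ (h0 * x) (eng.v x) (h0 * (1 / 20)) (tnt (h0 * x) (1 / 5)) (tbl tK x) (tbl tL x) (tbl (smT h0⁻¹ tC) x)) a b c 2 3 1 (-1))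
    (BA23_pm_001 hκ hx hx') (BA23_pm_011 hκ hx hx') (BA23_pm_012 hκ hx hx') (BA23_pm_022 hκ hx hx') (BA23_pm_023 hκ hx hx') (BA23_pm_033 hκ hx hx') (BA23_pm_101 hκ hx hx') (BA23_pm_102 hκ hx hx') (BA23_pm_112 hκ hx hx') (BA23_pm_113 hκ hx hx') (BA23_pm_123 hκ hx hx') (BA23_pm_133 hκ hx hx') (BA23_pm_202 hκ hx hx') (BA23_pm_203 hκ hx hx') (BA23_pm_213 hκ hx hx') (BA23_pm_303 hκ hx hx') (BA23_pm_313 hκ hx hx')
  mm := all17 (Q := fun a b c => TriA PP.cur (VE (h0 * 0) 3 κ (h0 * x) (eng.v x) (h0 * (1 / 20)) (tnt (h0 * x) (1 / 5)) (tbl tK x) (tbl tL x) (tbl (smT h0⁻¹ tC) x)) a b c 2 3 (-1) (-1))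
    (BA23_mm_001 hκ hx hx') (BA23_mm_011 hκ hx hx') (BA23_mm_012 hκ hx hx') (BA23_mm_022 hκ hx hx') (BA23_mm_023 hκ hx hx') (BA23_mm_033 hκ hx hx') (BA23_mm_101 hκ hx hx') (BA23_mm_102 hκ hx hx') (BA23_mm_112 hκ hx hx') (BA23_mm_113 hκ hx hx') (BA23_mm_123 hκ hx hx') (BA23_mm_133 hκ hx hx') (BA23_mm_202 hκ hx hx') (BA23_mm_203 hκ hx hx') (BA23_mm_213 hκ hx hx') (BA23_mm_303 hκ hx hx') (BA23_mm_313 hκ hx hx')

theorem BA24_pp_001 {κ x : ℝ} (hκ : κ * h0 = ken x) (hx : ((740881858 : ℕ) : ℝ) / S ≤ x) (hx' : x ≤ (((740881858 : ℕ) : ℝ) + (40050571 : ℕ)) / S) :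
    TriA PP.cur (VE (h0 * 0) 3 κ (h0 * x) (eng.v x) (h0 * (1 / 20)) (tnt (h0 * x) (1 / 5)) (tbl tK x) (tbl tL x) (tbl (smT h0⁻¹ tC) x)) 0 0 1 2 4 1 1 :=
  (sideB hx hx').bothA (thrB hx hx') (en_pos (hx1 hx).le) (Or.inl rfl) (Or.inl rfl) fun y y' F =>
    bothA_cert (s1 := true) (s2 := true) rfl hκ (en_pos (hx1 hx).le) (esg_rng (hx1 hx).le (hx2 hx').le).1 (mo_v x) covB20 covB40 hx hx'
        Pool.Agent.Strip051.G.I69_7273.Tab.C.BA24.c_pp_001 noCut_EA noExt_EA F trivial trivial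

theorem BA24_pp_011 {κ x : ℝ} (hκ : κ * h0 = ken x) (hx : ((740881858 : ℕ) : ℝ) / S ≤ x) (hx' : x ≤ (((740881858 : ℕ) : ℝ) + (40050571 : ℕ)) / S) :
    TriA PP.cur (VE (h0 * 0) 3 κ (h0 * x) (eng.v x) (h0 * (1 / 20)) (tnt (h0 * x) (1 / 5)) (tbl tK x) (tbl tL x) (tbl (smT h0⁻¹ tC) x)) 0 1 1 2 4 1 1 :=
  (sideB hx hx').bothA (thrB hx hx') (en_pos (hx1 hx).le) (Or.inl rfl) (Or.inl rfl) fun y y' F =>
    bothA_cert (s1 := true) (s2 := true) rfl hκ (en_pos (hx1 hx).le) (esg_rng (hx1 hx).le (hx2 hx').le).1 (mo_v x) covB20 covB41 hx hx'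
        Pool.Agent.Strip051.G.I69_7273.Tab.C.BA24.c_pp_011 noCut_EA noExt_EA F trivial trivial

theorem BA24_pp_012 {κ x : ℝ} (hκ : κ * h0 = ken x) (hx : ((740881858 : ℕ) : ℝ) / S ≤ x) (hx' : x ≤ (((740881858 : ℕ) : ℝ) + (40050571 : ℕ)) / S) :
    TriA PP.cur (VE (h0 * 0) 3 κ (h0 * x) (eng.v x) (h0 * (1 / 20)) (tnt (h0 * x) (1 / 5)) (tbl tK x) (tbl tL x) (tbl (smT h0⁻¹ tC) x)) 0 1 2 2 4 1 1 :=
  (sideB hx hx').bothA (thrB hx hx') (en_pos (hx1 hx).le) (Or.inl rfl) (Or.inl rfl) fun y y' F =>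
    bothA_cert (s1 := true) (s2 := true) rfl hκ (en_pos (hx1 hx).le) (esg_rng (hx1 hx).le (hx2 hx').le).1 (mo_v x) covB20 covB41 hx hx'
        Pool.Agent.Strip051.G.I69_7273.Tab.C.BA24.c_pp_012 noCut_EA noExt_EA F trivial trivial

theorem BA24_pp_022 {κ x : ℝ} (hκ : κ * h0 = ken x) (hx : ((740881858 : ℕ) : ℝ) / S ≤ x) (hx' : x ≤ (((740881858 : ℕ) : ℝ) + (40050571 : ℕ)) / S) :
    TriA PP.cur (VE (h0 * 0) 3 κ (h0 * x) (eng.v x) (h0 * (1 / 20)) (tnt (h0 * x) (1 / 5)) (tbl tK x) (tbl tL x) (tbl (smT h0⁻¹ tC) x)) 0 2 2 2 4 1 1 :=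
  (sideB hx hx').bothA (thrB hx hx') (en_pos (hx1 hx).le) (Or.inl rfl) (Or.inl rfl) fun y y' F =>
    bothA_cert (s1 := true) (s2 := true) rfl hκ (en_pos (hx1 hx).le) (esg_rng (hx1 hx).le (hx2 hx').le).1 (mo_v x) covB20 covB42 hx hx'
        Pool.Agent.Strip051.G.I69_7273.Tab.C.BA24.c_pp_022 noCut_EA noExt_EA F trivial trivial

theorem BA24_pp_023 {κ x : ℝ} (hκ : κ * h0 = ken x) (hx : ((740881858 : ℕ) : ℝ) / S ≤ x) (hx' : x ≤ (((740881858 : ℕ) : ℝ) + (40050571 : ℕ)) / S) :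
    TriA PP.cur (VE (h0 * 0) 3 κ (h0 * x) (eng.v x) (h0 * (1 / 20)) (tnt (h0 * x) (1 / 5)) (tbl tK x) (tbl tL x) (tbl (smT h0⁻¹ tC) x)) 0 2 3 2 4 1 1 :=
  (sideB hx hx').bothA (thrB hx hx') (en_pos (hx1 hx).le) (Or.inl rfl) (Or.inl rfl) fun y y' F =>
    bothA_cert (s1 := true) (s2 := true) rfl hκ (en_pos (hx1 hx).le) (esg_rng (hx1 hx).le (hx2 hx').le).1 (mo_v x) covB20 covB42 hx hx'
        Pool.Agent.Strip051.G.I69_7273.Tab.C.BA24.c_pp_023 noCut_EA noExt_EA F trivial trivial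

theorem BA24_pp_033 {κ x : ℝ} (hκ : κ * h0 = ken x) (hx : ((740881858 : ℕ) : ℝ) / S ≤ x) (hx' : x ≤ (((740881858 : ℕ) : ℝ) + (40050571 : ℕ)) / S) :
    TriA PP.cur (VE (h0 * 0) 3 κ (h0 * x) (eng.v x) (h0 * (1 / 20)) (tnt (h0 * x) (1 / 5)) (tbl tK x) (tbl tL x) (tbl (smT h0⁻¹ tC) x)) 0 3 3 2 4 1 1 :=
  (sideB hx hx').bothA (thrB hx hx') (en_pos (hx1 hx).le) (Or.inl rfl) (Or.inl rfl) fun y y' F =>
    bothA_cert (s1 := true) (s2 := true) rfl hκ (en_pos (hx1 hx).le) (esg_rng (hx1 hx).le (hx2 hx').le).1 (mo_v x) covB20 covB43 hx hx'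
        Pool.Agent.Strip051.G.I69_7273.Tab.C.BA24.c_pp_033 noCut_EA noExt_EA F trivial trivial

theorem BA24_pp_101 {κ x : ℝ} (hκ : κ * h0 = ken x) (hx : ((740881858 : ℕ) : ℝ) / S ≤ x) (hx' : x ≤ (((740881858 : ℕ) : ℝ) + (40050571 : ℕ)) / S) :
    TriA PP.cur (VE (h0 * 0) 3 κ (h0 * x) (eng.v x) (h0 * (1 / 20)) (tnt (h0 * x) (1 / 5)) (tbl tK x) (tbl tL x) (tbl (smT h0⁻¹ tC) x)) 1 0 1 2 4 1 1 :=
  (sideB hx hx').bothA (thrB hx hx') (en_pos (hx1 hx).le) (Or.inl rfl) (Or.inl rfl) fun y y' F =>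
    bothA_cert (s1 := true) (s2 := true) rfl hκ (en_pos (hx1 hx).le) (esg_rng (hx1 hx).le (hx2 hx').le).1 (mo_v x) covB21 covB40 hx hx'
        Pool.Agent.Strip051.G.I69_7273.Tab.C.BA24.c_pp_101 noCut_EA noExt_EA F trivial trivial

theorem BA24_pp_102 {κ x : ℝ} (hκ : κ * h0 = ken x) (hx : ((740881858 : ℕ) : ℝ) / S ≤ x) (hx' : x ≤ (((740881858 : ℕ) : ℝ) + (40050571 : ℕ)) / S) :
    TriA PP.cur (VE (h0 * 0) 3 κ (h0 * x) (eng.v x) (h0 * (1 / 20)) (tnt (h0 * x) (1 / 5)) (tbl tK x) (tbl tL x) (tbl (smT h0⁻¹ tC) x)) 1 0 2 2 4 1 1 :=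
  (sideB hx hx').bothA (thrB hx hx') (en_pos (hx1 hx).le) (Or.inl rfl) (Or.inl rfl) fun y y' F =>
    bothA_cert (s1 := true) (s2 := true) rfl hκ (en_pos (hx1 hx).le) (esg_rng (hx1 hx).le (hx2 hx').le).1 (mo_v x) covB21 covB40 hx hx'
        Pool.Agent.Strip051.G.I69_7273.Tab.C.BA24.c_pp_102 noCut_EA noExt_EA F trivial trivial

theorem BA24_pp_112 {κ x : ℝ} (hκ : κ * h0 = ken x) (hx : ((740881858 : ℕ) : ℝ) / S ≤ x) (hx' : x ≤ (((740881858 : ℕ) : ℝ) + (40050571 : ℕ)) / S) :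
    TriA PP.cur (VE (h0 * 0) 3 κ (h0 * x) (eng.v x) (h0 * (1 / 20)) (tnt (h0 * x) (1 / 5)) (tbl tK x) (tbl tL x) (tbl (smT h0⁻¹ tC) x)) 1 1 2 2 4 1 1 :=
  (sideB hx hx').bothA (thrB hx hx') (en_pos (hx1 hx).le) (Or.inl rfl) (Or.inl rfl) fun y y' F =>
    bothA_cert (s1 := true) (s2 := true) rfl hκ (en_pos (hx1 hx).le) (esg_rng (hx1 hx).le (hx2 hx').le).1 (mo_v x) covB21 covB41 hx hx'
        Pool.Agent.Strip051.G.I69_7273.Tab.C.BA24.c_pp_112 noCut_EA noExt_EA F trivial trivial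

theorem BA24_pp_113 {κ x : ℝ} (hκ : κ * h0 = ken x) (hx : ((740881858 : ℕ) : ℝ) / S ≤ x) (hx' : x ≤ (((740881858 : ℕ) : ℝ) + (40050571 : ℕ)) / S) :
    TriA PP.cur (VE (h0 * 0) 3 κ (h0 * x) (eng.v x) (h0 * (1 / 20)) (tnt (h0 * x) (1 / 5)) (tbl tK x) (tbl tL x) (tbl (smT h0⁻¹ tC) x)) 1 1 3 2 4 1 1 :=
  (sideB hx hx').bothA (thrB hx hx') (en_pos (hx1 hx).le) (Or.inl rfl) (Or.inl rfl) fun y y' F =>
    bothA_cert (s1 := true) (s2 := true) rfl hκ (en_pos (hx1 hx).le) (esg_rng (hx1 hx).le (hx2 hx').le).1 (mo_v x) covB21 covB41 hx hx'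
        Pool.Agent.Strip051.G.I69_7273.Tab.C.BA24.c_pp_113 noCut_EA noExt_EA F trivial trivial

theorem BA24_pp_123 {κ x : ℝ} (hκ : κ * h0 = ken x) (hx : ((740881858 : ℕ) : ℝ) / S ≤ x) (hx' : x ≤ (((740881858 : ℕ) : ℝ) + (40050571 : ℕ)) / S) :
    TriA PP.cur (VE (h0 * 0) 3 κ (h0 * x) (eng.v x) (h0 * (1 / 20)) (tnt (h0 * x) (1 / 5)) (tbl tK x) (tbl tL x) (tbl (smT h0⁻¹ tC) x)) 1 2 3 2 4 1 1 :=
  (sideB hx hx').bothA (thrB hx hx') (en_pos (hx1 hx).le) (Or.inl rfl) (Or.inl rfl) fun y y' F =>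
    bothA_cert (s1 := true) (s2 := true) rfl hκ (en_pos (hx1 hx).le) (esg_rng (hx1 hx).le (hx2 hx').le).1 (mo_v x) covB21 covB42 hx hx'
        Pool.Agent.Strip051.G.I69_7273.Tab.C.BA24.c_pp_123 noCut_EA noExt_EA F trivial trivial

theorem BA24_pp_133 {κ x : ℝ} (hκ : κ * h0 = ken x) (hx : ((740881858 : ℕ) : ℝ) / S ≤ x) (hx' : x ≤ (((740881858 : ℕ) : ℝ) + (40050571 : ℕ)) / S) :
    TriA PP.cur (VE (h0 * 0) 3 κ (h0 * x) (eng.v x) (h0 * (1 / 20)) (tnt (h0 * x) (1 / 5)) (tbl tK x) (tbl tL x) (tbl (smT h0⁻¹ tC) x)) 1 3 3 2 4 1 1 :=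
  (sideB hx hx').bothA (thrB hx hx') (en_pos (hx1 hx).le) (Or.inl rfl) (Or.inl rfl) fun y y' F =>
    bothA_cert (s1 := true) (s2 := true) rfl hκ (en_pos (hx1 hx).le) (esg_rng (hx1 hx).le (hx2 hx').le).1 (mo_v x) covB21 covB43 hx hx'
        Pool.Agent.Strip051.G.I69_7273.Tab.C.BA24.c_pp_133 noCut_EA noExt_EA F trivial trivial

theorem BA24_pp_202 {κ x : ℝ} (hκ : κ * h0 = ken x) (hx : ((740881858 : ℕ) : ℝ) / S ≤ x) (hx' : x ≤ (((740881858 : ℕ) : ℝ) + (40050571 : ℕ)) / S) :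
    TriA PP.cur (VE (h0 * 0) 3 κ (h0 * x) (eng.v x) (h0 * (1 / 20)) (tnt (h0 * x) (1 / 5)) (tbl tK x) (tbl tL x) (tbl (smT h0⁻¹ tC) x)) 2 0 2 2 4 1 1 :=
  (sideB hx hx').bothA (thrB hx hx') (en_pos (hx1 hx).le) (Or.inl rfl) (Or.inl rfl) fun y y' F =>
    (lt_or_ge (h0 * y) 1).elim
      (fun h => bothA_cert (s1 := true) (s2 := true) rfl hκ (en_pos (hx1 hx).le) (esg_rng (hx1 hx).le (hx2 hx').le).1 (mo_v x) covB22a covB40 hx hx'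
        Pool.Agent.Strip051.G.I69_7273.Tab.C.BA24.c_pp_202_a noCut_EA noExt_EA F h trivial)
      (fun h => bothA_cert (s1 := true) (s2 := true) rfl hκ (en_pos (hx1 hx).le) (esg_rng (hx1 hx).le (hx2 hx').le).1 (mo_v x) covB22b covB40 hx hx'
        Pool.Agent.Strip051.G.I69_7273.Tab.C.BA24.c_pp_202_b noCut_EA noExt_EA F h trivial)

theorem BA24_pp_203 {κ x : ℝ} (hκ : κ * h0 = ken x) (hx : ((740881858 : ℕ) : ℝ) / S ≤ x) (hx' : x ≤ (((740881858 : ℕ) : ℝ) + (40050571 : ℕ)) / S) :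
    TriA PP.cur (VE (h0 * 0) 3 κ (h0 * x) (eng.v x) (h0 * (1 / 20)) (tnt (h0 * x) (1 / 5)) (tbl tK x) (tbl tL x) (tbl (smT h0⁻¹ tC) x)) 2 0 3 2 4 1 1 :=
  (sideB hx hx').bothA (thrB hx hx') (en_pos (hx1 hx).le) (Or.inl rfl) (Or.inl rfl) fun y y' F =>
    (lt_or_ge (h0 * y) 1).elim
      (fun h => bothA_cert (s1 := true) (s2 := true) rfl hκ (en_pos (hx1 hx).le) (esg_rng (hx1 hx).le (hx2 hx').le).1 (mo_v x) covB22a covB40 hx hx'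
        Pool.Agent.Strip051.G.I69_7273.Tab.C.BA24.c_pp_203_a noCut_EA noExt_EA F h trivial)
      (fun h => bothA_cert (s1 := true) (s2 := true) rfl hκ (en_pos (hx1 hx).le) (esg_rng (hx1 hx).le (hx2 hx').le).1 (mo_v x) covB22b covB40 hx hx'
        Pool.Agent.Strip051.G.I69_7273.Tab.C.BA24.c_pp_203_b noCut_EA noExt_EA F h trivial)

theorem BA24_pp_213 {κ x : ℝ} (hκ : κ * h0 = ken x) (hx : ((740881858 : ℕ) : ℝ) / S ≤ x) (hx' : x ≤ (((740881858 : ℕ) : ℝ) + (40050571 : ℕ)) / S) :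
    TriA PP.cur (VE (h0 * 0) 3 κ (h0 * x) (eng.v x) (h0 * (1 / 20)) (tnt (h0 * x) (1 / 5)) (tbl tK x) (tbl tL x) (tbl (smT h0⁻¹ tC) x)) 2 1 3 2 4 1 1 :=
  (sideB hx hx').bothA (thrB hx hx') (en_pos (hx1 hx).le) (Or.inl rfl) (Or.inl rfl) fun y y' F =>
    (lt_or_ge (h0 * y) 1).elim
      (fun h => bothA_cert (s1 := true) (s2 := true) rfl hκ (en_pos (hx1 hx).le) (esg_rng (hx1 hx).le (hx2 hx').le).1 (mo_v x) covB22a covB41 hx hx'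
        Pool.Agent.Strip051.G.I69_7273.Tab.C.BA24.c_pp_213_a noCut_EA noExt_EA F h trivial)
      (fun h => bothA_cert (s1 := true) (s2 := true) rfl hκ (en_pos (hx1 hx).le) (esg_rng (hx1 hx).le (hx2 hx').le).1 (mo_v x) covB22b covB41 hx hx'
        Pool.Agent.Strip051.G.I69_7273.Tab.C.BA24.c_pp_213_b noCut_EA noExt_EA F h trivial)

theorem BA24_pp_303 {κ x : ℝ} (hκ : κ * h0 = ken x) (hx : ((740881858 : ℕ) : ℝ) / S ≤ x) (hx' : x ≤ (((740881858 : ℕ) : ℝ) + (40050571 : ℕ)) / S) :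
    TriA PP.cur (VE (h0 * 0) 3 κ (h0 * x) (eng.v x) (h0 * (1 / 20)) (tnt (h0 * x) (1 / 5)) (tbl tK x) (tbl tL x) (tbl (smT h0⁻¹ tC) x)) 3 0 3 2 4 1 1 :=
  (sideB hx hx').bothA (thrB hx hx') (en_pos (hx1 hx).le) (Or.inl rfl) (Or.inl rfl) fun y y' F =>
    bothA_cert (s1 := true) (s2 := true) rfl hκ (en_pos (hx1 hx).le) (esg_rng (hx1 hx).le (hx2 hx').le).1 (mo_v x) covB23 covB40 hx hx'
        Pool.Agent.Strip051.G.I69_7273.Tab.C.BA24.c_pp_303 noCut_EA noExt_EA F trivial trivial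

theorem BA24_pp_313 {κ x : ℝ} (hκ : κ * h0 = ken x) (hx : ((740881858 : ℕ) : ℝ) / S ≤ x) (hx' : x ≤ (((740881858 : ℕ) : ℝ) + (40050571 : ℕ)) / S) :
    TriA PP.cur (VE (h0 * 0) 3 κ (h0 * x) (eng.v x) (h0 * (1 / 20)) (tnt (h0 * x) (1 / 5)) (tbl tK x) (tbl tL x) (tbl (smT h0⁻¹ tC) x)) 3 1 3 2 4 1 1 :=
  (sideB hx hx').bothA (thrB hx hx') (en_pos (hx1 hx).le) (Or.inl rfl) (Or.inl rfl) fun y y' F =>
    bothA_cert (s1 := true) (s2 := true) rfl hκ (en_pos (hx1 hx).le) (esg_rng (hx1 hx).le (hx2 hx').le).1 (mo_v x) covB23 covB41 hx hx'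
        Pool.Agent.Strip051.G.I69_7273.Tab.C.BA24.c_pp_313 noCut_EA noExt_EA F trivial trivial

theorem BA24_pm_001 {κ x : ℝ} (hκ : κ * h0 = ken x) (hx : ((740881858 : ℕ) : ℝ) / S ≤ x) (hx' : x ≤ (((740881858 : ℕ) : ℝ) + (40050571 : ℕ)) / S) :
    TriA PP.cur (VE (h0 * 0) 3 κ (h0 * x) (eng.v x) (h0 * (1 / 20)) (tnt (h0 * x) (1 / 5)) (tbl tK x) (tbl tL x) (tbl (smT h0⁻¹ tC) x)) 0 0 1 2 4 1 (-1) :=
  (sideB hx hx').bothA (thrB hx hx') (en_pos (hx1 hx).le) (Or.inl rfl) (Or.inr rfl) fun y y' F =>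
    bothA_cert (s1 := true) (s2 := false) rfl hκ (en_pos (hx1 hx).le) (esg_rng (hx1 hx).le (hx2 hx').le).1 (mo_v x) covB20 covB40 hx hx'
        Pool.Agent.Strip051.G.I69_7273.Tab.C.BA24.c_pm_001 noCut_EA noExt_EA F trivial trivial

theorem BA24_pm_011 {κ x : ℝ} (hκ : κ * h0 = ken x) (hx : ((740881858 : ℕ) : ℝ) / S ≤ x) (hx' : x ≤ (((740881858 : ℕ) : ℝ) + (40050571 : ℕ)) / S) :
    TriA PP.cur (VE (h0 * 0) 3 κ (h0 * x) (eng.v x) (h0 * (1 / 20)) (tnt (h0 * x) (1 / 5)) (tbl tK x) (tbl tL x) (tbl (smT h0⁻¹ tC) x)) 0 1 1 2 4 1 (-1) :=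
  (sideB hx hx').bothA (thrB hx hx') (en_pos (hx1 hx).le) (Or.inl rfl) (Or.inr rfl) fun y y' F =>
    bothA_cert (s1 := true) (s2 := false) rfl hκ (en_pos (hx1 hx).le) (esg_rng (hx1 hx).le (hx2 hx').le).1 (mo_v x) covB20 covB41 hx hx'
        Pool.Agent.Strip051.G.I69_7273.Tab.C.BA24.c_pm_011 (cutEA_cons (Pool.Agent.Strip051.G.I69_7273.Tab.altB_A011R_24 hκ hx hx') cutEA_nil) noExt_EA F trivial trivial

theorem BA24_pm_012 {κ x : ℝ} (hκ : κ * h0 = ken x) (hx : ((740881858 : ℕ) : ℝ) / S ≤ x) (hx' : x ≤ (((740881858 : ℕ) : ℝ) + (40050571 : ℕ)) / S) :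
    TriA PP.cur (VE (h0 * 0) 3 κ (h0 * x) (eng.v x) (h0 * (1 / 20)) (tnt (h0 * x) (1 / 5)) (tbl tK x) (tbl tL x) (tbl (smT h0⁻¹ tC) x)) 0 1 2 2 4 1 (-1) :=
  (sideB hx hx').bothA (thrB hx hx') (en_pos (hx1 hx).le) (Or.inl rfl) (Or.inr rfl) fun y y' F =>
    bothA_cert (s1 := true) (s2 := false) rfl hκ (en_pos (hx1 hx).le) (esg_rng (hx1 hx).le (hx2 hx').le).1 (mo_v x) covB20 covB41 hx hx'
        Pool.Agent.Strip051.G.I69_7273.Tab.C.BA24.c_pm_012 (cutEA_cons (Pool.Agent.Strip051.G.I69_7273.Tab.altB_A012R_24 hκ hx hx') cutEA_nil) noExt_EA F trivial trivial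

theorem BA24_pm_022 {κ x : ℝ} (hκ : κ * h0 = ken x) (hx : ((740881858 : ℕ) : ℝ) / S ≤ x) (hx' : x ≤ (((740881858 : ℕ) : ℝ) + (40050571 : ℕ)) / S) :
    TriA PP.cur (VE (h0 * 0) 3 κ (h0 * x) (eng.v x) (h0 * (1 / 20)) (tnt (h0 * x) (1 / 5)) (tbl tK x) (tbl tL x) (tbl (smT h0⁻¹ tC) x)) 0 2 2 2 4 1 (-1) :=
  (sideB hx hx').bothA (thrB hx hx') (en_pos (hx1 hx).le) (Or.inl rfl) (Or.inr rfl) fun y y' F =>
    bothA_cert (s1 := true) (s2 := false) rfl hκ (en_pos (hx1 hx).le) (esg_rng (hx1 hx).le (hx2 hx').le).1 (mo_v x) covB20 covB42 hx hx'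
        Pool.Agent.Strip051.G.I69_7273.Tab.C.BA24.c_pm_022 noCut_EA noExt_EA F trivial trivial

theorem BA24_pm_023 {κ x : ℝ} (hκ : κ * h0 = ken x) (hx : ((740881858 : ℕ) : ℝ) / S ≤ x) (hx' : x ≤ (((740881858 : ℕ) : ℝ) + (40050571 : ℕ)) / S) :
    TriA PP.cur (VE (h0 * 0) 3 κ (h0 * x) (eng.v x) (h0 * (1 / 20)) (tnt (h0 * x) (1 / 5)) (tbl tK x) (tbl tL x) (tbl (smT h0⁻¹ tC) x)) 0 2 3 2 4 1 (-1) :=
  (sideB hx hx').bothA (thrB hx hx') (en_pos (hx1 hx).le) (Or.inl rfl) (Or.inr rfl) fun y y' F =>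
    bothA_cert (s1 := true) (s2 := false) rfl hκ (en_pos (hx1 hx).le) (esg_rng (hx1 hx).le (hx2 hx').le).1 (mo_v x) covB20 covB42 hx hx'
        Pool.Agent.Strip051.G.I69_7273.Tab.C.BA24.c_pm_023 noCut_EA noExt_EA F trivial trivial

theorem BA24_pm_033 {κ x : ℝ} (hκ : κ * h0 = ken x) (hx : ((740881858 : ℕ) : ℝ) / S ≤ x) (hx' : x ≤ (((740881858 : ℕ) : ℝ) + (40050571 : ℕ)) / S) :
    TriA PP.cur (VE (h0 * 0) 3 κ (h0 * x) (eng.v x) (h0 * (1 / 20)) (tnt (h0 * x) (1 / 5)) (tbl tK x) (tbl tL x) (tbl (smT h0⁻¹ tC) x)) 0 3 3 2 4 1 (-1) :=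
  (sideB hx hx').bothA (thrB hx hx') (en_pos (hx1 hx).le) (Or.inl rfl) (Or.inr rfl) fun y y' F =>
    bothA_cert (s1 := true) (s2 := false) rfl hκ (en_pos (hx1 hx).le) (esg_rng (hx1 hx).le (hx2 hx').le).1 (mo_v x) covB20 covB43 hx hx'
        Pool.Agent.Strip051.G.I69_7273.Tab.C.BA24.c_pm_033 noCut_EA noExt_EA F trivial trivial

theorem BA24_pm_101 {κ x : ℝ} (hκ : κ * h0 = ken x) (hx : ((740881858 : ℕ) : ℝ) / S ≤ x) (hx' : x ≤ (((740881858 : ℕ) : ℝ) + (40050571 : ℕ)) / S) :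
    TriA PP.cur (VE (h0 * 0) 3 κ (h0 * x) (eng.v x) (h0 * (1 / 20)) (tnt (h0 * x) (1 / 5)) (tbl tK x) (tbl tL x) (tbl (smT h0⁻¹ tC) x)) 1 0 1 2 4 1 (-1) :=
  (sideB hx hx').bothA (thrB hx hx') (en_pos (hx1 hx).le) (Or.inl rfl) (Or.inr rfl) fun y y' F =>
    bothA_cert (s1 := true) (s2 := false) rfl hκ (en_pos (hx1 hx).le) (esg_rng (hx1 hx).le (hx2 hx').le).1 (mo_v x) covB21 covB40 hx hx'
        Pool.Agent.Strip051.G.I69_7273.Tab.C.BA24.c_pm_101 noCut_EA noExt_EA F trivial trivial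

theorem BA24_pm_102 {κ x : ℝ} (hκ : κ * h0 = ken x) (hx : ((740881858 : ℕ) : ℝ) / S ≤ x) (hx' : x ≤ (((740881858 : ℕ) : ℝ) + (40050571 : ℕ)) / S) :
    TriA PP.cur (VE (h0 * 0) 3 κ (h0 * x) (eng.v x) (h0 * (1 / 20)) (tnt (h0 * x) (1 / 5)) (tbl tK x) (tbl tL x) (tbl (smT h0⁻¹ tC) x)) 1 0 2 2 4 1 (-1) :=
  (sideB hx hx').bothA (thrB hx hx') (en_pos (hx1 hx).le) (Or.inl rfl) (Or.inr rfl) fun y y' F =>
    bothA_cert (s1 := true) (s2 := false) rfl hκ (en_pos (hx1 hx).le) (esg_rng (hx1 hx).le (hx2 hx').le).1 (mo_v x) covB21 covB40 hx hx'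
        Pool.Agent.Strip051.G.I69_7273.Tab.C.BA24.c_pm_102 noCut_EA noExt_EA F trivial trivial

theorem BA24_pm_112 {κ x : ℝ} (hκ : κ * h0 = ken x) (hx : ((740881858 : ℕ) : ℝ) / S ≤ x) (hx' : x ≤ (((740881858 : ℕ) : ℝ) + (40050571 : ℕ)) / S) :
    TriA PP.cur (VE (h0 * 0) 3 κ (h0 * x) (eng.v x) (h0 * (1 / 20)) (tnt (h0 * x) (1 / 5)) (tbl tK x) (tbl tL x) (tbl (smT h0⁻¹ tC) x)) 1 1 2 2 4 1 (-1) :=
  (sideB hx hx').bothA (thrB hx hx') (en_pos (hx1 hx).le) (Or.inl rfl) (Or.inr rfl) fun y y' F =>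
    bothA_cert (s1 := true) (s2 := false) rfl hκ (en_pos (hx1 hx).le) (esg_rng (hx1 hx).le (hx2 hx').le).1 (mo_v x) covB21 covB41 hx hx'
        Pool.Agent.Strip051.G.I69_7273.Tab.C.BA24.c_pm_112 noCut_EA noExt_EA F trivial trivial

theorem BA24_pm_113 {κ x : ℝ} (hκ : κ * h0 = ken x) (hx : ((740881858 : ℕ) : ℝ) / S ≤ x) (hx' : x ≤ (((740881858 : ℕ) : ℝ) + (40050571 : ℕ)) / S) :
    TriA PP.cur (VE (h0 * 0) 3 κ (h0 * x) (eng.v x) (h0 * (1 / 20)) (tnt (h0 * x) (1 / 5)) (tbl tK x) (tbl tL x) (tbl (smT h0⁻¹ tC) x)) 1 1 3 2 4 1 (-1) :=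
  (sideB hx hx').bothA (thrB hx hx') (en_pos (hx1 hx).le) (Or.inl rfl) (Or.inr rfl) fun y y' F =>
    bothA_cert (s1 := true) (s2 := false) rfl hκ (en_pos (hx1 hx).le) (esg_rng (hx1 hx).le (hx2 hx').le).1 (mo_v x) covB21 covB41 hx hx'
        Pool.Agent.Strip051.G.I69_7273.Tab.C.BA24.c_pm_113 noCut_EA noExt_EA F trivial trivial

theorem BA24_pm_123 {κ x : ℝ} (hκ : κ * h0 = ken x) (hx : ((740881858 : ℕ) : ℝ) / S ≤ x) (hx' : x ≤ (((740881858 : ℕ) : ℝ) + (40050571 : ℕ)) / S) :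
    TriA PP.cur (VE (h0 * 0) 3 κ (h0 * x) (eng.v x) (h0 * (1 / 20)) (tnt (h0 * x) (1 / 5)) (tbl tK x) (tbl tL x) (tbl (smT h0⁻¹ tC) x)) 1 2 3 2 4 1 (-1) :=
  (sideB hx hx').bothA (thrB hx hx') (en_pos (hx1 hx).le) (Or.inl rfl) (Or.inr rfl) fun y y' F =>
    bothA_cert (s1 := true) (s2 := false) rfl hκ (en_pos (hx1 hx).le) (esg_rng (hx1 hx).le (hx2 hx').le).1 (mo_v x) covB21 covB42 hx hx'
        Pool.Agent.Strip051.G.I69_7273.Tab.C.BA24.c_pm_123 noCut_EA noExt_EA F trivial trivial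

theorem BA24_pm_133 {κ x : ℝ} (hκ : κ * h0 = ken x) (hx : ((740881858 : ℕ) : ℝ) / S ≤ x) (hx' : x ≤ (((740881858 : ℕ) : ℝ) + (40050571 : ℕ)) / S) :
    TriA PP.cur (VE (h0 * 0) 3 κ (h0 * x) (eng.v x) (h0 * (1 / 20)) (tnt (h0 * x) (1 / 5)) (tbl tK x) (tbl tL x) (tbl (smT h0⁻¹ tC) x)) 1 3 3 2 4 1 (-1) :=
  (sideB hx hx').bothA (thrB hx hx') (en_pos (hx1 hx).le) (Or.inl rfl) (Or.inr rfl) fun y y' F =>
    bothA_cert (s1 := true) (s2 := false) rfl hκ (en_pos (hx1 hx).le) (esg_rng (hx1 hx).le (hx2 hx').le).1 (mo_v x) covB21 covB43 hx hx'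
        Pool.Agent.Strip051.G.I69_7273.Tab.C.BA24.c_pm_133 noCut_EA noExt_EA F trivial trivial

theorem BA24_pm_202 {κ x : ℝ} (hκ : κ * h0 = ken x) (hx : ((740881858 : ℕ) : ℝ) / S ≤ x) (hx' : x ≤ (((740881858 : ℕ) : ℝ) + (40050571 : ℕ)) / S) :
    TriA PP.cur (VE (h0 * 0) 3 κ (h0 * x) (eng.v x) (h0 * (1 / 20)) (tnt (h0 * x) (1 / 5)) (tbl tK x) (tbl tL x) (tbl (smT h0⁻¹ tC) x)) 2 0 2 2 4 1 (-1) :=
  (sideB hx hx').bothA (thrB hx hx') (en_pos (hx1 hx).le) (Or.inl rfl) (Or.inr rfl) fun y y' F =>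
    (lt_or_ge (h0 * y) 1).elim
      (fun h => bothA_cert (s1 := true) (s2 := false) rfl hκ (en_pos (hx1 hx).le) (esg_rng (hx1 hx).le (hx2 hx').le).1 (mo_v x) covB22a covB40 hx hx'
        Pool.Agent.Strip051.G.I69_7273.Tab.C.BA24.c_pm_202_a noCut_EA noExt_EA F h trivial)
      (fun h => bothA_cert (s1 := true) (s2 := false) rfl hκ (en_pos (hx1 hx).le) (esg_rng (hx1 hx).le (hx2 hx').le).1 (mo_v x) covB22b covB40 hx hx'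
        Pool.Agent.Strip051.G.I69_7273.Tab.C.BA24.c_pm_202_b noCut_EA noExt_EA F h trivial)

theorem BA24_pm_203 {κ x : ℝ} (hκ : κ * h0 = ken x) (hx : ((740881858 : ℕ) : ℝ) / S ≤ x) (hx' : x ≤ (((740881858 : ℕ) : ℝ) + (40050571 : ℕ)) / S) :
    TriA PP.cur (VE (h0 * 0) 3 κ (h0 * x) (eng.v x) (h0 * (1 / 20)) (tnt (h0 * x) (1 / 5)) (tbl tK x) (tbl tL x) (tbl (smT h0⁻¹ tC) x)) 2 0 3 2 4 1 (-1) :=
  (sideB hx hx').bothA (thrB hx hx') (en_pos (hx1 hx).le) (Or.inl rfl) (Or.inr rfl) fun y y' F =>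
    (lt_or_ge (h0 * y) 1).elim
      (fun h => bothA_cert (s1 := true) (s2 := false) rfl hκ (en_pos (hx1 hx).le) (esg_rng (hx1 hx).le (hx2 hx').le).1 (mo_v x) covB22a covB40 hx hx'
        Pool.Agent.Strip051.G.I69_7273.Tab.C.BA24.c_pm_203_a noCut_EA noExt_EA F h trivial)
      (fun h => bothA_cert (s1 := true) (s2 := false) rfl hκ (en_pos (hx1 hx).le) (esg_rng (hx1 hx).le (hx2 hx').le).1 (mo_v x) covB22b covB40 hx hx'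
        Pool.Agent.Strip051.G.I69_7273.Tab.C.BA24.c_pm_203_b noCut_EA noExt_EA F h trivial)

theorem BA24_pm_213 {κ x : ℝ} (hκ : κ * h0 = ken x) (hx : ((740881858 : ℕ) : ℝ) / S ≤ x) (hx' : x ≤ (((740881858 : ℕ) : ℝ) + (40050571 : ℕ)) / S) :
    TriA PP.cur (VE (h0 * 0) 3 κ (h0 * x) (eng.v x) (h0 * (1 / 20)) (tnt (h0 * x) (1 / 5)) (tbl tK x) (tbl tL x) (tbl (smT h0⁻¹ tC) x)) 2 1 3 2 4 1 (-1) :=
  (sideB hx hx').bothA (thrB hx hx') (en_pos (hx1 hx).le) (Or.inl rfl) (Or.inr rfl) fun y y' F =>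
    (lt_or_ge (h0 * y) 1).elim
      (fun h => bothA_cert (s1 := true) (s2 := false) rfl hκ (en_pos (hx1 hx).le) (esg_rng (hx1 hx).le (hx2 hx').le).1 (mo_v x) covB22a covB41 hx hx'
        Pool.Agent.Strip051.G.I69_7273.Tab.C.BA24.c_pm_213_a noCut_EA noExt_EA F h trivial)
      (fun h => bothA_cert (s1 := true) (s2 := false) rfl hκ (en_pos (hx1 hx).le) (esg_rng (hx1 hx).le (hx2 hx').le).1 (mo_v x) covB22b covB41 hx hx'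
        Pool.Agent.Strip051.G.I69_7273.Tab.C.BA24.c_pm_213_b noCut_EA noExt_EA F h trivial)

theorem BA24_pm_303 {κ x : ℝ} (hκ : κ * h0 = ken x) (hx : ((740881858 : ℕ) : ℝ) / S ≤ x) (hx' : x ≤ (((740881858 : ℕ) : ℝ) + (40050571 : ℕ)) / S) :
    TriA PP.cur (VE (h0 * 0) 3 κ (h0 * x) (eng.v x) (h0 * (1 / 20)) (tnt (h0 * x) (1 / 5)) (tbl tK x) (tbl tL x) (tbl (smT h0⁻¹ tC) x)) 3 0 3 2 4 1 (-1) :=
  (sideB hx hx').bothA (thrB hx hx') (en_pos (hx1 hx).le) (Or.inl rfl) (Or.inr rfl) fun y y' F =>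
    bothA_cert (s1 := true) (s2 := false) rfl hκ (en_pos (hx1 hx).le) (esg_rng (hx1 hx).le (hx2 hx').le).1 (mo_v x) covB23 covB40 hx hx'
        Pool.Agent.Strip051.G.I69_7273.Tab.C.BA24.c_pm_303 noCut_EA noExt_EA F trivial trivial

theorem BA24_pm_313 {κ x : ℝ} (hκ : κ * h0 = ken x) (hx : ((740881858 : ℕ) : ℝ) / S ≤ x) (hx' : x ≤ (((740881858 : ℕ) : ℝ) + (40050571 : ℕ)) / S) :
    TriA PP.cur (VE (h0 * 0) 3 κ (h0 * x) (eng.v x) (h0 * (1 / 20)) (tnt (h0 * x) (1 / 5)) (tbl tK x) (tbl tL x) (tbl (smT h0⁻¹ tC) x)) 3 1 3 2 4 1 (-1) :=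
  (sideB hx hx').bothA (thrB hx hx') (en_pos (hx1 hx).le) (Or.inl rfl) (Or.inr rfl) fun y y' F =>
    bothA_cert (s1 := true) (s2 := false) rfl hκ (en_pos (hx1 hx).le) (esg_rng (hx1 hx).le (hx2 hx').le).1 (mo_v x) covB23 covB41 hx hx'
        Pool.Agent.Strip051.G.I69_7273.Tab.C.BA24.c_pm_313 noCut_EA noExt_EA F trivial trivial

theorem BA24_mm_001 {κ x : ℝ} (hκ : κ * h0 = ken x) (hx : ((740881858 : ℕ) : ℝ) / S ≤ x) (hx' : x ≤ (((740881858 : ℕ) : ℝ) + (40050571 : ℕ)) / S) :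
    TriA PP.cur (VE (h0 * 0) 3 κ (h0 * x) (eng.v x) (h0 * (1 / 20)) (tnt (h0 * x) (1 / 5)) (tbl tK x) (tbl tL x) (tbl (smT h0⁻¹ tC) x)) 0 0 1 2 4 (-1) (-1) :=
  (sideB hx hx').bothA (thrB hx hx') (en_pos (hx1 hx).le) (Or.inr rfl) (Or.inr rfl) fun y y' F =>
    bothA_cert (s1 := false) (s2 := false) rfl hκ (en_pos (hx1 hx).le) (esg_rng (hx1 hx).le (hx2 hx').le).1 (mo_v x) covB20 covB40 hx hx'
        Pool.Agent.Strip051.G.I69_7273.Tab.C.BA24.c_mm_001 noCut_EA noExt_EA F trivial trivial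

theorem BA24_mm_011 {κ x : ℝ} (hκ : κ * h0 = ken x) (hx : ((740881858 : ℕ) : ℝ) / S ≤ x) (hx' : x ≤ (((740881858 : ℕ) : ℝ) + (40050571 : ℕ)) / S) :
    TriA PP.cur (VE (h0 * 0) 3 κ (h0 * x) (eng.v x) (h0 * (1 / 20)) (tnt (h0 * x) (1 / 5)) (tbl tK x) (tbl tL x) (tbl (smT h0⁻¹ tC) x)) 0 1 1 2 4 (-1) (-1) :=
  (sideB hx hx').bothA (thrB hx hx') (en_pos (hx1 hx).le) (Or.inr rfl) (Or.inr rfl) fun y y' F =>
    bothA_cert (s1 := false) (s2 := false) rfl hκ (en_pos (hx1 hx).le) (esg_rng (hx1 hx).le (hx2 hx').le).1 (mo_v x) covB20 covB41 hx hx'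
        Pool.Agent.Strip051.G.I69_7273.Tab.C.BA24.c_mm_011 noCut_EA noExt_EA F trivial trivial

theorem BA24_mm_012 {κ x : ℝ} (hκ : κ * h0 = ken x) (hx : ((740881858 : ℕ) : ℝ) / S ≤ x) (hx' : x ≤ (((740881858 : ℕ) : ℝ) + (40050571 : ℕ)) / S) :
    TriA PP.cur (VE (h0 * 0) 3 κ (h0 * x) (eng.v x) (h0 * (1 / 20)) (tnt (h0 * x) (1 / 5)) (tbl tK x) (tbl tL x) (tbl (smT h0⁻¹ tC) x)) 0 1 2 2 4 (-1) (-1) :=
  (sideB hx hx').bothA (thrB hx hx') (en_pos (hx1 hx).le) (Or.inr rfl) (Or.inr rfl) fun y y' F =>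
    bothA_cert (s1 := false) (s2 := false) rfl hκ (en_pos (hx1 hx).le) (esg_rng (hx1 hx).le (hx2 hx').le).1 (mo_v x) covB20 covB41 hx hx'
        Pool.Agent.Strip051.G.I69_7273.Tab.C.BA24.c_mm_012 noCut_EA noExt_EA F trivial trivial

theorem BA24_mm_022 {κ x : ℝ} (hκ : κ * h0 = ken x) (hx : ((740881858 : ℕ) : ℝ) / S ≤ x) (hx' : x ≤ (((740881858 : ℕ) : ℝ) + (40050571 : ℕ)) / S) :
    TriA PP.cur (VE (h0 * 0) 3 κ (h0 * x) (eng.v x) (h0 * (1 / 20)) (tnt (h0 * x) (1 / 5)) (tbl tK x) (tbl tL x) (tbl (smT h0⁻¹ tC) x)) 0 2 2 2 4 (-1) (-1) :=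
  (sideB hx hx').bothA (thrB hx hx') (en_pos (hx1 hx).le) (Or.inr rfl) (Or.inr rfl) fun y y' F =>
    bothA_cert (s1 := false) (s2 := false) rfl hκ (en_pos (hx1 hx).le) (esg_rng (hx1 hx).le (hx2 hx').le).1 (mo_v x) covB20 covB42 hx hx'
        Pool.Agent.Strip051.G.I69_7273.Tab.C.BA24.c_mm_022 noCut_EA noExt_EA F trivial trivial

theorem BA24_mm_023 {κ x : ℝ} (hκ : κ * h0 = ken x) (hx : ((740881858 : ℕ) : ℝ) / S ≤ x) (hx' : x ≤ (((740881858 : ℕ) : ℝ) + (40050571 : ℕ)) / S) :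
    TriA PP.cur (VE (h0 * 0) 3 κ (h0 * x) (eng.v x) (h0 * (1 / 20)) (tnt (h0 * x) (1 / 5)) (tbl tK x) (tbl tL x) (tbl (smT h0⁻¹ tC) x)) 0 2 3 2 4 (-1) (-1) :=
  (sideB hx hx').bothA (thrB hx hx') (en_pos (hx1 hx).le) (Or.inr rfl) (Or.inr rfl) fun y y' F =>
    bothA_cert (s1 := false) (s2 := false) rfl hκ (en_pos (hx1 hx).le) (esg_rng (hx1 hx).le (hx2 hx').le).1 (mo_v x) covB20 covB42 hx hx'
        Pool.Agent.Strip051.G.I69_7273.Tab.C.BA24.c_mm_023 noCut_EA noExt_EA F trivial trivial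

theorem BA24_mm_033 {κ x : ℝ} (hκ : κ * h0 = ken x) (hx : ((740881858 : ℕ) : ℝ) / S ≤ x) (hx' : x ≤ (((740881858 : ℕ) : ℝ) + (40050571 : ℕ)) / S) :
    TriA PP.cur (VE (h0 * 0) 3 κ (h0 * x) (eng.v x) (h0 * (1 / 20)) (tnt (h0 * x) (1 / 5)) (tbl tK x) (tbl tL x) (tbl (smT h0⁻¹ tC) x)) 0 3 3 2 4 (-1) (-1) :=
  (sideB hx hx').bothA (thrB hx hx') (en_pos (hx1 hx).le) (Or.inr rfl) (Or.inr rfl) fun y y' F =>
    bothA_cert (s1 := false) (s2 := false) rfl hκ (en_pos (hx1 hx).le) (esg_rng (hx1 hx).le (hx2 hx').le).1 (mo_v x) covB20 covB43 hx hx'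
        Pool.Agent.Strip051.G.I69_7273.Tab.C.BA24.c_mm_033 noCut_EA noExt_EA F trivial trivial

theorem BA24_mm_101 {κ x : ℝ} (hκ : κ * h0 = ken x) (hx : ((740881858 : ℕ) : ℝ) / S ≤ x) (hx' : x ≤ (((740881858 : ℕ) : ℝ) + (40050571 : ℕ)) / S) :
    TriA PP.cur (VE (h0 * 0) 3 κ (h0 * x) (eng.v x) (h0 * (1 / 20)) (tnt (h0 * x) (1 / 5)) (tbl tK x) (tbl tL x) (tbl (smT h0⁻¹ tC) x)) 1 0 1 2 4 (-1) (-1) :=
  (sideB hx hx').bothA (thrB hx hx') (en_pos (hx1 hx).le) (Or.inr rfl) (Or.inr rfl) fun y y' F =>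
    bothA_cert (s1 := false) (s2 := false) rfl hκ (en_pos (hx1 hx).le) (esg_rng (hx1 hx).le (hx2 hx').le).1 (mo_v x) covB21 covB40 hx hx'
        Pool.Agent.Strip051.G.I69_7273.Tab.C.BA24.c_mm_101 noCut_EA noExt_EA F trivial trivial

theorem BA24_mm_102 {κ x : ℝ} (hκ : κ * h0 = ken x) (hx : ((740881858 : ℕ) : ℝ) / S ≤ x) (hx' : x ≤ (((740881858 : ℕ) : ℝ) + (40050571 : ℕ)) / S) :
    TriA PP.cur (VE (h0 * 0) 3 κ (h0 * x) (eng.v x) (h0 * (1 / 20)) (tnt (h0 * x) (1 / 5)) (tbl tK x) (tbl tL x) (tbl (smT h0⁻¹ tC) x)) 1 0 2 2 4 (-1) (-1) :=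
  (sideB hx hx').bothA (thrB hx hx') (en_pos (hx1 hx).le) (Or.inr rfl) (Or.inr rfl) fun y y' F =>
    bothA_cert (s1 := false) (s2 := false) rfl hκ (en_pos (hx1 hx).le) (esg_rng (hx1 hx).le (hx2 hx').le).1 (mo_v x) covB21 covB40 hx hx'
        Pool.Agent.Strip051.G.I69_7273.Tab.C.BA24.c_mm_102 noCut_EA noExt_EA F trivial trivial

theorem BA24_mm_112 {κ x : ℝ} (hκ : κ * h0 = ken x) (hx : ((740881858 : ℕ) : ℝ) / S ≤ x) (hx' : x ≤ (((740881858 : ℕ) : ℝ) + (40050571 : ℕ)) / S) :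
    TriA PP.cur (VE (h0 * 0) 3 κ (h0 * x) (eng.v x) (h0 * (1 / 20)) (tnt (h0 * x) (1 / 5)) (tbl tK x) (tbl tL x) (tbl (smT h0⁻¹ tC) x)) 1 1 2 2 4 (-1) (-1) :=
  (sideB hx hx').bothA (thrB hx hx') (en_pos (hx1 hx).le) (Or.inr rfl) (Or.inr rfl) fun y y' F =>
    bothA_cert (s1 := false) (s2 := false) rfl hκ (en_pos (hx1 hx).le) (esg_rng (hx1 hx).le (hx2 hx').le).1 (mo_v x) covB21 covB41 hx hx'
        Pool.Agent.Strip051.G.I69_7273.Tab.C.BA24.c_mm_112 noCut_EA noExt_EA F trivial trivial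

theorem BA24_mm_113 {κ x : ℝ} (hκ : κ * h0 = ken x) (hx : ((740881858 : ℕ) : ℝ) / S ≤ x) (hx' : x ≤ (((740881858 : ℕ) : ℝ) + (40050571 : ℕ)) / S) :
    TriA PP.cur (VE (h0 * 0) 3 κ (h0 * x) (eng.v x) (h0 * (1 / 20)) (tnt (h0 * x) (1 / 5)) (tbl tK x) (tbl tL x) (tbl (smT h0⁻¹ tC) x)) 1 1 3 2 4 (-1) (-1) :=
  (sideB hx hx').bothA (thrB hx hx') (en_pos (hx1 hx).le) (Or.inr rfl) (Or.inr rfl) fun y y' F =>
    bothA_cert (s1 := false) (s2 := false) rfl hκ (en_pos (hx1 hx).le) (esg_rng (hx1 hx).le (hx2 hx').le).1 (mo_v x) covB21 covB41 hx hx'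
        Pool.Agent.Strip051.G.I69_7273.Tab.C.BA24.c_mm_113 noCut_EA noExt_EA F trivial trivial

theorem BA24_mm_123 {κ x : ℝ} (hκ : κ * h0 = ken x) (hx : ((740881858 : ℕ) : ℝ) / S ≤ x) (hx' : x ≤ (((740881858 : ℕ) : ℝ) + (40050571 : ℕ)) / S) :
    TriA PP.cur (VE (h0 * 0) 3 κ (h0 * x) (eng.v x) (h0 * (1 / 20)) (tnt (h0 * x) (1 / 5)) (tbl tK x) (tbl tL x) (tbl (smT h0⁻¹ tC) x)) 1 2 3 2 4 (-1) (-1) :=
  (sideB hx hx').bothA (thrB hx hx') (en_pos (hx1 hx).le) (Or.inr rfl) (Or.inr rfl) fun y y' F =>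
    bothA_cert (s1 := false) (s2 := false) rfl hκ (en_pos (hx1 hx).le) (esg_rng (hx1 hx).le (hx2 hx').le).1 (mo_v x) covB21 covB42 hx hx'
        Pool.Agent.Strip051.G.I69_7273.Tab.C.BA24.c_mm_123 noCut_EA noExt_EA F trivial trivial

theorem BA24_mm_133 {κ x : ℝ} (hκ : κ * h0 = ken x) (hx : ((740881858 : ℕ) : ℝ) / S ≤ x) (hx' : x ≤ (((740881858 : ℕ) : ℝ) + (40050571 : ℕ)) / S) :
    TriA PP.cur (VE (h0 * 0) 3 κ (h0 * x) (eng.v x) (h0 * (1 / 20)) (tnt (h0 * x) (1 / 5)) (tbl tK x) (tbl tL x) (tbl (smT h0⁻¹ tC) x)) 1 3 3 2 4 (-1) (-1) :=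
  (sideB hx hx').bothA (thrB hx hx') (en_pos (hx1 hx).le) (Or.inr rfl) (Or.inr rfl) fun y y' F =>
    bothA_cert (s1 := false) (s2 := false) rfl hκ (en_pos (hx1 hx).le) (esg_rng (hx1 hx).le (hx2 hx').le).1 (mo_v x) covB21 covB43 hx hx'
        Pool.Agent.Strip051.G.I69_7273.Tab.C.BA24.c_mm_133 noCut_EA noExt_EA F trivial trivial

theorem BA24_mm_202 {κ x : ℝ} (hκ : κ * h0 = ken x) (hx : ((740881858 : ℕ) : ℝ) / S ≤ x) (hx' : x ≤ (((740881858 : ℕ) : ℝ) + (40050571 : ℕ)) / S) :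
    TriA PP.cur (VE (h0 * 0) 3 κ (h0 * x) (eng.v x) (h0 * (1 / 20)) (tnt (h0 * x) (1 / 5)) (tbl tK x) (tbl tL x) (tbl (smT h0⁻¹ tC) x)) 2 0 2 2 4 (-1) (-1) :=
  (sideB hx hx').bothA (thrB hx hx') (en_pos (hx1 hx).le) (Or.inr rfl) (Or.inr rfl) fun y y' F =>
    (lt_or_ge (h0 * y) 1).elim
      (fun h => bothA_cert (s1 := false) (s2 := false) rfl hκ (en_pos (hx1 hx).le) (esg_rng (hx1 hx).le (hx2 hx').le).1 (mo_v x) covB22a covB40 hx hx'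
        Pool.Agent.Strip051.G.I69_7273.Tab.C.BA24.c_mm_202_a noCut_EA noExt_EA F h trivial)
      (fun h => bothA_cert (s1 := false) (s2 := false) rfl hκ (en_pos (hx1 hx).le) (esg_rng (hx1 hx).le (hx2 hx').le).1 (mo_v x) covB22b covB40 hx hx'
        Pool.Agent.Strip051.G.I69_7273.Tab.C.BA24.c_mm_202_b noCut_EA noExt_EA F h trivial)

theorem BA24_mm_203 {κ x : ℝ} (hκ : κ * h0 = ken x) (hx : ((740881858 : ℕ) : ℝ) / S ≤ x) (hx' : x ≤ (((740881858 : ℕ) : ℝ) + (40050571 : ℕ)) / S) :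
    TriA PP.cur (VE (h0 * 0) 3 κ (h0 * x) (eng.v x) (h0 * (1 / 20)) (tnt (h0 * x) (1 / 5)) (tbl tK x) (tbl tL x) (tbl (smT h0⁻¹ tC) x)) 2 0 3 2 4 (-1) (-1) :=
  (sideB hx hx').bothA (thrB hx hx') (en_pos (hx1 hx).le) (Or.inr rfl) (Or.inr rfl) fun y y' F =>
    (lt_or_ge (h0 * y) 1).elim
      (fun h => bothA_cert (s1 := false) (s2 := false) rfl hκ (en_pos (hx1 hx).le) (esg_rng (hx1 hx).le (hx2 hx').le).1 (mo_v x) covB22a covB40 hx hx'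
        Pool.Agent.Strip051.G.I69_7273.Tab.C.BA24.c_mm_203_a noCut_EA noExt_EA F h trivial)
      (fun h => bothA_cert (s1 := false) (s2 := false) rfl hκ (en_pos (hx1 hx).le) (esg_rng (hx1 hx).le (hx2 hx').le).1 (mo_v x) covB22b covB40 hx hx'
        Pool.Agent.Strip051.G.I69_7273.Tab.C.BA24.c_mm_203_b noCut_EA noExt_EA F h trivial)

theorem BA24_mm_213 {κ x : ℝ} (hκ : κ * h0 = ken x) (hx : ((740881858 : ℕ) : ℝ) / S ≤ x) (hx' : x ≤ (((740881858 : ℕ) : ℝ) + (40050571 : ℕ)) / S) :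
    TriA PP.cur (VE (h0 * 0) 3 κ (h0 * x) (eng.v x) (h0 * (1 / 20)) (tnt (h0 * x) (1 / 5)) (tbl tK x) (tbl tL x) (tbl (smT h0⁻¹ tC) x)) 2 1 3 2 4 (-1) (-1) :=
  (sideB hx hx').bothA (thrB hx hx') (en_pos (hx1 hx).le) (Or.inr rfl) (Or.inr rfl) fun y y' F =>
    (lt_or_ge (h0 * y) 1).elim
      (fun h => bothA_cert (s1 := false) (s2 := false) rfl hκ (en_pos (hx1 hx).le) (esg_rng (hx1 hx).le (hx2 hx').le).1 (mo_v x) covB22a covB41 hx hx'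
        Pool.Agent.Strip051.G.I69_7273.Tab.C.BA24.c_mm_213_a noCut_EA noExt_EA F h trivial)
      (fun h => bothA_cert (s1 := false) (s2 := false) rfl hκ (en_pos (hx1 hx).le) (esg_rng (hx1 hx).le (hx2 hx').le).1 (mo_v x) covB22b covB41 hx hx'
        Pool.Agent.Strip051.G.I69_7273.Tab.C.BA24.c_mm_213_b noCut_EA noExt_EA F h trivial)

theorem BA24_mm_303 {κ x : ℝ} (hκ : κ * h0 = ken x) (hx : ((740881858 : ℕ) : ℝ) / S ≤ x) (hx' : x ≤ (((740881858 : ℕ) : ℝ) + (40050571 : ℕ)) / S) :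
    TriA PP.cur (VE (h0 * 0) 3 κ (h0 * x) (eng.v x) (h0 * (1 / 20)) (tnt (h0 * x) (1 / 5)) (tbl tK x) (tbl tL x) (tbl (smT h0⁻¹ tC) x)) 3 0 3 2 4 (-1) (-1) :=
  (sideB hx hx').bothA (thrB hx hx') (en_pos (hx1 hx).le) (Or.inr rfl) (Or.inr rfl) fun y y' F =>
    bothA_cert (s1 := false) (s2 := false) rfl hκ (en_pos (hx1 hx).le) (esg_rng (hx1 hx).le (hx2 hx').le).1 (mo_v x) covB23 covB40 hx hx'
        Pool.Agent.Strip051.G.I69_7273.Tab.C.BA24.c_mm_303 noCut_EA noExt_EA F trivial trivial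

theorem BA24_mm_313 {κ x : ℝ} (hκ : κ * h0 = ken x) (hx : ((740881858 : ℕ) : ℝ) / S ≤ x) (hx' : x ≤ (((740881858 : ℕ) : ℝ) + (40050571 : ℕ)) / S) :
    TriA PP.cur (VE (h0 * 0) 3 κ (h0 * x) (eng.v x) (h0 * (1 / 20)) (tnt (h0 * x) (1 / 5)) (tbl tK x) (tbl tL x) (tbl (smT h0⁻¹ tC) x)) 3 1 3 2 4 (-1) (-1) :=
  (sideB hx hx').bothA (thrB hx hx') (en_pos (hx1 hx).le) (Or.inr rfl) (Or.inr rfl) fun y y' F =>
    bothA_cert (s1 := false) (s2 := false) rfl hκ (en_pos (hx1 hx).le) (esg_rng (hx1 hx).le (hx2 hx').le).1 (mo_v x) covB23 covB41 hx hx'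
        Pool.Agent.Strip051.G.I69_7273.Tab.C.BA24.c_mm_313 noCut_EA noExt_EA F trivial trivial

theorem BA24 {κ x : ℝ} (hκ : κ * h0 = ken x) (hx : ((740881858 : ℕ) : ℝ) / S ≤ x) (hx' : x ≤ (((740881858 : ℕ) : ℝ) + (40050571 : ℕ)) / S) : AllTA PP.cur (VE (h0 * 0) 3 κ (h0 * x) (eng.v x) (h0 * (1 / 20)) (tnt (h0 * x) (1 / 5)) (tbl tK x) (tbl tL x) (tbl (smT h0⁻¹ tC) x)) 2 4 where
  pp := all17 (Q := fun a b c => TriA PP.cur (VE (h0 * 0) 3 κ (h0 * x) (eng.v x) (h0 * (1 / 20)) (tnt (h0 * x) (1 / 5)) (tbl tK x) (tbl tL x) (tbl (smT h0⁻¹ tC) x)) a b c 2 4 1 1)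
    (BA24_pp_001 hκ hx hx') (BA24_pp_011 hκ hx hx') (BA24_pp_012 hκ hx hx') (BA24_pp_022 hκ hx hx') (BA24_pp_023 hκ hx hx') (BA24_pp_033 hκ hx hx') (BA24_pp_101 hκ hx hx') (BA24_pp_102 hκ hx hx') (BA24_pp_112 hκ hx hx') (BA24_pp_113 hκ hx hx') (BA24_pp_123 hκ hx hx') (BA24_pp_133 hκ hx hx') (BA24_pp_202 hκ hx hx') (BA24_pp_203 hκ hx hx') (BA24_pp_213 hκ hx hx') (BA24_pp_303 hκ hx hx') (BA24_pp_313 hκ hx hx')
  pm := all17 (Q := fun a b c => TriA PP.cur (VE (h0 * 0) 3 κ (h0 * x) (eng.v x) (h0 * (1 / 20)) (tnt (h0 * x) (1 / 5)) (tbl tK x) (tbl tL x) (tbl (smT h0⁻¹ tC) x)) a b c 2 4 1 (-1))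
    (BA24_pm_001 hκ hx hx') (BA24_pm_011 hκ hx hx') (BA24_pm_012 hκ hx hx') (BA24_pm_022 hκ hx hx') (BA24_pm_023 hκ hx hx') (BA24_pm_033 hκ hx hx') (BA24_pm_101 hκ hx hx') (BA24_pm_102 hκ hx hx') (BA24_pm_112 hκ hx hx') (BA24_pm_113 hκ hx hx') (BA24_pm_123 hκ hx hx') (BA24_pm_133 hκ hx hx') (BA24_pm_202 hκ hx hx') (BA24_pm_203 hκ hx hx') (BA24_pm_213 hκ hx hx') (BA24_pm_303 hκ hx hx') (BA24_pm_313 hκ hx hx')
  mm := all17 (Q := fun a b c => TriA PP.cur (VE (h0 * 0) 3 κ (h0 * x) (eng.v x) (h0 * (1 / 20)) (tnt (h0 * x) (1 / 5)) (tbl tK x) (tbl tL x) (tbl (smT h0⁻¹ tC) x)) a b c 2 4 (-1) (-1))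
    (BA24_mm_001 hκ hx hx') (BA24_mm_011 hκ hx hx') (BA24_mm_012 hκ hx hx') (BA24_mm_022 hκ hx hx') (BA24_mm_023 hκ hx hx') (BA24_mm_033 hκ hx hx') (BA24_mm_101 hκ hx hx') (BA24_mm_102 hκ hx hx') (BA24_mm_112 hκ hx hx') (BA24_mm_113 hκ hx hx') (BA24_mm_123 hκ hx hx') (BA24_mm_133 hκ hx hx') (BA24_mm_202 hκ hx hx') (BA24_mm_203 hκ hx hx') (BA24_mm_213 hκ hx hx') (BA24_mm_303 hκ hx hx') (BA24_mm_313 hκ hx hx')

theorem BA25_pp_001 {κ x : ℝ} (hκ : κ * h0 = ken x) (hx : ((740881858 : ℕ) : ℝ) / S ≤ x) (hx' : x ≤ (((740881858 : ℕ) : ℝ) + (40050571 : ℕ)) / S) :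
    TriA PP.cur (VE (h0 * 0) 3 κ (h0 * x) (eng.v x) (h0 * (1 / 20)) (tnt (h0 * x) (1 / 5)) (tbl tK x) (tbl tL x) (tbl (smT h0⁻¹ tC) x)) 0 0 1 2 5 1 1 :=
  (sideB hx hx').bothA (thrB hx hx') (en_pos (hx1 hx).le) (Or.inl rfl) (Or.inl rfl) fun y y' F =>
    bothA_cert (s1 := true) (s2 := true) rfl hκ (en_pos (hx1 hx).le) (esg_rng (hx1 hx).le (hx2 hx').le).1 (mo_v x) covB20 covB50 hx hx'
        Pool.Agent.Strip051.G.I69_7273.Tab.C.BA25.c_pp_001 noCut_EA noExt_EA F trivial trivial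

theorem BA25_pp_011 {κ x : ℝ} (hκ : κ * h0 = ken x) (hx : ((740881858 : ℕ) : ℝ) / S ≤ x) (hx' : x ≤ (((740881858 : ℕ) : ℝ) + (40050571 : ℕ)) / S) :
    TriA PP.cur (VE (h0 * 0) 3 κ (h0 * x) (eng.v x) (h0 * (1 / 20)) (tnt (h0 * x) (1 / 5)) (tbl tK x) (tbl tL x) (tbl (smT h0⁻¹ tC) x)) 0 1 1 2 5 1 1 :=
  (sideB hx hx').bothA (thrB hx hx') (en_pos (hx1 hx).le) (Or.inl rfl) (Or.inl rfl) fun y y' F =>
    bothA_cert (s1 := true) (s2 := true) rfl hκ (en_pos (hx1 hx).le) (esg_rng (hx1 hx).le (hx2 hx').le).1 (mo_v x) covB20 covB51 hx hx'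
        Pool.Agent.Strip051.G.I69_7273.Tab.C.BA25.c_pp_011 noCut_EA noExt_EA F trivial trivial

theorem BA25_pp_012 {κ x : ℝ} (hκ : κ * h0 = ken x) (hx : ((740881858 : ℕ) : ℝ) / S ≤ x) (hx' : x ≤ (((740881858 : ℕ) : ℝ) + (40050571 : ℕ)) / S) :
    TriA PP.cur (VE (h0 * 0) 3 κ (h0 * x) (eng.v x) (h0 * (1 / 20)) (tnt (h0 * x) (1 / 5)) (tbl tK x) (tbl tL x) (tbl (smT h0⁻¹ tC) x)) 0 1 2 2 5 1 1 :=
  (sideB hx hx').bothA (thrB hx hx') (en_pos (hx1 hx).le) (Or.inl rfl) (Or.inl rfl) fun y y' F =>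
    bothA_cert (s1 := true) (s2 := true) rfl hκ (en_pos (hx1 hx).le) (esg_rng (hx1 hx).le (hx2 hx').le).1 (mo_v x) covB20 covB51 hx hx'
        Pool.Agent.Strip051.G.I69_7273.Tab.C.BA25.c_pp_012 noCut_EA noExt_EA F trivial trivial

theorem BA25_pp_022 {κ x : ℝ} (hκ : κ * h0 = ken x) (hx : ((740881858 : ℕ) : ℝ) / S ≤ x) (hx' : x ≤ (((740881858 : ℕ) : ℝ) + (40050571 : ℕ)) / S) :
    TriA PP.cur (VE (h0 * 0) 3 κ (h0 * x) (eng.v x) (h0 * (1 / 20)) (tnt (h0 * x) (1 / 5)) (tbl tK x) (tbl tL x) (tbl (smT h0⁻¹ tC) x)) 0 2 2 2 5 1 1 :=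
  (sideB hx hx').bothA (thrB hx hx') (en_pos (hx1 hx).le) (Or.inl rfl) (Or.inl rfl) fun y y' F =>
    bothA_cert (s1 := true) (s2 := true) rfl hκ (en_pos (hx1 hx).le) (esg_rng (hx1 hx).le (hx2 hx').le).1 (mo_v x) covB20 covB52 hx hx'
        Pool.Agent.Strip051.G.I69_7273.Tab.C.BA25.c_pp_022 noCut_EA noExt_EA F trivial trivial

theorem BA25_pp_023 {κ x : ℝ} (hκ : κ * h0 = ken x) (hx : ((740881858 : ℕ) : ℝ) / S ≤ x) (hx' : x ≤ (((740881858 : ℕ) : ℝ) + (40050571 : ℕ)) / S) :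
    TriA PP.cur (VE (h0 * 0) 3 κ (h0 * x) (eng.v x) (h0 * (1 / 20)) (tnt (h0 * x) (1 / 5)) (tbl tK x) (tbl tL x) (tbl (smT h0⁻¹ tC) x)) 0 2 3 2 5 1 1 :=
  (sideB hx hx').bothA (thrB hx hx') (en_pos (hx1 hx).le) (Or.inl rfl) (Or.inl rfl) fun y y' F =>
    bothA_cert (s1 := true) (s2 := true) rfl hκ (en_pos (hx1 hx).le) (esg_rng (hx1 hx).le (hx2 hx').le).1 (mo_v x) covB20 covB52 hx hx'
        Pool.Agent.Strip051.G.I69_7273.Tab.C.BA25.c_pp_023 noCut_EA noExt_EA F trivial trivial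

theorem BA25_pp_033 {κ x : ℝ} (hκ : κ * h0 = ken x) (hx : ((740881858 : ℕ) : ℝ) / S ≤ x) (hx' : x ≤ (((740881858 : ℕ) : ℝ) + (40050571 : ℕ)) / S) :
    TriA PP.cur (VE (h0 * 0) 3 κ (h0 * x) (eng.v x) (h0 * (1 / 20)) (tnt (h0 * x) (1 / 5)) (tbl tK x) (tbl tL x) (tbl (smT h0⁻¹ tC) x)) 0 3 3 2 5 1 1 :=
  (sideB hx hx').bothA (thrB hx hx') (en_pos (hx1 hx).le) (Or.inl rfl) (Or.inl rfl) fun y y' F =>
    bothA_cert (s1 := true) (s2 := true) rfl hκ (en_pos (hx1 hx).le) (esg_rng (hx1 hx).le (hx2 hx').le).1 (mo_v x) covB20 covB53 hx hx'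
        Pool.Agent.Strip051.G.I69_7273.Tab.C.BA25.c_pp_033 noCut_EA noExt_EA F trivial trivial

theorem BA25_pp_101 {κ x : ℝ} (hκ : κ * h0 = ken x) (hx : ((740881858 : ℕ) : ℝ) / S ≤ x) (hx' : x ≤ (((740881858 : ℕ) : ℝ) + (40050571 : ℕ)) / S) :
    TriA PP.cur (VE (h0 * 0) 3 κ (h0 * x) (eng.v x) (h0 * (1 / 20)) (tnt (h0 * x) (1 / 5)) (tbl tK x) (tbl tL x) (tbl (smT h0⁻¹ tC) x)) 1 0 1 2 5 1 1 :=
  (sideB hx hx').bothA (thrB hx hx') (en_pos (hx1 hx).le) (Or.inl rfl) (Or.inl rfl) fun y y' F =>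
    bothA_cert (s1 := true) (s2 := true) rfl hκ (en_pos (hx1 hx).le) (esg_rng (hx1 hx).le (hx2 hx').le).1 (mo_v x) covB21 covB50 hx hx'
        Pool.Agent.Strip051.G.I69_7273.Tab.C.BA25.c_pp_101 noCut_EA noExt_EA F trivial trivial

theorem BA25_pp_102 {κ x : ℝ} (hκ : κ * h0 = ken x) (hx : ((740881858 : ℕ) : ℝ) / S ≤ x) (hx' : x ≤ (((740881858 : ℕ) : ℝ) + (40050571 : ℕ)) / S) :
    TriA PP.cur (VE (h0 * 0) 3 κ (h0 * x) (eng.v x) (h0 * (1 / 20)) (tnt (h0 * x) (1 / 5)) (tbl tK x) (tbl tL x) (tbl (smT h0⁻¹ tC) x)) 1 0 2 2 5 1 1 :=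
  (sideB hx hx').bothA (thrB hx hx') (en_pos (hx1 hx).le) (Or.inl rfl) (Or.inl rfl) fun y y' F =>
    bothA_cert (s1 := true) (s2 := true) rfl hκ (en_pos (hx1 hx).le) (esg_rng (hx1 hx).le (hx2 hx').le).1 (mo_v x) covB21 covB50 hx hx'
        Pool.Agent.Strip051.G.I69_7273.Tab.C.BA25.c_pp_102 noCut_EA noExt_EA F trivial trivial

theorem BA25_pp_112 {κ x : ℝ} (hκ : κ * h0 = ken x) (hx : ((740881858 : ℕ) : ℝ) / S ≤ x) (hx' : x ≤ (((740881858 : ℕ) : ℝ) + (40050571 : ℕ)) / S) :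
    TriA PP.cur (VE (h0 * 0) 3 κ (h0 * x) (eng.v x) (h0 * (1 / 20)) (tnt (h0 * x) (1 / 5)) (tbl tK x) (tbl tL x) (tbl (smT h0⁻¹ tC) x)) 1 1 2 2 5 1 1 :=
  (sideB hx hx').bothA (thrB hx hx') (en_pos (hx1 hx).le) (Or.inl rfl) (Or.inl rfl) fun y y' F =>
    bothA_cert (s1 := true) (s2 := true) rfl hκ (en_pos (hx1 hx).le) (esg_rng (hx1 hx).le (hx2 hx').le).1 (mo_v x) covB21 covB51 hx hx'
        Pool.Agent.Strip051.G.I69_7273.Tab.C.BA25.c_pp_112 noCut_EA noExt_EA F trivial trivial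

theorem BA25_pp_113 {κ x : ℝ} (hκ : κ * h0 = ken x) (hx : ((740881858 : ℕ) : ℝ) / S ≤ x) (hx' : x ≤ (((740881858 : ℕ) : ℝ) + (40050571 : ℕ)) / S) :
    TriA PP.cur (VE (h0 * 0) 3 κ (h0 * x) (eng.v x) (h0 * (1 / 20)) (tnt (h0 * x) (1 / 5)) (tbl tK x) (tbl tL x) (tbl (smT h0⁻¹ tC) x)) 1 1 3 2 5 1 1 :=
  (sideB hx hx').bothA (thrB hx hx') (en_pos (hx1 hx).le) (Or.inl rfl) (Or.inl rfl) fun y y' F =>
    bothA_cert (s1 := true) (s2 := true) rfl hκ (en_pos (hx1 hx).le) (esg_rng (hx1 hx).le (hx2 hx').le).1 (mo_v x) covB21 covB51 hx hx'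
        Pool.Agent.Strip051.G.I69_7273.Tab.C.BA25.c_pp_113 noCut_EA noExt_EA F trivial trivial

theorem BA25_pp_123 {κ x : ℝ} (hκ : κ * h0 = ken x) (hx : ((740881858 : ℕ) : ℝ) / S ≤ x) (hx' : x ≤ (((740881858 : ℕ) : ℝ) + (40050571 : ℕ)) / S) :
    TriA PP.cur (VE (h0 * 0) 3 κ (h0 * x) (eng.v x) (h0 * (1 / 20)) (tnt (h0 * x) (1 / 5)) (tbl tK x) (tbl tL x) (tbl (smT h0⁻¹ tC) x)) 1 2 3 2 5 1 1 :=
  (sideB hx hx').bothA (thrB hx hx') (en_pos (hx1 hx).le) (Or.inl rfl) (Or.inl rfl) fun y y' F =>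
    bothA_cert (s1 := true) (s2 := true) rfl hκ (en_pos (hx1 hx).le) (esg_rng (hx1 hx).le (hx2 hx').le).1 (mo_v x) covB21 covB52 hx hx'
        Pool.Agent.Strip051.G.I69_7273.Tab.C.BA25.c_pp_123 noCut_EA noExt_EA F trivial trivial

theorem BA25_pp_133 {κ x : ℝ} (hκ : κ * h0 = ken x) (hx : ((740881858 : ℕ) : ℝ) / S ≤ x) (hx' : x ≤ (((740881858 : ℕ) : ℝ) + (40050571 : ℕ)) / S) :
    TriA PP.cur (VE (h0 * 0) 3 κ (h0 * x) (eng.v x) (h0 * (1 / 20)) (tnt (h0 * x) (1 / 5)) (tbl tK x) (tbl tL x) (tbl (smT h0⁻¹ tC) x)) 1 3 3 2 5 1 1 :=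
  (sideB hx hx').bothA (thrB hx hx') (en_pos (hx1 hx).le) (Or.inl rfl) (Or.inl rfl) fun y y' F =>
    bothA_cert (s1 := true) (s2 := true) rfl hκ (en_pos (hx1 hx).le) (esg_rng (hx1 hx).le (hx2 hx').le).1 (mo_v x) covB21 covB53 hx hx'
        Pool.Agent.Strip051.G.I69_7273.Tab.C.BA25.c_pp_133 noCut_EA noExt_EA F trivial trivial

theorem BA25_pp_202 {κ x : ℝ} (hκ : κ * h0 = ken x) (hx : ((740881858 : ℕ) : ℝ) / S ≤ x) (hx' : x ≤ (((740881858 : ℕ) : ℝ) + (40050571 : ℕ)) / S) :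
    TriA PP.cur (VE (h0 * 0) 3 κ (h0 * x) (eng.v x) (h0 * (1 / 20)) (tnt (h0 * x) (1 / 5)) (tbl tK x) (tbl tL x) (tbl (smT h0⁻¹ tC) x)) 2 0 2 2 5 1 1 :=
  (sideB hx hx').bothA (thrB hx hx') (en_pos (hx1 hx).le) (Or.inl rfl) (Or.inl rfl) fun y y' F =>
    (lt_or_ge (h0 * y) 1).elim
      (fun h => bothA_cert (s1 := true) (s2 := true) rfl hκ (en_pos (hx1 hx).le) (esg_rng (hx1 hx).le (hx2 hx').le).1 (mo_v x) covB22a covB50 hx hx'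
        Pool.Agent.Strip051.G.I69_7273.Tab.C.BA25.c_pp_202_a noCut_EA noExt_EA F h trivial)
      (fun h => bothA_cert (s1 := true) (s2 := true) rfl hκ (en_pos (hx1 hx).le) (esg_rng (hx1 hx).le (hx2 hx').le).1 (mo_v x) covB22b covB50 hx hx'
        Pool.Agent.Strip051.G.I69_7273.Tab.C.BA25.c_pp_202_b noCut_EA noExt_EA F h trivial)

theorem BA25_pp_203 {κ x : ℝ} (hκ : κ * h0 = ken x) (hx : ((740881858 : ℕ) : ℝ) / S ≤ x) (hx' : x ≤ (((740881858 : ℕ) : ℝ) + (40050571 : ℕ)) / S) :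
    TriA PP.cur (VE (h0 * 0) 3 κ (h0 * x) (eng.v x) (h0 * (1 / 20)) (tnt (h0 * x) (1 / 5)) (tbl tK x) (tbl tL x) (tbl (smT h0⁻¹ tC) x)) 2 0 3 2 5 1 1 :=
  (sideB hx hx').bothA (thrB hx hx') (en_pos (hx1 hx).le) (Or.inl rfl) (Or.inl rfl) fun y y' F =>
    (lt_or_ge (h0 * y) 1).elim
      (fun h => bothA_cert (s1 := true) (s2 := true) rfl hκ (en_pos (hx1 hx).le) (esg_rng (hx1 hx).le (hx2 hx').le).1 (mo_v x) covB22a covB50 hx hx'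
        Pool.Agent.Strip051.G.I69_7273.Tab.C.BA25.c_pp_203_a noCut_EA noExt_EA F h trivial)
      (fun h => bothA_cert (s1 := true) (s2 := true) rfl hκ (en_pos (hx1 hx).le) (esg_rng (hx1 hx).le (hx2 hx').le).1 (mo_v x) covB22b covB50 hx hx'
        Pool.Agent.Strip051.G.I69_7273.Tab.C.BA25.c_pp_203_b noCut_EA noExt_EA F h trivial)

theorem BA25_pp_213 {κ x : ℝ} (hκ : κ * h0 = ken x) (hx : ((740881858 : ℕ) : ℝ) / S ≤ x) (hx' : x ≤ (((740881858 : ℕ) : ℝ) + (40050571 : ℕ)) / S) :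
    TriA PP.cur (VE (h0 * 0) 3 κ (h0 * x) (eng.v x) (h0 * (1 / 20)) (tnt (h0 * x) (1 / 5)) (tbl tK x) (tbl tL x) (tbl (smT h0⁻¹ tC) x)) 2 1 3 2 5 1 1 :=
  (sideB hx hx').bothA (thrB hx hx') (en_pos (hx1 hx).le) (Or.inl rfl) (Or.inl rfl) fun y y' F =>
    (lt_or_ge (h0 * y) 1).elim
      (fun h => bothA_cert (s1 := true) (s2 := true) rfl hκ (en_pos (hx1 hx).le) (esg_rng (hx1 hx).le (hx2 hx').le).1 (mo_v x) covB22a covB51 hx hx'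
        Pool.Agent.Strip051.G.I69_7273.Tab.C.BA25.c_pp_213_a noCut_EA noExt_EA F h trivial)
      (fun h => bothA_cert (s1 := true) (s2 := true) rfl hκ (en_pos (hx1 hx).le) (esg_rng (hx1 hx).le (hx2 hx').le).1 (mo_v x) covB22b covB51 hx hx'
        Pool.Agent.Strip051.G.I69_7273.Tab.C.BA25.c_pp_213_b noCut_EA noExt_EA F h trivial)

theorem BA25_pp_303 {κ x : ℝ} (hκ : κ * h0 = ken x) (hx : ((740881858 : ℕ) : ℝ) / S ≤ x) (hx' : x ≤ (((740881858 : ℕ) : ℝ) + (40050571 : ℕ)) / S) :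
    TriA PP.cur (VE (h0 * 0) 3 κ (h0 * x) (eng.v x) (h0 * (1 / 20)) (tnt (h0 * x) (1 / 5)) (tbl tK x) (tbl tL x) (tbl (smT h0⁻¹ tC) x)) 3 0 3 2 5 1 1 :=
  (sideB hx hx').bothA (thrB hx hx') (en_pos (hx1 hx).le) (Or.inl rfl) (Or.inl rfl) fun y y' F =>
    bothA_cert (s1 := true) (s2 := true) rfl hκ (en_pos (hx1 hx).le) (esg_rng (hx1 hx).le (hx2 hx').le).1 (mo_v x) covB23 covB50 hx hx'
        Pool.Agent.Strip051.G.I69_7273.Tab.C.BA25.c_pp_303 noCut_EA noExt_EA F trivial trivial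

theorem BA25_pp_313 {κ x : ℝ} (hκ : κ * h0 = ken x) (hx : ((740881858 : ℕ) : ℝ) / S ≤ x) (hx' : x ≤ (((740881858 : ℕ) : ℝ) + (40050571 : ℕ)) / S) :
    TriA PP.cur (VE (h0 * 0) 3 κ (h0 * x) (eng.v x) (h0 * (1 / 20)) (tnt (h0 * x) (1 / 5)) (tbl tK x) (tbl tL x) (tbl (smT h0⁻¹ tC) x)) 3 1 3 2 5 1 1 :=
  (sideB hx hx').bothA (thrB hx hx') (en_pos (hx1 hx).le) (Or.inl rfl) (Or.inl rfl) fun y y' F =>
    bothA_cert (s1 := true) (s2 := true) rfl hκ (en_pos (hx1 hx).le) (esg_rng (hx1 hx).le (hx2 hx').le).1 (mo_v x) covB23 covB51 hx hx'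
        Pool.Agent.Strip051.G.I69_7273.Tab.C.BA25.c_pp_313 noCut_EA noExt_EA F trivial trivial

theorem BA25_pm_001 {κ x : ℝ} (hκ : κ * h0 = ken x) (hx : ((740881858 : ℕ) : ℝ) / S ≤ x) (hx' : x ≤ (((740881858 : ℕ) : ℝ) + (40050571 : ℕ)) / S) :
    TriA PP.cur (VE (h0 * 0) 3 κ (h0 * x) (eng.v x) (h0 * (1 / 20)) (tnt (h0 * x) (1 / 5)) (tbl tK x) (tbl tL x) (tbl (smT h0⁻¹ tC) x)) 0 0 1 2 5 1 (-1) :=
  (sideB hx hx').bothA (thrB hx hx') (en_pos (hx1 hx).le) (Or.inl rfl) (Or.inr rfl) fun y y' F =>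
    bothA_cert (s1 := true) (s2 := false) rfl hκ (en_pos (hx1 hx).le) (esg_rng (hx1 hx).le (hx2 hx').le).1 (mo_v x) covB20 covB50 hx hx'
        Pool.Agent.Strip051.G.I69_7273.Tab.C.BA25.c_pm_001 noCut_EA noExt_EA F trivial trivial

theorem BA25_pm_011 {κ x : ℝ} (hκ : κ * h0 = ken x) (hx : ((740881858 : ℕ) : ℝ) / S ≤ x) (hx' : x ≤ (((740881858 : ℕ) : ℝ) + (40050571 : ℕ)) / S) :
    TriA PP.cur (VE (h0 * 0) 3 κ (h0 * x) (eng.v x) (h0 * (1 / 20)) (tnt (h0 * x) (1 / 5)) (tbl tK x) (tbl tL x) (tbl (smT h0⁻¹ tC) x)) 0 1 1 2 5 1 (-1) :=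
  (sideB hx hx').bothA (thrB hx hx') (en_pos (hx1 hx).le) (Or.inl rfl) (Or.inr rfl) fun y y' F =>
    bothA_cert (s1 := true) (s2 := false) rfl hκ (en_pos (hx1 hx).le) (esg_rng (hx1 hx).le (hx2 hx').le).1 (mo_v x) covB20 covB51 hx hx'
        Pool.Agent.Strip051.G.I69_7273.Tab.C.BA25.c_pm_011 (cutEA_cons (Pool.Agent.Strip051.G.I69_7273.Tab.altB_A011R_25 hκ hx hx') cutEA_nil) noExt_EA F trivial trivial

theorem BA25_pm_012 {κ x : ℝ} (hκ : κ * h0 = ken x) (hx : ((740881858 : ℕ) : ℝ) / S ≤ x) (hx' : x ≤ (((740881858 : ℕ) : ℝ) + (40050571 : ℕ)) / S) :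
    TriA PP.cur (VE (h0 * 0) 3 κ (h0 * x) (eng.v x) (h0 * (1 / 20)) (tnt (h0 * x) (1 / 5)) (tbl tK x) (tbl tL x) (tbl (smT h0⁻¹ tC) x)) 0 1 2 2 5 1 (-1) :=
  (sideB hx hx').bothA (thrB hx hx') (en_pos (hx1 hx).le) (Or.inl rfl) (Or.inr rfl) fun y y' F =>
    bothA_cert (s1 := true) (s2 := false) rfl hκ (en_pos (hx1 hx).le) (esg_rng (hx1 hx).le (hx2 hx').le).1 (mo_v x) covB20 covB51 hx hx'
        Pool.Agent.Strip051.G.I69_7273.Tab.C.BA25.c_pm_012 (cutEA_cons (Pool.Agent.Strip051.G.I69_7273.Tab.altB_A012R_25 hκ hx hx') cutEA_nil) noExt_EA F trivial trivial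

theorem BA25_pm_022 {κ x : ℝ} (hκ : κ * h0 = ken x) (hx : ((740881858 : ℕ) : ℝ) / S ≤ x) (hx' : x ≤ (((740881858 : ℕ) : ℝ) + (40050571 : ℕ)) / S) :
    TriA PP.cur (VE (h0 * 0) 3 κ (h0 * x) (eng.v x) (h0 * (1 / 20)) (tnt (h0 * x) (1 / 5)) (tbl tK x) (tbl tL x) (tbl (smT h0⁻¹ tC) x)) 0 2 2 2 5 1 (-1) :=
  (sideB hx hx').bothA (thrB hx hx') (en_pos (hx1 hx).le) (Or.inl rfl) (Or.inr rfl) fun y y' F =>
    bothA_cert (s1 := true) (s2 := false) rfl hκ (en_pos (hx1 hx).le) (esg_rng (hx1 hx).le (hx2 hx').le).1 (mo_v x) covB20 covB52 hx hx'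
        Pool.Agent.Strip051.G.I69_7273.Tab.C.BA25.c_pm_022 (cutEA_cons (Pool.Agent.Strip051.G.I69_7273.Tab.altB_A022R_25 hκ hx hx') cutEA_nil) noExt_EA F trivial trivial

theorem BA25_pm_023 {κ x : ℝ} (hκ : κ * h0 = ken x) (hx : ((740881858 : ℕ) : ℝ) / S ≤ x) (hx' : x ≤ (((740881858 : ℕ) : ℝ) + (40050571 : ℕ)) / S) :
    TriA PP.cur (VE (h0 * 0) 3 κ (h0 * x) (eng.v x) (h0 * (1 / 20)) (tnt (h0 * x) (1 / 5)) (tbl tK x) (tbl tL x) (tbl (smT h0⁻¹ tC) x)) 0 2 3 2 5 1 (-1) :=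
  (sideB hx hx').bothA (thrB hx hx') (en_pos (hx1 hx).le) (Or.inl rfl) (Or.inr rfl) fun y y' F =>
    bothA_cert (s1 := true) (s2 := false) rfl hκ (en_pos (hx1 hx).le) (esg_rng (hx1 hx).le (hx2 hx').le).1 (mo_v x) covB20 covB52 hx hx'
        Pool.Agent.Strip051.G.I69_7273.Tab.C.BA25.c_pm_023 noCut_EA noExt_EA F trivial trivial

theorem BA25_pm_033 {κ x : ℝ} (hκ : κ * h0 = ken x) (hx : ((740881858 : ℕ) : ℝ) / S ≤ x) (hx' : x ≤ (((740881858 : ℕ) : ℝ) + (40050571 : ℕ)) / S) :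
    TriA PP.cur (VE (h0 * 0) 3 κ (h0 * x) (eng.v x) (h0 * (1 / 20)) (tnt (h0 * x) (1 / 5)) (tbl tK x) (tbl tL x) (tbl (smT h0⁻¹ tC) x)) 0 3 3 2 5 1 (-1) :=
  (sideB hx hx').bothA (thrB hx hx') (en_pos (hx1 hx).le) (Or.inl rfl) (Or.inr rfl) fun y y' F =>
    bothA_cert (s1 := true) (s2 := false) rfl hκ (en_pos (hx1 hx).le) (esg_rng (hx1 hx).le (hx2 hx').le).1 (mo_v x) covB20 covB53 hx hx'
        Pool.Agent.Strip051.G.I69_7273.Tab.C.BA25.c_pm_033 noCut_EA noExt_EA F trivial trivial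

theorem BA25_pm_101 {κ x : ℝ} (hκ : κ * h0 = ken x) (hx : ((740881858 : ℕ) : ℝ) / S ≤ x) (hx' : x ≤ (((740881858 : ℕ) : ℝ) + (40050571 : ℕ)) / S) :
    TriA PP.cur (VE (h0 * 0) 3 κ (h0 * x) (eng.v x) (h0 * (1 / 20)) (tnt (h0 * x) (1 / 5)) (tbl tK x) (tbl tL x) (tbl (smT h0⁻¹ tC) x)) 1 0 1 2 5 1 (-1) :=
  (sideB hx hx').bothA (thrB hx hx') (en_pos (hx1 hx).le) (Or.inl rfl) (Or.inr rfl) fun y y' F =>
    bothA_cert (s1 := true) (s2 := false) rfl hκ (en_pos (hx1 hx).le) (esg_rng (hx1 hx).le (hx2 hx').le).1 (mo_v x) covB21 covB50 hx hx'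
        Pool.Agent.Strip051.G.I69_7273.Tab.C.BA25.c_pm_101 noCut_EA noExt_EA F trivial trivial

theorem BA25_pm_102 {κ x : ℝ} (hκ : κ * h0 = ken x) (hx : ((740881858 : ℕ) : ℝ) / S ≤ x) (hx' : x ≤ (((740881858 : ℕ) : ℝ) + (40050571 : ℕ)) / S) :
    TriA PP.cur (VE (h0 * 0) 3 κ (h0 * x) (eng.v x) (h0 * (1 / 20)) (tnt (h0 * x) (1 / 5)) (tbl tK x) (tbl tL x) (tbl (smT h0⁻¹ tC) x)) 1 0 2 2 5 1 (-1) :=
  (sideB hx hx').bothA (thrB hx hx') (en_pos (hx1 hx).le) (Or.inl rfl) (Or.inr rfl) fun y y' F =>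
    bothA_cert (s1 := true) (s2 := false) rfl hκ (en_pos (hx1 hx).le) (esg_rng (hx1 hx).le (hx2 hx').le).1 (mo_v x) covB21 covB50 hx hx'
        Pool.Agent.Strip051.G.I69_7273.Tab.C.BA25.c_pm_102 noCut_EA noExt_EA F trivial trivial

theorem BA25_pm_112 {κ x : ℝ} (hκ : κ * h0 = ken x) (hx : ((740881858 : ℕ) : ℝ) / S ≤ x) (hx' : x ≤ (((740881858 : ℕ) : ℝ) + (40050571 : ℕ)) / S) :
    TriA PP.cur (VE (h0 * 0) 3 κ (h0 * x) (eng.v x) (h0 * (1 / 20)) (tnt (h0 * x) (1 / 5)) (tbl tK x) (tbl tL x) (tbl (smT h0⁻¹ tC) x)) 1 1 2 2 5 1 (-1) :=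
  (sideB hx hx').bothA (thrB hx hx') (en_pos (hx1 hx).le) (Or.inl rfl) (Or.inr rfl) fun y y' F =>
    bothA_cert (s1 := true) (s2 := false) rfl hκ (en_pos (hx1 hx).le) (esg_rng (hx1 hx).le (hx2 hx').le).1 (mo_v x) covB21 covB51 hx hx'
        Pool.Agent.Strip051.G.I69_7273.Tab.C.BA25.c_pm_112 noCut_EA noExt_EA F trivial trivial

theorem BA25_pm_113 {κ x : ℝ} (hκ : κ * h0 = ken x) (hx : ((740881858 : ℕ) : ℝ) / S ≤ x) (hx' : x ≤ (((740881858 : ℕ) : ℝ) + (40050571 : ℕ)) / S) :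
    TriA PP.cur (VE (h0 * 0) 3 κ (h0 * x) (eng.v x) (h0 * (1 / 20)) (tnt (h0 * x) (1 / 5)) (tbl tK x) (tbl tL x) (tbl (smT h0⁻¹ tC) x)) 1 1 3 2 5 1 (-1) :=
  (sideB hx hx').bothA (thrB hx hx') (en_pos (hx1 hx).le) (Or.inl rfl) (Or.inr rfl) fun y y' F =>
    bothA_cert (s1 := true) (s2 := false) rfl hκ (en_pos (hx1 hx).le) (esg_rng (hx1 hx).le (hx2 hx').le).1 (mo_v x) covB21 covB51 hx hx'
        Pool.Agent.Strip051.G.I69_7273.Tab.C.BA25.c_pm_113 noCut_EA noExt_EA F trivial trivial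

theorem BA25_pm_123 {κ x : ℝ} (hκ : κ * h0 = ken x) (hx : ((740881858 : ℕ) : ℝ) / S ≤ x) (hx' : x ≤ (((740881858 : ℕ) : ℝ) + (40050571 : ℕ)) / S) :
    TriA PP.cur (VE (h0 * 0) 3 κ (h0 * x) (eng.v x) (h0 * (1 / 20)) (tnt (h0 * x) (1 / 5)) (tbl tK x) (tbl tL x) (tbl (smT h0⁻¹ tC) x)) 1 2 3 2 5 1 (-1) :=
  (sideB hx hx').bothA (thrB hx hx') (en_pos (hx1 hx).le) (Or.inl rfl) (Or.inr rfl) fun y y' F =>
    bothA_cert (s1 := true) (s2 := false) rfl hκ (en_pos (hx1 hx).le) (esg_rng (hx1 hx).le (hx2 hx').le).1 (mo_v x) covB21 covB52 hx hx'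
        Pool.Agent.Strip051.G.I69_7273.Tab.C.BA25.c_pm_123 noCut_EA noExt_EA F trivial trivial

theorem BA25_pm_133 {κ x : ℝ} (hκ : κ * h0 = ken x) (hx : ((740881858 : ℕ) : ℝ) / S ≤ x) (hx' : x ≤ (((740881858 : ℕ) : ℝ) + (40050571 : ℕ)) / S) :
    TriA PP.cur (VE (h0 * 0) 3 κ (h0 * x) (eng.v x) (h0 * (1 / 20)) (tnt (h0 * x) (1 / 5)) (tbl tK x) (tbl tL x) (tbl (smT h0⁻¹ tC) x)) 1 3 3 2 5 1 (-1) :=
  (sideB hx hx').bothA (thrB hx hx') (en_pos (hx1 hx).le) (Or.inl rfl) (Or.inr rfl) fun y y' F =>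
    bothA_cert (s1 := true) (s2 := false) rfl hκ (en_pos (hx1 hx).le) (esg_rng (hx1 hx).le (hx2 hx').le).1 (mo_v x) covB21 covB53 hx hx'
        Pool.Agent.Strip051.G.I69_7273.Tab.C.BA25.c_pm_133 noCut_EA noExt_EA F trivial trivial

theorem BA25_pm_202 {κ x : ℝ} (hκ : κ * h0 = ken x) (hx : ((740881858 : ℕ) : ℝ) / S ≤ x) (hx' : x ≤ (((740881858 : ℕ) : ℝ) + (40050571 : ℕ)) / S) :
    TriA PP.cur (VE (h0 * 0) 3 κ (h0 * x) (eng.v x) (h0 * (1 / 20)) (tnt (h0 * x) (1 / 5)) (tbl tK x) (tbl tL x) (tbl (smT h0⁻¹ tC) x)) 2 0 2 2 5 1 (-1) :=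
  (sideB hx hx').bothA (thrB hx hx') (en_pos (hx1 hx).le) (Or.inl rfl) (Or.inr rfl) fun y y' F =>
    (lt_or_ge (h0 * y) 1).elim
      (fun h => bothA_cert (s1 := true) (s2 := false) rfl hκ (en_pos (hx1 hx).le) (esg_rng (hx1 hx).le (hx2 hx').le).1 (mo_v x) covB22a covB50 hx hx'
        Pool.Agent.Strip051.G.I69_7273.Tab.C.BA25.c_pm_202_a noCut_EA noExt_EA F h trivial)
      (fun h => bothA_cert (s1 := true) (s2 := false) rfl hκ (en_pos (hx1 hx).le) (esg_rng (hx1 hx).le (hx2 hx').le).1 (mo_v x) covB22b covB50 hx hx'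
        Pool.Agent.Strip051.G.I69_7273.Tab.C.BA25.c_pm_202_b noCut_EA noExt_EA F h trivial)

theorem BA25_pm_203 {κ x : ℝ} (hκ : κ * h0 = ken x) (hx : ((740881858 : ℕ) : ℝ) / S ≤ x) (hx' : x ≤ (((740881858 : ℕ) : ℝ) + (40050571 : ℕ)) / S) :
    TriA PP.cur (VE (h0 * 0) 3 κ (h0 * x) (eng.v x) (h0 * (1 / 20)) (tnt (h0 * x) (1 / 5)) (tbl tK x) (tbl tL x) (tbl (smT h0⁻¹ tC) x)) 2 0 3 2 5 1 (-1) :=
  (sideB hx hx').bothA (thrB hx hx') (en_pos (hx1 hx).le) (Or.inl rfl) (Or.inr rfl) fun y y' F =>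
    (lt_or_ge (h0 * y) 1).elim
      (fun h => bothA_cert (s1 := true) (s2 := false) rfl hκ (en_pos (hx1 hx).le) (esg_rng (hx1 hx).le (hx2 hx').le).1 (mo_v x) covB22a covB50 hx hx'
        Pool.Agent.Strip051.G.I69_7273.Tab.C.BA25.c_pm_203_a noCut_EA noExt_EA F h trivial)
      (fun h => bothA_cert (s1 := true) (s2 := false) rfl hκ (en_pos (hx1 hx).le) (esg_rng (hx1 hx).le (hx2 hx').le).1 (mo_v x) covB22b covB50 hx hx'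
        Pool.Agent.Strip051.G.I69_7273.Tab.C.BA25.c_pm_203_b noCut_EA noExt_EA F h trivial)

theorem BA25_pm_213 {κ x : ℝ} (hκ : κ * h0 = ken x) (hx : ((740881858 : ℕ) : ℝ) / S ≤ x) (hx' : x ≤ (((740881858 : ℕ) : ℝ) + (40050571 : ℕ)) / S) :
    TriA PP.cur (VE (h0 * 0) 3 κ (h0 * x) (eng.v x) (h0 * (1 / 20)) (tnt (h0 * x) (1 / 5)) (tbl tK x) (tbl tL x) (tbl (smT h0⁻¹ tC) x)) 2 1 3 2 5 1 (-1) :=
  (sideB hx hx').bothA (thrB hx hx') (en_pos (hx1 hx).le) (Or.inl rfl) (Or.inr rfl) fun y y' F =>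
    (lt_or_ge (h0 * y) 1).elim
      (fun h => bothA_cert (s1 := true) (s2 := false) rfl hκ (en_pos (hx1 hx).le) (esg_rng (hx1 hx).le (hx2 hx').le).1 (mo_v x) covB22a covB51 hx hx'
        Pool.Agent.Strip051.G.I69_7273.Tab.C.BA25.c_pm_213_a noCut_EA noExt_EA F h trivial)
      (fun h => bothA_cert (s1 := true) (s2 := false) rfl hκ (en_pos (hx1 hx).le) (esg_rng (hx1 hx).le (hx2 hx').le).1 (mo_v x) covB22b covB51 hx hx'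
        Pool.Agent.Strip051.G.I69_7273.Tab.C.BA25.c_pm_213_b noCut_EA noExt_EA F h trivial)

theorem BA25_pm_303 {κ x : ℝ} (hκ : κ * h0 = ken x) (hx : ((740881858 : ℕ) : ℝ) / S ≤ x) (hx' : x ≤ (((740881858 : ℕ) : ℝ) + (40050571 : ℕ)) / S) :
    TriA PP.cur (VE (h0 * 0) 3 κ (h0 * x) (eng.v x) (h0 * (1 / 20)) (tnt (h0 * x) (1 / 5)) (tbl tK x) (tbl tL x) (tbl (smT h0⁻¹ tC) x)) 3 0 3 2 5 1 (-1) :=
  (sideB hx hx').bothA (thrB hx hx') (en_pos (hx1 hx).le) (Or.inl rfl) (Or.inr rfl) fun y y' F =>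
    bothA_cert (s1 := true) (s2 := false) rfl hκ (en_pos (hx1 hx).le) (esg_rng (hx1 hx).le (hx2 hx').le).1 (mo_v x) covB23 covB50 hx hx'
        Pool.Agent.Strip051.G.I69_7273.Tab.C.BA25.c_pm_303 noCut_EA noExt_EA F trivial trivial

theorem BA25_pm_313 {κ x : ℝ} (hκ : κ * h0 = ken x) (hx : ((740881858 : ℕ) : ℝ) / S ≤ x) (hx' : x ≤ (((740881858 : ℕ) : ℝ) + (40050571 : ℕ)) / S) :
    TriA PP.cur (VE (h0 * 0) 3 κ (h0 * x) (eng.v x) (h0 * (1 / 20)) (tnt (h0 * x) (1 / 5)) (tbl tK x) (tbl tL x) (tbl (smT h0⁻¹ tC) x)) 3 1 3 2 5 1 (-1) :=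
  (sideB hx hx').bothA (thrB hx hx') (en_pos (hx1 hx).le) (Or.inl rfl) (Or.inr rfl) fun y y' F =>
    bothA_cert (s1 := true) (s2 := false) rfl hκ (en_pos (hx1 hx).le) (esg_rng (hx1 hx).le (hx2 hx').le).1 (mo_v x) covB23 covB51 hx hx'
        Pool.Agent.Strip051.G.I69_7273.Tab.C.BA25.c_pm_313 noCut_EA noExt_EA F trivial trivial

theorem BA25_mm_001 {κ x : ℝ} (hκ : κ * h0 = ken x) (hx : ((740881858 : ℕ) : ℝ) / S ≤ x) (hx' : x ≤ (((740881858 : ℕ) : ℝ) + (40050571 : ℕ)) / S) :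
    TriA PP.cur (VE (h0 * 0) 3 κ (h0 * x) (eng.v x) (h0 * (1 / 20)) (tnt (h0 * x) (1 / 5)) (tbl tK x) (tbl tL x) (tbl (smT h0⁻¹ tC) x)) 0 0 1 2 5 (-1) (-1) :=
  (sideB hx hx').bothA (thrB hx hx') (en_pos (hx1 hx).le) (Or.inr rfl) (Or.inr rfl) fun y y' F =>
    bothA_cert (s1 := false) (s2 := false) rfl hκ (en_pos (hx1 hx).le) (esg_rng (hx1 hx).le (hx2 hx').le).1 (mo_v x) covB20 covB50 hx hx'
        Pool.Agent.Strip051.G.I69_7273.Tab.C.BA25.c_mm_001 noCut_EA noExt_EA F trivial trivial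

theorem BA25_mm_011 {κ x : ℝ} (hκ : κ * h0 = ken x) (hx : ((740881858 : ℕ) : ℝ) / S ≤ x) (hx' : x ≤ (((740881858 : ℕ) : ℝ) + (40050571 : ℕ)) / S) :
    TriA PP.cur (VE (h0 * 0) 3 κ (h0 * x) (eng.v x) (h0 * (1 / 20)) (tnt (h0 * x) (1 / 5)) (tbl tK x) (tbl tL x) (tbl (smT h0⁻¹ tC) x)) 0 1 1 2 5 (-1) (-1) :=
  (sideB hx hx').bothA (thrB hx hx') (en_pos (hx1 hx).le) (Or.inr rfl) (Or.inr rfl) fun y y' F =>
    bothA_cert (s1 := false) (s2 := false) rfl hκ (en_pos (hx1 hx).le) (esg_rng (hx1 hx).le (hx2 hx').le).1 (mo_v x) covB20 covB51 hx hx'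
        Pool.Agent.Strip051.G.I69_7273.Tab.C.BA25.c_mm_011 noCut_EA noExt_EA F trivial trivial

theorem BA25_mm_012 {κ x : ℝ} (hκ : κ * h0 = ken x) (hx : ((740881858 : ℕ) : ℝ) / S ≤ x) (hx' : x ≤ (((740881858 : ℕ) : ℝ) + (40050571 : ℕ)) / S) :
    TriA PP.cur (VE (h0 * 0) 3 κ (h0 * x) (eng.v x) (h0 * (1 / 20)) (tnt (h0 * x) (1 / 5)) (tbl tK x) (tbl tL x) (tbl (smT h0⁻¹ tC) x)) 0 1 2 2 5 (-1) (-1) :=
  (sideB hx hx').bothA (thrB hx hx') (en_pos (hx1 hx).le) (Or.inr rfl) (Or.inr rfl) fun y y' F =>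
    bothA_cert (s1 := false) (s2 := false) rfl hκ (en_pos (hx1 hx).le) (esg_rng (hx1 hx).le (hx2 hx').le).1 (mo_v x) covB20 covB51 hx hx'
        Pool.Agent.Strip051.G.I69_7273.Tab.C.BA25.c_mm_012 noCut_EA noExt_EA F trivial trivial

theorem BA25_mm_022 {κ x : ℝ} (hκ : κ * h0 = ken x) (hx : ((740881858 : ℕ) : ℝ) / S ≤ x) (hx' : x ≤ (((740881858 : ℕ) : ℝ) + (40050571 : ℕ)) / S) :
    TriA PP.cur (VE (h0 * 0) 3 κ (h0 * x) (eng.v x) (h0 * (1 / 20)) (tnt (h0 * x) (1 / 5)) (tbl tK x) (tbl tL x) (tbl (smT h0⁻¹ tC) x)) 0 2 2 2 5 (-1) (-1) :=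
  (sideB hx hx').bothA (thrB hx hx') (en_pos (hx1 hx).le) (Or.inr rfl) (Or.inr rfl) fun y y' F =>
    bothA_cert (s1 := false) (s2 := false) rfl hκ (en_pos (hx1 hx).le) (esg_rng (hx1 hx).le (hx2 hx').le).1 (mo_v x) covB20 covB52 hx hx'
        Pool.Agent.Strip051.G.I69_7273.Tab.C.BA25.c_mm_022 noCut_EA noExt_EA F trivial trivial

theorem BA25_mm_023 {κ x : ℝ} (hκ : κ * h0 = ken x) (hx : ((740881858 : ℕ) : ℝ) / S ≤ x) (hx' : x ≤ (((740881858 : ℕ) : ℝ) + (40050571 : ℕ)) / S) :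
    TriA PP.cur (VE (h0 * 0) 3 κ (h0 * x) (eng.v x) (h0 * (1 / 20)) (tnt (h0 * x) (1 / 5)) (tbl tK x) (tbl tL x) (tbl (smT h0⁻¹ tC) x)) 0 2 3 2 5 (-1) (-1) :=
  (sideB hx hx').bothA (thrB hx hx') (en_pos (hx1 hx).le) (Or.inr rfl) (Or.inr rfl) fun y y' F =>
    bothA_cert (s1 := false) (s2 := false) rfl hκ (en_pos (hx1 hx).le) (esg_rng (hx1 hx).le (hx2 hx').le).1 (mo_v x) covB20 covB52 hx hx'
        Pool.Agent.Strip051.G.I69_7273.Tab.C.BA25.c_mm_023 noCut_EA noExt_EA F trivial trivial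

theorem BA25_mm_033 {κ x : ℝ} (hκ : κ * h0 = ken x) (hx : ((740881858 : ℕ) : ℝ) / S ≤ x) (hx' : x ≤ (((740881858 : ℕ) : ℝ) + (40050571 : ℕ)) / S) :
    TriA PP.cur (VE (h0 * 0) 3 κ (h0 * x) (eng.v x) (h0 * (1 / 20)) (tnt (h0 * x) (1 / 5)) (tbl tK x) (tbl tL x) (tbl (smT h0⁻¹ tC) x)) 0 3 3 2 5 (-1) (-1) :=
  (sideB hx hx').bothA (thrB hx hx') (en_pos (hx1 hx).le) (Or.inr rfl) (Or.inr rfl) fun y y' F =>
    bothA_cert (s1 := false) (s2 := false) rfl hκ (en_pos (hx1 hx).le) (esg_rng (hx1 hx).le (hx2 hx').le).1 (mo_v x) covB20 covB53 hx hx'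
        Pool.Agent.Strip051.G.I69_7273.Tab.C.BA25.c_mm_033 noCut_EA noExt_EA F trivial trivial

theorem BA25_mm_101 {κ x : ℝ} (hκ : κ * h0 = ken x) (hx : ((740881858 : ℕ) : ℝ) / S ≤ x) (hx' : x ≤ (((740881858 : ℕ) : ℝ) + (40050571 : ℕ)) / S) :
    TriA PP.cur (VE (h0 * 0) 3 κ (h0 * x) (eng.v x) (h0 * (1 / 20)) (tnt (h0 * x) (1 / 5)) (tbl tK x) (tbl tL x) (tbl (smT h0⁻¹ tC) x)) 1 0 1 2 5 (-1) (-1) :=
  (sideB hx hx').bothA (thrB hx hx') (en_pos (hx1 hx).le) (Or.inr rfl) (Or.inr rfl) fun y y' F =>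
    bothA_cert (s1 := false) (s2 := false) rfl hκ (en_pos (hx1 hx).le) (esg_rng (hx1 hx).le (hx2 hx').le).1 (mo_v x) covB21 covB50 hx hx'
        Pool.Agent.Strip051.G.I69_7273.Tab.C.BA25.c_mm_101 noCut_EA noExt_EA F trivial trivial

theorem BA25_mm_102 {κ x : ℝ} (hκ : κ * h0 = ken x) (hx : ((740881858 : ℕ) : ℝ) / S ≤ x) (hx' : x ≤ (((740881858 : ℕ) : ℝ) + (40050571 : ℕ)) / S) :
    TriA PP.cur (VE (h0 * 0) 3 κ (h0 * x) (eng.v x) (h0 * (1 / 20)) (tnt (h0 * x) (1 / 5)) (tbl tK x) (tbl tL x) (tbl (smT h0⁻¹ tC) x)) 1 0 2 2 5 (-1) (-1) :=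
  (sideB hx hx').bothA (thrB hx hx') (en_pos (hx1 hx).le) (Or.inr rfl) (Or.inr rfl) fun y y' F =>
    bothA_cert (s1 := false) (s2 := false) rfl hκ (en_pos (hx1 hx).le) (esg_rng (hx1 hx).le (hx2 hx').le).1 (mo_v x) covB21 covB50 hx hx'
        Pool.Agent.Strip051.G.I69_7273.Tab.C.BA25.c_mm_102 noCut_EA noExt_EA F trivial trivial

theorem BA25_mm_112 {κ x : ℝ} (hκ : κ * h0 = ken x) (hx : ((740881858 : ℕ) : ℝ) / S ≤ x) (hx' : x ≤ (((740881858 : ℕ) : ℝ) + (40050571 : ℕ)) / S) :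
    TriA PP.cur (VE (h0 * 0) 3 κ (h0 * x) (eng.v x) (h0 * (1 / 20)) (tnt (h0 * x) (1 / 5)) (tbl tK x) (tbl tL x) (tbl (smT h0⁻¹ tC) x)) 1 1 2 2 5 (-1) (-1) :=
  (sideB hx hx').bothA (thrB hx hx') (en_pos (hx1 hx).le) (Or.inr rfl) (Or.inr rfl) fun y y' F =>
    bothA_cert (s1 := false) (s2 := false) rfl hκ (en_pos (hx1 hx).le) (esg_rng (hx1 hx).le (hx2 hx').le).1 (mo_v x) covB21 covB51 hx hx'
        Pool.Agent.Strip051.G.I69_7273.Tab.C.BA25.c_mm_112 noCut_EA noExt_EA F trivial trivial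

theorem BA25_mm_113 {κ x : ℝ} (hκ : κ * h0 = ken x) (hx : ((740881858 : ℕ) : ℝ) / S ≤ x) (hx' : x ≤ (((740881858 : ℕ) : ℝ) + (40050571 : ℕ)) / S) :
    TriA PP.cur (VE (h0 * 0) 3 κ (h0 * x) (eng.v x) (h0 * (1 / 20)) (tnt (h0 * x) (1 / 5)) (tbl tK x) (tbl tL x) (tbl (smT h0⁻¹ tC) x)) 1 1 3 2 5 (-1) (-1) :=
  (sideB hx hx').bothA (thrB hx hx') (en_pos (hx1 hx).le) (Or.inr rfl) (Or.inr rfl) fun y y' F =>
    bothA_cert (s1 := false) (s2 := false) rfl hκ (en_pos (hx1 hx).le) (esg_rng (hx1 hx).le (hx2 hx').le).1 (mo_v x) covB21 covB51 hx hx'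
        Pool.Agent.Strip051.G.I69_7273.Tab.C.BA25.c_mm_113 noCut_EA noExt_EA F trivial trivial

theorem BA25_mm_123 {κ x : ℝ} (hκ : κ * h0 = ken x) (hx : ((740881858 : ℕ) : ℝ) / S ≤ x) (hx' : x ≤ (((740881858 : ℕ) : ℝ) + (40050571 : ℕ)) / S) :
    TriA PP.cur (VE (h0 * 0) 3 κ (h0 * x) (eng.v x) (h0 * (1 / 20)) (tnt (h0 * x) (1 / 5)) (tbl tK x) (tbl tL x) (tbl (smT h0⁻¹ tC) x)) 1 2 3 2 5 (-1) (-1) :=
  (sideB hx hx').bothA (thrB hx hx') (en_pos (hx1 hx).le) (Or.inr rfl) (Or.inr rfl) fun y y' F =>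
    bothA_cert (s1 := false) (s2 := false) rfl hκ (en_pos (hx1 hx).le) (esg_rng (hx1 hx).le (hx2 hx').le).1 (mo_v x) covB21 covB52 hx hx'
        Pool.Agent.Strip051.G.I69_7273.Tab.C.BA25.c_mm_123 noCut_EA noExt_EA F trivial trivial

theorem BA25_mm_133 {κ x : ℝ} (hκ : κ * h0 = ken x) (hx : ((740881858 : ℕ) : ℝ) / S ≤ x) (hx' : x ≤ (((740881858 : ℕ) : ℝ) + (40050571 : ℕ)) / S) :
    TriA PP.cur (VE (h0 * 0) 3 κ (h0 * x) (eng.v x) (h0 * (1 / 20)) (tnt (h0 * x) (1 / 5)) (tbl tK x) (tbl tL x) (tbl (smT h0⁻¹ tC) x)) 1 3 3 2 5 (-1) (-1) :=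
  (sideB hx hx').bothA (thrB hx hx') (en_pos (hx1 hx).le) (Or.inr rfl) (Or.inr rfl) fun y y' F =>
    bothA_cert (s1 := false) (s2 := false) rfl hκ (en_pos (hx1 hx).le) (esg_rng (hx1 hx).le (hx2 hx').le).1 (mo_v x) covB21 covB53 hx hx'
        Pool.Agent.Strip051.G.I69_7273.Tab.C.BA25.c_mm_133 noCut_EA noExt_EA F trivial trivial

theorem BA25_mm_202 {κ x : ℝ} (hκ : κ * h0 = ken x) (hx : ((740881858 : ℕ) : ℝ) / S ≤ x) (hx' : x ≤ (((740881858 : ℕ) : ℝ) + (40050571 : ℕ)) / S) :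
    TriA PP.cur (VE (h0 * 0) 3 κ (h0 * x) (eng.v x) (h0 * (1 / 20)) (tnt (h0 * x) (1 / 5)) (tbl tK x) (tbl tL x) (tbl (smT h0⁻¹ tC) x)) 2 0 2 2 5 (-1) (-1) :=
  (sideB hx hx').bothA (thrB hx hx') (en_pos (hx1 hx).le) (Or.inr rfl) (Or.inr rfl) fun y y' F =>
    (lt_or_ge (h0 * y) 1).elim
      (fun h => bothA_cert (s1 := false) (s2 := false) rfl hκ (en_pos (hx1 hx).le) (esg_rng (hx1 hx).le (hx2 hx').le).1 (mo_v x) covB22a covB50 hx hx'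
        Pool.Agent.Strip051.G.I69_7273.Tab.C.BA25.c_mm_202_a noCut_EA noExt_EA F h trivial)
      (fun h => bothA_cert (s1 := false) (s2 := false) rfl hκ (en_pos (hx1 hx).le) (esg_rng (hx1 hx).le (hx2 hx').le).1 (mo_v x) covB22b covB50 hx hx'
        Pool.Agent.Strip051.G.I69_7273.Tab.C.BA25.c_mm_202_b noCut_EA noExt_EA F h trivial)

theorem BA25_mm_203 {κ x : ℝ} (hκ : κ * h0 = ken x) (hx : ((740881858 : ℕ) : ℝ) / S ≤ x) (hx' : x ≤ (((740881858 : ℕ) : ℝ) + (40050571 : ℕ)) / S) :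
    TriA PP.cur (VE (h0 * 0) 3 κ (h0 * x) (eng.v x) (h0 * (1 / 20)) (tnt (h0 * x) (1 / 5)) (tbl tK x) (tbl tL x) (tbl (smT h0⁻¹ tC) x)) 2 0 3 2 5 (-1) (-1) :=
  (sideB hx hx').bothA (thrB hx hx') (en_pos (hx1 hx).le) (Or.inr rfl) (Or.inr rfl) fun y y' F =>
    (lt_or_ge (h0 * y) 1).elim
      (fun h => bothA_cert (s1 := false) (s2 := false) rfl hκ (en_pos (hx1 hx).le) (esg_rng (hx1 hx).le (hx2 hx').le).1 (mo_v x) covB22a covB50 hx hx'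
        Pool.Agent.Strip051.G.I69_7273.Tab.C.BA25.c_mm_203_a noCut_EA noExt_EA F h trivial)
      (fun h => bothA_cert (s1 := false) (s2 := false) rfl hκ (en_pos (hx1 hx).le) (esg_rng (hx1 hx).le (hx2 hx').le).1 (mo_v x) covB22b covB50 hx hx'
        Pool.Agent.Strip051.G.I69_7273.Tab.C.BA25.c_mm_203_b noCut_EA noExt_EA F h trivial)

theorem BA25_mm_213 {κ x : ℝ} (hκ : κ * h0 = ken x) (hx : ((740881858 : ℕ) : ℝ) / S ≤ x) (hx' : x ≤ (((740881858 : ℕ) : ℝ) + (40050571 : ℕ)) / S) :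
    TriA PP.cur (VE (h0 * 0) 3 κ (h0 * x) (eng.v x) (h0 * (1 / 20)) (tnt (h0 * x) (1 / 5)) (tbl tK x) (tbl tL x) (tbl (smT h0⁻¹ tC) x)) 2 1 3 2 5 (-1) (-1) :=
  (sideB hx hx').bothA (thrB hx hx') (en_pos (hx1 hx).le) (Or.inr rfl) (Or.inr rfl) fun y y' F =>
    (lt_or_ge (h0 * y) 1).elim
      (fun h => bothA_cert (s1 := false) (s2 := false) rfl hκ (en_pos (hx1 hx).le) (esg_rng (hx1 hx).le (hx2 hx').le).1 (mo_v x) covB22a covB51 hx hx'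
        Pool.Agent.Strip051.G.I69_7273.Tab.C.BA25.c_mm_213_a noCut_EA noExt_EA F h trivial)
      (fun h => bothA_cert (s1 := false) (s2 := false) rfl hκ (en_pos (hx1 hx).le) (esg_rng (hx1 hx).le (hx2 hx').le).1 (mo_v x) covB22b covB51 hx hx'
        Pool.Agent.Strip051.G.I69_7273.Tab.C.BA25.c_mm_213_b noCut_EA noExt_EA F h trivial)

theorem BA25_mm_303 {κ x : ℝ} (hκ : κ * h0 = ken x) (hx : ((740881858 : ℕ) : ℝ) / S ≤ x) (hx' : x ≤ (((740881858 : ℕ) : ℝ) + (40050571 : ℕ)) / S) :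
    TriA PP.cur (VE (h0 * 0) 3 κ (h0 * x) (eng.v x) (h0 * (1 / 20)) (tnt (h0 * x) (1 / 5)) (tbl tK x) (tbl tL x) (tbl (smT h0⁻¹ tC) x)) 3 0 3 2 5 (-1) (-1) :=
  (sideB hx hx').bothA (thrB hx hx') (en_pos (hx1 hx).le) (Or.inr rfl) (Or.inr rfl) fun y y' F =>
    bothA_cert (s1 := false) (s2 := false) rfl hκ (en_pos (hx1 hx).le) (esg_rng (hx1 hx).le (hx2 hx').le).1 (mo_v x) covB23 covB50 hx hx'
        Pool.Agent.Strip051.G.I69_7273.Tab.C.BA25.c_mm_303 noCut_EA noExt_EA F trivial trivial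

theorem BA25_mm_313 {κ x : ℝ} (hκ : κ * h0 = ken x) (hx : ((740881858 : ℕ) : ℝ) / S ≤ x) (hx' : x ≤ (((740881858 : ℕ) : ℝ) + (40050571 : ℕ)) / S) :
    TriA PP.cur (VE (h0 * 0) 3 κ (h0 * x) (eng.v x) (h0 * (1 / 20)) (tnt (h0 * x) (1 / 5)) (tbl tK x) (tbl tL x) (tbl (smT h0⁻¹ tC) x)) 3 1 3 2 5 (-1) (-1) :=
  (sideB hx hx').bothA (thrB hx hx') (en_pos (hx1 hx).le) (Or.inr rfl) (Or.inr rfl) fun y y' F =>
    bothA_cert (s1 := false) (s2 := false) rfl hκ (en_pos (hx1 hx).le) (esg_rng (hx1 hx).le (hx2 hx').le).1 (mo_v x) covB23 covB51 hx hx'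
        Pool.Agent.Strip051.G.I69_7273.Tab.C.BA25.c_mm_313 noCut_EA noExt_EA F trivial trivial

theorem BA25 {κ x : ℝ} (hκ : κ * h0 = ken x) (hx : ((740881858 : ℕ) : ℝ) / S ≤ x) (hx' : x ≤ (((740881858 : ℕ) : ℝ) + (40050571 : ℕ)) / S) : AllTA PP.cur (VE (h0 * 0) 3 κ (h0 * x) (eng.v x) (h0 * (1 / 20)) (tnt (h0 * x) (1 / 5)) (tbl tK x) (tbl tL x) (tbl (smT h0⁻¹ tC) x)) 2 5 where
  pp := all17 (Q := fun a b c => TriA PP.cur (VE (h0 * 0) 3 κ (h0 * x) (eng.v x) (h0 * (1 / 20)) (tnt (h0 * x) (1 / 5)) (tbl tK x) (tbl tL x) (tbl (smT h0⁻¹ tC) x)) a b c 2 5 1 1)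
    (BA25_pp_001 hκ hx hx') (BA25_pp_011 hκ hx hx') (BA25_pp_012 hκ hx hx') (BA25_pp_022 hκ hx hx') (BA25_pp_023 hκ hx hx') (BA25_pp_033 hκ hx hx') (BA25_pp_101 hκ hx hx') (BA25_pp_102 hκ hx hx') (BA25_pp_112 hκ hx hx') (BA25_pp_113 hκ hx hx') (BA25_pp_123 hκ hx hx') (BA25_pp_133 hκ hx hx') (BA25_pp_202 hκ hx hx') (BA25_pp_203 hκ hx hx') (BA25_pp_213 hκ hx hx') (BA25_pp_303 hκ hx hx') (BA25_pp_313 hκ hx hx')
  pm := all17 (Q := fun a b c => TriA PP.cur (VE (h0 * 0) 3 κ (h0 * x) (eng.v x) (h0 * (1 / 20)) (tnt (h0 * x) (1 / 5)) (tbl tK x) (tbl tL x) (tbl (smT h0⁻¹ tC) x)) a b c 2 5 1 (-1))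
    (BA25_pm_001 hκ hx hx') (BA25_pm_011 hκ hx hx') (BA25_pm_012 hκ hx hx') (BA25_pm_022 hκ hx hx') (BA25_pm_023 hκ hx hx') (BA25_pm_033 hκ hx hx') (BA25_pm_101 hκ hx hx') (BA25_pm_102 hκ hx hx') (BA25_pm_112 hκ hx hx') (BA25_pm_113 hκ hx hx') (BA25_pm_123 hκ hx hx') (BA25_pm_133 hκ hx hx') (BA25_pm_202 hκ hx hx') (BA25_pm_203 hκ hx hx') (BA25_pm_213 hκ hx hx') (BA25_pm_303 hκ hx hx') (BA25_pm_313 hκ hx hx')
  mm := all17 (Q := fun a b c => TriA PP.cur (VE (h0 * 0) 3 κ (h0 * x) (eng.v x) (h0 * (1 / 20)) (tnt (h0 * x) (1 / 5)) (tbl tK x) (tbl tL x) (tbl (smT h0⁻¹ tC) x)) a b c 2 5 (-1) (-1))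
    (BA25_mm_001 hκ hx hx') (BA25_mm_011 hκ hx hx') (BA25_mm_012 hκ hx hx') (BA25_mm_022 hκ hx hx') (BA25_mm_023 hκ hx hx') (BA25_mm_033 hκ hx hx') (BA25_mm_101 hκ hx hx') (BA25_mm_102 hκ hx hx') (BA25_mm_112 hκ hx hx') (BA25_mm_113 hκ hx hx') (BA25_mm_123 hκ hx hx') (BA25_mm_133 hκ hx hx') (BA25_mm_202 hκ hx hx') (BA25_mm_203 hκ hx hx') (BA25_mm_213 hκ hx hx') (BA25_mm_303 hκ hx hx') (BA25_mm_313 hκ hx hx')

theorem BA33_pp_001 {κ x : ℝ} (hκ : κ * h0 = ken x) (hx : ((740881858 : ℕ) : ℝ) / S ≤ x) (hx' : x ≤ (((740881858 : ℕ) : ℝ) + (40050571 : ℕ)) / S) :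
    TriA PP.cur (VE (h0 * 0) 3 κ (h0 * x) (eng.v x) (h0 * (1 / 20)) (tnt (h0 * x) (1 / 5)) (tbl tK x) (tbl tL x) (tbl (smT h0⁻¹ tC) x)) 0 0 1 3 3 1 1 :=
  (sideB hx hx').bothA (thrB hx hx') (en_pos (hx1 hx).le) (Or.inl rfl) (Or.inl rfl) fun y y' F =>
    bothA_cert (s1 := true) (s2 := true) rfl hκ (en_pos (hx1 hx).le) (esg_rng (hx1 hx).le (hx2 hx').le).1 (mo_v x) covB30 covB30 hx hx'
        Pool.Agent.Strip051.G.I69_7273.Tab.C.BA33.c_pp_001 noCut_EA noExt_EA F trivial trivial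

theorem BA33_pp_011 {κ x : ℝ} (hκ : κ * h0 = ken x) (hx : ((740881858 : ℕ) : ℝ) / S ≤ x) (hx' : x ≤ (((740881858 : ℕ) : ℝ) + (40050571 : ℕ)) / S) :
    TriA PP.cur (VE (h0 * 0) 3 κ (h0 * x) (eng.v x) (h0 * (1 / 20)) (tnt (h0 * x) (1 / 5)) (tbl tK x) (tbl tL x) (tbl (smT h0⁻¹ tC) x)) 0 1 1 3 3 1 1 :=
  (sideB hx hx').bothA (thrB hx hx') (en_pos (hx1 hx).le) (Or.inl rfl) (Or.inl rfl) fun y y' F =>
    bothA_cert (s1 := true) (s2 := true) rfl hκ (en_pos (hx1 hx).le) (esg_rng (hx1 hx).le (hx2 hx').le).1 (mo_v x) covB30 covB31 hx hx'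
        Pool.Agent.Strip051.G.I69_7273.Tab.C.BA33.c_pp_011 noCut_EA noExt_EA F trivial trivial

theorem BA33_pp_012 {κ x : ℝ} (hκ : κ * h0 = ken x) (hx : ((740881858 : ℕ) : ℝ) / S ≤ x) (hx' : x ≤ (((740881858 : ℕ) : ℝ) + (40050571 : ℕ)) / S) :
    TriA PP.cur (VE (h0 * 0) 3 κ (h0 * x) (eng.v x) (h0 * (1 / 20)) (tnt (h0 * x) (1 / 5)) (tbl tK x) (tbl tL x) (tbl (smT h0⁻¹ tC) x)) 0 1 2 3 3 1 1 :=
  (sideB hx hx').bothA (thrB hx hx') (en_pos (hx1 hx).le) (Or.inl rfl) (Or.inl rfl) fun y y' F =>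
    bothA_cert (s1 := true) (s2 := true) rfl hκ (en_pos (hx1 hx).le) (esg_rng (hx1 hx).le (hx2 hx').le).1 (mo_v x) covB30 covB31 hx hx'
        Pool.Agent.Strip051.G.I69_7273.Tab.C.BA33.c_pp_012 noCut_EA noExt_EA F trivial trivial

theorem BA33_pp_022 {κ x : ℝ} (hκ : κ * h0 = ken x) (hx : ((740881858 : ℕ) : ℝ) / S ≤ x) (hx' : x ≤ (((740881858 : ℕ) : ℝ) + (40050571 : ℕ)) / S) :
    TriA PP.cur (VE (h0 * 0) 3 κ (h0 * x) (eng.v x) (h0 * (1 / 20)) (tnt (h0 * x) (1 / 5)) (tbl tK x) (tbl tL x) (tbl (smT h0⁻¹ tC) x)) 0 2 2 3 3 1 1 :=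
  (sideB hx hx').bothA (thrB hx hx') (en_pos (hx1 hx).le) (Or.inl rfl) (Or.inl rfl) fun y y' F =>
    bothA_cert (s1 := true) (s2 := true) rfl hκ (en_pos (hx1 hx).le) (esg_rng (hx1 hx).le (hx2 hx').le).1 (mo_v x) covB30 covB32 hx hx'
        Pool.Agent.Strip051.G.I69_7273.Tab.C.BA33.c_pp_022 noCut_EA noExt_EA F trivial trivial

theorem BA33_pp_023 {κ x : ℝ} (hκ : κ * h0 = ken x) (hx : ((740881858 : ℕ) : ℝ) / S ≤ x) (hx' : x ≤ (((740881858 : ℕ) : ℝ) + (40050571 : ℕ)) / S) :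
    TriA PP.cur (VE (h0 * 0) 3 κ (h0 * x) (eng.v x) (h0 * (1 / 20)) (tnt (h0 * x) (1 / 5)) (tbl tK x) (tbl tL x) (tbl (smT h0⁻¹ tC) x)) 0 2 3 3 3 1 1 :=
  (sideB hx hx').bothA (thrB hx hx') (en_pos (hx1 hx).le) (Or.inl rfl) (Or.inl rfl) fun y y' F =>
    bothA_cert (s1 := true) (s2 := true) rfl hκ (en_pos (hx1 hx).le) (esg_rng (hx1 hx).le (hx2 hx').le).1 (mo_v x) covB30 covB32 hx hx'
        Pool.Agent.Strip051.G.I69_7273.Tab.C.BA33.c_pp_023 noCut_EA noExt_EA F trivial trivial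

theorem BA33_pp_033 {κ x : ℝ} (hκ : κ * h0 = ken x) (hx : ((740881858 : ℕ) : ℝ) / S ≤ x) (hx' : x ≤ (((740881858 : ℕ) : ℝ) + (40050571 : ℕ)) / S) :
    TriA PP.cur (VE (h0 * 0) 3 κ (h0 * x) (eng.v x) (h0 * (1 / 20)) (tnt (h0 * x) (1 / 5)) (tbl tK x) (tbl tL x) (tbl (smT h0⁻¹ tC) x)) 0 3 3 3 3 1 1 :=
  (sideB hx hx').bothA (thrB hx hx') (en_pos (hx1 hx).le) (Or.inl rfl) (Or.inl rfl) fun y y' F =>
    bothA_cert (s1 := true) (s2 := true) rfl hκ (en_pos (hx1 hx).le) (esg_rng (hx1 hx).le (hx2 hx').le).1 (mo_v x) covB30 covB33 hx hx'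
        Pool.Agent.Strip051.G.I69_7273.Tab.C.BA33.c_pp_033 noCut_EA noExt_EA F trivial trivial

theorem BA33_pp_101 {κ x : ℝ} (hκ : κ * h0 = ken x) (hx : ((740881858 : ℕ) : ℝ) / S ≤ x) (hx' : x ≤ (((740881858 : ℕ) : ℝ) + (40050571 : ℕ)) / S) :
    TriA PP.cur (VE (h0 * 0) 3 κ (h0 * x) (eng.v x) (h0 * (1 / 20)) (tnt (h0 * x) (1 / 5)) (tbl tK x) (tbl tL x) (tbl (smT h0⁻¹ tC) x)) 1 0 1 3 3 1 1 :=
  (sideB hx hx').bothA (thrB hx hx') (en_pos (hx1 hx).le) (Or.inl rfl) (Or.inl rfl) fun y y' F =>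
    bothA_cert (s1 := true) (s2 := true) rfl hκ (en_pos (hx1 hx).le) (esg_rng (hx1 hx).le (hx2 hx').le).1 (mo_v x) covB31 covB30 hx hx'
        Pool.Agent.Strip051.G.I69_7273.Tab.C.BA33.c_pp_101 noCut_EA noExt_EA F trivial trivial

theorem BA33_pp_102 {κ x : ℝ} (hκ : κ * h0 = ken x) (hx : ((740881858 : ℕ) : ℝ) / S ≤ x) (hx' : x ≤ (((740881858 : ℕ) : ℝ) + (40050571 : ℕ)) / S) :
    TriA PP.cur (VE (h0 * 0) 3 κ (h0 * x) (eng.v x) (h0 * (1 / 20)) (tnt (h0 * x) (1 / 5)) (tbl tK x) (tbl tL x) (tbl (smT h0⁻¹ tC) x)) 1 0 2 3 3 1 1 :=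
  (sideB hx hx').bothA (thrB hx hx') (en_pos (hx1 hx).le) (Or.inl rfl) (Or.inl rfl) fun y y' F =>
    bothA_cert (s1 := true) (s2 := true) rfl hκ (en_pos (hx1 hx).le) (esg_rng (hx1 hx).le (hx2 hx').le).1 (mo_v x) covB31 covB30 hx hx'
        Pool.Agent.Strip051.G.I69_7273.Tab.C.BA33.c_pp_102 noCut_EA noExt_EA F trivial trivial

theorem BA33_pp_112 {κ x : ℝ} (hκ : κ * h0 = ken x) (hx : ((740881858 : ℕ) : ℝ) / S ≤ x) (hx' : x ≤ (((740881858 : ℕ) : ℝ) + (40050571 : ℕ)) / S) :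
    TriA PP.cur (VE (h0 * 0) 3 κ (h0 * x) (eng.v x) (h0 * (1 / 20)) (tnt (h0 * x) (1 / 5)) (tbl tK x) (tbl tL x) (tbl (smT h0⁻¹ tC) x)) 1 1 2 3 3 1 1 :=
  (sideB hx hx').bothA (thrB hx hx') (en_pos (hx1 hx).le) (Or.inl rfl) (Or.inl rfl) fun y y' F =>
    bothA_cert (s1 := true) (s2 := true) rfl hκ (en_pos (hx1 hx).le) (esg_rng (hx1 hx).le (hx2 hx').le).1 (mo_v x) covB31 covB31 hx hx'
        Pool.Agent.Strip051.G.I69_7273.Tab.C.BA33.c_pp_112 noCut_EA noExt_EA F trivial trivial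

theorem BA33_pp_113 {κ x : ℝ} (hκ : κ * h0 = ken x) (hx : ((740881858 : ℕ) : ℝ) / S ≤ x) (hx' : x ≤ (((740881858 : ℕ) : ℝ) + (40050571 : ℕ)) / S) :
    TriA PP.cur (VE (h0 * 0) 3 κ (h0 * x) (eng.v x) (h0 * (1 / 20)) (tnt (h0 * x) (1 / 5)) (tbl tK x) (tbl tL x) (tbl (smT h0⁻¹ tC) x)) 1 1 3 3 3 1 1 :=
  (sideB hx hx').bothA (thrB hx hx') (en_pos (hx1 hx).le) (Or.inl rfl) (Or.inl rfl) fun y y' F =>
    bothA_cert (s1 := true) (s2 := true) rfl hκ (en_pos (hx1 hx).le) (esg_rng (hx1 hx).le (hx2 hx').le).1 (mo_v x) covB31 covB31 hx hx'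
        Pool.Agent.Strip051.G.I69_7273.Tab.C.BA33.c_pp_113 noCut_EA noExt_EA F trivial trivial

theorem BA33_pp_123 {κ x : ℝ} (hκ : κ * h0 = ken x) (hx : ((740881858 : ℕ) : ℝ) / S ≤ x) (hx' : x ≤ (((740881858 : ℕ) : ℝ) + (40050571 : ℕ)) / S) :
    TriA PP.cur (VE (h0 * 0) 3 κ (h0 * x) (eng.v x) (h0 * (1 / 20)) (tnt (h0 * x) (1 / 5)) (tbl tK x) (tbl tL x) (tbl (smT h0⁻¹ tC) x)) 1 2 3 3 3 1 1 :=
  (sideB hx hx').bothA (thrB hx hx') (en_pos (hx1 hx).le) (Or.inl rfl) (Or.inl rfl) fun y y' F =>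
    bothA_cert (s1 := true) (s2 := true) rfl hκ (en_pos (hx1 hx).le) (esg_rng (hx1 hx).le (hx2 hx').le).1 (mo_v x) covB31 covB32 hx hx'
        Pool.Agent.Strip051.G.I69_7273.Tab.C.BA33.c_pp_123 noCut_EA noExt_EA F trivial trivial

theorem BA33_pp_133 {κ x : ℝ} (hκ : κ * h0 = ken x) (hx : ((740881858 : ℕ) : ℝ) / S ≤ x) (hx' : x ≤ (((740881858 : ℕ) : ℝ) + (40050571 : ℕ)) / S) :
    TriA PP.cur (VE (h0 * 0) 3 κ (h0 * x) (eng.v x) (h0 * (1 / 20)) (tnt (h0 * x) (1 / 5)) (tbl tK x) (tbl tL x) (tbl (smT h0⁻¹ tC) x)) 1 3 3 3 3 1 1 :=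
  (sideB hx hx').bothA (thrB hx hx') (en_pos (hx1 hx).le) (Or.inl rfl) (Or.inl rfl) fun y y' F =>
    bothA_cert (s1 := true) (s2 := true) rfl hκ (en_pos (hx1 hx).le) (esg_rng (hx1 hx).le (hx2 hx').le).1 (mo_v x) covB31 covB33 hx hx'
        Pool.Agent.Strip051.G.I69_7273.Tab.C.BA33.c_pp_133 noCut_EA noExt_EA F trivial trivial

theorem BA33_pp_202 {κ x : ℝ} (hκ : κ * h0 = ken x) (hx : ((740881858 : ℕ) : ℝ) / S ≤ x) (hx' : x ≤ (((740881858 : ℕ) : ℝ) + (40050571 : ℕ)) / S) :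
    TriA PP.cur (VE (h0 * 0) 3 κ (h0 * x) (eng.v x) (h0 * (1 / 20)) (tnt (h0 * x) (1 / 5)) (tbl tK x) (tbl tL x) (tbl (smT h0⁻¹ tC) x)) 2 0 2 3 3 1 1 :=
  (sideB hx hx').bothA (thrB hx hx') (en_pos (hx1 hx).le) (Or.inl rfl) (Or.inl rfl) fun y y' F =>
    bothA_cert (s1 := true) (s2 := true) rfl hκ (en_pos (hx1 hx).le) (esg_rng (hx1 hx).le (hx2 hx').le).1 (mo_v x) covB32 covB30 hx hx'
        Pool.Agent.Strip051.G.I69_7273.Tab.C.BA33.c_pp_202 noCut_EA noExt_EA F trivial trivial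

theorem BA33_pp_203 {κ x : ℝ} (hκ : κ * h0 = ken x) (hx : ((740881858 : ℕ) : ℝ) / S ≤ x) (hx' : x ≤ (((740881858 : ℕ) : ℝ) + (40050571 : ℕ)) / S) :
    TriA PP.cur (VE (h0 * 0) 3 κ (h0 * x) (eng.v x) (h0 * (1 / 20)) (tnt (h0 * x) (1 / 5)) (tbl tK x) (tbl tL x) (tbl (smT h0⁻¹ tC) x)) 2 0 3 3 3 1 1 :=
  (sideB hx hx').bothA (thrB hx hx') (en_pos (hx1 hx).le) (Or.inl rfl) (Or.inl rfl) fun y y' F =>
    bothA_cert (s1 := true) (s2 := true) rfl hκ (en_pos (hx1 hx).le) (esg_rng (hx1 hx).le (hx2 hx').le).1 (mo_v x) covB32 covB30 hx hx'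
        Pool.Agent.Strip051.G.I69_7273.Tab.C.BA33.c_pp_203 noCut_EA noExt_EA F trivial trivial

theorem BA33_pp_213 {κ x : ℝ} (hκ : κ * h0 = ken x) (hx : ((740881858 : ℕ) : ℝ) / S ≤ x) (hx' : x ≤ (((740881858 : ℕ) : ℝ) + (40050571 : ℕ)) / S) :
    TriA PP.cur (VE (h0 * 0) 3 κ (h0 * x) (eng.v x) (h0 * (1 / 20)) (tnt (h0 * x) (1 / 5)) (tbl tK x) (tbl tL x) (tbl (smT h0⁻¹ tC) x)) 2 1 3 3 3 1 1 :=
  (sideB hx hx').bothA (thrB hx hx') (en_pos (hx1 hx).le) (Or.inl rfl) (Or.inl rfl) fun y y' F =>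
    bothA_cert (s1 := true) (s2 := true) rfl hκ (en_pos (hx1 hx).le) (esg_rng (hx1 hx).le (hx2 hx').le).1 (mo_v x) covB32 covB31 hx hx'
        Pool.Agent.Strip051.G.I69_7273.Tab.C.BA33.c_pp_213 noCut_EA noExt_EA F trivial trivial

theorem BA33_pp_303 {κ x : ℝ} (hκ : κ * h0 = ken x) (hx : ((740881858 : ℕ) : ℝ) / S ≤ x) (hx' : x ≤ (((740881858 : ℕ) : ℝ) + (40050571 : ℕ)) / S) :
    TriA PP.cur (VE (h0 * 0) 3 κ (h0 * x) (eng.v x) (h0 * (1 / 20)) (tnt (h0 * x) (1 / 5)) (tbl tK x) (tbl tL x) (tbl (smT h0⁻¹ tC) x)) 3 0 3 3 3 1 1 :=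
  (sideB hx hx').bothA (thrB hx hx') (en_pos (hx1 hx).le) (Or.inl rfl) (Or.inl rfl) fun y y' F =>
    bothA_cert (s1 := true) (s2 := true) rfl hκ (en_pos (hx1 hx).le) (esg_rng (hx1 hx).le (hx2 hx').le).1 (mo_v x) covB33 covB30 hx hx'
        Pool.Agent.Strip051.G.I69_7273.Tab.C.BA33.c_pp_303 noCut_EA noExt_EA F trivial trivial

theorem BA33_pp_313 {κ x : ℝ} (hκ : κ * h0 = ken x) (hx : ((740881858 : ℕ) : ℝ) / S ≤ x) (hx' : x ≤ (((740881858 : ℕ) : ℝ) + (40050571 : ℕ)) / S) :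
    TriA PP.cur (VE (h0 * 0) 3 κ (h0 * x) (eng.v x) (h0 * (1 / 20)) (tnt (h0 * x) (1 / 5)) (tbl tK x) (tbl tL x) (tbl (smT h0⁻¹ tC) x)) 3 1 3 3 3 1 1 :=
  (sideB hx hx').bothA (thrB hx hx') (en_pos (hx1 hx).le) (Or.inl rfl) (Or.inl rfl) fun y y' F =>
    bothA_cert (s1 := true) (s2 := true) rfl hκ (en_pos (hx1 hx).le) (esg_rng (hx1 hx).le (hx2 hx').le).1 (mo_v x) covB33 covB31 hx hx'
        Pool.Agent.Strip051.G.I69_7273.Tab.C.BA33.c_pp_313 noCut_EA noExt_EA F trivial trivial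

theorem BA33_pm_001 {κ x : ℝ} (hκ : κ * h0 = ken x) (hx : ((740881858 : ℕ) : ℝ) / S ≤ x) (hx' : x ≤ (((740881858 : ℕ) : ℝ) + (40050571 : ℕ)) / S) :
    TriA PP.cur (VE (h0 * 0) 3 κ (h0 * x) (eng.v x) (h0 * (1 / 20)) (tnt (h0 * x) (1 / 5)) (tbl tK x) (tbl tL x) (tbl (smT h0⁻¹ tC) x)) 0 0 1 3 3 1 (-1) :=
  (sideB hx hx').bothA (thrB hx hx') (en_pos (hx1 hx).le) (Or.inl rfl) (Or.inr rfl) fun y y' F =>
    bothA_cert (s1 := true) (s2 := false) rfl hκ (en_pos (hx1 hx).le) (esg_rng (hx1 hx).le (hx2 hx').le).1 (mo_v x) covB30 covB30 hx hx'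
        Pool.Agent.Strip051.G.I69_7273.Tab.C.BA33.c_pm_001 noCut_EA noExt_EA F trivial trivial

theorem BA33_pm_011 {κ x : ℝ} (hκ : κ * h0 = ken x) (hx : ((740881858 : ℕ) : ℝ) / S ≤ x) (hx' : x ≤ (((740881858 : ℕ) : ℝ) + (40050571 : ℕ)) / S) :
    TriA PP.cur (VE (h0 * 0) 3 κ (h0 * x) (eng.v x) (h0 * (1 / 20)) (tnt (h0 * x) (1 / 5)) (tbl tK x) (tbl tL x) (tbl (smT h0⁻¹ tC) x)) 0 1 1 3 3 1 (-1) :=
  (sideB hx hx').bothA (thrB hx hx') (en_pos (hx1 hx).le) (Or.inl rfl) (Or.inr rfl) fun y y' F =>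
    bothA_cert (s1 := true) (s2 := false) rfl hκ (en_pos (hx1 hx).le) (esg_rng (hx1 hx).le (hx2 hx').le).1 (mo_v x) covB30 covB31 hx hx'
        Pool.Agent.Strip051.G.I69_7273.Tab.C.BA33.c_pm_011 noCut_EA noExt_EA F trivial trivial

theorem BA33_pm_012 {κ x : ℝ} (hκ : κ * h0 = ken x) (hx : ((740881858 : ℕ) : ℝ) / S ≤ x) (hx' : x ≤ (((740881858 : ℕ) : ℝ) + (40050571 : ℕ)) / S) :
    TriA PP.cur (VE (h0 * 0) 3 κ (h0 * x) (eng.v x) (h0 * (1 / 20)) (tnt (h0 * x) (1 / 5)) (tbl tK x) (tbl tL x) (tbl (smT h0⁻¹ tC) x)) 0 1 2 3 3 1 (-1) :=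
  (sideB hx hx').bothA (thrB hx hx') (en_pos (hx1 hx).le) (Or.inl rfl) (Or.inr rfl) fun y y' F =>
    bothA_cert (s1 := true) (s2 := false) rfl hκ (en_pos (hx1 hx).le) (esg_rng (hx1 hx).le (hx2 hx').le).1 (mo_v x) covB30 covB31 hx hx'
        Pool.Agent.Strip051.G.I69_7273.Tab.C.BA33.c_pm_012 noCut_EA noExt_EA F trivial trivial

theorem BA33_pm_022 {κ x : ℝ} (hκ : κ * h0 = ken x) (hx : ((740881858 : ℕ) : ℝ) / S ≤ x) (hx' : x ≤ (((740881858 : ℕ) : ℝ) + (40050571 : ℕ)) / S) :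
    TriA PP.cur (VE (h0 * 0) 3 κ (h0 * x) (eng.v x) (h0 * (1 / 20)) (tnt (h0 * x) (1 / 5)) (tbl tK x) (tbl tL x) (tbl (smT h0⁻¹ tC) x)) 0 2 2 3 3 1 (-1) :=
  (sideB hx hx').bothA (thrB hx hx') (en_pos (hx1 hx).le) (Or.inl rfl) (Or.inr rfl) fun y y' F =>
    bothA_cert (s1 := true) (s2 := false) rfl hκ (en_pos (hx1 hx).le) (esg_rng (hx1 hx).le (hx2 hx').le).1 (mo_v x) covB30 covB32 hx hx'
        Pool.Agent.Strip051.G.I69_7273.Tab.C.BA33.c_pm_022 noCut_EA noExt_EA F trivial trivial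

theorem BA33_pm_023 {κ x : ℝ} (hκ : κ * h0 = ken x) (hx : ((740881858 : ℕ) : ℝ) / S ≤ x) (hx' : x ≤ (((740881858 : ℕ) : ℝ) + (40050571 : ℕ)) / S) :
    TriA PP.cur (VE (h0 * 0) 3 κ (h0 * x) (eng.v x) (h0 * (1 / 20)) (tnt (h0 * x) (1 / 5)) (tbl tK x) (tbl tL x) (tbl (smT h0⁻¹ tC) x)) 0 2 3 3 3 1 (-1) :=
  (sideB hx hx').bothA (thrB hx hx') (en_pos (hx1 hx).le) (Or.inl rfl) (Or.inr rfl) fun y y' F =>
    bothA_cert (s1 := true) (s2 := false) rfl hκ (en_pos (hx1 hx).le) (esg_rng (hx1 hx).le (hx2 hx').le).1 (mo_v x) covB30 covB32 hx hx'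
        Pool.Agent.Strip051.G.I69_7273.Tab.C.BA33.c_pm_023 noCut_EA noExt_EA F trivial trivial

theorem BA33_pm_033 {κ x : ℝ} (hκ : κ * h0 = ken x) (hx : ((740881858 : ℕ) : ℝ) / S ≤ x) (hx' : x ≤ (((740881858 : ℕ) : ℝ) + (40050571 : ℕ)) / S) :
    TriA PP.cur (VE (h0 * 0) 3 κ (h0 * x) (eng.v x) (h0 * (1 / 20)) (tnt (h0 * x) (1 / 5)) (tbl tK x) (tbl tL x) (tbl (smT h0⁻¹ tC) x)) 0 3 3 3 3 1 (-1) :=
  (sideB hx hx').bothA (thrB hx hx') (en_pos (hx1 hx).le) (Or.inl rfl) (Or.inr rfl) fun y y' F =>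
    bothA_cert (s1 := true) (s2 := false) rfl hκ (en_pos (hx1 hx).le) (esg_rng (hx1 hx).le (hx2 hx').le).1 (mo_v x) covB30 covB33 hx hx'
        Pool.Agent.Strip051.G.I69_7273.Tab.C.BA33.c_pm_033 noCut_EA noExt_EA F trivial trivial

theorem BA33_pm_101 {κ x : ℝ} (hκ : κ * h0 = ken x) (hx : ((740881858 : ℕ) : ℝ) / S ≤ x) (hx' : x ≤ (((740881858 : ℕ) : ℝ) + (40050571 : ℕ)) / S) :
    TriA PP.cur (VE (h0 * 0) 3 κ (h0 * x) (eng.v x) (h0 * (1 / 20)) (tnt (h0 * x) (1 / 5)) (tbl tK x) (tbl tL x) (tbl (smT h0⁻¹ tC) x)) 1 0 1 3 3 1 (-1) :=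
  (sideB hx hx').bothA (thrB hx hx') (en_pos (hx1 hx).le) (Or.inl rfl) (Or.inr rfl) fun y y' F =>
    bothA_cert (s1 := true) (s2 := false) rfl hκ (en_pos (hx1 hx).le) (esg_rng (hx1 hx).le (hx2 hx').le).1 (mo_v x) covB31 covB30 hx hx'
        Pool.Agent.Strip051.G.I69_7273.Tab.C.BA33.c_pm_101 noCut_EA noExt_EA F trivial trivial

theorem BA33_pm_102 {κ x : ℝ} (hκ : κ * h0 = ken x) (hx : ((740881858 : ℕ) : ℝ) / S ≤ x) (hx' : x ≤ (((740881858 : ℕ) : ℝ) + (40050571 : ℕ)) / S) :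
    TriA PP.cur (VE (h0 * 0) 3 κ (h0 * x) (eng.v x) (h0 * (1 / 20)) (tnt (h0 * x) (1 / 5)) (tbl tK x) (tbl tL x) (tbl (smT h0⁻¹ tC) x)) 1 0 2 3 3 1 (-1) :=
  (sideB hx hx').bothA (thrB hx hx') (en_pos (hx1 hx).le) (Or.inl rfl) (Or.inr rfl) fun y y' F =>
    bothA_cert (s1 := true) (s2 := false) rfl hκ (en_pos (hx1 hx).le) (esg_rng (hx1 hx).le (hx2 hx').le).1 (mo_v x) covB31 covB30 hx hx'
        Pool.Agent.Strip051.G.I69_7273.Tab.C.BA33.c_pm_102 noCut_EA noExt_EA F trivial trivial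

theorem BA33_pm_112 {κ x : ℝ} (hκ : κ * h0 = ken x) (hx : ((740881858 : ℕ) : ℝ) / S ≤ x) (hx' : x ≤ (((740881858 : ℕ) : ℝ) + (40050571 : ℕ)) / S) :
    TriA PP.cur (VE (h0 * 0) 3 κ (h0 * x) (eng.v x) (h0 * (1 / 20)) (tnt (h0 * x) (1 / 5)) (tbl tK x) (tbl tL x) (tbl (smT h0⁻¹ tC) x)) 1 1 2 3 3 1 (-1) :=
  (sideB hx hx').bothA (thrB hx hx') (en_pos (hx1 hx).le) (Or.inl rfl) (Or.inr rfl) fun y y' F =>
    bothA_cert (s1 := true) (s2 := false) rfl hκ (en_pos (hx1 hx).le) (esg_rng (hx1 hx).le (hx2 hx').le).1 (mo_v x) covB31 covB31 hx hx'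
        Pool.Agent.Strip051.G.I69_7273.Tab.C.BA33.c_pm_112 noCut_EA noExt_EA F trivial trivial

theorem BA33_pm_113 {κ x : ℝ} (hκ : κ * h0 = ken x) (hx : ((740881858 : ℕ) : ℝ) / S ≤ x) (hx' : x ≤ (((740881858 : ℕ) : ℝ) + (40050571 : ℕ)) / S) :
    TriA PP.cur (VE (h0 * 0) 3 κ (h0 * x) (eng.v x) (h0 * (1 / 20)) (tnt (h0 * x) (1 / 5)) (tbl tK x) (tbl tL x) (tbl (smT h0⁻¹ tC) x)) 1 1 3 3 3 1 (-1) :=
  (sideB hx hx').bothA (thrB hx hx') (en_pos (hx1 hx).le) (Or.inl rfl) (Or.inr rfl) fun y y' F =>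
    bothA_cert (s1 := true) (s2 := false) rfl hκ (en_pos (hx1 hx).le) (esg_rng (hx1 hx).le (hx2 hx').le).1 (mo_v x) covB31 covB31 hx hx'
        Pool.Agent.Strip051.G.I69_7273.Tab.C.BA33.c_pm_113 noCut_EA noExt_EA F trivial trivial

theorem BA33_pm_123 {κ x : ℝ} (hκ : κ * h0 = ken x) (hx : ((740881858 : ℕ) : ℝ) / S ≤ x) (hx' : x ≤ (((740881858 : ℕ) : ℝ) + (40050571 : ℕ)) / S) :
    TriA PP.cur (VE (h0 * 0) 3 κ (h0 * x) (eng.v x) (h0 * (1 / 20)) (tnt (h0 * x) (1 / 5)) (tbl tK x) (tbl tL x) (tbl (smT h0⁻¹ tC) x)) 1 2 3 3 3 1 (-1) :=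
  (sideB hx hx').bothA (thrB hx hx') (en_pos (hx1 hx).le) (Or.inl rfl) (Or.inr rfl) fun y y' F =>
    bothA_cert (s1 := true) (s2 := false) rfl hκ (en_pos (hx1 hx).le) (esg_rng (hx1 hx).le (hx2 hx').le).1 (mo_v x) covB31 covB32 hx hx'
        Pool.Agent.Strip051.G.I69_7273.Tab.C.BA33.c_pm_123 noCut_EA noExt_EA F trivial trivial

theorem BA33_pm_133 {κ x : ℝ} (hκ : κ * h0 = ken x) (hx : ((740881858 : ℕ) : ℝ) / S ≤ x) (hx' : x ≤ (((740881858 : ℕ) : ℝ) + (40050571 : ℕ)) / S) :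
    TriA PP.cur (VE (h0 * 0) 3 κ (h0 * x) (eng.v x) (h0 * (1 / 20)) (tnt (h0 * x) (1 / 5)) (tbl tK x) (tbl tL x) (tbl (smT h0⁻¹ tC) x)) 1 3 3 3 3 1 (-1) :=
  (sideB hx hx').bothA (thrB hx hx') (en_pos (hx1 hx).le) (Or.inl rfl) (Or.inr rfl) fun y y' F =>
    bothA_cert (s1 := true) (s2 := false) rfl hκ (en_pos (hx1 hx).le) (esg_rng (hx1 hx).le (hx2 hx').le).1 (mo_v x) covB31 covB33 hx hx'
        Pool.Agent.Strip051.G.I69_7273.Tab.C.BA33.c_pm_133 noCut_EA noExt_EA F trivial trivial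

theorem BA33_pm_202 {κ x : ℝ} (hκ : κ * h0 = ken x) (hx : ((740881858 : ℕ) : ℝ) / S ≤ x) (hx' : x ≤ (((740881858 : ℕ) : ℝ) + (40050571 : ℕ)) / S) :
    TriA PP.cur (VE (h0 * 0) 3 κ (h0 * x) (eng.v x) (h0 * (1 / 20)) (tnt (h0 * x) (1 / 5)) (tbl tK x) (tbl tL x) (tbl (smT h0⁻¹ tC) x)) 2 0 2 3 3 1 (-1) :=
  (sideB hx hx').bothA (thrB hx hx') (en_pos (hx1 hx).le) (Or.inl rfl) (Or.inr rfl) fun y y' F =>
    bothA_cert (s1 := true) (s2 := false) rfl hκ (en_pos (hx1 hx).le) (esg_rng (hx1 hx).le (hx2 hx').le).1 (mo_v x) covB32 covB30 hx hx'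
        Pool.Agent.Strip051.G.I69_7273.Tab.C.BA33.c_pm_202 noCut_EA noExt_EA F trivial trivial

theorem BA33_pm_203 {κ x : ℝ} (hκ : κ * h0 = ken x) (hx : ((740881858 : ℕ) : ℝ) / S ≤ x) (hx' : x ≤ (((740881858 : ℕ) : ℝ) + (40050571 : ℕ)) / S) :
    TriA PP.cur (VE (h0 * 0) 3 κ (h0 * x) (eng.v x) (h0 * (1 / 20)) (tnt (h0 * x) (1 / 5)) (tbl tK x) (tbl tL x) (tbl (smT h0⁻¹ tC) x)) 2 0 3 3 3 1 (-1) :=
  (sideB hx hx').bothA (thrB hx hx') (en_pos (hx1 hx).le) (Or.inl rfl) (Or.inr rfl) fun y y' F =>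
    bothA_cert (s1 := true) (s2 := false) rfl hκ (en_pos (hx1 hx).le) (esg_rng (hx1 hx).le (hx2 hx').le).1 (mo_v x) covB32 covB30 hx hx'
        Pool.Agent.Strip051.G.I69_7273.Tab.C.BA33.c_pm_203 noCut_EA noExt_EA F trivial trivial

theorem BA33_pm_213 {κ x : ℝ} (hκ : κ * h0 = ken x) (hx : ((740881858 : ℕ) : ℝ) / S ≤ x) (hx' : x ≤ (((740881858 : ℕ) : ℝ) + (40050571 : ℕ)) / S) :
    TriA PP.cur (VE (h0 * 0) 3 κ (h0 * x) (eng.v x) (h0 * (1 / 20)) (tnt (h0 * x) (1 / 5)) (tbl tK x) (tbl tL x) (tbl (smT h0⁻¹ tC) x)) 2 1 3 3 3 1 (-1) :=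
  (sideB hx hx').bothA (thrB hx hx') (en_pos (hx1 hx).le) (Or.inl rfl) (Or.inr rfl) fun y y' F =>
    bothA_cert (s1 := true) (s2 := false) rfl hκ (en_pos (hx1 hx).le) (esg_rng (hx1 hx).le (hx2 hx').le).1 (mo_v x) covB32 covB31 hx hx'
        Pool.Agent.Strip051.G.I69_7273.Tab.C.BA33.c_pm_213 noCut_EA noExt_EA F trivial trivial

theorem BA33_pm_303 {κ x : ℝ} (hκ : κ * h0 = ken x) (hx : ((740881858 : ℕ) : ℝ) / S ≤ x) (hx' : x ≤ (((740881858 : ℕ) : ℝ) + (40050571 : ℕ)) / S) :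
    TriA PP.cur (VE (h0 * 0) 3 κ (h0 * x) (eng.v x) (h0 * (1 / 20)) (tnt (h0 * x) (1 / 5)) (tbl tK x) (tbl tL x) (tbl (smT h0⁻¹ tC) x)) 3 0 3 3 3 1 (-1) :=
  (sideB hx hx').bothA (thrB hx hx') (en_pos (hx1 hx).le) (Or.inl rfl) (Or.inr rfl) fun y y' F =>
    bothA_cert (s1 := true) (s2 := false) rfl hκ (en_pos (hx1 hx).le) (esg_rng (hx1 hx).le (hx2 hx').le).1 (mo_v x) covB33 covB30 hx hx'
        Pool.Agent.Strip051.G.I69_7273.Tab.C.BA33.c_pm_303 noCut_EA noExt_EA F trivial trivial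

theorem BA33_pm_313 {κ x : ℝ} (hκ : κ * h0 = ken x) (hx : ((740881858 : ℕ) : ℝ) / S ≤ x) (hx' : x ≤ (((740881858 : ℕ) : ℝ) + (40050571 : ℕ)) / S) :
    TriA PP.cur (VE (h0 * 0) 3 κ (h0 * x) (eng.v x) (h0 * (1 / 20)) (tnt (h0 * x) (1 / 5)) (tbl tK x) (tbl tL x) (tbl (smT h0⁻¹ tC) x)) 3 1 3 3 3 1 (-1) :=
  (sideB hx hx').bothA (thrB hx hx') (en_pos (hx1 hx).le) (Or.inl rfl) (Or.inr rfl) fun y y' F =>
    bothA_cert (s1 := true) (s2 := false) rfl hκ (en_pos (hx1 hx).le) (esg_rng (hx1 hx).le (hx2 hx').le).1 (mo_v x) covB33 covB31 hx hx'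
        Pool.Agent.Strip051.G.I69_7273.Tab.C.BA33.c_pm_313 noCut_EA noExt_EA F trivial trivial

theorem BA33_mm_001 {κ x : ℝ} (hκ : κ * h0 = ken x) (hx : ((740881858 : ℕ) : ℝ) / S ≤ x) (hx' : x ≤ (((740881858 : ℕ) : ℝ) + (40050571 : ℕ)) / S) :
    TriA PP.cur (VE (h0 * 0) 3 κ (h0 * x) (eng.v x) (h0 * (1 / 20)) (tnt (h0 * x) (1 / 5)) (tbl tK x) (tbl tL x) (tbl (smT h0⁻¹ tC) x)) 0 0 1 3 3 (-1) (-1) :=
  (sideB hx hx').bothA (thrB hx hx') (en_pos (hx1 hx).le) (Or.inr rfl) (Or.inr rfl) fun y y' F =>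
    bothA_cert (s1 := false) (s2 := false) rfl hκ (en_pos (hx1 hx).le) (esg_rng (hx1 hx).le (hx2 hx').le).1 (mo_v x) covB30 covB30 hx hx'
        Pool.Agent.Strip051.G.I69_7273.Tab.C.BA33.c_mm_001 noCut_EA noExt_EA F trivial trivial

theorem BA33_mm_011 {κ x : ℝ} (hκ : κ * h0 = ken x) (hx : ((740881858 : ℕ) : ℝ) / S ≤ x) (hx' : x ≤ (((740881858 : ℕ) : ℝ) + (40050571 : ℕ)) / S) :
    TriA PP.cur (VE (h0 * 0) 3 κ (h0 * x) (eng.v x) (h0 * (1 / 20)) (tnt (h0 * x) (1 / 5)) (tbl tK x) (tbl tL x) (tbl (smT h0⁻¹ tC) x)) 0 1 1 3 3 (-1) (-1) :=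
  (sideB hx hx').bothA (thrB hx hx') (en_pos (hx1 hx).le) (Or.inr rfl) (Or.inr rfl) fun y y' F =>
    bothA_cert (s1 := false) (s2 := false) rfl hκ (en_pos (hx1 hx).le) (esg_rng (hx1 hx).le (hx2 hx').le).1 (mo_v x) covB30 covB31 hx hx'
        Pool.Agent.Strip051.G.I69_7273.Tab.C.BA33.c_mm_011 noCut_EA noExt_EA F trivial trivial

theorem BA33_mm_012 {κ x : ℝ} (hκ : κ * h0 = ken x) (hx : ((740881858 : ℕ) : ℝ) / S ≤ x) (hx' : x ≤ (((740881858 : ℕ) : ℝ) + (40050571 : ℕ)) / S) :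
    TriA PP.cur (VE (h0 * 0) 3 κ (h0 * x) (eng.v x) (h0 * (1 / 20)) (tnt (h0 * x) (1 / 5)) (tbl tK x) (tbl tL x) (tbl (smT h0⁻¹ tC) x)) 0 1 2 3 3 (-1) (-1) :=
  (sideB hx hx').bothA (thrB hx hx') (en_pos (hx1 hx).le) (Or.inr rfl) (Or.inr rfl) fun y y' F =>
    bothA_cert (s1 := false) (s2 := false) rfl hκ (en_pos (hx1 hx).le) (esg_rng (hx1 hx).le (hx2 hx').le).1 (mo_v x) covB30 covB31 hx hx'
        Pool.Agent.Strip051.G.I69_7273.Tab.C.BA33.c_mm_012 noCut_EA noExt_EA F trivial trivial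

theorem BA33_mm_022 {κ x : ℝ} (hκ : κ * h0 = ken x) (hx : ((740881858 : ℕ) : ℝ) / S ≤ x) (hx' : x ≤ (((740881858 : ℕ) : ℝ) + (40050571 : ℕ)) / S) :
    TriA PP.cur (VE (h0 * 0) 3 κ (h0 * x) (eng.v x) (h0 * (1 / 20)) (tnt (h0 * x) (1 / 5)) (tbl tK x) (tbl tL x) (tbl (smT h0⁻¹ tC) x)) 0 2 2 3 3 (-1) (-1) :=
  (sideB hx hx').bothA (thrB hx hx') (en_pos (hx1 hx).le) (Or.inr rfl) (Or.inr rfl) fun y y' F =>
    bothA_cert (s1 := false) (s2 := false) rfl hκ (en_pos (hx1 hx).le) (esg_rng (hx1 hx).le (hx2 hx').le).1 (mo_v x) covB30 covB32 hx hx'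
        Pool.Agent.Strip051.G.I69_7273.Tab.C.BA33.c_mm_022 noCut_EA noExt_EA F trivial trivial

theorem BA33_mm_023 {κ x : ℝ} (hκ : κ * h0 = ken x) (hx : ((740881858 : ℕ) : ℝ) / S ≤ x) (hx' : x ≤ (((740881858 : ℕ) : ℝ) + (40050571 : ℕ)) / S) :
    TriA PP.cur (VE (h0 * 0) 3 κ (h0 * x) (eng.v x) (h0 * (1 / 20)) (tnt (h0 * x) (1 / 5)) (tbl tK x) (tbl tL x) (tbl (smT h0⁻¹ tC) x)) 0 2 3 3 3 (-1) (-1) :=
  (sideB hx hx').bothA (thrB hx hx') (en_pos (hx1 hx).le) (Or.inr rfl) (Or.inr rfl) fun y y' F =>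
    bothA_cert (s1 := false) (s2 := false) rfl hκ (en_pos (hx1 hx).le) (esg_rng (hx1 hx).le (hx2 hx').le).1 (mo_v x) covB30 covB32 hx hx'
        Pool.Agent.Strip051.G.I69_7273.Tab.C.BA33.c_mm_023 noCut_EA noExt_EA F trivial trivial

theorem BA33_mm_033 {κ x : ℝ} (hκ : κ * h0 = ken x) (hx : ((740881858 : ℕ) : ℝ) / S ≤ x) (hx' : x ≤ (((740881858 : ℕ) : ℝ) + (40050571 : ℕ)) / S) :
    TriA PP.cur (VE (h0 * 0) 3 κ (h0 * x) (eng.v x) (h0 * (1 / 20)) (tnt (h0 * x) (1 / 5)) (tbl tK x) (tbl tL x) (tbl (smT h0⁻¹ tC) x)) 0 3 3 3 3 (-1) (-1) :=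
  (sideB hx hx').bothA (thrB hx hx') (en_pos (hx1 hx).le) (Or.inr rfl) (Or.inr rfl) fun y y' F =>
    bothA_cert (s1 := false) (s2 := false) rfl hκ (en_pos (hx1 hx).le) (esg_rng (hx1 hx).le (hx2 hx').le).1 (mo_v x) covB30 covB33 hx hx'
        Pool.Agent.Strip051.G.I69_7273.Tab.C.BA33.c_mm_033 noCut_EA noExt_EA F trivial trivial

theorem BA33_mm_101 {κ x : ℝ} (hκ : κ * h0 = ken x) (hx : ((740881858 : ℕ) : ℝ) / S ≤ x) (hx' : x ≤ (((740881858 : ℕ) : ℝ) + (40050571 : ℕ)) / S) :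
    TriA PP.cur (VE (h0 * 0) 3 κ (h0 * x) (eng.v x) (h0 * (1 / 20)) (tnt (h0 * x) (1 / 5)) (tbl tK x) (tbl tL x) (tbl (smT h0⁻¹ tC) x)) 1 0 1 3 3 (-1) (-1) :=
  (sideB hx hx').bothA (thrB hx hx') (en_pos (hx1 hx).le) (Or.inr rfl) (Or.inr rfl) fun y y' F =>
    bothA_cert (s1 := false) (s2 := false) rfl hκ (en_pos (hx1 hx).le) (esg_rng (hx1 hx).le (hx2 hx').le).1 (mo_v x) covB31 covB30 hx hx'
        Pool.Agent.Strip051.G.I69_7273.Tab.C.BA33.c_mm_101 noCut_EA noExt_EA F trivial trivial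

theorem BA33_mm_102 {κ x : ℝ} (hκ : κ * h0 = ken x) (hx : ((740881858 : ℕ) : ℝ) / S ≤ x) (hx' : x ≤ (((740881858 : ℕ) : ℝ) + (40050571 : ℕ)) / S) :
    TriA PP.cur (VE (h0 * 0) 3 κ (h0 * x) (eng.v x) (h0 * (1 / 20)) (tnt (h0 * x) (1 / 5)) (tbl tK x) (tbl tL x) (tbl (smT h0⁻¹ tC) x)) 1 0 2 3 3 (-1) (-1) :=
  (sideB hx hx').bothA (thrB hx hx') (en_pos (hx1 hx).le) (Or.inr rfl) (Or.inr rfl) fun y y' F =>
    bothA_cert (s1 := false) (s2 := false) rfl hκ (en_pos (hx1 hx).le) (esg_rng (hx1 hx).le (hx2 hx').le).1 (mo_v x) covB31 covB30 hx hx'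
        Pool.Agent.Strip051.G.I69_7273.Tab.C.BA33.c_mm_102 noCut_EA noExt_EA F trivial trivial

theorem BA33_mm_112 {κ x : ℝ} (hκ : κ * h0 = ken x) (hx : ((740881858 : ℕ) : ℝ) / S ≤ x) (hx' : x ≤ (((740881858 : ℕ) : ℝ) + (40050571 : ℕ)) / S) :
    TriA PP.cur (VE (h0 * 0) 3 κ (h0 * x) (eng.v x) (h0 * (1 / 20)) (tnt (h0 * x) (1 / 5)) (tbl tK x) (tbl tL x) (tbl (smT h0⁻¹ tC) x)) 1 1 2 3 3 (-1) (-1) :=
  (sideB hx hx').bothA (thrB hx hx') (en_pos (hx1 hx).le) (Or.inr rfl) (Or.inr rfl) fun y y' F =>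
    bothA_cert (s1 := false) (s2 := false) rfl hκ (en_pos (hx1 hx).le) (esg_rng (hx1 hx).le (hx2 hx').le).1 (mo_v x) covB31 covB31 hx hx'
        Pool.Agent.Strip051.G.I69_7273.Tab.C.BA33.c_mm_112 noCut_EA noExt_EA F trivial trivial

theorem BA33_mm_113 {κ x : ℝ} (hκ : κ * h0 = ken x) (hx : ((740881858 : ℕ) : ℝ) / S ≤ x) (hx' : x ≤ (((740881858 : ℕ) : ℝ) + (40050571 : ℕ)) / S) :
    TriA PP.cur (VE (h0 * 0) 3 κ (h0 * x) (eng.v x) (h0 * (1 / 20)) (tnt (h0 * x) (1 / 5)) (tbl tK x) (tbl tL x) (tbl (smT h0⁻¹ tC) x)) 1 1 3 3 3 (-1) (-1) :=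
  (sideB hx hx').bothA (thrB hx hx') (en_pos (hx1 hx).le) (Or.inr rfl) (Or.inr rfl) fun y y' F =>
    bothA_cert (s1 := false) (s2 := false) rfl hκ (en_pos (hx1 hx).le) (esg_rng (hx1 hx).le (hx2 hx').le).1 (mo_v x) covB31 covB31 hx hx'
        Pool.Agent.Strip051.G.I69_7273.Tab.C.BA33.c_mm_113 noCut_EA noExt_EA F trivial trivial

theorem BA33_mm_123 {κ x : ℝ} (hκ : κ * h0 = ken x) (hx : ((740881858 : ℕ) : ℝ) / S ≤ x) (hx' : x ≤ (((740881858 : ℕ) : ℝ) + (40050571 : ℕ)) / S) :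
    TriA PP.cur (VE (h0 * 0) 3 κ (h0 * x) (eng.v x) (h0 * (1 / 20)) (tnt (h0 * x) (1 / 5)) (tbl tK x) (tbl tL x) (tbl (smT h0⁻¹ tC) x)) 1 2 3 3 3 (-1) (-1) :=
  (sideB hx hx').bothA (thrB hx hx') (en_pos (hx1 hx).le) (Or.inr rfl) (Or.inr rfl) fun y y' F =>
    bothA_cert (s1 := false) (s2 := false) rfl hκ (en_pos (hx1 hx).le) (esg_rng (hx1 hx).le (hx2 hx').le).1 (mo_v x) covB31 covB32 hx hx'
        Pool.Agent.Strip051.G.I69_7273.Tab.C.BA33.c_mm_123 noCut_EA noExt_EA F trivial trivial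

theorem BA33_mm_133 {κ x : ℝ} (hκ : κ * h0 = ken x) (hx : ((740881858 : ℕ) : ℝ) / S ≤ x) (hx' : x ≤ (((740881858 : ℕ) : ℝ) + (40050571 : ℕ)) / S) :
    TriA PP.cur (VE (h0 * 0) 3 κ (h0 * x) (eng.v x) (h0 * (1 / 20)) (tnt (h0 * x) (1 / 5)) (tbl tK x) (tbl tL x) (tbl (smT h0⁻¹ tC) x)) 1 3 3 3 3 (-1) (-1) :=
  (sideB hx hx').bothA (thrB hx hx') (en_pos (hx1 hx).le) (Or.inr rfl) (Or.inr rfl) fun y y' F =>
    bothA_cert (s1 := false) (s2 := false) rfl hκ (en_pos (hx1 hx).le) (esg_rng (hx1 hx).le (hx2 hx').le).1 (mo_v x) covB31 covB33 hx hx'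
        Pool.Agent.Strip051.G.I69_7273.Tab.C.BA33.c_mm_133 noCut_EA noExt_EA F trivial trivial

theorem BA33_mm_202 {κ x : ℝ} (hκ : κ * h0 = ken x) (hx : ((740881858 : ℕ) : ℝ) / S ≤ x) (hx' : x ≤ (((740881858 : ℕ) : ℝ) + (40050571 : ℕ)) / S) :
    TriA PP.cur (VE (h0 * 0) 3 κ (h0 * x) (eng.v x) (h0 * (1 / 20)) (tnt (h0 * x) (1 / 5)) (tbl tK x) (tbl tL x) (tbl (smT h0⁻¹ tC) x)) 2 0 2 3 3 (-1) (-1) :=
  (sideB hx hx').bothA (thrB hx hx') (en_pos (hx1 hx).le) (Or.inr rfl) (Or.inr rfl) fun y y' F =>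
    bothA_cert (s1 := false) (s2 := false) rfl hκ (en_pos (hx1 hx).le) (esg_rng (hx1 hx).le (hx2 hx').le).1 (mo_v x) covB32 covB30 hx hx'
        Pool.Agent.Strip051.G.I69_7273.Tab.C.BA33.c_mm_202 noCut_EA noExt_EA F trivial trivial

theorem BA33_mm_203 {κ x : ℝ} (hκ : κ * h0 = ken x) (hx : ((740881858 : ℕ) : ℝ) / S ≤ x) (hx' : x ≤ (((740881858 : ℕ) : ℝ) + (40050571 : ℕ)) / S) :
    TriA PP.cur (VE (h0 * 0) 3 κ (h0 * x) (eng.v x) (h0 * (1 / 20)) (tnt (h0 * x) (1 / 5)) (tbl tK x) (tbl tL x) (tbl (smT h0⁻¹ tC) x)) 2 0 3 3 3 (-1) (-1) :=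
  (sideB hx hx').bothA (thrB hx hx') (en_pos (hx1 hx).le) (Or.inr rfl) (Or.inr rfl) fun y y' F =>
    bothA_cert (s1 := false) (s2 := false) rfl hκ (en_pos (hx1 hx).le) (esg_rng (hx1 hx).le (hx2 hx').le).1 (mo_v x) covB32 covB30 hx hx'
        Pool.Agent.Strip051.G.I69_7273.Tab.C.BA33.c_mm_203 noCut_EA noExt_EA F trivial trivial

theorem BA33_mm_213 {κ x : ℝ} (hκ : κ * h0 = ken x) (hx : ((740881858 : ℕ) : ℝ) / S ≤ x) (hx' : x ≤ (((740881858 : ℕ) : ℝ) + (40050571 : ℕ)) / S) :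
    TriA PP.cur (VE (h0 * 0) 3 κ (h0 * x) (eng.v x) (h0 * (1 / 20)) (tnt (h0 * x) (1 / 5)) (tbl tK x) (tbl tL x) (tbl (smT h0⁻¹ tC) x)) 2 1 3 3 3 (-1) (-1) :=
  (sideB hx hx').bothA (thrB hx hx') (en_pos (hx1 hx).le) (Or.inr rfl) (Or.inr rfl) fun y y' F =>
    bothA_cert (s1 := false) (s2 := false) rfl hκ (en_pos (hx1 hx).le) (esg_rng (hx1 hx).le (hx2 hx').le).1 (mo_v x) covB32 covB31 hx hx'
        Pool.Agent.Strip051.G.I69_7273.Tab.C.BA33.c_mm_213 noCut_EA noExt_EA F trivial trivial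

theorem BA33_mm_303 {κ x : ℝ} (hκ : κ * h0 = ken x) (hx : ((740881858 : ℕ) : ℝ) / S ≤ x) (hx' : x ≤ (((740881858 : ℕ) : ℝ) + (40050571 : ℕ)) / S) :
    TriA PP.cur (VE (h0 * 0) 3 κ (h0 * x) (eng.v x) (h0 * (1 / 20)) (tnt (h0 * x) (1 / 5)) (tbl tK x) (tbl tL x) (tbl (smT h0⁻¹ tC) x)) 3 0 3 3 3 (-1) (-1) :=
  (sideB hx hx').bothA (thrB hx hx') (en_pos (hx1 hx).le) (Or.inr rfl) (Or.inr rfl) fun y y' F =>
    bothA_cert (s1 := false) (s2 := false) rfl hκ (en_pos (hx1 hx).le) (esg_rng (hx1 hx).le (hx2 hx').le).1 (mo_v x) covB33 covB30 hx hx'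
        Pool.Agent.Strip051.G.I69_7273.Tab.C.BA33.c_mm_303 noCut_EA noExt_EA F trivial trivial

theorem BA33_mm_313 {κ x : ℝ} (hκ : κ * h0 = ken x) (hx : ((740881858 : ℕ) : ℝ) / S ≤ x) (hx' : x ≤ (((740881858 : ℕ) : ℝ) + (40050571 : ℕ)) / S) :
    TriA PP.cur (VE (h0 * 0) 3 κ (h0 * x) (eng.v x) (h0 * (1 / 20)) (tnt (h0 * x) (1 / 5)) (tbl tK x) (tbl tL x) (tbl (smT h0⁻¹ tC) x)) 3 1 3 3 3 (-1) (-1) :=
  (sideB hx hx').bothA (thrB hx hx') (en_pos (hx1 hx).le) (Or.inr rfl) (Or.inr rfl) fun y y' F =>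
    bothA_cert (s1 := false) (s2 := false) rfl hκ (en_pos (hx1 hx).le) (esg_rng (hx1 hx).le (hx2 hx').le).1 (mo_v x) covB33 covB31 hx hx'
        Pool.Agent.Strip051.G.I69_7273.Tab.C.BA33.c_mm_313 noCut_EA noExt_EA F trivial trivial

theorem BA33 {κ x : ℝ} (hκ : κ * h0 = ken x) (hx : ((740881858 : ℕ) : ℝ) / S ≤ x) (hx' : x ≤ (((740881858 : ℕ) : ℝ) + (40050571 : ℕ)) / S) : AllTA PP.cur (VE (h0 * 0) 3 κ (h0 * x) (eng.v x) (h0 * (1 / 20)) (tnt (h0 * x) (1 / 5)) (tbl tK x) (tbl tL x) (tbl (smT h0⁻¹ tC) x)) 3 3 where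
  pp := all17 (Q := fun a b c => TriA PP.cur (VE (h0 * 0) 3 κ (h0 * x) (eng.v x) (h0 * (1 / 20)) (tnt (h0 * x) (1 / 5)) (tbl tK x) (tbl tL x) (tbl (smT h0⁻¹ tC) x)) a b c 3 3 1 1)
    (BA33_pp_001 hκ hx hx') (BA33_pp_011 hκ hx hx') (BA33_pp_012 hκ hx hx') (BA33_pp_022 hκ hx hx') (BA33_pp_023 hκ hx hx') (BA33_pp_033 hκ hx hx') (BA33_pp_101 hκ hx hx') (BA33_pp_102 hκ hx hx') (BA33_pp_112 hκ hx hx') (BA33_pp_113 hκ hx hx') (BA33_pp_123 hκ hx hx') (BA33_pp_133 hκ hx hx') (BA33_pp_202 hκ hx hx') (BA33_pp_203 hκ hx hx') (BA33_pp_213 hκ hx hx') (BA33_pp_303 hκ hx hx') (BA33_pp_313 hκ hx hx')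
  pm := all17 (Q := fun a b c => TriA PP.cur (VE (h0 * 0) 3 κ (h0 * x) (eng.v x) (h0 * (1 / 20)) (tnt (h0 * x) (1 / 5)) (tbl tK x) (tbl tL x) (tbl (smT h0⁻¹ tC) x)) a b c 3 3 1 (-1))
    (BA33_pm_001 hκ hx hx') (BA33_pm_011 hκ hx hx') (BA33_pm_012 hκ hx hx') (BA33_pm_022 hκ hx hx') (BA33_pm_023 hκ hx hx') (BA33_pm_033 hκ hx hx') (BA33_pm_101 hκ hx hx') (BA33_pm_102 hκ hx hx') (BA33_pm_112 hκ hx hx') (BA33_pm_113 hκ hx hx') (BA33_pm_123 hκ hx hx') (BA33_pm_133 hκ hx hx') (BA33_pm_202 hκ hx hx') (BA33_pm_203 hκ hx hx') (BA33_pm_213 hκ hx hx') (BA33_pm_303 hκ hx hx') (BA33_pm_313 hκ hx hx')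
  mm := all17 (Q := fun a b c => TriA PP.cur (VE (h0 * 0) 3 κ (h0 * x) (eng.v x) (h0 * (1 / 20)) (tnt (h0 * x) (1 / 5)) (tbl tK x) (tbl tL x) (tbl (smT h0⁻¹ tC) x)) a b c 3 3 (-1) (-1))
    (BA33_mm_001 hκ hx hx') (BA33_mm_011 hκ hx hx') (BA33_mm_012 hκ hx hx') (BA33_mm_022 hκ hx hx') (BA33_mm_023 hκ hx hx') (BA33_mm_033 hκ hx hx') (BA33_mm_101 hκ hx hx') (BA33_mm_102 hκ hx hx') (BA33_mm_112 hκ hx hx') (BA33_mm_113 hκ hx hx') (BA33_mm_123 hκ hx hx') (BA33_mm_133 hκ hx hx') (BA33_mm_202 hκ hx hx') (BA33_mm_203 hκ hx hx') (BA33_mm_213 hκ hx hx') (BA33_mm_303 hκ hx hx') (BA33_mm_313 hκ hx hx')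

end Pool.Agent.Strip051.G.I69_7273.Tab
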