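import Pool.Agent.Strip051.G.I69_7273.StH
import Pool.Agent.Strip051.G.I69_7273.StF

/-! # Unit strips 13 (generated) -/

set_option linter.all false
set_option maxRecDepth 100000

namespace Pool.Agent.Strip051.G.I69_7273.Tab.St.C

open Pool.Agent.Strip051.PB Pool.Agent.Strip051.PB.T Pool.Agent.StripNear Pool.Agent.Strip051.LC
open Pool.Agent.Strip051.G.I69_7273.Tab Pool.Agent.Strip051.G.I69_7273.Tab.St

noncomputable def cut_B05pp_023_s1 : Cut := Cut.of [[⟨4, 0, 0, 1449551462⟩]]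

noncomputable def xt_B05pp_023_s1 : Ext := strExt dd false true true .u0 .s2 .u2 .up 0 2 3 rfl rfl gf2 vv ndB0q0 ndB5q3

noncomputable def f_B05pp_023_s1 : ℕ → ℕ → ℕ → ℕ → Bool := onCell 1073741824 536870912 0 1230186008 740881858 40050571
    (rowF 2 false true true .up 0 2 3 (qsf 0 536870912 0 1230186008 2) ndB0q0 ndB5q3 pcB2 cut_B05pp_023_s1 xt_B05pp_023_s1)

def k0_B05pp_023_s1 : ∃ t, chk3 f_B05pp_023_s1 t 1 2 1 = true :=
  ⟨(a (l 2) (a (l 2) (l 6))), by decide +kernel⟩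

def k1_B05pp_023_s1 : ∃ t, chk3 f_B05pp_023_s1 t 4 3 1 = true :=
  ⟨(b (l 2) (b (l 2) (l 3))), by decide +kernel⟩

def k2_B05pp_023_s1 : ∃ t, chk3 f_B05pp_023_s1 t 5 6 1 = true :=
  ⟨(a (l 2) (a (l 2) (b (l 2) (b (l 2) (l 254577430695))))), by decide +kernel⟩

def k3_B05pp_023_s1 : ∃ t, chk3 f_B05pp_023_s1 t 40 7 1 = true :=
  ⟨(c (a (b (l 3) (b (l 3) (b (l 3) (b (l 3) (a (l 3) (a (l 3) (l 527641215))))))) (c (b (l 3) (b (l 3) (b (a (l 3) (b (l 526631295) (l 526849151))) (b (a (a (l 3) (b (l 527196543) (b (l 527244415) (l 527281023)))) (b (l 526720639) (a (l 527128959) (l 527008895)))) (a (a (l 527668095) (l 527451519)) (b (l 526890255) (l 527290495))))))) (b (l 3) (b (l 3) (b (a (l 3) (b (l 526363263) (l 526521471))) (b (a (a (l 3) (b (l 526689663) (b (l 526727295) (l 526761855)))) (b (l 526622591) (a (l 526701951) (l 526665087)))) (a (a (l 527159423) (l 526979967)) (a (l 526826367) (l 526818943))))))))) (a (b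 (l 3) (b (l 3) (b (l 3) (b (l 3) (a (l 3) (a (l 3) (l 526592895))))))) (c (b (l 3) (b (l 3) (b (a (l 3) (b (l 526105215) (l 526203007))) (b (a (a (l 3) (b (l 526195327) (b (l 526222719) (l 526256255)))) (b (l 526265471) (a (l 526285695) (l 526328959)))) (a (a (l 526663807) (l 526521727)) (b (a (l 526380415) (l 16761960)) (l 526550143))))))) (b (l 3) (b (l 3) (b (a (l 3) (b (l 525857663) (l 525894783))) (b (a (a (l 3) (b (l 525743231) (b (l 525759615) (l 525813375)))) (b (l 525918079) (a (l 525880959) (l 526000511)))) (a (a (l 526183039) (l 526114687)) (b (a (l 526027647) (l 16761528)) (l 526247807)))))))))), by decide +kernel⟩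

def k4_B05pp_023_s1 : ∃ t, chk3 f_B05pp_023_s1 t 82 14 1 = true :=
  ⟨(l 3), by decide +kernel⟩

def k5_B05pp_023_s1 : ∃ t, chk3 f_B05pp_023_s1 t 166 14 1 = true :=
  ⟨(c (b (l 2) (b (l 2) (a (b (l 3) (a (l 3) (b (a (l 3) (l 525390463)) (c (a (l 524853519) (l 524143231)) (a (l 524661631) (l 525318527)))))) (b (b (l 2) (a (l 527828351) (l 530834447))) (b (a (l 526751103) (l 528071439)) (a (b (l 526182015) (l 525804047)) (b (l 527442191) (l 527321615)))))))) (a (b (l 2) (b (l 2) (b (l 3) (a (l 3) (b (a (l 3) (l 527461247)) (a (b (l 3) (l 526375039)) (b (l 527064191) (l 526569599)))))))) (b (l 2) (b (l 2) (b (b (l 2) (a (l 528926847) (l 530243855))) (b (a (l 528319871) (l 529586959)) (a (b (l 527887999) (l 527590159)) (b (l 528848143) (l 528287503))))))))), by decide +kernel⟩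

def k6_B05pp_023_s1 : ∃ t, chk3 f_B05pp_023_s1 t 167 14 1 = true :=
  ⟨(b (l 2) (a (a (b (l 2) (b (a (a (b (l 532541567) (l 530920831)) (b (l 531414143) (l 530624895))) (b (c (l 531556223) (l 531601535)) (l 532198783))) (a (b (a (l 529857663) (l 529837439)) (b (l 16771992) (l 16771024))) (b (l 530107007) (c (l 16770512) (l 16771080)))))) (a (b (l 2) (b (b (b (l 2) (l 16779552)) (c (l 16773336) (l 16773440))) (b (c (l 16771744) (l 16766784)) (l 16770064)))) (b (l 2) (a (b (b (l 18891144183) (l 16772856)) (b (l 16771336) (l 16769504))) (a (b (b (l 16773824) (l 16772600)) (b (l 16771064) (l 16769224))) (a (a (b (b (l 16773720) (l 16767248)) (b (l 16770952) (l 16769112))) (b (b (l 16773672) (l 16767200)) (b (l 16770904) (l 16769064)))) (b (b (l 16773616) (l 16767136)) (b (l 16765592) (l 16768992))))))))) (a (b (l 2) (a (b (b (l 16773232) (l 16771984)) (b (l 16765184) (l 16768576))) (a (a (b (b (l 16772816) (l 16771544))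 (b (l 16769968) (l 16768112))) (a (b (b (l 16772688) (l 16771416)) (b (l 16769832) (l 16767968))) (a (b (b (l 16772632) (l 16771352)) (b (l 16769768) (l 16767904))) (b (b (l 16772584) (l 16771304)) (b (l 16769720) (l 16767856)))))) (b (b (l 16772384) (l 16771088)) (b (l 16769496) (l 16767624)))))) (b (l 2) (b (b (l 16760992) (l 16770136)) (b (l 16757992) (l 16787568))))))), by decide +kernel⟩

def k7_B05pp_023_s1 : ∃ t, chk3 f_B05pp_023_s1 t 82 15 1 = true :=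
  ⟨(a (b (b (l 3) (b (l 3) (a (b (l 3) (l 526105471)) (c (l 525979775) (l 526211199))))) (b (b (a (l 526235519) (l 526291583)) (a (l 526381951) (l 526447231))) (b (b (a (l 526473087) (l 526542719)) (a (l 526541951) (l 16755440))) (b (a (l 16756920) (l 16751728)) (l 16760992))))) (b (b (b (a (l 3) (b (l 3) (l 525416207))) (a (l 3) (c (l 525064319) (l 526407807)))) (b (a (l 525936511) (l 526039823)) (a (c (l 525958015) (l 526404223)) (a (l 526008959) (l 526103935))))) (a (b (b (l 526392959) (l 526555263)) (b (b (l 16753928) (l 16750344)) (a (l 16756576) (l 16743656)))) (b (b (l 526255631) (b (l 16755640) (l 16752368))) (c (b (l 16757888) (l 16740304)) (b (l 16757536) (l 16739352))))))), by decide +kernel⟩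

def k8_B05pp_023_s1 : ∃ t, chk3 f_B05pp_023_s1 t 166 15 1 = true :=
  ⟨(b (b (a (b (a (b (c (l 524262271) (l 526368127)) (a (l 525529215) (l 525585023))) (b (c (a (l 524288895) (b (l 524442239) (l 524567167))) (a (l 526492175) (b (l 526698111) (l 526710655)))) (a (b (l 525596031) (l 525710975)) (c (l 524798079) (l 526754687))))) (a (l 525857295) (b (a (l 525871743) (l 525997695)) (a (l 526067071) (l 526178943))))) (b (a (b (b (c (l 525574271) (l 527390223)) (c (l 525487231) (l 527287567))) (a (b (l 526145919) (l 526182783)) (c (l 16772000) (l 527399551)))) (b (c (b (l 526997775) (l 16769608)) (b (l 528051471) (l 16770632))) (c (b (l 16768488) (l 16767360)) (c (l 16768856) (l 16769432))))) (a (b (a (l 526264191) (l 526340991)) (c (l 16765304) (l 16766792))) (b (c (l 16765656) (l 16767072)) (l 16766776))))) (a (b (a (l 526219903) (b (l 526016271) (l 16766256))) (a (l 526225791) (b (l 16761072) (l 16758416)))) (b (a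 (b (l 16766368) (l 16761336)) (b (l 16761840) (l 16759440))) (b (a (l 16758832) (l 16756952)) (l 16755256))))) (b (a (b (b (l 16762040) (l 16753896)) (b (l 16750872) (l 16747728))) (b (b (l 16752560) (l 16749640)) (b (l 16746392) (l 16742800)))) (b (a (b (l 16744296) (l 16740600)) (b (l 16738768) (l 16734456))) (a (l 16744840) (l 16728344))))), by decide +kernel⟩

def k9_B05pp_023_s1 : ∃ t, chk3 f_B05pp_023_s1 t 167 30 1 = true :=
  ⟨(a (a (b (b (a (b (c (l 16769040) (l 16769944)) (l 16767408)) (b (l 16768792) (l 16766688))) (b (c (l 16764176) (l 16765496)) (l 16762600))) (c (b (l 16760888) (l 16753192)) (b (l 16759744) (l 16754488)))) (a (b (b (b (l 16768056) (l 16765944)) (b (l 16763752) (l 16761464))) (b (l 16757864) (l 16754848))) (a (b (b (c (l 16765976) (l 16766888)) (b (l 16763176) (l 16760888))) (b (b (l 16758504) (l 16776896)) (l 16750952))) (a (b (b (c (l 16765704) (l 16766600)) (l 16764368)) (b (l 16759376)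 (l 16750064))) (a (a (b (b (b (l 16767096) (l 16764984)) (l 16764248)) (b (l 16756568) (l 16749680))) (b (b (b (l 16767048) (l 16764936)) (l 16761576)) (b (l 16756464) (l 16749520)))) (b (b (b (l 16766984) (l 16764872)) (l 16761504)) (b (l 16756280) (l 16749272)))))))) (a (a (b (b (b (l 16766560) (a (l 16764632) (a (l 16764352) (c (l 16753024) (l 16753984))))) (a (b (l 16762424) (l 16780960)) (b (a (l 16782944) (l 16761216)) (a (l 16748648) (l 16757984))))) (b (b (a (l 16746648) (l 16755224)) (l 16752536)) (a (l 16748344) (l 16746440)))) (a (a (b (b (b (l 16766088) (l 16763656)) (l 16758968)) (b (l 16752288) (l 16745256))) (a (b (b (b (l 16765952) (l 16763520)) (l 16758832)) (b (l 16752144) (l 16745112))) (a (b (b (b (l 16765880) (l 16763456)) (l 16758760)) (b (l 16752080) (l 16745040))) (b (b (b (l 16765832) (l 16763408)) (l 16758712)) (b (l 16752024) (l 16744992)))))) (b (b (b (l 16765592) (l 16763176)) (l 16758480))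 (b (l 16751792) (l 16744744))))) (b (b (b (l 16764552) (l 16762136)) (l 16757448)) (b (l 16750744) (l 16743656))))), by decide +kernel⟩

def k10_B05pp_023_s1 : ∃ t, chk3 f_B05pp_023_s1 t 167 31 1 = true :=
  ⟨(a (a (b (b (l 16752880) (l 16739848)) (b (l 16731536) (l 16723864))) (a (b (b (l 16744976) (l 16737048)) (b (l 16728872) (l 16721512))) (a (b (b (l 16743400) (l 16735512)) (b (l 16727608) (l 16720288))) (a (b (b (l 16742544) (l 16734688)) (b (l 16726952) (l 16719648))) (a (a (b (b (l 16742168) (l 16734328)) (b (l 16726672) (l 16719368))) (b (b (l 16742016) (l 16734176)) (b (l 16726560) (l 16719264)))) (b (b (l 16741776) (l 16733952)) (b (l 16726384) (l 16719088)))))))) (a (a (b (b (a (l 16740880) (l 16739064)) (b (l 16734056) (l 16730464))) (b (l 16735576) (l 16717856))) (a (a (b (b (l 16737944) (l 16730952)) (b (l 16723848) (l 16716656))) (a (b (b (l 16737792) (l 16730736)) (b (l 16723640) (l 16716448))) (a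 (b (b (l 16737712) (l 16730632)) (b (l 16723536) (l 16716344))) (b (b (l 16737664) (l 16730560)) (b (l 16723464) (l 16716280)))))) (b (b (l 16737408) (l 16730232)) (b (l 16723144) (l 16715960))))) (b (b (l 16736272) (l 16728776)) (b (l 16721712) (l 16714544))))), by decide +kernel⟩

def k11_B05pp_023_s1 : ∃ t, chk3 f_B05pp_023_s1 t 21 7 1 = true :=
  ⟨(b (b (a (l 2) (b (l 2) (l 16748032))) (b (b (a (l 2) (l 16701376)) (a (b (l 261556788071) (l 224512703015)) (l 16738960))) (a (a (c (b (a (l 9764340439) (l 16739976)) (a (b (l 16764328) (l 16762192)) (l 16735824))) (b (l 16774528) (l 16771016))) (b (l 16751928) (a (l 16750480) (l 16744016)))) (b (l 16733704) (l 16811848))))) (b (a (a (b (b (b (l 16757000) (l 16759800)) (a (l 16758488) (l 16746432))) (b (a (l 16746456) (l 16739448)) (l 16746128))) (b (b (l 16742288) (l 16736136)) (b (l 16728800) (l 16720976)))) (b (b (l 16722136) (l 16715424)) (a (l 16710320) (l 16695624))))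 (a (b (b (a (l 16738424) (l 16712712)) (a (l 16740880) (l 16704192))) (b (a (l 16711640) (l 16695448)) (a (l 16704360) (l 16686752)))) (b (b (l 16689648) (l 16680400)) (b (l 16671368) (l 16661600)))))), by decide +kernel⟩

def k12_B05pp_023_s1 : ∃ t, chk3 f_B05pp_023_s1 t 11 7 1 = true :=
  ⟨(b (a (a (b (b (l 2) (l 16646048)) (b (l 16719256) (l 16622000))) (b (l 16799408) (b (l 16613632) (l 16681328)))) (b (b (l 16696784) (l 16598440)) (b (l 16663896) (l 16644512)))) (b (a (b (a (l 16691560) (l 16664360)) (a (l 16673752) (l 16644776))) (b (l 16624200) (a (l 16615912) (l 16587912)))) (b (a (a (l 16653800) (l 16623288)) (a (l 16592072) (l 16559608))) (a (a (l 16685424) (l 16598224)) (a (l 16562904) (l 16525848)))))), by decide +kernel⟩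

def k13_B05pp_023_s1 : ∃ t, chk3 f_B05pp_023_s1 t 3 3 1 = true :=
  ⟨(b (a (b (a (l 2) (b (l 16676512) (l 16736344))) (a (a (b (l 16705896) (l 16686712)) (b (l 16519128) (l 16745232))) (b (l 16743760) (l 16870976)))) (l 6)) (a (b (a (a (b (b (l 16664096) (l 16642944)) (b (l 16620424) (l 16596784))) (b (l 16616504) (b (l 16578144) (l 16551016)))) (a (b (l 16581848) (l 16604208)) (l 6))) (a (b (b (a (l 16572736) (l 16519104)) (a (l 16543960) (l 16480880))) (b (a (l 16508776) (l 16267936)) (a (l 16467808) (l 16387536)))) (a (b (l 16435984) (a (l 16351272) (l 16309480))) (l 6)))) (l 6))), by decide +kernel⟩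

theorem t14_B05pp_023_s1 : ∃ t, chk3 f_B05pp_023_s1 t 167 15 1 = true := ex3_b k9_B05pp_023_s1 k10_B05pp_023_s1

theorem t15_B05pp_023_s1 : ∃ t, chk3 f_B05pp_023_s1 t 83 15 1 = true := ex3_a k8_B05pp_023_s1 t14_B05pp_023_s1

theorem t16_B05pp_023_s1 : ∃ t, chk3 f_B05pp_023_s1 t 41 15 1 = true := ex3_a k7_B05pp_023_s1 t15_B05pp_023_s1

theorem t17_B05pp_023_s1 : ∃ t, chk3 f_B05pp_023_s1 t 83 14 1 = true := ex3_a k5_B05pp_023_s1 k6_B05pp_023_s1

theorem t18_B05pp_023_s1 : ∃ t, chk3 f_B05pp_023_s1 t 41 14 1 = true := ex3_a k4_B05pp_023_s1 t17_B05pp_023_s1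

theorem t19_B05pp_023_s1 : ∃ t, chk3 f_B05pp_023_s1 t 41 7 1 = true := ex3_b t18_B05pp_023_s1 t16_B05pp_023_s1

theorem t20_B05pp_023_s1 : ∃ t, chk3 f_B05pp_023_s1 t 20 7 1 = true := ex3_a k3_B05pp_023_s1 t19_B05pp_023_s1

theorem t21_B05pp_023_s1 : ∃ t, chk3 f_B05pp_023_s1 t 10 7 1 = true := ex3_a t20_B05pp_023_s1 k11_B05pp_023_s1

theorem t22_B05pp_023_s1 : ∃ t, chk3 f_B05pp_023_s1 t 5 7 1 = true := ex3_a t21_B05pp_023_s1 k12_B05pp_023_s1

theorem t23_B05pp_023_s1 : ∃ t, chk3 f_B05pp_023_s1 t 5 3 1 = true := ex3_b k2_B05pp_023_s1 t22_B05pp_023_s1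

theorem t24_B05pp_023_s1 : ∃ t, chk3 f_B05pp_023_s1 t 2 3 1 = true := ex3_a k1_B05pp_023_s1 t23_B05pp_023_s1

theorem t25_B05pp_023_s1 : ∃ t, chk3 f_B05pp_023_s1 t 1 3 1 = true := ex3_a t24_B05pp_023_s1 k13_B05pp_023_s1

theorem t26_B05pp_023_s1 : ∃ t, chk3 f_B05pp_023_s1 t 1 1 1 = true := ex3_b k0_B05pp_023_s1 t25_B05pp_023_s1

theorem c_B05pp_023_s1 : CertF 0 536870912 0 1230186008 740881858 40050571 false true true .up 0 2 3
    ndB0q0 ndB5q3 pcB2 cut_B05pp_023_s1 xt_B05pp_023_s1 :=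
  certF2 (fam := false) (s1 := true) (s2 := true) (a := 0) (b := 2) (c := 3) (cn := .up) (n1 := ndB0q0) (n2 := ndB5q3) (pc := pcB2) (cut := cut_B05pp_023_s1) (xt := xt_B05pp_023_s1) (P1 := 0) (W1 := 536870912) (P2 := 0) (W2 := 1230186008) (P3 := 740881858) (W3 := 40050571)
    rfl (fun _ => rfl) t26_B05pp_023_s1

theorem s_B05pp_023_s1 {κ x : ℝ} (hκ : κ * h0 = ken x) (hx : ((740881858 : ℕ) : ℝ) / S ≤ x)
    (hx' : x ≤ (((740881858 : ℕ) : ℝ) + (40050571 : ℕ)) / S) :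
    AltB (VFD κ) PP tK tL pcB [⟨3, 0, 0, 1449551462⟩] 0 2 3 0 5 (sgb true) (sgb true) x :=
  strip_altBD (m := 1449551462) true rfl hκ (SH.κ0 hκ (SH.hx1 hx).le (SH.hx2 hx').le) (SH.hx1 hx).le (SH.hx2 hx') (covB00).cov (covB53).cov hx hx' c_B05pp_023_s1 cutB_nil ((okx hx hx').extB (T := tt) (sideB hx hx') hκ rfl rfl (.O 0 true) (.N 3 true) rfl)

noncomputable def cut_B05pp_033_s1 : Cut := Cut.of [[⟨4, 0, 0, 1449551462⟩]]

noncomputable def f_B05pp_033_s1 : ℕ → ℕ → ℕ → ℕ → Bool := onCell 1610612736 536870912 0 1230186008 740881858 40050571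
    (rowF 2 false true true .pnn 0 3 3 (qsf 0 536870912 0 1230186008 3) ndB0q0 ndB5q3 pcB3 cut_B05pp_033_s1 Ext.none)

def k0_B05pp_033_s1 : ∃ t, chk3 f_B05pp_033_s1 t 1 1 1 = true :=
  ⟨(b (l 6) (l 6)), by decide +kernel⟩

theorem c_B05pp_033_s1 : CertF 0 536870912 0 1230186008 740881858 40050571 false true true .pnn 0 3 3
    ndB0q0 ndB5q3 pcB3 cut_B05pp_033_s1 Ext.none :=
  certF2 (fam := false) (s1 := true) (s2 := true) (a := 0) (b := 3) (c := 3) (cn := .pnn) (n1 := ndB0q0) (n2 := ndB5q3) (pc := pcB3) (cut := cut_B05pp_033_s1) (xt := Ext.none) (P1 := 0) (W1 := 536870912) (P2 := 0) (W2 := 1230186008) (P3 := 740881858) (W3 := 40050571)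
    rfl (fun _ => rfl) k0_B05pp_033_s1

theorem s_B05pp_033_s1 {κ x : ℝ} (hκ : κ * h0 = ken x) (hx : ((740881858 : ℕ) : ℝ) / S ≤ x)
    (hx' : x ≤ (((740881858 : ℕ) : ℝ) + (40050571 : ℕ)) / S) :
    AltB (VFD κ) PP tK tL pcB [⟨3, 0, 0, 1449551462⟩] 0 3 3 0 5 (sgb true) (sgb true) x :=
  strip_altBD (m := 1449551462) true rfl hκ (SH.κ0 hκ (SH.hx1 hx).le (SH.hx2 hx').le) (SH.hx1 hx).le (SH.hx2 hx') (covB00).cov (covB53).cov hx hx' c_B05pp_033_s1 cutB_nil (noExt_B)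

noncomputable def cut_B05pp_101_s1 : Cut := Cut.of [[⟨4, 0, 0, 1449551462⟩]]

noncomputable def f_B05pp_101_s1 : ℕ → ℕ → ℕ → ℕ → Bool := onCell 536870912 536870912 536870912 536870912 740881858 40050571
    (rowF 0 false true true .npn 1 0 1 (qsf 536870912 536870912 536870912 536870912 0) ndB0q1 ndB5q1 pcB0 cut_B05pp_101_s1 Ext.none)

def k0_B05pp_101_s1 : ∃ t, chk3 f_B05pp_101_s1 t 1 1 1 = true :=
  ⟨(a (l 3) (l 5)), by decide +kernel⟩

theorem c_B05pp_101_s1 : CertF 536870912 536870912 536870912 536870912 740881858 40050571 false true true .npn 1 0 1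
    ndB0q1 ndB5q1 pcB0 cut_B05pp_101_s1 Ext.none :=
  certF0 (fam := false) (s1 := true) (s2 := true) (a := 1) (b := 0) (c := 1) (cn := .npn) (n1 := ndB0q1) (n2 := ndB5q1) (pc := pcB0) (cut := cut_B05pp_101_s1) (xt := Ext.none) (P1 := 536870912) (W1 := 536870912) (P2 := 536870912) (W2 := 536870912) (P3 := 740881858) (W3 := 40050571)
    rfl k0_B05pp_101_s1

theorem s_B05pp_101_s1 {κ x : ℝ} (hκ : κ * h0 = ken x) (hx : ((740881858 : ℕ) : ℝ) / S ≤ x)
    (hx' : x ≤ (((740881858 : ℕ) : ℝ) + (40050571 : ℕ)) / S) :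
    AltB (VFD κ) PP tK tL pcB [⟨3, 0, 0, 1449551462⟩] 1 0 1 0 5 (sgb true) (sgb true) x :=
  strip_altBD (m := 1449551462) true rfl hκ (SH.κ0 hκ (SH.hx1 hx).le (SH.hx2 hx').le) (SH.hx1 hx).le (SH.hx2 hx') (covB01).cov (covB51).cov hx hx' c_B05pp_101_s1 cutB_nil (noExt_B)

noncomputable def cut_B05pp_102_s1 : Cut := Cut.of [[⟨4, 0, 0, 1449551462⟩]]

noncomputable def f_B05pp_102_s1 : ℕ → ℕ → ℕ → ℕ → Bool := onCell 536870912 536870912 1073741824 536870912 740881858 40050571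
    (rowF 0 false true true .npp 1 0 2 (qsf 536870912 536870912 1073741824 536870912 0) ndB0q1 ndB5q2 pcB0 cut_B05pp_102_s1 Ext.none)

def k0_B05pp_102_s1 : ∃ t, chk3 f_B05pp_102_s1 t 1 1 1 = true :=
  ⟨(a (l 3) (b (l 5) (l 3))), by decide +kernel⟩

theorem c_B05pp_102_s1 : CertF 536870912 536870912 1073741824 536870912 740881858 40050571 false true true .npp 1 0 2
    ndB0q1 ndB5q2 pcB0 cut_B05pp_102_s1 Ext.none :=
  certF0 (fam := false) (s1 := true) (s2 := true) (a := 1) (b := 0) (c := 2) (cn := .npp) (n1 := ndB0q1) (n2 := ndB5q2) (pc := pcB0) (cut := cut_B05pp_102_s1) (xt := Ext.none) (P1 := 536870912) (W1 := 536870912) (P2 := 1073741824) (W2 := 536870912) (P3 := 740881858) (W3 := 40050571)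
    rfl k0_B05pp_102_s1

theorem s_B05pp_102_s1 {κ x : ℝ} (hκ : κ * h0 = ken x) (hx : ((740881858 : ℕ) : ℝ) / S ≤ x)
    (hx' : x ≤ (((740881858 : ℕ) : ℝ) + (40050571 : ℕ)) / S) :
    AltB (VFD κ) PP tK tL pcB [⟨3, 0, 0, 1449551462⟩] 1 0 2 0 5 (sgb true) (sgb true) x :=
  strip_altBD (m := 1449551462) true rfl hκ (SH.κ0 hκ (SH.hx1 hx).le (SH.hx2 hx').le) (SH.hx1 hx).le (SH.hx2 hx') (covB01).cov (covB52).cov hx hx' c_B05pp_102_s1 cutB_nil (noExt_B)

noncomputable def cut_B05pp_112_s1 : Cut := Cut.of [[⟨4, 0, 0, 1449551462⟩]]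

noncomputable def f_B05pp_112_s1 : ℕ → ℕ → ℕ → ℕ → Bool := onCell 536870912 536870912 1073741824 536870912 740881858 40050571
    (rowF 0 false true true .dn 1 1 2 (qsf 536870912 536870912 1073741824 536870912 1) ndB0q1 ndB5q2 pcB1 cut_B05pp_112_s1 Ext.none)

def k0_B05pp_112_s1 : ∃ t, chk3 f_B05pp_112_s1 t 1 1 1 = true :=
  ⟨(a (l 3) (b (l 5) (l 3))), by decide +kernel⟩

theorem c_B05pp_112_s1 : CertF 536870912 536870912 1073741824 536870912 740881858 40050571 false true true .dn 1 1 2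
    ndB0q1 ndB5q2 pcB1 cut_B05pp_112_s1 Ext.none :=
  certF0 (fam := false) (s1 := true) (s2 := true) (a := 1) (b := 1) (c := 2) (cn := .dn) (n1 := ndB0q1) (n2 := ndB5q2) (pc := pcB1) (cut := cut_B05pp_112_s1) (xt := Ext.none) (P1 := 536870912) (W1 := 536870912) (P2 := 1073741824) (W2 := 536870912) (P3 := 740881858) (W3 := 40050571)
    rfl k0_B05pp_112_s1

theorem s_B05pp_112_s1 {κ x : ℝ} (hκ : κ * h0 = ken x) (hx : ((740881858 : ℕ) : ℝ) / S ≤ x)
    (hx' : x ≤ (((740881858 : ℕ) : ℝ) + (40050571 : ℕ)) / S) :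
    AltB (VFD κ) PP tK tL pcB [⟨3, 0, 0, 1449551462⟩] 1 1 2 0 5 (sgb true) (sgb true) x :=
  strip_altBD (m := 1449551462) true rfl hκ (SH.κ0 hκ (SH.hx1 hx).le (SH.hx2 hx').le) (SH.hx1 hx).le (SH.hx2 hx') (covB01).cov (covB52).cov hx hx' c_B05pp_112_s1 cutB_nil (noExt_B)

noncomputable def cut_B05pp_113_s1 : Cut := Cut.of [[⟨4, 0, 0, 1449551462⟩], [⟨0, 1, 0, 67108864⟩, ⟨1, 1, 0, 67108864⟩, ⟨2, 2, 0, 16777216⟩]]

noncomputable def f_B05pp_113_s1 : ℕ → ℕ → ℕ → ℕ → Bool := onCell 536870912 536870912 0 1230186008 740881858 40050571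
    (rowF 2 false true true .nn 1 1 3 (qsf 536870912 536870912 0 1230186008 1) ndB0q1 ndB5q3 pcB1 cut_B05pp_113_s1 Ext.none)

def k0_B05pp_113_s1 : ∃ t, chk3 f_B05pp_113_s1 t 1 1 1 = true :=
  ⟨(b (a (l 2) (a (l 2) (b (a (l 2) (b (a (l 2) (l 14)) (l 3))) (l 3)))) (a (b (a (l 2) (b (l 2) (a (l 2) (l 3)))) (a (b (l 2) (l 3)) (l 3))) (b (a (l 3) (l 3)) (l 3)))), by decide +kernel⟩

theorem c_B05pp_113_s1 : CertF 536870912 536870912 0 1230186008 740881858 40050571 false true true .nn 1 1 3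
    ndB0q1 ndB5q3 pcB1 cut_B05pp_113_s1 Ext.none :=
  certF2 (fam := false) (s1 := true) (s2 := true) (a := 1) (b := 1) (c := 3) (cn := .nn) (n1 := ndB0q1) (n2 := ndB5q3) (pc := pcB1) (cut := cut_B05pp_113_s1) (xt := Ext.none) (P1 := 536870912) (W1 := 536870912) (P2 := 0) (W2 := 1230186008) (P3 := 740881858) (W3 := 40050571)
    rfl (fun _ => rfl) k0_B05pp_113_s1

theorem s_B05pp_113_s1 {κ x : ℝ} (hκ : κ * h0 = ken x) (hx : ((740881858 : ℕ) : ℝ) / S ≤ x)
    (hx' : x ≤ (((740881858 : ℕ) : ℝ) + (40050571 : ℕ)) / S)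
    (H : CutB (VFD κ) PP tK tL pcB (Cut.of [[⟨0, 1, 0, 67108864⟩, ⟨1, 1, 0, 67108864⟩, ⟨2, 2, 0, 16777216⟩]]) 1 1 3 0 5 (sgb true) (sgb true) x) :
    AltB (VFD κ) PP tK tL pcB [⟨3, 0, 0, 1449551462⟩] 1 1 3 0 5 (sgb true) (sgb true) x :=
  strip_altBD (m := 1449551462) true rfl hκ (SH.κ0 hκ (SH.hx1 hx).le (SH.hx2 hx').le) (SH.hx1 hx).le (SH.hx2 hx') (covB01).cov (covB53).cov hx hx' c_B05pp_113_s1 H (noExt_B)

noncomputable def cut_B05pp_123_s1 : Cut := Cut.of [[⟨4, 0, 0, 1449551462⟩], [⟨0, 1, 0, 67108864⟩, ⟨1, 1, 0, 67108864⟩, ⟨2, 2, 0, 16777216⟩]]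

noncomputable def xt_B05pp_123_s1 : Ext := strExt dd false true true .u0 .s2 .u2 .npn 1 2 3 rfl rfl gf2 vv ndB0q1 ndB5q3

noncomputable def f_B05pp_123_s1 : ℕ → ℕ → ℕ → ℕ → Bool := onCell 1073741824 536870912 0 1230186008 740881858 40050571
    (rowF 2 false true true .npn 1 2 3 (qsf 536870912 536870912 0 1230186008 2) ndB0q1 ndB5q3 pcB2 cut_B05pp_123_s1 xt_B05pp_123_s1)

def k0_B05pp_123_s1 : ∃ t, chk3 f_B05pp_123_s1 t 8 4 1 = true :=
  ⟨(b (a (l 14) (a (l 14) (a (l 14) (b (l 16722664) (b (l 16745640) (a (l 16783440) (l 16757392))))))) (a (l 3) (b (a (l 14) (b (a (b (a (l 14) (b (l 14) (a (l 14) (b (l 16775816) (l 16775336))))) (l 535709839)) (b (a (b (l 16770456) (l 16773632)) (l 16766512)) (a (b (a (b (l 16775680) (l 16775760)) (l 16775272)) (a (l 536086671) (b (l 16775952) (l 16776224)))) (b (l 16771328) (a (l 16775344) (l 16772936)))))) (a (l 535630367) (b (a (l 536144783) (b (a (l 16776392) (b (l 16774880)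 (l 16775528))) (l 536245391))) (l 536307855))))) (l 3)))), by decide +kernel⟩

def k1_B05pp_123_s1 : ∃ t, chk3 f_B05pp_123_s1 t 9 4 1 = true :=
  ⟨(a (b (b (l 16784624) (a (a (l 16744664) (l 16737960)) (l 16725384))) (b (a (b (a (b (a (l 16762680) (l 16760200)) (a (l 16768552) (l 16765824))) (b (l 16755000) (l 16761280))) (a (b (a (b (l 16772720) (a (b (l 16775128) (l 16775552)) (l 16774368))) (l 16770816)) (a (b (a (l 536039567) (l 16775688)) (l 536057743)) (b (a (l 16774888) (l 16773480)) (a (l 16775800) (l 16775160))))) (b (l 16766512) (a (b (l 16771016) (l 16773072)) (l 16769064))))) (b (l 16745792) (a (b (l 16759976) (l 16765064)) (l 16775768)))) (a (b (a (a (l 535965727) (l 536032287)) (b (a (b (a (l 16775320) (l 16774264)) (l 536103055)) (b (l 16772128) (l 16773808))) (a (l 536065167) (b (a (l 16775432) (l 16774760)) (l 536058255))))) (a (l 3) (l 536000399))) (b (a (b (l 16768848) (a (b (l 16772832) (l 16774320))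 (l 16771048))) (b (l 16763944) (l 16767632))) (a (b (a (b (l 16775248) (l 536014735)) (b (l 16773400) (l 16774656))) (l 535986063)) (b (a (l 16771712) (l 16769600)) (a (b (l 16773896) (l 16774888)) (l 16772408)))))))) (b (b (l 16825064) (l 16782600)) (b (a (l 16734384) (l 16717912)) (a (b (a (l 16759960) (l 16751944)) (a (l 16768248) (l 16795336))) (b (l 16739032) (a (l 16757368) (l 16748440))))))), by decide +kernel⟩

def k2_B05pp_123_s1 : ∃ t, chk3 f_B05pp_123_s1 t 4 5 1 = true :=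
  ⟨(a (l 3) (a (a (l 3) (b (b (b (a (l 535932959) (b (a (l 536002191) (b (l 16774392) (l 16775088))) (l 535993887))) (a (l 3) (l 535881503))) (l 3)) (l 3))) (b (a (b (b (a (b (a (l 16773064) (l 16771272)) (a (b (l 16774336) (l 16774968)) (l 16773360))) (l 16769544)) (a (a (l 535935375) (b (b (l 16774120) (l 16774816)) (l 535884431))) (a (b (l 16773304) (l 16779592)) (b (l 16771352) (l 16773000))))) (a (b (l 535794207) (l 3)) (b (a (l 535814799) (b (l 16784888) (l 535827343))) (b (l 535769887) (l 535709471))))) (b (b (a (l 16765504) (l 16759840)) (a (a (l 16769872) (l 16767736)) (l 16764896))) (a (b (a (b (l 16772184) (l 16773624)) (b (l 16769680) (l 16771144))) (b (l 535481375) (l 535451167))) (b (a (l 16768080) (l 16766104)) (a (b (l 16770304) (l 16772152)) (b (l 16768168) (l 16769864))))))) (a (l 3) (b (a (b (a (l 535508767) (l 535346207)) (l 3)) (b (a (l 535243551) (b (l 16782272) (l 535214223))) (a (l 535231119)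 (l 535207967)))) (a (l 3) (b (a (l 3) (b (c (l 535061023) (l 535234591)) (l 3))) (l 3)))))))), by decide +kernel⟩

def k3_B05pp_123_s1 : ∃ t, chk3 f_B05pp_123_s1 t 10 2 1 = true :=
  ⟨(b (b (a (a (l 16659840) (a (l 16654000) (a (l 16650592) (l 16647656)))) (l 16471760)) (a (a (b (l 16704800) (l 16728136)) (a (l 16704432) (a (l 16530600) (b (l 16685792) (l 16702600))))) (l 16771552))) (a (a (b (b (b (l 16746168) (a (l 16759896) (l 16751976))) (a (b (l 16763752) (l 16766488)) (b (l 16759736) (l 16764088)))) (b (a (b (a (b (l 16769728) (l 16782144)) (l 16769048)) (a (a (l 536866335) (b (l 16772976) (l 535417887))) (b (l 16771936) (l 16778704)))) (b (l 16767592) (a (b (l 16770488) (l 16772016)) (l 16770000)))) (a (b (c (a (b (l 535278111) (l 535235103)) (l 535406879)) (a (b (l 535415327) (l 535358239)) (l 535502879))) (a (l 3) (l 535327263))) (a (b (b (l 16773128) (l 535494175)) (a (l 535381903) (c (l 535399711) (l 535422751))))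 (b (b (l 16771520) (l 16772552)) (b (b (l 16773312) (l 16773840)) (a (l 535373855) (l 16774128)))))))) (b (a (b (l 16736880) (b (l 16752520) (l 16760744))) (b (a (l 16729040) (l 16638536)) (a (l 16750256) (a (l 16745200) (l 16741472))))) (a (b (b (l 16765688) (l 16768064)) (b (a (l 16770384) (l 16768952)) (a (b (l 16771680) (l 16783080)) (b (l 16769864) (l 16770560))))) (b (b (a (l 16763336) (a (l 16760104) (l 16756760))) (a (l 16764352) (a (l 16763768) (a (l 16763576) (l 16762424))))) (a (b (l 16766392) (l 16768488)) (b (a (l 16764216) (b (l 16762848) (l 16763488))) (a (a (l 16767096) (l 16766152)) (a (l 16765176) (l 16764664))))))))) (b (b (a (l 16715904) (l 16710584)) (a (l 16736232) (l 16729792))) (b (a (l 16754328) (l 16745512)) (a (b (l 16760688) (l 16761488)) (l 16814952)))))), by decide +kernel⟩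

def k4_B05pp_123_s1 : ∃ t, chk3 f_B05pp_123_s1 t 11 2 1 = true :=
  ⟨(b (b (l 6) (a (l 16681624) (l 16596912))) (b (b (l 16700320) (a (l 16719704) (l 16706808))) (a (b (l 16732992) (a (l 16743016) (l 16733952))) (b (l 16715776) (l 16720864))))), by decide +kernel⟩

def k5_B05pp_123_s1 : ∃ t, chk3 f_B05pp_123_s1 t 3 2 1 = true :=
  ⟨(a (b (l 6) (a (b (b (l 6) (l 16691120)) (a (b (l 16702504) (l 16705368)) (b (l 16691512) (l 16693832)))) (l 6))) (l 6)), by decide +kernel⟩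

def k6_B05pp_123_s1 : ∃ t, chk3 f_B05pp_123_s1 t 4 6 1 = true :=
  ⟨(l 3), by decide +kernel⟩

def k7_B05pp_123_s1 : ∃ t, chk3 f_B05pp_123_s1 t 40 6 1 = true :=
  ⟨(b (b (a (l 3) (b (a (b (c (b (l 535297823) (l 535260191)) (b (l 535303711) (l 535256863))) (l 3)) (b (c (l 535300895) (l 535263007)) (l 535207055))) (a (l 3) (l 535093535)))) (l 3)) (l 3)), by decide +kernel⟩

def k8_B05pp_123_s1 : ∃ t, chk3 f_B05pp_123_s1 t 82 6 1 = true :=
  ⟨(b (a (b (b (b (l 535257887) (l 535194511)) (a (l 535089039) (l 535085087))) (b (a (l 3) (l 535979039)) (l 3))) (b (b (b (l 16781992) (a (l 16773104) (l 16771944))) (a (l 535078431) (b (l 16773024) (l 16779296)))) (b (a (b (l 534954127) (l 534856079)) (b (l 534950799) (l 534859151))) (a (b (l 534741903) (l 3)) (b (l 534750863) (l 534616095)))))) (l 3)), by decide +kernel⟩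

def k9_B05pp_123_s1 : ∃ t, chk3 f_B05pp_123_s1 t 166 12 1 = true :=
  ⟨(b (b (a (b (l 16769952) (l 16770824)) (l 16769424)) (a (b (l 16771824) (l 16772856)) (b (l 16770680) (l 16771608)))) (b (b (a (c (l 16773880) (l 16773784)) (l 16772576)) (a (a (l 534860431) (l 534859807)) (c (l 16773576) (l 16773456)))) (a (a (b (l 534757519) (l 534630431)) (b (b (l 16777808) (l 534736159)) (c (b (l 534582815) (l 534482207)) (b (l 534721823) (l 534683167))))) (b (a (c (l 16774744) (l 16774760)) (c (l 16774128) (l 16774048))) (a (b (c (l 16775384) (l 16775440)) (c (l 16778440) (l 534671647))) (b (l 16774768) (l 534640159))))))), by decide +kernel⟩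

def k10_B05pp_123_s1 : ∃ t, chk3 f_B05pp_123_s1 t 167 12 1 = true :=
  ⟨(a (a (b (b (l 16768720) (l 16770336)) (b (b (l 16771576) (l 16772472)) (b (l 16773376) (b (l 16774016) (l 16774416))))) (a (b (b (l 16768376) (l 16769976)) (b (b (l 16771152) (l 16771944)) (b (l 16772792) (l 16763112)))) (a (b (b (l 16768200) (l 16769792)) (b (b (l 16770992) (l 16771712)) (b (l 16772488) (l 16773280)))) (a (b (b (l 16768120) (l 16769696)) (b (l 16771272) (b (l 16772352) (l 16762600)))) (a (a (b (b (l 16768080) (l 16769656)) (b (l 16771248) (b (l 16772288) (l 16773016)))) (b (b (l 16768072) (l 16769640)) (b (l 16771232) (b (l 16772272) (l 16772992))))) (b (b (l 16768048) (l 16769624)) (b (l 16771216) (b (l 16772248) (l 16772952))))))))) (a (a (b (b (l 16767528) (l 16769480)) (b (b (l 16770712) (l 16771512)) (b (a (l 16761712) (l 16772184)) (a (l 16762336) (a (l 16762232) (b (l 16772632) (l 16772840))))))) (a (a (b (b (l 16767024)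 (l 16769304)) (b (l 16770936) (b (l 16772120) (l 16772696)))) (a (b (b (l 16767024) (l 16769248)) (b (l 16770880) (b (l 16772056) (l 16772616)))) (a (b (b (l 16767016) (l 16769224)) (b (l 16770848) (b (l 16772024) (l 16772576)))) (b (b (l 16767016) (l 16769208)) (b (l 16770832) (b (l 16772000) (l 16772552))))))) (b (b (l 16767000) (l 16769128)) (b (l 16770744) (b (l 16771904) (l 16772448)))))) (b (b (l 16766936) (l 16768768)) (b (l 16770352) (b (l 16771456) (l 16771960)))))), by decide +kernel⟩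

def k11_B05pp_123_s1 : ∃ t, chk3 f_B05pp_123_s1 t 166 13 1 = true :=
  ⟨(a (b (b (a (b (b (l 534517279) (l 3)) (l 3)) (b (c (b (l 534368543) (a (l 534245519) (l 534423183))) (b (l 534641183) (l 534635295))) (l 3))) (l 3)) (l 3)) (b (b (b (b (a (c (l 534535055) (l 534627727)) (l 534585119)) (a (l 534617743) (l 534572687))) (a (l 534680351) (a (l 534622607) (l 534530447)))) (b (a (l 3) (c (l 534614815) (l 534395679))) (l 3))) (l 3))), by decide +kernel⟩

def k12_B05pp_123_s1 : ∃ t, chk3 f_B05pp_123_s1 t 334 13 1 = true :=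
  ⟨(a (c (b (b (b (a (l 16777888) (l 16774856)) (a (b (l 16775864) (l 534455071)) (b (l 16775448) (l 534336399)))) (b (a (b (l 534364047) (a (l 534226319) (l 534113935))) (b (l 534219919) (b (l 534123663) (l 534085263)))) (a (a (b (b (l 534038671) (l 3)) (l 3)) (l 534068111)) (l 534075791)))) (b (b (a (l 3) (l 533932431)) (l 3)) (l 3))) (b (b (b (b (l 16774744) (l 16775152)) (a (l 534320927) (c (l 16775544) (l 16775496)))) (b (a (a (l 534140815) (b (l 534124943) (l 533966735))) (b (l 534061455) (b (l 16776344) (l 533946255)))) (a (a (b (b (l 533901199) (l 3)) (l 3)) (l 533919375)) (l 533928847)))) (b (b (a (l 3) (l 533790607)) (l 3)) (l 3)))) (a (b (b (b (l 16774368) (b (l 16774952) (l 16780560))) (b (b (l 534090383) (l 534023567)) (b (l 534017423) (l 533949071)))) (b (b (l 533870223) (l 533754255)) (l 3))) (a (b (b (b (c (l 16774128) (l 16773960)) (l 16777424)) (b (l 535386255) (l 533981327))) (b (b (l 533878415)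 (l 533763727)) (l 3))) (a (b (b (b (c (l 16773968) (l 16773792)) (l 534176911)) (b (l 534040207) (l 533983631))) (b (b (l 533880719) (l 533766543)) (l 3))) (a (a (b (b (b (l 534275215) (l 534170511)) (b (l 534038159) (l 533983887))) (b (b (l 533881231) (l 533766799)) (l 3))) (b (b (b (l 534272399) (l 534168207)) (b (l 534037903) (l 533984143))) (b (b (l 533881487) (l 533767055)) (l 3)))) (b (b (b (l 16763216) (l 534164623)) (b (l 534037391) (l 533984399))) (b (b (l 533881487) (l 533767311)) (l 533571631)))))))), by decide +kernel⟩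

def k13_B05pp_123_s1 : ∃ t, chk3 f_B05pp_123_s1 t 1340 13 1 = true :=
  ⟨(b (b (b (b (a (l 16773368) (b (l 16762584) (l 16773240))) (l 16773672)) (b (l 16774072) (l 16774448))) (b (c (l 16775080) (l 16774976)) (b (l 16775560) (l 16775872)))) (b (b (a (b (l 533909135) (l 533855119)) (b (l 16776048) (b (l 16776240) (l 16776368)))) (a (b (l 533797775) (l 533737615)) (b (b (l 16776480) (l 16776592)) (b (a (l 533753999) (l 16776632)) (b (l 16776760) (l 16776808)))))) (l 533572911))), by decide +kernel⟩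

def k14_B05pp_123_s1 : ∃ t, chk3 f_B05pp_123_s1 t 1341 13 1 = true :=
  ⟨(a (a (b (b (b (l 16762696) (l 16768736)) (b (l 16777384) (b (l 16775304) (l 16775600)))) (b (b (b (l 16775888) (l 16776144)) (b (c (l 16776384) (l 16776352)) (b (l 16776520) (l 16776616)))) (b (l 533643055) (l 533503023)))) (a (b (b (b (l 16762616) (l 16768656)) (b (l 16777304) (b (l 16775224) (l 16775528)))) (b (b (b (l 16775808) (l 16776056)) (b (l 16778904) (b (l 16776440) (l 16776528)))) (b (b (l 533676591) (l 533609775)) (b (l 533539887) (l 533466415))))) (a (b (b (b (l 16762576) (l 16763368)) (b (l 16774640) (b (l 16775184) (l 16775488)))) (b (b (b (l 16775768) (l 16776016)) (b (l 16773624) (b (l 16776392) (l 16776488)))) (b (b (b (l 16776568) (l 16776640)) (b (l 16776712) (l 16776768))) (b (a (l 533539887) (b (l 16776808) (l 16776856))) (b (l 16776888) (b (l 16776912) (l 16776920))))))) (b (b (b (l 16762544) (l 16763344)) (b (l 16774616)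 (b (l 16775160) (l 16775456)))) (b (b (b (l 16775736) (l 16775992)) (b (l 16773592) (b (l 16776368) (l 16776456)))) (b (b (b (l 16776544) (l 16776616)) (b (l 16776680) (l 16776744))) (b (b (l 16776792) (b (l 16776824) (l 16776840))) (b (b (l 16776856) (l 16776872)) (b (l 16776880) (l 16776888)))))))))) (b (b (b (l 16762432) (l 16763232)) (b (l 16774512) (b (l 16775048) (l 16775352)))) (b (b (b (l 16775624) (l 16775872)) (b (l 16773480) (b (l 16776248) (l 16776336)))) (b (b (l 533729375) (l 533651551)) (b (l 533569631) (l 533483871)))))), by decide +kernel⟩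

def k15_B05pp_123_s1 : ∃ t, chk3 f_B05pp_123_s1 t 671 13 1 = true :=
  ⟨(b (b (b (l 16761920) (l 16762728)) (b (l 16774024) (b (l 16774568) (l 16774856)))) (b (b (b (l 16775120) (l 16775360)) (b (l 16772952) (l 16778376))) (l 533613919))), by decide +kernel⟩

def k16_B05pp_123_s1 : ∃ t, chk3 f_B05pp_123_s1 t 21 6 1 = true :=
  ⟨(b (b (a (b (a (l 16764728) (l 16760032)) (a (l 16766080) (l 16761032))) (b (l 16752952) (l 16753384))) (a (a (b (l 16777880) (b (l 16768072) (l 16768432))) (b (l 16761856) (l 16762256))) (b (l 16753472) (l 16754520)))) (a (b (b (a (b (l 16774064) (l 16769808)) (l 16763456)) (a (b (a (l 16772136) (l 16769152)) (a (l 16772800) (l 16769736))) (l 16786048))) (b (a (b (a (l 16773224) (l 16770016)) (b (l 16771824) (l 16777152))) (l 16786240)) (b (a (b (l 16777208) (l 16777224)) (l 16765000)) (l 533575263)))) (b (b (l 16755480) (l 16714608)) (b (l 16755888) (l 16754336))))), by decide +kernel⟩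

def k17_B05pp_123_s1 : ∃ t, chk3 f_B05pp_123_s1 t 11 6 1 = true :=
  ⟨(b (a (a (b (l 16785056) (l 16765624)) (b (l 16881136) (l 16734880))) (b (b (l 16722456) (l 16722296)) (l 16723472))) (b (a (a (l 16766608) (b (l 16736816) (l 16735496))) (l 16722288)) (a (b (l 16738056) (l 16650352)) (b (l 16632648) (l 16708624))))), by decide +kernel⟩

def k18_B05pp_123_s1 : ∃ t, chk3 f_B05pp_123_s1 t 3 6 1 = true :=
  ⟨(a (b (b (a (a (b (l 16707712) (l 16708512)) (l 16694880)) (l 16676488)) (a (a (l 16708744) (l 16695704)) (a (l 16680568) (l 6)))) (a (a (b (l 16705888) (l 16686560)) (b (l 16686824) (b (l 16669656) (l 1)))) (b (a (l 16752656) (l 1)) (l 1)))) (l 6)), by decide +kernel⟩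

def k19_B05pp_123_s1 : ∃ t, chk3 f_B05pp_123_s1 t 4 7 1 = true :=
  ⟨(b (l 3) (l 3)), by decide +kernel⟩

def k20_B05pp_123_s1 : ∃ t, chk3 f_B05pp_123_s1 t 20 28 4 = true :=
  ⟨(a (l 3) (a (l 3) (a (l 3) (a (b (l 3) (b (a (l 3) (a (l 3) (b (l 3) (l 533058687)))) (a (l 3) (a (l 532915839) (a (l 532909951) (l 532909183)))))) (a (a (b (l 533374255) (b (b (l 533154095) (a (l 533059199) (b (l 16776800) (l 16776688)))) (b (b (l 16776696) (l 16776552)) (b (l 16776392) (l 16776224))))) (a (a (b (b (l 533458223) (l 533290543)) (b (b (l 533155119) (b (l 16776600) (l 16776488))) (b (l 16776288) (l 16775960)))) (a (b (b (b (l 533498415) (l 533418287)) (b (l 533334319) (l 533246767))) (b (b (l 533155631) (l 16776448)) (b (l 16776184) (l 16775856)))) (a (b (b (b (b (l 16776936) (l 16776936)) (b (l 16776928) (l 16776912))) (b (b (l 16776880) (l 16776840)) (b (l 16776792) (l 16776728)))) (b (b (l 16776600) (l 16776400)) (b (l 16776136)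 (l 16775808)))) (b (b (b (b (l 16776904) (l 16776912)) (b (l 16776904) (l 16776880))) (b (b (l 16776848) (l 16776808)) (b (l 16776760) (l 16776696)))) (b (b (l 16776568) (l 16776360)) (b (l 16776096) (l 16775768))))))) (b (b (b (l 533504095) (l 533407583)) (b (l 533306975) (l 533201759))) (b (b (l 16776424) (l 16776208)) (b (l 16775936) (l 16775608)))))) (b (l 533360223) (b (b (l 16775752) (l 16775520)) (l 16777672)))))))), by decide +kernel⟩

def k21_B05pp_123_s1 : ∃ t, chk3 f_B05pp_123_s1 t 20 28 5 = true :=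
  ⟨(a (l 3) (a (l 3) (a (l 3) (a (b (l 3) (b (a (l 3) (a (l 3) (b (l 3) (l 532984191)))) (a (l 3) (a (l 532842111) (a (l 532835199) (l 532834175)))))) (a (a (b (l 533300015) (b (b (l 533079599) (a (l 532984191) (b (l 16776792) (l 16776680)))) (b (b (l 16776680) (l 16776536)) (b (l 16776376) (l 16776200))))) (a (a (b (b (l 533384239) (l 533216047)) (b (b (l 533080623) (b (l 16776592) (l 16776472))) (b (l 16776264) (l 16775936)))) (a (b (b (b (l 533424431) (l 533344047)) (b (l 533260079) (l 533172271))) (b (b (l 533081135) (l 16776432)) (b (l 16776160) (l 16775832)))) (a (b (b (b (b (l 16776928) (l 16776936)) (b (l 16776928) (l 16776904))) (b (b (l 16776872) (l 16776832)) (b (l 16776784) (l 16776720)))) (b (b (l 16776592) (l 16776384)) (b (l 16776112) (l 16775784)))) (b (b (b (b (l 16776896) (l 16776904)) (b (l 16776896) (l 16776872))) (b (b (l 16776848) (l 16776800)) (b (l 16776752) (l 16776680)))) (b (b (l 16776560)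 (l 16776344)) (b (l 16776080) (l 16775744))))))) (b (b (b (l 533429599) (l 533334879)) (b (l 533235807) (l 533132639))) (b (b (l 16776408) (l 16776192)) (b (l 16775912) (l 16775576)))))) (b (l 533288287) (b (b (l 16775728) (l 16772872)) (l 16777632)))))))), by decide +kernel⟩

def k22_B05pp_123_s1 : ∃ t, chk3 f_B05pp_123_s1 t 20 29 4 = true :=
  ⟨(a (l 3) (b (a (l 3) (a (a (l 3) (b (l 3) (a (l 3) (b (l 3) (l 531022351))))) (a (b (a (a (l 3) (l 532710527)) (a (l 532703871) (l 532698751))) (b (a (a (a (l 532533119) (l 532547199)) (l 532540799)) (a (l 532535423) (l 532529535))) (a (a (a (l 533555471) (l 532209535)) (l 533511807)) (a (l 532279167) (l 16777512))))) (a (a (b (b (l 16775928) (l 16775480)) (b (l 16774960) (l 16774264))) (a (a (b (b (l 16775576) (l 16775112)) (b (l 16774584) (l 16773872))) (a (b (b (l 16775464) (l 16775008)) (b (l 16774472) (l 16773760))) (a (b (b (l 16775416) (l 16774952)) (b (l 16774416)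 (l 16773696))) (b (b (l 16775376) (l 16774912)) (b (l 16774376) (l 16773656)))))) (b (b (l 16775208) (l 16774736)) (b (l 16774200) (l 16773464))))) (b (b (l 16774448) (l 16773960)) (b (l 16773392) (l 16772616))))))) (b (b (a (l 3) (a (a (l 3) (a (l 3) (l 530016015))) (a (a (a (a (l 531058303) (l 531338623)) (l 531548799)) (a (l 16774576) (l 16773920))) (a (l 16772928) (l 16771512))))) (a (l 3) (a (a (l 3) (a (l 527191679) (l 529027087))) (a (a (a (l 530230287) (l 1)) (l 1)) (l 1))))) (a (l 3) (l 1))))), by decide +kernel⟩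

def k23_B05pp_123_s1 : ∃ t, chk3 f_B05pp_123_s1 t 20 29 5 = true :=
  ⟨(a (l 3) (b (a (l 3) (a (a (l 3) (b (l 3) (a (l 3) (b (l 3) (l 531163919))))) (a (b (a (a (l 3) (l 532638079)) (a (l 532629887) (l 532623487))) (b (a (a (a (l 532464255) (l 532475007)) (l 532467839)) (a (l 532461183) (l 532454527))) (a (a (a (l 533514111) (l 532164991)) (l 532397439)) (a (l 532218495) (l 16777480))))) (a (a (b (b (l 16775904) (l 16775448)) (b (l 16774920) (l 16774224))) (a (a (b (b (l 16775544) (l 16775080)) (b (l 16774536) (l 16773832))) (a (b (b (l 16775432) (l 16774968)) (b (l 16774424) (l 16773712))) (a (b (b (l 16775384) (l 16774912)) (b (l 16774368) (l 16773648))) (b (b (l 16775344) (l 16774872)) (b (l 16774328) (l 16773608)))))) (b (b (l 16775176) (l 16774696)) (b (l 16774144) (l 16773416))))) (b (b (l 16774408) (l 16773912)) (b (l 16773336) (l 16772560))))))) (b (b (a (l 3) (a (a (l 3) (a (l 3) (l 530280463))) (a (a (a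 (a (l 531151743) (l 531387775)) (l 531565183)) (a (l 16774576) (l 16773912))) (a (l 16772904) (l 16771488))))) (a (l 3) (a (a (l 3) (a (l 527917695) (l 530284159))) (a (a (a (l 531502207) (l 1)) (l 1)) (l 1))))) (a (l 3) (l 1))))), by decide +kernel⟩

def k24_B05pp_123_s1 : ∃ t, chk3 f_B05pp_123_s1 t 20 28 6 = true :=
  ⟨(a (l 3) (a (l 3) (a (l 3) (a (b (l 3) (b (a (l 3) (a (l 3) (a (l 3) (l 533229695)))) (a (l 3) (a (l 532773503) (l 532765055))))) (a (a (b (l 533230639) (b (b (l 533009967) (a (l 532914559) (b (l 16776784) (l 16776664)))) (b (b (l 16776672) (l 16776528)) (b (l 16776368) (l 16776184))))) (a (a (b (b (l 533315119) (l 533146671)) (b (b (l 533010991) (b (l 16776584) (l 16776464))) (b (l 16776248) (l 16775920)))) (a (b (b (b (l 533355311) (l 533274927)) (b (l 533190703) (l 533102895))) (b (b (l 533011503) (l 16776416)) (b (l 16776144) (l 16775808)))) (a (b (b (b (b (l 16776920) (l 16776928)) (b (l 16776920)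 (l 16776896))) (b (b (l 16776872) (l 16776824)) (b (l 16776776) (l 16776704)))) (b (b (l 16776576) (l 16776368)) (b (l 16776096) (l 16775752)))) (b (b (b (b (l 16776896) (l 16776896)) (b (l 16776888) (l 16776864))) (b (b (l 16776840) (l 16776792)) (b (l 16776744) (l 16776672)))) (b (b (l 16776544) (l 16776328)) (b (l 16776056) (l 16775720))))))) (b (b (b (l 533359967) (l 533266783)) (b (l 533169759) (l 533068639))) (b (b (l 16776392) (b (l 16776232) (l 16776112))) (b (l 16775896) (l 16775552)))))) (b (l 533221215) (b (b (l 16775704) (l 16772840)) (l 16777608)))))))), by decide +kernel⟩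

def k25_B05pp_123_s1 : ∃ t, chk3 f_B05pp_123_s1 t 20 28 7 = true :=
  ⟨(a (l 3) (a (l 3) (a (l 3) (a (b (l 3) (b (a (l 3) (a (l 3) (a (l 3) (l 532896383)))) (a (l 3) (a (l 532709759) (l 532700031))))) (a (a (b (l 533166127) (b (b (l 532945199) (a (l 532849535) (b (l 16776776) (l 16776656)))) (b (b (l 16776664) (l 16776520)) (b (l 16776352) (l 16776168))))) (a (a (b (b (l 533250607) (l 533082159)) (b (b (l 532946223) (b (l 16776568) (l 16776448))) (b (l 16776232) (l 16775896)))) (a (b (b (b (l 533291311) (l 533210415)) (b (l 533126191) (l 533038127))) (b (b (l 532946735) (l 16776400)) (b (l 16776128) (l 16775784)))) (a (b (b (b (b (l 16776920) (l 16776920)) (b (l 16776912) (l 16776896))) (b (b (l 16776864) (l 16776824)) (b (l 16776768) (l 16776696)))) (b (b (l 16776568) (l 16776352)) (b (l 16776072) (l 16775736)))) (b (b (b (b (l 16776888) (l 16776888)) (b (l 16776880) (l 16776864))) (b (b (l 16776832) (l 16776784))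 (b (l 16776736) (l 16776664)))) (b (b (l 16776536) (l 16776320)) (b (l 16776040) (l 16775696))))))) (b (b (b (l 533295199) (l 533203807)) (b (l 533108575) (l 533009247))) (b (b (l 16776376) (l 16773536)) (b (l 16775872) (l 16775528)))))) (b (l 533159007) (b (b (l 16775680) (l 16772816)) (l 16777576)))))))), by decide +kernel⟩

def k26_B05pp_123_s1 : ∃ t, chk3 f_B05pp_123_s1 t 20 29 6 = true :=
  ⟨(a (l 3) (a (l 3) (b (a (a (l 3) (b (l 3) (a (l 3) (b (l 3) (l 531299855))))) (a (b (a (a (l 3) (l 532570239)) (a (l 532560767) (l 532553343))) (b (a (a (l 534014991) (l 532399999)) (a (l 532391807) (l 532384127))) (a (a (a (l 532669567) (l 532125311)) (l 532093055)) (a (l 532163711) (l 16774824))))) (a (a (b (b (l 16775880) (l 16775416)) (b (l 16774880) (l 16774184))) (a (a (b (b (l 16775512) (l 16775040)) (b (l 16774496) (l 16773784))) (a (b (b (l 16775408) (l 16774928)) (b (l 16774376) (l 16773664))) (a (b (b (l 16775352)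 (l 16774872)) (b (l 16774320) (l 16773608))) (b (b (l 16775312) (l 16774832)) (b (l 16774280) (l 16773560)))))) (b (b (l 16775144) (l 16774656)) (b (l 16774096) (l 16773368))))) (b (b (l 16774368) (l 16773864)) (b (l 16773280) (l 16772512)))))) (b (b (a (a (l 3) (a (l 3) (l 531132799))) (a (a (a (l 532096527) (l 531587967)) (a (l 16774576) (l 16773904))) (l 16766936))) (a (a (l 3) (a (l 528601215) (l 529853055))) (a (a (a (l 531421055) (l 1)) (l 1)) (l 1)))) (l 1))))), by decide +kernel⟩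

def k27_B05pp_123_s1 : ∃ t, chk3 f_B05pp_123_s1 t 20 29 7 = true :=
  ⟨(a (l 3) (a (l 3) (b (a (a (l 3) (b (l 3) (a (l 3) (b (l 3) (l 532236047))))) (a (b (a (a (l 3) (l 532507263)) (a (l 532496511) (l 532488063))) (b (a (a (a (l 532340863) (l 532345215)) (l 532336767)) (a (l 532327295) (l 532318847))) (a (a (a (l 532098175) (l 532090239)) (l 532061823)) (a (l 532115071) (l 16774800))))) (a (a (b (b (l 16775864) (l 16775392)) (b (l 16774840) (l 16774152))) (a (a (b (b (l 16775488) (l 16775008)) (b (l 16774456) (l 16773744))) (a (b (b (l 16775376) (l 16774896)) (b (l 16774336) (l 16773624))) (a (b (b (l 16775320) (l 16774840)) (b (l 16774280) (l 16773568))) (b (b (l 16775288) (l 16774800)) (b (l 16774240) (l 16773520)))))) (b (b (l 16775112) (l 16774624)) (b (l 16774056) (l 16773328))))) (b (b (l 16774336) (l 16773824)) (b (l 16773232) (l 16772472)))))) (b (a (a (l 3) (a (l 529490191) (a (l 530235519) (l 531759887))))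 (b (a (a (a (l 531648015) (l 531616639)) (a (l 16774584) (l 16773896))) (l 16766928)) (a (a (a (l 531072127) (l 1)) (l 1)) (l 1)))) (l 1))))), by decide +kernel⟩

def k28_B05pp_123_s1 : ∃ t, chk3 f_B05pp_123_s1 t 21 14 1 = true :=
  ⟨(b (b (l 533333343) (a (a (a (b (b (l 16778232) (l 16777912)) (a (l 16778480) (l 16770896))) (b (l 16768432) (l 16767400))) (a (l 16784376) (l 16737960))) (l 16789960))) (b (b (a (a (b (l 16779376) (l 16778728)) (l 16758664)) (l 16743304)) (a (a (b (l 16777880) (l 16776808)) (l 16755944)) (l 16738944))) (a (a (b (b (l 16775408) (l 1)) (l 1)) (l 1)) (l 1)))), by decide +kernel⟩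

def k29_B05pp_123_s1 : ∃ t, chk3 f_B05pp_123_s1 t 10 15 1 = true :=
  ⟨(a (a (b (l 3) (l 1)) (l 1)) (l 1)), by decide +kernel⟩

def k30_B05pp_123_s1 : ∃ t, chk3 f_B05pp_123_s1 t 11 7 1 = true :=
  ⟨(b (b (a (b (l 16729160) (l 16761800)) (b (l 16612816) (l 1))) (l 1)) (l 1)), by decide +kernel⟩

def k31_B05pp_123_s1 : ∃ t, chk3 f_B05pp_123_s1 t 3 7 1 = true :=
  ⟨(l 1), by decide +kernel⟩

theorem t32_B05pp_123_s1 : ∃ t, chk3 f_B05pp_123_s1 t 20 29 3 = true := ex3_c k26_B05pp_123_s1 k27_B05pp_123_s1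

theorem t33_B05pp_123_s1 : ∃ t, chk3 f_B05pp_123_s1 t 20 28 3 = true := ex3_c k24_B05pp_123_s1 k25_B05pp_123_s1

theorem t34_B05pp_123_s1 : ∃ t, chk3 f_B05pp_123_s1 t 20 14 3 = true := ex3_b t33_B05pp_123_s1 t32_B05pp_123_s1

theorem t35_B05pp_123_s1 : ∃ t, chk3 f_B05pp_123_s1 t 20 29 2 = true := ex3_c k22_B05pp_123_s1 k23_B05pp_123_s1

theorem t36_B05pp_123_s1 : ∃ t, chk3 f_B05pp_123_s1 t 20 28 2 = true := ex3_c k20_B05pp_123_s1 k21_B05pp_123_s1

theorem t37_B05pp_123_s1 : ∃ t, chk3 f_B05pp_123_s1 t 20 14 2 = true := ex3_b t36_B05pp_123_s1 t35_B05pp_123_s1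

theorem t38_B05pp_123_s1 : ∃ t, chk3 f_B05pp_123_s1 t 20 14 1 = true := ex3_c t37_B05pp_123_s1 t34_B05pp_123_s1

theorem t39_B05pp_123_s1 : ∃ t, chk3 f_B05pp_123_s1 t 10 14 1 = true := ex3_a t38_B05pp_123_s1 k28_B05pp_123_s1

theorem t40_B05pp_123_s1 : ∃ t, chk3 f_B05pp_123_s1 t 10 7 1 = true := ex3_b t39_B05pp_123_s1 k29_B05pp_123_s1

theorem t41_B05pp_123_s1 : ∃ t, chk3 f_B05pp_123_s1 t 5 7 1 = true := ex3_a t40_B05pp_123_s1 k30_B05pp_123_s1

theorem t42_B05pp_123_s1 : ∃ t, chk3 f_B05pp_123_s1 t 2 7 1 = true := ex3_a k19_B05pp_123_s1 t41_B05pp_123_s1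

theorem t43_B05pp_123_s1 : ∃ t, chk3 f_B05pp_123_s1 t 1 7 1 = true := ex3_a t42_B05pp_123_s1 k31_B05pp_123_s1

theorem t44_B05pp_123_s1 : ∃ t, chk3 f_B05pp_123_s1 t 670 13 1 = true := ex3_a k13_B05pp_123_s1 k14_B05pp_123_s1

theorem t45_B05pp_123_s1 : ∃ t, chk3 f_B05pp_123_s1 t 335 13 1 = true := ex3_a t44_B05pp_123_s1 k15_B05pp_123_s1

theorem t46_B05pp_123_s1 : ∃ t, chk3 f_B05pp_123_s1 t 167 13 1 = true := ex3_a k12_B05pp_123_s1 t45_B05pp_123_s1

theorem t47_B05pp_123_s1 : ∃ t, chk3 f_B05pp_123_s1 t 83 13 1 = true := ex3_a k11_B05pp_123_s1 t46_B05pp_123_s1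

theorem t48_B05pp_123_s1 : ∃ t, chk3 f_B05pp_123_s1 t 83 12 1 = true := ex3_a k9_B05pp_123_s1 k10_B05pp_123_s1

theorem t49_B05pp_123_s1 : ∃ t, chk3 f_B05pp_123_s1 t 83 6 1 = true := ex3_b t48_B05pp_123_s1 t47_B05pp_123_s1

theorem t50_B05pp_123_s1 : ∃ t, chk3 f_B05pp_123_s1 t 41 6 1 = true := ex3_a k8_B05pp_123_s1 t49_B05pp_123_s1

theorem t51_B05pp_123_s1 : ∃ t, chk3 f_B05pp_123_s1 t 20 6 1 = true := ex3_a k7_B05pp_123_s1 t50_B05pp_123_s1

theorem t52_B05pp_123_s1 : ∃ t, chk3 f_B05pp_123_s1 t 10 6 1 = true := ex3_a t51_B05pp_123_s1 k16_B05pp_123_s1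

theorem t53_B05pp_123_s1 : ∃ t, chk3 f_B05pp_123_s1 t 5 6 1 = true := ex3_a t52_B05pp_123_s1 k17_B05pp_123_s1

theorem t54_B05pp_123_s1 : ∃ t, chk3 f_B05pp_123_s1 t 2 6 1 = true := ex3_a k6_B05pp_123_s1 t53_B05pp_123_s1

theorem t55_B05pp_123_s1 : ∃ t, chk3 f_B05pp_123_s1 t 1 6 1 = true := ex3_a t54_B05pp_123_s1 k18_B05pp_123_s1

theorem t56_B05pp_123_s1 : ∃ t, chk3 f_B05pp_123_s1 t 1 3 1 = true := ex3_b t55_B05pp_123_s1 t43_B05pp_123_s1

theorem t57_B05pp_123_s1 : ∃ t, chk3 f_B05pp_123_s1 t 5 2 1 = true := ex3_a k3_B05pp_123_s1 k4_B05pp_123_s1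

theorem t58_B05pp_123_s1 : ∃ t, chk3 f_B05pp_123_s1 t 4 4 1 = true := ex3_a k0_B05pp_123_s1 k1_B05pp_123_s1

theorem t59_B05pp_123_s1 : ∃ t, chk3 f_B05pp_123_s1 t 4 2 1 = true := ex3_b t58_B05pp_123_s1 k2_B05pp_123_s1

theorem t60_B05pp_123_s1 : ∃ t, chk3 f_B05pp_123_s1 t 2 2 1 = true := ex3_a t59_B05pp_123_s1 t57_B05pp_123_s1

theorem t61_B05pp_123_s1 : ∃ t, chk3 f_B05pp_123_s1 t 1 2 1 = true := ex3_a t60_B05pp_123_s1 k5_B05pp_123_s1

theorem t62_B05pp_123_s1 : ∃ t, chk3 f_B05pp_123_s1 t 1 1 1 = true := ex3_b t61_B05pp_123_s1 t56_B05pp_123_s1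

theorem c_B05pp_123_s1 : CertF 536870912 536870912 0 1230186008 740881858 40050571 false true true .npn 1 2 3
    ndB0q1 ndB5q3 pcB2 cut_B05pp_123_s1 xt_B05pp_123_s1 :=
  certF2 (fam := false) (s1 := true) (s2 := true) (a := 1) (b := 2) (c := 3) (cn := .npn) (n1 := ndB0q1) (n2 := ndB5q3) (pc := pcB2) (cut := cut_B05pp_123_s1) (xt := xt_B05pp_123_s1) (P1 := 536870912) (W1 := 536870912) (P2 := 0) (W2 := 1230186008) (P3 := 740881858) (W3 := 40050571)
    rfl (fun _ => rfl) t62_B05pp_123_s1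

theorem s_B05pp_123_s1 {κ x : ℝ} (hκ : κ * h0 = ken x) (hx : ((740881858 : ℕ) : ℝ) / S ≤ x)
    (hx' : x ≤ (((740881858 : ℕ) : ℝ) + (40050571 : ℕ)) / S)
    (H : CutB (VFD κ) PP tK tL pcB (Cut.of [[⟨0, 1, 0, 67108864⟩, ⟨1, 1, 0, 67108864⟩, ⟨2, 2, 0, 16777216⟩]]) 1 2 3 0 5 (sgb true) (sgb true) x) :
    AltB (VFD κ) PP tK tL pcB [⟨3, 0, 0, 1449551462⟩] 1 2 3 0 5 (sgb true) (sgb true) x :=
  strip_altBD (m := 1449551462) true rfl hκ (SH.κ0 hκ (SH.hx1 hx).le (SH.hx2 hx').le) (SH.hx1 hx).le (SH.hx2 hx') (covB01).cov (covB53).cov hx hx' c_B05pp_123_s1 H ((okx hx hx').extB (T := tt) (sideB hx hx') hκ rfl rfl (.O 1 true) (.N 3 true) rfl)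

noncomputable def cut_B05pp_133_s1 : Cut := Cut.of [[⟨4, 0, 0, 1449551462⟩]]

noncomputable def f_B05pp_133_s1 : ℕ → ℕ → ℕ → ℕ → Bool := onCell 1610612736 536870912 0 1230186008 740881858 40050571
    (rowF 2 false true true .dn 1 3 3 (qsf 536870912 536870912 0 1230186008 3) ndB0q1 ndB5q3 pcB3 cut_B05pp_133_s1 Ext.none)

def k0_B05pp_133_s1 : ∃ t, chk3 f_B05pp_133_s1 t 1 1 1 = true :=
  ⟨(b (l 6) (l 1)), by decide +kernel⟩

theorem c_B05pp_133_s1 : CertF 536870912 536870912 0 1230186008 740881858 40050571 false true true .dn 1 3 3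
    ndB0q1 ndB5q3 pcB3 cut_B05pp_133_s1 Ext.none :=
  certF2 (fam := false) (s1 := true) (s2 := true) (a := 1) (b := 3) (c := 3) (cn := .dn) (n1 := ndB0q1) (n2 := ndB5q3) (pc := pcB3) (cut := cut_B05pp_133_s1) (xt := Ext.none) (P1 := 536870912) (W1 := 536870912) (P2 := 0) (W2 := 1230186008) (P3 := 740881858) (W3 := 40050571)
    rfl (fun _ => rfl) k0_B05pp_133_s1

theorem s_B05pp_133_s1 {κ x : ℝ} (hκ : κ * h0 = ken x) (hx : ((740881858 : ℕ) : ℝ) / S ≤ x)
    (hx' : x ≤ (((740881858 : ℕ) : ℝ) + (40050571 : ℕ)) / S) :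
    AltB (VFD κ) PP tK tL pcB [⟨3, 0, 0, 1449551462⟩] 1 3 3 0 5 (sgb true) (sgb true) x :=
  strip_altBD (m := 1449551462) true rfl hκ (SH.κ0 hκ (SH.hx1 hx).le (SH.hx2 hx').le) (SH.hx1 hx).le (SH.hx2 hx') (covB01).cov (covB53).cov hx hx' c_B05pp_133_s1 cutB_nil (noExt_B)

noncomputable def cut_B05pp_202_s1 : Cut := Cut.of [[⟨4, 0, 0, 1449551462⟩]]

noncomputable def f_B05pp_202_s1 : ℕ → ℕ → ℕ → ℕ → Bool := onCell 0 536870912 1073741824 536870912 740881858 40050571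
    (rowF 0 false true true .pp 2 0 2 (qsf 0 536870912 1073741824 536870912 0) ndB0q2 ndB5q2 pcB0 cut_B05pp_202_s1 Ext.none)

def k0_B05pp_202_s1 : ∃ t, chk3 f_B05pp_202_s1 t 1 1 1 = true :=
  ⟨(l 5), by decide +kernel⟩

theorem c_B05pp_202_s1 : CertF 0 536870912 1073741824 536870912 740881858 40050571 false true true .pp 2 0 2
    ndB0q2 ndB5q2 pcB0 cut_B05pp_202_s1 Ext.none :=
  certF0 (fam := false) (s1 := true) (s2 := true) (a := 2) (b := 0) (c := 2) (cn := .pp) (n1 := ndB0q2) (n2 := ndB5q2) (pc := pcB0) (cut := cut_B05pp_202_s1) (xt := Ext.none) (P1 := 0) (W1 := 536870912) (P2 := 1073741824) (W2 := 536870912) (P3 := 740881858) (W3 := 40050571)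
    rfl k0_B05pp_202_s1

theorem s_B05pp_202_s1 {κ x : ℝ} (hκ : κ * h0 = ken x) (hx : ((740881858 : ℕ) : ℝ) / S ≤ x)
    (hx' : x ≤ (((740881858 : ℕ) : ℝ) + (40050571 : ℕ)) / S) :
    AltB (VFD κ) PP tK tL pcB [⟨3, 0, 0, 1449551462⟩] 2 0 2 0 5 (sgb true) (sgb true) x :=
  strip_altBD (m := 1449551462) true rfl hκ (SH.κ0 hκ (SH.hx1 hx).le (SH.hx2 hx').le) (SH.hx1 hx).le (SH.hx2 hx') (covB02).cov (covB52).cov hx hx' c_B05pp_202_s1 cutB_nil (noExt_B)

noncomputable def cut_B05pp_203_s1 : Cut := Cut.of [[⟨4, 0, 0, 1449551462⟩]]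

noncomputable def f_B05pp_203_s1 : ℕ → ℕ → ℕ → ℕ → Bool := onCell 0 536870912 0 1230186008 740881858 40050571
    (rowF 0 false true true .up 2 0 3 (qsf 0 536870912 0 1230186008 0) ndB0q2 ndB5q3 pcB0 cut_B05pp_203_s1 Ext.none)

def k0_B05pp_203_s1 : ∃ t, chk3 f_B05pp_203_s1 t 1 1 1 = true :=
  ⟨(b (l 2) (b (l 2) (a (l 5) (l 3)))), by decide +kernel⟩

theorem c_B05pp_203_s1 : CertF 0 536870912 0 1230186008 740881858 40050571 false true true .up 2 0 3
    ndB0q2 ndB5q3 pcB0 cut_B05pp_203_s1 Ext.none :=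
  certF0 (fam := false) (s1 := true) (s2 := true) (a := 2) (b := 0) (c := 3) (cn := .up) (n1 := ndB0q2) (n2 := ndB5q3) (pc := pcB0) (cut := cut_B05pp_203_s1) (xt := Ext.none) (P1 := 0) (W1 := 536870912) (P2 := 0) (W2 := 1230186008) (P3 := 740881858) (W3 := 40050571)
    rfl k0_B05pp_203_s1

theorem s_B05pp_203_s1 {κ x : ℝ} (hκ : κ * h0 = ken x) (hx : ((740881858 : ℕ) : ℝ) / S ≤ x)
    (hx' : x ≤ (((740881858 : ℕ) : ℝ) + (40050571 : ℕ)) / S) :
    AltB (VFD κ) PP tK tL pcB [⟨3, 0, 0, 1449551462⟩] 2 0 3 0 5 (sgb true) (sgb true) x :=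
  strip_altBD (m := 1449551462) true rfl hκ (SH.κ0 hκ (SH.hx1 hx).le (SH.hx2 hx').le) (SH.hx1 hx).le (SH.hx2 hx') (covB02).cov (covB53).cov hx hx' c_B05pp_203_s1 cutB_nil (noExt_B)

noncomputable def cut_B05pp_213_s1 : Cut := Cut.of [[⟨4, 0, 0, 1449551462⟩], [⟨0, 1, 0, 67108864⟩, ⟨1, 1, 0, 67108864⟩, ⟨2, 2, 0, 16777216⟩]]

noncomputable def f_B05pp_213_s1 : ℕ → ℕ → ℕ → ℕ → Bool := onCell 0 536870912 0 1230186008 740881858 40050571
    (rowF 0 false true true .pnn 2 1 3 (qsf 0 536870912 0 1230186008 1) ndB0q2 ndB5q3 pcB1 cut_B05pp_213_s1 Ext.none)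

def k0_B05pp_213_s1 : ∃ t, chk3 f_B05pp_213_s1 t 1 1 1 = true :=
  ⟨(a (b (l 3) (l 5)) (b (b (a (l 3) (b (a (l 3) (l 14)) (l 3))) (l 3)) (b (l 3) (l 3)))), by decide +kernel⟩

theorem c_B05pp_213_s1 : CertF 0 536870912 0 1230186008 740881858 40050571 false true true .pnn 2 1 3
    ndB0q2 ndB5q3 pcB1 cut_B05pp_213_s1 Ext.none :=
  certF0 (fam := false) (s1 := true) (s2 := true) (a := 2) (b := 1) (c := 3) (cn := .pnn) (n1 := ndB0q2) (n2 := ndB5q3) (pc := pcB1) (cut := cut_B05pp_213_s1) (xt := Ext.none) (P1 := 0) (W1 := 536870912) (P2 := 0) (W2 := 1230186008) (P3 := 740881858) (W3 := 40050571)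
    rfl k0_B05pp_213_s1

theorem s_B05pp_213_s1 {κ x : ℝ} (hκ : κ * h0 = ken x) (hx : ((740881858 : ℕ) : ℝ) / S ≤ x)
    (hx' : x ≤ (((740881858 : ℕ) : ℝ) + (40050571 : ℕ)) / S)
    (H : CutB (VFD κ) PP tK tL pcB (Cut.of [[⟨0, 1, 0, 67108864⟩, ⟨1, 1, 0, 67108864⟩, ⟨2, 2, 0, 16777216⟩]]) 2 1 3 0 5 (sgb true) (sgb true) x) :
    AltB (VFD κ) PP tK tL pcB [⟨3, 0, 0, 1449551462⟩] 2 1 3 0 5 (sgb true) (sgb true) x :=
  strip_altBD (m := 1449551462) true rfl hκ (SH.κ0 hκ (SH.hx1 hx).le (SH.hx2 hx').le) (SH.hx1 hx).le (SH.hx2 hx') (covB02).cov (covB53).cov hx hx' c_B05pp_213_s1 H (noExt_B)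

noncomputable def cut_B05pm_001_s1 : Cut := Cut.of [[⟨4, 0, 0, 1449551462⟩]]

noncomputable def f_B05pm_001_s1 : ℕ → ℕ → ℕ → ℕ → Bool := onCell 0 536870912 536870912 536870912 740881858 40050571
    (rowF 0 false true false .up 0 0 1 (qsf 0 536870912 536870912 536870912 0) ndB0q0 ndB5q1 pcB0 cut_B05pm_001_s1 Ext.none)

def k0_B05pm_001_s1 : ∃ t, chk3 f_B05pm_001_s1 t 1 1 1 = true :=
  ⟨(l 4), by decide +kernel⟩

theorem c_B05pm_001_s1 : CertF 0 536870912 536870912 536870912 740881858 40050571 false true false .up 0 0 1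
    ndB0q0 ndB5q1 pcB0 cut_B05pm_001_s1 Ext.none :=
  certF0 (fam := false) (s1 := true) (s2 := false) (a := 0) (b := 0) (c := 1) (cn := .up) (n1 := ndB0q0) (n2 := ndB5q1) (pc := pcB0) (cut := cut_B05pm_001_s1) (xt := Ext.none) (P1 := 0) (W1 := 536870912) (P2 := 536870912) (W2 := 536870912) (P3 := 740881858) (W3 := 40050571)
    rfl k0_B05pm_001_s1

theorem s_B05pm_001_s1 {κ x : ℝ} (hκ : κ * h0 = ken x) (hx : ((740881858 : ℕ) : ℝ) / S ≤ x)
    (hx' : x ≤ (((740881858 : ℕ) : ℝ) + (40050571 : ℕ)) / S) :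
    AltB (VFD κ) PP tK tL pcB [⟨3, 0, 0, 1449551462⟩] 0 0 1 0 5 (sgb true) (sgb false) x :=
  strip_altBD (m := 1449551462) true rfl hκ (SH.κ0 hκ (SH.hx1 hx).le (SH.hx2 hx').le) (SH.hx1 hx).le (SH.hx2 hx') (covB00).cov (covB51).cov hx hx' c_B05pm_001_s1 cutB_nil (noExt_B)

noncomputable def cut_B05pm_011_s1 : Cut := Cut.of [[⟨4, 0, 0, 1449551462⟩]]

noncomputable def f_B05pm_011_s1 : ℕ → ℕ → ℕ → ℕ → Bool := onCell 0 536870912 536870912 536870912 740881858 40050571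
    (rowF 0 false true false .pnn 0 1 1 (qsf 0 536870912 536870912 536870912 1) ndB0q0 ndB5q1 pcB1 cut_B05pm_011_s1 Ext.none)

def k0_B05pm_011_s1 : ∃ t, chk3 f_B05pm_011_s1 t 1 1 1 = true :=
  ⟨(l 4), by decide +kernel⟩

theorem c_B05pm_011_s1 : CertF 0 536870912 536870912 536870912 740881858 40050571 false true false .pnn 0 1 1
    ndB0q0 ndB5q1 pcB1 cut_B05pm_011_s1 Ext.none :=
  certF0 (fam := false) (s1 := true) (s2 := false) (a := 0) (b := 1) (c := 1) (cn := .pnn) (n1 := ndB0q0) (n2 := ndB5q1) (pc := pcB1) (cut := cut_B05pm_011_s1) (xt := Ext.none) (P1 := 0) (W1 := 536870912) (P2 := 536870912) (W2 := 536870912) (P3 := 740881858) (W3 := 40050571)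
    rfl k0_B05pm_011_s1

theorem s_B05pm_011_s1 {κ x : ℝ} (hκ : κ * h0 = ken x) (hx : ((740881858 : ℕ) : ℝ) / S ≤ x)
    (hx' : x ≤ (((740881858 : ℕ) : ℝ) + (40050571 : ℕ)) / S) :
    AltB (VFD κ) PP tK tL pcB [⟨3, 0, 0, 1449551462⟩] 0 1 1 0 5 (sgb true) (sgb false) x :=
  strip_altBD (m := 1449551462) true rfl hκ (SH.κ0 hκ (SH.hx1 hx).le (SH.hx2 hx').le) (SH.hx1 hx).le (SH.hx2 hx') (covB00).cov (covB51).cov hx hx' c_B05pm_011_s1 cutB_nil (noExt_B)

noncomputable def cut_B05pm_012_s1 : Cut := Cut.of [[⟨4, 0, 0, 1449551462⟩]]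

noncomputable def f_B05pm_012_s1 : ℕ → ℕ → ℕ → ℕ → Bool := onCell 0 536870912 1073741824 536870912 740881858 40050571
    (rowF 0 false true false .pnp 0 1 2 (qsf 0 536870912 1073741824 536870912 1) ndB0q0 ndB5q2 pcB1 cut_B05pm_012_s1 Ext.none)

def k0_B05pm_012_s1 : ∃ t, chk3 f_B05pm_012_s1 t 1 1 1 = true :=
  ⟨(l 4), by decide +kernel⟩

theorem c_B05pm_012_s1 : CertF 0 536870912 1073741824 536870912 740881858 40050571 false true false .pnp 0 1 2
    ndB0q0 ndB5q2 pcB1 cut_B05pm_012_s1 Ext.none :=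
  certF0 (fam := false) (s1 := true) (s2 := false) (a := 0) (b := 1) (c := 2) (cn := .pnp) (n1 := ndB0q0) (n2 := ndB5q2) (pc := pcB1) (cut := cut_B05pm_012_s1) (xt := Ext.none) (P1 := 0) (W1 := 536870912) (P2 := 1073741824) (W2 := 536870912) (P3 := 740881858) (W3 := 40050571)
    rfl k0_B05pm_012_s1

theorem s_B05pm_012_s1 {κ x : ℝ} (hκ : κ * h0 = ken x) (hx : ((740881858 : ℕ) : ℝ) / S ≤ x)
    (hx' : x ≤ (((740881858 : ℕ) : ℝ) + (40050571 : ℕ)) / S) :
    AltB (VFD κ) PP tK tL pcB [⟨3, 0, 0, 1449551462⟩] 0 1 2 0 5 (sgb true) (sgb false) x :=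
  strip_altBD (m := 1449551462) true rfl hκ (SH.κ0 hκ (SH.hx1 hx).le (SH.hx2 hx').le) (SH.hx1 hx).le (SH.hx2 hx') (covB00).cov (covB52).cov hx hx' c_B05pm_012_s1 cutB_nil (noExt_B)

noncomputable def cut_B05pm_022_s1 : Cut := Cut.of [[⟨4, 0, 0, 1449551462⟩]]

noncomputable def f_B05pm_022_s1 : ℕ → ℕ → ℕ → ℕ → Bool := onCell 0 536870912 1073741824 536870912 740881858 40050571
    (rowF 0 false true false .pp 0 2 2 (qsf 0 536870912 1073741824 536870912 2) ndB0q0 ndB5q2 pcB2 cut_B05pm_022_s1 Ext.none)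

def k0_B05pm_022_s1 : ∃ t, chk3 f_B05pm_022_s1 t 1 1 1 = true :=
  ⟨(l 4), by decide +kernel⟩

theorem c_B05pm_022_s1 : CertF 0 536870912 1073741824 536870912 740881858 40050571 false true false .pp 0 2 2
    ndB0q0 ndB5q2 pcB2 cut_B05pm_022_s1 Ext.none :=
  certF0 (fam := false) (s1 := true) (s2 := false) (a := 0) (b := 2) (c := 2) (cn := .pp) (n1 := ndB0q0) (n2 := ndB5q2) (pc := pcB2) (cut := cut_B05pm_022_s1) (xt := Ext.none) (P1 := 0) (W1 := 536870912) (P2 := 1073741824) (W2 := 536870912) (P3 := 740881858) (W3 := 40050571)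
    rfl k0_B05pm_022_s1

theorem s_B05pm_022_s1 {κ x : ℝ} (hκ : κ * h0 = ken x) (hx : ((740881858 : ℕ) : ℝ) / S ≤ x)
    (hx' : x ≤ (((740881858 : ℕ) : ℝ) + (40050571 : ℕ)) / S) :
    AltB (VFD κ) PP tK tL pcB [⟨3, 0, 0, 1449551462⟩] 0 2 2 0 5 (sgb true) (sgb false) x :=
  strip_altBD (m := 1449551462) true rfl hκ (SH.κ0 hκ (SH.hx1 hx).le (SH.hx2 hx').le) (SH.hx1 hx).le (SH.hx2 hx') (covB00).cov (covB52).cov hx hx' c_B05pm_022_s1 cutB_nil (noExt_B)

noncomputable def cut_B05pm_023_s1 : Cut := Cut.of [[⟨4, 0, 0, 1449551462⟩]]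

noncomputable def f_B05pm_023_s1 : ℕ → ℕ → ℕ → ℕ → Bool := onCell 0 536870912 0 1230186008 740881858 40050571
    (rowF 0 false true false .up 0 2 3 (qsf 0 536870912 0 1230186008 2) ndB0q0 ndB5q3 pcB2 cut_B05pm_023_s1 Ext.none)

def k0_B05pm_023_s1 : ∃ t, chk3 f_B05pm_023_s1 t 1 1 1 = true :=
  ⟨(l 6), by decide +kernel⟩

theorem c_B05pm_023_s1 : CertF 0 536870912 0 1230186008 740881858 40050571 false true false .up 0 2 3
    ndB0q0 ndB5q3 pcB2 cut_B05pm_023_s1 Ext.none :=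
  certF0 (fam := false) (s1 := true) (s2 := false) (a := 0) (b := 2) (c := 3) (cn := .up) (n1 := ndB0q0) (n2 := ndB5q3) (pc := pcB2) (cut := cut_B05pm_023_s1) (xt := Ext.none) (P1 := 0) (W1 := 536870912) (P2 := 0) (W2 := 1230186008) (P3 := 740881858) (W3 := 40050571)
    rfl k0_B05pm_023_s1

theorem s_B05pm_023_s1 {κ x : ℝ} (hκ : κ * h0 = ken x) (hx : ((740881858 : ℕ) : ℝ) / S ≤ x)
    (hx' : x ≤ (((740881858 : ℕ) : ℝ) + (40050571 : ℕ)) / S) :
    AltB (VFD κ) PP tK tL pcB [⟨3, 0, 0, 1449551462⟩] 0 2 3 0 5 (sgb true) (sgb false) x :=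
  strip_altBD (m := 1449551462) true rfl hκ (SH.κ0 hκ (SH.hx1 hx).le (SH.hx2 hx').le) (SH.hx1 hx).le (SH.hx2 hx') (covB00).cov (covB53).cov hx hx' c_B05pm_023_s1 cutB_nil (noExt_B)

noncomputable def cut_B05pm_033_s1 : Cut := Cut.of [[⟨4, 0, 0, 1449551462⟩]]

noncomputable def f_B05pm_033_s1 : ℕ → ℕ → ℕ → ℕ → Bool := onCell 0 536870912 0 1230186008 740881858 40050571
    (rowF 0 false true false .pnn 0 3 3 (qsf 0 536870912 0 1230186008 3) ndB0q0 ndB5q3 pcB3 cut_B05pm_033_s1 Ext.none)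

def k0_B05pm_033_s1 : ∃ t, chk3 f_B05pm_033_s1 t 1 1 1 = true :=
  ⟨(l 6), by decide +kernel⟩

theorem c_B05pm_033_s1 : CertF 0 536870912 0 1230186008 740881858 40050571 false true false .pnn 0 3 3
    ndB0q0 ndB5q3 pcB3 cut_B05pm_033_s1 Ext.none :=
  certF0 (fam := false) (s1 := true) (s2 := false) (a := 0) (b := 3) (c := 3) (cn := .pnn) (n1 := ndB0q0) (n2 := ndB5q3) (pc := pcB3) (cut := cut_B05pm_033_s1) (xt := Ext.none) (P1 := 0) (W1 := 536870912) (P2 := 0) (W2 := 1230186008) (P3 := 740881858) (W3 := 40050571)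
    rfl k0_B05pm_033_s1

theorem s_B05pm_033_s1 {κ x : ℝ} (hκ : κ * h0 = ken x) (hx : ((740881858 : ℕ) : ℝ) / S ≤ x)
    (hx' : x ≤ (((740881858 : ℕ) : ℝ) + (40050571 : ℕ)) / S) :
    AltB (VFD κ) PP tK tL pcB [⟨3, 0, 0, 1449551462⟩] 0 3 3 0 5 (sgb true) (sgb false) x :=
  strip_altBD (m := 1449551462) true rfl hκ (SH.κ0 hκ (SH.hx1 hx).le (SH.hx2 hx').le) (SH.hx1 hx).le (SH.hx2 hx') (covB00).cov (covB53).cov hx hx' c_B05pm_033_s1 cutB_nil (noExt_B)

noncomputable def cut_B05pm_101_s1 : Cut := Cut.of [[⟨4, 0, 0, 1449551462⟩]]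

noncomputable def f_B05pm_101_s1 : ℕ → ℕ → ℕ → ℕ → Bool := onCell 536870912 536870912 536870912 536870912 740881858 40050571
    (rowF 0 false true false .npn 1 0 1 (qsf 536870912 536870912 536870912 536870912 0) ndB0q1 ndB5q1 pcB0 cut_B05pm_101_s1 Ext.none)

def k0_B05pm_101_s1 : ∃ t, chk3 f_B05pm_101_s1 t 1 1 1 = true :=
  ⟨(l 4), by decide +kernel⟩

theorem c_B05pm_101_s1 : CertF 536870912 536870912 536870912 536870912 740881858 40050571 false true false .npn 1 0 1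
    ndB0q1 ndB5q1 pcB0 cut_B05pm_101_s1 Ext.none :=
  certF0 (fam := false) (s1 := true) (s2 := false) (a := 1) (b := 0) (c := 1) (cn := .npn) (n1 := ndB0q1) (n2 := ndB5q1) (pc := pcB0) (cut := cut_B05pm_101_s1) (xt := Ext.none) (P1 := 536870912) (W1 := 536870912) (P2 := 536870912) (W2 := 536870912) (P3 := 740881858) (W3 := 40050571)
    rfl k0_B05pm_101_s1

theorem s_B05pm_101_s1 {κ x : ℝ} (hκ : κ * h0 = ken x) (hx : ((740881858 : ℕ) : ℝ) / S ≤ x)
    (hx' : x ≤ (((740881858 : ℕ) : ℝ) + (40050571 : ℕ)) / S) :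
    AltB (VFD κ) PP tK tL pcB [⟨3, 0, 0, 1449551462⟩] 1 0 1 0 5 (sgb true) (sgb false) x :=
  strip_altBD (m := 1449551462) true rfl hκ (SH.κ0 hκ (SH.hx1 hx).le (SH.hx2 hx').le) (SH.hx1 hx).le (SH.hx2 hx') (covB01).cov (covB51).cov hx hx' c_B05pm_101_s1 cutB_nil (noExt_B)

noncomputable def cut_B05pm_102_s1 : Cut := Cut.of [[⟨4, 0, 0, 1449551462⟩]]

noncomputable def f_B05pm_102_s1 : ℕ → ℕ → ℕ → ℕ → Bool := onCell 536870912 536870912 1073741824 536870912 740881858 40050571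
    (rowF 0 false true false .npp 1 0 2 (qsf 536870912 536870912 1073741824 536870912 0) ndB0q1 ndB5q2 pcB0 cut_B05pm_102_s1 Ext.none)

def k0_B05pm_102_s1 : ∃ t, chk3 f_B05pm_102_s1 t 1 1 1 = true :=
  ⟨(l 6), by decide +kernel⟩

theorem c_B05pm_102_s1 : CertF 536870912 536870912 1073741824 536870912 740881858 40050571 false true false .npp 1 0 2
    ndB0q1 ndB5q2 pcB0 cut_B05pm_102_s1 Ext.none :=
  certF0 (fam := false) (s1 := true) (s2 := false) (a := 1) (b := 0) (c := 2) (cn := .npp) (n1 := ndB0q1) (n2 := ndB5q2) (pc := pcB0) (cut := cut_B05pm_102_s1) (xt := Ext.none) (P1 := 536870912) (W1 := 536870912) (P2 := 1073741824) (W2 := 536870912) (P3 := 740881858) (W3 := 40050571)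
    rfl k0_B05pm_102_s1

theorem s_B05pm_102_s1 {κ x : ℝ} (hκ : κ * h0 = ken x) (hx : ((740881858 : ℕ) : ℝ) / S ≤ x)
    (hx' : x ≤ (((740881858 : ℕ) : ℝ) + (40050571 : ℕ)) / S) :
    AltB (VFD κ) PP tK tL pcB [⟨3, 0, 0, 1449551462⟩] 1 0 2 0 5 (sgb true) (sgb false) x :=
  strip_altBD (m := 1449551462) true rfl hκ (SH.κ0 hκ (SH.hx1 hx).le (SH.hx2 hx').le) (SH.hx1 hx).le (SH.hx2 hx') (covB01).cov (covB52).cov hx hx' c_B05pm_102_s1 cutB_nil (noExt_B)

noncomputable def cut_B05pm_112_s1 : Cut := Cut.of [[⟨4, 0, 0, 1449551462⟩]]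

noncomputable def f_B05pm_112_s1 : ℕ → ℕ → ℕ → ℕ → Bool := onCell 536870912 536870912 1073741824 536870912 740881858 40050571
    (rowF 0 false true false .dn 1 1 2 (qsf 536870912 536870912 1073741824 536870912 1) ndB0q1 ndB5q2 pcB1 cut_B05pm_112_s1 Ext.none)

def k0_B05pm_112_s1 : ∃ t, chk3 f_B05pm_112_s1 t 1 1 1 = true :=
  ⟨(l 6), by decide +kernel⟩

theorem c_B05pm_112_s1 : CertF 536870912 536870912 1073741824 536870912 740881858 40050571 false true false .dn 1 1 2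
    ndB0q1 ndB5q2 pcB1 cut_B05pm_112_s1 Ext.none :=
  certF0 (fam := false) (s1 := true) (s2 := false) (a := 1) (b := 1) (c := 2) (cn := .dn) (n1 := ndB0q1) (n2 := ndB5q2) (pc := pcB1) (cut := cut_B05pm_112_s1) (xt := Ext.none) (P1 := 536870912) (W1 := 536870912) (P2 := 1073741824) (W2 := 536870912) (P3 := 740881858) (W3 := 40050571)
    rfl k0_B05pm_112_s1

theorem s_B05pm_112_s1 {κ x : ℝ} (hκ : κ * h0 = ken x) (hx : ((740881858 : ℕ) : ℝ) / S ≤ x)
    (hx' : x ≤ (((740881858 : ℕ) : ℝ) + (40050571 : ℕ)) / S) :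
    AltB (VFD κ) PP tK tL pcB [⟨3, 0, 0, 1449551462⟩] 1 1 2 0 5 (sgb true) (sgb false) x :=
  strip_altBD (m := 1449551462) true rfl hκ (SH.κ0 hκ (SH.hx1 hx).le (SH.hx2 hx').le) (SH.hx1 hx).le (SH.hx2 hx') (covB01).cov (covB52).cov hx hx' c_B05pm_112_s1 cutB_nil (noExt_B)

noncomputable def cut_B05pm_113_s1 : Cut := Cut.of [[⟨4, 0, 0, 1449551462⟩], [⟨0, 1, 0, 67108864⟩, ⟨1, 1, 0, 67108864⟩, ⟨2, 2, 0, 16777216⟩]]

noncomputable def f_B05pm_113_s1 : ℕ → ℕ → ℕ → ℕ → Bool := onCell 536870912 536870912 0 1230186008 740881858 40050571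
    (rowF 0 false true false .nn 1 1 3 (qsf 536870912 536870912 0 1230186008 1) ndB0q1 ndB5q3 pcB1 cut_B05pm_113_s1 Ext.none)

def k0_B05pm_113_s1 : ∃ t, chk3 f_B05pm_113_s1 t 1 1 1 = true :=
  ⟨(b (a (l 2) (a (l 2) (b (a (l 2) (a (l 2) (b (l 14) (b (l 14) (l 16796440))))) (b (a (l 6) (a (l 6) (l 16786064))) (l 6))))) (a (l 6) (l 6))), by decide +kernel⟩

theorem c_B05pm_113_s1 : CertF 536870912 536870912 0 1230186008 740881858 40050571 false true false .nn 1 1 3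
    ndB0q1 ndB5q3 pcB1 cut_B05pm_113_s1 Ext.none :=
  certF0 (fam := false) (s1 := true) (s2 := false) (a := 1) (b := 1) (c := 3) (cn := .nn) (n1 := ndB0q1) (n2 := ndB5q3) (pc := pcB1) (cut := cut_B05pm_113_s1) (xt := Ext.none) (P1 := 536870912) (W1 := 536870912) (P2 := 0) (W2 := 1230186008) (P3 := 740881858) (W3 := 40050571)
    rfl k0_B05pm_113_s1

theorem s_B05pm_113_s1 {κ x : ℝ} (hκ : κ * h0 = ken x) (hx : ((740881858 : ℕ) : ℝ) / S ≤ x)
    (hx' : x ≤ (((740881858 : ℕ) : ℝ) + (40050571 : ℕ)) / S)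
    (H : CutB (VFD κ) PP tK tL pcB (Cut.of [[⟨0, 1, 0, 67108864⟩, ⟨1, 1, 0, 67108864⟩, ⟨2, 2, 0, 16777216⟩]]) 1 1 3 0 5 (sgb true) (sgb false) x) :
    AltB (VFD κ) PP tK tL pcB [⟨3, 0, 0, 1449551462⟩] 1 1 3 0 5 (sgb true) (sgb false) x :=
  strip_altBD (m := 1449551462) true rfl hκ (SH.κ0 hκ (SH.hx1 hx).le (SH.hx2 hx').le) (SH.hx1 hx).le (SH.hx2 hx') (covB01).cov (covB53).cov hx hx' c_B05pm_113_s1 H (noExt_B)

noncomputable def cut_B05pm_123_s1 : Cut := Cut.of [[⟨4, 0, 0, 1449551462⟩], [⟨0, 1, 0, 67108864⟩, ⟨1, 1, 0, 67108864⟩, ⟨2, 2, 0, 16777216⟩]]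

noncomputable def f_B05pm_123_s1 : ℕ → ℕ → ℕ → ℕ → Bool := onCell 1073741824 536870912 0 1230186008 740881858 40050571
    (rowF 2 false true false .npn 1 2 3 (qsf 536870912 536870912 0 1230186008 2) ndB0q1 ndB5q3 pcB2 cut_B05pm_123_s1 Ext.none)

def k0_B05pm_123_s1 : ∃ t, chk3 f_B05pm_123_s1 t 1 1 1 = true :=
  ⟨(b (a (a (b (a (b (a (l 14) (a (l 14) (l 16757400))) (a (b (l 14) (l 16641640)) (b (l 16547928) (l 6)))) (b (a (b (l 16660168) (l 16620992)) (b (l 16530672) (l 6))) (l 6))) (a (l 6) (l 6))) (b (b (l 6) (l 6)) (l 6))) (l 6)) (l 6)), by decide +kernel⟩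

theorem c_B05pm_123_s1 : CertF 536870912 536870912 0 1230186008 740881858 40050571 false true false .npn 1 2 3
    ndB0q1 ndB5q3 pcB2 cut_B05pm_123_s1 Ext.none :=
  certF2 (fam := false) (s1 := true) (s2 := false) (a := 1) (b := 2) (c := 3) (cn := .npn) (n1 := ndB0q1) (n2 := ndB5q3) (pc := pcB2) (cut := cut_B05pm_123_s1) (xt := Ext.none) (P1 := 536870912) (W1 := 536870912) (P2 := 0) (W2 := 1230186008) (P3 := 740881858) (W3 := 40050571)
    rfl (fun _ => rfl) k0_B05pm_123_s1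

theorem s_B05pm_123_s1 {κ x : ℝ} (hκ : κ * h0 = ken x) (hx : ((740881858 : ℕ) : ℝ) / S ≤ x)
    (hx' : x ≤ (((740881858 : ℕ) : ℝ) + (40050571 : ℕ)) / S)
    (H : CutB (VFD κ) PP tK tL pcB (Cut.of [[⟨0, 1, 0, 67108864⟩, ⟨1, 1, 0, 67108864⟩, ⟨2, 2, 0, 16777216⟩]]) 1 2 3 0 5 (sgb true) (sgb false) x) :
    AltB (VFD κ) PP tK tL pcB [⟨3, 0, 0, 1449551462⟩] 1 2 3 0 5 (sgb true) (sgb false) x :=
  strip_altBD (m := 1449551462) true rfl hκ (SH.κ0 hκ (SH.hx1 hx).le (SH.hx2 hx').le) (SH.hx1 hx).le (SH.hx2 hx') (covB01).cov (covB53).cov hx hx' c_B05pm_123_s1 H (noExt_B)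

noncomputable def cut_B05pm_133_s1 : Cut := Cut.of [[⟨4, 0, 0, 1449551462⟩]]

noncomputable def f_B05pm_133_s1 : ℕ → ℕ → ℕ → ℕ → Bool := onCell 1610612736 536870912 0 1230186008 740881858 40050571
    (rowF 2 false true false .dn 1 3 3 (qsf 536870912 536870912 0 1230186008 3) ndB0q1 ndB5q3 pcB3 cut_B05pm_133_s1 Ext.none)

def k0_B05pm_133_s1 : ∃ t, chk3 f_B05pm_133_s1 t 1 1 1 = true :=
  ⟨(l 6), by decide +kernel⟩

theorem c_B05pm_133_s1 : CertF 536870912 536870912 0 1230186008 740881858 40050571 false true false .dn 1 3 3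
    ndB0q1 ndB5q3 pcB3 cut_B05pm_133_s1 Ext.none :=
  certF2 (fam := false) (s1 := true) (s2 := false) (a := 1) (b := 3) (c := 3) (cn := .dn) (n1 := ndB0q1) (n2 := ndB5q3) (pc := pcB3) (cut := cut_B05pm_133_s1) (xt := Ext.none) (P1 := 536870912) (W1 := 536870912) (P2 := 0) (W2 := 1230186008) (P3 := 740881858) (W3 := 40050571)
    rfl (fun _ => rfl) k0_B05pm_133_s1

theorem s_B05pm_133_s1 {κ x : ℝ} (hκ : κ * h0 = ken x) (hx : ((740881858 : ℕ) : ℝ) / S ≤ x)
    (hx' : x ≤ (((740881858 : ℕ) : ℝ) + (40050571 : ℕ)) / S) :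
    AltB (VFD κ) PP tK tL pcB [⟨3, 0, 0, 1449551462⟩] 1 3 3 0 5 (sgb true) (sgb false) x :=
  strip_altBD (m := 1449551462) true rfl hκ (SH.κ0 hκ (SH.hx1 hx).le (SH.hx2 hx').le) (SH.hx1 hx).le (SH.hx2 hx') (covB01).cov (covB53).cov hx hx' c_B05pm_133_s1 cutB_nil (noExt_B)

noncomputable def cut_B05pm_202_s1 : Cut := Cut.of [[⟨4, 0, 0, 1449551462⟩]]

noncomputable def f_B05pm_202_s1 : ℕ → ℕ → ℕ → ℕ → Bool := onCell 0 536870912 1073741824 536870912 740881858 40050571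
    (rowF 0 false true false .pp 2 0 2 (qsf 0 536870912 1073741824 536870912 0) ndB0q2 ndB5q2 pcB0 cut_B05pm_202_s1 Ext.none)

def k0_B05pm_202_s1 : ∃ t, chk3 f_B05pm_202_s1 t 1 1 1 = true :=
  ⟨(a (b (l 6) (b (l 6) (l 6))) (l 6)), by decide +kernel⟩

theorem c_B05pm_202_s1 : CertF 0 536870912 1073741824 536870912 740881858 40050571 false true false .pp 2 0 2
    ndB0q2 ndB5q2 pcB0 cut_B05pm_202_s1 Ext.none :=
  certF0 (fam := false) (s1 := true) (s2 := false) (a := 2) (b := 0) (c := 2) (cn := .pp) (n1 := ndB0q2) (n2 := ndB5q2) (pc := pcB0) (cut := cut_B05pm_202_s1) (xt := Ext.none) (P1 := 0) (W1 := 536870912) (P2 := 1073741824) (W2 := 536870912) (P3 := 740881858) (W3 := 40050571)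
    rfl k0_B05pm_202_s1

theorem s_B05pm_202_s1 {κ x : ℝ} (hκ : κ * h0 = ken x) (hx : ((740881858 : ℕ) : ℝ) / S ≤ x)
    (hx' : x ≤ (((740881858 : ℕ) : ℝ) + (40050571 : ℕ)) / S) :
    AltB (VFD κ) PP tK tL pcB [⟨3, 0, 0, 1449551462⟩] 2 0 2 0 5 (sgb true) (sgb false) x :=
  strip_altBD (m := 1449551462) true rfl hκ (SH.κ0 hκ (SH.hx1 hx).le (SH.hx2 hx').le) (SH.hx1 hx).le (SH.hx2 hx') (covB02).cov (covB52).cov hx hx' c_B05pm_202_s1 cutB_nil (noExt_B)

noncomputable def cut_B05pm_203_s1 : Cut := Cut.of [[⟨4, 0, 0, 1449551462⟩]]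

noncomputable def f_B05pm_203_s1 : ℕ → ℕ → ℕ → ℕ → Bool := onCell 0 536870912 0 1230186008 740881858 40050571
    (rowF 0 false true false .up 2 0 3 (qsf 0 536870912 0 1230186008 0) ndB0q2 ndB5q3 pcB0 cut_B05pm_203_s1 Ext.none)

def k0_B05pm_203_s1 : ∃ t, chk3 f_B05pm_203_s1 t 1 1 1 = true :=
  ⟨(b (l 2) (b (l 2) (a (b (b (l 2) (a (a (b (l 2) (l 16741832)) (l 16728856)) (a (l 16708120) (l 6)))) (a (b (a (a (b (l 16730152) (l 16710544)) (l 16708936)) (b (l 16700056) (l 6))) (a (b (l 16681616) (l 16656480)) (l 6))) (l 6))) (l 6)))), by decide +kernel⟩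

theorem c_B05pm_203_s1 : CertF 0 536870912 0 1230186008 740881858 40050571 false true false .up 2 0 3
    ndB0q2 ndB5q3 pcB0 cut_B05pm_203_s1 Ext.none :=
  certF0 (fam := false) (s1 := true) (s2 := false) (a := 2) (b := 0) (c := 3) (cn := .up) (n1 := ndB0q2) (n2 := ndB5q3) (pc := pcB0) (cut := cut_B05pm_203_s1) (xt := Ext.none) (P1 := 0) (W1 := 536870912) (P2 := 0) (W2 := 1230186008) (P3 := 740881858) (W3 := 40050571)
    rfl k0_B05pm_203_s1

theorem s_B05pm_203_s1 {κ x : ℝ} (hκ : κ * h0 = ken x) (hx : ((740881858 : ℕ) : ℝ) / S ≤ x)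
    (hx' : x ≤ (((740881858 : ℕ) : ℝ) + (40050571 : ℕ)) / S) :
    AltB (VFD κ) PP tK tL pcB [⟨3, 0, 0, 1449551462⟩] 2 0 3 0 5 (sgb true) (sgb false) x :=
  strip_altBD (m := 1449551462) true rfl hκ (SH.κ0 hκ (SH.hx1 hx).le (SH.hx2 hx').le) (SH.hx1 hx).le (SH.hx2 hx') (covB02).cov (covB53).cov hx hx' c_B05pm_203_s1 cutB_nil (noExt_B)

noncomputable def cut_B05pm_213_s1 : Cut := Cut.of [[⟨4, 0, 0, 1449551462⟩], [⟨0, 1, 0, 67108864⟩, ⟨1, 1, 0, 67108864⟩, ⟨2, 2, 0, 16777216⟩]]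

noncomputable def xt_B05pm_213_s1 : Ext := strExt dd false true false .u2 .s2m .u0m .pnn 2 1 3 rfl rfl gf1 vv ndB0q2 ndB5q3

noncomputable def f_B05pm_213_s1 : ℕ → ℕ → ℕ → ℕ → Bool := onCell 0 536870912 0 1230186008 740881858 40050571
    (rowF 0 false true false .pnn 2 1 3 (qsf 0 536870912 0 1230186008 1) ndB0q2 ndB5q3 pcB1 cut_B05pm_213_s1 xt_B05pm_213_s1)

def k0_B05pm_213_s1 : ∃ t, chk3 f_B05pm_213_s1 t 1 2 1 = true :=
  ⟨(a (b (l 3) (a (l 3) (b (l 3) (a (a (l 3) (b (l 3) (b (l 3) (l 535751183)))) (b (a (l 3) (a (l 537053455) (l 535645967))) (a (b (l 535586831) (l 535677199)) (c (b (l 535592975) (l 16784280)) (b (l 535523855) (l 535602959))))))))) (b (a (b (l 3) (a (l 3) (b (l 3) (a (l 3) (b (l 537162255) (l 537378831)))))) (b (a (a (l 3) (l 14)) (l 14)) (a (a (b (a (l 536569871) (l 536523279)) (a (l 536990991) (b (l 536841487) (l 16778840)))) (b (a (l 536516623) (l 14)) (a (b (l 16776400) (l 16779120)) (l 16776792))))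 (b (a (a (l 14) (l 14)) (l 16760888)) (a (l 16774112) (l 16771224)))))) (a (a (b (b (a (l 3) (l 536649743)) (a (b (l 3) (l 536093711)) (b (l 536535567) (l 536484879)))) (b (a (l 535949839) (b (l 536393487) (l 16766408))) (a (b (l 16762624) (l 16755512)) (l 16756560)))) (b (b (a (b (l 536906511) (l 536822799)) (b (l 537325839) (l 537243663))) (a (b (l 536743183) (l 16773376)) (b (l 16781064) (l 16778936)))) (b (a (l 16768936) (l 16773384)) (a (l 16759832) (l 16767768))))) (b (a (b (a (a (l 16828024) (l 16786216)) (l 16789568)) (a (l 16793624) (l 16803696))) (b (a (l 16793368) (l 16800576)) (l 16810528))) (a (b (l 16793160) (l 16785760)) (b (l 6) (l 6))))))), by decide +kernel⟩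

def k1_B05pm_213_s1 : ∃ t, chk3 f_B05pm_213_s1 t 1 3 1 = true :=
  ⟨(b (a (b (a (a (l 3) (a (l 3) (b (l 3) (l 535829007)))) (a (b (a (l 536347663) (b (a (l 535796239) (l 535795215)) (l 535809039))) (a (l 535799823) (a (l 535793167) (l 16757688)))) (b (a (b (l 535778831) (l 16760464)) (b (l 16755472) (l 16748232))) (a (l 16746168) (l 16735296))))) (a (a (b (b (l 3) (a (l 3) (l 535846671))) (a (l 535362063) (b (l 535323407) (l 534500623)))) (b (a (b (a (l 535525903) (b (l 535714575) (l 535607311))) (a (l 535332879) (b (l 535520015) (l 16765200)))) (b (a (b (l 535810575) (l 16769832)) (l 16766616)) (l 16759616))) (a (a (b (l 16763344) (l 16751672)) (l 16751280)) (l 16779720)))) (a (b (a (b (l 16757928) (l 16747800)) (b (l 16746160) (l 16734072))) (a (l 16729464) (l 16718648))) (b (a (l 16730416) (l 16715288)) (l 16694376))))) (a (b (b (a (a (l 16742512) (l 16746288)) (l 16753032)) (a (a (l 16730240) (l 16729400)) (l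 16737640))) (b (a (l 16706168) (l 6)) (l 6))) (b (l 6) (l 6)))) (a (b (a (b (a (a (l 535214095) (b (l 16750008) (l 16733016))) (a (l 16801168) (l 16629360))) (a (a (b (l 16733408) (l 16620640)) (b (l 16711768) (l 16683912))) (b (l 16682848) (l 16651088)))) (a (b (l 16687160) (l 16544064)) (l 6))) (a (l 1) (l 6))) (l 6))), by decide +kernel⟩

theorem t2_B05pm_213_s1 : ∃ t, chk3 f_B05pm_213_s1 t 1 1 1 = true := ex3_b k0_B05pm_213_s1 k1_B05pm_213_s1

theorem c_B05pm_213_s1 : CertF 0 536870912 0 1230186008 740881858 40050571 false true false .pnn 2 1 3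
    ndB0q2 ndB5q3 pcB1 cut_B05pm_213_s1 xt_B05pm_213_s1 :=
  certF0 (fam := false) (s1 := true) (s2 := false) (a := 2) (b := 1) (c := 3) (cn := .pnn) (n1 := ndB0q2) (n2 := ndB5q3) (pc := pcB1) (cut := cut_B05pm_213_s1) (xt := xt_B05pm_213_s1) (P1 := 0) (W1 := 536870912) (P2 := 0) (W2 := 1230186008) (P3 := 740881858) (W3 := 40050571)
    rfl t2_B05pm_213_s1

theorem s_B05pm_213_s1 {κ x : ℝ} (hκ : κ * h0 = ken x) (hx : ((740881858 : ℕ) : ℝ) / S ≤ x)
    (hx' : x ≤ (((740881858 : ℕ) : ℝ) + (40050571 : ℕ)) / S)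
    (H : CutB (VFD κ) PP tK tL pcB (Cut.of [[⟨0, 1, 0, 67108864⟩, ⟨1, 1, 0, 67108864⟩, ⟨2, 2, 0, 16777216⟩]]) 2 1 3 0 5 (sgb true) (sgb false) x) :
    AltB (VFD κ) PP tK tL pcB [⟨3, 0, 0, 1449551462⟩] 2 1 3 0 5 (sgb true) (sgb false) x :=
  strip_altBD (m := 1449551462) true rfl hκ (SH.κ0 hκ (SH.hx1 hx).le (SH.hx2 hx').le) (SH.hx1 hx).le (SH.hx2 hx') (covB02).cov (covB53).cov hx hx' c_B05pm_213_s1 H ((okx hx hx').extB (T := tt) (sideB hx hx') hκ rfl rfl (.O 2 true) (.N 3 false) (Or.inr rfl))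

noncomputable def cut_B05mm_001_s1 : Cut := Cut.of [[⟨4, 0, 0, 1449551462⟩]]

noncomputable def f_B05mm_001_s1 : ℕ → ℕ → ℕ → ℕ → Bool := onCell 0 536870912 0 536870912 740881858 40050571
    (rowF 1 false false false .up 0 0 1 (qsf 0 536870912 536870912 536870912 0) ndB0q0 ndB5q1 pcB0 cut_B05mm_001_s1 Ext.none)

def k0_B05mm_001_s1 : ∃ t, chk3 f_B05mm_001_s1 t 1 1 1 = true :=
  ⟨(l 3), by decide +kernel⟩

theorem c_B05mm_001_s1 : CertF 0 536870912 536870912 536870912 740881858 40050571 false false false .up 0 0 1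
    ndB0q0 ndB5q1 pcB0 cut_B05mm_001_s1 Ext.none :=
  certF1 (fam := false) (s1 := false) (s2 := false) (a := 0) (b := 0) (c := 1) (cn := .up) (n1 := ndB0q0) (n2 := ndB5q1) (pc := pcB0) (cut := cut_B05mm_001_s1) (xt := Ext.none) (P1 := 0) (W1 := 536870912) (P2 := 536870912) (W2 := 536870912) (P3 := 740881858) (W3 := 40050571)
    rfl (fun _ => rfl) k0_B05mm_001_s1

theorem s_B05mm_001_s1 {κ x : ℝ} (hκ : κ * h0 = ken x) (hx : ((740881858 : ℕ) : ℝ) / S ≤ x)
    (hx' : x ≤ (((740881858 : ℕ) : ℝ) + (40050571 : ℕ)) / S) :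
    AltB (VFD κ) PP tK tL pcB [⟨3, 0, 0, 1449551462⟩] 0 0 1 0 5 (sgb false) (sgb false) x :=
  strip_altBD (m := 1449551462) true rfl hκ (SH.κ0 hκ (SH.hx1 hx).le (SH.hx2 hx').le) (SH.hx1 hx).le (SH.hx2 hx') (covB00).cov (covB51).cov hx hx' c_B05mm_001_s1 cutB_nil (noExt_B)

noncomputable def cut_B05mm_011_s1 : Cut := Cut.of [[⟨4, 0, 0, 1449551462⟩]]

noncomputable def f_B05mm_011_s1 : ℕ → ℕ → ℕ → ℕ → Bool := onCell 0 536870912 536870912 536870912 740881858 40050571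
    (rowF 1 false false false .pnn 0 1 1 (qsf 0 536870912 536870912 536870912 1) ndB0q0 ndB5q1 pcB1 cut_B05mm_011_s1 Ext.none)

def k0_B05mm_011_s1 : ∃ t, chk3 f_B05mm_011_s1 t 1 1 1 = true :=
  ⟨(l 5), by decide +kernel⟩

theorem c_B05mm_011_s1 : CertF 0 536870912 536870912 536870912 740881858 40050571 false false false .pnn 0 1 1
    ndB0q0 ndB5q1 pcB1 cut_B05mm_011_s1 Ext.none :=
  certF1 (fam := false) (s1 := false) (s2 := false) (a := 0) (b := 1) (c := 1) (cn := .pnn) (n1 := ndB0q0) (n2 := ndB5q1) (pc := pcB1) (cut := cut_B05mm_011_s1) (xt := Ext.none) (P1 := 0) (W1 := 536870912) (P2 := 536870912) (W2 := 536870912) (P3 := 740881858) (W3 := 40050571)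
    rfl (fun _ => rfl) k0_B05mm_011_s1

theorem s_B05mm_011_s1 {κ x : ℝ} (hκ : κ * h0 = ken x) (hx : ((740881858 : ℕ) : ℝ) / S ≤ x)
    (hx' : x ≤ (((740881858 : ℕ) : ℝ) + (40050571 : ℕ)) / S) :
    AltB (VFD κ) PP tK tL pcB [⟨3, 0, 0, 1449551462⟩] 0 1 1 0 5 (sgb false) (sgb false) x :=
  strip_altBD (m := 1449551462) true rfl hκ (SH.κ0 hκ (SH.hx1 hx).le (SH.hx2 hx').le) (SH.hx1 hx).le (SH.hx2 hx') (covB00).cov (covB51).cov hx hx' c_B05mm_011_s1 cutB_nil (noExt_B)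

noncomputable def cut_B05mm_012_s1 : Cut := Cut.of [[⟨4, 0, 0, 1449551462⟩]]

noncomputable def f_B05mm_012_s1 : ℕ → ℕ → ℕ → ℕ → Bool := onCell 0 536870912 1073741824 536870912 740881858 40050571
    (rowF 0 false false false .pnp 0 1 2 (qsf 0 536870912 1073741824 536870912 1) ndB0q0 ndB5q2 pcB1 cut_B05mm_012_s1 Ext.none)

def k0_B05mm_012_s1 : ∃ t, chk3 f_B05mm_012_s1 t 1 1 1 = true :=
  ⟨(l 5), by decide +kernel⟩

theorem c_B05mm_012_s1 : CertF 0 536870912 1073741824 536870912 740881858 40050571 false false false .pnp 0 1 2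
    ndB0q0 ndB5q2 pcB1 cut_B05mm_012_s1 Ext.none :=
  certF0 (fam := false) (s1 := false) (s2 := false) (a := 0) (b := 1) (c := 2) (cn := .pnp) (n1 := ndB0q0) (n2 := ndB5q2) (pc := pcB1) (cut := cut_B05mm_012_s1) (xt := Ext.none) (P1 := 0) (W1 := 536870912) (P2 := 1073741824) (W2 := 536870912) (P3 := 740881858) (W3 := 40050571)
    rfl k0_B05mm_012_s1

theorem s_B05mm_012_s1 {κ x : ℝ} (hκ : κ * h0 = ken x) (hx : ((740881858 : ℕ) : ℝ) / S ≤ x)
    (hx' : x ≤ (((740881858 : ℕ) : ℝ) + (40050571 : ℕ)) / S) :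
    AltB (VFD κ) PP tK tL pcB [⟨3, 0, 0, 1449551462⟩] 0 1 2 0 5 (sgb false) (sgb false) x :=
  strip_altBD (m := 1449551462) true rfl hκ (SH.κ0 hκ (SH.hx1 hx).le (SH.hx2 hx').le) (SH.hx1 hx).le (SH.hx2 hx') (covB00).cov (covB52).cov hx hx' c_B05mm_012_s1 cutB_nil (noExt_B)

noncomputable def cut_B05mm_022_s1 : Cut := Cut.of [[⟨4, 0, 0, 1449551462⟩]]

noncomputable def f_B05mm_022_s1 : ℕ → ℕ → ℕ → ℕ → Bool := onCell 0 536870912 1073741824 536870912 740881858 40050571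
    (rowF 0 false false false .pp 0 2 2 (qsf 0 536870912 1073741824 536870912 2) ndB0q0 ndB5q2 pcB2 cut_B05mm_022_s1 Ext.none)

def k0_B05mm_022_s1 : ∃ t, chk3 f_B05mm_022_s1 t 1 1 1 = true :=
  ⟨(l 5), by decide +kernel⟩

theorem c_B05mm_022_s1 : CertF 0 536870912 1073741824 536870912 740881858 40050571 false false false .pp 0 2 2
    ndB0q0 ndB5q2 pcB2 cut_B05mm_022_s1 Ext.none :=
  certF0 (fam := false) (s1 := false) (s2 := false) (a := 0) (b := 2) (c := 2) (cn := .pp) (n1 := ndB0q0) (n2 := ndB5q2) (pc := pcB2) (cut := cut_B05mm_022_s1) (xt := Ext.none) (P1 := 0) (W1 := 536870912) (P2 := 1073741824) (W2 := 536870912) (P3 := 740881858) (W3 := 40050571)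
    rfl k0_B05mm_022_s1

theorem s_B05mm_022_s1 {κ x : ℝ} (hκ : κ * h0 = ken x) (hx : ((740881858 : ℕ) : ℝ) / S ≤ x)
    (hx' : x ≤ (((740881858 : ℕ) : ℝ) + (40050571 : ℕ)) / S) :
    AltB (VFD κ) PP tK tL pcB [⟨3, 0, 0, 1449551462⟩] 0 2 2 0 5 (sgb false) (sgb false) x :=
  strip_altBD (m := 1449551462) true rfl hκ (SH.κ0 hκ (SH.hx1 hx).le (SH.hx2 hx').le) (SH.hx1 hx).le (SH.hx2 hx') (covB00).cov (covB52).cov hx hx' c_B05mm_022_s1 cutB_nil (noExt_B)

noncomputable def cut_B05mm_023_s1 : Cut := Cut.of [[⟨4, 0, 0, 1449551462⟩]]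

noncomputable def f_B05mm_023_s1 : ℕ → ℕ → ℕ → ℕ → Bool := onCell 0 536870912 0 1230186008 740881858 40050571
    (rowF 0 false false false .up 0 2 3 (qsf 0 536870912 0 1230186008 2) ndB0q0 ndB5q3 pcB2 cut_B05mm_023_s1 Ext.none)

def k0_B05mm_023_s1 : ∃ t, chk3 f_B05mm_023_s1 t 1 1 1 = true :=
  ⟨(l 5), by decide +kernel⟩

theorem c_B05mm_023_s1 : CertF 0 536870912 0 1230186008 740881858 40050571 false false false .up 0 2 3
    ndB0q0 ndB5q3 pcB2 cut_B05mm_023_s1 Ext.none :=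
  certF0 (fam := false) (s1 := false) (s2 := false) (a := 0) (b := 2) (c := 3) (cn := .up) (n1 := ndB0q0) (n2 := ndB5q3) (pc := pcB2) (cut := cut_B05mm_023_s1) (xt := Ext.none) (P1 := 0) (W1 := 536870912) (P2 := 0) (W2 := 1230186008) (P3 := 740881858) (W3 := 40050571)
    rfl k0_B05mm_023_s1

theorem s_B05mm_023_s1 {κ x : ℝ} (hκ : κ * h0 = ken x) (hx : ((740881858 : ℕ) : ℝ) / S ≤ x)
    (hx' : x ≤ (((740881858 : ℕ) : ℝ) + (40050571 : ℕ)) / S) :
    AltB (VFD κ) PP tK tL pcB [⟨3, 0, 0, 1449551462⟩] 0 2 3 0 5 (sgb false) (sgb false) x :=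
  strip_altBD (m := 1449551462) true rfl hκ (SH.κ0 hκ (SH.hx1 hx).le (SH.hx2 hx').le) (SH.hx1 hx).le (SH.hx2 hx') (covB00).cov (covB53).cov hx hx' c_B05mm_023_s1 cutB_nil (noExt_B)

noncomputable def cut_B05mm_033_s1 : Cut := Cut.of [[⟨4, 0, 0, 1449551462⟩]]

noncomputable def f_B05mm_033_s1 : ℕ → ℕ → ℕ → ℕ → Bool := onCell 0 536870912 0 1230186008 740881858 40050571
    (rowF 0 false false false .pnn 0 3 3 (qsf 0 536870912 0 1230186008 3) ndB0q0 ndB5q3 pcB3 cut_B05mm_033_s1 Ext.none)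

def k0_B05mm_033_s1 : ∃ t, chk3 f_B05mm_033_s1 t 1 1 1 = true :=
  ⟨(l 5), by decide +kernel⟩

theorem c_B05mm_033_s1 : CertF 0 536870912 0 1230186008 740881858 40050571 false false false .pnn 0 3 3
    ndB0q0 ndB5q3 pcB3 cut_B05mm_033_s1 Ext.none :=
  certF0 (fam := false) (s1 := false) (s2 := false) (a := 0) (b := 3) (c := 3) (cn := .pnn) (n1 := ndB0q0) (n2 := ndB5q3) (pc := pcB3) (cut := cut_B05mm_033_s1) (xt := Ext.none) (P1 := 0) (W1 := 536870912) (P2 := 0) (W2 := 1230186008) (P3 := 740881858) (W3 := 40050571)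
    rfl k0_B05mm_033_s1

theorem s_B05mm_033_s1 {κ x : ℝ} (hκ : κ * h0 = ken x) (hx : ((740881858 : ℕ) : ℝ) / S ≤ x)
    (hx' : x ≤ (((740881858 : ℕ) : ℝ) + (40050571 : ℕ)) / S) :
    AltB (VFD κ) PP tK tL pcB [⟨3, 0, 0, 1449551462⟩] 0 3 3 0 5 (sgb false) (sgb false) x :=
  strip_altBD (m := 1449551462) true rfl hκ (SH.κ0 hκ (SH.hx1 hx).le (SH.hx2 hx').le) (SH.hx1 hx).le (SH.hx2 hx') (covB00).cov (covB53).cov hx hx' c_B05mm_033_s1 cutB_nil (noExt_B)

noncomputable def cut_B05mm_101_s1 : Cut := Cut.of [[⟨4, 0, 0, 1449551462⟩], [⟨0, 1, 0, 67108864⟩, ⟨1, 0, 0, 67108864⟩, ⟨2, 1, 0, 67108864⟩]]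

noncomputable def f_B05mm_101_s1 : ℕ → ℕ → ℕ → ℕ → Bool := onCell 536870912 536870912 0 536870912 740881858 40050571
    (rowF 1 false false false .npn 1 0 1 (qsf 536870912 536870912 536870912 536870912 0) ndB0q1 ndB5q1 pcB0 cut_B05mm_101_s1 Ext.none)

def k0_B05mm_101_s1 : ∃ t, chk3 f_B05mm_101_s1 t 1 1 1 = true :=
  ⟨(a (l 3) (b (a (l 3) (b (a (l 3) (b (a (l 3) (b (l 14) (l 3))) (l 3))) (l 3))) (l 3))), by decide +kernel⟩

theorem c_B05mm_101_s1 : CertF 536870912 536870912 536870912 536870912 740881858 40050571 false false false .npn 1 0 1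
    ndB0q1 ndB5q1 pcB0 cut_B05mm_101_s1 Ext.none :=
  certF1 (fam := false) (s1 := false) (s2 := false) (a := 1) (b := 0) (c := 1) (cn := .npn) (n1 := ndB0q1) (n2 := ndB5q1) (pc := pcB0) (cut := cut_B05mm_101_s1) (xt := Ext.none) (P1 := 536870912) (W1 := 536870912) (P2 := 536870912) (W2 := 536870912) (P3 := 740881858) (W3 := 40050571)
    rfl (fun _ => rfl) k0_B05mm_101_s1

theorem s_B05mm_101_s1 {κ x : ℝ} (hκ : κ * h0 = ken x) (hx : ((740881858 : ℕ) : ℝ) / S ≤ x)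
    (hx' : x ≤ (((740881858 : ℕ) : ℝ) + (40050571 : ℕ)) / S)
    (H : CutB (VFD κ) PP tK tL pcB (Cut.of [[⟨0, 1, 0, 67108864⟩, ⟨1, 0, 0, 67108864⟩, ⟨2, 1, 0, 67108864⟩]]) 1 0 1 0 5 (sgb false) (sgb false) x) :
    AltB (VFD κ) PP tK tL pcB [⟨3, 0, 0, 1449551462⟩] 1 0 1 0 5 (sgb false) (sgb false) x :=
  strip_altBD (m := 1449551462) true rfl hκ (SH.κ0 hκ (SH.hx1 hx).le (SH.hx2 hx').le) (SH.hx1 hx).le (SH.hx2 hx') (covB01).cov (covB51).cov hx hx' c_B05mm_101_s1 H (noExt_B)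

noncomputable def cut_B05mm_102_s1 : Cut := Cut.of [[⟨4, 0, 0, 1449551462⟩], [⟨0, 1, 0, 67108864⟩, ⟨1, 0, 0, 67108864⟩, ⟨2, 1, 0, 67108864⟩]]

noncomputable def f_B05mm_102_s1 : ℕ → ℕ → ℕ → ℕ → Bool := onCell 536870912 536870912 0 536870912 740881858 40050571
    (rowF 1 false false false .npp 1 0 2 (qsf 536870912 536870912 1073741824 536870912 0) ndB0q1 ndB5q2 pcB0 cut_B05mm_102_s1 Ext.none)

def k0_B05mm_102_s1 : ∃ t, chk3 f_B05mm_102_s1 t 1 1 1 = true :=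
  ⟨(a (l 3) (b (a (l 3) (b (a (l 3) (a (l 3) (b (b (l 14) (l 3)) (l 3)))) (l 3))) (l 3))), by decide +kernel⟩

theorem c_B05mm_102_s1 : CertF 536870912 536870912 1073741824 536870912 740881858 40050571 false false false .npp 1 0 2
    ndB0q1 ndB5q2 pcB0 cut_B05mm_102_s1 Ext.none :=
  certF1 (fam := false) (s1 := false) (s2 := false) (a := 1) (b := 0) (c := 2) (cn := .npp) (n1 := ndB0q1) (n2 := ndB5q2) (pc := pcB0) (cut := cut_B05mm_102_s1) (xt := Ext.none) (P1 := 536870912) (W1 := 536870912) (P2 := 1073741824) (W2 := 536870912) (P3 := 740881858) (W3 := 40050571)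
    rfl (fun _ => rfl) k0_B05mm_102_s1

theorem s_B05mm_102_s1 {κ x : ℝ} (hκ : κ * h0 = ken x) (hx : ((740881858 : ℕ) : ℝ) / S ≤ x)
    (hx' : x ≤ (((740881858 : ℕ) : ℝ) + (40050571 : ℕ)) / S)
    (H : CutB (VFD κ) PP tK tL pcB (Cut.of [[⟨0, 1, 0, 67108864⟩, ⟨1, 0, 0, 67108864⟩, ⟨2, 1, 0, 67108864⟩]]) 1 0 2 0 5 (sgb false) (sgb false) x) :
    AltB (VFD κ) PP tK tL pcB [⟨3, 0, 0, 1449551462⟩] 1 0 2 0 5 (sgb false) (sgb false) x :=
  strip_altBD (m := 1449551462) true rfl hκ (SH.κ0 hκ (SH.hx1 hx).le (SH.hx2 hx').le) (SH.hx1 hx).le (SH.hx2 hx') (covB01).cov (covB52).cov hx hx' c_B05mm_102_s1 H (noExt_B)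

noncomputable def cut_B05mm_112_s1 : Cut := Cut.of [[⟨4, 0, 0, 1449551462⟩]]

noncomputable def f_B05mm_112_s1 : ℕ → ℕ → ℕ → ℕ → Bool := onCell 536870912 536870912 1073741824 536870912 740881858 40050571
    (rowF 2 false false false .dn 1 1 2 (qsf 536870912 536870912 1073741824 536870912 1) ndB0q1 ndB5q2 pcB1 cut_B05mm_112_s1 Ext.none)

def k0_B05mm_112_s1 : ∃ t, chk3 f_B05mm_112_s1 t 1 1 1 = true :=
  ⟨(a (l 3) (l 5)), by decide +kernel⟩

theorem c_B05mm_112_s1 : CertF 536870912 536870912 1073741824 536870912 740881858 40050571 false false false .dn 1 1 2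
    ndB0q1 ndB5q2 pcB1 cut_B05mm_112_s1 Ext.none :=
  certF2 (fam := false) (s1 := false) (s2 := false) (a := 1) (b := 1) (c := 2) (cn := .dn) (n1 := ndB0q1) (n2 := ndB5q2) (pc := pcB1) (cut := cut_B05mm_112_s1) (xt := Ext.none) (P1 := 536870912) (W1 := 536870912) (P2 := 1073741824) (W2 := 536870912) (P3 := 740881858) (W3 := 40050571)
    rfl (fun _ => rfl) k0_B05mm_112_s1

theorem s_B05mm_112_s1 {κ x : ℝ} (hκ : κ * h0 = ken x) (hx : ((740881858 : ℕ) : ℝ) / S ≤ x)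
    (hx' : x ≤ (((740881858 : ℕ) : ℝ) + (40050571 : ℕ)) / S) :
    AltB (VFD κ) PP tK tL pcB [⟨3, 0, 0, 1449551462⟩] 1 1 2 0 5 (sgb false) (sgb false) x :=
  strip_altBD (m := 1449551462) true rfl hκ (SH.κ0 hκ (SH.hx1 hx).le (SH.hx2 hx').le) (SH.hx1 hx).le (SH.hx2 hx') (covB01).cov (covB52).cov hx hx' c_B05mm_112_s1 cutB_nil (noExt_B)

noncomputable def cut_B05mm_113_s1 : Cut := Cut.of [[⟨4, 0, 0, 1449551462⟩]]

noncomputable def f_B05mm_113_s1 : ℕ → ℕ → ℕ → ℕ → Bool := onCell 536870912 536870912 0 1230186008 740881858 40050571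
    (rowF 0 false false false .nn 1 1 3 (qsf 536870912 536870912 0 1230186008 1) ndB0q1 ndB5q3 pcB1 cut_B05mm_113_s1 Ext.none)

def k0_B05mm_113_s1 : ∃ t, chk3 f_B05mm_113_s1 t 1 1 1 = true :=
  ⟨(a (l 5) (b (l 5) (a (b (l 5) (l 3)) (l 3)))), by decide +kernel⟩

theorem c_B05mm_113_s1 : CertF 536870912 536870912 0 1230186008 740881858 40050571 false false false .nn 1 1 3
    ndB0q1 ndB5q3 pcB1 cut_B05mm_113_s1 Ext.none :=
  certF0 (fam := false) (s1 := false) (s2 := false) (a := 1) (b := 1) (c := 3) (cn := .nn) (n1 := ndB0q1) (n2 := ndB5q3) (pc := pcB1) (cut := cut_B05mm_113_s1) (xt := Ext.none) (P1 := 536870912) (W1 := 536870912) (P2 := 0) (W2 := 1230186008) (P3 := 740881858) (W3 := 40050571)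
    rfl k0_B05mm_113_s1

theorem s_B05mm_113_s1 {κ x : ℝ} (hκ : κ * h0 = ken x) (hx : ((740881858 : ℕ) : ℝ) / S ≤ x)
    (hx' : x ≤ (((740881858 : ℕ) : ℝ) + (40050571 : ℕ)) / S) :
    AltB (VFD κ) PP tK tL pcB [⟨3, 0, 0, 1449551462⟩] 1 1 3 0 5 (sgb false) (sgb false) x :=
  strip_altBD (m := 1449551462) true rfl hκ (SH.κ0 hκ (SH.hx1 hx).le (SH.hx2 hx').le) (SH.hx1 hx).le (SH.hx2 hx') (covB01).cov (covB53).cov hx hx' c_B05mm_113_s1 cutB_nil (noExt_B)

noncomputable def cut_B05mm_123_s1 : Cut := Cut.of [[⟨4, 0, 0, 1449551462⟩]]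

noncomputable def f_B05mm_123_s1 : ℕ → ℕ → ℕ → ℕ → Bool := onCell 1073741824 536870912 0 1230186008 740881858 40050571
    (rowF 2 false false false .npn 1 2 3 (qsf 536870912 536870912 0 1230186008 2) ndB0q1 ndB5q3 pcB2 cut_B05mm_123_s1 Ext.none)

def k0_B05mm_123_s1 : ∃ t, chk3 f_B05mm_123_s1 t 1 1 1 = true :=
  ⟨(b (l 5) (l 5)), by decide +kernel⟩

theorem c_B05mm_123_s1 : CertF 536870912 536870912 0 1230186008 740881858 40050571 false false false .npn 1 2 3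
    ndB0q1 ndB5q3 pcB2 cut_B05mm_123_s1 Ext.none :=
  certF2 (fam := false) (s1 := false) (s2 := false) (a := 1) (b := 2) (c := 3) (cn := .npn) (n1 := ndB0q1) (n2 := ndB5q3) (pc := pcB2) (cut := cut_B05mm_123_s1) (xt := Ext.none) (P1 := 536870912) (W1 := 536870912) (P2 := 0) (W2 := 1230186008) (P3 := 740881858) (W3 := 40050571)
    rfl (fun _ => rfl) k0_B05mm_123_s1

theorem s_B05mm_123_s1 {κ x : ℝ} (hκ : κ * h0 = ken x) (hx : ((740881858 : ℕ) : ℝ) / S ≤ x)
    (hx' : x ≤ (((740881858 : ℕ) : ℝ) + (40050571 : ℕ)) / S) :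
    AltB (VFD κ) PP tK tL pcB [⟨3, 0, 0, 1449551462⟩] 1 2 3 0 5 (sgb false) (sgb false) x :=
  strip_altBD (m := 1449551462) true rfl hκ (SH.κ0 hκ (SH.hx1 hx).le (SH.hx2 hx').le) (SH.hx1 hx).le (SH.hx2 hx') (covB01).cov (covB53).cov hx hx' c_B05mm_123_s1 cutB_nil (noExt_B)

noncomputable def cut_B05mm_133_s1 : Cut := Cut.of [[⟨4, 0, 0, 1449551462⟩]]

noncomputable def f_B05mm_133_s1 : ℕ → ℕ → ℕ → ℕ → Bool := onCell 1610612736 536870912 0 1230186008 740881858 40050571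
    (rowF 2 false false false .dn 1 3 3 (qsf 536870912 536870912 0 1230186008 3) ndB0q1 ndB5q3 pcB3 cut_B05mm_133_s1 Ext.none)

def k0_B05mm_133_s1 : ∃ t, chk3 f_B05mm_133_s1 t 1 1 1 = true :=
  ⟨(l 5), by decide +kernel⟩

theorem c_B05mm_133_s1 : CertF 536870912 536870912 0 1230186008 740881858 40050571 false false false .dn 1 3 3
    ndB0q1 ndB5q3 pcB3 cut_B05mm_133_s1 Ext.none :=
  certF2 (fam := false) (s1 := false) (s2 := false) (a := 1) (b := 3) (c := 3) (cn := .dn) (n1 := ndB0q1) (n2 := ndB5q3) (pc := pcB3) (cut := cut_B05mm_133_s1) (xt := Ext.none) (P1 := 536870912) (W1 := 536870912) (P2 := 0) (W2 := 1230186008) (P3 := 740881858) (W3 := 40050571)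
    rfl (fun _ => rfl) k0_B05mm_133_s1

theorem s_B05mm_133_s1 {κ x : ℝ} (hκ : κ * h0 = ken x) (hx : ((740881858 : ℕ) : ℝ) / S ≤ x)
    (hx' : x ≤ (((740881858 : ℕ) : ℝ) + (40050571 : ℕ)) / S) :
    AltB (VFD κ) PP tK tL pcB [⟨3, 0, 0, 1449551462⟩] 1 3 3 0 5 (sgb false) (sgb false) x :=
  strip_altBD (m := 1449551462) true rfl hκ (SH.κ0 hκ (SH.hx1 hx).le (SH.hx2 hx').le) (SH.hx1 hx).le (SH.hx2 hx') (covB01).cov (covB53).cov hx hx' c_B05mm_133_s1 cutB_nil (noExt_B)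

noncomputable def cut_B05mm_202_s1 : Cut := Cut.of [[⟨4, 0, 0, 1449551462⟩], [⟨0, 1, 0, 67108864⟩, ⟨1, 0, 0, 67108864⟩, ⟨2, 1, 0, 67108864⟩]]

noncomputable def xt_B05mm_202_s1 : Ext := strExt dd false false false .u2 .s2m .u0m .pp 2 0 2 rfl rfl gf0 vv ndB0q2 ndB5q2

noncomputable def f_B05mm_202_s1 : ℕ → ℕ → ℕ → ℕ → Bool := onCell 0 536870912 0 536870912 740881858 40050571
    (rowF 1 false false false .pp 2 0 2 (qsf 0 536870912 1073741824 536870912 0) ndB0q2 ndB5q2 pcB0 cut_B05mm_202_s1 xt_B05mm_202_s1)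

def k0_B05mm_202_s1 : ∃ t, chk3 f_B05mm_202_s1 t 2 1 1 = true :=
  ⟨(b (b (a (l 6) (b (a (l 6) (b (l 6) (a (l 6) (l 16462224)))) (a (b (l 6) (l 16504752)) (b (l 16499432) (l 16376360))))) (a (b (l 6) (a (l 6) (b (l 16407048) (a (l 6) (l 16616024))))) (b (a (b (l 16544624) (l 16496384)) (b (a (l 16575984) (l 16641832)) (a (b (l 16603112) (l 16620032)) (b (l 16625256) (l 16642040))))) (a (b (a (l 16518968) (l 16623080)) (a (l 16467160) (l 16655000))) (b (a (l 16665216) (l 16666360)) (a (l 16675944) (b (l 16606152) (a (l 16699600) (l 16711296))))))))) (b (a (b (b (a (l 6) (a (l 16628368) (l 16562120))) (a (l 16589376) (a (l 16654824) (l 16672360)))) (a (b (l 16656416) (l 16679848)) (b (l 16687384) (a (l 16701440) (l 234176053255))))) (b (a (b (l 16674944) (a (l 16691160) (a (l 16621896) (l 16716464)))) (b (a (b (l 16614392) (l 16649752)) (b (l 16762400) (l 16776744))) (a (b (l 16726280) (l 16738928)) (a (b (l 16742632)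 (l 533562383)) (l 533191439))))) (a (a (b (b (l 16708976) (l 16720456)) (l 180489249911)) (a (b (l 16729712) (l 197132265927)) (b (b (l 16734464) (l 16745312)) (l 534269455)))) (a (b (b (b (l 16747824) (l 16795328)) (a (l 16755824) (l 534014479))) (l 534167823)) (b (a (b (l 533772303) (a (l 533947663) (l 533923855))) (b (l 533483023) (l 3))) (a (b (l 534003983) (l 3)) (l 3))))))) (a (l 2) (a (l 2) (a (l 2) (l 3)))))), by decide +kernel⟩

def k1_B05mm_202_s1 : ∃ t, chk3 f_B05mm_202_s1 t 6 4 1 = true :=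
  ⟨(b (a (b (b (a (l 16431888) (l 16468152)) (l 16389704)) (a (l 16492272) (l 16526848))) (b (a (l 16438096) (b (l 16554464) (l 16578408))) (a (l 16482136) (b (l 16599984) (l 16620176))))) (a (b (a (l 16537160) (l 16569264)) (a (l 16581344) (b (l 16602072) (a (l 16616408) (l 16632808))))) (a (b (b (l 16596448) (b (l 16611736) (l 16622472))) (b (a (l 16628976) (l 16646712)) (a (l 16649920) (l 16668616)))) (b (b (a (l 16627960) (b (l 16646736) (l 16656616))) (a (l 16563840) (b (l 16665144) (l 16675048)))) (b (a (l 16667384) (b (l 16684792) (l 16695024))) (a (b (l 16683088) (l 16694208)) (a (b (l 16699712) (l 16710160)) (b (l 16711088) (l 16721808))))))))), by decide +kernel⟩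

def k2_B05mm_202_s1 : ∃ t, chk3 f_B05mm_202_s1 t 7 8 1 = true :=
  ⟨(a (b (a (b (l 16689144) (l 16545544)) (b (a (l 16643488) (b (l 14) (l 16674560))) (l 16711488))) (a (b (a (l 16638080) (l 16664352)) (a (l 16703552) (b (l 16682616) (l 16688648)))) (a (b (b (l 16684520) (l 16781600)) (b (a (l 16698456) (l 16710064)) (l 16713200))) (b (b (a (l 16703192) (l 16759576)) (a (l 16629096) (l 16724784))) (b (a (l 16722120) (l 16692280)) (a (l 16689488) (b (l 16719544) (l 16786728)))))))) (b (a (b (l 14) (a (b (l 14) (a (l 16719584) (b (l 14) (l 16690000)))) (l 14))) (l 14)) (a (a (b (a (b (b (l 16724920) (l 16729704)) (b (l 16734184) (l 16738840))) (b (l 16718128) (a (l 16745576) (a (l 16749696) (l 16752512))))) (a (b (b (l 16722400) (a (l 16744680) (l 16750792))) (l 16765312)) (l 529630991))) (b (a (b (b (a (l 16745776) (l 14)) (a (l 16729576) (b (l 16755144) (l 16757640)))) (a (b (l 16733872) (l 16759728)) (l 529630735)))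 (a (b (b (l 14) (l 529647119)) (l 529559055)) (l 529491727))) (a (a (l 528730895) (l 529462287)) (a (l 529387023) (l 3))))) (b (a (a (b (l 14) (a (l 529410319) (l 3))) (l 3)) (l 3)) (l 3))))), by decide +kernel⟩

def k3_B05mm_202_s1 : ∃ t, chk3 f_B05mm_202_s1 t 7 9 1 = true :=
  ⟨(a (a (b (a (b (b (l 16672232) (l 16680696)) (l 16778616)) (b (b (l 16697528) (l 16706256)) (b (a (l 16709040) (l 16763712)) (a (l 16718616) (b (l 16728296) (l 16733472)))))) (a (b (b (a (l 16702824) (l 16715568)) (a (l 16712920) (l 16725416))) (a (l 529967119) (l 529944847))) (a (b (b (l 16727992) (l 16738416)) (l 529949711)) (b (l 529839631) (l 529943567))))) (b (a (b (b (a (l 16715848) (l 16686392)) (a (l 16725032) (b (l 16734408) (l 16739208)))) (a (b (b (l 16731256) (l 16736272)) (l 16785552)) (l 529769487))) (b (a (b (a (l 16694872) (l 16742720)) (l 529809679)) (l 529763343)) (a (l 529974543) (l 529634063)))) (a (b (a (l 529809679)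 (l 529765903)) (l 530163983)) (a (b (l 529975567) (l 3)) (l 3))))) (b (a (a (a (b (l 529621775) (l 529499407)) (b (l 529469199) (l 3))) (l 3)) (l 3)) (l 3))), by decide +kernel⟩

def k4_B05mm_202_s1 : ∃ t, chk3 f_B05mm_202_s1 t 3 5 1 = true :=
  ⟨(a (b (a (b (a (b (l 16614184) (l 16633232)) (b (l 16561272) (l 16665696))) (a (l 16660336) (b (l 16684728) (a (l 16609664) (l 16710728))))) (b (a (b (a (l 16672032) (l 16606664)) (a (l 16608624) (l 16731368))) (b (a (a (l 16642056) (b (l 16709912) (l 16720424))) (b (l 16768472) (l 16736792))) (a (l 16751296) (l 530440719)))) (a (a (b (l 16710952) (l 16728800)) (b (l 16729536) (l 531297295))) (a (l 530931215) (l 530635791))))) (a (b (a (b (l 16685432) (l 16722072)) (a (b (l 16646736) (l 16725560)) (l 531811087))) (a (a (b (l 16709304) (l 16724656)) (b (l 16640592) (l 16739832))) (a (b (l 16741208) (l 532048655)) (l 531860751)))) (a (b (a (b (l 531676175) (l 531651599)) (b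 (l 531386383) (l 531455503))) (a (l 531684879) (l 3))) (b (b (l 530889743) (l 3)) (l 3))))) (b (a (a (b (a (b (a (l 530052367) (a (l 530042383) (l 530047247))) (a (b (l 530267919) (l 530296079)) (l 530151183))) (b (l 530053647) (l 531771151))) (a (a (l 531777551) (l 3)) (l 3))) (l 3)) (l 3)) (l 3))), by decide +kernel⟩

def k5_B05mm_202_s1 : ∃ t, chk3 f_B05mm_202_s1 t 3 3 1 = true :=
  ⟨(a (b (a (b (a (b (a (b (l 16739688) (l 532672271)) (b (l 532279567) (l 532327695))) (b (l 532650255) (l 532806415))) (b (a (b (l 532081167) (l 532120335)) (b (l 531909391) (l 3))) (l 3))) (l 3)) (l 3)) (l 3)) (l 3)), by decide +kernel⟩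

theorem t6_B05mm_202_s1 : ∃ t, chk3 f_B05mm_202_s1 t 7 4 1 = true := ex3_b k2_B05mm_202_s1 k3_B05mm_202_s1

theorem t7_B05mm_202_s1 : ∃ t, chk3 f_B05mm_202_s1 t 3 4 1 = true := ex3_a k1_B05mm_202_s1 t6_B05mm_202_s1

theorem t8_B05mm_202_s1 : ∃ t, chk3 f_B05mm_202_s1 t 3 2 1 = true := ex3_b t7_B05mm_202_s1 k4_B05mm_202_s1

theorem t9_B05mm_202_s1 : ∃ t, chk3 f_B05mm_202_s1 t 3 1 1 = true := ex3_b t8_B05mm_202_s1 k5_B05mm_202_s1

theorem t10_B05mm_202_s1 : ∃ t, chk3 f_B05mm_202_s1 t 1 1 1 = true := ex3_a k0_B05mm_202_s1 t9_B05mm_202_s1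

theorem c_B05mm_202_s1 : CertF 0 536870912 1073741824 536870912 740881858 40050571 false false false .pp 2 0 2
    ndB0q2 ndB5q2 pcB0 cut_B05mm_202_s1 xt_B05mm_202_s1 :=
  certF1 (fam := false) (s1 := false) (s2 := false) (a := 2) (b := 0) (c := 2) (cn := .pp) (n1 := ndB0q2) (n2 := ndB5q2) (pc := pcB0) (cut := cut_B05mm_202_s1) (xt := xt_B05mm_202_s1) (P1 := 0) (W1 := 536870912) (P2 := 1073741824) (W2 := 536870912) (P3 := 740881858) (W3 := 40050571)
    rfl (fun _ => rfl) t10_B05mm_202_s1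

theorem s_B05mm_202_s1 {κ x : ℝ} (hκ : κ * h0 = ken x) (hx : ((740881858 : ℕ) : ℝ) / S ≤ x)
    (hx' : x ≤ (((740881858 : ℕ) : ℝ) + (40050571 : ℕ)) / S)
    (H : CutB (VFD κ) PP tK tL pcB (Cut.of [[⟨0, 1, 0, 67108864⟩, ⟨1, 0, 0, 67108864⟩, ⟨2, 1, 0, 67108864⟩]]) 2 0 2 0 5 (sgb false) (sgb false) x) :
    AltB (VFD κ) PP tK tL pcB [⟨3, 0, 0, 1449551462⟩] 2 0 2 0 5 (sgb false) (sgb false) x :=
  strip_altBD (m := 1449551462) true rfl hκ (SH.κ0 hκ (SH.hx1 hx).le (SH.hx2 hx').le) (SH.hx1 hx).le (SH.hx2 hx') (covB02).cov (covB52).cov hx hx' c_B05mm_202_s1 H ((okx hx hx').extB (T := tt) (sideB hx hx') hκ rfl rfl (.O 2 false) (.N 2 false) (Or.inl rfl))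

noncomputable def cut_B05mm_203_s1 : Cut := Cut.of [[⟨4, 0, 0, 1449551462⟩]]

noncomputable def xt_B05mm_203_s1 : Ext := strExt dd false false false .u2 .s2m .u0m .up 2 0 3 rfl rfl gf0 vv ndB0q2 ndB5q3

noncomputable def f_B05mm_203_s1 : ℕ → ℕ → ℕ → ℕ → Bool := onCell 0 536870912 0 1230186008 740881858 40050571
    (rowF 0 false false false .up 2 0 3 (qsf 0 536870912 0 1230186008 0) ndB0q2 ndB5q3 pcB0 cut_B05mm_203_s1 xt_B05mm_203_s1)

def k0_B05mm_203_s1 : ∃ t, chk3 f_B05mm_203_s1 t 1 1 1 = true :=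
  ⟨(b (l 2) (b (l 2) (a (a (b (b (l 2) (b (l 2) (a (a (l 16755512) (b (l 302895833719) (l 16762160))) (a (a (l 535548943) (b (l 535479311) (l 535302671))) (l 3))))) (b (a (a (b (l 16740984) (l 16722784)) (b (l 16751768) (l 16734984))) (a (b (b (a (l 16764048) (l 535243023)) (l 16760584)) (l 16748672)) (b (a (l 535144975) (l 535095311)) (l 534994703)))) (a (b (a (l 16701248) (l 16714464)) (l 16683208)) (a (b (l 16729672) (l 16706416)) (b (l 534831887) (b (l 16731544) (l 16719568))))))) (b (l 3) (b (a (a (b (l 3) (l 534887439)) (l 3)) (l 3)) (a (b (a (l 534719247) (a (l 534619919) (l 3))) (a (b (l 16762088) (l 16740528)) (b (a (l 534476815) (l 536007951)) (a (l 16757024) (l 534326287))))) (a (b (l 3) (b (l 3) (l 534252047))) (l 3)))))) (l 3)))), by decide +kernel⟩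

theorem c_B05mm_203_s1 : CertF 0 536870912 0 1230186008 740881858 40050571 false false false .up 2 0 3
    ndB0q2 ndB5q3 pcB0 cut_B05mm_203_s1 xt_B05mm_203_s1 :=
  certF0 (fam := false) (s1 := false) (s2 := false) (a := 2) (b := 0) (c := 3) (cn := .up) (n1 := ndB0q2) (n2 := ndB5q3) (pc := pcB0) (cut := cut_B05mm_203_s1) (xt := xt_B05mm_203_s1) (P1 := 0) (W1 := 536870912) (P2 := 0) (W2 := 1230186008) (P3 := 740881858) (W3 := 40050571)
    rfl k0_B05mm_203_s1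

theorem s_B05mm_203_s1 {κ x : ℝ} (hκ : κ * h0 = ken x) (hx : ((740881858 : ℕ) : ℝ) / S ≤ x)
    (hx' : x ≤ (((740881858 : ℕ) : ℝ) + (40050571 : ℕ)) / S) :
    AltB (VFD κ) PP tK tL pcB [⟨3, 0, 0, 1449551462⟩] 2 0 3 0 5 (sgb false) (sgb false) x :=
  strip_altBD (m := 1449551462) true rfl hκ (SH.κ0 hκ (SH.hx1 hx).le (SH.hx2 hx').le) (SH.hx1 hx).le (SH.hx2 hx') (covB02).cov (covB53).cov hx hx' c_B05mm_203_s1 cutB_nil ((okx hx hx').extB (T := tt) (sideB hx hx') hκ rfl rfl (.O 2 false) (.N 3 false) (Or.inl rfl))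

noncomputable def cut_B05mm_213_s1 : Cut := Cut.of [[⟨4, 0, 0, 1449551462⟩]]

noncomputable def xt_B05mm_213_s1 : Ext := strExt dd false false false .u2 .s2m .u0m .pnn 2 1 3 rfl rfl gf1 vv ndB0q2 ndB5q3

noncomputable def f_B05mm_213_s1 : ℕ → ℕ → ℕ → ℕ → Bool := onCell 0 536870912 0 1230186008 740881858 40050571
    (rowF 0 false false false .pnn 2 1 3 (qsf 0 536870912 0 1230186008 1) ndB0q2 ndB5q3 pcB1 cut_B05mm_213_s1 xt_B05mm_213_s1)

def k0_B05mm_213_s1 : ∃ t, chk3 f_B05mm_213_s1 t 1 1 1 = true :=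
  ⟨(b (a (l 3) (b (l 5) (l 3))) (b (b (l 3) (b (l 3) (a (l 3) (l 3)))) (a (a (b (a (b (a (l 535288847) (b (l 3) (l 535317007))) (b (a (b (l 16758296) (l 16749088)) (a (l 535047439) (l 535056143))) (a (l 16730744) (b (a (l 16755000) (l 534892559)) (l 1))))) (b (l 3) (a (b (b (l 3) (a (l 535179791) (l 3))) (b (l 535095055) (l 1))) (b (l 3) (l 3))))) (l 1)) (b (l 3) (b (a (l 1) (l 3)) (l 1)))) (l 3)))), by decide +kernel⟩

theorem c_B05mm_213_s1 : CertF 0 536870912 0 1230186008 740881858 40050571 false false false .pnn 2 1 3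
    ndB0q2 ndB5q3 pcB1 cut_B05mm_213_s1 xt_B05mm_213_s1 :=
  certF0 (fam := false) (s1 := false) (s2 := false) (a := 2) (b := 1) (c := 3) (cn := .pnn) (n1 := ndB0q2) (n2 := ndB5q3) (pc := pcB1) (cut := cut_B05mm_213_s1) (xt := xt_B05mm_213_s1) (P1 := 0) (W1 := 536870912) (P2 := 0) (W2 := 1230186008) (P3 := 740881858) (W3 := 40050571)
    rfl k0_B05mm_213_s1

theorem s_B05mm_213_s1 {κ x : ℝ} (hκ : κ * h0 = ken x) (hx : ((740881858 : ℕ) : ℝ) / S ≤ x)
    (hx' : x ≤ (((740881858 : ℕ) : ℝ) + (40050571 : ℕ)) / S) :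
    AltB (VFD κ) PP tK tL pcB [⟨3, 0, 0, 1449551462⟩] 2 1 3 0 5 (sgb false) (sgb false) x :=
  strip_altBD (m := 1449551462) true rfl hκ (SH.κ0 hκ (SH.hx1 hx).le (SH.hx2 hx').le) (SH.hx1 hx).le (SH.hx2 hx') (covB02).cov (covB53).cov hx hx' c_B05mm_213_s1 cutB_nil ((okx hx hx').extB (T := tt) (sideB hx hx') hκ rfl rfl (.O 2 false) (.N 3 false) (Or.inr rfl))

noncomputable def cut_B50pp_001_s1 : Cut := Cut.of [[⟨4, 0, 0, 1449551462⟩]]

noncomputable def xt_B50pp_001_s1 : Ext := strExt dd false true true .s0 .u0 .u0m .up 0 0 1 rfl rfl gf0 vv ndB5q0 ndB0q1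

noncomputable def f_B50pp_001_s1 : ℕ → ℕ → ℕ → ℕ → Bool := onCell 0 536870912 536870912 536870912 740881858 40050571
    (rowF 2 false true true .up 0 0 1 (qsf 0 536870912 536870912 536870912 0) ndB5q0 ndB0q1 pcB0 cut_B50pp_001_s1 xt_B50pp_001_s1)

def k0_B50pp_001_s1 : ∃ t, chk3 f_B50pp_001_s1 t 1 1 1 = true :=
  ⟨(a (b (l 3) (b (b (l 3) (l 2)) (l 2))) (b (a (l 3) (b (l 3) (b (a (l 3) (b (a (l 3) (a (l 3) (b (l 3) (l 528252175)))) (a (b (l 3) (l 526183951)) (b (a (c (b (l 3) (l 527085839)) (l 526966543)) (b (l 527866127) (a (l 527355919) (l 527776783)))) (a (l 526885135) (a (l 527250447) (l 527608335))))))) (a (a (b (l 3) (b (l 526866959) (a (l 527192079) (l 527163407)))) (l 528096015)) (a (l 527913999) (a (b (l 526656271) (l 527309583)) (b (l 527192591) (l 16735624)))))))) (b (a (b (a (a (l 3) (b (l 3) (b (l 3) (l 527976719)))) (a (b (l 3) (b (a (l 528588303) (b (l 528648207) (l 528769807))) (l 528496655))) (b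 (l 527960591) (b (a (l 529216783) (l 528424463)) (a (l 528609807) (l 16711472)))))) (a (a (l 2) (b (b (l 527862543) (l 2)) (l 2))) (a (b (b (l 528315919) (l 528205583)) (b (l 137539510615) (l 2))) (b (b (l 528508431) (a (l 16672768) (l 16568688))) (a (l 16626232) (l 16605944)))))) (a (b (b (a (c (l 528855055) (l 528590863)) (b (l 527588879) (l 527971087))) (b (a (l 528332047) (l 16748408)) (a (l 530166031) (l 16723720)))) (a (a (b (l 16731280) (l 16585192)) (b (l 16627048) (l 16481448))) (b (l 16597088) (l 16536680)))) (b (b (a (l 529218319) (l 16700400)) (a (l 16695984) (l 16573664))) (b (a (b (l 16573528) (l 16544024)) (l 16522752)) (a (l 16499248) (l 16463616)))))) (a (b (a (l 2) (b (a (l 2) (l 163845951975)) (l 2))) (l 2)) (b (a (b (a (l 16515352) (l 16476896)) (l 16475168)) (b (l 16443640) (l 16445968))) (a (b (l 16378072) (l 2)) (b (a (l 16329504) (l 6)) (l 6)))))))), by decide +kernel⟩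

theorem c_B50pp_001_s1 : CertF 0 536870912 536870912 536870912 740881858 40050571 false true true .up 0 0 1
    ndB5q0 ndB0q1 pcB0 cut_B50pp_001_s1 xt_B50pp_001_s1 :=
  certF2 (fam := false) (s1 := true) (s2 := true) (a := 0) (b := 0) (c := 1) (cn := .up) (n1 := ndB5q0) (n2 := ndB0q1) (pc := pcB0) (cut := cut_B50pp_001_s1) (xt := xt_B50pp_001_s1) (P1 := 0) (W1 := 536870912) (P2 := 536870912) (W2 := 536870912) (P3 := 740881858) (W3 := 40050571)
    rfl (fun _ => rfl) k0_B50pp_001_s1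

theorem s_B50pp_001_s1 {κ x : ℝ} (hκ : κ * h0 = ken x) (hx : ((740881858 : ℕ) : ℝ) / S ≤ x)
    (hx' : x ≤ (((740881858 : ℕ) : ℝ) + (40050571 : ℕ)) / S) :
    AltB (VFD κ) PP tK tL pcB [⟨3, 0, 0, 1449551462⟩] 0 0 1 5 0 (sgb true) (sgb true) x :=
  strip_altBD (m := 1449551462) true rfl hκ (SH.κ0 hκ (SH.hx1 hx).le (SH.hx2 hx').le) (SH.hx1 hx).le (SH.hx2 hx') (covB50).cov (covB01).cov hx hx' c_B50pp_001_s1 cutB_nil ((okx hx hx').extB (T := tt) (sideB hx hx') hκ rfl rfl (.N 0 true) (.O 1 true) (Or.inl rfl))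

noncomputable def cut_B50pp_011_s1 : Cut := Cut.of [[⟨4, 0, 0, 1449551462⟩]]

noncomputable def xt_B50pp_011_s1 : Ext := strExt dd false true true .s0 .u0 .u0m .pnn 0 1 1 rfl rfl gf1 vv ndB5q0 ndB0q1

noncomputable def f_B50pp_011_s1 : ℕ → ℕ → ℕ → ℕ → Bool := onCell 536870912 536870912 536870912 536870912 740881858 40050571
    (rowF 2 false true true .pnn 0 1 1 (qsf 0 536870912 536870912 536870912 1) ndB5q0 ndB0q1 pcB1 cut_B50pp_011_s1 xt_B50pp_011_s1)

def k0_B50pp_011_s1 : ∃ t, chk3 f_B50pp_011_s1 t 1 1 1 = true :=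
  ⟨(a (b (a (b (a (b (l 3) (a (a (l 3) (l 528112399)) (l 528478991))) (b (b (l 1) (a (l 529013519) (l 1))) (a (l 528884495) (l 529286671)))) (b (a (b (a (a (b (c (l 529487119) (l 527399695)) (l 527213071)) (b (l 528153871) (c (l 528151823) (l 527689487)))) (b (l 528515087) (a (l 528268559) (l 16755976)))) (a (b (a (l 528056591) (l 527467791)) (a (b (l 526387471) (l 16750632)) (l 16781312))) (b (a (l 16749168) (l 16689912)) (c (l 16757792) (l 16753280))))) (b (a (b (l 528924431) (l 16771912)) (l 529166863)) (a (b (l 16664664) (l 16639104)) (l 16702968)))) (a (a (a (b (b (l 526082831) (l 16652968)) (l 16675280)) (b (c (l 16738488) (l 16733688)) (l 16674784))) (b (b (l 16727080) (l 16613080)) (l 16731064))) (b (a (l 16681992) (l 16567920)) (a (l 16537360) (l 16509968)))))) (a (b (b (l 1) (a (a (l 529586191) (l 1)) (l 1))) (a (b (b (l 16713792) (l 16584504)) (b (l 16535848) (l 16482632))) (b (b (l 16601144) (l 16550272))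 (b (l 16500104) (l 16450920))))) (b (l 1) (b (b (l 1) (a (l 16523712) (l 1))) (b (l 16542592) (l 16400760)))))) (b (a (b (a (b (a (l 16635016) (l 16511352)) (a (l 16586480) (l 16468616))) (b (a (l 16470376) (l 16446752)) (l 16494592))) (a (b (a (l 16448808) (l 16415456)) (l 16455168)) (b (l 16361712) (l 16304744)))) (b (b (a (l 16408144) (l 16347432)) (a (l 16341392) (l 16293176))) (a (b (l 16282328) (l 6)) (l 6)))) (a (b (a (b (l 16395144) (l 16332912)) (b (l 6) (l 6))) (l 6)) (l 6)))) (b (a (b (l 1) (a (b (l 1) (b (l 1) (l 16359736))) (l 1))) (l 1)) (b (a (b (l 6) (l 6)) (l 6)) (l 6)))), by decide +kernel⟩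

theorem c_B50pp_011_s1 : CertF 0 536870912 536870912 536870912 740881858 40050571 false true true .pnn 0 1 1
    ndB5q0 ndB0q1 pcB1 cut_B50pp_011_s1 xt_B50pp_011_s1 :=
  certF2 (fam := false) (s1 := true) (s2 := true) (a := 0) (b := 1) (c := 1) (cn := .pnn) (n1 := ndB5q0) (n2 := ndB0q1) (pc := pcB1) (cut := cut_B50pp_011_s1) (xt := xt_B50pp_011_s1) (P1 := 0) (W1 := 536870912) (P2 := 536870912) (W2 := 536870912) (P3 := 740881858) (W3 := 40050571)
    rfl (fun _ => rfl) k0_B50pp_011_s1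

theorem s_B50pp_011_s1 {κ x : ℝ} (hκ : κ * h0 = ken x) (hx : ((740881858 : ℕ) : ℝ) / S ≤ x)
    (hx' : x ≤ (((740881858 : ℕ) : ℝ) + (40050571 : ℕ)) / S) :
    AltB (VFD κ) PP tK tL pcB [⟨3, 0, 0, 1449551462⟩] 0 1 1 5 0 (sgb true) (sgb true) x :=
  strip_altBD (m := 1449551462) true rfl hκ (SH.κ0 hκ (SH.hx1 hx).le (SH.hx2 hx').le) (SH.hx1 hx).le (SH.hx2 hx') (covB50).cov (covB01).cov hx hx' c_B50pp_011_s1 cutB_nil ((okx hx hx').extB (T := tt) (sideB hx hx') hκ rfl rfl (.N 0 true) (.O 1 true) (Or.inr rfl))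

noncomputable def cut_B50pp_012_s1 : Cut := Cut.of [[⟨4, 0, 0, 1449551462⟩]]

noncomputable def f_B50pp_012_s1 : ℕ → ℕ → ℕ → ℕ → Bool := onCell 0 536870912 0 536870912 740881858 40050571
    (rowF 0 false true true .pnp 0 1 2 (qsf 0 536870912 0 536870912 1) ndB5q0 ndB0q2 pcB1 cut_B50pp_012_s1 Ext.none)

def k0_B50pp_012_s1 : ∃ t, chk3 f_B50pp_012_s1 t 1 1 1 = true :=
  ⟨(a (l 6) (l 6)), by decide +kernel⟩

theorem c_B50pp_012_s1 : CertF 0 536870912 0 536870912 740881858 40050571 false true true .pnp 0 1 2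
    ndB5q0 ndB0q2 pcB1 cut_B50pp_012_s1 Ext.none :=
  certF0 (fam := false) (s1 := true) (s2 := true) (a := 0) (b := 1) (c := 2) (cn := .pnp) (n1 := ndB5q0) (n2 := ndB0q2) (pc := pcB1) (cut := cut_B50pp_012_s1) (xt := Ext.none) (P1 := 0) (W1 := 536870912) (P2 := 0) (W2 := 536870912) (P3 := 740881858) (W3 := 40050571)
    rfl k0_B50pp_012_s1

theorem s_B50pp_012_s1 {κ x : ℝ} (hκ : κ * h0 = ken x) (hx : ((740881858 : ℕ) : ℝ) / S ≤ x)
    (hx' : x ≤ (((740881858 : ℕ) : ℝ) + (40050571 : ℕ)) / S) :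
    AltB (VFD κ) PP tK tL pcB [⟨3, 0, 0, 1449551462⟩] 0 1 2 5 0 (sgb true) (sgb true) x :=
  strip_altBD (m := 1449551462) true rfl hκ (SH.κ0 hκ (SH.hx1 hx).le (SH.hx2 hx').le) (SH.hx1 hx).le (SH.hx2 hx') (covB50).cov (covB02).cov hx hx' c_B50pp_012_s1 cutB_nil (noExt_B)

noncomputable def cut_B50pp_022_s1 : Cut := Cut.of [[⟨4, 0, 0, 1449551462⟩]]

noncomputable def f_B50pp_022_s1 : ℕ → ℕ → ℕ → ℕ → Bool := onCell 1073741824 536870912 0 536870912 740881858 40050571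
    (rowF 2 false true true .pp 0 2 2 (qsf 0 536870912 0 536870912 2) ndB5q0 ndB0q2 pcB2 cut_B50pp_022_s1 Ext.none)

def k0_B50pp_022_s1 : ∃ t, chk3 f_B50pp_022_s1 t 1 1 1 = true :=
  ⟨(l 6), by decide +kernel⟩

theorem c_B50pp_022_s1 : CertF 0 536870912 0 536870912 740881858 40050571 false true true .pp 0 2 2
    ndB5q0 ndB0q2 pcB2 cut_B50pp_022_s1 Ext.none :=
  certF2 (fam := false) (s1 := true) (s2 := true) (a := 0) (b := 2) (c := 2) (cn := .pp) (n1 := ndB5q0) (n2 := ndB0q2) (pc := pcB2) (cut := cut_B50pp_022_s1) (xt := Ext.none) (P1 := 0) (W1 := 536870912) (P2 := 0) (W2 := 536870912) (P3 := 740881858) (W3 := 40050571)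
    rfl (fun _ => rfl) k0_B50pp_022_s1

theorem s_B50pp_022_s1 {κ x : ℝ} (hκ : κ * h0 = ken x) (hx : ((740881858 : ℕ) : ℝ) / S ≤ x)
    (hx' : x ≤ (((740881858 : ℕ) : ℝ) + (40050571 : ℕ)) / S) :
    AltB (VFD κ) PP tK tL pcB [⟨3, 0, 0, 1449551462⟩] 0 2 2 5 0 (sgb true) (sgb true) x :=
  strip_altBD (m := 1449551462) true rfl hκ (SH.κ0 hκ (SH.hx1 hx).le (SH.hx2 hx').le) (SH.hx1 hx).le (SH.hx2 hx') (covB50).cov (covB02).cov hx hx' c_B50pp_022_s1 cutB_nil (noExt_B)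

noncomputable def cut_B50pp_101_s1 : Cut := Cut.of [[⟨4, 0, 0, 1449551462⟩], [⟨0, 1, 0, 67108864⟩, ⟨1, 0, 0, 67108864⟩, ⟨2, 1, 0, 67108864⟩]]

noncomputable def xt_B50pp_101_s1 : Ext := strExt dd false true true .s0 .u0 .u0m .npn 1 0 1 rfl rfl gf0 vv ndB5q1 ndB0q1

noncomputable def f_B50pp_101_s1 : ℕ → ℕ → ℕ → ℕ → Bool := onCell 0 536870912 536870912 536870912 740881858 40050571
    (rowF 2 false true true .npn 1 0 1 (qsf 536870912 536870912 536870912 536870912 0) ndB5q1 ndB0q1 pcB0 cut_B50pp_101_s1 xt_B50pp_101_s1)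

def k0_B50pp_101_s1 : ∃ t, chk3 f_B50pp_101_s1 t 2 2 1 = true :=
  ⟨(l 3), by decide +kernel⟩

def k1_B50pp_101_s1 : ∃ t, chk3 f_B50pp_101_s1 t 2 6 1 = true :=
  ⟨(b (l 3) (a (l 3) (a (l 3) (b (l 3) (a (a (l 3) (l 527657231)) (l 527632655)))))), by decide +kernel⟩

def k2_B50pp_101_s1 : ∃ t, chk3 f_B50pp_101_s1 t 4 7 1 = true :=
  ⟨(b (b (l 3) (a (l 3) (a (l 3) (b (l 3) (l 527565327))))) (a (b (b (l 3) (a (l 3) (a (l 3) (l 529315599)))) (b (a (b (l 3) (l 14)) (a (a (b (l 3) (l 528799247)) (b (l 527823119) (l 528761103))) (a (l 528591119) (l 528557071)))) (a (l 14) (b (b (a (a (l 14) (l 16766512)) (a (a (l 16748112) (l 16742584)) (l 16713672))) (a (l 14) (l 16741144))) (a (l 14) (b (l 16678616) (l 16710776))))))) (b (a (a (b (l 3) (l 528187663)) (b (a (l 3) (l 527901711)) (l 528122383))) (b (a (l 527812879) (l 527827215)) (a (a (l 528065295) (l 528046863)) (a (l 528057615) (b (l 16719704) (l 16699752)))))) (b (b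 (a (a (l 527614735) (l 528349199)) (a (b (l 16671064) (l 16786848)) (b (l 16690632) (l 16680992)))) (a (a (b (l 16748600) (a (l 16733432) (l 16722656))) (a (b (l 16721192) (l 16711888)) (l 16705784))) (a (l 16688936) (l 16666488)))) (a (b (a (a (l 16698416) (l 16708112)) (l 16691600)) (a (l 16694072) (l 16672144))) (a (b (l 16669312) (l 16649976)) (l 16637344))))))), by decide +kernel⟩

def k3_B50pp_101_s1 : ∃ t, chk3 f_B50pp_101_s1 t 5 7 1 = true :=
  ⟨(b (a (b (a (l 3) (l 527347727)) (c (a (a (l 528237583) (b (l 527251215) (l 527545103))) (b (l 527681807) (l 527915535))) (a (b (a (l 3) (l 527267599)) (l 527517967)) (b (l 527735567) (l 527924495))))) (b (a (a (l 527793423) (l 528006415)) (b (l 528024079) (l 528309775))) (b (a (l 528149263) (l 528461583)) (a (l 528363279) (l 16676200))))) (a (b (a (b (a (l 527814671) (l 527806479)) (a (b (l 528015887) (a (l 16688352) (l 16676808))) (b (l 16762696) (l 16660072))))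 (b (a (l 529517071) (b (l 16676752) (l 16657648))) (a (b (l 16658016) (l 16638344)) (l 16628832)))) (b (a (b (l 16735312) (l 16632016)) (l 16598912)) (a (l 16687256) (l 16560128)))) (b (a (b (a (b (l 16657400) (l 16639424)) (l 16545840)) (a (l 16610120) (l 16592088))) (b (l 16495496) (l 16564648))) (a (b (l 16561896) (l 16522688)) (b (l 16527544) (l 16488552)))))), by decide +kernel⟩

def k4_B50pp_101_s1 : ∃ t, chk3 f_B50pp_101_s1 t 3 1 1 = true :=
  ⟨(b (a (l 3) (l 1)) (b (a (b (a (a (l 3) (b (l 3) (b (l 3) (l 527976719)))) (a (b (l 1) (b (l 1) (l 528496655))) (l 1))) (a (a (b (b (l 3) (l 528734735)) (a (l 527728143) (l 527541007))) (b (b (l 527862543) (l 527765007)) (b (l 527937039) (l 528069647)))) (a (b (b (l 528315919) (l 528205583)) (a (l 528255247) (l 16730296))) (b (b (l 1) (l 16704648)) (l 16668568))))) (a (a (b (l 1) (b (l 1) (l 16596160))) (l 1)) (l 1))) (a (b (a (b (a (b (l 528201487) (l 16659464)) (a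 (l 16728496) (l 16655672))) (a (b (l 16626208) (l 16593752)) (l 16611392))) (b (a (b (l 16610544) (l 16495272)) (l 16555312)) (a (l 16529288) (l 16490448)))) (a (b (a (l 16543992) (b (l 16521200) (l 16489864))) (a (l 16391008) (l 16440672))) (b (l 16491840) (l 16410936)))) (b (a (b (a (l 16431672) (l 16477080)) (l 16434040)) (b (l 1) (l 393558642503))) (a (b (l 16211704) (l 16242096)) (b (l 16313520) (l 6))))))), by decide +kernel⟩

theorem t5_B50pp_101_s1 : ∃ t, chk3 f_B50pp_101_s1 t 2 7 1 = true := ex3_a k2_B50pp_101_s1 k3_B50pp_101_s1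

theorem t6_B50pp_101_s1 : ∃ t, chk3 f_B50pp_101_s1 t 2 3 1 = true := ex3_b k1_B50pp_101_s1 t5_B50pp_101_s1

theorem t7_B50pp_101_s1 : ∃ t, chk3 f_B50pp_101_s1 t 2 1 1 = true := ex3_b k0_B50pp_101_s1 t6_B50pp_101_s1

theorem t8_B50pp_101_s1 : ∃ t, chk3 f_B50pp_101_s1 t 1 1 1 = true := ex3_a t7_B50pp_101_s1 k4_B50pp_101_s1

theorem c_B50pp_101_s1 : CertF 536870912 536870912 536870912 536870912 740881858 40050571 false true true .npn 1 0 1
    ndB5q1 ndB0q1 pcB0 cut_B50pp_101_s1 xt_B50pp_101_s1 :=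
  certF2 (fam := false) (s1 := true) (s2 := true) (a := 1) (b := 0) (c := 1) (cn := .npn) (n1 := ndB5q1) (n2 := ndB0q1) (pc := pcB0) (cut := cut_B50pp_101_s1) (xt := xt_B50pp_101_s1) (P1 := 536870912) (W1 := 536870912) (P2 := 536870912) (W2 := 536870912) (P3 := 740881858) (W3 := 40050571)
    rfl (fun _ => rfl) t8_B50pp_101_s1

theorem s_B50pp_101_s1 {κ x : ℝ} (hκ : κ * h0 = ken x) (hx : ((740881858 : ℕ) : ℝ) / S ≤ x)
    (hx' : x ≤ (((740881858 : ℕ) : ℝ) + (40050571 : ℕ)) / S)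
    (H : CutB (VFD κ) PP tK tL pcB (Cut.of [[⟨0, 1, 0, 67108864⟩, ⟨1, 0, 0, 67108864⟩, ⟨2, 1, 0, 67108864⟩]]) 1 0 1 5 0 (sgb true) (sgb true) x) :
    AltB (VFD κ) PP tK tL pcB [⟨3, 0, 0, 1449551462⟩] 1 0 1 5 0 (sgb true) (sgb true) x :=
  strip_altBD (m := 1449551462) true rfl hκ (SH.κ0 hκ (SH.hx1 hx).le (SH.hx2 hx').le) (SH.hx1 hx).le (SH.hx2 hx') (covB51).cov (covB01).cov hx hx' c_B50pp_101_s1 H ((okx hx hx').extB (T := tt) (sideB hx hx') hκ rfl rfl (.N 1 true) (.O 1 true) (Or.inl rfl))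

noncomputable def cut_B50pp_102_s1 : Cut := Cut.of [[⟨4, 0, 0, 1449551462⟩], [⟨0, 1, 0, 67108864⟩, ⟨1, 0, 0, 67108864⟩, ⟨2, 1, 0, 67108864⟩]]

noncomputable def f_B50pp_102_s1 : ℕ → ℕ → ℕ → ℕ → Bool := onCell 536870912 536870912 0 536870912 740881858 40050571
    (rowF 0 false true true .npp 1 0 2 (qsf 536870912 536870912 0 536870912 0) ndB5q1 ndB0q2 pcB0 cut_B50pp_102_s1 Ext.none)

def k0_B50pp_102_s1 : ∃ t, chk3 f_B50pp_102_s1 t 1 1 1 = true :=
  ⟨(a (b (l 6) (a (l 6) (b (l 6) (b (l 6) (a (b (l 6) (l 16336336)) (b (a (l 6) (l 16345512)) (a (a (l 16372344) (l 16385472)) (b (l 16389752) (l 16421064))))))))) (b (l 6) (a (b (l 6) (b (a (a (l 6) (b (l 6) (l 16318488))) (a (b (l 6) (l 16341536)) (b (l 16297928) (l 16454008)))) (a (b (a (l 16364184) (l 16386448)) (a (b (l 16414840) (l 16450240)) (b (l 16442744) (l 16482064)))) (b (a (a (l 16407888) (l 16423776)) (b (l 16427896) (l 16468968))) (a (b (a (l 16467504) (l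 16485056)) (l 16518616)) (b (l 16512936) (l 16559392))))))) (b (b (l 6) (a (a (l 6) (b (l 6) (l 16267128))) (a (l 16243904) (b (l 16213048) (l 16291176))))) (b (a (a (b (l 16322040) (l 16398464)) (b (l 16343488) (l 16426352))) (b (a (l 16363416) (a (l 16377096) (l 16385144))) (a (l 16536776) (a (l 16471528) (l 16566688))))) (b (a (a (l 16482424) (l 16684664)) (a (a (l 16625912) (l 16683896)) (a (a (l 16653584) (l 14)) (l 14)))) (a (a (b (l 16552408) (l 16686456)) (b (a (l 16582520) (l 16602216)) (l 16687432))) (a (b (a (l 16705312) (l 16723272)) (a (l 16718512) (l 14))) (l 14))))))))), by decide +kernel⟩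

theorem c_B50pp_102_s1 : CertF 536870912 536870912 0 536870912 740881858 40050571 false true true .npp 1 0 2
    ndB5q1 ndB0q2 pcB0 cut_B50pp_102_s1 Ext.none :=
  certF0 (fam := false) (s1 := true) (s2 := true) (a := 1) (b := 0) (c := 2) (cn := .npp) (n1 := ndB5q1) (n2 := ndB0q2) (pc := pcB0) (cut := cut_B50pp_102_s1) (xt := Ext.none) (P1 := 536870912) (W1 := 536870912) (P2 := 0) (W2 := 536870912) (P3 := 740881858) (W3 := 40050571)
    rfl k0_B50pp_102_s1

theorem s_B50pp_102_s1 {κ x : ℝ} (hκ : κ * h0 = ken x) (hx : ((740881858 : ℕ) : ℝ) / S ≤ x)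
    (hx' : x ≤ (((740881858 : ℕ) : ℝ) + (40050571 : ℕ)) / S)
    (H : CutB (VFD κ) PP tK tL pcB (Cut.of [[⟨0, 1, 0, 67108864⟩, ⟨1, 0, 0, 67108864⟩, ⟨2, 1, 0, 67108864⟩]]) 1 0 2 5 0 (sgb true) (sgb true) x) :
    AltB (VFD κ) PP tK tL pcB [⟨3, 0, 0, 1449551462⟩] 1 0 2 5 0 (sgb true) (sgb true) x :=
  strip_altBD (m := 1449551462) true rfl hκ (SH.κ0 hκ (SH.hx1 hx).le (SH.hx2 hx').le) (SH.hx1 hx).le (SH.hx2 hx') (covB51).cov (covB02).cov hx hx' c_B50pp_102_s1 H (noExt_B)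

noncomputable def cut_B50pp_112_s1 : Cut := Cut.of [[⟨4, 0, 0, 1449551462⟩]]

noncomputable def f_B50pp_112_s1 : ℕ → ℕ → ℕ → ℕ → Bool := onCell 536870912 536870912 0 536870912 740881858 40050571
    (rowF 2 false true true .dn 1 1 2 (qsf 536870912 536870912 0 536870912 1) ndB5q1 ndB0q2 pcB1 cut_B50pp_112_s1 Ext.none)

def k0_B50pp_112_s1 : ∃ t, chk3 f_B50pp_112_s1 t 1 1 1 = true :=
  ⟨(b (l 6) (l 6)), by decide +kernel⟩

theorem c_B50pp_112_s1 : CertF 536870912 536870912 0 536870912 740881858 40050571 false true true .dn 1 1 2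
    ndB5q1 ndB0q2 pcB1 cut_B50pp_112_s1 Ext.none :=
  certF2 (fam := false) (s1 := true) (s2 := true) (a := 1) (b := 1) (c := 2) (cn := .dn) (n1 := ndB5q1) (n2 := ndB0q2) (pc := pcB1) (cut := cut_B50pp_112_s1) (xt := Ext.none) (P1 := 536870912) (W1 := 536870912) (P2 := 0) (W2 := 536870912) (P3 := 740881858) (W3 := 40050571)
    rfl (fun _ => rfl) k0_B50pp_112_s1

theorem s_B50pp_112_s1 {κ x : ℝ} (hκ : κ * h0 = ken x) (hx : ((740881858 : ℕ) : ℝ) / S ≤ x)
    (hx' : x ≤ (((740881858 : ℕ) : ℝ) + (40050571 : ℕ)) / S) :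
    AltB (VFD κ) PP tK tL pcB [⟨3, 0, 0, 1449551462⟩] 1 1 2 5 0 (sgb true) (sgb true) x :=
  strip_altBD (m := 1449551462) true rfl hκ (SH.κ0 hκ (SH.hx1 hx).le (SH.hx2 hx').le) (SH.hx1 hx).le (SH.hx2 hx') (covB51).cov (covB02).cov hx hx' c_B50pp_112_s1 cutB_nil (noExt_B)

noncomputable def cut_B50pp_202_s1 : Cut := Cut.of [[⟨4, 0, 0, 1449551462⟩], [⟨0, 1, 0, 67108864⟩, ⟨1, 0, 0, 67108864⟩, ⟨2, 1, 0, 67108864⟩]]

noncomputable def f_B50pp_202_s1 : ℕ → ℕ → ℕ → ℕ → Bool := onCell 0 536870912 0 536870912 740881858 40050571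
    (rowF 2 false true true .pp 2 0 2 (qsf 1073741824 536870912 0 536870912 0) ndB5q2 ndB0q2 pcB0 cut_B50pp_202_s1 Ext.none)

def k0_B50pp_202_s1 : ∃ t, chk3 f_B50pp_202_s1 t 1 1 1 = true :=
  ⟨(a (b (a (l 6) (l 6)) (a (b (b (a (a (b (l 16380544) (l 16417680)) (b (l 6) (l 16333160))) (l 6)) (a (a (b (l 16457464) (l 16499464)) (b (l 16366672) (l 16403912))) (a (b (l 16260784) (l 16292808)) (l 441340615687)))) (a (a (b (b (a (l 16570488) (l 16524120)) (l 14)) (l 14)) (a (b (b (l 16473584) (l 14)) (l 14)) (b (b (l 16418992) (l 16542360)) (l 1)))) (b (b (a (l 16413408) (l 1)) (l 1)) (l 1)))) (b (l 1) (l 1)))) (l 1)), by decide +kernel⟩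

theorem c_B50pp_202_s1 : CertF 1073741824 536870912 0 536870912 740881858 40050571 false true true .pp 2 0 2
    ndB5q2 ndB0q2 pcB0 cut_B50pp_202_s1 Ext.none :=
  certF2 (fam := false) (s1 := true) (s2 := true) (a := 2) (b := 0) (c := 2) (cn := .pp) (n1 := ndB5q2) (n2 := ndB0q2) (pc := pcB0) (cut := cut_B50pp_202_s1) (xt := Ext.none) (P1 := 1073741824) (W1 := 536870912) (P2 := 0) (W2 := 536870912) (P3 := 740881858) (W3 := 40050571)
    rfl (fun _ => rfl) k0_B50pp_202_s1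

theorem s_B50pp_202_s1 {κ x : ℝ} (hκ : κ * h0 = ken x) (hx : ((740881858 : ℕ) : ℝ) / S ≤ x)
    (hx' : x ≤ (((740881858 : ℕ) : ℝ) + (40050571 : ℕ)) / S)
    (H : CutB (VFD κ) PP tK tL pcB (Cut.of [[⟨0, 1, 0, 67108864⟩, ⟨1, 0, 0, 67108864⟩, ⟨2, 1, 0, 67108864⟩]]) 2 0 2 5 0 (sgb true) (sgb true) x) :
    AltB (VFD κ) PP tK tL pcB [⟨3, 0, 0, 1449551462⟩] 2 0 2 5 0 (sgb true) (sgb true) x :=
  strip_altBD (m := 1449551462) true rfl hκ (SH.κ0 hκ (SH.hx1 hx).le (SH.hx2 hx').le) (SH.hx1 hx).le (SH.hx2 hx') (covB52).cov (covB02).cov hx hx' c_B50pp_202_s1 H (noExt_B)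

noncomputable def cut_B50pm_001_s1 : Cut := Cut.of [[⟨4, 0, 0, 1449551462⟩]]

noncomputable def f_B50pm_001_s1 : ℕ → ℕ → ℕ → ℕ → Bool := onCell 0 536870912 536870912 536870912 740881858 40050571
    (rowF 0 false true false .up 0 0 1 (qsf 0 536870912 536870912 536870912 0) ndB5q0 ndB0q1 pcB0 cut_B50pm_001_s1 Ext.none)

def k0_B50pm_001_s1 : ∃ t, chk3 f_B50pm_001_s1 t 1 1 1 = true :=
  ⟨(l 4), by decide +kernel⟩

theorem c_B50pm_001_s1 : CertF 0 536870912 536870912 536870912 740881858 40050571 false true false .up 0 0 1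
    ndB5q0 ndB0q1 pcB0 cut_B50pm_001_s1 Ext.none :=
  certF0 (fam := false) (s1 := true) (s2 := false) (a := 0) (b := 0) (c := 1) (cn := .up) (n1 := ndB5q0) (n2 := ndB0q1) (pc := pcB0) (cut := cut_B50pm_001_s1) (xt := Ext.none) (P1 := 0) (W1 := 536870912) (P2 := 536870912) (W2 := 536870912) (P3 := 740881858) (W3 := 40050571)
    rfl k0_B50pm_001_s1

theorem s_B50pm_001_s1 {κ x : ℝ} (hκ : κ * h0 = ken x) (hx : ((740881858 : ℕ) : ℝ) / S ≤ x)
    (hx' : x ≤ (((740881858 : ℕ) : ℝ) + (40050571 : ℕ)) / S) :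
    AltB (VFD κ) PP tK tL pcB [⟨3, 0, 0, 1449551462⟩] 0 0 1 5 0 (sgb true) (sgb false) x :=
  strip_altBD (m := 1449551462) true rfl hκ (SH.κ0 hκ (SH.hx1 hx).le (SH.hx2 hx').le) (SH.hx1 hx).le (SH.hx2 hx') (covB50).cov (covB01).cov hx hx' c_B50pm_001_s1 cutB_nil (noExt_B)

noncomputable def cut_B50pm_011_s1 : Cut := Cut.of [[⟨4, 0, 0, 1449551462⟩]]

noncomputable def f_B50pm_011_s1 : ℕ → ℕ → ℕ → ℕ → Bool := onCell 0 536870912 536870912 536870912 740881858 40050571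
    (rowF 0 false true false .pnn 0 1 1 (qsf 0 536870912 536870912 536870912 1) ndB5q0 ndB0q1 pcB1 cut_B50pm_011_s1 Ext.none)

def k0_B50pm_011_s1 : ∃ t, chk3 f_B50pm_011_s1 t 1 1 1 = true :=
  ⟨(l 4), by decide +kernel⟩

theorem c_B50pm_011_s1 : CertF 0 536870912 536870912 536870912 740881858 40050571 false true false .pnn 0 1 1
    ndB5q0 ndB0q1 pcB1 cut_B50pm_011_s1 Ext.none :=
  certF0 (fam := false) (s1 := true) (s2 := false) (a := 0) (b := 1) (c := 1) (cn := .pnn) (n1 := ndB5q0) (n2 := ndB0q1) (pc := pcB1) (cut := cut_B50pm_011_s1) (xt := Ext.none) (P1 := 0) (W1 := 536870912) (P2 := 536870912) (W2 := 536870912) (P3 := 740881858) (W3 := 40050571)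
    rfl k0_B50pm_011_s1

theorem s_B50pm_011_s1 {κ x : ℝ} (hκ : κ * h0 = ken x) (hx : ((740881858 : ℕ) : ℝ) / S ≤ x)
    (hx' : x ≤ (((740881858 : ℕ) : ℝ) + (40050571 : ℕ)) / S) :
    AltB (VFD κ) PP tK tL pcB [⟨3, 0, 0, 1449551462⟩] 0 1 1 5 0 (sgb true) (sgb false) x :=
  strip_altBD (m := 1449551462) true rfl hκ (SH.κ0 hκ (SH.hx1 hx).le (SH.hx2 hx').le) (SH.hx1 hx).le (SH.hx2 hx') (covB50).cov (covB01).cov hx hx' c_B50pm_011_s1 cutB_nil (noExt_B)

noncomputable def cut_B50pm_012_s1 : Cut := Cut.of [[⟨4, 0, 0, 1449551462⟩]]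

noncomputable def f_B50pm_012_s1 : ℕ → ℕ → ℕ → ℕ → Bool := onCell 0 536870912 0 536870912 740881858 40050571
    (rowF 0 false true false .pnp 0 1 2 (qsf 0 536870912 0 536870912 1) ndB5q0 ndB0q2 pcB1 cut_B50pm_012_s1 Ext.none)

def k0_B50pm_012_s1 : ∃ t, chk3 f_B50pm_012_s1 t 1 1 1 = true :=
  ⟨(l 6), by decide +kernel⟩

theorem c_B50pm_012_s1 : CertF 0 536870912 0 536870912 740881858 40050571 false true false .pnp 0 1 2
    ndB5q0 ndB0q2 pcB1 cut_B50pm_012_s1 Ext.none :=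
  certF0 (fam := false) (s1 := true) (s2 := false) (a := 0) (b := 1) (c := 2) (cn := .pnp) (n1 := ndB5q0) (n2 := ndB0q2) (pc := pcB1) (cut := cut_B50pm_012_s1) (xt := Ext.none) (P1 := 0) (W1 := 536870912) (P2 := 0) (W2 := 536870912) (P3 := 740881858) (W3 := 40050571)
    rfl k0_B50pm_012_s1

theorem s_B50pm_012_s1 {κ x : ℝ} (hκ : κ * h0 = ken x) (hx : ((740881858 : ℕ) : ℝ) / S ≤ x)
    (hx' : x ≤ (((740881858 : ℕ) : ℝ) + (40050571 : ℕ)) / S) :
    AltB (VFD κ) PP tK tL pcB [⟨3, 0, 0, 1449551462⟩] 0 1 2 5 0 (sgb true) (sgb false) x :=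
  strip_altBD (m := 1449551462) true rfl hκ (SH.κ0 hκ (SH.hx1 hx).le (SH.hx2 hx').le) (SH.hx1 hx).le (SH.hx2 hx') (covB50).cov (covB02).cov hx hx' c_B50pm_012_s1 cutB_nil (noExt_B)

noncomputable def cut_B50pm_022_s1 : Cut := Cut.of [[⟨4, 0, 0, 1449551462⟩]]

noncomputable def f_B50pm_022_s1 : ℕ → ℕ → ℕ → ℕ → Bool := onCell 0 536870912 0 536870912 740881858 40050571
    (rowF 0 false true false .pp 0 2 2 (qsf 0 536870912 0 536870912 2) ndB5q0 ndB0q2 pcB2 cut_B50pm_022_s1 Ext.none)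

def k0_B50pm_022_s1 : ∃ t, chk3 f_B50pm_022_s1 t 1 1 1 = true :=
  ⟨(l 6), by decide +kernel⟩

theorem c_B50pm_022_s1 : CertF 0 536870912 0 536870912 740881858 40050571 false true false .pp 0 2 2
    ndB5q0 ndB0q2 pcB2 cut_B50pm_022_s1 Ext.none :=
  certF0 (fam := false) (s1 := true) (s2 := false) (a := 0) (b := 2) (c := 2) (cn := .pp) (n1 := ndB5q0) (n2 := ndB0q2) (pc := pcB2) (cut := cut_B50pm_022_s1) (xt := Ext.none) (P1 := 0) (W1 := 536870912) (P2 := 0) (W2 := 536870912) (P3 := 740881858) (W3 := 40050571)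
    rfl k0_B50pm_022_s1

theorem s_B50pm_022_s1 {κ x : ℝ} (hκ : κ * h0 = ken x) (hx : ((740881858 : ℕ) : ℝ) / S ≤ x)
    (hx' : x ≤ (((740881858 : ℕ) : ℝ) + (40050571 : ℕ)) / S) :
    AltB (VFD κ) PP tK tL pcB [⟨3, 0, 0, 1449551462⟩] 0 2 2 5 0 (sgb true) (sgb false) x :=
  strip_altBD (m := 1449551462) true rfl hκ (SH.κ0 hκ (SH.hx1 hx).le (SH.hx2 hx').le) (SH.hx1 hx).le (SH.hx2 hx') (covB50).cov (covB02).cov hx hx' c_B50pm_022_s1 cutB_nil (noExt_B)

noncomputable def cut_B50pm_101_s1 : Cut := Cut.of [[⟨4, 0, 0, 1449551462⟩]]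

noncomputable def f_B50pm_101_s1 : ℕ → ℕ → ℕ → ℕ → Bool := onCell 536870912 536870912 536870912 536870912 740881858 40050571
    (rowF 0 false true false .npn 1 0 1 (qsf 536870912 536870912 536870912 536870912 0) ndB5q1 ndB0q1 pcB0 cut_B50pm_101_s1 Ext.none)

def k0_B50pm_101_s1 : ∃ t, chk3 f_B50pm_101_s1 t 1 1 1 = true :=
  ⟨(l 4), by decide +kernel⟩

theorem c_B50pm_101_s1 : CertF 536870912 536870912 536870912 536870912 740881858 40050571 false true false .npn 1 0 1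
    ndB5q1 ndB0q1 pcB0 cut_B50pm_101_s1 Ext.none :=
  certF0 (fam := false) (s1 := true) (s2 := false) (a := 1) (b := 0) (c := 1) (cn := .npn) (n1 := ndB5q1) (n2 := ndB0q1) (pc := pcB0) (cut := cut_B50pm_101_s1) (xt := Ext.none) (P1 := 536870912) (W1 := 536870912) (P2 := 536870912) (W2 := 536870912) (P3 := 740881858) (W3 := 40050571)
    rfl k0_B50pm_101_s1

theorem s_B50pm_101_s1 {κ x : ℝ} (hκ : κ * h0 = ken x) (hx : ((740881858 : ℕ) : ℝ) / S ≤ x)
    (hx' : x ≤ (((740881858 : ℕ) : ℝ) + (40050571 : ℕ)) / S) :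
    AltB (VFD κ) PP tK tL pcB [⟨3, 0, 0, 1449551462⟩] 1 0 1 5 0 (sgb true) (sgb false) x :=
  strip_altBD (m := 1449551462) true rfl hκ (SH.κ0 hκ (SH.hx1 hx).le (SH.hx2 hx').le) (SH.hx1 hx).le (SH.hx2 hx') (covB51).cov (covB01).cov hx hx' c_B50pm_101_s1 cutB_nil (noExt_B)

noncomputable def cut_B50pm_102_s1 : Cut := Cut.of [[⟨4, 0, 0, 1449551462⟩]]

noncomputable def f_B50pm_102_s1 : ℕ → ℕ → ℕ → ℕ → Bool := onCell 536870912 536870912 0 536870912 740881858 40050571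
    (rowF 0 false true false .npp 1 0 2 (qsf 536870912 536870912 0 536870912 0) ndB5q1 ndB0q2 pcB0 cut_B50pm_102_s1 Ext.none)

def k0_B50pm_102_s1 : ∃ t, chk3 f_B50pm_102_s1 t 1 1 1 = true :=
  ⟨(l 6), by decide +kernel⟩

theorem c_B50pm_102_s1 : CertF 536870912 536870912 0 536870912 740881858 40050571 false true false .npp 1 0 2
    ndB5q1 ndB0q2 pcB0 cut_B50pm_102_s1 Ext.none :=
  certF0 (fam := false) (s1 := true) (s2 := false) (a := 1) (b := 0) (c := 2) (cn := .npp) (n1 := ndB5q1) (n2 := ndB0q2) (pc := pcB0) (cut := cut_B50pm_102_s1) (xt := Ext.none) (P1 := 536870912) (W1 := 536870912) (P2 := 0) (W2 := 536870912) (P3 := 740881858) (W3 := 40050571)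
    rfl k0_B50pm_102_s1

theorem s_B50pm_102_s1 {κ x : ℝ} (hκ : κ * h0 = ken x) (hx : ((740881858 : ℕ) : ℝ) / S ≤ x)
    (hx' : x ≤ (((740881858 : ℕ) : ℝ) + (40050571 : ℕ)) / S) :
    AltB (VFD κ) PP tK tL pcB [⟨3, 0, 0, 1449551462⟩] 1 0 2 5 0 (sgb true) (sgb false) x :=
  strip_altBD (m := 1449551462) true rfl hκ (SH.κ0 hκ (SH.hx1 hx).le (SH.hx2 hx').le) (SH.hx1 hx).le (SH.hx2 hx') (covB51).cov (covB02).cov hx hx' c_B50pm_102_s1 cutB_nil (noExt_B)

noncomputable def cut_B50pm_112_s1 : Cut := Cut.of [[⟨4, 0, 0, 1449551462⟩]]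

noncomputable def f_B50pm_112_s1 : ℕ → ℕ → ℕ → ℕ → Bool := onCell 536870912 536870912 0 536870912 740881858 40050571
    (rowF 0 false true false .dn 1 1 2 (qsf 536870912 536870912 0 536870912 1) ndB5q1 ndB0q2 pcB1 cut_B50pm_112_s1 Ext.none)

def k0_B50pm_112_s1 : ∃ t, chk3 f_B50pm_112_s1 t 1 1 1 = true :=
  ⟨(l 6), by decide +kernel⟩

theorem c_B50pm_112_s1 : CertF 536870912 536870912 0 536870912 740881858 40050571 false true false .dn 1 1 2
    ndB5q1 ndB0q2 pcB1 cut_B50pm_112_s1 Ext.none :=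
  certF0 (fam := false) (s1 := true) (s2 := false) (a := 1) (b := 1) (c := 2) (cn := .dn) (n1 := ndB5q1) (n2 := ndB0q2) (pc := pcB1) (cut := cut_B50pm_112_s1) (xt := Ext.none) (P1 := 536870912) (W1 := 536870912) (P2 := 0) (W2 := 536870912) (P3 := 740881858) (W3 := 40050571)
    rfl k0_B50pm_112_s1

theorem s_B50pm_112_s1 {κ x : ℝ} (hκ : κ * h0 = ken x) (hx : ((740881858 : ℕ) : ℝ) / S ≤ x)
    (hx' : x ≤ (((740881858 : ℕ) : ℝ) + (40050571 : ℕ)) / S) :
    AltB (VFD κ) PP tK tL pcB [⟨3, 0, 0, 1449551462⟩] 1 1 2 5 0 (sgb true) (sgb false) x :=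
  strip_altBD (m := 1449551462) true rfl hκ (SH.κ0 hκ (SH.hx1 hx).le (SH.hx2 hx').le) (SH.hx1 hx).le (SH.hx2 hx') (covB51).cov (covB02).cov hx hx' c_B50pm_112_s1 cutB_nil (noExt_B)

noncomputable def cut_B50pm_202_s1 : Cut := Cut.of [[⟨4, 0, 0, 1449551462⟩]]

noncomputable def f_B50pm_202_s1 : ℕ → ℕ → ℕ → ℕ → Bool := onCell 0 536870912 0 536870912 740881858 40050571
    (rowF 2 false true false .pp 2 0 2 (qsf 1073741824 536870912 0 536870912 0) ndB5q2 ndB0q2 pcB0 cut_B50pm_202_s1 Ext.none)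

def k0_B50pm_202_s1 : ∃ t, chk3 f_B50pm_202_s1 t 1 1 1 = true :=
  ⟨(l 6), by decide +kernel⟩

theorem c_B50pm_202_s1 : CertF 1073741824 536870912 0 536870912 740881858 40050571 false true false .pp 2 0 2
    ndB5q2 ndB0q2 pcB0 cut_B50pm_202_s1 Ext.none :=
  certF2 (fam := false) (s1 := true) (s2 := false) (a := 2) (b := 0) (c := 2) (cn := .pp) (n1 := ndB5q2) (n2 := ndB0q2) (pc := pcB0) (cut := cut_B50pm_202_s1) (xt := Ext.none) (P1 := 1073741824) (W1 := 536870912) (P2 := 0) (W2 := 536870912) (P3 := 740881858) (W3 := 40050571)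
    rfl (fun _ => rfl) k0_B50pm_202_s1

theorem s_B50pm_202_s1 {κ x : ℝ} (hκ : κ * h0 = ken x) (hx : ((740881858 : ℕ) : ℝ) / S ≤ x)
    (hx' : x ≤ (((740881858 : ℕ) : ℝ) + (40050571 : ℕ)) / S) :
    AltB (VFD κ) PP tK tL pcB [⟨3, 0, 0, 1449551462⟩] 2 0 2 5 0 (sgb true) (sgb false) x :=
  strip_altBD (m := 1449551462) true rfl hκ (SH.κ0 hκ (SH.hx1 hx).le (SH.hx2 hx').le) (SH.hx1 hx).le (SH.hx2 hx') (covB52).cov (covB02).cov hx hx' c_B50pm_202_s1 cutB_nil (noExt_B)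

noncomputable def cut_B50mm_001_s1 : Cut := Cut.of [[⟨4, 0, 0, 1449551462⟩]]

noncomputable def f_B50mm_001_s1 : ℕ → ℕ → ℕ → ℕ → Bool := onCell 0 536870912 536870912 536870912 740881858 40050571
    (rowF 0 false false false .up 0 0 1 (qsf 0 536870912 536870912 536870912 0) ndB5q0 ndB0q1 pcB0 cut_B50mm_001_s1 Ext.none)

def k0_B50mm_001_s1 : ∃ t, chk3 f_B50mm_001_s1 t 1 1 1 = true :=
  ⟨(l 5), by decide +kernel⟩

theorem c_B50mm_001_s1 : CertF 0 536870912 536870912 536870912 740881858 40050571 false false false .up 0 0 1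
    ndB5q0 ndB0q1 pcB0 cut_B50mm_001_s1 Ext.none :=
  certF0 (fam := false) (s1 := false) (s2 := false) (a := 0) (b := 0) (c := 1) (cn := .up) (n1 := ndB5q0) (n2 := ndB0q1) (pc := pcB0) (cut := cut_B50mm_001_s1) (xt := Ext.none) (P1 := 0) (W1 := 536870912) (P2 := 536870912) (W2 := 536870912) (P3 := 740881858) (W3 := 40050571)
    rfl k0_B50mm_001_s1

theorem s_B50mm_001_s1 {κ x : ℝ} (hκ : κ * h0 = ken x) (hx : ((740881858 : ℕ) : ℝ) / S ≤ x)
    (hx' : x ≤ (((740881858 : ℕ) : ℝ) + (40050571 : ℕ)) / S) :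
    AltB (VFD κ) PP tK tL pcB [⟨3, 0, 0, 1449551462⟩] 0 0 1 5 0 (sgb false) (sgb false) x :=
  strip_altBD (m := 1449551462) true rfl hκ (SH.κ0 hκ (SH.hx1 hx).le (SH.hx2 hx').le) (SH.hx1 hx).le (SH.hx2 hx') (covB50).cov (covB01).cov hx hx' c_B50mm_001_s1 cutB_nil (noExt_B)

noncomputable def cut_B50mm_011_s1 : Cut := Cut.of [[⟨4, 0, 0, 1449551462⟩]]

noncomputable def f_B50mm_011_s1 : ℕ → ℕ → ℕ → ℕ → Bool := onCell 0 536870912 536870912 536870912 740881858 40050571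
    (rowF 0 false false false .pnn 0 1 1 (qsf 0 536870912 536870912 536870912 1) ndB5q0 ndB0q1 pcB1 cut_B50mm_011_s1 Ext.none)

def k0_B50mm_011_s1 : ∃ t, chk3 f_B50mm_011_s1 t 1 1 1 = true :=
  ⟨(l 5), by decide +kernel⟩

theorem c_B50mm_011_s1 : CertF 0 536870912 536870912 536870912 740881858 40050571 false false false .pnn 0 1 1
    ndB5q0 ndB0q1 pcB1 cut_B50mm_011_s1 Ext.none :=
  certF0 (fam := false) (s1 := false) (s2 := false) (a := 0) (b := 1) (c := 1) (cn := .pnn) (n1 := ndB5q0) (n2 := ndB0q1) (pc := pcB1) (cut := cut_B50mm_011_s1) (xt := Ext.none) (P1 := 0) (W1 := 536870912) (P2 := 536870912) (W2 := 536870912) (P3 := 740881858) (W3 := 40050571)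
    rfl k0_B50mm_011_s1

theorem s_B50mm_011_s1 {κ x : ℝ} (hκ : κ * h0 = ken x) (hx : ((740881858 : ℕ) : ℝ) / S ≤ x)
    (hx' : x ≤ (((740881858 : ℕ) : ℝ) + (40050571 : ℕ)) / S) :
    AltB (VFD κ) PP tK tL pcB [⟨3, 0, 0, 1449551462⟩] 0 1 1 5 0 (sgb false) (sgb false) x :=
  strip_altBD (m := 1449551462) true rfl hκ (SH.κ0 hκ (SH.hx1 hx).le (SH.hx2 hx').le) (SH.hx1 hx).le (SH.hx2 hx') (covB50).cov (covB01).cov hx hx' c_B50mm_011_s1 cutB_nil (noExt_B)

noncomputable def cut_B50mm_012_s1 : Cut := Cut.of [[⟨4, 0, 0, 1449551462⟩]]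

noncomputable def f_B50mm_012_s1 : ℕ → ℕ → ℕ → ℕ → Bool := onCell 0 536870912 0 536870912 740881858 40050571
    (rowF 0 false false false .pnp 0 1 2 (qsf 0 536870912 0 536870912 1) ndB5q0 ndB0q2 pcB1 cut_B50mm_012_s1 Ext.none)

def k0_B50mm_012_s1 : ∃ t, chk3 f_B50mm_012_s1 t 1 1 1 = true :=
  ⟨(l 5), by decide +kernel⟩

theorem c_B50mm_012_s1 : CertF 0 536870912 0 536870912 740881858 40050571 false false false .pnp 0 1 2
    ndB5q0 ndB0q2 pcB1 cut_B50mm_012_s1 Ext.none :=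
  certF0 (fam := false) (s1 := false) (s2 := false) (a := 0) (b := 1) (c := 2) (cn := .pnp) (n1 := ndB5q0) (n2 := ndB0q2) (pc := pcB1) (cut := cut_B50mm_012_s1) (xt := Ext.none) (P1 := 0) (W1 := 536870912) (P2 := 0) (W2 := 536870912) (P3 := 740881858) (W3 := 40050571)
    rfl k0_B50mm_012_s1

theorem s_B50mm_012_s1 {κ x : ℝ} (hκ : κ * h0 = ken x) (hx : ((740881858 : ℕ) : ℝ) / S ≤ x)
    (hx' : x ≤ (((740881858 : ℕ) : ℝ) + (40050571 : ℕ)) / S) :
    AltB (VFD κ) PP tK tL pcB [⟨3, 0, 0, 1449551462⟩] 0 1 2 5 0 (sgb false) (sgb false) x :=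
  strip_altBD (m := 1449551462) true rfl hκ (SH.κ0 hκ (SH.hx1 hx).le (SH.hx2 hx').le) (SH.hx1 hx).le (SH.hx2 hx') (covB50).cov (covB02).cov hx hx' c_B50mm_012_s1 cutB_nil (noExt_B)

noncomputable def cut_B50mm_022_s1 : Cut := Cut.of [[⟨4, 0, 0, 1449551462⟩]]

noncomputable def f_B50mm_022_s1 : ℕ → ℕ → ℕ → ℕ → Bool := onCell 0 536870912 0 536870912 740881858 40050571
    (rowF 0 false false false .pp 0 2 2 (qsf 0 536870912 0 536870912 2) ndB5q0 ndB0q2 pcB2 cut_B50mm_022_s1 Ext.none)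

def k0_B50mm_022_s1 : ∃ t, chk3 f_B50mm_022_s1 t 1 1 1 = true :=
  ⟨(l 5), by decide +kernel⟩

theorem c_B50mm_022_s1 : CertF 0 536870912 0 536870912 740881858 40050571 false false false .pp 0 2 2
    ndB5q0 ndB0q2 pcB2 cut_B50mm_022_s1 Ext.none :=
  certF0 (fam := false) (s1 := false) (s2 := false) (a := 0) (b := 2) (c := 2) (cn := .pp) (n1 := ndB5q0) (n2 := ndB0q2) (pc := pcB2) (cut := cut_B50mm_022_s1) (xt := Ext.none) (P1 := 0) (W1 := 536870912) (P2 := 0) (W2 := 536870912) (P3 := 740881858) (W3 := 40050571)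
    rfl k0_B50mm_022_s1

theorem s_B50mm_022_s1 {κ x : ℝ} (hκ : κ * h0 = ken x) (hx : ((740881858 : ℕ) : ℝ) / S ≤ x)
    (hx' : x ≤ (((740881858 : ℕ) : ℝ) + (40050571 : ℕ)) / S) :
    AltB (VFD κ) PP tK tL pcB [⟨3, 0, 0, 1449551462⟩] 0 2 2 5 0 (sgb false) (sgb false) x :=
  strip_altBD (m := 1449551462) true rfl hκ (SH.κ0 hκ (SH.hx1 hx).le (SH.hx2 hx').le) (SH.hx1 hx).le (SH.hx2 hx') (covB50).cov (covB02).cov hx hx' c_B50mm_022_s1 cutB_nil (noExt_B)

noncomputable def cut_B50mm_101_s1 : Cut := Cut.of [[⟨4, 0, 0, 1449551462⟩]]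

noncomputable def f_B50mm_101_s1 : ℕ → ℕ → ℕ → ℕ → Bool := onCell 0 536870912 536870912 536870912 740881858 40050571
    (rowF 2 false false false .npn 1 0 1 (qsf 536870912 536870912 536870912 536870912 0) ndB5q1 ndB0q1 pcB0 cut_B50mm_101_s1 Ext.none)

def k0_B50mm_101_s1 : ∃ t, chk3 f_B50mm_101_s1 t 1 1 1 = true :=
  ⟨(l 5), by decide +kernel⟩

theorem c_B50mm_101_s1 : CertF 536870912 536870912 536870912 536870912 740881858 40050571 false false false .npn 1 0 1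
    ndB5q1 ndB0q1 pcB0 cut_B50mm_101_s1 Ext.none :=
  certF2 (fam := false) (s1 := false) (s2 := false) (a := 1) (b := 0) (c := 1) (cn := .npn) (n1 := ndB5q1) (n2 := ndB0q1) (pc := pcB0) (cut := cut_B50mm_101_s1) (xt := Ext.none) (P1 := 536870912) (W1 := 536870912) (P2 := 536870912) (W2 := 536870912) (P3 := 740881858) (W3 := 40050571)
    rfl (fun _ => rfl) k0_B50mm_101_s1

theorem s_B50mm_101_s1 {κ x : ℝ} (hκ : κ * h0 = ken x) (hx : ((740881858 : ℕ) : ℝ) / S ≤ x)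
    (hx' : x ≤ (((740881858 : ℕ) : ℝ) + (40050571 : ℕ)) / S) :
    AltB (VFD κ) PP tK tL pcB [⟨3, 0, 0, 1449551462⟩] 1 0 1 5 0 (sgb false) (sgb false) x :=
  strip_altBD (m := 1449551462) true rfl hκ (SH.κ0 hκ (SH.hx1 hx).le (SH.hx2 hx').le) (SH.hx1 hx).le (SH.hx2 hx') (covB51).cov (covB01).cov hx hx' c_B50mm_101_s1 cutB_nil (noExt_B)

noncomputable def cut_B50mm_102_s1 : Cut := Cut.of [[⟨4, 0, 0, 1449551462⟩]]

noncomputable def f_B50mm_102_s1 : ℕ → ℕ → ℕ → ℕ → Bool := onCell 536870912 536870912 0 536870912 740881858 40050571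
    (rowF 0 false false false .npp 1 0 2 (qsf 536870912 536870912 0 536870912 0) ndB5q1 ndB0q2 pcB0 cut_B50mm_102_s1 Ext.none)

def k0_B50mm_102_s1 : ∃ t, chk3 f_B50mm_102_s1 t 1 1 1 = true :=
  ⟨(l 5), by decide +kernel⟩

theorem c_B50mm_102_s1 : CertF 536870912 536870912 0 536870912 740881858 40050571 false false false .npp 1 0 2
    ndB5q1 ndB0q2 pcB0 cut_B50mm_102_s1 Ext.none :=
  certF0 (fam := false) (s1 := false) (s2 := false) (a := 1) (b := 0) (c := 2) (cn := .npp) (n1 := ndB5q1) (n2 := ndB0q2) (pc := pcB0) (cut := cut_B50mm_102_s1) (xt := Ext.none) (P1 := 536870912) (W1 := 536870912) (P2 := 0) (W2 := 536870912) (P3 := 740881858) (W3 := 40050571)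
    rfl k0_B50mm_102_s1

theorem s_B50mm_102_s1 {κ x : ℝ} (hκ : κ * h0 = ken x) (hx : ((740881858 : ℕ) : ℝ) / S ≤ x)
    (hx' : x ≤ (((740881858 : ℕ) : ℝ) + (40050571 : ℕ)) / S) :
    AltB (VFD κ) PP tK tL pcB [⟨3, 0, 0, 1449551462⟩] 1 0 2 5 0 (sgb false) (sgb false) x :=
  strip_altBD (m := 1449551462) true rfl hκ (SH.κ0 hκ (SH.hx1 hx).le (SH.hx2 hx').le) (SH.hx1 hx).le (SH.hx2 hx') (covB51).cov (covB02).cov hx hx' c_B50mm_102_s1 cutB_nil (noExt_B)

noncomputable def cut_B50mm_112_s1 : Cut := Cut.of [[⟨4, 0, 0, 1449551462⟩]]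

noncomputable def f_B50mm_112_s1 : ℕ → ℕ → ℕ → ℕ → Bool := onCell 536870912 536870912 0 536870912 740881858 40050571
    (rowF 0 false false false .dn 1 1 2 (qsf 536870912 536870912 0 536870912 1) ndB5q1 ndB0q2 pcB1 cut_B50mm_112_s1 Ext.none)

def k0_B50mm_112_s1 : ∃ t, chk3 f_B50mm_112_s1 t 1 1 1 = true :=
  ⟨(l 5), by decide +kernel⟩

theorem c_B50mm_112_s1 : CertF 536870912 536870912 0 536870912 740881858 40050571 false false false .dn 1 1 2
    ndB5q1 ndB0q2 pcB1 cut_B50mm_112_s1 Ext.none :=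
  certF0 (fam := false) (s1 := false) (s2 := false) (a := 1) (b := 1) (c := 2) (cn := .dn) (n1 := ndB5q1) (n2 := ndB0q2) (pc := pcB1) (cut := cut_B50mm_112_s1) (xt := Ext.none) (P1 := 536870912) (W1 := 536870912) (P2 := 0) (W2 := 536870912) (P3 := 740881858) (W3 := 40050571)
    rfl k0_B50mm_112_s1

theorem s_B50mm_112_s1 {κ x : ℝ} (hκ : κ * h0 = ken x) (hx : ((740881858 : ℕ) : ℝ) / S ≤ x)
    (hx' : x ≤ (((740881858 : ℕ) : ℝ) + (40050571 : ℕ)) / S) :
    AltB (VFD κ) PP tK tL pcB [⟨3, 0, 0, 1449551462⟩] 1 1 2 5 0 (sgb false) (sgb false) x :=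
  strip_altBD (m := 1449551462) true rfl hκ (SH.κ0 hκ (SH.hx1 hx).le (SH.hx2 hx').le) (SH.hx1 hx).le (SH.hx2 hx') (covB51).cov (covB02).cov hx hx' c_B50mm_112_s1 cutB_nil (noExt_B)

noncomputable def cut_B50mm_202_s1 : Cut := Cut.of [[⟨4, 0, 0, 1449551462⟩]]

noncomputable def f_B50mm_202_s1 : ℕ → ℕ → ℕ → ℕ → Bool := onCell 1073741824 536870912 0 536870912 740881858 40050571
    (rowF 0 false false false .pp 2 0 2 (qsf 1073741824 536870912 0 536870912 0) ndB5q2 ndB0q2 pcB0 cut_B50mm_202_s1 Ext.none)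

def k0_B50mm_202_s1 : ∃ t, chk3 f_B50mm_202_s1 t 1 1 1 = true :=
  ⟨(l 5), by decide +kernel⟩

theorem c_B50mm_202_s1 : CertF 1073741824 536870912 0 536870912 740881858 40050571 false false false .pp 2 0 2
    ndB5q2 ndB0q2 pcB0 cut_B50mm_202_s1 Ext.none :=
  certF0 (fam := false) (s1 := false) (s2 := false) (a := 2) (b := 0) (c := 2) (cn := .pp) (n1 := ndB5q2) (n2 := ndB0q2) (pc := pcB0) (cut := cut_B50mm_202_s1) (xt := Ext.none) (P1 := 1073741824) (W1 := 536870912) (P2 := 0) (W2 := 536870912) (P3 := 740881858) (W3 := 40050571)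
    rfl k0_B50mm_202_s1

theorem s_B50mm_202_s1 {κ x : ℝ} (hκ : κ * h0 = ken x) (hx : ((740881858 : ℕ) : ℝ) / S ≤ x)
    (hx' : x ≤ (((740881858 : ℕ) : ℝ) + (40050571 : ℕ)) / S) :
    AltB (VFD κ) PP tK tL pcB [⟨3, 0, 0, 1449551462⟩] 2 0 2 5 0 (sgb false) (sgb false) x :=
  strip_altBD (m := 1449551462) true rfl hκ (SH.κ0 hκ (SH.hx1 hx).le (SH.hx2 hx').le) (SH.hx1 hx).le (SH.hx2 hx') (covB52).cov (covB02).cov hx hx' c_B50mm_202_s1 cutB_nil (noExt_B)

end Pool.Agent.Strip051.G.I69_7273.Tab.St.C
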