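import Pool.Agent.Strip051.G.I69_7273.Tab
import Pool.Agent.Strip051.PB.StripB

/-! # Strips, near vertex: certificates 8 (generated) -/

set_option linter.all false
set_option maxRecDepth 100000

namespace Pool.Agent.Strip051.G.I69_7273.Tab.CS.BB05

open Pool.Agent.Strip051.PB Pool.Agent.Strip051.PB.T
open Pool.Agent.Strip051.G.I69_7273.Tab

noncomputable def cut_mm_202_s : Cut := Cut.of [[⟨4, 0, 0, 1449551462⟩], [⟨0, 1, 0, 67108864⟩, ⟨1, 0, 0, 67108864⟩, ⟨2, 1, 0, 67108864⟩]]

noncomputable def f_mm_202_s : ℕ → ℕ → ℕ → ℕ → Bool := onCell 0 536870912 0 536870912 740881858 40050571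
    (rowNE 3 eng mog cd0q2 cd5q2 pd0 1 false false false .pp 2 0 2 (qsf 0 536870912 1073741824 536870912 0) ndB0q2 ndB5q2 pcB0 cut_mm_202_s Ext.none)

def k0_mm_202_s : ∃ t, chk3 f_mm_202_s t 2 2 1 = true :=
  ⟨(b (a (l 6) (b (a (l 6) (b (l 6) (a (l 6) (l 16462224)))) (a (b (l 6) (l 16504752)) (a (l 16511856) (l 16554112))))) (a (b (l 6) (a (l 6) (b (l 16532880) (b (l 16599448) (l 16615216))))) (b (a (l 16562640) (b (a (l 16575984) (b (l 16587880) (l 16607424))) (a (b (l 16603112) (l 16620032)) (b (l 16625256) (l 16642040))))) (a (b (a (l 16602848) (l 16623080)) (a (l 16613960) (l 16655000))) (b (a (l 16644248) (l 16666360)) (a (l 16675944) (b (l 16648096) (a (l 16699600) (l 16711296))))))))), by decide +kernel⟩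

def k1_mm_202_s : ∃ t, chk3 f_mm_202_s t 2 6 1 = true :=
  ⟨(a (b (b (a (l 6) (a (l 16628368) (l 16666984))) (a (a (l 6) (l 16639456)) (l 16705736))) (a (b (l 16656416) (l 16679848)) (b (l 16687384) (a (l 16701440) (l 204111706855))))) (b (a (b (l 16674944) (a (l 16691160) (b (l 16704672) (l 16675608)))) (b (a (b (l 16677304) (l 16670720)) (b (l 16720456) (l 16734808))) (a (b (l 16726280) (l 16738928)) (b (a (l 16742632) (l 16754488)) (a (l 16755424) (a (l 16785120) (b (l 16767416) (a (l 16771904) (b (l 16773696) (l 269676970263)))))))))) (a (b (a (b (l 16708976) (l 16720456)) (b (l 16687448) (l 16761184))) (a (l 221291444631) (b (l 16750504) (l 265851744871)))) (b (a (b (l 16771608) (a (l 16755824) (b (l 16763944) (a (l 16766256) (l 16771592))))) (b (a (a (l 16764264) (b (l 16767120) (b (l 16771248) (l 222432336839)))) (a (b (a (l 16771464) (b (l 16773104) (l 233169755079))) (a (b (l 230485399687) (l 315847867079)) (b (l 327122155751) (l 3)))) (b (b (a (l 237464723111) (l 356650054967))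 (l 363629375303)) (l 3)))) (a (b (a (b (l 16770864) (l 16773344)) (a (b (l 16775024) (l 282561871319)) (b (l 306721062023) (l 3)))) (a (a (b (l 16774424) (l 250349624871)) (b (l 274508807431) (l 368998085127))) (l 3))) (l 3)))) (a (b (a (b (l 16763312) (l 16768120)) (a (b (l 16771120) (a (l 234780369127) (b (l 241759687959) (l 324974672055)))) (b (b (l 238538464839) (a (l 244444043255) (l 341080798551))) (b (l 348060118647) (l 3))))) (a (a (b (l 16770264) (l 364636026839)) (b (a (l 16774048) (b (l 16775440) (l 312089770999))) (a (b (l 306721062183) (l 2)) (l 3)))) (a (b (b (l 337322701239) (l 3)) (l 3)) (l 3)))) (b (a (a (b (a (l 352891956263) (l 3)) (l 3)) (l 3)) (l 3)) (l 3))))))), by decide +kernel⟩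

def k2_mm_202_s : ∃ t, chk3 f_mm_202_s t 2 7 1 = true :=
  ⟨(a (l 2) (a (l 2) (a (l 2) (l 3)))), by decide +kernel⟩

def k3_mm_202_s : ∃ t, chk3 f_mm_202_s t 6 4 1 = true :=
  ⟨(b (a (b (b (a (l 16431888) (l 16468152)) (l 16599416)) (a (l 16492272) (l 16526848))) (b (a (b (l 16510152) (l 16533848)) (b (l 16554464) (l 16578408))) (a (l 16545048) (b (l 16599984) (l 16620176))))) (a (b (a (l 16537160) (l 16569264)) (a (l 16581344) (b (l 16602072) (a (l 16616408) (l 16632808))))) (b (a (b (l 16596448) (b (l 16611736) (l 16622472))) (b (a (l 16627960) (b (l 16646736) (l 16656616))) (a (b (l 16643152) (l 16652120)) (b (l 16665144) (l 16675048))))) (a (b (a (l 16628976) (l 16646712)) (a (l 16649920) (l 16668616))) (b (a (l 16667384) (b (l 16684792) (l 16695024))) (a (b (l 16683088) (l 16694208)) (b (a (l 16699712) (l 16711088)) (a (l 16710160) (l 16721808))))))))), by decide +kernel⟩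

def k4_mm_202_s : ∃ t, chk3 f_mm_202_s t 14 8 1 = true :=
  ⟨(b (a (b (a (l 16592240) (l 16618304)) (a (l 16616352) (l 16642536))) (b (a (l 16643488) (b (l 14) (l 16674560))) (l 16720664))) (a (b (a (l 16638080) (l 16664352)) (a (b (l 16653184) (l 16663024)) (b (a (l 16673000) (l 16686400)) (l 16646704)))) (b (a (b (l 16684520) (a (l 16688656) (l 16701704))) (a (b (l 16703192) (l 16692016)) (b (b (l 16713152) (l 16718000)) (l 16724784)))) (a (b (a (l 16698456) (l 16710064)) (l 16713200)) (b (a (l 16722120) (a (l 16730840) (l 16716064))) (a (b (l 16728736) (l 16733440)) (b (l 16719544) (a (l 16741888) (l 16748088))))))))), by decide +kernel⟩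

def k5_mm_202_s : ∃ t, chk3 f_mm_202_s t 15 16 1 = true :=
  ⟨(a (b (l 14) (a (b (l 14) (a (l 16747112) (b (l 14) (l 16710976)))) (l 14))) (l 14)), by decide +kernel⟩

def k6_mm_202_s : ∃ t, chk3 f_mm_202_s t 60 34 1 = true :=
  ⟨(b (a (b (l 16724920) (l 16729704)) (b (l 16736864) (l 16741400))) (a (b (l 16734184) (l 16738840)) (a (l 16750824) (b (l 16728072) (l 16753496))))), by decide +kernel⟩

def k7_mm_202_s : ∃ t, chk3 f_mm_202_s t 61 68 1 = true :=
  ⟨(a (a (b (l 16745776) (l 16740056)) (b (l 14) (b (l 16755144) (l 16757640)))) (a (b (l 14) (a (l 16761088) (l 16753712))) (l 14))), by decide +kernel⟩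

def k8_mm_202_s : ∃ t, chk3 f_mm_202_s t 122 69 1 = true :=
  ⟨(a (b (l 16744360) (l 16770208)) (a (l 16769856) (c (l 16771704) (l 16770320)))), by decide +kernel⟩

def k9_mm_202_s : ∃ t, chk3 f_mm_202_s t 246 69 1 = true :=
  ⟨(a (a (b (l 16765064) (b (l 16768672) (l 16771096))) (b (l 16761392) (l 16774080))) (b (l 16774232) (b (l 16775248) (a (l 16776888) (b (l 16776560) (a (l 16777384) (b (l 89825214983) (a (a (l 16777208) (b (l 16776928) (a (l 188072591783) (l 250349617719)))) (b (a (l 159618433495) (a (l 244444037687) (l 404968440023))) (l 419463954855)))))))))), by decide +kernel⟩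

def k10_mm_202_s : ∃ t, chk3 f_mm_202_s t 247 138 1 = true :=
  ⟨(a (a (l 16775288) (b (l 16766488) (l 16776784))) (b (l 14) (b (a (l 16776456) (a (a (l 16777456) (l 14)) (l 14))) (a (b (l 16777376) (a (l 16776280) (a (a (l 16776776) (a (l 16777256) (b (l 16776872) (l 182703882647)))) (b (a (l 16777024) (b (l 16777304) (l 276656292279))) (a (c (l 278803776039) (l 357723799687)) (l 3)))))) (a (b (b (a (l 16777240) (a (b (l 16777128) (l 262160777671)) (l 399062860039))) (a (a (c (l 16777112) (l 153175982455)) (b (l 221358588327) (l 3))) (l 3))) (a (a (b (l 406042181911) (l 3)) (l 3)) (l 3))) (l 3)))))), by decide +kernel⟩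

def k11_mm_202_s : ∃ t, chk3 f_mm_202_s t 247 139 1 = true :=
  ⟨(a (b (a (c (l 16777640) (c (l 16777632) (l 16776968))) (a (b (l 16775600) (b (l 16777168) (a (a (l 16776832) (a (l 115595018743) (b (l 16776928) (l 213842395623)))) (b (a (l 16777400) (a (l 211158041047) (l 283635614247))) (c (l 397452247383) (l 397989118295)))))) (b (b (l 16776088) (a (l 16776504) (a (l 16776800) (a (l 104320729543) (b (l 16776896) (l 196662526407)))))) (b (a (b (l 121500598583) (a (c (l 16777160) (l 180019528135)) (l 372756185287))) (b (a (b (l 183777624407) (l 327659028887)) (l 429127631175)) (l 3))) (l 3))))) (a (a (b (a (l 16777560) (b (l 16775688) (a (l 16777512) (b (l 16776904) (a (l 172503335287) (l 231022264855)))))) (b (a (b (c (l 16777016) (l 123111211431)) (a (a (l 181630140807) (l 240685941287)) (l 405505310999))) (b (a (a (l 236390973975) (l 322827190791)) (l 3)) (l 3))) (l 3))) (b (a (b (l 16777400) (b (a (l 146196660647) (a (l 227264168455) (l 313163514359))) (c (l 406579052935) (l 413021503863))))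 (b (b (l 131701145959) (a (c (l 16777184) (l 192367559159)) (l 387788570855))) (l 3))) (l 3))) (a (a (a (b (b (b (a (l 217600492023) (l 305110450663)) (l 3)) (l 3)) (l 3)) (l 3)) (l 3)) (l 3)))) (b (a (b (b (b (a (l 95193923975) (a (a (b (l 16777320) (l 287393710535)) (l 413558374695)) (l 3))) (a (a (l 16776840) (c (l 217063621319) (a (l 168208368023) (l 364703121559)))) (l 3))) (a (a (b (a (l 16777376) (b (l 177335173431) (l 305647321511))) (a (b (l 256255197623) (l 3)) (l 3))) (b (l 425369534903) (l 3))) (l 3))) (l 3)) (l 3)) (l 3))), by decide +kernel⟩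

def k12_mm_202_s : ∃ t, chk3 f_mm_202_s t 60 35 1 = true :=
  ⟨(b (a (b (a (l 16740440) (l 16746104)) (a (l 16744680) (l 16750792))) (c (c (l 16768208) (l 16768112)) (l 16769320))) (a (b (l 16736744) (a (l 16754144) (l 16760264))) (a (b (l 16772144) (l 16776960)) (b (l 16773792) (a (l 16775936) (b (l 16775752) (a (l 16777408) (b (l 16777072) (a (a (l 16776400) (b (l 16776488) (b (l 16776952) (l 226727297847)))) (a (b (l 16777536) (c (l 364166250855) (l 370608701783))) (b (b (l 177872044743) (l 375440539927)) (l 3)))))))))))), by decide +kernel⟩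

def k13_mm_202_s : ∃ t, chk3 f_mm_202_s t 122 70 1 = true :=
  ⟨(a (a (c (l 16770624) (l 16770544)) (b (l 16758200) (l 16775496))) (a (b (l 16774448) (b (l 16775480) (a (l 16777128) (b (l 16776800) (a (c (l 16776320) (l 96267666071)) (b (a (l 16776608) (a (l 16777560) (b (l 16776960) (l 234780361303)))) (a (b (l 155323466327) (c (l 271824454487) (l 356650057927))) (c (l 402284085783) (l 407652794887))))))))) (a (b (l 16776816) (b (c (l 16777544) (b (l 16772656) (l 16777488))) (a (b (b (l 16776376) (a (l 16777448) (b (l 153175982535) (c (l 257328939847) (l 345375768727))))) (a (b (b (a (l 174113948167) (l 286319968919)) (l 428590760391)) (l 3)) (l 3))) (b (a (b (a (l 16776880) (b (l 16776928) (l 213305524823))) (b (l 375977410839) (l 3))) (b (b (a (l 16777448) (l 271824454247)) (l 416779600279)) (l 3))) (l 3))))) (b (b (l 16766696) (l 16777008)) (b (a (b (l 16775824) (b (a (l 16776544) (a (l 16776848) (b (l 16776896) (l 193441301079)))) (a (b (l 141364822423) (a (l 202031235687) (l 401210343687)))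 (a (b (l 254107714215) (l 3)) (l 3))))) (a (b (l 16777408) (b (b (a (l 16777416) (l 246054650503)) (l 402820956535)) (l 3))) (b (b (l 16776520) (b (l 16777304) (a (l 185925108279) (l 380272378071)))) (l 3)))) (l 3)))))), by decide +kernel⟩

def k14_mm_202_s : ∃ t, chk3 f_mm_202_s t 246 140 1 = true :=
  ⟨(a (b (b (l 16773712) (c (l 16777568) (l 16777432))) (a (b (l 16776672) (a (l 16777504) (b (c (l 16777336) (c (l 16777336) (l 111300051431))) (b (a (l 16776944) (c (l 258939552551) (c (l 260550165271) (l 348596994183)))) (a (a (l 171429593607) (l 285246227095)) (l 3)))))) (a (b (b (l 16776256) (b (l 16777368) (a (l 16776824) (a (l 156934078935) (a (l 241222812199) (l 327122158103)))))) (b (a (b (a (l 16777032) (a (l 187535720855) (l 245517779511))) (c (l 300815483735) (l 380272378135))) (c (l 420000825959) (l 425369535063))) (l 3))) (b (a (b (c (l 16776856) (l 116668760487)) (b (a (a (l 16777400) (l 236927844887)) (l 402284085511)) (l 3))) (b (b (c (l 16777088) (c (l 16777496) (l 159081562679)))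 (c (l 287930581815) (c (l 368998088935) (l 371682443495)))) (l 3))) (l 3))))) (b (a (a (b (l 16775704) (b (c (l 16776624) (l 16777440)) (b (a (l 16776888) (a (a (l 16777456) (l 219211104743)) (l 382956732631))) (a (a (l 16777416) (a (l 222432330231) (l 309405417959))) (l 3))))) (b (b (l 16776200) (b (l 16776656) (a (l 16776768) (a (l 16777392) (a (l 206863073735) (l 276656292375)))))) (b (a (b (c (l 16777064) (l 152102240775)) (a (a (l 213305524711) (l 286856839719)) (l 3))) (a (b (l 374903668935) (l 3)) (l 3))) (l 3)))) (b (a (a (b (l 102710116823) (b (a (l 172503335431) (l 366850605239)) (l 430738244039))) (b (b (c (l 16777040) (l 141364822487)) (a (a (l 197736268215) (l 258402681431)) (l 422148309303))) (l 3))) (a (b (b (b (l 366850605239) (l 3)) (l 3)) (l 3)) (l 3))) (l 3))) (a (a (a (b (b (b (l 404431569271) (l 3)) (l 3)) (l 3)) (l 3)) (l 3)) (l 3)))), by decide +kernel⟩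

def k15_mm_202_s : ∃ t, chk3 f_mm_202_s t 246 141 1 = true :=
  ⟨(a (a (b (b (a (a (b (c (l 16776912) (c (l 16777568) (l 122037469719))) (a (b (l 238001586807) (l 3)) (l 3))) (b (b (a (l 16777056) (l 232096006743)) (l 392083538247)) (l 3))) (a (a (b (l 428590760455) (l 3)) (l 3)) (l 3))) (l 3)) (l 3)) (l 3)) (l 3)), by decide +kernel⟩

def k16_mm_202_s : ∃ t, chk3 f_mm_202_s t 247 70 1 = true :=
  ⟨(l 3), by decide +kernel⟩

def k17_mm_202_s : ∃ t, chk3 f_mm_202_s t 244 71 1 = true :=
  ⟨(b (a (a (l 16777072) (b (l 16766952) (l 16777264))) (a (b (l 16773776) (b (l 16776936) (a (c (l 16777760) (c (l 16777592) (b (l 16774832) (l 124184953559)))) (b (a (l 16776744) (b (l 16776984) (a (l 194515042903) (l 309942289111)))) (a (b (a (l 16777104) (l 254107714215)) (l 408726536583)) (l 3)))))) (b (a (l 16777592) (c (l 103246988311) (b (l 16772528) (c (l 16777696) (l 104857600631))))) (a (b (b (l 16776512) (a (c (l 16776920) (l 127406178951)) (b (a (l 16777072) (l 239075328615)) (l 395304763735))))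 (a (b (b (l 356113187031) (l 3)) (l 3)) (l 3))) (b (b (a (a (l 134385500887) (b (l 16777056) (l 290614936231))) (b (l 345375768727) (l 3))) (l 3)) (l 3)))))) (a (a (a (b (l 16777736) (b (b (l 16777552) (a (b (l 16776912) (l 215453008631)) (c (l 275045680391) (c (l 360408154407) (l 362555638055))))) (a (b (l 418927084135) (l 3)) (l 3)))) (b (b (l 16773984) (a (l 16776328) (b (l 16776416) (b (l 16776880) (l 201494364887))))) (b (b (a (b (l 166060884615) (l 362018767079)) (l 408726536759)) (l 3)) (l 3)))) (b (b (a (l 16777400) (b (l 16777232) (a (c (l 16776984) (l 151565370119)) (a (b (l 16777464) (l 419463954743)) (l 380809249127))))) (a (b (a (l 16777472) (b (l 16777544) (l 348596994231))) (a (a (b (l 16777496) (l 3)) (l 392620409239)) (l 3))) (c (l 413558375575) (c (l 417853342855) (b (l 413558375159) (l 3)))))) (l 3))) (a (a (b (b (b (c (l 324437803127) (a (b (l 16777016) (l 251960230743)) (l 389399183815))) (l 3)) (l 3)) (l 3)) (l 3)) (l 3)))), by decide +kernel⟩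

def k18_mm_202_s : ∃ t, chk3 f_mm_202_s t 245 71 1 = true :=
  ⟨(b (b (a (a (a (b (l 16775952) (a (b (l 16776680) (b (a (l 16777040) (l 218674233943)) (l 377588023591))) (b (a (l 127406178967) (b (l 16777024) (l 273971937911))) (l 422148309607)))) (b (b (l 16776440) (a (l 119353115271) (b (l 165524013719) (l 365239992567)))) (a (b (a (b (l 206326202983) (l 3)) (l 413021503959)) (l 3)) (l 3)))) (a (b (b (a (a (l 16777432) (b (l 16776992) (l 248202134167))) (a (b (l 188609462855) (l 3)) (l 396915376551))) (c (l 416779600711) (c (l 421074567991) (l 423222051639)))) (l 3)) (l 3))) (l 3)) (l 3)) (l 3)), by decide +kernel⟩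

def k19_mm_202_s : ∃ t, chk3 f_mm_202_s t 123 71 1 = true :=
  ⟨(l 3), by decide +kernel⟩

def k20_mm_202_s : ∃ t, chk3 f_mm_202_s t 31 17 1 = true :=
  ⟨(a (b (a (b (l 14) (b (b (l 14) (b (l 14) (l 3))) (l 3))) (l 3)) (l 3)) (l 3)), by decide +kernel⟩

def k21_mm_202_s : ∃ t, chk3 f_mm_202_s t 28 18 1 = true :=
  ⟨(b (a (b (l 16672232) (l 16680696)) (b (l 16697528) (l 16706256))) (a (l 16736672) (b (a (l 16709040) (l 16690312)) (a (l 16697648) (b (l 16728296) (l 16733472)))))), by decide +kernel⟩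

def k22_mm_202_s : ∃ t, chk3 f_mm_202_s t 58 18 1 = true :=
  ⟨(a (b (b (l 16715848) (b (l 16722480) (l 16727040))) (a (b (l 16730496) (l 16740464)) (l 16754920))) (b (b (a (l 16724864) (l 16710216)) (b (l 16734408) (l 16739208))) (b (b (l 16743960) (l 16748800)) (l 16768592)))), by decide +kernel⟩

def k23_mm_202_s : ∃ t, chk3 f_mm_202_s t 59 36 1 = true :=
  ⟨(b (a (a (l 16715840) (l 16721744)) (l 16762576)) (b (c (l 16768904) (l 16768616)) (a (l 16730664) (c (l 16774624) (l 16774472))))), by decide +kernel⟩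

def k24_mm_202_s : ∃ t, chk3 f_mm_202_s t 59 37 1 = true :=
  ⟨(b (a (c (l 16769464) (l 16769224)) (a (b (l 16765792) (c (l 16775976) (l 16777208))) (b (b (l 16776080) (b (l 16777920) (a (l 16767088) (c (l 16778112) (a (l 16772064) (c (l 16777568) (l 129016792407))))))) (a (b (l 16778112) (a (a (l 16778080) (b (l 16775632) (b (l 16776560) (l 203641849527)))) (a (b (l 16777728) (a (b (l 16777776) (l 3)) (l 387788571431))) (b (b (l 16777832) (l 345912639815)) (l 3))))) (b (b (a (l 16777240) (a (b (l 16777448) (l 330343383207)) (b (l 358797541815) (l 3)))) (a (a (c (l 16776744) (l 149417887287)) (a (b (l 16777032) (l 410337149511)) (l 372219314839))) (l 3))) (a (c (l 410337151207) (b (c (l 407652795847) (l 409800279479)) (l 3))) (l 3))))))) (a (a (c (l 16776104) (l 16775944)) (b (l 16775888) (a (c (l 16777968) (l 16777912)) (b (c (l 16774616) (l 16777864)) (a (a (l 118279374903) (b (l 16776056) (a (l 197736269751) (l 333564608759)))) (b (c (l 212231785719) (a (l 158007822023) (l 345912639911)))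 (l 410874021431))))))) (a (b (b (a (l 16772808) (a (l 16777792) (b (l 129553663543) (a (b (l 16776656) (l 220821718807)) (b (l 334638350551) (l 3)))))) (b (a (l 16774664) (a (a (l 145659790903) (b (l 191830689431) (l 388862313079))) (l 422685181655))) (b (a (l 121500599927) (c (l 399599732615) (a (l 378124895095) (l 3)))) (a (a (l 16775416) (a (l 16776592) (l 238538458999))) (l 3))))) (a (b (b (a (c (l 16776336) (l 138680469111)) (a (b (l 209010558743) (l 408189666071)) (l 3))) (a (a (b (l 16776864) (l 260013295495)) (l 382956733351)) (l 3))) (l 3)) (l 3))) (b (a (a (b (b (a (b (l 177335174615) (l 362555638247)) (l 408189666407)) (l 3)) (l 3)) (l 3)) (l 3)) (l 3))))), by decide +kernel⟩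

def k25_mm_202_s : ∃ t, chk3 f_mm_202_s t 28 19 1 = true :=
  ⟨(b (a (b (a (l 16702824) (l 16715568)) (a (l 16712920) (l 16725416))) (a (b (l 16696536) (l 16738416)) (b (l 16761936) (l 16751024)))) (b (b (a (l 16727032) (l 16768072)) (a (l 16753224) (a (l 16751144) (l 16774024)))) (a (l 16761024) (a (l 16769168) (a (c (l 16778424) (l 16778288)) (b (c (l 16771552) (l 16776712)) (a (a (l 16776696) (b (l 16774384) (b (l 16776184) (l 233169751847)))) (a (b (l 145659792215) (b (l 339470189031) (l 3))) (b (b (l 171429595943) (l 364166251511)) (l 3)))))))))), by decide +kernel⟩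

def k26_mm_202_s : ∃ t, chk3 f_mm_202_s t 29 38 1 = true :=
  ⟨(a (a (b (l 16774512) (a (l 16760384) (c (l 16777168) (l 16777008)))) (b (a (l 16770776) (b (l 16766680) (a (l 16770064) (b (l 16771944) (l 16777032))))) (a (b (c (l 16770384) (l 16775528)) (a (c (l 16778960) (b (l 16767200) (l 16778176))) (a (b (l 16774792) (b (l 161229048295) (a (l 242833427239) (l 3)))) (b (c (l 159081565367) (b (l 16775712) (l 193978174167))) (b (l 374903669943) (l 3)))))) (b (a (b (l 16773760) (a (l 16778056) (b (l 147270404103) (a (l 213305526871) (l 384030475223))))) (a (b (a (l 16775696) (b (l 16775864) (l 202568108407))) (c (l 370071832183) (b (l 356113187639) (l 3)))) (b (b (a (l 16776624) (a (l 216526751815) (l 350207607239))) (l 391009797415)) (l 3)))) (a (a (b (b (a (l 167671498775) (l 345912639975)) (l 413558376071)) (l 3)) (l 3)) (l 3)))))) (a (b (a (b (a (l 16776608) (b (l 16773264) (a (l 16774944) (b (l 16775896) (a (l 155860338423) (a (l 227264170199) (l 364703122007))))))) (b (b (a (l 16774448)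 (a (a (l 16776400) (a (l 169818982135) (l 234243492151))) (l 400136603047))) (a (c (l 16778296) (l 134922373207)) (a (a (l 342154543543) (l 3)) (l 3)))) (a (a (b (l 16777432) (a (l 188609464567) (l 355039445623))) (b (a (a (l 200420624327) (l 252497103191)) (l 404968440919)) (l 3))) (l 3)))) (b (a (a (b (c (l 16775616) (l 126332438327)) (b (a (a (l 16778160) (l 220821719159)) (l 367387476743)) (l 3))) (b (c (b (l 16777848) (l 342691414631)) (a (b (l 16776168) (l 320142835767)) (b (l 183240755095) (l 423222052055)))) (l 3))) (a (b (c (l 383493605255) (b (c (l 374903669847) (l 377051153495)) (l 3))) (l 3)) (l 3))) (l 3))) (a (b (a (b (c (l 420537699847) (a (l 423222053367) (l 3))) (l 3)) (l 3)) (l 3)) (l 3))) (l 3))), by decide +kernel⟩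

def k27_mm_202_s : ∃ t, chk3 f_mm_202_s t 29 39 1 = true :=
  ⟨(a (a (b (a (b (l 16767824) (a (l 16771200) (b (l 16773032) (c (l 16778080) (c (l 142975437591) (l 141901695751)))))) (b (a (l 16777680) (b (l 16774288) (a (a (l 16775576) (l 152102243223)) (b (l 195588786471) (l 370071831655))))) (a (a (b (l 16775328) (c (l 330343383447) (b (l 210621172791) (l 404968441319)))) (b (c (l 177335177399) (b (l 16776232) (l 321753448519))) (l 3))) (a (b (b (l 343765156455) (l 3)) (l 3)) (l 3))))) (a (b (a (b (l 16778448) (a (b (l 16775904) (l 213305527623)) (a (b (l 16778304) (l 3)) (l 382956733991)))) (b (a (b (l 16777808) (l 341080801815)) (a (l 372219315543) (l 3))) (l 3))) (a (b (c (l 410874023207) (l 414095248631)) (l 3)) (l 3))) (l 3))) (b (a (b (a (a (b (c (l 168745242263) (b (l 16775976) (l 211694914791))) (l 411410893143)) (b (c (l 348596995095) (b (l 324974674087) (l 3))) (l 3))) (l 3)) (l 3)) (l 3)) (l 3))) (l 3)), by decide +kernel⟩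

def k28_mm_202_s : ∃ t, chk3 f_mm_202_s t 120 36 1 = true :=
  ⟨(b (b (l 16772480) (b (l 16773488) (a (l 16764920) (l 16776408)))) (a (b (l 16773800) (a (b (l 16765416) (l 16778344)) (b (l 16776416) (a (c (l 16778096) (c (l 16778080) (l 110226310343))) (a (b (l 16776032) (b (l 166597756295) (a (l 249275876711) (l 3)))) (b (a (l 16777608) (b (l 16776720) (l 237464716615))) (b (l 394231022247) (l 3)))))))) (b (a (a (l 16776408) (b (l 16768896) (b (l 16772048) (l 16777536)))) (b (a (l 16777024) (b (l 16775368) (a (l 16776208) (b (l 16777344) (a (l 181630141559) (l 364703121767)))))) (a (b (a (l 16775856) (a (l 16776448) (b (l 16776536) (l 191293818055)))) (a (b (l 138143597463) (a (l 201494365447) (l 385641087463))) (b (b (l 340007059671) (l 417853342359)) (l 3)))) (a (b (b (a (l 16777584) (a (l 210621170743) (l 283635614775))) (l 394231022247)) (l 3)) (l 3))))) (a (b (b (a (l 16775552) (a (a (l 16777848) (b (l 16776624) (l 212768654631))) (b (a (l 153175983063) (l 343765156055)) (l 411410891543))))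 (a (a (l 16777696) (b (l 154786595991) (a (l 225653556519) (l 416779600471)))) (a (a (b (l 353965703447) (l 3)) (l 3)) (l 3)))) (a (a (b (b (a (l 184851367031) (l 363629379943)) (l 3)) (l 3)) (l 3)) (l 3))) (l 3))))), by decide +kernel⟩

def k29_mm_202_s : ∃ t, chk3 f_mm_202_s t 242 72 1 = true :=
  ⟨(b (a (l 16769768) (a (l 16774752) (b (l 16769864) (l 16777568)))) (a (b (l 16776064) (a (c (l 16775120) (l 16777720)) (a (b (l 16775680) (b (l 16776608) (a (l 163913401303) (l 344838897895)))) (c (b (l 16776472) (l 353428832823)) (b (l 120963728327) (a (b (l 202568107111) (l 3)) (l 406042182503))))))) (a (b (a (l 16777392) (b (l 16775600) (b (l 16776528) (a (l 16777592) (a (l 212231783495) (l 361481896215)))))) (b (a (b (a (l 16776768) (a (l 16777544) (l 217600492663))) (a (a (l 226727298119) (l 374903669063)) (l 3))) (a (b (l 377588023735) (l 3)) (l 3))) (l 3))) (b (b (a (c (l 16776400) (l 16777536)) (b (c (l 16776872) (c (l 16777520) (l 147270402999))) (a (a (l 199346881575) (l 349670736087))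 (l 422685180519)))) (a (b (a (a (l 16777672) (l 205789332535)) (l 368461218167)) (l 3)) (l 3))) (l 3))))), by decide +kernel⟩

def k30_mm_202_s : ∃ t, chk3 f_mm_202_s t 243 72 1 = true :=
  ⟨(b (b (b (a (l 16776872) (a (a (l 16777552) (b (c (l 16776728) (l 16777536)) (a (b (l 16776984) (l 237464716151)) (c (l 373829927319) (l 379198636439))))) (a (a (b (b (l 189683204871) (l 393694150999)) (l 3)) (l 3)) (l 3)))) (a (b (l 16777792) (a (l 16772376) (b (l 113984406231) (a (l 16776344) (a (l 16776936) (l 250886489015)))))) (a (a (b (a (l 138680468327) (b (l 209547428599) (l 408726536583))) (a (l 384030474711) (l 3))) (l 3)) (l 3)))) (a (a (b (c (l 16775920) (l 16777224)) (b (a (l 16776448) (c (l 211694913015) (a (l 164450272087) (l 353428832503)))) (a (a (l 16777512) (b (l 16777424) (l 289541194631))) (l 416779600695)))) (b (a (b (c (l 16776800) (l 134922371959)) (a (b (l 16777384) (l 269676970903)) (l 400136602119))) (a (b (b (l 224042943255) (l 424832663991)) (l 3)) (l 3))) (l 3))) (l 3)))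 (a (a (a (b (b (a (b (b (l 247665263511) (l 3)) (l 3)) (l 3)) (l 3)) (l 3)) (l 3)) (l 3)) (l 3))), by decide +kernel⟩

def k31_mm_202_s : ∃ t, chk3 f_mm_202_s t 121 73 1 = true :=
  ⟨(a (b (a (b (a (a (c (b (l 16776552) (l 363629380279)) (a (b (l 16776360) (b (l 227264169095) (l 3))) (b (l 138143597575) (l 425906406359)))) (b (b (a (l 16776848) (a (l 185388237767) (l 248202134615))) (c (l 371682443815) (l 376514282023))) (l 3))) (a (c (l 420537698247) (b (l 421611439255) (l 3))) (l 3))) (l 3)) (l 3)) (l 3)) (l 3)), by decide +kernel⟩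

def k32_mm_202_s : ∃ t, chk3 f_mm_202_s t 60 37 1 = true :=
  ⟨(a (b (a (b (a (b (b (l 16777568) (a (l 16775392) (a (c (l 16776568) (l 134922372215)) (b (a (l 16776856) (l 215989880119)) (l 372756185639))))) (a (a (b (l 16776224) (b (a (l 16776944) (l 241759683927)) (l 396915376823))) (b (b (l 16776704) (a (l 189146334359) (l 365776863607))) (l 3))) (a (b (a (b (l 228337911127) (l 3)) (l 421611439079)) (l 3)) (l 3)))) (a (b (a (b (a (l 138680468743) (b (l 16776808) (l 264308262231))) (l 416242730151)) (b (a (b (l 204178720023) (l 3)) (l 406042182503)) (l 3))) (l 3)) (l 3))) (l 3)) (l 3)) (l 3)) (l 3)), by decide +kernel⟩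

def k33_mm_202_s : ∃ t, chk3 f_mm_202_s t 61 18 1 = true :=
  ⟨(l 3), by decide +kernel⟩

def k34_mm_202_s : ∃ t, chk3 f_mm_202_s t 31 18 1 = true :=
  ⟨(l 3), by decide +kernel⟩

def k35_mm_202_s : ∃ t, chk3 f_mm_202_s t 15 19 1 = true :=
  ⟨(l 3), by decide +kernel⟩

def k36_mm_202_s : ∃ t, chk3 f_mm_202_s t 12 10 1 = true :=
  ⟨(b (a (b (l 16614184) (l 16633232)) (b (l 16561272) (l 16665696))) (a (l 16660336) (b (l 16684728) (a (l 16672584) (l 16710728))))), by decide +kernel⟩

def k37_mm_202_s : ∃ t, chk3 f_mm_202_s t 13 10 1 = true :=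
  ⟨(b (a (b (a (l 16672032) (b (l 16685048) (l 16695800))) (a (l 16650568) (l 16729072))) (b (a (b (a (l 16699872) (l 16709912)) (a (l 16709960) (l 16720424))) (a (l 16726072) (l 16758376))) (a (l 16751296) (b (l 16767784) (a (l 16751064) (c (l 16783240) (l 16772536))))))) (a (a (b (l 16710952) (l 16728800)) (b (l 16729536) (b (l 16742960) (l 16751592)))) (b (a (b (l 16744600) (a (l 16727688) (l 16758928))) (a (b (l 16770944) (a (l 16777376) (b (l 16770056) (a (l 16773208) (b (l 16774816) (a (l 186461982247) (l 331953996407))))))) (b (a (c (l 16779256) (l 16779144)) (b (c (l 16772040) (l 16777208)) (a (b (l 16774056) (c (l 202031239671) (a (l 16775632) (l 216526754167)))) (b (c (l 220821722743) (a (l 16776152) (l 326048416023))) (c (l 389936057367) (l 389399186423)))))) (a (b (a (c (l 16774208) (l 16778752)) (b (c (l 16778448) (l 172503338487)) (c (l 342154544247) (a (l 313700384711) (l 399062862311))))) (a (b (a (l 212768657991) (l 362555639383)) (l 3)) (l 3))) (a (a (b (b (l 343765156791)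 (l 3)) (l 3)) (l 3)) (l 3)))))) (a (a (b (l 16757560) (b (l 16764096) (l 16778888))) (b (a (l 16765232) (b (l 16768272) (c (l 16772712) (l 16777896)))) (a (b (l 16771792) (a (c (l 16780064) (l 157470953703)) (b (l 195588789223) (l 350207608807)))) (b (a (b (l 16774640) (c (l 214916142311) (l 209547432999))) (b (c (l 233169754279) (l 300815482567)) (l 404968443575))) (a (b (l 381346122599) (l 3)) (l 3)))))) (a (b (a (b (a (l 16772264) (b (l 16773848) (c (l 16778680) (l 180019531559)))) (a (b (l 167134629399) (c (l 324974674487) (l 322827190839))) (b (c (l 346449511943) (l 344302028295)) (l 3)))) (b (a (a (b (l 16775872) (l 350744479031)) (b (l 229948527783) (l 3))) (b (l 391546670407) (l 3))) (l 3))) (l 3)) (l 3)))))), by decide +kernel⟩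

def k38_mm_202_s : ∃ t, chk3 f_mm_202_s t 12 11 1 = true :=
  ⟨(b (a (b (l 16685432) (l 16722072)) (b (a (l 16667704) (l 16727304)) (a (l 16725560) (l 16765296)))) (a (b (a (l 16709304) (l 16703512)) (l 16760920)) (b (a (l 16741208) (b (l 16775952) (b (l 16781792) (l 16780424)))) (b (a (l 16752784) (a (l 16776464) (c (a (l 185925115479) (b (l 209547434887) (l 349133866551))) (a (l 182167019271) (b (l 205789338583) (l 351281348855)))))) (a (l 16781368) (a (a (b (l 16769472) (l 16773264)) (b (l 184851371447) (a (l 232632884983) (l 353965703479)))) (a (b (c (l 328732771271) (l 327659028583)) (l 3)) (l 3)))))))), by decide +kernel⟩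

def k39_mm_202_s : ∃ t, chk3 f_mm_202_s t 13 11 1 = true :=
  ⟨(b (a (b (a (l 16770304) (a (b (l 16755280) (l 16763504)) (b (l 16775296) (a (b (l 16768616) (l 16772712)) (b (a (l 16772272) (l 162302792967)) (a (b (l 16775360) (l 236927851127)) (b (l 317995352839) (l 3)))))))) (a (b (l 16778456) (a (l 16760752) (a (l 16778192) (b (l 16770424) (c (l 182167017175) (l 16779600)))))) (b (a (a (l 16779680) (b (l 16771960) (a (l 16774760) (b (l 16776152) (l 340543931815))))) (a (b (a (l 185925114535) (b (l 233169753991) (l 381346122791))) (a (l 371682447335) (l 3))) (b (a (l 396915381815) (l 3)) (l 3)))) (a (a (b (b (l 16774168) (a (l 16774968) (l 248739011255))) (a (b (l 224579819495) (l 380272380151)) (l 400673476855))) (b (a (b (l 262697655927) (l 3)) (l 3)) (l 3))) (l 3))))) (b (a (a (b (a (b (l 16770128) (a (l 16773080) (b (l 16774552) (l 206863078823)))) (b (a (l 16773928) (b (l 16775424) (l 309405417623))) (a (b (l 223506078055) (l 392083541303)) (l 3)))) (a (b (a (b (l 189683208775) (l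 337322706567)) (b (l 369534962167) (l 3))) (l 3)) (l 3))) (b (a (b (a (b (l 329269642295) (l 3)) (l 3)) (l 3)) (l 3)) (l 3))) (l 3)) (l 3))) (a (a (b (a (b (c (l 16779176) (a (l 16766232) (l 16776120))) (a (b (l 16772160) (b (l 16780312) (l 239612207703))) (b (b (l 207399950711) (a (l 16779208) (l 386177959271))) (l 389399185815)))) (b (a (b (b (l 16772640) (l 16778536)) (a (c (l 224579820199) (l 210621176439)) (b (l 262697655607) (l 3)))) (b (a (b (l 196662530311) (l 278803783511)) (b (l 359334413959) (l 3))) (l 3))) (a (b (l 412484636263) (l 3)) (l 3)))) (a (b (a (b (a (l 349670736791) (l 3)) (l 3)) (l 3)) (l 3)) (l 3))) (l 3)) (l 3))), by decide +kernel⟩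

def k40_mm_202_s : ∃ t, chk3 f_mm_202_s t 28 40 1 = true :=
  ⟨(a (a (c (l 16768640) (l 16767176)) (b (l 16766760) (a (l 16773528) (a (l 16778080) (b (l 16768200) (l 16778280)))))) (a (b (a (b (l 16752560) (l 16767896)) (b (l 16779600) (a (l 16777664) (b (l 16774224) (a (l 16778480) (b (l 173040208631) (l 363629380567))))))) (a (b (a (l 16771216) (b (l 16773024) (c (l 16775424) (l 147807276039)))) (a (b (l 16777448) (c (a (l 16779080) (l 348596994951)) (a (l 169818983799) (l 348060124039)))) (b (a (b (l 16776464) (l 341080801783)) (l 380272379767)) (l 3)))) (b (a (b (a (l 16775272) (b (l 16776168) (l 234243493735))) (a (b (l 216526753063) (l 391009797591)) (l 417316473591))) (b (c (l 378124896695) (a (l 363629380951) (l 3))) (l 3))) (l 3)))) (b (a (b (b (a (l 16772432) (b (l 16774832) (l 154249727223))) (a (l 16777448) (a (b (l 16776456) (l 338933318103)) (a (l 369534960919) (l 3))))) (a (b (a (c (l 16779056) (l 164987145639)) (b (l 234243493655) (l 418390214519))) (c (l 409800281415) (l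 411410894119))) (l 3))) (b (a (a (b (b (l 213305527591) (l 389936055735)) (l 3)) (l 3)) (l 3)) (l 3))) (l 3)))), by decide +kernel⟩

def k41_mm_202_s : ∃ t, chk3 f_mm_202_s t 28 41 1 = true :=
  ⟨(b (b (a (a (l 16761520) (a (l 16775616) (a (b (l 16773656) (c (l 169818984711) (a (l 16775304) (l 204178722855)))) (b (c (l 210621175271) (a (l 16775880) (l 315847867607))) (c (l 381882993223) (a (l 367387477447) (l 3))))))) (a (a (a (b (c (l 408726539735) (l 412484636087)) (l 3)) (l 3)) (l 3)) (l 3))) (a (a (l 16777528) (a (a (c (l 16773744) (l 16778936)) (a (b (l 16774736) (b (l 16776520) (l 347523252871))) (b (l 165524016775) (l 385104218151)))) (a (b (c (l 357723801191) (a (l 334101479863) (l 3))) (l 3)) (l 3)))) (l 3))) (a (a (a (b (l 16768304) (a (l 16771592) (b (l 16773288) (c (l 16775632) (l 167671500039))))) (b (b (l 16778152) (a (l 16773824) (c (l 216526755319) (a (l 16775984) (l 321753448455))))) (a (b (c (l 175724564903) (a (l 16775440) (l 211694915671))) (c (l 363092510519) (a (l 340007060119)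 (l 3)))) (a (b (l 371682444951) (l 3)) (l 3))))) (a (b (a (b (c (l 312626641207) (a (l 193978174919) (l 352891962423))) (l 411410894519)) (l 3)) (l 3)) (l 3))) (l 3))), by decide +kernel⟩

def k42_mm_202_s : ∃ t, chk3 f_mm_202_s t 28 21 1 = true :=
  ⟨(a (b (a (b (a (b (a (b (l 16777712) (c (l 316921610023) (a (l 199346884327) (l 358260671767)))) (b (c (l 340007060263) (a (l 227264172791) (l 393694152919))) (l 3))) (a (b (l 414095249287) (l 3)) (l 3))) (l 3)) (l 3)) (l 3)) (l 3)) (l 3)), by decide +kernel⟩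

def k43_mm_202_s : ∃ t, chk3 f_mm_202_s t 29 10 1 = true :=
  ⟨(l 3), by decide +kernel⟩

def k44_mm_202_s : ∃ t, chk3 f_mm_202_s t 15 10 1 = true :=
  ⟨(l 3), by decide +kernel⟩

def k45_mm_202_s : ∃ t, chk3 f_mm_202_s t 7 11 1 = true :=
  ⟨(l 3), by decide +kernel⟩

def k46_mm_202_s : ∃ t, chk3 f_mm_202_s t 3 3 1 = true :=
  ⟨(b (a (b (a (b (a (b (a (l 16739688) (b (l 16751144) (l 16779568))) (a (l 16775240) (a (b (l 16761944) (l 16779608)) (b (b (l 16768168) (l 16779680)) (a (b (l 16773360) (a (l 215453013751) (l 313700384391))) (b (a (l 229411658599) (l 339470187863)) (l 412484630231))))))) (b (a (a (b (l 16763632) (b (l 16769224) (a (l 16770784) (l 207936822311)))) (b (a (l 16780600) (b (l 16772616) (b (l 16779688) (l 295983644231)))) (a (b (a (l 16774624) (l 237464723271)) (a (l 330880253719) (l 3))) (b (l 375977410087) (l 3))))) (a (a (b (b (b (l 219211110535) (l 317995352199)) (l 399599730455)) (l 3)) (l 3)) (l 3))) (a (a (b (a (b (l 196662531927) (a (l 242833432823) (l 366850604167)))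 (b (a (l 305110450103) (l 397989116999)) (l 3))) (l 3)) (l 3)) (l 3)))) (a (b (b (a (l 16775216) (b (a (a (l 16772400) (a (l 16775360) (l 291151806167))) (l 401210339863)) (a (a (l 223506079287) (l 366313732231)) (l 3)))) (a (a (l 16767824) (a (b (l 16771584) (l 207399949351)) (b (l 215453014279) (a (l 301352353431) (l 391009794007))))) (a (a (b (l 345912637895) (l 3)) (l 3)) (l 3)))) (a (a (b (a (l 16777736) (b (l 16774448) (a (l 238538463271) (l 335712090903)))) (a (b (a (l 229411656887) (l 312089771239)) (l 380809245559)) (l 3))) (b (a (b (a (l 248739011671) (l 362018765159)) (l 3)) (l 3)) (l 3))) (l 3))) (l 3))) (l 3)) (l 3)) (l 3)) (l 3)), by decide +kernel⟩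

theorem s47_mm_202_s : ∃ t, chk3 f_mm_202_s t 28 20 1 = true := ex3_b k40_mm_202_s k41_mm_202_s

theorem s48_mm_202_s : ∃ t, chk3 f_mm_202_s t 28 10 1 = true := ex3_b s47_mm_202_s k42_mm_202_s

theorem s49_mm_202_s : ∃ t, chk3 f_mm_202_s t 14 10 1 = true := ex3_a s48_mm_202_s k43_mm_202_s

theorem s50_mm_202_s : ∃ t, chk3 f_mm_202_s t 7 10 1 = true := ex3_a s49_mm_202_s k44_mm_202_s

theorem s51_mm_202_s : ∃ t, chk3 f_mm_202_s t 7 5 1 = true := ex3_b s50_mm_202_s k45_mm_202_s

theorem s52_mm_202_s : ∃ t, chk3 f_mm_202_s t 6 11 1 = true := ex3_a k38_mm_202_s k39_mm_202_s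

theorem s53_mm_202_s : ∃ t, chk3 f_mm_202_s t 6 10 1 = true := ex3_a k36_mm_202_s k37_mm_202_s

theorem s54_mm_202_s : ∃ t, chk3 f_mm_202_s t 6 5 1 = true := ex3_b s53_mm_202_s s52_mm_202_s

theorem s55_mm_202_s : ∃ t, chk3 f_mm_202_s t 3 5 1 = true := ex3_a s54_mm_202_s s51_mm_202_s

theorem s56_mm_202_s : ∃ t, chk3 f_mm_202_s t 121 72 1 = true := ex3_a k29_mm_202_s k30_mm_202_s

theorem s57_mm_202_s : ∃ t, chk3 f_mm_202_s t 121 36 1 = true := ex3_b s56_mm_202_s k31_mm_202_s

theorem s58_mm_202_s : ∃ t, chk3 f_mm_202_s t 60 36 1 = true := ex3_a k28_mm_202_s s57_mm_202_s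

theorem s59_mm_202_s : ∃ t, chk3 f_mm_202_s t 60 18 1 = true := ex3_b s58_mm_202_s k32_mm_202_s

theorem s60_mm_202_s : ∃ t, chk3 f_mm_202_s t 30 18 1 = true := ex3_a s59_mm_202_s k33_mm_202_s

theorem s61_mm_202_s : ∃ t, chk3 f_mm_202_s t 15 18 1 = true := ex3_a s60_mm_202_s k34_mm_202_s

theorem s62_mm_202_s : ∃ t, chk3 f_mm_202_s t 15 9 1 = true := ex3_b s61_mm_202_s k35_mm_202_s

theorem s63_mm_202_s : ∃ t, chk3 f_mm_202_s t 29 19 1 = true := ex3_b k26_mm_202_s k27_mm_202_s

theorem s64_mm_202_s : ∃ t, chk3 f_mm_202_s t 14 19 1 = true := ex3_a k25_mm_202_s s63_mm_202_s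

theorem s65_mm_202_s : ∃ t, chk3 f_mm_202_s t 59 18 1 = true := ex3_b k23_mm_202_s k24_mm_202_s

theorem s66_mm_202_s : ∃ t, chk3 f_mm_202_s t 29 18 1 = true := ex3_a k22_mm_202_s s65_mm_202_s

theorem s67_mm_202_s : ∃ t, chk3 f_mm_202_s t 14 18 1 = true := ex3_a k21_mm_202_s s66_mm_202_s

theorem s68_mm_202_s : ∃ t, chk3 f_mm_202_s t 14 9 1 = true := ex3_b s67_mm_202_s s64_mm_202_s

theorem s69_mm_202_s : ∃ t, chk3 f_mm_202_s t 7 9 1 = true := ex3_a s68_mm_202_s s62_mm_202_s

theorem s70_mm_202_s : ∃ t, chk3 f_mm_202_s t 122 71 1 = true := ex3_a k17_mm_202_s k18_mm_202_s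

theorem s71_mm_202_s : ∃ t, chk3 f_mm_202_s t 61 71 1 = true := ex3_a s70_mm_202_s k19_mm_202_s

theorem s72_mm_202_s : ∃ t, chk3 f_mm_202_s t 246 70 1 = true := ex3_b k14_mm_202_s k15_mm_202_s

theorem s73_mm_202_s : ∃ t, chk3 f_mm_202_s t 123 70 1 = true := ex3_a s72_mm_202_s k16_mm_202_s

theorem s74_mm_202_s : ∃ t, chk3 f_mm_202_s t 61 70 1 = true := ex3_a k13_mm_202_s s73_mm_202_s

theorem s75_mm_202_s : ∃ t, chk3 f_mm_202_s t 61 35 1 = true := ex3_b s74_mm_202_s s71_mm_202_s

theorem s76_mm_202_s : ∃ t, chk3 f_mm_202_s t 30 35 1 = true := ex3_a k12_mm_202_s s75_mm_202_s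

theorem s77_mm_202_s : ∃ t, chk3 f_mm_202_s t 247 69 1 = true := ex3_b k10_mm_202_s k11_mm_202_s

theorem s78_mm_202_s : ∃ t, chk3 f_mm_202_s t 123 69 1 = true := ex3_a k9_mm_202_s s77_mm_202_s

theorem s79_mm_202_s : ∃ t, chk3 f_mm_202_s t 61 69 1 = true := ex3_a k8_mm_202_s s78_mm_202_s

theorem s80_mm_202_s : ∃ t, chk3 f_mm_202_s t 61 34 1 = true := ex3_b k7_mm_202_s s79_mm_202_s

theorem s81_mm_202_s : ∃ t, chk3 f_mm_202_s t 30 34 1 = true := ex3_a k6_mm_202_s s80_mm_202_s

theorem s82_mm_202_s : ∃ t, chk3 f_mm_202_s t 30 17 1 = true := ex3_b s81_mm_202_s s76_mm_202_s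

theorem s83_mm_202_s : ∃ t, chk3 f_mm_202_s t 15 17 1 = true := ex3_a s82_mm_202_s k20_mm_202_s

theorem s84_mm_202_s : ∃ t, chk3 f_mm_202_s t 15 8 1 = true := ex3_b k5_mm_202_s s83_mm_202_s

theorem s85_mm_202_s : ∃ t, chk3 f_mm_202_s t 7 8 1 = true := ex3_a k4_mm_202_s s84_mm_202_s

theorem s86_mm_202_s : ∃ t, chk3 f_mm_202_s t 7 4 1 = true := ex3_b s85_mm_202_s s69_mm_202_s

theorem s87_mm_202_s : ∃ t, chk3 f_mm_202_s t 3 4 1 = true := ex3_a k3_mm_202_s s86_mm_202_s

theorem s88_mm_202_s : ∃ t, chk3 f_mm_202_s t 3 2 1 = true := ex3_b s87_mm_202_s s55_mm_202_s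

theorem s89_mm_202_s : ∃ t, chk3 f_mm_202_s t 3 1 1 = true := ex3_b s88_mm_202_s k46_mm_202_s

theorem s90_mm_202_s : ∃ t, chk3 f_mm_202_s t 2 3 1 = true := ex3_b k1_mm_202_s k2_mm_202_s

theorem s91_mm_202_s : ∃ t, chk3 f_mm_202_s t 2 1 1 = true := ex3_b k0_mm_202_s s90_mm_202_s

theorem s92_mm_202_s : ∃ t, chk3 f_mm_202_s t 1 1 1 = true := ex3_a s91_mm_202_s s89_mm_202_s

theorem c_mm_202_s : CertNE 0 536870912 1073741824 536870912 740881858 40050571 3 eng mog cd0q2 cd5q2 pd0 false false false .pp 2 0 2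
    ndB0q2 ndB5q2 pcB0 cut_mm_202_s Ext.none :=
  certNE1 (fam := false) (s1 := false) (s2 := false) (a := 2) (b := 0) (c := 2) (cn := .pp) (n1 := ndB0q2) (n2 := ndB5q2) (pc := pcB0) (cut := cut_mm_202_s) (xt := Ext.none) (P1 := 0) (W1 := 536870912) (P2 := 1073741824) (W2 := 536870912) (P3 := 740881858) (W3 := 40050571) (N0 := 3) (En := eng) (mo := mog) (C1 := cd0q2) (C2 := cd5q2) (C3 := pd0)
    rfl (fun _ => rfl) s92_mm_202_s

noncomputable def cut_mm_203_s : Cut := Cut.of [[⟨4, 0, 0, 1449551462⟩]]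

noncomputable def f_mm_203_s : ℕ → ℕ → ℕ → ℕ → Bool := onCell 0 536870912 0 1230186008 740881858 40050571
    (rowNE 3 eng mog cd0q2 cd5q3 pd0 0 false false false .up 2 0 3 (qsf 0 536870912 0 1230186008 0) ndB0q2 ndB5q3 pcB0 cut_mm_203_s Ext.none)

def k0_mm_203_s : ∃ t, chk3 f_mm_203_s t 1 2 1 = true :=
  ⟨(l 2), by decide +kernel⟩

def k1_mm_203_s : ∃ t, chk3 f_mm_203_s t 1 6 1 = true :=
  ⟨(l 2), by decide +kernel⟩

def k2_mm_203_s : ∃ t, chk3 f_mm_203_s t 2 14 1 = true :=
  ⟨(a (b (l 2) (b (l 2) (a (a (l 16755512) (b (l 16767864) (l 16762160))) (a (b (b (l 6055467670695) (a (l 241759700375) (l 343765145607))) (a (l 16770344) (a (b (l 249275888151) (l 16773504)) (b (l 346986373799) (l 286856837783))))) (l 3))))) (l 3)), by decide +kernel⟩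

def k3_mm_203_s : ∃ t, chk3 f_mm_203_s t 4 15 1 = true :=
  ⟨(b (a (a (b (l 16740984) (l 16722784)) (b (l 16751768) (l 16797896))) (b (a (b (a (l 16764048) (b (l 16772200) (l 16768992))) (l 16760584)) (b (a (a (b (l 296520513607) (l 16774592)) (b (l 3) (l 307257930119))) (l 3)) (b (a (l 229948511671) (l 348060112087)) (a (l 16769872) (a (l 250349632391) (l 348596986471)))))) (a (l 16748672) (b (a (l 16764400) (a (l 16770632) (b (l 255718345799) (l 16773056)))) (l 16771240))))) (a (b (a (l 16701248) (l 16714464)) (l 16683208)) (b (a (b (l 16734888) (l 16724296)) (b (l 16751984) (l 16742224))) (a (l 16727392) (b (l 16731544) (l 16719568)))))), by decide +kernel⟩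

def k4_mm_203_s : ∃ t, chk3 f_mm_203_s t 5 15 1 = true :=
  ⟨(b (a (b (l 3) (a (a (b (a (b (l 361481886327) (a (l 250349629319) (l 312089768647))) (l 3)) (a (b (l 16773696) (l 16769776)) (b (a (l 259476421287) (l 330880248695)) (l 229948514039)))) (b (l 3) (a (b (l 3) (a (l 297594266007) (l 362555630567))) (l 3)))) (l 3))) (l 3)) (a (b (a (b (a (l 16765824) (a (b (a (l 16773848) (l 249812759415)) (l 16770856)) (b (b (l 3) (l 317458477143)) (a (l 219747983911) (b (l 307794802663) (l 244444045303)))))) (a (l 16756640) (b (l 16768928) (l 16764280)))) (a (b (a (b (l 3) (a (l 327122152231) (l 3))) (l 3)) (a (b (a (b (l 248739012727) (l 16774152)) (b (l 349670732039) (l 252497109143))) (b (l 16773192) (l 16770880))) (b (l 366313724055) (a (b (a (l 249275882087) (l 308868545191)) (l 16774864)) (b (l 3) (a (l 258402687639) (l 337859573607))))))) (l 3))) (a (b (l 16751608) (l 16740528)) (b (a (b (a (l 16767272) (b (l 225116678599) (l 16771472))) (l 16764984)) (b (a (b (c (l 343765149095) (l 347523247143))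 (a (l 245517787079) (l 333027735063))) (l 3)) (a (a (l 16771936) (b (l 249275884407) (l 16773528))) (a (b (l 343765152487) (l 251960237799)) (b (l 3) (l 357723795399)))))) (a (l 16757024) (b (a (l 16768272) (a (l 16772624) (b (l 262697647191) (l 16774280)))) (l 16765928)))))) (b (l 3) (a (b (l 3) (a (a (b (a (b (l 368998083767) (a (l 249275881431) (l 324974672423))) (l 3)) (a (l 217600484119) (b (l 311552900071) (l 16775048)))) (b (l 3) (a (b (l 3) (l 319605963127)) (l 3)))) (l 3))) (l 3))))), by decide +kernel⟩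

def k5_mm_203_s : ∃ t, chk3 f_mm_203_s t 3 7 1 = true :=
  ⟨(l 3), by decide +kernel⟩

theorem s6_mm_203_s : ∃ t, chk3 f_mm_203_s t 2 15 1 = true := ex3_a k3_mm_203_s k4_mm_203_s

theorem s7_mm_203_s : ∃ t, chk3 f_mm_203_s t 2 7 1 = true := ex3_b k2_mm_203_s s6_mm_203_s

theorem s8_mm_203_s : ∃ t, chk3 f_mm_203_s t 1 7 1 = true := ex3_a s7_mm_203_s k5_mm_203_s

theorem s9_mm_203_s : ∃ t, chk3 f_mm_203_s t 1 3 1 = true := ex3_b k1_mm_203_s s8_mm_203_s

theorem s10_mm_203_s : ∃ t, chk3 f_mm_203_s t 1 1 1 = true := ex3_b k0_mm_203_s s9_mm_203_s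

theorem c_mm_203_s : CertNE 0 536870912 0 1230186008 740881858 40050571 3 eng mog cd0q2 cd5q3 pd0 false false false .up 2 0 3
    ndB0q2 ndB5q3 pcB0 cut_mm_203_s Ext.none :=
  certNE0 (fam := false) (s1 := false) (s2 := false) (a := 2) (b := 0) (c := 3) (cn := .up) (n1 := ndB0q2) (n2 := ndB5q3) (pc := pcB0) (cut := cut_mm_203_s) (xt := Ext.none) (P1 := 0) (W1 := 536870912) (P2 := 0) (W2 := 1230186008) (P3 := 740881858) (W3 := 40050571) (N0 := 3) (En := eng) (mo := mog) (C1 := cd0q2) (C2 := cd5q3) (C3 := pd0)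
    rfl s10_mm_203_s

noncomputable def cut_mm_213_s : Cut := Cut.of [[⟨4, 0, 0, 1449551462⟩]]

noncomputable def f_mm_213_s : ℕ → ℕ → ℕ → ℕ → Bool := onCell 0 536870912 0 1230186008 740881858 40050571
    (rowNE 3 eng mog cd0q2 cd5q3 pd1 0 false false false .pnn 2 1 3 (qsf 0 536870912 0 1230186008 1) ndB0q2 ndB5q3 pcB1 cut_mm_213_s Ext.none)

def k0_mm_213_s : ∃ t, chk3 f_mm_213_s t 1 1 1 = true :=
  ⟨(b (a (l 3) (b (l 5) (l 3))) (b (a (b (l 3) (a (l 3) (l 3))) (l 3)) (a (b (a (b (a (a (b (a (b (l 301352347863) (l 233169758583)) (l 320142864023)) (a (l 16765416) (b (a (l 16774016) (l 287930577879)) (l 16770144)))) (b (l 3) (a (b (l 341080789191) (a (l 242296563543) (l 302426090375))) (l 3)))) (l 3)) (b (a (a (b (l 16758296) (l 16749088)) (a (b (l 212231797319) (l 16764104)) (b (a (l 284709352263) (l 333027729287)) (b (l 233706631479) (l 16771400))))) (a (a (b (l 3) (a (l 297594283975) (l 3))) (l 3)) (l 3))) (b (a (a (l 16737752) (l 16760488)) (a (a (a (l 205252479511) (b (l 297057383031)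 (l 231559142871))) (a (l 314774138951) (l 3))) (l 3))) (l 1)))) (l 3)) (b (a (l 1) (a (l 1) (l 3))) (l 1))) (l 3)))), by decide +kernel⟩

theorem c_mm_213_s : CertNE 0 536870912 0 1230186008 740881858 40050571 3 eng mog cd0q2 cd5q3 pd1 false false false .pnn 2 1 3
    ndB0q2 ndB5q3 pcB1 cut_mm_213_s Ext.none :=
  certNE0 (fam := false) (s1 := false) (s2 := false) (a := 2) (b := 1) (c := 3) (cn := .pnn) (n1 := ndB0q2) (n2 := ndB5q3) (pc := pcB1) (cut := cut_mm_213_s) (xt := Ext.none) (P1 := 0) (W1 := 536870912) (P2 := 0) (W2 := 1230186008) (P3 := 740881858) (W3 := 40050571) (N0 := 3) (En := eng) (mo := mog) (C1 := cd0q2) (C2 := cd5q3) (C3 := pd1)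
    rfl k0_mm_213_s

end Pool.Agent.Strip051.G.I69_7273.Tab.CS.BB05

namespace Pool.Agent.Strip051.G.I69_7273.Tab.CS.BB50

open Pool.Agent.Strip051.PB Pool.Agent.Strip051.PB.T
open Pool.Agent.Strip051.G.I69_7273.Tab

noncomputable def cut_pp_001_s : Cut := Cut.of [[⟨4, 0, 0, 1449551462⟩]]

noncomputable def f_pp_001_s : ℕ → ℕ → ℕ → ℕ → Bool := onCell 0 536870912 536870912 536870912 740881858 40050571
    (rowNE 3 eng mog cd5q0 cd0q1 pd0 2 false true true .up 0 0 1 (qsf 0 536870912 536870912 536870912 0) ndB5q0 ndB0q1 pcB0 cut_pp_001_s Ext.none)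

def k0_pp_001_s : ∃ t, chk3 f_pp_001_s t 2 1 1 = true :=
  ⟨(b (l 3) (b (b (l 3) (l 2)) (l 2))), by decide +kernel⟩

def k1_pp_001_s : ∃ t, chk3 f_pp_001_s t 6 2 1 = true :=
  ⟨(l 3), by decide +kernel⟩

def k2_pp_001_s : ∃ t, chk3 f_pp_001_s t 7 4 1 = true :=
  ⟨(l 3), by decide +kernel⟩

def k3_pp_001_s : ∃ t, chk3 f_pp_001_s t 14 10 1 = true :=
  ⟨(l 3), by decide +kernel⟩

def k4_pp_001_s : ∃ t, chk3 f_pp_001_s t 14 22 1 = true :=
  ⟨(a (l 3) (b (l 3) (a (l 3) (b (a (l 3) (c (b (l 524690642615) (a (l 509658261927) (b (a (l 467782334007) (l 265918863815)) (l 173040197271)))) (b (l 521469416071) (a (l 509121390391) (l 282561850391))))) (a (b (a (l 3) (b (l 3) (a (l 3) (c (l 343765155351) (l 16771696))))) (a (b (l 517174454871) (a (l 501068330071) (c (l 287930571607) (l 16776600)))) (c (b (a (l 305110439431) (l 16774352)) (l 16772416)) (l 210084284263)))) (a (b (b (a (l 382956725927) (l 16775344)) (l 16774704)) (l 16778768)) (l 16776376))))))), by decide +kernel⟩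

def k5_pp_001_s : ∃ t, chk3 f_pp_001_s t 28 46 1 = true :=
  ⟨(a (l 3) (b (l 3) (a (l 3) (b (l 3) (a (l 3) (b (l 3) (a (l 3) (c (b (a (l 3) (c (a (l 511268879111) (b (l 3) (a (l 363092507207) (l 270213839191)))) (l 420000824439))) (c (a (b (a (l 3) (l 491404656039)) (c (a (b (l 3) (a (l 509121396343) (l 300278610535))) (a (b (l 312626641255) (l 16776872)) (l 16776744))) (l 352891958823))) (b (a (a (b (l 435570081543) (l 16777016)) (l 172503333751)) (l 16776376)) (l 16775896))) (l 320679698647))) (l 348596993351))))))))), by decide +kernel⟩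

def k6_pp_001_s : ∃ t, chk3 f_pp_001_s t 56 47 1 = true :=
  ⟨(b (l 3) (a (l 3) (b (a (l 3) (b (l 3) (a (l 3) (c (b (l 3) (a (l 3) (c (b (l 3) (a (l 3) (a (l 410337148599) (b (l 319069094855) (l 16776976))))) (l 433959467959)))) (l 471540429463))))) (a (b (l 3) (a (l 3) (c (b (a (l 3) (c (l 477446011463) (l 481204107703))) (c (b (a (l 3) (a (l 404431568487) (a (l 177872044807) (l 16776760)))) (a (a (l 3) (l 355576315703)) (l 72645345863))) (l 325511539319))) (l 387251698199)))) (c (a (b (b (l 3) (a (l 3) (c (b (a (l 3) (c (b (l 476372270503) (l 345375767143)) (l 315847870343))) (a (a (l 425906404999) (b (l 340543931271) (l 16777016))) (l 101099504119))) (l 273435069719)))) (c (b (a (a (b (l 480667237607) (a (a (l 282561872919) (l 233706619559)) (l 16776904))) (b (b (l 386177957655) (l 158007820887)) (l 16776424))) (l 16777152)) (l 16777512)) (a (l 241759675959) (l 16774968)))) (b (c (b (a (b (l 465097980807) (a (l 440938790359) (a (b (l 331953996711) (l 16777000)) (l 101636374999)))) (c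 (a (b (b (l 370071829031) (a (l 175724560951) (l 16776824))) (l 16776384)) (l 16777448)) (l 114521277815))) (b (a (a (a (b (l 265382003399) (l 16776848)) (l 16776720)) (l 16776232)) (l 16775240)) (l 16777712))) (b (a (l 384030473559) (l 16776424)) (l 16775440))) (l 16775632))) (b (a (l 436643821127) (l 247128382071)) (l 161765908087))))))), by decide +kernel⟩

def k7_pp_001_s : ∃ t, chk3 f_pp_001_s t 114 94 1 = true :=
  ⟨(b (l 3) (a (l 3) (b (a (l 3) (c (b (l 3) (c (a (b (l 3) (a (l 3) (c (b (l 3) (l 460803014183)) (l 466708593943)))) (b (a (l 3) (c (b (a (l 3) (a (l 461339885319) (b (l 471540432711) (l 253570842167)))) (c (a (a (l 413558374247) (b (l 363092508007) (l 16777096))) (l 112910663319)) (l 264308259495))) (l 305110446903))) (c (a (a (b (l 473687916167) (a (b (l 369534958935) (l 16777112)) (l 174650817991))) (b (b (a (l 477446012727) (l 314237254935)) (b (l 248739003879) (l 16777056))) (l 16776800))) (l 16777160)) (l 235317228695)))) (l 371682439815))) (l 420000823207))) (c (b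 (a (a (l 3) (c (b (l 3) (a (l 3) (a (l 472077303239) (b (l 477982883415) (a (b (l 456508047191) (l 142975434983)) (l 210621168999)))))) (l 460266142375))) (c (a (c (b (a (b (l 3) (a (l 3) (a (l 442012532535) (b (l 300815481927) (l 16777128))))) (a (b (a (l 474761658071) (b (l 3) (l 270750711127))) (l 159081561447)) (a (b (b (l 270750710887) (l 16777040)) (l 16776736)) (l 16777104)))) (a (a (b (b (l 403894697847) (a (l 313700384023) (l 16777056))) (l 16776840)) (l 16777360)) (l 16776216))) (b (l 323364058455) (l 16776528))) (l 16776928)) (l 220284840103))) (a (c (a (b (l 3) (a (l 475298528471) (c (a (b (l 3) (b (l 302426095623) (l 219211103607))) (b (a (l 408189665127) (a (l 257865809095) (l 164987142423))) (l 16776872))) (l 314774123607)))) (c (b (a (b (l 451139337815) (a (a (l 458655530759) (a (l 301889223463) (l 259476421751))) (l 190756945111))) (b (a (a (a (l 254107712615) (l 239612198263)) (l 16777008)) (l 16776760)) (l 16776520))) (l 16777232)) (b (l 271287580055) (l 16776232)))) (a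 (l 417316469831) (l 16776616))) (l 16776912))) (a (l 370608700231) (l 16775328)))))), by decide +kernel⟩

def k8_pp_001_s : ∃ t, chk3 f_pp_001_s t 230 376 1 = true :=
  ⟨(a (l 3) (c (b (l 3) (a (l 3) (c (b (l 3) (a (l 3) (c (b (l 3) (a (l 3) (c (b (a (l 3) (c (b (l 3) (c (a (l 3) (a (b (l 3) (l 373829926871)) (b (l 311016029991) (l 16777184)))) (l 311016029575))) (l 309942287447))) (c (a (b (l 477446012791) (a (a (l 3) (b (l 3) (a (l 300278611783) (l 304573579095)))) (b (a (l 384030474103) (l 232096006039)) (l 129553661863)))) (c (b (a (c (b (a (b (l 3) (l 307794804551)) (l 341080801127)) (a (b (l 313163513703) (l 16777192)) (l 16777168))) (l 290078064311)) (l 16777128)) (l 16777232)) (l 215989878391))) (l 295983644055))) (l 312089770311)))) (l 450602466775)))) (l 472614173159)))) (l 480667234487))), by decide +kernel⟩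

def k9_pp_001_s : ∃ t, chk3 f_pp_001_s t 460 377 2 = true :=
  ⟨(b (l 3) (a (l 3) (c (b (a (l 3) (a (l 3) (a (l 3) (b (l 3) (b (l 3) (l 457581789031)))))) (c (b (a (l 3) (c (a (b (l 3) (b (l 468856078119) (a (l 3) (a (l 381882990295) (l 238538456871))))) (c (b (a (a (l 481204109159) (b (l 3) (l 305110449767))) (a (a (l 331417124599) (l 228874780343)) (l 16777104))) (a (l 176261430935) (l 16776944))) (l 255718325351))) (l 304573578215))) (b (a (l 3) (a (a (b (a (l 3) (l 371145572071)) (l 263234518743)) (l 16777072)) (l 16776824))) (a (a (l 3) (a (l 465634852695) (a (b (l 308331675143) (l 257865809719)) (l 232096005799)))) (l 16777112)))) (l 340007056631))) (l 394767891719)))), by decide +kernel⟩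

def k10_pp_001_s : ∃ t, chk3 f_pp_001_s t 922 754 4 = true :=
  ⟨(b (l 3) (a (l 3) (c (b (a (l 3) (c (b (l 3) (c (b (b (l 470466690871) (a (l 3) (a (l 3) (l 348596993927)))) (a (l 3) (a (b (l 301352353463) (l 259476422503)) (l 16777144)))) (l 302426094279))) (l 426443276055))) (c (c (a (b (l 466708594423) (a (a (l 3) (b (l 3) (l 377588023159))) (a (b (l 374903668455) (l 16777152)) (l 142975434535)))) (b (a (a (b (b (l 3) (l 299204869767)) (l 248739004199)) (a (b (l 304036708023) (l 16777128)) (l 146733530951))) (l 16777032)) (l 16777240))) (a (l 378124893415) (l 183240752391))) (l 284709354279))) (l 304573575815)))), by decide +kernel⟩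

def k11_pp_001_s : ∃ t, chk3 f_pp_001_s t 923 754 4 = true :=
  ⟨(c (b (b (a (a (l 3) (a (l 3) (a (l 3) (b (l 3) (l 475298529143))))) (c (a (a (b (l 3) (c (a (b (a (l 3) (a (l 3) (b (l 3) (l 307257933623)))) (b (a (a (l 3) (l 300278611783)) (l 265382002519)) (l 175187689367))) (b (a (b (l 3) (l 305110449975)) (b (l 373829926871) (l 16777176))) (l 16777120))) (l 313163513143))) (c (b (b (a (l 3) (b (l 3) (a (a (l 3) (l 308868546375)) (l 269140098903)))) (a (a (b (l 3) (a (l 307257933623) (l 302962966359))) (b (l 384567344999) (l 197736267703))) (a (a (l 209547427719) (l 16777168)) (l 16777136)))) (l 16777208)) (l 255718325559))) (b (c (a (a (a (b (a (b (l 301889224535) (l 16777184)) (l 205789331319)) (l 16777096)) (l 16777184)) (l 16777040)) (l 16776920)) (l 16777000)) (l 16777128))) (l 247665261127))) (a (c (a (b (l 3) (a (l 3) (a (l 479056625511) (b (l 3) (a (b (l 3) (l 267529486167)) (l 244980907879)))))) (a (a (b (l 3) (b (b (a (l 3) (l 381346119543)) (l 277730033527)) (l 16777136)))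 (b (a (l 475835400071) (b (l 3) (b (l 306184191719) (l 257865809831)))) (l 76403441607))) (c (b (a (a (b (l 3) (l 233169747799)) (b (b (l 3) (l 304036708151)) (l 16777152))) (a (b (a (l 346449510279) (l 244980907879)) (l 16777104)) (l 16777200))) (l 16777304)) (l 202031234423)))) (l 342691412599)) (l 16777152))) (a (c (b (a (c (b (c (a (b (l 462413627271) (a (b (l 3) (a (l 305647320807) (l 305647320887))) (l 228337909527))) (a (b (b (l 320679706375) (l 16777176)) (l 16777096)) (l 16777064))) (a (l 368998088167) (l 16777104))) (a (l 86603988871) (l 16776904))) (l 235854101527)) (l 16777080)) (l 16777168)) (l 138680466295)) (l 16777360))) (b (a (l 395841633943) (l 16776848)) (l 16776368))), by decide +kernel⟩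

def k12_pp_001_s : ∃ t, chk3 f_pp_001_s t 461 755 4 = true :=
  ⟨(a (b (c (c (a (b (a (l 3) (a (a (l 461339885367) (b (l 3) (b (l 380272377559) (l 16777168)))) (b (b (l 481204109175) (a (l 391546666695) (l 269140098839))) (a (l 166597754631) (l 16777048))))) (a (a (b (l 476909141815) (a (b (l 384567344839) (l 16777176)) (l 195051912903))) (b (a (b (l 3) (l 271824453303)) (b (l 304573578855) (l 16777128))) (l 16777016))) (l 16777200))) (a (b (c (a (a (b (b (l 314237255319) (l 16777120)) (l 16776968)) (l 16777152)) (l 16776864)) (l 16776944)) (l 16776536)) (l 16777064))) (a (b (l 393694150407) (l 238001584743)) (l 16776568))) (l 246054646903)) (l 16777232)) (l 16776464)), by decide +kernel⟩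

def k13_pp_001_s : ∃ t, chk3 f_pp_001_s t 461 377 5 = true :=
  ⟨(b (a (l 442549402487) (l 246591516407)) (l 151565365415)), by decide +kernel⟩

def k14_pp_001_s : ∃ t, chk3 f_pp_001_s t 230 377 3 = true :=
  ⟨(a (l 464024237095) (l 263771378839)), by decide +kernel⟩

def k15_pp_001_s : ∃ t, chk3 f_pp_001_s t 231 188 1 = true :=
  ⟨(c (b (a (c (b (a (l 3) (b (a (l 3) (b (l 503752687111) (c (a (l 421074566967) (l 257328938007)) (l 16777200)))) (c (a (b (a (l 3) (b (l 504289558279) (l 356650057143))) (a (b (l 461876756311) (a (l 313163513015) (l 16777072))) (l 16776920))) (a (b (l 196662525271) (l 16776592)) (l 16776456))) (l 285246223591)))) (a (c (b (b (a (l 3) (a (l 504826429079) (a (b (l 505363300167) (l 284172484103)) (b (l 301352353111) (l 16777000))))) (a (a (l 3) (a (l 3) (a (l 471540432679) (b (l 3) (b (l 309405416999) (l 16777168)))))) (c (a (b (a (b (l 3) (a (l 340543929879) (l 298667998887))) (l 241222811239)) (l 109152566983)) (l 16776784)) (l 16776944)))) (a (c (c (b (a (b (l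 514490105559) (a (a (l 3) (l 464561110935)) (a (b (l 431811985095) (l 265918873383)) (b (l 300815482647) (l 16777104))))) (b (a (a (b (l 3) (l 322827189911)) (b (l 312089771607) (l 16777136))) (l 16777064)) (l 16777272))) (a (b (b (a (a (a (b (l 3) (l 389936054119)) (b (l 338396446439) (l 277193162647))) (l 213842394951)) (l 16777040)) (l 53317992359)) (l 16777200)) (l 16776640))) (b (a (l 405505310551) (l 237464714423)) (l 16777128))) (b (l 345912638295) (l 16776800))) (l 16776992))) (b (l 361481893031) (l 227801036343))) (c (l 16777048) (l 16775720)))) (b (l 393157273495) (l 260550158023))) (c (b (a (b (a (a (a (b (l 299741739895) (l 16776816)) (l 16776848)) (l 16776600)) (l 16776088)) (l 16776920)) (l 16774664)) (l 16776328)) (l 16774456))) (c (a (a (c (l 16776936) (l 16774608)) (l 16778520)) (l 16771256)) (l 16777736))) (b (a (l 298667986823) (l 16774360)) (l 16772328))), by decide +kernel⟩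

def k16_pp_001_s : ∃ t, chk3 f_pp_001_s t 115 189 1 = true :=
  ⟨(c (a (b (a (c (b (a (b (a (l 3) (c (b (l 3) (a (l 480667237991) (c (c (b (b (l 463487369015) (a (l 3) (l 287930580727))) (a (a (l 302426094951) (l 255718325959)) (l 16777056))) (l 305110448599)) (l 344838896503)))) (l 422148308519))) (c (a (a (b (l 3) (a (l 3) (a (l 452749950791) (b (l 3) (l 192367558871))))) (b (l 460803014327) (a (b (l 393157279351) (l 16777080)) (l 119889985223)))) (c (b (a (a (b (l 459192401767) (l 235317231127)) (a (b (l 316384738759) (l 16777024)) (l 16777048))) (l 16776840)) (l 16776600)) (l 179482655239))) (l 283098740087))) (c (b (a (c (b (a (a (c (l 443086274359) (l 444160016183)) (b (l 443086274423) (l 208473685607))) (a (a (b (l 330880253687) (l 16777008)) (l 16777192)) (l 16776904))) (l 52781121255)) (b (l 275045677799) (l 16776744))) (l 16776936)) (l 16777112)) (l 136532981511))) (a (b (c (a (c (a (a (b (b (l 270750711127) (l 16777008)) (l 16776704)) (l 16777392)) (l 16777144)) (l 16776648))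 (l 16775992)) (l 16776312)) (l 16776808)) (l 16774568))) (b (a (l 346449510055) (l 16776168)) (l 16775184))) (c (l 16776000) (l 16773280))) (c (l 16776712) (l 16776560))) (l 16775480)) (a (b (a (l 228337900503) (l 16773128)) (l 16771080)) (l 16767128))), by decide +kernel⟩

def k17_pp_001_s : ∃ t, chk3 f_pp_001_s t 57 95 1 = true :=
  ⟨(a (b (a (a (b (l 3) (c (c (b (a (b (l 3) (a (l 3) (c (b (l 3) (l 393157278839)) (l 433422597623)))) (c (b (a (l 459729272151) (c (b (a (l 460266143415) (l 271287581399)) (l 199346879303)) (l 270750709159))) (a (a (b (l 308331675255) (l 16776952)) (l 16776824)) (l 16776336))) (b (l 350207606519) (l 16776648)))) (a (c (b (b (a (l 473151045079) (a (l 313163512423) (l 16776880))) (a (a (l 444160016103) (l 166060884487)) (l 16776640))) (l 98415148007)) (c (l 244980904135) (l 244444033207))) (l 16776760))) (b (l 351281342791) (l 199346875255))) (l 268603216343))) (c (c (b (b (a (l 3) (a (b (l 3) (a (l 476372270455) (b (l 3) (b (l 301889223351) (l 153712853303)))))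 (c (b (b (l 3) (l 436643823239)) (a (b (a (l 432348856135) (l 256792067255)) (l 16776904)) (l 16777424))) (l 319605962071)))) (b (b (a (l 465097981047) (b (a (a (l 304573578007) (l 16776928)) (l 16776424)) (l 16777208))) (a (a (l 3) (a (l 413558374183) (a (l 171966464455) (l 16776992)))) (l 16776248))) (a (c (a (b (l 415168986823) (a (a (l 301352352343) (l 184314495383)) (l 16776928))) (l 98952019303)) (l 164450272743)) (l 16775640)))) (a (l 16776904) (l 16776240))) (b (b (l 418927082103) (a (l 306184185319) (l 16776016))) (l 16774192))) (b (l 321216566759) (l 16774064)))) (c (b (a (a (c (a (b (c (b (c (b (a (l 443086274295) (a (l 246054648999) (l 16777040))) (b (l 192904428615) (l 16776784))) (l 267529484487)) (l 16776280)) (l 213842392247)) (l 16775056)) (l 16777168)) (l 16775480)) (l 16776792)) (l 16777392)) (l 16775456)) (l 16776792))) (c (a (b (c (l 16776952) (l 16772216)) (l 16779504)) (l 16775792)) (l 16777928))) (b (c (c (l 16774448) (l 16774088)) (l 16773544)) (l 16769808))), by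 decide +kernel⟩

def k18_pp_001_s : ∃ t, chk3 f_pp_001_s t 29 46 1 = true :=
  ⟨(a (b (a (a (l 3) (a (l 3) (b (l 3) (c (l 517174460039) (l 518785066743))))) (b (a (l 3) (a (b (l 3) (a (l 507510781495) (b (l 511268878615) (l 283098737799)))) (c (b (l 439865046967) (b (l 260013286839) (l 16774776))) (l 293299271255)))) (a (c (b (a (l 3) (a (l 439328176535) (b (l 426980146247) (l 16776336)))) (a (a (b (l 3) (l 297057380583)) (b (l 340543930135) (l 16775792))) (l 16777152))) (b (l 415705855271) (l 269140084631))) (c (b (a (l 126869302615) (l 16772264)) (l 16770336)) (l 16771832))))) (a (b (a (b (l 3) (a (l 3) (c (b (l 3) (a (l 3) (c (b (l 471003561239) (l 294909898999)) (l 313163507255)))) (l 443086272135)))) (c (b (a (b (l 3) (a (l 3) (l 424832662599))) (a (b (l 495162751703) (l 255718321959)) (b (l 290078059223) (l 16775240)))) (a (c (b (a (b (l 508584524727) (l 322290319303)) (l 200957490167)) (l 16776696)) (l 264845122615)) (l 16773432))) (b (l 352891949751) (l 209547417527)))) (a (c (b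 (a (b (a (l 3) (l 508047653287)) (c (a (b (l 3) (a (l 3) (l 386177957591))) (b (a (l 431275114023) (l 262697645943)) (l 163376527735))) (l 338933317303))) (c (b (a (c (b (l 379735503943) (l 247665259847)) (l 299204864519)) (l 16775792)) (l 16777456)) (l 218674226343))) (a (c (b (a (a (b (a (l 421611437751) (l 300815480791)) (l 16776520)) (l 16777560)) (l 16775232)) (l 16776888)) (l 16775032)) (l 16777560))) (b (a (l 395841632727) (l 16775544)) (l 16773536))) (c (l 16775088) (l 16769536)))) (a (c (b (l 16776176) (l 16764312)) (l 16777736)) (l 16774888)))) (b (a (b (a (c (b (a (c (l 257865801031) (l 16776104)) (l 16773320)) (l 16771384)) (l 16772928)) (l 16777744)) (l 16773864)) (l 16776272)) (a (l 16774280) (l 16741968)))), by decide +kernel⟩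

def k19_pp_001_s : ∃ t, chk3 f_pp_001_s t 29 47 1 = true :=
  ⟨(a (b (a (b (c (a (l 16773984) (l 16763256)) (l 16775984)) (l 16772136)) (l 16772176)) (a (l 16769968) (l 16737920))) (a (l 16775328) (l 16722248))), by decide +kernel⟩

def k20_pp_001_s : ∃ t, chk3 f_pp_001_s t 15 5 1 = true :=
  ⟨(b (a (b (l 3) (b (l 3) (a (l 3) (b (a (l 3) (b (l 3) (l 516100706871))) (c (a (l 526838128567) (b (a (l 525764388375) (l 276656268887)) (a (l 262160756791) (l 16770000)))) (a (l 510731995175) (b (l 365239968679) (l 178408893655)))))))) (b (b (l 3) (a (l 3) (b (l 3) (a (l 3) (b (l 487109680199) (a (l 454360558759) (l 218137345111))))))) (b (a (b (l 3) (a (l 3) (b (a (l 3) (l 386177955127)) (a (l 359334389511) (l 16773104))))) (b (a (b (a (l 3) (l 433422593831)) (a (l 410874016247) (l 171429578119))) (b (a (l 196125638807) (l 16770280)) (l 16767048))) (a (b (a (l 16773808) (l 16768632)) (l 16765112)) (l 16779160)))) (a (b (a (b (a (l 3) (l 312626625431)) (a (l 318532208567) (l 16771608))) (b (l 16772224)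 (l 16784232))) (a (a (l 16767456) (l 16761808)) (l 16774504))) (a (b (l 16776752) (l 16743024)) (l 16760624)))))) (a (b (b (a (b (a (l 3) (b (l 3) (a (l 3) (b (l 520932551111) (l 356113185703))))) (a (b (l 3) (a (l 3) (c (b (l 443086271463) (l 278266889543)) (l 314237229623)))) (b (a (b (l 504289554039) (l 321216559607)) (c (l 16773048) (l 16773056))) (a (l 16777392) (l 16766192))))) (b (a (b (a (l 438791302711) (b (l 274508791319) (l 16773112))) (a (b (l 249275861207) (l 16772224)) (l 16767904))) (l 16773000)) (a (l 16771176) (l 16748680)))) (a (b (a (b (a (c (b (l 389936052439) (l 239075315623)) (l 319605941495)) (l 16771216)) (l 16777832)) (l 16779968)) (a (l 16778168) (l 16745552))) (c (l 16776952) (l 16776672)))) (b (a (c (l 16774176) (l 16752056)) (l 16729816)) (a (l 16705648) (l 16683496)))) (b (a (b (a (l 16775624) (l 16754288)) (l 16732344)) (b (l 16760152) (l 16690104))) (a (b (l 16686112) (l 16661496)) (l 16662224))))), by decide +kernel⟩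

def k21_pp_001_s : ∃ t, chk3 f_pp_001_s t 12 6 1 = true :=
  ⟨(b (b (l 3) (a (l 3) (b (l 3) (a (l 3) (b (l 3) (a (b (l 3) (l 2)) (b (a (l 3) (b (a (l 3) (l 459729269655)) (a (c (l 417853339831) (l 426980144887)) (a (b (l 392083537111) (l 16776192)) (l 16778400))))) (a (b (b (l 461876752871) (l 2)) (l 2)) (c (b (a (l 117742504999) (l 16773048)) (l 16770880)) (l 78014059015)))))))))) (b (a (l 2) (b (a (l 2) (b (a (l 2) (b (l 81168175703) (l 2))) (l 2))) (l 2))) (l 2))), by decide +kernel⟩

def k22_pp_001_s : ∃ t, chk3 f_pp_001_s t 26 24 1 = true :=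
  ⟨(l 3), by decide +kernel⟩

def k23_pp_001_s : ∃ t, chk3 f_pp_001_s t 26 50 1 = true :=
  ⟨(a (b (l 3) (a (l 3) (b (l 3) (a (l 3) (b (a (l 3) (l 445770626071)) (a (c (l 411947759799) (l 420537693959)) (a (b (l 385641086167) (l 16776296)) (l 128479922887)))))))) (b (a (b (l 3) (a (l 3) (b (l 3) (a (l 3) (l 446844368039))))) (b (a (l 3) (b (a (l 3) (l 444160013687)) (a (c (b (l 3) (l 358260669831)) (l 404431566999)) (a (b (l 280951262743) (l 16776000)) (l 16775568))))) (a (b (a (l 3) (a (l 409800276455) (b (l 414632115191) (l 16776472)))) (a (c (b (l 366850604311) (l 152639113543)) (l 209547433303)) (l 16777352))) (b (c (a (b (l 145122920567) (l 16774744)) (l 16773152)) (l 16774160)) (l 16776368))))) (a (b (a (a (l 3) (b (l 3) (a (l 412484630855) (b (l 433422596919) (l 16777944))))) (b (a (c (l 406579050823) (l 415168985015)) (a (b (l 374366797159) (l 16776200)) (l 118816245943))) (c (a (b (l 158544693719) (l 16774936)) (l 16773384)) (l 16774384)))) (a (b (a (c (b (l 375977409655) (l 163913403111))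 (l 216526755687)) (l 97341409815)) (l 16778184)) (l 16780280))) (a (b (l 16777824) (l 16765024)) (l 16773816))))), by decide +kernel⟩

def k24_pp_001_s : ∃ t, chk3 f_pp_001_s t 26 51 1 = true :=
  ⟨(a (b (a (b (a (l 3) (b (l 3) (a (l 3) (l 453823689623)))) (a (a (l 3) (b (l 3) (a (l 434496338071) (b (l 450602465943) (l 16776664))))) (b (a (c (l 418927081591) (l 427517015735)) (c (b (l 279877517815) (l 16775704)) (l 173040210487))) (c (a (b (l 160692177639) (l 16774864)) (l 16773264)) (l 16778296))))) (b (a (b (a (l 3) (a (l 426980145335) (b (l 442549402279) (l 16778328)))) (a (c (b (l 385641085975) (l 162839661319)) (l 217600497559)) (l 16778168))) (b (c (a (b (l 163913403143) (l 16774952)) (l 16773392)) (l 16778360)) (l 16776520))) (c (b (l 16778408) (l 16777776)) (l 16779096)))) (a (b (a (b (a (c (b (l 385641085991) (l 156934081175)) (l 213305530263)) (l 16777416)) (l 16777904)) (l 16779888)) (l 16775520)) (l 16774392))) (a (b (a (l 16775368) (l 16781112)) (l 16749064)) (b (l 16773912)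 (l 16739440)))), by decide +kernel⟩

def k25_pp_001_s : ∃ t, chk3 f_pp_001_s t 27 48 1 = true :=
  ⟨(a (l 3) (b (l 3) (a (b (l 3) (a (l 3) (b (l 3) (a (l 3) (c (b (l 459729270647) (a (l 423758920727) (l 168745240615))) (l 382956731031)))))) (b (a (b (l 3) (a (l 3) (c (l 458118657239) (l 468856074919)))) (b (a (l 3) (c (c (b (l 428590758471) (a (l 341617669271) (l 16776256))) (l 333564602791)) (l 273971944119))) (c (a (b (a (l 468856076823) (a (l 353965702855) (l 165524014631))) (a (a (l 243907168343) (l 16776544)) (l 16775592))) (l 16777104)) (a (l 196125660631) (l 16774320))))) (a (a (b (c (b (l 3) (a (l 3) (l 335175220999))) (l 437717563031)) (a (b (b (l 307257933367) (l 16778024)) (l 16775504)) (l 16777648))) (b (c (b (a (l 385104215383) (l 139217339943)) (l 16775576)) (l 159618437351)) (l 16773080))) (c (l 16776224) (l 16770608))))))), by decide +kernel⟩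

def k26_pp_001_s : ∃ t, chk3 f_pp_001_s t 27 49 1 = true :=
  ⟨(a (b (a (l 3) (b (l 3) (a (l 3) (a (b (l 3) (a (l 430738241783) (b (l 438254435127) (l 145659791111)))) (b (c (b (l 3) (a (l 459192400375) (l 256792070887))) (l 418390210551)) (c (b (c (l 146733533351) (l 16776280)) (l 16774752)) (l 16775424))))))) (a (b (a (l 3) (b (l 3) (a (l 3) (c (l 432885725095) (l 442549401063))))) (a (b (l 3) (a (l 3) (b (l 415705856535) (a (l 270750715175) (l 16776216))))) (b (a (c (b (l 459192399687) (l 334101476471)) (l 386714827287)) (a (b (l 222432332759) (l 16775704)) (l 16775264))) (c (a (l 103783860167) (l 16772832)) (l 16773848))))) (b (a (b (a (l 459729269527) (c (b (l 387251698727) (a (l 202031237655) (l 16775912))) (l 214916142807))) (a (b (a (l 412484631575) (l 167134627959)) (l 109152569191)) (l 16774096))) (c (b (l 16778232) (l 16770536)) (l 16771784))) (c (l 16778824) (l 16778304))))) (b (a (b (a (b (l 3) (c (a (l 452213077495) (b (a (l 452749949687) (l 196662528327)) (l 129016793047)))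 (l 351281336983))) (b (c (a (b (l 414095243975) (a (l 268603228503) (l 16776136))) (c (l 91435828839) (l 16775024))) (a (l 269140105431) (l 16774928))) (c (l 16778400) (l 16772912)))) (b (a (a (a (b (l 359334411815) (l 16776008)) (l 93583312743)) (l 16773640)) (l 16769808)) (l 16777672))) (b (c (l 16777696) (l 16777088)) (l 16781432))) (a (c (l 16772104) (l 16781664)) (l 16750888)))), by decide +kernel⟩

def k27_pp_001_s : ∃ t, chk3 f_pp_001_s t 27 25 1 = true :=
  ⟨(b (a (b (a (b (a (a (b (c (b (l 347523246487) (l 135996114823)) (l 198273143751)) (l 16773752)) (l 16778128)) (l 16779688)) (l 16775864)) (l 16775648)) (a (l 16776984) (l 16746112))) (b (l 16769656) (l 16730984))) (a (a (l 16757464) (l 16726576)) (l 16711472))), by decide +kernel⟩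

def k28_pp_001_s : ∃ t, chk3 f_pp_001_s t 13 13 1 = true :=
  ⟨(b (a (a (b (b (a (l 16775480) (l 16744672)) (l 16756024)) (l 16764800)) (b (b (l 16751120) (l 16715520)) (l 16692656))) (b (a (l 16703224) (l 16683112)) (l 16704648))) (a (a (l 2) (l 16688296)) (b (l 16631544) (l 16600952)))), by decide +kernel⟩

def k29_pp_001_s : ∃ t, chk3 f_pp_001_s t 28 24 1 = true :=
  ⟨(b (a (b (a (b (a (l 3) (b (l 3) (a (c (b (l 3) (a (l 3) (l 441475660647))) (l 472077300263)) (c (b (a (l 475835398615) (c (b (l 377051150647) (a (l 193441301655) (l 16776480))) (l 246591523463))) (a (b (a (l 415705857575) (l 158544692151)) (l 16776472)) (l 16775576))) (l 278266892503))))) (b (a (a (l 3) (c (b (l 3) (a (l 3) (a (l 421611437303) (b (l 417316470311) (l 16776808))))) (l 444160013831))) (c (a (a (b (c (b (l 480130366263) (l 344838897431)) (l 314237259639)) (c (l 102173246471) (l 16776224))) (a (b (b (l 263771391527) (l 16776480)) (l 16775272)) (l 16776736))) (l 16776424)) (l 220284834311))) (a (c (a (a (l 467782334359)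 (b (l 472614173143) (a (a (l 272361326695) (l 185925109303)) (l 16776560)))) (a (b (b (l 379198635575) (l 153175983383)) (l 16775600)) (l 16777736))) (a (l 390472923639) (l 16775648))) (l 16776960)))) (b (a (c (b (b (b (a (l 482814719975) (a (a (a (l 376514281239) (l 179482657655)) (l 16776600)) (l 16775608))) (a (a (l 3) (a (l 454360563047) (a (l 305647318471) (l 16776936)))) (l 16776768))) (a (a (b (l 442012531879) (a (l 363092508423) (l 16776784))) (c (c (b (l 119889986407) (l 16775832)) (l 16776208)) (l 16776184))) (l 16776856))) (a (c (l 16777088) (l 16774384)) (l 16771800))) (b (a (l 335175220727) (l 16774904)) (l 16772856))) (c (l 16776016) (l 16768976))) (c (l 16776144) (l 16775424)))) (a (b (a (c (b (a (a (a (b (l 167134627399) (l 16775280)) (l 16775440)) (l 16774480)) (l 16772552)) (l 16775888)) (l 16771928)) (l 16777256)) (l 16775344)) (c (l 16777080) (l 16754808)))) (b (a (c (c (l 16769072) (l 16778976)) (l 16778104)) (l 16767744)) (a (l 16744648) (l 16733816)))) (a (a (b (l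 16774176) (l 16740472)) (l 16757192)) (b (l 16726528) (l 16714032)))), by decide +kernel⟩

def k30_pp_001_s : ∃ t, chk3 f_pp_001_s t 29 24 1 = true :=
  ⟨(b (a (b (l 16751336) (l 16717568)) (l 16702168)) (a (l 16698920) (l 16677664))), by decide +kernel⟩

def k31_pp_001_s : ∃ t, chk3 f_pp_001_s t 14 25 1 = true :=
  ⟨(a (b (a (l 16758552) (l 16695696)) (a (l 16711960) (l 16670384))) (b (l 16675008) (l 16660800))), by decide +kernel⟩

def k32_pp_001_s : ∃ t, chk3 f_pp_001_s t 14 13 1 = true :=
  ⟨(b (a (b (l 16652512) (l 16622088)) (l 16597088)) (a (a (l 16585192) (l 16628248)) (l 16536680))), by decide +kernel⟩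

def k33_pp_001_s : ∃ t, chk3 f_pp_001_s t 15 6 1 = true :=
  ⟨(b (b (a (a (l 16731360) (l 16647312)) (b (l 16627536) (l 16605448))) (a (b (l 16623720) (l 16600240)) (l 16573664))) (b (a (l 16642128) (l 16543728)) (a (l 16499248) (l 16463616)))), by decide +kernel⟩

def k34_pp_001_s : ∃ t, chk3 f_pp_001_s t 3 7 1 = true :=
  ⟨(a (b (a (l 2) (b (a (l 2) (b (l 16570672) (l 2))) (l 2))) (l 2)) (b (a (b (a (l 16515352) (l 16518840)) (a (l 16305496) (l 16415432))) (b (a (l 16440312) (l 16405656)) (l 16351600))) (a (b (l 16399040) (l 2)) (b (l 16522224) (l 6))))), by decide +kernel⟩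

theorem s35_pp_001_s : ∃ t, chk3 f_pp_001_s t 14 24 1 = true := ex3_a k29_pp_001_s k30_pp_001_s

theorem s36_pp_001_s : ∃ t, chk3 f_pp_001_s t 14 12 1 = true := ex3_b s35_pp_001_s k31_pp_001_s

theorem s37_pp_001_s : ∃ t, chk3 f_pp_001_s t 14 6 1 = true := ex3_b s36_pp_001_s k32_pp_001_s

theorem s38_pp_001_s : ∃ t, chk3 f_pp_001_s t 7 6 1 = true := ex3_a s37_pp_001_s k33_pp_001_s

theorem s39_pp_001_s : ∃ t, chk3 f_pp_001_s t 27 24 1 = true := ex3_b k25_pp_001_s k26_pp_001_s

theorem s40_pp_001_s : ∃ t, chk3 f_pp_001_s t 27 12 1 = true := ex3_b s39_pp_001_s k27_pp_001_s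

theorem s41_pp_001_s : ∃ t, chk3 f_pp_001_s t 26 25 1 = true := ex3_b k23_pp_001_s k24_pp_001_s

theorem s42_pp_001_s : ∃ t, chk3 f_pp_001_s t 26 12 1 = true := ex3_b k22_pp_001_s s41_pp_001_s

theorem s43_pp_001_s : ∃ t, chk3 f_pp_001_s t 13 12 1 = true := ex3_a s42_pp_001_s s40_pp_001_s

theorem s44_pp_001_s : ∃ t, chk3 f_pp_001_s t 13 6 1 = true := ex3_b s43_pp_001_s k28_pp_001_s

theorem s45_pp_001_s : ∃ t, chk3 f_pp_001_s t 6 6 1 = true := ex3_a k21_pp_001_s s44_pp_001_s

theorem s46_pp_001_s : ∃ t, chk3 f_pp_001_s t 3 6 1 = true := ex3_a s45_pp_001_s s38_pp_001_s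

theorem s47_pp_001_s : ∃ t, chk3 f_pp_001_s t 3 3 1 = true := ex3_b s46_pp_001_s k34_pp_001_s

theorem s48_pp_001_s : ∃ t, chk3 f_pp_001_s t 29 23 1 = true := ex3_b k18_pp_001_s k19_pp_001_s

theorem s49_pp_001_s : ∃ t, chk3 f_pp_001_s t 461 754 4 = true := ex3_a k10_pp_001_s k11_pp_001_s

theorem s50_pp_001_s : ∃ t, chk3 f_pp_001_s t 461 377 4 = true := ex3_b s49_pp_001_s k12_pp_001_s

theorem s51_pp_001_s : ∃ t, chk3 f_pp_001_s t 461 377 2 = true := ex3_c s50_pp_001_s k13_pp_001_s

theorem s52_pp_001_s : ∃ t, chk3 f_pp_001_s t 230 377 2 = true := ex3_a k9_pp_001_s s51_pp_001_s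

theorem s53_pp_001_s : ∃ t, chk3 f_pp_001_s t 230 377 1 = true := ex3_c s52_pp_001_s k14_pp_001_s

theorem s54_pp_001_s : ∃ t, chk3 f_pp_001_s t 230 188 1 = true := ex3_b k8_pp_001_s s53_pp_001_s

theorem s55_pp_001_s : ∃ t, chk3 f_pp_001_s t 115 188 1 = true := ex3_a s54_pp_001_s k15_pp_001_s

theorem s56_pp_001_s : ∃ t, chk3 f_pp_001_s t 115 94 1 = true := ex3_b s55_pp_001_s k16_pp_001_s

theorem s57_pp_001_s : ∃ t, chk3 f_pp_001_s t 57 94 1 = true := ex3_a k7_pp_001_s s56_pp_001_s

theorem s58_pp_001_s : ∃ t, chk3 f_pp_001_s t 57 47 1 = true := ex3_b s57_pp_001_s k17_pp_001_s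

theorem s59_pp_001_s : ∃ t, chk3 f_pp_001_s t 28 47 1 = true := ex3_a k6_pp_001_s s58_pp_001_s

theorem s60_pp_001_s : ∃ t, chk3 f_pp_001_s t 28 23 1 = true := ex3_b k5_pp_001_s s59_pp_001_s

theorem s61_pp_001_s : ∃ t, chk3 f_pp_001_s t 14 23 1 = true := ex3_a s60_pp_001_s s48_pp_001_s

theorem s62_pp_001_s : ∃ t, chk3 f_pp_001_s t 14 11 1 = true := ex3_b k4_pp_001_s s61_pp_001_s

theorem s63_pp_001_s : ∃ t, chk3 f_pp_001_s t 14 5 1 = true := ex3_b k3_pp_001_s s62_pp_001_s

theorem s64_pp_001_s : ∃ t, chk3 f_pp_001_s t 7 5 1 = true := ex3_a s63_pp_001_s k20_pp_001_s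

theorem s65_pp_001_s : ∃ t, chk3 f_pp_001_s t 7 2 1 = true := ex3_b k2_pp_001_s s64_pp_001_s

theorem s66_pp_001_s : ∃ t, chk3 f_pp_001_s t 3 2 1 = true := ex3_a k1_pp_001_s s65_pp_001_s

theorem s67_pp_001_s : ∃ t, chk3 f_pp_001_s t 3 1 1 = true := ex3_b s66_pp_001_s s47_pp_001_s

theorem s68_pp_001_s : ∃ t, chk3 f_pp_001_s t 1 1 1 = true := ex3_a k0_pp_001_s s67_pp_001_s

theorem c_pp_001_s : CertNE 0 536870912 536870912 536870912 740881858 40050571 3 eng mog cd5q0 cd0q1 pd0 false true true .up 0 0 1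
    ndB5q0 ndB0q1 pcB0 cut_pp_001_s Ext.none :=
  certNE2 (fam := false) (s1 := true) (s2 := true) (a := 0) (b := 0) (c := 1) (cn := .up) (n1 := ndB5q0) (n2 := ndB0q1) (pc := pcB0) (cut := cut_pp_001_s) (xt := Ext.none) (P1 := 0) (W1 := 536870912) (P2 := 536870912) (W2 := 536870912) (P3 := 740881858) (W3 := 40050571) (N0 := 3) (En := eng) (mo := mog) (C1 := cd5q0) (C2 := cd0q1) (C3 := pd0)
    rfl (fun _ => rfl) s68_pp_001_s

noncomputable def cut_pp_011_s : Cut := Cut.of [[⟨4, 0, 0, 1449551462⟩]]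

noncomputable def f_pp_011_s : ℕ → ℕ → ℕ → ℕ → Bool := onCell 536870912 536870912 536870912 536870912 740881858 40050571
    (rowNE 3 eng mog cd5q0 cd0q1 pd1 2 false true true .pnn 0 1 1 (qsf 0 536870912 536870912 536870912 1) ndB5q0 ndB0q1 pcB1 cut_pp_011_s Ext.none)

def k0_pp_011_s : ∃ t, chk3 f_pp_011_s t 8 8 1 = true :=
  ⟨(l 3), by decide +kernel⟩

def k1_pp_011_s : ∃ t, chk3 f_pp_011_s t 16 9 1 = true :=
  ⟨(b (l 3) (a (l 3) (b (l 3) (b (l 3) (a (l 3) (b (l 3) (a (l 3) (b (l 466708591079) (c (l 309405401431) (l 309942272647)))))))))), by decide +kernel⟩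

def k2_pp_011_s : ∃ t, chk3 f_pp_011_s t 17 9 1 = true :=
  ⟨(b (b (l 3) (a (l 3) (b (l 3) (a (l 3) (b (l 3) (a (l 3) (b (l 3) (a (l 3) (a (a (l 520932555079) (l 397452243607)) (b (l 362555632119) (l 16776352))))))))))) (b (a (b (l 3) (a (l 3) (b (l 3) (a (l 3) (b (l 522543164679) (a (l 518248199175) (l 280951248311))))))) (b (a (b (l 3) (a (l 3) (a (l 3) (b (l 3) (a (l 389936053383) (l 185925101719)))))) (b (a (b (l 3) (a (l 3) (c (b (l 413558373319) (l 198273132423)) (l 308868535927)))) (c (b (a (b (l 421611434295) (a (l 311016024295) (l 16776336))) (l 16775224)) (l 16774712)) (b (l 185388225207) (l 16773864)))) (a (a (c (b (b (l 404968438823) (l 189683198055)) (l 16775056)) (l 177872032823)) (c (l 16773960) (l 16773768))) (c (l 16781080) (l 16770192))))) (a (b (b (a (l 3) (a (a (l 379735506151) (l 176798296423)) (l 16774920))) (a (a (l 524690649879) (c (l 297594247383) (l 16771776))) (l 16773672))) (a (c (b (a (l 289541183895) (l 16774824)) (l 16773600)) (l 115058136375)) (l 16780528)))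 (a (b (l 16780712) (l 16765408)) (l 16763216))))) (a (b (a (b (l 3) (a (l 3) (b (l 512342617895) (a (l 490867783255) (l 199346872247))))) (b (b (a (l 517711326727) (a (l 229948513143) (l 16774568))) (a (a (l 511805748519) (l 221358578711)) (l 16773280))) (a (b (a (l 210621160935) (l 16774352)) (l 16773040)) (l 16780048)))) (a (b (a (b (l 484425330807) (a (l 447918110647) (l 16773680))) (c (b (l 119889976951) (l 16772904)) (l 16773904))) (a (c (l 68350369975) (l 16773624)) (l 16768960))) (a (b (l 16769280) (l 16764224)) (l 16762064)))) (a (b (a (b (l 16780304) (l 16764896)) (l 16762712)) (l 16755112)) (l 16771872))))), by decide +kernel⟩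

def k3_pp_011_s : ∃ t, chk3 f_pp_011_s t 9 8 1 = true :=
  ⟨(a (a (l 3) (l 1)) (l 1)), by decide +kernel⟩

def k4_pp_011_s : ∃ t, chk3 f_pp_011_s t 18 36 1 = true :=
  ⟨(a (b (l 3) (a (l 3) (b (l 3) (a (l 3) (b (l 3) (a (l 3) (c (b (a (l 3) (a (a (l 3) (l 1)) (l 1))) (a (c (b (a (l 3) (a (l 3) (b (l 3) (b (l 3) (l 440938790759))))) (b (a (l 3) (a (l 474224787191) (a (a (l 302962965703) (l 147807272423)) (l 16777048)))) (a (l 508047654455) (a (a (l 246591519959) (l 16777048)) (l 16776848))))) (l 404431568247)) (a (a (c (b (a (b (l 3) (a (l 302962965703) (l 147807272423))) (b (b (l 3) (l 309405416679)) (l 16777048))) (l 16776712)) (l 16776952)) (b (b (a (l 238404238551) (l 1)) (l 16776840)) (l 16776424))) (b (b (l 1) (l 16776424)) (l 16776000))))) (l 343765147447)))))))) (b (l 1) (b (l 1) (b (l 1) (b (l 1) (a (a (b (l 1) (l 121903251031)) (l 1)) (l 1))))))), by decide +kernel⟩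

def k5_pp_011_s : ∃ t, chk3 f_pp_011_s t 36 74 1 = true :=
  ⟨(a (b (l 3) (a (l 3) (b (l 3) (a (l 3) (c (b (a (l 3) (a (l 534891199463) (a (l 401747213943) (l 293836157847)))) (c (a (b (l 537575554055) (l 333027734855)) (l 67813504951)) (l 227264161079))) (l 338933317175)))))) (b (a (b (l 3) (a (l 3) (c (a (b (l 3) (a (l 539186166727) (b (l 534891199847) (a (l 308331673687) (l 16776960))))) (a (b (l 540796779463) (a (b (l 309405415511) (l 16776688)) (l 16776688))) (b (b (l 537038683495) (a (l 310479157335) (l 16776968))) (l 16776272)))) (l 342691403031)))) (c (b (a (b (a (l 3) (c (a (l 546165488583) (b (l 542407392615) (a (b (l 472614174471) (l 148344143015)) (b (l 148344143015) (l 16776848))))) (l 403894697335))) (b (a (l 541870521927) (c (a (a (b (l 471540432647) (l 16776784)) (l 81235278983)) (l 16776568)) (l 16776816))) (c (a (a (l 540259908967) (a (a (l 326585284887) (l 261087033943)) (l 16776808))) (l 16775968)) (l 171966459367)))) (a (b (c (a (c (b (a (b (l 475298529031) (l 148344143015))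 (a (b (l 246054649047) (l 16776920)) (l 16776920))) (l 16776576)) (l 117205628807)) (b (l 16776408) (l 16776024))) (l 16776536)) (l 16775440)) (l 16777504))) (a (b (a (a (b (a (l 309942286407) (l 16776808)) (l 16776552)) (l 16776272)) (l 16775440)) (l 16777496)) (l 16773200))) (b (a (l 343765144839) (l 16775328)) (l 16774136)))) (a (c (b (a (b (a (l 3) (a (l 538112424919) (b (l 533817458039) (l 192367556743)))) (a (a (l 537038683111) (a (l 405505308999) (l 296520512423))) (a (b (l 190756944007) (l 16776536)) (l 16776256)))) (b (a (c (b (a (l 192904427671) (l 16776552)) (l 16776280)) (l 16776520)) (l 16775424)) (l 16777480))) (a (a (a (b (l 112910661527) (l 16775680)) (l 16775680)) (l 16777464)) (l 16773176))) (b (a (l 341080790311) (l 16775304)) (l 16774104))) (a (l 16777144) (l 16769608))))), by decide +kernel⟩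

def k6_pp_011_s : ∃ t, chk3 f_pp_011_s t 36 75 1 = true :=
  ⟨(a (b (a (b (l 3) (a (l 3) (c (a (b (l 3) (l 377588020199)) (b (l 381346116567) (l 16776456))) (l 309405406391)))) (c (b (a (b (a (l 3) (a (l 532206844951) (l 329269638487))) (c (a (l 386177954759) (l 16776496)) (l 224042935735))) (a (b (l 69424117639) (l 16775376)) (l 16774824))) (a (a (l 16775904) (l 16774792)) (l 16773120))) (b (a (l 308868535335) (l 16775264)) (l 16774048)))) (b (a (a (a (b (l 3) (l 366850602007)) (b (l 371145569271) (l 16776400))) (c (l 16776624) (l 16775200))) (l 16777040)) (a (c (a (l 16775272) (l 16773040)) (l 16773968)) (l 16769456)))) (a (b (a (l 16777096) (l 16769560)) (l 16766040)) (l 16774272))), by decide +kernel⟩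

def k7_pp_011_s : ∃ t, chk3 f_pp_011_s t 37 37 1 = true :=
  ⟨(a (b (a (b (a (l 16777176) (l 16769656)) (l 16766168)) (l 16774448)) (l 16777896)) (l 95596574567)), by decide +kernel⟩

def k8_pp_011_s : ∃ t, chk3 f_pp_011_s t 18 19 1 = true :=
  ⟨(a (b (a (b (a (b (c (l 16775968) (l 16770328)) (l 16765792)) (l 16774056)) (l 16756352)) (c (l 16773728) (l 16772216))) (l 16779280)) (b (a (l 16763904) (l 16733888)) (l 16719496))), by decide +kernel⟩

def k9_pp_011_s : ∃ t, chk3 f_pp_011_s t 19 9 1 = true :=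
  ⟨(b (a (b (l 1) (l 121903244343)) (l 1)) (b (a (l 16720736) (l 16704752)) (l 16734904))), by decide +kernel⟩

def k10_pp_011_s : ∃ t, chk3 f_pp_011_s t 4 5 1 = true :=
  ⟨(a (b (a (b (a (b (b (l 3) (a (l 3) (b (l 3) (a (l 508047648007) (b (l 379735505207) (l 197199383447)))))) (b (a (b (l 508584515719) (a (l 503215810567) (b (l 316921590983) (l 16774920)))) (a (b (a (l 318532202935) (l 178945772951)) (l 16771120)) (l 16774128))) (a (b (a (c (l 224579792711) (l 223506052071)) (l 16770416)) (l 16772104)) (c (l 16780800) (l 16780048))))) (b (b (a (b (l 3) (a (l 3) (b (l 427517015351) (l 237464700663)))) (b (a (b (l 447381238647) (c (l 252497085559) (l 250886473271))) (l 61371048455)) (a (l 16773072) (l 16768208)))) (a (b (a (b (l 406042179351) (l 215989865271)) (l 16772696)) (a (l 16772280) (l 16767296))) (b (l 16775824) (l 16759976)))) (a (b (b (l 16785200) (l 16758488)) (l 16749504)) (l 16777328)))) (b (a (b (a (l 16777976) (l 16746584)) (a (l 16743088) (l 16732872))) (b (l 16753032) (l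 16718616))) (a (a (l 16742096) (l 16711232)) (l 16697424)))) (b (a (b (b (a (a (l 16771248) (l 16761248)) (l 16754216)) (l 16779896)) (a (l 16757480) (l 16727384))) (b (b (l 16740464) (l 16730232)) (l 16714032))) (b (a (l 16728200) (l 16689912)) (a (l 16680024) (l 16663392))))) (a (b (a (b (l 16706520) (l 16652968)) (b (l 16667784) (l 16636168))) (a (b (l 16625848) (l 16599208)) (l 16611864))) (b (b (l 16664168) (l 16613080)) (l 16626200)))) (b (b (a (b (a (l 16738624) (l 16700136)) (l 16729968)) (b (l 16673616) (l 16653640))) (a (b (l 16664664) (l 16639104)) (l 16682000))) (b (a (l 16619072) (l 16567920)) (a (l 16537360) (l 16509968))))), by decide +kernel⟩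

def k11_pp_011_s : ∃ t, chk3 f_pp_011_s t 5 2 1 = true :=
  ⟨(b (a (b (l 1) (a (b (l 1) (l 122976975175)) (l 1))) (l 1)) (a (b (b (a (l 16755736) (l 16643088)) (a (l 16584504) (l 16550272))) (b (a (l 16535848) (l 16500104)) (a (l 16482632) (l 16450920)))) (b (b (l 1) (a (l 16523712) (l 1))) (b (a (l 16467816) (l 16444240)) (l 16400760))))), by decide +kernel⟩

def k12_pp_011_s : ∃ t, chk3 f_pp_011_s t 2 3 1 = true :=
  ⟨(b (a (a (b (b (a (l 16614048) (l 16511352)) (a (l 16628424) (l 16468616))) (b (a (l 16448808) (l 16415456)) (l 16476144))) (b (b (a (l 16470376) (l 16446752)) (l 16473624)) (b (l 16361712) (l 16304744)))) (b (a (b (l 16408144) (l 16341392)) (b (l 16347432) (l 16293176))) (a (b (l 16282328) (l 6)) (l 6)))) (a (b (a (b (l 16437088) (l 16353880)) (b (l 6) (l 6))) (l 6)) (l 6))), by decide +kernel⟩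

def k13_pp_011_s : ∃ t, chk3 f_pp_011_s t 3 1 1 = true :=
  ⟨(b (a (b (l 1) (b (l 1) (a (b (l 1) (l 16359736)) (l 1)))) (l 1)) (b (a (b (l 6) (l 6)) (l 6)) (l 6))), by decide +kernel⟩

theorem s14_pp_011_s : ∃ t, chk3 f_pp_011_s t 36 37 1 = true := ex3_b k5_pp_011_s k6_pp_011_s

theorem s15_pp_011_s : ∃ t, chk3 f_pp_011_s t 18 37 1 = true := ex3_a s14_pp_011_s k7_pp_011_s

theorem s16_pp_011_s : ∃ t, chk3 f_pp_011_s t 18 18 1 = true := ex3_b k4_pp_011_s s15_pp_011_s

theorem s17_pp_011_s : ∃ t, chk3 f_pp_011_s t 18 9 1 = true := ex3_b s16_pp_011_s k8_pp_011_s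

theorem s18_pp_011_s : ∃ t, chk3 f_pp_011_s t 9 9 1 = true := ex3_a s17_pp_011_s k9_pp_011_s

theorem s19_pp_011_s : ∃ t, chk3 f_pp_011_s t 9 4 1 = true := ex3_b k3_pp_011_s s18_pp_011_s

theorem s20_pp_011_s : ∃ t, chk3 f_pp_011_s t 8 9 1 = true := ex3_a k1_pp_011_s k2_pp_011_s

theorem s21_pp_011_s : ∃ t, chk3 f_pp_011_s t 8 4 1 = true := ex3_b k0_pp_011_s s20_pp_011_s

theorem s22_pp_011_s : ∃ t, chk3 f_pp_011_s t 4 4 1 = true := ex3_a s21_pp_011_s s19_pp_011_s

theorem s23_pp_011_s : ∃ t, chk3 f_pp_011_s t 4 2 1 = true := ex3_b s22_pp_011_s k10_pp_011_s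

theorem s24_pp_011_s : ∃ t, chk3 f_pp_011_s t 2 2 1 = true := ex3_a s23_pp_011_s k11_pp_011_s

theorem s25_pp_011_s : ∃ t, chk3 f_pp_011_s t 2 1 1 = true := ex3_b s24_pp_011_s k12_pp_011_s

theorem s26_pp_011_s : ∃ t, chk3 f_pp_011_s t 1 1 1 = true := ex3_a s25_pp_011_s k13_pp_011_s

theorem c_pp_011_s : CertNE 0 536870912 536870912 536870912 740881858 40050571 3 eng mog cd5q0 cd0q1 pd1 false true true .pnn 0 1 1
    ndB5q0 ndB0q1 pcB1 cut_pp_011_s Ext.none :=
  certNE2 (fam := false) (s1 := true) (s2 := true) (a := 0) (b := 1) (c := 1) (cn := .pnn) (n1 := ndB5q0) (n2 := ndB0q1) (pc := pcB1) (cut := cut_pp_011_s) (xt := Ext.none) (P1 := 0) (W1 := 536870912) (P2 := 536870912) (W2 := 536870912) (P3 := 740881858) (W3 := 40050571) (N0 := 3) (En := eng) (mo := mog) (C1 := cd5q0) (C2 := cd0q1) (C3 := pd1)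
    rfl (fun _ => rfl) s26_pp_011_s

noncomputable def cut_pp_012_s : Cut := Cut.of [[⟨4, 0, 0, 1449551462⟩]]

noncomputable def f_pp_012_s : ℕ → ℕ → ℕ → ℕ → Bool := onCell 0 536870912 0 536870912 740881858 40050571
    (rowNE 3 eng mog cd5q0 cd0q2 pd1 0 false true true .pnp 0 1 2 (qsf 0 536870912 0 536870912 1) ndB5q0 ndB0q2 pcB1 cut_pp_012_s Ext.none)

def k0_pp_012_s : ∃ t, chk3 f_pp_012_s t 1 1 1 = true :=
  ⟨(a (l 6) (l 6)), by decide +kernel⟩

theorem c_pp_012_s : CertNE 0 536870912 0 536870912 740881858 40050571 3 eng mog cd5q0 cd0q2 pd1 false true true .pnp 0 1 2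
    ndB5q0 ndB0q2 pcB1 cut_pp_012_s Ext.none :=
  certNE0 (fam := false) (s1 := true) (s2 := true) (a := 0) (b := 1) (c := 2) (cn := .pnp) (n1 := ndB5q0) (n2 := ndB0q2) (pc := pcB1) (cut := cut_pp_012_s) (xt := Ext.none) (P1 := 0) (W1 := 536870912) (P2 := 0) (W2 := 536870912) (P3 := 740881858) (W3 := 40050571) (N0 := 3) (En := eng) (mo := mog) (C1 := cd5q0) (C2 := cd0q2) (C3 := pd1)
    rfl k0_pp_012_s

noncomputable def cut_pp_022_s : Cut := Cut.of [[⟨4, 0, 0, 1449551462⟩]]

noncomputable def f_pp_022_s : ℕ → ℕ → ℕ → ℕ → Bool := onCell 1073741824 536870912 0 536870912 740881858 40050571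
    (rowNE 3 eng mog cd5q0 cd0q2 pd2 2 false true true .pp 0 2 2 (qsf 0 536870912 0 536870912 2) ndB5q0 ndB0q2 pcB2 cut_pp_022_s Ext.none)

def k0_pp_022_s : ∃ t, chk3 f_pp_022_s t 1 1 1 = true :=
  ⟨(l 6), by decide +kernel⟩

theorem c_pp_022_s : CertNE 0 536870912 0 536870912 740881858 40050571 3 eng mog cd5q0 cd0q2 pd2 false true true .pp 0 2 2
    ndB5q0 ndB0q2 pcB2 cut_pp_022_s Ext.none :=
  certNE2 (fam := false) (s1 := true) (s2 := true) (a := 0) (b := 2) (c := 2) (cn := .pp) (n1 := ndB5q0) (n2 := ndB0q2) (pc := pcB2) (cut := cut_pp_022_s) (xt := Ext.none) (P1 := 0) (W1 := 536870912) (P2 := 0) (W2 := 536870912) (P3 := 740881858) (W3 := 40050571) (N0 := 3) (En := eng) (mo := mog) (C1 := cd5q0) (C2 := cd0q2) (C3 := pd2)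
    rfl (fun _ => rfl) k0_pp_022_s

noncomputable def cut_pp_101_s : Cut := Cut.of [[⟨4, 0, 0, 1449551462⟩], [⟨0, 1, 0, 67108864⟩, ⟨1, 0, 0, 67108864⟩, ⟨2, 1, 0, 67108864⟩]]

noncomputable def f_pp_101_s : ℕ → ℕ → ℕ → ℕ → Bool := onCell 0 536870912 536870912 536870912 740881858 40050571
    (rowNE 3 eng mog cd5q1 cd0q1 pd0 2 false true true .npn 1 0 1 (qsf 536870912 536870912 536870912 536870912 0) ndB5q1 ndB0q1 pcB0 cut_pp_101_s Ext.none)

def k0_pp_101_s : ∃ t, chk3 f_pp_101_s t 2 2 1 = true :=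
  ⟨(l 3), by decide +kernel⟩

def k1_pp_101_s : ∃ t, chk3 f_pp_101_s t 2 6 1 = true :=
  ⟨(a (l 3) (a (l 3) (b (l 3) (b (l 3) (a (b (l 3) (a (l 3) (b (l 3) (a (l 3) (b (l 3) (a (l 3) (b (a (l 3) (l 435033211191)) (a (c (l 250349626023) (l 356113186695)) (l 16778040))))))))) (b (a (l 3) (b (a (l 3) (b (l 3) (a (l 3) (l 504826425591)))) (a (b (l 3) (a (l 520395683255) (b (l 442012531271) (a (l 230485402295) (l 16775024))))) (b (a (b (l 3) (a (l 504289556951) (l 220284854343))) (b (a (l 394231020647) (l 16778608)) (l 16773424))) (a (c (l 81772157223) (b (l 116131894999) (l 16770960))) (l 16767464)))))) (a (b (a (l 3) (b (a (l 3) (b (l 3) (a (l 3) (l 240149079063)))) (b (a (l 452749950327) (a (l 182167018231) (l 16773936))) (a (a (l 246591530423) (l 16775328)) (l 16771280))))) (a (b (a (b (l 3) (a (l 3) (l 250886497847))) (b (a (l 435570081703) (l 188072598615)) (l 102173251255))) (b (a (c (l 145659796455) (l 144586054647)) (l 16770040)) (l 16779192))) (a (c (l 16777112) (l 16777160)) (l 16782208))))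 (b (a (a (b (b (a (l 425906404679) (l 165524019687)) (l 16779088)) (l 16767856)) (l 16779520)) (l 16779216)) (b (l 16772688) (l 16743728)))))))))), by decide +kernel⟩

def k2_pp_101_s : ∃ t, chk3 f_pp_101_s t 4 14 1 = true :=
  ⟨(a (l 3) (b (l 3) (a (l 3) (b (l 3) (a (l 3) (b (l 3) (a (b (l 3) (a (l 3) (b (l 3) (b (a (l 3) (c (l 403894700439) (a (l 3) (l 393157281255)))) (a (c (l 436106955735) (l 438791310279)) (c (c (l 172503339447) (c (l 169818984727) (l 168208371991))) (a (c (l 209010561079) (l 321753447687)) (l 16776016)))))))) (b (a (l 3) (b (a (l 3) (c (l 445770634135) (b (l 3) (l 447918116183)))) (b (a (l 3) (c (a (l 367924347927) (l 132238019607)) (a (l 369534960647) (l 130627406855)))) (a (a (c (l 400673474231) (l 403357828791)) (c (l 191293820679) (a (l 214916140647) (l 16778040)))) (c (l 16775016) (l 16775016)))))) (b (b (a (a (l 3) (c (c (l 359871284343) (l 359871284343)) (a (l 444696889623) (l 329806511607)))) (a (c (l 16778064) (l 16778056)) (l 16772632))) (a (a (a (l 3) (c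 (l 359871284055) (l 361481896791))) (a (c (l 128479923031) (l 125795568471)) (l 16777800))) (l 16776736))) (a (a (b (a (c (l 183777627063) (a (l 205789334935) (l 16777936))) (c (l 16775608) (l 16775608))) (l 16776536)) (l 16776880)) (l 16773312))))))))))), by decide +kernel⟩

def k3_pp_101_s : ∃ t, chk3 f_pp_101_s t 8 30 1 = true :=
  ⟨(a (l 3) (b (l 3) (a (l 3) (b (l 3) (a (l 3) (b (l 3) (b (l 3) (a (l 3) (a (a (l 3) (b (l 3) (b (l 3) (b (a (l 3) (c (c (l 259476424071) (l 353428832519)) (b (l 422685180407) (a (l 423758922055) (l 16777456))))) (a (a (l 3) (a (c (l 289541194647) (l 381346119943)) (c (l 215453008711) (l 215989879607)))) (c (l 116131889895) (l 112373793511))))))) (b (a (l 3) (a (b (l 3) (b (l 3) (a (c (l 281488131159) (l 373829927207)) (c (l 163376530343) (l 173577077511))))) (b (c (l 442549404839) (l 446307501207)) (b (a (c (l 266992616455) (l 358260670663)) (c (l 147270402887) (l 145122919239))) (c (l 16776632) (l 16776632)))))) (a (a (b (b (l 3) (a (c (l 328195900503) (l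 407652794823)) (c (l 208473686951) (a (l 243370296135) (l 167671497463))))) (c (l 16777480) (l 84456506039))) (b (b (a (c (l 304573580375) (l 391009796471)) (c (l 178945786887) (a (l 215989879607) (l 16777496)))) (c (l 16776744) (l 16777400))) (c (l 16774528) (l 16774520)))) (c (l 16777576) (l 16777568))))))))))))), by decide +kernel⟩

def k4_pp_101_s : ∃ t, chk3 f_pp_101_s t 16 31 1 = true :=
  ⟨(b (b (l 3) (l 14)) (l 14)), by decide +kernel⟩

def k5_pp_101_s : ∃ t, chk3 f_pp_101_s t 34 124 1 = true :=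
  ⟨(a (l 3) (b (l 3) (a (l 3) (a (l 3) (b (l 3) (b (l 3) (b (a (l 3) (a (b (l 3) (b (l 3) (a (l 3) (c (c (l 260013294295) (l 260550165207)) (c (l 262697648839) (l 358260670615)))))) (b (b (l 3) (a (l 3) (a (c (l 320679707175) (l 324974674455)) (c (l 200957493703) (l 200420622791))))) (c (c (l 146196661175) (c (l 143512306599) (l 142438564775))) (b (a (a (l 414095245559) (l 212231782887)) (l 16776992)) (l 16777344)))))) (a (a (b (l 3) (b (l 3) (a (l 3) (a (l 3) (c (l 287930581559) (l 304036708839)))))) (b (b (l 3) (a (l 3) (a (l 3) (c (l 250349617751) (l 251960230487))))) (b (a (c (a (l 3) (l 272361325095)) (l 386714829031)) (c (l 132238016967) (l 130090533319))) (a (c (l 139217338871) (l 138143597047)) (c (l 16776128) (l 16776120)))))) (c (a (b (a (c (l 192904430471) (a (l 228337910551) (l 163376530023))) (l 104320729415)) (l 16776448)) (l 16776104)) (b (b (a (a (c (l 282025001623) (l 367387476151)) (l 16777360)) (l 16775896)) (a (l 96267665927) (l 16776248))) (l 16777432))))))))))), by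 decide +kernel⟩

def k6_pp_101_s : ∃ t, chk3 f_pp_101_s t 68 125 1 = true :=
  ⟨(b (b (l 3) (l 14)) (l 14)), by decide +kernel⟩

def k7_pp_101_s : ∃ t, chk3 f_pp_101_s t 138 250 1 = true :=
  ⟨(b (a (l 3) (b (l 3) (b (a (l 3) (a (l 3) (b (l 3) (a (b (l 3) (c (c (l 261087036119) (l 270750712455)) (b (l 426443276551) (a (l 363092509015) (l 16777176))))) (c (c (l 181093270343) (c (l 178945786695) (l 178945786695))) (b (a (l 415705858295) (a (l 260550164887) (l 186461978983))) (l 16777344))))))) (a (a (l 3) (b (l 3) (b (a (l 3) (a (l 3) (b (l 3) (c (l 222432330087) (l 225653555543))))) (a (c (c (l 306184192759) (l 307257934583)) (c (l 391009796359) (l 393694150919))) (a (c (l 173577077143) (l 176261431687)) (c (l 16777016) (l 16777016))))))) (a (b (b (a (l 3) (c (c (l 277730034343) (l 280414388887)) (a (l 445770629415) (a (l 297594257831) (l 215453008295))))) (a (a (l 3) (b (l 3) (c (l 205252460871) (l 210084299063)))) (c (l 120426856871) (l 108615696807)))) (c (c (l 16777424) (l 16777416))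 (a (a (b (l 165524013415) (l 16776856)) (l 16776848)) (l 16775952)))) (c (c (l 16777080) (l 16777408)) (c (l 16777408) (c (l 16777408) (l 69424120199))))))))) (b (a (b (b (l 3) (l 14)) (l 14)) (b (a (a (a (b (b (l 3) (c (l 410874020151) (l 410337149239))) (a (l 14) (c (l 16777248) (l 16777248)))) (b (b (c (c (l 337322705511) (l 396378505511)) (l 402284085527)) (c (c (l 16777448) (l 152102240807)) (a (a (l 227801039287) (l 168745238839)) (l 16777056)))) (c (l 16776680) (c (l 16776024) (l 16776192))))) (c (c (l 16777488) (c (l 16777480) (l 16777480))) (b (b (b (a (a (l 272361324855) (l 16777112)) (l 16776216)) (l 16776880)) (l 16776656)) (l 16775544)))) (b (a (c (c (l 16776168) (l 16774848)) (l 16775504)) (c (l 16775520) (l 16775512))) (c (l 16773928) (l 16773920)))) (c (l 16777104) (l 16776936)))) (a (l 14) (b (a (a (l 14) (l 16774080)) (l 16773112)) (a (l 14) (l 16771896)))))), by decide +kernel⟩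

def k8_pp_101_s : ∃ t, chk3 f_pp_101_s t 278 250 1 = true :=
  ⟨(b (b (b (a (l 3) (a (b (l 3) (a (l 3) (c (l 436643824199) (l 441475662391)))) (a (b (l 3) (b (c (l 423758922087) (l 429127631191)) (a (c (l 226727297559) (l 227264168471)) (c (l 16777424) (l 16777096))))) (b (a (l 3) (c (l 414095245735) (l 421074567575))) (c (c (l 16777656) (l 134385500727)) (b (a (l 214379266551) (l 16777080)) (l 16776864))))))) (a (a (l 3) (b (l 3) (b (a (l 3) (a (c (l 273435066919) (l 277193163287)) (c (l 168208367991) (l 166597755255)))) (a (a (c (l 301889225191) (l 304036708839)) (c (l 179482657175) (l 177872044439))) (c (l 16776944) (l 16776944)))))) (c (b (a (a (c (l 253570843623) (c (l 252497101799) (l 348060123303))) (c (l 148881015415) (l 147270402679))) (l 16776568)) (l 16777272)) (a (b (b (a (l 445233758615) (a (c (l 238538457655) (l 239612199479)) (l 16777280))) (a (a (c (l 260550164999) (l 261623906823)) (l 154786595159)) (l 16776904))) (l 16776608)) (l 16777576))))) (b (a (a (b (b (a (l 3) (a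 (c (l 311552901639) (l 393157279927)) (c (l 190220075447) (l 189146333623)))) (a (c (c (l 243370295959) (l 242833425047)) (a (l 404431569111) (l 200420622807))) (c (l 16776984) (l 16776984)))) (c (l 79624667479) (l 16777344))) (c (l 16777416) (l 16777328))) (a (b (c (l 16774696) (l 16774688)) (l 16774416)) (b (l 16774048) (l 16774752)))) (c (l 16776784) (l 16777432)))) (b (l 16775696) (a (l 16771208) (l 16769912)))), by decide +kernel⟩

def k9_pp_101_s : ∃ t, chk3 f_pp_101_s t 279 250 1 = true :=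
  ⟨(c (b (a (b (a (a (b (b (c (l 218674234375) (c (l 217600492551) (l 232096006999))) (l 16776688)) (l 16774472)) (b (c (l 16777320) (l 94657053223)) (l 16775464))) (l 16776888)) (l 16776104)) (l 16776672)) (l 16774440)) (b (b (b (b (a (a (b (a (l 404968440103) (c (l 16777440) (l 148881015271))) (a (a (l 201494364631) (l 16777064)) (l 16776168))) (l 16776488)) (l 16774200)) (l 16777360)) (l 16777264)) (a (c (l 16770848) (l 16770848)) (l 16772168))) (b (l 16770384) (l 16767952)))), by decide +kernel⟩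

def k10_pp_101_s : ∃ t, chk3 f_pp_101_s t 69 251 1 = true :=
  ⟨(a (a (l 14) (a (l 14) (b (l 16764928) (l 14)))) (l 16771040)), by decide +kernel⟩

def k11_pp_101_s : ∃ t, chk3 f_pp_101_s t 70 248 1 = true :=
  ⟨(a (l 3) (b (l 3) (b (b (l 3) (b (l 3) (a (l 3) (a (l 3) (a (l 3) (c (c (l 355576316215) (l 358260670759)) (b (l 429127631383) (a (l 431811985767) (l 168208368231))))))))) (a (b (l 3) (b (l 3) (a (l 3) (a (l 3) (a (l 3) (c (l 386177958263) (a (l 445770629607) (l 380272378119)))))))) (a (b (b (l 3) (a (l 3) (b (l 3) (a (l 3) (c (l 222432330407) (l 221358588583)))))) (c (b (c (a (l 387788571143) (l 16777616)) (a (l 389399183879) (l 139217339255))) (c (l 115595019479) (c (l 116131890215) (l 114521277479)))) (b (b (a (l 3) (a (l 232632877767) (l 16776960))) (a (a (l 3) (l 252497101479)) (l 16776824))) (b (a (a (l 262697648839) (l 16777008)) (l 16775208)) (l 80161538519))))) (b (b (c (c (a (l 366850605431) (l 16776872)) (a (l 368461218167) (l 16777520))) (b (a (l 444696887895) (a (l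 178945786519) (l 16776864))) (a (a (l 3) (l 194515042951)) (l 16776728)))) (c (c (l 16777576) (l 103783859063)) (b (a (a (l 206326203047) (l 16776912)) (l 16775112)) (l 16776448)))) (c (l 16775688) (l 16775688)))))))), by decide +kernel⟩

def k12_pp_101_s : ∃ t, chk3 f_pp_101_s t 280 249 1 = true :=
  ⟨(b (l 3) (b (b (a (l 3) (b (a (l 3) (a (c (l 419463954935) (l 420000825831)) (b (c (l 311016030983) (l 394767892759)) (c (l 152102240791) (l 149954757143))))) (c (c (a (l 356113187127) (l 16777488)) (a (c (l 357186928951) (l 357723799863)) (l 16777480))) (b (a (l 430201373207) (a (a (l 206326202839) (l 16777064)) (l 16776168))) (a (a (l 431811985767) (c (l 16777480) (l 174650819095))) (l 16776680)))))) (a (b (a (l 3) (b (c (l 440401920599) (l 443086275159)) (a (l 3) (a (c (l 245517779527) (l 246591521351)) (c (l 16777456) (l 16777456)))))) (b (a (l 3) (c (c (l 16777552) (l 158544691863)) (a (a (l 269676970519) (l 16777392)) (l 16776912)))) (a (a (l 3) (a (c (l 282025001527) (l 284172485175))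 (c (l 176798302599) (l 175187689863)))) (c (l 16776776) (l 16776768))))) (c (c (l 87677731671) (c (l 86603989767) (l 16777600))) (b (a (a (b (a (l 232096006695) (l 16777104)) (l 16776888)) (l 16776720)) (l 16775576)) (a (l 16775616) (l 16775616)))))) (c (a (a (b (c (l 108615697399) (c (l 112373793607) (l 111300051783))) (l 16774144)) (l 16776720)) (b (c (l 16773736) (l 16773728)) (l 16773832))) (b (b (a (b (a (a (a (l 309405417991) (l 184314495415)) (l 16776952)) (l 16775808)) (l 16777472)) (l 16774024)) (l 16776696)) (a (a (l 16774136) (l 16774800)) (l 16773816)))))), by decide +kernel⟩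

def k13_pp_101_s : ∃ t, chk3 f_pp_101_s t 281 249 1 = true :=
  ⟨(b (b (l 3) (b (a (l 3) (a (b (l 3) (c (a (c (l 283098743911) (l 373829927223)) (c (l 174113948439) (l 173040206615))) (b (a (l 3) (a (l 319605965335) (l 195051913671))) (a (a (l 288467452711) (l 208473686503)) (l 16776992))))) (b (b (a (l 3) (a (c (l 276656292391) (l 278266905127)) (c (l 16777488) (l 16777480)))) (c (c (l 16777576) (l 168208368343)) (a (a (l 307257934327) (l 181093269927)) (l 16776944)))) (c (l 16777312) (l 16776656))))) (a (b (a (l 3) (c (a (c (l 385641087351) (l 387251700087)) (c (l 185925108583) (l 184851366759))) (b (a (l 3) (a (l 431811985671) (l 223506072071))) (a (l 367387476135) (l 16777360))))) (c (a (c (l 338396446887) (c (l 339470188711) (l 339470188711))) (l 88214602263)) (a (b (a (l 3) (l 374903668951)) (a (l 385104216311) (l 130627404231))) (l 84993376791)))) (c (c (l 16776072) (l 16777384)) (c (l 16777376) (l 16777376)))))) (b (b (c (c (l 16777640) (a (l 16777552) (l 16772232))) (a (c (l 73719087783)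 (c (l 72645345879) (a (b (l 87140860439) (l 16774872)) (l 16774520)))) (l 16773216))) (a (a (c (l 16777896) (l 16777896)) (l 16777240)) (l 16771672))) (a (c (l 16775752) (l 16775744)) (l 16777056)))), by decide +kernel⟩

def k14_pp_101_s : ∃ t, chk3 f_pp_101_s t 141 249 1 = true :=
  ⟨(b (a (b (b (a (a (l 3) (b (l 3) (a (l 3) (c (l 420537696775) (l 424832664055))))) (a (a (b (l 3) (b (c (l 320142836487) (l 398525989143)) (c (l 153712853543) (l 151565369895)))) (b (c (l 401210343863) (l 405505311159)) (c (l 125795566023) (l 115595018695)))) (b (b (a (c (l 291688678087) (l 375977410775)) (c (l 16777056) (l 16777384))) (c (l 16777488) (l 103246987815))) (c (l 16776464) (l 16776464))))) (a (a (b (c (l 438791308039) (l 441475662599)) (b (a (c (l 390472925847) (l 444696887703)) (c (l 183777624743) (a (l 238538457655) (l 16777112)))) (a (c (l 195588784823) (a (l 254107714135) (l 16777136))) (c (l 16776904) (l 16776896))))) (b (c (c (l 180556399815) (c (l 180556399767) (l 181630141559))) (b (a (l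 424832663895) (l 161765917271)) (a (l 173040206455) (l 16776856)))) (c (l 16776560) (l 16776560)))) (c (l 16777192) (l 16777192)))) (c (c (l 16777344) (l 16777336)) (a (l 52244251191) (b (l 16773352) (l 16773448))))) (c (c (l 16777248) (l 16777240)) (c (l 16777232) (b (l 16777136) (l 16768800))))) (c (l 16775008) (l 16774984))), by decide +kernel⟩

def k15_pp_101_s : ∃ t, chk3 f_pp_101_s t 142 248 1 = true :=
  ⟨(b (b (a (l 3) (a (l 3) (b (l 3) (b (a (l 3) (a (l 3) (c (l 303499838551) (l 389399183735)))) (a (c (l 417316471447) (c (l 421074567815) (l 418390213255))) (c (c (l 16777704) (l 160155304999)) (b (a (l 297057387191) (l 16777056)) (l 16777568)))))))) (b (a (l 3) (a (b (a (l 3) (c (l 430201373399) (l 432348857047))) (a (c (l 440401920807) (l 444696888087)) (a (b (c (l 367924347575) (l 430738243943)) (c (l 179482657431) (l 179482657415))) (c (l 129553662679) (l 139754209847))))) (a (c (b (c (l 173577077879) (l 171429594231)) (l 16776520)) (a (b (a (l 359334412455) (l 193441301223))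 (l 16776680)) (l 85530247847))) (c (l 16776168) (l 16776160))))) (b (a (l 3) (a (a (a (b (l 3) (c (l 203641848535) (l 206863073959))) (c (l 144586048311) (c (l 16777376) (l 148881015447)))) (c (l 16776576) (l 16776568))) (c (l 16774272) (l 16774264)))) (a (a (l 3) (a (l 3) (a (b (l 3) (c (l 233169748695) (l 233169748695))) (b (c (l 218137363159) (l 223506072231)) (c (l 16776968) (l 16776968)))))) (c (l 16777600) (l 16777600)))))) (b (a (a (a (b (l 3) (b (b (c (l 410874020311) (l 413021503959)) (a (c (l 326048416535) (l 403357827367)) (c (l 16777432) (l 16777432)))) (c (l 107541955255) (c (l 16777472) (l 103246987879))))) (b (b (l 3) (b (c (l 395304763799) (l 394231021959)) (a (c (l 297594258119) (l 381882990807)) (c (l 16777064) (l 16777064))))) (c (l 83919635079) (c (l 16777128) (l 82309022183))))) (a (b (c (b (c (l 222432331095) (c (l 225653556487) (l 225116685575))) (l 16777384)) (b (a (l 385104216407) (b (l 248739005143) (l 16777016))) (l 16777376))) (c (c (l 16773200) (l 16774504))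 (a (l 16774664) (l 16775648)))) (c (l 16777408) (l 16777400)))) (c (l 16776736) (l 16776728))) (c (c (l 16776944) (l 16777592)) (a (l 16776936) (l 16767736))))), by decide +kernel⟩

def k16_pp_101_s : ∃ t, chk3 f_pp_101_s t 143 248 1 = true :=
  ⟨(b (a (b (b (a (a (a (l 3) (b (l 3) (b (l 3) (c (l 240149070567) (l 243907166919))))) (b (a (l 3) (b (l 3) (c (l 209547428583) (l 212768654007)))) (a (c (l 162839659431) (a (l 193978172151) (l 16777368))) (c (l 16776800) (l 16776800))))) (c (c (l 16777584) (l 16777664)) (b (a (a (l 145659790151) (l 16776744)) (l 16774936)) (l 16775968)))) (a (c (c (l 16777848) (a (l 109689439319) (l 16774744))) (b (b (a (a (l 261087036103) (l 16777000)) (l 16775200)) (l 16777192)) (l 16776080))) (l 16776368))) (c (l 16776528) (l 16776512))) (c (l 16776400) (l 16777688))) (b (l 16774056) (a (l 16769016) (l 16766344)))), by decide +kernel⟩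

def k17_pp_101_s : ∃ t, chk3 f_pp_101_s t 71 249 1 = true :=
  ⟨(b (b (a (b (l 16774448) (a (l 16768656) (l 16768624))) (l 16757376)) (c (l 16770728) (l 16770688))) (a (a (l 16776272) (l 16763128)) (l 16759112))), by decide +kernel⟩

def k18_pp_101_s : ∃ t, chk3 f_pp_101_s t 35 125 1 = true :=
  ⟨(a (b (b (a (c (b (l 16775288) (a (l 16770232) (l 16767616))) (l 16775360)) (a (l 16776672) (l 16763544))) (a (a (l 16761320) (l 16763944)) (l 16759976))) (l 16765760)) (b (l 16764912) (a (l 16747272) (l 16741872)))), by decide +kernel⟩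

def k19_pp_101_s : ∃ t, chk3 f_pp_101_s t 17 63 1 = true :=
  ⟨(b (a (b (a (l 14) (a (l 14) (l 16742920))) (l 14)) (a (b (b (l 16747912) (l 16721824)) (b (l 16738216) (l 16733216))) (b (b (l 16736944) (l 16732352)) (l 16724960)))) (a (l 14) (a (b (l 16725912) (l 14)) (l 16710328)))), by decide +kernel⟩

def k20_pp_101_s : ∃ t, chk3 f_pp_101_s t 18 60 1 = true :=
  ⟨(a (l 3) (b (l 3) (a (l 3) (b (l 3) (a (b (l 3) (a (l 3) (a (b (l 3) (b (c (l 438254437863) (l 440938792407)) (a (c (l 249275877607) (l 350207607095)) (c (l 16778144) (l 123648083447))))) (a (b (l 3) (b (c (l 221895460999) (a (l 363092509031) (l 188609463943))) (l 16777480))) (c (b (l 415705859671) (l 16777392)) (b (l 420000826951) (l 16777384))))))) (a (b (a (l 3) (b (l 3) (a (l 3) (b (l 3) (c (l 253570844951) (l 355039445351)))))) (c (b (b (a (l 392083538983) (l 131701147479)) (c (l 16778120) (l 113984407799))) (l 16774360)) (b (b (a (l 395841635351) (c (l 16777984) (l 140291081895))) (a (c (l 156397209639) (a (l 189146335159)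 (l 16776528))) (l 16775488))) (l 16774344)))) (b (a (b (l 3) (b (c (l 357186929207) (b (l 429664502807) (l 335175221399))) (c (l 16777832) (l 112910665239)))) (b (b (l 3) (a (c (l 320679708999) (l 407652795255)) (c (l 195588786247) (l 192367560775)))) (c (l 16778376) (l 16777720)))) (c (l 16778048) (l 16778024))))))))), by decide +kernel⟩

def k21_pp_101_s : ∃ t, chk3 f_pp_101_s t 36 122 1 = true :=
  ⟨(a (l 3) (b (l 3) (a (b (l 3) (b (l 3) (b (l 3) (a (l 3) (a (l 3) (a (l 3) (a (l 3) (c (l 385104216663) (l 389399183943))))))))) (b (b (l 3) (b (l 3) (a (l 3) (a (l 3) (b (c (l 411410891671) (l 413021504407)) (a (c (l 328732771879) (l 405505311303)) (c (l 16777648) (l 145659790423)))))))) (b (b (a (l 3) (b (c (a (l 432348857431) (l 131701146919)) (a (l 435570082887) (c (l 16778032) (l 120963728679)))) (c (a (c (l 234780363063) (l 239612201111)) (l 16776144)) (a (a (l 444696888071) (l 174650819911)) (l 16776136))))) (a (b (l 3) (a (l 3) (a (l 3) (c (l 211158042039) (a (l 284172485719) (l 16777760))))))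 (a (c (c (l 16777872) (l 118816245191)) (a (b (l 194515043671) (l 16776616)) (l 16776240))) (l 16776536)))) (c (a (a (c (b (l 390472926231) (l 154249726055)) (b (l 391546668055) (c (l 155323467703) (l 153712854967)))) (c (l 108078827495) (c (l 106468214583) (l 104857601847)))) (l 16776704)) (a (b (b (a (l 3) (c (l 160692176663) (a (l 229948523895) (l 16776688)))) (a (a (l 3) (l 349133865159)) (l 16776416))) (a (b (a (l 363092508983) (l 16776816)) (l 16777696)) (l 16775504))) (l 16776688)))))))), by decide +kernel⟩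

def k22_pp_101_s : ∃ t, chk3 f_pp_101_s t 144 123 1 = true :=
  ⟨(a (b (l 3) (b (b (l 3) (b (b (l 3) (a (l 3) (a (l 3) (a (l 3) (c (l 278266905671) (l 369534959895)))))) (a (a (l 3) (a (l 3) (c (l 415168987975) (l 420537697079)))) (b (a (c (l 403894698567) (l 401747214903)) (a (c (l 175724561399) (l 187535721287)) (c (l 16776840) (l 16776840)))) (c (c (l 16778032) (l 120426857751)) (a (a (a (l 233169748871) (l 164450271975)) (l 16776896)) (l 16775088))))))) (a (b (c (b (c (a (l 338396446967) (l 16777784)) (a (c (l 340543930599) (l 340543930599)) (l 122037470487))) (l 16775944)) (b (a (b (l 433959469783) (b (a (l 434496340327) (l 16777480)) (l 136532984567))) (a (b (a (l 260550165399) (l 193978172135)) (l 16776688)) (l 16777304))) (l 16775936))) (l 16776080)) (c (l 16777280) (l 16777264))))) (b (l 3) (b (b (b (b (l 3) (a (l 3) (a (l 3) (a (c (l 312626644103) (l 399599731095)) (c (l 187535721511) (l 197199397767)))))) (b (a (l 3) (a (a (c (l 303499839079) (l 418927084007)) (c (l 216526750679)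 (l 216526750663))) (c (l 16776768) (l 16776768)))) (c (a (c (l 384567345911) (l 385641087735)) (l 16777640)) (a (a (l 3) (a (l 443623146039) (a (l 283635614583) (l 209547428631)))) (l 87677731671))))) (a (c (b (a (b (l 371682443671) (l 137069855639)) (l 96267666439)) (l 16775704)) (b (b (a (a (l 3) (l 352891961527)) (l 120963728167)) (c (l 16777592) (a (l 132774888263) (l 16774968)))) (l 16775704))) (c (l 16774976) (l 16774968)))) (b (b (l 16775784) (a (l 16773264) (l 16771928))) (a (l 16771432) (l 16770096)))))), by decide +kernel⟩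

def k23_pp_101_s : ∃ t, chk3 f_pp_101_s t 145 123 1 = true :=
  ⟨(b (b (l 3) (b (a (l 3) (b (a (l 3) (b (a (l 3) (c (a (l 375977411607) (l 231022265367)) (l 360408154407))) (a (c (l 280414389767) (l 373829927303)) (c (l 16777528) (l 16777528))))) (a (b (a (l 3) (c (l 298131129879) (l 387788571111))) (a (c (l 405505311303) (l 402820956727)) (c (l 149954757639) (l 142438564935)))) (c (c (l 16776304) (l 16777608)) (c (l 16777608) (a (l 96267666375) (l 16774656))))))) (a (b (a (l 3) (a (c (l 438254437479) (l 442012533847)) (b (c (l 420000826007) (l 422148309655)) (a (c (l 226190427127) (l 224579814391)) (c (l 16776960) (l 16776960)))))) (a (b (l 3) (a (l 3) (a (c (l 271287583783) (l 362555637991)) (c (l 16777728) (l 149954757463))))) (c (c (l 119353116055) (c (l 113984406935) (l 119889986967))) (b (a (a (l 241222812775) (l 16777672)) (l 16776528)) (l 16776248))))) (b (a (c (c (l 16777728) (l 105394472103)) (a (a (b (l 207399945111) (l 16776632)) (l 16776600)) (l 16776096))) (l 16776400)) (c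 (l 16774544) (l 16774536)))))) (b (b (a (b (b (c (a (c (l 156934080215) (c (l 158544692791) (l 157470950967))) (l 16774336)) (a (a (a (l 380272378183) (l 167671497671)) (l 16776648)) (l 16774328))) (c (l 16777672) (l 16777672))) (c (l 16777416) (l 16777408))) (l 16775328)) (c (l 16776872) (l 16776848))) (l 16773192))), by decide +kernel⟩

def k24_pp_101_s : ∃ t, chk3 f_pp_101_s t 73 123 1 = true :=
  ⟨(b (a (a (a (b (b (l 3) (b (l 3) (c (c (a (l 373293056599) (l 167671498423)) (a (l 374366798423) (l 165524014775))) (b (c (l 368998089239) (a (l 3) (l 335175221335))) (a (a (l 414095245783) (l 212231783351)) (l 16776752)))))) (c (c (l 16776976) (l 16776968)) (b (c (l 16776872) (l 16777528)) (l 16778360)))) (b (b (b (l 3) (c (l 442549405239) (l 445770630695))) (b (b (a (l 3) (c (l 197199398231) (a (l 252497101975) (l 16777048)))) (a (c (l 210084300215) (a (l 373293056295) (l 16777672))) (c (l 16776624) (l 16776624)))) (c (l 16776048) (l 16777352)))) (b (l 16776184) (l 16777016)))) (b (b (b (a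 (a (l 3) (c (l 422685180903) (l 425369535447))) (a (b (c (l 302962968119) (l 392083538439)) (c (l 151028499575) (l 152102241319))) (c (l 16777632) (l 98952021127)))) (a (b (a (c (l 425906406087) (l 429664502455)) (c (l 163913401575) (l 166060885143))) (c (c (l 16776800) (l 135459243447)) (c (l 133311759799) (a (l 178945787063) (l 16775176))))) (c (l 16775784) (l 16775776)))) (c (l 16777256) (l 16777248))) (l 16774896))) (a (c (b (l 16777080) (l 16778752)) (b (l 16777056) (l 16778720))) (b (l 16775656) (l 16765520)))) (b (c (l 16772608) (l 16772552)) (l 16770288))), by decide +kernel⟩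

def k25_pp_101_s : ∃ t, chk3 f_pp_101_s t 74 122 1 = true :=
  ⟨(b (b (a (l 3) (a (l 3) (b (l 3) (b (a (l 3) (c (c (l 349670736311) (l 350207607223)) (c (l 351281349047) (a (l 430738244583) (l 322827190231))))) (c (a (c (l 364703122103) (l 366313734823)) (l 110763181447)) (a (c (l 367387476647) (a (l 3) (l 344302026967))) (l 106468214151))))))) (a (a (l 3) (b (l 3) (a (a (l 3) (c (l 442012534599) (l 445233760055))) (b (a (l 3) (c (l 404968440727) (l 409800278919))) (b (a (c (l 336248964679) (l 417316471415)) (c (l 16777016) (l 16777664))) (c (l 137069856087) (l 132238017879))))))) (b (b (a (a (l 3) (a (l 3) (b (l 3) (c (l 222969202167) (l 220821718519))))) (c (c (l 16778544) (l 103246988935)) (a (c (l 120426857991) (a (l 152102241799) (l 16776272))) (l 16772616)))) (a (c (a (l 406042182759) (c (l 16778040) (l 147270403959))) (b (a (l 3) (a (l 240685942311) (l 16776736))) (a (l 388325442279) (l 16776464)))) (c (l 16774720) (l 16774704)))) (b (a (a (c (c (l 163376531671) (l 160692177095))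 (b (a (l 378124894615) (l 16776880)) (l 16777920))) (c (l 16775560) (l 16775552))) (l 16776112)) (c (l 16777592) (l 16777576)))))) (a (b (a (b (b (l 3) (a (l 3) (c (a (l 370608702007) (a (l 188072593015) (l 16776848))) (a (a (l 422685180727) (l 359334412631)) (b (l 218674234855) (l 16776720)))))) (c (a (b (a (l 391546667783) (a (l 215453009703) (l 140827952423))) (l 16777608)) (l 16776856)) (a (b (a (l 395304764167) (b (l 357723799831) (l 16776864))) (l 90898957383)) (l 16777504)))) (a (b (b (a (b (l 3) (c (l 206326203767) (l 203641849207))) (c (l 130627405351) (a (l 160155305351) (l 16776704)))) (c (l 16776008) (l 16776008))) (l 16776800)) (c (l 16776656) (l 16776648)))) (c (l 16777280) (l 16777088))) (a (c (l 16774784) (l 16774752)) (l 16773312)))), by decide +kernel⟩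

def k26_pp_101_s : ∃ t, chk3 f_pp_101_s t 75 122 1 = true :=
  ⟨(b (a (b (a (b (b (a (l 3) (a (c (l 276119423287) (l 373829927463)) (c (l 164450273047) (l 160155305751)))) (c (a (a (l 393157280535) (l 184851367975)) (l 16776144)) (a (a (l 396915376919) (a (l 215989880615) (l 16777880))) (l 16776144)))) (a (c (l 16777664) (l 81235281079)) (l 16776936))) (c (l 16777400) (l 16777384))) (c (l 16775208) (l 16775176))) (c (l 16777336) (l 16777288))) (c (l 16770320) (l 16770240))), by decide +kernel⟩

def k27_pp_101_s : ∃ t, chk3 f_pp_101_s t 37 123 1 = true :=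
  ⟨(a (a (b (l 16772048) (b (l 16756488) (l 16751560))) (l 16766496)) (b (a (l 16773704) (l 16747080)) (a (l 16742856) (l 16737192)))), by decide +kernel⟩

def k28_pp_101_s : ∃ t, chk3 f_pp_101_s t 76 60 1 = true :=
  ⟨(b (l 3) (b (a (b (l 3) (b (a (l 3) (c (a (l 432348858423) (b (l 393694151751) (l 161229048119))) (a (l 435033212951) (b (l 397452248119) (a (l 191830689879) (l 16776536)))))) (b (a (c (l 444160018823) (l 447381244263)) (a (a (c (l 220284848471) (l 219211106647)) (c (l 16776704) (l 16776704))) (l 16776984))) (a (a (l 3) (a (c (l 255181457703) (l 356650058103)) (c (l 16776864) (l 16777520)))) (c (l 16775160) (l 16775152)))))) (a (b (b (l 3) (b (a (l 3) (c (l 254644587783) (l 358797541911))) (c (a (l 374903669559) (l 16776512)) (a (l 377588024119) (l 16777824))))) (b (a (b (c (l 131164276567) (l 126869309271)) (l 16776808)) (l 16777328)) (l 16775584))) (b (b (b (a (l 3) (c (l 211694914535) (a (l 377051152983) (l 16777640)))) (c (a (l 233706622071) (l 16776168)) (a (l 340007059703)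 (l 16776160)))) (c (l 16777664) (l 16777656))) (l 16775312)))) (b (a (b (a (b (c (a (c (l 213305527255) (l 213305527175)) (l 16776032)) (a (a (l 381346120327) (l 167671498599)) (l 16776024))) (c (l 16778128) (l 16778120))) (l 16775944)) (c (l 16777528) (l 16777512))) (l 16773128)) (c (l 16774992) (l 16773632))))), by decide +kernel⟩

def k29_pp_101_s : ∃ t, chk3 f_pp_101_s t 77 60 1 = true :=
  ⟨(b (b (a (l 3) (b (l 3) (b (l 3) (a (l 3) (b (c (l 432348858567) (l 435033213095)) (c (a (l 445233759815) (l 181630142919)) (a (l 447918114359) (l 175187692039)))))))) (a (b (b (l 3) (a (l 3) (a (l 3) (a (l 3) (c (l 378124895255) (l 381346120711)))))) (a (b (c (l 434496342231) (a (l 3) (l 431275116503))) (b (c (a (l 439328179687) (l 176798304615)) (a (l 442012534231) (l 169818982839))) (a (c (l 190756948791) (c (l 186461981335) (l 184851368599))) (l 16777104)))) (c (a (b (b (l 386177958871) (l 16778088)) (l 16775008)) (l 68350380375)) (b (a (b (l 389399184343) (l 153175984151)) (l 16778296)) (l 16774296)))))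 (b (a (b (b (l 3) (a (l 3) (c (l 218674236519) (l 215989881959)))) (b (c (c (l 179482660439) (l 177335176775)) (a (l 348596994439) (l 16776240))) (c (l 16775728) (l 16778344)))) (b (a (b (c (l 199346883399) (l 195051916103)) (a (l 16777712) (l 16775696))) (l 16777544)) (l 16776152))) (c (l 16776544) (l 16776528))))) (b (a (b (a (c (l 16778704) (l 16778696)) (l 16775888)) (l 16772400)) (l 16771832)) (b (l 16769912) (a (l 16757328) (l 16751680))))), by decide +kernel⟩

def k30_pp_101_s : ∃ t, chk3 f_pp_101_s t 39 60 1 = true :=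
  ⟨(b (a (a (b (b (b (l 3) (a (l 3) (c (a (l 377588024551) (c (l 16778080) (l 142438567207))) (a (l 380272379095) (b (l 216526752887) (l 16776248)))))) (a (a (c (b (l 407115925303) (l 16778360)) (b (l 410874021671) (l 110226311399))) (b (a (c (l 228874784551) (l 339470188823)) (c (l 144049179431) (l 144049179271))) (l 16777472))) (c (l 16777880) (l 16778200)))) (c (l 16778592) (l 16778560))) (b (a (b (c (b (a (l 348596994647) (l 121500600919)) (l 16774752)) (b (a (c (l 350207607383) (l 351281349207)) (l 119353117255)) (l 16774744))) (l 16776368)) (c (l 16775976) (l 16775960))) (l 16772928))) (a (c (a (l 16773576) (l 16770768)) (l 16776064)) (a (l 16767928) (l 16775608)))) (a (c (l 16763768) (l 16761048)) (b (a (l 16747064) (l 16741480)) (l 16734480)))), by decide +kernel⟩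

def k31_pp_101_s : ∃ t, chk3 f_pp_101_s t 19 61 1 = true :=
  ⟨(b (a (a (c (c (l 16769280) (l 16769192)) (c (l 16769136) (l 16769104))) (b (a (l 16749904) (l 16744248)) (l 16737136))) (a (b (l 16735792) (l 16725864)) (l 16719704))) (a (a (b (l 16738552) (l 16728648)) (l 16743192)) (a (l 16710976) (l 16699752)))), by decide +kernel⟩

def k32_pp_101_s : ∃ t, chk3 f_pp_101_s t 9 31 1 = true :=
  ⟨(a (b (b (a (b (a (a (c (l 16773888) (l 16773840)) (b (a (l 16764400) (l 16761696)) (l 16758144))) (b (a (l 16757616) (l 16752144)) (l 16734224))) (b (c (l 16764976) (l 16766168)) (l 16761272))) (b (l 16751424) (a (l 16731432) (l 16720160)))) (b (a (l 16753840) (a (l 16721192) (l 16710272))) (a (a (l 16712456) (l 16722656)) (a (l 16711888) (l 16700568))))) (b (a (a (b (l 16724120) (l 16714160)) (l 16708112)) (l 16691600)) (a (l 16736016) (l 16672144)))) (a (b (b (b (a (l 16718704) (l 16707304)) (a (l 16708512) (l 16697608))) (a (l 16694480) (l 16683064))) (b (l 16669312) (l 16649976))) (b (b (b (l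 16690632) (l 16680992)) (l 16666488)) (l 16637344)))), by decide +kernel⟩

def k33_pp_101_s : ∃ t, chk3 f_pp_101_s t 10 28 1 = true :=
  ⟨(a (l 3) (b (l 3) (a (b (l 3) (a (l 3) (b (l 3) (a (b (l 3) (b (l 3) (a (l 3) (c (a (l 301889230343) (l 178945789463)) (a (l 403894699831) (l 173577080343)))))) (a (b (c (l 440401925159) (l 447918117879)) (a (b (c (l 247128396775) (l 242833429495)) (l 16777912)) (c (l 16777944) (l 16775328)))) (b (c (b (l 396378507655) (c (l 16776528) (l 153175986119))) (b (l 396915378551) (l 150491631895))) (l 16777816))))))) (b (a (b (l 3) (a (l 3) (a (l 3) (a (l 3) (b (l 3) (c (l 396378508055) (l 396378508039))))))) (b (a (l 3) (b (l 3) (a (c (l 422685184487) (l 444160020199)) (c (b (l 266455751991) (l 16778832)) (b (l 375977411975) (l 16776216)))))) (b (a (a (l 3) (c (c (l 356113188583) (l 355039446759)) (b (l 457581792695) (l 206326208135)))) (a (b (c (l 171966468711) (l 168745243159)) (l 16777312)) (l 16778256))) (a (c (a (b (a (l 440401922439) (l 206326206535))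 (l 16775856)) (l 16774184)) (a (b (l 348596995143) (l 16775864)) (l 16774200))) (l 16775304))))) (b (a (a (b (l 3) (b (a (l 3) (c (a (l 293299295687) (l 16778864)) (l 324437803303))) (a (c (l 360945026407) (l 360408155495)) (c (l 16775424) (l 16775432))))) (b (b (a (c (l 432348859543) (l 433959472247)) (c (l 147270406119) (l 142975438743))) (a (c (c (l 186461983447) (l 183240757975)) (l 180019532839)) (l 16776896))) (c (l 16777592) (l 16772368)))) (c (l 16779360) (l 16776792))) (a (a (b (a (c (l 90898959799) (l 85530250711)) (l 16777344)) (l 16774280)) (l 16773584)) (l 16768000))))))), by decide +kernel⟩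

def k34_pp_101_s : ∃ t, chk3 f_pp_101_s t 20 58 1 = true :=
  ⟨(a (l 3) (b (a (l 3) (b (l 3) (a (l 3) (b (l 3) (b (a (l 3) (c (l 395841636647) (l 396915378455))) (a (c (l 428590763175) (l 430738246791)) (a (c (l 196125659095) (l 190756949975)) (c (l 16775792) (l 16775792))))))))) (a (b (a (l 3) (b (l 3) (b (l 3) (a (l 3) (a (l 3) (c (l 252497105943) (l 359871284087))))))) (a (b (a (l 3) (c (l 445770634423) (b (l 3) (l 448454987255)))) (b (a (l 3) (c (a (l 260550169815) (l 16777880)) (a (l 368998089767) (l 16778536)))) (a (c (a (l 407652796279) (l 190756949799)) (a (l 409800279911) (l 185388240679))) (c (l 16774960) (l 16774960))))) (b (a (c (b (l 414632119079) (c (l 173577081479) (l 170355856007))) (b (l 416242731799) (a (l 213305528967) (l 16776080)))) (c (c (l 16779000) (l 87140864135)) (b (c (l 136532987591) (l 133848632375)) (l 16773920)))) (c (l 16777040) (l 16777040))))) (b (a (b (b (l 3) (a (l 3) (c (a (l 282561877527) (l 167671500151)) (a (l 390472926727) (l 161765920119))))) (a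 (c (b (a (l 433422600567) (l 207936819607)) (l 16778696)) (b (a (l 435570084199) (l 203104981415)) (l 16778696))) (c (l 16779296) (l 16779304)))) (a (b (a (b (c (l 234780365879) (l 346986381911)) (l 16778056)) (c (l 16777768) (l 16777776))) (l 16776432)) (c (l 16775912) (l 16775928)))) (a (c (l 16778872) (l 16778880)) (l 16773184)))))), by decide +kernel⟩

def k35_pp_101_s : ∃ t, chk3 f_pp_101_s t 20 59 1 = true :=
  ⟨(a (b (a (b (l 3) (a (b (l 3) (b (l 3) (a (l 3) (a (l 3) (c (l 372756186247) (l 374366798967)))))) (b (b (l 3) (a (l 3) (c (a (l 410874021783) (l 198273142679)) (a (l 413558376327) (l 193441304471))))) (b (a (a (l 3) (c (l 226727301975) (l 339470188919))) (c (l 16778160) (l 16778160))) (a (a (c (l 134385503335) (l 156934081639)) (l 16777936)) (l 16773176)))))) (b (a (b (l 3) (a (l 3) (c (b (l 421074570119) (c (l 183777629047) (l 180556403575))) (b (l 423758924663) (a (l 339470188919) (l 16776232)))))) (a (b (a (l 3) (b (l 3) (c (l 265382008119) (l 374366798999)))) (a (b (c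 (l 196125659015) (l 191293820807)) (l 16774816)) (c (l 16774568) (l 16774568)))) (b (c (b (a (l 445233760855) (l 224042947351)) (l 104320732599)) (b (a (l 448454986311) (l 219747979399)) (c (l 16778560) (l 103783861207)))) (l 16777640)))) (b (a (a (c (b (a (l 269676975287) (l 133848632439)) (l 16775072)) (b (a (l 375977411751) (l 156397210743)) (l 16775072))) (c (l 16773400) (l 16773400))) (l 16774960)) (c (l 16777664) (l 16777648))))) (a (b (a (b (a (c (b (l 415168989959) (a (l 224042946679) (l 16776216))) (b (a (l 3) (l 410337150775)) (a (l 336248963367) (l 16778832)))) (b (c (c (l 130090536983) (l 129016795159)) (a (c (l 188072595319) (l 185925111671)) (l 16775776))) (l 16776736))) (c (l 16777216) (l 16777208))) (c (l 16779128) (l 16779120))) (c (l 16773744) (l 16772408))) (c (c (l 16776176) (l 16776128)) (l 16773480)))) (a (b (b (a (b (a (c (l 16778200) (l 16778200)) (l 16776616)) (l 16773280)) (l 16773864)) (c (l 16768424) (l 16757912))) (l 16759192)) (b (c (l 16766992) (l 16772224))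 (b (l 16715856) (l 16727192))))), by decide +kernel⟩

def k36_pp_101_s : ∃ t, chk3 f_pp_101_s t 21 29 1 = true :=
  ⟨(b (a (b (a (b (a (l 3) (b (a (l 3) (a (l 3) (c (l 408189668439) (l 409263410247)))) (a (c (b (l 435033214295) (c (l 192367563863) (l 189146338391))) (b (l 436643826999) (a (l 355576316727) (l 16776424)))) (c (c (l 16779432) (l 115595022679)) (b (c (l 152639115303) (l 151565373399)) (l 16774328)))))) (a (b (b (a (l 3) (c (a (l 401210345239) (l 176798305927)) (a (l 402284087047) (l 171429596807)))) (a (c (a (l 443623148167) (l 225653559687)) (a (l 445233760887) (l 220284850583))) (c (l 16775408) (l 16775416)))) (a (a (c (l 90898959735) (l 98952023415)) (l 16778024)) (l 16777192))) (c (c (l 16780480) (l 16775240)) (l 16779192)))) (a (b (b (a (c (b (a (l 446307502823) (l 227264172519)) (l 122037472599)) (b (l 365776864711) (l 116131892567))) (c (l 16776960) (l 16774352))) (c (l 16771216) (l 16771232))) (l 16772248)) (c (l 16777752) (l 16779120)))) (a (b (c (l 16774064) (l 16774096))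 (l 16764784)) (a (l 16771616) (b (l 16749744) (l 16740624))))) (b (a (c (l 16770792) (l 16776128)) (l 16765272)) (b (l 16757264) (a (l 16732608) (l 16722088))))) (a (a (a (a (l 16759000) (l 16753016)) (l 16751600)) (a (l 16743640) (l 16717536))) (a (l 16730752) (l 16699608)))), by decide +kernel⟩

def k37_pp_101_s : ∃ t, chk3 f_pp_101_s t 11 28 1 = true :=
  ⟨(a (b (a (b (l 3) (a (b (l 3) (a (b (l 3) (a (l 3) (c (l 447381246919) (l 475835403287)))) (b (a (l 3) (c (l 379735509687) (l 395841635767))) (a (c (b (l 399062862039) (l 154249727895)) (b (l 417316472087) (l 16779128))) (c (l 16774856) (l 16774872)))))) (a (b (b (l 3) (a (c (l 464024244679) (l 504289560823)) (c (b (l 423758923847) (l 169282113879)) (l 323900932327)))) (b (a (b (c (l 209547433447) (l 218674238983)) (l 67276638583)) (l 16778896)) (l 16776048))) (b (b (a (c (l 396378507591) (l 428590760983)) (c (c (l 16780416) (l 166060889719)) (l 162839664743))) (c (l 16778992) (l 16779008))) (l 16778000))))) (b (a (a (b (l 3) (c (b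 (l 442549406855) (a (b (l 445233759975) (l 16779512)) (l 16775272))) (b (l 462413628439) (a (l 334101479607) (l 16775280))))) (b (b (l 3) (c (b (l 471003564391) (l 363092509479)) (l 401747214647))) (b (a (c (l 175187695959) (l 170892728663)) (l 16774024)) (l 16776528)))) (b (a (b (a (c (l 437180695943) (l 445233758327)) (c (l 184314501607) (l 186461985095))) (c (a (l 16778000) (l 16772720)) (l 16774056))) (c (l 16770712) (l 16770736))) (a (l 16778464) (l 16762616)))) (a (b (c (l 16779576) (l 16778320)) (l 16770008)) (c (l 16773968) (l 16753112))))) (a (a (b (b (a (b (b (a (l 3) (c (l 193441305671) (l 202031240183))) (a (c (l 232096012439) (l 228337916023)) (l 16777656))) (c (l 16778424) (l 16773208))) (c (l 16780344) (l 16769896))) (c (l 16774496) (l 16774568))) (l 16768144)) (b (c (l 16778480) (l 16778592)) (l 16740504))) (a (b (l 16767960) (l 16709104)) (l 16749080)))) (b (a (b (a (c (l 16779552) (l 16779624)) (l 16747856)) (l 16758000)) (c (l 16744632) (l 16744680))) (a (l 16743696) (l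 16691072)))), by decide +kernel⟩

def k38_pp_101_s : ∃ t, chk3 f_pp_101_s t 11 29 1 = true :=
  ⟨(a (a (b (a (l 16751144) (l 16735552)) (l 16684560)) (b (l 16730680) (l 16664728))) (b (a (l 16678624) (l 16615768)) (c (l 16655360) (l 16655272)))), by decide +kernel⟩

def k39_pp_101_s : ∃ t, chk3 f_pp_101_s t 5 15 1 = true :=
  ⟨(a (b (a (a (a (b (a (b (l 16760864) (l 16730960)) (c (l 16755888) (l 16755744))) (b (l 16708368) (l 16688352))) (b (c (l 16749720) (l 16746896)) (b (l 16696496) (l 16676808)))) (b (b (a (b (l 16728936) (l 16719208)) (l 16712680)) (l 16719808)) (b (l 16720752) (l 16660072)))) (b (b (a (a (l 16701864) (l 16691624)) (l 16676752)) (a (l 16677344) (l 16657648))) (a (b (l 16658016) (l 16638344)) (l 16628832)))) (a (b (a (l 16674360) (l 16630488)) (a (l 16614712) (l 16591840))) (b (a (l 16609080) (l 16589224)) (l 16560128)))) (b (a (a (b (b (l 16657400) (l 16639424)) (l 16610120)) (a (l 16658168) (l 16606712))) (a (l 16592256) (l 16573080))) (a (b (l 16540920) (l 16522688))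 (b (l 16527544) (l 16488552))))), by decide +kernel⟩

def k40_pp_101_s : ∃ t, chk3 f_pp_101_s t 3 2 1 = true :=
  ⟨(a (l 3) (l 1)), by decide +kernel⟩

def k41_pp_101_s : ∃ t, chk3 f_pp_101_s t 12 12 1 = true :=
  ⟨(b (l 3) (a (l 3) (b (l 3) (a (l 3) (b (l 3) (a (b (l 3) (a (l 3) (b (l 3) (l 465097977399)))) (b (a (l 3) (a (a (l 3) (l 1)) (l 1))) (a (b (a (l 3) (a (l 431811983623) (b (l 448454982391) (l 16776560)))) (a (b (l 375440538695) (l 140291083079)) (l 16774608))) (c (b (a (l 118816246583) (l 16773048)) (l 16770880)) (l 78014058359)))))))))), by decide +kernel⟩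

def k42_pp_101_s : ∃ t, chk3 f_pp_101_s t 24 26 1 = true :=
  ⟨(b (l 3) (a (b (l 3) (a (l 3) (b (l 3) (a (b (l 3) (l 457044915511)) (a (b (l 510195135831) (l 159081568631)) (b (a (l 389399182375) (l 187535726103)) (l 16773752))))))) (b (a (b (l 3) (a (l 3) (b (l 3) (a (l 3) (c (l 367924345991) (l 368998087463)))))) (b (a (l 3) (b (a (l 3) (l 403894696263)) (a (c (l 324437802519) (l 231559142775)) (l 16777688)))) (a (a (b (l 446844368743) (l 119889990279)) (b (a (l 212768659495) (l 16778624)) (l 16772840))) (l 16775920)))) (a (b (a (b (l 494625878311) (a (l 400136600151) (l 137069860391))) (a (b (a (l 242833431783) (l 156934083415)) (l 16773304)) (l 16777736))) (a (b (l 16778768) (l 16769608)) (l 16766040))) (a (l 16780200) (l 16780000)))))), by decide +kernel⟩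

def k43_pp_101_s : ∃ t, chk3 f_pp_101_s t 25 26 1 = true :=
  ⟨(b (a (b (a (l 3) (b (l 3) (a (l 3) (b (l 466708590455) (a (c (l 386714827431) (l 389399181607)) (b (l 180556402727) (l 16775064))))))) (a (b (a (l 3) (c (l 479593491559) (l 474761651815))) (a (a (l 487109684455) (b (l 3) (a (l 342691413319) (l 159081566519)))) (b (a (c (l 360408153143) (l 360945023767)) (c (l 116131892727) (l 16775552))) (l 16778424)))) (b (a (b (a (l 485499073175) (b (l 418927082055) (l 168208371527))) (a (c (b (l 226727302151) (l 16775680)) (l 169282114743)) (l 16773944))) (b (c (l 16778896) (l 16773632)) (l 16769984))) (l 16777552)))) (b (a (b (a (b (l 3) (a (l 3) (c (b (l 451139336615) (l 193978175143)) (l 327659027639)))) (b (a (c (l 403357825399) (l 419463952327)) (c (b (l 202568109943) (l 16775376)) (l 152639115351))) (a (l 102173248471) (l 16772720)))) (a (a (b (b (l 341617671495) (l 16778656)) (l 16773344)) (l 16777776)) (l 16779136))) (b (c (l 16778656) (l 16778496)) (l 16771464))) (a (l 16774728)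 (l 16750064)))) (a (b (a (b (b (a (a (a (l 177335178167) (l 16775472)) (l 16773456)) (l 16769416)) (l 16778800)) (l 16773056)) (l 16771496)) (a (l 16771944) (l 16740408))) (b (l 16758560) (l 16724896)))), by decide +kernel⟩

def k44_pp_101_s : ∃ t, chk3 f_pp_101_s t 12 27 1 = true :=
  ⟨(a (b (b (a (a (b (a (l 3) (b (l 3) (a (l 460266141975) (l 188072598615)))) (a (b (a (l 3) (l 372219313319)) (a (l 204715597591) (l 16774504))) (b (l 93046445863) (l 16770376)))) (b (a (b (a (l 345375767879) (l 16775328)) (l 16772776)) (l 16769232)) (l 16774592))) (a (l 16778008) (l 16746144))) (a (a (a (l 16776440) (l 16781456)) (l 16773256)) (l 16756928))) (a (c (l 16762832) (l 16762928)) (l 16733504))) (a (b (b (l 16751168) (l 16714768)) (l 16691624)) (b (l 16701856) (l 16629328)))), by decide +kernel⟩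

def k45_pp_101_s : ∃ t, chk3 f_pp_101_s t 13 6 1 = true :=
  ⟨(b (a (b (l 1) (b (l 1) (a (b (l 1) (a (b (l 1) (l 16775520)) (l 1))) (l 1)))) (l 1)) (b (a (b (a (b (a (l 16775480) (l 16744672)) (l 16756024)) (l 151968005271)) (a (l 16733352) (l 16692648))) (b (l 1) (l 16683672))) (a (a (l 16710936) (l 16667384)) (l 16675128)))), by decide +kernel⟩

def k46_pp_101_s : ∃ t, chk3 f_pp_101_s t 7 6 1 = true :=
  ⟨(a (b (l 1) (b (l 1) (a (l 208339135671) (l 1)))) (l 1)), by decide +kernel⟩

def k47_pp_101_s : ∃ t, chk3 f_pp_101_s t 3 7 1 = true :=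
  ⟨(a (b (a (b (a (b (a (l 16702344) (b (l 16689144) (l 16673368))) (l 16680432)) (b (l 16671624) (a (l 16628832) (l 16608560)))) (a (b (a (l 16615720) (l 16615960)) (l 16593752)) (c (l 16608656) (l 16610296)))) (b (a (b (l 16610544) (a (l 16588944) (l 16569344))) (b (l 16486904) (l 16539352))) (a (l 16529288) (l 16532392)))) (a (b (a (l 16543992) (l 16610424)) (a (l 16453920) (l 16440672))) (b (a (l 16467728) (l 16431680)) (a (l 16406728) (l 16372856))))) (b (a (b (a (b (l 16531112) (l 16500336)) (l 16477080)) (l 16434040)) (b (l 1) (l 16488512))) (a (b (a (l 16396664) (l 16362936)) (l 16472776)) (b (l 16334488) (l 6))))), by decide +kernel⟩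

theorem s48_pp_101_s : ∃ t, chk3 f_pp_101_s t 12 26 1 = true := ex3_a k42_pp_101_s k43_pp_101_s

theorem s49_pp_101_s : ∃ t, chk3 f_pp_101_s t 12 13 1 = true := ex3_b s48_pp_101_s k44_pp_101_s

theorem s50_pp_101_s : ∃ t, chk3 f_pp_101_s t 12 6 1 = true := ex3_b k41_pp_101_s s49_pp_101_s

theorem s51_pp_101_s : ∃ t, chk3 f_pp_101_s t 6 6 1 = true := ex3_a s50_pp_101_s k45_pp_101_s

theorem s52_pp_101_s : ∃ t, chk3 f_pp_101_s t 3 6 1 = true := ex3_a s51_pp_101_s k46_pp_101_s

theorem s53_pp_101_s : ∃ t, chk3 f_pp_101_s t 3 3 1 = true := ex3_b s52_pp_101_s k47_pp_101_s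

theorem s54_pp_101_s : ∃ t, chk3 f_pp_101_s t 3 1 1 = true := ex3_b k40_pp_101_s s53_pp_101_s

theorem s55_pp_101_s : ∃ t, chk3 f_pp_101_s t 11 14 1 = true := ex3_b k37_pp_101_s k38_pp_101_s

theorem s56_pp_101_s : ∃ t, chk3 f_pp_101_s t 20 29 1 = true := ex3_b k34_pp_101_s k35_pp_101_s

theorem s57_pp_101_s : ∃ t, chk3 f_pp_101_s t 10 29 1 = true := ex3_a s56_pp_101_s k36_pp_101_s

theorem s58_pp_101_s : ∃ t, chk3 f_pp_101_s t 10 14 1 = true := ex3_b k33_pp_101_s s57_pp_101_s

theorem s59_pp_101_s : ∃ t, chk3 f_pp_101_s t 5 14 1 = true := ex3_a s58_pp_101_s s55_pp_101_s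

theorem s60_pp_101_s : ∃ t, chk3 f_pp_101_s t 5 7 1 = true := ex3_b s59_pp_101_s k39_pp_101_s

theorem s61_pp_101_s : ∃ t, chk3 f_pp_101_s t 38 60 1 = true := ex3_a k28_pp_101_s k29_pp_101_s

theorem s62_pp_101_s : ∃ t, chk3 f_pp_101_s t 19 60 1 = true := ex3_a s61_pp_101_s k30_pp_101_s

theorem s63_pp_101_s : ∃ t, chk3 f_pp_101_s t 19 30 1 = true := ex3_b s62_pp_101_s k31_pp_101_s

theorem s64_pp_101_s : ∃ t, chk3 f_pp_101_s t 37 122 1 = true := ex3_a k25_pp_101_s k26_pp_101_s

theorem s65_pp_101_s : ∃ t, chk3 f_pp_101_s t 37 61 1 = true := ex3_b s64_pp_101_s k27_pp_101_s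

theorem s66_pp_101_s : ∃ t, chk3 f_pp_101_s t 72 123 1 = true := ex3_a k22_pp_101_s k23_pp_101_s

theorem s67_pp_101_s : ∃ t, chk3 f_pp_101_s t 36 123 1 = true := ex3_a s66_pp_101_s k24_pp_101_s

theorem s68_pp_101_s : ∃ t, chk3 f_pp_101_s t 36 61 1 = true := ex3_b k21_pp_101_s s67_pp_101_s

theorem s69_pp_101_s : ∃ t, chk3 f_pp_101_s t 18 61 1 = true := ex3_a s68_pp_101_s s65_pp_101_s

theorem s70_pp_101_s : ∃ t, chk3 f_pp_101_s t 18 30 1 = true := ex3_b k20_pp_101_s s69_pp_101_s

theorem s71_pp_101_s : ∃ t, chk3 f_pp_101_s t 9 30 1 = true := ex3_a s70_pp_101_s s63_pp_101_s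

theorem s72_pp_101_s : ∃ t, chk3 f_pp_101_s t 9 15 1 = true := ex3_b s71_pp_101_s k32_pp_101_s

theorem s73_pp_101_s : ∃ t, chk3 f_pp_101_s t 71 248 1 = true := ex3_a k15_pp_101_s k16_pp_101_s

theorem s74_pp_101_s : ∃ t, chk3 f_pp_101_s t 71 124 1 = true := ex3_b s73_pp_101_s k17_pp_101_s

theorem s75_pp_101_s : ∃ t, chk3 f_pp_101_s t 140 249 1 = true := ex3_a k12_pp_101_s k13_pp_101_s

theorem s76_pp_101_s : ∃ t, chk3 f_pp_101_s t 70 249 1 = true := ex3_a s75_pp_101_s k14_pp_101_s

theorem s77_pp_101_s : ∃ t, chk3 f_pp_101_s t 70 124 1 = true := ex3_b k11_pp_101_s s76_pp_101_s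

theorem s78_pp_101_s : ∃ t, chk3 f_pp_101_s t 35 124 1 = true := ex3_a s77_pp_101_s s74_pp_101_s

theorem s79_pp_101_s : ∃ t, chk3 f_pp_101_s t 35 62 1 = true := ex3_b s78_pp_101_s k18_pp_101_s

theorem s80_pp_101_s : ∃ t, chk3 f_pp_101_s t 139 250 1 = true := ex3_a k8_pp_101_s k9_pp_101_s

theorem s81_pp_101_s : ∃ t, chk3 f_pp_101_s t 69 250 1 = true := ex3_a k7_pp_101_s s80_pp_101_s

theorem s82_pp_101_s : ∃ t, chk3 f_pp_101_s t 69 125 1 = true := ex3_b s81_pp_101_s k10_pp_101_s

theorem s83_pp_101_s : ∃ t, chk3 f_pp_101_s t 34 125 1 = true := ex3_a k6_pp_101_s s82_pp_101_s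

theorem s84_pp_101_s : ∃ t, chk3 f_pp_101_s t 34 62 1 = true := ex3_b k5_pp_101_s s83_pp_101_s

theorem s85_pp_101_s : ∃ t, chk3 f_pp_101_s t 17 62 1 = true := ex3_a s84_pp_101_s s79_pp_101_s

theorem s86_pp_101_s : ∃ t, chk3 f_pp_101_s t 17 31 1 = true := ex3_b s85_pp_101_s k19_pp_101_s

theorem s87_pp_101_s : ∃ t, chk3 f_pp_101_s t 8 31 1 = true := ex3_a k4_pp_101_s s86_pp_101_s

theorem s88_pp_101_s : ∃ t, chk3 f_pp_101_s t 8 15 1 = true := ex3_b k3_pp_101_s s87_pp_101_s

theorem s89_pp_101_s : ∃ t, chk3 f_pp_101_s t 4 15 1 = true := ex3_a s88_pp_101_s s72_pp_101_s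

theorem s90_pp_101_s : ∃ t, chk3 f_pp_101_s t 4 7 1 = true := ex3_b k2_pp_101_s s89_pp_101_s

theorem s91_pp_101_s : ∃ t, chk3 f_pp_101_s t 2 7 1 = true := ex3_a s90_pp_101_s s60_pp_101_s

theorem s92_pp_101_s : ∃ t, chk3 f_pp_101_s t 2 3 1 = true := ex3_b k1_pp_101_s s91_pp_101_s

theorem s93_pp_101_s : ∃ t, chk3 f_pp_101_s t 2 1 1 = true := ex3_b k0_pp_101_s s92_pp_101_s

theorem s94_pp_101_s : ∃ t, chk3 f_pp_101_s t 1 1 1 = true := ex3_a s93_pp_101_s s54_pp_101_s

theorem c_pp_101_s : CertNE 536870912 536870912 536870912 536870912 740881858 40050571 3 eng mog cd5q1 cd0q1 pd0 false true true .npn 1 0 1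
    ndB5q1 ndB0q1 pcB0 cut_pp_101_s Ext.none :=
  certNE2 (fam := false) (s1 := true) (s2 := true) (a := 1) (b := 0) (c := 1) (cn := .npn) (n1 := ndB5q1) (n2 := ndB0q1) (pc := pcB0) (cut := cut_pp_101_s) (xt := Ext.none) (P1 := 536870912) (W1 := 536870912) (P2 := 536870912) (W2 := 536870912) (P3 := 740881858) (W3 := 40050571) (N0 := 3) (En := eng) (mo := mog) (C1 := cd5q1) (C2 := cd0q1) (C3 := pd0)
    rfl (fun _ => rfl) s94_pp_101_s

noncomputable def cut_pp_102_s : Cut := Cut.of [[⟨4, 0, 0, 1449551462⟩], [⟨0, 1, 0, 67108864⟩, ⟨1, 0, 0, 67108864⟩, ⟨2, 1, 0, 67108864⟩]]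

noncomputable def f_pp_102_s : ℕ → ℕ → ℕ → ℕ → Bool := onCell 536870912 536870912 0 536870912 740881858 40050571
    (rowNE 3 eng mog cd5q1 cd0q2 pd0 0 false true true .npp 1 0 2 (qsf 536870912 536870912 0 536870912 0) ndB5q1 ndB0q2 pcB0 cut_pp_102_s Ext.none)

def k0_pp_102_s : ∃ t, chk3 f_pp_102_s t 1 1 1 = true :=
  ⟨(b (l 6) (a (a (l 6) (b (l 6) (b (l 6) (a (b (l 6) (l 16420224)) (b (a (l 6) (l 16345512)) (a (a (l 16372344) (l 16385472)) (b (l 16389752) (l 16421064)))))))) (a (b (l 6) (b (a (a (l 6) (b (l 6) (l 16318488))) (a (b (l 6) (l 16341536)) (b (l 16297928) (l 16474976)))) (a (b (a (l 16364184) (l 16386448)) (a (b (l 16414840) (l 16450240)) (b (l 16442744) (l 16482064)))) (a (b (a (l 16407888) (l 16423776)) (b (l 16601856) (l 16518616))) (b (b (l 16469840) (l 16468968)) (b (l 16512936) (l 16559392))))))) (b (b (l 6) (a (a (l 6) (b (l 6) (l 16267128))) (a (l 16411680) (b (l 16213048) (l 16291176))))) (b (a (b (a (l 16405928) (l 16343488)) (a (l 16398464) (l 16426352))) (b (a (l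 16363416) (a (l 16377096) (l 16385144))) (a (a (l 16446560) (l 16459376)) (a (l 16471528) (b (l 16458016) (l 16508032)))))) (a (b (a (l 16545336) (b (l 16493048) (l 16540856))) (a (b (l 16534056) (l 16665480)) (a (b (l 16582520) (l 16634984)) (b (l 16602216) (l 16698096))))) (b (a (b (l 16587360) (a (l 16567224) (l 16584080))) (a (b (l 16546624) (l 14)) (l 14))) (a (b (a (b (l 16607056) (l 16635040)) (b (l 16625192) (l 14))) (a (b (l 16662536) (l 16712304)) (l 14))) (l 14))))))))), by decide +kernel⟩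

theorem c_pp_102_s : CertNE 536870912 536870912 0 536870912 740881858 40050571 3 eng mog cd5q1 cd0q2 pd0 false true true .npp 1 0 2
    ndB5q1 ndB0q2 pcB0 cut_pp_102_s Ext.none :=
  certNE0 (fam := false) (s1 := true) (s2 := true) (a := 1) (b := 0) (c := 2) (cn := .npp) (n1 := ndB5q1) (n2 := ndB0q2) (pc := pcB0) (cut := cut_pp_102_s) (xt := Ext.none) (P1 := 536870912) (W1 := 536870912) (P2 := 0) (W2 := 536870912) (P3 := 740881858) (W3 := 40050571) (N0 := 3) (En := eng) (mo := mog) (C1 := cd5q1) (C2 := cd0q2) (C3 := pd0)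
    rfl k0_pp_102_s

noncomputable def cut_pp_112_s : Cut := Cut.of [[⟨4, 0, 0, 1449551462⟩]]

noncomputable def f_pp_112_s : ℕ → ℕ → ℕ → ℕ → Bool := onCell 536870912 536870912 0 536870912 740881858 40050571
    (rowNE 3 eng mog cd5q1 cd0q2 pd1 2 false true true .dn 1 1 2 (qsf 536870912 536870912 0 536870912 1) ndB5q1 ndB0q2 pcB1 cut_pp_112_s Ext.none)

def k0_pp_112_s : ∃ t, chk3 f_pp_112_s t 1 1 1 = true :=
  ⟨(a (l 6) (l 1)), by decide +kernel⟩

theorem c_pp_112_s : CertNE 536870912 536870912 0 536870912 740881858 40050571 3 eng mog cd5q1 cd0q2 pd1 false true true .dn 1 1 2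
    ndB5q1 ndB0q2 pcB1 cut_pp_112_s Ext.none :=
  certNE2 (fam := false) (s1 := true) (s2 := true) (a := 1) (b := 1) (c := 2) (cn := .dn) (n1 := ndB5q1) (n2 := ndB0q2) (pc := pcB1) (cut := cut_pp_112_s) (xt := Ext.none) (P1 := 536870912) (W1 := 536870912) (P2 := 0) (W2 := 536870912) (P3 := 740881858) (W3 := 40050571) (N0 := 3) (En := eng) (mo := mog) (C1 := cd5q1) (C2 := cd0q2) (C3 := pd1)
    rfl (fun _ => rfl) k0_pp_112_s

noncomputable def cut_pp_202_s : Cut := Cut.of [[⟨4, 0, 0, 1449551462⟩], [⟨0, 1, 0, 67108864⟩, ⟨1, 0, 0, 67108864⟩, ⟨2, 1, 0, 67108864⟩]]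

noncomputable def f_pp_202_s : ℕ → ℕ → ℕ → ℕ → Bool := onCell 0 536870912 0 536870912 740881858 40050571
    (rowNE 3 eng mog cd5q2 cd0q2 pd0 2 false true true .pp 2 0 2 (qsf 1073741824 536870912 0 536870912 0) ndB5q2 ndB0q2 pcB0 cut_pp_202_s Ext.none)

def k0_pp_202_s : ∃ t, chk3 f_pp_202_s t 1 1 1 = true :=
  ⟨(a (b (a (l 6) (l 6)) (a (b (b (a (a (b (l 16380544) (l 16417680)) (b (l 6) (l 16333160))) (l 6)) (a (a (b (l 16457464) (l 16499464)) (b (l 16366672) (l 16403912))) (a (b (l 16260784) (l 16292808)) (l 446709345783)))) (a (a (b (b (a (l 16570488) (l 16524120)) (l 14)) (l 14)) (a (b (b (l 16473584) (l 14)) (l 14)) (b (b (l 16418992) (l 302828276471)) (l 1)))) (b (b (a (l 332356010487) (l 1)) (l 1)) (l 1)))) (b (l 1) (l 1)))) (l 1)), by decide +kernel⟩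

theorem c_pp_202_s : CertNE 1073741824 536870912 0 536870912 740881858 40050571 3 eng mog cd5q2 cd0q2 pd0 false true true .pp 2 0 2
    ndB5q2 ndB0q2 pcB0 cut_pp_202_s Ext.none :=
  certNE2 (fam := false) (s1 := true) (s2 := true) (a := 2) (b := 0) (c := 2) (cn := .pp) (n1 := ndB5q2) (n2 := ndB0q2) (pc := pcB0) (cut := cut_pp_202_s) (xt := Ext.none) (P1 := 1073741824) (W1 := 536870912) (P2 := 0) (W2 := 536870912) (P3 := 740881858) (W3 := 40050571) (N0 := 3) (En := eng) (mo := mog) (C1 := cd5q2) (C2 := cd0q2) (C3 := pd0)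
    rfl (fun _ => rfl) k0_pp_202_s

noncomputable def cut_pm_001_s : Cut := Cut.of [[⟨4, 0, 0, 1449551462⟩]]

noncomputable def f_pm_001_s : ℕ → ℕ → ℕ → ℕ → Bool := onCell 0 536870912 536870912 536870912 740881858 40050571
    (rowNE 3 eng mog cd5q0 cd0q1 pd0 0 false true false .up 0 0 1 (qsf 0 536870912 536870912 536870912 0) ndB5q0 ndB0q1 pcB0 cut_pm_001_s Ext.none)

def k0_pm_001_s : ∃ t, chk3 f_pm_001_s t 1 1 1 = true :=
  ⟨(l 4), by decide +kernel⟩

theorem c_pm_001_s : CertNE 0 536870912 536870912 536870912 740881858 40050571 3 eng mog cd5q0 cd0q1 pd0 false true false .up 0 0 1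
    ndB5q0 ndB0q1 pcB0 cut_pm_001_s Ext.none :=
  certNE0 (fam := false) (s1 := true) (s2 := false) (a := 0) (b := 0) (c := 1) (cn := .up) (n1 := ndB5q0) (n2 := ndB0q1) (pc := pcB0) (cut := cut_pm_001_s) (xt := Ext.none) (P1 := 0) (W1 := 536870912) (P2 := 536870912) (W2 := 536870912) (P3 := 740881858) (W3 := 40050571) (N0 := 3) (En := eng) (mo := mog) (C1 := cd5q0) (C2 := cd0q1) (C3 := pd0)
    rfl k0_pm_001_s

noncomputable def cut_pm_011_s : Cut := Cut.of [[⟨4, 0, 0, 1449551462⟩]]

noncomputable def f_pm_011_s : ℕ → ℕ → ℕ → ℕ → Bool := onCell 0 536870912 536870912 536870912 740881858 40050571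
    (rowNE 3 eng mog cd5q0 cd0q1 pd1 0 false true false .pnn 0 1 1 (qsf 0 536870912 536870912 536870912 1) ndB5q0 ndB0q1 pcB1 cut_pm_011_s Ext.none)

def k0_pm_011_s : ∃ t, chk3 f_pm_011_s t 1 1 1 = true :=
  ⟨(l 4), by decide +kernel⟩

theorem c_pm_011_s : CertNE 0 536870912 536870912 536870912 740881858 40050571 3 eng mog cd5q0 cd0q1 pd1 false true false .pnn 0 1 1
    ndB5q0 ndB0q1 pcB1 cut_pm_011_s Ext.none :=
  certNE0 (fam := false) (s1 := true) (s2 := false) (a := 0) (b := 1) (c := 1) (cn := .pnn) (n1 := ndB5q0) (n2 := ndB0q1) (pc := pcB1) (cut := cut_pm_011_s) (xt := Ext.none) (P1 := 0) (W1 := 536870912) (P2 := 536870912) (W2 := 536870912) (P3 := 740881858) (W3 := 40050571) (N0 := 3) (En := eng) (mo := mog) (C1 := cd5q0) (C2 := cd0q1) (C3 := pd1)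
    rfl k0_pm_011_s

noncomputable def cut_pm_012_s : Cut := Cut.of [[⟨4, 0, 0, 1449551462⟩]]

noncomputable def f_pm_012_s : ℕ → ℕ → ℕ → ℕ → Bool := onCell 0 536870912 0 536870912 740881858 40050571
    (rowNE 3 eng mog cd5q0 cd0q2 pd1 0 false true false .pnp 0 1 2 (qsf 0 536870912 0 536870912 1) ndB5q0 ndB0q2 pcB1 cut_pm_012_s Ext.none)

def k0_pm_012_s : ∃ t, chk3 f_pm_012_s t 1 1 1 = true :=
  ⟨(l 6), by decide +kernel⟩

theorem c_pm_012_s : CertNE 0 536870912 0 536870912 740881858 40050571 3 eng mog cd5q0 cd0q2 pd1 false true false .pnp 0 1 2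
    ndB5q0 ndB0q2 pcB1 cut_pm_012_s Ext.none :=
  certNE0 (fam := false) (s1 := true) (s2 := false) (a := 0) (b := 1) (c := 2) (cn := .pnp) (n1 := ndB5q0) (n2 := ndB0q2) (pc := pcB1) (cut := cut_pm_012_s) (xt := Ext.none) (P1 := 0) (W1 := 536870912) (P2 := 0) (W2 := 536870912) (P3 := 740881858) (W3 := 40050571) (N0 := 3) (En := eng) (mo := mog) (C1 := cd5q0) (C2 := cd0q2) (C3 := pd1)
    rfl k0_pm_012_s

noncomputable def cut_pm_022_s : Cut := Cut.of [[⟨4, 0, 0, 1449551462⟩]]

noncomputable def f_pm_022_s : ℕ → ℕ → ℕ → ℕ → Bool := onCell 0 536870912 0 536870912 740881858 40050571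
    (rowNE 3 eng mog cd5q0 cd0q2 pd2 0 false true false .pp 0 2 2 (qsf 0 536870912 0 536870912 2) ndB5q0 ndB0q2 pcB2 cut_pm_022_s Ext.none)

def k0_pm_022_s : ∃ t, chk3 f_pm_022_s t 1 1 1 = true :=
  ⟨(l 6), by decide +kernel⟩

theorem c_pm_022_s : CertNE 0 536870912 0 536870912 740881858 40050571 3 eng mog cd5q0 cd0q2 pd2 false true false .pp 0 2 2
    ndB5q0 ndB0q2 pcB2 cut_pm_022_s Ext.none :=
  certNE0 (fam := false) (s1 := true) (s2 := false) (a := 0) (b := 2) (c := 2) (cn := .pp) (n1 := ndB5q0) (n2 := ndB0q2) (pc := pcB2) (cut := cut_pm_022_s) (xt := Ext.none) (P1 := 0) (W1 := 536870912) (P2 := 0) (W2 := 536870912) (P3 := 740881858) (W3 := 40050571) (N0 := 3) (En := eng) (mo := mog) (C1 := cd5q0) (C2 := cd0q2) (C3 := pd2)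
    rfl k0_pm_022_s

noncomputable def cut_pm_101_s : Cut := Cut.of [[⟨4, 0, 0, 1449551462⟩]]

noncomputable def f_pm_101_s : ℕ → ℕ → ℕ → ℕ → Bool := onCell 536870912 536870912 536870912 536870912 740881858 40050571
    (rowNE 3 eng mog cd5q1 cd0q1 pd0 0 false true false .npn 1 0 1 (qsf 536870912 536870912 536870912 536870912 0) ndB5q1 ndB0q1 pcB0 cut_pm_101_s Ext.none)

def k0_pm_101_s : ∃ t, chk3 f_pm_101_s t 1 1 1 = true :=
  ⟨(l 4), by decide +kernel⟩

theorem c_pm_101_s : CertNE 536870912 536870912 536870912 536870912 740881858 40050571 3 eng mog cd5q1 cd0q1 pd0 false true false .npn 1 0 1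
    ndB5q1 ndB0q1 pcB0 cut_pm_101_s Ext.none :=
  certNE0 (fam := false) (s1 := true) (s2 := false) (a := 1) (b := 0) (c := 1) (cn := .npn) (n1 := ndB5q1) (n2 := ndB0q1) (pc := pcB0) (cut := cut_pm_101_s) (xt := Ext.none) (P1 := 536870912) (W1 := 536870912) (P2 := 536870912) (W2 := 536870912) (P3 := 740881858) (W3 := 40050571) (N0 := 3) (En := eng) (mo := mog) (C1 := cd5q1) (C2 := cd0q1) (C3 := pd0)
    rfl k0_pm_101_s

noncomputable def cut_pm_102_s : Cut := Cut.of [[⟨4, 0, 0, 1449551462⟩]]

noncomputable def f_pm_102_s : ℕ → ℕ → ℕ → ℕ → Bool := onCell 536870912 536870912 0 536870912 740881858 40050571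
    (rowNE 3 eng mog cd5q1 cd0q2 pd0 0 false true false .npp 1 0 2 (qsf 536870912 536870912 0 536870912 0) ndB5q1 ndB0q2 pcB0 cut_pm_102_s Ext.none)

def k0_pm_102_s : ∃ t, chk3 f_pm_102_s t 1 1 1 = true :=
  ⟨(l 6), by decide +kernel⟩

theorem c_pm_102_s : CertNE 536870912 536870912 0 536870912 740881858 40050571 3 eng mog cd5q1 cd0q2 pd0 false true false .npp 1 0 2
    ndB5q1 ndB0q2 pcB0 cut_pm_102_s Ext.none :=
  certNE0 (fam := false) (s1 := true) (s2 := false) (a := 1) (b := 0) (c := 2) (cn := .npp) (n1 := ndB5q1) (n2 := ndB0q2) (pc := pcB0) (cut := cut_pm_102_s) (xt := Ext.none) (P1 := 536870912) (W1 := 536870912) (P2 := 0) (W2 := 536870912) (P3 := 740881858) (W3 := 40050571) (N0 := 3) (En := eng) (mo := mog) (C1 := cd5q1) (C2 := cd0q2) (C3 := pd0)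
    rfl k0_pm_102_s

noncomputable def cut_pm_112_s : Cut := Cut.of [[⟨4, 0, 0, 1449551462⟩]]

noncomputable def f_pm_112_s : ℕ → ℕ → ℕ → ℕ → Bool := onCell 536870912 536870912 0 536870912 740881858 40050571
    (rowNE 3 eng mog cd5q1 cd0q2 pd1 0 false true false .dn 1 1 2 (qsf 536870912 536870912 0 536870912 1) ndB5q1 ndB0q2 pcB1 cut_pm_112_s Ext.none)

def k0_pm_112_s : ∃ t, chk3 f_pm_112_s t 1 1 1 = true :=
  ⟨(l 6), by decide +kernel⟩

theorem c_pm_112_s : CertNE 536870912 536870912 0 536870912 740881858 40050571 3 eng mog cd5q1 cd0q2 pd1 false true false .dn 1 1 2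
    ndB5q1 ndB0q2 pcB1 cut_pm_112_s Ext.none :=
  certNE0 (fam := false) (s1 := true) (s2 := false) (a := 1) (b := 1) (c := 2) (cn := .dn) (n1 := ndB5q1) (n2 := ndB0q2) (pc := pcB1) (cut := cut_pm_112_s) (xt := Ext.none) (P1 := 536870912) (W1 := 536870912) (P2 := 0) (W2 := 536870912) (P3 := 740881858) (W3 := 40050571) (N0 := 3) (En := eng) (mo := mog) (C1 := cd5q1) (C2 := cd0q2) (C3 := pd1)
    rfl k0_pm_112_s

noncomputable def cut_pm_202_s : Cut := Cut.of [[⟨4, 0, 0, 1449551462⟩]]

noncomputable def f_pm_202_s : ℕ → ℕ → ℕ → ℕ → Bool := onCell 0 536870912 0 536870912 740881858 40050571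
    (rowNE 3 eng mog cd5q2 cd0q2 pd0 2 false true false .pp 2 0 2 (qsf 1073741824 536870912 0 536870912 0) ndB5q2 ndB0q2 pcB0 cut_pm_202_s Ext.none)

def k0_pm_202_s : ∃ t, chk3 f_pm_202_s t 1 1 1 = true :=
  ⟨(l 6), by decide +kernel⟩

theorem c_pm_202_s : CertNE 1073741824 536870912 0 536870912 740881858 40050571 3 eng mog cd5q2 cd0q2 pd0 false true false .pp 2 0 2
    ndB5q2 ndB0q2 pcB0 cut_pm_202_s Ext.none :=
  certNE2 (fam := false) (s1 := true) (s2 := false) (a := 2) (b := 0) (c := 2) (cn := .pp) (n1 := ndB5q2) (n2 := ndB0q2) (pc := pcB0) (cut := cut_pm_202_s) (xt := Ext.none) (P1 := 1073741824) (W1 := 536870912) (P2 := 0) (W2 := 536870912) (P3 := 740881858) (W3 := 40050571) (N0 := 3) (En := eng) (mo := mog) (C1 := cd5q2) (C2 := cd0q2) (C3 := pd0)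
    rfl (fun _ => rfl) k0_pm_202_s

noncomputable def cut_mm_001_s : Cut := Cut.of [[⟨4, 0, 0, 1449551462⟩]]

noncomputable def f_mm_001_s : ℕ → ℕ → ℕ → ℕ → Bool := onCell 0 536870912 536870912 536870912 740881858 40050571
    (rowNE 3 eng mog cd5q0 cd0q1 pd0 0 false false false .up 0 0 1 (qsf 0 536870912 536870912 536870912 0) ndB5q0 ndB0q1 pcB0 cut_mm_001_s Ext.none)

def k0_mm_001_s : ∃ t, chk3 f_mm_001_s t 1 1 1 = true :=
  ⟨(l 5), by decide +kernel⟩

theorem c_mm_001_s : CertNE 0 536870912 536870912 536870912 740881858 40050571 3 eng mog cd5q0 cd0q1 pd0 false false false .up 0 0 1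
    ndB5q0 ndB0q1 pcB0 cut_mm_001_s Ext.none :=
  certNE0 (fam := false) (s1 := false) (s2 := false) (a := 0) (b := 0) (c := 1) (cn := .up) (n1 := ndB5q0) (n2 := ndB0q1) (pc := pcB0) (cut := cut_mm_001_s) (xt := Ext.none) (P1 := 0) (W1 := 536870912) (P2 := 536870912) (W2 := 536870912) (P3 := 740881858) (W3 := 40050571) (N0 := 3) (En := eng) (mo := mog) (C1 := cd5q0) (C2 := cd0q1) (C3 := pd0)
    rfl k0_mm_001_s

noncomputable def cut_mm_011_s : Cut := Cut.of [[⟨4, 0, 0, 1449551462⟩]]

noncomputable def f_mm_011_s : ℕ → ℕ → ℕ → ℕ → Bool := onCell 0 536870912 536870912 536870912 740881858 40050571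
    (rowNE 3 eng mog cd5q0 cd0q1 pd1 0 false false false .pnn 0 1 1 (qsf 0 536870912 536870912 536870912 1) ndB5q0 ndB0q1 pcB1 cut_mm_011_s Ext.none)

def k0_mm_011_s : ∃ t, chk3 f_mm_011_s t 1 1 1 = true :=
  ⟨(l 5), by decide +kernel⟩

theorem c_mm_011_s : CertNE 0 536870912 536870912 536870912 740881858 40050571 3 eng mog cd5q0 cd0q1 pd1 false false false .pnn 0 1 1
    ndB5q0 ndB0q1 pcB1 cut_mm_011_s Ext.none :=
  certNE0 (fam := false) (s1 := false) (s2 := false) (a := 0) (b := 1) (c := 1) (cn := .pnn) (n1 := ndB5q0) (n2 := ndB0q1) (pc := pcB1) (cut := cut_mm_011_s) (xt := Ext.none) (P1 := 0) (W1 := 536870912) (P2 := 536870912) (W2 := 536870912) (P3 := 740881858) (W3 := 40050571) (N0 := 3) (En := eng) (mo := mog) (C1 := cd5q0) (C2 := cd0q1) (C3 := pd1)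
    rfl k0_mm_011_s

noncomputable def cut_mm_012_s : Cut := Cut.of [[⟨4, 0, 0, 1449551462⟩]]

noncomputable def f_mm_012_s : ℕ → ℕ → ℕ → ℕ → Bool := onCell 0 536870912 0 536870912 740881858 40050571
    (rowNE 3 eng mog cd5q0 cd0q2 pd1 0 false false false .pnp 0 1 2 (qsf 0 536870912 0 536870912 1) ndB5q0 ndB0q2 pcB1 cut_mm_012_s Ext.none)

def k0_mm_012_s : ∃ t, chk3 f_mm_012_s t 1 1 1 = true :=
  ⟨(l 5), by decide +kernel⟩

theorem c_mm_012_s : CertNE 0 536870912 0 536870912 740881858 40050571 3 eng mog cd5q0 cd0q2 pd1 false false false .pnp 0 1 2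
    ndB5q0 ndB0q2 pcB1 cut_mm_012_s Ext.none :=
  certNE0 (fam := false) (s1 := false) (s2 := false) (a := 0) (b := 1) (c := 2) (cn := .pnp) (n1 := ndB5q0) (n2 := ndB0q2) (pc := pcB1) (cut := cut_mm_012_s) (xt := Ext.none) (P1 := 0) (W1 := 536870912) (P2 := 0) (W2 := 536870912) (P3 := 740881858) (W3 := 40050571) (N0 := 3) (En := eng) (mo := mog) (C1 := cd5q0) (C2 := cd0q2) (C3 := pd1)
    rfl k0_mm_012_s

noncomputable def cut_mm_022_s : Cut := Cut.of [[⟨4, 0, 0, 1449551462⟩]]

noncomputable def f_mm_022_s : ℕ → ℕ → ℕ → ℕ → Bool := onCell 0 536870912 0 536870912 740881858 40050571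
    (rowNE 3 eng mog cd5q0 cd0q2 pd2 0 false false false .pp 0 2 2 (qsf 0 536870912 0 536870912 2) ndB5q0 ndB0q2 pcB2 cut_mm_022_s Ext.none)

def k0_mm_022_s : ∃ t, chk3 f_mm_022_s t 1 1 1 = true :=
  ⟨(l 5), by decide +kernel⟩

theorem c_mm_022_s : CertNE 0 536870912 0 536870912 740881858 40050571 3 eng mog cd5q0 cd0q2 pd2 false false false .pp 0 2 2
    ndB5q0 ndB0q2 pcB2 cut_mm_022_s Ext.none :=
  certNE0 (fam := false) (s1 := false) (s2 := false) (a := 0) (b := 2) (c := 2) (cn := .pp) (n1 := ndB5q0) (n2 := ndB0q2) (pc := pcB2) (cut := cut_mm_022_s) (xt := Ext.none) (P1 := 0) (W1 := 536870912) (P2 := 0) (W2 := 536870912) (P3 := 740881858) (W3 := 40050571) (N0 := 3) (En := eng) (mo := mog) (C1 := cd5q0) (C2 := cd0q2) (C3 := pd2)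
    rfl k0_mm_022_s

noncomputable def cut_mm_101_s : Cut := Cut.of [[⟨4, 0, 0, 1449551462⟩]]

noncomputable def f_mm_101_s : ℕ → ℕ → ℕ → ℕ → Bool := onCell 0 536870912 536870912 536870912 740881858 40050571
    (rowNE 3 eng mog cd5q1 cd0q1 pd0 2 false false false .npn 1 0 1 (qsf 536870912 536870912 536870912 536870912 0) ndB5q1 ndB0q1 pcB0 cut_mm_101_s Ext.none)

def k0_mm_101_s : ∃ t, chk3 f_mm_101_s t 1 1 1 = true :=
  ⟨(l 5), by decide +kernel⟩

theorem c_mm_101_s : CertNE 536870912 536870912 536870912 536870912 740881858 40050571 3 eng mog cd5q1 cd0q1 pd0 false false false .npn 1 0 1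
    ndB5q1 ndB0q1 pcB0 cut_mm_101_s Ext.none :=
  certNE2 (fam := false) (s1 := false) (s2 := false) (a := 1) (b := 0) (c := 1) (cn := .npn) (n1 := ndB5q1) (n2 := ndB0q1) (pc := pcB0) (cut := cut_mm_101_s) (xt := Ext.none) (P1 := 536870912) (W1 := 536870912) (P2 := 536870912) (W2 := 536870912) (P3 := 740881858) (W3 := 40050571) (N0 := 3) (En := eng) (mo := mog) (C1 := cd5q1) (C2 := cd0q1) (C3 := pd0)
    rfl (fun _ => rfl) k0_mm_101_s

noncomputable def cut_mm_102_s : Cut := Cut.of [[⟨4, 0, 0, 1449551462⟩]]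

noncomputable def f_mm_102_s : ℕ → ℕ → ℕ → ℕ → Bool := onCell 536870912 536870912 0 536870912 740881858 40050571
    (rowNE 3 eng mog cd5q1 cd0q2 pd0 0 false false false .npp 1 0 2 (qsf 536870912 536870912 0 536870912 0) ndB5q1 ndB0q2 pcB0 cut_mm_102_s Ext.none)

def k0_mm_102_s : ∃ t, chk3 f_mm_102_s t 1 1 1 = true :=
  ⟨(l 5), by decide +kernel⟩

theorem c_mm_102_s : CertNE 536870912 536870912 0 536870912 740881858 40050571 3 eng mog cd5q1 cd0q2 pd0 false false false .npp 1 0 2
    ndB5q1 ndB0q2 pcB0 cut_mm_102_s Ext.none :=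
  certNE0 (fam := false) (s1 := false) (s2 := false) (a := 1) (b := 0) (c := 2) (cn := .npp) (n1 := ndB5q1) (n2 := ndB0q2) (pc := pcB0) (cut := cut_mm_102_s) (xt := Ext.none) (P1 := 536870912) (W1 := 536870912) (P2 := 0) (W2 := 536870912) (P3 := 740881858) (W3 := 40050571) (N0 := 3) (En := eng) (mo := mog) (C1 := cd5q1) (C2 := cd0q2) (C3 := pd0)
    rfl k0_mm_102_s

noncomputable def cut_mm_112_s : Cut := Cut.of [[⟨4, 0, 0, 1449551462⟩]]

noncomputable def f_mm_112_s : ℕ → ℕ → ℕ → ℕ → Bool := onCell 536870912 536870912 0 536870912 740881858 40050571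
    (rowNE 3 eng mog cd5q1 cd0q2 pd1 0 false false false .dn 1 1 2 (qsf 536870912 536870912 0 536870912 1) ndB5q1 ndB0q2 pcB1 cut_mm_112_s Ext.none)

def k0_mm_112_s : ∃ t, chk3 f_mm_112_s t 1 1 1 = true :=
  ⟨(l 5), by decide +kernel⟩

theorem c_mm_112_s : CertNE 536870912 536870912 0 536870912 740881858 40050571 3 eng mog cd5q1 cd0q2 pd1 false false false .dn 1 1 2
    ndB5q1 ndB0q2 pcB1 cut_mm_112_s Ext.none :=
  certNE0 (fam := false) (s1 := false) (s2 := false) (a := 1) (b := 1) (c := 2) (cn := .dn) (n1 := ndB5q1) (n2 := ndB0q2) (pc := pcB1) (cut := cut_mm_112_s) (xt := Ext.none) (P1 := 536870912) (W1 := 536870912) (P2 := 0) (W2 := 536870912) (P3 := 740881858) (W3 := 40050571) (N0 := 3) (En := eng) (mo := mog) (C1 := cd5q1) (C2 := cd0q2) (C3 := pd1)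
    rfl k0_mm_112_s

noncomputable def cut_mm_202_s : Cut := Cut.of [[⟨4, 0, 0, 1449551462⟩]]

noncomputable def f_mm_202_s : ℕ → ℕ → ℕ → ℕ → Bool := onCell 1073741824 536870912 0 536870912 740881858 40050571
    (rowNE 3 eng mog cd5q2 cd0q2 pd0 0 false false false .pp 2 0 2 (qsf 1073741824 536870912 0 536870912 0) ndB5q2 ndB0q2 pcB0 cut_mm_202_s Ext.none)

def k0_mm_202_s : ∃ t, chk3 f_mm_202_s t 1 1 1 = true :=
  ⟨(l 5), by decide +kernel⟩

theorem c_mm_202_s : CertNE 1073741824 536870912 0 536870912 740881858 40050571 3 eng mog cd5q2 cd0q2 pd0 false false false .pp 2 0 2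
    ndB5q2 ndB0q2 pcB0 cut_mm_202_s Ext.none :=
  certNE0 (fam := false) (s1 := false) (s2 := false) (a := 2) (b := 0) (c := 2) (cn := .pp) (n1 := ndB5q2) (n2 := ndB0q2) (pc := pcB0) (cut := cut_mm_202_s) (xt := Ext.none) (P1 := 1073741824) (W1 := 536870912) (P2 := 0) (W2 := 536870912) (P3 := 740881858) (W3 := 40050571) (N0 := 3) (En := eng) (mo := mog) (C1 := cd5q2) (C2 := cd0q2) (C3 := pd0)
    rfl k0_mm_202_s

end Pool.Agent.Strip051.G.I69_7273.Tab.CS.BB50

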