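import Pool.Agent.Strip051.G.I69_7273.Tab

/-! # Certificates B13 (generated) -/

set_option linter.all false
set_option maxRecDepth 100000

namespace Pool.Agent.Strip051.G.I69_7273.Tab.C.BB01

open Pool.Agent.Strip051.PB Pool.Agent.Strip051.PB.T
open Pool.Agent.Strip051.G.I69_7273.Tab

noncomputable def cut_pp_012_a : Cut := Cut.of [[⟨0, 0, 0, 67108864⟩, ⟨1, 1, 0, 67108864⟩, ⟨2, 1, 0, 67108864⟩]]

noncomputable def f_pp_012_a : ℕ → ℕ → ℕ → ℕ → Bool := onCell 536870912 536870912 0 536870912 740881858 40050571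
    (rowB 3 eng mog cd0q0 cd1q2a pd1 2 false true true .pnp 0 1 2 (qsf 0 536870912 0 536870912 1) ndB0q0 ndB1q2a pcB1 cut_pp_012_a Ext.none)

def k0_pp_012_a : ∃ t, chk3 f_pp_012_a t 4 1 1 = true :=
  ⟨(l 3), by decide +kernel⟩

def k1_pp_012_a : ∃ t, chk3 f_pp_012_a t 10 4 1 = true :=
  ⟨(a (l 3) (b (b (a (l 3) (b (a (b (a (b (a (l 3) (a (l 3) (c (l 126332423623) (l 124184940343)))) (l 3)) (b (a (b (c (l 71571592503) (l 67276625799)) (a (l 131701132519) (c (l 100025750279) (l 97341396359)))) (c (l 16773288) (l 16768240))) (a (l 3) (a (c (l 128479906407) (l 126332423175)) (b (c (l 82845879895) (l 78550913271)) (l 135459228055)))))) (l 3)) (b (a (b (c (l 16765296) (l 16765408)) (a (a (b (l 16768552) (c (l 108078809975) (l 101099491767))) (c (l 16768080) (l 16768320))) (l 16769440))) (c (l 16762808) (l 16762864))) (a (b (a (a (l 3) (c (l 130627389175) (l 128479906007))) (a (b (c (l 86067104327) (l 81235267031)) (l 138680452663)) (b (l 16768144) (c (l 111300034567) (l 108615680599))))) (l 3)) (a (b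 (a (c (l 64592267479) (l 60834171239)) (l 16766880)) (b (c (a (l 126869291271) (b (l 16768200) (l 108615681303))) (a (l 124721808199) (b (l 16768512) (l 105931327543)))) (l 3))) (b (l 16765488) (b (c (l 16767120) (l 16767400)) (c (a (b (l 93046425079) (l 133311741527)) (l 74792813719)) (a (b (l 89825199783) (l 131701129415)) (l 71571588231))))))))) (a (l 3) (b (a (l 3) (a (l 3) (a (l 3) (b (c (l 133848612903) (l 132238000727)) (l 3))))) (l 3))))) (l 3)) (l 3))), by decide +kernel⟩

def k2_pp_012_a : ∃ t, chk3 f_pp_012_a t 44 32 1 = true :=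
  ⟨(a (a (b (l 16759176) (a (c (l 16769952) (l 16770144)) (l 16768208))) (b (l 16755528) (l 16770688))) (b (l 16750120) (l 16770456))), by decide +kernel⟩

def k3_pp_012_a : ∃ t, chk3 f_pp_012_a t 88 33 1 = true :=
  ⟨(b (a (b (a (a (b (c (b (l 16767768) (l 115058129399)) (b (l 16768104) (l 112910646439))) (l 3)) (b (c (l 16767152) (l 16767472)) (c (b (l 96804520599) (l 137069837015)) (b (l 94120166071) (l 135459224951))))) (b (l 16765928) (a (b (l 16767288) (c (l 87140843559) (l 84456489047))) (l 16766656)))) (a (l 3) (b (c (a (l 131701127703) (b (l 78014037431) (l 118816224903))) (a (l 130090515623) (b (l 75329682935) (l 116668741959)))) (l 3)))) (b (c (l 16768864) (l 16763816)) (a (a (b (c (l 16769344) (l 16767064)) (a (c (l 131164256055) (l 129016773095)) (b (c (l 94120163991) (l 92509551335)) (l 139217319863)))) (b (l 16765984) (a (b (l 16767104) (c (l 109152549687) (l 108078807783))) (c (l 16768048) (l 16768408))))) (c (l 16770264) (l 16765304))))) (a (l 3) (b (a (a (l 3) (c (l 136532965735)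 (l 134922353607))) (b (b (a (a (c (l 96267647207) (l 94657034519)) (l 16766896)) (l 16766200)) (a (a (l 3) (c (l 111300032743) (l 110226290999))) (c (l 72108455815) (l 68887230343)))) (a (l 3) (a (c (l 133311738823) (l 131701126791)) (b (c (l 97878259511) (l 96804517687)) (l 3)))))) (l 3)))), by decide +kernel⟩

def k4_pp_012_a : ∃ t, chk3 f_pp_012_a t 89 33 1 = true :=
  ⟨(b (a (c (l 16771640) (l 16771736)) (l 16757560)) (a (b (a (a (b (l 16765568) (b (c (l 16766256) (l 16766616)) (a (c (l 116131868711) (l 113984385815)) (c (l 80161518791) (l 77477164247))))) (c (l 16765056) (l 16765360))) (c (l 16763696) (l 16763936))) (a (b (a (c (l 135996093255) (l 133848610295)) (a (b (a (c (l 109152547943) (l 108078806215)) (c (l 91435807623) (l 89825194823))) (l 3)) (c (b (l 16766272) (l 118279351911)) (b (l 16766648) (l 115594998119))))) (l 3)) (a (b (c (c (l 70497841671) (l 68350358455)) (c (l 66739745751) (l 64592262551))) (a (c (l 135459221591) (l 133848609575)) (b (a (c (l 111300031159) (l 110226289351))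 (c (l 93583290839) (l 91972678039))) (l 3)))) (b (l 16767768) (a (b (c (l 16766064) (l 16766432)) (b (c (l 108615676343) (l 107541934551)) (l 3))) (c (c (l 75329679335) (l 73182196215)) (c (l 72108454263) (l 69424100151)))))))) (c (a (c (l 16768192) (l 16767040)) (l 16761232)) (a (c (l 16768464) (l 16768528)) (l 16761360))))), by decide +kernel⟩

def k5_pp_012_a : ∃ t, chk3 f_pp_012_a t 45 16 1 = true :=
  ⟨(a (b (l 16745272) (a (c (l 16766760) (l 16766640)) (l 16763112))) (b (l 16738232) (l 16768200))), by decide +kernel⟩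

def k6_pp_012_a : ∃ t, chk3 f_pp_012_a t 44 17 1 = true :=
  ⟨(b (a (l 3) (b (a (b (a (l 3) (a (l 3) (a (l 3) (c (l 138143576455) (l 136532964359))))) (l 3)) (b (a (a (b (c (b (a (c (l 104320708583) (l 103246967223)) (l 70497840711)) (c (l 126869285735) (l 126332415271))) (b (a (c (l 102710096279) (l 101099483927)) (l 67813486231)) (c (l 125258673815) (l 124184932279)))) (l 3)) (a (b (b (l 16765592) (c (c (l 86603967879) (l 84993355607)) (c (l 83382742871) (l 81235259639)))) (c (l 137069833463) (l 135459221431))) (b (c (l 16765232) (l 16765576)) (b (b (c (c (l 88214580215) (l 86603967943)) (c (l 85530226039) (l 83382742855))) (c (l 124721801655) (l 122574318759))) (l 3))))) (b (c (l 16764096) (l 16764384)) (c (a (b (c (l 16766608) (l 67276614903)) (c (a (l 122037446775) (l 88214580183)) (a (l 120963705399) (b (l 16765728) (l 98415127831))))) (c (l 16764680) (l 16764896))) (a (b (c (l 66202872951) (l 63518518823)) (a (c (l 119889963943) (l 119353093335)) (b (l 16765992) (a (l 115594996823) (l 83382741847)))))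 (l 16766440))))) (a (l 3) (b (a (a (l 3) (c (l 134922349399) (l 133848608263))) (a (b (c (c (l 107005060647) (b (l 88214580279) (l 123111188711))) (c (b (l 87677709255) (l 122037447255)) (b (l 84993355159) (l 121500576647)))) (l 3)) (c (b (c (l 16765960) (l 72645323559)) (c (l 120963704519) (l 120426834055))) (b (c (l 71571581623) (l 68887227463)) (c (l 119353092599) (l 118279351063)))))) (l 3))))) (l 3))) (l 3)), by decide +kernel⟩

def k7_pp_012_a : ∃ t, chk3 f_pp_012_a t 180 34 1 = true :=
  ⟨(b (a (b (c (l 16762864) (l 16763096)) (a (a (b (c (b (l 16764976) (b (l 69424097671) (c (l 102173223335) (l 101636352887)))) (b (l 16765328) (b (l 67276613943) (c (l 101099481943) (l 100025740567))))) (c (l 135459219879) (l 134385478743))) (b (c (l 16764816) (l 16765152)) (b (c (c (l 107541931143) (b (l 90362063431) (l 124184930103))) (c (b (l 89288321575) (l 123648059575)) (b (l 87140838375) (l 123111188935)))) (l 3)))) (b (c (l 16764136) (l 16764440)) (a (c (b (c (l 75866548167) (l 73719064967)) (c (l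 122037445927) (l 120963704551))) (b (c (l 72645323095) (l 70497839767)) (c (l 120426834007) (l 119353092455)))) (c (b (l 16764768) (c (l 90898933911) (b (l 16765312) (l 102710094279)))) (b (l 16765112) (c (b (l 16765488) (l 102710094247)) (b (l 16765632) (l 101636352695))))))))) (b (l 16761160) (b (c (l 16762776) (l 16763008)) (c (c (l 16763824) (l 16766640)) (c (l 16766792) (l 16766888)))))) (b (a (a (l 3) (a (l 3) (b (c (l 135996090375) (l 134922349223)) (l 3)))) (a (b (a (b (c (c (l 108615672551) (b (l 93046417575) (l 125795542423))) (a (c (l 117205608151) (l 116131866599)) (b (l 74255935159) (l 120426833655)))) (l 3)) (c (b (c (l 76403418663) (b (l 16764976) (l 81772128103))) (c (l 122574316407) (l 122037445943))) (b (c (b (l 16765152) (l 80698386231)) (l 71571581191)) (c (l 120963704487) (l 120426833831))))) (l 3)) (b (c (b (l 16764336) (a (c (l 91972675319) (b (l 16765104) (c (l 104320706407) (l 103783835703)))) (l 16764688))) (b (l 16764664) (a (a (b (a (l 81235256743) (l 16765416)) (l 121500575255))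 (c (l 80161515207) (l 79087773655))) (l 16765032)))) (a (l 3) (b (c (c (l 109152543047) (b (c (l 94657029703) (l 93046417159)) (l 126869283815))) (a (c (l 117742478631) (l 117205607991)) (b (a (l 82308998359) (l 16765304)) (l 122037445959)))) (l 3)))))) (l 3))), by decide +kernel⟩

def k8_pp_012_a : ∃ t, chk3 f_pp_012_a t 362 34 1 = true :=
  ⟨(b (c (l 16765656) (l 16760512)) (a (b (b (c (l 16763720) (l 16764008)) (a (c (b (c (l 77477160071) (b (l 16764768) (l 83382740423))) (c (l 123111186903) (l 122574316439))) (b (a (c (l 80698385911) (l 79087773431)) (l 16765040)) (c (l 121500574967) (l 120963704311)))) (c (b (l 16764360) (c (b (l 16764672) (l 105931318471)) (b (l 73719063607) (c (l 105394447735) (l 104857577031))))) (b (l 16764688) (b (c (l 72108450903) (l 69960967495)) (a (l 122574316647) (b (l 75329676071) (l 107541931047)))))))) (l 3)) (b (c (c (l 16763296) (l 56002323479)) (c (l 54391711015) (l 16766328))) (b (a (b (c (c (l 109689413543) (b (c (l 95193900199) (l 94120158567)) (l 127406154311)))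 (a (c (l 118816220039) (l 117742478455)) (b (c (l 78014030951) (l 76403418215)) (l 123648058263)))) (l 3)) (c (b (c (l 78550901479) (b (l 16764560) (l 84456481831))) (c (l 123648057415) (l 122574316023))) (a (b (b (l 16764912) (c (l 94120158407) (l 93046416599))) (l 3)) (b (l 16764824) (c (l 118816219815) (l 118279349159)))))) (l 3))))), by decide +kernel⟩

def k9_pp_012_a : ∃ t, chk3 f_pp_012_a t 363 34 1 = true :=
  ⟨(b (l 16763904) (b (c (l 16764664) (l 16762240)) (b (c (a (b (l 16763928) (b (c (l 16764240) (l 68350354119)) (a (c (l 106468188967) (c (l 105931318231) (l 107541930103))) (l 65665999143)))) (l 16763312)) (a (a (b (l 16764472) (b (c (l 72645321703) (l 71571579799)) (a (l 124184928951) (c (l 94657029111) (l 93583287287))))) (c (l 16764240) (l 16764344))) (l 16763584))) (a (a (l 3) (b (c (c (l 110226284039) (b (c (l 96267641607) (l 95730770887)) (l 127943024807))) (a (c (l 119353090519) (l 118279348935)) (b (c (l 79624643255) (l 78014030519)) (l 124721799639)))) (l 3))) (a (a (b (b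 (c (l 16764368) (l 16764696)) (c (c (l 96804511927) (l 95730770535)) (c (l 95193899799) (l 94120157975)))) (l 3)) (c (b (l 65665998887) (c (l 121500573191) (l 120426831799))) (b (l 62444773415) (c (l 119353090295) (l 118816219623))))) (c (b (l 16763952) (c (b (l 16764264) (l 107005059383)) (b (l 75866546423) (c (l 106468188727) (l 108078800599))))) (b (l 16764256) (b (c (l 73719063111) (l 72108450279)) (a (l 124721799431) (c (l 95730770503) (l 94657028711))))))))))), by decide +kernel⟩

def k10_pp_012_a : ∃ t, chk3 f_pp_012_a t 91 34 1 = true :=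
  ⟨(a (b (l 16766408) (a (a (b (l 16760792) (b (l 16762552) (c (c (l 16763456) (l 16764960)) (c (l 57612935527) (l 16765192))))) (c (l 16764880) (l 16763704))) (c (l 16764848) (l 16764904)))) (c (l 16765168) (l 16763792))), by decide +kernel⟩

def k11_pp_012_a : ∃ t, chk3 f_pp_012_a t 90 35 1 = true :=
  ⟨(l 3), by decide +kernel⟩

def k12_pp_012_a : ∃ t, chk3 f_pp_012_a t 364 70 1 = true :=
  ⟨(b (a (b (a (b (c (c (l 110763154551) (b (c (l 96267641191) (l 95730770471)) (l 128479895303))) (a (c (l 119889960999) (l 118816219399)) (b (c (l 80698384663) (l 79087771943)) (l 125258670119)))) (l 3)) (c (b (c (l 79087771591) (b (l 16764152) (c (l 86603964471) (l 86067093751)))) (c (l 124721798423) (l 123648057015))) (a (b (b (l 16764480) (c (l 95730770295) (l 95193899351))) (l 3)) (b (l 63518514807) (c (l 119889960791) (l 118816219175)))))) (l 3)) (a (b (c (b (l 16763744) (c (l 93046415511) (b (l 76403416935) (c (l 107005059239) (l 108615671095))))) (b (l 16764040) (b (c (l 74255933591) (l 72645320903))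 (a (l 125795540823) (c (l 96267640983) (l 95193899143)))))) (l 3)) (b (c (c (l 16763480) (l 16763672)) (c (l 16765128) (l 16763904))) (b (c (c (l 111300025063) (b (c (l 96804511687) (l 96267640967)) (l 129016765799))) (a (c (l 119889960567) (l 118816218951)) (b (c (l 81772126055) (l 80161513287)) (l 125795540599)))) (l 3))))) (l 3)), by decide +kernel⟩

def k13_pp_012_a : ∃ t, chk3 f_pp_012_a t 365 70 1 = true :=
  ⟨(a (b (c (b (l 16762912) (b (c (l 73182191207) (a (b (l 16763944) (c (l 86603964055) (l 86067093335))) (l 16763632))) (c (a (l 124721798023) (l 93046415111)) (a (l 123648056599) (b (l 76403416519) (c (l 107541929655) (l 109152541591))))))) (b (l 16763152) (b (b (l 16763912) (a (a (c (l 96267640775) (l 95730769831)) (l 67276610807)) (l 16763976))) (a (a (l 3) (c (l 119889960359) (l 119353089655))) (a (b (c (l 82308996759) (l 81235254919)) (l 125795540375)) (b (l 16764160) (c (l 96267640567) (l 95730769607)))))))) (l 3)) (b (b (l 16763448) (c (c (l 16763056) (l 59760418039)) (c (b (l 16763072)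 (l 59760418263)) (l 56002321927)))) (b (b (b (c (a (c (l 97878252871) (c (l 96804511287) (l 96267640551))) (l 16763648)) (a (a (c (l 110763155271) (l 110226284231)) (c (l 82308996535) (l 80698383799))) (l 16763928))) (a (c (l 130090507031) (l 127943023975)) (a (c (c (l 98415123463) (l 97878252791)) (c (l 96267640343) (l 95730769431))) (c (l 69960964919) (l 67813481287))))) (a (l 3) (a (l 3) (c (c (l 122574313815) (l 121500572375)) (c (l 119889959943) (l 118816218295)))))) (l 3)))), by decide +kernel⟩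

def k14_pp_012_a : ∃ t, chk3 f_pp_012_a t 183 70 1 = true :=
  ⟨(a (b (c (l 16763864) (l 16764000)) (a (a (b (b (c (l 16763344) (l 16763608)) (c (c (l 93046414711) (b (l 76940287015) (c (l 107541929255) (l 109152541175)))) (a (b (c (l 82308996327) (l 81235254487)) (l 125795539943)) (b (l 16763944) (c (l 96267640135) (l 95730769207)))))) (l 3)) (b (c (c (l 16763080) (l 16763264)) (c (l 16764704) (l 16764776))) (b (c (c (l 111300024263) (b (c (l 97341381799) (l 96267640135)) (l 129553635895))) (a (c (l 119889959719) (l 118816218071)) (b (c (l 82308996119) (l 81235254263)) (l 126332410647)))) (l 3)))) (c (b (l 16762512) (b (c (l 72645319511) (a (b (l 16763536) (c (l 87140834167) (l 86603963415))) (l 16763224))) (c (a (l 124721797239) (l 92509543415)) (a (l 123648055783) (b (l 76403415703) (l 109689411591)))))) (b (l 16762720) (a (a (b (b (l 16763832) (b (l 82308995623) (l 112910637767))) (l 3)) (b (l 64055384487) (c (l 119889959511) (l 118816217847)))) (b (l 16763392) (a (b (c (l 82308995895) (l 81235254039))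 (l 126332410423)) (b (l 16763728) (b (l 82308995415) (l 112910637559)))))))))) (b (l 16764752) (a (b (c (l 16761616) (l 16761768)) (c (c (l 16762664) (l 16764144)) (c (b (l 16762648) (l 60297288327)) (l 56002321031)))) (c (l 16761296) (l 16761424))))), by decide +kernel⟩

def k15_pp_012_a : ∃ t, chk3 f_pp_012_a t 91 71 1 = true :=
  ⟨(a (l 3) (b (a (l 3) (a (b (a (b (c (c (l 111300023879) (b (c (l 96804510471) (l 96804510551)) (l 129553635495))) (a (c (l 119889959303) (l 118816217639)) (b (c (l 82308995687) (l 80698382951)) (l 125795539303)))) (l 3)) (c (b (c (l 78014028183) (b (l 16763336) (l 86603962935))) (c (l 124721796839) (l 123648055383))) (a (b (b (l 16763616) (c (l 96267639495) (l 95193897623))) (l 3)) (b (l 64055384055) (c (l 119889959095) (l 118816217415)))))) (l 3)) (a (b (c (b (l 16762944) (c (l 91972672103) (b (l 75866544375) (l 109152540279)))) (b (l 16763176) (b (c (l 74792802807) (l 73719060967)) (a (l 125795539079) (a (l 105931315319) (l 87677704199)))))) (l 3)) (b (c (c (l 16762696)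 (l 16762864)) (c (l 16764280) (l 16763016))) (b (b (a (b (c (l 103246960711) (l 102173218823)) (l 3)) (c (c (l 16763288) (l 82308995015)) (c (l 81772124359) (l 80698382503)))) (c (l 129553634919) (l 127406151767))) (l 3)))))) (l 3))), by decide +kernel⟩

def k16_pp_012_a : ∃ t, chk3 f_pp_012_a t 22 9 1 = true :=
  ⟨(l 3), by decide +kernel⟩

def k17_pp_012_a : ∃ t, chk3 f_pp_012_a t 46 16 1 = true :=
  ⟨(a (b (l 16731272) (l 16740128)) (l 16749728)), by decide +kernel⟩

def k18_pp_012_a : ∃ t, chk3 f_pp_012_a t 46 34 1 = true :=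
  ⟨(a (c (l 16759904) (l 16759344)) (l 16763000)), by decide +kernel⟩

def k19_pp_012_a : ∃ t, chk3 f_pp_012_a t 92 70 1 = true :=
  ⟨(a (b (l 16762000) (c (l 16763000) (a (l 16760000) (l 16758104)))) (c (l 16754392) (l 16754088))), by decide +kernel⟩

def k20_pp_012_a : ∃ t, chk3 f_pp_012_a t 184 71 1 = true :=
  ⟨(b (a (b (c (c (l 16761592) (l 16761728)) (c (l 16761800) (l 16761808))) (c (a (b (c (l 71571576919) (a (b (l 16763128) (l 86067091623)) (l 16762824))) (c (a (l 124184925543) (l 92509542631)) (a (l 123111184071) (b (l 75329673063) (l 105931315543))))) (c (l 16762280) (l 16763744))) (a (a (a (b (b (l 16763400) (a (l 105931315111) (l 87140833063))) (l 3)) (b (l 62981641879) (c (l 119889958663) (l 118816216967)))) (b (l 16762952) (b (c (l 73719060567) (l 73182189607)) (a (l 125258667735) (a (l 105394444023) (l 86603961943)))))) (c (l 57612932983) (l 56002320151))))) (c (l 16763080) (l 16763136))) (a (a (l 3) (b (c (b (c (a (l 110226281287) (l 77477156343)) (a (b (l 95730767927) (l 128479892871))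 (b (l 16762928) (l 86067091207)))) (c (l 126869280071) (l 125795538567))) (a (b (a (c (l 119353087543) (l 118279345831)) (b (a (l 86067090919) (l 16763360)) (l 125258667527))) (l 3)) (b (a (b (l 16763184) (a (l 104857572887) (l 86067090807))) (l 16763096)) (c (l 122037442055) (l 120963700343))))) (l 3))) (b (c (a (b (l 16762328) (a (c (l 90362058615) (b (l 74255930839) (l 105394444247))) (l 62444770359))) (l 16761728)) (a (b (l 16762504) (a (b (c (l 73182189223) (l 72108447335)) (a (l 124721796391) (a (l 103246959943) (l 84993348775)))) (l 59760416183))) (l 16761848))) (a (a (l 3) (b (b (a (c (l 110226281879) (l 109152540151)) (c (l 80698381495) (l 78550898103))) (c (l 127943021415) (l 126332409079))) (l 3))) (a (c (b (c (l 76403414135) (l 75866543527)) (c (l 123111182967) (l 122037441447))) (b (a (b (l 16762968) (a (l 103783830679) (l 83919607015))) (l 16762880)) (c (l 120963699815) (l 120426828983)))) (c (b (l 16762360) (c (l 90898929143) (b (l 16763504) (l 104320702023)))) (b (l 16762520) (a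 (b (l 78014026967) (l 123648054135)) (c (l 79087768887) (l 78014027047)))))))))), by decide +kernel⟩

def k21_pp_012_a : ∃ t, chk3 f_pp_012_a t 185 71 1 = true :=
  ⟨(a (b (l 16761304) (a (c (c (l 16761344) (l 16764072)) (a (c (l 16763048) (l 16764352)) (l 16761272))) (c (l 16760520) (l 16760552)))) (c (l 16763296) (l 16763176))), by decide +kernel⟩

def k22_pp_012_a : ∃ t, chk3 f_pp_012_a t 93 35 1 = true :=
  ⟨(a (b (l 16750656) (c (l 16765880) (l 16755104))) (a (l 16760744) (l 16748456))), by decide +kernel⟩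

def k23_pp_012_a : ∃ t, chk3 f_pp_012_a t 47 8 1 = true :=
  ⟨(b (c (l 16740448) (l 16738200)) (b (a (l 16734936) (l 16727912)) (a (c (l 16765384) (l 16764376)) (l 16757784)))), by decide +kernel⟩

def k24_pp_012_a : ∃ t, chk3 f_pp_012_a t 92 36 1 = true :=
  ⟨(b (a (l 3) (b (a (a (b (c (b (c (a (l 109152538711) (l 16762528)) (a (b (l 94120154391) (l 126869279335)) (l 74792801303))) (c (l 125258666583) (l 124721795959))) (a (b (b (a (l 107005056327) (l 76940284919)) (l 125258666823)) (l 3)) (b (a (b (l 16762744) (l 92509541479)) (l 16762656)) (c (l 120426828487) (l 119353086727))))) (l 3)) (a (b (c (b (l 16762168) (c (l 88751444967) (b (l 16762656) (l 103246959799)))) (b (l 16762304) (c (b (l 71034704727) (l 102710088967)) (b (l 69960962791) (l 101636347111))))) (l 3)) (b (c (l 58686673287) (l 56002318967)) (b (b (c (c (l 93583282823) (l 93046412183)) (c (l 91972670519) (l 90898928567))) (c (l 125795536999) (l 124184924583))) (l 3))))) (a (b (c (l 16761344) (l 16761416)) (c (b (c (l 16763432) (l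 67813479271)) (c (l 104857570839) (a (l 120426827927) (b (l 16762456) (l 101636346679))))) (a (b (c (l 72645317399) (b (l 16762408) (l 79087768183))) (c (l 119353086247) (l 118279344455))) (b (l 16762088) (b (l 68887220695) (a (l 118816215655) (l 88214573527))))))) (c (c (l 16760976) (l 16763680)) (c (l 16763704) (l 16763664))))) (a (l 3) (a (l 3) (b (b (c (c (l 88214574135) (a (l 105931312743) (l 72645316871))) (a (a (l 115058118599) (b (l 73719058503) (l 117742473607))) (c (l 71034704247) (l 69960962343)))) (a (l 3) (a (l 3) (c (l 116131859975) (l 114521247479))))) (l 3)))))) (l 3)), by decide +kernel⟩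

def k25_pp_012_a : ∃ t, chk3 f_pp_012_a t 93 72 1 = true :=
  ⟨(a (b (a (c (l 16762312) (l 16762264)) (l 16760496)) (a (a (a (b (c (b (l 16761784) (c (l 86603960583) (l 85530218983))) (b (l 16761864) (b (l 67276607431) (a (l 116668731575) (l 87677702103))))) (l 3)) (b (c (l 16761624) (l 16761696)) (b (c (c (l 101099475415) (l 104320699623)) (a (l 113447505447) (b (l 16762328) (l 115594989543)))) (l 3)))) (b (c (l 16760960) (l 16760984)) (c (b (c (l 16761760) (l 65665994759)) (c (l 102710086471) (a (l 117742472599) (l 84456476775)))) (a (b (c (l 69960962007) (l 68887220071)) (c (l 116668730871) (l 115594989015))) (b (l 16761648) (a (a (l 96267636743) (l 85530218311)) (l 72645316263))))))) (c (c (l 16760176) (l 16762840)) (c (b (l 16759600) (l 16763408)) (l 16762736))))) (b (c (l 16755272) (l 16754920)) (c (l 16762792) (l 16762560)))), by decide +kernel⟩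

def k26_pp_012_a : ∃ t, chk3 f_pp_012_a t 93 73 1 = true :=
  ⟨(a (b (a (a (l 3) (a (l 3) (c (l 131701117639) (l 130627375895)))) (a (b (c (b (c (l 86067089767) (a (l 98951991591) (l 16761880))) (c (l 121500568775) (l 120426827127))) (b (a (a (l 111836892279) (a (l 95193894551) (l 84993347175))) (a (l 71571574215) (l 16761792))) (c (l 119889956263) (l 118816214391)))) (l 3)) (a (b (c (b (l 16761408) (c (l 83382734391) (l 82845863655))) (b (l 16761432) (c (l 81772121879) (l 80698379991)))) (c (l 130090503703) (l 129016761959))) (b (c (l 16761248) (l 16761256)) (b (b (c (l 86067088711) (l 84456475975)) (c (l 118816213671) (l 117205601015))) (l 3)))))) (l 3)) (b (a (b (c (l 16762768) (l 16762696)) (c (a (a (b (l 68350348359) (l 115058117223)) (c (l 71034703175) (l 70497832375))) (l 16760848)) (a (b (c (l 62444768423) (l 60834155591)) (c (a (l 113984375495) (l 80161508727)) (a (l 112910633575) (l 79087766807)))) (l 16760808)))) (c (l 16758952) (l 16758776))) (a (b (a (c (l 129553632775) (l 128479890951))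 (a (b (a (c (l 107005054247) (l 105931312375)) (c (l 87140830215) (l 86067088327))) (l 3)) (c (b (l 66739735255) (l 113447504119)) (b (l 64592251511) (l 111836891383))))) (l 3)) (a (b (a (c (c (l 16762592) (l 68887219255)) (a (b (l 16761120) (l 84456475367)) (l 60297283879))) (c (l 16760880) (l 16760824))) (b (c (c (l 108078794743) (l 107541923927)) (a (l 125258664343) (a (l 103783828311) (l 83382733335)))) (l 3))) (b (c (l 16760216) (l 16760112)) (c (b (l 60834155063) (a (l 111300020119) (l 77477153367))) (a (b (l 16761256) (l 109689407319)) (c (l 66202864263) (l 65129122263))))))))), by decide +kernel⟩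

def k27_pp_012_a : ∃ t, chk3 f_pp_012_a t 46 37 1 = true :=
  ⟨(a (l 3) (b (a (l 3) (b (a (l 3) (a (l 3) (a (l 3) (c (l 127943019831) (l 126869277863))))) (l 3))) (l 3))), by decide +kernel⟩

def k28_pp_012_a : ∃ t, chk3 f_pp_012_a t 47 36 1 = true :=
  ⟨(a (c (a (b (l 16752896) (a (c (l 16763592) (l 16762224)) (l 16761808))) (l 16762144)) (b (l 16760952) (a (a (b (l 16756880) (c (l 16761984) (l 16761832))) (l 16761440)) (l 16753360)))) (a (c (l 16758648) (l 16757720)) (l 16765096))), by decide +kernel⟩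

def k29_pp_012_a : ∃ t, chk3 f_pp_012_a t 94 37 1 = true :=
  ⟨(b (a (b (a (a (b (a (b (c (l 90362055479) (c (l 91435797255) (l 88751442535))) (l 3)) (c (b (l 16761112) (l 109689407031)) (b (l 16761040) (l 108078794167)))) (l 3)) (b (c (c (l 16760728) (l 61907896855)) (c (l 60834154919) (l 59760412871))) (a (c (l 124721793175) (l 124184922087)) (b (c (l 88214571463) (c (l 87140829559) (l 88214571175))) (l 3))))) (b (c (l 16759416) (l 16759208)) (c (a (b (l 16760712) (c (l 87140830087) (l 87140830087))) (l 16760120)) (a (b (l 16760584) (a (l 102710085847) (l 71571572215))) (l 16759936))))) (a (l 3) (b (c (a (l 124721793175) (c (l 97341375191) (a (l 105931310167) (l 80161507735)))) (a (l 123648051095) (b (c (l 74255927463) (l 73182185399)) (c (l 111300019255) (l 110226277191))))) (l 3)))) (a (b (c (l 16758224) (l 16757912)) (b (c (c (l 16762576) (l 54391703591)) (a (c (l 58149799447) (l 57076057415)) (l 16759248))) (a (a (c (l 122037437927) (l 120963695799)) (b (c (l 83382732487) (l 82308990247))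 (l 3))) (c (b (l 16760360) (c (l 83382733047) (l 83919603879))) (b (l 16760152) (c (l 83382732775) (l 82308990663))))))) (c (c (l 16762912) (l 16762776)) (c (l 16762584) (l 16762336))))) (a (l 3) (b (a (a (l 3) (a (l 3) (c (l 123648051191) (l 123111179863)))) (a (b (c (b (l 71034701463) (l 108615664183)) (b (c (l 69960959367) (l 68887217207)) (c (l 107541922087) (l 106468179943)))) (l 3)) (b (c (l 56539186343) (l 54391702071)) (a (c (l 118279340887) (l 117205598599)) (b (c (l 78550893511) (l 76940280199)) (l 124721791383)))))) (l 3)))), by decide +kernel⟩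

def k30_pp_012_a : ∃ t, chk3 f_pp_012_a t 95 37 1 = true :=
  ⟨(a (b (c (l 16762832) (c (l 16765040) (l 16764688))) (b (a (b (c (l 16758712) (l 16758344)) (c (a (c (l 68350346967) (l 67813475895)) (l 16759416)) (a (c (l 67276604695) (l 66202862663)) (l 16759080)))) (c (l 16757528) (l 16757048))) (a (b (c (a (l 118816211799) (b (l 67276604311) (l 104320696215))) (a (l 117742469447) (b (l 65129120071) (l 103246953815)))) (l 3)) (a (b (c (l 16759688) (l 16759336)) (c (b (l 86067086711) (l 121500565799)) (c (l 102710082951) (l 101636340711)))) (c (c (l 56002315719) (l 55465444519)) (c (l 54928573223) (l 53854830903))))))) (a (b (l 16751976) (b (l 16755488) (c (l 16763304) (l 16762816)))) (c (l 16763360) (l 16759944)))), by decide +kernel⟩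

def k31_pp_012_a : ∃ t, chk3 f_pp_012_a t 23 19 1 = true :=
  ⟨(a (l 3) (b (a (l 3) (b (a (b (a (l 3) (a (l 3) (a (l 3) (c (l 118279340775) (l 117742469143))))) (l 3)) (b (a (a (b (c (b (l 16759928) (l 93046408375)) (b (l 16759544) (l 93583278391))) (l 3)) (b (c (l 16759344) (l 16758912)) (c (b (l 81772118679) (l 117205597863)) (b (l 81772117863) (l 116668726151))))) (c (c (l 16761320) (l 49022993111)) (c (l 47949250935) (l 47412379415)))) (a (l 3) (b (c (a (l 111300017751) (l 72108442439)) (a (l 110763145975) (c (l 71571570871) (l 71034699399)))) (c (l 123111178903) (l 123111177991)))))) (l 3))) (l 3))), by decide +kernel⟩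

def k32_pp_012_a : ∃ t, chk3 f_pp_012_a t 5 5 1 = true :=
  ⟨(l 3), by decide +kernel⟩

def k33_pp_012_a : ∃ t, chk3 f_pp_012_a t 5 3 1 = true :=
  ⟨(l 3), by decide +kernel⟩

def k34_pp_012_a : ∃ t, chk3 f_pp_012_a t 12 8 1 = true :=
  ⟨(a (a (b (l 16725904) (a (l 16746344) (l 16718504))) (b (l 16691712) (l 16729272))) (a (b (l 16678448) (l 16715712)) (b (l 16664704) (l 16680584)))), by decide +kernel⟩

def k35_pp_012_a : ∃ t, chk3 f_pp_012_a t 24 18 1 = true :=
  ⟨(b (a (a (l 16759736) (l 16731744)) (l 16742336)) (a (a (a (c (l 16760736) (l 16759760)) (c (l 16757256) (l 16756072))) (c (l 16762560) (l 16761120))) (a (l 16754864) (l 16726920)))), by decide +kernel⟩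

def k36_pp_012_a : ∃ t, chk3 f_pp_012_a t 48 38 1 = true :=
  ⟨(a (a (b (a (a (b (l 16757008) (b (l 16758776) (c (l 84456473719) (b (l 74792795047) (l 109152532615))))) (b (l 16756104) (c (l 49022992423) (l 47949249479)))) (c (l 16761496) (l 16760800))) (b (a (a (l 3) (a (l 119889952519) (c (l 109689404967) (l 108615662103)))) (a (b (c (l 67813474535) (l 66739731623)) (l 115594984375)) (b (l 16758424) (c (l 79087764007) (l 79087762903))))) (l 3))) (b (c (l 16758880) (l 16758016)) (a (b (c (l 39896186503) (c (l 16760120) (l 16759752))) (b (c (a (l 99488856519) (l 60297281095)) (a (l 97878242631) (l 58686667559))) (c (l 112910630439) (l 111836887431)))) (b (l 16758496) (a (b (l 16758096) (c (l 73719054407) (b (l 16758648) (l 88214567943)))) (c (l 16758120) (l 16757440))))))) (a (a (b (l 16750544) (c (l 16760904) (l 16760096))) (c (l 16759488) (l 16758480))) (c (l 16759512) (l 16758376)))), by decide +kernel⟩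

def k37_pp_012_a : ∃ t, chk3 f_pp_012_a t 48 39 1 = true :=
  ⟨(a (b (a (l 3) (b (a (l 3) (a (l 3) (b (c (l 95193888679) (b (l 72108440199) (l 111300015287))) (l 3)))) (l 3))) (l 3)) (b (a (b (a (a (b (c (l 52781088023) (l 50633603383)) (c (l 105931307399) (l 104857564279))) (b (l 16757784) (c (c (l 67813474391) (l 67813473783)) (b (l 16758328) (l 80698374567))))) (c (l 16760032) (l 16759280))) (a (l 3) (a (b (c (b (l 64592248007) (l 105931306919)) (b (l 64055375751) (l 104857563767))) (l 3)) (b (c (l 16760024) (l 44728022407)) (c (l 100562597783) (b (l 85530212391) (l 3))))))) (a (b (l 16757888) (a (a (b (l 16757720) (b (l 16758608) (l 90898921367))) (c (l 16760192) (l 37211829415))) (c (l 16757584) (l 16756808)))) (c (l 16760360) (l 16759480)))) (a (l 3) (b (a (b (c (a (l 110763145591) (b (l 58149796391) (l 98951984599))) (a (l 110226273271) (b (l 56539182231) (l 97341370455)))) (l 3)) (a (b (c (l 16759776) (l 39359312535)) (b (a (l 98951984615) (a (l 80698372823) (l 63518503271))) (l 3))) (b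 (l 16757216) (a (b (l 16758328) (a (l 95730758279) (l 77477147223))) (c (l 16758552) (l 16757800)))))) (a (l 3) (a (l 3) (b (c (l 105394436023) (l 104320692727)) (l 3)))))))), by decide +kernel⟩

def k38_pp_012_a : ∃ t, chk3 f_pp_012_a t 49 19 1 = true :=
  ⟨(b (a (b (l 16751312) (a (l 16757776) (l 16743760))) (l 16746632)) (a (b (a (c (l 16757768) (l 16756760)) (l 16753736)) (a (b (a (b (l 16758512) (c (l 16757480) (l 16759296))) (c (l 16755168) (l 16754256))) (a (a (b (c (b (l 52244215559) (l 82845858423)) (b (l 49022988743) (c (l 90362048439) (l 89825176775)))) (l 3)) (b (c (l 16758224) (l 16758744)) (a (c (l 100025726343) (l 98951983015)) (b (a (l 69960953831) (l 16758392)) (l 103246950855))))) (a (a (b (l 16757168) (b (l 16758064) (a (l 84456468519) (l 67276599063)))) (c (l 16760352) (l 16758224))) (c (l 16757088) (l 16758864))))) (b (c (l 16752576) (l 16756784)) (a (c (l 16755792) (l 16757504)) (l 16756192))))) (a (b (l 16744952) (a (l 16755848) (l 16748840))) (c (l 16754968) (l 16753632))))),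 by decide +kernel⟩

def k39_pp_012_a : ∃ t, chk3 f_pp_012_a t 25 9 1 = true :=
  ⟨(a (a (b (l 16715504) (b (l 16729112) (a (l 16750752) (l 16736720)))) (b (l 16708520) (b (l 16722048) (l 16752352)))) (b (l 16718504) (a (l 16740320) (l 16732472)))), by decide +kernel⟩

def k40_pp_012_a : ∃ t, chk3 f_pp_012_a t 48 10 1 = true :=
  ⟨(l 3), by decide +kernel⟩

def k41_pp_012_a : ∃ t, chk3 f_pp_012_a t 98 40 1 = true :=
  ⟨(b (a (b (a (l 3) (a (a (l 3) (b (b (c (l 83919599127) (l 81772113943)) (l 3)) (l 3))) (b (c (b (l 16759200) (c (l 75329665623) (l 74255923015))) (b (l 42580536935) (a (l 94120144919) (l 65129115303)))) (c (l 108615661559) (l 108615659991))))) (l 3)) (b (a (a (b (c (l 16757984) (l 16757160)) (a (b (c (l 78550889799) (l 76403404567)) (l 3)) (c (b (l 16758648) (l 89825178967)) (b (l 16757848) (l 88214564679))))) (b (l 16758000) (c (c (l 16759816) (l 40433054759)) (c (l 38285570295) (b (l 16756968) (l 44191149303)))))) (b (c (l 16755832) (l 16754912)) (c (l 16759632) (l 16758096)))) (a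 (a (l 3) (b (a (c (l 104857564647) (l 104320692135)) (b (c (l 73719051303) (c (l 69424083111) (l 67813469591))) (l 3))) (l 3))) (a (c (a (b (b (l 16758536) (l 84993340567)) (l 3)) (b (l 45801763527) (l 101099468071))) (b (b (l 35064343479) (a (c (l 81235243207) (l 79087758919)) (l 51170470935))) (c (l 102173208999) (l 101636337287)))) (b (c (l 16757760) (l 16758208)) (a (b (c (l 69424083719) (c (l 64592244583) (l 61907889303))) (l 3)) (c (b (l 16758432) (l 79624631239)) (b (l 16757592) (c (l 74255921287) (l 72108436823)))))))))) (l 3)), by decide +kernel⟩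

def k42_pp_012_a : ∃ t, chk3 f_pp_012_a t 99 80 1 = true :=
  ⟨(a (c (b (l 16759064) (a (a (a (b (l 16757112) (l 42043666935)) (l 16758584)) (l 16759248)) (l 16757952))) (b (c (l 16758304) (l 16757808)) (a (a (b (l 16756000) (a (b (l 16757144) (l 46875503303)) (l 16757000))) (l 16757680)) (l 16756984)))) (c (l 16758096) (b (l 16749208) (l 16756904)))), by decide +kernel⟩

def k43_pp_012_a : ∃ t, chk3 f_pp_012_a t 99 162 1 = true :=
  ⟨(a (a (b (c (a (a (l 97341371495) (b (l 60834148839) (l 102173209495))) (b (l 16758104) (c (l 56002312007) (a (l 70497825511) (l 16758256))))) (a (a (b (l 91435789335) (l 3)) (b (c (l 55465438855) (l 52244212647)) (l 101636336919))) (b (l 16757896) (a (b (l 59760404951) (l 89825176343)) (l 42043664695))))) (a (l 3) (a (l 3) (b (c (l 85530211063) (c (l 79087759383) (l 77477145751))) (l 3))))) (c (a (b (l 16757536) (a (b (l 56539181255) (l 96804500199)) (b (l 16758216) (a (l 79087759607) (l 63518502855))))) (c (l 16760128) (l 16758344))) (b (c (l 16759040) (l 16758600))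 (a (b (a (c (l 49559858599) (l 46338632295)) (l 16757336)) (c (a (l 95730757095) (l 61907889863)) (a (l 95730756279) (b (l 16757592) (l 75329661639))))) (c (l 16758496) (l 16757744)))))) (a (c (c (l 16756224) (l 16758344)) (c (l 16757864) (l 16757408))) (c (l 16754240) (l 16758456)))), by decide +kernel⟩

def k44_pp_012_a : ∃ t, chk3 f_pp_012_a t 99 163 1 = true :=
  ⟨(b (a (a (l 3) (a (l 3) (a (b (a (c (l 91972661607) (l 93046401591)) (c (l 75866534039) (b (l 16757848) (l 96804497703)))) (l 3)) (c (b (l 51707342759) (l 90898919991)) (b (c (l 16758528) (l 39896181111)) (c (l 90362047767) (l 89825176023))))))) (a (a (a (c (b (l 16758104) (c (l 62981633095) (l 57612923063))) (b (l 16757216) (b (l 48486115079) (a (l 91435788519) (l 65665984327))))) (c (l 16757976) (c (l 16757296) (l 16758176)))) (c (l 16757328) (c (l 16756624) (l 16758808)))) (c (l 16756024) (c (l 16755288) (l 16757448))))) (a (l 3) (a (a (b (a (c (l 100562596663) (c (l 100025724439) (l 99488852695))) (b (c (l 62981631815) (c (l 56539180071)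 (l 53317953767))) (c (l 90898919559) (c (l 85530209607) (l 84993337783))))) (l 3)) (a (c (b (l 47949246007) (c (l 81772115431) (l 80698372647))) (b (c (l 16757760) (l 35601213415)) (b (a (l 94657014151) (l 70497822695)) (l 100562594727)))) (b (c (l 16758000) (l 16757096)) (b (c (l 16758448) (l 16757560)) (c (l 66739728167) (a (l 80161499287) (l 16757592))))))) (c (c (l 16758776) (l 16758288)) (a (a (c (l 16757176) (l 16758056)) (l 16757168)) (l 16756496)))))), by decide +kernel⟩

def k45_pp_012_a : ∃ t, chk3 f_pp_012_a t 49 41 1 = true :=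
  ⟨(a (l 3) (b (a (l 3) (b (a (a (l 3) (b (a (l 3) (a (l 3) (c (l 96267629511) (c (l 95730757255) (l 89825176375))))) (l 3))) (a (b (a (b (a (c (l 79087759319) (c (l 71571565783) (b (l 16757624) (l 97341368503)))) (c (l 63518502567) (c (l 55465438103) (b (l 16757408) (l 71571564391))))) (l 3)) (c (b (l 16758328) (a (l 91435790407) (l 75866533751))) (b (c (l 16757648) (c (l 16757328) (l 16757120))) (a (b (l 97878238679) (l 3)) (c (l 68350340199) (l 63518500743)))))) (l 3)) (b (b (c (l 16757680) (c (l 16756984) (l 16756544))) (c (c (l 43117409047) (c (l 16758816) (l 16758744))) (c (c (l 34527473143) (l 31306247223)) (l 34527471239)))) (c (b (a (c (l 89288307655) (l 88751435799)) (b (l 16758512) (l 73182179111))) (c (l 98415113783) (l 98415112823))) (b (a (c (l 88214563991) (l 80698370391)) (a (c (l 64592243719) (l 57076049863)) (l 41506793015))) (c (l 97878241015) (l 91435789223))))))) (l 3))) (l 3))), by decide +kernel⟩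

def k46_pp_012_a : ∃ t, chk3 f_pp_012_a t 49 21 1 = true :=
  ⟨(l 3), by decide +kernel⟩

def k47_pp_012_a : ∃ t, chk3 f_pp_012_a t 24 11 1 = true :=
  ⟨(l 3), by decide +kernel⟩

def k48_pp_012_a : ∃ t, chk3 f_pp_012_a t 200 40 1 = true :=
  ⟨(b (c (l 16748056) (l 16757320)) (c (b (l 16751624) (c (l 16759536) (l 16758992))) (a (c (l 16758144) (l 16757640)) (l 16756088)))), by decide +kernel⟩

def k49_pp_012_a : ∃ t, chk3 f_pp_012_a t 200 82 1 = true :=
  ⟨(b (c (a (a (b (l 16757120) (a (b (l 16758232) (b (l 63518502439) (l 89288306583))) (c (l 16758344) (l 35601215111)))) (c (l 16759728) (l 16757912))) (c (l 16755816) (l 16757904))) (a (b (l 16756376) (a (b (l 16757424) (a (c (b (l 56539179783) (l 84456467495)) (b (l 48486115095) (l 75329661111))) (c (l 39359310359) (l 16757272)))) (l 16757160))) (l 16755848))) (a (b (a (a (l 3) (b (c (c (l 80161502567) (l 82845855591)) (a (l 85530208679) (b (l 54928565991) (l 94657013751)))) (l 3))) (a (a (b (b (c (l 16758520) (l 16757608)) (c (l 78550888087)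 (l 65665984375))) (l 3)) (c (b (l 16758456) (l 91972661351)) (b (l 16757536) (c (l 88751434823) (l 76940274151))))) (b (c (l 16758128) (l 16757208)) (b (c (l 56539180327) (a (l 46875502375) (l 16757552))) (a (c (l 95193886759) (l 87140821047)) (c (l 72108437223) (a (l 66739726215) (l 48486115079)))))))) (l 3)) (a (a (b (c (c (l 16758248) (l 16757752)) (l 24863794807)) (b (b (a (c (l 81235242871) (c (l 77477145383) (l 65129113671))) (c (l 16758640) (l 40433051415))) (c (l 91972661495) (c (l 89288305799) (l 77477145047)))) (l 3))) (b (c (l 16757560) (l 16756616)) (c (b (c (l 49559859719) (l 47412375079)) (c (l 86067082151) (l 85530210263))) (b (b (l 16757384) (c (l 54391695831) (l 39359309847))) (a (l 87677692727) (b (a (l 71571564631) (l 54928566167)) (l 3))))))) (b (c (l 16756912) (l 16755944)) (b (c (l 16758144) (l 16757528)) (a (b (c (l 16758480) (l 31306245911)) (a (c (l 83382726743) (a (l 86067079303) (l 66202855543))) (c (l 16758632) (l 43117406231)))) (c (l 16758200) (l 16757264)))))))), by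 decide +kernel⟩

def k50_pp_012_a : ∃ t, chk3 f_pp_012_a t 200 83 1 = true :=
  ⟨(b (a (l 3) (a (l 3) (b (b (a (c (l 94120145607) (c (l 95193886023) (l 89825176055))) (b (a (c (l 68887211959) (a (l 62444759159) (l 45264889815))) (c (l 16758544) (l 16757616))) (a (l 3) (c (l 77477146791) (a (l 78550886615) (l 58686662759)))))) (l 3)) (l 3)))) (l 3)), by decide +kernel⟩

def k51_pp_012_a : ∃ t, chk3 f_pp_012_a t 201 40 1 = true :=
  ⟨(b (l 16743880) (c (l 16754568) (l 16753376))), by decide +kernel⟩

def k52_pp_012_a : ∃ t, chk3 f_pp_012_a t 201 82 1 = true :=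
  ⟨(c (b (c (l 16753216) (l 16757880)) (a (a (c (l 16756912) (l 16757696)) (l 16755768)) (l 16754456))) (a (a (b (l 16753192) (l 16756808)) (l 16755496)) (l 16754800))), by decide +kernel⟩

def k53_pp_012_a : ∃ t, chk3 f_pp_012_a t 201 83 1 = true :=
  ⟨(a (b (a (a (b (a (b (c (l 50633600407) (l 32379987943)) (b (c (l 86603952439) (l 76403403207)) (l 3))) (c (b (l 16758256) (c (l 74255922087) (l 73182179175))) (b (l 16757320) (b (l 46875502791) (l 87140821511))))) (l 3)) (b (b (c (l 16757936) (l 16756984)) (c (c (l 54391698071) (l 52244213335)) (a (b (l 16757560) (a (l 69960952119) (l 49022986423))) (l 16757816)))) (a (l 3) (b (b (b (c (l 74792792327) (l 64055372023)) (l 3)) (l 3)) (l 3))))) (a (b (c (l 16758128) (l 16757504)) (b (b (c (l 51707342679) (c (l 46338632167) (l 16757728))) (a (c (l 89288307335) (l 81235241559)) (c (l 64055374103) (l 52244211975)))) (l 3))) (b (c (l 16757360) (l 16756400)) (c (b (l 16758272) (c (l 74792793175) (b (l 65129115495) (l 87140823415)))) (b (l 16757656) (a (b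 (l 70497822967) (l 3)) (b (l 16757672) (l 80698370407)))))))) (l 3)) (a (a (b (b (l 16756176) (b (c (l 16757832) (l 16756880)) (c (c (l 16758696) (l 16758840)) (c (c (l 16757824) (l 24326926103)) (l 27011279287))))) (b (b (b (a (c (l 93046403911) (l 85530208983)) (c (l 65665987111) (l 58686662887))) (l 3)) (l 3)) (l 3))) (b (c (c (l 16757368) (l 16758152)) (l 16757432)) (b (c (b (c (l 56002311111) (l 53317955447)) (l 95730758311)) (b (a (b (l 16757624) (l 77477144823)) (l 36138084359)) (c (l 95730756871) (l 94120143271)))) (l 3)))) (b (c (c (l 16756712) (l 16756176)) (l 16756752)) (b (b (c (l 16758280) (l 16757648)) (a (c (c (l 63518504279) (l 60834148615)) (c (l 57612921495) (b (l 16758040) (l 62444760151)))) (c (l 16759000) (l 16758048)))) (a (l 3) (b (c (c (l 76403406711) (l 75866534599)) (c (l 76403403671) (c (l 64055372951) (l 64055372583)))) (l 3))))))), by decide +kernel⟩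

def k54_pp_012_a : ∃ t, chk3 f_pp_012_a t 101 20 1 = true :=
  ⟨(b (a (c (l 16753920) (l 16752568)) (l 16749608)) (a (b (c (c (l 16756176) (l 16755560)) (l 16752088)) (b (a (c (l 16757256) (l 16756712)) (l 16752800)) (c (a (a (b (l 16758040) (b (c (l 44728021847) (l 41506795175)) (a (l 91972661767) (a (l 60297278567) (l 16759224))))) (c (l 16760008) (l 16758160))) (c (l 16756080) (l 16758144))) (a (b (l 16757512) (a (c (b (l 16757928) (a (l 91972657703) (l 50096728663))) (b (l 22179441655) (a (l 68887210391) (l 33990602007)))) (l 16758064))) (l 16757400))))) (a (b (l 16747320) (c (l 16758048) (l 16751712))) (a (l 16751848) (l 16752720))))), by decide +kernel⟩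

def k55_pp_012_a : ∃ t, chk3 f_pp_012_a t 50 21 1 = true :=
  ⟨(a (l 3) (b (a (b (a (b (b (a (a (l 3) (c (l 100562597127) (l 98415111575))) (c (a (b (a (l 81235244183) (l 57076053015)) (l 3)) (b (l 16758416) (l 81772115271))) (a (c (l 77477145815) (l 88751432679)) (b (l 16757456) (l 71571565143))))) (l 3)) (l 3)) (a (b (b (c (c (l 39359313095) (l 36138086247)) (c (l 16758624) (l 16758184))) (a (c (l 98415113335) (l 97341369591)) (b (c (l 57076053015) (l 41506795159)) (l 3)))) (l 3)) (b (c (b (l 16757184) (b (l 16758104) (c (l 62444763879) (l 63518503911)))) (c (b (l 16756424) (l 37748698503)) (c (l 20568829879) (l 28621891991)))) (a (l 3) (b (c (l 96267629527) (l 79087760487)) (l 3)))))) (l 3)) (b (b (a (c (c (l 16759368) (l 16758816)) (l 16758080)) (l 16755576)) (a (a (b (b (c (c (l 16758704) (l 16758168)) (l 16758120)) (c (c (l 74255924551) (l 76940277079)) (l 68350341895))) (l 3)) (c (b (l 16759168) (c (l 68887216423) (l 76940276919))) (b (l 16756880) (c (l 72645308823) (l 62444762231))))) (a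 (c (c (l 16760456) (l 29695635431)) (l 16757888)) (c (l 16756648) (l 16755648))))) (a (l 3) (b (a (c (c (l 95193889207) (l 97878240071)) (l 99488854039)) (b (c (c (l 42580540855) (l 16759512)) (l 16758808)) (c (l 98951984567) (l 83919599495)))) (l 3))))) (l 3))), by decide +kernel⟩

def k56_pp_012_a : ∃ t, chk3 f_pp_012_a t 51 10 1 = true :=
  ⟨(b (a (b (c (l 16755216) (l 16753688)) (a (b (l 16742640) (l 16752800)) (b (l 16738728) (l 16743624)))) (b (l 16746360) (a (l 16758088) (l 16732904)))) (b (a (b (a (c (c (l 16758608) (b (l 16751544) (l 16759256))) (l 16757248)) (l 16751192)) (a (a (a (b (c (c (l 37748703319) (b (l 16757296) (l 49022990135))) (l 28621895159)) (l 3)) (b (c (l 16759856) (l 16756264)) (c (b (l 74255923527) (l 3)) (l 71034699111)))) (a (b (l 16758384) (c (b (l 16760744) (l 79087762519)) (l 38285572327))) (c (c (l 28085026343) (l 17884481047)) (l 16759504)))) (c (b (l 16758096) (c (l 16760856) (l 16760304))) (l 16758336)))) (c (a (b (l 16745064) (l 16760472)) (l 16753792)) (a (l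 16756936) (l 16752688)))) (a (a (l 3) (b (b (c (a (b (c (l 48486121943) (l 16760504)) (l 82308985703)) (c (l 16762312) (l 16756544))) (c (b (l 16758728) (l 53317957447)) (l 32379993479))) (a (l 3) (c (a (l 84993340807) (l 52781089543)) (l 61371022263)))) (l 3))) (a (b (a (c (b (l 16754752) (c (l 36674962215) (l 16762200))) (l 25400667927)) (c (l 16759152) (l 16752992))) (b (a (c (l 79087760567) (l 68350343543)) (c (b (l 16759632) (l 54391701879)) (l 42043665591))) (l 3))) (b (c (l 16761192) (l 16760272)) (c (b (c (l 16759968) (l 16754232)) (a (b (l 44728024391) (l 74255920487)) (l 30769379559))) (b (l 16764120) (a (l 52781083607) (l 16760376))))))))), by decide +kernel⟩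

def k57_pp_012_a : ∃ t, chk3 f_pp_012_a t 25 11 1 = true :=
  ⟨(a (l 3) (b (a (l 3) (b (b (b (b (a (l 3) (c (a (l 3) (l 53854829863)) (l 60834149671))) (l 3)) (l 3)) (l 3)) (l 3))) (l 3))), by decide +kernel⟩

def k58_pp_012_a : ∃ t, chk3 f_pp_012_a t 13 4 1 = true :=
  ⟨(a (b (a (b (a (l 16654072) (l 16646760)) (l 16665600)) (b (a (l 16640144) (l 16634112)) (l 16651080))) (a (b (l 16702800) (b (l 16694640) (l 16724528))) (b (l 16687328) (a (l 16686808) (l 16679016))))) (b (a (b (l 16646536) (a (l 16641352) (l 16635680))) (b (l 16615328) (c (l 16650296) (l 16627176)))) (a (b (l 16652800) (l 16689320)) (b (a (l 16644216) (l 16639216)) (l 16677320))))), by decide +kernel⟩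

def k59_pp_012_a : ∃ t, chk3 f_pp_012_a t 26 10 1 = true :=
  ⟨(a (b (a (b (l 16716976) (l 16747464)) (l 16744608)) (a (a (b (l 16748872) (b (c (l 16746376) (l 16745472)) (c (c (l 16762144) (l 16751176)) (l 16761104)))) (b (l 16734032) (b (l 16741504) (c (l 16747016) (l 16746248))))) (b (l 16748456) (b (l 16750640) (c (l 16750864) (l 16760632)))))) (a (b (l 16725664) (b (l 16718824) (c (l 16750048) (l 16749360)))) (b (l 16696512) (c (l 16736656) (l 16735952))))), by decide +kernel⟩

def k60_pp_012_a : ∃ t, chk3 f_pp_012_a t 26 22 1 = true :=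
  ⟨(b (a (a (b (a (c (b (a (c (l 38822443575) (l 16756048)) (l 16754128)) (a (l 72645307799) (c (l 43117411479) (l 41506797927)))) (b (a (l 32916860343) (l 16753424)) (a (l 67813471847) (l 37748699655)))) (c (c (b (l 16751048) (l 16758832)) (l 16762392)) (l 16761944))) (a (l 3) (a (b (c (c (l 47949249927) (l 46875507367)) (l 48486118151)) (l 3)) (c (b (l 29695635111) (l 61907886951)) (b (l 16754288) (l 54391698247)))))) (a (b (c (l 16758160) (l 16747056)) (a (c (b (l 16752632) (c (l 35064344919) (l 16755016))) (l 22179442727)) (c (l 16756944) (l 16751216)))) (b (l 16753360) (c (l 16758832) (l 16758376))))) (a (a (c (l 16751816) (l 16761832)) (b (l 16734040) (l 16739176))) (c (l 16751304) (l 16750960)))) (a (a (l 3) (a (b (b (c (a (l 65665983895) (c (l 39896183735) (l 16760600))) (a (l 60297278151) (l 16755088))) (l 3)) (l 3)) (a (b (c (b (l 16753368) (c (l 43117409479) (l 43654279543))) (c (l 16759504) (l 16764664))) (l 3)) (b (c (b (l 16751120) (l 28085020151)) (l 16762576)) (c (b (l 56539175735)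 (l 3)) (l 62981628375)))))) (a (a (b (c (c (l 16759688) (l 16748952)) (l 16759256)) (c (b (c (a (l 32916858967) (l 16751992)) (l 16758120)) (a (l 59223530919) (c (l 35601214199) (l 16754360)))) (b (l 15736991159) (c (l 33453735255) (l 31306250967))))) (b (c (l 16744576) (l 16744336)) (c (a (l 19495083287) (l 16748704)) (l 16754928)))) (a (b (l 16750456) (c (l 16755832) (l 16745264))) (c (l 16748880) (l 16759264)))))), by decide +kernel⟩

def k61_pp_012_a : ∃ t, chk3 f_pp_012_a t 26 23 1 = true :=
  ⟨(a (l 3) (a (b (b (a (l 3) (a (b (a (l 52244208263) (a (l 45264885095) (l 40433046007))) (l 3)) (c (b (l 16757912) (l 39896182391)) (b (l 16752624) (l 16757752))))) (l 3)) (l 3)) (b (b (a (a (c (c (l 23790052119) (l 16756944)) (l 16756992)) (c (l 16760016) (l 16749560))) (c (l 16756736) (l 16756792))) (b (c (a (a (l 43117407927) (l 30769373895)) (l 16755504)) (a (c (l 27548153879) (l 24326928519)) (l 16760872))) (a (l 3) (a (c (l 32916858455) (l 16759336)) (a (l 29158754823) (l 16751384)))))) (a (l 3)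 (a (l 3) (b (b (a (l 46875499575) (l 39359305287)) (l 3)) (l 3))))))), by decide +kernel⟩

def k62_pp_012_a : ∃ t, chk3 f_pp_012_a t 27 5 1 = true :=
  ⟨(b (a (b (c (l 16706816) (l 16705728)) (b (l 16730136) (a (l 16711968) (l 16704456)))) (b (a (l 16675304) (l 16669448)) (b (l 16706168) (l 16736216)))) (a (b (b (a (l 16742808) (l 16714176)) (a (b (l 16750416) (c (l 16755688) (l 16734680))) (c (l 16724376) (l 16745232)))) (a (b (a (c (b (l 16742008) (c (l 16747376) (l 16747344))) (b (l 16742072) (l 16757984))) (b (l 16748376) (c (l 16743224) (l 16743368)))) (a (b (b (c (c (l 16756632) (l 16751400)) (l 16756840)) (c (a (l 38285568663) (l 16758280)) (c (l 19495089063) (l 16758280)))) (b (c (l 53854821911) (l 37748700279)) (l 3))) (b (b (c (l 16747264) (l 16747464)) (c (l 16760472) (l 16755472))) (a (c (b (l 16758920) (l 3)) (l 80161479287)) (c (c (l 16758240) (l 16758288)) (b (l 16751968) (l 16759872))))))) (b (b (a (l 16733944) (l 16730112)) (a (l 16749744) (l 16735376))) (a (c (b (l 16744600) (c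 (l 16760496) (l 16760544))) (b (l 16755280) (b (l 16748912) (a (l 16752688) (l 16750664))))) (b (l 16751200) (a (a (l 16752856) (l 16751856)) (l 16750376))))))) (b (a (b (l 16707088) (l 16737912)) (b (l 16700448) (l 16710056))) (a (a (b (l 16739480) (b (l 16747344) (c (l 16742136) (l 16752824)))) (b (l 16746296) (b (l 16733088) (l 16743608)))) (b (c (l 16720048) (l 16740960)) (c (b (l 16727608) (l 16743232)) (b (l 16727656) (l 16743360)))))))), by decide +kernel⟩

def k63_pp_012_a : ∃ t, chk3 f_pp_012_a t 6 3 1 = true :=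
  ⟨(b (a (l 3) (b (a (l 3) (a (a (l 3) (b (b (a (b (a (b (b (l 33453725719) (l 3)) (l 3)) (c (c (l 16759600) (l 16759680)) (l 13052635895))) (l 3)) (b (b (a (l 16753840) (l 16754456)) (c (l 16758048) (a (l 76403384919) (l 16752152)))) (a (l 3) (b (a (l 19495084423) (l 10368277335)) (l 3))))) (l 3)) (l 3))) (a (b (b (c (b (a (l 16752752) (l 16754112)) (a (b (l 16754192) (c (l 16756816) (l 16756928))) (b (l 16747648) (l 16752976)))) (a (b (b (l 16746408) (a (l 16750144) (l 16748160))) (a (l 1778347767) (l 16757520))) (b (b (l 16742512) (l 16745216)) (l 16754560)))) (b (b (a (c (l 71571550311) (c (l 16759736) (l 12515765527))) (a (a (l 16757304) (l 16753712)) (l 16754864))) (a (l 3) (a (a (l 3) (l 10905152807)) (a (l 9294537703) (l 16757096))))) (l 3))) (l 3)) (b (b (a (b (c (l 16739832) (l 16750528)) (b (c (l 16743808) (l 16744072)) (l 16749224))) (b (c (l 16736128) (l 16736304)) (l 16746720))) (b (b (a (c (l 16751464) (l 16749496)) (l 16748104)) (a (a (a (l 16753504) (l 16752528)) (l 16751064)) (a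 (l 16749136) (l 16747224)))) (a (b (c (c (l 16757120) (l 16755960)) (a (c (l 16755808) (l 16757248)) (l 16755304))) (a (l 3) (a (l 3) (b (l 15200112567) (l 3))))) (b (c (l 16753352) (c (l 16750976) (l 16751184))) (a (c (l 16755704) (c (l 16754664) (b (l 16754008) (l 16755064)))) (c (l 16752472) (c (l 16752736) (l 16752792)))))))) (b (b (b (a (l 3) (a (a (l 3) (b (c (l 16755928) (l 13052632279)) (l 3))) (c (c (l 16755080) (l 16755840)) (c (b (l 16754512) (l 16755696)) (b (l 16754408) (l 8220793175)))))) (l 3)) (l 3)) (l 3)))))) (l 3))) (l 3)), by decide +kernel⟩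

def k64_pp_012_a : ∃ t, chk3 f_pp_012_a t 7 2 1 = true :=
  ⟨(a (b (a (a (b (b (l 16606800) (l 16619208)) (b (a (l 16634792) (l 16630768)) (l 16667488))) (b (l 16605536) (b (l 16624816) (a (l 16640448) (l 16636872))))) (b (l 16595696) (a (l 16645408) (l 16618000)))) (a (b (a (b (a (l 16664080) (l 16659128)) (a (l 16680840) (l 16675256))) (b (l 16631336) (l 16667384))) (a (b (a (b (l 16694176) (l 16703528)) (b (l 16688152) (l 16697216))) (a (b (b (l 16710720) (l 16715632)) (b (l 16741584) (b (l 16734872) (l 16737416)))) (a (b (l 16708232) (a (l 16718848) (l 16717120))) (l 16720280)))) (b (l 16704800) (b (l 16707400) (b (l 16724704) (l 16718872)))))) (b (a (b (l 16645088) (l 16658496)) (b (l 16639288) (l 16651040))) (b (a (l 16673240) (l 16663880)) (a (b (l 16685184) (l 16714584)) (l 16698776)))))) (b (a (a (l 16653264) (l 16630600)) (b (a (l 16566136) (l 16549192)) (a (l 16578800) (l 16518000)))) (a (b (a (b (l 16624272) (l 16634496)) (b (l 16607600) (b (l 16613872) (l 16597488)))) (a (b (l 16646448)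 (l 16669784)) (b (a (l 16631600) (l 16620896)) (a (l 16643704) (l 16632592))))) (a (b (b (l 16589264) (l 16596648)) (b (b (l 16644152) (a (l 16612376) (l 16601024))) (a (l 16620896) (l 16609000)))) (b (b (l 16569288) (l 16575856)) (b (a (l 16588184) (l 16577696)) (a (b (b (l 16593072) (l 16595496)) (l 16600192)) (b (l 16583760) (b (l 16587240) (l 16590168)))))))))), by decide +kernel⟩

def k65_pp_012_a : ∃ t, chk3 f_pp_012_a t 112 24 1 = true :=
  ⟨(b (c (b (l 16741224) (a (l 16748192) (l 16734096))) (b (a (l 16732664) (l 16729096)) (l 16741336))) (b (a (a (l 16749256) (l 16742160)) (a (l 16740320) (l 16738480))) (a (b (c (l 16746944) (l 16747256)) (c (l 16751016) (a (l 16750912) (l 16749008)))) (a (b (l 16744288) (l 16749576)) (a (l 16746840) (l 16745904)))))), by decide +kernel⟩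

def k66_pp_012_a : ∃ t, chk3 f_pp_012_a t 112 25 1 = true :=
  ⟨(b (b (b (a (c (a (c (l 16753176) (l 16753336)) (l 16751352)) (c (a (l 16753328) (l 16751544)) (a (b (l 16752664) (l 16753840)) (l 16751496)))) (a (c (l 16749464) (l 16749760)) (a (l 16748192) (l 16747240)))) (a (b (c (a (l 16755168) (l 16753344)) (a (c (l 16755096) (l 16755512)) (a (l 16753736) (l 16752848)))) (c (a (l 13052631191) (l 16754536)) (a (c (l 16756616) (a (l 3) (l 18421340775))) (c (l 16754504) (l 16755112))))) (c (a (l 16753416) (l 16750200)) (a (c (l 16752128) (l 16752760)) (c (l 16750352) (l 16750360)))))) (b (b (a (a (l 3) (c (a (l 16756192) (l 16755280)) (c (a (l 16756144) (l 16755248)) (a (l 14663245207) (l 16755376))))) (c (a (l 16754576) (l 16752104)) (a (c (l 16753912) (l 16754552)) (l 16752472)))) (a (b (a (l 3) (c (l 14126374711) (c (l 16756600) (l 13052633239)))) (l 3)) (c (a (c (l 16755120) (l 16755120)) (l 16753312)) (a (a (a (a (l 16756208) (l 16755992)) (l 16755408)) (l 16754992)) (a (l 16753784) (l 16752912))))))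 (a (l 3) (a (b (a (l 3) (c (l 16755872) (c (l 16755880) (c (l 16756200) (l 9294535799))))) (l 3)) (b (a (c (l 16754968) (a (l 16755296) (l 16754776))) (c (l 16754064) (l 16754448))) (a (b (a (l 51707335239) (c (l 16755656) (l 16755688))) (l 3)) (c (l 16755608) (c (l 16755328) (l 16755512))))))))) (b (b (b (b (a (l 3) (a (l 3) (a (l 3) (a (l 3) (c (l 16755968) (l 16756360)))))) (l 3)) (l 3)) (l 3)) (l 3))), by decide +kernel⟩

def k67_pp_012_a : ∃ t, chk3 f_pp_012_a t 113 24 1 = true :=
  ⟨(b (a (l 16734576) (b (l 16721904) (b (l 16725648) (l 16728176)))) (a (b (l 16740944) (c (l 16743432) (c (l 16740984) (l 16743744)))) (c (l 16742360) (c (l 16739864) (l 16739960))))), by decide +kernel⟩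

def k68_pp_012_a : ∃ t, chk3 f_pp_012_a t 113 50 1 = true :=
  ⟨(b (b (a (c (l 16746032) (a (l 16745952) (l 16744016))) (c (l 16740896) (l 16741104))) (a (c (c (l 16748568) (l 16748688)) (a (l 16749208) (l 16746592))) (c (l 16746072) (l 16744960)))) (b (a (c (a (c (l 16750832) (l 16750928)) (l 16748952)) (a (a (l 16752088) (l 16750552)) (c (l 16749120) (l 16749248)))) (a (a (l 16748896) (l 16746600)) (l 16746432))) (a (c (a (c (a (l 16754400) (l 16752840)) (a (l 16754448) (l 16752896))) (a (l 16752632) (l 16751064))) (b (a (a (l 16753240) (l 16752368)) (l 16751392)) (a (a (a (l 16754680) (l 16754240)) (l 16753584)) (c (l 16752248) (l 16752312))))) (c (a (a (l 16750072) (l 16749088)) (l 16747600)) (a (c (l 16749728) (l 16750480)) (l 16749072)))))), by decide +kernel⟩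

def k69_pp_012_a : ∃ t, chk3 f_pp_012_a t 226 51 1 = true :=
  ⟨(b (b (a (a (a (b (c (l 16755824) (b (l 16755928) (l 5536439895))) (l 3)) (b (c (l 16755376) (b (l 16755160) (l 16756104))) (a (l 3) (b (b (l 16756080) (l 3)) (l 3))))) (b (c (l 16755192) (c (l 16754784) (l 16755168))) (a (b (c (l 16755848) (a (l 16756064) (l 16755848))) (l 3)) (c (l 16755992) (c (l 16755800) (l 16756024)))))) (b (a (c (l 16753808) (a (l 16754160) (l 16753728))) (a (l 16753536) (l 16752768))) (a (c (a (l 16755584) (l 16754808)) (a (a (l 16755664) (l 16755288)) (l 16755288))) (c (l 16754464) (a (l 16754528) (l 16754088)))))) (a (l 3) (b (a (b (c (c (l 16755920) (l 16756000)) (c (l 16756232) (l 16756352))) (a (l 3) (a (l 3) (b (l 16756496) (l 3))))) (a (c (c (l 16755560) (l 16755640)) (c (l 16756056) (l 16755976))) (c (l 16755480) (c (l 16755288) (l 16755384))))) (a (l 3) (b (c (c (l 16756424) (l 16756512)) (a (l 46875498855) (l 16756432))) (a (l 3) (c (l 56002304199) (l 16757016)))))))) (l 3)), by decide +kernel⟩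

def k70_pp_012_a : ∃ t, chk3 f_pp_012_a t 227 102 1 = true :=
  ⟨(c (a (b (b (l 16752184) (a (l 16753248) (l 16752328))) (a (a (b (l 16754704) (c (l 16756144) (l 16756208))) (b (l 16754256) (c (l 16755456) (l 16755560)))) (b (l 16753920) (c (l 16755104) (l 16755136))))) (b (c (l 16751448) (l 16750872)) (a (b (l 16752616) (a (l 16754168) (l 16753664))) (b (l 16751608) (l 16752904))))) (a (a (b (b (l 16752208) (l 16753768)) (a (b (l 16755232) (b (l 16755840) (a (l 16756576) (l 16756360)))) (b (l 16754472) (c (l 16755664) (l 16755776))))) (b (c (l 16751808) (l 16751896)) (c (b (l 16753752) (l 16755216)) (b (l 16753832) (c (l 16755104) (l 16755144)))))) (a (b (l 16751488) (b (l 16752760) (a (l 16754312) (l 16753792)))) (b (l 16749808) (c (l 16752840) (l 16752888)))))), by decide +kernel⟩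

def k71_pp_012_a : ∃ t, chk3 f_pp_012_a t 227 103 1 = true :=
  ⟨(b (b (a (a (b (a (l 3) (c (a (l 45264885975) (l 16756328)) (c (l 16756608) (l 16756720)))) (l 3)) (b (c (a (l 16756160) (l 16755552)) (c (l 16756040) (l 16756120))) (a (b (c (l 16756464) (l 16756704)) (l 3)) (c (c (l 16756120) (l 16756240)) (a (l 16756544) (l 16756320)))))) (c (a (b (l 16755048) (a (l 16755736) (l 16755288))) (c (l 16754168) (l 16754224))) (a (b (l 16755184) (a (l 16755928) (l 16755408))) (a (l 16754560) (l 16754040))))) (a (b (b (a (l 3) (a (l 3) (c (l 16756648) (l 16756912)))) (l 3)) (l 3)) (b (c (a (a (a (l 16756480) (l 16756256)) (l 16756088)) (a (l 16755424) (l 16754912))) (a (a (a (l 16756712) (l 16756448)) (l 16756056)) (a (l 16755528) (l 16755008)))) (a (a (a (l 3) (c (l 16756888) (l 16757104))) (c (c (l 16756488) (l 16756624)) (c (l 16756680) (l 16756728)))) (a (c (a (l 16756208) (l 16755952)) (l 16756176)) (c (l 16755568) (l 16755648))))))) (a (l 3) (a (l 3) (b (a (b (c (c (l 16756672) (l 16756760)) (c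 (l 16756808) (l 16756848))) (l 3)) (b (c (c (l 16756192) (l 16756240)) (l 16756376)) (b (c (l 16756632) (l 44728015527)) (l 3)))) (l 3))))), by decide +kernel⟩

def k72_pp_012_a : ∃ t, chk3 f_pp_012_a t 56 13 1 = true :=
  ⟨(l 3), by decide +kernel⟩

def k73_pp_012_a : ∃ t, chk3 f_pp_012_a t 57 24 1 = true :=
  ⟨(a (b (l 16728232) (a (a (l 16738320) (l 16735136)) (l 16734968))) (b (l 16712048) (c (l 16732096) (l 16732104)))), by decide +kernel⟩

def k74_pp_012_a : ∃ t, chk3 f_pp_012_a t 228 25 1 = true :=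
  ⟨(b (b (c (l 16743576) (l 16741088)) (c (a (l 16746976) (l 16745000)) (a (c (l 16747072) (l 16747136)) (l 16745096)))) (b (a (b (c (l 16749480) (l 16749256)) (a (b (l 16751304) (a (l 16752192) (l 16751680))) (c (l 16751536) (l 16750960)))) (c (b (l 16746168) (l 16750024)) (b (l 16746240) (l 16749832)))) (a (b (a (b (c (l 16753504) (l 16753584)) (c (a (l 16755056) (l 16754216)) (c (l 16754856) (l 16754888)))) (b (a (l 16752448) (l 16751936)) (c (l 16753776) (l 16753832)))) (a (b (c (b (a (l 16755704) (l 16755192)) (a (a (l 16756488) (l 16756224)) (l 16755840))) (a (c (a (l 16756216) (l 16755952)) (b (l 16755784) (l 16756760))) (c (l 16755560) (l 16755912)))) (a (b (b (c (l 16756688) (l 41506790471)) (l 3)) (l 3)) (b (c (a (l 16756624) (l 16756368)) (c (l 16756784) (l 16756880))) (c (c (l 16757144) (l 16757184)) (l 42043661335))))) (b (c (c (c (l 16755048) (l 16755064)) (l 16755088)) (c (b (l 16754792) (l 16755440)) (b (l 16755128) (l 16755776)))) (b (c (c (l 16755952) (l 16756064)) (c (l 16756088)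 (l 16756088))) (a (a (c (l 16756768) (l 16756968)) (c (l 16756512) (l 16756544))) (c (l 16756288) (l 16756472))))))) (b (a (b (l 16751664) (a (l 16753040) (l 16752200))) (c (l 16751432) (l 16751456))) (a (c (c (b (l 16753712) (c (l 16755336) (l 16755352))) (b (l 16753744) (l 16755448))) (b (b (l 16754088) (l 16754400)) (b (c (l 16755376) (l 16754720)) (c (l 16755696) (l 16756016))))) (b (c (l 16752712) (l 16753296)) (c (c (l 16754008) (b (l 16753696) (l 16755000))) (a (l 16754920) (l 16753752))))))))), by decide +kernel⟩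

def k75_pp_012_a : ∃ t, chk3 f_pp_012_a t 229 25 1 = true :=
  ⟨(b (b (l 16739120) (c (l 16742064) (l 16742768))) (b (b (c (l 16745816) (l 16745832)) (a (a (l 16747232) (l 16746232)) (l 16746048))) (a (b (a (a (l 16750776) (l 16750184)) (a (l 16749024) (l 16748528))) (a (c (c (l 16753008) (l 16753008)) (b (l 16752352) (l 16753632))) (c (l 16752008) (b (l 16750672) (l 16751960))))) (a (b (l 16748432) (c (l 16750352) (l 16750960))) (b (l 16746784) (a (l 16749584) (l 16749088))))))), by decide +kernel⟩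

def k76_pp_012_a : ∃ t, chk3 f_pp_012_a t 115 25 1 = true :=
  ⟨(b (a (b (l 16730744) (l 16739544)) (c (l 16734736) (l 16734712))) (b (a (a (a (l 16744640) (l 16741048)) (l 16742232)) (c (l 16736816) (l 16736736))) (b (a (c (l 16746976) (l 16746248)) (l 16743128)) (a (a (a (l 16748992) (l 16747352)) (l 16747200)) (c (l 16745688) (l 16742936)))))), by decide +kernel⟩

def k77_pp_012_a : ∃ t, chk3 f_pp_012_a t 228 52 1 = true :=
  ⟨(b (b (a (a (l 3) (a (l 3) (b (b (c (c (l 16756768) (l 44191144471)) (c (l 16757136) (l 16756800))) (l 3)) (l 3)))) (a (b (a (c (a (b (l 16756392) (l 16757064)) (b (l 16756296) (l 16756800))) (b (l 16756600) (c (l 16756944) (l 16756928)))) (b (c (c (l 16755904) (l 16755760)) (l 16755752)) (c (a (l 16756704) (l 16756400)) (l 16756736)))) (b (a (l 3) (a (l 3) (c (l 41506790215) (l 16756936)))) (l 3))) (b (a (c (c (l 16755560) (l 16755904)) (c (l 16756224) (l 16755552))) (c (l 16755392) (l 16755368))) (a (b (c (a (l 16756808) (l 16756584)) (l 16756864)) (c (c (l 37748694391)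 (l 16757232)) (l 16757208))) (b (c (l 16756208) (l 16756016)) (c (c (l 16756864) (l 16756696)) (l 16756672))))))) (l 3)) (l 3)), by decide +kernel⟩

def k78_pp_012_a : ∃ t, chk3 f_pp_012_a t 229 52 1 = true :=
  ⟨(a (b (a (b (c (b (c (l 16754296) (l 16754792)) (c (a (l 16755856) (l 16755680)) (l 16756008))) (c (b (l 16754936) (c (l 16756240) (l 16756232))) (b (l 16754256) (l 16756200)))) (b (a (b (c (b (l 16756848) (l 16757184)) (l 16756808)) (l 3)) (c (c (c (l 16756672) (l 16756920)) (b (l 16756328) (l 16756992))) (c (l 16756960) (l 16756592)))) (l 3))) (a (b (b (b (l 16753208) (l 16753856)) (c (l 16755176) (l 16754792))) (b (c (c (l 16756488) (l 16756472)) (c (l 16756112) (l 16756064))) (a (l 3) (b (a (l 16757064) (l 16756928)) (l 3))))) (b (b (l 16753352) (c (l 16754664) (l 16754280))) (c (b (l 16755976) (c (b (l 16756640) (l 16757320)) (b (l 16756616) (l 16757296)))) (b (l 16755576) (c (l 16756920) (l 16756856))))))) (l 3)) (b (a (c (a (b (a (l 16753968) (l 16753720)) (b (l 16755472) (c (l 16756792)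 (l 16756768)))) (b (l 16753344) (b (l 16754968) (l 16756272)))) (b (b (l 16752224) (l 16754168)) (b (c (l 16754832) (l 16754776)) (c (c (l 16756808) (l 16756776)) (l 16756728))))) (c (b (l 16752592) (b (l 16754208) (a (l 16755768) (l 16755264)))) (b (l 16752512) (b (l 16755096) (l 16755736))))) (b (a (b (b (a (a (l 3) (a (l 3) (l 16757224))) (c (l 16757144) (l 16756832))) (l 3)) (l 3)) (a (b (c (b (l 16756424) (l 16757344)) (l 16756976)) (l 3)) (c (b (c (l 16756592) (l 16756224)) (c (l 38822435863) (l 16757576))) (b (l 16756128) (l 16757472))))) (l 3)))), by decide +kernel⟩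

def k79_pp_012_a : ∃ t, chk3 f_pp_012_a t 115 52 1 = true :=
  ⟨(b (a (a (a (c (b (l 16750944) (c (l 16754208) (l 16754168))) (b (l 16751504) (b (l 16752776) (l 16754064)))) (c (b (l 16749960) (l 16753200)) (b (l 16751160) (c (l 16753112) (l 16752368))))) (a (b (l 16749584) (b (l 16751344) (l 16752632))) (b (l 16747952) (a (l 16750760) (l 16750264))))) (a (b (l 16747808) (a (l 16750848) (l 16748568))) (b (l 16744592) (l 16748440)))) (b (b (a (c (a (a (a (l 16756072) (l 16755568)) (l 16754824)) (l 16753664)) (a (a (l 16756016) (l 16754352)) (c (l 16754208) (l 16752792)))) (a (a (l 16751952) (l 16750976)) (l 16749040))) (a (c (a (c (a (a (l 16757424) (l 16756952)) (l 16756152)) (a (a (l 16757048) (l 16756528)) (l 16755776))) (c (l 16754992) (l 16754936))) (a (a (c (l 16757048) (l 16756624)) (l 16756304)) (c (l 16755504) (l 16755392)))) (a (a (l 16753408) (l 16752432)) (l 16751632)))) (b (a (a (a (a (l 3) (c (l 36674952007) (l 16757776))) (a (c (c (l 16757752) (l 16757368)) (l 16757232)) (b (l 16756792)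 (a (l 16757264) (l 16757000))))) (a (c (c (l 16756472) (l 16756080)) (l 16756592)) (c (l 16755448) (l 16754928)))) (a (c (l 16754304) (l 16754424)) (b (l 16751288) (l 16752584)))) (a (a (l 3) (a (b (a (a (l 16757424) (l 16757160)) (l 16757096)) (c (l 37748693751) (l 16757616))) (c (b (l 16756104) (l 16757256)) (l 16756888)))) (c (a (c (l 16754992) (l 16755560)) (l 16753000)) (a (c (l 16756112) (l 16754664)) (l 16754080))))))), by decide +kernel⟩

def k80_pp_012_a : ∃ t, chk3 f_pp_012_a t 57 53 1 = true :=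
  ⟨(a (l 3) (b (b (b (a (a (l 3) (a (l 3) (a (b (l 16758024) (l 3)) (b (l 16757416) (l 16758112))))) (a (a (c (c (l 16757456) (l 16756712)) (l 16757192)) (c (l 16756096) (l 16755536))) (c (l 16754304) (l 16755368)))) (a (l 3) (c (a (c (b (l 16757312) (l 16758000)) (a (l 16758664) (l 16757040))) (c (l 16755656) (l 16756208))) (a (a (l 16758560) (l 16756848)) (c (l 16755424) (l 16755264)))))) (a (l 3) (a (a (l 3) (b (c (l 16758488) (l 16758232)) (l 3))) (a (b (c (c (l 39896176247) (l 16757376)) (l 16757168)) (l 3)) (b (a (l 16757040) (l 16756552)) (c (l 16757776) (l 16757488))))))) (l 3))), by decide +kernel⟩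

def k81_pp_012_a : ∃ t, chk3 f_pp_012_a t 57 27 1 = true :=
  ⟨(l 3), by decide +kernel⟩

def k82_pp_012_a : ∃ t, chk3 f_pp_012_a t 29 12 1 = true :=
  ⟨(b (a (a (b (l 16705496) (l 16725248)) (l 16722552)) (a (l 16717912) (l 16687936))) (a (a (a (b (l 16733816) (b (l 16733160) (a (l 16738984) (l 16737176)))) (b (l 16733080) (b (l 16729704) (l 16739792)))) (b (l 16728152) (a (l 16736696) (l 16735448)))) (b (a (l 16730144) (a (l 16681288) (l 16697408))) (a (c (l 16728728) (l 16729096)) (a (a (l 16733544) (l 16710152)) (l 16727392)))))), by decide +kernel⟩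

def k83_pp_012_a : ∃ t, chk3 f_pp_012_a t 29 52 1 = true :=
  ⟨(b (a (a (a (a (a (l 16745760) (l 16746144)) (l 16744440)) (a (l 16740352) (l 16738600))) (a (l 16741296) (l 16732240))) (a (b (l 16734880) (l 16734712)) (a (l 16728976) (l 16713472)))) (a (a (a (a (b (l 16749088) (a (l 16750816) (l 16749864))) (b (l 16745920) (l 16749520))) (c (c (l 16747216) (l 16747128)) (a (l 16745224) (l 16743440)))) (a (c (l 16741048) (l 16740848)) (l 16740512))) (a (a (l 16738104) (l 16728240)) (a (c (l 16723304) (l 16723528)) (l 16728832))))), by decide +kernel⟩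

def k84_pp_012_a : ∃ t, chk3 f_pp_012_a t 29 53 1 = true :=
  ⟨(a (a (b (a (a (a (c (b (l 16753504) (l 16756360)) (b (l 16754552) (l 16756480))) (b (l 16753088) (b (l 16754368) (l 16755664)))) (a (b (l 16751480) (a (l 16754296) (l 16753816))) (b (l 16750544) (l 16753104)))) (a (b (l 16750088) (a (l 16752168) (l 16751240))) (b (l 16747328) (l 16750680)))) (b (b (a (c (a (a (l 16758128) (l 16757112)) (l 16755664)) (a (c (l 16758064) (l 16757216)) (l 16756648))) (a (l 16754936) (l 16751768))) (a (c (a (c (l 16759088) (l 38285564855)) (l 16756976)) (a (l 39359305511) (l 16757296))) (a (a (l 16755384) (l 16754440)) (l 16753048)))) (a (a (l 3) (a (b (l 7683924807) (l 3)) (b (a (l 16757904) (l 16757400)) (l 16757760)))) (c (a (a (l 16757512) (l 16756544)) (l 16755136)) (a (b (l 16757312) (l 16758304)) (l 16754768)))))) (b (a (c (a (l 16746936) (l 16745160)) (a (l 16746656) (l 16744928))) (c (l 16744648) (l 16742448))) (a (a (b (l 16751248) (a (l 16753592) (l 16752680))) (b (l 16748816) (l 16752648)))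 (c (a (l 16748296) (l 16746160)) (a (l 16748168) (l 16746544)))))) (c (a (a (b (l 16737664) (b (l 16741544) (l 16744168))) (a (b (l 16734256) (b (l 16738120) (l 16740736))) (b (l 16731912) (l 16742320)))) (b (a (l 16733552) (l 16728576)) (a (a (l 16734672) (l 16732208)) (a (l 16729704) (l 16727152))))) (a (b (b (l 16734656) (l 16739872)) (a (l 16743536) (l 16738800))) (a (b (l 16739088) (c (l 16738952) (l 16744416))) (b (l 16723400) (l 16739072)))))), by decide +kernel⟩

def k85_pp_012_a : ∃ t, chk3 f_pp_012_a t 58 27 1 = true :=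
  ⟨(b (b (a (a (l 3) (b (b (c (a (l 16759088) (l 16757080)) (a (l 42043659399) (l 16757992))) (a (l 3) (c (l 16758424) (l 16759008)))) (a (l 3) (c (l 16757968) (l 37748692759))))) (a (c (a (b (l 16755864) (c (l 16758592) (l 16758424))) (b (l 16754040) (l 16756600))) (b (a (l 16755464) (l 16753656)) (a (l 16758088) (l 16756176)))) (b (a (l 16752424) (l 16750424)) (c (a (l 16754800) (l 16752840)) (l 16753536))))) (a (l 3) (a (b (a (c (l 16758768) (l 16760944)) (c (l 16757968) (l 16758824))) (l 3)) (c (a (b (l 16757352) (l 16757448)) (b (l 16755576) (l 16758168))) (a (b (l 16756896) (l 16759576)) (b (l 16755184) (l 16757680))))))) (a (l 3) (b (a (l 3) (b (a (l 3) (c (l 16758288) (l 16760400))) (l 3))) (l 3)))), by decide +kernel⟩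

def k86_pp_012_a : ∃ t, chk3 f_pp_012_a t 118 27 1 = true :=
  ⟨(a (a (b (b (c (l 16749296) (l 16749920)) (c (b (l 16753376) (l 16756144)) (l 16754832))) (b (b (c (l 16756312) (l 16758560)) (c (l 16760320) (l 16761320))) (l 3))) (b (b (c (l 16748352) (l 16747776)) (c (b (l 16751120) (l 16753888)) (l 16753320))) (b (c (b (l 16756688) (l 16756880)) (b (l 16757016) (l 16759520))) (b (b (l 16756616) (l 3)) (l 3))))) (a (b (b (b (l 16743696) (a (l 16746992) (l 16745808))) (a (b (l 16749744) (l 16752528)) (b (l 16748552) (l 16751344)))) (b (c (b (l 16754368) (l 16757200)) (l 16755328)) (b (c (l 16757424) (l 16760560)) (b (c (l 16762112) (l 16762624)) (l 3))))) (b (b (a (c (l 16745592) (l 16738336)) (b (l 16740688) (l 16746008))) (c (b (l 16746432) (l 16751816)) (l 16748504))) (b (c (b (c (l 16751824) (l 16752160)) (c (l 16754656) (l 16749784))) (l 16754208)) (b (c (l 16757736) (l 16758632)) (c (l 16760648) (l 16761568))))))), by decide +kernel⟩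

def k87_pp_012_a : ∃ t, chk3 f_pp_012_a t 119 27 1 = true :=
  ⟨(a (b (a (b (b (l 16741456) (a (l 16742160) (l 16740912))) (b (c (l 16744008) (l 16744592)) (c (l 16746760) (l 16747392)))) (c (a (b (l 16738104) (l 16744672)) (b (l 16736856) (l 16743592))) (b (l 16737896) (b (l 16742016) (l 16744832))))) (b (c (a (b (l 16752184) (l 16755048)) (b (l 16747112) (l 16750008))) (a (l 16751720) (b (l 16747712) (l 16750688)))) (c (a (b (c (l 16755192) (l 16755560)) (l 16758384)) (b (l 16752984) (l 16750800))) (b (l 16754968) (l 16758088))))) (b (b (c (a (c (l 16734904) (l 16735016)) (c (l 16737624) (l 16732432))) (c (l 16739096) (l 16734016))) (b (c (a (l 16739016) (l 16736472)) (l 16738088)) (c (a (l 16741792) (l 16739288)) (l 16746176)))) (b (c (b (a (l 16744648) (l 16742176)) (a (l 16747576) (l 16745136))) (a (b (l 16745160) (l 16748168)) (l 16746728))) (c (a (b (l 16750584) (l 16753680)) (b (l 16748176) (l 16751296))) (b (c (l 16755088) (l 16744968)) (l 16753224)))))), by decide +kernel⟩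

def k88_pp_012_a : ∃ t, chk3 f_pp_012_a t 14 7 1 = true :=
  ⟨(b (a (l 3) (b (a (l 3) (b (a (l 3) (a (b (a (b (c (b (l 16760664) (l 160155265239)) (l 16764976)) (l 3)) (b (c (l 16759168) (l 16760104)) (c (b (l 16763640) (l 96267636503)) (l 55465455719)))) (l 3)) (b (b (c (a (l 16751600) (l 16754504)) (l 16756512)) (c (a (l 16765328) (l 16752544)) (l 16765120))) (b (a (b (c (l 116131859367) (l 99488868759)) (l 3)) (b (l 16766024) (c (a (l 111836896583) (l 16761440)) (l 57076064759)))) (a (l 3) (a (l 3) (b (b (a (l 222969165015) (l 134385463479)) (l 230485358535)) (l 3)))))))) (l 3))) (l 3))) (l 3)), by decide +kernel⟩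

def k89_pp_012_a : ∃ t, chk3 f_pp_012_a t 30 12 1 = true :=
  ⟨(a (b (a (b (l 16674576) (l 16681816)) (b (l 16664272) (l 16671264))) (a (b (l 16710744) (a (l 16722248) (l 16716920))) (b (l 16699968) (a (l 16711424) (l 16695264))))) (b (a (b (l 16653352) (l 16660104)) (b (l 16641840) (l 16648472))) (a (b (l 16688560) (a (l 16700024) (l 16694264))) (b (l 16677072) (c (l 16687192) (l 16663464)))))), by decide +kernel⟩

def k90_pp_012_a : ∃ t, chk3 f_pp_012_a t 120 13 1 = true :=
  ⟨(a (b (b (c (b (l 16708440) (l 16713240)) (l 16731504)) (b (c (a (l 16719472) (l 16716832)) (l 16717944)) (c (a (l 16729792) (c (l 16721984) (l 16721864))) (l 16723136)))) (b (c (b (c (a (l 16732456) (l 16731200)) (a (l 16729832) (l 16727192))) (a (b (l 16733936) (l 16736776)) (b (l 16731392) (l 16734264)))) (b (a (l 16729896) (l 16727168)) (c (l 16739416) (l 16734288)))) (b (a (c (b (l 16739696) (l 16742688)) (l 16741544)) (c (b (l 16737208) (l 16740232)) (l 16738968))) (b (c (a (l 16745760) (l 16743328)) (l 16745000))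 (a (l 16751808) (l 16746752)))))) (b (b (c (b (l 16703192) (l 16707928)) (l 16725888)) (c (b (c (l 16718224) (l 16712712)) (c (a (l 16719376) (l 16716768)) (l 16717848))) (b (l 16712360) (l 16717576)))) (b (c (b (a (b (l 16723264) (l 16726016)) (b (l 16720664) (l 16723440))) (a (b (l 16728840) (l 16731744)) (b (l 16726296) (l 16729216)))) (b (l 16728336) (c (l 16728936) (l 16728936)))) (a (b (c (b (l 16734712) (l 16737768)) (l 16736392)) (b (l 16743648) (l 16744296))) (b (c (b (l 16732216) (l 16735296)) (l 16733800)) (b (l 16738536) (l 16741832))))))), by decide +kernel⟩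

def k91_pp_012_a : ∃ t, chk3 f_pp_012_a t 121 13 1 = true :=
  ⟨(b (b (b (a (l 16697288) (l 16691632)) (c (a (l 16702520) (l 16697072)) (l 16709264))) (a (c (b (a (l 16708808) (l 16706120)) (c (b (l 16711544) (l 16714200)) (l 16712496))) (b (l 16706672) (l 16712016))) (c (b (c (l 16707656) (l 16701832)) (c (b (l 16706336) (l 16709040)) (l 16707176))) (b (l 16701016) (l 16706464))))) (b (c (b (a (a (b (l 16718064) (l 16720872)) (b (l 16715472) (l 16718296))) (c (a (l 16719744) (l 16711960)) (l 16712800))) (a (a (b (l 16723744) (l 16726696)) (b (l 16721200) (l 16724176))) (a (b (l 16718656) (l 16721656)) (a (l 16718248) (l 16716984))))) (b (a (l 16717656) (l 16712216)) (a (l 16728856) (l 16718288)))) (a (b (c (a (b (l 16729720) (l 16732824)) (a (l 16729408) (l 16728160))) (l 16735144)) (c (b (l 16740032) (l 16738064)) (l 16741776))) (b (c (b (c (l 16723608) (l 16723360)) (l 16731888)) (l 16724696)) (c (b (l 16729888) (l 16733216)) (l 16731440)))))), by decide +kernel⟩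

def k92_pp_012_a : ∃ t, chk3 f_pp_012_a t 61 13 1 = true :=
  ⟨(b (b (a (b (a (l 16685952) (l 16680344)) (c (a (l 16691672) (l 16686328)) (l 16687256))) (c (a (b (l 16676024) (l 16681064)) (l 16673296)) (l 16694368))) (a (c (a (a (b (l 16698128) (l 16713984)) (b (l 16695480) (l 16700896))) (b (l 16702024) (c (l 16697424) (l 16696616)))) (a (b (l 16695376) (l 16700928)) (l 16713560))) (a (c (b (l 16686352) (l 16691912)) (l 16687128)) (b (l 16680040) (l 16696264))))) (b (a (c (b (a (c (a (l 16709424) (l 16706896)) (l 16707592)) (c (l 16703128) (l 16702424))) (a (c (a (l 16715312) (l 16712824)) (l 16713600)) (c (l 16709120) (l 16708520)))) (b (a (l 16706792) (l 16701408)) (a (l 16712968) (l 16707680)))) (a (c (b (l 16697752) (l 16703880)) (l 16699248)) (b (l 16702296) (l 16698144)))) (a (b (c (a (a (l 16721336) (l 16718856)) (c (l 16715400) (l 16714936))) (a (l 16719480) (l 16714296))) (a (b (l 16730016) (l 16728208)) (a (l 16722752) (l 16720280)))) (b (a (c (l 16710304) (l 16709168)) (l 16704792))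 (a (l 16716608) (l 16711760)))))), by decide +kernel⟩

def k93_pp_012_a : ∃ t, chk3 f_pp_012_a t 31 6 1 = true :=
  ⟨(b (a (b (a (b (l 16630128) (l 16636808)) (b (l 16618400) (l 16625424))) (a (b (l 16665632) (c (l 16655600) (l 16652064))) (b (l 16633576) (c (l 16645224) (l 16640888))))) (b (a (b (l 16606912) (l 16614224)) (b (l 16595544) (l 16603120))) (a (b (l 16622672) (l 16653424)) (b (l 16611824) (l 16642848))))) (a (b (a (b (c (a (l 16668136) (l 16663040)) (l 16662360)) (c (a (l 16679040) (l 16674096)) (l 16694728))) (a (b (l 16656128) (l 16688512)) (b (l 16650936) (l 16662496)))) (a (a (b (c (l 16696272) (l 16688888)) (b (l 16699912) (l 16706952))) (b (b (l 16681776) (l 16688272)) (b (l 16695064) (l 16702184)))) (b (a (a (l 16681312) (l 16678856)) (l 16675176)) (b (l 16698328) (l 16716032))))) (b (a (b (c (l 16645528) (l 16640800)) (a (l 16657472) (l 16652448))) (b (a (l 16635456) (l 16630272)) (a (l 16647400) (l 16642328)))) (a (b (a (l 16670280) (l 16665368)) (b (l 16678216) (l 16685552)))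 (b (a (l 16660464) (l 16655456)) (a (l 16674584) (l 16680112))))))), by decide +kernel⟩

def k94_pp_012_a : ∃ t, chk3 f_pp_012_a t 60 56 1 = true :=
  ⟨(b (b (a (a (c (l 16753584) (l 16743776)) (c (l 16746208) (l 16746712))) (a (l 16746800) (l 16736656))) (a (a (a (l 16755856) (l 16753480)) (c (l 16749600) (l 16739752))) (a (l 16750320) (l 16740224)))) (a (b (a (c (l 16762960) (l 16763896)) (l 16753440)) (c (a (b (c (a (a (l 16764424) (l 16760672)) (l 16758976)) (l 16764504)) (b (a (a (c (a (l 158007793895) (l 16763472)) (l 50096743127)) (l 16764192)) (l 16760520)) (a (a (c (l 198809977655) (l 175187663799)) (c (a (b (l 16764232) (l 231559104375)) (l 16763896)) (l 16765008))) (c (l 16763800) (l 16761672))))) (l 16761392)) (a (a (b (l 16764808) (a (l 155323435911) (l 103246957255))) (l 16763088)) (l 16762816)))) (b (a (l 16738192) (l 16743880)) (c (l 16754928) (l 16760864))))), by decide +kernel⟩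

def k95_pp_012_a : ∃ t, chk3 f_pp_012_a t 120 57 1 = true :=
  ⟨(b (a (b (b (a (a (l 3) (a (l 3) (b (c (c (b (c (l 77477156535) (l 137606695815)) (c (a (l 3) (l 140827924663)) (l 227264138951))) (l 118279345623)) (l 199883721031)) (l 3)))) (c (c (a (b (c (c (b (l 16762232) (l 53854836087)) (l 16763888)) (l 16764072)) (b (a (c (a (l 99488864423) (l 16763240)) (l 142975405495)) (l 16763600)) (a (c (l 124721796583) (l 104320703239)) (l 37211838295)))) (b (l 16764128) (l 16763568))) (a (b (l 16764464) (c (b (l 16764912) (l 59223547447)) (l 16764776))) (l 16765008))) (a (b (l 115058115607) (c (l 90362059479) (l 16764336))) (l 16762896)))) (a (l 3) (a (a (l 3) (b (c (c (c (a (l 127943022119) (l 61371030023)) (l 93583285143)) (l 62444768663)) (l 91435799847)) (l 3))) (c (c (b (c (l 16763736) (l 16764296)) (a (l 99488865511) (l 16763856))) (c (l 36674968583) (l 16765088))) (b (l 16763168) (l 69960962103)))))) (b (b (a (l 3) (a (l 3) (a (l 3) (c (l 158007788935) (l 16764416))))) (l 3)) (l 3))) (a (b (c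 (b (b (l 16762672) (l 16762768)) (c (l 16762808) (l 16761976))) (b (l 16761216) (l 16762440))) (a (b (b (c (c (l 39359322423) (l 16763464)) (l 16763768)) (c (a (l 160692143767) (l 107541922087)) (l 52244229463))) (l 162839625351)) (c (b (c (l 16762200) (l 16762656)) (c (a (l 95193899031) (l 16764472)) (l 116131857511))) (c (l 12515780471) (l 16766496))))) (b (a (b (l 16761816) (l 16760512)) (b (l 16758032) (l 16759360))) (c (a (b (l 16761288) (l 16765184)) (l 16763424)) (l 16764960))))) (b (a (l 3) (a (l 3) (a (b (a (l 153712818983) (a (l 118816209319) (l 111300015879))) (l 3)) (c (b (l 16765344) (l 90362062071)) (c (l 47949259655) (l 16767112)))))) (l 3))), by decide +kernel⟩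

def k96_pp_012_a : ∃ t, chk3 f_pp_012_a t 121 57 1 = true :=
  ⟨(b (b (a (b (l 16760360) (l 16761040)) (l 16761576)) (a (c (a (l 16764344) (l 16756824)) (l 16758832)) (c (l 16753400) (l 16743624)))) (a (a (b (c (a (l 16764216) (l 16761136)) (l 16765200)) (a (b (l 148344108951) (l 3)) (b (a (l 113447498871) (l 16758000)) (l 149417851287)))) (c (b (l 16759448) (c (l 16767176) (l 16767528))) (b (l 16755024) (l 16765520)))) (c (b (l 16766536) (l 16764000)) (b (a (l 16757928) (l 16755576)) (a (l 16755368) (l 16758280)))))), by decide +kernel⟩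

def k97_pp_012_a : ∃ t, chk3 f_pp_012_a t 61 28 1 = true :=
  ⟨(b (a (b (a (c (l 16733576) (l 16733544)) (l 16728656)) (a (b (l 16739056) (l 16742848)) (l 16736152))) (b (a (l 16723832) (l 16719064)) (a (l 16731408) (l 16726712)))) (a (b (a (c (l 16757936) (b (l 16746648) (l 16749336))) (b (l 16741624) (l 16744344))) (a (a (a (l 16760080) (l 16753680)) (l 16762432)) (a (l 16749624) (l 16747312)))) (b (b (l 16745096) (l 16747872)) (a (l 16743872) (l 16739312))))), by decide +kernel⟩

def k98_pp_012_a : ∃ t, chk3 f_pp_012_a t 60 29 1 = true :=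
  ⟨(b (a (l 3) (b (a (b (a (l 3) (a (l 152639077015) (a (l 135459206695) (b (l 16759736) (l 103783837063))))) (l 3)) (b (c (a (c (l 31306263031) (l 16765368)) (l 16760384)) (a (b (l 16762648) (l 119889951031)) (l 16761040))) (b (c (a (l 84456484855) (l 16762480)) (a (l 138680435879) (l 16763136))) (a (l 3) (c (l 50633617015) (l 123111177815)))))) (a (l 3) (a (l 3) (a (l 3) (b (l 132774853575) (l 3))))))) (l 3)), by decide +kernel⟩

def k99_pp_012_a : ∃ t, chk3 f_pp_012_a t 61 29 1 = true :=
  ⟨(b (a (a (a (b (b (l 16763656) (c (l 16760968) (l 16761552))) (a (b (b (l 16763936) (l 61907907463)) (l 3)) (b (c (l 16763264) (l 16763832)) (b (l 57076070039) (l 3))))) (b (b (l 16756120) (l 16758968)) (a (b (l 16767664) (b (l 16767200) (l 61907908887))) (b (l 16761296) (b (l 16763496) (l 16767544)))))) (b (a (l 16760496) (l 16763464)) (b (a (l 16764840) (l 16757352)) (a (b (l 16761808) (l 16765920)) (l 16765560))))) (b (a (l 16754832) (l 16745088)) (a (a (l 16763152) (l 16759616)) (c (l 16751016) (l 16761576)))))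 (a (b (a (a (l 3) (b (c (l 92509548503) (l 126332416855)) (l 3))) (a (b (a (b (l 16810751079) (l 3)) (b (l 16764248) (a (l 16768528) (l 16768056)))) (l 3)) (b (c (l 16767080) (l 16768800)) (a (b (c (l 16768480) (l 16766280)) (l 3)) (b (l 16767696) (c (l 16768896) (l 16766680))))))) (l 3)) (b (a (b (a (l 16766368) (l 16764160)) (a (b (l 16766048) (c (c (l 16767344) (l 16764880)) (l 16767784))) (c (l 16767104) (l 16762152)))) (b (l 16760832) (c (l 16763840) (l 16764008)))) (a (b (a (a (b (c (l 7147075959) (l 16767088)) (l 3)) (b (c (l 16768408) (l 16766152)) (c (c (l 16769696) (l 16767224)) (l 16767496)))) (b (c (l 16764184) (l 16764496)) (c (c (a (l 16768792) (l 16765120)) (l 16768400)) (l 16768648)))) (a (l 3) (b (c (a (c (l 16768824) (l 16767648)) (a (l 12515786519) (l 16769072))) (a (l 16767904) (l 16769624))) (c (a (l 3) (c (l 16769248) (l 16768064))) (l 68887224967))))) (b (a (c (l 16768008) (l 16768256)) (l 16765888)) (a (a (b (l 16768400) (a (b (l 16768840) (l 16769168)) (c (l 18958237063)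 (l 16767200)))) (c (l 16767944) (l 16768208))) (c (l 16766288) (l 16769112)))))))), by decide +kernel⟩

def k100_pp_012_a : ∃ t, chk3 f_pp_012_a t 30 15 1 = true :=
  ⟨(b (a (l 3) (b (a (l 3) (b (a (l 3) (a (b (b (c (a (l 14126398199) (c (a (l 9831432935) (l 17347625111)) (l 4999595463))) (a (l 16768704) (l 16769160))) (l 3)) (l 3)) (a (b (b (c (l 16769176) (l 16766808)) (c (a (b (l 16769248) (l 3)) (b (l 16767448) (l 16769464))) (c (l 16769504) (l 16768344)))) (l 3)) (b (b (l 16768168) (c (c (l 16769576) (l 16767056)) (l 16767248))) (b (a (b (c (l 10368304247) (l 16768624)) (l 3)) (c (b (l 16769200) (l 9294562679)) (l 16769776))) (l 3)))))) (l 3))) (l 3))) (l 3)), by decide +kernel⟩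

def k101_pp_012_a : ∃ t, chk3 f_pp_012_a t 31 14 1 = true :=
  ⟨(a (a (b (b (b (a (l 16714328) (l 16709624)) (l 16735456)) (b (a (l 16729088) (l 16724504)) (a (l 16734768) (l 16730248)))) (a (b (b (l 16740608) (l 16751808)) (b (b (l 16751120) (l 16759416)) (b (c (l 16762488) (l 16757288)) (a (l 16766744) (l 16759224))))) (b (b (l 16736088) (l 16742048)) (b (l 16753336) (b (l 16752688) (l 16761024)))))) (b (b (a (l 16729800) (l 16725152)) (b (a (l 16719928) (l 16715296)) (a (l 16725672) (l 16721048)))) (b (b (a (l 16731520) (l 16726864)) (a (l 16737448) (l 16732760))) (b (a (l 16748712) (l 16738760)) (a (c (l 16749744) (l 16749424)) (l 6)))))) (b (b (a (a (l 16720440) (b (l 16690760) (l 16698656))) (a (b (l 16685888) (l 16693752)) (b (l 16680888) (l 16688728)))) (a (b (a (l 16710600) (l 16705784)) (a (l 16716320) (l 16711480))) (b (a (l 16700864) (l 16706304)) (a (l 16706536) (l 16701472))))) (b (a (a (b (l 16722104) (l 16727984)) (b (l 16717248) (l 16723112))) (a (b (l 16712288) (l 6)) (l 6)))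 (a (b (a (l 16733960) (l 6)) (l 6)) (l 6))))), by decide +kernel⟩

def k102_pp_012_a : ∃ t, chk3 f_pp_012_a t 31 15 1 = true :=
  ⟨(a (b (b (a (b (a (c (b (a (c (l 16767144) (l 16769832)) (l 16767552)) (a (b (a (a (b (l 16767344) (l 16769424)) (l 16767176)) (l 16766336)) (c (a (b (a (l 16768736) (l 16769600)) (l 6073338183)) (a (b (l 16767752) (l 18958238951)) (l 16767584))) (a (b (l 16769912) (l 16769232)) (l 16769904)))) (c (b (l 16764632) (l 16768816)) (l 16768088)))) (b (a (l 16767344) (l 16762400)) (a (b (c (l 16769664) (l 16769784)) (a (c (l 16770328) (l 16770456)) (l 16769416))) (l 16769184)))) (b (c (l 16764168) (l 16764120)) (a (c (l 16768416) (l 16768472)) (l 6)))) (a (b (b (a (a (l 3) (b (c (a (l 16770512) (a (l 14663272119) (l 16769968))) (l 16770504)) (c (l 15737014023) (l 16769800)))) (a (a (b (l 16769648) (a (b (l 14663272423) (l 3)) (l 6))) (c (l 16769384) (l 16768264))) (l 6))) (a (l 3) (l 6))) (a (l 3) (l 6))) (l 6))) (l 6)) (l 6)) (l 6)) (l 6)), by decide +kernel⟩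

theorem s103_pp_012_a : ∃ t, chk3 f_pp_012_a t 31 7 1 = true := ex3_b k101_pp_012_a k102_pp_012_a

theorem s104_pp_012_a : ∃ t, chk3 f_pp_012_a t 30 29 1 = true := ex3_a k98_pp_012_a k99_pp_012_a

theorem s105_pp_012_a : ∃ t, chk3 f_pp_012_a t 60 57 1 = true := ex3_a k95_pp_012_a k96_pp_012_a

theorem s106_pp_012_a : ∃ t, chk3 f_pp_012_a t 60 28 1 = true := ex3_b k94_pp_012_a s105_pp_012_a

theorem s107_pp_012_a : ∃ t, chk3 f_pp_012_a t 30 28 1 = true := ex3_a s106_pp_012_a k97_pp_012_a

theorem s108_pp_012_a : ∃ t, chk3 f_pp_012_a t 30 14 1 = true := ex3_b s107_pp_012_a s104_pp_012_a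

theorem s109_pp_012_a : ∃ t, chk3 f_pp_012_a t 30 7 1 = true := ex3_b s108_pp_012_a k100_pp_012_a

theorem s110_pp_012_a : ∃ t, chk3 f_pp_012_a t 15 7 1 = true := ex3_a s109_pp_012_a s103_pp_012_a

theorem s111_pp_012_a : ∃ t, chk3 f_pp_012_a t 60 13 1 = true := ex3_a k90_pp_012_a k91_pp_012_a

theorem s112_pp_012_a : ∃ t, chk3 f_pp_012_a t 30 13 1 = true := ex3_a s111_pp_012_a k92_pp_012_a

theorem s113_pp_012_a : ∃ t, chk3 f_pp_012_a t 30 6 1 = true := ex3_b k89_pp_012_a s112_pp_012_a

theorem s114_pp_012_a : ∃ t, chk3 f_pp_012_a t 15 6 1 = true := ex3_a s113_pp_012_a k93_pp_012_a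

theorem s115_pp_012_a : ∃ t, chk3 f_pp_012_a t 15 3 1 = true := ex3_b s114_pp_012_a s110_pp_012_a

theorem s116_pp_012_a : ∃ t, chk3 f_pp_012_a t 59 27 1 = true := ex3_a k86_pp_012_a k87_pp_012_a

theorem s117_pp_012_a : ∃ t, chk3 f_pp_012_a t 29 27 1 = true := ex3_a k85_pp_012_a s116_pp_012_a

theorem s118_pp_012_a : ∃ t, chk3 f_pp_012_a t 29 26 1 = true := ex3_b k83_pp_012_a k84_pp_012_a

theorem s119_pp_012_a : ∃ t, chk3 f_pp_012_a t 29 13 1 = true := ex3_b s118_pp_012_a s117_pp_012_a

theorem s120_pp_012_a : ∃ t, chk3 f_pp_012_a t 29 6 1 = true := ex3_b k82_pp_012_a s119_pp_012_a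

theorem s121_pp_012_a : ∃ t, chk3 f_pp_012_a t 114 52 1 = true := ex3_a k77_pp_012_a k78_pp_012_a

theorem s122_pp_012_a : ∃ t, chk3 f_pp_012_a t 57 52 1 = true := ex3_a s121_pp_012_a k79_pp_012_a

theorem s123_pp_012_a : ∃ t, chk3 f_pp_012_a t 57 26 1 = true := ex3_b s122_pp_012_a k80_pp_012_a

theorem s124_pp_012_a : ∃ t, chk3 f_pp_012_a t 57 13 1 = true := ex3_b s123_pp_012_a k81_pp_012_a

theorem s125_pp_012_a : ∃ t, chk3 f_pp_012_a t 114 25 1 = true := ex3_a k74_pp_012_a k75_pp_012_a

theorem s126_pp_012_a : ∃ t, chk3 f_pp_012_a t 57 25 1 = true := ex3_a s125_pp_012_a k76_pp_012_a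

theorem s127_pp_012_a : ∃ t, chk3 f_pp_012_a t 57 12 1 = true := ex3_b k73_pp_012_a s126_pp_012_a

theorem s128_pp_012_a : ∃ t, chk3 f_pp_012_a t 57 6 1 = true := ex3_b s127_pp_012_a s124_pp_012_a

theorem s129_pp_012_a : ∃ t, chk3 f_pp_012_a t 227 51 1 = true := ex3_b k70_pp_012_a k71_pp_012_a

theorem s130_pp_012_a : ∃ t, chk3 f_pp_012_a t 113 51 1 = true := ex3_a k69_pp_012_a s129_pp_012_a

theorem s131_pp_012_a : ∃ t, chk3 f_pp_012_a t 113 25 1 = true := ex3_b k68_pp_012_a s130_pp_012_a

theorem s132_pp_012_a : ∃ t, chk3 f_pp_012_a t 113 12 1 = true := ex3_b k67_pp_012_a s131_pp_012_a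

theorem s133_pp_012_a : ∃ t, chk3 f_pp_012_a t 112 12 1 = true := ex3_b k65_pp_012_a k66_pp_012_a

theorem s134_pp_012_a : ∃ t, chk3 f_pp_012_a t 56 12 1 = true := ex3_a s133_pp_012_a s132_pp_012_a

theorem s135_pp_012_a : ∃ t, chk3 f_pp_012_a t 56 6 1 = true := ex3_b s134_pp_012_a k72_pp_012_a

theorem s136_pp_012_a : ∃ t, chk3 f_pp_012_a t 28 6 1 = true := ex3_a s135_pp_012_a s128_pp_012_a

theorem s137_pp_012_a : ∃ t, chk3 f_pp_012_a t 14 6 1 = true := ex3_a s136_pp_012_a s120_pp_012_a

theorem s138_pp_012_a : ∃ t, chk3 f_pp_012_a t 14 3 1 = true := ex3_b s137_pp_012_a k88_pp_012_a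

theorem s139_pp_012_a : ∃ t, chk3 f_pp_012_a t 7 3 1 = true := ex3_a s138_pp_012_a s115_pp_012_a

theorem s140_pp_012_a : ∃ t, chk3 f_pp_012_a t 7 1 1 = true := ex3_b k64_pp_012_a s139_pp_012_a

theorem s141_pp_012_a : ∃ t, chk3 f_pp_012_a t 26 11 1 = true := ex3_b k60_pp_012_a k61_pp_012_a

theorem s142_pp_012_a : ∃ t, chk3 f_pp_012_a t 26 5 1 = true := ex3_b k59_pp_012_a s141_pp_012_a

theorem s143_pp_012_a : ∃ t, chk3 f_pp_012_a t 13 5 1 = true := ex3_a s142_pp_012_a k62_pp_012_a

theorem s144_pp_012_a : ∃ t, chk3 f_pp_012_a t 13 2 1 = true := ex3_b k58_pp_012_a s143_pp_012_a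

theorem s145_pp_012_a : ∃ t, chk3 f_pp_012_a t 201 41 1 = true := ex3_b k52_pp_012_a k53_pp_012_a

theorem s146_pp_012_a : ∃ t, chk3 f_pp_012_a t 201 20 1 = true := ex3_b k51_pp_012_a s145_pp_012_a

theorem s147_pp_012_a : ∃ t, chk3 f_pp_012_a t 200 41 1 = true := ex3_b k49_pp_012_a k50_pp_012_a

theorem s148_pp_012_a : ∃ t, chk3 f_pp_012_a t 200 20 1 = true := ex3_b k48_pp_012_a s147_pp_012_a

theorem s149_pp_012_a : ∃ t, chk3 f_pp_012_a t 100 20 1 = true := ex3_a s148_pp_012_a s146_pp_012_a

theorem s150_pp_012_a : ∃ t, chk3 f_pp_012_a t 50 20 1 = true := ex3_a s149_pp_012_a k54_pp_012_a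

theorem s151_pp_012_a : ∃ t, chk3 f_pp_012_a t 50 10 1 = true := ex3_b s150_pp_012_a k55_pp_012_a

theorem s152_pp_012_a : ∃ t, chk3 f_pp_012_a t 25 10 1 = true := ex3_a s151_pp_012_a k56_pp_012_a

theorem s153_pp_012_a : ∃ t, chk3 f_pp_012_a t 25 5 1 = true := ex3_b s152_pp_012_a k57_pp_012_a

theorem s154_pp_012_a : ∃ t, chk3 f_pp_012_a t 99 81 1 = true := ex3_b k43_pp_012_a k44_pp_012_a

theorem s155_pp_012_a : ∃ t, chk3 f_pp_012_a t 99 40 1 = true := ex3_b k42_pp_012_a s154_pp_012_a

theorem s156_pp_012_a : ∃ t, chk3 f_pp_012_a t 49 40 1 = true := ex3_a k41_pp_012_a s155_pp_012_a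

theorem s157_pp_012_a : ∃ t, chk3 f_pp_012_a t 49 20 1 = true := ex3_b s156_pp_012_a k45_pp_012_a

theorem s158_pp_012_a : ∃ t, chk3 f_pp_012_a t 49 10 1 = true := ex3_b s157_pp_012_a k46_pp_012_a

theorem s159_pp_012_a : ∃ t, chk3 f_pp_012_a t 24 10 1 = true := ex3_a k40_pp_012_a s158_pp_012_a

theorem s160_pp_012_a : ∃ t, chk3 f_pp_012_a t 24 5 1 = true := ex3_b s159_pp_012_a k47_pp_012_a

theorem s161_pp_012_a : ∃ t, chk3 f_pp_012_a t 12 5 1 = true := ex3_a s160_pp_012_a s153_pp_012_a

theorem s162_pp_012_a : ∃ t, chk3 f_pp_012_a t 48 19 1 = true := ex3_b k36_pp_012_a k37_pp_012_a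

theorem s163_pp_012_a : ∃ t, chk3 f_pp_012_a t 24 19 1 = true := ex3_a s162_pp_012_a k38_pp_012_a

theorem s164_pp_012_a : ∃ t, chk3 f_pp_012_a t 24 9 1 = true := ex3_b k35_pp_012_a s163_pp_012_a

theorem s165_pp_012_a : ∃ t, chk3 f_pp_012_a t 12 9 1 = true := ex3_a s164_pp_012_a k39_pp_012_a

theorem s166_pp_012_a : ∃ t, chk3 f_pp_012_a t 12 4 1 = true := ex3_b k34_pp_012_a s165_pp_012_a

theorem s167_pp_012_a : ∃ t, chk3 f_pp_012_a t 12 2 1 = true := ex3_b s166_pp_012_a s161_pp_012_a

theorem s168_pp_012_a : ∃ t, chk3 f_pp_012_a t 6 2 1 = true := ex3_a s167_pp_012_a s144_pp_012_a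

theorem s169_pp_012_a : ∃ t, chk3 f_pp_012_a t 6 1 1 = true := ex3_b s168_pp_012_a k63_pp_012_a

theorem s170_pp_012_a : ∃ t, chk3 f_pp_012_a t 3 1 1 = true := ex3_a s169_pp_012_a s140_pp_012_a

theorem s171_pp_012_a : ∃ t, chk3 f_pp_012_a t 47 37 1 = true := ex3_a k29_pp_012_a k30_pp_012_a

theorem s172_pp_012_a : ∃ t, chk3 f_pp_012_a t 47 18 1 = true := ex3_b k28_pp_012_a s171_pp_012_a

theorem s173_pp_012_a : ∃ t, chk3 f_pp_012_a t 93 36 1 = true := ex3_b k25_pp_012_a k26_pp_012_a

theorem s174_pp_012_a : ∃ t, chk3 f_pp_012_a t 46 36 1 = true := ex3_a k24_pp_012_a s173_pp_012_a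

theorem s175_pp_012_a : ∃ t, chk3 f_pp_012_a t 46 18 1 = true := ex3_b s174_pp_012_a k27_pp_012_a

theorem s176_pp_012_a : ∃ t, chk3 f_pp_012_a t 23 18 1 = true := ex3_a s175_pp_012_a s172_pp_012_a

theorem s177_pp_012_a : ∃ t, chk3 f_pp_012_a t 23 9 1 = true := ex3_b s176_pp_012_a k31_pp_012_a

theorem s178_pp_012_a : ∃ t, chk3 f_pp_012_a t 92 71 1 = true := ex3_a k20_pp_012_a k21_pp_012_a

theorem s179_pp_012_a : ∃ t, chk3 f_pp_012_a t 92 35 1 = true := ex3_b k19_pp_012_a s178_pp_012_a

theorem s180_pp_012_a : ∃ t, chk3 f_pp_012_a t 46 35 1 = true := ex3_a s179_pp_012_a k22_pp_012_a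

theorem s181_pp_012_a : ∃ t, chk3 f_pp_012_a t 46 17 1 = true := ex3_b k18_pp_012_a s180_pp_012_a

theorem s182_pp_012_a : ∃ t, chk3 f_pp_012_a t 46 8 1 = true := ex3_b k17_pp_012_a s181_pp_012_a

theorem s183_pp_012_a : ∃ t, chk3 f_pp_012_a t 23 8 1 = true := ex3_a s182_pp_012_a k23_pp_012_a

theorem s184_pp_012_a : ∃ t, chk3 f_pp_012_a t 23 4 1 = true := ex3_b s183_pp_012_a s177_pp_012_a

theorem s185_pp_012_a : ∃ t, chk3 f_pp_012_a t 182 70 1 = true := ex3_a k12_pp_012_a k13_pp_012_a

theorem s186_pp_012_a : ∃ t, chk3 f_pp_012_a t 91 70 1 = true := ex3_a s185_pp_012_a k14_pp_012_a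

theorem s187_pp_012_a : ∃ t, chk3 f_pp_012_a t 91 35 1 = true := ex3_b s186_pp_012_a k15_pp_012_a

theorem s188_pp_012_a : ∃ t, chk3 f_pp_012_a t 45 35 1 = true := ex3_a k11_pp_012_a s187_pp_012_a

theorem s189_pp_012_a : ∃ t, chk3 f_pp_012_a t 181 34 1 = true := ex3_a k8_pp_012_a k9_pp_012_a

theorem s190_pp_012_a : ∃ t, chk3 f_pp_012_a t 90 34 1 = true := ex3_a k7_pp_012_a s189_pp_012_a

theorem s191_pp_012_a : ∃ t, chk3 f_pp_012_a t 45 34 1 = true := ex3_a s190_pp_012_a k10_pp_012_a

theorem s192_pp_012_a : ∃ t, chk3 f_pp_012_a t 45 17 1 = true := ex3_b s191_pp_012_a s188_pp_012_a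

theorem s193_pp_012_a : ∃ t, chk3 f_pp_012_a t 22 17 1 = true := ex3_a k6_pp_012_a s192_pp_012_a

theorem s194_pp_012_a : ∃ t, chk3 f_pp_012_a t 44 33 1 = true := ex3_a k3_pp_012_a k4_pp_012_a

theorem s195_pp_012_a : ∃ t, chk3 f_pp_012_a t 44 16 1 = true := ex3_b k2_pp_012_a s194_pp_012_a

theorem s196_pp_012_a : ∃ t, chk3 f_pp_012_a t 22 16 1 = true := ex3_a s195_pp_012_a k5_pp_012_a

theorem s197_pp_012_a : ∃ t, chk3 f_pp_012_a t 22 8 1 = true := ex3_b s196_pp_012_a s193_pp_012_a

theorem s198_pp_012_a : ∃ t, chk3 f_pp_012_a t 22 4 1 = true := ex3_b s197_pp_012_a k16_pp_012_a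

theorem s199_pp_012_a : ∃ t, chk3 f_pp_012_a t 11 4 1 = true := ex3_a s198_pp_012_a s184_pp_012_a

theorem s200_pp_012_a : ∃ t, chk3 f_pp_012_a t 5 4 1 = true := ex3_a k1_pp_012_a s199_pp_012_a

theorem s201_pp_012_a : ∃ t, chk3 f_pp_012_a t 5 2 1 = true := ex3_b s200_pp_012_a k32_pp_012_a

theorem s202_pp_012_a : ∃ t, chk3 f_pp_012_a t 5 1 1 = true := ex3_b s201_pp_012_a k33_pp_012_a

theorem s203_pp_012_a : ∃ t, chk3 f_pp_012_a t 2 1 1 = true := ex3_a k0_pp_012_a s202_pp_012_a

theorem s204_pp_012_a : ∃ t, chk3 f_pp_012_a t 1 1 1 = true := ex3_a s203_pp_012_a s170_pp_012_a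

theorem c_pp_012_a : CertB 0 536870912 0 536870912 740881858 40050571 3 eng mog cd0q0 cd1q2a pd1 false true true .pnp 0 1 2
    ndB0q0 ndB1q2a pcB1 cut_pp_012_a Ext.none :=
  certB2 (fam := false) (s1 := true) (s2 := true) (a := 0) (b := 1) (c := 2) (cn := .pnp) (n1 := ndB0q0) (n2 := ndB1q2a) (pc := pcB1) (cut := cut_pp_012_a) (xt := Ext.none) (P1 := 0) (W1 := 536870912) (P2 := 0) (W2 := 536870912) (P3 := 740881858) (W3 := 40050571) (N0 := 3) (En := eng) (mo := mog) (C1 := cd0q0) (C2 := cd1q2a) (C3 := pd1)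
    rfl (fun _ => rfl) s204_pp_012_a

noncomputable def cut_pp_012_b : Cut := Cut.of [[⟨0, 0, 0, 67108864⟩, ⟨1, 1, 0, 67108864⟩, ⟨2, 1, 0, 67108864⟩]]

noncomputable def f_pp_012_b : ℕ → ℕ → ℕ → ℕ → Bool := onCell 536870912 536870912 1239849684 370763052 740881858 40050571
    (rowB 3 eng mog cd0q0 cd1q2b pd1 2 false true true .pnp 0 1 2 (qsf 0 536870912 1239849684 370763052 1) ndB0q0 ndB1q2b pcB1 cut_pp_012_b Ext.none)

def k0_pp_012_b : ∃ t, chk3 f_pp_012_b t 2 1 1 = true :=
  ⟨(b (a (l 2) (a (b (a (l 3) (b (a (l 3) (a (b (b (a (a (l 3) (a (l 3) (b (b (b (c (l 16769584) (l 16769784)) (l 115595005703)) (l 3)) (l 3)))) (b (b (c (l 16772112) (l 16772240)) (c (a (l 16765720) (l 16764008)) (l 16771512))) (a (c (l 82845871207) (l 16772896)) (l 16771472)))) (a (l 3) (a (l 3) (c (l 16764832) (l 16754320))))) (l 3)) (a (b (b (b (c (l 16762264) (l 16762256)) (l 16768792)) (b (l 16764824) (l 16771192))) (b (l 13052634215) (l 2))) (b (b (c (l 16767200) (l 16777488)) (c (l 16748888) (l 16748648))) (b (c (l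 16741240) (l 16740976)) (l 16733392)))))) (l 2))) (l 2)) (b (a (a (b (b (b (a (c (l 16761152) (l 16771856)) (c (l 16744200) (l 16743416))) (a (c (l 16764448) (l 16763872)) (l 16756808))) (b (a (c (l 16735928) (l 16735328)) (l 16727976)) (a (a (l 16730360) (l 16726584)) (l 16720592)))) (b (a (l 2) (b (l 16714008) (l 2))) (l 2))) (b (b (a (b (l 16757640) (l 16728488)) (b (l 16729568) (l 16721192))) (a (b (l 16720448) (l 16712840)) (l 16745704))) (b (b (l 16743760) (l 16716304)) (l 2)))) (b (a (b (b (l 16761016) (l 16710336)) (a (l 16701584) (l 16694072))) (b (b (l 16726248) (l 16696024)) (l 16703800))) (b (a (a (l 16686304) (l 16678336)) (l 16729224)) (a (l 16711144) (l 16651960))))) (b (a (l 2) (b (a (l 2) (l 16640096)) (l 2))) (l 2))))) (l 2)), by decide +kernel⟩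

def k1_pp_012_b : ∃ t, chk3 f_pp_012_b t 6 1 1 = true :=
  ⟨(b (a (b (a (b (b (a (b (l 16712712) (l 16681952)) (c (l 16696232) (l 16671200))) (a (l 16668000) (l 16653432))) (b (a (l 16650792) (l 16635248)) (a (l 16635192) (l 16618856)))) (b (b (a (l 16701712) (l 16687856)) (a (l 16639008) (l 16624256))) (b (a (l 16619784) (l 16604104)) (l 16636016)))) (a (b (b (a (l 16621928) (l 16604312)) (a (l 16611360) (l 16592504))) (l 2)) (b (b (l 16599112) (l 16648088)) (b (l 16616064) (l 16565488))))) (b (b (a (b (a (b (a (l 16640968) (l 16634056)) (l 16625896)) (b (l 16624248) (l 16612024))) (a (l 16609344) (l 16594904))) (b (a (b (l 16612152) (l 16598992)) (l 16636192)) (a (l 16601416) (l 16567032)))) (a (b (a (l 16588072) (l 16572560)) (a (l 16568456) (l 16551744))) (b (a (l 16557648) (l 16542696)) (l 16570472)))) (b (a (a (l 16542800) (l 16524160)) (a (l 16611632) (l 16489680))) (a (a (l 16537272) (l 16515584)) (a (l 16558064) (l 16455336)))))) (a (l 2) (b (a (b (b (l 16491128) (l 2)) (l 2)) (b (b (l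 16445832) (l 16437256)) (b (l 16430328) (l 2)))) (l 2)))), by decide +kernel⟩

def k2_pp_012_b : ∃ t, chk3 f_pp_012_b t 7 1 1 = true :=
  ⟨(b (b (a (b (a (b (a (l 16626752) (l 16597552)) (a (l 16554584) (l 16544184))) (b (l 16566480) (a (l 16534856) (l 16526928)))) (a (b (a (l 16528480) (l 16515080)) (a (l 16504848) (l 16490080))) (b (l 16603264) (l 16532832)))) (b (b (a (l 16555832) (a (l 16551552) (l 16538464))) (a (l 16516400) (l 16507776))) (a (a (l 16551880) (b (l 16477192) (l 16442440))) (a (l 16451648) (l 16445464))))) (a (b (a (b (l 16475440) (l 16454632)) (b (l 16444304) (l 16442344))) (a (b (l 16435704) (l 16418848)) (l 16474992))) (a (b (b (l 16416864) (l 16390856)) (b (l 16367512) (l 16346472))) (b (b (l 16395968) (l 16364824)) (b (l 16337512) (l 16313280)))))) (a (b (a (b (b (l 16404464) (l 16392848)) (b (l 16383816) (l 16377704))) (b (l 16357128) (l 16375584))) (b (a (l 2) (l 16343680)) (l 2))) (b (b (a (l 16318344) (b (l 16291536) (l 16272304))) (a (l 16288952) (l 16247136))) (b (a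 (l 16271464) (l 16328160)) (a (l 16267600) (l 16212424)))))), by decide +kernel⟩

theorem s3_pp_012_b : ∃ t, chk3 f_pp_012_b t 3 1 1 = true := ex3_a k1_pp_012_b k2_pp_012_b

theorem s4_pp_012_b : ∃ t, chk3 f_pp_012_b t 1 1 1 = true := ex3_a k0_pp_012_b s3_pp_012_b

theorem c_pp_012_b : CertB 0 536870912 1239849684 370763052 740881858 40050571 3 eng mog cd0q0 cd1q2b pd1 false true true .pnp 0 1 2
    ndB0q0 ndB1q2b pcB1 cut_pp_012_b Ext.none :=
  certB2 (fam := false) (s1 := true) (s2 := true) (a := 0) (b := 1) (c := 2) (cn := .pnp) (n1 := ndB0q0) (n2 := ndB1q2b) (pc := pcB1) (cut := cut_pp_012_b) (xt := Ext.none) (P1 := 0) (W1 := 536870912) (P2 := 1239849684) (W2 := 370763052) (P3 := 740881858) (W3 := 40050571) (N0 := 3) (En := eng) (mo := mog) (C1 := cd0q0) (C2 := cd1q2b) (C3 := pd1)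
    rfl (fun _ => rfl) s4_pp_012_b

noncomputable def cut_pp_022_a : Cut := Cut.of [[⟨0, 0, 0, 67108864⟩, ⟨1, 1, 0, 67108864⟩, ⟨2, 1, 0, 67108864⟩]]

noncomputable def f_pp_022_a : ℕ → ℕ → ℕ → ℕ → Bool := onCell 1073741824 536870912 0 536870912 740881858 40050571
    (rowB 3 eng mog cd0q0 cd1q2a pd2 2 false true true .pp 0 2 2 (qsf 0 536870912 0 536870912 2) ndB0q0 ndB1q2a pcB2 cut_pp_022_a Ext.none)

def k0_pp_022_a : ∃ t, chk3 f_pp_022_a t 8 2 1 = true :=
  ⟨(b (a (b (a (l 16515744) (l 16506560)) (a (a (l 16511536) (l 16497672)) (b (l 16499888) (l 16533216)))) (a (b (l 16451624) (l 16514536)) (a (l 16571832) (l 16584256)))) (a (b (a (a (c (l 16565912) (l 16513888)) (b (l 16517792) (l 16533432))) (a (b (l 16523688) (l 16539168)) (l 16536576))) (a (b (a (l 16543680) (l 16550192)) (a (c (l 16565504) (l 16557208)) (l 16588640))) (b (l 16579184) (a (l 16573032) (l 16577616))))) (a (b (l 16563352) (b (l 16566000) (l 16582640))) (b (l 16558896) (a (l 16560896) (l 16549888)))))), by decide +kernel⟩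

def k1_pp_022_a : ∃ t, chk3 f_pp_022_a t 8 3 1 = true :=
  ⟨(b (a (b (b (a (a (l 16605552) (l 16589896)) (a (l 16594440) (l 16598320))) (a (a (b (l 16603400) (l 16615136)) (l 16635040)) (l 16641056))) (a (b (a (b (l 16626544) (l 16637536)) (b (l 16630960) (l 16641872))) (a (b (l 16669128) (l 16679344)) (b (l 16652448) (l 16662720)))) (b (a (l 16640392) (l 16639528)) (a (l 16661608) (l 16656328))))) (b (a (b (l 16594216) (l 16605600)) (b (a (l 16576344) (l 16521840)) (a (l 16585936) (l 16572256)))) (a (b (b (l 16615400) (l 16601416)) (a (l 16599352) (l 16615344))) (b (a (l 16597336) (l 16624336)) (a (l 16641392) (b (l 16590648) (a (l 16600760) (l 16592312)))))))) (a (b (b (a (a (b (b (l 16665760) (a (l 16669384) (l 16671704))) (b (a (c (l 16677280) (l 16672760)) (l 16677392)) (l 6))) (b (l 16672592) (b (l 16680672) (l 6)))) (b (a (l 16676512) (l 16669992)) (a (l 16688288) (l 16677376)))) (l 6)) (l 6)) (b (a (b (b (a (l 16653816) (l 16637208)) (b (a (l 16659440) (l 16642232)) (l 6))) (l 6)) (b (a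 (b (l 16620184) (b (l 16624616) (l 6))) (b (a (l 16607152) (c (l 16601080) (l 16595536))) (a (b (l 16611136) (l 6)) (c (b (l 16604912) (l 16605680)) (l 68215822967))))) (a (l 6) (a (l 6) (l 1))))) (a (l 6) (l 1))))), by decide +kernel⟩

def k2_pp_022_a : ∃ t, chk3 f_pp_022_a t 9 2 1 = true :=
  ⟨(b (a (b (a (l 16501272) (l 16488136)) (a (l 16508568) (l 16491384))) (a (b (l 16451608) (c (l 16479640) (a (l 16470688) (l 16459600)))) (b (c (l 16460752) (l 16432360)) (c (a (l 16463960) (l 16450424)) (l 16459560))))) (a (c (b (a (l 16520864) (l 16502984)) (a (l 16524536) (b (l 16510232) (l 16515888)))) (b (a (l 16516096) (l 16429968)) (a (a (l 16536456) (l 16523120)) (b (l 16499488) (l 16504872))))) (a (b (a (b (l 16480400) (l 16483176)) (c (l 16478656) (l 16461384))) (a (b (l 16486496) (l 16490264)) (b (l 16515456) (c (l 16485112) (l 16466352))))) (b (c (b (l 16456064) (l 16497776)) (b (l 16436688) (a (l 16445312) (l 16426544)))) (a (b (c (l 16465576) (l 16445736)) (c (l 16466616) (l 16446392))) (b (c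 (l 16445824) (l 16425200)) (c (l 100964635783) (a (l 16429592) (l 16418200))))))))), by decide +kernel⟩

def k3_pp_022_a : ∃ t, chk3 f_pp_022_a t 9 3 1 = true :=
  ⟨(b (a (b (a (b (a (l 16571672) (l 16537144)) (a (l 16557800) (l 16542632))) (a (b (l 16523152) (l 16527120)) (b (l 16550672) (b (l 16510512) (l 16511960))))) (a (b (a (b (l 16564072) (l 16568568)) (b (l 16547512) (l 16551008))) (a (b (a (l 16577912) (l 16568672)) (a (l 16583168) (l 16573352))) (b (a (l 16559360) (l 16549992)) (a (l 113849799479) (l 109554814631))))) (b (a (b (l 16530648) (l 16533176)) (b (l 84858630647) (c (l 16522640) (l 16507112)))) (a (b (a (l 16540560) (l 16531072)) (l 1)) (l 1))))) (b (a (b (a (c (l 16501608) (l 16485608)) (c (l 16508720) (b (l 16468312) (l 16468960)))) (c (a (l 16503416) (l 176663539735)) (a (l 111165257383) (b (l 16468056) (l 127808210823))))) (b (a (c (l 99890962903) (b (l 16446976) (l 16446912))) (c (l 245382925031) (b (l 16422896) (l 1)))) (l 1))) (a (a (b (b (l 104185941431) (l 1)) (l 1))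 (l 1)) (l 1)))) (a (b (b (a (b (c (a (a (l 112776097719) (l 111702334407)) (l 64457669719)) (a (a (l 16585352) (l 16574160)) (l 56941455447))) (a (a (c (b (l 16595408) (l 1)) (l 16588520)) (l 1)) (l 1))) (l 1)) (l 1)) (l 1)) (l 1))), by decide +kernel⟩

def k4_pp_022_a : ∃ t, chk3 f_pp_022_a t 5 1 1 = true :=
  ⟨(b (a (b (a (b (a (c (b (l 16441016) (l 16435808)) (l 16416824)) (a (b (l 16412824) (l 16405640)) (b (l 16442104) (l 224981824535)))) (a (a (b (l 16428144) (l 16424640)) (b (l 16413704) (l 16408712))) (a (b (l 16398880) (c (l 16403816) (l 16379984))) (b (a (l 16387528) (l 637835514967)) (a (l 16427016) (l 1)))))) (b (l 1) (l 1))) (a (a (b (b (a (l 16442384) (c (l 16414656) (l 16392248))) (a (c (l 16428600) (l 16407248)) (c (l 227129234327) (l 190085087927)))) (a (b (c (l 176126532055) (l 186863899047)) (c (l 230350484599) (l 182568924231))) (b (c (l 215854931559) (l 173978949511)) (l 1)))) (b (a (b (c (l 258804631927) (l 189548234967)) (c (l 250751553159) (l 248604021351))) (l 1)) (l 1)))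 (l 1))) (l 1)) (b (l 1) (l 1))), by decide +kernel⟩

def k5_pp_022_a : ∃ t, chk3 f_pp_022_a t 3 1 1 = true :=
  ⟨(l 1), by decide +kernel⟩

theorem s6_pp_022_a : ∃ t, chk3 f_pp_022_a t 9 1 1 = true := ex3_b k2_pp_022_a k3_pp_022_a

theorem s7_pp_022_a : ∃ t, chk3 f_pp_022_a t 8 1 1 = true := ex3_b k0_pp_022_a k1_pp_022_a

theorem s8_pp_022_a : ∃ t, chk3 f_pp_022_a t 4 1 1 = true := ex3_a s7_pp_022_a s6_pp_022_a

theorem s9_pp_022_a : ∃ t, chk3 f_pp_022_a t 2 1 1 = true := ex3_a s8_pp_022_a k4_pp_022_a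

theorem s10_pp_022_a : ∃ t, chk3 f_pp_022_a t 1 1 1 = true := ex3_a s9_pp_022_a k5_pp_022_a

theorem c_pp_022_a : CertB 0 536870912 0 536870912 740881858 40050571 3 eng mog cd0q0 cd1q2a pd2 false true true .pp 0 2 2
    ndB0q0 ndB1q2a pcB2 cut_pp_022_a Ext.none :=
  certB2 (fam := false) (s1 := true) (s2 := true) (a := 0) (b := 2) (c := 2) (cn := .pp) (n1 := ndB0q0) (n2 := ndB1q2a) (pc := pcB2) (cut := cut_pp_022_a) (xt := Ext.none) (P1 := 0) (W1 := 536870912) (P2 := 0) (W2 := 536870912) (P3 := 740881858) (W3 := 40050571) (N0 := 3) (En := eng) (mo := mog) (C1 := cd0q0) (C2 := cd1q2a) (C3 := pd2)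
    rfl (fun _ => rfl) s10_pp_022_a

noncomputable def cut_pp_022_b : Cut := Cut.of [[⟨0, 0, 0, 67108864⟩, ⟨1, 1, 0, 67108864⟩, ⟨2, 1, 0, 67108864⟩]]

noncomputable def f_pp_022_b : ℕ → ℕ → ℕ → ℕ → Bool := onCell 0 536870912 1073741824 536870912 740881858 40050571
    (rowB 3 eng mog cd0q0 cd1q2b pd2 1 false true true .pp 0 2 2 (qsf 0 536870912 1239849684 370763052 2) ndB0q0 ndB1q2b pcB2 cut_pp_022_b Ext.none)

def k0_pp_022_b : ∃ t, chk3 f_pp_022_b t 2 2 1 = true :=
  ⟨(a (b (a (b (l 1) (a (b (l 1) (b (l 1) (c (l 231424284631) (l 210486288199)))) (b (b (l 1) (l 111165344103)) (b (a (l 16486440) (l 16471696)) (l 16467160))))) (a (b (b (l 1) (b (l 1) (l 16536816))) (b (b (l 16506312) (l 16475800)) (c (l 16423960) (l 16425320)))) (b (b (b (l 1) (l 16527720)) (a (l 16554536) (l 16511152))) (b (l 16492920) (l 16417432))))) (b (a (a (c (b (b (l 255583430391) (a (b (l 16429936) (l 16412952)) (l 16407984))) (b (l 16374192) (l 16331360))) (b (b (l 16467392) (a (l 16395768) (l 16386352))) (l 16347720)))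 (b (b (l 16411640) (l 16378064)) (l 16298952))) (b (c (l 16471392) (l 16429032)) (a (l 16295152) (l 16268784)))) (a (a (b (l 16341352) (l 16183536)) (b (l 16245272) (l 16179072))) (a (l 16198832) (l 16185272))))) (b (a (b (b (a (a (a (l 16676124375) (l 16562584)) (a (l 16544320) (l 16484296))) (b (l 16430880) (l 16388976))) (a (b (l 16474584) (l 16449808)) (l 16482648))) (b (a (l 16390912) (l 16354480)) (a (l 16320272) (l 16352912)))) (b (b (a (b (l 16346616) (l 16328480)) (l 16283296)) (a (l 16363440) (l 16251272))) (b (a (l 16261856) (l 16217672)) (a (l 16224056) (l 16185024))))) (a (b (b (a (l 16278080) (l 16233416)) (l 16353416)) (a (l 16176248) (l 16168880))) (b (b (a (l 16236536) (l 16161200)) (l 16163376)) (l 16144856))))), by decide +kernel⟩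

def k1_pp_022_b : ∃ t, chk3 f_pp_022_b t 3 2 1 = true :=
  ⟨(a (b (b (a (b (a (l 16234400) (l 16192120)) (a (l 16207552) (l 16170184))) (b (a (l 16157440) (l 16128104)) (a (l 16139272) (l 16113184)))) (a (b (l 16350984) (l 16242320)) (b (l 16275560) (l 16154168)))) (b (a (b (l 16227176) (l 16120224)) (b (l 16106456) (l 16092600))) (a (l 16122392) (l 16110280)))) (b (a (b (b (a (l 16103080) (l 16083536)) (l 16146464)) (b (l 16073080) (l 16064360))) (b (b (a (l 16070528) (l 16065320)) (l 16067648)) (b (l 16066880) (l 2)))) (a (b (b (l 16067752) (l 2)) (l 2)) (l 2)))), by decide +kernel⟩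

def k2_pp_022_b : ∃ t, chk3 f_pp_022_b t 1 3 1 = true :=
  ⟨(a (b (a (a (b (a (b (l 16118384) (l 16061784)) (l 16095216)) (a (l 15992384) (l 16010960))) (b (a (l 16097608) (l 16099104)) (l 16033032))) (a (b (l 16110368) (l 16071816)) (b (l 16116968) (l 16108112)))) (a (b (a (l 15942152) (l 15994456)) (a (l 15909472) (l 15978104))) (a (b (l 16055456) (l 2)) (l 2)))) (a (b (a (l 16105424) (l 2)) (l 2)) (l 2))), by decide +kernel⟩

theorem s3_pp_022_b : ∃ t, chk3 f_pp_022_b t 1 2 1 = true := ex3_a k0_pp_022_b k1_pp_022_b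

theorem s4_pp_022_b : ∃ t, chk3 f_pp_022_b t 1 1 1 = true := ex3_b s3_pp_022_b k2_pp_022_b

theorem c_pp_022_b : CertB 0 536870912 1239849684 370763052 740881858 40050571 3 eng mog cd0q0 cd1q2b pd2 false true true .pp 0 2 2
    ndB0q0 ndB1q2b pcB2 cut_pp_022_b Ext.none :=
  certB1 (fam := false) (s1 := true) (s2 := true) (a := 0) (b := 2) (c := 2) (cn := .pp) (n1 := ndB0q0) (n2 := ndB1q2b) (pc := pcB2) (cut := cut_pp_022_b) (xt := Ext.none) (P1 := 0) (W1 := 536870912) (P2 := 1239849684) (W2 := 370763052) (P3 := 740881858) (W3 := 40050571) (N0 := 3) (En := eng) (mo := mog) (C1 := cd0q0) (C2 := cd1q2b) (C3 := pd2)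
    rfl (fun _ => rfl) s4_pp_022_b

noncomputable def f_pp_023 : ℕ → ℕ → ℕ → ℕ → Bool := onCell 0 536870912 1073741824 536870912 740881858 40050571
    (rowB 3 eng mog cd0q0 cd1q3 pd2 1 false true true .up 0 2 3 (qsf 0 536870912 1610612736 536870912 2) ndB0q0 ndB1q3 pcB2 Cut.none Ext.none)

def k0_pp_023 : ∃ t, chk3 f_pp_023 t 1 1 1 = true :=
  ⟨(b (a (a (l 1) (b (l 1) (a (l 1) (b (l 1) (l 16145240))))) (a (b (b (l 1) (a (l 1) (c (l 218002301799) (l 245919568919)))) (b (a (l 357051496839) (b (l 16085768) (l 16095080))) (a (l 16125432) (l 16118760)))) (b (a (b (l 242698332135) (b (l 16074688) (l 16067688))) (a (b (l 262562299767) (l 16071896)) (b (l 275984066487) (l 16083920)))) (a (b (b (l 16073488) (l 16092480)) (l 16131072)) (b (b (l 16097024) (l 16127144)) (l 16182208)))))) (a (b (a (a (l 1) (l 373157450391)) (a (l 197600955015) (l 16249968))) (a (b (a (l 15942168) (l 15992312)) (a (l 15904608) (l 15968736))) (a (b (l 16048080) (l 16039528)) (b (l 16098472) (l 16107168))))) (a (b (a (l 16091952)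 (l 16130136)) (b (l 16112128) (l 16243792))) (b (a (l 16179544) (l 16294608)) (a (l 16379504) (l 16480352)))))), by decide +kernel⟩

theorem c_pp_023 : CertB 0 536870912 1610612736 536870912 740881858 40050571 3 eng mog cd0q0 cd1q3 pd2 false true true .up 0 2 3
    ndB0q0 ndB1q3 pcB2 Cut.none Ext.none :=
  certB1 (fam := false) (s1 := true) (s2 := true) (a := 0) (b := 2) (c := 3) (cn := .up) (n1 := ndB0q0) (n2 := ndB1q3) (pc := pcB2) (cut := Cut.none) (xt := Ext.none) (P1 := 0) (W1 := 536870912) (P2 := 1610612736) (W2 := 536870912) (P3 := 740881858) (W3 := 40050571) (N0 := 3) (En := eng) (mo := mog) (C1 := cd0q0) (C2 := cd1q3) (C3 := pd2)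
    rfl (fun _ => rfl) k0_pp_023

noncomputable def f_pp_033 : ℕ → ℕ → ℕ → ℕ → Bool := onCell 1610612736 536870912 1610612736 536870912 740881858 40050571
    (rowB 3 eng mog cd0q0 cd1q3 pd3 2 false true true .pnn 0 3 3 (qsf 0 536870912 1610612736 536870912 3) ndB0q0 ndB1q3 pcB3 Cut.none Ext.none)

def k0_pp_033 : ∃ t, chk3 f_pp_033 t 1 1 1 = true :=
  ⟨(a (b (a (b (a (b (l 435971177207) (l 15916592)) (b (l 487510435959) (l 15808528))) (a (b (l 16057440) (l 16062512)) (b (l 15894904) (l 15975304)))) (a (b (b (l 1) (l 508985411975)) (b (l 15821752) (l 15915384))) (b (l 1) (a (l 15837248) (l 4))))) (a (b (a (b (l 16202880) (l 16327424)) (b (l 16104000) (l 16265616))) (a (b (l 16436200) (l 16517632)) (b (l 16373928) (l 16322936)))) (a (b (b (l 16051800) (l 16099912)) (b (l 16307544) (a (l 16440144) (l 16417264)))) (l 4)))) (a (l 4) (l 4))), by decide +kernel⟩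

theorem c_pp_033 : CertB 0 536870912 1610612736 536870912 740881858 40050571 3 eng mog cd0q0 cd1q3 pd3 false true true .pnn 0 3 3
    ndB0q0 ndB1q3 pcB3 Cut.none Ext.none :=
  certB2 (fam := false) (s1 := true) (s2 := true) (a := 0) (b := 3) (c := 3) (cn := .pnn) (n1 := ndB0q0) (n2 := ndB1q3) (pc := pcB3) (cut := Cut.none) (xt := Ext.none) (P1 := 0) (W1 := 536870912) (P2 := 1610612736) (W2 := 536870912) (P3 := 740881858) (W3 := 40050571) (N0 := 3) (En := eng) (mo := mog) (C1 := cd0q0) (C2 := cd1q3) (C3 := pd3)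
    rfl (fun _ => rfl) k0_pp_033

noncomputable def f_pp_101 : ℕ → ℕ → ℕ → ℕ → Bool := onCell 536870912 536870912 536870912 536870912 740881858 40050571
    (rowB 3 eng mog cd0q1 cd1q1 pd0 0 false true true .npn 1 0 1 (qsf 536870912 536870912 536870912 536870912 0) ndB0q1 ndB1q1 pcB0 Cut.none Ext.none)

def k0_pp_101 : ∃ t, chk3 f_pp_101 t 1 1 1 = true :=
  ⟨(l 3), by decide +kernel⟩

theorem c_pp_101 : CertB 536870912 536870912 536870912 536870912 740881858 40050571 3 eng mog cd0q1 cd1q1 pd0 false true true .npn 1 0 1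
    ndB0q1 ndB1q1 pcB0 Cut.none Ext.none :=
  certB0 (fam := false) (s1 := true) (s2 := true) (a := 1) (b := 0) (c := 1) (cn := .npn) (n1 := ndB0q1) (n2 := ndB1q1) (pc := pcB0) (cut := Cut.none) (xt := Ext.none) (P1 := 536870912) (W1 := 536870912) (P2 := 536870912) (W2 := 536870912) (P3 := 740881858) (W3 := 40050571) (N0 := 3) (En := eng) (mo := mog) (C1 := cd0q1) (C2 := cd1q1) (C3 := pd0)
    rfl k0_pp_101

noncomputable def f_pp_102_a : ℕ → ℕ → ℕ → ℕ → Bool := onCell 0 536870912 0 536870912 740881858 40050571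
    (rowB 3 eng mog cd0q1 cd1q2a pd0 2 false true true .npp 1 0 2 (qsf 536870912 536870912 0 536870912 0) ndB0q1 ndB1q2a pcB0 Cut.none Ext.none)

def k0_pp_102_a : ∃ t, chk3 f_pp_102_a t 1 1 1 = true :=
  ⟨(a (b (l 3) (l 3)) (l 3)), by decide +kernel⟩

theorem c_pp_102_a : CertB 536870912 536870912 0 536870912 740881858 40050571 3 eng mog cd0q1 cd1q2a pd0 false true true .npp 1 0 2
    ndB0q1 ndB1q2a pcB0 Cut.none Ext.none :=
  certB2 (fam := false) (s1 := true) (s2 := true) (a := 1) (b := 0) (c := 2) (cn := .npp) (n1 := ndB0q1) (n2 := ndB1q2a) (pc := pcB0) (cut := Cut.none) (xt := Ext.none) (P1 := 536870912) (W1 := 536870912) (P2 := 0) (W2 := 536870912) (P3 := 740881858) (W3 := 40050571) (N0 := 3) (En := eng) (mo := mog) (C1 := cd0q1) (C2 := cd1q2a) (C3 := pd0)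
    rfl (fun _ => rfl) k0_pp_102_a

noncomputable def f_pp_102_b : ℕ → ℕ → ℕ → ℕ → Bool := onCell 536870912 536870912 0 536870912 740881858 40050571
    (rowB 3 eng mog cd0q1 cd1q2b pd0 1 false true true .npp 1 0 2 (qsf 536870912 536870912 1239849684 370763052 0) ndB0q1 ndB1q2b pcB0 Cut.none Ext.none)

def k0_pp_102_b : ∃ t, chk3 f_pp_102_b t 1 1 1 = true :=
  ⟨(l 3), by decide +kernel⟩

theorem c_pp_102_b : CertB 536870912 536870912 1239849684 370763052 740881858 40050571 3 eng mog cd0q1 cd1q2b pd0 false true true .npp 1 0 2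
    ndB0q1 ndB1q2b pcB0 Cut.none Ext.none :=
  certB1 (fam := false) (s1 := true) (s2 := true) (a := 1) (b := 0) (c := 2) (cn := .npp) (n1 := ndB0q1) (n2 := ndB1q2b) (pc := pcB0) (cut := Cut.none) (xt := Ext.none) (P1 := 536870912) (W1 := 536870912) (P2 := 1239849684) (W2 := 370763052) (P3 := 740881858) (W3 := 40050571) (N0 := 3) (En := eng) (mo := mog) (C1 := cd0q1) (C2 := cd1q2b) (C3 := pd0)
    rfl (fun _ => rfl) k0_pp_102_b

noncomputable def f_pp_112_a : ℕ → ℕ → ℕ → ℕ → Bool := onCell 536870912 536870912 0 536870912 740881858 40050571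
    (rowB 3 eng mog cd0q1 cd1q2a pd1 0 false true true .dn 1 1 2 (qsf 536870912 536870912 0 536870912 1) ndB0q1 ndB1q2a pcB1 Cut.none Ext.none)

def k0_pp_112_a : ∃ t, chk3 f_pp_112_a t 1 1 1 = true :=
  ⟨(a (a (b (l 3) (l 3)) (l 3)) (l 1)), by decide +kernel⟩

theorem c_pp_112_a : CertB 536870912 536870912 0 536870912 740881858 40050571 3 eng mog cd0q1 cd1q2a pd1 false true true .dn 1 1 2
    ndB0q1 ndB1q2a pcB1 Cut.none Ext.none :=
  certB0 (fam := false) (s1 := true) (s2 := true) (a := 1) (b := 1) (c := 2) (cn := .dn) (n1 := ndB0q1) (n2 := ndB1q2a) (pc := pcB1) (cut := Cut.none) (xt := Ext.none) (P1 := 536870912) (W1 := 536870912) (P2 := 0) (W2 := 536870912) (P3 := 740881858) (W3 := 40050571) (N0 := 3) (En := eng) (mo := mog) (C1 := cd0q1) (C2 := cd1q2a) (C3 := pd1)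
    rfl k0_pp_112_a

noncomputable def f_pp_112_b : ℕ → ℕ → ℕ → ℕ → Bool := onCell 536870912 536870912 536870912 536870912 740881858 40050571
    (rowB 3 eng mog cd0q1 cd1q2b pd1 1 false true true .dn 1 1 2 (qsf 536870912 536870912 1239849684 370763052 1) ndB0q1 ndB1q2b pcB1 Cut.none Ext.none)

def k0_pp_112_b : ∃ t, chk3 f_pp_112_b t 1 1 1 = true :=
  ⟨(b (a (b (l 3) (a (b (a (b (l 3) (b (l 3) (a (b (l 3) (a (b (l 3) (l 37211823159)) (l 3))) (l 3)))) (l 3)) (a (b (a (b (a (b (a (l 16726760) (l 16721840)) (l 16711936)) (b (l 3) (l 16703368))) (a (l 16713640) (l 16685056))) (b (l 3) (a (l 16677784) (l 16670400)))) (a (b (a (l 16666904) (l 16659640)) (l 16637288)) (b (l 16650544) (l 16625616)))) (b (l 3) (a (b (l 16639720) (l 16617776)) (l 70497714951))))) (l 3))) (l 3)) (a (b (a (b (a (b (a (l 16640208) (l 16587944)) (a (l 16545816) (l 16537584))) (b (a (l 16582168) (l 16601920)) (l 16598216))) (a (b (a (l 16489256) (l 16482712)) (a (l 16431784) (l 16426568))) (b (l 16484248) (l 16431336)))) (b (a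 (b (a (l 123647887799) (l 123647897623)) (a (l 16546480) (l 72108297895))) (b (l 3) (a (l 164986978823) (l 3)))) (a (b (a (l 16501744) (l 16525248)) (l 50029324087)) (b (a (l 16559496) (l 2)) (l 2))))) (a (b (a (b (a (l 16377048) (l 16374008)) (l 16321864)) (b (l 16381896) (l 16336768))) (a (l 16388184) (l 16269968))) (b (a (b (l 64524753383) (l 2)) (l 2)) (l 2)))) (b (b (l 3) (l 2)) (l 2)))), by decide +kernel⟩

theorem c_pp_112_b : CertB 536870912 536870912 1239849684 370763052 740881858 40050571 3 eng mog cd0q1 cd1q2b pd1 false true true .dn 1 1 2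
    ndB0q1 ndB1q2b pcB1 Cut.none Ext.none :=
  certB1 (fam := false) (s1 := true) (s2 := true) (a := 1) (b := 1) (c := 2) (cn := .dn) (n1 := ndB0q1) (n2 := ndB1q2b) (pc := pcB1) (cut := Cut.none) (xt := Ext.none) (P1 := 536870912) (W1 := 536870912) (P2 := 1239849684) (W2 := 370763052) (P3 := 740881858) (W3 := 40050571) (N0 := 3) (En := eng) (mo := mog) (C1 := cd0q1) (C2 := cd1q2b) (C3 := pd1)
    rfl (fun _ => rfl) k0_pp_112_b

end Pool.Agent.Strip051.G.I69_7273.Tab.C.BB01

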