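import Pool.Agent.Strip051.G.I69_7273.Tab

/-! # Certificates B14 (generated) -/

set_option linter.all false
set_option maxRecDepth 100000

namespace Pool.Agent.Strip051.G.I69_7273.Tab.C.BB01

open Pool.Agent.Strip051.PB Pool.Agent.Strip051.PB.T
open Pool.Agent.Strip051.G.I69_7273.Tab

noncomputable def cut_pp_113 : Cut := Cut.of [[⟨0, 1, 0, 67108864⟩, ⟨1, 1, 0, 67108864⟩, ⟨2, 2, 0, 16777216⟩]]

noncomputable def f_pp_113 : ℕ → ℕ → ℕ → ℕ → Bool := onCell 536870912 536870912 536870912 536870912 740881858 40050571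
    (rowB 3 eng mog cd0q1 cd1q3 pd1 1 false true true .nn 1 1 3 (qsf 536870912 536870912 1610612736 536870912 1) ndB0q1 ndB1q3 pcB1 cut_pp_113 Ext.none)

def k0_pp_113 : ∃ t, chk3 f_pp_113 t 1 2 1 = true :=
  ⟨(a (a (l 1) (l 3)) (l 3)), by decide +kernel⟩

def k1_pp_113 : ∃ t, chk3 f_pp_113 t 2 3 1 = true :=
  ⟨(b (a (b (l 1) (a (l 1) (b (l 1) (l 16439856)))) (b (a (b (l 1) (a (l 1) (l 206191819255))) (b (l 3) (a (l 166060724967) (l 3)))) (a (b (a (l 16511896) (l 16537904)) (a (l 16468960) (l 16502816))) (b (a (l 16573336) (l 16638064)) (a (l 16550320) (l 16611872)))))) (a (b (a (b (l 1) (l 16328440)) (b (l 16393928) (l 16352320))) (a (l 16335048) (l 16290704))) (b (a (b (l 16575424) (l 16422352)) (b (a (l 16532040) (l 16611280)) (b (l 16566416) (l 16567616)))) (a (b (l 16397408) (l 16374408)) (b (l 16577832) (l 16589624)))))), by decide +kernel⟩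

def k2_pp_113 : ∃ t, chk3 f_pp_113 t 3 3 1 = true :=
  ⟨(b (a (b (l 3) (a (b (a (l 121500623463) (l 3)) (a (l 16688512) (l 127943124375))) (l 3))) (l 3)) (a (b (a (b (a (l 16712840) (a (l 16805216) (l 16830880))) (a (l 16725600) (l 16761928))) (b (a (b (l 197199482695) (l 16833320)) (b (l 3) (l 117205917159))) (a (c (l 16807640) (l 16779840)) (b (l 161229075671) (l 16835864))))) (a (a (b (l 16688048) (l 16660208)) (b (l 16720040) (l 16687736))) (b (a (l 16756488) (l 16797456)) (a (l 16720312) (l 16756336))))) (b (a (b (l 3) (a (b (l 256792215671) (a (l 16865912) (l 93583606951))) (b (l 3) (l 3)))) (l 3)) (a (a (b (b (a (l 16835928) (l 16854304)) (l 16820192)) (b (l 16796704) (l 16774896))) (b (b (a (l 94657291831) (l 321216789447)) (a (l 16845264) (l 16859112))) (b (l 16825616) (l 16737280)))) (b (a (b (l 3) (a (b (l 423759107639) (l 214379378295)) (l 512879610823))) (l 3)) (a (b (a (l 16834624) (b (a (l 16842264) (l 448991973687)) (l 153712929655))) (a (l 16806632)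 (l 16804024))) (a (b (b (l 3) (a (l 290078090759) (l 568714127111))) (b (a (l 16808528) (b (l 339470201943) (l 16802904))) (l 16792640))) (b (l 3) (a (b (a (b (l 3) (l 273971946471)) (l 614884992839)) (b (a (l 16793520) (b (l 356113191511) (l 16790448))) (l 16785256))) (b (l 3) (b (b (l 3) (l 6)) (l 6)))))))))))), by decide +kernel⟩

theorem s3_pp_113 : ∃ t, chk3 f_pp_113 t 1 3 1 = true := ex3_a k1_pp_113 k2_pp_113

theorem s4_pp_113 : ∃ t, chk3 f_pp_113 t 1 1 1 = true := ex3_b k0_pp_113 s3_pp_113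

theorem c_pp_113 : CertB 536870912 536870912 1610612736 536870912 740881858 40050571 3 eng mog cd0q1 cd1q3 pd1 false true true .nn 1 1 3
    ndB0q1 ndB1q3 pcB1 cut_pp_113 Ext.none :=
  certB1 (fam := false) (s1 := true) (s2 := true) (a := 1) (b := 1) (c := 3) (cn := .nn) (n1 := ndB0q1) (n2 := ndB1q3) (pc := pcB1) (cut := cut_pp_113) (xt := Ext.none) (P1 := 536870912) (W1 := 536870912) (P2 := 1610612736) (W2 := 536870912) (P3 := 740881858) (W3 := 40050571) (N0 := 3) (En := eng) (mo := mog) (C1 := cd0q1) (C2 := cd1q3) (C3 := pd1)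
    rfl (fun _ => rfl) s4_pp_113

noncomputable def cut_pp_123 : Cut := Cut.of [[⟨0, 1, 0, 67108864⟩, ⟨1, 1, 0, 67108864⟩, ⟨2, 2, 0, 16777216⟩]]

noncomputable def f_pp_123 : ℕ → ℕ → ℕ → ℕ → Bool := onCell 536870912 536870912 1073741824 536870912 740881858 40050571
    (rowB 3 eng mog cd0q1 cd1q3 pd2 1 false true true .npn 1 2 3 (qsf 536870912 536870912 1610612736 536870912 2) ndB0q1 ndB1q3 pcB2 cut_pp_123 Ext.none)

def k0_pp_123 : ∃ t, chk3 f_pp_123 t 2 1 1 = true :=
  ⟨(b (a (b (a (b (b (a (l 16077616) (l 16092232)) (l 16097064)) (b (l 16108832) (l 16123280))) (b (b (l 16135888) (l 16158648)) (b (l 16180168) (l 16204576)))) (b (a (b (l 16153504) (l 16193896)) (l 16271056)) (a (l 16262720) (l 16366464)))) (b (a (b (b (l 16253640) (l 16286728)) (b (l 16318216) (l 16332768))) (b (b (l 16443880) (l 16439272)) (c (l 16449696) (l 16419648)))) (a (b (b (l 16362176) (l 16396848)) (l 16453032)) (b (b (l 16458584) (l 16485936)) (a (l 16511544) (l 16546976)))))) (a (b (a (l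 16305544) (b (l 16451528) (l 16524808))) (a (l 16555856) (l 16691400))) (b (a (b (l 16522840) (l 16582672)) (b (l 16585680) (l 16632912))) (a (b (l 16633208) (l 2)) (l 2))))), by decide +kernel⟩

def k1_pp_123 : ∃ t, chk3 f_pp_123 t 3 1 1 = true :=
  ⟨(b (a (b (b (a (a (b (l 16512664) (l 16501544)) (b (l 16549384) (l 16533752))) (b (a (l 16592376) (l 16639344)) (a (l 16572848) (l 16616176)))) (a (a (l 16364176) (b (l 16520632) (l 16516048))) (b (l 16556432) (a (l 16548864) (l 16589640))))) (b (b (b (a (l 16519472) (l 16586864)) (a (l 16532544) (b (l 16598200) (a (l 16588024) (l 16627640))))) (a (l 16572968) (l 16614040))) (a (a (l 16576992) (l 16601200)) (a (l 16626568) (l 2))))) (b (b (a (b (a (l 16680840) (l 16784344)) (a (l 16654848) (b (l 16700240) (l 16686888)))) (b (a (a (l 16740952) (b (l 16755024) (l 16741000))) (b (a (b (l 16764608) (l 16757888)) (a (b (b (l 16770928) (l 6)) (l 6)) (b (l 6) (l 410270041783)))) (a (l 16746680) (l 397385145479)))) (a (b (l 16721848)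 (l 16662512)) (a (l 254040606903) (l 2))))) (a (b (a (l 16636000) (b (l 16677728) (l 16671664))) (a (l 16627416) (l 16635488))) (b (a (l 16683032) (l 2)) (l 2)))) (a (b (b (b (l 16620560) (l 2)) (l 2)) (l 2)) (l 2)))) (a (b (a (b (l 16627712) (l 2)) (l 2)) (l 2)) (l 2))), by decide +kernel⟩

theorem s2_pp_123 : ∃ t, chk3 f_pp_123 t 1 1 1 = true := ex3_a k0_pp_123 k1_pp_123

theorem c_pp_123 : CertB 536870912 536870912 1610612736 536870912 740881858 40050571 3 eng mog cd0q1 cd1q3 pd2 false true true .npn 1 2 3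
    ndB0q1 ndB1q3 pcB2 cut_pp_123 Ext.none :=
  certB1 (fam := false) (s1 := true) (s2 := true) (a := 1) (b := 2) (c := 3) (cn := .npn) (n1 := ndB0q1) (n2 := ndB1q3) (pc := pcB2) (cut := cut_pp_123) (xt := Ext.none) (P1 := 536870912) (W1 := 536870912) (P2 := 1610612736) (W2 := 536870912) (P3 := 740881858) (W3 := 40050571) (N0 := 3) (En := eng) (mo := mog) (C1 := cd0q1) (C2 := cd1q3) (C3 := pd2)
    rfl (fun _ => rfl) s2_pp_123

noncomputable def f_pp_133 : ℕ → ℕ → ℕ → ℕ → Bool := onCell 536870912 536870912 1610612736 536870912 740881858 40050571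
    (rowB 3 eng mog cd0q1 cd1q3 pd3 0 false true true .dn 1 3 3 (qsf 536870912 536870912 1610612736 536870912 3) ndB0q1 ndB1q3 pcB3 Cut.none Ext.none)

def k0_pp_133 : ∃ t, chk3 f_pp_133 t 1 1 1 = true :=
  ⟨(a (b (l 1) (a (b (l 1) (a (b (l 1) (l 16629552)) (l 1))) (l 1))) (l 1)), by decide +kernel⟩

theorem c_pp_133 : CertB 536870912 536870912 1610612736 536870912 740881858 40050571 3 eng mog cd0q1 cd1q3 pd3 false true true .dn 1 3 3
    ndB0q1 ndB1q3 pcB3 Cut.none Ext.none :=
  certB0 (fam := false) (s1 := true) (s2 := true) (a := 1) (b := 3) (c := 3) (cn := .dn) (n1 := ndB0q1) (n2 := ndB1q3) (pc := pcB3) (cut := Cut.none) (xt := Ext.none) (P1 := 536870912) (W1 := 536870912) (P2 := 1610612736) (W2 := 536870912) (P3 := 740881858) (W3 := 40050571) (N0 := 3) (En := eng) (mo := mog) (C1 := cd0q1) (C2 := cd1q3) (C3 := pd3)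
    rfl k0_pp_133

noncomputable def f_pp_202_a : ℕ → ℕ → ℕ → ℕ → Bool := onCell 0 536870912 0 536870912 740881858 40050571
    (rowB 3 eng mog cd0q2 cd1q2a pd0 0 false true true .pp 2 0 2 (qsf 0 536870912 0 536870912 0) ndB0q2 ndB1q2a pcB0 Cut.none Ext.none)

def k0_pp_202_a : ∃ t, chk3 f_pp_202_a t 1 1 1 = true :=
  ⟨(l 3), by decide +kernel⟩

theorem c_pp_202_a : CertB 0 536870912 0 536870912 740881858 40050571 3 eng mog cd0q2 cd1q2a pd0 false true true .pp 2 0 2
    ndB0q2 ndB1q2a pcB0 Cut.none Ext.none :=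
  certB0 (fam := false) (s1 := true) (s2 := true) (a := 2) (b := 0) (c := 2) (cn := .pp) (n1 := ndB0q2) (n2 := ndB1q2a) (pc := pcB0) (cut := Cut.none) (xt := Ext.none) (P1 := 0) (W1 := 536870912) (P2 := 0) (W2 := 536870912) (P3 := 740881858) (W3 := 40050571) (N0 := 3) (En := eng) (mo := mog) (C1 := cd0q2) (C2 := cd1q2a) (C3 := pd0)
    rfl k0_pp_202_a

noncomputable def f_pp_202_b : ℕ → ℕ → ℕ → ℕ → Bool := onCell 0 536870912 1239849684 370763052 740881858 40050571
    (rowB 3 eng mog cd0q2 cd1q2b pd0 0 false true true .pp 2 0 2 (qsf 0 536870912 1239849684 370763052 0) ndB0q2 ndB1q2b pcB0 Cut.none Ext.none)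

def k0_pp_202_b : ∃ t, chk3 f_pp_202_b t 1 1 1 = true :=
  ⟨(l 3), by decide +kernel⟩

theorem c_pp_202_b : CertB 0 536870912 1239849684 370763052 740881858 40050571 3 eng mog cd0q2 cd1q2b pd0 false true true .pp 2 0 2
    ndB0q2 ndB1q2b pcB0 Cut.none Ext.none :=
  certB0 (fam := false) (s1 := true) (s2 := true) (a := 2) (b := 0) (c := 2) (cn := .pp) (n1 := ndB0q2) (n2 := ndB1q2b) (pc := pcB0) (cut := Cut.none) (xt := Ext.none) (P1 := 0) (W1 := 536870912) (P2 := 1239849684) (W2 := 370763052) (P3 := 740881858) (W3 := 40050571) (N0 := 3) (En := eng) (mo := mog) (C1 := cd0q2) (C2 := cd1q2b) (C3 := pd0)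
    rfl k0_pp_202_b

noncomputable def f_pp_203 : ℕ → ℕ → ℕ → ℕ → Bool := onCell 0 536870912 0 536870912 740881858 40050571
    (rowB 3 eng mog cd0q2 cd1q3 pd0 1 false true true .up 2 0 3 (qsf 0 536870912 1610612736 536870912 0) ndB0q2 ndB1q3 pcB0 Cut.none Ext.none)

def k0_pp_203 : ∃ t, chk3 f_pp_203 t 1 1 1 = true :=
  ⟨(l 3), by decide +kernel⟩

theorem c_pp_203 : CertB 0 536870912 1610612736 536870912 740881858 40050571 3 eng mog cd0q2 cd1q3 pd0 false true true .up 2 0 3
    ndB0q2 ndB1q3 pcB0 Cut.none Ext.none :=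
  certB1 (fam := false) (s1 := true) (s2 := true) (a := 2) (b := 0) (c := 3) (cn := .up) (n1 := ndB0q2) (n2 := ndB1q3) (pc := pcB0) (cut := Cut.none) (xt := Ext.none) (P1 := 0) (W1 := 536870912) (P2 := 1610612736) (W2 := 536870912) (P3 := 740881858) (W3 := 40050571) (N0 := 3) (En := eng) (mo := mog) (C1 := cd0q2) (C2 := cd1q3) (C3 := pd0)
    rfl (fun _ => rfl) k0_pp_203

noncomputable def cut_pp_213 : Cut := Cut.of [[⟨0, 1, 0, 67108864⟩, ⟨1, 1, 0, 67108864⟩, ⟨2, 2, 0, 16777216⟩]]

noncomputable def f_pp_213 : ℕ → ℕ → ℕ → ℕ → Bool := onCell 0 536870912 1610612736 536870912 740881858 40050571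
    (rowB 3 eng mog cd0q2 cd1q3 pd1 0 false true true .pnn 2 1 3 (qsf 0 536870912 1610612736 536870912 1) ndB0q2 ndB1q3 pcB1 cut_pp_213 Ext.none)

def k0_pp_213 : ∃ t, chk3 f_pp_213 t 1 1 1 = true :=
  ⟨(b (l 3) (a (l 3) (b (l 3) (a (l 3) (b (l 3) (a (l 3) (b (l 3) (b (l 3) (b (l 3) (l 6)))))))))), by decide +kernel⟩

theorem c_pp_213 : CertB 0 536870912 1610612736 536870912 740881858 40050571 3 eng mog cd0q2 cd1q3 pd1 false true true .pnn 2 1 3
    ndB0q2 ndB1q3 pcB1 cut_pp_213 Ext.none :=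
  certB0 (fam := false) (s1 := true) (s2 := true) (a := 2) (b := 1) (c := 3) (cn := .pnn) (n1 := ndB0q2) (n2 := ndB1q3) (pc := pcB1) (cut := cut_pp_213) (xt := Ext.none) (P1 := 0) (W1 := 536870912) (P2 := 1610612736) (W2 := 536870912) (P3 := 740881858) (W3 := 40050571) (N0 := 3) (En := eng) (mo := mog) (C1 := cd0q2) (C2 := cd1q3) (C3 := pd1)
    rfl k0_pp_213

noncomputable def f_pm_001 : ℕ → ℕ → ℕ → ℕ → Bool := onCell 0 536870912 0 536870912 740881858 40050571
    (rowB 3 eng mog cd0q0 cd1q1 pd0 1 false true false .up 0 0 1 (qsf 0 536870912 536870912 536870912 0) ndB0q0 ndB1q1 pcB0 Cut.none Ext.none)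

def k0_pm_001 : ∃ t, chk3 f_pm_001 t 1 1 1 = true :=
  ⟨(a (l 4) (b (l 4) (a (l 4) (b (l 4) (a (l 4) (b (a (l 4) (b (l 4) (l 16300616))) (a (b (l 16392960) (l 16387104)) (b (l 16269464) (l 16245032))))))))), by decide +kernel⟩

theorem c_pm_001 : CertB 0 536870912 536870912 536870912 740881858 40050571 3 eng mog cd0q0 cd1q1 pd0 false true false .up 0 0 1
    ndB0q0 ndB1q1 pcB0 Cut.none Ext.none :=
  certB1 (fam := false) (s1 := true) (s2 := false) (a := 0) (b := 0) (c := 1) (cn := .up) (n1 := ndB0q0) (n2 := ndB1q1) (pc := pcB0) (cut := Cut.none) (xt := Ext.none) (P1 := 0) (W1 := 536870912) (P2 := 536870912) (W2 := 536870912) (P3 := 740881858) (W3 := 40050571) (N0 := 3) (En := eng) (mo := mog) (C1 := cd0q0) (C2 := cd1q1) (C3 := pd0)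
    rfl (fun _ => rfl) k0_pm_001

noncomputable def f_pm_011 : ℕ → ℕ → ℕ → ℕ → Bool := onCell 536870912 536870912 536870912 536870912 740881858 40050571
    (rowB 3 eng mog cd0q0 cd1q1 pd1 2 false true false .pnn 0 1 1 (qsf 0 536870912 536870912 536870912 1) ndB0q0 ndB1q1 pcB1 Cut.none Ext.none)

def k0_pm_011 : ∃ t, chk3 f_pm_011 t 1 1 1 = true :=
  ⟨(a (b (l 4) (b (l 4) (b (l 4) (b (a (a (a (a (l 16305920) (l 16325984)) (b (l 4) (l 16336752))) (l 4)) (l 4)) (a (a (a (l 16290656) (l 16328296)) (a (b (l 16340272) (l 16307488)) (b (l 4) (l 16341792)))) (a (a (l 4) (l 4)) (l 4))))))) (l 4)), by decide +kernel⟩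

theorem c_pm_011 : CertB 0 536870912 536870912 536870912 740881858 40050571 3 eng mog cd0q0 cd1q1 pd1 false true false .pnn 0 1 1
    ndB0q0 ndB1q1 pcB1 Cut.none Ext.none :=
  certB2 (fam := false) (s1 := true) (s2 := false) (a := 0) (b := 1) (c := 1) (cn := .pnn) (n1 := ndB0q0) (n2 := ndB1q1) (pc := pcB1) (cut := Cut.none) (xt := Ext.none) (P1 := 0) (W1 := 536870912) (P2 := 536870912) (W2 := 536870912) (P3 := 740881858) (W3 := 40050571) (N0 := 3) (En := eng) (mo := mog) (C1 := cd0q0) (C2 := cd1q1) (C3 := pd1)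
    rfl (fun _ => rfl) k0_pm_011

noncomputable def cut_pm_012_a : Cut := Cut.of [[⟨0, 0, 0, 67108864⟩, ⟨1, 1, 0, 67108864⟩, ⟨2, 1, 0, 67108864⟩]]

noncomputable def f_pm_012_a : ℕ → ℕ → ℕ → ℕ → Bool := onCell 0 536870912 0 536870912 740881858 40050571
    (rowB 3 eng mog cd0q0 cd1q2a pd1 0 false true false .pnp 0 1 2 (qsf 0 536870912 0 536870912 1) ndB0q0 ndB1q2a pcB1 cut_pm_012_a Ext.none)

def k0_pm_012_a : ∃ t, chk3 f_pm_012_a t 4 2 1 = true :=
  ⟨(a (l 2) (b (l 2) (b (l 2) (a (l 2) (a (l 2) (b (l 2) (a (l 2) (b (l 16389856) (l 16396256))))))))), by decide +kernel⟩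

def k1_pm_012_a : ∃ t, chk3 f_pm_012_a t 4 6 1 = true :=
  ⟨(a (l 2) (a (b (l 2) (a (b (l 2) (a (l 2) (b (a (l 2) (l 16480376)) (a (l 16502984) (l 16503592))))) (b (a (b (l 2) (a (l 2) (l 16461488))) (b (a (l 2) (l 16445344)) (a (l 16462688) (l 16463792)))) (b (a (a (l 16481344) (l 16482280)) (l 16483536)) (a (l 16504480) (l 16505464)))))) (b (a (b (a (l 2) (b (l 2) (l 16407480))) (a (b (l 2) (a (l 16430184) (l 16431680))) (b (b (l 16416208) (l 16422872)) (l 16433696)))) (b (a (b (l 16401024) (l 16410712)) (b (l 16404096) (l 16413376))) (b (a (l 16422312) (l 16424512)) (a (l 16435920) (l 16437592))))) (b (a (b (a (l 24259209543) (l 16449440)) (a (l 16465248) (l 16466792))) (b (l 16451712) (l 16468120))) (a (b (a (l 16484848) (l 16485712)) (l 16506168)) (b (l 16486024) (l 16505384))))))), by decide +kernel⟩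

def k2_pm_012_a : ∃ t, chk3 f_pm_012_a t 8 7 1 = true :=
  ⟨(b (a (l 2) (a (b (l 2) (l 6)) (b (a (l 2) (b (l 2) (b (l 16547592) (l 16559616)))) (a (l 6) (a (l 6) (b (l 16578112) (l 16604016))))))) (a (l 6) (a (l 6) (a (l 6) (a (l 6) (b (b (l 16631248) (b (l 16652440) (l 16667000))) (b (l 16687128) (b (l 16689608) (b (l 16690608) (l 16691176)))))))))), by decide +kernel⟩

def k3_pm_012_a : ∃ t, chk3 f_pm_012_a t 9 7 1 = true :=
  ⟨(b (a (b (a (b (a (a (l 16527848) (l 16528080)) (l 16528416)) (a (l 16553360) (l 16553064))) (b (a (l 16528816) (l 16529008)) (a (l 16552712) (l 16552144)))) (a (b (a (l 16577408) (l 16576432)) (a (l 16602776) (l 16601088))) (b (l 16574808) (l 16593152)))) (b (a (b (l 16528528) (l 16550536)) (b (l 16526160) (l 16546744))) (a (b (l 16571544) (l 16593808)) (b (l 16566672) (l 16587880))))) (b (a (a (b (a (l 16629440) (l 16627000)) (b (l 16627712) (l 16662720))) (b (a (l 16624496) (l 16621784)) (l 16649240))) (a (b (l 16617400) (l 16630544))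 (b (l 16610200) (l 16612856)))) (a (b (b (a (l 16673192) (l 16652264)) (a (a (l 16680112) (l 16669528)) (a (l 16658664) (l 16647896)))) (a (b (a (l 16681552) (l 16670576)) (b (a (l 16682376) (l 16671064)) (a (a (a (l 16687048) (l 16684216)) (l 16678576)) (b (l 16671224) (c (l 16672520) (l 16667512)))))) (b (a (l 16659400) (l 16648464)) (b (a (l 16659744) (l 16648672)) (b (a (l 16659840) (l 16648712)) (a (a (l 16662728) (l 16657048)) (a (l 16651464) (l 16645984)))))))) (b (a (b (l 16631976) (l 16632584)) (b (l 16613768) (l 16614032))) (b (a (a (l 16637960) (l 16627960)) (l 16624480)) (a (a (b (l 16638048) (b (l 16638024) (a (l 16640616) (l 16635376)))) (b (l 16627920) (a (a (l 16631560) (l 16629040)) (l 16625320)))) (a (b (l 16618344) (c (l 16619912) (l 16616432))) (b (l 16609360) (c (l 16610920) (l 16607296)))))))))), by decide +kernel⟩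

def k4_pm_012_a : ∃ t, chk3 f_pm_012_a t 5 2 1 = true :=
  ⟨(a (b (a (a (l 2) (b (l 16438264) (l 16447736))) (b (a (l 16444200) (l 16450584)) (a (l 16411608) (l 16417848)))) (a (b (a (b (l 16386240) (l 16384624)) (b (l 16392504) (l 16390184))) (a (b (a (l 16386728) (l 16389688)) (b (l 16394360) (l 16400264))) (b (l 16392888) (a (l 16400104) (l 16401280))))) (b (a (b (l 16397712) (l 16394672)) (b (l 16403336) (l 16399584))) (b (a (l 16396424) (l 16400376)) (a (b (l 16400752) (l 16405312)) (b (l 16403848) (l 16407784))))))) (b (a (b (l 16482608) (a (l 16424768) (l 16432616))) (b (l 16478080) (l 16465896))) (a (b (b (a (l 16409632) (l 16416968)) (a (l 16405200) (l 16411992))) (a (b (l 16405176) (b (l 16407960) (l 16411392))) (b (l 16411200) (b (l 16413224) (l 16416024))))) (b (b (l 16428504) (a (l 16419136) (l 16425896))) (b (a (l 16417456) (l 16423328)) (a (l 16419776) (l 16424520))))))), by decide +kernel⟩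

def k5_pm_012_a : ∃ t, chk3 f_pm_012_a t 5 6 1 = true :=
  ⟨(a (a (b (a (b (a (l 16411040) (l 16412648)) (b (l 16426656) (l 16438936))) (b (a (l 16413560) (l 16414000)) (b (l 16427224) (l 16438448)))) (b (a (b (l 16452664) (l 16467824)) (b (l 16451048) (l 16465064))) (a (b (l 16484376) (l 16502360)) (b (l 16480512) (l 16497344))))) (b (b (a (b (l 16411112) (l 16418160)) (b (l 16412960) (l 16419384))) (a (b (l 16426800) (l 16437120)) (b (l 16427320) (l 16436760)))) (b (a (b (l 16448808) (l 16461848)) (b (l 16447416) (l 16459232))) (a (b (l 16476112) (l 16491552)) (l 16479248))))) (b (a (b (a (b (l 16415968) (l 16421672)) (b (l 16419888) (l 16424816))) (a (b (l 16428728) (l 16437144)) (b (l 16430984) (l 16438384)))) (b (a (l 16447080) (l 16429456)) (a (l 16457640) (l 16438248)))) (a (a (b (b (l 16446680) (l 16457280)) (l 16475240)) (b (l 16451552) (l 16472112))) (b (a (l 16451272) (l 16450648)) (a (l 16469176) (l 16465904)))))), by decide +kernel⟩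

def k6_pm_012_a : ∃ t, chk3 f_pm_012_a t 5 7 1 = true :=
  ⟨(a (b (b (a (a (b (l 16521800) (l 16541216)) (b (l 16515440) (l 16533432))) (a (b (l 16508072) (l 16524544)) (b (l 16501112) (l 16516080)))) (a (a (l 16570080) (l 16560184)) (a (l 16549192) (l 16538624)))) (b (b (a (a (l 16596200) (l 16584312)) (l 16567960)) (a (a (l 16597624) (l 16585064)) (a (l 16573592) (l 16561728)))) (a (b (a (l 16598032) (l 16605752)) (a (b (l 16608064) (a (b (l 16601016) (c (l 16602552) (l 16598824))) (b (l 16593344) (c (l 16594816) (l 16591048))))) (b (a (l 16587056) (l 16580704)) (a (b (l 16586384) (c (l 16587760) (l 16584016))) (b (l 16579904) (c (l 16581168) (l 16577480))))))) (b (a (l 16572640) (l 16560104)) (b (a (l 16581656) (l 16558128)) (a (c (b (l 16571760) (a (l 16574592) (l 16567960))) (a (l 16571464) (l 16564896))) (a (b (l 16560256) (c (l 16561232) (l 16557616))) (c (l 16554744) (l 16551360))))))))) (b (a (b (a (l 16480672) (l 16495448)) (a (l 16528704) (l 16519616)))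 (b (b (l 16481424) (l 16491056)) (l 16506128))) (b (a (a (l 16529040) (l 16537064)) (b (l 16518856) (l 16515952))) (a (b (a (l 16546944) (l 16533000)) (b (a (l 16544472) (l 16530032)) (a (c (a (l 16547800) (l 16540680)) (a (l 16544320) (l 16537056))) (b (l 16549264) (a (l 16551768) (l 16523240)))))) (b (a (l 16518928) (l 16505216)) (a (b (l 16515464) (a (l 16526952) (l 16509120))) (b (l 16501264) (a (l 16501856) (l 16494672))))))))), by decide +kernel⟩

def k7_pm_012_a : ∃ t, chk3 f_pm_012_a t 6 1 1 = true :=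
  ⟨(b (b (a (b (a (a (l 16489920) (l 16497888)) (b (l 16515952) (l 16500072))) (a (a (l 16456560) (l 16463984)) (l 16517824))) (b (a (b (l 16529944) (l 16516992)) (l 16538616)) (a (l 16536248) (b (l 16520064) (l 16505240))))) (a (a (b (b (l 16442656) (a (l 16432328) (l 16438496))) (b (a (l 16428872) (l 16434152)) (a (l 16428936) (l 16433088)))) (b (b (l 16457120) (a (l 16444984) (l 16452216))) (b (a (l 16439760) (l 16446128)) (a (l 16437584) (l 16442840))))) (a (b (a (l 16465088) (l 16473968)) (a (b (l 16453240) (l 16448856)) (l 16479304))) (b (l 16486488) (b (l 16471696) (l 16464536)))))) (b (a (b (a (b (a (l 16432480) (l 16435256)) (a (l 16439520) (l 16440544))) (b (a (l 16438376) (l 16442272)) (a (l 16441936) (l 16444088)))) (a (b (a (l 16449720) (l 16448560)) (a (l 16462344) (l 16458560))) (b (a (l 16447760) (l 16447712)) (a (l 16455136) (l 16452416))))) (b (a (a (b (l 16446920) (l 16446976)) (b (l 16452144) (l 16450416))) (b (l 16459120) (l 16454672))) (a (b (a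 (l 16448360) (l 16449496)) (a (l 16450328) (l 16448608))) (b (l 16450216) (l 16444960))))) (a (b (a (b (a (l 16476504) (l 16469672)) (l 16487000)) (b (l 16439216) (l 16468200))) (b (a (a (l 16498792) (l 16486560)) (b (l 16470208) (l 16464744))) (a (b (a (l 16491800) (l 16478616)) (a (b (l 16487368) (a (l 16487568) (l 16480528))) (b (l 16473704) (a (l 16473552) (l 16466560))))) (b (a (l 16465176) (l 16451256)) (a (b (l 16459800) (l 16476808)) (l 16464288)))))) (b (a (b (l 16449472) (l 16451120)) (b (l 16437912) (l 16429440))) (b (a (a (l 16447744) (l 16434312)) (l 16425784)) (a (b (a (l 16436992) (l 16422648)) (a (l 16428456) (l 16434496))) (b (l 16402280) (a (l 16399152) (l 16385592))))))))), by decide +kernel⟩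

def k8_pm_012_a : ∃ t, chk3 f_pm_012_a t 7 1 1 = true :=
  ⟨(b (a (b (b (a (l 16553776) (l 16568888)) (a (b (l 16533456) (l 16521240)) (b (l 16546816) (l 16533048)))) (b (a (l 16500640) (b (l 16520088) (l 16505824))) (a (l 16520792) (l 16487480)))) (b (a (b (l 16584888) (l 16552984)) (b (a (l 16597368) (l 16606064)) (l 16608296))) (b (a (b (l 16530752) (l 16516104)) (b (l 16541112) (l 16525640))) (a (l 16494936) (l 16501520))))) (b (a (b (a (b (l 16465784) (l 16457680)) (b (l 16470488) (l 16458776))) (a (l 16422504) (l 16437136))) (b (a (l 16529704) (l 16552040)) (a (l 16430040) (l 16422896)))) (a (b (a (b (l 16423368) (l 16408888)) (l 16482960)) (a (b (l 16434328) (b (l 16377656) (a (l 16372744) (l 16360440)))) (b (l 16371208) (b (l 16354840) (a (l 16348512) (l 16336848)))))) (b (a (l 16423688) (l 16426664)) (a (b (l 16350720) (a (l 16331928) (l 16320648))) (b (l 16371712) (a (l 16309168) (l 16297456)))))))), by decide +kernel⟩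

theorem s9_pm_012_a : ∃ t, chk3 f_pm_012_a t 3 1 1 = true := ex3_a k7_pm_012_a k8_pm_012_a

theorem s10_pm_012_a : ∃ t, chk3 f_pm_012_a t 5 3 1 = true := ex3_b k5_pm_012_a k6_pm_012_a

theorem s11_pm_012_a : ∃ t, chk3 f_pm_012_a t 5 1 1 = true := ex3_b k4_pm_012_a s10_pm_012_a

theorem s12_pm_012_a : ∃ t, chk3 f_pm_012_a t 4 7 1 = true := ex3_a k2_pm_012_a k3_pm_012_a

theorem s13_pm_012_a : ∃ t, chk3 f_pm_012_a t 4 3 1 = true := ex3_b k1_pm_012_a s12_pm_012_a

theorem s14_pm_012_a : ∃ t, chk3 f_pm_012_a t 4 1 1 = true := ex3_b k0_pm_012_a s13_pm_012_a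

theorem s15_pm_012_a : ∃ t, chk3 f_pm_012_a t 2 1 1 = true := ex3_a s14_pm_012_a s11_pm_012_a

theorem s16_pm_012_a : ∃ t, chk3 f_pm_012_a t 1 1 1 = true := ex3_a s15_pm_012_a s9_pm_012_a

theorem c_pm_012_a : CertB 0 536870912 0 536870912 740881858 40050571 3 eng mog cd0q0 cd1q2a pd1 false true false .pnp 0 1 2
    ndB0q0 ndB1q2a pcB1 cut_pm_012_a Ext.none :=
  certB0 (fam := false) (s1 := true) (s2 := false) (a := 0) (b := 1) (c := 2) (cn := .pnp) (n1 := ndB0q0) (n2 := ndB1q2a) (pc := pcB1) (cut := cut_pm_012_a) (xt := Ext.none) (P1 := 0) (W1 := 536870912) (P2 := 0) (W2 := 536870912) (P3 := 740881858) (W3 := 40050571) (N0 := 3) (En := eng) (mo := mog) (C1 := cd0q0) (C2 := cd1q2a) (C3 := pd1)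
    rfl s16_pm_012_a

noncomputable def cut_pm_012_b : Cut := Cut.of [[⟨0, 0, 0, 67108864⟩, ⟨1, 1, 0, 67108864⟩, ⟨2, 1, 0, 67108864⟩]]

noncomputable def f_pm_012_b : ℕ → ℕ → ℕ → ℕ → Bool := onCell 0 536870912 1239849684 370763052 740881858 40050571
    (rowB 3 eng mog cd0q0 cd1q2b pd1 0 false true false .pnp 0 1 2 (qsf 0 536870912 1239849684 370763052 1) ndB0q0 ndB1q2b pcB1 cut_pm_012_b Ext.none)

def k0_pm_012_b : ∃ t, chk3 f_pm_012_b t 1 1 1 = true :=
  ⟨(a (a (l 2) (b (a (b (b (a (a (l 2) (l 16446744)) (a (l 16497880) (l 16486464))) (l 2)) (l 2)) (b (a (b (b (l 16450864) (l 16384928)) (a (l 16270208) (l 16287696))) (b (b (l 16470016) (l 16410224)) (b (l 16346920) (l 16280168)))) (a (l 2) (b (l 16257072) (l 2))))) (l 2))) (b (a (a (b (b (a (a (l 16456560) (l 16487968)) (b (l 16501656) (l 16456248))) (a (l 16347080) (l 16443248))) (a (b (a (l 16208408) (l 16231088)) (l 2)) (b (l 16265096) (l 16179768)))) (b (a (b (l 16559128) (l 16409464)) (b (l 16536504) (l 16436232)))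 (a (b (a (l 16300408) (l 16322608)) (l 16196728)) (b (l 16349440) (l 16252480))))) (a (b (a (b (l 16597824) (l 16461808)) (b (b (l 16570120) (l 16538816)) (l 16487744))) (a (b (l 16382016) (l 16296528)) (b (l 16413984) (l 16335152)))) (b (a (b (b (l 16589200) (l 16560944)) (l 16514280)) (b (b (l 16629936) (l 16583584)) (l 16541128))) (a (l 16452440) (l 16487984))))) (a (b (a (l 2) (a (b (l 16091288) (l 2)) (b (l 16139592) (l 16014496)))) (l 2)) (a (b (a (b (l 16201888) (l 16092544)) (b (l 16252320) (l 16161080))) (a (l 2) (b (l 16056712) (l 2)))) (b (a (b (l 16297184) (l 16217528)) (l 16306104)) (a (b (l 16131608) (l 16033448)) (b (l 16194496) (l 16115144)))))))), by decide +kernel⟩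

theorem c_pm_012_b : CertB 0 536870912 1239849684 370763052 740881858 40050571 3 eng mog cd0q0 cd1q2b pd1 false true false .pnp 0 1 2
    ndB0q0 ndB1q2b pcB1 cut_pm_012_b Ext.none :=
  certB0 (fam := false) (s1 := true) (s2 := false) (a := 0) (b := 1) (c := 2) (cn := .pnp) (n1 := ndB0q0) (n2 := ndB1q2b) (pc := pcB1) (cut := cut_pm_012_b) (xt := Ext.none) (P1 := 0) (W1 := 536870912) (P2 := 1239849684) (W2 := 370763052) (P3 := 740881858) (W3 := 40050571) (N0 := 3) (En := eng) (mo := mog) (C1 := cd0q0) (C2 := cd1q2b) (C3 := pd1)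
    rfl k0_pm_012_b

noncomputable def cut_pm_022_a : Cut := Cut.of [[⟨0, 0, 0, 67108864⟩, ⟨1, 1, 0, 67108864⟩, ⟨2, 1, 0, 67108864⟩]]

noncomputable def f_pm_022_a : ℕ → ℕ → ℕ → ℕ → Bool := onCell 1073741824 536870912 0 536870912 740881858 40050571
    (rowB 3 eng mog cd0q0 cd1q2a pd2 2 false true false .pp 0 2 2 (qsf 0 536870912 0 536870912 2) ndB0q0 ndB1q2a pcB2 cut_pm_022_a Ext.none)

def k0_pm_022_a : ∃ t, chk3 f_pm_022_a t 4 2 1 = true :=
  ⟨(a (b (a (b (a (l 16475128) (l 16418600)) (a (l 16426152) (l 16395432))) (b (a (l 16422480) (l 16426056)) (c (l 16488944) (l 16491704)))) (b (a (a (b (l 16373768) (l 16414752)) (b (l 16388160) (l 16389280))) (a (b (l 16400840) (l 16404128)) (b (l 16412408) (l 16417968)))) (a (a (b (a (l 16371856) (l 16381592)) (a (b (l 16377792) (l 16383680)) (c (l 16399960) (l 16382576)))) (b (a (l 16390832) (l 16399656)) (a (l 16422688) (l 16432576)))) (a (a (b (l 16408152) (l 16442136)) (b (l 16416360) (l 16430600))) (b (a (l 16424456)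 (l 16432488)) (c (l 16467536) (l 16442800))))))) (b (a (b (c (l 16383864) (l 16436632)) (a (l 16441648) (b (l 16427568) (l 16429208)))) (b (c (l 16345992) (l 16448304)) (c (a (l 16430800) (l 16437568)) (l 16448472)))) (a (b (a (b (l 16423664) (l 16452544)) (c (l 16458456) (l 16422528))) (a (c (b (l 16444384) (l 16484264)) (b (l 16445104) (l 16463608))) (c (b (l 16458656) (l 16521952)) (b (l 16463168) (l 16525960))))) (c (b (a (b (l 16441688) (l 16454816)) (l 16480192)) (b (a (l 16472888) (l 16486856)) (a (a (l 16492408) (l 16500560)) (b (l 16505344) (l 16519656))))) (b (a (l 16457880) (l 16471848)) (a (b (l 16480808) (l 16503832)) (b (l 16497808) (b (l 16515048) (l 122976367719))))))))), by decide +kernel⟩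

def k1_pm_022_a : ∃ t, chk3 f_pm_022_a t 16 6 1 = true :=
  ⟨(b (c (a (b (a (b (l 16400680) (l 16409408)) (b (l 16410752) (l 16420016))) (a (b (l 16420216) (l 16454328)) (b (l 16431384) (l 16445064)))) (b (a (l 16446392) (l 16435176)) (a (b (l 16442256) (l 16456632)) (b (l 16453016) (l 16468096))))) (a (b (a (b (l 16381032) (l 16390360)) (l 16419808)) (a (b (l 16401912) (l 16415936)) (b (l 16415736) (l 16430224)))) (b (a (l 16411496) (l 16423744)) (a (b (l 16429136) (l 16444240)) (b (l 16442296) (l 16458056)))))) (b (a (a (a (b (c (l 16445400) (l 16428368)) (c (l 16462592) (l 16446744))) (b (l 16443936) (c (l 16469160) (l 16454560)))) (c (b (l 16460888) (l 16478992)) (b (l 16446992) (l 16466200)))) (a (a (b (l 16464136) (l 16483344)) (b (l 16470840) (l 16490440))) (b (c (l 16485416) (l 16476200)) (c (l 16505120) (l 16496880))))) (a (a (b (a (c (l 16482192) (l 16467696)) (c (l 16489136) (l 16475840))) (c (a (l 16504448) (l 16511840)) (a (l 16491472) (l 16500032))))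 (b (a (l 16490160) (l 16497680)) (a (l 16514000) (l 16521936)))) (b (a (a (l 16505184) (l 16512672)) (a (l 16520144) (l 16527600))) (a (a (l 16529848) (l 16537736)) (c (l 16552376) (l 16546600))))))), by decide +kernel⟩

def k2_pm_022_a : ∃ t, chk3 f_pm_022_a t 17 6 1 = true :=
  ⟨(b (a (b (a (c (l 16444840) (l 16435792)) (c (l 16454472) (l 16447688))) (a (c (b (l 16463736) (l 16479600)) (l 16484496)) (c (l 16503752) (l 16476832)))) (b (a (c (l 16464168) (l 16459536)) (c (l 16473872) (l 16471312))) (a (b (l 16483168) (l 16521744)) (b (l 16494880) (l 16534128))))) (b (a (a (b (c (l 16497696) (l 16490664)) (c (l 16518176) (l 16512072))) (b (c (l 16509952) (l 16505016)) (c (l 16531184) (l 16527128)))) (a (b (l 16549512) (c (l 16544120) (l 16542032))) (b (l 16575688) (a (l 16553368) (l 16560208))))) (b (a (a (a (l 16535024) (l 16542424)) (c (l 16554976) (l 16551968))) (a (a (l 16564424) (l 16571680)) (b (l 16533784) (l 16589264)))) (a (a (c (l 16567000) (l 16563256)) (a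 (l 16576752) (l 16584448))) (a (b (l 16546640) (l 16603248)) (l 16611000)))))), by decide +kernel⟩

def k3_pm_022_a : ∃ t, chk3 f_pm_022_a t 9 6 1 = true :=
  ⟨(b (c (b (a (a (a (l 16483568) (l 16493224)) (b (l 16520824) (l 16557256))) (a (a (l 16521688) (l 16530904)) (a (l 178274221655) (l 409128587591)))) (a (a (a (l 16547488) (a (l 16524240) (l 16529680))) (a (b (l 16527832) (l 16547784)) (b (l 16538208) (l 16558736)))) (a (a (b (l 16548416) (l 16565280)) (b (l 16554024) (l 341482924391))) (l 1)))) (a (a (b (a (l 16482976) (l 16494512)) (b (l 16554672) (a (l 16525640) (l 16538704)))) (b (a (l 16505896) (l 16517104)) (a (b (l 16531200) (l 16551552)) (l 16553688)))) (b (a (a (l 16528104) (l 16538680)) (a (l 358662743095) (l 506839184215))) (a (b (a (l 16553968) (l 134787602055)) (a (l 16516440) (l 503081143943))) (l 1))))) (a (a (b (a (b (c (l 16546328) (l 16547176)) (c (l 16569640) (l 16571256))) (b (a (l 16514312) (l 16562592)) (l 16562776))) (c (b (a (l 16595504)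 (l 16600256)) (a (l 16612336) (b (l 16562840) (l 320545174727)))) (b (c (l 16558944) (l 16557272)) (a (l 16587952) (b (l 16557816) (l 331282591927)))))) (b (c (a (b (l 16569952) (l 16588392)) (b (l 16576728) (l 276521614423))) (b (a (l 16574280) (l 16529040)) (a (l 16562640) (b (l 158946864391) (l 321618863287))))) (a (b (a (a (l 16573000) (l 246993732359)) (l 539051574231)) (l 1)) (l 1)))) (a (b (a (a (b (l 296385786711) (l 1)) (l 1)) (l 1)) (l 1)) (l 1)))), by decide +kernel⟩

def k4_pm_022_a : ∃ t, chk3 f_pm_022_a t 4 7 1 = true :=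
  ⟨(a (b (a (b (b (a (a (a (c (l 16529648) (l 16518376)) (l 16532520)) (a (l 16540888) (l 16549232))) (a (a (l 16557552) (l 16565840)) (a (l 16574096) (l 16582320)))) (b (a (a (a (l 16544680) (l 16553384)) (a (l 16562072) (l 16570728))) (a (l 16604624) (l 16621728))) (l 6))) (l 6)) (b (a (b (a (b (l 16586840) (l 16560424)) (a (l 16564808) (l 16614800))) (a (a (l 16578728) (l 16629184)) (l 16641864))) (a (b (l 16626776) (b (l 16614208) (l 6))) (b (c (l 16603640) (l 16579640)) (a (b (l 16630192) (l 6)) (b (l 275447998007) (l 500933824695)))))) (a (l 6) (a (l 6) (a (l 6) (l 1)))))) (a (l 6) (a (l 6) (l 1)))) (b (a (b (a (a (b (a (b (l 16616624) (l 16619312)) (l 412886941591)) (a (l 502007553559) (l 1))) (b (a (l 467647785207) (l 1)) (l 1))) (l 1)) (l 1)) (l 1)) (l 1))), by decide +kernel⟩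

def k5_pm_022_a : ∃ t, chk3 f_pm_022_a t 5 1 1 = true :=
  ⟨(b (a (b (b (a (a (l 16445192) (a (l 16448720) (l 16451528))) (l 1)) (a (a (a (l 16451184) (l 16455336)) (a (l 16459480) (l 671658200951))) (l 1))) (c (a (a (b (l 16490984) (b (l 71436856455) (l 460131239783))) (b (b (l 16471376) (l 615286858535)) (l 1))) (l 1)) (a (b (a (l 68752294775) (a (l 575558409207) (l 1))) (a (b (b (l 16490720) (l 121365675751)) (l 524019009543)) (l 1))) (l 1)))) (l 1)) (b (l 1) (l 1))), by decide +kernel⟩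

def k6_pm_022_a : ∃ t, chk3 f_pm_022_a t 3 1 1 = true :=
  ⟨(l 1), by decide +kernel⟩

theorem s7_pm_022_a : ∃ t, chk3 f_pm_022_a t 8 6 1 = true := ex3_a k1_pm_022_a k2_pm_022_a

theorem s8_pm_022_a : ∃ t, chk3 f_pm_022_a t 4 6 1 = true := ex3_a s7_pm_022_a k3_pm_022_a

theorem s9_pm_022_a : ∃ t, chk3 f_pm_022_a t 4 3 1 = true := ex3_b s8_pm_022_a k4_pm_022_a

theorem s10_pm_022_a : ∃ t, chk3 f_pm_022_a t 4 1 1 = true := ex3_b k0_pm_022_a s9_pm_022_a

theorem s11_pm_022_a : ∃ t, chk3 f_pm_022_a t 2 1 1 = true := ex3_a s10_pm_022_a k5_pm_022_a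

theorem s12_pm_022_a : ∃ t, chk3 f_pm_022_a t 1 1 1 = true := ex3_a s11_pm_022_a k6_pm_022_a

theorem c_pm_022_a : CertB 0 536870912 0 536870912 740881858 40050571 3 eng mog cd0q0 cd1q2a pd2 false true false .pp 0 2 2
    ndB0q0 ndB1q2a pcB2 cut_pm_022_a Ext.none :=
  certB2 (fam := false) (s1 := true) (s2 := false) (a := 0) (b := 2) (c := 2) (cn := .pp) (n1 := ndB0q0) (n2 := ndB1q2a) (pc := pcB2) (cut := cut_pm_022_a) (xt := Ext.none) (P1 := 0) (W1 := 536870912) (P2 := 0) (W2 := 536870912) (P3 := 740881858) (W3 := 40050571) (N0 := 3) (En := eng) (mo := mog) (C1 := cd0q0) (C2 := cd1q2a) (C3 := pd2)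
    rfl (fun _ => rfl) s12_pm_022_a

noncomputable def cut_pm_022_b : Cut := Cut.of [[⟨0, 0, 0, 67108864⟩, ⟨1, 1, 0, 67108864⟩, ⟨2, 1, 0, 67108864⟩]]

noncomputable def f_pm_022_b : ℕ → ℕ → ℕ → ℕ → Bool := onCell 0 536870912 1073741824 536870912 740881858 40050571
    (rowB 3 eng mog cd0q0 cd1q2b pd2 1 false true false .pp 0 2 2 (qsf 0 536870912 1239849684 370763052 2) ndB0q0 ndB1q2b pcB2 cut_pm_022_b Ext.none)

def k0_pm_022_b : ∃ t, chk3 f_pm_022_b t 2 2 1 = true :=
  ⟨(a (b (a (b (l 1) (a (a (l 1) (b (l 1) (b (l 1) (l 16543832)))) (b (b (l 1) (c (l 16489400) (l 16507320))) (c (b (l 16447592) (l 16407328)) (l 16447808))))) (b (a (b (l 1) (c (l 16607928) (l 16562432))) (b (a (l 1) (l 16492624)) (b (l 16452256) (a (l 16453344) (l 16390616))))) (a (b (c (b (l 16448368) (l 16469992)) (l 16440312)) (c (l 16431488) (l 16365208))) (b (b (l 16434784) (l 16375952)) (c (l 16273808) (l 16288440)))))) (b (a (a (b (c (b (l 16491832) (c (l 16405048) (l 16416576))) (c (l 16469928)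 (l 16508576))) (c (l 16398528) (l 16380680))) (b (c (b (l 16389112) (l 16372928)) (l 16372720)) (c (l 16303496) (l 16325576)))) (b (a (b (l 16364504) (a (l 16327672) (l 16250264))) (c (l 16248728) (l 16225096))) (a (c (l 16235776) (l 16255584)) (c (l 16174352) (l 16191936))))) (b (a (a (l 16308672) (l 16280808)) (a (l 16219848) (l 16165192))) (a (a (l 16231824) (l 16214264)) (l 16163200))))) (b (a (b (a (b (a (l 16447000) (l 16443152)) (c (l 16411912) (l 16389120))) (b (l 16376504) (l 16393632))) (b (a (c (l 16273096) (l 16278584)) (l 16246280)) (a (c (l 16205344) (l 16216464)) (l 16188928)))) (b (a (b (l 16255928) (l 16240048)) (b (l 16188800) (l 16139552))) (a (b (c (l 16145920) (l 16142928)) (l 16114296)) (b (l 16092456) (l 16049544))))) (b (a (b (a (c (l 16165904) (l 16160224)) (c (l 16090976) (l 16102760))) (a (l 16126944) (l 16080056))) (b (a (c (l 16045736) (l 16054360)) (l 16031816)) (a (l 16041264) (l 16010072)))) (a (a (l 16154320) (l 16059928)) (a (l 16056152)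 (l 16037520)))))), by decide +kernel⟩

def k1_pm_022_b : ∃ t, chk3 f_pm_022_b t 3 2 1 = true :=
  ⟨(a (b (a (b (a (b (l 16130920) (l 16089648)) (b (l 16083440) (l 16049624))) (a (b (l 16050560) (l 16013656)) (b (l 16017696) (l 15987040)))) (b (a (b (l 16047264) (l 16019648)) (b (l 16019976) (l 15997840))) (a (b (l 15993664) (l 15969520)) (b (l 15977120) (l 15958200))))) (b (a (b (a (l 15981024) (l 15960264)) (a (l 15987184) (l 15971904))) (b (a (l 15947200) (l 15941896)) (a (l 15962424) (l 15960064)))) (a (l 16149808) (l 16148560)))) (b (a (b (a (b (l 16000304) (l 15983872)) (b (l 15989200) (l 15978584))) (a (b (l 15968640) (l 15955168)) (b (l 15968944) (l 15961088)))) (b (a (b (l 15987448) (l 15982616)) (b (l 15995984) (l 15996912))) (a (b (l 15978568) (l 2)) (l 2)))) (a (b (b (c (l 15956536) (l 15945224)) (l 2)) (l 2)) (l 2)))), by decide +kernel⟩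

def k2_pm_022_b : ∃ t, chk3 f_pm_022_b t 1 3 1 = true :=
  ⟨(a (b (a (b (a (b (l 16157032) (l 16096776)) (l 16180128)) (a (b (l 16042600) (l 15993968)) (l 16010848))) (a (b (l 16060376) (l 15999088)) (b (l 16052096) (l 16027768)))) (a (b (a (l 16035696) (l 15944760)) (a (l 15860512) (l 15890368))) (b (a (l 15959256) (l 2)) (l 2)))) (b (a (a (b (l 16063504) (l 2)) (l 2)) (l 2)) (l 2))), by decide +kernel⟩

theorem s3_pm_022_b : ∃ t, chk3 f_pm_022_b t 1 2 1 = true := ex3_a k0_pm_022_b k1_pm_022_b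

theorem s4_pm_022_b : ∃ t, chk3 f_pm_022_b t 1 1 1 = true := ex3_b s3_pm_022_b k2_pm_022_b

theorem c_pm_022_b : CertB 0 536870912 1239849684 370763052 740881858 40050571 3 eng mog cd0q0 cd1q2b pd2 false true false .pp 0 2 2
    ndB0q0 ndB1q2b pcB2 cut_pm_022_b Ext.none :=
  certB1 (fam := false) (s1 := true) (s2 := false) (a := 0) (b := 2) (c := 2) (cn := .pp) (n1 := ndB0q0) (n2 := ndB1q2b) (pc := pcB2) (cut := cut_pm_022_b) (xt := Ext.none) (P1 := 0) (W1 := 536870912) (P2 := 1239849684) (W2 := 370763052) (P3 := 740881858) (W3 := 40050571) (N0 := 3) (En := eng) (mo := mog) (C1 := cd0q0) (C2 := cd1q2b) (C3 := pd2)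
    rfl (fun _ => rfl) s4_pm_022_b

noncomputable def f_pm_023 : ℕ → ℕ → ℕ → ℕ → Bool := onCell 0 536870912 1073741824 536870912 740881858 40050571
    (rowB 3 eng mog cd0q0 cd1q3 pd2 1 false true false .up 0 2 3 (qsf 0 536870912 1610612736 536870912 2) ndB0q0 ndB1q3 pcB2 Cut.none Ext.none)

def k0_pm_023 : ∃ t, chk3 f_pm_023 t 1 1 1 = true :=
  ⟨(b (a (b (l 1) (a (l 1) (b (l 1) (a (l 1) (l 331818824199))))) (a (b (a (l 1) (b (l 1) (a (l 1) (l 169146621399)))) (b (a (b (l 1) (l 16044560)) (b (a (l 15949552) (l 15942888)) (a (l 15964296) (l 15959928)))) (a (l 16067736) (l 16083568)))) (b (a (b (a (l 1) (l 190084568199)) (a (l 151429846151) (l 16004680))) (b (a (l 168609708407) (b (l 15990368) (l 15989840))) (a (l 15971952) (l 16074568)))) (a (b (b (c (l 15951808) (l 15944232)) (l 15971344)) (l 16036856)) (b (b (l 16152272) (l 16018336)) (l 16096248)))))) (a (b (a (b (l 1) (l 365104606679)) (a (b (l 16060560) (l 16005128)) (b (l 16051080) (l 16015464)))) (a (b (a (l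 15931176) (l 15949168)) (a (l 15866152) (l 15903152))) (b (a (l 15972720) (l 15990984)) (a (l 15949712) (l 15997520))))) (b (a (a (b (l 16059376) (l 16059208)) (b (l 16076376) (l 16102088))) (a (b (l 16110064) (l 16156056)) (b (l 16182664) (l 16301872)))) (a (b (l 16045824) (l 16192096)) (b (a (l 16289992) (l 16415032)) (l 16450160)))))), by decide +kernel⟩

theorem c_pm_023 : CertB 0 536870912 1610612736 536870912 740881858 40050571 3 eng mog cd0q0 cd1q3 pd2 false true false .up 0 2 3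
    ndB0q0 ndB1q3 pcB2 Cut.none Ext.none :=
  certB1 (fam := false) (s1 := true) (s2 := false) (a := 0) (b := 2) (c := 3) (cn := .up) (n1 := ndB0q0) (n2 := ndB1q3) (pc := pcB2) (cut := Cut.none) (xt := Ext.none) (P1 := 0) (W1 := 536870912) (P2 := 1610612736) (W2 := 536870912) (P3 := 740881858) (W3 := 40050571) (N0 := 3) (En := eng) (mo := mog) (C1 := cd0q0) (C2 := cd1q3) (C3 := pd2)
    rfl (fun _ => rfl) k0_pm_023

noncomputable def f_pm_033 : ℕ → ℕ → ℕ → ℕ → Bool := onCell 1610612736 536870912 1610612736 536870912 740881858 40050571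
    (rowB 3 eng mog cd0q0 cd1q3 pd3 2 false true false .pnn 0 3 3 (qsf 0 536870912 1610612736 536870912 3) ndB0q0 ndB1q3 pcB3 Cut.none Ext.none)

def k0_pm_033 : ∃ t, chk3 f_pm_033 t 1 1 1 = true :=
  ⟨(a (b (a (b (a (b (l 422549417879) (l 15863432)) (a (l 478383773431) (l 4))) (a (b (l 15903400) (l 15962344)) (b (l 16003896) (l 15914192)))) (l 4)) (a (b (a (b (l 16148640) (l 16294752)) (b (l 16069528) (l 16246352))) (a (b (l 16417776) (l 16511312)) (b (l 16364112) (l 16257104)))) (a (b (b (l 4) (l 441004205623)) (b (l 16266456) (l 16258200))) (l 4)))) (l 4)), by decide +kernel⟩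

theorem c_pm_033 : CertB 0 536870912 1610612736 536870912 740881858 40050571 3 eng mog cd0q0 cd1q3 pd3 false true false .pnn 0 3 3
    ndB0q0 ndB1q3 pcB3 Cut.none Ext.none :=
  certB2 (fam := false) (s1 := true) (s2 := false) (a := 0) (b := 3) (c := 3) (cn := .pnn) (n1 := ndB0q0) (n2 := ndB1q3) (pc := pcB3) (cut := Cut.none) (xt := Ext.none) (P1 := 0) (W1 := 536870912) (P2 := 1610612736) (W2 := 536870912) (P3 := 740881858) (W3 := 40050571) (N0 := 3) (En := eng) (mo := mog) (C1 := cd0q0) (C2 := cd1q3) (C3 := pd3)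
    rfl (fun _ => rfl) k0_pm_033

noncomputable def f_pm_101 : ℕ → ℕ → ℕ → ℕ → Bool := onCell 536870912 536870912 536870912 536870912 740881858 40050571
    (rowB 3 eng mog cd0q1 cd1q1 pd0 0 false true false .npn 1 0 1 (qsf 536870912 536870912 536870912 536870912 0) ndB0q1 ndB1q1 pcB0 Cut.none Ext.none)

def k0_pm_101 : ∃ t, chk3 f_pm_101 t 2 1 1 = true :=
  ⟨(b (a (l 4) (b (a (l 4) (l 1)) (b (a (l 4) (a (b (l 1) (l 16596872)) (l 1))) (a (a (b (l 4) (l 16482752)) (a (l 7750999671) (l 13656560823))) (a (b (l 16481128) (l 16459984)) (b (l 16479904) (l 16462456))))))) (a (b (a (b (l 4) (a (l 4) (b (l 4) (l 16340440)))) (b (a (l 4) (b (l 16447880) (l 16391392))) (a (b (l 16316160) (l 16236560)) (b (l 16333264) (l 16273728))))) (b (a (a (b (l 16329624) (l 16238848)) (b (l 16273304) (l 16209448))) (a (b (l 16213432) (l 16193568)) (b (l 16207552) (l 16190176)))) (a (a (b (l 16216856) (l 16198592)) (b (l 16186024) (l 16167368))) (b (a (l 16167400) (l 16166744)) (a (l 16145176)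 (l 16140088)))))) (b (a (b (a (b (l 16440592) (l 16399680)) (b (l 16439104) (l 16411624))) (a (b (l 16358664) (l 16311144)) (b (l 16380344) (l 16343744)))) (b (a (b (l 16442768) (l 16423976)) (l 16612864)) (a (b (l 16401744) (l 16374488)) (b (l 16426904) (l 16408720))))) (b (a (a (l 16227168) (l 16276216)) (a (b (l 16341400) (l 16302112)) (b (l 16385024) (l 16355664)))) (a (b (a (l 16179424) (l 16202752)) (a (b (l 16166160) (l 16147136)) (b (l 16181464) (l 16179792)))) (b (a (a (l 16248384) (l 16277456)) (b (l 16332976) (l 16309336))) (a (b (l 16227504) (l 16211648)) (b (l 16274968) (l 16280120))))))))), by decide +kernel⟩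

def k1_pm_101 : ∃ t, chk3 f_pm_101 t 3 1 1 = true :=
  ⟨(b (a (b (l 1) (a (b (l 1) (a (b (l 1) (l 16475344)) (l 1))) (l 1))) (l 1)) (a (b (a (b (a (l 16631632) (b (l 16491824) (l 16490872))) (a (l 16661400) (b (l 16491544) (l 16490216)))) (a (b (b (l 1) (l 16518104)) (b (l 16523008) (l 16527696))) (b (l 1) (b (l 16550552) (l 16559904))))) (b (a (b (a (l 16432408) (l 16484288)) (a (l 16417072) (b (l 16477808) (l 16466552)))) (b (a (l 16529416) (b (l 16566112) (l 16571976))) (a (b (l 16527200) (l 16515400)) (l 16633032)))) (a (b (a (a (l 16407864) (l 16401952)) (l 16453704)) (a (l 16343080) (a (l 16424048) (l 16459056)))) (a (b (l 16503296) (l 16496024)) (b (l 16537688) (l 16531480)))))) (b (a (b (l 1) (a (b (l 1) (l 16593040)) (l 1))) (l 1)) (b (a (a (b (b (l 16627072) (a (l 16594424) (l 16605416))) (l 16582232)) (b (b (l 1) (l 16621656)) (l 16687200))) (b (l 1) (a (l 181495951415) (l 1)))) (a (a (b (l 16565128) (l 16559632)) (b (l 16581112) (l 16576048))) (a (b (l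 16603192) (l 16596400)) (b (l 198675805447) (l 16615584)))))))), by decide +kernel⟩

theorem s2_pm_101 : ∃ t, chk3 f_pm_101 t 1 1 1 = true := ex3_a k0_pm_101 k1_pm_101

theorem c_pm_101 : CertB 536870912 536870912 536870912 536870912 740881858 40050571 3 eng mog cd0q1 cd1q1 pd0 false true false .npn 1 0 1
    ndB0q1 ndB1q1 pcB0 Cut.none Ext.none :=
  certB0 (fam := false) (s1 := true) (s2 := false) (a := 1) (b := 0) (c := 1) (cn := .npn) (n1 := ndB0q1) (n2 := ndB1q1) (pc := pcB0) (cut := Cut.none) (xt := Ext.none) (P1 := 536870912) (W1 := 536870912) (P2 := 536870912) (W2 := 536870912) (P3 := 740881858) (W3 := 40050571) (N0 := 3) (En := eng) (mo := mog) (C1 := cd0q1) (C2 := cd1q1) (C3 := pd0)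
    rfl s2_pm_101

end Pool.Agent.Strip051.G.I69_7273.Tab.C.BB01

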