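import Pool.Agent.Strip051.G.I69_7273.Tab

/-! # Certificates B16 (generated) -/

set_option linter.all false
set_option maxRecDepth 100000

namespace Pool.Agent.Strip051.G.I69_7273.Tab.C.BB01

open Pool.Agent.Strip051.PB Pool.Agent.Strip051.PB.T
open Pool.Agent.Strip051.G.I69_7273.Tab

noncomputable def cut_pm_102_b : Cut := Cut.of [[⟨0, 1, 0, 67108864⟩, ⟨1, 0, 0, 67108864⟩, ⟨2, 1, 0, 67108864⟩], [⟨0, 0, 1, 20971520⟩, ⟨1, 1, 2, 20971520⟩, ⟨2, 1, 0, 33554432⟩]]

noncomputable def f_pm_102_b : ℕ → ℕ → ℕ → ℕ → Bool := onCell 0 536870912 1239849684 370763052 740881858 40050571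
    (rowB 3 eng mog cd0q1 cd1q2b pd0 2 false true false .npp 1 0 2 (qsf 536870912 536870912 1239849684 370763052 0) ndB0q1 ndB1q2b pcB0 cut_pm_102_b Ext.none)

def k0_pm_102_b : ∃ t, chk3 f_pm_102_b t 1 1 1 = true :=
  ⟨(a (l 3) (b (a (l 3) (b (a (l 3) (a (l 3) (b (a (b (a (l 3) (b (a (b (a (l 3) (a (l 3) (b (b (a (l 51170496967) (l 16772440)) (l 3)) (l 3)))) (l 3)) (b (a (b (c (a (l 16769040) (l 16769200)) (l 16771832)) (c (l 95193900663) (l 89288322231))) (b (l 16769176) (l 16768872))) (a (l 3) (b (l 97878253975) (l 3))))) (l 3))) (l 3)) (b (a (b (b (a (c (a (l 16767728) (l 16767528)) (l 16772624)) (c (l 16766888) (l 16766288))) (a (a (b (l 16763352) (l 108615666535)) (l 16761928)) (l 16761824))) (a (b (a (l 3) (l 140291043559)) (l 3)) (b (a (l 84993341175) (l 16756248)) (l 140291046231)))) (b (b (a (l 16765112) (l 16763248)) (l 16771480)) (a (b (l 16756264) (l 16750592)) (l 16753576)))) (a (l 3) (b (a (b (l 139754153143) (l 3)) (b (l 16745168) (l 138143529431)))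 (l 3))))) (l 3)))) (l 3))) (a (l 3) (l 3)))), by decide +kernel⟩

theorem c_pm_102_b : CertB 536870912 536870912 1239849684 370763052 740881858 40050571 3 eng mog cd0q1 cd1q2b pd0 false true false .npp 1 0 2
    ndB0q1 ndB1q2b pcB0 cut_pm_102_b Ext.none :=
  certB2 (fam := false) (s1 := true) (s2 := false) (a := 1) (b := 0) (c := 2) (cn := .npp) (n1 := ndB0q1) (n2 := ndB1q2b) (pc := pcB0) (cut := cut_pm_102_b) (xt := Ext.none) (P1 := 536870912) (W1 := 536870912) (P2 := 1239849684) (W2 := 370763052) (P3 := 740881858) (W3 := 40050571) (N0 := 3) (En := eng) (mo := mog) (C1 := cd0q1) (C2 := cd1q2b) (C3 := pd0)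
    rfl (fun _ => rfl) k0_pm_102_b

noncomputable def f_pm_112_a : ℕ → ℕ → ℕ → ℕ → Bool := onCell 536870912 536870912 0 536870912 740881858 40050571
    (rowB 3 eng mog cd0q1 cd1q2a pd1 0 false true false .dn 1 1 2 (qsf 536870912 536870912 0 536870912 1) ndB0q1 ndB1q2a pcB1 Cut.none Ext.none)

def k0_pm_112_a : ∃ t, chk3 f_pm_112_a t 2 2 1 = true :=
  ⟨(a (b (a (a (b (a (l 16615520) (l 16625616)) (a (l 16577640) (l 16586008))) (b (a (l 16635992) (b (l 16657936) (l 16635504))) (l 16672464))) (b (a (b (a (b (l 16695128) (l 16663488)) (b (l 16685872) (a (l 16671312) (l 16676528)))) (a (l 16645936) (l 16699144))) (b (a (a (l 16688720) (l 16694704)) (a (l 16700856) (l 16728192))) (a (b (a (l 16670616) (l 16675904)) (a (l 16658752) (l 16664592))) (b (l 16684992) (a (l 16690424) (l 16674896)))))) (a (a (l 16612640) (l 16642952)) (a (b (l 16643480) (l 16619488)) (b (a (l 16651168) (b (l 16684024) (l 16650080))) (l 16628856)))))) (a (b (a (a (l 16540848) (l 16547864)) (l 16599616))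 (a (a (l 16506800) (l 16510936)) (b (l 16525528) (l 16505432)))) (b (a (b (l 16583128) (l 16559880)) (a (l 16603784) (b (l 16603536) (l 16577432)))) (a (b (l 16535760) (l 16553376)) (b (l 16547112) (a (l 16516256) (l 16521256))))))) (a (b (a (b (b (b (a (a (l 16720400) (l 16748416)) (a (c (l 16756400) (l 16755136)) (a (l 16761456) (l 16754896)))) (a (a (l 16707216) (l 16734888)) (a (c (l 16721744) (l 16720152)) (c (l 16749968) (l 16727488))))) (a (a (l 16687600) (b (l 16700496) (l 16687104))) (a (c (l 16722296) (l 16720272)) (b (c (l 16715000) (l 16713184)) (l 16720872))))) (a (b (b (a (b (l 16671072) (l 16664896)) (l 16673464)) (a (l 16655200) (b (l 16663728) (l 16657120)))) (l 16680400)) (b (a (b (l 16679592) (b (l 16669224) (l 16683288))) (b (l 16685696) (l 16671360))) (b (a (l 16652408) (b (l 62310398023) (l 16654000))) (l 16641320))))) (b (l 1) (l 1))) (a (b (a (b (l 16612160) (l 16584968)) (b (l 16662792) (l 16592640))) (a (b (l 16556472) (l 16526240)) (l 1)))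 (l 1))) (l 1))), by decide +kernel⟩

def k1_pm_112_a : ∃ t, chk3 f_pm_112_a t 2 3 1 = true :=
  ⟨(a (b (a (b (a (l 16532736) (l 16471664)) (a (l 16416096) (l 16409496))) (b (a (l 16473608) (b (l 51572771159) (l 16460512))) (a (l 16404104) (l 61236097639)))) (a (b (a (l 16387200) (l 16326424)) (a (b (l 16350448) (a (l 16285896) (l 16274584))) (l 245382590471))) (b (b (l 113312521911) (l 1)) (l 1)))) (b (l 1) (l 1))), by decide +kernel⟩

def k2_pm_112_a : ∃ t, chk3 f_pm_112_a t 3 1 1 = true :=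
  ⟨(l 1), by decide +kernel⟩

theorem s3_pm_112_a : ∃ t, chk3 f_pm_112_a t 2 1 1 = true := ex3_b k0_pm_112_a k1_pm_112_a

theorem s4_pm_112_a : ∃ t, chk3 f_pm_112_a t 1 1 1 = true := ex3_a s3_pm_112_a k2_pm_112_a

theorem c_pm_112_a : CertB 536870912 536870912 0 536870912 740881858 40050571 3 eng mog cd0q1 cd1q2a pd1 false true false .dn 1 1 2
    ndB0q1 ndB1q2a pcB1 Cut.none Ext.none :=
  certB0 (fam := false) (s1 := true) (s2 := false) (a := 1) (b := 1) (c := 2) (cn := .dn) (n1 := ndB0q1) (n2 := ndB1q2a) (pc := pcB1) (cut := Cut.none) (xt := Ext.none) (P1 := 536870912) (W1 := 536870912) (P2 := 0) (W2 := 536870912) (P3 := 740881858) (W3 := 40050571) (N0 := 3) (En := eng) (mo := mog) (C1 := cd0q1) (C2 := cd1q2a) (C3 := pd1)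
    rfl s4_pm_112_a

noncomputable def f_pm_112_b : ℕ → ℕ → ℕ → ℕ → Bool := onCell 536870912 536870912 536870912 536870912 740881858 40050571
    (rowB 3 eng mog cd0q1 cd1q2b pd1 1 false true false .dn 1 1 2 (qsf 536870912 536870912 1239849684 370763052 1) ndB0q1 ndB1q2b pcB1 Cut.none Ext.none)

def k0_pm_112_b : ∃ t, chk3 f_pm_112_b t 4 4 1 = true :=
  ⟨(b (a (l 1) (b (a (l 1) (b (l 1) (a (l 1) (b (l 1) (a (l 1) (l 63921086311)))))) (a (b (l 1) (a (l 1) (b (l 1) (l 87543358535)))) (b (a (b (l 1) (l 71437246183)) (b (a (l 16716712) (l 16729976)) (l 85395916999))) (a (b (l 54257382359) (l 16701064)) (l 16706160)))))) (a (a (b (l 1) (a (l 1) (l 62310374983))) (b (a (l 1) (b (l 1) (a (l 1) (l 16678336)))) (b (a (l 16668104) (l 97743882295)) (l 117071234023)))) (b (a (b (a (l 58552303063) (l 76269073367)) (a (l 16679536) (l 16680696))) (a (l 16708376) (l 16687352))) (a (a (l 16682640) (l 16661064)) (l 16659744))))), by decide +kernel⟩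

def k1_pm_112_b : ∃ t, chk3 f_pm_112_b t 5 4 1 = true :=
  ⟨(b (a (b (a (b (a (a (l 1) (a (l 1) (b (l 1) (l 54257444599)))) (b (a (a (l 1) (b (l 1) (l 16745264))) (b (a (l 45667532407) (l 70900471335)) (a (l 16746520) (l 16747112)))) (a (b (a (l 16741328) (l 16742704)) (l 90764675047)) (l 16742072)))) (a (a (b (l 60699871703) (l 71974165767)) (b (a (l 85932820999) (l 16734088)) (l 16728408))) (b (a (l 16735344) (l 16735288)) (l 16728888)))) (a (b (b (a (b (l 16750496) (l 16746624)) (l 16745848)) (a (l 16740888) (l 16737664))) (l 16728000)) (b (b (a (l 16741272) (l 16735496)) (l 16730336)) (l 16718768)))) (a (a (b (a (l 16718816) (l 16719456)) (l 16706632)) (b (l 16718520) (l 16704488))) (a (l 16726840) (l 16717864)))) (a (b (b (a (a (b (l 185388169047) (l 16741800)) (l 218137238551)) (l 3)) (a (a (l 16709960) (l 95193823975)) (l 215989703639))) (a (b (l 16692728) (l 16679384)) (b (l 102173106631) (l 16667064)))) (b (l 3) (a (l 205789089399) (l 3))))) (a (a (b (l 16726936)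 (l 16656568)) (b (l 16674104) (l 16647800))) (b (a (a (l 16660480) (l 16649824)) (a (l 88214428183) (l 172503121703))) (a (l 16633096) (a (l 16619384) (l 16608360)))))), by decide +kernel⟩

def k2_pm_112_b : ∃ t, chk3 f_pm_112_b t 2 5 1 = true :=
  ⟨(a (a (b (a (b (a (l 106870660103) (l 120292441255)) (l 16628816)) (b (l 16634552) (l 16601056))) (a (l 16571776) (l 16544536))) (b (b (a (l 16631784) (l 16628424)) (l 16618512)) (l 16649032))) (b (a (b (a (l 16627496) (l 16622272)) (l 16680400)) (b (a (l 16612792) (l 16599952)) (a (l 16592928) (l 16587736)))) (a (b (l 16735192) (l 16624688)) (a (l 16566024) (a (l 16572576) (l 16576880)))))), by decide +kernel⟩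

def k3_pm_112_b : ∃ t, chk3 f_pm_112_b t 3 2 1 = true :=
  ⟨(a (b (b (l 3) (a (a (b (l 3) (l 155323207399)) (l 3)) (l 3))) (b (a (b (a (b (l 16583592) (l 16581424)) (l 3)) (a (l 16579376) (l 132774636679))) (l 3)) (a (a (b (l 16580544) (l 16587312)) (b (l 16579928) (l 16601088))) (a (b (l 200420293047) (l 2)) (l 2))))) (l 3)), by decide +kernel⟩

def k4_pm_112_b : ∃ t, chk3 f_pm_112_b t 1 3 1 = true :=
  ⟨(a (b (a (a (b (l 16693496) (l 16498736)) (b (l 16470016) (l 16395024))) (b (a (a (l 16491104) (l 16513184)) (b (l 16598952) (l 77946757223))) (a (l 16450992) (a (l 16522344) (l 2))))) (a (a (b (a (l 16274696) (l 16285904)) (a (l 16174384) (l 16194888))) (b (l 16320168) (l 16246552))) (a (b (l 16406400) (l 2)) (l 2)))) (b (a (b (a (b (a (l 16600136) (l 2)) (l 2)) (l 2)) (l 2)) (l 2)) (l 2))), by decide +kernel⟩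

theorem s5_pm_112_b : ∃ t, chk3 f_pm_112_b t 2 4 1 = true := ex3_a k0_pm_112_b k1_pm_112_b

theorem s6_pm_112_b : ∃ t, chk3 f_pm_112_b t 2 2 1 = true := ex3_b s5_pm_112_b k2_pm_112_b

theorem s7_pm_112_b : ∃ t, chk3 f_pm_112_b t 1 2 1 = true := ex3_a s6_pm_112_b k3_pm_112_b

theorem s8_pm_112_b : ∃ t, chk3 f_pm_112_b t 1 1 1 = true := ex3_b s7_pm_112_b k4_pm_112_b

theorem c_pm_112_b : CertB 536870912 536870912 1239849684 370763052 740881858 40050571 3 eng mog cd0q1 cd1q2b pd1 false true false .dn 1 1 2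
    ndB0q1 ndB1q2b pcB1 Cut.none Ext.none :=
  certB1 (fam := false) (s1 := true) (s2 := false) (a := 1) (b := 1) (c := 2) (cn := .dn) (n1 := ndB0q1) (n2 := ndB1q2b) (pc := pcB1) (cut := Cut.none) (xt := Ext.none) (P1 := 536870912) (W1 := 536870912) (P2 := 1239849684) (W2 := 370763052) (P3 := 740881858) (W3 := 40050571) (N0 := 3) (En := eng) (mo := mog) (C1 := cd0q1) (C2 := cd1q2b) (C3 := pd1)
    rfl (fun _ => rfl) s8_pm_112_b

noncomputable def cut_pm_113 : Cut := Cut.of [[⟨0, 1, 0, 67108864⟩, ⟨1, 1, 0, 67108864⟩, ⟨2, 2, 0, 16777216⟩]]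

noncomputable def f_pm_113 : ℕ → ℕ → ℕ → ℕ → Bool := onCell 536870912 536870912 536870912 536870912 740881858 40050571
    (rowB 3 eng mog cd0q1 cd1q3 pd1 1 false true false .nn 1 1 3 (qsf 536870912 536870912 1610612736 536870912 1) ndB0q1 ndB1q3 pcB1 cut_pm_113 Ext.none)

def k0_pm_113 : ∃ t, chk3 f_pm_113 t 1 2 1 = true :=
  ⟨(a (b (l 1) (a (l 1) (b (l 1) (a (l 1) (b (l 1) (l 16605720)))))) (a (a (b (l 1) (b (b (l 1) (a (l 1) (l 120829276279))) (a (b (l 16584264) (l 16589424)) (b (l 16588080) (l 16607688))))) (b (l 3) (b (l 3) (a (b (l 199346547399) (l 147806965479)) (l 3))))) (l 3))), by decide +kernel⟩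

def k1_pm_113 : ∃ t, chk3 f_pm_113 t 2 3 1 = true :=
  ⟨(b (a (a (l 1) (b (l 1) (l 16389632))) (b (a (a (l 1) (l 16508024)) (b (l 16553080) (l 16670112))) (a (l 16439392) (a (l 16507440) (l 16568184))))) (a (a (b (l 16358856) (a (l 16167304) (l 16183328))) (b (l 16308088) (l 16226656))) (a (b (l 16385032) (b (l 16346832) (l 16322896))) (b (l 16534160) (b (l 16541856) (l 16546296)))))), by decide +kernel⟩

def k2_pm_113 : ∃ t, chk3 f_pm_113 t 3 3 1 = true :=
  ⟨(b (a (b (a (b (a (l 16599240) (l 16634448)) (a (l 16614024) (l 16669296))) (a (b (l 16666488) (l 16727840)) (b (l 219210932119) (b (l 142438452999) (l 16810448))))) (a (a (b (l 16632632) (l 16656656)) (b (l 16711488) (l 16762256))) (b (a (l 16803960) (l 16905560)) (a (l 16891224) (l 16956696))))) (a (b (a (b (l 3) (l 291151881639)) (l 3)) (a (b (a (l 109152600343) (l 233169874327)) (a (l 16969232) (l 16833312))) (b (l 3) (a (l 228874835671) (l 3))))) (l 3))) (a (b (a (a (l 16707424) (b (l 16783712) (l 16735560)))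 (b (a (l 16827576) (l 16881832)) (a (l 16774408) (l 16819696)))) (a (a (l 16635648) (l 16671712)) (b (b (l 16721936) (l 16722920)) (b (l 16724120) (l 16704624))))) (b (a (a (b (a (l 16920784) (l 16949272)) (l 16861720)) (b (a (b (l 16887776) (l 16935328)) (b (l 211694937031) (l 16824480))) (b (a (l 16914888) (l 16912384)) (l 16887776)))) (a (b (a (b (l 3) (l 306184329623)) (l 3)) (a (b (l 205789365063) (l 16848768)) (b (l 3) (l 371682594615)))) (l 3))) (a (a (b (l 16807848) (l 16765984)) (b (b (l 16856736) (l 16830456)) (l 16794992))) (a (b (b (a (l 16872664) (a (l 16872952) (l 232096069079))) (a (l 16844024) (l 16846280))) (b (l 16818560) (l 16793424))) (b (a (b (l 496773460807) (a (b (l 234243546967) (l 16840288)) (b (l 3) (l 475298618743)))) (l 3)) (a (b (a (l 16818872) (b (l 237464741335) (l 16812096))) (a (l 16792160) (l 16791712))) (a (b (b (l 544018058103) (a (l 231022283623) (l 514490151607))) (b (a (l 16798224) (b (l 265918886247) (l 16794688))) (l 16784648)))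 (b (l 3) (a (a (b (b (l 567103487927) (l 235317241399)) (l 16784336)) (b (b (l 3) (l 526301289511)) (l 6))) (b (l 3) (l 6)))))))))))), by decide +kernel⟩

theorem s3_pm_113 : ∃ t, chk3 f_pm_113 t 1 3 1 = true := ex3_a k1_pm_113 k2_pm_113

theorem s4_pm_113 : ∃ t, chk3 f_pm_113 t 1 1 1 = true := ex3_b k0_pm_113 s3_pm_113

theorem c_pm_113 : CertB 536870912 536870912 1610612736 536870912 740881858 40050571 3 eng mog cd0q1 cd1q3 pd1 false true false .nn 1 1 3
    ndB0q1 ndB1q3 pcB1 cut_pm_113 Ext.none :=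
  certB1 (fam := false) (s1 := true) (s2 := false) (a := 1) (b := 1) (c := 3) (cn := .nn) (n1 := ndB0q1) (n2 := ndB1q3) (pc := pcB1) (cut := cut_pm_113) (xt := Ext.none) (P1 := 536870912) (W1 := 536870912) (P2 := 1610612736) (W2 := 536870912) (P3 := 740881858) (W3 := 40050571) (N0 := 3) (En := eng) (mo := mog) (C1 := cd0q1) (C2 := cd1q3) (C3 := pd1)
    rfl (fun _ => rfl) s4_pm_113

noncomputable def cut_pm_123 : Cut := Cut.of [[⟨0, 1, 0, 67108864⟩, ⟨1, 1, 0, 67108864⟩, ⟨2, 2, 0, 16777216⟩]]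

noncomputable def f_pm_123 : ℕ → ℕ → ℕ → ℕ → Bool := onCell 536870912 536870912 1073741824 536870912 740881858 40050571
    (rowB 3 eng mog cd0q1 cd1q3 pd2 1 false true false .npn 1 2 3 (qsf 536870912 536870912 1610612736 536870912 2) ndB0q1 ndB1q3 pcB2 cut_pm_123 Ext.none)

def k0_pm_123 : ∃ t, chk3 f_pm_123 t 2 1 1 = true :=
  ⟨(b (a (b (a (b (a (b (l 16004024) (l 16008480)) (b (l 16025648) (l 16034672))) (b (l 16206528) (l 16037464))) (b (b (a (l 16057864) (l 16102872)) (l 16094920)) (b (l 16111184) (l 16129928)))) (a (b (b (l 16054448) (l 16097352)) (l 16185280)) (b (b (l 16159400) (l 16209640)) (l 16298176)))) (b (a (b (a (b (l 16163976) (l 16186936)) (b (l 16252440) (l 16280120))) (b (l 16257504) (l 16265120))) (b (a (b (l 16367520) (l 16355784)) (b (l 16420176) (l 16406704))) (b (l 16354344) (l 16520680)))) (b (a (b (l 16284632) (l 16323656)) (b (l 16541392) (l 16430728))) (a (l 16399584) (a (l 16473424) (l 16521664)))))) (a (b (a (l 16257880) (b (l 16406320)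 (l 16502728))) (a (l 16551264) (l 16624592))) (b (a (b (l 16495864) (l 16584984)) (b (l 16588504) (l 16665440))) (a (b (l 16658952) (l 2)) (l 2))))), by decide +kernel⟩

def k1_pm_123 : ∃ t, chk3 f_pm_123 t 3 1 1 = true :=
  ⟨(b (a (b (b (a (b (a (l 16484400) (l 16497168)) (a (l 16448856) (l 16482472))) (b (a (l 16536552) (l 16582448)) (a (l 16521704) (l 16567864)))) (a (b (a (l 16438360) (l 16472520)) (a (l 16437088) (l 16473304))) (b (a (l 16512496) (l 16560368)) (a (l 16516136) (l 16568600))))) (b (a (b (a (l 16462896) (l 16505152)) (l 16607368)) (b (a (l 16555984) (b (l 16602968) (b (l 16622440) (l 16613632)))) (l 16646288))) (a (a (l 16569272) (l 16612736)) (a (l 16659520) (l 2))))) (b (b (a (a (b (l 16632592) (l 16618320)) (b (l 16685776) (b (l 16675264) (l 16670752)))) (b (a (a (l 16716656) (b (l 16735360) (l 16729936))) (b (b (a (l 16751856) (a (a (l 16761792) (l 6)) (l 6))) (a (l 16749624) (a (l 6) (l 820439356231)))) (a (l 16746880) (l 810775611879)))) (a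 (b (l 16716384) (l 16711384)) (a (l 591195649575) (l 2))))) (a (b (a (l 16614616) (l 16664704)) (a (l 16628256) (l 16668360))) (a (b (l 447314313431) (l 2)) (l 2)))) (a (b (b (b (l 267462649223) (l 2)) (l 2)) (l 2)) (l 2)))) (a (b (a (b (l 90295303623) (l 2)) (l 2)) (l 2)) (l 2))), by decide +kernel⟩

theorem s2_pm_123 : ∃ t, chk3 f_pm_123 t 1 1 1 = true := ex3_a k0_pm_123 k1_pm_123

theorem c_pm_123 : CertB 536870912 536870912 1610612736 536870912 740881858 40050571 3 eng mog cd0q1 cd1q3 pd2 false true false .npn 1 2 3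
    ndB0q1 ndB1q3 pcB2 cut_pm_123 Ext.none :=
  certB1 (fam := false) (s1 := true) (s2 := false) (a := 1) (b := 2) (c := 3) (cn := .npn) (n1 := ndB0q1) (n2 := ndB1q3) (pc := pcB2) (cut := cut_pm_123) (xt := Ext.none) (P1 := 536870912) (W1 := 536870912) (P2 := 1610612736) (W2 := 536870912) (P3 := 740881858) (W3 := 40050571) (N0 := 3) (En := eng) (mo := mog) (C1 := cd0q1) (C2 := cd1q3) (C3 := pd2)
    rfl (fun _ => rfl) s2_pm_123

noncomputable def f_pm_133 : ℕ → ℕ → ℕ → ℕ → Bool := onCell 536870912 536870912 1610612736 536870912 740881858 40050571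
    (rowB 3 eng mog cd0q1 cd1q3 pd3 0 false true false .dn 1 3 3 (qsf 536870912 536870912 1610612736 536870912 3) ndB0q1 ndB1q3 pcB3 Cut.none Ext.none)

def k0_pm_133 : ∃ t, chk3 f_pm_133 t 1 1 1 = true :=
  ⟨(a (b (l 1) (a (b (l 1) (a (b (l 1) (l 16621512)) (l 1))) (l 1))) (l 1)), by decide +kernel⟩

theorem c_pm_133 : CertB 536870912 536870912 1610612736 536870912 740881858 40050571 3 eng mog cd0q1 cd1q3 pd3 false true false .dn 1 3 3
    ndB0q1 ndB1q3 pcB3 Cut.none Ext.none :=
  certB0 (fam := false) (s1 := true) (s2 := false) (a := 1) (b := 3) (c := 3) (cn := .dn) (n1 := ndB0q1) (n2 := ndB1q3) (pc := pcB3) (cut := Cut.none) (xt := Ext.none) (P1 := 536870912) (W1 := 536870912) (P2 := 1610612736) (W2 := 536870912) (P3 := 740881858) (W3 := 40050571) (N0 := 3) (En := eng) (mo := mog) (C1 := cd0q1) (C2 := cd1q3) (C3 := pd3)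
    rfl k0_pm_133

noncomputable def cut_pm_202_a : Cut := Cut.of [[⟨0, 1, 0, 67108864⟩, ⟨1, 0, 0, 67108864⟩, ⟨2, 1, 0, 67108864⟩]]

noncomputable def f_pm_202_a : ℕ → ℕ → ℕ → ℕ → Bool := onCell 0 536870912 0 536870912 740881858 40050571
    (rowB 3 eng mog cd0q2 cd1q2a pd0 0 false true false .pp 2 0 2 (qsf 0 536870912 0 536870912 0) ndB0q2 ndB1q2a pcB0 cut_pm_202_a Ext.none)

def k0_pm_202_a : ∃ t, chk3 f_pm_202_a t 1 1 1 = true :=
  ⟨(a (l 3) (b (l 3) (a (l 3) (b (l 3) (a (l 3) (b (l 3) (l 6))))))), by decide +kernel⟩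

theorem c_pm_202_a : CertB 0 536870912 0 536870912 740881858 40050571 3 eng mog cd0q2 cd1q2a pd0 false true false .pp 2 0 2
    ndB0q2 ndB1q2a pcB0 cut_pm_202_a Ext.none :=
  certB0 (fam := false) (s1 := true) (s2 := false) (a := 2) (b := 0) (c := 2) (cn := .pp) (n1 := ndB0q2) (n2 := ndB1q2a) (pc := pcB0) (cut := cut_pm_202_a) (xt := Ext.none) (P1 := 0) (W1 := 536870912) (P2 := 0) (W2 := 536870912) (P3 := 740881858) (W3 := 40050571) (N0 := 3) (En := eng) (mo := mog) (C1 := cd0q2) (C2 := cd1q2a) (C3 := pd0)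
    rfl k0_pm_202_a

noncomputable def cut_pm_202_b : Cut := Cut.of [[⟨0, 1, 0, 67108864⟩, ⟨1, 0, 0, 67108864⟩, ⟨2, 1, 0, 67108864⟩]]

noncomputable def f_pm_202_b : ℕ → ℕ → ℕ → ℕ → Bool := onCell 0 536870912 1239849684 370763052 740881858 40050571
    (rowB 3 eng mog cd0q2 cd1q2b pd0 0 false true false .pp 2 0 2 (qsf 0 536870912 1239849684 370763052 0) ndB0q2 ndB1q2b pcB0 cut_pm_202_b Ext.none)

def k0_pm_202_b : ∃ t, chk3 f_pm_202_b t 1 1 1 = true :=
  ⟨(l 3), by decide +kernel⟩

theorem c_pm_202_b : CertB 0 536870912 1239849684 370763052 740881858 40050571 3 eng mog cd0q2 cd1q2b pd0 false true false .pp 2 0 2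
    ndB0q2 ndB1q2b pcB0 cut_pm_202_b Ext.none :=
  certB0 (fam := false) (s1 := true) (s2 := false) (a := 2) (b := 0) (c := 2) (cn := .pp) (n1 := ndB0q2) (n2 := ndB1q2b) (pc := pcB0) (cut := cut_pm_202_b) (xt := Ext.none) (P1 := 0) (W1 := 536870912) (P2 := 1239849684) (W2 := 370763052) (P3 := 740881858) (W3 := 40050571) (N0 := 3) (En := eng) (mo := mog) (C1 := cd0q2) (C2 := cd1q2b) (C3 := pd0)
    rfl k0_pm_202_b

noncomputable def f_pm_203 : ℕ → ℕ → ℕ → ℕ → Bool := onCell 0 536870912 0 536870912 740881858 40050571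
    (rowB 3 eng mog cd0q2 cd1q3 pd0 1 false true false .up 2 0 3 (qsf 0 536870912 1610612736 536870912 0) ndB0q2 ndB1q3 pcB0 Cut.none Ext.none)

def k0_pm_203 : ∃ t, chk3 f_pm_203 t 1 1 1 = true :=
  ⟨(l 3), by decide +kernel⟩

theorem c_pm_203 : CertB 0 536870912 1610612736 536870912 740881858 40050571 3 eng mog cd0q2 cd1q3 pd0 false true false .up 2 0 3
    ndB0q2 ndB1q3 pcB0 Cut.none Ext.none :=
  certB1 (fam := false) (s1 := true) (s2 := false) (a := 2) (b := 0) (c := 3) (cn := .up) (n1 := ndB0q2) (n2 := ndB1q3) (pc := pcB0) (cut := Cut.none) (xt := Ext.none) (P1 := 0) (W1 := 536870912) (P2 := 1610612736) (W2 := 536870912) (P3 := 740881858) (W3 := 40050571) (N0 := 3) (En := eng) (mo := mog) (C1 := cd0q2) (C2 := cd1q3) (C3 := pd0)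
    rfl (fun _ => rfl) k0_pm_203

noncomputable def cut_pm_213 : Cut := Cut.of [[⟨0, 1, 0, 67108864⟩, ⟨1, 1, 0, 67108864⟩, ⟨2, 2, 0, 16777216⟩]]

noncomputable def f_pm_213 : ℕ → ℕ → ℕ → ℕ → Bool := onCell 0 536870912 1610612736 536870912 740881858 40050571
    (rowB 3 eng mog cd0q2 cd1q3 pd1 0 false true false .pnn 2 1 3 (qsf 0 536870912 1610612736 536870912 1) ndB0q2 ndB1q3 pcB1 cut_pm_213 Ext.none)

def k0_pm_213 : ∃ t, chk3 f_pm_213 t 1 1 1 = true :=
  ⟨(b (l 3) (a (l 3) (b (l 3) (a (l 3) (b (l 3) (a (l 3) (a (l 3) (b (l 3) (b (l 3) (b (l 3) (l 6))))))))))), by decide +kernel⟩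

theorem c_pm_213 : CertB 0 536870912 1610612736 536870912 740881858 40050571 3 eng mog cd0q2 cd1q3 pd1 false true false .pnn 2 1 3
    ndB0q2 ndB1q3 pcB1 cut_pm_213 Ext.none :=
  certB0 (fam := false) (s1 := true) (s2 := false) (a := 2) (b := 1) (c := 3) (cn := .pnn) (n1 := ndB0q2) (n2 := ndB1q3) (pc := pcB1) (cut := cut_pm_213) (xt := Ext.none) (P1 := 0) (W1 := 536870912) (P2 := 1610612736) (W2 := 536870912) (P3 := 740881858) (W3 := 40050571) (N0 := 3) (En := eng) (mo := mog) (C1 := cd0q2) (C2 := cd1q3) (C3 := pd1)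
    rfl k0_pm_213

noncomputable def f_mm_001 : ℕ → ℕ → ℕ → ℕ → Bool := onCell 0 536870912 536870912 536870912 740881858 40050571
    (rowB 3 eng mog cd0q0 cd1q1 pd0 0 false false false .up 0 0 1 (qsf 0 536870912 536870912 536870912 0) ndB0q0 ndB1q1 pcB0 Cut.none Ext.none)

def k0_mm_001 : ∃ t, chk3 f_mm_001 t 1 1 1 = true :=
  ⟨(l 3), by decide +kernel⟩

theorem c_mm_001 : CertB 0 536870912 536870912 536870912 740881858 40050571 3 eng mog cd0q0 cd1q1 pd0 false false false .up 0 0 1
    ndB0q0 ndB1q1 pcB0 Cut.none Ext.none :=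
  certB0 (fam := false) (s1 := false) (s2 := false) (a := 0) (b := 0) (c := 1) (cn := .up) (n1 := ndB0q0) (n2 := ndB1q1) (pc := pcB0) (cut := Cut.none) (xt := Ext.none) (P1 := 0) (W1 := 536870912) (P2 := 536870912) (W2 := 536870912) (P3 := 740881858) (W3 := 40050571) (N0 := 3) (En := eng) (mo := mog) (C1 := cd0q0) (C2 := cd1q1) (C3 := pd0)
    rfl k0_mm_001

noncomputable def f_mm_011 : ℕ → ℕ → ℕ → ℕ → Bool := onCell 0 536870912 536870912 536870912 740881858 40050571
    (rowB 3 eng mog cd0q0 cd1q1 pd1 0 false false false .pnn 0 1 1 (qsf 0 536870912 536870912 536870912 1) ndB0q0 ndB1q1 pcB1 Cut.none Ext.none)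

def k0_mm_011 : ∃ t, chk3 f_mm_011 t 1 1 1 = true :=
  ⟨(l 3), by decide +kernel⟩

theorem c_mm_011 : CertB 0 536870912 536870912 536870912 740881858 40050571 3 eng mog cd0q0 cd1q1 pd1 false false false .pnn 0 1 1
    ndB0q0 ndB1q1 pcB1 Cut.none Ext.none :=
  certB0 (fam := false) (s1 := false) (s2 := false) (a := 0) (b := 1) (c := 1) (cn := .pnn) (n1 := ndB0q0) (n2 := ndB1q1) (pc := pcB1) (cut := Cut.none) (xt := Ext.none) (P1 := 0) (W1 := 536870912) (P2 := 536870912) (W2 := 536870912) (P3 := 740881858) (W3 := 40050571) (N0 := 3) (En := eng) (mo := mog) (C1 := cd0q0) (C2 := cd1q1) (C3 := pd1)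
    rfl k0_mm_011

noncomputable def f_mm_012_a : ℕ → ℕ → ℕ → ℕ → Bool := onCell 0 536870912 0 536870912 740881858 40050571
    (rowB 3 eng mog cd0q0 cd1q2a pd1 0 false false false .pnp 0 1 2 (qsf 0 536870912 0 536870912 1) ndB0q0 ndB1q2a pcB1 Cut.none Ext.none)

def k0_mm_012_a : ∃ t, chk3 f_mm_012_a t 1 1 1 = true :=
  ⟨(l 5), by decide +kernel⟩

theorem c_mm_012_a : CertB 0 536870912 0 536870912 740881858 40050571 3 eng mog cd0q0 cd1q2a pd1 false false false .pnp 0 1 2
    ndB0q0 ndB1q2a pcB1 Cut.none Ext.none :=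
  certB0 (fam := false) (s1 := false) (s2 := false) (a := 0) (b := 1) (c := 2) (cn := .pnp) (n1 := ndB0q0) (n2 := ndB1q2a) (pc := pcB1) (cut := Cut.none) (xt := Ext.none) (P1 := 0) (W1 := 536870912) (P2 := 0) (W2 := 536870912) (P3 := 740881858) (W3 := 40050571) (N0 := 3) (En := eng) (mo := mog) (C1 := cd0q0) (C2 := cd1q2a) (C3 := pd1)
    rfl k0_mm_012_a

noncomputable def f_mm_012_b : ℕ → ℕ → ℕ → ℕ → Bool := onCell 0 536870912 1239849684 370763052 740881858 40050571
    (rowB 3 eng mog cd0q0 cd1q2b pd1 0 false false false .pnp 0 1 2 (qsf 0 536870912 1239849684 370763052 1) ndB0q0 ndB1q2b pcB1 Cut.none Ext.none)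

def k0_mm_012_b : ∃ t, chk3 f_mm_012_b t 1 1 1 = true :=
  ⟨(l 5), by decide +kernel⟩

theorem c_mm_012_b : CertB 0 536870912 1239849684 370763052 740881858 40050571 3 eng mog cd0q0 cd1q2b pd1 false false false .pnp 0 1 2
    ndB0q0 ndB1q2b pcB1 Cut.none Ext.none :=
  certB0 (fam := false) (s1 := false) (s2 := false) (a := 0) (b := 1) (c := 2) (cn := .pnp) (n1 := ndB0q0) (n2 := ndB1q2b) (pc := pcB1) (cut := Cut.none) (xt := Ext.none) (P1 := 0) (W1 := 536870912) (P2 := 1239849684) (W2 := 370763052) (P3 := 740881858) (W3 := 40050571) (N0 := 3) (En := eng) (mo := mog) (C1 := cd0q0) (C2 := cd1q2b) (C3 := pd1)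
    rfl k0_mm_012_b

noncomputable def f_mm_022_a : ℕ → ℕ → ℕ → ℕ → Bool := onCell 0 536870912 0 536870912 740881858 40050571
    (rowB 3 eng mog cd0q0 cd1q2a pd2 0 false false false .pp 0 2 2 (qsf 0 536870912 0 536870912 2) ndB0q0 ndB1q2a pcB2 Cut.none Ext.none)

def k0_mm_022_a : ∃ t, chk3 f_mm_022_a t 1 1 1 = true :=
  ⟨(l 5), by decide +kernel⟩

theorem c_mm_022_a : CertB 0 536870912 0 536870912 740881858 40050571 3 eng mog cd0q0 cd1q2a pd2 false false false .pp 0 2 2
    ndB0q0 ndB1q2a pcB2 Cut.none Ext.none :=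
  certB0 (fam := false) (s1 := false) (s2 := false) (a := 0) (b := 2) (c := 2) (cn := .pp) (n1 := ndB0q0) (n2 := ndB1q2a) (pc := pcB2) (cut := Cut.none) (xt := Ext.none) (P1 := 0) (W1 := 536870912) (P2 := 0) (W2 := 536870912) (P3 := 740881858) (W3 := 40050571) (N0 := 3) (En := eng) (mo := mog) (C1 := cd0q0) (C2 := cd1q2a) (C3 := pd2)
    rfl k0_mm_022_a

noncomputable def f_mm_022_b : ℕ → ℕ → ℕ → ℕ → Bool := onCell 0 536870912 1239849684 370763052 740881858 40050571
    (rowB 3 eng mog cd0q0 cd1q2b pd2 0 false false false .pp 0 2 2 (qsf 0 536870912 1239849684 370763052 2) ndB0q0 ndB1q2b pcB2 Cut.none Ext.none)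

def k0_mm_022_b : ∃ t, chk3 f_mm_022_b t 1 1 1 = true :=
  ⟨(l 5), by decide +kernel⟩

theorem c_mm_022_b : CertB 0 536870912 1239849684 370763052 740881858 40050571 3 eng mog cd0q0 cd1q2b pd2 false false false .pp 0 2 2
    ndB0q0 ndB1q2b pcB2 Cut.none Ext.none :=
  certB0 (fam := false) (s1 := false) (s2 := false) (a := 0) (b := 2) (c := 2) (cn := .pp) (n1 := ndB0q0) (n2 := ndB1q2b) (pc := pcB2) (cut := Cut.none) (xt := Ext.none) (P1 := 0) (W1 := 536870912) (P2 := 1239849684) (W2 := 370763052) (P3 := 740881858) (W3 := 40050571) (N0 := 3) (En := eng) (mo := mog) (C1 := cd0q0) (C2 := cd1q2b) (C3 := pd2)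
    rfl k0_mm_022_b

noncomputable def f_mm_023 : ℕ → ℕ → ℕ → ℕ → Bool := onCell 0 536870912 1610612736 536870912 740881858 40050571
    (rowB 3 eng mog cd0q0 cd1q3 pd2 0 false false false .up 0 2 3 (qsf 0 536870912 1610612736 536870912 2) ndB0q0 ndB1q3 pcB2 Cut.none Ext.none)

def k0_mm_023 : ∃ t, chk3 f_mm_023 t 1 1 1 = true :=
  ⟨(l 5), by decide +kernel⟩

theorem c_mm_023 : CertB 0 536870912 1610612736 536870912 740881858 40050571 3 eng mog cd0q0 cd1q3 pd2 false false false .up 0 2 3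
    ndB0q0 ndB1q3 pcB2 Cut.none Ext.none :=
  certB0 (fam := false) (s1 := false) (s2 := false) (a := 0) (b := 2) (c := 3) (cn := .up) (n1 := ndB0q0) (n2 := ndB1q3) (pc := pcB2) (cut := Cut.none) (xt := Ext.none) (P1 := 0) (W1 := 536870912) (P2 := 1610612736) (W2 := 536870912) (P3 := 740881858) (W3 := 40050571) (N0 := 3) (En := eng) (mo := mog) (C1 := cd0q0) (C2 := cd1q3) (C3 := pd2)
    rfl k0_mm_023

noncomputable def f_mm_033 : ℕ → ℕ → ℕ → ℕ → Bool := onCell 0 536870912 1610612736 536870912 740881858 40050571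
    (rowB 3 eng mog cd0q0 cd1q3 pd3 0 false false false .pnn 0 3 3 (qsf 0 536870912 1610612736 536870912 3) ndB0q0 ndB1q3 pcB3 Cut.none Ext.none)

def k0_mm_033 : ∃ t, chk3 f_mm_033 t 1 1 1 = true :=
  ⟨(l 5), by decide +kernel⟩

theorem c_mm_033 : CertB 0 536870912 1610612736 536870912 740881858 40050571 3 eng mog cd0q0 cd1q3 pd3 false false false .pnn 0 3 3
    ndB0q0 ndB1q3 pcB3 Cut.none Ext.none :=
  certB0 (fam := false) (s1 := false) (s2 := false) (a := 0) (b := 3) (c := 3) (cn := .pnn) (n1 := ndB0q0) (n2 := ndB1q3) (pc := pcB3) (cut := Cut.none) (xt := Ext.none) (P1 := 0) (W1 := 536870912) (P2 := 1610612736) (W2 := 536870912) (P3 := 740881858) (W3 := 40050571) (N0 := 3) (En := eng) (mo := mog) (C1 := cd0q0) (C2 := cd1q3) (C3 := pd3)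
    rfl k0_mm_033

noncomputable def f_mm_101 : ℕ → ℕ → ℕ → ℕ → Bool := onCell 536870912 536870912 536870912 536870912 740881858 40050571
    (rowB 3 eng mog cd0q1 cd1q1 pd0 0 false false false .npn 1 0 1 (qsf 536870912 536870912 536870912 536870912 0) ndB0q1 ndB1q1 pcB0 Cut.none Ext.none)

def k0_mm_101 : ∃ t, chk3 f_mm_101 t 1 1 1 = true :=
  ⟨(l 3), by decide +kernel⟩

theorem c_mm_101 : CertB 536870912 536870912 536870912 536870912 740881858 40050571 3 eng mog cd0q1 cd1q1 pd0 false false false .npn 1 0 1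
    ndB0q1 ndB1q1 pcB0 Cut.none Ext.none :=
  certB0 (fam := false) (s1 := false) (s2 := false) (a := 1) (b := 0) (c := 1) (cn := .npn) (n1 := ndB0q1) (n2 := ndB1q1) (pc := pcB0) (cut := Cut.none) (xt := Ext.none) (P1 := 536870912) (W1 := 536870912) (P2 := 536870912) (W2 := 536870912) (P3 := 740881858) (W3 := 40050571) (N0 := 3) (En := eng) (mo := mog) (C1 := cd0q1) (C2 := cd1q1) (C3 := pd0)
    rfl k0_mm_101

noncomputable def f_mm_102_a : ℕ → ℕ → ℕ → ℕ → Bool := onCell 536870912 536870912 0 536870912 740881858 40050571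
    (rowB 3 eng mog cd0q1 cd1q2a pd0 0 false false false .npp 1 0 2 (qsf 536870912 536870912 0 536870912 0) ndB0q1 ndB1q2a pcB0 Cut.none Ext.none)

def k0_mm_102_a : ∃ t, chk3 f_mm_102_a t 1 1 1 = true :=
  ⟨(a (l 5) (l 3)), by decide +kernel⟩

theorem c_mm_102_a : CertB 536870912 536870912 0 536870912 740881858 40050571 3 eng mog cd0q1 cd1q2a pd0 false false false .npp 1 0 2
    ndB0q1 ndB1q2a pcB0 Cut.none Ext.none :=
  certB0 (fam := false) (s1 := false) (s2 := false) (a := 1) (b := 0) (c := 2) (cn := .npp) (n1 := ndB0q1) (n2 := ndB1q2a) (pc := pcB0) (cut := Cut.none) (xt := Ext.none) (P1 := 536870912) (W1 := 536870912) (P2 := 0) (W2 := 536870912) (P3 := 740881858) (W3 := 40050571) (N0 := 3) (En := eng) (mo := mog) (C1 := cd0q1) (C2 := cd1q2a) (C3 := pd0)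
    rfl k0_mm_102_a

noncomputable def f_mm_102_b : ℕ → ℕ → ℕ → ℕ → Bool := onCell 536870912 536870912 1239849684 370763052 740881858 40050571
    (rowB 3 eng mog cd0q1 cd1q2b pd0 0 false false false .npp 1 0 2 (qsf 536870912 536870912 1239849684 370763052 0) ndB0q1 ndB1q2b pcB0 Cut.none Ext.none)

def k0_mm_102_b : ∃ t, chk3 f_mm_102_b t 1 1 1 = true :=
  ⟨(l 5), by decide +kernel⟩

theorem c_mm_102_b : CertB 536870912 536870912 1239849684 370763052 740881858 40050571 3 eng mog cd0q1 cd1q2b pd0 false false false .npp 1 0 2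
    ndB0q1 ndB1q2b pcB0 Cut.none Ext.none :=
  certB0 (fam := false) (s1 := false) (s2 := false) (a := 1) (b := 0) (c := 2) (cn := .npp) (n1 := ndB0q1) (n2 := ndB1q2b) (pc := pcB0) (cut := Cut.none) (xt := Ext.none) (P1 := 536870912) (W1 := 536870912) (P2 := 1239849684) (W2 := 370763052) (P3 := 740881858) (W3 := 40050571) (N0 := 3) (En := eng) (mo := mog) (C1 := cd0q1) (C2 := cd1q2b) (C3 := pd0)
    rfl k0_mm_102_b

noncomputable def f_mm_112_a : ℕ → ℕ → ℕ → ℕ → Bool := onCell 536870912 536870912 0 536870912 740881858 40050571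
    (rowB 3 eng mog cd0q1 cd1q2a pd1 2 false false false .dn 1 1 2 (qsf 536870912 536870912 0 536870912 1) ndB0q1 ndB1q2a pcB1 Cut.none Ext.none)

def k0_mm_112_a : ∃ t, chk3 f_mm_112_a t 1 1 1 = true :=
  ⟨(l 5), by decide +kernel⟩

theorem c_mm_112_a : CertB 536870912 536870912 0 536870912 740881858 40050571 3 eng mog cd0q1 cd1q2a pd1 false false false .dn 1 1 2
    ndB0q1 ndB1q2a pcB1 Cut.none Ext.none :=
  certB2 (fam := false) (s1 := false) (s2 := false) (a := 1) (b := 1) (c := 2) (cn := .dn) (n1 := ndB0q1) (n2 := ndB1q2a) (pc := pcB1) (cut := Cut.none) (xt := Ext.none) (P1 := 536870912) (W1 := 536870912) (P2 := 0) (W2 := 536870912) (P3 := 740881858) (W3 := 40050571) (N0 := 3) (En := eng) (mo := mog) (C1 := cd0q1) (C2 := cd1q2a) (C3 := pd1)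
    rfl (fun _ => rfl) k0_mm_112_a

noncomputable def f_mm_112_b : ℕ → ℕ → ℕ → ℕ → Bool := onCell 536870912 536870912 1239849684 370763052 740881858 40050571
    (rowB 3 eng mog cd0q1 cd1q2b pd1 0 false false false .dn 1 1 2 (qsf 536870912 536870912 1239849684 370763052 1) ndB0q1 ndB1q2b pcB1 Cut.none Ext.none)

def k0_mm_112_b : ∃ t, chk3 f_mm_112_b t 1 1 1 = true :=
  ⟨(l 5), by decide +kernel⟩

theorem c_mm_112_b : CertB 536870912 536870912 1239849684 370763052 740881858 40050571 3 eng mog cd0q1 cd1q2b pd1 false false false .dn 1 1 2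
    ndB0q1 ndB1q2b pcB1 Cut.none Ext.none :=
  certB0 (fam := false) (s1 := false) (s2 := false) (a := 1) (b := 1) (c := 2) (cn := .dn) (n1 := ndB0q1) (n2 := ndB1q2b) (pc := pcB1) (cut := Cut.none) (xt := Ext.none) (P1 := 536870912) (W1 := 536870912) (P2 := 1239849684) (W2 := 370763052) (P3 := 740881858) (W3 := 40050571) (N0 := 3) (En := eng) (mo := mog) (C1 := cd0q1) (C2 := cd1q2b) (C3 := pd1)
    rfl k0_mm_112_b

noncomputable def f_mm_113 : ℕ → ℕ → ℕ → ℕ → Bool := onCell 536870912 536870912 1610612736 536870912 740881858 40050571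
    (rowB 3 eng mog cd0q1 cd1q3 pd1 0 false false false .nn 1 1 3 (qsf 536870912 536870912 1610612736 536870912 1) ndB0q1 ndB1q3 pcB1 Cut.none Ext.none)

def k0_mm_113 : ∃ t, chk3 f_mm_113 t 1 1 1 = true :=
  ⟨(l 5), by decide +kernel⟩

theorem c_mm_113 : CertB 536870912 536870912 1610612736 536870912 740881858 40050571 3 eng mog cd0q1 cd1q3 pd1 false false false .nn 1 1 3
    ndB0q1 ndB1q3 pcB1 Cut.none Ext.none :=
  certB0 (fam := false) (s1 := false) (s2 := false) (a := 1) (b := 1) (c := 3) (cn := .nn) (n1 := ndB0q1) (n2 := ndB1q3) (pc := pcB1) (cut := Cut.none) (xt := Ext.none) (P1 := 536870912) (W1 := 536870912) (P2 := 1610612736) (W2 := 536870912) (P3 := 740881858) (W3 := 40050571) (N0 := 3) (En := eng) (mo := mog) (C1 := cd0q1) (C2 := cd1q3) (C3 := pd1)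
    rfl k0_mm_113

noncomputable def f_mm_123 : ℕ → ℕ → ℕ → ℕ → Bool := onCell 536870912 536870912 1610612736 536870912 740881858 40050571
    (rowB 3 eng mog cd0q1 cd1q3 pd2 0 false false false .npn 1 2 3 (qsf 536870912 536870912 1610612736 536870912 2) ndB0q1 ndB1q3 pcB2 Cut.none Ext.none)

def k0_mm_123 : ∃ t, chk3 f_mm_123 t 1 1 1 = true :=
  ⟨(l 5), by decide +kernel⟩

theorem c_mm_123 : CertB 536870912 536870912 1610612736 536870912 740881858 40050571 3 eng mog cd0q1 cd1q3 pd2 false false false .npn 1 2 3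
    ndB0q1 ndB1q3 pcB2 Cut.none Ext.none :=
  certB0 (fam := false) (s1 := false) (s2 := false) (a := 1) (b := 2) (c := 3) (cn := .npn) (n1 := ndB0q1) (n2 := ndB1q3) (pc := pcB2) (cut := Cut.none) (xt := Ext.none) (P1 := 536870912) (W1 := 536870912) (P2 := 1610612736) (W2 := 536870912) (P3 := 740881858) (W3 := 40050571) (N0 := 3) (En := eng) (mo := mog) (C1 := cd0q1) (C2 := cd1q3) (C3 := pd2)
    rfl k0_mm_123

noncomputable def f_mm_133 : ℕ → ℕ → ℕ → ℕ → Bool := onCell 536870912 536870912 1610612736 536870912 740881858 40050571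
    (rowB 3 eng mog cd0q1 cd1q3 pd3 0 false false false .dn 1 3 3 (qsf 536870912 536870912 1610612736 536870912 3) ndB0q1 ndB1q3 pcB3 Cut.none Ext.none)

def k0_mm_133 : ∃ t, chk3 f_mm_133 t 1 1 1 = true :=
  ⟨(l 5), by decide +kernel⟩

theorem c_mm_133 : CertB 536870912 536870912 1610612736 536870912 740881858 40050571 3 eng mog cd0q1 cd1q3 pd3 false false false .dn 1 3 3
    ndB0q1 ndB1q3 pcB3 Cut.none Ext.none :=
  certB0 (fam := false) (s1 := false) (s2 := false) (a := 1) (b := 3) (c := 3) (cn := .dn) (n1 := ndB0q1) (n2 := ndB1q3) (pc := pcB3) (cut := Cut.none) (xt := Ext.none) (P1 := 536870912) (W1 := 536870912) (P2 := 1610612736) (W2 := 536870912) (P3 := 740881858) (W3 := 40050571) (N0 := 3) (En := eng) (mo := mog) (C1 := cd0q1) (C2 := cd1q3) (C3 := pd3)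
    rfl k0_mm_133

noncomputable def f_mm_202_a : ℕ → ℕ → ℕ → ℕ → Bool := onCell 0 536870912 0 536870912 740881858 40050571
    (rowB 3 eng mog cd0q2 cd1q2a pd0 0 false false false .pp 2 0 2 (qsf 0 536870912 0 536870912 0) ndB0q2 ndB1q2a pcB0 Cut.none Ext.none)

def k0_mm_202_a : ∃ t, chk3 f_mm_202_a t 1 1 1 = true :=
  ⟨(l 3), by decide +kernel⟩

theorem c_mm_202_a : CertB 0 536870912 0 536870912 740881858 40050571 3 eng mog cd0q2 cd1q2a pd0 false false false .pp 2 0 2
    ndB0q2 ndB1q2a pcB0 Cut.none Ext.none :=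
  certB0 (fam := false) (s1 := false) (s2 := false) (a := 2) (b := 0) (c := 2) (cn := .pp) (n1 := ndB0q2) (n2 := ndB1q2a) (pc := pcB0) (cut := Cut.none) (xt := Ext.none) (P1 := 0) (W1 := 536870912) (P2 := 0) (W2 := 536870912) (P3 := 740881858) (W3 := 40050571) (N0 := 3) (En := eng) (mo := mog) (C1 := cd0q2) (C2 := cd1q2a) (C3 := pd0)
    rfl k0_mm_202_a

noncomputable def f_mm_202_b : ℕ → ℕ → ℕ → ℕ → Bool := onCell 0 536870912 1239849684 370763052 740881858 40050571
    (rowB 3 eng mog cd0q2 cd1q2b pd0 0 false false false .pp 2 0 2 (qsf 0 536870912 1239849684 370763052 0) ndB0q2 ndB1q2b pcB0 Cut.none Ext.none)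

def k0_mm_202_b : ∃ t, chk3 f_mm_202_b t 1 1 1 = true :=
  ⟨(l 3), by decide +kernel⟩

theorem c_mm_202_b : CertB 0 536870912 1239849684 370763052 740881858 40050571 3 eng mog cd0q2 cd1q2b pd0 false false false .pp 2 0 2
    ndB0q2 ndB1q2b pcB0 Cut.none Ext.none :=
  certB0 (fam := false) (s1 := false) (s2 := false) (a := 2) (b := 0) (c := 2) (cn := .pp) (n1 := ndB0q2) (n2 := ndB1q2b) (pc := pcB0) (cut := Cut.none) (xt := Ext.none) (P1 := 0) (W1 := 536870912) (P2 := 1239849684) (W2 := 370763052) (P3 := 740881858) (W3 := 40050571) (N0 := 3) (En := eng) (mo := mog) (C1 := cd0q2) (C2 := cd1q2b) (C3 := pd0)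
    rfl k0_mm_202_b

noncomputable def f_mm_203 : ℕ → ℕ → ℕ → ℕ → Bool := onCell 0 536870912 0 536870912 740881858 40050571
    (rowB 3 eng mog cd0q2 cd1q3 pd0 1 false false false .up 2 0 3 (qsf 0 536870912 1610612736 536870912 0) ndB0q2 ndB1q3 pcB0 Cut.none Ext.none)

def k0_mm_203 : ∃ t, chk3 f_mm_203 t 1 1 1 = true :=
  ⟨(l 3), by decide +kernel⟩

theorem c_mm_203 : CertB 0 536870912 1610612736 536870912 740881858 40050571 3 eng mog cd0q2 cd1q3 pd0 false false false .up 2 0 3
    ndB0q2 ndB1q3 pcB0 Cut.none Ext.none :=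
  certB1 (fam := false) (s1 := false) (s2 := false) (a := 2) (b := 0) (c := 3) (cn := .up) (n1 := ndB0q2) (n2 := ndB1q3) (pc := pcB0) (cut := Cut.none) (xt := Ext.none) (P1 := 0) (W1 := 536870912) (P2 := 1610612736) (W2 := 536870912) (P3 := 740881858) (W3 := 40050571) (N0 := 3) (En := eng) (mo := mog) (C1 := cd0q2) (C2 := cd1q3) (C3 := pd0)
    rfl (fun _ => rfl) k0_mm_203

noncomputable def f_mm_213 : ℕ → ℕ → ℕ → ℕ → Bool := onCell 0 536870912 1610612736 536870912 740881858 40050571
    (rowB 3 eng mog cd0q2 cd1q3 pd1 0 false false false .pnn 2 1 3 (qsf 0 536870912 1610612736 536870912 1) ndB0q2 ndB1q3 pcB1 Cut.none Ext.none)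

def k0_mm_213 : ∃ t, chk3 f_mm_213 t 1 1 1 = true :=
  ⟨(a (l 3) (l 5)), by decide +kernel⟩

theorem c_mm_213 : CertB 0 536870912 1610612736 536870912 740881858 40050571 3 eng mog cd0q2 cd1q3 pd1 false false false .pnn 2 1 3
    ndB0q2 ndB1q3 pcB1 Cut.none Ext.none :=
  certB0 (fam := false) (s1 := false) (s2 := false) (a := 2) (b := 1) (c := 3) (cn := .pnn) (n1 := ndB0q2) (n2 := ndB1q3) (pc := pcB1) (cut := Cut.none) (xt := Ext.none) (P1 := 0) (W1 := 536870912) (P2 := 1610612736) (W2 := 536870912) (P3 := 740881858) (W3 := 40050571) (N0 := 3) (En := eng) (mo := mog) (C1 := cd0q2) (C2 := cd1q3) (C3 := pd1)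
    rfl k0_mm_213

end Pool.Agent.Strip051.G.I69_7273.Tab.C.BB01

namespace Pool.Agent.Strip051.G.I69_7273.Tab.C.BB02

open Pool.Agent.Strip051.PB Pool.Agent.Strip051.PB.T
open Pool.Agent.Strip051.G.I69_7273.Tab

noncomputable def f_pp_001 : ℕ → ℕ → ℕ → ℕ → Bool := onCell 0 536870912 536870912 536870912 740881858 40050571
    (rowB 3 eng mog cd0q0 cd2q1 pd0 0 false true true .up 0 0 1 (qsf 0 536870912 536870912 536870912 0) ndB0q0 ndB2q1 pcB0 Cut.none Ext.none)

def k0_pp_001 : ∃ t, chk3 f_pp_001 t 1 1 1 = true :=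
  ⟨(l 3), by decide +kernel⟩

theorem c_pp_001 : CertB 0 536870912 536870912 536870912 740881858 40050571 3 eng mog cd0q0 cd2q1 pd0 false true true .up 0 0 1
    ndB0q0 ndB2q1 pcB0 Cut.none Ext.none :=
  certB0 (fam := false) (s1 := true) (s2 := true) (a := 0) (b := 0) (c := 1) (cn := .up) (n1 := ndB0q0) (n2 := ndB2q1) (pc := pcB0) (cut := Cut.none) (xt := Ext.none) (P1 := 0) (W1 := 536870912) (P2 := 536870912) (W2 := 536870912) (P3 := 740881858) (W3 := 40050571) (N0 := 3) (En := eng) (mo := mog) (C1 := cd0q0) (C2 := cd2q1) (C3 := pd0)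
    rfl k0_pp_001

noncomputable def f_pp_011 : ℕ → ℕ → ℕ → ℕ → Bool := onCell 0 536870912 536870912 536870912 740881858 40050571
    (rowB 3 eng mog cd0q0 cd2q1 pd1 0 false true true .pnn 0 1 1 (qsf 0 536870912 536870912 536870912 1) ndB0q0 ndB2q1 pcB1 Cut.none Ext.none)

def k0_pp_011 : ∃ t, chk3 f_pp_011 t 1 1 1 = true :=
  ⟨(l 3), by decide +kernel⟩

theorem c_pp_011 : CertB 0 536870912 536870912 536870912 740881858 40050571 3 eng mog cd0q0 cd2q1 pd1 false true true .pnn 0 1 1
    ndB0q0 ndB2q1 pcB1 Cut.none Ext.none :=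
  certB0 (fam := false) (s1 := true) (s2 := true) (a := 0) (b := 1) (c := 1) (cn := .pnn) (n1 := ndB0q0) (n2 := ndB2q1) (pc := pcB1) (cut := Cut.none) (xt := Ext.none) (P1 := 0) (W1 := 536870912) (P2 := 536870912) (W2 := 536870912) (P3 := 740881858) (W3 := 40050571) (N0 := 3) (En := eng) (mo := mog) (C1 := cd0q0) (C2 := cd2q1) (C3 := pd1)
    rfl k0_pp_011

noncomputable def cut_pp_012_a : Cut := Cut.of [[⟨0, 0, 0, 67108864⟩, ⟨1, 1, 0, 67108864⟩, ⟨2, 1, 0, 67108864⟩]]

noncomputable def f_pp_012_a : ℕ → ℕ → ℕ → ℕ → Bool := onCell 536870912 536870912 0 536870912 740881858 40050571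
    (rowB 3 eng mog cd0q0 cd2q2a pd1 2 false true true .pnp 0 1 2 (qsf 0 536870912 0 536870912 1) ndB0q0 ndB2q2a pcB1 cut_pp_012_a Ext.none)

def k0_pp_012_a : ∃ t, chk3 f_pp_012_a t 2 1 1 = true :=
  ⟨(l 3), by decide +kernel⟩

def k1_pp_012_a : ∃ t, chk3 f_pp_012_a t 12 2 1 = true :=
  ⟨(b (l 3) (l 3)), by decide +kernel⟩

def k2_pp_012_a : ∃ t, chk3 f_pp_012_a t 26 8 1 = true :=
  ⟨(a (b (c (a (b (a (b (l 89288257303) (l 3)) (b (l 16731696) (b (l 42043617911) (l 64055326487)))) (a (l 3) (b (l 90361991239) (l 3)))) (b (c (a (l 16733944) (l 16718864)) (l 16731000)) (b (a (a (l 48486070263) (l 30232457975)) (l 16724352)) (a (l 51707291687) (c (l 16734680) (l 16728832)))))) (a (b (b (l 95730693447) (l 118816143047)) (l 139217232023)) (b (l 16727728) (b (a (l 83919534167) (l 16720872)) (a (l 141901589751) (c (l 46875443239) (l 88214492663))))))) (b (b (a (l 3) (a (l 3) (b (c (l 43654217591) (c (l 99488793815) (l 164987020519))) (l 3)))) (l 3)) (l 3))) (b (b (c (a (c (l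 16711824) (l 16732232)) (l 16702168)) (l 16724568)) (c (a (c (l 16726536) (l 16720768)) (l 16727232)) (a (b (l 16714000) (l 16726720)) (l 16726888)))) (a (a (b (b (c (l 22716241751) (b (c (l 16720352) (a (l 103246864695) (l 16719088))) (a (l 112910540951) (l 16720280)))) (a (l 3) (c (l 86603879735) (a (l 113447412487) (l 99488768503))))) (l 3)) (b (b (b (l 16721016) (l 16716928)) (c (l 39896107895) (a (a (l 88751350231) (l 16719144)) (l 16717400)))) (b (c (l 80161425271) (a (b (l 102173124423) (l 3)) (a (l 91972576615) (l 81235158263)))) (l 3)))) (b (b (c (l 16709512) (l 16714480)) (a (c (l 16714176) (l 16713880)) (l 16711808))) (b (a (c (l 16716520) (a (a (l 61907810647) (l 16716872)) (l 16715104))) (c (l 16711712) (l 16711616))) (a (a (c (l 81235166935) (b (l 77477067607) (l 3))) (c (l 72108357815) (c (l 66739648823) (a (l 55465364231) (l 16719696))))) (c (l 16714112) (c (l 16713984) (l 16719456))))))))), by decide +kernel⟩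

def k3_pp_012_a : ∃ t, chk3 f_pp_012_a t 26 9 1 = true :=
  ⟨(a (l 3) (b (a (l 3) (b (a (l 3) (a (b (c (l 73182099463) (c (l 69960874215) (b (l 55465360935) (l 3)))) (l 3)) (c (b (l 46875420727) (l 75866451543)) (b (c (l 16717904) (c (l 16718088) (l 26474328663))) (c (l 75329580535) (l 74255839287)))))) (l 3))) (l 3))), by decide +kernel⟩

def k4_pp_012_a : ∃ t, chk3 f_pp_012_a t 54 4 1 = true :=
  ⟨(a (b (b (c (l 16716152) (l 16716000)) (b (c (b (l 16700248) (l 16702440)) (b (l 16700224) (l 16712960))) (c (a (l 16708200) (l 16703624)) (c (a (l 16708152) (l 16703648)) (l 16712432))))) (b (b (c (a (b (l 16711824) (a (l 66202773687) (l 45801674839))) (b (l 16707192) (l 16709672))) (a (b (c (l 16711832) (l 16715120)) (c (a (l 62444678007) (l 16713224)) (a (c (l 57075969991) (b (l 28621811799) (l 74255836583))) (b (l 16712960) (l 16715560))))) (c (l 16713792) (b (l 16707680) (l 16712536))))) (a (a (l 3) (a (l 3) (b (c (l 67276511735) (c (l 66739641063) (l 68350257223)))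 (l 3)))) (a (b (c (l 57612838055) (c (l 53317870583) (b (l 16715944) (l 58149706999)))) (l 3)) (c (b (l 16711088) (l 60834057959)) (c (b (l 16711280) (l 60297187495)) (b (l 16714376) (b (l 54391608887) (l 3)))))))) (l 3))) (b (b (b (l 16684656) (l 16688448)) (b (b (l 16691488) (l 16693632)) (c (l 16697008) (l 16707784)))) (b (c (b (a (l 16703928) (l 16699552)) (a (b (l 16707680) (a (b (l 16710760) (l 47949157591)) (l 16709168))) (b (l 16703256) (l 16705840)))) (b (a (b (l 16703040) (l 16705552)) (l 16700008)) (a (a (b (l 16709248) (c (l 40432964887) (b (l 16711544) (l 42580447479)))) (b (l 16707048) (l 16712336))) (b (l 16703800) (a (l 16707520) (l 16705368)))))) (b (a (b (a (a (l 3) (c (l 58686573879) (l 59760319431))) (c (b (l 45264801223) (l 52780996199)) (b (l 40432962375) (l 51707253863)))) (l 3)) (c (b (a (l 43117314151) (l 16707408)) (a (l 52244123239) (b (l 16709440) (l 45264800167)))) (b (a (b (l 16709560) (l 37211735463)) (l 16710696)) (c (a (l 51707250519)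 (l 40969832727)) (a (b (l 46875414407) (l 3)) (b (l 16710512) (l 42043574919))))))) (l 3))))), by decide +kernel⟩

def k5_pp_012_a : ∃ t, chk3 f_pp_012_a t 55 4 1 = true :=
  ⟨(b (b (a (l 16678744) (l 16671504)) (b (a (l 16689720) (l 16676976)) (a (l 16699256) (l 16681112)))) (b (a (b (c (l 16693272) (l 16704288)) (c (a (l 16700272) (l 16696128)) (a (l 16703512) (l 16696792)))) (b (l 16690832) (a (l 16697592) (l 16688528)))) (a (a (a (b (b (l 16708072) (c (l 16710584) (c (l 16708424) (l 16711704)))) (b (c (b (l 41506702759) (l 45801672551)) (b (c (l 39359219095) (l 37748606407)) (l 49022897671))) (l 3))) (b (b (l 16703328) (c (l 16705816) (l 16709216))) (c (b (b (l 16707904) (l 38822346919)) (l 45801667943)) (b (b (l 16711336) (c (l 16712448) (l 32379896039))) (b (l 39359220471) (l 3)))))) (c (b (b (l 16699984) (l 16702672)) (b (a (l 16706488) (l 16704408)) (a (b (l 16711240) (l 38285477447)) (l 34527376023)))) (b (b (l 16700736) (l 16706096)) (c (b (l 16711224) (a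 (l 33453638615) (l 16707832))) (b (a (l 16707728) (l 16705656)) (a (b (l 16712520) (l 34527381191)) (l 25400571015))))))) (c (b (a (l 16697288) (l 16693400)) (a (b (l 16701360) (a (l 16705200) (l 16703184))) (b (l 16697424) (l 16700232)))) (b (a (b (l 16696728) (l 16699432)) (l 16699448)) (a (b (l 16704848) (a (l 16708736) (l 16704104))) (b (l 16698296) (l 16703768)))))))), by decide +kernel⟩

def k6_pp_012_a : ∃ t, chk3 f_pp_012_a t 13 5 1 = true :=
  ⟨(a (l 3) (b (a (l 3) (b (b (b (a (b (a (l 3) (a (l 3) (c (l 35601121911) (c (l 32916767319) (l 31306154599))))) (l 3)) (a (c (a (l 29695539511) (l 16706088)) (a (b (l 16710952) (l 29158669879)) (c (l 16706712) (l 16710088)))) (c (l 16708360) (a (l 16707680) (l 16703104))))) (a (l 3) (c (a (a (l 33990512295) (l 24863703031)) (a (l 16709696) (l 16705104))) (b (a (a (l 32379898103) (l 21642476103)) (a (l 16709936) (l 16705344))) (a (a (l 3) (l 29158671687)) (a (l 16710480) (l 16709488))))))) (a (l 3) (b (a (l 3) (c (a (l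 28621801335) (l 16710768)) (a (b (l 26474316087) (l 3)) (b (l 16711032) (l 22716218887))))) (l 3)))) (l 3))) (l 3))), by decide +kernel⟩

def k7_pp_012_a : ∃ t, chk3 f_pp_012_a t 6 3 1 = true :=
  ⟨(l 3), by decide +kernel⟩

def k8_pp_012_a : ∃ t, chk3 f_pp_012_a t 14 4 1 = true :=
  ⟨(a (b (b (a (a (l 16664888) (l 16658712)) (l 16649944)) (a (b (a (l 16670104) (l 16663608)) (l 16675904)) (b (l 16654304) (l 16657736)))) (a (b (a (c (l 16701536) (b (l 16678840) (l 16683576))) (b (l 16671552) (l 16681296))) (b (a (a (l 16693864) (l 16691552)) (c (l 16680616) (l 16691904))) (a (c (a (l 16695032) (l 16691328)) (a (b (l 16694512) (l 16697328)) (l 16697456))) (c (l 16696256) (a (l 16688512) (l 16684784)))))) (b (b (l 16661536) (l 16670936)) (a (b (a (l 16675512) (l 16671968)) (l 16681320)) (l 16669176))))) (b (b (a (l 16639728) (l 16632536)) (a (l 16652592) (l 16636488))) (a (b (l 16651256) (a (l 16662480) (l 16656304))) (a (l 16647616) (l 16643776))))), by decide +kernel⟩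

def k9_pp_012_a : ∃ t, chk3 f_pp_012_a t 56 5 1 = true :=
  ⟨(b (a (a (b (c (b (b (l 16699264) (l 16702200)) (b (a (l 16706192) (l 16704256)) (a (l 16711904) (l 16707344)))) (b (b (l 16702840) (a (l 16706784) (l 16702240))) (c (b (l 16711136) (a (l 16709984) (l 16708040))) (b (a (l 16710264) (l 16708312)) (a (a (l 16273770535) (l 16711592)) (c (l 16708600) (l 16711016))))))) (a (l 3) (b (b (c (l 16710488) (c (l 16711200) (c (l 16711760) (l 57075949479)))) (l 3)) (l 3)))) (b (c (b (l 16707432) (b (l 16701368) (l 16709664))) (b (b (l 16696440) (l 16701992)) (b (c (l 16702032) (l 16705408)) (c (l 16705112) (a (l 16709488) (l 16707528)))))) (b (b (c (a (l 16708544) (l 16706584)) (c (l 16710896) (a (b (l 16711856) (l 16712144)) (l 16710688)))) (a (l 3) (c (l 16709792) (c (l 16710512) (c (l 16711072) (l 51707238823)))))) (l 3)))) (b (c (b (a (l 16693160) (l 16689352)) (a (b (l 16697512) (l 16700520)) (l 16705600))) (a (b (b (l 16692664) (l 16700784)) (c (l 16704936) (b (l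 16704144) (l 16704320)))) (b (l 16695528) (b (l 16699840) (l 16700208))))) (b (c (a (b (l 16708856) (a (l 16707792) (l 16705776))) (b (l 16699632) (l 16702752))) (a (c (b (l 16704312) (l 16710120)) (b (a (l 16708032) (l 16704064)) (c (l 16710672) (l 16709800)))) (b (a (l 16704280) (l 16699648)) (c (l 16703448) (a (l 16707824) (l 16703160)))))) (a (b (c (a (l 16711064) (l 16709024)) (c (l 5536351351) (a (l 16712560) (l 16710504)))) (l 3)) (c (b (l 16711200) (l 8220704503)) (c (b (l 16706664) (l 16712592)) (c (b (l 16709816) (l 16712792)) (a (l 16709672) (l 16708232))))))))) (a (l 3) (a (l 3) (a (l 3) (b (b (b (c (l 16711600) (l 21105600567)) (l 3)) (l 3)) (l 3)))))), by decide +kernel⟩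

def k10_pp_012_a : ∃ t, chk3 f_pp_012_a t 57 5 1 = true :=
  ⟨(b (a (b (c (b (l 16694152) (a (l 16691216) (l 16687344))) (b (a (l 16691704) (l 16682680)) (a (b (l 16690696) (l 16698872)) (l 16693512)))) (c (b (a (l 16702440) (l 16693208)) (a (b (l 16701872) (l 16705088)) (l 16704632))) (b (a (b (l 16699256) (a (l 16700736) (l 16698704))) (a (l 16699096) (l 16698400))) (b (a (a (l 16706528) (l 16701840)) (l 16702032)) (a (c (l 16705776) (a (l 16708848) (l 16705432))) (a (l 16702968) (l 16700888))))))) (a (b (c (l 16691312) (b (l 16678952) (l 16684408))) (b (b (l 16693376) (l 16693712)) (c (l 16695328) (b (l 16694680) (l 16697784))))) (b (l 16684016) (c (b (l 16685376) (l 16691320)) (l 16697128))))) (a (b (b (a (b (c (l 16708408) (c (l 16709096) (l 16709800))) (a (l 3) (c (l 16710760) (l 16711752)))) (c (b (l 16704200) (l 16707528)) (c (b (l 16704848) (l 16708168)) (l 16706864)))) (a (l 3) (b (c (l 16710992) (l 16711936)) (l 3)))) (l 3)) (b (a (c (b (l 16701680) (b (l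 16706624) (l 16710088))) (b (b (l 16703576) (l 16708128)) (b (a (l 16708584) (l 16706424)) (l 16700464)))) (b (b (l 16700216) (l 16703400)) (c (l 16704064) (a (l 16705944) (l 16703800))))) (b (c (a (l 16715624) (l 16711000)) (a (l 16716456) (l 16701264))) (l 3))))), by decide +kernel⟩

def k11_pp_012_a : ∃ t, chk3 f_pp_012_a t 29 5 1 = true :=
  ⟨(b (a (a (a (b (l 16673856) (c (l 16695000) (l 16685376))) (b (l 16670352) (l 16688952))) (b (l 16665352) (a (l 16677440) (l 16673960)))) (b (l 16672904) (a (l 16669352) (l 16664568)))) (a (a (c (b (b (l 16696728) (a (l 16699864) (l 16695752))) (a (b (l 16706520) (l 16713728)) (b (l 16702240) (l 16709080)))) (b (a (a (l 16698536) (l 16696472)) (l 16693424)) (b (a (l 16686224) (l 16702856)) (l 16712000)))) (b (b (l 16684024) (l 16695288)) (a (b (l 16698328) (l 16704912)) (l 16698984)))) (b (a (b (l 16677392) (l 16683160)) (l 16675256)) (a (b (l 16689272) (l 16695704)) (l 16687288))))), by decide +kernel⟩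

def k12_pp_012_a : ∃ t, chk3 f_pp_012_a t 15 2 1 = true :=
  ⟨(b (a (b (b (a (l 16617664) (l 16600520)) (a (l 16622656) (l 16605336))) (a (l 16632400) (l 16614480))) (b (a (b (l 16581760) (a (l 16590688) (l 16580264))) (b (l 16561584) (l 16585488))) (a (b (l 16590872) (l 16597184)) (b (a (l 16574048) (l 16562632)) (l 16573864))))) (a (b (a (b (l 16644576) (l 16654400)) (b (l 16625720) (l 16634816))) (a (b (a (l 16670288) (l 16660736)) (a (l 16683160) (l 16673176))) (b (a (l 16608576) (l 16639744)) (a (b (l 16659336) (l 16665728)) (l 16651352))))) (a (b (b (l 16604504) (l 16654888)) (b (a (l 16628464) (l 16616632)) (a (l 16660632) (l 16627880)))) (b (b (l 16601864) (a (l 16595112) (l 16582896))) (b (a (l 16604640) (l 16592592)) (a (l 16616088) (l 16604600))))))), by decide +kernel⟩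

def k13_pp_012_a : ∃ t, chk3 f_pp_012_a t 14 3 1 = true :=
  ⟨(b (a (l 3) (b (a (b (a (a (l 3) (b (l 271287425895) (l 3))) (b (c (a (l 103783751895) (l 16707640)) (a (l 16733280) (l 16707968))) (b (a (l 3) (c (l 198273026775) (l 16723952))) (l 3)))) (l 3)) (b (a (b (c (l 16723272) (l 16681736)) (b (a (l 16714584) (l 16706160)) (a (c (b (l 84993256727) (a (l 237464590839) (c (l 94656931175) (l 16713016)))) (b (l 16712248) (l 84456390455))) (c (b (l 16708736) (l 16710568)) (l 16709928))))) (b (l 16697064) (a (b (l 16703432) (l 16706984)) (l 16702904)))) (a (b (a (a (l 3) (b (c (b (c (a (l 114521153095) (l 74792708759)) (l 100562515543)) (l 3)) (l 93583199303)) (l 3))) (a (b (c (b (l 62444677463) (l 104320608455)) (l 16719632)) (b (l 109152456407) (l 3))) (c (b (l 16712600) (b (l 16720704) (l 116668649271))) (b (l 16712824) (l 16727184))))) (l 3)) (b (c (a (b (l 16710496) (l 38285492759)) (l 16720384)) (a (b (l 16710832) (l 16714496)) (l 16710392))) (a (b (a (c (l 119889880039)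 (l 16719216)) (l 45801690231)) (a (l 3) (l 125258594967))) (c (b (l 16715512) (l 16729944)) (b (l 16715864) (l 16730216)))))))) (a (l 3) (b (a (l 3) (a (l 3) (a (l 3) (b (l 173040073351) (l 3))))) (l 3))))) (l 3)), by decide +kernel⟩

def k14_pp_012_a : ∃ t, chk3 f_pp_012_a t 15 6 1 = true :=
  ⟨(a (b (a (a (b (l 16716408) (b (l 16717720) (a (l 16715496) (l 16713776)))) (b (l 16687216) (b (l 16698872) (l 16707248)))) (b (a (l 16676152) (b (l 16661000) (l 16668144))) (a (b (l 16656024) (l 16695904)) (b (l 16676000) (l 16684560))))) (a (b (a (a (b (b (l 16721184) (l 135459115703)) (l 147270322327)) (b (l 16721344) (c (l 16729304) (l 16729688)))) (b (l 16716352) (a (l 16727184) (l 16723584)))) (a (l 3) (b (a (b (l 16732880) (l 3)) (l 16737432)) (a (l 3) (l 66202823383))))) (a (b (b (l 16705136) (l 16715496)) (b (c (l 16727552) (l 16726408)) (a (b (l 16734352) (l 119353015975)) (b (l 16731960) (l 16734448))))) (b (b (l 16715176) (l 16704928)) (b (l 16716808) (a (l 16730800)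 (l 16727512))))))) (b (a (b (a (b (l 16649320) (l 16656536)) (b (l 16637696) (l 16645264))) (a (b (l 16664624) (l 16673624)) (b (l 16653664) (l 16662976)))) (b (a (b (l 16626400) (l 16634248)) (b (l 16615296) (l 16623416))) (a (b (l 16642944) (l 16652552)) (b (l 16632376) (l 16642240))))) (b (a (a (b (l 16683608) (l 16715640)) (b (l 16673280) (l 16684656))) (a (b (l 16663144) (l 16695760)) (b (l 16632112) (a (l 16667424) (l 16662496))))) (a (a (b (l 16706888) (l 16720328)) (b (a (l 16699584) (l 16694760)) (l 16710896))) (a (b (a (l 16689960) (l 16685160)) (l 16691056)) (a (b (l 16680384) (l 16694432)) (b (l 16675520) (l 16689616)))))))), by decide +kernel⟩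

def k15_pp_012_a : ∃ t, chk3 f_pp_012_a t 15 7 1 = true :=
  ⟨(a (a (l 3) (b (b (b (a (a (l 3) (b (a (l 16737920) (l 16736152)) (l 82308965047))) (b (a (l 16723528) (l 16731240)) (a (a (l 16747376) (l 16735208)) (l 16732984)))) (a (l 3) (b (a (a (l 3) (b (l 16737072) (l 16739752))) (c (l 16746472) (l 16746024))) (a (l 3) (a (l 16752184) (l 16750056)))))) (a (l 3) (b (b (a (l 3) (c (l 34527466551) (l 24863789543))) (l 3)) (l 3)))) (l 3))) (b (a (b (b (a (b (l 16727016) (a (l 16729992) (l 16726976))) (b (l 16721336) (l 16722440))) (a (b (a (l 16743056) (l 16729416)) (a (l 16744864) (l 16733736))) (b (c (l 16714024) (l 16714432)) (a (l 16730528) (l 16727376))))) (a (a (b (a (b (c (l 16742752) (l 16742464)) (l 3)) (b (l 16751128) (c (l 16751024) (l 16756064)))) (l 3)) (b (b (c (l 16738216) (l 16738152)) (c (a (l 16754144) (l 16741888)) (l 22716298103))) (b (a (c (l 27011269799) (l 16754096)) (c (b (l 16745376) (l 16747952)) (l 16751856))) (b (c (l 27011274823) (l 27548150871))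 (l 3))))) (b (b (a (l 16734904) (l 16731744)) (a (l 16749888) (l 16736224))) (a (b (c (a (l 16744848) (l 16743176)) (l 16754544)) (b (c (a (l 16748504) (l 16746728)) (l 23253174983)) (a (c (l 16756528) (l 16751248)) (l 6)))) (b (l 16751304) (l 6)))))) (b (a (a (b (l 16717592) (l 16722232)) (b (l 16714320) (l 16719312))) (b (l 16707160) (a (l 16716504) (l 16713832)))) (a (b (a (b (l 16728680) (l 16733144)) (l 16730576)) (a (b (l 16748208) (l 6)) (l 6))) (b (a (l 16725104) (l 6)) (l 6))))) (a (b (a (l 3) (l 6)) (l 3)) (l 6)))), by decide +kernel⟩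

theorem s16_pp_012_a : ∃ t, chk3 f_pp_012_a t 15 3 1 = true := ex3_b k14_pp_012_a k15_pp_012_a

theorem s17_pp_012_a : ∃ t, chk3 f_pp_012_a t 7 3 1 = true := ex3_a k13_pp_012_a s16_pp_012_a

theorem s18_pp_012_a : ∃ t, chk3 f_pp_012_a t 28 5 1 = true := ex3_a k9_pp_012_a k10_pp_012_a

theorem s19_pp_012_a : ∃ t, chk3 f_pp_012_a t 14 5 1 = true := ex3_a s18_pp_012_a k11_pp_012_a

theorem s20_pp_012_a : ∃ t, chk3 f_pp_012_a t 14 2 1 = true := ex3_b k8_pp_012_a s19_pp_012_a

theorem s21_pp_012_a : ∃ t, chk3 f_pp_012_a t 7 2 1 = true := ex3_a s20_pp_012_a k12_pp_012_a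

theorem s22_pp_012_a : ∃ t, chk3 f_pp_012_a t 7 1 1 = true := ex3_b s21_pp_012_a s17_pp_012_a

theorem s23_pp_012_a : ∃ t, chk3 f_pp_012_a t 27 4 1 = true := ex3_a k4_pp_012_a k5_pp_012_a

theorem s24_pp_012_a : ∃ t, chk3 f_pp_012_a t 26 4 1 = true := ex3_b k2_pp_012_a k3_pp_012_a

theorem s25_pp_012_a : ∃ t, chk3 f_pp_012_a t 13 4 1 = true := ex3_a s24_pp_012_a s23_pp_012_a

theorem s26_pp_012_a : ∃ t, chk3 f_pp_012_a t 13 2 1 = true := ex3_b s25_pp_012_a k6_pp_012_a

theorem s27_pp_012_a : ∃ t, chk3 f_pp_012_a t 6 2 1 = true := ex3_a k1_pp_012_a s26_pp_012_a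

theorem s28_pp_012_a : ∃ t, chk3 f_pp_012_a t 6 1 1 = true := ex3_b s27_pp_012_a k7_pp_012_a

theorem s29_pp_012_a : ∃ t, chk3 f_pp_012_a t 3 1 1 = true := ex3_a s28_pp_012_a s22_pp_012_a

theorem s30_pp_012_a : ∃ t, chk3 f_pp_012_a t 1 1 1 = true := ex3_a k0_pp_012_a s29_pp_012_a

theorem c_pp_012_a : CertB 0 536870912 0 536870912 740881858 40050571 3 eng mog cd0q0 cd2q2a pd1 false true true .pnp 0 1 2
    ndB0q0 ndB2q2a pcB1 cut_pp_012_a Ext.none :=
  certB2 (fam := false) (s1 := true) (s2 := true) (a := 0) (b := 1) (c := 2) (cn := .pnp) (n1 := ndB0q0) (n2 := ndB2q2a) (pc := pcB1) (cut := cut_pp_012_a) (xt := Ext.none) (P1 := 0) (W1 := 536870912) (P2 := 0) (W2 := 536870912) (P3 := 740881858) (W3 := 40050571) (N0 := 3) (En := eng) (mo := mog) (C1 := cd0q0) (C2 := cd2q2a) (C3 := pd1)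
    rfl (fun _ => rfl) s30_pp_012_a

noncomputable def cut_pp_012_b : Cut := Cut.of [[⟨0, 0, 0, 67108864⟩, ⟨1, 1, 0, 67108864⟩, ⟨2, 1, 0, 67108864⟩]]

noncomputable def f_pp_012_b : ℕ → ℕ → ℕ → ℕ → Bool := onCell 536870912 536870912 1239849684 370763052 740881858 40050571
    (rowB 3 eng mog cd0q0 cd2q2b pd1 2 false true true .pnp 0 1 2 (qsf 0 536870912 1239849684 370763052 1) ndB0q0 ndB2q2b pcB1 cut_pp_012_b Ext.none)

def k0_pp_012_b : ∃ t, chk3 f_pp_012_b t 2 1 1 = true :=
  ⟨(b (l 3) (l 2)), by decide +kernel⟩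

def k1_pp_012_b : ∃ t, chk3 f_pp_012_b t 12 4 1 = true :=
  ⟨(a (l 3) (b (l 3) (l 3))), by decide +kernel⟩

def k2_pp_012_b : ∃ t, chk3 f_pp_012_b t 26 4 1 = true :=
  ⟨(b (b (c (b (b (b (b (a (a (b (a (c (b (c (b (l 16732768) (a (a (l 103246896167) (l 16731816)) (l 16728952))) (l 76940218759)) (c (a (l 77477091975) (l 16728680)) (l 38285520583))) (l 98415051175)) (b (c (l 16728248) (l 16724904)) (l 16730136))) (a (a (a (l 3) (l 16730648)) (l 16732648)) (l 16729600))) (c (b (b (l 16729400) (l 16729048)) (l 16728512)) (l 16728208))) (a (b (l 16719608) (l 16708400)) (l 16709960))) (a (a (c (a (a (l 86603894695) (l 16726832)) (l 16723632)) (l 69960892215)) (l 16722672)) (a (l 16707320) (l 16697976)))) (a (a (a (a (l 91972599991) (l 16729360)) (l 16726392)) (l 16721024)) (a (l 16705184) (l 16695752)))) (a (a (a (c (l 73718981607) (l 16720256)) (l 16722112)) (l 16720712)) (a (l 16721872) (l 16691360)))) (a (a (a (b (l 76940195511) (l 16719432)) (l 16718784)) (l 16712176))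 (a (l 16692344) (l 16703744)))) (b (b (b (a (b (a (c (a (l 48486067943) (l 16723200)) (l 110226196487)) (l 16727544)) (a (l 16722816) (l 16715680))) (c (l 16713272) (l 16702696))) (a (a (l 16723720) (l 16713616)) (l 16699872))) (a (a (l 75866460151) (l 16709536)) (l 16695544))) (a (a (l 53317883799) (l 16701392)) (l 16705456)))) (b (c (a (a (l 47412289367) (l 16690312)) (l 16697200)) (a (a (l 50096640919) (l 16690632)) (l 16676160))) (a (a (c (l 16708024) (l 16697640)) (l 16700720)) (a (l 16670200) (l 16660384))))) (a (a (l 3) (b (c (b (l 16667624) (l 16656360)) (b (l 16669400) (l 16700880))) (c (l 16660624) (b (l 16648624) (l 61370787639))))) (b (b (a (l 16659344) (l 16649416)) (c (l 16642248) (a (l 16649120) (l 16638840)))) (a (c (l 16651576) (b (l 16638864) (l 16628880))) (c (l 16620680) (b (l 16628352) (l 16618128))))))), by decide +kernel⟩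

def k3_pp_012_b : ∃ t, chk3 f_pp_012_b t 27 4 1 = true :=
  ⟨(b (b (b (b (b (b (a (c (a (l 16690568) (l 16682240)) (l 16707096)) (l 16689096)) (a (l 16726448) (l 16669024))) (a (a (l 16686432) (l 16678016)) (l 16666464))) (a (a (l 16681880) (l 16673264)) (l 16682384))) (a (a (l 16694080) (l 16664048)) (l 16693560))) (b (a (a (l 16682696) (l 16652360)) (l 16660104)) (a (l 16650952) (l 16669320)))) (c (b (a (l 16639224) (l 16615616)) (a (l 16627056) (b (l 16593352) (l 16581960)))) (b (a (b (l 16634544) (l 16623656)) (b (l 16615360) (l 16604280))) (a (b (l 16612912) (l 16623312)) (b (l 16593264) (l 16582384)))))), by decide +kernel⟩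

def k4_pp_012_b : ∃ t, chk3 f_pp_012_b t 6 5 1 = true :=
  ⟨(a (l 3) (a (a (l 3) (b (c (a (b (l 16609160) (l 116131535143)) (b (l 16599064) (l 16578896))) (b (a (b (l 16619168) (l 43117125879)) (b (l 16608216) (l 16598704))) (c (l 16631520) (b (a (l 47948950967) (l 16589664)) (a (l 3) (l 16580592)))))) (a (l 3) (b (c (l 16561248) (l 16567064)) (a (l 3) (l 46338219383)))))) (b (c (b (a (l 16604928) (l 16565048)) (a (l 16576824) (l 16543336))) (a (b (c (l 16607888) (b (l 16591744) (l 16581808))) (c (l 16567304) (b (l 16593272) (l 16562872)))) (b (a (l 16571448) (l 16561488)) (b (c (l 16551120) (l 16550528)) (l 16541000))))) (a (a (c (b (l 16550144) (l 16534096)) (b (l 16555248) (l 16538560))) (b (a (l 16545112) (l 16539528)) (l 16525208))) (c (l 16522336) (b (l 16526544) (l 16508528))))))), by decide +kernel⟩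

def k5_pp_012_b : ∃ t, chk3 f_pp_012_b t 6 3 1 = true :=
  ⟨(a (l 2) (b (a (l 3) (b (a (c (b (l 68886807975) (l 16522512)) (b (l 16517128) (l 16503776))) (b (a (l 16497776) (l 16485960)) (l 33923019015))) (b (a (l 2) (l 16465896)) (l 2)))) (l 2))), by decide +kernel⟩

def k6_pp_012_b : ∃ t, chk3 f_pp_012_b t 14 2 1 = true :=
  ⟨(b (b (b (a (b (b (a (b (a (l 16659920) (l 16653896)) (l 16653176)) (b (l 16645448) (l 16641600))) (a (l 16668744) (l 16635832))) (a (l 16658072) (a (l 16627528) (l 16621744)))) (b (b (b (a (l 16635736) (l 16629032)) (l 16627984)) (l 16642968)) (a (l 16614168) (l 16606840)))) (a (a (a (l 16662880) (l 16634376)) (b (l 16631056) (l 16596064))) (a (b (l 16556832) (l 16604888)) (b (l 16591008) (l 16575400))))) (a (b (a (b (l 16619688) (l 16608000)) (c (l 16598592) (l 16575048))) (b (a (a (l 16580216) (l 16571360)) (l 16558520)) (a (l 16564584) (l 16547000)))) (b (a (c (l 16585120) (l 16560872)) (b (l 16560272) (l 16545624))) (a (b (l 16543136) (l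 16531000)) (b (l 16531704) (l 16518464)))))) (b (a (b (c (b (l 16554952) (l 16532992)) (a (b (l 16552560) (l 16541728)) (l 16528480))) (a (c (l 16546088) (c (l 16526312) (l 16566880))) (b (l 16513440) (l 16502472)))) (b (a (b (l 16519216) (l 16507664)) (b (l 16505872) (l 16493920))) (a (b (l 16496464) (l 16485216)) (b (l 16482264) (l 16470872))))) (a (a (c (l 16499808) (b (l 16505392) (l 16486296))) (b (c (l 16486064) (l 16485232)) (l 16466168))) (b (a (l 16468624) (l 16453888)) (a (l 16447336) (l 16431768)))))), by decide +kernel⟩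

def k7_pp_012_b : ∃ t, chk3 f_pp_012_b t 15 2 1 = true :=
  ⟨(b (b (b (b (a (b (a (b (l 16614344) (l 16612040)) (b (a (l 16601944) (l 16593032)) (l 16595520))) (a (l 16608568) (l 16571360))) (b (a (c (l 16580208) (l 16576664)) (c (l 16561280) (l 16556472))) (a (l 16574976) (l 16555936)))) (a (a (l 16601296) (l 16585864)) (l 16570936))) (a (a (l 16578680) (l 16572440)) (a (l 16556776) (l 16540056)))) (b (a (a (l 16589144) (l 16544728)) (b (l 16577672) (l 16610792))) (a (a (l 16538616) (b (l 16521152) (l 16505920))) (a (c (l 16511320) (l 16505824)) (l 16503592))))) (a (b (b (a (l 16490352) (l 16484320)) (a (b (l 16471760) (l 16459912)) (b (l 16464248) (l 16451848)))) (b (a (l 16442688) (c (l 16436280) (l 16430144))) (a (l 16420008) (l 16410880)))) (b (a (b (c (l 16482128) (l 16474960)) (c (l 16454536) (l 16446736))) (c (b (l 16475976) (l 16447056)) (l 16515432))) (a (b (l 16426344) (l 16403040)) (b (l 16416144) (l 16392040)))))), by decide +kernel⟩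

def k8_pp_012_b : ∃ t, chk3 f_pp_012_b t 7 3 1 = true :=
  ⟨(a (b (a (b (b (a (l 16469056) (l 16447400)) (a (l 16453568) (l 16430464))) (a (b (l 16440280) (l 2)) (b (l 16415728) (l 16403280)))) (a (b (b (l 16427344) (l 16409024)) (b (l 16392728) (l 16378728))) (b (b (l 16410728) (l 16391168)) (b (l 16373408) (l 16357864))))) (b (a (l 2) (a (b (l 16367040) (l 2)) (l 16422632))) (l 2))) (b (a (a (b (b (l 16398176) (l 16377560)) (l 16349824)) (b (l 16377528) (l 16337440))) (b (a (l 16385288) (b (l 16369400) (l 16347856))) (b (l 16331944) (l 16359760)))) (a (b (a (l 16383400) (l 16326352)) (b (l 16296224) (l 2))) (b (a (l 16397440) (l 16280800)) (b (l 16266856) (l 16256096)))))), by decide +kernel⟩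

theorem s9_pp_012_b : ∃ t, chk3 f_pp_012_b t 7 2 1 = true := ex3_a k6_pp_012_b k7_pp_012_b

theorem s10_pp_012_b : ∃ t, chk3 f_pp_012_b t 7 1 1 = true := ex3_b s9_pp_012_b k8_pp_012_b

theorem s11_pp_012_b : ∃ t, chk3 f_pp_012_b t 13 4 1 = true := ex3_a k2_pp_012_b k3_pp_012_b

theorem s12_pp_012_b : ∃ t, chk3 f_pp_012_b t 6 4 1 = true := ex3_a k1_pp_012_b s11_pp_012_b

theorem s13_pp_012_b : ∃ t, chk3 f_pp_012_b t 6 2 1 = true := ex3_b s12_pp_012_b k4_pp_012_b

theorem s14_pp_012_b : ∃ t, chk3 f_pp_012_b t 6 1 1 = true := ex3_b s13_pp_012_b k5_pp_012_b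

theorem s15_pp_012_b : ∃ t, chk3 f_pp_012_b t 3 1 1 = true := ex3_a s14_pp_012_b s10_pp_012_b

theorem s16_pp_012_b : ∃ t, chk3 f_pp_012_b t 1 1 1 = true := ex3_a k0_pp_012_b s15_pp_012_b

theorem c_pp_012_b : CertB 0 536870912 1239849684 370763052 740881858 40050571 3 eng mog cd0q0 cd2q2b pd1 false true true .pnp 0 1 2
    ndB0q0 ndB2q2b pcB1 cut_pp_012_b Ext.none :=
  certB2 (fam := false) (s1 := true) (s2 := true) (a := 0) (b := 1) (c := 2) (cn := .pnp) (n1 := ndB0q0) (n2 := ndB2q2b) (pc := pcB1) (cut := cut_pp_012_b) (xt := Ext.none) (P1 := 0) (W1 := 536870912) (P2 := 1239849684) (W2 := 370763052) (P3 := 740881858) (W3 := 40050571) (N0 := 3) (En := eng) (mo := mog) (C1 := cd0q0) (C2 := cd2q2b) (C3 := pd1)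
    rfl (fun _ => rfl) s16_pp_012_b

noncomputable def cut_pp_022_a : Cut := Cut.of [[⟨0, 0, 0, 67108864⟩, ⟨1, 1, 0, 67108864⟩, ⟨2, 1, 0, 67108864⟩]]

noncomputable def f_pp_022_a : ℕ → ℕ → ℕ → ℕ → Bool := onCell 1073741824 536870912 0 536870912 740881858 40050571
    (rowB 3 eng mog cd0q0 cd2q2a pd2 2 false true true .pp 0 2 2 (qsf 0 536870912 0 536870912 2) ndB0q0 ndB2q2a pcB2 cut_pp_022_a Ext.none)

def k0_pp_022_a : ∃ t, chk3 f_pp_022_a t 4 2 1 = true :=
  ⟨(a (a (b (b (a (b (l 16532016) (l 16538016)) (b (l 16525272) (l 16531400))) (a (b (l 16566768) (a (l 16532632) (l 16540328))) (l 16586600))) (b (a (a (b (l 16548392) (l 16565160)) (l 16563928)) (l 16572288)) (a (a (b (l 16582576) (l 16600224)) (l 16597560)) (l 16614112)))) (a (b (b (l 16535024) (l 16542264)) (b (l 16552992) (b (l 16564280) (l 16574000)))) (b (b (c (l 16516064) (l 16513256)) (l 16536424)) (b (a (l 16536088) (l 16524576)) (a (l 16550712) (l 16559032)))))) (b (a (b (a (c (l 16497488) (l 16491024))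 (c (l 16478768) (l 16467288))) (a (a (l 16504400) (l 16493224)) (a (l 16481760) (l 16469848)))) (b (a (c (l 16479720) (l 16483824)) (b (a (l 16430104) (l 16412600)) (c (l 16429136) (l 16408600)))) (a (a (l 16457544) (l 16465728)) (c (a (l 16437520) (l 16418144)) (a (l 16416944) (l 16396824)))))) (a (b (a (b (l 16504256) (l 16508536)) (b (l 16500680) (l 16482128))) (a (a (b (l 16520808) (l 16527920)) (l 16551952)) (b (l 16485512) (a (l 16497608) (l 16482024))))) (a (b (a (b (l 16460232) (l 16461432)) (b (l 16446600) (l 16447096))) (a (b (l 16463408) (l 16466160)) (b (c (l 16458792) (l 16436768)) (c (l 16461056) (l 16438040))))) (b (a (b (l 16428192) (l 16428056)) (b (c (l 16417304) (l 16395632)) (c (l 16417032) (l 16394384)))) (a (b (c (l 16439616) (l 16416264)) (c (b (l 16440544) (l 16441344)) (b (l 16416432) (l 16416760)))) (b (c (l 16417088) (b (l 16393528) (a (l 16398984) (l 16387272)))) (c (b (l 16417384) (l 152504199367)) (b (a (l 16398832) (l 124586798535)) (a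 (l 16398816) (l 133713602919))))))))))), by decide +kernel⟩

def k1_pp_022_a : ∃ t, chk3 f_pp_022_a t 8 3 1 = true :=
  ⟨(b (a (b (b (a (a (l 16617632) (l 16622656)) (l 16611344)) (a (b (l 16632624) (l 16598512)) (l 16626400))) (a (a (b (b (l 16645992) (l 16653328)) (b (l 16660312) (a (l 16665768) (l 16667984)))) (b (l 16653920) (b (l 16664408) (l 16671080)))) (b (a (l 16651000) (l 16636632)) (a (l 16671296) (l 16655712))))) (b (a (b (l 16606536) (l 16619992)) (b (a (l 16565464) (l 16551488)) (a (l 16577384) (a (l 16566216) (l 16558648))))) (a (b (a (l 16621832) (l 16606616)) (b (l 16647912) (a (l 16644448) (l 16627712)))) (b (a (l 16591000) (a (l 16579032) (l 16591888))) (a (b (l 16602344) (l 16610576)) (a (b (l 16589712) (l 16597464)) (b (l 16581160) (l 16609576)))))))) (a (b (b (b (a (a (a (b (l 16670464) (l 16673472)) (l 16674248)) (b (l 16675832) (l 16678880))) (a (l 16681096) (l 16671544))) (b (b (a (a (a (l 16676184) (l 16678456)) (l 16681616)) (l 16665632))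 (l 6)) (l 6))) (l 6)) (l 6)) (b (b (a (b (a (l 16654536) (l 16637128)) (b (a (l 16661056) (l 16643120)) (l 6))) (a (b (l 16619328) (b (l 16624792) (l 6))) (b (a (l 16605720) (a (l 16598832) (l 16615184))) (a (b (l 16610792) (l 6)) (c (b (l 16605408) (l 16606088)) (l 55330922055)))))) (a (l 6) (a (l 6) (a (l 6) (l 1))))) (a (l 6) (l 1))))), by decide +kernel⟩

def k2_pp_022_a : ∃ t, chk3 f_pp_022_a t 18 6 1 = true :=
  ⟨(b (a (b (a (l 16536312) (l 16520032)) (a (a (l 16550448) (l 16541656)) (b (l 16526104) (l 16530576)))) (b (a (b (l 16501880) (l 16505080)) (b (l 16485408) (l 16503712))) (a (b (l 16529520) (a (l 16516880) (l 16507688))) (b (a (l 16495240) (l 16486304)) (a (c (l 16507216) (l 16489176)) (c (l 16498640) (l 16479128))))))) (a (b (a (a (b (l 16558936) (l 16565128)) (b (l 16549552) (l 16555312))) (b (a (l 16540112) (l 16530624)) (a (l 16545448) (c (l 16542352) (l 16528384))))) (a (a (b (l 16571728) (c (l 16583448) (l 16573880))) (b (l 16582424) (c (l 16583872)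 (l 16562384)))) (b (a (c (l 16557264) (l 16544728)) (c (b (l 16546256) (l 16548968)) (b (l 16532272) (l 16534992)))) (a (b (c (l 16561744) (l 16549264)) (c (l 16564848) (l 16552424))) (b (c (l 16551752) (l 16537816)) (l 1)))))) (b (a (b (a (l 16521088) (c (l 16519680) (l 16502912))) (a (c (l 16533112) (l 16517696)) (c (b (l 16522760) (l 82174318183)) (b (l 16505904) (l 81100543079))))) (b (b (a (l 16516728) (c (l 16500992) (l 16481336))) (a (c (l 16511672) (l 16493408)) (c (l 68752494135) (l 67678722663)))) (b (a (c (l 75731845367) (l 75194938791)) (c (l 16504328) (l 16484520))) (a (c (l 36540272679) (l 16507616)) (l 1))))) (a (b (b (a (c (l 16547176) (l 16521256)) (c (l 48888326055) (l 16510200))) (a (c (l 60162638535) (l 16523744)) (l 1))) (l 1)) (l 1))))), by decide +kernel⟩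

def k3_pp_022_a : ∃ t, chk3 f_pp_022_a t 19 6 1 = true :=
  ⟨(b (a (b (a (b (l 16468696) (a (l 16475008) (l 16466288))) (a (b (l 16456000) (b (l 16457112) (l 16468400))) (b (l 16455136) (a (b (l 16450560) (l 16451240)) (b (l 16445768) (c (l 16458584) (l 16433416))))))) (a (b (a (c (l 16487368) (l 16466656)) (c (l 16479048) (l 16467336))) (a (c (b (l 16489328) (l 16493320)) (b (l 16468408) (l 16469656))) (c (b (l 89690404119) (l 48351345031)) (b (l 105259639063) (l 54793775143))))) (a (b (c (b (l 16470200) (l 67678672983)) (b (l 16446592) (l 83784777383))) (a (c (l 31708328135) (l 33855788983)) (l 1))) (b (b (a (l 102038383447) (a (l 58551830023) (l 1))) (l 1)) (l 1))))) (b (a (b (c (l 163778539559) (a (l 16423272) (l 16411176))) (a (c (l 228739915543) (l 235182336535)) (l 1))) (b (a (l 179347704519) (l 1)) (l 1))) (l 1))) (a (b (a (b (a (c (b (l 59088789719) (l 16493576)) (b (l 72510537671) (l 16472336))) (l 1)) (l 1)) (l 1)) (l 1)) (l 1))), by decide +kernel⟩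

def k4_pp_022_a : ∃ t, chk3 f_pp_022_a t 9 7 1 = true :=
  ⟨(a (b (b (a (a (b (a (c (b (l 16588944) (l 16592752)) (l 24729252423)) (b (c (l 16578504) (l 16567624)) (l 26876728327))) (a (c (l 22044917863) (l 16586008)) (l 1))) (b (a (c (l 16580176) (l 16557400)) (l 1)) (l 1))) (l 1)) (l 1)) (l 1)) (l 1)), by decide +kernel⟩

def k5_pp_022_a : ∃ t, chk3 f_pp_022_a t 10 4 1 = true :=
  ⟨(a (b (a (b (a (l 16394520) (l 16375904)) (c (a (l 16401728) (l 16382704)) (a (l 16379864) (l 16360016)))) (a (b (c (l 16368304) (l 16344640)) (c (b (l 16364360) (l 16361888)) (b (l 16340848) (l 16338472)))) (b (a (c (l 16354000) (l 16329672)) (a (c (b (l 16348336) (l 16345120)) (l 16322088)) (c (l 1179001237895) (l 2055174516791)))) (a (b (c (l 16349536) (l 16325432)) (c (l 16346688) (l 16322728))) (a (b (c (l 16342008) (l 16317616)) (c (l 241624620455) (l 16314744))) (l 1)))))) (a (a (c (l 16398112) (b (l 16377128) (l 16375024))) (c (b (l 16379016) (l 16375784)) (b (l 16356384) (a (l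 16358752) (l 16347728))))) (a (b (b (c (l 16359520) (l 16336200)) (a (l 16351208) (c (l 16351920) (l 16328560)))) (c (a (b (l 16360456) (l 16358464)) (b (l 218002270551) (l 247530166247))) (a (b (l 16337488) (l 16335624)) (b (l 213170384279) (l 202969832823))))) (a (b (c (b (l 254509504375) (l 245382699015)) (b (l 222834097367) (l 210486060791))) (b (c (l 234108410759) (l 195990540551)) (l 1))) (b (a (b (c (l 329134573159) (l 317323365655)) (l 1)) (l 1)) (l 1)))))) (b (l 1) (l 1))), by decide +kernel⟩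

def k6_pp_022_a : ∃ t, chk3 f_pp_022_a t 10 5 1 = true :=
  ⟨(a (a (b (c (a (b (l 16395424) (l 16394448)) (b (b (l 16373584) (a (l 16378080) (l 16366440))) (a (l 245919615303) (l 219612916199)))) (a (b (b (l 16373808) (l 16373072)) (b (l 16372000) (l 16350048))) (b (b (l 16351176) (a (l 16355776) (l 16344016))) (b (a (l 16354512) (l 185253123063)) (a (l 186863757143) (l 178810669447)))))) (a (a (b (c (l 16399688) (b (l 16376064) (l 159483385111))) (c (l 200285683047) (b (l 140692901095) (l 1)))) (b (c (l 153040968919) (b (l 187937521095) (l 144987846119))) (l 1))) (b (a (c (l 190085036839) (b (l 147672178359) (l 1))) (l 1)) (l 1)))) (a (b (b (b (c (a (l 16356520) (l 228739679767)) (a (l 16333848) (l 184179348391))) (a (c (l 247530191191) (b (l 16332560) (l 180958140871))) (l 1))) (b (l 1) (l 1))) (l 1)) (l 1))) (l 1)), by decide +kernel⟩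

def k7_pp_022_a : ∃ t, chk3 f_pp_022_a t 11 2 1 = true :=
  ⟨(l 1), by decide +kernel⟩

def k8_pp_022_a : ∃ t, chk3 f_pp_022_a t 5 3 1 = true :=
  ⟨(b (l 1) (l 1)), by decide +kernel⟩

def k9_pp_022_a : ∃ t, chk3 f_pp_022_a t 3 1 1 = true :=
  ⟨(l 1), by decide +kernel⟩

theorem s10_pp_022_a : ∃ t, chk3 f_pp_022_a t 10 2 1 = true := ex3_b k5_pp_022_a k6_pp_022_a

theorem s11_pp_022_a : ∃ t, chk3 f_pp_022_a t 5 2 1 = true := ex3_a s10_pp_022_a k7_pp_022_a

theorem s12_pp_022_a : ∃ t, chk3 f_pp_022_a t 5 1 1 = true := ex3_b s11_pp_022_a k8_pp_022_a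

theorem s13_pp_022_a : ∃ t, chk3 f_pp_022_a t 9 6 1 = true := ex3_a k2_pp_022_a k3_pp_022_a

theorem s14_pp_022_a : ∃ t, chk3 f_pp_022_a t 9 3 1 = true := ex3_b s13_pp_022_a k4_pp_022_a

theorem s15_pp_022_a : ∃ t, chk3 f_pp_022_a t 4 3 1 = true := ex3_a k1_pp_022_a s14_pp_022_a

theorem s16_pp_022_a : ∃ t, chk3 f_pp_022_a t 4 1 1 = true := ex3_b k0_pp_022_a s15_pp_022_a

theorem s17_pp_022_a : ∃ t, chk3 f_pp_022_a t 2 1 1 = true := ex3_a s16_pp_022_a s12_pp_022_a

theorem s18_pp_022_a : ∃ t, chk3 f_pp_022_a t 1 1 1 = true := ex3_a s17_pp_022_a k9_pp_022_a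

theorem c_pp_022_a : CertB 0 536870912 0 536870912 740881858 40050571 3 eng mog cd0q0 cd2q2a pd2 false true true .pp 0 2 2
    ndB0q0 ndB2q2a pcB2 cut_pp_022_a Ext.none :=
  certB2 (fam := false) (s1 := true) (s2 := true) (a := 0) (b := 2) (c := 2) (cn := .pp) (n1 := ndB0q0) (n2 := ndB2q2a) (pc := pcB2) (cut := cut_pp_022_a) (xt := Ext.none) (P1 := 0) (W1 := 536870912) (P2 := 0) (W2 := 536870912) (P3 := 740881858) (W3 := 40050571) (N0 := 3) (En := eng) (mo := mog) (C1 := cd0q0) (C2 := cd2q2a) (C3 := pd2)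
    rfl (fun _ => rfl) s18_pp_022_a

noncomputable def cut_pp_022_b : Cut := Cut.of [[⟨0, 0, 0, 67108864⟩, ⟨1, 1, 0, 67108864⟩, ⟨2, 1, 0, 67108864⟩]]

noncomputable def f_pp_022_b : ℕ → ℕ → ℕ → ℕ → Bool := onCell 1073741824 536870912 1239849684 370763052 740881858 40050571
    (rowB 3 eng mog cd0q0 cd2q2b pd2 2 false true true .pp 0 2 2 (qsf 0 536870912 1239849684 370763052 2) ndB0q0 ndB2q2b pcB2 cut_pp_022_b Ext.none)

def k0_pp_022_b : ∃ t, chk3 f_pp_022_b t 4 4 1 = true :=
  ⟨(a (c (b (b (b (a (a (c (b (l 16509632) (l 16500760)) (l 16500920)) (b (l 16520160) (l 16511200))) (c (l 16537928) (l 16516992))) (a (a (l 16484472) (l 16497768)) (l 16504072))) (a (a (l 16457656) (l 16471376)) (c (l 16485376) (l 16484360)))) (a (a (b (l 16445000) (l 16413128)) (b (l 16436208) (l 16404008))) (b (a (l 16446760) (l 16455264)) (a (l 16414064) (l 16421832))))) (a (a (b (b (b (b (l 16499432) (l 16488672)) (l 16472400)) (a (l 16437024) (l 16445888))) (b (b (l 16412504) (l 16394384))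 (a (l 16364480) (l 16372216)))) (b (b (b (c (l 16511784) (l 16509080)) (l 16489704)) (b (l 16469048) (l 16448312))) (b (l 16419200) (l 16383352)))) (b (b (b (a (l 16523136) (l 16506632)) (l 16507024)) (a (l 16473376) (l 16483056))) (a (b (l 16433600) (l 16397008)) (b (l 16446176) (l 16408560)))))) (b (b (b (b (a (c (a (l 16493344) (l 16475488)) (a (l 16487840) (l 16465048))) (a (c (l 16456664) (l 16440952)) (c (l 16429848) (l 16410472)))) (a (a (l 16484608) (l 16464864)) (a (l 16444032) (l 16416208)))) (a (a (l 16433832) (l 16456264)) (a (a (l 16441248) (l 16430888)) (l 16409528)))) (a (a (l 16459248) (l 16397592)) (a (a (l 16425056) (l 16415168)) (l 16437536)))) (b (a (a (l 16440488) (l 16419656)) (a (l 16441704) (l 16377160))) (a (c (l 16408648) (l 16418944)) (a (l 16383272) (l 16359968)))))), by decide +kernel⟩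

def k1_pp_022_b : ∃ t, chk3 f_pp_022_b t 4 5 1 = true :=
  ⟨(a (b (a (a (b (c (l 16361768) (l 16335432)) (b (l 16368256) (l 16311560))) (b (l 16404560) (l 16374200))) (a (b (c (l 16382984) (l 16362952)) (c (l 16353328) (l 16331880))) (b (l 16383056) (l 16352416)))) (a (a (b (a (l 16286976) (l 16293848)) (l 16285536)) (b (l 16303344) (l 16276536))) (a (b (l 16314440) (l 16287272)) (b (l 16323608) (l 16296200))))) (b (a (b (c (l 16390776) (l 16389248)) (a (l 16359408) (l 16364216))) (a (b (l 16368472) (l 16354960)) (b (l 16346672) (l 16335352)))) (a (b (a (l 16330360) (l 16335080)) (l 16305728)) (a (l 16323672) (l 16316728))))), by decide +kernel⟩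

def k2_pp_022_b : ∃ t, chk3 f_pp_022_b t 5 8 1 = true :=
  ⟨(a (c (a (a (b (b (b (c (l 16401040) (l 16390992)) (l 16391936)) (l 16385568)) (l 16372504)) (a (b (b (b (b (l 16370232) (l 16368544)) (l 16365984)) (l 16360760)) (l 16349928)) (b (c (b (b (a (l 16361184) (b (a (l 16355072) (l 16350128)) (l 16351072))) (a (l 16357816) (l 16348736))) (l 16348328)) (b (b (a (l 16349888) (b (l 190085014663) (l 16339648))) (l 16342544)) (l 16338592))) (l 16334152)))) (b (c (b (a (b (a (b (l 189548108967) (l 201896143815)) (l 1)) (l 204043598551)) (l 1)) (a (a (l 16330904) (l 214244138423)) (l 223907783543))) (b (a (b (b (l 202432964423) (l 207264800903)) (l 214780990999)) (l 1)) (a (l 224444676231) (l 233034516631)))) (a (b (a (l 16320280) (l 16302784)) (l 16306656)) (b (a (l 227129006983) (l 242698184183)) (a (l 16281168) (l 16263432)))))) (a (a (b (b (c (l 16378752) (l 16367744)) (l 16368152)) (l 16359720)) (b (b (c (a (l 16351240) (b (a (l 16338008) (b (l 16328496) (l 16327704)))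 (l 16331312))) (a (l 16339560) (b (a (l 16325560) (l 228739667511)) (l 16319608)))) (a (l 16341680) (l 16323328))) (a (l 16335296) (l 16318304)))) (b (b (a (c (b (a (l 231960865799) (l 1)) (l 224981513143)) (b (l 266320543511) (l 233571416263))) (l 1)) (a (a (l 16302608) (l 245382606839)) (a (l 245919393303) (l 1)))) (a (b (l 16289960) (l 16287912)) (b (a (l 16257744) (l 258804290199)) (l 244308800887)))))) (b (l 1) (a (a (b (l 1) (c (a (l 253972474199) (l 248066813815)) (l 267930991303))) (l 1)) (l 1)))), by decide +kernel⟩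

def k3_pp_022_b : ∃ t, chk3 f_pp_022_b t 5 9 1 = true :=
  ⟨(a (a (a (b (l 16350856) (l 16335864)) (b (a (l 16330160) (l 16315576)) (l 16394224))) (b (a (c (l 16298784) (l 16284120)) (c (l 16309240) (l 16246080))) (a (l 16282328) (l 16251768)))) (c (a (b (a (b (a (l 16243232) (l 222833921031)) (l 16232632)) (b (l 261488528871) (l 215854548551))) (a (l 16229568) (l 16218176))) (b (a (b (l 1) (l 281889549479)) (l 1)) (a (l 207801435271) (l 306585543335)))) (a (b (a (b (l 239476878071) (l 16206192)) (b (l 275447099783) (l 230349990551))) (a (l 16207456) (l 16168584))) (b (a (l 278668238615) (l 1)) (a (l 222833740503) (l 284036881207)))))), by decide +kernel⟩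

def k4_pp_022_b : ∃ t, chk3 f_pp_022_b t 5 5 1 = true :=
  ⟨(a (a (b (a (b (l 16322432) (l 16292216)) (b (l 16361192) (l 16351944))) (a (b (l 16305240) (l 16297224)) (b (l 16304648) (l 16279664)))) (b (b (a (l 16272992) (l 16245576)) (a (l 16264496) (l 16239352))) (a (l 16300512) (l 16276784)))) (b (a (b (a (l 16216200) (l 16184376)) (a (l 16212736) (l 16184560))) (b (a (l 16192336) (b (l 205116920007) (l 16116352))) (a (l 16154136) (l 16142640)))) (a (b (l 16196872) (l 16196088)) (a (l 16157464) (l 16150760))))), by decide +kernel⟩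

def k5_pp_022_b : ∃ t, chk3 f_pp_022_b t 2 3 1 = true :=
  ⟨(a (b (a (b (a (a (b (l 16262064) (l 16218920)) (b (l 16252296) (l 16229624))) (a (b (l 16262120) (l 16239064)) (b (l 16270688) (l 16247088)))) (a (a (b (l 16197488) (l 16177240)) (l 16239768)) (a (b (l 16217344) (l 16196704)) (l 16298512)))) (a (b (a (l 16265264) (l 16269792)) (a (l 16262728) (l 16288016))) (b (a (l 16272216) (l 16280288)) (a (l 16227712) (l 16236112))))) (a (b (a (a (l 16150104) (l 16160008)) (a (l 16168496) (l 16175480))) (a (b (l 16132760) (l 16121400)) (l 16204264))) (b (a (a (l 16181088) (l 16206544)) (l 16235336)) (a (l 16213024) (l 16158136))))) (b (a (a (b (a (l 16278352) (l 16268472)) (a (l 16245808) (l 16245968))) (b (b (l 16287320) (l 16244872)) (l 16238336))) (b (a (b (l 16199824) (l 16205304)) (b (l 16150064) (l 16157368))) (a (l 16234144) (l 16193032)))) (b (a (a (l 16232520) (l 16222048)) (a (l 16216128) (l 16193016))) (a (a (l 16179480) (l 16195032)) (a (l 16209928) (l 16205632)))))),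 by decide +kernel⟩

def k6_pp_022_b : ∃ t, chk3 f_pp_022_b t 3 1 1 = true :=
  ⟨(b (a (b (l 1) (a (b (a (b (a (b (l 306585394903) (l 221759968519)) (l 1)) (a (b (l 16105712) (l 16089800)) (b (l 251824690743) (l 16096424)))) (b (l 1) (a (b (l 1) (l 262025149479)) (l 1)))) (a (a (l 16100888) (b (l 16063960) (l 16075416))) (b (a (l 249140284071) (l 268467442935)) (a (l 16044240) (l 16011488))))) (b (l 1) (a (b (l 1) (a (l 287258012359) (l 1))) (l 1))))) (l 1)) (a (b (a (b (a (b (l 16098728) (l 16107224)) (b (l 16042952) (l 16056192))) (a (l 16187760) (l 16075792))) (b (a (b (a (l 15996920) (l 298532276583)) (l 16000504)) (b (l 317859448487) (l 256656334007))) (a (l 16047800) (b (l 15963152) (l 15985680))))) (a (b (a (l 16154000) (l 16108952)) (a (l 16183632) (l 16144504))) (b (a (l 16062088) (l 16016528)) (a (l 16105608) (l 16062584))))) (b (a (b (l 1) (a (b (l 348461182343) (l 15930984)) (l 370472640455))) (l 1)) (a (b (a (l 15969016) (l 226591557255)) (a (l 16017264)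 (l 15975224))) (b (a (l 399463895559) (l 1)) (l 250750872487)))))), by decide +kernel⟩

theorem s7_pp_022_b : ∃ t, chk3 f_pp_022_b t 5 4 1 = true := ex3_b k2_pp_022_b k3_pp_022_b

theorem s8_pp_022_b : ∃ t, chk3 f_pp_022_b t 5 2 1 = true := ex3_b s7_pp_022_b k4_pp_022_b

theorem s9_pp_022_b : ∃ t, chk3 f_pp_022_b t 4 2 1 = true := ex3_b k0_pp_022_b k1_pp_022_b

theorem s10_pp_022_b : ∃ t, chk3 f_pp_022_b t 2 2 1 = true := ex3_a s9_pp_022_b s8_pp_022_b

theorem s11_pp_022_b : ∃ t, chk3 f_pp_022_b t 2 1 1 = true := ex3_b s10_pp_022_b k5_pp_022_b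

theorem s12_pp_022_b : ∃ t, chk3 f_pp_022_b t 1 1 1 = true := ex3_a s11_pp_022_b k6_pp_022_b

theorem c_pp_022_b : CertB 0 536870912 1239849684 370763052 740881858 40050571 3 eng mog cd0q0 cd2q2b pd2 false true true .pp 0 2 2
    ndB0q0 ndB2q2b pcB2 cut_pp_022_b Ext.none :=
  certB2 (fam := false) (s1 := true) (s2 := true) (a := 0) (b := 2) (c := 2) (cn := .pp) (n1 := ndB0q0) (n2 := ndB2q2b) (pc := pcB2) (cut := cut_pp_022_b) (xt := Ext.none) (P1 := 0) (W1 := 536870912) (P2 := 1239849684) (W2 := 370763052) (P3 := 740881858) (W3 := 40050571) (N0 := 3) (En := eng) (mo := mog) (C1 := cd0q0) (C2 := cd2q2b) (C3 := pd2)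
    rfl (fun _ => rfl) s12_pp_022_b

noncomputable def f_pp_023 : ℕ → ℕ → ℕ → ℕ → Bool := onCell 0 536870912 1073741824 536870912 740881858 40050571
    (rowB 3 eng mog cd0q0 cd2q3 pd2 1 false true true .up 0 2 3 (qsf 0 536870912 1610612736 536870912 2) ndB0q0 ndB2q3 pcB2 Cut.none Ext.none)

def k0_pp_023 : ∃ t, chk3 f_pp_023 t 1 1 1 = true :=
  ⟨(b (a (a (l 1) (b (l 1) (a (l 1) (b (l 1) (l 291016525751))))) (b (a (b (l 1) (a (l 1) (b (l 1) (l 333429185447)))) (b (a (b (l 1) (l 273299911127)) (b (a (l 16138720) (l 16131456)) (a (l 16141568) (l 16140216)))) (a (b (l 16152768) (l 16148040)) (b (l 16143792) (l 16150768))))) (a (b (a (l 270615878711) (b (l 16182304) (l 16183976))) (a (l 16200200) (l 16180336))) (b (a (b (l 16162360) (l 16175832)) (b (l 16178304) (l 16205048))) (a (l 16192264) (l 16242856)))))) (a (a (b (a (l 1) (b (l 1) (l 339871628359))) (a (b (l 394095343399) (l 15972192)) (b (l 16020120) (l 16010104)))) (b (a (b (l 372084191159) (l 16111632)) (b (l 16184960)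 (l 16172072))) (a (b (l 16097464) (l 16095536)) (l 16255200)))) (b (a (a (b (l 16196832) (l 16201368)) (b (l 16164824) (l 16186552))) (a (b (l 16203840) (l 16258280)) (b (l 16286600) (l 16389232)))) (a (a (l 16215832) (l 16296504)) (a (l 16213176) (b (l 16466768) (l 16523464))))))), by decide +kernel⟩

theorem c_pp_023 : CertB 0 536870912 1610612736 536870912 740881858 40050571 3 eng mog cd0q0 cd2q3 pd2 false true true .up 0 2 3
    ndB0q0 ndB2q3 pcB2 Cut.none Ext.none :=
  certB1 (fam := false) (s1 := true) (s2 := true) (a := 0) (b := 2) (c := 3) (cn := .up) (n1 := ndB0q0) (n2 := ndB2q3) (pc := pcB2) (cut := Cut.none) (xt := Ext.none) (P1 := 0) (W1 := 536870912) (P2 := 1610612736) (W2 := 536870912) (P3 := 740881858) (W3 := 40050571) (N0 := 3) (En := eng) (mo := mog) (C1 := cd0q0) (C2 := cd2q3) (C3 := pd2)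
    rfl (fun _ => rfl) k0_pp_023

noncomputable def f_pp_033 : ℕ → ℕ → ℕ → ℕ → Bool := onCell 0 536870912 1610612736 536870912 740881858 40050571
    (rowB 3 eng mog cd0q0 cd2q3 pd3 1 false true true .pnn 0 3 3 (qsf 0 536870912 1610612736 536870912 3) ndB0q0 ndB2q3 pcB3 Cut.none Ext.none)

def k0_pp_033 : ∃ t, chk3 f_pp_033 t 1 1 1 = true :=
  ⟨(a (b (b (a (b (a (l 15925112) (l 16009520)) (a (l 15903008) (l 15980232))) (b (a (l 16098744) (l 16182048)) (a (l 16069224) (l 16211992)))) (a (b (a (l 15907312) (l 16000904)) (a (l 15961768) (l 16066584))) (b (a (l 16130440) (l 16265328)) (a (l 16188464) (l 16379760))))) (a (b (l 4) (l 4)) (b (l 4) (a (b (l 4) (l 2)) (l 2))))) (b (a (b (b (a (l 16306848) (l 16403936)) (a (l 16335232) (l 16429192))) (b (a (l 16381056) (l 16329648)) (a (l 16559864) (l 4)))) (b (b (l 16713032) (a (l 16508640) (l 16591184))) (a (b (l 16559240) (l 2)) (l 2)))) (a (b (a (b (l 4) (l 2)) (l 2)) (l 2)) (l 2)))), by decide +kernel⟩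

theorem c_pp_033 : CertB 0 536870912 1610612736 536870912 740881858 40050571 3 eng mog cd0q0 cd2q3 pd3 false true true .pnn 0 3 3
    ndB0q0 ndB2q3 pcB3 Cut.none Ext.none :=
  certB1 (fam := false) (s1 := true) (s2 := true) (a := 0) (b := 3) (c := 3) (cn := .pnn) (n1 := ndB0q0) (n2 := ndB2q3) (pc := pcB3) (cut := Cut.none) (xt := Ext.none) (P1 := 0) (W1 := 536870912) (P2 := 1610612736) (W2 := 536870912) (P3 := 740881858) (W3 := 40050571) (N0 := 3) (En := eng) (mo := mog) (C1 := cd0q0) (C2 := cd2q3) (C3 := pd3)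
    rfl (fun _ => rfl) k0_pp_033

noncomputable def f_pp_101 : ℕ → ℕ → ℕ → ℕ → Bool := onCell 536870912 536870912 536870912 536870912 740881858 40050571
    (rowB 3 eng mog cd0q1 cd2q1 pd0 0 false true true .npn 1 0 1 (qsf 536870912 536870912 536870912 536870912 0) ndB0q1 ndB2q1 pcB0 Cut.none Ext.none)

def k0_pp_101 : ∃ t, chk3 f_pp_101 t 1 1 1 = true :=
  ⟨(l 3), by decide +kernel⟩

theorem c_pp_101 : CertB 536870912 536870912 536870912 536870912 740881858 40050571 3 eng mog cd0q1 cd2q1 pd0 false true true .npn 1 0 1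
    ndB0q1 ndB2q1 pcB0 Cut.none Ext.none :=
  certB0 (fam := false) (s1 := true) (s2 := true) (a := 1) (b := 0) (c := 1) (cn := .npn) (n1 := ndB0q1) (n2 := ndB2q1) (pc := pcB0) (cut := Cut.none) (xt := Ext.none) (P1 := 536870912) (W1 := 536870912) (P2 := 536870912) (W2 := 536870912) (P3 := 740881858) (W3 := 40050571) (N0 := 3) (En := eng) (mo := mog) (C1 := cd0q1) (C2 := cd2q1) (C3 := pd0)
    rfl k0_pp_101

noncomputable def f_pp_102_a : ℕ → ℕ → ℕ → ℕ → Bool := onCell 536870912 536870912 0 536870912 740881858 40050571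
    (rowB 3 eng mog cd0q1 cd2q2a pd0 0 false true true .npp 1 0 2 (qsf 536870912 536870912 0 536870912 0) ndB0q1 ndB2q2a pcB0 Cut.none Ext.none)

def k0_pp_102_a : ∃ t, chk3 f_pp_102_a t 1 1 1 = true :=
  ⟨(l 3), by decide +kernel⟩

theorem c_pp_102_a : CertB 536870912 536870912 0 536870912 740881858 40050571 3 eng mog cd0q1 cd2q2a pd0 false true true .npp 1 0 2
    ndB0q1 ndB2q2a pcB0 Cut.none Ext.none :=
  certB0 (fam := false) (s1 := true) (s2 := true) (a := 1) (b := 0) (c := 2) (cn := .npp) (n1 := ndB0q1) (n2 := ndB2q2a) (pc := pcB0) (cut := Cut.none) (xt := Ext.none) (P1 := 536870912) (W1 := 536870912) (P2 := 0) (W2 := 536870912) (P3 := 740881858) (W3 := 40050571) (N0 := 3) (En := eng) (mo := mog) (C1 := cd0q1) (C2 := cd2q2a) (C3 := pd0)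
    rfl k0_pp_102_a

noncomputable def f_pp_102_b : ℕ → ℕ → ℕ → ℕ → Bool := onCell 536870912 536870912 0 536870912 740881858 40050571
    (rowB 3 eng mog cd0q1 cd2q2b pd0 1 false true true .npp 1 0 2 (qsf 536870912 536870912 1239849684 370763052 0) ndB0q1 ndB2q2b pcB0 Cut.none Ext.none)

def k0_pp_102_b : ∃ t, chk3 f_pp_102_b t 1 1 1 = true :=
  ⟨(l 3), by decide +kernel⟩

theorem c_pp_102_b : CertB 536870912 536870912 1239849684 370763052 740881858 40050571 3 eng mog cd0q1 cd2q2b pd0 false true true .npp 1 0 2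
    ndB0q1 ndB2q2b pcB0 Cut.none Ext.none :=
  certB1 (fam := false) (s1 := true) (s2 := true) (a := 1) (b := 0) (c := 2) (cn := .npp) (n1 := ndB0q1) (n2 := ndB2q2b) (pc := pcB0) (cut := Cut.none) (xt := Ext.none) (P1 := 536870912) (W1 := 536870912) (P2 := 1239849684) (W2 := 370763052) (P3 := 740881858) (W3 := 40050571) (N0 := 3) (En := eng) (mo := mog) (C1 := cd0q1) (C2 := cd2q2b) (C3 := pd0)
    rfl (fun _ => rfl) k0_pp_102_b

noncomputable def f_pp_112_a : ℕ → ℕ → ℕ → ℕ → Bool := onCell 536870912 536870912 0 536870912 740881858 40050571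
    (rowB 3 eng mog cd0q1 cd2q2a pd1 0 false true true .dn 1 1 2 (qsf 536870912 536870912 0 536870912 1) ndB0q1 ndB2q2a pcB1 Cut.none Ext.none)

def k0_pp_112_a : ∃ t, chk3 f_pp_112_a t 1 1 1 = true :=
  ⟨(l 3), by decide +kernel⟩

theorem c_pp_112_a : CertB 536870912 536870912 0 536870912 740881858 40050571 3 eng mog cd0q1 cd2q2a pd1 false true true .dn 1 1 2
    ndB0q1 ndB2q2a pcB1 Cut.none Ext.none :=
  certB0 (fam := false) (s1 := true) (s2 := true) (a := 1) (b := 1) (c := 2) (cn := .dn) (n1 := ndB0q1) (n2 := ndB2q2a) (pc := pcB1) (cut := Cut.none) (xt := Ext.none) (P1 := 536870912) (W1 := 536870912) (P2 := 0) (W2 := 536870912) (P3 := 740881858) (W3 := 40050571) (N0 := 3) (En := eng) (mo := mog) (C1 := cd0q1) (C2 := cd2q2a) (C3 := pd1)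
    rfl k0_pp_112_a

noncomputable def f_pp_112_b : ℕ → ℕ → ℕ → ℕ → Bool := onCell 536870912 536870912 536870912 536870912 740881858 40050571
    (rowB 3 eng mog cd0q1 cd2q2b pd1 1 false true true .dn 1 1 2 (qsf 536870912 536870912 1239849684 370763052 1) ndB0q1 ndB2q2b pcB1 Cut.none Ext.none)

def k0_pp_112_b : ∃ t, chk3 f_pp_112_b t 1 1 1 = true :=
  ⟨(b (a (l 3) (l 3)) (a (b (a (b (l 3) (b (l 3) (a (a (c (b (l 73181751239) (l 16464520)) (b (l 16499584) (l 16464712))) (b (l 3) (l 16451920))) (a (l 112910116759) (l 3))))) (l 3)) (a (b (a (b (a (b (l 16431344) (l 16397648)) (b (l 16418648) (l 16385320))) (a (l 16348896) (l 16337096))) (b (b (a (l 16412192) (l 16413712)) (l 16463640)) (a (l 16332240) (l 16336416)))) (a (b (a (l 16295696) (l 16285240)) (a (l 16252056) (l 16242352))) (b (l 16326704) (l 2)))) (b (a (b (a (b (l 16446456) (l 2)) (l 2)) (l 2)) (l 2)) (l 2)))) (b (l 3) (l 2)))), by decide +kernel⟩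

theorem c_pp_112_b : CertB 536870912 536870912 1239849684 370763052 740881858 40050571 3 eng mog cd0q1 cd2q2b pd1 false true true .dn 1 1 2
    ndB0q1 ndB2q2b pcB1 Cut.none Ext.none :=
  certB1 (fam := false) (s1 := true) (s2 := true) (a := 1) (b := 1) (c := 2) (cn := .dn) (n1 := ndB0q1) (n2 := ndB2q2b) (pc := pcB1) (cut := Cut.none) (xt := Ext.none) (P1 := 536870912) (W1 := 536870912) (P2 := 1239849684) (W2 := 370763052) (P3 := 740881858) (W3 := 40050571) (N0 := 3) (En := eng) (mo := mog) (C1 := cd0q1) (C2 := cd2q2b) (C3 := pd1)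
    rfl (fun _ => rfl) k0_pp_112_b

noncomputable def cut_pp_113 : Cut := Cut.of [[⟨0, 1, 0, 67108864⟩, ⟨1, 1, 0, 67108864⟩, ⟨2, 2, 0, 16777216⟩]]

noncomputable def f_pp_113 : ℕ → ℕ → ℕ → ℕ → Bool := onCell 536870912 536870912 536870912 536870912 740881858 40050571
    (rowB 3 eng mog cd0q1 cd2q3 pd1 1 false true true .nn 1 1 3 (qsf 536870912 536870912 1610612736 536870912 1) ndB0q1 ndB2q3 pcB1 cut_pp_113 Ext.none)

def k0_pp_113 : ∃ t, chk3 f_pp_113 t 1 2 1 = true :=
  ⟨(a (l 3) (l 3)), by decide +kernel⟩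

def k1_pp_113 : ∃ t, chk3 f_pp_113 t 2 3 1 = true :=
  ⟨(b (a (a (l 1) (a (l 1) (a (l 1) (l 3)))) (l 3)) (a (b (a (b (l 1) (a (l 1) (l 16360928))) (b (a (l 16465672) (b (l 16451288) (l 16423808))) (a (l 16367464) (b (l 16396704) (l 16372808))))) (a (b (a (l 16313960) (l 16314192)) (a (l 16273216) (l 16275400))) (b (a (l 16323944) (l 16345224)) (l 16321640)))) (b (a (b (b (a (l 110762767815) (l 3)) (a (c (l 16465048) (l 16433520)) (c (l 85529898023) (l 16471592)))) (a (b (l 16424584) (l 16403512)) (b (l 16470608) (l 16454200)))) (b (a (b (l 3) (l 125258485751)) (l 3)) (a (b (l 73718834775) (l 16529072)) (b (c (l 100562480087) (l 52780868775)) (l 16630552))))) (a (b (a (l 16380888) (l 16439424)) (b (l 16394952) (l 16388520))) (b (a (l 16526192) (c (l 16659264) (l 16608320))) (a (l 16533368) (l 16624000))))))), by decide +kernel⟩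

def k2_pp_113 : ∃ t, chk3 f_pp_113 t 3 3 1 = true :=
  ⟨(b (l 3) (a (b (a (b (l 3) (a (b (l 231022188711) (b (l 98952007079) (l 16721304))) (b (l 3) (b (l 3) (a (l 145122882311) (l 252497103367)))))) (l 3)) (a (b (b (a (l 16707256) (a (l 16736000) (b (l 16737832) (l 16748440)))) (a (l 16691728) (l 16726528))) (a (l 16669952) (l 16701048))) (b (a (b (b (a (l 204178721607) (l 217600554327)) (a (l 16767840) (l 16769232))) (c (l 16743800) (l 16762872))) (a (b (l 226727385799) (l 16773664)) (b (l 3) (b (l 210621246375) (l 16807160))))) (a (c (l 16715512) (l 16733808)) (b (l 16782088) (l 16761328)))))) (b (l 3) (a (b (b (l 3) (a (a (b (l 232096146423) (l 16817920)) (b (l 3) (l 190220282567))) (a (l 3) (l 3)))) (a (b (a (l 16783552) (b (l 16825624) (l 16812760))) (a (l 16781464) (l 16794296))) (b (a (b (a (l 16837352) (l 174114160711)) (l 16827128)) (b (a (l 61371246087) (l 3)) (l 49560062903))) (a (l 16807160) (l 16836768))))) (b (l 3) (a (b (b (l 3) (a (a (l 115595142407)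 (l 234780434391)) (a (l 3) (l 3)))) (a (c (l 16835232) (l 16819368)) (b (a (c (l 16818880) (l 16819560)) (b (l 368461253831) (l 114521340599))) (c (l 16802464) (l 16806888))))) (b (l 3) (a (b (a (b (l 3) (c (l 133311803415) (l 300815504135))) (c (l 625622436535) (l 651392228679))) (a (c (l 16797784) (l 16801712)) (b (b (a (l 164987173383) (l 404431577623)) (c (l 16796544) (l 16789688))) (c (l 16790664) (l 16793608))))) (b (l 3) (a (b (a (b (l 3) (c (l 163913419591) (l 289541200919))) (c (l 662129632231) (l 698099976727))) (b (a (c (l 16790008) (l 16792648)) (a (a (l 154786612311) (l 6)) (l 6))) (a (l 16787080) (l 6)))) (b (l 3) (l 6)))))))))))), by decide +kernel⟩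

theorem s3_pp_113 : ∃ t, chk3 f_pp_113 t 1 3 1 = true := ex3_a k1_pp_113 k2_pp_113

theorem s4_pp_113 : ∃ t, chk3 f_pp_113 t 1 1 1 = true := ex3_b k0_pp_113 s3_pp_113

theorem c_pp_113 : CertB 536870912 536870912 1610612736 536870912 740881858 40050571 3 eng mog cd0q1 cd2q3 pd1 false true true .nn 1 1 3
    ndB0q1 ndB2q3 pcB1 cut_pp_113 Ext.none :=
  certB1 (fam := false) (s1 := true) (s2 := true) (a := 1) (b := 1) (c := 3) (cn := .nn) (n1 := ndB0q1) (n2 := ndB2q3) (pc := pcB1) (cut := cut_pp_113) (xt := Ext.none) (P1 := 536870912) (W1 := 536870912) (P2 := 1610612736) (W2 := 536870912) (P3 := 740881858) (W3 := 40050571) (N0 := 3) (En := eng) (mo := mog) (C1 := cd0q1) (C2 := cd2q3) (C3 := pd1)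
    rfl (fun _ => rfl) s4_pp_113

noncomputable def cut_pp_123 : Cut := Cut.of [[⟨0, 1, 0, 67108864⟩, ⟨1, 1, 0, 67108864⟩, ⟨2, 2, 0, 16777216⟩]]

noncomputable def f_pp_123 : ℕ → ℕ → ℕ → ℕ → Bool := onCell 536870912 536870912 1073741824 536870912 740881858 40050571
    (rowB 3 eng mog cd0q1 cd2q3 pd2 1 false true true .npn 1 2 3 (qsf 536870912 536870912 1610612736 536870912 2) ndB0q1 ndB2q3 pcB2 cut_pp_123 Ext.none)

def k0_pp_123 : ∃ t, chk3 f_pp_123 t 2 1 1 = true :=
  ⟨(b (b (a (b (a (b (a (b (l 16129168) (l 16136328)) (l 16143472)) (a (l 16146856) (l 16161280))) (b (l 16183144) (l 16207496))) (a (b (l 16168384) (l 16186640)) (b (l 16231352) (l 16260360)))) (b (a (b (a (l 16258872) (l 16343976)) (b (l 16324432) (l 16340792))) (b (a (l 16459968) (l 16521800)) (l 16489512))) (a (b (l 16364840) (l 16382744)) (b (l 16483344) (l 16481304))))) (a (b (a (b (l 16226656) (l 16265208)) (b (l 16311256) (l 16357904))) (a (l 16320008) (l 16417688))) (b (a (b (l 16420400) (l 16451864))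 (b (l 16485920) (l 16527696))) (a (l 16493304) (b (l 16545840) (l 16564696)))))) (a (b (a (b (l 16407704) (l 16481872)) (b (l 16485512) (l 16541568))) (b (a (l 16539792) (l 16583960)) (b (l 16639664) (l 16824032)))) (b (a (b (b (l 16531208) (l 16554768)) (l 16580944)) (b (b (l 16559024) (l 16594104)) (a (l 16607616) (l 2)))) (a (b (l 16614896) (l 2)) (l 2))))), by decide +kernel⟩

def k1_pp_123 : ∃ t, chk3 f_pp_123 t 3 1 1 = true :=
  ⟨(b (a (b (b (a (a (b (l 16569216) (l 16554064)) (b (l 16604024) (l 16584344))) (b (a (l 16663328) (l 16746216)) (a (l 16617736) (l 16674424)))) (a (b (l 16552976) (l 16477904)) (b (b (l 16596248) (l 16584648)) (a (l 16577256) (l 16626704))))) (b (b (b (a (l 16553144) (l 16828032)) (a (b (l 16561064) (l 16565368)) (b (l 16603304) (b (l 16606568) (l 16818336))))) (a (a (l 16564464) (l 16582552)) (a (l 16601016) (l 16618208)))) (a (a (l 16456968) (l 16634544)) (a (l 16602544) (l 2))))) (b (b (a (b (a (b (l 16746232) (l 16708952)) (a (l 16783176)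 (b (l 16763152) (l 16744280)))) (a (b (l 16691584) (l 16673544)) (b (l 16719128) (a (l 16693008) (l 16703328))))) (b (a (b (a (l 16768912) (b (l 16753640) (l 16764872))) (a (l 16749152) (b (l 16754512) (l 16743808)))) (b (a (b (a (l 16774280) (b (l 16776400) (l 16771400))) (a (l 16764176) (l 16763616))) (b (a (b (a (l 16776040) (l 6)) (l 6)) (l 6)) (a (l 6) (l 193374166583)))) (a (b (l 16752656) (l 16740408)) (l 232028885943)))) (a (c (l 16716112) (l 16729640)) (b (l 179952371047) (l 2))))) (a (b (a (b (l 16658328) (l 16645520)) (b (l 16660704) (l 16666912))) (a (l 16710672) (b (l 16650936) (l 2)))) (b (a (l 16680592) (l 2)) (l 2)))) (a (b (b (b (l 16654424) (l 2)) (l 2)) (l 2)) (l 2)))) (a (b (a (b (a (l 16603432) (l 2)) (l 2)) (l 2)) (l 2)) (l 2))), by decide +kernel⟩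

theorem s2_pp_123 : ∃ t, chk3 f_pp_123 t 1 1 1 = true := ex3_a k0_pp_123 k1_pp_123

theorem c_pp_123 : CertB 536870912 536870912 1610612736 536870912 740881858 40050571 3 eng mog cd0q1 cd2q3 pd2 false true true .npn 1 2 3
    ndB0q1 ndB2q3 pcB2 cut_pp_123 Ext.none :=
  certB1 (fam := false) (s1 := true) (s2 := true) (a := 1) (b := 2) (c := 3) (cn := .npn) (n1 := ndB0q1) (n2 := ndB2q3) (pc := pcB2) (cut := cut_pp_123) (xt := Ext.none) (P1 := 536870912) (W1 := 536870912) (P2 := 1610612736) (W2 := 536870912) (P3 := 740881858) (W3 := 40050571) (N0 := 3) (En := eng) (mo := mog) (C1 := cd0q1) (C2 := cd2q3) (C3 := pd2)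
    rfl (fun _ => rfl) s2_pp_123

noncomputable def f_pp_133 : ℕ → ℕ → ℕ → ℕ → Bool := onCell 536870912 536870912 1610612736 536870912 740881858 40050571
    (rowB 3 eng mog cd0q1 cd2q3 pd3 0 false true true .dn 1 3 3 (qsf 536870912 536870912 1610612736 536870912 3) ndB0q1 ndB2q3 pcB3 Cut.none Ext.none)

def k0_pp_133 : ∃ t, chk3 f_pp_133 t 1 1 1 = true :=
  ⟨(a (b (l 1) (a (b (l 1) (a (b (l 1) (l 16635592)) (l 1))) (l 1))) (l 1)), by decide +kernel⟩

theorem c_pp_133 : CertB 536870912 536870912 1610612736 536870912 740881858 40050571 3 eng mog cd0q1 cd2q3 pd3 false true true .dn 1 3 3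
    ndB0q1 ndB2q3 pcB3 Cut.none Ext.none :=
  certB0 (fam := false) (s1 := true) (s2 := true) (a := 1) (b := 3) (c := 3) (cn := .dn) (n1 := ndB0q1) (n2 := ndB2q3) (pc := pcB3) (cut := Cut.none) (xt := Ext.none) (P1 := 536870912) (W1 := 536870912) (P2 := 1610612736) (W2 := 536870912) (P3 := 740881858) (W3 := 40050571) (N0 := 3) (En := eng) (mo := mog) (C1 := cd0q1) (C2 := cd2q3) (C3 := pd3)
    rfl k0_pp_133

noncomputable def f_pp_202_a : ℕ → ℕ → ℕ → ℕ → Bool := onCell 0 536870912 0 536870912 740881858 40050571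
    (rowB 3 eng mog cd0q2 cd2q2a pd0 0 false true true .pp 2 0 2 (qsf 0 536870912 0 536870912 0) ndB0q2 ndB2q2a pcB0 Cut.none Ext.none)

def k0_pp_202_a : ∃ t, chk3 f_pp_202_a t 1 1 1 = true :=
  ⟨(l 3), by decide +kernel⟩

theorem c_pp_202_a : CertB 0 536870912 0 536870912 740881858 40050571 3 eng mog cd0q2 cd2q2a pd0 false true true .pp 2 0 2
    ndB0q2 ndB2q2a pcB0 Cut.none Ext.none :=
  certB0 (fam := false) (s1 := true) (s2 := true) (a := 2) (b := 0) (c := 2) (cn := .pp) (n1 := ndB0q2) (n2 := ndB2q2a) (pc := pcB0) (cut := Cut.none) (xt := Ext.none) (P1 := 0) (W1 := 536870912) (P2 := 0) (W2 := 536870912) (P3 := 740881858) (W3 := 40050571) (N0 := 3) (En := eng) (mo := mog) (C1 := cd0q2) (C2 := cd2q2a) (C3 := pd0)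
    rfl k0_pp_202_a

noncomputable def f_pp_202_b : ℕ → ℕ → ℕ → ℕ → Bool := onCell 0 536870912 1239849684 370763052 740881858 40050571
    (rowB 3 eng mog cd0q2 cd2q2b pd0 0 false true true .pp 2 0 2 (qsf 0 536870912 1239849684 370763052 0) ndB0q2 ndB2q2b pcB0 Cut.none Ext.none)

def k0_pp_202_b : ∃ t, chk3 f_pp_202_b t 1 1 1 = true :=
  ⟨(l 3), by decide +kernel⟩

theorem c_pp_202_b : CertB 0 536870912 1239849684 370763052 740881858 40050571 3 eng mog cd0q2 cd2q2b pd0 false true true .pp 2 0 2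
    ndB0q2 ndB2q2b pcB0 Cut.none Ext.none :=
  certB0 (fam := false) (s1 := true) (s2 := true) (a := 2) (b := 0) (c := 2) (cn := .pp) (n1 := ndB0q2) (n2 := ndB2q2b) (pc := pcB0) (cut := Cut.none) (xt := Ext.none) (P1 := 0) (W1 := 536870912) (P2 := 1239849684) (W2 := 370763052) (P3 := 740881858) (W3 := 40050571) (N0 := 3) (En := eng) (mo := mog) (C1 := cd0q2) (C2 := cd2q2b) (C3 := pd0)
    rfl k0_pp_202_b

noncomputable def f_pp_203 : ℕ → ℕ → ℕ → ℕ → Bool := onCell 0 536870912 0 536870912 740881858 40050571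
    (rowB 3 eng mog cd0q2 cd2q3 pd0 1 false true true .up 2 0 3 (qsf 0 536870912 1610612736 536870912 0) ndB0q2 ndB2q3 pcB0 Cut.none Ext.none)

def k0_pp_203 : ∃ t, chk3 f_pp_203 t 1 1 1 = true :=
  ⟨(l 3), by decide +kernel⟩

theorem c_pp_203 : CertB 0 536870912 1610612736 536870912 740881858 40050571 3 eng mog cd0q2 cd2q3 pd0 false true true .up 2 0 3
    ndB0q2 ndB2q3 pcB0 Cut.none Ext.none :=
  certB1 (fam := false) (s1 := true) (s2 := true) (a := 2) (b := 0) (c := 3) (cn := .up) (n1 := ndB0q2) (n2 := ndB2q3) (pc := pcB0) (cut := Cut.none) (xt := Ext.none) (P1 := 0) (W1 := 536870912) (P2 := 1610612736) (W2 := 536870912) (P3 := 740881858) (W3 := 40050571) (N0 := 3) (En := eng) (mo := mog) (C1 := cd0q2) (C2 := cd2q3) (C3 := pd0)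
    rfl (fun _ => rfl) k0_pp_203

noncomputable def cut_pp_213 : Cut := Cut.of [[⟨0, 1, 0, 67108864⟩, ⟨1, 1, 0, 67108864⟩, ⟨2, 2, 0, 16777216⟩]]

noncomputable def f_pp_213 : ℕ → ℕ → ℕ → ℕ → Bool := onCell 0 536870912 1610612736 536870912 740881858 40050571
    (rowB 3 eng mog cd0q2 cd2q3 pd1 0 false true true .pnn 2 1 3 (qsf 0 536870912 1610612736 536870912 1) ndB0q2 ndB2q3 pcB1 cut_pp_213 Ext.none)

def k0_pp_213 : ∃ t, chk3 f_pp_213 t 1 1 1 = true :=
  ⟨(b (l 3) (a (l 3) (b (l 3) (a (l 3) (b (l 3) (a (l 3) (b (l 3) (b (l 3) (b (l 3) (l 6)))))))))), by decide +kernel⟩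

theorem c_pp_213 : CertB 0 536870912 1610612736 536870912 740881858 40050571 3 eng mog cd0q2 cd2q3 pd1 false true true .pnn 2 1 3
    ndB0q2 ndB2q3 pcB1 cut_pp_213 Ext.none :=
  certB0 (fam := false) (s1 := true) (s2 := true) (a := 2) (b := 1) (c := 3) (cn := .pnn) (n1 := ndB0q2) (n2 := ndB2q3) (pc := pcB1) (cut := cut_pp_213) (xt := Ext.none) (P1 := 0) (W1 := 536870912) (P2 := 1610612736) (W2 := 536870912) (P3 := 740881858) (W3 := 40050571) (N0 := 3) (En := eng) (mo := mog) (C1 := cd0q2) (C2 := cd2q3) (C3 := pd1)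
    rfl k0_pp_213

noncomputable def f_pm_001 : ℕ → ℕ → ℕ → ℕ → Bool := onCell 0 536870912 536870912 536870912 740881858 40050571
    (rowB 3 eng mog cd0q0 cd2q1 pd0 0 false true false .up 0 0 1 (qsf 0 536870912 536870912 536870912 0) ndB0q0 ndB2q1 pcB0 Cut.none Ext.none)

def k0_pm_001 : ∃ t, chk3 f_pm_001 t 1 1 1 = true :=
  ⟨(l 4), by decide +kernel⟩

theorem c_pm_001 : CertB 0 536870912 536870912 536870912 740881858 40050571 3 eng mog cd0q0 cd2q1 pd0 false true false .up 0 0 1
    ndB0q0 ndB2q1 pcB0 Cut.none Ext.none :=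
  certB0 (fam := false) (s1 := true) (s2 := false) (a := 0) (b := 0) (c := 1) (cn := .up) (n1 := ndB0q0) (n2 := ndB2q1) (pc := pcB0) (cut := Cut.none) (xt := Ext.none) (P1 := 0) (W1 := 536870912) (P2 := 536870912) (W2 := 536870912) (P3 := 740881858) (W3 := 40050571) (N0 := 3) (En := eng) (mo := mog) (C1 := cd0q0) (C2 := cd2q1) (C3 := pd0)
    rfl k0_pm_001

noncomputable def f_pm_011 : ℕ → ℕ → ℕ → ℕ → Bool := onCell 0 536870912 536870912 536870912 740881858 40050571
    (rowB 3 eng mog cd0q0 cd2q1 pd1 0 false true false .pnn 0 1 1 (qsf 0 536870912 536870912 536870912 1) ndB0q0 ndB2q1 pcB1 Cut.none Ext.none)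

def k0_pm_011 : ∃ t, chk3 f_pm_011 t 1 1 1 = true :=
  ⟨(l 4), by decide +kernel⟩

theorem c_pm_011 : CertB 0 536870912 536870912 536870912 740881858 40050571 3 eng mog cd0q0 cd2q1 pd1 false true false .pnn 0 1 1
    ndB0q0 ndB2q1 pcB1 Cut.none Ext.none :=
  certB0 (fam := false) (s1 := true) (s2 := false) (a := 0) (b := 1) (c := 1) (cn := .pnn) (n1 := ndB0q0) (n2 := ndB2q1) (pc := pcB1) (cut := Cut.none) (xt := Ext.none) (P1 := 0) (W1 := 536870912) (P2 := 536870912) (W2 := 536870912) (P3 := 740881858) (W3 := 40050571) (N0 := 3) (En := eng) (mo := mog) (C1 := cd0q0) (C2 := cd2q1) (C3 := pd1)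
    rfl k0_pm_011

noncomputable def cut_pm_012_a : Cut := Cut.of [[⟨0, 0, 0, 67108864⟩, ⟨1, 1, 0, 67108864⟩, ⟨2, 1, 0, 67108864⟩]]

noncomputable def f_pm_012_a : ℕ → ℕ → ℕ → ℕ → Bool := onCell 0 536870912 0 536870912 740881858 40050571
    (rowB 3 eng mog cd0q0 cd2q2a pd1 0 false true false .pnp 0 1 2 (qsf 0 536870912 0 536870912 1) ndB0q0 ndB2q2a pcB1 cut_pm_012_a Ext.none)

def k0_pm_012_a : ∃ t, chk3 f_pm_012_a t 2 2 1 = true :=
  ⟨(a (b (l 2) (a (l 2) (b (l 2) (b (l 2) (a (l 2) (a (l 2) (a (l 2) (b (l 16310192) (l 16323064))))))))) (b (a (a (a (l 2) (b (b (l 16339688) (b (l 16288632) (l 16284200))) (b (a (l 2) (l 16282160)) (a (b (l 16276272) (l 16276960)) (l 16280696))))) (b (b (a (l 16306384) (l 16315352)) (a (b (l 16297312) (l 16292824)) (b (l 16306304) (l 16301760)))) (a (b (l 16288504) (a (l 16284688) (l 16288720))) (b (l 16297232) (l 16294952))))) (b (a (b (a (l 16324896) (l 16335224)) (a (l 16313616) (l 16323944))) (b (l 16351416) (a (l 16334800) (l 16345408))))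 (a (a (b (l 16306528) (l 16303776)) (b (l 16316656) (l 16313528))) (a (l 16325832) (l 16336016))))) (a (a (b (a (a (l 2) (b (b (l 2) (l 16278296)) (b (a (l 2) (l 16284272)) (a (l 16288616) (l 16290560))))) (b (a (b (l 16278976) (l 16282336)) (l 16284376)) (a (b (l 16287048) (l 16293128)) (l 16293312)))) (a (b (a (b (l 16293472) (l 16303016)) (b (l 16297384) (l 16306568))) (a (b (l 16314008) (l 16326448)) (b (l 16317160) (l 16329176)))) (b (a (b (l 16300576) (l 16309408)) (l 16307576)) (a (l 16325464) (l 16327200))))) (b (a (b (a (l 16288000) (l 16291680)) (a (l 16296440) (l 16299624))) (b (l 16297368) (a (l 16302896) (l 16306304)))) (a (b (a (l 16310072) (l 16312624)) (b (l 16324472) (l 16334976))) (b (l 16316640) (l 16333616))))) (a (b (a (b (l 16305488) (l 16311784)) (b (l 16314704) (l 16320280))) (a (b (l 16322800) (l 16338568)) (b (l 16330288) (l 16344672)))) (b (a (l 16347992) (l 16335880)) (b (l 16341680) (l 16353872))))))), by decide +kernel⟩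

def k1_pm_012_a : ∃ t, chk3 f_pm_012_a t 4 6 1 = true :=
  ⟨(a (l 2) (a (b (l 2) (a (b (l 2) (a (l 2) (b (l 16448232) (l 16487744)))) (b (a (b (l 2) (l 16423464)) (b (l 16401536) (l 16425904))) (b (a (l 16450128) (l 16451816)) (a (l 16478352) (l 16479224)))))) (b (a (b (a (l 2) (b (l 2) (l 16346688))) (a (b (l 2) (l 16382152)) (b (l 16365112) (l 16385088)))) (b (a (b (l 16333904) (l 16350264)) (b (l 16337432) (l 16353280))) (a (l 16377912) (l 16380056)))) (b (a (b (a (l 16404280) (l 16406568)) (a (l 16427944) (l 16429528))) (b (l 16409008) (l 16430920))) (a (b (l 16453584) (l 16479784)) (b (l 16454200) (l 16478784))))))), by decide +kernel⟩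

def k2_pm_012_a : ∃ t, chk3 f_pm_012_a t 4 14 1 = true :=
  ⟨(a (a (l 2) (b (a (l 2) (a (l 2) (b (l 2) (b (l 16531008) (l 16544576))))) (a (l 6) (a (l 6) (b (b (l 16558424) (l 16572568)) (l 16594400)))))) (a (b (a (b (a (b (l 16499480) (l 16515592)) (l 16507840)) (a (l 16537344) (l 16536832))) (b (a (l 16508064) (l 16508080)) (l 16535904))) (a (b (a (l 16564400) (l 16563232)) (a (l 16592584) (l 16590728))) (b (l 16561320) (l 16608760)))) (b (b (a (l 16507336) (l 16504608)) (a (l 16533568) (l 16529360))) (a (b (l 16557680) (l 16582872)) (b (l 16552448) (l 16576656)))))), by decide +kernel⟩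

def k3_pm_012_a : ∃ t, chk3 f_pm_012_a t 4 15 1 = true :=
  ⟨(a (a (l 6) (a (l 6) (a (l 6) (a (l 6) (b (b (l 16623784) (l 16675656)) (b (l 16686584) (b (l 16689936) (b (l 16690760) (l 16693848))))))))) (b (a (a (b (a (l 16621872) (l 16619288)) (b (l 16621928) (l 16658104))) (b (a (l 16616656) (l 16613808)) (l 16643848))) (a (b (l 16609240) (l 16630224)) (b (l 16601808) (l 16611888)))) (b (a (a (a (l 16679856) (l 16661328)) (a (b (l 16657832) (l 16658808)) (l 16610808))) (a (a (l 16595128) (l 16627128)) (b (l 16613008) (l 16613440)))) (a (a (b (a (l 16681808) (l 16670736)) (b (a (l 16682488) (l 16671128)) (a (b (l 16682728) (a (l 16685736) (l 16679960))) (b (l 16671256) (a (l 16674192) (l 16668456)))))) (b (a (l 16659456) (l 16648416)) (b (a (l 16659760) (l 16648640)) (b (a (l 16659848) (l 16648688)) (a (a (l 16662728) (l 16657048)) (b (l 16648704) (a (l 16651464) (l 16645976)))))))) (b (a (a (l 16637816) (l 16627720)) (l 16634584)) (a (a (b (l 16637960) (b (l 16637976)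 (a (l 16640608) (l 16635352)))) (b (l 16627784) (b (l 16627760) (a (l 16630232) (l 16625248))))) (a (b (l 16618160) (c (l 16619816) (l 16616400))) (b (l 16609136) (c (l 16610816) (l 16607248)))))))))), by decide +kernel⟩

def k4_pm_012_a : ∃ t, chk3 f_pm_012_a t 5 6 1 = true :=
  ⟨(a (b (a (b (a (b (l 16341552) (l 16356632)) (b (l 16344720) (l 16358768))) (a (l 16382112) (l 16382544))) (b (a (l 16353344) (l 16355608)) (a (l 16382064) (l 16382552)))) (a (b (a (l 16420520) (l 16418480)) (a (l 16464144) (l 16459592))) (b (a (l 16415888) (l 16414080)) (a (l 16454400) (l 16449632))))) (b (a (b (a (l 16359024) (l 16363336)) (a (l 16383904) (l 16386088))) (b (l 16369880) (l 16389464))) (a (b (a (l 16412904) (l 16412576)) (a (l 16445512) (l 16442248))) (b (l 16412224) (l 16437504))))), by decide +kernel⟩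

def k5_pm_012_a : ∃ t, chk3 f_pm_012_a t 5 7 1 = true :=
  ⟨(a (a (b (b (a (b (l 16499920) (l 16523464)) (l 16546352)) (a (l 16557080) (l 16546872))) (b (b (l 16585920) (a (l 16596024) (l 16582832))) (b (a (l 16596960) (l 16583336)) (b (a (l 16597000) (l 16593536)) (a (a (b (l 16600744) (c (l 16602424) (l 16598760))) (b (l 16593024) (c (l 16594680) (l 16590968)))) (a (b (l 16586008) (c (l 16587608) (l 16583912))) (b (l 16579480) (c (l 16580992) (l 16577368))))))))) (a (b (b (l 16495936) (l 16535552)) (b (l 16570376) (b (l 16570816) (b (l 16570208) (c (b (l 16571192) (a (l 16574408) (l 16567760))) (a (l 16571208) (l 16564608))))))) (b (b (l 16487864) (l 16524632)) (b (l 16558104) (b (l 16557912) (b (l 16556984) (a (b (l 16559696) (c (l 16561016) (l 16557448))) (c (l 16554288) (l 16551008))))))))) (b (a (b (a (l 16480440) (l 16473864)) (l 16509632)) (b (b (l 16457360) (l 16470656)) (l 16490816))) (b (a (a (l 16545224) (l 16531576)) (b (l 16511064) (l 16510424))) (a (b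 (a (l 16544392) (l 16530096)) (b (a (l 16543144) (l 16528528)) (a (a (c (l 16547312) (l 16543936)) (c (l 16540160) (l 16536648))) (b (l 16548496) (a (l 16551520) (l 16522976)))))) (b (a (l 16515664) (l 16501608)) (a (b (l 16513784) (a (l 16526392) (l 16519016))) (b (l 16499408) (a (l 16501240) (l 16494032))))))))), by decide +kernel⟩

def k6_pm_012_a : ∃ t, chk3 f_pm_012_a t 3 2 1 = true :=
  ⟨(a (b (a (b (a (b (l 16371712) (a (l 16355584) (l 16365392))) (b (l 16392000) (l 16380752))) (a (a (l 16345776) (l 16355152)) (l 16369880))) (b (a (b (l 16415016) (l 16403768)) (l 16432800)) (a (l 16392104) (l 16414592)))) (a (a (b (a (l 16344328) (l 16352408)) (a (l 16357320) (l 16363112))) (b (a (l 16360768) (l 16369856)) (a (l 16369200) (l 16376056)))) (a (b (l 16384984) (l 16408824)) (b (l 16405024) (l 16403424))))) (b (a (b (a (l 16452936) (l 16470672)) (a (l 16433920) (l 16450800))) (b (a (l 16486648) (l 16500920)) (a (l 16465920) (l 16479392)))) (a (a (b (l 16421888) (l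 16415848)) (b (l 16436336) (l 16425920))) (a (l 16547184) (l 16535504))))), by decide +kernel⟩

def k7_pm_012_a : ∃ t, chk3 f_pm_012_a t 3 3 1 = true :=
  ⟨(a (b (a (b (a (b (l 16377176) (l 16392600)) (b (l 16384720) (l 16396056))) (a (b (l 16410440) (l 16429912)) (b (l 16409008) (l 16422680)))) (a (b (l 16399096) (a (l 16414792) (l 16414392))) (b (l 16407664) (l 16412704)))) (a (b (a (b (a (l 16453624) (l 16446312)) (l 16470840)) (b (l 16373144) (l 16451104))) (b (a (a (l 16491256) (l 16478368)) (l 16500416)) (a (b (a (l 16487856) (l 16474344)) (a (b (l 16485344) (a (l 16486896) (l 16479832))) (b (l 16471520) (a (l 16472824) (l 16465808))))) (b (a (l 16460584) (l 16446352)) (a (b (l 16457448) (l 16476008)) (l 16441632)))))) (b (a (b (l 16424280) (l 16433040)) (l 16476152)) (b (a (l 16472552) (l 16403816)) (a (b (a (l 16431784) (l 16417152)) (a (l 16426672) (l 16432616))) (b (l 16396360) (a (l 16397176) (l 16383528)))))))) (b (a (a (b (l 16413088) (l 16407600)) (b (l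 16416280) (l 16400488))) (a (b (l 16418176) (l 16392352)) (b (l 16419240) (l 16383896)))) (a (b (a (l 16456216) (l 16415448)) (a (b (l 16400816) (b (l 16371192) (a (l 16370592) (l 16358200)))) (b (l 16357680) (b (l 16347888) (a (l 16346184) (l 16334440)))))) (a (b (l 16354408) (b (l 16336304) (a (l 16327024) (l 16315608)))) (b (l 16334816) (b (l 16314552) (a (l 16303992) (l 16292152)))))))), by decide +kernel⟩

theorem s8_pm_012_a : ∃ t, chk3 f_pm_012_a t 3 1 1 = true := ex3_b k6_pm_012_a k7_pm_012_a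

theorem s9_pm_012_a : ∃ t, chk3 f_pm_012_a t 5 3 1 = true := ex3_b k4_pm_012_a k5_pm_012_a

theorem s10_pm_012_a : ∃ t, chk3 f_pm_012_a t 4 7 1 = true := ex3_b k2_pm_012_a k3_pm_012_a

theorem s11_pm_012_a : ∃ t, chk3 f_pm_012_a t 4 3 1 = true := ex3_b k1_pm_012_a s10_pm_012_a

theorem s12_pm_012_a : ∃ t, chk3 f_pm_012_a t 2 3 1 = true := ex3_a s11_pm_012_a s9_pm_012_a

theorem s13_pm_012_a : ∃ t, chk3 f_pm_012_a t 2 1 1 = true := ex3_b k0_pm_012_a s12_pm_012_a

theorem s14_pm_012_a : ∃ t, chk3 f_pm_012_a t 1 1 1 = true := ex3_a s13_pm_012_a s8_pm_012_a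

theorem c_pm_012_a : CertB 0 536870912 0 536870912 740881858 40050571 3 eng mog cd0q0 cd2q2a pd1 false true false .pnp 0 1 2
    ndB0q0 ndB2q2a pcB1 cut_pm_012_a Ext.none :=
  certB0 (fam := false) (s1 := true) (s2 := false) (a := 0) (b := 1) (c := 2) (cn := .pnp) (n1 := ndB0q0) (n2 := ndB2q2a) (pc := pcB1) (cut := cut_pm_012_a) (xt := Ext.none) (P1 := 0) (W1 := 536870912) (P2 := 0) (W2 := 536870912) (P3 := 740881858) (W3 := 40050571) (N0 := 3) (En := eng) (mo := mog) (C1 := cd0q0) (C2 := cd2q2a) (C3 := pd1)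
    rfl s14_pm_012_a

noncomputable def cut_pm_012_b : Cut := Cut.of [[⟨0, 0, 0, 67108864⟩, ⟨1, 1, 0, 67108864⟩, ⟨2, 1, 0, 67108864⟩]]

noncomputable def f_pm_012_b : ℕ → ℕ → ℕ → ℕ → Bool := onCell 0 536870912 1239849684 370763052 740881858 40050571
    (rowB 3 eng mog cd0q0 cd2q2b pd1 0 false true false .pnp 0 1 2 (qsf 0 536870912 1239849684 370763052 1) ndB0q0 ndB2q2b pcB1 cut_pm_012_b Ext.none)

def k0_pm_012_b : ∃ t, chk3 f_pm_012_b t 2 1 1 = true :=
  ⟨(a (l 2) (b (b (b (a (b (b (a (b (a (l 2) (c (b (l 16310352) (l 2)) (l 16282488))) (l 2)) (b (c (a (c (l 16319096) (l 16308488)) (c (l 16328224) (l 16317792))) (a (l 16291680) (l 16301248))) (a (l 16281984) (l 16292360)))) (a (l 2) (a (a (l 2) (l 16252896)) (l 16261808)))) (a (l 2) (a (l 2) (b (l 16241176) (l 16177624))))) (b (b (b (a (a (c (l 16353752) (l 16311464)) (b (l 16337600) (l 16328592))) (c (c (l 16363728) (l 16354536)) (l 16339952))) (a (a (l 16303288) (l 16314960)) (l 16332872))) (a (a (l 16274184) (l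 16287280)) (l 16328056))) (a (a (b (l 16234536) (l 16193896)) (l 16230248)) (a (l 16246232) (l 16261792))))) (a (l 2) (a (b (a (b (l 16152312) (l 2)) (b (l 16171160) (l 16130576))) (l 2)) (b (a (l 16170720) (l 16189936)) (a (l 16091600) (l 16114624)))))) (a (l 2) (b (a (l 2) (b (a (l 2) (l 31774675975)) (l 2))) (l 2)))) (l 2))), by decide +kernel⟩

def k1_pm_012_b : ∃ t, chk3 f_pm_012_b t 6 1 1 = true :=
  ⟨(b (b (c (a (b (b (b (a (b (c (l 16383376) (l 16375104)) (l 16364568)) (b (l 16420336) (l 16386448))) (a (l 16341984) (l 16366576))) (a (l 16295144) (l 16325176))) (a (b (l 16229672) (l 16160952)) (b (l 16266800) (l 16205136)))) (b (b (b (a (b (l 16422272) (l 16411088)) (b (l 16445560) (l 16436064))) (a (l 16393800) (l 16421296))) (a (l 16357560) (l 16390016))) (a (l 16278960) (l 16321272)))) (a (a (b (b (b (b (l 16362096) (l 16346616)) (l 16322952)) (l 16274128)) (b (l 16206336) (l 16135568))) (b (b (b (b (l 16384200) (l 16370376)) (l 16349208)) (l 16305400)) (l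 16233232))) (a (b (b (b (b (l 16408776) (l 16396544)) (l 16377752)) (l 16338736)) (l 16255208)) (b (b (b (l 16428040) (l 16406192)) (l 16371760)) (l 16297496))))) (a (b (a (b (a (c (l 16076168) (l 16049072)) (l 16087816)) (a (c (l 15999416) (l 15970024)) (b (l 58618166471) (l 15994608)))) (b (a (l 16113328) (l 16139136)) (c (a (b (l 16076064) (l 16041096)) (l 16088200)) (l 16042752)))) (a (l 2) (c (a (b (l 15987456) (l 2)) (b (l 16020664) (l 15950568))) (a (l 15913416) (l 15948176))))) (b (a (b (l 16199768) (a (l 16101728) (l 16131448))) (b (l 16230776) (l 16174928))) (a (b (a (l 16035520) (l 16068464)) (c (a (l 15987192) (l 16023552)) (l 15965344))) (b (l 16116560) (a (l 16038584) (l 16073048))))))) (a (l 2) (b (a (b (b (a (l 7078272247) (c (l 15957848) (l 15913168))) (l 2)) (l 2)) (b (b (a (l 15974000) (l 16011832)) (a (l 15907008) (l 15948288))) (a (l 2) (c (l 15876968) (l 15821040))))) (l 2)))), by decide +kernel⟩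

def k2_pm_012_b : ∃ t, chk3 f_pm_012_b t 7 1 1 = true :=
  ⟨(b (b (b (b (a (b (b (a (l 16460488) (l 16478952)) (l 16504272)) (l 16533976)) (b (b (a (l 16495640) (l 16510576)) (l 16602928)) (l 16615832))) (a (a (l 16410232) (l 16436824)) (a (l 16461176) (l 16483200)))) (a (a (l 16347792) (l 16383232)) (a (l 16415960) (l 16445824)))) (a (b (a (b (l 16278768) (l 16229312)) (l 16301760)) (a (a (l 16134760) (l 16165736)) (l 16210416))) (b (a (l 16345976) (l 16386704)) (a (l 16266728) (l 16319008))))) (a (b (a (b (a (b (l 16048536) (l 15988432)) (l 16056016)) (a (b (l 15926104) (l 2)) (b (l 15968640) (l 15907712)))) (b (a (l 16092496) (l 16128048)) (a (l 90293439447) (l 16023632)))) (a (l 2) (b (b (l 68818490583) (l 69892113623)) (l 2)))) (b (a (b (l 16179408) (b (l 16109224) (l 16060288))) (b (l 16244088) (l 16162672))) (a (b (b (l 16009784) (l 96198992631)) (b (l 84387724775) (l 2))) (b (a (l 16052976) (l 16097576)) (a (l 95662125431) (l 16008264))))))), by decide +kernel⟩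

theorem s3_pm_012_b : ∃ t, chk3 f_pm_012_b t 3 1 1 = true := ex3_a k1_pm_012_b k2_pm_012_b

theorem s4_pm_012_b : ∃ t, chk3 f_pm_012_b t 1 1 1 = true := ex3_a k0_pm_012_b s3_pm_012_b

theorem c_pm_012_b : CertB 0 536870912 1239849684 370763052 740881858 40050571 3 eng mog cd0q0 cd2q2b pd1 false true false .pnp 0 1 2
    ndB0q0 ndB2q2b pcB1 cut_pm_012_b Ext.none :=
  certB0 (fam := false) (s1 := true) (s2 := false) (a := 0) (b := 1) (c := 2) (cn := .pnp) (n1 := ndB0q0) (n2 := ndB2q2b) (pc := pcB1) (cut := cut_pm_012_b) (xt := Ext.none) (P1 := 0) (W1 := 536870912) (P2 := 1239849684) (W2 := 370763052) (P3 := 740881858) (W3 := 40050571) (N0 := 3) (En := eng) (mo := mog) (C1 := cd0q0) (C2 := cd2q2b) (C3 := pd1)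
    rfl s4_pm_012_b

noncomputable def cut_pm_022_a : Cut := Cut.of [[⟨0, 0, 0, 67108864⟩, ⟨1, 1, 0, 67108864⟩, ⟨2, 1, 0, 67108864⟩]]

noncomputable def f_pm_022_a : ℕ → ℕ → ℕ → ℕ → Bool := onCell 1073741824 536870912 0 536870912 740881858 40050571
    (rowB 3 eng mog cd0q0 cd2q2a pd2 2 false true false .pp 0 2 2 (qsf 0 536870912 0 536870912 2) ndB0q0 ndB2q2a pcB2 cut_pm_022_a Ext.none)

def k0_pm_022_a : ∃ t, chk3 f_pm_022_a t 4 4 1 = true :=
  ⟨(a (a (b (a (b (a (l 16284936) (l 16295496)) (a (b (l 16276768) (l 16272736)) (b (l 16287984) (l 16284344)))) (b (l 16310344) (c (l 16312736) (l 16291144)))) (a (a (b (c (l 16283488) (l 16253608)) (c (l 16282152) (a (l 16248424) (l 16255832)))) (b (l 16281072) (c (l 16293512) (l 16266544)))) (a (b (l 16292552) (l 16292448)) (b (l 16303424) (l 16303976))))) (b (a (b (l 16328184) (c (l 16329416) (l 16313304))) (b (l 16344440) (l 16339208))) (a (a (l 16335560) (l 16324840)) (b (l 16337920) (l 16403768))))) (b (a (b (a (l 16359656)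 (l 16374496)) (a (l 16355856) (l 16372104))) (a (b (l 16389288) (l 16388240)) (b (l 16403864) (l 16404088)))) (a (a (a (l 16353712) (l 16362992)) (c (l 16379224) (l 16374536))) (a (c (l 16395824) (l 16394504)) (c (l 16412136) (l 16413872)))))), by decide +kernel⟩

def k1_pm_022_a : ∃ t, chk3 f_pm_022_a t 4 5 1 = true :=
  ⟨(a (a (b (a (a (b (c (a (l 16282384) (l 16288520)) (a (l 16251800) (l 16259448))) (c (a (l 16290424) (l 16296840)) (a (l 16260448) (l 16268320)))) (b (c (l 16297416) (l 16270544)) (c (l 16306184) (l 16279768)))) (a (b (l 16297000) (c (l 16318160) (l 16294432))) (b (l 16309144) (l 16319288)))) (a (a (b (b (c (l 16303008) (l 16274432)) (c (l 16311128) (l 16283136))) (c (b (l 16320704) (l 16331816)) (b (l 16293408) (l 16305328)))) (b (c (l 16320192) (l 16294632)) (c (l 16339936) (b (l 16309528) (l 16321664))))) (b (a (c (l 16332768) (l 16309776)) (l 16334848)) (a (c (l 16353112) (l 16331264)) (c (l 16365904) (l 16346392)))))) (b (a (a (b (l 16320808)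 (l 16331576)) (b (l 16332064) (l 16343488))) (a (b (l 16342984) (l 16355056)) (b (l 16353616) (l 16366456)))) (a (b (a (l 16347760) (l 16360296)) (a (l 16369872) (l 16383192))) (b (a (l 16372640) (l 16384824)) (a (l 16396344) (l 16409440)))))) (a (b (a (a (b (l 16364112) (l 16377720)) (l 16434304)) (a (l 16434568) (l 16445224))) (a (b (a (l 16396960) (l 16409000)) (a (l 16422440) (l 16435320))) (b (a (l 16420936) (l 16432728)) (a (l 16448048) (l 16460608))))) (b (a (a (l 16455760) (l 16466152)) (a (b (l 16425256) (l 16443296)) (b (l 16434952) (l 16453624)))) (b (a (a (l 16444352) (l 16455784)) (c (l 16493344) (l 16472816))) (a (a (l 16472968) (l 16485088)) (a (l 16496944) (l 16508496))))))), by decide +kernel⟩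

def k2_pm_022_a : ∃ t, chk3 f_pm_022_a t 8 6 1 = true :=
  ⟨(a (b (a (b (a (c (b (l 16344544) (l 16358968)) (b (l 16318968) (l 16334432))) (c (l 16365992) (l 16343408))) (a (c (l 16415728) (b (l 16351816) (l 16371248))) (c (l 16399000) (l 16378632)))) (b (a (c (l 16379792) (l 16359560)) (c (l 16393256) (l 16375240))) (a (c (l 16413584) (l 16395456)) (c (l 16427952) (l 16411960))))) (a (b (a (c (b (l 16413464) (l 16435784)) (b (l 16392856) (l 16416776))) (c (l 16450704) (b (l 16410464) (l 16434840)))) (a (b (c (l 16460544) (l 16443296)) (c (l 16487936) (l 16472632))) (b (c (l 16476928) (l 16461840)) (c (l 16504952) (l 16491768))))) (b (a (c (l 16455672) (l 16440240)) (c (l 16471104) (l 16457728))) (b (a (l 16497400) (l 16504168)) (a (c (l 16521896) (l 16510752)) (l 16534248)))))) (b (a (b (a (l 16398760) (l 16412928)) (a (l 16435352) (l 16450536))) (b (a (l 16427040) (l 16441048)) (a (l 16465608) (l 16480536)))) (a (b (a (c (l 16486464) (l 16475064)) (b (l 16484240)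 (l 16509928))) (a (b (l 16521280) (l 16551888)) (a (l 16591416) (l 16610456)))) (c (b (a (l 16516864) (l 16531848)) (a (b (l 16557648) (l 16588376)) (l 16567936))) (b (a (l 16509208) (l 16525960)) (a (b (l 16552224) (l 16584688)) (l 16565096))))))), by decide +kernel⟩

def k3_pm_022_a : ∃ t, chk3 f_pm_022_a t 9 6 1 = true :=
  ⟨(b (a (b (a (a (l 16454920) (l 16468640)) (a (l 16482184) (l 16495504))) (a (c (l 16547344) (l 16541688)) (a (l 16566136) (l 16538272)))) (a (b (a (l 16445672) (l 16521384)) (a (l 16552056) (l 234108926119))) (b (a (l 16533864) (l 16537528)) (l 1)))) (a (a (b (a (b (l 16531072) (l 16558144)) (b (l 16546264) (l 16573736))) (a (b (l 16587816) (l 16614968)) (b (l 16603816) (c (l 206728425703) (l 16564896))))) (b (a (l 16575104) (b (l 16575808) (l 16537880))) (a (b (l 448320307879) (l 1)) (l 1)))) (a (b (a (l 484290573943) (l 1)) (l 1)) (l 1)))), by decide +kernel⟩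

def k4_pm_022_a : ∃ t, chk3 f_pm_022_a t 4 7 1 = true :=
  ⟨(a (b (a (b (a (a (b (c (l 16518256) (l 16505080)) (c (l 16569520) (a (l 16532168) (l 16542352)))) (b (c (l 16535888) (l 16524792)) (a (l 16557472) (l 16567056)))) (a (b (a (l 16544360) (l 16553576)) (a (l 16576600) (l 16586096))) (b (a (l 16562752) (l 16571880)) (b (l 16592688) (l 6))))) (l 6)) (b (a (a (b (b (l 16576704) (l 16594296)) (a (l 16572344) (l 16623576))) (b (l 16571984) (l 16637392))) (a (b (l 16621152) (a (l 16641544) (l 16638128))) (b (b (l 16624832) (l 16626752)) (a (b (l 16631760) (l 6)) (l 504155010039))))) (a (l 6) (a (l 6) (a (l 6) (l 1)))))) (a (l 6) (a (l 6) (l 1)))) (b (a (b (a (b (a (a (l 16578448) (l 559989576391)) (l 629245929495)) (a (a (l 542809745319) (l 1)) (l 1))) (l 1)) (l 1)) (l 1)) (l 1))), by decide +kernel⟩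

def k5_pm_022_a : ∃ t, chk3 f_pm_022_a t 5 1 1 = true :=
  ⟨(b (a (b (a (b (a (b (l 16439152) (c (l 16416808) (l 16423008))) (c (b (l 16427768) (l 16430976)) (b (l 16437896) (l 16439664)))) (a (a (l 16415320) (l 16476320)) (a (l 16442848) (c (l 16447888) (l 16455520))))) (b (l 1) (l 1))) (a (a (b (c (b (l 16447744) (l 16467416)) (b (l 16451136) (l 16470520))) (c (b (l 16492504) (l 306586198503)) (b (l 16495728) (l 343093396983)))) (a (b (a (l 16471216) (l 16475960)) (l 1)) (l 1))) (l 1))) (l 1)) (b (l 1) (l 1))), by decide +kernel⟩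

def k6_pm_022_a : ∃ t, chk3 f_pm_022_a t 3 1 1 = true :=
  ⟨(l 1), by decide +kernel⟩

theorem s7_pm_022_a : ∃ t, chk3 f_pm_022_a t 4 6 1 = true := ex3_a k2_pm_022_a k3_pm_022_a

theorem s8_pm_022_a : ∃ t, chk3 f_pm_022_a t 4 3 1 = true := ex3_b s7_pm_022_a k4_pm_022_a

theorem s9_pm_022_a : ∃ t, chk3 f_pm_022_a t 4 2 1 = true := ex3_b k0_pm_022_a k1_pm_022_a

theorem s10_pm_022_a : ∃ t, chk3 f_pm_022_a t 4 1 1 = true := ex3_b s9_pm_022_a s8_pm_022_a

theorem s11_pm_022_a : ∃ t, chk3 f_pm_022_a t 2 1 1 = true := ex3_a s10_pm_022_a k5_pm_022_a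

theorem s12_pm_022_a : ∃ t, chk3 f_pm_022_a t 1 1 1 = true := ex3_a s11_pm_022_a k6_pm_022_a

theorem c_pm_022_a : CertB 0 536870912 0 536870912 740881858 40050571 3 eng mog cd0q0 cd2q2a pd2 false true false .pp 0 2 2
    ndB0q0 ndB2q2a pcB2 cut_pm_022_a Ext.none :=
  certB2 (fam := false) (s1 := true) (s2 := false) (a := 0) (b := 2) (c := 2) (cn := .pp) (n1 := ndB0q0) (n2 := ndB2q2a) (pc := pcB2) (cut := cut_pm_022_a) (xt := Ext.none) (P1 := 0) (W1 := 536870912) (P2 := 0) (W2 := 536870912) (P3 := 740881858) (W3 := 40050571) (N0 := 3) (En := eng) (mo := mog) (C1 := cd0q0) (C2 := cd2q2a) (C3 := pd2)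
    rfl (fun _ => rfl) s12_pm_022_a

noncomputable def cut_pm_022_b : Cut := Cut.of [[⟨0, 0, 0, 67108864⟩, ⟨1, 1, 0, 67108864⟩, ⟨2, 1, 0, 67108864⟩]]

noncomputable def f_pm_022_b : ℕ → ℕ → ℕ → ℕ → Bool := onCell 1073741824 536870912 1239849684 370763052 740881858 40050571
    (rowB 3 eng mog cd0q0 cd2q2b pd2 2 false true false .pp 0 2 2 (qsf 0 536870912 1239849684 370763052 2) ndB0q0 ndB2q2b pcB2 cut_pm_022_b Ext.none)

def k0_pm_022_b : ∃ t, chk3 f_pm_022_b t 8 2 1 = true :=
  ⟨(a (a (b (b (c (b (b (b (c (l 16306392) (l 16293760)) (l 16282192)) (l 16255712)) (a (l 16202512) (l 16210064))) (b (b (c (l 16292440) (l 16278592)) (l 16228848)) (l 16199760))) (b (b (l 16146976) (l 16140056)) (b (l 16092896) (l 16068424)))) (b (b (c (c (l 16059096) (l 16042480)) (l 16018840)) (c (a (b (l 16019024) (l 16002040)) (b (l 16023016) (l 16005464))) (l 16019200))) (b (c (c (a (l 15991176) (l 15992840)) (l 15992024)) (l 15941264)) (c (c (a (l 15969504) (l 15969528)) (l 15945848))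 (l 15912136))))) (b (b (b (b (b (b (l 16353120) (l 16302208)) (l 16288664)) (l 16304176)) (b (l 16291032) (l 16195008))) (b (c (l 16160496) (l 16138288)) (c (l 16106904) (l 16083232)))) (b (b (c (l 16060304) (l 16034864)) (c (c (l 16027896) (l 16012632)) (l 15991760))) (b (c (a (l 15985344) (l 15988512)) (l 15953376)) (c (a (l 15959352) (l 15961200)) (l 15921568)))))) (b (b (a (b (b (b (b (l 16328344) (l 16319608)) (l 16306560)) (l 16280720)) (c (l 16237504) (l 16222688))) (b (b (b (b (l 16343928) (l 16335328)) (l 16322520)) (l 16297200)) (a (l 16243184) (l 16251760)))) (b (a (c (l 16174720) (l 16158656)) (c (l 16189536) (l 16179336))) (a (c (l 16119248) (l 16101680)) (c (l 16132008) (l 16120192))))) (b (c (b (a (b (l 16081936) (l 16059352)) (l 16081616)) (a (c (l 16035128) (l 16022816)) (b (l 16048160) (l 16028448)))) (b (a (l 16051088) (l 16067992)) (a (l 16006640) (l 16021688)))) (a (a (c (b (l 15991960) (l 15963544)) (l 15945752)) (b (l 15982224) (l 15992096)))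 (b (c (l 16001704) (l 15980296)) (c (l 15970792) (l 15944400))))))), by decide +kernel⟩

def k1_pm_022_b : ∃ t, chk3 f_pm_022_b t 9 2 1 = true :=
  ⟨(a (b (b (b (c (b (c (l 16397096) (l 16374456)) (l 16362608)) (b (c (l 16352144) (l 16351120)) (l 16318352))) (a (l 16326424) (l 16320000))) (b (a (l 16284672) (l 16216424)) (a (c (l 16145808) (l 16139544)) (c (l 16159048) (l 16157792))))) (b (c (b (a (l 16093376) (l 16105760)) (a (l 16069192) (l 16058952))) (b (l 16093992) (l 16129216))) (b (c (a (l 16010128) (l 16019408)) (l 16001344)) (a (l 15987648) (l 15976936))))) (b (b (b (b (c (c (l 16399056) (l 16379640)) (a (l 16417352) (l 16432840))) (a (l 16340128) (l 16353672))) (a (l 16354608) (l 16388896))) (a (b (l 16230576) (c (l 16171536) (l 16174672))) (b (l 16264728) (l 16186408)))) (b (c (b (a (l 16118312) (l 16130216)) (a (l 16070232) (l 16081728))) (b (l 16149224) (a (l 16069232) (l 16085232)))) (a (b (l 16046352) (l 16029536)) (b (l 16037704) (l 15998672)))))), by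 decide +kernel⟩

def k2_pm_022_b : ∃ t, chk3 f_pm_022_b t 5 2 1 = true :=
  ⟨(a (b (b (b (b (a (c (a (c (l 16395648) (l 16399168)) (c (l 16428552) (l 16412224))) (a (l 16447944) (c (l 16417800) (l 16424304)))) (a (b (b (l 16364240) (l 16439448)) (l 16426552)) (l 1))) (a (a (l 16388136) (c (l 16396416) (l 16387120))) (a (l 16401192) (l 16368088)))) (a (a (l 16381064) (c (l 16347016) (l 16380280))) (a (c (l 16345968) (l 16359672)) (l 16521208)))) (a (a (b (l 16277616) (l 16220160)) (c (b (l 16264056) (l 16206496)) (b (l 16276840) (l 16219400)))) (b (a (c (l 16284152) (l 16298304)) (l 16313264)) (c (a (l 16226664) (l 16249368)) (l 16253104))))) (a (b (c (a (b (l 16141720) (l 16092920)) (b (l 16153144) (l 16104256))) (a (l 16272056) (l 16223920))) (a (b (l 16092280) (l 16010040)) (b (c (l 16060816) (l 16067016)) (l 16063928)))) (b (a (b (l 16179464) (l 16129928)) (c (l 16255672) (l 16206920))) (a (b (l 16084416) (l 16043464)) (b (l 16108632) (l 16067920)))))) (b (b (b (l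 1) (a (a (l 472478892935) (l 1)) (l 1))) (a (b (b (l 125660139351) (l 16327040)) (c (l 16277848) (l 16294464))) (a (b (l 440803212023) (l 16286448)) (b (l 1) (l 304437899319))))) (a (a (b (c (l 16255200) (l 16207320)) (l 16193272)) (b (c (l 16210008) (l 16225968)) (b (l 16149032) (l 16108536)))) (b (c (l 16397248) (l 16243896)) (a (l 16144368) (l 16156432)))))), by decide +kernel⟩

def k3_pm_022_b : ∃ t, chk3 f_pm_022_b t 4 6 1 = true :=
  ⟨(a (b (a (c (b (a (c (b (l 15956952) (l 15950416)) (l 15927632)) (a (l 15940176) (l 15940512))) (a (a (l 15929880) (l 15928088)) (a (l 15926720) (l 15925888)))) (a (b (l 15890264) (l 15874264)) (b (l 15896936) (l 15878368)))) (a (b (c (l 15984048) (l 15904944)) (a (l 15945360) (l 15905064))) (c (b (l 15945792) (l 15926688)) (l 15986272)))) (a (a (b (c (a (l 15923808) (l 15920816)) (l 15863304)) (c (a (l 15922936) (l 15918592)) (l 15857752))) (b (c (l 15917296) (l 15865400)) (c (l 15913160) (l 15857440)))) (a (b (c (l 15914272) (l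 15868752)) (c (l 15907760) (l 15858712))) (b (c (l 15913160) (l 15873592)) (c (l 15904456) (l 15861360)))))) (b (b (a (c (a (l 15950808) (l 15956880)) (l 15930936)) (a (l 15955360) (l 15965064))) (a (a (c (l 15929560) (l 15899624)) (l 15920648)) (a (l 15928352) (l 15936712)))) (a (a (b (l 15896064) (l 15883560)) (b (l 15900824) (l 15886312))) (a (b (l 15906744) (l 15890392)) (c (l 15915256) (l 15894344)))))), by decide +kernel⟩

def k4_pm_022_b : ∃ t, chk3 f_pm_022_b t 4 7 1 = true :=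
  ⟨(a (b (b (c (a (a (a (l 15927552) (l 15921712)) (l 15914136)) (a (l 15906088) (l 15900296))) (a (a (l 15857864) (l 15854880)) (l 15916688))) (a (a (a (c (l 15937920) (l 15865656)) (l 15917168)) (c (l 15920504) (l 15857960))) (a (c (l 15909544) (l 15854056)) (l 15918000)))) (b (a (a (a (c (l 15954416) (l 15878488)) (l 15909112)) (c (l 15932512) (l 15866784))) (a (c (l 15918312) (l 15859960)) (l 15880624))) (a (a (a (b (l 15931544) (l 15943584)) (c (l 15966072) (l 15890616))) (a (c (l 15955608) (l 15884392)) (l 15912040))) (a (l 16006688) (l 15890512))))) (b (a (a (b (l 15875736) (l 15872672)) (b (l 15876520) (l 15871168))) (a (b (l 15878792) (l 15871560)) (b (l 15882336) (l 15873376)))) (a (a (b (l 15874576) (l 15881648)) (c (l 15893392) (l 15852360))) (c (a (l 15887736) (l 15884296)) (l 15852096))))), by decide +kernel⟩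

def k5_pm_022_b : ∃ t, chk3 f_pm_022_b t 5 3 1 = true :=
  ⟨(b (a (a (b (a (c (l 16049088) (l 15956352)) (b (l 15986216) (l 15955504))) (a (b (l 15921032) (l 15901504)) (c (l 15925944) (l 15913320)))) (b (b (a (l 16007456) (l 16032048)) (l 16051968)) (a (l 15959712) (l 15963472)))) (b (a (a (l 16037792) (l 16056880)) (a (l 16073216) (l 16085608))) (a (a (l 15985792) (l 16005328)) (b (l 16039144) (l 16018376))))) (a (a (b (a (l 16006800) (c (l 15896936) (l 15877704))) (a (b (l 15870056) (l 15867336)) (l 16017736))) (b (a (l 15904960) (l 15929104)) (a (l 15888360) (l 15912160)))) (b (a (l 16066752) (l 15996208)) (a (l 15944400) (l 15980048))))), by decide +kernel⟩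

def k6_pm_022_b : ∃ t, chk3 f_pm_022_b t 3 1 1 = true :=
  ⟨(b (a (b (l 1) (a (b (a (b (l 396779734423) (l 233570975591)) (l 624950008615)) (a (l 16334024) (l 306585854087))) (b (l 1) (a (l 522407629095) (l 1))))) (l 1)) (a (b (a (b (a (l 16097424) (l 16098144)) (a (l 16045488) (l 16047144))) (b (a (l 16060416) (l 493953331031)) (a (l 16034296) (l 15998192)))) (a (b (a (l 16076728) (l 16015024)) (a (l 16000960) (l 16001000))) (b (a (l 16001176) (l 15974544)) (a (l 15989808) (l 15962736))))) (a (b (b (l 1) (a (l 15948216) (l 400000819127))) (b (a (l 15940224) (l 15895136)) (l 16135824))) (b (l 1) (a (l 958547738519) (l 4)))))), by decide +kernel⟩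

theorem s7_pm_022_b : ∃ t, chk3 f_pm_022_b t 4 3 1 = true := ex3_b k3_pm_022_b k4_pm_022_b

theorem s8_pm_022_b : ∃ t, chk3 f_pm_022_b t 2 3 1 = true := ex3_a s7_pm_022_b k5_pm_022_b

theorem s9_pm_022_b : ∃ t, chk3 f_pm_022_b t 4 2 1 = true := ex3_a k0_pm_022_b k1_pm_022_b

theorem s10_pm_022_b : ∃ t, chk3 f_pm_022_b t 2 2 1 = true := ex3_a s9_pm_022_b k2_pm_022_b

theorem s11_pm_022_b : ∃ t, chk3 f_pm_022_b t 2 1 1 = true := ex3_b s10_pm_022_b s8_pm_022_b

theorem s12_pm_022_b : ∃ t, chk3 f_pm_022_b t 1 1 1 = true := ex3_a s11_pm_022_b k6_pm_022_b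

theorem c_pm_022_b : CertB 0 536870912 1239849684 370763052 740881858 40050571 3 eng mog cd0q0 cd2q2b pd2 false true false .pp 0 2 2
    ndB0q0 ndB2q2b pcB2 cut_pm_022_b Ext.none :=
  certB2 (fam := false) (s1 := true) (s2 := false) (a := 0) (b := 2) (c := 2) (cn := .pp) (n1 := ndB0q0) (n2 := ndB2q2b) (pc := pcB2) (cut := cut_pm_022_b) (xt := Ext.none) (P1 := 0) (W1 := 536870912) (P2 := 1239849684) (W2 := 370763052) (P3 := 740881858) (W3 := 40050571) (N0 := 3) (En := eng) (mo := mog) (C1 := cd0q0) (C2 := cd2q2b) (C3 := pd2)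
    rfl (fun _ => rfl) s12_pm_022_b

noncomputable def f_pm_023 : ℕ → ℕ → ℕ → ℕ → Bool := onCell 0 536870912 1073741824 536870912 740881858 40050571
    (rowB 3 eng mog cd0q0 cd2q3 pd2 1 false true false .up 0 2 3 (qsf 0 536870912 1610612736 536870912 2) ndB0q0 ndB2q3 pcB2 Cut.none Ext.none)

def k0_pm_023 : ∃ t, chk3 f_pm_023 t 1 1 1 = true :=
  ⟨(b (a (b (l 1) (a (l 1) (b (l 1) (a (l 1) (l 414496822807))))) (a (b (a (l 1) (b (l 1) (a (l 1) (l 208338030471)))) (a (b (b (l 1) (l 15980800)) (l 115996558503)) (b (b (a (l 15878936) (l 15872576)) (a (l 15904968) (l 15901784))) (b (l 15948336) (l 15989856))))) (b (a (b (a (l 1) (b (l 1) (l 15925528))) (b (a (l 15874688) (l 15880280)) (a (l 15872552) (l 15879848)))) (b (b (a (l 187936627463) (a (l 137470971143) (b (l 15930088) (l 15927824)))) (a (c (l 15921672) (l 15870920)) (c (c (l 15959200) (l 15932184)) (l 15892168)))) (a (c (b (l 15914680) (l 15910920)) (l 15877832)) (b (c (l 15939880) (l 15897600)) (l 15920624)))))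 (a (b (b (c (a (l 15884696) (l 15893248)) (l 15867312)) (a (l 15906056) (l 15918240))) (l 15990080)) (a (b (b (l 15899488) (l 15938496)) (l 16027360)) (b (b (l 15925704) (l 15967832)) (l 16063216))))))) (a (b (a (b (l 1) (a (l 1) (l 15987216))) (a (b (l 395705944391) (l 15974872)) (b (l 16240608) (l 15999512)))) (a (b (a (l 448319174791) (l 15909992)) (a (b (l 15857368) (l 4)) (l 15852328))) (b (a (l 15904984) (l 15952496)) (a (l 15873920) (l 15902824))))) (b (a (a (b (l 16019248) (l 16038472)) (b (l 16039848) (l 16079840))) (a (b (l 16076072) (l 16132648)) (b (l 16148488) (l 16271096)))) (a (b (a (l 16022584) (l 16097456)) (a (l 16062680) (l 16241200))) (a (b (l 16260680) (l 16373968)) (b (l 16393712) (l 16488704))))))), by decide +kernel⟩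

theorem c_pm_023 : CertB 0 536870912 1610612736 536870912 740881858 40050571 3 eng mog cd0q0 cd2q3 pd2 false true false .up 0 2 3
    ndB0q0 ndB2q3 pcB2 Cut.none Ext.none :=
  certB1 (fam := false) (s1 := true) (s2 := false) (a := 0) (b := 2) (c := 3) (cn := .up) (n1 := ndB0q0) (n2 := ndB2q3) (pc := pcB2) (cut := Cut.none) (xt := Ext.none) (P1 := 0) (W1 := 536870912) (P2 := 1610612736) (W2 := 536870912) (P3 := 740881858) (W3 := 40050571) (N0 := 3) (En := eng) (mo := mog) (C1 := cd0q0) (C2 := cd2q3) (C3 := pd2)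
    rfl (fun _ => rfl) k0_pm_023

noncomputable def f_pm_033 : ℕ → ℕ → ℕ → ℕ → Bool := onCell 1610612736 536870912 1610612736 536870912 740881858 40050571
    (rowB 3 eng mog cd0q0 cd2q3 pd3 2 false true false .pnn 0 3 3 (qsf 0 536870912 1610612736 536870912 3) ndB0q0 ndB2q3 pcB3 Cut.none Ext.none)

def k0_pm_033 : ∃ t, chk3 f_pm_033 t 1 1 1 = true :=
  ⟨(a (b (a (b (l 4) (a (b (l 430804010039) (a (l 15905872) (l 15897912))) (l 4))) (l 4)) (a (b (a (b (l 16112720) (l 16270520)) (b (l 307323391671) (l 16239120))) (a (b (l 16278136) (l 16506632)) (a (l 16428240) (l 16403512)))) (b (l 4) (a (b (l 140356793735) (a (l 16440256) (l 16420640))) (l 4))))) (l 4)), by decide +kernel⟩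

theorem c_pm_033 : CertB 0 536870912 1610612736 536870912 740881858 40050571 3 eng mog cd0q0 cd2q3 pd3 false true false .pnn 0 3 3
    ndB0q0 ndB2q3 pcB3 Cut.none Ext.none :=
  certB2 (fam := false) (s1 := true) (s2 := false) (a := 0) (b := 3) (c := 3) (cn := .pnn) (n1 := ndB0q0) (n2 := ndB2q3) (pc := pcB3) (cut := Cut.none) (xt := Ext.none) (P1 := 0) (W1 := 536870912) (P2 := 1610612736) (W2 := 536870912) (P3 := 740881858) (W3 := 40050571) (N0 := 3) (En := eng) (mo := mog) (C1 := cd0q0) (C2 := cd2q3) (C3 := pd3)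
    rfl (fun _ => rfl) k0_pm_033

noncomputable def f_pm_101 : ℕ → ℕ → ℕ → ℕ → Bool := onCell 536870912 536870912 536870912 536870912 740881858 40050571
    (rowB 3 eng mog cd0q1 cd2q1 pd0 0 false true false .npn 1 0 1 (qsf 536870912 536870912 536870912 536870912 0) ndB0q1 ndB2q1 pcB0 Cut.none Ext.none)

def k0_pm_101 : ∃ t, chk3 f_pm_101 t 1 1 1 = true :=
  ⟨(a (l 4) (b (a (l 4) (l 1)) (a (b (a (l 4) (b (l 4) (a (l 4) (b (l 4) (l 16013016))))) (b (a (l 4) (a (b (l 4) (l 15915328)) (b (l 15967480) (l 15923336)))) (a (a (l 4) (b (l 4) (l 15740424))) (a (b (l 15836312) (l 15747336)) (b (l 15872112) (l 15806560)))))) (b (a (b (l 1) (a (b (l 1) (l 16161936)) (l 1))) (l 1)) (a (b (a (b (l 15977560) (l 15950416)) (b (a (l 15996264) (l 1)) (a (l 15969808) (l 15987416)))) (a (b (l 15918392) (l 15867544)) (b (a (l 15949584) (l 15969792)) (a (l 15911088) (l 15941128))))) (b (a (b (l 1) (a (l 16157568) (l 1))) (l 1)) (a (b (a (l 15995432) (l 16086600)) (a (l 15976016) (l 16011512)))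 (b (a (l 126734111623) (l 1)) (a (l 16155896) (b (l 16094632) (l 16084480))))))))))), by decide +kernel⟩

theorem c_pm_101 : CertB 536870912 536870912 536870912 536870912 740881858 40050571 3 eng mog cd0q1 cd2q1 pd0 false true false .npn 1 0 1
    ndB0q1 ndB2q1 pcB0 Cut.none Ext.none :=
  certB0 (fam := false) (s1 := true) (s2 := false) (a := 1) (b := 0) (c := 1) (cn := .npn) (n1 := ndB0q1) (n2 := ndB2q1) (pc := pcB0) (cut := Cut.none) (xt := Ext.none) (P1 := 536870912) (W1 := 536870912) (P2 := 536870912) (W2 := 536870912) (P3 := 740881858) (W3 := 40050571) (N0 := 3) (En := eng) (mo := mog) (C1 := cd0q1) (C2 := cd2q1) (C3 := pd0)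
    rfl k0_pm_101

end Pool.Agent.Strip051.G.I69_7273.Tab.C.BB02

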