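import Pool.Agent.Strip051.G.I69_7273.Tab
import Pool.Agent.Strip051.PB.ExtD2

/-! # Certificates B17 (generated) -/

set_option linter.all false
set_option maxRecDepth 100000

namespace Pool.Agent.Strip051.G.I69_7273.Tab.C.BB02

open Pool.Agent.Strip051.PB Pool.Agent.Strip051.PB.T
open Pool.Agent.Strip051.G.I69_7273.Tab

noncomputable def cut_pm_102_a : Cut := Cut.of [[⟨0, 1, 0, 67108864⟩, ⟨1, 0, 0, 67108864⟩, ⟨2, 1, 0, 67108864⟩], [⟨0, 0, 1, 20971520⟩, ⟨1, 1, 2, 20971520⟩, ⟨2, 1, 0, 33554432⟩]]

noncomputable def xt_pm_102_a : Ext := extD2 3 ⟨4, 1, 1, 5, 7, 3, 99, 100, 9, 20, 1, 8⟩ eng cd0q1 cd2q2a pd0 false true false .npp 1 0 2 rfl ndB0q1 ndB2q2a pcB0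

noncomputable def f_pm_102_a : ℕ → ℕ → ℕ → ℕ → Bool := onCell 536870912 536870912 0 536870912 740881858 40050571
    (rowB 3 eng mog cd0q1 cd2q2a pd0 0 false true false .npp 1 0 2 (qsf 536870912 536870912 0 536870912 0) ndB0q1 ndB2q2a pcB0 cut_pm_102_a xt_pm_102_a)

def k0_pm_102_a : ∃ t, chk3 f_pm_102_a t 2 2 1 = true :=
  ⟨(a (b (l 2) (a (l 2) (b (l 2) (l 16501360)))) (a (b (b (a (l 16617144) (l 16702712)) (a (l 16609368) (l 16632024))) (a (b (l 16570832) (l 16514896)) (b (l 16592928) (l 16532320)))) (b (b (a (l 16727144) (b (a (l 16708840) (l 16718864)) (l 16703336))) (a (l 16658384) (l 16686096))) (a (b (l 16621944) (l 16560048)) (b (l 16654640) (l 16595576)))))), by decide +kernel⟩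

def k1_pm_102_a : ∃ t, chk3 f_pm_102_a t 4 3 1 = true :=
  ⟨(b (a (l 2) (b (l 16439200) (a (l 16389416) (l 16396240)))) (a (b (a (l 2) (l 16422248)) (a (b (l 16337544) (c (b (l 16308728) (a (l 16301872) (l 16297704))) (a (l 16290912) (l 16285208)))) (b (l 16309624) (b (l 16295640) (a (b (l 16288680) (l 16304752)) (b (l 16289480) (c (l 16297016) (l 16273384)))))))) (b (b (l 16455776) (a (l 16329224) (l 16343512))) (b (a (l 16313800) (b (l 16335752) (l 16331600))) (a (a (b (l 16299704) (b (l 16294112) (c (a (l 16301736) (b (l 16306912) (l 16305880))) (l 16277336)))) (b (l 16307504) (b (l 16324272) (c (a (c (l 139620486683770927) (l 16305048)) (l 139630519727521839)) (l 16306840))))) (a (b (l 16320208) (b (c (l 139858530979545135) (l 16302232)) (c (a (l 139744731516239919) (l 140053831744421935)) (c (l 139512734520819759) (l 16291360))))) (b (l 16380536) (c (b (a (l 16371088) (l 140205220800708655)) (a (c (l 140118634255826991) (l 139917354869850159)) (c (l 140284316945006639) (l 140076096889323567)))) (b (l 16320848)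 (a (l 139606330460635183) (l 139754695835271215))))))))))), by decide +kernel⟩

def k2_pm_102_a : ∃ t, chk3 f_pm_102_a t 5 6 1 = true :=
  ⟨(a (b (a (l 16456256) (l 16475512)) (a (l 16415064) (l 16442680))) (b (a (l 16500584) (l 16549800)) (a (l 16480584) (b (l 16534912) (l 16534088))))), by decide +kernel⟩

def k3_pm_102_a : ∃ t, chk3 f_pm_102_a t 10 14 1 = true :=
  ⟨(a (b (l 16382744) (l 16374688)) (b (l 16419904) (l 16421528))), by decide +kernel⟩

def k4_pm_102_a : ∃ t, chk3 f_pm_102_a t 10 30 1 = true :=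
  ⟨(a (a (l 16361776) (l 16387480)) (b (l 16451032) (a (l 16421576) (l 16459936)))), by decide +kernel⟩

def k5_pm_102_a : ∃ t, chk3 f_pm_102_a t 20 31 1 = true :=
  ⟨(a (a (b (l 16356616) (b (a (l 140127086738931759) (l 140392069056512047)) (c (c (b (l 140469447247659055) (l 140469447253393455)) (l 140252980854833199)) (c (l 140032047693430831) (l 139806579046793263))))) (b (l 16391824) (b (c (l 140559882086662191) (l 16374888)) (c (b (l 140561325204111407) (c (a (l 140624615861878831) (l 140734979363078191)) (l 140449793475903535))) (c (l 140219858057330735) (l 139985455875768367)))))) (a (b (l 16428744) (b (c (l 140764116410957871) (l 140318676671299631)) (c (c (b (l 140892003392487471) (a (l 140850084509253679) (b (l 140963609105825839) (l 140974054471352367)))) (a (l 140609978603978799) (l 140901830243221551))) (c (b (l 140426634998546479) (l 140425741650460719)) (l 140182062333886511))))) (b (a (l 16399712) (l 16429720)) (b (c (l 140981751036411951) (l 140520711970209839)) (b (c (c (l 141127024049684527)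 (l 140888155096891439)) (l 140520643258138671)) (c (c (a (a (l 141060228710842415) (l 141122351130230831)) (c (l 141459420196323375) (l 141155061606547503))) (a (l 140844793104318511) (l 140966495321473071))) (c (a (l 140593829522325551) (l 140710996252557359)) (l 140394061961019439)))))))), by decide +kernel⟩

def k6_pm_102_a : ∃ t, chk3 f_pm_102_a t 42 31 1 = true :=
  ⟨(a (b (b (l 16420072) (l 16489016)) (b (c (l 141212648524103727) (l 140737521960173615)) (c (b (c (l 141376269641973807) (l 141129704105164847)) (b (c (l 141674099864141871) (l 141149564042182703)) (c (a (c (l 141600432592650287) (l 141292638028054575)) (b (l 141486564431118383) (a (l 141463062366830639) (l 141712307922976815)))) (a (l 141098986500227119) (c (l 141296142719516719) (l 141164063856312367)))))) (b (l 140749960195473455) (c (a (l 140832423591346223) (l 140958180258201647)) (l 140808028132769839)))))) (c (b (l 16508072) (b (a (l 141394549015609391) (l 141510753676394543)) (a (b (c (l 141572532507459631) (l 141320813008060463)) (c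 (a (b (l 141572669950754863) (a (l 141578648549441583) (l 141793946677215279))) (b (l 141641252002644015) (a (l 141829337214943279) (c (l 141749553924669487) (l 141617406341070895))))) (a (l 141502644749582383) (b (l 141380461530202159) (a (l 141383210312646703) (l 141416676704796719)))))) (b (b (l 141561262508933167) (a (l 141552397696745519) (l 141612870849970223))) (a (b (c (l 141705436008251439) (l 141442446511931439)) (c (b (a (l 141709284301602863) (l 141737802890854447)) (b (a (l 141718286555971631) (l 141744056365498415)) (a (c (a (l 141783707513225263) (l 141796695497228335)) (l 141656164135616559)) (l 141928155845148719)))) (b (l 141455709375725615) (a (l 141450899012501551) (l 141475088273719343))))) (b (c (l 141762129589305391) (l 141496597471739951)) (c (b (l 141774773977546799) (c (b (l 141848166396133423) (l 142032746912219183)) (l 141715194178928687))) (c (l 141575693609402415) (l 141438598222970927))))))))) (b (l 16420368) (b (a (l 140910007879860271) (l 141019821627015215)) (a (b (l 140932754038816815)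 (c (a (l 141055487056265263) (l 141121045450063919)) (l 140814831396683823))) (b (b (l 141044560649895983) (l 141054524978626607)) (c (b (l 141198904633016367) (a (b (l 141183167871189039) (l 141187222322479151)) (l 141230515601866799))) (a (l 140902036430700591) (l 140948903124238383))))))))), by decide +kernel⟩

def k7_pm_102_a : ∃ t, chk3 f_pm_102_a t 86 31 1 = true :=
  ⟨(b (b (l 16461000) (a (l 16506352) (b (l 16474016) (l 141449593322799151)))) (b (b (c (a (l 141608129194999855) (l 141720966601228335)) (l 141169630117347375)) (a (c (l 141827481777897519) (l 141137812997013551)) (c (l 141751546779336751) (l 141231271506231343)))) (b (a (c (a (b (l 141649979373453359) (l 141665097663938607)) (l 141706398077501487)) (c (l 141283910641090607) (l 141012606088314927))) (c (c (l 141912625273290799) (l 141646199802331183)) (l 141236356753457199))) (c (a (b (c (l 141837033835528239) (l 141567309829013551)) (b (c (a (l 141824526889730095) (l 141875448033247279)) (l 141575693608812591)) (c (a (c (a (l 141888436018708527)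 (l 141914137108693039)) (l 141764672213155887)) (c (c (l 14) (l 141918878753472559)) (l 141905340993241135))) (c (a (l 141626752192544815) (l 141675955348799535)) (l 141511303446118447))))) (c (b (l 141939906914926639) (a (b (l 141927537408114735) (c (b (l 142003884764856367) (l 14)) (b (l 141864933951586351) (l 141959354514178095)))) (b (l 141980795014332463) (c (l 14) (a (l 141906715402960943) (l 141933584724279343)))))) (b (l 141664547910139951) (a (c (l 141902935790207023) (l 141581397327331375)) (b (l 141699457413808175) (a (l 141873661287219247) (l 141899362377203759))))))) (c (a (b (l 141292294422757423) (c (l 141368229463588911) (l 141226323713343535))) (b (l 141383691347165231) (c (l 141642969952583727) (l 141317995515707439)))) (b (l 141054318823915567) (a (l 141010956827050031) (l 141098161862524975)))))))), by decide +kernel⟩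

def k8_pm_102_a : ∃ t, chk3 f_pm_102_a t 87 31 1 = true :=
  ⟨(b (b (l 16505184) (a (a (l 141515701472198703) (l 142195337108127791)) (l 141634242595995695))) (a (b (c (l 141835453276864559) (l 141314903125852207)) (b (c (c (l 142017697376354351) (l 141745499468136495)) (l 141326722885500975)) (c (c (b (l 142227704107204655) (a (b (l 142035289571393583) (a (c (l 14) (l 142050751438077999)) (l 14))) (l 14))) (b (l 141766458916618287) (a (c (a (l 141813463051517999) (l 141840057494863919)) (l 141682483699925039)) (b (l 141803979760959535) (c (a (l 141871187425280047) (l 141898537783017519)) (l 141738283927945263)))))) (c (b (l 141479692477431855) (b (l 141486152111505455) (a (l 141465536265175087) (l 141515907652730927)))) (a (l 141165438243930159) (l 141212030059511855)))))) (b (c (l 141937158124814383) (l 141404650782490671)) (b (c (c (l 142127579843788847) (l 141849472059342895)) (l 141421693223419951)) (c (c (l 14) (b (l 141873249006960687) (c (b (l 141959079654129711) (a (a (l 141926163018743855) (l 141954131851919407))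 (l 14))) (b (l 141811882502488111) (a (l 141792160009535535) (b (l 141845211456929839) (l 141849265907548207))))))) (c (b (l 141580503972036655) (a (a (l 141551916665864239) (l 141758006382313519)) (c (l 141693066501898287) (l 141541471303417903)))) (b (l 141282055220527151) (c (l 141363212942393391) (l 141209487440281647))))))))), by decide +kernel⟩

def k9_pm_102_a : ∃ t, chk3 f_pm_102_a t 11 14 1 = true :=
  ⟨(a (b (l 16472088) (a (l 16469040) (l 16507784))) (a (b (l 16524368) (l 16546472)) (b (l 16554976) (l 16573744)))), by decide +kernel⟩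

def k10_pm_102_a : ∃ t, chk3 f_pm_102_a t 11 30 1 = true :=
  ⟨(a (a (b (l 16487648) (b (l 16499432) (l 16554664))) (b (l 16529144) (l 16545808))) (a (b (l 16568768) (l 16583488)) (b (l 16592008) (c (l 16595248) (l 16594976))))), by decide +kernel⟩

def k11_pm_102_a : ∃ t, chk3 f_pm_102_a t 11 62 1 = true :=
  ⟨(a (a (b (c (l 16541272) (l 16490064)) (a (b (l 16511616) (l 142328240627466287)) (b (l 16533288) (l 142176782946615343)))) (b (b (l 16558048) (l 16563584)) (a (b (l 16556864) (l 142225573824987183)) (b (l 16582472) (l 142470215215153199))))) (a (b (b (l 16592928) (l 16596880)) (a (b (l 16595368) (l 142591161516556335)) (a (l 16584432) (l 16589608)))) (a (b (l 16610816) (a (l 16594680) (l 142740970019127407))) (b (l 16620936) (c (b (l 16637008) (l 16640576)) (l 16596080)))))), by decide +kernel⟩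

def k12_pm_102_a : ∃ t, chk3 f_pm_102_a t 22 126 1 = true :=
  ⟨(c (a (a (a (l 142043535898148911) (l 142154861474824239)) (a (l 142271341013286959) (l 142393111952539695))) (c (a (l 142588069146427567) (l 142529039137751215)) (l 14))) (b (a (a (l 141540165618499631) (l 141743987631390767)) (a (l 141968081893933103) (l 142214166393421871))) (a (a (l 141555764947517487) (l 141767420982313007)) (a (l 142000242620137519) (l 142255947848269871))))), by decide +kernel⟩

def k13_pm_102_a : ∃ t, chk3 f_pm_102_a t 22 127 2 = true :=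
  ⟨(c (a (l 14) (a (c (a (l 14) (b (l 142698157774749871) (b (l 142541271216865455) (a (l 14) (b (l 142747429653364911) (c (a (l 142765090563358895) (l 142779452936503471)) (l 14))))))) (l 14)) (b (a (l 142543401517269167) (l 142601263326953647)) (b (a (l 142565529196003503) (a (l 142788592625041583) (l 142816836334944431))) (a (c (a (b (l 142776360558117039) (a (b (l 142774780010741935) (l 142778559583207599)) (l 142790997810364591))) (b (l 142804879145959599) (a (l 142805154025046191) (l 142819310239727791)))) (b (l 142542233290637487) (a (l 14) (a (l 14) (a (l 142747429653708975) (l 142754645200011439)))))) (b (a (l 142737396618412207) (l 142827419137867951)) (c (a (a (l 142833329015423151) (l 142847279071625391)) (b (l 142866245650251951) (l 142869819064221871))) (a (b (l 142770656840614063) (a (l 142767083427758255) (l 142781239642439855))) (a (l 142793609139388591) (l 142807627925831855)))))))))) (a (a (c (b (l 142087516379054127) (l 14)) (b (l 141942449531650095) (a (b (l 141910907288404015) (b (l 141923689115631663)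 (c (l 14) (a (l 141865689865781295) (l 141923070641389615))))) (b (l 142026562192998447) (l 14))))) (l 14)) (l 14))), by decide +kernel⟩

def k14_pm_102_a : ∃ t, chk3 f_pm_102_a t 22 127 3 = true :=
  ⟨(b (a (a (a (l 141701587674169391) (l 141806316179718191)) (a (l 141916267366531119) (l 142031509954117679))) (a (a (l 142152387539910703) (l 142279106282389551)) (a (l 142411941059510319) (l 14)))) (c (a (b (a (a (l 141686263269965871) (l 141797176529698863)) (a (l 141913449909682223) (l 142035358287872047))) (c (a (a (b (l 141771956477870127) (a (l 141751203192569903) (l 141807415736827951))) (b (l 141886030834171951) (a (b (l 141862941085859887) (l 142047109285003311)) (a (l 141908983145627695) (l 141938807405019183))))) (l 14)) (a (a (a (l 141594522751107119) (l 141648948588593199)) (b (l 141729693990797359) (a (l 141707841193656367) (l 141765221969231919)))) (a (b (l 141846036090257455) (a (l 142004022163669039) (b (l 141881976385306671) (l 141976190789419055)))) (b (l 141968013187940399) (l 14)))))) (l 14))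 (a (a (a (b (l 141381561044795439) (c (l 141646405928681519) (l 141309405581475887))) (b (l 141486152111341615) (b (l 141492405586935855) (a (l 141469453277921327) (l 141524428871303215))))) (a (b (l 141595965859151919) (a (a (l 141563942578438191) (l 141772437477031983)) (c (l 141717324483493935) (l 141553222338215983)))) (b (l 141711277166198831) (b (l 141720966616285231) (c (a (l 141780546416410671) (l 141977015413686319)) (a (l 141613970369462319) (l 141673687607672879))))))) (a (b (a (l 141832360910422063) (l 141959354530807855)) (c (a (a (c (l 14) (l 141858474319429679)) (l 14)) (l 14)) (a (b (l 141758968495538223) (a (l 141734847955189807) (l 141797520131489839))) (b (l 141886099554893871) (a (b (l 141859711271026735) (l 141863765721612335)) (l 14)))))) (l 14))))), by decide +kernel⟩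

def k15_pm_102_a : ∃ t, chk3 f_pm_102_a t 46 126 2 = true :=
  ⟨(a (a (l 142551098093305967) (l 142608135269351535)) (b (l 142678091707629679) (c (a (l 142920121719914607) (l 142973310604542063)) (l 142640227272441967)))), by decide +kernel⟩

def k16_pm_102_a : ∃ t, chk3 f_pm_102_a t 46 254 2 = true :=
  ⟨(a (a (a (l 142577486383186095) (l 142605798812647535)) (c (b (l 142886036856160367) (l 142899643316977775)) (l 142582021869043887))) (a (c (b (l 142939981655064687) (l 142953107079397487)) (b (l 142811132612247663) (l 142823639561207919))) (c (b (l 142992552064204911) (l 143005265171529839)) (b (l 142865352289140847) (l 142877515640586351))))), by decide +kernel⟩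

def k17_pm_102_a : ∃ t, chk3 f_pm_102_a t 46 510 2 = true :=
  ⟨(a (a (a (l 142597827355082927) (c (l 142872292962451567) (l 142738977152909487))) (c (a (l 142899505880039535) (l 142926375200178287)) (l 142600988451078319))) (a (c (a (l 142952900922884207) (l 142979083048157295)) (a (l 142822265173442735) (l 142849340652077167))) (c (a (l 143004921575981167) (l 143030485225865327)) (a (l 142876141252739183) (l 142902598255968367))))), by decide +kernel⟩

def k18_pm_102_a : ∃ t, chk3 f_pm_102_a t 46 511 2 = true :=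
  ⟨(c (a (a (a (b (l 142855113091842223) (c (l 142895451433238703) (a (l 142821509262557359) (l 142835390599282863)))) (a (b (l 142875660218990703) (c (l 142915723682414703) (l 142849134497038511))) (b (l 142889266677776495) (c (l 142929123982721135) (l 142862809675301039))))) (c (a (b (l 142942386842992751) (a (l 142942455563534447) (l 142955718424871023))) (b (l 142968843846189167) (a (l 142968912566698095) (l 142982037989048431)))) (a (a (l 142873048878596271) (l 142886586617888943)) (b (l 142903491611607151) (b (l 142908370696077423) (a (l 142904866002681967) (l 142918197583511663))))))) (a (a (a (b (l 142955993301401711) (c (l 142995025972428911) (l 142929879896326255))) (b (l 142969118723768431) (c (l 143007945236316271) (l 142943005318692975)))) (b (l 142988635058585711) (c (a (l 143020795780726895) (l 143033508886151279)) (a (l 142956062021566575) (l 142969050004947055))))) (a (b (l 143014336147423343) (c (a (l 143046221991575663) (l 143058797658030191)) (a (l 142981969268834415) (l 142994819813245039))))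 (b (l 143039693638795375) (c (l 143077558078472303) (a (l 143007532918669423) (l 143020246024093807))))))) (c (a (a (a (b (l 142754232881316015) (c (a (l 142770794279354543) (l 142784813055066287)) (l 14))) (b (l 142782339152232623) (b (l 142787218236735663) (a (l 142783438665416879) (l 142797320002142383))))) (a (b (l 142810033106223279) (a (l 142809552070869167) (l 142823295968624815))) (b (l 142837452182257839) (a (l 142836971146887343) (l 142850508886180015))))) (a (a (a (b (l 142857724431466671) (l 142863977905979567)) (l 142874354548261039)) (b (l 142891259542012015) (b (l 142895863748526191) (a (l 142892221616128111) (l 142905484477464687))))) (a (b (l 142917647825731695) (a (b (l 142915586241806447) (l 142918609899815023)) (l 142930154773692527))) (b (l 142943761231478895) (a (l 142943142757073007) (l 142956062020960367)))))) (a (a (l 14) (b (l 142576867911860399) (a (c (a (l 142758974526750895) (l 142772924582969519)) (l 14)) (b (l 142775329764688047) (a (l 142771481468485807) (l 142785225371615407))))))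 (a (a (b (l 142798282073161903) (a (b (l 142795945611329711) (l 142798969269354671)) (l 142811132618604719))) (b (l 142825494990749871) (a (l 142824670357913775) (l 142838139377713327)))) (a (b (l 142852364310888623) (a (l 142851539678019759) (l 142864871258849455))) (b (l 142878890033578095) (a (l 142878134120186031) (b (l 142889816433033327) (l 142892702652055663))))))))), by decide +kernel⟩

def k19_pm_102_a : ∃ t, chk3 f_pm_102_a t 46 63 3 = true :=
  ⟨(c (a (l 14) (b (l 142589649710022831) (b (a (l 142505743235809455) (l 142561406021943471)) (b (a (l 142523129269551279) (l 142578448458137775)) (c (b (a (l 142565254317899951) (a (l 142786462320754863) (l 142813469079863471))) (a (c (a (a (l 14) (l 142760967391510703)) (a (l 142774711289266351) (l 142788386467528879))) (l 14)) (a (b (l 142790722929819823) (a (l 142786737199988911) (l 142800343658758319))) (a (l 142812369563680943) (l 142825769869361327))))) (c (a (l 14) (b (l 142570270840422575) (a (l 14) (a (l 142762685378445487) (l 142776291837231279)))))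 (l 14))))))) (l 14)), by decide +kernel⟩

def k20_pm_102_a : ∃ t, chk3 f_pm_102_a t 47 126 1 = true :=
  ⟨(a (b (a (l 142633011722535023) (l 142686131887915119)) (b (a (l 142650741353349231) (l 142703586640642159)) (c (a (l 142969049996755055) (l 143020108577259631)) (l 142561543458226287)))) (a (b (l 142738015102500975) (c (a (l 143051650822029423) (l 143076321118699631)) (l 142635554347352175))) (b (c (l 16646336) (l 16624520)) (c (a (l 143100922695844079) (l 143132190062182639)) (l 142690873535610991))))), by decide +kernel⟩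

def k21_pm_102_a : ∃ t, chk3 f_pm_102_a t 47 127 2 = true :=
  ⟨(a (a (b (c (b (l 143043748083597423) (l 143056117593407599)) (b (l 142918197576269935) (l 142930017330200687))) (c (b (a (l 143055636558807151) (l 143080513013809263)) (a (c (l 143099204716970223) (a (l 143029866752049263) (l 143042373699027055))) (a (c (l 143117484101009647) (l 143054811926511727)) (l 143098517521727727)))) (b (a (l 142928642942287983) (l 142954481470111855)) (a (b (c (l 142969462320316527) (l 142905140878327919)) (c (a (l 142968912565370991) (l 142981625670811759)) (b (l 142909401487360111) (a (l 142905759354929263) (l 142918747338309743))))) (c (b (l 142994888531198063) (a (l 142994338776236143) (l 143006914442690671))) (b (l 142931048125628527) (a (b (l 142928780383207535) (l 142931666602213487)) (l 142943074037121135)))))))) (b (c (l 143099823187591407) (b (l 142969737193128047) (l 142981282069037167))) (c (c (a (l 143141948238135535) (l 143165862620283119)) (b (l 143086422889578735) (a (l 143085598257512687) (l 143109856237093103))))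 (b (a (l 142979907681042543) (l 143005059014000751)) (c (a (b (l 143019971144646767) (a (l 143019421389652079) (l 143031790897660015))) (a (l 143041411625631855) (l 143053712414130415))) (a (b (l 142956611775479919) (a (l 142955787142561903) (l 142968500247986287))) (b (l 142981900547391599) (a (l 142981075914440815) (l 142993582861402223))))))))) (a (b (c (l 143148201707946223) (b (l 143019971139715183) (l 143031241137586287))) (c (b (a (l 143153149513646319) (l 143176720298377455)) (a (c (l 143194862245478639) (l 143133770619224303)) (l 143187715418308847))) (b (a (l 143029866749509743) (l 143054399607079023)) (a (b (l 142993101832224879) (c (l 143074740578173167) (a (l 143006021088886895) (l 143018390596878447)))) (c (l 143096112338780399) (b (l 143031447298883695) (a (l 143030691385376879) (l 143042854734905583)))))))) (a (b (c (l 143183729683792111) (l 143062577223778543)) (c (b (l 143200222363582703) (a (l 143204964010033391) (a (l 143213553946149103) (l 143220425894822127)))) (b (l 143078863745106159)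 (a (l 143083261794124015) (a (l 143092195327688943) (l 143099273434841327)))))) (a (b (l 143145933963526383) (b (l 143162151765328111) (c (b (l 143230390219653359) (a (l 143231970769010927) (l 143242072533663983))) (b (l 143109650076614895) (b (l 143114597880561903) (c (l 143149026345287919) (l 143088347036205295))))))) (b (l 143162907676426479) (b (c (l 143239392470614255) (l 143119202083504367)) (b (c (l 143249700395499759) (l 143130265922797807)) (c (l 143258290332893423) (l 143139955372065007))))))))), by decide +kernel⟩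

def k22_pm_102_a : ∃ t, chk3 f_pm_102_a t 47 254 3 = true :=
  ⟨(a (a (c (l 142615831857283183) (l 142485058669723823)) (b (l 142598995581599855) (l 142609921982152815))) (a (c (b (l 142895176547237999) (l 142906171667169391)) (l 142593429304017071)) (a (b (l 142870712409145455) (c (l 142944242264064111) (l 142818073282248815))) (c (l 142970974143283311) (l 142845629795352687))))), by decide +kernel⟩

def k23_pm_102_a : ∃ t, chk3 f_pm_102_a t 47 255 6 = true :=
  ⟨(a (b (a (a (l 142799106705129647) (l 142825838586314863)) (a (l 142852226870067311) (l 142878271556386927))) (c (a (a (b (l 142840200961032367) (a (l 142839101450191023) (l 142852364311527599))) (b (l 142866589244751983) (a (l 142865489733894319) (a (l 142875316620787823) (l 142881844972224623))))) (a (b (l 142892633931038831) (b (l 142896757101068399) (a (l 142892977529651311) (l 142905896793538671)))) (b (l 142918403739353199) (b (l 142922458189889647) (a (l 142918747337949295) (l 142931460443390063)))))) (a (b (a (l 142774573848969391) (l 142801443169108143))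 (b (a (l 142778628299554991) (l 142805497619677359)) (a (a (c (l 142791135247057071) (l 142758012453372079)) (l 142788111589490863)) (a (l 142801511889813679) (l 142814843470626991))))) (a (b (l 142827968891814063) (a (l 142826731941953711) (l 142839926083813551))) (b (l 142854219736563823) (a (l 142853051506163887) (c (l 142882119850000495) (l 142849959129120943)))))))) (a (b (a (l 142904041364734063) (l 142929536295141487)) (a (c (b (l 142943829950251119) (a (b (l 142941493488287855) (l 142944173548814447)) (l 142955443544752239))) (b (l 142880195703341167) (a (a (l 142875728937484399) (l 142882188569428079)) (a (l 142888648201371759) (l 142895039113838703))))) (c (b (l 142968981283176559) (a (l 142968019211206767) (l 142980457438691439))) (b (l 142905828072685679) (b (l 142909745084219503) (a (l 142905965512769647) (l 142918678618210415))))))) (b (a (a (l 142948365435125871) (l 142961422137917551)) (a (l 142978120972992623) (b (l 142992826942341231) (a (l 142993857735737455) (l 143004371817267311))))) (a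 (a (b (l 142956268177621103) (c (l 142992826946682991) (b (l 142928711663140975) (l 142931323004141679)))) (a (b (l 142965614028111983) (c (l 143002035358187631) (l 142939431903608943))) (b (l 142972967013220463) (c (l 143009319623802991) (c (l 142962521651708015) (l 142931116845203567)))))) (a (b (a (l 142981625668386927) (b (l 142988978653053039) (l 142992345908494447))) (a (c (b (l 143016878766948463) (b (l 143019490107916399) (l 143021757851353199))) (b (l 142954481470849135) (a (b (l 142954206593302639) (l 142956268178260079)) (l 142961422139736175)))) (b (c (l 143027805165469807) (l 142965751466836079)) (c (l 143033096566816879) (l 142971386465632367))))) (b (b (l 143005608769060975) (l 143010831450898543)) (c (l 143049589243756655) (l 142988566337503343)))))))), by decide +kernel⟩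

def k24_pm_102_a : ∃ t, chk3 f_pm_102_a t 47 255 7 = true :=
  ⟨(a (a (b (l 142500932874551471) (a (l 14) (b (l 142522442076029103) (a (l 14) (c (c (l 142764265926525103) (l 14)) (l 14)))))) (b (l 142555633587716271) (b (a (l 142549723713093807) (l 142576730472202415)) (a (c (a (c (l 142777666226847919) (l 14)) (a (l 142771344033841327) (l 142778009824264367))) (l 14)) (a (c (b (l 142786737199087791) (l 142789348534780079)) (l 14)) (b (l 142587313274175663) (c (l 142802611401474223) (c (l 142753683125403823) (l 14))))))))) (a (b (l 142609028630626479) (b (c (a (l 142815942981157039) (l 142842056386920623)) (l 142584427054956719)) (c (a (a (b (l 142813194202284207) (l 142815805543317679)) (l 142827694014644399)) (a (l 142840750717517999) (l 142853669981421743))) (a (c (a (l 142765777755193519) (l 142779109336023215)) (l 14)) (a (c (l 142792372197359791) (l 142759936598638767)) (a (l 142786118723862703) (l 142792715794792623))))))) (b (a (a (l 142821715416907887) (a (l 142831473584324719) (l 142839032727912559)))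 (a (l 142852295588659311) (b (l 142867345155489903) (a (l 142868307229376623) (l 142879371066851439))))) (a (a (b (l 142829480720433263) (c (c (l 142882532166746223) (l 142850646323888303)) (b (l 142801305730662575) (l 142803848352186543)))) (b (a (l 142839238887850095) (l 142846798031437935)) (b (a (l 142843087179874415) (l 142850646323445871)) (a (c (l 142877515644239983) (l 142813675239080111)) (c (c (l 142900880270262383) (l 142869131866390703)) (a (l 142819035359117487) (l 142823502125678767))))))) (a (b (a (l 142855594125590639) (b (l 142863153268736111) (c (l 142898268928065647) (l 142834840839848111)))) (a (b (c (a (l 142888991797936239) (l 142893802161979503)) (l 142827900172255407)) (c (a (b (l 142891122102435951) (b (l 142892633931382895) (l 142893939601834095))) (l 142876141257932911)) (a (b (l 142827487855739055) (c (l 142845698520580271) (l 142813743958294703))) (l 142835253158101167)))) (b (c (l 142903148012388463) (l 142839926082650287)) (c (l 142909057889157231) (l 142846179556868271))))) (b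 (b (a (l 142873942228238447) (l 142887617406517359)) (l 142886655334383727)) (c (a (l 142919984287547503) (l 142933934343815279)) (c (l 142880401862000815) (a (l 142841850228768943) (l 142856556199444655)))))))))), by decide +kernel⟩

def k25_pm_102_a : ∃ t, chk3 f_pm_102_a t 12 2 1 = true :=
  ⟨(b (a (b (a (b (l 16727248) (l 16719368)) (b (l 16733968) (b (l 16729248) (l 16725456)))) (a (l 16705864) (b (l 16721344) (l 16713472)))) (b (a (b (a (l 16736400) (l 16736640)) (b (l 16734160) (l 16732288))) (b (a (b (l 16735576) (l 16735144)) (b (a (l 16733480) (b (c (l 16732512) (l 16730240)) (l 16731808))) (l 16732760))) (b (a (l 16734520) (b (l 16732720) (l 16732672))) (a (l 16733744) (l 16732552))))) (a (b (l 16728608) (l 16724936)) (b (a (l 16732400) (l 16732216)) (a (l 16729480) (l 16731368)))))) (a (b (l 16710264) (l 16639352)) (b (a (l 16713872) (b (l 16770816) (l 16723128))) (a (l 16676528) (l 16701808))))), by decide +kernel⟩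

def k26_pm_102_a : ∃ t, chk3 f_pm_102_a t 52 4 1 = true :=
  ⟨(a (b (b (c (b (a (b (a (l 68350295991) (l 82845809671)) (l 16730728)) (b (l 98951920791) (c (a (l 66202800583) (l 97878179975)) (l 102173157223)))) (a (l 16731192) (b (l 16724928) (l 16729192)))) (b (a (b (l 93583221367) (l 16728728)) (l 100025672135)) (a (l 16729368) (l 16727592)))) (b (b (l 16729504) (l 16729664)) (l 16729896))) (b (l 16730336) (l 16730800))) (b (b (b (l 3) (a (c (b (c (a (l 75329597975) (l 105931239431)) (l 77477070951)) (l 62981562471)) (b (l 104320639031) (l 16725704))) (b (l 3) (c (a (b (l 102710010151) (l 16725136)) (l 115594910791)) (a (b (l 78550806983) (l 16723888)) (l 80698285479)))))) (b (b (a (c (l 16727256) (l 16725872)) (c (l 52781012327) (a (l 16724368) (b (b (l 66202770807) (l 16718056)) (l 16723384))))) (a (l 16726744) (l 16724560))) (l 16720888))) (b (l 16727160) (l 16728624)))), by decide +kernel⟩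

def k27_pm_102_a : ∃ t, chk3 f_pm_102_a t 53 4 1 = true :=
  ⟨(b (b (l 3) (a (b (a (a (b (c (l 80698296263) (c (l 61907810087) (a (b (l 76940190759) (l 16716784)) (b (l 3) (l 74255835703))))) (l 16717600)) (b (b (l 3) (c (l 111299938343) (l 104320616455))) (c (l 16721400) (b (a (l 64055287399) (l 78013929991)) (l 16721512))))) (b (l 3) (a (b (l 117205506567) (c (l 93583197079) (a (l 66739641735) (l 85530123383)))) (l 3)))) (a (c (l 16723448) (l 16722400)) (b (c (a (l 16721288) (l 69960875415)) (a (l 16715416) (b (a (l 70497738231) (l 97341284215)) (l 16716360)))) (c (l 16721152) (l 16720448))))) (b (l 3) (a (b (a (b (l 3) (c (l 104320611623) (a (l 75866447527) (l 117205512487)))) (l 3)) (a (c (l 16719176) (c (l 16718808) (l 54391611319))) (c (b (l 109152447879) (l 68887130663)) (b (c (l 104857480167) (l 105394351399)) (c (l 68887130663) (l 61907804423)))))) (b (l 3) (a (c (l 116131766983) (c (l 112373670343) (l 113984283527))) (l 3))))))) (b (a (b (c (l 16723232) (l 16722040)) (l 16723520)) (b (a (c (b (l 16719112)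 (l 16719720)) (c (l 16718944) (l 16717600))) (b (a (c (b (l 74792709127) (l 16717320)) (c (b (l 74792709143) (l 16717112)) (b (a (l 16717320) (l 76403319671)) (l 16717280)))) (c (b (l 119352990951) (l 94120060439)) (c (b (l 116131765383) (l 91972576743)) (b (l 125258571447) (a (l 58686579623) (b (l 3) (l 87677602727))))))) (c (l 56002228055) (c (l 16716944) (a (l 16717600) (l 38822354231)))))) (a (l 16720184) (c (l 16718232) (b (l 16717504) (l 16718072)))))) (a (l 16725296) (b (a (l 16721488) (l 16719296)) (l 16721936))))), by decide +kernel⟩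

def k28_pm_102_a : ∃ t, chk3 f_pm_102_a t 27 8 1 = true :=
  ⟨(l 3), by decide +kernel⟩

def k29_pm_102_a : ∃ t, chk3 f_pm_102_a t 54 18 1 = true :=
  ⟨(a (b (a (b (l 3) (a (c (b (l 98415024567) (l 16715440)) (b (c (l 96267540935) (a (b (l 90898829895) (l 16713816)) (l 108078701031))) (c (l 16715408) (c (l 16715616) (l 16715832))))) (b (l 3) (c (l 103783731783) (c (l 102173119223) (a (l 88214478183) (l 116668633959))))))) (l 3)) (a (c (b (a (l 16715992) (b (l 70497738599) (l 16714944))) (l 16716144)) (b (a (l 16711696) (b (c (l 69960867623) (a (l 16715240) (l 75329576231))) (l 16715072))) (l 16716040))) (b (c (a (b (l 109689309991) (a (l 16714032) (l 85530122183))) (l 118279242071)) (a (b (c (l 108615568487) (l 107541828855)) (c (a (l 16714136) (l 84993251191)) (a (l 16714536) (l 84456380343)))) (b (l 3) (l 114521149927)))) (c (a (l 16714328) (b (a (l 72108349399) (l 98415019687)) (l 16713344))) (a (b (l 16714360) (l 16714688)) (b (c (a (l 16713392) (l 97878149239)) (a (l 71571478535) (l 97878150231))) (l 16713688)))))))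 (b (l 3) (a (a (b (l 3) (c (b (l 123647950215) (a (l 82308895559) (l 108615565383))) (b (l 124184822167) (a (b (l 96267539015) (l 16713032)) (l 108078698183))))) (l 3)) (l 3)))), by decide +kernel⟩

def k30_pm_102_a : ∃ t, chk3 f_pm_102_a t 54 19 1 = true :=
  ⟨(a (a (b (l 16717112) (l 16718792)) (b (a (l 16715480) (c (l 16714464) (l 16714600))) (l 16716704))) (a (b (c (b (a (b (l 66202767895) (l 16713056)) (b (a (b (l 108078694087) (l 78550797015)) (l 118816111159)) (a (l 16712192) (l 78550797367)))) (l 16713192)) (b (a (c (l 64055283143) (b (l 16713328) (l 16713680))) (b (a (b (l 107541824327) (l 78550798375)) (l 118279241479)) (a (l 16712688) (b (l 85530119687) (l 16712304))))) (a (l 16714000) (l 16713040)))) (b (l 16714136) (l 16715120))) (b (a (a (b (b (l 3) (a (c (l 96804404135) (l 95730666199)) (c (l 114521143511) (l 113984273927)))) (c (l 16711784) (l 16712328))) (b (l 3) (c (b (b (l 102709986183) (l 16711088)) (l 16711472)) (b (b (l 101099372103) (l 16711744)) (l 16712064))))) (b (l 3) (a (c (b (l 115594884279)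 (l 75866440759)) (b (l 114521146503) (l 75329571687))) (b (l 3) (b (c (l 117205496759) (l 116131756439)) (c (l 88214470823) (l 88214472823))))))) (b (a (l 16712600) (c (l 16711424) (l 16713944))) (l 16713096))))), by decide +kernel⟩

def k31_pm_102_a : ∃ t, chk3 f_pm_102_a t 55 9 1 = true :=
  ⟨(b (l 3) (a (a (a (a (b (b (l 3) (c (l 128479783943) (l 127406046311))) (b (b (b (c (l 96267534023) (l 97341277783)) (c (l 16710472) (l 16711216))) (l 16711080)) (l 16711856))) (b (l 3) (b (b (b (l 3) (c (l 103246852583) (l 102709985895))) (c (l 16710344) (l 16712408))) (l 16711368)))) (b (l 3) (b (b (l 3) (c (a (b (l 111299915671) (l 81772017879)) (l 123647945623)) (a (b (l 110763046423) (l 83382633959)) (l 123111079047)))) (a (c (l 16710664) (l 16711376)) (b (c (l 82845760151) (b (l 91435697191) (l 16710800))) (l 16710664)))))) (b (l 3) (b (l 3) (a (a (c (b (b (l 129553525543) (l 98415015623)) (l 16709912)) (b (b (l 127406043671) (l 100025631255)) (l 16710736))) (b (l 3) (b (c (l 108078691543) (l 106468081111)) (c (l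 16709544) (l 16710424))))) (a (b (l 3) (b (l 3) (c (l 116668623527) (l 115058017879)))) (l 3)))))) (l 3))), by decide +kernel⟩

def k32_pm_102_a : ∃ t, chk3 f_pm_102_a t 26 5 1 = true :=
  ⟨(b (a (b (a (l 16730544) (l 16730272)) (a (l 16730008) (l 16731416))) (b (a (l 16727968) (l 16724600)) (a (l 16730224) (l 16728440)))) (a (l 16721664) (b (a (l 16731536) (l 16731704)) (l 16728296)))), by decide +kernel⟩

def k33_pm_102_a : ∃ t, chk3 f_pm_102_a t 27 5 1 = true :=
  ⟨(b (a (b (a (b (l 16719688) (l 16721824)) (b (a (l 16716712) (l 16714744)) (l 16718056))) (a (l 16725376) (l 16722016))) (b (a (b (a (c (l 16712728) (b (l 16712608) (l 16713688))) (c (b (a (l 16710560) (b (a (l 79087662903) (b (l 125258557639) (l 92509434983))) (l 16709872))) (l 16711320)) (b (a (l 16711296) (b (a (l 80698278887) (b (l 123647946807) (l 94656921799))) (l 16710712))) (l 16711968)))) (a (l 16715256) (b (l 16712760) (l 16714080)))) (b (a (b (a (c (b (l 137069715991) (a (b (l 101636240247) (l 16709288)) (l 121500460807))) (b (l 134922236919)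 (a (b (l 103246855879) (l 16710216)) (b (l 3) (l 111836789463))))) (l 3)) (c (a (b (l 73182082951) (l 16710184)) (b (a (b (l 122574202743) (l 87677596439)) (l 135459103735)) (a (l 16709472) (l 88751338807)))) (a (b (a (l 16710632) (l 16711528)) (l 16711000)) (b (a (b (l 120963591991) (l 89825083351)) (l 133848493015)) (a (l 16710392) (b (l 98415017511) (l 16710136))))))) (b (l 3) (b (l 3) (a (a (c (l 121500460647) (b (l 139754073223) (l 109689306391))) (l 3)) (l 3))))) (a (b (c (l 16710736) (c (l 16711208) (l 16711848))) (l 16712320)) (b (c (a (b (a (l 16709224) (l 108078691575)) (l 16709696)) (b (l 139217199399) (a (l 86603855127) (l 120963589831)))) (a (b (a (l 16710184) (a (l 98415017639) (l 113447401991))) (l 16710608)) (b (a (l 133848495703) (l 3)) (b (a (l 94656921031) (l 138143460631)) (c (l 91435694103) (l 93046308695)))))) (c (a (l 16710776) (l 16709880)) (c (l 16710864) (a (l 16711920) (l 16711176)))))))) (a (b (l 16717064) (l 16719984)) (b (a (l 16714464) (c (l 16712584) (l 16713208))) (l 16716640)))))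 (a (b (a (l 16729568) (l 16727608)) (b (l 16732032) (l 16732512))) (b (b (l 16710944) (l 16724672)) (a (l 16730240) (l 16728344))))), by decide +kernel⟩

def k34_pm_102_a : ∃ t, chk3 f_pm_102_a t 14 4 1 = true :=
  ⟨(l 3), by decide +kernel⟩

def k35_pm_102_a : ∃ t, chk3 f_pm_102_a t 56 20 1 = true :=
  ⟨(a (b (l 3) (a (b (a (c (l 149417744983) (b (l 3) (l 147270269815))) (l 3)) (a (c (b (a (l 101636240951) (l 135459103927)) (l 16709344)) (b (c (a (l 101636241495) (l 134385363495)) (a (l 103783726503) (l 133311623239))) (c (l 16709984) (a (l 16710920) (l 16710544))))) (b (l 3) (c (a (l 120426719175) (l 150491488935)) (c (l 129016659735) (a (b (l 136532849031) (l 101636242663)) (l 147807137367))))))) (l 3))) (l 3)), by decide +kernel⟩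

def k36_pm_102_a : ∃ t, chk3 f_pm_102_a t 56 21 1 = true :=
  ⟨(a (b (a (b (a (c (l 16710472) (l 16707408)) (c (b (l 93583178551) (l 16709968)) (c (b (l 93046307671) (l 16710584)) (b (a (l 16710824) (b (l 112373660743) (l 16710616))) (l 16711296))))) (c (l 16711568) (l 16712344))) (b (a (c (b (l 141364683575) (a (l 16709304) (l 122574206823))) (c (b (l 140290943191) (l 105394339191)) (b (a (l 133848497143) (l 3)) (a (l 81772014071) (b (l 135995978535) (l 95193787719)))))) (a (c (l 153175842663) (c (l 151565231383) (l 149417751911))) (l 3))) (a (c (l 16710256) (c (l 16710872) (l 16711584))) (c (b (a (l 103246854263) (l 136532846487)) (l 16709744)) (c (b (a (l 101636242119) (l 135459106119)) (l 16710416)) (b (a (b (l 101636237367) (l 16710832)) (b (l 156933943607) (l 115058010311))) (l 16711152))))))) (c (a (l 16713992) (b (l 16711400) (l 16713048))) (a (l 16714568) (c (l 16712736) (l 16713352))))) (b (a (b (l 3) (a (b (l 3) (c (l 132774755463) (c (l 132237880759) (c (l 132237881847) (l 132237882727))))) (l 3)))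 (l 3)) (a (b (a (c (b (l 97341276599) (l 16710432)) (c (l 90361953943) (b (l 81772017111) (l 16711776)))) (b (a (c (l 137606588695) (c (l 137069719223) (l 137069720743))) (l 3)) (c (l 108615565575) (c (l 107541823831) (a (l 16711152) (l 116131749911)))))) (c (l 16711208) (c (l 16711800) (l 16712472)))) (b (a (b (l 3) (c (l 158007681991) (c (l 156933941607) (l 154786462087)))) (l 3)) (a (c (b (l 116131758423) (l 16710176)) (b (c (l 117742370663) (a (l 89825075959) (l 139217204711))) (l 72645201063))) (b (l 3) (c (l 138143460071) (c (l 138143461479) (l 136532850199))))))))), by decide +kernel⟩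

def k37_pm_102_a : ∃ t, chk3 f_pm_102_a t 57 10 1 = true :=
  ⟨(l 3), by decide +kernel⟩

def k38_pm_102_a : ∃ t, chk3 f_pm_102_a t 28 11 1 = true :=
  ⟨(a (a (b (b (a (l 16717424) (l 16715776)) (l 16720056)) (l 16725528)) (b (b (a (c (l 16713792) (l 16714504)) (c (b (a (l 16711456) (l 89825085703)) (l 16712712)) (b (c (l 81235139255) (l 72108342135)) (l 16713512)))) (c (l 16716416) (l 16716976))) (l 16711712))) (b (a (b (a (c (b (a (b (l 151565232327) (l 104857470135)) (l 167671357671)) (a (l 16711192) (b (l 116668629751) (l 16710600)))) (b (a (a (c (l 128479789703) (l 119889852423)) (b (l 3) (l 121500456103))) (b (l 3) (l 168208231959))) (a (l 16712096) (c (l 95193781735) (l 95193789959))))) (b (l 3) (a (b (l 3) (c (l 149954625767) (l 140827809719))) (l 3)))) (c (a (l 16713400) (b (a (l 16710880) (l 142975309975)) (l 16712184))) (a (l 16714144) (b (a (l 16711760) (b (l 158544556695) (l 16709792))) (l 16712976))))) (b (l 3) (a (c (b (l 179482516407) (a (l 103783730423) (l 164987005671))) (b (a (l 174113810935)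 (l 3)) (a (l 95193788823) (l 163913265495)))) (l 3)))) (a (b (c (l 16716104) (l 16716696)) (l 16720128)) (c (b (a (l 74792682631) (b (l 164987026759) (l 16716696))) (l 16715608)) (b (a (l 16713528) (a (l 132774753463) (l 159618298983))) (l 16716136)))))), by decide +kernel⟩

def k39_pm_102_a : ∃ t, chk3 f_pm_102_a t 29 5 1 = true :=
  ⟨(b (l 3) (a (b (l 3) (a (b (a (b (l 3) (a (l 158007656087) (l 3))) (l 3)) (a (c (b (l 95193774167) (l 16713112)) (l 90898820999)) (b (l 200420483159) (l 97878109351)))) (l 3))) (l 3))), by decide +kernel⟩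

def k40_pm_102_a : ∃ t, chk3 f_pm_102_a t 15 2 1 = true :=
  ⟨(l 3), by decide +kernel⟩

def k41_pm_102_a : ∃ t, chk3 f_pm_102_a t 6 6 1 = true :=
  ⟨(a (b (a (b (l 16606344) (l 16597984)) (b (l 16655472) (l 16646136))) (a (a (l 16577624) (l 16604128)) (b (l 16643712) (l 16640448)))) (b (a (b (l 16694424) (l 16684360)) (a (b (l 16729280) (l 16705272)) (b (b (l 16733624) (l 16734320)) (l 16729760)))) (a (b (a (l 16672184) (l 16686096)) (a (l 16670880) (a (l 16683168) (l 16666128)))) (b (l 16702600) (a (l 16661960) (l 16704392)))))), by decide +kernel⟩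

def k42_pm_102_a : ∃ t, chk3 f_pm_102_a t 12 14 1 = true :=
  ⟨(a (b (b (l 16590080) (l 16594184)) (a (l 16597280) (l 16599800))) (b (a (l 16629408) (l 16610408)) (a (b (l 16618528) (l 16628752)) (b (l 16642440) (l 16654848))))), by decide +kernel⟩

def k43_pm_102_a : ∃ t, chk3 f_pm_102_a t 12 30 1 = true :=
  ⟨(a (a (b (l 16614176) (a (l 16621168) (l 16631584))) (b (l 16615344) (b (l 16624600) (a (l 16666600) (l 16660296))))) (a (b (b (l 16637952) (l 16645592)) (c (c (l 16689408) (l 16682872)) (l 16652344))) (b (l 16669824) (c (a (l 16705968) (l 16716856)) (l 16683720))))), by decide +kernel⟩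

def k44_pm_102_a : ∃ t, chk3 f_pm_102_a t 96 62 1 = true :=
  ⟨(b (l 16630816) (b (l 16635712) (c (l 16649688) (l 16628352)))), by decide +kernel⟩

def k45_pm_102_a : ∃ t, chk3 f_pm_102_a t 192 63 1 = true :=
  ⟨(b (c (b (l 16650760) (b (l 16653280) (a (l 143171978645340399) (l 143206819424551151)))) (b (l 16629224) (c (b (l 16637104) (l 143007876504060015)) (l 142698295237574767)))) (c (b (b (a (l 143182905045614831) (c (l 143279387207270639) (l 143161533282877679))) (a (c (l 143254716913828079) (l 143135488599589103)) (l 143237605759828207))) (a (b (a (b (l 143195137118060783) (l 143203727055388911)) (l 143221868999655663)) (c (b (l 143282204713418991) (l 143290932089815279)) (c (l 143200016204677359) (l 143141535919325423)))) (c (c (l 143349137494819119) (l 143293405988847855)) (b (l 143198779250835695) (c (l 143246676737360111) (l 143190395475738863)))))) (b (b (c (a (l 143000523521048687) (l 143041205457338479)) (l 142717811575046255)) (a (c (a (l 143002653827219567) (l 143023475831832687)) (a (l 142877653076803695)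 (l 142899574593290351))) (l 143000660961329263))) (b (a (b (a (c (l 143013167910469743) (l 142888716915982447)) (l 142977296337109103)) (c (l 143036188940533871) (l 142913868250300527))) (c (l 143082712033788015) (l 142964445793550447))) (c (c (a (a (l 143069724053274863) (l 143095287703093487)) (a (l 143120851352895727) (l 143146346283221231))) (a (b (l 143017153643462767) (c (l 143043541928607855) (l 143013717670428783))) (b (l 143070479966830703) (a (l 143068693261516911) (l 143095356423192687))))) (c (a (b (l 142956680493252719) (a (c (l 142970012075491439) (l 142939638061449327)) (c (l 142997568590577775) (l 142967813051940975)))) (c (a (l 143019146509402223) (l 143046703024455791)) (b (l 142997706028236911) (a (l 142995988042432623) (l 143024094313431151))))) (b (a (l 142895657587245167) (l 142953656836030575)) (a (b (l 142905209597296751) (a (c (l 142912356424777839) (a (l 142874491986460847) (l 142889129237659823))) (b (l 142924588493733999) (c (l 142942730439114863) (a (l 142905484476235951) (l 142920190446895279))))))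 (b (l 142963277565558895) (a (b (l 142953588118143087) (c (l 142971455185551471) (a (l 142934827698094255) (l 142949533668753519)))) (c (l 142998599383548015) (a (l 142962590371496047) (l 142977227622678639))))))))))))), by decide +kernel⟩

def k46_pm_102_a : ∃ t, chk3 f_pm_102_a t 193 63 1 = true :=
  ⟨(b (c (a (b (l 16654024) (b (l 143231695876522223) (l 143247089044095215))) (b (l 16656640) (l 143283029335294191))) (b (l 142813606534168687) (c (a (l 143062096178217199) (l 143110543417589999)) (l 142787218254545007)))) (b (c (c (l 143351748829561071) (l 143240835573842159)) (c (l 143127654575472879) (l 143012343273390191))) (b (c (c (l 143377793519534319) (l 143270247518912751)) (c (l 143160708653596911) (c (l 143077283194355823) (l 143021070652768367)))) (c (a (c (a (l 143362812673786095) (l 143384596751548655)) (c (l 143293405989486831) (l 143239255032119535))) (c (l 143417307227898159) (c (l 143340135241597167) (l 143288114588483823)))) (c (c (b (l 143204620408963311) (a (l 143190120592851183) (l 143241179178320111)))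 (b (l 143150332012871919) (c (a (l 143149095063437551) (l 143201802911334639)) (a (l 143121607267959023) (l 143175483347206383))))) (c (a (b (l 143067868626419823) (a (a (l 143059278691713135) (l 143073228747948143)) (a (l 143087110084722799) (l 143100991421497455)))) (b (l 143123325254008943) (a (l 143121813426634863) (l 143149576100167791)))) (b (a (l 143011518645846127) (l 143069311736152175)) (b (a (l 143021276814327919) (l 143079138624110703)) (a (a (c (l 143027324129951855) (a (l 142991864873844847) (l 143006502125027439))) (c (l 143056048876355695) (l 143028492361531503))) (a (c (l 143084704903282799) (l 143057766863863919)) (l 143100166788448367))))))))))), by decide +kernel⟩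

def k47_pm_102_a : ∃ t, chk3 f_pm_102_a t 97 31 1 = true :=
  ⟨(a (b (b (l 16638160) (c (l 16655336) (l 142856693646983279))) (b (c (b (l 16661824) (l 143350786750906607)) (b (l 142907889671929967) (l 143132121337282671))) (b (c (a (l 143364736812089583) (l 143410160393896175)) (c (l 143231008686670063) (l 143124630918512751))) (b (c (c (l 143464929830519087) (l 143365561449447663)) (c (l 143264543801131247) (c (l 143187784132591855) (l 143136244516421743)))) (a (c (c (l 143460944102850863) (a (l 143350030847738095) (l 143373876510228719))) (c (b (l 143255610269614319) (c (l 143292169038905583) (l 143241866373333231))) (c (a (l 143171085299499247) (l 143198779253539055)) (b (l 143127036106932335) (c (l 143153012074987631) (l 143082368448659567)))))) (c (c (l 143504580977787183) (a (l 143397722172719343) (l 143421567835193583))) (c (c (l 143337523900727535) (l 143289076661436655)) (c (l 143240285824827631) (c (l 143203520898711791) (l 143178919322009711)))))))))) (b (b (l 16643336) (c (l 16661776) (l 142950564467917039)))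 (a (c (b (l 143400608377602287) (b (l 143455583975669999) (c (l 143539284317946159) (b (l 143436960997933295) (l 143457370688635119))))) (b (l 143189708266619119) (b (l 143258702640972015) (c (c (l 143377175044325615) (l 143330239633850607)) (b (l 143246401856946415) (a (l 143258084172759279) (l 143286190443725039))))))) (b (c (l 143445757081485615) (l 143242828431589615)) (c (b (l 143500938837950767) (c (l 143582921192833327) (l 143494754088976687))) (b (l 143312303842296047) (c (b (l 143393942598369519) (l 143417101068697839)) (b (l 143302476959924463) (l 143328384209912047))))))))), by decide +kernel⟩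

def k48_pm_102_a : ∃ t, chk3 f_pm_102_a t 49 31 1 = true :=
  ⟨(b (b (c (b (l 16668320) (l 16672776)) (l 16638200)) (a (c (l 16672776) (l 143105526915629295)) (c (l 16687480) (l 143313059772317935)))) (b (c (c (a (l 143603124709998895) (l 143775541905424687)) (a (l 143512896021479727) (l 143699813029871919))) (a (c (a (l 143370577960976623) (l 143472145365352687)) (l 143148339167035631)) (c (l 143623396959928623) (l 143366454824993007)))) (c (b (a (c (l 143655695125545263) (a (l 143525196817187119) (l 143619617394164015))) (c (l 143828936954544431) (l 143760423625589039))) (a (c (a (b (l 143639202452209967) (l 143657275680129327)) (l 143735272297595183)) (a (b (l 143555708273819951) (l 143576324122935599)) (l 143660780372689199))) (c (a (l 143822133730214191) (l 143908720284762479)) (a (l 143755132229992751) (l 143849071770255663))))) (c (b (a (a (l 143436960994410735) (l 143539284313030895)) (l 143691704138662191)) (a (a (c (l 143503756342264047) (l 143462043613217007)) (b (l 143573987658563823) (l 143597558445719791)))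 (a (l 143688062010786095) (l 143789766853689647)))) (a (b (a (l 143347763099271407) (l 143458470195904751)) (a (b (l 143386246016909551) (c (l 143432975271526639) (l 143391743579128047))) (c (l 143529388712968431) (l 143491799153656047)))) (c (b (l 143640233243263215) (a (l 143637896785674479) (l 143745580224413999))) (b (l 143605942219636975) (a (l 143604499115393263) (l 143716305723687151))))))))), by decide +kernel⟩

def k49_pm_102_a : ∃ t, chk3 f_pm_102_a t 50 31 1 = true :=
  ⟨(c (b (a (l 143625664719143215) (l 143800418377302383)) (c (b (a (l 16714248) (l 16727408)) (a (a (l 143976615136117103) (l 144062377056616815)) (a (l 144147864099062127) (l 144231633154130287)))) (a (b (l 143885149489578287) (b (l 143946722157838639) (a (l 143942530273968431) (l 144035301582717295)))) (b (l 16735064) (a (l 144106357573697903) (l 144196792398135663)))))) (b (b (l 16668032) (a (l 143518118727024943) (l 143720016584802607))) (a (c (b (l 143823164513157423) (b (l 143892777361867055) (a (l 143890647062642991) (l 143990771378585903))))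 (b (l 143581409386103087) (b (a (l 143785987279552815) (l 143893327120875823)) (a (b (l 143826119464616239) (c (l 143865633172275503) (l 143841237755478319))) (b (l 143933802903306543) (c (l 143971598623588655) (a (l 143923769861390639) (l 143978470574342447)))))))) (b (c (l 144019908408426863) (l 143792446935941423)) (b (c (l 144090552049189231) (a (l 143999773608755503) (l 144104158511825199))) (a (c (b (l 144078045105930607) (l 144102509246202223)) (b (l 144040592988553519) (c (l 144076670721442095) (a (l 144032827689828655) (b (l 144079763099910447) (l 144094125474267439)))))) (c (b (l 144175420620636527) (l 144200022199828847)) (b (l 144145252769513775) (c (l 144179612515025263) (c (l 144169923068887343) (a (l 144137075154567471) (l 144189989160714543)))))))))))), by decide +kernel⟩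

def k50_pm_102_a : ∃ t, chk3 f_pm_102_a t 51 31 1 = true :=
  ⟨(b (c (a (l 144009188173742447) (a (l 16732112) (l 16737000))) (b (l 16699408) (a (l 16724632) (l 16738448)))) (b (c (a (a (l 16735608) (l 16741384)) (b (l 16746592) (l 16751616))) (a (c (l 144204626392514927) (l 143991183696675183)) (c (l 16749952) (l 144171022597194095)))) (c (a (a (c (l 144311141600674159) (l 144282829196558703)) (c (l 144385908402258287) (l 144364124350021999))) (a (c (l 144456139717345647) (l 144440815297528175)) (b (l 16759080) (a (l 144520529880662383) (c (l 16764304) (l 144550903896162671)))))) (a (b (c (l 144276232105804143) (a (l 144204076647956847) (l 144299184419668335))) (c (a (b (l 144268398087848303) (l 144293137105961327)) (b (l 144356565190639983) (l 144381372928213359))) (b (a (l 144245514502996335) (l 144340897152581999)) (a (c (l 144278156261130607) (c (l 144271284314210671) (a (l 144241597496525167) (l 144291968881508719)))) (c (l 144371889642815855) (c (l 144367766475620719) (a (l 144341172035109231) (l 144389138237899119))))))))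 (b (c (l 144443014302187887) (a (l 16757568) (l 16764360))) (b (c (a (l 16760552) (l 16766472)) (a (l 144431606876750191) (a (l 16767832) (l 16771096)))) (a (c (l 144465073263968623) (c (l 144460950099067247) (c (l 144459575711613295) (a (l 144436004928782703) (l 144481703388332399))))) (a (c (l 16768176) (c (l 16770464) (b (l 16771272) (l 16773064)))) (a (c (l 16770272) (b (l 16772888) (c (l 16773616) (a (l 16775192) (b (l 16775552) (l 16776288)))))) (c (l 16771328) (b (c (l 16773336) (l 16775232)) (c (l 16774576) (l 16776496))))))))))))), by decide +kernel⟩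

def k51_pm_102_a : ∃ t, chk3 f_pm_102_a t 13 14 1 = true :=
  ⟨(a (b (a (a (l 16645896) (l 16654280)) (a (l 16661616) (l 16667712))) (a (a (l 16664872) (l 16673752)) (b (l 16677816) (l 16690664)))) (b (a (b (l 16674576) (l 16699024)) (b (a (l 16702240) (l 16684784)) (b (l 16685800) (l 16689728)))) (a (b (c (l 16709384) (l 16710584)) (a (l 16698992) (l 16703144))) (b (a (l 16716448) (l 16719448)) (l 16728088))))), by decide +kernel⟩

def k52_pm_102_a : ∃ t, chk3 f_pm_102_a t 13 15 1 = true :=
  ⟨(a (b (a (b (l 16690952) (c (l 16750680) (l 16707776))) (a (b (l 16723488) (c (l 16738824) (l 16720984))) (b (l 16708360) (b (l 16782720) (l 16747896))))) (a (a (a (b (b (l 16736344) (l 144220775532101999)) (b (b (l 16754648) (a (l 16758960) (b (l 16760000) (l 16783776)))) (b (c (l 144559699982303599) (a (c (l 16765960) (b (l 16767472) (l 16770728))) (b (l 16768448) (l 16770888)))) (b (a (c (l 16765968) (a (b (l 16770752) (l 16772080)) (l 16772176))) (l 16769880)) (c (l 16768816) (c (l 16772912) (l 16776344))))))) (c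 (b (l 16745416) (b (l 16780320) (l 16768024))) (b (l 16747440) (c (b (l 16783784) (l 16771912)) (b (b (l 16763312) (l 16768648)) (l 16785672)))))) (b (b (c (l 16746000) (l 16770200)) (c (l 16754552) (a (l 16778776) (l 16760816)))) (b (a (b (c (l 16759896) (l 16765128)) (l 16766264)) (l 16765944)) (a (b (l 16770320) (c (l 16772104) (l 16777264))) (c (l 16771712) (l 16787176)))))) (b (a (b (c (l 16750536) (l 16776272)) (l 16760232)) (a (l 16758080) (l 16758944))) (c (a (b (l 16765680) (l 16794560)) (b (l 16767464) (l 16775192))) (a (b (l 16770560) (b (l 16776376) (l 16790792))) (b (l 16772216) (l 144679134466933103))))))) (b (a (b (c (l 16795640) (l 16715952)) (l 16768384)) (b (l 16739120) (l 16793008))) (b (a (c (l 16758832) (l 16763488)) (c (l 16762016) (l 16766112))) (b (a (a (l 16770952) (l 16772240)) (c (l 16772200) (l 16775984))) (a (a (c (l 16776448) (l 16780832)) (c (l 16777664) (l 16781736))) (c (a (l 16778792) (l 16779808)) (a (l 16782480) (l 16783048)))))))), by decide +kernel⟩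

def k53_pm_102_a : ∃ t, chk3 f_pm_102_a t 28 6 1 = true :=
  ⟨(b (a (b (a (l 16690112) (l 16729672)) (a (l 16736112) (l 16715728))) (b (a (l 16684224) (b (l 16698752) (l 16723848))) (a (b (l 16731896) (l 16735560)) (b (l 16728064) (l 16731928))))) (a (b (l 16726464) (l 16713384)) (b (a (l 16737288) (b (l 16735760) (l 16737312))) (l 16700320)))), by decide +kernel⟩

def k54_pm_102_a : ∃ t, chk3 f_pm_102_a t 29 12 1 = true :=
  ⟨(a (b (a (b (a (l 16716280) (l 16713944)) (l 16698320)) (b (a (b (l 102173076855) (a (l 16713272) (l 16712008))) (c (l 113984287223) (l 116131750375))) (a (c (l 16715904) (l 16716136)) (b (a (l 16713200) (c (l 21105615367) (l 16711984))) (c (l 16714904) (l 16715088)))))) (a (b (l 16723640) (l 16728024)) (b (a (l 16720368) (b (c (l 16717160) (l 16717304)) (l 16719416))) (a (l 16724848) (l 16722832))))) (b (a (b (l 3) (a (b (l 110763053479) (a (c (b (l 93046316647) (l 16716720)) (l 16718768)) (a (b (l 3) (b (l 79087671271) (c (l 90898832279) (l 16713896)))) (l 3)))) (l 3))) (l 3)) (a (b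 (b (a (a (c (l 16715832) (l 16715968)) (b (c (a (l 105394347335) (c (b (l 90898831127) (l 16714632)) (l 104320605367))) (l 102173125303)) (c (l 16715656) (l 16715792)))) (a (b (c (c (l 88214473559) (l 87140731671)) (l 88214475927)) (c (a (b (l 88751350791) (l 16715456)) (l 104320607399)) (l 93583192199))) (l 3))) (a (c (l 16717736) (l 16717840)) (a (c (b (l 16716168) (l 16717328)) (l 16716872)) (b (c (a (l 110226190151) (l 95193800199)) (l 107541836455)) (c (l 86603872823) (l 16716896)))))) (a (b (l 16720000) (l 16722272)) (b (c (l 16718792) (l 16718896)) (l 16721064)))) (b (a (b (l 3) (c (b (l 3) (l 95730680423)) (l 93583184599))) (l 3)) (a (b (a (b (c (l 77477070087) (l 16717544)) (l 16718744)) (b (l 97341290583) (l 72108364375))) (a (l 16720464) (b (l 16719600) (l 16720760)))) (b (l 3) (a (b (l 107004974455) (l 16720496)) (l 64592143943)))))))), by decide +kernel⟩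

def k55_pm_102_a : ∃ t, chk3 f_pm_102_a t 29 13 1 = true :=
  ⟨(a (b (a (b (l 16731840) (l 16735640)) (b (l 16728184) (l 16731688))) (a (l 16734872) (b (l 16756216) (l 16735000)))) (b (a (b (a (l 16725624) (l 16724448)) (l 16729168)) (b (a (b (l 16722576) (l 16724792)) (b (a (l 16722312) (b (l 16721416) (l 16722824))) (l 16724496))) (a (l 16727976) (b (l 16726648) (l 16728688))))) (a (b (a (l 16732784) (l 16732304)) (a (l 16735544) (l 16734680))) (b (a (l 16731736) (l 16731496)) (a (l 16733936) (l 16734384)))))), by decide +kernel⟩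

def k56_pm_102_a : ∃ t, chk3 f_pm_102_a t 15 6 1 = true :=
  ⟨(a (b (l 3) (a (b (a (b (a (b (a (l 70497726903) (l 3)) (c (l 58686567799) (l 16724352))) (l 139217224647)) (a (b (l 16726824) (l 16728848)) (b (l 90898846551) (l 16729248)))) (b (l 3) (a (b (l 3) (l 142975325351)) (l 3)))) (a (b (c (l 16731664) (l 16731712)) (a (l 16734456) (l 16734656))) (b (a (b (a (l 16731512) (l 16731280)) (l 16733120)) (b (l 166597659463) (a (l 16733256) (l 141901597879)))) (a (l 16734896) (b (a (l 16734664) (l 16734784)) (l 16735536)))))) (b (l 3) (a (b (l 3) (a (b (a (l 123111124359) (l 3)) (a (l 16735800) (l 59223488151))) (a (b (l 3) (l 153175875447)) (l 3)))) (l 3))))) (l 3)), by decide +kernel⟩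

def k57_pm_102_a : ∃ t, chk3 f_pm_102_a t 14 7 1 = true :=
  ⟨(b (a (a (b (b (l 16711592) (l 16693400)) (b (l 16723592) (l 16732432))) (b (l 16695608) (b (l 16683208) (l 16734088)))) (b (a (b (l 16719936) (l 16718960)) (b (a (l 16733224) (a (l 16735848) (l 16756912))) (a (l 16723320) (l 16734104)))) (a (b (l 16703400) (a (l 16713056) (l 16710944))) (b (a (l 16726448) (l 16729264)) (a (l 16731672) (l 16733744)))))) (a (b (a (b (l 16742816) (a (l 16753600) (l 16754576))) (b (l 16764552) (a (l 16754512) (l 16753632)))) (a (a (b (l 16786760) (b (l 16775336) (a (l 16781760) (l 16782016)))) (b (l 16803072) (b (l 16775592) (a (l 16782040) (l 16802744))))) (b (a (c (l 16764808) (l 16767352)) (c (l 16763808) (l 16765784))) (b (a (l 16774808) (c (l 16772664) (l 16774080))) (a (c (l 16780272) (l 16781864)) (c (l 16778768) (l 16779704))))))) (b (a (b (a (l 16742248) (l 16740856)) (a (l 16752192) (l 16750392))) (b (a (b (l 16738536) (l 16742392)) (b (l 16738512) (l 16764840))) (a (l 16749312) (l 16749816)))) (a (b (a (c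 (l 16762240) (l 16763632)) (c (l 16760304) (l 16761112))) (a (b (c (l 16770800) (l 16771576)) (c (b (l 16775208) (l 16778192)) (l 16787440))) (b (c (l 16768560) (l 16768704)) (c (a (l 16774912) (l 16773680)) (a (l 16774672) (l 16773120)))))) (b (a (c (l 16759008) (l 16759328)) (b (l 16756688) (l 16761432))) (b (a (c (l 16766944) (l 16766544)) (c (l 16766736) (l 16765952))) (a (a (c (l 16772736) (l 16771880)) (c (l 16772184) (l 16771072))) (a (c (l 16771952) (l 16770640)) (c (l 16772016) (l 16770520)))))))))), by decide +kernel⟩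

def k58_pm_102_a : ∃ t, chk3 f_pm_102_a t 30 14 1 = true :=
  ⟨(b (a (a (b (a (b (l 16735944) (l 16735936)) (l 16736144)) (a (l 16759136) (b (l 16736512) (l 16739320)))) (b (b (a (l 16735928) (l 16736000)) (l 16736072)) (a (b (l 16736888) (l 16738928)) (l 16738264)))) (a (b (a (b (l 16736272) (l 16736320)) (b (a (b (l 86067027271) (l 16736576)) (b (l 167134545255) (l 134385428215))) (a (l 16736528) (b (l 16736664) (l 16736608))))) (a (b (l 16737192) (l 16739696)) (b (b (l 16736792) (l 16738016)) (l 16739904)))) (b (a (b (l 3) (a (b (l 149954684023) (l 72108405319)) (l 153175896247))) (l 3)) (a (b (a (l 16742784) (b (c (l 130627334455) (l 131164203783)) (l 16738136))) (a (l 16740000) (l 16740024))) (b (a (b (l 3) (l 147270334279)) (l 3)) (a (b (c (l 103783791511) (l 16738952)) (l 16740616)) (b (l 153712773831) (c (l 130627339687) (l 131164209239))))))))) (a (a (b (l 16736072) (l 16736384)) (b (a (l 16763920) (b (l 16741624) (l 16744560))) (l 16740640))) (b (b (a (a (l 16742184) (l 16742440)) (a (l 16742528)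 (a (l 16742488) (b (l 16747000) (l 16743024))))) (a (a (a (l 16744648) (l 16744448)) (l 16745016)) (a (l 16745128) (a (l 16745064) (l 16744952))))) (a (b (a (l 16747512) (a (l 16747760) (l 16747448))) (l 16749656)) (b (a (l 16747840) (l 16747760)) (a (b (l 16749704) (l 16751704)) (l 16771512))))))), by decide +kernel⟩

def k59_pm_102_a : ∃ t, chk3 f_pm_102_a t 31 14 1 = true :=
  ⟨(a (b (l 3) (a (b (a (b (a (b (c (l 145659725111) (l 145659723847)) (c (l 101099443479) (l 104857538871))) (b (l 3) (l 153712780679))) (a (b (l 16744144) (l 16745456)) (a (b (l 102173187831) (l 16745312)) (b (l 146733472311) (l 16745184))))) (b (l 3) (a (b (l 3) (c (a (l 121500539687) (l 158544624311)) (l 126869247159))) (l 3)))) (a (b (a (l 16747536) (b (l 16746624) (l 16748048))) (a (l 16750504) (l 16750304))) (b (a (b (c (a (l 16746568) (l 109152511527)) (l 106468158487)) (l 16747808)) (b (c (l 152102175191) (l 152639045703)) (c (a (l 97878224023) (l 142438508823)) (a (l 16747472) (l 143512250199))))) (a (b (l 16749288) (l 16750832))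 (b (c (l 16749072) (l 16748952)) (l 16750536)))))) (b (l 3) (a (b (l 3) (a (a (b (b (l 147807219847) (l 107541904439)) (l 16750288)) (b (l 157470889623) (b (c (l 130090481591) (l 16749456)) (l 6)))) (b (l 3) (l 6)))) (l 3))))) (l 3)), by decide +kernel⟩

def k60_pm_102_a : ∃ t, chk3 f_pm_102_a t 15 15 1 = true :=
  ⟨(a (b (b (a (a (b (l 16741168) (l 16765592)) (l 16745712)) (a (b (l 16747560) (l 16750376)) (b (a (l 16753504) (b (a (l 16753104) (l 16752856)) (l 16754944))) (l 16753792)))) (a (b (a (l 16771096) (a (l 16751184) (l 16752128))) (a (l 16753672) (a (l 16755480) (l 16757368)))) (a (b (l 16754368) (a (l 16737408) (l 16738000))) (b (l 16756400) (l 16760648))))) (a (b (a (b (l 16758032) (l 16762496)) (b (l 16760216) (l 16785352))) (b (a (c (l 16767616) (l 16766592)) (c (l 16769208) (l 16768104))) (a (a (b (l 16770256) (a (l 16772528) (l 16772688))) (b (l 16770752) (l 6))) (l 6)))) (b (b (a (a (l 16762208) (l 16763840)) (l 6)) (l 6)) (l 6)))) (b (a (a (b (b (a (a (l 16753472) (l 16753512)) (a (l 16753272)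 (b (l 16752136) (l 6)))) (a (b (a (l 16756368) (l 16755856)) (l 16737248)) (l 6))) (l 6)) (l 6)) (l 6)) (l 6))), by decide +kernel⟩

theorem s61_pm_102_a : ∃ t, chk3 f_pm_102_a t 15 14 1 = true := ex3_a k58_pm_102_a k59_pm_102_a

theorem s62_pm_102_a : ∃ t, chk3 f_pm_102_a t 15 7 1 = true := ex3_b s61_pm_102_a k60_pm_102_a

theorem s63_pm_102_a : ∃ t, chk3 f_pm_102_a t 7 7 1 = true := ex3_a k57_pm_102_a s62_pm_102_a

theorem s64_pm_102_a : ∃ t, chk3 f_pm_102_a t 29 6 1 = true := ex3_b k54_pm_102_a k55_pm_102_a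

theorem s65_pm_102_a : ∃ t, chk3 f_pm_102_a t 14 6 1 = true := ex3_a k53_pm_102_a s64_pm_102_a

theorem s66_pm_102_a : ∃ t, chk3 f_pm_102_a t 7 6 1 = true := ex3_a s65_pm_102_a k56_pm_102_a

theorem s67_pm_102_a : ∃ t, chk3 f_pm_102_a t 7 3 1 = true := ex3_b s66_pm_102_a s63_pm_102_a

theorem s68_pm_102_a : ∃ t, chk3 f_pm_102_a t 13 7 1 = true := ex3_b k51_pm_102_a k52_pm_102_a

theorem s69_pm_102_a : ∃ t, chk3 f_pm_102_a t 25 31 1 = true := ex3_a k49_pm_102_a k50_pm_102_a

theorem s70_pm_102_a : ∃ t, chk3 f_pm_102_a t 96 63 1 = true := ex3_a k45_pm_102_a k46_pm_102_a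

theorem s71_pm_102_a : ∃ t, chk3 f_pm_102_a t 96 31 1 = true := ex3_b k44_pm_102_a s70_pm_102_a

theorem s72_pm_102_a : ∃ t, chk3 f_pm_102_a t 48 31 1 = true := ex3_a s71_pm_102_a k47_pm_102_a

theorem s73_pm_102_a : ∃ t, chk3 f_pm_102_a t 24 31 1 = true := ex3_a s72_pm_102_a k48_pm_102_a

theorem s74_pm_102_a : ∃ t, chk3 f_pm_102_a t 12 31 1 = true := ex3_a s73_pm_102_a s69_pm_102_a

theorem s75_pm_102_a : ∃ t, chk3 f_pm_102_a t 12 15 1 = true := ex3_b k43_pm_102_a s74_pm_102_a

theorem s76_pm_102_a : ∃ t, chk3 f_pm_102_a t 12 7 1 = true := ex3_b k42_pm_102_a s75_pm_102_a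

theorem s77_pm_102_a : ∃ t, chk3 f_pm_102_a t 6 7 1 = true := ex3_a s76_pm_102_a s68_pm_102_a

theorem s78_pm_102_a : ∃ t, chk3 f_pm_102_a t 6 3 1 = true := ex3_b k41_pm_102_a s77_pm_102_a

theorem s79_pm_102_a : ∃ t, chk3 f_pm_102_a t 3 3 1 = true := ex3_a s78_pm_102_a s67_pm_102_a

theorem s80_pm_102_a : ∃ t, chk3 f_pm_102_a t 56 10 1 = true := ex3_b k35_pm_102_a k36_pm_102_a

theorem s81_pm_102_a : ∃ t, chk3 f_pm_102_a t 28 10 1 = true := ex3_a s80_pm_102_a k37_pm_102_a

theorem s82_pm_102_a : ∃ t, chk3 f_pm_102_a t 28 5 1 = true := ex3_b s81_pm_102_a k38_pm_102_a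

theorem s83_pm_102_a : ∃ t, chk3 f_pm_102_a t 14 5 1 = true := ex3_a s82_pm_102_a k39_pm_102_a

theorem s84_pm_102_a : ∃ t, chk3 f_pm_102_a t 14 2 1 = true := ex3_b k34_pm_102_a s83_pm_102_a

theorem s85_pm_102_a : ∃ t, chk3 f_pm_102_a t 7 2 1 = true := ex3_a s84_pm_102_a k40_pm_102_a

theorem s86_pm_102_a : ∃ t, chk3 f_pm_102_a t 13 5 1 = true := ex3_a k32_pm_102_a k33_pm_102_a

theorem s87_pm_102_a : ∃ t, chk3 f_pm_102_a t 54 9 1 = true := ex3_b k29_pm_102_a k30_pm_102_a

theorem s88_pm_102_a : ∃ t, chk3 f_pm_102_a t 27 9 1 = true := ex3_a s87_pm_102_a k31_pm_102_a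

theorem s89_pm_102_a : ∃ t, chk3 f_pm_102_a t 27 4 1 = true := ex3_b k28_pm_102_a s88_pm_102_a

theorem s90_pm_102_a : ∃ t, chk3 f_pm_102_a t 26 4 1 = true := ex3_a k26_pm_102_a k27_pm_102_a

theorem s91_pm_102_a : ∃ t, chk3 f_pm_102_a t 13 4 1 = true := ex3_a s90_pm_102_a s89_pm_102_a

theorem s92_pm_102_a : ∃ t, chk3 f_pm_102_a t 13 2 1 = true := ex3_b s91_pm_102_a s86_pm_102_a

theorem s93_pm_102_a : ∃ t, chk3 f_pm_102_a t 6 2 1 = true := ex3_a k25_pm_102_a s92_pm_102_a

theorem s94_pm_102_a : ∃ t, chk3 f_pm_102_a t 3 2 1 = true := ex3_a s93_pm_102_a s85_pm_102_a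

theorem s95_pm_102_a : ∃ t, chk3 f_pm_102_a t 3 1 1 = true := ex3_b s94_pm_102_a s79_pm_102_a

theorem s96_pm_102_a : ∃ t, chk3 f_pm_102_a t 47 255 3 = true := ex3_c k23_pm_102_a k24_pm_102_a

theorem s97_pm_102_a : ∃ t, chk3 f_pm_102_a t 47 127 3 = true := ex3_b k22_pm_102_a s96_pm_102_a

theorem s98_pm_102_a : ∃ t, chk3 f_pm_102_a t 47 127 1 = true := ex3_c k21_pm_102_a s97_pm_102_a

theorem s99_pm_102_a : ∃ t, chk3 f_pm_102_a t 47 63 1 = true := ex3_b k20_pm_102_a s98_pm_102_a

theorem s100_pm_102_a : ∃ t, chk3 f_pm_102_a t 46 255 2 = true := ex3_b k17_pm_102_a k18_pm_102_a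

theorem s101_pm_102_a : ∃ t, chk3 f_pm_102_a t 46 127 2 = true := ex3_b k16_pm_102_a s100_pm_102_a

theorem s102_pm_102_a : ∃ t, chk3 f_pm_102_a t 46 63 2 = true := ex3_b k15_pm_102_a s101_pm_102_a

theorem s103_pm_102_a : ∃ t, chk3 f_pm_102_a t 46 63 1 = true := ex3_c s102_pm_102_a k19_pm_102_a

theorem s104_pm_102_a : ∃ t, chk3 f_pm_102_a t 23 63 1 = true := ex3_a s103_pm_102_a s99_pm_102_a

theorem s105_pm_102_a : ∃ t, chk3 f_pm_102_a t 22 127 1 = true := ex3_c k13_pm_102_a k14_pm_102_a

theorem s106_pm_102_a : ∃ t, chk3 f_pm_102_a t 22 63 1 = true := ex3_b k12_pm_102_a s105_pm_102_a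

theorem s107_pm_102_a : ∃ t, chk3 f_pm_102_a t 11 63 1 = true := ex3_a s106_pm_102_a s104_pm_102_a

theorem s108_pm_102_a : ∃ t, chk3 f_pm_102_a t 11 31 1 = true := ex3_b k11_pm_102_a s107_pm_102_a

theorem s109_pm_102_a : ∃ t, chk3 f_pm_102_a t 11 15 1 = true := ex3_b k10_pm_102_a s108_pm_102_a

theorem s110_pm_102_a : ∃ t, chk3 f_pm_102_a t 11 7 1 = true := ex3_b k9_pm_102_a s109_pm_102_a

theorem s111_pm_102_a : ∃ t, chk3 f_pm_102_a t 43 31 1 = true := ex3_a k7_pm_102_a k8_pm_102_a

theorem s112_pm_102_a : ∃ t, chk3 f_pm_102_a t 21 31 1 = true := ex3_a k6_pm_102_a s111_pm_102_a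

theorem s113_pm_102_a : ∃ t, chk3 f_pm_102_a t 10 31 1 = true := ex3_a k5_pm_102_a s112_pm_102_a

theorem s114_pm_102_a : ∃ t, chk3 f_pm_102_a t 10 15 1 = true := ex3_b k4_pm_102_a s113_pm_102_a

theorem s115_pm_102_a : ∃ t, chk3 f_pm_102_a t 10 7 1 = true := ex3_b k3_pm_102_a s114_pm_102_a

theorem s116_pm_102_a : ∃ t, chk3 f_pm_102_a t 5 7 1 = true := ex3_a s115_pm_102_a s110_pm_102_a

theorem s117_pm_102_a : ∃ t, chk3 f_pm_102_a t 5 3 1 = true := ex3_b k2_pm_102_a s116_pm_102_a

theorem s118_pm_102_a : ∃ t, chk3 f_pm_102_a t 2 3 1 = true := ex3_a k1_pm_102_a s117_pm_102_a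

theorem s119_pm_102_a : ∃ t, chk3 f_pm_102_a t 2 1 1 = true := ex3_b k0_pm_102_a s118_pm_102_a

theorem s120_pm_102_a : ∃ t, chk3 f_pm_102_a t 1 1 1 = true := ex3_a s119_pm_102_a s95_pm_102_a

theorem c_pm_102_a : CertB 536870912 536870912 0 536870912 740881858 40050571 3 eng mog cd0q1 cd2q2a pd0 false true false .npp 1 0 2
    ndB0q1 ndB2q2a pcB0 cut_pm_102_a xt_pm_102_a :=
  certB0 (fam := false) (s1 := true) (s2 := false) (a := 1) (b := 0) (c := 2) (cn := .npp) (n1 := ndB0q1) (n2 := ndB2q2a) (pc := pcB0) (cut := cut_pm_102_a) (xt := xt_pm_102_a) (P1 := 536870912) (W1 := 536870912) (P2 := 0) (W2 := 536870912) (P3 := 740881858) (W3 := 40050571) (N0 := 3) (En := eng) (mo := mog) (C1 := cd0q1) (C2 := cd2q2a) (C3 := pd0)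
    rfl s120_pm_102_a

noncomputable def cut_pm_102_b : Cut := Cut.of [[⟨0, 1, 0, 67108864⟩, ⟨1, 0, 0, 67108864⟩, ⟨2, 1, 0, 67108864⟩], [⟨0, 0, 1, 20971520⟩, ⟨1, 1, 2, 20971520⟩, ⟨2, 1, 0, 33554432⟩]]

noncomputable def f_pm_102_b : ℕ → ℕ → ℕ → ℕ → Bool := onCell 536870912 536870912 1239849684 370763052 740881858 40050571
    (rowB 3 eng mog cd0q1 cd2q2b pd0 0 false true false .npp 1 0 2 (qsf 536870912 536870912 1239849684 370763052 0) ndB0q1 ndB2q2b pcB0 cut_pm_102_b Ext.none)

def k0_pm_102_b : ∃ t, chk3 f_pm_102_b t 2 1 1 = true :=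
  ⟨(b (a (l 2) (b (a (b (b (b (a (b (l 16673592) (l 2)) (b (c (l 16675712) (l 16673632)) (l 16676144))) (a (l 2) (l 16676648))) (a (l 2) (l 16673928))) (l 2)) (b (b (b (a (b (c (l 16698512) (l 16695936)) (l 16696360)) (b (b (a (l 16713616) (l 16722800)) (l 16758480)) (l 16755952))) (a (l 16693832) (l 16750312))) (a (l 16686136) (a (l 16693776) (l 16697024)))) (a (l 16667048) (a (l 16669432) (l 16732640))))) (a (l 2) (a (l 2) (b (b (l 16645856) (l 2)) (l 2)))))) (l 2)), by decide +kernel⟩

def k1_pm_102_b : ∃ t, chk3 f_pm_102_b t 12 4 1 = true :=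
  ⟨(b (b (a (b (b (a (b (l 16730432) (l 16727888)) (b (b (l 16736096) (l 16734608)) (l 16732368))) (a (l 16723984) (l 16727880))) (a (l 16716000) (l 16718912))) (c (c (a (b (b (a (l 16737648) (b (l 16738272) (l 16735128))) (l 16731152)) (l 16721784)) (a (b (b (b (b (l 16736736) (l 16735152)) (l 16732768)) (l 16728008)) (l 16718504)) (b (c (b (b (b (a (l 16734360) (b (b (a (l 16733392) (l 16732296)) (l 16732464)) (l 16731864))) (a (l 16732768) (l 16730664))) (a (l 16730360) (l 16728256))) (l 16727152)) (b (b (a (l 16727800) (b (b (l 16729568) (l 16731416)) (l 16730232))) (l 16728912)) (l 16724192))) (l 16722712)))) (a (b (b (a (l 16735872) (b (l 16736752) (l 16733624))) (l 16729488)) (l 16720160)) (b (b (a (b (b (l 16735496) (l 16733936)) (l 16731600)) (b (b (a (l 16733080) (c (l 16731336) (l 16730656))) (l 16730616)) (l 16728312))) (a (l 16726936) (l 16723696))) (a (l 16717632) (l 16714472))))) (b (b (b (b (a (l 16735720) (a (l 16733784) (c (a (l 16732176) (l 16729568)) (l 16729648)))) (a (l 16734120) (a (l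 16732248) (l 16729280)))) (a (l 16731720) (a (l 16729936) (l 16727232)))) (a (l 16726936) (a (l 16725296) (l 16722720)))) (a (l 16738384) (a (l 16716024) (l 16713648)))))) (a (a (l 16699880) (l 16701240)) (a (b (l 16706984) (l 16694904)) (a (b (l 16704856) (l 16692728)) (b (l 16702072) (l 16689976)))))) (a (a (b (l 16678984) (l 16659296)) (b (l 16678664) (l 16657456))) (a (b (b (l 16683136) (l 16671680)) (c (l 16655936) (l 16652952))) (b (b (a (l 16680808) (l 16678032)) (l 16667832)) (b (l 16645936) (l 16645328)))))), by decide +kernel⟩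

def k2_pm_102_b : ∃ t, chk3 f_pm_102_b t 13 4 1 = true :=
  ⟨(b (a (c (b (c (a (b (a (a (a (b (b (b (b (b (c (b (l 16731152) (a (c (l 16730808) (l 16731144)) (l 3))) (l 95730702023)) (a (l 16730696) (l 169818888455))) (a (l 16730112) (l 117742409303))) (l 104857509335)) (l 104320635367)) (l 16726832)) (b (l 3) (l 131701040455))) (l 3)) (l 3)) (a (a (l 113984298631) (l 273434929703)) (l 3))) (l 3)) (a (a (b (a (a (b (b (b (b (l 97878185927) (l 16728432)) (l 16727368)) (l 16725256)) (l 16721032)) (b (l 3) (l 16719624))) (l 3)) (a (l 16722008) (l 116668643511))) (l 3)) (l 3))) (a (a (b (a (l 16699168) (l 120963596775)) (l 16685704)) (b (l 3) (l 158544535367))) (l 3))) (a (a (b (c (b (a (b (b (b (l 95730699831) (l 16730592)) (l 16723472)) (l 16719728)) (l 3)) (l 109689331879)) (b (a (b (b (b (l 91972601415) (l 16723800)) (l 16722232)) (l 16719088)) (l 3)) (l 105394363991))) (b (l 93583176711) (l 16686408))) (b (l 3) (b (l 3) (l 112373616823)))) (l 3))) (l 3)) (a (a (b (a (b (c (l 16673472) (l 16674464)) (c (l 16661392)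 (l 16662656))) (b (c (l 130627224279) (l 105394261079)) (c (l 16672104) (l 101636129079)))) (c (a (l 16643680) (l 132237792983)) (a (b (l 16651120) (l 16639896)) (b (l 115057899559) (l 16635976))))) (b (l 3) (a (b (l 3) (c (l 16626872) (l 140827677287))) (l 3)))) (l 3))), by decide +kernel⟩

def k3_pm_102_b : ∃ t, chk3 f_pm_102_b t 6 5 1 = true :=
  ⟨(a (b (a (a (b (l 16641256) (l 16624824)) (b (l 16637800) (l 16620120))) (b (a (l 16634392) (c (l 16628056) (l 16628632))) (a (c (l 16614968) (l 16613672)) (b (l 16614184) (l 16604576))))) (a (l 2) (a (b (l 16598264) (l 2)) (b (l 16591112) (l 16574968))))) (a (b (a (c (b (l 16628808) (l 16597168)) (b (a (l 16623704) (b (l 16624928) (l 16614224))) (b (l 16606176) (l 16595992)))) (b (a (c (l 107004788839) (c (l 138680206551) (b (l 129016503335) (l 129016480743)))) (l 3)) (b (c (a (l 16592776) (l 117742117927)) (c (l 138143270695) (a (l 131700813175) (l 158544322311)))) (c (l 83382352663) (a (l 16588312) (l 137606335543)))))) (a (b (b (l 16585688) (l 16576536)) (c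 (l 16562504) (l 16563456))) (a (b (c (l 16568624) (l 16573080)) (l 16553760)) (b (c (l 16561328) (c (l 16566224) (l 147806903927))) (c (l 16543680) (l 16547632)))))) (b (l 3) (a (a (b (l 3) (b (l 233169267287) (l 150491153255))) (l 3)) (l 3))))), by decide +kernel⟩

def k4_pm_102_b : ∃ t, chk3 f_pm_102_b t 7 2 1 = true :=
  ⟨(l 3), by decide +kernel⟩

def k5_pm_102_b : ∃ t, chk3 f_pm_102_b t 3 3 1 = true :=
  ⟨(a (b (a (l 2) (a (b (b (a (l 16548592) (a (l 16537720) (l 16529880))) (l 2)) (l 2)) (b (a (b (c (a (l 16519680) (l 3)) (l 162302365623)) (c (l 107541481479) (l 164449813191))) (l 3)) (b (a (l 2) (l 124184415431)) (l 2))))) (l 2)) (b (l 3) (a (a (l 2) (l 3)) (l 3)))), by decide +kernel⟩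

theorem s6_pm_102_b : ∃ t, chk3 f_pm_102_b t 6 4 1 = true := ex3_a k1_pm_102_b k2_pm_102_b

theorem s7_pm_102_b : ∃ t, chk3 f_pm_102_b t 6 2 1 = true := ex3_b s6_pm_102_b k3_pm_102_b

theorem s8_pm_102_b : ∃ t, chk3 f_pm_102_b t 3 2 1 = true := ex3_a s7_pm_102_b k4_pm_102_b

theorem s9_pm_102_b : ∃ t, chk3 f_pm_102_b t 3 1 1 = true := ex3_b s8_pm_102_b k5_pm_102_b

theorem s10_pm_102_b : ∃ t, chk3 f_pm_102_b t 1 1 1 = true := ex3_a k0_pm_102_b s9_pm_102_b

theorem c_pm_102_b : CertB 536870912 536870912 1239849684 370763052 740881858 40050571 3 eng mog cd0q1 cd2q2b pd0 false true false .npp 1 0 2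
    ndB0q1 ndB2q2b pcB0 cut_pm_102_b Ext.none :=
  certB0 (fam := false) (s1 := true) (s2 := false) (a := 1) (b := 0) (c := 2) (cn := .npp) (n1 := ndB0q1) (n2 := ndB2q2b) (pc := pcB0) (cut := cut_pm_102_b) (xt := Ext.none) (P1 := 536870912) (W1 := 536870912) (P2 := 1239849684) (W2 := 370763052) (P3 := 740881858) (W3 := 40050571) (N0 := 3) (En := eng) (mo := mog) (C1 := cd0q1) (C2 := cd2q2b) (C3 := pd0)
    rfl s10_pm_102_b

noncomputable def f_pm_112_a : ℕ → ℕ → ℕ → ℕ → Bool := onCell 536870912 536870912 0 536870912 740881858 40050571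
    (rowB 3 eng mog cd0q1 cd2q2a pd1 0 false true false .dn 1 1 2 (qsf 536870912 536870912 0 536870912 1) ndB0q1 ndB2q2a pcB1 Cut.none Ext.none)

def k0_pm_112_a : ∃ t, chk3 f_pm_112_a t 1 1 1 = true :=
  ⟨(a (b (a (b (a (b (a (l 16515896) (l 16550400)) (a (l 16492848) (l 16506088))) (b (a (l 16543912) (l 16560376)) (a (l 16518976) (l 16529856)))) (a (a (l 16481992) (l 16470344)) (b (l 16602688) (l 16466400)))) (a (b (b (a (b (l 16584512) (l 16568696)) (l 1)) (a (l 16543952) (l 1))) (a (b (l 16510808) (l 16474824)) (l 1))) (l 1))) (b (a (a (a (l 16358288) (l 16333920)) (b (l 16486472) (l 16336248))) (l 1)) (a (a (b (a (l 16314936) (l 16294912)) (a (b (l 16292592) (a (l 16280480) (l 16269056))) (l 304975205351))) (b (l 237329659143) (l 1))) (l 1)))) (l 1)), by decide +kernel⟩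

theorem c_pm_112_a : CertB 536870912 536870912 0 536870912 740881858 40050571 3 eng mog cd0q1 cd2q2a pd1 false true false .dn 1 1 2
    ndB0q1 ndB2q2a pcB1 Cut.none Ext.none :=
  certB0 (fam := false) (s1 := true) (s2 := false) (a := 1) (b := 1) (c := 2) (cn := .dn) (n1 := ndB0q1) (n2 := ndB2q2a) (pc := pcB1) (cut := Cut.none) (xt := Ext.none) (P1 := 536870912) (W1 := 536870912) (P2 := 0) (W2 := 536870912) (P3 := 740881858) (W3 := 40050571) (N0 := 3) (En := eng) (mo := mog) (C1 := cd0q1) (C2 := cd2q2a) (C3 := pd1)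
    rfl k0_pm_112_a

noncomputable def f_pm_112_b : ℕ → ℕ → ℕ → ℕ → Bool := onCell 536870912 536870912 1239849684 370763052 740881858 40050571
    (rowB 3 eng mog cd0q1 cd2q2b pd1 0 false true false .dn 1 1 2 (qsf 536870912 536870912 1239849684 370763052 1) ndB0q1 ndB2q2b pcB1 Cut.none Ext.none)

def k0_pm_112_b : ∃ t, chk3 f_pm_112_b t 2 1 1 = true :=
  ⟨(a (b (b (b (b (b (b (a (a (c (l 16529216) (l 16521304)) (l 16541304)) (a (l 16599864) (b (l 16575184) (l 16575000)))) (a (a (l 16522152) (l 16539056)) (l 16565496))) (a (a (l 16516880) (l 16535160)) (l 16563480))) (a (a (l 16504728) (l 16525680)) (l 16557576))) (a (a (l 16474896) (l 16501296)) (l 16602752))) (a (a (b (l 16425792) (l 16368424)) (b (l 16460328) (l 16413400))) (b (l 16507920) (l 16470232)))) (b (a (a (b (l 16305000) (l 16236016)) (b (l 16361680) (l 16304856))) (b (l 16429552) (l 16387056))) (a (a (b (l 16161856) (a (l 16058472) (l 16107008))) (b (l 16242832) (l 16177064))) (a (b (l 16314696) (l 16264736)) (b (l 16373240) (l 16336064)))))) (b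 (a (b (b (b (b (a (b (c (l 16595384) (l 16589776)) (l 16592648)) (b (c (l 232498412855) (l 293701684471)) (l 16608104))) (a (l 16592168) (l 16608176))) (a (l 16589160) (l 16606272))) (a (l 16576760) (l 16596080))) (b (a (l 16551680) (l 16574200)) (l 16702520))) (b (b (a (b (l 1) (l 16618872)) (l 1)) (a (l 16609768) (a (l 16617336) (b (l 1) (l 16617032))))) (b (a (l 16610744) (a (l 16597840) (b (l 16607184) (l 16595904)))) (a (l 16565944) (l 16576744))))) (a (b (a (l 16472472) (l 16506712)) (a (l 16411072) (l 16460992))) (b (a (l 16531344) (b (l 16555320) (l 16538528))) (a (l 16500568) (l 16527208)))))), by decide +kernel⟩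

def k1_pm_112_b : ∃ t, chk3 f_pm_112_b t 3 1 1 = true :=
  ⟨(b (a (b (l 1) (a (a (b (b (a (l 16609456) (l 1)) (a (l 16597136) (l 16599320))) (a (l 16579800) (l 16642936))) (b (a (a (b (l 1) (l 16600472)) (l 1)) (l 1)) (a (b (l 16586128) (l 16572856)) (b (l 16584088) (l 16569184))))) (a (b (l 1) (a (b (l 1) (c (l 16562216) (l 16559208))) (l 1))) (l 1)))) (l 1)) (a (b (a (a (b (a (l 16559208) (l 16557944)) (a (l 16543376) (l 16542944))) (b (a (l 16555816) (l 16550496)) (l 16599792))) (a (b (b (a (l 16546904) (c (l 52646489911) (l 16532720))) (a (l 16534680) (c (l 16520672) (l 16518064)))) (a (l 16520880) (b (l 16508600) (l 16500080)))) (b (a (b (a (c (l 220687058423) (l 361884127927)) (l 1)) (a (l 16507120) (l 105393978839))) (l 3)) (b (a (a (l 16494624) (l 93045933063)) (l 120963196631)) (a (l 16479608) (l 110762610919)))))) (a (a (b (l 16537904) (l 16543000)) (b (a (l 16534352) (l 16527000)) (a (l 16542712) (l 16535656)))) (a (b (a (l 16513056) (l 16493496)) (a (l 16521048) (l 16499304))) (b (a (l 16512344)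 (b (l 100562049591) (l 16443856))) (a (b (l 16470040) (l 16475920)) (b (l 16442104) (l 16445280))))))) (b (l 3) (a (a (b (l 3) (a (a (l 79624077991) (l 124721184439)) (l 3))) (l 3)) (l 3))))), by decide +kernel⟩

theorem s2_pm_112_b : ∃ t, chk3 f_pm_112_b t 1 1 1 = true := ex3_a k0_pm_112_b k1_pm_112_b

theorem c_pm_112_b : CertB 536870912 536870912 1239849684 370763052 740881858 40050571 3 eng mog cd0q1 cd2q2b pd1 false true false .dn 1 1 2
    ndB0q1 ndB2q2b pcB1 Cut.none Ext.none :=
  certB0 (fam := false) (s1 := true) (s2 := false) (a := 1) (b := 1) (c := 2) (cn := .dn) (n1 := ndB0q1) (n2 := ndB2q2b) (pc := pcB1) (cut := Cut.none) (xt := Ext.none) (P1 := 536870912) (W1 := 536870912) (P2 := 1239849684) (W2 := 370763052) (P3 := 740881858) (W3 := 40050571) (N0 := 3) (En := eng) (mo := mog) (C1 := cd0q1) (C2 := cd2q2b) (C3 := pd1)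
    rfl s2_pm_112_b

noncomputable def cut_pm_113 : Cut := Cut.of [[⟨0, 1, 0, 67108864⟩, ⟨1, 1, 0, 67108864⟩, ⟨2, 2, 0, 16777216⟩]]

noncomputable def f_pm_113 : ℕ → ℕ → ℕ → ℕ → Bool := onCell 536870912 536870912 536870912 536870912 740881858 40050571
    (rowB 3 eng mog cd0q1 cd2q3 pd1 1 false true false .nn 1 1 3 (qsf 536870912 536870912 1610612736 536870912 1) ndB0q1 ndB2q3 pcB1 cut_pm_113 Ext.none)

def k0_pm_113 : ∃ t, chk3 f_pm_113 t 1 2 1 = true :=
  ⟨(a (a (l 1) (b (l 1) (a (l 1) (b (l 1) (a (l 1) (l 16526256)))))) (a (b (b (l 1) (a (l 1) (a (l 1) (b (l 1) (l 16484584))))) (b (a (a (l 1) (b (l 1) (l 16550224))) (a (b (l 16529832) (l 16547968)) (b (l 16501696) (a (l 16536416) (l 16525040))))) (a (a (l 16548696) (b (l 16564136) (l 16584824))) (a (b (l 16575344) (l 16613016)) (b (l 16573944) (l 16632072)))))) (a (b (b (l 3) (a (a (b (l 1) (l 124184399511)) (l 3)) (l 3))) (b (a (b (a (l 79624160695) (c (l 157470387031) (l 226189753863))) (a (c (l 16530096) (l 16491216)) (b (l 135458728871) (l 16505320))))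 (l 3)) (a (b (a (l 16565248) (l 76939944871)) (a (l 16639440) (l 16638224))) (a (b (a (l 151027922967) (l 3)) (b (l 146196197015) (l 131163901991))) (l 3))))) (l 3)))), by decide +kernel⟩

def k1_pm_113 : ∃ t, chk3 f_pm_113 t 2 3 1 = true :=
  ⟨(a (b (a (l 1) (b (l 1) (a (l 1) (l 16342384)))) (a (b (a (l 1) (l 16202624)) (a (b (l 16087368) (l 16022728)) (b (l 16119560) (l 16060632)))) (b (a (l 16235528) (b (l 16290208) (l 16253712))) (a (b (l 16162136) (l 16109664)) (b (l 16215080) (l 16171872)))))) (b (a (b (a (l 1) (l 16451144)) (a (l 16371152) (l 16410888))) (b (a (l 16482736) (l 16522968)) (a (l 16463848) (l 16531336)))) (a (a (b (l 16314576) (a (l 16240656) (l 16274768))) (b (l 16372840) (l 16337240))) (a (b (l 16451344) (l 16445464)) (b (l 16552320) (l 16555936)))))), by decide +kernel⟩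

def k2_pm_113 : ∃ t, chk3 f_pm_113 t 3 6 1 = true :=
  ⟨(a (b (a (a (l 16571856) (l 16629312)) (a (b (l 16662064) (l 16723800)) (b (l 16707800) (l 16804008)))) (a (a (l 16615064) (l 16716664)) (a (l 16843240) (b (l 16924816) (l 16907464))))) (a (b (a (b (l 16744048) (l 16837824)) (b (a (a (l 16756848) (l 16756280)) (a (b (l 191830403639) (l 16747208)) (l 244443917927))) (a (l 16761384) (b (c (l 129553548599) (l 132237866759)) (a (l 16798960) (l 16775488)))))) (a (b (l 16860096) (l 16969600)) (b (a (l 16818512) (b (l 16793648) (l 16843120))) (a (l 16934832) (l 16798264))))) (a (b (b (l 3) (a (a (b (l 3) (l 136532883991)) (l 3)) (l 3))) (b (a (a (b (l 109152493911) (l 16808440)) (b (l 3) (l 150491533687))) (l 3)) (a (b (l 110226240775) (l 16827512)) (a (b (l 198273107559) (l 135996082295)) (l 3))))) (l 3)))), by decide +kernel⟩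

def k3_pm_113 : ∃ t, chk3 f_pm_113 t 3 7 1 = true :=
  ⟨(a (a (b (a (l 16680520) (l 16722344)) (a (l 16597776) (l 16632400))) (b (a (l 16765592) (b (l 16845424) (l 16792984))) (a (l 16675712) (b (l 16747088) (l 16706344))))) (b (a (a (b (l 16897272) (l 16836920)) (b (a (l 16941080) (l 16881128)) (a (l 16870464) (l 16890816)))) (a (b (a (b (l 16847752) (l 16887584)) (b (a (l 16839200) (l 248739069559)) (a (l 16858560) (l 139754197559)))) (a (b (l 16904864) (l 16885464)) (b (c (l 16800912) (l 16808264)) (l 16858760)))) (a (b (a (b (l 3) (l 301352440247)) (l 3)) (a (b (b (l 218137379479) (l 175724590135)) (c (l 16807896) (l 16815136))) (b (l 3) (b (l 381883097847) (l 440938908343))))) (l 3)))) (a (a (b (l 16789816) (l 16749384)) (b (l 16825512) (l 16781808))) (a (b (a (l 16841488) (b (l 16859640) (l 16832528))) (a (l 16793920) (l 16795960))) (a (a (b (b (l 16857144) (l 16834848)) (b (l 16809312) (l 16785512))) (b (b (b (l 220284873303) (l 184851403287)) (b (l 16838208) (l 16830080))) (b (l 16810608) (l 16786256))))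 (b (a (b (b (l 3) (l 489794126407)) (a (b (l 217063642695) (l 16791528)) (b (l 3) (a (l 215989896647) (l 3))))) (l 3)) (a (a (b (c (l 16814568) (l 16808616)) (l 16786936)) (b (b (c (l 221358601623) (l 171429621639)) (c (l 16806656) (l 16803592))) (c (l 16789288) (l 16795968)))) (b (a (a (b (c (l 546165537927) (l 445770685975)) (b (l 239075337015) (l 16785792))) (b (l 3) (c (b (l 3) (l 511805786183)) (l 413558395591)))) (l 3)) (b (b (a (a (l 16797168) (c (l 212768659879) (l 127406195863))) (c (l 554218569831) (l 548849864871))) (a (c (l 16792576) (l 16789584)) (a (a (b (l 297594260807) (l 6)) (l 6)) (l 3)))) (a (c (l 16783200) (l 16786120)) (l 6))))))))))), by decide +kernel⟩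

theorem s4_pm_113 : ∃ t, chk3 f_pm_113 t 3 3 1 = true := ex3_b k2_pm_113 k3_pm_113

theorem s5_pm_113 : ∃ t, chk3 f_pm_113 t 1 3 1 = true := ex3_a k1_pm_113 s4_pm_113

theorem s6_pm_113 : ∃ t, chk3 f_pm_113 t 1 1 1 = true := ex3_b k0_pm_113 s5_pm_113

theorem c_pm_113 : CertB 536870912 536870912 1610612736 536870912 740881858 40050571 3 eng mog cd0q1 cd2q3 pd1 false true false .nn 1 1 3
    ndB0q1 ndB2q3 pcB1 cut_pm_113 Ext.none :=
  certB1 (fam := false) (s1 := true) (s2 := false) (a := 1) (b := 1) (c := 3) (cn := .nn) (n1 := ndB0q1) (n2 := ndB2q3) (pc := pcB1) (cut := cut_pm_113) (xt := Ext.none) (P1 := 536870912) (W1 := 536870912) (P2 := 1610612736) (W2 := 536870912) (P3 := 740881858) (W3 := 40050571) (N0 := 3) (En := eng) (mo := mog) (C1 := cd0q1) (C2 := cd2q3) (C3 := pd1)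
    rfl (fun _ => rfl) s6_pm_113

noncomputable def cut_pm_123 : Cut := Cut.of [[⟨0, 1, 0, 67108864⟩, ⟨1, 1, 0, 67108864⟩, ⟨2, 2, 0, 16777216⟩]]

noncomputable def f_pm_123 : ℕ → ℕ → ℕ → ℕ → Bool := onCell 536870912 536870912 1073741824 536870912 740881858 40050571
    (rowB 3 eng mog cd0q1 cd2q3 pd2 1 false true false .npn 1 2 3 (qsf 536870912 536870912 1610612736 536870912 2) ndB0q1 ndB2q3 pcB2 cut_pm_123 Ext.none)

def k0_pm_123 : ∃ t, chk3 f_pm_123 t 2 1 1 = true :=
  ⟨(b (a (b (a (b (b (a (c (a (l 15976560) (l 15989576)) (a (l 15908176) (l 15919200))) (c (b (l 16013128) (l 16011896)) (b (l 15936216) (l 15941128)))) (a (c (a (l 15969272) (l 15984560)) (l 15919200)) (c (l 16010992) (l 15949128)))) (a (c (b (l 15972552) (l 15971224)) (l 15931560)) (b (l 15985440) (l 15992808)))) (b (c (b (a (b (l 16051992) (l 16053096)) (b (l 16103816) (l 16107240))) (a (l 16055704) (l 16113320))) (b (a (l 15973136) (l 16019144)) (l 16011632))) (b (a (l 16031416) (l 16089600)) (a (l 16043472) (l 16106416))))) (a (b (b (a (c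 (l 15972632) (l 15947248)) (l 16002848)) (a (l 16003352) (l 16049360))) (a (l 16104336) (l 16152608))) (b (b (c (l 16116512) (l 16074168)) (l 16146112)) (l 16246960)))) (b (a (a (b (b (b (a (l 16104872) (l 16141784)) (l 16130992)) (c (l 16187088) (l 16102456))) (b (l 16163032) (l 16182168))) (b (b (b (a (l 16186872) (l 16240616)) (l 16223184)) (b (l 16234072) (l 16245384))) (b (l 16244704) (l 16242032)))) (a (b (b (b (l 16336208) (l 16328224)) (b (l 16318456) (l 16310800))) (b (l 16302856) (l 16300104))) (b (b (b (a (l 16377176) (l 16400328)) (l 16357576)) (b (l 16369536) (l 16362176))) (b (l 16354008) (l 16351952))))) (b (a (b (c (l 16226432) (l 16206464)) (l 16289816)) (b (a (l 16316424) (l 16372888)) (l 16389568))) (a (l 16338656) (a (l 16445032) (l 16251208)))))) (a (b (a (b (l 16264232) (l 16390440)) (b (l 16372464) (l 16486336))) (a (b (l 16498168) (l 16588768)) (b (l 16588728) (l 16675384)))) (b (a (b (a (l 16448096) (l 16502424)) (l 16586720)) (b (b (l 16563048) (l 16617160)) (l 16840416))) (a (b (l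 16682096) (l 2)) (l 2))))), by decide +kernel⟩

def k1_pm_123 : ∃ t, chk3 f_pm_123 t 3 1 1 = true :=
  ⟨(b (a (b (b (a (b (a (c (l 16521040) (l 16416184)) (b (l 16466944) (l 16457168))) (a (b (l 16413216) (l 16406040)) (l 16508664))) (b (a (l 16545384) (l 16551112)) (a (l 16488856) (l 16538512)))) (a (a (b (l 16398512) (l 16398776)) (b (l 16437136) (l 16441632))) (a (b (l 16482968) (l 16492792)) (b (l 16536904) (b (l 16544632) (l 16566392)))))) (b (a (b (a (l 16426440) (l 16478616)) (a (l 16474280) (l 16532896))) (b (b (a (l 16527144) (l 16599520)) (b (l 16628008) (a (l 16564824) (l 16639760)))) (a (l 16603368) (l 16668904)))) (a (a (l 16563504) (l 16684368)) (a (l 16932424) (l 2))))) (b (b (a (a (b (l 16682576) (l 16759560)) (b (l 16722056) (b (l 16656672) (a (l 16641672) (l 16675704))))) (a (b (a (l 16698504) (b (l 16720632) (l 16721672))) (b (l 16733272) (l 310412131079))) (b (b (b (a (l 16763264) (a (b (l 16759296) (l 6)) (l 6))) (a (l 16758512) (a (l 6) (a (l 6) (l 2))))) (a (b (l 16745616) (l 16748392))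 (a (l 892379984263) (l 2)))) (a (a (l 758162570391) (l 2)) (l 2))))) (a (a (b (b (l 16595208) (l 16604064)) (l 16628888)) (b (b (l 16668560) (l 16682800)) (l 421007795463))) (a (b (a (l 16762792) (l 2)) (l 2)) (l 2)))) (a (b (b (b (a (l 16671248) (l 2)) (l 2)) (l 2)) (l 2)) (l 2)))) (a (b (a (b (a (l 16671576) (l 2)) (l 2)) (l 2)) (l 2)) (l 2))), by decide +kernel⟩

theorem s2_pm_123 : ∃ t, chk3 f_pm_123 t 1 1 1 = true := ex3_a k0_pm_123 k1_pm_123

theorem c_pm_123 : CertB 536870912 536870912 1610612736 536870912 740881858 40050571 3 eng mog cd0q1 cd2q3 pd2 false true false .npn 1 2 3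
    ndB0q1 ndB2q3 pcB2 cut_pm_123 Ext.none :=
  certB1 (fam := false) (s1 := true) (s2 := false) (a := 1) (b := 2) (c := 3) (cn := .npn) (n1 := ndB0q1) (n2 := ndB2q3) (pc := pcB2) (cut := cut_pm_123) (xt := Ext.none) (P1 := 536870912) (W1 := 536870912) (P2 := 1610612736) (W2 := 536870912) (P3 := 740881858) (W3 := 40050571) (N0 := 3) (En := eng) (mo := mog) (C1 := cd0q1) (C2 := cd2q3) (C3 := pd2)
    rfl (fun _ => rfl) s2_pm_123

noncomputable def f_pm_133 : ℕ → ℕ → ℕ → ℕ → Bool := onCell 536870912 536870912 1610612736 536870912 740881858 40050571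
    (rowB 3 eng mog cd0q1 cd2q3 pd3 0 false true false .dn 1 3 3 (qsf 536870912 536870912 1610612736 536870912 3) ndB0q1 ndB2q3 pcB3 Cut.none Ext.none)

def k0_pm_133 : ∃ t, chk3 f_pm_133 t 1 1 1 = true :=
  ⟨(a (b (l 1) (a (a (b (l 1) (b (l 1) (l 16615064))) (l 1)) (l 1))) (l 1)), by decide +kernel⟩

theorem c_pm_133 : CertB 536870912 536870912 1610612736 536870912 740881858 40050571 3 eng mog cd0q1 cd2q3 pd3 false true false .dn 1 3 3
    ndB0q1 ndB2q3 pcB3 Cut.none Ext.none :=
  certB0 (fam := false) (s1 := true) (s2 := false) (a := 1) (b := 3) (c := 3) (cn := .dn) (n1 := ndB0q1) (n2 := ndB2q3) (pc := pcB3) (cut := Cut.none) (xt := Ext.none) (P1 := 536870912) (W1 := 536870912) (P2 := 1610612736) (W2 := 536870912) (P3 := 740881858) (W3 := 40050571) (N0 := 3) (En := eng) (mo := mog) (C1 := cd0q1) (C2 := cd2q3) (C3 := pd3)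
    rfl k0_pm_133

noncomputable def cut_pm_202_a : Cut := Cut.of [[⟨0, 1, 0, 67108864⟩, ⟨1, 0, 0, 67108864⟩, ⟨2, 1, 0, 67108864⟩]]

noncomputable def f_pm_202_a : ℕ → ℕ → ℕ → ℕ → Bool := onCell 0 536870912 0 536870912 740881858 40050571
    (rowB 3 eng mog cd0q2 cd2q2a pd0 0 false true false .pp 2 0 2 (qsf 0 536870912 0 536870912 0) ndB0q2 ndB2q2a pcB0 cut_pm_202_a Ext.none)

def k0_pm_202_a : ∃ t, chk3 f_pm_202_a t 1 1 1 = true :=
  ⟨(a (l 3) (b (l 3) (a (l 3) (b (l 3) (a (l 3) (b (l 3) (l 6))))))), by decide +kernel⟩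

theorem c_pm_202_a : CertB 0 536870912 0 536870912 740881858 40050571 3 eng mog cd0q2 cd2q2a pd0 false true false .pp 2 0 2
    ndB0q2 ndB2q2a pcB0 cut_pm_202_a Ext.none :=
  certB0 (fam := false) (s1 := true) (s2 := false) (a := 2) (b := 0) (c := 2) (cn := .pp) (n1 := ndB0q2) (n2 := ndB2q2a) (pc := pcB0) (cut := cut_pm_202_a) (xt := Ext.none) (P1 := 0) (W1 := 536870912) (P2 := 0) (W2 := 536870912) (P3 := 740881858) (W3 := 40050571) (N0 := 3) (En := eng) (mo := mog) (C1 := cd0q2) (C2 := cd2q2a) (C3 := pd0)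
    rfl k0_pm_202_a

noncomputable def cut_pm_202_b : Cut := Cut.of [[⟨0, 1, 0, 67108864⟩, ⟨1, 0, 0, 67108864⟩, ⟨2, 1, 0, 67108864⟩]]

noncomputable def f_pm_202_b : ℕ → ℕ → ℕ → ℕ → Bool := onCell 0 536870912 1239849684 370763052 740881858 40050571
    (rowB 3 eng mog cd0q2 cd2q2b pd0 0 false true false .pp 2 0 2 (qsf 0 536870912 1239849684 370763052 0) ndB0q2 ndB2q2b pcB0 cut_pm_202_b Ext.none)

def k0_pm_202_b : ∃ t, chk3 f_pm_202_b t 1 1 1 = true :=
  ⟨(l 3), by decide +kernel⟩

theorem c_pm_202_b : CertB 0 536870912 1239849684 370763052 740881858 40050571 3 eng mog cd0q2 cd2q2b pd0 false true false .pp 2 0 2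
    ndB0q2 ndB2q2b pcB0 cut_pm_202_b Ext.none :=
  certB0 (fam := false) (s1 := true) (s2 := false) (a := 2) (b := 0) (c := 2) (cn := .pp) (n1 := ndB0q2) (n2 := ndB2q2b) (pc := pcB0) (cut := cut_pm_202_b) (xt := Ext.none) (P1 := 0) (W1 := 536870912) (P2 := 1239849684) (W2 := 370763052) (P3 := 740881858) (W3 := 40050571) (N0 := 3) (En := eng) (mo := mog) (C1 := cd0q2) (C2 := cd2q2b) (C3 := pd0)
    rfl k0_pm_202_b

noncomputable def f_pm_203 : ℕ → ℕ → ℕ → ℕ → Bool := onCell 0 536870912 0 536870912 740881858 40050571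
    (rowB 3 eng mog cd0q2 cd2q3 pd0 1 false true false .up 2 0 3 (qsf 0 536870912 1610612736 536870912 0) ndB0q2 ndB2q3 pcB0 Cut.none Ext.none)

def k0_pm_203 : ∃ t, chk3 f_pm_203 t 1 1 1 = true :=
  ⟨(l 3), by decide +kernel⟩

theorem c_pm_203 : CertB 0 536870912 1610612736 536870912 740881858 40050571 3 eng mog cd0q2 cd2q3 pd0 false true false .up 2 0 3
    ndB0q2 ndB2q3 pcB0 Cut.none Ext.none :=
  certB1 (fam := false) (s1 := true) (s2 := false) (a := 2) (b := 0) (c := 3) (cn := .up) (n1 := ndB0q2) (n2 := ndB2q3) (pc := pcB0) (cut := Cut.none) (xt := Ext.none) (P1 := 0) (W1 := 536870912) (P2 := 1610612736) (W2 := 536870912) (P3 := 740881858) (W3 := 40050571) (N0 := 3) (En := eng) (mo := mog) (C1 := cd0q2) (C2 := cd2q3) (C3 := pd0)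
    rfl (fun _ => rfl) k0_pm_203

noncomputable def cut_pm_213 : Cut := Cut.of [[⟨0, 1, 0, 67108864⟩, ⟨1, 1, 0, 67108864⟩, ⟨2, 2, 0, 16777216⟩]]

noncomputable def f_pm_213 : ℕ → ℕ → ℕ → ℕ → Bool := onCell 0 536870912 1610612736 536870912 740881858 40050571
    (rowB 3 eng mog cd0q2 cd2q3 pd1 0 false true false .pnn 2 1 3 (qsf 0 536870912 1610612736 536870912 1) ndB0q2 ndB2q3 pcB1 cut_pm_213 Ext.none)

def k0_pm_213 : ∃ t, chk3 f_pm_213 t 1 1 1 = true :=
  ⟨(b (l 3) (a (l 3) (b (l 3) (a (l 3) (b (l 3) (a (l 3) (a (l 3) (b (l 3) (b (l 3) (b (l 3) (l 6))))))))))), by decide +kernel⟩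

theorem c_pm_213 : CertB 0 536870912 1610612736 536870912 740881858 40050571 3 eng mog cd0q2 cd2q3 pd1 false true false .pnn 2 1 3
    ndB0q2 ndB2q3 pcB1 cut_pm_213 Ext.none :=
  certB0 (fam := false) (s1 := true) (s2 := false) (a := 2) (b := 1) (c := 3) (cn := .pnn) (n1 := ndB0q2) (n2 := ndB2q3) (pc := pcB1) (cut := cut_pm_213) (xt := Ext.none) (P1 := 0) (W1 := 536870912) (P2 := 1610612736) (W2 := 536870912) (P3 := 740881858) (W3 := 40050571) (N0 := 3) (En := eng) (mo := mog) (C1 := cd0q2) (C2 := cd2q3) (C3 := pd1)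
    rfl k0_pm_213

noncomputable def f_mm_001 : ℕ → ℕ → ℕ → ℕ → Bool := onCell 0 536870912 536870912 536870912 740881858 40050571
    (rowB 3 eng mog cd0q0 cd2q1 pd0 0 false false false .up 0 0 1 (qsf 0 536870912 536870912 536870912 0) ndB0q0 ndB2q1 pcB0 Cut.none Ext.none)

def k0_mm_001 : ∃ t, chk3 f_mm_001 t 1 1 1 = true :=
  ⟨(l 3), by decide +kernel⟩

theorem c_mm_001 : CertB 0 536870912 536870912 536870912 740881858 40050571 3 eng mog cd0q0 cd2q1 pd0 false false false .up 0 0 1
    ndB0q0 ndB2q1 pcB0 Cut.none Ext.none :=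
  certB0 (fam := false) (s1 := false) (s2 := false) (a := 0) (b := 0) (c := 1) (cn := .up) (n1 := ndB0q0) (n2 := ndB2q1) (pc := pcB0) (cut := Cut.none) (xt := Ext.none) (P1 := 0) (W1 := 536870912) (P2 := 536870912) (W2 := 536870912) (P3 := 740881858) (W3 := 40050571) (N0 := 3) (En := eng) (mo := mog) (C1 := cd0q0) (C2 := cd2q1) (C3 := pd0)
    rfl k0_mm_001

noncomputable def f_mm_011 : ℕ → ℕ → ℕ → ℕ → Bool := onCell 0 536870912 536870912 536870912 740881858 40050571
    (rowB 3 eng mog cd0q0 cd2q1 pd1 0 false false false .pnn 0 1 1 (qsf 0 536870912 536870912 536870912 1) ndB0q0 ndB2q1 pcB1 Cut.none Ext.none)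

def k0_mm_011 : ∃ t, chk3 f_mm_011 t 1 1 1 = true :=
  ⟨(l 3), by decide +kernel⟩

theorem c_mm_011 : CertB 0 536870912 536870912 536870912 740881858 40050571 3 eng mog cd0q0 cd2q1 pd1 false false false .pnn 0 1 1
    ndB0q0 ndB2q1 pcB1 Cut.none Ext.none :=
  certB0 (fam := false) (s1 := false) (s2 := false) (a := 0) (b := 1) (c := 1) (cn := .pnn) (n1 := ndB0q0) (n2 := ndB2q1) (pc := pcB1) (cut := Cut.none) (xt := Ext.none) (P1 := 0) (W1 := 536870912) (P2 := 536870912) (W2 := 536870912) (P3 := 740881858) (W3 := 40050571) (N0 := 3) (En := eng) (mo := mog) (C1 := cd0q0) (C2 := cd2q1) (C3 := pd1)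
    rfl k0_mm_011

noncomputable def f_mm_012_a : ℕ → ℕ → ℕ → ℕ → Bool := onCell 0 536870912 0 536870912 740881858 40050571
    (rowB 3 eng mog cd0q0 cd2q2a pd1 0 false false false .pnp 0 1 2 (qsf 0 536870912 0 536870912 1) ndB0q0 ndB2q2a pcB1 Cut.none Ext.none)

def k0_mm_012_a : ∃ t, chk3 f_mm_012_a t 1 1 1 = true :=
  ⟨(l 5), by decide +kernel⟩

theorem c_mm_012_a : CertB 0 536870912 0 536870912 740881858 40050571 3 eng mog cd0q0 cd2q2a pd1 false false false .pnp 0 1 2
    ndB0q0 ndB2q2a pcB1 Cut.none Ext.none :=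
  certB0 (fam := false) (s1 := false) (s2 := false) (a := 0) (b := 1) (c := 2) (cn := .pnp) (n1 := ndB0q0) (n2 := ndB2q2a) (pc := pcB1) (cut := Cut.none) (xt := Ext.none) (P1 := 0) (W1 := 536870912) (P2 := 0) (W2 := 536870912) (P3 := 740881858) (W3 := 40050571) (N0 := 3) (En := eng) (mo := mog) (C1 := cd0q0) (C2 := cd2q2a) (C3 := pd1)
    rfl k0_mm_012_a

noncomputable def f_mm_012_b : ℕ → ℕ → ℕ → ℕ → Bool := onCell 0 536870912 1239849684 370763052 740881858 40050571
    (rowB 3 eng mog cd0q0 cd2q2b pd1 0 false false false .pnp 0 1 2 (qsf 0 536870912 1239849684 370763052 1) ndB0q0 ndB2q2b pcB1 Cut.none Ext.none)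

def k0_mm_012_b : ∃ t, chk3 f_mm_012_b t 1 1 1 = true :=
  ⟨(l 5), by decide +kernel⟩

theorem c_mm_012_b : CertB 0 536870912 1239849684 370763052 740881858 40050571 3 eng mog cd0q0 cd2q2b pd1 false false false .pnp 0 1 2
    ndB0q0 ndB2q2b pcB1 Cut.none Ext.none :=
  certB0 (fam := false) (s1 := false) (s2 := false) (a := 0) (b := 1) (c := 2) (cn := .pnp) (n1 := ndB0q0) (n2 := ndB2q2b) (pc := pcB1) (cut := Cut.none) (xt := Ext.none) (P1 := 0) (W1 := 536870912) (P2 := 1239849684) (W2 := 370763052) (P3 := 740881858) (W3 := 40050571) (N0 := 3) (En := eng) (mo := mog) (C1 := cd0q0) (C2 := cd2q2b) (C3 := pd1)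
    rfl k0_mm_012_b

noncomputable def f_mm_022_a : ℕ → ℕ → ℕ → ℕ → Bool := onCell 0 536870912 0 536870912 740881858 40050571
    (rowB 3 eng mog cd0q0 cd2q2a pd2 0 false false false .pp 0 2 2 (qsf 0 536870912 0 536870912 2) ndB0q0 ndB2q2a pcB2 Cut.none Ext.none)

def k0_mm_022_a : ∃ t, chk3 f_mm_022_a t 1 1 1 = true :=
  ⟨(l 5), by decide +kernel⟩

theorem c_mm_022_a : CertB 0 536870912 0 536870912 740881858 40050571 3 eng mog cd0q0 cd2q2a pd2 false false false .pp 0 2 2
    ndB0q0 ndB2q2a pcB2 Cut.none Ext.none :=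
  certB0 (fam := false) (s1 := false) (s2 := false) (a := 0) (b := 2) (c := 2) (cn := .pp) (n1 := ndB0q0) (n2 := ndB2q2a) (pc := pcB2) (cut := Cut.none) (xt := Ext.none) (P1 := 0) (W1 := 536870912) (P2 := 0) (W2 := 536870912) (P3 := 740881858) (W3 := 40050571) (N0 := 3) (En := eng) (mo := mog) (C1 := cd0q0) (C2 := cd2q2a) (C3 := pd2)
    rfl k0_mm_022_a

noncomputable def f_mm_022_b : ℕ → ℕ → ℕ → ℕ → Bool := onCell 0 536870912 1239849684 370763052 740881858 40050571
    (rowB 3 eng mog cd0q0 cd2q2b pd2 0 false false false .pp 0 2 2 (qsf 0 536870912 1239849684 370763052 2) ndB0q0 ndB2q2b pcB2 Cut.none Ext.none)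

def k0_mm_022_b : ∃ t, chk3 f_mm_022_b t 1 1 1 = true :=
  ⟨(l 5), by decide +kernel⟩

theorem c_mm_022_b : CertB 0 536870912 1239849684 370763052 740881858 40050571 3 eng mog cd0q0 cd2q2b pd2 false false false .pp 0 2 2
    ndB0q0 ndB2q2b pcB2 Cut.none Ext.none :=
  certB0 (fam := false) (s1 := false) (s2 := false) (a := 0) (b := 2) (c := 2) (cn := .pp) (n1 := ndB0q0) (n2 := ndB2q2b) (pc := pcB2) (cut := Cut.none) (xt := Ext.none) (P1 := 0) (W1 := 536870912) (P2 := 1239849684) (W2 := 370763052) (P3 := 740881858) (W3 := 40050571) (N0 := 3) (En := eng) (mo := mog) (C1 := cd0q0) (C2 := cd2q2b) (C3 := pd2)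
    rfl k0_mm_022_b

noncomputable def f_mm_023 : ℕ → ℕ → ℕ → ℕ → Bool := onCell 0 536870912 1610612736 536870912 740881858 40050571
    (rowB 3 eng mog cd0q0 cd2q3 pd2 0 false false false .up 0 2 3 (qsf 0 536870912 1610612736 536870912 2) ndB0q0 ndB2q3 pcB2 Cut.none Ext.none)

def k0_mm_023 : ∃ t, chk3 f_mm_023 t 1 1 1 = true :=
  ⟨(l 5), by decide +kernel⟩

theorem c_mm_023 : CertB 0 536870912 1610612736 536870912 740881858 40050571 3 eng mog cd0q0 cd2q3 pd2 false false false .up 0 2 3
    ndB0q0 ndB2q3 pcB2 Cut.none Ext.none :=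
  certB0 (fam := false) (s1 := false) (s2 := false) (a := 0) (b := 2) (c := 3) (cn := .up) (n1 := ndB0q0) (n2 := ndB2q3) (pc := pcB2) (cut := Cut.none) (xt := Ext.none) (P1 := 0) (W1 := 536870912) (P2 := 1610612736) (W2 := 536870912) (P3 := 740881858) (W3 := 40050571) (N0 := 3) (En := eng) (mo := mog) (C1 := cd0q0) (C2 := cd2q3) (C3 := pd2)
    rfl k0_mm_023

noncomputable def f_mm_033 : ℕ → ℕ → ℕ → ℕ → Bool := onCell 0 536870912 1610612736 536870912 740881858 40050571
    (rowB 3 eng mog cd0q0 cd2q3 pd3 0 false false false .pnn 0 3 3 (qsf 0 536870912 1610612736 536870912 3) ndB0q0 ndB2q3 pcB3 Cut.none Ext.none)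

def k0_mm_033 : ∃ t, chk3 f_mm_033 t 1 1 1 = true :=
  ⟨(l 5), by decide +kernel⟩

theorem c_mm_033 : CertB 0 536870912 1610612736 536870912 740881858 40050571 3 eng mog cd0q0 cd2q3 pd3 false false false .pnn 0 3 3
    ndB0q0 ndB2q3 pcB3 Cut.none Ext.none :=
  certB0 (fam := false) (s1 := false) (s2 := false) (a := 0) (b := 3) (c := 3) (cn := .pnn) (n1 := ndB0q0) (n2 := ndB2q3) (pc := pcB3) (cut := Cut.none) (xt := Ext.none) (P1 := 0) (W1 := 536870912) (P2 := 1610612736) (W2 := 536870912) (P3 := 740881858) (W3 := 40050571) (N0 := 3) (En := eng) (mo := mog) (C1 := cd0q0) (C2 := cd2q3) (C3 := pd3)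
    rfl k0_mm_033

noncomputable def f_mm_101 : ℕ → ℕ → ℕ → ℕ → Bool := onCell 536870912 536870912 536870912 536870912 740881858 40050571
    (rowB 3 eng mog cd0q1 cd2q1 pd0 0 false false false .npn 1 0 1 (qsf 536870912 536870912 536870912 536870912 0) ndB0q1 ndB2q1 pcB0 Cut.none Ext.none)

def k0_mm_101 : ∃ t, chk3 f_mm_101 t 1 1 1 = true :=
  ⟨(l 3), by decide +kernel⟩

theorem c_mm_101 : CertB 536870912 536870912 536870912 536870912 740881858 40050571 3 eng mog cd0q1 cd2q1 pd0 false false false .npn 1 0 1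
    ndB0q1 ndB2q1 pcB0 Cut.none Ext.none :=
  certB0 (fam := false) (s1 := false) (s2 := false) (a := 1) (b := 0) (c := 1) (cn := .npn) (n1 := ndB0q1) (n2 := ndB2q1) (pc := pcB0) (cut := Cut.none) (xt := Ext.none) (P1 := 536870912) (W1 := 536870912) (P2 := 536870912) (W2 := 536870912) (P3 := 740881858) (W3 := 40050571) (N0 := 3) (En := eng) (mo := mog) (C1 := cd0q1) (C2 := cd2q1) (C3 := pd0)
    rfl k0_mm_101

noncomputable def f_mm_102_a : ℕ → ℕ → ℕ → ℕ → Bool := onCell 536870912 536870912 0 536870912 740881858 40050571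
    (rowB 3 eng mog cd0q1 cd2q2a pd0 0 false false false .npp 1 0 2 (qsf 536870912 536870912 0 536870912 0) ndB0q1 ndB2q2a pcB0 Cut.none Ext.none)

def k0_mm_102_a : ∃ t, chk3 f_mm_102_a t 1 1 1 = true :=
  ⟨(l 3), by decide +kernel⟩

theorem c_mm_102_a : CertB 536870912 536870912 0 536870912 740881858 40050571 3 eng mog cd0q1 cd2q2a pd0 false false false .npp 1 0 2
    ndB0q1 ndB2q2a pcB0 Cut.none Ext.none :=
  certB0 (fam := false) (s1 := false) (s2 := false) (a := 1) (b := 0) (c := 2) (cn := .npp) (n1 := ndB0q1) (n2 := ndB2q2a) (pc := pcB0) (cut := Cut.none) (xt := Ext.none) (P1 := 536870912) (W1 := 536870912) (P2 := 0) (W2 := 536870912) (P3 := 740881858) (W3 := 40050571) (N0 := 3) (En := eng) (mo := mog) (C1 := cd0q1) (C2 := cd2q2a) (C3 := pd0)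
    rfl k0_mm_102_a

noncomputable def f_mm_102_b : ℕ → ℕ → ℕ → ℕ → Bool := onCell 536870912 536870912 1239849684 370763052 740881858 40050571
    (rowB 3 eng mog cd0q1 cd2q2b pd0 0 false false false .npp 1 0 2 (qsf 536870912 536870912 1239849684 370763052 0) ndB0q1 ndB2q2b pcB0 Cut.none Ext.none)

def k0_mm_102_b : ∃ t, chk3 f_mm_102_b t 1 1 1 = true :=
  ⟨(l 5), by decide +kernel⟩

theorem c_mm_102_b : CertB 536870912 536870912 1239849684 370763052 740881858 40050571 3 eng mog cd0q1 cd2q2b pd0 false false false .npp 1 0 2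
    ndB0q1 ndB2q2b pcB0 Cut.none Ext.none :=
  certB0 (fam := false) (s1 := false) (s2 := false) (a := 1) (b := 0) (c := 2) (cn := .npp) (n1 := ndB0q1) (n2 := ndB2q2b) (pc := pcB0) (cut := Cut.none) (xt := Ext.none) (P1 := 536870912) (W1 := 536870912) (P2 := 1239849684) (W2 := 370763052) (P3 := 740881858) (W3 := 40050571) (N0 := 3) (En := eng) (mo := mog) (C1 := cd0q1) (C2 := cd2q2b) (C3 := pd0)
    rfl k0_mm_102_b

noncomputable def f_mm_112_a : ℕ → ℕ → ℕ → ℕ → Bool := onCell 536870912 536870912 0 536870912 740881858 40050571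
    (rowB 3 eng mog cd0q1 cd2q2a pd1 0 false false false .dn 1 1 2 (qsf 536870912 536870912 0 536870912 1) ndB0q1 ndB2q2a pcB1 Cut.none Ext.none)

def k0_mm_112_a : ∃ t, chk3 f_mm_112_a t 1 1 1 = true :=
  ⟨(l 3), by decide +kernel⟩

theorem c_mm_112_a : CertB 536870912 536870912 0 536870912 740881858 40050571 3 eng mog cd0q1 cd2q2a pd1 false false false .dn 1 1 2
    ndB0q1 ndB2q2a pcB1 Cut.none Ext.none :=
  certB0 (fam := false) (s1 := false) (s2 := false) (a := 1) (b := 1) (c := 2) (cn := .dn) (n1 := ndB0q1) (n2 := ndB2q2a) (pc := pcB1) (cut := Cut.none) (xt := Ext.none) (P1 := 536870912) (W1 := 536870912) (P2 := 0) (W2 := 536870912) (P3 := 740881858) (W3 := 40050571) (N0 := 3) (En := eng) (mo := mog) (C1 := cd0q1) (C2 := cd2q2a) (C3 := pd1)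
    rfl k0_mm_112_a

noncomputable def f_mm_112_b : ℕ → ℕ → ℕ → ℕ → Bool := onCell 536870912 536870912 1239849684 370763052 740881858 40050571
    (rowB 3 eng mog cd0q1 cd2q2b pd1 0 false false false .dn 1 1 2 (qsf 536870912 536870912 1239849684 370763052 1) ndB0q1 ndB2q2b pcB1 Cut.none Ext.none)

def k0_mm_112_b : ∃ t, chk3 f_mm_112_b t 1 1 1 = true :=
  ⟨(l 5), by decide +kernel⟩

theorem c_mm_112_b : CertB 536870912 536870912 1239849684 370763052 740881858 40050571 3 eng mog cd0q1 cd2q2b pd1 false false false .dn 1 1 2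
    ndB0q1 ndB2q2b pcB1 Cut.none Ext.none :=
  certB0 (fam := false) (s1 := false) (s2 := false) (a := 1) (b := 1) (c := 2) (cn := .dn) (n1 := ndB0q1) (n2 := ndB2q2b) (pc := pcB1) (cut := Cut.none) (xt := Ext.none) (P1 := 536870912) (W1 := 536870912) (P2 := 1239849684) (W2 := 370763052) (P3 := 740881858) (W3 := 40050571) (N0 := 3) (En := eng) (mo := mog) (C1 := cd0q1) (C2 := cd2q2b) (C3 := pd1)
    rfl k0_mm_112_b

noncomputable def f_mm_113 : ℕ → ℕ → ℕ → ℕ → Bool := onCell 536870912 536870912 1610612736 536870912 740881858 40050571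
    (rowB 3 eng mog cd0q1 cd2q3 pd1 0 false false false .nn 1 1 3 (qsf 536870912 536870912 1610612736 536870912 1) ndB0q1 ndB2q3 pcB1 Cut.none Ext.none)

def k0_mm_113 : ∃ t, chk3 f_mm_113 t 1 1 1 = true :=
  ⟨(l 5), by decide +kernel⟩

theorem c_mm_113 : CertB 536870912 536870912 1610612736 536870912 740881858 40050571 3 eng mog cd0q1 cd2q3 pd1 false false false .nn 1 1 3
    ndB0q1 ndB2q3 pcB1 Cut.none Ext.none :=
  certB0 (fam := false) (s1 := false) (s2 := false) (a := 1) (b := 1) (c := 3) (cn := .nn) (n1 := ndB0q1) (n2 := ndB2q3) (pc := pcB1) (cut := Cut.none) (xt := Ext.none) (P1 := 536870912) (W1 := 536870912) (P2 := 1610612736) (W2 := 536870912) (P3 := 740881858) (W3 := 40050571) (N0 := 3) (En := eng) (mo := mog) (C1 := cd0q1) (C2 := cd2q3) (C3 := pd1)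
    rfl k0_mm_113

noncomputable def f_mm_123 : ℕ → ℕ → ℕ → ℕ → Bool := onCell 536870912 536870912 1610612736 536870912 740881858 40050571
    (rowB 3 eng mog cd0q1 cd2q3 pd2 0 false false false .npn 1 2 3 (qsf 536870912 536870912 1610612736 536870912 2) ndB0q1 ndB2q3 pcB2 Cut.none Ext.none)

def k0_mm_123 : ∃ t, chk3 f_mm_123 t 1 1 1 = true :=
  ⟨(l 5), by decide +kernel⟩

theorem c_mm_123 : CertB 536870912 536870912 1610612736 536870912 740881858 40050571 3 eng mog cd0q1 cd2q3 pd2 false false false .npn 1 2 3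
    ndB0q1 ndB2q3 pcB2 Cut.none Ext.none :=
  certB0 (fam := false) (s1 := false) (s2 := false) (a := 1) (b := 2) (c := 3) (cn := .npn) (n1 := ndB0q1) (n2 := ndB2q3) (pc := pcB2) (cut := Cut.none) (xt := Ext.none) (P1 := 536870912) (W1 := 536870912) (P2 := 1610612736) (W2 := 536870912) (P3 := 740881858) (W3 := 40050571) (N0 := 3) (En := eng) (mo := mog) (C1 := cd0q1) (C2 := cd2q3) (C3 := pd2)
    rfl k0_mm_123

noncomputable def f_mm_133 : ℕ → ℕ → ℕ → ℕ → Bool := onCell 536870912 536870912 1610612736 536870912 740881858 40050571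
    (rowB 3 eng mog cd0q1 cd2q3 pd3 0 false false false .dn 1 3 3 (qsf 536870912 536870912 1610612736 536870912 3) ndB0q1 ndB2q3 pcB3 Cut.none Ext.none)

def k0_mm_133 : ∃ t, chk3 f_mm_133 t 1 1 1 = true :=
  ⟨(l 5), by decide +kernel⟩

theorem c_mm_133 : CertB 536870912 536870912 1610612736 536870912 740881858 40050571 3 eng mog cd0q1 cd2q3 pd3 false false false .dn 1 3 3
    ndB0q1 ndB2q3 pcB3 Cut.none Ext.none :=
  certB0 (fam := false) (s1 := false) (s2 := false) (a := 1) (b := 3) (c := 3) (cn := .dn) (n1 := ndB0q1) (n2 := ndB2q3) (pc := pcB3) (cut := Cut.none) (xt := Ext.none) (P1 := 536870912) (W1 := 536870912) (P2 := 1610612736) (W2 := 536870912) (P3 := 740881858) (W3 := 40050571) (N0 := 3) (En := eng) (mo := mog) (C1 := cd0q1) (C2 := cd2q3) (C3 := pd3)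
    rfl k0_mm_133

noncomputable def f_mm_202_a : ℕ → ℕ → ℕ → ℕ → Bool := onCell 0 536870912 0 536870912 740881858 40050571
    (rowB 3 eng mog cd0q2 cd2q2a pd0 0 false false false .pp 2 0 2 (qsf 0 536870912 0 536870912 0) ndB0q2 ndB2q2a pcB0 Cut.none Ext.none)

def k0_mm_202_a : ∃ t, chk3 f_mm_202_a t 1 1 1 = true :=
  ⟨(l 3), by decide +kernel⟩

theorem c_mm_202_a : CertB 0 536870912 0 536870912 740881858 40050571 3 eng mog cd0q2 cd2q2a pd0 false false false .pp 2 0 2
    ndB0q2 ndB2q2a pcB0 Cut.none Ext.none :=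
  certB0 (fam := false) (s1 := false) (s2 := false) (a := 2) (b := 0) (c := 2) (cn := .pp) (n1 := ndB0q2) (n2 := ndB2q2a) (pc := pcB0) (cut := Cut.none) (xt := Ext.none) (P1 := 0) (W1 := 536870912) (P2 := 0) (W2 := 536870912) (P3 := 740881858) (W3 := 40050571) (N0 := 3) (En := eng) (mo := mog) (C1 := cd0q2) (C2 := cd2q2a) (C3 := pd0)
    rfl k0_mm_202_a

noncomputable def f_mm_202_b : ℕ → ℕ → ℕ → ℕ → Bool := onCell 0 536870912 1239849684 370763052 740881858 40050571
    (rowB 3 eng mog cd0q2 cd2q2b pd0 0 false false false .pp 2 0 2 (qsf 0 536870912 1239849684 370763052 0) ndB0q2 ndB2q2b pcB0 Cut.none Ext.none)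

def k0_mm_202_b : ∃ t, chk3 f_mm_202_b t 1 1 1 = true :=
  ⟨(l 3), by decide +kernel⟩

theorem c_mm_202_b : CertB 0 536870912 1239849684 370763052 740881858 40050571 3 eng mog cd0q2 cd2q2b pd0 false false false .pp 2 0 2
    ndB0q2 ndB2q2b pcB0 Cut.none Ext.none :=
  certB0 (fam := false) (s1 := false) (s2 := false) (a := 2) (b := 0) (c := 2) (cn := .pp) (n1 := ndB0q2) (n2 := ndB2q2b) (pc := pcB0) (cut := Cut.none) (xt := Ext.none) (P1 := 0) (W1 := 536870912) (P2 := 1239849684) (W2 := 370763052) (P3 := 740881858) (W3 := 40050571) (N0 := 3) (En := eng) (mo := mog) (C1 := cd0q2) (C2 := cd2q2b) (C3 := pd0)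
    rfl k0_mm_202_b

noncomputable def f_mm_203 : ℕ → ℕ → ℕ → ℕ → Bool := onCell 0 536870912 0 536870912 740881858 40050571
    (rowB 3 eng mog cd0q2 cd2q3 pd0 1 false false false .up 2 0 3 (qsf 0 536870912 1610612736 536870912 0) ndB0q2 ndB2q3 pcB0 Cut.none Ext.none)

def k0_mm_203 : ∃ t, chk3 f_mm_203 t 1 1 1 = true :=
  ⟨(l 3), by decide +kernel⟩

theorem c_mm_203 : CertB 0 536870912 1610612736 536870912 740881858 40050571 3 eng mog cd0q2 cd2q3 pd0 false false false .up 2 0 3
    ndB0q2 ndB2q3 pcB0 Cut.none Ext.none :=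
  certB1 (fam := false) (s1 := false) (s2 := false) (a := 2) (b := 0) (c := 3) (cn := .up) (n1 := ndB0q2) (n2 := ndB2q3) (pc := pcB0) (cut := Cut.none) (xt := Ext.none) (P1 := 0) (W1 := 536870912) (P2 := 1610612736) (W2 := 536870912) (P3 := 740881858) (W3 := 40050571) (N0 := 3) (En := eng) (mo := mog) (C1 := cd0q2) (C2 := cd2q3) (C3 := pd0)
    rfl (fun _ => rfl) k0_mm_203

noncomputable def f_mm_213 : ℕ → ℕ → ℕ → ℕ → Bool := onCell 0 536870912 1610612736 536870912 740881858 40050571
    (rowB 3 eng mog cd0q2 cd2q3 pd1 0 false false false .pnn 2 1 3 (qsf 0 536870912 1610612736 536870912 1) ndB0q2 ndB2q3 pcB1 Cut.none Ext.none)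

def k0_mm_213 : ∃ t, chk3 f_mm_213 t 1 1 1 = true :=
  ⟨(a (l 3) (l 5)), by decide +kernel⟩

theorem c_mm_213 : CertB 0 536870912 1610612736 536870912 740881858 40050571 3 eng mog cd0q2 cd2q3 pd1 false false false .pnn 2 1 3
    ndB0q2 ndB2q3 pcB1 Cut.none Ext.none :=
  certB0 (fam := false) (s1 := false) (s2 := false) (a := 2) (b := 1) (c := 3) (cn := .pnn) (n1 := ndB0q2) (n2 := ndB2q3) (pc := pcB1) (cut := Cut.none) (xt := Ext.none) (P1 := 0) (W1 := 536870912) (P2 := 1610612736) (W2 := 536870912) (P3 := 740881858) (W3 := 40050571) (N0 := 3) (En := eng) (mo := mog) (C1 := cd0q2) (C2 := cd2q3) (C3 := pd1)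
    rfl k0_mm_213

end Pool.Agent.Strip051.G.I69_7273.Tab.C.BB02

namespace Pool.Agent.Strip051.G.I69_7273.Tab.C.BB03

open Pool.Agent.Strip051.PB Pool.Agent.Strip051.PB.T
open Pool.Agent.Strip051.G.I69_7273.Tab

noncomputable def f_pp_001 : ℕ → ℕ → ℕ → ℕ → Bool := onCell 0 536870912 0 536870912 740881858 40050571
    (rowB 3 eng mog cd0q0 cd3q1 pd0 1 false true true .up 0 0 1 (qsf 0 536870912 536870912 536870912 0) ndB0q0 ndB3q1 pcB0 Cut.none Ext.none)

def k0_pp_001 : ∃ t, chk3 f_pp_001 t 1 1 1 = true :=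
  ⟨(l 3), by decide +kernel⟩

theorem c_pp_001 : CertB 0 536870912 536870912 536870912 740881858 40050571 3 eng mog cd0q0 cd3q1 pd0 false true true .up 0 0 1
    ndB0q0 ndB3q1 pcB0 Cut.none Ext.none :=
  certB1 (fam := false) (s1 := true) (s2 := true) (a := 0) (b := 0) (c := 1) (cn := .up) (n1 := ndB0q0) (n2 := ndB3q1) (pc := pcB0) (cut := Cut.none) (xt := Ext.none) (P1 := 0) (W1 := 536870912) (P2 := 536870912) (W2 := 536870912) (P3 := 740881858) (W3 := 40050571) (N0 := 3) (En := eng) (mo := mog) (C1 := cd0q0) (C2 := cd3q1) (C3 := pd0)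
    rfl (fun _ => rfl) k0_pp_001

noncomputable def cut_pp_011 : Cut := Cut.of [[⟨0, 0, 0, 67108864⟩, ⟨1, 1, 0, 67108864⟩, ⟨2, 1, 0, 67108864⟩]]

noncomputable def f_pp_011 : ℕ → ℕ → ℕ → ℕ → Bool := onCell 0 536870912 536870912 536870912 740881858 40050571
    (rowB 3 eng mog cd0q0 cd3q1 pd1 1 false true true .pnn 0 1 1 (qsf 0 536870912 536870912 536870912 1) ndB0q0 ndB3q1 pcB1 cut_pp_011 Ext.none)

def k0_pp_011 : ∃ t, chk3 f_pp_011 t 1 1 1 = true :=
  ⟨(b (l 3) (a (b (l 3) (a (b (l 3) (a (b (l 3) (a (l 6) (l 3))) (l 3))) (l 3))) (l 3))), by decide +kernel⟩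

theorem c_pp_011 : CertB 0 536870912 536870912 536870912 740881858 40050571 3 eng mog cd0q0 cd3q1 pd1 false true true .pnn 0 1 1
    ndB0q0 ndB3q1 pcB1 cut_pp_011 Ext.none :=
  certB1 (fam := false) (s1 := true) (s2 := true) (a := 0) (b := 1) (c := 1) (cn := .pnn) (n1 := ndB0q0) (n2 := ndB3q1) (pc := pcB1) (cut := cut_pp_011) (xt := Ext.none) (P1 := 0) (W1 := 536870912) (P2 := 536870912) (W2 := 536870912) (P3 := 740881858) (W3 := 40050571) (N0 := 3) (En := eng) (mo := mog) (C1 := cd0q0) (C2 := cd3q1) (C3 := pd1)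
    rfl (fun _ => rfl) k0_pp_011

noncomputable def f_pp_012 : ℕ → ℕ → ℕ → ℕ → Bool := onCell 0 536870912 536870912 536870912 740881858 40050571
    (rowB 3 eng mog cd0q0 cd3q2 pd1 1 false true true .pnp 0 1 2 (qsf 0 536870912 1073741824 536870912 1) ndB0q0 ndB3q2 pcB1 Cut.none Ext.none)

def k0_pp_012 : ∃ t, chk3 f_pp_012 t 1 1 1 = true :=
  ⟨(l 3), by decide +kernel⟩

theorem c_pp_012 : CertB 0 536870912 1073741824 536870912 740881858 40050571 3 eng mog cd0q0 cd3q2 pd1 false true true .pnp 0 1 2
    ndB0q0 ndB3q2 pcB1 Cut.none Ext.none :=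
  certB1 (fam := false) (s1 := true) (s2 := true) (a := 0) (b := 1) (c := 2) (cn := .pnp) (n1 := ndB0q0) (n2 := ndB3q2) (pc := pcB1) (cut := Cut.none) (xt := Ext.none) (P1 := 0) (W1 := 536870912) (P2 := 1073741824) (W2 := 536870912) (P3 := 740881858) (W3 := 40050571) (N0 := 3) (En := eng) (mo := mog) (C1 := cd0q0) (C2 := cd3q2) (C3 := pd1)
    rfl (fun _ => rfl) k0_pp_012

noncomputable def f_pp_022 : ℕ → ℕ → ℕ → ℕ → Bool := onCell 0 536870912 1073741824 536870912 740881858 40050571
    (rowB 3 eng mog cd0q0 cd3q2 pd2 1 false true true .pp 0 2 2 (qsf 0 536870912 1073741824 536870912 2) ndB0q0 ndB3q2 pcB2 Cut.none Ext.none)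

def k0_pp_022 : ∃ t, chk3 f_pp_022 t 2 8 1 = true :=
  ⟨(l 3), by decide +kernel⟩

def k1_pp_022 : ∃ t, chk3 f_pp_022 t 2 18 1 = true :=
  ⟨(b (l 3) (b (a (l 3) (a (a (l 3) (a (l 3) (c (l 16527368) (l 16510400)))) (a (a (c (l 16525808) (l 16510528)) (l 16517088)) (l 16513096)))) (a (b (a (l 3) (a (l 3) (a (l 3) (l 16504344)))) (a (a (l 3) (a (l 16523832) (a (l 16516960) (l 16512432)))) (a (a (a (l 16508672) (l 16505776)) (l 16501520)) (a (l 16496768) (l 16493816))))) (a (a (a (c (l 16505912) (l 16489336)) (c (l 16508192) (l 16490008))) (a (c (l 16511112) (l 16491864)) (c (l 16512768) (l 16493616)))) (a (c (l 16511160) (l 16496712)) (l 16502904)))))), by decide +kernel⟩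

def k2_pp_022 : ∃ t, chk3 f_pp_022 t 2 19 1 = true :=
  ⟨(a (a (b (b (a (a (b (a (l 16520080) (l 16543960)) (c (l 16557416) (l 16524872))) (b (l 16539088) (l 16502000))) (a (b (l 16509256) (l 16493912)) (c (l 16538768) (l 16490648)))) (a (a (c (b (l 16542600) (l 16506272)) (a (b (l 16483880) (l 16468416)) (l 16474656))) (b (l 16485968) (l 16470376))) (a (b (l 16478784) (a (l 16465600) (l 16462520))) (b (a (l 16473808) (l 16471640)) (a (l 16460240) (l 16458832)))))) (b (a (a (c (b (l 16470120) (l 16455296)) (b (l 16452072) (l 16437024))) (c (l 16455520) (l 16441648))) (a (c (a (l 16450312) (l 16448168)) (l 16438480)) (c (l 16447696) (l 16434920)))) (a (a (c (a (l 16434512) (l 16431624)) (l 16435360)) (a (l 16421128) (a (l 16419760) (l 16439840)))) (a (a (c (l 16424568) (l 16411568)) (l 16417616)) (c (l 16425736) (l 16408576)))))) (b (b (a (a (c (l 16492032) (l 16483952)) (l 16504280)) (a (l 16500552) (l 16519656))) (a (a (b (l 16468944) (l 16456776)) (b (l 16465376) (l 16454016))) (a (b (l 16462784) (l 16452136))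 (c (l 16467304) (l 16445960))))) (a (a (b (l 16439544) (l 16416736)) (b (l 16437696) (l 16437096))) (a (b (l 16436728) (l 16416376)) (c (l 16440584) (l 16435064)))))) (a (b (a (b (a (l 16499128) (l 16523184)) (a (c (l 16470040) (l 16446728)) (l 16484512))) (b (a (c (l 16495720) (l 16473328)) (l 16530712)) (a (l 16469088) (l 16473904)))) (a (a (c (l 16445016) (l 16416888)) (b (l 16467504) (l 16429928))) (a (b (l 16453368) (l 16438080)) (l 16452448)))) (b (a (b (a (l 16491144) (l 16492184)) (l 16478888)) (b (l 16492768) (l 16482704))) (a (a (l 16458176) (l 16462584)) (l 16468112))))), by decide +kernel⟩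

def k3_pp_022 : ∃ t, chk3 f_pp_022 t 3 4 1 = true :=
  ⟨(b (a (l 3) (l 3)) (a (b (a (b (a (l 3) (l 76939963575)) (a (b (l 16507240) (l 16500568)) (b (l 16498712) (l 16495440)))) (b (a (l 104320296871) (l 16534448)) (a (l 16533072) (l 16513320)))) (a (b (a (b (l 16493336) (l 16486064)) (l 16488896)) (a (l 16475256) (l 16479400))) (b (a (l 16482712) (l 16474104)) (a (l 16476984) (l 16470544))))) (b (a (b (a (l 117205137991) (l 130089992999)) (a (b (l 16455736) (l 16459096)) (l 16526368))) (b (a (l 141901107751) (l 2)) (l 2))) (a (b (a (l 16464504) (l 16452224)) (l 16457840)) (l 2))))), by decide +kernel⟩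

def k4_pp_022 : ∃ t, chk3 f_pp_022 t 4 40 1 = true :=
  ⟨(a (a (b (a (c (a (l 16404552) (l 16402496)) (a (l 16384240) (l 16384256))) (c (a (l 16400520) (l 16399720)) (b (l 16391344) (l 16377008)))) (a (b (c (l 16381624) (l 16361856)) (a (c (l 16367728) (l 16346592)) (a (l 16357232) (c (l 16366544) (l 16347824))))) (a (b (c (l 16380056) (l 16362664)) (c (a (l 16366800) (l 16367864)) (l 16348424))) (b (l 16372152) (c (l 16369744) (l 16349064)))))) (b (a (c (l 16401304) (l 16383408)) (c (l 16403872) (l 16382440))) (a (b (c (l 16384208) (l 16362984)) (c (a (l 16372152) (l 16374480)) (a (l 16349720) (l 16350400)))) (b (c (l 16387696) (l 16363144)) (c (l 16377840) (l 16351520)))))) (a (b (a (c (l 16406056) (l 16381488)) (c (l 16407968) (l 16380664))) (a (c (b (l 16390832) (l 16381928)) (b (l 16363352) (l 16352976))) (c (l 16389752) (b (l 16363792) (l 16354480))))) (b (a (c (l 16410528) (l 16380896)) (c (l 16414672) (l 16383168))) (a (c (l 16393632) (l 16361104)) (c (l 16398992) (l 16364992)))))), by decide +kernel⟩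

def k5_pp_022 : ∃ t, chk3 f_pp_022 t 4 41 1 = true :=
  ⟨(b (a (a (a (b (a (c (b (l 16357408) (l 16352096)) (b (l 16336144) (l 16331168))) (c (c (l 16380856) (l 16350176)) (l 16356424))) (c (a (b (l 16347072) (l 16342248)) (a (l 16345440) (l 16346936))) (a (b (l 16326560) (l 16322168)) (l 16326264)))) (b (c (a (l 16357432) (l 16360464)) (l 16358576)) (c (l 16350960) (l 16328544)))) (a (c (b (l 16364680) (l 16356864)) (b (l 16340096) (l 16331304))) (c (l 16366000) (b (l 16342312) (l 16333784))))) (a (a (c (l 16370544) (l 16340224)) (c (l 16374584) (l 16342160))) (a (c (l 16379072) (l 16344928)) (c (l 16384904) (l 16349552))))) (a (a (a (c (b (a (b (l 16337808) (l 16333880)) (l 16338744)) (b (a (c (b (l 16336152) (a (l 16334120) (l 16335936))) (l 16326264)) (l 16334368)) (a (b (b (b (l 16330000) (a (b (l 16329440) (l 16329840)) (l 16331352))) (l 16330184)) (l 16328120)) (b (c (l 16338160) (l 16328032)) (l 16331520))))) (b (a (l 16316328) (l 16318128)) (b (a (b (l 16312064) (l 16311232)) (l 16313600)) (b (a (a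 (c (l 16336136) (l 16306104)) (l 16332408)) (l 16312616)) (l 16310240))))) (b (c (l 16343680) (l 16320512)) (b (c (l 16339248) (l 16315952)) (b (c (l 16353616) (l 16314848)) (l 16324928))))) (b (a (c (l 16349680) (l 16323440)) (c (l 16355032) (l 16326096))) (b (a (c (l 16345192) (l 16318840)) (c (l 16350496) (l 16321464))) (a (c (l 16342448) (l 16316192)) (c (l 16347688) (l 16318744)))))) (a (b (a (l 16344688) (l 16348080)) (b (a (l 16340080) (l 16343448)) (a (l 16337256) (l 16340568)))) (b (a (l 16352096) (l 16357720)) (b (a (l 16347456) (l 16353072)) (a (l 16344520) (l 16350096))))))), by decide +kernel⟩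

def k6_pp_022 : ∃ t, chk3 f_pp_022 t 4 21 1 = true :=
  ⟨(a (a (a (b (c (a (b (c (l 16320920) (l 16310832)) (c (l 16300312) (l 16288936))) (b (l 16319576) (l 16298864))) (b (c (l 16301920) (l 16291256)) (a (c (l 16277448) (l 16265840)) (l 16274168)))) (c (a (b (c (l 16280368) (l 16267736)) (c (l 16261072) (l 16247216))) (c (l 16275944) (l 16262024))) (a (b (c (l 16254896) (l 16241856)) (c (l 16233056) (l 16218592))) (b (l 16251488) (l 16229520))))) (b (c (a (l 16312920) (l 16316528)) (b (l 16300272) (l 16277760))) (c (a (l 16273832) (l 16278440)) (c (l 16253224) (l 16237200))))) (c (a (b (l 16321616) (l 16285008)) (b (l 16327848) (l 16293160))) (a (b (l 16292880) (l 16251464)) (b (l 16296544) (l 16257296))))) (a (c (a (l 16316776) (l 16406504)) (a (b (l 16299952) (l 16262808)) (b (l 16303200) (l 16268464)))) (c (b (l 16346296) (l 16316544)) (a (l 16312744) (l 16300520))))), by decide +kernel⟩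

def k7_pp_022 : ∃ t, chk3 f_pp_022 t 5 10 1 = true :=
  ⟨(b (b (a (a (b (a (c (l 16420872) (l 16388144)) (c (l 16428432) (l 16397464))) (a (l 16410760) (l 16399288))) (b (l 16448784) (l 16414504))) (a (b (l 16442616) (l 16430656)) (l 16447712))) (a (b (a (a (l 16417544) (l 16385640)) (l 16401648)) (a (b (l 16370528) (b (l 16365872) (l 16362832))) (b (l 16392224) (l 16386008)))) (b (a (l 16418856) (l 16431688)) (b (a (l 16410000) (l 16423392)) (a (l 16403792) (l 16417200)))))) (a (a (c (l 16347600) (l 16319032)) (l 16464104)) (a (l 16380688) (l 16397656)))), by decide +kernel⟩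

def k8_pp_022 : ∃ t, chk3 f_pp_022 t 2 22 1 = true :=
  ⟨(a (a (a (a (c (b (a (c (b (l 16242440) (l 16224448)) (b (l 16227376) (l 16208216))) (c (l 16239616) (l 16223368))) (a (c (b (l 16207104) (l 16190400)) (b (l 16189728) (l 16171912))) (c (l 16205832) (l 16187368)))) (b (a (b (c (l 16211920) (l 16196064)) (c (l 16191488) (l 16174264))) (b (l 16208264) (l 16187712))) (c (a (b (l 16171760) (l 16152728)) (l 16168120)) (a (b (l 16153192) (l 16132848)) (l 16148096))))) (c (b (c (l 16248568) (l 16231496)) (c (l 16216112) (l 16196936))) (b (c (l 16213648) (l 16195008)) (c (l 16176776) (l 16155624))))) (c (a (b (l 16250872) (l 16219192)) (b (l 16260872) (l 16230672))) (a (b (l 16212752) (l 16176720)) (b (l 16220672) (l 16186992))))) (a (c (a (l 16296680) (l 16262848)) (a (b (l 16228560) (l 16198000)) (b (l 16237392) (l 16209456)))) (c (l 16275544) (l 16282392)))) (a (a (c (l 16299312) (l 16270512)) (l 16317640)) (a (l 16345952) (l 16369560)))), by decide +kernel⟩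

def k9_pp_022 : ∃ t, chk3 f_pp_022 t 2 23 1 = true :=
  ⟨(a (b (a (a (a (c (a (c (b (l 16174328) (l 16158880)) (b (l 16154768) (l 16138280))) (c (l 16174536) (l 16154000))) (c (a (b (l 16134400) (l 16116760)) (l 16132464)) (a (b (l 16113232) (l 16094328)) (l 16109928)))) (c (c (l 16186088) (l 16164944)) (c (l 16142600) (l 16119048)))) (c (a (l 16189664) (l 16201920)) (a (c (l 16155712) (l 16131320)) (l 16157016)))) (a (a (l 16192272) (l 16203856)) (l 16222424))) (a (a (a (c (a (c (b (l 16144056) (l 16129848)) (b (l 16122456) (l 16107280))) (c (l 16145704) (l 16123232))) (a (b (c (l 16099816) (l 16076152)) (c (l 16083568) (l 16058696))) (c (l 16099544) (l 16074616)))) (c (c (l 16158088) (l 16135352)) (c (l 16111240) (a (l 16081824) (l 16089416))))) (a (c (l 16161680) (l 16114384)) (l 16153184))) (a (a (l 16166976) (l 16180184)) (l 16201112)))) (a (a (l 16307544) (l 16283480)) (a (l 16317920) (l 16347424)))), by decide +kernel⟩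

def k10_pp_022 : ∃ t, chk3 f_pp_022 t 3 5 1 = true :=
  ⟨(b (a (b (b (a (a (l 16457760) (l 16464360)) (l 16441088)) (a (b (l 16510840) (b (l 16440472) (a (l 16429520) (l 16438368)))) (b (l 16451744) (a (b (l 16446152) (l 16439992)) (l 16565432))))) (a (a (l 16413528) (l 16425896)) (a (l 16430736) (l 16431008)))) (b (b (a (l 16450120) (l 2)) (l 2)) (l 2))) (a (a (a (b (l 16392048) (l 16375712)) (b (l 16410904) (l 16400224))) (a (l 16586096) (l 2))) (l 2))), by decide +kernel⟩

def k11_pp_022 : ∃ t, chk3 f_pp_022 t 4 6 1 = true :=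
  ⟨(b (b (b (a (a (a (c (a (b (c (l 16116248) (l 16092760)) (a (l 16088784) (l 16093616))) (c (l 16118824) (l 16094864))) (a (b (l 16076112) (a (l 16037472) (l 16042000))) (c (l 16069512) (l 16042768)))) (b (c (l 16126456) (l 16076800)) (l 16089016))) (c (l 16143256) (l 16118000))) (a (l 16193304) (l 16181944))) (a (a (a (b (a (c (c (l 16090240) (l 16065400)) (c (l 16039160) (l 16011520))) (l 16083152)) (c (l 16069992) (l 16017720))) (c (l 16115672) (l 16065656))) (a (b (l 16094480) (l 16083224)) (l 16106464))) (a (l 16215320) (l 16164872)))) (a (a (a (b (b (c (l 16057976) (l 16005424)) (c (l 16046632) (l 15993736))) (c (a (l 16046264) (l 16036360)) (a (l 15992280) (l 15983320)))) (b (c (l 16072296) (l 16021600)) (c (l 16052488) (l 16000864)))) (a (b (l 16067464) (l 16048544)) (l 16140504))) (a (a (l 16096600) (l 16114872)) (l 16143144)))) (a (a (b (a (a (b (c (l 16006184) (l 15951176)) (c (l 15989688) (l 15933400))) (b (c (l 16018000) (l 15963872)) (l 15995696))) (b (c (l 16035216) (l 15982424)) (l 15993528)))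 (a (b (c (l 15982368) (l 15924920)) (c (l 15971256) (l 15911968))) (b (l 15980280) (l 15969304)))) (b (a (b (l 16031952) (l 16017664)) (l 16047040)) (a (l 16000424) (l 16025264)))) (a (b (l 16141880) (l 16060528)) (b (l 16121208) (l 16106976))))), by decide +kernel⟩

def k12_pp_022 : ∃ t, chk3 f_pp_022 t 4 7 1 = true :=
  ⟨(a (b (c (a (b (a (b (l 15962584) (l 15956304)) (l 15987736)) (a (b (l 15952352) (l 15950664)) (l 15981696))) (b (l 16028224) (l 16024856))) (a (b (a (b (l 15901168) (l 15892464)) (l 15926568)) (a (l 15904152) (l 15914976))) (b (l 15969400) (l 15960368)))) (a (b (a (b (l 15956160) (l 15914896)) (l 15946896)) (a (b (l 15917456) (l 15921816)) (l 15953216))) (b (l 15993248) (l 16001288)))) (b (a (b (l 16049984) (l 16046872)) (b (l 16100048) (l 16099968))) (a (b (l 16050680) (l 2)) (l 2)))), by decide +kernel⟩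

def k13_pp_022 : ∃ t, chk3 f_pp_022 t 5 3 1 = true :=
  ⟨(b (b (b (a (a (l 16275000) (l 16256608)) (a (l 16296496) (l 16331200))) (a (a (l 16187280) (l 16236824)) (l 16343736))) (a (a (b (l 16169920) (l 16159664)) (l 16219752)) (a (l 16270376) (l 2)))) (a (b (a (l 16156648) (l 2)) (l 2)) (l 2))), by decide +kernel⟩

def k14_pp_022 : ∃ t, chk3 f_pp_022 t 3 3 1 = true :=
  ⟨(b (a (a (b (b (l 16442504) (l 2)) (l 2)) (l 2)) (l 2)) (l 2)), by decide +kernel⟩

theorem s15_pp_022 : ∃ t, chk3 f_pp_022 t 4 3 1 = true := ex3_b k11_pp_022 k12_pp_022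

theorem s16_pp_022 : ∃ t, chk3 f_pp_022 t 2 3 1 = true := ex3_a s15_pp_022 k13_pp_022

theorem s17_pp_022 : ∃ t, chk3 f_pp_022 t 1 3 1 = true := ex3_a s16_pp_022 k14_pp_022

theorem s18_pp_022 : ∃ t, chk3 f_pp_022 t 2 11 1 = true := ex3_b k8_pp_022 k9_pp_022

theorem s19_pp_022 : ∃ t, chk3 f_pp_022 t 4 20 1 = true := ex3_b k4_pp_022 k5_pp_022

theorem s20_pp_022 : ∃ t, chk3 f_pp_022 t 4 10 1 = true := ex3_b s19_pp_022 k6_pp_022

theorem s21_pp_022 : ∃ t, chk3 f_pp_022 t 2 10 1 = true := ex3_a s20_pp_022 k7_pp_022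

theorem s22_pp_022 : ∃ t, chk3 f_pp_022 t 2 5 1 = true := ex3_b s21_pp_022 s18_pp_022

theorem s23_pp_022 : ∃ t, chk3 f_pp_022 t 1 5 1 = true := ex3_a s22_pp_022 k10_pp_022

theorem s24_pp_022 : ∃ t, chk3 f_pp_022 t 2 9 1 = true := ex3_b k1_pp_022 k2_pp_022

theorem s25_pp_022 : ∃ t, chk3 f_pp_022 t 2 4 1 = true := ex3_b k0_pp_022 s24_pp_022

theorem s26_pp_022 : ∃ t, chk3 f_pp_022 t 1 4 1 = true := ex3_a s25_pp_022 k3_pp_022

theorem s27_pp_022 : ∃ t, chk3 f_pp_022 t 1 2 1 = true := ex3_b s26_pp_022 s23_pp_022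

theorem s28_pp_022 : ∃ t, chk3 f_pp_022 t 1 1 1 = true := ex3_b s27_pp_022 s17_pp_022

theorem c_pp_022 : CertB 0 536870912 1073741824 536870912 740881858 40050571 3 eng mog cd0q0 cd3q2 pd2 false true true .pp 0 2 2
    ndB0q0 ndB3q2 pcB2 Cut.none Ext.none :=
  certB1 (fam := false) (s1 := true) (s2 := true) (a := 0) (b := 2) (c := 2) (cn := .pp) (n1 := ndB0q0) (n2 := ndB3q2) (pc := pcB2) (cut := Cut.none) (xt := Ext.none) (P1 := 0) (W1 := 536870912) (P2 := 1073741824) (W2 := 536870912) (P3 := 740881858) (W3 := 40050571) (N0 := 3) (En := eng) (mo := mog) (C1 := cd0q0) (C2 := cd3q2) (C3 := pd2)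
    rfl (fun _ => rfl) s28_pp_022

noncomputable def f_pp_023 : ℕ → ℕ → ℕ → ℕ → Bool := onCell 1073741824 536870912 0 1230186008 740881858 40050571
    (rowB 3 eng mog cd0q0 cd3q3 pd2 2 false true true .up 0 2 3 (qsf 0 536870912 0 1230186008 2) ndB0q0 ndB3q3 pcB2 Cut.none Ext.none)

def k0_pp_023 : ∃ t, chk3 f_pp_023 t 1 2 1 = true :=
  ⟨(a (l 2) (a (l 2) (b (a (l 2) (l 16458704)) (b (l 16670760) (a (l 16555112) (l 16467136)))))), by decide +kernel⟩

def k1_pp_023 : ∃ t, chk3 f_pp_023 t 1 6 1 = true :=
  ⟨(a (b (l 2) (a (l 2) (a (l 2) (b (l 2) (b (l 2) (l 16475304)))))) (b (a (a (l 2) (b (l 16574168) (l 16551720))) (a (l 16613456) (b (l 16510560) (l 16475760)))) (a (b (a (a (l 16554544) (l 16535304)) (l 16277424)) (a (b (l 16487192) (l 16447864)) (b (l 16458160) (l 16458848)))) (b (a (l 16468624) (l 16429264)) (a (b (l 16448760) (l 16445680)) (b (l 16411064) (l 16402272))))))), by decide +kernel⟩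

def k2_pp_023 : ∃ t, chk3 f_pp_023 t 2 7 1 = true :=
  ⟨(a (b (l 2) (a (b (l 2) (l 3)) (a (b (b (l 2) (a (a (l 16435888) (l 16441216)) (l 16445640))) (a (b (a (l 16466752) (l 16428520)) (a (l 16421464) (l 16426000))) (b (l 16433232) (a (l 16437912) (l 16447376))))) (b (a (b (l 16465496) (l 16448128)) (b (l 16457688) (l 16439384))) (a (b (l 16436840) (l 16457936)) (b (l 16446832) (l 16458992))))))) (b (a (b (a (l 2) (b (l 2) (l 16470752))) (b (a (l 2) (l 16459216)) (a (a (l 16470536) (a (l 16460304) (l 16450720))) (l 16435440)))) (b (a (l 16452864) (l 16417776)) (b (a (l 16437136) (l 16396536)) (l 16409616)))) (a (a (a (b (l 16436400) (b (l 16447032) (l 16451976))) (b (a (l 16424936) (a (l 16417944) (l 16408352))) (a (l 16445200) (a (l 16440072) (b (l 16432880) (l 16432856)))))) (b (b (l 16405152) (l 16423144)) (b (l 16431160) (l 16468280)))) (b (a (l 16428792) (b (l 16430416) (l 16427008))) (b (a (l 16426656) (l 16411072)) (a (l 16409512) (l 16381160))))))), by decide +kernel⟩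

def k3_pp_023 : ∃ t, chk3 f_pp_023 t 3 7 1 = true :=
  ⟨(b (a (b (a (a (l 16422560) (l 16440632)) (b (l 16448216) (l 16436168))) (a (b (l 16428208) (a (l 16429064) (l 16425368))) (b (l 16418024) (l 16396560)))) (b (a (b (l 16426496) (l 16397056)) (b (l 16369680) (l 16331320))) (a (b (l 16365752) (l 16331936)) (b (l 16281264) (a (l 16260104) (l 16205672)))))) (a (b (a (a (b (l 16426760) (l 16412168)) (b (l 16412328) (l 16386312))) (b (l 16369768) (a (l 16349584) (l 16306800)))) (a (b (a (l 16384232) (l 16346448)) (a (l 16341848) (l 16296240))) (b (a (l 16302496) (l 16252568)) (a (l 16244408) (l 16186096))))) (b (a (b (l 16285368) (a (l 16258184) (l 16202560))) (b (a (l 16206016) (l 16151600)) (a (l 16147488) (l 16097016)))) (a (b (a (l 16195776) (l 16139880)) (a (l 16129360) (l 16077184))) (b (a (l 16088640) (l 16042000)) (a (l 16029456) (b (l 15997632) (l 15964960)))))))), by decide +kernel⟩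

theorem s4_pp_023 : ∃ t, chk3 f_pp_023 t 1 7 1 = true := ex3_a k2_pp_023 k3_pp_023

theorem s5_pp_023 : ∃ t, chk3 f_pp_023 t 1 3 1 = true := ex3_b k1_pp_023 s4_pp_023

theorem s6_pp_023 : ∃ t, chk3 f_pp_023 t 1 1 1 = true := ex3_b k0_pp_023 s5_pp_023

theorem c_pp_023 : CertB 0 536870912 0 1230186008 740881858 40050571 3 eng mog cd0q0 cd3q3 pd2 false true true .up 0 2 3
    ndB0q0 ndB3q3 pcB2 Cut.none Ext.none :=
  certB2 (fam := false) (s1 := true) (s2 := true) (a := 0) (b := 2) (c := 3) (cn := .up) (n1 := ndB0q0) (n2 := ndB3q3) (pc := pcB2) (cut := Cut.none) (xt := Ext.none) (P1 := 0) (W1 := 536870912) (P2 := 0) (W2 := 1230186008) (P3 := 740881858) (W3 := 40050571) (N0 := 3) (En := eng) (mo := mog) (C1 := cd0q0) (C2 := cd3q3) (C3 := pd2)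
    rfl (fun _ => rfl) s6_pp_023

noncomputable def f_pp_033 : ℕ → ℕ → ℕ → ℕ → Bool := onCell 1610612736 536870912 0 1230186008 740881858 40050571
    (rowB 3 eng mog cd0q0 cd3q3 pd3 2 false true true .pnn 0 3 3 (qsf 0 536870912 0 1230186008 3) ndB0q0 ndB3q3 pcB3 Cut.none Ext.none)

def k0_pp_033 : ∃ t, chk3 f_pp_033 t 1 2 1 = true :=
  ⟨(b (a (a (a (l 16563624) (l 16503720)) (a (l 16405880) (l 16632624))) (l 4)) (a (a (a (b (l 16546992) (l 16520200)) (b (l 16490784) (l 16395816))) (a (b (l 16431896) (l 16352280)) (b (l 16375624) (a (l 16312160) (l 16264728))))) (a (a (b (a (l 16315696) (l 4)) (a (l 16224936) (l 16187496))) (l 4)) (l 4)))), by decide +kernel⟩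

def k1_pp_033 : ∃ t, chk3 f_pp_033 t 1 3 1 = true :=
  ⟨(b (a (b (a (a (b (l 16478464) (l 16430064)) (b (l 16383456) (l 16321128))) (a (a (l 16273320) (l 16217504)) (b (l 16194200) (l 16094144)))) (a (b (a (l 16381712) (l 16247368)) (a (b (l 16364408) (l 16342864)) (b (l 16209792) (l 16192440)))) (a (b (a (l 16149408) (l 16094552)) (a (b (l 16112832) (l 16093280)) (l 16053936))) (b (a (l 16052408) (l 16017376)) (a (l 16019752) (l 109016615303)))))) (b (a (a (a (l 16093768) (b (l 16099704) (l 16024608))) (a (b (l 4) (l 16000224)) (l 4))) (l 4)) (a (a (b (a (l 15981088) (l 15988280)) (b (l 15917408) (l 412885332247))) (b (a (l 520260264247) (l 1)) (l 1))) (l 1)))) (a (a (b (b (a (b (l 16300416) (l 16244872)) (b (l 16146328) (l 16098544))) (a (b (a (l 16231392) (l 16151856)) (a (l 16174816) (l 16106136))) (b (a (l 16076440) (l 16005784)) (a (l 16035592) (l 15964784))))) (b (a (b (a (l 16119408) (l 16058816)) (a (l 16063408) (l 16005272))) (b (a (b (l 16005072) (l 15982184)) (l 104184909479)) (a (b (a (l 15972544)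 (l 15938792)) (l 191157975847)) (b (l 285647176583) (l 1))))) (a (b (a (b (l 16019088) (l 15986920)) (b (l 187399995111) (l 182567965191))) (a (b (l 177736241223) (l 184715429559)) (b (l 190084090471) (l 1)))) (b (a (b (l 198674030279) (l 1)) (l 1)) (l 1))))) (b (a (b (a (b (l 16048000) (l 15994488)) (b (l 15999240) (l 15939080))) (b (a (l 15936664) (l 95057877815)) (a (l 15892152) (l 335575847063)))) (b (a (l 362419640583) (l 369398867207)) (l 1))) (a (b (a (b (l 305511019351) (l 1)) (l 1)) (l 1)) (l 1)))) (l 1))), by decide +kernel⟩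

theorem s2_pp_033 : ∃ t, chk3 f_pp_033 t 1 1 1 = true := ex3_b k0_pp_033 k1_pp_033

theorem c_pp_033 : CertB 0 536870912 0 1230186008 740881858 40050571 3 eng mog cd0q0 cd3q3 pd3 false true true .pnn 0 3 3
    ndB0q0 ndB3q3 pcB3 Cut.none Ext.none :=
  certB2 (fam := false) (s1 := true) (s2 := true) (a := 0) (b := 3) (c := 3) (cn := .pnn) (n1 := ndB0q0) (n2 := ndB3q3) (pc := pcB3) (cut := Cut.none) (xt := Ext.none) (P1 := 0) (W1 := 536870912) (P2 := 0) (W2 := 1230186008) (P3 := 740881858) (W3 := 40050571) (N0 := 3) (En := eng) (mo := mog) (C1 := cd0q0) (C2 := cd3q3) (C3 := pd3)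
    rfl (fun _ => rfl) s2_pp_033

noncomputable def f_pp_101 : ℕ → ℕ → ℕ → ℕ → Bool := onCell 536870912 536870912 536870912 536870912 740881858 40050571
    (rowB 3 eng mog cd0q1 cd3q1 pd0 0 false true true .npn 1 0 1 (qsf 536870912 536870912 536870912 536870912 0) ndB0q1 ndB3q1 pcB0 Cut.none Ext.none)

def k0_pp_101 : ∃ t, chk3 f_pp_101 t 1 1 1 = true :=
  ⟨(a (l 3) (l 5)), by decide +kernel⟩

theorem c_pp_101 : CertB 536870912 536870912 536870912 536870912 740881858 40050571 3 eng mog cd0q1 cd3q1 pd0 false true true .npn 1 0 1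
    ndB0q1 ndB3q1 pcB0 Cut.none Ext.none :=
  certB0 (fam := false) (s1 := true) (s2 := true) (a := 1) (b := 0) (c := 1) (cn := .npn) (n1 := ndB0q1) (n2 := ndB3q1) (pc := pcB0) (cut := Cut.none) (xt := Ext.none) (P1 := 536870912) (W1 := 536870912) (P2 := 536870912) (W2 := 536870912) (P3 := 740881858) (W3 := 40050571) (N0 := 3) (En := eng) (mo := mog) (C1 := cd0q1) (C2 := cd3q1) (C3 := pd0)
    rfl k0_pp_101

noncomputable def f_pp_102 : ℕ → ℕ → ℕ → ℕ → Bool := onCell 536870912 536870912 0 536870912 740881858 40050571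
    (rowB 3 eng mog cd0q1 cd3q2 pd0 1 false true true .npp 1 0 2 (qsf 536870912 536870912 1073741824 536870912 0) ndB0q1 ndB3q2 pcB0 Cut.none Ext.none)

def k0_pp_102 : ∃ t, chk3 f_pp_102 t 1 1 1 = true :=
  ⟨(l 3), by decide +kernel⟩

theorem c_pp_102 : CertB 536870912 536870912 1073741824 536870912 740881858 40050571 3 eng mog cd0q1 cd3q2 pd0 false true true .npp 1 0 2
    ndB0q1 ndB3q2 pcB0 Cut.none Ext.none :=
  certB1 (fam := false) (s1 := true) (s2 := true) (a := 1) (b := 0) (c := 2) (cn := .npp) (n1 := ndB0q1) (n2 := ndB3q2) (pc := pcB0) (cut := Cut.none) (xt := Ext.none) (P1 := 536870912) (W1 := 536870912) (P2 := 1073741824) (W2 := 536870912) (P3 := 740881858) (W3 := 40050571) (N0 := 3) (En := eng) (mo := mog) (C1 := cd0q1) (C2 := cd3q2) (C3 := pd0)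
    rfl (fun _ => rfl) k0_pp_102

noncomputable def f_pp_112 : ℕ → ℕ → ℕ → ℕ → Bool := onCell 536870912 536870912 1073741824 536870912 740881858 40050571
    (rowB 3 eng mog cd0q1 cd3q2 pd1 0 false true true .dn 1 1 2 (qsf 536870912 536870912 1073741824 536870912 1) ndB0q1 ndB3q2 pcB1 Cut.none Ext.none)

def k0_pp_112 : ∃ t, chk3 f_pp_112 t 1 1 1 = true :=
  ⟨(a (l 3) (l 3)), by decide +kernel⟩

theorem c_pp_112 : CertB 536870912 536870912 1073741824 536870912 740881858 40050571 3 eng mog cd0q1 cd3q2 pd1 false true true .dn 1 1 2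
    ndB0q1 ndB3q2 pcB1 Cut.none Ext.none :=
  certB0 (fam := false) (s1 := true) (s2 := true) (a := 1) (b := 1) (c := 2) (cn := .dn) (n1 := ndB0q1) (n2 := ndB3q2) (pc := pcB1) (cut := Cut.none) (xt := Ext.none) (P1 := 536870912) (W1 := 536870912) (P2 := 1073741824) (W2 := 536870912) (P3 := 740881858) (W3 := 40050571) (N0 := 3) (En := eng) (mo := mog) (C1 := cd0q1) (C2 := cd3q2) (C3 := pd1)
    rfl k0_pp_112

noncomputable def cut_pp_113 : Cut := Cut.of [[⟨0, 1, 0, 67108864⟩, ⟨1, 1, 0, 67108864⟩, ⟨2, 2, 0, 16777216⟩]]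

noncomputable def f_pp_113 : ℕ → ℕ → ℕ → ℕ → Bool := onCell 536870912 536870912 0 1230186008 740881858 40050571
    (rowB 3 eng mog cd0q1 cd3q3 pd1 2 false true true .nn 1 1 3 (qsf 536870912 536870912 0 1230186008 1) ndB0q1 ndB3q3 pcB1 cut_pp_113 Ext.none)

def k0_pp_113 : ∃ t, chk3 f_pp_113 t 1 1 1 = true :=
  ⟨(b (a (l 2) (a (l 2) (a (l 3) (a (l 3) (b (b (l 6) (l 3)) (l 3)))))) (b (a (l 3) (a (l 3) (l 3))) (a (b (l 3) (l 3)) (l 3)))), by decide +kernel⟩

theorem c_pp_113 : CertB 536870912 536870912 0 1230186008 740881858 40050571 3 eng mog cd0q1 cd3q3 pd1 false true true .nn 1 1 3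
    ndB0q1 ndB3q3 pcB1 cut_pp_113 Ext.none :=
  certB2 (fam := false) (s1 := true) (s2 := true) (a := 1) (b := 1) (c := 3) (cn := .nn) (n1 := ndB0q1) (n2 := ndB3q3) (pc := pcB1) (cut := cut_pp_113) (xt := Ext.none) (P1 := 536870912) (W1 := 536870912) (P2 := 0) (W2 := 1230186008) (P3 := 740881858) (W3 := 40050571) (N0 := 3) (En := eng) (mo := mog) (C1 := cd0q1) (C2 := cd3q3) (C3 := pd1)
    rfl (fun _ => rfl) k0_pp_113

noncomputable def cut_pp_123 : Cut := Cut.of [[⟨0, 1, 0, 67108864⟩, ⟨1, 1, 0, 67108864⟩, ⟨2, 2, 0, 16777216⟩]]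

noncomputable def f_pp_123 : ℕ → ℕ → ℕ → ℕ → Bool := onCell 1073741824 536870912 0 1230186008 740881858 40050571
    (rowB 3 eng mog cd0q1 cd3q3 pd2 2 false true true .npn 1 2 3 (qsf 536870912 536870912 0 1230186008 2) ndB0q1 ndB3q3 pcB2 cut_pp_123 Ext.none)

def k0_pp_123 : ∃ t, chk3 f_pp_123 t 8 4 1 = true :=
  ⟨(a (b (l 6) (b (l 6) (a (a (l 3) (a (l 3) (b (a (a (l 3) (b (b (a (l 336248986087) (l 16784176)) (l 3)) (l 3))) (a (a (b (b (l 16784056) (l 16784880)) (l 3)) (b (b (l 16784120) (l 16784744)) (b (l 16785624) (l 3)))) (b (b (l 16783784) (l 16784832)) (b (l 16785512) (l 16786376))))) (a (l 3) (a (l 3) (b (b (l 332490904039) (l 3)) (l 3))))))) (a (a (b (a (a (b (b (l 16782584) (l 16784080)) (b (l 16785392) (l 16786384))) (b (l 16781928) (b (l 16784320) (l 16785832)))) (b (l 16779872) (l 16782992))) (a (a (a (b (l 16798136) (l 3)) (b (l 16787552) (l 16800336))) (b (b (l 16787136) (l 16788064)) (b (l 16788920) (l 16789992)))) (a (b (b (l 16786224) (l 16787744)) (b (l 16789040) (l 16789952))) (b (l 16785688)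 (l 16788936))))) (b (b (l 16776104) (l 16758392)) (a (b (l 16783560) (l 16787088)) (b (l 16780976) (l 16784248))))) (b (l 16770056) (a (l 16758064) (l 16773336))))))) (b (a (l 6) (b (l 16713568) (l 16718168))) (a (b (l 6) (a (l 16762048) (l 16749776))) (l 16772400)))), by decide +kernel⟩

def k1_pp_123 : ∃ t, chk3 f_pp_123 t 8 10 1 = true :=
  ⟨(a (a (l 3) (a (b (a (b (b (a (a (l 3) (a (l 3) (l 16802336))) (a (a (l 16791488) (l 16791344)) (l 16791448))) (a (l 3) (a (a (l 3) (l 16814784)) (l 16793368)))) (a (l 3) (b (c (l 345912671415) (a (l 3) (l 377051165047))) (l 3)))) (b (a (a (b (l 16791000) (l 16793280)) (b (l 16789896) (l 16792928))) (b (l 16787688) (l 16758816))) (a (a (b (l 16795088) (l 16818440)) (b (l 16794888) (l 16796496))) (a (b (l 16794616) (l 16796176)) (b (l 16793528) (l 16795920)))))) (a (l 3) (b (a (b (c (l 337859606487) (l 342154556951)) (l 3)) (a (b (l 16797416) (l 16819912)) (b (l 16796968) (l 16797672)))) (a (l 3) (b (c (l 334101503095) (l 361481906999)) (l 3)))))) (b (b (a (a (l 16786400)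 (l 16783536)) (l 16779112)) (a (a (a (a (l 16793776) (l 16793080)) (l 16791824)) (l 16789240)) (l 16742648))) (b (a (b (a (c (l 16770976) (l 16778616)) (l 16792976)) (a (a (l 16797056) (l 16796672)) (l 16794576))) (b (l 16787240) (l 16788568))) (a (a (b (c (l 247128403767) (l 290078168679)) (c (l 321216586791) (l 297057495991))) (b (l 16795016) (b (l 16794496) (l 16793832)))) (a (b (l 16791640) (l 16791832)) (l 16787536))))))) (a (b (b (l 16720240) (l 16692568)) (a (b (a (l 16779992) (l 16771824)) (a (l 16781080) (l 16772712))) (l 16738728))) (b (a (l 16740800) (l 16723912)) (a (l 16743096) (l 16727320))))), by decide +kernel⟩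

def k2_pp_123 : ∃ t, chk3 f_pp_123 t 8 11 1 = true :=
  ⟨(a (a (l 3) (a (l 3) (b (b (a (a (a (l 3) (b (l 346986451767) (l 3))) (a (b (l 16793464) (l 327122222215)) (b (l 16792544) (l 16791536)))) (a (b (l 16791496) (l 16790312)) (b (l 16788312) (l 16788392)))) (a (a (l 3) (a (l 3) (b (l 316384799127) (l 3)))) (a (b (l 270213913591) (l 317995377255)) (b (l 16787952) (l 16786984))))) (a (l 3) (b (a (b (l 335712120503) (l 3)) (b (l 16786640) (l 317458507703))) (a (l 3) (b (l 325511579063) (l 3)))))))) (a (b (a (b (a (l 16782224) (l 16773848)) (a (a (b (l 16785224) (l 16785568)) (l 16781744)) (l 16775768))) (b (l 16761776) (a (l 16768008) (l 16760312)))) (a (a (a (b (b (l 16785536) (l 16785152)) (b (l 16784872) (l 318532234471))) (b (b (l 16783448) (l 16784088)) (b (l 16783616) (l 16782752)))) (b (a (l 16780264) (l 16776632)) (a (b (l 16781888) (l 16781712)) (l 16778616)))) (a (b (l 16770680) (l 16772736)) (b (l 16762992) (l 16764608))))) (b (a (l 16747384) (l 16731576)) (a (b (l 16751256) (l 16752464)) (l 16651832))))),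 by decide +kernel⟩

def k3_pp_123 : ∃ t, chk3 f_pp_123 t 9 2 1 = true :=
  ⟨(b (a (b (l 16685584) (a (b (l 16700920) (l 16703712)) (l 16658264))) (b (l 16515352) (a (l 16654624) (l 16638800)))) (b (a (b (a (l 16706344) (l 16683624)) (a (l 16710048) (l 16687752))) (a (a (l 16666064) (l 16655136)) (l 16643656))) (a (b (a (l 16630680) (l 16693528)) (a (b (l 16718128) (l 16720432)) (l 16700720))) (b (a (l 16669520) (l 16652728)) (a (l 16679616) (l 16664600)))))), by decide +kernel⟩

def k4_pp_123 : ∃ t, chk3 f_pp_123 t 5 2 1 = true :=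
  ⟨(a (b (a (a (b (l 16627672) (l 16630856)) (a (l 16768320) (b (l 16622576) (l 16623256)))) (b (l 16614200) (l 16619576))) (a (a (b (l 16633136) (b (l 16642712) (l 16655128))) (b (a (l 16627704) (l 16602480)) (a (l 16640256) (l 16531936)))) (b (l 16619904) (l 16629392)))) (b (b (l 16435232) (l 16612768)) (b (a (l 16618720) (l 16616088)) (a (l 16620728) (l 16506008))))), by decide +kernel⟩

def k5_pp_123 : ∃ t, chk3 f_pp_123 t 3 2 1 = true :=
  ⟨(a (b (a (l 16831600) (b (l 16593104) (l 16600224))) (a (b (l 16606896) (l 16833152)) (b (l 16555200) (l 16594120)))) (b (a (l 16594176) (l 16395912)) (b (l 16838232) (a (l 16470992) (l 16549824))))), by decide +kernel⟩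

def k6_pp_123 : ∃ t, chk3 f_pp_123 t 2 12 1 = true :=
  ⟨(a (a (a (l 3) (a (a (b (b (a (b (a (l 3) (l 289004326775)) (a (l 3) (b (l 304573579047) (l 368461217015)))) (a (b (l 16780464) (l 16778864)) (b (l 16778944) (l 16777736)))) (a (l 3) (c (a (b (l 16758912) (l 352891923191)) (l 16734656)) (a (b (l 16797784) (l 362018811591)) (l 259476464199))))) (b (a (l 3) (a (l 3) (b (c (l 292762371623) (l 16799592)) (c (l 326048330599) (l 344302093879))))) (l 3))) (b (b (a (b (l 16773520) (l 16773352)) (l 16765320)) (a (b (a (l 16774784) (l 16771872)) (a (l 16773936) (l 16772456))) (a (l 16768536) (l 16764760)))) (a (c (b (b (l 16729824) (l 16728784)) (a (b (l 16740168) (l 326585212263)) (b (l 16750176) (l 16751448)))) (b (b (l 16798408) (l 16801616)) (a (b (l 287930663063) (l 324974774151)) (b (l 16806280) (l 16811832))))) (b (b (l 16769544) (a (l 16794888) (l 16771832))) (b (c (l 16728720) (l 16805784)) (c (l 16751416) (l 16811728))))))) (b (a (b (l 16753544) (a (l 16759256) (l 16752200))) (b (l 16737872) (l 16742088)))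 (b (a (c (l 16738096) (l 16788480)) (l 16666480)) (a (a (c (l 16746656) (l 16804896)) (l 16768712)) (a (l 16762656) (l 16756664))))))) (a (b (a (b (l 16723704) (l 16731152)) (l 16671512)) (a (a (b (l 16742080) (l 16751352)) (l 16657760)) (l 16646768))) (b (a (l 16631640) (l 16680176)) (a (l 16710480) (l 16690096))))) (a (a (a (b (l 16666360) (l 16672336)) (a (l 16659256) (b (l 16646080) (l 16645536)))) (b (l 16632384) (l 16629888))) (b (l 16442712) (a (l 16612464) (l 16596936))))), by decide +kernel⟩

def k7_pp_123 : ∃ t, chk3 f_pp_123 t 4 13 1 = true :=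
  ⟨(a (a (l 3) (a (a (l 3) (b (a (a (l 3) (b (b (c (l 288467384119) (l 277193276599)) (b (c (l 300278546519) (b (l 291151924871) (l 296520625559))) (l 3))) (l 3))) (c (b (b (l 16751936) (b (l 16749696) (l 16743744))) (b (l 248738928887) (l 258939438375))) (b (b (l 16816576) (b (a (l 16814584) (l 16814192)) (l 233169702423))) (b (c (l 240685943223) (l 241759639623)) (a (l 290614792919) (l 16710600)))))) (a (l 3) (a (l 3) (b (b (b (l 250886418551) (l 267529378551)) (c (l 16662616) (l 292225290679))) (l 3)))))) (b (b (a (c (a (b (l 16749720) (l 16745352)) (l 16741928)) (a (b (l 16814200) (a (l 16807640) (l 16805872))) (b (l 16808368) (l 16801008)))) (b (l 16765000) (b (l 16742264) (l 16754464)))) (b (a (a (c (l 16732544) (l 16759656)) (l 16708784)) (l 16740104)) (a (a (c (l 16717184) (l 16750952)) (c (l 16713624) (l 16746944))) (l 16718992)))) (b (a (a (b (c (l 16699832) (l 16718536)) (c (l 16659472) (l 16683360))) (b (c (l 16697120) (l 16715368)) (l 16637016))) (a (b (l 16699200) (l 16673152)) (l 16678920))) (b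 (a (a (b (l 234243190439) (l 244443712823)) (l 16648928)) (a (l 16644088) (l 16636488))) (a (a (b (c (l 16623048) (l 254644238007)) (l 264307893959)) (b (l 16629560) (l 16623568))) (a (b (l 16625416) (l 16619688)) (l 16615224)))))))) (b (a (a (b (a (c (l 16722944) (l 16785456)) (l 16704328)) (a (a (l 16679192) (l 16718072)) (l 16712488))) (b (l 16691208) (l 16698704))) (b (a (l 16710928) (l 16688408)) (a (l 16675440) (l 16651160)))) (a (b (a (a (a (l 16673312) (l 16669896)) (l 16664056)) (l 16648240)) (a (a (b (l 16628520) (l 16606376)) (c (l 16616432) (l 16597968))) (l 16595368))) (b (a (l 16625200) (l 16603272)) (a (l 16573536) (l 16553088)))))), by decide +kernel⟩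

def k8_pp_123 : ∃ t, chk3 f_pp_123 t 5 13 1 = true :=
  ⟨(a (b (a (a (b (l 16666856) (l 16629976)) (a (l 16634272) (b (l 16638200) (l 16602928)))) (b (l 16620296) (l 16586008))) (a (a (b (l 16583424) (l 16536664)) (a (b (l 16569752) (l 16523848)) (b (l 16559072) (l 16512712)))) (b (l 16543432) (l 16497480)))) (b (a (l 16586184) (l 16569088)) (a (l 16503312) (l 16405880)))), by decide +kernel⟩

def k9_pp_123 : ∃ t, chk3 f_pp_123 t 3 6 1 = true :=
  ⟨(b (a (a (b (l 16591528) (l 16833992)) (l 16772328)) (a (l 524019569399) (l 1))) (a (b (a (a (l 16554528) (l 16535184)) (l 300680627543)) (a (b (l 16486912) (l 16447360)) (l 1))) (l 1))), by decide +kernel⟩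

def k10_pp_123 : ∃ t, chk3 f_pp_123 t 1 7 1 = true :=
  ⟨(a (a (a (a (l 3) (a (b (l 3) (l 3)) (a (b (b (b (a (b (l 273971536423) (l 3)) (b (l 16608744) (l 217063170359))) (a (l 3) (b (l 241759235079) (l 265918393687)))) (b (a (l 3) (b (l 16527696) (l 3))) (l 3))) (l 3)) (b (b (b (a (b (l 16603272) (l 16578248)) (c (l 16601888) (l 16565120))) (a (b (l 16556840) (l 16539720)) (c (l 16560552) (l 16530080)))) (b (b (a (l 16525480) (l 16524896)) (a (l 16511112) (l 16510984))) (a (l 16481600) (l 16481712)))) (b (a (l 3) (b (l 16451256) (l 16431800))) (l 3)))))) (b (a (b (a (b (a (c (l 16591768) (l 16558536)) (l 16568480)) (a (b (l 16548624) (l 16535184)) (l 16538264))) (b (l 16558008) (l 16534696))) (b (a (a (b (l 16523280) (l 16510936)) (l 16516168)) (b (l 16520912) (l 16511296))) (a (a (a (l 16483272) (l 16484664)) (l 16485592)) (l 16488480)))) (a (b (b (l 16542432) (l 16524208)) (b (l 16509512) (l 16486464))) (b (l 16561496) (b (l 16500144) (l 16479720))))) (a (b (a (b (a (a (l 16453352) (l 16456536)) (l 16459152))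 (a (l 16435880) (l 16441200))) (b (l 16464744) (l 16445592))) (a (b (a (l 306720316743) (l 1)) (l 1)) (l 1))) (b (a (b (l 16465472) (l 16448048)) (b (l 16457632) (l 1))) (l 1))))) (b (a (b (a (a (l 16507016) (a (l 16496624) (a (l 16490240) (l 16484304)))) (b (l 16479856) (l 16470736))) (a (a (b (l 16490408) (l 16470512)) (a (b (l 16482176) (l 16460272)) (b (l 16535496) (l 16450680)))) (b (l 16459120) (l 16435208)))) (b (a (b (l 16461880) (l 16449160)) (l 16417160)) (l 1))) (a (a (a (b (b (l 16447200) (l 1)) (l 1)) (l 1)) (l 1)) (l 1)))) (l 1)), by decide +kernel⟩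

theorem s11_pp_123 : ∃ t, chk3 f_pp_123 t 2 13 1 = true := ex3_a k7_pp_123 k8_pp_123

theorem s12_pp_123 : ∃ t, chk3 f_pp_123 t 2 6 1 = true := ex3_b k6_pp_123 s11_pp_123

theorem s13_pp_123 : ∃ t, chk3 f_pp_123 t 1 6 1 = true := ex3_a s12_pp_123 k9_pp_123

theorem s14_pp_123 : ∃ t, chk3 f_pp_123 t 1 3 1 = true := ex3_b s13_pp_123 k10_pp_123

theorem s15_pp_123 : ∃ t, chk3 f_pp_123 t 8 5 1 = true := ex3_b k1_pp_123 k2_pp_123

theorem s16_pp_123 : ∃ t, chk3 f_pp_123 t 8 2 1 = true := ex3_b k0_pp_123 s15_pp_123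

theorem s17_pp_123 : ∃ t, chk3 f_pp_123 t 4 2 1 = true := ex3_a s16_pp_123 k3_pp_123

theorem s18_pp_123 : ∃ t, chk3 f_pp_123 t 2 2 1 = true := ex3_a s17_pp_123 k4_pp_123

theorem s19_pp_123 : ∃ t, chk3 f_pp_123 t 1 2 1 = true := ex3_a s18_pp_123 k5_pp_123

theorem s20_pp_123 : ∃ t, chk3 f_pp_123 t 1 1 1 = true := ex3_b s19_pp_123 s14_pp_123

theorem c_pp_123 : CertB 536870912 536870912 0 1230186008 740881858 40050571 3 eng mog cd0q1 cd3q3 pd2 false true true .npn 1 2 3
    ndB0q1 ndB3q3 pcB2 cut_pp_123 Ext.none :=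
  certB2 (fam := false) (s1 := true) (s2 := true) (a := 1) (b := 2) (c := 3) (cn := .npn) (n1 := ndB0q1) (n2 := ndB3q3) (pc := pcB2) (cut := cut_pp_123) (xt := Ext.none) (P1 := 536870912) (W1 := 536870912) (P2 := 0) (W2 := 1230186008) (P3 := 740881858) (W3 := 40050571) (N0 := 3) (En := eng) (mo := mog) (C1 := cd0q1) (C2 := cd3q3) (C3 := pd2)
    rfl (fun _ => rfl) s20_pp_123

noncomputable def f_pp_133 : ℕ → ℕ → ℕ → ℕ → Bool := onCell 536870912 536870912 0 1230186008 740881858 40050571
    (rowB 3 eng mog cd0q1 cd3q3 pd3 0 false true true .dn 1 3 3 (qsf 536870912 536870912 0 1230186008 3) ndB0q1 ndB3q3 pcB3 Cut.none Ext.none)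

def k0_pp_133 : ∃ t, chk3 f_pp_133 t 1 1 1 = true :=
  ⟨(b (b (a (a (a (l 16641000) (l 1)) (l 1)) (l 1)) (l 1)) (l 1)), by decide +kernel⟩

theorem c_pp_133 : CertB 536870912 536870912 0 1230186008 740881858 40050571 3 eng mog cd0q1 cd3q3 pd3 false true true .dn 1 3 3
    ndB0q1 ndB3q3 pcB3 Cut.none Ext.none :=
  certB0 (fam := false) (s1 := true) (s2 := true) (a := 1) (b := 3) (c := 3) (cn := .dn) (n1 := ndB0q1) (n2 := ndB3q3) (pc := pcB3) (cut := Cut.none) (xt := Ext.none) (P1 := 536870912) (W1 := 536870912) (P2 := 0) (W2 := 1230186008) (P3 := 740881858) (W3 := 40050571) (N0 := 3) (En := eng) (mo := mog) (C1 := cd0q1) (C2 := cd3q3) (C3 := pd3)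
    rfl k0_pp_133

noncomputable def f_pp_202 : ℕ → ℕ → ℕ → ℕ → Bool := onCell 0 536870912 1073741824 536870912 740881858 40050571
    (rowB 3 eng mog cd0q2 cd3q2 pd0 0 false true true .pp 2 0 2 (qsf 0 536870912 1073741824 536870912 0) ndB0q2 ndB3q2 pcB0 Cut.none Ext.none)

def k0_pp_202 : ∃ t, chk3 f_pp_202 t 1 1 1 = true :=
  ⟨(l 3), by decide +kernel⟩

theorem c_pp_202 : CertB 0 536870912 1073741824 536870912 740881858 40050571 3 eng mog cd0q2 cd3q2 pd0 false true true .pp 2 0 2
    ndB0q2 ndB3q2 pcB0 Cut.none Ext.none :=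
  certB0 (fam := false) (s1 := true) (s2 := true) (a := 2) (b := 0) (c := 2) (cn := .pp) (n1 := ndB0q2) (n2 := ndB3q2) (pc := pcB0) (cut := Cut.none) (xt := Ext.none) (P1 := 0) (W1 := 536870912) (P2 := 1073741824) (W2 := 536870912) (P3 := 740881858) (W3 := 40050571) (N0 := 3) (En := eng) (mo := mog) (C1 := cd0q2) (C2 := cd3q2) (C3 := pd0)
    rfl k0_pp_202

noncomputable def f_pp_203 : ℕ → ℕ → ℕ → ℕ → Bool := onCell 0 536870912 0 1230186008 740881858 40050571
    (rowB 3 eng mog cd0q2 cd3q3 pd0 0 false true true .up 2 0 3 (qsf 0 536870912 0 1230186008 0) ndB0q2 ndB3q3 pcB0 Cut.none Ext.none)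

def k0_pp_203 : ∃ t, chk3 f_pp_203 t 1 1 1 = true :=
  ⟨(b (l 2) (l 3)), by decide +kernel⟩

theorem c_pp_203 : CertB 0 536870912 0 1230186008 740881858 40050571 3 eng mog cd0q2 cd3q3 pd0 false true true .up 2 0 3
    ndB0q2 ndB3q3 pcB0 Cut.none Ext.none :=
  certB0 (fam := false) (s1 := true) (s2 := true) (a := 2) (b := 0) (c := 3) (cn := .up) (n1 := ndB0q2) (n2 := ndB3q3) (pc := pcB0) (cut := Cut.none) (xt := Ext.none) (P1 := 0) (W1 := 536870912) (P2 := 0) (W2 := 1230186008) (P3 := 740881858) (W3 := 40050571) (N0 := 3) (En := eng) (mo := mog) (C1 := cd0q2) (C2 := cd3q3) (C3 := pd0)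
    rfl k0_pp_203

noncomputable def cut_pp_213 : Cut := Cut.of [[⟨0, 1, 0, 67108864⟩, ⟨1, 1, 0, 67108864⟩, ⟨2, 2, 0, 16777216⟩]]

noncomputable def f_pp_213 : ℕ → ℕ → ℕ → ℕ → Bool := onCell 0 536870912 0 1230186008 740881858 40050571
    (rowB 3 eng mog cd0q2 cd3q3 pd1 0 false true true .pnn 2 1 3 (qsf 0 536870912 0 1230186008 1) ndB0q2 ndB3q3 pcB1 cut_pp_213 Ext.none)

def k0_pp_213 : ∃ t, chk3 f_pp_213 t 1 1 1 = true :=
  ⟨(b (a (l 3) (b (a (l 3) (a (l 3) (b (l 6) (l 3)))) (l 3))) (l 3)), by decide +kernel⟩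

theorem c_pp_213 : CertB 0 536870912 0 1230186008 740881858 40050571 3 eng mog cd0q2 cd3q3 pd1 false true true .pnn 2 1 3
    ndB0q2 ndB3q3 pcB1 cut_pp_213 Ext.none :=
  certB0 (fam := false) (s1 := true) (s2 := true) (a := 2) (b := 1) (c := 3) (cn := .pnn) (n1 := ndB0q2) (n2 := ndB3q3) (pc := pcB1) (cut := cut_pp_213) (xt := Ext.none) (P1 := 0) (W1 := 536870912) (P2 := 0) (W2 := 1230186008) (P3 := 740881858) (W3 := 40050571) (N0 := 3) (En := eng) (mo := mog) (C1 := cd0q2) (C2 := cd3q3) (C3 := pd1)
    rfl k0_pp_213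

noncomputable def f_pm_001 : ℕ → ℕ → ℕ → ℕ → Bool := onCell 0 536870912 536870912 536870912 740881858 40050571
    (rowB 3 eng mog cd0q0 cd3q1 pd0 0 false true false .up 0 0 1 (qsf 0 536870912 536870912 536870912 0) ndB0q0 ndB3q1 pcB0 Cut.none Ext.none)

def k0_pm_001 : ∃ t, chk3 f_pm_001 t 1 1 1 = true :=
  ⟨(l 4), by decide +kernel⟩

theorem c_pm_001 : CertB 0 536870912 536870912 536870912 740881858 40050571 3 eng mog cd0q0 cd3q1 pd0 false true false .up 0 0 1
    ndB0q0 ndB3q1 pcB0 Cut.none Ext.none :=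
  certB0 (fam := false) (s1 := true) (s2 := false) (a := 0) (b := 0) (c := 1) (cn := .up) (n1 := ndB0q0) (n2 := ndB3q1) (pc := pcB0) (cut := Cut.none) (xt := Ext.none) (P1 := 0) (W1 := 536870912) (P2 := 536870912) (W2 := 536870912) (P3 := 740881858) (W3 := 40050571) (N0 := 3) (En := eng) (mo := mog) (C1 := cd0q0) (C2 := cd3q1) (C3 := pd0)
    rfl k0_pm_001

noncomputable def f_pm_011 : ℕ → ℕ → ℕ → ℕ → Bool := onCell 0 536870912 536870912 536870912 740881858 40050571
    (rowB 3 eng mog cd0q0 cd3q1 pd1 0 false true false .pnn 0 1 1 (qsf 0 536870912 536870912 536870912 1) ndB0q0 ndB3q1 pcB1 Cut.none Ext.none)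

def k0_pm_011 : ∃ t, chk3 f_pm_011 t 1 1 1 = true :=
  ⟨(l 4), by decide +kernel⟩

theorem c_pm_011 : CertB 0 536870912 536870912 536870912 740881858 40050571 3 eng mog cd0q0 cd3q1 pd1 false true false .pnn 0 1 1
    ndB0q0 ndB3q1 pcB1 Cut.none Ext.none :=
  certB0 (fam := false) (s1 := true) (s2 := false) (a := 0) (b := 1) (c := 1) (cn := .pnn) (n1 := ndB0q0) (n2 := ndB3q1) (pc := pcB1) (cut := Cut.none) (xt := Ext.none) (P1 := 0) (W1 := 536870912) (P2 := 536870912) (W2 := 536870912) (P3 := 740881858) (W3 := 40050571) (N0 := 3) (En := eng) (mo := mog) (C1 := cd0q0) (C2 := cd3q1) (C3 := pd1)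
    rfl k0_pm_011

end Pool.Agent.Strip051.G.I69_7273.Tab.C.BB03

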