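import Pool.Agent.Strip051.G.I69_7273.Tab
import Pool.Agent.Strip051.PB.ExtD2

/-! # Certificates B18 (generated) -/

set_option linter.all false
set_option maxRecDepth 100000

namespace Pool.Agent.Strip051.G.I69_7273.Tab.C.BB03

open Pool.Agent.Strip051.PB Pool.Agent.Strip051.PB.T
open Pool.Agent.Strip051.G.I69_7273.Tab

noncomputable def f_pm_012 : ℕ → ℕ → ℕ → ℕ → Bool := onCell 0 536870912 1073741824 536870912 740881858 40050571
    (rowB 3 eng mog cd0q0 cd3q2 pd1 0 false true false .pnp 0 1 2 (qsf 0 536870912 1073741824 536870912 1) ndB0q0 ndB3q2 pcB1 Cut.none Ext.none)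

def k0_pm_012 : ∃ t, chk3 f_pm_012 t 1 1 1 = true :=
  ⟨(a (l 4) (b (a (b (a (l 4) (b (a (l 4) (b (l 4) (l 4))) (l 4))) (l 4)) (b (a (b (b (a (b (l 16220192) (l 16195608)) (b (l 16161184) (l 16157976))) (a (a (l 16196136) (l 16177000)) (l 16149512))) (a (a (l 4) (b (l 16151600) (l 16117048))) (b (l 16130504) (l 16082880)))) (b (a (b (l 16144936) (l 16114760)) (b (l 16088856) (l 16080856))) (b (a (l 16100944) (l 16070312)) (a (l 16086024) (l 16066400))))) (a (a (b (l 4) (l 4)) (b (b (b (l 16088432) (l 16073104)) (a (l 16035080) (l 16042384))) (b (a (l 15976032) (l 15986352)) (a (l 4) (l 15922672))))) (b (a (b (l 16079728) (l 16053312)) (b (l 16075344) (l 16063304))) (a (b (l 16008320) (l 15953112)) (b (l 16033056) (l 15991216))))))) (a (l 4) (b (a (a (l 4) (a (l 4) (b (b (l 15856784) (l 15789376)) (b (l 15730728) (l 4))))) (b (a (b (l 15890800) (l 15826208)) (b (l 15941280) (l 15884064))) (a (b (a (l 15741992) (l 15774704)) (a (l 15674432) (l 15706208)))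 (a (a (l 15766088) (l 15782408)) (l 15812648))))) (a (l 4) (b (a (b (a (l 15594136) (b (l 15651632) (l 15610016))) (a (b (l 15534232) (l 15534904)) (b (l 15573800) (l 15533888)))) (b (l 15695392) (a (l 15598288) (l 15645968)))) (a (b (a (b (l 172433677575) (l 222362648855)) (l 168138782215)) (l 230952478743)) (b (a (l 15525384) (l 15575896)) (a (l 199814138775) (l 15505128)))))))))), by decide +kernel⟩

theorem c_pm_012 : CertB 0 536870912 1073741824 536870912 740881858 40050571 3 eng mog cd0q0 cd3q2 pd1 false true false .pnp 0 1 2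
    ndB0q0 ndB3q2 pcB1 Cut.none Ext.none :=
  certB0 (fam := false) (s1 := true) (s2 := false) (a := 0) (b := 1) (c := 2) (cn := .pnp) (n1 := ndB0q0) (n2 := ndB3q2) (pc := pcB1) (cut := Cut.none) (xt := Ext.none) (P1 := 0) (W1 := 536870912) (P2 := 1073741824) (W2 := 536870912) (P3 := 740881858) (W3 := 40050571) (N0 := 3) (En := eng) (mo := mog) (C1 := cd0q0) (C2 := cd3q2) (C3 := pd1)
    rfl k0_pm_012

noncomputable def f_pm_022 : ℕ → ℕ → ℕ → ℕ → Bool := onCell 1073741824 536870912 1073741824 536870912 740881858 40050571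
    (rowB 3 eng mog cd0q0 cd3q2 pd2 2 false true false .pp 0 2 2 (qsf 0 536870912 1073741824 536870912 2) ndB0q0 ndB3q2 pcB2 Cut.none Ext.none)

def k0_pm_022 : ∃ t, chk3 f_pm_022 t 1 1 1 = true :=
  ⟨(a (b (l 4) (a (b (l 4) (a (b (l 4) (a (b (a (b (l 15466216) (l 15466152)) (l 15503288)) (a (b (l 15476888) (l 15492744)) (b (l 15500464) (l 15512056)))) (b (l 4) (a (l 15533400) (l 15565600))))) (l 4))) (l 4))) (l 4)), by decide +kernel⟩

theorem c_pm_022 : CertB 0 536870912 1073741824 536870912 740881858 40050571 3 eng mog cd0q0 cd3q2 pd2 false true false .pp 0 2 2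
    ndB0q0 ndB3q2 pcB2 Cut.none Ext.none :=
  certB2 (fam := false) (s1 := true) (s2 := false) (a := 0) (b := 2) (c := 2) (cn := .pp) (n1 := ndB0q0) (n2 := ndB3q2) (pc := pcB2) (cut := Cut.none) (xt := Ext.none) (P1 := 0) (W1 := 536870912) (P2 := 1073741824) (W2 := 536870912) (P3 := 740881858) (W3 := 40050571) (N0 := 3) (En := eng) (mo := mog) (C1 := cd0q0) (C2 := cd3q2) (C3 := pd2)
    rfl (fun _ => rfl) k0_pm_022

noncomputable def f_pm_023 : ℕ → ℕ → ℕ → ℕ → Bool := onCell 0 536870912 0 1230186008 740881858 40050571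
    (rowB 3 eng mog cd0q0 cd3q3 pd2 0 false true false .up 0 2 3 (qsf 0 536870912 0 1230186008 2) ndB0q0 ndB3q3 pcB2 Cut.none Ext.none)

def k0_pm_023 : ∃ t, chk3 f_pm_023 t 1 1 1 = true :=
  ⟨(b (a (l 2) (a (l 2) (b (a (l 2) (l 16407440)) (a (b (a (l 2) (l 16445864)) (a (l 16364376) (l 16378112))) (b (l 16475024) (a (l 16393024) (l 16404744))))))) (b (a (l 4) (a (l 4) (b (a (a (l 701386767255) (l 16183480)) (b (l 16314408) (l 16232352))) (b (a (a (l 4) (l 16135208)) (a (l 16131872) (l 16131072))) (a (a (l 4) (l 16057040)) (b (l 16068928) (l 16039488))))))) (a (l 4) (a (l 4) (b (b (a (a (l 4) (l 15987448)) (a (l 15965336) (l 15946960))) (a (l 4) (b (a (l 15878672) (l 15850800)) (a (l 15823696) (l 15897872))))) (a (l 4) (b (a (b (a (l 15777208) (l 15760280)) (a (l 15723192) (l 15706216))) (b (a (l 15746872) (l 15735712)) (l 15875488))) (a (b (a (l 15665856) (l 15647992)) (a (l 15602448) (l 15582336))) (b (a (l 15633504) (l 15620712)) (a (b (l 15584176)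 (l 15548656)) (b (l 15570360) (c (l 15584440) (l 15483880))))))))))))), by decide +kernel⟩

theorem c_pm_023 : CertB 0 536870912 0 1230186008 740881858 40050571 3 eng mog cd0q0 cd3q3 pd2 false true false .up 0 2 3
    ndB0q0 ndB3q3 pcB2 Cut.none Ext.none :=
  certB0 (fam := false) (s1 := true) (s2 := false) (a := 0) (b := 2) (c := 3) (cn := .up) (n1 := ndB0q0) (n2 := ndB3q3) (pc := pcB2) (cut := Cut.none) (xt := Ext.none) (P1 := 0) (W1 := 536870912) (P2 := 0) (W2 := 1230186008) (P3 := 740881858) (W3 := 40050571) (N0 := 3) (En := eng) (mo := mog) (C1 := cd0q0) (C2 := cd3q3) (C3 := pd2)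
    rfl k0_pm_023

noncomputable def f_pm_033 : ℕ → ℕ → ℕ → ℕ → Bool := onCell 1610612736 536870912 0 1230186008 740881858 40050571
    (rowB 3 eng mog cd0q0 cd3q3 pd3 2 false true false .pnn 0 3 3 (qsf 0 536870912 0 1230186008 3) ndB0q0 ndB3q3 pcB3 Cut.none Ext.none)

def k0_pm_033 : ∃ t, chk3 f_pm_033 t 1 1 1 = true :=
  ⟨(a (b (a (b (a (l 16527168) (l 16479888)) (a (a (l 25466500503) (l 16448600)) (c (l 64659189271) (l 64659153783)))) (b (a (l 16202976) (l 4)) (l 4))) (b (b (l 4) (l 4)) (l 4))) (b (l 4) (l 4))), by decide +kernel⟩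

theorem c_pm_033 : CertB 0 536870912 0 1230186008 740881858 40050571 3 eng mog cd0q0 cd3q3 pd3 false true false .pnn 0 3 3
    ndB0q0 ndB3q3 pcB3 Cut.none Ext.none :=
  certB2 (fam := false) (s1 := true) (s2 := false) (a := 0) (b := 3) (c := 3) (cn := .pnn) (n1 := ndB0q0) (n2 := ndB3q3) (pc := pcB3) (cut := Cut.none) (xt := Ext.none) (P1 := 0) (W1 := 536870912) (P2 := 0) (W2 := 1230186008) (P3 := 740881858) (W3 := 40050571) (N0 := 3) (En := eng) (mo := mog) (C1 := cd0q0) (C2 := cd3q3) (C3 := pd3)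
    rfl (fun _ => rfl) k0_pm_033

noncomputable def f_pm_101 : ℕ → ℕ → ℕ → ℕ → Bool := onCell 536870912 536870912 536870912 536870912 740881858 40050571
    (rowB 3 eng mog cd0q1 cd3q1 pd0 0 false true false .npn 1 0 1 (qsf 536870912 536870912 536870912 536870912 0) ndB0q1 ndB3q1 pcB0 Cut.none Ext.none)

def k0_pm_101 : ∃ t, chk3 f_pm_101 t 1 1 1 = true :=
  ⟨(l 4), by decide +kernel⟩

theorem c_pm_101 : CertB 536870912 536870912 536870912 536870912 740881858 40050571 3 eng mog cd0q1 cd3q1 pd0 false true false .npn 1 0 1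
    ndB0q1 ndB3q1 pcB0 Cut.none Ext.none :=
  certB0 (fam := false) (s1 := true) (s2 := false) (a := 1) (b := 0) (c := 1) (cn := .npn) (n1 := ndB0q1) (n2 := ndB3q1) (pc := pcB0) (cut := Cut.none) (xt := Ext.none) (P1 := 536870912) (W1 := 536870912) (P2 := 536870912) (W2 := 536870912) (P3 := 740881858) (W3 := 40050571) (N0 := 3) (En := eng) (mo := mog) (C1 := cd0q1) (C2 := cd3q1) (C3 := pd0)
    rfl k0_pm_101

noncomputable def f_pm_102 : ℕ → ℕ → ℕ → ℕ → Bool := onCell 536870912 536870912 1073741824 536870912 740881858 40050571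
    (rowB 3 eng mog cd0q1 cd3q2 pd0 0 false true false .npp 1 0 2 (qsf 536870912 536870912 1073741824 536870912 0) ndB0q1 ndB3q2 pcB0 Cut.none Ext.none)

def k0_pm_102 : ∃ t, chk3 f_pm_102 t 2 1 1 = true :=
  ⟨(b (b (a (a (b (a (b (l 16064264) (l 16110592)) (b (l 16031872) (l 16035096))) (a (l 2) (b (l 16040376) (l 2)))) (b (b (a (l 16004608) (l 15989616)) (a (l 16001512) (l 15977384))) (b (l 15982136) (l 15986096)))) (b (a (a (b (l 15996488) (l 15969792)) (b (a (l 16018136) (l 16077760)) (l 15980912))) (b (a (b (l 16071080) (l 16053840)) (b (a (l 16115912) (l 16148728)) (l 16113744))) (a (b (l 16031432) (l 16002384)) (b (l 16096936) (l 16078976))))) (a (b (l 16089960) (a (l 15959008) (l 15948488))) (b (a (l 15951784) (b (l 16056392) (l 16029288))) (a (l 15943656) (l 15995632)))))) (a (a (l 2) (b (b (l 16063536) (l 2)) (l 2))) (a (b (b (l 16030296) (l 16115720)) (a (l 2) (l 16178552))) (b (b (a (l 16067776) (l 16092512)) (a (l 16140320) (l 16172896)))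 (b (l 16196592) (l 16226656)))))) (a (l 2) (b (a (l 2) (b (l 16269832) (l 2))) (l 2)))), by decide +kernel⟩

def k1_pm_102 : ∃ t, chk3 f_pm_102 t 6 2 1 = true :=
  ⟨(b (b (a (b (a (b (a (l 16184232) (l 16225224)) (a (l 16162360) (l 16197936))) (a (l 16253840) (l 16295616))) (a (b (a (l 16147528) (l 16179368)) (l 16151992)) (b (a (l 16214856) (l 16253776)) (a (l 16199568) (l 16232536))))) (b (a (b (l 16501808) (l 16330752)) (l 16382368)) (a (b (l 16306200) (l 16282504)) (b (l 16357640) (l 16341504))))) (a (a (b (b (l 16141360) (l 16108344)) (a (l 16083000) (l 16114840))) (b (b (a (l 16191544) (l 16220616)) (l 16201568)) (a (l 16139056) (l 16217920)))) (b (a (b (a (l 16248504) (l 16278408)) (a (l 16240304) (l 16264688))) (b (l 16325256) (l 16310264))) (a (b (a (l 16239560) (l 16260808)) (l 16265288)) (b (a (l 16285000) (l 16316352)) (a (l 16295632) (l 16318344))))))) (b (a (a (b (l 16129624) (l 16217952)) (b (b (a (l 16191112) (l 16238392)) (l 16219456))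 (l 16277656))) (b (a (b (l 16282848) (l 16298512)) (b (a (l 16316528) (l 16346680)) (l 16373744))) (a (l 16371016) (b (l 16401344) (l 16416248))))) (a (a (l 16272296) (l 16323240)) (a (l 16377112) (b (l 16423712) (l 16420616)))))), by decide +kernel⟩

def k2_pm_102 : ∃ t, chk3 f_pm_102 t 7 2 1 = true :=
  ⟨(b (a (b (b (a (l 16453944) (l 16598072)) (a (l 16386824) (b (l 16415664) (l 16413064)))) (b (a (b (l 16378184) (l 16374096)) (b (l 16417608) (l 16419344))) (a (b (l 16361664) (l 16370608)) (b (l 16431632) (l 16439160))))) (b (b (a (b (l 16461016) (l 16451264)) (a (b (l 16482696) (l 16479136)) (b (l 16489912) (l 16487648)))) (a (b (l 16451088) (l 16487032)) (b (a (l 16495368) (l 16497920)) (a (l 16494976) (l 16487152))))) (b (a (b (l 16473968) (l 16469128)) (a (l 16476136) (l 16465992))) (a (l 16498944) (a (l 16451352) (l 16440224)))))) (a (b (a (b (b (l 16401344) (l 16421328)) (a (l 16435160) (b (l 16437776) (l 16445072)))) (b (b (l 16445112) (l 16445784))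 (a (l 16443496) (l 16443288)))) (a (b (a (l 16445608) (l 16449672)) (l 16443904)) (b (a (l 16445608) (b (l 16438056) (l 16437144))) (a (l 16441520) (l 16433376))))) (b (a (b (b (l 16456552) (l 16454144)) (a (l 16443280) (l 16443024))) (b (l 16505552) (c (l 16445304) (l 16610952)))) (b (a (a (l 16432208) (l 16428096)) (a (l 16422048) (l 16455944))) (a (a (l 16425440) (b (l 16419536) (l 16415608))) (a (l 16409072) (l 16399384))))))), by decide +kernel⟩

def k3_pm_102 : ∃ t, chk3 f_pm_102 t 3 3 1 = true :=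
  ⟨(a (b (a (b (l 16461240) (l 16377584)) (b (a (l 16392152) (l 16418640)) (l 16424648))) (a (l 2) (b (l 16458360) (l 2)))) (b (a (b (a (l 16431136) (b (l 16428592) (l 16419056))) (a (l 16430920) (l 16413720))) (b (b (a (a (l 16416768) (l 16408808)) (a (l 16398904) (b (l 16389952) (l 16384544)))) (a (l 16403280) (a (l 16388624) (l 16376528)))) (a (l 16392664) (b (l 16373272) (l 16365496))))) (a (b (l 16475328) (a (l 2) (l 16440200))) (a (b (l 16390840) (l 16399496)) (b (l 16359040) (l 16358472)))))), by decide +kernel⟩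

theorem s4_pm_102 : ∃ t, chk3 f_pm_102 t 3 2 1 = true := ex3_a k1_pm_102 k2_pm_102

theorem s5_pm_102 : ∃ t, chk3 f_pm_102 t 3 1 1 = true := ex3_b s4_pm_102 k3_pm_102

theorem s6_pm_102 : ∃ t, chk3 f_pm_102 t 1 1 1 = true := ex3_a k0_pm_102 s5_pm_102

theorem c_pm_102 : CertB 536870912 536870912 1073741824 536870912 740881858 40050571 3 eng mog cd0q1 cd3q2 pd0 false true false .npp 1 0 2
    ndB0q1 ndB3q2 pcB0 Cut.none Ext.none :=
  certB0 (fam := false) (s1 := true) (s2 := false) (a := 1) (b := 0) (c := 2) (cn := .npp) (n1 := ndB0q1) (n2 := ndB3q2) (pc := pcB0) (cut := Cut.none) (xt := Ext.none) (P1 := 536870912) (W1 := 536870912) (P2 := 1073741824) (W2 := 536870912) (P3 := 740881858) (W3 := 40050571) (N0 := 3) (En := eng) (mo := mog) (C1 := cd0q1) (C2 := cd3q2) (C3 := pd0)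
    rfl s6_pm_102

noncomputable def f_pm_112 : ℕ → ℕ → ℕ → ℕ → Bool := onCell 536870912 536870912 1073741824 536870912 740881858 40050571
    (rowB 3 eng mog cd0q1 cd3q2 pd1 0 false true false .dn 1 1 2 (qsf 536870912 536870912 1073741824 536870912 1) ndB0q1 ndB3q2 pcB1 Cut.none Ext.none)

def k0_pm_112 : ∃ t, chk3 f_pm_112 t 1 1 1 = true :=
  ⟨(a (b (a (b (a (a (b (b (l 16054688) (l 16048168)) (b (l 16038200) (l 16045784))) (b (l 260414606199) (b (l 16004184) (l 16023552)))) (b (b (l 1) (l 16008928)) (b (l 15956016) (l 15991056)))) (a (b (a (b (l 16070096) (l 16071816)) (l 16073136)) (a (l 16039680) (l 16065672))) (b (b (l 16052648) (l 16087976)) (l 16100336)))) (b (a (b (l 1) (b (l 1) (l 15962960))) (l 1)) (a (b (b (l 16046328) (l 16102816)) (l 16270728)) (b (l 224981295543) (l 16189536))))) (a (b (b (a (a (l 15981904) (l 16010304)) (b (l 16085384) (l 16063368))) (a (a (b (l 15889080) (l 15833632)) (l 15924296)) (l 16077464))) (a (b (a (b (l 15773456)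 (l 15714176)) (l 15829200)) (a (b (l 15650448) (l 15586560)) (l 15720320))) (b (l 15948872) (a (l 15819384) (l 15915664))))) (b (a (b (a (l 16135040) (l 16174656)) (l 16135208)) (b (l 16229248) (l 16238488))) (a (b (l 16098376) (l 16054712)) (b (l 16233528) (l 16226424)))))) (a (b (b (l 1) (a (b (l 1) (l 16254816)) (l 1))) (b (a (b (l 16292664) (l 16324712)) (b (l 16327224) (l 16373496))) (a (l 16565144) (l 16430136)))) (b (l 1) (b (a (b (l 1) (l 16611864)) (l 1)) (b (a (l 16402544) (a (l 16372080) (l 1))) (a (a (l 16460288) (l 16437888)) (a (l 16409736) (l 16376272)))))))), by decide +kernel⟩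

theorem c_pm_112 : CertB 536870912 536870912 1073741824 536870912 740881858 40050571 3 eng mog cd0q1 cd3q2 pd1 false true false .dn 1 1 2
    ndB0q1 ndB3q2 pcB1 Cut.none Ext.none :=
  certB0 (fam := false) (s1 := true) (s2 := false) (a := 1) (b := 1) (c := 2) (cn := .dn) (n1 := ndB0q1) (n2 := ndB3q2) (pc := pcB1) (cut := Cut.none) (xt := Ext.none) (P1 := 536870912) (W1 := 536870912) (P2 := 1073741824) (W2 := 536870912) (P3 := 740881858) (W3 := 40050571) (N0 := 3) (En := eng) (mo := mog) (C1 := cd0q1) (C2 := cd3q2) (C3 := pd1)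
    rfl k0_pm_112

noncomputable def cut_pm_113 : Cut := Cut.of [[⟨0, 1, 0, 67108864⟩, ⟨1, 1, 0, 67108864⟩, ⟨2, 2, 0, 16777216⟩]]

noncomputable def f_pm_113 : ℕ → ℕ → ℕ → ℕ → Bool := onCell 536870912 536870912 0 1230186008 740881858 40050571
    (rowB 3 eng mog cd0q1 cd3q3 pd1 0 false true false .nn 1 1 3 (qsf 536870912 536870912 0 1230186008 1) ndB0q1 ndB3q3 pcB1 cut_pm_113 Ext.none)

def k0_pm_113 : ∃ t, chk3 f_pm_113 t 1 2 1 = true :=
  ⟨(a (l 2) (a (l 2) (b (a (l 2) (a (l 2) (b (l 6) (a (l 546635430871) (b (l 6) (l 16771984)))))) (a (a (b (l 2) (l 16655600)) (b (l 16722280) (l 16737488))) (b (b (a (l 16774248) (a (l 16801432) (l 16802072))) (a (l 16787136) (a (l 16821336) (l 16815136)))) (b (a (l 16801720) (a (l 16844168) (l 16830416))) (a (l 16819152) (a (l 16871696) (l 16846304))))))))), by decide +kernel⟩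

def k1_pm_113 : ∃ t, chk3 f_pm_113 t 1 6 1 = true :=
  ⟨(a (b (l 2) (a (l 2) (b (l 2) (a (l 2) (b (l 2) (a (l 2) (a (l 2) (l 16262936)))))))) (b (a (a (l 2) (a (b (l 2) (b (l 16490448) (l 160087819255))) (b (l 16579136) (l 16581672)))) (a (a (b (l 16661968) (l 16669864)) (b (l 16753304) (l 16768376))) (a (b (l 16839920) (a (l 16840736) (l 16888304))) (a (b (l 16904480) (l 16898168)) (b (l 16863648) (a (l 16900704) (l 16872360))))))) (a (b (b (a (a (l 2) (l 16249576)) (a (l 16344976) (l 16588672))) (a (a (l 16058824) (l 16405320)) (a (l 16521328) (l 16620832)))) (a (b (a (l 16332512) (l 16443896)) (a (l 16352880) (l 16481608))) (b (a (l 16558744) (l 16661960)) (a (l 16594872) (l 16702992))))) (a (b (a (b (l 16680808) (l 16715128)) (b (l 16785120) (l 16824296))) (b (a (l 16759136) (l 16874784)) (b (l 16692752) (l 16817424)))) (b (a (c (l 16942048) (l 16879240)) (b (a (l 16963448) (l 16882048)) (a (l 16947600) (l 16884976)))) (a (b (l 16996176) (l 16991320))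 (a (b (l 16920240) (l 16891888)) (b (l 16814144) (l 16782400))))))))), by decide +kernel⟩

def k2_pm_113 : ∃ t, chk3 f_pm_113 t 1 7 1 = true :=
  ⟨(a (b (a (l 2) (b (a (a (l 2) (b (l 2) (l 125726489079))) (a (b (l 130558685815) (l 114989415479)) (b (l 16265680) (l 16271496)))) (a (b (a (l 2) (a (l 129484598167) (l 126263534183))) (a (l 163307523783) (l 15953856))) (a (b (a (l 16057280) (l 16142504)) (l 16110576)) (b (l 16270976) (l 16266112)))))) (a (a (b (l 2) (a (b (l 2) (a (l 237395183783) (l 206256778775))) (b (l 212162377399) (l 15648600)))) (b (a (b (l 2) (l 203572561671)) (b (l 193372167319) (l 15762632))) (a (b (l 15697424) (l 15764456)) (b (l 15818744) (l 15877808))))) (a (b (a (b (l 15845512) (l 15890760)) (b (l 15986872) (l 16021504))) (a (l 15963552) (l 16076960))) (b (a (l 16141296) (l 16273096)) (l 16238256))))) (b (a (b (a (a (b (l 16385704) (l 16390888)) (a (l 16469000) (l 16521432))) (a (l 16586544) (l 16618824))) (a (b (a (l 16395608)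 (l 16501248)) (l 16457552)) (b (a (l 16612816) (l 16735856)) (l 16703416)))) (a (b (a (l 16814080) (l 16970776)) (b (l 16779432) (l 16807344))) (b (a (l 16916448) (a (l 16830496) (b (l 16818688) (l 16787776)))) (b (a (l 16845608) (b (l 16750640) (l 16702728))) (a (l 16726384) (l 16624088)))))) (a (a (b (a (l 16395704) (l 16503840)) (l 16416552)) (b (l 16629296) (l 16525032))) (a (b (a (l 16668920) (l 16639336)) (a (l 16531680) (l 16499120))) (a (b (l 16579760) (l 16453400)) (b (l 16498640) (l 16399264))))))), by decide +kernel⟩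

theorem s3_pm_113 : ∃ t, chk3 f_pm_113 t 1 3 1 = true := ex3_b k1_pm_113 k2_pm_113

theorem s4_pm_113 : ∃ t, chk3 f_pm_113 t 1 1 1 = true := ex3_b k0_pm_113 s3_pm_113

theorem c_pm_113 : CertB 536870912 536870912 0 1230186008 740881858 40050571 3 eng mog cd0q1 cd3q3 pd1 false true false .nn 1 1 3
    ndB0q1 ndB3q3 pcB1 cut_pm_113 Ext.none :=
  certB0 (fam := false) (s1 := true) (s2 := false) (a := 1) (b := 1) (c := 3) (cn := .nn) (n1 := ndB0q1) (n2 := ndB3q3) (pc := pcB1) (cut := cut_pm_113) (xt := Ext.none) (P1 := 536870912) (W1 := 536870912) (P2 := 0) (W2 := 1230186008) (P3 := 740881858) (W3 := 40050571) (N0 := 3) (En := eng) (mo := mog) (C1 := cd0q1) (C2 := cd3q3) (C3 := pd1)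
    rfl s4_pm_113

noncomputable def cut_pm_123 : Cut := Cut.of [[⟨0, 1, 0, 67108864⟩, ⟨1, 1, 0, 67108864⟩, ⟨2, 2, 0, 16777216⟩]]

noncomputable def xt_pm_123 : Ext := extD2 3 ⟨4, 1, 1, 5, 7, 3, 99, 100, 9, 20, 1, 8⟩ eng cd0q1 cd3q3 pd2 false true false .npn 1 2 3 rfl ndB0q1 ndB3q3 pcB2

noncomputable def f_pm_123 : ℕ → ℕ → ℕ → ℕ → Bool := onCell 1073741824 536870912 0 1230186008 740881858 40050571
    (rowB 3 eng mog cd0q1 cd3q3 pd2 2 false true false .npn 1 2 3 (qsf 536870912 536870912 0 1230186008 2) ndB0q1 ndB3q3 pcB2 cut_pm_123 xt_pm_123)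

def k0_pm_123 : ∃ t, chk3 f_pm_123 t 1 2 1 = true :=
  ⟨(a (a (a (b (a (b (l 6) (b (l 6) (a (l 16707320) (l 16685256)))) (b (a (l 6) (l 16697432)) (a (l 16760032) (b (l 16667624) (l 16635536))))) (b (a (b (a (l 16675544) (l 16651544)) (a (l 16640024) (l 16614800))) (b (a (l 16625856) (l 16598312)) (a (l 16586032) (l 16555544)))) (a (b (a (l 16601512) (l 16569808)) (a (l 16545216) (l 16509400))) (b (l 16603840) (c (l 16488920) (l 16486872)))))) (b (a (b (l 16665584) (a (b (l 16642296) (l 16608368)) (l 16599328))) (b (a (l 16626216) (l 16611600)) (a (l 16574024) (l 16561240)))) (b (a (b (l 16557768) (l 16513272)) (b (l 16510880) (l 16463912))) (a (b (l 16459728) (l 16500576)) (b (l 16409064) (l 16490872)))))) (b (a (a (a (b (l 16608032) (l 16554608)) (b (a (l 16605064) (l 16645160)) (l 16545728))) (b (l 16592112) (l 16539232))) (a (b (l 16584320) (l 16534968)) (l 16349248))) (a (b (a (a (l 16466696) (l 16453968)) (l 16596560)) (a (b (l 16478784) (a (l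 16315472) (l 16294976))) (b (l 16363992) (l 16291368)))) (b (a (l 16454904) (l 16458976)) (a (b (l 16370424) (l 16298336)) (b (l 16373536) (l 16314216))))))) (a (b (a (b (l 16582032) (l 16388352)) (l 16555392)) (a (b (a (l 16460128) (l 16463560)) (a (l 16424496) (l 16374616))) (a (b (l 16472296) (l 16388880)) (l 16701616)))) (b (a (l 16560144) (l 16557456)) (a (b (l 16493600) (l 16489480)) (a (l 16462096) (l 16427160)))))), by decide +kernel⟩

def k1_pm_123 : ∃ t, chk3 f_pm_123 t 2 12 1 = true :=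
  ⟨(a (a (a (b (b (l 16475896) (c (l 16482648) (l 16391168))) (a (b (l 16414352) (l 16367640)) (b (l 16375176) (l 16330472)))) (a (b (l 16402232) (c (l 16369640) (l 16266576))) (b (l 16368736) (a (l 16295024) (l 16384632))))) (b (a (b (l 16342424) (l 16305168)) (a (l 16283224) (l 16260664))) (a (a (b (l 16278904) (l 16236176)) (a (l 16235584) (l 16408928))) (b (b (l 16220176) (l 16195880)) (a (l 16174840) (l 16146632)))))) (a (a (b (a (l 16235600) (l 16438960)) (a (b (l 16167496) (l 16121512)) (b (l 16143672) (l 16099720)))) (b (b (l 16227672) (l 16188744)) (a (l 16121408) (l 16132720)))) (a (b (l 16228864) (l 16151800)) (b (l 16249872) (l 16174256))))), by decide +kernel⟩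

def k2_pm_123 : ∃ t, chk3 f_pm_123 t 2 13 1 = true :=
  ⟨(a (b (a (a (a (b (b (l 16330344) (c (l 16377232) (l 16249784))) (b (c (l 16368480) (l 16248608)) (c (l 16360584) (l 16249072)))) (b (b (l 16295712) (l 16280232)) (b (l 16275344) (a (l 16277344) (l 16258072))))) (b (b (l 16248160) (a (l 16247616) (l 16233536))) (a (b (a (l 16248080) (l 16229824)) (l 16226392)) (b (l 16200768) (l 16185864))))) (a (b (a (a (l 16385416) (l 16201176)) (l 16259968)) (l 16119088)) (b (c (l 16163864) (l 16057880)) (l 16080136)))) (a (b (a (a (b (c (l 16349000) (a (l 16256936) (l 16237064))) (a (l 16296536) (l 16272432))) (b (l 16254240) (l 16238040))) (a (b (l 16210944) (l 16195152)) (l 16163832))) (a (a (b (c (l 16308136) (l 16225752)) (c (l 16278816) (l 139558845022224399))) (b (l 16221304) (c (l 16232688) (l 16154088)))) (a (l 16165992) (l 16127744)))) (a (b (a (l 16128256) (l 16094864)) (a (l 16092088) (l 16061280))) (b (l 16055504) (l 16024744))))) (b (b (a (a (a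 (l 16073808) (l 16054624)) (l 16061216)) (l 16098056)) (a (a (l 16038528) (l 16036008)) (l 16068960))) (a (a (b (l 16016208) (l 15987016)) (b (l 16015968) (l 15984024))) (a (l 16017416) (l 16037544))))), by decide +kernel⟩

def k3_pm_123 : ∃ t, chk3 f_pm_123 t 3 6 1 = true :=
  ⟨(b (a (a (b (l 16280080) (a (l 16196208) (l 16215376))) (b (l 16305032) (l 16227344))) (a (b (l 16314728) (l 1)) (l 1))) (a (b (a (a (l 16115504) (l 16125456)) (l 182568270135)) (a (a (l 16049712) (l 16057016)) (l 1))) (l 1))), by decide +kernel⟩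

def k4_pm_123 : ∃ t, chk3 f_pm_123 t 1 7 1 = true :=
  ⟨(a (b (a (b (a (a (b (a (b (l 16175448) (l 16150568)) (l 16130104)) (a (b (l 16085160) (l 16005536)) (a (l 16006248) (l 15984504)))) (a (b (l 16088016) (l 15955944)) (b (l 16042752) (l 15925528)))) (a (b (a (l 16005896) (l 15976104)) (a (l 15903008) (l 15887056))) (b (l 15944640) (l 15870768)))) (a (a (a (b (b (a (l 15941040) (l 15921104)) (a (l 15873416) (l 15857728))) (a (l 15801096) (l 15791256))) (b (b (l 15895592) (l 15839080)) (l 15779024))) (b (b (l 15858888) (l 15938240)) (l 15764256))) (b (a (l 15813088) (l 15805504)) (a (l 15756856) (l 15762800))))) (b (a (a (b (l 15922840) (l 15862248)) (b (l 15929784) (l 15879256))) (a (l 15926872) (l 15951736))) (a (a (b (l 15811464) (l 15775384)) (b (l 15833024) (l 15802776))) (l 1)))) (a (a (b (a (b (a (b (l 15736496) (l 15699872)) (l 15710408)) (a (a (l 15649760) (l 15648960)) (l 15649400))) (b (a (l 15706728) (l 15706464)) (a (l 15652608) (l 15659040))))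 (b (a (a (a (l 15588208) (l 15590936)) (b (l 15608824) (l 15584376))) (a (l 15605728) (l 15616320))) (a (a (b (l 15550368) (l 15526616)) (b (l 15561480) (l 15540248))) (a (l 15564720) (l 1))))) (b (a (b (a (l 15709224) (l 15715160)) (a (l 15667128) (l 15676512))) (b (l 15725528) (l 15694168))) (a (b (a (l 15629200) (l 1)) (l 1)) (l 1)))) (a (b (a (b (l 15747608) (l 1)) (l 1)) (l 1)) (l 1)))) (l 1)), by decide +kernel⟩

theorem s5_pm_123 : ∃ t, chk3 f_pm_123 t 2 6 1 = true := ex3_b k1_pm_123 k2_pm_123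

theorem s6_pm_123 : ∃ t, chk3 f_pm_123 t 1 6 1 = true := ex3_a s5_pm_123 k3_pm_123

theorem s7_pm_123 : ∃ t, chk3 f_pm_123 t 1 3 1 = true := ex3_b s6_pm_123 k4_pm_123

theorem s8_pm_123 : ∃ t, chk3 f_pm_123 t 1 1 1 = true := ex3_b k0_pm_123 s7_pm_123

theorem c_pm_123 : CertB 536870912 536870912 0 1230186008 740881858 40050571 3 eng mog cd0q1 cd3q3 pd2 false true false .npn 1 2 3
    ndB0q1 ndB3q3 pcB2 cut_pm_123 xt_pm_123 :=
  certB2 (fam := false) (s1 := true) (s2 := false) (a := 1) (b := 2) (c := 3) (cn := .npn) (n1 := ndB0q1) (n2 := ndB3q3) (pc := pcB2) (cut := cut_pm_123) (xt := xt_pm_123) (P1 := 536870912) (W1 := 536870912) (P2 := 0) (W2 := 1230186008) (P3 := 740881858) (W3 := 40050571) (N0 := 3) (En := eng) (mo := mog) (C1 := cd0q1) (C2 := cd3q3) (C3 := pd2)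
    rfl (fun _ => rfl) s8_pm_123

noncomputable def f_pm_133 : ℕ → ℕ → ℕ → ℕ → Bool := onCell 536870912 536870912 0 1230186008 740881858 40050571
    (rowB 3 eng mog cd0q1 cd3q3 pd3 0 false true false .dn 1 3 3 (qsf 536870912 536870912 0 1230186008 3) ndB0q1 ndB3q3 pcB3 Cut.none Ext.none)

def k0_pm_133 : ∃ t, chk3 f_pm_133 t 1 1 1 = true :=
  ⟨(b (b (a (a (a (l 16611928) (l 1)) (l 1)) (l 1)) (l 1)) (l 1)), by decide +kernel⟩

theorem c_pm_133 : CertB 536870912 536870912 0 1230186008 740881858 40050571 3 eng mog cd0q1 cd3q3 pd3 false true false .dn 1 3 3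
    ndB0q1 ndB3q3 pcB3 Cut.none Ext.none :=
  certB0 (fam := false) (s1 := true) (s2 := false) (a := 1) (b := 3) (c := 3) (cn := .dn) (n1 := ndB0q1) (n2 := ndB3q3) (pc := pcB3) (cut := Cut.none) (xt := Ext.none) (P1 := 536870912) (W1 := 536870912) (P2 := 0) (W2 := 1230186008) (P3 := 740881858) (W3 := 40050571) (N0 := 3) (En := eng) (mo := mog) (C1 := cd0q1) (C2 := cd3q3) (C3 := pd3)
    rfl k0_pm_133

noncomputable def f_pm_202 : ℕ → ℕ → ℕ → ℕ → Bool := onCell 0 536870912 0 536870912 740881858 40050571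
    (rowB 3 eng mog cd0q2 cd3q2 pd0 1 false true false .pp 2 0 2 (qsf 0 536870912 1073741824 536870912 0) ndB0q2 ndB3q2 pcB0 Cut.none Ext.none)

def k0_pm_202 : ∃ t, chk3 f_pm_202 t 2 1 1 = true :=
  ⟨(l 3), by decide +kernel⟩

def k1_pm_202 : ∃ t, chk3 f_pm_202 t 6 4 1 = true :=
  ⟨(b (a (a (l 3) (l 3)) (a (b (a (b (a (a (b (b (l 16518880) (l 16521536)) (l 170892296567)) (b (b (l 16526168) (l 16525880)) (b (l 16549288) (l 16572104)))) (b (l 16538840) (a (b (l 16534720) (l 16537320)) (l 16562760)))) (a (b (b (a (l 16522800) (l 16528352)) (l 16523448)) (l 186461554439)) (b (b (a (l 16534008) (l 16501320)) (a (l 16531840) (l 16540408))) (a (l 16571472) (l 16555984))))) (b (l 16516768) (a (b (c (l 16559488) (l 16461392)) (b (l 16466496) (l 16547240))) (b (l 16571520) (a (l 16559096) (l 16571296)))))) (a (b (a (b (l 185924679319) (l 16510376)) (b (a (l 16523408) (l 16531576)) (l 16522176))) (a (l 3) (b (l 16517160) (l 16533280)))) (b (a (b (a (l 16538664)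 (l 16547072)) (a (l 16534056) (l 16541304))) (b (l 16580312) (l 16553736))) (a (b (l 16532936) (l 16527416)) (b (l 16548248) (l 16542296)))))) (b (b (l 16610824) (a (l 16595720) (l 16593840))) (a (a (b (a (l 16588192) (l 16574968)) (l 16561992)) (b (l 16593688) (l 16597456))) (b (l 16586856) (l 16685224)))))) (a (l 3) (b (a (a (a (l 3) (b (b (l 16550352) (l 16505488)) (l 200420175479))) (a (b (l 16583240) (l 16512864)) (b (b (l 16537648) (l 16533760)) (l 16527456)))) (a (a (b (l 16508064) (l 16542256)) (b (l 16566608) (l 16557120))) (b (a (l 16583848) (l 16585048)) (l 16580864)))) (b (a (a (l 189682718999) (a (l 194514573623) (l 16520128))) (a (a (l 16535128) (l 16548416)) (l 16570688))) (a (a (l 3) (a (l 203641370551) (l 16514160))) (a (a (l 16527384) (l 16541552)) (l 16560616))))))), by decide +kernel⟩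

def k2_pm_202 : ∃ t, chk3 f_pm_202 t 7 4 1 = true :=
  ⟨(b (a (b (a (b (l 16592336) (l 16579720)) (b (l 16574248) (l 16561912))) (a (b (l 16567904) (l 16563352)) (b (l 16548424) (l 16535984)))) (b (a (b (a (l 16559152) (l 16569536)) (l 16543720)) (b (a (b (l 16529352) (l 16529240)) (l 16506104)) (a (l 16525320) (l 16506928)))) (a (l 16544504) (b (a (l 16514800) (l 16499680)) (l 16494584))))) (a (a (b (a (b (l 16572632) (l 16572352)) (l 16555808)) (a (b (l 16567184) (l 16562440)) (b (l 16554128) (l 16548352)))) (b (b (l 16530752) (l 16531264)) (l 16571120))) (a (b (b (l 16502840) (l 16496184)) (l 16558624)) (b (b (l 16479592) (l 16464888)) (b (l 16456192) (l 16454136)))))), by decide +kernel⟩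

def k3_pm_202 : ∃ t, chk3 f_pm_202 t 3 5 1 = true :=
  ⟨(a (b (a (l 3) (a (a (l 3) (b (b (a (l 189145852007) (l 16510744)) (a (l 180555914567) (l 16531336))) (c (b (l 16538568) (l 214915621831)) (b (l 16541296) (l 175724072087))))) (b (a (a (b (l 16522712) (l 16520824)) (l 16568608)) (a (l 16587696) (l 16556248))) (a (b (l 16422480) (a (l 16435456) (l 16527136))) (a (l 16536880) (l 16546456)))))) (a (l 3) (b (a (a (l 3) (c (l 207399432295) (l 164986647847))) (b (c (l 16533648) (l 16384264)) (a (l 16518872) (l 16529728)))) (a (l 3) (b (a (l 16516032) (l 16524264)) (l 144048838663)))))) (b (a (a (b (a (l 16553064) (l 16538712)) (a (l 16643888) (l 16525704))) (b (a (l 16400416) (l 16513056)) (a (l 16512888) (l 16499888)))) (a (b (l 16489904) (a (l 16486696) (l 16470448))) (b (l 16452320) (l 16443424)))) (a (a (b (a (b (l 16527472) (l 16519992)) (l 16511352)) (a (l 16509440) (l 16496928))) (b (c (l 16490320) (l 16495944)) (c (l 16476984) (l 16480560))))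 (b (a (b (l 16531840) (l 16460800)) (l 16555328)) (a (a (l 16457576) (l 16525824)) (b (l 16418224) (l 16411840))))))), by decide +kernel⟩

def k4_pm_202 : ∃ t, chk3 f_pm_202 t 3 3 1 = true :=
  ⟨(b (a (a (l 3) (a (l 3) (b (b (c (l 16603600) (l 145659404375)) (l 127405823943)) (b (l 125258298711) (l 129553232023))))) (b (a (a (b (a (l 16495744) (l 16482992)) (l 16476848)) (b (l 16485768) (l 16515024))) (b (a (l 16436408) (b (l 16405288) (l 16398664))) (a (l 16424064) (l 16389432)))) (a (a (b (l 16465008) (l 16453200)) (b (a (l 16446288) (l 16434016)) (l 16472016))) (a (l 16408048) (l 16374296))))) (a (b (a (l 3) (a (l 3) (b (l 130626964695) (l 173039727495)))) (l 2)) (b (a (a (b (l 16441784) (l 16431704)) (b (l 16420704) (l 16412096))) (a (b (l 16395168) (l 16388296)) (l 16359992))) (a (b (a (l 476841349111) (l 16405328)) (l 2)) (a (b (l 16383248) (l 16380296)) (l 16353112)))))), by decide +kernel⟩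

theorem s5_pm_202 : ∃ t, chk3 f_pm_202 t 3 4 1 = true := ex3_a k1_pm_202 k2_pm_202

theorem s6_pm_202 : ∃ t, chk3 f_pm_202 t 3 2 1 = true := ex3_b s5_pm_202 k3_pm_202

theorem s7_pm_202 : ∃ t, chk3 f_pm_202 t 3 1 1 = true := ex3_b s6_pm_202 k4_pm_202

theorem s8_pm_202 : ∃ t, chk3 f_pm_202 t 1 1 1 = true := ex3_a k0_pm_202 s7_pm_202

theorem c_pm_202 : CertB 0 536870912 1073741824 536870912 740881858 40050571 3 eng mog cd0q2 cd3q2 pd0 false true false .pp 2 0 2
    ndB0q2 ndB3q2 pcB0 Cut.none Ext.none :=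
  certB1 (fam := false) (s1 := true) (s2 := false) (a := 2) (b := 0) (c := 2) (cn := .pp) (n1 := ndB0q2) (n2 := ndB3q2) (pc := pcB0) (cut := Cut.none) (xt := Ext.none) (P1 := 0) (W1 := 536870912) (P2 := 1073741824) (W2 := 536870912) (P3 := 740881858) (W3 := 40050571) (N0 := 3) (En := eng) (mo := mog) (C1 := cd0q2) (C2 := cd3q2) (C3 := pd0)
    rfl (fun _ => rfl) s8_pm_202

noncomputable def f_pm_203 : ℕ → ℕ → ℕ → ℕ → Bool := onCell 0 536870912 0 1230186008 740881858 40050571
    (rowB 3 eng mog cd0q2 cd3q3 pd0 0 false true false .up 2 0 3 (qsf 0 536870912 0 1230186008 0) ndB0q2 ndB3q3 pcB0 Cut.none Ext.none)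

def k0_pm_203 : ∃ t, chk3 f_pm_203 t 1 1 1 = true :=
  ⟨(b (l 2) (a (l 3) (b (l 2) (b (l 2) (a (b (l 3) (a (l 3) (l 3))) (b (a (b (l 2) (a (a (l 326047906055) (l 2)) (l 2))) (l 2)) (a (a (b (a (l 16530200) (l 16413536)) (a (l 16418544) (l 16408296))) (b (l 16419984) (l 16393648))) (a (b (l 16378504) (l 16370544)) (b (l 2) (l 16341680)))))))))), by decide +kernel⟩

theorem c_pm_203 : CertB 0 536870912 0 1230186008 740881858 40050571 3 eng mog cd0q2 cd3q3 pd0 false true false .up 2 0 3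
    ndB0q2 ndB3q3 pcB0 Cut.none Ext.none :=
  certB0 (fam := false) (s1 := true) (s2 := false) (a := 2) (b := 0) (c := 3) (cn := .up) (n1 := ndB0q2) (n2 := ndB3q3) (pc := pcB0) (cut := Cut.none) (xt := Ext.none) (P1 := 0) (W1 := 536870912) (P2 := 0) (W2 := 1230186008) (P3 := 740881858) (W3 := 40050571) (N0 := 3) (En := eng) (mo := mog) (C1 := cd0q2) (C2 := cd3q3) (C3 := pd0)
    rfl k0_pm_203

noncomputable def cut_pm_213 : Cut := Cut.of [[⟨0, 1, 0, 67108864⟩, ⟨1, 1, 0, 67108864⟩, ⟨2, 2, 0, 16777216⟩]]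

noncomputable def f_pm_213 : ℕ → ℕ → ℕ → ℕ → Bool := onCell 0 536870912 0 1230186008 740881858 40050571
    (rowB 3 eng mog cd0q2 cd3q3 pd1 0 false true false .pnn 2 1 3 (qsf 0 536870912 0 1230186008 1) ndB0q2 ndB3q3 pcB1 cut_pm_213 Ext.none)

def k0_pm_213 : ∃ t, chk3 f_pm_213 t 2 2 1 = true :=
  ⟨(l 3), by decide +kernel⟩

def k1_pm_213 : ∃ t, chk3 f_pm_213 t 3 2 1 = true :=
  ⟨(b (a (l 3) (a (l 3) (b (l 6) (a (l 3) (a (b (l 6) (a (a (l 3) (c (b (l 388862343831) (b (l 294909919111) (l 220821718503))) (b (l 402820992023) (b (l 286319990615) (l 218137382999))))) (b (a (b (a (l 335712126087) (b (l 261087042071) (l 16784384))) (b (l 257865841575) (l 254644616215))) (b (l 16793824) (l 16784416))) (a (b (l 16784112) (l 16788232)) (l 16765504))))) (b (l 6) (b (a (l 16761160) (l 16779576)) (l 16741840)))))))) (a (l 3) (b (a (l 3) (a (a (l 3) (b (a (l 3) (b (l 3) (a (l 3) (b (l 379735539687) (l 230485383767))))) (a (b (l 3) (b (l 3) (l 280414416967))) (b (a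 (b (l 3) (l 230485370151)) (b (l 206326221415) (l 16798208))) (b (a (l 283635697591) (l 16798624)) (a (l 16796384) (l 16798480))))))) (b (a (a (b (b (a (l 348060149495) (l 246054705191)) (c (l 244444044551) (l 213305535415))) (b (a (l 212768672423) (l 16794456)) (l 16796368))) (b (b (l 16789544) (l 16791520)) (l 16794752))) (b (l 16787728) (l 16792544))) (a (b (a (b (l 16797976) (l 16799384)) (l 16799064)) (b (l 16801392) (l 16802288))) (l 16821568))))) (a (l 3) (a (b (a (b (l 3) (l 3)) (a (b (a (b (l 3) (l 253570895095)) (b (l 203641880967) (l 16792320))) (a (b (l 209547483575) (l 186462035367)) (b (l 16791856) (l 16791696)))) (b (b (l 16796864) (l 16796408)) (b (l 16796168) (l 16796224))))) (a (a (l 3) (b (b (l 256792081767) (a (l 3) (l 167134632759))) (c (b (l 205789331127) (l 16772472)) (l 162839703799)))) (b (b (a (l 176798338679) (l 16796688)) (a (l 16791272) (l 16797736))) (a (c (l 16780592) (l 16806424)) (l 16799872))))) (b (a (b (a (l 16759472)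 (l 16805104)) (l 16741280)) (l 16810760)) (a (b (l 16743184) (l 16767920)) (b (l 16816280) (l 16821592))))))))), by decide +kernel⟩

def k2_pm_213 : ∃ t, chk3 f_pm_213 t 2 6 1 = true :=
  ⟨(l 3), by decide +kernel⟩

def k3_pm_213 : ∃ t, chk3 f_pm_213 t 3 12 1 = true :=
  ⟨(a (l 3) (a (b (l 3) (a (l 3) (a (l 3) (a (l 3) (b (b (c (l 151028441143) (l 180556445127)) (c (l 140290982935) (l 141364885127))) (b (c (l 129016706919) (l 130627486823)) (c (l 117742431127) (a (l 127943145367) (l 16815072))))))))) (a (b (c (a (b (a (b (l 200420594711) (l 166060864135)) (l 16749696)) (a (b (l 158544667991) (l 144049094039)) (l 16746704))) (b (l 16784064) (l 16782936))) (a (b (a (b (l 164987168679) (l 158544723559)) (l 107005142343)) (a (b (l 151565408999) (l 142975484679)) (l 16813376))) (b (l 16816096) (l 16801632)))) (c (a (b (a (b (l 16734976) (l 16756392)) (l 16766408)) (b (l 16763664) (l 16766424))) (b (l 16782312) (l 16785768))) (b (a (a (b (l 16803288) (l 16808080))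 (l 16815560)) (l 16830712)) (a (a (b (l 16814592) (l 16822112)) (l 16828024)) (l 16801432))))) (b (b (a (l 16815008) (l 16828208)) (c (l 16747040) (l 16848000))) (a (b (l 16762952) (l 16770400)) (c (l 16803800) (l 16874800))))))), by decide +kernel⟩

def k4_pm_213 : ∃ t, chk3 f_pm_213 t 3 13 1 = true :=
  ⟨(a (l 3) (b (a (a (l 3) (a (l 3) (c (b (a (b (l 3) (b (l 232095948199) (l 135996039207))) (b (l 16750368) (b (l 16755168) (l 16750560)))) (b (b (l 117742442151) (l 116131819879)) (b (l 112910577143) (l 108078721335)))) (b (c (a (b (l 3) (l 200957520999)) (b (l 16803296) (l 16798576))) (b (a (l 3) (l 16838328)) (a (b (l 192367666391) (l 139217450871)) (a (l 16787416) (l 16834720))))) (a (b (b (l 135459320551) (l 131164324423)) (b (l 124184968487) (l 116131869127))) (b (a (l 16789184) (l 16794936)) (l 16765984))))))) (c (a (a (b (b (l 16770144) (l 16768384)) (c (l 16722928) (l 16763920))) (b (a (l 16784144) (l 16794528)) (l 16776144))) (b (a (l 16810280)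 (l 16831904)) (l 16767232))) (a (b (a (b (l 16814248) (a (l 16762728) (l 16836192))) (b (l 16854808) (l 16851768))) (a (b (l 16809288) (l 16784456)) (l 16820536))) (b (c (l 16804456) (a (l 16869552) (l 16910312))) (a (l 16842960) (l 16864600)))))) (a (a (l 3) (b (a (a (l 3) (b (l 3) (b (l 146733381767) (l 125795308231)))) (b (b (c (l 16714704) (l 94120024839)) (a (l 104320639991) (l 16720632))) (c (l 16694624) (a (l 16691872) (l 16705288))))) (a (a (l 3) (b (c (l 117742255191) (l 113984105655)) (b (l 104857254263) (l 16628952)))) (b (a (l 16663064) (l 16676680)) (b (l 16653616) (l 16649856)))))) (a (b (a (b (l 16703304) (l 16722568)) (a (l 16753512) (l 16766248))) (b (a (l 16697512) (l 16725304)) (a (l 16680840) (l 16710096)))) (b (c (l 16789792) (l 16806944)) (b (l 16766792) (l 16753848))))))), by decide +kernel⟩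

def k5_pm_213 : ∃ t, chk3 f_pm_213 t 1 7 1 = true :=
  ⟨(b (a (l 3) (a (l 3) (b (a (a (l 3) (b (a (b (a (l 204715217655) (l 90361722279)) (a (l 126868896759) (l 16591496))) (b (l 16641936) (l 16613088))) (b (a (b (l 90898495655) (l 16559400)) (l 16587528)) (a (b (l 16550504) (l 16542376)) (l 16565328))))) (a (b (b (l 16690400) (l 16665432)) (b (l 16632416) (l 16603240))) (b (l 16750576) (l 16671664)))) (a (b (a (a (l 3) (b (l 309941795239) (l 94656555863))) (a (b (l 16531488) (l 16516800)) (b (l 16547016) (l 16529000)))) (a (a (l 3) (l 102709677367)) (l 16552360))) (b (a (b (l 16577744) (l 16553136)) (a (l 16602184) (l 16635416))) (a (l 16507952) (l 16540536))))))) (a (l 3) (a (b (l 3) (l 1)) (b (a (b (a (a (l 3) (l 16494032)) (l 16453616)) (a (a (l 328732254663) (l 85529676407)) (a (l 16429824) (l 16428024)))) (a (b (l 16460232) (l 16425752)) (b (l 16472920) (l 16422600)))) (b (a (a (a (b (l 16428536) (l 1)) (l 16419936)) (a (l 16416592) (l 16412728)))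 (a (l 16404736) (l 16388848))) (a (l 1) (a (a (l 16399520) (l 16389328)) (l 16370312)))))))), by decide +kernel⟩

theorem s6_pm_213 : ∃ t, chk3 f_pm_213 t 3 6 1 = true := ex3_b k3_pm_213 k4_pm_213

theorem s7_pm_213 : ∃ t, chk3 f_pm_213 t 1 6 1 = true := ex3_a k2_pm_213 s6_pm_213

theorem s8_pm_213 : ∃ t, chk3 f_pm_213 t 1 3 1 = true := ex3_b s7_pm_213 k5_pm_213

theorem s9_pm_213 : ∃ t, chk3 f_pm_213 t 1 2 1 = true := ex3_a k0_pm_213 k1_pm_213

theorem s10_pm_213 : ∃ t, chk3 f_pm_213 t 1 1 1 = true := ex3_b s9_pm_213 s8_pm_213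

theorem c_pm_213 : CertB 0 536870912 0 1230186008 740881858 40050571 3 eng mog cd0q2 cd3q3 pd1 false true false .pnn 2 1 3
    ndB0q2 ndB3q3 pcB1 cut_pm_213 Ext.none :=
  certB0 (fam := false) (s1 := true) (s2 := false) (a := 2) (b := 1) (c := 3) (cn := .pnn) (n1 := ndB0q2) (n2 := ndB3q3) (pc := pcB1) (cut := cut_pm_213) (xt := Ext.none) (P1 := 0) (W1 := 536870912) (P2 := 0) (W2 := 1230186008) (P3 := 740881858) (W3 := 40050571) (N0 := 3) (En := eng) (mo := mog) (C1 := cd0q2) (C2 := cd3q3) (C3 := pd1)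
    rfl s10_pm_213

noncomputable def f_mm_001 : ℕ → ℕ → ℕ → ℕ → Bool := onCell 0 536870912 0 536870912 740881858 40050571
    (rowB 3 eng mog cd0q0 cd3q1 pd0 1 false false false .up 0 0 1 (qsf 0 536870912 536870912 536870912 0) ndB0q0 ndB3q1 pcB0 Cut.none Ext.none)

def k0_mm_001 : ∃ t, chk3 f_mm_001 t 1 1 1 = true :=
  ⟨(l 3), by decide +kernel⟩

theorem c_mm_001 : CertB 0 536870912 536870912 536870912 740881858 40050571 3 eng mog cd0q0 cd3q1 pd0 false false false .up 0 0 1
    ndB0q0 ndB3q1 pcB0 Cut.none Ext.none :=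
  certB1 (fam := false) (s1 := false) (s2 := false) (a := 0) (b := 0) (c := 1) (cn := .up) (n1 := ndB0q0) (n2 := ndB3q1) (pc := pcB0) (cut := Cut.none) (xt := Ext.none) (P1 := 0) (W1 := 536870912) (P2 := 536870912) (W2 := 536870912) (P3 := 740881858) (W3 := 40050571) (N0 := 3) (En := eng) (mo := mog) (C1 := cd0q0) (C2 := cd3q1) (C3 := pd0)
    rfl (fun _ => rfl) k0_mm_001

noncomputable def f_mm_011 : ℕ → ℕ → ℕ → ℕ → Bool := onCell 0 536870912 536870912 536870912 740881858 40050571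
    (rowB 3 eng mog cd0q0 cd3q1 pd1 1 false false false .pnn 0 1 1 (qsf 0 536870912 536870912 536870912 1) ndB0q0 ndB3q1 pcB1 Cut.none Ext.none)

def k0_mm_011 : ∃ t, chk3 f_mm_011 t 1 1 1 = true :=
  ⟨(l 5), by decide +kernel⟩

theorem c_mm_011 : CertB 0 536870912 536870912 536870912 740881858 40050571 3 eng mog cd0q0 cd3q1 pd1 false false false .pnn 0 1 1
    ndB0q0 ndB3q1 pcB1 Cut.none Ext.none :=
  certB1 (fam := false) (s1 := false) (s2 := false) (a := 0) (b := 1) (c := 1) (cn := .pnn) (n1 := ndB0q0) (n2 := ndB3q1) (pc := pcB1) (cut := Cut.none) (xt := Ext.none) (P1 := 0) (W1 := 536870912) (P2 := 536870912) (W2 := 536870912) (P3 := 740881858) (W3 := 40050571) (N0 := 3) (En := eng) (mo := mog) (C1 := cd0q0) (C2 := cd3q1) (C3 := pd1)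
    rfl (fun _ => rfl) k0_mm_011

noncomputable def f_mm_012 : ℕ → ℕ → ℕ → ℕ → Bool := onCell 0 536870912 1073741824 536870912 740881858 40050571
    (rowB 3 eng mog cd0q0 cd3q2 pd1 0 false false false .pnp 0 1 2 (qsf 0 536870912 1073741824 536870912 1) ndB0q0 ndB3q2 pcB1 Cut.none Ext.none)

def k0_mm_012 : ∃ t, chk3 f_mm_012 t 1 1 1 = true :=
  ⟨(l 5), by decide +kernel⟩

theorem c_mm_012 : CertB 0 536870912 1073741824 536870912 740881858 40050571 3 eng mog cd0q0 cd3q2 pd1 false false false .pnp 0 1 2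
    ndB0q0 ndB3q2 pcB1 Cut.none Ext.none :=
  certB0 (fam := false) (s1 := false) (s2 := false) (a := 0) (b := 1) (c := 2) (cn := .pnp) (n1 := ndB0q0) (n2 := ndB3q2) (pc := pcB1) (cut := Cut.none) (xt := Ext.none) (P1 := 0) (W1 := 536870912) (P2 := 1073741824) (W2 := 536870912) (P3 := 740881858) (W3 := 40050571) (N0 := 3) (En := eng) (mo := mog) (C1 := cd0q0) (C2 := cd3q2) (C3 := pd1)
    rfl k0_mm_012

noncomputable def f_mm_022 : ℕ → ℕ → ℕ → ℕ → Bool := onCell 0 536870912 1073741824 536870912 740881858 40050571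
    (rowB 3 eng mog cd0q0 cd3q2 pd2 0 false false false .pp 0 2 2 (qsf 0 536870912 1073741824 536870912 2) ndB0q0 ndB3q2 pcB2 Cut.none Ext.none)

def k0_mm_022 : ∃ t, chk3 f_mm_022 t 1 1 1 = true :=
  ⟨(l 5), by decide +kernel⟩

theorem c_mm_022 : CertB 0 536870912 1073741824 536870912 740881858 40050571 3 eng mog cd0q0 cd3q2 pd2 false false false .pp 0 2 2
    ndB0q0 ndB3q2 pcB2 Cut.none Ext.none :=
  certB0 (fam := false) (s1 := false) (s2 := false) (a := 0) (b := 2) (c := 2) (cn := .pp) (n1 := ndB0q0) (n2 := ndB3q2) (pc := pcB2) (cut := Cut.none) (xt := Ext.none) (P1 := 0) (W1 := 536870912) (P2 := 1073741824) (W2 := 536870912) (P3 := 740881858) (W3 := 40050571) (N0 := 3) (En := eng) (mo := mog) (C1 := cd0q0) (C2 := cd3q2) (C3 := pd2)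
    rfl k0_mm_022

noncomputable def f_mm_023 : ℕ → ℕ → ℕ → ℕ → Bool := onCell 0 536870912 0 1230186008 740881858 40050571
    (rowB 3 eng mog cd0q0 cd3q3 pd2 0 false false false .up 0 2 3 (qsf 0 536870912 0 1230186008 2) ndB0q0 ndB3q3 pcB2 Cut.none Ext.none)

def k0_mm_023 : ∃ t, chk3 f_mm_023 t 1 1 1 = true :=
  ⟨(l 5), by decide +kernel⟩

theorem c_mm_023 : CertB 0 536870912 0 1230186008 740881858 40050571 3 eng mog cd0q0 cd3q3 pd2 false false false .up 0 2 3
    ndB0q0 ndB3q3 pcB2 Cut.none Ext.none :=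
  certB0 (fam := false) (s1 := false) (s2 := false) (a := 0) (b := 2) (c := 3) (cn := .up) (n1 := ndB0q0) (n2 := ndB3q3) (pc := pcB2) (cut := Cut.none) (xt := Ext.none) (P1 := 0) (W1 := 536870912) (P2 := 0) (W2 := 1230186008) (P3 := 740881858) (W3 := 40050571) (N0 := 3) (En := eng) (mo := mog) (C1 := cd0q0) (C2 := cd3q3) (C3 := pd2)
    rfl k0_mm_023

noncomputable def f_mm_033 : ℕ → ℕ → ℕ → ℕ → Bool := onCell 0 536870912 0 1230186008 740881858 40050571
    (rowB 3 eng mog cd0q0 cd3q3 pd3 0 false false false .pnn 0 3 3 (qsf 0 536870912 0 1230186008 3) ndB0q0 ndB3q3 pcB3 Cut.none Ext.none)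

def k0_mm_033 : ∃ t, chk3 f_mm_033 t 1 1 1 = true :=
  ⟨(l 5), by decide +kernel⟩

theorem c_mm_033 : CertB 0 536870912 0 1230186008 740881858 40050571 3 eng mog cd0q0 cd3q3 pd3 false false false .pnn 0 3 3
    ndB0q0 ndB3q3 pcB3 Cut.none Ext.none :=
  certB0 (fam := false) (s1 := false) (s2 := false) (a := 0) (b := 3) (c := 3) (cn := .pnn) (n1 := ndB0q0) (n2 := ndB3q3) (pc := pcB3) (cut := Cut.none) (xt := Ext.none) (P1 := 0) (W1 := 536870912) (P2 := 0) (W2 := 1230186008) (P3 := 740881858) (W3 := 40050571) (N0 := 3) (En := eng) (mo := mog) (C1 := cd0q0) (C2 := cd3q3) (C3 := pd3)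
    rfl k0_mm_033

noncomputable def cut_mm_101 : Cut := Cut.of [[⟨0, 1, 0, 67108864⟩, ⟨1, 0, 0, 67108864⟩, ⟨2, 1, 0, 67108864⟩]]

noncomputable def f_mm_101 : ℕ → ℕ → ℕ → ℕ → Bool := onCell 536870912 536870912 0 536870912 740881858 40050571
    (rowB 3 eng mog cd0q1 cd3q1 pd0 1 false false false .npn 1 0 1 (qsf 536870912 536870912 536870912 536870912 0) ndB0q1 ndB3q1 pcB0 cut_mm_101 Ext.none)

def k0_mm_101 : ∃ t, chk3 f_mm_101 t 1 1 1 = true :=
  ⟨(a (l 3) (b (a (l 3) (b (a (l 3) (b (a (l 3) (b (l 6) (l 3))) (l 3))) (l 3))) (l 3))), by decide +kernel⟩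

theorem c_mm_101 : CertB 536870912 536870912 536870912 536870912 740881858 40050571 3 eng mog cd0q1 cd3q1 pd0 false false false .npn 1 0 1
    ndB0q1 ndB3q1 pcB0 cut_mm_101 Ext.none :=
  certB1 (fam := false) (s1 := false) (s2 := false) (a := 1) (b := 0) (c := 1) (cn := .npn) (n1 := ndB0q1) (n2 := ndB3q1) (pc := pcB0) (cut := cut_mm_101) (xt := Ext.none) (P1 := 536870912) (W1 := 536870912) (P2 := 536870912) (W2 := 536870912) (P3 := 740881858) (W3 := 40050571) (N0 := 3) (En := eng) (mo := mog) (C1 := cd0q1) (C2 := cd3q1) (C3 := pd0)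
    rfl (fun _ => rfl) k0_mm_101

noncomputable def f_mm_102 : ℕ → ℕ → ℕ → ℕ → Bool := onCell 536870912 536870912 0 536870912 740881858 40050571
    (rowB 3 eng mog cd0q1 cd3q2 pd0 1 false false false .npp 1 0 2 (qsf 536870912 536870912 1073741824 536870912 0) ndB0q1 ndB3q2 pcB0 Cut.none Ext.none)

def k0_mm_102 : ∃ t, chk3 f_mm_102 t 1 1 1 = true :=
  ⟨(l 3), by decide +kernel⟩

theorem c_mm_102 : CertB 536870912 536870912 1073741824 536870912 740881858 40050571 3 eng mog cd0q1 cd3q2 pd0 false false false .npp 1 0 2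
    ndB0q1 ndB3q2 pcB0 Cut.none Ext.none :=
  certB1 (fam := false) (s1 := false) (s2 := false) (a := 1) (b := 0) (c := 2) (cn := .npp) (n1 := ndB0q1) (n2 := ndB3q2) (pc := pcB0) (cut := Cut.none) (xt := Ext.none) (P1 := 536870912) (W1 := 536870912) (P2 := 1073741824) (W2 := 536870912) (P3 := 740881858) (W3 := 40050571) (N0 := 3) (En := eng) (mo := mog) (C1 := cd0q1) (C2 := cd3q2) (C3 := pd0)
    rfl (fun _ => rfl) k0_mm_102

noncomputable def f_mm_112 : ℕ → ℕ → ℕ → ℕ → Bool := onCell 536870912 536870912 1073741824 536870912 740881858 40050571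
    (rowB 3 eng mog cd0q1 cd3q2 pd1 2 false false false .dn 1 1 2 (qsf 536870912 536870912 1073741824 536870912 1) ndB0q1 ndB3q2 pcB1 Cut.none Ext.none)

def k0_mm_112 : ∃ t, chk3 f_mm_112 t 1 1 1 = true :=
  ⟨(l 5), by decide +kernel⟩

theorem c_mm_112 : CertB 536870912 536870912 1073741824 536870912 740881858 40050571 3 eng mog cd0q1 cd3q2 pd1 false false false .dn 1 1 2
    ndB0q1 ndB3q2 pcB1 Cut.none Ext.none :=
  certB2 (fam := false) (s1 := false) (s2 := false) (a := 1) (b := 1) (c := 2) (cn := .dn) (n1 := ndB0q1) (n2 := ndB3q2) (pc := pcB1) (cut := Cut.none) (xt := Ext.none) (P1 := 536870912) (W1 := 536870912) (P2 := 1073741824) (W2 := 536870912) (P3 := 740881858) (W3 := 40050571) (N0 := 3) (En := eng) (mo := mog) (C1 := cd0q1) (C2 := cd3q2) (C3 := pd1)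
    rfl (fun _ => rfl) k0_mm_112

noncomputable def f_mm_113 : ℕ → ℕ → ℕ → ℕ → Bool := onCell 536870912 536870912 0 1230186008 740881858 40050571
    (rowB 3 eng mog cd0q1 cd3q3 pd1 0 false false false .nn 1 1 3 (qsf 536870912 536870912 0 1230186008 1) ndB0q1 ndB3q3 pcB1 Cut.none Ext.none)

def k0_mm_113 : ∃ t, chk3 f_mm_113 t 1 1 1 = true :=
  ⟨(b (l 5) (l 5)), by decide +kernel⟩

theorem c_mm_113 : CertB 536870912 536870912 0 1230186008 740881858 40050571 3 eng mog cd0q1 cd3q3 pd1 false false false .nn 1 1 3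
    ndB0q1 ndB3q3 pcB1 Cut.none Ext.none :=
  certB0 (fam := false) (s1 := false) (s2 := false) (a := 1) (b := 1) (c := 3) (cn := .nn) (n1 := ndB0q1) (n2 := ndB3q3) (pc := pcB1) (cut := Cut.none) (xt := Ext.none) (P1 := 536870912) (W1 := 536870912) (P2 := 0) (W2 := 1230186008) (P3 := 740881858) (W3 := 40050571) (N0 := 3) (En := eng) (mo := mog) (C1 := cd0q1) (C2 := cd3q3) (C3 := pd1)
    rfl k0_mm_113

noncomputable def f_mm_123 : ℕ → ℕ → ℕ → ℕ → Bool := onCell 536870912 536870912 0 1230186008 740881858 40050571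
    (rowB 3 eng mog cd0q1 cd3q3 pd2 0 false false false .npn 1 2 3 (qsf 536870912 536870912 0 1230186008 2) ndB0q1 ndB3q3 pcB2 Cut.none Ext.none)

def k0_mm_123 : ∃ t, chk3 f_mm_123 t 1 1 1 = true :=
  ⟨(b (l 5) (l 5)), by decide +kernel⟩

theorem c_mm_123 : CertB 536870912 536870912 0 1230186008 740881858 40050571 3 eng mog cd0q1 cd3q3 pd2 false false false .npn 1 2 3
    ndB0q1 ndB3q3 pcB2 Cut.none Ext.none :=
  certB0 (fam := false) (s1 := false) (s2 := false) (a := 1) (b := 2) (c := 3) (cn := .npn) (n1 := ndB0q1) (n2 := ndB3q3) (pc := pcB2) (cut := Cut.none) (xt := Ext.none) (P1 := 536870912) (W1 := 536870912) (P2 := 0) (W2 := 1230186008) (P3 := 740881858) (W3 := 40050571) (N0 := 3) (En := eng) (mo := mog) (C1 := cd0q1) (C2 := cd3q3) (C3 := pd2)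
    rfl k0_mm_123

noncomputable def f_mm_133 : ℕ → ℕ → ℕ → ℕ → Bool := onCell 1610612736 536870912 0 1230186008 740881858 40050571
    (rowB 3 eng mog cd0q1 cd3q3 pd3 2 false false false .dn 1 3 3 (qsf 536870912 536870912 0 1230186008 3) ndB0q1 ndB3q3 pcB3 Cut.none Ext.none)

def k0_mm_133 : ∃ t, chk3 f_mm_133 t 1 1 1 = true :=
  ⟨(l 5), by decide +kernel⟩

theorem c_mm_133 : CertB 536870912 536870912 0 1230186008 740881858 40050571 3 eng mog cd0q1 cd3q3 pd3 false false false .dn 1 3 3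
    ndB0q1 ndB3q3 pcB3 Cut.none Ext.none :=
  certB2 (fam := false) (s1 := false) (s2 := false) (a := 1) (b := 3) (c := 3) (cn := .dn) (n1 := ndB0q1) (n2 := ndB3q3) (pc := pcB3) (cut := Cut.none) (xt := Ext.none) (P1 := 536870912) (W1 := 536870912) (P2 := 0) (W2 := 1230186008) (P3 := 740881858) (W3 := 40050571) (N0 := 3) (En := eng) (mo := mog) (C1 := cd0q1) (C2 := cd3q3) (C3 := pd3)
    rfl (fun _ => rfl) k0_mm_133

noncomputable def f_mm_202 : ℕ → ℕ → ℕ → ℕ → Bool := onCell 0 536870912 1073741824 536870912 740881858 40050571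
    (rowB 3 eng mog cd0q2 cd3q2 pd0 0 false false false .pp 2 0 2 (qsf 0 536870912 1073741824 536870912 0) ndB0q2 ndB3q2 pcB0 Cut.none Ext.none)

def k0_mm_202 : ∃ t, chk3 f_mm_202 t 1 1 1 = true :=
  ⟨(l 3), by decide +kernel⟩

theorem c_mm_202 : CertB 0 536870912 1073741824 536870912 740881858 40050571 3 eng mog cd0q2 cd3q2 pd0 false false false .pp 2 0 2
    ndB0q2 ndB3q2 pcB0 Cut.none Ext.none :=
  certB0 (fam := false) (s1 := false) (s2 := false) (a := 2) (b := 0) (c := 2) (cn := .pp) (n1 := ndB0q2) (n2 := ndB3q2) (pc := pcB0) (cut := Cut.none) (xt := Ext.none) (P1 := 0) (W1 := 536870912) (P2 := 1073741824) (W2 := 536870912) (P3 := 740881858) (W3 := 40050571) (N0 := 3) (En := eng) (mo := mog) (C1 := cd0q2) (C2 := cd3q2) (C3 := pd0)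
    rfl k0_mm_202

noncomputable def f_mm_203 : ℕ → ℕ → ℕ → ℕ → Bool := onCell 0 536870912 0 1230186008 740881858 40050571
    (rowB 3 eng mog cd0q2 cd3q3 pd0 0 false false false .up 2 0 3 (qsf 0 536870912 0 1230186008 0) ndB0q2 ndB3q3 pcB0 Cut.none Ext.none)

def k0_mm_203 : ∃ t, chk3 f_mm_203 t 1 1 1 = true :=
  ⟨(b (l 2) (l 3)), by decide +kernel⟩

theorem c_mm_203 : CertB 0 536870912 0 1230186008 740881858 40050571 3 eng mog cd0q2 cd3q3 pd0 false false false .up 2 0 3
    ndB0q2 ndB3q3 pcB0 Cut.none Ext.none :=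
  certB0 (fam := false) (s1 := false) (s2 := false) (a := 2) (b := 0) (c := 3) (cn := .up) (n1 := ndB0q2) (n2 := ndB3q3) (pc := pcB0) (cut := Cut.none) (xt := Ext.none) (P1 := 0) (W1 := 536870912) (P2 := 0) (W2 := 1230186008) (P3 := 740881858) (W3 := 40050571) (N0 := 3) (En := eng) (mo := mog) (C1 := cd0q2) (C2 := cd3q3) (C3 := pd0)
    rfl k0_mm_203

noncomputable def f_mm_213 : ℕ → ℕ → ℕ → ℕ → Bool := onCell 0 536870912 0 1230186008 740881858 40050571
    (rowB 3 eng mog cd0q2 cd3q3 pd1 0 false false false .pnn 2 1 3 (qsf 0 536870912 0 1230186008 1) ndB0q2 ndB3q3 pcB1 Cut.none Ext.none)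

def k0_mm_213 : ∃ t, chk3 f_mm_213 t 1 1 1 = true :=
  ⟨(b (a (l 3) (l 5)) (l 3)), by decide +kernel⟩

theorem c_mm_213 : CertB 0 536870912 0 1230186008 740881858 40050571 3 eng mog cd0q2 cd3q3 pd1 false false false .pnn 2 1 3
    ndB0q2 ndB3q3 pcB1 Cut.none Ext.none :=
  certB0 (fam := false) (s1 := false) (s2 := false) (a := 2) (b := 1) (c := 3) (cn := .pnn) (n1 := ndB0q2) (n2 := ndB3q3) (pc := pcB1) (cut := Cut.none) (xt := Ext.none) (P1 := 0) (W1 := 536870912) (P2 := 0) (W2 := 1230186008) (P3 := 740881858) (W3 := 40050571) (N0 := 3) (En := eng) (mo := mog) (C1 := cd0q2) (C2 := cd3q3) (C3 := pd1)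
    rfl k0_mm_213

end Pool.Agent.Strip051.G.I69_7273.Tab.C.BB03

namespace Pool.Agent.Strip051.G.I69_7273.Tab.C.BB04

open Pool.Agent.Strip051.PB Pool.Agent.Strip051.PB.T
open Pool.Agent.Strip051.G.I69_7273.Tab

noncomputable def f_pp_001 : ℕ → ℕ → ℕ → ℕ → Bool := onCell 0 536870912 0 536870912 740881858 40050571
    (rowB 3 eng mog cd0q0 cd4q1 pd0 1 false true true .up 0 0 1 (qsf 0 536870912 536870912 536870912 0) ndB0q0 ndB4q1 pcB0 Cut.none Ext.none)

def k0_pp_001 : ∃ t, chk3 f_pp_001 t 1 1 1 = true :=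
  ⟨(l 3), by decide +kernel⟩

theorem c_pp_001 : CertB 0 536870912 536870912 536870912 740881858 40050571 3 eng mog cd0q0 cd4q1 pd0 false true true .up 0 0 1
    ndB0q0 ndB4q1 pcB0 Cut.none Ext.none :=
  certB1 (fam := false) (s1 := true) (s2 := true) (a := 0) (b := 0) (c := 1) (cn := .up) (n1 := ndB0q0) (n2 := ndB4q1) (pc := pcB0) (cut := Cut.none) (xt := Ext.none) (P1 := 0) (W1 := 536870912) (P2 := 536870912) (W2 := 536870912) (P3 := 740881858) (W3 := 40050571) (N0 := 3) (En := eng) (mo := mog) (C1 := cd0q0) (C2 := cd4q1) (C3 := pd0)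
    rfl (fun _ => rfl) k0_pp_001

noncomputable def cut_pp_011 : Cut := Cut.of [[⟨0, 0, 0, 67108864⟩, ⟨1, 1, 0, 67108864⟩, ⟨2, 1, 0, 67108864⟩]]

noncomputable def f_pp_011 : ℕ → ℕ → ℕ → ℕ → Bool := onCell 0 536870912 536870912 536870912 740881858 40050571
    (rowB 3 eng mog cd0q0 cd4q1 pd1 1 false true true .pnn 0 1 1 (qsf 0 536870912 536870912 536870912 1) ndB0q0 ndB4q1 pcB1 cut_pp_011 Ext.none)

def k0_pp_011 : ∃ t, chk3 f_pp_011 t 1 1 1 = true :=
  ⟨(b (l 3) (a (b (l 3) (a (b (l 3) (a (b (l 3) (a (l 6) (l 3))) (l 3))) (l 3))) (l 3))), by decide +kernel⟩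

theorem c_pp_011 : CertB 0 536870912 536870912 536870912 740881858 40050571 3 eng mog cd0q0 cd4q1 pd1 false true true .pnn 0 1 1
    ndB0q0 ndB4q1 pcB1 cut_pp_011 Ext.none :=
  certB1 (fam := false) (s1 := true) (s2 := true) (a := 0) (b := 1) (c := 1) (cn := .pnn) (n1 := ndB0q0) (n2 := ndB4q1) (pc := pcB1) (cut := cut_pp_011) (xt := Ext.none) (P1 := 0) (W1 := 536870912) (P2 := 536870912) (W2 := 536870912) (P3 := 740881858) (W3 := 40050571) (N0 := 3) (En := eng) (mo := mog) (C1 := cd0q0) (C2 := cd4q1) (C3 := pd1)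
    rfl (fun _ => rfl) k0_pp_011

noncomputable def f_pp_012 : ℕ → ℕ → ℕ → ℕ → Bool := onCell 0 536870912 536870912 536870912 740881858 40050571
    (rowB 3 eng mog cd0q0 cd4q2 pd1 1 false true true .pnp 0 1 2 (qsf 0 536870912 1073741824 536870912 1) ndB0q0 ndB4q2 pcB1 Cut.none Ext.none)

def k0_pp_012 : ∃ t, chk3 f_pp_012 t 1 1 1 = true :=
  ⟨(l 3), by decide +kernel⟩

theorem c_pp_012 : CertB 0 536870912 1073741824 536870912 740881858 40050571 3 eng mog cd0q0 cd4q2 pd1 false true true .pnp 0 1 2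
    ndB0q0 ndB4q2 pcB1 Cut.none Ext.none :=
  certB1 (fam := false) (s1 := true) (s2 := true) (a := 0) (b := 1) (c := 2) (cn := .pnp) (n1 := ndB0q0) (n2 := ndB4q2) (pc := pcB1) (cut := Cut.none) (xt := Ext.none) (P1 := 0) (W1 := 536870912) (P2 := 1073741824) (W2 := 536870912) (P3 := 740881858) (W3 := 40050571) (N0 := 3) (En := eng) (mo := mog) (C1 := cd0q0) (C2 := cd4q2) (C3 := pd1)
    rfl (fun _ => rfl) k0_pp_012

noncomputable def f_pp_022 : ℕ → ℕ → ℕ → ℕ → Bool := onCell 0 536870912 1073741824 536870912 740881858 40050571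
    (rowB 3 eng mog cd0q0 cd4q2 pd2 1 false true true .pp 0 2 2 (qsf 0 536870912 1073741824 536870912 2) ndB0q0 ndB4q2 pcB2 Cut.none Ext.none)

def k0_pp_022 : ∃ t, chk3 f_pp_022 t 1 4 1 = true :=
  ⟨(a (l 3) (l 3)), by decide +kernel⟩

def k1_pp_022 : ∃ t, chk3 f_pp_022 t 1 5 1 = true :=
  ⟨(a (b (b (b (l 3) (b (l 3) (a (b (l 3) (a (c (b (b (l 3) (a (a (l 16444856) (l 16460512)) (l 16469952))) (a (l 16430496) (l 16465720))) (b (a (b (l 3) (l 16441296)) (l 16446984)) (a (l 16436784) (l 16441320)))) (b (l 3) (a (l 16457800) (l 16464712))))) (b (l 3) (a (b (a (l 3) (c (l 3467279764167) (l 16523576))) (a (l 16480696) (l 16503600))) (b (a (c (l 16593712) (l 16545112)) (c (l 16568288) (l 16542128))) (a (l 16524080) (l 16541584)))))))) (a (a (a (a (c (l 16415208) (l 16385120)) (c (l 16416376) (l 16388920))) (a (c (l 16418112) (l 16393008)) (b (l 16430880) (l 16389008)))) (a (a (l 16392288) (l 16438152)) (a (l 16422280) (l 16429408)))) (a (a (a (l 16438984)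 (l 16451384)) (l 16513456)) (a (l 16495464) (l 16516304))))) (a (a (b (a (c (b (l 16347736) (l 16304944)) (l 16298400)) (a (l 16322832) (l 16329664))) (a (l 16252544) (l 16252040))) (a (b (l 16382208) (l 16273200)) (b (l 16357440) (l 16297120)))) (a (a (b (l 16383560) (l 16329872)) (b (l 16416728) (l 16369680))) (b (a (l 16447168) (l 16474312)) (a (l 16406624) (l 16440168)))))) (b (b (b (a (l 3) (a (l 3) (l 2))) (a (b (a (l 3) (a (l 3) (b (l 3) (l 16596600)))) (b (a (a (l 16586760) (l 16622448)) (a (b (l 16589896) (l 16588792)) (l 16700176))) (a (b (a (c (l 16585312) (l 16559864)) (l 16661304)) (a (l 16559264) (l 16574952))) (b (a (l 16670744) (l 17280387159)) (a (l 16584832) (l 16591848)))))) (l 2))) (a (a (a (l 16579312) (l 16577520)) (a (l 16590848) (l 16580416))) (l 2))) (a (a (b (a (l 16501816) (l 16527600)) (a (l 16474152) (l 16506008))) (b (a (l 16546944) (l 2)) (l 2))) (l 2)))), by decide +kernel⟩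

def k2_pp_022 : ∃ t, chk3 f_pp_022 t 1 3 1 = true :=
  ⟨(a (a (b (a (b (a (b (l 16158136) (l 16093312)) (b (l 16186072) (l 16128792))) (a (l 16034408) (l 16081328))) (b (a (b (l 16214352) (l 16164232)) (b (l 16245056) (l 16201768))) (a (l 16106656) (l 16154560)))) (a (b (a (l 15942872) (l 16005240)) (a (l 15918752) (l 15996472))) (b (a (l 16066120) (l 16127696)) (a (l 16070032) (l 2))))) (b (a (b (a (b (l 16284464) (l 16247896)) (b (l 16330944) (l 16301096))) (a (l 16210800) (l 16273680))) (b (b (a (l 16374440) (l 16414344)) (l 16374464)) (a (l 16332632) (l 2)))) (a (b (a (l 16196736) (l 2)) (l 2)) (l 2)))) (b (a (b (a (b (a (l 16454296) (l 2)) (l 2)) (l 2)) (l 2)) (l 2)) (l 2))), by decide +kernel⟩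

theorem s3_pp_022 : ∃ t, chk3 f_pp_022 t 1 2 1 = true := ex3_b k0_pp_022 k1_pp_022

theorem s4_pp_022 : ∃ t, chk3 f_pp_022 t 1 1 1 = true := ex3_b s3_pp_022 k2_pp_022

theorem c_pp_022 : CertB 0 536870912 1073741824 536870912 740881858 40050571 3 eng mog cd0q0 cd4q2 pd2 false true true .pp 0 2 2
    ndB0q0 ndB4q2 pcB2 Cut.none Ext.none :=
  certB1 (fam := false) (s1 := true) (s2 := true) (a := 0) (b := 2) (c := 2) (cn := .pp) (n1 := ndB0q0) (n2 := ndB4q2) (pc := pcB2) (cut := Cut.none) (xt := Ext.none) (P1 := 0) (W1 := 536870912) (P2 := 1073741824) (W2 := 536870912) (P3 := 740881858) (W3 := 40050571) (N0 := 3) (En := eng) (mo := mog) (C1 := cd0q0) (C2 := cd4q2) (C3 := pd2)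
    rfl (fun _ => rfl) s4_pp_022

noncomputable def f_pp_023 : ℕ → ℕ → ℕ → ℕ → Bool := onCell 1073741824 536870912 0 1230186008 740881858 40050571
    (rowB 3 eng mog cd0q0 cd4q3 pd2 2 false true true .up 0 2 3 (qsf 0 536870912 0 1230186008 2) ndB0q0 ndB4q3 pcB2 Cut.none Ext.none)

def k0_pp_023 : ∃ t, chk3 f_pp_023 t 1 2 1 = true :=
  ⟨(a (l 2) (a (l 2) (b (a (l 2) (l 16605144)) (a (b (l 16664416) (l 16657448)) (b (l 16639352) (l 16633232)))))), by decide +kernel⟩

def k1_pp_023 : ∃ t, chk3 f_pp_023 t 2 3 1 = true :=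
  ⟨(a (b (l 2) (b (l 2) (l 3))) (b (a (l 2) (b (l 2) (b (l 2) (l 403290895799)))) (a (a (a (b (b (l 2) (b (l 2) (a (l 3) (a (l 16641824) (l 16639504))))) (b (a (l 3) (b (a (l 3) (l 16624168)) (l 3))) (l 3))) (b (b (l 2) (b (l 2) (a (a (l 16637856) (l 16634968)) (a (l 16633184) (a (l 16632816) (l 16632184)))))) (a (b (b (a (l 16621128) (l 16618232)) (a (l 16602472) (l 16606520))) (b (a (l 16607816) (l 16607432)) (a (l 3) (l 16597712)))) (b (a (b (l 16613880) (l 16608752)) (a (a (l 16607624) (l 16610184)) (l 16613056))) (a (b (l 16586240) (a (l 16596088) (l 16594792))) (b (a (a (l 16605528) (l 16605312)) (l 16605808)) (a (c (l 16636872) (l 16590616)) (l 16591080)))))))) (b (b (b (l 2) (l 16645392)) (b (l 16628200) (l 16616216))) (b (b (l 16615048) (l 16606536)) (b (l 16592720) (a (l 16646552) (l 16565728)))))) (b (b (a (b (l 16646352) (l 16644144)) (l 16559768)) (a (b (l 16633832) (l 16619120)) (l 16612456))) (b (a (b (l 16602384) (l 16583760)) (b (l 16579712)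 (l 16556592))) (b (a (l 16605584) (l 16528136)) (a (l 16578512) (l 16490424)))))))), by decide +kernel⟩

def k2_pp_023 : ∃ t, chk3 f_pp_023 t 3 3 1 = true :=
  ⟨(b (a (b (a (l 2) (b (l 16554432) (l 16605688))) (a (a (b (l 16652328) (l 16645528)) (l 16764544)) (b (l 16440152) (l 16596704)))) (b (a (b (l 16646368) (l 16618248)) (b (l 16613056) (l 16591176))) (a (b (l 16588168) (a (l 16564952) (l 16540424))) (b (l 16550464) (l 16494296))))) (b (a (a (b (a (l 16627704) (l 16600688)) (a (l 16653304) (b (l 16575000) (l 16553496)))) (b (a (l 16574688) (l 16550360)) (a (l 16533856) (l 16493800)))) (a (b (a (l 16519456) (l 16482384)) (a (l 16451752) (l 16404336))) (b (l 16528816) (a (l 16347592) (l 16283392))))) (a (a (b (a (b (l 16553792) (l 16523200)) (l 16667008)) (a (b (l 16484744) (l 16435768)) (b (l 16432688) (l 16376176)))) (b (b (l 16459104) (l 16450792)) (b (l 16345296) (a (l 16310832) (l 16238808))))) (b (a (b (l 16352352) (l 16427672)) (b (l 16222448)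 (l 16157704))) (a (b (l 16209816) (a (l 16167616) (l 16099880))) (b (l 16080392) (l 16001544))))))), by decide +kernel⟩

theorem s3_pp_023 : ∃ t, chk3 f_pp_023 t 1 3 1 = true := ex3_a k1_pp_023 k2_pp_023

theorem s4_pp_023 : ∃ t, chk3 f_pp_023 t 1 1 1 = true := ex3_b k0_pp_023 s3_pp_023

theorem c_pp_023 : CertB 0 536870912 0 1230186008 740881858 40050571 3 eng mog cd0q0 cd4q3 pd2 false true true .up 0 2 3
    ndB0q0 ndB4q3 pcB2 Cut.none Ext.none :=
  certB2 (fam := false) (s1 := true) (s2 := true) (a := 0) (b := 2) (c := 3) (cn := .up) (n1 := ndB0q0) (n2 := ndB4q3) (pc := pcB2) (cut := Cut.none) (xt := Ext.none) (P1 := 0) (W1 := 536870912) (P2 := 0) (W2 := 1230186008) (P3 := 740881858) (W3 := 40050571) (N0 := 3) (En := eng) (mo := mog) (C1 := cd0q0) (C2 := cd4q3) (C3 := pd2)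
    rfl (fun _ => rfl) s4_pp_023

noncomputable def f_pp_033 : ℕ → ℕ → ℕ → ℕ → Bool := onCell 1610612736 536870912 0 1230186008 740881858 40050571
    (rowB 3 eng mog cd0q0 cd4q3 pd3 2 false true true .pnn 0 3 3 (qsf 0 536870912 0 1230186008 3) ndB0q0 ndB4q3 pcB3 Cut.none Ext.none)

def k0_pp_033 : ∃ t, chk3 f_pp_033 t 1 1 1 = true :=
  ⟨(b (b (a (a (a (l 16585408) (l 16536640)) (a (a (l 16492240) (l 16472784)) (l 16416088))) (a (a (l 73249074615) (l 4)) (l 4))) (a (a (b (a (l 16606832) (l 16528656)) (a (l 16817032) (b (l 16513736) (l 16493864)))) (a (b (l 16357264) (a (l 16434480) (l 16390824))) (b (l 16398680) (a (l 16346752) (l 16296544))))) (a (a (a (b (l 16335280) (l 16250392)) (b (l 16289984) (l 16208336))) (b (a (l 16249528) (l 4)) (a (l 16173232) (l 16292912)))) (a (a (b (l 4) (l 16123480)) (l 4)) (l 4))))) (b (a (a (b (a (b (l 16589304) (l 16550360)) (b (l 16476800) (l 16432008))) (a (b (l 16493736) (l 16410288)) (b (l 16363720) (l 16273368))))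 (a (b (a (l 16329952) (b (l 16320952) (l 16254848))) (a (b (l 16249360) (l 16164784)) (b (l 16178376) (l 16094568)))) (b (a (b (l 16270984) (l 16205816)) (b (l 16222536) (l 16161328))) (a (b (l 16134136) (l 16053336)) (b (l 16094552) (l 15991944)))))) (a (a (b (a (b (l 16172448) (l 16110760)) (b (l 16129088) (l 16063672))) (a (b (l 16036688) (l 15941200)) (b (l 15972976) (l 15855448)))) (a (b (b (l 16097064) (l 16025760)) (b (l 15934112) (l 1))) (b (l 16225080) (l 1)))) (a (a (b (b (l 16175192) (l 1)) (l 1)) (l 1)) (l 1)))) (a (a (b (a (b (a (l 16327808) (l 16257696)) (a (l 16196336) (l 16129360))) (b (a (l 16187168) (l 16117120)) (l 16064960))) (b (a (b (l 16062208) (l 15994856)) (l 15884656)) (a (l 74657125047) (l 225517582215)))) (a (b (b (a (l 16047896) (l 15980280)) (a (l 15914608) (l 15837168))) (b (a (l 15763096) (l 1)) (l 1))) (b (a (l 133712622311) (b (l 15881320) (l 1))) (l 1)))) (l 1)))), by decide +kernel⟩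

theorem c_pp_033 : CertB 0 536870912 0 1230186008 740881858 40050571 3 eng mog cd0q0 cd4q3 pd3 false true true .pnn 0 3 3
    ndB0q0 ndB4q3 pcB3 Cut.none Ext.none :=
  certB2 (fam := false) (s1 := true) (s2 := true) (a := 0) (b := 3) (c := 3) (cn := .pnn) (n1 := ndB0q0) (n2 := ndB4q3) (pc := pcB3) (cut := Cut.none) (xt := Ext.none) (P1 := 0) (W1 := 536870912) (P2 := 0) (W2 := 1230186008) (P3 := 740881858) (W3 := 40050571) (N0 := 3) (En := eng) (mo := mog) (C1 := cd0q0) (C2 := cd4q3) (C3 := pd3)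
    rfl (fun _ => rfl) k0_pp_033

noncomputable def f_pp_101 : ℕ → ℕ → ℕ → ℕ → Bool := onCell 536870912 536870912 536870912 536870912 740881858 40050571
    (rowB 3 eng mog cd0q1 cd4q1 pd0 0 false true true .npn 1 0 1 (qsf 536870912 536870912 536870912 536870912 0) ndB0q1 ndB4q1 pcB0 Cut.none Ext.none)

def k0_pp_101 : ∃ t, chk3 f_pp_101 t 1 1 1 = true :=
  ⟨(a (l 3) (l 5)), by decide +kernel⟩

theorem c_pp_101 : CertB 536870912 536870912 536870912 536870912 740881858 40050571 3 eng mog cd0q1 cd4q1 pd0 false true true .npn 1 0 1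
    ndB0q1 ndB4q1 pcB0 Cut.none Ext.none :=
  certB0 (fam := false) (s1 := true) (s2 := true) (a := 1) (b := 0) (c := 1) (cn := .npn) (n1 := ndB0q1) (n2 := ndB4q1) (pc := pcB0) (cut := Cut.none) (xt := Ext.none) (P1 := 536870912) (W1 := 536870912) (P2 := 536870912) (W2 := 536870912) (P3 := 740881858) (W3 := 40050571) (N0 := 3) (En := eng) (mo := mog) (C1 := cd0q1) (C2 := cd4q1) (C3 := pd0)
    rfl k0_pp_101

noncomputable def f_pp_102 : ℕ → ℕ → ℕ → ℕ → Bool := onCell 536870912 536870912 1073741824 536870912 740881858 40050571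
    (rowB 3 eng mog cd0q1 cd4q2 pd0 0 false true true .npp 1 0 2 (qsf 536870912 536870912 1073741824 536870912 0) ndB0q1 ndB4q2 pcB0 Cut.none Ext.none)

def k0_pp_102 : ∃ t, chk3 f_pp_102 t 1 1 1 = true :=
  ⟨(l 3), by decide +kernel⟩

theorem c_pp_102 : CertB 536870912 536870912 1073741824 536870912 740881858 40050571 3 eng mog cd0q1 cd4q2 pd0 false true true .npp 1 0 2
    ndB0q1 ndB4q2 pcB0 Cut.none Ext.none :=
  certB0 (fam := false) (s1 := true) (s2 := true) (a := 1) (b := 0) (c := 2) (cn := .npp) (n1 := ndB0q1) (n2 := ndB4q2) (pc := pcB0) (cut := Cut.none) (xt := Ext.none) (P1 := 536870912) (W1 := 536870912) (P2 := 1073741824) (W2 := 536870912) (P3 := 740881858) (W3 := 40050571) (N0 := 3) (En := eng) (mo := mog) (C1 := cd0q1) (C2 := cd4q2) (C3 := pd0)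
    rfl k0_pp_102

noncomputable def f_pp_112 : ℕ → ℕ → ℕ → ℕ → Bool := onCell 536870912 536870912 1073741824 536870912 740881858 40050571
    (rowB 3 eng mog cd0q1 cd4q2 pd1 0 false true true .dn 1 1 2 (qsf 536870912 536870912 1073741824 536870912 1) ndB0q1 ndB4q2 pcB1 Cut.none Ext.none)

def k0_pp_112 : ∃ t, chk3 f_pp_112 t 1 1 1 = true :=
  ⟨(l 3), by decide +kernel⟩

theorem c_pp_112 : CertB 536870912 536870912 1073741824 536870912 740881858 40050571 3 eng mog cd0q1 cd4q2 pd1 false true true .dn 1 1 2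
    ndB0q1 ndB4q2 pcB1 Cut.none Ext.none :=
  certB0 (fam := false) (s1 := true) (s2 := true) (a := 1) (b := 1) (c := 2) (cn := .dn) (n1 := ndB0q1) (n2 := ndB4q2) (pc := pcB1) (cut := Cut.none) (xt := Ext.none) (P1 := 536870912) (W1 := 536870912) (P2 := 1073741824) (W2 := 536870912) (P3 := 740881858) (W3 := 40050571) (N0 := 3) (En := eng) (mo := mog) (C1 := cd0q1) (C2 := cd4q2) (C3 := pd1)
    rfl k0_pp_112

noncomputable def cut_pp_113 : Cut := Cut.of [[⟨0, 1, 0, 67108864⟩, ⟨1, 1, 0, 67108864⟩, ⟨2, 2, 0, 16777216⟩]]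

noncomputable def f_pp_113 : ℕ → ℕ → ℕ → ℕ → Bool := onCell 536870912 536870912 0 1230186008 740881858 40050571
    (rowB 3 eng mog cd0q1 cd4q3 pd1 2 false true true .nn 1 1 3 (qsf 536870912 536870912 0 1230186008 1) ndB0q1 ndB4q3 pcB1 cut_pp_113 Ext.none)

def k0_pp_113 : ∃ t, chk3 f_pp_113 t 1 1 1 = true :=
  ⟨(b (a (l 2) (a (l 2) (b (a (l 2) (a (l 2) (b (l 6) (l 3)))) (l 3)))) (b (a (b (l 2) (l 3)) (l 3)) (a (b (a (l 2) (l 3)) (l 3)) (l 3)))), by decide +kernel⟩

theorem c_pp_113 : CertB 536870912 536870912 0 1230186008 740881858 40050571 3 eng mog cd0q1 cd4q3 pd1 false true true .nn 1 1 3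
    ndB0q1 ndB4q3 pcB1 cut_pp_113 Ext.none :=
  certB2 (fam := false) (s1 := true) (s2 := true) (a := 1) (b := 1) (c := 3) (cn := .nn) (n1 := ndB0q1) (n2 := ndB4q3) (pc := pcB1) (cut := cut_pp_113) (xt := Ext.none) (P1 := 536870912) (W1 := 536870912) (P2 := 0) (W2 := 1230186008) (P3 := 740881858) (W3 := 40050571) (N0 := 3) (En := eng) (mo := mog) (C1 := cd0q1) (C2 := cd4q3) (C3 := pd1)
    rfl (fun _ => rfl) k0_pp_113

noncomputable def cut_pp_123 : Cut := Cut.of [[⟨0, 1, 0, 67108864⟩, ⟨1, 1, 0, 67108864⟩, ⟨2, 2, 0, 16777216⟩]]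

noncomputable def f_pp_123 : ℕ → ℕ → ℕ → ℕ → Bool := onCell 1073741824 536870912 0 1230186008 740881858 40050571
    (rowB 3 eng mog cd0q1 cd4q3 pd2 2 false true true .npn 1 2 3 (qsf 536870912 536870912 0 1230186008 2) ndB0q1 ndB4q3 pcB2 cut_pp_123 Ext.none)

def k0_pp_123 : ∃ t, chk3 f_pp_123 t 16 4 1 = true :=
  ⟨(b (l 6) (b (l 6) (l 3))), by decide +kernel⟩

def k1_pp_123 : ∃ t, chk3 f_pp_123 t 17 8 1 = true :=
  ⟨(a (l 6) (b (l 16720648) (l 16739456))), by decide +kernel⟩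

def k2_pp_123 : ∃ t, chk3 f_pp_123 t 34 9 1 = true :=
  ⟨(b (l 6) (a (b (a (l 3) (b (l 3) (l 3))) (l 3)) (b (a (b (a (a (b (b (c (a (a (l 406042192615) (l 346986398007)) (l 295446790919)) (b (c (l 330343396759) (l 331417139031)) (a (l 455434321111) (l 314774138791)))) (c (l 422685190615) (c (l 420537710343) (l 452749967591)))) (l 3)) (a (b (b (l 16780128) (c (l 329269660375) (a (l 354502585559) (l 309405429767)))) (l 3)) (b (c (l 16782712) (l 16785160)) (b (c (l 384030486727) (a (l 435033228199) (l 355039457447))) (l 3))))) (b (c (l 16781984) (l 16784592)) (c (a (b (l 280951279799) (c (l 378124911367) (l 378124913703))) (l 16783352)) (a (a (b (l 301889236999) (l 443086292567)) (b (l 16785952) (l 333027750455))) (l 16786064))))) (a (l 3) (a (l 3) (b (b (a (c (l 384030488391) (l 399599745015)) (c (l 293299311415) (l 301889238951))) (c (l 422685193895) (l 450065615975))) (l 3))))) (b (a (b (l 16774624) (l 16783912)) (b (l 16784096) (l 16783536))) (a (a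 (b (b (l 16780216) (c (l 304036731735) (l 313163528471))) (b (c (l 398526004359) (l 410337165079)) (l 3))) (b (l 16780208) (b (c (l 276119445303) (l 289541210023)) (c (l 373829951751) (l 374903686679))))) (b (l 16784808) (c (a (l 16785320) (l 16784848)) (l 16788408)))))) (a (l 3) (b (a (l 3) (a (b (b (c (c (l 349133881911) (l 349670755815)) (l 344302043719)) (c (l 417853360199) (l 417316495975))) (l 3)) (b (b (l 16777440) (c (l 319069101911) (l 315311014279))) (c (c (l 409800296551) (l 406042203399)) (l 395841651063))))) (l 3)))))), by decide +kernel⟩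

def k3_pp_123 : ∃ t, chk3 f_pp_123 t 35 9 1 = true :=
  ⟨(b (a (b (l 16760320) (a (b (l 16772616) (l 16779024)) (l 16769888))) (l 16753408)) (a (b (a (b (a (l 16786368) (l 16784032)) (a (b (l 16784888) (l 16785968)) (l 16787216))) (b (l 16778552) (l 16784952))) (a (b (a (b (l 16778744) (a (a (b (l 299741751175) (l 395304772919)) (b (l 16789528) (l 328732781607))) (b (l 16789304) (l 16779880)))) (b (l 16787416) (l 16789488))) (b (a (a (l 447918117399) (b (c (l 330880264359) (l 329806526615)) (l 405505320807))) (a (a (c (l 305110461223) (l 304036722967)) (l 16781232)) (l 16791584))) (a (l 3) (a (a (l 424832672967) (b (l 354502585815) (l 3))) (b (l 285246237255) (a (l 380272388631) (l 317458491047))))))) (b (a (b (l 16788736) (l 16789328)) (l 16788824)) (a (b (l 16791440) (c (l 16791488) (l 16779784))) (b (l 16791768) (l 16792360)))))) (b (a (l 16774080) (l 16766328)) (a (b (l 16782760) (a (l 16768752) (l 16786040))) (l 16776864))))), by decide +kernel⟩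

def k4_pp_123 : ∃ t, chk3 f_pp_123 t 16 10 1 = true :=
  ⟨(l 3), by decide +kernel⟩

def k5_pp_123 : ∃ t, chk3 f_pp_123 t 34 10 1 = true :=
  ⟨(l 3), by decide +kernel⟩

def k6_pp_123 : ∃ t, chk3 f_pp_123 t 70 20 1 = true :=
  ⟨(b (a (b (a (l 3) (a (l 3) (b (l 408726544103) (l 3)))) (l 3)) (b (a (a (b (a (b (b (l 314774136263) (l 380809258439)) (l 3)) (b (l 16781536) (l 376514289799))) (l 3)) (b (b (l 16772104) (c (l 16789152) (l 295446784183))) (b (c (l 370071852583) (c (l 352355099287) (l 348597006999))) (l 3)))) (b (l 16776760) (c (a (l 309942310087) (l 16795496)) (a (b (l 16779088) (a (l 354502578807) (l 298131137831))) (l 16778560))))) (a (l 3) (b (c (a (l 399599770311) (b (l 304573601015) (l 354502591591))) (a (b (l 383493608999) (l 3)) (a (b (l 324974682519) (l 3)) (b (l 16788968) (a (l 365776887719) (l 331954009095)))))) (l 3))))) (l 3)), by decide +kernel⟩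

def k7_pp_123 : ∃ t, chk3 f_pp_123 t 71 20 1 = true :=
  ⟨(b (a (b (a (b (l 16791392) (l 16770656)) (a (l 16769536) (l 16768328))) (a (b (a (c (l 16787576) (c (l 268066374759) (l 261087049367))) (l 16770648)) (c (a (b (l 344838918263) (l 379735525479)) (b (l 16795336) (l 317995372007))) (a (b (c (l 320679731319) (a (l 364166270983) (l 296520534775))) (l 391546676535)) (b (l 16788168) (c (l 299204885911) (a (l 329806531127) (l 16786208))))))) (b (l 16769768) (c (l 16794840) (a (l 16787624) (l 16786936)))))) (b (a (l 16786592) (l 16782544)) (a (c (l 16793416) (l 16769752)) (b (l 16786264) (l 16787952))))) (a (b (a (a (l 3) (b (a (l 3) (b (b (c (l 359871304999) (l 336248975031)) (l 3)) (l 3))) (l 3))) (a (b (c (b (l 289004342935) (c (l 332490908055) (l 343765189959))) (b (c (l 279340667143) (l 281488138743)) (c (l 338933333591) (a (l 373293074967) (l 313163531431))))) (l 3)) (b (b (l 16780760) (c (l 16784832) (l 250349624727))) (a (b (c (l 326585303287)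 (b (l 319605983847) (l 378661787239))) (l 3)) (c (b (l 16787696) (l 342691431287)) (b (l 278266912839) (l 366850616567))))))) (l 3)) (b (a (a (b (l 16775064) (b (c (l 16795224) (l 16787072)) (c (l 294909922055) (c (l 282025019271) (a (l 293299306503) (l 16784984)))))) (c (l 16784048) (l 16779640))) (c (l 16793584) (l 16784880))) (a (a (b (b (c (c (l 324974716263) (l 350744512103)) (c (l 350744503735) (a (l 394767910343) (l 315847884871)))) (l 3)) (l 3)) (b (c (b (l 16785088) (c (l 327659070583) (l 323900966007))) (b (l 242296569847) (a (l 358797552135) (l 273435082727)))) (b (c (l 359334431367) (l 392083560343)) (l 3)))) (b (a (c (l 16795328) (l 16786528)) (l 16769400)) (c (a (b (l 292762439399) (l 371682461975)) (b (l 16795592) (l 250886509943))) (a (b (c (l 277730050631) (l 267529503735)) (l 366313750423)) (b (l 16786456) (l 233169763847))))))))), by decide +kernel⟩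

def k8_pp_123 : ∃ t, chk3 f_pp_123 t 35 21 1 = true :=
  ⟨(a (l 3) (b (a (l 3) (b (a (l 3) (a (l 3) (b (c (c (l 365240016487) (l 360408190295)) (b (c (l 336248988791) (l 336248978967)) (l 410337171655))) (l 3)))) (l 3))) (l 3))), by decide +kernel⟩

def k9_pp_123 : ∃ t, chk3 f_pp_123 t 8 11 1 = true :=
  ⟨(l 3), by decide +kernel⟩

def k10_pp_123 : ∃ t, chk3 f_pp_123 t 9 4 1 = true :=
  ⟨(a (b (b (l 16692656) (l 16755104)) (a (b (l 16739264) (b (l 16754280) (a (a (l 16770416) (l 16766592)) (l 16759880)))) (b (l 16720008) (l 16739904)))) (b (l 16658832) (a (l 16707664) (l 16564904)))), by decide +kernel⟩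

def k11_pp_123 : ∃ t, chk3 f_pp_123 t 18 10 1 = true :=
  ⟨(a (b (a (b (a (b (l 16778032) (l 16783064)) (l 16776288)) (a (b (a (a (l 16767304) (l 16766848)) (l 16786528)) (a (b (l 16768632) (c (l 16795288) (l 16785792))) (l 16768560))) (b (l 16783616) (a (l 16767760) (l 16787152))))) (b (l 16770576) (a (l 16781912) (l 16778864)))) (a (b (a (b (a (b (c (c (l 261623936039) (l 229948555175)) (a (b (l 16786816) (l 269140116247)) (l 16786576))) (c (a (b (l 388862354151) (l 3)) (b (l 16797288) (l 364166292439))) (a (l 395304786631) (b (l 16787392) (l 359334434167))))) (b (l 16770168) (c (l 16797272) (l 16787056)))) (a (b (c (l 402284111143) (l 427517044423)) (l 3)) (b (b (c (l 281488151975) (l 255181469335)) (c (l 363629402711) (l 357723822647))) (c (l 393694166887) (l 409800304167))))) (b (a (l 16770288) (l 16790912)) (a (b (l 16772128) (c (l 273435088695) (l 249812763527))) (l 16772488)))) (a (l 3) (b (a (b (c (l 377588051751) (l 386177984807)) (l 3)) (b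 (b (l 16774240) (l 16774976)) (c (l 368998114759) (l 358260696167)))) (a (l 3) (c (l 413021562631) (l 426443310871)))))) (b (a (b (l 16789016) (a (l 16793208) (l 16792784))) (b (l 16785896) (l 16790744))) (a (c (b (l 16801728) (a (l 315311040087) (l 16804624))) (b (l 16789784) (a (l 302426129991) (l 16792072)))) (b (l 16794960) (l 16797928)))))) (b (a (b (l 16762080) (l 16773992)) (l 16757936)) (a (b (l 16784096) (a (l 16794088) (l 16791376))) (b (l 16778064) (l 16787288))))), by decide +kernel⟩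

def k12_pp_123 : ∃ t, chk3 f_pp_123 t 18 11 1 = true :=
  ⟨(a (b (a (l 3) (b (a (a (l 3) (b (c (l 367924405895) (l 378661798679)) (l 3))) (c (b (l 285246251863) (a (l 400136659335) (l 326585314727))) (b (l 16792568) (a (l 395304796039) (l 16792080))))) (a (l 3) (b (a (l 3) (l 421074589479)) (l 3))))) (l 3)) (b (a (a (b (b (l 16798176) (l 16776480)) (b (c (l 332490886775) (l 333564634679)) (c (l 402284113815) (l 403357853207)))) (b (b (l 16795960) (l 16796160)) (b (l 16794864) (a (l 16793768) (l 16792912))))) (b (a (l 16792832) (l 16790040)) (a (b (l 16793168) (l 16791808)) (l 16789896)))) (a (b (a (l 3) (b (a (l 400673504023) (l 324974694999)) (a (l 3) (l 417853369767)))) (l 3)) (b (a (b (l 16790416) (a (l 342154550503) (l 16789032))) (b (l 16789560) (l 16788496))) (a (b (a (l 432885753079) (l 358260657287)) (l 447918119063)) (b (l 16787984) (a (l 380272379479) (l 16788104)))))))), by decide +kernel⟩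

def k13_pp_123 : ∃ t, chk3 f_pp_123 t 19 5 1 = true :=
  ⟨(b (a (b (l 16740976) (a (b (l 16767960) (l 16780480)) (l 16762136))) (b (l 16720536) (l 16743816))) (a (b (a (b (l 16786456) (l 16786264)) (b (l 16779288) (l 16782736))) (a (b (a (l 16787776) (l 16786144)) (a (l 16767424) (l 16767696))) (b (l 16784776) (a (l 16787920) (l 16787256))))) (b (a (l 16772248) (l 16762456)) (a (b (l 16783040) (l 16786216)) (l 16780208))))), by decide +kernel⟩

def k14_pp_123 : ∃ t, chk3 f_pp_123 t 5 2 1 = true :=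
  ⟨(a (b (a (a (b (l 16643704) (l 16678936)) (a (l 16713144) (b (l 16824072) (b (l 16659128) (l 16670280))))) (b (l 16627024) (l 16638128))) (a (a (b (l 16733192) (b (l 16746128) (a (l 16773832) (l 16761232)))) (b (a (l 16637376) (b (l 16682264) (l 16594480))) (a (l 16863264) (a (l 16729888) (a (l 16681384) (l 16655648)))))) (b (b (l 16675184) (l 16689200)) (b (l 16704304) (l 16691072))))) (b (a (l 16780496) (l 16635664)) (b (l 16719224) (b (l 16791136) (a (l 16693568) (l 16680160)))))), by decide +kernel⟩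

def k15_pp_123 : ∃ t, chk3 f_pp_123 t 4 3 1 = true :=
  ⟨(a (l 3) (b (b (a (a (l 3) (b (a (l 3) (a (l 3) (b (b (a (l 3) (b (l 360945015111) (l 426443302087))) (l 3)) (l 3)))) (l 3))) (a (b (a (b (a (b (a (l 315847852791) (l 16789624)) (a (b (l 373829952999) (l 422685207879)) (l 265381991463))) (b (l 16790144) (l 16790552))) (a (a (l 3) (b (l 392083528583) (l 3))) (b (l 16790480) (l 16790320)))) (a (b (l 16769976) (l 16790000)) (b (l 16790008) (l 16789576)))) (a (a (l 3) (b (l 387788543719) (l 3))) (b (a (l 16786752) (l 16785256)) (a (l 16782000) (l 16778648))))) (b (a (b (l 16787624) (l 16786184)) (l 16783872)) (a (b (l 16782064) (a (l 16776032) (l 16772960))) (b (l 16776072) (l 16767616)))))) (a (l 3) (a (b (l 3) (l 3)) (b (a (b (a (l 16766000) (l 16762072)) (a (l 3) (l 369534861143))) (b (l 16756096) (a (l 16726264) (l 16736992)))) (a (l 3) (b (a (b (l 16728072) (l 380809135591)) (b (l 16722992) (l 16713088))) (a (l 3) (b (l 283098604279) (l 236390834151)))))))))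 (b (a (l 3) (b (l 3) (l 3))) (l 3)))), by decide +kernel⟩

def k16_pp_123 : ∃ t, chk3 f_pp_123 t 5 3 1 = true :=
  ⟨(b (a (a (a (b (b (a (l 16780512) (l 16772712)) (a (l 16767128) (l 16762952))) (b (a (b (l 16747912) (l 16730720)) (l 16733464)) (a (b (a (l 16714488) (l 16711328)) (a (b (l 16698080) (l 16689176)) (l 16690976))) (b (l 16707128) (a (l 16689032) (l 16686944)))))) (b (a (b (l 16757736) (l 16754128)) (a (l 16743968) (b (l 16732448) (l 16727512)))) (a (b (l 16729968) (b (l 16703800) (l 16685432))) (b (a (l 16724576) (a (l 16718016) (l 16711176))) (a (l 16693656) (a (l 16692008) (a (l 16689408) (l 16687768)))))))) (b (b (l 16671336) (l 16748896)) (b (a (l 16699032) (l 16685616)) (a (l 16679904) (l 16666272))))) (b (a (b (l 16627896) (l 16642976)) (b (l 16677344) (l 16669488))) (b (a (l 16671368) (l 16656616)) (a (l 16650048) (l 16650944))))) (a (a (a (b (b (a (b (a (a (l 16680760) (l 16678920)) (l 16677136)) (a (l 16668920) (l 16665368))) (a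 (l 16690344) (l 16668312))) (a (b (a (l 3) (l 16654936)) (l 3)) (b (a (l 16652256) (l 16651056)) (a (l 16641808) (l 16639488))))) (b (a (l 3) (l 1)) (l 1))) (b (a (b (a (l 16666648) (l 16665696)) (a (b (l 16649800) (l 16637832)) (b (l 16648680) (l 16634944)))) (b (a (l 16665464) (a (l 16665480) (l 16665136))) (a (b (l 16648032) (l 16633152)) (a (l 16618008) (l 16638728))))) (l 1))) (b (b (b (l 16655048) (l 16645368)) (b (l 16628080) (l 16616232))) (l 1))) (b (b (a (b (l 16646352) (l 16644112)) (b (l 16647616) (l 1))) (l 1)) (l 1)))), by decide +kernel⟩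

def k17_pp_123 : ∃ t, chk3 f_pp_123 t 3 1 1 = true :=
  ⟨(b (a (b (a (a (l 16635240) (l 16629824)) (l 16625512)) (a (b (l 16733256) (b (l 16673616) (l 16669744))) (b (l 16664176) (l 16734968)))) (b (a (l 16619992) (l 16605296)) (a (b (l 16664424) (l 16657216)) (b (l 16639016) (l 16632000))))) (b (a (b (a (b (l 16541448) (l 16807656)) (b (l 16533424) (l 16521560))) (a (a (b (l 16652320) (l 16645392)) (l 37614659639)) (b (l 16628176) (l 1)))) (b (a (b (l 16624928) (l 1)) (l 1)) (l 1))) (l 1))), by decide +kernel⟩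

theorem s18_pp_123 : ∃ t, chk3 f_pp_123 t 2 3 1 = true := ex3_a k15_pp_123 k16_pp_123

theorem s19_pp_123 : ∃ t, chk3 f_pp_123 t 18 5 1 = true := ex3_b k11_pp_123 k12_pp_123

theorem s20_pp_123 : ∃ t, chk3 f_pp_123 t 9 5 1 = true := ex3_a s19_pp_123 k13_pp_123

theorem s21_pp_123 : ∃ t, chk3 f_pp_123 t 9 2 1 = true := ex3_b k10_pp_123 s20_pp_123

theorem s22_pp_123 : ∃ t, chk3 f_pp_123 t 35 20 1 = true := ex3_a k6_pp_123 k7_pp_123

theorem s23_pp_123 : ∃ t, chk3 f_pp_123 t 35 10 1 = true := ex3_b s22_pp_123 k8_pp_123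

theorem s24_pp_123 : ∃ t, chk3 f_pp_123 t 17 10 1 = true := ex3_a k5_pp_123 s23_pp_123

theorem s25_pp_123 : ∃ t, chk3 f_pp_123 t 8 10 1 = true := ex3_a k4_pp_123 s24_pp_123

theorem s26_pp_123 : ∃ t, chk3 f_pp_123 t 8 5 1 = true := ex3_b s25_pp_123 k9_pp_123

theorem s27_pp_123 : ∃ t, chk3 f_pp_123 t 17 9 1 = true := ex3_a k2_pp_123 k3_pp_123

theorem s28_pp_123 : ∃ t, chk3 f_pp_123 t 17 4 1 = true := ex3_b k1_pp_123 s27_pp_123

theorem s29_pp_123 : ∃ t, chk3 f_pp_123 t 8 4 1 = true := ex3_a k0_pp_123 s28_pp_123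

theorem s30_pp_123 : ∃ t, chk3 f_pp_123 t 8 2 1 = true := ex3_b s29_pp_123 s26_pp_123

theorem s31_pp_123 : ∃ t, chk3 f_pp_123 t 4 2 1 = true := ex3_a s30_pp_123 s21_pp_123

theorem s32_pp_123 : ∃ t, chk3 f_pp_123 t 2 2 1 = true := ex3_a s31_pp_123 k14_pp_123

theorem s33_pp_123 : ∃ t, chk3 f_pp_123 t 2 1 1 = true := ex3_b s32_pp_123 s18_pp_123

theorem s34_pp_123 : ∃ t, chk3 f_pp_123 t 1 1 1 = true := ex3_a s33_pp_123 k17_pp_123

theorem c_pp_123 : CertB 536870912 536870912 0 1230186008 740881858 40050571 3 eng mog cd0q1 cd4q3 pd2 false true true .npn 1 2 3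
    ndB0q1 ndB4q3 pcB2 cut_pp_123 Ext.none :=
  certB2 (fam := false) (s1 := true) (s2 := true) (a := 1) (b := 2) (c := 3) (cn := .npn) (n1 := ndB0q1) (n2 := ndB4q3) (pc := pcB2) (cut := cut_pp_123) (xt := Ext.none) (P1 := 536870912) (W1 := 536870912) (P2 := 0) (W2 := 1230186008) (P3 := 740881858) (W3 := 40050571) (N0 := 3) (En := eng) (mo := mog) (C1 := cd0q1) (C2 := cd4q3) (C3 := pd2)
    rfl (fun _ => rfl) s34_pp_123

noncomputable def f_pp_133 : ℕ → ℕ → ℕ → ℕ → Bool := onCell 1610612736 536870912 0 1230186008 740881858 40050571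
    (rowB 3 eng mog cd0q1 cd4q3 pd3 2 false true true .dn 1 3 3 (qsf 536870912 536870912 0 1230186008 3) ndB0q1 ndB4q3 pcB3 Cut.none Ext.none)

def k0_pp_133 : ∃ t, chk3 f_pp_133 t 1 1 1 = true :=
  ⟨(b (b (a (a (a (l 16584504) (l 1)) (l 1)) (l 1)) (l 1)) (l 1)), by decide +kernel⟩

theorem c_pp_133 : CertB 536870912 536870912 0 1230186008 740881858 40050571 3 eng mog cd0q1 cd4q3 pd3 false true true .dn 1 3 3
    ndB0q1 ndB4q3 pcB3 Cut.none Ext.none :=
  certB2 (fam := false) (s1 := true) (s2 := true) (a := 1) (b := 3) (c := 3) (cn := .dn) (n1 := ndB0q1) (n2 := ndB4q3) (pc := pcB3) (cut := Cut.none) (xt := Ext.none) (P1 := 536870912) (W1 := 536870912) (P2 := 0) (W2 := 1230186008) (P3 := 740881858) (W3 := 40050571) (N0 := 3) (En := eng) (mo := mog) (C1 := cd0q1) (C2 := cd4q3) (C3 := pd3)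
    rfl (fun _ => rfl) k0_pp_133

noncomputable def f_pp_202 : ℕ → ℕ → ℕ → ℕ → Bool := onCell 0 536870912 1073741824 536870912 740881858 40050571
    (rowB 3 eng mog cd0q2 cd4q2 pd0 0 false true true .pp 2 0 2 (qsf 0 536870912 1073741824 536870912 0) ndB0q2 ndB4q2 pcB0 Cut.none Ext.none)

def k0_pp_202 : ∃ t, chk3 f_pp_202 t 1 1 1 = true :=
  ⟨(l 5), by decide +kernel⟩

theorem c_pp_202 : CertB 0 536870912 1073741824 536870912 740881858 40050571 3 eng mog cd0q2 cd4q2 pd0 false true true .pp 2 0 2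
    ndB0q2 ndB4q2 pcB0 Cut.none Ext.none :=
  certB0 (fam := false) (s1 := true) (s2 := true) (a := 2) (b := 0) (c := 2) (cn := .pp) (n1 := ndB0q2) (n2 := ndB4q2) (pc := pcB0) (cut := Cut.none) (xt := Ext.none) (P1 := 0) (W1 := 536870912) (P2 := 1073741824) (W2 := 536870912) (P3 := 740881858) (W3 := 40050571) (N0 := 3) (En := eng) (mo := mog) (C1 := cd0q2) (C2 := cd4q2) (C3 := pd0)
    rfl k0_pp_202

noncomputable def f_pp_203 : ℕ → ℕ → ℕ → ℕ → Bool := onCell 0 536870912 0 1230186008 740881858 40050571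
    (rowB 3 eng mog cd0q2 cd4q3 pd0 0 false true true .up 2 0 3 (qsf 0 536870912 0 1230186008 0) ndB0q2 ndB4q3 pcB0 Cut.none Ext.none)

def k0_pp_203 : ∃ t, chk3 f_pp_203 t 1 1 1 = true :=
  ⟨(b (l 2) (b (l 2) (l 3))), by decide +kernel⟩

theorem c_pp_203 : CertB 0 536870912 0 1230186008 740881858 40050571 3 eng mog cd0q2 cd4q3 pd0 false true true .up 2 0 3
    ndB0q2 ndB4q3 pcB0 Cut.none Ext.none :=
  certB0 (fam := false) (s1 := true) (s2 := true) (a := 2) (b := 0) (c := 3) (cn := .up) (n1 := ndB0q2) (n2 := ndB4q3) (pc := pcB0) (cut := Cut.none) (xt := Ext.none) (P1 := 0) (W1 := 536870912) (P2 := 0) (W2 := 1230186008) (P3 := 740881858) (W3 := 40050571) (N0 := 3) (En := eng) (mo := mog) (C1 := cd0q2) (C2 := cd4q3) (C3 := pd0)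
    rfl k0_pp_203

noncomputable def cut_pp_213 : Cut := Cut.of [[⟨0, 1, 0, 67108864⟩, ⟨1, 1, 0, 67108864⟩, ⟨2, 2, 0, 16777216⟩]]

noncomputable def f_pp_213 : ℕ → ℕ → ℕ → ℕ → Bool := onCell 0 536870912 0 1230186008 740881858 40050571
    (rowB 3 eng mog cd0q2 cd4q3 pd1 0 false true true .pnn 2 1 3 (qsf 0 536870912 0 1230186008 1) ndB0q2 ndB4q3 pcB1 cut_pp_213 Ext.none)

def k0_pp_213 : ∃ t, chk3 f_pp_213 t 1 1 1 = true :=
  ⟨(b (a (l 3) (b (a (l 3) (a (l 3) (b (l 6) (l 3)))) (l 3))) (b (l 3) (l 3))), by decide +kernel⟩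

theorem c_pp_213 : CertB 0 536870912 0 1230186008 740881858 40050571 3 eng mog cd0q2 cd4q3 pd1 false true true .pnn 2 1 3
    ndB0q2 ndB4q3 pcB1 cut_pp_213 Ext.none :=
  certB0 (fam := false) (s1 := true) (s2 := true) (a := 2) (b := 1) (c := 3) (cn := .pnn) (n1 := ndB0q2) (n2 := ndB4q3) (pc := pcB1) (cut := cut_pp_213) (xt := Ext.none) (P1 := 0) (W1 := 536870912) (P2 := 0) (W2 := 1230186008) (P3 := 740881858) (W3 := 40050571) (N0 := 3) (En := eng) (mo := mog) (C1 := cd0q2) (C2 := cd4q3) (C3 := pd1)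
    rfl k0_pp_213

noncomputable def f_pm_001 : ℕ → ℕ → ℕ → ℕ → Bool := onCell 0 536870912 536870912 536870912 740881858 40050571
    (rowB 3 eng mog cd0q0 cd4q1 pd0 0 false true false .up 0 0 1 (qsf 0 536870912 536870912 536870912 0) ndB0q0 ndB4q1 pcB0 Cut.none Ext.none)

def k0_pm_001 : ∃ t, chk3 f_pm_001 t 1 1 1 = true :=
  ⟨(l 4), by decide +kernel⟩

theorem c_pm_001 : CertB 0 536870912 536870912 536870912 740881858 40050571 3 eng mog cd0q0 cd4q1 pd0 false true false .up 0 0 1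
    ndB0q0 ndB4q1 pcB0 Cut.none Ext.none :=
  certB0 (fam := false) (s1 := true) (s2 := false) (a := 0) (b := 0) (c := 1) (cn := .up) (n1 := ndB0q0) (n2 := ndB4q1) (pc := pcB0) (cut := Cut.none) (xt := Ext.none) (P1 := 0) (W1 := 536870912) (P2 := 536870912) (W2 := 536870912) (P3 := 740881858) (W3 := 40050571) (N0 := 3) (En := eng) (mo := mog) (C1 := cd0q0) (C2 := cd4q1) (C3 := pd0)
    rfl k0_pm_001

noncomputable def f_pm_011 : ℕ → ℕ → ℕ → ℕ → Bool := onCell 0 536870912 536870912 536870912 740881858 40050571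
    (rowB 3 eng mog cd0q0 cd4q1 pd1 0 false true false .pnn 0 1 1 (qsf 0 536870912 536870912 536870912 1) ndB0q0 ndB4q1 pcB1 Cut.none Ext.none)

def k0_pm_011 : ∃ t, chk3 f_pm_011 t 1 1 1 = true :=
  ⟨(l 4), by decide +kernel⟩

theorem c_pm_011 : CertB 0 536870912 536870912 536870912 740881858 40050571 3 eng mog cd0q0 cd4q1 pd1 false true false .pnn 0 1 1
    ndB0q0 ndB4q1 pcB1 Cut.none Ext.none :=
  certB0 (fam := false) (s1 := true) (s2 := false) (a := 0) (b := 1) (c := 1) (cn := .pnn) (n1 := ndB0q0) (n2 := ndB4q1) (pc := pcB1) (cut := Cut.none) (xt := Ext.none) (P1 := 0) (W1 := 536870912) (P2 := 536870912) (W2 := 536870912) (P3 := 740881858) (W3 := 40050571) (N0 := 3) (En := eng) (mo := mog) (C1 := cd0q0) (C2 := cd4q1) (C3 := pd1)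
    rfl k0_pm_011

noncomputable def f_pm_012 : ℕ → ℕ → ℕ → ℕ → Bool := onCell 0 536870912 1073741824 536870912 740881858 40050571
    (rowB 3 eng mog cd0q0 cd4q2 pd1 0 false true false .pnp 0 1 2 (qsf 0 536870912 1073741824 536870912 1) ndB0q0 ndB4q2 pcB1 Cut.none Ext.none)

def k0_pm_012 : ∃ t, chk3 f_pm_012 t 1 1 1 = true :=
  ⟨(l 4), by decide +kernel⟩

theorem c_pm_012 : CertB 0 536870912 1073741824 536870912 740881858 40050571 3 eng mog cd0q0 cd4q2 pd1 false true false .pnp 0 1 2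
    ndB0q0 ndB4q2 pcB1 Cut.none Ext.none :=
  certB0 (fam := false) (s1 := true) (s2 := false) (a := 0) (b := 1) (c := 2) (cn := .pnp) (n1 := ndB0q0) (n2 := ndB4q2) (pc := pcB1) (cut := Cut.none) (xt := Ext.none) (P1 := 0) (W1 := 536870912) (P2 := 1073741824) (W2 := 536870912) (P3 := 740881858) (W3 := 40050571) (N0 := 3) (En := eng) (mo := mog) (C1 := cd0q0) (C2 := cd4q2) (C3 := pd1)
    rfl k0_pm_012

noncomputable def f_pm_022 : ℕ → ℕ → ℕ → ℕ → Bool := onCell 0 536870912 1073741824 536870912 740881858 40050571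
    (rowB 3 eng mog cd0q0 cd4q2 pd2 0 false true false .pp 0 2 2 (qsf 0 536870912 1073741824 536870912 2) ndB0q0 ndB4q2 pcB2 Cut.none Ext.none)

def k0_pm_022 : ∃ t, chk3 f_pm_022 t 1 1 1 = true :=
  ⟨(l 4), by decide +kernel⟩

theorem c_pm_022 : CertB 0 536870912 1073741824 536870912 740881858 40050571 3 eng mog cd0q0 cd4q2 pd2 false true false .pp 0 2 2
    ndB0q0 ndB4q2 pcB2 Cut.none Ext.none :=
  certB0 (fam := false) (s1 := true) (s2 := false) (a := 0) (b := 2) (c := 2) (cn := .pp) (n1 := ndB0q0) (n2 := ndB4q2) (pc := pcB2) (cut := Cut.none) (xt := Ext.none) (P1 := 0) (W1 := 536870912) (P2 := 1073741824) (W2 := 536870912) (P3 := 740881858) (W3 := 40050571) (N0 := 3) (En := eng) (mo := mog) (C1 := cd0q0) (C2 := cd4q2) (C3 := pd2)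
    rfl k0_pm_022

noncomputable def f_pm_023 : ℕ → ℕ → ℕ → ℕ → Bool := onCell 0 536870912 0 1230186008 740881858 40050571
    (rowB 3 eng mog cd0q0 cd4q3 pd2 0 false true false .up 0 2 3 (qsf 0 536870912 0 1230186008 2) ndB0q0 ndB4q3 pcB2 Cut.none Ext.none)

def k0_pm_023 : ∃ t, chk3 f_pm_023 t 1 1 1 = true :=
  ⟨(a (b (l 2) (l 4)) (b (a (l 2) (b (a (l 2) (l 16514168)) (a (b (a (l 2) (l 16423528)) (l 4)) (b (l 16522696) (a (l 4) (l 16366240)))))) (b (l 4) (l 4)))), by decide +kernel⟩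

theorem c_pm_023 : CertB 0 536870912 0 1230186008 740881858 40050571 3 eng mog cd0q0 cd4q3 pd2 false true false .up 0 2 3
    ndB0q0 ndB4q3 pcB2 Cut.none Ext.none :=
  certB0 (fam := false) (s1 := true) (s2 := false) (a := 0) (b := 2) (c := 3) (cn := .up) (n1 := ndB0q0) (n2 := ndB4q3) (pc := pcB2) (cut := Cut.none) (xt := Ext.none) (P1 := 0) (W1 := 536870912) (P2 := 0) (W2 := 1230186008) (P3 := 740881858) (W3 := 40050571) (N0 := 3) (En := eng) (mo := mog) (C1 := cd0q0) (C2 := cd4q3) (C3 := pd2)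
    rfl k0_pm_023

noncomputable def f_pm_033 : ℕ → ℕ → ℕ → ℕ → Bool := onCell 1610612736 536870912 0 1230186008 740881858 40050571
    (rowB 3 eng mog cd0q0 cd4q3 pd3 2 false true false .pnn 0 3 3 (qsf 0 536870912 0 1230186008 3) ndB0q0 ndB4q3 pcB3 Cut.none Ext.none)

def k0_pm_033 : ∃ t, chk3 f_pm_033 t 1 1 1 = true :=
  ⟨(b (a (a (b (a (l 16524384) (a (l 16478256) (l 16465568))) (a (b (l 22782942711) (l 4)) (l 4))) (b (a (l 16253248) (l 4)) (l 4))) (l 4)) (l 4)), by decide +kernel⟩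

theorem c_pm_033 : CertB 0 536870912 0 1230186008 740881858 40050571 3 eng mog cd0q0 cd4q3 pd3 false true false .pnn 0 3 3
    ndB0q0 ndB4q3 pcB3 Cut.none Ext.none :=
  certB2 (fam := false) (s1 := true) (s2 := false) (a := 0) (b := 3) (c := 3) (cn := .pnn) (n1 := ndB0q0) (n2 := ndB4q3) (pc := pcB3) (cut := Cut.none) (xt := Ext.none) (P1 := 0) (W1 := 536870912) (P2 := 0) (W2 := 1230186008) (P3 := 740881858) (W3 := 40050571) (N0 := 3) (En := eng) (mo := mog) (C1 := cd0q0) (C2 := cd4q3) (C3 := pd3)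
    rfl (fun _ => rfl) k0_pm_033

noncomputable def f_pm_101 : ℕ → ℕ → ℕ → ℕ → Bool := onCell 536870912 536870912 536870912 536870912 740881858 40050571
    (rowB 3 eng mog cd0q1 cd4q1 pd0 0 false true false .npn 1 0 1 (qsf 536870912 536870912 536870912 536870912 0) ndB0q1 ndB4q1 pcB0 Cut.none Ext.none)

def k0_pm_101 : ∃ t, chk3 f_pm_101 t 1 1 1 = true :=
  ⟨(l 4), by decide +kernel⟩

theorem c_pm_101 : CertB 536870912 536870912 536870912 536870912 740881858 40050571 3 eng mog cd0q1 cd4q1 pd0 false true false .npn 1 0 1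
    ndB0q1 ndB4q1 pcB0 Cut.none Ext.none :=
  certB0 (fam := false) (s1 := true) (s2 := false) (a := 1) (b := 0) (c := 1) (cn := .npn) (n1 := ndB0q1) (n2 := ndB4q1) (pc := pcB0) (cut := Cut.none) (xt := Ext.none) (P1 := 536870912) (W1 := 536870912) (P2 := 536870912) (W2 := 536870912) (P3 := 740881858) (W3 := 40050571) (N0 := 3) (En := eng) (mo := mog) (C1 := cd0q1) (C2 := cd4q1) (C3 := pd0)
    rfl k0_pm_101

noncomputable def f_pm_102 : ℕ → ℕ → ℕ → ℕ → Bool := onCell 536870912 536870912 1073741824 536870912 740881858 40050571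
    (rowB 3 eng mog cd0q1 cd4q2 pd0 0 false true false .npp 1 0 2 (qsf 536870912 536870912 1073741824 536870912 0) ndB0q1 ndB4q2 pcB0 Cut.none Ext.none)

def k0_pm_102 : ∃ t, chk3 f_pm_102 t 2 1 1 = true :=
  ⟨(b (l 4) (b (l 4) (l 2))), by decide +kernel⟩

def k1_pm_102 : ∃ t, chk3 f_pm_102 t 3 2 1 = true :=
  ⟨(a (a (l 4) (b (b (l 4) (a (l 4) (b (l 15550688) (l 15569064)))) (b (a (l 4) (b (l 15591512) (l 15668248))) (a (l 372284918535) (b (l 15779496) (l 15875784)))))) (b (a (b (a (b (a (l 15530664) (l 15542176)) (a (l 15554928) (l 15575536))) (b (a (l 15560312) (l 15584304)) (a (l 15602792) (l 15634056)))) (a (b (a (l 15580952) (l 15610304)) (l 15626248)) (b (a (l 15642968) (l 15677944)) (a (l 15680976) (l 15718232))))) (b (a (b (a (b (l 15604568) (l 15631824)) (b (l 15649560) (l 15674480))) (a (l 15818264) (b (l 15702248) (l 15726168)))) (b (a (b (b (l 15690656) (l 15700656)) (l 15743536)) (b (b (a (l 15729296) (l 15749104)) (a (l 15738464) (l 15758168)))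 (a (l 15757112) (b (l 15770504) (l 15779624))))) (a (b (l 15747304) (l 15768552)) (b (a (l 15777392) (l 15855520)) (c (l 15843504) (l 15763264)))))) (a (b (a (l 15716728) (c (l 15791504) (l 15725464))) (a (l 15757376) (l 15902016))) (c (b (a (l 15833184) (b (l 15858456) (l 15873272))) (a (l 15866224) (b (l 15888160) (l 15903240)))) (b (a (l 15762224) (l 15791144)) (a (l 15801504) (l 15826688))))))) (b (a (a (b (l 15658592) (l 15742056)) (b (c (l 15755232) (l 15721128)) (l 15817424))) (a (b (c (a (l 15819888) (l 15862368)) (l 15791016)) (a (l 15871000) (l 15905104))) (b (c (a (b (l 15891120) (l 15908208)) (b (l 15918656) (c (l 15952448) (l 15917808)))) (a (l 15838776) (l 15861088))) (a (l 15934008) (b (l 15933992) (l 15973768)))))) (a (a (b (l 15852160) (l 15945568)) (b (l 15918896) (l 16007928))) (a (b (l 15978088) (l 16057048)) (b (b (l 16004288) (l 16042800)) (a (l 16085632) (l 16092616)))))))), by decide +kernel⟩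

def k2_pm_102 : ∃ t, chk3 f_pm_102 t 3 3 1 = true :=
  ⟨(a (b (a (b (l 4) (a (l 2) (b (l 15977480) (l 2)))) (b (a (l 15939224) (l 15996232)) (a (l 16063472) (l 16125264)))) (a (l 2) (b (a (l 2) (l 16251376)) (l 2)))) (b (a (b (b (l 16281632) (l 16118624)) (a (l 16178336) (l 16214808))) (b (a (b (l 16129056) (l 16182216)) (b (a (l 16146768) (l 16152832)) (l 16205552))) (a (l 16249752) (b (l 16248760) (l 16284088))))) (a (b (a (l 16285024) (l 16312824)) (l 16401024)) (b (a (l 16332096) (l 16336616)) (a (l 16422000) (l 16417656)))))), by decide +kernel⟩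

theorem s3_pm_102 : ∃ t, chk3 f_pm_102 t 3 1 1 = true := ex3_b k1_pm_102 k2_pm_102

theorem s4_pm_102 : ∃ t, chk3 f_pm_102 t 1 1 1 = true := ex3_a k0_pm_102 s3_pm_102

theorem c_pm_102 : CertB 536870912 536870912 1073741824 536870912 740881858 40050571 3 eng mog cd0q1 cd4q2 pd0 false true false .npp 1 0 2
    ndB0q1 ndB4q2 pcB0 Cut.none Ext.none :=
  certB0 (fam := false) (s1 := true) (s2 := false) (a := 1) (b := 0) (c := 2) (cn := .npp) (n1 := ndB0q1) (n2 := ndB4q2) (pc := pcB0) (cut := Cut.none) (xt := Ext.none) (P1 := 536870912) (W1 := 536870912) (P2 := 1073741824) (W2 := 536870912) (P3 := 740881858) (W3 := 40050571) (N0 := 3) (En := eng) (mo := mog) (C1 := cd0q1) (C2 := cd4q2) (C3 := pd0)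
    rfl s4_pm_102

noncomputable def f_pm_112 : ℕ → ℕ → ℕ → ℕ → Bool := onCell 536870912 536870912 1073741824 536870912 740881858 40050571
    (rowB 3 eng mog cd0q1 cd4q2 pd1 0 false true false .dn 1 1 2 (qsf 536870912 536870912 1073741824 536870912 1) ndB0q1 ndB4q2 pcB1 Cut.none Ext.none)

def k0_pm_112 : ∃ t, chk3 f_pm_112 t 1 1 1 = true :=
  ⟨(a (b (l 4) (a (l 4) (b (l 4) (a (l 4) (l 4))))) (b (a (a (l 4) (l 1)) (l 1)) (a (b (a (b (l 4) (l 15995792)) (b (a (l 15940344) (l 1)) (l 201896194039))) (a (b (l 16108264) (a (l 16027800) (l 16120136))) (b (l 16184528) (a (l 16202448) (l 16280392))))) (b (a (b (l 1) (l 371010677767)) (l 1)) (a (b (a (l 16264432) (l 16299840)) (l 16381488)) (l 195454218631)))))), by decide +kernel⟩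

theorem c_pm_112 : CertB 536870912 536870912 1073741824 536870912 740881858 40050571 3 eng mog cd0q1 cd4q2 pd1 false true false .dn 1 1 2
    ndB0q1 ndB4q2 pcB1 Cut.none Ext.none :=
  certB0 (fam := false) (s1 := true) (s2 := false) (a := 1) (b := 1) (c := 2) (cn := .dn) (n1 := ndB0q1) (n2 := ndB4q2) (pc := pcB1) (cut := Cut.none) (xt := Ext.none) (P1 := 536870912) (W1 := 536870912) (P2 := 1073741824) (W2 := 536870912) (P3 := 740881858) (W3 := 40050571) (N0 := 3) (En := eng) (mo := mog) (C1 := cd0q1) (C2 := cd4q2) (C3 := pd1)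
    rfl k0_pm_112

noncomputable def cut_pm_113 : Cut := Cut.of [[⟨0, 1, 0, 67108864⟩, ⟨1, 1, 0, 67108864⟩, ⟨2, 2, 0, 16777216⟩]]

noncomputable def f_pm_113 : ℕ → ℕ → ℕ → ℕ → Bool := onCell 536870912 536870912 0 1230186008 740881858 40050571
    (rowB 3 eng mog cd0q1 cd4q3 pd1 0 false true false .nn 1 1 3 (qsf 536870912 536870912 0 1230186008 1) ndB0q1 ndB4q3 pcB1 cut_pm_113 Ext.none)

def k0_pm_113 : ∃ t, chk3 f_pm_113 t 1 1 1 = true :=
  ⟨(b (a (l 2) (a (l 2) (b (a (l 2) (a (l 2) (b (l 6) (b (l 6) (a (l 16788544) (l 16789416)))))) (a (b (a (l 2) (l 16682216)) (a (b (l 2) (l 16584480)) (l 16654512))) (a (b (l 16745072) (l 16748920)) (b (b (l 16804152) (l 16807256)) (l 16820640))))))) (b (a (a (l 2) (a (l 2) (b (l 2) (b (l 2) (l 280345386919))))) (a (b (a (l 2) (a (l 289473669447) (l 194984575175))) (a (b (b (l 319538053367) (l 319001138871)) (l 16105384)) (b (l 16345496) (l 16367864)))) (a (b (a (l 16771184) (b (l 16681784) (l 16680000))) (a (l 16548688)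 (l 16675424))) (b (b (l 16804768) (l 16821088)) (a (l 16690744) (l 16901464)))))) (a (a (l 4) (b (a (b (a (l 2) (l 249206659927)) (a (l 4) (l 15586416))) (b (l 15861080) (a (l 15744272) (l 15919984)))) (a (l 4) (b (a (l 15765912) (b (l 15901160) (l 15903640))) (b (l 15858616) (l 15894632)))))) (a (b (a (b (l 16124264) (l 16125848)) (l 16365112)) (a (b (a (b (l 16060584) (l 16042136)) (l 16190688)) (b (l 16092336) (l 16247520))) (b (l 16364776) (a (l 16283744) (l 16388856))))) (b (a (l 16614008) (l 16853824)) (a (b (l 16616848) (l 16503608)) (l 16634712))))))), by decide +kernel⟩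

theorem c_pm_113 : CertB 536870912 536870912 0 1230186008 740881858 40050571 3 eng mog cd0q1 cd4q3 pd1 false true false .nn 1 1 3
    ndB0q1 ndB4q3 pcB1 cut_pm_113 Ext.none :=
  certB0 (fam := false) (s1 := true) (s2 := false) (a := 1) (b := 1) (c := 3) (cn := .nn) (n1 := ndB0q1) (n2 := ndB4q3) (pc := pcB1) (cut := cut_pm_113) (xt := Ext.none) (P1 := 536870912) (W1 := 536870912) (P2 := 0) (W2 := 1230186008) (P3 := 740881858) (W3 := 40050571) (N0 := 3) (En := eng) (mo := mog) (C1 := cd0q1) (C2 := cd4q3) (C3 := pd1)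
    rfl k0_pm_113

noncomputable def cut_pm_123 : Cut := Cut.of [[⟨0, 1, 0, 67108864⟩, ⟨1, 1, 0, 67108864⟩, ⟨2, 2, 0, 16777216⟩]]

noncomputable def f_pm_123 : ℕ → ℕ → ℕ → ℕ → Bool := onCell 1073741824 536870912 0 1230186008 740881858 40050571
    (rowB 3 eng mog cd0q1 cd4q3 pd2 2 false true false .npn 1 2 3 (qsf 536870912 536870912 0 1230186008 2) ndB0q1 ndB4q3 pcB2 cut_pm_123 Ext.none)

def k0_pm_123 : ∃ t, chk3 f_pm_123 t 1 2 1 = true :=
  ⟨(a (a (b (a (a (b (l 6) (b (l 6) (a (l 16660776) (l 16641384)))) (b (a (l 6) (l 16767816)) (b (a (l 6) (l 16634704)) (l 16589776)))) (a (b (l 16734680) (a (l 16592200) (l 16565488))) (b (a (l 16611440) (l 16598648)) (a (l 16539032) (l 16522184))))) (b (a (b (a (l 16621488) (l 16570368)) (a (l 16601720) (l 16603952))) (a (b (l 16509248) (l 16451048)) (b (l 16453752) (l 16391808)))) (a (a (b (l 16575496) (l 16474440)) (b (l 16457272) (a (l 16413008) (l 16372816)))) (a (b (l 16387768) (a (l 16335600) (l 16303328)))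 (b (b (l 16340288) (l 16305872)) (b (l 16276488) (l 16244032))))))) (b (a (a (a (b (l 16594224) (l 16509568)) (b (a (l 16589096) (b (l 16604632) (l 16565816))) (l 16494408))) (b (l 16574944) (l 16487792))) (a (b (l 16568264) (l 16487240)) (b (l 16568544) (l 16492896)))) (a (b (a (b (l 16412936) (l 16489280)) (b (l 16397288) (l 16389160))) (a (b (a (l 16283208) (l 16262456)) (l 16409496)) (b (l 16272304) (l 16221072)))) (b (a (b (l 16406776) (l 16346800)) (l 16393544)) (a (l 16269864) (l 16288536)))))) (a (b (a (b (l 16568520) (a (l 16495608) (l 16496696))) (l 16535744)) (a (b (a (l 16407288) (l 16418608)) (a (l 16306528) (l 16320136))) (b (l 16434752) (a (l 16334968) (l 16349216))))) (b (a (l 16359008) (l 16540400)) (a (b (l 16452936) (a (l 16358392) (l 16368136))) (b (a (l 16446136) (l 16437256)) (a (l 16370128) (l 1))))))), by decide +kernel⟩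

def k1_pm_123 : ∃ t, chk3 f_pm_123 t 1 3 1 = true :=
  ⟨(b (a (a (b (a (b (b (a (a (l 16445816) (l 16401320)) (l 16398208)) (a (a (l 16403096) (l 16349584)) (l 16282944))) (a (a (l 16302392) (l 16259336)) (b (l 16230096) (l 16176744)))) (b (a (c (l 16256184) (l 16224544)) (a (l 16202936) (l 16185488))) (a (a (l 16162752) (l 16143224)) (l 16137504)))) (a (a (a (b (l 16163088) (l 16014784)) (b (l 16130032) (l 15987848))) (b (l 16301888) (l 15934600))) (b (a (l 16113136) (l 16246608)) (a (l 15916768) (l 15903616))))) (a (b (a (b (a (l 16169048) (l 16155720)) (a (l 16094912) (l 16083584))) (b (l 16161448) (l 16089464))) (a (b (l 15979960) (l 15904440)) (b (l 16004704) (l 15924456)))) (b (a (b (l 16178088) (l 16106416)) (b (l 16199000) (l 16127904))) (b (l 16046656) (l 4))))) (a (b (a (a (b (l 16217856) (l 16154720)) (l 16213920)) (a (l 16228992) (l 16249496))) (l 4)) (l 4))) (a (a (b (a (b (a (l 15831712) (l 15754328)) (a (a (l 15545520) (l 4)) (l 4)))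 (b (a (l 15751776) (l 4)) (l 4))) (l 4)) (l 4)) (l 1))), by decide +kernel⟩

theorem s2_pm_123 : ∃ t, chk3 f_pm_123 t 1 1 1 = true := ex3_b k0_pm_123 k1_pm_123

theorem c_pm_123 : CertB 536870912 536870912 0 1230186008 740881858 40050571 3 eng mog cd0q1 cd4q3 pd2 false true false .npn 1 2 3
    ndB0q1 ndB4q3 pcB2 cut_pm_123 Ext.none :=
  certB2 (fam := false) (s1 := true) (s2 := false) (a := 1) (b := 2) (c := 3) (cn := .npn) (n1 := ndB0q1) (n2 := ndB4q3) (pc := pcB2) (cut := cut_pm_123) (xt := Ext.none) (P1 := 536870912) (W1 := 536870912) (P2 := 0) (W2 := 1230186008) (P3 := 740881858) (W3 := 40050571) (N0 := 3) (En := eng) (mo := mog) (C1 := cd0q1) (C2 := cd4q3) (C3 := pd2)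
    rfl (fun _ => rfl) s2_pm_123

noncomputable def f_pm_133 : ℕ → ℕ → ℕ → ℕ → Bool := onCell 536870912 536870912 0 1230186008 740881858 40050571
    (rowB 3 eng mog cd0q1 cd4q3 pd3 0 false true false .dn 1 3 3 (qsf 536870912 536870912 0 1230186008 3) ndB0q1 ndB4q3 pcB3 Cut.none Ext.none)

def k0_pm_133 : ∃ t, chk3 f_pm_133 t 1 1 1 = true :=
  ⟨(b (b (a (a (a (l 16830528) (l 1)) (l 1)) (l 1)) (l 1)) (l 1)), by decide +kernel⟩

theorem c_pm_133 : CertB 536870912 536870912 0 1230186008 740881858 40050571 3 eng mog cd0q1 cd4q3 pd3 false true false .dn 1 3 3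
    ndB0q1 ndB4q3 pcB3 Cut.none Ext.none :=
  certB0 (fam := false) (s1 := true) (s2 := false) (a := 1) (b := 3) (c := 3) (cn := .dn) (n1 := ndB0q1) (n2 := ndB4q3) (pc := pcB3) (cut := Cut.none) (xt := Ext.none) (P1 := 536870912) (W1 := 536870912) (P2 := 0) (W2 := 1230186008) (P3 := 740881858) (W3 := 40050571) (N0 := 3) (En := eng) (mo := mog) (C1 := cd0q1) (C2 := cd4q3) (C3 := pd3)
    rfl k0_pm_133

noncomputable def f_pm_202 : ℕ → ℕ → ℕ → ℕ → Bool := onCell 0 536870912 0 536870912 740881858 40050571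
    (rowB 3 eng mog cd0q2 cd4q2 pd0 1 false true false .pp 2 0 2 (qsf 0 536870912 1073741824 536870912 0) ndB0q2 ndB4q2 pcB0 Cut.none Ext.none)

def k0_pm_202 : ∃ t, chk3 f_pm_202 t 2 4 1 = true :=
  ⟨(a (b (b (a (b (c (a (l 16337144) (l 16387280)) (l 16442384)) (a (l 16453168) (l 16272600))) (b (c (a (l 16415416) (b (a (l 16398816) (l 16369896)) (a (l 16386704) (l 16376952)))) (a (l 16419096) (b (l 16439104) (l 16403856)))) (a (l 16237320) (c (l 16398624) (l 16420672))))) (c (a (a (b (l 16521984) (l 16557744)) (l 16455736)) (a (l 16443528) (l 16428880))) (a (a (l 16542176) (l 16477600)) (l 16456808)))) (a (a (b (b (a (b (l 16463568) (l 16464888)) (l 16538328)) (a (b (l 16468800) (l 16468936)) (l 16511040))) (a (b (l 16468584) (l 16471880)) (b (a (l 16474744) (l 16476624)) (l 16478280)))) (b (c (a (l 16591776) (l 16566632)) (l 16535432)) (b (a (l 16482560) (l 16490792)) (a (l 16483128) (l 16491176))))) (b (c (l 16468352) (l 16485056)) (a (b (l 16672856)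 (a (l 16499728) (l 16505616))) (l 16494080))))) (b (a (b (b (a (b (l 16364656) (l 16390184)) (c (c (l 16335816) (l 16341192)) (l 16352744))) (c (a (a (l 16468640) (l 16373648)) (b (l 16345040) (l 16358840))) (a (l 16462432) (l 16368392)))) (b (a (c (l 16401480) (l 16420424)) (b (l 16380272) (l 16457336))) (a (l 16430024) (a (l 16415616) (l 16426192))))) (a (b (b (c (l 16319064) (l 16327576)) (c (b (l 16319728) (l 16327560)) (l 16335968))) (b (l 16354248) (l 16382328))) (b (b (c (c (l 16299472) (l 16298936)) (l 16301184)) (c (a (c (l 16303704) (l 16305472)) (l 16292344)) (l 16304592))) (b (b (a (l 16318608) (l 16299200)) (l 16323808)) (l 16346184))))) (a (a (b (l 16454328) (l 16481200)) (b (l 16426424) (l 16466368))) (b (a (b (a (l 16413664) (l 16400600)) (l 16425488)) (b (l 16374096) (l 16400544))) (a (l 16449424) (b (l 16462552) (l 16436632))))))), by decide +kernel⟩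

def k1_pm_202 : ∃ t, chk3 f_pm_202 t 2 5 1 = true :=
  ⟨(a (b (a (a (b (a (b (l 16479704) (l 16492136)) (b (l 16481624) (l 16490088))) (a (l 3) (l 104857212199))) (b (b (a (l 16488552) (l 16493328)) (a (l 16494440) (l 16499488))) (a (l 16507920) (l 16617336)))) (b (a (b (l 16506288) (l 16508592)) (a (l 16678784) (l 16615920))) (a (a (l 16514152) (l 16519000)) (b (l 16525424) (l 16528344))))) (a (a (l 3) (a (b (l 145122574007) (l 3)) (b (l 16528288) (l 16588816)))) (b (a (a (l 16530616) (l 16532104)) (a (l 16533984) (l 16537824))) (a (l 16567792) (a (l 16548376) (l 16548392)))))) (b (a (a (b (l 16503072) (a (l 16523296) (l 16518424))) (l 16500416)) (b (a (l 16474896) (l 16457576)) (l 16489232))) (a (b (a (l 16536560) (l 16526416)) (a (l 16549552) (l 16541744))) (b (l 16507960) (a (l 16530648) (l 16517048)))))), by decide +kernel⟩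

def k2_pm_202 : ∃ t, chk3 f_pm_202 t 2 3 1 = true :=
  ⟨(b (a (b (a (b (a (l 3) (l 149954516263)) (l 3)) (b (a (b (l 16559488) (l 16568760)) (l 16563528)) (a (l 147270228119) (l 16576856)))) (a (l 3) (b (a (l 161228911751) (b (l 16585976) (l 16590712))) (a (l 3) (a (l 183240506983) (l 16595480)))))) (b (a (a (b (l 16559912) (l 16571328)) (l 16560776)) (b (a (l 16545296) (l 16533152)) (a (l 16558856) (l 16547584)))) (a (b (a (l 16582496) (l 16575024)) (a (l 16590936) (l 16583648))) (b (l 16567728) (l 16578488))))) (a (l 2) (b (a (l 2) (b (a (l 2) (l 16584864)) (l 2))) (l 2)))), by decide +kernel⟩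

def k3_pm_202 : ∃ t, chk3 f_pm_202 t 6 4 1 = true :=
  ⟨(b (c (a (b (a (b (c (l 16275576) (l 16271928)) (c (l 16273040) (l 16271032))) (a (b (l 16249208) (l 16246592)) (b (l 16231392) (l 16228112)))) (a (b (a (b (l 16279528) (l 16288472)) (b (l 16263072) (l 16265928))) (l 16299320)) (a (b (l 16245224) (b (l 16251032) (l 16265600))) (b (l 16226136) (b (l 16226384) (l 16235096)))))) (b (a (b (a (l 16212736) (l 16193144)) (c (l 16203488) (l 16194520))) (b (a (l 16171896) (b (a (l 16155320) (l 16142440)) (a (l 16152832) (l 16139376)))) (a (l 16166240) (l 16142000)))) (a (a (b (l 16206136) (b (l 16205112) (l 16207080))) (b (l 16185088) (l 16183336))) (b (c (l 16156168) (l 16144360)) (c (l 16152784) (l 16142552)))))) (a (b (a (b (l 16269296) (l 16271296)) (b (l 16229656) (l 16230568))) (a (b (l 16278568) (l 16302400)) (b (l 16232592) (l 16245184)))) (b (a (b (l 16184432) (l 16183944)) (b (a (l 16146280) (b (l 16158680) (l 16115112))) (l 16130184))) (a (b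 (l 16184784) (l 16187928)) (b (l 16129632) (l 16130624)))))) (a (b (a (b (l 16329880) (l 16357880)) (c (b (l 16274264) (l 16304440)) (l 16288192))) (a (b (l 16383744) (l 16407960)) (l 16344488))) (a (b (b (c (b (a (l 16218064) (l 16186776)) (l 16217184)) (l 16204816)) (l 16236952)) (l 16428808)) (b (b (c (a (b (l 16159272) (l 16164528)) (l 16133296)) (l 16135488)) (c (a (l 16186736) (b (l 16139816) (l 16154584))) (l 16155232))) (a (l 16227664) (l 16186904)))))), by decide +kernel⟩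

def k4_pm_202 : ∃ t, chk3 f_pm_202 t 7 8 1 = true :=
  ⟨(a (b (a (b (a (b (l 16094888) (c (l 16115856) (l 16080032))) (c (l 16077480) (l 16033352))) (a (b (a (a (l 16110480) (l 16103184)) (l 16088208)) (a (l 16105256) (a (l 16093480) (l 16085384)))) (c (l 16079000) (l 16039896)))) (b (a (b (l 16012992) (l 16015280)) (b (l 15971360) (l 15973984))) (a (l 16039696) (l 16020016)))) (a (b (a (c (b (l 16110456) (l 16109336)) (l 16080376)) (a (c (b (l 16089800) (l 16087392)) (l 16055256)) (c (l 16072432) (l 16036248)))) (a (c (l 16106872) (l 16081928)) (c (a (l 16085728) (b (l 16092816) (l 16070896))) (l 16045600)))) (b (c (a (l 16044680) (l 16008536)) (l 15982072)) (a (a (b (l 16036568) (a (l 16042640) (l 16034560))) (l 16018512)) (c (l 16012384) (l 15968312)))))) (b (a (b (a (b (l 15928128) (l 15931152)) (b (a (l 15894256) (l 15870760)) (l 15886072))) (a (c (l 15966752) (l 15905936)) (c (l 15926568) (l 15857896)))) (a (b (b (a (l 15846576) (b (l 15820800)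 (l 15822824))) (a (l 15850608) (l 15826304))) (b (l 15843432) (l 15848760))) (b (a (b (b (a (l 15801688) (l 15788680)) (l 15797536)) (l 15801720)) (b (a (b (b (l 15774984) (l 15776264)) (l 15778464)) (b (c (l 15811432) (l 15713832)) (l 15766416))) (a (l 15783624) (l 15772640)))) (a (b (l 15808064) (l 15814824)) (b (l 15785968) (l 15794040)))))) (c (a (b (a (l 15971376) (l 15932816)) (a (l 15976608) (l 15939840))) (a (b (l 15893336) (l 15902808)) (b (a (l 15864616) (l 15847800)) (l 15868648)))) (a (b (l 15892528) (l 15903152)) (a (b (l 15821648) (l 15835784)) (b (l 15775304) (l 15792632))))))), by decide +kernel⟩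

def k5_pm_202 : ∃ t, chk3 f_pm_202 t 7 9 1 = true :=
  ⟨(a (b (a (c (a (b (l 16105216) (b (l 16105560) (l 16112920))) (b (l 16076752) (c (l 16084304) (l 16070160)))) (b (l 16066600) (l 16073136))) (a (b (c (a (b (l 16055392) (l 16055760)) (b (l 16041864) (l 16041232))) (l 16013632)) (c (l 16048928) (l 16018464))) (b (c (l 16017008) (l 15976776)) (c (a (c (b (l 16038088) (l 16037848)) (l 16017960)) (b (l 16011792) (l 16015112))) (l 15984160))))) (a (b (c (a (l 16136672) (b (l 16085304) (l 16100952))) (l 16094592)) (l 16136496)) (c (b (a (b (l 16050520) (l 16058656)) (b (a (l 16029792) (l 16015688)) (l 16066928))) (a (l 16083256) (b (c (l 16042624) (l 16024080)) (l 16048840)))) (b (a (l 16027496) (l 15987888)) (l 16032296))))) (a (a (b (c (b (l 15982328) (l 15988504)) (l 15939744)) (b (a (b (l 15980840) (a (l 16050600) (l 15980584))) (l 15965032)) (c (b (a (c (l 16016968) (l 15996120)) (l 15993808)) (a (l 16016824) (c (b (l 16007128) (l 16011040)) (l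 15987192)))) (l 15964800)))) (b (c (b (l 15947424) (l 15955480)) (l 15898296)) (c (b (l 15964008) (c (l 15985904) (l 15960864))) (l 15920568)))) (b (c (a (b (l 15912776) (l 15923144)) (b (l 15881520) (l 15894520))) (a (l 15856688) (l 15817728))) (c (a (c (l 15954368) (l 15924928)) (b (l 15907744) (l 15921288))) (b (l 15859048) (l 15873672)))))), by decide +kernel⟩

def k6_pm_202 : ∃ t, chk3 f_pm_202 t 3 5 1 = true :=
  ⟨(a (b (a (b (a (l 16536424) (b (l 16381768) (l 16404104))) (a (l 16458384) (l 16425352))) (b (a (l 16336144) (l 16266832)) (a (l 16446304) (l 16319360)))) (a (b (l 16547880) (l 16481816)) (b (a (l 16410024) (l 16445792)) (l 16448520)))) (a (b (b (a (l 16184168) (c (b (l 16096848) (l 16130664)) (l 16082272))) (a (l 16242560) (l 16161488))) (b (a (l 16291048) (l 16217072)) (l 16528552))) (b (b (a (a (b (c (l 16032864) (l 15993496)) (l 16048280)) (b (c (a (b (a (l 16038784) (l 15987496)) (l 16009680)) (b (l 15974416) (l 16010376))) (l 15948128))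 (c (a (l 16038560) (l 16017160)) (l 15979920)))) (b (c (a (a (b (l 15960184) (l 15969320)) (l 15951048)) (l 15935264)) (l 15889336)) (a (c (b (c (l 15991816) (l 15963272)) (l 15998192)) (l 15935632)) (c (c (b (l 15963912) (l 15977920)) (l 15939000)) (l 15893664))))) (a (c (l 16101544) (l 16057040)) (a (b (c (l 16025984) (l 15971176)) (l 16032760)) (b (l 15958016) (l 15997280))))) (b (a (l 16141320) (b (a (l 16068224) (l 16030800)) (l 16081448))) (l 16222248))))), by decide +kernel⟩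

def k7_pm_202 : ∃ t, chk3 f_pm_202 t 3 3 1 = true :=
  ⟨(b (b (a (b (a (l 16499840) (l 16429736)) (a (l 16516616) (l 16450640))) (b (a (a (l 16357984) (l 16304232)) (l 16210440)) (a (l 16360832) (l 16257336)))) (a (a (b (l 16509752) (l 16546936)) (l 16708216)) (b (a (l 16384632) (l 16315952)) (a (l 16404320) (l 16320416))))) (a (b (a (a (l 16578080) (l 16557008)) (b (l 16504720) (l 16522776))) (l 2)) (b (a (l 16438408) (b (l 16347416) (l 16378576))) (a (l 16489432) (l 16430368))))), by decide +kernel⟩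

theorem s8_pm_202 : ∃ t, chk3 f_pm_202 t 7 4 1 = true := ex3_b k4_pm_202 k5_pm_202

theorem s9_pm_202 : ∃ t, chk3 f_pm_202 t 3 4 1 = true := ex3_a k3_pm_202 s8_pm_202

theorem s10_pm_202 : ∃ t, chk3 f_pm_202 t 3 2 1 = true := ex3_b s9_pm_202 k6_pm_202

theorem s11_pm_202 : ∃ t, chk3 f_pm_202 t 3 1 1 = true := ex3_b s10_pm_202 k7_pm_202

theorem s12_pm_202 : ∃ t, chk3 f_pm_202 t 2 2 1 = true := ex3_b k0_pm_202 k1_pm_202

theorem s13_pm_202 : ∃ t, chk3 f_pm_202 t 2 1 1 = true := ex3_b s12_pm_202 k2_pm_202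

theorem s14_pm_202 : ∃ t, chk3 f_pm_202 t 1 1 1 = true := ex3_a s13_pm_202 s11_pm_202

theorem c_pm_202 : CertB 0 536870912 1073741824 536870912 740881858 40050571 3 eng mog cd0q2 cd4q2 pd0 false true false .pp 2 0 2
    ndB0q2 ndB4q2 pcB0 Cut.none Ext.none :=
  certB1 (fam := false) (s1 := true) (s2 := false) (a := 2) (b := 0) (c := 2) (cn := .pp) (n1 := ndB0q2) (n2 := ndB4q2) (pc := pcB0) (cut := Cut.none) (xt := Ext.none) (P1 := 0) (W1 := 536870912) (P2 := 1073741824) (W2 := 536870912) (P3 := 740881858) (W3 := 40050571) (N0 := 3) (En := eng) (mo := mog) (C1 := cd0q2) (C2 := cd4q2) (C3 := pd0)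
    rfl (fun _ => rfl) s14_pm_202

noncomputable def f_pm_203 : ℕ → ℕ → ℕ → ℕ → Bool := onCell 0 536870912 0 1230186008 740881858 40050571
    (rowB 3 eng mog cd0q2 cd4q3 pd0 0 false true false .up 2 0 3 (qsf 0 536870912 0 1230186008 0) ndB0q2 ndB4q3 pcB0 Cut.none Ext.none)

def k0_pm_203 : ∃ t, chk3 f_pm_203 t 1 1 1 = true :=
  ⟨(b (l 2) (b (l 2) (a (b (a (l 3) (b (l 2) (b (l 2) (a (a (l 3) (a (l 191830503783) (l 16683168))) (a (l 16641112) (l 2)))))) (a (b (l 3) (a (l 3) (a (l 3) (b (l 192367239847) (a (l 164450019399) (l 148343994711)))))) (b (a (b (a (l 192367287111) (b (l 16629992) (l 16621216))) (a (l 133311527751) (l 16610144))) (a (b (l 16627568) (l 16613544)) (b (l 16627696) (l 16612888)))) (a (b (a (l 152638872743) (l 16597008)) (a (l 16595128) (l 16585544))) (b (a (l 16601288) (l 16598840)) (a (l 16586184) (l 16585952))))))) (b (l 2) (a (b (a (b (l 16615536) (l 16600728)) (l 16584016)) (a (b (l 16584680) (l 16570776)) (b (l 16550016) (l 16530088))))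 (a (b (l 16560600) (l 16499360)) (l 16596280))))))), by decide +kernel⟩

theorem c_pm_203 : CertB 0 536870912 0 1230186008 740881858 40050571 3 eng mog cd0q2 cd4q3 pd0 false true false .up 2 0 3
    ndB0q2 ndB4q3 pcB0 Cut.none Ext.none :=
  certB0 (fam := false) (s1 := true) (s2 := false) (a := 2) (b := 0) (c := 3) (cn := .up) (n1 := ndB0q2) (n2 := ndB4q3) (pc := pcB0) (cut := Cut.none) (xt := Ext.none) (P1 := 0) (W1 := 536870912) (P2 := 0) (W2 := 1230186008) (P3 := 740881858) (W3 := 40050571) (N0 := 3) (En := eng) (mo := mog) (C1 := cd0q2) (C2 := cd4q3) (C3 := pd0)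
    rfl k0_pm_203

noncomputable def cut_pm_213 : Cut := Cut.of [[⟨0, 1, 0, 67108864⟩, ⟨1, 1, 0, 67108864⟩, ⟨2, 2, 0, 16777216⟩]]

noncomputable def f_pm_213 : ℕ → ℕ → ℕ → ℕ → Bool := onCell 0 536870912 0 1230186008 740881858 40050571
    (rowB 3 eng mog cd0q2 cd4q3 pd1 0 false true false .pnn 2 1 3 (qsf 0 536870912 0 1230186008 1) ndB0q2 ndB4q3 pcB1 cut_pm_213 Ext.none)

def k0_pm_213 : ∃ t, chk3 f_pm_213 t 2 2 1 = true :=
  ⟨(l 3), by decide +kernel⟩

def k1_pm_213 : ∃ t, chk3 f_pm_213 t 3 4 1 = true :=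
  ⟨(a (l 3) (a (b (l 3) (a (l 3) (b (a (l 3) (l 6)) (a (b (l 3) (a (l 3) (b (a (l 3) (b (l 3) (a (l 3) (b (l 204178731047) (l 214916150407))))) (c (a (b (l 211158068183) (l 209010565975)) (b (l 217063631431) (l 16792112))) (a (b (l 228337918359) (a (l 231022274423) (l 215453021591))) (b (a (l 223506077895) (l 16780888)) (l 16791600))))))) (b (a (b (l 3) (a (b (l 3) (a (l 3) (l 213842406343))) (b (a (l 3) (c (l 219211120407) (l 230485415207))) (a (b (l 213842403367) (l 223506080151)) (c (l 16788920) (l 16786792)))))) (c (b (a (b (a (l 3) (l 230485406871)) (a (l 212231797031) (l 222969220151))) (b (a (b (l 214916149383) (l 225653573543)) (l 244444056871)) (l 16779600))) (a (b (a (l 232632900311) (l 16785592)) (l 16786888)) (l 16787024))) (b (a (b (a (l 3) (l 214379284247)) (a (l 222432349527) (l 222432343911))) (b (a (b (l 216526766695) (l 223506089287)) (b (l 236390985495) (l 16786496))) (l 16784880))) (a (b (l 232096022567) (l 16790072)) (l 16790144)))))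 (a (b (a (b (a (b (l 3) (l 213305535399)) (b (l 214379275655) (l 232096017191))) (c (l 226190435575) (l 225653570519))) (b (l 16782464) (l 16791184))) (l 16780688)) (l 16772312))))))) (b (l 6) (a (b (a (l 6) (l 6)) (a (b (a (b (c (l 16775280) (l 16780568)) (l 16790152)) (l 16789768)) (l 16794392)) (l 16789592))) (b (a (l 6) (l 6)) (a (l 16785568) (l 16780280))))))), by decide +kernel⟩

def k2_pm_213 : ∃ t, chk3 f_pm_213 t 6 5 1 = true :=
  ⟨(b (a (l 3) (b (l 3) (a (l 3) (a (l 3) (a (l 3) (b (l 3) (b (l 3) (c (l 205252514983) (l 203105006903))))))))) (a (l 3) (b (a (l 3) (b (a (l 3) (b (a (a (l 3) (l 188609461575)) (a (l 166597755383) (l 16780584))) (c (l 164987163447) (l 163376527271)))) (a (a (b (l 3) (l 180019539799)) (b (a (l 180019565511) (l 170892723447)) (l 160155299927))) (b (a (l 16779480) (l 16804272)) (l 16783280))))) (a (b (a (l 3) (a (l 3) (b (l 183777650855) (l 171429599367)))) (a (a (l 3) (b (l 3) (l 180019507191))) (a (b (l 175724541335)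 (l 146196640503)) (b (l 16771920) (l 16796664))))) (b (a (a (b (l 161229042087) (l 16795632)) (l 16779040)) (l 16807368)) (a (l 16782104) (l 16813480))))))), by decide +kernel⟩

def k3_pm_213 : ∃ t, chk3 f_pm_213 t 28 10 1 = true :=
  ⟨(b (a (l 3) (b (a (l 3) (b (l 3) (a (l 3) (b (l 3) (c (a (l 219211117815) (l 206863088743)) (c (l 211158055015) (a (l 205252477047) (l 205789349927)))))))) (a (c (b (l 3) (a (b (l 3) (l 205252476215)) (b (a (l 202568141879) (l 207399960631)) (l 194515061623)))) (b (l 3) (a (b (l 3) (l 209010570391)) (b (b (l 206863087207) (l 196662535591)) (a (l 191830697223) (l 16788208)))))) (c (b (a (b (a (l 3) (l 216526764087)) (a (l 213842410471) (l 204715610391))) (b (l 203104995591) (l 16797048))) (a (b (l 16786400) (l 16798072)) (l 16798712))) (b (a (c (b (l 204178741895) (l 205252485671)) (b (a (l 3) (l 204715605815)) (a (l 206863089239) (l 206863089607)))) (b (a (b (l 209547439063) (l 16781808)) (l 16788872)) (l 16789048))) (a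 (b (a (l 16782848) (l 16788704)) (l 16789128)) (l 16790016))))))) (a (b (c (a (b (l 3) (l 224579823463)) (b (a (l 3) (b (l 205252497815) (l 181630180983))) (b (l 177335195175) (l 173040227655)))) (a (b (l 3) (l 271824468967)) (b (a (l 3) (b (l 210621188087) (l 180556419383))) (b (l 176261443175) (l 172503352855))))) (c (a (b (l 171429611175) (l 164450296583)) (b (l 16782720) (l 16808376))) (b (a (a (l 210621195511) (l 167671520167)) (l 16792240)) (a (l 161765921687) (l 16796040))))) (c (b (a (b (a (b (l 190756964615) (l 16798560)) (l 16777944)) (l 16801656)) (l 16802392)) (l 16809408)) (b (a (b (a (b (l 188609472599) (l 16788672)) (l 16789264)) (l 16791088)) (l 16771328)) (l 16776520))))), by decide +kernel⟩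

def k4_pm_213 : ∃ t, chk3 f_pm_213 t 29 10 1 = true :=
  ⟨(b (a (b (c (a (b (a (b (l 3) (l 218137375703)) (b (l 221358622615) (l 206863094951))) (a (b (l 225116702615) (l 16786016)) (l 16797328))) (b (a (b (l 220821736823) (l 16796224)) (l 16795208)) (l 16799184))) (a (b (a (b (l 3) (a (l 3) (l 212768660631))) (b (a (l 211158043031) (l 209010561623)) (a (l 209010566295) (l 16779992)))) (a (b (a (b (l 210084321015) (l 215453030999)) (l 207399951895)) (a (l 210084306503) (l 16789744))) (l 16780024))) (b (a (b (l 217063631943) (l 16791320)) (l 16792152)) (l 16792392)))) (a (b (a (l 16773072) (l 16795344)) (l 16796520)) (l 16798240))) (b (a (l 16797024) (l 16798632)) (l 16802352))) (a (b (l 16801896) (l 16809536)) (l 16812832))), by decide +kernel⟩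

def k5_pm_213 : ∃ t, chk3 f_pm_213 t 15 10 1 = true :=
  ⟨(a (b (a (l 16801864) (l 16802184)) (l 16819104)) (b (l 16797480) (l 16818864))), by decide +kernel⟩

def k6_pm_213 : ∃ t, chk3 f_pm_213 t 7 11 1 = true :=
  ⟨(b (a (a (a (b (a (l 16793992) (l 16806944)) (l 16810416)) (b (l 16810880) (l 16817120))) (a (l 16820944) (l 16828976))) (a (l 16838072) (l 16849672))) (a (a (a (l 16819160) (l 16828112)) (l 16844072)) (a (l 16864072) (l 16867912)))), by decide +kernel⟩

def k7_pm_213 : ∃ t, chk3 f_pm_213 t 1 6 1 = true :=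
  ⟨(a (b (l 3) (a (l 3) (a (l 3) (b (l 3) (a (l 3) (b (a (l 3) (b (l 177871946119) (l 186998734023))) (a (b (l 161765766551) (a (l 236927673207) (l 182703733351))) (b (l 143512176567) (l 16703672))))))))) (b (a (b (a (a (l 3) (b (l 3) (a (l 3) (b (a (l 3) (l 350744484071)) (l 175724589351))))) (a (b (a (b (a (a (l 3) (l 182703905607)) (a (l 156934061047) (l 16770744))) (a (b (l 172503361143) (a (l 171429619943) (l 16792704))) (l 16774704))) (b (l 16777736) (l 16804112))) (a (b (a (l 16773840) (l 16800688)) (l 16802248)) (l 16812376))) (b (a (l 16812472) (l 16822648)) (l 16829416)))) (a (a (b (l 3) (l 206863051447)) (b (a (l 338396465735) (l 154786552311)) (a (l 182166965623) (l 16798904)))) (a (b (l 16794328) (l 16822688)) (l 16846704)))) (a (b (a (b (l 16838016) (l 16850656)) (l 16869928)) (a (l 16872192) (l 16897624))) (b (a (l 16889096) (l 16889152)) (l 16914408)))) (a (a (b (a (a (b (l 188609434615) (a (l 189146242935) (l 165523930103))) (b (l 170892657687)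 (l 16766208))) (b (l 16794280) (l 16795504))) (a (b (a (b (l 16741712) (l 16731256)) (l 16750592)) (l 16713384)) (b (l 16772200) (l 16744848)))) (b (a (l 16831640) (l 16869096)) (a (l 16791048) (l 16828608)))) (a (b (b (l 16905136) (l 16921520)) (l 16938840)) (b (l 16945616) (l 16980312)))))), by decide +kernel⟩

def k8_pm_213 : ∃ t, chk3 f_pm_213 t 1 7 1 = true :=
  ⟨(a (b (a (l 3) (b (a (l 3) (a (b (a (l 3) (l 237464523591)) (a (l 232095787415) (l 163376351911))) (b (a (b (l 178408747815) (l 16684976)) (l 16697352)) (l 16683960)))) (a (a (l 3) (b (l 227263929879) (a (l 193441121735) (l 149954593015)))) (b (a (a (l 154249540807) (l 16664824)) (l 16674632)) (a (l 16656000) (l 16665072)))))) (a (l 1) (b (a (l 1) (b (a (l 16650336) (l 16656176)) (l 1))) (l 1)))) (a (b (b (a (a (l 16702392) (a (l 16711144) (l 16716304))) (a (l 16725464) (l 16748368))) (a (a (b (l 16681024) (l 16666192)) (l 16670592)) (l 16673784))) (b (a (b (l 16644776) (l 16627232)) (l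 16614168)) (l 1))) (b (a (b (l 16810384) (l 16704472)) (b (l 16989584) (l 16813392))) (a (b (l 16605072) (l 16517512)) (l 16576920))))), by decide +kernel⟩

theorem s9_pm_213 : ∃ t, chk3 f_pm_213 t 1 3 1 = true := ex3_b k7_pm_213 k8_pm_213

theorem s10_pm_213 : ∃ t, chk3 f_pm_213 t 14 10 1 = true := ex3_a k3_pm_213 k4_pm_213

theorem s11_pm_213 : ∃ t, chk3 f_pm_213 t 7 10 1 = true := ex3_a s10_pm_213 k5_pm_213

theorem s12_pm_213 : ∃ t, chk3 f_pm_213 t 7 5 1 = true := ex3_b s11_pm_213 k6_pm_213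

theorem s13_pm_213 : ∃ t, chk3 f_pm_213 t 3 5 1 = true := ex3_a k2_pm_213 s12_pm_213

theorem s14_pm_213 : ∃ t, chk3 f_pm_213 t 3 2 1 = true := ex3_b k1_pm_213 s13_pm_213

theorem s15_pm_213 : ∃ t, chk3 f_pm_213 t 1 2 1 = true := ex3_a k0_pm_213 s14_pm_213

theorem s16_pm_213 : ∃ t, chk3 f_pm_213 t 1 1 1 = true := ex3_b s15_pm_213 s9_pm_213

theorem c_pm_213 : CertB 0 536870912 0 1230186008 740881858 40050571 3 eng mog cd0q2 cd4q3 pd1 false true false .pnn 2 1 3
    ndB0q2 ndB4q3 pcB1 cut_pm_213 Ext.none :=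
  certB0 (fam := false) (s1 := true) (s2 := false) (a := 2) (b := 1) (c := 3) (cn := .pnn) (n1 := ndB0q2) (n2 := ndB4q3) (pc := pcB1) (cut := cut_pm_213) (xt := Ext.none) (P1 := 0) (W1 := 536870912) (P2 := 0) (W2 := 1230186008) (P3 := 740881858) (W3 := 40050571) (N0 := 3) (En := eng) (mo := mog) (C1 := cd0q2) (C2 := cd4q3) (C3 := pd1)
    rfl s16_pm_213

noncomputable def f_mm_001 : ℕ → ℕ → ℕ → ℕ → Bool := onCell 0 536870912 0 536870912 740881858 40050571
    (rowB 3 eng mog cd0q0 cd4q1 pd0 1 false false false .up 0 0 1 (qsf 0 536870912 536870912 536870912 0) ndB0q0 ndB4q1 pcB0 Cut.none Ext.none)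

def k0_mm_001 : ∃ t, chk3 f_mm_001 t 1 1 1 = true :=
  ⟨(l 3), by decide +kernel⟩

theorem c_mm_001 : CertB 0 536870912 536870912 536870912 740881858 40050571 3 eng mog cd0q0 cd4q1 pd0 false false false .up 0 0 1
    ndB0q0 ndB4q1 pcB0 Cut.none Ext.none :=
  certB1 (fam := false) (s1 := false) (s2 := false) (a := 0) (b := 0) (c := 1) (cn := .up) (n1 := ndB0q0) (n2 := ndB4q1) (pc := pcB0) (cut := Cut.none) (xt := Ext.none) (P1 := 0) (W1 := 536870912) (P2 := 536870912) (W2 := 536870912) (P3 := 740881858) (W3 := 40050571) (N0 := 3) (En := eng) (mo := mog) (C1 := cd0q0) (C2 := cd4q1) (C3 := pd0)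
    rfl (fun _ => rfl) k0_mm_001

noncomputable def f_mm_011 : ℕ → ℕ → ℕ → ℕ → Bool := onCell 0 536870912 536870912 536870912 740881858 40050571
    (rowB 3 eng mog cd0q0 cd4q1 pd1 1 false false false .pnn 0 1 1 (qsf 0 536870912 536870912 536870912 1) ndB0q0 ndB4q1 pcB1 Cut.none Ext.none)

def k0_mm_011 : ∃ t, chk3 f_mm_011 t 1 1 1 = true :=
  ⟨(l 5), by decide +kernel⟩

theorem c_mm_011 : CertB 0 536870912 536870912 536870912 740881858 40050571 3 eng mog cd0q0 cd4q1 pd1 false false false .pnn 0 1 1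
    ndB0q0 ndB4q1 pcB1 Cut.none Ext.none :=
  certB1 (fam := false) (s1 := false) (s2 := false) (a := 0) (b := 1) (c := 1) (cn := .pnn) (n1 := ndB0q0) (n2 := ndB4q1) (pc := pcB1) (cut := Cut.none) (xt := Ext.none) (P1 := 0) (W1 := 536870912) (P2 := 536870912) (W2 := 536870912) (P3 := 740881858) (W3 := 40050571) (N0 := 3) (En := eng) (mo := mog) (C1 := cd0q0) (C2 := cd4q1) (C3 := pd1)
    rfl (fun _ => rfl) k0_mm_011

noncomputable def f_mm_012 : ℕ → ℕ → ℕ → ℕ → Bool := onCell 0 536870912 1073741824 536870912 740881858 40050571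
    (rowB 3 eng mog cd0q0 cd4q2 pd1 0 false false false .pnp 0 1 2 (qsf 0 536870912 1073741824 536870912 1) ndB0q0 ndB4q2 pcB1 Cut.none Ext.none)

def k0_mm_012 : ∃ t, chk3 f_mm_012 t 1 1 1 = true :=
  ⟨(l 5), by decide +kernel⟩

theorem c_mm_012 : CertB 0 536870912 1073741824 536870912 740881858 40050571 3 eng mog cd0q0 cd4q2 pd1 false false false .pnp 0 1 2
    ndB0q0 ndB4q2 pcB1 Cut.none Ext.none :=
  certB0 (fam := false) (s1 := false) (s2 := false) (a := 0) (b := 1) (c := 2) (cn := .pnp) (n1 := ndB0q0) (n2 := ndB4q2) (pc := pcB1) (cut := Cut.none) (xt := Ext.none) (P1 := 0) (W1 := 536870912) (P2 := 1073741824) (W2 := 536870912) (P3 := 740881858) (W3 := 40050571) (N0 := 3) (En := eng) (mo := mog) (C1 := cd0q0) (C2 := cd4q2) (C3 := pd1)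
    rfl k0_mm_012

noncomputable def f_mm_022 : ℕ → ℕ → ℕ → ℕ → Bool := onCell 0 536870912 1073741824 536870912 740881858 40050571
    (rowB 3 eng mog cd0q0 cd4q2 pd2 0 false false false .pp 0 2 2 (qsf 0 536870912 1073741824 536870912 2) ndB0q0 ndB4q2 pcB2 Cut.none Ext.none)

def k0_mm_022 : ∃ t, chk3 f_mm_022 t 1 1 1 = true :=
  ⟨(l 5), by decide +kernel⟩

theorem c_mm_022 : CertB 0 536870912 1073741824 536870912 740881858 40050571 3 eng mog cd0q0 cd4q2 pd2 false false false .pp 0 2 2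
    ndB0q0 ndB4q2 pcB2 Cut.none Ext.none :=
  certB0 (fam := false) (s1 := false) (s2 := false) (a := 0) (b := 2) (c := 2) (cn := .pp) (n1 := ndB0q0) (n2 := ndB4q2) (pc := pcB2) (cut := Cut.none) (xt := Ext.none) (P1 := 0) (W1 := 536870912) (P2 := 1073741824) (W2 := 536870912) (P3 := 740881858) (W3 := 40050571) (N0 := 3) (En := eng) (mo := mog) (C1 := cd0q0) (C2 := cd4q2) (C3 := pd2)
    rfl k0_mm_022

noncomputable def f_mm_023 : ℕ → ℕ → ℕ → ℕ → Bool := onCell 0 536870912 0 1230186008 740881858 40050571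
    (rowB 3 eng mog cd0q0 cd4q3 pd2 0 false false false .up 0 2 3 (qsf 0 536870912 0 1230186008 2) ndB0q0 ndB4q3 pcB2 Cut.none Ext.none)

def k0_mm_023 : ∃ t, chk3 f_mm_023 t 1 1 1 = true :=
  ⟨(l 5), by decide +kernel⟩

theorem c_mm_023 : CertB 0 536870912 0 1230186008 740881858 40050571 3 eng mog cd0q0 cd4q3 pd2 false false false .up 0 2 3
    ndB0q0 ndB4q3 pcB2 Cut.none Ext.none :=
  certB0 (fam := false) (s1 := false) (s2 := false) (a := 0) (b := 2) (c := 3) (cn := .up) (n1 := ndB0q0) (n2 := ndB4q3) (pc := pcB2) (cut := Cut.none) (xt := Ext.none) (P1 := 0) (W1 := 536870912) (P2 := 0) (W2 := 1230186008) (P3 := 740881858) (W3 := 40050571) (N0 := 3) (En := eng) (mo := mog) (C1 := cd0q0) (C2 := cd4q3) (C3 := pd2)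
    rfl k0_mm_023

noncomputable def f_mm_033 : ℕ → ℕ → ℕ → ℕ → Bool := onCell 0 536870912 0 1230186008 740881858 40050571
    (rowB 3 eng mog cd0q0 cd4q3 pd3 0 false false false .pnn 0 3 3 (qsf 0 536870912 0 1230186008 3) ndB0q0 ndB4q3 pcB3 Cut.none Ext.none)

def k0_mm_033 : ∃ t, chk3 f_mm_033 t 1 1 1 = true :=
  ⟨(l 5), by decide +kernel⟩

theorem c_mm_033 : CertB 0 536870912 0 1230186008 740881858 40050571 3 eng mog cd0q0 cd4q3 pd3 false false false .pnn 0 3 3
    ndB0q0 ndB4q3 pcB3 Cut.none Ext.none :=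
  certB0 (fam := false) (s1 := false) (s2 := false) (a := 0) (b := 3) (c := 3) (cn := .pnn) (n1 := ndB0q0) (n2 := ndB4q3) (pc := pcB3) (cut := Cut.none) (xt := Ext.none) (P1 := 0) (W1 := 536870912) (P2 := 0) (W2 := 1230186008) (P3 := 740881858) (W3 := 40050571) (N0 := 3) (En := eng) (mo := mog) (C1 := cd0q0) (C2 := cd4q3) (C3 := pd3)
    rfl k0_mm_033

noncomputable def cut_mm_101 : Cut := Cut.of [[⟨0, 1, 0, 67108864⟩, ⟨1, 0, 0, 67108864⟩, ⟨2, 1, 0, 67108864⟩]]

noncomputable def f_mm_101 : ℕ → ℕ → ℕ → ℕ → Bool := onCell 536870912 536870912 0 536870912 740881858 40050571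
    (rowB 3 eng mog cd0q1 cd4q1 pd0 1 false false false .npn 1 0 1 (qsf 536870912 536870912 536870912 536870912 0) ndB0q1 ndB4q1 pcB0 cut_mm_101 Ext.none)

def k0_mm_101 : ∃ t, chk3 f_mm_101 t 1 1 1 = true :=
  ⟨(a (l 3) (b (a (l 3) (b (a (l 3) (b (a (l 3) (b (l 6) (l 3))) (l 3))) (l 3))) (l 3))), by decide +kernel⟩

theorem c_mm_101 : CertB 536870912 536870912 536870912 536870912 740881858 40050571 3 eng mog cd0q1 cd4q1 pd0 false false false .npn 1 0 1
    ndB0q1 ndB4q1 pcB0 cut_mm_101 Ext.none :=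
  certB1 (fam := false) (s1 := false) (s2 := false) (a := 1) (b := 0) (c := 1) (cn := .npn) (n1 := ndB0q1) (n2 := ndB4q1) (pc := pcB0) (cut := cut_mm_101) (xt := Ext.none) (P1 := 536870912) (W1 := 536870912) (P2 := 536870912) (W2 := 536870912) (P3 := 740881858) (W3 := 40050571) (N0 := 3) (En := eng) (mo := mog) (C1 := cd0q1) (C2 := cd4q1) (C3 := pd0)
    rfl (fun _ => rfl) k0_mm_101

noncomputable def f_mm_102 : ℕ → ℕ → ℕ → ℕ → Bool := onCell 536870912 536870912 1073741824 536870912 740881858 40050571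
    (rowB 3 eng mog cd0q1 cd4q2 pd0 0 false false false .npp 1 0 2 (qsf 536870912 536870912 1073741824 536870912 0) ndB0q1 ndB4q2 pcB0 Cut.none Ext.none)

def k0_mm_102 : ∃ t, chk3 f_mm_102 t 1 1 1 = true :=
  ⟨(l 3), by decide +kernel⟩

theorem c_mm_102 : CertB 536870912 536870912 1073741824 536870912 740881858 40050571 3 eng mog cd0q1 cd4q2 pd0 false false false .npp 1 0 2
    ndB0q1 ndB4q2 pcB0 Cut.none Ext.none :=
  certB0 (fam := false) (s1 := false) (s2 := false) (a := 1) (b := 0) (c := 2) (cn := .npp) (n1 := ndB0q1) (n2 := ndB4q2) (pc := pcB0) (cut := Cut.none) (xt := Ext.none) (P1 := 536870912) (W1 := 536870912) (P2 := 1073741824) (W2 := 536870912) (P3 := 740881858) (W3 := 40050571) (N0 := 3) (En := eng) (mo := mog) (C1 := cd0q1) (C2 := cd4q2) (C3 := pd0)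
    rfl k0_mm_102

noncomputable def f_mm_112 : ℕ → ℕ → ℕ → ℕ → Bool := onCell 536870912 536870912 1073741824 536870912 740881858 40050571
    (rowB 3 eng mog cd0q1 cd4q2 pd1 0 false false false .dn 1 1 2 (qsf 536870912 536870912 1073741824 536870912 1) ndB0q1 ndB4q2 pcB1 Cut.none Ext.none)

def k0_mm_112 : ∃ t, chk3 f_mm_112 t 1 1 1 = true :=
  ⟨(l 3), by decide +kernel⟩

theorem c_mm_112 : CertB 536870912 536870912 1073741824 536870912 740881858 40050571 3 eng mog cd0q1 cd4q2 pd1 false false false .dn 1 1 2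
    ndB0q1 ndB4q2 pcB1 Cut.none Ext.none :=
  certB0 (fam := false) (s1 := false) (s2 := false) (a := 1) (b := 1) (c := 2) (cn := .dn) (n1 := ndB0q1) (n2 := ndB4q2) (pc := pcB1) (cut := Cut.none) (xt := Ext.none) (P1 := 536870912) (W1 := 536870912) (P2 := 1073741824) (W2 := 536870912) (P3 := 740881858) (W3 := 40050571) (N0 := 3) (En := eng) (mo := mog) (C1 := cd0q1) (C2 := cd4q2) (C3 := pd1)
    rfl k0_mm_112

noncomputable def f_mm_113 : ℕ → ℕ → ℕ → ℕ → Bool := onCell 536870912 536870912 0 1230186008 740881858 40050571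
    (rowB 3 eng mog cd0q1 cd4q3 pd1 0 false false false .nn 1 1 3 (qsf 536870912 536870912 0 1230186008 1) ndB0q1 ndB4q3 pcB1 Cut.none Ext.none)

def k0_mm_113 : ∃ t, chk3 f_mm_113 t 1 1 1 = true :=
  ⟨(b (l 5) (b (l 5) (a (l 5) (l 3)))), by decide +kernel⟩

theorem c_mm_113 : CertB 536870912 536870912 0 1230186008 740881858 40050571 3 eng mog cd0q1 cd4q3 pd1 false false false .nn 1 1 3
    ndB0q1 ndB4q3 pcB1 Cut.none Ext.none :=
  certB0 (fam := false) (s1 := false) (s2 := false) (a := 1) (b := 1) (c := 3) (cn := .nn) (n1 := ndB0q1) (n2 := ndB4q3) (pc := pcB1) (cut := Cut.none) (xt := Ext.none) (P1 := 536870912) (W1 := 536870912) (P2 := 0) (W2 := 1230186008) (P3 := 740881858) (W3 := 40050571) (N0 := 3) (En := eng) (mo := mog) (C1 := cd0q1) (C2 := cd4q3) (C3 := pd1)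
    rfl k0_mm_113

noncomputable def f_mm_123 : ℕ → ℕ → ℕ → ℕ → Bool := onCell 1073741824 536870912 0 1230186008 740881858 40050571
    (rowB 3 eng mog cd0q1 cd4q3 pd2 2 false false false .npn 1 2 3 (qsf 536870912 536870912 0 1230186008 2) ndB0q1 ndB4q3 pcB2 Cut.none Ext.none)

def k0_mm_123 : ∃ t, chk3 f_mm_123 t 1 1 1 = true :=
  ⟨(b (l 5) (l 5)), by decide +kernel⟩

theorem c_mm_123 : CertB 536870912 536870912 0 1230186008 740881858 40050571 3 eng mog cd0q1 cd4q3 pd2 false false false .npn 1 2 3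
    ndB0q1 ndB4q3 pcB2 Cut.none Ext.none :=
  certB2 (fam := false) (s1 := false) (s2 := false) (a := 1) (b := 2) (c := 3) (cn := .npn) (n1 := ndB0q1) (n2 := ndB4q3) (pc := pcB2) (cut := Cut.none) (xt := Ext.none) (P1 := 536870912) (W1 := 536870912) (P2 := 0) (W2 := 1230186008) (P3 := 740881858) (W3 := 40050571) (N0 := 3) (En := eng) (mo := mog) (C1 := cd0q1) (C2 := cd4q3) (C3 := pd2)
    rfl (fun _ => rfl) k0_mm_123

noncomputable def f_mm_133 : ℕ → ℕ → ℕ → ℕ → Bool := onCell 1610612736 536870912 0 1230186008 740881858 40050571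
    (rowB 3 eng mog cd0q1 cd4q3 pd3 2 false false false .dn 1 3 3 (qsf 536870912 536870912 0 1230186008 3) ndB0q1 ndB4q3 pcB3 Cut.none Ext.none)

def k0_mm_133 : ∃ t, chk3 f_mm_133 t 1 1 1 = true :=
  ⟨(l 5), by decide +kernel⟩

theorem c_mm_133 : CertB 536870912 536870912 0 1230186008 740881858 40050571 3 eng mog cd0q1 cd4q3 pd3 false false false .dn 1 3 3
    ndB0q1 ndB4q3 pcB3 Cut.none Ext.none :=
  certB2 (fam := false) (s1 := false) (s2 := false) (a := 1) (b := 3) (c := 3) (cn := .dn) (n1 := ndB0q1) (n2 := ndB4q3) (pc := pcB3) (cut := Cut.none) (xt := Ext.none) (P1 := 536870912) (W1 := 536870912) (P2 := 0) (W2 := 1230186008) (P3 := 740881858) (W3 := 40050571) (N0 := 3) (En := eng) (mo := mog) (C1 := cd0q1) (C2 := cd4q3) (C3 := pd3)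
    rfl (fun _ => rfl) k0_mm_133

noncomputable def f_mm_202 : ℕ → ℕ → ℕ → ℕ → Bool := onCell 0 536870912 0 536870912 740881858 40050571
    (rowB 3 eng mog cd0q2 cd4q2 pd0 1 false false false .pp 2 0 2 (qsf 0 536870912 1073741824 536870912 0) ndB0q2 ndB4q2 pcB0 Cut.none Ext.none)

def k0_mm_202 : ∃ t, chk3 f_mm_202 t 1 1 1 = true :=
  ⟨(a (b (b (a (b (a (b (a (b (b (l 16275456) (c (l 16439424) (l 16451264))) (a (c (l 16450616) (l 16448888)) (c (c (b (l 16446088) (l 16475392)) (l 16462504)) (l 16443616)))) (a (b (c (c (b (a (l 16430808) (l 16391512)) (l 156396538727)) (a (l 16449792) (l 16451760))) (l 16506976)) (a (b (l 137069013959) (l 16461008)) (l 3))) (l 3))) (b (a (a (a (l 16527352) (b (l 16463624) (l 16458912))) (a (b (l 16458488) (l 16460920)) (l 16460752))) (a (l 106467789527) (l 3))) (a (a (c (l 16569208) (l 16472880)) (l 107541480775)) (l 3)))) (l 3)) (a (a (a (b (b (a (l 16464048) (l 16460888)) (l 113983880839)) (b (l 16467376) (l 3))) (b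 (b (l 130626917383) (l 3)) (l 3))) (l 3)) (l 3))) (l 3)) (l 3)) (l 3)) (l 3)), by decide +kernel⟩

theorem c_mm_202 : CertB 0 536870912 1073741824 536870912 740881858 40050571 3 eng mog cd0q2 cd4q2 pd0 false false false .pp 2 0 2
    ndB0q2 ndB4q2 pcB0 Cut.none Ext.none :=
  certB1 (fam := false) (s1 := false) (s2 := false) (a := 2) (b := 0) (c := 2) (cn := .pp) (n1 := ndB0q2) (n2 := ndB4q2) (pc := pcB0) (cut := Cut.none) (xt := Ext.none) (P1 := 0) (W1 := 536870912) (P2 := 1073741824) (W2 := 536870912) (P3 := 740881858) (W3 := 40050571) (N0 := 3) (En := eng) (mo := mog) (C1 := cd0q2) (C2 := cd4q2) (C3 := pd0)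
    rfl (fun _ => rfl) k0_mm_202

noncomputable def f_mm_203 : ℕ → ℕ → ℕ → ℕ → Bool := onCell 0 536870912 0 1230186008 740881858 40050571
    (rowB 3 eng mog cd0q2 cd4q3 pd0 0 false false false .up 2 0 3 (qsf 0 536870912 0 1230186008 0) ndB0q2 ndB4q3 pcB0 Cut.none Ext.none)

def k0_mm_203 : ∃ t, chk3 f_mm_203 t 1 1 1 = true :=
  ⟨(b (l 2) (b (l 2) (l 3))), by decide +kernel⟩

theorem c_mm_203 : CertB 0 536870912 0 1230186008 740881858 40050571 3 eng mog cd0q2 cd4q3 pd0 false false false .up 2 0 3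
    ndB0q2 ndB4q3 pcB0 Cut.none Ext.none :=
  certB0 (fam := false) (s1 := false) (s2 := false) (a := 2) (b := 0) (c := 3) (cn := .up) (n1 := ndB0q2) (n2 := ndB4q3) (pc := pcB0) (cut := Cut.none) (xt := Ext.none) (P1 := 0) (W1 := 536870912) (P2 := 0) (W2 := 1230186008) (P3 := 740881858) (W3 := 40050571) (N0 := 3) (En := eng) (mo := mog) (C1 := cd0q2) (C2 := cd4q3) (C3 := pd0)
    rfl k0_mm_203

noncomputable def f_mm_213 : ℕ → ℕ → ℕ → ℕ → Bool := onCell 0 536870912 0 1230186008 740881858 40050571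
    (rowB 3 eng mog cd0q2 cd4q3 pd1 0 false false false .pnn 2 1 3 (qsf 0 536870912 0 1230186008 1) ndB0q2 ndB4q3 pcB1 Cut.none Ext.none)

def k0_mm_213 : ∃ t, chk3 f_mm_213 t 1 1 1 = true :=
  ⟨(b (a (l 3) (b (l 5) (l 3))) (b (l 3) (l 3))), by decide +kernel⟩

theorem c_mm_213 : CertB 0 536870912 0 1230186008 740881858 40050571 3 eng mog cd0q2 cd4q3 pd1 false false false .pnn 2 1 3
    ndB0q2 ndB4q3 pcB1 Cut.none Ext.none :=
  certB0 (fam := false) (s1 := false) (s2 := false) (a := 2) (b := 1) (c := 3) (cn := .pnn) (n1 := ndB0q2) (n2 := ndB4q3) (pc := pcB1) (cut := Cut.none) (xt := Ext.none) (P1 := 0) (W1 := 536870912) (P2 := 0) (W2 := 1230186008) (P3 := 740881858) (W3 := 40050571) (N0 := 3) (En := eng) (mo := mog) (C1 := cd0q2) (C2 := cd4q3) (C3 := pd1)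
    rfl k0_mm_213

end Pool.Agent.Strip051.G.I69_7273.Tab.C.BB04

namespace Pool.Agent.Strip051.G.I69_7273.Tab.C.BB05

open Pool.Agent.Strip051.PB Pool.Agent.Strip051.PB.T
open Pool.Agent.Strip051.G.I69_7273.Tab

noncomputable def cut_pp_001 : Cut := Cut.of [[⟨3, 0, 0, 1449551462⟩]]

noncomputable def f_pp_001 : ℕ → ℕ → ℕ → ℕ → Bool := onCell 0 536870912 536870912 536870912 740881858 40050571
    (rowB 3 eng mog cd0q0 cd5q1 pd0 0 false true true .up 0 0 1 (qsf 0 536870912 536870912 536870912 0) ndB0q0 ndB5q1 pcB0 cut_pp_001 Ext.none)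

def k0_pp_001 : ∃ t, chk3 f_pp_001 t 1 1 1 = true :=
  ⟨(l 6), by decide +kernel⟩

theorem c_pp_001 : CertB 0 536870912 536870912 536870912 740881858 40050571 3 eng mog cd0q0 cd5q1 pd0 false true true .up 0 0 1
    ndB0q0 ndB5q1 pcB0 cut_pp_001 Ext.none :=
  certB0 (fam := false) (s1 := true) (s2 := true) (a := 0) (b := 0) (c := 1) (cn := .up) (n1 := ndB0q0) (n2 := ndB5q1) (pc := pcB0) (cut := cut_pp_001) (xt := Ext.none) (P1 := 0) (W1 := 536870912) (P2 := 536870912) (W2 := 536870912) (P3 := 740881858) (W3 := 40050571) (N0 := 3) (En := eng) (mo := mog) (C1 := cd0q0) (C2 := cd5q1) (C3 := pd0)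
    rfl k0_pp_001

noncomputable def cut_pp_011 : Cut := Cut.of [[⟨3, 0, 0, 1449551462⟩], [⟨0, 0, 0, 67108864⟩, ⟨1, 1, 0, 67108864⟩, ⟨2, 1, 0, 67108864⟩]]

noncomputable def f_pp_011 : ℕ → ℕ → ℕ → ℕ → Bool := onCell 0 536870912 536870912 536870912 740881858 40050571
    (rowB 3 eng mog cd0q0 cd5q1 pd1 0 false true true .pnn 0 1 1 (qsf 0 536870912 536870912 536870912 1) ndB0q0 ndB5q1 pcB1 cut_pp_011 Ext.none)

def k0_pp_011 : ∃ t, chk3 f_pp_011 t 1 1 1 = true :=
  ⟨(l 6), by decide +kernel⟩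

theorem c_pp_011 : CertB 0 536870912 536870912 536870912 740881858 40050571 3 eng mog cd0q0 cd5q1 pd1 false true true .pnn 0 1 1
    ndB0q0 ndB5q1 pcB1 cut_pp_011 Ext.none :=
  certB0 (fam := false) (s1 := true) (s2 := true) (a := 0) (b := 1) (c := 1) (cn := .pnn) (n1 := ndB0q0) (n2 := ndB5q1) (pc := pcB1) (cut := cut_pp_011) (xt := Ext.none) (P1 := 0) (W1 := 536870912) (P2 := 536870912) (W2 := 536870912) (P3 := 740881858) (W3 := 40050571) (N0 := 3) (En := eng) (mo := mog) (C1 := cd0q0) (C2 := cd5q1) (C3 := pd1)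
    rfl k0_pp_011

noncomputable def cut_pp_012 : Cut := Cut.of [[⟨3, 0, 0, 1449551462⟩], [⟨0, 0, 0, 67108864⟩, ⟨1, 1, 0, 67108864⟩, ⟨2, 1, 0, 67108864⟩]]

noncomputable def f_pp_012 : ℕ → ℕ → ℕ → ℕ → Bool := onCell 0 536870912 536870912 536870912 740881858 40050571
    (rowB 3 eng mog cd0q0 cd5q2 pd1 1 false true true .pnp 0 1 2 (qsf 0 536870912 1073741824 536870912 1) ndB0q0 ndB5q2 pcB1 cut_pp_012 Ext.none)

def k0_pp_012 : ∃ t, chk3 f_pp_012 t 1 1 1 = true :=
  ⟨(l 6), by decide +kernel⟩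

theorem c_pp_012 : CertB 0 536870912 1073741824 536870912 740881858 40050571 3 eng mog cd0q0 cd5q2 pd1 false true true .pnp 0 1 2
    ndB0q0 ndB5q2 pcB1 cut_pp_012 Ext.none :=
  certB1 (fam := false) (s1 := true) (s2 := true) (a := 0) (b := 1) (c := 2) (cn := .pnp) (n1 := ndB0q0) (n2 := ndB5q2) (pc := pcB1) (cut := cut_pp_012) (xt := Ext.none) (P1 := 0) (W1 := 536870912) (P2 := 1073741824) (W2 := 536870912) (P3 := 740881858) (W3 := 40050571) (N0 := 3) (En := eng) (mo := mog) (C1 := cd0q0) (C2 := cd5q2) (C3 := pd1)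
    rfl (fun _ => rfl) k0_pp_012

noncomputable def cut_pp_022 : Cut := Cut.of [[⟨3, 0, 0, 1449551462⟩], [⟨0, 0, 0, 67108864⟩, ⟨1, 1, 0, 67108864⟩, ⟨2, 1, 0, 67108864⟩]]

noncomputable def f_pp_022 : ℕ → ℕ → ℕ → ℕ → Bool := onCell 0 536870912 1073741824 536870912 740881858 40050571
    (rowB 3 eng mog cd0q0 cd5q2 pd2 0 false true true .pp 0 2 2 (qsf 0 536870912 1073741824 536870912 2) ndB0q0 ndB5q2 pcB2 cut_pp_022 Ext.none)

def k0_pp_022 : ∃ t, chk3 f_pp_022 t 1 1 1 = true :=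
  ⟨(a (b (l 6) (a (b (b (a (a (b (l 6) (a (l 16153264) (b (l 6) (l 16185256)))) (l 6)) (l 6)) (a (b (a (b (l 16129960) (l 16098920)) (a (l 16184848) (l 6))) (a (l 16074328) (b (l 16161024) (l 16130432)))) (a (a (a (b (l 6) (l 16202088)) (l 6)) (l 6)) (l 6)))) (b (a (b (a (l 15995048) (l 16085904)) (a (l 15940288) (l 16029968))) (b (a (b (l 16189112) (l 16159224)) (l 6)) (a (l 16117024) (b (l 16217880) (l 16190896))))) (a (b (l 15935880) (l 15893128)) (b (l 16319744) (l 16065936))))) (b (l 6) (a (b (l 6) (b (a (l 16245864) (l 6)) (l 16309864))) (l 6))))) (l 6)), by decide +kernel⟩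

theorem c_pp_022 : CertB 0 536870912 1073741824 536870912 740881858 40050571 3 eng mog cd0q0 cd5q2 pd2 false true true .pp 0 2 2
    ndB0q0 ndB5q2 pcB2 cut_pp_022 Ext.none :=
  certB0 (fam := false) (s1 := true) (s2 := true) (a := 0) (b := 2) (c := 2) (cn := .pp) (n1 := ndB0q0) (n2 := ndB5q2) (pc := pcB2) (cut := cut_pp_022) (xt := Ext.none) (P1 := 0) (W1 := 536870912) (P2 := 1073741824) (W2 := 536870912) (P3 := 740881858) (W3 := 40050571) (N0 := 3) (En := eng) (mo := mog) (C1 := cd0q0) (C2 := cd5q2) (C3 := pd2)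
    rfl k0_pp_022

noncomputable def cut_pp_023 : Cut := Cut.of [[⟨3, 0, 0, 1449551462⟩]]

noncomputable def f_pp_023 : ℕ → ℕ → ℕ → ℕ → Bool := onCell 1073741824 536870912 0 1230186008 740881858 40050571
    (rowB 3 eng mog cd0q0 cd5q3 pd2 2 false true true .up 0 2 3 (qsf 0 536870912 0 1230186008 2) ndB0q0 ndB5q3 pcB2 cut_pp_023 Ext.none)

def k0_pp_023 : ∃ t, chk3 f_pp_023 t 1 1 1 = true :=
  ⟨(b (a (l 2) (a (l 2) (b (a (l 2) (b (l 16608800) (l 16683800))) (b (a (l 16680008) (l 16691128)) (a (b (l 16672792) (l 16666288)) (b (l 16676160) (l 16661648))))))) (a (l 6) (b (a (b (a (l 2) (b (l 16676512) (l 16736344))) (a (l 6) (b (l 16680848) (a (l 16633360) (l 16607168))))) (b (a (b (l 16658624) (l 16729632)) (b (l 16645936) (l 16711696))) (a (b (l 16663968) (a (l 16585008) (l 16560664))) (b (l 16593592) (l 16517296))))) (b (a (a (l 6) (b (a (l 16581848) (l 16550728)) (b (l 16516304) (l 16515312)))) (b (a (a (l 16514256) (l 16472400)) (a (l 16428656) (l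 16379592))) (a (b (l 16417184) (l 16359104)) (b (l 16298048) (l 16212760))))) (a (a (l 6) (b (b (l 16470408) (a (l 16411496) (l 16338392))) (b (a (l 16358928) (l 16277416)) (a (l 16302568) (l 16211608))))) (b (a (b (l 16290240) (l 16360120)) (b (l 16131840) (l 16053096))) (a (b (l 16207712) (a (l 16121152) (l 16033832))) (b (l 15974896) (l 15906208))))))))), by decide +kernel⟩

theorem c_pp_023 : CertB 0 536870912 0 1230186008 740881858 40050571 3 eng mog cd0q0 cd5q3 pd2 false true true .up 0 2 3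
    ndB0q0 ndB5q3 pcB2 cut_pp_023 Ext.none :=
  certB2 (fam := false) (s1 := true) (s2 := true) (a := 0) (b := 2) (c := 3) (cn := .up) (n1 := ndB0q0) (n2 := ndB5q3) (pc := pcB2) (cut := cut_pp_023) (xt := Ext.none) (P1 := 0) (W1 := 536870912) (P2 := 0) (W2 := 1230186008) (P3 := 740881858) (W3 := 40050571) (N0 := 3) (En := eng) (mo := mog) (C1 := cd0q0) (C2 := cd5q3) (C3 := pd2)
    rfl (fun _ => rfl) k0_pp_023

noncomputable def cut_pp_033 : Cut := Cut.of [[⟨3, 0, 0, 1449551462⟩]]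

noncomputable def f_pp_033 : ℕ → ℕ → ℕ → ℕ → Bool := onCell 1610612736 536870912 0 1230186008 740881858 40050571
    (rowB 3 eng mog cd0q0 cd5q3 pd3 2 false true true .pnn 0 3 3 (qsf 0 536870912 0 1230186008 3) ndB0q0 ndB5q3 pcB3 cut_pp_033 Ext.none)

def k0_pp_033 : ∃ t, chk3 f_pp_033 t 1 2 1 = true :=
  ⟨(b (a (a (a (b (l 16587384) (l 16655832)) (b (l 16527584) (l 16569224))) (a (b (l 16488328) (l 16517320)) (b (l 16448104) (l 16458720)))) (a (a (b (l 16371064) (l 16465720)) (a (b (l 4) (l 16307888)) (l 4))) (l 4))) (a (a (b (a (l 16710128) (l 16625760)) (a (b (l 16697240) (l 16673688)) (b (l 16605640) (l 16584584)))) (a (b (a (l 16537760) (l 16498216)) (a (l 16510296) (b (l 16469056) (l 16438440)))) (b (a (l 16460664) (l 16421880)) (a (l 16410704) (b (l 16383216) (l 16342240)))))) (a (a (b (a (l 16375512) (l 16325576)) (a (b (l 16324648) (l 16278088)) (b (l 16269944) (l 16217520)))) (b (a (l 16280768) (l 16236728)) (a (b (l 16228640) (l 16181712))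 (b (l 16201368) (l 16150152))))) (a (a (b (l 16193672) (b (l 16178520) (l 16125144))) (b (l 4) (b (l 16112848) (l 382284751495)))) (b (l 4) (b (l 4) (l 1))))))), by decide +kernel⟩

def k1_pp_033 : ∃ t, chk3 f_pp_033 t 1 3 1 = true :=
  ⟨(b (a (a (b (a (b (l 16640344) (l 16586360)) (b (l 16551440) (l 16497064))) (a (b (l 16515256) (l 16410992)) (b (l 16414592) (l 16291032)))) (a (b (a (l 16427592) (b (l 16392360) (l 16322896))) (b (l 16269584) (l 16167408))) (b (a (b (l 16338616) (l 16265608)) (b (l 16287376) (l 16215264))) (a (b (l 16175792) (l 16068328)) (b (l 16124208) (l 16007728)))))) (a (b (a (a (b (l 16221640) (l 16151936)) (b (l 16152520) (l 16072288))) (a (b (l 16111640) (l 16016152)) (b (l 16082816) (l 15985024)))) (a (b (l 16019912) (l 15897768)) (b (a (l 15907448) (l 1)) (l 1)))) (a (b (a (b (l 16051152) (l 1)) (l 1)) (l 1)) (l 1)))) (a (a (b (b (a (a (l 16299424) (l 16231424)) (l 16136032)) (a (b (l 16146720) (l 16068984)) (l 15964584)))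 (b (a (l 15943240) (l 15785344)) (a (l 15865032) (l 264708841767)))) (b (b (a (l 16007136) (l 15874776)) (a (l 15820128) (l 1))) (a (b (l 15608616) (l 1)) (l 1)))) (l 1))), by decide +kernel⟩

theorem s2_pp_033 : ∃ t, chk3 f_pp_033 t 1 1 1 = true := ex3_b k0_pp_033 k1_pp_033

theorem c_pp_033 : CertB 0 536870912 0 1230186008 740881858 40050571 3 eng mog cd0q0 cd5q3 pd3 false true true .pnn 0 3 3
    ndB0q0 ndB5q3 pcB3 cut_pp_033 Ext.none :=
  certB2 (fam := false) (s1 := true) (s2 := true) (a := 0) (b := 3) (c := 3) (cn := .pnn) (n1 := ndB0q0) (n2 := ndB5q3) (pc := pcB3) (cut := cut_pp_033) (xt := Ext.none) (P1 := 0) (W1 := 536870912) (P2 := 0) (W2 := 1230186008) (P3 := 740881858) (W3 := 40050571) (N0 := 3) (En := eng) (mo := mog) (C1 := cd0q0) (C2 := cd5q3) (C3 := pd3)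
    rfl (fun _ => rfl) s2_pp_033

noncomputable def cut_pp_101 : Cut := Cut.of [[⟨3, 0, 0, 1449551462⟩]]

noncomputable def f_pp_101 : ℕ → ℕ → ℕ → ℕ → Bool := onCell 536870912 536870912 0 536870912 740881858 40050571
    (rowB 3 eng mog cd0q1 cd5q1 pd0 1 false true true .npn 1 0 1 (qsf 536870912 536870912 536870912 536870912 0) ndB0q1 ndB5q1 pcB0 cut_pp_101 Ext.none)

def k0_pp_101 : ∃ t, chk3 f_pp_101 t 1 1 1 = true :=
  ⟨(l 6), by decide +kernel⟩

theorem c_pp_101 : CertB 536870912 536870912 536870912 536870912 740881858 40050571 3 eng mog cd0q1 cd5q1 pd0 false true true .npn 1 0 1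
    ndB0q1 ndB5q1 pcB0 cut_pp_101 Ext.none :=
  certB1 (fam := false) (s1 := true) (s2 := true) (a := 1) (b := 0) (c := 1) (cn := .npn) (n1 := ndB0q1) (n2 := ndB5q1) (pc := pcB0) (cut := cut_pp_101) (xt := Ext.none) (P1 := 536870912) (W1 := 536870912) (P2 := 536870912) (W2 := 536870912) (P3 := 740881858) (W3 := 40050571) (N0 := 3) (En := eng) (mo := mog) (C1 := cd0q1) (C2 := cd5q1) (C3 := pd0)
    rfl (fun _ => rfl) k0_pp_101

noncomputable def cut_pp_102 : Cut := Cut.of [[⟨3, 0, 0, 1449551462⟩]]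

noncomputable def f_pp_102 : ℕ → ℕ → ℕ → ℕ → Bool := onCell 536870912 536870912 1073741824 536870912 740881858 40050571
    (rowB 3 eng mog cd0q1 cd5q2 pd0 0 false true true .npp 1 0 2 (qsf 536870912 536870912 1073741824 536870912 0) ndB0q1 ndB5q2 pcB0 cut_pp_102 Ext.none)

def k0_pp_102 : ∃ t, chk3 f_pp_102 t 1 1 1 = true :=
  ⟨(l 6), by decide +kernel⟩

theorem c_pp_102 : CertB 536870912 536870912 1073741824 536870912 740881858 40050571 3 eng mog cd0q1 cd5q2 pd0 false true true .npp 1 0 2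
    ndB0q1 ndB5q2 pcB0 cut_pp_102 Ext.none :=
  certB0 (fam := false) (s1 := true) (s2 := true) (a := 1) (b := 0) (c := 2) (cn := .npp) (n1 := ndB0q1) (n2 := ndB5q2) (pc := pcB0) (cut := cut_pp_102) (xt := Ext.none) (P1 := 536870912) (W1 := 536870912) (P2 := 1073741824) (W2 := 536870912) (P3 := 740881858) (W3 := 40050571) (N0 := 3) (En := eng) (mo := mog) (C1 := cd0q1) (C2 := cd5q2) (C3 := pd0)
    rfl k0_pp_102

noncomputable def cut_pp_112 : Cut := Cut.of [[⟨3, 0, 0, 1449551462⟩]]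

noncomputable def f_pp_112 : ℕ → ℕ → ℕ → ℕ → Bool := onCell 536870912 536870912 1073741824 536870912 740881858 40050571
    (rowB 3 eng mog cd0q1 cd5q2 pd1 0 false true true .dn 1 1 2 (qsf 536870912 536870912 1073741824 536870912 1) ndB0q1 ndB5q2 pcB1 cut_pp_112 Ext.none)

def k0_pp_112 : ∃ t, chk3 f_pp_112 t 1 1 1 = true :=
  ⟨(l 6), by decide +kernel⟩

theorem c_pp_112 : CertB 536870912 536870912 1073741824 536870912 740881858 40050571 3 eng mog cd0q1 cd5q2 pd1 false true true .dn 1 1 2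
    ndB0q1 ndB5q2 pcB1 cut_pp_112 Ext.none :=
  certB0 (fam := false) (s1 := true) (s2 := true) (a := 1) (b := 1) (c := 2) (cn := .dn) (n1 := ndB0q1) (n2 := ndB5q2) (pc := pcB1) (cut := cut_pp_112) (xt := Ext.none) (P1 := 536870912) (W1 := 536870912) (P2 := 1073741824) (W2 := 536870912) (P3 := 740881858) (W3 := 40050571) (N0 := 3) (En := eng) (mo := mog) (C1 := cd0q1) (C2 := cd5q2) (C3 := pd1)
    rfl k0_pp_112

noncomputable def cut_pp_113 : Cut := Cut.of [[⟨3, 0, 0, 1449551462⟩], [⟨0, 1, 0, 67108864⟩, ⟨1, 1, 0, 67108864⟩, ⟨2, 2, 0, 16777216⟩]]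

noncomputable def f_pp_113 : ℕ → ℕ → ℕ → ℕ → Bool := onCell 536870912 536870912 0 1230186008 740881858 40050571
    (rowB 3 eng mog cd0q1 cd5q3 pd1 0 false true true .nn 1 1 3 (qsf 536870912 536870912 0 1230186008 1) ndB0q1 ndB5q3 pcB1 cut_pp_113 Ext.none)

def k0_pp_113 : ∃ t, chk3 f_pp_113 t 1 1 1 = true :=
  ⟨(b (a (l 2) (a (l 2) (b (a (l 2) (l 6)) (l 6)))) (b (a (a (l 2) (l 6)) (l 6)) (l 6))), by decide +kernel⟩

theorem c_pp_113 : CertB 536870912 536870912 0 1230186008 740881858 40050571 3 eng mog cd0q1 cd5q3 pd1 false true true .nn 1 1 3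
    ndB0q1 ndB5q3 pcB1 cut_pp_113 Ext.none :=
  certB0 (fam := false) (s1 := true) (s2 := true) (a := 1) (b := 1) (c := 3) (cn := .nn) (n1 := ndB0q1) (n2 := ndB5q3) (pc := pcB1) (cut := cut_pp_113) (xt := Ext.none) (P1 := 536870912) (W1 := 536870912) (P2 := 0) (W2 := 1230186008) (P3 := 740881858) (W3 := 40050571) (N0 := 3) (En := eng) (mo := mog) (C1 := cd0q1) (C2 := cd5q3) (C3 := pd1)
    rfl k0_pp_113

noncomputable def cut_pp_123 : Cut := Cut.of [[⟨3, 0, 0, 1449551462⟩], [⟨0, 1, 0, 67108864⟩, ⟨1, 1, 0, 67108864⟩, ⟨2, 2, 0, 16777216⟩]]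

noncomputable def f_pp_123 : ℕ → ℕ → ℕ → ℕ → Bool := onCell 1073741824 536870912 0 1230186008 740881858 40050571
    (rowB 3 eng mog cd0q1 cd5q3 pd2 2 false true true .npn 1 2 3 (qsf 536870912 536870912 0 1230186008 2) ndB0q1 ndB5q3 pcB2 cut_pp_123 Ext.none)

def k0_pp_123 : ∃ t, chk3 f_pp_123 t 1 1 1 = true :=
  ⟨(b (a (a (a (l 6) (b (a (l 6) (b (a (l 6) (l 16668448)) (l 6))) (l 6))) (a (b (b (a (a (l 16659840) (a (l 16654000) (b (l 16634608) (l 16668144)))) (l 16702440)) (a (l 6) (l 16708640))) (l 6)) (a (b (b (l 16656152) (l 16681624)) (l 6)) (b (b (l 16636648) (l 16617888)) (b (l 16744224) (l 6)))))) (a (b (a (b (l 16634128) (b (l 16679176) (l 16679304))) (b (l 16622144) (l 16682208))) (b (a (a (l 16691448) (l 16684736)) (l 16678488)) (a (b (a (l 16702504) (l 16691512)) (a (l 6) (l 16693832))) (b (l 16681048) (l 16680408))))) (b (a (b (l 16618528) (l 16695272)) (b (l 16608824) (l 16683704))) (b (a (l 16680008) (l 16691080)) (a (b (l 16672768) (l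 16729120)) (l 373695995719)))))) (a (l 6) (b (a (b (a (b (a (l 6) (l 16694880)) (l 6)) (b (l 16676488) (a (l 16680568) (l 16667368)))) (a (l 6) (b (a (l 16689744) (l 1)) (l 1)))) (b (a (b (l 16658376) (l 1)) (l 1)) (l 1))) (l 1)))), by decide +kernel⟩

theorem c_pp_123 : CertB 536870912 536870912 0 1230186008 740881858 40050571 3 eng mog cd0q1 cd5q3 pd2 false true true .npn 1 2 3
    ndB0q1 ndB5q3 pcB2 cut_pp_123 Ext.none :=
  certB2 (fam := false) (s1 := true) (s2 := true) (a := 1) (b := 2) (c := 3) (cn := .npn) (n1 := ndB0q1) (n2 := ndB5q3) (pc := pcB2) (cut := cut_pp_123) (xt := Ext.none) (P1 := 536870912) (W1 := 536870912) (P2 := 0) (W2 := 1230186008) (P3 := 740881858) (W3 := 40050571) (N0 := 3) (En := eng) (mo := mog) (C1 := cd0q1) (C2 := cd5q3) (C3 := pd2)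
    rfl (fun _ => rfl) k0_pp_123

noncomputable def cut_pp_133 : Cut := Cut.of [[⟨3, 0, 0, 1449551462⟩]]

noncomputable def f_pp_133 : ℕ → ℕ → ℕ → ℕ → Bool := onCell 536870912 536870912 0 1230186008 740881858 40050571
    (rowB 3 eng mog cd0q1 cd5q3 pd3 0 false true true .dn 1 3 3 (qsf 536870912 536870912 0 1230186008 3) ndB0q1 ndB5q3 pcB3 cut_pp_133 Ext.none)

def k0_pp_133 : ∃ t, chk3 f_pp_133 t 1 1 1 = true :=
  ⟨(b (b (a (a (a (b (l 16657368) (l 1)) (l 1)) (l 1)) (l 1)) (l 1)) (l 1)), by decide +kernel⟩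

theorem c_pp_133 : CertB 536870912 536870912 0 1230186008 740881858 40050571 3 eng mog cd0q1 cd5q3 pd3 false true true .dn 1 3 3
    ndB0q1 ndB5q3 pcB3 cut_pp_133 Ext.none :=
  certB0 (fam := false) (s1 := true) (s2 := true) (a := 1) (b := 3) (c := 3) (cn := .dn) (n1 := ndB0q1) (n2 := ndB5q3) (pc := pcB3) (cut := cut_pp_133) (xt := Ext.none) (P1 := 536870912) (W1 := 536870912) (P2 := 0) (W2 := 1230186008) (P3 := 740881858) (W3 := 40050571) (N0 := 3) (En := eng) (mo := mog) (C1 := cd0q1) (C2 := cd5q3) (C3 := pd3)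
    rfl k0_pp_133

noncomputable def cut_pp_202 : Cut := Cut.of [[⟨3, 0, 0, 1449551462⟩]]

noncomputable def f_pp_202 : ℕ → ℕ → ℕ → ℕ → Bool := onCell 0 536870912 1073741824 536870912 740881858 40050571
    (rowB 3 eng mog cd0q2 cd5q2 pd0 0 false true true .pp 2 0 2 (qsf 0 536870912 1073741824 536870912 0) ndB0q2 ndB5q2 pcB0 cut_pp_202 Ext.none)

def k0_pp_202 : ∃ t, chk3 f_pp_202 t 1 1 1 = true :=
  ⟨(l 5), by decide +kernel⟩

theorem c_pp_202 : CertB 0 536870912 1073741824 536870912 740881858 40050571 3 eng mog cd0q2 cd5q2 pd0 false true true .pp 2 0 2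
    ndB0q2 ndB5q2 pcB0 cut_pp_202 Ext.none :=
  certB0 (fam := false) (s1 := true) (s2 := true) (a := 2) (b := 0) (c := 2) (cn := .pp) (n1 := ndB0q2) (n2 := ndB5q2) (pc := pcB0) (cut := cut_pp_202) (xt := Ext.none) (P1 := 0) (W1 := 536870912) (P2 := 1073741824) (W2 := 536870912) (P3 := 740881858) (W3 := 40050571) (N0 := 3) (En := eng) (mo := mog) (C1 := cd0q2) (C2 := cd5q2) (C3 := pd0)
    rfl k0_pp_202

noncomputable def cut_pp_203 : Cut := Cut.of [[⟨3, 0, 0, 1449551462⟩]]

noncomputable def f_pp_203 : ℕ → ℕ → ℕ → ℕ → Bool := onCell 0 536870912 0 1230186008 740881858 40050571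
    (rowB 3 eng mog cd0q2 cd5q3 pd0 0 false true true .up 2 0 3 (qsf 0 536870912 0 1230186008 0) ndB0q2 ndB5q3 pcB0 cut_pp_203 Ext.none)

def k0_pp_203 : ∃ t, chk3 f_pp_203 t 1 1 1 = true :=
  ⟨(b (l 2) (a (l 5) (l 6))), by decide +kernel⟩

theorem c_pp_203 : CertB 0 536870912 0 1230186008 740881858 40050571 3 eng mog cd0q2 cd5q3 pd0 false true true .up 2 0 3
    ndB0q2 ndB5q3 pcB0 cut_pp_203 Ext.none :=
  certB0 (fam := false) (s1 := true) (s2 := true) (a := 2) (b := 0) (c := 3) (cn := .up) (n1 := ndB0q2) (n2 := ndB5q3) (pc := pcB0) (cut := cut_pp_203) (xt := Ext.none) (P1 := 0) (W1 := 536870912) (P2 := 0) (W2 := 1230186008) (P3 := 740881858) (W3 := 40050571) (N0 := 3) (En := eng) (mo := mog) (C1 := cd0q2) (C2 := cd5q3) (C3 := pd0)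
    rfl k0_pp_203

noncomputable def cut_pp_213 : Cut := Cut.of [[⟨3, 0, 0, 1449551462⟩], [⟨0, 1, 0, 67108864⟩, ⟨1, 1, 0, 67108864⟩, ⟨2, 2, 0, 16777216⟩]]

noncomputable def f_pp_213 : ℕ → ℕ → ℕ → ℕ → Bool := onCell 0 536870912 0 1230186008 740881858 40050571
    (rowB 3 eng mog cd0q2 cd5q3 pd1 0 false true true .pnn 2 1 3 (qsf 0 536870912 0 1230186008 1) ndB0q2 ndB5q3 pcB1 cut_pp_213 Ext.none)

def k0_pp_213 : ∃ t, chk3 f_pp_213 t 1 1 1 = true :=
  ⟨(b (l 6) (a (l 5) (l 6))), by decide +kernel⟩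

theorem c_pp_213 : CertB 0 536870912 0 1230186008 740881858 40050571 3 eng mog cd0q2 cd5q3 pd1 false true true .pnn 2 1 3
    ndB0q2 ndB5q3 pcB1 cut_pp_213 Ext.none :=
  certB0 (fam := false) (s1 := true) (s2 := true) (a := 2) (b := 1) (c := 3) (cn := .pnn) (n1 := ndB0q2) (n2 := ndB5q3) (pc := pcB1) (cut := cut_pp_213) (xt := Ext.none) (P1 := 0) (W1 := 536870912) (P2 := 0) (W2 := 1230186008) (P3 := 740881858) (W3 := 40050571) (N0 := 3) (En := eng) (mo := mog) (C1 := cd0q2) (C2 := cd5q3) (C3 := pd1)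
    rfl k0_pp_213

noncomputable def cut_pm_001 : Cut := Cut.of [[⟨3, 0, 0, 1449551462⟩]]

noncomputable def f_pm_001 : ℕ → ℕ → ℕ → ℕ → Bool := onCell 0 536870912 536870912 536870912 740881858 40050571
    (rowB 3 eng mog cd0q0 cd5q1 pd0 0 false true false .up 0 0 1 (qsf 0 536870912 536870912 536870912 0) ndB0q0 ndB5q1 pcB0 cut_pm_001 Ext.none)

def k0_pm_001 : ∃ t, chk3 f_pm_001 t 1 1 1 = true :=
  ⟨(l 4), by decide +kernel⟩

theorem c_pm_001 : CertB 0 536870912 536870912 536870912 740881858 40050571 3 eng mog cd0q0 cd5q1 pd0 false true false .up 0 0 1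
    ndB0q0 ndB5q1 pcB0 cut_pm_001 Ext.none :=
  certB0 (fam := false) (s1 := true) (s2 := false) (a := 0) (b := 0) (c := 1) (cn := .up) (n1 := ndB0q0) (n2 := ndB5q1) (pc := pcB0) (cut := cut_pm_001) (xt := Ext.none) (P1 := 0) (W1 := 536870912) (P2 := 536870912) (W2 := 536870912) (P3 := 740881858) (W3 := 40050571) (N0 := 3) (En := eng) (mo := mog) (C1 := cd0q0) (C2 := cd5q1) (C3 := pd0)
    rfl k0_pm_001

noncomputable def cut_pm_011 : Cut := Cut.of [[⟨3, 0, 0, 1449551462⟩]]

noncomputable def f_pm_011 : ℕ → ℕ → ℕ → ℕ → Bool := onCell 0 536870912 536870912 536870912 740881858 40050571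
    (rowB 3 eng mog cd0q0 cd5q1 pd1 0 false true false .pnn 0 1 1 (qsf 0 536870912 536870912 536870912 1) ndB0q0 ndB5q1 pcB1 cut_pm_011 Ext.none)

def k0_pm_011 : ∃ t, chk3 f_pm_011 t 1 1 1 = true :=
  ⟨(l 4), by decide +kernel⟩

theorem c_pm_011 : CertB 0 536870912 536870912 536870912 740881858 40050571 3 eng mog cd0q0 cd5q1 pd1 false true false .pnn 0 1 1
    ndB0q0 ndB5q1 pcB1 cut_pm_011 Ext.none :=
  certB0 (fam := false) (s1 := true) (s2 := false) (a := 0) (b := 1) (c := 1) (cn := .pnn) (n1 := ndB0q0) (n2 := ndB5q1) (pc := pcB1) (cut := cut_pm_011) (xt := Ext.none) (P1 := 0) (W1 := 536870912) (P2 := 536870912) (W2 := 536870912) (P3 := 740881858) (W3 := 40050571) (N0 := 3) (En := eng) (mo := mog) (C1 := cd0q0) (C2 := cd5q1) (C3 := pd1)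
    rfl k0_pm_011

noncomputable def cut_pm_012 : Cut := Cut.of [[⟨3, 0, 0, 1449551462⟩]]

noncomputable def f_pm_012 : ℕ → ℕ → ℕ → ℕ → Bool := onCell 0 536870912 1073741824 536870912 740881858 40050571
    (rowB 3 eng mog cd0q0 cd5q2 pd1 0 false true false .pnp 0 1 2 (qsf 0 536870912 1073741824 536870912 1) ndB0q0 ndB5q2 pcB1 cut_pm_012 Ext.none)

def k0_pm_012 : ∃ t, chk3 f_pm_012 t 1 1 1 = true :=
  ⟨(l 4), by decide +kernel⟩

theorem c_pm_012 : CertB 0 536870912 1073741824 536870912 740881858 40050571 3 eng mog cd0q0 cd5q2 pd1 false true false .pnp 0 1 2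
    ndB0q0 ndB5q2 pcB1 cut_pm_012 Ext.none :=
  certB0 (fam := false) (s1 := true) (s2 := false) (a := 0) (b := 1) (c := 2) (cn := .pnp) (n1 := ndB0q0) (n2 := ndB5q2) (pc := pcB1) (cut := cut_pm_012) (xt := Ext.none) (P1 := 0) (W1 := 536870912) (P2 := 1073741824) (W2 := 536870912) (P3 := 740881858) (W3 := 40050571) (N0 := 3) (En := eng) (mo := mog) (C1 := cd0q0) (C2 := cd5q2) (C3 := pd1)
    rfl k0_pm_012

noncomputable def cut_pm_022 : Cut := Cut.of [[⟨3, 0, 0, 1449551462⟩]]

noncomputable def f_pm_022 : ℕ → ℕ → ℕ → ℕ → Bool := onCell 0 536870912 1073741824 536870912 740881858 40050571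
    (rowB 3 eng mog cd0q0 cd5q2 pd2 0 false true false .pp 0 2 2 (qsf 0 536870912 1073741824 536870912 2) ndB0q0 ndB5q2 pcB2 cut_pm_022 Ext.none)

def k0_pm_022 : ∃ t, chk3 f_pm_022 t 1 1 1 = true :=
  ⟨(l 4), by decide +kernel⟩

theorem c_pm_022 : CertB 0 536870912 1073741824 536870912 740881858 40050571 3 eng mog cd0q0 cd5q2 pd2 false true false .pp 0 2 2
    ndB0q0 ndB5q2 pcB2 cut_pm_022 Ext.none :=
  certB0 (fam := false) (s1 := true) (s2 := false) (a := 0) (b := 2) (c := 2) (cn := .pp) (n1 := ndB0q0) (n2 := ndB5q2) (pc := pcB2) (cut := cut_pm_022) (xt := Ext.none) (P1 := 0) (W1 := 536870912) (P2 := 1073741824) (W2 := 536870912) (P3 := 740881858) (W3 := 40050571) (N0 := 3) (En := eng) (mo := mog) (C1 := cd0q0) (C2 := cd5q2) (C3 := pd2)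
    rfl k0_pm_022

noncomputable def cut_pm_023 : Cut := Cut.of [[⟨3, 0, 0, 1449551462⟩]]

noncomputable def f_pm_023 : ℕ → ℕ → ℕ → ℕ → Bool := onCell 0 536870912 0 1230186008 740881858 40050571
    (rowB 3 eng mog cd0q0 cd5q3 pd2 0 false true false .up 0 2 3 (qsf 0 536870912 0 1230186008 2) ndB0q0 ndB5q3 pcB2 cut_pm_023 Ext.none)

def k0_pm_023 : ∃ t, chk3 f_pm_023 t 1 1 1 = true :=
  ⟨(a (b (l 2) (l 4)) (b (a (l 2) (a (b (l 2) (l 4)) (b (a (l 2) (l 16532896)) (l 4)))) (l 4))), by decide +kernel⟩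

theorem c_pm_023 : CertB 0 536870912 0 1230186008 740881858 40050571 3 eng mog cd0q0 cd5q3 pd2 false true false .up 0 2 3
    ndB0q0 ndB5q3 pcB2 cut_pm_023 Ext.none :=
  certB0 (fam := false) (s1 := true) (s2 := false) (a := 0) (b := 2) (c := 3) (cn := .up) (n1 := ndB0q0) (n2 := ndB5q3) (pc := pcB2) (cut := cut_pm_023) (xt := Ext.none) (P1 := 0) (W1 := 536870912) (P2 := 0) (W2 := 1230186008) (P3 := 740881858) (W3 := 40050571) (N0 := 3) (En := eng) (mo := mog) (C1 := cd0q0) (C2 := cd5q3) (C3 := pd2)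
    rfl k0_pm_023

noncomputable def cut_pm_033 : Cut := Cut.of [[⟨3, 0, 0, 1449551462⟩]]

noncomputable def f_pm_033 : ℕ → ℕ → ℕ → ℕ → Bool := onCell 1610612736 536870912 0 1230186008 740881858 40050571
    (rowB 3 eng mog cd0q0 cd5q3 pd3 2 false true false .pnn 0 3 3 (qsf 0 536870912 0 1230186008 3) ndB0q0 ndB5q3 pcB3 cut_pm_033 Ext.none)

def k0_pm_033 : ∃ t, chk3 f_pm_033 t 1 1 1 = true :=
  ⟨(b (b (a (a (a (l 16655264) (l 16495344)) (a (b (l 16473784) (l 4)) (l 4))) (l 4)) (l 4)) (l 4)), by decide +kernel⟩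

theorem c_pm_033 : CertB 0 536870912 0 1230186008 740881858 40050571 3 eng mog cd0q0 cd5q3 pd3 false true false .pnn 0 3 3
    ndB0q0 ndB5q3 pcB3 cut_pm_033 Ext.none :=
  certB2 (fam := false) (s1 := true) (s2 := false) (a := 0) (b := 3) (c := 3) (cn := .pnn) (n1 := ndB0q0) (n2 := ndB5q3) (pc := pcB3) (cut := cut_pm_033) (xt := Ext.none) (P1 := 0) (W1 := 536870912) (P2 := 0) (W2 := 1230186008) (P3 := 740881858) (W3 := 40050571) (N0 := 3) (En := eng) (mo := mog) (C1 := cd0q0) (C2 := cd5q3) (C3 := pd3)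
    rfl (fun _ => rfl) k0_pm_033

noncomputable def cut_pm_101 : Cut := Cut.of [[⟨3, 0, 0, 1449551462⟩]]

noncomputable def f_pm_101 : ℕ → ℕ → ℕ → ℕ → Bool := onCell 536870912 536870912 536870912 536870912 740881858 40050571
    (rowB 3 eng mog cd0q1 cd5q1 pd0 0 false true false .npn 1 0 1 (qsf 536870912 536870912 536870912 536870912 0) ndB0q1 ndB5q1 pcB0 cut_pm_101 Ext.none)

def k0_pm_101 : ∃ t, chk3 f_pm_101 t 1 1 1 = true :=
  ⟨(l 4), by decide +kernel⟩

theorem c_pm_101 : CertB 536870912 536870912 536870912 536870912 740881858 40050571 3 eng mog cd0q1 cd5q1 pd0 false true false .npn 1 0 1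
    ndB0q1 ndB5q1 pcB0 cut_pm_101 Ext.none :=
  certB0 (fam := false) (s1 := true) (s2 := false) (a := 1) (b := 0) (c := 1) (cn := .npn) (n1 := ndB0q1) (n2 := ndB5q1) (pc := pcB0) (cut := cut_pm_101) (xt := Ext.none) (P1 := 536870912) (W1 := 536870912) (P2 := 536870912) (W2 := 536870912) (P3 := 740881858) (W3 := 40050571) (N0 := 3) (En := eng) (mo := mog) (C1 := cd0q1) (C2 := cd5q1) (C3 := pd0)
    rfl k0_pm_101

noncomputable def cut_pm_102 : Cut := Cut.of [[⟨3, 0, 0, 1449551462⟩]]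

noncomputable def f_pm_102 : ℕ → ℕ → ℕ → ℕ → Bool := onCell 536870912 536870912 1073741824 536870912 740881858 40050571
    (rowB 3 eng mog cd0q1 cd5q2 pd0 0 false true false .npp 1 0 2 (qsf 536870912 536870912 1073741824 536870912 0) ndB0q1 ndB5q2 pcB0 cut_pm_102 Ext.none)

def k0_pm_102 : ∃ t, chk3 f_pm_102 t 1 1 1 = true :=
  ⟨(a (l 4) (b (l 4) (a (l 4) (b (l 4) (a (l 4) (b (l 4) (a (l 4) (l 16419632)))))))), by decide +kernel⟩

theorem c_pm_102 : CertB 536870912 536870912 1073741824 536870912 740881858 40050571 3 eng mog cd0q1 cd5q2 pd0 false true false .npp 1 0 2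
    ndB0q1 ndB5q2 pcB0 cut_pm_102 Ext.none :=
  certB0 (fam := false) (s1 := true) (s2 := false) (a := 1) (b := 0) (c := 2) (cn := .npp) (n1 := ndB0q1) (n2 := ndB5q2) (pc := pcB0) (cut := cut_pm_102) (xt := Ext.none) (P1 := 536870912) (W1 := 536870912) (P2 := 1073741824) (W2 := 536870912) (P3 := 740881858) (W3 := 40050571) (N0 := 3) (En := eng) (mo := mog) (C1 := cd0q1) (C2 := cd5q2) (C3 := pd0)
    rfl k0_pm_102

noncomputable def cut_pm_112 : Cut := Cut.of [[⟨3, 0, 0, 1449551462⟩]]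

noncomputable def f_pm_112 : ℕ → ℕ → ℕ → ℕ → Bool := onCell 536870912 536870912 1073741824 536870912 740881858 40050571
    (rowB 3 eng mog cd0q1 cd5q2 pd1 0 false true false .dn 1 1 2 (qsf 536870912 536870912 1073741824 536870912 1) ndB0q1 ndB5q2 pcB1 cut_pm_112 Ext.none)

def k0_pm_112 : ∃ t, chk3 f_pm_112 t 1 1 1 = true :=
  ⟨(a (l 4) (b (l 4) (a (l 4) (b (l 4) (a (l 4) (b (l 4) (l 16418920))))))), by decide +kernel⟩

theorem c_pm_112 : CertB 536870912 536870912 1073741824 536870912 740881858 40050571 3 eng mog cd0q1 cd5q2 pd1 false true false .dn 1 1 2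
    ndB0q1 ndB5q2 pcB1 cut_pm_112 Ext.none :=
  certB0 (fam := false) (s1 := true) (s2 := false) (a := 1) (b := 1) (c := 2) (cn := .dn) (n1 := ndB0q1) (n2 := ndB5q2) (pc := pcB1) (cut := cut_pm_112) (xt := Ext.none) (P1 := 536870912) (W1 := 536870912) (P2 := 1073741824) (W2 := 536870912) (P3 := 740881858) (W3 := 40050571) (N0 := 3) (En := eng) (mo := mog) (C1 := cd0q1) (C2 := cd5q2) (C3 := pd1)
    rfl k0_pm_112

noncomputable def cut_pm_113 : Cut := Cut.of [[⟨3, 0, 0, 1449551462⟩], [⟨0, 1, 0, 67108864⟩, ⟨1, 1, 0, 67108864⟩, ⟨2, 2, 0, 16777216⟩]]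

noncomputable def f_pm_113 : ℕ → ℕ → ℕ → ℕ → Bool := onCell 536870912 536870912 0 1230186008 740881858 40050571
    (rowB 3 eng mog cd0q1 cd5q3 pd1 0 false true false .nn 1 1 3 (qsf 536870912 536870912 0 1230186008 1) ndB0q1 ndB5q3 pcB1 cut_pm_113 Ext.none)

def k0_pm_113 : ∃ t, chk3 f_pm_113 t 1 1 1 = true :=
  ⟨(b (a (l 2) (a (l 2) (b (a (l 2) (a (l 2) (b (l 6) (b (l 14) (l 16796440))))) (a (b (a (l 2) (l 456977735943)) (a (l 301285119847) (l 16580088))) (b (a (l 16724040) (l 16786064)) (b (l 16734368) (l 16713664))))))) (b (b (a (l 2) (a (a (l 2) (b (l 359266691127) (l 16173000))) (a (b (l 16461480) (l 16420528)) (b (l 16676688) (l 16638064))))) (a (l 4) (a (a (b (a (l 432817241639) (l 15943480)) (l 15888944)) (b (l 16131000) (a (l 16046560) (l 16347464)))) (a (b (l 16384248) (l 16350488)) (l 16592528))))) (a (l 4) (a (b (a (l 4) (b (a (l 16061184) (l 16159360)) (l 16134712))) (l 4)) (b (b (a (a (l 16272256) (l 16382232)) (l 16547728)) (a (a (l 16265856)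 (l 16378040)) (a (l 16483080) (l 16580232)))) (b (a (l 16336248) (a (l 16468576) (l 16540040))) (a (l 4) (l 16470456)))))))), by decide +kernel⟩

theorem c_pm_113 : CertB 536870912 536870912 0 1230186008 740881858 40050571 3 eng mog cd0q1 cd5q3 pd1 false true false .nn 1 1 3
    ndB0q1 ndB5q3 pcB1 cut_pm_113 Ext.none :=
  certB0 (fam := false) (s1 := true) (s2 := false) (a := 1) (b := 1) (c := 3) (cn := .nn) (n1 := ndB0q1) (n2 := ndB5q3) (pc := pcB1) (cut := cut_pm_113) (xt := Ext.none) (P1 := 536870912) (W1 := 536870912) (P2 := 0) (W2 := 1230186008) (P3 := 740881858) (W3 := 40050571) (N0 := 3) (En := eng) (mo := mog) (C1 := cd0q1) (C2 := cd5q3) (C3 := pd1)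
    rfl k0_pm_113

noncomputable def cut_pm_123 : Cut := Cut.of [[⟨3, 0, 0, 1449551462⟩], [⟨0, 1, 0, 67108864⟩, ⟨1, 1, 0, 67108864⟩, ⟨2, 2, 0, 16777216⟩]]

noncomputable def f_pm_123 : ℕ → ℕ → ℕ → ℕ → Bool := onCell 1073741824 536870912 0 1230186008 740881858 40050571
    (rowB 3 eng mog cd0q1 cd5q3 pd2 2 false true false .npn 1 2 3 (qsf 536870912 536870912 0 1230186008 2) ndB0q1 ndB5q3 pcB2 cut_pm_123 Ext.none)

def k0_pm_123 : ∃ t, chk3 f_pm_123 t 1 2 1 = true :=
  ⟨(a (a (b (a (b (a (l 6) (a (l 6) (l 16736424))) (a (b (l 14) (l 16641640)) (b (l 16610848) (l 16596616)))) (b (a (b (l 16660168) (l 16620992)) (b (l 16698448) (l 16574864))) (a (b (l 16584040) (l 16540720)) (b (l 16532376) (l 16480416))))) (a (b (a (b (l 16609488) (l 16566704)) (b (l 16551512) (l 16517824))) (b (a (b (l 16526616) (l 16490248)) (l 16524088)) (a (l 16400968) (l 16312584)))) (b (a (b (l 16482904) (l 16563696)) (b (l 16417848) (l 16521200))) (a (b (l 16340016) (l 16251504))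 (b (l 16284512) (l 16212808)))))) (b (a (b (a (a (l 16581648) (a (l 16574416) (b (l 16617192) (l 16542416)))) (l 16559352)) (a (b (l 16497520) (l 16432888)) (l 16615048))) (b (a (l 16553768) (l 16555104)) (a (b (l 16479600) (l 16418576)) (l 16480536)))) (a (b (a (b (a (l 16372344) (l 16343952)) (l 16532896)) (b (l 16348984) (l 16301264))) (a (b (l 16249040) (l 16194928)) (b (l 16254224) (l 16199552)))) (b (a (l 16561152) (l 16370936)) (a (l 16477104) (b (l 16290872) (l 16237328))))))) (a (b (b (a (l 16556528) (l 16551512)) (a (a (l 16472880) (l 16483704)) (l 16498288))) (a (b (a (l 16385416) (l 16398992)) (b (l 16298664) (l 16280112))) (b (a (l 16408072) (l 16421144)) (a (l 16337024) (l 16363552))))) (b (a (b (l 16561664) (l 16505784)) (b (l 16558816) (a (l 16501864) (l 16490760)))) (b (a (a (l 16434448) (l 16446000)) (a (l 16447368) (l 4))) (l 4))))), by decide +kernel⟩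

def k1_pm_123 : ∃ t, chk3 f_pm_123 t 1 3 1 = true :=
  ⟨(b (a (a (b (a (a (b (l 16262992) (l 16113320)) (b (l 16197000) (l 16065920))) (b (a (l 16154824) (l 16132360)) (a (a (l 16049096) (l 16048136)) (l 16052600)))) (b (a (a (c (l 16084928) (l 15908952)) (l 16081256)) (b (l 4) (l 4))) (l 4))) (b (a (a (b (l 16127640) (a (l 16059096) (l 4))) (b (l 16138248) (l 4))) (b (a (l 16162552) (l 4)) (l 4))) (l 4))) (l 4)) (l 4)), by decide +kernel⟩

theorem s2_pm_123 : ∃ t, chk3 f_pm_123 t 1 1 1 = true := ex3_b k0_pm_123 k1_pm_123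

theorem c_pm_123 : CertB 536870912 536870912 0 1230186008 740881858 40050571 3 eng mog cd0q1 cd5q3 pd2 false true false .npn 1 2 3
    ndB0q1 ndB5q3 pcB2 cut_pm_123 Ext.none :=
  certB2 (fam := false) (s1 := true) (s2 := false) (a := 1) (b := 2) (c := 3) (cn := .npn) (n1 := ndB0q1) (n2 := ndB5q3) (pc := pcB2) (cut := cut_pm_123) (xt := Ext.none) (P1 := 536870912) (W1 := 536870912) (P2 := 0) (W2 := 1230186008) (P3 := 740881858) (W3 := 40050571) (N0 := 3) (En := eng) (mo := mog) (C1 := cd0q1) (C2 := cd5q3) (C3 := pd2)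
    rfl (fun _ => rfl) s2_pm_123

noncomputable def cut_pm_133 : Cut := Cut.of [[⟨3, 0, 0, 1449551462⟩]]

noncomputable def f_pm_133 : ℕ → ℕ → ℕ → ℕ → Bool := onCell 1610612736 536870912 0 1230186008 740881858 40050571
    (rowB 3 eng mog cd0q1 cd5q3 pd3 2 false true false .dn 1 3 3 (qsf 536870912 536870912 0 1230186008 3) ndB0q1 ndB5q3 pcB3 cut_pm_133 Ext.none)

def k0_pm_133 : ∃ t, chk3 f_pm_133 t 1 1 1 = true :=
  ⟨(b (b (a (a (a (l 16674920) (l 1)) (l 1)) (l 1)) (l 1)) (l 1)), by decide +kernel⟩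

theorem c_pm_133 : CertB 536870912 536870912 0 1230186008 740881858 40050571 3 eng mog cd0q1 cd5q3 pd3 false true false .dn 1 3 3
    ndB0q1 ndB5q3 pcB3 cut_pm_133 Ext.none :=
  certB2 (fam := false) (s1 := true) (s2 := false) (a := 1) (b := 3) (c := 3) (cn := .dn) (n1 := ndB0q1) (n2 := ndB5q3) (pc := pcB3) (cut := cut_pm_133) (xt := Ext.none) (P1 := 536870912) (W1 := 536870912) (P2 := 0) (W2 := 1230186008) (P3 := 740881858) (W3 := 40050571) (N0 := 3) (En := eng) (mo := mog) (C1 := cd0q1) (C2 := cd5q3) (C3 := pd3)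
    rfl (fun _ => rfl) k0_pm_133

noncomputable def cut_pm_202 : Cut := Cut.of [[⟨3, 0, 0, 1449551462⟩]]

noncomputable def f_pm_202 : ℕ → ℕ → ℕ → ℕ → Bool := onCell 0 536870912 0 536870912 740881858 40050571
    (rowB 3 eng mog cd0q2 cd5q2 pd0 1 false true false .pp 2 0 2 (qsf 0 536870912 1073741824 536870912 0) ndB0q2 ndB5q2 pcB0 cut_pm_202 Ext.none)

def k0_pm_202 : ∃ t, chk3 f_pm_202 t 1 1 1 = true :=
  ⟨(a (b (b (a (b (a (b (l 16248416) (l 16234872)) (b (l 16078656) (l 16245896))) (a (l 16339320) (b (l 16231128) (l 16304272)))) (b (a (b (l 15957392) (l 16044192)) (b (l 15811104) (l 15902352))) (a (b (l 16131528) (l 16213488)) (l 16270088)))) (a (b (a (b (l 16428280) (l 16560808)) (l 16394776)) (b (a (l 16618448) (l 16471376)) (a (l 16547384) (l 16509176)))) (b (a (b (l 16276960) (l 16340712)) (b (l 16167120) (l 16242176))) (a (b (l 16397984) (l 16447160)) (b (l 16300288) (l 16358024)))))) (b (b (a (b (a (l 16578240) (l 16542304)) (l 16587496)) (a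 (b (l 16492912) (l 16526184)) (b (l 16415104) (l 16465232)))) (a (b (l 16611672) (a (l 16653056) (l 16618632))) (b (a (l 16553880) (l 16502840)) (a (l 16575600) (l 16525648))))) (a (l 2) (b (l 462346114839) (l 2))))) (b (b (a (b (a (b (l 15632704) (l 15724184)) (b (l 4) (l 15557064))) (a (b (l 15822288) (l 15920208)) (b (l 15639800) (l 15732400)))) (l 4)) (a (b (a (l 16057592) (b (l 15829840) (l 15927856))) (a (b (l 16176536) (l 16249016)) (l 16059992))) (a (a (b (l 15756016) (l 15941048)) (b (l 4) (l 15883296))) (l 4)))) (b (a (b (a (b (l 16309864) (l 16365872)) (l 16362528)) (b (a (l 16421016) (l 16316128)) (a (l 16459048) (l 16362184)))) (b (a (l 16335808) (l 4)) (a (l 16231352) (b (l 16126208) (l 16202200))))) (a (b (b (a (l 16489392) (l 16406512)) (a (l 2) (l 16458016))) (l 2)) (b (a (b (l 16327720) (l 16386088)) (l 16316240)) (a (a (l 16486712) (l 16466152)) (b (l 16422712) (l 16497152)))))))), by decide +kernel⟩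

theorem c_pm_202 : CertB 0 536870912 1073741824 536870912 740881858 40050571 3 eng mog cd0q2 cd5q2 pd0 false true false .pp 2 0 2
    ndB0q2 ndB5q2 pcB0 cut_pm_202 Ext.none :=
  certB1 (fam := false) (s1 := true) (s2 := false) (a := 2) (b := 0) (c := 2) (cn := .pp) (n1 := ndB0q2) (n2 := ndB5q2) (pc := pcB0) (cut := cut_pm_202) (xt := Ext.none) (P1 := 0) (W1 := 536870912) (P2 := 1073741824) (W2 := 536870912) (P3 := 740881858) (W3 := 40050571) (N0 := 3) (En := eng) (mo := mog) (C1 := cd0q2) (C2 := cd5q2) (C3 := pd0)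
    rfl (fun _ => rfl) k0_pm_202

noncomputable def cut_pm_203 : Cut := Cut.of [[⟨3, 0, 0, 1449551462⟩]]

noncomputable def f_pm_203 : ℕ → ℕ → ℕ → ℕ → Bool := onCell 0 536870912 0 1230186008 740881858 40050571
    (rowB 3 eng mog cd0q2 cd5q3 pd0 0 false true false .up 2 0 3 (qsf 0 536870912 0 1230186008 0) ndB0q2 ndB5q3 pcB0 cut_pm_203 Ext.none)

def k0_pm_203 : ∃ t, chk3 f_pm_203 t 1 1 1 = true :=
  ⟨(b (l 2) (b (l 2) (a (b (b (l 2) (a (a (l 6) (l 16728856)) (a (l 16708120) (l 16693200)))) (a (b (a (b (a (l 6) (l 16719176)) (l 16704800)) (b (l 16700056) (l 16677312))) (b (a (l 16681616) (l 16652480)) (a (l 16656480) (l 16625416)))) (b (a (b (l 16673720) (l 16644880)) (l 16629336)) (a (l 16602176) (l 16565248))))) (b (l 2) (a (b (l 16601088) (a (b (l 16545648) (l 16507416)) (b (l 16521464) (l 16471864)))) (b (a (l 16639200) (l 2)) (a (b (l 16535880) (l 16464960)) (b (l 16528376) (l 16533032))))))))), by decide +kernel⟩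

theorem c_pm_203 : CertB 0 536870912 0 1230186008 740881858 40050571 3 eng mog cd0q2 cd5q3 pd0 false true false .up 2 0 3
    ndB0q2 ndB5q3 pcB0 cut_pm_203 Ext.none :=
  certB0 (fam := false) (s1 := true) (s2 := false) (a := 2) (b := 0) (c := 3) (cn := .up) (n1 := ndB0q2) (n2 := ndB5q3) (pc := pcB0) (cut := cut_pm_203) (xt := Ext.none) (P1 := 0) (W1 := 536870912) (P2 := 0) (W2 := 1230186008) (P3 := 740881858) (W3 := 40050571) (N0 := 3) (En := eng) (mo := mog) (C1 := cd0q2) (C2 := cd5q3) (C3 := pd0)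
    rfl k0_pm_203

noncomputable def cut_pm_213 : Cut := Cut.of [[⟨3, 0, 0, 1449551462⟩], [⟨0, 1, 0, 67108864⟩, ⟨1, 1, 0, 67108864⟩, ⟨2, 2, 0, 16777216⟩]]

noncomputable def f_pm_213 : ℕ → ℕ → ℕ → ℕ → Bool := onCell 0 536870912 0 1230186008 740881858 40050571
    (rowB 3 eng mog cd0q2 cd5q3 pd1 0 false true false .pnn 2 1 3 (qsf 0 536870912 0 1230186008 1) ndB0q2 ndB5q3 pcB1 cut_pm_213 Ext.none)

def k0_pm_213 : ∃ t, chk3 f_pm_213 t 1 1 1 = true :=
  ⟨(b (a (l 6) (b (a (l 6) (l 6)) (a (b (l 6) (a (l 6) (b (l 6) (a (l 6) (l 16767768))))) (b (a (b (l 6) (a (l 6) (l 16803696))) (b (a (l 6) (l 16800576)) (l 16810528))) (a (b (l 16793160) (l 16785760)) (b (l 16804072) (l 16802088))))))) (b (a (b (l 6) (a (l 6) (b (a (l 6) (a (l 6) (l 16715288))) (a (b (l 6) (l 16719872)) (l 16694376))))) (a (b (a (b (a (l 6) (l 6)) (a (l 16730240) (l 16729400))) (b (l 16753032) (l 16737640))) (b (a (l 16706168) (l 16711360)) (a (l 16674720) (l 16685856)))) (b (a (b (l 16778320)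 (l 16759344)) (b (l 16787744) (l 16759136))) (a (b (l 16732120) (l 16694024)) (l 16705496))))) (a (b (a (b (l 6) (a (l 6) (b (l 16682848) (l 16651088)))) (b (a (l 16687160) (l 16650328)) (a (b (l 16647384) (l 16615592)) (l 16615576)))) (a (l 1) (b (a (l 1) (l 16563712)) (l 1)))) (b (a (b (a (l 16646080) (l 16648976)) (l 16605800)) (a (l 16651816) (l 16642000))) (a (b (l 16564600) (l 1)) (b (a (l 16588904) (l 16551200)) (a (b (l 16533480) (l 1)) (l 16519560)))))))), by decide +kernel⟩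

theorem c_pm_213 : CertB 0 536870912 0 1230186008 740881858 40050571 3 eng mog cd0q2 cd5q3 pd1 false true false .pnn 2 1 3
    ndB0q2 ndB5q3 pcB1 cut_pm_213 Ext.none :=
  certB0 (fam := false) (s1 := true) (s2 := false) (a := 2) (b := 1) (c := 3) (cn := .pnn) (n1 := ndB0q2) (n2 := ndB5q3) (pc := pcB1) (cut := cut_pm_213) (xt := Ext.none) (P1 := 0) (W1 := 536870912) (P2 := 0) (W2 := 1230186008) (P3 := 740881858) (W3 := 40050571) (N0 := 3) (En := eng) (mo := mog) (C1 := cd0q2) (C2 := cd5q3) (C3 := pd1)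
    rfl k0_pm_213

noncomputable def cut_mm_001 : Cut := Cut.of [[⟨3, 0, 0, 1449551462⟩]]

noncomputable def f_mm_001 : ℕ → ℕ → ℕ → ℕ → Bool := onCell 0 536870912 536870912 536870912 740881858 40050571
    (rowB 3 eng mog cd0q0 cd5q1 pd0 0 false false false .up 0 0 1 (qsf 0 536870912 536870912 536870912 0) ndB0q0 ndB5q1 pcB0 cut_mm_001 Ext.none)

def k0_mm_001 : ∃ t, chk3 f_mm_001 t 1 1 1 = true :=
  ⟨(l 6), by decide +kernel⟩

theorem c_mm_001 : CertB 0 536870912 536870912 536870912 740881858 40050571 3 eng mog cd0q0 cd5q1 pd0 false false false .up 0 0 1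
    ndB0q0 ndB5q1 pcB0 cut_mm_001 Ext.none :=
  certB0 (fam := false) (s1 := false) (s2 := false) (a := 0) (b := 0) (c := 1) (cn := .up) (n1 := ndB0q0) (n2 := ndB5q1) (pc := pcB0) (cut := cut_mm_001) (xt := Ext.none) (P1 := 0) (W1 := 536870912) (P2 := 536870912) (W2 := 536870912) (P3 := 740881858) (W3 := 40050571) (N0 := 3) (En := eng) (mo := mog) (C1 := cd0q0) (C2 := cd5q1) (C3 := pd0)
    rfl k0_mm_001

noncomputable def cut_mm_011 : Cut := Cut.of [[⟨3, 0, 0, 1449551462⟩]]

noncomputable def f_mm_011 : ℕ → ℕ → ℕ → ℕ → Bool := onCell 0 536870912 536870912 536870912 740881858 40050571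
    (rowB 3 eng mog cd0q0 cd5q1 pd1 0 false false false .pnn 0 1 1 (qsf 0 536870912 536870912 536870912 1) ndB0q0 ndB5q1 pcB1 cut_mm_011 Ext.none)

def k0_mm_011 : ∃ t, chk3 f_mm_011 t 1 1 1 = true :=
  ⟨(l 6), by decide +kernel⟩

theorem c_mm_011 : CertB 0 536870912 536870912 536870912 740881858 40050571 3 eng mog cd0q0 cd5q1 pd1 false false false .pnn 0 1 1
    ndB0q0 ndB5q1 pcB1 cut_mm_011 Ext.none :=
  certB0 (fam := false) (s1 := false) (s2 := false) (a := 0) (b := 1) (c := 1) (cn := .pnn) (n1 := ndB0q0) (n2 := ndB5q1) (pc := pcB1) (cut := cut_mm_011) (xt := Ext.none) (P1 := 0) (W1 := 536870912) (P2 := 536870912) (W2 := 536870912) (P3 := 740881858) (W3 := 40050571) (N0 := 3) (En := eng) (mo := mog) (C1 := cd0q0) (C2 := cd5q1) (C3 := pd1)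
    rfl k0_mm_011

noncomputable def cut_mm_012 : Cut := Cut.of [[⟨3, 0, 0, 1449551462⟩]]

noncomputable def f_mm_012 : ℕ → ℕ → ℕ → ℕ → Bool := onCell 0 536870912 1073741824 536870912 740881858 40050571
    (rowB 3 eng mog cd0q0 cd5q2 pd1 0 false false false .pnp 0 1 2 (qsf 0 536870912 1073741824 536870912 1) ndB0q0 ndB5q2 pcB1 cut_mm_012 Ext.none)

def k0_mm_012 : ∃ t, chk3 f_mm_012 t 1 1 1 = true :=
  ⟨(l 5), by decide +kernel⟩

theorem c_mm_012 : CertB 0 536870912 1073741824 536870912 740881858 40050571 3 eng mog cd0q0 cd5q2 pd1 false false false .pnp 0 1 2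
    ndB0q0 ndB5q2 pcB1 cut_mm_012 Ext.none :=
  certB0 (fam := false) (s1 := false) (s2 := false) (a := 0) (b := 1) (c := 2) (cn := .pnp) (n1 := ndB0q0) (n2 := ndB5q2) (pc := pcB1) (cut := cut_mm_012) (xt := Ext.none) (P1 := 0) (W1 := 536870912) (P2 := 1073741824) (W2 := 536870912) (P3 := 740881858) (W3 := 40050571) (N0 := 3) (En := eng) (mo := mog) (C1 := cd0q0) (C2 := cd5q2) (C3 := pd1)
    rfl k0_mm_012

noncomputable def cut_mm_022 : Cut := Cut.of [[⟨3, 0, 0, 1449551462⟩]]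

noncomputable def f_mm_022 : ℕ → ℕ → ℕ → ℕ → Bool := onCell 0 536870912 1073741824 536870912 740881858 40050571
    (rowB 3 eng mog cd0q0 cd5q2 pd2 0 false false false .pp 0 2 2 (qsf 0 536870912 1073741824 536870912 2) ndB0q0 ndB5q2 pcB2 cut_mm_022 Ext.none)

def k0_mm_022 : ∃ t, chk3 f_mm_022 t 1 1 1 = true :=
  ⟨(l 5), by decide +kernel⟩

theorem c_mm_022 : CertB 0 536870912 1073741824 536870912 740881858 40050571 3 eng mog cd0q0 cd5q2 pd2 false false false .pp 0 2 2
    ndB0q0 ndB5q2 pcB2 cut_mm_022 Ext.none :=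
  certB0 (fam := false) (s1 := false) (s2 := false) (a := 0) (b := 2) (c := 2) (cn := .pp) (n1 := ndB0q0) (n2 := ndB5q2) (pc := pcB2) (cut := cut_mm_022) (xt := Ext.none) (P1 := 0) (W1 := 536870912) (P2 := 1073741824) (W2 := 536870912) (P3 := 740881858) (W3 := 40050571) (N0 := 3) (En := eng) (mo := mog) (C1 := cd0q0) (C2 := cd5q2) (C3 := pd2)
    rfl k0_mm_022

noncomputable def cut_mm_023 : Cut := Cut.of [[⟨3, 0, 0, 1449551462⟩]]

noncomputable def f_mm_023 : ℕ → ℕ → ℕ → ℕ → Bool := onCell 0 536870912 0 1230186008 740881858 40050571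
    (rowB 3 eng mog cd0q0 cd5q3 pd2 0 false false false .up 0 2 3 (qsf 0 536870912 0 1230186008 2) ndB0q0 ndB5q3 pcB2 cut_mm_023 Ext.none)

def k0_mm_023 : ∃ t, chk3 f_mm_023 t 1 1 1 = true :=
  ⟨(l 5), by decide +kernel⟩

theorem c_mm_023 : CertB 0 536870912 0 1230186008 740881858 40050571 3 eng mog cd0q0 cd5q3 pd2 false false false .up 0 2 3
    ndB0q0 ndB5q3 pcB2 cut_mm_023 Ext.none :=
  certB0 (fam := false) (s1 := false) (s2 := false) (a := 0) (b := 2) (c := 3) (cn := .up) (n1 := ndB0q0) (n2 := ndB5q3) (pc := pcB2) (cut := cut_mm_023) (xt := Ext.none) (P1 := 0) (W1 := 536870912) (P2 := 0) (W2 := 1230186008) (P3 := 740881858) (W3 := 40050571) (N0 := 3) (En := eng) (mo := mog) (C1 := cd0q0) (C2 := cd5q3) (C3 := pd2)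
    rfl k0_mm_023

noncomputable def cut_mm_033 : Cut := Cut.of [[⟨3, 0, 0, 1449551462⟩]]

noncomputable def f_mm_033 : ℕ → ℕ → ℕ → ℕ → Bool := onCell 0 536870912 0 1230186008 740881858 40050571
    (rowB 3 eng mog cd0q0 cd5q3 pd3 0 false false false .pnn 0 3 3 (qsf 0 536870912 0 1230186008 3) ndB0q0 ndB5q3 pcB3 cut_mm_033 Ext.none)

def k0_mm_033 : ∃ t, chk3 f_mm_033 t 1 1 1 = true :=
  ⟨(l 5), by decide +kernel⟩

theorem c_mm_033 : CertB 0 536870912 0 1230186008 740881858 40050571 3 eng mog cd0q0 cd5q3 pd3 false false false .pnn 0 3 3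
    ndB0q0 ndB5q3 pcB3 cut_mm_033 Ext.none :=
  certB0 (fam := false) (s1 := false) (s2 := false) (a := 0) (b := 3) (c := 3) (cn := .pnn) (n1 := ndB0q0) (n2 := ndB5q3) (pc := pcB3) (cut := cut_mm_033) (xt := Ext.none) (P1 := 0) (W1 := 536870912) (P2 := 0) (W2 := 1230186008) (P3 := 740881858) (W3 := 40050571) (N0 := 3) (En := eng) (mo := mog) (C1 := cd0q0) (C2 := cd5q3) (C3 := pd3)
    rfl k0_mm_033

noncomputable def cut_mm_101 : Cut := Cut.of [[⟨3, 0, 0, 1449551462⟩], [⟨0, 1, 0, 67108864⟩, ⟨1, 0, 0, 67108864⟩, ⟨2, 1, 0, 67108864⟩]]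

noncomputable def f_mm_101 : ℕ → ℕ → ℕ → ℕ → Bool := onCell 536870912 536870912 0 536870912 740881858 40050571
    (rowB 3 eng mog cd0q1 cd5q1 pd0 1 false false false .npn 1 0 1 (qsf 536870912 536870912 536870912 536870912 0) ndB0q1 ndB5q1 pcB0 cut_mm_101 Ext.none)

def k0_mm_101 : ∃ t, chk3 f_mm_101 t 1 1 1 = true :=
  ⟨(l 6), by decide +kernel⟩

theorem c_mm_101 : CertB 536870912 536870912 536870912 536870912 740881858 40050571 3 eng mog cd0q1 cd5q1 pd0 false false false .npn 1 0 1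
    ndB0q1 ndB5q1 pcB0 cut_mm_101 Ext.none :=
  certB1 (fam := false) (s1 := false) (s2 := false) (a := 1) (b := 0) (c := 1) (cn := .npn) (n1 := ndB0q1) (n2 := ndB5q1) (pc := pcB0) (cut := cut_mm_101) (xt := Ext.none) (P1 := 536870912) (W1 := 536870912) (P2 := 536870912) (W2 := 536870912) (P3 := 740881858) (W3 := 40050571) (N0 := 3) (En := eng) (mo := mog) (C1 := cd0q1) (C2 := cd5q1) (C3 := pd0)
    rfl (fun _ => rfl) k0_mm_101

noncomputable def cut_mm_102 : Cut := Cut.of [[⟨3, 0, 0, 1449551462⟩], [⟨0, 1, 0, 67108864⟩, ⟨1, 0, 0, 67108864⟩, ⟨2, 1, 0, 67108864⟩]]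

noncomputable def f_mm_102 : ℕ → ℕ → ℕ → ℕ → Bool := onCell 536870912 536870912 1073741824 536870912 740881858 40050571
    (rowB 3 eng mog cd0q1 cd5q2 pd0 0 false false false .npp 1 0 2 (qsf 536870912 536870912 1073741824 536870912 0) ndB0q1 ndB5q2 pcB0 cut_mm_102 Ext.none)

def k0_mm_102 : ∃ t, chk3 f_mm_102 t 1 1 1 = true :=
  ⟨(l 6), by decide +kernel⟩

theorem c_mm_102 : CertB 536870912 536870912 1073741824 536870912 740881858 40050571 3 eng mog cd0q1 cd5q2 pd0 false false false .npp 1 0 2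
    ndB0q1 ndB5q2 pcB0 cut_mm_102 Ext.none :=
  certB0 (fam := false) (s1 := false) (s2 := false) (a := 1) (b := 0) (c := 2) (cn := .npp) (n1 := ndB0q1) (n2 := ndB5q2) (pc := pcB0) (cut := cut_mm_102) (xt := Ext.none) (P1 := 536870912) (W1 := 536870912) (P2 := 1073741824) (W2 := 536870912) (P3 := 740881858) (W3 := 40050571) (N0 := 3) (En := eng) (mo := mog) (C1 := cd0q1) (C2 := cd5q2) (C3 := pd0)
    rfl k0_mm_102

noncomputable def cut_mm_112 : Cut := Cut.of [[⟨3, 0, 0, 1449551462⟩]]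

noncomputable def f_mm_112 : ℕ → ℕ → ℕ → ℕ → Bool := onCell 536870912 536870912 1073741824 536870912 740881858 40050571
    (rowB 3 eng mog cd0q1 cd5q2 pd1 0 false false false .dn 1 1 2 (qsf 536870912 536870912 1073741824 536870912 1) ndB0q1 ndB5q2 pcB1 cut_mm_112 Ext.none)

def k0_mm_112 : ∃ t, chk3 f_mm_112 t 1 1 1 = true :=
  ⟨(l 6), by decide +kernel⟩

theorem c_mm_112 : CertB 536870912 536870912 1073741824 536870912 740881858 40050571 3 eng mog cd0q1 cd5q2 pd1 false false false .dn 1 1 2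
    ndB0q1 ndB5q2 pcB1 cut_mm_112 Ext.none :=
  certB0 (fam := false) (s1 := false) (s2 := false) (a := 1) (b := 1) (c := 2) (cn := .dn) (n1 := ndB0q1) (n2 := ndB5q2) (pc := pcB1) (cut := cut_mm_112) (xt := Ext.none) (P1 := 536870912) (W1 := 536870912) (P2 := 1073741824) (W2 := 536870912) (P3 := 740881858) (W3 := 40050571) (N0 := 3) (En := eng) (mo := mog) (C1 := cd0q1) (C2 := cd5q2) (C3 := pd1)
    rfl k0_mm_112

noncomputable def cut_mm_113 : Cut := Cut.of [[⟨3, 0, 0, 1449551462⟩]]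

noncomputable def f_mm_113 : ℕ → ℕ → ℕ → ℕ → Bool := onCell 536870912 536870912 0 1230186008 740881858 40050571
    (rowB 3 eng mog cd0q1 cd5q3 pd1 0 false false false .nn 1 1 3 (qsf 536870912 536870912 0 1230186008 1) ndB0q1 ndB5q3 pcB1 cut_mm_113 Ext.none)

def k0_mm_113 : ∃ t, chk3 f_mm_113 t 1 1 1 = true :=
  ⟨(a (l 5) (b (l 5) (l 6))), by decide +kernel⟩

theorem c_mm_113 : CertB 536870912 536870912 0 1230186008 740881858 40050571 3 eng mog cd0q1 cd5q3 pd1 false false false .nn 1 1 3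
    ndB0q1 ndB5q3 pcB1 cut_mm_113 Ext.none :=
  certB0 (fam := false) (s1 := false) (s2 := false) (a := 1) (b := 1) (c := 3) (cn := .nn) (n1 := ndB0q1) (n2 := ndB5q3) (pc := pcB1) (cut := cut_mm_113) (xt := Ext.none) (P1 := 536870912) (W1 := 536870912) (P2 := 0) (W2 := 1230186008) (P3 := 740881858) (W3 := 40050571) (N0 := 3) (En := eng) (mo := mog) (C1 := cd0q1) (C2 := cd5q3) (C3 := pd1)
    rfl k0_mm_113

noncomputable def cut_mm_123 : Cut := Cut.of [[⟨3, 0, 0, 1449551462⟩]]

noncomputable def f_mm_123 : ℕ → ℕ → ℕ → ℕ → Bool := onCell 1073741824 536870912 0 1230186008 740881858 40050571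
    (rowB 3 eng mog cd0q1 cd5q3 pd2 2 false false false .npn 1 2 3 (qsf 536870912 536870912 0 1230186008 2) ndB0q1 ndB5q3 pcB2 cut_mm_123 Ext.none)

def k0_mm_123 : ∃ t, chk3 f_mm_123 t 1 1 1 = true :=
  ⟨(b (l 5) (l 5)), by decide +kernel⟩

theorem c_mm_123 : CertB 536870912 536870912 0 1230186008 740881858 40050571 3 eng mog cd0q1 cd5q3 pd2 false false false .npn 1 2 3
    ndB0q1 ndB5q3 pcB2 cut_mm_123 Ext.none :=
  certB2 (fam := false) (s1 := false) (s2 := false) (a := 1) (b := 2) (c := 3) (cn := .npn) (n1 := ndB0q1) (n2 := ndB5q3) (pc := pcB2) (cut := cut_mm_123) (xt := Ext.none) (P1 := 536870912) (W1 := 536870912) (P2 := 0) (W2 := 1230186008) (P3 := 740881858) (W3 := 40050571) (N0 := 3) (En := eng) (mo := mog) (C1 := cd0q1) (C2 := cd5q3) (C3 := pd2)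
    rfl (fun _ => rfl) k0_mm_123

noncomputable def cut_mm_133 : Cut := Cut.of [[⟨3, 0, 0, 1449551462⟩]]

noncomputable def f_mm_133 : ℕ → ℕ → ℕ → ℕ → Bool := onCell 1610612736 536870912 0 1230186008 740881858 40050571
    (rowB 3 eng mog cd0q1 cd5q3 pd3 2 false false false .dn 1 3 3 (qsf 536870912 536870912 0 1230186008 3) ndB0q1 ndB5q3 pcB3 cut_mm_133 Ext.none)

def k0_mm_133 : ∃ t, chk3 f_mm_133 t 1 1 1 = true :=
  ⟨(l 5), by decide +kernel⟩

theorem c_mm_133 : CertB 536870912 536870912 0 1230186008 740881858 40050571 3 eng mog cd0q1 cd5q3 pd3 false false false .dn 1 3 3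
    ndB0q1 ndB5q3 pcB3 cut_mm_133 Ext.none :=
  certB2 (fam := false) (s1 := false) (s2 := false) (a := 1) (b := 3) (c := 3) (cn := .dn) (n1 := ndB0q1) (n2 := ndB5q3) (pc := pcB3) (cut := cut_mm_133) (xt := Ext.none) (P1 := 536870912) (W1 := 536870912) (P2 := 0) (W2 := 1230186008) (P3 := 740881858) (W3 := 40050571) (N0 := 3) (En := eng) (mo := mog) (C1 := cd0q1) (C2 := cd5q3) (C3 := pd3)
    rfl (fun _ => rfl) k0_mm_133

noncomputable def cut_mm_202 : Cut := Cut.of [[⟨3, 0, 0, 1449551462⟩], [⟨0, 1, 0, 67108864⟩, ⟨1, 0, 0, 67108864⟩, ⟨2, 1, 0, 67108864⟩]]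

noncomputable def f_mm_202 : ℕ → ℕ → ℕ → ℕ → Bool := onCell 0 536870912 0 536870912 740881858 40050571
    (rowB 3 eng mog cd0q2 cd5q2 pd0 1 false false false .pp 2 0 2 (qsf 0 536870912 1073741824 536870912 0) ndB0q2 ndB5q2 pcB0 cut_mm_202 Ext.none)

def k0_mm_202 : ∃ t, chk3 f_mm_202 t 1 1 1 = true :=
  ⟨(a (b (b (a (b (b (a (l 16224760) (l 16278336)) (l 16444608)) (a (l 16537888) (b (l 16410296) (a (l 16454688) (l 16473944))))) (b (a (b (l 16334816) (l 16463648)) (b (a (l 16379096) (l 16517592)) (a (l 16438936) (l 16462224)))) (a (b (a (l 16446168) (l 16466816)) (l 16504752)) (a (l 16511856) (l 16554112))))) (a (b (a (b (a (l 16462704) (l 16479472)) (l 16508240)) (l 16565128)) (b (a (l 16542848) (l 16428016)) (a (l 16575728) (b (l 16599448) (l 16615216))))) (b (a (b (l 16544624) (l 16601240)) (b (a (l 16575984) (l 6)) (l 6))) (a (b (a (l 16581880) (l 6)) (l 6)) (l 6))))) (a (b (b (b (a (l 16606056) (a (l 16628368) (l 16708920))) (a (a (l 16625840)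 (l 16639456)) (l 16726712))) (a (b (l 16656416) (l 16679848)) (l 6))) (l 2)) (l 6))) (b (b (a (b (a (a (b (b (l 16431888) (l 16456656)) (l 16492272)) (l 6)) (l 6)) (l 6)) (l 6)) (l 6)) (l 6))), by decide +kernel⟩

theorem c_mm_202 : CertB 0 536870912 1073741824 536870912 740881858 40050571 3 eng mog cd0q2 cd5q2 pd0 false false false .pp 2 0 2
    ndB0q2 ndB5q2 pcB0 cut_mm_202 Ext.none :=
  certB1 (fam := false) (s1 := false) (s2 := false) (a := 2) (b := 0) (c := 2) (cn := .pp) (n1 := ndB0q2) (n2 := ndB5q2) (pc := pcB0) (cut := cut_mm_202) (xt := Ext.none) (P1 := 0) (W1 := 536870912) (P2 := 1073741824) (W2 := 536870912) (P3 := 740881858) (W3 := 40050571) (N0 := 3) (En := eng) (mo := mog) (C1 := cd0q2) (C2 := cd5q2) (C3 := pd0)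
    rfl (fun _ => rfl) k0_mm_202

noncomputable def cut_mm_203 : Cut := Cut.of [[⟨3, 0, 0, 1449551462⟩]]

noncomputable def f_mm_203 : ℕ → ℕ → ℕ → ℕ → Bool := onCell 0 536870912 0 1230186008 740881858 40050571
    (rowB 3 eng mog cd0q2 cd5q3 pd0 0 false false false .up 2 0 3 (qsf 0 536870912 0 1230186008 0) ndB0q2 ndB5q3 pcB0 cut_mm_203 Ext.none)

def k0_mm_203 : ∃ t, chk3 f_mm_203 t 1 1 1 = true :=
  ⟨(b (l 2) (b (l 2) (a (b (l 6) (a (b (l 6) (a (b (l 6) (l 16683208)) (l 6))) (l 6))) (l 3)))), by decide +kernel⟩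

theorem c_mm_203 : CertB 0 536870912 0 1230186008 740881858 40050571 3 eng mog cd0q2 cd5q3 pd0 false false false .up 2 0 3
    ndB0q2 ndB5q3 pcB0 cut_mm_203 Ext.none :=
  certB0 (fam := false) (s1 := false) (s2 := false) (a := 2) (b := 0) (c := 3) (cn := .up) (n1 := ndB0q2) (n2 := ndB5q3) (pc := pcB0) (cut := cut_mm_203) (xt := Ext.none) (P1 := 0) (W1 := 536870912) (P2 := 0) (W2 := 1230186008) (P3 := 740881858) (W3 := 40050571) (N0 := 3) (En := eng) (mo := mog) (C1 := cd0q2) (C2 := cd5q3) (C3 := pd0)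
    rfl k0_mm_203

noncomputable def cut_mm_213 : Cut := Cut.of [[⟨3, 0, 0, 1449551462⟩]]

noncomputable def f_mm_213 : ℕ → ℕ → ℕ → ℕ → Bool := onCell 0 536870912 0 1230186008 740881858 40050571
    (rowB 3 eng mog cd0q2 cd5q3 pd1 0 false false false .pnn 2 1 3 (qsf 0 536870912 0 1230186008 1) ndB0q2 ndB5q3 pcB1 cut_mm_213 Ext.none)

def k0_mm_213 : ∃ t, chk3 f_mm_213 t 1 1 1 = true :=
  ⟨(b (l 6) (b (l 6) (a (b (l 6) (b (l 6) (l 1))) (l 3)))), by decide +kernel⟩

theorem c_mm_213 : CertB 0 536870912 0 1230186008 740881858 40050571 3 eng mog cd0q2 cd5q3 pd1 false false false .pnn 2 1 3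
    ndB0q2 ndB5q3 pcB1 cut_mm_213 Ext.none :=
  certB0 (fam := false) (s1 := false) (s2 := false) (a := 2) (b := 1) (c := 3) (cn := .pnn) (n1 := ndB0q2) (n2 := ndB5q3) (pc := pcB1) (cut := cut_mm_213) (xt := Ext.none) (P1 := 0) (W1 := 536870912) (P2 := 0) (W2 := 1230186008) (P3 := 740881858) (W3 := 40050571) (N0 := 3) (En := eng) (mo := mog) (C1 := cd0q2) (C2 := cd5q3) (C3 := pd1)
    rfl k0_mm_213

end Pool.Agent.Strip051.G.I69_7273.Tab.C.BB05

namespace Pool.Agent.Strip051.G.I69_7273.Tab.C.BB10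

open Pool.Agent.Strip051.PB Pool.Agent.Strip051.PB.T
open Pool.Agent.Strip051.G.I69_7273.Tab

noncomputable def f_pp_001 : ℕ → ℕ → ℕ → ℕ → Bool := onCell 0 536870912 0 536870912 740881858 40050571
    (rowB 3 eng mog cd1q0 cd0q1 pd0 1 false true true .up 0 0 1 (qsf 0 536870912 536870912 536870912 0) ndB1q0 ndB0q1 pcB0 Cut.none Ext.none)

def k0_pp_001 : ∃ t, chk3 f_pp_001 t 1 1 1 = true :=
  ⟨(l 3), by decide +kernel⟩

theorem c_pp_001 : CertB 0 536870912 536870912 536870912 740881858 40050571 3 eng mog cd1q0 cd0q1 pd0 false true true .up 0 0 1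
    ndB1q0 ndB0q1 pcB0 Cut.none Ext.none :=
  certB1 (fam := false) (s1 := true) (s2 := true) (a := 0) (b := 0) (c := 1) (cn := .up) (n1 := ndB1q0) (n2 := ndB0q1) (pc := pcB0) (cut := Cut.none) (xt := Ext.none) (P1 := 0) (W1 := 536870912) (P2 := 536870912) (W2 := 536870912) (P3 := 740881858) (W3 := 40050571) (N0 := 3) (En := eng) (mo := mog) (C1 := cd1q0) (C2 := cd0q1) (C3 := pd0)
    rfl (fun _ => rfl) k0_pp_001

noncomputable def cut_pp_011 : Cut := Cut.of [[⟨0, 0, 0, 67108864⟩, ⟨1, 1, 0, 67108864⟩, ⟨2, 1, 0, 67108864⟩]]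

noncomputable def f_pp_011 : ℕ → ℕ → ℕ → ℕ → Bool := onCell 0 536870912 536870912 536870912 740881858 40050571
    (rowB 3 eng mog cd1q0 cd0q1 pd1 0 false true true .pnn 0 1 1 (qsf 0 536870912 536870912 536870912 1) ndB1q0 ndB0q1 pcB1 cut_pp_011 Ext.none)

def k0_pp_011 : ∃ t, chk3 f_pp_011 t 1 1 1 = true :=
  ⟨(a (b (l 3) (b (l 3) (a (b (l 3) (a (b (l 3) (a (b (l 3) (l 6)) (l 3))) (l 3))) (l 3)))) (l 3)), by decide +kernel⟩

theorem c_pp_011 : CertB 0 536870912 536870912 536870912 740881858 40050571 3 eng mog cd1q0 cd0q1 pd1 false true true .pnn 0 1 1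
    ndB1q0 ndB0q1 pcB1 cut_pp_011 Ext.none :=
  certB0 (fam := false) (s1 := true) (s2 := true) (a := 0) (b := 1) (c := 1) (cn := .pnn) (n1 := ndB1q0) (n2 := ndB0q1) (pc := pcB1) (cut := cut_pp_011) (xt := Ext.none) (P1 := 0) (W1 := 536870912) (P2 := 536870912) (W2 := 536870912) (P3 := 740881858) (W3 := 40050571) (N0 := 3) (En := eng) (mo := mog) (C1 := cd1q0) (C2 := cd0q1) (C3 := pd1)
    rfl k0_pp_011

end Pool.Agent.Strip051.G.I69_7273.Tab.C.BB10

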