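import Pool.Agent.Strip051.G.I69_7273.AsmD
import Pool.Agent.Strip051.G.I69_7273.TrB11
import Pool.Agent.Strip051.G.I69_7273.TrB12
import Pool.Agent.Strip051.G.I69_7273.TrB13
import Pool.Agent.Strip051.G.I69_7273.TrB14
import Pool.Agent.Strip051.G.I69_7273.TrB15
import Pool.Agent.Strip051.G.I69_7273.TrB16
import Pool.Agent.Strip051.G.I69_7273.TrB17
import Pool.Agent.Strip051.G.I69_7273.TrB18
import Pool.Agent.Strip051.G.I69_7273.TrB19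
import Pool.Agent.Strip051.G.I69_7273.Crn12B
import Pool.Agent.Strip051.G.I69_7273.Crn12C
import Pool.Agent.Strip051.G.I69_7273.CrnE_1
import Pool.Agent.Strip051.G.I69_7273.CrnE_2
import Pool.Agent.Strip051.G.I69_7273.MolT
import Pool.Agent.Strip051.G.I69_7273.StE1
import Pool.Agent.Strip051.G.I69_7273.StE2

/-! # Rows from certificates (generated) -/

set_option linter.all false
set_option maxRecDepth 100000

namespace Pool.Agent.Strip051.G.I69_7273.Tab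

open Pool.Agent.Strip051.PB Pool.Agent.StripNear Pool.Agent.Strip051.LC

theorem BB00_pp_001 {κ x : ℝ} (hκ : κ * h0 = ken x) (hx : ((740881858 : ℕ) : ℝ) / S ≤ x) (hx' : x ≤ (((740881858 : ℕ) : ℝ) + (40050571 : ℕ)) / S) :
    TriB PP.cur (VE (h0 * 0) 3 κ (h0 * x) (eng.v x) (h0 * (1 / 20)) (tnt (h0 * x) (1 / 5)) (tbl tK x) (tbl tL x) (tbl (smT h0⁻¹ tC) x)) 0 0 1 0 0 1 1 :=
  (sideB hx hx').bothB (thrB hx hx') (en_pos (hx1 hx).le) (Or.inl rfl) (Or.inl rfl) fun y y' F =>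
    bothB_cert (s1 := true) (s2 := true) rfl hκ (en_pos (hx1 hx).le) (esg_rng (hx1 hx).le (hx2 hx').le).1 (mo_v x) covB00 covB01 hx hx'
        Pool.Agent.Strip051.G.I69_7273.Tab.C.BB00.c_pp_001 (cutEB_cons (Pool.Agent.Strip051.G.I69_7273.Tab.SE.se_B00pp_001_s hκ hx hx' cutEB_nil) (cutEB_cons (Pool.Agent.Strip051.G.I69_7273.Tab.SE.se_B00pp_001_t hκ hx hx' cutEB_nil) cutEB_nil)) noExt_EB F trivial trivial

theorem BB00_pp_011 {κ x : ℝ} (hκ : κ * h0 = ken x) (hx : ((740881858 : ℕ) : ℝ) / S ≤ x) (hx' : x ≤ (((740881858 : ℕ) : ℝ) + (40050571 : ℕ)) / S) :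
    TriB PP.cur (VE (h0 * 0) 3 κ (h0 * x) (eng.v x) (h0 * (1 / 20)) (tnt (h0 * x) (1 / 5)) (tbl tK x) (tbl tL x) (tbl (smT h0⁻¹ tC) x)) 0 1 1 0 0 1 1 :=
  (sideB hx hx').bothB (thrB hx hx') (en_pos (hx1 hx).le) (Or.inl rfl) (Or.inl rfl) fun y y' F =>
    bothB_cert (s1 := true) (s2 := true) rfl hκ (en_pos (hx1 hx).le) (esg_rng (hx1 hx).le (hx2 hx').le).1 (mo_v x) covB00 covB01 hx hx'
        Pool.Agent.Strip051.G.I69_7273.Tab.C.BB00.c_pp_011 (cutEB_cons (Pool.Agent.Strip051.G.I69_7273.Tab.SE.se_B00pp_011_s hκ hx hx' (cutEB_cons (Pool.Agent.Strip051.G.I69_7273.Tab.altB_B011E_00 hκ hx hx') cutEB_nil)) (cutEB_cons (Pool.Agent.Strip051.G.I69_7273.Tab.SE.se_B00pp_011_t hκ hx hx' (cutEB_cons (Pool.Agent.Strip051.G.I69_7273.Tab.altB_B011E_00 hκ hx hx') cutEB_nil)) (cutEB_cons (Pool.Agent.Strip051.G.I69_7273.Tab.altB_B011E_00 hκ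 hx hx') cutEB_nil))) noExt_EB F trivial trivial

theorem BB00_pp_012 {κ x : ℝ} (hκ : κ * h0 = ken x) (hx : ((740881858 : ℕ) : ℝ) / S ≤ x) (hx' : x ≤ (((740881858 : ℕ) : ℝ) + (40050571 : ℕ)) / S) :
    TriB PP.cur (VE (h0 * 0) 3 κ (h0 * x) (eng.v x) (h0 * (1 / 20)) (tnt (h0 * x) (1 / 5)) (tbl tK x) (tbl tL x) (tbl (smT h0⁻¹ tC) x)) 0 1 2 0 0 1 1 :=
  (sideB hx hx').bothB (thrB hx hx') (en_pos (hx1 hx).le) (Or.inl rfl) (Or.inl rfl) fun y y' F =>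
    bothB_cert (s1 := true) (s2 := true) rfl hκ (en_pos (hx1 hx).le) (esg_rng (hx1 hx).le (hx2 hx').le).1 (mo_v x) covB00 covB02 hx hx'
        Pool.Agent.Strip051.G.I69_7273.Tab.C.BB00.c_pp_012 (cutEB_cons (Pool.Agent.Strip051.G.I69_7273.Tab.SE.se_B00pp_012_s hκ hx hx' (cutEB_cons (Pool.Agent.Strip051.G.I69_7273.Tab.altB_B012E_00 hκ hx hx') cutEB_nil)) (cutEB_cons (Pool.Agent.Strip051.G.I69_7273.Tab.SE.se_B00pp_012_t hκ hx hx' (cutEB_cons (Pool.Agent.Strip051.G.I69_7273.Tab.altB_B012E_00 hκ hx hx') cutEB_nil)) (cutEB_cons (Pool.Agent.Strip051.G.I69_7273.Tab.altB_B012E_00 hκ hx hx') cutEB_nil))) noExt_EB F trivial trivial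

theorem BB00_pp_022 {κ x : ℝ} (hκ : κ * h0 = ken x) (hx : ((740881858 : ℕ) : ℝ) / S ≤ x) (hx' : x ≤ (((740881858 : ℕ) : ℝ) + (40050571 : ℕ)) / S) :
    TriB PP.cur (VE (h0 * 0) 3 κ (h0 * x) (eng.v x) (h0 * (1 / 20)) (tnt (h0 * x) (1 / 5)) (tbl tK x) (tbl tL x) (tbl (smT h0⁻¹ tC) x)) 0 2 2 0 0 1 1 :=
  (sideB hx hx').bothB (thrB hx hx') (en_pos (hx1 hx).le) (Or.inl rfl) (Or.inl rfl) fun y y' F =>
    bothB_cert (s1 := true) (s2 := true) rfl hκ (en_pos (hx1 hx).le) (esg_rng (hx1 hx).le (hx2 hx').le).1 (mo_v x) covB00 covB02 hx hx'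
        Pool.Agent.Strip051.G.I69_7273.Tab.C.BB00.c_pp_022 (cutEB_cons (Pool.Agent.Strip051.G.I69_7273.Tab.SE.se_B00pp_022_s hκ hx hx' (cutEB_cons (Pool.Agent.Strip051.G.I69_7273.Tab.altB_B022E_00 hκ hx hx') cutEB_nil)) (cutEB_cons (Pool.Agent.Strip051.G.I69_7273.Tab.SE.se_B00pp_022_t hκ hx hx' (cutEB_cons (Pool.Agent.Strip051.G.I69_7273.Tab.altB_B022E_00 hκ hx hx') cutEB_nil)) (cutEB_cons (Pool.Agent.Strip051.G.I69_7273.Tab.altB_B022E_00 hκ hx hx') cutEB_nil))) noExt_EB F trivial trivial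

theorem BB00_pp_023 {κ x : ℝ} (hκ : κ * h0 = ken x) (hx : ((740881858 : ℕ) : ℝ) / S ≤ x) (hx' : x ≤ (((740881858 : ℕ) : ℝ) + (40050571 : ℕ)) / S) :
    TriB PP.cur (VE (h0 * 0) 3 κ (h0 * x) (eng.v x) (h0 * (1 / 20)) (tnt (h0 * x) (1 / 5)) (tbl tK x) (tbl tL x) (tbl (smT h0⁻¹ tC) x)) 0 2 3 0 0 1 1 :=
  triB_k0

theorem BB00_pp_033 {κ x : ℝ} (hκ : κ * h0 = ken x) (hx : ((740881858 : ℕ) : ℝ) / S ≤ x) (hx' : x ≤ (((740881858 : ℕ) : ℝ) + (40050571 : ℕ)) / S) :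
    TriB PP.cur (VE (h0 * 0) 3 κ (h0 * x) (eng.v x) (h0 * (1 / 20)) (tnt (h0 * x) (1 / 5)) (tbl tK x) (tbl tL x) (tbl (smT h0⁻¹ tC) x)) 0 3 3 0 0 1 1 :=
  triB_k0

theorem BB00_pp_101 {κ x : ℝ} (hκ : κ * h0 = ken x) (hx : ((740881858 : ℕ) : ℝ) / S ≤ x) (hx' : x ≤ (((740881858 : ℕ) : ℝ) + (40050571 : ℕ)) / S) :
    TriB PP.cur (VE (h0 * 0) 3 κ (h0 * x) (eng.v x) (h0 * (1 / 20)) (tnt (h0 * x) (1 / 5)) (tbl tK x) (tbl tL x) (tbl (smT h0⁻¹ tC) x)) 1 0 1 0 0 1 1 :=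
  (sideB hx hx').bothB (thrB hx hx') (en_pos (hx1 hx).le) (Or.inl rfl) (Or.inl rfl) fun y y' F =>
    bothB_cert (s1 := true) (s2 := true) rfl hκ (en_pos (hx1 hx).le) (esg_rng (hx1 hx).le (hx2 hx').le).1 (mo_v x) covB01 covB01 hx hx'
        Pool.Agent.Strip051.G.I69_7273.Tab.C.BB00.c_pp_101 (cutEB_cons (Pool.Agent.Strip051.G.I69_7273.Tab.SE.se_B00pp_101_s hκ hx hx' cutEB_nil) (cutEB_cons (Pool.Agent.Strip051.G.I69_7273.Tab.SE.se_B00pp_101_t hκ hx hx' cutEB_nil) cutEB_nil)) noExt_EB F trivial trivial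

theorem BB00_pp_102 {κ x : ℝ} (hκ : κ * h0 = ken x) (hx : ((740881858 : ℕ) : ℝ) / S ≤ x) (hx' : x ≤ (((740881858 : ℕ) : ℝ) + (40050571 : ℕ)) / S) :
    TriB PP.cur (VE (h0 * 0) 3 κ (h0 * x) (eng.v x) (h0 * (1 / 20)) (tnt (h0 * x) (1 / 5)) (tbl tK x) (tbl tL x) (tbl (smT h0⁻¹ tC) x)) 1 0 2 0 0 1 1 :=
  (sideB hx hx').bothB (thrB hx hx') (en_pos (hx1 hx).le) (Or.inl rfl) (Or.inl rfl) fun y y' F =>
    bothB_cert (s1 := true) (s2 := true) rfl hκ (en_pos (hx1 hx).le) (esg_rng (hx1 hx).le (hx2 hx').le).1 (mo_v x) covB01 covB02 hx hx'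
        Pool.Agent.Strip051.G.I69_7273.Tab.C.BB00.c_pp_102 (cutEB_cons (Pool.Agent.Strip051.G.I69_7273.Tab.SE.se_B00pp_102_s hκ hx hx' cutEB_nil) (cutEB_cons (Pool.Agent.Strip051.G.I69_7273.Tab.SE.se_B00pp_102_t hκ hx hx' cutEB_nil) cutEB_nil)) noExt_EB F trivial trivial

theorem BB00_pp_112 {κ x : ℝ} (hκ : κ * h0 = ken x) (hx : ((740881858 : ℕ) : ℝ) / S ≤ x) (hx' : x ≤ (((740881858 : ℕ) : ℝ) + (40050571 : ℕ)) / S) :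
    TriB PP.cur (VE (h0 * 0) 3 κ (h0 * x) (eng.v x) (h0 * (1 / 20)) (tnt (h0 * x) (1 / 5)) (tbl tK x) (tbl tL x) (tbl (smT h0⁻¹ tC) x)) 1 1 2 0 0 1 1 :=
  (sideB hx hx').bothB (thrB hx hx') (en_pos (hx1 hx).le) (Or.inl rfl) (Or.inl rfl) fun y y' F =>
    bothB_cert (s1 := true) (s2 := true) rfl hκ (en_pos (hx1 hx).le) (esg_rng (hx1 hx).le (hx2 hx').le).1 (mo_v x) covB01 covB02 hx hx'
        Pool.Agent.Strip051.G.I69_7273.Tab.C.BB00.c_pp_112 (cutEB_cons (Pool.Agent.Strip051.G.I69_7273.Tab.SE.se_B00pp_112_s hκ hx hx' cutEB_nil) (cutEB_cons (Pool.Agent.Strip051.G.I69_7273.Tab.SE.se_B00pp_112_t hκ hx hx' cutEB_nil) cutEB_nil)) noExt_EB F trivial trivial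

theorem BB00_pp_113 {κ x : ℝ} (hκ : κ * h0 = ken x) (hx : ((740881858 : ℕ) : ℝ) / S ≤ x) (hx' : x ≤ (((740881858 : ℕ) : ℝ) + (40050571 : ℕ)) / S) :
    TriB PP.cur (VE (h0 * 0) 3 κ (h0 * x) (eng.v x) (h0 * (1 / 20)) (tnt (h0 * x) (1 / 5)) (tbl tK x) (tbl tL x) (tbl (smT h0⁻¹ tC) x)) 1 1 3 0 0 1 1 :=
  triB_k0

theorem BB00_pp_123 {κ x : ℝ} (hκ : κ * h0 = ken x) (hx : ((740881858 : ℕ) : ℝ) / S ≤ x) (hx' : x ≤ (((740881858 : ℕ) : ℝ) + (40050571 : ℕ)) / S) :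
    TriB PP.cur (VE (h0 * 0) 3 κ (h0 * x) (eng.v x) (h0 * (1 / 20)) (tnt (h0 * x) (1 / 5)) (tbl tK x) (tbl tL x) (tbl (smT h0⁻¹ tC) x)) 1 2 3 0 0 1 1 :=
  triB_k0

theorem BB00_pp_133 {κ x : ℝ} (hκ : κ * h0 = ken x) (hx : ((740881858 : ℕ) : ℝ) / S ≤ x) (hx' : x ≤ (((740881858 : ℕ) : ℝ) + (40050571 : ℕ)) / S) :
    TriB PP.cur (VE (h0 * 0) 3 κ (h0 * x) (eng.v x) (h0 * (1 / 20)) (tnt (h0 * x) (1 / 5)) (tbl tK x) (tbl tL x) (tbl (smT h0⁻¹ tC) x)) 1 3 3 0 0 1 1 :=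
  triB_k0

theorem BB00_pp_202 {κ x : ℝ} (hκ : κ * h0 = ken x) (hx : ((740881858 : ℕ) : ℝ) / S ≤ x) (hx' : x ≤ (((740881858 : ℕ) : ℝ) + (40050571 : ℕ)) / S) :
    TriB PP.cur (VE (h0 * 0) 3 κ (h0 * x) (eng.v x) (h0 * (1 / 20)) (tnt (h0 * x) (1 / 5)) (tbl tK x) (tbl tL x) (tbl (smT h0⁻¹ tC) x)) 2 0 2 0 0 1 1 :=
  (sideB hx hx').bothB (thrB hx hx') (en_pos (hx1 hx).le) (Or.inl rfl) (Or.inl rfl) fun y y' F =>
    bothB_cert (s1 := true) (s2 := true) rfl hκ (en_pos (hx1 hx).le) (esg_rng (hx1 hx).le (hx2 hx').le).1 (mo_v x) covB02 covB02 hx hx'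
        Pool.Agent.Strip051.G.I69_7273.Tab.C.BB00.c_pp_202 (cutEB_cons (Pool.Agent.Strip051.G.I69_7273.Tab.SE.se_B00pp_202_s hκ hx hx' cutEB_nil) (cutEB_cons (Pool.Agent.Strip051.G.I69_7273.Tab.SE.se_B00pp_202_t hκ hx hx' cutEB_nil) cutEB_nil)) noExt_EB F trivial trivial

theorem BB00_pp_203 {κ x : ℝ} (hκ : κ * h0 = ken x) (hx : ((740881858 : ℕ) : ℝ) / S ≤ x) (hx' : x ≤ (((740881858 : ℕ) : ℝ) + (40050571 : ℕ)) / S) :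
    TriB PP.cur (VE (h0 * 0) 3 κ (h0 * x) (eng.v x) (h0 * (1 / 20)) (tnt (h0 * x) (1 / 5)) (tbl tK x) (tbl tL x) (tbl (smT h0⁻¹ tC) x)) 2 0 3 0 0 1 1 :=
  triB_k0

theorem BB00_pp_213 {κ x : ℝ} (hκ : κ * h0 = ken x) (hx : ((740881858 : ℕ) : ℝ) / S ≤ x) (hx' : x ≤ (((740881858 : ℕ) : ℝ) + (40050571 : ℕ)) / S) :
    TriB PP.cur (VE (h0 * 0) 3 κ (h0 * x) (eng.v x) (h0 * (1 / 20)) (tnt (h0 * x) (1 / 5)) (tbl tK x) (tbl tL x) (tbl (smT h0⁻¹ tC) x)) 2 1 3 0 0 1 1 :=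
  triB_k0

theorem BB00_pp_303 {κ x : ℝ} (hκ : κ * h0 = ken x) (hx : ((740881858 : ℕ) : ℝ) / S ≤ x) (hx' : x ≤ (((740881858 : ℕ) : ℝ) + (40050571 : ℕ)) / S) :
    TriB PP.cur (VE (h0 * 0) 3 κ (h0 * x) (eng.v x) (h0 * (1 / 20)) (tnt (h0 * x) (1 / 5)) (tbl tK x) (tbl tL x) (tbl (smT h0⁻¹ tC) x)) 3 0 3 0 0 1 1 :=
  triB_j0

theorem BB00_pp_313 {κ x : ℝ} (hκ : κ * h0 = ken x) (hx : ((740881858 : ℕ) : ℝ) / S ≤ x) (hx' : x ≤ (((740881858 : ℕ) : ℝ) + (40050571 : ℕ)) / S) :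
    TriB PP.cur (VE (h0 * 0) 3 κ (h0 * x) (eng.v x) (h0 * (1 / 20)) (tnt (h0 * x) (1 / 5)) (tbl tK x) (tbl tL x) (tbl (smT h0⁻¹ tC) x)) 3 1 3 0 0 1 1 :=
  triB_j0

theorem BB00_pm_001 {κ x : ℝ} (hκ : κ * h0 = ken x) (hx : ((740881858 : ℕ) : ℝ) / S ≤ x) (hx' : x ≤ (((740881858 : ℕ) : ℝ) + (40050571 : ℕ)) / S) :
    TriB PP.cur (VE (h0 * 0) 3 κ (h0 * x) (eng.v x) (h0 * (1 / 20)) (tnt (h0 * x) (1 / 5)) (tbl tK x) (tbl tL x) (tbl (smT h0⁻¹ tC) x)) 0 0 1 0 0 1 (-1) :=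
  (sideB hx hx').bothB (thrB hx hx') (en_pos (hx1 hx).le) (Or.inl rfl) (Or.inr rfl) fun y y' F =>
    bothB_cert (s1 := true) (s2 := false) rfl hκ (en_pos (hx1 hx).le) (esg_rng (hx1 hx).le (hx2 hx').le).1 (mo_v x) covB00 covB01 hx hx'
        Pool.Agent.Strip051.G.I69_7273.Tab.C.BB00.c_pm_001 (cutEB_cons (Pool.Agent.Strip051.G.I69_7273.Tab.SE.se_B00pm_001_s hκ hx hx' cutEB_nil) (cutEB_cons (Pool.Agent.Strip051.G.I69_7273.Tab.SE.se_B00pm_001_t hκ hx hx' cutEB_nil) cutEB_nil)) noExt_EB F trivial trivial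

theorem BB00_pm_011 {κ x : ℝ} (hκ : κ * h0 = ken x) (hx : ((740881858 : ℕ) : ℝ) / S ≤ x) (hx' : x ≤ (((740881858 : ℕ) : ℝ) + (40050571 : ℕ)) / S) :
    TriB PP.cur (VE (h0 * 0) 3 κ (h0 * x) (eng.v x) (h0 * (1 / 20)) (tnt (h0 * x) (1 / 5)) (tbl tK x) (tbl tL x) (tbl (smT h0⁻¹ tC) x)) 0 1 1 0 0 1 (-1) :=
  (sideB hx hx').bothB (thrB hx hx') (en_pos (hx1 hx).le) (Or.inl rfl) (Or.inr rfl) fun y y' F =>
    bothB_cert (s1 := true) (s2 := false) rfl hκ (en_pos (hx1 hx).le) (esg_rng (hx1 hx).le (hx2 hx').le).1 (mo_v x) covB00 covB01 hx hx'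
        Pool.Agent.Strip051.G.I69_7273.Tab.C.BB00.c_pm_011 (cutEB_cons (Pool.Agent.Strip051.G.I69_7273.Tab.SE.se_B00pm_011_s hκ hx hx' (cutEB_cons (Pool.Agent.Strip051.G.I69_7273.Tab.altB_B011R_00 hκ hx hx') cutEB_nil)) (cutEB_cons (Pool.Agent.Strip051.G.I69_7273.Tab.SE.se_B00pm_011_t hκ hx hx' (cutEB_cons (Pool.Agent.Strip051.G.I69_7273.Tab.altB_B011R_00 hκ hx hx') cutEB_nil)) (cutEB_cons (Pool.Agent.Strip051.G.I69_7273.Tab.altB_B011R_00 hκ hx hx') cutEB_nil))) noExt_EB F trivial trivial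

theorem BB00_pm_012 {κ x : ℝ} (hκ : κ * h0 = ken x) (hx : ((740881858 : ℕ) : ℝ) / S ≤ x) (hx' : x ≤ (((740881858 : ℕ) : ℝ) + (40050571 : ℕ)) / S) :
    TriB PP.cur (VE (h0 * 0) 3 κ (h0 * x) (eng.v x) (h0 * (1 / 20)) (tnt (h0 * x) (1 / 5)) (tbl tK x) (tbl tL x) (tbl (smT h0⁻¹ tC) x)) 0 1 2 0 0 1 (-1) :=
  (sideB hx hx').bothB (thrB hx hx') (en_pos (hx1 hx).le) (Or.inl rfl) (Or.inr rfl) fun y y' F =>
    bothB_cert (s1 := true) (s2 := false) rfl hκ (en_pos (hx1 hx).le) (esg_rng (hx1 hx).le (hx2 hx').le).1 (mo_v x) covB00 covB02 hx hx'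
        Pool.Agent.Strip051.G.I69_7273.Tab.C.BB00.c_pm_012 (cutEB_cons (Pool.Agent.Strip051.G.I69_7273.Tab.SE.se_B00pm_012_s hκ hx hx' (cutEB_cons (Pool.Agent.Strip051.G.I69_7273.Tab.altB_B012R_00 hκ hx hx') cutEB_nil)) (cutEB_cons (Pool.Agent.Strip051.G.I69_7273.Tab.SE.se_B00pm_012_t hκ hx hx' (cutEB_cons (Pool.Agent.Strip051.G.I69_7273.Tab.altB_B012R_00 hκ hx hx') cutEB_nil)) (cutEB_cons (Pool.Agent.Strip051.G.I69_7273.Tab.altB_B012R_00 hκ hx hx') cutEB_nil))) noExt_EB F trivial trivial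

theorem BB00_pm_022 {κ x : ℝ} (hκ : κ * h0 = ken x) (hx : ((740881858 : ℕ) : ℝ) / S ≤ x) (hx' : x ≤ (((740881858 : ℕ) : ℝ) + (40050571 : ℕ)) / S) :
    TriB PP.cur (VE (h0 * 0) 3 κ (h0 * x) (eng.v x) (h0 * (1 / 20)) (tnt (h0 * x) (1 / 5)) (tbl tK x) (tbl tL x) (tbl (smT h0⁻¹ tC) x)) 0 2 2 0 0 1 (-1) :=
  (sideB hx hx').bothB (thrB hx hx') (en_pos (hx1 hx).le) (Or.inl rfl) (Or.inr rfl) fun y y' F =>
    bothB_cert (s1 := true) (s2 := false) rfl hκ (en_pos (hx1 hx).le) (esg_rng (hx1 hx).le (hx2 hx').le).1 (mo_v x) covB00 covB02 hx hx'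
        Pool.Agent.Strip051.G.I69_7273.Tab.C.BB00.c_pm_022 (cutEB_cons (Pool.Agent.Strip051.G.I69_7273.Tab.SE.se_B00pm_022_s hκ hx hx' (cutEB_cons (Pool.Agent.Strip051.G.I69_7273.Tab.altB_B022R_00 hκ hx hx') cutEB_nil)) (cutEB_cons (Pool.Agent.Strip051.G.I69_7273.Tab.SE.se_B00pm_022_t hκ hx hx' (cutEB_cons (Pool.Agent.Strip051.G.I69_7273.Tab.altB_B022R_00 hκ hx hx') cutEB_nil)) (cutEB_cons (Pool.Agent.Strip051.G.I69_7273.Tab.altB_B022R_00 hκ hx hx') cutEB_nil))) noExt_EB F trivial trivial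

theorem BB00_pm_023 {κ x : ℝ} (hκ : κ * h0 = ken x) (hx : ((740881858 : ℕ) : ℝ) / S ≤ x) (hx' : x ≤ (((740881858 : ℕ) : ℝ) + (40050571 : ℕ)) / S) :
    TriB PP.cur (VE (h0 * 0) 3 κ (h0 * x) (eng.v x) (h0 * (1 / 20)) (tnt (h0 * x) (1 / 5)) (tbl tK x) (tbl tL x) (tbl (smT h0⁻¹ tC) x)) 0 2 3 0 0 1 (-1) :=
  triB_k0

theorem BB00_pm_033 {κ x : ℝ} (hκ : κ * h0 = ken x) (hx : ((740881858 : ℕ) : ℝ) / S ≤ x) (hx' : x ≤ (((740881858 : ℕ) : ℝ) + (40050571 : ℕ)) / S) :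
    TriB PP.cur (VE (h0 * 0) 3 κ (h0 * x) (eng.v x) (h0 * (1 / 20)) (tnt (h0 * x) (1 / 5)) (tbl tK x) (tbl tL x) (tbl (smT h0⁻¹ tC) x)) 0 3 3 0 0 1 (-1) :=
  triB_k0

theorem BB00_pm_101 {κ x : ℝ} (hκ : κ * h0 = ken x) (hx : ((740881858 : ℕ) : ℝ) / S ≤ x) (hx' : x ≤ (((740881858 : ℕ) : ℝ) + (40050571 : ℕ)) / S) :
    TriB PP.cur (VE (h0 * 0) 3 κ (h0 * x) (eng.v x) (h0 * (1 / 20)) (tnt (h0 * x) (1 / 5)) (tbl tK x) (tbl tL x) (tbl (smT h0⁻¹ tC) x)) 1 0 1 0 0 1 (-1) :=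
  (sideB hx hx').bothB (thrB hx hx') (en_pos (hx1 hx).le) (Or.inl rfl) (Or.inr rfl) fun y y' F =>
    bothB_cert (s1 := true) (s2 := false) rfl hκ (en_pos (hx1 hx).le) (esg_rng (hx1 hx).le (hx2 hx').le).1 (mo_v x) covB01 covB01 hx hx'
        Pool.Agent.Strip051.G.I69_7273.Tab.C.BB00.c_pm_101 (cutEB_cons (Pool.Agent.Strip051.G.I69_7273.Tab.SE.se_B00pm_101_s hκ hx hx' (cutEB_cons (Pool.Agent.Strip051.G.I69_7273.Tab.altB_B101E_00 hκ hx hx') (cutEB_cons (Pool.Agent.Strip051.G.I69_7273.Tab.Mo.molE_B_101_00_0 hκ hx hx') cutEB_nil))) (cutEB_cons (Pool.Agent.Strip051.G.I69_7273.Tab.SE.se_B00pm_101_t hκ hx hx' (cutEB_cons (Pool.Agent.Strip051.G.I69_7273.Tab.altB_B101E_00 hκ hx hx') (cutEB_cons (Pool.Agent.Strip051.G.I69_7273.Tab.Mo.molE_B_101_00_0 hκ hx hx') cutEB_nil))) (cutEB_cons (Pool.Agent.Strip051.G.I69_7273.Tab.altB_B101E_00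 hκ hx hx') (cutEB_cons (Pool.Agent.Strip051.G.I69_7273.Tab.Mo.molE_B_101_00_0 hκ hx hx') cutEB_nil)))) (xdB0 hκ hx hx' rfl) F trivial trivial

theorem BB00_pm_102 {κ x : ℝ} (hκ : κ * h0 = ken x) (hx : ((740881858 : ℕ) : ℝ) / S ≤ x) (hx' : x ≤ (((740881858 : ℕ) : ℝ) + (40050571 : ℕ)) / S) :
    TriB PP.cur (VE (h0 * 0) 3 κ (h0 * x) (eng.v x) (h0 * (1 / 20)) (tnt (h0 * x) (1 / 5)) (tbl tK x) (tbl tL x) (tbl (smT h0⁻¹ tC) x)) 1 0 2 0 0 1 (-1) :=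
  (sideB hx hx').bothB (thrB hx hx') (en_pos (hx1 hx).le) (Or.inl rfl) (Or.inr rfl) fun y y' F =>
    bothB_cert (s1 := true) (s2 := false) rfl hκ (en_pos (hx1 hx).le) (esg_rng (hx1 hx).le (hx2 hx').le).1 (mo_v x) covB01 covB02 hx hx'
        Pool.Agent.Strip051.G.I69_7273.Tab.C.BB00.c_pm_102 (cutEB_cons (Pool.Agent.Strip051.G.I69_7273.Tab.SE.se_B00pm_102_s hκ hx hx' (cutEB_cons (Pool.Agent.Strip051.G.I69_7273.Tab.altB_B102E_00 hκ hx hx') (cutEB_cons (Pool.Agent.Strip051.G.I69_7273.Tab.Mo.molE_B_102_00_0 hκ hx hx') cutEB_nil))) (cutEB_cons (Pool.Agent.Strip051.G.I69_7273.Tab.SE.se_B00pm_102_t hκ hx hx' (cutEB_cons (Pool.Agent.Strip051.G.I69_7273.Tab.altB_B102E_00 hκ hx hx') (cutEB_cons (Pool.Agent.Strip051.G.I69_7273.Tab.Mo.molE_B_102_00_0 hκ hx hx') cutEB_nil))) (cutEB_cons (Pool.Agent.Strip051.G.I69_7273.Tab.altB_B102E_00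 hκ hx hx') (cutEB_cons (Pool.Agent.Strip051.G.I69_7273.Tab.Mo.molE_B_102_00_0 hκ hx hx') cutEB_nil)))) (xdB0 hκ hx hx' rfl) F trivial trivial

theorem BB00_pm_112 {κ x : ℝ} (hκ : κ * h0 = ken x) (hx : ((740881858 : ℕ) : ℝ) / S ≤ x) (hx' : x ≤ (((740881858 : ℕ) : ℝ) + (40050571 : ℕ)) / S) :
    TriB PP.cur (VE (h0 * 0) 3 κ (h0 * x) (eng.v x) (h0 * (1 / 20)) (tnt (h0 * x) (1 / 5)) (tbl tK x) (tbl tL x) (tbl (smT h0⁻¹ tC) x)) 1 1 2 0 0 1 (-1) :=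
  (sideB hx hx').bothB (thrB hx hx') (en_pos (hx1 hx).le) (Or.inl rfl) (Or.inr rfl) fun y y' F =>
    bothB_cert (s1 := true) (s2 := false) rfl hκ (en_pos (hx1 hx).le) (esg_rng (hx1 hx).le (hx2 hx').le).1 (mo_v x) covB01 covB02 hx hx'
        Pool.Agent.Strip051.G.I69_7273.Tab.C.BB00.c_pm_112 (cutEB_cons (Pool.Agent.Strip051.G.I69_7273.Tab.SE.se_B00pm_112_s hκ hx hx' cutEB_nil) (cutEB_cons (Pool.Agent.Strip051.G.I69_7273.Tab.SE.se_B00pm_112_t hκ hx hx' cutEB_nil) cutEB_nil)) noExt_EB F trivial trivial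

theorem BB00_pm_113 {κ x : ℝ} (hκ : κ * h0 = ken x) (hx : ((740881858 : ℕ) : ℝ) / S ≤ x) (hx' : x ≤ (((740881858 : ℕ) : ℝ) + (40050571 : ℕ)) / S) :
    TriB PP.cur (VE (h0 * 0) 3 κ (h0 * x) (eng.v x) (h0 * (1 / 20)) (tnt (h0 * x) (1 / 5)) (tbl tK x) (tbl tL x) (tbl (smT h0⁻¹ tC) x)) 1 1 3 0 0 1 (-1) :=
  triB_k0

theorem BB00_pm_123 {κ x : ℝ} (hκ : κ * h0 = ken x) (hx : ((740881858 : ℕ) : ℝ) / S ≤ x) (hx' : x ≤ (((740881858 : ℕ) : ℝ) + (40050571 : ℕ)) / S) :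
    TriB PP.cur (VE (h0 * 0) 3 κ (h0 * x) (eng.v x) (h0 * (1 / 20)) (tnt (h0 * x) (1 / 5)) (tbl tK x) (tbl tL x) (tbl (smT h0⁻¹ tC) x)) 1 2 3 0 0 1 (-1) :=
  triB_k0

theorem BB00_pm_133 {κ x : ℝ} (hκ : κ * h0 = ken x) (hx : ((740881858 : ℕ) : ℝ) / S ≤ x) (hx' : x ≤ (((740881858 : ℕ) : ℝ) + (40050571 : ℕ)) / S) :
    TriB PP.cur (VE (h0 * 0) 3 κ (h0 * x) (eng.v x) (h0 * (1 / 20)) (tnt (h0 * x) (1 / 5)) (tbl tK x) (tbl tL x) (tbl (smT h0⁻¹ tC) x)) 1 3 3 0 0 1 (-1) :=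
  triB_k0

theorem BB00_pm_202 {κ x : ℝ} (hκ : κ * h0 = ken x) (hx : ((740881858 : ℕ) : ℝ) / S ≤ x) (hx' : x ≤ (((740881858 : ℕ) : ℝ) + (40050571 : ℕ)) / S) :
    TriB PP.cur (VE (h0 * 0) 3 κ (h0 * x) (eng.v x) (h0 * (1 / 20)) (tnt (h0 * x) (1 / 5)) (tbl tK x) (tbl tL x) (tbl (smT h0⁻¹ tC) x)) 2 0 2 0 0 1 (-1) :=
  (sideB hx hx').bothB (thrB hx hx') (en_pos (hx1 hx).le) (Or.inl rfl) (Or.inr rfl) fun y y' F =>
    bothB_cert (s1 := true) (s2 := false) rfl hκ (en_pos (hx1 hx).le) (esg_rng (hx1 hx).le (hx2 hx').le).1 (mo_v x) covB02 covB02 hx hx'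
        Pool.Agent.Strip051.G.I69_7273.Tab.C.BB00.c_pm_202 (cutEB_cons (Pool.Agent.Strip051.G.I69_7273.Tab.SE.se_B00pm_202_s hκ hx hx' (cutEB_cons (Pool.Agent.Strip051.G.I69_7273.Tab.altB_B202E_00 hκ hx hx') cutEB_nil)) (cutEB_cons (Pool.Agent.Strip051.G.I69_7273.Tab.SE.se_B00pm_202_t hκ hx hx' (cutEB_cons (Pool.Agent.Strip051.G.I69_7273.Tab.altB_B202E_00 hκ hx hx') cutEB_nil)) (cutEB_cons (Pool.Agent.Strip051.G.I69_7273.Tab.altB_B202E_00 hκ hx hx') cutEB_nil))) noExt_EB F trivial trivial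

theorem BB00_pm_203 {κ x : ℝ} (hκ : κ * h0 = ken x) (hx : ((740881858 : ℕ) : ℝ) / S ≤ x) (hx' : x ≤ (((740881858 : ℕ) : ℝ) + (40050571 : ℕ)) / S) :
    TriB PP.cur (VE (h0 * 0) 3 κ (h0 * x) (eng.v x) (h0 * (1 / 20)) (tnt (h0 * x) (1 / 5)) (tbl tK x) (tbl tL x) (tbl (smT h0⁻¹ tC) x)) 2 0 3 0 0 1 (-1) :=
  triB_k0

theorem BB00_pm_213 {κ x : ℝ} (hκ : κ * h0 = ken x) (hx : ((740881858 : ℕ) : ℝ) / S ≤ x) (hx' : x ≤ (((740881858 : ℕ) : ℝ) + (40050571 : ℕ)) / S) :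
    TriB PP.cur (VE (h0 * 0) 3 κ (h0 * x) (eng.v x) (h0 * (1 / 20)) (tnt (h0 * x) (1 / 5)) (tbl tK x) (tbl tL x) (tbl (smT h0⁻¹ tC) x)) 2 1 3 0 0 1 (-1) :=
  triB_k0

theorem BB00_pm_303 {κ x : ℝ} (hκ : κ * h0 = ken x) (hx : ((740881858 : ℕ) : ℝ) / S ≤ x) (hx' : x ≤ (((740881858 : ℕ) : ℝ) + (40050571 : ℕ)) / S) :
    TriB PP.cur (VE (h0 * 0) 3 κ (h0 * x) (eng.v x) (h0 * (1 / 20)) (tnt (h0 * x) (1 / 5)) (tbl tK x) (tbl tL x) (tbl (smT h0⁻¹ tC) x)) 3 0 3 0 0 1 (-1) :=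
  triB_j0

theorem BB00_pm_313 {κ x : ℝ} (hκ : κ * h0 = ken x) (hx : ((740881858 : ℕ) : ℝ) / S ≤ x) (hx' : x ≤ (((740881858 : ℕ) : ℝ) + (40050571 : ℕ)) / S) :
    TriB PP.cur (VE (h0 * 0) 3 κ (h0 * x) (eng.v x) (h0 * (1 / 20)) (tnt (h0 * x) (1 / 5)) (tbl tK x) (tbl tL x) (tbl (smT h0⁻¹ tC) x)) 3 1 3 0 0 1 (-1) :=
  triB_j0

theorem BB00_mm_001 {κ x : ℝ} (hκ : κ * h0 = ken x) (hx : ((740881858 : ℕ) : ℝ) / S ≤ x) (hx' : x ≤ (((740881858 : ℕ) : ℝ) + (40050571 : ℕ)) / S) :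
    TriB PP.cur (VE (h0 * 0) 3 κ (h0 * x) (eng.v x) (h0 * (1 / 20)) (tnt (h0 * x) (1 / 5)) (tbl tK x) (tbl tL x) (tbl (smT h0⁻¹ tC) x)) 0 0 1 0 0 (-1) (-1) :=
  (sideB hx hx').bothB (thrB hx hx') (en_pos (hx1 hx).le) (Or.inr rfl) (Or.inr rfl) fun y y' F =>
    bothB_cert (s1 := false) (s2 := false) rfl hκ (en_pos (hx1 hx).le) (esg_rng (hx1 hx).le (hx2 hx').le).1 (mo_v x) covB00 covB01 hx hx'
        Pool.Agent.Strip051.G.I69_7273.Tab.C.BB00.c_mm_001 (cutEB_cons (Pool.Agent.Strip051.G.I69_7273.Tab.SE.se_B00mm_001_s hκ hx hx' cutEB_nil) (cutEB_cons (Pool.Agent.Strip051.G.I69_7273.Tab.SE.se_B00mm_001_t hκ hx hx' cutEB_nil) cutEB_nil)) noExt_EB F trivial trivial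

theorem BB00_mm_011 {κ x : ℝ} (hκ : κ * h0 = ken x) (hx : ((740881858 : ℕ) : ℝ) / S ≤ x) (hx' : x ≤ (((740881858 : ℕ) : ℝ) + (40050571 : ℕ)) / S) :
    TriB PP.cur (VE (h0 * 0) 3 κ (h0 * x) (eng.v x) (h0 * (1 / 20)) (tnt (h0 * x) (1 / 5)) (tbl tK x) (tbl tL x) (tbl (smT h0⁻¹ tC) x)) 0 1 1 0 0 (-1) (-1) :=
  (sideB hx hx').bothB (thrB hx hx') (en_pos (hx1 hx).le) (Or.inr rfl) (Or.inr rfl) fun y y' F =>
    bothB_cert (s1 := false) (s2 := false) rfl hκ (en_pos (hx1 hx).le) (esg_rng (hx1 hx).le (hx2 hx').le).1 (mo_v x) covB00 covB01 hx hx'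
        Pool.Agent.Strip051.G.I69_7273.Tab.C.BB00.c_mm_011 (cutEB_cons (Pool.Agent.Strip051.G.I69_7273.Tab.SE.se_B00mm_011_s hκ hx hx' cutEB_nil) (cutEB_cons (Pool.Agent.Strip051.G.I69_7273.Tab.SE.se_B00mm_011_t hκ hx hx' cutEB_nil) cutEB_nil)) noExt_EB F trivial trivial

theorem BB00_mm_012 {κ x : ℝ} (hκ : κ * h0 = ken x) (hx : ((740881858 : ℕ) : ℝ) / S ≤ x) (hx' : x ≤ (((740881858 : ℕ) : ℝ) + (40050571 : ℕ)) / S) :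
    TriB PP.cur (VE (h0 * 0) 3 κ (h0 * x) (eng.v x) (h0 * (1 / 20)) (tnt (h0 * x) (1 / 5)) (tbl tK x) (tbl tL x) (tbl (smT h0⁻¹ tC) x)) 0 1 2 0 0 (-1) (-1) :=
  (sideB hx hx').bothB (thrB hx hx') (en_pos (hx1 hx).le) (Or.inr rfl) (Or.inr rfl) fun y y' F =>
    bothB_cert (s1 := false) (s2 := false) rfl hκ (en_pos (hx1 hx).le) (esg_rng (hx1 hx).le (hx2 hx').le).1 (mo_v x) covB00 covB02 hx hx'
        Pool.Agent.Strip051.G.I69_7273.Tab.C.BB00.c_mm_012 (cutEB_cons (Pool.Agent.Strip051.G.I69_7273.Tab.SE.se_B00mm_012_s hκ hx hx' cutEB_nil) (cutEB_cons (Pool.Agent.Strip051.G.I69_7273.Tab.SE.se_B00mm_012_t hκ hx hx' cutEB_nil) cutEB_nil)) noExt_EB F trivial trivial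

theorem BB00_mm_022 {κ x : ℝ} (hκ : κ * h0 = ken x) (hx : ((740881858 : ℕ) : ℝ) / S ≤ x) (hx' : x ≤ (((740881858 : ℕ) : ℝ) + (40050571 : ℕ)) / S) :
    TriB PP.cur (VE (h0 * 0) 3 κ (h0 * x) (eng.v x) (h0 * (1 / 20)) (tnt (h0 * x) (1 / 5)) (tbl tK x) (tbl tL x) (tbl (smT h0⁻¹ tC) x)) 0 2 2 0 0 (-1) (-1) :=
  (sideB hx hx').bothB (thrB hx hx') (en_pos (hx1 hx).le) (Or.inr rfl) (Or.inr rfl) fun y y' F =>
    bothB_cert (s1 := false) (s2 := false) rfl hκ (en_pos (hx1 hx).le) (esg_rng (hx1 hx).le (hx2 hx').le).1 (mo_v x) covB00 covB02 hx hx'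
        Pool.Agent.Strip051.G.I69_7273.Tab.C.BB00.c_mm_022 (cutEB_cons (Pool.Agent.Strip051.G.I69_7273.Tab.SE.se_B00mm_022_s hκ hx hx' cutEB_nil) (cutEB_cons (Pool.Agent.Strip051.G.I69_7273.Tab.SE.se_B00mm_022_t hκ hx hx' cutEB_nil) cutEB_nil)) noExt_EB F trivial trivial

theorem BB00_mm_023 {κ x : ℝ} (hκ : κ * h0 = ken x) (hx : ((740881858 : ℕ) : ℝ) / S ≤ x) (hx' : x ≤ (((740881858 : ℕ) : ℝ) + (40050571 : ℕ)) / S) :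
    TriB PP.cur (VE (h0 * 0) 3 κ (h0 * x) (eng.v x) (h0 * (1 / 20)) (tnt (h0 * x) (1 / 5)) (tbl tK x) (tbl tL x) (tbl (smT h0⁻¹ tC) x)) 0 2 3 0 0 (-1) (-1) :=
  triB_k0

theorem BB00_mm_033 {κ x : ℝ} (hκ : κ * h0 = ken x) (hx : ((740881858 : ℕ) : ℝ) / S ≤ x) (hx' : x ≤ (((740881858 : ℕ) : ℝ) + (40050571 : ℕ)) / S) :
    TriB PP.cur (VE (h0 * 0) 3 κ (h0 * x) (eng.v x) (h0 * (1 / 20)) (tnt (h0 * x) (1 / 5)) (tbl tK x) (tbl tL x) (tbl (smT h0⁻¹ tC) x)) 0 3 3 0 0 (-1) (-1) :=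
  triB_k0

theorem BB00_mm_101 {κ x : ℝ} (hκ : κ * h0 = ken x) (hx : ((740881858 : ℕ) : ℝ) / S ≤ x) (hx' : x ≤ (((740881858 : ℕ) : ℝ) + (40050571 : ℕ)) / S) :
    TriB PP.cur (VE (h0 * 0) 3 κ (h0 * x) (eng.v x) (h0 * (1 / 20)) (tnt (h0 * x) (1 / 5)) (tbl tK x) (tbl tL x) (tbl (smT h0⁻¹ tC) x)) 1 0 1 0 0 (-1) (-1) :=
  (sideB hx hx').bothB (thrB hx hx') (en_pos (hx1 hx).le) (Or.inr rfl) (Or.inr rfl) fun y y' F =>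
    bothB_cert (s1 := false) (s2 := false) rfl hκ (en_pos (hx1 hx).le) (esg_rng (hx1 hx).le (hx2 hx').le).1 (mo_v x) covB01 covB01 hx hx'
        Pool.Agent.Strip051.G.I69_7273.Tab.C.BB00.c_mm_101 (cutEB_cons (Pool.Agent.Strip051.G.I69_7273.Tab.SE.se_B00mm_101_s hκ hx hx' cutEB_nil) (cutEB_cons (Pool.Agent.Strip051.G.I69_7273.Tab.SE.se_B00mm_101_t hκ hx hx' cutEB_nil) cutEB_nil)) noExt_EB F trivial trivial

theorem BB00_mm_102 {κ x : ℝ} (hκ : κ * h0 = ken x) (hx : ((740881858 : ℕ) : ℝ) / S ≤ x) (hx' : x ≤ (((740881858 : ℕ) : ℝ) + (40050571 : ℕ)) / S) :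
    TriB PP.cur (VE (h0 * 0) 3 κ (h0 * x) (eng.v x) (h0 * (1 / 20)) (tnt (h0 * x) (1 / 5)) (tbl tK x) (tbl tL x) (tbl (smT h0⁻¹ tC) x)) 1 0 2 0 0 (-1) (-1) :=
  (sideB hx hx').bothB (thrB hx hx') (en_pos (hx1 hx).le) (Or.inr rfl) (Or.inr rfl) fun y y' F =>
    bothB_cert (s1 := false) (s2 := false) rfl hκ (en_pos (hx1 hx).le) (esg_rng (hx1 hx).le (hx2 hx').le).1 (mo_v x) covB01 covB02 hx hx'
        Pool.Agent.Strip051.G.I69_7273.Tab.C.BB00.c_mm_102 (cutEB_cons (Pool.Agent.Strip051.G.I69_7273.Tab.SE.se_B00mm_102_s hκ hx hx' cutEB_nil) (cutEB_cons (Pool.Agent.Strip051.G.I69_7273.Tab.SE.se_B00mm_102_t hκ hx hx' cutEB_nil) cutEB_nil)) noExt_EB F trivial trivial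

theorem BB00_mm_112 {κ x : ℝ} (hκ : κ * h0 = ken x) (hx : ((740881858 : ℕ) : ℝ) / S ≤ x) (hx' : x ≤ (((740881858 : ℕ) : ℝ) + (40050571 : ℕ)) / S) :
    TriB PP.cur (VE (h0 * 0) 3 κ (h0 * x) (eng.v x) (h0 * (1 / 20)) (tnt (h0 * x) (1 / 5)) (tbl tK x) (tbl tL x) (tbl (smT h0⁻¹ tC) x)) 1 1 2 0 0 (-1) (-1) :=
  (sideB hx hx').bothB (thrB hx hx') (en_pos (hx1 hx).le) (Or.inr rfl) (Or.inr rfl) fun y y' F =>
    bothB_cert (s1 := false) (s2 := false) rfl hκ (en_pos (hx1 hx).le) (esg_rng (hx1 hx).le (hx2 hx').le).1 (mo_v x) covB01 covB02 hx hx'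
        Pool.Agent.Strip051.G.I69_7273.Tab.C.BB00.c_mm_112 (cutEB_cons (Pool.Agent.Strip051.G.I69_7273.Tab.SE.se_B00mm_112_s hκ hx hx' cutEB_nil) (cutEB_cons (Pool.Agent.Strip051.G.I69_7273.Tab.SE.se_B00mm_112_t hκ hx hx' cutEB_nil) cutEB_nil)) noExt_EB F trivial trivial

theorem BB00_mm_113 {κ x : ℝ} (hκ : κ * h0 = ken x) (hx : ((740881858 : ℕ) : ℝ) / S ≤ x) (hx' : x ≤ (((740881858 : ℕ) : ℝ) + (40050571 : ℕ)) / S) :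
    TriB PP.cur (VE (h0 * 0) 3 κ (h0 * x) (eng.v x) (h0 * (1 / 20)) (tnt (h0 * x) (1 / 5)) (tbl tK x) (tbl tL x) (tbl (smT h0⁻¹ tC) x)) 1 1 3 0 0 (-1) (-1) :=
  triB_k0

theorem BB00_mm_123 {κ x : ℝ} (hκ : κ * h0 = ken x) (hx : ((740881858 : ℕ) : ℝ) / S ≤ x) (hx' : x ≤ (((740881858 : ℕ) : ℝ) + (40050571 : ℕ)) / S) :
    TriB PP.cur (VE (h0 * 0) 3 κ (h0 * x) (eng.v x) (h0 * (1 / 20)) (tnt (h0 * x) (1 / 5)) (tbl tK x) (tbl tL x) (tbl (smT h0⁻¹ tC) x)) 1 2 3 0 0 (-1) (-1) :=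
  triB_k0

theorem BB00_mm_133 {κ x : ℝ} (hκ : κ * h0 = ken x) (hx : ((740881858 : ℕ) : ℝ) / S ≤ x) (hx' : x ≤ (((740881858 : ℕ) : ℝ) + (40050571 : ℕ)) / S) :
    TriB PP.cur (VE (h0 * 0) 3 κ (h0 * x) (eng.v x) (h0 * (1 / 20)) (tnt (h0 * x) (1 / 5)) (tbl tK x) (tbl tL x) (tbl (smT h0⁻¹ tC) x)) 1 3 3 0 0 (-1) (-1) :=
  triB_k0

theorem BB00_mm_202 {κ x : ℝ} (hκ : κ * h0 = ken x) (hx : ((740881858 : ℕ) : ℝ) / S ≤ x) (hx' : x ≤ (((740881858 : ℕ) : ℝ) + (40050571 : ℕ)) / S) :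
    TriB PP.cur (VE (h0 * 0) 3 κ (h0 * x) (eng.v x) (h0 * (1 / 20)) (tnt (h0 * x) (1 / 5)) (tbl tK x) (tbl tL x) (tbl (smT h0⁻¹ tC) x)) 2 0 2 0 0 (-1) (-1) :=
  (sideB hx hx').bothB (thrB hx hx') (en_pos (hx1 hx).le) (Or.inr rfl) (Or.inr rfl) fun y y' F =>
    bothB_cert (s1 := false) (s2 := false) rfl hκ (en_pos (hx1 hx).le) (esg_rng (hx1 hx).le (hx2 hx').le).1 (mo_v x) covB02 covB02 hx hx'
        Pool.Agent.Strip051.G.I69_7273.Tab.C.BB00.c_mm_202 (cutEB_cons (Pool.Agent.Strip051.G.I69_7273.Tab.SE.se_B00mm_202_s hκ hx hx' cutEB_nil) (cutEB_cons (Pool.Agent.Strip051.G.I69_7273.Tab.SE.se_B00mm_202_t hκ hx hx' cutEB_nil) cutEB_nil)) noExt_EB F trivial trivial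

theorem BB00_mm_203 {κ x : ℝ} (hκ : κ * h0 = ken x) (hx : ((740881858 : ℕ) : ℝ) / S ≤ x) (hx' : x ≤ (((740881858 : ℕ) : ℝ) + (40050571 : ℕ)) / S) :
    TriB PP.cur (VE (h0 * 0) 3 κ (h0 * x) (eng.v x) (h0 * (1 / 20)) (tnt (h0 * x) (1 / 5)) (tbl tK x) (tbl tL x) (tbl (smT h0⁻¹ tC) x)) 2 0 3 0 0 (-1) (-1) :=
  triB_k0

theorem BB00_mm_213 {κ x : ℝ} (hκ : κ * h0 = ken x) (hx : ((740881858 : ℕ) : ℝ) / S ≤ x) (hx' : x ≤ (((740881858 : ℕ) : ℝ) + (40050571 : ℕ)) / S) :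
    TriB PP.cur (VE (h0 * 0) 3 κ (h0 * x) (eng.v x) (h0 * (1 / 20)) (tnt (h0 * x) (1 / 5)) (tbl tK x) (tbl tL x) (tbl (smT h0⁻¹ tC) x)) 2 1 3 0 0 (-1) (-1) :=
  triB_k0

theorem BB00_mm_303 {κ x : ℝ} (hκ : κ * h0 = ken x) (hx : ((740881858 : ℕ) : ℝ) / S ≤ x) (hx' : x ≤ (((740881858 : ℕ) : ℝ) + (40050571 : ℕ)) / S) :
    TriB PP.cur (VE (h0 * 0) 3 κ (h0 * x) (eng.v x) (h0 * (1 / 20)) (tnt (h0 * x) (1 / 5)) (tbl tK x) (tbl tL x) (tbl (smT h0⁻¹ tC) x)) 3 0 3 0 0 (-1) (-1) :=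
  triB_j0

theorem BB00_mm_313 {κ x : ℝ} (hκ : κ * h0 = ken x) (hx : ((740881858 : ℕ) : ℝ) / S ≤ x) (hx' : x ≤ (((740881858 : ℕ) : ℝ) + (40050571 : ℕ)) / S) :
    TriB PP.cur (VE (h0 * 0) 3 κ (h0 * x) (eng.v x) (h0 * (1 / 20)) (tnt (h0 * x) (1 / 5)) (tbl tK x) (tbl tL x) (tbl (smT h0⁻¹ tC) x)) 3 1 3 0 0 (-1) (-1) :=
  triB_j0

theorem BB00 {κ x : ℝ} (hκ : κ * h0 = ken x) (hx : ((740881858 : ℕ) : ℝ) / S ≤ x) (hx' : x ≤ (((740881858 : ℕ) : ℝ) + (40050571 : ℕ)) / S) : AllTB PP.cur (VE (h0 * 0) 3 κ (h0 * x) (eng.v x) (h0 * (1 / 20)) (tnt (h0 * x) (1 / 5)) (tbl tK x) (tbl tL x) (tbl (smT h0⁻¹ tC) x)) 0 0 where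
  pp := all17 (Q := fun a b c => TriB PP.cur (VE (h0 * 0) 3 κ (h0 * x) (eng.v x) (h0 * (1 / 20)) (tnt (h0 * x) (1 / 5)) (tbl tK x) (tbl tL x) (tbl (smT h0⁻¹ tC) x)) a b c 0 0 1 1)
    (BB00_pp_001 hκ hx hx') (BB00_pp_011 hκ hx hx') (BB00_pp_012 hκ hx hx') (BB00_pp_022 hκ hx hx') (BB00_pp_023 hκ hx hx') (BB00_pp_033 hκ hx hx') (BB00_pp_101 hκ hx hx') (BB00_pp_102 hκ hx hx') (BB00_pp_112 hκ hx hx') (BB00_pp_113 hκ hx hx') (BB00_pp_123 hκ hx hx') (BB00_pp_133 hκ hx hx') (BB00_pp_202 hκ hx hx') (BB00_pp_203 hκ hx hx') (BB00_pp_213 hκ hx hx') (BB00_pp_303 hκ hx hx') (BB00_pp_313 hκ hx hx')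
  pm := all17 (Q := fun a b c => TriB PP.cur (VE (h0 * 0) 3 κ (h0 * x) (eng.v x) (h0 * (1 / 20)) (tnt (h0 * x) (1 / 5)) (tbl tK x) (tbl tL x) (tbl (smT h0⁻¹ tC) x)) a b c 0 0 1 (-1))
    (BB00_pm_001 hκ hx hx') (BB00_pm_011 hκ hx hx') (BB00_pm_012 hκ hx hx') (BB00_pm_022 hκ hx hx') (BB00_pm_023 hκ hx hx') (BB00_pm_033 hκ hx hx') (BB00_pm_101 hκ hx hx') (BB00_pm_102 hκ hx hx') (BB00_pm_112 hκ hx hx') (BB00_pm_113 hκ hx hx') (BB00_pm_123 hκ hx hx') (BB00_pm_133 hκ hx hx') (BB00_pm_202 hκ hx hx') (BB00_pm_203 hκ hx hx') (BB00_pm_213 hκ hx hx') (BB00_pm_303 hκ hx hx') (BB00_pm_313 hκ hx hx')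
  mm := all17 (Q := fun a b c => TriB PP.cur (VE (h0 * 0) 3 κ (h0 * x) (eng.v x) (h0 * (1 / 20)) (tnt (h0 * x) (1 / 5)) (tbl tK x) (tbl tL x) (tbl (smT h0⁻¹ tC) x)) a b c 0 0 (-1) (-1))
    (BB00_mm_001 hκ hx hx') (BB00_mm_011 hκ hx hx') (BB00_mm_012 hκ hx hx') (BB00_mm_022 hκ hx hx') (BB00_mm_023 hκ hx hx') (BB00_mm_033 hκ hx hx') (BB00_mm_101 hκ hx hx') (BB00_mm_102 hκ hx hx') (BB00_mm_112 hκ hx hx') (BB00_mm_113 hκ hx hx') (BB00_mm_123 hκ hx hx') (BB00_mm_133 hκ hx hx') (BB00_mm_202 hκ hx hx') (BB00_mm_203 hκ hx hx') (BB00_mm_213 hκ hx hx') (BB00_mm_303 hκ hx hx') (BB00_mm_313 hκ hx hx')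

theorem BB01_pp_001 {κ x : ℝ} (hκ : κ * h0 = ken x) (hx : ((740881858 : ℕ) : ℝ) / S ≤ x) (hx' : x ≤ (((740881858 : ℕ) : ℝ) + (40050571 : ℕ)) / S) :
    TriB PP.cur (VE (h0 * 0) 3 κ (h0 * x) (eng.v x) (h0 * (1 / 20)) (tnt (h0 * x) (1 / 5)) (tbl tK x) (tbl tL x) (tbl (smT h0⁻¹ tC) x)) 0 0 1 0 1 1 1 :=
  (sideB hx hx').bothB (thrB hx hx') (en_pos (hx1 hx).le) (Or.inl rfl) (Or.inl rfl) fun y y' F =>
    bothB_cert (s1 := true) (s2 := true) rfl hκ (en_pos (hx1 hx).le) (esg_rng (hx1 hx).le (hx2 hx').le).1 (mo_v x) covB00 covB11 hx hx'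
        Pool.Agent.Strip051.G.I69_7273.Tab.C.BB01.c_pp_001 noCut_EB noExt_EB F trivial trivial

theorem BB01_pp_011 {κ x : ℝ} (hκ : κ * h0 = ken x) (hx : ((740881858 : ℕ) : ℝ) / S ≤ x) (hx' : x ≤ (((740881858 : ℕ) : ℝ) + (40050571 : ℕ)) / S) :
    TriB PP.cur (VE (h0 * 0) 3 κ (h0 * x) (eng.v x) (h0 * (1 / 20)) (tnt (h0 * x) (1 / 5)) (tbl tK x) (tbl tL x) (tbl (smT h0⁻¹ tC) x)) 0 1 1 0 1 1 1 :=
  (sideB hx hx').bothB (thrB hx hx') (en_pos (hx1 hx).le) (Or.inl rfl) (Or.inl rfl) fun y y' F =>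
    bothB_cert (s1 := true) (s2 := true) rfl hκ (en_pos (hx1 hx).le) (esg_rng (hx1 hx).le (hx2 hx').le).1 (mo_v x) covB00 covB11 hx hx'
        Pool.Agent.Strip051.G.I69_7273.Tab.C.BB01.c_pp_011 noCut_EB noExt_EB F trivial trivial

theorem BB01_pp_012 {κ x : ℝ} (hκ : κ * h0 = ken x) (hx : ((740881858 : ℕ) : ℝ) / S ≤ x) (hx' : x ≤ (((740881858 : ℕ) : ℝ) + (40050571 : ℕ)) / S) :
    TriB PP.cur (VE (h0 * 0) 3 κ (h0 * x) (eng.v x) (h0 * (1 / 20)) (tnt (h0 * x) (1 / 5)) (tbl tK x) (tbl tL x) (tbl (smT h0⁻¹ tC) x)) 0 1 2 0 1 1 1 :=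
  (sideB hx hx').bothB (thrB hx hx') (en_pos (hx1 hx).le) (Or.inl rfl) (Or.inl rfl) fun y y' F =>
    (lt_or_ge (h0 * (y + y')) 1).elim
      (fun g => bothB_cert (s1 := true) (s2 := true) rfl hκ (en_pos (hx1 hx).le) (esg_rng (hx1 hx).le (hx2 hx').le).1 (mo_v x) covB00 covB12a hx hx'
        Pool.Agent.Strip051.G.I69_7273.Tab.C.BB01.c_pp_012_a (cutEB_cons (Pool.Agent.Strip051.G.I69_7273.Tab.altB_B012E_01 hκ hx hx') cutEB_nil) noExt_EB F trivial g)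
      (fun g => bothB_cert (s1 := true) (s2 := true) rfl hκ (en_pos (hx1 hx).le) (esg_rng (hx1 hx).le (hx2 hx').le).1 (mo_v x) covB00 covB12b hx hx'
        Pool.Agent.Strip051.G.I69_7273.Tab.C.BB01.c_pp_012_b (cutEB_cons (Pool.Agent.Strip051.G.I69_7273.Tab.altB_B012E_01 hκ hx hx') cutEB_nil) noExt_EB F trivial g)

theorem BB01_pp_022 {κ x : ℝ} (hκ : κ * h0 = ken x) (hx : ((740881858 : ℕ) : ℝ) / S ≤ x) (hx' : x ≤ (((740881858 : ℕ) : ℝ) + (40050571 : ℕ)) / S) :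
    TriB PP.cur (VE (h0 * 0) 3 κ (h0 * x) (eng.v x) (h0 * (1 / 20)) (tnt (h0 * x) (1 / 5)) (tbl tK x) (tbl tL x) (tbl (smT h0⁻¹ tC) x)) 0 2 2 0 1 1 1 :=
  (sideB hx hx').bothB (thrB hx hx') (en_pos (hx1 hx).le) (Or.inl rfl) (Or.inl rfl) fun y y' F =>
    (lt_or_ge (h0 * (y + y')) 1).elim
      (fun g => bothB_cert (s1 := true) (s2 := true) rfl hκ (en_pos (hx1 hx).le) (esg_rng (hx1 hx).le (hx2 hx').le).1 (mo_v x) covB00 covB12a hx hx'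
        Pool.Agent.Strip051.G.I69_7273.Tab.C.BB01.c_pp_022_a (cutEB_cons (Pool.Agent.Strip051.G.I69_7273.Tab.altB_B022E_01 hκ hx hx') cutEB_nil) noExt_EB F trivial g)
      (fun g => bothB_cert (s1 := true) (s2 := true) rfl hκ (en_pos (hx1 hx).le) (esg_rng (hx1 hx).le (hx2 hx').le).1 (mo_v x) covB00 covB12b hx hx'
        Pool.Agent.Strip051.G.I69_7273.Tab.C.BB01.c_pp_022_b (cutEB_cons (Pool.Agent.Strip051.G.I69_7273.Tab.altB_B022E_01 hκ hx hx') cutEB_nil) noExt_EB F trivial g)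

theorem BB01_pp_023 {κ x : ℝ} (hκ : κ * h0 = ken x) (hx : ((740881858 : ℕ) : ℝ) / S ≤ x) (hx' : x ≤ (((740881858 : ℕ) : ℝ) + (40050571 : ℕ)) / S) :
    TriB PP.cur (VE (h0 * 0) 3 κ (h0 * x) (eng.v x) (h0 * (1 / 20)) (tnt (h0 * x) (1 / 5)) (tbl tK x) (tbl tL x) (tbl (smT h0⁻¹ tC) x)) 0 2 3 0 1 1 1 :=
  (sideB hx hx').bothB (thrB hx hx') (en_pos (hx1 hx).le) (Or.inl rfl) (Or.inl rfl) fun y y' F =>
    bothB_cert (s1 := true) (s2 := true) rfl hκ (en_pos (hx1 hx).le) (esg_rng (hx1 hx).le (hx2 hx').le).1 (mo_v x) covB00 covB13 hx hx'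
        Pool.Agent.Strip051.G.I69_7273.Tab.C.BB01.c_pp_023 noCut_EB noExt_EB F trivial trivial

theorem BB01_pp_033 {κ x : ℝ} (hκ : κ * h0 = ken x) (hx : ((740881858 : ℕ) : ℝ) / S ≤ x) (hx' : x ≤ (((740881858 : ℕ) : ℝ) + (40050571 : ℕ)) / S) :
    TriB PP.cur (VE (h0 * 0) 3 κ (h0 * x) (eng.v x) (h0 * (1 / 20)) (tnt (h0 * x) (1 / 5)) (tbl tK x) (tbl tL x) (tbl (smT h0⁻¹ tC) x)) 0 3 3 0 1 1 1 :=
  (sideB hx hx').bothB (thrB hx hx') (en_pos (hx1 hx).le) (Or.inl rfl) (Or.inl rfl) fun y y' F =>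
    bothB_cert (s1 := true) (s2 := true) rfl hκ (en_pos (hx1 hx).le) (esg_rng (hx1 hx).le (hx2 hx').le).1 (mo_v x) covB00 covB13 hx hx'
        Pool.Agent.Strip051.G.I69_7273.Tab.C.BB01.c_pp_033 noCut_EB noExt_EB F trivial trivial

theorem BB01_pp_101 {κ x : ℝ} (hκ : κ * h0 = ken x) (hx : ((740881858 : ℕ) : ℝ) / S ≤ x) (hx' : x ≤ (((740881858 : ℕ) : ℝ) + (40050571 : ℕ)) / S) :
    TriB PP.cur (VE (h0 * 0) 3 κ (h0 * x) (eng.v x) (h0 * (1 / 20)) (tnt (h0 * x) (1 / 5)) (tbl tK x) (tbl tL x) (tbl (smT h0⁻¹ tC) x)) 1 0 1 0 1 1 1 :=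
  (sideB hx hx').bothB (thrB hx hx') (en_pos (hx1 hx).le) (Or.inl rfl) (Or.inl rfl) fun y y' F =>
    bothB_cert (s1 := true) (s2 := true) rfl hκ (en_pos (hx1 hx).le) (esg_rng (hx1 hx).le (hx2 hx').le).1 (mo_v x) covB01 covB11 hx hx'
        Pool.Agent.Strip051.G.I69_7273.Tab.C.BB01.c_pp_101 noCut_EB noExt_EB F trivial trivial

theorem BB01_pp_102 {κ x : ℝ} (hκ : κ * h0 = ken x) (hx : ((740881858 : ℕ) : ℝ) / S ≤ x) (hx' : x ≤ (((740881858 : ℕ) : ℝ) + (40050571 : ℕ)) / S) :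
    TriB PP.cur (VE (h0 * 0) 3 κ (h0 * x) (eng.v x) (h0 * (1 / 20)) (tnt (h0 * x) (1 / 5)) (tbl tK x) (tbl tL x) (tbl (smT h0⁻¹ tC) x)) 1 0 2 0 1 1 1 :=
  (sideB hx hx').bothB (thrB hx hx') (en_pos (hx1 hx).le) (Or.inl rfl) (Or.inl rfl) fun y y' F =>
    (lt_or_ge (h0 * (y + y')) 1).elim
      (fun g => bothB_cert (s1 := true) (s2 := true) rfl hκ (en_pos (hx1 hx).le) (esg_rng (hx1 hx).le (hx2 hx').le).1 (mo_v x) covB01 covB12a hx hx'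
        Pool.Agent.Strip051.G.I69_7273.Tab.C.BB01.c_pp_102_a noCut_EB noExt_EB F trivial g)
      (fun g => bothB_cert (s1 := true) (s2 := true) rfl hκ (en_pos (hx1 hx).le) (esg_rng (hx1 hx).le (hx2 hx').le).1 (mo_v x) covB01 covB12b hx hx'
        Pool.Agent.Strip051.G.I69_7273.Tab.C.BB01.c_pp_102_b noCut_EB noExt_EB F trivial g)

theorem BB01_pp_112 {κ x : ℝ} (hκ : κ * h0 = ken x) (hx : ((740881858 : ℕ) : ℝ) / S ≤ x) (hx' : x ≤ (((740881858 : ℕ) : ℝ) + (40050571 : ℕ)) / S) :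
    TriB PP.cur (VE (h0 * 0) 3 κ (h0 * x) (eng.v x) (h0 * (1 / 20)) (tnt (h0 * x) (1 / 5)) (tbl tK x) (tbl tL x) (tbl (smT h0⁻¹ tC) x)) 1 1 2 0 1 1 1 :=
  (sideB hx hx').bothB (thrB hx hx') (en_pos (hx1 hx).le) (Or.inl rfl) (Or.inl rfl) fun y y' F =>
    (lt_or_ge (h0 * (y + y')) 1).elim
      (fun g => bothB_cert (s1 := true) (s2 := true) rfl hκ (en_pos (hx1 hx).le) (esg_rng (hx1 hx).le (hx2 hx').le).1 (mo_v x) covB01 covB12a hx hx'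
        Pool.Agent.Strip051.G.I69_7273.Tab.C.BB01.c_pp_112_a noCut_EB noExt_EB F trivial g)
      (fun g => bothB_cert (s1 := true) (s2 := true) rfl hκ (en_pos (hx1 hx).le) (esg_rng (hx1 hx).le (hx2 hx').le).1 (mo_v x) covB01 covB12b hx hx'
        Pool.Agent.Strip051.G.I69_7273.Tab.C.BB01.c_pp_112_b noCut_EB noExt_EB F trivial g)

theorem BB01_pp_113 {κ x : ℝ} (hκ : κ * h0 = ken x) (hx : ((740881858 : ℕ) : ℝ) / S ≤ x) (hx' : x ≤ (((740881858 : ℕ) : ℝ) + (40050571 : ℕ)) / S) :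
    TriB PP.cur (VE (h0 * 0) 3 κ (h0 * x) (eng.v x) (h0 * (1 / 20)) (tnt (h0 * x) (1 / 5)) (tbl tK x) (tbl tL x) (tbl (smT h0⁻¹ tC) x)) 1 1 3 0 1 1 1 :=
  (sideB hx hx').bothB (thrB hx hx') (en_pos (hx1 hx).le) (Or.inl rfl) (Or.inl rfl) fun y y' F =>
    bothB_cert (s1 := true) (s2 := true) rfl hκ (en_pos (hx1 hx).le) (esg_rng (hx1 hx).le (hx2 hx').le).1 (mo_v x) covB01 covB13 hx hx'
        Pool.Agent.Strip051.G.I69_7273.Tab.C.BB01.c_pp_113 (cutEB_cons (Pool.Agent.Strip051.G.I69_7273.Tab.alt12B_B113_01p hκ hx hx') cutEB_nil) noExt_EB F trivial trivial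

theorem BB01_pp_123 {κ x : ℝ} (hκ : κ * h0 = ken x) (hx : ((740881858 : ℕ) : ℝ) / S ≤ x) (hx' : x ≤ (((740881858 : ℕ) : ℝ) + (40050571 : ℕ)) / S) :
    TriB PP.cur (VE (h0 * 0) 3 κ (h0 * x) (eng.v x) (h0 * (1 / 20)) (tnt (h0 * x) (1 / 5)) (tbl tK x) (tbl tL x) (tbl (smT h0⁻¹ tC) x)) 1 2 3 0 1 1 1 :=
  (sideB hx hx').bothB (thrB hx hx') (en_pos (hx1 hx).le) (Or.inl rfl) (Or.inl rfl) fun y y' F =>
    bothB_cert (s1 := true) (s2 := true) rfl hκ (en_pos (hx1 hx).le) (esg_rng (hx1 hx).le (hx2 hx').le).1 (mo_v x) covB01 covB13 hx hx'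
        Pool.Agent.Strip051.G.I69_7273.Tab.C.BB01.c_pp_123 (cutEB_cons (Pool.Agent.Strip051.G.I69_7273.Tab.alt12B_B123_01p hκ hx hx') cutEB_nil) noExt_EB F trivial trivial

theorem BB01_pp_133 {κ x : ℝ} (hκ : κ * h0 = ken x) (hx : ((740881858 : ℕ) : ℝ) / S ≤ x) (hx' : x ≤ (((740881858 : ℕ) : ℝ) + (40050571 : ℕ)) / S) :
    TriB PP.cur (VE (h0 * 0) 3 κ (h0 * x) (eng.v x) (h0 * (1 / 20)) (tnt (h0 * x) (1 / 5)) (tbl tK x) (tbl tL x) (tbl (smT h0⁻¹ tC) x)) 1 3 3 0 1 1 1 :=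
  (sideB hx hx').bothB (thrB hx hx') (en_pos (hx1 hx).le) (Or.inl rfl) (Or.inl rfl) fun y y' F =>
    bothB_cert (s1 := true) (s2 := true) rfl hκ (en_pos (hx1 hx).le) (esg_rng (hx1 hx).le (hx2 hx').le).1 (mo_v x) covB01 covB13 hx hx'
        Pool.Agent.Strip051.G.I69_7273.Tab.C.BB01.c_pp_133 noCut_EB noExt_EB F trivial trivial

theorem BB01_pp_202 {κ x : ℝ} (hκ : κ * h0 = ken x) (hx : ((740881858 : ℕ) : ℝ) / S ≤ x) (hx' : x ≤ (((740881858 : ℕ) : ℝ) + (40050571 : ℕ)) / S) :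
    TriB PP.cur (VE (h0 * 0) 3 κ (h0 * x) (eng.v x) (h0 * (1 / 20)) (tnt (h0 * x) (1 / 5)) (tbl tK x) (tbl tL x) (tbl (smT h0⁻¹ tC) x)) 2 0 2 0 1 1 1 :=
  (sideB hx hx').bothB (thrB hx hx') (en_pos (hx1 hx).le) (Or.inl rfl) (Or.inl rfl) fun y y' F =>
    (lt_or_ge (h0 * (y + y')) 1).elim
      (fun g => bothB_cert (s1 := true) (s2 := true) rfl hκ (en_pos (hx1 hx).le) (esg_rng (hx1 hx).le (hx2 hx').le).1 (mo_v x) covB02 covB12a hx hx'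
        Pool.Agent.Strip051.G.I69_7273.Tab.C.BB01.c_pp_202_a noCut_EB noExt_EB F trivial g)
      (fun g => bothB_cert (s1 := true) (s2 := true) rfl hκ (en_pos (hx1 hx).le) (esg_rng (hx1 hx).le (hx2 hx').le).1 (mo_v x) covB02 covB12b hx hx'
        Pool.Agent.Strip051.G.I69_7273.Tab.C.BB01.c_pp_202_b noCut_EB noExt_EB F trivial g)

theorem BB01_pp_203 {κ x : ℝ} (hκ : κ * h0 = ken x) (hx : ((740881858 : ℕ) : ℝ) / S ≤ x) (hx' : x ≤ (((740881858 : ℕ) : ℝ) + (40050571 : ℕ)) / S) :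
    TriB PP.cur (VE (h0 * 0) 3 κ (h0 * x) (eng.v x) (h0 * (1 / 20)) (tnt (h0 * x) (1 / 5)) (tbl tK x) (tbl tL x) (tbl (smT h0⁻¹ tC) x)) 2 0 3 0 1 1 1 :=
  (sideB hx hx').bothB (thrB hx hx') (en_pos (hx1 hx).le) (Or.inl rfl) (Or.inl rfl) fun y y' F =>
    bothB_cert (s1 := true) (s2 := true) rfl hκ (en_pos (hx1 hx).le) (esg_rng (hx1 hx).le (hx2 hx').le).1 (mo_v x) covB02 covB13 hx hx'
        Pool.Agent.Strip051.G.I69_7273.Tab.C.BB01.c_pp_203 noCut_EB noExt_EB F trivial trivial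

theorem BB01_pp_213 {κ x : ℝ} (hκ : κ * h0 = ken x) (hx : ((740881858 : ℕ) : ℝ) / S ≤ x) (hx' : x ≤ (((740881858 : ℕ) : ℝ) + (40050571 : ℕ)) / S) :
    TriB PP.cur (VE (h0 * 0) 3 κ (h0 * x) (eng.v x) (h0 * (1 / 20)) (tnt (h0 * x) (1 / 5)) (tbl tK x) (tbl tL x) (tbl (smT h0⁻¹ tC) x)) 2 1 3 0 1 1 1 :=
  (sideB hx hx').bothB (thrB hx hx') (en_pos (hx1 hx).le) (Or.inl rfl) (Or.inl rfl) fun y y' F =>
    bothB_cert (s1 := true) (s2 := true) rfl hκ (en_pos (hx1 hx).le) (esg_rng (hx1 hx).le (hx2 hx').le).1 (mo_v x) covB02 covB13 hx hx'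
        Pool.Agent.Strip051.G.I69_7273.Tab.C.BB01.c_pp_213 (cutEB_cons (Pool.Agent.Strip051.G.I69_7273.Tab.alt12B_B213_01p hκ hx hx') cutEB_nil) noExt_EB F trivial trivial

theorem BB01_pp_303 {κ x : ℝ} (hκ : κ * h0 = ken x) (hx : ((740881858 : ℕ) : ℝ) / S ≤ x) (hx' : x ≤ (((740881858 : ℕ) : ℝ) + (40050571 : ℕ)) / S) :
    TriB PP.cur (VE (h0 * 0) 3 κ (h0 * x) (eng.v x) (h0 * (1 / 20)) (tnt (h0 * x) (1 / 5)) (tbl tK x) (tbl tL x) (tbl (smT h0⁻¹ tC) x)) 3 0 3 0 1 1 1 :=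
  triB_j0

theorem BB01_pp_313 {κ x : ℝ} (hκ : κ * h0 = ken x) (hx : ((740881858 : ℕ) : ℝ) / S ≤ x) (hx' : x ≤ (((740881858 : ℕ) : ℝ) + (40050571 : ℕ)) / S) :
    TriB PP.cur (VE (h0 * 0) 3 κ (h0 * x) (eng.v x) (h0 * (1 / 20)) (tnt (h0 * x) (1 / 5)) (tbl tK x) (tbl tL x) (tbl (smT h0⁻¹ tC) x)) 3 1 3 0 1 1 1 :=
  triB_j0

theorem BB01_pm_001 {κ x : ℝ} (hκ : κ * h0 = ken x) (hx : ((740881858 : ℕ) : ℝ) / S ≤ x) (hx' : x ≤ (((740881858 : ℕ) : ℝ) + (40050571 : ℕ)) / S) :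
    TriB PP.cur (VE (h0 * 0) 3 κ (h0 * x) (eng.v x) (h0 * (1 / 20)) (tnt (h0 * x) (1 / 5)) (tbl tK x) (tbl tL x) (tbl (smT h0⁻¹ tC) x)) 0 0 1 0 1 1 (-1) :=
  (sideB hx hx').bothB (thrB hx hx') (en_pos (hx1 hx).le) (Or.inl rfl) (Or.inr rfl) fun y y' F =>
    bothB_cert (s1 := true) (s2 := false) rfl hκ (en_pos (hx1 hx).le) (esg_rng (hx1 hx).le (hx2 hx').le).1 (mo_v x) covB00 covB11 hx hx'
        Pool.Agent.Strip051.G.I69_7273.Tab.C.BB01.c_pm_001 noCut_EB noExt_EB F trivial trivial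

theorem BB01_pm_011 {κ x : ℝ} (hκ : κ * h0 = ken x) (hx : ((740881858 : ℕ) : ℝ) / S ≤ x) (hx' : x ≤ (((740881858 : ℕ) : ℝ) + (40050571 : ℕ)) / S) :
    TriB PP.cur (VE (h0 * 0) 3 κ (h0 * x) (eng.v x) (h0 * (1 / 20)) (tnt (h0 * x) (1 / 5)) (tbl tK x) (tbl tL x) (tbl (smT h0⁻¹ tC) x)) 0 1 1 0 1 1 (-1) :=
  (sideB hx hx').bothB (thrB hx hx') (en_pos (hx1 hx).le) (Or.inl rfl) (Or.inr rfl) fun y y' F =>
    bothB_cert (s1 := true) (s2 := false) rfl hκ (en_pos (hx1 hx).le) (esg_rng (hx1 hx).le (hx2 hx').le).1 (mo_v x) covB00 covB11 hx hx'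
        Pool.Agent.Strip051.G.I69_7273.Tab.C.BB01.c_pm_011 noCut_EB noExt_EB F trivial trivial

theorem BB01_pm_012 {κ x : ℝ} (hκ : κ * h0 = ken x) (hx : ((740881858 : ℕ) : ℝ) / S ≤ x) (hx' : x ≤ (((740881858 : ℕ) : ℝ) + (40050571 : ℕ)) / S) :
    TriB PP.cur (VE (h0 * 0) 3 κ (h0 * x) (eng.v x) (h0 * (1 / 20)) (tnt (h0 * x) (1 / 5)) (tbl tK x) (tbl tL x) (tbl (smT h0⁻¹ tC) x)) 0 1 2 0 1 1 (-1) :=
  (sideB hx hx').bothB (thrB hx hx') (en_pos (hx1 hx).le) (Or.inl rfl) (Or.inr rfl) fun y y' F =>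
    (lt_or_ge (h0 * (y + y')) 1).elim
      (fun g => bothB_cert (s1 := true) (s2 := false) rfl hκ (en_pos (hx1 hx).le) (esg_rng (hx1 hx).le (hx2 hx').le).1 (mo_v x) covB00 covB12a hx hx'
        Pool.Agent.Strip051.G.I69_7273.Tab.C.BB01.c_pm_012_a (cutEB_cons (Pool.Agent.Strip051.G.I69_7273.Tab.altB_B012R_01 hκ hx hx') cutEB_nil) noExt_EB F trivial g)
      (fun g => bothB_cert (s1 := true) (s2 := false) rfl hκ (en_pos (hx1 hx).le) (esg_rng (hx1 hx).le (hx2 hx').le).1 (mo_v x) covB00 covB12b hx hx'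
        Pool.Agent.Strip051.G.I69_7273.Tab.C.BB01.c_pm_012_b (cutEB_cons (Pool.Agent.Strip051.G.I69_7273.Tab.altB_B012R_01 hκ hx hx') cutEB_nil) noExt_EB F trivial g)

theorem BB01_pm_022 {κ x : ℝ} (hκ : κ * h0 = ken x) (hx : ((740881858 : ℕ) : ℝ) / S ≤ x) (hx' : x ≤ (((740881858 : ℕ) : ℝ) + (40050571 : ℕ)) / S) :
    TriB PP.cur (VE (h0 * 0) 3 κ (h0 * x) (eng.v x) (h0 * (1 / 20)) (tnt (h0 * x) (1 / 5)) (tbl tK x) (tbl tL x) (tbl (smT h0⁻¹ tC) x)) 0 2 2 0 1 1 (-1) :=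
  (sideB hx hx').bothB (thrB hx hx') (en_pos (hx1 hx).le) (Or.inl rfl) (Or.inr rfl) fun y y' F =>
    (lt_or_ge (h0 * (y + y')) 1).elim
      (fun g => bothB_cert (s1 := true) (s2 := false) rfl hκ (en_pos (hx1 hx).le) (esg_rng (hx1 hx).le (hx2 hx').le).1 (mo_v x) covB00 covB12a hx hx'
        Pool.Agent.Strip051.G.I69_7273.Tab.C.BB01.c_pm_022_a (cutEB_cons (Pool.Agent.Strip051.G.I69_7273.Tab.altB_B022R_01 hκ hx hx') cutEB_nil) noExt_EB F trivial g)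
      (fun g => bothB_cert (s1 := true) (s2 := false) rfl hκ (en_pos (hx1 hx).le) (esg_rng (hx1 hx).le (hx2 hx').le).1 (mo_v x) covB00 covB12b hx hx'
        Pool.Agent.Strip051.G.I69_7273.Tab.C.BB01.c_pm_022_b (cutEB_cons (Pool.Agent.Strip051.G.I69_7273.Tab.altB_B022R_01 hκ hx hx') cutEB_nil) noExt_EB F trivial g)

theorem BB01_pm_023 {κ x : ℝ} (hκ : κ * h0 = ken x) (hx : ((740881858 : ℕ) : ℝ) / S ≤ x) (hx' : x ≤ (((740881858 : ℕ) : ℝ) + (40050571 : ℕ)) / S) :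
    TriB PP.cur (VE (h0 * 0) 3 κ (h0 * x) (eng.v x) (h0 * (1 / 20)) (tnt (h0 * x) (1 / 5)) (tbl tK x) (tbl tL x) (tbl (smT h0⁻¹ tC) x)) 0 2 3 0 1 1 (-1) :=
  (sideB hx hx').bothB (thrB hx hx') (en_pos (hx1 hx).le) (Or.inl rfl) (Or.inr rfl) fun y y' F =>
    bothB_cert (s1 := true) (s2 := false) rfl hκ (en_pos (hx1 hx).le) (esg_rng (hx1 hx).le (hx2 hx').le).1 (mo_v x) covB00 covB13 hx hx'
        Pool.Agent.Strip051.G.I69_7273.Tab.C.BB01.c_pm_023 noCut_EB noExt_EB F trivial trivial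

theorem BB01_pm_033 {κ x : ℝ} (hκ : κ * h0 = ken x) (hx : ((740881858 : ℕ) : ℝ) / S ≤ x) (hx' : x ≤ (((740881858 : ℕ) : ℝ) + (40050571 : ℕ)) / S) :
    TriB PP.cur (VE (h0 * 0) 3 κ (h0 * x) (eng.v x) (h0 * (1 / 20)) (tnt (h0 * x) (1 / 5)) (tbl tK x) (tbl tL x) (tbl (smT h0⁻¹ tC) x)) 0 3 3 0 1 1 (-1) :=
  (sideB hx hx').bothB (thrB hx hx') (en_pos (hx1 hx).le) (Or.inl rfl) (Or.inr rfl) fun y y' F =>
    bothB_cert (s1 := true) (s2 := false) rfl hκ (en_pos (hx1 hx).le) (esg_rng (hx1 hx).le (hx2 hx').le).1 (mo_v x) covB00 covB13 hx hx'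
        Pool.Agent.Strip051.G.I69_7273.Tab.C.BB01.c_pm_033 noCut_EB noExt_EB F trivial trivial

theorem BB01_pm_101 {κ x : ℝ} (hκ : κ * h0 = ken x) (hx : ((740881858 : ℕ) : ℝ) / S ≤ x) (hx' : x ≤ (((740881858 : ℕ) : ℝ) + (40050571 : ℕ)) / S) :
    TriB PP.cur (VE (h0 * 0) 3 κ (h0 * x) (eng.v x) (h0 * (1 / 20)) (tnt (h0 * x) (1 / 5)) (tbl tK x) (tbl tL x) (tbl (smT h0⁻¹ tC) x)) 1 0 1 0 1 1 (-1) :=
  (sideB hx hx').bothB (thrB hx hx') (en_pos (hx1 hx).le) (Or.inl rfl) (Or.inr rfl) fun y y' F =>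
    bothB_cert (s1 := true) (s2 := false) rfl hκ (en_pos (hx1 hx).le) (esg_rng (hx1 hx).le (hx2 hx').le).1 (mo_v x) covB01 covB11 hx hx'
        Pool.Agent.Strip051.G.I69_7273.Tab.C.BB01.c_pm_101 noCut_EB noExt_EB F trivial trivial

theorem BB01_pm_102 {κ x : ℝ} (hκ : κ * h0 = ken x) (hx : ((740881858 : ℕ) : ℝ) / S ≤ x) (hx' : x ≤ (((740881858 : ℕ) : ℝ) + (40050571 : ℕ)) / S) :
    TriB PP.cur (VE (h0 * 0) 3 κ (h0 * x) (eng.v x) (h0 * (1 / 20)) (tnt (h0 * x) (1 / 5)) (tbl tK x) (tbl tL x) (tbl (smT h0⁻¹ tC) x)) 1 0 2 0 1 1 (-1) :=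
  (sideB hx hx').bothB (thrB hx hx') (en_pos (hx1 hx).le) (Or.inl rfl) (Or.inr rfl) fun y y' F =>
    (lt_or_ge (h0 * (y + y')) 1).elim
      (fun g => bothB_cert (s1 := true) (s2 := false) rfl hκ (en_pos (hx1 hx).le) (esg_rng (hx1 hx).le (hx2 hx').le).1 (mo_v x) covB01 covB12a hx hx'
        Pool.Agent.Strip051.G.I69_7273.Tab.C.BB01.c_pm_102_a (cutEB_cons (Pool.Agent.Strip051.G.I69_7273.Tab.altB_B102E_01 hκ hx hx') (cutEB_cons (Pool.Agent.Strip051.G.I69_7273.Tab.Mo.molE_B_102_01_0 hκ hx hx') cutEB_nil)) (xdB0 hκ hx hx' rfl) F trivial g)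
      (fun g => bothB_cert (s1 := true) (s2 := false) rfl hκ (en_pos (hx1 hx).le) (esg_rng (hx1 hx).le (hx2 hx').le).1 (mo_v x) covB01 covB12b hx hx'
        Pool.Agent.Strip051.G.I69_7273.Tab.C.BB01.c_pm_102_b (cutEB_cons (Pool.Agent.Strip051.G.I69_7273.Tab.altB_B102E_01 hκ hx hx') (cutEB_cons (Pool.Agent.Strip051.G.I69_7273.Tab.Mo.molE_B_102_01_0 hκ hx hx') cutEB_nil)) noExt_EB F trivial g)

theorem BB01_pm_112 {κ x : ℝ} (hκ : κ * h0 = ken x) (hx : ((740881858 : ℕ) : ℝ) / S ≤ x) (hx' : x ≤ (((740881858 : ℕ) : ℝ) + (40050571 : ℕ)) / S) :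
    TriB PP.cur (VE (h0 * 0) 3 κ (h0 * x) (eng.v x) (h0 * (1 / 20)) (tnt (h0 * x) (1 / 5)) (tbl tK x) (tbl tL x) (tbl (smT h0⁻¹ tC) x)) 1 1 2 0 1 1 (-1) :=
  (sideB hx hx').bothB (thrB hx hx') (en_pos (hx1 hx).le) (Or.inl rfl) (Or.inr rfl) fun y y' F =>
    (lt_or_ge (h0 * (y + y')) 1).elim
      (fun g => bothB_cert (s1 := true) (s2 := false) rfl hκ (en_pos (hx1 hx).le) (esg_rng (hx1 hx).le (hx2 hx').le).1 (mo_v x) covB01 covB12a hx hx'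
        Pool.Agent.Strip051.G.I69_7273.Tab.C.BB01.c_pm_112_a noCut_EB noExt_EB F trivial g)
      (fun g => bothB_cert (s1 := true) (s2 := false) rfl hκ (en_pos (hx1 hx).le) (esg_rng (hx1 hx).le (hx2 hx').le).1 (mo_v x) covB01 covB12b hx hx'
        Pool.Agent.Strip051.G.I69_7273.Tab.C.BB01.c_pm_112_b noCut_EB noExt_EB F trivial g)

theorem BB01_pm_113 {κ x : ℝ} (hκ : κ * h0 = ken x) (hx : ((740881858 : ℕ) : ℝ) / S ≤ x) (hx' : x ≤ (((740881858 : ℕ) : ℝ) + (40050571 : ℕ)) / S) :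
    TriB PP.cur (VE (h0 * 0) 3 κ (h0 * x) (eng.v x) (h0 * (1 / 20)) (tnt (h0 * x) (1 / 5)) (tbl tK x) (tbl tL x) (tbl (smT h0⁻¹ tC) x)) 1 1 3 0 1 1 (-1) :=
  (sideB hx hx').bothB (thrB hx hx') (en_pos (hx1 hx).le) (Or.inl rfl) (Or.inr rfl) fun y y' F =>
    bothB_cert (s1 := true) (s2 := false) rfl hκ (en_pos (hx1 hx).le) (esg_rng (hx1 hx).le (hx2 hx').le).1 (mo_v x) covB01 covB13 hx hx'
        Pool.Agent.Strip051.G.I69_7273.Tab.C.BB01.c_pm_113 (cutEB_cons (Pool.Agent.Strip051.G.I69_7273.Tab.alt12B_B113_01m hκ hx hx') cutEB_nil) noExt_EB F trivial trivial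

theorem BB01_pm_123 {κ x : ℝ} (hκ : κ * h0 = ken x) (hx : ((740881858 : ℕ) : ℝ) / S ≤ x) (hx' : x ≤ (((740881858 : ℕ) : ℝ) + (40050571 : ℕ)) / S) :
    TriB PP.cur (VE (h0 * 0) 3 κ (h0 * x) (eng.v x) (h0 * (1 / 20)) (tnt (h0 * x) (1 / 5)) (tbl tK x) (tbl tL x) (tbl (smT h0⁻¹ tC) x)) 1 2 3 0 1 1 (-1) :=
  (sideB hx hx').bothB (thrB hx hx') (en_pos (hx1 hx).le) (Or.inl rfl) (Or.inr rfl) fun y y' F =>
    bothB_cert (s1 := true) (s2 := false) rfl hκ (en_pos (hx1 hx).le) (esg_rng (hx1 hx).le (hx2 hx').le).1 (mo_v x) covB01 covB13 hx hx'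
        Pool.Agent.Strip051.G.I69_7273.Tab.C.BB01.c_pm_123 (cutEB_cons (Pool.Agent.Strip051.G.I69_7273.Tab.alt12B_B123_01m hκ hx hx') cutEB_nil) noExt_EB F trivial trivial

theorem BB01_pm_133 {κ x : ℝ} (hκ : κ * h0 = ken x) (hx : ((740881858 : ℕ) : ℝ) / S ≤ x) (hx' : x ≤ (((740881858 : ℕ) : ℝ) + (40050571 : ℕ)) / S) :
    TriB PP.cur (VE (h0 * 0) 3 κ (h0 * x) (eng.v x) (h0 * (1 / 20)) (tnt (h0 * x) (1 / 5)) (tbl tK x) (tbl tL x) (tbl (smT h0⁻¹ tC) x)) 1 3 3 0 1 1 (-1) :=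
  (sideB hx hx').bothB (thrB hx hx') (en_pos (hx1 hx).le) (Or.inl rfl) (Or.inr rfl) fun y y' F =>
    bothB_cert (s1 := true) (s2 := false) rfl hκ (en_pos (hx1 hx).le) (esg_rng (hx1 hx).le (hx2 hx').le).1 (mo_v x) covB01 covB13 hx hx'
        Pool.Agent.Strip051.G.I69_7273.Tab.C.BB01.c_pm_133 noCut_EB noExt_EB F trivial trivial

theorem BB01_pm_202 {κ x : ℝ} (hκ : κ * h0 = ken x) (hx : ((740881858 : ℕ) : ℝ) / S ≤ x) (hx' : x ≤ (((740881858 : ℕ) : ℝ) + (40050571 : ℕ)) / S) :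
    TriB PP.cur (VE (h0 * 0) 3 κ (h0 * x) (eng.v x) (h0 * (1 / 20)) (tnt (h0 * x) (1 / 5)) (tbl tK x) (tbl tL x) (tbl (smT h0⁻¹ tC) x)) 2 0 2 0 1 1 (-1) :=
  (sideB hx hx').bothB (thrB hx hx') (en_pos (hx1 hx).le) (Or.inl rfl) (Or.inr rfl) fun y y' F =>
    (lt_or_ge (h0 * (y + y')) 1).elim
      (fun g => bothB_cert (s1 := true) (s2 := false) rfl hκ (en_pos (hx1 hx).le) (esg_rng (hx1 hx).le (hx2 hx').le).1 (mo_v x) covB02 covB12a hx hx'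
        Pool.Agent.Strip051.G.I69_7273.Tab.C.BB01.c_pm_202_a (cutEB_cons (Pool.Agent.Strip051.G.I69_7273.Tab.altB_B202E_01 hκ hx hx') cutEB_nil) noExt_EB F trivial g)
      (fun g => bothB_cert (s1 := true) (s2 := false) rfl hκ (en_pos (hx1 hx).le) (esg_rng (hx1 hx).le (hx2 hx').le).1 (mo_v x) covB02 covB12b hx hx'
        Pool.Agent.Strip051.G.I69_7273.Tab.C.BB01.c_pm_202_b (cutEB_cons (Pool.Agent.Strip051.G.I69_7273.Tab.altB_B202E_01 hκ hx hx') cutEB_nil) noExt_EB F trivial g)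

theorem BB01_pm_203 {κ x : ℝ} (hκ : κ * h0 = ken x) (hx : ((740881858 : ℕ) : ℝ) / S ≤ x) (hx' : x ≤ (((740881858 : ℕ) : ℝ) + (40050571 : ℕ)) / S) :
    TriB PP.cur (VE (h0 * 0) 3 κ (h0 * x) (eng.v x) (h0 * (1 / 20)) (tnt (h0 * x) (1 / 5)) (tbl tK x) (tbl tL x) (tbl (smT h0⁻¹ tC) x)) 2 0 3 0 1 1 (-1) :=
  (sideB hx hx').bothB (thrB hx hx') (en_pos (hx1 hx).le) (Or.inl rfl) (Or.inr rfl) fun y y' F =>
    bothB_cert (s1 := true) (s2 := false) rfl hκ (en_pos (hx1 hx).le) (esg_rng (hx1 hx).le (hx2 hx').le).1 (mo_v x) covB02 covB13 hx hx'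
        Pool.Agent.Strip051.G.I69_7273.Tab.C.BB01.c_pm_203 noCut_EB noExt_EB F trivial trivial

theorem BB01_pm_213 {κ x : ℝ} (hκ : κ * h0 = ken x) (hx : ((740881858 : ℕ) : ℝ) / S ≤ x) (hx' : x ≤ (((740881858 : ℕ) : ℝ) + (40050571 : ℕ)) / S) :
    TriB PP.cur (VE (h0 * 0) 3 κ (h0 * x) (eng.v x) (h0 * (1 / 20)) (tnt (h0 * x) (1 / 5)) (tbl tK x) (tbl tL x) (tbl (smT h0⁻¹ tC) x)) 2 1 3 0 1 1 (-1) :=
  (sideB hx hx').bothB (thrB hx hx') (en_pos (hx1 hx).le) (Or.inl rfl) (Or.inr rfl) fun y y' F =>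
    bothB_cert (s1 := true) (s2 := false) rfl hκ (en_pos (hx1 hx).le) (esg_rng (hx1 hx).le (hx2 hx').le).1 (mo_v x) covB02 covB13 hx hx'
        Pool.Agent.Strip051.G.I69_7273.Tab.C.BB01.c_pm_213 (cutEB_cons (Pool.Agent.Strip051.G.I69_7273.Tab.alt12B_B213_01m hκ hx hx') cutEB_nil) noExt_EB F trivial trivial

theorem BB01_pm_303 {κ x : ℝ} (hκ : κ * h0 = ken x) (hx : ((740881858 : ℕ) : ℝ) / S ≤ x) (hx' : x ≤ (((740881858 : ℕ) : ℝ) + (40050571 : ℕ)) / S) :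
    TriB PP.cur (VE (h0 * 0) 3 κ (h0 * x) (eng.v x) (h0 * (1 / 20)) (tnt (h0 * x) (1 / 5)) (tbl tK x) (tbl tL x) (tbl (smT h0⁻¹ tC) x)) 3 0 3 0 1 1 (-1) :=
  triB_j0

theorem BB01_pm_313 {κ x : ℝ} (hκ : κ * h0 = ken x) (hx : ((740881858 : ℕ) : ℝ) / S ≤ x) (hx' : x ≤ (((740881858 : ℕ) : ℝ) + (40050571 : ℕ)) / S) :
    TriB PP.cur (VE (h0 * 0) 3 κ (h0 * x) (eng.v x) (h0 * (1 / 20)) (tnt (h0 * x) (1 / 5)) (tbl tK x) (tbl tL x) (tbl (smT h0⁻¹ tC) x)) 3 1 3 0 1 1 (-1) :=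
  triB_j0

theorem BB01_mm_001 {κ x : ℝ} (hκ : κ * h0 = ken x) (hx : ((740881858 : ℕ) : ℝ) / S ≤ x) (hx' : x ≤ (((740881858 : ℕ) : ℝ) + (40050571 : ℕ)) / S) :
    TriB PP.cur (VE (h0 * 0) 3 κ (h0 * x) (eng.v x) (h0 * (1 / 20)) (tnt (h0 * x) (1 / 5)) (tbl tK x) (tbl tL x) (tbl (smT h0⁻¹ tC) x)) 0 0 1 0 1 (-1) (-1) :=
  (sideB hx hx').bothB (thrB hx hx') (en_pos (hx1 hx).le) (Or.inr rfl) (Or.inr rfl) fun y y' F =>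
    bothB_cert (s1 := false) (s2 := false) rfl hκ (en_pos (hx1 hx).le) (esg_rng (hx1 hx).le (hx2 hx').le).1 (mo_v x) covB00 covB11 hx hx'
        Pool.Agent.Strip051.G.I69_7273.Tab.C.BB01.c_mm_001 noCut_EB noExt_EB F trivial trivial

theorem BB01_mm_011 {κ x : ℝ} (hκ : κ * h0 = ken x) (hx : ((740881858 : ℕ) : ℝ) / S ≤ x) (hx' : x ≤ (((740881858 : ℕ) : ℝ) + (40050571 : ℕ)) / S) :
    TriB PP.cur (VE (h0 * 0) 3 κ (h0 * x) (eng.v x) (h0 * (1 / 20)) (tnt (h0 * x) (1 / 5)) (tbl tK x) (tbl tL x) (tbl (smT h0⁻¹ tC) x)) 0 1 1 0 1 (-1) (-1) :=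
  (sideB hx hx').bothB (thrB hx hx') (en_pos (hx1 hx).le) (Or.inr rfl) (Or.inr rfl) fun y y' F =>
    bothB_cert (s1 := false) (s2 := false) rfl hκ (en_pos (hx1 hx).le) (esg_rng (hx1 hx).le (hx2 hx').le).1 (mo_v x) covB00 covB11 hx hx'
        Pool.Agent.Strip051.G.I69_7273.Tab.C.BB01.c_mm_011 noCut_EB noExt_EB F trivial trivial

theorem BB01_mm_012 {κ x : ℝ} (hκ : κ * h0 = ken x) (hx : ((740881858 : ℕ) : ℝ) / S ≤ x) (hx' : x ≤ (((740881858 : ℕ) : ℝ) + (40050571 : ℕ)) / S) :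
    TriB PP.cur (VE (h0 * 0) 3 κ (h0 * x) (eng.v x) (h0 * (1 / 20)) (tnt (h0 * x) (1 / 5)) (tbl tK x) (tbl tL x) (tbl (smT h0⁻¹ tC) x)) 0 1 2 0 1 (-1) (-1) :=
  (sideB hx hx').bothB (thrB hx hx') (en_pos (hx1 hx).le) (Or.inr rfl) (Or.inr rfl) fun y y' F =>
    (lt_or_ge (h0 * (y + y')) 1).elim
      (fun g => bothB_cert (s1 := false) (s2 := false) rfl hκ (en_pos (hx1 hx).le) (esg_rng (hx1 hx).le (hx2 hx').le).1 (mo_v x) covB00 covB12a hx hx'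
        Pool.Agent.Strip051.G.I69_7273.Tab.C.BB01.c_mm_012_a noCut_EB noExt_EB F trivial g)
      (fun g => bothB_cert (s1 := false) (s2 := false) rfl hκ (en_pos (hx1 hx).le) (esg_rng (hx1 hx).le (hx2 hx').le).1 (mo_v x) covB00 covB12b hx hx'
        Pool.Agent.Strip051.G.I69_7273.Tab.C.BB01.c_mm_012_b noCut_EB noExt_EB F trivial g)

theorem BB01_mm_022 {κ x : ℝ} (hκ : κ * h0 = ken x) (hx : ((740881858 : ℕ) : ℝ) / S ≤ x) (hx' : x ≤ (((740881858 : ℕ) : ℝ) + (40050571 : ℕ)) / S) :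
    TriB PP.cur (VE (h0 * 0) 3 κ (h0 * x) (eng.v x) (h0 * (1 / 20)) (tnt (h0 * x) (1 / 5)) (tbl tK x) (tbl tL x) (tbl (smT h0⁻¹ tC) x)) 0 2 2 0 1 (-1) (-1) :=
  (sideB hx hx').bothB (thrB hx hx') (en_pos (hx1 hx).le) (Or.inr rfl) (Or.inr rfl) fun y y' F =>
    (lt_or_ge (h0 * (y + y')) 1).elim
      (fun g => bothB_cert (s1 := false) (s2 := false) rfl hκ (en_pos (hx1 hx).le) (esg_rng (hx1 hx).le (hx2 hx').le).1 (mo_v x) covB00 covB12a hx hx'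
        Pool.Agent.Strip051.G.I69_7273.Tab.C.BB01.c_mm_022_a noCut_EB noExt_EB F trivial g)
      (fun g => bothB_cert (s1 := false) (s2 := false) rfl hκ (en_pos (hx1 hx).le) (esg_rng (hx1 hx).le (hx2 hx').le).1 (mo_v x) covB00 covB12b hx hx'
        Pool.Agent.Strip051.G.I69_7273.Tab.C.BB01.c_mm_022_b noCut_EB noExt_EB F trivial g)

theorem BB01_mm_023 {κ x : ℝ} (hκ : κ * h0 = ken x) (hx : ((740881858 : ℕ) : ℝ) / S ≤ x) (hx' : x ≤ (((740881858 : ℕ) : ℝ) + (40050571 : ℕ)) / S) :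
    TriB PP.cur (VE (h0 * 0) 3 κ (h0 * x) (eng.v x) (h0 * (1 / 20)) (tnt (h0 * x) (1 / 5)) (tbl tK x) (tbl tL x) (tbl (smT h0⁻¹ tC) x)) 0 2 3 0 1 (-1) (-1) :=
  (sideB hx hx').bothB (thrB hx hx') (en_pos (hx1 hx).le) (Or.inr rfl) (Or.inr rfl) fun y y' F =>
    bothB_cert (s1 := false) (s2 := false) rfl hκ (en_pos (hx1 hx).le) (esg_rng (hx1 hx).le (hx2 hx').le).1 (mo_v x) covB00 covB13 hx hx'
        Pool.Agent.Strip051.G.I69_7273.Tab.C.BB01.c_mm_023 noCut_EB noExt_EB F trivial trivial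

theorem BB01_mm_033 {κ x : ℝ} (hκ : κ * h0 = ken x) (hx : ((740881858 : ℕ) : ℝ) / S ≤ x) (hx' : x ≤ (((740881858 : ℕ) : ℝ) + (40050571 : ℕ)) / S) :
    TriB PP.cur (VE (h0 * 0) 3 κ (h0 * x) (eng.v x) (h0 * (1 / 20)) (tnt (h0 * x) (1 / 5)) (tbl tK x) (tbl tL x) (tbl (smT h0⁻¹ tC) x)) 0 3 3 0 1 (-1) (-1) :=
  (sideB hx hx').bothB (thrB hx hx') (en_pos (hx1 hx).le) (Or.inr rfl) (Or.inr rfl) fun y y' F =>
    bothB_cert (s1 := false) (s2 := false) rfl hκ (en_pos (hx1 hx).le) (esg_rng (hx1 hx).le (hx2 hx').le).1 (mo_v x) covB00 covB13 hx hx'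
        Pool.Agent.Strip051.G.I69_7273.Tab.C.BB01.c_mm_033 noCut_EB noExt_EB F trivial trivial

theorem BB01_mm_101 {κ x : ℝ} (hκ : κ * h0 = ken x) (hx : ((740881858 : ℕ) : ℝ) / S ≤ x) (hx' : x ≤ (((740881858 : ℕ) : ℝ) + (40050571 : ℕ)) / S) :
    TriB PP.cur (VE (h0 * 0) 3 κ (h0 * x) (eng.v x) (h0 * (1 / 20)) (tnt (h0 * x) (1 / 5)) (tbl tK x) (tbl tL x) (tbl (smT h0⁻¹ tC) x)) 1 0 1 0 1 (-1) (-1) :=
  (sideB hx hx').bothB (thrB hx hx') (en_pos (hx1 hx).le) (Or.inr rfl) (Or.inr rfl) fun y y' F =>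
    bothB_cert (s1 := false) (s2 := false) rfl hκ (en_pos (hx1 hx).le) (esg_rng (hx1 hx).le (hx2 hx').le).1 (mo_v x) covB01 covB11 hx hx'
        Pool.Agent.Strip051.G.I69_7273.Tab.C.BB01.c_mm_101 noCut_EB noExt_EB F trivial trivial

theorem BB01_mm_102 {κ x : ℝ} (hκ : κ * h0 = ken x) (hx : ((740881858 : ℕ) : ℝ) / S ≤ x) (hx' : x ≤ (((740881858 : ℕ) : ℝ) + (40050571 : ℕ)) / S) :
    TriB PP.cur (VE (h0 * 0) 3 κ (h0 * x) (eng.v x) (h0 * (1 / 20)) (tnt (h0 * x) (1 / 5)) (tbl tK x) (tbl tL x) (tbl (smT h0⁻¹ tC) x)) 1 0 2 0 1 (-1) (-1) :=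
  (sideB hx hx').bothB (thrB hx hx') (en_pos (hx1 hx).le) (Or.inr rfl) (Or.inr rfl) fun y y' F =>
    (lt_or_ge (h0 * (y + y')) 1).elim
      (fun g => bothB_cert (s1 := false) (s2 := false) rfl hκ (en_pos (hx1 hx).le) (esg_rng (hx1 hx).le (hx2 hx').le).1 (mo_v x) covB01 covB12a hx hx'
        Pool.Agent.Strip051.G.I69_7273.Tab.C.BB01.c_mm_102_a noCut_EB noExt_EB F trivial g)
      (fun g => bothB_cert (s1 := false) (s2 := false) rfl hκ (en_pos (hx1 hx).le) (esg_rng (hx1 hx).le (hx2 hx').le).1 (mo_v x) covB01 covB12b hx hx'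
        Pool.Agent.Strip051.G.I69_7273.Tab.C.BB01.c_mm_102_b noCut_EB noExt_EB F trivial g)

theorem BB01_mm_112 {κ x : ℝ} (hκ : κ * h0 = ken x) (hx : ((740881858 : ℕ) : ℝ) / S ≤ x) (hx' : x ≤ (((740881858 : ℕ) : ℝ) + (40050571 : ℕ)) / S) :
    TriB PP.cur (VE (h0 * 0) 3 κ (h0 * x) (eng.v x) (h0 * (1 / 20)) (tnt (h0 * x) (1 / 5)) (tbl tK x) (tbl tL x) (tbl (smT h0⁻¹ tC) x)) 1 1 2 0 1 (-1) (-1) :=
  (sideB hx hx').bothB (thrB hx hx') (en_pos (hx1 hx).le) (Or.inr rfl) (Or.inr rfl) fun y y' F =>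
    (lt_or_ge (h0 * (y + y')) 1).elim
      (fun g => bothB_cert (s1 := false) (s2 := false) rfl hκ (en_pos (hx1 hx).le) (esg_rng (hx1 hx).le (hx2 hx').le).1 (mo_v x) covB01 covB12a hx hx'
        Pool.Agent.Strip051.G.I69_7273.Tab.C.BB01.c_mm_112_a noCut_EB noExt_EB F trivial g)
      (fun g => bothB_cert (s1 := false) (s2 := false) rfl hκ (en_pos (hx1 hx).le) (esg_rng (hx1 hx).le (hx2 hx').le).1 (mo_v x) covB01 covB12b hx hx'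
        Pool.Agent.Strip051.G.I69_7273.Tab.C.BB01.c_mm_112_b noCut_EB noExt_EB F trivial g)

theorem BB01_mm_113 {κ x : ℝ} (hκ : κ * h0 = ken x) (hx : ((740881858 : ℕ) : ℝ) / S ≤ x) (hx' : x ≤ (((740881858 : ℕ) : ℝ) + (40050571 : ℕ)) / S) :
    TriB PP.cur (VE (h0 * 0) 3 κ (h0 * x) (eng.v x) (h0 * (1 / 20)) (tnt (h0 * x) (1 / 5)) (tbl tK x) (tbl tL x) (tbl (smT h0⁻¹ tC) x)) 1 1 3 0 1 (-1) (-1) :=
  (sideB hx hx').bothB (thrB hx hx') (en_pos (hx1 hx).le) (Or.inr rfl) (Or.inr rfl) fun y y' F =>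
    bothB_cert (s1 := false) (s2 := false) rfl hκ (en_pos (hx1 hx).le) (esg_rng (hx1 hx).le (hx2 hx').le).1 (mo_v x) covB01 covB13 hx hx'
        Pool.Agent.Strip051.G.I69_7273.Tab.C.BB01.c_mm_113 noCut_EB noExt_EB F trivial trivial

theorem BB01_mm_123 {κ x : ℝ} (hκ : κ * h0 = ken x) (hx : ((740881858 : ℕ) : ℝ) / S ≤ x) (hx' : x ≤ (((740881858 : ℕ) : ℝ) + (40050571 : ℕ)) / S) :
    TriB PP.cur (VE (h0 * 0) 3 κ (h0 * x) (eng.v x) (h0 * (1 / 20)) (tnt (h0 * x) (1 / 5)) (tbl tK x) (tbl tL x) (tbl (smT h0⁻¹ tC) x)) 1 2 3 0 1 (-1) (-1) :=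
  (sideB hx hx').bothB (thrB hx hx') (en_pos (hx1 hx).le) (Or.inr rfl) (Or.inr rfl) fun y y' F =>
    bothB_cert (s1 := false) (s2 := false) rfl hκ (en_pos (hx1 hx).le) (esg_rng (hx1 hx).le (hx2 hx').le).1 (mo_v x) covB01 covB13 hx hx'
        Pool.Agent.Strip051.G.I69_7273.Tab.C.BB01.c_mm_123 noCut_EB noExt_EB F trivial trivial

theorem BB01_mm_133 {κ x : ℝ} (hκ : κ * h0 = ken x) (hx : ((740881858 : ℕ) : ℝ) / S ≤ x) (hx' : x ≤ (((740881858 : ℕ) : ℝ) + (40050571 : ℕ)) / S) :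
    TriB PP.cur (VE (h0 * 0) 3 κ (h0 * x) (eng.v x) (h0 * (1 / 20)) (tnt (h0 * x) (1 / 5)) (tbl tK x) (tbl tL x) (tbl (smT h0⁻¹ tC) x)) 1 3 3 0 1 (-1) (-1) :=
  (sideB hx hx').bothB (thrB hx hx') (en_pos (hx1 hx).le) (Or.inr rfl) (Or.inr rfl) fun y y' F =>
    bothB_cert (s1 := false) (s2 := false) rfl hκ (en_pos (hx1 hx).le) (esg_rng (hx1 hx).le (hx2 hx').le).1 (mo_v x) covB01 covB13 hx hx'
        Pool.Agent.Strip051.G.I69_7273.Tab.C.BB01.c_mm_133 noCut_EB noExt_EB F trivial trivial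

theorem BB01_mm_202 {κ x : ℝ} (hκ : κ * h0 = ken x) (hx : ((740881858 : ℕ) : ℝ) / S ≤ x) (hx' : x ≤ (((740881858 : ℕ) : ℝ) + (40050571 : ℕ)) / S) :
    TriB PP.cur (VE (h0 * 0) 3 κ (h0 * x) (eng.v x) (h0 * (1 / 20)) (tnt (h0 * x) (1 / 5)) (tbl tK x) (tbl tL x) (tbl (smT h0⁻¹ tC) x)) 2 0 2 0 1 (-1) (-1) :=
  (sideB hx hx').bothB (thrB hx hx') (en_pos (hx1 hx).le) (Or.inr rfl) (Or.inr rfl) fun y y' F =>
    (lt_or_ge (h0 * (y + y')) 1).elim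
      (fun g => bothB_cert (s1 := false) (s2 := false) rfl hκ (en_pos (hx1 hx).le) (esg_rng (hx1 hx).le (hx2 hx').le).1 (mo_v x) covB02 covB12a hx hx'
        Pool.Agent.Strip051.G.I69_7273.Tab.C.BB01.c_mm_202_a noCut_EB noExt_EB F trivial g)
      (fun g => bothB_cert (s1 := false) (s2 := false) rfl hκ (en_pos (hx1 hx).le) (esg_rng (hx1 hx).le (hx2 hx').le).1 (mo_v x) covB02 covB12b hx hx'
        Pool.Agent.Strip051.G.I69_7273.Tab.C.BB01.c_mm_202_b noCut_EB noExt_EB F trivial g)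

theorem BB01_mm_203 {κ x : ℝ} (hκ : κ * h0 = ken x) (hx : ((740881858 : ℕ) : ℝ) / S ≤ x) (hx' : x ≤ (((740881858 : ℕ) : ℝ) + (40050571 : ℕ)) / S) :
    TriB PP.cur (VE (h0 * 0) 3 κ (h0 * x) (eng.v x) (h0 * (1 / 20)) (tnt (h0 * x) (1 / 5)) (tbl tK x) (tbl tL x) (tbl (smT h0⁻¹ tC) x)) 2 0 3 0 1 (-1) (-1) :=
  (sideB hx hx').bothB (thrB hx hx') (en_pos (hx1 hx).le) (Or.inr rfl) (Or.inr rfl) fun y y' F =>
    bothB_cert (s1 := false) (s2 := false) rfl hκ (en_pos (hx1 hx).le) (esg_rng (hx1 hx).le (hx2 hx').le).1 (mo_v x) covB02 covB13 hx hx'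
        Pool.Agent.Strip051.G.I69_7273.Tab.C.BB01.c_mm_203 noCut_EB noExt_EB F trivial trivial

theorem BB01_mm_213 {κ x : ℝ} (hκ : κ * h0 = ken x) (hx : ((740881858 : ℕ) : ℝ) / S ≤ x) (hx' : x ≤ (((740881858 : ℕ) : ℝ) + (40050571 : ℕ)) / S) :
    TriB PP.cur (VE (h0 * 0) 3 κ (h0 * x) (eng.v x) (h0 * (1 / 20)) (tnt (h0 * x) (1 / 5)) (tbl tK x) (tbl tL x) (tbl (smT h0⁻¹ tC) x)) 2 1 3 0 1 (-1) (-1) :=
  (sideB hx hx').bothB (thrB hx hx') (en_pos (hx1 hx).le) (Or.inr rfl) (Or.inr rfl) fun y y' F =>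
    bothB_cert (s1 := false) (s2 := false) rfl hκ (en_pos (hx1 hx).le) (esg_rng (hx1 hx).le (hx2 hx').le).1 (mo_v x) covB02 covB13 hx hx'
        Pool.Agent.Strip051.G.I69_7273.Tab.C.BB01.c_mm_213 noCut_EB noExt_EB F trivial trivial

theorem BB01_mm_303 {κ x : ℝ} (hκ : κ * h0 = ken x) (hx : ((740881858 : ℕ) : ℝ) / S ≤ x) (hx' : x ≤ (((740881858 : ℕ) : ℝ) + (40050571 : ℕ)) / S) :
    TriB PP.cur (VE (h0 * 0) 3 κ (h0 * x) (eng.v x) (h0 * (1 / 20)) (tnt (h0 * x) (1 / 5)) (tbl tK x) (tbl tL x) (tbl (smT h0⁻¹ tC) x)) 3 0 3 0 1 (-1) (-1) :=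
  triB_j0

theorem BB01_mm_313 {κ x : ℝ} (hκ : κ * h0 = ken x) (hx : ((740881858 : ℕ) : ℝ) / S ≤ x) (hx' : x ≤ (((740881858 : ℕ) : ℝ) + (40050571 : ℕ)) / S) :
    TriB PP.cur (VE (h0 * 0) 3 κ (h0 * x) (eng.v x) (h0 * (1 / 20)) (tnt (h0 * x) (1 / 5)) (tbl tK x) (tbl tL x) (tbl (smT h0⁻¹ tC) x)) 3 1 3 0 1 (-1) (-1) :=
  triB_j0

theorem BB01 {κ x : ℝ} (hκ : κ * h0 = ken x) (hx : ((740881858 : ℕ) : ℝ) / S ≤ x) (hx' : x ≤ (((740881858 : ℕ) : ℝ) + (40050571 : ℕ)) / S) : AllTB PP.cur (VE (h0 * 0) 3 κ (h0 * x) (eng.v x) (h0 * (1 / 20)) (tnt (h0 * x) (1 / 5)) (tbl tK x) (tbl tL x) (tbl (smT h0⁻¹ tC) x)) 0 1 where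
  pp := all17 (Q := fun a b c => TriB PP.cur (VE (h0 * 0) 3 κ (h0 * x) (eng.v x) (h0 * (1 / 20)) (tnt (h0 * x) (1 / 5)) (tbl tK x) (tbl tL x) (tbl (smT h0⁻¹ tC) x)) a b c 0 1 1 1)
    (BB01_pp_001 hκ hx hx') (BB01_pp_011 hκ hx hx') (BB01_pp_012 hκ hx hx') (BB01_pp_022 hκ hx hx') (BB01_pp_023 hκ hx hx') (BB01_pp_033 hκ hx hx') (BB01_pp_101 hκ hx hx') (BB01_pp_102 hκ hx hx') (BB01_pp_112 hκ hx hx') (BB01_pp_113 hκ hx hx') (BB01_pp_123 hκ hx hx') (BB01_pp_133 hκ hx hx') (BB01_pp_202 hκ hx hx') (BB01_pp_203 hκ hx hx') (BB01_pp_213 hκ hx hx') (BB01_pp_303 hκ hx hx') (BB01_pp_313 hκ hx hx')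
  pm := all17 (Q := fun a b c => TriB PP.cur (VE (h0 * 0) 3 κ (h0 * x) (eng.v x) (h0 * (1 / 20)) (tnt (h0 * x) (1 / 5)) (tbl tK x) (tbl tL x) (tbl (smT h0⁻¹ tC) x)) a b c 0 1 1 (-1))
    (BB01_pm_001 hκ hx hx') (BB01_pm_011 hκ hx hx') (BB01_pm_012 hκ hx hx') (BB01_pm_022 hκ hx hx') (BB01_pm_023 hκ hx hx') (BB01_pm_033 hκ hx hx') (BB01_pm_101 hκ hx hx') (BB01_pm_102 hκ hx hx') (BB01_pm_112 hκ hx hx') (BB01_pm_113 hκ hx hx') (BB01_pm_123 hκ hx hx') (BB01_pm_133 hκ hx hx') (BB01_pm_202 hκ hx hx') (BB01_pm_203 hκ hx hx') (BB01_pm_213 hκ hx hx') (BB01_pm_303 hκ hx hx') (BB01_pm_313 hκ hx hx')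
  mm := all17 (Q := fun a b c => TriB PP.cur (VE (h0 * 0) 3 κ (h0 * x) (eng.v x) (h0 * (1 / 20)) (tnt (h0 * x) (1 / 5)) (tbl tK x) (tbl tL x) (tbl (smT h0⁻¹ tC) x)) a b c 0 1 (-1) (-1))
    (BB01_mm_001 hκ hx hx') (BB01_mm_011 hκ hx hx') (BB01_mm_012 hκ hx hx') (BB01_mm_022 hκ hx hx') (BB01_mm_023 hκ hx hx') (BB01_mm_033 hκ hx hx') (BB01_mm_101 hκ hx hx') (BB01_mm_102 hκ hx hx') (BB01_mm_112 hκ hx hx') (BB01_mm_113 hκ hx hx') (BB01_mm_123 hκ hx hx') (BB01_mm_133 hκ hx hx') (BB01_mm_202 hκ hx hx') (BB01_mm_203 hκ hx hx') (BB01_mm_213 hκ hx hx') (BB01_mm_303 hκ hx hx') (BB01_mm_313 hκ hx hx')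

theorem BB02_pp_001 {κ x : ℝ} (hκ : κ * h0 = ken x) (hx : ((740881858 : ℕ) : ℝ) / S ≤ x) (hx' : x ≤ (((740881858 : ℕ) : ℝ) + (40050571 : ℕ)) / S) :
    TriB PP.cur (VE (h0 * 0) 3 κ (h0 * x) (eng.v x) (h0 * (1 / 20)) (tnt (h0 * x) (1 / 5)) (tbl tK x) (tbl tL x) (tbl (smT h0⁻¹ tC) x)) 0 0 1 0 2 1 1 :=
  (sideB hx hx').bothB (thrB hx hx') (en_pos (hx1 hx).le) (Or.inl rfl) (Or.inl rfl) fun y y' F =>
    bothB_cert (s1 := true) (s2 := true) rfl hκ (en_pos (hx1 hx).le) (esg_rng (hx1 hx).le (hx2 hx').le).1 (mo_v x) covB00 covB21 hx hx'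
        Pool.Agent.Strip051.G.I69_7273.Tab.C.BB02.c_pp_001 noCut_EB noExt_EB F trivial trivial

theorem BB02_pp_011 {κ x : ℝ} (hκ : κ * h0 = ken x) (hx : ((740881858 : ℕ) : ℝ) / S ≤ x) (hx' : x ≤ (((740881858 : ℕ) : ℝ) + (40050571 : ℕ)) / S) :
    TriB PP.cur (VE (h0 * 0) 3 κ (h0 * x) (eng.v x) (h0 * (1 / 20)) (tnt (h0 * x) (1 / 5)) (tbl tK x) (tbl tL x) (tbl (smT h0⁻¹ tC) x)) 0 1 1 0 2 1 1 :=
  (sideB hx hx').bothB (thrB hx hx') (en_pos (hx1 hx).le) (Or.inl rfl) (Or.inl rfl) fun y y' F =>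
    bothB_cert (s1 := true) (s2 := true) rfl hκ (en_pos (hx1 hx).le) (esg_rng (hx1 hx).le (hx2 hx').le).1 (mo_v x) covB00 covB21 hx hx'
        Pool.Agent.Strip051.G.I69_7273.Tab.C.BB02.c_pp_011 noCut_EB noExt_EB F trivial trivial

theorem BB02_pp_012 {κ x : ℝ} (hκ : κ * h0 = ken x) (hx : ((740881858 : ℕ) : ℝ) / S ≤ x) (hx' : x ≤ (((740881858 : ℕ) : ℝ) + (40050571 : ℕ)) / S) :
    TriB PP.cur (VE (h0 * 0) 3 κ (h0 * x) (eng.v x) (h0 * (1 / 20)) (tnt (h0 * x) (1 / 5)) (tbl tK x) (tbl tL x) (tbl (smT h0⁻¹ tC) x)) 0 1 2 0 2 1 1 :=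
  (sideB hx hx').bothB (thrB hx hx') (en_pos (hx1 hx).le) (Or.inl rfl) (Or.inl rfl) fun y y' F =>
    (lt_or_ge (h0 * (y + y')) 1).elim
      (fun g => bothB_cert (s1 := true) (s2 := true) rfl hκ (en_pos (hx1 hx).le) (esg_rng (hx1 hx).le (hx2 hx').le).1 (mo_v x) covB00 covB22a hx hx'
        Pool.Agent.Strip051.G.I69_7273.Tab.C.BB02.c_pp_012_a (cutEB_cons (Pool.Agent.Strip051.G.I69_7273.Tab.altB_B012E_02 hκ hx hx') cutEB_nil) noExt_EB F trivial g)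
      (fun g => bothB_cert (s1 := true) (s2 := true) rfl hκ (en_pos (hx1 hx).le) (esg_rng (hx1 hx).le (hx2 hx').le).1 (mo_v x) covB00 covB22b hx hx'
        Pool.Agent.Strip051.G.I69_7273.Tab.C.BB02.c_pp_012_b (cutEB_cons (Pool.Agent.Strip051.G.I69_7273.Tab.altB_B012E_02 hκ hx hx') cutEB_nil) noExt_EB F trivial g)

theorem BB02_pp_022 {κ x : ℝ} (hκ : κ * h0 = ken x) (hx : ((740881858 : ℕ) : ℝ) / S ≤ x) (hx' : x ≤ (((740881858 : ℕ) : ℝ) + (40050571 : ℕ)) / S) :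
    TriB PP.cur (VE (h0 * 0) 3 κ (h0 * x) (eng.v x) (h0 * (1 / 20)) (tnt (h0 * x) (1 / 5)) (tbl tK x) (tbl tL x) (tbl (smT h0⁻¹ tC) x)) 0 2 2 0 2 1 1 :=
  (sideB hx hx').bothB (thrB hx hx') (en_pos (hx1 hx).le) (Or.inl rfl) (Or.inl rfl) fun y y' F =>
    (lt_or_ge (h0 * (y + y')) 1).elim
      (fun g => bothB_cert (s1 := true) (s2 := true) rfl hκ (en_pos (hx1 hx).le) (esg_rng (hx1 hx).le (hx2 hx').le).1 (mo_v x) covB00 covB22a hx hx'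
        Pool.Agent.Strip051.G.I69_7273.Tab.C.BB02.c_pp_022_a (cutEB_cons (Pool.Agent.Strip051.G.I69_7273.Tab.altB_B022E_02 hκ hx hx') cutEB_nil) noExt_EB F trivial g)
      (fun g => bothB_cert (s1 := true) (s2 := true) rfl hκ (en_pos (hx1 hx).le) (esg_rng (hx1 hx).le (hx2 hx').le).1 (mo_v x) covB00 covB22b hx hx'
        Pool.Agent.Strip051.G.I69_7273.Tab.C.BB02.c_pp_022_b (cutEB_cons (Pool.Agent.Strip051.G.I69_7273.Tab.altB_B022E_02 hκ hx hx') cutEB_nil) noExt_EB F trivial g)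

theorem BB02_pp_023 {κ x : ℝ} (hκ : κ * h0 = ken x) (hx : ((740881858 : ℕ) : ℝ) / S ≤ x) (hx' : x ≤ (((740881858 : ℕ) : ℝ) + (40050571 : ℕ)) / S) :
    TriB PP.cur (VE (h0 * 0) 3 κ (h0 * x) (eng.v x) (h0 * (1 / 20)) (tnt (h0 * x) (1 / 5)) (tbl tK x) (tbl tL x) (tbl (smT h0⁻¹ tC) x)) 0 2 3 0 2 1 1 :=
  (sideB hx hx').bothB (thrB hx hx') (en_pos (hx1 hx).le) (Or.inl rfl) (Or.inl rfl) fun y y' F =>
    bothB_cert (s1 := true) (s2 := true) rfl hκ (en_pos (hx1 hx).le) (esg_rng (hx1 hx).le (hx2 hx').le).1 (mo_v x) covB00 covB23 hx hx'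
        Pool.Agent.Strip051.G.I69_7273.Tab.C.BB02.c_pp_023 noCut_EB noExt_EB F trivial trivial

theorem BB02_pp_033 {κ x : ℝ} (hκ : κ * h0 = ken x) (hx : ((740881858 : ℕ) : ℝ) / S ≤ x) (hx' : x ≤ (((740881858 : ℕ) : ℝ) + (40050571 : ℕ)) / S) :
    TriB PP.cur (VE (h0 * 0) 3 κ (h0 * x) (eng.v x) (h0 * (1 / 20)) (tnt (h0 * x) (1 / 5)) (tbl tK x) (tbl tL x) (tbl (smT h0⁻¹ tC) x)) 0 3 3 0 2 1 1 :=
  (sideB hx hx').bothB (thrB hx hx') (en_pos (hx1 hx).le) (Or.inl rfl) (Or.inl rfl) fun y y' F =>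
    bothB_cert (s1 := true) (s2 := true) rfl hκ (en_pos (hx1 hx).le) (esg_rng (hx1 hx).le (hx2 hx').le).1 (mo_v x) covB00 covB23 hx hx'
        Pool.Agent.Strip051.G.I69_7273.Tab.C.BB02.c_pp_033 noCut_EB noExt_EB F trivial trivial

theorem BB02_pp_101 {κ x : ℝ} (hκ : κ * h0 = ken x) (hx : ((740881858 : ℕ) : ℝ) / S ≤ x) (hx' : x ≤ (((740881858 : ℕ) : ℝ) + (40050571 : ℕ)) / S) :
    TriB PP.cur (VE (h0 * 0) 3 κ (h0 * x) (eng.v x) (h0 * (1 / 20)) (tnt (h0 * x) (1 / 5)) (tbl tK x) (tbl tL x) (tbl (smT h0⁻¹ tC) x)) 1 0 1 0 2 1 1 :=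
  (sideB hx hx').bothB (thrB hx hx') (en_pos (hx1 hx).le) (Or.inl rfl) (Or.inl rfl) fun y y' F =>
    bothB_cert (s1 := true) (s2 := true) rfl hκ (en_pos (hx1 hx).le) (esg_rng (hx1 hx).le (hx2 hx').le).1 (mo_v x) covB01 covB21 hx hx'
        Pool.Agent.Strip051.G.I69_7273.Tab.C.BB02.c_pp_101 noCut_EB noExt_EB F trivial trivial

theorem BB02_pp_102 {κ x : ℝ} (hκ : κ * h0 = ken x) (hx : ((740881858 : ℕ) : ℝ) / S ≤ x) (hx' : x ≤ (((740881858 : ℕ) : ℝ) + (40050571 : ℕ)) / S) :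
    TriB PP.cur (VE (h0 * 0) 3 κ (h0 * x) (eng.v x) (h0 * (1 / 20)) (tnt (h0 * x) (1 / 5)) (tbl tK x) (tbl tL x) (tbl (smT h0⁻¹ tC) x)) 1 0 2 0 2 1 1 :=
  (sideB hx hx').bothB (thrB hx hx') (en_pos (hx1 hx).le) (Or.inl rfl) (Or.inl rfl) fun y y' F =>
    (lt_or_ge (h0 * (y + y')) 1).elim
      (fun g => bothB_cert (s1 := true) (s2 := true) rfl hκ (en_pos (hx1 hx).le) (esg_rng (hx1 hx).le (hx2 hx').le).1 (mo_v x) covB01 covB22a hx hx'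
        Pool.Agent.Strip051.G.I69_7273.Tab.C.BB02.c_pp_102_a noCut_EB noExt_EB F trivial g)
      (fun g => bothB_cert (s1 := true) (s2 := true) rfl hκ (en_pos (hx1 hx).le) (esg_rng (hx1 hx).le (hx2 hx').le).1 (mo_v x) covB01 covB22b hx hx'
        Pool.Agent.Strip051.G.I69_7273.Tab.C.BB02.c_pp_102_b noCut_EB noExt_EB F trivial g)

theorem BB02_pp_112 {κ x : ℝ} (hκ : κ * h0 = ken x) (hx : ((740881858 : ℕ) : ℝ) / S ≤ x) (hx' : x ≤ (((740881858 : ℕ) : ℝ) + (40050571 : ℕ)) / S) :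
    TriB PP.cur (VE (h0 * 0) 3 κ (h0 * x) (eng.v x) (h0 * (1 / 20)) (tnt (h0 * x) (1 / 5)) (tbl tK x) (tbl tL x) (tbl (smT h0⁻¹ tC) x)) 1 1 2 0 2 1 1 :=
  (sideB hx hx').bothB (thrB hx hx') (en_pos (hx1 hx).le) (Or.inl rfl) (Or.inl rfl) fun y y' F =>
    (lt_or_ge (h0 * (y + y')) 1).elim
      (fun g => bothB_cert (s1 := true) (s2 := true) rfl hκ (en_pos (hx1 hx).le) (esg_rng (hx1 hx).le (hx2 hx').le).1 (mo_v x) covB01 covB22a hx hx'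
        Pool.Agent.Strip051.G.I69_7273.Tab.C.BB02.c_pp_112_a noCut_EB noExt_EB F trivial g)
      (fun g => bothB_cert (s1 := true) (s2 := true) rfl hκ (en_pos (hx1 hx).le) (esg_rng (hx1 hx).le (hx2 hx').le).1 (mo_v x) covB01 covB22b hx hx'
        Pool.Agent.Strip051.G.I69_7273.Tab.C.BB02.c_pp_112_b noCut_EB noExt_EB F trivial g)

theorem BB02_pp_113 {κ x : ℝ} (hκ : κ * h0 = ken x) (hx : ((740881858 : ℕ) : ℝ) / S ≤ x) (hx' : x ≤ (((740881858 : ℕ) : ℝ) + (40050571 : ℕ)) / S) :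
    TriB PP.cur (VE (h0 * 0) 3 κ (h0 * x) (eng.v x) (h0 * (1 / 20)) (tnt (h0 * x) (1 / 5)) (tbl tK x) (tbl tL x) (tbl (smT h0⁻¹ tC) x)) 1 1 3 0 2 1 1 :=
  (sideB hx hx').bothB (thrB hx hx') (en_pos (hx1 hx).le) (Or.inl rfl) (Or.inl rfl) fun y y' F =>
    bothB_cert (s1 := true) (s2 := true) rfl hκ (en_pos (hx1 hx).le) (esg_rng (hx1 hx).le (hx2 hx').le).1 (mo_v x) covB01 covB23 hx hx'
        Pool.Agent.Strip051.G.I69_7273.Tab.C.BB02.c_pp_113 (cutEB_cons (Pool.Agent.Strip051.G.I69_7273.Tab.alt12B_B113_02p hκ hx hx') cutEB_nil) noExt_EB F trivial trivial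

theorem BB02_pp_123 {κ x : ℝ} (hκ : κ * h0 = ken x) (hx : ((740881858 : ℕ) : ℝ) / S ≤ x) (hx' : x ≤ (((740881858 : ℕ) : ℝ) + (40050571 : ℕ)) / S) :
    TriB PP.cur (VE (h0 * 0) 3 κ (h0 * x) (eng.v x) (h0 * (1 / 20)) (tnt (h0 * x) (1 / 5)) (tbl tK x) (tbl tL x) (tbl (smT h0⁻¹ tC) x)) 1 2 3 0 2 1 1 :=
  (sideB hx hx').bothB (thrB hx hx') (en_pos (hx1 hx).le) (Or.inl rfl) (Or.inl rfl) fun y y' F =>
    bothB_cert (s1 := true) (s2 := true) rfl hκ (en_pos (hx1 hx).le) (esg_rng (hx1 hx).le (hx2 hx').le).1 (mo_v x) covB01 covB23 hx hx'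
        Pool.Agent.Strip051.G.I69_7273.Tab.C.BB02.c_pp_123 (cutEB_cons (Pool.Agent.Strip051.G.I69_7273.Tab.alt12B_B123_02p hκ hx hx') cutEB_nil) noExt_EB F trivial trivial

theorem BB02_pp_133 {κ x : ℝ} (hκ : κ * h0 = ken x) (hx : ((740881858 : ℕ) : ℝ) / S ≤ x) (hx' : x ≤ (((740881858 : ℕ) : ℝ) + (40050571 : ℕ)) / S) :
    TriB PP.cur (VE (h0 * 0) 3 κ (h0 * x) (eng.v x) (h0 * (1 / 20)) (tnt (h0 * x) (1 / 5)) (tbl tK x) (tbl tL x) (tbl (smT h0⁻¹ tC) x)) 1 3 3 0 2 1 1 :=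
  (sideB hx hx').bothB (thrB hx hx') (en_pos (hx1 hx).le) (Or.inl rfl) (Or.inl rfl) fun y y' F =>
    bothB_cert (s1 := true) (s2 := true) rfl hκ (en_pos (hx1 hx).le) (esg_rng (hx1 hx).le (hx2 hx').le).1 (mo_v x) covB01 covB23 hx hx'
        Pool.Agent.Strip051.G.I69_7273.Tab.C.BB02.c_pp_133 noCut_EB noExt_EB F trivial trivial

theorem BB02_pp_202 {κ x : ℝ} (hκ : κ * h0 = ken x) (hx : ((740881858 : ℕ) : ℝ) / S ≤ x) (hx' : x ≤ (((740881858 : ℕ) : ℝ) + (40050571 : ℕ)) / S) :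
    TriB PP.cur (VE (h0 * 0) 3 κ (h0 * x) (eng.v x) (h0 * (1 / 20)) (tnt (h0 * x) (1 / 5)) (tbl tK x) (tbl tL x) (tbl (smT h0⁻¹ tC) x)) 2 0 2 0 2 1 1 :=
  (sideB hx hx').bothB (thrB hx hx') (en_pos (hx1 hx).le) (Or.inl rfl) (Or.inl rfl) fun y y' F =>
    (lt_or_ge (h0 * (y + y')) 1).elim
      (fun g => bothB_cert (s1 := true) (s2 := true) rfl hκ (en_pos (hx1 hx).le) (esg_rng (hx1 hx).le (hx2 hx').le).1 (mo_v x) covB02 covB22a hx hx'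
        Pool.Agent.Strip051.G.I69_7273.Tab.C.BB02.c_pp_202_a noCut_EB noExt_EB F trivial g)
      (fun g => bothB_cert (s1 := true) (s2 := true) rfl hκ (en_pos (hx1 hx).le) (esg_rng (hx1 hx).le (hx2 hx').le).1 (mo_v x) covB02 covB22b hx hx'
        Pool.Agent.Strip051.G.I69_7273.Tab.C.BB02.c_pp_202_b noCut_EB noExt_EB F trivial g)

theorem BB02_pp_203 {κ x : ℝ} (hκ : κ * h0 = ken x) (hx : ((740881858 : ℕ) : ℝ) / S ≤ x) (hx' : x ≤ (((740881858 : ℕ) : ℝ) + (40050571 : ℕ)) / S) :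
    TriB PP.cur (VE (h0 * 0) 3 κ (h0 * x) (eng.v x) (h0 * (1 / 20)) (tnt (h0 * x) (1 / 5)) (tbl tK x) (tbl tL x) (tbl (smT h0⁻¹ tC) x)) 2 0 3 0 2 1 1 :=
  (sideB hx hx').bothB (thrB hx hx') (en_pos (hx1 hx).le) (Or.inl rfl) (Or.inl rfl) fun y y' F =>
    bothB_cert (s1 := true) (s2 := true) rfl hκ (en_pos (hx1 hx).le) (esg_rng (hx1 hx).le (hx2 hx').le).1 (mo_v x) covB02 covB23 hx hx'
        Pool.Agent.Strip051.G.I69_7273.Tab.C.BB02.c_pp_203 noCut_EB noExt_EB F trivial trivial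

theorem BB02_pp_213 {κ x : ℝ} (hκ : κ * h0 = ken x) (hx : ((740881858 : ℕ) : ℝ) / S ≤ x) (hx' : x ≤ (((740881858 : ℕ) : ℝ) + (40050571 : ℕ)) / S) :
    TriB PP.cur (VE (h0 * 0) 3 κ (h0 * x) (eng.v x) (h0 * (1 / 20)) (tnt (h0 * x) (1 / 5)) (tbl tK x) (tbl tL x) (tbl (smT h0⁻¹ tC) x)) 2 1 3 0 2 1 1 :=
  (sideB hx hx').bothB (thrB hx hx') (en_pos (hx1 hx).le) (Or.inl rfl) (Or.inl rfl) fun y y' F =>
    bothB_cert (s1 := true) (s2 := true) rfl hκ (en_pos (hx1 hx).le) (esg_rng (hx1 hx).le (hx2 hx').le).1 (mo_v x) covB02 covB23 hx hx'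
        Pool.Agent.Strip051.G.I69_7273.Tab.C.BB02.c_pp_213 (cutEB_cons (Pool.Agent.Strip051.G.I69_7273.Tab.alt12B_B213_02p hκ hx hx') cutEB_nil) noExt_EB F trivial trivial

theorem BB02_pp_303 {κ x : ℝ} (hκ : κ * h0 = ken x) (hx : ((740881858 : ℕ) : ℝ) / S ≤ x) (hx' : x ≤ (((740881858 : ℕ) : ℝ) + (40050571 : ℕ)) / S) :
    TriB PP.cur (VE (h0 * 0) 3 κ (h0 * x) (eng.v x) (h0 * (1 / 20)) (tnt (h0 * x) (1 / 5)) (tbl tK x) (tbl tL x) (tbl (smT h0⁻¹ tC) x)) 3 0 3 0 2 1 1 :=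
  triB_j0

theorem BB02_pp_313 {κ x : ℝ} (hκ : κ * h0 = ken x) (hx : ((740881858 : ℕ) : ℝ) / S ≤ x) (hx' : x ≤ (((740881858 : ℕ) : ℝ) + (40050571 : ℕ)) / S) :
    TriB PP.cur (VE (h0 * 0) 3 κ (h0 * x) (eng.v x) (h0 * (1 / 20)) (tnt (h0 * x) (1 / 5)) (tbl tK x) (tbl tL x) (tbl (smT h0⁻¹ tC) x)) 3 1 3 0 2 1 1 :=
  triB_j0

theorem BB02_pm_001 {κ x : ℝ} (hκ : κ * h0 = ken x) (hx : ((740881858 : ℕ) : ℝ) / S ≤ x) (hx' : x ≤ (((740881858 : ℕ) : ℝ) + (40050571 : ℕ)) / S) :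
    TriB PP.cur (VE (h0 * 0) 3 κ (h0 * x) (eng.v x) (h0 * (1 / 20)) (tnt (h0 * x) (1 / 5)) (tbl tK x) (tbl tL x) (tbl (smT h0⁻¹ tC) x)) 0 0 1 0 2 1 (-1) :=
  (sideB hx hx').bothB (thrB hx hx') (en_pos (hx1 hx).le) (Or.inl rfl) (Or.inr rfl) fun y y' F =>
    bothB_cert (s1 := true) (s2 := false) rfl hκ (en_pos (hx1 hx).le) (esg_rng (hx1 hx).le (hx2 hx').le).1 (mo_v x) covB00 covB21 hx hx'
        Pool.Agent.Strip051.G.I69_7273.Tab.C.BB02.c_pm_001 noCut_EB noExt_EB F trivial trivial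

theorem BB02_pm_011 {κ x : ℝ} (hκ : κ * h0 = ken x) (hx : ((740881858 : ℕ) : ℝ) / S ≤ x) (hx' : x ≤ (((740881858 : ℕ) : ℝ) + (40050571 : ℕ)) / S) :
    TriB PP.cur (VE (h0 * 0) 3 κ (h0 * x) (eng.v x) (h0 * (1 / 20)) (tnt (h0 * x) (1 / 5)) (tbl tK x) (tbl tL x) (tbl (smT h0⁻¹ tC) x)) 0 1 1 0 2 1 (-1) :=
  (sideB hx hx').bothB (thrB hx hx') (en_pos (hx1 hx).le) (Or.inl rfl) (Or.inr rfl) fun y y' F =>
    bothB_cert (s1 := true) (s2 := false) rfl hκ (en_pos (hx1 hx).le) (esg_rng (hx1 hx).le (hx2 hx').le).1 (mo_v x) covB00 covB21 hx hx'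
        Pool.Agent.Strip051.G.I69_7273.Tab.C.BB02.c_pm_011 noCut_EB noExt_EB F trivial trivial

theorem BB02_pm_012 {κ x : ℝ} (hκ : κ * h0 = ken x) (hx : ((740881858 : ℕ) : ℝ) / S ≤ x) (hx' : x ≤ (((740881858 : ℕ) : ℝ) + (40050571 : ℕ)) / S) :
    TriB PP.cur (VE (h0 * 0) 3 κ (h0 * x) (eng.v x) (h0 * (1 / 20)) (tnt (h0 * x) (1 / 5)) (tbl tK x) (tbl tL x) (tbl (smT h0⁻¹ tC) x)) 0 1 2 0 2 1 (-1) :=
  (sideB hx hx').bothB (thrB hx hx') (en_pos (hx1 hx).le) (Or.inl rfl) (Or.inr rfl) fun y y' F =>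
    (lt_or_ge (h0 * (y + y')) 1).elim
      (fun g => bothB_cert (s1 := true) (s2 := false) rfl hκ (en_pos (hx1 hx).le) (esg_rng (hx1 hx).le (hx2 hx').le).1 (mo_v x) covB00 covB22a hx hx'
        Pool.Agent.Strip051.G.I69_7273.Tab.C.BB02.c_pm_012_a (cutEB_cons (Pool.Agent.Strip051.G.I69_7273.Tab.altB_B012R_02 hκ hx hx') cutEB_nil) noExt_EB F trivial g)
      (fun g => bothB_cert (s1 := true) (s2 := false) rfl hκ (en_pos (hx1 hx).le) (esg_rng (hx1 hx).le (hx2 hx').le).1 (mo_v x) covB00 covB22b hx hx'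
        Pool.Agent.Strip051.G.I69_7273.Tab.C.BB02.c_pm_012_b (cutEB_cons (Pool.Agent.Strip051.G.I69_7273.Tab.altB_B012R_02 hκ hx hx') cutEB_nil) noExt_EB F trivial g)

theorem BB02_pm_022 {κ x : ℝ} (hκ : κ * h0 = ken x) (hx : ((740881858 : ℕ) : ℝ) / S ≤ x) (hx' : x ≤ (((740881858 : ℕ) : ℝ) + (40050571 : ℕ)) / S) :
    TriB PP.cur (VE (h0 * 0) 3 κ (h0 * x) (eng.v x) (h0 * (1 / 20)) (tnt (h0 * x) (1 / 5)) (tbl tK x) (tbl tL x) (tbl (smT h0⁻¹ tC) x)) 0 2 2 0 2 1 (-1) :=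
  (sideB hx hx').bothB (thrB hx hx') (en_pos (hx1 hx).le) (Or.inl rfl) (Or.inr rfl) fun y y' F =>
    (lt_or_ge (h0 * (y + y')) 1).elim
      (fun g => bothB_cert (s1 := true) (s2 := false) rfl hκ (en_pos (hx1 hx).le) (esg_rng (hx1 hx).le (hx2 hx').le).1 (mo_v x) covB00 covB22a hx hx'
        Pool.Agent.Strip051.G.I69_7273.Tab.C.BB02.c_pm_022_a (cutEB_cons (Pool.Agent.Strip051.G.I69_7273.Tab.altB_B022R_02 hκ hx hx') cutEB_nil) noExt_EB F trivial g)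
      (fun g => bothB_cert (s1 := true) (s2 := false) rfl hκ (en_pos (hx1 hx).le) (esg_rng (hx1 hx).le (hx2 hx').le).1 (mo_v x) covB00 covB22b hx hx'
        Pool.Agent.Strip051.G.I69_7273.Tab.C.BB02.c_pm_022_b (cutEB_cons (Pool.Agent.Strip051.G.I69_7273.Tab.altB_B022R_02 hκ hx hx') cutEB_nil) noExt_EB F trivial g)

theorem BB02_pm_023 {κ x : ℝ} (hκ : κ * h0 = ken x) (hx : ((740881858 : ℕ) : ℝ) / S ≤ x) (hx' : x ≤ (((740881858 : ℕ) : ℝ) + (40050571 : ℕ)) / S) :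
    TriB PP.cur (VE (h0 * 0) 3 κ (h0 * x) (eng.v x) (h0 * (1 / 20)) (tnt (h0 * x) (1 / 5)) (tbl tK x) (tbl tL x) (tbl (smT h0⁻¹ tC) x)) 0 2 3 0 2 1 (-1) :=
  (sideB hx hx').bothB (thrB hx hx') (en_pos (hx1 hx).le) (Or.inl rfl) (Or.inr rfl) fun y y' F =>
    bothB_cert (s1 := true) (s2 := false) rfl hκ (en_pos (hx1 hx).le) (esg_rng (hx1 hx).le (hx2 hx').le).1 (mo_v x) covB00 covB23 hx hx'
        Pool.Agent.Strip051.G.I69_7273.Tab.C.BB02.c_pm_023 noCut_EB noExt_EB F trivial trivial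

theorem BB02_pm_033 {κ x : ℝ} (hκ : κ * h0 = ken x) (hx : ((740881858 : ℕ) : ℝ) / S ≤ x) (hx' : x ≤ (((740881858 : ℕ) : ℝ) + (40050571 : ℕ)) / S) :
    TriB PP.cur (VE (h0 * 0) 3 κ (h0 * x) (eng.v x) (h0 * (1 / 20)) (tnt (h0 * x) (1 / 5)) (tbl tK x) (tbl tL x) (tbl (smT h0⁻¹ tC) x)) 0 3 3 0 2 1 (-1) :=
  (sideB hx hx').bothB (thrB hx hx') (en_pos (hx1 hx).le) (Or.inl rfl) (Or.inr rfl) fun y y' F =>
    bothB_cert (s1 := true) (s2 := false) rfl hκ (en_pos (hx1 hx).le) (esg_rng (hx1 hx).le (hx2 hx').le).1 (mo_v x) covB00 covB23 hx hx'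
        Pool.Agent.Strip051.G.I69_7273.Tab.C.BB02.c_pm_033 noCut_EB noExt_EB F trivial trivial

theorem BB02_pm_101 {κ x : ℝ} (hκ : κ * h0 = ken x) (hx : ((740881858 : ℕ) : ℝ) / S ≤ x) (hx' : x ≤ (((740881858 : ℕ) : ℝ) + (40050571 : ℕ)) / S) :
    TriB PP.cur (VE (h0 * 0) 3 κ (h0 * x) (eng.v x) (h0 * (1 / 20)) (tnt (h0 * x) (1 / 5)) (tbl tK x) (tbl tL x) (tbl (smT h0⁻¹ tC) x)) 1 0 1 0 2 1 (-1) :=
  (sideB hx hx').bothB (thrB hx hx') (en_pos (hx1 hx).le) (Or.inl rfl) (Or.inr rfl) fun y y' F =>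
    bothB_cert (s1 := true) (s2 := false) rfl hκ (en_pos (hx1 hx).le) (esg_rng (hx1 hx).le (hx2 hx').le).1 (mo_v x) covB01 covB21 hx hx'
        Pool.Agent.Strip051.G.I69_7273.Tab.C.BB02.c_pm_101 noCut_EB noExt_EB F trivial trivial

theorem BB02_pm_102 {κ x : ℝ} (hκ : κ * h0 = ken x) (hx : ((740881858 : ℕ) : ℝ) / S ≤ x) (hx' : x ≤ (((740881858 : ℕ) : ℝ) + (40050571 : ℕ)) / S) :
    TriB PP.cur (VE (h0 * 0) 3 κ (h0 * x) (eng.v x) (h0 * (1 / 20)) (tnt (h0 * x) (1 / 5)) (tbl tK x) (tbl tL x) (tbl (smT h0⁻¹ tC) x)) 1 0 2 0 2 1 (-1) :=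
  (sideB hx hx').bothB (thrB hx hx') (en_pos (hx1 hx).le) (Or.inl rfl) (Or.inr rfl) fun y y' F =>
    (lt_or_ge (h0 * (y + y')) 1).elim
      (fun g => bothB_cert (s1 := true) (s2 := false) rfl hκ (en_pos (hx1 hx).le) (esg_rng (hx1 hx).le (hx2 hx').le).1 (mo_v x) covB01 covB22a hx hx'
        Pool.Agent.Strip051.G.I69_7273.Tab.C.BB02.c_pm_102_a (cutEB_cons (Pool.Agent.Strip051.G.I69_7273.Tab.altB_B102E_02 hκ hx hx') (cutEB_cons (Pool.Agent.Strip051.G.I69_7273.Tab.Mo.molE_B_102_02_0 hκ hx hx') cutEB_nil)) (xdB0 hκ hx hx' rfl) F trivial g)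
      (fun g => bothB_cert (s1 := true) (s2 := false) rfl hκ (en_pos (hx1 hx).le) (esg_rng (hx1 hx).le (hx2 hx').le).1 (mo_v x) covB01 covB22b hx hx'
        Pool.Agent.Strip051.G.I69_7273.Tab.C.BB02.c_pm_102_b (cutEB_cons (Pool.Agent.Strip051.G.I69_7273.Tab.altB_B102E_02 hκ hx hx') (cutEB_cons (Pool.Agent.Strip051.G.I69_7273.Tab.Mo.molE_B_102_02_0 hκ hx hx') cutEB_nil)) noExt_EB F trivial g)

theorem BB02_pm_112 {κ x : ℝ} (hκ : κ * h0 = ken x) (hx : ((740881858 : ℕ) : ℝ) / S ≤ x) (hx' : x ≤ (((740881858 : ℕ) : ℝ) + (40050571 : ℕ)) / S) :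
    TriB PP.cur (VE (h0 * 0) 3 κ (h0 * x) (eng.v x) (h0 * (1 / 20)) (tnt (h0 * x) (1 / 5)) (tbl tK x) (tbl tL x) (tbl (smT h0⁻¹ tC) x)) 1 1 2 0 2 1 (-1) :=
  (sideB hx hx').bothB (thrB hx hx') (en_pos (hx1 hx).le) (Or.inl rfl) (Or.inr rfl) fun y y' F =>
    (lt_or_ge (h0 * (y + y')) 1).elim
      (fun g => bothB_cert (s1 := true) (s2 := false) rfl hκ (en_pos (hx1 hx).le) (esg_rng (hx1 hx).le (hx2 hx').le).1 (mo_v x) covB01 covB22a hx hx'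
        Pool.Agent.Strip051.G.I69_7273.Tab.C.BB02.c_pm_112_a noCut_EB noExt_EB F trivial g)
      (fun g => bothB_cert (s1 := true) (s2 := false) rfl hκ (en_pos (hx1 hx).le) (esg_rng (hx1 hx).le (hx2 hx').le).1 (mo_v x) covB01 covB22b hx hx'
        Pool.Agent.Strip051.G.I69_7273.Tab.C.BB02.c_pm_112_b noCut_EB noExt_EB F trivial g)

theorem BB02_pm_113 {κ x : ℝ} (hκ : κ * h0 = ken x) (hx : ((740881858 : ℕ) : ℝ) / S ≤ x) (hx' : x ≤ (((740881858 : ℕ) : ℝ) + (40050571 : ℕ)) / S) :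
    TriB PP.cur (VE (h0 * 0) 3 κ (h0 * x) (eng.v x) (h0 * (1 / 20)) (tnt (h0 * x) (1 / 5)) (tbl tK x) (tbl tL x) (tbl (smT h0⁻¹ tC) x)) 1 1 3 0 2 1 (-1) :=
  (sideB hx hx').bothB (thrB hx hx') (en_pos (hx1 hx).le) (Or.inl rfl) (Or.inr rfl) fun y y' F =>
    bothB_cert (s1 := true) (s2 := false) rfl hκ (en_pos (hx1 hx).le) (esg_rng (hx1 hx).le (hx2 hx').le).1 (mo_v x) covB01 covB23 hx hx'
        Pool.Agent.Strip051.G.I69_7273.Tab.C.BB02.c_pm_113 (cutEB_cons (Pool.Agent.Strip051.G.I69_7273.Tab.alt12B_B113_02m hκ hx hx') cutEB_nil) noExt_EB F trivial trivial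

theorem BB02_pm_123 {κ x : ℝ} (hκ : κ * h0 = ken x) (hx : ((740881858 : ℕ) : ℝ) / S ≤ x) (hx' : x ≤ (((740881858 : ℕ) : ℝ) + (40050571 : ℕ)) / S) :
    TriB PP.cur (VE (h0 * 0) 3 κ (h0 * x) (eng.v x) (h0 * (1 / 20)) (tnt (h0 * x) (1 / 5)) (tbl tK x) (tbl tL x) (tbl (smT h0⁻¹ tC) x)) 1 2 3 0 2 1 (-1) :=
  (sideB hx hx').bothB (thrB hx hx') (en_pos (hx1 hx).le) (Or.inl rfl) (Or.inr rfl) fun y y' F =>
    bothB_cert (s1 := true) (s2 := false) rfl hκ (en_pos (hx1 hx).le) (esg_rng (hx1 hx).le (hx2 hx').le).1 (mo_v x) covB01 covB23 hx hx'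
        Pool.Agent.Strip051.G.I69_7273.Tab.C.BB02.c_pm_123 (cutEB_cons (Pool.Agent.Strip051.G.I69_7273.Tab.alt12B_B123_02m hκ hx hx') cutEB_nil) noExt_EB F trivial trivial

theorem BB02_pm_133 {κ x : ℝ} (hκ : κ * h0 = ken x) (hx : ((740881858 : ℕ) : ℝ) / S ≤ x) (hx' : x ≤ (((740881858 : ℕ) : ℝ) + (40050571 : ℕ)) / S) :
    TriB PP.cur (VE (h0 * 0) 3 κ (h0 * x) (eng.v x) (h0 * (1 / 20)) (tnt (h0 * x) (1 / 5)) (tbl tK x) (tbl tL x) (tbl (smT h0⁻¹ tC) x)) 1 3 3 0 2 1 (-1) :=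
  (sideB hx hx').bothB (thrB hx hx') (en_pos (hx1 hx).le) (Or.inl rfl) (Or.inr rfl) fun y y' F =>
    bothB_cert (s1 := true) (s2 := false) rfl hκ (en_pos (hx1 hx).le) (esg_rng (hx1 hx).le (hx2 hx').le).1 (mo_v x) covB01 covB23 hx hx'
        Pool.Agent.Strip051.G.I69_7273.Tab.C.BB02.c_pm_133 noCut_EB noExt_EB F trivial trivial

theorem BB02_pm_202 {κ x : ℝ} (hκ : κ * h0 = ken x) (hx : ((740881858 : ℕ) : ℝ) / S ≤ x) (hx' : x ≤ (((740881858 : ℕ) : ℝ) + (40050571 : ℕ)) / S) :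
    TriB PP.cur (VE (h0 * 0) 3 κ (h0 * x) (eng.v x) (h0 * (1 / 20)) (tnt (h0 * x) (1 / 5)) (tbl tK x) (tbl tL x) (tbl (smT h0⁻¹ tC) x)) 2 0 2 0 2 1 (-1) :=
  (sideB hx hx').bothB (thrB hx hx') (en_pos (hx1 hx).le) (Or.inl rfl) (Or.inr rfl) fun y y' F =>
    (lt_or_ge (h0 * (y + y')) 1).elim
      (fun g => bothB_cert (s1 := true) (s2 := false) rfl hκ (en_pos (hx1 hx).le) (esg_rng (hx1 hx).le (hx2 hx').le).1 (mo_v x) covB02 covB22a hx hx'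
        Pool.Agent.Strip051.G.I69_7273.Tab.C.BB02.c_pm_202_a (cutEB_cons (Pool.Agent.Strip051.G.I69_7273.Tab.altB_B202E_02 hκ hx hx') cutEB_nil) noExt_EB F trivial g)
      (fun g => bothB_cert (s1 := true) (s2 := false) rfl hκ (en_pos (hx1 hx).le) (esg_rng (hx1 hx).le (hx2 hx').le).1 (mo_v x) covB02 covB22b hx hx'
        Pool.Agent.Strip051.G.I69_7273.Tab.C.BB02.c_pm_202_b (cutEB_cons (Pool.Agent.Strip051.G.I69_7273.Tab.altB_B202E_02 hκ hx hx') cutEB_nil) noExt_EB F trivial g)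

theorem BB02_pm_203 {κ x : ℝ} (hκ : κ * h0 = ken x) (hx : ((740881858 : ℕ) : ℝ) / S ≤ x) (hx' : x ≤ (((740881858 : ℕ) : ℝ) + (40050571 : ℕ)) / S) :
    TriB PP.cur (VE (h0 * 0) 3 κ (h0 * x) (eng.v x) (h0 * (1 / 20)) (tnt (h0 * x) (1 / 5)) (tbl tK x) (tbl tL x) (tbl (smT h0⁻¹ tC) x)) 2 0 3 0 2 1 (-1) :=
  (sideB hx hx').bothB (thrB hx hx') (en_pos (hx1 hx).le) (Or.inl rfl) (Or.inr rfl) fun y y' F =>
    bothB_cert (s1 := true) (s2 := false) rfl hκ (en_pos (hx1 hx).le) (esg_rng (hx1 hx).le (hx2 hx').le).1 (mo_v x) covB02 covB23 hx hx'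
        Pool.Agent.Strip051.G.I69_7273.Tab.C.BB02.c_pm_203 noCut_EB noExt_EB F trivial trivial

theorem BB02_pm_213 {κ x : ℝ} (hκ : κ * h0 = ken x) (hx : ((740881858 : ℕ) : ℝ) / S ≤ x) (hx' : x ≤ (((740881858 : ℕ) : ℝ) + (40050571 : ℕ)) / S) :
    TriB PP.cur (VE (h0 * 0) 3 κ (h0 * x) (eng.v x) (h0 * (1 / 20)) (tnt (h0 * x) (1 / 5)) (tbl tK x) (tbl tL x) (tbl (smT h0⁻¹ tC) x)) 2 1 3 0 2 1 (-1) :=
  (sideB hx hx').bothB (thrB hx hx') (en_pos (hx1 hx).le) (Or.inl rfl) (Or.inr rfl) fun y y' F =>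
    bothB_cert (s1 := true) (s2 := false) rfl hκ (en_pos (hx1 hx).le) (esg_rng (hx1 hx).le (hx2 hx').le).1 (mo_v x) covB02 covB23 hx hx'
        Pool.Agent.Strip051.G.I69_7273.Tab.C.BB02.c_pm_213 (cutEB_cons (Pool.Agent.Strip051.G.I69_7273.Tab.alt12B_B213_02m hκ hx hx') cutEB_nil) noExt_EB F trivial trivial

theorem BB02_pm_303 {κ x : ℝ} (hκ : κ * h0 = ken x) (hx : ((740881858 : ℕ) : ℝ) / S ≤ x) (hx' : x ≤ (((740881858 : ℕ) : ℝ) + (40050571 : ℕ)) / S) :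
    TriB PP.cur (VE (h0 * 0) 3 κ (h0 * x) (eng.v x) (h0 * (1 / 20)) (tnt (h0 * x) (1 / 5)) (tbl tK x) (tbl tL x) (tbl (smT h0⁻¹ tC) x)) 3 0 3 0 2 1 (-1) :=
  triB_j0

theorem BB02_pm_313 {κ x : ℝ} (hκ : κ * h0 = ken x) (hx : ((740881858 : ℕ) : ℝ) / S ≤ x) (hx' : x ≤ (((740881858 : ℕ) : ℝ) + (40050571 : ℕ)) / S) :
    TriB PP.cur (VE (h0 * 0) 3 κ (h0 * x) (eng.v x) (h0 * (1 / 20)) (tnt (h0 * x) (1 / 5)) (tbl tK x) (tbl tL x) (tbl (smT h0⁻¹ tC) x)) 3 1 3 0 2 1 (-1) :=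
  triB_j0

theorem BB02_mm_001 {κ x : ℝ} (hκ : κ * h0 = ken x) (hx : ((740881858 : ℕ) : ℝ) / S ≤ x) (hx' : x ≤ (((740881858 : ℕ) : ℝ) + (40050571 : ℕ)) / S) :
    TriB PP.cur (VE (h0 * 0) 3 κ (h0 * x) (eng.v x) (h0 * (1 / 20)) (tnt (h0 * x) (1 / 5)) (tbl tK x) (tbl tL x) (tbl (smT h0⁻¹ tC) x)) 0 0 1 0 2 (-1) (-1) :=
  (sideB hx hx').bothB (thrB hx hx') (en_pos (hx1 hx).le) (Or.inr rfl) (Or.inr rfl) fun y y' F =>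
    bothB_cert (s1 := false) (s2 := false) rfl hκ (en_pos (hx1 hx).le) (esg_rng (hx1 hx).le (hx2 hx').le).1 (mo_v x) covB00 covB21 hx hx'
        Pool.Agent.Strip051.G.I69_7273.Tab.C.BB02.c_mm_001 noCut_EB noExt_EB F trivial trivial

theorem BB02_mm_011 {κ x : ℝ} (hκ : κ * h0 = ken x) (hx : ((740881858 : ℕ) : ℝ) / S ≤ x) (hx' : x ≤ (((740881858 : ℕ) : ℝ) + (40050571 : ℕ)) / S) :
    TriB PP.cur (VE (h0 * 0) 3 κ (h0 * x) (eng.v x) (h0 * (1 / 20)) (tnt (h0 * x) (1 / 5)) (tbl tK x) (tbl tL x) (tbl (smT h0⁻¹ tC) x)) 0 1 1 0 2 (-1) (-1) :=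
  (sideB hx hx').bothB (thrB hx hx') (en_pos (hx1 hx).le) (Or.inr rfl) (Or.inr rfl) fun y y' F =>
    bothB_cert (s1 := false) (s2 := false) rfl hκ (en_pos (hx1 hx).le) (esg_rng (hx1 hx).le (hx2 hx').le).1 (mo_v x) covB00 covB21 hx hx'
        Pool.Agent.Strip051.G.I69_7273.Tab.C.BB02.c_mm_011 noCut_EB noExt_EB F trivial trivial

theorem BB02_mm_012 {κ x : ℝ} (hκ : κ * h0 = ken x) (hx : ((740881858 : ℕ) : ℝ) / S ≤ x) (hx' : x ≤ (((740881858 : ℕ) : ℝ) + (40050571 : ℕ)) / S) :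
    TriB PP.cur (VE (h0 * 0) 3 κ (h0 * x) (eng.v x) (h0 * (1 / 20)) (tnt (h0 * x) (1 / 5)) (tbl tK x) (tbl tL x) (tbl (smT h0⁻¹ tC) x)) 0 1 2 0 2 (-1) (-1) :=
  (sideB hx hx').bothB (thrB hx hx') (en_pos (hx1 hx).le) (Or.inr rfl) (Or.inr rfl) fun y y' F =>
    (lt_or_ge (h0 * (y + y')) 1).elim
      (fun g => bothB_cert (s1 := false) (s2 := false) rfl hκ (en_pos (hx1 hx).le) (esg_rng (hx1 hx).le (hx2 hx').le).1 (mo_v x) covB00 covB22a hx hx'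
        Pool.Agent.Strip051.G.I69_7273.Tab.C.BB02.c_mm_012_a noCut_EB noExt_EB F trivial g)
      (fun g => bothB_cert (s1 := false) (s2 := false) rfl hκ (en_pos (hx1 hx).le) (esg_rng (hx1 hx).le (hx2 hx').le).1 (mo_v x) covB00 covB22b hx hx'
        Pool.Agent.Strip051.G.I69_7273.Tab.C.BB02.c_mm_012_b noCut_EB noExt_EB F trivial g)

theorem BB02_mm_022 {κ x : ℝ} (hκ : κ * h0 = ken x) (hx : ((740881858 : ℕ) : ℝ) / S ≤ x) (hx' : x ≤ (((740881858 : ℕ) : ℝ) + (40050571 : ℕ)) / S) :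
    TriB PP.cur (VE (h0 * 0) 3 κ (h0 * x) (eng.v x) (h0 * (1 / 20)) (tnt (h0 * x) (1 / 5)) (tbl tK x) (tbl tL x) (tbl (smT h0⁻¹ tC) x)) 0 2 2 0 2 (-1) (-1) :=
  (sideB hx hx').bothB (thrB hx hx') (en_pos (hx1 hx).le) (Or.inr rfl) (Or.inr rfl) fun y y' F =>
    (lt_or_ge (h0 * (y + y')) 1).elim
      (fun g => bothB_cert (s1 := false) (s2 := false) rfl hκ (en_pos (hx1 hx).le) (esg_rng (hx1 hx).le (hx2 hx').le).1 (mo_v x) covB00 covB22a hx hx'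
        Pool.Agent.Strip051.G.I69_7273.Tab.C.BB02.c_mm_022_a noCut_EB noExt_EB F trivial g)
      (fun g => bothB_cert (s1 := false) (s2 := false) rfl hκ (en_pos (hx1 hx).le) (esg_rng (hx1 hx).le (hx2 hx').le).1 (mo_v x) covB00 covB22b hx hx'
        Pool.Agent.Strip051.G.I69_7273.Tab.C.BB02.c_mm_022_b noCut_EB noExt_EB F trivial g)

theorem BB02_mm_023 {κ x : ℝ} (hκ : κ * h0 = ken x) (hx : ((740881858 : ℕ) : ℝ) / S ≤ x) (hx' : x ≤ (((740881858 : ℕ) : ℝ) + (40050571 : ℕ)) / S) :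
    TriB PP.cur (VE (h0 * 0) 3 κ (h0 * x) (eng.v x) (h0 * (1 / 20)) (tnt (h0 * x) (1 / 5)) (tbl tK x) (tbl tL x) (tbl (smT h0⁻¹ tC) x)) 0 2 3 0 2 (-1) (-1) :=
  (sideB hx hx').bothB (thrB hx hx') (en_pos (hx1 hx).le) (Or.inr rfl) (Or.inr rfl) fun y y' F =>
    bothB_cert (s1 := false) (s2 := false) rfl hκ (en_pos (hx1 hx).le) (esg_rng (hx1 hx).le (hx2 hx').le).1 (mo_v x) covB00 covB23 hx hx'
        Pool.Agent.Strip051.G.I69_7273.Tab.C.BB02.c_mm_023 noCut_EB noExt_EB F trivial trivial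

theorem BB02_mm_033 {κ x : ℝ} (hκ : κ * h0 = ken x) (hx : ((740881858 : ℕ) : ℝ) / S ≤ x) (hx' : x ≤ (((740881858 : ℕ) : ℝ) + (40050571 : ℕ)) / S) :
    TriB PP.cur (VE (h0 * 0) 3 κ (h0 * x) (eng.v x) (h0 * (1 / 20)) (tnt (h0 * x) (1 / 5)) (tbl tK x) (tbl tL x) (tbl (smT h0⁻¹ tC) x)) 0 3 3 0 2 (-1) (-1) :=
  (sideB hx hx').bothB (thrB hx hx') (en_pos (hx1 hx).le) (Or.inr rfl) (Or.inr rfl) fun y y' F =>
    bothB_cert (s1 := false) (s2 := false) rfl hκ (en_pos (hx1 hx).le) (esg_rng (hx1 hx).le (hx2 hx').le).1 (mo_v x) covB00 covB23 hx hx'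
        Pool.Agent.Strip051.G.I69_7273.Tab.C.BB02.c_mm_033 noCut_EB noExt_EB F trivial trivial

theorem BB02_mm_101 {κ x : ℝ} (hκ : κ * h0 = ken x) (hx : ((740881858 : ℕ) : ℝ) / S ≤ x) (hx' : x ≤ (((740881858 : ℕ) : ℝ) + (40050571 : ℕ)) / S) :
    TriB PP.cur (VE (h0 * 0) 3 κ (h0 * x) (eng.v x) (h0 * (1 / 20)) (tnt (h0 * x) (1 / 5)) (tbl tK x) (tbl tL x) (tbl (smT h0⁻¹ tC) x)) 1 0 1 0 2 (-1) (-1) :=
  (sideB hx hx').bothB (thrB hx hx') (en_pos (hx1 hx).le) (Or.inr rfl) (Or.inr rfl) fun y y' F =>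
    bothB_cert (s1 := false) (s2 := false) rfl hκ (en_pos (hx1 hx).le) (esg_rng (hx1 hx).le (hx2 hx').le).1 (mo_v x) covB01 covB21 hx hx'
        Pool.Agent.Strip051.G.I69_7273.Tab.C.BB02.c_mm_101 noCut_EB noExt_EB F trivial trivial

theorem BB02_mm_102 {κ x : ℝ} (hκ : κ * h0 = ken x) (hx : ((740881858 : ℕ) : ℝ) / S ≤ x) (hx' : x ≤ (((740881858 : ℕ) : ℝ) + (40050571 : ℕ)) / S) :
    TriB PP.cur (VE (h0 * 0) 3 κ (h0 * x) (eng.v x) (h0 * (1 / 20)) (tnt (h0 * x) (1 / 5)) (tbl tK x) (tbl tL x) (tbl (smT h0⁻¹ tC) x)) 1 0 2 0 2 (-1) (-1) :=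
  (sideB hx hx').bothB (thrB hx hx') (en_pos (hx1 hx).le) (Or.inr rfl) (Or.inr rfl) fun y y' F =>
    (lt_or_ge (h0 * (y + y')) 1).elim
      (fun g => bothB_cert (s1 := false) (s2 := false) rfl hκ (en_pos (hx1 hx).le) (esg_rng (hx1 hx).le (hx2 hx').le).1 (mo_v x) covB01 covB22a hx hx'
        Pool.Agent.Strip051.G.I69_7273.Tab.C.BB02.c_mm_102_a noCut_EB noExt_EB F trivial g)
      (fun g => bothB_cert (s1 := false) (s2 := false) rfl hκ (en_pos (hx1 hx).le) (esg_rng (hx1 hx).le (hx2 hx').le).1 (mo_v x) covB01 covB22b hx hx'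
        Pool.Agent.Strip051.G.I69_7273.Tab.C.BB02.c_mm_102_b noCut_EB noExt_EB F trivial g)

theorem BB02_mm_112 {κ x : ℝ} (hκ : κ * h0 = ken x) (hx : ((740881858 : ℕ) : ℝ) / S ≤ x) (hx' : x ≤ (((740881858 : ℕ) : ℝ) + (40050571 : ℕ)) / S) :
    TriB PP.cur (VE (h0 * 0) 3 κ (h0 * x) (eng.v x) (h0 * (1 / 20)) (tnt (h0 * x) (1 / 5)) (tbl tK x) (tbl tL x) (tbl (smT h0⁻¹ tC) x)) 1 1 2 0 2 (-1) (-1) :=
  (sideB hx hx').bothB (thrB hx hx') (en_pos (hx1 hx).le) (Or.inr rfl) (Or.inr rfl) fun y y' F =>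
    (lt_or_ge (h0 * (y + y')) 1).elim
      (fun g => bothB_cert (s1 := false) (s2 := false) rfl hκ (en_pos (hx1 hx).le) (esg_rng (hx1 hx).le (hx2 hx').le).1 (mo_v x) covB01 covB22a hx hx'
        Pool.Agent.Strip051.G.I69_7273.Tab.C.BB02.c_mm_112_a noCut_EB noExt_EB F trivial g)
      (fun g => bothB_cert (s1 := false) (s2 := false) rfl hκ (en_pos (hx1 hx).le) (esg_rng (hx1 hx).le (hx2 hx').le).1 (mo_v x) covB01 covB22b hx hx'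
        Pool.Agent.Strip051.G.I69_7273.Tab.C.BB02.c_mm_112_b noCut_EB noExt_EB F trivial g)

theorem BB02_mm_113 {κ x : ℝ} (hκ : κ * h0 = ken x) (hx : ((740881858 : ℕ) : ℝ) / S ≤ x) (hx' : x ≤ (((740881858 : ℕ) : ℝ) + (40050571 : ℕ)) / S) :
    TriB PP.cur (VE (h0 * 0) 3 κ (h0 * x) (eng.v x) (h0 * (1 / 20)) (tnt (h0 * x) (1 / 5)) (tbl tK x) (tbl tL x) (tbl (smT h0⁻¹ tC) x)) 1 1 3 0 2 (-1) (-1) :=
  (sideB hx hx').bothB (thrB hx hx') (en_pos (hx1 hx).le) (Or.inr rfl) (Or.inr rfl) fun y y' F =>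
    bothB_cert (s1 := false) (s2 := false) rfl hκ (en_pos (hx1 hx).le) (esg_rng (hx1 hx).le (hx2 hx').le).1 (mo_v x) covB01 covB23 hx hx'
        Pool.Agent.Strip051.G.I69_7273.Tab.C.BB02.c_mm_113 noCut_EB noExt_EB F trivial trivial

theorem BB02_mm_123 {κ x : ℝ} (hκ : κ * h0 = ken x) (hx : ((740881858 : ℕ) : ℝ) / S ≤ x) (hx' : x ≤ (((740881858 : ℕ) : ℝ) + (40050571 : ℕ)) / S) :
    TriB PP.cur (VE (h0 * 0) 3 κ (h0 * x) (eng.v x) (h0 * (1 / 20)) (tnt (h0 * x) (1 / 5)) (tbl tK x) (tbl tL x) (tbl (smT h0⁻¹ tC) x)) 1 2 3 0 2 (-1) (-1) :=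
  (sideB hx hx').bothB (thrB hx hx') (en_pos (hx1 hx).le) (Or.inr rfl) (Or.inr rfl) fun y y' F =>
    bothB_cert (s1 := false) (s2 := false) rfl hκ (en_pos (hx1 hx).le) (esg_rng (hx1 hx).le (hx2 hx').le).1 (mo_v x) covB01 covB23 hx hx'
        Pool.Agent.Strip051.G.I69_7273.Tab.C.BB02.c_mm_123 noCut_EB noExt_EB F trivial trivial

theorem BB02_mm_133 {κ x : ℝ} (hκ : κ * h0 = ken x) (hx : ((740881858 : ℕ) : ℝ) / S ≤ x) (hx' : x ≤ (((740881858 : ℕ) : ℝ) + (40050571 : ℕ)) / S) :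
    TriB PP.cur (VE (h0 * 0) 3 κ (h0 * x) (eng.v x) (h0 * (1 / 20)) (tnt (h0 * x) (1 / 5)) (tbl tK x) (tbl tL x) (tbl (smT h0⁻¹ tC) x)) 1 3 3 0 2 (-1) (-1) :=
  (sideB hx hx').bothB (thrB hx hx') (en_pos (hx1 hx).le) (Or.inr rfl) (Or.inr rfl) fun y y' F =>
    bothB_cert (s1 := false) (s2 := false) rfl hκ (en_pos (hx1 hx).le) (esg_rng (hx1 hx).le (hx2 hx').le).1 (mo_v x) covB01 covB23 hx hx'
        Pool.Agent.Strip051.G.I69_7273.Tab.C.BB02.c_mm_133 noCut_EB noExt_EB F trivial trivial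

theorem BB02_mm_202 {κ x : ℝ} (hκ : κ * h0 = ken x) (hx : ((740881858 : ℕ) : ℝ) / S ≤ x) (hx' : x ≤ (((740881858 : ℕ) : ℝ) + (40050571 : ℕ)) / S) :
    TriB PP.cur (VE (h0 * 0) 3 κ (h0 * x) (eng.v x) (h0 * (1 / 20)) (tnt (h0 * x) (1 / 5)) (tbl tK x) (tbl tL x) (tbl (smT h0⁻¹ tC) x)) 2 0 2 0 2 (-1) (-1) :=
  (sideB hx hx').bothB (thrB hx hx') (en_pos (hx1 hx).le) (Or.inr rfl) (Or.inr rfl) fun y y' F =>
    (lt_or_ge (h0 * (y + y')) 1).elim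
      (fun g => bothB_cert (s1 := false) (s2 := false) rfl hκ (en_pos (hx1 hx).le) (esg_rng (hx1 hx).le (hx2 hx').le).1 (mo_v x) covB02 covB22a hx hx'
        Pool.Agent.Strip051.G.I69_7273.Tab.C.BB02.c_mm_202_a noCut_EB noExt_EB F trivial g)
      (fun g => bothB_cert (s1 := false) (s2 := false) rfl hκ (en_pos (hx1 hx).le) (esg_rng (hx1 hx).le (hx2 hx').le).1 (mo_v x) covB02 covB22b hx hx'
        Pool.Agent.Strip051.G.I69_7273.Tab.C.BB02.c_mm_202_b noCut_EB noExt_EB F trivial g)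

theorem BB02_mm_203 {κ x : ℝ} (hκ : κ * h0 = ken x) (hx : ((740881858 : ℕ) : ℝ) / S ≤ x) (hx' : x ≤ (((740881858 : ℕ) : ℝ) + (40050571 : ℕ)) / S) :
    TriB PP.cur (VE (h0 * 0) 3 κ (h0 * x) (eng.v x) (h0 * (1 / 20)) (tnt (h0 * x) (1 / 5)) (tbl tK x) (tbl tL x) (tbl (smT h0⁻¹ tC) x)) 2 0 3 0 2 (-1) (-1) :=
  (sideB hx hx').bothB (thrB hx hx') (en_pos (hx1 hx).le) (Or.inr rfl) (Or.inr rfl) fun y y' F =>
    bothB_cert (s1 := false) (s2 := false) rfl hκ (en_pos (hx1 hx).le) (esg_rng (hx1 hx).le (hx2 hx').le).1 (mo_v x) covB02 covB23 hx hx'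
        Pool.Agent.Strip051.G.I69_7273.Tab.C.BB02.c_mm_203 noCut_EB noExt_EB F trivial trivial

theorem BB02_mm_213 {κ x : ℝ} (hκ : κ * h0 = ken x) (hx : ((740881858 : ℕ) : ℝ) / S ≤ x) (hx' : x ≤ (((740881858 : ℕ) : ℝ) + (40050571 : ℕ)) / S) :
    TriB PP.cur (VE (h0 * 0) 3 κ (h0 * x) (eng.v x) (h0 * (1 / 20)) (tnt (h0 * x) (1 / 5)) (tbl tK x) (tbl tL x) (tbl (smT h0⁻¹ tC) x)) 2 1 3 0 2 (-1) (-1) :=
  (sideB hx hx').bothB (thrB hx hx') (en_pos (hx1 hx).le) (Or.inr rfl) (Or.inr rfl) fun y y' F =>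
    bothB_cert (s1 := false) (s2 := false) rfl hκ (en_pos (hx1 hx).le) (esg_rng (hx1 hx).le (hx2 hx').le).1 (mo_v x) covB02 covB23 hx hx'
        Pool.Agent.Strip051.G.I69_7273.Tab.C.BB02.c_mm_213 noCut_EB noExt_EB F trivial trivial

theorem BB02_mm_303 {κ x : ℝ} (hκ : κ * h0 = ken x) (hx : ((740881858 : ℕ) : ℝ) / S ≤ x) (hx' : x ≤ (((740881858 : ℕ) : ℝ) + (40050571 : ℕ)) / S) :
    TriB PP.cur (VE (h0 * 0) 3 κ (h0 * x) (eng.v x) (h0 * (1 / 20)) (tnt (h0 * x) (1 / 5)) (tbl tK x) (tbl tL x) (tbl (smT h0⁻¹ tC) x)) 3 0 3 0 2 (-1) (-1) :=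
  triB_j0

theorem BB02_mm_313 {κ x : ℝ} (hκ : κ * h0 = ken x) (hx : ((740881858 : ℕ) : ℝ) / S ≤ x) (hx' : x ≤ (((740881858 : ℕ) : ℝ) + (40050571 : ℕ)) / S) :
    TriB PP.cur (VE (h0 * 0) 3 κ (h0 * x) (eng.v x) (h0 * (1 / 20)) (tnt (h0 * x) (1 / 5)) (tbl tK x) (tbl tL x) (tbl (smT h0⁻¹ tC) x)) 3 1 3 0 2 (-1) (-1) :=
  triB_j0

theorem BB02 {κ x : ℝ} (hκ : κ * h0 = ken x) (hx : ((740881858 : ℕ) : ℝ) / S ≤ x) (hx' : x ≤ (((740881858 : ℕ) : ℝ) + (40050571 : ℕ)) / S) : AllTB PP.cur (VE (h0 * 0) 3 κ (h0 * x) (eng.v x) (h0 * (1 / 20)) (tnt (h0 * x) (1 / 5)) (tbl tK x) (tbl tL x) (tbl (smT h0⁻¹ tC) x)) 0 2 where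
  pp := all17 (Q := fun a b c => TriB PP.cur (VE (h0 * 0) 3 κ (h0 * x) (eng.v x) (h0 * (1 / 20)) (tnt (h0 * x) (1 / 5)) (tbl tK x) (tbl tL x) (tbl (smT h0⁻¹ tC) x)) a b c 0 2 1 1)
    (BB02_pp_001 hκ hx hx') (BB02_pp_011 hκ hx hx') (BB02_pp_012 hκ hx hx') (BB02_pp_022 hκ hx hx') (BB02_pp_023 hκ hx hx') (BB02_pp_033 hκ hx hx') (BB02_pp_101 hκ hx hx') (BB02_pp_102 hκ hx hx') (BB02_pp_112 hκ hx hx') (BB02_pp_113 hκ hx hx') (BB02_pp_123 hκ hx hx') (BB02_pp_133 hκ hx hx') (BB02_pp_202 hκ hx hx') (BB02_pp_203 hκ hx hx') (BB02_pp_213 hκ hx hx') (BB02_pp_303 hκ hx hx') (BB02_pp_313 hκ hx hx')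
  pm := all17 (Q := fun a b c => TriB PP.cur (VE (h0 * 0) 3 κ (h0 * x) (eng.v x) (h0 * (1 / 20)) (tnt (h0 * x) (1 / 5)) (tbl tK x) (tbl tL x) (tbl (smT h0⁻¹ tC) x)) a b c 0 2 1 (-1))
    (BB02_pm_001 hκ hx hx') (BB02_pm_011 hκ hx hx') (BB02_pm_012 hκ hx hx') (BB02_pm_022 hκ hx hx') (BB02_pm_023 hκ hx hx') (BB02_pm_033 hκ hx hx') (BB02_pm_101 hκ hx hx') (BB02_pm_102 hκ hx hx') (BB02_pm_112 hκ hx hx') (BB02_pm_113 hκ hx hx') (BB02_pm_123 hκ hx hx') (BB02_pm_133 hκ hx hx') (BB02_pm_202 hκ hx hx') (BB02_pm_203 hκ hx hx') (BB02_pm_213 hκ hx hx') (BB02_pm_303 hκ hx hx') (BB02_pm_313 hκ hx hx')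
  mm := all17 (Q := fun a b c => TriB PP.cur (VE (h0 * 0) 3 κ (h0 * x) (eng.v x) (h0 * (1 / 20)) (tnt (h0 * x) (1 / 5)) (tbl tK x) (tbl tL x) (tbl (smT h0⁻¹ tC) x)) a b c 0 2 (-1) (-1))
    (BB02_mm_001 hκ hx hx') (BB02_mm_011 hκ hx hx') (BB02_mm_012 hκ hx hx') (BB02_mm_022 hκ hx hx') (BB02_mm_023 hκ hx hx') (BB02_mm_033 hκ hx hx') (BB02_mm_101 hκ hx hx') (BB02_mm_102 hκ hx hx') (BB02_mm_112 hκ hx hx') (BB02_mm_113 hκ hx hx') (BB02_mm_123 hκ hx hx') (BB02_mm_133 hκ hx hx') (BB02_mm_202 hκ hx hx') (BB02_mm_203 hκ hx hx') (BB02_mm_213 hκ hx hx') (BB02_mm_303 hκ hx hx') (BB02_mm_313 hκ hx hx')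

theorem BB03_pp_001 {κ x : ℝ} (hκ : κ * h0 = ken x) (hx : ((740881858 : ℕ) : ℝ) / S ≤ x) (hx' : x ≤ (((740881858 : ℕ) : ℝ) + (40050571 : ℕ)) / S) :
    TriB PP.cur (VE (h0 * 0) 3 κ (h0 * x) (eng.v x) (h0 * (1 / 20)) (tnt (h0 * x) (1 / 5)) (tbl tK x) (tbl tL x) (tbl (smT h0⁻¹ tC) x)) 0 0 1 0 3 1 1 :=
  (sideB hx hx').bothB (thrB hx hx') (en_pos (hx1 hx).le) (Or.inl rfl) (Or.inl rfl) fun y y' F =>
    bothB_cert (s1 := true) (s2 := true) rfl hκ (en_pos (hx1 hx).le) (esg_rng (hx1 hx).le (hx2 hx').le).1 (mo_v x) covB00 covB31 hx hx'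
        Pool.Agent.Strip051.G.I69_7273.Tab.C.BB03.c_pp_001 noCut_EB noExt_EB F trivial trivial

theorem BB03_pp_011 {κ x : ℝ} (hκ : κ * h0 = ken x) (hx : ((740881858 : ℕ) : ℝ) / S ≤ x) (hx' : x ≤ (((740881858 : ℕ) : ℝ) + (40050571 : ℕ)) / S) :
    TriB PP.cur (VE (h0 * 0) 3 κ (h0 * x) (eng.v x) (h0 * (1 / 20)) (tnt (h0 * x) (1 / 5)) (tbl tK x) (tbl tL x) (tbl (smT h0⁻¹ tC) x)) 0 1 1 0 3 1 1 :=
  (sideB hx hx').bothB (thrB hx hx') (en_pos (hx1 hx).le) (Or.inl rfl) (Or.inl rfl) fun y y' F =>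
    bothB_cert (s1 := true) (s2 := true) rfl hκ (en_pos (hx1 hx).le) (esg_rng (hx1 hx).le (hx2 hx').le).1 (mo_v x) covB00 covB31 hx hx'
        Pool.Agent.Strip051.G.I69_7273.Tab.C.BB03.c_pp_011 (cutEB_cons (Pool.Agent.Strip051.G.I69_7273.Tab.altB_B011L_03 hκ hx hx') cutEB_nil) noExt_EB F trivial trivial

theorem BB03_pp_012 {κ x : ℝ} (hκ : κ * h0 = ken x) (hx : ((740881858 : ℕ) : ℝ) / S ≤ x) (hx' : x ≤ (((740881858 : ℕ) : ℝ) + (40050571 : ℕ)) / S) :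
    TriB PP.cur (VE (h0 * 0) 3 κ (h0 * x) (eng.v x) (h0 * (1 / 20)) (tnt (h0 * x) (1 / 5)) (tbl tK x) (tbl tL x) (tbl (smT h0⁻¹ tC) x)) 0 1 2 0 3 1 1 :=
  (sideB hx hx').bothB (thrB hx hx') (en_pos (hx1 hx).le) (Or.inl rfl) (Or.inl rfl) fun y y' F =>
    bothB_cert (s1 := true) (s2 := true) rfl hκ (en_pos (hx1 hx).le) (esg_rng (hx1 hx).le (hx2 hx').le).1 (mo_v x) covB00 covB32 hx hx'
        Pool.Agent.Strip051.G.I69_7273.Tab.C.BB03.c_pp_012 noCut_EB noExt_EB F trivial trivial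

theorem BB03_pp_022 {κ x : ℝ} (hκ : κ * h0 = ken x) (hx : ((740881858 : ℕ) : ℝ) / S ≤ x) (hx' : x ≤ (((740881858 : ℕ) : ℝ) + (40050571 : ℕ)) / S) :
    TriB PP.cur (VE (h0 * 0) 3 κ (h0 * x) (eng.v x) (h0 * (1 / 20)) (tnt (h0 * x) (1 / 5)) (tbl tK x) (tbl tL x) (tbl (smT h0⁻¹ tC) x)) 0 2 2 0 3 1 1 :=
  (sideB hx hx').bothB (thrB hx hx') (en_pos (hx1 hx).le) (Or.inl rfl) (Or.inl rfl) fun y y' F =>
    bothB_cert (s1 := true) (s2 := true) rfl hκ (en_pos (hx1 hx).le) (esg_rng (hx1 hx).le (hx2 hx').le).1 (mo_v x) covB00 covB32 hx hx'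
        Pool.Agent.Strip051.G.I69_7273.Tab.C.BB03.c_pp_022 noCut_EB noExt_EB F trivial trivial

theorem BB03_pp_023 {κ x : ℝ} (hκ : κ * h0 = ken x) (hx : ((740881858 : ℕ) : ℝ) / S ≤ x) (hx' : x ≤ (((740881858 : ℕ) : ℝ) + (40050571 : ℕ)) / S) :
    TriB PP.cur (VE (h0 * 0) 3 κ (h0 * x) (eng.v x) (h0 * (1 / 20)) (tnt (h0 * x) (1 / 5)) (tbl tK x) (tbl tL x) (tbl (smT h0⁻¹ tC) x)) 0 2 3 0 3 1 1 :=
  (sideB hx hx').bothB (thrB hx hx') (en_pos (hx1 hx).le) (Or.inl rfl) (Or.inl rfl) fun y y' F =>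
    bothB_cert (s1 := true) (s2 := true) rfl hκ (en_pos (hx1 hx).le) (esg_rng (hx1 hx).le (hx2 hx').le).1 (mo_v x) covB00 covB33 hx hx'
        Pool.Agent.Strip051.G.I69_7273.Tab.C.BB03.c_pp_023 noCut_EB noExt_EB F trivial trivial

theorem BB03_pp_033 {κ x : ℝ} (hκ : κ * h0 = ken x) (hx : ((740881858 : ℕ) : ℝ) / S ≤ x) (hx' : x ≤ (((740881858 : ℕ) : ℝ) + (40050571 : ℕ)) / S) :
    TriB PP.cur (VE (h0 * 0) 3 κ (h0 * x) (eng.v x) (h0 * (1 / 20)) (tnt (h0 * x) (1 / 5)) (tbl tK x) (tbl tL x) (tbl (smT h0⁻¹ tC) x)) 0 3 3 0 3 1 1 :=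
  (sideB hx hx').bothB (thrB hx hx') (en_pos (hx1 hx).le) (Or.inl rfl) (Or.inl rfl) fun y y' F =>
    bothB_cert (s1 := true) (s2 := true) rfl hκ (en_pos (hx1 hx).le) (esg_rng (hx1 hx).le (hx2 hx').le).1 (mo_v x) covB00 covB33 hx hx'
        Pool.Agent.Strip051.G.I69_7273.Tab.C.BB03.c_pp_033 noCut_EB noExt_EB F trivial trivial

theorem BB03_pp_101 {κ x : ℝ} (hκ : κ * h0 = ken x) (hx : ((740881858 : ℕ) : ℝ) / S ≤ x) (hx' : x ≤ (((740881858 : ℕ) : ℝ) + (40050571 : ℕ)) / S) :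
    TriB PP.cur (VE (h0 * 0) 3 κ (h0 * x) (eng.v x) (h0 * (1 / 20)) (tnt (h0 * x) (1 / 5)) (tbl tK x) (tbl tL x) (tbl (smT h0⁻¹ tC) x)) 1 0 1 0 3 1 1 :=
  (sideB hx hx').bothB (thrB hx hx') (en_pos (hx1 hx).le) (Or.inl rfl) (Or.inl rfl) fun y y' F =>
    bothB_cert (s1 := true) (s2 := true) rfl hκ (en_pos (hx1 hx).le) (esg_rng (hx1 hx).le (hx2 hx').le).1 (mo_v x) covB01 covB31 hx hx'
        Pool.Agent.Strip051.G.I69_7273.Tab.C.BB03.c_pp_101 noCut_EB noExt_EB F trivial trivial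

theorem BB03_pp_102 {κ x : ℝ} (hκ : κ * h0 = ken x) (hx : ((740881858 : ℕ) : ℝ) / S ≤ x) (hx' : x ≤ (((740881858 : ℕ) : ℝ) + (40050571 : ℕ)) / S) :
    TriB PP.cur (VE (h0 * 0) 3 κ (h0 * x) (eng.v x) (h0 * (1 / 20)) (tnt (h0 * x) (1 / 5)) (tbl tK x) (tbl tL x) (tbl (smT h0⁻¹ tC) x)) 1 0 2 0 3 1 1 :=
  (sideB hx hx').bothB (thrB hx hx') (en_pos (hx1 hx).le) (Or.inl rfl) (Or.inl rfl) fun y y' F =>
    bothB_cert (s1 := true) (s2 := true) rfl hκ (en_pos (hx1 hx).le) (esg_rng (hx1 hx).le (hx2 hx').le).1 (mo_v x) covB01 covB32 hx hx'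
        Pool.Agent.Strip051.G.I69_7273.Tab.C.BB03.c_pp_102 noCut_EB noExt_EB F trivial trivial

theorem BB03_pp_112 {κ x : ℝ} (hκ : κ * h0 = ken x) (hx : ((740881858 : ℕ) : ℝ) / S ≤ x) (hx' : x ≤ (((740881858 : ℕ) : ℝ) + (40050571 : ℕ)) / S) :
    TriB PP.cur (VE (h0 * 0) 3 κ (h0 * x) (eng.v x) (h0 * (1 / 20)) (tnt (h0 * x) (1 / 5)) (tbl tK x) (tbl tL x) (tbl (smT h0⁻¹ tC) x)) 1 1 2 0 3 1 1 :=
  (sideB hx hx').bothB (thrB hx hx') (en_pos (hx1 hx).le) (Or.inl rfl) (Or.inl rfl) fun y y' F =>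
    bothB_cert (s1 := true) (s2 := true) rfl hκ (en_pos (hx1 hx).le) (esg_rng (hx1 hx).le (hx2 hx').le).1 (mo_v x) covB01 covB32 hx hx'
        Pool.Agent.Strip051.G.I69_7273.Tab.C.BB03.c_pp_112 noCut_EB noExt_EB F trivial trivial

theorem BB03_pp_113 {κ x : ℝ} (hκ : κ * h0 = ken x) (hx : ((740881858 : ℕ) : ℝ) / S ≤ x) (hx' : x ≤ (((740881858 : ℕ) : ℝ) + (40050571 : ℕ)) / S) :
    TriB PP.cur (VE (h0 * 0) 3 κ (h0 * x) (eng.v x) (h0 * (1 / 20)) (tnt (h0 * x) (1 / 5)) (tbl tK x) (tbl tL x) (tbl (smT h0⁻¹ tC) x)) 1 1 3 0 3 1 1 :=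
  (sideB hx hx').bothB (thrB hx hx') (en_pos (hx1 hx).le) (Or.inl rfl) (Or.inl rfl) fun y y' F =>
    bothB_cert (s1 := true) (s2 := true) rfl hκ (en_pos (hx1 hx).le) (esg_rng (hx1 hx).le (hx2 hx').le).1 (mo_v x) covB01 covB33 hx hx'
        Pool.Agent.Strip051.G.I69_7273.Tab.C.BB03.c_pp_113 (cutEB_cons (Pool.Agent.Strip051.G.I69_7273.Tab.alt12B_B113_03p hκ hx hx') cutEB_nil) noExt_EB F trivial trivial

theorem BB03_pp_123 {κ x : ℝ} (hκ : κ * h0 = ken x) (hx : ((740881858 : ℕ) : ℝ) / S ≤ x) (hx' : x ≤ (((740881858 : ℕ) : ℝ) + (40050571 : ℕ)) / S) :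
    TriB PP.cur (VE (h0 * 0) 3 κ (h0 * x) (eng.v x) (h0 * (1 / 20)) (tnt (h0 * x) (1 / 5)) (tbl tK x) (tbl tL x) (tbl (smT h0⁻¹ tC) x)) 1 2 3 0 3 1 1 :=
  (sideB hx hx').bothB (thrB hx hx') (en_pos (hx1 hx).le) (Or.inl rfl) (Or.inl rfl) fun y y' F =>
    bothB_cert (s1 := true) (s2 := true) rfl hκ (en_pos (hx1 hx).le) (esg_rng (hx1 hx).le (hx2 hx').le).1 (mo_v x) covB01 covB33 hx hx'
        Pool.Agent.Strip051.G.I69_7273.Tab.C.BB03.c_pp_123 (cutEB_cons (Pool.Agent.Strip051.G.I69_7273.Tab.alt12cB_B123_03p hκ hx hx') cutEB_nil) noExt_EB F trivial trivial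

theorem BB03_pp_133 {κ x : ℝ} (hκ : κ * h0 = ken x) (hx : ((740881858 : ℕ) : ℝ) / S ≤ x) (hx' : x ≤ (((740881858 : ℕ) : ℝ) + (40050571 : ℕ)) / S) :
    TriB PP.cur (VE (h0 * 0) 3 κ (h0 * x) (eng.v x) (h0 * (1 / 20)) (tnt (h0 * x) (1 / 5)) (tbl tK x) (tbl tL x) (tbl (smT h0⁻¹ tC) x)) 1 3 3 0 3 1 1 :=
  (sideB hx hx').bothB (thrB hx hx') (en_pos (hx1 hx).le) (Or.inl rfl) (Or.inl rfl) fun y y' F =>
    bothB_cert (s1 := true) (s2 := true) rfl hκ (en_pos (hx1 hx).le) (esg_rng (hx1 hx).le (hx2 hx').le).1 (mo_v x) covB01 covB33 hx hx'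
        Pool.Agent.Strip051.G.I69_7273.Tab.C.BB03.c_pp_133 noCut_EB noExt_EB F trivial trivial

theorem BB03_pp_202 {κ x : ℝ} (hκ : κ * h0 = ken x) (hx : ((740881858 : ℕ) : ℝ) / S ≤ x) (hx' : x ≤ (((740881858 : ℕ) : ℝ) + (40050571 : ℕ)) / S) :
    TriB PP.cur (VE (h0 * 0) 3 κ (h0 * x) (eng.v x) (h0 * (1 / 20)) (tnt (h0 * x) (1 / 5)) (tbl tK x) (tbl tL x) (tbl (smT h0⁻¹ tC) x)) 2 0 2 0 3 1 1 :=
  (sideB hx hx').bothB (thrB hx hx') (en_pos (hx1 hx).le) (Or.inl rfl) (Or.inl rfl) fun y y' F =>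
    bothB_cert (s1 := true) (s2 := true) rfl hκ (en_pos (hx1 hx).le) (esg_rng (hx1 hx).le (hx2 hx').le).1 (mo_v x) covB02 covB32 hx hx'
        Pool.Agent.Strip051.G.I69_7273.Tab.C.BB03.c_pp_202 noCut_EB noExt_EB F trivial trivial

theorem BB03_pp_203 {κ x : ℝ} (hκ : κ * h0 = ken x) (hx : ((740881858 : ℕ) : ℝ) / S ≤ x) (hx' : x ≤ (((740881858 : ℕ) : ℝ) + (40050571 : ℕ)) / S) :
    TriB PP.cur (VE (h0 * 0) 3 κ (h0 * x) (eng.v x) (h0 * (1 / 20)) (tnt (h0 * x) (1 / 5)) (tbl tK x) (tbl tL x) (tbl (smT h0⁻¹ tC) x)) 2 0 3 0 3 1 1 :=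
  (sideB hx hx').bothB (thrB hx hx') (en_pos (hx1 hx).le) (Or.inl rfl) (Or.inl rfl) fun y y' F =>
    bothB_cert (s1 := true) (s2 := true) rfl hκ (en_pos (hx1 hx).le) (esg_rng (hx1 hx).le (hx2 hx').le).1 (mo_v x) covB02 covB33 hx hx'
        Pool.Agent.Strip051.G.I69_7273.Tab.C.BB03.c_pp_203 noCut_EB noExt_EB F trivial trivial

theorem BB03_pp_213 {κ x : ℝ} (hκ : κ * h0 = ken x) (hx : ((740881858 : ℕ) : ℝ) / S ≤ x) (hx' : x ≤ (((740881858 : ℕ) : ℝ) + (40050571 : ℕ)) / S) :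
    TriB PP.cur (VE (h0 * 0) 3 κ (h0 * x) (eng.v x) (h0 * (1 / 20)) (tnt (h0 * x) (1 / 5)) (tbl tK x) (tbl tL x) (tbl (smT h0⁻¹ tC) x)) 2 1 3 0 3 1 1 :=
  (sideB hx hx').bothB (thrB hx hx') (en_pos (hx1 hx).le) (Or.inl rfl) (Or.inl rfl) fun y y' F =>
    bothB_cert (s1 := true) (s2 := true) rfl hκ (en_pos (hx1 hx).le) (esg_rng (hx1 hx).le (hx2 hx').le).1 (mo_v x) covB02 covB33 hx hx'
        Pool.Agent.Strip051.G.I69_7273.Tab.C.BB03.c_pp_213 (cutEB_cons (Pool.Agent.Strip051.G.I69_7273.Tab.alt12B_B213_03p hκ hx hx') cutEB_nil) noExt_EB F trivial trivial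

theorem BB03_pp_303 {κ x : ℝ} (hκ : κ * h0 = ken x) (hx : ((740881858 : ℕ) : ℝ) / S ≤ x) (hx' : x ≤ (((740881858 : ℕ) : ℝ) + (40050571 : ℕ)) / S) :
    TriB PP.cur (VE (h0 * 0) 3 κ (h0 * x) (eng.v x) (h0 * (1 / 20)) (tnt (h0 * x) (1 / 5)) (tbl tK x) (tbl tL x) (tbl (smT h0⁻¹ tC) x)) 3 0 3 0 3 1 1 :=
  triB_j0

theorem BB03_pp_313 {κ x : ℝ} (hκ : κ * h0 = ken x) (hx : ((740881858 : ℕ) : ℝ) / S ≤ x) (hx' : x ≤ (((740881858 : ℕ) : ℝ) + (40050571 : ℕ)) / S) :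
    TriB PP.cur (VE (h0 * 0) 3 κ (h0 * x) (eng.v x) (h0 * (1 / 20)) (tnt (h0 * x) (1 / 5)) (tbl tK x) (tbl tL x) (tbl (smT h0⁻¹ tC) x)) 3 1 3 0 3 1 1 :=
  triB_j0

theorem BB03_pm_001 {κ x : ℝ} (hκ : κ * h0 = ken x) (hx : ((740881858 : ℕ) : ℝ) / S ≤ x) (hx' : x ≤ (((740881858 : ℕ) : ℝ) + (40050571 : ℕ)) / S) :
    TriB PP.cur (VE (h0 * 0) 3 κ (h0 * x) (eng.v x) (h0 * (1 / 20)) (tnt (h0 * x) (1 / 5)) (tbl tK x) (tbl tL x) (tbl (smT h0⁻¹ tC) x)) 0 0 1 0 3 1 (-1) :=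
  (sideB hx hx').bothB (thrB hx hx') (en_pos (hx1 hx).le) (Or.inl rfl) (Or.inr rfl) fun y y' F =>
    bothB_cert (s1 := true) (s2 := false) rfl hκ (en_pos (hx1 hx).le) (esg_rng (hx1 hx).le (hx2 hx').le).1 (mo_v x) covB00 covB31 hx hx'
        Pool.Agent.Strip051.G.I69_7273.Tab.C.BB03.c_pm_001 noCut_EB noExt_EB F trivial trivial

theorem BB03_pm_011 {κ x : ℝ} (hκ : κ * h0 = ken x) (hx : ((740881858 : ℕ) : ℝ) / S ≤ x) (hx' : x ≤ (((740881858 : ℕ) : ℝ) + (40050571 : ℕ)) / S) :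
    TriB PP.cur (VE (h0 * 0) 3 κ (h0 * x) (eng.v x) (h0 * (1 / 20)) (tnt (h0 * x) (1 / 5)) (tbl tK x) (tbl tL x) (tbl (smT h0⁻¹ tC) x)) 0 1 1 0 3 1 (-1) :=
  (sideB hx hx').bothB (thrB hx hx') (en_pos (hx1 hx).le) (Or.inl rfl) (Or.inr rfl) fun y y' F =>
    bothB_cert (s1 := true) (s2 := false) rfl hκ (en_pos (hx1 hx).le) (esg_rng (hx1 hx).le (hx2 hx').le).1 (mo_v x) covB00 covB31 hx hx'
        Pool.Agent.Strip051.G.I69_7273.Tab.C.BB03.c_pm_011 noCut_EB noExt_EB F trivial trivial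

theorem BB03_pm_012 {κ x : ℝ} (hκ : κ * h0 = ken x) (hx : ((740881858 : ℕ) : ℝ) / S ≤ x) (hx' : x ≤ (((740881858 : ℕ) : ℝ) + (40050571 : ℕ)) / S) :
    TriB PP.cur (VE (h0 * 0) 3 κ (h0 * x) (eng.v x) (h0 * (1 / 20)) (tnt (h0 * x) (1 / 5)) (tbl tK x) (tbl tL x) (tbl (smT h0⁻¹ tC) x)) 0 1 2 0 3 1 (-1) :=
  (sideB hx hx').bothB (thrB hx hx') (en_pos (hx1 hx).le) (Or.inl rfl) (Or.inr rfl) fun y y' F =>
    bothB_cert (s1 := true) (s2 := false) rfl hκ (en_pos (hx1 hx).le) (esg_rng (hx1 hx).le (hx2 hx').le).1 (mo_v x) covB00 covB32 hx hx'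
        Pool.Agent.Strip051.G.I69_7273.Tab.C.BB03.c_pm_012 noCut_EB noExt_EB F trivial trivial

theorem BB03_pm_022 {κ x : ℝ} (hκ : κ * h0 = ken x) (hx : ((740881858 : ℕ) : ℝ) / S ≤ x) (hx' : x ≤ (((740881858 : ℕ) : ℝ) + (40050571 : ℕ)) / S) :
    TriB PP.cur (VE (h0 * 0) 3 κ (h0 * x) (eng.v x) (h0 * (1 / 20)) (tnt (h0 * x) (1 / 5)) (tbl tK x) (tbl tL x) (tbl (smT h0⁻¹ tC) x)) 0 2 2 0 3 1 (-1) :=
  (sideB hx hx').bothB (thrB hx hx') (en_pos (hx1 hx).le) (Or.inl rfl) (Or.inr rfl) fun y y' F =>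
    bothB_cert (s1 := true) (s2 := false) rfl hκ (en_pos (hx1 hx).le) (esg_rng (hx1 hx).le (hx2 hx').le).1 (mo_v x) covB00 covB32 hx hx'
        Pool.Agent.Strip051.G.I69_7273.Tab.C.BB03.c_pm_022 noCut_EB noExt_EB F trivial trivial

theorem BB03_pm_023 {κ x : ℝ} (hκ : κ * h0 = ken x) (hx : ((740881858 : ℕ) : ℝ) / S ≤ x) (hx' : x ≤ (((740881858 : ℕ) : ℝ) + (40050571 : ℕ)) / S) :
    TriB PP.cur (VE (h0 * 0) 3 κ (h0 * x) (eng.v x) (h0 * (1 / 20)) (tnt (h0 * x) (1 / 5)) (tbl tK x) (tbl tL x) (tbl (smT h0⁻¹ tC) x)) 0 2 3 0 3 1 (-1) :=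
  (sideB hx hx').bothB (thrB hx hx') (en_pos (hx1 hx).le) (Or.inl rfl) (Or.inr rfl) fun y y' F =>
    bothB_cert (s1 := true) (s2 := false) rfl hκ (en_pos (hx1 hx).le) (esg_rng (hx1 hx).le (hx2 hx').le).1 (mo_v x) covB00 covB33 hx hx'
        Pool.Agent.Strip051.G.I69_7273.Tab.C.BB03.c_pm_023 noCut_EB noExt_EB F trivial trivial

theorem BB03_pm_033 {κ x : ℝ} (hκ : κ * h0 = ken x) (hx : ((740881858 : ℕ) : ℝ) / S ≤ x) (hx' : x ≤ (((740881858 : ℕ) : ℝ) + (40050571 : ℕ)) / S) :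
    TriB PP.cur (VE (h0 * 0) 3 κ (h0 * x) (eng.v x) (h0 * (1 / 20)) (tnt (h0 * x) (1 / 5)) (tbl tK x) (tbl tL x) (tbl (smT h0⁻¹ tC) x)) 0 3 3 0 3 1 (-1) :=
  (sideB hx hx').bothB (thrB hx hx') (en_pos (hx1 hx).le) (Or.inl rfl) (Or.inr rfl) fun y y' F =>
    bothB_cert (s1 := true) (s2 := false) rfl hκ (en_pos (hx1 hx).le) (esg_rng (hx1 hx).le (hx2 hx').le).1 (mo_v x) covB00 covB33 hx hx'
        Pool.Agent.Strip051.G.I69_7273.Tab.C.BB03.c_pm_033 noCut_EB noExt_EB F trivial trivial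

theorem BB03_pm_101 {κ x : ℝ} (hκ : κ * h0 = ken x) (hx : ((740881858 : ℕ) : ℝ) / S ≤ x) (hx' : x ≤ (((740881858 : ℕ) : ℝ) + (40050571 : ℕ)) / S) :
    TriB PP.cur (VE (h0 * 0) 3 κ (h0 * x) (eng.v x) (h0 * (1 / 20)) (tnt (h0 * x) (1 / 5)) (tbl tK x) (tbl tL x) (tbl (smT h0⁻¹ tC) x)) 1 0 1 0 3 1 (-1) :=
  (sideB hx hx').bothB (thrB hx hx') (en_pos (hx1 hx).le) (Or.inl rfl) (Or.inr rfl) fun y y' F =>
    bothB_cert (s1 := true) (s2 := false) rfl hκ (en_pos (hx1 hx).le) (esg_rng (hx1 hx).le (hx2 hx').le).1 (mo_v x) covB01 covB31 hx hx'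
        Pool.Agent.Strip051.G.I69_7273.Tab.C.BB03.c_pm_101 noCut_EB noExt_EB F trivial trivial

theorem BB03_pm_102 {κ x : ℝ} (hκ : κ * h0 = ken x) (hx : ((740881858 : ℕ) : ℝ) / S ≤ x) (hx' : x ≤ (((740881858 : ℕ) : ℝ) + (40050571 : ℕ)) / S) :
    TriB PP.cur (VE (h0 * 0) 3 κ (h0 * x) (eng.v x) (h0 * (1 / 20)) (tnt (h0 * x) (1 / 5)) (tbl tK x) (tbl tL x) (tbl (smT h0⁻¹ tC) x)) 1 0 2 0 3 1 (-1) :=
  (sideB hx hx').bothB (thrB hx hx') (en_pos (hx1 hx).le) (Or.inl rfl) (Or.inr rfl) fun y y' F =>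
    bothB_cert (s1 := true) (s2 := false) rfl hκ (en_pos (hx1 hx).le) (esg_rng (hx1 hx).le (hx2 hx').le).1 (mo_v x) covB01 covB32 hx hx'
        Pool.Agent.Strip051.G.I69_7273.Tab.C.BB03.c_pm_102 noCut_EB noExt_EB F trivial trivial

theorem BB03_pm_112 {κ x : ℝ} (hκ : κ * h0 = ken x) (hx : ((740881858 : ℕ) : ℝ) / S ≤ x) (hx' : x ≤ (((740881858 : ℕ) : ℝ) + (40050571 : ℕ)) / S) :
    TriB PP.cur (VE (h0 * 0) 3 κ (h0 * x) (eng.v x) (h0 * (1 / 20)) (tnt (h0 * x) (1 / 5)) (tbl tK x) (tbl tL x) (tbl (smT h0⁻¹ tC) x)) 1 1 2 0 3 1 (-1) :=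
  (sideB hx hx').bothB (thrB hx hx') (en_pos (hx1 hx).le) (Or.inl rfl) (Or.inr rfl) fun y y' F =>
    bothB_cert (s1 := true) (s2 := false) rfl hκ (en_pos (hx1 hx).le) (esg_rng (hx1 hx).le (hx2 hx').le).1 (mo_v x) covB01 covB32 hx hx'
        Pool.Agent.Strip051.G.I69_7273.Tab.C.BB03.c_pm_112 noCut_EB noExt_EB F trivial trivial

theorem BB03_pm_113 {κ x : ℝ} (hκ : κ * h0 = ken x) (hx : ((740881858 : ℕ) : ℝ) / S ≤ x) (hx' : x ≤ (((740881858 : ℕ) : ℝ) + (40050571 : ℕ)) / S) :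
    TriB PP.cur (VE (h0 * 0) 3 κ (h0 * x) (eng.v x) (h0 * (1 / 20)) (tnt (h0 * x) (1 / 5)) (tbl tK x) (tbl tL x) (tbl (smT h0⁻¹ tC) x)) 1 1 3 0 3 1 (-1) :=
  (sideB hx hx').bothB (thrB hx hx') (en_pos (hx1 hx).le) (Or.inl rfl) (Or.inr rfl) fun y y' F =>
    bothB_cert (s1 := true) (s2 := false) rfl hκ (en_pos (hx1 hx).le) (esg_rng (hx1 hx).le (hx2 hx').le).1 (mo_v x) covB01 covB33 hx hx'
        Pool.Agent.Strip051.G.I69_7273.Tab.C.BB03.c_pm_113 (cutEB_cons (Pool.Agent.Strip051.G.I69_7273.Tab.alt12B_B113_03m hκ hx hx') cutEB_nil) noExt_EB F trivial trivial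

theorem BB03_pm_123 {κ x : ℝ} (hκ : κ * h0 = ken x) (hx : ((740881858 : ℕ) : ℝ) / S ≤ x) (hx' : x ≤ (((740881858 : ℕ) : ℝ) + (40050571 : ℕ)) / S) :
    TriB PP.cur (VE (h0 * 0) 3 κ (h0 * x) (eng.v x) (h0 * (1 / 20)) (tnt (h0 * x) (1 / 5)) (tbl tK x) (tbl tL x) (tbl (smT h0⁻¹ tC) x)) 1 2 3 0 3 1 (-1) :=
  (sideB hx hx').bothB (thrB hx hx') (en_pos (hx1 hx).le) (Or.inl rfl) (Or.inr rfl) fun y y' F =>
    bothB_cert (s1 := true) (s2 := false) rfl hκ (en_pos (hx1 hx).le) (esg_rng (hx1 hx).le (hx2 hx').le).1 (mo_v x) covB01 covB33 hx hx'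
        Pool.Agent.Strip051.G.I69_7273.Tab.C.BB03.c_pm_123 (cutEB_cons (Pool.Agent.Strip051.G.I69_7273.Tab.alt12B_B123_03m hκ hx hx') cutEB_nil) (xdB0 hκ hx hx' rfl) F trivial trivial

theorem BB03_pm_133 {κ x : ℝ} (hκ : κ * h0 = ken x) (hx : ((740881858 : ℕ) : ℝ) / S ≤ x) (hx' : x ≤ (((740881858 : ℕ) : ℝ) + (40050571 : ℕ)) / S) :
    TriB PP.cur (VE (h0 * 0) 3 κ (h0 * x) (eng.v x) (h0 * (1 / 20)) (tnt (h0 * x) (1 / 5)) (tbl tK x) (tbl tL x) (tbl (smT h0⁻¹ tC) x)) 1 3 3 0 3 1 (-1) :=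
  (sideB hx hx').bothB (thrB hx hx') (en_pos (hx1 hx).le) (Or.inl rfl) (Or.inr rfl) fun y y' F =>
    bothB_cert (s1 := true) (s2 := false) rfl hκ (en_pos (hx1 hx).le) (esg_rng (hx1 hx).le (hx2 hx').le).1 (mo_v x) covB01 covB33 hx hx'
        Pool.Agent.Strip051.G.I69_7273.Tab.C.BB03.c_pm_133 noCut_EB noExt_EB F trivial trivial

theorem BB03_pm_202 {κ x : ℝ} (hκ : κ * h0 = ken x) (hx : ((740881858 : ℕ) : ℝ) / S ≤ x) (hx' : x ≤ (((740881858 : ℕ) : ℝ) + (40050571 : ℕ)) / S) :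
    TriB PP.cur (VE (h0 * 0) 3 κ (h0 * x) (eng.v x) (h0 * (1 / 20)) (tnt (h0 * x) (1 / 5)) (tbl tK x) (tbl tL x) (tbl (smT h0⁻¹ tC) x)) 2 0 2 0 3 1 (-1) :=
  (sideB hx hx').bothB (thrB hx hx') (en_pos (hx1 hx).le) (Or.inl rfl) (Or.inr rfl) fun y y' F =>
    bothB_cert (s1 := true) (s2 := false) rfl hκ (en_pos (hx1 hx).le) (esg_rng (hx1 hx).le (hx2 hx').le).1 (mo_v x) covB02 covB32 hx hx'
        Pool.Agent.Strip051.G.I69_7273.Tab.C.BB03.c_pm_202 noCut_EB noExt_EB F trivial trivial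

theorem BB03_pm_203 {κ x : ℝ} (hκ : κ * h0 = ken x) (hx : ((740881858 : ℕ) : ℝ) / S ≤ x) (hx' : x ≤ (((740881858 : ℕ) : ℝ) + (40050571 : ℕ)) / S) :
    TriB PP.cur (VE (h0 * 0) 3 κ (h0 * x) (eng.v x) (h0 * (1 / 20)) (tnt (h0 * x) (1 / 5)) (tbl tK x) (tbl tL x) (tbl (smT h0⁻¹ tC) x)) 2 0 3 0 3 1 (-1) :=
  (sideB hx hx').bothB (thrB hx hx') (en_pos (hx1 hx).le) (Or.inl rfl) (Or.inr rfl) fun y y' F =>
    bothB_cert (s1 := true) (s2 := false) rfl hκ (en_pos (hx1 hx).le) (esg_rng (hx1 hx).le (hx2 hx').le).1 (mo_v x) covB02 covB33 hx hx'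
        Pool.Agent.Strip051.G.I69_7273.Tab.C.BB03.c_pm_203 noCut_EB noExt_EB F trivial trivial

theorem BB03_pm_213 {κ x : ℝ} (hκ : κ * h0 = ken x) (hx : ((740881858 : ℕ) : ℝ) / S ≤ x) (hx' : x ≤ (((740881858 : ℕ) : ℝ) + (40050571 : ℕ)) / S) :
    TriB PP.cur (VE (h0 * 0) 3 κ (h0 * x) (eng.v x) (h0 * (1 / 20)) (tnt (h0 * x) (1 / 5)) (tbl tK x) (tbl tL x) (tbl (smT h0⁻¹ tC) x)) 2 1 3 0 3 1 (-1) :=
  (sideB hx hx').bothB (thrB hx hx') (en_pos (hx1 hx).le) (Or.inl rfl) (Or.inr rfl) fun y y' F =>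
    bothB_cert (s1 := true) (s2 := false) rfl hκ (en_pos (hx1 hx).le) (esg_rng (hx1 hx).le (hx2 hx').le).1 (mo_v x) covB02 covB33 hx hx'
        Pool.Agent.Strip051.G.I69_7273.Tab.C.BB03.c_pm_213 (cutEB_cons (Pool.Agent.Strip051.G.I69_7273.Tab.alt12cB_B213_03m hκ hx hx') cutEB_nil) noExt_EB F trivial trivial

theorem BB03_pm_303 {κ x : ℝ} (hκ : κ * h0 = ken x) (hx : ((740881858 : ℕ) : ℝ) / S ≤ x) (hx' : x ≤ (((740881858 : ℕ) : ℝ) + (40050571 : ℕ)) / S) :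
    TriB PP.cur (VE (h0 * 0) 3 κ (h0 * x) (eng.v x) (h0 * (1 / 20)) (tnt (h0 * x) (1 / 5)) (tbl tK x) (tbl tL x) (tbl (smT h0⁻¹ tC) x)) 3 0 3 0 3 1 (-1) :=
  triB_j0

theorem BB03_pm_313 {κ x : ℝ} (hκ : κ * h0 = ken x) (hx : ((740881858 : ℕ) : ℝ) / S ≤ x) (hx' : x ≤ (((740881858 : ℕ) : ℝ) + (40050571 : ℕ)) / S) :
    TriB PP.cur (VE (h0 * 0) 3 κ (h0 * x) (eng.v x) (h0 * (1 / 20)) (tnt (h0 * x) (1 / 5)) (tbl tK x) (tbl tL x) (tbl (smT h0⁻¹ tC) x)) 3 1 3 0 3 1 (-1) :=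
  triB_j0

theorem BB03_mm_001 {κ x : ℝ} (hκ : κ * h0 = ken x) (hx : ((740881858 : ℕ) : ℝ) / S ≤ x) (hx' : x ≤ (((740881858 : ℕ) : ℝ) + (40050571 : ℕ)) / S) :
    TriB PP.cur (VE (h0 * 0) 3 κ (h0 * x) (eng.v x) (h0 * (1 / 20)) (tnt (h0 * x) (1 / 5)) (tbl tK x) (tbl tL x) (tbl (smT h0⁻¹ tC) x)) 0 0 1 0 3 (-1) (-1) :=
  (sideB hx hx').bothB (thrB hx hx') (en_pos (hx1 hx).le) (Or.inr rfl) (Or.inr rfl) fun y y' F =>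
    bothB_cert (s1 := false) (s2 := false) rfl hκ (en_pos (hx1 hx).le) (esg_rng (hx1 hx).le (hx2 hx').le).1 (mo_v x) covB00 covB31 hx hx'
        Pool.Agent.Strip051.G.I69_7273.Tab.C.BB03.c_mm_001 noCut_EB noExt_EB F trivial trivial

theorem BB03_mm_011 {κ x : ℝ} (hκ : κ * h0 = ken x) (hx : ((740881858 : ℕ) : ℝ) / S ≤ x) (hx' : x ≤ (((740881858 : ℕ) : ℝ) + (40050571 : ℕ)) / S) :
    TriB PP.cur (VE (h0 * 0) 3 κ (h0 * x) (eng.v x) (h0 * (1 / 20)) (tnt (h0 * x) (1 / 5)) (tbl tK x) (tbl tL x) (tbl (smT h0⁻¹ tC) x)) 0 1 1 0 3 (-1) (-1) :=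
  (sideB hx hx').bothB (thrB hx hx') (en_pos (hx1 hx).le) (Or.inr rfl) (Or.inr rfl) fun y y' F =>
    bothB_cert (s1 := false) (s2 := false) rfl hκ (en_pos (hx1 hx).le) (esg_rng (hx1 hx).le (hx2 hx').le).1 (mo_v x) covB00 covB31 hx hx'
        Pool.Agent.Strip051.G.I69_7273.Tab.C.BB03.c_mm_011 noCut_EB noExt_EB F trivial trivial

theorem BB03_mm_012 {κ x : ℝ} (hκ : κ * h0 = ken x) (hx : ((740881858 : ℕ) : ℝ) / S ≤ x) (hx' : x ≤ (((740881858 : ℕ) : ℝ) + (40050571 : ℕ)) / S) :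
    TriB PP.cur (VE (h0 * 0) 3 κ (h0 * x) (eng.v x) (h0 * (1 / 20)) (tnt (h0 * x) (1 / 5)) (tbl tK x) (tbl tL x) (tbl (smT h0⁻¹ tC) x)) 0 1 2 0 3 (-1) (-1) :=
  (sideB hx hx').bothB (thrB hx hx') (en_pos (hx1 hx).le) (Or.inr rfl) (Or.inr rfl) fun y y' F =>
    bothB_cert (s1 := false) (s2 := false) rfl hκ (en_pos (hx1 hx).le) (esg_rng (hx1 hx).le (hx2 hx').le).1 (mo_v x) covB00 covB32 hx hx'
        Pool.Agent.Strip051.G.I69_7273.Tab.C.BB03.c_mm_012 noCut_EB noExt_EB F trivial trivial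

theorem BB03_mm_022 {κ x : ℝ} (hκ : κ * h0 = ken x) (hx : ((740881858 : ℕ) : ℝ) / S ≤ x) (hx' : x ≤ (((740881858 : ℕ) : ℝ) + (40050571 : ℕ)) / S) :
    TriB PP.cur (VE (h0 * 0) 3 κ (h0 * x) (eng.v x) (h0 * (1 / 20)) (tnt (h0 * x) (1 / 5)) (tbl tK x) (tbl tL x) (tbl (smT h0⁻¹ tC) x)) 0 2 2 0 3 (-1) (-1) :=
  (sideB hx hx').bothB (thrB hx hx') (en_pos (hx1 hx).le) (Or.inr rfl) (Or.inr rfl) fun y y' F =>
    bothB_cert (s1 := false) (s2 := false) rfl hκ (en_pos (hx1 hx).le) (esg_rng (hx1 hx).le (hx2 hx').le).1 (mo_v x) covB00 covB32 hx hx'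
        Pool.Agent.Strip051.G.I69_7273.Tab.C.BB03.c_mm_022 noCut_EB noExt_EB F trivial trivial

theorem BB03_mm_023 {κ x : ℝ} (hκ : κ * h0 = ken x) (hx : ((740881858 : ℕ) : ℝ) / S ≤ x) (hx' : x ≤ (((740881858 : ℕ) : ℝ) + (40050571 : ℕ)) / S) :
    TriB PP.cur (VE (h0 * 0) 3 κ (h0 * x) (eng.v x) (h0 * (1 / 20)) (tnt (h0 * x) (1 / 5)) (tbl tK x) (tbl tL x) (tbl (smT h0⁻¹ tC) x)) 0 2 3 0 3 (-1) (-1) :=
  (sideB hx hx').bothB (thrB hx hx') (en_pos (hx1 hx).le) (Or.inr rfl) (Or.inr rfl) fun y y' F =>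
    bothB_cert (s1 := false) (s2 := false) rfl hκ (en_pos (hx1 hx).le) (esg_rng (hx1 hx).le (hx2 hx').le).1 (mo_v x) covB00 covB33 hx hx'
        Pool.Agent.Strip051.G.I69_7273.Tab.C.BB03.c_mm_023 noCut_EB noExt_EB F trivial trivial

theorem BB03_mm_033 {κ x : ℝ} (hκ : κ * h0 = ken x) (hx : ((740881858 : ℕ) : ℝ) / S ≤ x) (hx' : x ≤ (((740881858 : ℕ) : ℝ) + (40050571 : ℕ)) / S) :
    TriB PP.cur (VE (h0 * 0) 3 κ (h0 * x) (eng.v x) (h0 * (1 / 20)) (tnt (h0 * x) (1 / 5)) (tbl tK x) (tbl tL x) (tbl (smT h0⁻¹ tC) x)) 0 3 3 0 3 (-1) (-1) :=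
  (sideB hx hx').bothB (thrB hx hx') (en_pos (hx1 hx).le) (Or.inr rfl) (Or.inr rfl) fun y y' F =>
    bothB_cert (s1 := false) (s2 := false) rfl hκ (en_pos (hx1 hx).le) (esg_rng (hx1 hx).le (hx2 hx').le).1 (mo_v x) covB00 covB33 hx hx'
        Pool.Agent.Strip051.G.I69_7273.Tab.C.BB03.c_mm_033 noCut_EB noExt_EB F trivial trivial

theorem BB03_mm_101 {κ x : ℝ} (hκ : κ * h0 = ken x) (hx : ((740881858 : ℕ) : ℝ) / S ≤ x) (hx' : x ≤ (((740881858 : ℕ) : ℝ) + (40050571 : ℕ)) / S) :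
    TriB PP.cur (VE (h0 * 0) 3 κ (h0 * x) (eng.v x) (h0 * (1 / 20)) (tnt (h0 * x) (1 / 5)) (tbl tK x) (tbl tL x) (tbl (smT h0⁻¹ tC) x)) 1 0 1 0 3 (-1) (-1) :=
  (sideB hx hx').bothB (thrB hx hx') (en_pos (hx1 hx).le) (Or.inr rfl) (Or.inr rfl) fun y y' F =>
    bothB_cert (s1 := false) (s2 := false) rfl hκ (en_pos (hx1 hx).le) (esg_rng (hx1 hx).le (hx2 hx').le).1 (mo_v x) covB01 covB31 hx hx'
        Pool.Agent.Strip051.G.I69_7273.Tab.C.BB03.c_mm_101 (cutEB_cons (Pool.Agent.Strip051.G.I69_7273.Tab.altB_B101R_03 hκ hx hx') cutEB_nil) noExt_EB F trivial trivial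

theorem BB03_mm_102 {κ x : ℝ} (hκ : κ * h0 = ken x) (hx : ((740881858 : ℕ) : ℝ) / S ≤ x) (hx' : x ≤ (((740881858 : ℕ) : ℝ) + (40050571 : ℕ)) / S) :
    TriB PP.cur (VE (h0 * 0) 3 κ (h0 * x) (eng.v x) (h0 * (1 / 20)) (tnt (h0 * x) (1 / 5)) (tbl tK x) (tbl tL x) (tbl (smT h0⁻¹ tC) x)) 1 0 2 0 3 (-1) (-1) :=
  (sideB hx hx').bothB (thrB hx hx') (en_pos (hx1 hx).le) (Or.inr rfl) (Or.inr rfl) fun y y' F =>
    bothB_cert (s1 := false) (s2 := false) rfl hκ (en_pos (hx1 hx).le) (esg_rng (hx1 hx).le (hx2 hx').le).1 (mo_v x) covB01 covB32 hx hx'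
        Pool.Agent.Strip051.G.I69_7273.Tab.C.BB03.c_mm_102 noCut_EB noExt_EB F trivial trivial

theorem BB03_mm_112 {κ x : ℝ} (hκ : κ * h0 = ken x) (hx : ((740881858 : ℕ) : ℝ) / S ≤ x) (hx' : x ≤ (((740881858 : ℕ) : ℝ) + (40050571 : ℕ)) / S) :
    TriB PP.cur (VE (h0 * 0) 3 κ (h0 * x) (eng.v x) (h0 * (1 / 20)) (tnt (h0 * x) (1 / 5)) (tbl tK x) (tbl tL x) (tbl (smT h0⁻¹ tC) x)) 1 1 2 0 3 (-1) (-1) :=
  (sideB hx hx').bothB (thrB hx hx') (en_pos (hx1 hx).le) (Or.inr rfl) (Or.inr rfl) fun y y' F =>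
    bothB_cert (s1 := false) (s2 := false) rfl hκ (en_pos (hx1 hx).le) (esg_rng (hx1 hx).le (hx2 hx').le).1 (mo_v x) covB01 covB32 hx hx'
        Pool.Agent.Strip051.G.I69_7273.Tab.C.BB03.c_mm_112 noCut_EB noExt_EB F trivial trivial

theorem BB03_mm_113 {κ x : ℝ} (hκ : κ * h0 = ken x) (hx : ((740881858 : ℕ) : ℝ) / S ≤ x) (hx' : x ≤ (((740881858 : ℕ) : ℝ) + (40050571 : ℕ)) / S) :
    TriB PP.cur (VE (h0 * 0) 3 κ (h0 * x) (eng.v x) (h0 * (1 / 20)) (tnt (h0 * x) (1 / 5)) (tbl tK x) (tbl tL x) (tbl (smT h0⁻¹ tC) x)) 1 1 3 0 3 (-1) (-1) :=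
  (sideB hx hx').bothB (thrB hx hx') (en_pos (hx1 hx).le) (Or.inr rfl) (Or.inr rfl) fun y y' F =>
    bothB_cert (s1 := false) (s2 := false) rfl hκ (en_pos (hx1 hx).le) (esg_rng (hx1 hx).le (hx2 hx').le).1 (mo_v x) covB01 covB33 hx hx'
        Pool.Agent.Strip051.G.I69_7273.Tab.C.BB03.c_mm_113 noCut_EB noExt_EB F trivial trivial

theorem BB03_mm_123 {κ x : ℝ} (hκ : κ * h0 = ken x) (hx : ((740881858 : ℕ) : ℝ) / S ≤ x) (hx' : x ≤ (((740881858 : ℕ) : ℝ) + (40050571 : ℕ)) / S) :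
    TriB PP.cur (VE (h0 * 0) 3 κ (h0 * x) (eng.v x) (h0 * (1 / 20)) (tnt (h0 * x) (1 / 5)) (tbl tK x) (tbl tL x) (tbl (smT h0⁻¹ tC) x)) 1 2 3 0 3 (-1) (-1) :=
  (sideB hx hx').bothB (thrB hx hx') (en_pos (hx1 hx).le) (Or.inr rfl) (Or.inr rfl) fun y y' F =>
    bothB_cert (s1 := false) (s2 := false) rfl hκ (en_pos (hx1 hx).le) (esg_rng (hx1 hx).le (hx2 hx').le).1 (mo_v x) covB01 covB33 hx hx'
        Pool.Agent.Strip051.G.I69_7273.Tab.C.BB03.c_mm_123 noCut_EB noExt_EB F trivial trivial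

theorem BB03_mm_133 {κ x : ℝ} (hκ : κ * h0 = ken x) (hx : ((740881858 : ℕ) : ℝ) / S ≤ x) (hx' : x ≤ (((740881858 : ℕ) : ℝ) + (40050571 : ℕ)) / S) :
    TriB PP.cur (VE (h0 * 0) 3 κ (h0 * x) (eng.v x) (h0 * (1 / 20)) (tnt (h0 * x) (1 / 5)) (tbl tK x) (tbl tL x) (tbl (smT h0⁻¹ tC) x)) 1 3 3 0 3 (-1) (-1) :=
  (sideB hx hx').bothB (thrB hx hx') (en_pos (hx1 hx).le) (Or.inr rfl) (Or.inr rfl) fun y y' F =>
    bothB_cert (s1 := false) (s2 := false) rfl hκ (en_pos (hx1 hx).le) (esg_rng (hx1 hx).le (hx2 hx').le).1 (mo_v x) covB01 covB33 hx hx'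
        Pool.Agent.Strip051.G.I69_7273.Tab.C.BB03.c_mm_133 noCut_EB noExt_EB F trivial trivial

theorem BB03_mm_202 {κ x : ℝ} (hκ : κ * h0 = ken x) (hx : ((740881858 : ℕ) : ℝ) / S ≤ x) (hx' : x ≤ (((740881858 : ℕ) : ℝ) + (40050571 : ℕ)) / S) :
    TriB PP.cur (VE (h0 * 0) 3 κ (h0 * x) (eng.v x) (h0 * (1 / 20)) (tnt (h0 * x) (1 / 5)) (tbl tK x) (tbl tL x) (tbl (smT h0⁻¹ tC) x)) 2 0 2 0 3 (-1) (-1) :=
  (sideB hx hx').bothB (thrB hx hx') (en_pos (hx1 hx).le) (Or.inr rfl) (Or.inr rfl) fun y y' F =>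
    bothB_cert (s1 := false) (s2 := false) rfl hκ (en_pos (hx1 hx).le) (esg_rng (hx1 hx).le (hx2 hx').le).1 (mo_v x) covB02 covB32 hx hx'
        Pool.Agent.Strip051.G.I69_7273.Tab.C.BB03.c_mm_202 noCut_EB noExt_EB F trivial trivial

theorem BB03_mm_203 {κ x : ℝ} (hκ : κ * h0 = ken x) (hx : ((740881858 : ℕ) : ℝ) / S ≤ x) (hx' : x ≤ (((740881858 : ℕ) : ℝ) + (40050571 : ℕ)) / S) :
    TriB PP.cur (VE (h0 * 0) 3 κ (h0 * x) (eng.v x) (h0 * (1 / 20)) (tnt (h0 * x) (1 / 5)) (tbl tK x) (tbl tL x) (tbl (smT h0⁻¹ tC) x)) 2 0 3 0 3 (-1) (-1) :=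
  (sideB hx hx').bothB (thrB hx hx') (en_pos (hx1 hx).le) (Or.inr rfl) (Or.inr rfl) fun y y' F =>
    bothB_cert (s1 := false) (s2 := false) rfl hκ (en_pos (hx1 hx).le) (esg_rng (hx1 hx).le (hx2 hx').le).1 (mo_v x) covB02 covB33 hx hx'
        Pool.Agent.Strip051.G.I69_7273.Tab.C.BB03.c_mm_203 noCut_EB noExt_EB F trivial trivial

theorem BB03_mm_213 {κ x : ℝ} (hκ : κ * h0 = ken x) (hx : ((740881858 : ℕ) : ℝ) / S ≤ x) (hx' : x ≤ (((740881858 : ℕ) : ℝ) + (40050571 : ℕ)) / S) :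
    TriB PP.cur (VE (h0 * 0) 3 κ (h0 * x) (eng.v x) (h0 * (1 / 20)) (tnt (h0 * x) (1 / 5)) (tbl tK x) (tbl tL x) (tbl (smT h0⁻¹ tC) x)) 2 1 3 0 3 (-1) (-1) :=
  (sideB hx hx').bothB (thrB hx hx') (en_pos (hx1 hx).le) (Or.inr rfl) (Or.inr rfl) fun y y' F =>
    bothB_cert (s1 := false) (s2 := false) rfl hκ (en_pos (hx1 hx).le) (esg_rng (hx1 hx).le (hx2 hx').le).1 (mo_v x) covB02 covB33 hx hx'
        Pool.Agent.Strip051.G.I69_7273.Tab.C.BB03.c_mm_213 noCut_EB noExt_EB F trivial trivial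

theorem BB03_mm_303 {κ x : ℝ} (hκ : κ * h0 = ken x) (hx : ((740881858 : ℕ) : ℝ) / S ≤ x) (hx' : x ≤ (((740881858 : ℕ) : ℝ) + (40050571 : ℕ)) / S) :
    TriB PP.cur (VE (h0 * 0) 3 κ (h0 * x) (eng.v x) (h0 * (1 / 20)) (tnt (h0 * x) (1 / 5)) (tbl tK x) (tbl tL x) (tbl (smT h0⁻¹ tC) x)) 3 0 3 0 3 (-1) (-1) :=
  triB_j0

theorem BB03_mm_313 {κ x : ℝ} (hκ : κ * h0 = ken x) (hx : ((740881858 : ℕ) : ℝ) / S ≤ x) (hx' : x ≤ (((740881858 : ℕ) : ℝ) + (40050571 : ℕ)) / S) :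
    TriB PP.cur (VE (h0 * 0) 3 κ (h0 * x) (eng.v x) (h0 * (1 / 20)) (tnt (h0 * x) (1 / 5)) (tbl tK x) (tbl tL x) (tbl (smT h0⁻¹ tC) x)) 3 1 3 0 3 (-1) (-1) :=
  triB_j0

theorem BB03 {κ x : ℝ} (hκ : κ * h0 = ken x) (hx : ((740881858 : ℕ) : ℝ) / S ≤ x) (hx' : x ≤ (((740881858 : ℕ) : ℝ) + (40050571 : ℕ)) / S) : AllTB PP.cur (VE (h0 * 0) 3 κ (h0 * x) (eng.v x) (h0 * (1 / 20)) (tnt (h0 * x) (1 / 5)) (tbl tK x) (tbl tL x) (tbl (smT h0⁻¹ tC) x)) 0 3 where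
  pp := all17 (Q := fun a b c => TriB PP.cur (VE (h0 * 0) 3 κ (h0 * x) (eng.v x) (h0 * (1 / 20)) (tnt (h0 * x) (1 / 5)) (tbl tK x) (tbl tL x) (tbl (smT h0⁻¹ tC) x)) a b c 0 3 1 1)
    (BB03_pp_001 hκ hx hx') (BB03_pp_011 hκ hx hx') (BB03_pp_012 hκ hx hx') (BB03_pp_022 hκ hx hx') (BB03_pp_023 hκ hx hx') (BB03_pp_033 hκ hx hx') (BB03_pp_101 hκ hx hx') (BB03_pp_102 hκ hx hx') (BB03_pp_112 hκ hx hx') (BB03_pp_113 hκ hx hx') (BB03_pp_123 hκ hx hx') (BB03_pp_133 hκ hx hx') (BB03_pp_202 hκ hx hx') (BB03_pp_203 hκ hx hx') (BB03_pp_213 hκ hx hx') (BB03_pp_303 hκ hx hx') (BB03_pp_313 hκ hx hx')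
  pm := all17 (Q := fun a b c => TriB PP.cur (VE (h0 * 0) 3 κ (h0 * x) (eng.v x) (h0 * (1 / 20)) (tnt (h0 * x) (1 / 5)) (tbl tK x) (tbl tL x) (tbl (smT h0⁻¹ tC) x)) a b c 0 3 1 (-1))
    (BB03_pm_001 hκ hx hx') (BB03_pm_011 hκ hx hx') (BB03_pm_012 hκ hx hx') (BB03_pm_022 hκ hx hx') (BB03_pm_023 hκ hx hx') (BB03_pm_033 hκ hx hx') (BB03_pm_101 hκ hx hx') (BB03_pm_102 hκ hx hx') (BB03_pm_112 hκ hx hx') (BB03_pm_113 hκ hx hx') (BB03_pm_123 hκ hx hx') (BB03_pm_133 hκ hx hx') (BB03_pm_202 hκ hx hx') (BB03_pm_203 hκ hx hx') (BB03_pm_213 hκ hx hx') (BB03_pm_303 hκ hx hx') (BB03_pm_313 hκ hx hx')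
  mm := all17 (Q := fun a b c => TriB PP.cur (VE (h0 * 0) 3 κ (h0 * x) (eng.v x) (h0 * (1 / 20)) (tnt (h0 * x) (1 / 5)) (tbl tK x) (tbl tL x) (tbl (smT h0⁻¹ tC) x)) a b c 0 3 (-1) (-1))
    (BB03_mm_001 hκ hx hx') (BB03_mm_011 hκ hx hx') (BB03_mm_012 hκ hx hx') (BB03_mm_022 hκ hx hx') (BB03_mm_023 hκ hx hx') (BB03_mm_033 hκ hx hx') (BB03_mm_101 hκ hx hx') (BB03_mm_102 hκ hx hx') (BB03_mm_112 hκ hx hx') (BB03_mm_113 hκ hx hx') (BB03_mm_123 hκ hx hx') (BB03_mm_133 hκ hx hx') (BB03_mm_202 hκ hx hx') (BB03_mm_203 hκ hx hx') (BB03_mm_213 hκ hx hx') (BB03_mm_303 hκ hx hx') (BB03_mm_313 hκ hx hx')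

theorem BB04_pp_001 {κ x : ℝ} (hκ : κ * h0 = ken x) (hx : ((740881858 : ℕ) : ℝ) / S ≤ x) (hx' : x ≤ (((740881858 : ℕ) : ℝ) + (40050571 : ℕ)) / S) :
    TriB PP.cur (VE (h0 * 0) 3 κ (h0 * x) (eng.v x) (h0 * (1 / 20)) (tnt (h0 * x) (1 / 5)) (tbl tK x) (tbl tL x) (tbl (smT h0⁻¹ tC) x)) 0 0 1 0 4 1 1 :=
  (sideB hx hx').bothB (thrB hx hx') (en_pos (hx1 hx).le) (Or.inl rfl) (Or.inl rfl) fun y y' F =>
    bothB_cert (s1 := true) (s2 := true) rfl hκ (en_pos (hx1 hx).le) (esg_rng (hx1 hx).le (hx2 hx').le).1 (mo_v x) covB00 covB41 hx hx'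
        Pool.Agent.Strip051.G.I69_7273.Tab.C.BB04.c_pp_001 noCut_EB noExt_EB F trivial trivial

theorem BB04_pp_011 {κ x : ℝ} (hκ : κ * h0 = ken x) (hx : ((740881858 : ℕ) : ℝ) / S ≤ x) (hx' : x ≤ (((740881858 : ℕ) : ℝ) + (40050571 : ℕ)) / S) :
    TriB PP.cur (VE (h0 * 0) 3 κ (h0 * x) (eng.v x) (h0 * (1 / 20)) (tnt (h0 * x) (1 / 5)) (tbl tK x) (tbl tL x) (tbl (smT h0⁻¹ tC) x)) 0 1 1 0 4 1 1 :=
  (sideB hx hx').bothB (thrB hx hx') (en_pos (hx1 hx).le) (Or.inl rfl) (Or.inl rfl) fun y y' F =>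
    bothB_cert (s1 := true) (s2 := true) rfl hκ (en_pos (hx1 hx).le) (esg_rng (hx1 hx).le (hx2 hx').le).1 (mo_v x) covB00 covB41 hx hx'
        Pool.Agent.Strip051.G.I69_7273.Tab.C.BB04.c_pp_011 (cutEB_cons (Pool.Agent.Strip051.G.I69_7273.Tab.altB_B011L_04 hκ hx hx') cutEB_nil) noExt_EB F trivial trivial

theorem BB04_pp_012 {κ x : ℝ} (hκ : κ * h0 = ken x) (hx : ((740881858 : ℕ) : ℝ) / S ≤ x) (hx' : x ≤ (((740881858 : ℕ) : ℝ) + (40050571 : ℕ)) / S) :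
    TriB PP.cur (VE (h0 * 0) 3 κ (h0 * x) (eng.v x) (h0 * (1 / 20)) (tnt (h0 * x) (1 / 5)) (tbl tK x) (tbl tL x) (tbl (smT h0⁻¹ tC) x)) 0 1 2 0 4 1 1 :=
  (sideB hx hx').bothB (thrB hx hx') (en_pos (hx1 hx).le) (Or.inl rfl) (Or.inl rfl) fun y y' F =>
    bothB_cert (s1 := true) (s2 := true) rfl hκ (en_pos (hx1 hx).le) (esg_rng (hx1 hx).le (hx2 hx').le).1 (mo_v x) covB00 covB42 hx hx'
        Pool.Agent.Strip051.G.I69_7273.Tab.C.BB04.c_pp_012 noCut_EB noExt_EB F trivial trivial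

theorem BB04_pp_022 {κ x : ℝ} (hκ : κ * h0 = ken x) (hx : ((740881858 : ℕ) : ℝ) / S ≤ x) (hx' : x ≤ (((740881858 : ℕ) : ℝ) + (40050571 : ℕ)) / S) :
    TriB PP.cur (VE (h0 * 0) 3 κ (h0 * x) (eng.v x) (h0 * (1 / 20)) (tnt (h0 * x) (1 / 5)) (tbl tK x) (tbl tL x) (tbl (smT h0⁻¹ tC) x)) 0 2 2 0 4 1 1 :=
  (sideB hx hx').bothB (thrB hx hx') (en_pos (hx1 hx).le) (Or.inl rfl) (Or.inl rfl) fun y y' F =>
    bothB_cert (s1 := true) (s2 := true) rfl hκ (en_pos (hx1 hx).le) (esg_rng (hx1 hx).le (hx2 hx').le).1 (mo_v x) covB00 covB42 hx hx'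
        Pool.Agent.Strip051.G.I69_7273.Tab.C.BB04.c_pp_022 noCut_EB noExt_EB F trivial trivial

theorem BB04_pp_023 {κ x : ℝ} (hκ : κ * h0 = ken x) (hx : ((740881858 : ℕ) : ℝ) / S ≤ x) (hx' : x ≤ (((740881858 : ℕ) : ℝ) + (40050571 : ℕ)) / S) :
    TriB PP.cur (VE (h0 * 0) 3 κ (h0 * x) (eng.v x) (h0 * (1 / 20)) (tnt (h0 * x) (1 / 5)) (tbl tK x) (tbl tL x) (tbl (smT h0⁻¹ tC) x)) 0 2 3 0 4 1 1 :=
  (sideB hx hx').bothB (thrB hx hx') (en_pos (hx1 hx).le) (Or.inl rfl) (Or.inl rfl) fun y y' F =>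
    bothB_cert (s1 := true) (s2 := true) rfl hκ (en_pos (hx1 hx).le) (esg_rng (hx1 hx).le (hx2 hx').le).1 (mo_v x) covB00 covB43 hx hx'
        Pool.Agent.Strip051.G.I69_7273.Tab.C.BB04.c_pp_023 noCut_EB noExt_EB F trivial trivial

theorem BB04_pp_033 {κ x : ℝ} (hκ : κ * h0 = ken x) (hx : ((740881858 : ℕ) : ℝ) / S ≤ x) (hx' : x ≤ (((740881858 : ℕ) : ℝ) + (40050571 : ℕ)) / S) :
    TriB PP.cur (VE (h0 * 0) 3 κ (h0 * x) (eng.v x) (h0 * (1 / 20)) (tnt (h0 * x) (1 / 5)) (tbl tK x) (tbl tL x) (tbl (smT h0⁻¹ tC) x)) 0 3 3 0 4 1 1 :=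
  (sideB hx hx').bothB (thrB hx hx') (en_pos (hx1 hx).le) (Or.inl rfl) (Or.inl rfl) fun y y' F =>
    bothB_cert (s1 := true) (s2 := true) rfl hκ (en_pos (hx1 hx).le) (esg_rng (hx1 hx).le (hx2 hx').le).1 (mo_v x) covB00 covB43 hx hx'
        Pool.Agent.Strip051.G.I69_7273.Tab.C.BB04.c_pp_033 noCut_EB noExt_EB F trivial trivial

theorem BB04_pp_101 {κ x : ℝ} (hκ : κ * h0 = ken x) (hx : ((740881858 : ℕ) : ℝ) / S ≤ x) (hx' : x ≤ (((740881858 : ℕ) : ℝ) + (40050571 : ℕ)) / S) :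
    TriB PP.cur (VE (h0 * 0) 3 κ (h0 * x) (eng.v x) (h0 * (1 / 20)) (tnt (h0 * x) (1 / 5)) (tbl tK x) (tbl tL x) (tbl (smT h0⁻¹ tC) x)) 1 0 1 0 4 1 1 :=
  (sideB hx hx').bothB (thrB hx hx') (en_pos (hx1 hx).le) (Or.inl rfl) (Or.inl rfl) fun y y' F =>
    bothB_cert (s1 := true) (s2 := true) rfl hκ (en_pos (hx1 hx).le) (esg_rng (hx1 hx).le (hx2 hx').le).1 (mo_v x) covB01 covB41 hx hx'
        Pool.Agent.Strip051.G.I69_7273.Tab.C.BB04.c_pp_101 noCut_EB noExt_EB F trivial trivial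

theorem BB04_pp_102 {κ x : ℝ} (hκ : κ * h0 = ken x) (hx : ((740881858 : ℕ) : ℝ) / S ≤ x) (hx' : x ≤ (((740881858 : ℕ) : ℝ) + (40050571 : ℕ)) / S) :
    TriB PP.cur (VE (h0 * 0) 3 κ (h0 * x) (eng.v x) (h0 * (1 / 20)) (tnt (h0 * x) (1 / 5)) (tbl tK x) (tbl tL x) (tbl (smT h0⁻¹ tC) x)) 1 0 2 0 4 1 1 :=
  (sideB hx hx').bothB (thrB hx hx') (en_pos (hx1 hx).le) (Or.inl rfl) (Or.inl rfl) fun y y' F =>
    bothB_cert (s1 := true) (s2 := true) rfl hκ (en_pos (hx1 hx).le) (esg_rng (hx1 hx).le (hx2 hx').le).1 (mo_v x) covB01 covB42 hx hx'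
        Pool.Agent.Strip051.G.I69_7273.Tab.C.BB04.c_pp_102 noCut_EB noExt_EB F trivial trivial

theorem BB04_pp_112 {κ x : ℝ} (hκ : κ * h0 = ken x) (hx : ((740881858 : ℕ) : ℝ) / S ≤ x) (hx' : x ≤ (((740881858 : ℕ) : ℝ) + (40050571 : ℕ)) / S) :
    TriB PP.cur (VE (h0 * 0) 3 κ (h0 * x) (eng.v x) (h0 * (1 / 20)) (tnt (h0 * x) (1 / 5)) (tbl tK x) (tbl tL x) (tbl (smT h0⁻¹ tC) x)) 1 1 2 0 4 1 1 :=
  (sideB hx hx').bothB (thrB hx hx') (en_pos (hx1 hx).le) (Or.inl rfl) (Or.inl rfl) fun y y' F =>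
    bothB_cert (s1 := true) (s2 := true) rfl hκ (en_pos (hx1 hx).le) (esg_rng (hx1 hx).le (hx2 hx').le).1 (mo_v x) covB01 covB42 hx hx'
        Pool.Agent.Strip051.G.I69_7273.Tab.C.BB04.c_pp_112 noCut_EB noExt_EB F trivial trivial

theorem BB04_pp_113 {κ x : ℝ} (hκ : κ * h0 = ken x) (hx : ((740881858 : ℕ) : ℝ) / S ≤ x) (hx' : x ≤ (((740881858 : ℕ) : ℝ) + (40050571 : ℕ)) / S) :
    TriB PP.cur (VE (h0 * 0) 3 κ (h0 * x) (eng.v x) (h0 * (1 / 20)) (tnt (h0 * x) (1 / 5)) (tbl tK x) (tbl tL x) (tbl (smT h0⁻¹ tC) x)) 1 1 3 0 4 1 1 :=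
  (sideB hx hx').bothB (thrB hx hx') (en_pos (hx1 hx).le) (Or.inl rfl) (Or.inl rfl) fun y y' F =>
    bothB_cert (s1 := true) (s2 := true) rfl hκ (en_pos (hx1 hx).le) (esg_rng (hx1 hx).le (hx2 hx').le).1 (mo_v x) covB01 covB43 hx hx'
        Pool.Agent.Strip051.G.I69_7273.Tab.C.BB04.c_pp_113 (cutEB_cons (Pool.Agent.Strip051.G.I69_7273.Tab.alt12B_B113_04p hκ hx hx') cutEB_nil) noExt_EB F trivial trivial

theorem BB04_pp_123 {κ x : ℝ} (hκ : κ * h0 = ken x) (hx : ((740881858 : ℕ) : ℝ) / S ≤ x) (hx' : x ≤ (((740881858 : ℕ) : ℝ) + (40050571 : ℕ)) / S) :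
    TriB PP.cur (VE (h0 * 0) 3 κ (h0 * x) (eng.v x) (h0 * (1 / 20)) (tnt (h0 * x) (1 / 5)) (tbl tK x) (tbl tL x) (tbl (smT h0⁻¹ tC) x)) 1 2 3 0 4 1 1 :=
  (sideB hx hx').bothB (thrB hx hx') (en_pos (hx1 hx).le) (Or.inl rfl) (Or.inl rfl) fun y y' F =>
    bothB_cert (s1 := true) (s2 := true) rfl hκ (en_pos (hx1 hx).le) (esg_rng (hx1 hx).le (hx2 hx').le).1 (mo_v x) covB01 covB43 hx hx'
        Pool.Agent.Strip051.G.I69_7273.Tab.C.BB04.c_pp_123 (cutEB_cons (Pool.Agent.Strip051.G.I69_7273.Tab.alt12cB_B123_04p hκ hx hx') cutEB_nil) noExt_EB F trivial trivial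

theorem BB04_pp_133 {κ x : ℝ} (hκ : κ * h0 = ken x) (hx : ((740881858 : ℕ) : ℝ) / S ≤ x) (hx' : x ≤ (((740881858 : ℕ) : ℝ) + (40050571 : ℕ)) / S) :
    TriB PP.cur (VE (h0 * 0) 3 κ (h0 * x) (eng.v x) (h0 * (1 / 20)) (tnt (h0 * x) (1 / 5)) (tbl tK x) (tbl tL x) (tbl (smT h0⁻¹ tC) x)) 1 3 3 0 4 1 1 :=
  (sideB hx hx').bothB (thrB hx hx') (en_pos (hx1 hx).le) (Or.inl rfl) (Or.inl rfl) fun y y' F =>
    bothB_cert (s1 := true) (s2 := true) rfl hκ (en_pos (hx1 hx).le) (esg_rng (hx1 hx).le (hx2 hx').le).1 (mo_v x) covB01 covB43 hx hx'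
        Pool.Agent.Strip051.G.I69_7273.Tab.C.BB04.c_pp_133 noCut_EB noExt_EB F trivial trivial

theorem BB04_pp_202 {κ x : ℝ} (hκ : κ * h0 = ken x) (hx : ((740881858 : ℕ) : ℝ) / S ≤ x) (hx' : x ≤ (((740881858 : ℕ) : ℝ) + (40050571 : ℕ)) / S) :
    TriB PP.cur (VE (h0 * 0) 3 κ (h0 * x) (eng.v x) (h0 * (1 / 20)) (tnt (h0 * x) (1 / 5)) (tbl tK x) (tbl tL x) (tbl (smT h0⁻¹ tC) x)) 2 0 2 0 4 1 1 :=
  (sideB hx hx').bothB (thrB hx hx') (en_pos (hx1 hx).le) (Or.inl rfl) (Or.inl rfl) fun y y' F =>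
    bothB_cert (s1 := true) (s2 := true) rfl hκ (en_pos (hx1 hx).le) (esg_rng (hx1 hx).le (hx2 hx').le).1 (mo_v x) covB02 covB42 hx hx'
        Pool.Agent.Strip051.G.I69_7273.Tab.C.BB04.c_pp_202 noCut_EB noExt_EB F trivial trivial

theorem BB04_pp_203 {κ x : ℝ} (hκ : κ * h0 = ken x) (hx : ((740881858 : ℕ) : ℝ) / S ≤ x) (hx' : x ≤ (((740881858 : ℕ) : ℝ) + (40050571 : ℕ)) / S) :
    TriB PP.cur (VE (h0 * 0) 3 κ (h0 * x) (eng.v x) (h0 * (1 / 20)) (tnt (h0 * x) (1 / 5)) (tbl tK x) (tbl tL x) (tbl (smT h0⁻¹ tC) x)) 2 0 3 0 4 1 1 :=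
  (sideB hx hx').bothB (thrB hx hx') (en_pos (hx1 hx).le) (Or.inl rfl) (Or.inl rfl) fun y y' F =>
    bothB_cert (s1 := true) (s2 := true) rfl hκ (en_pos (hx1 hx).le) (esg_rng (hx1 hx).le (hx2 hx').le).1 (mo_v x) covB02 covB43 hx hx'
        Pool.Agent.Strip051.G.I69_7273.Tab.C.BB04.c_pp_203 noCut_EB noExt_EB F trivial trivial

theorem BB04_pp_213 {κ x : ℝ} (hκ : κ * h0 = ken x) (hx : ((740881858 : ℕ) : ℝ) / S ≤ x) (hx' : x ≤ (((740881858 : ℕ) : ℝ) + (40050571 : ℕ)) / S) :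
    TriB PP.cur (VE (h0 * 0) 3 κ (h0 * x) (eng.v x) (h0 * (1 / 20)) (tnt (h0 * x) (1 / 5)) (tbl tK x) (tbl tL x) (tbl (smT h0⁻¹ tC) x)) 2 1 3 0 4 1 1 :=
  (sideB hx hx').bothB (thrB hx hx') (en_pos (hx1 hx).le) (Or.inl rfl) (Or.inl rfl) fun y y' F =>
    bothB_cert (s1 := true) (s2 := true) rfl hκ (en_pos (hx1 hx).le) (esg_rng (hx1 hx).le (hx2 hx').le).1 (mo_v x) covB02 covB43 hx hx'
        Pool.Agent.Strip051.G.I69_7273.Tab.C.BB04.c_pp_213 (cutEB_cons (Pool.Agent.Strip051.G.I69_7273.Tab.alt12B_B213_04p hκ hx hx') cutEB_nil) noExt_EB F trivial trivial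

theorem BB04_pp_303 {κ x : ℝ} (hκ : κ * h0 = ken x) (hx : ((740881858 : ℕ) : ℝ) / S ≤ x) (hx' : x ≤ (((740881858 : ℕ) : ℝ) + (40050571 : ℕ)) / S) :
    TriB PP.cur (VE (h0 * 0) 3 κ (h0 * x) (eng.v x) (h0 * (1 / 20)) (tnt (h0 * x) (1 / 5)) (tbl tK x) (tbl tL x) (tbl (smT h0⁻¹ tC) x)) 3 0 3 0 4 1 1 :=
  triB_j0

theorem BB04_pp_313 {κ x : ℝ} (hκ : κ * h0 = ken x) (hx : ((740881858 : ℕ) : ℝ) / S ≤ x) (hx' : x ≤ (((740881858 : ℕ) : ℝ) + (40050571 : ℕ)) / S) :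
    TriB PP.cur (VE (h0 * 0) 3 κ (h0 * x) (eng.v x) (h0 * (1 / 20)) (tnt (h0 * x) (1 / 5)) (tbl tK x) (tbl tL x) (tbl (smT h0⁻¹ tC) x)) 3 1 3 0 4 1 1 :=
  triB_j0

theorem BB04_pm_001 {κ x : ℝ} (hκ : κ * h0 = ken x) (hx : ((740881858 : ℕ) : ℝ) / S ≤ x) (hx' : x ≤ (((740881858 : ℕ) : ℝ) + (40050571 : ℕ)) / S) :
    TriB PP.cur (VE (h0 * 0) 3 κ (h0 * x) (eng.v x) (h0 * (1 / 20)) (tnt (h0 * x) (1 / 5)) (tbl tK x) (tbl tL x) (tbl (smT h0⁻¹ tC) x)) 0 0 1 0 4 1 (-1) :=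
  (sideB hx hx').bothB (thrB hx hx') (en_pos (hx1 hx).le) (Or.inl rfl) (Or.inr rfl) fun y y' F =>
    bothB_cert (s1 := true) (s2 := false) rfl hκ (en_pos (hx1 hx).le) (esg_rng (hx1 hx).le (hx2 hx').le).1 (mo_v x) covB00 covB41 hx hx'
        Pool.Agent.Strip051.G.I69_7273.Tab.C.BB04.c_pm_001 noCut_EB noExt_EB F trivial trivial

theorem BB04_pm_011 {κ x : ℝ} (hκ : κ * h0 = ken x) (hx : ((740881858 : ℕ) : ℝ) / S ≤ x) (hx' : x ≤ (((740881858 : ℕ) : ℝ) + (40050571 : ℕ)) / S) :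
    TriB PP.cur (VE (h0 * 0) 3 κ (h0 * x) (eng.v x) (h0 * (1 / 20)) (tnt (h0 * x) (1 / 5)) (tbl tK x) (tbl tL x) (tbl (smT h0⁻¹ tC) x)) 0 1 1 0 4 1 (-1) :=
  (sideB hx hx').bothB (thrB hx hx') (en_pos (hx1 hx).le) (Or.inl rfl) (Or.inr rfl) fun y y' F =>
    bothB_cert (s1 := true) (s2 := false) rfl hκ (en_pos (hx1 hx).le) (esg_rng (hx1 hx).le (hx2 hx').le).1 (mo_v x) covB00 covB41 hx hx'
        Pool.Agent.Strip051.G.I69_7273.Tab.C.BB04.c_pm_011 noCut_EB noExt_EB F trivial trivial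

theorem BB04_pm_012 {κ x : ℝ} (hκ : κ * h0 = ken x) (hx : ((740881858 : ℕ) : ℝ) / S ≤ x) (hx' : x ≤ (((740881858 : ℕ) : ℝ) + (40050571 : ℕ)) / S) :
    TriB PP.cur (VE (h0 * 0) 3 κ (h0 * x) (eng.v x) (h0 * (1 / 20)) (tnt (h0 * x) (1 / 5)) (tbl tK x) (tbl tL x) (tbl (smT h0⁻¹ tC) x)) 0 1 2 0 4 1 (-1) :=
  (sideB hx hx').bothB (thrB hx hx') (en_pos (hx1 hx).le) (Or.inl rfl) (Or.inr rfl) fun y y' F =>
    bothB_cert (s1 := true) (s2 := false) rfl hκ (en_pos (hx1 hx).le) (esg_rng (hx1 hx).le (hx2 hx').le).1 (mo_v x) covB00 covB42 hx hx'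
        Pool.Agent.Strip051.G.I69_7273.Tab.C.BB04.c_pm_012 noCut_EB noExt_EB F trivial trivial

theorem BB04_pm_022 {κ x : ℝ} (hκ : κ * h0 = ken x) (hx : ((740881858 : ℕ) : ℝ) / S ≤ x) (hx' : x ≤ (((740881858 : ℕ) : ℝ) + (40050571 : ℕ)) / S) :
    TriB PP.cur (VE (h0 * 0) 3 κ (h0 * x) (eng.v x) (h0 * (1 / 20)) (tnt (h0 * x) (1 / 5)) (tbl tK x) (tbl tL x) (tbl (smT h0⁻¹ tC) x)) 0 2 2 0 4 1 (-1) :=
  (sideB hx hx').bothB (thrB hx hx') (en_pos (hx1 hx).le) (Or.inl rfl) (Or.inr rfl) fun y y' F =>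
    bothB_cert (s1 := true) (s2 := false) rfl hκ (en_pos (hx1 hx).le) (esg_rng (hx1 hx).le (hx2 hx').le).1 (mo_v x) covB00 covB42 hx hx'
        Pool.Agent.Strip051.G.I69_7273.Tab.C.BB04.c_pm_022 noCut_EB noExt_EB F trivial trivial

theorem BB04_pm_023 {κ x : ℝ} (hκ : κ * h0 = ken x) (hx : ((740881858 : ℕ) : ℝ) / S ≤ x) (hx' : x ≤ (((740881858 : ℕ) : ℝ) + (40050571 : ℕ)) / S) :
    TriB PP.cur (VE (h0 * 0) 3 κ (h0 * x) (eng.v x) (h0 * (1 / 20)) (tnt (h0 * x) (1 / 5)) (tbl tK x) (tbl tL x) (tbl (smT h0⁻¹ tC) x)) 0 2 3 0 4 1 (-1) :=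
  (sideB hx hx').bothB (thrB hx hx') (en_pos (hx1 hx).le) (Or.inl rfl) (Or.inr rfl) fun y y' F =>
    bothB_cert (s1 := true) (s2 := false) rfl hκ (en_pos (hx1 hx).le) (esg_rng (hx1 hx).le (hx2 hx').le).1 (mo_v x) covB00 covB43 hx hx'
        Pool.Agent.Strip051.G.I69_7273.Tab.C.BB04.c_pm_023 noCut_EB noExt_EB F trivial trivial

theorem BB04_pm_033 {κ x : ℝ} (hκ : κ * h0 = ken x) (hx : ((740881858 : ℕ) : ℝ) / S ≤ x) (hx' : x ≤ (((740881858 : ℕ) : ℝ) + (40050571 : ℕ)) / S) :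
    TriB PP.cur (VE (h0 * 0) 3 κ (h0 * x) (eng.v x) (h0 * (1 / 20)) (tnt (h0 * x) (1 / 5)) (tbl tK x) (tbl tL x) (tbl (smT h0⁻¹ tC) x)) 0 3 3 0 4 1 (-1) :=
  (sideB hx hx').bothB (thrB hx hx') (en_pos (hx1 hx).le) (Or.inl rfl) (Or.inr rfl) fun y y' F =>
    bothB_cert (s1 := true) (s2 := false) rfl hκ (en_pos (hx1 hx).le) (esg_rng (hx1 hx).le (hx2 hx').le).1 (mo_v x) covB00 covB43 hx hx'
        Pool.Agent.Strip051.G.I69_7273.Tab.C.BB04.c_pm_033 noCut_EB noExt_EB F trivial trivial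

theorem BB04_pm_101 {κ x : ℝ} (hκ : κ * h0 = ken x) (hx : ((740881858 : ℕ) : ℝ) / S ≤ x) (hx' : x ≤ (((740881858 : ℕ) : ℝ) + (40050571 : ℕ)) / S) :
    TriB PP.cur (VE (h0 * 0) 3 κ (h0 * x) (eng.v x) (h0 * (1 / 20)) (tnt (h0 * x) (1 / 5)) (tbl tK x) (tbl tL x) (tbl (smT h0⁻¹ tC) x)) 1 0 1 0 4 1 (-1) :=
  (sideB hx hx').bothB (thrB hx hx') (en_pos (hx1 hx).le) (Or.inl rfl) (Or.inr rfl) fun y y' F =>
    bothB_cert (s1 := true) (s2 := false) rfl hκ (en_pos (hx1 hx).le) (esg_rng (hx1 hx).le (hx2 hx').le).1 (mo_v x) covB01 covB41 hx hx'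
        Pool.Agent.Strip051.G.I69_7273.Tab.C.BB04.c_pm_101 noCut_EB noExt_EB F trivial trivial

theorem BB04_pm_102 {κ x : ℝ} (hκ : κ * h0 = ken x) (hx : ((740881858 : ℕ) : ℝ) / S ≤ x) (hx' : x ≤ (((740881858 : ℕ) : ℝ) + (40050571 : ℕ)) / S) :
    TriB PP.cur (VE (h0 * 0) 3 κ (h0 * x) (eng.v x) (h0 * (1 / 20)) (tnt (h0 * x) (1 / 5)) (tbl tK x) (tbl tL x) (tbl (smT h0⁻¹ tC) x)) 1 0 2 0 4 1 (-1) :=
  (sideB hx hx').bothB (thrB hx hx') (en_pos (hx1 hx).le) (Or.inl rfl) (Or.inr rfl) fun y y' F =>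
    bothB_cert (s1 := true) (s2 := false) rfl hκ (en_pos (hx1 hx).le) (esg_rng (hx1 hx).le (hx2 hx').le).1 (mo_v x) covB01 covB42 hx hx'
        Pool.Agent.Strip051.G.I69_7273.Tab.C.BB04.c_pm_102 noCut_EB noExt_EB F trivial trivial

theorem BB04_pm_112 {κ x : ℝ} (hκ : κ * h0 = ken x) (hx : ((740881858 : ℕ) : ℝ) / S ≤ x) (hx' : x ≤ (((740881858 : ℕ) : ℝ) + (40050571 : ℕ)) / S) :
    TriB PP.cur (VE (h0 * 0) 3 κ (h0 * x) (eng.v x) (h0 * (1 / 20)) (tnt (h0 * x) (1 / 5)) (tbl tK x) (tbl tL x) (tbl (smT h0⁻¹ tC) x)) 1 1 2 0 4 1 (-1) :=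
  (sideB hx hx').bothB (thrB hx hx') (en_pos (hx1 hx).le) (Or.inl rfl) (Or.inr rfl) fun y y' F =>
    bothB_cert (s1 := true) (s2 := false) rfl hκ (en_pos (hx1 hx).le) (esg_rng (hx1 hx).le (hx2 hx').le).1 (mo_v x) covB01 covB42 hx hx'
        Pool.Agent.Strip051.G.I69_7273.Tab.C.BB04.c_pm_112 noCut_EB noExt_EB F trivial trivial

theorem BB04_pm_113 {κ x : ℝ} (hκ : κ * h0 = ken x) (hx : ((740881858 : ℕ) : ℝ) / S ≤ x) (hx' : x ≤ (((740881858 : ℕ) : ℝ) + (40050571 : ℕ)) / S) :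
    TriB PP.cur (VE (h0 * 0) 3 κ (h0 * x) (eng.v x) (h0 * (1 / 20)) (tnt (h0 * x) (1 / 5)) (tbl tK x) (tbl tL x) (tbl (smT h0⁻¹ tC) x)) 1 1 3 0 4 1 (-1) :=
  (sideB hx hx').bothB (thrB hx hx') (en_pos (hx1 hx).le) (Or.inl rfl) (Or.inr rfl) fun y y' F =>
    bothB_cert (s1 := true) (s2 := false) rfl hκ (en_pos (hx1 hx).le) (esg_rng (hx1 hx).le (hx2 hx').le).1 (mo_v x) covB01 covB43 hx hx'
        Pool.Agent.Strip051.G.I69_7273.Tab.C.BB04.c_pm_113 (cutEB_cons (Pool.Agent.Strip051.G.I69_7273.Tab.alt12B_B113_04m hκ hx hx') cutEB_nil) noExt_EB F trivial trivial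

theorem BB04_pm_123 {κ x : ℝ} (hκ : κ * h0 = ken x) (hx : ((740881858 : ℕ) : ℝ) / S ≤ x) (hx' : x ≤ (((740881858 : ℕ) : ℝ) + (40050571 : ℕ)) / S) :
    TriB PP.cur (VE (h0 * 0) 3 κ (h0 * x) (eng.v x) (h0 * (1 / 20)) (tnt (h0 * x) (1 / 5)) (tbl tK x) (tbl tL x) (tbl (smT h0⁻¹ tC) x)) 1 2 3 0 4 1 (-1) :=
  (sideB hx hx').bothB (thrB hx hx') (en_pos (hx1 hx).le) (Or.inl rfl) (Or.inr rfl) fun y y' F =>
    bothB_cert (s1 := true) (s2 := false) rfl hκ (en_pos (hx1 hx).le) (esg_rng (hx1 hx).le (hx2 hx').le).1 (mo_v x) covB01 covB43 hx hx'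
        Pool.Agent.Strip051.G.I69_7273.Tab.C.BB04.c_pm_123 (cutEB_cons (Pool.Agent.Strip051.G.I69_7273.Tab.alt12B_B123_04m hκ hx hx') cutEB_nil) noExt_EB F trivial trivial

theorem BB04_pm_133 {κ x : ℝ} (hκ : κ * h0 = ken x) (hx : ((740881858 : ℕ) : ℝ) / S ≤ x) (hx' : x ≤ (((740881858 : ℕ) : ℝ) + (40050571 : ℕ)) / S) :
    TriB PP.cur (VE (h0 * 0) 3 κ (h0 * x) (eng.v x) (h0 * (1 / 20)) (tnt (h0 * x) (1 / 5)) (tbl tK x) (tbl tL x) (tbl (smT h0⁻¹ tC) x)) 1 3 3 0 4 1 (-1) :=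
  (sideB hx hx').bothB (thrB hx hx') (en_pos (hx1 hx).le) (Or.inl rfl) (Or.inr rfl) fun y y' F =>
    bothB_cert (s1 := true) (s2 := false) rfl hκ (en_pos (hx1 hx).le) (esg_rng (hx1 hx).le (hx2 hx').le).1 (mo_v x) covB01 covB43 hx hx'
        Pool.Agent.Strip051.G.I69_7273.Tab.C.BB04.c_pm_133 noCut_EB noExt_EB F trivial trivial

theorem BB04_pm_202 {κ x : ℝ} (hκ : κ * h0 = ken x) (hx : ((740881858 : ℕ) : ℝ) / S ≤ x) (hx' : x ≤ (((740881858 : ℕ) : ℝ) + (40050571 : ℕ)) / S) :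
    TriB PP.cur (VE (h0 * 0) 3 κ (h0 * x) (eng.v x) (h0 * (1 / 20)) (tnt (h0 * x) (1 / 5)) (tbl tK x) (tbl tL x) (tbl (smT h0⁻¹ tC) x)) 2 0 2 0 4 1 (-1) :=
  (sideB hx hx').bothB (thrB hx hx') (en_pos (hx1 hx).le) (Or.inl rfl) (Or.inr rfl) fun y y' F =>
    bothB_cert (s1 := true) (s2 := false) rfl hκ (en_pos (hx1 hx).le) (esg_rng (hx1 hx).le (hx2 hx').le).1 (mo_v x) covB02 covB42 hx hx'
        Pool.Agent.Strip051.G.I69_7273.Tab.C.BB04.c_pm_202 noCut_EB noExt_EB F trivial trivial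

theorem BB04_pm_203 {κ x : ℝ} (hκ : κ * h0 = ken x) (hx : ((740881858 : ℕ) : ℝ) / S ≤ x) (hx' : x ≤ (((740881858 : ℕ) : ℝ) + (40050571 : ℕ)) / S) :
    TriB PP.cur (VE (h0 * 0) 3 κ (h0 * x) (eng.v x) (h0 * (1 / 20)) (tnt (h0 * x) (1 / 5)) (tbl tK x) (tbl tL x) (tbl (smT h0⁻¹ tC) x)) 2 0 3 0 4 1 (-1) :=
  (sideB hx hx').bothB (thrB hx hx') (en_pos (hx1 hx).le) (Or.inl rfl) (Or.inr rfl) fun y y' F =>
    bothB_cert (s1 := true) (s2 := false) rfl hκ (en_pos (hx1 hx).le) (esg_rng (hx1 hx).le (hx2 hx').le).1 (mo_v x) covB02 covB43 hx hx'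
        Pool.Agent.Strip051.G.I69_7273.Tab.C.BB04.c_pm_203 noCut_EB noExt_EB F trivial trivial

theorem BB04_pm_213 {κ x : ℝ} (hκ : κ * h0 = ken x) (hx : ((740881858 : ℕ) : ℝ) / S ≤ x) (hx' : x ≤ (((740881858 : ℕ) : ℝ) + (40050571 : ℕ)) / S) :
    TriB PP.cur (VE (h0 * 0) 3 κ (h0 * x) (eng.v x) (h0 * (1 / 20)) (tnt (h0 * x) (1 / 5)) (tbl tK x) (tbl tL x) (tbl (smT h0⁻¹ tC) x)) 2 1 3 0 4 1 (-1) :=
  (sideB hx hx').bothB (thrB hx hx') (en_pos (hx1 hx).le) (Or.inl rfl) (Or.inr rfl) fun y y' F =>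
    bothB_cert (s1 := true) (s2 := false) rfl hκ (en_pos (hx1 hx).le) (esg_rng (hx1 hx).le (hx2 hx').le).1 (mo_v x) covB02 covB43 hx hx'
        Pool.Agent.Strip051.G.I69_7273.Tab.C.BB04.c_pm_213 (cutEB_cons (Pool.Agent.Strip051.G.I69_7273.Tab.alt12cB_B213_04m hκ hx hx') cutEB_nil) noExt_EB F trivial trivial

theorem BB04_pm_303 {κ x : ℝ} (hκ : κ * h0 = ken x) (hx : ((740881858 : ℕ) : ℝ) / S ≤ x) (hx' : x ≤ (((740881858 : ℕ) : ℝ) + (40050571 : ℕ)) / S) :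
    TriB PP.cur (VE (h0 * 0) 3 κ (h0 * x) (eng.v x) (h0 * (1 / 20)) (tnt (h0 * x) (1 / 5)) (tbl tK x) (tbl tL x) (tbl (smT h0⁻¹ tC) x)) 3 0 3 0 4 1 (-1) :=
  triB_j0

theorem BB04_pm_313 {κ x : ℝ} (hκ : κ * h0 = ken x) (hx : ((740881858 : ℕ) : ℝ) / S ≤ x) (hx' : x ≤ (((740881858 : ℕ) : ℝ) + (40050571 : ℕ)) / S) :
    TriB PP.cur (VE (h0 * 0) 3 κ (h0 * x) (eng.v x) (h0 * (1 / 20)) (tnt (h0 * x) (1 / 5)) (tbl tK x) (tbl tL x) (tbl (smT h0⁻¹ tC) x)) 3 1 3 0 4 1 (-1) :=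
  triB_j0

theorem BB04_mm_001 {κ x : ℝ} (hκ : κ * h0 = ken x) (hx : ((740881858 : ℕ) : ℝ) / S ≤ x) (hx' : x ≤ (((740881858 : ℕ) : ℝ) + (40050571 : ℕ)) / S) :
    TriB PP.cur (VE (h0 * 0) 3 κ (h0 * x) (eng.v x) (h0 * (1 / 20)) (tnt (h0 * x) (1 / 5)) (tbl tK x) (tbl tL x) (tbl (smT h0⁻¹ tC) x)) 0 0 1 0 4 (-1) (-1) :=
  (sideB hx hx').bothB (thrB hx hx') (en_pos (hx1 hx).le) (Or.inr rfl) (Or.inr rfl) fun y y' F =>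
    bothB_cert (s1 := false) (s2 := false) rfl hκ (en_pos (hx1 hx).le) (esg_rng (hx1 hx).le (hx2 hx').le).1 (mo_v x) covB00 covB41 hx hx'
        Pool.Agent.Strip051.G.I69_7273.Tab.C.BB04.c_mm_001 noCut_EB noExt_EB F trivial trivial

theorem BB04_mm_011 {κ x : ℝ} (hκ : κ * h0 = ken x) (hx : ((740881858 : ℕ) : ℝ) / S ≤ x) (hx' : x ≤ (((740881858 : ℕ) : ℝ) + (40050571 : ℕ)) / S) :
    TriB PP.cur (VE (h0 * 0) 3 κ (h0 * x) (eng.v x) (h0 * (1 / 20)) (tnt (h0 * x) (1 / 5)) (tbl tK x) (tbl tL x) (tbl (smT h0⁻¹ tC) x)) 0 1 1 0 4 (-1) (-1) :=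
  (sideB hx hx').bothB (thrB hx hx') (en_pos (hx1 hx).le) (Or.inr rfl) (Or.inr rfl) fun y y' F =>
    bothB_cert (s1 := false) (s2 := false) rfl hκ (en_pos (hx1 hx).le) (esg_rng (hx1 hx).le (hx2 hx').le).1 (mo_v x) covB00 covB41 hx hx'
        Pool.Agent.Strip051.G.I69_7273.Tab.C.BB04.c_mm_011 noCut_EB noExt_EB F trivial trivial

theorem BB04_mm_012 {κ x : ℝ} (hκ : κ * h0 = ken x) (hx : ((740881858 : ℕ) : ℝ) / S ≤ x) (hx' : x ≤ (((740881858 : ℕ) : ℝ) + (40050571 : ℕ)) / S) :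
    TriB PP.cur (VE (h0 * 0) 3 κ (h0 * x) (eng.v x) (h0 * (1 / 20)) (tnt (h0 * x) (1 / 5)) (tbl tK x) (tbl tL x) (tbl (smT h0⁻¹ tC) x)) 0 1 2 0 4 (-1) (-1) :=
  (sideB hx hx').bothB (thrB hx hx') (en_pos (hx1 hx).le) (Or.inr rfl) (Or.inr rfl) fun y y' F =>
    bothB_cert (s1 := false) (s2 := false) rfl hκ (en_pos (hx1 hx).le) (esg_rng (hx1 hx).le (hx2 hx').le).1 (mo_v x) covB00 covB42 hx hx'
        Pool.Agent.Strip051.G.I69_7273.Tab.C.BB04.c_mm_012 noCut_EB noExt_EB F trivial trivial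

theorem BB04_mm_022 {κ x : ℝ} (hκ : κ * h0 = ken x) (hx : ((740881858 : ℕ) : ℝ) / S ≤ x) (hx' : x ≤ (((740881858 : ℕ) : ℝ) + (40050571 : ℕ)) / S) :
    TriB PP.cur (VE (h0 * 0) 3 κ (h0 * x) (eng.v x) (h0 * (1 / 20)) (tnt (h0 * x) (1 / 5)) (tbl tK x) (tbl tL x) (tbl (smT h0⁻¹ tC) x)) 0 2 2 0 4 (-1) (-1) :=
  (sideB hx hx').bothB (thrB hx hx') (en_pos (hx1 hx).le) (Or.inr rfl) (Or.inr rfl) fun y y' F =>
    bothB_cert (s1 := false) (s2 := false) rfl hκ (en_pos (hx1 hx).le) (esg_rng (hx1 hx).le (hx2 hx').le).1 (mo_v x) covB00 covB42 hx hx'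
        Pool.Agent.Strip051.G.I69_7273.Tab.C.BB04.c_mm_022 noCut_EB noExt_EB F trivial trivial

theorem BB04_mm_023 {κ x : ℝ} (hκ : κ * h0 = ken x) (hx : ((740881858 : ℕ) : ℝ) / S ≤ x) (hx' : x ≤ (((740881858 : ℕ) : ℝ) + (40050571 : ℕ)) / S) :
    TriB PP.cur (VE (h0 * 0) 3 κ (h0 * x) (eng.v x) (h0 * (1 / 20)) (tnt (h0 * x) (1 / 5)) (tbl tK x) (tbl tL x) (tbl (smT h0⁻¹ tC) x)) 0 2 3 0 4 (-1) (-1) :=
  (sideB hx hx').bothB (thrB hx hx') (en_pos (hx1 hx).le) (Or.inr rfl) (Or.inr rfl) fun y y' F =>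
    bothB_cert (s1 := false) (s2 := false) rfl hκ (en_pos (hx1 hx).le) (esg_rng (hx1 hx).le (hx2 hx').le).1 (mo_v x) covB00 covB43 hx hx'
        Pool.Agent.Strip051.G.I69_7273.Tab.C.BB04.c_mm_023 noCut_EB noExt_EB F trivial trivial

theorem BB04_mm_033 {κ x : ℝ} (hκ : κ * h0 = ken x) (hx : ((740881858 : ℕ) : ℝ) / S ≤ x) (hx' : x ≤ (((740881858 : ℕ) : ℝ) + (40050571 : ℕ)) / S) :
    TriB PP.cur (VE (h0 * 0) 3 κ (h0 * x) (eng.v x) (h0 * (1 / 20)) (tnt (h0 * x) (1 / 5)) (tbl tK x) (tbl tL x) (tbl (smT h0⁻¹ tC) x)) 0 3 3 0 4 (-1) (-1) :=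
  (sideB hx hx').bothB (thrB hx hx') (en_pos (hx1 hx).le) (Or.inr rfl) (Or.inr rfl) fun y y' F =>
    bothB_cert (s1 := false) (s2 := false) rfl hκ (en_pos (hx1 hx).le) (esg_rng (hx1 hx).le (hx2 hx').le).1 (mo_v x) covB00 covB43 hx hx'
        Pool.Agent.Strip051.G.I69_7273.Tab.C.BB04.c_mm_033 noCut_EB noExt_EB F trivial trivial

theorem BB04_mm_101 {κ x : ℝ} (hκ : κ * h0 = ken x) (hx : ((740881858 : ℕ) : ℝ) / S ≤ x) (hx' : x ≤ (((740881858 : ℕ) : ℝ) + (40050571 : ℕ)) / S) :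
    TriB PP.cur (VE (h0 * 0) 3 κ (h0 * x) (eng.v x) (h0 * (1 / 20)) (tnt (h0 * x) (1 / 5)) (tbl tK x) (tbl tL x) (tbl (smT h0⁻¹ tC) x)) 1 0 1 0 4 (-1) (-1) :=
  (sideB hx hx').bothB (thrB hx hx') (en_pos (hx1 hx).le) (Or.inr rfl) (Or.inr rfl) fun y y' F =>
    bothB_cert (s1 := false) (s2 := false) rfl hκ (en_pos (hx1 hx).le) (esg_rng (hx1 hx).le (hx2 hx').le).1 (mo_v x) covB01 covB41 hx hx'
        Pool.Agent.Strip051.G.I69_7273.Tab.C.BB04.c_mm_101 (cutEB_cons (Pool.Agent.Strip051.G.I69_7273.Tab.altB_B101R_04 hκ hx hx') cutEB_nil) noExt_EB F trivial trivial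

theorem BB04_mm_102 {κ x : ℝ} (hκ : κ * h0 = ken x) (hx : ((740881858 : ℕ) : ℝ) / S ≤ x) (hx' : x ≤ (((740881858 : ℕ) : ℝ) + (40050571 : ℕ)) / S) :
    TriB PP.cur (VE (h0 * 0) 3 κ (h0 * x) (eng.v x) (h0 * (1 / 20)) (tnt (h0 * x) (1 / 5)) (tbl tK x) (tbl tL x) (tbl (smT h0⁻¹ tC) x)) 1 0 2 0 4 (-1) (-1) :=
  (sideB hx hx').bothB (thrB hx hx') (en_pos (hx1 hx).le) (Or.inr rfl) (Or.inr rfl) fun y y' F =>
    bothB_cert (s1 := false) (s2 := false) rfl hκ (en_pos (hx1 hx).le) (esg_rng (hx1 hx).le (hx2 hx').le).1 (mo_v x) covB01 covB42 hx hx'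
        Pool.Agent.Strip051.G.I69_7273.Tab.C.BB04.c_mm_102 noCut_EB noExt_EB F trivial trivial

theorem BB04_mm_112 {κ x : ℝ} (hκ : κ * h0 = ken x) (hx : ((740881858 : ℕ) : ℝ) / S ≤ x) (hx' : x ≤ (((740881858 : ℕ) : ℝ) + (40050571 : ℕ)) / S) :
    TriB PP.cur (VE (h0 * 0) 3 κ (h0 * x) (eng.v x) (h0 * (1 / 20)) (tnt (h0 * x) (1 / 5)) (tbl tK x) (tbl tL x) (tbl (smT h0⁻¹ tC) x)) 1 1 2 0 4 (-1) (-1) :=
  (sideB hx hx').bothB (thrB hx hx') (en_pos (hx1 hx).le) (Or.inr rfl) (Or.inr rfl) fun y y' F =>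
    bothB_cert (s1 := false) (s2 := false) rfl hκ (en_pos (hx1 hx).le) (esg_rng (hx1 hx).le (hx2 hx').le).1 (mo_v x) covB01 covB42 hx hx'
        Pool.Agent.Strip051.G.I69_7273.Tab.C.BB04.c_mm_112 noCut_EB noExt_EB F trivial trivial

theorem BB04_mm_113 {κ x : ℝ} (hκ : κ * h0 = ken x) (hx : ((740881858 : ℕ) : ℝ) / S ≤ x) (hx' : x ≤ (((740881858 : ℕ) : ℝ) + (40050571 : ℕ)) / S) :
    TriB PP.cur (VE (h0 * 0) 3 κ (h0 * x) (eng.v x) (h0 * (1 / 20)) (tnt (h0 * x) (1 / 5)) (tbl tK x) (tbl tL x) (tbl (smT h0⁻¹ tC) x)) 1 1 3 0 4 (-1) (-1) :=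
  (sideB hx hx').bothB (thrB hx hx') (en_pos (hx1 hx).le) (Or.inr rfl) (Or.inr rfl) fun y y' F =>
    bothB_cert (s1 := false) (s2 := false) rfl hκ (en_pos (hx1 hx).le) (esg_rng (hx1 hx).le (hx2 hx').le).1 (mo_v x) covB01 covB43 hx hx'
        Pool.Agent.Strip051.G.I69_7273.Tab.C.BB04.c_mm_113 noCut_EB noExt_EB F trivial trivial

theorem BB04_mm_123 {κ x : ℝ} (hκ : κ * h0 = ken x) (hx : ((740881858 : ℕ) : ℝ) / S ≤ x) (hx' : x ≤ (((740881858 : ℕ) : ℝ) + (40050571 : ℕ)) / S) :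
    TriB PP.cur (VE (h0 * 0) 3 κ (h0 * x) (eng.v x) (h0 * (1 / 20)) (tnt (h0 * x) (1 / 5)) (tbl tK x) (tbl tL x) (tbl (smT h0⁻¹ tC) x)) 1 2 3 0 4 (-1) (-1) :=
  (sideB hx hx').bothB (thrB hx hx') (en_pos (hx1 hx).le) (Or.inr rfl) (Or.inr rfl) fun y y' F =>
    bothB_cert (s1 := false) (s2 := false) rfl hκ (en_pos (hx1 hx).le) (esg_rng (hx1 hx).le (hx2 hx').le).1 (mo_v x) covB01 covB43 hx hx'
        Pool.Agent.Strip051.G.I69_7273.Tab.C.BB04.c_mm_123 noCut_EB noExt_EB F trivial trivial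

theorem BB04_mm_133 {κ x : ℝ} (hκ : κ * h0 = ken x) (hx : ((740881858 : ℕ) : ℝ) / S ≤ x) (hx' : x ≤ (((740881858 : ℕ) : ℝ) + (40050571 : ℕ)) / S) :
    TriB PP.cur (VE (h0 * 0) 3 κ (h0 * x) (eng.v x) (h0 * (1 / 20)) (tnt (h0 * x) (1 / 5)) (tbl tK x) (tbl tL x) (tbl (smT h0⁻¹ tC) x)) 1 3 3 0 4 (-1) (-1) :=
  (sideB hx hx').bothB (thrB hx hx') (en_pos (hx1 hx).le) (Or.inr rfl) (Or.inr rfl) fun y y' F =>
    bothB_cert (s1 := false) (s2 := false) rfl hκ (en_pos (hx1 hx).le) (esg_rng (hx1 hx).le (hx2 hx').le).1 (mo_v x) covB01 covB43 hx hx'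
        Pool.Agent.Strip051.G.I69_7273.Tab.C.BB04.c_mm_133 noCut_EB noExt_EB F trivial trivial

theorem BB04_mm_202 {κ x : ℝ} (hκ : κ * h0 = ken x) (hx : ((740881858 : ℕ) : ℝ) / S ≤ x) (hx' : x ≤ (((740881858 : ℕ) : ℝ) + (40050571 : ℕ)) / S) :
    TriB PP.cur (VE (h0 * 0) 3 κ (h0 * x) (eng.v x) (h0 * (1 / 20)) (tnt (h0 * x) (1 / 5)) (tbl tK x) (tbl tL x) (tbl (smT h0⁻¹ tC) x)) 2 0 2 0 4 (-1) (-1) :=
  (sideB hx hx').bothB (thrB hx hx') (en_pos (hx1 hx).le) (Or.inr rfl) (Or.inr rfl) fun y y' F =>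
    bothB_cert (s1 := false) (s2 := false) rfl hκ (en_pos (hx1 hx).le) (esg_rng (hx1 hx).le (hx2 hx').le).1 (mo_v x) covB02 covB42 hx hx'
        Pool.Agent.Strip051.G.I69_7273.Tab.C.BB04.c_mm_202 noCut_EB noExt_EB F trivial trivial

theorem BB04_mm_203 {κ x : ℝ} (hκ : κ * h0 = ken x) (hx : ((740881858 : ℕ) : ℝ) / S ≤ x) (hx' : x ≤ (((740881858 : ℕ) : ℝ) + (40050571 : ℕ)) / S) :
    TriB PP.cur (VE (h0 * 0) 3 κ (h0 * x) (eng.v x) (h0 * (1 / 20)) (tnt (h0 * x) (1 / 5)) (tbl tK x) (tbl tL x) (tbl (smT h0⁻¹ tC) x)) 2 0 3 0 4 (-1) (-1) :=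
  (sideB hx hx').bothB (thrB hx hx') (en_pos (hx1 hx).le) (Or.inr rfl) (Or.inr rfl) fun y y' F =>
    bothB_cert (s1 := false) (s2 := false) rfl hκ (en_pos (hx1 hx).le) (esg_rng (hx1 hx).le (hx2 hx').le).1 (mo_v x) covB02 covB43 hx hx'
        Pool.Agent.Strip051.G.I69_7273.Tab.C.BB04.c_mm_203 noCut_EB noExt_EB F trivial trivial

theorem BB04_mm_213 {κ x : ℝ} (hκ : κ * h0 = ken x) (hx : ((740881858 : ℕ) : ℝ) / S ≤ x) (hx' : x ≤ (((740881858 : ℕ) : ℝ) + (40050571 : ℕ)) / S) :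
    TriB PP.cur (VE (h0 * 0) 3 κ (h0 * x) (eng.v x) (h0 * (1 / 20)) (tnt (h0 * x) (1 / 5)) (tbl tK x) (tbl tL x) (tbl (smT h0⁻¹ tC) x)) 2 1 3 0 4 (-1) (-1) :=
  (sideB hx hx').bothB (thrB hx hx') (en_pos (hx1 hx).le) (Or.inr rfl) (Or.inr rfl) fun y y' F =>
    bothB_cert (s1 := false) (s2 := false) rfl hκ (en_pos (hx1 hx).le) (esg_rng (hx1 hx).le (hx2 hx').le).1 (mo_v x) covB02 covB43 hx hx'
        Pool.Agent.Strip051.G.I69_7273.Tab.C.BB04.c_mm_213 noCut_EB noExt_EB F trivial trivial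

theorem BB04_mm_303 {κ x : ℝ} (hκ : κ * h0 = ken x) (hx : ((740881858 : ℕ) : ℝ) / S ≤ x) (hx' : x ≤ (((740881858 : ℕ) : ℝ) + (40050571 : ℕ)) / S) :
    TriB PP.cur (VE (h0 * 0) 3 κ (h0 * x) (eng.v x) (h0 * (1 / 20)) (tnt (h0 * x) (1 / 5)) (tbl tK x) (tbl tL x) (tbl (smT h0⁻¹ tC) x)) 3 0 3 0 4 (-1) (-1) :=
  triB_j0

theorem BB04_mm_313 {κ x : ℝ} (hκ : κ * h0 = ken x) (hx : ((740881858 : ℕ) : ℝ) / S ≤ x) (hx' : x ≤ (((740881858 : ℕ) : ℝ) + (40050571 : ℕ)) / S) :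
    TriB PP.cur (VE (h0 * 0) 3 κ (h0 * x) (eng.v x) (h0 * (1 / 20)) (tnt (h0 * x) (1 / 5)) (tbl tK x) (tbl tL x) (tbl (smT h0⁻¹ tC) x)) 3 1 3 0 4 (-1) (-1) :=
  triB_j0

theorem BB04 {κ x : ℝ} (hκ : κ * h0 = ken x) (hx : ((740881858 : ℕ) : ℝ) / S ≤ x) (hx' : x ≤ (((740881858 : ℕ) : ℝ) + (40050571 : ℕ)) / S) : AllTB PP.cur (VE (h0 * 0) 3 κ (h0 * x) (eng.v x) (h0 * (1 / 20)) (tnt (h0 * x) (1 / 5)) (tbl tK x) (tbl tL x) (tbl (smT h0⁻¹ tC) x)) 0 4 where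
  pp := all17 (Q := fun a b c => TriB PP.cur (VE (h0 * 0) 3 κ (h0 * x) (eng.v x) (h0 * (1 / 20)) (tnt (h0 * x) (1 / 5)) (tbl tK x) (tbl tL x) (tbl (smT h0⁻¹ tC) x)) a b c 0 4 1 1)
    (BB04_pp_001 hκ hx hx') (BB04_pp_011 hκ hx hx') (BB04_pp_012 hκ hx hx') (BB04_pp_022 hκ hx hx') (BB04_pp_023 hκ hx hx') (BB04_pp_033 hκ hx hx') (BB04_pp_101 hκ hx hx') (BB04_pp_102 hκ hx hx') (BB04_pp_112 hκ hx hx') (BB04_pp_113 hκ hx hx') (BB04_pp_123 hκ hx hx') (BB04_pp_133 hκ hx hx') (BB04_pp_202 hκ hx hx') (BB04_pp_203 hκ hx hx') (BB04_pp_213 hκ hx hx') (BB04_pp_303 hκ hx hx') (BB04_pp_313 hκ hx hx')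
  pm := all17 (Q := fun a b c => TriB PP.cur (VE (h0 * 0) 3 κ (h0 * x) (eng.v x) (h0 * (1 / 20)) (tnt (h0 * x) (1 / 5)) (tbl tK x) (tbl tL x) (tbl (smT h0⁻¹ tC) x)) a b c 0 4 1 (-1))
    (BB04_pm_001 hκ hx hx') (BB04_pm_011 hκ hx hx') (BB04_pm_012 hκ hx hx') (BB04_pm_022 hκ hx hx') (BB04_pm_023 hκ hx hx') (BB04_pm_033 hκ hx hx') (BB04_pm_101 hκ hx hx') (BB04_pm_102 hκ hx hx') (BB04_pm_112 hκ hx hx') (BB04_pm_113 hκ hx hx') (BB04_pm_123 hκ hx hx') (BB04_pm_133 hκ hx hx') (BB04_pm_202 hκ hx hx') (BB04_pm_203 hκ hx hx') (BB04_pm_213 hκ hx hx') (BB04_pm_303 hκ hx hx') (BB04_pm_313 hκ hx hx')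
  mm := all17 (Q := fun a b c => TriB PP.cur (VE (h0 * 0) 3 κ (h0 * x) (eng.v x) (h0 * (1 / 20)) (tnt (h0 * x) (1 / 5)) (tbl tK x) (tbl tL x) (tbl (smT h0⁻¹ tC) x)) a b c 0 4 (-1) (-1))
    (BB04_mm_001 hκ hx hx') (BB04_mm_011 hκ hx hx') (BB04_mm_012 hκ hx hx') (BB04_mm_022 hκ hx hx') (BB04_mm_023 hκ hx hx') (BB04_mm_033 hκ hx hx') (BB04_mm_101 hκ hx hx') (BB04_mm_102 hκ hx hx') (BB04_mm_112 hκ hx hx') (BB04_mm_113 hκ hx hx') (BB04_mm_123 hκ hx hx') (BB04_mm_133 hκ hx hx') (BB04_mm_202 hκ hx hx') (BB04_mm_203 hκ hx hx') (BB04_mm_213 hκ hx hx') (BB04_mm_303 hκ hx hx') (BB04_mm_313 hκ hx hx')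

theorem BB05_pp_001 {κ x : ℝ} (hκ : κ * h0 = ken x) (hx : ((740881858 : ℕ) : ℝ) / S ≤ x) (hx' : x ≤ (((740881858 : ℕ) : ℝ) + (40050571 : ℕ)) / S) :
    TriB PP.cur (VE (h0 * 0) 3 κ (h0 * x) (eng.v x) (h0 * (1 / 20)) (tnt (h0 * x) (1 / 5)) (tbl tK x) (tbl tL x) (tbl (smT h0⁻¹ tC) x)) 0 0 1 0 5 1 1 :=
  (sideB hx hx').bothB (thrB hx hx') (en_pos (hx1 hx).le) (Or.inl rfl) (Or.inl rfl) fun y y' F =>
    bothB_cert (s1 := true) (s2 := true) rfl hκ (en_pos (hx1 hx).le) (esg_rng (hx1 hx).le (hx2 hx').le).1 (mo_v x) covB00 covB51 hx hx'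
        Pool.Agent.Strip051.G.I69_7273.Tab.C.BB05.c_pp_001 (cutEB_cons (Pool.Agent.Strip051.G.I69_7273.Tab.SE.se_B05pp_001_s hκ hx hx' cutEB_nil) cutEB_nil) noExt_EB F trivial trivial

theorem BB05_pp_011 {κ x : ℝ} (hκ : κ * h0 = ken x) (hx : ((740881858 : ℕ) : ℝ) / S ≤ x) (hx' : x ≤ (((740881858 : ℕ) : ℝ) + (40050571 : ℕ)) / S) :
    TriB PP.cur (VE (h0 * 0) 3 κ (h0 * x) (eng.v x) (h0 * (1 / 20)) (tnt (h0 * x) (1 / 5)) (tbl tK x) (tbl tL x) (tbl (smT h0⁻¹ tC) x)) 0 1 1 0 5 1 1 :=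
  (sideB hx hx').bothB (thrB hx hx') (en_pos (hx1 hx).le) (Or.inl rfl) (Or.inl rfl) fun y y' F =>
    bothB_cert (s1 := true) (s2 := true) rfl hκ (en_pos (hx1 hx).le) (esg_rng (hx1 hx).le (hx2 hx').le).1 (mo_v x) covB00 covB51 hx hx'
        Pool.Agent.Strip051.G.I69_7273.Tab.C.BB05.c_pp_011 (cutEB_cons (Pool.Agent.Strip051.G.I69_7273.Tab.SE.se_B05pp_011_s hκ hx hx' (cutEB_cons (Pool.Agent.Strip051.G.I69_7273.Tab.altB_B011L_05 hκ hx hx') cutEB_nil)) (cutEB_cons (Pool.Agent.Strip051.G.I69_7273.Tab.altB_B011L_05 hκ hx hx') cutEB_nil)) noExt_EB F trivial trivial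

theorem BB05_pp_012 {κ x : ℝ} (hκ : κ * h0 = ken x) (hx : ((740881858 : ℕ) : ℝ) / S ≤ x) (hx' : x ≤ (((740881858 : ℕ) : ℝ) + (40050571 : ℕ)) / S) :
    TriB PP.cur (VE (h0 * 0) 3 κ (h0 * x) (eng.v x) (h0 * (1 / 20)) (tnt (h0 * x) (1 / 5)) (tbl tK x) (tbl tL x) (tbl (smT h0⁻¹ tC) x)) 0 1 2 0 5 1 1 :=
  (sideB hx hx').bothB (thrB hx hx') (en_pos (hx1 hx).le) (Or.inl rfl) (Or.inl rfl) fun y y' F =>
    bothB_cert (s1 := true) (s2 := true) rfl hκ (en_pos (hx1 hx).le) (esg_rng (hx1 hx).le (hx2 hx').le).1 (mo_v x) covB00 covB52 hx hx'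
        Pool.Agent.Strip051.G.I69_7273.Tab.C.BB05.c_pp_012 (cutEB_cons (Pool.Agent.Strip051.G.I69_7273.Tab.SE.se_B05pp_012_s hκ hx hx' (cutEB_cons (Pool.Agent.Strip051.G.I69_7273.Tab.altB_B012L_05 hκ hx hx') cutEB_nil)) (cutEB_cons (Pool.Agent.Strip051.G.I69_7273.Tab.altB_B012L_05 hκ hx hx') cutEB_nil)) noExt_EB F trivial trivial

theorem BB05_pp_022 {κ x : ℝ} (hκ : κ * h0 = ken x) (hx : ((740881858 : ℕ) : ℝ) / S ≤ x) (hx' : x ≤ (((740881858 : ℕ) : ℝ) + (40050571 : ℕ)) / S) :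
    TriB PP.cur (VE (h0 * 0) 3 κ (h0 * x) (eng.v x) (h0 * (1 / 20)) (tnt (h0 * x) (1 / 5)) (tbl tK x) (tbl tL x) (tbl (smT h0⁻¹ tC) x)) 0 2 2 0 5 1 1 :=
  (sideB hx hx').bothB (thrB hx hx') (en_pos (hx1 hx).le) (Or.inl rfl) (Or.inl rfl) fun y y' F =>
    bothB_cert (s1 := true) (s2 := true) rfl hκ (en_pos (hx1 hx).le) (esg_rng (hx1 hx).le (hx2 hx').le).1 (mo_v x) covB00 covB52 hx hx'
        Pool.Agent.Strip051.G.I69_7273.Tab.C.BB05.c_pp_022 (cutEB_cons (Pool.Agent.Strip051.G.I69_7273.Tab.SE.se_B05pp_022_s hκ hx hx' (cutEB_cons (Pool.Agent.Strip051.G.I69_7273.Tab.altB_B022L_05 hκ hx hx') cutEB_nil)) (cutEB_cons (Pool.Agent.Strip051.G.I69_7273.Tab.altB_B022L_05 hκ hx hx') cutEB_nil)) noExt_EB F trivial trivial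

theorem BB05_pp_023 {κ x : ℝ} (hκ : κ * h0 = ken x) (hx : ((740881858 : ℕ) : ℝ) / S ≤ x) (hx' : x ≤ (((740881858 : ℕ) : ℝ) + (40050571 : ℕ)) / S) :
    TriB PP.cur (VE (h0 * 0) 3 κ (h0 * x) (eng.v x) (h0 * (1 / 20)) (tnt (h0 * x) (1 / 5)) (tbl tK x) (tbl tL x) (tbl (smT h0⁻¹ tC) x)) 0 2 3 0 5 1 1 :=
  (sideB hx hx').bothB (thrB hx hx') (en_pos (hx1 hx).le) (Or.inl rfl) (Or.inl rfl) fun y y' F =>
    bothB_cert (s1 := true) (s2 := true) rfl hκ (en_pos (hx1 hx).le) (esg_rng (hx1 hx).le (hx2 hx').le).1 (mo_v x) covB00 covB53 hx hx'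
        Pool.Agent.Strip051.G.I69_7273.Tab.C.BB05.c_pp_023 (cutEB_cons (Pool.Agent.Strip051.G.I69_7273.Tab.SE.se_B05pp_023_s hκ hx hx' cutEB_nil) cutEB_nil) noExt_EB F trivial trivial

theorem BB05_pp_033 {κ x : ℝ} (hκ : κ * h0 = ken x) (hx : ((740881858 : ℕ) : ℝ) / S ≤ x) (hx' : x ≤ (((740881858 : ℕ) : ℝ) + (40050571 : ℕ)) / S) :
    TriB PP.cur (VE (h0 * 0) 3 κ (h0 * x) (eng.v x) (h0 * (1 / 20)) (tnt (h0 * x) (1 / 5)) (tbl tK x) (tbl tL x) (tbl (smT h0⁻¹ tC) x)) 0 3 3 0 5 1 1 :=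
  (sideB hx hx').bothB (thrB hx hx') (en_pos (hx1 hx).le) (Or.inl rfl) (Or.inl rfl) fun y y' F =>
    bothB_cert (s1 := true) (s2 := true) rfl hκ (en_pos (hx1 hx).le) (esg_rng (hx1 hx).le (hx2 hx').le).1 (mo_v x) covB00 covB53 hx hx'
        Pool.Agent.Strip051.G.I69_7273.Tab.C.BB05.c_pp_033 (cutEB_cons (Pool.Agent.Strip051.G.I69_7273.Tab.SE.se_B05pp_033_s hκ hx hx' cutEB_nil) cutEB_nil) noExt_EB F trivial trivial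

theorem BB05_pp_101 {κ x : ℝ} (hκ : κ * h0 = ken x) (hx : ((740881858 : ℕ) : ℝ) / S ≤ x) (hx' : x ≤ (((740881858 : ℕ) : ℝ) + (40050571 : ℕ)) / S) :
    TriB PP.cur (VE (h0 * 0) 3 κ (h0 * x) (eng.v x) (h0 * (1 / 20)) (tnt (h0 * x) (1 / 5)) (tbl tK x) (tbl tL x) (tbl (smT h0⁻¹ tC) x)) 1 0 1 0 5 1 1 :=
  (sideB hx hx').bothB (thrB hx hx') (en_pos (hx1 hx).le) (Or.inl rfl) (Or.inl rfl) fun y y' F =>
    bothB_cert (s1 := true) (s2 := true) rfl hκ (en_pos (hx1 hx).le) (esg_rng (hx1 hx).le (hx2 hx').le).1 (mo_v x) covB01 covB51 hx hx'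
        Pool.Agent.Strip051.G.I69_7273.Tab.C.BB05.c_pp_101 (cutEB_cons (Pool.Agent.Strip051.G.I69_7273.Tab.SE.se_B05pp_101_s hκ hx hx' cutEB_nil) cutEB_nil) noExt_EB F trivial trivial

theorem BB05_pp_102 {κ x : ℝ} (hκ : κ * h0 = ken x) (hx : ((740881858 : ℕ) : ℝ) / S ≤ x) (hx' : x ≤ (((740881858 : ℕ) : ℝ) + (40050571 : ℕ)) / S) :
    TriB PP.cur (VE (h0 * 0) 3 κ (h0 * x) (eng.v x) (h0 * (1 / 20)) (tnt (h0 * x) (1 / 5)) (tbl tK x) (tbl tL x) (tbl (smT h0⁻¹ tC) x)) 1 0 2 0 5 1 1 :=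
  (sideB hx hx').bothB (thrB hx hx') (en_pos (hx1 hx).le) (Or.inl rfl) (Or.inl rfl) fun y y' F =>
    bothB_cert (s1 := true) (s2 := true) rfl hκ (en_pos (hx1 hx).le) (esg_rng (hx1 hx).le (hx2 hx').le).1 (mo_v x) covB01 covB52 hx hx'
        Pool.Agent.Strip051.G.I69_7273.Tab.C.BB05.c_pp_102 (cutEB_cons (Pool.Agent.Strip051.G.I69_7273.Tab.SE.se_B05pp_102_s hκ hx hx' cutEB_nil) cutEB_nil) noExt_EB F trivial trivial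

theorem BB05_pp_112 {κ x : ℝ} (hκ : κ * h0 = ken x) (hx : ((740881858 : ℕ) : ℝ) / S ≤ x) (hx' : x ≤ (((740881858 : ℕ) : ℝ) + (40050571 : ℕ)) / S) :
    TriB PP.cur (VE (h0 * 0) 3 κ (h0 * x) (eng.v x) (h0 * (1 / 20)) (tnt (h0 * x) (1 / 5)) (tbl tK x) (tbl tL x) (tbl (smT h0⁻¹ tC) x)) 1 1 2 0 5 1 1 :=
  (sideB hx hx').bothB (thrB hx hx') (en_pos (hx1 hx).le) (Or.inl rfl) (Or.inl rfl) fun y y' F =>
    bothB_cert (s1 := true) (s2 := true) rfl hκ (en_pos (hx1 hx).le) (esg_rng (hx1 hx).le (hx2 hx').le).1 (mo_v x) covB01 covB52 hx hx'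
        Pool.Agent.Strip051.G.I69_7273.Tab.C.BB05.c_pp_112 (cutEB_cons (Pool.Agent.Strip051.G.I69_7273.Tab.SE.se_B05pp_112_s hκ hx hx' cutEB_nil) cutEB_nil) noExt_EB F trivial trivial

theorem BB05_pp_113 {κ x : ℝ} (hκ : κ * h0 = ken x) (hx : ((740881858 : ℕ) : ℝ) / S ≤ x) (hx' : x ≤ (((740881858 : ℕ) : ℝ) + (40050571 : ℕ)) / S) :
    TriB PP.cur (VE (h0 * 0) 3 κ (h0 * x) (eng.v x) (h0 * (1 / 20)) (tnt (h0 * x) (1 / 5)) (tbl tK x) (tbl tL x) (tbl (smT h0⁻¹ tC) x)) 1 1 3 0 5 1 1 :=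
  (sideB hx hx').bothB (thrB hx hx') (en_pos (hx1 hx).le) (Or.inl rfl) (Or.inl rfl) fun y y' F =>
    bothB_cert (s1 := true) (s2 := true) rfl hκ (en_pos (hx1 hx).le) (esg_rng (hx1 hx).le (hx2 hx').le).1 (mo_v x) covB01 covB53 hx hx'
        Pool.Agent.Strip051.G.I69_7273.Tab.C.BB05.c_pp_113 (cutEB_cons (Pool.Agent.Strip051.G.I69_7273.Tab.SE.se_B05pp_113_s hκ hx hx' (cutEB_cons (Pool.Agent.Strip051.G.I69_7273.Tab.alt12B_B113_05p hκ hx hx') cutEB_nil)) (cutEB_cons (Pool.Agent.Strip051.G.I69_7273.Tab.alt12B_B113_05p hκ hx hx') cutEB_nil)) noExt_EB F trivial trivial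

theorem BB05_pp_123 {κ x : ℝ} (hκ : κ * h0 = ken x) (hx : ((740881858 : ℕ) : ℝ) / S ≤ x) (hx' : x ≤ (((740881858 : ℕ) : ℝ) + (40050571 : ℕ)) / S) :
    TriB PP.cur (VE (h0 * 0) 3 κ (h0 * x) (eng.v x) (h0 * (1 / 20)) (tnt (h0 * x) (1 / 5)) (tbl tK x) (tbl tL x) (tbl (smT h0⁻¹ tC) x)) 1 2 3 0 5 1 1 :=
  (sideB hx hx').bothB (thrB hx hx') (en_pos (hx1 hx).le) (Or.inl rfl) (Or.inl rfl) fun y y' F =>
    bothB_cert (s1 := true) (s2 := true) rfl hκ (en_pos (hx1 hx).le) (esg_rng (hx1 hx).le (hx2 hx').le).1 (mo_v x) covB01 covB53 hx hx'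
        Pool.Agent.Strip051.G.I69_7273.Tab.C.BB05.c_pp_123 (cutEB_cons (Pool.Agent.Strip051.G.I69_7273.Tab.SE.se_B05pp_123_s hκ hx hx' (cutEB_cons (Pool.Agent.Strip051.G.I69_7273.Tab.alt12cB_B123_05p hκ hx hx') cutEB_nil)) (cutEB_cons (Pool.Agent.Strip051.G.I69_7273.Tab.alt12cB_B123_05p hκ hx hx') cutEB_nil)) noExt_EB F trivial trivial

theorem BB05_pp_133 {κ x : ℝ} (hκ : κ * h0 = ken x) (hx : ((740881858 : ℕ) : ℝ) / S ≤ x) (hx' : x ≤ (((740881858 : ℕ) : ℝ) + (40050571 : ℕ)) / S) :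
    TriB PP.cur (VE (h0 * 0) 3 κ (h0 * x) (eng.v x) (h0 * (1 / 20)) (tnt (h0 * x) (1 / 5)) (tbl tK x) (tbl tL x) (tbl (smT h0⁻¹ tC) x)) 1 3 3 0 5 1 1 :=
  (sideB hx hx').bothB (thrB hx hx') (en_pos (hx1 hx).le) (Or.inl rfl) (Or.inl rfl) fun y y' F =>
    bothB_cert (s1 := true) (s2 := true) rfl hκ (en_pos (hx1 hx).le) (esg_rng (hx1 hx).le (hx2 hx').le).1 (mo_v x) covB01 covB53 hx hx'
        Pool.Agent.Strip051.G.I69_7273.Tab.C.BB05.c_pp_133 (cutEB_cons (Pool.Agent.Strip051.G.I69_7273.Tab.SE.se_B05pp_133_s hκ hx hx' cutEB_nil) cutEB_nil) noExt_EB F trivial trivial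

theorem BB05_pp_202 {κ x : ℝ} (hκ : κ * h0 = ken x) (hx : ((740881858 : ℕ) : ℝ) / S ≤ x) (hx' : x ≤ (((740881858 : ℕ) : ℝ) + (40050571 : ℕ)) / S) :
    TriB PP.cur (VE (h0 * 0) 3 κ (h0 * x) (eng.v x) (h0 * (1 / 20)) (tnt (h0 * x) (1 / 5)) (tbl tK x) (tbl tL x) (tbl (smT h0⁻¹ tC) x)) 2 0 2 0 5 1 1 :=
  (sideB hx hx').bothB (thrB hx hx') (en_pos (hx1 hx).le) (Or.inl rfl) (Or.inl rfl) fun y y' F =>
    bothB_cert (s1 := true) (s2 := true) rfl hκ (en_pos (hx1 hx).le) (esg_rng (hx1 hx).le (hx2 hx').le).1 (mo_v x) covB02 covB52 hx hx'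
        Pool.Agent.Strip051.G.I69_7273.Tab.C.BB05.c_pp_202 (cutEB_cons (Pool.Agent.Strip051.G.I69_7273.Tab.SE.se_B05pp_202_s hκ hx hx' cutEB_nil) cutEB_nil) noExt_EB F trivial trivial

theorem BB05_pp_203 {κ x : ℝ} (hκ : κ * h0 = ken x) (hx : ((740881858 : ℕ) : ℝ) / S ≤ x) (hx' : x ≤ (((740881858 : ℕ) : ℝ) + (40050571 : ℕ)) / S) :
    TriB PP.cur (VE (h0 * 0) 3 κ (h0 * x) (eng.v x) (h0 * (1 / 20)) (tnt (h0 * x) (1 / 5)) (tbl tK x) (tbl tL x) (tbl (smT h0⁻¹ tC) x)) 2 0 3 0 5 1 1 :=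
  (sideB hx hx').bothB (thrB hx hx') (en_pos (hx1 hx).le) (Or.inl rfl) (Or.inl rfl) fun y y' F =>
    bothB_cert (s1 := true) (s2 := true) rfl hκ (en_pos (hx1 hx).le) (esg_rng (hx1 hx).le (hx2 hx').le).1 (mo_v x) covB02 covB53 hx hx'
        Pool.Agent.Strip051.G.I69_7273.Tab.C.BB05.c_pp_203 (cutEB_cons (Pool.Agent.Strip051.G.I69_7273.Tab.SE.se_B05pp_203_s hκ hx hx' cutEB_nil) cutEB_nil) noExt_EB F trivial trivial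

theorem BB05_pp_213 {κ x : ℝ} (hκ : κ * h0 = ken x) (hx : ((740881858 : ℕ) : ℝ) / S ≤ x) (hx' : x ≤ (((740881858 : ℕ) : ℝ) + (40050571 : ℕ)) / S) :
    TriB PP.cur (VE (h0 * 0) 3 κ (h0 * x) (eng.v x) (h0 * (1 / 20)) (tnt (h0 * x) (1 / 5)) (tbl tK x) (tbl tL x) (tbl (smT h0⁻¹ tC) x)) 2 1 3 0 5 1 1 :=
  (sideB hx hx').bothB (thrB hx hx') (en_pos (hx1 hx).le) (Or.inl rfl) (Or.inl rfl) fun y y' F =>
    bothB_cert (s1 := true) (s2 := true) rfl hκ (en_pos (hx1 hx).le) (esg_rng (hx1 hx).le (hx2 hx').le).1 (mo_v x) covB02 covB53 hx hx'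
        Pool.Agent.Strip051.G.I69_7273.Tab.C.BB05.c_pp_213 (cutEB_cons (Pool.Agent.Strip051.G.I69_7273.Tab.SE.se_B05pp_213_s hκ hx hx' (cutEB_cons (Pool.Agent.Strip051.G.I69_7273.Tab.alt12B_B213_05p hκ hx hx') cutEB_nil)) (cutEB_cons (Pool.Agent.Strip051.G.I69_7273.Tab.alt12B_B213_05p hκ hx hx') cutEB_nil)) noExt_EB F trivial trivial

theorem BB05_pp_303 {κ x : ℝ} (hκ : κ * h0 = ken x) (hx : ((740881858 : ℕ) : ℝ) / S ≤ x) (hx' : x ≤ (((740881858 : ℕ) : ℝ) + (40050571 : ℕ)) / S) :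
    TriB PP.cur (VE (h0 * 0) 3 κ (h0 * x) (eng.v x) (h0 * (1 / 20)) (tnt (h0 * x) (1 / 5)) (tbl tK x) (tbl tL x) (tbl (smT h0⁻¹ tC) x)) 3 0 3 0 5 1 1 :=
  triB_j0

theorem BB05_pp_313 {κ x : ℝ} (hκ : κ * h0 = ken x) (hx : ((740881858 : ℕ) : ℝ) / S ≤ x) (hx' : x ≤ (((740881858 : ℕ) : ℝ) + (40050571 : ℕ)) / S) :
    TriB PP.cur (VE (h0 * 0) 3 κ (h0 * x) (eng.v x) (h0 * (1 / 20)) (tnt (h0 * x) (1 / 5)) (tbl tK x) (tbl tL x) (tbl (smT h0⁻¹ tC) x)) 3 1 3 0 5 1 1 :=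
  triB_j0

theorem BB05_pm_001 {κ x : ℝ} (hκ : κ * h0 = ken x) (hx : ((740881858 : ℕ) : ℝ) / S ≤ x) (hx' : x ≤ (((740881858 : ℕ) : ℝ) + (40050571 : ℕ)) / S) :
    TriB PP.cur (VE (h0 * 0) 3 κ (h0 * x) (eng.v x) (h0 * (1 / 20)) (tnt (h0 * x) (1 / 5)) (tbl tK x) (tbl tL x) (tbl (smT h0⁻¹ tC) x)) 0 0 1 0 5 1 (-1) :=
  (sideB hx hx').bothB (thrB hx hx') (en_pos (hx1 hx).le) (Or.inl rfl) (Or.inr rfl) fun y y' F =>
    bothB_cert (s1 := true) (s2 := false) rfl hκ (en_pos (hx1 hx).le) (esg_rng (hx1 hx).le (hx2 hx').le).1 (mo_v x) covB00 covB51 hx hx'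
        Pool.Agent.Strip051.G.I69_7273.Tab.C.BB05.c_pm_001 (cutEB_cons (Pool.Agent.Strip051.G.I69_7273.Tab.SE.se_B05pm_001_s hκ hx hx' cutEB_nil) cutEB_nil) noExt_EB F trivial trivial

theorem BB05_pm_011 {κ x : ℝ} (hκ : κ * h0 = ken x) (hx : ((740881858 : ℕ) : ℝ) / S ≤ x) (hx' : x ≤ (((740881858 : ℕ) : ℝ) + (40050571 : ℕ)) / S) :
    TriB PP.cur (VE (h0 * 0) 3 κ (h0 * x) (eng.v x) (h0 * (1 / 20)) (tnt (h0 * x) (1 / 5)) (tbl tK x) (tbl tL x) (tbl (smT h0⁻¹ tC) x)) 0 1 1 0 5 1 (-1) :=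
  (sideB hx hx').bothB (thrB hx hx') (en_pos (hx1 hx).le) (Or.inl rfl) (Or.inr rfl) fun y y' F =>
    bothB_cert (s1 := true) (s2 := false) rfl hκ (en_pos (hx1 hx).le) (esg_rng (hx1 hx).le (hx2 hx').le).1 (mo_v x) covB00 covB51 hx hx'
        Pool.Agent.Strip051.G.I69_7273.Tab.C.BB05.c_pm_011 (cutEB_cons (Pool.Agent.Strip051.G.I69_7273.Tab.SE.se_B05pm_011_s hκ hx hx' cutEB_nil) cutEB_nil) noExt_EB F trivial trivial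

theorem BB05_pm_012 {κ x : ℝ} (hκ : κ * h0 = ken x) (hx : ((740881858 : ℕ) : ℝ) / S ≤ x) (hx' : x ≤ (((740881858 : ℕ) : ℝ) + (40050571 : ℕ)) / S) :
    TriB PP.cur (VE (h0 * 0) 3 κ (h0 * x) (eng.v x) (h0 * (1 / 20)) (tnt (h0 * x) (1 / 5)) (tbl tK x) (tbl tL x) (tbl (smT h0⁻¹ tC) x)) 0 1 2 0 5 1 (-1) :=
  (sideB hx hx').bothB (thrB hx hx') (en_pos (hx1 hx).le) (Or.inl rfl) (Or.inr rfl) fun y y' F =>
    bothB_cert (s1 := true) (s2 := false) rfl hκ (en_pos (hx1 hx).le) (esg_rng (hx1 hx).le (hx2 hx').le).1 (mo_v x) covB00 covB52 hx hx'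
        Pool.Agent.Strip051.G.I69_7273.Tab.C.BB05.c_pm_012 (cutEB_cons (Pool.Agent.Strip051.G.I69_7273.Tab.SE.se_B05pm_012_s hκ hx hx' cutEB_nil) cutEB_nil) noExt_EB F trivial trivial

theorem BB05_pm_022 {κ x : ℝ} (hκ : κ * h0 = ken x) (hx : ((740881858 : ℕ) : ℝ) / S ≤ x) (hx' : x ≤ (((740881858 : ℕ) : ℝ) + (40050571 : ℕ)) / S) :
    TriB PP.cur (VE (h0 * 0) 3 κ (h0 * x) (eng.v x) (h0 * (1 / 20)) (tnt (h0 * x) (1 / 5)) (tbl tK x) (tbl tL x) (tbl (smT h0⁻¹ tC) x)) 0 2 2 0 5 1 (-1) :=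
  (sideB hx hx').bothB (thrB hx hx') (en_pos (hx1 hx).le) (Or.inl rfl) (Or.inr rfl) fun y y' F =>
    bothB_cert (s1 := true) (s2 := false) rfl hκ (en_pos (hx1 hx).le) (esg_rng (hx1 hx).le (hx2 hx').le).1 (mo_v x) covB00 covB52 hx hx'
        Pool.Agent.Strip051.G.I69_7273.Tab.C.BB05.c_pm_022 (cutEB_cons (Pool.Agent.Strip051.G.I69_7273.Tab.SE.se_B05pm_022_s hκ hx hx' cutEB_nil) cutEB_nil) noExt_EB F trivial trivial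

theorem BB05_pm_023 {κ x : ℝ} (hκ : κ * h0 = ken x) (hx : ((740881858 : ℕ) : ℝ) / S ≤ x) (hx' : x ≤ (((740881858 : ℕ) : ℝ) + (40050571 : ℕ)) / S) :
    TriB PP.cur (VE (h0 * 0) 3 κ (h0 * x) (eng.v x) (h0 * (1 / 20)) (tnt (h0 * x) (1 / 5)) (tbl tK x) (tbl tL x) (tbl (smT h0⁻¹ tC) x)) 0 2 3 0 5 1 (-1) :=
  (sideB hx hx').bothB (thrB hx hx') (en_pos (hx1 hx).le) (Or.inl rfl) (Or.inr rfl) fun y y' F =>
    bothB_cert (s1 := true) (s2 := false) rfl hκ (en_pos (hx1 hx).le) (esg_rng (hx1 hx).le (hx2 hx').le).1 (mo_v x) covB00 covB53 hx hx'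
        Pool.Agent.Strip051.G.I69_7273.Tab.C.BB05.c_pm_023 (cutEB_cons (Pool.Agent.Strip051.G.I69_7273.Tab.SE.se_B05pm_023_s hκ hx hx' cutEB_nil) cutEB_nil) noExt_EB F trivial trivial

theorem BB05_pm_033 {κ x : ℝ} (hκ : κ * h0 = ken x) (hx : ((740881858 : ℕ) : ℝ) / S ≤ x) (hx' : x ≤ (((740881858 : ℕ) : ℝ) + (40050571 : ℕ)) / S) :
    TriB PP.cur (VE (h0 * 0) 3 κ (h0 * x) (eng.v x) (h0 * (1 / 20)) (tnt (h0 * x) (1 / 5)) (tbl tK x) (tbl tL x) (tbl (smT h0⁻¹ tC) x)) 0 3 3 0 5 1 (-1) :=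
  (sideB hx hx').bothB (thrB hx hx') (en_pos (hx1 hx).le) (Or.inl rfl) (Or.inr rfl) fun y y' F =>
    bothB_cert (s1 := true) (s2 := false) rfl hκ (en_pos (hx1 hx).le) (esg_rng (hx1 hx).le (hx2 hx').le).1 (mo_v x) covB00 covB53 hx hx'
        Pool.Agent.Strip051.G.I69_7273.Tab.C.BB05.c_pm_033 (cutEB_cons (Pool.Agent.Strip051.G.I69_7273.Tab.SE.se_B05pm_033_s hκ hx hx' cutEB_nil) cutEB_nil) noExt_EB F trivial trivial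

theorem BB05_pm_101 {κ x : ℝ} (hκ : κ * h0 = ken x) (hx : ((740881858 : ℕ) : ℝ) / S ≤ x) (hx' : x ≤ (((740881858 : ℕ) : ℝ) + (40050571 : ℕ)) / S) :
    TriB PP.cur (VE (h0 * 0) 3 κ (h0 * x) (eng.v x) (h0 * (1 / 20)) (tnt (h0 * x) (1 / 5)) (tbl tK x) (tbl tL x) (tbl (smT h0⁻¹ tC) x)) 1 0 1 0 5 1 (-1) :=
  (sideB hx hx').bothB (thrB hx hx') (en_pos (hx1 hx).le) (Or.inl rfl) (Or.inr rfl) fun y y' F =>
    bothB_cert (s1 := true) (s2 := false) rfl hκ (en_pos (hx1 hx).le) (esg_rng (hx1 hx).le (hx2 hx').le).1 (mo_v x) covB01 covB51 hx hx'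
        Pool.Agent.Strip051.G.I69_7273.Tab.C.BB05.c_pm_101 (cutEB_cons (Pool.Agent.Strip051.G.I69_7273.Tab.SE.se_B05pm_101_s hκ hx hx' cutEB_nil) cutEB_nil) noExt_EB F trivial trivial

theorem BB05_pm_102 {κ x : ℝ} (hκ : κ * h0 = ken x) (hx : ((740881858 : ℕ) : ℝ) / S ≤ x) (hx' : x ≤ (((740881858 : ℕ) : ℝ) + (40050571 : ℕ)) / S) :
    TriB PP.cur (VE (h0 * 0) 3 κ (h0 * x) (eng.v x) (h0 * (1 / 20)) (tnt (h0 * x) (1 / 5)) (tbl tK x) (tbl tL x) (tbl (smT h0⁻¹ tC) x)) 1 0 2 0 5 1 (-1) :=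
  (sideB hx hx').bothB (thrB hx hx') (en_pos (hx1 hx).le) (Or.inl rfl) (Or.inr rfl) fun y y' F =>
    bothB_cert (s1 := true) (s2 := false) rfl hκ (en_pos (hx1 hx).le) (esg_rng (hx1 hx).le (hx2 hx').le).1 (mo_v x) covB01 covB52 hx hx'
        Pool.Agent.Strip051.G.I69_7273.Tab.C.BB05.c_pm_102 (cutEB_cons (Pool.Agent.Strip051.G.I69_7273.Tab.SE.se_B05pm_102_s hκ hx hx' cutEB_nil) cutEB_nil) noExt_EB F trivial trivial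

theorem BB05_pm_112 {κ x : ℝ} (hκ : κ * h0 = ken x) (hx : ((740881858 : ℕ) : ℝ) / S ≤ x) (hx' : x ≤ (((740881858 : ℕ) : ℝ) + (40050571 : ℕ)) / S) :
    TriB PP.cur (VE (h0 * 0) 3 κ (h0 * x) (eng.v x) (h0 * (1 / 20)) (tnt (h0 * x) (1 / 5)) (tbl tK x) (tbl tL x) (tbl (smT h0⁻¹ tC) x)) 1 1 2 0 5 1 (-1) :=
  (sideB hx hx').bothB (thrB hx hx') (en_pos (hx1 hx).le) (Or.inl rfl) (Or.inr rfl) fun y y' F =>
    bothB_cert (s1 := true) (s2 := false) rfl hκ (en_pos (hx1 hx).le) (esg_rng (hx1 hx).le (hx2 hx').le).1 (mo_v x) covB01 covB52 hx hx'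
        Pool.Agent.Strip051.G.I69_7273.Tab.C.BB05.c_pm_112 (cutEB_cons (Pool.Agent.Strip051.G.I69_7273.Tab.SE.se_B05pm_112_s hκ hx hx' cutEB_nil) cutEB_nil) noExt_EB F trivial trivial

theorem BB05_pm_113 {κ x : ℝ} (hκ : κ * h0 = ken x) (hx : ((740881858 : ℕ) : ℝ) / S ≤ x) (hx' : x ≤ (((740881858 : ℕ) : ℝ) + (40050571 : ℕ)) / S) :
    TriB PP.cur (VE (h0 * 0) 3 κ (h0 * x) (eng.v x) (h0 * (1 / 20)) (tnt (h0 * x) (1 / 5)) (tbl tK x) (tbl tL x) (tbl (smT h0⁻¹ tC) x)) 1 1 3 0 5 1 (-1) :=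
  (sideB hx hx').bothB (thrB hx hx') (en_pos (hx1 hx).le) (Or.inl rfl) (Or.inr rfl) fun y y' F =>
    bothB_cert (s1 := true) (s2 := false) rfl hκ (en_pos (hx1 hx).le) (esg_rng (hx1 hx).le (hx2 hx').le).1 (mo_v x) covB01 covB53 hx hx'
        Pool.Agent.Strip051.G.I69_7273.Tab.C.BB05.c_pm_113 (cutEB_cons (Pool.Agent.Strip051.G.I69_7273.Tab.SE.se_B05pm_113_s hκ hx hx' (cutEB_cons (Pool.Agent.Strip051.G.I69_7273.Tab.alt12B_B113_05m hκ hx hx') cutEB_nil)) (cutEB_cons (Pool.Agent.Strip051.G.I69_7273.Tab.alt12B_B113_05m hκ hx hx') cutEB_nil)) noExt_EB F trivial trivial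

theorem BB05_pm_123 {κ x : ℝ} (hκ : κ * h0 = ken x) (hx : ((740881858 : ℕ) : ℝ) / S ≤ x) (hx' : x ≤ (((740881858 : ℕ) : ℝ) + (40050571 : ℕ)) / S) :
    TriB PP.cur (VE (h0 * 0) 3 κ (h0 * x) (eng.v x) (h0 * (1 / 20)) (tnt (h0 * x) (1 / 5)) (tbl tK x) (tbl tL x) (tbl (smT h0⁻¹ tC) x)) 1 2 3 0 5 1 (-1) :=
  (sideB hx hx').bothB (thrB hx hx') (en_pos (hx1 hx).le) (Or.inl rfl) (Or.inr rfl) fun y y' F =>
    bothB_cert (s1 := true) (s2 := false) rfl hκ (en_pos (hx1 hx).le) (esg_rng (hx1 hx).le (hx2 hx').le).1 (mo_v x) covB01 covB53 hx hx'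
        Pool.Agent.Strip051.G.I69_7273.Tab.C.BB05.c_pm_123 (cutEB_cons (Pool.Agent.Strip051.G.I69_7273.Tab.SE.se_B05pm_123_s hκ hx hx' (cutEB_cons (Pool.Agent.Strip051.G.I69_7273.Tab.alt12B_B123_05m hκ hx hx') cutEB_nil)) (cutEB_cons (Pool.Agent.Strip051.G.I69_7273.Tab.alt12B_B123_05m hκ hx hx') cutEB_nil)) noExt_EB F trivial trivial

theorem BB05_pm_133 {κ x : ℝ} (hκ : κ * h0 = ken x) (hx : ((740881858 : ℕ) : ℝ) / S ≤ x) (hx' : x ≤ (((740881858 : ℕ) : ℝ) + (40050571 : ℕ)) / S) :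
    TriB PP.cur (VE (h0 * 0) 3 κ (h0 * x) (eng.v x) (h0 * (1 / 20)) (tnt (h0 * x) (1 / 5)) (tbl tK x) (tbl tL x) (tbl (smT h0⁻¹ tC) x)) 1 3 3 0 5 1 (-1) :=
  (sideB hx hx').bothB (thrB hx hx') (en_pos (hx1 hx).le) (Or.inl rfl) (Or.inr rfl) fun y y' F =>
    bothB_cert (s1 := true) (s2 := false) rfl hκ (en_pos (hx1 hx).le) (esg_rng (hx1 hx).le (hx2 hx').le).1 (mo_v x) covB01 covB53 hx hx'
        Pool.Agent.Strip051.G.I69_7273.Tab.C.BB05.c_pm_133 (cutEB_cons (Pool.Agent.Strip051.G.I69_7273.Tab.SE.se_B05pm_133_s hκ hx hx' cutEB_nil) cutEB_nil) noExt_EB F trivial trivial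

theorem BB05_pm_202 {κ x : ℝ} (hκ : κ * h0 = ken x) (hx : ((740881858 : ℕ) : ℝ) / S ≤ x) (hx' : x ≤ (((740881858 : ℕ) : ℝ) + (40050571 : ℕ)) / S) :
    TriB PP.cur (VE (h0 * 0) 3 κ (h0 * x) (eng.v x) (h0 * (1 / 20)) (tnt (h0 * x) (1 / 5)) (tbl tK x) (tbl tL x) (tbl (smT h0⁻¹ tC) x)) 2 0 2 0 5 1 (-1) :=
  (sideB hx hx').bothB (thrB hx hx') (en_pos (hx1 hx).le) (Or.inl rfl) (Or.inr rfl) fun y y' F =>
    bothB_cert (s1 := true) (s2 := false) rfl hκ (en_pos (hx1 hx).le) (esg_rng (hx1 hx).le (hx2 hx').le).1 (mo_v x) covB02 covB52 hx hx'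
        Pool.Agent.Strip051.G.I69_7273.Tab.C.BB05.c_pm_202 (cutEB_cons (Pool.Agent.Strip051.G.I69_7273.Tab.SE.se_B05pm_202_s hκ hx hx' cutEB_nil) cutEB_nil) noExt_EB F trivial trivial

theorem BB05_pm_203 {κ x : ℝ} (hκ : κ * h0 = ken x) (hx : ((740881858 : ℕ) : ℝ) / S ≤ x) (hx' : x ≤ (((740881858 : ℕ) : ℝ) + (40050571 : ℕ)) / S) :
    TriB PP.cur (VE (h0 * 0) 3 κ (h0 * x) (eng.v x) (h0 * (1 / 20)) (tnt (h0 * x) (1 / 5)) (tbl tK x) (tbl tL x) (tbl (smT h0⁻¹ tC) x)) 2 0 3 0 5 1 (-1) :=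
  (sideB hx hx').bothB (thrB hx hx') (en_pos (hx1 hx).le) (Or.inl rfl) (Or.inr rfl) fun y y' F =>
    bothB_cert (s1 := true) (s2 := false) rfl hκ (en_pos (hx1 hx).le) (esg_rng (hx1 hx).le (hx2 hx').le).1 (mo_v x) covB02 covB53 hx hx'
        Pool.Agent.Strip051.G.I69_7273.Tab.C.BB05.c_pm_203 (cutEB_cons (Pool.Agent.Strip051.G.I69_7273.Tab.SE.se_B05pm_203_s hκ hx hx' cutEB_nil) cutEB_nil) noExt_EB F trivial trivial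

theorem BB05_pm_213 {κ x : ℝ} (hκ : κ * h0 = ken x) (hx : ((740881858 : ℕ) : ℝ) / S ≤ x) (hx' : x ≤ (((740881858 : ℕ) : ℝ) + (40050571 : ℕ)) / S) :
    TriB PP.cur (VE (h0 * 0) 3 κ (h0 * x) (eng.v x) (h0 * (1 / 20)) (tnt (h0 * x) (1 / 5)) (tbl tK x) (tbl tL x) (tbl (smT h0⁻¹ tC) x)) 2 1 3 0 5 1 (-1) :=
  (sideB hx hx').bothB (thrB hx hx') (en_pos (hx1 hx).le) (Or.inl rfl) (Or.inr rfl) fun y y' F =>
    bothB_cert (s1 := true) (s2 := false) rfl hκ (en_pos (hx1 hx).le) (esg_rng (hx1 hx).le (hx2 hx').le).1 (mo_v x) covB02 covB53 hx hx'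
        Pool.Agent.Strip051.G.I69_7273.Tab.C.BB05.c_pm_213 (cutEB_cons (Pool.Agent.Strip051.G.I69_7273.Tab.SE.se_B05pm_213_s hκ hx hx' (cutEB_cons (Pool.Agent.Strip051.G.I69_7273.Tab.alt12cB_B213_05m hκ hx hx') cutEB_nil)) (cutEB_cons (Pool.Agent.Strip051.G.I69_7273.Tab.alt12cB_B213_05m hκ hx hx') cutEB_nil)) noExt_EB F trivial trivial

theorem BB05_pm_303 {κ x : ℝ} (hκ : κ * h0 = ken x) (hx : ((740881858 : ℕ) : ℝ) / S ≤ x) (hx' : x ≤ (((740881858 : ℕ) : ℝ) + (40050571 : ℕ)) / S) :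
    TriB PP.cur (VE (h0 * 0) 3 κ (h0 * x) (eng.v x) (h0 * (1 / 20)) (tnt (h0 * x) (1 / 5)) (tbl tK x) (tbl tL x) (tbl (smT h0⁻¹ tC) x)) 3 0 3 0 5 1 (-1) :=
  triB_j0

theorem BB05_pm_313 {κ x : ℝ} (hκ : κ * h0 = ken x) (hx : ((740881858 : ℕ) : ℝ) / S ≤ x) (hx' : x ≤ (((740881858 : ℕ) : ℝ) + (40050571 : ℕ)) / S) :
    TriB PP.cur (VE (h0 * 0) 3 κ (h0 * x) (eng.v x) (h0 * (1 / 20)) (tnt (h0 * x) (1 / 5)) (tbl tK x) (tbl tL x) (tbl (smT h0⁻¹ tC) x)) 3 1 3 0 5 1 (-1) :=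
  triB_j0

theorem BB05_mm_001 {κ x : ℝ} (hκ : κ * h0 = ken x) (hx : ((740881858 : ℕ) : ℝ) / S ≤ x) (hx' : x ≤ (((740881858 : ℕ) : ℝ) + (40050571 : ℕ)) / S) :
    TriB PP.cur (VE (h0 * 0) 3 κ (h0 * x) (eng.v x) (h0 * (1 / 20)) (tnt (h0 * x) (1 / 5)) (tbl tK x) (tbl tL x) (tbl (smT h0⁻¹ tC) x)) 0 0 1 0 5 (-1) (-1) :=
  (sideB hx hx').bothB (thrB hx hx') (en_pos (hx1 hx).le) (Or.inr rfl) (Or.inr rfl) fun y y' F =>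
    bothB_cert (s1 := false) (s2 := false) rfl hκ (en_pos (hx1 hx).le) (esg_rng (hx1 hx).le (hx2 hx').le).1 (mo_v x) covB00 covB51 hx hx'
        Pool.Agent.Strip051.G.I69_7273.Tab.C.BB05.c_mm_001 (cutEB_cons (Pool.Agent.Strip051.G.I69_7273.Tab.SE.se_B05mm_001_s hκ hx hx' cutEB_nil) cutEB_nil) noExt_EB F trivial trivial

theorem BB05_mm_011 {κ x : ℝ} (hκ : κ * h0 = ken x) (hx : ((740881858 : ℕ) : ℝ) / S ≤ x) (hx' : x ≤ (((740881858 : ℕ) : ℝ) + (40050571 : ℕ)) / S) :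
    TriB PP.cur (VE (h0 * 0) 3 κ (h0 * x) (eng.v x) (h0 * (1 / 20)) (tnt (h0 * x) (1 / 5)) (tbl tK x) (tbl tL x) (tbl (smT h0⁻¹ tC) x)) 0 1 1 0 5 (-1) (-1) :=
  (sideB hx hx').bothB (thrB hx hx') (en_pos (hx1 hx).le) (Or.inr rfl) (Or.inr rfl) fun y y' F =>
    bothB_cert (s1 := false) (s2 := false) rfl hκ (en_pos (hx1 hx).le) (esg_rng (hx1 hx).le (hx2 hx').le).1 (mo_v x) covB00 covB51 hx hx'
        Pool.Agent.Strip051.G.I69_7273.Tab.C.BB05.c_mm_011 (cutEB_cons (Pool.Agent.Strip051.G.I69_7273.Tab.SE.se_B05mm_011_s hκ hx hx' cutEB_nil) cutEB_nil) noExt_EB F trivial trivial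

theorem BB05_mm_012 {κ x : ℝ} (hκ : κ * h0 = ken x) (hx : ((740881858 : ℕ) : ℝ) / S ≤ x) (hx' : x ≤ (((740881858 : ℕ) : ℝ) + (40050571 : ℕ)) / S) :
    TriB PP.cur (VE (h0 * 0) 3 κ (h0 * x) (eng.v x) (h0 * (1 / 20)) (tnt (h0 * x) (1 / 5)) (tbl tK x) (tbl tL x) (tbl (smT h0⁻¹ tC) x)) 0 1 2 0 5 (-1) (-1) :=
  (sideB hx hx').bothB (thrB hx hx') (en_pos (hx1 hx).le) (Or.inr rfl) (Or.inr rfl) fun y y' F =>
    bothB_cert (s1 := false) (s2 := false) rfl hκ (en_pos (hx1 hx).le) (esg_rng (hx1 hx).le (hx2 hx').le).1 (mo_v x) covB00 covB52 hx hx'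
        Pool.Agent.Strip051.G.I69_7273.Tab.C.BB05.c_mm_012 (cutEB_cons (Pool.Agent.Strip051.G.I69_7273.Tab.SE.se_B05mm_012_s hκ hx hx' cutEB_nil) cutEB_nil) noExt_EB F trivial trivial

theorem BB05_mm_022 {κ x : ℝ} (hκ : κ * h0 = ken x) (hx : ((740881858 : ℕ) : ℝ) / S ≤ x) (hx' : x ≤ (((740881858 : ℕ) : ℝ) + (40050571 : ℕ)) / S) :
    TriB PP.cur (VE (h0 * 0) 3 κ (h0 * x) (eng.v x) (h0 * (1 / 20)) (tnt (h0 * x) (1 / 5)) (tbl tK x) (tbl tL x) (tbl (smT h0⁻¹ tC) x)) 0 2 2 0 5 (-1) (-1) :=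
  (sideB hx hx').bothB (thrB hx hx') (en_pos (hx1 hx).le) (Or.inr rfl) (Or.inr rfl) fun y y' F =>
    bothB_cert (s1 := false) (s2 := false) rfl hκ (en_pos (hx1 hx).le) (esg_rng (hx1 hx).le (hx2 hx').le).1 (mo_v x) covB00 covB52 hx hx'
        Pool.Agent.Strip051.G.I69_7273.Tab.C.BB05.c_mm_022 (cutEB_cons (Pool.Agent.Strip051.G.I69_7273.Tab.SE.se_B05mm_022_s hκ hx hx' cutEB_nil) cutEB_nil) noExt_EB F trivial trivial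

theorem BB05_mm_023 {κ x : ℝ} (hκ : κ * h0 = ken x) (hx : ((740881858 : ℕ) : ℝ) / S ≤ x) (hx' : x ≤ (((740881858 : ℕ) : ℝ) + (40050571 : ℕ)) / S) :
    TriB PP.cur (VE (h0 * 0) 3 κ (h0 * x) (eng.v x) (h0 * (1 / 20)) (tnt (h0 * x) (1 / 5)) (tbl tK x) (tbl tL x) (tbl (smT h0⁻¹ tC) x)) 0 2 3 0 5 (-1) (-1) :=
  (sideB hx hx').bothB (thrB hx hx') (en_pos (hx1 hx).le) (Or.inr rfl) (Or.inr rfl) fun y y' F =>
    bothB_cert (s1 := false) (s2 := false) rfl hκ (en_pos (hx1 hx).le) (esg_rng (hx1 hx).le (hx2 hx').le).1 (mo_v x) covB00 covB53 hx hx'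
        Pool.Agent.Strip051.G.I69_7273.Tab.C.BB05.c_mm_023 (cutEB_cons (Pool.Agent.Strip051.G.I69_7273.Tab.SE.se_B05mm_023_s hκ hx hx' cutEB_nil) cutEB_nil) noExt_EB F trivial trivial

theorem BB05_mm_033 {κ x : ℝ} (hκ : κ * h0 = ken x) (hx : ((740881858 : ℕ) : ℝ) / S ≤ x) (hx' : x ≤ (((740881858 : ℕ) : ℝ) + (40050571 : ℕ)) / S) :
    TriB PP.cur (VE (h0 * 0) 3 κ (h0 * x) (eng.v x) (h0 * (1 / 20)) (tnt (h0 * x) (1 / 5)) (tbl tK x) (tbl tL x) (tbl (smT h0⁻¹ tC) x)) 0 3 3 0 5 (-1) (-1) :=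
  (sideB hx hx').bothB (thrB hx hx') (en_pos (hx1 hx).le) (Or.inr rfl) (Or.inr rfl) fun y y' F =>
    bothB_cert (s1 := false) (s2 := false) rfl hκ (en_pos (hx1 hx).le) (esg_rng (hx1 hx).le (hx2 hx').le).1 (mo_v x) covB00 covB53 hx hx'
        Pool.Agent.Strip051.G.I69_7273.Tab.C.BB05.c_mm_033 (cutEB_cons (Pool.Agent.Strip051.G.I69_7273.Tab.SE.se_B05mm_033_s hκ hx hx' cutEB_nil) cutEB_nil) noExt_EB F trivial trivial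

theorem BB05_mm_101 {κ x : ℝ} (hκ : κ * h0 = ken x) (hx : ((740881858 : ℕ) : ℝ) / S ≤ x) (hx' : x ≤ (((740881858 : ℕ) : ℝ) + (40050571 : ℕ)) / S) :
    TriB PP.cur (VE (h0 * 0) 3 κ (h0 * x) (eng.v x) (h0 * (1 / 20)) (tnt (h0 * x) (1 / 5)) (tbl tK x) (tbl tL x) (tbl (smT h0⁻¹ tC) x)) 1 0 1 0 5 (-1) (-1) :=
  (sideB hx hx').bothB (thrB hx hx') (en_pos (hx1 hx).le) (Or.inr rfl) (Or.inr rfl) fun y y' F =>
    bothB_cert (s1 := false) (s2 := false) rfl hκ (en_pos (hx1 hx).le) (esg_rng (hx1 hx).le (hx2 hx').le).1 (mo_v x) covB01 covB51 hx hx'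
        Pool.Agent.Strip051.G.I69_7273.Tab.C.BB05.c_mm_101 (cutEB_cons (Pool.Agent.Strip051.G.I69_7273.Tab.SE.se_B05mm_101_s hκ hx hx' (cutEB_cons (Pool.Agent.Strip051.G.I69_7273.Tab.altB_B101R_05 hκ hx hx') cutEB_nil)) (cutEB_cons (Pool.Agent.Strip051.G.I69_7273.Tab.altB_B101R_05 hκ hx hx') cutEB_nil)) noExt_EB F trivial trivial

theorem BB05_mm_102 {κ x : ℝ} (hκ : κ * h0 = ken x) (hx : ((740881858 : ℕ) : ℝ) / S ≤ x) (hx' : x ≤ (((740881858 : ℕ) : ℝ) + (40050571 : ℕ)) / S) :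
    TriB PP.cur (VE (h0 * 0) 3 κ (h0 * x) (eng.v x) (h0 * (1 / 20)) (tnt (h0 * x) (1 / 5)) (tbl tK x) (tbl tL x) (tbl (smT h0⁻¹ tC) x)) 1 0 2 0 5 (-1) (-1) :=
  (sideB hx hx').bothB (thrB hx hx') (en_pos (hx1 hx).le) (Or.inr rfl) (Or.inr rfl) fun y y' F =>
    bothB_cert (s1 := false) (s2 := false) rfl hκ (en_pos (hx1 hx).le) (esg_rng (hx1 hx).le (hx2 hx').le).1 (mo_v x) covB01 covB52 hx hx'
        Pool.Agent.Strip051.G.I69_7273.Tab.C.BB05.c_mm_102 (cutEB_cons (Pool.Agent.Strip051.G.I69_7273.Tab.SE.se_B05mm_102_s hκ hx hx' (cutEB_cons (Pool.Agent.Strip051.G.I69_7273.Tab.altB_B102R_05 hκ hx hx') cutEB_nil)) (cutEB_cons (Pool.Agent.Strip051.G.I69_7273.Tab.altB_B102R_05 hκ hx hx') cutEB_nil)) noExt_EB F trivial trivial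

theorem BB05_mm_112 {κ x : ℝ} (hκ : κ * h0 = ken x) (hx : ((740881858 : ℕ) : ℝ) / S ≤ x) (hx' : x ≤ (((740881858 : ℕ) : ℝ) + (40050571 : ℕ)) / S) :
    TriB PP.cur (VE (h0 * 0) 3 κ (h0 * x) (eng.v x) (h0 * (1 / 20)) (tnt (h0 * x) (1 / 5)) (tbl tK x) (tbl tL x) (tbl (smT h0⁻¹ tC) x)) 1 1 2 0 5 (-1) (-1) :=
  (sideB hx hx').bothB (thrB hx hx') (en_pos (hx1 hx).le) (Or.inr rfl) (Or.inr rfl) fun y y' F =>
    bothB_cert (s1 := false) (s2 := false) rfl hκ (en_pos (hx1 hx).le) (esg_rng (hx1 hx).le (hx2 hx').le).1 (mo_v x) covB01 covB52 hx hx'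
        Pool.Agent.Strip051.G.I69_7273.Tab.C.BB05.c_mm_112 (cutEB_cons (Pool.Agent.Strip051.G.I69_7273.Tab.SE.se_B05mm_112_s hκ hx hx' cutEB_nil) cutEB_nil) noExt_EB F trivial trivial

theorem BB05_mm_113 {κ x : ℝ} (hκ : κ * h0 = ken x) (hx : ((740881858 : ℕ) : ℝ) / S ≤ x) (hx' : x ≤ (((740881858 : ℕ) : ℝ) + (40050571 : ℕ)) / S) :
    TriB PP.cur (VE (h0 * 0) 3 κ (h0 * x) (eng.v x) (h0 * (1 / 20)) (tnt (h0 * x) (1 / 5)) (tbl tK x) (tbl tL x) (tbl (smT h0⁻¹ tC) x)) 1 1 3 0 5 (-1) (-1) :=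
  (sideB hx hx').bothB (thrB hx hx') (en_pos (hx1 hx).le) (Or.inr rfl) (Or.inr rfl) fun y y' F =>
    bothB_cert (s1 := false) (s2 := false) rfl hκ (en_pos (hx1 hx).le) (esg_rng (hx1 hx).le (hx2 hx').le).1 (mo_v x) covB01 covB53 hx hx'
        Pool.Agent.Strip051.G.I69_7273.Tab.C.BB05.c_mm_113 (cutEB_cons (Pool.Agent.Strip051.G.I69_7273.Tab.SE.se_B05mm_113_s hκ hx hx' cutEB_nil) cutEB_nil) noExt_EB F trivial trivial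

theorem BB05_mm_123 {κ x : ℝ} (hκ : κ * h0 = ken x) (hx : ((740881858 : ℕ) : ℝ) / S ≤ x) (hx' : x ≤ (((740881858 : ℕ) : ℝ) + (40050571 : ℕ)) / S) :
    TriB PP.cur (VE (h0 * 0) 3 κ (h0 * x) (eng.v x) (h0 * (1 / 20)) (tnt (h0 * x) (1 / 5)) (tbl tK x) (tbl tL x) (tbl (smT h0⁻¹ tC) x)) 1 2 3 0 5 (-1) (-1) :=
  (sideB hx hx').bothB (thrB hx hx') (en_pos (hx1 hx).le) (Or.inr rfl) (Or.inr rfl) fun y y' F =>
    bothB_cert (s1 := false) (s2 := false) rfl hκ (en_pos (hx1 hx).le) (esg_rng (hx1 hx).le (hx2 hx').le).1 (mo_v x) covB01 covB53 hx hx'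
        Pool.Agent.Strip051.G.I69_7273.Tab.C.BB05.c_mm_123 (cutEB_cons (Pool.Agent.Strip051.G.I69_7273.Tab.SE.se_B05mm_123_s hκ hx hx' cutEB_nil) cutEB_nil) noExt_EB F trivial trivial

theorem BB05_mm_133 {κ x : ℝ} (hκ : κ * h0 = ken x) (hx : ((740881858 : ℕ) : ℝ) / S ≤ x) (hx' : x ≤ (((740881858 : ℕ) : ℝ) + (40050571 : ℕ)) / S) :
    TriB PP.cur (VE (h0 * 0) 3 κ (h0 * x) (eng.v x) (h0 * (1 / 20)) (tnt (h0 * x) (1 / 5)) (tbl tK x) (tbl tL x) (tbl (smT h0⁻¹ tC) x)) 1 3 3 0 5 (-1) (-1) :=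
  (sideB hx hx').bothB (thrB hx hx') (en_pos (hx1 hx).le) (Or.inr rfl) (Or.inr rfl) fun y y' F =>
    bothB_cert (s1 := false) (s2 := false) rfl hκ (en_pos (hx1 hx).le) (esg_rng (hx1 hx).le (hx2 hx').le).1 (mo_v x) covB01 covB53 hx hx'
        Pool.Agent.Strip051.G.I69_7273.Tab.C.BB05.c_mm_133 (cutEB_cons (Pool.Agent.Strip051.G.I69_7273.Tab.SE.se_B05mm_133_s hκ hx hx' cutEB_nil) cutEB_nil) noExt_EB F trivial trivial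

theorem BB05_mm_202 {κ x : ℝ} (hκ : κ * h0 = ken x) (hx : ((740881858 : ℕ) : ℝ) / S ≤ x) (hx' : x ≤ (((740881858 : ℕ) : ℝ) + (40050571 : ℕ)) / S) :
    TriB PP.cur (VE (h0 * 0) 3 κ (h0 * x) (eng.v x) (h0 * (1 / 20)) (tnt (h0 * x) (1 / 5)) (tbl tK x) (tbl tL x) (tbl (smT h0⁻¹ tC) x)) 2 0 2 0 5 (-1) (-1) :=
  (sideB hx hx').bothB (thrB hx hx') (en_pos (hx1 hx).le) (Or.inr rfl) (Or.inr rfl) fun y y' F =>
    bothB_cert (s1 := false) (s2 := false) rfl hκ (en_pos (hx1 hx).le) (esg_rng (hx1 hx).le (hx2 hx').le).1 (mo_v x) covB02 covB52 hx hx'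
        Pool.Agent.Strip051.G.I69_7273.Tab.C.BB05.c_mm_202 (cutEB_cons (Pool.Agent.Strip051.G.I69_7273.Tab.SE.se_B05mm_202_s hκ hx hx' (cutEB_cons (Pool.Agent.Strip051.G.I69_7273.Tab.altB_B202R_05 hκ hx hx') cutEB_nil)) (cutEB_cons (Pool.Agent.Strip051.G.I69_7273.Tab.altB_B202R_05 hκ hx hx') cutEB_nil)) noExt_EB F trivial trivial

theorem BB05_mm_203 {κ x : ℝ} (hκ : κ * h0 = ken x) (hx : ((740881858 : ℕ) : ℝ) / S ≤ x) (hx' : x ≤ (((740881858 : ℕ) : ℝ) + (40050571 : ℕ)) / S) :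
    TriB PP.cur (VE (h0 * 0) 3 κ (h0 * x) (eng.v x) (h0 * (1 / 20)) (tnt (h0 * x) (1 / 5)) (tbl tK x) (tbl tL x) (tbl (smT h0⁻¹ tC) x)) 2 0 3 0 5 (-1) (-1) :=
  (sideB hx hx').bothB (thrB hx hx') (en_pos (hx1 hx).le) (Or.inr rfl) (Or.inr rfl) fun y y' F =>
    bothB_cert (s1 := false) (s2 := false) rfl hκ (en_pos (hx1 hx).le) (esg_rng (hx1 hx).le (hx2 hx').le).1 (mo_v x) covB02 covB53 hx hx'
        Pool.Agent.Strip051.G.I69_7273.Tab.C.BB05.c_mm_203 (cutEB_cons (Pool.Agent.Strip051.G.I69_7273.Tab.SE.se_B05mm_203_s hκ hx hx' cutEB_nil) cutEB_nil) noExt_EB F trivial trivial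

theorem BB05_mm_213 {κ x : ℝ} (hκ : κ * h0 = ken x) (hx : ((740881858 : ℕ) : ℝ) / S ≤ x) (hx' : x ≤ (((740881858 : ℕ) : ℝ) + (40050571 : ℕ)) / S) :
    TriB PP.cur (VE (h0 * 0) 3 κ (h0 * x) (eng.v x) (h0 * (1 / 20)) (tnt (h0 * x) (1 / 5)) (tbl tK x) (tbl tL x) (tbl (smT h0⁻¹ tC) x)) 2 1 3 0 5 (-1) (-1) :=
  (sideB hx hx').bothB (thrB hx hx') (en_pos (hx1 hx).le) (Or.inr rfl) (Or.inr rfl) fun y y' F =>
    bothB_cert (s1 := false) (s2 := false) rfl hκ (en_pos (hx1 hx).le) (esg_rng (hx1 hx).le (hx2 hx').le).1 (mo_v x) covB02 covB53 hx hx'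
        Pool.Agent.Strip051.G.I69_7273.Tab.C.BB05.c_mm_213 (cutEB_cons (Pool.Agent.Strip051.G.I69_7273.Tab.SE.se_B05mm_213_s hκ hx hx' cutEB_nil) cutEB_nil) noExt_EB F trivial trivial

theorem BB05_mm_303 {κ x : ℝ} (hκ : κ * h0 = ken x) (hx : ((740881858 : ℕ) : ℝ) / S ≤ x) (hx' : x ≤ (((740881858 : ℕ) : ℝ) + (40050571 : ℕ)) / S) :
    TriB PP.cur (VE (h0 * 0) 3 κ (h0 * x) (eng.v x) (h0 * (1 / 20)) (tnt (h0 * x) (1 / 5)) (tbl tK x) (tbl tL x) (tbl (smT h0⁻¹ tC) x)) 3 0 3 0 5 (-1) (-1) :=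
  triB_j0

theorem BB05_mm_313 {κ x : ℝ} (hκ : κ * h0 = ken x) (hx : ((740881858 : ℕ) : ℝ) / S ≤ x) (hx' : x ≤ (((740881858 : ℕ) : ℝ) + (40050571 : ℕ)) / S) :
    TriB PP.cur (VE (h0 * 0) 3 κ (h0 * x) (eng.v x) (h0 * (1 / 20)) (tnt (h0 * x) (1 / 5)) (tbl tK x) (tbl tL x) (tbl (smT h0⁻¹ tC) x)) 3 1 3 0 5 (-1) (-1) :=
  triB_j0

theorem BB05 {κ x : ℝ} (hκ : κ * h0 = ken x) (hx : ((740881858 : ℕ) : ℝ) / S ≤ x) (hx' : x ≤ (((740881858 : ℕ) : ℝ) + (40050571 : ℕ)) / S) : AllTB PP.cur (VE (h0 * 0) 3 κ (h0 * x) (eng.v x) (h0 * (1 / 20)) (tnt (h0 * x) (1 / 5)) (tbl tK x) (tbl tL x) (tbl (smT h0⁻¹ tC) x)) 0 5 where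
  pp := all17 (Q := fun a b c => TriB PP.cur (VE (h0 * 0) 3 κ (h0 * x) (eng.v x) (h0 * (1 / 20)) (tnt (h0 * x) (1 / 5)) (tbl tK x) (tbl tL x) (tbl (smT h0⁻¹ tC) x)) a b c 0 5 1 1)
    (BB05_pp_001 hκ hx hx') (BB05_pp_011 hκ hx hx') (BB05_pp_012 hκ hx hx') (BB05_pp_022 hκ hx hx') (BB05_pp_023 hκ hx hx') (BB05_pp_033 hκ hx hx') (BB05_pp_101 hκ hx hx') (BB05_pp_102 hκ hx hx') (BB05_pp_112 hκ hx hx') (BB05_pp_113 hκ hx hx') (BB05_pp_123 hκ hx hx') (BB05_pp_133 hκ hx hx') (BB05_pp_202 hκ hx hx') (BB05_pp_203 hκ hx hx') (BB05_pp_213 hκ hx hx') (BB05_pp_303 hκ hx hx') (BB05_pp_313 hκ hx hx')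
  pm := all17 (Q := fun a b c => TriB PP.cur (VE (h0 * 0) 3 κ (h0 * x) (eng.v x) (h0 * (1 / 20)) (tnt (h0 * x) (1 / 5)) (tbl tK x) (tbl tL x) (tbl (smT h0⁻¹ tC) x)) a b c 0 5 1 (-1))
    (BB05_pm_001 hκ hx hx') (BB05_pm_011 hκ hx hx') (BB05_pm_012 hκ hx hx') (BB05_pm_022 hκ hx hx') (BB05_pm_023 hκ hx hx') (BB05_pm_033 hκ hx hx') (BB05_pm_101 hκ hx hx') (BB05_pm_102 hκ hx hx') (BB05_pm_112 hκ hx hx') (BB05_pm_113 hκ hx hx') (BB05_pm_123 hκ hx hx') (BB05_pm_133 hκ hx hx') (BB05_pm_202 hκ hx hx') (BB05_pm_203 hκ hx hx') (BB05_pm_213 hκ hx hx') (BB05_pm_303 hκ hx hx') (BB05_pm_313 hκ hx hx')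
  mm := all17 (Q := fun a b c => TriB PP.cur (VE (h0 * 0) 3 κ (h0 * x) (eng.v x) (h0 * (1 / 20)) (tnt (h0 * x) (1 / 5)) (tbl tK x) (tbl tL x) (tbl (smT h0⁻¹ tC) x)) a b c 0 5 (-1) (-1))
    (BB05_mm_001 hκ hx hx') (BB05_mm_011 hκ hx hx') (BB05_mm_012 hκ hx hx') (BB05_mm_022 hκ hx hx') (BB05_mm_023 hκ hx hx') (BB05_mm_033 hκ hx hx') (BB05_mm_101 hκ hx hx') (BB05_mm_102 hκ hx hx') (BB05_mm_112 hκ hx hx') (BB05_mm_113 hκ hx hx') (BB05_mm_123 hκ hx hx') (BB05_mm_133 hκ hx hx') (BB05_mm_202 hκ hx hx') (BB05_mm_203 hκ hx hx') (BB05_mm_213 hκ hx hx') (BB05_mm_303 hκ hx hx') (BB05_mm_313 hκ hx hx')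

theorem BB10_pp_001 {κ x : ℝ} (hκ : κ * h0 = ken x) (hx : ((740881858 : ℕ) : ℝ) / S ≤ x) (hx' : x ≤ (((740881858 : ℕ) : ℝ) + (40050571 : ℕ)) / S) :
    TriB PP.cur (VE (h0 * 0) 3 κ (h0 * x) (eng.v x) (h0 * (1 / 20)) (tnt (h0 * x) (1 / 5)) (tbl tK x) (tbl tL x) (tbl (smT h0⁻¹ tC) x)) 0 0 1 1 0 1 1 :=
  (sideB hx hx').bothB (thrB hx hx') (en_pos (hx1 hx).le) (Or.inl rfl) (Or.inl rfl) fun y y' F =>
    bothB_cert (s1 := true) (s2 := true) rfl hκ (en_pos (hx1 hx).le) (esg_rng (hx1 hx).le (hx2 hx').le).1 (mo_v x) covB10 covB01 hx hx'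
        Pool.Agent.Strip051.G.I69_7273.Tab.C.BB10.c_pp_001 noCut_EB noExt_EB F trivial trivial

theorem BB10_pp_011 {κ x : ℝ} (hκ : κ * h0 = ken x) (hx : ((740881858 : ℕ) : ℝ) / S ≤ x) (hx' : x ≤ (((740881858 : ℕ) : ℝ) + (40050571 : ℕ)) / S) :
    TriB PP.cur (VE (h0 * 0) 3 κ (h0 * x) (eng.v x) (h0 * (1 / 20)) (tnt (h0 * x) (1 / 5)) (tbl tK x) (tbl tL x) (tbl (smT h0⁻¹ tC) x)) 0 1 1 1 0 1 1 :=
  (sideB hx hx').bothB (thrB hx hx') (en_pos (hx1 hx).le) (Or.inl rfl) (Or.inl rfl) fun y y' F =>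
    bothB_cert (s1 := true) (s2 := true) rfl hκ (en_pos (hx1 hx).le) (esg_rng (hx1 hx).le (hx2 hx').le).1 (mo_v x) covB10 covB01 hx hx'
        Pool.Agent.Strip051.G.I69_7273.Tab.C.BB10.c_pp_011 (cutEB_cons (Pool.Agent.Strip051.G.I69_7273.Tab.altB_B011E_10 hκ hx hx') cutEB_nil) noExt_EB F trivial trivial

theorem BB10_pp_012 {κ x : ℝ} (hκ : κ * h0 = ken x) (hx : ((740881858 : ℕ) : ℝ) / S ≤ x) (hx' : x ≤ (((740881858 : ℕ) : ℝ) + (40050571 : ℕ)) / S) :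
    TriB PP.cur (VE (h0 * 0) 3 κ (h0 * x) (eng.v x) (h0 * (1 / 20)) (tnt (h0 * x) (1 / 5)) (tbl tK x) (tbl tL x) (tbl (smT h0⁻¹ tC) x)) 0 1 2 1 0 1 1 :=
  (sideB hx hx').bothB (thrB hx hx') (en_pos (hx1 hx).le) (Or.inl rfl) (Or.inl rfl) fun y y' F =>
    bothB_cert (s1 := true) (s2 := true) rfl hκ (en_pos (hx1 hx).le) (esg_rng (hx1 hx).le (hx2 hx').le).1 (mo_v x) covB10 covB02 hx hx'
        Pool.Agent.Strip051.G.I69_7273.Tab.C.BB10.c_pp_012 (cutEB_cons (Pool.Agent.Strip051.G.I69_7273.Tab.altB_B012E_10 hκ hx hx') cutEB_nil) noExt_EB F trivial trivial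

theorem BB10_pp_022 {κ x : ℝ} (hκ : κ * h0 = ken x) (hx : ((740881858 : ℕ) : ℝ) / S ≤ x) (hx' : x ≤ (((740881858 : ℕ) : ℝ) + (40050571 : ℕ)) / S) :
    TriB PP.cur (VE (h0 * 0) 3 κ (h0 * x) (eng.v x) (h0 * (1 / 20)) (tnt (h0 * x) (1 / 5)) (tbl tK x) (tbl tL x) (tbl (smT h0⁻¹ tC) x)) 0 2 2 1 0 1 1 :=
  (sideB hx hx').bothB (thrB hx hx') (en_pos (hx1 hx).le) (Or.inl rfl) (Or.inl rfl) fun y y' F =>
    bothB_cert (s1 := true) (s2 := true) rfl hκ (en_pos (hx1 hx).le) (esg_rng (hx1 hx).le (hx2 hx').le).1 (mo_v x) covB10 covB02 hx hx'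
        Pool.Agent.Strip051.G.I69_7273.Tab.C.BB10.c_pp_022 (cutEB_cons (Pool.Agent.Strip051.G.I69_7273.Tab.altB_B022E_10 hκ hx hx') cutEB_nil) noExt_EB F trivial trivial

theorem BB10_pp_023 {κ x : ℝ} (hκ : κ * h0 = ken x) (hx : ((740881858 : ℕ) : ℝ) / S ≤ x) (hx' : x ≤ (((740881858 : ℕ) : ℝ) + (40050571 : ℕ)) / S) :
    TriB PP.cur (VE (h0 * 0) 3 κ (h0 * x) (eng.v x) (h0 * (1 / 20)) (tnt (h0 * x) (1 / 5)) (tbl tK x) (tbl tL x) (tbl (smT h0⁻¹ tC) x)) 0 2 3 1 0 1 1 :=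
  triB_k0

theorem BB10_pp_033 {κ x : ℝ} (hκ : κ * h0 = ken x) (hx : ((740881858 : ℕ) : ℝ) / S ≤ x) (hx' : x ≤ (((740881858 : ℕ) : ℝ) + (40050571 : ℕ)) / S) :
    TriB PP.cur (VE (h0 * 0) 3 κ (h0 * x) (eng.v x) (h0 * (1 / 20)) (tnt (h0 * x) (1 / 5)) (tbl tK x) (tbl tL x) (tbl (smT h0⁻¹ tC) x)) 0 3 3 1 0 1 1 :=
  triB_k0

theorem BB10_pp_101 {κ x : ℝ} (hκ : κ * h0 = ken x) (hx : ((740881858 : ℕ) : ℝ) / S ≤ x) (hx' : x ≤ (((740881858 : ℕ) : ℝ) + (40050571 : ℕ)) / S) :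
    TriB PP.cur (VE (h0 * 0) 3 κ (h0 * x) (eng.v x) (h0 * (1 / 20)) (tnt (h0 * x) (1 / 5)) (tbl tK x) (tbl tL x) (tbl (smT h0⁻¹ tC) x)) 1 0 1 1 0 1 1 :=
  (sideB hx hx').bothB (thrB hx hx') (en_pos (hx1 hx).le) (Or.inl rfl) (Or.inl rfl) fun y y' F =>
    bothB_cert (s1 := true) (s2 := true) rfl hκ (en_pos (hx1 hx).le) (esg_rng (hx1 hx).le (hx2 hx').le).1 (mo_v x) covB11 covB01 hx hx'
        Pool.Agent.Strip051.G.I69_7273.Tab.C.BB10.c_pp_101 noCut_EB noExt_EB F trivial trivial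

theorem BB10_pp_102 {κ x : ℝ} (hκ : κ * h0 = ken x) (hx : ((740881858 : ℕ) : ℝ) / S ≤ x) (hx' : x ≤ (((740881858 : ℕ) : ℝ) + (40050571 : ℕ)) / S) :
    TriB PP.cur (VE (h0 * 0) 3 κ (h0 * x) (eng.v x) (h0 * (1 / 20)) (tnt (h0 * x) (1 / 5)) (tbl tK x) (tbl tL x) (tbl (smT h0⁻¹ tC) x)) 1 0 2 1 0 1 1 :=
  (sideB hx hx').bothB (thrB hx hx') (en_pos (hx1 hx).le) (Or.inl rfl) (Or.inl rfl) fun y y' F =>
    bothB_cert (s1 := true) (s2 := true) rfl hκ (en_pos (hx1 hx).le) (esg_rng (hx1 hx).le (hx2 hx').le).1 (mo_v x) covB11 covB02 hx hx'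
        Pool.Agent.Strip051.G.I69_7273.Tab.C.BB10.c_pp_102 noCut_EB noExt_EB F trivial trivial

theorem BB10_pp_112 {κ x : ℝ} (hκ : κ * h0 = ken x) (hx : ((740881858 : ℕ) : ℝ) / S ≤ x) (hx' : x ≤ (((740881858 : ℕ) : ℝ) + (40050571 : ℕ)) / S) :
    TriB PP.cur (VE (h0 * 0) 3 κ (h0 * x) (eng.v x) (h0 * (1 / 20)) (tnt (h0 * x) (1 / 5)) (tbl tK x) (tbl tL x) (tbl (smT h0⁻¹ tC) x)) 1 1 2 1 0 1 1 :=
  (sideB hx hx').bothB (thrB hx hx') (en_pos (hx1 hx).le) (Or.inl rfl) (Or.inl rfl) fun y y' F =>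
    bothB_cert (s1 := true) (s2 := true) rfl hκ (en_pos (hx1 hx).le) (esg_rng (hx1 hx).le (hx2 hx').le).1 (mo_v x) covB11 covB02 hx hx'
        Pool.Agent.Strip051.G.I69_7273.Tab.C.BB10.c_pp_112 noCut_EB noExt_EB F trivial trivial

theorem BB10_pp_113 {κ x : ℝ} (hκ : κ * h0 = ken x) (hx : ((740881858 : ℕ) : ℝ) / S ≤ x) (hx' : x ≤ (((740881858 : ℕ) : ℝ) + (40050571 : ℕ)) / S) :
    TriB PP.cur (VE (h0 * 0) 3 κ (h0 * x) (eng.v x) (h0 * (1 / 20)) (tnt (h0 * x) (1 / 5)) (tbl tK x) (tbl tL x) (tbl (smT h0⁻¹ tC) x)) 1 1 3 1 0 1 1 :=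
  triB_k0

theorem BB10_pp_123 {κ x : ℝ} (hκ : κ * h0 = ken x) (hx : ((740881858 : ℕ) : ℝ) / S ≤ x) (hx' : x ≤ (((740881858 : ℕ) : ℝ) + (40050571 : ℕ)) / S) :
    TriB PP.cur (VE (h0 * 0) 3 κ (h0 * x) (eng.v x) (h0 * (1 / 20)) (tnt (h0 * x) (1 / 5)) (tbl tK x) (tbl tL x) (tbl (smT h0⁻¹ tC) x)) 1 2 3 1 0 1 1 :=
  triB_k0

theorem BB10_pp_133 {κ x : ℝ} (hκ : κ * h0 = ken x) (hx : ((740881858 : ℕ) : ℝ) / S ≤ x) (hx' : x ≤ (((740881858 : ℕ) : ℝ) + (40050571 : ℕ)) / S) :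
    TriB PP.cur (VE (h0 * 0) 3 κ (h0 * x) (eng.v x) (h0 * (1 / 20)) (tnt (h0 * x) (1 / 5)) (tbl tK x) (tbl tL x) (tbl (smT h0⁻¹ tC) x)) 1 3 3 1 0 1 1 :=
  triB_k0

theorem BB10_pp_202 {κ x : ℝ} (hκ : κ * h0 = ken x) (hx : ((740881858 : ℕ) : ℝ) / S ≤ x) (hx' : x ≤ (((740881858 : ℕ) : ℝ) + (40050571 : ℕ)) / S) :
    TriB PP.cur (VE (h0 * 0) 3 κ (h0 * x) (eng.v x) (h0 * (1 / 20)) (tnt (h0 * x) (1 / 5)) (tbl tK x) (tbl tL x) (tbl (smT h0⁻¹ tC) x)) 2 0 2 1 0 1 1 :=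
  (sideB hx hx').bothB (thrB hx hx') (en_pos (hx1 hx).le) (Or.inl rfl) (Or.inl rfl) fun y y' F =>
    (lt_or_ge (h0 * y) 1).elim
      (fun h => bothB_cert (s1 := true) (s2 := true) rfl hκ (en_pos (hx1 hx).le) (esg_rng (hx1 hx).le (hx2 hx').le).1 (mo_v x) covB12a covB02 hx hx'
        Pool.Agent.Strip051.G.I69_7273.Tab.C.BB10.c_pp_202_a noCut_EB noExt_EB F h trivial)
      (fun h => bothB_cert (s1 := true) (s2 := true) rfl hκ (en_pos (hx1 hx).le) (esg_rng (hx1 hx).le (hx2 hx').le).1 (mo_v x) covB12b covB02 hx hx'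
        Pool.Agent.Strip051.G.I69_7273.Tab.C.BB10.c_pp_202_b noCut_EB noExt_EB F h trivial)

theorem BB10_pp_203 {κ x : ℝ} (hκ : κ * h0 = ken x) (hx : ((740881858 : ℕ) : ℝ) / S ≤ x) (hx' : x ≤ (((740881858 : ℕ) : ℝ) + (40050571 : ℕ)) / S) :
    TriB PP.cur (VE (h0 * 0) 3 κ (h0 * x) (eng.v x) (h0 * (1 / 20)) (tnt (h0 * x) (1 / 5)) (tbl tK x) (tbl tL x) (tbl (smT h0⁻¹ tC) x)) 2 0 3 1 0 1 1 :=
  triB_k0

theorem BB10_pp_213 {κ x : ℝ} (hκ : κ * h0 = ken x) (hx : ((740881858 : ℕ) : ℝ) / S ≤ x) (hx' : x ≤ (((740881858 : ℕ) : ℝ) + (40050571 : ℕ)) / S) :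
    TriB PP.cur (VE (h0 * 0) 3 κ (h0 * x) (eng.v x) (h0 * (1 / 20)) (tnt (h0 * x) (1 / 5)) (tbl tK x) (tbl tL x) (tbl (smT h0⁻¹ tC) x)) 2 1 3 1 0 1 1 :=
  triB_k0

theorem BB10_pp_303 {κ x : ℝ} (hκ : κ * h0 = ken x) (hx : ((740881858 : ℕ) : ℝ) / S ≤ x) (hx' : x ≤ (((740881858 : ℕ) : ℝ) + (40050571 : ℕ)) / S) :
    TriB PP.cur (VE (h0 * 0) 3 κ (h0 * x) (eng.v x) (h0 * (1 / 20)) (tnt (h0 * x) (1 / 5)) (tbl tK x) (tbl tL x) (tbl (smT h0⁻¹ tC) x)) 3 0 3 1 0 1 1 :=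
  triB_k0

theorem BB10_pp_313 {κ x : ℝ} (hκ : κ * h0 = ken x) (hx : ((740881858 : ℕ) : ℝ) / S ≤ x) (hx' : x ≤ (((740881858 : ℕ) : ℝ) + (40050571 : ℕ)) / S) :
    TriB PP.cur (VE (h0 * 0) 3 κ (h0 * x) (eng.v x) (h0 * (1 / 20)) (tnt (h0 * x) (1 / 5)) (tbl tK x) (tbl tL x) (tbl (smT h0⁻¹ tC) x)) 3 1 3 1 0 1 1 :=
  triB_k0

theorem BB10_pm_001 {κ x : ℝ} (hκ : κ * h0 = ken x) (hx : ((740881858 : ℕ) : ℝ) / S ≤ x) (hx' : x ≤ (((740881858 : ℕ) : ℝ) + (40050571 : ℕ)) / S) :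
    TriB PP.cur (VE (h0 * 0) 3 κ (h0 * x) (eng.v x) (h0 * (1 / 20)) (tnt (h0 * x) (1 / 5)) (tbl tK x) (tbl tL x) (tbl (smT h0⁻¹ tC) x)) 0 0 1 1 0 1 (-1) :=
  (sideB hx hx').bothB (thrB hx hx') (en_pos (hx1 hx).le) (Or.inl rfl) (Or.inr rfl) fun y y' F =>
    bothB_cert (s1 := true) (s2 := false) rfl hκ (en_pos (hx1 hx).le) (esg_rng (hx1 hx).le (hx2 hx').le).1 (mo_v x) covB10 covB01 hx hx'
        Pool.Agent.Strip051.G.I69_7273.Tab.C.BB10.c_pm_001 noCut_EB noExt_EB F trivial trivial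

theorem BB10_pm_011 {κ x : ℝ} (hκ : κ * h0 = ken x) (hx : ((740881858 : ℕ) : ℝ) / S ≤ x) (hx' : x ≤ (((740881858 : ℕ) : ℝ) + (40050571 : ℕ)) / S) :
    TriB PP.cur (VE (h0 * 0) 3 κ (h0 * x) (eng.v x) (h0 * (1 / 20)) (tnt (h0 * x) (1 / 5)) (tbl tK x) (tbl tL x) (tbl (smT h0⁻¹ tC) x)) 0 1 1 1 0 1 (-1) :=
  (sideB hx hx').bothB (thrB hx hx') (en_pos (hx1 hx).le) (Or.inl rfl) (Or.inr rfl) fun y y' F =>
    bothB_cert (s1 := true) (s2 := false) rfl hκ (en_pos (hx1 hx).le) (esg_rng (hx1 hx).le (hx2 hx').le).1 (mo_v x) covB10 covB01 hx hx'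
        Pool.Agent.Strip051.G.I69_7273.Tab.C.BB10.c_pm_011 (cutEB_cons (Pool.Agent.Strip051.G.I69_7273.Tab.altB_B011R_10 hκ hx hx') cutEB_nil) noExt_EB F trivial trivial

theorem BB10_pm_012 {κ x : ℝ} (hκ : κ * h0 = ken x) (hx : ((740881858 : ℕ) : ℝ) / S ≤ x) (hx' : x ≤ (((740881858 : ℕ) : ℝ) + (40050571 : ℕ)) / S) :
    TriB PP.cur (VE (h0 * 0) 3 κ (h0 * x) (eng.v x) (h0 * (1 / 20)) (tnt (h0 * x) (1 / 5)) (tbl tK x) (tbl tL x) (tbl (smT h0⁻¹ tC) x)) 0 1 2 1 0 1 (-1) :=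
  (sideB hx hx').bothB (thrB hx hx') (en_pos (hx1 hx).le) (Or.inl rfl) (Or.inr rfl) fun y y' F =>
    bothB_cert (s1 := true) (s2 := false) rfl hκ (en_pos (hx1 hx).le) (esg_rng (hx1 hx).le (hx2 hx').le).1 (mo_v x) covB10 covB02 hx hx'
        Pool.Agent.Strip051.G.I69_7273.Tab.C.BB10.c_pm_012 (cutEB_cons (Pool.Agent.Strip051.G.I69_7273.Tab.altB_B012R_10 hκ hx hx') cutEB_nil) noExt_EB F trivial trivial

theorem BB10_pm_022 {κ x : ℝ} (hκ : κ * h0 = ken x) (hx : ((740881858 : ℕ) : ℝ) / S ≤ x) (hx' : x ≤ (((740881858 : ℕ) : ℝ) + (40050571 : ℕ)) / S) :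
    TriB PP.cur (VE (h0 * 0) 3 κ (h0 * x) (eng.v x) (h0 * (1 / 20)) (tnt (h0 * x) (1 / 5)) (tbl tK x) (tbl tL x) (tbl (smT h0⁻¹ tC) x)) 0 2 2 1 0 1 (-1) :=
  (sideB hx hx').bothB (thrB hx hx') (en_pos (hx1 hx).le) (Or.inl rfl) (Or.inr rfl) fun y y' F =>
    bothB_cert (s1 := true) (s2 := false) rfl hκ (en_pos (hx1 hx).le) (esg_rng (hx1 hx).le (hx2 hx').le).1 (mo_v x) covB10 covB02 hx hx'
        Pool.Agent.Strip051.G.I69_7273.Tab.C.BB10.c_pm_022 (cutEB_cons (Pool.Agent.Strip051.G.I69_7273.Tab.altB_B022R_10 hκ hx hx') cutEB_nil) noExt_EB F trivial trivial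

theorem BB10_pm_023 {κ x : ℝ} (hκ : κ * h0 = ken x) (hx : ((740881858 : ℕ) : ℝ) / S ≤ x) (hx' : x ≤ (((740881858 : ℕ) : ℝ) + (40050571 : ℕ)) / S) :
    TriB PP.cur (VE (h0 * 0) 3 κ (h0 * x) (eng.v x) (h0 * (1 / 20)) (tnt (h0 * x) (1 / 5)) (tbl tK x) (tbl tL x) (tbl (smT h0⁻¹ tC) x)) 0 2 3 1 0 1 (-1) :=
  triB_k0

theorem BB10_pm_033 {κ x : ℝ} (hκ : κ * h0 = ken x) (hx : ((740881858 : ℕ) : ℝ) / S ≤ x) (hx' : x ≤ (((740881858 : ℕ) : ℝ) + (40050571 : ℕ)) / S) :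
    TriB PP.cur (VE (h0 * 0) 3 κ (h0 * x) (eng.v x) (h0 * (1 / 20)) (tnt (h0 * x) (1 / 5)) (tbl tK x) (tbl tL x) (tbl (smT h0⁻¹ tC) x)) 0 3 3 1 0 1 (-1) :=
  triB_k0

theorem BB10_pm_101 {κ x : ℝ} (hκ : κ * h0 = ken x) (hx : ((740881858 : ℕ) : ℝ) / S ≤ x) (hx' : x ≤ (((740881858 : ℕ) : ℝ) + (40050571 : ℕ)) / S) :
    TriB PP.cur (VE (h0 * 0) 3 κ (h0 * x) (eng.v x) (h0 * (1 / 20)) (tnt (h0 * x) (1 / 5)) (tbl tK x) (tbl tL x) (tbl (smT h0⁻¹ tC) x)) 1 0 1 1 0 1 (-1) :=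
  (sideB hx hx').bothB (thrB hx hx') (en_pos (hx1 hx).le) (Or.inl rfl) (Or.inr rfl) fun y y' F =>
    bothB_cert (s1 := true) (s2 := false) rfl hκ (en_pos (hx1 hx).le) (esg_rng (hx1 hx).le (hx2 hx').le).1 (mo_v x) covB11 covB01 hx hx'
        Pool.Agent.Strip051.G.I69_7273.Tab.C.BB10.c_pm_101 noCut_EB noExt_EB F trivial trivial

theorem BB10_pm_102 {κ x : ℝ} (hκ : κ * h0 = ken x) (hx : ((740881858 : ℕ) : ℝ) / S ≤ x) (hx' : x ≤ (((740881858 : ℕ) : ℝ) + (40050571 : ℕ)) / S) :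
    TriB PP.cur (VE (h0 * 0) 3 κ (h0 * x) (eng.v x) (h0 * (1 / 20)) (tnt (h0 * x) (1 / 5)) (tbl tK x) (tbl tL x) (tbl (smT h0⁻¹ tC) x)) 1 0 2 1 0 1 (-1) :=
  (sideB hx hx').bothB (thrB hx hx') (en_pos (hx1 hx).le) (Or.inl rfl) (Or.inr rfl) fun y y' F =>
    bothB_cert (s1 := true) (s2 := false) rfl hκ (en_pos (hx1 hx).le) (esg_rng (hx1 hx).le (hx2 hx').le).1 (mo_v x) covB11 covB02 hx hx'
        Pool.Agent.Strip051.G.I69_7273.Tab.C.BB10.c_pm_102 noCut_EB noExt_EB F trivial trivial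

theorem BB10_pm_112 {κ x : ℝ} (hκ : κ * h0 = ken x) (hx : ((740881858 : ℕ) : ℝ) / S ≤ x) (hx' : x ≤ (((740881858 : ℕ) : ℝ) + (40050571 : ℕ)) / S) :
    TriB PP.cur (VE (h0 * 0) 3 κ (h0 * x) (eng.v x) (h0 * (1 / 20)) (tnt (h0 * x) (1 / 5)) (tbl tK x) (tbl tL x) (tbl (smT h0⁻¹ tC) x)) 1 1 2 1 0 1 (-1) :=
  (sideB hx hx').bothB (thrB hx hx') (en_pos (hx1 hx).le) (Or.inl rfl) (Or.inr rfl) fun y y' F =>
    bothB_cert (s1 := true) (s2 := false) rfl hκ (en_pos (hx1 hx).le) (esg_rng (hx1 hx).le (hx2 hx').le).1 (mo_v x) covB11 covB02 hx hx'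
        Pool.Agent.Strip051.G.I69_7273.Tab.C.BB10.c_pm_112 noCut_EB noExt_EB F trivial trivial

theorem BB10_pm_113 {κ x : ℝ} (hκ : κ * h0 = ken x) (hx : ((740881858 : ℕ) : ℝ) / S ≤ x) (hx' : x ≤ (((740881858 : ℕ) : ℝ) + (40050571 : ℕ)) / S) :
    TriB PP.cur (VE (h0 * 0) 3 κ (h0 * x) (eng.v x) (h0 * (1 / 20)) (tnt (h0 * x) (1 / 5)) (tbl tK x) (tbl tL x) (tbl (smT h0⁻¹ tC) x)) 1 1 3 1 0 1 (-1) :=
  triB_k0

theorem BB10_pm_123 {κ x : ℝ} (hκ : κ * h0 = ken x) (hx : ((740881858 : ℕ) : ℝ) / S ≤ x) (hx' : x ≤ (((740881858 : ℕ) : ℝ) + (40050571 : ℕ)) / S) :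
    TriB PP.cur (VE (h0 * 0) 3 κ (h0 * x) (eng.v x) (h0 * (1 / 20)) (tnt (h0 * x) (1 / 5)) (tbl tK x) (tbl tL x) (tbl (smT h0⁻¹ tC) x)) 1 2 3 1 0 1 (-1) :=
  triB_k0

theorem BB10_pm_133 {κ x : ℝ} (hκ : κ * h0 = ken x) (hx : ((740881858 : ℕ) : ℝ) / S ≤ x) (hx' : x ≤ (((740881858 : ℕ) : ℝ) + (40050571 : ℕ)) / S) :
    TriB PP.cur (VE (h0 * 0) 3 κ (h0 * x) (eng.v x) (h0 * (1 / 20)) (tnt (h0 * x) (1 / 5)) (tbl tK x) (tbl tL x) (tbl (smT h0⁻¹ tC) x)) 1 3 3 1 0 1 (-1) :=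
  triB_k0

theorem BB10_pm_202 {κ x : ℝ} (hκ : κ * h0 = ken x) (hx : ((740881858 : ℕ) : ℝ) / S ≤ x) (hx' : x ≤ (((740881858 : ℕ) : ℝ) + (40050571 : ℕ)) / S) :
    TriB PP.cur (VE (h0 * 0) 3 κ (h0 * x) (eng.v x) (h0 * (1 / 20)) (tnt (h0 * x) (1 / 5)) (tbl tK x) (tbl tL x) (tbl (smT h0⁻¹ tC) x)) 2 0 2 1 0 1 (-1) :=
  (sideB hx hx').bothB (thrB hx hx') (en_pos (hx1 hx).le) (Or.inl rfl) (Or.inr rfl) fun y y' F =>
    (lt_or_ge (h0 * y) 1).elim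
      (fun h => bothB_cert (s1 := true) (s2 := false) rfl hκ (en_pos (hx1 hx).le) (esg_rng (hx1 hx).le (hx2 hx').le).1 (mo_v x) covB12a covB02 hx hx'
        Pool.Agent.Strip051.G.I69_7273.Tab.C.BB10.c_pm_202_a (cutEB_cons (Pool.Agent.Strip051.G.I69_7273.Tab.altB_B202E_10 hκ hx hx') cutEB_nil) noExt_EB F h trivial)
      (fun h => bothB_cert (s1 := true) (s2 := false) rfl hκ (en_pos (hx1 hx).le) (esg_rng (hx1 hx).le (hx2 hx').le).1 (mo_v x) covB12b covB02 hx hx'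
        Pool.Agent.Strip051.G.I69_7273.Tab.C.BB10.c_pm_202_b (cutEB_cons (Pool.Agent.Strip051.G.I69_7273.Tab.altB_B202E_10 hκ hx hx') cutEB_nil) noExt_EB F h trivial)

theorem BB10_pm_203 {κ x : ℝ} (hκ : κ * h0 = ken x) (hx : ((740881858 : ℕ) : ℝ) / S ≤ x) (hx' : x ≤ (((740881858 : ℕ) : ℝ) + (40050571 : ℕ)) / S) :
    TriB PP.cur (VE (h0 * 0) 3 κ (h0 * x) (eng.v x) (h0 * (1 / 20)) (tnt (h0 * x) (1 / 5)) (tbl tK x) (tbl tL x) (tbl (smT h0⁻¹ tC) x)) 2 0 3 1 0 1 (-1) :=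
  triB_k0

theorem BB10_pm_213 {κ x : ℝ} (hκ : κ * h0 = ken x) (hx : ((740881858 : ℕ) : ℝ) / S ≤ x) (hx' : x ≤ (((740881858 : ℕ) : ℝ) + (40050571 : ℕ)) / S) :
    TriB PP.cur (VE (h0 * 0) 3 κ (h0 * x) (eng.v x) (h0 * (1 / 20)) (tnt (h0 * x) (1 / 5)) (tbl tK x) (tbl tL x) (tbl (smT h0⁻¹ tC) x)) 2 1 3 1 0 1 (-1) :=
  triB_k0

theorem BB10_pm_303 {κ x : ℝ} (hκ : κ * h0 = ken x) (hx : ((740881858 : ℕ) : ℝ) / S ≤ x) (hx' : x ≤ (((740881858 : ℕ) : ℝ) + (40050571 : ℕ)) / S) :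
    TriB PP.cur (VE (h0 * 0) 3 κ (h0 * x) (eng.v x) (h0 * (1 / 20)) (tnt (h0 * x) (1 / 5)) (tbl tK x) (tbl tL x) (tbl (smT h0⁻¹ tC) x)) 3 0 3 1 0 1 (-1) :=
  triB_k0

theorem BB10_pm_313 {κ x : ℝ} (hκ : κ * h0 = ken x) (hx : ((740881858 : ℕ) : ℝ) / S ≤ x) (hx' : x ≤ (((740881858 : ℕ) : ℝ) + (40050571 : ℕ)) / S) :
    TriB PP.cur (VE (h0 * 0) 3 κ (h0 * x) (eng.v x) (h0 * (1 / 20)) (tnt (h0 * x) (1 / 5)) (tbl tK x) (tbl tL x) (tbl (smT h0⁻¹ tC) x)) 3 1 3 1 0 1 (-1) :=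
  triB_k0

theorem BB10_mm_001 {κ x : ℝ} (hκ : κ * h0 = ken x) (hx : ((740881858 : ℕ) : ℝ) / S ≤ x) (hx' : x ≤ (((740881858 : ℕ) : ℝ) + (40050571 : ℕ)) / S) :
    TriB PP.cur (VE (h0 * 0) 3 κ (h0 * x) (eng.v x) (h0 * (1 / 20)) (tnt (h0 * x) (1 / 5)) (tbl tK x) (tbl tL x) (tbl (smT h0⁻¹ tC) x)) 0 0 1 1 0 (-1) (-1) :=
  (sideB hx hx').bothB (thrB hx hx') (en_pos (hx1 hx).le) (Or.inr rfl) (Or.inr rfl) fun y y' F =>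
    bothB_cert (s1 := false) (s2 := false) rfl hκ (en_pos (hx1 hx).le) (esg_rng (hx1 hx).le (hx2 hx').le).1 (mo_v x) covB10 covB01 hx hx'
        Pool.Agent.Strip051.G.I69_7273.Tab.C.BB10.c_mm_001 noCut_EB noExt_EB F trivial trivial

theorem BB10_mm_011 {κ x : ℝ} (hκ : κ * h0 = ken x) (hx : ((740881858 : ℕ) : ℝ) / S ≤ x) (hx' : x ≤ (((740881858 : ℕ) : ℝ) + (40050571 : ℕ)) / S) :
    TriB PP.cur (VE (h0 * 0) 3 κ (h0 * x) (eng.v x) (h0 * (1 / 20)) (tnt (h0 * x) (1 / 5)) (tbl tK x) (tbl tL x) (tbl (smT h0⁻¹ tC) x)) 0 1 1 1 0 (-1) (-1) :=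
  (sideB hx hx').bothB (thrB hx hx') (en_pos (hx1 hx).le) (Or.inr rfl) (Or.inr rfl) fun y y' F =>
    bothB_cert (s1 := false) (s2 := false) rfl hκ (en_pos (hx1 hx).le) (esg_rng (hx1 hx).le (hx2 hx').le).1 (mo_v x) covB10 covB01 hx hx'
        Pool.Agent.Strip051.G.I69_7273.Tab.C.BB10.c_mm_011 noCut_EB noExt_EB F trivial trivial

theorem BB10_mm_012 {κ x : ℝ} (hκ : κ * h0 = ken x) (hx : ((740881858 : ℕ) : ℝ) / S ≤ x) (hx' : x ≤ (((740881858 : ℕ) : ℝ) + (40050571 : ℕ)) / S) :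
    TriB PP.cur (VE (h0 * 0) 3 κ (h0 * x) (eng.v x) (h0 * (1 / 20)) (tnt (h0 * x) (1 / 5)) (tbl tK x) (tbl tL x) (tbl (smT h0⁻¹ tC) x)) 0 1 2 1 0 (-1) (-1) :=
  (sideB hx hx').bothB (thrB hx hx') (en_pos (hx1 hx).le) (Or.inr rfl) (Or.inr rfl) fun y y' F =>
    bothB_cert (s1 := false) (s2 := false) rfl hκ (en_pos (hx1 hx).le) (esg_rng (hx1 hx).le (hx2 hx').le).1 (mo_v x) covB10 covB02 hx hx'
        Pool.Agent.Strip051.G.I69_7273.Tab.C.BB10.c_mm_012 noCut_EB noExt_EB F trivial trivial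

theorem BB10_mm_022 {κ x : ℝ} (hκ : κ * h0 = ken x) (hx : ((740881858 : ℕ) : ℝ) / S ≤ x) (hx' : x ≤ (((740881858 : ℕ) : ℝ) + (40050571 : ℕ)) / S) :
    TriB PP.cur (VE (h0 * 0) 3 κ (h0 * x) (eng.v x) (h0 * (1 / 20)) (tnt (h0 * x) (1 / 5)) (tbl tK x) (tbl tL x) (tbl (smT h0⁻¹ tC) x)) 0 2 2 1 0 (-1) (-1) :=
  (sideB hx hx').bothB (thrB hx hx') (en_pos (hx1 hx).le) (Or.inr rfl) (Or.inr rfl) fun y y' F =>
    bothB_cert (s1 := false) (s2 := false) rfl hκ (en_pos (hx1 hx).le) (esg_rng (hx1 hx).le (hx2 hx').le).1 (mo_v x) covB10 covB02 hx hx'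
        Pool.Agent.Strip051.G.I69_7273.Tab.C.BB10.c_mm_022 noCut_EB noExt_EB F trivial trivial

theorem BB10_mm_023 {κ x : ℝ} (hκ : κ * h0 = ken x) (hx : ((740881858 : ℕ) : ℝ) / S ≤ x) (hx' : x ≤ (((740881858 : ℕ) : ℝ) + (40050571 : ℕ)) / S) :
    TriB PP.cur (VE (h0 * 0) 3 κ (h0 * x) (eng.v x) (h0 * (1 / 20)) (tnt (h0 * x) (1 / 5)) (tbl tK x) (tbl tL x) (tbl (smT h0⁻¹ tC) x)) 0 2 3 1 0 (-1) (-1) :=
  triB_k0

theorem BB10_mm_033 {κ x : ℝ} (hκ : κ * h0 = ken x) (hx : ((740881858 : ℕ) : ℝ) / S ≤ x) (hx' : x ≤ (((740881858 : ℕ) : ℝ) + (40050571 : ℕ)) / S) :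
    TriB PP.cur (VE (h0 * 0) 3 κ (h0 * x) (eng.v x) (h0 * (1 / 20)) (tnt (h0 * x) (1 / 5)) (tbl tK x) (tbl tL x) (tbl (smT h0⁻¹ tC) x)) 0 3 3 1 0 (-1) (-1) :=
  triB_k0

theorem BB10_mm_101 {κ x : ℝ} (hκ : κ * h0 = ken x) (hx : ((740881858 : ℕ) : ℝ) / S ≤ x) (hx' : x ≤ (((740881858 : ℕ) : ℝ) + (40050571 : ℕ)) / S) :
    TriB PP.cur (VE (h0 * 0) 3 κ (h0 * x) (eng.v x) (h0 * (1 / 20)) (tnt (h0 * x) (1 / 5)) (tbl tK x) (tbl tL x) (tbl (smT h0⁻¹ tC) x)) 1 0 1 1 0 (-1) (-1) :=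
  (sideB hx hx').bothB (thrB hx hx') (en_pos (hx1 hx).le) (Or.inr rfl) (Or.inr rfl) fun y y' F =>
    bothB_cert (s1 := false) (s2 := false) rfl hκ (en_pos (hx1 hx).le) (esg_rng (hx1 hx).le (hx2 hx').le).1 (mo_v x) covB11 covB01 hx hx'
        Pool.Agent.Strip051.G.I69_7273.Tab.C.BB10.c_mm_101 noCut_EB noExt_EB F trivial trivial

theorem BB10_mm_102 {κ x : ℝ} (hκ : κ * h0 = ken x) (hx : ((740881858 : ℕ) : ℝ) / S ≤ x) (hx' : x ≤ (((740881858 : ℕ) : ℝ) + (40050571 : ℕ)) / S) :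
    TriB PP.cur (VE (h0 * 0) 3 κ (h0 * x) (eng.v x) (h0 * (1 / 20)) (tnt (h0 * x) (1 / 5)) (tbl tK x) (tbl tL x) (tbl (smT h0⁻¹ tC) x)) 1 0 2 1 0 (-1) (-1) :=
  (sideB hx hx').bothB (thrB hx hx') (en_pos (hx1 hx).le) (Or.inr rfl) (Or.inr rfl) fun y y' F =>
    bothB_cert (s1 := false) (s2 := false) rfl hκ (en_pos (hx1 hx).le) (esg_rng (hx1 hx).le (hx2 hx').le).1 (mo_v x) covB11 covB02 hx hx'
        Pool.Agent.Strip051.G.I69_7273.Tab.C.BB10.c_mm_102 noCut_EB noExt_EB F trivial trivial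

theorem BB10_mm_112 {κ x : ℝ} (hκ : κ * h0 = ken x) (hx : ((740881858 : ℕ) : ℝ) / S ≤ x) (hx' : x ≤ (((740881858 : ℕ) : ℝ) + (40050571 : ℕ)) / S) :
    TriB PP.cur (VE (h0 * 0) 3 κ (h0 * x) (eng.v x) (h0 * (1 / 20)) (tnt (h0 * x) (1 / 5)) (tbl tK x) (tbl tL x) (tbl (smT h0⁻¹ tC) x)) 1 1 2 1 0 (-1) (-1) :=
  (sideB hx hx').bothB (thrB hx hx') (en_pos (hx1 hx).le) (Or.inr rfl) (Or.inr rfl) fun y y' F =>
    bothB_cert (s1 := false) (s2 := false) rfl hκ (en_pos (hx1 hx).le) (esg_rng (hx1 hx).le (hx2 hx').le).1 (mo_v x) covB11 covB02 hx hx'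
        Pool.Agent.Strip051.G.I69_7273.Tab.C.BB10.c_mm_112 noCut_EB noExt_EB F trivial trivial

theorem BB10_mm_113 {κ x : ℝ} (hκ : κ * h0 = ken x) (hx : ((740881858 : ℕ) : ℝ) / S ≤ x) (hx' : x ≤ (((740881858 : ℕ) : ℝ) + (40050571 : ℕ)) / S) :
    TriB PP.cur (VE (h0 * 0) 3 κ (h0 * x) (eng.v x) (h0 * (1 / 20)) (tnt (h0 * x) (1 / 5)) (tbl tK x) (tbl tL x) (tbl (smT h0⁻¹ tC) x)) 1 1 3 1 0 (-1) (-1) :=
  triB_k0

theorem BB10_mm_123 {κ x : ℝ} (hκ : κ * h0 = ken x) (hx : ((740881858 : ℕ) : ℝ) / S ≤ x) (hx' : x ≤ (((740881858 : ℕ) : ℝ) + (40050571 : ℕ)) / S) :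
    TriB PP.cur (VE (h0 * 0) 3 κ (h0 * x) (eng.v x) (h0 * (1 / 20)) (tnt (h0 * x) (1 / 5)) (tbl tK x) (tbl tL x) (tbl (smT h0⁻¹ tC) x)) 1 2 3 1 0 (-1) (-1) :=
  triB_k0

theorem BB10_mm_133 {κ x : ℝ} (hκ : κ * h0 = ken x) (hx : ((740881858 : ℕ) : ℝ) / S ≤ x) (hx' : x ≤ (((740881858 : ℕ) : ℝ) + (40050571 : ℕ)) / S) :
    TriB PP.cur (VE (h0 * 0) 3 κ (h0 * x) (eng.v x) (h0 * (1 / 20)) (tnt (h0 * x) (1 / 5)) (tbl tK x) (tbl tL x) (tbl (smT h0⁻¹ tC) x)) 1 3 3 1 0 (-1) (-1) :=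
  triB_k0

theorem BB10_mm_202 {κ x : ℝ} (hκ : κ * h0 = ken x) (hx : ((740881858 : ℕ) : ℝ) / S ≤ x) (hx' : x ≤ (((740881858 : ℕ) : ℝ) + (40050571 : ℕ)) / S) :
    TriB PP.cur (VE (h0 * 0) 3 κ (h0 * x) (eng.v x) (h0 * (1 / 20)) (tnt (h0 * x) (1 / 5)) (tbl tK x) (tbl tL x) (tbl (smT h0⁻¹ tC) x)) 2 0 2 1 0 (-1) (-1) :=
  (sideB hx hx').bothB (thrB hx hx') (en_pos (hx1 hx).le) (Or.inr rfl) (Or.inr rfl) fun y y' F =>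
    (lt_or_ge (h0 * y) 1).elim
      (fun h => bothB_cert (s1 := false) (s2 := false) rfl hκ (en_pos (hx1 hx).le) (esg_rng (hx1 hx).le (hx2 hx').le).1 (mo_v x) covB12a covB02 hx hx'
        Pool.Agent.Strip051.G.I69_7273.Tab.C.BB10.c_mm_202_a noCut_EB noExt_EB F h trivial)
      (fun h => bothB_cert (s1 := false) (s2 := false) rfl hκ (en_pos (hx1 hx).le) (esg_rng (hx1 hx).le (hx2 hx').le).1 (mo_v x) covB12b covB02 hx hx'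
        Pool.Agent.Strip051.G.I69_7273.Tab.C.BB10.c_mm_202_b noCut_EB noExt_EB F h trivial)

theorem BB10_mm_203 {κ x : ℝ} (hκ : κ * h0 = ken x) (hx : ((740881858 : ℕ) : ℝ) / S ≤ x) (hx' : x ≤ (((740881858 : ℕ) : ℝ) + (40050571 : ℕ)) / S) :
    TriB PP.cur (VE (h0 * 0) 3 κ (h0 * x) (eng.v x) (h0 * (1 / 20)) (tnt (h0 * x) (1 / 5)) (tbl tK x) (tbl tL x) (tbl (smT h0⁻¹ tC) x)) 2 0 3 1 0 (-1) (-1) :=
  triB_k0

theorem BB10_mm_213 {κ x : ℝ} (hκ : κ * h0 = ken x) (hx : ((740881858 : ℕ) : ℝ) / S ≤ x) (hx' : x ≤ (((740881858 : ℕ) : ℝ) + (40050571 : ℕ)) / S) :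
    TriB PP.cur (VE (h0 * 0) 3 κ (h0 * x) (eng.v x) (h0 * (1 / 20)) (tnt (h0 * x) (1 / 5)) (tbl tK x) (tbl tL x) (tbl (smT h0⁻¹ tC) x)) 2 1 3 1 0 (-1) (-1) :=
  triB_k0

theorem BB10_mm_303 {κ x : ℝ} (hκ : κ * h0 = ken x) (hx : ((740881858 : ℕ) : ℝ) / S ≤ x) (hx' : x ≤ (((740881858 : ℕ) : ℝ) + (40050571 : ℕ)) / S) :
    TriB PP.cur (VE (h0 * 0) 3 κ (h0 * x) (eng.v x) (h0 * (1 / 20)) (tnt (h0 * x) (1 / 5)) (tbl tK x) (tbl tL x) (tbl (smT h0⁻¹ tC) x)) 3 0 3 1 0 (-1) (-1) :=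
  triB_k0

theorem BB10_mm_313 {κ x : ℝ} (hκ : κ * h0 = ken x) (hx : ((740881858 : ℕ) : ℝ) / S ≤ x) (hx' : x ≤ (((740881858 : ℕ) : ℝ) + (40050571 : ℕ)) / S) :
    TriB PP.cur (VE (h0 * 0) 3 κ (h0 * x) (eng.v x) (h0 * (1 / 20)) (tnt (h0 * x) (1 / 5)) (tbl tK x) (tbl tL x) (tbl (smT h0⁻¹ tC) x)) 3 1 3 1 0 (-1) (-1) :=
  triB_k0

theorem BB10 {κ x : ℝ} (hκ : κ * h0 = ken x) (hx : ((740881858 : ℕ) : ℝ) / S ≤ x) (hx' : x ≤ (((740881858 : ℕ) : ℝ) + (40050571 : ℕ)) / S) : AllTB PP.cur (VE (h0 * 0) 3 κ (h0 * x) (eng.v x) (h0 * (1 / 20)) (tnt (h0 * x) (1 / 5)) (tbl tK x) (tbl tL x) (tbl (smT h0⁻¹ tC) x)) 1 0 where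
  pp := all17 (Q := fun a b c => TriB PP.cur (VE (h0 * 0) 3 κ (h0 * x) (eng.v x) (h0 * (1 / 20)) (tnt (h0 * x) (1 / 5)) (tbl tK x) (tbl tL x) (tbl (smT h0⁻¹ tC) x)) a b c 1 0 1 1)
    (BB10_pp_001 hκ hx hx') (BB10_pp_011 hκ hx hx') (BB10_pp_012 hκ hx hx') (BB10_pp_022 hκ hx hx') (BB10_pp_023 hκ hx hx') (BB10_pp_033 hκ hx hx') (BB10_pp_101 hκ hx hx') (BB10_pp_102 hκ hx hx') (BB10_pp_112 hκ hx hx') (BB10_pp_113 hκ hx hx') (BB10_pp_123 hκ hx hx') (BB10_pp_133 hκ hx hx') (BB10_pp_202 hκ hx hx') (BB10_pp_203 hκ hx hx') (BB10_pp_213 hκ hx hx') (BB10_pp_303 hκ hx hx') (BB10_pp_313 hκ hx hx')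
  pm := all17 (Q := fun a b c => TriB PP.cur (VE (h0 * 0) 3 κ (h0 * x) (eng.v x) (h0 * (1 / 20)) (tnt (h0 * x) (1 / 5)) (tbl tK x) (tbl tL x) (tbl (smT h0⁻¹ tC) x)) a b c 1 0 1 (-1))
    (BB10_pm_001 hκ hx hx') (BB10_pm_011 hκ hx hx') (BB10_pm_012 hκ hx hx') (BB10_pm_022 hκ hx hx') (BB10_pm_023 hκ hx hx') (BB10_pm_033 hκ hx hx') (BB10_pm_101 hκ hx hx') (BB10_pm_102 hκ hx hx') (BB10_pm_112 hκ hx hx') (BB10_pm_113 hκ hx hx') (BB10_pm_123 hκ hx hx') (BB10_pm_133 hκ hx hx') (BB10_pm_202 hκ hx hx') (BB10_pm_203 hκ hx hx') (BB10_pm_213 hκ hx hx') (BB10_pm_303 hκ hx hx') (BB10_pm_313 hκ hx hx')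
  mm := all17 (Q := fun a b c => TriB PP.cur (VE (h0 * 0) 3 κ (h0 * x) (eng.v x) (h0 * (1 / 20)) (tnt (h0 * x) (1 / 5)) (tbl tK x) (tbl tL x) (tbl (smT h0⁻¹ tC) x)) a b c 1 0 (-1) (-1))
    (BB10_mm_001 hκ hx hx') (BB10_mm_011 hκ hx hx') (BB10_mm_012 hκ hx hx') (BB10_mm_022 hκ hx hx') (BB10_mm_023 hκ hx hx') (BB10_mm_033 hκ hx hx') (BB10_mm_101 hκ hx hx') (BB10_mm_102 hκ hx hx') (BB10_mm_112 hκ hx hx') (BB10_mm_113 hκ hx hx') (BB10_mm_123 hκ hx hx') (BB10_mm_133 hκ hx hx') (BB10_mm_202 hκ hx hx') (BB10_mm_203 hκ hx hx') (BB10_mm_213 hκ hx hx') (BB10_mm_303 hκ hx hx') (BB10_mm_313 hκ hx hx')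

theorem BB11_pp_001 {κ x : ℝ} (hκ : κ * h0 = ken x) (hx : ((740881858 : ℕ) : ℝ) / S ≤ x) (hx' : x ≤ (((740881858 : ℕ) : ℝ) + (40050571 : ℕ)) / S) :
    TriB PP.cur (VE (h0 * 0) 3 κ (h0 * x) (eng.v x) (h0 * (1 / 20)) (tnt (h0 * x) (1 / 5)) (tbl tK x) (tbl tL x) (tbl (smT h0⁻¹ tC) x)) 0 0 1 1 1 1 1 :=
  (sideB hx hx').bothB (thrB hx hx') (en_pos (hx1 hx).le) (Or.inl rfl) (Or.inl rfl) fun y y' F =>
    bothB_cert (s1 := true) (s2 := true) rfl hκ (en_pos (hx1 hx).le) (esg_rng (hx1 hx).le (hx2 hx').le).1 (mo_v x) covB10 covB11 hx hx'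
        Pool.Agent.Strip051.G.I69_7273.Tab.C.BB11.c_pp_001 noCut_EB noExt_EB F trivial trivial

theorem BB11_pp_011 {κ x : ℝ} (hκ : κ * h0 = ken x) (hx : ((740881858 : ℕ) : ℝ) / S ≤ x) (hx' : x ≤ (((740881858 : ℕ) : ℝ) + (40050571 : ℕ)) / S) :
    TriB PP.cur (VE (h0 * 0) 3 κ (h0 * x) (eng.v x) (h0 * (1 / 20)) (tnt (h0 * x) (1 / 5)) (tbl tK x) (tbl tL x) (tbl (smT h0⁻¹ tC) x)) 0 1 1 1 1 1 1 :=
  (sideB hx hx').bothB (thrB hx hx') (en_pos (hx1 hx).le) (Or.inl rfl) (Or.inl rfl) fun y y' F =>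
    bothB_cert (s1 := true) (s2 := true) rfl hκ (en_pos (hx1 hx).le) (esg_rng (hx1 hx).le (hx2 hx').le).1 (mo_v x) covB10 covB11 hx hx'
        Pool.Agent.Strip051.G.I69_7273.Tab.C.BB11.c_pp_011 noCut_EB noExt_EB F trivial trivial

theorem BB11_pp_012 {κ x : ℝ} (hκ : κ * h0 = ken x) (hx : ((740881858 : ℕ) : ℝ) / S ≤ x) (hx' : x ≤ (((740881858 : ℕ) : ℝ) + (40050571 : ℕ)) / S) :
    TriB PP.cur (VE (h0 * 0) 3 κ (h0 * x) (eng.v x) (h0 * (1 / 20)) (tnt (h0 * x) (1 / 5)) (tbl tK x) (tbl tL x) (tbl (smT h0⁻¹ tC) x)) 0 1 2 1 1 1 1 :=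
  (sideB hx hx').bothB (thrB hx hx') (en_pos (hx1 hx).le) (Or.inl rfl) (Or.inl rfl) fun y y' F =>
    (lt_or_ge (h0 * (y + y')) 1).elim
      (fun g => bothB_cert (s1 := true) (s2 := true) rfl hκ (en_pos (hx1 hx).le) (esg_rng (hx1 hx).le (hx2 hx').le).1 (mo_v x) covB10 covB12a hx hx'
        Pool.Agent.Strip051.G.I69_7273.Tab.C.BB11.c_pp_012_a (cutEB_cons (Pool.Agent.Strip051.G.I69_7273.Tab.altB_B012E_11 hκ hx hx') cutEB_nil) noExt_EB F trivial g)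
      (fun g => bothB_cert (s1 := true) (s2 := true) rfl hκ (en_pos (hx1 hx).le) (esg_rng (hx1 hx).le (hx2 hx').le).1 (mo_v x) covB10 covB12b hx hx'
        Pool.Agent.Strip051.G.I69_7273.Tab.C.BB11.c_pp_012_b (cutEB_cons (Pool.Agent.Strip051.G.I69_7273.Tab.altB_B012E_11 hκ hx hx') cutEB_nil) noExt_EB F trivial g)

theorem BB11_pp_022 {κ x : ℝ} (hκ : κ * h0 = ken x) (hx : ((740881858 : ℕ) : ℝ) / S ≤ x) (hx' : x ≤ (((740881858 : ℕ) : ℝ) + (40050571 : ℕ)) / S) :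
    TriB PP.cur (VE (h0 * 0) 3 κ (h0 * x) (eng.v x) (h0 * (1 / 20)) (tnt (h0 * x) (1 / 5)) (tbl tK x) (tbl tL x) (tbl (smT h0⁻¹ tC) x)) 0 2 2 1 1 1 1 :=
  (sideB hx hx').bothB (thrB hx hx') (en_pos (hx1 hx).le) (Or.inl rfl) (Or.inl rfl) fun y y' F =>
    (lt_or_ge (h0 * (y + y')) 1).elim
      (fun g => bothB_cert (s1 := true) (s2 := true) rfl hκ (en_pos (hx1 hx).le) (esg_rng (hx1 hx).le (hx2 hx').le).1 (mo_v x) covB10 covB12a hx hx'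
        Pool.Agent.Strip051.G.I69_7273.Tab.C.BB11.c_pp_022_a (cutEB_cons (Pool.Agent.Strip051.G.I69_7273.Tab.altB_B022E_11 hκ hx hx') cutEB_nil) noExt_EB F trivial g)
      (fun g => bothB_cert (s1 := true) (s2 := true) rfl hκ (en_pos (hx1 hx).le) (esg_rng (hx1 hx).le (hx2 hx').le).1 (mo_v x) covB10 covB12b hx hx'
        Pool.Agent.Strip051.G.I69_7273.Tab.C.BB11.c_pp_022_b (cutEB_cons (Pool.Agent.Strip051.G.I69_7273.Tab.altB_B022E_11 hκ hx hx') cutEB_nil) noExt_EB F trivial g)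

theorem BB11_pp_023 {κ x : ℝ} (hκ : κ * h0 = ken x) (hx : ((740881858 : ℕ) : ℝ) / S ≤ x) (hx' : x ≤ (((740881858 : ℕ) : ℝ) + (40050571 : ℕ)) / S) :
    TriB PP.cur (VE (h0 * 0) 3 κ (h0 * x) (eng.v x) (h0 * (1 / 20)) (tnt (h0 * x) (1 / 5)) (tbl tK x) (tbl tL x) (tbl (smT h0⁻¹ tC) x)) 0 2 3 1 1 1 1 :=
  (sideB hx hx').bothB (thrB hx hx') (en_pos (hx1 hx).le) (Or.inl rfl) (Or.inl rfl) fun y y' F =>
    bothB_cert (s1 := true) (s2 := true) rfl hκ (en_pos (hx1 hx).le) (esg_rng (hx1 hx).le (hx2 hx').le).1 (mo_v x) covB10 covB13 hx hx'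
        Pool.Agent.Strip051.G.I69_7273.Tab.C.BB11.c_pp_023 noCut_EB noExt_EB F trivial trivial

theorem BB11_pp_033 {κ x : ℝ} (hκ : κ * h0 = ken x) (hx : ((740881858 : ℕ) : ℝ) / S ≤ x) (hx' : x ≤ (((740881858 : ℕ) : ℝ) + (40050571 : ℕ)) / S) :
    TriB PP.cur (VE (h0 * 0) 3 κ (h0 * x) (eng.v x) (h0 * (1 / 20)) (tnt (h0 * x) (1 / 5)) (tbl tK x) (tbl tL x) (tbl (smT h0⁻¹ tC) x)) 0 3 3 1 1 1 1 :=
  (sideB hx hx').bothB (thrB hx hx') (en_pos (hx1 hx).le) (Or.inl rfl) (Or.inl rfl) fun y y' F =>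
    bothB_cert (s1 := true) (s2 := true) rfl hκ (en_pos (hx1 hx).le) (esg_rng (hx1 hx).le (hx2 hx').le).1 (mo_v x) covB10 covB13 hx hx'
        Pool.Agent.Strip051.G.I69_7273.Tab.C.BB11.c_pp_033 noCut_EB noExt_EB F trivial trivial

theorem BB11_pp_101 {κ x : ℝ} (hκ : κ * h0 = ken x) (hx : ((740881858 : ℕ) : ℝ) / S ≤ x) (hx' : x ≤ (((740881858 : ℕ) : ℝ) + (40050571 : ℕ)) / S) :
    TriB PP.cur (VE (h0 * 0) 3 κ (h0 * x) (eng.v x) (h0 * (1 / 20)) (tnt (h0 * x) (1 / 5)) (tbl tK x) (tbl tL x) (tbl (smT h0⁻¹ tC) x)) 1 0 1 1 1 1 1 :=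
  (sideB hx hx').bothB (thrB hx hx') (en_pos (hx1 hx).le) (Or.inl rfl) (Or.inl rfl) fun y y' F =>
    bothB_cert (s1 := true) (s2 := true) rfl hκ (en_pos (hx1 hx).le) (esg_rng (hx1 hx).le (hx2 hx').le).1 (mo_v x) covB11 covB11 hx hx'
        Pool.Agent.Strip051.G.I69_7273.Tab.C.BB11.c_pp_101 noCut_EB noExt_EB F trivial trivial

theorem BB11_pp_102 {κ x : ℝ} (hκ : κ * h0 = ken x) (hx : ((740881858 : ℕ) : ℝ) / S ≤ x) (hx' : x ≤ (((740881858 : ℕ) : ℝ) + (40050571 : ℕ)) / S) :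
    TriB PP.cur (VE (h0 * 0) 3 κ (h0 * x) (eng.v x) (h0 * (1 / 20)) (tnt (h0 * x) (1 / 5)) (tbl tK x) (tbl tL x) (tbl (smT h0⁻¹ tC) x)) 1 0 2 1 1 1 1 :=
  (sideB hx hx').bothB (thrB hx hx') (en_pos (hx1 hx).le) (Or.inl rfl) (Or.inl rfl) fun y y' F =>
    (lt_or_ge (h0 * (y + y')) 1).elim
      (fun g => bothB_cert (s1 := true) (s2 := true) rfl hκ (en_pos (hx1 hx).le) (esg_rng (hx1 hx).le (hx2 hx').le).1 (mo_v x) covB11 covB12a hx hx'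
        Pool.Agent.Strip051.G.I69_7273.Tab.C.BB11.c_pp_102_a noCut_EB noExt_EB F trivial g)
      (fun g => bothB_cert (s1 := true) (s2 := true) rfl hκ (en_pos (hx1 hx).le) (esg_rng (hx1 hx).le (hx2 hx').le).1 (mo_v x) covB11 covB12b hx hx'
        Pool.Agent.Strip051.G.I69_7273.Tab.C.BB11.c_pp_102_b noCut_EB noExt_EB F trivial g)

theorem BB11_pp_112 {κ x : ℝ} (hκ : κ * h0 = ken x) (hx : ((740881858 : ℕ) : ℝ) / S ≤ x) (hx' : x ≤ (((740881858 : ℕ) : ℝ) + (40050571 : ℕ)) / S) :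
    TriB PP.cur (VE (h0 * 0) 3 κ (h0 * x) (eng.v x) (h0 * (1 / 20)) (tnt (h0 * x) (1 / 5)) (tbl tK x) (tbl tL x) (tbl (smT h0⁻¹ tC) x)) 1 1 2 1 1 1 1 :=
  (sideB hx hx').bothB (thrB hx hx') (en_pos (hx1 hx).le) (Or.inl rfl) (Or.inl rfl) fun y y' F =>
    (lt_or_ge (h0 * (y + y')) 1).elim
      (fun g => bothB_cert (s1 := true) (s2 := true) rfl hκ (en_pos (hx1 hx).le) (esg_rng (hx1 hx).le (hx2 hx').le).1 (mo_v x) covB11 covB12a hx hx'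
        Pool.Agent.Strip051.G.I69_7273.Tab.C.BB11.c_pp_112_a noCut_EB noExt_EB F trivial g)
      (fun g => bothB_cert (s1 := true) (s2 := true) rfl hκ (en_pos (hx1 hx).le) (esg_rng (hx1 hx).le (hx2 hx').le).1 (mo_v x) covB11 covB12b hx hx'
        Pool.Agent.Strip051.G.I69_7273.Tab.C.BB11.c_pp_112_b noCut_EB noExt_EB F trivial g)

theorem BB11_pp_113 {κ x : ℝ} (hκ : κ * h0 = ken x) (hx : ((740881858 : ℕ) : ℝ) / S ≤ x) (hx' : x ≤ (((740881858 : ℕ) : ℝ) + (40050571 : ℕ)) / S) :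
    TriB PP.cur (VE (h0 * 0) 3 κ (h0 * x) (eng.v x) (h0 * (1 / 20)) (tnt (h0 * x) (1 / 5)) (tbl tK x) (tbl tL x) (tbl (smT h0⁻¹ tC) x)) 1 1 3 1 1 1 1 :=
  (sideB hx hx').bothB (thrB hx hx') (en_pos (hx1 hx).le) (Or.inl rfl) (Or.inl rfl) fun y y' F =>
    bothB_cert (s1 := true) (s2 := true) rfl hκ (en_pos (hx1 hx).le) (esg_rng (hx1 hx).le (hx2 hx').le).1 (mo_v x) covB11 covB13 hx hx'
        Pool.Agent.Strip051.G.I69_7273.Tab.C.BB11.c_pp_113 noCut_EB noExt_EB F trivial trivial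

theorem BB11_pp_123 {κ x : ℝ} (hκ : κ * h0 = ken x) (hx : ((740881858 : ℕ) : ℝ) / S ≤ x) (hx' : x ≤ (((740881858 : ℕ) : ℝ) + (40050571 : ℕ)) / S) :
    TriB PP.cur (VE (h0 * 0) 3 κ (h0 * x) (eng.v x) (h0 * (1 / 20)) (tnt (h0 * x) (1 / 5)) (tbl tK x) (tbl tL x) (tbl (smT h0⁻¹ tC) x)) 1 2 3 1 1 1 1 :=
  (sideB hx hx').bothB (thrB hx hx') (en_pos (hx1 hx).le) (Or.inl rfl) (Or.inl rfl) fun y y' F =>
    bothB_cert (s1 := true) (s2 := true) rfl hκ (en_pos (hx1 hx).le) (esg_rng (hx1 hx).le (hx2 hx').le).1 (mo_v x) covB11 covB13 hx hx'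
        Pool.Agent.Strip051.G.I69_7273.Tab.C.BB11.c_pp_123 noCut_EB noExt_EB F trivial trivial

theorem BB11_pp_133 {κ x : ℝ} (hκ : κ * h0 = ken x) (hx : ((740881858 : ℕ) : ℝ) / S ≤ x) (hx' : x ≤ (((740881858 : ℕ) : ℝ) + (40050571 : ℕ)) / S) :
    TriB PP.cur (VE (h0 * 0) 3 κ (h0 * x) (eng.v x) (h0 * (1 / 20)) (tnt (h0 * x) (1 / 5)) (tbl tK x) (tbl tL x) (tbl (smT h0⁻¹ tC) x)) 1 3 3 1 1 1 1 :=
  (sideB hx hx').bothB (thrB hx hx') (en_pos (hx1 hx).le) (Or.inl rfl) (Or.inl rfl) fun y y' F =>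
    bothB_cert (s1 := true) (s2 := true) rfl hκ (en_pos (hx1 hx).le) (esg_rng (hx1 hx).le (hx2 hx').le).1 (mo_v x) covB11 covB13 hx hx'
        Pool.Agent.Strip051.G.I69_7273.Tab.C.BB11.c_pp_133 noCut_EB noExt_EB F trivial trivial

theorem BB11_pp_202 {κ x : ℝ} (hκ : κ * h0 = ken x) (hx : ((740881858 : ℕ) : ℝ) / S ≤ x) (hx' : x ≤ (((740881858 : ℕ) : ℝ) + (40050571 : ℕ)) / S) :
    TriB PP.cur (VE (h0 * 0) 3 κ (h0 * x) (eng.v x) (h0 * (1 / 20)) (tnt (h0 * x) (1 / 5)) (tbl tK x) (tbl tL x) (tbl (smT h0⁻¹ tC) x)) 2 0 2 1 1 1 1 :=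
  (sideB hx hx').bothB (thrB hx hx') (en_pos (hx1 hx).le) (Or.inl rfl) (Or.inl rfl) fun y y' F =>
    (lt_or_ge (h0 * y) 1).elim
      (fun h => (lt_or_ge (h0 * (y + y')) 1).elim
        (fun g => bothB_cert (s1 := true) (s2 := true) rfl hκ (en_pos (hx1 hx).le) (esg_rng (hx1 hx).le (hx2 hx').le).1 (mo_v x) covB12a covB12a hx hx'
        Pool.Agent.Strip051.G.I69_7273.Tab.C.BB11.c_pp_202_aa noCut_EB noExt_EB F h g)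
        (fun g => bothB_cert (s1 := true) (s2 := true) rfl hκ (en_pos (hx1 hx).le) (esg_rng (hx1 hx).le (hx2 hx').le).1 (mo_v x) covB12a covB12b hx hx'
        Pool.Agent.Strip051.G.I69_7273.Tab.C.BB11.c_pp_202_ab noCut_EB noExt_EB F h g))
      (fun h => (lt_or_ge (h0 * (y + y')) 1).elim
        (fun g => bothB_cert (s1 := true) (s2 := true) rfl hκ (en_pos (hx1 hx).le) (esg_rng (hx1 hx).le (hx2 hx').le).1 (mo_v x) covB12b covB12a hx hx'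
        Pool.Agent.Strip051.G.I69_7273.Tab.C.BB11.c_pp_202_ba noCut_EB noExt_EB F h g)
        (fun g => bothB_cert (s1 := true) (s2 := true) rfl hκ (en_pos (hx1 hx).le) (esg_rng (hx1 hx).le (hx2 hx').le).1 (mo_v x) covB12b covB12b hx hx'
        Pool.Agent.Strip051.G.I69_7273.Tab.C.BB11.c_pp_202_bb noCut_EB noExt_EB F h g))

theorem BB11_pp_203 {κ x : ℝ} (hκ : κ * h0 = ken x) (hx : ((740881858 : ℕ) : ℝ) / S ≤ x) (hx' : x ≤ (((740881858 : ℕ) : ℝ) + (40050571 : ℕ)) / S) :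
    TriB PP.cur (VE (h0 * 0) 3 κ (h0 * x) (eng.v x) (h0 * (1 / 20)) (tnt (h0 * x) (1 / 5)) (tbl tK x) (tbl tL x) (tbl (smT h0⁻¹ tC) x)) 2 0 3 1 1 1 1 :=
  (sideB hx hx').bothB (thrB hx hx') (en_pos (hx1 hx).le) (Or.inl rfl) (Or.inl rfl) fun y y' F =>
    (lt_or_ge (h0 * y) 1).elim
      (fun h => bothB_cert (s1 := true) (s2 := true) rfl hκ (en_pos (hx1 hx).le) (esg_rng (hx1 hx).le (hx2 hx').le).1 (mo_v x) covB12a covB13 hx hx'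
        Pool.Agent.Strip051.G.I69_7273.Tab.C.BB11.c_pp_203_a noCut_EB noExt_EB F h trivial)
      (fun h => bothB_cert (s1 := true) (s2 := true) rfl hκ (en_pos (hx1 hx).le) (esg_rng (hx1 hx).le (hx2 hx').le).1 (mo_v x) covB12b covB13 hx hx'
        Pool.Agent.Strip051.G.I69_7273.Tab.C.BB11.c_pp_203_b noCut_EB noExt_EB F h trivial)

theorem BB11_pp_213 {κ x : ℝ} (hκ : κ * h0 = ken x) (hx : ((740881858 : ℕ) : ℝ) / S ≤ x) (hx' : x ≤ (((740881858 : ℕ) : ℝ) + (40050571 : ℕ)) / S) :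
    TriB PP.cur (VE (h0 * 0) 3 κ (h0 * x) (eng.v x) (h0 * (1 / 20)) (tnt (h0 * x) (1 / 5)) (tbl tK x) (tbl tL x) (tbl (smT h0⁻¹ tC) x)) 2 1 3 1 1 1 1 :=
  (sideB hx hx').bothB (thrB hx hx') (en_pos (hx1 hx).le) (Or.inl rfl) (Or.inl rfl) fun y y' F =>
    (lt_or_ge (h0 * y) 1).elim
      (fun h => bothB_cert (s1 := true) (s2 := true) rfl hκ (en_pos (hx1 hx).le) (esg_rng (hx1 hx).le (hx2 hx').le).1 (mo_v x) covB12a covB13 hx hx'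
        Pool.Agent.Strip051.G.I69_7273.Tab.C.BB11.c_pp_213_a (cutEB_cons (Pool.Agent.Strip051.G.I69_7273.Tab.alt12B_B213_11p hκ hx hx') cutEB_nil) noExt_EB F h trivial)
      (fun h => bothB_cert (s1 := true) (s2 := true) rfl hκ (en_pos (hx1 hx).le) (esg_rng (hx1 hx).le (hx2 hx').le).1 (mo_v x) covB12b covB13 hx hx'
        Pool.Agent.Strip051.G.I69_7273.Tab.C.BB11.c_pp_213_b (cutEB_cons (Pool.Agent.Strip051.G.I69_7273.Tab.alt12B_B213_11p hκ hx hx') cutEB_nil) noExt_EB F h trivial)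

theorem BB11_pp_303 {κ x : ℝ} (hκ : κ * h0 = ken x) (hx : ((740881858 : ℕ) : ℝ) / S ≤ x) (hx' : x ≤ (((740881858 : ℕ) : ℝ) + (40050571 : ℕ)) / S) :
    TriB PP.cur (VE (h0 * 0) 3 κ (h0 * x) (eng.v x) (h0 * (1 / 20)) (tnt (h0 * x) (1 / 5)) (tbl tK x) (tbl tL x) (tbl (smT h0⁻¹ tC) x)) 3 0 3 1 1 1 1 :=
  (sideB hx hx').bothB (thrB hx hx') (en_pos (hx1 hx).le) (Or.inl rfl) (Or.inl rfl) fun y y' F =>
    bothB_cert (s1 := true) (s2 := true) rfl hκ (en_pos (hx1 hx).le) (esg_rng (hx1 hx).le (hx2 hx').le).1 (mo_v x) covB13 covB13 hx hx'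
        Pool.Agent.Strip051.G.I69_7273.Tab.C.BB11.c_pp_303 noCut_EB noExt_EB F trivial trivial

theorem BB11_pp_313 {κ x : ℝ} (hκ : κ * h0 = ken x) (hx : ((740881858 : ℕ) : ℝ) / S ≤ x) (hx' : x ≤ (((740881858 : ℕ) : ℝ) + (40050571 : ℕ)) / S) :
    TriB PP.cur (VE (h0 * 0) 3 κ (h0 * x) (eng.v x) (h0 * (1 / 20)) (tnt (h0 * x) (1 / 5)) (tbl tK x) (tbl tL x) (tbl (smT h0⁻¹ tC) x)) 3 1 3 1 1 1 1 :=
  (sideB hx hx').bothB (thrB hx hx') (en_pos (hx1 hx).le) (Or.inl rfl) (Or.inl rfl) fun y y' F =>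
    bothB_cert (s1 := true) (s2 := true) rfl hκ (en_pos (hx1 hx).le) (esg_rng (hx1 hx).le (hx2 hx').le).1 (mo_v x) covB13 covB13 hx hx'
        Pool.Agent.Strip051.G.I69_7273.Tab.C.BB11.c_pp_313 noCut_EB noExt_EB F trivial trivial

theorem BB11_pm_001 {κ x : ℝ} (hκ : κ * h0 = ken x) (hx : ((740881858 : ℕ) : ℝ) / S ≤ x) (hx' : x ≤ (((740881858 : ℕ) : ℝ) + (40050571 : ℕ)) / S) :
    TriB PP.cur (VE (h0 * 0) 3 κ (h0 * x) (eng.v x) (h0 * (1 / 20)) (tnt (h0 * x) (1 / 5)) (tbl tK x) (tbl tL x) (tbl (smT h0⁻¹ tC) x)) 0 0 1 1 1 1 (-1) :=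
  (sideB hx hx').bothB (thrB hx hx') (en_pos (hx1 hx).le) (Or.inl rfl) (Or.inr rfl) fun y y' F =>
    bothB_cert (s1 := true) (s2 := false) rfl hκ (en_pos (hx1 hx).le) (esg_rng (hx1 hx).le (hx2 hx').le).1 (mo_v x) covB10 covB11 hx hx'
        Pool.Agent.Strip051.G.I69_7273.Tab.C.BB11.c_pm_001 noCut_EB noExt_EB F trivial trivial

theorem BB11_pm_011 {κ x : ℝ} (hκ : κ * h0 = ken x) (hx : ((740881858 : ℕ) : ℝ) / S ≤ x) (hx' : x ≤ (((740881858 : ℕ) : ℝ) + (40050571 : ℕ)) / S) :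
    TriB PP.cur (VE (h0 * 0) 3 κ (h0 * x) (eng.v x) (h0 * (1 / 20)) (tnt (h0 * x) (1 / 5)) (tbl tK x) (tbl tL x) (tbl (smT h0⁻¹ tC) x)) 0 1 1 1 1 1 (-1) :=
  (sideB hx hx').bothB (thrB hx hx') (en_pos (hx1 hx).le) (Or.inl rfl) (Or.inr rfl) fun y y' F =>
    bothB_cert (s1 := true) (s2 := false) rfl hκ (en_pos (hx1 hx).le) (esg_rng (hx1 hx).le (hx2 hx').le).1 (mo_v x) covB10 covB11 hx hx'
        Pool.Agent.Strip051.G.I69_7273.Tab.C.BB11.c_pm_011 noCut_EB noExt_EB F trivial trivial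

theorem BB11_pm_012 {κ x : ℝ} (hκ : κ * h0 = ken x) (hx : ((740881858 : ℕ) : ℝ) / S ≤ x) (hx' : x ≤ (((740881858 : ℕ) : ℝ) + (40050571 : ℕ)) / S) :
    TriB PP.cur (VE (h0 * 0) 3 κ (h0 * x) (eng.v x) (h0 * (1 / 20)) (tnt (h0 * x) (1 / 5)) (tbl tK x) (tbl tL x) (tbl (smT h0⁻¹ tC) x)) 0 1 2 1 1 1 (-1) :=
  (sideB hx hx').bothB (thrB hx hx') (en_pos (hx1 hx).le) (Or.inl rfl) (Or.inr rfl) fun y y' F =>
    (lt_or_ge (h0 * (y + y')) 1).elim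
      (fun g => bothB_cert (s1 := true) (s2 := false) rfl hκ (en_pos (hx1 hx).le) (esg_rng (hx1 hx).le (hx2 hx').le).1 (mo_v x) covB10 covB12a hx hx'
        Pool.Agent.Strip051.G.I69_7273.Tab.C.BB11.c_pm_012_a (cutEB_cons (Pool.Agent.Strip051.G.I69_7273.Tab.altB_B012R_11 hκ hx hx') cutEB_nil) noExt_EB F trivial g)
      (fun g => bothB_cert (s1 := true) (s2 := false) rfl hκ (en_pos (hx1 hx).le) (esg_rng (hx1 hx).le (hx2 hx').le).1 (mo_v x) covB10 covB12b hx hx'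
        Pool.Agent.Strip051.G.I69_7273.Tab.C.BB11.c_pm_012_b (cutEB_cons (Pool.Agent.Strip051.G.I69_7273.Tab.altB_B012R_11 hκ hx hx') cutEB_nil) noExt_EB F trivial g)

theorem BB11_pm_022 {κ x : ℝ} (hκ : κ * h0 = ken x) (hx : ((740881858 : ℕ) : ℝ) / S ≤ x) (hx' : x ≤ (((740881858 : ℕ) : ℝ) + (40050571 : ℕ)) / S) :
    TriB PP.cur (VE (h0 * 0) 3 κ (h0 * x) (eng.v x) (h0 * (1 / 20)) (tnt (h0 * x) (1 / 5)) (tbl tK x) (tbl tL x) (tbl (smT h0⁻¹ tC) x)) 0 2 2 1 1 1 (-1) :=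
  (sideB hx hx').bothB (thrB hx hx') (en_pos (hx1 hx).le) (Or.inl rfl) (Or.inr rfl) fun y y' F =>
    (lt_or_ge (h0 * (y + y')) 1).elim
      (fun g => bothB_cert (s1 := true) (s2 := false) rfl hκ (en_pos (hx1 hx).le) (esg_rng (hx1 hx).le (hx2 hx').le).1 (mo_v x) covB10 covB12a hx hx'
        Pool.Agent.Strip051.G.I69_7273.Tab.C.BB11.c_pm_022_a (cutEB_cons (Pool.Agent.Strip051.G.I69_7273.Tab.altB_B022R_11 hκ hx hx') cutEB_nil) noExt_EB F trivial g)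
      (fun g => bothB_cert (s1 := true) (s2 := false) rfl hκ (en_pos (hx1 hx).le) (esg_rng (hx1 hx).le (hx2 hx').le).1 (mo_v x) covB10 covB12b hx hx'
        Pool.Agent.Strip051.G.I69_7273.Tab.C.BB11.c_pm_022_b (cutEB_cons (Pool.Agent.Strip051.G.I69_7273.Tab.altB_B022R_11 hκ hx hx') cutEB_nil) noExt_EB F trivial g)

theorem BB11_pm_023 {κ x : ℝ} (hκ : κ * h0 = ken x) (hx : ((740881858 : ℕ) : ℝ) / S ≤ x) (hx' : x ≤ (((740881858 : ℕ) : ℝ) + (40050571 : ℕ)) / S) :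
    TriB PP.cur (VE (h0 * 0) 3 κ (h0 * x) (eng.v x) (h0 * (1 / 20)) (tnt (h0 * x) (1 / 5)) (tbl tK x) (tbl tL x) (tbl (smT h0⁻¹ tC) x)) 0 2 3 1 1 1 (-1) :=
  (sideB hx hx').bothB (thrB hx hx') (en_pos (hx1 hx).le) (Or.inl rfl) (Or.inr rfl) fun y y' F =>
    bothB_cert (s1 := true) (s2 := false) rfl hκ (en_pos (hx1 hx).le) (esg_rng (hx1 hx).le (hx2 hx').le).1 (mo_v x) covB10 covB13 hx hx'
        Pool.Agent.Strip051.G.I69_7273.Tab.C.BB11.c_pm_023 noCut_EB noExt_EB F trivial trivial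

theorem BB11_pm_033 {κ x : ℝ} (hκ : κ * h0 = ken x) (hx : ((740881858 : ℕ) : ℝ) / S ≤ x) (hx' : x ≤ (((740881858 : ℕ) : ℝ) + (40050571 : ℕ)) / S) :
    TriB PP.cur (VE (h0 * 0) 3 κ (h0 * x) (eng.v x) (h0 * (1 / 20)) (tnt (h0 * x) (1 / 5)) (tbl tK x) (tbl tL x) (tbl (smT h0⁻¹ tC) x)) 0 3 3 1 1 1 (-1) :=
  (sideB hx hx').bothB (thrB hx hx') (en_pos (hx1 hx).le) (Or.inl rfl) (Or.inr rfl) fun y y' F =>
    bothB_cert (s1 := true) (s2 := false) rfl hκ (en_pos (hx1 hx).le) (esg_rng (hx1 hx).le (hx2 hx').le).1 (mo_v x) covB10 covB13 hx hx'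
        Pool.Agent.Strip051.G.I69_7273.Tab.C.BB11.c_pm_033 noCut_EB noExt_EB F trivial trivial

theorem BB11_pm_101 {κ x : ℝ} (hκ : κ * h0 = ken x) (hx : ((740881858 : ℕ) : ℝ) / S ≤ x) (hx' : x ≤ (((740881858 : ℕ) : ℝ) + (40050571 : ℕ)) / S) :
    TriB PP.cur (VE (h0 * 0) 3 κ (h0 * x) (eng.v x) (h0 * (1 / 20)) (tnt (h0 * x) (1 / 5)) (tbl tK x) (tbl tL x) (tbl (smT h0⁻¹ tC) x)) 1 0 1 1 1 1 (-1) :=
  (sideB hx hx').bothB (thrB hx hx') (en_pos (hx1 hx).le) (Or.inl rfl) (Or.inr rfl) fun y y' F =>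
    bothB_cert (s1 := true) (s2 := false) rfl hκ (en_pos (hx1 hx).le) (esg_rng (hx1 hx).le (hx2 hx').le).1 (mo_v x) covB11 covB11 hx hx'
        Pool.Agent.Strip051.G.I69_7273.Tab.C.BB11.c_pm_101 noCut_EB noExt_EB F trivial trivial

theorem BB11_pm_102 {κ x : ℝ} (hκ : κ * h0 = ken x) (hx : ((740881858 : ℕ) : ℝ) / S ≤ x) (hx' : x ≤ (((740881858 : ℕ) : ℝ) + (40050571 : ℕ)) / S) :
    TriB PP.cur (VE (h0 * 0) 3 κ (h0 * x) (eng.v x) (h0 * (1 / 20)) (tnt (h0 * x) (1 / 5)) (tbl tK x) (tbl tL x) (tbl (smT h0⁻¹ tC) x)) 1 0 2 1 1 1 (-1) :=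
  (sideB hx hx').bothB (thrB hx hx') (en_pos (hx1 hx).le) (Or.inl rfl) (Or.inr rfl) fun y y' F =>
    (lt_or_ge (h0 * (y + y')) 1).elim
      (fun g => bothB_cert (s1 := true) (s2 := false) rfl hκ (en_pos (hx1 hx).le) (esg_rng (hx1 hx).le (hx2 hx').le).1 (mo_v x) covB11 covB12a hx hx'
        Pool.Agent.Strip051.G.I69_7273.Tab.C.BB11.c_pm_102_a noCut_EB noExt_EB F trivial g)
      (fun g => bothB_cert (s1 := true) (s2 := false) rfl hκ (en_pos (hx1 hx).le) (esg_rng (hx1 hx).le (hx2 hx').le).1 (mo_v x) covB11 covB12b hx hx'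
        Pool.Agent.Strip051.G.I69_7273.Tab.C.BB11.c_pm_102_b noCut_EB noExt_EB F trivial g)

theorem BB11_pm_112 {κ x : ℝ} (hκ : κ * h0 = ken x) (hx : ((740881858 : ℕ) : ℝ) / S ≤ x) (hx' : x ≤ (((740881858 : ℕ) : ℝ) + (40050571 : ℕ)) / S) :
    TriB PP.cur (VE (h0 * 0) 3 κ (h0 * x) (eng.v x) (h0 * (1 / 20)) (tnt (h0 * x) (1 / 5)) (tbl tK x) (tbl tL x) (tbl (smT h0⁻¹ tC) x)) 1 1 2 1 1 1 (-1) :=
  (sideB hx hx').bothB (thrB hx hx') (en_pos (hx1 hx).le) (Or.inl rfl) (Or.inr rfl) fun y y' F =>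
    (lt_or_ge (h0 * (y + y')) 1).elim
      (fun g => bothB_cert (s1 := true) (s2 := false) rfl hκ (en_pos (hx1 hx).le) (esg_rng (hx1 hx).le (hx2 hx').le).1 (mo_v x) covB11 covB12a hx hx'
        Pool.Agent.Strip051.G.I69_7273.Tab.C.BB11.c_pm_112_a noCut_EB noExt_EB F trivial g)
      (fun g => bothB_cert (s1 := true) (s2 := false) rfl hκ (en_pos (hx1 hx).le) (esg_rng (hx1 hx).le (hx2 hx').le).1 (mo_v x) covB11 covB12b hx hx'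
        Pool.Agent.Strip051.G.I69_7273.Tab.C.BB11.c_pm_112_b noCut_EB noExt_EB F trivial g)

theorem BB11_pm_113 {κ x : ℝ} (hκ : κ * h0 = ken x) (hx : ((740881858 : ℕ) : ℝ) / S ≤ x) (hx' : x ≤ (((740881858 : ℕ) : ℝ) + (40050571 : ℕ)) / S) :
    TriB PP.cur (VE (h0 * 0) 3 κ (h0 * x) (eng.v x) (h0 * (1 / 20)) (tnt (h0 * x) (1 / 5)) (tbl tK x) (tbl tL x) (tbl (smT h0⁻¹ tC) x)) 1 1 3 1 1 1 (-1) :=
  (sideB hx hx').bothB (thrB hx hx') (en_pos (hx1 hx).le) (Or.inl rfl) (Or.inr rfl) fun y y' F =>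
    bothB_cert (s1 := true) (s2 := false) rfl hκ (en_pos (hx1 hx).le) (esg_rng (hx1 hx).le (hx2 hx').le).1 (mo_v x) covB11 covB13 hx hx'
        Pool.Agent.Strip051.G.I69_7273.Tab.C.BB11.c_pm_113 noCut_EB noExt_EB F trivial trivial

theorem BB11_pm_123 {κ x : ℝ} (hκ : κ * h0 = ken x) (hx : ((740881858 : ℕ) : ℝ) / S ≤ x) (hx' : x ≤ (((740881858 : ℕ) : ℝ) + (40050571 : ℕ)) / S) :
    TriB PP.cur (VE (h0 * 0) 3 κ (h0 * x) (eng.v x) (h0 * (1 / 20)) (tnt (h0 * x) (1 / 5)) (tbl tK x) (tbl tL x) (tbl (smT h0⁻¹ tC) x)) 1 2 3 1 1 1 (-1) :=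
  (sideB hx hx').bothB (thrB hx hx') (en_pos (hx1 hx).le) (Or.inl rfl) (Or.inr rfl) fun y y' F =>
    bothB_cert (s1 := true) (s2 := false) rfl hκ (en_pos (hx1 hx).le) (esg_rng (hx1 hx).le (hx2 hx').le).1 (mo_v x) covB11 covB13 hx hx'
        Pool.Agent.Strip051.G.I69_7273.Tab.C.BB11.c_pm_123 noCut_EB noExt_EB F trivial trivial

theorem BB11_pm_133 {κ x : ℝ} (hκ : κ * h0 = ken x) (hx : ((740881858 : ℕ) : ℝ) / S ≤ x) (hx' : x ≤ (((740881858 : ℕ) : ℝ) + (40050571 : ℕ)) / S) :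
    TriB PP.cur (VE (h0 * 0) 3 κ (h0 * x) (eng.v x) (h0 * (1 / 20)) (tnt (h0 * x) (1 / 5)) (tbl tK x) (tbl tL x) (tbl (smT h0⁻¹ tC) x)) 1 3 3 1 1 1 (-1) :=
  (sideB hx hx').bothB (thrB hx hx') (en_pos (hx1 hx).le) (Or.inl rfl) (Or.inr rfl) fun y y' F =>
    bothB_cert (s1 := true) (s2 := false) rfl hκ (en_pos (hx1 hx).le) (esg_rng (hx1 hx).le (hx2 hx').le).1 (mo_v x) covB11 covB13 hx hx'
        Pool.Agent.Strip051.G.I69_7273.Tab.C.BB11.c_pm_133 noCut_EB noExt_EB F trivial trivial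

theorem BB11_pm_202 {κ x : ℝ} (hκ : κ * h0 = ken x) (hx : ((740881858 : ℕ) : ℝ) / S ≤ x) (hx' : x ≤ (((740881858 : ℕ) : ℝ) + (40050571 : ℕ)) / S) :
    TriB PP.cur (VE (h0 * 0) 3 κ (h0 * x) (eng.v x) (h0 * (1 / 20)) (tnt (h0 * x) (1 / 5)) (tbl tK x) (tbl tL x) (tbl (smT h0⁻¹ tC) x)) 2 0 2 1 1 1 (-1) :=
  (sideB hx hx').bothB (thrB hx hx') (en_pos (hx1 hx).le) (Or.inl rfl) (Or.inr rfl) fun y y' F =>
    (lt_or_ge (h0 * y) 1).elim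
      (fun h => (lt_or_ge (h0 * (y + y')) 1).elim
        (fun g => bothB_cert (s1 := true) (s2 := false) rfl hκ (en_pos (hx1 hx).le) (esg_rng (hx1 hx).le (hx2 hx').le).1 (mo_v x) covB12a covB12a hx hx'
        Pool.Agent.Strip051.G.I69_7273.Tab.C.BB11.c_pm_202_aa (cutEB_cons (Pool.Agent.Strip051.G.I69_7273.Tab.altB_B202E_11 hκ hx hx') cutEB_nil) noExt_EB F h g)
        (fun g => bothB_cert (s1 := true) (s2 := false) rfl hκ (en_pos (hx1 hx).le) (esg_rng (hx1 hx).le (hx2 hx').le).1 (mo_v x) covB12a covB12b hx hx'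
        Pool.Agent.Strip051.G.I69_7273.Tab.C.BB11.c_pm_202_ab (cutEB_cons (Pool.Agent.Strip051.G.I69_7273.Tab.altB_B202E_11 hκ hx hx') cutEB_nil) noExt_EB F h g))
      (fun h => (lt_or_ge (h0 * (y + y')) 1).elim
        (fun g => bothB_cert (s1 := true) (s2 := false) rfl hκ (en_pos (hx1 hx).le) (esg_rng (hx1 hx).le (hx2 hx').le).1 (mo_v x) covB12b covB12a hx hx'
        Pool.Agent.Strip051.G.I69_7273.Tab.C.BB11.c_pm_202_ba (cutEB_cons (Pool.Agent.Strip051.G.I69_7273.Tab.altB_B202E_11 hκ hx hx') cutEB_nil) noExt_EB F h g)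
        (fun g => bothB_cert (s1 := true) (s2 := false) rfl hκ (en_pos (hx1 hx).le) (esg_rng (hx1 hx).le (hx2 hx').le).1 (mo_v x) covB12b covB12b hx hx'
        Pool.Agent.Strip051.G.I69_7273.Tab.C.BB11.c_pm_202_bb (cutEB_cons (Pool.Agent.Strip051.G.I69_7273.Tab.altB_B202E_11 hκ hx hx') cutEB_nil) noExt_EB F h g))

theorem BB11_pm_203 {κ x : ℝ} (hκ : κ * h0 = ken x) (hx : ((740881858 : ℕ) : ℝ) / S ≤ x) (hx' : x ≤ (((740881858 : ℕ) : ℝ) + (40050571 : ℕ)) / S) :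
    TriB PP.cur (VE (h0 * 0) 3 κ (h0 * x) (eng.v x) (h0 * (1 / 20)) (tnt (h0 * x) (1 / 5)) (tbl tK x) (tbl tL x) (tbl (smT h0⁻¹ tC) x)) 2 0 3 1 1 1 (-1) :=
  (sideB hx hx').bothB (thrB hx hx') (en_pos (hx1 hx).le) (Or.inl rfl) (Or.inr rfl) fun y y' F =>
    (lt_or_ge (h0 * y) 1).elim
      (fun h => bothB_cert (s1 := true) (s2 := false) rfl hκ (en_pos (hx1 hx).le) (esg_rng (hx1 hx).le (hx2 hx').le).1 (mo_v x) covB12a covB13 hx hx'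
        Pool.Agent.Strip051.G.I69_7273.Tab.C.BB11.c_pm_203_a noCut_EB noExt_EB F h trivial)
      (fun h => bothB_cert (s1 := true) (s2 := false) rfl hκ (en_pos (hx1 hx).le) (esg_rng (hx1 hx).le (hx2 hx').le).1 (mo_v x) covB12b covB13 hx hx'
        Pool.Agent.Strip051.G.I69_7273.Tab.C.BB11.c_pm_203_b noCut_EB noExt_EB F h trivial)

theorem BB11_pm_213 {κ x : ℝ} (hκ : κ * h0 = ken x) (hx : ((740881858 : ℕ) : ℝ) / S ≤ x) (hx' : x ≤ (((740881858 : ℕ) : ℝ) + (40050571 : ℕ)) / S) :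
    TriB PP.cur (VE (h0 * 0) 3 κ (h0 * x) (eng.v x) (h0 * (1 / 20)) (tnt (h0 * x) (1 / 5)) (tbl tK x) (tbl tL x) (tbl (smT h0⁻¹ tC) x)) 2 1 3 1 1 1 (-1) :=
  (sideB hx hx').bothB (thrB hx hx') (en_pos (hx1 hx).le) (Or.inl rfl) (Or.inr rfl) fun y y' F =>
    (lt_or_ge (h0 * y) 1).elim
      (fun h => bothB_cert (s1 := true) (s2 := false) rfl hκ (en_pos (hx1 hx).le) (esg_rng (hx1 hx).le (hx2 hx').le).1 (mo_v x) covB12a covB13 hx hx'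
        Pool.Agent.Strip051.G.I69_7273.Tab.C.BB11.c_pm_213_a (cutEB_cons (Pool.Agent.Strip051.G.I69_7273.Tab.alt12B_B213_11m hκ hx hx') cutEB_nil) noExt_EB F h trivial)
      (fun h => bothB_cert (s1 := true) (s2 := false) rfl hκ (en_pos (hx1 hx).le) (esg_rng (hx1 hx).le (hx2 hx').le).1 (mo_v x) covB12b covB13 hx hx'
        Pool.Agent.Strip051.G.I69_7273.Tab.C.BB11.c_pm_213_b (cutEB_cons (Pool.Agent.Strip051.G.I69_7273.Tab.alt12B_B213_11m hκ hx hx') cutEB_nil) noExt_EB F h trivial)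

theorem BB11_pm_303 {κ x : ℝ} (hκ : κ * h0 = ken x) (hx : ((740881858 : ℕ) : ℝ) / S ≤ x) (hx' : x ≤ (((740881858 : ℕ) : ℝ) + (40050571 : ℕ)) / S) :
    TriB PP.cur (VE (h0 * 0) 3 κ (h0 * x) (eng.v x) (h0 * (1 / 20)) (tnt (h0 * x) (1 / 5)) (tbl tK x) (tbl tL x) (tbl (smT h0⁻¹ tC) x)) 3 0 3 1 1 1 (-1) :=
  (sideB hx hx').bothB (thrB hx hx') (en_pos (hx1 hx).le) (Or.inl rfl) (Or.inr rfl) fun y y' F =>
    bothB_cert (s1 := true) (s2 := false) rfl hκ (en_pos (hx1 hx).le) (esg_rng (hx1 hx).le (hx2 hx').le).1 (mo_v x) covB13 covB13 hx hx'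
        Pool.Agent.Strip051.G.I69_7273.Tab.C.BB11.c_pm_303 noCut_EB noExt_EB F trivial trivial

theorem BB11_pm_313 {κ x : ℝ} (hκ : κ * h0 = ken x) (hx : ((740881858 : ℕ) : ℝ) / S ≤ x) (hx' : x ≤ (((740881858 : ℕ) : ℝ) + (40050571 : ℕ)) / S) :
    TriB PP.cur (VE (h0 * 0) 3 κ (h0 * x) (eng.v x) (h0 * (1 / 20)) (tnt (h0 * x) (1 / 5)) (tbl tK x) (tbl tL x) (tbl (smT h0⁻¹ tC) x)) 3 1 3 1 1 1 (-1) :=
  (sideB hx hx').bothB (thrB hx hx') (en_pos (hx1 hx).le) (Or.inl rfl) (Or.inr rfl) fun y y' F =>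
    bothB_cert (s1 := true) (s2 := false) rfl hκ (en_pos (hx1 hx).le) (esg_rng (hx1 hx).le (hx2 hx').le).1 (mo_v x) covB13 covB13 hx hx'
        Pool.Agent.Strip051.G.I69_7273.Tab.C.BB11.c_pm_313 noCut_EB noExt_EB F trivial trivial

theorem BB11_mm_001 {κ x : ℝ} (hκ : κ * h0 = ken x) (hx : ((740881858 : ℕ) : ℝ) / S ≤ x) (hx' : x ≤ (((740881858 : ℕ) : ℝ) + (40050571 : ℕ)) / S) :
    TriB PP.cur (VE (h0 * 0) 3 κ (h0 * x) (eng.v x) (h0 * (1 / 20)) (tnt (h0 * x) (1 / 5)) (tbl tK x) (tbl tL x) (tbl (smT h0⁻¹ tC) x)) 0 0 1 1 1 (-1) (-1) :=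
  (sideB hx hx').bothB (thrB hx hx') (en_pos (hx1 hx).le) (Or.inr rfl) (Or.inr rfl) fun y y' F =>
    bothB_cert (s1 := false) (s2 := false) rfl hκ (en_pos (hx1 hx).le) (esg_rng (hx1 hx).le (hx2 hx').le).1 (mo_v x) covB10 covB11 hx hx'
        Pool.Agent.Strip051.G.I69_7273.Tab.C.BB11.c_mm_001 noCut_EB noExt_EB F trivial trivial

theorem BB11_mm_011 {κ x : ℝ} (hκ : κ * h0 = ken x) (hx : ((740881858 : ℕ) : ℝ) / S ≤ x) (hx' : x ≤ (((740881858 : ℕ) : ℝ) + (40050571 : ℕ)) / S) :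
    TriB PP.cur (VE (h0 * 0) 3 κ (h0 * x) (eng.v x) (h0 * (1 / 20)) (tnt (h0 * x) (1 / 5)) (tbl tK x) (tbl tL x) (tbl (smT h0⁻¹ tC) x)) 0 1 1 1 1 (-1) (-1) :=
  (sideB hx hx').bothB (thrB hx hx') (en_pos (hx1 hx).le) (Or.inr rfl) (Or.inr rfl) fun y y' F =>
    bothB_cert (s1 := false) (s2 := false) rfl hκ (en_pos (hx1 hx).le) (esg_rng (hx1 hx).le (hx2 hx').le).1 (mo_v x) covB10 covB11 hx hx'
        Pool.Agent.Strip051.G.I69_7273.Tab.C.BB11.c_mm_011 noCut_EB noExt_EB F trivial trivial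

theorem BB11_mm_012 {κ x : ℝ} (hκ : κ * h0 = ken x) (hx : ((740881858 : ℕ) : ℝ) / S ≤ x) (hx' : x ≤ (((740881858 : ℕ) : ℝ) + (40050571 : ℕ)) / S) :
    TriB PP.cur (VE (h0 * 0) 3 κ (h0 * x) (eng.v x) (h0 * (1 / 20)) (tnt (h0 * x) (1 / 5)) (tbl tK x) (tbl tL x) (tbl (smT h0⁻¹ tC) x)) 0 1 2 1 1 (-1) (-1) :=
  (sideB hx hx').bothB (thrB hx hx') (en_pos (hx1 hx).le) (Or.inr rfl) (Or.inr rfl) fun y y' F =>
    (lt_or_ge (h0 * (y + y')) 1).elim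
      (fun g => bothB_cert (s1 := false) (s2 := false) rfl hκ (en_pos (hx1 hx).le) (esg_rng (hx1 hx).le (hx2 hx').le).1 (mo_v x) covB10 covB12a hx hx'
        Pool.Agent.Strip051.G.I69_7273.Tab.C.BB11.c_mm_012_a noCut_EB noExt_EB F trivial g)
      (fun g => bothB_cert (s1 := false) (s2 := false) rfl hκ (en_pos (hx1 hx).le) (esg_rng (hx1 hx).le (hx2 hx').le).1 (mo_v x) covB10 covB12b hx hx'
        Pool.Agent.Strip051.G.I69_7273.Tab.C.BB11.c_mm_012_b noCut_EB noExt_EB F trivial g)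

theorem BB11_mm_022 {κ x : ℝ} (hκ : κ * h0 = ken x) (hx : ((740881858 : ℕ) : ℝ) / S ≤ x) (hx' : x ≤ (((740881858 : ℕ) : ℝ) + (40050571 : ℕ)) / S) :
    TriB PP.cur (VE (h0 * 0) 3 κ (h0 * x) (eng.v x) (h0 * (1 / 20)) (tnt (h0 * x) (1 / 5)) (tbl tK x) (tbl tL x) (tbl (smT h0⁻¹ tC) x)) 0 2 2 1 1 (-1) (-1) :=
  (sideB hx hx').bothB (thrB hx hx') (en_pos (hx1 hx).le) (Or.inr rfl) (Or.inr rfl) fun y y' F =>
    (lt_or_ge (h0 * (y + y')) 1).elim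
      (fun g => bothB_cert (s1 := false) (s2 := false) rfl hκ (en_pos (hx1 hx).le) (esg_rng (hx1 hx).le (hx2 hx').le).1 (mo_v x) covB10 covB12a hx hx'
        Pool.Agent.Strip051.G.I69_7273.Tab.C.BB11.c_mm_022_a noCut_EB noExt_EB F trivial g)
      (fun g => bothB_cert (s1 := false) (s2 := false) rfl hκ (en_pos (hx1 hx).le) (esg_rng (hx1 hx).le (hx2 hx').le).1 (mo_v x) covB10 covB12b hx hx'
        Pool.Agent.Strip051.G.I69_7273.Tab.C.BB11.c_mm_022_b noCut_EB noExt_EB F trivial g)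

theorem BB11_mm_023 {κ x : ℝ} (hκ : κ * h0 = ken x) (hx : ((740881858 : ℕ) : ℝ) / S ≤ x) (hx' : x ≤ (((740881858 : ℕ) : ℝ) + (40050571 : ℕ)) / S) :
    TriB PP.cur (VE (h0 * 0) 3 κ (h0 * x) (eng.v x) (h0 * (1 / 20)) (tnt (h0 * x) (1 / 5)) (tbl tK x) (tbl tL x) (tbl (smT h0⁻¹ tC) x)) 0 2 3 1 1 (-1) (-1) :=
  (sideB hx hx').bothB (thrB hx hx') (en_pos (hx1 hx).le) (Or.inr rfl) (Or.inr rfl) fun y y' F =>
    bothB_cert (s1 := false) (s2 := false) rfl hκ (en_pos (hx1 hx).le) (esg_rng (hx1 hx).le (hx2 hx').le).1 (mo_v x) covB10 covB13 hx hx'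
        Pool.Agent.Strip051.G.I69_7273.Tab.C.BB11.c_mm_023 noCut_EB noExt_EB F trivial trivial

theorem BB11_mm_033 {κ x : ℝ} (hκ : κ * h0 = ken x) (hx : ((740881858 : ℕ) : ℝ) / S ≤ x) (hx' : x ≤ (((740881858 : ℕ) : ℝ) + (40050571 : ℕ)) / S) :
    TriB PP.cur (VE (h0 * 0) 3 κ (h0 * x) (eng.v x) (h0 * (1 / 20)) (tnt (h0 * x) (1 / 5)) (tbl tK x) (tbl tL x) (tbl (smT h0⁻¹ tC) x)) 0 3 3 1 1 (-1) (-1) :=
  (sideB hx hx').bothB (thrB hx hx') (en_pos (hx1 hx).le) (Or.inr rfl) (Or.inr rfl) fun y y' F =>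
    bothB_cert (s1 := false) (s2 := false) rfl hκ (en_pos (hx1 hx).le) (esg_rng (hx1 hx).le (hx2 hx').le).1 (mo_v x) covB10 covB13 hx hx'
        Pool.Agent.Strip051.G.I69_7273.Tab.C.BB11.c_mm_033 noCut_EB noExt_EB F trivial trivial

theorem BB11_mm_101 {κ x : ℝ} (hκ : κ * h0 = ken x) (hx : ((740881858 : ℕ) : ℝ) / S ≤ x) (hx' : x ≤ (((740881858 : ℕ) : ℝ) + (40050571 : ℕ)) / S) :
    TriB PP.cur (VE (h0 * 0) 3 κ (h0 * x) (eng.v x) (h0 * (1 / 20)) (tnt (h0 * x) (1 / 5)) (tbl tK x) (tbl tL x) (tbl (smT h0⁻¹ tC) x)) 1 0 1 1 1 (-1) (-1) :=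
  (sideB hx hx').bothB (thrB hx hx') (en_pos (hx1 hx).le) (Or.inr rfl) (Or.inr rfl) fun y y' F =>
    bothB_cert (s1 := false) (s2 := false) rfl hκ (en_pos (hx1 hx).le) (esg_rng (hx1 hx).le (hx2 hx').le).1 (mo_v x) covB11 covB11 hx hx'
        Pool.Agent.Strip051.G.I69_7273.Tab.C.BB11.c_mm_101 noCut_EB noExt_EB F trivial trivial

theorem BB11_mm_102 {κ x : ℝ} (hκ : κ * h0 = ken x) (hx : ((740881858 : ℕ) : ℝ) / S ≤ x) (hx' : x ≤ (((740881858 : ℕ) : ℝ) + (40050571 : ℕ)) / S) :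
    TriB PP.cur (VE (h0 * 0) 3 κ (h0 * x) (eng.v x) (h0 * (1 / 20)) (tnt (h0 * x) (1 / 5)) (tbl tK x) (tbl tL x) (tbl (smT h0⁻¹ tC) x)) 1 0 2 1 1 (-1) (-1) :=
  (sideB hx hx').bothB (thrB hx hx') (en_pos (hx1 hx).le) (Or.inr rfl) (Or.inr rfl) fun y y' F =>
    (lt_or_ge (h0 * (y + y')) 1).elim
      (fun g => bothB_cert (s1 := false) (s2 := false) rfl hκ (en_pos (hx1 hx).le) (esg_rng (hx1 hx).le (hx2 hx').le).1 (mo_v x) covB11 covB12a hx hx'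
        Pool.Agent.Strip051.G.I69_7273.Tab.C.BB11.c_mm_102_a noCut_EB noExt_EB F trivial g)
      (fun g => bothB_cert (s1 := false) (s2 := false) rfl hκ (en_pos (hx1 hx).le) (esg_rng (hx1 hx).le (hx2 hx').le).1 (mo_v x) covB11 covB12b hx hx'
        Pool.Agent.Strip051.G.I69_7273.Tab.C.BB11.c_mm_102_b noCut_EB noExt_EB F trivial g)

theorem BB11_mm_112 {κ x : ℝ} (hκ : κ * h0 = ken x) (hx : ((740881858 : ℕ) : ℝ) / S ≤ x) (hx' : x ≤ (((740881858 : ℕ) : ℝ) + (40050571 : ℕ)) / S) :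
    TriB PP.cur (VE (h0 * 0) 3 κ (h0 * x) (eng.v x) (h0 * (1 / 20)) (tnt (h0 * x) (1 / 5)) (tbl tK x) (tbl tL x) (tbl (smT h0⁻¹ tC) x)) 1 1 2 1 1 (-1) (-1) :=
  (sideB hx hx').bothB (thrB hx hx') (en_pos (hx1 hx).le) (Or.inr rfl) (Or.inr rfl) fun y y' F =>
    (lt_or_ge (h0 * (y + y')) 1).elim
      (fun g => bothB_cert (s1 := false) (s2 := false) rfl hκ (en_pos (hx1 hx).le) (esg_rng (hx1 hx).le (hx2 hx').le).1 (mo_v x) covB11 covB12a hx hx'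
        Pool.Agent.Strip051.G.I69_7273.Tab.C.BB11.c_mm_112_a noCut_EB noExt_EB F trivial g)
      (fun g => bothB_cert (s1 := false) (s2 := false) rfl hκ (en_pos (hx1 hx).le) (esg_rng (hx1 hx).le (hx2 hx').le).1 (mo_v x) covB11 covB12b hx hx'
        Pool.Agent.Strip051.G.I69_7273.Tab.C.BB11.c_mm_112_b noCut_EB noExt_EB F trivial g)

theorem BB11_mm_113 {κ x : ℝ} (hκ : κ * h0 = ken x) (hx : ((740881858 : ℕ) : ℝ) / S ≤ x) (hx' : x ≤ (((740881858 : ℕ) : ℝ) + (40050571 : ℕ)) / S) :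
    TriB PP.cur (VE (h0 * 0) 3 κ (h0 * x) (eng.v x) (h0 * (1 / 20)) (tnt (h0 * x) (1 / 5)) (tbl tK x) (tbl tL x) (tbl (smT h0⁻¹ tC) x)) 1 1 3 1 1 (-1) (-1) :=
  (sideB hx hx').bothB (thrB hx hx') (en_pos (hx1 hx).le) (Or.inr rfl) (Or.inr rfl) fun y y' F =>
    bothB_cert (s1 := false) (s2 := false) rfl hκ (en_pos (hx1 hx).le) (esg_rng (hx1 hx).le (hx2 hx').le).1 (mo_v x) covB11 covB13 hx hx'
        Pool.Agent.Strip051.G.I69_7273.Tab.C.BB11.c_mm_113 noCut_EB noExt_EB F trivial trivial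

theorem BB11_mm_123 {κ x : ℝ} (hκ : κ * h0 = ken x) (hx : ((740881858 : ℕ) : ℝ) / S ≤ x) (hx' : x ≤ (((740881858 : ℕ) : ℝ) + (40050571 : ℕ)) / S) :
    TriB PP.cur (VE (h0 * 0) 3 κ (h0 * x) (eng.v x) (h0 * (1 / 20)) (tnt (h0 * x) (1 / 5)) (tbl tK x) (tbl tL x) (tbl (smT h0⁻¹ tC) x)) 1 2 3 1 1 (-1) (-1) :=
  (sideB hx hx').bothB (thrB hx hx') (en_pos (hx1 hx).le) (Or.inr rfl) (Or.inr rfl) fun y y' F =>
    bothB_cert (s1 := false) (s2 := false) rfl hκ (en_pos (hx1 hx).le) (esg_rng (hx1 hx).le (hx2 hx').le).1 (mo_v x) covB11 covB13 hx hx'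
        Pool.Agent.Strip051.G.I69_7273.Tab.C.BB11.c_mm_123 noCut_EB noExt_EB F trivial trivial

theorem BB11_mm_133 {κ x : ℝ} (hκ : κ * h0 = ken x) (hx : ((740881858 : ℕ) : ℝ) / S ≤ x) (hx' : x ≤ (((740881858 : ℕ) : ℝ) + (40050571 : ℕ)) / S) :
    TriB PP.cur (VE (h0 * 0) 3 κ (h0 * x) (eng.v x) (h0 * (1 / 20)) (tnt (h0 * x) (1 / 5)) (tbl tK x) (tbl tL x) (tbl (smT h0⁻¹ tC) x)) 1 3 3 1 1 (-1) (-1) :=
  (sideB hx hx').bothB (thrB hx hx') (en_pos (hx1 hx).le) (Or.inr rfl) (Or.inr rfl) fun y y' F =>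
    bothB_cert (s1 := false) (s2 := false) rfl hκ (en_pos (hx1 hx).le) (esg_rng (hx1 hx).le (hx2 hx').le).1 (mo_v x) covB11 covB13 hx hx'
        Pool.Agent.Strip051.G.I69_7273.Tab.C.BB11.c_mm_133 noCut_EB noExt_EB F trivial trivial

theorem BB11_mm_202 {κ x : ℝ} (hκ : κ * h0 = ken x) (hx : ((740881858 : ℕ) : ℝ) / S ≤ x) (hx' : x ≤ (((740881858 : ℕ) : ℝ) + (40050571 : ℕ)) / S) :
    TriB PP.cur (VE (h0 * 0) 3 κ (h0 * x) (eng.v x) (h0 * (1 / 20)) (tnt (h0 * x) (1 / 5)) (tbl tK x) (tbl tL x) (tbl (smT h0⁻¹ tC) x)) 2 0 2 1 1 (-1) (-1) :=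
  (sideB hx hx').bothB (thrB hx hx') (en_pos (hx1 hx).le) (Or.inr rfl) (Or.inr rfl) fun y y' F =>
    (lt_or_ge (h0 * y) 1).elim
      (fun h => (lt_or_ge (h0 * (y + y')) 1).elim
        (fun g => bothB_cert (s1 := false) (s2 := false) rfl hκ (en_pos (hx1 hx).le) (esg_rng (hx1 hx).le (hx2 hx').le).1 (mo_v x) covB12a covB12a hx hx'
        Pool.Agent.Strip051.G.I69_7273.Tab.C.BB11.c_mm_202_aa noCut_EB noExt_EB F h g)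
        (fun g => bothB_cert (s1 := false) (s2 := false) rfl hκ (en_pos (hx1 hx).le) (esg_rng (hx1 hx).le (hx2 hx').le).1 (mo_v x) covB12a covB12b hx hx'
        Pool.Agent.Strip051.G.I69_7273.Tab.C.BB11.c_mm_202_ab noCut_EB noExt_EB F h g))
      (fun h => (lt_or_ge (h0 * (y + y')) 1).elim
        (fun g => bothB_cert (s1 := false) (s2 := false) rfl hκ (en_pos (hx1 hx).le) (esg_rng (hx1 hx).le (hx2 hx').le).1 (mo_v x) covB12b covB12a hx hx'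
        Pool.Agent.Strip051.G.I69_7273.Tab.C.BB11.c_mm_202_ba noCut_EB noExt_EB F h g)
        (fun g => bothB_cert (s1 := false) (s2 := false) rfl hκ (en_pos (hx1 hx).le) (esg_rng (hx1 hx).le (hx2 hx').le).1 (mo_v x) covB12b covB12b hx hx'
        Pool.Agent.Strip051.G.I69_7273.Tab.C.BB11.c_mm_202_bb noCut_EB noExt_EB F h g))

theorem BB11_mm_203 {κ x : ℝ} (hκ : κ * h0 = ken x) (hx : ((740881858 : ℕ) : ℝ) / S ≤ x) (hx' : x ≤ (((740881858 : ℕ) : ℝ) + (40050571 : ℕ)) / S) :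
    TriB PP.cur (VE (h0 * 0) 3 κ (h0 * x) (eng.v x) (h0 * (1 / 20)) (tnt (h0 * x) (1 / 5)) (tbl tK x) (tbl tL x) (tbl (smT h0⁻¹ tC) x)) 2 0 3 1 1 (-1) (-1) :=
  (sideB hx hx').bothB (thrB hx hx') (en_pos (hx1 hx).le) (Or.inr rfl) (Or.inr rfl) fun y y' F =>
    (lt_or_ge (h0 * y) 1).elim
      (fun h => bothB_cert (s1 := false) (s2 := false) rfl hκ (en_pos (hx1 hx).le) (esg_rng (hx1 hx).le (hx2 hx').le).1 (mo_v x) covB12a covB13 hx hx'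
        Pool.Agent.Strip051.G.I69_7273.Tab.C.BB11.c_mm_203_a noCut_EB noExt_EB F h trivial)
      (fun h => bothB_cert (s1 := false) (s2 := false) rfl hκ (en_pos (hx1 hx).le) (esg_rng (hx1 hx).le (hx2 hx').le).1 (mo_v x) covB12b covB13 hx hx'
        Pool.Agent.Strip051.G.I69_7273.Tab.C.BB11.c_mm_203_b noCut_EB noExt_EB F h trivial)

theorem BB11_mm_213 {κ x : ℝ} (hκ : κ * h0 = ken x) (hx : ((740881858 : ℕ) : ℝ) / S ≤ x) (hx' : x ≤ (((740881858 : ℕ) : ℝ) + (40050571 : ℕ)) / S) :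
    TriB PP.cur (VE (h0 * 0) 3 κ (h0 * x) (eng.v x) (h0 * (1 / 20)) (tnt (h0 * x) (1 / 5)) (tbl tK x) (tbl tL x) (tbl (smT h0⁻¹ tC) x)) 2 1 3 1 1 (-1) (-1) :=
  (sideB hx hx').bothB (thrB hx hx') (en_pos (hx1 hx).le) (Or.inr rfl) (Or.inr rfl) fun y y' F =>
    (lt_or_ge (h0 * y) 1).elim
      (fun h => bothB_cert (s1 := false) (s2 := false) rfl hκ (en_pos (hx1 hx).le) (esg_rng (hx1 hx).le (hx2 hx').le).1 (mo_v x) covB12a covB13 hx hx'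
        Pool.Agent.Strip051.G.I69_7273.Tab.C.BB11.c_mm_213_a noCut_EB noExt_EB F h trivial)
      (fun h => bothB_cert (s1 := false) (s2 := false) rfl hκ (en_pos (hx1 hx).le) (esg_rng (hx1 hx).le (hx2 hx').le).1 (mo_v x) covB12b covB13 hx hx'
        Pool.Agent.Strip051.G.I69_7273.Tab.C.BB11.c_mm_213_b noCut_EB noExt_EB F h trivial)

theorem BB11_mm_303 {κ x : ℝ} (hκ : κ * h0 = ken x) (hx : ((740881858 : ℕ) : ℝ) / S ≤ x) (hx' : x ≤ (((740881858 : ℕ) : ℝ) + (40050571 : ℕ)) / S) :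
    TriB PP.cur (VE (h0 * 0) 3 κ (h0 * x) (eng.v x) (h0 * (1 / 20)) (tnt (h0 * x) (1 / 5)) (tbl tK x) (tbl tL x) (tbl (smT h0⁻¹ tC) x)) 3 0 3 1 1 (-1) (-1) :=
  (sideB hx hx').bothB (thrB hx hx') (en_pos (hx1 hx).le) (Or.inr rfl) (Or.inr rfl) fun y y' F =>
    bothB_cert (s1 := false) (s2 := false) rfl hκ (en_pos (hx1 hx).le) (esg_rng (hx1 hx).le (hx2 hx').le).1 (mo_v x) covB13 covB13 hx hx'
        Pool.Agent.Strip051.G.I69_7273.Tab.C.BB11.c_mm_303 noCut_EB noExt_EB F trivial trivial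

theorem BB11_mm_313 {κ x : ℝ} (hκ : κ * h0 = ken x) (hx : ((740881858 : ℕ) : ℝ) / S ≤ x) (hx' : x ≤ (((740881858 : ℕ) : ℝ) + (40050571 : ℕ)) / S) :
    TriB PP.cur (VE (h0 * 0) 3 κ (h0 * x) (eng.v x) (h0 * (1 / 20)) (tnt (h0 * x) (1 / 5)) (tbl tK x) (tbl tL x) (tbl (smT h0⁻¹ tC) x)) 3 1 3 1 1 (-1) (-1) :=
  (sideB hx hx').bothB (thrB hx hx') (en_pos (hx1 hx).le) (Or.inr rfl) (Or.inr rfl) fun y y' F =>
    bothB_cert (s1 := false) (s2 := false) rfl hκ (en_pos (hx1 hx).le) (esg_rng (hx1 hx).le (hx2 hx').le).1 (mo_v x) covB13 covB13 hx hx'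
        Pool.Agent.Strip051.G.I69_7273.Tab.C.BB11.c_mm_313 noCut_EB noExt_EB F trivial trivial

theorem BB11 {κ x : ℝ} (hκ : κ * h0 = ken x) (hx : ((740881858 : ℕ) : ℝ) / S ≤ x) (hx' : x ≤ (((740881858 : ℕ) : ℝ) + (40050571 : ℕ)) / S) : AllTB PP.cur (VE (h0 * 0) 3 κ (h0 * x) (eng.v x) (h0 * (1 / 20)) (tnt (h0 * x) (1 / 5)) (tbl tK x) (tbl tL x) (tbl (smT h0⁻¹ tC) x)) 1 1 where
  pp := all17 (Q := fun a b c => TriB PP.cur (VE (h0 * 0) 3 κ (h0 * x) (eng.v x) (h0 * (1 / 20)) (tnt (h0 * x) (1 / 5)) (tbl tK x) (tbl tL x) (tbl (smT h0⁻¹ tC) x)) a b c 1 1 1 1)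
    (BB11_pp_001 hκ hx hx') (BB11_pp_011 hκ hx hx') (BB11_pp_012 hκ hx hx') (BB11_pp_022 hκ hx hx') (BB11_pp_023 hκ hx hx') (BB11_pp_033 hκ hx hx') (BB11_pp_101 hκ hx hx') (BB11_pp_102 hκ hx hx') (BB11_pp_112 hκ hx hx') (BB11_pp_113 hκ hx hx') (BB11_pp_123 hκ hx hx') (BB11_pp_133 hκ hx hx') (BB11_pp_202 hκ hx hx') (BB11_pp_203 hκ hx hx') (BB11_pp_213 hκ hx hx') (BB11_pp_303 hκ hx hx') (BB11_pp_313 hκ hx hx')
  pm := all17 (Q := fun a b c => TriB PP.cur (VE (h0 * 0) 3 κ (h0 * x) (eng.v x) (h0 * (1 / 20)) (tnt (h0 * x) (1 / 5)) (tbl tK x) (tbl tL x) (tbl (smT h0⁻¹ tC) x)) a b c 1 1 1 (-1))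
    (BB11_pm_001 hκ hx hx') (BB11_pm_011 hκ hx hx') (BB11_pm_012 hκ hx hx') (BB11_pm_022 hκ hx hx') (BB11_pm_023 hκ hx hx') (BB11_pm_033 hκ hx hx') (BB11_pm_101 hκ hx hx') (BB11_pm_102 hκ hx hx') (BB11_pm_112 hκ hx hx') (BB11_pm_113 hκ hx hx') (BB11_pm_123 hκ hx hx') (BB11_pm_133 hκ hx hx') (BB11_pm_202 hκ hx hx') (BB11_pm_203 hκ hx hx') (BB11_pm_213 hκ hx hx') (BB11_pm_303 hκ hx hx') (BB11_pm_313 hκ hx hx')
  mm := all17 (Q := fun a b c => TriB PP.cur (VE (h0 * 0) 3 κ (h0 * x) (eng.v x) (h0 * (1 / 20)) (tnt (h0 * x) (1 / 5)) (tbl tK x) (tbl tL x) (tbl (smT h0⁻¹ tC) x)) a b c 1 1 (-1) (-1))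
    (BB11_mm_001 hκ hx hx') (BB11_mm_011 hκ hx hx') (BB11_mm_012 hκ hx hx') (BB11_mm_022 hκ hx hx') (BB11_mm_023 hκ hx hx') (BB11_mm_033 hκ hx hx') (BB11_mm_101 hκ hx hx') (BB11_mm_102 hκ hx hx') (BB11_mm_112 hκ hx hx') (BB11_mm_113 hκ hx hx') (BB11_mm_123 hκ hx hx') (BB11_mm_133 hκ hx hx') (BB11_mm_202 hκ hx hx') (BB11_mm_203 hκ hx hx') (BB11_mm_213 hκ hx hx') (BB11_mm_303 hκ hx hx') (BB11_mm_313 hκ hx hx')

end Pool.Agent.Strip051.G.I69_7273.Tab
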