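import Pool.Agent.Strip051.G.I69_7273.Tab

/-! # Certificates B19 (generated) -/

set_option linter.all false
set_option maxRecDepth 100000

namespace Pool.Agent.Strip051.G.I69_7273.Tab.C.BB10

open Pool.Agent.Strip051.PB Pool.Agent.Strip051.PB.T
open Pool.Agent.Strip051.G.I69_7273.Tab

noncomputable def cut_pp_012 : Cut := Cut.of [[⟨0, 0, 0, 67108864⟩, ⟨1, 1, 0, 67108864⟩, ⟨2, 1, 0, 67108864⟩]]

noncomputable def f_pp_012 : ℕ → ℕ → ℕ → ℕ → Bool := onCell 536870912 536870912 0 536870912 740881858 40050571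
    (rowB 3 eng mog cd1q0 cd0q2 pd1 2 false true true .pnp 0 1 2 (qsf 0 536870912 0 536870912 1) ndB1q0 ndB0q2 pcB1 cut_pp_012 Ext.none)

def k0_pp_012 : ∃ t, chk3 f_pp_012 t 2 1 1 = true :=
  ⟨(b (a (b (l 2) (b (l 2) (l 3))) (b (a (a (a (l 2) (b (l 16655024) (l 16694952))) (b (l 16640216) (b (l 16670264) (l 16690880)))) (b (l 16611224) (b (a (l 16653280) (l 16634496)) (a (l 16673184) (l 16656144))))) (a (b (a (b (a (l 16712184) (l 16707384)) (b (a (b (l 204648377303) (l 206326027319)) (l 16704024)) (a (l 3) (b (l 156397094359) (l 197736089383))))) (b (l 16704576) (a (b (l 16700960) (a (l 16710432) (l 16683000))) (l 16703544)))) (a (l 3) (b (a (b (b (l 182166892487) (l 199883570167)) (l 3)) (b (a (l 140827812759) (l 16676680)) (b (l 189683062167) (l 3)))) (l 3)))) (b (a (b (l 16692456) (a (l 16705752) (l 16703704))) (b (l 16677432) (l 16696528))) (a (b (a (b (l 16695632) (a (l 160692035415) (l 16697080))) (b (l 16705656) (l 16693240))) (b (a (b (a (l 3) (l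 175724379207)) (l 3)) (b (l 130090385783) (a (l 173576899911) (l 16685824)))) (a (l 3) (l 185388066711)))) (b (a (l 16708536) (l 16709064)) (a (b (l 16695344) (a (l 167134487223) (l 132774752695))) (b (l 16709480) (l 16702552))))))))) (a (l 3) (b (a (l 3) (b (a (l 3) (b (a (b (l 184851209383) (l 3)) (b (a (l 155860184023) (l 132774763655)) (l 188609324631))) (l 3))) (l 3))) (l 3)))), by decide +kernel⟩

def k1_pp_012 : ∃ t, chk3 f_pp_012 t 6 2 1 = true :=
  ⟨(b (a (b (l 16578584) (b (l 16608664) (l 16716248))) (b (l 16551392) (l 16630216))) (a (b (b (a (l 16660424) (l 16644536)) (a (l 16683264) (l 16666888))) (a (b (l 16704080) (b (l 16716280) (a (l 16711808) (l 16721352)))) (b (l 16691952) (a (l 16718208) (l 16713344))))) (b (b (l 16619296) (a (l 16650392) (l 16634048))) (a (b (l 16674616) (a (l 16705448) (l 16696072))) (b (l 16657552) (l 16724216)))))), by decide +kernel⟩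

def k2_pp_012 : ∃ t, chk3 f_pp_012 t 6 6 1 = true :=
  ⟨(a (b (a (b (a (b (l 16710568) (b (l 129553546119) (l 155860211431))) (b (l 16711032) (a (l 16712136) (l 16712128)))) (a (l 3) (b (a (l 154249617959) (a (l 142438460199) (l 130627313559))) (l 3)))) (b (a (b (l 16727016) (l 16713856)) (l 16711448)) (a (a (b (l 88214513207) (l 147270325911)) (b (l 16725504) (b (l 100025673287) (l 142975369447)))) (b (a (l 16725176) (l 16724784)) (b (a (l 16736248) (l 16734080)) (a (a (l 129016728311) (l 16744576)) (l 16742360))))))) (a (l 3) (b (a (l 3) (b (b (a (l 139754159399) (b (l 107005025671) (l 118816180791))) (a (l 3) (b (l 135459180903) (l 3)))) (l 3))) (l 3)))) (b (b (a (a (l 16729912) (l 16721864)) (a (l 16712232) (l 16702864))) (a (a (b (l 16733832) (a (l 16735168) (l 16732528))) (b (l 16737712) (l 16735672))) (a (l 16716312) (l 16706232)))) (a (b (a (b (a (b (l 16747512) (a (l 125258634215) (l 115594971735))) (b (l 16743016) (l 16741240))) (a (b (a (l 3)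 (l 133311731095)) (l 3)) (b (a (l 121500546711) (l 116131849255)) (l 136532944967)))) (b (a (l 16742400) (l 16738264)) (a (b (a (l 16756640) (l 16753512)) (a (l 129553617063) (l 114521242999))) (b (l 16749024) (a (l 16759232) (l 16755952)))))) (b (a (l 3) (a (l 3) (b (a (l 132237975879) (l 115058117815)) (l 3)))) (l 3))) (b (a (b (l 16738552) (a (l 16747720) (l 16743664))) (b (l 16743648) (l 16742976))) (b (a (a (b (a (l 16771776) (l 16758168)) (a (l 134385483735) (l 104320729255))) (b (l 16753952) (l 108615666631))) (a (l 16752720) (l 16748896))) (a (b (a (l 3) (a (l 133311744983) (l 103246991303))) (l 3)) (a (b (l 109689411335) (l 123111198119)) (b (l 16758208) (l 110763154567))))))))), by decide +kernel⟩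

def k3_pp_012 : ∃ t, chk3 f_pp_012 t 6 7 1 = true :=
  ⟨(a (l 3) (b (a (l 3) (b (b (a (l 3) (b (a (l 3) (b (l 105931354727) (l 165524006279))) (l 3))) (l 3)) (l 3))) (l 3))), by decide +kernel⟩

def k4_pp_012 : ∃ t, chk3 f_pp_012 t 7 2 1 = true :=
  ⟨(b (a (b (a (l 16536160) (l 16529672)) (a (l 16569400) (l 16560496))) (b (a (l 16525960) (l 16525096)) (a (l 16555640) (l 16555784)))) (a (b (a (l 16609016) (l 16598040)) (a (b (l 16643040) (a (l 16670576) (l 16664096))) (b (l 16631072) (l 16655576)))) (b (a (l 16591256) (b (l 16580024) (l 16593536))) (a (b (l 16623456) (l 16648368)) (b (l 16603608) (l 16612488)))))), by decide +kernel⟩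

def k5_pp_012 : ∃ t, chk3 f_pp_012 t 7 6 1 = true :=
  ⟨(a (b (a (b (a (l 16694296) (l 16686680)) (a (l 16696936) (l 16708752))) (b (l 16699496) (a (l 16679704) (l 16695184)))) (a (b (a (b (l 16735576) (l 16746848)) (b (l 16725656) (l 16737304))) (a (b (l 16769232) (a (l 16757000) (l 16752976))) (b (l 16748392) (a (l 16750376) (l 16754416))))) (b (a (b (l 16716088) (l 16726896)) (l 16714072)) (a (b (l 16737624) (l 16747768)) (l 16733536))))) (b (b (a (l 16662176) (l 16634040)) (a (a (l 16690496) (l 16669528)) (a (l 16648600) (l 16607960)))) (b (a (a (l 16710184) (l 16690864)) (a (l 16669480) (b (l 16621080) (l 16653432)))) (a (a (l 16727800) (l 16715424)) (a (l 16694672) (a (l 16657240) (l 16687664))))))), by decide +kernel⟩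

def k6_pp_012 : ∃ t, chk3 f_pp_012 t 14 14 1 = true :=
  ⟨(a (b (a (b (b (a (a (l 16778576) (l 16765440)) (l 16761416)) (a (b (l 140291063607) (l 3)) (a (l 105931348935) (l 16766256)))) (a (l 3) (a (l 3) (b (l 165524005287) (l 3))))) (a (a (b (l 16781232) (b (l 127943059543) (l 3))) (b (l 16757544) (b (l 16766544) (l 199346874471)))) (b (l 16774880) (b (l 16761736) (b (l 16787704) (a (l 183240760215) (l 16768640))))))) (a (l 3) (a (l 3) (a (l 3) (b (b (l 233706614439) (l 3)) (l 3)))))) (b (a (b (a (l 16751576) (l 16753864)) (a (b (l 16756056) (l 16761920)) (l 16753976))) (b (l 16747280) (a (l 16755928) (l 16754064)))) (a (b (a (b (b (a (l 16779344) (l 16765424)) (a (l 235854094183) (l 170355852791))) (b (a (l 3) (l 231559127671)) (l 3))) (c (b (l 16761576) (b (a (l 169818976935) (l 16765336)) (a (l 222432321335) (l 171429593271)))) (b (l 16763336) (a (l 224579804391) (l 167134632535))))) (a (l 3) (b (b (a (l 3) (b (a (l 3) (l 216526748967)) (l 3))) (l 3))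 (l 3)))) (b (a (b (l 16757504) (a (b (l 16763232) (l 16766296)) (l 16761496))) (l 16776976)) (a (b (b (a (b (l 169282104599) (a (l 218674230135) (l 16769120))) (l 16765648)) (c (a (b (l 223506060103) (l 3)) (b (l 176261420471) (a (l 219747960727) (l 182166998343)))) (a (l 233169741735) (l 183240752471)))) (b (a (l 3) (b (a (l 3) (c (l 219211089543) (l 222969194935))) (l 3))) (l 3))) (a (c (b (l 16763472) (b (b (a (l 185925094663) (l 16766488)) (a (l 219211089527) (l 190220062263))) (b (a (l 3) (l 218674218807)) (l 3)))) (b (l 16764680) (b (l 190220073479) (l 232632869079)))) (b (l 16761472) (b (l 16765688) (c (b (a (l 193978158999) (l 16766904)) (a (b (l 209010541671) (l 225653542103)) (l 197736256087))) (b (l 16768480) (l 210084284823))))))))))), by decide +kernel⟩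

def k7_pp_012 : ∃ t, chk3 f_pp_012 t 14 15 1 = true :=
  ⟨(a (l 3) (b (a (l 3) (b (a (l 3) (b (a (l 3) (b (b (a (l 3) (c (b (l 215989864087) (l 226190413591)) (l 227801026967))) (l 3)) (l 3))) (l 3))) (l 3))) (l 3))), by decide +kernel⟩

def k8_pp_012 : ∃ t, chk3 f_pp_012 t 15 14 1 = true :=
  ⟨(a (b (a (b (l 16739552) (l 16726200)) (b (l 16732800) (l 16739408))) (a (b (a (l 16757664) (l 16753696)) (a (b (l 16758776) (a (c (l 16764456) (l 16765336)) (l 16762920))) (b (l 16760344) (l 16760992)))) (b (l 16747672) (a (l 16759416) (l 16755424))))) (a (b (a (l 16729088) (l 16718296)) (b (l 16740528) (a (l 16751464) (l 16747744)))) (b (a (l 16707144) (b (l 16688280) (l 16681776))) (a (a (l 16735744) (l 16751048)) (b (l 16715672) (l 6)))))), by decide +kernel⟩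

def k9_pp_012 : ∃ t, chk3 f_pp_012 t 15 15 1 = true :=
  ⟨(a (b (a (b (b (a (c (a (b (a (b (l 200420611495) (l 220284833223)) (b (l 16767664) (l 200420612327))) (a (l 3) (b (l 224579801351) (l 3)))) (b (l 16766880) (a (b (l 200420613255) (l 228337898679)) (b (l 16768656) (l 199883743703))))) (a (b (b (l 200957485703) (l 216526736855)) (l 233706612519)) (b (l 16767576) (a (l 221358576247) (l 204178712759))))) (a (b (l 16765400) (l 16768272)) (l 16765296))) (a (a (l 3) (a (l 3) (b (c (l 234780352967) (l 235854095927)) (l 3)))) (a (b (a (b (c (l 199883744807) (l 16773928)) (l 233169739463)) (b (l 16770024) (l 203104973639))) (a (l 3) (l 235854097479))) (b (l 16769488) (a (b (l 202568104087) (l 233706612711)) (b (l 16771240) (l 202031234407))))))) (a (l 3) (b (a (l 3) (b (a (l 3) (l 236390970823)) (l 3))) (l 3)))) (b (a (b (l 16763920) (a (b (l 16768016) (l 16770792)) (l 16768024))) (b (l 16763112) (l 16767800))) (a (b (a (a (b (a (l 220821712039) (l 203641852695))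 (l 3)) (b (l 193441305127) (l 236390973383))) (b (l 16772072) (a (b (l 200420625799) (l 233706617783)) (l 197199403975)))) (a (l 3) (b (l 235854106631) (l 3)))) (b (a (b (l 16770544) (l 16773216)) (l 16770320)) (a (b (a (b (l 199346886935) (l 229411652791)) (l 6)) (l 6)) (l 6)))))) (a (l 3) (a (l 3) (l 6)))) (b (a (b (a (l 16761504) (l 6)) (l 6)) (l 6)) (l 6))), by decide +kernel⟩

theorem s10_pp_012 : ∃ t, chk3 f_pp_012 t 15 7 1 = true := ex3_b k8_pp_012 k9_pp_012

theorem s11_pp_012 : ∃ t, chk3 f_pp_012 t 14 7 1 = true := ex3_b k6_pp_012 k7_pp_012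

theorem s12_pp_012 : ∃ t, chk3 f_pp_012 t 7 7 1 = true := ex3_a s11_pp_012 s10_pp_012

theorem s13_pp_012 : ∃ t, chk3 f_pp_012 t 7 3 1 = true := ex3_b k5_pp_012 s12_pp_012

theorem s14_pp_012 : ∃ t, chk3 f_pp_012 t 7 1 1 = true := ex3_b k4_pp_012 s13_pp_012

theorem s15_pp_012 : ∃ t, chk3 f_pp_012 t 6 3 1 = true := ex3_b k2_pp_012 k3_pp_012

theorem s16_pp_012 : ∃ t, chk3 f_pp_012 t 6 1 1 = true := ex3_b k1_pp_012 s15_pp_012

theorem s17_pp_012 : ∃ t, chk3 f_pp_012 t 3 1 1 = true := ex3_a s16_pp_012 s14_pp_012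

theorem s18_pp_012 : ∃ t, chk3 f_pp_012 t 1 1 1 = true := ex3_a k0_pp_012 s17_pp_012

theorem c_pp_012 : CertB 0 536870912 0 536870912 740881858 40050571 3 eng mog cd1q0 cd0q2 pd1 false true true .pnp 0 1 2
    ndB1q0 ndB0q2 pcB1 cut_pp_012 Ext.none :=
  certB2 (fam := false) (s1 := true) (s2 := true) (a := 0) (b := 1) (c := 2) (cn := .pnp) (n1 := ndB1q0) (n2 := ndB0q2) (pc := pcB1) (cut := cut_pp_012) (xt := Ext.none) (P1 := 0) (W1 := 536870912) (P2 := 0) (W2 := 536870912) (P3 := 740881858) (W3 := 40050571) (N0 := 3) (En := eng) (mo := mog) (C1 := cd1q0) (C2 := cd0q2) (C3 := pd1)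
    rfl (fun _ => rfl) s18_pp_012

noncomputable def cut_pp_022 : Cut := Cut.of [[⟨0, 0, 0, 67108864⟩, ⟨1, 1, 0, 67108864⟩, ⟨2, 1, 0, 67108864⟩]]

noncomputable def f_pp_022 : ℕ → ℕ → ℕ → ℕ → Bool := onCell 1073741824 536870912 0 536870912 740881858 40050571
    (rowB 3 eng mog cd1q0 cd0q2 pd2 2 false true true .pp 0 2 2 (qsf 0 536870912 0 536870912 2) ndB1q0 ndB0q2 pcB2 cut_pp_022 Ext.none)

def k0_pp_022 : ∃ t, chk3 f_pp_022 t 4 2 1 = true :=
  ⟨(b (a (b (a (b (l 16428288) (l 16438216)) (b (l 16445432) (l 16372296))) (a (b (l 16449848) (l 16483608)) (a (a (l 16469400) (l 16473424)) (l 16499864)))) (a (b (c (l 16456472) (l 16469224)) (a (l 16527032) (l 16584400))) (b (a (c (l 16458440) (l 16478896)) (c (l 16461296) (l 16461576))) (a (c (l 16484096) (l 16480336)) (b (l 16467328) (l 16445800)))))) (a (b (a (b (a (l 16471144) (l 16483552)) (a (l 16509312) (l 16500560))) (b (a (l 16493008) (l 16501048)) (a (l 16510440) (l 16518872)))) (b (a (a (c (l 16513008)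 (l 16502560)) (l 16520008)) (a (l 16530376) (l 16539192))) (a (a (c (l 16555880) (l 16524688)) (c (l 16545528) (l 16539032))) (a (l 16553176) (l 16562352))))) (b (a (c (c (l 16511848) (l 16516888)) (a (l 16521168) (l 16508904))) (a (b (l 16491664) (c (l 16501568) (l 16485664))) (b (c (l 16476016) (l 16455776)) (a (c (l 16483112) (l 16463632)) (l 16499512))))) (a (a (b (l 16543384) (c (l 16550512) (l 16546408))) (b (l 16520288) (c (l 16527728) (l 16454880)))) (a (b (c (l 16461368) (l 16529368)) (a (b (l 16502696) (l 16503048)) (b (l 16510088) (l 16530736)))) (b (a (c (l 16482424) (l 16463072)) (c (l 16464600) (l 16444000))) (a (b (c (l 16480728) (l 16461336)) (c (l 16479480) (l 16459976))) (b (c (l 16461072) (l 16440680)) (c (l 319471124103) (l 276521400023)))))))))), by decide +kernel⟩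

def k1_pp_022 : ∃ t, chk3 f_pp_022 t 5 2 1 = true :=
  ⟨(b (a (a (b (b (a (l 16456952) (a (l 16444168) (l 16393048))) (a (l 16429168) (a (l 16392976) (c (l 16437816) (l 16408616))))) (b (a (c (l 16455584) (l 16432400)) (c (a (l 16439488) (a (l 16431192) (l 16424872))) (l 286721991927))) (a (c (l 16409968) (l 16428232)) (a (l 16441248) (l 681858988007))))) (b (l 1) (l 1))) (l 1)) (a (a (b (a (b (c (l 16490048) (l 16424320)) (a (c (l 16451472) (l 16428944)) (b (l 16424904) (l 292090670151)))) (a (b (l 293701310471) (l 502544063927)) (l 1))) (a (b (a (c (l 321081740407) (l 286721947815)) (b (l 445098859191) (l 1))) (a (b (c (l 372084437399) (l 373694997367)) (l 1)) (l 1))) (l 1))) (l 1)) (l 1))), by decide +kernel⟩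

def k2_pp_022 : ∃ t, chk3 f_pp_022 t 8 3 1 = true :=
  ⟨(b (b (a (b (a (c (l 16555904) (l 16546312)) (c (l 16567264) (l 16561016))) (a (b (l 16586416) (l 16575000)) (c (l 16586792) (l 16581144)))) (a (b (l 16575512) (l 16595784)) (b (l 16582280) (a (l 16602408) (l 16588088))))) (b (a (b (a (l 16606496) (l 16599608)) (l 16628464)) (a (l 16619368) (a (l 16614648) (l 16598744)))) (a (a (b (l 16615304) (l 16629752)) (b (l 16629200) (l 16643432))) (a (l 16648128) (a (l 16623328) (b (l 16603944) (l 16607896))))))) (b (b (b (a (a (l 16664728) (l 16657224)) (a (l 16657824) (a (l 16630640) (a (l 16616728) (l 16607336))))) (a (a (a (l 16654880) (l 16662088)) (l 16671800)) (a (l 16610512) (a (l 16634496) (a (l 16619960) (l 211023528743)))))) (a (l 6) (a (l 6) (a (l 6) (a (l 6) (l 1)))))) (a (l 6) (a (l 6) (l 1))))), by decide +kernel⟩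

def k3_pp_022 : ∃ t, chk3 f_pp_022 t 9 3 1 = true :=
  ⟨(b (a (b (c (a (b (l 16557656) (l 16568024)) (b (l 16490376) (b (l 16538000) (l 16541992)))) (a (b (l 16553416) (l 16563472)) (b (l 16459096) (a (l 16537792) (l 16520128))))) (b (a (b (a (l 16581056) (l 16564528)) (a (l 16583488) (l 16565800))) (a (b (l 16547560) (l 16547720)) (b (l 231961344151) (l 270616006039)))) (a (a (b (l 16585976) (a (l 16593896) (l 16583920))) (b (l 16567112) (l 223908361031))) (b (a (l 225518887687) (l 1)) (l 1))))) (b (a (b (a (c (l 16512448) (l 16497368)) (c (b (l 16497992) (l 16499536)) (b (l 16479864) (l 16480992)))) (a (c (l 16517888) (l 81637433207)) (c (b (l 16501704) (l 16503744)) (b (l 228740000455) (l 197064619287))))) (b (a (c (b (l 16479040) (l 16479400)) (b (l 221760605975) (l 273300214807))) (a (b (l 279205784311) (l 1)) (l 1))) (l 1))) (a (a (b (b (l 277595323271) (l 1)) (l 1)) (l 1)) (l 1)))) (b (a (b (a (b (a (a (l 259341891335) (l 219076547559)) (l 176126858983))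 (a (a (l 171831932983) (l 1)) (l 1))) (l 1)) (l 1)) (l 1)) (l 1))), by decide +kernel⟩

def k4_pp_022 : ∃ t, chk3 f_pp_022 t 5 3 1 = true :=
  ⟨(b (l 1) (l 1)), by decide +kernel⟩

def k5_pp_022 : ∃ t, chk3 f_pp_022 t 3 1 1 = true :=
  ⟨(l 1), by decide +kernel⟩

theorem s6_pp_022 : ∃ t, chk3 f_pp_022 t 4 3 1 = true := ex3_a k2_pp_022 k3_pp_022

theorem s7_pp_022 : ∃ t, chk3 f_pp_022 t 2 3 1 = true := ex3_a s6_pp_022 k4_pp_022

theorem s8_pp_022 : ∃ t, chk3 f_pp_022 t 2 2 1 = true := ex3_a k0_pp_022 k1_pp_022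

theorem s9_pp_022 : ∃ t, chk3 f_pp_022 t 2 1 1 = true := ex3_b s8_pp_022 s7_pp_022

theorem s10_pp_022 : ∃ t, chk3 f_pp_022 t 1 1 1 = true := ex3_a s9_pp_022 k5_pp_022

theorem c_pp_022 : CertB 0 536870912 0 536870912 740881858 40050571 3 eng mog cd1q0 cd0q2 pd2 false true true .pp 0 2 2
    ndB1q0 ndB0q2 pcB2 cut_pp_022 Ext.none :=
  certB2 (fam := false) (s1 := true) (s2 := true) (a := 0) (b := 2) (c := 2) (cn := .pp) (n1 := ndB1q0) (n2 := ndB0q2) (pc := pcB2) (cut := cut_pp_022) (xt := Ext.none) (P1 := 0) (W1 := 536870912) (P2 := 0) (W2 := 536870912) (P3 := 740881858) (W3 := 40050571) (N0 := 3) (En := eng) (mo := mog) (C1 := cd1q0) (C2 := cd0q2) (C3 := pd2)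
    rfl (fun _ => rfl) s10_pp_022

noncomputable def f_pp_101 : ℕ → ℕ → ℕ → ℕ → Bool := onCell 536870912 536870912 536870912 536870912 740881858 40050571
    (rowB 3 eng mog cd1q1 cd0q1 pd0 0 false true true .npn 1 0 1 (qsf 536870912 536870912 536870912 536870912 0) ndB1q1 ndB0q1 pcB0 Cut.none Ext.none)

def k0_pp_101 : ∃ t, chk3 f_pp_101 t 1 1 1 = true :=
  ⟨(l 3), by decide +kernel⟩

theorem c_pp_101 : CertB 536870912 536870912 536870912 536870912 740881858 40050571 3 eng mog cd1q1 cd0q1 pd0 false true true .npn 1 0 1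
    ndB1q1 ndB0q1 pcB0 Cut.none Ext.none :=
  certB0 (fam := false) (s1 := true) (s2 := true) (a := 1) (b := 0) (c := 1) (cn := .npn) (n1 := ndB1q1) (n2 := ndB0q1) (pc := pcB0) (cut := Cut.none) (xt := Ext.none) (P1 := 536870912) (W1 := 536870912) (P2 := 536870912) (W2 := 536870912) (P3 := 740881858) (W3 := 40050571) (N0 := 3) (En := eng) (mo := mog) (C1 := cd1q1) (C2 := cd0q1) (C3 := pd0)
    rfl k0_pp_101

noncomputable def f_pp_102 : ℕ → ℕ → ℕ → ℕ → Bool := onCell 0 536870912 0 536870912 740881858 40050571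
    (rowB 3 eng mog cd1q1 cd0q2 pd0 2 false true true .npp 1 0 2 (qsf 536870912 536870912 0 536870912 0) ndB1q1 ndB0q2 pcB0 Cut.none Ext.none)

def k0_pp_102 : ∃ t, chk3 f_pp_102 t 1 1 1 = true :=
  ⟨(b (a (l 3) (a (l 3) (b (a (l 3) (b (a (b (a (l 160691947095) (l 146196442535)) (l 3)) (b (a (l 109152371047) (l 16672848)) (b (a (l 162302567975) (l 123647893799)) (a (l 3) (l 167671278327))))) (l 3))) (l 3)))) (l 3)), by decide +kernel⟩

theorem c_pp_102 : CertB 536870912 536870912 0 536870912 740881858 40050571 3 eng mog cd1q1 cd0q2 pd0 false true true .npp 1 0 2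
    ndB1q1 ndB0q2 pcB0 Cut.none Ext.none :=
  certB2 (fam := false) (s1 := true) (s2 := true) (a := 1) (b := 0) (c := 2) (cn := .npp) (n1 := ndB1q1) (n2 := ndB0q2) (pc := pcB0) (cut := Cut.none) (xt := Ext.none) (P1 := 536870912) (W1 := 536870912) (P2 := 0) (W2 := 536870912) (P3 := 740881858) (W3 := 40050571) (N0 := 3) (En := eng) (mo := mog) (C1 := cd1q1) (C2 := cd0q2) (C3 := pd0)
    rfl (fun _ => rfl) k0_pp_102

noncomputable def f_pp_112 : ℕ → ℕ → ℕ → ℕ → Bool := onCell 536870912 536870912 0 536870912 740881858 40050571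
    (rowB 3 eng mog cd1q1 cd0q2 pd1 0 false true true .dn 1 1 2 (qsf 536870912 536870912 0 536870912 1) ndB1q1 ndB0q2 pcB1 Cut.none Ext.none)

def k0_pp_112 : ∃ t, chk3 f_pp_112 t 1 1 1 = true :=
  ⟨(a (b (a (b (a (b (a (b (l 16604488) (l 16624208)) (b (l 16625016) (l 16644288))) (a (b (l 16644208) (a (l 16655048) (l 16662920))) (b (l 16661200) (a (l 16668592) (b (l 16671312) (b (l 16671536) (l 89288136679))))))) (b (b (a (l 16638576) (l 16651176)) (a (l 16658376) (b (l 16663832) (l 16670440)))) (a (a (b (l 16669688) (b (l 16673392) (b (l 104857396087) (l 155323244359)))) (b (l 16673152) (b (b (l 16673568) (l 144048973143)) (l 3)))) (b (b (a (l 16673760) (l 105394288103)) (a (b (l 16674928) (l 120426666567)) (l 154249511255))) (b (a (l 159081344055) (l 3)) (l 3)))))) (a (b (a (b (a (b (l 16661936) (a (l 16661192) (b (l 16663072) (l 16660992)))) (b (l 16666240) (a (b (l 16663712) (a (l 89288112231) (l 136532748839))) (b (l 91435602439) (l 158007582215)))))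 (b (a (b (a (a (l 16657984) (b (l 16658712) (c (l 92509330199) (l 16656160)))) (a (b (l 16658352) (l 146733288311)) (b (l 137606489703) (l 3)))) (a (b (a (c (b (l 16656032) (l 122037223975)) (l 93583068679)) (l 155860090023)) (a (l 164986891591) (l 3))) (l 3))) (b (a (l 166597509575) (l 3)) (l 3))) (l 3))) (b (b (a (b (l 16668272) (a (l 16665888) (l 140290854727))) (b (a (l 115057930759) (l 159081337959)) (l 168745006295))) (a (b (a (l 148880783335) (l 3)) (l 3)) (l 3))) (l 3))) (l 3)) (l 3))) (b (a (b (a (b (l 16679928) (a (b (l 16668344) (l 99488715943)) (b (l 16670176) (b (l 115594842039) (l 155323281831))))) (l 1)) (a (b (b (a (b (l 129553489687) (l 161765703799)) (l 3)) (l 3)) (l 3)) (l 1))) (l 1)) (l 3))) (l 3)) (l 1)), by decide +kernel⟩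

theorem c_pp_112 : CertB 536870912 536870912 0 536870912 740881858 40050571 3 eng mog cd1q1 cd0q2 pd1 false true true .dn 1 1 2
    ndB1q1 ndB0q2 pcB1 Cut.none Ext.none :=
  certB0 (fam := false) (s1 := true) (s2 := true) (a := 1) (b := 1) (c := 2) (cn := .dn) (n1 := ndB1q1) (n2 := ndB0q2) (pc := pcB1) (cut := Cut.none) (xt := Ext.none) (P1 := 536870912) (W1 := 536870912) (P2 := 0) (W2 := 536870912) (P3 := 740881858) (W3 := 40050571) (N0 := 3) (En := eng) (mo := mog) (C1 := cd1q1) (C2 := cd0q2) (C3 := pd1)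
    rfl k0_pp_112

noncomputable def f_pp_202_a : ℕ → ℕ → ℕ → ℕ → Bool := onCell 0 536870912 0 536870912 740881858 40050571
    (rowB 3 eng mog cd1q2a cd0q2 pd0 0 false true true .pp 2 0 2 (qsf 0 536870912 0 536870912 0) ndB1q2a ndB0q2 pcB0 Cut.none Ext.none)

def k0_pp_202_a : ∃ t, chk3 f_pp_202_a t 1 1 1 = true :=
  ⟨(l 3), by decide +kernel⟩

theorem c_pp_202_a : CertB 0 536870912 0 536870912 740881858 40050571 3 eng mog cd1q2a cd0q2 pd0 false true true .pp 2 0 2
    ndB1q2a ndB0q2 pcB0 Cut.none Ext.none :=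
  certB0 (fam := false) (s1 := true) (s2 := true) (a := 2) (b := 0) (c := 2) (cn := .pp) (n1 := ndB1q2a) (n2 := ndB0q2) (pc := pcB0) (cut := Cut.none) (xt := Ext.none) (P1 := 0) (W1 := 536870912) (P2 := 0) (W2 := 536870912) (P3 := 740881858) (W3 := 40050571) (N0 := 3) (En := eng) (mo := mog) (C1 := cd1q2a) (C2 := cd0q2) (C3 := pd0)
    rfl k0_pp_202_a

noncomputable def f_pp_202_b : ℕ → ℕ → ℕ → ℕ → Bool := onCell 1239849684 370763052 0 536870912 740881858 40050571
    (rowB 3 eng mog cd1q2b cd0q2 pd0 0 false true true .pp 2 0 2 (qsf 1239849684 370763052 0 536870912 0) ndB1q2b ndB0q2 pcB0 Cut.none Ext.none)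

def k0_pp_202_b : ∃ t, chk3 f_pp_202_b t 1 1 1 = true :=
  ⟨(l 3), by decide +kernel⟩

theorem c_pp_202_b : CertB 1239849684 370763052 0 536870912 740881858 40050571 3 eng mog cd1q2b cd0q2 pd0 false true true .pp 2 0 2
    ndB1q2b ndB0q2 pcB0 Cut.none Ext.none :=
  certB0 (fam := false) (s1 := true) (s2 := true) (a := 2) (b := 0) (c := 2) (cn := .pp) (n1 := ndB1q2b) (n2 := ndB0q2) (pc := pcB0) (cut := Cut.none) (xt := Ext.none) (P1 := 1239849684) (W1 := 370763052) (P2 := 0) (W2 := 536870912) (P3 := 740881858) (W3 := 40050571) (N0 := 3) (En := eng) (mo := mog) (C1 := cd1q2b) (C2 := cd0q2) (C3 := pd0)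
    rfl k0_pp_202_b

noncomputable def f_pm_001 : ℕ → ℕ → ℕ → ℕ → Bool := onCell 0 536870912 0 536870912 740881858 40050571
    (rowB 3 eng mog cd1q0 cd0q1 pd0 1 false true false .up 0 0 1 (qsf 0 536870912 536870912 536870912 0) ndB1q0 ndB0q1 pcB0 Cut.none Ext.none)

def k0_pm_001 : ∃ t, chk3 f_pm_001 t 1 1 1 = true :=
  ⟨(a (l 4) (b (l 4) (b (a (l 4) (a (l 4) (b (a (l 4) (l 4)) (b (a (l 4) (b (l 16578784) (l 16597352))) (a (a (l 4) (l 16602096)) (l 24930361047)))))) (a (b (l 4) (a (l 4) (a (l 4) (b (l 4) (l 38352549751))))) (b (a (b (l 4) (a (l 4) (l 31372987719))) (b (a (l 31909761271) (l 16416296)) (a (l 16454064) (l 16373584)))) (a (b (a (a (l 4) (l 16557728)) (l 16510760)) (a (b (l 16561136) (l 16533544)) (l 16449624))) (b (a (l 16412624) (l 16390304)) (a (l 16427656) (l 16296064))))))))), by decide +kernel⟩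

theorem c_pm_001 : CertB 0 536870912 536870912 536870912 740881858 40050571 3 eng mog cd1q0 cd0q1 pd0 false true false .up 0 0 1
    ndB1q0 ndB0q1 pcB0 Cut.none Ext.none :=
  certB1 (fam := false) (s1 := true) (s2 := false) (a := 0) (b := 0) (c := 1) (cn := .up) (n1 := ndB1q0) (n2 := ndB0q1) (pc := pcB0) (cut := Cut.none) (xt := Ext.none) (P1 := 0) (W1 := 536870912) (P2 := 536870912) (W2 := 536870912) (P3 := 740881858) (W3 := 40050571) (N0 := 3) (En := eng) (mo := mog) (C1 := cd1q0) (C2 := cd0q1) (C3 := pd0)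
    rfl (fun _ => rfl) k0_pm_001

noncomputable def cut_pm_011 : Cut := Cut.of [[⟨0, 0, 0, 67108864⟩, ⟨1, 1, 0, 67108864⟩, ⟨2, 1, 0, 67108864⟩]]

noncomputable def f_pm_011 : ℕ → ℕ → ℕ → ℕ → Bool := onCell 0 536870912 536870912 536870912 740881858 40050571
    (rowB 3 eng mog cd1q0 cd0q1 pd1 0 false true false .pnn 0 1 1 (qsf 0 536870912 536870912 536870912 1) ndB1q0 ndB0q1 pcB1 cut_pm_011 Ext.none)

def k0_pm_011 : ∃ t, chk3 f_pm_011 t 1 2 1 = true :=
  ⟨(l 4), by decide +kernel⟩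

def k1_pm_011 : ∃ t, chk3 f_pm_011 t 2 3 1 = true :=
  ⟨(b (l 4) (a (b (l 4) (a (b (l 4) (b (l 4) (a (l 6) (b (b (a (l 4) (a (l 16755672) (l 97945255847))) (a (l 6) (a (l 16737752) (l 16729208)))) (a (l 6) (b (l 16728256) (l 16723304))))))) (b (a (l 4) (b (l 4) (a (l 4) (b (l 4) (l 204245566743))))) (a (b (b (l 4) (a (b (l 4) (a (l 16712304) (l 16723328))) (c (l 44258200119) (l 16723936)))) (b (a (a (l 16723584) (l 16715088)) (l 16702704)) (b (l 16724696) (l 16719848)))) (b (b (a (a (l 218741132327) (l 92039577383)) (a (l 16672320) (l 16684584))) (a (l 16695496) (l 16658128))) (b (l 16699176) (l 16711208))))))) (b (a (l 4) (b (l 4) (a (l 4) (b (l 4) (a (l 16644536) (l 16583480)))))) (a (b (a (b (l 4) (b (a (l 4) (l 201561157911)) (a (a (l 16688528) (l 16678056)) (l 16643048)))) (b (b (l 4) (a (l 4) (l 16658304))) (a (b (l 16659792) (l 16647072)) (l 16574464)))) (a (a (b (l 16676968) (l 16669936)) (b (l 16648232) (l 16629960))) (b (l 16622672) (l 16665728))))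 (b (b (a (a (l 16649880) (l 16569792)) (l 16606984)) (a (l 16613920) (l 16581640))) (b (a (l 16590328) (l 16558208)) (a (l 16568672) (l 16535368)))))))), by decide +kernel⟩

def k2_pm_011 : ∃ t, chk3 f_pm_011 t 3 3 1 = true :=
  ⟨(b (a (b (l 4) (a (l 4) (b (l 4) (a (l 4) (l 4))))) (b (l 1) (a (b (l 1) (a (l 16573960) (l 1))) (l 1)))) (a (b (a (b (a (l 4) (b (l 4) (l 16555112))) (a (b (l 16668384) (l 16597160)) (l 16594784))) (b (a (l 16652256) (l 16556832)) (a (l 16536880) (l 16500024)))) (a (b (a (l 16580392) (l 16524136)) (b (l 16550040) (l 16486080))) (b (a (l 16488824) (l 16453808)) (b (l 16441120) (l 16421824))))) (b (a (b (a (l 16519696) (l 16483424)) (l 16465776)) (b (l 1) (l 16372368))) (b (a (l 16443272) (l 16373168)) (a (l 16366688) (l 16302552)))))), by decide +kernel⟩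

theorem s3_pm_011 : ∃ t, chk3 f_pm_011 t 1 3 1 = true := ex3_a k1_pm_011 k2_pm_011

theorem s4_pm_011 : ∃ t, chk3 f_pm_011 t 1 1 1 = true := ex3_b k0_pm_011 s3_pm_011

theorem c_pm_011 : CertB 0 536870912 536870912 536870912 740881858 40050571 3 eng mog cd1q0 cd0q1 pd1 false true false .pnn 0 1 1
    ndB1q0 ndB0q1 pcB1 cut_pm_011 Ext.none :=
  certB0 (fam := false) (s1 := true) (s2 := false) (a := 0) (b := 1) (c := 1) (cn := .pnn) (n1 := ndB1q0) (n2 := ndB0q1) (pc := pcB1) (cut := cut_pm_011) (xt := Ext.none) (P1 := 0) (W1 := 536870912) (P2 := 536870912) (W2 := 536870912) (P3 := 740881858) (W3 := 40050571) (N0 := 3) (En := eng) (mo := mog) (C1 := cd1q0) (C2 := cd0q1) (C3 := pd1)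
    rfl s4_pm_011

noncomputable def cut_pm_012 : Cut := Cut.of [[⟨0, 0, 0, 67108864⟩, ⟨1, 1, 0, 67108864⟩, ⟨2, 1, 0, 67108864⟩]]

noncomputable def f_pm_012 : ℕ → ℕ → ℕ → ℕ → Bool := onCell 536870912 536870912 0 536870912 740881858 40050571
    (rowB 3 eng mog cd1q0 cd0q2 pd1 2 false true false .pnp 0 1 2 (qsf 0 536870912 0 536870912 1) ndB1q0 ndB0q2 pcB1 cut_pm_012 Ext.none)

def k0_pm_012 : ∃ t, chk3 f_pm_012 t 2 1 1 = true :=
  ⟨(b (a (b (l 2) (b (l 2) (a (l 2) (l 16494584)))) (b (a (b (l 16603760) (l 16557744)) (b (l 16570376) (l 16530584))) (b (a (l 16515848) (l 16491320)) (a (l 16474640) (l 16455808))))) (b (a (a (l 2) (b (l 16451760) (l 16407512))) (b (a (l 16439464) (l 16429120)) (a (l 16409328) (l 16434720)))) (a (b (b (l 16577072) (l 16577584)) (a (l 16304792) (l 16351440))) (b (a (b (l 16392400) (l 16389184)) (b (l 16412472) (l 16420736))) (b (a (l 16393584) (l 16374056)) (a (l 16404936) (l 16462016))))))), by decide +kernel⟩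

def k1_pm_012 : ∃ t, chk3 f_pm_012 t 3 2 1 = true :=
  ⟨(b (a (b (a (l 16542672) (l 16560704)) (a (l 16508200) (l 16484224))) (a (b (b (l 16510432) (l 16491792)) (l 16458640)) (b (a (l 16424592) (l 16477136)) (a (l 16441904) (l 16432368))))) (a (b (a (l 16468560) (l 16446480)) (a (l 16438160) (b (l 16426256) (l 16417664)))) (a (b (a (l 16430832) (l 16421112)) (a (l 16411008) (l 16446424))) (b (a (l 16412560) (l 16405464)) (a (b (l 16400464) (l 16398472)) (b (l 16395912) (l 16395808))))))), by decide +kernel⟩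

def k2_pm_012 : ∃ t, chk3 f_pm_012 t 3 3 1 = true :=
  ⟨(b (a (b (a (l 16462744) (a (l 16415912) (l 16413456))) (a (b (l 16418272) (l 16423776)) (a (l 16428128) (l 16433976)))) (a (b (a (l 16432648) (b (l 16405256) (l 16416128))) (a (b (l 16429608) (l 16452048)) (b (l 16434648) (l 16462096)))) (a (b (b (l 16403872) (l 16418568)) (b (l 16462232) (a (l 16470448) (l 16475368)))) (b (b (a (l 16404024) (l 16403184)) (a (l 16421000) (l 16420744))) (b (a (l 16445480) (l 16446616)) (a (l 16478976) (b (l 16472048) (l 16493176)))))))) (a (b (a (b (l 16435656) (l 16455480)) (b (l 16504128) (a (l 16483704) (l 16503696)))) (a (b (l 16400232) (l 16584784)) (b (a (l 16521256) (l 16547176)) (b (l 16654720) (l 16660744))))) (b (a (b (a (l 16484376) (l 16500248)) (a (l 16524640) (a (l 16540648) (l 16550024)))) (b (a (a (l 16511576) (l 16518072)) (a (l 16545400) (b (l 16517512) (l 16544016)))) (a (a (l 16558624) (l 16546696)) (a (b (l 16563048) (l 16590648)) (b (l 16597720)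 (a (l 16597944) (l 6))))))) (a (b (a (b (l 16560264) (l 16587368)) (b (l 16583320) (l 16611808))) (b (a (a (l 16609872) (l 16624040)) (a (l 16635096) (l 16649784))) (a (l 16648656) (b (l 16669544) (l 16687408))))) (b (a (b (a (l 16598624) (l 16609624)) (a (l 16629040) (l 16641392))) (b (a (l 16641608) (l 6)) (l 6))) (a (b (a (l 16662936) (l 16687240)) (b (a (l 16690576) (l 6)) (a (l 16710456) (l 6)))) (l 6))))))), by decide +kernel⟩

theorem s3_pm_012 : ∃ t, chk3 f_pm_012 t 3 1 1 = true := ex3_b k1_pm_012 k2_pm_012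

theorem s4_pm_012 : ∃ t, chk3 f_pm_012 t 1 1 1 = true := ex3_a k0_pm_012 s3_pm_012

theorem c_pm_012 : CertB 0 536870912 0 536870912 740881858 40050571 3 eng mog cd1q0 cd0q2 pd1 false true false .pnp 0 1 2
    ndB1q0 ndB0q2 pcB1 cut_pm_012 Ext.none :=
  certB2 (fam := false) (s1 := true) (s2 := false) (a := 0) (b := 1) (c := 2) (cn := .pnp) (n1 := ndB1q0) (n2 := ndB0q2) (pc := pcB1) (cut := cut_pm_012) (xt := Ext.none) (P1 := 0) (W1 := 536870912) (P2 := 0) (W2 := 536870912) (P3 := 740881858) (W3 := 40050571) (N0 := 3) (En := eng) (mo := mog) (C1 := cd1q0) (C2 := cd0q2) (C3 := pd1)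
    rfl (fun _ => rfl) s4_pm_012

noncomputable def cut_pm_022 : Cut := Cut.of [[⟨0, 0, 0, 67108864⟩, ⟨1, 1, 0, 67108864⟩, ⟨2, 1, 0, 67108864⟩]]

noncomputable def f_pm_022 : ℕ → ℕ → ℕ → ℕ → Bool := onCell 0 536870912 0 536870912 740881858 40050571
    (rowB 3 eng mog cd1q0 cd0q2 pd2 0 false true false .pp 0 2 2 (qsf 0 536870912 0 536870912 2) ndB1q0 ndB0q2 pcB2 cut_pm_022 Ext.none)

def k0_pm_022 : ∃ t, chk3 f_pm_022 t 2 2 1 = true :=
  ⟨(b (a (a (b (b (a (a (c (l 16446792) (l 16436520)) (l 16459168)) (c (l 16444016) (l 16466656))) (a (c (c (b (l 16412272) (l 16432616)) (l 16445960)) (a (l 16447032) (l 16461920))) (c (l 16437448) (l 16460152)))) (b (c (a (l 16443208) (l 16437776)) (a (l 16460856) (l 16457992))) (a (c (l 16452552) (l 16467304)) (l 16450168)))) (b (a (b (l 16447360) (l 16472216)) (b (l 16436912) (l 16431040))) (a (b (l 16436688) (l 16455088)) (b (l 16425264) (l 16416208))))) (a (b (a (l 16459784) (l 1)) (a (b (l 16409752) (l 16394424)) (l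 1))) (l 1))) (a (a (c (b (a (a (l 16538264) (l 16467184)) (b (l 16449096) (l 16478208))) (a (b (a (l 16498072) (l 16486168)) (a (b (l 16510504) (l 16519608)) (l 16500384))) (b (l 16466360) (b (l 16494312) (l 16520568))))) (b (a (a (b (l 16467664) (l 16478280)) (l 16485216)) (l 16507904)) (a (b (a (b (l 16488160) (l 16496096)) (l 16500840)) (a (b (l 16431752) (a (l 16447560) (l 16519088))) (l 16512640))) (b (l 16475088) (a (l 16492728) (l 16471320)))))) (b (a (b (l 16454672) (a (l 16441928) (l 16427288))) (b (l 16409544) (l 16404048))) (a (a (b (l 16445328) (l 16511736)) (b (l 16427416) (l 16448432))) (b (l 16482920) (a (l 16405168) (l 16382048)))))) (a (a (b (b (l 16380912) (l 16368328)) (b (l 16460784) (a (l 16377720) (l 1)))) (l 1)) (l 1)))), by decide +kernel⟩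

def k1_pm_022 : ∃ t, chk3 f_pm_022 t 8 12 1 = true :=
  ⟨(a (a (b (c (a (b (l 16534280) (l 16521400)) (l 16573936)) (a (b (b (l 16475664) (l 16480392)) (a (b (l 16524776) (l 16529464)) (l 16521160))) (b (l 16528704) (l 16538200)))) (a (c (a (b (b (l 16546600) (l 16550680)) (b (l 16534040) (l 16528128))) (b (l 16551968) (l 16560656))) (b (b (a (l 16534160) (l 16538688)) (a (l 16539000) (l 16543552))) (a (c (l 16570520) (b (l 16540984) (l 16546480))) (b (l 16548632) (l 16553936))))) (c (b (l 16550992) (l 16564656)) (b (l 16547760) (a (l 16555752) (l 16560104)))))) (c (b (b (l 16513280) (l 16523848)) (b (l 16535664) (l 16548024))) (b (a (l 16533464) (l 16522272)) (b (l 16542624) (l 16553392))))) (b (a (c (b (l 16494952) (l 16503848)) (l 16515136)) (b (l 16476064) (l 16503408))) (b (a (a (l 16542240) (l 16508992)) (l 16531816)) (a (a (l 16552480) (l 16518296)) (c (l 16499456) (l 16496096)))))), by decide +kernel⟩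

def k2_pm_022 : ∃ t, chk3 f_pm_022 t 8 13 1 = true :=
  ⟨(a (a (b (b (a (c (a (b (l 16574904) (l 16579992)) (c (l 16572144) (l 16568520))) (b (a (c (l 16557416) (l 16552192)) (l 16559472)) (a (c (l 16562984) (l 16558128)) (l 16565240)))) (c (l 16575312) (a (l 16566856) (l 16571240)))) (c (c (a (b (l 16588832) (l 16594312)) (l 16587280)) (a (a (b (l 16572952) (l 16578664)) (l 16579584)) (l 16585024))) (b (a (a (c (l 16568816) (a (l 16563064) (l 16565576))) (l 16571264)) (l 16578024)) (a (a (c (l 16574824) (a (l 16569408) (l 16571928))) (l 16577464)) (l 16584240))))) (a (b (a (c (b (c (l 16587704) (l 16584408)) (a (l 16601328) (l 16592656))) (a (b (c (l 16579720) (l 16575728)) (c (l 16585736) (l 16587272))) (b (l 16580136) (l 16586304)))) (c (b (l 16589616) (l 16595312)) (b (l 16583648) (l 16589824)))) (a (c (b (c (l 16598928) (l 16596032)) (c (l 16604720) (l 16602000))) (a (b (c (l 16591808) (c (l 16589240) (l 16587464))) (c (l 16597976) (c (l 16595584) (l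 16593928)))) (b (l 16592504) (l 16598800)))) (c (b (l 16601096) (l 16607000)) (b (l 16596048) (l 16602352))))) (a (b (c (l 16595920) (l 16559888)) (c (l 16607552) (b (l 16600648) (l 16606968)))) (b (l 16587112) (l 16601808))))) (b (b (c (l 16560576) (l 16564488)) (a (c (l 16579928) (l 16583536)) (l 16583056))) (b (a (c (l 16593928) (l 16596376)) (l 16579744)) (a (c (l 16608984) (l 16610480)) (l 16593280))))) (c (b (a (b (l 16556096) (l 16566848)) (b (l 16508136) (l 16516832))) (a (b (l 16578256) (l 16611576)) (b (l 16526088) (l 16536192)))) (b (a (b (l 16555744) (l 16565128)) (b (l 16503248) (l 16510552))) (a (b (l 16575336) (l 16607680)) (b (l 16518600) (l 16548688)))))), by decide +kernel⟩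

def k3_pm_022 : ∃ t, chk3 f_pm_022 t 9 6 1 = true :=
  ⟨(b (b (a (a (c (l 16457392) (l 16453464)) (b (l 16429032) (l 16431664))) (a (b (l 16403920) (l 16404592)) (b (l 16377904) (l 16376552)))) (a (a (b (l 16484152) (l 16511008)) (b (l 16435224) (l 16481016))) (a (b (l 16406128) (l 16449816)) (l 1)))) (a (b (a (b (c (l 16479768) (l 16470048)) (a (l 16489232) (l 16472440))) (b (a (l 16451024) (l 16434640)) (a (l 16455280) (l 16437792)))) (a (b (a (l 16496256) (l 16478328)) (a (l 16525128) (l 16506032))) (b (a (l 16460032) (l 1)) (l 1)))) (b (a (b (a (l 16417952) (l 1)) (l 1)) (l 1)) (l 1)))), by decide +kernel⟩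

def k4_pm_022 : ∃ t, chk3 f_pm_022 t 5 6 1 = true :=
  ⟨(l 1), by decide +kernel⟩

def k5_pm_022 : ∃ t, chk3 f_pm_022 t 2 7 1 = true :=
  ⟨(a (a (b (a (a (a (b (b (a (b (c (c (l 16610704) (l 16608136)) (a (c (l 16604288) (b (l 16599632) (l 16602944))) (l 16605224))) (c (c (l 16616920) (l 16614504)) (a (c (l 16610816) (b (l 16606296) (l 16609752))) (l 16611864)))) (b (c (l 16613088) (l 16608792)) (c (l 16619408) (l 16615448)))) (b (b (b (a (c (l 16619920) (a (l 16613840) (l 16616272))) (l 16621784)) (l 6)) (l 6)) (l 6))) (l 6)) (b (b (c (a (l 16588288) (l 16623152)) (b (l 16573768) (l 16580448))) (b (a (l 16597224) (l 16632664)) (l 6))) (l 6))) (b (b (a (c (l 16624824) (l 16625536)) (l 16607616)) (a (c (l 16640192) (l 16640176)) (l 16642424))) (l 6))) (b (a (b (c (a (l 16591320) (l 16573864)) (a (l 16587736) (l 16568048))) (b (a (l 16599200) (l 16579744)) (l 6))) (a (b (l 16593936) (c (l 16566528) (l 16557680))) (b (c (l 16537648) (l 16527192)) (c (l 16546960)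 (l 16535776))))) (a (l 6) (a (l 6) (a (l 6) (l 1)))))) (a (l 6) (a (l 6) (l 1)))) (b (b (a (a (a (b (c (l 16518920) (l 16506056)) (c (l 16526976) (l 16513392))) (b (c (l 16499816) (l 16484480)) (l 1))) (l 1)) (l 1)) (l 1)) (l 1))) (l 1)), by decide +kernel⟩

def k6_pm_022 : ∃ t, chk3 f_pm_022 t 3 1 1 = true :=
  ⟨(l 1), by decide +kernel⟩

theorem s7_pm_022 : ∃ t, chk3 f_pm_022 t 8 6 1 = true := ex3_b k1_pm_022 k2_pm_022

theorem s8_pm_022 : ∃ t, chk3 f_pm_022 t 4 6 1 = true := ex3_a s7_pm_022 k3_pm_022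

theorem s9_pm_022 : ∃ t, chk3 f_pm_022 t 2 6 1 = true := ex3_a s8_pm_022 k4_pm_022

theorem s10_pm_022 : ∃ t, chk3 f_pm_022 t 2 3 1 = true := ex3_b s9_pm_022 k5_pm_022

theorem s11_pm_022 : ∃ t, chk3 f_pm_022 t 2 1 1 = true := ex3_b k0_pm_022 s10_pm_022

theorem s12_pm_022 : ∃ t, chk3 f_pm_022 t 1 1 1 = true := ex3_a s11_pm_022 k6_pm_022

theorem c_pm_022 : CertB 0 536870912 0 536870912 740881858 40050571 3 eng mog cd1q0 cd0q2 pd2 false true false .pp 0 2 2
    ndB1q0 ndB0q2 pcB2 cut_pm_022 Ext.none :=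
  certB0 (fam := false) (s1 := true) (s2 := false) (a := 0) (b := 2) (c := 2) (cn := .pp) (n1 := ndB1q0) (n2 := ndB0q2) (pc := pcB2) (cut := cut_pm_022) (xt := Ext.none) (P1 := 0) (W1 := 536870912) (P2 := 0) (W2 := 536870912) (P3 := 740881858) (W3 := 40050571) (N0 := 3) (En := eng) (mo := mog) (C1 := cd1q0) (C2 := cd0q2) (C3 := pd2)
    rfl s12_pm_022

noncomputable def f_pm_101 : ℕ → ℕ → ℕ → ℕ → Bool := onCell 0 536870912 536870912 536870912 740881858 40050571
    (rowB 3 eng mog cd1q1 cd0q1 pd0 2 false true false .npn 1 0 1 (qsf 536870912 536870912 536870912 536870912 0) ndB1q1 ndB0q1 pcB0 Cut.none Ext.none)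

def k0_pm_101 : ∃ t, chk3 f_pm_101 t 2 1 1 = true :=
  ⟨(b (b (l 4) (a (b (l 4) (a (b (b (l 17414729191) (l 22246516471)) (a (l 16463696) (l 16470808))) (b (l 4) (a (l 16482272) (l 16497064))))) (b (l 4) (a (b (l 4) (a (l 16512912) (l 4))) (l 4))))) (b (a (b (a (b (l 16523632) (l 16495928)) (b (l 16645128) (l 16511360))) (a (b (l 16498088) (l 16652776)) (b (l 16471608) (l 16501832)))) (b (a (b (a (l 16459248) (l 16464792)) (l 16554712)) (b (a (l 16505128) (l 16518392)) (a (l 16417240) (l 16469296)))) (a (b (l 16409096) (l 16397360)) (b (a (l 16379816) (l 16359952)) (l 16335920))))) (a (b (b (a (b (l 16554600) (a (l 16586704) (l 16550568))) (a (b (l 16493504) (l 16510808)) (l 16461240))) (a (a (l 16584704) (l 16550888)) (a (l 16511048) (b (l 16465744) (l 16473384))))) (a (b (a (l 16593120) (l 16562736)) (a (l 16609176) (l 16585760))) (b (a (l 16529408) (l 16491408)) (a (l 16558528) (l 16525232))))) (b (a (b (a (l 16417712) (l 16376976)) (b (a (l 16422872)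 (l 16379448)) (l 16406280))) (b (a (l 16336112) (l 16294680)) (a (b (l 16332424) (l 16327504)) (b (l 16280520) (l 16273360))))) (a (b (a (l 16449024) (l 16402536)) (a (l 16486848) (l 16443544))) (b (a (c (l 16362728) (l 16333728)) (l 16285808)) (a (b (l 16374960) (l 16396816)) (l 16376528)))))))), by decide +kernel⟩

def k1_pm_101 : ∃ t, chk3 f_pm_101 t 3 1 1 = true :=
  ⟨(b (l 4) (a (b (b (a (b (l 4) (a (l 16526560) (l 16574880))) (l 4)) (a (b (a (l 16400008) (l 16441880)) (l 16311200)) (b (a (l 80027106839) (l 108481287495)) (a (l 16388760) (l 16423568))))) (a (b (b (l 16229712) (a (l 16273552) (l 16201888))) (a (b (l 16226672) (l 16248728)) (b (l 16188856) (l 16203480)))) (b (b (a (l 16283920) (l 16339816)) (a (l 16210672) (l 16236464))) (a (b (l 16186376) (l 16191328)) (b (l 16177384) (l 16167768)))))) (b (b (l 1) (a (b (l 1) (a (l 16447504) (l 1))) (l 1))) (a (b (b (a (l 16376600) (l 16402776)) (a (l 16290728) (l 16327168))) (b (a (l 16216640) (l 16260304))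 (l 16181040))) (b (b (l 1) (a (l 16355456) (l 1))) (b (l 49961578471) (l 16319576))))))), by decide +kernel⟩

theorem s2_pm_101 : ∃ t, chk3 f_pm_101 t 1 1 1 = true := ex3_a k0_pm_101 k1_pm_101

theorem c_pm_101 : CertB 536870912 536870912 536870912 536870912 740881858 40050571 3 eng mog cd1q1 cd0q1 pd0 false true false .npn 1 0 1
    ndB1q1 ndB0q1 pcB0 Cut.none Ext.none :=
  certB2 (fam := false) (s1 := true) (s2 := false) (a := 1) (b := 0) (c := 1) (cn := .npn) (n1 := ndB1q1) (n2 := ndB0q1) (pc := pcB0) (cut := Cut.none) (xt := Ext.none) (P1 := 536870912) (W1 := 536870912) (P2 := 536870912) (W2 := 536870912) (P3 := 740881858) (W3 := 40050571) (N0 := 3) (En := eng) (mo := mog) (C1 := cd1q1) (C2 := cd0q1) (C3 := pd0)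
    rfl (fun _ => rfl) s2_pm_101

noncomputable def f_pm_102 : ℕ → ℕ → ℕ → ℕ → Bool := onCell 536870912 536870912 0 536870912 740881858 40050571
    (rowB 3 eng mog cd1q1 cd0q2 pd0 0 false true false .npp 1 0 2 (qsf 536870912 536870912 0 536870912 0) ndB1q1 ndB0q2 pcB0 Cut.none Ext.none)

def k0_pm_102 : ∃ t, chk3 f_pm_102 t 2 1 1 = true :=
  ⟨(b (a (b (l 2) (b (l 2) (a (l 2) (l 16621288)))) (b (a (b (a (b (l 16671488) (l 16664800)) (b (l 16670272) (l 16664232))) (a (l 16646888) (b (l 16657944) (l 16645320)))) (b (a (b (a (l 16669248) (l 16667576)) (l 16665576)) (b (a (b (l 154786380727) (l 16665392)) (b (l 3) (l 155323253895))) (a (l 16664648) (l 124721613175)))) (b (a (l 16658840) (l 16660728)) (a (l 16651192) (l 16675832))))) (b (a (l 16619296) (a (l 16632912) (l 16641600))) (a (b (l 16591272) (l 16567904)) (b (l 16616136) (l 16602600)))))) (a (a (b (l 2) (b (b (l 16367776) (l 16330992)) (b (l 16421872) (l 16256584)))) (b (b (l 16499176) (l 16449016))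 (b (b (l 16361424) (l 16314488)) (b (l 16263544) (l 16195824))))) (b (a (b (l 16545768) (l 16575176)) (b (b (l 16580168) (l 16551400)) (b (l 16514808) (a (l 16451424) (l 16475264))))) (b (a (l 16323400) (b (a (l 16371744) (l 16374896)) (a (l 16280608) (b (l 16349128) (l 16346824))))) (a (b (l 16219792) (a (l 16182928) (b (l 16229104) (l 16206816)))) (b (a (b (l 16289944) (l 16311120)) (b (l 16344984) (l 16340296))) (a (b (l 16264896) (l 16232800)) (b (l 16313536) (l 16279536))))))))), by decide +kernel⟩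

def k1_pm_102 : ∃ t, chk3 f_pm_102 t 6 2 1 = true :=
  ⟨(b (a (b (b (l 3) (a (b (a (l 142438355815) (l 3)) (a (l 16660816) (l 140827746423))) (a (l 192367302967) (l 3)))) (a (b (a (l 16659992) (l 16658432)) (a (l 16655368) (l 16656416))) (b (a (b (l 153175776215) (l 16655888)) (b (l 204178461767) (a (l 16653416) (l 156396987671)))) (a (l 16655512) (l 16674376))))) (b (l 3) (a (b (a (b (l 3) (l 198272917687)) (l 3)) (a (b (a (l 153712629399) (b (l 191293556999) (l 160155073959))) (l 16650480)) (b (a (l 183777359527) (l 3)) (a (l 166597526599) (b (l 176261167415) (l 171429355687)))))) (b (l 3) (a (b (l 3) (a (b (l 3) (l 168744973719)) (l 3))) (l 3)))))) (a (b (a (b (l 16673408) (l 16644736)) (b (a (l 16652592) (l 16652392)) (l 16672672))) (a (b (l 16636624) (l 16626240)) (l 16707600))) (b (a (b (a (l 16651560) (b (l 16648680) (l 16650064))) (a (l 16652600) (l 16651568))) (b (a (b (a (b (l 176261191831) (l 16647440)) (b (l 166597489927) (l 172503095015))) (l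 16648408)) (c (b (a (l 168744973591) (l 3)) (a (l 168744996135) (l 179482397735))) (b (l 166060613191) (l 159618201255)))) (a (l 16651488) (b (l 16649656) (l 16651952))))) (b (a (l 16652936) (a (l 16655664) (l 16655224))) (a (l 16651952) (l 16658144)))))), by decide +kernel⟩

def k2_pm_102 : ∃ t, chk3 f_pm_102 t 7 2 1 = true :=
  ⟨(a (b (l 3) (b (a (b (a (a (b (l 3) (l 169281845847)) (l 3)) (l 3)) (a (b (a (l 159081329447) (b (l 171429334839) (l 153712617639))) (l 16652040)) (b (b (l 3) (l 169281831159)) (a (l 154786363399) (l 172503035495))))) (b (l 3) (a (l 172503108375) (l 3)))) (a (b (a (b (l 16654520) (l 16656704)) (l 16656696)) (a (l 16661808) (l 16662912))) (b (a (b (a (l 16656152) (l 190219859415)) (l 16659600)) (b (l 163913145655) (l 198809838295))) (a (b (l 16662832) (l 16666008)) (b (l 16683824) (l 16669304))))))) (b (l 3) (b (l 3) (a (b (l 3) (a (b (a (l 152101902439) (l 137069507639)) (a (l 16657024) (l 154786239223))) (b (l 3) (a (b (l 184314249095)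 (l 16635928)) (l 161228741239))))) (l 3))))), by decide +kernel⟩

def k3_pm_102 : ∃ t, chk3 f_pm_102 t 6 3 1 = true :=
  ⟨(b (a (b (b (a (l 16614912) (l 16634896)) (a (l 16593176) (l 16618472))) (a (a (b (l 16553568) (l 16496888)) (l 16545016)) (b (l 16591576) (l 16540728)))) (b (a (b (l 16648800) (l 16639912)) (b (a (a (l 16656056) (l 16658680)) (l 16661616)) (b (l 16700496) (l 16655344)))) (a (b (l 16620832) (l 16666112)) (b (l 16690408) (l 16669952))))) (b (a (a (b (l 16417112) (l 16399808)) (b (l 16441392) (a (l 16430320) (l 16459416)))) (a (b (a (l 16498848) (l 16528032)) (l 16506496)) (b (l 16549640) (l 16540760)))) (a (b (b (a (l 16390176) (l 16426048)) (a (b (l 16387752) (l 16383352)) (l 16450328))) (a (b (a (l 16346576) (l 16379632)) (a (l 16321280) (l 16360112))) (b (l 16438184) (l 16418376)))) (b (a (a (l 16498384) (l 16508848)) (a (l 16616176) (l 16570512))) (a (b (l 16505064) (l 16478952)) (l 16532744)))))), by decide +kernel⟩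

def k4_pm_102 : ∃ t, chk3 f_pm_102 t 7 3 1 = true :=
  ⟨(b (a (b (b (a (l 16666064) (b (a (l 16669080) (l 16672344)) (l 16672552))) (a (b (l 16730152) (a (l 16666592) (l 16671376))) (a (l 16672624) (l 16676680)))) (a (b (a (l 16664704) (l 16671848)) (a (l 16656624) (l 16668272))) (b (a (l 16676256) (l 16680128)) (l 16676864)))) (b (a (b (a (b (l 16663328) (l 16675384)) (b (a (l 16644208) (b (l 167671245015) (l 16633664))) (a (l 16658224) (l 16643976)))) (a (l 16680848) (b (l 16707168) (l 16681984)))) (b (a (a (a (b (l 150491365495) (l 16633208)) (b (l 174650528759) (l 16625840))) (b (l 3) (b (a (l 156396906055) (l 164986818999)) (a (l 16622176) (l 172503031175))))) (a (b (l 3) (b (l 3) (a (b (l 159618095239) (l 154786267143)) (l 149417540199)))) (l 3))) (a (b (a (l 16583144) (b (l 16626464) (l 16634832))) (a (l 16660920) (l 16584504))) (b (a (b (a (l 16615432) (b (l 185924774071) (l 16610096))) (l 16620360)) (b (a (b (l 3) (l 175187349495)) (l 3)) (a (b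 (a (l 16608744) (l 160154958487)) (l 16611288)) (b (a (l 170892371479) (l 3)) (a (l 16605544) (c (l 16605880) (l 143511950599))))))) (a (b (l 16629296) (l 16638648)) (b (a (l 16618080) (b (l 16608128) (l 16612712))) (l 16623496))))))) (a (b (b (l 16683008) (l 16685416)) (l 16683304)) (a (b (b (l 16672240) (l 16690424)) (l 16690072)) (b (b (a (l 16629816) (a (l 16597904) (b (l 16629504) (l 16637432)))) (l 16557320)) (b (l 16678680) (l 16695272))))))) (b (a (b (a (b (l 16645720) (l 16616312)) (l 16669088)) (a (l 16599936) (l 16635816))) (a (b (l 16679224) (l 16675320)) (b (l 16685912) (l 16680808)))) (a (b (b (l 16612248) (l 16734864)) (a (l 16566424) (l 16595104))) (b (a (l 16648960) (a (l 16673960) (l 16674984))) (a (l 16619000) (b (l 16660808) (l 16635200))))))), by decide +kernel⟩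

theorem s5_pm_102 : ∃ t, chk3 f_pm_102 t 3 3 1 = true := ex3_a k3_pm_102 k4_pm_102

theorem s6_pm_102 : ∃ t, chk3 f_pm_102 t 3 2 1 = true := ex3_a k1_pm_102 k2_pm_102

theorem s7_pm_102 : ∃ t, chk3 f_pm_102 t 3 1 1 = true := ex3_b s6_pm_102 s5_pm_102

theorem s8_pm_102 : ∃ t, chk3 f_pm_102 t 1 1 1 = true := ex3_a k0_pm_102 s7_pm_102

theorem c_pm_102 : CertB 536870912 536870912 0 536870912 740881858 40050571 3 eng mog cd1q1 cd0q2 pd0 false true false .npp 1 0 2
    ndB1q1 ndB0q2 pcB0 Cut.none Ext.none :=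
  certB0 (fam := false) (s1 := true) (s2 := false) (a := 1) (b := 0) (c := 2) (cn := .npp) (n1 := ndB1q1) (n2 := ndB0q2) (pc := pcB0) (cut := Cut.none) (xt := Ext.none) (P1 := 536870912) (W1 := 536870912) (P2 := 0) (W2 := 536870912) (P3 := 740881858) (W3 := 40050571) (N0 := 3) (En := eng) (mo := mog) (C1 := cd1q1) (C2 := cd0q2) (C3 := pd0)
    rfl s8_pm_102

noncomputable def f_pm_112 : ℕ → ℕ → ℕ → ℕ → Bool := onCell 536870912 536870912 0 536870912 740881858 40050571
    (rowB 3 eng mog cd1q1 cd0q2 pd1 2 false true false .dn 1 1 2 (qsf 536870912 536870912 0 536870912 1) ndB1q1 ndB0q2 pcB1 Cut.none Ext.none)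

def k0_pm_112 : ∃ t, chk3 f_pm_112 t 1 1 1 = true :=
  ⟨(a (b (a (b (a (b (a (b (l 16638456) (l 16617680)) (b (l 16629984) (l 16608408))) (l 16681352)) (b (b (l 16614232) (l 16588672)) (l 16553344))) (b (a (b (l 16536024) (l 16508040)) (b (l 16515000) (l 16494360))) (a (b (l 16487456) (l 16467816)) (l 16463224)))) (a (b (b (l 16560456) (l 16516952)) (b (l 16581128) (l 16433312))) (l 1))) (b (a (b (a (l 16435928) (l 16422272)) (a (l 16386168) (l 16379104))) (l 1)) (a (b (a (l 16333080) (l 60699380007)) (a (b (l 16302440) (l 16287232)) (l 1))) (l 1)))) (l 1)), by decide +kernel⟩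

theorem c_pm_112 : CertB 536870912 536870912 0 536870912 740881858 40050571 3 eng mog cd1q1 cd0q2 pd1 false true false .dn 1 1 2
    ndB1q1 ndB0q2 pcB1 Cut.none Ext.none :=
  certB2 (fam := false) (s1 := true) (s2 := false) (a := 1) (b := 1) (c := 2) (cn := .dn) (n1 := ndB1q1) (n2 := ndB0q2) (pc := pcB1) (cut := Cut.none) (xt := Ext.none) (P1 := 536870912) (W1 := 536870912) (P2 := 0) (W2 := 536870912) (P3 := 740881858) (W3 := 40050571) (N0 := 3) (En := eng) (mo := mog) (C1 := cd1q1) (C2 := cd0q2) (C3 := pd1)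
    rfl (fun _ => rfl) k0_pm_112

noncomputable def cut_pm_202_a : Cut := Cut.of [[⟨0, 1, 0, 67108864⟩, ⟨1, 0, 0, 67108864⟩, ⟨2, 1, 0, 67108864⟩]]

noncomputable def f_pm_202_a : ℕ → ℕ → ℕ → ℕ → Bool := onCell 0 536870912 0 536870912 740881858 40050571
    (rowB 3 eng mog cd1q2a cd0q2 pd0 0 false true false .pp 2 0 2 (qsf 0 536870912 0 536870912 0) ndB1q2a ndB0q2 pcB0 cut_pm_202_a Ext.none)

def k0_pm_202_a : ∃ t, chk3 f_pm_202_a t 1 1 1 = true :=
  ⟨(a (l 3) (b (l 3) (b (l 3) (a (l 3) (b (l 3) (a (l 3) (l 6))))))), by decide +kernel⟩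

theorem c_pm_202_a : CertB 0 536870912 0 536870912 740881858 40050571 3 eng mog cd1q2a cd0q2 pd0 false true false .pp 2 0 2
    ndB1q2a ndB0q2 pcB0 cut_pm_202_a Ext.none :=
  certB0 (fam := false) (s1 := true) (s2 := false) (a := 2) (b := 0) (c := 2) (cn := .pp) (n1 := ndB1q2a) (n2 := ndB0q2) (pc := pcB0) (cut := cut_pm_202_a) (xt := Ext.none) (P1 := 0) (W1 := 536870912) (P2 := 0) (W2 := 536870912) (P3 := 740881858) (W3 := 40050571) (N0 := 3) (En := eng) (mo := mog) (C1 := cd1q2a) (C2 := cd0q2) (C3 := pd0)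
    rfl k0_pm_202_a

noncomputable def cut_pm_202_b : Cut := Cut.of [[⟨0, 1, 0, 67108864⟩, ⟨1, 0, 0, 67108864⟩, ⟨2, 1, 0, 67108864⟩]]

noncomputable def f_pm_202_b : ℕ → ℕ → ℕ → ℕ → Bool := onCell 1239849684 370763052 0 536870912 740881858 40050571
    (rowB 3 eng mog cd1q2b cd0q2 pd0 0 false true false .pp 2 0 2 (qsf 1239849684 370763052 0 536870912 0) ndB1q2b ndB0q2 pcB0 cut_pm_202_b Ext.none)

def k0_pm_202_b : ∃ t, chk3 f_pm_202_b t 1 1 1 = true :=
  ⟨(l 3), by decide +kernel⟩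

theorem c_pm_202_b : CertB 1239849684 370763052 0 536870912 740881858 40050571 3 eng mog cd1q2b cd0q2 pd0 false true false .pp 2 0 2
    ndB1q2b ndB0q2 pcB0 cut_pm_202_b Ext.none :=
  certB0 (fam := false) (s1 := true) (s2 := false) (a := 2) (b := 0) (c := 2) (cn := .pp) (n1 := ndB1q2b) (n2 := ndB0q2) (pc := pcB0) (cut := cut_pm_202_b) (xt := Ext.none) (P1 := 1239849684) (W1 := 370763052) (P2 := 0) (W2 := 536870912) (P3 := 740881858) (W3 := 40050571) (N0 := 3) (En := eng) (mo := mog) (C1 := cd1q2b) (C2 := cd0q2) (C3 := pd0)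
    rfl k0_pm_202_b

noncomputable def f_mm_001 : ℕ → ℕ → ℕ → ℕ → Bool := onCell 0 536870912 0 536870912 740881858 40050571
    (rowB 3 eng mog cd1q0 cd0q1 pd0 1 false false false .up 0 0 1 (qsf 0 536870912 536870912 536870912 0) ndB1q0 ndB0q1 pcB0 Cut.none Ext.none)

def k0_mm_001 : ∃ t, chk3 f_mm_001 t 1 1 1 = true :=
  ⟨(l 3), by decide +kernel⟩

theorem c_mm_001 : CertB 0 536870912 536870912 536870912 740881858 40050571 3 eng mog cd1q0 cd0q1 pd0 false false false .up 0 0 1
    ndB1q0 ndB0q1 pcB0 Cut.none Ext.none :=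
  certB1 (fam := false) (s1 := false) (s2 := false) (a := 0) (b := 0) (c := 1) (cn := .up) (n1 := ndB1q0) (n2 := ndB0q1) (pc := pcB0) (cut := Cut.none) (xt := Ext.none) (P1 := 0) (W1 := 536870912) (P2 := 536870912) (W2 := 536870912) (P3 := 740881858) (W3 := 40050571) (N0 := 3) (En := eng) (mo := mog) (C1 := cd1q0) (C2 := cd0q1) (C3 := pd0)
    rfl (fun _ => rfl) k0_mm_001

noncomputable def f_mm_011 : ℕ → ℕ → ℕ → ℕ → Bool := onCell 0 536870912 536870912 536870912 740881858 40050571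
    (rowB 3 eng mog cd1q0 cd0q1 pd1 1 false false false .pnn 0 1 1 (qsf 0 536870912 536870912 536870912 1) ndB1q0 ndB0q1 pcB1 Cut.none Ext.none)

def k0_mm_011 : ∃ t, chk3 f_mm_011 t 1 1 1 = true :=
  ⟨(l 5), by decide +kernel⟩

theorem c_mm_011 : CertB 0 536870912 536870912 536870912 740881858 40050571 3 eng mog cd1q0 cd0q1 pd1 false false false .pnn 0 1 1
    ndB1q0 ndB0q1 pcB1 Cut.none Ext.none :=
  certB1 (fam := false) (s1 := false) (s2 := false) (a := 0) (b := 1) (c := 1) (cn := .pnn) (n1 := ndB1q0) (n2 := ndB0q1) (pc := pcB1) (cut := Cut.none) (xt := Ext.none) (P1 := 0) (W1 := 536870912) (P2 := 536870912) (W2 := 536870912) (P3 := 740881858) (W3 := 40050571) (N0 := 3) (En := eng) (mo := mog) (C1 := cd1q0) (C2 := cd0q1) (C3 := pd1)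
    rfl (fun _ => rfl) k0_mm_011

noncomputable def f_mm_012 : ℕ → ℕ → ℕ → ℕ → Bool := onCell 0 536870912 0 536870912 740881858 40050571
    (rowB 3 eng mog cd1q0 cd0q2 pd1 0 false false false .pnp 0 1 2 (qsf 0 536870912 0 536870912 1) ndB1q0 ndB0q2 pcB1 Cut.none Ext.none)

def k0_mm_012 : ∃ t, chk3 f_mm_012 t 1 1 1 = true :=
  ⟨(l 5), by decide +kernel⟩

theorem c_mm_012 : CertB 0 536870912 0 536870912 740881858 40050571 3 eng mog cd1q0 cd0q2 pd1 false false false .pnp 0 1 2
    ndB1q0 ndB0q2 pcB1 Cut.none Ext.none :=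
  certB0 (fam := false) (s1 := false) (s2 := false) (a := 0) (b := 1) (c := 2) (cn := .pnp) (n1 := ndB1q0) (n2 := ndB0q2) (pc := pcB1) (cut := Cut.none) (xt := Ext.none) (P1 := 0) (W1 := 536870912) (P2 := 0) (W2 := 536870912) (P3 := 740881858) (W3 := 40050571) (N0 := 3) (En := eng) (mo := mog) (C1 := cd1q0) (C2 := cd0q2) (C3 := pd1)
    rfl k0_mm_012

noncomputable def f_mm_022 : ℕ → ℕ → ℕ → ℕ → Bool := onCell 0 536870912 0 536870912 740881858 40050571
    (rowB 3 eng mog cd1q0 cd0q2 pd2 0 false false false .pp 0 2 2 (qsf 0 536870912 0 536870912 2) ndB1q0 ndB0q2 pcB2 Cut.none Ext.none)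

def k0_mm_022 : ∃ t, chk3 f_mm_022 t 1 1 1 = true :=
  ⟨(l 5), by decide +kernel⟩

theorem c_mm_022 : CertB 0 536870912 0 536870912 740881858 40050571 3 eng mog cd1q0 cd0q2 pd2 false false false .pp 0 2 2
    ndB1q0 ndB0q2 pcB2 Cut.none Ext.none :=
  certB0 (fam := false) (s1 := false) (s2 := false) (a := 0) (b := 2) (c := 2) (cn := .pp) (n1 := ndB1q0) (n2 := ndB0q2) (pc := pcB2) (cut := Cut.none) (xt := Ext.none) (P1 := 0) (W1 := 536870912) (P2 := 0) (W2 := 536870912) (P3 := 740881858) (W3 := 40050571) (N0 := 3) (En := eng) (mo := mog) (C1 := cd1q0) (C2 := cd0q2) (C3 := pd2)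
    rfl k0_mm_022

noncomputable def f_mm_101 : ℕ → ℕ → ℕ → ℕ → Bool := onCell 536870912 536870912 536870912 536870912 740881858 40050571
    (rowB 3 eng mog cd1q1 cd0q1 pd0 0 false false false .npn 1 0 1 (qsf 536870912 536870912 536870912 536870912 0) ndB1q1 ndB0q1 pcB0 Cut.none Ext.none)

def k0_mm_101 : ∃ t, chk3 f_mm_101 t 1 1 1 = true :=
  ⟨(l 3), by decide +kernel⟩

theorem c_mm_101 : CertB 536870912 536870912 536870912 536870912 740881858 40050571 3 eng mog cd1q1 cd0q1 pd0 false false false .npn 1 0 1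
    ndB1q1 ndB0q1 pcB0 Cut.none Ext.none :=
  certB0 (fam := false) (s1 := false) (s2 := false) (a := 1) (b := 0) (c := 1) (cn := .npn) (n1 := ndB1q1) (n2 := ndB0q1) (pc := pcB0) (cut := Cut.none) (xt := Ext.none) (P1 := 536870912) (W1 := 536870912) (P2 := 536870912) (W2 := 536870912) (P3 := 740881858) (W3 := 40050571) (N0 := 3) (En := eng) (mo := mog) (C1 := cd1q1) (C2 := cd0q1) (C3 := pd0)
    rfl k0_mm_101

noncomputable def f_mm_102 : ℕ → ℕ → ℕ → ℕ → Bool := onCell 536870912 536870912 0 536870912 740881858 40050571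
    (rowB 3 eng mog cd1q1 cd0q2 pd0 0 false false false .npp 1 0 2 (qsf 536870912 536870912 0 536870912 0) ndB1q1 ndB0q2 pcB0 Cut.none Ext.none)

def k0_mm_102 : ∃ t, chk3 f_mm_102 t 1 1 1 = true :=
  ⟨(l 5), by decide +kernel⟩

theorem c_mm_102 : CertB 536870912 536870912 0 536870912 740881858 40050571 3 eng mog cd1q1 cd0q2 pd0 false false false .npp 1 0 2
    ndB1q1 ndB0q2 pcB0 Cut.none Ext.none :=
  certB0 (fam := false) (s1 := false) (s2 := false) (a := 1) (b := 0) (c := 2) (cn := .npp) (n1 := ndB1q1) (n2 := ndB0q2) (pc := pcB0) (cut := Cut.none) (xt := Ext.none) (P1 := 536870912) (W1 := 536870912) (P2 := 0) (W2 := 536870912) (P3 := 740881858) (W3 := 40050571) (N0 := 3) (En := eng) (mo := mog) (C1 := cd1q1) (C2 := cd0q2) (C3 := pd0)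
    rfl k0_mm_102

noncomputable def f_mm_112 : ℕ → ℕ → ℕ → ℕ → Bool := onCell 536870912 536870912 0 536870912 740881858 40050571
    (rowB 3 eng mog cd1q1 cd0q2 pd1 0 false false false .dn 1 1 2 (qsf 536870912 536870912 0 536870912 1) ndB1q1 ndB0q2 pcB1 Cut.none Ext.none)

def k0_mm_112 : ∃ t, chk3 f_mm_112 t 1 1 1 = true :=
  ⟨(l 5), by decide +kernel⟩

theorem c_mm_112 : CertB 536870912 536870912 0 536870912 740881858 40050571 3 eng mog cd1q1 cd0q2 pd1 false false false .dn 1 1 2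
    ndB1q1 ndB0q2 pcB1 Cut.none Ext.none :=
  certB0 (fam := false) (s1 := false) (s2 := false) (a := 1) (b := 1) (c := 2) (cn := .dn) (n1 := ndB1q1) (n2 := ndB0q2) (pc := pcB1) (cut := Cut.none) (xt := Ext.none) (P1 := 536870912) (W1 := 536870912) (P2 := 0) (W2 := 536870912) (P3 := 740881858) (W3 := 40050571) (N0 := 3) (En := eng) (mo := mog) (C1 := cd1q1) (C2 := cd0q2) (C3 := pd1)
    rfl k0_mm_112

noncomputable def f_mm_202_a : ℕ → ℕ → ℕ → ℕ → Bool := onCell 0 536870912 0 536870912 740881858 40050571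
    (rowB 3 eng mog cd1q2a cd0q2 pd0 0 false false false .pp 2 0 2 (qsf 0 536870912 0 536870912 0) ndB1q2a ndB0q2 pcB0 Cut.none Ext.none)

def k0_mm_202_a : ∃ t, chk3 f_mm_202_a t 1 1 1 = true :=
  ⟨(l 3), by decide +kernel⟩

theorem c_mm_202_a : CertB 0 536870912 0 536870912 740881858 40050571 3 eng mog cd1q2a cd0q2 pd0 false false false .pp 2 0 2
    ndB1q2a ndB0q2 pcB0 Cut.none Ext.none :=
  certB0 (fam := false) (s1 := false) (s2 := false) (a := 2) (b := 0) (c := 2) (cn := .pp) (n1 := ndB1q2a) (n2 := ndB0q2) (pc := pcB0) (cut := Cut.none) (xt := Ext.none) (P1 := 0) (W1 := 536870912) (P2 := 0) (W2 := 536870912) (P3 := 740881858) (W3 := 40050571) (N0 := 3) (En := eng) (mo := mog) (C1 := cd1q2a) (C2 := cd0q2) (C3 := pd0)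
    rfl k0_mm_202_a

noncomputable def f_mm_202_b : ℕ → ℕ → ℕ → ℕ → Bool := onCell 1239849684 370763052 0 536870912 740881858 40050571
    (rowB 3 eng mog cd1q2b cd0q2 pd0 0 false false false .pp 2 0 2 (qsf 1239849684 370763052 0 536870912 0) ndB1q2b ndB0q2 pcB0 Cut.none Ext.none)

def k0_mm_202_b : ∃ t, chk3 f_mm_202_b t 1 1 1 = true :=
  ⟨(l 3), by decide +kernel⟩

theorem c_mm_202_b : CertB 1239849684 370763052 0 536870912 740881858 40050571 3 eng mog cd1q2b cd0q2 pd0 false false false .pp 2 0 2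
    ndB1q2b ndB0q2 pcB0 Cut.none Ext.none :=
  certB0 (fam := false) (s1 := false) (s2 := false) (a := 2) (b := 0) (c := 2) (cn := .pp) (n1 := ndB1q2b) (n2 := ndB0q2) (pc := pcB0) (cut := Cut.none) (xt := Ext.none) (P1 := 1239849684) (W1 := 370763052) (P2 := 0) (W2 := 536870912) (P3 := 740881858) (W3 := 40050571) (N0 := 3) (En := eng) (mo := mog) (C1 := cd1q2b) (C2 := cd0q2) (C3 := pd0)
    rfl k0_mm_202_b

end Pool.Agent.Strip051.G.I69_7273.Tab.C.BB10

namespace Pool.Agent.Strip051.G.I69_7273.Tab.C.BB11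

open Pool.Agent.Strip051.PB Pool.Agent.Strip051.PB.T
open Pool.Agent.Strip051.G.I69_7273.Tab

noncomputable def f_pp_001 : ℕ → ℕ → ℕ → ℕ → Bool := onCell 0 536870912 536870912 536870912 740881858 40050571
    (rowB 3 eng mog cd1q0 cd1q1 pd0 0 false true true .up 0 0 1 (qsf 0 536870912 536870912 536870912 0) ndB1q0 ndB1q1 pcB0 Cut.none Ext.none)

def k0_pp_001 : ∃ t, chk3 f_pp_001 t 1 1 1 = true :=
  ⟨(l 3), by decide +kernel⟩

theorem c_pp_001 : CertB 0 536870912 536870912 536870912 740881858 40050571 3 eng mog cd1q0 cd1q1 pd0 false true true .up 0 0 1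
    ndB1q0 ndB1q1 pcB0 Cut.none Ext.none :=
  certB0 (fam := false) (s1 := true) (s2 := true) (a := 0) (b := 0) (c := 1) (cn := .up) (n1 := ndB1q0) (n2 := ndB1q1) (pc := pcB0) (cut := Cut.none) (xt := Ext.none) (P1 := 0) (W1 := 536870912) (P2 := 536870912) (W2 := 536870912) (P3 := 740881858) (W3 := 40050571) (N0 := 3) (En := eng) (mo := mog) (C1 := cd1q0) (C2 := cd1q1) (C3 := pd0)
    rfl k0_pp_001

noncomputable def f_pp_011 : ℕ → ℕ → ℕ → ℕ → Bool := onCell 0 536870912 536870912 536870912 740881858 40050571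
    (rowB 3 eng mog cd1q0 cd1q1 pd1 0 false true true .pnn 0 1 1 (qsf 0 536870912 536870912 536870912 1) ndB1q0 ndB1q1 pcB1 Cut.none Ext.none)

def k0_pp_011 : ∃ t, chk3 f_pp_011 t 1 1 1 = true :=
  ⟨(l 3), by decide +kernel⟩

theorem c_pp_011 : CertB 0 536870912 536870912 536870912 740881858 40050571 3 eng mog cd1q0 cd1q1 pd1 false true true .pnn 0 1 1
    ndB1q0 ndB1q1 pcB1 Cut.none Ext.none :=
  certB0 (fam := false) (s1 := true) (s2 := true) (a := 0) (b := 1) (c := 1) (cn := .pnn) (n1 := ndB1q0) (n2 := ndB1q1) (pc := pcB1) (cut := Cut.none) (xt := Ext.none) (P1 := 0) (W1 := 536870912) (P2 := 536870912) (W2 := 536870912) (P3 := 740881858) (W3 := 40050571) (N0 := 3) (En := eng) (mo := mog) (C1 := cd1q0) (C2 := cd1q1) (C3 := pd1)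
    rfl k0_pp_011

noncomputable def cut_pp_012_a : Cut := Cut.of [[⟨0, 0, 0, 67108864⟩, ⟨1, 1, 0, 67108864⟩, ⟨2, 1, 0, 67108864⟩]]

noncomputable def f_pp_012_a : ℕ → ℕ → ℕ → ℕ → Bool := onCell 536870912 536870912 0 536870912 740881858 40050571
    (rowB 3 eng mog cd1q0 cd1q2a pd1 2 false true true .pnp 0 1 2 (qsf 0 536870912 0 536870912 1) ndB1q0 ndB1q2a pcB1 cut_pp_012_a Ext.none)

def k0_pp_012_a : ∃ t, chk3 f_pp_012_a t 2 1 1 = true :=
  ⟨(a (b (b (l 2) (l 3)) (l 3)) (b (a (b (b (a (l 62377562327) (l 16694288)) (a (a (l 2) (b (l 16705560) (l 165523828231))) (a (b (l 16708912) (l 124184818743)) (l 16708184)))) (a (l 3) (b (b (a (l 3) (l 148343949927)) (l 3)) (l 3)))) (b (b (a (l 16676528) (l 16657152)) (a (a (l 16705136) (l 16699608)) (l 16688824))) (a (b (b (a (l 101636212999) (l 16708784)) (a (l 3) (l 137606572887))) (l 3)) (b (a (b (l 16709448) (l 81235111847)) (l 16711328)) (b (a (l 171966272695) (l 114521132247)) (l 3)))))) (l 3))), by decide +kernel⟩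

def k1_pp_012_a : ∃ t, chk3 f_pp_012_a t 6 1 1 = true :=
  ⟨(b (a (b (a (b (l 16640072) (l 16672312)) (b (l 16622072) (l 16695392))) (b (a (a (l 16708008) (l 16702656)) (a (l 16695968) (l 16687688))) (a (b (a (l 16712840) (l 16721240)) (a (l 148880859703) (l 101636248871))) (a (b (l 16721672) (l 16702352)) (b (l 16717112) (l 16732592)))))) (b (a (b (l 16603912) (l 16635288)) (l 16687544)) (b (a (l 16735304) (b (l 16642800) (l 16661408))) (a (a (l 16719064) (l 16729488)) (b (l 16681072) (l 16722952)))))) (b (a (b (a (l 3) (b (a (l 139217265079) (b (l 16724464) (l 130627330151))) (l 3))) (l 3)) (b (a (b (a (b (l 16738808) (l 16732008)) (l 16738816)) (a (l 141901629895) (b (l 16736640) (l 101636382503)))) (b (a (l 16729352) (l 16718360)) (a (b (l 16743752) (l 16742464)) (l 16739856)))) (a (b (a (l 3) (l 140827918551)) (l 3)) (b (a (b (l 93046452647) (l 130627380151)) (b (l 16748480) (l 16790328))) (a (l 3) (b (l 114521256711) (l 3))))))) (l 3))), by decide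 +kernel⟩

def k2_pp_012_a : ∃ t, chk3 f_pp_012_a t 7 2 1 = true :=
  ⟨(a (b (a (l 16588624) (l 16493160)) (a (a (b (l 16639728) (l 16676888)) (b (l 16632440) (l 16668184))) (b (l 16622744) (a (l 16619224) (l 16656432))))) (b (a (l 16569656) (l 16588480)) (a (b (l 16614128) (l 16735080)) (b (l 16597000) (a (l 16624264) (l 16604184)))))), by decide +kernel⟩

def k3_pp_012_a : ∃ t, chk3 f_pp_012_a t 7 3 1 = true :=
  ⟨(a (b (a (b (a (b (l 16707592) (l 16729272)) (b (l 16697136) (l 16717832))) (a (b (b (l 16744776) (l 16752024)) (b (l 68887274231) (l 130627433703))) (b (l 16738568) (b (l 16752304) (l 16787464))))) (b (a (b (l 16687736) (l 16706888)) (l 16690104)) (a (b (l 16684320) (a (l 16748640) (l 16742496))) (b (l 16716424) (l 16713456))))) (b (a (b (a (l 3) (b (b (l 133311792215) (l 214379235975)) (l 3))) (l 3)) (b (a (b (a (l 16750688) (l 16752944)) (a (l 237464684599) (l 178945813047))) (b (l 16747304) (a (l 16751816) (l 16753928)))) (a (l 3) (b (a (l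 190220107319) (l 137606741847)) (a (l 3) (l 255718312439)))))) (l 3))) (b (a (a (b (l 16686352) (b (l 16710832) (l 16727304))) (b (l 16670576) (b (l 16698824) (l 16721904)))) (b (a (b (l 16640256) (l 16656776)) (b (l 16598008) (l 16634816))) (a (b (l 16677544) (l 16702064)) (b (l 16655944) (l 16706408))))) (b (a (b (a (b (l 16738648) (l 16746808)) (l 16745208)) (a (b (a (l 16758232) (l 16754472)) (a (b (l 16781160) (l 214379283511)) (b (l 16761016) (l 16761888)))) (a (b (l 16750208) (l 16760184)) (l 16724944)))) (a (b (b (l 16722712) (l 16731120)) (a (l 16747112) (l 16743304))) (b (a (l 16712616) (l 16722192)) (a (l 16734592) (b (l 16696896) (l 6)))))) (a (b (a (b (a (l 3) (b (l 175724581879) (l 3))) (l 3)) (b (a (b (l 16764216) (l 170355872983)) (b (l 16763472) (l 16767264))) (a (l 3) (b (a (l 173040220183) (l 16780784)) (l 233706601463))))) (l 3)) (b (a (b (a (l 16740640) (l 6)) (l 6)) (l 6)) (l 6)))))), by decide +kernel⟩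

theorem s4_pp_012_a : ∃ t, chk3 f_pp_012_a t 7 1 1 = true := ex3_b k2_pp_012_a k3_pp_012_a

theorem s5_pp_012_a : ∃ t, chk3 f_pp_012_a t 3 1 1 = true := ex3_a k1_pp_012_a s4_pp_012_a

theorem s6_pp_012_a : ∃ t, chk3 f_pp_012_a t 1 1 1 = true := ex3_a k0_pp_012_a s5_pp_012_a

theorem c_pp_012_a : CertB 0 536870912 0 536870912 740881858 40050571 3 eng mog cd1q0 cd1q2a pd1 false true true .pnp 0 1 2
    ndB1q0 ndB1q2a pcB1 cut_pp_012_a Ext.none :=
  certB2 (fam := false) (s1 := true) (s2 := true) (a := 0) (b := 1) (c := 2) (cn := .pnp) (n1 := ndB1q0) (n2 := ndB1q2a) (pc := pcB1) (cut := cut_pp_012_a) (xt := Ext.none) (P1 := 0) (W1 := 536870912) (P2 := 0) (W2 := 536870912) (P3 := 740881858) (W3 := 40050571) (N0 := 3) (En := eng) (mo := mog) (C1 := cd1q0) (C2 := cd1q2a) (C3 := pd1)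
    rfl (fun _ => rfl) s6_pp_012_a

noncomputable def cut_pp_012_b : Cut := Cut.of [[⟨0, 0, 0, 67108864⟩, ⟨1, 1, 0, 67108864⟩, ⟨2, 1, 0, 67108864⟩]]

noncomputable def f_pp_012_b : ℕ → ℕ → ℕ → ℕ → Bool := onCell 536870912 536870912 1239849684 370763052 740881858 40050571
    (rowB 3 eng mog cd1q0 cd1q2b pd1 2 false true true .pnp 0 1 2 (qsf 0 536870912 1239849684 370763052 1) ndB1q0 ndB1q2b pcB1 cut_pp_012_b Ext.none)

def k0_pp_012_b : ∃ t, chk3 f_pp_012_b t 1 1 1 = true :=
  ⟨(a (b (a (l 2) (a (b (a (b (l 16688480) (l 2)) (l 16760224)) (l 2)) (a (b (l 16650872) (l 2)) (b (l 16688952) (l 16557928))))) (l 2)) (a (a (b (b (b (l 16590632) (l 16548464)) (a (l 16523528) (l 16487888))) (l 2)) (b (b (b (l 16551376) (l 16497240)) (l 16437248)) (b (l 16396416) (l 2)))) (b (a (b (a (l 16535176) (l 16581360)) (l 16457736)) (b (a (l 16463232) (b (l 16498568) (l 16412800))) (a (l 16331400) (l 16307088)))) (a (b (l 16310616) (l 16295904)) (b (l 16229856) (l 16192816)))))),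 by decide +kernel⟩

theorem c_pp_012_b : CertB 0 536870912 1239849684 370763052 740881858 40050571 3 eng mog cd1q0 cd1q2b pd1 false true true .pnp 0 1 2
    ndB1q0 ndB1q2b pcB1 cut_pp_012_b Ext.none :=
  certB2 (fam := false) (s1 := true) (s2 := true) (a := 0) (b := 1) (c := 2) (cn := .pnp) (n1 := ndB1q0) (n2 := ndB1q2b) (pc := pcB1) (cut := cut_pp_012_b) (xt := Ext.none) (P1 := 0) (W1 := 536870912) (P2 := 1239849684) (W2 := 370763052) (P3 := 740881858) (W3 := 40050571) (N0 := 3) (En := eng) (mo := mog) (C1 := cd1q0) (C2 := cd1q2b) (C3 := pd1)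
    rfl (fun _ => rfl) k0_pp_012_b

noncomputable def cut_pp_022_a : Cut := Cut.of [[⟨0, 0, 0, 67108864⟩, ⟨1, 1, 0, 67108864⟩, ⟨2, 1, 0, 67108864⟩]]

noncomputable def f_pp_022_a : ℕ → ℕ → ℕ → ℕ → Bool := onCell 1073741824 536870912 0 536870912 740881858 40050571
    (rowB 3 eng mog cd1q0 cd1q2a pd2 2 false true true .pp 0 2 2 (qsf 0 536870912 0 536870912 2) ndB1q0 ndB1q2a pcB2 cut_pp_022_a Ext.none)

def k0_pp_022_a : ∃ t, chk3 f_pp_022_a t 4 2 1 = true :=
  ⟨(a (b (a (b (a (l 16446624) (l 16459760)) (a (l 16467200) (l 16480864))) (b (a (l 16469720) (l 16435576)) (a (l 16491240) (l 16499672)))) (a (b (a (c (l 16501000) (l 16491304)) (l 16530728)) (a (b (l 16521704) (l 16540160)) (b (l 16534920) (l 16553536)))) (a (b (l 16457592) (l 16555960)) (b (l 16529560) (l 16565608))))) (b (a (b (c (l 16481496) (l 16492632)) (c (l 16504528) (l 16508408))) (a (b (l 16480944) (c (l 16487208) (l 16472880))) (b (c (l 16466656) (l 16448792)) (c (a (l 16469704) (l 16455048))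 (l 16464776))))) (c (a (b (l 16543240) (a (l 16544232) (l 16519720))) (a (b (a (l 16495456) (l 16484136)) (b (l 16492600) (l 16515720))) (b (a (l 16468720) (l 16450728)) (b (a (l 16468312) (l 16447368)) (a (l 16468056) (l 192769565159)))))) (a (a (b (l 16527800) (l 16539064)) (b (l 16501776) (l 16424920))) (b (a (a (l 16481176) (l 16466904)) (b (l 16440872) (l 16439224))) (a (b (l 16475888) (a (l 16486008) (l 16468952))) (a (b (l 16448424) (l 16447808)) (b (l 16426696) (b (l 16424776) (l 286721908199)))))))))), by decide +kernel⟩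

def k1_pp_022_a : ∃ t, chk3 f_pp_022_a t 5 2 1 = true :=
  ⟨(a (b (b (a (a (c (b (l 16444688) (l 16439296)) (l 16420320)) (a (b (l 16414544) (l 16407168)) (b (l 16442488) (l 288869462775)))) (l 1)) (a (a (a (b (l 16431840) (l 16427776)) (b (l 16416152) (l 16410576))) (a (b (l 16400024) (c (l 16404384) (l 16380520))) (b (a (l 16387656) (l 702260016727)) (a (l 483753546791) (l 1))))) (l 1))) (a (a (b (b (a (l 16423784) (c (l 16415776) (l 16393312))) (a (c (l 16430040) (l 16408632)) (c (l 322155385047) (l 285111239447)))) (c (a (b (l 270078941415) (l 323766019255)) (b (l 305512355991) (l 1))) (b (a (l 280279436327) (l 266320735447)) (a (l 275447587767) (l 1))))) (b (a (b (c (l 318397301879) (l 299606770183)) (b (l 1) (l 1))) (l 1)) (l 1))) (l 1))) (l 1)), by decide +kernel⟩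

def k2_pp_022_a : ∃ t, chk3 f_pp_022_a t 8 3 1 = true :=
  ⟨(b (a (b (a (b (l 16559304) (l 16582840)) (b (l 16573160) (l 16596960))) (a (b (l 16609232) (l 16656008)) (b (l 16623040) (l 16648512)))) (a (b (l 16660512) (b (l 16629904) (l 16641856))) (b (b (l 16580752) (l 16589048)) (b (a (l 16605696) (l 16589024)) (a (l 16615544) (b (l 16595256) (l 16599712))))))) (a (b (b (a (b (l 16653560) (l 16688800)) (b (l 16666760) (l 16680832))) (l 6)) (l 6)) (b (a (b (b (l 16609552) (b (l 16613648) (l 6))) (l 6)) (b (a (b (l 16623520) (b (l 16626752) (l 6))) (b (a (l 16609224) (b (l 16598416) (l 16621712))) (a (b (l 16612032) (l 6)) (c (b (l 182032459847) (l 133714074855)) (l 190085515783))))) (a (l 6) (a (l 6) (l 1))))) (a (l 6) (l 1))))), by decide +kernel⟩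

def k3_pp_022_a : ∃ t, chk3 f_pp_022_a t 9 3 1 = true :=
  ⟨(b (a (b (a (b (a (l 16559064) (l 16544040)) (a (l 16565232) (l 16548536))) (b (c (l 16526072) (l 16514912)) (a (l 16531432) (b (l 16513776) (l 16514048))))) (a (b (a (l 16571352) (l 16552728)) (a (b (l 16576288) (a (l 16585112) (l 16574512))) (b (a (l 16561160) (l 16550992)) (a (l 238403848679) (l 237866958935))))) (b (a (b (l 16533128) (l 16534344)) (b (l 200285873511) (l 195454033991))) (b (a (a (l 16540752) (l 180958600039)) (l 1)) (l 1))))) (b (a (b (c (a (l 16504160) (l 16509944)) (a (l 16488200) (b (l 16469840) (l 16469912)))) (a (b (l 16496336) (l 186327191847)) (c (l 297996358503) (b (l 226055593351) (l 247530423863))))) (b (a (c (l 202433317991) (b (l 16447336) (l 293164415271))) (c (l 347925274423) (b (l 263636455431) (l 1)))) (l 1))) (a (b (a (b (l 222834410599) (l 1)) (l 1)) (l 1)) (l 1)))) (a (b (b (a (b (c (a (a (l 236793276327) (l 240014478647)) (l 197601628087)) (a (a (l 240014487703)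 (l 227129559479)) (l 182032369863))) (a (a (c (b (l 144988346743) (l 1)) (l 149283303415)) (l 1)) (l 1))) (l 1)) (l 1)) (l 1)) (l 1))), by decide +kernel⟩

def k4_pp_022_a : ∃ t, chk3 f_pp_022_a t 5 3 1 = true :=
  ⟨(b (l 1) (l 1)), by decide +kernel⟩

def k5_pp_022_a : ∃ t, chk3 f_pp_022_a t 3 1 1 = true :=
  ⟨(l 1), by decide +kernel⟩

theorem s6_pp_022_a : ∃ t, chk3 f_pp_022_a t 4 3 1 = true := ex3_a k2_pp_022_a k3_pp_022_a

theorem s7_pp_022_a : ∃ t, chk3 f_pp_022_a t 2 3 1 = true := ex3_a s6_pp_022_a k4_pp_022_a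

theorem s8_pp_022_a : ∃ t, chk3 f_pp_022_a t 2 2 1 = true := ex3_a k0_pp_022_a k1_pp_022_a

theorem s9_pp_022_a : ∃ t, chk3 f_pp_022_a t 2 1 1 = true := ex3_b s8_pp_022_a s7_pp_022_a

theorem s10_pp_022_a : ∃ t, chk3 f_pp_022_a t 1 1 1 = true := ex3_a s9_pp_022_a k5_pp_022_a

theorem c_pp_022_a : CertB 0 536870912 0 536870912 740881858 40050571 3 eng mog cd1q0 cd1q2a pd2 false true true .pp 0 2 2
    ndB1q0 ndB1q2a pcB2 cut_pp_022_a Ext.none :=
  certB2 (fam := false) (s1 := true) (s2 := true) (a := 0) (b := 2) (c := 2) (cn := .pp) (n1 := ndB1q0) (n2 := ndB1q2a) (pc := pcB2) (cut := cut_pp_022_a) (xt := Ext.none) (P1 := 0) (W1 := 536870912) (P2 := 0) (W2 := 536870912) (P3 := 740881858) (W3 := 40050571) (N0 := 3) (En := eng) (mo := mog) (C1 := cd1q0) (C2 := cd1q2a) (C3 := pd2)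
    rfl (fun _ => rfl) s10_pp_022_a

noncomputable def cut_pp_022_b : Cut := Cut.of [[⟨0, 0, 0, 67108864⟩, ⟨1, 1, 0, 67108864⟩, ⟨2, 1, 0, 67108864⟩]]

noncomputable def f_pp_022_b : ℕ → ℕ → ℕ → ℕ → Bool := onCell 0 536870912 1073741824 536870912 740881858 40050571
    (rowB 3 eng mog cd1q0 cd1q2b pd2 1 false true true .pp 0 2 2 (qsf 0 536870912 1239849684 370763052 2) ndB1q0 ndB1q2b pcB2 cut_pp_022_b Ext.none)

def k0_pp_022_b : ∃ t, chk3 f_pp_022_b t 1 1 1 = true :=
  ⟨(b (a (b (a (b (a (l 1) (b (a (l 1) (l 225518546247)) (b (a (l 1) (l 16497456)) (a (l 16520392) (l 16490872))))) (a (a (b (l 1) (b (l 1) (l 310881028647))) (b (b (l 1) (l 16537584)) (b (l 118681625591) (l 16495768)))) (b (c (l 16573064) (l 16551208)) (c (l 16440872) (l 16394456))))) (b (a (b (a (l 16526768) (l 16371872)) (l 16528440)) (b (l 16277472) (l 16241928))) (a (b (l 16439568) (l 16267432)) (b (l 16205224) (l 16169160))))) (a (b (a (a (b (b (c (l 351683355271) (l 294238208359)) (a (b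 (l 16419248) (l 16444144)) (l 16433392))) (b (a (l 16368752) (l 16361216)) (l 16321224))) (b (b (l 16419488) (l 16386024)) (l 16327264))) (b (a (l 16450248) (l 16307384)) (l 16294056))) (a (a (b (a (l 16260888) (l 16257960)) (l 16185256)) (b (l 16251528) (l 16184304))) (b (l 16230768) (l 16175160)))) (b (b (a (l 16227064) (l 16139024)) (a (l 16203320) (l 16127840))) (a (l 16170008) (l 16121400))))) (b (a (b (a (b (l 16173576) (l 16147872)) (l 16088144)) (a (l 16192080) (l 16054560))) (b (a (l 16042808) (l 16025528)) (l 16045312))) (b (a (b (l 16052784) (l 16059152)) (l 16061968)) (a (l 16085312) (l 2))))) (b (a (a (b (a (a (b (l 16119712) (l 16062752)) (l 16099024)) (l 16189648)) (a (a (l 15992848) (l 16013080)) (l 16038080))) (b (l 16101720) (l 16078248))) (a (b (l 16096408) (l 2)) (l 2))) (a (a (b (a (l 15984632) (l 15998200)) (a (l 15908944) (l 15979352))) (b (l 16074288) (l 2))) (l 2)))), by decide +kernel⟩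

theorem c_pp_022_b : CertB 0 536870912 1239849684 370763052 740881858 40050571 3 eng mog cd1q0 cd1q2b pd2 false true true .pp 0 2 2
    ndB1q0 ndB1q2b pcB2 cut_pp_022_b Ext.none :=
  certB1 (fam := false) (s1 := true) (s2 := true) (a := 0) (b := 2) (c := 2) (cn := .pp) (n1 := ndB1q0) (n2 := ndB1q2b) (pc := pcB2) (cut := cut_pp_022_b) (xt := Ext.none) (P1 := 0) (W1 := 536870912) (P2 := 1239849684) (W2 := 370763052) (P3 := 740881858) (W3 := 40050571) (N0 := 3) (En := eng) (mo := mog) (C1 := cd1q0) (C2 := cd1q2b) (C3 := pd2)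
    rfl (fun _ => rfl) k0_pp_022_b

noncomputable def f_pp_023 : ℕ → ℕ → ℕ → ℕ → Bool := onCell 0 536870912 1073741824 536870912 740881858 40050571
    (rowB 3 eng mog cd1q0 cd1q3 pd2 1 false true true .up 0 2 3 (qsf 0 536870912 1610612736 536870912 2) ndB1q0 ndB1q3 pcB2 Cut.none Ext.none)

def k0_pp_023 : ∃ t, chk3 f_pp_023 t 1 1 1 = true :=
  ⟨(b (a (b (l 1) (a (l 1) (b (l 1) (l 304438599287)))) (b (a (b (l 1) (l 223907828087)) (b (l 16137472) (l 16028536))) (b (a (l 339871921703) (l 16049064)) (a (l 16088112) (l 16130312))))) (b (a (a (b (l 1) (l 475700032727)) (b (l 16099784) (l 16071936))) (a (b (l 16109352) (l 16108904)) (l 16241360))) (a (a (b (l 504154018727) (l 499322130807)) (b (l 16061144) (l 16056336))) (a (b (l 16091160) (l 16230328)) (l 16432872))))), by decide +kernel⟩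

theorem c_pp_023 : CertB 0 536870912 1610612736 536870912 740881858 40050571 3 eng mog cd1q0 cd1q3 pd2 false true true .up 0 2 3
    ndB1q0 ndB1q3 pcB2 Cut.none Ext.none :=
  certB1 (fam := false) (s1 := true) (s2 := true) (a := 0) (b := 2) (c := 3) (cn := .up) (n1 := ndB1q0) (n2 := ndB1q3) (pc := pcB2) (cut := Cut.none) (xt := Ext.none) (P1 := 0) (W1 := 536870912) (P2 := 1610612736) (W2 := 536870912) (P3 := 740881858) (W3 := 40050571) (N0 := 3) (En := eng) (mo := mog) (C1 := cd1q0) (C2 := cd1q3) (C3 := pd2)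
    rfl (fun _ => rfl) k0_pp_023

noncomputable def f_pp_033 : ℕ → ℕ → ℕ → ℕ → Bool := onCell 0 536870912 1610612736 536870912 740881858 40050571
    (rowB 3 eng mog cd1q0 cd1q3 pd3 1 false true true .pnn 0 3 3 (qsf 0 536870912 1610612736 536870912 3) ndB1q0 ndB1q3 pcB3 Cut.none Ext.none)

def k0_pp_033 : ∃ t, chk3 f_pp_033 t 1 1 1 = true :=
  ⟨(a (b (b (b (a (a (l 15878352) (l 15949944)) (l 16047072)) (a (l 15895416) (l 16106440))) (b (a (b (l 15909296) (l 15944976)) (l 16199280)) (l 4))) (a (l 4) (b (l 4) (a (b (l 4) (l 2)) (l 2))))) (b (a (b (b (l 16317904) (l 16378000)) (b (l 16446528) (l 4))) (b (b (l 16525536) (l 16577200)) (a (b (l 4) (l 2)) (l 2)))) (a (b (a (b (l 4) (l 2)) (l 2)) (l 2)) (l 2)))), by decide +kernel⟩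

theorem c_pp_033 : CertB 0 536870912 1610612736 536870912 740881858 40050571 3 eng mog cd1q0 cd1q3 pd3 false true true .pnn 0 3 3
    ndB1q0 ndB1q3 pcB3 Cut.none Ext.none :=
  certB1 (fam := false) (s1 := true) (s2 := true) (a := 0) (b := 3) (c := 3) (cn := .pnn) (n1 := ndB1q0) (n2 := ndB1q3) (pc := pcB3) (cut := Cut.none) (xt := Ext.none) (P1 := 0) (W1 := 536870912) (P2 := 1610612736) (W2 := 536870912) (P3 := 740881858) (W3 := 40050571) (N0 := 3) (En := eng) (mo := mog) (C1 := cd1q0) (C2 := cd1q3) (C3 := pd3)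
    rfl (fun _ => rfl) k0_pp_033

noncomputable def f_pp_101 : ℕ → ℕ → ℕ → ℕ → Bool := onCell 536870912 536870912 536870912 536870912 740881858 40050571
    (rowB 3 eng mog cd1q1 cd1q1 pd0 0 false true true .npn 1 0 1 (qsf 536870912 536870912 536870912 536870912 0) ndB1q1 ndB1q1 pcB0 Cut.none Ext.none)

def k0_pp_101 : ∃ t, chk3 f_pp_101 t 1 1 1 = true :=
  ⟨(l 3), by decide +kernel⟩

theorem c_pp_101 : CertB 536870912 536870912 536870912 536870912 740881858 40050571 3 eng mog cd1q1 cd1q1 pd0 false true true .npn 1 0 1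
    ndB1q1 ndB1q1 pcB0 Cut.none Ext.none :=
  certB0 (fam := false) (s1 := true) (s2 := true) (a := 1) (b := 0) (c := 1) (cn := .npn) (n1 := ndB1q1) (n2 := ndB1q1) (pc := pcB0) (cut := Cut.none) (xt := Ext.none) (P1 := 536870912) (W1 := 536870912) (P2 := 536870912) (W2 := 536870912) (P3 := 740881858) (W3 := 40050571) (N0 := 3) (En := eng) (mo := mog) (C1 := cd1q1) (C2 := cd1q1) (C3 := pd0)
    rfl k0_pp_101

noncomputable def f_pp_102_a : ℕ → ℕ → ℕ → ℕ → Bool := onCell 0 536870912 0 536870912 740881858 40050571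
    (rowB 3 eng mog cd1q1 cd1q2a pd0 2 false true true .npp 1 0 2 (qsf 536870912 536870912 0 536870912 0) ndB1q1 ndB1q2a pcB0 Cut.none Ext.none)

def k0_pp_102_a : ∃ t, chk3 f_pp_102_a t 1 1 1 = true :=
  ⟨(a (a (l 3) (l 3)) (l 3)), by decide +kernel⟩

theorem c_pp_102_a : CertB 536870912 536870912 0 536870912 740881858 40050571 3 eng mog cd1q1 cd1q2a pd0 false true true .npp 1 0 2
    ndB1q1 ndB1q2a pcB0 Cut.none Ext.none :=
  certB2 (fam := false) (s1 := true) (s2 := true) (a := 1) (b := 0) (c := 2) (cn := .npp) (n1 := ndB1q1) (n2 := ndB1q2a) (pc := pcB0) (cut := Cut.none) (xt := Ext.none) (P1 := 536870912) (W1 := 536870912) (P2 := 0) (W2 := 536870912) (P3 := 740881858) (W3 := 40050571) (N0 := 3) (En := eng) (mo := mog) (C1 := cd1q1) (C2 := cd1q2a) (C3 := pd0)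
    rfl (fun _ => rfl) k0_pp_102_a

noncomputable def f_pp_102_b : ℕ → ℕ → ℕ → ℕ → Bool := onCell 536870912 536870912 0 536870912 740881858 40050571
    (rowB 3 eng mog cd1q1 cd1q2b pd0 1 false true true .npp 1 0 2 (qsf 536870912 536870912 1239849684 370763052 0) ndB1q1 ndB1q2b pcB0 Cut.none Ext.none)

def k0_pp_102_b : ∃ t, chk3 f_pp_102_b t 1 1 1 = true :=
  ⟨(a (a (l 1) (l 3)) (l 3)), by decide +kernel⟩

theorem c_pp_102_b : CertB 536870912 536870912 1239849684 370763052 740881858 40050571 3 eng mog cd1q1 cd1q2b pd0 false true true .npp 1 0 2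
    ndB1q1 ndB1q2b pcB0 Cut.none Ext.none :=
  certB1 (fam := false) (s1 := true) (s2 := true) (a := 1) (b := 0) (c := 2) (cn := .npp) (n1 := ndB1q1) (n2 := ndB1q2b) (pc := pcB0) (cut := Cut.none) (xt := Ext.none) (P1 := 536870912) (W1 := 536870912) (P2 := 1239849684) (W2 := 370763052) (P3 := 740881858) (W3 := 40050571) (N0 := 3) (En := eng) (mo := mog) (C1 := cd1q1) (C2 := cd1q2b) (C3 := pd0)
    rfl (fun _ => rfl) k0_pp_102_b

noncomputable def f_pp_112_a : ℕ → ℕ → ℕ → ℕ → Bool := onCell 536870912 536870912 0 536870912 740881858 40050571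
    (rowB 3 eng mog cd1q1 cd1q2a pd1 0 false true true .dn 1 1 2 (qsf 536870912 536870912 0 536870912 1) ndB1q1 ndB1q2a pcB1 Cut.none Ext.none)

def k0_pp_112_a : ∃ t, chk3 f_pp_112_a t 1 1 1 = true :=
  ⟨(a (b (a (a (b (b (a (b (l 16655256) (a (l 16659664) (l 16665936))) (b (a (l 16666008) (l 16670368)) (a (b (l 16669072) (l 102173049911)) (b (l 101636181623) (l 154249500423))))) (a (b (a (b (l 16663296) (a (l 78550717351) (l 126869098135))) (b (a (l 16665616) (l 127942840871)) (l 151565136711))) (a (b (l 149954517271) (l 3)) (l 3))) (b (a (l 155323232119) (l 3)) (l 3)))) (l 3)) (b (b (a (b (a (b (l 16672144) (l 103246796807)) (b (l 111299862263) (l 158544472183))) (a (l 159081335799) (l 3))) (b (a (l 161765693447) (l 3)) (l 3))) (l 3)) (l 3))) (l 3)) (l 3)) (l 1)), by decide +kernel⟩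

theorem c_pp_112_a : CertB 536870912 536870912 0 536870912 740881858 40050571 3 eng mog cd1q1 cd1q2a pd1 false true true .dn 1 1 2
    ndB1q1 ndB1q2a pcB1 Cut.none Ext.none :=
  certB0 (fam := false) (s1 := true) (s2 := true) (a := 1) (b := 1) (c := 2) (cn := .dn) (n1 := ndB1q1) (n2 := ndB1q2a) (pc := pcB1) (cut := Cut.none) (xt := Ext.none) (P1 := 536870912) (W1 := 536870912) (P2 := 0) (W2 := 536870912) (P3 := 740881858) (W3 := 40050571) (N0 := 3) (En := eng) (mo := mog) (C1 := cd1q1) (C2 := cd1q2a) (C3 := pd1)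
    rfl k0_pp_112_a

noncomputable def f_pp_112_b : ℕ → ℕ → ℕ → ℕ → Bool := onCell 536870912 536870912 1239849684 370763052 740881858 40050571
    (rowB 3 eng mog cd1q1 cd1q2b pd1 2 false true true .dn 1 1 2 (qsf 536870912 536870912 1239849684 370763052 1) ndB1q1 ndB1q2b pcB1 Cut.none Ext.none)

def k0_pp_112_b : ∃ t, chk3 f_pp_112_b t 1 1 1 = true :=
  ⟨(a (a (a (b (a (l 3) (b (a (l 3) (b (l 153175808935) (l 3))) (l 3))) (l 3)) (b (b (a (b (a (b (l 16668032) (l 16655848)) (l 16661792)) (l 16655000)) (b (l 16656072) (l 16634568))) (a (l 176261248999) (l 16655360))) (b (a (l 3) (l 3)) (l 3)))) (a (b (b (a (b (l 16641568) (l 16623480)) (b (l 16618960) (l 16603328))) (a (l 16593152) (l 16578960))) (b (a (l 115058021543) (l 16548896)) (a (l 3) (l 137069570663)))) (b (b (a (l 16584592) (l 163242105799)) (a (l 16556208) (l 16527568))) (b (l 16736776) (a (l 16532016) (l 16527704)))))) (a (a (b (b (l 1) (l 140693578119)) (b (l 16508640) (l 16637544))) (b (b (l 1)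 (l 16401544)) (b (l 16386008) (l 16407176)))) (b (l 1) (b (l 182032257031) (l 83247919479))))), by decide +kernel⟩

theorem c_pp_112_b : CertB 536870912 536870912 1239849684 370763052 740881858 40050571 3 eng mog cd1q1 cd1q2b pd1 false true true .dn 1 1 2
    ndB1q1 ndB1q2b pcB1 Cut.none Ext.none :=
  certB2 (fam := false) (s1 := true) (s2 := true) (a := 1) (b := 1) (c := 2) (cn := .dn) (n1 := ndB1q1) (n2 := ndB1q2b) (pc := pcB1) (cut := Cut.none) (xt := Ext.none) (P1 := 536870912) (W1 := 536870912) (P2 := 1239849684) (W2 := 370763052) (P3 := 740881858) (W3 := 40050571) (N0 := 3) (En := eng) (mo := mog) (C1 := cd1q1) (C2 := cd1q2b) (C3 := pd1)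
    rfl (fun _ => rfl) k0_pp_112_b

noncomputable def f_pp_113 : ℕ → ℕ → ℕ → ℕ → Bool := onCell 536870912 536870912 536870912 536870912 740881858 40050571
    (rowB 3 eng mog cd1q1 cd1q3 pd1 1 false true true .nn 1 1 3 (qsf 536870912 536870912 1610612736 536870912 1) ndB1q1 ndB1q3 pcB1 Cut.none Ext.none)

def k0_pp_113 : ∃ t, chk3 f_pp_113 t 1 1 1 = true :=
  ⟨(b (b (a (l 1) (l 3)) (a (b (l 1) (a (l 1) (l 176664086087))) (b (a (b (l 3) (l 154249391447)) (l 3)) (a (b (l 148880691303) (a (l 16546744) (l 16569072))) (l 3))))) (b (a (b (a (l 1) (l 67679241399)) (a (l 16389320) (l 16491600))) (b (a (b (l 16608544) (l 16675048)) (a (b (l 242296209399) (l 16772544)) (b (l 3) (l 303499431335)))) (a (b (l 16760704) (l 16868616)) (b (a (l 16831272) (l 186461543111)) (a (l 16889704) (l 16770336)))))) (a (a (l 148746306167) (l 16507960)) (b (a (b (l 16966056) (l 16905768)) (b (l 16868424) (l 16894984))) (a (l 16825488) (a (l 16864760) (l 16883216))))))), by decide +kernel⟩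

theorem c_pp_113 : CertB 536870912 536870912 1610612736 536870912 740881858 40050571 3 eng mog cd1q1 cd1q3 pd1 false true true .nn 1 1 3
    ndB1q1 ndB1q3 pcB1 Cut.none Ext.none :=
  certB1 (fam := false) (s1 := true) (s2 := true) (a := 1) (b := 1) (c := 3) (cn := .nn) (n1 := ndB1q1) (n2 := ndB1q3) (pc := pcB1) (cut := Cut.none) (xt := Ext.none) (P1 := 536870912) (W1 := 536870912) (P2 := 1610612736) (W2 := 536870912) (P3 := 740881858) (W3 := 40050571) (N0 := 3) (En := eng) (mo := mog) (C1 := cd1q1) (C2 := cd1q3) (C3 := pd1)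
    rfl (fun _ => rfl) k0_pp_113

noncomputable def f_pp_123 : ℕ → ℕ → ℕ → ℕ → Bool := onCell 1073741824 536870912 1610612736 536870912 740881858 40050571
    (rowB 3 eng mog cd1q1 cd1q3 pd2 2 false true true .npn 1 2 3 (qsf 536870912 536870912 1610612736 536870912 2) ndB1q1 ndB1q3 pcB2 Cut.none Ext.none)

def k0_pp_123 : ∃ t, chk3 f_pp_123 t 1 1 1 = true :=
  ⟨(a (a (b (b (a (l 16085872) (l 16077216)) (a (l 16335672) (l 16218192))) (a (b (l 16594736) (b (l 16639384) (l 16630344))) (b (l 16476848) (b (l 16544776) (l 16452616))))) (b (a (b (l 16337320) (l 16180416)) (b (l 1) (l 16232496))) (a (b (l 16399032) (a (l 16513352) (l 16628784))) (b (l 16393064) (l 16509888))))) (a (a (b (l 240550951751) (b (l 16407104) (l 16523184))) (b (l 1) (l 199749468679))) (b (l 1) (b (l 16376352) (l 16568936))))), by decide +kernel⟩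

theorem c_pp_123 : CertB 536870912 536870912 1610612736 536870912 740881858 40050571 3 eng mog cd1q1 cd1q3 pd2 false true true .npn 1 2 3
    ndB1q1 ndB1q3 pcB2 Cut.none Ext.none :=
  certB2 (fam := false) (s1 := true) (s2 := true) (a := 1) (b := 2) (c := 3) (cn := .npn) (n1 := ndB1q1) (n2 := ndB1q3) (pc := pcB2) (cut := Cut.none) (xt := Ext.none) (P1 := 536870912) (W1 := 536870912) (P2 := 1610612736) (W2 := 536870912) (P3 := 740881858) (W3 := 40050571) (N0 := 3) (En := eng) (mo := mog) (C1 := cd1q1) (C2 := cd1q3) (C3 := pd2)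
    rfl (fun _ => rfl) k0_pp_123

noncomputable def f_pp_133 : ℕ → ℕ → ℕ → ℕ → Bool := onCell 1610612736 536870912 1610612736 536870912 740881858 40050571
    (rowB 3 eng mog cd1q1 cd1q3 pd3 2 false true true .dn 1 3 3 (qsf 536870912 536870912 1610612736 536870912 3) ndB1q1 ndB1q3 pcB3 Cut.none Ext.none)

def k0_pp_133 : ∃ t, chk3 f_pp_133 t 1 1 1 = true :=
  ⟨(a (b (l 1) (a (a (l 16556784) (l 1)) (l 1))) (l 1)), by decide +kernel⟩

theorem c_pp_133 : CertB 536870912 536870912 1610612736 536870912 740881858 40050571 3 eng mog cd1q1 cd1q3 pd3 false true true .dn 1 3 3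
    ndB1q1 ndB1q3 pcB3 Cut.none Ext.none :=
  certB2 (fam := false) (s1 := true) (s2 := true) (a := 1) (b := 3) (c := 3) (cn := .dn) (n1 := ndB1q1) (n2 := ndB1q3) (pc := pcB3) (cut := Cut.none) (xt := Ext.none) (P1 := 536870912) (W1 := 536870912) (P2 := 1610612736) (W2 := 536870912) (P3 := 740881858) (W3 := 40050571) (N0 := 3) (En := eng) (mo := mog) (C1 := cd1q1) (C2 := cd1q3) (C3 := pd3)
    rfl (fun _ => rfl) k0_pp_133

noncomputable def f_pp_202_aa : ℕ → ℕ → ℕ → ℕ → Bool := onCell 0 536870912 0 536870912 740881858 40050571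
    (rowB 3 eng mog cd1q2a cd1q2a pd0 0 false true true .pp 2 0 2 (qsf 0 536870912 0 536870912 0) ndB1q2a ndB1q2a pcB0 Cut.none Ext.none)

def k0_pp_202_aa : ∃ t, chk3 f_pp_202_aa t 1 1 1 = true :=
  ⟨(l 3), by decide +kernel⟩

theorem c_pp_202_aa : CertB 0 536870912 0 536870912 740881858 40050571 3 eng mog cd1q2a cd1q2a pd0 false true true .pp 2 0 2
    ndB1q2a ndB1q2a pcB0 Cut.none Ext.none :=
  certB0 (fam := false) (s1 := true) (s2 := true) (a := 2) (b := 0) (c := 2) (cn := .pp) (n1 := ndB1q2a) (n2 := ndB1q2a) (pc := pcB0) (cut := Cut.none) (xt := Ext.none) (P1 := 0) (W1 := 536870912) (P2 := 0) (W2 := 536870912) (P3 := 740881858) (W3 := 40050571) (N0 := 3) (En := eng) (mo := mog) (C1 := cd1q2a) (C2 := cd1q2a) (C3 := pd0)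
    rfl k0_pp_202_aa

noncomputable def f_pp_202_ab : ℕ → ℕ → ℕ → ℕ → Bool := onCell 0 536870912 1239849684 370763052 740881858 40050571
    (rowB 3 eng mog cd1q2a cd1q2b pd0 0 false true true .pp 2 0 2 (qsf 0 536870912 1239849684 370763052 0) ndB1q2a ndB1q2b pcB0 Cut.none Ext.none)

def k0_pp_202_ab : ∃ t, chk3 f_pp_202_ab t 1 1 1 = true :=
  ⟨(l 3), by decide +kernel⟩

theorem c_pp_202_ab : CertB 0 536870912 1239849684 370763052 740881858 40050571 3 eng mog cd1q2a cd1q2b pd0 false true true .pp 2 0 2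
    ndB1q2a ndB1q2b pcB0 Cut.none Ext.none :=
  certB0 (fam := false) (s1 := true) (s2 := true) (a := 2) (b := 0) (c := 2) (cn := .pp) (n1 := ndB1q2a) (n2 := ndB1q2b) (pc := pcB0) (cut := Cut.none) (xt := Ext.none) (P1 := 0) (W1 := 536870912) (P2 := 1239849684) (W2 := 370763052) (P3 := 740881858) (W3 := 40050571) (N0 := 3) (En := eng) (mo := mog) (C1 := cd1q2a) (C2 := cd1q2b) (C3 := pd0)
    rfl k0_pp_202_ab

noncomputable def f_pp_202_ba : ℕ → ℕ → ℕ → ℕ → Bool := onCell 1239849684 370763052 0 536870912 740881858 40050571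
    (rowB 3 eng mog cd1q2b cd1q2a pd0 0 false true true .pp 2 0 2 (qsf 1239849684 370763052 0 536870912 0) ndB1q2b ndB1q2a pcB0 Cut.none Ext.none)

def k0_pp_202_ba : ∃ t, chk3 f_pp_202_ba t 1 1 1 = true :=
  ⟨(l 3), by decide +kernel⟩

theorem c_pp_202_ba : CertB 1239849684 370763052 0 536870912 740881858 40050571 3 eng mog cd1q2b cd1q2a pd0 false true true .pp 2 0 2
    ndB1q2b ndB1q2a pcB0 Cut.none Ext.none :=
  certB0 (fam := false) (s1 := true) (s2 := true) (a := 2) (b := 0) (c := 2) (cn := .pp) (n1 := ndB1q2b) (n2 := ndB1q2a) (pc := pcB0) (cut := Cut.none) (xt := Ext.none) (P1 := 1239849684) (W1 := 370763052) (P2 := 0) (W2 := 536870912) (P3 := 740881858) (W3 := 40050571) (N0 := 3) (En := eng) (mo := mog) (C1 := cd1q2b) (C2 := cd1q2a) (C3 := pd0)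
    rfl k0_pp_202_ba

noncomputable def f_pp_202_bb : ℕ → ℕ → ℕ → ℕ → Bool := onCell 1239849684 370763052 1239849684 370763052 740881858 40050571
    (rowB 3 eng mog cd1q2b cd1q2b pd0 0 false true true .pp 2 0 2 (qsf 1239849684 370763052 1239849684 370763052 0) ndB1q2b ndB1q2b pcB0 Cut.none Ext.none)

def k0_pp_202_bb : ∃ t, chk3 f_pp_202_bb t 1 1 1 = true :=
  ⟨(l 3), by decide +kernel⟩

theorem c_pp_202_bb : CertB 1239849684 370763052 1239849684 370763052 740881858 40050571 3 eng mog cd1q2b cd1q2b pd0 false true true .pp 2 0 2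
    ndB1q2b ndB1q2b pcB0 Cut.none Ext.none :=
  certB0 (fam := false) (s1 := true) (s2 := true) (a := 2) (b := 0) (c := 2) (cn := .pp) (n1 := ndB1q2b) (n2 := ndB1q2b) (pc := pcB0) (cut := Cut.none) (xt := Ext.none) (P1 := 1239849684) (W1 := 370763052) (P2 := 1239849684) (W2 := 370763052) (P3 := 740881858) (W3 := 40050571) (N0 := 3) (En := eng) (mo := mog) (C1 := cd1q2b) (C2 := cd1q2b) (C3 := pd0)
    rfl k0_pp_202_bb

noncomputable def f_pp_203_a : ℕ → ℕ → ℕ → ℕ → Bool := onCell 0 536870912 0 536870912 740881858 40050571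
    (rowB 3 eng mog cd1q2a cd1q3 pd0 1 false true true .up 2 0 3 (qsf 0 536870912 1610612736 536870912 0) ndB1q2a ndB1q3 pcB0 Cut.none Ext.none)

def k0_pp_203_a : ∃ t, chk3 f_pp_203_a t 1 1 1 = true :=
  ⟨(l 3), by decide +kernel⟩

theorem c_pp_203_a : CertB 0 536870912 1610612736 536870912 740881858 40050571 3 eng mog cd1q2a cd1q3 pd0 false true true .up 2 0 3
    ndB1q2a ndB1q3 pcB0 Cut.none Ext.none :=
  certB1 (fam := false) (s1 := true) (s2 := true) (a := 2) (b := 0) (c := 3) (cn := .up) (n1 := ndB1q2a) (n2 := ndB1q3) (pc := pcB0) (cut := Cut.none) (xt := Ext.none) (P1 := 0) (W1 := 536870912) (P2 := 1610612736) (W2 := 536870912) (P3 := 740881858) (W3 := 40050571) (N0 := 3) (En := eng) (mo := mog) (C1 := cd1q2a) (C2 := cd1q3) (C3 := pd0)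
    rfl (fun _ => rfl) k0_pp_203_a

noncomputable def f_pp_203_b : ℕ → ℕ → ℕ → ℕ → Bool := onCell 1239849684 370763052 1610612736 536870912 740881858 40050571
    (rowB 3 eng mog cd1q2b cd1q3 pd0 0 false true true .up 2 0 3 (qsf 1239849684 370763052 1610612736 536870912 0) ndB1q2b ndB1q3 pcB0 Cut.none Ext.none)

def k0_pp_203_b : ∃ t, chk3 f_pp_203_b t 1 1 1 = true :=
  ⟨(l 3), by decide +kernel⟩

theorem c_pp_203_b : CertB 1239849684 370763052 1610612736 536870912 740881858 40050571 3 eng mog cd1q2b cd1q3 pd0 false true true .up 2 0 3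
    ndB1q2b ndB1q3 pcB0 Cut.none Ext.none :=
  certB0 (fam := false) (s1 := true) (s2 := true) (a := 2) (b := 0) (c := 3) (cn := .up) (n1 := ndB1q2b) (n2 := ndB1q3) (pc := pcB0) (cut := Cut.none) (xt := Ext.none) (P1 := 1239849684) (W1 := 370763052) (P2 := 1610612736) (W2 := 536870912) (P3 := 740881858) (W3 := 40050571) (N0 := 3) (En := eng) (mo := mog) (C1 := cd1q2b) (C2 := cd1q3) (C3 := pd0)
    rfl k0_pp_203_b

noncomputable def cut_pp_213_a : Cut := Cut.of [[⟨0, 1, 0, 67108864⟩, ⟨1, 1, 0, 67108864⟩, ⟨2, 2, 0, 16777216⟩]]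

noncomputable def f_pp_213_a : ℕ → ℕ → ℕ → ℕ → Bool := onCell 0 536870912 1610612736 536870912 740881858 40050571
    (rowB 3 eng mog cd1q2a cd1q3 pd1 0 false true true .pnn 2 1 3 (qsf 0 536870912 1610612736 536870912 1) ndB1q2a ndB1q3 pcB1 cut_pp_213_a Ext.none)

def k0_pp_213_a : ∃ t, chk3 f_pp_213_a t 1 1 1 = true :=
  ⟨(b (l 3) (b (l 3) (a (l 3) (a (l 3) (b (l 3) (a (l 3) (b (l 3) (b (l 3) (b (l 3) (l 6)))))))))), by decide +kernel⟩

theorem c_pp_213_a : CertB 0 536870912 1610612736 536870912 740881858 40050571 3 eng mog cd1q2a cd1q3 pd1 false true true .pnn 2 1 3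
    ndB1q2a ndB1q3 pcB1 cut_pp_213_a Ext.none :=
  certB0 (fam := false) (s1 := true) (s2 := true) (a := 2) (b := 1) (c := 3) (cn := .pnn) (n1 := ndB1q2a) (n2 := ndB1q3) (pc := pcB1) (cut := cut_pp_213_a) (xt := Ext.none) (P1 := 0) (W1 := 536870912) (P2 := 1610612736) (W2 := 536870912) (P3 := 740881858) (W3 := 40050571) (N0 := 3) (En := eng) (mo := mog) (C1 := cd1q2a) (C2 := cd1q3) (C3 := pd1)
    rfl k0_pp_213_a

noncomputable def cut_pp_213_b : Cut := Cut.of [[⟨0, 1, 0, 67108864⟩, ⟨1, 1, 0, 67108864⟩, ⟨2, 2, 0, 16777216⟩]]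

noncomputable def f_pp_213_b : ℕ → ℕ → ℕ → ℕ → Bool := onCell 1239849684 370763052 1610612736 536870912 740881858 40050571
    (rowB 3 eng mog cd1q2b cd1q3 pd1 0 false true true .pnn 2 1 3 (qsf 1239849684 370763052 1610612736 536870912 1) ndB1q2b ndB1q3 pcB1 cut_pp_213_b Ext.none)

def k0_pp_213_b : ∃ t, chk3 f_pp_213_b t 1 1 1 = true :=
  ⟨(l 3), by decide +kernel⟩

theorem c_pp_213_b : CertB 1239849684 370763052 1610612736 536870912 740881858 40050571 3 eng mog cd1q2b cd1q3 pd1 false true true .pnn 2 1 3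
    ndB1q2b ndB1q3 pcB1 cut_pp_213_b Ext.none :=
  certB0 (fam := false) (s1 := true) (s2 := true) (a := 2) (b := 1) (c := 3) (cn := .pnn) (n1 := ndB1q2b) (n2 := ndB1q3) (pc := pcB1) (cut := cut_pp_213_b) (xt := Ext.none) (P1 := 1239849684) (W1 := 370763052) (P2 := 1610612736) (W2 := 536870912) (P3 := 740881858) (W3 := 40050571) (N0 := 3) (En := eng) (mo := mog) (C1 := cd1q2b) (C2 := cd1q3) (C3 := pd1)
    rfl k0_pp_213_b

noncomputable def f_pp_303 : ℕ → ℕ → ℕ → ℕ → Bool := onCell 1610612736 536870912 1610612736 536870912 740881858 40050571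
    (rowB 3 eng mog cd1q3 cd1q3 pd0 0 false true true .npn 3 0 3 (qsf 1610612736 536870912 1610612736 536870912 0) ndB1q3 ndB1q3 pcB0 Cut.none Ext.none)

def k0_pp_303 : ∃ t, chk3 f_pp_303 t 1 1 1 = true :=
  ⟨(l 3), by decide +kernel⟩

theorem c_pp_303 : CertB 1610612736 536870912 1610612736 536870912 740881858 40050571 3 eng mog cd1q3 cd1q3 pd0 false true true .npn 3 0 3
    ndB1q3 ndB1q3 pcB0 Cut.none Ext.none :=
  certB0 (fam := false) (s1 := true) (s2 := true) (a := 3) (b := 0) (c := 3) (cn := .npn) (n1 := ndB1q3) (n2 := ndB1q3) (pc := pcB0) (cut := Cut.none) (xt := Ext.none) (P1 := 1610612736) (W1 := 536870912) (P2 := 1610612736) (W2 := 536870912) (P3 := 740881858) (W3 := 40050571) (N0 := 3) (En := eng) (mo := mog) (C1 := cd1q3) (C2 := cd1q3) (C3 := pd0)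
    rfl k0_pp_303

noncomputable def f_pp_313 : ℕ → ℕ → ℕ → ℕ → Bool := onCell 1610612736 536870912 1610612736 536870912 740881858 40050571
    (rowB 3 eng mog cd1q3 cd1q3 pd1 0 false true true .dn 3 1 3 (qsf 1610612736 536870912 1610612736 536870912 1) ndB1q3 ndB1q3 pcB1 Cut.none Ext.none)

def k0_pp_313 : ∃ t, chk3 f_pp_313 t 1 1 1 = true :=
  ⟨(l 3), by decide +kernel⟩

theorem c_pp_313 : CertB 1610612736 536870912 1610612736 536870912 740881858 40050571 3 eng mog cd1q3 cd1q3 pd1 false true true .dn 3 1 3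
    ndB1q3 ndB1q3 pcB1 Cut.none Ext.none :=
  certB0 (fam := false) (s1 := true) (s2 := true) (a := 3) (b := 1) (c := 3) (cn := .dn) (n1 := ndB1q3) (n2 := ndB1q3) (pc := pcB1) (cut := Cut.none) (xt := Ext.none) (P1 := 1610612736) (W1 := 536870912) (P2 := 1610612736) (W2 := 536870912) (P3 := 740881858) (W3 := 40050571) (N0 := 3) (En := eng) (mo := mog) (C1 := cd1q3) (C2 := cd1q3) (C3 := pd1)
    rfl k0_pp_313

noncomputable def f_pm_001 : ℕ → ℕ → ℕ → ℕ → Bool := onCell 0 536870912 536870912 536870912 740881858 40050571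
    (rowB 3 eng mog cd1q0 cd1q1 pd0 0 false true false .up 0 0 1 (qsf 0 536870912 536870912 536870912 0) ndB1q0 ndB1q1 pcB0 Cut.none Ext.none)

def k0_pm_001 : ∃ t, chk3 f_pm_001 t 1 1 1 = true :=
  ⟨(a (l 4) (b (l 4) (l 4))), by decide +kernel⟩

theorem c_pm_001 : CertB 0 536870912 536870912 536870912 740881858 40050571 3 eng mog cd1q0 cd1q1 pd0 false true false .up 0 0 1
    ndB1q0 ndB1q1 pcB0 Cut.none Ext.none :=
  certB0 (fam := false) (s1 := true) (s2 := false) (a := 0) (b := 0) (c := 1) (cn := .up) (n1 := ndB1q0) (n2 := ndB1q1) (pc := pcB0) (cut := Cut.none) (xt := Ext.none) (P1 := 0) (W1 := 536870912) (P2 := 536870912) (W2 := 536870912) (P3 := 740881858) (W3 := 40050571) (N0 := 3) (En := eng) (mo := mog) (C1 := cd1q0) (C2 := cd1q1) (C3 := pd0)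
    rfl k0_pm_001

noncomputable def f_pm_011 : ℕ → ℕ → ℕ → ℕ → Bool := onCell 0 536870912 536870912 536870912 740881858 40050571
    (rowB 3 eng mog cd1q0 cd1q1 pd1 0 false true false .pnn 0 1 1 (qsf 0 536870912 536870912 536870912 1) ndB1q0 ndB1q1 pcB1 Cut.none Ext.none)

def k0_pm_011 : ∃ t, chk3 f_pm_011 t 1 1 1 = true :=
  ⟨(b (l 4) (a (l 4) (l 4))), by decide +kernel⟩

theorem c_pm_011 : CertB 0 536870912 536870912 536870912 740881858 40050571 3 eng mog cd1q0 cd1q1 pd1 false true false .pnn 0 1 1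
    ndB1q0 ndB1q1 pcB1 Cut.none Ext.none :=
  certB0 (fam := false) (s1 := true) (s2 := false) (a := 0) (b := 1) (c := 1) (cn := .pnn) (n1 := ndB1q0) (n2 := ndB1q1) (pc := pcB1) (cut := Cut.none) (xt := Ext.none) (P1 := 0) (W1 := 536870912) (P2 := 536870912) (W2 := 536870912) (P3 := 740881858) (W3 := 40050571) (N0 := 3) (En := eng) (mo := mog) (C1 := cd1q0) (C2 := cd1q1) (C3 := pd1)
    rfl k0_pm_011

noncomputable def cut_pm_012_a : Cut := Cut.of [[⟨0, 0, 0, 67108864⟩, ⟨1, 1, 0, 67108864⟩, ⟨2, 1, 0, 67108864⟩]]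

noncomputable def f_pm_012_a : ℕ → ℕ → ℕ → ℕ → Bool := onCell 536870912 536870912 0 536870912 740881858 40050571
    (rowB 3 eng mog cd1q0 cd1q2a pd1 2 false true false .pnp 0 1 2 (qsf 0 536870912 0 536870912 1) ndB1q0 ndB1q2a pcB1 cut_pm_012_a Ext.none)

def k0_pm_012_a : ∃ t, chk3 f_pm_012_a t 2 1 1 = true :=
  ⟨(b (a (b (l 2) (a (l 2) (l 16472064))) (b (a (b (l 16532640) (l 16497448)) (l 16657536)) (a (l 16448064) (l 16424960)))) (a (a (b (l 2) (b (l 16335832) (l 16302608))) (b (b (l 16420656) (l 16386080)) (b (l 16356944) (l 16349096)))) (b (a (b (l 16407480) (l 16387528)) (b (l 16396184) (l 16391400))) (b (a (l 16379376) (l 16467424)) (a (l 16438528) (b (l 16452832) (l 16460040))))))), by decide +kernel⟩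

def k1_pm_012_a : ∃ t, chk3 f_pm_012_a t 3 1 1 = true :=
  ⟨(b (a (b (a (l 16460224) (l 16431712)) (a (b (l 16412152) (l 16392928)) (b (l 16387568) (l 16374880)))) (a (b (b (l 16420920) (l 16385960)) (b (l 16364000) (a (l 16362264) (l 16354448)))) (b (a (l 16384704) (b (l 16389536) (l 16355848))) (a (b (l 16347976) (l 16347952)) (b (l 16339040) (a (l 16344160) (l 16341712))))))) (a (b (a (b (l 16386744) (l 16397800)) (b (a (l 16380832) (l 16377600)) (a (l 16404216) (l 16409448)))) (b (a (b (l 16420320) (l 16445120)) (b (l 16445992) (l 16502968))) (a (b (a (l 16465864) (l 16489544)) (l 16519208)) (a (b (l 16514160) (l 16565808)) (b (l 16540144) (l 16640840)))))) (b (a (b (a (l 16374928) (l 16372840)) (a (l 16415424) (b (l 16405432) (l 16439160)))) (a (b (b (l 16362464) (l 16382240)) (b (l 16411104) (a (l 16446984) (l 16451576)))) (b (a (b (l 16361880) (l 16383832)) (b (l 16360504) (l 16382984))) (a (b (l 16414600) (l 16454840)) (b (l 16415224) (l 16478968))))))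 (b (a (b (a (l 16467360) (l 16482592)) (a (l 16511832) (l 16552472))) (a (b (a (l 16493424) (l 16499608)) (a (l 16544328) (l 16552960))) (b (a (l 16505640) (b (l 16497528) (l 16525952))) (a (b (l 16546536) (l 16576736)) (a (l 16568088) (b (l 16556528) (l 6))))))) (a (a (b (l 16587136) (b (l 16613424) (l 16647296))) (b (a (l 16584280) (l 16594568)) (b (b (l 16630712) (l 16648592)) (c (l 16698048) (l 16719136))))) (b (a (a (l 16605328) (b (l 16599280) (l 16634296))) (a (b (l 16630952) (l 6)) (l 6))) (a (b (a (b (l 16649336) (l 16668448)) (l 16677912)) (a (b (l 16646960) (l 16709840)) (l 6))) (l 6)))))))), by decide +kernel⟩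

theorem s2_pm_012_a : ∃ t, chk3 f_pm_012_a t 1 1 1 = true := ex3_a k0_pm_012_a k1_pm_012_a

theorem c_pm_012_a : CertB 0 536870912 0 536870912 740881858 40050571 3 eng mog cd1q0 cd1q2a pd1 false true false .pnp 0 1 2
    ndB1q0 ndB1q2a pcB1 cut_pm_012_a Ext.none :=
  certB2 (fam := false) (s1 := true) (s2 := false) (a := 0) (b := 1) (c := 2) (cn := .pnp) (n1 := ndB1q0) (n2 := ndB1q2a) (pc := pcB1) (cut := cut_pm_012_a) (xt := Ext.none) (P1 := 0) (W1 := 536870912) (P2 := 0) (W2 := 536870912) (P3 := 740881858) (W3 := 40050571) (N0 := 3) (En := eng) (mo := mog) (C1 := cd1q0) (C2 := cd1q2a) (C3 := pd1)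
    rfl (fun _ => rfl) s2_pm_012_a

noncomputable def cut_pm_012_b : Cut := Cut.of [[⟨0, 0, 0, 67108864⟩, ⟨1, 1, 0, 67108864⟩, ⟨2, 1, 0, 67108864⟩]]

noncomputable def f_pm_012_b : ℕ → ℕ → ℕ → ℕ → Bool := onCell 536870912 536870912 1239849684 370763052 740881858 40050571
    (rowB 3 eng mog cd1q0 cd1q2b pd1 2 false true false .pnp 0 1 2 (qsf 0 536870912 1239849684 370763052 1) ndB1q0 ndB1q2b pcB1 cut_pm_012_b Ext.none)

def k0_pm_012_b : ∃ t, chk3 f_pm_012_b t 1 1 1 = true :=
  ⟨(a (a (l 2) (b (a (b (l 16533976) (l 2)) (b (l 16575320) (l 16461776))) (l 2))) (b (a (b (a (b (l 16473184) (l 16431152)) (b (l 16435120) (l 16377184))) (a (l 16394768) (l 16323368))) (b (a (b (l 16396352) (l 16318256)) (a (l 16381144) (b (l 16349840) (l 16242256)))) (a (l 16383968) (a (l 16168064) (l 16120856))))) (a (b (a (l 2) (l 16303832)) (l 2)) (a (b (l 16194248) (l 16222112)) (b (a (l 16099144) (l 16032576)) (l 16070128)))))), by decide +kernel⟩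

theorem c_pm_012_b : CertB 0 536870912 1239849684 370763052 740881858 40050571 3 eng mog cd1q0 cd1q2b pd1 false true false .pnp 0 1 2
    ndB1q0 ndB1q2b pcB1 cut_pm_012_b Ext.none :=
  certB2 (fam := false) (s1 := true) (s2 := false) (a := 0) (b := 1) (c := 2) (cn := .pnp) (n1 := ndB1q0) (n2 := ndB1q2b) (pc := pcB1) (cut := cut_pm_012_b) (xt := Ext.none) (P1 := 0) (W1 := 536870912) (P2 := 1239849684) (W2 := 370763052) (P3 := 740881858) (W3 := 40050571) (N0 := 3) (En := eng) (mo := mog) (C1 := cd1q0) (C2 := cd1q2b) (C3 := pd1)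
    rfl (fun _ => rfl) k0_pm_012_b

noncomputable def cut_pm_022_a : Cut := Cut.of [[⟨0, 0, 0, 67108864⟩, ⟨1, 1, 0, 67108864⟩, ⟨2, 1, 0, 67108864⟩]]

noncomputable def f_pm_022_a : ℕ → ℕ → ℕ → ℕ → Bool := onCell 1073741824 536870912 0 536870912 740881858 40050571
    (rowB 3 eng mog cd1q0 cd1q2a pd2 2 false true false .pp 0 2 2 (qsf 0 536870912 0 536870912 2) ndB1q0 ndB1q2a pcB2 cut_pm_022_a Ext.none)

def k0_pm_022_a : ∃ t, chk3 f_pm_022_a t 2 2 1 = true :=
  ⟨(a (a (b (a (b (l 16368896) (l 16344776)) (b (l 16392712) (l 16378296))) (a (b (a (l 16326352) (l 16349424)) (a (b (l 16332080) (l 16343400)) (b (l 16358160) (l 16371888)))) (b (a (l 16370544) (l 16390800)) (a (b (l 16383056) (l 16399336)) (b (l 16406944) (l 16425632)))))) (b (a (b (l 16454816) (a (l 16400640) (l 16414632))) (b (c (l 16422912) (l 16439880)) (c (l 16469880) (l 16440944)))) (a (b (a (l 16410152) (b (l 16422536) (l 16434208))) (a (c (l 16461952) (l 16439784)) (c (l 16503464) (l 16527416))))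 (b (c (a (l 16441888) (l 16456088)) (a (l 16450160) (l 16467960))) (a (c (b (l 16468184) (l 16493200)) (l 16529520)) (a (c (l 16515208) (l 16545672)) (b (l 16494424) (b (l 16513880) (l 251288508359))))))))) (a (b (b (a (a (l 16442472) (a (l 16447696) (l 16451376))) (l 1)) (a (a (l 16535040) (a (l 16458968) (l 795138507735))) (l 1))) (a (c (b (a (l 16469208) (a (l 16478432) (l 1))) (a (b (l 172368460567) (l 586832768407)) (l 1))) (b (a (l 179347703143) (b (l 229276612039) (l 690448720695))) (a (b (l 236256031303) (l 674879733863)) (l 1)))) (l 1))) (l 1))), by decide +kernel⟩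

def k1_pm_022_a : ∃ t, chk3 f_pm_022_a t 4 6 1 = true :=
  ⟨(a (a (b (a (b (l 16382208) (a (l 16379064) (l 16396328))) (b (l 16392424) (a (l 16413264) (l 16429864)))) (a (b (a (l 16415064) (l 16433696)) (a (l 16482704) (l 16481720))) (b (a (l 16451960) (l 16469840)) (a (l 16501280) (l 16520408))))) (b (a (b (l 16422408) (a (l 16446112) (l 16462000))) (b (l 16472048) (a (l 16477496) (l 16492592)))) (a (a (b (l 16487320) (l 16581016)) (b (l 16504384) (a (l 16552768) (l 16561744)))) (b (c (l 16593368) (l 16590832)) (a (b (l 16560112) (l 16589920)) (b (l 16577048) (l 16607344))))))) (b (a (a (b (l 16541200) (c (l 16556488) (l 16556464))) (b (c (l 16523488) (l 16505616)) (a (b (l 16545560) (l 16545976)) (a (l 16545280) (l 16593736))))) (a (b (a (l 16542936) (b (l 16524576) (l 151430596375))) (b (a (l 16518776) (c (l 245383033591) (l 253972939943))) (a (c (l 16544600) (l 242698680567)) (a (l 455836413175) (l 1))))) (b (a (c (l 389801275319) (l 479995563335)) (b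 (l 532608859655) (l 1))) (l 1)))) (a (a (b (a (b (l 16540264) (l 16565536)) (c (l 16566904) (l 16569416))) (b (a (l 16593464) (b (l 16598536) (l 220150185463))) (a (b (l 16611128) (l 16566096)) (a (c (l 16566216) (l 278669140471)) (l 476774562151))))) (b (a (b (l 16569680) (a (l 16589160) (l 16543040))) (b (c (l 16577328) (l 233035028759)) (c (l 397854434679) (l 606697280391)))) (a (b (a (c (l 16559152) (l 358662880487)) (l 668974333943)) (l 1)) (l 1)))) (a (b (a (b (a (l 417181738103) (l 1)) (l 1)) (l 1)) (l 1)) (l 1))))), by decide +kernel⟩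

def k2_pm_022_a : ∃ t, chk3 f_pm_022_a t 4 7 1 = true :=
  ⟨(a (b (a (b (b (a (a (l 16504296) (l 16525264)) (a (l 16545768) (l 16565792))) (a (a (l 16534672) (l 16556280)) (c (l 16632032) (l 16627328)))) (l 6)) (b (a (b (a (l 16585320) (l 16604328)) (a (l 16618080) (l 16637600))) (b (a (l 16622784) (a (l 16626960) (l 16580840))) (b (a (l 16637504) (a (l 16631144) (l 411276342887))) (a (l 6) (a (l 6) (l 637835905847)))))) (a (l 6) (a (l 6) (a (l 6) (l 1)))))) (a (l 6) (a (l 6) (l 1)))) (b (a (b (a (a (b (a (b (l 16617464) (l 466574090823)) (l 544420311799)) (a (l 638909633975) (l 1))) (b (a (l 603476123911) (l 1)) (l 1))) (l 1)) (l 1)) (l 1)) (l 1))), by decide +kernel⟩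

def k3_pm_022_a : ∃ t, chk3 f_pm_022_a t 5 3 1 = true :=
  ⟨(b (l 1) (l 1)), by decide +kernel⟩

def k4_pm_022_a : ∃ t, chk3 f_pm_022_a t 3 1 1 = true :=
  ⟨(l 1), by decide +kernel⟩

theorem s5_pm_022_a : ∃ t, chk3 f_pm_022_a t 4 3 1 = true := ex3_b k1_pm_022_a k2_pm_022_a

theorem s6_pm_022_a : ∃ t, chk3 f_pm_022_a t 2 3 1 = true := ex3_a s5_pm_022_a k3_pm_022_a

theorem s7_pm_022_a : ∃ t, chk3 f_pm_022_a t 2 1 1 = true := ex3_b k0_pm_022_a s6_pm_022_a

theorem s8_pm_022_a : ∃ t, chk3 f_pm_022_a t 1 1 1 = true := ex3_a s7_pm_022_a k4_pm_022_a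

theorem c_pm_022_a : CertB 0 536870912 0 536870912 740881858 40050571 3 eng mog cd1q0 cd1q2a pd2 false true false .pp 0 2 2
    ndB1q0 ndB1q2a pcB2 cut_pm_022_a Ext.none :=
  certB2 (fam := false) (s1 := true) (s2 := false) (a := 0) (b := 2) (c := 2) (cn := .pp) (n1 := ndB1q0) (n2 := ndB1q2a) (pc := pcB2) (cut := cut_pm_022_a) (xt := Ext.none) (P1 := 0) (W1 := 536870912) (P2 := 0) (W2 := 536870912) (P3 := 740881858) (W3 := 40050571) (N0 := 3) (En := eng) (mo := mog) (C1 := cd1q0) (C2 := cd1q2a) (C3 := pd2)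
    rfl (fun _ => rfl) s8_pm_022_a

noncomputable def cut_pm_022_b : Cut := Cut.of [[⟨0, 0, 0, 67108864⟩, ⟨1, 1, 0, 67108864⟩, ⟨2, 1, 0, 67108864⟩]]

noncomputable def f_pm_022_b : ℕ → ℕ → ℕ → ℕ → Bool := onCell 1073741824 536870912 1239849684 370763052 740881858 40050571
    (rowB 3 eng mog cd1q0 cd1q2b pd2 2 false true false .pp 0 2 2 (qsf 0 536870912 1239849684 370763052 2) ndB1q0 ndB1q2b pcB2 cut_pm_022_b Ext.none)

def k0_pm_022_b : ∃ t, chk3 f_pm_022_b t 1 1 1 = true :=
  ⟨(a (a (b (a (b (a (b (l 16320888) (l 16205528)) (b (l 16403928) (l 16224864))) (a (l 16071448) (l 16148136))) (b (b (a (b (l 16430568) (l 16328232)) (c (b (l 16394384) (l 16335808)) (l 16381136))) (a (l 16264192) (l 16342920))) (a (l 16246960) (b (l 16159104) (l 16074744))))) (a (b (a (l 15965072) (l 15967152)) (a (l 15939664) (l 15928192))) (b (a (l 15972968) (l 15981248)) (l 16065656)))) (b (a (b (a (b (a (c (l 16371592) (l 16393264)) (c (b (l 16405352) (l 16347528)) (l 16400624)))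 (c (l 16327224) (l 16282216))) (a (b (b (l 369936554119) (l 16376864)) (c (l 16285536) (l 16305984))) (b (b (l 593275137687) (l 16335584)) (l 16318416)))) (a (c (b (l 16167896) (l 16085720)) (l 16302480)) (b (a (l 16196808) (l 16221504)) (l 16125512)))) (b (b (a (b (l 1) (l 665215708775)) (l 1)) (a (a (l 16324864) (l 393021706903)) (b (l 561062589159) (l 460667405991)))) (a (b (l 16250648) (l 16168800)) (b (b (l 16169384) (l 16222496)) (l 16194616))))) (a (a (b (l 16137864) (l 15919296)) (b (l 16027760) (l 15952160))) (b (a (l 16073400) (l 16103320)) (l 15996496))))) (b (a (b (l 1) (a (b (a (l 656625456679) (l 586832097271)) (a (l 16156536) (l 16099944))) (a (l 606159424295) (l 1)))) (l 1)) (a (a (b (a (l 16113776) (l 16088728)) (l 16050688)) (b (a (b (l 16043480) (l 16042416)) (l 464962282903)) (l 16012864))) (a (b (b (l 1) (l 497711555671)) (a (l 15960736) (l 15915000))) (b (l 1) (b (l 534218592151) (l 302290458871))))))), by decide +kernel⟩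

theorem c_pm_022_b : CertB 0 536870912 1239849684 370763052 740881858 40050571 3 eng mog cd1q0 cd1q2b pd2 false true false .pp 0 2 2
    ndB1q0 ndB1q2b pcB2 cut_pm_022_b Ext.none :=
  certB2 (fam := false) (s1 := true) (s2 := false) (a := 0) (b := 2) (c := 2) (cn := .pp) (n1 := ndB1q0) (n2 := ndB1q2b) (pc := pcB2) (cut := cut_pm_022_b) (xt := Ext.none) (P1 := 0) (W1 := 536870912) (P2 := 1239849684) (W2 := 370763052) (P3 := 740881858) (W3 := 40050571) (N0 := 3) (En := eng) (mo := mog) (C1 := cd1q0) (C2 := cd1q2b) (C3 := pd2)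
    rfl (fun _ => rfl) k0_pm_022_b

noncomputable def f_pm_023 : ℕ → ℕ → ℕ → ℕ → Bool := onCell 0 536870912 1073741824 536870912 740881858 40050571
    (rowB 3 eng mog cd1q0 cd1q3 pd2 1 false true false .up 0 2 3 (qsf 0 536870912 1610612736 536870912 2) ndB1q0 ndB1q3 pcB2 Cut.none Ext.none)

def k0_pm_023 : ∃ t, chk3 f_pm_023 t 1 1 1 = true :=
  ⟨(b (b (a (l 1) (a (b (l 1) (l 206190825031)) (b (l 140692549927) (l 124049530967)))) (a (b (l 1) (a (l 1) (l 478384270535))) (b (a (b (l 16049952) (l 15944456)) (b (l 15924424) (l 15963816))) (a (l 16001848) (l 16054448))))) (b (a (a (b (l 1) (l 519186463799)) (b (l 16047040) (l 16001544))) (a (b (l 16058008) (l 16084968)) (b (l 16157680) (l 16239736)))) (a (b (a (l 503616824151) (l 15965168)) (a (a (l 15865448) (l 15902568)) (l 15951232))) (a (b (l 16081432) (l 16180576)) (l 16573752))))), by decide +kernel⟩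

theorem c_pm_023 : CertB 0 536870912 1610612736 536870912 740881858 40050571 3 eng mog cd1q0 cd1q3 pd2 false true false .up 0 2 3
    ndB1q0 ndB1q3 pcB2 Cut.none Ext.none :=
  certB1 (fam := false) (s1 := true) (s2 := false) (a := 0) (b := 2) (c := 3) (cn := .up) (n1 := ndB1q0) (n2 := ndB1q3) (pc := pcB2) (cut := Cut.none) (xt := Ext.none) (P1 := 0) (W1 := 536870912) (P2 := 1610612736) (W2 := 536870912) (P3 := 740881858) (W3 := 40050571) (N0 := 3) (En := eng) (mo := mog) (C1 := cd1q0) (C2 := cd1q3) (C3 := pd2)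
    rfl (fun _ => rfl) k0_pm_023

noncomputable def f_pm_033 : ℕ → ℕ → ℕ → ℕ → Bool := onCell 0 536870912 1610612736 536870912 740881858 40050571
    (rowB 3 eng mog cd1q0 cd1q3 pd3 1 false true false .pnn 0 3 3 (qsf 0 536870912 1610612736 536870912 3) ndB1q0 ndB1q3 pcB3 Cut.none Ext.none)

def k0_pm_033 : ∃ t, chk3 f_pm_033 t 1 1 1 = true :=
  ⟨(a (b (b (b (a (l 183642103127) (l 15942464)) (a (l 16071672) (l 16081472))) (l 4)) (a (l 4) (b (l 4) (a (b (l 4) (l 2)) (l 2))))) (b (a (b (b (l 16287256) (l 16373992)) (b (l 4) (l 4))) (b (b (l 16521424) (l 16581992)) (a (b (l 16591888) (l 2)) (l 2)))) (a (b (a (b (l 4) (l 2)) (l 2)) (l 2)) (l 2)))), by decide +kernel⟩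

theorem c_pm_033 : CertB 0 536870912 1610612736 536870912 740881858 40050571 3 eng mog cd1q0 cd1q3 pd3 false true false .pnn 0 3 3
    ndB1q0 ndB1q3 pcB3 Cut.none Ext.none :=
  certB1 (fam := false) (s1 := true) (s2 := false) (a := 0) (b := 3) (c := 3) (cn := .pnn) (n1 := ndB1q0) (n2 := ndB1q3) (pc := pcB3) (cut := Cut.none) (xt := Ext.none) (P1 := 0) (W1 := 536870912) (P2 := 1610612736) (W2 := 536870912) (P3 := 740881858) (W3 := 40050571) (N0 := 3) (En := eng) (mo := mog) (C1 := cd1q0) (C2 := cd1q3) (C3 := pd3)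
    rfl (fun _ => rfl) k0_pm_033

noncomputable def f_pm_101 : ℕ → ℕ → ℕ → ℕ → Bool := onCell 0 536870912 536870912 536870912 740881858 40050571
    (rowB 3 eng mog cd1q1 cd1q1 pd0 2 false true false .npn 1 0 1 (qsf 536870912 536870912 536870912 536870912 0) ndB1q1 ndB1q1 pcB0 Cut.none Ext.none)

def k0_pm_101 : ∃ t, chk3 f_pm_101 t 1 1 1 = true :=
  ⟨(a (b (l 4) (a (b (a (a (b (l 16239496) (l 16195768)) (b (l 4) (l 16365152))) (b (l 4) (a (l 16305776) (l 16163120)))) (b (a (b (l 16157200) (l 16190808)) (a (l 16125760) (l 16093488))) (a (b (a (b (l 16249184) (l 16283784)) (l 16216264)) (b (l 16340088) (l 16508856))) (b (l 16138320) (a (l 16218624) (l 16145264)))))) (b (a (b (l 4) (a (l 16167216) (l 4))) (l 4)) (b (a (b (l 16230992) (l 16032912)) (a (l 16118888) (l 16132728))) (a (b (l 16030008) (l 16043240)) (a (l 15999592) (l 16027416))))))) (b (l 4) (b (l 4) (b (a (a (b (l 4) (l 16199728)) (l 4)) (l 4)) (a (a (b (l 16076896) (l 16056328)) (a (l 16267632)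 (l 16250472))) (a (b (l 4) (l 16331304)) (a (l 16266464) (l 4)))))))), by decide +kernel⟩

theorem c_pm_101 : CertB 536870912 536870912 536870912 536870912 740881858 40050571 3 eng mog cd1q1 cd1q1 pd0 false true false .npn 1 0 1
    ndB1q1 ndB1q1 pcB0 Cut.none Ext.none :=
  certB2 (fam := false) (s1 := true) (s2 := false) (a := 1) (b := 0) (c := 1) (cn := .npn) (n1 := ndB1q1) (n2 := ndB1q1) (pc := pcB0) (cut := Cut.none) (xt := Ext.none) (P1 := 536870912) (W1 := 536870912) (P2 := 536870912) (W2 := 536870912) (P3 := 740881858) (W3 := 40050571) (N0 := 3) (En := eng) (mo := mog) (C1 := cd1q1) (C2 := cd1q1) (C3 := pd0)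
    rfl (fun _ => rfl) k0_pm_101

noncomputable def f_pm_102_a : ℕ → ℕ → ℕ → ℕ → Bool := onCell 536870912 536870912 0 536870912 740881858 40050571
    (rowB 3 eng mog cd1q1 cd1q2a pd0 0 false true false .npp 1 0 2 (qsf 536870912 536870912 0 536870912 0) ndB1q1 ndB1q2a pcB0 Cut.none Ext.none)

def k0_pm_102_a : ∃ t, chk3 f_pm_102_a t 2 1 1 = true :=
  ⟨(b (a (a (l 2) (b (l 2) (l 16635136))) (a (b (b (l 16630728) (l 16602912)) (b (l 16574296) (l 16532144))) (b (b (a (l 16638568) (b (l 16646888) (l 16638000))) (l 16621248)) (b (l 16661296) (l 16569208))))) (a (b (a (l 2) (b (l 16460656) (l 16401648))) (b (a (l 16441608) (l 16326488)) (a (b (l 16396640) (l 16255024)) (b (l 16260136) (l 16195224))))) (b (a (b (l 16486504) (l 16423144)) (b (l 16531400) (a (l 16453008) (a (l 16473088) (l 16488800))))) (b (a (l 16301096) (a (b (l 16356400) (l 16264152)) (b (l 16359784) (b (l 16333432) (l 16334368))))) (a (b (l 16210680) (a (l 16177728) (b (l 16219432) (l 16203432))))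 (a (b (b (l 16279288) (l 16276104)) (b (l 16252856) (l 16228584))) (b (b (l 16334864) (l 16326712)) (b (l 16301520) (l 16275416))))))))), by decide +kernel⟩

def k1_pm_102_a : ∃ t, chk3 f_pm_102_a t 3 2 1 = true :=
  ⟨(a (b (a (a (b (b (l 16646560) (l 16641656)) (l 16631408)) (a (b (a (l 16643392) (l 16643416)) (l 16635264)) (b (l 16642768) (l 16636960)))) (b (a (b (a (b (l 170355629783) (l 16640440)) (b (l 185924825079) (l 178408682951))) (a (l 16638784) (l 16636040))) (b (a (l 176798030039) (l 3)) (a (a (l 163376274279) (l 174650569351)) (a (l 178945513847) (l 175187392759))))) (a (b (a (l 16636216) (l 16635360)) (l 16656752)) (b (a (l 16633504) (b (l 16631752) (l 16632200))) (a (l 16633888) (l 16633496)))))) (a (b (a (l 16615960) (l 16626848)) (a (l 16601440) (l 16618792))) (b (a (l 16632856) (b (a (l 16635128) (l 16635704)) (l 16635872))) (a (l 16650760) (b (l 16637000) (a (l 16636200) (l 16639400))))))) (a (b (a (b (l 3) (b (a (a (l 166597498615) (l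 178945492343)) (b (l 3) (l 173576782743))) (a (l 16633016) (b (l 166060514839) (l 16633912))))) (b (l 3) (b (l 3) (a (l 162302523815) (l 3))))) (a (b (b (a (l 16634816) (l 16635848)) (l 16618016)) (b (l 16641040) (l 16685648))) (b (a (b (l 16637160) (l 16639728)) (b (b (l 171966236375) (l 169818764631)) (l 16642872))) (b (a (l 16644664) (l 16647400)) (l 16649816))))) (b (l 3) (a (b (b (a (l 183240453415) (l 3)) (a (b (l 181093036823) (l 16639720)) (a (l 149954363639) (l 166597429031)))) (b (a (l 16650328) (a (l 16635664) (b (l 16577744) (l 16627840)))) (a (l 16656664) (b (l 16643960) (l 16652624))))) (b (l 3) (a (b (a (b (l 186998559127) (l 16593736)) (b (l 3) (a (l 154786286295) (l 178945454135)))) (b (a (l 16623880) (l 16609552)) (a (l 16634768) (l 16619960)))) (b (l 3) (b (a (a (l 161228722023) (l 138143259319)) (a (l 160691810647) (l 3))) (a (l 16605000) (a (b (l 159081207575) (l 16596400)) (b (l 169818607319) (l 16588952)))))))))))), by decide +kernel⟩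

def k2_pm_102_a : ∃ t, chk3 f_pm_102_a t 3 3 1 = true :=
  ⟨(a (b (a (b (a (l 16574792) (a (l 16594000) (l 16606000))) (a (a (l 16504144) (l 16520504)) (b (l 16566568) (l 16517008)))) (b (a (l 16641832) (b (l 16638016) (l 16634880))) (a (b (l 16596104) (l 16579280)) (b (l 16626728) (l 16606368))))) (a (b (a (b (l 16395624) (l 16385944)) (b (l 16524656) (l 16433024))) (b (a (a (l 16364128) (l 16388424)) (b (l 16416440) (l 16439840))) (a (b (a (l 16335280) (l 16368464)) (a (l 16317336) (l 16356160))) (l 16420688)))) (b (a (b (l 16473312) (l 16494328)) (b (l 16573664) (l 16551232))) (b (b (l 16532352) (a (l 16490512) (l 16557360))) (a (b (l 16493984) (l 16475128)) (l 16525776)))))) (b (a (b (a (b (a (l 16646944) (l 16650816)) (l 16650760)) (b (a (l 16569328) (l 16655584)) (l 16659992))) (a (b (a (l 16646328) (l 16655504)) (l 16645384)) (b (l 16662080) (l 16661912)))) (b (a (b (a (l 16660128) (l 16665792)) (a (l 16664968) (l 16668560))) (b (a (b (l 16637480)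 (l 16649976)) (a (b (l 16575400) (l 16627960)) (b (l 16601704) (b (l 16611968) (l 16617760))))) (a (l 16671608) (b (l 16635400) (l 16650288))))) (a (l 16668496) (b (b (a (l 16675304) (l 16664448)) (l 16678272)) (l 16676248))))) (b (a (a (b (l 16680384) (l 16590112)) (l 16711928)) (a (l 16667840) (b (l 16672104) (l 16672328)))) (a (a (b (l 16586344) (l 16560048)) (b (l 16614496) (l 16589320))) (b (a (l 16642424) (a (l 16667296) (l 16667880))) (a (l 16613808) (l 16663800))))))), by decide +kernel⟩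

theorem s3_pm_102_a : ∃ t, chk3 f_pm_102_a t 3 1 1 = true := ex3_b k1_pm_102_a k2_pm_102_a

theorem s4_pm_102_a : ∃ t, chk3 f_pm_102_a t 1 1 1 = true := ex3_a k0_pm_102_a s3_pm_102_a

theorem c_pm_102_a : CertB 536870912 536870912 0 536870912 740881858 40050571 3 eng mog cd1q1 cd1q2a pd0 false true false .npp 1 0 2
    ndB1q1 ndB1q2a pcB0 Cut.none Ext.none :=
  certB0 (fam := false) (s1 := true) (s2 := false) (a := 1) (b := 0) (c := 2) (cn := .npp) (n1 := ndB1q1) (n2 := ndB1q2a) (pc := pcB0) (cut := Cut.none) (xt := Ext.none) (P1 := 536870912) (W1 := 536870912) (P2 := 0) (W2 := 536870912) (P3 := 740881858) (W3 := 40050571) (N0 := 3) (En := eng) (mo := mog) (C1 := cd1q1) (C2 := cd1q2a) (C3 := pd0)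
    rfl s4_pm_102_a

noncomputable def f_pm_102_b : ℕ → ℕ → ℕ → ℕ → Bool := onCell 0 536870912 1239849684 370763052 740881858 40050571
    (rowB 3 eng mog cd1q1 cd1q2b pd0 2 false true false .npp 1 0 2 (qsf 536870912 536870912 1239849684 370763052 0) ndB1q1 ndB1q2b pcB0 Cut.none Ext.none)

def k0_pm_102_b : ∃ t, chk3 f_pm_102_b t 1 1 1 = true :=
  ⟨(a (a (l 2) (b (a (l 3) (l 3)) (l 2))) (a (b (b (a (l 3) (a (a (l 3) (b (b (a (l 197735959671) (l 98951744311)) (l 3)) (l 3))) (b (a (b (l 16630304) (l 173576757527)) (b (l 16633592) (l 16602416))) (a (l 3) (l 162839312295))))) (l 3)) (l 3)) (b (a (b (a (b (a (l 16621256) (l 16623504)) (a (b (l 16575248) (l 152101811575)) (l 16564432))) (b (l 16625088) (l 16571248))) (a (b (a (l 3) (l 156933568935)) (l 3)) (b (a (l 109688955543) (l 16515024)) (a (l 3) (l 165523397783))))) (b (a (b (l 16627656) (l 16578496)) (b (l 16627464) (l 16586216))) (a (b (l 16524920) (a (l 16461672) (l 16470880))) (b (l 16537224) (l 16484264)))))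 (a (b (l 3) (l 3)) (b (a (b (l 167670839575) (l 3)) (b (l 118278811991) (l 167133919063))) (l 3)))))), by decide +kernel⟩

theorem c_pm_102_b : CertB 536870912 536870912 1239849684 370763052 740881858 40050571 3 eng mog cd1q1 cd1q2b pd0 false true false .npp 1 0 2
    ndB1q1 ndB1q2b pcB0 Cut.none Ext.none :=
  certB2 (fam := false) (s1 := true) (s2 := false) (a := 1) (b := 0) (c := 2) (cn := .npp) (n1 := ndB1q1) (n2 := ndB1q2b) (pc := pcB0) (cut := Cut.none) (xt := Ext.none) (P1 := 536870912) (W1 := 536870912) (P2 := 1239849684) (W2 := 370763052) (P3 := 740881858) (W3 := 40050571) (N0 := 3) (En := eng) (mo := mog) (C1 := cd1q1) (C2 := cd1q2b) (C3 := pd0)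
    rfl (fun _ => rfl) k0_pm_102_b

noncomputable def f_pm_112_a : ℕ → ℕ → ℕ → ℕ → Bool := onCell 536870912 536870912 0 536870912 740881858 40050571
    (rowB 3 eng mog cd1q1 cd1q2a pd1 0 false true false .dn 1 1 2 (qsf 536870912 536870912 0 536870912 1) ndB1q1 ndB1q2a pcB1 Cut.none Ext.none)

def k0_pm_112_a : ∃ t, chk3 f_pm_112_a t 1 1 1 = true :=
  ⟨(a (b (a (b (a (b (l 16512648) (l 16481608)) (b (l 16541264) (l 16502056))) (a (l 16437464) (l 16456112))) (a (b (b (l 16555720) (l 100965128647)) (b (l 16538648) (l 16442832))) (l 1))) (b (a (b (l 16509320) (a (l 16363744) (l 16364336))) (l 1)) (a (a (b (l 16319776) (a (l 16278112) (l 16260600))) (b (l 16304424) (l 1))) (l 1)))) (l 1)), by decide +kernel⟩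

theorem c_pm_112_a : CertB 536870912 536870912 0 536870912 740881858 40050571 3 eng mog cd1q1 cd1q2a pd1 false true false .dn 1 1 2
    ndB1q1 ndB1q2a pcB1 Cut.none Ext.none :=
  certB0 (fam := false) (s1 := true) (s2 := false) (a := 1) (b := 1) (c := 2) (cn := .dn) (n1 := ndB1q1) (n2 := ndB1q2a) (pc := pcB1) (cut := Cut.none) (xt := Ext.none) (P1 := 536870912) (W1 := 536870912) (P2 := 0) (W2 := 536870912) (P3 := 740881858) (W3 := 40050571) (N0 := 3) (En := eng) (mo := mog) (C1 := cd1q1) (C2 := cd1q2a) (C3 := pd1)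
    rfl k0_pm_112_a

noncomputable def f_pm_112_b : ℕ → ℕ → ℕ → ℕ → Bool := onCell 536870912 536870912 1239849684 370763052 740881858 40050571
    (rowB 3 eng mog cd1q1 cd1q2b pd1 2 false true false .dn 1 1 2 (qsf 536870912 536870912 1239849684 370763052 1) ndB1q1 ndB1q2b pcB1 Cut.none Ext.none)

def k0_pm_112_b : ∃ t, chk3 f_pm_112_b t 1 1 1 = true :=
  ⟨(a (a (a (b (b (b (l 16562720) (l 16543432)) (a (b (l 16518784) (l 16485376)) (l 16510000))) (b (a (b (l 16445704) (a (l 16388936) (l 16402632))) (b (l 16462088) (l 16422496))) (a (b (l 176260714647) (l 3)) (b (l 16373504) (l 178944980439))))) (b (b (l 16555176) (l 16505672)) (b (a (l 16460952) (l 16472896)) (a (b (l 16407536) (l 16360640)) (l 16422376))))) (b (b (a (l 16498456) (l 16492912)) (a (l 16478896) (l 16430904))) (a (b (l 16470984) (a (l 16451456) (l 16470096))) (b (l 16436976) (l 16470800))))) (b (a (b (l 1) (a (l 16367080) (l 16286384))) (l 1)) (a (a (l 16583592) (a (l 16331152) (l 16450808)))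 (b (l 215317972375) (a (l 16226712) (l 16079160)))))), by decide +kernel⟩

theorem c_pm_112_b : CertB 536870912 536870912 1239849684 370763052 740881858 40050571 3 eng mog cd1q1 cd1q2b pd1 false true false .dn 1 1 2
    ndB1q1 ndB1q2b pcB1 Cut.none Ext.none :=
  certB2 (fam := false) (s1 := true) (s2 := false) (a := 1) (b := 1) (c := 2) (cn := .dn) (n1 := ndB1q1) (n2 := ndB1q2b) (pc := pcB1) (cut := Cut.none) (xt := Ext.none) (P1 := 536870912) (W1 := 536870912) (P2 := 1239849684) (W2 := 370763052) (P3 := 740881858) (W3 := 40050571) (N0 := 3) (En := eng) (mo := mog) (C1 := cd1q1) (C2 := cd1q2b) (C3 := pd1)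
    rfl (fun _ => rfl) k0_pm_112_b

noncomputable def f_pm_113 : ℕ → ℕ → ℕ → ℕ → Bool := onCell 536870912 536870912 536870912 536870912 740881858 40050571
    (rowB 3 eng mog cd1q1 cd1q3 pd1 1 false true false .nn 1 1 3 (qsf 536870912 536870912 1610612736 536870912 1) ndB1q1 ndB1q3 pcB1 Cut.none Ext.none)

def k0_pm_113 : ∃ t, chk3 f_pm_113 t 1 1 1 = true :=
  ⟨(b (b (a (l 1) (b (a (l 1) (a (b (l 1) (l 136532340551)) (l 3))) (a (a (l 1) (l 16426464)) (a (b (l 16364496) (l 16381752)) (l 224578888279))))) (a (a (l 1) (l 174516466631)) (b (a (a (l 16467976) (l 16460768)) (a (b (l 16413560) (l 16465096)) (b (l 182166364807) (l 170892105511)))) (a (l 16648056) (a (l 16587624) (b (l 16534640) (l 16655984))))))) (b (a (a (l 167536896551) (l 16429984)) (b (a (l 16629576) (a (l 16865632) (b (l 16712560) (l 16758776)))) (a (l 16804928) (a (l 16969168) (l 16696664))))) (a (a (b (l 16231552) (l 16150136)) (b (l 16446008) (l 16475088))) (a (l 16824832) (b (a (l 16946424)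 (l 17058816)) (a (l 16823776) (l 16829008))))))), by decide +kernel⟩

theorem c_pm_113 : CertB 536870912 536870912 1610612736 536870912 740881858 40050571 3 eng mog cd1q1 cd1q3 pd1 false true false .nn 1 1 3
    ndB1q1 ndB1q3 pcB1 Cut.none Ext.none :=
  certB1 (fam := false) (s1 := true) (s2 := false) (a := 1) (b := 1) (c := 3) (cn := .nn) (n1 := ndB1q1) (n2 := ndB1q3) (pc := pcB1) (cut := Cut.none) (xt := Ext.none) (P1 := 536870912) (W1 := 536870912) (P2 := 1610612736) (W2 := 536870912) (P3 := 740881858) (W3 := 40050571) (N0 := 3) (En := eng) (mo := mog) (C1 := cd1q1) (C2 := cd1q3) (C3 := pd1)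
    rfl (fun _ => rfl) k0_pm_113

noncomputable def f_pm_123 : ℕ → ℕ → ℕ → ℕ → Bool := onCell 1073741824 536870912 1610612736 536870912 740881858 40050571
    (rowB 3 eng mog cd1q1 cd1q3 pd2 2 false true false .npn 1 2 3 (qsf 536870912 536870912 1610612736 536870912 2) ndB1q1 ndB1q3 pcB2 Cut.none Ext.none)

def k0_pm_123 : ∃ t, chk3 f_pm_123 t 1 1 1 = true :=
  ⟨(a (a (b (b (a (b (l 15980272) (l 16050712)) (l 157335634551)) (a (l 16284224) (b (l 16078312) (l 16227488)))) (a (b (l 16544336) (b (l 16604120) (l 16619416))) (b (l 16415600) (b (l 16502840) (l 16371312))))) (b (a (b (l 222833913463) (a (l 16081296) (l 16091312))) (b (l 1) (l 16154592))) (b (a (a (l 16332064) (l 16310640)) (l 16328048)) (a (a (l 16392712) (l 16465984)) (l 16476864))))) (a (a (b (l 298532745063) (b (l 16360832) (l 16495264))) (b (l 1) (l 257731552599))) (b (l 1) (b (l 249677645143) (l 16552480))))), by decide +kernel⟩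

theorem c_pm_123 : CertB 536870912 536870912 1610612736 536870912 740881858 40050571 3 eng mog cd1q1 cd1q3 pd2 false true false .npn 1 2 3
    ndB1q1 ndB1q3 pcB2 Cut.none Ext.none :=
  certB2 (fam := false) (s1 := true) (s2 := false) (a := 1) (b := 2) (c := 3) (cn := .npn) (n1 := ndB1q1) (n2 := ndB1q3) (pc := pcB2) (cut := Cut.none) (xt := Ext.none) (P1 := 536870912) (W1 := 536870912) (P2 := 1610612736) (W2 := 536870912) (P3 := 740881858) (W3 := 40050571) (N0 := 3) (En := eng) (mo := mog) (C1 := cd1q1) (C2 := cd1q3) (C3 := pd2)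
    rfl (fun _ => rfl) k0_pm_123

noncomputable def f_pm_133 : ℕ → ℕ → ℕ → ℕ → Bool := onCell 1610612736 536870912 1610612736 536870912 740881858 40050571
    (rowB 3 eng mog cd1q1 cd1q3 pd3 2 false true false .dn 1 3 3 (qsf 536870912 536870912 1610612736 536870912 3) ndB1q1 ndB1q3 pcB3 Cut.none Ext.none)

def k0_pm_133 : ∃ t, chk3 f_pm_133 t 1 1 1 = true :=
  ⟨(a (b (l 1) (a (a (l 362958310423) (l 1)) (l 1))) (l 1)), by decide +kernel⟩

theorem c_pm_133 : CertB 536870912 536870912 1610612736 536870912 740881858 40050571 3 eng mog cd1q1 cd1q3 pd3 false true false .dn 1 3 3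
    ndB1q1 ndB1q3 pcB3 Cut.none Ext.none :=
  certB2 (fam := false) (s1 := true) (s2 := false) (a := 1) (b := 3) (c := 3) (cn := .dn) (n1 := ndB1q1) (n2 := ndB1q3) (pc := pcB3) (cut := Cut.none) (xt := Ext.none) (P1 := 536870912) (W1 := 536870912) (P2 := 1610612736) (W2 := 536870912) (P3 := 740881858) (W3 := 40050571) (N0 := 3) (En := eng) (mo := mog) (C1 := cd1q1) (C2 := cd1q3) (C3 := pd3)
    rfl (fun _ => rfl) k0_pm_133

noncomputable def cut_pm_202_aa : Cut := Cut.of [[⟨0, 1, 0, 67108864⟩, ⟨1, 0, 0, 67108864⟩, ⟨2, 1, 0, 67108864⟩]]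

noncomputable def f_pm_202_aa : ℕ → ℕ → ℕ → ℕ → Bool := onCell 0 536870912 0 536870912 740881858 40050571
    (rowB 3 eng mog cd1q2a cd1q2a pd0 0 false true false .pp 2 0 2 (qsf 0 536870912 0 536870912 0) ndB1q2a ndB1q2a pcB0 cut_pm_202_aa Ext.none)

def k0_pm_202_aa : ∃ t, chk3 f_pm_202_aa t 1 1 1 = true :=
  ⟨(a (l 3) (b (l 3) (a (l 3) (b (l 3) (a (l 3) (b (l 3) (l 6))))))), by decide +kernel⟩

theorem c_pm_202_aa : CertB 0 536870912 0 536870912 740881858 40050571 3 eng mog cd1q2a cd1q2a pd0 false true false .pp 2 0 2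
    ndB1q2a ndB1q2a pcB0 cut_pm_202_aa Ext.none :=
  certB0 (fam := false) (s1 := true) (s2 := false) (a := 2) (b := 0) (c := 2) (cn := .pp) (n1 := ndB1q2a) (n2 := ndB1q2a) (pc := pcB0) (cut := cut_pm_202_aa) (xt := Ext.none) (P1 := 0) (W1 := 536870912) (P2 := 0) (W2 := 536870912) (P3 := 740881858) (W3 := 40050571) (N0 := 3) (En := eng) (mo := mog) (C1 := cd1q2a) (C2 := cd1q2a) (C3 := pd0)
    rfl k0_pm_202_aa

noncomputable def cut_pm_202_ab : Cut := Cut.of [[⟨0, 1, 0, 67108864⟩, ⟨1, 0, 0, 67108864⟩, ⟨2, 1, 0, 67108864⟩]]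

noncomputable def f_pm_202_ab : ℕ → ℕ → ℕ → ℕ → Bool := onCell 0 536870912 1239849684 370763052 740881858 40050571
    (rowB 3 eng mog cd1q2a cd1q2b pd0 0 false true false .pp 2 0 2 (qsf 0 536870912 1239849684 370763052 0) ndB1q2a ndB1q2b pcB0 cut_pm_202_ab Ext.none)

def k0_pm_202_ab : ∃ t, chk3 f_pm_202_ab t 1 1 1 = true :=
  ⟨(l 3), by decide +kernel⟩

theorem c_pm_202_ab : CertB 0 536870912 1239849684 370763052 740881858 40050571 3 eng mog cd1q2a cd1q2b pd0 false true false .pp 2 0 2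
    ndB1q2a ndB1q2b pcB0 cut_pm_202_ab Ext.none :=
  certB0 (fam := false) (s1 := true) (s2 := false) (a := 2) (b := 0) (c := 2) (cn := .pp) (n1 := ndB1q2a) (n2 := ndB1q2b) (pc := pcB0) (cut := cut_pm_202_ab) (xt := Ext.none) (P1 := 0) (W1 := 536870912) (P2 := 1239849684) (W2 := 370763052) (P3 := 740881858) (W3 := 40050571) (N0 := 3) (En := eng) (mo := mog) (C1 := cd1q2a) (C2 := cd1q2b) (C3 := pd0)
    rfl k0_pm_202_ab

noncomputable def cut_pm_202_ba : Cut := Cut.of [[⟨0, 1, 0, 67108864⟩, ⟨1, 0, 0, 67108864⟩, ⟨2, 1, 0, 67108864⟩]]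

noncomputable def f_pm_202_ba : ℕ → ℕ → ℕ → ℕ → Bool := onCell 1239849684 370763052 0 536870912 740881858 40050571
    (rowB 3 eng mog cd1q2b cd1q2a pd0 0 false true false .pp 2 0 2 (qsf 1239849684 370763052 0 536870912 0) ndB1q2b ndB1q2a pcB0 cut_pm_202_ba Ext.none)

def k0_pm_202_ba : ∃ t, chk3 f_pm_202_ba t 1 1 1 = true :=
  ⟨(l 3), by decide +kernel⟩

theorem c_pm_202_ba : CertB 1239849684 370763052 0 536870912 740881858 40050571 3 eng mog cd1q2b cd1q2a pd0 false true false .pp 2 0 2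
    ndB1q2b ndB1q2a pcB0 cut_pm_202_ba Ext.none :=
  certB0 (fam := false) (s1 := true) (s2 := false) (a := 2) (b := 0) (c := 2) (cn := .pp) (n1 := ndB1q2b) (n2 := ndB1q2a) (pc := pcB0) (cut := cut_pm_202_ba) (xt := Ext.none) (P1 := 1239849684) (W1 := 370763052) (P2 := 0) (W2 := 536870912) (P3 := 740881858) (W3 := 40050571) (N0 := 3) (En := eng) (mo := mog) (C1 := cd1q2b) (C2 := cd1q2a) (C3 := pd0)
    rfl k0_pm_202_ba

noncomputable def cut_pm_202_bb : Cut := Cut.of [[⟨0, 1, 0, 67108864⟩, ⟨1, 0, 0, 67108864⟩, ⟨2, 1, 0, 67108864⟩]]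

noncomputable def f_pm_202_bb : ℕ → ℕ → ℕ → ℕ → Bool := onCell 1239849684 370763052 1239849684 370763052 740881858 40050571
    (rowB 3 eng mog cd1q2b cd1q2b pd0 0 false true false .pp 2 0 2 (qsf 1239849684 370763052 1239849684 370763052 0) ndB1q2b ndB1q2b pcB0 cut_pm_202_bb Ext.none)

def k0_pm_202_bb : ∃ t, chk3 f_pm_202_bb t 1 1 1 = true :=
  ⟨(l 3), by decide +kernel⟩

theorem c_pm_202_bb : CertB 1239849684 370763052 1239849684 370763052 740881858 40050571 3 eng mog cd1q2b cd1q2b pd0 false true false .pp 2 0 2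
    ndB1q2b ndB1q2b pcB0 cut_pm_202_bb Ext.none :=
  certB0 (fam := false) (s1 := true) (s2 := false) (a := 2) (b := 0) (c := 2) (cn := .pp) (n1 := ndB1q2b) (n2 := ndB1q2b) (pc := pcB0) (cut := cut_pm_202_bb) (xt := Ext.none) (P1 := 1239849684) (W1 := 370763052) (P2 := 1239849684) (W2 := 370763052) (P3 := 740881858) (W3 := 40050571) (N0 := 3) (En := eng) (mo := mog) (C1 := cd1q2b) (C2 := cd1q2b) (C3 := pd0)
    rfl k0_pm_202_bb

noncomputable def f_pm_203_a : ℕ → ℕ → ℕ → ℕ → Bool := onCell 0 536870912 0 536870912 740881858 40050571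
    (rowB 3 eng mog cd1q2a cd1q3 pd0 1 false true false .up 2 0 3 (qsf 0 536870912 1610612736 536870912 0) ndB1q2a ndB1q3 pcB0 Cut.none Ext.none)

def k0_pm_203_a : ∃ t, chk3 f_pm_203_a t 1 1 1 = true :=
  ⟨(l 3), by decide +kernel⟩

theorem c_pm_203_a : CertB 0 536870912 1610612736 536870912 740881858 40050571 3 eng mog cd1q2a cd1q3 pd0 false true false .up 2 0 3
    ndB1q2a ndB1q3 pcB0 Cut.none Ext.none :=
  certB1 (fam := false) (s1 := true) (s2 := false) (a := 2) (b := 0) (c := 3) (cn := .up) (n1 := ndB1q2a) (n2 := ndB1q3) (pc := pcB0) (cut := Cut.none) (xt := Ext.none) (P1 := 0) (W1 := 536870912) (P2 := 1610612736) (W2 := 536870912) (P3 := 740881858) (W3 := 40050571) (N0 := 3) (En := eng) (mo := mog) (C1 := cd1q2a) (C2 := cd1q3) (C3 := pd0)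
    rfl (fun _ => rfl) k0_pm_203_a

noncomputable def f_pm_203_b : ℕ → ℕ → ℕ → ℕ → Bool := onCell 1239849684 370763052 1610612736 536870912 740881858 40050571
    (rowB 3 eng mog cd1q2b cd1q3 pd0 0 false true false .up 2 0 3 (qsf 1239849684 370763052 1610612736 536870912 0) ndB1q2b ndB1q3 pcB0 Cut.none Ext.none)

def k0_pm_203_b : ∃ t, chk3 f_pm_203_b t 1 1 1 = true :=
  ⟨(l 3), by decide +kernel⟩

theorem c_pm_203_b : CertB 1239849684 370763052 1610612736 536870912 740881858 40050571 3 eng mog cd1q2b cd1q3 pd0 false true false .up 2 0 3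
    ndB1q2b ndB1q3 pcB0 Cut.none Ext.none :=
  certB0 (fam := false) (s1 := true) (s2 := false) (a := 2) (b := 0) (c := 3) (cn := .up) (n1 := ndB1q2b) (n2 := ndB1q3) (pc := pcB0) (cut := Cut.none) (xt := Ext.none) (P1 := 1239849684) (W1 := 370763052) (P2 := 1610612736) (W2 := 536870912) (P3 := 740881858) (W3 := 40050571) (N0 := 3) (En := eng) (mo := mog) (C1 := cd1q2b) (C2 := cd1q3) (C3 := pd0)
    rfl k0_pm_203_b

noncomputable def cut_pm_213_a : Cut := Cut.of [[⟨0, 1, 0, 67108864⟩, ⟨1, 1, 0, 67108864⟩, ⟨2, 2, 0, 16777216⟩]]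

noncomputable def f_pm_213_a : ℕ → ℕ → ℕ → ℕ → Bool := onCell 0 536870912 1610612736 536870912 740881858 40050571
    (rowB 3 eng mog cd1q2a cd1q3 pd1 0 false true false .pnn 2 1 3 (qsf 0 536870912 1610612736 536870912 1) ndB1q2a ndB1q3 pcB1 cut_pm_213_a Ext.none)

def k0_pm_213_a : ∃ t, chk3 f_pm_213_a t 1 1 1 = true :=
  ⟨(b (l 3) (b (l 3) (a (l 3) (a (l 3) (b (l 3) (a (l 3) (b (l 3) (b (l 3) (b (l 3) (l 6)))))))))), by decide +kernel⟩

theorem c_pm_213_a : CertB 0 536870912 1610612736 536870912 740881858 40050571 3 eng mog cd1q2a cd1q3 pd1 false true false .pnn 2 1 3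
    ndB1q2a ndB1q3 pcB1 cut_pm_213_a Ext.none :=
  certB0 (fam := false) (s1 := true) (s2 := false) (a := 2) (b := 1) (c := 3) (cn := .pnn) (n1 := ndB1q2a) (n2 := ndB1q3) (pc := pcB1) (cut := cut_pm_213_a) (xt := Ext.none) (P1 := 0) (W1 := 536870912) (P2 := 1610612736) (W2 := 536870912) (P3 := 740881858) (W3 := 40050571) (N0 := 3) (En := eng) (mo := mog) (C1 := cd1q2a) (C2 := cd1q3) (C3 := pd1)
    rfl k0_pm_213_a

noncomputable def cut_pm_213_b : Cut := Cut.of [[⟨0, 1, 0, 67108864⟩, ⟨1, 1, 0, 67108864⟩, ⟨2, 2, 0, 16777216⟩]]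

noncomputable def f_pm_213_b : ℕ → ℕ → ℕ → ℕ → Bool := onCell 1239849684 370763052 1610612736 536870912 740881858 40050571
    (rowB 3 eng mog cd1q2b cd1q3 pd1 0 false true false .pnn 2 1 3 (qsf 1239849684 370763052 1610612736 536870912 1) ndB1q2b ndB1q3 pcB1 cut_pm_213_b Ext.none)

def k0_pm_213_b : ∃ t, chk3 f_pm_213_b t 1 1 1 = true :=
  ⟨(l 3), by decide +kernel⟩

theorem c_pm_213_b : CertB 1239849684 370763052 1610612736 536870912 740881858 40050571 3 eng mog cd1q2b cd1q3 pd1 false true false .pnn 2 1 3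
    ndB1q2b ndB1q3 pcB1 cut_pm_213_b Ext.none :=
  certB0 (fam := false) (s1 := true) (s2 := false) (a := 2) (b := 1) (c := 3) (cn := .pnn) (n1 := ndB1q2b) (n2 := ndB1q3) (pc := pcB1) (cut := cut_pm_213_b) (xt := Ext.none) (P1 := 1239849684) (W1 := 370763052) (P2 := 1610612736) (W2 := 536870912) (P3 := 740881858) (W3 := 40050571) (N0 := 3) (En := eng) (mo := mog) (C1 := cd1q2b) (C2 := cd1q3) (C3 := pd1)
    rfl k0_pm_213_b

noncomputable def f_pm_303 : ℕ → ℕ → ℕ → ℕ → Bool := onCell 1610612736 536870912 1610612736 536870912 740881858 40050571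
    (rowB 3 eng mog cd1q3 cd1q3 pd0 0 false true false .npn 3 0 3 (qsf 1610612736 536870912 1610612736 536870912 0) ndB1q3 ndB1q3 pcB0 Cut.none Ext.none)

def k0_pm_303 : ∃ t, chk3 f_pm_303 t 1 1 1 = true :=
  ⟨(l 3), by decide +kernel⟩

theorem c_pm_303 : CertB 1610612736 536870912 1610612736 536870912 740881858 40050571 3 eng mog cd1q3 cd1q3 pd0 false true false .npn 3 0 3
    ndB1q3 ndB1q3 pcB0 Cut.none Ext.none :=
  certB0 (fam := false) (s1 := true) (s2 := false) (a := 3) (b := 0) (c := 3) (cn := .npn) (n1 := ndB1q3) (n2 := ndB1q3) (pc := pcB0) (cut := Cut.none) (xt := Ext.none) (P1 := 1610612736) (W1 := 536870912) (P2 := 1610612736) (W2 := 536870912) (P3 := 740881858) (W3 := 40050571) (N0 := 3) (En := eng) (mo := mog) (C1 := cd1q3) (C2 := cd1q3) (C3 := pd0)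
    rfl k0_pm_303

noncomputable def f_pm_313 : ℕ → ℕ → ℕ → ℕ → Bool := onCell 1610612736 536870912 1610612736 536870912 740881858 40050571
    (rowB 3 eng mog cd1q3 cd1q3 pd1 0 false true false .dn 3 1 3 (qsf 1610612736 536870912 1610612736 536870912 1) ndB1q3 ndB1q3 pcB1 Cut.none Ext.none)

def k0_pm_313 : ∃ t, chk3 f_pm_313 t 1 1 1 = true :=
  ⟨(l 3), by decide +kernel⟩

theorem c_pm_313 : CertB 1610612736 536870912 1610612736 536870912 740881858 40050571 3 eng mog cd1q3 cd1q3 pd1 false true false .dn 3 1 3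
    ndB1q3 ndB1q3 pcB1 Cut.none Ext.none :=
  certB0 (fam := false) (s1 := true) (s2 := false) (a := 3) (b := 1) (c := 3) (cn := .dn) (n1 := ndB1q3) (n2 := ndB1q3) (pc := pcB1) (cut := Cut.none) (xt := Ext.none) (P1 := 1610612736) (W1 := 536870912) (P2 := 1610612736) (W2 := 536870912) (P3 := 740881858) (W3 := 40050571) (N0 := 3) (En := eng) (mo := mog) (C1 := cd1q3) (C2 := cd1q3) (C3 := pd1)
    rfl k0_pm_313

noncomputable def f_mm_001 : ℕ → ℕ → ℕ → ℕ → Bool := onCell 0 536870912 536870912 536870912 740881858 40050571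
    (rowB 3 eng mog cd1q0 cd1q1 pd0 0 false false false .up 0 0 1 (qsf 0 536870912 536870912 536870912 0) ndB1q0 ndB1q1 pcB0 Cut.none Ext.none)

def k0_mm_001 : ∃ t, chk3 f_mm_001 t 1 1 1 = true :=
  ⟨(l 3), by decide +kernel⟩

theorem c_mm_001 : CertB 0 536870912 536870912 536870912 740881858 40050571 3 eng mog cd1q0 cd1q1 pd0 false false false .up 0 0 1
    ndB1q0 ndB1q1 pcB0 Cut.none Ext.none :=
  certB0 (fam := false) (s1 := false) (s2 := false) (a := 0) (b := 0) (c := 1) (cn := .up) (n1 := ndB1q0) (n2 := ndB1q1) (pc := pcB0) (cut := Cut.none) (xt := Ext.none) (P1 := 0) (W1 := 536870912) (P2 := 536870912) (W2 := 536870912) (P3 := 740881858) (W3 := 40050571) (N0 := 3) (En := eng) (mo := mog) (C1 := cd1q0) (C2 := cd1q1) (C3 := pd0)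
    rfl k0_mm_001

noncomputable def f_mm_011 : ℕ → ℕ → ℕ → ℕ → Bool := onCell 0 536870912 536870912 536870912 740881858 40050571
    (rowB 3 eng mog cd1q0 cd1q1 pd1 0 false false false .pnn 0 1 1 (qsf 0 536870912 536870912 536870912 1) ndB1q0 ndB1q1 pcB1 Cut.none Ext.none)

def k0_mm_011 : ∃ t, chk3 f_mm_011 t 1 1 1 = true :=
  ⟨(l 3), by decide +kernel⟩

theorem c_mm_011 : CertB 0 536870912 536870912 536870912 740881858 40050571 3 eng mog cd1q0 cd1q1 pd1 false false false .pnn 0 1 1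
    ndB1q0 ndB1q1 pcB1 Cut.none Ext.none :=
  certB0 (fam := false) (s1 := false) (s2 := false) (a := 0) (b := 1) (c := 1) (cn := .pnn) (n1 := ndB1q0) (n2 := ndB1q1) (pc := pcB1) (cut := Cut.none) (xt := Ext.none) (P1 := 0) (W1 := 536870912) (P2 := 536870912) (W2 := 536870912) (P3 := 740881858) (W3 := 40050571) (N0 := 3) (En := eng) (mo := mog) (C1 := cd1q0) (C2 := cd1q1) (C3 := pd1)
    rfl k0_mm_011

noncomputable def f_mm_012_a : ℕ → ℕ → ℕ → ℕ → Bool := onCell 0 536870912 0 536870912 740881858 40050571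
    (rowB 3 eng mog cd1q0 cd1q2a pd1 0 false false false .pnp 0 1 2 (qsf 0 536870912 0 536870912 1) ndB1q0 ndB1q2a pcB1 Cut.none Ext.none)

def k0_mm_012_a : ∃ t, chk3 f_mm_012_a t 1 1 1 = true :=
  ⟨(l 5), by decide +kernel⟩

theorem c_mm_012_a : CertB 0 536870912 0 536870912 740881858 40050571 3 eng mog cd1q0 cd1q2a pd1 false false false .pnp 0 1 2
    ndB1q0 ndB1q2a pcB1 Cut.none Ext.none :=
  certB0 (fam := false) (s1 := false) (s2 := false) (a := 0) (b := 1) (c := 2) (cn := .pnp) (n1 := ndB1q0) (n2 := ndB1q2a) (pc := pcB1) (cut := Cut.none) (xt := Ext.none) (P1 := 0) (W1 := 536870912) (P2 := 0) (W2 := 536870912) (P3 := 740881858) (W3 := 40050571) (N0 := 3) (En := eng) (mo := mog) (C1 := cd1q0) (C2 := cd1q2a) (C3 := pd1)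
    rfl k0_mm_012_a

noncomputable def f_mm_012_b : ℕ → ℕ → ℕ → ℕ → Bool := onCell 0 536870912 1239849684 370763052 740881858 40050571
    (rowB 3 eng mog cd1q0 cd1q2b pd1 0 false false false .pnp 0 1 2 (qsf 0 536870912 1239849684 370763052 1) ndB1q0 ndB1q2b pcB1 Cut.none Ext.none)

def k0_mm_012_b : ∃ t, chk3 f_mm_012_b t 1 1 1 = true :=
  ⟨(l 5), by decide +kernel⟩

theorem c_mm_012_b : CertB 0 536870912 1239849684 370763052 740881858 40050571 3 eng mog cd1q0 cd1q2b pd1 false false false .pnp 0 1 2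
    ndB1q0 ndB1q2b pcB1 Cut.none Ext.none :=
  certB0 (fam := false) (s1 := false) (s2 := false) (a := 0) (b := 1) (c := 2) (cn := .pnp) (n1 := ndB1q0) (n2 := ndB1q2b) (pc := pcB1) (cut := Cut.none) (xt := Ext.none) (P1 := 0) (W1 := 536870912) (P2 := 1239849684) (W2 := 370763052) (P3 := 740881858) (W3 := 40050571) (N0 := 3) (En := eng) (mo := mog) (C1 := cd1q0) (C2 := cd1q2b) (C3 := pd1)
    rfl k0_mm_012_b

noncomputable def f_mm_022_a : ℕ → ℕ → ℕ → ℕ → Bool := onCell 0 536870912 0 536870912 740881858 40050571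
    (rowB 3 eng mog cd1q0 cd1q2a pd2 0 false false false .pp 0 2 2 (qsf 0 536870912 0 536870912 2) ndB1q0 ndB1q2a pcB2 Cut.none Ext.none)

def k0_mm_022_a : ∃ t, chk3 f_mm_022_a t 1 1 1 = true :=
  ⟨(l 5), by decide +kernel⟩

theorem c_mm_022_a : CertB 0 536870912 0 536870912 740881858 40050571 3 eng mog cd1q0 cd1q2a pd2 false false false .pp 0 2 2
    ndB1q0 ndB1q2a pcB2 Cut.none Ext.none :=
  certB0 (fam := false) (s1 := false) (s2 := false) (a := 0) (b := 2) (c := 2) (cn := .pp) (n1 := ndB1q0) (n2 := ndB1q2a) (pc := pcB2) (cut := Cut.none) (xt := Ext.none) (P1 := 0) (W1 := 536870912) (P2 := 0) (W2 := 536870912) (P3 := 740881858) (W3 := 40050571) (N0 := 3) (En := eng) (mo := mog) (C1 := cd1q0) (C2 := cd1q2a) (C3 := pd2)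
    rfl k0_mm_022_a

noncomputable def f_mm_022_b : ℕ → ℕ → ℕ → ℕ → Bool := onCell 0 536870912 1239849684 370763052 740881858 40050571
    (rowB 3 eng mog cd1q0 cd1q2b pd2 0 false false false .pp 0 2 2 (qsf 0 536870912 1239849684 370763052 2) ndB1q0 ndB1q2b pcB2 Cut.none Ext.none)

def k0_mm_022_b : ∃ t, chk3 f_mm_022_b t 1 1 1 = true :=
  ⟨(l 5), by decide +kernel⟩

theorem c_mm_022_b : CertB 0 536870912 1239849684 370763052 740881858 40050571 3 eng mog cd1q0 cd1q2b pd2 false false false .pp 0 2 2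
    ndB1q0 ndB1q2b pcB2 Cut.none Ext.none :=
  certB0 (fam := false) (s1 := false) (s2 := false) (a := 0) (b := 2) (c := 2) (cn := .pp) (n1 := ndB1q0) (n2 := ndB1q2b) (pc := pcB2) (cut := Cut.none) (xt := Ext.none) (P1 := 0) (W1 := 536870912) (P2 := 1239849684) (W2 := 370763052) (P3 := 740881858) (W3 := 40050571) (N0 := 3) (En := eng) (mo := mog) (C1 := cd1q0) (C2 := cd1q2b) (C3 := pd2)
    rfl k0_mm_022_b

noncomputable def f_mm_023 : ℕ → ℕ → ℕ → ℕ → Bool := onCell 0 536870912 1610612736 536870912 740881858 40050571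
    (rowB 3 eng mog cd1q0 cd1q3 pd2 0 false false false .up 0 2 3 (qsf 0 536870912 1610612736 536870912 2) ndB1q0 ndB1q3 pcB2 Cut.none Ext.none)

def k0_mm_023 : ∃ t, chk3 f_mm_023 t 1 1 1 = true :=
  ⟨(l 5), by decide +kernel⟩

theorem c_mm_023 : CertB 0 536870912 1610612736 536870912 740881858 40050571 3 eng mog cd1q0 cd1q3 pd2 false false false .up 0 2 3
    ndB1q0 ndB1q3 pcB2 Cut.none Ext.none :=
  certB0 (fam := false) (s1 := false) (s2 := false) (a := 0) (b := 2) (c := 3) (cn := .up) (n1 := ndB1q0) (n2 := ndB1q3) (pc := pcB2) (cut := Cut.none) (xt := Ext.none) (P1 := 0) (W1 := 536870912) (P2 := 1610612736) (W2 := 536870912) (P3 := 740881858) (W3 := 40050571) (N0 := 3) (En := eng) (mo := mog) (C1 := cd1q0) (C2 := cd1q3) (C3 := pd2)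
    rfl k0_mm_023

noncomputable def f_mm_033 : ℕ → ℕ → ℕ → ℕ → Bool := onCell 0 536870912 1610612736 536870912 740881858 40050571
    (rowB 3 eng mog cd1q0 cd1q3 pd3 0 false false false .pnn 0 3 3 (qsf 0 536870912 1610612736 536870912 3) ndB1q0 ndB1q3 pcB3 Cut.none Ext.none)

def k0_mm_033 : ∃ t, chk3 f_mm_033 t 1 1 1 = true :=
  ⟨(l 5), by decide +kernel⟩

theorem c_mm_033 : CertB 0 536870912 1610612736 536870912 740881858 40050571 3 eng mog cd1q0 cd1q3 pd3 false false false .pnn 0 3 3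
    ndB1q0 ndB1q3 pcB3 Cut.none Ext.none :=
  certB0 (fam := false) (s1 := false) (s2 := false) (a := 0) (b := 3) (c := 3) (cn := .pnn) (n1 := ndB1q0) (n2 := ndB1q3) (pc := pcB3) (cut := Cut.none) (xt := Ext.none) (P1 := 0) (W1 := 536870912) (P2 := 1610612736) (W2 := 536870912) (P3 := 740881858) (W3 := 40050571) (N0 := 3) (En := eng) (mo := mog) (C1 := cd1q0) (C2 := cd1q3) (C3 := pd3)
    rfl k0_mm_033

noncomputable def f_mm_101 : ℕ → ℕ → ℕ → ℕ → Bool := onCell 536870912 536870912 536870912 536870912 740881858 40050571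
    (rowB 3 eng mog cd1q1 cd1q1 pd0 0 false false false .npn 1 0 1 (qsf 536870912 536870912 536870912 536870912 0) ndB1q1 ndB1q1 pcB0 Cut.none Ext.none)

def k0_mm_101 : ∃ t, chk3 f_mm_101 t 1 1 1 = true :=
  ⟨(l 3), by decide +kernel⟩

theorem c_mm_101 : CertB 536870912 536870912 536870912 536870912 740881858 40050571 3 eng mog cd1q1 cd1q1 pd0 false false false .npn 1 0 1
    ndB1q1 ndB1q1 pcB0 Cut.none Ext.none :=
  certB0 (fam := false) (s1 := false) (s2 := false) (a := 1) (b := 0) (c := 1) (cn := .npn) (n1 := ndB1q1) (n2 := ndB1q1) (pc := pcB0) (cut := Cut.none) (xt := Ext.none) (P1 := 536870912) (W1 := 536870912) (P2 := 536870912) (W2 := 536870912) (P3 := 740881858) (W3 := 40050571) (N0 := 3) (En := eng) (mo := mog) (C1 := cd1q1) (C2 := cd1q1) (C3 := pd0)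
    rfl k0_mm_101

noncomputable def f_mm_102_a : ℕ → ℕ → ℕ → ℕ → Bool := onCell 536870912 536870912 0 536870912 740881858 40050571
    (rowB 3 eng mog cd1q1 cd1q2a pd0 0 false false false .npp 1 0 2 (qsf 536870912 536870912 0 536870912 0) ndB1q1 ndB1q2a pcB0 Cut.none Ext.none)

def k0_mm_102_a : ∃ t, chk3 f_mm_102_a t 1 1 1 = true :=
  ⟨(l 5), by decide +kernel⟩

theorem c_mm_102_a : CertB 536870912 536870912 0 536870912 740881858 40050571 3 eng mog cd1q1 cd1q2a pd0 false false false .npp 1 0 2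
    ndB1q1 ndB1q2a pcB0 Cut.none Ext.none :=
  certB0 (fam := false) (s1 := false) (s2 := false) (a := 1) (b := 0) (c := 2) (cn := .npp) (n1 := ndB1q1) (n2 := ndB1q2a) (pc := pcB0) (cut := Cut.none) (xt := Ext.none) (P1 := 536870912) (W1 := 536870912) (P2 := 0) (W2 := 536870912) (P3 := 740881858) (W3 := 40050571) (N0 := 3) (En := eng) (mo := mog) (C1 := cd1q1) (C2 := cd1q2a) (C3 := pd0)
    rfl k0_mm_102_a

noncomputable def f_mm_102_b : ℕ → ℕ → ℕ → ℕ → Bool := onCell 536870912 536870912 1239849684 370763052 740881858 40050571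
    (rowB 3 eng mog cd1q1 cd1q2b pd0 0 false false false .npp 1 0 2 (qsf 536870912 536870912 1239849684 370763052 0) ndB1q1 ndB1q2b pcB0 Cut.none Ext.none)

def k0_mm_102_b : ∃ t, chk3 f_mm_102_b t 1 1 1 = true :=
  ⟨(l 5), by decide +kernel⟩

theorem c_mm_102_b : CertB 536870912 536870912 1239849684 370763052 740881858 40050571 3 eng mog cd1q1 cd1q2b pd0 false false false .npp 1 0 2
    ndB1q1 ndB1q2b pcB0 Cut.none Ext.none :=
  certB0 (fam := false) (s1 := false) (s2 := false) (a := 1) (b := 0) (c := 2) (cn := .npp) (n1 := ndB1q1) (n2 := ndB1q2b) (pc := pcB0) (cut := Cut.none) (xt := Ext.none) (P1 := 536870912) (W1 := 536870912) (P2 := 1239849684) (W2 := 370763052) (P3 := 740881858) (W3 := 40050571) (N0 := 3) (En := eng) (mo := mog) (C1 := cd1q1) (C2 := cd1q2b) (C3 := pd0)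
    rfl k0_mm_102_b

noncomputable def f_mm_112_a : ℕ → ℕ → ℕ → ℕ → Bool := onCell 536870912 536870912 0 536870912 740881858 40050571
    (rowB 3 eng mog cd1q1 cd1q2a pd1 0 false false false .dn 1 1 2 (qsf 536870912 536870912 0 536870912 1) ndB1q1 ndB1q2a pcB1 Cut.none Ext.none)

def k0_mm_112_a : ∃ t, chk3 f_mm_112_a t 1 1 1 = true :=
  ⟨(l 5), by decide +kernel⟩

theorem c_mm_112_a : CertB 536870912 536870912 0 536870912 740881858 40050571 3 eng mog cd1q1 cd1q2a pd1 false false false .dn 1 1 2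
    ndB1q1 ndB1q2a pcB1 Cut.none Ext.none :=
  certB0 (fam := false) (s1 := false) (s2 := false) (a := 1) (b := 1) (c := 2) (cn := .dn) (n1 := ndB1q1) (n2 := ndB1q2a) (pc := pcB1) (cut := Cut.none) (xt := Ext.none) (P1 := 536870912) (W1 := 536870912) (P2 := 0) (W2 := 536870912) (P3 := 740881858) (W3 := 40050571) (N0 := 3) (En := eng) (mo := mog) (C1 := cd1q1) (C2 := cd1q2a) (C3 := pd1)
    rfl k0_mm_112_a

noncomputable def f_mm_112_b : ℕ → ℕ → ℕ → ℕ → Bool := onCell 536870912 536870912 1239849684 370763052 740881858 40050571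
    (rowB 3 eng mog cd1q1 cd1q2b pd1 0 false false false .dn 1 1 2 (qsf 536870912 536870912 1239849684 370763052 1) ndB1q1 ndB1q2b pcB1 Cut.none Ext.none)

def k0_mm_112_b : ∃ t, chk3 f_mm_112_b t 1 1 1 = true :=
  ⟨(l 5), by decide +kernel⟩

theorem c_mm_112_b : CertB 536870912 536870912 1239849684 370763052 740881858 40050571 3 eng mog cd1q1 cd1q2b pd1 false false false .dn 1 1 2
    ndB1q1 ndB1q2b pcB1 Cut.none Ext.none :=
  certB0 (fam := false) (s1 := false) (s2 := false) (a := 1) (b := 1) (c := 2) (cn := .dn) (n1 := ndB1q1) (n2 := ndB1q2b) (pc := pcB1) (cut := Cut.none) (xt := Ext.none) (P1 := 536870912) (W1 := 536870912) (P2 := 1239849684) (W2 := 370763052) (P3 := 740881858) (W3 := 40050571) (N0 := 3) (En := eng) (mo := mog) (C1 := cd1q1) (C2 := cd1q2b) (C3 := pd1)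
    rfl k0_mm_112_b

noncomputable def f_mm_113 : ℕ → ℕ → ℕ → ℕ → Bool := onCell 536870912 536870912 1610612736 536870912 740881858 40050571
    (rowB 3 eng mog cd1q1 cd1q3 pd1 0 false false false .nn 1 1 3 (qsf 536870912 536870912 1610612736 536870912 1) ndB1q1 ndB1q3 pcB1 Cut.none Ext.none)

def k0_mm_113 : ∃ t, chk3 f_mm_113 t 1 1 1 = true :=
  ⟨(l 5), by decide +kernel⟩

theorem c_mm_113 : CertB 536870912 536870912 1610612736 536870912 740881858 40050571 3 eng mog cd1q1 cd1q3 pd1 false false false .nn 1 1 3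
    ndB1q1 ndB1q3 pcB1 Cut.none Ext.none :=
  certB0 (fam := false) (s1 := false) (s2 := false) (a := 1) (b := 1) (c := 3) (cn := .nn) (n1 := ndB1q1) (n2 := ndB1q3) (pc := pcB1) (cut := Cut.none) (xt := Ext.none) (P1 := 536870912) (W1 := 536870912) (P2 := 1610612736) (W2 := 536870912) (P3 := 740881858) (W3 := 40050571) (N0 := 3) (En := eng) (mo := mog) (C1 := cd1q1) (C2 := cd1q3) (C3 := pd1)
    rfl k0_mm_113

noncomputable def f_mm_123 : ℕ → ℕ → ℕ → ℕ → Bool := onCell 536870912 536870912 1610612736 536870912 740881858 40050571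
    (rowB 3 eng mog cd1q1 cd1q3 pd2 0 false false false .npn 1 2 3 (qsf 536870912 536870912 1610612736 536870912 2) ndB1q1 ndB1q3 pcB2 Cut.none Ext.none)

def k0_mm_123 : ∃ t, chk3 f_mm_123 t 1 1 1 = true :=
  ⟨(l 5), by decide +kernel⟩

theorem c_mm_123 : CertB 536870912 536870912 1610612736 536870912 740881858 40050571 3 eng mog cd1q1 cd1q3 pd2 false false false .npn 1 2 3
    ndB1q1 ndB1q3 pcB2 Cut.none Ext.none :=
  certB0 (fam := false) (s1 := false) (s2 := false) (a := 1) (b := 2) (c := 3) (cn := .npn) (n1 := ndB1q1) (n2 := ndB1q3) (pc := pcB2) (cut := Cut.none) (xt := Ext.none) (P1 := 536870912) (W1 := 536870912) (P2 := 1610612736) (W2 := 536870912) (P3 := 740881858) (W3 := 40050571) (N0 := 3) (En := eng) (mo := mog) (C1 := cd1q1) (C2 := cd1q3) (C3 := pd2)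
    rfl k0_mm_123

noncomputable def f_mm_133 : ℕ → ℕ → ℕ → ℕ → Bool := onCell 536870912 536870912 1610612736 536870912 740881858 40050571
    (rowB 3 eng mog cd1q1 cd1q3 pd3 0 false false false .dn 1 3 3 (qsf 536870912 536870912 1610612736 536870912 3) ndB1q1 ndB1q3 pcB3 Cut.none Ext.none)

def k0_mm_133 : ∃ t, chk3 f_mm_133 t 1 1 1 = true :=
  ⟨(l 5), by decide +kernel⟩

theorem c_mm_133 : CertB 536870912 536870912 1610612736 536870912 740881858 40050571 3 eng mog cd1q1 cd1q3 pd3 false false false .dn 1 3 3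
    ndB1q1 ndB1q3 pcB3 Cut.none Ext.none :=
  certB0 (fam := false) (s1 := false) (s2 := false) (a := 1) (b := 3) (c := 3) (cn := .dn) (n1 := ndB1q1) (n2 := ndB1q3) (pc := pcB3) (cut := Cut.none) (xt := Ext.none) (P1 := 536870912) (W1 := 536870912) (P2 := 1610612736) (W2 := 536870912) (P3 := 740881858) (W3 := 40050571) (N0 := 3) (En := eng) (mo := mog) (C1 := cd1q1) (C2 := cd1q3) (C3 := pd3)
    rfl k0_mm_133

noncomputable def f_mm_202_aa : ℕ → ℕ → ℕ → ℕ → Bool := onCell 0 536870912 0 536870912 740881858 40050571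
    (rowB 3 eng mog cd1q2a cd1q2a pd0 0 false false false .pp 2 0 2 (qsf 0 536870912 0 536870912 0) ndB1q2a ndB1q2a pcB0 Cut.none Ext.none)

def k0_mm_202_aa : ∃ t, chk3 f_mm_202_aa t 1 1 1 = true :=
  ⟨(l 3), by decide +kernel⟩

theorem c_mm_202_aa : CertB 0 536870912 0 536870912 740881858 40050571 3 eng mog cd1q2a cd1q2a pd0 false false false .pp 2 0 2
    ndB1q2a ndB1q2a pcB0 Cut.none Ext.none :=
  certB0 (fam := false) (s1 := false) (s2 := false) (a := 2) (b := 0) (c := 2) (cn := .pp) (n1 := ndB1q2a) (n2 := ndB1q2a) (pc := pcB0) (cut := Cut.none) (xt := Ext.none) (P1 := 0) (W1 := 536870912) (P2 := 0) (W2 := 536870912) (P3 := 740881858) (W3 := 40050571) (N0 := 3) (En := eng) (mo := mog) (C1 := cd1q2a) (C2 := cd1q2a) (C3 := pd0)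
    rfl k0_mm_202_aa

noncomputable def f_mm_202_ab : ℕ → ℕ → ℕ → ℕ → Bool := onCell 0 536870912 1239849684 370763052 740881858 40050571
    (rowB 3 eng mog cd1q2a cd1q2b pd0 0 false false false .pp 2 0 2 (qsf 0 536870912 1239849684 370763052 0) ndB1q2a ndB1q2b pcB0 Cut.none Ext.none)

def k0_mm_202_ab : ∃ t, chk3 f_mm_202_ab t 1 1 1 = true :=
  ⟨(l 3), by decide +kernel⟩

theorem c_mm_202_ab : CertB 0 536870912 1239849684 370763052 740881858 40050571 3 eng mog cd1q2a cd1q2b pd0 false false false .pp 2 0 2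
    ndB1q2a ndB1q2b pcB0 Cut.none Ext.none :=
  certB0 (fam := false) (s1 := false) (s2 := false) (a := 2) (b := 0) (c := 2) (cn := .pp) (n1 := ndB1q2a) (n2 := ndB1q2b) (pc := pcB0) (cut := Cut.none) (xt := Ext.none) (P1 := 0) (W1 := 536870912) (P2 := 1239849684) (W2 := 370763052) (P3 := 740881858) (W3 := 40050571) (N0 := 3) (En := eng) (mo := mog) (C1 := cd1q2a) (C2 := cd1q2b) (C3 := pd0)
    rfl k0_mm_202_ab

noncomputable def f_mm_202_ba : ℕ → ℕ → ℕ → ℕ → Bool := onCell 1239849684 370763052 0 536870912 740881858 40050571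
    (rowB 3 eng mog cd1q2b cd1q2a pd0 0 false false false .pp 2 0 2 (qsf 1239849684 370763052 0 536870912 0) ndB1q2b ndB1q2a pcB0 Cut.none Ext.none)

def k0_mm_202_ba : ∃ t, chk3 f_mm_202_ba t 1 1 1 = true :=
  ⟨(l 3), by decide +kernel⟩

theorem c_mm_202_ba : CertB 1239849684 370763052 0 536870912 740881858 40050571 3 eng mog cd1q2b cd1q2a pd0 false false false .pp 2 0 2
    ndB1q2b ndB1q2a pcB0 Cut.none Ext.none :=
  certB0 (fam := false) (s1 := false) (s2 := false) (a := 2) (b := 0) (c := 2) (cn := .pp) (n1 := ndB1q2b) (n2 := ndB1q2a) (pc := pcB0) (cut := Cut.none) (xt := Ext.none) (P1 := 1239849684) (W1 := 370763052) (P2 := 0) (W2 := 536870912) (P3 := 740881858) (W3 := 40050571) (N0 := 3) (En := eng) (mo := mog) (C1 := cd1q2b) (C2 := cd1q2a) (C3 := pd0)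
    rfl k0_mm_202_ba

noncomputable def f_mm_202_bb : ℕ → ℕ → ℕ → ℕ → Bool := onCell 1239849684 370763052 1239849684 370763052 740881858 40050571
    (rowB 3 eng mog cd1q2b cd1q2b pd0 0 false false false .pp 2 0 2 (qsf 1239849684 370763052 1239849684 370763052 0) ndB1q2b ndB1q2b pcB0 Cut.none Ext.none)

def k0_mm_202_bb : ∃ t, chk3 f_mm_202_bb t 1 1 1 = true :=
  ⟨(l 3), by decide +kernel⟩

theorem c_mm_202_bb : CertB 1239849684 370763052 1239849684 370763052 740881858 40050571 3 eng mog cd1q2b cd1q2b pd0 false false false .pp 2 0 2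
    ndB1q2b ndB1q2b pcB0 Cut.none Ext.none :=
  certB0 (fam := false) (s1 := false) (s2 := false) (a := 2) (b := 0) (c := 2) (cn := .pp) (n1 := ndB1q2b) (n2 := ndB1q2b) (pc := pcB0) (cut := Cut.none) (xt := Ext.none) (P1 := 1239849684) (W1 := 370763052) (P2 := 1239849684) (W2 := 370763052) (P3 := 740881858) (W3 := 40050571) (N0 := 3) (En := eng) (mo := mog) (C1 := cd1q2b) (C2 := cd1q2b) (C3 := pd0)
    rfl k0_mm_202_bb

noncomputable def f_mm_203_a : ℕ → ℕ → ℕ → ℕ → Bool := onCell 0 536870912 0 536870912 740881858 40050571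
    (rowB 3 eng mog cd1q2a cd1q3 pd0 1 false false false .up 2 0 3 (qsf 0 536870912 1610612736 536870912 0) ndB1q2a ndB1q3 pcB0 Cut.none Ext.none)

def k0_mm_203_a : ∃ t, chk3 f_mm_203_a t 1 1 1 = true :=
  ⟨(l 3), by decide +kernel⟩

theorem c_mm_203_a : CertB 0 536870912 1610612736 536870912 740881858 40050571 3 eng mog cd1q2a cd1q3 pd0 false false false .up 2 0 3
    ndB1q2a ndB1q3 pcB0 Cut.none Ext.none :=
  certB1 (fam := false) (s1 := false) (s2 := false) (a := 2) (b := 0) (c := 3) (cn := .up) (n1 := ndB1q2a) (n2 := ndB1q3) (pc := pcB0) (cut := Cut.none) (xt := Ext.none) (P1 := 0) (W1 := 536870912) (P2 := 1610612736) (W2 := 536870912) (P3 := 740881858) (W3 := 40050571) (N0 := 3) (En := eng) (mo := mog) (C1 := cd1q2a) (C2 := cd1q3) (C3 := pd0)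
    rfl (fun _ => rfl) k0_mm_203_a

noncomputable def f_mm_203_b : ℕ → ℕ → ℕ → ℕ → Bool := onCell 1239849684 370763052 1610612736 536870912 740881858 40050571
    (rowB 3 eng mog cd1q2b cd1q3 pd0 0 false false false .up 2 0 3 (qsf 1239849684 370763052 1610612736 536870912 0) ndB1q2b ndB1q3 pcB0 Cut.none Ext.none)

def k0_mm_203_b : ∃ t, chk3 f_mm_203_b t 1 1 1 = true :=
  ⟨(l 3), by decide +kernel⟩

theorem c_mm_203_b : CertB 1239849684 370763052 1610612736 536870912 740881858 40050571 3 eng mog cd1q2b cd1q3 pd0 false false false .up 2 0 3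
    ndB1q2b ndB1q3 pcB0 Cut.none Ext.none :=
  certB0 (fam := false) (s1 := false) (s2 := false) (a := 2) (b := 0) (c := 3) (cn := .up) (n1 := ndB1q2b) (n2 := ndB1q3) (pc := pcB0) (cut := Cut.none) (xt := Ext.none) (P1 := 1239849684) (W1 := 370763052) (P2 := 1610612736) (W2 := 536870912) (P3 := 740881858) (W3 := 40050571) (N0 := 3) (En := eng) (mo := mog) (C1 := cd1q2b) (C2 := cd1q3) (C3 := pd0)
    rfl k0_mm_203_b

noncomputable def f_mm_213_a : ℕ → ℕ → ℕ → ℕ → Bool := onCell 0 536870912 1610612736 536870912 740881858 40050571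
    (rowB 3 eng mog cd1q2a cd1q3 pd1 0 false false false .pnn 2 1 3 (qsf 0 536870912 1610612736 536870912 1) ndB1q2a ndB1q3 pcB1 Cut.none Ext.none)

def k0_mm_213_a : ∃ t, chk3 f_mm_213_a t 1 1 1 = true :=
  ⟨(b (l 3) (l 5)), by decide +kernel⟩

theorem c_mm_213_a : CertB 0 536870912 1610612736 536870912 740881858 40050571 3 eng mog cd1q2a cd1q3 pd1 false false false .pnn 2 1 3
    ndB1q2a ndB1q3 pcB1 Cut.none Ext.none :=
  certB0 (fam := false) (s1 := false) (s2 := false) (a := 2) (b := 1) (c := 3) (cn := .pnn) (n1 := ndB1q2a) (n2 := ndB1q3) (pc := pcB1) (cut := Cut.none) (xt := Ext.none) (P1 := 0) (W1 := 536870912) (P2 := 1610612736) (W2 := 536870912) (P3 := 740881858) (W3 := 40050571) (N0 := 3) (En := eng) (mo := mog) (C1 := cd1q2a) (C2 := cd1q3) (C3 := pd1)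
    rfl k0_mm_213_a

noncomputable def f_mm_213_b : ℕ → ℕ → ℕ → ℕ → Bool := onCell 1239849684 370763052 1610612736 536870912 740881858 40050571
    (rowB 3 eng mog cd1q2b cd1q3 pd1 0 false false false .pnn 2 1 3 (qsf 1239849684 370763052 1610612736 536870912 1) ndB1q2b ndB1q3 pcB1 Cut.none Ext.none)

def k0_mm_213_b : ∃ t, chk3 f_mm_213_b t 1 1 1 = true :=
  ⟨(l 3), by decide +kernel⟩

theorem c_mm_213_b : CertB 1239849684 370763052 1610612736 536870912 740881858 40050571 3 eng mog cd1q2b cd1q3 pd1 false false false .pnn 2 1 3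
    ndB1q2b ndB1q3 pcB1 Cut.none Ext.none :=
  certB0 (fam := false) (s1 := false) (s2 := false) (a := 2) (b := 1) (c := 3) (cn := .pnn) (n1 := ndB1q2b) (n2 := ndB1q3) (pc := pcB1) (cut := Cut.none) (xt := Ext.none) (P1 := 1239849684) (W1 := 370763052) (P2 := 1610612736) (W2 := 536870912) (P3 := 740881858) (W3 := 40050571) (N0 := 3) (En := eng) (mo := mog) (C1 := cd1q2b) (C2 := cd1q3) (C3 := pd1)
    rfl k0_mm_213_b

noncomputable def f_mm_303 : ℕ → ℕ → ℕ → ℕ → Bool := onCell 1610612736 536870912 1610612736 536870912 740881858 40050571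
    (rowB 3 eng mog cd1q3 cd1q3 pd0 0 false false false .npn 3 0 3 (qsf 1610612736 536870912 1610612736 536870912 0) ndB1q3 ndB1q3 pcB0 Cut.none Ext.none)

def k0_mm_303 : ∃ t, chk3 f_mm_303 t 1 1 1 = true :=
  ⟨(l 3), by decide +kernel⟩

theorem c_mm_303 : CertB 1610612736 536870912 1610612736 536870912 740881858 40050571 3 eng mog cd1q3 cd1q3 pd0 false false false .npn 3 0 3
    ndB1q3 ndB1q3 pcB0 Cut.none Ext.none :=
  certB0 (fam := false) (s1 := false) (s2 := false) (a := 3) (b := 0) (c := 3) (cn := .npn) (n1 := ndB1q3) (n2 := ndB1q3) (pc := pcB0) (cut := Cut.none) (xt := Ext.none) (P1 := 1610612736) (W1 := 536870912) (P2 := 1610612736) (W2 := 536870912) (P3 := 740881858) (W3 := 40050571) (N0 := 3) (En := eng) (mo := mog) (C1 := cd1q3) (C2 := cd1q3) (C3 := pd0)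
    rfl k0_mm_303

noncomputable def f_mm_313 : ℕ → ℕ → ℕ → ℕ → Bool := onCell 1610612736 536870912 1610612736 536870912 740881858 40050571
    (rowB 3 eng mog cd1q3 cd1q3 pd1 0 false false false .dn 3 1 3 (qsf 1610612736 536870912 1610612736 536870912 1) ndB1q3 ndB1q3 pcB1 Cut.none Ext.none)

def k0_mm_313 : ∃ t, chk3 f_mm_313 t 1 1 1 = true :=
  ⟨(l 3), by decide +kernel⟩

theorem c_mm_313 : CertB 1610612736 536870912 1610612736 536870912 740881858 40050571 3 eng mog cd1q3 cd1q3 pd1 false false false .dn 3 1 3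
    ndB1q3 ndB1q3 pcB1 Cut.none Ext.none :=
  certB0 (fam := false) (s1 := false) (s2 := false) (a := 3) (b := 1) (c := 3) (cn := .dn) (n1 := ndB1q3) (n2 := ndB1q3) (pc := pcB1) (cut := Cut.none) (xt := Ext.none) (P1 := 1610612736) (W1 := 536870912) (P2 := 1610612736) (W2 := 536870912) (P3 := 740881858) (W3 := 40050571) (N0 := 3) (En := eng) (mo := mog) (C1 := cd1q3) (C2 := cd1q3) (C3 := pd1)
    rfl k0_mm_313

end Pool.Agent.Strip051.G.I69_7273.Tab.C.BB11

namespace Pool.Agent.Strip051.G.I69_7273.Tab.C.BB12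

open Pool.Agent.Strip051.PB Pool.Agent.Strip051.PB.T
open Pool.Agent.Strip051.G.I69_7273.Tab

noncomputable def f_pp_001 : ℕ → ℕ → ℕ → ℕ → Bool := onCell 0 536870912 536870912 536870912 740881858 40050571
    (rowB 3 eng mog cd1q0 cd2q1 pd0 0 false true true .up 0 0 1 (qsf 0 536870912 536870912 536870912 0) ndB1q0 ndB2q1 pcB0 Cut.none Ext.none)

def k0_pp_001 : ∃ t, chk3 f_pp_001 t 1 1 1 = true :=
  ⟨(l 3), by decide +kernel⟩

theorem c_pp_001 : CertB 0 536870912 536870912 536870912 740881858 40050571 3 eng mog cd1q0 cd2q1 pd0 false true true .up 0 0 1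
    ndB1q0 ndB2q1 pcB0 Cut.none Ext.none :=
  certB0 (fam := false) (s1 := true) (s2 := true) (a := 0) (b := 0) (c := 1) (cn := .up) (n1 := ndB1q0) (n2 := ndB2q1) (pc := pcB0) (cut := Cut.none) (xt := Ext.none) (P1 := 0) (W1 := 536870912) (P2 := 536870912) (W2 := 536870912) (P3 := 740881858) (W3 := 40050571) (N0 := 3) (En := eng) (mo := mog) (C1 := cd1q0) (C2 := cd2q1) (C3 := pd0)
    rfl k0_pp_001

noncomputable def f_pp_011 : ℕ → ℕ → ℕ → ℕ → Bool := onCell 0 536870912 536870912 536870912 740881858 40050571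
    (rowB 3 eng mog cd1q0 cd2q1 pd1 0 false true true .pnn 0 1 1 (qsf 0 536870912 536870912 536870912 1) ndB1q0 ndB2q1 pcB1 Cut.none Ext.none)

def k0_pp_011 : ∃ t, chk3 f_pp_011 t 1 1 1 = true :=
  ⟨(l 3), by decide +kernel⟩

theorem c_pp_011 : CertB 0 536870912 536870912 536870912 740881858 40050571 3 eng mog cd1q0 cd2q1 pd1 false true true .pnn 0 1 1
    ndB1q0 ndB2q1 pcB1 Cut.none Ext.none :=
  certB0 (fam := false) (s1 := true) (s2 := true) (a := 0) (b := 1) (c := 1) (cn := .pnn) (n1 := ndB1q0) (n2 := ndB2q1) (pc := pcB1) (cut := Cut.none) (xt := Ext.none) (P1 := 0) (W1 := 536870912) (P2 := 536870912) (W2 := 536870912) (P3 := 740881858) (W3 := 40050571) (N0 := 3) (En := eng) (mo := mog) (C1 := cd1q0) (C2 := cd2q1) (C3 := pd1)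
    rfl k0_pp_011

noncomputable def cut_pp_012_a : Cut := Cut.of [[⟨0, 0, 0, 67108864⟩, ⟨1, 1, 0, 67108864⟩, ⟨2, 1, 0, 67108864⟩]]

noncomputable def f_pp_012_a : ℕ → ℕ → ℕ → ℕ → Bool := onCell 536870912 536870912 0 536870912 740881858 40050571
    (rowB 3 eng mog cd1q0 cd2q2a pd1 2 false true true .pnp 0 1 2 (qsf 0 536870912 0 536870912 1) ndB1q0 ndB2q2a pcB1 cut_pp_012_a Ext.none)

def k0_pp_012_a : ∃ t, chk3 f_pp_012_a t 2 1 1 = true :=
  ⟨(a (l 3) (b (a (l 3) (b (b (a (l 3) (b (a (l 16716416) (l 16717584)) (l 3))) (l 3)) (l 3))) (l 3))), by decide +kernel⟩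

def k1_pp_012_a : ∃ t, chk3 f_pp_012_a t 6 1 1 = true :=
  ⟨(b (a (b (b (a (b (l 16710232) (a (l 16719104) (l 16715176))) (a (l 16703464) (l 16693952))) (a (a (l 3) (l 16723824)) (a (l 16722304) (l 16715688)))) (a (l 3) (b (a (l 3) (l 16734368)) (l 3)))) (b (b (a (b (l 16670672) (l 16680200)) (b (l 16646440) (l 16654632))) (a (a (l 16704128) (l 16690384)) (l 16690904))) (a (a (b (l 16728616) (l 3)) (b (l 16716296) (l 16761416))) (b (a (l 16701800) (l 16687984)) (a (l 16730312) (l 16717000)))))) (a (l 3) (b (b (a (l 3) (b (l 98414923687) (l 3))) (l 3)) (l 3)))), by decide +kernel⟩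

def k2_pp_012_a : ∃ t, chk3 f_pp_012_a t 7 1 1 = true :=
  ⟨(b (a (b (b (a (b (l 16626960) (l 16633552)) (l 16616408)) (a (a (l 16652240) (l 16641712)) (l 16629256))) (a (b (a (l 16675224) (l 16663056)) (a (l 16703384) (l 16689704))) (b (l 16663264) (a (l 16655680) (l 16645568))))) (b (b (a (l 16607568) (l 16584984)) (a (l 16622688) (l 16593664))) (a (b (l 16638568) (l 16701144)) (b (a (l 16617648) (l 16596192)) (a (l 16639184) (l 16616488)))))) (a (b (a (b (a (b (l 16726744) (l 16742120)) (b (l 16712264) (l 16728400))) (b (a (l 3) (l 98415135335)) (l 3))) (b (a (b (l 16697744) (l 16713040)) (l 16630584)) (a (b (l 58149631591) (b (l 16740096) (l 3))) (b (l 16715232) (b (l 16726248) (l 16733696)))))) (b (a (l 3) (b (a (l 3) (b (a (l 3) (l 16737784)) (l 3))) (l 3))) (l 3))) (b (a (b (a (l 16686176) (l 16682344)) (a (b (l 16685736) (b (l 16717264) (l 16723928))) (b (l 16701312) (l 16712888)))) (b (a (l 16668104) (b (l 16637152) (l 16654936))) (a (b (l 16696032)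 (l 16705224)) (a (l 16693184) (l 16739880))))) (a (b (b (a (b (a (l 16732520) (l 16727448)) (a (l 16740440) (l 16734672))) (b (l 16720224) (l 16707672))) (a (b (a (l 3) (l 152639009799)) (l 3)) (b (a (l 16740504) (l 16735672)) (a (l 113984398167) (l 16746904))))) (b (a (l 3) (b (a (l 3) (b (l 16756056) (l 3))) (l 3))) (l 3))) (b (a (b (b (l 16711392) (l 16697048)) (b (a (l 16730888) (l 16726224)) (a (l 16741880) (l 16737080)))) (b (b (l 16703632) (l 16709584)) (a (b (l 16721816) (l 16732480)) (b (l 16717736) (l 6))))) (b (a (b (a (b (l 16750376) (l 16756536)) (l 6)) (l 6)) (l 6)) (l 6))))))), by decide +kernel⟩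

theorem s3_pp_012_a : ∃ t, chk3 f_pp_012_a t 3 1 1 = true := ex3_a k1_pp_012_a k2_pp_012_a

theorem s4_pp_012_a : ∃ t, chk3 f_pp_012_a t 1 1 1 = true := ex3_a k0_pp_012_a s3_pp_012_a

theorem c_pp_012_a : CertB 0 536870912 0 536870912 740881858 40050571 3 eng mog cd1q0 cd2q2a pd1 false true true .pnp 0 1 2
    ndB1q0 ndB2q2a pcB1 cut_pp_012_a Ext.none :=
  certB2 (fam := false) (s1 := true) (s2 := true) (a := 0) (b := 1) (c := 2) (cn := .pnp) (n1 := ndB1q0) (n2 := ndB2q2a) (pc := pcB1) (cut := cut_pp_012_a) (xt := Ext.none) (P1 := 0) (W1 := 536870912) (P2 := 0) (W2 := 536870912) (P3 := 740881858) (W3 := 40050571) (N0 := 3) (En := eng) (mo := mog) (C1 := cd1q0) (C2 := cd2q2a) (C3 := pd1)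
    rfl (fun _ => rfl) s4_pp_012_a

noncomputable def cut_pp_012_b : Cut := Cut.of [[⟨0, 0, 0, 67108864⟩, ⟨1, 1, 0, 67108864⟩, ⟨2, 1, 0, 67108864⟩]]

noncomputable def f_pp_012_b : ℕ → ℕ → ℕ → ℕ → Bool := onCell 536870912 536870912 1239849684 370763052 740881858 40050571
    (rowB 3 eng mog cd1q0 cd2q2b pd1 2 false true true .pnp 0 1 2 (qsf 0 536870912 1239849684 370763052 1) ndB1q0 ndB2q2b pcB1 cut_pp_012_b Ext.none)

def k0_pp_012_b : ∃ t, chk3 f_pp_012_b t 1 1 1 = true :=
  ⟨(a (a (l 2) (a (l 3) (a (b (l 3) (l 2)) (b (b (b (b (b (b (b (a (l 16717056) (l 16715256)) (l 16715008)) (l 16712760)) (l 16707720)) (l 16696528)) (b (l 16681120) (l 16666208))) (b (c (l 16648096) (l 16641904)) (l 2))) (l 2))))) (a (b (b (a (a (b (b (b (b (c (l 16707128) (l 16700624)) (l 16698928)) (l 16691512)) (l 16676872)) (l 16649448)) (b (b (b (b (c (l 16690064) (l 16682432)) (l 16680176)) (l 16671248)) (l 16654000)) (l 16643216))) (a (b (b (b (c (l 16705016) (l 16676944)) (l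 16646080)) (l 16626784)) (l 16591208)) (b (b (b (b (l 16639080) (l 16631656)) (l 16620744)) (l 16599656)) (l 16560520)))) (a (a (b (c (l 16620928) (l 16613608)) (l 2)) (b (l 16585976) (l 16557160))) (a (b (l 16550152) (l 16516760)) (b (l 16514752) (l 16476688))))) (a (l 2) (b (a (l 16481944) (l 16434976)) (l 2)))) (b (a (a (c (b (b (b (b (l 16618072) (l 16602992)) (l 16581024)) (l 16539544)) (l 16572360)) (b (b (b (b (l 16614424) (l 16597976)) (l 16574248)) (l 16530248)) (l 16561544))) (c (b (b (b (b (l 16603336) (l 16587304)) (l 16563904)) (l 16519504)) (l 16608976)) (b (b (b (b (l 16602344) (l 16584568)) (l 16558840)) (l 16510840)) (l 16513592)))) (b (b (b (b (b (a (l 16596856) (l 16579800)) (l 16584432)) (l 16570464)) (l 16543224)) (l 16565000)) (b (l 16428968) (l 16374024)))) (a (b (a (l 16393720) (l 16358072)) (a (l 2) (l 16315184))) (b (l 16433368) (l 16250584)))))), by decide +kernel⟩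

theorem c_pp_012_b : CertB 0 536870912 1239849684 370763052 740881858 40050571 3 eng mog cd1q0 cd2q2b pd1 false true true .pnp 0 1 2
    ndB1q0 ndB2q2b pcB1 cut_pp_012_b Ext.none :=
  certB2 (fam := false) (s1 := true) (s2 := true) (a := 0) (b := 1) (c := 2) (cn := .pnp) (n1 := ndB1q0) (n2 := ndB2q2b) (pc := pcB1) (cut := cut_pp_012_b) (xt := Ext.none) (P1 := 0) (W1 := 536870912) (P2 := 1239849684) (W2 := 370763052) (P3 := 740881858) (W3 := 40050571) (N0 := 3) (En := eng) (mo := mog) (C1 := cd1q0) (C2 := cd2q2b) (C3 := pd1)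
    rfl (fun _ => rfl) k0_pp_012_b

noncomputable def cut_pp_022_a : Cut := Cut.of [[⟨0, 0, 0, 67108864⟩, ⟨1, 1, 0, 67108864⟩, ⟨2, 1, 0, 67108864⟩]]

noncomputable def f_pp_022_a : ℕ → ℕ → ℕ → ℕ → Bool := onCell 0 536870912 0 536870912 740881858 40050571
    (rowB 3 eng mog cd1q0 cd2q2a pd2 0 false true true .pp 0 2 2 (qsf 0 536870912 0 536870912 2) ndB1q0 ndB2q2a pcB2 cut_pp_022_a Ext.none)

def k0_pp_022_a : ∃ t, chk3 f_pp_022_a t 4 4 1 = true :=
  ⟨(a (a (b (a (a (a (b (c (a (b (l 16347608) (l 16345112)) (l 16351640)) (b (l 16325520) (l 16323264))) (b (a (b (l 16352768) (l 16331232)) (l 16336992)) (c (l 16345432) (l 16321400)))) (b (c (l 16359376) (l 16335192)) (b (l 16345120) (l 16344712)))) (b (c (l 16374608) (l 16351056)) (c (l 16372496) (l 16349216)))) (b (a (l 16383472) (l 16403232)) (c (l 16403264) (l 16381200)))) (a (a (a (b (c (b (l 16345656) (a (l 16344008) (l 16349720))) (b (l 16321872) (a (l 16320424) (l 16326256)))) (c (b (a (l 16346216) (l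 16352048)) (a (l 16349536) (l 16355496))) (b (a (l 16322912) (l 16328848)) (c (l 16335416) (l 16323584))))) (b (c (l 16357528) (l 16334144)) (c (l 16362568) (l 16339656)))) (c (b (l 16374096) (l 16379840)) (b (l 16351152) (l 16357264)))) (b (a (l 16384816) (l 16406136)) (c (l 16413264) (l 16391536))))) (b (a (a (b (l 16422392) (l 16422688)) (b (l 16440912) (l 16441744))) (b (l 16462576) (l 16463592))) (a (c (b (l 16445920) (l 16453376)) (a (l 16420344) (l 16439480))) (c (l 16478456) (l 16463424))))) (a (b (a (l 16488256) (l 16511704)) (a (l 16497952) (l 16522928))) (b (c (l 16517976) (l 16518816)) (l 16531456)))), by decide +kernel⟩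

def k1_pp_022_a : ∃ t, chk3 f_pp_022_a t 4 5 1 = true :=
  ⟨(a (a (b (a (a (b (c (b (c (l 16368584) (l 16357640)) (a (b (l 16361312) (l 16364664)) (l 16375248))) (b (a (c (l 16340200) (l 16328520)) (l 16346632)) (a (b (l 16338832) (l 16342232)) (l 16352912)))) (c (b (l 16376824) (l 16375208)) (a (b (l 16347832) (l 16356200)) (l 16364592)))) (b (c (b (l 16386992) (l 16393408)) (b (l 16364712) (l 16371288))) (c (l 16405776) (l 16383144)))) (a (b (c (l 16413584) (l 16391792)) (l 16418856)) (b (l 16426016) (l 16441568)))) (a (a (b (c (a (b (l 16389448) (l 16400560)) (l 16407480)) (c (b (l 16378120) (l 16388968)) (a (b (l 16359456) (l 16370008)) (l 16377392)))) (c (b (l 16419136) (l 16432744)) (c (b (l 16401064) (l 16414488)) (a (b (l 16381840) (l 16395024)) (l 16401240))))) (b (c (l 16425840) (l 16402392)) (c (b (l 16443752) (l 16456264)) (b (l 16419848) (l 16432536))))) (b (a (c (l 16449064) (l 16426368)) (c (l 16468088) (l 16447368))) (a (b (l 16453896) (l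 16464488)) (l 16477080))))) (b (a (a (b (l 16467896) (l 16502208)) (b (l 16463448) (l 16476064))) (b (l 16464488) (l 16477960))) (a (b (l 16483272) (l 16503080)) (b (l 16515240) (l 16557392))))) (b (a (a (l 16520680) (l 16547256)) (a (l 16552952) (l 16540728))) (a (a (l 16556320) (l 16584384)) (b (l 16563152) (l 16490512))))), by decide +kernel⟩

def k2_pp_022_a : ∃ t, chk3 f_pp_022_a t 8 12 1 = true :=
  ⟨(a (a (b (a (b (c (a (l 16441384) (l 16474560)) (a (l 16416376) (l 16428984))) (b (a (a (l 16459032) (b (l 16442400) (l 16446392))) (a (l 16449984) (l 16454928))) (a (c (a (b (l 16456568) (l 16460456)) (l 16463624)) (a (b (l 16431400) (l 16435440)) (l 16439112))) (l 16459080)))) (b (a (b (l 16449584) (l 16455816)) (l 16462200)) (c (l 16480600) (l 16459144)))) (a (b (a (a (b (a (c (l 16464448) (l 16439784)) (l 16454952)) (c (l 16472360) (l 16448784))) (c (l 16473552) (l 16450304))) (c (l 16480408) (l 16458328))) (c (a (a (b (l 16479560) (l 16487192)) (l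 16488088)) (l 16495152)) (a (a (b (l 16456912) (l 16465528)) (l 16466712)) (l 16474936)))) (b (c (l 16494064) (l 16474288)) (c (l 16509224) (l 16491304))))) (b (a (b (l 16476104) (l 16489216)) (l 16501192)) (a (b (l 16503984) (l 16520584)) (b (l 16523272) (l 16540424))))) (a (a (b (l 16519456) (a (l 16546288) (l 16555688))) (b (l 16537400) (l 16611024))) (b (c (l 16503264) (l 16496168)) (l 16594320)))), by decide +kernel⟩

def k3_pp_022_a : ∃ t, chk3 f_pp_022_a t 8 13 1 = true :=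
  ⟨(a (a (b (c (a (b (a (a (b (l 16495288) (l 16503888)) (l 16509696)) (l 16511744)) (a (b (a (l 16513000) (l 16518000)) (a (l 16522672) (l 16527760))) (l 16530408))) (b (l 16526280) (l 16545448))) (a (a (b (b (a (l 16474656) (l 16480264)) (a (l 16484328) (l 16490016))) (b (a (l 16494568) (l 16500336)) (a (l 16505416) (l 16511272)))) (b (l 16493576) (l 16514488))) (b (l 16510400) (l 16531808)))) (a (b (a (b (c (a (l 16532936) (l 16538112)) (a (l 16516912) (l 16522856))) (c (a (l 16543824) (l 16549104)) (a (l 16529080) (l 16535120)))) (b (c (l 16545872) (l 16531752)) (c (l 16557000) (l 16544160)))) (a (b (c (a (l 16555384) (l 16560760)) (a (l 16541968) (l 16548112))) (c (a (l 16567656) (l 16573136)) (l 16558752))) (b (c (l 16568816) (l 16557304)) (c (l 16581352) (l 16571224))))) (b (a (c (l 16561816) (l 16549856)) (b (l 16561024) (l 16573152))) (a (b (l 16574624) (l 16587616)) (b (l 16585536) (l 16597848)))))) (b (a (b (l 16539224) (a (l 16554824) (l 16565400)))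 (b (l 16559576) (l 16601160))) (a (b (a (l 16577744) (l 16587808)) (l 16606360)) (l 16655592)))) (a (b (b (a (l 16578592) (l 16596184)) (l 16607520)) (a (l 16611216) (l 16650336))) (b (l 16631912) (b (l 16655776) (l 16659464))))), by decide +kernel⟩

def k4_pp_022_a : ∃ t, chk3 f_pp_022_a t 9 6 1 = true :=
  ⟨(b (b (a (l 16608704) (a (l 16591944) (l 16576688))) (a (l 16558960) (a (l 16601088) (l 1)))) (a (a (b (l 16637552) (b (l 16643200) (l 234108968167))) (b (l 235719553511) (b (l 488585827463) (l 1)))) (b (a (l 521334871191) (l 1)) (l 1)))), by decide +kernel⟩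

def k5_pp_022_a : ∃ t, chk3 f_pp_022_a t 4 7 1 = true :=
  ⟨(a (b (a (b (a (a (b (a (b (c (l 16583480) (l 16573272)) (c (a (l 16594432) (l 16599800)) (a (l 16585304) (l 16591256)))) (b (c (l 16594336) (l 16585472)) (a (l 16600920) (l 16605968)))) (a (b (a (b (l 16600208) (l 6)) (l 16607864)) (l 6)) (l 16620672))) (b (a (b (l 16600488) (l 16613512)) (l 16616928)) (l 16656904))) (b (a (l 16631680) (l 16651048)) (a (b (l 16650688) (l 6)) (l 16675680)))) (l 6)) (a (b (b (l 16674208) (b (l 16677784) (l 6))) (l 6)) (a (b (b (l 16665416) (l 16670584)) (l 6)) (b (b (l 16658712) (l 303902307991)) (b (l 471406003431) (l 1)))))) (a (l 6) (a (l 6) (l 1)))) (b (a (b (a (b (a (l 299070428247) (l 559989648007)) (a (l 468721616887) (l 1))) (l 1)) (l 1)) (l 1)) (l 1))), by decide +kernel⟩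

def k6_pp_022_a : ∃ t, chk3 f_pp_022_a t 5 1 1 = true :=
  ⟨(b (a (b (a (b (c (b (l 16493392) (l 16498320)) (l 16510560)) (a (l 16512128) (l 16494872))) (b (l 1) (l 1))) (a (b (b (l 259878645191) (a (l 16529160) (l 339872437127))) (a (l 315713288023) (l 1))) (l 1))) (l 1)) (b (l 1) (l 1))), by decide +kernel⟩

def k7_pp_022_a : ∃ t, chk3 f_pp_022_a t 3 1 1 = true :=
  ⟨(l 1), by decide +kernel⟩

theorem s8_pp_022_a : ∃ t, chk3 f_pp_022_a t 8 6 1 = true := ex3_b k2_pp_022_a k3_pp_022_a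

theorem s9_pp_022_a : ∃ t, chk3 f_pp_022_a t 4 6 1 = true := ex3_a s8_pp_022_a k4_pp_022_a

theorem s10_pp_022_a : ∃ t, chk3 f_pp_022_a t 4 3 1 = true := ex3_b s9_pp_022_a k5_pp_022_a

theorem s11_pp_022_a : ∃ t, chk3 f_pp_022_a t 4 2 1 = true := ex3_b k0_pp_022_a k1_pp_022_a

theorem s12_pp_022_a : ∃ t, chk3 f_pp_022_a t 4 1 1 = true := ex3_b s11_pp_022_a s10_pp_022_a

theorem s13_pp_022_a : ∃ t, chk3 f_pp_022_a t 2 1 1 = true := ex3_a s12_pp_022_a k6_pp_022_a

theorem s14_pp_022_a : ∃ t, chk3 f_pp_022_a t 1 1 1 = true := ex3_a s13_pp_022_a k7_pp_022_a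

theorem c_pp_022_a : CertB 0 536870912 0 536870912 740881858 40050571 3 eng mog cd1q0 cd2q2a pd2 false true true .pp 0 2 2
    ndB1q0 ndB2q2a pcB2 cut_pp_022_a Ext.none :=
  certB0 (fam := false) (s1 := true) (s2 := true) (a := 0) (b := 2) (c := 2) (cn := .pp) (n1 := ndB1q0) (n2 := ndB2q2a) (pc := pcB2) (cut := cut_pp_022_a) (xt := Ext.none) (P1 := 0) (W1 := 536870912) (P2 := 0) (W2 := 536870912) (P3 := 740881858) (W3 := 40050571) (N0 := 3) (En := eng) (mo := mog) (C1 := cd1q0) (C2 := cd2q2a) (C3 := pd2)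
    rfl s14_pp_022_a

noncomputable def cut_pp_022_b : Cut := Cut.of [[⟨0, 0, 0, 67108864⟩, ⟨1, 1, 0, 67108864⟩, ⟨2, 1, 0, 67108864⟩]]

noncomputable def f_pp_022_b : ℕ → ℕ → ℕ → ℕ → Bool := onCell 1073741824 536870912 1239849684 370763052 740881858 40050571
    (rowB 3 eng mog cd1q0 cd2q2b pd2 2 false true true .pp 0 2 2 (qsf 0 536870912 1239849684 370763052 2) ndB1q0 ndB2q2b pcB2 cut_pp_022_b Ext.none)

def k0_pp_022_b : ∃ t, chk3 f_pp_022_b t 4 2 1 = true :=
  ⟨(b (c (b (a (b (a (b (c (l 16485032) (l 16481248)) (l 16464584)) (b (c (l 16504488) (l 16504368)) (l 16486800))) (a (l 16437264) (l 16459952))) (b (b (a (c (l 16495952) (l 16493016)) (a (l 16484024) (b (l 16436432) (l 16432112)))) (a (l 16482624) (a (l 16452632) (l 16425536)))) (a (l 16464576) (l 16424680)))) (a (a (l 16384648) (l 16407016)) (a (l 16419824) (l 16394504)))) (b (b (b (a (a (c (l 16477440) (l 16473624)) (l 16546368)) (a (c (l 16489608) (l 16485728)) (a (l 16448456) (l 16436824))))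 (a (a (l 16453976) (l 16484056)) (a (l 16478952) (a (l 16441600) (l 16410656))))) (a (a (l 16422488) (l 16453248)) (a (l 16465312) (l 16416784)))) (a (a (l 16362792) (l 16393352)) (a (l 16417344) (l 16395752))))) (a (a (b (l 16368384) (l 16244120)) (b (l 16372840) (l 16268240))) (a (b (l 16348984) (l 16285560)) (b (l 16359776) (l 16298688))))), by decide +kernel⟩

def k1_pp_022_b : ∃ t, chk3 f_pp_022_b t 5 4 2 = true :=
  ⟨(a (b (a (a (b (b (b (l 16400328) (l 16397080)) (l 16392104)) (l 16381768)) (b (b (c (a (b (l 16377040) (l 16374240)) (b (a (l 16362448) (b (a (l 16355568) (l 16350264)) (l 16351880))) (l 16376160))) (a (l 16365104) (b (a (l 16351136) (b (l 289943003623) (l 16340448))) (l 16344416)))) (a (l 16365416) (l 16346848))) (a (l 16357392) (l 16340360)))) (b (b (b (a (a (b (b (l 1) (l 307122824167)) (l 304975339463)) (l 1)) (l 1)) (a (a (l 325376461447) (l 314638972663)) (l 1))) (a (a (l 16327344) (b (l 311954615959) (l 16306904))) (a (l 329134443383)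 (l 1)))) (a (b (l 16314632) (l 16311504)) (b (a (l 328060737143) (l 343629915127)) (a (l 16283816) (l 16264768)))))) (a (a (l 16359528) (l 16374624)) (b (a (l 16306328) (l 16271848)) (l 16283352)))) (b (b (l 1) (a (a (b (l 1) (a (l 355977905239) (l 349535414519))) (l 1)) (l 1))) (a (b (a (b (a (l 16244920) (l 324839392471)) (l 16235256)) (b (l 363494000535) (l 318396888839))) (a (l 16234552) (l 16199680))) (b (a (l 377989500631) (l 1)) (a (l 303364391751) (l 409664756855)))))), by decide +kernel⟩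

def k2_pp_022_b : ∃ t, chk3 f_pp_022_b t 5 4 3 = true :=
  ⟨(a (b (a (a (b (b (c (l 16383416) (l 16372312)) (l 16374648)) (l 16369072)) (b (b (b (a (l 16348552) (a (b (l 16333168) (l 16332928)) (b (a (l 16325272) (l 16319544)) (l 16322288)))) (a (l 16347680) (l 16327312))) (a (l 16346224) (l 16326544))) (l 16333632))) (b (b (a (b (a (c (l 331281975271) (l 366715427543)) (l 1)) (l 328597604039)) (l 1)) (a (a (l 16304424) (l 344166852007)) (l 346851183015))) (a (b (l 16292928) (l 16292704)) (b (a (l 345777419095) (l 359735981511)) (l 16248736))))) (a (a (l 16355480) (l 16325528)) (b (a (l 16291712) (l 16250704)) (l 16270952)))) (b (b (l 1) (a (a (b (l 1) (l 369936463943)) (l 1)) (l 1))) (a (b (a (b (l 340408605943) (l 16208912)) (b (l 378526313191) (l 332892330711))) (a (l 16212680) (l 16171224))) (b (a (l 382821192263) (l 1)) (a (l 325376087095) (l 389263578087)))))), by decide +kernel⟩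

def k3_pp_022_b : ∃ t, chk3 f_pp_022_b t 5 5 1 = true :=
  ⟨(a (a (b (a (l 16330664) (l 16308304)) (l 16295096)) (b (b (l 16272352) (l 16266328)) (l 16257752))) (b (a (b (l 16249480) (l 16209024)) (b (a (l 16153456) (b (l 316249241319) (l 16117912))) (a (l 16160008) (l 16125128)))) (a (l 16209448) (l 16153256)))), by decide +kernel⟩

def k4_pp_022_b : ∃ t, chk3 f_pp_022_b t 2 3 1 = true :=
  ⟨(a (a (b (a (l 16167456) (l 16189024)) (l 16148096)) (b (a (l 16225576) (l 16216872)) (l 16132104))) (a (b (a (l 16235592) (l 16233648)) (l 16227352)) (b (a (l 16209352) (l 16255144)) (l 16185416)))), by decide +kernel⟩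

def k5_pp_022_b : ∃ t, chk3 f_pp_022_b t 3 1 1 = true :=
  ⟨(b (a (b (l 1) (a (b (a (b (a (b (l 411275264215) (l 373157562471)) (l 1)) (a (b (l 364030766327) (l 16091752)) (b (l 390874118807) (l 394095473287)))) (b (l 1) (a (b (l 1) (l 409664540087)) (l 1)))) (a (b (a (l 16100488) (l 16065784)) (l 16095592)) (b (a (l 401074747223) (l 424696878039)) (a (l 16046336) (l 389800419271))))) (b (l 1) (a (b (l 1) (a (l 437581747927) (l 1))) (l 1))))) (l 1)) (a (b (a (b (a (l 16112232) (l 16054536)) (l 16173240)) (b (a (a (l 16007944) (l 447782439303)) (b (l 478383811095) (l 402148191927))) (a (l 16032312) (l 368862462791)))) (a (b (l 16135488) (l 16157552)) (b (l 16046752) (l 16088112)))) (b (a (b (l 1) (a (l 491805632903) (l 534755146375))) (l 1)) (a (b (a (l 15971672) (l 380673496647)) (l 16000776)) (b (a (l 552471903175) (l 1)) (l 406443386743)))))), by decide +kernel⟩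

theorem s6_pp_022_b : ∃ t, chk3 f_pp_022_b t 5 4 1 = true := ex3_c k1_pp_022_b k2_pp_022_b

theorem s7_pp_022_b : ∃ t, chk3 f_pp_022_b t 5 2 1 = true := ex3_b s6_pp_022_b k3_pp_022_b

theorem s8_pp_022_b : ∃ t, chk3 f_pp_022_b t 2 2 1 = true := ex3_a k0_pp_022_b s7_pp_022_b

theorem s9_pp_022_b : ∃ t, chk3 f_pp_022_b t 2 1 1 = true := ex3_b s8_pp_022_b k4_pp_022_b

theorem s10_pp_022_b : ∃ t, chk3 f_pp_022_b t 1 1 1 = true := ex3_a s9_pp_022_b k5_pp_022_b

theorem c_pp_022_b : CertB 0 536870912 1239849684 370763052 740881858 40050571 3 eng mog cd1q0 cd2q2b pd2 false true true .pp 0 2 2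
    ndB1q0 ndB2q2b pcB2 cut_pp_022_b Ext.none :=
  certB2 (fam := false) (s1 := true) (s2 := true) (a := 0) (b := 2) (c := 2) (cn := .pp) (n1 := ndB1q0) (n2 := ndB2q2b) (pc := pcB2) (cut := cut_pp_022_b) (xt := Ext.none) (P1 := 0) (W1 := 536870912) (P2 := 1239849684) (W2 := 370763052) (P3 := 740881858) (W3 := 40050571) (N0 := 3) (En := eng) (mo := mog) (C1 := cd1q0) (C2 := cd2q2b) (C3 := pd2)
    rfl (fun _ => rfl) s10_pp_022_b

noncomputable def f_pp_023 : ℕ → ℕ → ℕ → ℕ → Bool := onCell 1073741824 536870912 1610612736 536870912 740881858 40050571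
    (rowB 3 eng mog cd1q0 cd2q3 pd2 2 false true true .up 0 2 3 (qsf 0 536870912 1610612736 536870912 2) ndB1q0 ndB2q3 pcB2 Cut.none Ext.none)

def k0_pp_023 : ∃ t, chk3 f_pp_023 t 1 1 1 = true :=
  ⟨(a (a (b (b (a (a (l 16104304) (l 16107168)) (l 16256304)) (a (l 2) (l 16194976))) (l 2)) (b (a (b (l 16175960) (l 16195680)) (b (l 16163688) (l 16224152))) (b (a (l 2) (l 16355568)) (l 2)))) (a (b (b (a (l 16148736) (l 16151472)) (a (l 16225688) (l 16162416))) (b (l 16361848) (l 448387773799))) (b (b (a (b (l 16061728) (l 16123984)) (b (l 15973744) (l 16053440))) (a (l 16166560) (l 16153976))) (b (a (l 16365360) (l 16335616)) (l 16734360))))), by decide +kernel⟩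

theorem c_pp_023 : CertB 0 536870912 1610612736 536870912 740881858 40050571 3 eng mog cd1q0 cd2q3 pd2 false true true .up 0 2 3
    ndB1q0 ndB2q3 pcB2 Cut.none Ext.none :=
  certB2 (fam := false) (s1 := true) (s2 := true) (a := 0) (b := 2) (c := 3) (cn := .up) (n1 := ndB1q0) (n2 := ndB2q3) (pc := pcB2) (cut := Cut.none) (xt := Ext.none) (P1 := 0) (W1 := 536870912) (P2 := 1610612736) (W2 := 536870912) (P3 := 740881858) (W3 := 40050571) (N0 := 3) (En := eng) (mo := mog) (C1 := cd1q0) (C2 := cd2q3) (C3 := pd2)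
    rfl (fun _ => rfl) k0_pp_023

noncomputable def f_pp_033 : ℕ → ℕ → ℕ → ℕ → Bool := onCell 0 536870912 1610612736 536870912 740881858 40050571
    (rowB 3 eng mog cd1q0 cd2q3 pd3 1 false true true .pnn 0 3 3 (qsf 0 536870912 1610612736 536870912 3) ndB1q0 ndB2q3 pcB3 Cut.none Ext.none)

def k0_pp_033 : ∃ t, chk3 f_pp_033 t 1 1 1 = true :=
  ⟨(a (b (b (a (b (a (b (l 15930208) (l 15918536)) (l 16010960)) (a (l 15901464) (l 15980056))) (b (l 16117688) (l 16134040))) (b (a (a (l 15906464) (l 16005024)) (l 16202208)) (a (b (l 16001672) (l 16034080)) (a (l 16198104) (l 4))))) (a (b (l 4) (l 4)) (b (l 4) (a (b (l 4) (l 2)) (l 2))))) (b (a (b (b (l 16341088) (l 16132064)) (b (l 16446840) (l 4))) (b (b (l 16528640) (l 16578544)) (a (b (l 4) (l 2)) (l 2)))) (a (b (a (b (l 4) (l 2)) (l 2)) (l 2)) (l 2)))), by decide +kernel⟩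

theorem c_pp_033 : CertB 0 536870912 1610612736 536870912 740881858 40050571 3 eng mog cd1q0 cd2q3 pd3 false true true .pnn 0 3 3
    ndB1q0 ndB2q3 pcB3 Cut.none Ext.none :=
  certB1 (fam := false) (s1 := true) (s2 := true) (a := 0) (b := 3) (c := 3) (cn := .pnn) (n1 := ndB1q0) (n2 := ndB2q3) (pc := pcB3) (cut := Cut.none) (xt := Ext.none) (P1 := 0) (W1 := 536870912) (P2 := 1610612736) (W2 := 536870912) (P3 := 740881858) (W3 := 40050571) (N0 := 3) (En := eng) (mo := mog) (C1 := cd1q0) (C2 := cd2q3) (C3 := pd3)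
    rfl (fun _ => rfl) k0_pp_033

noncomputable def f_pp_101 : ℕ → ℕ → ℕ → ℕ → Bool := onCell 536870912 536870912 536870912 536870912 740881858 40050571
    (rowB 3 eng mog cd1q1 cd2q1 pd0 0 false true true .npn 1 0 1 (qsf 536870912 536870912 536870912 536870912 0) ndB1q1 ndB2q1 pcB0 Cut.none Ext.none)

def k0_pp_101 : ∃ t, chk3 f_pp_101 t 1 1 1 = true :=
  ⟨(l 3), by decide +kernel⟩

theorem c_pp_101 : CertB 536870912 536870912 536870912 536870912 740881858 40050571 3 eng mog cd1q1 cd2q1 pd0 false true true .npn 1 0 1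
    ndB1q1 ndB2q1 pcB0 Cut.none Ext.none :=
  certB0 (fam := false) (s1 := true) (s2 := true) (a := 1) (b := 0) (c := 1) (cn := .npn) (n1 := ndB1q1) (n2 := ndB2q1) (pc := pcB0) (cut := Cut.none) (xt := Ext.none) (P1 := 536870912) (W1 := 536870912) (P2 := 536870912) (W2 := 536870912) (P3 := 740881858) (W3 := 40050571) (N0 := 3) (En := eng) (mo := mog) (C1 := cd1q1) (C2 := cd2q1) (C3 := pd0)
    rfl k0_pp_101

noncomputable def f_pp_102_a : ℕ → ℕ → ℕ → ℕ → Bool := onCell 536870912 536870912 0 536870912 740881858 40050571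
    (rowB 3 eng mog cd1q1 cd2q2a pd0 0 false true true .npp 1 0 2 (qsf 536870912 536870912 0 536870912 0) ndB1q1 ndB2q2a pcB0 Cut.none Ext.none)

def k0_pp_102_a : ∃ t, chk3 f_pp_102_a t 1 1 1 = true :=
  ⟨(a (l 3) (l 3)), by decide +kernel⟩

theorem c_pp_102_a : CertB 536870912 536870912 0 536870912 740881858 40050571 3 eng mog cd1q1 cd2q2a pd0 false true true .npp 1 0 2
    ndB1q1 ndB2q2a pcB0 Cut.none Ext.none :=
  certB0 (fam := false) (s1 := true) (s2 := true) (a := 1) (b := 0) (c := 2) (cn := .npp) (n1 := ndB1q1) (n2 := ndB2q2a) (pc := pcB0) (cut := Cut.none) (xt := Ext.none) (P1 := 536870912) (W1 := 536870912) (P2 := 0) (W2 := 536870912) (P3 := 740881858) (W3 := 40050571) (N0 := 3) (En := eng) (mo := mog) (C1 := cd1q1) (C2 := cd2q2a) (C3 := pd0)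
    rfl k0_pp_102_a

noncomputable def f_pp_102_b : ℕ → ℕ → ℕ → ℕ → Bool := onCell 536870912 536870912 0 536870912 740881858 40050571
    (rowB 3 eng mog cd1q1 cd2q2b pd0 1 false true true .npp 1 0 2 (qsf 536870912 536870912 1239849684 370763052 0) ndB1q1 ndB2q2b pcB0 Cut.none Ext.none)

def k0_pp_102_b : ∃ t, chk3 f_pp_102_b t 1 1 1 = true :=
  ⟨(l 3), by decide +kernel⟩

theorem c_pp_102_b : CertB 536870912 536870912 1239849684 370763052 740881858 40050571 3 eng mog cd1q1 cd2q2b pd0 false true true .npp 1 0 2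
    ndB1q1 ndB2q2b pcB0 Cut.none Ext.none :=
  certB1 (fam := false) (s1 := true) (s2 := true) (a := 1) (b := 0) (c := 2) (cn := .npp) (n1 := ndB1q1) (n2 := ndB2q2b) (pc := pcB0) (cut := Cut.none) (xt := Ext.none) (P1 := 536870912) (W1 := 536870912) (P2 := 1239849684) (W2 := 370763052) (P3 := 740881858) (W3 := 40050571) (N0 := 3) (En := eng) (mo := mog) (C1 := cd1q1) (C2 := cd2q2b) (C3 := pd0)
    rfl (fun _ => rfl) k0_pp_102_b

noncomputable def f_pp_112_a : ℕ → ℕ → ℕ → ℕ → Bool := onCell 536870912 536870912 0 536870912 740881858 40050571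
    (rowB 3 eng mog cd1q1 cd2q2a pd1 0 false true true .dn 1 1 2 (qsf 536870912 536870912 0 536870912 1) ndB1q1 ndB2q2a pcB1 Cut.none Ext.none)

def k0_pp_112_a : ∃ t, chk3 f_pp_112_a t 1 1 1 = true :=
  ⟨(a (l 3) (l 1)), by decide +kernel⟩

theorem c_pp_112_a : CertB 536870912 536870912 0 536870912 740881858 40050571 3 eng mog cd1q1 cd2q2a pd1 false true true .dn 1 1 2
    ndB1q1 ndB2q2a pcB1 Cut.none Ext.none :=
  certB0 (fam := false) (s1 := true) (s2 := true) (a := 1) (b := 1) (c := 2) (cn := .dn) (n1 := ndB1q1) (n2 := ndB2q2a) (pc := pcB1) (cut := Cut.none) (xt := Ext.none) (P1 := 536870912) (W1 := 536870912) (P2 := 0) (W2 := 536870912) (P3 := 740881858) (W3 := 40050571) (N0 := 3) (En := eng) (mo := mog) (C1 := cd1q1) (C2 := cd2q2a) (C3 := pd1)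
    rfl k0_pp_112_a

noncomputable def f_pp_112_b : ℕ → ℕ → ℕ → ℕ → Bool := onCell 536870912 536870912 536870912 536870912 740881858 40050571
    (rowB 3 eng mog cd1q1 cd2q2b pd1 1 false true true .dn 1 1 2 (qsf 536870912 536870912 1239849684 370763052 1) ndB1q1 ndB2q2b pcB1 Cut.none Ext.none)

def k0_pp_112_b : ∃ t, chk3 f_pp_112_b t 1 1 1 = true :=
  ⟨(b (a (b (l 3) (b (l 3) (a (a (a (b (l 3) (b (l 3) (l 69423927303))) (l 3)) (l 3)) (l 3)))) (l 3)) (b (a (b (a (a (b (a (c (l 16585312) (l 16570936)) (l 16567592)) (l 16528688)) (b (l 125795361015) (l 16515136))) (b (a (l 16587448) (l 3)) (a (l 16522288) (l 16560016)))) (a (b (a (l 16477400) (l 16469320)) (l 16419496)) (b (l 16599696) (l 16492928)))) (b (b (l 3) (l 2)) (l 2))) (a (b (a (b (l 16371792) (l 16329112)) (b (l 16476264) (l 2))) (a (l 16264752) (l 2))) (l 2)))), by decide +kernel⟩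

theorem c_pp_112_b : CertB 536870912 536870912 1239849684 370763052 740881858 40050571 3 eng mog cd1q1 cd2q2b pd1 false true true .dn 1 1 2
    ndB1q1 ndB2q2b pcB1 Cut.none Ext.none :=
  certB1 (fam := false) (s1 := true) (s2 := true) (a := 1) (b := 1) (c := 2) (cn := .dn) (n1 := ndB1q1) (n2 := ndB2q2b) (pc := pcB1) (cut := Cut.none) (xt := Ext.none) (P1 := 536870912) (W1 := 536870912) (P2 := 1239849684) (W2 := 370763052) (P3 := 740881858) (W3 := 40050571) (N0 := 3) (En := eng) (mo := mog) (C1 := cd1q1) (C2 := cd2q2b) (C3 := pd1)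
    rfl (fun _ => rfl) k0_pp_112_b

noncomputable def f_pp_113 : ℕ → ℕ → ℕ → ℕ → Bool := onCell 536870912 536870912 536870912 536870912 740881858 40050571
    (rowB 3 eng mog cd1q1 cd2q3 pd1 1 false true true .nn 1 1 3 (qsf 536870912 536870912 1610612736 536870912 1) ndB1q1 ndB2q3 pcB1 Cut.none Ext.none)

def k0_pp_113 : ∃ t, chk3 f_pp_113 t 1 1 1 = true :=
  ⟨(b (a (a (l 1) (l 3)) (l 3)) (b (a (a (b (l 1) (b (l 1) (l 16429256))) (b (b (a (l 1) (l 3)) (a (l 16534392) (l 182703777623))) (b (a (l 16510520) (l 16578432)) (l 16529336)))) (b (a (b (l 3) (a (l 210621189735) (l 3))) (l 3)) (a (b (a (l 16688360) (l 16800904)) (a (l 16754104) (l 16954480))) (b (a (l 3) (l 3)) (a (l 16717768) (l 305646815607)))))) (a (b (a (b (l 16388160) (l 16352432)) (b (l 16526744) (l 16535456))) (a (l 16298776) (a (l 16457048) (l 16704304)))) (b (a (b (l 16875376) (l 16935952)) (b (a (l 16880328) (l 237464699847)) (a (l 16923584) (l 16815728)))) (a (b (l 16888112) (l 16838472))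 (b (l 16878560) (a (l 16862424) (l 16823688)))))))), by decide +kernel⟩

theorem c_pp_113 : CertB 536870912 536870912 1610612736 536870912 740881858 40050571 3 eng mog cd1q1 cd2q3 pd1 false true true .nn 1 1 3
    ndB1q1 ndB2q3 pcB1 Cut.none Ext.none :=
  certB1 (fam := false) (s1 := true) (s2 := true) (a := 1) (b := 1) (c := 3) (cn := .nn) (n1 := ndB1q1) (n2 := ndB2q3) (pc := pcB1) (cut := Cut.none) (xt := Ext.none) (P1 := 536870912) (W1 := 536870912) (P2 := 1610612736) (W2 := 536870912) (P3 := 740881858) (W3 := 40050571) (N0 := 3) (En := eng) (mo := mog) (C1 := cd1q1) (C2 := cd2q3) (C3 := pd1)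
    rfl (fun _ => rfl) k0_pp_113

noncomputable def f_pp_123 : ℕ → ℕ → ℕ → ℕ → Bool := onCell 1073741824 536870912 1610612736 536870912 740881858 40050571
    (rowB 3 eng mog cd1q1 cd2q3 pd2 2 false true true .npn 1 2 3 (qsf 536870912 536870912 1610612736 536870912 2) ndB1q1 ndB2q3 pcB2 Cut.none Ext.none)

def k0_pp_123 : ∃ t, chk3 f_pp_123 t 1 1 1 = true :=
  ⟨(a (a (b (b (a (a (l 16140504) (l 16142040)) (l 16236056)) (a (l 16374256) (l 16272832))) (b (a (c (l 16641264) (l 16624288)) (l 16523056)) (a (b (l 16665944) (l 16643952)) (b (l 16576536) (a (l 16596696) (l 16564728)))))) (b (a (b (l 16374464) (l 16255776)) (b (l 1) (l 16302728))) (b (a (l 16456832) (l 16444984)) (a (b (l 16523464) (l 16523368)) (l 16283344))))) (a (b (b (l 1) (l 16398488)) (b (l 16333280) (b (l 16530936) (l 16565624)))) (b (l 1) (b (l 16510688) (l 175053602391))))), by decide +kernel⟩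

theorem c_pp_123 : CertB 536870912 536870912 1610612736 536870912 740881858 40050571 3 eng mog cd1q1 cd2q3 pd2 false true true .npn 1 2 3
    ndB1q1 ndB2q3 pcB2 Cut.none Ext.none :=
  certB2 (fam := false) (s1 := true) (s2 := true) (a := 1) (b := 2) (c := 3) (cn := .npn) (n1 := ndB1q1) (n2 := ndB2q3) (pc := pcB2) (cut := Cut.none) (xt := Ext.none) (P1 := 536870912) (W1 := 536870912) (P2 := 1610612736) (W2 := 536870912) (P3 := 740881858) (W3 := 40050571) (N0 := 3) (En := eng) (mo := mog) (C1 := cd1q1) (C2 := cd2q3) (C3 := pd2)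
    rfl (fun _ => rfl) k0_pp_123

noncomputable def f_pp_133 : ℕ → ℕ → ℕ → ℕ → Bool := onCell 1610612736 536870912 1610612736 536870912 740881858 40050571
    (rowB 3 eng mog cd1q1 cd2q3 pd3 2 false true true .dn 1 3 3 (qsf 536870912 536870912 1610612736 536870912 3) ndB1q1 ndB2q3 pcB3 Cut.none Ext.none)

def k0_pp_133 : ∃ t, chk3 f_pp_133 t 1 1 1 = true :=
  ⟨(a (b (l 1) (a (b (l 1) (l 372085278999)) (l 1))) (l 1)), by decide +kernel⟩

theorem c_pp_133 : CertB 536870912 536870912 1610612736 536870912 740881858 40050571 3 eng mog cd1q1 cd2q3 pd3 false true true .dn 1 3 3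
    ndB1q1 ndB2q3 pcB3 Cut.none Ext.none :=
  certB2 (fam := false) (s1 := true) (s2 := true) (a := 1) (b := 3) (c := 3) (cn := .dn) (n1 := ndB1q1) (n2 := ndB2q3) (pc := pcB3) (cut := Cut.none) (xt := Ext.none) (P1 := 536870912) (W1 := 536870912) (P2 := 1610612736) (W2 := 536870912) (P3 := 740881858) (W3 := 40050571) (N0 := 3) (En := eng) (mo := mog) (C1 := cd1q1) (C2 := cd2q3) (C3 := pd3)
    rfl (fun _ => rfl) k0_pp_133

noncomputable def f_pp_202_aa : ℕ → ℕ → ℕ → ℕ → Bool := onCell 0 536870912 0 536870912 740881858 40050571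
    (rowB 3 eng mog cd1q2a cd2q2a pd0 0 false true true .pp 2 0 2 (qsf 0 536870912 0 536870912 0) ndB1q2a ndB2q2a pcB0 Cut.none Ext.none)

def k0_pp_202_aa : ∃ t, chk3 f_pp_202_aa t 1 1 1 = true :=
  ⟨(l 3), by decide +kernel⟩

theorem c_pp_202_aa : CertB 0 536870912 0 536870912 740881858 40050571 3 eng mog cd1q2a cd2q2a pd0 false true true .pp 2 0 2
    ndB1q2a ndB2q2a pcB0 Cut.none Ext.none :=
  certB0 (fam := false) (s1 := true) (s2 := true) (a := 2) (b := 0) (c := 2) (cn := .pp) (n1 := ndB1q2a) (n2 := ndB2q2a) (pc := pcB0) (cut := Cut.none) (xt := Ext.none) (P1 := 0) (W1 := 536870912) (P2 := 0) (W2 := 536870912) (P3 := 740881858) (W3 := 40050571) (N0 := 3) (En := eng) (mo := mog) (C1 := cd1q2a) (C2 := cd2q2a) (C3 := pd0)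
    rfl k0_pp_202_aa

noncomputable def f_pp_202_ab : ℕ → ℕ → ℕ → ℕ → Bool := onCell 0 536870912 1239849684 370763052 740881858 40050571
    (rowB 3 eng mog cd1q2a cd2q2b pd0 0 false true true .pp 2 0 2 (qsf 0 536870912 1239849684 370763052 0) ndB1q2a ndB2q2b pcB0 Cut.none Ext.none)

def k0_pp_202_ab : ∃ t, chk3 f_pp_202_ab t 1 1 1 = true :=
  ⟨(l 3), by decide +kernel⟩

theorem c_pp_202_ab : CertB 0 536870912 1239849684 370763052 740881858 40050571 3 eng mog cd1q2a cd2q2b pd0 false true true .pp 2 0 2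
    ndB1q2a ndB2q2b pcB0 Cut.none Ext.none :=
  certB0 (fam := false) (s1 := true) (s2 := true) (a := 2) (b := 0) (c := 2) (cn := .pp) (n1 := ndB1q2a) (n2 := ndB2q2b) (pc := pcB0) (cut := Cut.none) (xt := Ext.none) (P1 := 0) (W1 := 536870912) (P2 := 1239849684) (W2 := 370763052) (P3 := 740881858) (W3 := 40050571) (N0 := 3) (En := eng) (mo := mog) (C1 := cd1q2a) (C2 := cd2q2b) (C3 := pd0)
    rfl k0_pp_202_ab

noncomputable def f_pp_202_ba : ℕ → ℕ → ℕ → ℕ → Bool := onCell 1239849684 370763052 0 536870912 740881858 40050571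
    (rowB 3 eng mog cd1q2b cd2q2a pd0 0 false true true .pp 2 0 2 (qsf 1239849684 370763052 0 536870912 0) ndB1q2b ndB2q2a pcB0 Cut.none Ext.none)

def k0_pp_202_ba : ∃ t, chk3 f_pp_202_ba t 1 1 1 = true :=
  ⟨(l 3), by decide +kernel⟩

theorem c_pp_202_ba : CertB 1239849684 370763052 0 536870912 740881858 40050571 3 eng mog cd1q2b cd2q2a pd0 false true true .pp 2 0 2
    ndB1q2b ndB2q2a pcB0 Cut.none Ext.none :=
  certB0 (fam := false) (s1 := true) (s2 := true) (a := 2) (b := 0) (c := 2) (cn := .pp) (n1 := ndB1q2b) (n2 := ndB2q2a) (pc := pcB0) (cut := Cut.none) (xt := Ext.none) (P1 := 1239849684) (W1 := 370763052) (P2 := 0) (W2 := 536870912) (P3 := 740881858) (W3 := 40050571) (N0 := 3) (En := eng) (mo := mog) (C1 := cd1q2b) (C2 := cd2q2a) (C3 := pd0)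
    rfl k0_pp_202_ba

noncomputable def f_pp_202_bb : ℕ → ℕ → ℕ → ℕ → Bool := onCell 1239849684 370763052 1239849684 370763052 740881858 40050571
    (rowB 3 eng mog cd1q2b cd2q2b pd0 0 false true true .pp 2 0 2 (qsf 1239849684 370763052 1239849684 370763052 0) ndB1q2b ndB2q2b pcB0 Cut.none Ext.none)

def k0_pp_202_bb : ∃ t, chk3 f_pp_202_bb t 1 1 1 = true :=
  ⟨(l 3), by decide +kernel⟩

theorem c_pp_202_bb : CertB 1239849684 370763052 1239849684 370763052 740881858 40050571 3 eng mog cd1q2b cd2q2b pd0 false true true .pp 2 0 2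
    ndB1q2b ndB2q2b pcB0 Cut.none Ext.none :=
  certB0 (fam := false) (s1 := true) (s2 := true) (a := 2) (b := 0) (c := 2) (cn := .pp) (n1 := ndB1q2b) (n2 := ndB2q2b) (pc := pcB0) (cut := Cut.none) (xt := Ext.none) (P1 := 1239849684) (W1 := 370763052) (P2 := 1239849684) (W2 := 370763052) (P3 := 740881858) (W3 := 40050571) (N0 := 3) (En := eng) (mo := mog) (C1 := cd1q2b) (C2 := cd2q2b) (C3 := pd0)
    rfl k0_pp_202_bb

noncomputable def f_pp_203_a : ℕ → ℕ → ℕ → ℕ → Bool := onCell 0 536870912 0 536870912 740881858 40050571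
    (rowB 3 eng mog cd1q2a cd2q3 pd0 1 false true true .up 2 0 3 (qsf 0 536870912 1610612736 536870912 0) ndB1q2a ndB2q3 pcB0 Cut.none Ext.none)

def k0_pp_203_a : ∃ t, chk3 f_pp_203_a t 1 1 1 = true :=
  ⟨(l 3), by decide +kernel⟩

theorem c_pp_203_a : CertB 0 536870912 1610612736 536870912 740881858 40050571 3 eng mog cd1q2a cd2q3 pd0 false true true .up 2 0 3
    ndB1q2a ndB2q3 pcB0 Cut.none Ext.none :=
  certB1 (fam := false) (s1 := true) (s2 := true) (a := 2) (b := 0) (c := 3) (cn := .up) (n1 := ndB1q2a) (n2 := ndB2q3) (pc := pcB0) (cut := Cut.none) (xt := Ext.none) (P1 := 0) (W1 := 536870912) (P2 := 1610612736) (W2 := 536870912) (P3 := 740881858) (W3 := 40050571) (N0 := 3) (En := eng) (mo := mog) (C1 := cd1q2a) (C2 := cd2q3) (C3 := pd0)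
    rfl (fun _ => rfl) k0_pp_203_a

noncomputable def f_pp_203_b : ℕ → ℕ → ℕ → ℕ → Bool := onCell 1239849684 370763052 1610612736 536870912 740881858 40050571
    (rowB 3 eng mog cd1q2b cd2q3 pd0 0 false true true .up 2 0 3 (qsf 1239849684 370763052 1610612736 536870912 0) ndB1q2b ndB2q3 pcB0 Cut.none Ext.none)

def k0_pp_203_b : ∃ t, chk3 f_pp_203_b t 1 1 1 = true :=
  ⟨(l 3), by decide +kernel⟩

theorem c_pp_203_b : CertB 1239849684 370763052 1610612736 536870912 740881858 40050571 3 eng mog cd1q2b cd2q3 pd0 false true true .up 2 0 3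
    ndB1q2b ndB2q3 pcB0 Cut.none Ext.none :=
  certB0 (fam := false) (s1 := true) (s2 := true) (a := 2) (b := 0) (c := 3) (cn := .up) (n1 := ndB1q2b) (n2 := ndB2q3) (pc := pcB0) (cut := Cut.none) (xt := Ext.none) (P1 := 1239849684) (W1 := 370763052) (P2 := 1610612736) (W2 := 536870912) (P3 := 740881858) (W3 := 40050571) (N0 := 3) (En := eng) (mo := mog) (C1 := cd1q2b) (C2 := cd2q3) (C3 := pd0)
    rfl k0_pp_203_b

noncomputable def cut_pp_213_a : Cut := Cut.of [[⟨0, 1, 0, 67108864⟩, ⟨1, 1, 0, 67108864⟩, ⟨2, 2, 0, 16777216⟩]]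

noncomputable def f_pp_213_a : ℕ → ℕ → ℕ → ℕ → Bool := onCell 0 536870912 1610612736 536870912 740881858 40050571
    (rowB 3 eng mog cd1q2a cd2q3 pd1 0 false true true .pnn 2 1 3 (qsf 0 536870912 1610612736 536870912 1) ndB1q2a ndB2q3 pcB1 cut_pp_213_a Ext.none)

def k0_pp_213_a : ∃ t, chk3 f_pp_213_a t 1 1 1 = true :=
  ⟨(b (l 3) (b (l 3) (a (l 3) (a (l 3) (b (l 3) (a (l 3) (b (l 3) (b (l 3) (b (l 3) (l 6)))))))))), by decide +kernel⟩

theorem c_pp_213_a : CertB 0 536870912 1610612736 536870912 740881858 40050571 3 eng mog cd1q2a cd2q3 pd1 false true true .pnn 2 1 3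
    ndB1q2a ndB2q3 pcB1 cut_pp_213_a Ext.none :=
  certB0 (fam := false) (s1 := true) (s2 := true) (a := 2) (b := 1) (c := 3) (cn := .pnn) (n1 := ndB1q2a) (n2 := ndB2q3) (pc := pcB1) (cut := cut_pp_213_a) (xt := Ext.none) (P1 := 0) (W1 := 536870912) (P2 := 1610612736) (W2 := 536870912) (P3 := 740881858) (W3 := 40050571) (N0 := 3) (En := eng) (mo := mog) (C1 := cd1q2a) (C2 := cd2q3) (C3 := pd1)
    rfl k0_pp_213_a

noncomputable def cut_pp_213_b : Cut := Cut.of [[⟨0, 1, 0, 67108864⟩, ⟨1, 1, 0, 67108864⟩, ⟨2, 2, 0, 16777216⟩]]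

noncomputable def f_pp_213_b : ℕ → ℕ → ℕ → ℕ → Bool := onCell 1239849684 370763052 1610612736 536870912 740881858 40050571
    (rowB 3 eng mog cd1q2b cd2q3 pd1 0 false true true .pnn 2 1 3 (qsf 1239849684 370763052 1610612736 536870912 1) ndB1q2b ndB2q3 pcB1 cut_pp_213_b Ext.none)

def k0_pp_213_b : ∃ t, chk3 f_pp_213_b t 1 1 1 = true :=
  ⟨(l 3), by decide +kernel⟩

theorem c_pp_213_b : CertB 1239849684 370763052 1610612736 536870912 740881858 40050571 3 eng mog cd1q2b cd2q3 pd1 false true true .pnn 2 1 3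
    ndB1q2b ndB2q3 pcB1 cut_pp_213_b Ext.none :=
  certB0 (fam := false) (s1 := true) (s2 := true) (a := 2) (b := 1) (c := 3) (cn := .pnn) (n1 := ndB1q2b) (n2 := ndB2q3) (pc := pcB1) (cut := cut_pp_213_b) (xt := Ext.none) (P1 := 1239849684) (W1 := 370763052) (P2 := 1610612736) (W2 := 536870912) (P3 := 740881858) (W3 := 40050571) (N0 := 3) (En := eng) (mo := mog) (C1 := cd1q2b) (C2 := cd2q3) (C3 := pd1)
    rfl k0_pp_213_b

noncomputable def f_pp_303 : ℕ → ℕ → ℕ → ℕ → Bool := onCell 1610612736 536870912 1610612736 536870912 740881858 40050571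
    (rowB 3 eng mog cd1q3 cd2q3 pd0 0 false true true .npn 3 0 3 (qsf 1610612736 536870912 1610612736 536870912 0) ndB1q3 ndB2q3 pcB0 Cut.none Ext.none)

def k0_pp_303 : ∃ t, chk3 f_pp_303 t 1 1 1 = true :=
  ⟨(l 3), by decide +kernel⟩

theorem c_pp_303 : CertB 1610612736 536870912 1610612736 536870912 740881858 40050571 3 eng mog cd1q3 cd2q3 pd0 false true true .npn 3 0 3
    ndB1q3 ndB2q3 pcB0 Cut.none Ext.none :=
  certB0 (fam := false) (s1 := true) (s2 := true) (a := 3) (b := 0) (c := 3) (cn := .npn) (n1 := ndB1q3) (n2 := ndB2q3) (pc := pcB0) (cut := Cut.none) (xt := Ext.none) (P1 := 1610612736) (W1 := 536870912) (P2 := 1610612736) (W2 := 536870912) (P3 := 740881858) (W3 := 40050571) (N0 := 3) (En := eng) (mo := mog) (C1 := cd1q3) (C2 := cd2q3) (C3 := pd0)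
    rfl k0_pp_303

noncomputable def f_pp_313 : ℕ → ℕ → ℕ → ℕ → Bool := onCell 1610612736 536870912 1610612736 536870912 740881858 40050571
    (rowB 3 eng mog cd1q3 cd2q3 pd1 0 false true true .dn 3 1 3 (qsf 1610612736 536870912 1610612736 536870912 1) ndB1q3 ndB2q3 pcB1 Cut.none Ext.none)

def k0_pp_313 : ∃ t, chk3 f_pp_313 t 1 1 1 = true :=
  ⟨(l 3), by decide +kernel⟩

theorem c_pp_313 : CertB 1610612736 536870912 1610612736 536870912 740881858 40050571 3 eng mog cd1q3 cd2q3 pd1 false true true .dn 3 1 3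
    ndB1q3 ndB2q3 pcB1 Cut.none Ext.none :=
  certB0 (fam := false) (s1 := true) (s2 := true) (a := 3) (b := 1) (c := 3) (cn := .dn) (n1 := ndB1q3) (n2 := ndB2q3) (pc := pcB1) (cut := Cut.none) (xt := Ext.none) (P1 := 1610612736) (W1 := 536870912) (P2 := 1610612736) (W2 := 536870912) (P3 := 740881858) (W3 := 40050571) (N0 := 3) (En := eng) (mo := mog) (C1 := cd1q3) (C2 := cd2q3) (C3 := pd1)
    rfl k0_pp_313

noncomputable def f_pm_001 : ℕ → ℕ → ℕ → ℕ → Bool := onCell 0 536870912 536870912 536870912 740881858 40050571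
    (rowB 3 eng mog cd1q0 cd2q1 pd0 0 false true false .up 0 0 1 (qsf 0 536870912 536870912 536870912 0) ndB1q0 ndB2q1 pcB0 Cut.none Ext.none)

def k0_pm_001 : ∃ t, chk3 f_pm_001 t 1 1 1 = true :=
  ⟨(l 4), by decide +kernel⟩

theorem c_pm_001 : CertB 0 536870912 536870912 536870912 740881858 40050571 3 eng mog cd1q0 cd2q1 pd0 false true false .up 0 0 1
    ndB1q0 ndB2q1 pcB0 Cut.none Ext.none :=
  certB0 (fam := false) (s1 := true) (s2 := false) (a := 0) (b := 0) (c := 1) (cn := .up) (n1 := ndB1q0) (n2 := ndB2q1) (pc := pcB0) (cut := Cut.none) (xt := Ext.none) (P1 := 0) (W1 := 536870912) (P2 := 536870912) (W2 := 536870912) (P3 := 740881858) (W3 := 40050571) (N0 := 3) (En := eng) (mo := mog) (C1 := cd1q0) (C2 := cd2q1) (C3 := pd0)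
    rfl k0_pm_001

noncomputable def f_pm_011 : ℕ → ℕ → ℕ → ℕ → Bool := onCell 0 536870912 536870912 536870912 740881858 40050571
    (rowB 3 eng mog cd1q0 cd2q1 pd1 0 false true false .pnn 0 1 1 (qsf 0 536870912 536870912 536870912 1) ndB1q0 ndB2q1 pcB1 Cut.none Ext.none)

def k0_pm_011 : ∃ t, chk3 f_pm_011 t 1 1 1 = true :=
  ⟨(l 4), by decide +kernel⟩

theorem c_pm_011 : CertB 0 536870912 536870912 536870912 740881858 40050571 3 eng mog cd1q0 cd2q1 pd1 false true false .pnn 0 1 1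
    ndB1q0 ndB2q1 pcB1 Cut.none Ext.none :=
  certB0 (fam := false) (s1 := true) (s2 := false) (a := 0) (b := 1) (c := 1) (cn := .pnn) (n1 := ndB1q0) (n2 := ndB2q1) (pc := pcB1) (cut := Cut.none) (xt := Ext.none) (P1 := 0) (W1 := 536870912) (P2 := 536870912) (W2 := 536870912) (P3 := 740881858) (W3 := 40050571) (N0 := 3) (En := eng) (mo := mog) (C1 := cd1q0) (C2 := cd2q1) (C3 := pd1)
    rfl k0_pm_011

noncomputable def cut_pm_012_a : Cut := Cut.of [[⟨0, 0, 0, 67108864⟩, ⟨1, 1, 0, 67108864⟩, ⟨2, 1, 0, 67108864⟩]]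

noncomputable def f_pm_012_a : ℕ → ℕ → ℕ → ℕ → Bool := onCell 536870912 536870912 0 536870912 740881858 40050571
    (rowB 3 eng mog cd1q0 cd2q2a pd1 2 false true false .pnp 0 1 2 (qsf 0 536870912 0 536870912 1) ndB1q0 ndB2q2a pcB1 cut_pm_012_a Ext.none)

def k0_pm_012_a : ∃ t, chk3 f_pm_012_a t 2 1 1 = true :=
  ⟨(b (b (a (l 2) (b (l 16455040) (l 16391368))) (a (a (l 2) (l 16407472)) (a (l 16379704) (l 16352848)))) (b (a (a (l 2) (l 16359688)) (a (b (l 16357768) (l 16350160)) (b (l 16345712) (l 16355176)))) (a (b (a (l 16305952) (l 16329912)) (a (l 16292104) (l 16339800))) (b (a (l 16396736) (l 16492864)) (a (l 16388528) (l 16523216)))))), by decide +kernel⟩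

def k1_pm_012_a : ∃ t, chk3 f_pm_012_a t 3 1 1 = true :=
  ⟨(b (b (a (b (a (l 16360360) (l 16324880)) (a (l 16340184) (l 16306072))) (a (b (l 16289112) (l 16271856)) (b (a (l 16263048) (l 16247032)) (a (l 16247064) (l 16232024))))) (a (a (l 16326720) (b (l 16298104) (l 16303592))) (a (a (l 16303336) (b (l 16261400) (l 16277928))) (a (b (l 16247912) (l 16269224)) (b (a (l 16238712) (l 16232728)) (a (l 16263760) (l 16260112))))))) (a (b (a (b (l 16335264) (l 16362424)) (b (l 16326432) (l 16476880))) (b (a (b (l 16396488) (l 16428792)) (b (l 16423976) (l 16488272))) (a (a (l 16478880) (l 16527240)) (a (b (l 16505856) (l 16562184)) (b (b (l 16516960) (l 16546824)) (l 16595232)))))) (b (a (b (a (l 16320824) (l 16317720)) (a (l 16380784) (l 16429488))) (a (b (b (l 16300696) (l 16331704)) (b (l 16371200) (l 16419752))) (b (a (l 16315896) (b (l 16297104) (l 16331608))) (a (b (l 16374584) (l 16425768)) (b (l 16375104) (l 16429096)))))) (b (a (b (a (l 16446544) (l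 16462504)) (a (l 16498232) (l 16539536))) (a (b (a (l 16473888) (l 16480496)) (a (l 16531904) (l 16540904))) (b (a (l 16486944) (b (l 16476936) (l 16509912))) (a (b (l 16533312) (l 16566536)) (a (l 16556688) (b (l 16543800) (l 6))))))) (a (a (b (b (l 16542480) (l 16595992)) (l 16706040)) (b (b (l 16565408) (a (l 16593800) (l 16604912))) (b (l 16657512) (l 16717856)))) (b (a (a (l 16598696) (b (l 16591576) (l 16629168))) (a (b (l 16602560) (l 6)) (l 6))) (a (a (b (l 16698016) (l 16698400)) (b (b (l 16659272) (l 6)) (l 6))) (l 6)))))))), by decide +kernel⟩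

theorem s2_pm_012_a : ∃ t, chk3 f_pm_012_a t 1 1 1 = true := ex3_a k0_pm_012_a k1_pm_012_a

theorem c_pm_012_a : CertB 0 536870912 0 536870912 740881858 40050571 3 eng mog cd1q0 cd2q2a pd1 false true false .pnp 0 1 2
    ndB1q0 ndB2q2a pcB1 cut_pm_012_a Ext.none :=
  certB2 (fam := false) (s1 := true) (s2 := false) (a := 0) (b := 1) (c := 2) (cn := .pnp) (n1 := ndB1q0) (n2 := ndB2q2a) (pc := pcB1) (cut := cut_pm_012_a) (xt := Ext.none) (P1 := 0) (W1 := 536870912) (P2 := 0) (W2 := 536870912) (P3 := 740881858) (W3 := 40050571) (N0 := 3) (En := eng) (mo := mog) (C1 := cd1q0) (C2 := cd2q2a) (C3 := pd1)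
    rfl (fun _ => rfl) s2_pm_012_a

noncomputable def cut_pm_012_b : Cut := Cut.of [[⟨0, 0, 0, 67108864⟩, ⟨1, 1, 0, 67108864⟩, ⟨2, 1, 0, 67108864⟩]]

noncomputable def f_pm_012_b : ℕ → ℕ → ℕ → ℕ → Bool := onCell 536870912 536870912 1239849684 370763052 740881858 40050571
    (rowB 3 eng mog cd1q0 cd2q2b pd1 2 false true false .pnp 0 1 2 (qsf 0 536870912 1239849684 370763052 1) ndB1q0 ndB2q2b pcB1 cut_pm_012_b Ext.none)

def k0_pm_012_b : ∃ t, chk3 f_pm_012_b t 1 1 1 = true :=
  ⟨(a (a (l 2) (b (b (b (b (b (a (l 16439608) (l 16402752)) (l 16415080)) (l 16407296)) (l 16523800)) (a (l 2) (l 16362768))) (l 2))) (b (b (a (b (b (b (a (l 16365280) (l 16327064)) (a (l 16351392) (l 16307472))) (a (l 16332808) (l 16280616))) (a (l 16303512) (l 16235840))) (b (b (a (b (c (l 16300584) (l 16275600)) (l 16262280)) (b (c (a (l 16272168) (l 16254408)) (a (l 16246784) (l 16228856))) (a (l 16228440) (l 16206896)))) (a (l 16226176) (a (l 16184648) (l 16157680)))) (a (l 16184840)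 (a (l 16107688) (l 16070296))))) (a (a (l 16339392) (b (l 16194232) (l 16173552))) (a (b (l 16163880) (l 16061512)) (b (a (l 16026832) (b (l 15997248) (l 15956952))) (a (l 15971240) (l 15909152)))))) (a (b (a (l 2) (l 16181712)) (l 2)) (b (a (l 16214360) (b (l 15946960) (l 15894656))) (a (l 16102624) (l 15988936)))))), by decide +kernel⟩

theorem c_pm_012_b : CertB 0 536870912 1239849684 370763052 740881858 40050571 3 eng mog cd1q0 cd2q2b pd1 false true false .pnp 0 1 2
    ndB1q0 ndB2q2b pcB1 cut_pm_012_b Ext.none :=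
  certB2 (fam := false) (s1 := true) (s2 := false) (a := 0) (b := 1) (c := 2) (cn := .pnp) (n1 := ndB1q0) (n2 := ndB2q2b) (pc := pcB1) (cut := cut_pm_012_b) (xt := Ext.none) (P1 := 0) (W1 := 536870912) (P2 := 1239849684) (W2 := 370763052) (P3 := 740881858) (W3 := 40050571) (N0 := 3) (En := eng) (mo := mog) (C1 := cd1q0) (C2 := cd2q2b) (C3 := pd1)
    rfl (fun _ => rfl) k0_pm_012_b

noncomputable def cut_pm_022_a : Cut := Cut.of [[⟨0, 0, 0, 67108864⟩, ⟨1, 1, 0, 67108864⟩, ⟨2, 1, 0, 67108864⟩]]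

noncomputable def f_pm_022_a : ℕ → ℕ → ℕ → ℕ → Bool := onCell 1073741824 536870912 0 536870912 740881858 40050571
    (rowB 3 eng mog cd1q0 cd2q2a pd2 2 false true false .pp 0 2 2 (qsf 0 536870912 0 536870912 2) ndB1q0 ndB2q2a pcB2 cut_pm_022_a Ext.none)

def k0_pm_022_a : ∃ t, chk3 f_pm_022_a t 2 2 1 = true :=
  ⟨(a (b (a (b (a (a (l 16235928) (l 16264104)) (a (l 16289664) (l 16313528))) (a (a (l 16225744) (l 16256880)) (a (l 16285280) (l 16312216)))) (b (a (a (l 16336456) (l 16358312)) (a (l 16378984) (l 16461224))) (a (a (l 16338064) (l 16362680)) (a (l 16385944) (l 16428656))))) (a (a (a (b (a (l 16226320) (l 16243936)) (b (l 16255816) (l 16277856))) (b (l 16289648) (a (l 16294040) (l 16311624)))) (b (a (l 16299936) (l 16329984)) (a (b (l 16324680) (l 16349880)) (b (l 16357064) (l 16383800))))) (b (a (a (l 16358752) (l 16407064)) (a (l 16474776) (a (l 16430072) (l 16462608)))) (a (a (b (l 16387984) (l 16416128)) (b (l 16417312) (l 16446720))) (a (c (l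 16524752) (l 16521696)) (b (c (l 16470608) (l 16470608)) (a (l 16495560) (l 16508304)))))))) (a (b (a (b (a (b (l 16415320) (l 16416888)) (c (b (l 16427232) (l 16430544)) (b (l 16437160) (l 16439064)))) (a (c (l 16426232) (l 16430184)) (a (l 16442328) (l 114923410919)))) (b (l 1) (l 1))) (a (a (a (b (l 16452792) (b (l 16488464) (l 16520552))) (b (l 16463600) (b (l 16499912) (l 1)))) (b (a (a (l 16471456) (l 16497552)) (l 1)) (l 1))) (l 1))) (l 1))), by decide +kernel⟩

def k1_pm_022_a : ∃ t, chk3 f_pm_022_a t 2 3 1 = true :=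
  ⟨(a (b (a (a (b (a (b (l 16307000) (a (l 16334168) (l 16354648))) (b (l 16345448) (l 16384664))) (a (b (a (l 16380544) (l 16401928)) (a (l 16437560) (l 16459816))) (b (a (l 16422896) (l 16443440)) (a (l 16481608) (l 16502920))))) (b (b (a (l 16382456) (l 16417872)) (a (l 16423280) (l 16481120))) (a (a (b (l 16463520) (l 16523736)) (b (l 16483136) (l 16585976))) (b (a (l 16502264) (l 16520880)) (a (b (l 16547032) (l 16580592)) (l 16556768)))))) (b (a (a (b (l 16451560) (l 16558040)) (b (l 16525296) (a (l 16520016) (l 16535912)))) (a (b (a (l 16505856) (l 16520160)) (a (l 16551224) (l 499859825655))) (b (a (l 16533880) (l 475163717863)) (l 1)))) (a (a (b (a (l 16580904) (l 16556488)) (a (b (l 16584568) (l 16616488)) (b (l 16602440) (c (l 313028859687) (l 311418245607))))) (b (a (l 16573424) (b (l 16575096) (l 573411204503))) (b (a (l 562673806567) (l 1)) (l 1)))) (a (b (a (l 601865295207) (l 1)) (l 1)) (l 1))))) (a (b (a (b (b (a (a (l 16487776) (l 16510656))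 (a (l 16533040) (l 16554896))) (a (a (l 16522232) (l 16545504)) (c (l 16624848) (l 16617720)))) (l 6)) (b (a (a (b (l 16576224) (l 16612088)) (b (l 16596984) (l 16633128))) (b (a (l 16617152) (l 16585616)) (a (b (l 16639304) (l 6)) (c (l 721587751831) (l 734472671527))))) (a (l 6) (a (l 6) (a (l 6) (l 1)))))) (a (l 6) (a (l 6) (l 1)))) (b (a (b (a (a (b (a (l 283500998375) (l 674343125079)) (l 686154292775)) (b (l 767221751191) (l 1))) (l 1)) (l 1)) (l 1)) (l 1)))) (b (l 1) (l 1))), by decide +kernel⟩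

def k2_pm_022_a : ∃ t, chk3 f_pm_022_a t 3 1 1 = true :=
  ⟨(l 1), by decide +kernel⟩

theorem s3_pm_022_a : ∃ t, chk3 f_pm_022_a t 2 1 1 = true := ex3_b k0_pm_022_a k1_pm_022_a

theorem s4_pm_022_a : ∃ t, chk3 f_pm_022_a t 1 1 1 = true := ex3_a s3_pm_022_a k2_pm_022_a

theorem c_pm_022_a : CertB 0 536870912 0 536870912 740881858 40050571 3 eng mog cd1q0 cd2q2a pd2 false true false .pp 0 2 2
    ndB1q0 ndB2q2a pcB2 cut_pm_022_a Ext.none :=
  certB2 (fam := false) (s1 := true) (s2 := false) (a := 0) (b := 2) (c := 2) (cn := .pp) (n1 := ndB1q0) (n2 := ndB2q2a) (pc := pcB2) (cut := cut_pm_022_a) (xt := Ext.none) (P1 := 0) (W1 := 536870912) (P2 := 0) (W2 := 536870912) (P3 := 740881858) (W3 := 40050571) (N0 := 3) (En := eng) (mo := mog) (C1 := cd1q0) (C2 := cd2q2a) (C3 := pd2)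
    rfl (fun _ => rfl) s4_pm_022_a

end Pool.Agent.Strip051.G.I69_7273.Tab.C.BB12

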