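import Pool.Agent.Strip051.G.I69_7273.Tab

/-! # Certificates B20 (generated) -/

set_option linter.all false
set_option maxRecDepth 100000

namespace Pool.Agent.Strip051.G.I69_7273.Tab.C.BB12

open Pool.Agent.Strip051.PB Pool.Agent.Strip051.PB.T
open Pool.Agent.Strip051.G.I69_7273.Tab

noncomputable def cut_pm_022_b : Cut := Cut.of [[⟨0, 0, 0, 67108864⟩, ⟨1, 1, 0, 67108864⟩, ⟨2, 1, 0, 67108864⟩]]

noncomputable def f_pm_022_b : ℕ → ℕ → ℕ → ℕ → Bool := onCell 1073741824 536870912 1239849684 370763052 740881858 40050571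
    (rowB 3 eng mog cd1q0 cd2q2b pd2 2 false true false .pp 0 2 2 (qsf 0 536870912 1239849684 370763052 2) ndB1q0 ndB2q2b pcB2 cut_pm_022_b Ext.none)

def k0_pm_022_b : ∃ t, chk3 f_pm_022_b t 2 2 1 = true :=
  ⟨(a (b (c (b (a (b (c (a (l 16241368) (l 16282592)) (a (l 16228592) (l 16275112))) (a (l 16164496) (l 16208344))) (b (c (a (l 16319144) (b (l 16370304) (l 16334384))) (a (l 16316080) (l 16415808))) (a (l 16247880) (l 16282880)))) (a (a (l 16071384) (l 16112496)) (a (l 16151776) (l 16187392)))) (b (a (b (c (a (l 16215568) (l 16267728)) (a (l 16202312) (l 16260448))) (a (l 16137408) (l 16192944))) (b (c (a (l 16313424) (l 16396192)) (a (l 16311176) (l 16398224))) (a (l 16242368) (l 16285520)))) (a (a (l 16041528) (l 16094776)) (a (l 16144608) (l 16189000))))) (a (b (a (c (l 15970720) (l 15934712)) (c (l 16006424) (l 15983288))) (a (l 15874232) (l 15909608))) (b (a (c (l 16042192) (l 16030296)) (c (l 16076592) (l 16074344))) (a (l 15945840) (l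 15981512))))) (b (a (c (b (b (b (a (a (l 16415056) (c (l 16427568) (l 16411064))) (b (l 581463846647) (l 213707230439))) (a (a (l 16358376) (l 16373288)) (a (l 16394568) (l 16416904)))) (a (a (l 16306896) (l 16322120)) (a (l 16343912) (l 16366992)))) (a (a (l 16211616) (l 16227160)) (b (l 16292312) (l 16232912)))) (b (b (b (a (c (l 16408144) (l 16413664)) (b (l 600254307511) (l 238940094935))) (a (l 16375352) (l 218002128951))) (a (l 16365976) (l 16369632))) (a (l 16354000) (l 16317192)))) (b (b (l 1) (a (a (l 604549132775) (l 1)) (l 1))) (a (b (c (l 92374190775) (l 246456092487)) (l 16366720)) (b (l 766684219159) (c (l 219075496119) (l 201358672487)))))) (a (a (b (c (a (l 16100784) (l 16116416)) (l 16156224)) (c (l 16018680) (l 16014872))) (b (c (l 16152216) (l 16162648)) (l 16062128))) (b (a (c (a (l 16186704) (l 16206064)) (l 16210592)) (b (l 152503397127) (l 16211472))) (a (l 16131120) (l 16146096)))))), by decide +kernel⟩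

def k1_pm_022_b : ∃ t, chk3 f_pm_022_b t 2 3 1 = true :=
  ⟨(a (a (b (a (b (l 15822224) (l 15795912)) (b (l 15849528) (l 15813808))) (b (l 15797744) (l 15814784))) (b (a (b (l 15879296) (l 15835792)) (b (l 15910048) (l 15860336))) (a (l 15813536) (l 15826472)))) (a (b (a (b (l 15941016) (l 15886616)) (l 16123576)) (a (l 15843440) (l 15881048))) (b (a (l 16109424) (b (l 16072464) (l 16016672))) (a (l 15927712) (l 15966984))))), by decide +kernel⟩

def k2_pm_022_b : ∃ t, chk3 f_pm_022_b t 3 1 1 = true :=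
  ⟨(b (a (b (l 1) (a (b (a (b (l 467646611047) (l 322691529847)) (l 784400672439)) (a (l 16164192) (l 404296367079))) (b (l 1) (a (l 583073840023) (l 1))))) (l 1)) (a (a (b (a (l 16086992) (b (l 16097376) (l 16046560))) (a (l 15993008) (l 16002480))) (b (b (a (l 16061520) (l 605622472471)) (a (l 16035456) (l 15999312))) (l 16175920))) (a (a (b (l 591126772743) (l 15934416)) (b (l 652866804967) (l 16026088))) (b (l 1) (a (l 4) (l 4)))))), by decide +kernel⟩

theorem s3_pm_022_b : ∃ t, chk3 f_pm_022_b t 2 1 1 = true := ex3_b k0_pm_022_b k1_pm_022_b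

theorem s4_pm_022_b : ∃ t, chk3 f_pm_022_b t 1 1 1 = true := ex3_a s3_pm_022_b k2_pm_022_b

theorem c_pm_022_b : CertB 0 536870912 1239849684 370763052 740881858 40050571 3 eng mog cd1q0 cd2q2b pd2 false true false .pp 0 2 2
    ndB1q0 ndB2q2b pcB2 cut_pm_022_b Ext.none :=
  certB2 (fam := false) (s1 := true) (s2 := false) (a := 0) (b := 2) (c := 2) (cn := .pp) (n1 := ndB1q0) (n2 := ndB2q2b) (pc := pcB2) (cut := cut_pm_022_b) (xt := Ext.none) (P1 := 0) (W1 := 536870912) (P2 := 1239849684) (W2 := 370763052) (P3 := 740881858) (W3 := 40050571) (N0 := 3) (En := eng) (mo := mog) (C1 := cd1q0) (C2 := cd2q2b) (C3 := pd2)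
    rfl (fun _ => rfl) s4_pm_022_b

noncomputable def f_pm_023 : ℕ → ℕ → ℕ → ℕ → Bool := onCell 0 536870912 1073741824 536870912 740881858 40050571
    (rowB 3 eng mog cd1q0 cd2q3 pd2 1 false true false .up 0 2 3 (qsf 0 536870912 1610612736 536870912 2) ndB1q0 ndB2q3 pcB2 Cut.none Ext.none)

def k0_pm_023 : ∃ t, chk3 f_pm_023 t 1 1 1 = true :=
  ⟨(b (b (a (l 1) (a (b (l 1) (a (l 1) (l 15828304))) (b (a (l 274372792887) (l 15822144)) (a (l 15827200) (l 15859416))))) (a (b (l 1) (a (l 1) (l 328597483671))) (b (a (b (l 172367773527) (l 15883064)) (b (l 15871088) (l 15917944))) (a (l 160019927767) (l 16012088))))) (b (a (a (b (l 1) (l 329134397335)) (b (l 197063639607) (l 15983336))) (a (b (l 16016280) (l 16057952)) (b (l 16123496) (l 16209392)))) (a (b (a (l 421475923783) (l 15929552)) (a (l 4) (l 15875608))) (a (b (l 16070840) (l 16145488)) (b (l 16336432) (l 16394000)))))), by decide +kernel⟩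

theorem c_pm_023 : CertB 0 536870912 1610612736 536870912 740881858 40050571 3 eng mog cd1q0 cd2q3 pd2 false true false .up 0 2 3
    ndB1q0 ndB2q3 pcB2 Cut.none Ext.none :=
  certB1 (fam := false) (s1 := true) (s2 := false) (a := 0) (b := 2) (c := 3) (cn := .up) (n1 := ndB1q0) (n2 := ndB2q3) (pc := pcB2) (cut := Cut.none) (xt := Ext.none) (P1 := 0) (W1 := 536870912) (P2 := 1610612736) (W2 := 536870912) (P3 := 740881858) (W3 := 40050571) (N0 := 3) (En := eng) (mo := mog) (C1 := cd1q0) (C2 := cd2q3) (C3 := pd2)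
    rfl (fun _ => rfl) k0_pm_023

noncomputable def f_pm_033 : ℕ → ℕ → ℕ → ℕ → Bool := onCell 1610612736 536870912 1610612736 536870912 740881858 40050571
    (rowB 3 eng mog cd1q0 cd2q3 pd3 2 false true false .pnn 0 3 3 (qsf 0 536870912 1610612736 536870912 3) ndB1q0 ndB2q3 pcB3 Cut.none Ext.none)

def k0_pm_033 : ∃ t, chk3 f_pm_033 t 1 1 1 = true :=
  ⟨(a (b (a (a (l 4) (l 4)) (b (a (b (l 1) (l 4)) (l 1)) (l 4))) (a (a (b (l 16194600) (l 16461392)) (b (l 4) (l 16431296))) (l 4))) (b (a (b (l 1) (a (b (l 1) (l 4)) (l 1))) (l 1)) (a (l 4) (b (a (b (l 1) (l 4)) (l 1)) (l 4))))), by decide +kernel⟩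

theorem c_pm_033 : CertB 0 536870912 1610612736 536870912 740881858 40050571 3 eng mog cd1q0 cd2q3 pd3 false true false .pnn 0 3 3
    ndB1q0 ndB2q3 pcB3 Cut.none Ext.none :=
  certB2 (fam := false) (s1 := true) (s2 := false) (a := 0) (b := 3) (c := 3) (cn := .pnn) (n1 := ndB1q0) (n2 := ndB2q3) (pc := pcB3) (cut := Cut.none) (xt := Ext.none) (P1 := 0) (W1 := 536870912) (P2 := 1610612736) (W2 := 536870912) (P3 := 740881858) (W3 := 40050571) (N0 := 3) (En := eng) (mo := mog) (C1 := cd1q0) (C2 := cd2q3) (C3 := pd3)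
    rfl (fun _ => rfl) k0_pm_033

noncomputable def f_pm_101 : ℕ → ℕ → ℕ → ℕ → Bool := onCell 0 536870912 536870912 536870912 740881858 40050571
    (rowB 3 eng mog cd1q1 cd2q1 pd0 2 false true false .npn 1 0 1 (qsf 536870912 536870912 536870912 536870912 0) ndB1q1 ndB2q1 pcB0 Cut.none Ext.none)

def k0_pm_101 : ∃ t, chk3 f_pm_101 t 1 1 1 = true :=
  ⟨(a (b (l 4) (a (a (b (l 4) (b (l 4) (b (l 4) (a (l 15739104) (l 4))))) (l 4)) (l 4))) (l 4)), by decide +kernel⟩

theorem c_pm_101 : CertB 536870912 536870912 536870912 536870912 740881858 40050571 3 eng mog cd1q1 cd2q1 pd0 false true false .npn 1 0 1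
    ndB1q1 ndB2q1 pcB0 Cut.none Ext.none :=
  certB2 (fam := false) (s1 := true) (s2 := false) (a := 1) (b := 0) (c := 1) (cn := .npn) (n1 := ndB1q1) (n2 := ndB2q1) (pc := pcB0) (cut := Cut.none) (xt := Ext.none) (P1 := 536870912) (W1 := 536870912) (P2 := 536870912) (W2 := 536870912) (P3 := 740881858) (W3 := 40050571) (N0 := 3) (En := eng) (mo := mog) (C1 := cd1q1) (C2 := cd2q1) (C3 := pd0)
    rfl (fun _ => rfl) k0_pm_101

noncomputable def f_pm_102_a : ℕ → ℕ → ℕ → ℕ → Bool := onCell 0 536870912 0 536870912 740881858 40050571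
    (rowB 3 eng mog cd1q1 cd2q2a pd0 2 false true false .npp 1 0 2 (qsf 536870912 536870912 0 536870912 0) ndB1q1 ndB2q2a pcB0 Cut.none Ext.none)

def k0_pm_102_a : ∃ t, chk3 f_pm_102_a t 2 2 1 = true :=
  ⟨(a (a (l 2) (b (l 2) (a (l 2) (b (l 2) (a (l 2) (b (l 2) (l 16615520))))))) (a (b (a (b (l 3) (a (l 2) (b (a (l 2) (l 151028122791)) (a (l 1635409110599) (l 16573160))))) (b (a (b (l 3) (a (l 149954346215) (l 175724212423))) (b (a (l 170892352935) (l 192903963927)) (a (l 191830282535) (l 16596952)))) (a (b (a (l 189145998903) (l 16584704)) (a (l 16587248) (l 16600520))) (b (l 16603496) (l 16616720))))) (b (a (a (a (l 2) (b (l 16563336) (l 16587696))) (b (a (l 16495888) (l 16593216)) (a (l 16602016) (l 16616200)))) (b (a (l 16611352) (l 16622952)) (l 16625200))) (a (b (a (l 16609688) (l 16634976)) (a (l 16641976) (l 16635000))) (b (l 16626008) (l 16626888))))) (b (a (b (a (b (l 162839182055) (l 16612736)) (b (l 16618392) (l 16615584))) (b (a (l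 16619192) (l 16613888)) (l 16615128))) (b (b (l 16613576) (l 16611088)) (l 16608904))) (a (b (b (l 16615136) (l 16616072)) (l 16619752)) (b (b (l 16608648) (l 16610496)) (l 16611008)))))), by decide +kernel⟩

def k1_pm_102_a : ∃ t, chk3 f_pm_102_a t 2 3 1 = true :=
  ⟨(a (b (a (l 2) (b (a (l 2) (b (a (b (l 2) (l 16632496)) (l 16648176)) (l 16646800))) (a (b (l 16657024) (l 16647448)) (l 16642096)))) (a (b (a (l 2) (b (a (l 2) (l 16646000)) (l 16649408))) (b (a (b (l 16655200) (l 16653112)) (b (l 16651544) (l 16651472))) (a (l 16636104) (l 16612120)))) (b (a (b (l 16641800) (l 16647664)) (l 16639976)) (b (a (l 16623072) (l 16594176)) (a (l 16587936) (l 16559264)))))) (b (a (b (a (l 16636464) (l 16630624)) (a (l 16637496) (l 16630112))) (a (b (l 16706880) (l 16605792)) (b (l 16605600) (l 16561712)))) (a (b (a (l 16604384) (l 16553256)) (b (a (l 16564056) (l 16529728)) (a (l 16525632) (l 16487024)))) (b (a (b (l 16514968) (l 16496040)) (l 16438480))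 (a (b (l 16456648) (l 16431368)) (l 16360800)))))), by decide +kernel⟩

def k2_pm_102_a : ∃ t, chk3 f_pm_102_a t 3 1 1 = true :=
  ⟨(a (b (b (a (a (b (l 16608872) (b (l 16605584) (l 16603888))) (b (l 16606904) (l 16601888))) (b (a (l 16603208) (l 16596768)) (l 16613728))) (a (a (b (l 16604976) (l 16601528)) (l 16596304)) (a (l 16583480) (l 16561056)))) (a (b (a (b (l 16585432) (l 16519976)) (l 16534648)) (a (b (l 16382496) (b (l 16340480) (l 16289104))) (b (l 16337320) (l 16266784)))) (b (a (l 16504352) (l 16468472)) (a (b (l 16276160) (a (l 16236376) (l 16221344))) (b (l 16272712) (l 16187000)))))) (b (b (b (a (l 16582232) (l 16552536)) (a (l 16561200) (l 16526584))) (a (l 16523256) (l 16480096))) (b (a (b (l 16458720) (l 16385224)) (b (l 16416432) (l 16357720))) (b (a (l 16285832) (l 16292416)) (a (l 16196488) (a (l 16240000) (l 16260896))))))), by decide +kernel⟩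

theorem s3_pm_102_a : ∃ t, chk3 f_pm_102_a t 2 1 1 = true := ex3_b k0_pm_102_a k1_pm_102_a

theorem s4_pm_102_a : ∃ t, chk3 f_pm_102_a t 1 1 1 = true := ex3_a s3_pm_102_a k2_pm_102_a

theorem c_pm_102_a : CertB 536870912 536870912 0 536870912 740881858 40050571 3 eng mog cd1q1 cd2q2a pd0 false true false .npp 1 0 2
    ndB1q1 ndB2q2a pcB0 Cut.none Ext.none :=
  certB2 (fam := false) (s1 := true) (s2 := false) (a := 1) (b := 0) (c := 2) (cn := .npp) (n1 := ndB1q1) (n2 := ndB2q2a) (pc := pcB0) (cut := Cut.none) (xt := Ext.none) (P1 := 536870912) (W1 := 536870912) (P2 := 0) (W2 := 536870912) (P3 := 740881858) (W3 := 40050571) (N0 := 3) (En := eng) (mo := mog) (C1 := cd1q1) (C2 := cd2q2a) (C3 := pd0)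
    rfl (fun _ => rfl) s4_pm_102_a

noncomputable def f_pm_102_b : ℕ → ℕ → ℕ → ℕ → Bool := onCell 536870912 536870912 1239849684 370763052 740881858 40050571
    (rowB 3 eng mog cd1q1 cd2q2b pd0 0 false true false .npp 1 0 2 (qsf 536870912 536870912 1239849684 370763052 0) ndB1q1 ndB2q2b pcB0 Cut.none Ext.none)

def k0_pm_102_b : ∃ t, chk3 f_pm_102_b t 2 1 1 = true :=
  ⟨(a (l 2) (b (b (b (b (b (a (l 16550728) (l 16574872)) (a (l 16546216) (l 16567448))) (a (l 16539456) (l 16556800))) (a (l 2) (l 16536376))) (a (l 2) (b (l 16513832) (l 2)))) (l 2))), by decide +kernel⟩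

def k1_pm_102_b : ∃ t, chk3 f_pm_102_b t 3 2 1 = true :=
  ⟨(a (a (b (b (b (b (b (l 16596376) (l 16590848)) (l 16582576)) (l 16566520)) (l 16537032)) (b (l 16503256) (l 16477408))) (b (c (b (b (b (l 16608264) (l 16594880)) (l 16575304)) (l 16538448)) (b (b (b (l 16597232) (l 16582440)) (l 16561144)) (l 16522024))) (b (l 16486856) (l 16451120)))) (b (a (b (b (a (b (b (l 16608144) (l 16600288)) (l 16588672)) (b (c (l 16606952) (l 16606224)) (l 16590104))) (a (l 16566128) (l 16566136))) (a (l 16523832) (a (l 16689592) (l 16521368)))) (b (a (c (b (a (b (l 16610832) (l 16594696)) (b (b (a (l 16602936) (l 161228637911)) (l 16593600)) (l 16586080))) (a (l 16570816) (a (l 16573608) (l 16566664)))) (b (a (b (b (l 16615144) (l 16608496)) (l 16595104)) (b (b (a (l 16600808) (l 173576664359)) (l 16592688)) (l 16587344))) (a (l 16568832) (l 201494089495)))) (l 3)) (b (a (a (l 16537736) (a (l 16540424) (l 16542880))) (a (l 163913041319) (l 3))) (a (a (l 16507272)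 (a (l 16508856) (l 16510792))) (a (a (l 146733071431) (l 3)) (l 3)))))) (a (a (b (l 16473568) (l 16430752)) (b (a (b (l 16481240) (l 16456360)) (l 16466544)) (a (l 16422312) (l 16418344)))) (a (b (a (b (l 16478752) (l 16452448)) (b (l 16500768) (b (l 16458928) (l 16445856)))) (b (a (l 16427688) (l 16426856)) (l 16403216))) (a (a (b (b (l 147269907575) (l 147806686743)) (b (l 16427280) (l 16402608))) (b (l 3) (b (l 16427096) (l 16444640)))) (l 3)))))), by decide +kernel⟩

def k2_pm_102_b : ∃ t, chk3 f_pm_102_b t 3 3 1 = true :=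
  ⟨(a (a (l 2) (b (l 16476544) (l 2))) (b (a (a (l 16381672) (b (a (l 16383560) (l 16376736)) (l 16410904))) (a (b (a (l 16371496) (l 16368208)) (a (l 16334584) (l 16327928))) (b (a (b (l 16378880) (l 16355784)) (l 3)) (a (l 16323720) (l 163912532279))))) (a (a (l 2) (b (l 16324920) (l 2))) (a (b (a (l 16306704) (l 16296488)) (l 16281960)) (b (a (l 16477040) (l 171965821527)) (a (l 16263096) (l 167133976727))))))), by decide +kernel⟩

theorem s3_pm_102_b : ∃ t, chk3 f_pm_102_b t 3 1 1 = true := ex3_b k1_pm_102_b k2_pm_102_b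

theorem s4_pm_102_b : ∃ t, chk3 f_pm_102_b t 1 1 1 = true := ex3_a k0_pm_102_b s3_pm_102_b

theorem c_pm_102_b : CertB 536870912 536870912 1239849684 370763052 740881858 40050571 3 eng mog cd1q1 cd2q2b pd0 false true false .npp 1 0 2
    ndB1q1 ndB2q2b pcB0 Cut.none Ext.none :=
  certB0 (fam := false) (s1 := true) (s2 := false) (a := 1) (b := 0) (c := 2) (cn := .npp) (n1 := ndB1q1) (n2 := ndB2q2b) (pc := pcB0) (cut := Cut.none) (xt := Ext.none) (P1 := 536870912) (W1 := 536870912) (P2 := 1239849684) (W2 := 370763052) (P3 := 740881858) (W3 := 40050571) (N0 := 3) (En := eng) (mo := mog) (C1 := cd1q1) (C2 := cd2q2b) (C3 := pd0)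
    rfl s4_pm_102_b

noncomputable def f_pm_112_a : ℕ → ℕ → ℕ → ℕ → Bool := onCell 536870912 536870912 0 536870912 740881858 40050571
    (rowB 3 eng mog cd1q1 cd2q2a pd1 0 false true false .dn 1 1 2 (qsf 536870912 536870912 0 536870912 1) ndB1q1 ndB2q2a pcB1 Cut.none Ext.none)

def k0_pm_112_a : ∃ t, chk3 f_pm_112_a t 1 1 1 = true :=
  ⟨(a (b (b (a (b (l 16432520) (l 16413304)) (b (l 99354442359) (l 16434792))) (a (a (l 16373736) (l 16397224)) (l 91838237239))) (b (a (a (l 16338912) (l 16345176)) (l 1)) (a (b (a (l 16291120) (l 16273656)) (a (l 16258536) (l 1))) (l 1)))) (l 1)), by decide +kernel⟩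

theorem c_pm_112_a : CertB 536870912 536870912 0 536870912 740881858 40050571 3 eng mog cd1q1 cd2q2a pd1 false true false .dn 1 1 2
    ndB1q1 ndB2q2a pcB1 Cut.none Ext.none :=
  certB0 (fam := false) (s1 := true) (s2 := false) (a := 1) (b := 1) (c := 2) (cn := .dn) (n1 := ndB1q1) (n2 := ndB2q2a) (pc := pcB1) (cut := Cut.none) (xt := Ext.none) (P1 := 536870912) (W1 := 536870912) (P2 := 0) (W2 := 536870912) (P3 := 740881858) (W3 := 40050571) (N0 := 3) (En := eng) (mo := mog) (C1 := cd1q1) (C2 := cd2q2a) (C3 := pd1)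
    rfl k0_pm_112_a

noncomputable def f_pm_112_b : ℕ → ℕ → ℕ → ℕ → Bool := onCell 536870912 536870912 1239849684 370763052 740881858 40050571
    (rowB 3 eng mog cd1q1 cd2q2b pd1 2 false true false .dn 1 1 2 (qsf 536870912 536870912 1239849684 370763052 1) ndB1q1 ndB2q2b pcB1 Cut.none Ext.none)

def k0_pm_112_b : ∃ t, chk3 f_pm_112_b t 1 1 1 = true :=
  ⟨(a (a (b (b (b (b (b (a (l 16459808) (l 16440936)) (l 16451208)) (l 16448664)) (a (l 16448704) (l 16431920))) (a (b (l 16438632) (l 16427768)) (l 16427632))) (a (b (a (l 16392672) (l 16406064)) (a (b (a (l 16328360) (l 16341304)) (a (l 16275120) (l 16291424))) (b (l 16361664) (l 16318656)))) (b (l 16416280) (a (b (l 16386848) (l 16354208)) (l 16400256))))) (b (b (b (b (a (b (l 16404040) (l 16401104)) (l 1)) (l 16371536)) (l 16407728)) (a (l 16392784) (l 16332376))) (b (a (l 16408056) (l 16362312)) (a (l 16426640) (l 16422416))))) (b (b (l 1) (a (a (l 16353136) (l 238940346279)) (l 1))) (a (b (a (l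 16279288) (l 16166736)) (a (l 16366016) (l 16253664))) (b (a (l 221223276519) (l 1)) (a (l 16105688) (l 15934280)))))), by decide +kernel⟩

theorem c_pm_112_b : CertB 536870912 536870912 1239849684 370763052 740881858 40050571 3 eng mog cd1q1 cd2q2b pd1 false true false .dn 1 1 2
    ndB1q1 ndB2q2b pcB1 Cut.none Ext.none :=
  certB2 (fam := false) (s1 := true) (s2 := false) (a := 1) (b := 1) (c := 2) (cn := .dn) (n1 := ndB1q1) (n2 := ndB2q2b) (pc := pcB1) (cut := Cut.none) (xt := Ext.none) (P1 := 536870912) (W1 := 536870912) (P2 := 1239849684) (W2 := 370763052) (P3 := 740881858) (W3 := 40050571) (N0 := 3) (En := eng) (mo := mog) (C1 := cd1q1) (C2 := cd2q2b) (C3 := pd1)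
    rfl (fun _ => rfl) k0_pm_112_b

noncomputable def f_pm_113 : ℕ → ℕ → ℕ → ℕ → Bool := onCell 536870912 536870912 536870912 536870912 740881858 40050571
    (rowB 3 eng mog cd1q1 cd2q3 pd1 1 false true false .nn 1 1 3 (qsf 536870912 536870912 1610612736 536870912 1) ndB1q1 ndB2q3 pcB1 Cut.none Ext.none)

def k0_pm_113 : ∃ t, chk3 f_pm_113 t 1 1 1 = true :=
  ⟨(b (b (a (l 1) (a (a (l 1) (l 16398296)) (b (a (a (l 1) (l 16343904)) (b (a (l 16311616) (l 16274784)) (l 16300680))) (a (l 16382848) (a (l 16349736) (l 16317008)))))) (a (a (l 1) (a (l 1) (l 16405088))) (a (b (l 16439568) (l 16503080)) (b (a (l 16462536) (b (l 16408440) (l 16492576))) (a (l 16626056) (a (l 16676760) (l 16691064))))))) (b (a (a (a (l 1) (l 16249224)) (a (l 16318552) (l 16431984))) (a (b (l 16616552) (l 16795432)) (a (l 17021232) (b (a (l 16863088) (l 16787664)) (l 16883648))))) (b (a (a (l 16107504) (l 16380184)) (a (l 16834344) (a (l 16901792) (l 16905600)))) (a (a (l 16019920)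 (l 16397376)) (a (l 16729720) (a (l 16791856) (a (l 16809544) (l 16815024)))))))), by decide +kernel⟩

theorem c_pm_113 : CertB 536870912 536870912 1610612736 536870912 740881858 40050571 3 eng mog cd1q1 cd2q3 pd1 false true false .nn 1 1 3
    ndB1q1 ndB2q3 pcB1 Cut.none Ext.none :=
  certB1 (fam := false) (s1 := true) (s2 := false) (a := 1) (b := 1) (c := 3) (cn := .nn) (n1 := ndB1q1) (n2 := ndB2q3) (pc := pcB1) (cut := Cut.none) (xt := Ext.none) (P1 := 536870912) (W1 := 536870912) (P2 := 1610612736) (W2 := 536870912) (P3 := 740881858) (W3 := 40050571) (N0 := 3) (En := eng) (mo := mog) (C1 := cd1q1) (C2 := cd2q3) (C3 := pd1)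
    rfl (fun _ => rfl) k0_pm_113

noncomputable def f_pm_123 : ℕ → ℕ → ℕ → ℕ → Bool := onCell 1073741824 536870912 1610612736 536870912 740881858 40050571
    (rowB 3 eng mog cd1q1 cd2q3 pd2 2 false true false .npn 1 2 3 (qsf 536870912 536870912 1610612736 536870912 2) ndB1q1 ndB2q3 pcB2 Cut.none Ext.none)

def k0_pm_123 : ∃ t, chk3 f_pm_123 t 1 1 1 = true :=
  ⟨(a (a (b (b (a (b (l 15874600) (l 15967792)) (b (l 15874520) (l 15926856))) (a (b (l 16130960) (l 16376512)) (b (l 16019968) (l 16181112)))) (b (a (b (l 16475696) (l 16532832)) (b (l 16328232) (l 16405288))) (a (b (l 16577768) (l 16649664)) (b (l 16471632) (l 16525392))))) (b (a (b (a (l 15912264) (l 1)) (a (l 16037208) (l 16050992))) (b (l 1) (l 16113128))) (b (a (b (l 16233568) (l 16309960)) (l 16294744)) (a (b (l 16397912) (a (l 16497496) (l 16490408))) (b (l 16405176) (l 16503136)))))) (a (b (a (b (l 1) (l 16201256)) (l 1)) (b (a (l 16329392) (l 16365104)) (a (l 16480296) (l 16511272))))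 (b (l 1) (b (a (l 16403192) (l 1)) (b (l 16506184) (l 16574656)))))), by decide +kernel⟩

theorem c_pm_123 : CertB 536870912 536870912 1610612736 536870912 740881858 40050571 3 eng mog cd1q1 cd2q3 pd2 false true false .npn 1 2 3
    ndB1q1 ndB2q3 pcB2 Cut.none Ext.none :=
  certB2 (fam := false) (s1 := true) (s2 := false) (a := 1) (b := 2) (c := 3) (cn := .npn) (n1 := ndB1q1) (n2 := ndB2q3) (pc := pcB2) (cut := Cut.none) (xt := Ext.none) (P1 := 536870912) (W1 := 536870912) (P2 := 1610612736) (W2 := 536870912) (P3 := 740881858) (W3 := 40050571) (N0 := 3) (En := eng) (mo := mog) (C1 := cd1q1) (C2 := cd2q3) (C3 := pd2)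
    rfl (fun _ => rfl) k0_pm_123

noncomputable def f_pm_133 : ℕ → ℕ → ℕ → ℕ → Bool := onCell 1610612736 536870912 1610612736 536870912 740881858 40050571
    (rowB 3 eng mog cd1q1 cd2q3 pd3 2 false true false .dn 1 3 3 (qsf 536870912 536870912 1610612736 536870912 3) ndB1q1 ndB2q3 pcB3 Cut.none Ext.none)

def k0_pm_133 : ∃ t, chk3 f_pm_133 t 1 1 1 = true :=
  ⟨(a (b (l 1) (a (a (b (l 1) (l 16564672)) (l 1)) (l 1))) (l 1)), by decide +kernel⟩

theorem c_pm_133 : CertB 536870912 536870912 1610612736 536870912 740881858 40050571 3 eng mog cd1q1 cd2q3 pd3 false true false .dn 1 3 3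
    ndB1q1 ndB2q3 pcB3 Cut.none Ext.none :=
  certB2 (fam := false) (s1 := true) (s2 := false) (a := 1) (b := 3) (c := 3) (cn := .dn) (n1 := ndB1q1) (n2 := ndB2q3) (pc := pcB3) (cut := Cut.none) (xt := Ext.none) (P1 := 536870912) (W1 := 536870912) (P2 := 1610612736) (W2 := 536870912) (P3 := 740881858) (W3 := 40050571) (N0 := 3) (En := eng) (mo := mog) (C1 := cd1q1) (C2 := cd2q3) (C3 := pd3)
    rfl (fun _ => rfl) k0_pm_133

noncomputable def cut_pm_202_aa : Cut := Cut.of [[⟨0, 1, 0, 67108864⟩, ⟨1, 0, 0, 67108864⟩, ⟨2, 1, 0, 67108864⟩]]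

noncomputable def f_pm_202_aa : ℕ → ℕ → ℕ → ℕ → Bool := onCell 0 536870912 0 536870912 740881858 40050571
    (rowB 3 eng mog cd1q2a cd2q2a pd0 0 false true false .pp 2 0 2 (qsf 0 536870912 0 536870912 0) ndB1q2a ndB2q2a pcB0 cut_pm_202_aa Ext.none)

def k0_pm_202_aa : ∃ t, chk3 f_pm_202_aa t 1 1 1 = true :=
  ⟨(a (l 3) (b (l 3) (a (l 3) (b (l 3) (a (l 3) (b (l 3) (l 6))))))), by decide +kernel⟩

theorem c_pm_202_aa : CertB 0 536870912 0 536870912 740881858 40050571 3 eng mog cd1q2a cd2q2a pd0 false true false .pp 2 0 2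
    ndB1q2a ndB2q2a pcB0 cut_pm_202_aa Ext.none :=
  certB0 (fam := false) (s1 := true) (s2 := false) (a := 2) (b := 0) (c := 2) (cn := .pp) (n1 := ndB1q2a) (n2 := ndB2q2a) (pc := pcB0) (cut := cut_pm_202_aa) (xt := Ext.none) (P1 := 0) (W1 := 536870912) (P2 := 0) (W2 := 536870912) (P3 := 740881858) (W3 := 40050571) (N0 := 3) (En := eng) (mo := mog) (C1 := cd1q2a) (C2 := cd2q2a) (C3 := pd0)
    rfl k0_pm_202_aa

noncomputable def cut_pm_202_ab : Cut := Cut.of [[⟨0, 1, 0, 67108864⟩, ⟨1, 0, 0, 67108864⟩, ⟨2, 1, 0, 67108864⟩]]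

noncomputable def f_pm_202_ab : ℕ → ℕ → ℕ → ℕ → Bool := onCell 0 536870912 1239849684 370763052 740881858 40050571
    (rowB 3 eng mog cd1q2a cd2q2b pd0 0 false true false .pp 2 0 2 (qsf 0 536870912 1239849684 370763052 0) ndB1q2a ndB2q2b pcB0 cut_pm_202_ab Ext.none)

def k0_pm_202_ab : ∃ t, chk3 f_pm_202_ab t 1 1 1 = true :=
  ⟨(l 3), by decide +kernel⟩

theorem c_pm_202_ab : CertB 0 536870912 1239849684 370763052 740881858 40050571 3 eng mog cd1q2a cd2q2b pd0 false true false .pp 2 0 2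
    ndB1q2a ndB2q2b pcB0 cut_pm_202_ab Ext.none :=
  certB0 (fam := false) (s1 := true) (s2 := false) (a := 2) (b := 0) (c := 2) (cn := .pp) (n1 := ndB1q2a) (n2 := ndB2q2b) (pc := pcB0) (cut := cut_pm_202_ab) (xt := Ext.none) (P1 := 0) (W1 := 536870912) (P2 := 1239849684) (W2 := 370763052) (P3 := 740881858) (W3 := 40050571) (N0 := 3) (En := eng) (mo := mog) (C1 := cd1q2a) (C2 := cd2q2b) (C3 := pd0)
    rfl k0_pm_202_ab

noncomputable def cut_pm_202_ba : Cut := Cut.of [[⟨0, 1, 0, 67108864⟩, ⟨1, 0, 0, 67108864⟩, ⟨2, 1, 0, 67108864⟩]]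

noncomputable def f_pm_202_ba : ℕ → ℕ → ℕ → ℕ → Bool := onCell 1239849684 370763052 0 536870912 740881858 40050571
    (rowB 3 eng mog cd1q2b cd2q2a pd0 0 false true false .pp 2 0 2 (qsf 1239849684 370763052 0 536870912 0) ndB1q2b ndB2q2a pcB0 cut_pm_202_ba Ext.none)

def k0_pm_202_ba : ∃ t, chk3 f_pm_202_ba t 1 1 1 = true :=
  ⟨(l 3), by decide +kernel⟩

theorem c_pm_202_ba : CertB 1239849684 370763052 0 536870912 740881858 40050571 3 eng mog cd1q2b cd2q2a pd0 false true false .pp 2 0 2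
    ndB1q2b ndB2q2a pcB0 cut_pm_202_ba Ext.none :=
  certB0 (fam := false) (s1 := true) (s2 := false) (a := 2) (b := 0) (c := 2) (cn := .pp) (n1 := ndB1q2b) (n2 := ndB2q2a) (pc := pcB0) (cut := cut_pm_202_ba) (xt := Ext.none) (P1 := 1239849684) (W1 := 370763052) (P2 := 0) (W2 := 536870912) (P3 := 740881858) (W3 := 40050571) (N0 := 3) (En := eng) (mo := mog) (C1 := cd1q2b) (C2 := cd2q2a) (C3 := pd0)
    rfl k0_pm_202_ba

noncomputable def cut_pm_202_bb : Cut := Cut.of [[⟨0, 1, 0, 67108864⟩, ⟨1, 0, 0, 67108864⟩, ⟨2, 1, 0, 67108864⟩]]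

noncomputable def f_pm_202_bb : ℕ → ℕ → ℕ → ℕ → Bool := onCell 1239849684 370763052 1239849684 370763052 740881858 40050571
    (rowB 3 eng mog cd1q2b cd2q2b pd0 0 false true false .pp 2 0 2 (qsf 1239849684 370763052 1239849684 370763052 0) ndB1q2b ndB2q2b pcB0 cut_pm_202_bb Ext.none)

def k0_pm_202_bb : ∃ t, chk3 f_pm_202_bb t 1 1 1 = true :=
  ⟨(l 3), by decide +kernel⟩

theorem c_pm_202_bb : CertB 1239849684 370763052 1239849684 370763052 740881858 40050571 3 eng mog cd1q2b cd2q2b pd0 false true false .pp 2 0 2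
    ndB1q2b ndB2q2b pcB0 cut_pm_202_bb Ext.none :=
  certB0 (fam := false) (s1 := true) (s2 := false) (a := 2) (b := 0) (c := 2) (cn := .pp) (n1 := ndB1q2b) (n2 := ndB2q2b) (pc := pcB0) (cut := cut_pm_202_bb) (xt := Ext.none) (P1 := 1239849684) (W1 := 370763052) (P2 := 1239849684) (W2 := 370763052) (P3 := 740881858) (W3 := 40050571) (N0 := 3) (En := eng) (mo := mog) (C1 := cd1q2b) (C2 := cd2q2b) (C3 := pd0)
    rfl k0_pm_202_bb

noncomputable def f_pm_203_a : ℕ → ℕ → ℕ → ℕ → Bool := onCell 0 536870912 0 536870912 740881858 40050571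
    (rowB 3 eng mog cd1q2a cd2q3 pd0 1 false true false .up 2 0 3 (qsf 0 536870912 1610612736 536870912 0) ndB1q2a ndB2q3 pcB0 Cut.none Ext.none)

def k0_pm_203_a : ∃ t, chk3 f_pm_203_a t 1 1 1 = true :=
  ⟨(l 3), by decide +kernel⟩

theorem c_pm_203_a : CertB 0 536870912 1610612736 536870912 740881858 40050571 3 eng mog cd1q2a cd2q3 pd0 false true false .up 2 0 3
    ndB1q2a ndB2q3 pcB0 Cut.none Ext.none :=
  certB1 (fam := false) (s1 := true) (s2 := false) (a := 2) (b := 0) (c := 3) (cn := .up) (n1 := ndB1q2a) (n2 := ndB2q3) (pc := pcB0) (cut := Cut.none) (xt := Ext.none) (P1 := 0) (W1 := 536870912) (P2 := 1610612736) (W2 := 536870912) (P3 := 740881858) (W3 := 40050571) (N0 := 3) (En := eng) (mo := mog) (C1 := cd1q2a) (C2 := cd2q3) (C3 := pd0)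
    rfl (fun _ => rfl) k0_pm_203_a

noncomputable def f_pm_203_b : ℕ → ℕ → ℕ → ℕ → Bool := onCell 1239849684 370763052 1610612736 536870912 740881858 40050571
    (rowB 3 eng mog cd1q2b cd2q3 pd0 0 false true false .up 2 0 3 (qsf 1239849684 370763052 1610612736 536870912 0) ndB1q2b ndB2q3 pcB0 Cut.none Ext.none)

def k0_pm_203_b : ∃ t, chk3 f_pm_203_b t 1 1 1 = true :=
  ⟨(l 3), by decide +kernel⟩

theorem c_pm_203_b : CertB 1239849684 370763052 1610612736 536870912 740881858 40050571 3 eng mog cd1q2b cd2q3 pd0 false true false .up 2 0 3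
    ndB1q2b ndB2q3 pcB0 Cut.none Ext.none :=
  certB0 (fam := false) (s1 := true) (s2 := false) (a := 2) (b := 0) (c := 3) (cn := .up) (n1 := ndB1q2b) (n2 := ndB2q3) (pc := pcB0) (cut := Cut.none) (xt := Ext.none) (P1 := 1239849684) (W1 := 370763052) (P2 := 1610612736) (W2 := 536870912) (P3 := 740881858) (W3 := 40050571) (N0 := 3) (En := eng) (mo := mog) (C1 := cd1q2b) (C2 := cd2q3) (C3 := pd0)
    rfl k0_pm_203_b

noncomputable def cut_pm_213_a : Cut := Cut.of [[⟨0, 1, 0, 67108864⟩, ⟨1, 1, 0, 67108864⟩, ⟨2, 2, 0, 16777216⟩]]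

noncomputable def f_pm_213_a : ℕ → ℕ → ℕ → ℕ → Bool := onCell 0 536870912 1610612736 536870912 740881858 40050571
    (rowB 3 eng mog cd1q2a cd2q3 pd1 0 false true false .pnn 2 1 3 (qsf 0 536870912 1610612736 536870912 1) ndB1q2a ndB2q3 pcB1 cut_pm_213_a Ext.none)

def k0_pm_213_a : ∃ t, chk3 f_pm_213_a t 1 1 1 = true :=
  ⟨(b (l 3) (b (l 3) (a (l 3) (a (l 3) (b (l 3) (a (l 3) (b (l 3) (b (l 3) (b (l 3) (l 6)))))))))), by decide +kernel⟩

theorem c_pm_213_a : CertB 0 536870912 1610612736 536870912 740881858 40050571 3 eng mog cd1q2a cd2q3 pd1 false true false .pnn 2 1 3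
    ndB1q2a ndB2q3 pcB1 cut_pm_213_a Ext.none :=
  certB0 (fam := false) (s1 := true) (s2 := false) (a := 2) (b := 1) (c := 3) (cn := .pnn) (n1 := ndB1q2a) (n2 := ndB2q3) (pc := pcB1) (cut := cut_pm_213_a) (xt := Ext.none) (P1 := 0) (W1 := 536870912) (P2 := 1610612736) (W2 := 536870912) (P3 := 740881858) (W3 := 40050571) (N0 := 3) (En := eng) (mo := mog) (C1 := cd1q2a) (C2 := cd2q3) (C3 := pd1)
    rfl k0_pm_213_a

noncomputable def cut_pm_213_b : Cut := Cut.of [[⟨0, 1, 0, 67108864⟩, ⟨1, 1, 0, 67108864⟩, ⟨2, 2, 0, 16777216⟩]]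

noncomputable def f_pm_213_b : ℕ → ℕ → ℕ → ℕ → Bool := onCell 1239849684 370763052 1610612736 536870912 740881858 40050571
    (rowB 3 eng mog cd1q2b cd2q3 pd1 0 false true false .pnn 2 1 3 (qsf 1239849684 370763052 1610612736 536870912 1) ndB1q2b ndB2q3 pcB1 cut_pm_213_b Ext.none)

def k0_pm_213_b : ∃ t, chk3 f_pm_213_b t 1 1 1 = true :=
  ⟨(l 3), by decide +kernel⟩

theorem c_pm_213_b : CertB 1239849684 370763052 1610612736 536870912 740881858 40050571 3 eng mog cd1q2b cd2q3 pd1 false true false .pnn 2 1 3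
    ndB1q2b ndB2q3 pcB1 cut_pm_213_b Ext.none :=
  certB0 (fam := false) (s1 := true) (s2 := false) (a := 2) (b := 1) (c := 3) (cn := .pnn) (n1 := ndB1q2b) (n2 := ndB2q3) (pc := pcB1) (cut := cut_pm_213_b) (xt := Ext.none) (P1 := 1239849684) (W1 := 370763052) (P2 := 1610612736) (W2 := 536870912) (P3 := 740881858) (W3 := 40050571) (N0 := 3) (En := eng) (mo := mog) (C1 := cd1q2b) (C2 := cd2q3) (C3 := pd1)
    rfl k0_pm_213_b

noncomputable def f_pm_303 : ℕ → ℕ → ℕ → ℕ → Bool := onCell 1610612736 536870912 1610612736 536870912 740881858 40050571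
    (rowB 3 eng mog cd1q3 cd2q3 pd0 0 false true false .npn 3 0 3 (qsf 1610612736 536870912 1610612736 536870912 0) ndB1q3 ndB2q3 pcB0 Cut.none Ext.none)

def k0_pm_303 : ∃ t, chk3 f_pm_303 t 1 1 1 = true :=
  ⟨(l 3), by decide +kernel⟩

theorem c_pm_303 : CertB 1610612736 536870912 1610612736 536870912 740881858 40050571 3 eng mog cd1q3 cd2q3 pd0 false true false .npn 3 0 3
    ndB1q3 ndB2q3 pcB0 Cut.none Ext.none :=
  certB0 (fam := false) (s1 := true) (s2 := false) (a := 3) (b := 0) (c := 3) (cn := .npn) (n1 := ndB1q3) (n2 := ndB2q3) (pc := pcB0) (cut := Cut.none) (xt := Ext.none) (P1 := 1610612736) (W1 := 536870912) (P2 := 1610612736) (W2 := 536870912) (P3 := 740881858) (W3 := 40050571) (N0 := 3) (En := eng) (mo := mog) (C1 := cd1q3) (C2 := cd2q3) (C3 := pd0)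
    rfl k0_pm_303

noncomputable def f_pm_313 : ℕ → ℕ → ℕ → ℕ → Bool := onCell 1610612736 536870912 1610612736 536870912 740881858 40050571
    (rowB 3 eng mog cd1q3 cd2q3 pd1 0 false true false .dn 3 1 3 (qsf 1610612736 536870912 1610612736 536870912 1) ndB1q3 ndB2q3 pcB1 Cut.none Ext.none)

def k0_pm_313 : ∃ t, chk3 f_pm_313 t 1 1 1 = true :=
  ⟨(l 3), by decide +kernel⟩

theorem c_pm_313 : CertB 1610612736 536870912 1610612736 536870912 740881858 40050571 3 eng mog cd1q3 cd2q3 pd1 false true false .dn 3 1 3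
    ndB1q3 ndB2q3 pcB1 Cut.none Ext.none :=
  certB0 (fam := false) (s1 := true) (s2 := false) (a := 3) (b := 1) (c := 3) (cn := .dn) (n1 := ndB1q3) (n2 := ndB2q3) (pc := pcB1) (cut := Cut.none) (xt := Ext.none) (P1 := 1610612736) (W1 := 536870912) (P2 := 1610612736) (W2 := 536870912) (P3 := 740881858) (W3 := 40050571) (N0 := 3) (En := eng) (mo := mog) (C1 := cd1q3) (C2 := cd2q3) (C3 := pd1)
    rfl k0_pm_313

noncomputable def f_mm_001 : ℕ → ℕ → ℕ → ℕ → Bool := onCell 0 536870912 536870912 536870912 740881858 40050571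
    (rowB 3 eng mog cd1q0 cd2q1 pd0 0 false false false .up 0 0 1 (qsf 0 536870912 536870912 536870912 0) ndB1q0 ndB2q1 pcB0 Cut.none Ext.none)

def k0_mm_001 : ∃ t, chk3 f_mm_001 t 1 1 1 = true :=
  ⟨(l 3), by decide +kernel⟩

theorem c_mm_001 : CertB 0 536870912 536870912 536870912 740881858 40050571 3 eng mog cd1q0 cd2q1 pd0 false false false .up 0 0 1
    ndB1q0 ndB2q1 pcB0 Cut.none Ext.none :=
  certB0 (fam := false) (s1 := false) (s2 := false) (a := 0) (b := 0) (c := 1) (cn := .up) (n1 := ndB1q0) (n2 := ndB2q1) (pc := pcB0) (cut := Cut.none) (xt := Ext.none) (P1 := 0) (W1 := 536870912) (P2 := 536870912) (W2 := 536870912) (P3 := 740881858) (W3 := 40050571) (N0 := 3) (En := eng) (mo := mog) (C1 := cd1q0) (C2 := cd2q1) (C3 := pd0)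
    rfl k0_mm_001

noncomputable def f_mm_011 : ℕ → ℕ → ℕ → ℕ → Bool := onCell 0 536870912 536870912 536870912 740881858 40050571
    (rowB 3 eng mog cd1q0 cd2q1 pd1 0 false false false .pnn 0 1 1 (qsf 0 536870912 536870912 536870912 1) ndB1q0 ndB2q1 pcB1 Cut.none Ext.none)

def k0_mm_011 : ∃ t, chk3 f_mm_011 t 1 1 1 = true :=
  ⟨(l 3), by decide +kernel⟩

theorem c_mm_011 : CertB 0 536870912 536870912 536870912 740881858 40050571 3 eng mog cd1q0 cd2q1 pd1 false false false .pnn 0 1 1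
    ndB1q0 ndB2q1 pcB1 Cut.none Ext.none :=
  certB0 (fam := false) (s1 := false) (s2 := false) (a := 0) (b := 1) (c := 1) (cn := .pnn) (n1 := ndB1q0) (n2 := ndB2q1) (pc := pcB1) (cut := Cut.none) (xt := Ext.none) (P1 := 0) (W1 := 536870912) (P2 := 536870912) (W2 := 536870912) (P3 := 740881858) (W3 := 40050571) (N0 := 3) (En := eng) (mo := mog) (C1 := cd1q0) (C2 := cd2q1) (C3 := pd1)
    rfl k0_mm_011

noncomputable def f_mm_012_a : ℕ → ℕ → ℕ → ℕ → Bool := onCell 0 536870912 0 536870912 740881858 40050571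
    (rowB 3 eng mog cd1q0 cd2q2a pd1 0 false false false .pnp 0 1 2 (qsf 0 536870912 0 536870912 1) ndB1q0 ndB2q2a pcB1 Cut.none Ext.none)

def k0_mm_012_a : ∃ t, chk3 f_mm_012_a t 1 1 1 = true :=
  ⟨(l 5), by decide +kernel⟩

theorem c_mm_012_a : CertB 0 536870912 0 536870912 740881858 40050571 3 eng mog cd1q0 cd2q2a pd1 false false false .pnp 0 1 2
    ndB1q0 ndB2q2a pcB1 Cut.none Ext.none :=
  certB0 (fam := false) (s1 := false) (s2 := false) (a := 0) (b := 1) (c := 2) (cn := .pnp) (n1 := ndB1q0) (n2 := ndB2q2a) (pc := pcB1) (cut := Cut.none) (xt := Ext.none) (P1 := 0) (W1 := 536870912) (P2 := 0) (W2 := 536870912) (P3 := 740881858) (W3 := 40050571) (N0 := 3) (En := eng) (mo := mog) (C1 := cd1q0) (C2 := cd2q2a) (C3 := pd1)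
    rfl k0_mm_012_a

noncomputable def f_mm_012_b : ℕ → ℕ → ℕ → ℕ → Bool := onCell 0 536870912 1239849684 370763052 740881858 40050571
    (rowB 3 eng mog cd1q0 cd2q2b pd1 0 false false false .pnp 0 1 2 (qsf 0 536870912 1239849684 370763052 1) ndB1q0 ndB2q2b pcB1 Cut.none Ext.none)

def k0_mm_012_b : ∃ t, chk3 f_mm_012_b t 1 1 1 = true :=
  ⟨(l 5), by decide +kernel⟩

theorem c_mm_012_b : CertB 0 536870912 1239849684 370763052 740881858 40050571 3 eng mog cd1q0 cd2q2b pd1 false false false .pnp 0 1 2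
    ndB1q0 ndB2q2b pcB1 Cut.none Ext.none :=
  certB0 (fam := false) (s1 := false) (s2 := false) (a := 0) (b := 1) (c := 2) (cn := .pnp) (n1 := ndB1q0) (n2 := ndB2q2b) (pc := pcB1) (cut := Cut.none) (xt := Ext.none) (P1 := 0) (W1 := 536870912) (P2 := 1239849684) (W2 := 370763052) (P3 := 740881858) (W3 := 40050571) (N0 := 3) (En := eng) (mo := mog) (C1 := cd1q0) (C2 := cd2q2b) (C3 := pd1)
    rfl k0_mm_012_b

noncomputable def f_mm_022_a : ℕ → ℕ → ℕ → ℕ → Bool := onCell 0 536870912 0 536870912 740881858 40050571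
    (rowB 3 eng mog cd1q0 cd2q2a pd2 0 false false false .pp 0 2 2 (qsf 0 536870912 0 536870912 2) ndB1q0 ndB2q2a pcB2 Cut.none Ext.none)

def k0_mm_022_a : ∃ t, chk3 f_mm_022_a t 1 1 1 = true :=
  ⟨(l 5), by decide +kernel⟩

theorem c_mm_022_a : CertB 0 536870912 0 536870912 740881858 40050571 3 eng mog cd1q0 cd2q2a pd2 false false false .pp 0 2 2
    ndB1q0 ndB2q2a pcB2 Cut.none Ext.none :=
  certB0 (fam := false) (s1 := false) (s2 := false) (a := 0) (b := 2) (c := 2) (cn := .pp) (n1 := ndB1q0) (n2 := ndB2q2a) (pc := pcB2) (cut := Cut.none) (xt := Ext.none) (P1 := 0) (W1 := 536870912) (P2 := 0) (W2 := 536870912) (P3 := 740881858) (W3 := 40050571) (N0 := 3) (En := eng) (mo := mog) (C1 := cd1q0) (C2 := cd2q2a) (C3 := pd2)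
    rfl k0_mm_022_a

noncomputable def f_mm_022_b : ℕ → ℕ → ℕ → ℕ → Bool := onCell 0 536870912 1239849684 370763052 740881858 40050571
    (rowB 3 eng mog cd1q0 cd2q2b pd2 0 false false false .pp 0 2 2 (qsf 0 536870912 1239849684 370763052 2) ndB1q0 ndB2q2b pcB2 Cut.none Ext.none)

def k0_mm_022_b : ∃ t, chk3 f_mm_022_b t 1 1 1 = true :=
  ⟨(l 5), by decide +kernel⟩

theorem c_mm_022_b : CertB 0 536870912 1239849684 370763052 740881858 40050571 3 eng mog cd1q0 cd2q2b pd2 false false false .pp 0 2 2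
    ndB1q0 ndB2q2b pcB2 Cut.none Ext.none :=
  certB0 (fam := false) (s1 := false) (s2 := false) (a := 0) (b := 2) (c := 2) (cn := .pp) (n1 := ndB1q0) (n2 := ndB2q2b) (pc := pcB2) (cut := Cut.none) (xt := Ext.none) (P1 := 0) (W1 := 536870912) (P2 := 1239849684) (W2 := 370763052) (P3 := 740881858) (W3 := 40050571) (N0 := 3) (En := eng) (mo := mog) (C1 := cd1q0) (C2 := cd2q2b) (C3 := pd2)
    rfl k0_mm_022_b

noncomputable def f_mm_023 : ℕ → ℕ → ℕ → ℕ → Bool := onCell 0 536870912 1610612736 536870912 740881858 40050571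
    (rowB 3 eng mog cd1q0 cd2q3 pd2 0 false false false .up 0 2 3 (qsf 0 536870912 1610612736 536870912 2) ndB1q0 ndB2q3 pcB2 Cut.none Ext.none)

def k0_mm_023 : ∃ t, chk3 f_mm_023 t 1 1 1 = true :=
  ⟨(l 5), by decide +kernel⟩

theorem c_mm_023 : CertB 0 536870912 1610612736 536870912 740881858 40050571 3 eng mog cd1q0 cd2q3 pd2 false false false .up 0 2 3
    ndB1q0 ndB2q3 pcB2 Cut.none Ext.none :=
  certB0 (fam := false) (s1 := false) (s2 := false) (a := 0) (b := 2) (c := 3) (cn := .up) (n1 := ndB1q0) (n2 := ndB2q3) (pc := pcB2) (cut := Cut.none) (xt := Ext.none) (P1 := 0) (W1 := 536870912) (P2 := 1610612736) (W2 := 536870912) (P3 := 740881858) (W3 := 40050571) (N0 := 3) (En := eng) (mo := mog) (C1 := cd1q0) (C2 := cd2q3) (C3 := pd2)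
    rfl k0_mm_023

noncomputable def f_mm_033 : ℕ → ℕ → ℕ → ℕ → Bool := onCell 0 536870912 1610612736 536870912 740881858 40050571
    (rowB 3 eng mog cd1q0 cd2q3 pd3 0 false false false .pnn 0 3 3 (qsf 0 536870912 1610612736 536870912 3) ndB1q0 ndB2q3 pcB3 Cut.none Ext.none)

def k0_mm_033 : ∃ t, chk3 f_mm_033 t 1 1 1 = true :=
  ⟨(l 5), by decide +kernel⟩

theorem c_mm_033 : CertB 0 536870912 1610612736 536870912 740881858 40050571 3 eng mog cd1q0 cd2q3 pd3 false false false .pnn 0 3 3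
    ndB1q0 ndB2q3 pcB3 Cut.none Ext.none :=
  certB0 (fam := false) (s1 := false) (s2 := false) (a := 0) (b := 3) (c := 3) (cn := .pnn) (n1 := ndB1q0) (n2 := ndB2q3) (pc := pcB3) (cut := Cut.none) (xt := Ext.none) (P1 := 0) (W1 := 536870912) (P2 := 1610612736) (W2 := 536870912) (P3 := 740881858) (W3 := 40050571) (N0 := 3) (En := eng) (mo := mog) (C1 := cd1q0) (C2 := cd2q3) (C3 := pd3)
    rfl k0_mm_033

noncomputable def f_mm_101 : ℕ → ℕ → ℕ → ℕ → Bool := onCell 536870912 536870912 536870912 536870912 740881858 40050571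
    (rowB 3 eng mog cd1q1 cd2q1 pd0 0 false false false .npn 1 0 1 (qsf 536870912 536870912 536870912 536870912 0) ndB1q1 ndB2q1 pcB0 Cut.none Ext.none)

def k0_mm_101 : ∃ t, chk3 f_mm_101 t 1 1 1 = true :=
  ⟨(l 3), by decide +kernel⟩

theorem c_mm_101 : CertB 536870912 536870912 536870912 536870912 740881858 40050571 3 eng mog cd1q1 cd2q1 pd0 false false false .npn 1 0 1
    ndB1q1 ndB2q1 pcB0 Cut.none Ext.none :=
  certB0 (fam := false) (s1 := false) (s2 := false) (a := 1) (b := 0) (c := 1) (cn := .npn) (n1 := ndB1q1) (n2 := ndB2q1) (pc := pcB0) (cut := Cut.none) (xt := Ext.none) (P1 := 536870912) (W1 := 536870912) (P2 := 536870912) (W2 := 536870912) (P3 := 740881858) (W3 := 40050571) (N0 := 3) (En := eng) (mo := mog) (C1 := cd1q1) (C2 := cd2q1) (C3 := pd0)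
    rfl k0_mm_101

noncomputable def f_mm_102_a : ℕ → ℕ → ℕ → ℕ → Bool := onCell 536870912 536870912 0 536870912 740881858 40050571
    (rowB 3 eng mog cd1q1 cd2q2a pd0 0 false false false .npp 1 0 2 (qsf 536870912 536870912 0 536870912 0) ndB1q1 ndB2q2a pcB0 Cut.none Ext.none)

def k0_mm_102_a : ∃ t, chk3 f_mm_102_a t 1 1 1 = true :=
  ⟨(l 5), by decide +kernel⟩

theorem c_mm_102_a : CertB 536870912 536870912 0 536870912 740881858 40050571 3 eng mog cd1q1 cd2q2a pd0 false false false .npp 1 0 2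
    ndB1q1 ndB2q2a pcB0 Cut.none Ext.none :=
  certB0 (fam := false) (s1 := false) (s2 := false) (a := 1) (b := 0) (c := 2) (cn := .npp) (n1 := ndB1q1) (n2 := ndB2q2a) (pc := pcB0) (cut := Cut.none) (xt := Ext.none) (P1 := 536870912) (W1 := 536870912) (P2 := 0) (W2 := 536870912) (P3 := 740881858) (W3 := 40050571) (N0 := 3) (En := eng) (mo := mog) (C1 := cd1q1) (C2 := cd2q2a) (C3 := pd0)
    rfl k0_mm_102_a

noncomputable def f_mm_102_b : ℕ → ℕ → ℕ → ℕ → Bool := onCell 536870912 536870912 1239849684 370763052 740881858 40050571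
    (rowB 3 eng mog cd1q1 cd2q2b pd0 0 false false false .npp 1 0 2 (qsf 536870912 536870912 1239849684 370763052 0) ndB1q1 ndB2q2b pcB0 Cut.none Ext.none)

def k0_mm_102_b : ∃ t, chk3 f_mm_102_b t 1 1 1 = true :=
  ⟨(l 5), by decide +kernel⟩

theorem c_mm_102_b : CertB 536870912 536870912 1239849684 370763052 740881858 40050571 3 eng mog cd1q1 cd2q2b pd0 false false false .npp 1 0 2
    ndB1q1 ndB2q2b pcB0 Cut.none Ext.none :=
  certB0 (fam := false) (s1 := false) (s2 := false) (a := 1) (b := 0) (c := 2) (cn := .npp) (n1 := ndB1q1) (n2 := ndB2q2b) (pc := pcB0) (cut := Cut.none) (xt := Ext.none) (P1 := 536870912) (W1 := 536870912) (P2 := 1239849684) (W2 := 370763052) (P3 := 740881858) (W3 := 40050571) (N0 := 3) (En := eng) (mo := mog) (C1 := cd1q1) (C2 := cd2q2b) (C3 := pd0)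
    rfl k0_mm_102_b

noncomputable def f_mm_112_a : ℕ → ℕ → ℕ → ℕ → Bool := onCell 536870912 536870912 0 536870912 740881858 40050571
    (rowB 3 eng mog cd1q1 cd2q2a pd1 0 false false false .dn 1 1 2 (qsf 536870912 536870912 0 536870912 1) ndB1q1 ndB2q2a pcB1 Cut.none Ext.none)

def k0_mm_112_a : ∃ t, chk3 f_mm_112_a t 1 1 1 = true :=
  ⟨(l 5), by decide +kernel⟩

theorem c_mm_112_a : CertB 536870912 536870912 0 536870912 740881858 40050571 3 eng mog cd1q1 cd2q2a pd1 false false false .dn 1 1 2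
    ndB1q1 ndB2q2a pcB1 Cut.none Ext.none :=
  certB0 (fam := false) (s1 := false) (s2 := false) (a := 1) (b := 1) (c := 2) (cn := .dn) (n1 := ndB1q1) (n2 := ndB2q2a) (pc := pcB1) (cut := Cut.none) (xt := Ext.none) (P1 := 536870912) (W1 := 536870912) (P2 := 0) (W2 := 536870912) (P3 := 740881858) (W3 := 40050571) (N0 := 3) (En := eng) (mo := mog) (C1 := cd1q1) (C2 := cd2q2a) (C3 := pd1)
    rfl k0_mm_112_a

noncomputable def f_mm_112_b : ℕ → ℕ → ℕ → ℕ → Bool := onCell 536870912 536870912 1239849684 370763052 740881858 40050571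
    (rowB 3 eng mog cd1q1 cd2q2b pd1 0 false false false .dn 1 1 2 (qsf 536870912 536870912 1239849684 370763052 1) ndB1q1 ndB2q2b pcB1 Cut.none Ext.none)

def k0_mm_112_b : ∃ t, chk3 f_mm_112_b t 1 1 1 = true :=
  ⟨(l 5), by decide +kernel⟩

theorem c_mm_112_b : CertB 536870912 536870912 1239849684 370763052 740881858 40050571 3 eng mog cd1q1 cd2q2b pd1 false false false .dn 1 1 2
    ndB1q1 ndB2q2b pcB1 Cut.none Ext.none :=
  certB0 (fam := false) (s1 := false) (s2 := false) (a := 1) (b := 1) (c := 2) (cn := .dn) (n1 := ndB1q1) (n2 := ndB2q2b) (pc := pcB1) (cut := Cut.none) (xt := Ext.none) (P1 := 536870912) (W1 := 536870912) (P2 := 1239849684) (W2 := 370763052) (P3 := 740881858) (W3 := 40050571) (N0 := 3) (En := eng) (mo := mog) (C1 := cd1q1) (C2 := cd2q2b) (C3 := pd1)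
    rfl k0_mm_112_b

noncomputable def f_mm_113 : ℕ → ℕ → ℕ → ℕ → Bool := onCell 536870912 536870912 1610612736 536870912 740881858 40050571
    (rowB 3 eng mog cd1q1 cd2q3 pd1 0 false false false .nn 1 1 3 (qsf 536870912 536870912 1610612736 536870912 1) ndB1q1 ndB2q3 pcB1 Cut.none Ext.none)

def k0_mm_113 : ∃ t, chk3 f_mm_113 t 1 1 1 = true :=
  ⟨(l 5), by decide +kernel⟩

theorem c_mm_113 : CertB 536870912 536870912 1610612736 536870912 740881858 40050571 3 eng mog cd1q1 cd2q3 pd1 false false false .nn 1 1 3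
    ndB1q1 ndB2q3 pcB1 Cut.none Ext.none :=
  certB0 (fam := false) (s1 := false) (s2 := false) (a := 1) (b := 1) (c := 3) (cn := .nn) (n1 := ndB1q1) (n2 := ndB2q3) (pc := pcB1) (cut := Cut.none) (xt := Ext.none) (P1 := 536870912) (W1 := 536870912) (P2 := 1610612736) (W2 := 536870912) (P3 := 740881858) (W3 := 40050571) (N0 := 3) (En := eng) (mo := mog) (C1 := cd1q1) (C2 := cd2q3) (C3 := pd1)
    rfl k0_mm_113

noncomputable def f_mm_123 : ℕ → ℕ → ℕ → ℕ → Bool := onCell 536870912 536870912 1610612736 536870912 740881858 40050571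
    (rowB 3 eng mog cd1q1 cd2q3 pd2 0 false false false .npn 1 2 3 (qsf 536870912 536870912 1610612736 536870912 2) ndB1q1 ndB2q3 pcB2 Cut.none Ext.none)

def k0_mm_123 : ∃ t, chk3 f_mm_123 t 1 1 1 = true :=
  ⟨(l 5), by decide +kernel⟩

theorem c_mm_123 : CertB 536870912 536870912 1610612736 536870912 740881858 40050571 3 eng mog cd1q1 cd2q3 pd2 false false false .npn 1 2 3
    ndB1q1 ndB2q3 pcB2 Cut.none Ext.none :=
  certB0 (fam := false) (s1 := false) (s2 := false) (a := 1) (b := 2) (c := 3) (cn := .npn) (n1 := ndB1q1) (n2 := ndB2q3) (pc := pcB2) (cut := Cut.none) (xt := Ext.none) (P1 := 536870912) (W1 := 536870912) (P2 := 1610612736) (W2 := 536870912) (P3 := 740881858) (W3 := 40050571) (N0 := 3) (En := eng) (mo := mog) (C1 := cd1q1) (C2 := cd2q3) (C3 := pd2)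
    rfl k0_mm_123

noncomputable def f_mm_133 : ℕ → ℕ → ℕ → ℕ → Bool := onCell 536870912 536870912 1610612736 536870912 740881858 40050571
    (rowB 3 eng mog cd1q1 cd2q3 pd3 0 false false false .dn 1 3 3 (qsf 536870912 536870912 1610612736 536870912 3) ndB1q1 ndB2q3 pcB3 Cut.none Ext.none)

def k0_mm_133 : ∃ t, chk3 f_mm_133 t 1 1 1 = true :=
  ⟨(l 5), by decide +kernel⟩

theorem c_mm_133 : CertB 536870912 536870912 1610612736 536870912 740881858 40050571 3 eng mog cd1q1 cd2q3 pd3 false false false .dn 1 3 3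
    ndB1q1 ndB2q3 pcB3 Cut.none Ext.none :=
  certB0 (fam := false) (s1 := false) (s2 := false) (a := 1) (b := 3) (c := 3) (cn := .dn) (n1 := ndB1q1) (n2 := ndB2q3) (pc := pcB3) (cut := Cut.none) (xt := Ext.none) (P1 := 536870912) (W1 := 536870912) (P2 := 1610612736) (W2 := 536870912) (P3 := 740881858) (W3 := 40050571) (N0 := 3) (En := eng) (mo := mog) (C1 := cd1q1) (C2 := cd2q3) (C3 := pd3)
    rfl k0_mm_133

noncomputable def f_mm_202_aa : ℕ → ℕ → ℕ → ℕ → Bool := onCell 0 536870912 0 536870912 740881858 40050571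
    (rowB 3 eng mog cd1q2a cd2q2a pd0 0 false false false .pp 2 0 2 (qsf 0 536870912 0 536870912 0) ndB1q2a ndB2q2a pcB0 Cut.none Ext.none)

def k0_mm_202_aa : ∃ t, chk3 f_mm_202_aa t 1 1 1 = true :=
  ⟨(l 3), by decide +kernel⟩

theorem c_mm_202_aa : CertB 0 536870912 0 536870912 740881858 40050571 3 eng mog cd1q2a cd2q2a pd0 false false false .pp 2 0 2
    ndB1q2a ndB2q2a pcB0 Cut.none Ext.none :=
  certB0 (fam := false) (s1 := false) (s2 := false) (a := 2) (b := 0) (c := 2) (cn := .pp) (n1 := ndB1q2a) (n2 := ndB2q2a) (pc := pcB0) (cut := Cut.none) (xt := Ext.none) (P1 := 0) (W1 := 536870912) (P2 := 0) (W2 := 536870912) (P3 := 740881858) (W3 := 40050571) (N0 := 3) (En := eng) (mo := mog) (C1 := cd1q2a) (C2 := cd2q2a) (C3 := pd0)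
    rfl k0_mm_202_aa

noncomputable def f_mm_202_ab : ℕ → ℕ → ℕ → ℕ → Bool := onCell 0 536870912 1239849684 370763052 740881858 40050571
    (rowB 3 eng mog cd1q2a cd2q2b pd0 0 false false false .pp 2 0 2 (qsf 0 536870912 1239849684 370763052 0) ndB1q2a ndB2q2b pcB0 Cut.none Ext.none)

def k0_mm_202_ab : ∃ t, chk3 f_mm_202_ab t 1 1 1 = true :=
  ⟨(l 3), by decide +kernel⟩

theorem c_mm_202_ab : CertB 0 536870912 1239849684 370763052 740881858 40050571 3 eng mog cd1q2a cd2q2b pd0 false false false .pp 2 0 2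
    ndB1q2a ndB2q2b pcB0 Cut.none Ext.none :=
  certB0 (fam := false) (s1 := false) (s2 := false) (a := 2) (b := 0) (c := 2) (cn := .pp) (n1 := ndB1q2a) (n2 := ndB2q2b) (pc := pcB0) (cut := Cut.none) (xt := Ext.none) (P1 := 0) (W1 := 536870912) (P2 := 1239849684) (W2 := 370763052) (P3 := 740881858) (W3 := 40050571) (N0 := 3) (En := eng) (mo := mog) (C1 := cd1q2a) (C2 := cd2q2b) (C3 := pd0)
    rfl k0_mm_202_ab

noncomputable def f_mm_202_ba : ℕ → ℕ → ℕ → ℕ → Bool := onCell 1239849684 370763052 0 536870912 740881858 40050571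
    (rowB 3 eng mog cd1q2b cd2q2a pd0 0 false false false .pp 2 0 2 (qsf 1239849684 370763052 0 536870912 0) ndB1q2b ndB2q2a pcB0 Cut.none Ext.none)

def k0_mm_202_ba : ∃ t, chk3 f_mm_202_ba t 1 1 1 = true :=
  ⟨(l 3), by decide +kernel⟩

theorem c_mm_202_ba : CertB 1239849684 370763052 0 536870912 740881858 40050571 3 eng mog cd1q2b cd2q2a pd0 false false false .pp 2 0 2
    ndB1q2b ndB2q2a pcB0 Cut.none Ext.none :=
  certB0 (fam := false) (s1 := false) (s2 := false) (a := 2) (b := 0) (c := 2) (cn := .pp) (n1 := ndB1q2b) (n2 := ndB2q2a) (pc := pcB0) (cut := Cut.none) (xt := Ext.none) (P1 := 1239849684) (W1 := 370763052) (P2 := 0) (W2 := 536870912) (P3 := 740881858) (W3 := 40050571) (N0 := 3) (En := eng) (mo := mog) (C1 := cd1q2b) (C2 := cd2q2a) (C3 := pd0)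
    rfl k0_mm_202_ba

noncomputable def f_mm_202_bb : ℕ → ℕ → ℕ → ℕ → Bool := onCell 1239849684 370763052 1239849684 370763052 740881858 40050571
    (rowB 3 eng mog cd1q2b cd2q2b pd0 0 false false false .pp 2 0 2 (qsf 1239849684 370763052 1239849684 370763052 0) ndB1q2b ndB2q2b pcB0 Cut.none Ext.none)

def k0_mm_202_bb : ∃ t, chk3 f_mm_202_bb t 1 1 1 = true :=
  ⟨(l 3), by decide +kernel⟩

theorem c_mm_202_bb : CertB 1239849684 370763052 1239849684 370763052 740881858 40050571 3 eng mog cd1q2b cd2q2b pd0 false false false .pp 2 0 2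
    ndB1q2b ndB2q2b pcB0 Cut.none Ext.none :=
  certB0 (fam := false) (s1 := false) (s2 := false) (a := 2) (b := 0) (c := 2) (cn := .pp) (n1 := ndB1q2b) (n2 := ndB2q2b) (pc := pcB0) (cut := Cut.none) (xt := Ext.none) (P1 := 1239849684) (W1 := 370763052) (P2 := 1239849684) (W2 := 370763052) (P3 := 740881858) (W3 := 40050571) (N0 := 3) (En := eng) (mo := mog) (C1 := cd1q2b) (C2 := cd2q2b) (C3 := pd0)
    rfl k0_mm_202_bb

noncomputable def f_mm_203_a : ℕ → ℕ → ℕ → ℕ → Bool := onCell 0 536870912 0 536870912 740881858 40050571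
    (rowB 3 eng mog cd1q2a cd2q3 pd0 1 false false false .up 2 0 3 (qsf 0 536870912 1610612736 536870912 0) ndB1q2a ndB2q3 pcB0 Cut.none Ext.none)

def k0_mm_203_a : ∃ t, chk3 f_mm_203_a t 1 1 1 = true :=
  ⟨(l 3), by decide +kernel⟩

theorem c_mm_203_a : CertB 0 536870912 1610612736 536870912 740881858 40050571 3 eng mog cd1q2a cd2q3 pd0 false false false .up 2 0 3
    ndB1q2a ndB2q3 pcB0 Cut.none Ext.none :=
  certB1 (fam := false) (s1 := false) (s2 := false) (a := 2) (b := 0) (c := 3) (cn := .up) (n1 := ndB1q2a) (n2 := ndB2q3) (pc := pcB0) (cut := Cut.none) (xt := Ext.none) (P1 := 0) (W1 := 536870912) (P2 := 1610612736) (W2 := 536870912) (P3 := 740881858) (W3 := 40050571) (N0 := 3) (En := eng) (mo := mog) (C1 := cd1q2a) (C2 := cd2q3) (C3 := pd0)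
    rfl (fun _ => rfl) k0_mm_203_a

noncomputable def f_mm_203_b : ℕ → ℕ → ℕ → ℕ → Bool := onCell 1239849684 370763052 1610612736 536870912 740881858 40050571
    (rowB 3 eng mog cd1q2b cd2q3 pd0 0 false false false .up 2 0 3 (qsf 1239849684 370763052 1610612736 536870912 0) ndB1q2b ndB2q3 pcB0 Cut.none Ext.none)

def k0_mm_203_b : ∃ t, chk3 f_mm_203_b t 1 1 1 = true :=
  ⟨(l 3), by decide +kernel⟩

theorem c_mm_203_b : CertB 1239849684 370763052 1610612736 536870912 740881858 40050571 3 eng mog cd1q2b cd2q3 pd0 false false false .up 2 0 3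
    ndB1q2b ndB2q3 pcB0 Cut.none Ext.none :=
  certB0 (fam := false) (s1 := false) (s2 := false) (a := 2) (b := 0) (c := 3) (cn := .up) (n1 := ndB1q2b) (n2 := ndB2q3) (pc := pcB0) (cut := Cut.none) (xt := Ext.none) (P1 := 1239849684) (W1 := 370763052) (P2 := 1610612736) (W2 := 536870912) (P3 := 740881858) (W3 := 40050571) (N0 := 3) (En := eng) (mo := mog) (C1 := cd1q2b) (C2 := cd2q3) (C3 := pd0)
    rfl k0_mm_203_b

noncomputable def f_mm_213_a : ℕ → ℕ → ℕ → ℕ → Bool := onCell 0 536870912 1610612736 536870912 740881858 40050571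
    (rowB 3 eng mog cd1q2a cd2q3 pd1 0 false false false .pnn 2 1 3 (qsf 0 536870912 1610612736 536870912 1) ndB1q2a ndB2q3 pcB1 Cut.none Ext.none)

def k0_mm_213_a : ∃ t, chk3 f_mm_213_a t 1 1 1 = true :=
  ⟨(a (l 3) (l 5)), by decide +kernel⟩

theorem c_mm_213_a : CertB 0 536870912 1610612736 536870912 740881858 40050571 3 eng mog cd1q2a cd2q3 pd1 false false false .pnn 2 1 3
    ndB1q2a ndB2q3 pcB1 Cut.none Ext.none :=
  certB0 (fam := false) (s1 := false) (s2 := false) (a := 2) (b := 1) (c := 3) (cn := .pnn) (n1 := ndB1q2a) (n2 := ndB2q3) (pc := pcB1) (cut := Cut.none) (xt := Ext.none) (P1 := 0) (W1 := 536870912) (P2 := 1610612736) (W2 := 536870912) (P3 := 740881858) (W3 := 40050571) (N0 := 3) (En := eng) (mo := mog) (C1 := cd1q2a) (C2 := cd2q3) (C3 := pd1)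
    rfl k0_mm_213_a

noncomputable def f_mm_213_b : ℕ → ℕ → ℕ → ℕ → Bool := onCell 1239849684 370763052 1610612736 536870912 740881858 40050571
    (rowB 3 eng mog cd1q2b cd2q3 pd1 0 false false false .pnn 2 1 3 (qsf 1239849684 370763052 1610612736 536870912 1) ndB1q2b ndB2q3 pcB1 Cut.none Ext.none)

def k0_mm_213_b : ∃ t, chk3 f_mm_213_b t 1 1 1 = true :=
  ⟨(l 3), by decide +kernel⟩

theorem c_mm_213_b : CertB 1239849684 370763052 1610612736 536870912 740881858 40050571 3 eng mog cd1q2b cd2q3 pd1 false false false .pnn 2 1 3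
    ndB1q2b ndB2q3 pcB1 Cut.none Ext.none :=
  certB0 (fam := false) (s1 := false) (s2 := false) (a := 2) (b := 1) (c := 3) (cn := .pnn) (n1 := ndB1q2b) (n2 := ndB2q3) (pc := pcB1) (cut := Cut.none) (xt := Ext.none) (P1 := 1239849684) (W1 := 370763052) (P2 := 1610612736) (W2 := 536870912) (P3 := 740881858) (W3 := 40050571) (N0 := 3) (En := eng) (mo := mog) (C1 := cd1q2b) (C2 := cd2q3) (C3 := pd1)
    rfl k0_mm_213_b

noncomputable def f_mm_303 : ℕ → ℕ → ℕ → ℕ → Bool := onCell 1610612736 536870912 1610612736 536870912 740881858 40050571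
    (rowB 3 eng mog cd1q3 cd2q3 pd0 0 false false false .npn 3 0 3 (qsf 1610612736 536870912 1610612736 536870912 0) ndB1q3 ndB2q3 pcB0 Cut.none Ext.none)

def k0_mm_303 : ∃ t, chk3 f_mm_303 t 1 1 1 = true :=
  ⟨(l 3), by decide +kernel⟩

theorem c_mm_303 : CertB 1610612736 536870912 1610612736 536870912 740881858 40050571 3 eng mog cd1q3 cd2q3 pd0 false false false .npn 3 0 3
    ndB1q3 ndB2q3 pcB0 Cut.none Ext.none :=
  certB0 (fam := false) (s1 := false) (s2 := false) (a := 3) (b := 0) (c := 3) (cn := .npn) (n1 := ndB1q3) (n2 := ndB2q3) (pc := pcB0) (cut := Cut.none) (xt := Ext.none) (P1 := 1610612736) (W1 := 536870912) (P2 := 1610612736) (W2 := 536870912) (P3 := 740881858) (W3 := 40050571) (N0 := 3) (En := eng) (mo := mog) (C1 := cd1q3) (C2 := cd2q3) (C3 := pd0)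
    rfl k0_mm_303

noncomputable def f_mm_313 : ℕ → ℕ → ℕ → ℕ → Bool := onCell 1610612736 536870912 1610612736 536870912 740881858 40050571
    (rowB 3 eng mog cd1q3 cd2q3 pd1 0 false false false .dn 3 1 3 (qsf 1610612736 536870912 1610612736 536870912 1) ndB1q3 ndB2q3 pcB1 Cut.none Ext.none)

def k0_mm_313 : ∃ t, chk3 f_mm_313 t 1 1 1 = true :=
  ⟨(l 3), by decide +kernel⟩

theorem c_mm_313 : CertB 1610612736 536870912 1610612736 536870912 740881858 40050571 3 eng mog cd1q3 cd2q3 pd1 false false false .dn 3 1 3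
    ndB1q3 ndB2q3 pcB1 Cut.none Ext.none :=
  certB0 (fam := false) (s1 := false) (s2 := false) (a := 3) (b := 1) (c := 3) (cn := .dn) (n1 := ndB1q3) (n2 := ndB2q3) (pc := pcB1) (cut := Cut.none) (xt := Ext.none) (P1 := 1610612736) (W1 := 536870912) (P2 := 1610612736) (W2 := 536870912) (P3 := 740881858) (W3 := 40050571) (N0 := 3) (En := eng) (mo := mog) (C1 := cd1q3) (C2 := cd2q3) (C3 := pd1)
    rfl k0_mm_313

end Pool.Agent.Strip051.G.I69_7273.Tab.C.BB12

namespace Pool.Agent.Strip051.G.I69_7273.Tab.C.BB13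

open Pool.Agent.Strip051.PB Pool.Agent.Strip051.PB.T
open Pool.Agent.Strip051.G.I69_7273.Tab

noncomputable def f_pp_001 : ℕ → ℕ → ℕ → ℕ → Bool := onCell 0 536870912 0 536870912 740881858 40050571
    (rowB 3 eng mog cd1q0 cd3q1 pd0 1 false true true .up 0 0 1 (qsf 0 536870912 536870912 536870912 0) ndB1q0 ndB3q1 pcB0 Cut.none Ext.none)

def k0_pp_001 : ∃ t, chk3 f_pp_001 t 1 1 1 = true :=
  ⟨(l 3), by decide +kernel⟩

theorem c_pp_001 : CertB 0 536870912 536870912 536870912 740881858 40050571 3 eng mog cd1q0 cd3q1 pd0 false true true .up 0 0 1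
    ndB1q0 ndB3q1 pcB0 Cut.none Ext.none :=
  certB1 (fam := false) (s1 := true) (s2 := true) (a := 0) (b := 0) (c := 1) (cn := .up) (n1 := ndB1q0) (n2 := ndB3q1) (pc := pcB0) (cut := Cut.none) (xt := Ext.none) (P1 := 0) (W1 := 536870912) (P2 := 536870912) (W2 := 536870912) (P3 := 740881858) (W3 := 40050571) (N0 := 3) (En := eng) (mo := mog) (C1 := cd1q0) (C2 := cd3q1) (C3 := pd0)
    rfl (fun _ => rfl) k0_pp_001

noncomputable def cut_pp_011 : Cut := Cut.of [[⟨0, 0, 0, 67108864⟩, ⟨1, 1, 0, 67108864⟩, ⟨2, 1, 0, 67108864⟩]]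

noncomputable def f_pp_011 : ℕ → ℕ → ℕ → ℕ → Bool := onCell 0 536870912 536870912 536870912 740881858 40050571
    (rowB 3 eng mog cd1q0 cd3q1 pd1 1 false true true .pnn 0 1 1 (qsf 0 536870912 536870912 536870912 1) ndB1q0 ndB3q1 pcB1 cut_pp_011 Ext.none)

def k0_pp_011 : ∃ t, chk3 f_pp_011 t 1 1 1 = true :=
  ⟨(b (l 3) (b (l 3) (a (b (l 3) (a (a (b (l 3) (a (l 6) (l 3))) (l 3)) (l 2))) (l 2)))), by decide +kernel⟩

theorem c_pp_011 : CertB 0 536870912 536870912 536870912 740881858 40050571 3 eng mog cd1q0 cd3q1 pd1 false true true .pnn 0 1 1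
    ndB1q0 ndB3q1 pcB1 cut_pp_011 Ext.none :=
  certB1 (fam := false) (s1 := true) (s2 := true) (a := 0) (b := 1) (c := 1) (cn := .pnn) (n1 := ndB1q0) (n2 := ndB3q1) (pc := pcB1) (cut := cut_pp_011) (xt := Ext.none) (P1 := 0) (W1 := 536870912) (P2 := 536870912) (W2 := 536870912) (P3 := 740881858) (W3 := 40050571) (N0 := 3) (En := eng) (mo := mog) (C1 := cd1q0) (C2 := cd3q1) (C3 := pd1)
    rfl (fun _ => rfl) k0_pp_011

noncomputable def f_pp_012 : ℕ → ℕ → ℕ → ℕ → Bool := onCell 0 536870912 536870912 536870912 740881858 40050571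
    (rowB 3 eng mog cd1q0 cd3q2 pd1 1 false true true .pnp 0 1 2 (qsf 0 536870912 1073741824 536870912 1) ndB1q0 ndB3q2 pcB1 Cut.none Ext.none)

def k0_pp_012 : ∃ t, chk3 f_pp_012 t 1 1 1 = true :=
  ⟨(b (l 3) (l 3)), by decide +kernel⟩

theorem c_pp_012 : CertB 0 536870912 1073741824 536870912 740881858 40050571 3 eng mog cd1q0 cd3q2 pd1 false true true .pnp 0 1 2
    ndB1q0 ndB3q2 pcB1 Cut.none Ext.none :=
  certB1 (fam := false) (s1 := true) (s2 := true) (a := 0) (b := 1) (c := 2) (cn := .pnp) (n1 := ndB1q0) (n2 := ndB3q2) (pc := pcB1) (cut := Cut.none) (xt := Ext.none) (P1 := 0) (W1 := 536870912) (P2 := 1073741824) (W2 := 536870912) (P3 := 740881858) (W3 := 40050571) (N0 := 3) (En := eng) (mo := mog) (C1 := cd1q0) (C2 := cd3q2) (C3 := pd1)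
    rfl (fun _ => rfl) k0_pp_012

noncomputable def f_pp_022 : ℕ → ℕ → ℕ → ℕ → Bool := onCell 0 536870912 1073741824 536870912 740881858 40050571
    (rowB 3 eng mog cd1q0 cd3q2 pd2 1 false true true .pp 0 2 2 (qsf 0 536870912 1073741824 536870912 2) ndB1q0 ndB3q2 pcB2 Cut.none Ext.none)

def k0_pp_022 : ∃ t, chk3 f_pp_022 t 1 8 1 = true :=
  ⟨(a (a (l 3) (b (l 3) (a (l 3) (b (l 3) (c (a (l 3) (l 309405000887)) (l 108615386039)))))) (a (b (l 3) (a (b (l 3) (l 229411102743)) (c (l 136532774663) (l 131700913991)))) (b (a (l 3) (l 16423440)) (a (b (l 16405464) (l 16401976)) (l 16421984))))), by decide +kernel⟩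

def k1_pp_022 : ∃ t, chk3 f_pp_022 t 1 9 1 = true :=
  ⟨(a (b (a (a (b (l 3) (b (l 3) (a (a (l 3) (a (b (l 3) (l 16537920)) (l 16541816))) (a (b (l 16543680) (l 16528888)) (b (l 16536232) (l 16521680)))))) (b (a (l 3) (b (l 3) (l 16558608))) (a (b (a (l 16549560) (l 16544072)) (a (l 16523152) (l 16519360))) (b (l 16536496) (a (l 16515824) (l 16512536)))))) (b (a (a (b (l 3) (l 16549784)) (b (l 16546528) (l 16542176))) (a (a (l 16677264) (l 16660880)) (l 16545048))) (a (a (b (l 16530040) (l 16510752)) (b (a (l 16526912) (l 16524136)) (l 16509392))) (a (b (l 16518688) (l 16505672)) (l 16503688))))) (a (a (b (a (a (b (b (a (l 16520440) (l 16524128)) (c (l 16537048) (l 16520216))) (a (c (b (l 16502472) (l 16487656)) (b (l 16484144) (l 16468688))) (b (l 16492432) (l 16476120)))) (b (c (l 16518712) (l 16505320)) (b (l 16488088) (l 16472640)))) (b (a (l 16505624) (l 16499944)) (a (b (l 16482872) (l 16468560)) (l 16473056)))) (a (b (a (a (b (l 16463104)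 (l 16447928)) (l 16453576)) (l 16450952)) (a (a (c (l 16434792) (l 16415008)) (l 16423872)) (a (l 16422752) (l 16421784)))) (a (b (l 16448296) (l 16442800)) (b (l 16448008) (l 16423488))))) (a (b (b (a (l 16496904) (l 16495104)) (l 16472184)) (a (l 16437064) (l 16459360))) (b (b (l 16492472) (l 16471376)) (b (l 16450840) (l 16431248))))) (a (b (a (c (l 16492848) (l 16470928)) (b (l 16493544) (l 16478112))) (a (c (l 16481296) (l 16432856)) (l 16455872))) (b (a (l 16486488) (l 16483472)) (l 16461920))))) (b (a (a (b (b (l 16471360) (l 16474312)) (l 16475272)) (l 16458512)) (a (l 16405336) (l 16384696))) (a (a (l 16460896) (l 16429016)) (a (l 16402312) (l 2))))), by decide +kernel⟩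

def k2_pp_022 : ∃ t, chk3 f_pp_022 t 4 20 1 = true :=
  ⟨(b (a (a (a (b (a (c (l 16404792) (l 16384448)) (l 16394264)) (b (a (l 16372312) (l 16372328)) (a (c (l 16367968) (l 16346800)) (b (l 16361480) (a (l 16354400) (l 16355056)))))) (b (c (l 16423176) (l 16385888)) (a (b (l 16372728) (c (l 16369432) (l 16350552))) (b (l 16374296) (l 16363040))))) (b (a (l 16396104) (l 16399440)) (a (b (l 16377920) (l 16367984)) (l 16378808)))) (a (b (a (l 16403264) (l 16407368)) (a (l 16384568) (l 16389912))) (b (l 16413560) (l 16397144)))) (b (a (a (a (b (b (a (c (l 16357944) (l 16336736)) (l 16391384)) (a (c (l 16352656) (l 16331792)) (l 16344672))) (c (a (a (l 16344928) (l 16345536)) (l 16347872)) (a (a (l 16324168) (l 16325832)) (l 16328120)))) (c (l 16358536) (l 16337088))) (a (c (l 16366816) (l 16342464)) (l 16361496))) (a (a (l 16367712) (l 16373528)) (l 16402488))) (a (a (b (a (a (c (b (l 16338328) (l 16334384)) (l 16316912)) (l 16330168)) (l 16335728))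 (a (b (a (c (c (a (b (l 16335560) (l 16334344)) (l 16337320)) (l 16326768)) (b (l 16312624) (l 16311784))) (c (l 16335864) (l 16315296))) (a (a (b (c (b (b (l 16329368) (b (l 16329672) (l 16330064))) (l 16329552)) (c (l 16336392) (l 16306376))) (l 16318360)) (c (c (l 16355680) (l 16325120)) (l 16310688))) (c (l 16333224) (l 16312736)))) (b (l 16352072) (c (l 16339632) (l 16316808))))) (b (a (l 16342840) (l 16349608)) (b (a (l 16338096) (l 16344768)) (a (l 16335256) (l 16341824))))) (a (b (l 16359112) (b (l 16354176) (l 16351096))) (b (l 16370432) (l 16426672)))))), by decide +kernel⟩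

def k3_pp_022 : ∃ t, chk3 f_pp_022 t 4 21 1 = true :=
  ⟨(a (a (a (b (c (a (b (c (l 16321360) (l 16311296)) (b (l 16300328) (l 16289864))) (l 16310512)) (a (b (c (l 16301208) (l 16291088)) (c (l 16277920) (l 16266336))) (l 16287304))) (c (a (b (b (l 16279576) (l 16269448)) (b (l 16259496) (l 16249704))) (l 16270304)) (a (b (c (l 16255344) (l 16242312)) (a (l 16225144) (l 16227424))) (l 16241784)))) (b (c (l 16317648) (l 16292152)) (c (l 16278856) (l 16248208)))) (b (c (l 16331112) (l 16301688)) (a (l 16294640) (l 16283176)))) (a (c (l 16414576) (a (l 16291656) (l 16298856))) (c (l 16344840) (l 16311104)))), by decide +kernel⟩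

def k4_pp_022 : ∃ t, chk3 f_pp_022 t 5 10 1 = true :=
  ⟨(b (b (a (a (l 16457968) (l 16427720)) (l 16438840)) (b (a (a (l 16393960) (l 16407592)) (l 16421936)) (a (b (l 16391048) (a (l 16376792) (l 16391184))) (l 16409904)))) (a (a (l 16345592) (l 16363912)) (l 16385768))), by decide +kernel⟩

def k5_pp_022 : ∃ t, chk3 f_pp_022 t 2 11 1 = true :=
  ⟨(b (a (a (a (a (c (b (a (b (b (l 16240088) (l 16230624)) (a (l 16214984) (l 16218512))) (l 16232728)) (a (a (b (l 16196960) (l 16179584)) (b (l 16200696) (l 16183536))) (l 16197752))) (b (a (b (a (l 16203168) (l 16205704)) (a (l 16181912) (l 16184704))) (l 16199112)) (c (a (b (l 16172104) (l 16153056)) (l 16169184)) (a (b (l 16153536) (l 16133160)) (l 16149144))))) (c (b (l 16242632) (l 16208944)) (b (l 16207048) (l 16168672)))) (c (a (l 16239072) (l 16251920)) (a (b (l 16217496) (l 16181048)) (l 16210416)))) (a (c (l 16268808) (l 16270976)) (l 16271880))) (a (l 16393032) (l 16354480))) (a (a (a (a (c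 (b (a (c (a (l 16164632) (l 16169000)) (a (l 16144664) (l 16148800))) (l 16165344)) (a (a (b (l 16131368) (l 16116576)) (l 16149520)) (l 16135464))) (b (a (c (a (l 16144840) (l 16127688)) (b (l 16113512) (l 16094592))) (c (l 16133400) (l 16110824))) (a (c (a (l 16089712) (l 16093976)) (b (l 16076392) (l 16058912))) (l 16088016)))) (b (c (l 16177760) (l 16133056)) (c (l 16148784) (a (l 16096176) (l 16104624))))) (c (a (l 16178952) (l 16193864)) (a (b (l 16147624) (l 16117928)) (l 16149200)))) (a (c (l 16214776) (l 16174176)) (l 16223840))) (a (l 16270896) (l 16329272)))), by decide +kernel⟩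

def k6_pp_022 : ∃ t, chk3 f_pp_022 t 3 5 1 = true :=
  ⟨(b (b (b (a (l 16428944) (l 16388296)) (a (b (l 16420112) (a (l 16416320) (l 16399248))) (l 2))) (a (l 16527384) (l 2))) (a (a (l 16378896) (l 16396896)) (l 2))), by decide +kernel⟩

def k7_pp_022 : ∃ t, chk3 f_pp_022 t 1 3 1 = true :=
  ⟨(a (b (a (b (a (a (b (a (b (c (a (b (a (l 16102416) (l 16107352)) (a (l 16088888) (l 16093936))) (l 16107752)) (a (b (l 16076312) (a (l 16037552) (l 16042272))) (l 16056968))) (b (a (c (a (l 16075728) (l 16080688)) (a (l 16023000) (l 16028280))) (l 16062808)) (c (l 16070384) (l 16018056)))) (b (c (l 16121456) (l 16071688)) (b (l 16077864) (l 16065720)))) (b (a (b (c (l 16058328) (l 16005728)) (c (l 16046936) (l 15994008))) (l 16048680)) (a (a (c (l 16046368) (l 15992368)) (l 16010672)) (l 16028120)))) (a (b (b (l 16115784) (l 16091736)) (l 16060224)) (b (l 16122280) (l 16081840)))) (b (a (l 16191608) (l 16184440)) (a (l 16113336) (l 16153448)))) (a (a (a (b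 (b (a (c (l 16006248) (l 15951232)) (l 15991576)) (a (c (l 15989712) (l 15933424)) (l 15974920))) (b (c (l 15982408) (l 15924976)) (b (l 15986456) (l 15938992)))) (b (b (l 16009984) (l 15994232)) (b (l 15980816) (l 15969680)))) (b (a (l 16026480) (l 16050584)) (l 16015128))) (a (b (l 16085736) (l 16066504)) (l 16122016)))) (b (a (b (l 16240264) (l 16217056)) (l 16491472)) (a (l 16258392) (l 16287976)))) (a (a (b (a (b (a (a (b (l 15924432) (l 15916544)) (l 15977032)) (l 15957128)) (a (a (b (l 15910856) (l 15907296)) (l 15924536)) (l 15947824))) (b (l 16000168) (l 15993288))) (a (b (a (b (l 15934928) (l 15914592)) (l 15946512)) (a (b (l 15917112) (l 15921440)) (l 15952608))) (b (l 15993968) (l 16001632)))) (b (a (l 16052384) (l 16106368)) (a (l 16058624) (l 2)))) (b (a (l 16189816) (l 2)) (l 2)))) (b (a (b (a (l 16426696) (l 2)) (l 2)) (l 2)) (l 2))), by decide +kernel⟩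

theorem s8_pp_022 : ∃ t, chk3 f_pp_022 t 4 10 1 = true := ex3_b k2_pp_022 k3_pp_022

theorem s9_pp_022 : ∃ t, chk3 f_pp_022 t 2 10 1 = true := ex3_a s8_pp_022 k4_pp_022

theorem s10_pp_022 : ∃ t, chk3 f_pp_022 t 2 5 1 = true := ex3_b s9_pp_022 k5_pp_022

theorem s11_pp_022 : ∃ t, chk3 f_pp_022 t 1 5 1 = true := ex3_a s10_pp_022 k6_pp_022

theorem s12_pp_022 : ∃ t, chk3 f_pp_022 t 1 4 1 = true := ex3_b k0_pp_022 k1_pp_022

theorem s13_pp_022 : ∃ t, chk3 f_pp_022 t 1 2 1 = true := ex3_b s12_pp_022 s11_pp_022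

theorem s14_pp_022 : ∃ t, chk3 f_pp_022 t 1 1 1 = true := ex3_b s13_pp_022 k7_pp_022

theorem c_pp_022 : CertB 0 536870912 1073741824 536870912 740881858 40050571 3 eng mog cd1q0 cd3q2 pd2 false true true .pp 0 2 2
    ndB1q0 ndB3q2 pcB2 Cut.none Ext.none :=
  certB1 (fam := false) (s1 := true) (s2 := true) (a := 0) (b := 2) (c := 2) (cn := .pp) (n1 := ndB1q0) (n2 := ndB3q2) (pc := pcB2) (cut := Cut.none) (xt := Ext.none) (P1 := 0) (W1 := 536870912) (P2 := 1073741824) (W2 := 536870912) (P3 := 740881858) (W3 := 40050571) (N0 := 3) (En := eng) (mo := mog) (C1 := cd1q0) (C2 := cd3q2) (C3 := pd2)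
    rfl (fun _ => rfl) s14_pp_022

noncomputable def f_pp_023 : ℕ → ℕ → ℕ → ℕ → Bool := onCell 1073741824 536870912 0 1230186008 740881858 40050571
    (rowB 3 eng mog cd1q0 cd3q3 pd2 2 false true true .up 0 2 3 (qsf 0 536870912 0 1230186008 2) ndB1q0 ndB3q3 pcB2 Cut.none Ext.none)

def k0_pp_023 : ∃ t, chk3 f_pp_023 t 1 1 1 = true :=
  ⟨(b (a (l 2) (a (l 2) (b (l 16573040) (l 16606040)))) (b (a (b (l 2) (a (l 2) (a (l 2) (b (l 2) (l 16481328))))) (b (a (a (l 2) (l 16545568)) (l 16511600)) (a (b (a (l 16534080) (l 16502552)) (a (l 16460976) (l 16435296))) (b (l 16439648) (l 16402696))))) (a (a (b (l 2) (b (a (l 2) (a (l 16393128) (l 16397984))) (a (a (l 16362032) (l 16370072)) (a (l 16384112) (l 16391504))))) (b (b (a (a (l 2) (l 16449192)) (l 16447944)) (a (a (a (l 16428416) (a (l 16429520) (l 16428064))) (l 16429032)) (l 16421528))) (a (a (a (l 16393568) (a (l 16391528) (l 16449872))) (l 16379560)) (b (l 16376152) (l 16392120))))) (b (a (b (a (l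 16399672) (l 16409464)) (a (l 16378672) (l 16387592))) (b (l 16365256) (b (l 16313696) (l 16443352)))) (a (a (b (l 16390952) (l 16336568)) (b (l 16339016) (l 16247040))) (b (a (l 16254728) (l 16155696)) (a (b (l 16172904) (l 16110920)) (b (l 16070112) (a (l 16032656) (b (l 15997888) (l 15964640))))))))))), by decide +kernel⟩

theorem c_pp_023 : CertB 0 536870912 0 1230186008 740881858 40050571 3 eng mog cd1q0 cd3q3 pd2 false true true .up 0 2 3
    ndB1q0 ndB3q3 pcB2 Cut.none Ext.none :=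
  certB2 (fam := false) (s1 := true) (s2 := true) (a := 0) (b := 2) (c := 3) (cn := .up) (n1 := ndB1q0) (n2 := ndB3q3) (pc := pcB2) (cut := Cut.none) (xt := Ext.none) (P1 := 0) (W1 := 536870912) (P2 := 0) (W2 := 1230186008) (P3 := 740881858) (W3 := 40050571) (N0 := 3) (En := eng) (mo := mog) (C1 := cd1q0) (C2 := cd3q3) (C3 := pd2)
    rfl (fun _ => rfl) k0_pp_023

noncomputable def f_pp_033 : ℕ → ℕ → ℕ → ℕ → Bool := onCell 1610612736 536870912 0 1230186008 740881858 40050571
    (rowB 3 eng mog cd1q0 cd3q3 pd3 2 false true true .pnn 0 3 3 (qsf 0 536870912 0 1230186008 3) ndB1q0 ndB3q3 pcB3 Cut.none Ext.none)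

def k0_pp_033 : ∃ t, chk3 f_pp_033 t 1 1 1 = true :=
  ⟨(b (b (a (a (l 16540472) (a (l 16485264) (l 4))) (l 4)) (a (a (a (l 16538248) (l 16469976)) (a (l 16407016) (l 16342616))) (a (a (b (l 4) (l 104923085383)) (l 4)) (l 4)))) (b (a (b (a (a (l 16441936) (l 16341672)) (a (l 16250600) (l 16164880))) (a (b (l 16297336) (a (l 16330200) (l 16194848))) (a (b (l 16127608) (b (l 16092352) (l 16072704))) (b (l 16042120) (b (l 16014312) (l 267393613671)))))) (b (a (a (a (l 16103768) (l 16068192)) (a (b (l 4) (l 16000784)) (l 4))) (a (l 4) (l 1))) (a (a (b (a (l 15982856) (l 366715188311)) (b (l 394632503063) (l 619580650567))) (b (a (l 722660600567) (l 1)) (l 1))) (l 1)))) (a (b (a (b (a (l 16261616) (l 16119968)) (a (b (l 16187248) (l 16142240)) (b (l 16040768) (l 15999280)))) (a (b (a (l 16022608) (b (l 15999880) (l 15938592))) (b (a (l 15935512) (l 273835884919)) (a (l 15892232) (l 525628279463)))) (b (a (l 540660768423) (l 559988027623)) (l 1)))) (a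 (b (a (b (l 16094576) (a (l 16068800) (l 16006112))) (b (a (l 15991776) (l 274909749783)) (a (b (l 317322661655) (l 332354949511)) (b (l 464425112631) (l 1))))) (a (b (a (l 16004240) (b (l 328060167143) (l 324838757799))) (a (b (l 316248873367) (l 326986222647)) (b (l 333965499111) (l 1)))) (b (a (b (l 342555438391) (l 1)) (l 1)) (l 1)))) (b (a (a (b (l 499321650215) (l 1)) (l 1)) (l 1)) (l 1)))) (l 1)))), by decide +kernel⟩

theorem c_pp_033 : CertB 0 536870912 0 1230186008 740881858 40050571 3 eng mog cd1q0 cd3q3 pd3 false true true .pnn 0 3 3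
    ndB1q0 ndB3q3 pcB3 Cut.none Ext.none :=
  certB2 (fam := false) (s1 := true) (s2 := true) (a := 0) (b := 3) (c := 3) (cn := .pnn) (n1 := ndB1q0) (n2 := ndB3q3) (pc := pcB3) (cut := Cut.none) (xt := Ext.none) (P1 := 0) (W1 := 536870912) (P2 := 0) (W2 := 1230186008) (P3 := 740881858) (W3 := 40050571) (N0 := 3) (En := eng) (mo := mog) (C1 := cd1q0) (C2 := cd3q3) (C3 := pd3)
    rfl (fun _ => rfl) k0_pp_033

noncomputable def f_pp_101 : ℕ → ℕ → ℕ → ℕ → Bool := onCell 536870912 536870912 536870912 536870912 740881858 40050571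
    (rowB 3 eng mog cd1q1 cd3q1 pd0 0 false true true .npn 1 0 1 (qsf 536870912 536870912 536870912 536870912 0) ndB1q1 ndB3q1 pcB0 Cut.none Ext.none)

def k0_pp_101 : ∃ t, chk3 f_pp_101 t 1 1 1 = true :=
  ⟨(l 3), by decide +kernel⟩

theorem c_pp_101 : CertB 536870912 536870912 536870912 536870912 740881858 40050571 3 eng mog cd1q1 cd3q1 pd0 false true true .npn 1 0 1
    ndB1q1 ndB3q1 pcB0 Cut.none Ext.none :=
  certB0 (fam := false) (s1 := true) (s2 := true) (a := 1) (b := 0) (c := 1) (cn := .npn) (n1 := ndB1q1) (n2 := ndB3q1) (pc := pcB0) (cut := Cut.none) (xt := Ext.none) (P1 := 536870912) (W1 := 536870912) (P2 := 536870912) (W2 := 536870912) (P3 := 740881858) (W3 := 40050571) (N0 := 3) (En := eng) (mo := mog) (C1 := cd1q1) (C2 := cd3q1) (C3 := pd0)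
    rfl k0_pp_101

noncomputable def f_pp_102 : ℕ → ℕ → ℕ → ℕ → Bool := onCell 536870912 536870912 0 536870912 740881858 40050571
    (rowB 3 eng mog cd1q1 cd3q2 pd0 1 false true true .npp 1 0 2 (qsf 536870912 536870912 1073741824 536870912 0) ndB1q1 ndB3q2 pcB0 Cut.none Ext.none)

def k0_pp_102 : ∃ t, chk3 f_pp_102 t 1 1 1 = true :=
  ⟨(l 3), by decide +kernel⟩

theorem c_pp_102 : CertB 536870912 536870912 1073741824 536870912 740881858 40050571 3 eng mog cd1q1 cd3q2 pd0 false true true .npp 1 0 2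
    ndB1q1 ndB3q2 pcB0 Cut.none Ext.none :=
  certB1 (fam := false) (s1 := true) (s2 := true) (a := 1) (b := 0) (c := 2) (cn := .npp) (n1 := ndB1q1) (n2 := ndB3q2) (pc := pcB0) (cut := Cut.none) (xt := Ext.none) (P1 := 536870912) (W1 := 536870912) (P2 := 1073741824) (W2 := 536870912) (P3 := 740881858) (W3 := 40050571) (N0 := 3) (En := eng) (mo := mog) (C1 := cd1q1) (C2 := cd3q2) (C3 := pd0)
    rfl (fun _ => rfl) k0_pp_102

noncomputable def f_pp_112 : ℕ → ℕ → ℕ → ℕ → Bool := onCell 536870912 536870912 1073741824 536870912 740881858 40050571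
    (rowB 3 eng mog cd1q1 cd3q2 pd1 2 false true true .dn 1 1 2 (qsf 536870912 536870912 1073741824 536870912 1) ndB1q1 ndB3q2 pcB1 Cut.none Ext.none)

def k0_pp_112 : ∃ t, chk3 f_pp_112 t 1 1 1 = true :=
  ⟨(a (l 3) (l 3)), by decide +kernel⟩

theorem c_pp_112 : CertB 536870912 536870912 1073741824 536870912 740881858 40050571 3 eng mog cd1q1 cd3q2 pd1 false true true .dn 1 1 2
    ndB1q1 ndB3q2 pcB1 Cut.none Ext.none :=
  certB2 (fam := false) (s1 := true) (s2 := true) (a := 1) (b := 1) (c := 2) (cn := .dn) (n1 := ndB1q1) (n2 := ndB3q2) (pc := pcB1) (cut := Cut.none) (xt := Ext.none) (P1 := 536870912) (W1 := 536870912) (P2 := 1073741824) (W2 := 536870912) (P3 := 740881858) (W3 := 40050571) (N0 := 3) (En := eng) (mo := mog) (C1 := cd1q1) (C2 := cd3q2) (C3 := pd1)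
    rfl (fun _ => rfl) k0_pp_112

noncomputable def f_pp_113 : ℕ → ℕ → ℕ → ℕ → Bool := onCell 536870912 536870912 0 1230186008 740881858 40050571
    (rowB 3 eng mog cd1q1 cd3q3 pd1 2 false true true .nn 1 1 3 (qsf 536870912 536870912 0 1230186008 1) ndB1q1 ndB3q3 pcB1 Cut.none Ext.none)

def k0_pp_113 : ∃ t, chk3 f_pp_113 t 1 1 1 = true :=
  ⟨(b (a (l 2) (a (l 2) (a (b (l 2) (l 3)) (b (a (l 2) (l 16781192)) (a (b (l 16781552) (l 257328540743)) (b (l 16825304) (l 16867648))))))) (b (a (l 3) (a (l 3) (a (l 3) (a (b (b (l 254107387559) (l 702931491271)) (l 3)) (b (b (l 16905664) (l 16932520)) (b (b (l 16885680) (l 16928192)) (b (l 16895024) (l 139217266871)))))))) (a (b (l 3) (l 3)) (a (l 3) (b (a (l 3) (a (l 3) (b (b (l 135459192343) (l 131701102295)) (b (l 190219989927) (l 3))))) (l 3)))))), by decide +kernel⟩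

theorem c_pp_113 : CertB 536870912 536870912 0 1230186008 740881858 40050571 3 eng mog cd1q1 cd3q3 pd1 false true true .nn 1 1 3
    ndB1q1 ndB3q3 pcB1 Cut.none Ext.none :=
  certB2 (fam := false) (s1 := true) (s2 := true) (a := 1) (b := 1) (c := 3) (cn := .nn) (n1 := ndB1q1) (n2 := ndB3q3) (pc := pcB1) (cut := Cut.none) (xt := Ext.none) (P1 := 536870912) (W1 := 536870912) (P2 := 0) (W2 := 1230186008) (P3 := 740881858) (W3 := 40050571) (N0 := 3) (En := eng) (mo := mog) (C1 := cd1q1) (C2 := cd3q3) (C3 := pd1)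
    rfl (fun _ => rfl) k0_pp_113

noncomputable def f_pp_123 : ℕ → ℕ → ℕ → ℕ → Bool := onCell 1073741824 536870912 0 1230186008 740881858 40050571
    (rowB 3 eng mog cd1q1 cd3q3 pd2 2 false true true .npn 1 2 3 (qsf 536870912 536870912 0 1230186008 2) ndB1q1 ndB3q3 pcB2 Cut.none Ext.none)

def k0_pp_123 : ∃ t, chk3 f_pp_123 t 1 1 1 = true :=
  ⟨(b (a (a (a (b (b (l 16438528) (l 16649712)) (b (l 16688112) (l 16824840))) (b (l 16587640) (a (l 16757640) (l 16640856)))) (a (b (l 16567904) (a (a (l 16530344) (b (l 16595912) (a (l 16631368) (l 16629344)))) (b (l 16593264) (l 16623632)))) (b (l 16574240) (l 16600336)))) (a (b (l 16591432) (l 16770176)) (b (l 16620840) (l 16681248)))) (b (a (b (a (a (a (l 16824856) (l 16673064)) (a (l 16731696) (l 16688880))) (a (a (a (l 16676040) (a (l 16672400) (l 16670824))) (l 16661320)) (l 16641816))) (a (a (a (b (l 16851960) (b (l 16808208) (l 16770912))) (b (l 16800272) (c (l 16731000) (l 16734104)))) (b (a (l 16751240)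 (l 16705640)) (a (l 16680648) (l 16615976)))) (a (a (a (b (l 16687504) (l 16587016)) (b (a (l 16680584) (l 16675720)) (a (l 16577448) (l 16571344)))) (b (l 16660528) (l 16561512))) (b (l 16622448) (l 16554248))))) (b (a (l 16615240) (l 16616704)) (a (b (l 16600160) (l 16668408)) (l 1)))) (a (a (b (a (b (a (b (l 16761248) (l 16685968)) (l 16624760)) (a (b (l 16608696) (l 16531224)) (b (l 16543432) (l 16489944)))) (b (a (l 16562912) (l 16525904)) (a (b (l 16508344) (l 16472136)) (l 16518504)))) (a (a (b (l 16590168) (l 16390576)) (b (l 16431112) (l 16401880))) (a (b (l 16434800) (l 16425296)) (l 16590096)))) (b (a (a (a (b (l 16516024) (l 16479248)) (b (a (l 16513872) (l 16511712)) (a (l 16481864) (l 16482088)))) (b (l 16512256) (l 16489768))) (b (l 16524720) (l 1))) (a (a (a (l 16459960) (l 1)) (l 1)) (l 1)))) (l 1)))), by decide +kernel⟩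

theorem c_pp_123 : CertB 536870912 536870912 0 1230186008 740881858 40050571 3 eng mog cd1q1 cd3q3 pd2 false true true .npn 1 2 3
    ndB1q1 ndB3q3 pcB2 Cut.none Ext.none :=
  certB2 (fam := false) (s1 := true) (s2 := true) (a := 1) (b := 2) (c := 3) (cn := .npn) (n1 := ndB1q1) (n2 := ndB3q3) (pc := pcB2) (cut := Cut.none) (xt := Ext.none) (P1 := 536870912) (W1 := 536870912) (P2 := 0) (W2 := 1230186008) (P3 := 740881858) (W3 := 40050571) (N0 := 3) (En := eng) (mo := mog) (C1 := cd1q1) (C2 := cd3q3) (C3 := pd2)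
    rfl (fun _ => rfl) k0_pp_123

noncomputable def f_pp_133 : ℕ → ℕ → ℕ → ℕ → Bool := onCell 1610612736 536870912 0 1230186008 740881858 40050571
    (rowB 3 eng mog cd1q1 cd3q3 pd3 2 false true true .dn 1 3 3 (qsf 536870912 536870912 0 1230186008 3) ndB1q1 ndB3q3 pcB3 Cut.none Ext.none)

def k0_pp_133 : ∃ t, chk3 f_pp_133 t 1 1 1 = true :=
  ⟨(b (b (a (a (l 16626056) (l 1)) (l 1)) (l 1)) (l 1)), by decide +kernel⟩

theorem c_pp_133 : CertB 536870912 536870912 0 1230186008 740881858 40050571 3 eng mog cd1q1 cd3q3 pd3 false true true .dn 1 3 3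
    ndB1q1 ndB3q3 pcB3 Cut.none Ext.none :=
  certB2 (fam := false) (s1 := true) (s2 := true) (a := 1) (b := 3) (c := 3) (cn := .dn) (n1 := ndB1q1) (n2 := ndB3q3) (pc := pcB3) (cut := Cut.none) (xt := Ext.none) (P1 := 536870912) (W1 := 536870912) (P2 := 0) (W2 := 1230186008) (P3 := 740881858) (W3 := 40050571) (N0 := 3) (En := eng) (mo := mog) (C1 := cd1q1) (C2 := cd3q3) (C3 := pd3)
    rfl (fun _ => rfl) k0_pp_133

noncomputable def f_pp_202_a : ℕ → ℕ → ℕ → ℕ → Bool := onCell 0 536870912 1073741824 536870912 740881858 40050571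
    (rowB 3 eng mog cd1q2a cd3q2 pd0 0 false true true .pp 2 0 2 (qsf 0 536870912 1073741824 536870912 0) ndB1q2a ndB3q2 pcB0 Cut.none Ext.none)

def k0_pp_202_a : ∃ t, chk3 f_pp_202_a t 1 1 1 = true :=
  ⟨(l 3), by decide +kernel⟩

theorem c_pp_202_a : CertB 0 536870912 1073741824 536870912 740881858 40050571 3 eng mog cd1q2a cd3q2 pd0 false true true .pp 2 0 2
    ndB1q2a ndB3q2 pcB0 Cut.none Ext.none :=
  certB0 (fam := false) (s1 := true) (s2 := true) (a := 2) (b := 0) (c := 2) (cn := .pp) (n1 := ndB1q2a) (n2 := ndB3q2) (pc := pcB0) (cut := Cut.none) (xt := Ext.none) (P1 := 0) (W1 := 536870912) (P2 := 1073741824) (W2 := 536870912) (P3 := 740881858) (W3 := 40050571) (N0 := 3) (En := eng) (mo := mog) (C1 := cd1q2a) (C2 := cd3q2) (C3 := pd0)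
    rfl k0_pp_202_a

noncomputable def f_pp_202_b : ℕ → ℕ → ℕ → ℕ → Bool := onCell 1239849684 370763052 1073741824 536870912 740881858 40050571
    (rowB 3 eng mog cd1q2b cd3q2 pd0 0 false true true .pp 2 0 2 (qsf 1239849684 370763052 1073741824 536870912 0) ndB1q2b ndB3q2 pcB0 Cut.none Ext.none)

def k0_pp_202_b : ∃ t, chk3 f_pp_202_b t 1 1 1 = true :=
  ⟨(l 3), by decide +kernel⟩

theorem c_pp_202_b : CertB 1239849684 370763052 1073741824 536870912 740881858 40050571 3 eng mog cd1q2b cd3q2 pd0 false true true .pp 2 0 2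
    ndB1q2b ndB3q2 pcB0 Cut.none Ext.none :=
  certB0 (fam := false) (s1 := true) (s2 := true) (a := 2) (b := 0) (c := 2) (cn := .pp) (n1 := ndB1q2b) (n2 := ndB3q2) (pc := pcB0) (cut := Cut.none) (xt := Ext.none) (P1 := 1239849684) (W1 := 370763052) (P2 := 1073741824) (W2 := 536870912) (P3 := 740881858) (W3 := 40050571) (N0 := 3) (En := eng) (mo := mog) (C1 := cd1q2b) (C2 := cd3q2) (C3 := pd0)
    rfl k0_pp_202_b

noncomputable def f_pp_203_a : ℕ → ℕ → ℕ → ℕ → Bool := onCell 0 536870912 0 1230186008 740881858 40050571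
    (rowB 3 eng mog cd1q2a cd3q3 pd0 0 false true true .up 2 0 3 (qsf 0 536870912 0 1230186008 0) ndB1q2a ndB3q3 pcB0 Cut.none Ext.none)

def k0_pp_203_a : ∃ t, chk3 f_pp_203_a t 1 1 1 = true :=
  ⟨(b (l 2) (l 3)), by decide +kernel⟩

theorem c_pp_203_a : CertB 0 536870912 0 1230186008 740881858 40050571 3 eng mog cd1q2a cd3q3 pd0 false true true .up 2 0 3
    ndB1q2a ndB3q3 pcB0 Cut.none Ext.none :=
  certB0 (fam := false) (s1 := true) (s2 := true) (a := 2) (b := 0) (c := 3) (cn := .up) (n1 := ndB1q2a) (n2 := ndB3q3) (pc := pcB0) (cut := Cut.none) (xt := Ext.none) (P1 := 0) (W1 := 536870912) (P2 := 0) (W2 := 1230186008) (P3 := 740881858) (W3 := 40050571) (N0 := 3) (En := eng) (mo := mog) (C1 := cd1q2a) (C2 := cd3q3) (C3 := pd0)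
    rfl k0_pp_203_a

noncomputable def f_pp_203_b : ℕ → ℕ → ℕ → ℕ → Bool := onCell 1239849684 370763052 0 1230186008 740881858 40050571
    (rowB 3 eng mog cd1q2b cd3q3 pd0 0 false true true .up 2 0 3 (qsf 1239849684 370763052 0 1230186008 0) ndB1q2b ndB3q3 pcB0 Cut.none Ext.none)

def k0_pp_203_b : ∃ t, chk3 f_pp_203_b t 1 1 1 = true :=
  ⟨(b (l 3) (l 3)), by decide +kernel⟩

theorem c_pp_203_b : CertB 1239849684 370763052 0 1230186008 740881858 40050571 3 eng mog cd1q2b cd3q3 pd0 false true true .up 2 0 3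
    ndB1q2b ndB3q3 pcB0 Cut.none Ext.none :=
  certB0 (fam := false) (s1 := true) (s2 := true) (a := 2) (b := 0) (c := 3) (cn := .up) (n1 := ndB1q2b) (n2 := ndB3q3) (pc := pcB0) (cut := Cut.none) (xt := Ext.none) (P1 := 1239849684) (W1 := 370763052) (P2 := 0) (W2 := 1230186008) (P3 := 740881858) (W3 := 40050571) (N0 := 3) (En := eng) (mo := mog) (C1 := cd1q2b) (C2 := cd3q3) (C3 := pd0)
    rfl k0_pp_203_b

noncomputable def cut_pp_213_a : Cut := Cut.of [[⟨0, 1, 0, 67108864⟩, ⟨1, 1, 0, 67108864⟩, ⟨2, 2, 0, 16777216⟩]]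

noncomputable def f_pp_213_a : ℕ → ℕ → ℕ → ℕ → Bool := onCell 0 536870912 0 1230186008 740881858 40050571
    (rowB 3 eng mog cd1q2a cd3q3 pd1 0 false true true .pnn 2 1 3 (qsf 0 536870912 0 1230186008 1) ndB1q2a ndB3q3 pcB1 cut_pp_213_a Ext.none)

def k0_pp_213_a : ∃ t, chk3 f_pp_213_a t 1 1 1 = true :=
  ⟨(b (a (l 3) (b (a (l 3) (a (l 3) (b (l 6) (l 3)))) (l 3))) (l 3)), by decide +kernel⟩

theorem c_pp_213_a : CertB 0 536870912 0 1230186008 740881858 40050571 3 eng mog cd1q2a cd3q3 pd1 false true true .pnn 2 1 3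
    ndB1q2a ndB3q3 pcB1 cut_pp_213_a Ext.none :=
  certB0 (fam := false) (s1 := true) (s2 := true) (a := 2) (b := 1) (c := 3) (cn := .pnn) (n1 := ndB1q2a) (n2 := ndB3q3) (pc := pcB1) (cut := cut_pp_213_a) (xt := Ext.none) (P1 := 0) (W1 := 536870912) (P2 := 0) (W2 := 1230186008) (P3 := 740881858) (W3 := 40050571) (N0 := 3) (En := eng) (mo := mog) (C1 := cd1q2a) (C2 := cd3q3) (C3 := pd1)
    rfl k0_pp_213_a

noncomputable def cut_pp_213_b : Cut := Cut.of [[⟨0, 1, 0, 67108864⟩, ⟨1, 1, 0, 67108864⟩, ⟨2, 2, 0, 16777216⟩]]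

noncomputable def f_pp_213_b : ℕ → ℕ → ℕ → ℕ → Bool := onCell 1239849684 370763052 0 1230186008 740881858 40050571
    (rowB 3 eng mog cd1q2b cd3q3 pd1 0 false true true .pnn 2 1 3 (qsf 1239849684 370763052 0 1230186008 1) ndB1q2b ndB3q3 pcB1 cut_pp_213_b Ext.none)

def k0_pp_213_b : ∃ t, chk3 f_pp_213_b t 1 1 1 = true :=
  ⟨(b (l 3) (l 3)), by decide +kernel⟩

theorem c_pp_213_b : CertB 1239849684 370763052 0 1230186008 740881858 40050571 3 eng mog cd1q2b cd3q3 pd1 false true true .pnn 2 1 3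
    ndB1q2b ndB3q3 pcB1 cut_pp_213_b Ext.none :=
  certB0 (fam := false) (s1 := true) (s2 := true) (a := 2) (b := 1) (c := 3) (cn := .pnn) (n1 := ndB1q2b) (n2 := ndB3q3) (pc := pcB1) (cut := cut_pp_213_b) (xt := Ext.none) (P1 := 1239849684) (W1 := 370763052) (P2 := 0) (W2 := 1230186008) (P3 := 740881858) (W3 := 40050571) (N0 := 3) (En := eng) (mo := mog) (C1 := cd1q2b) (C2 := cd3q3) (C3 := pd1)
    rfl k0_pp_213_b

noncomputable def f_pp_303 : ℕ → ℕ → ℕ → ℕ → Bool := onCell 1610612736 536870912 0 1230186008 740881858 40050571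
    (rowB 3 eng mog cd1q3 cd3q3 pd0 0 false true true .npn 3 0 3 (qsf 1610612736 536870912 0 1230186008 0) ndB1q3 ndB3q3 pcB0 Cut.none Ext.none)

def k0_pp_303 : ∃ t, chk3 f_pp_303 t 1 1 1 = true :=
  ⟨(b (l 3) (l 3)), by decide +kernel⟩

theorem c_pp_303 : CertB 1610612736 536870912 0 1230186008 740881858 40050571 3 eng mog cd1q3 cd3q3 pd0 false true true .npn 3 0 3
    ndB1q3 ndB3q3 pcB0 Cut.none Ext.none :=
  certB0 (fam := false) (s1 := true) (s2 := true) (a := 3) (b := 0) (c := 3) (cn := .npn) (n1 := ndB1q3) (n2 := ndB3q3) (pc := pcB0) (cut := Cut.none) (xt := Ext.none) (P1 := 1610612736) (W1 := 536870912) (P2 := 0) (W2 := 1230186008) (P3 := 740881858) (W3 := 40050571) (N0 := 3) (En := eng) (mo := mog) (C1 := cd1q3) (C2 := cd3q3) (C3 := pd0)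
    rfl k0_pp_303

noncomputable def f_pp_313 : ℕ → ℕ → ℕ → ℕ → Bool := onCell 1610612736 536870912 0 1230186008 740881858 40050571
    (rowB 3 eng mog cd1q3 cd3q3 pd1 0 false true true .dn 3 1 3 (qsf 1610612736 536870912 0 1230186008 1) ndB1q3 ndB3q3 pcB1 Cut.none Ext.none)

def k0_pp_313 : ∃ t, chk3 f_pp_313 t 1 1 1 = true :=
  ⟨(b (l 3) (l 1)), by decide +kernel⟩

theorem c_pp_313 : CertB 1610612736 536870912 0 1230186008 740881858 40050571 3 eng mog cd1q3 cd3q3 pd1 false true true .dn 3 1 3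
    ndB1q3 ndB3q3 pcB1 Cut.none Ext.none :=
  certB0 (fam := false) (s1 := true) (s2 := true) (a := 3) (b := 1) (c := 3) (cn := .dn) (n1 := ndB1q3) (n2 := ndB3q3) (pc := pcB1) (cut := Cut.none) (xt := Ext.none) (P1 := 1610612736) (W1 := 536870912) (P2 := 0) (W2 := 1230186008) (P3 := 740881858) (W3 := 40050571) (N0 := 3) (En := eng) (mo := mog) (C1 := cd1q3) (C2 := cd3q3) (C3 := pd1)
    rfl k0_pp_313

noncomputable def f_pm_001 : ℕ → ℕ → ℕ → ℕ → Bool := onCell 0 536870912 536870912 536870912 740881858 40050571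
    (rowB 3 eng mog cd1q0 cd3q1 pd0 0 false true false .up 0 0 1 (qsf 0 536870912 536870912 536870912 0) ndB1q0 ndB3q1 pcB0 Cut.none Ext.none)

def k0_pm_001 : ∃ t, chk3 f_pm_001 t 1 1 1 = true :=
  ⟨(l 4), by decide +kernel⟩

theorem c_pm_001 : CertB 0 536870912 536870912 536870912 740881858 40050571 3 eng mog cd1q0 cd3q1 pd0 false true false .up 0 0 1
    ndB1q0 ndB3q1 pcB0 Cut.none Ext.none :=
  certB0 (fam := false) (s1 := true) (s2 := false) (a := 0) (b := 0) (c := 1) (cn := .up) (n1 := ndB1q0) (n2 := ndB3q1) (pc := pcB0) (cut := Cut.none) (xt := Ext.none) (P1 := 0) (W1 := 536870912) (P2 := 536870912) (W2 := 536870912) (P3 := 740881858) (W3 := 40050571) (N0 := 3) (En := eng) (mo := mog) (C1 := cd1q0) (C2 := cd3q1) (C3 := pd0)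
    rfl k0_pm_001

noncomputable def f_pm_011 : ℕ → ℕ → ℕ → ℕ → Bool := onCell 0 536870912 536870912 536870912 740881858 40050571
    (rowB 3 eng mog cd1q0 cd3q1 pd1 0 false true false .pnn 0 1 1 (qsf 0 536870912 536870912 536870912 1) ndB1q0 ndB3q1 pcB1 Cut.none Ext.none)

def k0_pm_011 : ∃ t, chk3 f_pm_011 t 1 1 1 = true :=
  ⟨(l 4), by decide +kernel⟩

theorem c_pm_011 : CertB 0 536870912 536870912 536870912 740881858 40050571 3 eng mog cd1q0 cd3q1 pd1 false true false .pnn 0 1 1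
    ndB1q0 ndB3q1 pcB1 Cut.none Ext.none :=
  certB0 (fam := false) (s1 := true) (s2 := false) (a := 0) (b := 1) (c := 1) (cn := .pnn) (n1 := ndB1q0) (n2 := ndB3q1) (pc := pcB1) (cut := Cut.none) (xt := Ext.none) (P1 := 0) (W1 := 536870912) (P2 := 536870912) (W2 := 536870912) (P3 := 740881858) (W3 := 40050571) (N0 := 3) (En := eng) (mo := mog) (C1 := cd1q0) (C2 := cd3q1) (C3 := pd1)
    rfl k0_pm_011

noncomputable def f_pm_012 : ℕ → ℕ → ℕ → ℕ → Bool := onCell 0 536870912 1073741824 536870912 740881858 40050571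
    (rowB 3 eng mog cd1q0 cd3q2 pd1 0 false true false .pnp 0 1 2 (qsf 0 536870912 1073741824 536870912 1) ndB1q0 ndB3q2 pcB1 Cut.none Ext.none)

def k0_pm_012 : ∃ t, chk3 f_pm_012 t 1 1 1 = true :=
  ⟨(a (l 4) (b (l 4) (l 4))), by decide +kernel⟩

theorem c_pm_012 : CertB 0 536870912 1073741824 536870912 740881858 40050571 3 eng mog cd1q0 cd3q2 pd1 false true false .pnp 0 1 2
    ndB1q0 ndB3q2 pcB1 Cut.none Ext.none :=
  certB0 (fam := false) (s1 := true) (s2 := false) (a := 0) (b := 1) (c := 2) (cn := .pnp) (n1 := ndB1q0) (n2 := ndB3q2) (pc := pcB1) (cut := Cut.none) (xt := Ext.none) (P1 := 0) (W1 := 536870912) (P2 := 1073741824) (W2 := 536870912) (P3 := 740881858) (W3 := 40050571) (N0 := 3) (En := eng) (mo := mog) (C1 := cd1q0) (C2 := cd3q2) (C3 := pd1)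
    rfl k0_pm_012

noncomputable def f_pm_022 : ℕ → ℕ → ℕ → ℕ → Bool := onCell 0 536870912 1073741824 536870912 740881858 40050571
    (rowB 3 eng mog cd1q0 cd3q2 pd2 0 false true false .pp 0 2 2 (qsf 0 536870912 1073741824 536870912 2) ndB1q0 ndB3q2 pcB2 Cut.none Ext.none)

def k0_pm_022 : ∃ t, chk3 f_pm_022 t 1 1 1 = true :=
  ⟨(a (l 4) (b (l 4) (l 4))), by decide +kernel⟩

theorem c_pm_022 : CertB 0 536870912 1073741824 536870912 740881858 40050571 3 eng mog cd1q0 cd3q2 pd2 false true false .pp 0 2 2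
    ndB1q0 ndB3q2 pcB2 Cut.none Ext.none :=
  certB0 (fam := false) (s1 := true) (s2 := false) (a := 0) (b := 2) (c := 2) (cn := .pp) (n1 := ndB1q0) (n2 := ndB3q2) (pc := pcB2) (cut := Cut.none) (xt := Ext.none) (P1 := 0) (W1 := 536870912) (P2 := 1073741824) (W2 := 536870912) (P3 := 740881858) (W3 := 40050571) (N0 := 3) (En := eng) (mo := mog) (C1 := cd1q0) (C2 := cd3q2) (C3 := pd2)
    rfl k0_pm_022

noncomputable def f_pm_023 : ℕ → ℕ → ℕ → ℕ → Bool := onCell 0 536870912 0 1230186008 740881858 40050571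
    (rowB 3 eng mog cd1q0 cd3q3 pd2 0 false true false .up 0 2 3 (qsf 0 536870912 0 1230186008 2) ndB1q0 ndB3q3 pcB2 Cut.none Ext.none)

def k0_pm_023 : ∃ t, chk3 f_pm_023 t 1 1 1 = true :=
  ⟨(a (b (l 2) (l 4)) (a (b (l 2) (l 4)) (b (b (a (l 2) (l 16530744)) (a (b (l 16459192) (l 4)) (b (l 16474576) (a (l 16403328) (l 16401856))))) (b (b (a (l 4) (b (l 16324904) (l 16248856))) (l 4)) (l 4))))), by decide +kernel⟩

theorem c_pm_023 : CertB 0 536870912 0 1230186008 740881858 40050571 3 eng mog cd1q0 cd3q3 pd2 false true false .up 0 2 3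
    ndB1q0 ndB3q3 pcB2 Cut.none Ext.none :=
  certB0 (fam := false) (s1 := true) (s2 := false) (a := 0) (b := 2) (c := 3) (cn := .up) (n1 := ndB1q0) (n2 := ndB3q3) (pc := pcB2) (cut := Cut.none) (xt := Ext.none) (P1 := 0) (W1 := 536870912) (P2 := 0) (W2 := 1230186008) (P3 := 740881858) (W3 := 40050571) (N0 := 3) (En := eng) (mo := mog) (C1 := cd1q0) (C2 := cd3q3) (C3 := pd2)
    rfl k0_pm_023

noncomputable def f_pm_033 : ℕ → ℕ → ℕ → ℕ → Bool := onCell 0 536870912 0 1230186008 740881858 40050571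
    (rowB 3 eng mog cd1q0 cd3q3 pd3 0 false true false .pnn 0 3 3 (qsf 0 536870912 0 1230186008 3) ndB1q0 ndB3q3 pcB3 Cut.none Ext.none)

def k0_pm_033 : ∃ t, chk3 f_pm_033 t 1 1 1 = true :=
  ⟨(a (b (l 4) (l 4)) (a (b (b (a (l 4) (l 4)) (l 4)) (l 4)) (a (b (b (l 16508080) (b (l 16396800) (l 4))) (b (l 4) (l 1))) (b (b (l 16532384) (b (l 16466832) (l 16405880))) (l 1))))), by decide +kernel⟩

theorem c_pm_033 : CertB 0 536870912 0 1230186008 740881858 40050571 3 eng mog cd1q0 cd3q3 pd3 false true false .pnn 0 3 3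
    ndB1q0 ndB3q3 pcB3 Cut.none Ext.none :=
  certB0 (fam := false) (s1 := true) (s2 := false) (a := 0) (b := 3) (c := 3) (cn := .pnn) (n1 := ndB1q0) (n2 := ndB3q3) (pc := pcB3) (cut := Cut.none) (xt := Ext.none) (P1 := 0) (W1 := 536870912) (P2 := 0) (W2 := 1230186008) (P3 := 740881858) (W3 := 40050571) (N0 := 3) (En := eng) (mo := mog) (C1 := cd1q0) (C2 := cd3q3) (C3 := pd3)
    rfl k0_pm_033

noncomputable def f_pm_101 : ℕ → ℕ → ℕ → ℕ → Bool := onCell 536870912 536870912 536870912 536870912 740881858 40050571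
    (rowB 3 eng mog cd1q1 cd3q1 pd0 0 false true false .npn 1 0 1 (qsf 536870912 536870912 536870912 536870912 0) ndB1q1 ndB3q1 pcB0 Cut.none Ext.none)

def k0_pm_101 : ∃ t, chk3 f_pm_101 t 1 1 1 = true :=
  ⟨(l 4), by decide +kernel⟩

theorem c_pm_101 : CertB 536870912 536870912 536870912 536870912 740881858 40050571 3 eng mog cd1q1 cd3q1 pd0 false true false .npn 1 0 1
    ndB1q1 ndB3q1 pcB0 Cut.none Ext.none :=
  certB0 (fam := false) (s1 := true) (s2 := false) (a := 1) (b := 0) (c := 1) (cn := .npn) (n1 := ndB1q1) (n2 := ndB3q1) (pc := pcB0) (cut := Cut.none) (xt := Ext.none) (P1 := 536870912) (W1 := 536870912) (P2 := 536870912) (W2 := 536870912) (P3 := 740881858) (W3 := 40050571) (N0 := 3) (En := eng) (mo := mog) (C1 := cd1q1) (C2 := cd3q1) (C3 := pd0)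
    rfl k0_pm_101

noncomputable def f_pm_102 : ℕ → ℕ → ℕ → ℕ → Bool := onCell 0 536870912 1073741824 536870912 740881858 40050571
    (rowB 3 eng mog cd1q1 cd3q2 pd0 2 false true false .npp 1 0 2 (qsf 536870912 536870912 1073741824 536870912 0) ndB1q1 ndB3q2 pcB0 Cut.none Ext.none)

def k0_pm_102 : ∃ t, chk3 f_pm_102 t 2 1 1 = true :=
  ⟨(a (b (b (b (a (b (a (l 16255984) (l 16221728)) (a (l 16279368) (b (l 16243928) (l 16256424)))) (b (a (l 16129336) (l 16065728)) (a (l 16230848) (l 16170328)))) (a (b (a (l 2) (l 16273728)) (l 2)) (b (a (l 16102208) (l 16237672)) (a (l 16274104) (l 16253040))))) (a (l 2) (b (b (a (l 2) (l 16280560)) (l 2)) (l 2)))) (l 2)) (b (b (a (b (b (a (l 15997536) (l 15919320)) (a (l 16094120) (l 16032776))) (b (l 16176272) (a (l 16246488) (l 16220968)))) (b (b (l 15855000) (l 16116424)) (b (a (l 16090536) (l 16047280)) (l 16157064)))) (a (b (a (b (l 16279904) (l 16302336)) (l 16293616)) (a (l 2) (b (l 16316432) (l 2)))) (b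 (a (l 16282560) (l 16257256)) (a (b (l 16310128) (l 16309792)) (b (l 16302832) (l 16309192)))))) (b (a (l 2) (b (a (l 2) (l 16231768)) (l 2))) (l 2)))), by decide +kernel⟩

def k1_pm_102 : ∃ t, chk3 f_pm_102 t 3 1 1 = true :=
  ⟨(a (b (a (b (b (b (l 15864216) (l 15929488)) (b (l 16001016) (a (l 16091232) (l 16061512)))) (b (a (l 16230104) (l 16201840)) (a (l 16308176) (l 16304736)))) (b (b (b (l 15897232) (l 15926800)) (b (l 15965384) (l 16022520))) (b (a (l 16171152) (l 16133656)) (a (l 16291328) (l 16256600))))) (a (b (b (a (l 16485872) (l 16311552)) (a (l 2) (l 16281520))) (l 2)) (b (b (a (l 16322832) (l 16316296)) (a (l 16290696) (l 16302872))) (b (b (l 16293848) (l 2)) (l 2))))) (b (b (a (b (b (l 15947744) (l 15949192)) (l 16202768)) (b (b (l 16008184) (l 16095376)) (b (l 15980224) (l 15986464)))) (a (b (l 16091288) (l 16198536)) (b (l 16061248) (l 16151416)))) (b (a (b (l 16285320) (a (l 16310176) (l 16309080))) (b (l 16231832) (l 16294408)))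 (a (b (l 16299848) (a (l 2) (b (l 16282880) (l 2)))) (b (l 16330288) (l 16322448)))))), by decide +kernel⟩

theorem s2_pm_102 : ∃ t, chk3 f_pm_102 t 1 1 1 = true := ex3_a k0_pm_102 k1_pm_102

theorem c_pm_102 : CertB 536870912 536870912 1073741824 536870912 740881858 40050571 3 eng mog cd1q1 cd3q2 pd0 false true false .npp 1 0 2
    ndB1q1 ndB3q2 pcB0 Cut.none Ext.none :=
  certB2 (fam := false) (s1 := true) (s2 := false) (a := 1) (b := 0) (c := 2) (cn := .npp) (n1 := ndB1q1) (n2 := ndB3q2) (pc := pcB0) (cut := Cut.none) (xt := Ext.none) (P1 := 536870912) (W1 := 536870912) (P2 := 1073741824) (W2 := 536870912) (P3 := 740881858) (W3 := 40050571) (N0 := 3) (En := eng) (mo := mog) (C1 := cd1q1) (C2 := cd3q2) (C3 := pd0)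
    rfl (fun _ => rfl) s2_pm_102

noncomputable def f_pm_112 : ℕ → ℕ → ℕ → ℕ → Bool := onCell 536870912 536870912 1073741824 536870912 740881858 40050571
    (rowB 3 eng mog cd1q1 cd3q2 pd1 2 false true false .dn 1 1 2 (qsf 536870912 536870912 1073741824 536870912 1) ndB1q1 ndB3q2 pcB1 Cut.none Ext.none)

def k0_pm_112 : ∃ t, chk3 f_pm_112 t 1 1 1 = true :=
  ⟨(a (b (a (b (a (b (l 174716555095) (b (l 16015936) (l 16001416))) (l 4)) (a (b (l 16040632) (l 16099488)) (b (l 176864419687) (l 16056264)))) (b (l 4) (a (b (l 4) (l 16063560)) (l 4)))) (a (b (a (b (l 16154456) (l 16239112)) (b (l 16101728) (l 16158080))) (b (l 16293384) (l 16378648))) (b (a (b (l 16024240) (l 16076696)) (b (l 15958160) (l 15983816))) (a (l 16240616) (b (l 16058208) (l 16190176)))))) (b (l 4) (a (b (a (b (l 4) (l 15866944)) (l 4)) (a (b (l 15913504) (l 16028624)) (b (l 15785840) (a (l 15901256) (l 15817824))))) (b (l 4) (a (b (l 4) (l 15687400)) (l 4)))))), by decide +kernel⟩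

theorem c_pm_112 : CertB 536870912 536870912 1073741824 536870912 740881858 40050571 3 eng mog cd1q1 cd3q2 pd1 false true false .dn 1 1 2
    ndB1q1 ndB3q2 pcB1 Cut.none Ext.none :=
  certB2 (fam := false) (s1 := true) (s2 := false) (a := 1) (b := 1) (c := 2) (cn := .dn) (n1 := ndB1q1) (n2 := ndB3q2) (pc := pcB1) (cut := Cut.none) (xt := Ext.none) (P1 := 536870912) (W1 := 536870912) (P2 := 1073741824) (W2 := 536870912) (P3 := 740881858) (W3 := 40050571) (N0 := 3) (En := eng) (mo := mog) (C1 := cd1q1) (C2 := cd3q2) (C3 := pd1)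
    rfl (fun _ => rfl) k0_pm_112

noncomputable def f_pm_113 : ℕ → ℕ → ℕ → ℕ → Bool := onCell 536870912 536870912 0 1230186008 740881858 40050571
    (rowB 3 eng mog cd1q1 cd3q3 pd1 0 false true false .nn 1 1 3 (qsf 536870912 536870912 0 1230186008 1) ndB1q1 ndB3q3 pcB1 Cut.none Ext.none)

def k0_pm_113 : ∃ t, chk3 f_pm_113 t 1 1 1 = true :=
  ⟨(b (a (l 2) (a (l 2) (b (a (l 2) (a (l 2) (b (l 16753520) (l 16764432)))) (a (b (l 16659768) (l 16670912)) (b (l 16760832) (l 16791520)))))) (b (a (b (l 2) (b (l 2) (a (l 2) (a (l 2) (l 16166952))))) (b (a (a (l 2) (l 16498640)) (a (l 16683832) (l 16833272))) (a (b (l 16206328) (l 12984419047)) (b (a (l 16708512) (l 16884768)) (a (l 16786968) (l 16988472)))))) (b (a (a (l 2) (b (l 236859016711) (b (l 16000320) (l 15999752)))) (a (b (l 16542688) (l 16495320)) (b (a (l 16836720) (l 17061672)) (a (l 16880520) (l 16857944))))) (a (a (b (a (l 2) (l 15602088)) (a (b (l 15462912) (l 4)) (b (l 15674200) (l 15815296))))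 (b (l 16014416) (a (l 15924976) (l 16146784)))) (a (b (l 16502208) (l 16392816)) (a (l 16549080) (l 16505512))))))), by decide +kernel⟩

theorem c_pm_113 : CertB 536870912 536870912 0 1230186008 740881858 40050571 3 eng mog cd1q1 cd3q3 pd1 false true false .nn 1 1 3
    ndB1q1 ndB3q3 pcB1 Cut.none Ext.none :=
  certB0 (fam := false) (s1 := true) (s2 := false) (a := 1) (b := 1) (c := 3) (cn := .nn) (n1 := ndB1q1) (n2 := ndB3q3) (pc := pcB1) (cut := Cut.none) (xt := Ext.none) (P1 := 536870912) (W1 := 536870912) (P2 := 0) (W2 := 1230186008) (P3 := 740881858) (W3 := 40050571) (N0 := 3) (En := eng) (mo := mog) (C1 := cd1q1) (C2 := cd3q3) (C3 := pd1)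
    rfl k0_pm_113

noncomputable def f_pm_123 : ℕ → ℕ → ℕ → ℕ → Bool := onCell 1073741824 536870912 0 1230186008 740881858 40050571
    (rowB 3 eng mog cd1q1 cd3q3 pd2 2 false true false .npn 1 2 3 (qsf 536870912 536870912 0 1230186008 2) ndB1q1 ndB3q3 pcB2 Cut.none Ext.none)

def k0_pm_123 : ∃ t, chk3 f_pm_123 t 1 1 1 = true :=
  ⟨(b (a (a (b (a (a (l 16545928) (l 16597120)) (l 16554864)) (a (b (l 16579088) (l 16416848)) (b (l 16487320) (l 16403456)))) (b (a (l 16516136) (l 16523864)) (a (b (a (l 16422736) (l 16409176)) (l 16309680)) (b (l 16439720) (l 16358824))))) (a (b (l 16559096) (a (l 16419000) (l 16467520))) (b (l 16588288) (a (l 16493896) (l 16516552))))) (b (a (b (a (a (c (l 16437456) (l 16364296)) (l 16280456)) (a (l 16217816) (l 16247704))) (a (b (a (l 16276960) (l 16165032)) (a (l 16229368) (l 16130448))) (b (a (l 16118112) (l 16146848)) (a (l 16076544) (l 16096864))))) (b (a (a (l 16290104) (l 16333168)) (a (l 16388096) (l 1))) (a (b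 (a (l 16197952) (l 16261296)) (a (l 16168256) (l 1))) (l 1)))) (a (b (a (b (a (l 16073408) (l 15958664)) (a (b (l 15855032) (l 15753360)) (b (l 15825048) (l 15770600)))) (a (b (l 16118544) (a (l 15843016) (l 4))) (b (l 16024592) (l 1)))) (a (a (b (a (l 15631984) (l 15656992)) (a (l 15536504) (l 4))) (b (l 15724384) (l 4))) (l 4))) (l 1)))), by decide +kernel⟩

theorem c_pm_123 : CertB 536870912 536870912 0 1230186008 740881858 40050571 3 eng mog cd1q1 cd3q3 pd2 false true false .npn 1 2 3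
    ndB1q1 ndB3q3 pcB2 Cut.none Ext.none :=
  certB2 (fam := false) (s1 := true) (s2 := false) (a := 1) (b := 2) (c := 3) (cn := .npn) (n1 := ndB1q1) (n2 := ndB3q3) (pc := pcB2) (cut := Cut.none) (xt := Ext.none) (P1 := 536870912) (W1 := 536870912) (P2 := 0) (W2 := 1230186008) (P3 := 740881858) (W3 := 40050571) (N0 := 3) (En := eng) (mo := mog) (C1 := cd1q1) (C2 := cd3q3) (C3 := pd2)
    rfl (fun _ => rfl) k0_pm_123

noncomputable def f_pm_133 : ℕ → ℕ → ℕ → ℕ → Bool := onCell 1610612736 536870912 0 1230186008 740881858 40050571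
    (rowB 3 eng mog cd1q1 cd3q3 pd3 2 false true false .dn 1 3 3 (qsf 536870912 536870912 0 1230186008 3) ndB1q1 ndB3q3 pcB3 Cut.none Ext.none)

def k0_pm_133 : ∃ t, chk3 f_pm_133 t 1 1 1 = true :=
  ⟨(b (a (a (a (l 16779376) (l 1)) (l 1)) (l 1)) (l 1)), by decide +kernel⟩

theorem c_pm_133 : CertB 536870912 536870912 0 1230186008 740881858 40050571 3 eng mog cd1q1 cd3q3 pd3 false true false .dn 1 3 3
    ndB1q1 ndB3q3 pcB3 Cut.none Ext.none :=
  certB2 (fam := false) (s1 := true) (s2 := false) (a := 1) (b := 3) (c := 3) (cn := .dn) (n1 := ndB1q1) (n2 := ndB3q3) (pc := pcB3) (cut := Cut.none) (xt := Ext.none) (P1 := 536870912) (W1 := 536870912) (P2 := 0) (W2 := 1230186008) (P3 := 740881858) (W3 := 40050571) (N0 := 3) (En := eng) (mo := mog) (C1 := cd1q1) (C2 := cd3q3) (C3 := pd3)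
    rfl (fun _ => rfl) k0_pm_133

noncomputable def f_pm_202_a : ℕ → ℕ → ℕ → ℕ → Bool := onCell 0 536870912 0 536870912 740881858 40050571
    (rowB 3 eng mog cd1q2a cd3q2 pd0 1 false true false .pp 2 0 2 (qsf 0 536870912 1073741824 536870912 0) ndB1q2a ndB3q2 pcB0 Cut.none Ext.none)

def k0_pm_202_a : ∃ t, chk3 f_pm_202_a t 2 1 1 = true :=
  ⟨(b (l 3) (l 3)), by decide +kernel⟩

def k1_pm_202_a : ∃ t, chk3 f_pm_202_a t 6 4 1 = true :=
  ⟨(b (a (b (a (a (l 3) (b (a (b (b (l 168207771735) (l 166597147815)) (l 167670894311)) (b (b (l 16474096) (a (l 16467672) (l 16474128))) (b (a (l 16467016) (l 16472992)) (c (l 16476536) (l 16460216))))) (a (l 3) (b (b (a (l 16463008) (l 16468872)) (l 16465208)) (l 171429025127))))) (a (b (b (l 16537664) (a (c (l 16489368) (l 16472664)) (l 16497808))) (a (b (a (b (l 16473888) (l 16473104)) (l 16481864)) (a (l 16470928) (l 16475216))) (b (c (l 16497136) (l 16482648)) (b (l 16488256) (l 16485904))))) (b (l 16398168)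 (a (b (l 16507312) (l 16541368)) (l 16520440))))) (a (a (l 3) (a (l 3) (b (b (l 16459456) (l 181092708855)) (b (l 173039642407) (l 3))))) (a (a (b (b (b (l 16471552) (l 16469392)) (l 16466736)) (b (l 16463880) (l 16462088))) (b (b (a (l 16479488) (l 16486392)) (l 16479576)) (b (l 16476528) (l 16473688)))) (b (a (b (l 16496984) (l 16492552)) (b (l 16550416) (l 16506680))) (a (b (l 16488296) (l 16486112)) (l 16500400)))))) (a (b (b (l 16424856) (l 16395272)) (b (a (a (b (l 16526864) (l 16520328)) (l 16540128)) (l 16565856)) (a (b (a (l 16516424) (l 16530192)) (l 16519512)) (l 16599384)))) (b (b (l 16592688) (l 16581680)) (b (l 16577576) (l 16579088))))) (a (a (l 3) (b (a (a (b (l 195588253223) (l 182703301367)) (b (l 16470408) (l 167670946263))) (b (a (l 16483312) (l 16494680)) (b (l 16485896) (l 16482712)))) (a (a (l 3) (b (l 202567547719) (l 185387668887))) (b (l 16500224) (a (l 16470448) (l 16481336)))))) (a (b (b (a (l 16514064) (b (l 16543048)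 (l 16539920))) (a (a (l 16502088) (l 16514968)) (l 16534256))) (a (b (l 16566432) (l 16520176)) (b (l 16527864) (l 16520624)))) (a (b (b (l 16586784) (l 16561600)) (l 16549944)) (b (l 16572216) (l 16563696)))))), by decide +kernel⟩

def k2_pm_202_a : ∃ t, chk3 f_pm_202_a t 7 4 1 = true :=
  ⟨(b (a (b (a (b (l 16577464) (l 16565424)) (b (l 16565080) (l 16553192))) (a (l 16553224) (b (l 16540072) (l 16527952)))) (b (a (b (a (l 16551984) (l 16542248)) (l 16536136)) (a (b (b (l 16523336) (l 16523184)) (l 16522064)) (b (l 16503952) (l 16503408)))) (a (l 16518368) (b (a (l 16510840) (l 16498768)) (l 16492472))))) (a (b (a (l 16551432) (b (l 16523008) (l 16523784))) (a (b (l 16548512) (l 16544456)) (l 16522040))) (b (a (l 16537912) (b (l 16477544) (l 16462896))) (a (l 16491184) (l 16642712))))), by decide +kernel⟩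

def k3_pm_202_a : ∃ t, chk3 f_pm_202_a t 3 5 1 = true :=
  ⟨(a (b (a (a (l 3) (b (a (b (l 173576519431) (l 3)) (b (a (l 16470464) (l 16480040)) (c (l 16488432) (l 16466112)))) (a (l 3) (b (c (l 16492888) (l 16469768)) (l 168744720247))))) (b (a (a (b (l 16495432) (l 16495368)) (b (l 16516584) (l 16515088))) (a (l 16535720) (l 16551752))) (b (a (a (l 16496448) (l 16512776)) (l 16538224)) (a (c (l 16513112) (l 16494288)) (l 16680336))))) (a (b (a (l 3) (b (l 164449746871) (l 163376000055))) (l 3)) (b (a (a (b (l 16498456) (l 16498520)) (l 16509440)) (a (l 16521288) (l 16523416))) (a (a (l 16477536) (l 16505416)) (l 16555624))))) (b (a (a (b (b (l 16538032) (l 16531024)) (l 16521344)) (b (b (l 16515648) (l 16509880)) (b (l 16504392) (l 16497136)))) (b (a (l 16485616) (l 16450480)) (a (l 16474256) (l 16441656)))) (a (b (a (l 16507184) (c (l 16526256) (l 16488624))) (a (l 16493424) (l 16472144))) (b (a (b (l 16464424) (l 16457384)) (l 16511616)) (a (b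 (l 16449648) (l 16442216)) (l 16517760)))))), by decide +kernel⟩

def k4_pm_202_a : ∃ t, chk3 f_pm_202_a t 3 3 1 = true :=
  ⟨(b (a (a (l 3) (b (a (b (l 178945318983) (l 16497000)) (b (l 16500608) (l 16488464))) (a (b (l 16525120) (l 214378732791)) (b (l 16476648) (l 16464224))))) (b (a (a (b (l 16479936) (l 16467440)) (b (l 16458824) (l 16446600))) (b (a (b (l 16435944) (l 16429544)) (b (l 16403520) (l 16397104))) (l 16446552))) (a (a (b (l 16477168) (l 16445440)) (b (l 16435600) (l 16425624))) (b (l 16394272) (l 16385160))))) (a (b (a (l 3) (a (b (l 3) (l 3)) (b (l 16452504) (l 16442848)))) (l 2)) (b (a (a (b (l 16435384) (l 16426504)) (b (l 16417048) (l 16409792))) (b (l 16377752) (l 16371928))) (a (b (l 16412528) (l 2)) (b (l 16367608) (l 16386272)))))), by decide +kernel⟩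

theorem s5_pm_202_a : ∃ t, chk3 f_pm_202_a t 3 4 1 = true := ex3_a k1_pm_202_a k2_pm_202_a

theorem s6_pm_202_a : ∃ t, chk3 f_pm_202_a t 3 2 1 = true := ex3_b s5_pm_202_a k3_pm_202_a

theorem s7_pm_202_a : ∃ t, chk3 f_pm_202_a t 3 1 1 = true := ex3_b s6_pm_202_a k4_pm_202_a

theorem s8_pm_202_a : ∃ t, chk3 f_pm_202_a t 1 1 1 = true := ex3_a k0_pm_202_a s7_pm_202_a

theorem c_pm_202_a : CertB 0 536870912 1073741824 536870912 740881858 40050571 3 eng mog cd1q2a cd3q2 pd0 false true false .pp 2 0 2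
    ndB1q2a ndB3q2 pcB0 Cut.none Ext.none :=
  certB1 (fam := false) (s1 := true) (s2 := false) (a := 2) (b := 0) (c := 2) (cn := .pp) (n1 := ndB1q2a) (n2 := ndB3q2) (pc := pcB0) (cut := Cut.none) (xt := Ext.none) (P1 := 0) (W1 := 536870912) (P2 := 1073741824) (W2 := 536870912) (P3 := 740881858) (W3 := 40050571) (N0 := 3) (En := eng) (mo := mog) (C1 := cd1q2a) (C2 := cd3q2) (C3 := pd0)
    rfl (fun _ => rfl) s8_pm_202_a

noncomputable def f_pm_202_b : ℕ → ℕ → ℕ → ℕ → Bool := onCell 1239849684 370763052 1073741824 536870912 740881858 40050571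
    (rowB 3 eng mog cd1q2b cd3q2 pd0 0 false true false .pp 2 0 2 (qsf 1239849684 370763052 1073741824 536870912 0) ndB1q2b ndB3q2 pcB0 Cut.none Ext.none)

def k0_pm_202_b : ∃ t, chk3 f_pm_202_b t 1 1 1 = true :=
  ⟨(l 3), by decide +kernel⟩

theorem c_pm_202_b : CertB 1239849684 370763052 1073741824 536870912 740881858 40050571 3 eng mog cd1q2b cd3q2 pd0 false true false .pp 2 0 2
    ndB1q2b ndB3q2 pcB0 Cut.none Ext.none :=
  certB0 (fam := false) (s1 := true) (s2 := false) (a := 2) (b := 0) (c := 2) (cn := .pp) (n1 := ndB1q2b) (n2 := ndB3q2) (pc := pcB0) (cut := Cut.none) (xt := Ext.none) (P1 := 1239849684) (W1 := 370763052) (P2 := 1073741824) (W2 := 536870912) (P3 := 740881858) (W3 := 40050571) (N0 := 3) (En := eng) (mo := mog) (C1 := cd1q2b) (C2 := cd3q2) (C3 := pd0)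
    rfl k0_pm_202_b

noncomputable def f_pm_203_a : ℕ → ℕ → ℕ → ℕ → Bool := onCell 0 536870912 0 1230186008 740881858 40050571
    (rowB 3 eng mog cd1q2a cd3q3 pd0 0 false true false .up 2 0 3 (qsf 0 536870912 0 1230186008 0) ndB1q2a ndB3q3 pcB0 Cut.none Ext.none)

def k0_pm_203_a : ∃ t, chk3 f_pm_203_a t 1 1 1 = true :=
  ⟨(b (l 2) (b (l 2) (a (l 3) (b (l 2) (a (a (l 3) (a (l 3) (b (b (l 2) (l 73181641831)) (b (l 69423553687) (l 16513184))))) (b (a (b (l 2) (a (l 16428952) (l 2))) (l 2)) (a (b (a (l 16415056) (l 16398088)) (a (l 16409936) (l 16392352))) (b (a (l 16377952) (l 2)) (a (l 16369200) (l 16341104)))))))))), by decide +kernel⟩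

theorem c_pm_203_a : CertB 0 536870912 0 1230186008 740881858 40050571 3 eng mog cd1q2a cd3q3 pd0 false true false .up 2 0 3
    ndB1q2a ndB3q3 pcB0 Cut.none Ext.none :=
  certB0 (fam := false) (s1 := true) (s2 := false) (a := 2) (b := 0) (c := 3) (cn := .up) (n1 := ndB1q2a) (n2 := ndB3q3) (pc := pcB0) (cut := Cut.none) (xt := Ext.none) (P1 := 0) (W1 := 536870912) (P2 := 0) (W2 := 1230186008) (P3 := 740881858) (W3 := 40050571) (N0 := 3) (En := eng) (mo := mog) (C1 := cd1q2a) (C2 := cd3q3) (C3 := pd0)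
    rfl k0_pm_203_a

noncomputable def f_pm_203_b : ℕ → ℕ → ℕ → ℕ → Bool := onCell 1239849684 370763052 0 1230186008 740881858 40050571
    (rowB 3 eng mog cd1q2b cd3q3 pd0 0 false true false .up 2 0 3 (qsf 1239849684 370763052 0 1230186008 0) ndB1q2b ndB3q3 pcB0 Cut.none Ext.none)

def k0_pm_203_b : ∃ t, chk3 f_pm_203_b t 1 1 1 = true :=
  ⟨(b (l 3) (l 3)), by decide +kernel⟩

theorem c_pm_203_b : CertB 1239849684 370763052 0 1230186008 740881858 40050571 3 eng mog cd1q2b cd3q3 pd0 false true false .up 2 0 3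
    ndB1q2b ndB3q3 pcB0 Cut.none Ext.none :=
  certB0 (fam := false) (s1 := true) (s2 := false) (a := 2) (b := 0) (c := 3) (cn := .up) (n1 := ndB1q2b) (n2 := ndB3q3) (pc := pcB0) (cut := Cut.none) (xt := Ext.none) (P1 := 1239849684) (W1 := 370763052) (P2 := 0) (W2 := 1230186008) (P3 := 740881858) (W3 := 40050571) (N0 := 3) (En := eng) (mo := mog) (C1 := cd1q2b) (C2 := cd3q3) (C3 := pd0)
    rfl k0_pm_203_b

noncomputable def cut_pm_213_a : Cut := Cut.of [[⟨0, 1, 0, 67108864⟩, ⟨1, 1, 0, 67108864⟩, ⟨2, 2, 0, 16777216⟩]]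

noncomputable def f_pm_213_a : ℕ → ℕ → ℕ → ℕ → Bool := onCell 0 536870912 0 1230186008 740881858 40050571
    (rowB 3 eng mog cd1q2a cd3q3 pd1 0 false true false .pnn 2 1 3 (qsf 0 536870912 0 1230186008 1) ndB1q2a ndB3q3 pcB1 cut_pm_213_a Ext.none)

def k0_pm_213_a : ∃ t, chk3 f_pm_213_a t 1 2 1 = true :=
  ⟨(a (l 3) (b (a (l 3) (a (l 3) (b (l 6) (a (b (l 3) (l 3)) (b (a (l 6) (l 6)) (a (a (b (b (l 386177969735) (l 259476417447)) (b (l 247665246887) (l 219211088103))) (b (b (l 235854086807) (l 16784544)) (l 16765640))) (b (l 16780680) (l 16783568)))))))) (a (l 3) (b (a (l 3) (a (b (a (l 3) (a (l 3) (b (a (l 3) (l 320142814247)) (b (l 239612183063) (l 16774904))))) (a (l 3) (b (a (a (l 3) (l 260013256663)) (b (l 16797160) (l 16797960))) (a (b (l 196662482327) (l 16793832)) (l 16756248))))) (b (a (b (a (c (l 16768552) (l 16773024)) (l 16790208)) (a (l 16774360) (l 16794504))) (l 16810888)) (a (b (l 16798920) (l 16801632)) (l 16800488))))) (a (b (l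 3) (a (l 3) (l 3))) (a (b (c (a (b (l 275582551959) (a (l 3) (l 16758120))) (b (l 171966424487) (l 16787400))) (a (b (l 247128419111) (a (l 3) (l 16774368))) (b (l 162302751207) (l 16803616)))) (a (b (b (l 164450225287) (l 134385402679)) (b (l 131164166055) (l 16765768))) (b (b (l 16796128) (l 16797144)) (l 16736344)))) (a (b (b (l 16803784) (l 16804872)) (b (l 16807152) (l 16811280))) (b (l 16810784) (l 16819560))))))))), by decide +kernel⟩

def k1_pm_213_a : ∃ t, chk3 f_pm_213_a t 1 6 1 = true :=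
  ⟨(a (l 3) (b (a (l 3) (a (a (l 3) (c (b (a (l 3) (b (l 197736139959) (l 138143478935))) (a (b (l 3) (l 131164207623)) (b (l 118279316103) (c (l 16723200) (l 16770984))))) (b (a (l 3) (b (l 160692101303) (l 123647995639))) (a (b (l 3) (l 126869239111)) (b (a (l 116668687431) (l 16805552)) (a (l 16769688) (l 16819384))))))) (b (a (b (a (b (l 16787312) (l 16787752)) (l 16803016)) (a (a (l 16700672) (l 16793288)) (l 16764368))) (a (b (l 16816792) (l 16822200)) (l 16832288))) (a (b (a (c (l 16769096) (l 16818456)) (l 16768736)) (a (c (l 16773472) (l 16831784)) (l 16756264))) (a (b (l 16828560) (l 16815504)) (l 16776320)))))) (a (l 3) (b (a (a (l 3) (b (b (a (l 125258495543) (l 16730432)) (a (c (l 128479872839) (l 123111126327)) (b (l 16730312) (l 16785704)))) (a (b (c (l 16743352) (l 117205520263)) (b (l 109152350519) (l 16729360))) (b (l 16710248) (l 16754408))))) (a (b (b (a (l 16810328) (l 16827240)) (b (l 16736072) (l 16771392))) (b (l 16718448)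 (l 16743536))) (b (c (l 16781608) (a (l 16876864) (l 16894648))) (c (l 16811520) (l 16814176))))) (a (b (b (a (l 3) (c (l 16671752) (l 84456292439))) (a (l 3) (c (l 16697120) (l 16701072)))) (a (a (l 3) (b (l 193977843687) (c (l 120963396967) (l 118279006455)))) (b (a (l 16660024) (l 16684056)) (a (l 16641192) (l 16666576))))) (b (a (b (l 16766360) (l 16744864)) (l 16758528)) (a (b (l 16720696) (l 16705208)) (c (l 16768360) (l 16758304))))))))), by decide +kernel⟩

def k2_pm_213_a : ∃ t, chk3 f_pm_213_a t 1 7 1 = true :=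
  ⟨(b (a (l 3) (a (b (l 3) (l 3)) (b (a (b (a (a (l 3) (b (l 111299670999) (l 16578416))) (b (l 16640216) (l 16612520))) (a (a (b (l 3) (l 16540872)) (b (l 16559064) (l 16543376))) (b (l 16588200) (l 16567264)))) (b (a (l 16692160) (l 16753640)) (a (l 16625176) (l 16695392)))) (a (b (a (b (l 63518067879) (l 16515968)) (b (l 16549496) (l 16532024))) (a (l 16508712) (l 16497176))) (b (a (c (l 16598632) (l 16544136)) (l 16620768)) (a (l 16513080) (l 16541896))))))) (a (l 3) (a (a (l 3) (a (l 3) (b (b (l 264307781143) (l 88214215543)) (l 1)))) (b (a (b (a (l 16457600) (l 16459832)) (a (b (l 16441832) (l 16434544)) (l 16434408))) (a (b (l 16464056) (l 16428568)) (b (l 16473584) (l 16423016)))) (a (b (a (b (l 16428880) (l 1)) (l 16418960)) (l 1)) (b (a (l 16407032) (l 16389560)) (a (l 16395408) (l 16370176)))))))), by decide +kernel⟩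

theorem s3_pm_213_a : ∃ t, chk3 f_pm_213_a t 1 3 1 = true := ex3_b k1_pm_213_a k2_pm_213_a

theorem s4_pm_213_a : ∃ t, chk3 f_pm_213_a t 1 1 1 = true := ex3_b k0_pm_213_a s3_pm_213_a

theorem c_pm_213_a : CertB 0 536870912 0 1230186008 740881858 40050571 3 eng mog cd1q2a cd3q3 pd1 false true false .pnn 2 1 3
    ndB1q2a ndB3q3 pcB1 cut_pm_213_a Ext.none :=
  certB0 (fam := false) (s1 := true) (s2 := false) (a := 2) (b := 1) (c := 3) (cn := .pnn) (n1 := ndB1q2a) (n2 := ndB3q3) (pc := pcB1) (cut := cut_pm_213_a) (xt := Ext.none) (P1 := 0) (W1 := 536870912) (P2 := 0) (W2 := 1230186008) (P3 := 740881858) (W3 := 40050571) (N0 := 3) (En := eng) (mo := mog) (C1 := cd1q2a) (C2 := cd3q3) (C3 := pd1)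
    rfl s4_pm_213_a

noncomputable def cut_pm_213_b : Cut := Cut.of [[⟨0, 1, 0, 67108864⟩, ⟨1, 1, 0, 67108864⟩, ⟨2, 2, 0, 16777216⟩]]

noncomputable def f_pm_213_b : ℕ → ℕ → ℕ → ℕ → Bool := onCell 1239849684 370763052 0 1230186008 740881858 40050571
    (rowB 3 eng mog cd1q2b cd3q3 pd1 0 false true false .pnn 2 1 3 (qsf 1239849684 370763052 0 1230186008 1) ndB1q2b ndB3q3 pcB1 cut_pm_213_b Ext.none)

def k0_pm_213_b : ∃ t, chk3 f_pm_213_b t 1 1 1 = true :=
  ⟨(b (l 3) (l 3)), by decide +kernel⟩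

theorem c_pm_213_b : CertB 1239849684 370763052 0 1230186008 740881858 40050571 3 eng mog cd1q2b cd3q3 pd1 false true false .pnn 2 1 3
    ndB1q2b ndB3q3 pcB1 cut_pm_213_b Ext.none :=
  certB0 (fam := false) (s1 := true) (s2 := false) (a := 2) (b := 1) (c := 3) (cn := .pnn) (n1 := ndB1q2b) (n2 := ndB3q3) (pc := pcB1) (cut := cut_pm_213_b) (xt := Ext.none) (P1 := 1239849684) (W1 := 370763052) (P2 := 0) (W2 := 1230186008) (P3 := 740881858) (W3 := 40050571) (N0 := 3) (En := eng) (mo := mog) (C1 := cd1q2b) (C2 := cd3q3) (C3 := pd1)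
    rfl k0_pm_213_b

noncomputable def f_pm_303 : ℕ → ℕ → ℕ → ℕ → Bool := onCell 1610612736 536870912 0 1230186008 740881858 40050571
    (rowB 3 eng mog cd1q3 cd3q3 pd0 0 false true false .npn 3 0 3 (qsf 1610612736 536870912 0 1230186008 0) ndB1q3 ndB3q3 pcB0 Cut.none Ext.none)

def k0_pm_303 : ∃ t, chk3 f_pm_303 t 1 1 1 = true :=
  ⟨(b (l 3) (l 3)), by decide +kernel⟩

theorem c_pm_303 : CertB 1610612736 536870912 0 1230186008 740881858 40050571 3 eng mog cd1q3 cd3q3 pd0 false true false .npn 3 0 3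
    ndB1q3 ndB3q3 pcB0 Cut.none Ext.none :=
  certB0 (fam := false) (s1 := true) (s2 := false) (a := 3) (b := 0) (c := 3) (cn := .npn) (n1 := ndB1q3) (n2 := ndB3q3) (pc := pcB0) (cut := Cut.none) (xt := Ext.none) (P1 := 1610612736) (W1 := 536870912) (P2 := 0) (W2 := 1230186008) (P3 := 740881858) (W3 := 40050571) (N0 := 3) (En := eng) (mo := mog) (C1 := cd1q3) (C2 := cd3q3) (C3 := pd0)
    rfl k0_pm_303

noncomputable def f_pm_313 : ℕ → ℕ → ℕ → ℕ → Bool := onCell 1610612736 536870912 0 1230186008 740881858 40050571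
    (rowB 3 eng mog cd1q3 cd3q3 pd1 0 false true false .dn 3 1 3 (qsf 1610612736 536870912 0 1230186008 1) ndB1q3 ndB3q3 pcB1 Cut.none Ext.none)

def k0_pm_313 : ∃ t, chk3 f_pm_313 t 1 1 1 = true :=
  ⟨(b (l 3) (l 1)), by decide +kernel⟩

theorem c_pm_313 : CertB 1610612736 536870912 0 1230186008 740881858 40050571 3 eng mog cd1q3 cd3q3 pd1 false true false .dn 3 1 3
    ndB1q3 ndB3q3 pcB1 Cut.none Ext.none :=
  certB0 (fam := false) (s1 := true) (s2 := false) (a := 3) (b := 1) (c := 3) (cn := .dn) (n1 := ndB1q3) (n2 := ndB3q3) (pc := pcB1) (cut := Cut.none) (xt := Ext.none) (P1 := 1610612736) (W1 := 536870912) (P2 := 0) (W2 := 1230186008) (P3 := 740881858) (W3 := 40050571) (N0 := 3) (En := eng) (mo := mog) (C1 := cd1q3) (C2 := cd3q3) (C3 := pd1)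
    rfl k0_pm_313

noncomputable def f_mm_001 : ℕ → ℕ → ℕ → ℕ → Bool := onCell 0 536870912 0 536870912 740881858 40050571
    (rowB 3 eng mog cd1q0 cd3q1 pd0 1 false false false .up 0 0 1 (qsf 0 536870912 536870912 536870912 0) ndB1q0 ndB3q1 pcB0 Cut.none Ext.none)

def k0_mm_001 : ∃ t, chk3 f_mm_001 t 1 1 1 = true :=
  ⟨(l 3), by decide +kernel⟩

theorem c_mm_001 : CertB 0 536870912 536870912 536870912 740881858 40050571 3 eng mog cd1q0 cd3q1 pd0 false false false .up 0 0 1
    ndB1q0 ndB3q1 pcB0 Cut.none Ext.none :=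
  certB1 (fam := false) (s1 := false) (s2 := false) (a := 0) (b := 0) (c := 1) (cn := .up) (n1 := ndB1q0) (n2 := ndB3q1) (pc := pcB0) (cut := Cut.none) (xt := Ext.none) (P1 := 0) (W1 := 536870912) (P2 := 536870912) (W2 := 536870912) (P3 := 740881858) (W3 := 40050571) (N0 := 3) (En := eng) (mo := mog) (C1 := cd1q0) (C2 := cd3q1) (C3 := pd0)
    rfl (fun _ => rfl) k0_mm_001

noncomputable def f_mm_011 : ℕ → ℕ → ℕ → ℕ → Bool := onCell 0 536870912 536870912 536870912 740881858 40050571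
    (rowB 3 eng mog cd1q0 cd3q1 pd1 1 false false false .pnn 0 1 1 (qsf 0 536870912 536870912 536870912 1) ndB1q0 ndB3q1 pcB1 Cut.none Ext.none)

def k0_mm_011 : ∃ t, chk3 f_mm_011 t 1 1 1 = true :=
  ⟨(l 5), by decide +kernel⟩

theorem c_mm_011 : CertB 0 536870912 536870912 536870912 740881858 40050571 3 eng mog cd1q0 cd3q1 pd1 false false false .pnn 0 1 1
    ndB1q0 ndB3q1 pcB1 Cut.none Ext.none :=
  certB1 (fam := false) (s1 := false) (s2 := false) (a := 0) (b := 1) (c := 1) (cn := .pnn) (n1 := ndB1q0) (n2 := ndB3q1) (pc := pcB1) (cut := Cut.none) (xt := Ext.none) (P1 := 0) (W1 := 536870912) (P2 := 536870912) (W2 := 536870912) (P3 := 740881858) (W3 := 40050571) (N0 := 3) (En := eng) (mo := mog) (C1 := cd1q0) (C2 := cd3q1) (C3 := pd1)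
    rfl (fun _ => rfl) k0_mm_011

noncomputable def f_mm_012 : ℕ → ℕ → ℕ → ℕ → Bool := onCell 0 536870912 1073741824 536870912 740881858 40050571
    (rowB 3 eng mog cd1q0 cd3q2 pd1 0 false false false .pnp 0 1 2 (qsf 0 536870912 1073741824 536870912 1) ndB1q0 ndB3q2 pcB1 Cut.none Ext.none)

def k0_mm_012 : ∃ t, chk3 f_mm_012 t 1 1 1 = true :=
  ⟨(l 5), by decide +kernel⟩

theorem c_mm_012 : CertB 0 536870912 1073741824 536870912 740881858 40050571 3 eng mog cd1q0 cd3q2 pd1 false false false .pnp 0 1 2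
    ndB1q0 ndB3q2 pcB1 Cut.none Ext.none :=
  certB0 (fam := false) (s1 := false) (s2 := false) (a := 0) (b := 1) (c := 2) (cn := .pnp) (n1 := ndB1q0) (n2 := ndB3q2) (pc := pcB1) (cut := Cut.none) (xt := Ext.none) (P1 := 0) (W1 := 536870912) (P2 := 1073741824) (W2 := 536870912) (P3 := 740881858) (W3 := 40050571) (N0 := 3) (En := eng) (mo := mog) (C1 := cd1q0) (C2 := cd3q2) (C3 := pd1)
    rfl k0_mm_012

noncomputable def f_mm_022 : ℕ → ℕ → ℕ → ℕ → Bool := onCell 0 536870912 1073741824 536870912 740881858 40050571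
    (rowB 3 eng mog cd1q0 cd3q2 pd2 0 false false false .pp 0 2 2 (qsf 0 536870912 1073741824 536870912 2) ndB1q0 ndB3q2 pcB2 Cut.none Ext.none)

def k0_mm_022 : ∃ t, chk3 f_mm_022 t 1 1 1 = true :=
  ⟨(l 5), by decide +kernel⟩

theorem c_mm_022 : CertB 0 536870912 1073741824 536870912 740881858 40050571 3 eng mog cd1q0 cd3q2 pd2 false false false .pp 0 2 2
    ndB1q0 ndB3q2 pcB2 Cut.none Ext.none :=
  certB0 (fam := false) (s1 := false) (s2 := false) (a := 0) (b := 2) (c := 2) (cn := .pp) (n1 := ndB1q0) (n2 := ndB3q2) (pc := pcB2) (cut := Cut.none) (xt := Ext.none) (P1 := 0) (W1 := 536870912) (P2 := 1073741824) (W2 := 536870912) (P3 := 740881858) (W3 := 40050571) (N0 := 3) (En := eng) (mo := mog) (C1 := cd1q0) (C2 := cd3q2) (C3 := pd2)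
    rfl k0_mm_022

noncomputable def f_mm_023 : ℕ → ℕ → ℕ → ℕ → Bool := onCell 0 536870912 0 1230186008 740881858 40050571
    (rowB 3 eng mog cd1q0 cd3q3 pd2 0 false false false .up 0 2 3 (qsf 0 536870912 0 1230186008 2) ndB1q0 ndB3q3 pcB2 Cut.none Ext.none)

def k0_mm_023 : ∃ t, chk3 f_mm_023 t 1 1 1 = true :=
  ⟨(l 5), by decide +kernel⟩

theorem c_mm_023 : CertB 0 536870912 0 1230186008 740881858 40050571 3 eng mog cd1q0 cd3q3 pd2 false false false .up 0 2 3
    ndB1q0 ndB3q3 pcB2 Cut.none Ext.none :=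
  certB0 (fam := false) (s1 := false) (s2 := false) (a := 0) (b := 2) (c := 3) (cn := .up) (n1 := ndB1q0) (n2 := ndB3q3) (pc := pcB2) (cut := Cut.none) (xt := Ext.none) (P1 := 0) (W1 := 536870912) (P2 := 0) (W2 := 1230186008) (P3 := 740881858) (W3 := 40050571) (N0 := 3) (En := eng) (mo := mog) (C1 := cd1q0) (C2 := cd3q3) (C3 := pd2)
    rfl k0_mm_023

noncomputable def f_mm_033 : ℕ → ℕ → ℕ → ℕ → Bool := onCell 0 536870912 0 1230186008 740881858 40050571
    (rowB 3 eng mog cd1q0 cd3q3 pd3 0 false false false .pnn 0 3 3 (qsf 0 536870912 0 1230186008 3) ndB1q0 ndB3q3 pcB3 Cut.none Ext.none)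

def k0_mm_033 : ∃ t, chk3 f_mm_033 t 1 1 1 = true :=
  ⟨(l 5), by decide +kernel⟩

theorem c_mm_033 : CertB 0 536870912 0 1230186008 740881858 40050571 3 eng mog cd1q0 cd3q3 pd3 false false false .pnn 0 3 3
    ndB1q0 ndB3q3 pcB3 Cut.none Ext.none :=
  certB0 (fam := false) (s1 := false) (s2 := false) (a := 0) (b := 3) (c := 3) (cn := .pnn) (n1 := ndB1q0) (n2 := ndB3q3) (pc := pcB3) (cut := Cut.none) (xt := Ext.none) (P1 := 0) (W1 := 536870912) (P2 := 0) (W2 := 1230186008) (P3 := 740881858) (W3 := 40050571) (N0 := 3) (En := eng) (mo := mog) (C1 := cd1q0) (C2 := cd3q3) (C3 := pd3)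
    rfl k0_mm_033

noncomputable def f_mm_101 : ℕ → ℕ → ℕ → ℕ → Bool := onCell 536870912 536870912 536870912 536870912 740881858 40050571
    (rowB 3 eng mog cd1q1 cd3q1 pd0 0 false false false .npn 1 0 1 (qsf 536870912 536870912 536870912 536870912 0) ndB1q1 ndB3q1 pcB0 Cut.none Ext.none)

def k0_mm_101 : ∃ t, chk3 f_mm_101 t 1 1 1 = true :=
  ⟨(l 3), by decide +kernel⟩

theorem c_mm_101 : CertB 536870912 536870912 536870912 536870912 740881858 40050571 3 eng mog cd1q1 cd3q1 pd0 false false false .npn 1 0 1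
    ndB1q1 ndB3q1 pcB0 Cut.none Ext.none :=
  certB0 (fam := false) (s1 := false) (s2 := false) (a := 1) (b := 0) (c := 1) (cn := .npn) (n1 := ndB1q1) (n2 := ndB3q1) (pc := pcB0) (cut := Cut.none) (xt := Ext.none) (P1 := 536870912) (W1 := 536870912) (P2 := 536870912) (W2 := 536870912) (P3 := 740881858) (W3 := 40050571) (N0 := 3) (En := eng) (mo := mog) (C1 := cd1q1) (C2 := cd3q1) (C3 := pd0)
    rfl k0_mm_101

noncomputable def f_mm_102 : ℕ → ℕ → ℕ → ℕ → Bool := onCell 536870912 536870912 0 536870912 740881858 40050571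
    (rowB 3 eng mog cd1q1 cd3q2 pd0 1 false false false .npp 1 0 2 (qsf 536870912 536870912 1073741824 536870912 0) ndB1q1 ndB3q2 pcB0 Cut.none Ext.none)

def k0_mm_102 : ∃ t, chk3 f_mm_102 t 1 1 1 = true :=
  ⟨(l 3), by decide +kernel⟩

theorem c_mm_102 : CertB 536870912 536870912 1073741824 536870912 740881858 40050571 3 eng mog cd1q1 cd3q2 pd0 false false false .npp 1 0 2
    ndB1q1 ndB3q2 pcB0 Cut.none Ext.none :=
  certB1 (fam := false) (s1 := false) (s2 := false) (a := 1) (b := 0) (c := 2) (cn := .npp) (n1 := ndB1q1) (n2 := ndB3q2) (pc := pcB0) (cut := Cut.none) (xt := Ext.none) (P1 := 536870912) (W1 := 536870912) (P2 := 1073741824) (W2 := 536870912) (P3 := 740881858) (W3 := 40050571) (N0 := 3) (En := eng) (mo := mog) (C1 := cd1q1) (C2 := cd3q2) (C3 := pd0)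
    rfl (fun _ => rfl) k0_mm_102

noncomputable def f_mm_112 : ℕ → ℕ → ℕ → ℕ → Bool := onCell 536870912 536870912 536870912 536870912 740881858 40050571
    (rowB 3 eng mog cd1q1 cd3q2 pd1 1 false false false .dn 1 1 2 (qsf 536870912 536870912 1073741824 536870912 1) ndB1q1 ndB3q2 pcB1 Cut.none Ext.none)

def k0_mm_112 : ∃ t, chk3 f_mm_112 t 1 1 1 = true :=
  ⟨(l 5), by decide +kernel⟩

theorem c_mm_112 : CertB 536870912 536870912 1073741824 536870912 740881858 40050571 3 eng mog cd1q1 cd3q2 pd1 false false false .dn 1 1 2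
    ndB1q1 ndB3q2 pcB1 Cut.none Ext.none :=
  certB1 (fam := false) (s1 := false) (s2 := false) (a := 1) (b := 1) (c := 2) (cn := .dn) (n1 := ndB1q1) (n2 := ndB3q2) (pc := pcB1) (cut := Cut.none) (xt := Ext.none) (P1 := 536870912) (W1 := 536870912) (P2 := 1073741824) (W2 := 536870912) (P3 := 740881858) (W3 := 40050571) (N0 := 3) (En := eng) (mo := mog) (C1 := cd1q1) (C2 := cd3q2) (C3 := pd1)
    rfl (fun _ => rfl) k0_mm_112

noncomputable def f_mm_113 : ℕ → ℕ → ℕ → ℕ → Bool := onCell 536870912 536870912 0 1230186008 740881858 40050571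
    (rowB 3 eng mog cd1q1 cd3q3 pd1 0 false false false .nn 1 1 3 (qsf 536870912 536870912 0 1230186008 1) ndB1q1 ndB3q3 pcB1 Cut.none Ext.none)

def k0_mm_113 : ∃ t, chk3 f_mm_113 t 1 1 1 = true :=
  ⟨(l 5), by decide +kernel⟩

theorem c_mm_113 : CertB 536870912 536870912 0 1230186008 740881858 40050571 3 eng mog cd1q1 cd3q3 pd1 false false false .nn 1 1 3
    ndB1q1 ndB3q3 pcB1 Cut.none Ext.none :=
  certB0 (fam := false) (s1 := false) (s2 := false) (a := 1) (b := 1) (c := 3) (cn := .nn) (n1 := ndB1q1) (n2 := ndB3q3) (pc := pcB1) (cut := Cut.none) (xt := Ext.none) (P1 := 536870912) (W1 := 536870912) (P2 := 0) (W2 := 1230186008) (P3 := 740881858) (W3 := 40050571) (N0 := 3) (En := eng) (mo := mog) (C1 := cd1q1) (C2 := cd3q3) (C3 := pd1)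
    rfl k0_mm_113

noncomputable def f_mm_123 : ℕ → ℕ → ℕ → ℕ → Bool := onCell 536870912 536870912 0 1230186008 740881858 40050571
    (rowB 3 eng mog cd1q1 cd3q3 pd2 0 false false false .npn 1 2 3 (qsf 536870912 536870912 0 1230186008 2) ndB1q1 ndB3q3 pcB2 Cut.none Ext.none)

def k0_mm_123 : ∃ t, chk3 f_mm_123 t 1 1 1 = true :=
  ⟨(l 5), by decide +kernel⟩

theorem c_mm_123 : CertB 536870912 536870912 0 1230186008 740881858 40050571 3 eng mog cd1q1 cd3q3 pd2 false false false .npn 1 2 3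
    ndB1q1 ndB3q3 pcB2 Cut.none Ext.none :=
  certB0 (fam := false) (s1 := false) (s2 := false) (a := 1) (b := 2) (c := 3) (cn := .npn) (n1 := ndB1q1) (n2 := ndB3q3) (pc := pcB2) (cut := Cut.none) (xt := Ext.none) (P1 := 536870912) (W1 := 536870912) (P2 := 0) (W2 := 1230186008) (P3 := 740881858) (W3 := 40050571) (N0 := 3) (En := eng) (mo := mog) (C1 := cd1q1) (C2 := cd3q3) (C3 := pd2)
    rfl k0_mm_123

noncomputable def f_mm_133 : ℕ → ℕ → ℕ → ℕ → Bool := onCell 536870912 536870912 0 1230186008 740881858 40050571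
    (rowB 3 eng mog cd1q1 cd3q3 pd3 0 false false false .dn 1 3 3 (qsf 536870912 536870912 0 1230186008 3) ndB1q1 ndB3q3 pcB3 Cut.none Ext.none)

def k0_mm_133 : ∃ t, chk3 f_mm_133 t 1 1 1 = true :=
  ⟨(l 5), by decide +kernel⟩

theorem c_mm_133 : CertB 536870912 536870912 0 1230186008 740881858 40050571 3 eng mog cd1q1 cd3q3 pd3 false false false .dn 1 3 3
    ndB1q1 ndB3q3 pcB3 Cut.none Ext.none :=
  certB0 (fam := false) (s1 := false) (s2 := false) (a := 1) (b := 3) (c := 3) (cn := .dn) (n1 := ndB1q1) (n2 := ndB3q3) (pc := pcB3) (cut := Cut.none) (xt := Ext.none) (P1 := 536870912) (W1 := 536870912) (P2 := 0) (W2 := 1230186008) (P3 := 740881858) (W3 := 40050571) (N0 := 3) (En := eng) (mo := mog) (C1 := cd1q1) (C2 := cd3q3) (C3 := pd3)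
    rfl k0_mm_133

noncomputable def f_mm_202_a : ℕ → ℕ → ℕ → ℕ → Bool := onCell 0 536870912 1073741824 536870912 740881858 40050571
    (rowB 3 eng mog cd1q2a cd3q2 pd0 0 false false false .pp 2 0 2 (qsf 0 536870912 1073741824 536870912 0) ndB1q2a ndB3q2 pcB0 Cut.none Ext.none)

def k0_mm_202_a : ∃ t, chk3 f_mm_202_a t 1 1 1 = true :=
  ⟨(l 3), by decide +kernel⟩

theorem c_mm_202_a : CertB 0 536870912 1073741824 536870912 740881858 40050571 3 eng mog cd1q2a cd3q2 pd0 false false false .pp 2 0 2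
    ndB1q2a ndB3q2 pcB0 Cut.none Ext.none :=
  certB0 (fam := false) (s1 := false) (s2 := false) (a := 2) (b := 0) (c := 2) (cn := .pp) (n1 := ndB1q2a) (n2 := ndB3q2) (pc := pcB0) (cut := Cut.none) (xt := Ext.none) (P1 := 0) (W1 := 536870912) (P2 := 1073741824) (W2 := 536870912) (P3 := 740881858) (W3 := 40050571) (N0 := 3) (En := eng) (mo := mog) (C1 := cd1q2a) (C2 := cd3q2) (C3 := pd0)
    rfl k0_mm_202_a

noncomputable def f_mm_202_b : ℕ → ℕ → ℕ → ℕ → Bool := onCell 1239849684 370763052 1073741824 536870912 740881858 40050571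
    (rowB 3 eng mog cd1q2b cd3q2 pd0 0 false false false .pp 2 0 2 (qsf 1239849684 370763052 1073741824 536870912 0) ndB1q2b ndB3q2 pcB0 Cut.none Ext.none)

def k0_mm_202_b : ∃ t, chk3 f_mm_202_b t 1 1 1 = true :=
  ⟨(l 3), by decide +kernel⟩

theorem c_mm_202_b : CertB 1239849684 370763052 1073741824 536870912 740881858 40050571 3 eng mog cd1q2b cd3q2 pd0 false false false .pp 2 0 2
    ndB1q2b ndB3q2 pcB0 Cut.none Ext.none :=
  certB0 (fam := false) (s1 := false) (s2 := false) (a := 2) (b := 0) (c := 2) (cn := .pp) (n1 := ndB1q2b) (n2 := ndB3q2) (pc := pcB0) (cut := Cut.none) (xt := Ext.none) (P1 := 1239849684) (W1 := 370763052) (P2 := 1073741824) (W2 := 536870912) (P3 := 740881858) (W3 := 40050571) (N0 := 3) (En := eng) (mo := mog) (C1 := cd1q2b) (C2 := cd3q2) (C3 := pd0)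
    rfl k0_mm_202_b

noncomputable def f_mm_203_a : ℕ → ℕ → ℕ → ℕ → Bool := onCell 0 536870912 0 1230186008 740881858 40050571
    (rowB 3 eng mog cd1q2a cd3q3 pd0 0 false false false .up 2 0 3 (qsf 0 536870912 0 1230186008 0) ndB1q2a ndB3q3 pcB0 Cut.none Ext.none)

def k0_mm_203_a : ∃ t, chk3 f_mm_203_a t 1 1 1 = true :=
  ⟨(b (l 2) (l 3)), by decide +kernel⟩

theorem c_mm_203_a : CertB 0 536870912 0 1230186008 740881858 40050571 3 eng mog cd1q2a cd3q3 pd0 false false false .up 2 0 3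
    ndB1q2a ndB3q3 pcB0 Cut.none Ext.none :=
  certB0 (fam := false) (s1 := false) (s2 := false) (a := 2) (b := 0) (c := 3) (cn := .up) (n1 := ndB1q2a) (n2 := ndB3q3) (pc := pcB0) (cut := Cut.none) (xt := Ext.none) (P1 := 0) (W1 := 536870912) (P2 := 0) (W2 := 1230186008) (P3 := 740881858) (W3 := 40050571) (N0 := 3) (En := eng) (mo := mog) (C1 := cd1q2a) (C2 := cd3q3) (C3 := pd0)
    rfl k0_mm_203_a

noncomputable def f_mm_203_b : ℕ → ℕ → ℕ → ℕ → Bool := onCell 1239849684 370763052 0 1230186008 740881858 40050571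
    (rowB 3 eng mog cd1q2b cd3q3 pd0 0 false false false .up 2 0 3 (qsf 1239849684 370763052 0 1230186008 0) ndB1q2b ndB3q3 pcB0 Cut.none Ext.none)

def k0_mm_203_b : ∃ t, chk3 f_mm_203_b t 1 1 1 = true :=
  ⟨(b (l 3) (l 3)), by decide +kernel⟩

theorem c_mm_203_b : CertB 1239849684 370763052 0 1230186008 740881858 40050571 3 eng mog cd1q2b cd3q3 pd0 false false false .up 2 0 3
    ndB1q2b ndB3q3 pcB0 Cut.none Ext.none :=
  certB0 (fam := false) (s1 := false) (s2 := false) (a := 2) (b := 0) (c := 3) (cn := .up) (n1 := ndB1q2b) (n2 := ndB3q3) (pc := pcB0) (cut := Cut.none) (xt := Ext.none) (P1 := 1239849684) (W1 := 370763052) (P2 := 0) (W2 := 1230186008) (P3 := 740881858) (W3 := 40050571) (N0 := 3) (En := eng) (mo := mog) (C1 := cd1q2b) (C2 := cd3q3) (C3 := pd0)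
    rfl k0_mm_203_b

noncomputable def f_mm_213_a : ℕ → ℕ → ℕ → ℕ → Bool := onCell 0 536870912 0 1230186008 740881858 40050571
    (rowB 3 eng mog cd1q2a cd3q3 pd1 0 false false false .pnn 2 1 3 (qsf 0 536870912 0 1230186008 1) ndB1q2a ndB3q3 pcB1 Cut.none Ext.none)

def k0_mm_213_a : ∃ t, chk3 f_mm_213_a t 1 1 1 = true :=
  ⟨(b (a (l 3) (l 5)) (l 3)), by decide +kernel⟩

theorem c_mm_213_a : CertB 0 536870912 0 1230186008 740881858 40050571 3 eng mog cd1q2a cd3q3 pd1 false false false .pnn 2 1 3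
    ndB1q2a ndB3q3 pcB1 Cut.none Ext.none :=
  certB0 (fam := false) (s1 := false) (s2 := false) (a := 2) (b := 1) (c := 3) (cn := .pnn) (n1 := ndB1q2a) (n2 := ndB3q3) (pc := pcB1) (cut := Cut.none) (xt := Ext.none) (P1 := 0) (W1 := 536870912) (P2 := 0) (W2 := 1230186008) (P3 := 740881858) (W3 := 40050571) (N0 := 3) (En := eng) (mo := mog) (C1 := cd1q2a) (C2 := cd3q3) (C3 := pd1)
    rfl k0_mm_213_a

noncomputable def f_mm_213_b : ℕ → ℕ → ℕ → ℕ → Bool := onCell 1239849684 370763052 0 1230186008 740881858 40050571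
    (rowB 3 eng mog cd1q2b cd3q3 pd1 0 false false false .pnn 2 1 3 (qsf 1239849684 370763052 0 1230186008 1) ndB1q2b ndB3q3 pcB1 Cut.none Ext.none)

def k0_mm_213_b : ∃ t, chk3 f_mm_213_b t 1 1 1 = true :=
  ⟨(b (l 3) (l 3)), by decide +kernel⟩

theorem c_mm_213_b : CertB 1239849684 370763052 0 1230186008 740881858 40050571 3 eng mog cd1q2b cd3q3 pd1 false false false .pnn 2 1 3
    ndB1q2b ndB3q3 pcB1 Cut.none Ext.none :=
  certB0 (fam := false) (s1 := false) (s2 := false) (a := 2) (b := 1) (c := 3) (cn := .pnn) (n1 := ndB1q2b) (n2 := ndB3q3) (pc := pcB1) (cut := Cut.none) (xt := Ext.none) (P1 := 1239849684) (W1 := 370763052) (P2 := 0) (W2 := 1230186008) (P3 := 740881858) (W3 := 40050571) (N0 := 3) (En := eng) (mo := mog) (C1 := cd1q2b) (C2 := cd3q3) (C3 := pd1)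
    rfl k0_mm_213_b

noncomputable def f_mm_303 : ℕ → ℕ → ℕ → ℕ → Bool := onCell 1610612736 536870912 0 1230186008 740881858 40050571
    (rowB 3 eng mog cd1q3 cd3q3 pd0 0 false false false .npn 3 0 3 (qsf 1610612736 536870912 0 1230186008 0) ndB1q3 ndB3q3 pcB0 Cut.none Ext.none)

def k0_mm_303 : ∃ t, chk3 f_mm_303 t 1 1 1 = true :=
  ⟨(b (l 3) (l 3)), by decide +kernel⟩

theorem c_mm_303 : CertB 1610612736 536870912 0 1230186008 740881858 40050571 3 eng mog cd1q3 cd3q3 pd0 false false false .npn 3 0 3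
    ndB1q3 ndB3q3 pcB0 Cut.none Ext.none :=
  certB0 (fam := false) (s1 := false) (s2 := false) (a := 3) (b := 0) (c := 3) (cn := .npn) (n1 := ndB1q3) (n2 := ndB3q3) (pc := pcB0) (cut := Cut.none) (xt := Ext.none) (P1 := 1610612736) (W1 := 536870912) (P2 := 0) (W2 := 1230186008) (P3 := 740881858) (W3 := 40050571) (N0 := 3) (En := eng) (mo := mog) (C1 := cd1q3) (C2 := cd3q3) (C3 := pd0)
    rfl k0_mm_303

noncomputable def f_mm_313 : ℕ → ℕ → ℕ → ℕ → Bool := onCell 1610612736 536870912 0 1230186008 740881858 40050571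
    (rowB 3 eng mog cd1q3 cd3q3 pd1 0 false false false .dn 3 1 3 (qsf 1610612736 536870912 0 1230186008 1) ndB1q3 ndB3q3 pcB1 Cut.none Ext.none)

def k0_mm_313 : ∃ t, chk3 f_mm_313 t 1 1 1 = true :=
  ⟨(b (l 3) (l 1)), by decide +kernel⟩

theorem c_mm_313 : CertB 1610612736 536870912 0 1230186008 740881858 40050571 3 eng mog cd1q3 cd3q3 pd1 false false false .dn 3 1 3
    ndB1q3 ndB3q3 pcB1 Cut.none Ext.none :=
  certB0 (fam := false) (s1 := false) (s2 := false) (a := 3) (b := 1) (c := 3) (cn := .dn) (n1 := ndB1q3) (n2 := ndB3q3) (pc := pcB1) (cut := Cut.none) (xt := Ext.none) (P1 := 1610612736) (W1 := 536870912) (P2 := 0) (W2 := 1230186008) (P3 := 740881858) (W3 := 40050571) (N0 := 3) (En := eng) (mo := mog) (C1 := cd1q3) (C2 := cd3q3) (C3 := pd1)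
    rfl k0_mm_313

end Pool.Agent.Strip051.G.I69_7273.Tab.C.BB13

namespace Pool.Agent.Strip051.G.I69_7273.Tab.C.BB14

open Pool.Agent.Strip051.PB Pool.Agent.Strip051.PB.T
open Pool.Agent.Strip051.G.I69_7273.Tab

noncomputable def f_pp_001 : ℕ → ℕ → ℕ → ℕ → Bool := onCell 0 536870912 0 536870912 740881858 40050571
    (rowB 3 eng mog cd1q0 cd4q1 pd0 1 false true true .up 0 0 1 (qsf 0 536870912 536870912 536870912 0) ndB1q0 ndB4q1 pcB0 Cut.none Ext.none)

def k0_pp_001 : ∃ t, chk3 f_pp_001 t 1 1 1 = true :=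
  ⟨(l 3), by decide +kernel⟩

theorem c_pp_001 : CertB 0 536870912 536870912 536870912 740881858 40050571 3 eng mog cd1q0 cd4q1 pd0 false true true .up 0 0 1
    ndB1q0 ndB4q1 pcB0 Cut.none Ext.none :=
  certB1 (fam := false) (s1 := true) (s2 := true) (a := 0) (b := 0) (c := 1) (cn := .up) (n1 := ndB1q0) (n2 := ndB4q1) (pc := pcB0) (cut := Cut.none) (xt := Ext.none) (P1 := 0) (W1 := 536870912) (P2 := 536870912) (W2 := 536870912) (P3 := 740881858) (W3 := 40050571) (N0 := 3) (En := eng) (mo := mog) (C1 := cd1q0) (C2 := cd4q1) (C3 := pd0)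
    rfl (fun _ => rfl) k0_pp_001

noncomputable def cut_pp_011 : Cut := Cut.of [[⟨0, 0, 0, 67108864⟩, ⟨1, 1, 0, 67108864⟩, ⟨2, 1, 0, 67108864⟩]]

noncomputable def f_pp_011 : ℕ → ℕ → ℕ → ℕ → Bool := onCell 0 536870912 536870912 536870912 740881858 40050571
    (rowB 3 eng mog cd1q0 cd4q1 pd1 1 false true true .pnn 0 1 1 (qsf 0 536870912 536870912 536870912 1) ndB1q0 ndB4q1 pcB1 cut_pp_011 Ext.none)

def k0_pp_011 : ∃ t, chk3 f_pp_011 t 1 1 1 = true :=
  ⟨(b (l 3) (b (l 3) (a (b (l 3) (a (a (b (l 3) (a (l 6) (l 3))) (l 3)) (l 2))) (l 2)))), by decide +kernel⟩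

theorem c_pp_011 : CertB 0 536870912 536870912 536870912 740881858 40050571 3 eng mog cd1q0 cd4q1 pd1 false true true .pnn 0 1 1
    ndB1q0 ndB4q1 pcB1 cut_pp_011 Ext.none :=
  certB1 (fam := false) (s1 := true) (s2 := true) (a := 0) (b := 1) (c := 1) (cn := .pnn) (n1 := ndB1q0) (n2 := ndB4q1) (pc := pcB1) (cut := cut_pp_011) (xt := Ext.none) (P1 := 0) (W1 := 536870912) (P2 := 536870912) (W2 := 536870912) (P3 := 740881858) (W3 := 40050571) (N0 := 3) (En := eng) (mo := mog) (C1 := cd1q0) (C2 := cd4q1) (C3 := pd1)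
    rfl (fun _ => rfl) k0_pp_011

noncomputable def f_pp_012 : ℕ → ℕ → ℕ → ℕ → Bool := onCell 0 536870912 536870912 536870912 740881858 40050571
    (rowB 3 eng mog cd1q0 cd4q2 pd1 1 false true true .pnp 0 1 2 (qsf 0 536870912 1073741824 536870912 1) ndB1q0 ndB4q2 pcB1 Cut.none Ext.none)

def k0_pp_012 : ∃ t, chk3 f_pp_012 t 1 1 1 = true :=
  ⟨(l 3), by decide +kernel⟩

theorem c_pp_012 : CertB 0 536870912 1073741824 536870912 740881858 40050571 3 eng mog cd1q0 cd4q2 pd1 false true true .pnp 0 1 2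
    ndB1q0 ndB4q2 pcB1 Cut.none Ext.none :=
  certB1 (fam := false) (s1 := true) (s2 := true) (a := 0) (b := 1) (c := 2) (cn := .pnp) (n1 := ndB1q0) (n2 := ndB4q2) (pc := pcB1) (cut := Cut.none) (xt := Ext.none) (P1 := 0) (W1 := 536870912) (P2 := 1073741824) (W2 := 536870912) (P3 := 740881858) (W3 := 40050571) (N0 := 3) (En := eng) (mo := mog) (C1 := cd1q0) (C2 := cd4q2) (C3 := pd1)
    rfl (fun _ => rfl) k0_pp_012

noncomputable def f_pp_022 : ℕ → ℕ → ℕ → ℕ → Bool := onCell 0 536870912 1073741824 536870912 740881858 40050571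
    (rowB 3 eng mog cd1q0 cd4q2 pd2 1 false true true .pp 0 2 2 (qsf 0 536870912 1073741824 536870912 2) ndB1q0 ndB4q2 pcB2 Cut.none Ext.none)

def k0_pp_022 : ∃ t, chk3 f_pp_022 t 1 2 1 = true :=
  ⟨(b (b (l 3) (a (l 3) (a (l 3) (a (l 3) (b (l 3) (l 2)))))) (b (a (b (b (l 3) (b (a (l 3) (a (l 3) (l 730311865143))) (a (b (l 3) (a (b (b (l 3) (a (a (l 16332024) (l 16459528)) (l 3))) (a (c (l 16450016) (l 16438072)) (l 16459224))) (b (a (l 3) (l 16481176)) (l 16471600)))) (b (a (a (l 3) (l 16516864)) (l 16539088)) (a (b (a (l 16494456) (l 16511128)) (l 16498816)) (b (l 16555440) (l 16489464))))))) (a (a (a (b (c (l 16356584) (l 16411320)) (l 16338360)) (c (l 16423256) (l 16399344))) (a (l 16423624) (l 16436832))) (a (a (l 16454336) (l 16475400)) (l 16506024)))) (a (b (b (b (l 3) (a (l 3) (l 16584400))) (b (a (l 16568424) (l 16578320)) (b (a (l 16563352) (l 16578680)) (a (b (l 16560888) (l 16559856)) (l 16581928))))) (a (l 16544128) (l 16576440))) (b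 (b (a (b (l 16597568) (l 2)) (l 2)) (l 2)) (l 2)))) (a (a (a (b (a (b (l 16314520) (l 16292592)) (l 16371448)) (a (l 16252880) (l 16254704))) (a (b (l 16347920) (l 16280208)) (l 16483504))) (a (b (a (l 16392720) (l 16421168)) (l 16441032)) (b (l 16505312) (l 16428176)))) (a (a (b (l 16517160) (l 16496344)) (b (l 16565608) (l 2))) (l 2))))), by decide +kernel⟩

def k1_pp_022 : ∃ t, chk3 f_pp_022 t 1 3 1 = true :=
  ⟨(a (b (a (b (a (a (b (l 16158232) (l 16093248)) (l 16305120)) (b (a (l 16220984) (l 16255336)) (l 16191544))) (a (a (b (l 16037528) (l 15991664)) (l 16062296)) (a (l 16113608) (l 16166216)))) (b (a (b (l 16336824) (l 16283648)) (b (l 16401008) (l 16382208))) (a (l 16400128) (l 16428368)))) (a (a (b (a (l 15942880) (l 16007920)) (a (l 15919216) (l 16000016))) (b (a (l 16074536) (l 16141160)) (a (l 16077792) (l 2)))) (b (a (l 16304008) (l 2)) (l 2)))) (b (a (b (a (b (l 16481272) (l 2)) (l 2)) (l 2)) (l 2)) (l 2))), by decide +kernel⟩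

theorem s2_pp_022 : ∃ t, chk3 f_pp_022 t 1 1 1 = true := ex3_b k0_pp_022 k1_pp_022

theorem c_pp_022 : CertB 0 536870912 1073741824 536870912 740881858 40050571 3 eng mog cd1q0 cd4q2 pd2 false true true .pp 0 2 2
    ndB1q0 ndB4q2 pcB2 Cut.none Ext.none :=
  certB1 (fam := false) (s1 := true) (s2 := true) (a := 0) (b := 2) (c := 2) (cn := .pp) (n1 := ndB1q0) (n2 := ndB4q2) (pc := pcB2) (cut := Cut.none) (xt := Ext.none) (P1 := 0) (W1 := 536870912) (P2 := 1073741824) (W2 := 536870912) (P3 := 740881858) (W3 := 40050571) (N0 := 3) (En := eng) (mo := mog) (C1 := cd1q0) (C2 := cd4q2) (C3 := pd2)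
    rfl (fun _ => rfl) s2_pp_022

noncomputable def f_pp_023 : ℕ → ℕ → ℕ → ℕ → Bool := onCell 1073741824 536870912 0 1230186008 740881858 40050571
    (rowB 3 eng mog cd1q0 cd4q3 pd2 2 false true true .up 0 2 3 (qsf 0 536870912 0 1230186008 2) ndB1q0 ndB4q3 pcB2 Cut.none Ext.none)

def k0_pp_023 : ∃ t, chk3 f_pp_023 t 1 1 1 = true :=
  ⟨(a (a (b (l 2) (b (l 2) (b (l 2) (a (l 3) (a (l 3) (a (l 3) (b (l 16622312) (l 3)))))))) (b (l 2) (a (b (l 2) (a (a (b (b (l 2) (l 16639224)) (b (a (l 16619264) (l 16617312)) (a (l 16599320) (l 16594744)))) (b (a (l 16648504) (a (l 16644464) (l 16658352))) (a (b (l 16618280) (l 16589136)) (b (a (l 16620520) (l 16618376)) (a (l 16586056) (l 16584728)))))) (b (l 16629784) (b (l 16607416) (l 16584600))))) (b (b (l 2) (l 16622240)) (b (l 16597672) (b (l 16585960) (l 16540128))))))) (b (a (l 2) (b (a (l 2) (l 16603424)) (b (l 16635320) (l 16641784)))) (b (a (b (l 16821216) (a (l 16605792) (l 16602664))) (b (l 16616696)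 (l 16548304))) (a (b (a (l 16540680) (l 16535544)) (a (b (l 16527576) (a (l 16469264) (l 16413544))) (b (l 16433088) (l 16320736)))) (b (b (l 16456216) (l 16390336)) (b (a (l 16319400) (l 16194904)) (a (l 16186984) (b (l 16090776) (l 16007792))))))))), by decide +kernel⟩

theorem c_pp_023 : CertB 0 536870912 0 1230186008 740881858 40050571 3 eng mog cd1q0 cd4q3 pd2 false true true .up 0 2 3
    ndB1q0 ndB4q3 pcB2 Cut.none Ext.none :=
  certB2 (fam := false) (s1 := true) (s2 := true) (a := 0) (b := 2) (c := 3) (cn := .up) (n1 := ndB1q0) (n2 := ndB4q3) (pc := pcB2) (cut := Cut.none) (xt := Ext.none) (P1 := 0) (W1 := 536870912) (P2 := 0) (W2 := 1230186008) (P3 := 740881858) (W3 := 40050571) (N0 := 3) (En := eng) (mo := mog) (C1 := cd1q0) (C2 := cd4q3) (C3 := pd2)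
    rfl (fun _ => rfl) k0_pp_023

noncomputable def f_pp_033 : ℕ → ℕ → ℕ → ℕ → Bool := onCell 1610612736 536870912 0 1230186008 740881858 40050571
    (rowB 3 eng mog cd1q0 cd4q3 pd3 2 false true true .pnn 0 3 3 (qsf 0 536870912 0 1230186008 3) ndB1q0 ndB4q3 pcB3 Cut.none Ext.none)

def k0_pp_033 : ∃ t, chk3 f_pp_033 t 1 1 1 = true :=
  ⟨(b (b (a (a (b (l 16551296) (l 16586776)) (a (l 16506104) (l 16446776))) (a (a (l 16365192) (l 4)) (l 4))) (b (a (a (l 16578040) (a (l 16471136) (l 16401232))) (a (a (l 16317848) (l 124788389559)) (l 4))) (a (a (l 16551144) (a (l 16412392) (l 16330280))) (a (a (l 16430024) (a (l 16184368) (l 16129416))) (a (a (l 16082424) (l 4)) (l 4)))))) (b (a (a (b (a (l 16568944) (l 16440520)) (a (l 16454960) (l 16324232))) (a (b (a (l 16347896) (l 16292080)) (a (l 16211760) (l 16144352))) (b (a (l 16246504) (l 16201640)) (a (l 16079232) (b (l 16099032) (l 206190844871)))))) (b (a (a (a (l 16151800) (b (l 16138496) (l 16067976)))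 (a (l 328597628247) (b (l 16074352) (l 15997680)))) (a (a (b (l 721587109271) (l 1)) (l 1)) (l 1))) (a (a (a (b (l 16038832) (l 15921192)) (b (l 15973808) (l 348997730615))) (a (b (l 375841809159) (l 1)) (l 1))) (l 1)))) (a (a (b (a (l 16237280) (b (l 16161936) (l 16028352))) (b (a (l 16034800) (l 15886712)) (a (l 206727316199) (l 350608532199)))) (b (a (a (l 15982704) (l 281352356007)) (a (l 284036581095) (b (l 15885144) (l 1)))) (b (a (a (l 15771456) (l 1)) (l 1)) (l 1)))) (l 1)))), by decide +kernel⟩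

theorem c_pp_033 : CertB 0 536870912 0 1230186008 740881858 40050571 3 eng mog cd1q0 cd4q3 pd3 false true true .pnn 0 3 3
    ndB1q0 ndB4q3 pcB3 Cut.none Ext.none :=
  certB2 (fam := false) (s1 := true) (s2 := true) (a := 0) (b := 3) (c := 3) (cn := .pnn) (n1 := ndB1q0) (n2 := ndB4q3) (pc := pcB3) (cut := Cut.none) (xt := Ext.none) (P1 := 0) (W1 := 536870912) (P2 := 0) (W2 := 1230186008) (P3 := 740881858) (W3 := 40050571) (N0 := 3) (En := eng) (mo := mog) (C1 := cd1q0) (C2 := cd4q3) (C3 := pd3)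
    rfl (fun _ => rfl) k0_pp_033

noncomputable def f_pp_101 : ℕ → ℕ → ℕ → ℕ → Bool := onCell 536870912 536870912 0 536870912 740881858 40050571
    (rowB 3 eng mog cd1q1 cd4q1 pd0 1 false true true .npn 1 0 1 (qsf 536870912 536870912 536870912 536870912 0) ndB1q1 ndB4q1 pcB0 Cut.none Ext.none)

def k0_pp_101 : ∃ t, chk3 f_pp_101 t 1 1 1 = true :=
  ⟨(l 3), by decide +kernel⟩

theorem c_pp_101 : CertB 536870912 536870912 536870912 536870912 740881858 40050571 3 eng mog cd1q1 cd4q1 pd0 false true true .npn 1 0 1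
    ndB1q1 ndB4q1 pcB0 Cut.none Ext.none :=
  certB1 (fam := false) (s1 := true) (s2 := true) (a := 1) (b := 0) (c := 1) (cn := .npn) (n1 := ndB1q1) (n2 := ndB4q1) (pc := pcB0) (cut := Cut.none) (xt := Ext.none) (P1 := 536870912) (W1 := 536870912) (P2 := 536870912) (W2 := 536870912) (P3 := 740881858) (W3 := 40050571) (N0 := 3) (En := eng) (mo := mog) (C1 := cd1q1) (C2 := cd4q1) (C3 := pd0)
    rfl (fun _ => rfl) k0_pp_101

noncomputable def f_pp_102 : ℕ → ℕ → ℕ → ℕ → Bool := onCell 536870912 536870912 1073741824 536870912 740881858 40050571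
    (rowB 3 eng mog cd1q1 cd4q2 pd0 0 false true true .npp 1 0 2 (qsf 536870912 536870912 1073741824 536870912 0) ndB1q1 ndB4q2 pcB0 Cut.none Ext.none)

def k0_pp_102 : ∃ t, chk3 f_pp_102 t 1 1 1 = true :=
  ⟨(l 3), by decide +kernel⟩

theorem c_pp_102 : CertB 536870912 536870912 1073741824 536870912 740881858 40050571 3 eng mog cd1q1 cd4q2 pd0 false true true .npp 1 0 2
    ndB1q1 ndB4q2 pcB0 Cut.none Ext.none :=
  certB0 (fam := false) (s1 := true) (s2 := true) (a := 1) (b := 0) (c := 2) (cn := .npp) (n1 := ndB1q1) (n2 := ndB4q2) (pc := pcB0) (cut := Cut.none) (xt := Ext.none) (P1 := 536870912) (W1 := 536870912) (P2 := 1073741824) (W2 := 536870912) (P3 := 740881858) (W3 := 40050571) (N0 := 3) (En := eng) (mo := mog) (C1 := cd1q1) (C2 := cd4q2) (C3 := pd0)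
    rfl k0_pp_102

noncomputable def f_pp_112 : ℕ → ℕ → ℕ → ℕ → Bool := onCell 536870912 536870912 1073741824 536870912 740881858 40050571
    (rowB 3 eng mog cd1q1 cd4q2 pd1 0 false true true .dn 1 1 2 (qsf 536870912 536870912 1073741824 536870912 1) ndB1q1 ndB4q2 pcB1 Cut.none Ext.none)

def k0_pp_112 : ∃ t, chk3 f_pp_112 t 1 1 1 = true :=
  ⟨(l 3), by decide +kernel⟩

theorem c_pp_112 : CertB 536870912 536870912 1073741824 536870912 740881858 40050571 3 eng mog cd1q1 cd4q2 pd1 false true true .dn 1 1 2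
    ndB1q1 ndB4q2 pcB1 Cut.none Ext.none :=
  certB0 (fam := false) (s1 := true) (s2 := true) (a := 1) (b := 1) (c := 2) (cn := .dn) (n1 := ndB1q1) (n2 := ndB4q2) (pc := pcB1) (cut := Cut.none) (xt := Ext.none) (P1 := 536870912) (W1 := 536870912) (P2 := 1073741824) (W2 := 536870912) (P3 := 740881858) (W3 := 40050571) (N0 := 3) (En := eng) (mo := mog) (C1 := cd1q1) (C2 := cd4q2) (C3 := pd1)
    rfl k0_pp_112

noncomputable def f_pp_113 : ℕ → ℕ → ℕ → ℕ → Bool := onCell 536870912 536870912 0 1230186008 740881858 40050571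
    (rowB 3 eng mog cd1q1 cd4q3 pd1 2 false true true .nn 1 1 3 (qsf 536870912 536870912 0 1230186008 1) ndB1q1 ndB4q3 pcB1 Cut.none Ext.none)

def k0_pp_113 : ∃ t, chk3 f_pp_113 t 1 1 1 = true :=
  ⟨(a (b (l 2) (a (l 3) (b (l 3) (l 3)))) (a (b (l 2) (b (l 3) (l 3))) (b (b (a (l 2) (a (l 2) (b (l 16775856) (l 16794760)))) (a (l 3) (a (l 3) (b (l 309405588951) (l 3))))) (b (l 3) (l 3))))), by decide +kernel⟩

theorem c_pp_113 : CertB 536870912 536870912 0 1230186008 740881858 40050571 3 eng mog cd1q1 cd4q3 pd1 false true true .nn 1 1 3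
    ndB1q1 ndB4q3 pcB1 Cut.none Ext.none :=
  certB2 (fam := false) (s1 := true) (s2 := true) (a := 1) (b := 1) (c := 3) (cn := .nn) (n1 := ndB1q1) (n2 := ndB4q3) (pc := pcB1) (cut := Cut.none) (xt := Ext.none) (P1 := 536870912) (W1 := 536870912) (P2 := 0) (W2 := 1230186008) (P3 := 740881858) (W3 := 40050571) (N0 := 3) (En := eng) (mo := mog) (C1 := cd1q1) (C2 := cd4q3) (C3 := pd1)
    rfl (fun _ => rfl) k0_pp_113

noncomputable def f_pp_123 : ℕ → ℕ → ℕ → ℕ → Bool := onCell 1073741824 536870912 0 1230186008 740881858 40050571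
    (rowB 3 eng mog cd1q1 cd4q3 pd2 2 false true true .npn 1 2 3 (qsf 536870912 536870912 0 1230186008 2) ndB1q1 ndB4q3 pcB2 Cut.none Ext.none)

def k0_pp_123 : ∃ t, chk3 f_pp_123 t 1 1 1 = true :=
  ⟨(a (a (b (a (b (b (l 16639496) (a (l 16708488) (l 16675760))) (b (a (l 16804712) (l 16747824)) (a (l 450602848423) (b (l 16810256) (l 234780764311))))) (b (a (l 16624160) (l 16603592)) (a (b (l 16714712) (l 16795816)) (b (l 16684640) (l 16761624))))) (a (b (a (l 3) (b (a (l 290615320935) (l 183241176343)) (l 3))) (l 3)) (b (a (b (a (l 16946104) (l 16853592)) (a (l 16887832) (l 16853448))) (b (l 16825288) (a (l 16814736) (l 16786968)))) (a (b (a (l 3) (l 16704864)) (l 3)) (b (a (l 16696248) (l 16689784)) (a (l 3) (l 119755820103))))))) (b (a (b (a (a (l 16603224) (a (l 16602680) (l 16603128))) (l 16602168)) (a (a (b (l 16677632) (l 16742248)) (a (l 16701344) (b (l 16675176) (l 16725888)))) (l 16688416))) (b (l 16606800) (l 16866976))) (a (b (a (a (b (l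 16795216) (l 16763008)) (a (l 16787944) (b (l 16764224) (l 16733904)))) (l 16872608)) (a (a (b (b (l 16706584) (l 16673832)) (a (l 119755816535) (l 122977033591))) (b (a (l 16687536) (a (l 16684600) (l 16678952))) (l 1))) (b (l 16676568) (l 1)))) (b (b (l 16713960) (l 16696080)) (b (l 16681504) (l 1)))))) (b (a (b (a (l 16616336) (l 16623312)) (a (l 16717152) (l 16680280))) (b (a (l 16637816) (l 16653256)) (b (l 16686256) (l 16702992)))) (b (a (a (l 118682422791) (l 16680152)) (b (l 16709224) (l 1))) (l 1)))), by decide +kernel⟩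

theorem c_pp_123 : CertB 536870912 536870912 0 1230186008 740881858 40050571 3 eng mog cd1q1 cd4q3 pd2 false true true .npn 1 2 3
    ndB1q1 ndB4q3 pcB2 Cut.none Ext.none :=
  certB2 (fam := false) (s1 := true) (s2 := true) (a := 1) (b := 2) (c := 3) (cn := .npn) (n1 := ndB1q1) (n2 := ndB4q3) (pc := pcB2) (cut := Cut.none) (xt := Ext.none) (P1 := 536870912) (W1 := 536870912) (P2 := 0) (W2 := 1230186008) (P3 := 740881858) (W3 := 40050571) (N0 := 3) (En := eng) (mo := mog) (C1 := cd1q1) (C2 := cd4q3) (C3 := pd2)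
    rfl (fun _ => rfl) k0_pp_123

noncomputable def f_pp_133 : ℕ → ℕ → ℕ → ℕ → Bool := onCell 536870912 536870912 0 1230186008 740881858 40050571
    (rowB 3 eng mog cd1q1 cd4q3 pd3 0 false true true .dn 1 3 3 (qsf 536870912 536870912 0 1230186008 3) ndB1q1 ndB4q3 pcB3 Cut.none Ext.none)

def k0_pp_133 : ∃ t, chk3 f_pp_133 t 1 1 1 = true :=
  ⟨(b (b (a (a (a (l 16722792) (l 1)) (l 1)) (l 1)) (l 1)) (l 1)), by decide +kernel⟩

theorem c_pp_133 : CertB 536870912 536870912 0 1230186008 740881858 40050571 3 eng mog cd1q1 cd4q3 pd3 false true true .dn 1 3 3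
    ndB1q1 ndB4q3 pcB3 Cut.none Ext.none :=
  certB0 (fam := false) (s1 := true) (s2 := true) (a := 1) (b := 3) (c := 3) (cn := .dn) (n1 := ndB1q1) (n2 := ndB4q3) (pc := pcB3) (cut := Cut.none) (xt := Ext.none) (P1 := 536870912) (W1 := 536870912) (P2 := 0) (W2 := 1230186008) (P3 := 740881858) (W3 := 40050571) (N0 := 3) (En := eng) (mo := mog) (C1 := cd1q1) (C2 := cd4q3) (C3 := pd3)
    rfl k0_pp_133

noncomputable def f_pp_202_a : ℕ → ℕ → ℕ → ℕ → Bool := onCell 0 536870912 1073741824 536870912 740881858 40050571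
    (rowB 3 eng mog cd1q2a cd4q2 pd0 0 false true true .pp 2 0 2 (qsf 0 536870912 1073741824 536870912 0) ndB1q2a ndB4q2 pcB0 Cut.none Ext.none)

def k0_pp_202_a : ∃ t, chk3 f_pp_202_a t 1 1 1 = true :=
  ⟨(l 5), by decide +kernel⟩

theorem c_pp_202_a : CertB 0 536870912 1073741824 536870912 740881858 40050571 3 eng mog cd1q2a cd4q2 pd0 false true true .pp 2 0 2
    ndB1q2a ndB4q2 pcB0 Cut.none Ext.none :=
  certB0 (fam := false) (s1 := true) (s2 := true) (a := 2) (b := 0) (c := 2) (cn := .pp) (n1 := ndB1q2a) (n2 := ndB4q2) (pc := pcB0) (cut := Cut.none) (xt := Ext.none) (P1 := 0) (W1 := 536870912) (P2 := 1073741824) (W2 := 536870912) (P3 := 740881858) (W3 := 40050571) (N0 := 3) (En := eng) (mo := mog) (C1 := cd1q2a) (C2 := cd4q2) (C3 := pd0)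
    rfl k0_pp_202_a

noncomputable def f_pp_202_b : ℕ → ℕ → ℕ → ℕ → Bool := onCell 1239849684 370763052 1073741824 536870912 740881858 40050571
    (rowB 3 eng mog cd1q2b cd4q2 pd0 0 false true true .pp 2 0 2 (qsf 1239849684 370763052 1073741824 536870912 0) ndB1q2b ndB4q2 pcB0 Cut.none Ext.none)

def k0_pp_202_b : ∃ t, chk3 f_pp_202_b t 1 1 1 = true :=
  ⟨(l 5), by decide +kernel⟩

theorem c_pp_202_b : CertB 1239849684 370763052 1073741824 536870912 740881858 40050571 3 eng mog cd1q2b cd4q2 pd0 false true true .pp 2 0 2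
    ndB1q2b ndB4q2 pcB0 Cut.none Ext.none :=
  certB0 (fam := false) (s1 := true) (s2 := true) (a := 2) (b := 0) (c := 2) (cn := .pp) (n1 := ndB1q2b) (n2 := ndB4q2) (pc := pcB0) (cut := Cut.none) (xt := Ext.none) (P1 := 1239849684) (W1 := 370763052) (P2 := 1073741824) (W2 := 536870912) (P3 := 740881858) (W3 := 40050571) (N0 := 3) (En := eng) (mo := mog) (C1 := cd1q2b) (C2 := cd4q2) (C3 := pd0)
    rfl k0_pp_202_b

noncomputable def f_pp_203_a : ℕ → ℕ → ℕ → ℕ → Bool := onCell 0 536870912 0 1230186008 740881858 40050571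
    (rowB 3 eng mog cd1q2a cd4q3 pd0 0 false true true .up 2 0 3 (qsf 0 536870912 0 1230186008 0) ndB1q2a ndB4q3 pcB0 Cut.none Ext.none)

def k0_pp_203_a : ∃ t, chk3 f_pp_203_a t 1 1 1 = true :=
  ⟨(b (l 2) (l 3)), by decide +kernel⟩

theorem c_pp_203_a : CertB 0 536870912 0 1230186008 740881858 40050571 3 eng mog cd1q2a cd4q3 pd0 false true true .up 2 0 3
    ndB1q2a ndB4q3 pcB0 Cut.none Ext.none :=
  certB0 (fam := false) (s1 := true) (s2 := true) (a := 2) (b := 0) (c := 3) (cn := .up) (n1 := ndB1q2a) (n2 := ndB4q3) (pc := pcB0) (cut := Cut.none) (xt := Ext.none) (P1 := 0) (W1 := 536870912) (P2 := 0) (W2 := 1230186008) (P3 := 740881858) (W3 := 40050571) (N0 := 3) (En := eng) (mo := mog) (C1 := cd1q2a) (C2 := cd4q3) (C3 := pd0)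
    rfl k0_pp_203_a

noncomputable def f_pp_203_b : ℕ → ℕ → ℕ → ℕ → Bool := onCell 1239849684 370763052 0 1230186008 740881858 40050571
    (rowB 3 eng mog cd1q2b cd4q3 pd0 0 false true true .up 2 0 3 (qsf 1239849684 370763052 0 1230186008 0) ndB1q2b ndB4q3 pcB0 Cut.none Ext.none)

def k0_pp_203_b : ∃ t, chk3 f_pp_203_b t 1 1 1 = true :=
  ⟨(b (l 3) (l 3)), by decide +kernel⟩

theorem c_pp_203_b : CertB 1239849684 370763052 0 1230186008 740881858 40050571 3 eng mog cd1q2b cd4q3 pd0 false true true .up 2 0 3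
    ndB1q2b ndB4q3 pcB0 Cut.none Ext.none :=
  certB0 (fam := false) (s1 := true) (s2 := true) (a := 2) (b := 0) (c := 3) (cn := .up) (n1 := ndB1q2b) (n2 := ndB4q3) (pc := pcB0) (cut := Cut.none) (xt := Ext.none) (P1 := 1239849684) (W1 := 370763052) (P2 := 0) (W2 := 1230186008) (P3 := 740881858) (W3 := 40050571) (N0 := 3) (En := eng) (mo := mog) (C1 := cd1q2b) (C2 := cd4q3) (C3 := pd0)
    rfl k0_pp_203_b

noncomputable def cut_pp_213_a : Cut := Cut.of [[⟨0, 1, 0, 67108864⟩, ⟨1, 1, 0, 67108864⟩, ⟨2, 2, 0, 16777216⟩]]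

noncomputable def f_pp_213_a : ℕ → ℕ → ℕ → ℕ → Bool := onCell 0 536870912 0 1230186008 740881858 40050571
    (rowB 3 eng mog cd1q2a cd4q3 pd1 0 false true true .pnn 2 1 3 (qsf 0 536870912 0 1230186008 1) ndB1q2a ndB4q3 pcB1 cut_pp_213_a Ext.none)

def k0_pp_213_a : ∃ t, chk3 f_pp_213_a t 1 1 1 = true :=
  ⟨(b (a (l 3) (b (a (l 3) (a (l 3) (b (l 6) (l 3)))) (l 3))) (l 3)), by decide +kernel⟩

theorem c_pp_213_a : CertB 0 536870912 0 1230186008 740881858 40050571 3 eng mog cd1q2a cd4q3 pd1 false true true .pnn 2 1 3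
    ndB1q2a ndB4q3 pcB1 cut_pp_213_a Ext.none :=
  certB0 (fam := false) (s1 := true) (s2 := true) (a := 2) (b := 1) (c := 3) (cn := .pnn) (n1 := ndB1q2a) (n2 := ndB4q3) (pc := pcB1) (cut := cut_pp_213_a) (xt := Ext.none) (P1 := 0) (W1 := 536870912) (P2 := 0) (W2 := 1230186008) (P3 := 740881858) (W3 := 40050571) (N0 := 3) (En := eng) (mo := mog) (C1 := cd1q2a) (C2 := cd4q3) (C3 := pd1)
    rfl k0_pp_213_a

noncomputable def cut_pp_213_b : Cut := Cut.of [[⟨0, 1, 0, 67108864⟩, ⟨1, 1, 0, 67108864⟩, ⟨2, 2, 0, 16777216⟩]]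

noncomputable def f_pp_213_b : ℕ → ℕ → ℕ → ℕ → Bool := onCell 1239849684 370763052 0 1230186008 740881858 40050571
    (rowB 3 eng mog cd1q2b cd4q3 pd1 0 false true true .pnn 2 1 3 (qsf 1239849684 370763052 0 1230186008 1) ndB1q2b ndB4q3 pcB1 cut_pp_213_b Ext.none)

def k0_pp_213_b : ∃ t, chk3 f_pp_213_b t 1 1 1 = true :=
  ⟨(b (l 3) (l 3)), by decide +kernel⟩

theorem c_pp_213_b : CertB 1239849684 370763052 0 1230186008 740881858 40050571 3 eng mog cd1q2b cd4q3 pd1 false true true .pnn 2 1 3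
    ndB1q2b ndB4q3 pcB1 cut_pp_213_b Ext.none :=
  certB0 (fam := false) (s1 := true) (s2 := true) (a := 2) (b := 1) (c := 3) (cn := .pnn) (n1 := ndB1q2b) (n2 := ndB4q3) (pc := pcB1) (cut := cut_pp_213_b) (xt := Ext.none) (P1 := 1239849684) (W1 := 370763052) (P2 := 0) (W2 := 1230186008) (P3 := 740881858) (W3 := 40050571) (N0 := 3) (En := eng) (mo := mog) (C1 := cd1q2b) (C2 := cd4q3) (C3 := pd1)
    rfl k0_pp_213_b

noncomputable def f_pp_303 : ℕ → ℕ → ℕ → ℕ → Bool := onCell 1610612736 536870912 0 1230186008 740881858 40050571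
    (rowB 3 eng mog cd1q3 cd4q3 pd0 0 false true true .npn 3 0 3 (qsf 1610612736 536870912 0 1230186008 0) ndB1q3 ndB4q3 pcB0 Cut.none Ext.none)

def k0_pp_303 : ∃ t, chk3 f_pp_303 t 1 1 1 = true :=
  ⟨(b (l 3) (l 5)), by decide +kernel⟩

theorem c_pp_303 : CertB 1610612736 536870912 0 1230186008 740881858 40050571 3 eng mog cd1q3 cd4q3 pd0 false true true .npn 3 0 3
    ndB1q3 ndB4q3 pcB0 Cut.none Ext.none :=
  certB0 (fam := false) (s1 := true) (s2 := true) (a := 3) (b := 0) (c := 3) (cn := .npn) (n1 := ndB1q3) (n2 := ndB4q3) (pc := pcB0) (cut := Cut.none) (xt := Ext.none) (P1 := 1610612736) (W1 := 536870912) (P2 := 0) (W2 := 1230186008) (P3 := 740881858) (W3 := 40050571) (N0 := 3) (En := eng) (mo := mog) (C1 := cd1q3) (C2 := cd4q3) (C3 := pd0)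
    rfl k0_pp_303

noncomputable def f_pp_313 : ℕ → ℕ → ℕ → ℕ → Bool := onCell 1610612736 536870912 0 1230186008 740881858 40050571
    (rowB 3 eng mog cd1q3 cd4q3 pd1 0 false true true .dn 3 1 3 (qsf 1610612736 536870912 0 1230186008 1) ndB1q3 ndB4q3 pcB1 Cut.none Ext.none)

def k0_pp_313 : ∃ t, chk3 f_pp_313 t 1 1 1 = true :=
  ⟨(b (l 3) (l 1)), by decide +kernel⟩

theorem c_pp_313 : CertB 1610612736 536870912 0 1230186008 740881858 40050571 3 eng mog cd1q3 cd4q3 pd1 false true true .dn 3 1 3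
    ndB1q3 ndB4q3 pcB1 Cut.none Ext.none :=
  certB0 (fam := false) (s1 := true) (s2 := true) (a := 3) (b := 1) (c := 3) (cn := .dn) (n1 := ndB1q3) (n2 := ndB4q3) (pc := pcB1) (cut := Cut.none) (xt := Ext.none) (P1 := 1610612736) (W1 := 536870912) (P2 := 0) (W2 := 1230186008) (P3 := 740881858) (W3 := 40050571) (N0 := 3) (En := eng) (mo := mog) (C1 := cd1q3) (C2 := cd4q3) (C3 := pd1)
    rfl k0_pp_313

noncomputable def f_pm_001 : ℕ → ℕ → ℕ → ℕ → Bool := onCell 0 536870912 536870912 536870912 740881858 40050571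
    (rowB 3 eng mog cd1q0 cd4q1 pd0 0 false true false .up 0 0 1 (qsf 0 536870912 536870912 536870912 0) ndB1q0 ndB4q1 pcB0 Cut.none Ext.none)

def k0_pm_001 : ∃ t, chk3 f_pm_001 t 1 1 1 = true :=
  ⟨(l 4), by decide +kernel⟩

theorem c_pm_001 : CertB 0 536870912 536870912 536870912 740881858 40050571 3 eng mog cd1q0 cd4q1 pd0 false true false .up 0 0 1
    ndB1q0 ndB4q1 pcB0 Cut.none Ext.none :=
  certB0 (fam := false) (s1 := true) (s2 := false) (a := 0) (b := 0) (c := 1) (cn := .up) (n1 := ndB1q0) (n2 := ndB4q1) (pc := pcB0) (cut := Cut.none) (xt := Ext.none) (P1 := 0) (W1 := 536870912) (P2 := 536870912) (W2 := 536870912) (P3 := 740881858) (W3 := 40050571) (N0 := 3) (En := eng) (mo := mog) (C1 := cd1q0) (C2 := cd4q1) (C3 := pd0)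
    rfl k0_pm_001

noncomputable def f_pm_011 : ℕ → ℕ → ℕ → ℕ → Bool := onCell 0 536870912 536870912 536870912 740881858 40050571
    (rowB 3 eng mog cd1q0 cd4q1 pd1 0 false true false .pnn 0 1 1 (qsf 0 536870912 536870912 536870912 1) ndB1q0 ndB4q1 pcB1 Cut.none Ext.none)

def k0_pm_011 : ∃ t, chk3 f_pm_011 t 1 1 1 = true :=
  ⟨(l 4), by decide +kernel⟩

theorem c_pm_011 : CertB 0 536870912 536870912 536870912 740881858 40050571 3 eng mog cd1q0 cd4q1 pd1 false true false .pnn 0 1 1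
    ndB1q0 ndB4q1 pcB1 Cut.none Ext.none :=
  certB0 (fam := false) (s1 := true) (s2 := false) (a := 0) (b := 1) (c := 1) (cn := .pnn) (n1 := ndB1q0) (n2 := ndB4q1) (pc := pcB1) (cut := Cut.none) (xt := Ext.none) (P1 := 0) (W1 := 536870912) (P2 := 536870912) (W2 := 536870912) (P3 := 740881858) (W3 := 40050571) (N0 := 3) (En := eng) (mo := mog) (C1 := cd1q0) (C2 := cd4q1) (C3 := pd1)
    rfl k0_pm_011

noncomputable def f_pm_012 : ℕ → ℕ → ℕ → ℕ → Bool := onCell 0 536870912 1073741824 536870912 740881858 40050571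
    (rowB 3 eng mog cd1q0 cd4q2 pd1 0 false true false .pnp 0 1 2 (qsf 0 536870912 1073741824 536870912 1) ndB1q0 ndB4q2 pcB1 Cut.none Ext.none)

def k0_pm_012 : ∃ t, chk3 f_pm_012 t 1 1 1 = true :=
  ⟨(l 4), by decide +kernel⟩

theorem c_pm_012 : CertB 0 536870912 1073741824 536870912 740881858 40050571 3 eng mog cd1q0 cd4q2 pd1 false true false .pnp 0 1 2
    ndB1q0 ndB4q2 pcB1 Cut.none Ext.none :=
  certB0 (fam := false) (s1 := true) (s2 := false) (a := 0) (b := 1) (c := 2) (cn := .pnp) (n1 := ndB1q0) (n2 := ndB4q2) (pc := pcB1) (cut := Cut.none) (xt := Ext.none) (P1 := 0) (W1 := 536870912) (P2 := 1073741824) (W2 := 536870912) (P3 := 740881858) (W3 := 40050571) (N0 := 3) (En := eng) (mo := mog) (C1 := cd1q0) (C2 := cd4q2) (C3 := pd1)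
    rfl k0_pm_012

noncomputable def f_pm_022 : ℕ → ℕ → ℕ → ℕ → Bool := onCell 0 536870912 1073741824 536870912 740881858 40050571
    (rowB 3 eng mog cd1q0 cd4q2 pd2 0 false true false .pp 0 2 2 (qsf 0 536870912 1073741824 536870912 2) ndB1q0 ndB4q2 pcB2 Cut.none Ext.none)

def k0_pm_022 : ∃ t, chk3 f_pm_022 t 1 1 1 = true :=
  ⟨(l 4), by decide +kernel⟩

theorem c_pm_022 : CertB 0 536870912 1073741824 536870912 740881858 40050571 3 eng mog cd1q0 cd4q2 pd2 false true false .pp 0 2 2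
    ndB1q0 ndB4q2 pcB2 Cut.none Ext.none :=
  certB0 (fam := false) (s1 := true) (s2 := false) (a := 0) (b := 2) (c := 2) (cn := .pp) (n1 := ndB1q0) (n2 := ndB4q2) (pc := pcB2) (cut := Cut.none) (xt := Ext.none) (P1 := 0) (W1 := 536870912) (P2 := 1073741824) (W2 := 536870912) (P3 := 740881858) (W3 := 40050571) (N0 := 3) (En := eng) (mo := mog) (C1 := cd1q0) (C2 := cd4q2) (C3 := pd2)
    rfl k0_pm_022

noncomputable def f_pm_023 : ℕ → ℕ → ℕ → ℕ → Bool := onCell 0 536870912 0 1230186008 740881858 40050571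
    (rowB 3 eng mog cd1q0 cd4q3 pd2 0 false true false .up 0 2 3 (qsf 0 536870912 0 1230186008 2) ndB1q0 ndB4q3 pcB2 Cut.none Ext.none)

def k0_pm_023 : ∃ t, chk3 f_pm_023 t 1 1 1 = true :=
  ⟨(a (b (l 2) (l 4)) (b (a (l 2) (b (a (l 2) (l 16521384)) (l 4))) (l 4))), by decide +kernel⟩

theorem c_pm_023 : CertB 0 536870912 0 1230186008 740881858 40050571 3 eng mog cd1q0 cd4q3 pd2 false true false .up 0 2 3
    ndB1q0 ndB4q3 pcB2 Cut.none Ext.none :=
  certB0 (fam := false) (s1 := true) (s2 := false) (a := 0) (b := 2) (c := 3) (cn := .up) (n1 := ndB1q0) (n2 := ndB4q3) (pc := pcB2) (cut := Cut.none) (xt := Ext.none) (P1 := 0) (W1 := 536870912) (P2 := 0) (W2 := 1230186008) (P3 := 740881858) (W3 := 40050571) (N0 := 3) (En := eng) (mo := mog) (C1 := cd1q0) (C2 := cd4q3) (C3 := pd2)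
    rfl k0_pm_023

noncomputable def f_pm_033 : ℕ → ℕ → ℕ → ℕ → Bool := onCell 0 536870912 0 1230186008 740881858 40050571
    (rowB 3 eng mog cd1q0 cd4q3 pd3 0 false true false .pnn 0 3 3 (qsf 0 536870912 0 1230186008 3) ndB1q0 ndB4q3 pcB3 Cut.none Ext.none)

def k0_pm_033 : ∃ t, chk3 f_pm_033 t 1 1 1 = true :=
  ⟨(b (a (l 4) (a (b (l 4) (l 4)) (b (a (l 16537888) (l 16522896)) (l 4)))) (l 4)), by decide +kernel⟩

theorem c_pm_033 : CertB 0 536870912 0 1230186008 740881858 40050571 3 eng mog cd1q0 cd4q3 pd3 false true false .pnn 0 3 3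
    ndB1q0 ndB4q3 pcB3 Cut.none Ext.none :=
  certB0 (fam := false) (s1 := true) (s2 := false) (a := 0) (b := 3) (c := 3) (cn := .pnn) (n1 := ndB1q0) (n2 := ndB4q3) (pc := pcB3) (cut := Cut.none) (xt := Ext.none) (P1 := 0) (W1 := 536870912) (P2 := 0) (W2 := 1230186008) (P3 := 740881858) (W3 := 40050571) (N0 := 3) (En := eng) (mo := mog) (C1 := cd1q0) (C2 := cd4q3) (C3 := pd3)
    rfl k0_pm_033

noncomputable def f_pm_101 : ℕ → ℕ → ℕ → ℕ → Bool := onCell 536870912 536870912 536870912 536870912 740881858 40050571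
    (rowB 3 eng mog cd1q1 cd4q1 pd0 0 false true false .npn 1 0 1 (qsf 536870912 536870912 536870912 536870912 0) ndB1q1 ndB4q1 pcB0 Cut.none Ext.none)

def k0_pm_101 : ∃ t, chk3 f_pm_101 t 1 1 1 = true :=
  ⟨(l 4), by decide +kernel⟩

theorem c_pm_101 : CertB 536870912 536870912 536870912 536870912 740881858 40050571 3 eng mog cd1q1 cd4q1 pd0 false true false .npn 1 0 1
    ndB1q1 ndB4q1 pcB0 Cut.none Ext.none :=
  certB0 (fam := false) (s1 := true) (s2 := false) (a := 1) (b := 0) (c := 1) (cn := .npn) (n1 := ndB1q1) (n2 := ndB4q1) (pc := pcB0) (cut := Cut.none) (xt := Ext.none) (P1 := 536870912) (W1 := 536870912) (P2 := 536870912) (W2 := 536870912) (P3 := 740881858) (W3 := 40050571) (N0 := 3) (En := eng) (mo := mog) (C1 := cd1q1) (C2 := cd4q1) (C3 := pd0)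
    rfl k0_pm_101

noncomputable def f_pm_102 : ℕ → ℕ → ℕ → ℕ → Bool := onCell 536870912 536870912 0 536870912 740881858 40050571
    (rowB 3 eng mog cd1q1 cd4q2 pd0 1 false true false .npp 1 0 2 (qsf 536870912 536870912 1073741824 536870912 0) ndB1q1 ndB4q2 pcB0 Cut.none Ext.none)

def k0_pm_102 : ∃ t, chk3 f_pm_102 t 1 1 1 = true :=
  ⟨(a (l 4) (a (l 4) (b (b (l 4) (b (l 4) (a (l 4) (a (l 4) (l 15839832))))) (b (a (l 4) (b (l 15954952) (l 16092448))) (b (l 17413857191) (a (l 16178664) (l 16323744))))))), by decide +kernel⟩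

theorem c_pm_102 : CertB 536870912 536870912 1073741824 536870912 740881858 40050571 3 eng mog cd1q1 cd4q2 pd0 false true false .npp 1 0 2
    ndB1q1 ndB4q2 pcB0 Cut.none Ext.none :=
  certB1 (fam := false) (s1 := true) (s2 := false) (a := 1) (b := 0) (c := 2) (cn := .npp) (n1 := ndB1q1) (n2 := ndB4q2) (pc := pcB0) (cut := Cut.none) (xt := Ext.none) (P1 := 536870912) (W1 := 536870912) (P2 := 1073741824) (W2 := 536870912) (P3 := 740881858) (W3 := 40050571) (N0 := 3) (En := eng) (mo := mog) (C1 := cd1q1) (C2 := cd4q2) (C3 := pd0)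
    rfl (fun _ => rfl) k0_pm_102

noncomputable def f_pm_112 : ℕ → ℕ → ℕ → ℕ → Bool := onCell 536870912 536870912 1073741824 536870912 740881858 40050571
    (rowB 3 eng mog cd1q1 cd4q2 pd1 2 false true false .dn 1 1 2 (qsf 536870912 536870912 1073741824 536870912 1) ndB1q1 ndB4q2 pcB1 Cut.none Ext.none)

def k0_pm_112 : ∃ t, chk3 f_pm_112 t 1 1 1 = true :=
  ⟨(a (b (l 4) (a (b (l 4) (a (l 16278528) (l 16181912))) (l 4))) (l 4)), by decide +kernel⟩

theorem c_pm_112 : CertB 536870912 536870912 1073741824 536870912 740881858 40050571 3 eng mog cd1q1 cd4q2 pd1 false true false .dn 1 1 2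
    ndB1q1 ndB4q2 pcB1 Cut.none Ext.none :=
  certB2 (fam := false) (s1 := true) (s2 := false) (a := 1) (b := 1) (c := 2) (cn := .dn) (n1 := ndB1q1) (n2 := ndB4q2) (pc := pcB1) (cut := Cut.none) (xt := Ext.none) (P1 := 536870912) (W1 := 536870912) (P2 := 1073741824) (W2 := 536870912) (P3 := 740881858) (W3 := 40050571) (N0 := 3) (En := eng) (mo := mog) (C1 := cd1q1) (C2 := cd4q2) (C3 := pd1)
    rfl (fun _ => rfl) k0_pm_112

noncomputable def f_pm_113 : ℕ → ℕ → ℕ → ℕ → Bool := onCell 536870912 536870912 0 1230186008 740881858 40050571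
    (rowB 3 eng mog cd1q1 cd4q3 pd1 0 false true false .nn 1 1 3 (qsf 536870912 536870912 0 1230186008 1) ndB1q1 ndB4q3 pcB1 Cut.none Ext.none)

def k0_pm_113 : ∃ t, chk3 f_pm_113 t 1 1 1 = true :=
  ⟨(b (a (l 2) (a (l 2) (b (a (l 2) (b (a (l 2) (l 16747256)) (l 16719856))) (b (a (l 16571296) (l 16706968)) (a (l 16520944) (l 16689928)))))) (b (a (a (l 2) (b (l 2) (a (l 2) (b (l 2) (l 15906280))))) (a (b (a (l 2) (l 16314072)) (a (l 16109608) (l 16319184))) (b (l 16585104) (l 16595576)))) (a (b (l 4) (l 4)) (b (a (a (b (l 16147432) (l 16179088)) (b (l 16327824) (l 16365608))) (a (b (l 16525544) (l 16403080)) (l 16702752))) (a (a (l 4) (b (l 16390600) (l 16306704))) (b (a (l 16561416) (l 16749784)) (a (l 16457072) (l 16537200)))))))), by decide +kernel⟩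

theorem c_pm_113 : CertB 536870912 536870912 0 1230186008 740881858 40050571 3 eng mog cd1q1 cd4q3 pd1 false true false .nn 1 1 3
    ndB1q1 ndB4q3 pcB1 Cut.none Ext.none :=
  certB0 (fam := false) (s1 := true) (s2 := false) (a := 1) (b := 1) (c := 3) (cn := .nn) (n1 := ndB1q1) (n2 := ndB4q3) (pc := pcB1) (cut := Cut.none) (xt := Ext.none) (P1 := 536870912) (W1 := 536870912) (P2 := 0) (W2 := 1230186008) (P3 := 740881858) (W3 := 40050571) (N0 := 3) (En := eng) (mo := mog) (C1 := cd1q1) (C2 := cd4q3) (C3 := pd1)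
    rfl k0_pm_113

noncomputable def f_pm_123 : ℕ → ℕ → ℕ → ℕ → Bool := onCell 1073741824 536870912 0 1230186008 740881858 40050571
    (rowB 3 eng mog cd1q1 cd4q3 pd2 2 false true false .npn 1 2 3 (qsf 536870912 536870912 0 1230186008 2) ndB1q1 ndB4q3 pcB2 Cut.none Ext.none)

def k0_pm_123 : ∃ t, chk3 f_pm_123 t 1 1 1 = true :=
  ⟨(b (a (a (b (a (b (l 16614480) (l 16584872)) (l 16555784)) (a (b (a (l 16561472) (l 16503168)) (a (l 16472152) (l 16401680))) (b (a (l 16450976) (l 16404048)) (l 16323096)))) (a (b (a (l 16487032) (l 16330008)) (b (a (l 16363696) (l 16361112)) (l 16403384))) (b (l 16499496) (l 16270672)))) (a (b (a (l 16532816) (l 16557960)) (a (b (l 16436968) (l 16355752)) (l 16577200))) (a (b (l 16570872) (l 16542704)) (l 16824504)))) (a (a (b (a (b (l 16273992) (a (l 16093624) (l 16072840))) (b (l 16302320) (l 16015432))) (l 4)) (b (b (a (a (l 16177552) (l 16187072)) (l 16226480)) (l 4)) (l 4))) (a (b (b (a (l 16291552) (l 4)) (l 4))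 (l 1)) (l 4)))), by decide +kernel⟩

theorem c_pm_123 : CertB 536870912 536870912 0 1230186008 740881858 40050571 3 eng mog cd1q1 cd4q3 pd2 false true false .npn 1 2 3
    ndB1q1 ndB4q3 pcB2 Cut.none Ext.none :=
  certB2 (fam := false) (s1 := true) (s2 := false) (a := 1) (b := 2) (c := 3) (cn := .npn) (n1 := ndB1q1) (n2 := ndB4q3) (pc := pcB2) (cut := Cut.none) (xt := Ext.none) (P1 := 536870912) (W1 := 536870912) (P2 := 0) (W2 := 1230186008) (P3 := 740881858) (W3 := 40050571) (N0 := 3) (En := eng) (mo := mog) (C1 := cd1q1) (C2 := cd4q3) (C3 := pd2)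
    rfl (fun _ => rfl) k0_pm_123

noncomputable def f_pm_133 : ℕ → ℕ → ℕ → ℕ → Bool := onCell 1610612736 536870912 0 1230186008 740881858 40050571
    (rowB 3 eng mog cd1q1 cd4q3 pd3 2 false true false .dn 1 3 3 (qsf 536870912 536870912 0 1230186008 3) ndB1q1 ndB4q3 pcB3 Cut.none Ext.none)

def k0_pm_133 : ∃ t, chk3 f_pm_133 t 1 1 1 = true :=
  ⟨(b (a (a (a (l 16725648) (l 1)) (l 1)) (l 1)) (l 1)), by decide +kernel⟩

theorem c_pm_133 : CertB 536870912 536870912 0 1230186008 740881858 40050571 3 eng mog cd1q1 cd4q3 pd3 false true false .dn 1 3 3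
    ndB1q1 ndB4q3 pcB3 Cut.none Ext.none :=
  certB2 (fam := false) (s1 := true) (s2 := false) (a := 1) (b := 3) (c := 3) (cn := .dn) (n1 := ndB1q1) (n2 := ndB4q3) (pc := pcB3) (cut := Cut.none) (xt := Ext.none) (P1 := 536870912) (W1 := 536870912) (P2 := 0) (W2 := 1230186008) (P3 := 740881858) (W3 := 40050571) (N0 := 3) (En := eng) (mo := mog) (C1 := cd1q1) (C2 := cd4q3) (C3 := pd3)
    rfl (fun _ => rfl) k0_pm_133

noncomputable def f_pm_202_a : ℕ → ℕ → ℕ → ℕ → Bool := onCell 0 536870912 0 536870912 740881858 40050571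
    (rowB 3 eng mog cd1q2a cd4q2 pd0 1 false true false .pp 2 0 2 (qsf 0 536870912 1073741824 536870912 0) ndB1q2a ndB4q2 pcB0 Cut.none Ext.none)

def k0_pm_202_a : ∃ t, chk3 f_pm_202_a t 2 1 1 = true :=
  ⟨(b (b (b (a (b (a (b (a (c (b (l 16414336) (l 16384120)) (l 16421248)) (b (l 16365456) (l 16380008))) (a (l 16410928) (c (l 16451888) (l 16408768)))) (b (c (b (l 16331672) (l 16342416)) (l 16354408)) (l 16434752))) (a (c (l 16424720) (l 16443304)) (b (a (l 16489656) (l 16387896)) (a (l 16424808) (l 16453472))))) (b (a (b (c (a (l 16308904) (l 16290312)) (l 16311264)) (c (a (l 16331160) (l 16304752)) (l 16330144))) (b (c (l 16262528) (l 16263952)) (c (a (l 16277680) (l 16251432)) (l 16270720)))) (a (b (l 16352200) (l 16379232)) (b (c (a (l 16303232) (l 16266984)) (l 16291112)) (l 16317096))))) (a (a (b (l 16463544) (l 16487672)) (b (l 16442616) (l 16470192))) (a (b (a (b (l 16414880) (l 16431952)) (l 16509320)) (l 16446176)) (b (l 16442712) (b (l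 16396176) (l 16501616)))))) (b (a (a (b (a (l 16602992) (l 16503240)) (a (l 16514800) (l 16516784))) (l 16501544)) (b (a (l 16472312) (a (l 16450400) (l 16451320))) (l 16480816))) (a (a (a (b (l 16541120) (l 16560776)) (b (l 16528552) (l 16540424))) (b (a (l 16527960) (l 16522576)) (a (l 16541608) (l 16537024)))) (b (l 16520648) (a (l 16525344) (l 16503072)))))) (b (b (a (b (a (a (l 16556448) (l 16553120)) (l 16551304)) (a (a (l 16571720) (l 16568696)) (a (l 16563616) (l 16561256)))) (b (a (l 16539160) (l 16520056)) (a (l 16555736) (l 16535432)))) (b (a (a (a (l 16647352) (l 16580920)) (a (l 16576504) (l 16569992))) (a (l 16568248) (l 16549720))) (a (b (a (l 16611576) (l 16581032)) (l 2)) (a (l 16578576) (l 16564720))))) (b (a (l 2) (a (l 2) (l 16584520))) (l 2)))), by decide +kernel⟩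

def k1_pm_202_a : ∃ t, chk3 f_pm_202_a t 6 4 1 = true :=
  ⟨(b (b (a (a (b (l 16224416) (l 16223816)) (b (c (l 16201344) (l 16186800)) (l 16191552))) (a (b (b (a (l 16166904) (l 16145368)) (l 16155104)) (l 16173800)) (b (a (b (l 16118976) (l 16225920)) (l 16087248)) (a (c (l 16194280) (l 16105248)) (b (l 16090280) (l 16092792)))))) (a (c (b (a (l 16272640) (l 16195800)) (a (l 16254216) (b (l 16199568) (l 16210504)))) (b (l 16231792) (l 16228640))) (a (b (l 16151168) (c (l 16159208) (l 16147048))) (b (a (l 16117064) (c (l 16167504) (l 16077080))) (l 16103536))))) (a (b (a (l 16298376) (l 16371944)) (l 16329536)) (b (c (a (b (l 16174584) (l 16205168)) (b (a (l 16129048) (l 16102208)) (l 16135496))) (a (l 16179248) (l 16235744))) (a (l 16244600) (l 16173504))))), by decide +kernel⟩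

def k2_pm_202_a : ∃ t, chk3 f_pm_202_a t 7 8 1 = true :=
  ⟨(a (b (a (b (a (l 16052176) (l 16017080)) (c (l 16060424) (l 16019888))) (b (a (l 15983024) (l 15946960)) (c (l 15998024) (l 15945096)))) (a (b (a (b (l 16059864) (l 16062944)) (l 16026992)) (a (c (l 16118840) (l 16047488)) (l 16138112))) (c (b (l 16001840) (l 16006080)) (l 15958032)))) (b (a (b (b (a (l 15907304) (l 15866888)) (a (l 15910608) (l 15870664))) (a (l 15915960) (c (l 15912264) (l 15842096)))) (a (b (b (a (l 15835256) (b (l 15812512) (l 15814584))) (l 15870776)) (b (l 15833912) (l 15839416))) (b (a (b (b (a (l 15795784) (l 15784424)) (l 15792480)) (l 15796728)) (b (a (b (b (l 15772392) (l 15773688)) (l 15775896)) (b (c (l 15810600) (l 15712928)) (l 15765552))) (a (l 15781088) (l 15771792)))) (a (b (l 15803160) (l 15810016)) (b (l 15784304) (l 15792416)))))) (a (a (b (l 15923696) (l 15931816)) (b (l 15886200) (l 15895984))) (a (b (c (l 15884688) (l 15812144)) (c (l 15894536) (l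 15826672))) (b (c (a (l 15860176) (l 15846296)) (l 15772032)) (c (l 15865800) (l 15789504))))))), by decide +kernel⟩

def k3_pm_202_a : ∃ t, chk3 f_pm_202_a t 7 9 1 = true :=
  ⟨(a (b (a (b (a (l 16063080) (b (l 16035104) (l 16034776))) (c (a (l 16082008) (l 16052904)) (l 16042744))) (b (c (l 16011304) (l 15971432)) (a (b (l 16115896) (l 16032504)) (l 15980832)))) (a (b (c (a (l 16108736) (l 16069560)) (l 16064272)) (l 16108800)) (b (a (c (b (l 16030704) (l 16039824)) (l 16004040)) (a (b (l 15994520) (l 16038320)) (l 15981448))) (a (l 16047832) (c (b (a (l 16025960) (l 16007832)) (l 16033760)) (l 15988624)))))) (b (a (c (b (l 15950192) (l 15957968)) (l 15903048)) (c (a (b (l 15904888) (l 15915640)) (b (l 15878800) (l 15891944))) (a (l 15848176) (l 15814800)))) (b (a (c (l 15966232) (l 15919840)) (c (a (l 15926792) (l 15905304)) (l 15853688))) (c (a (a (b (l 15986488) (a (l 16003592) (l 15985672))) (l 15962288)) (c (l 15943952) (l 15912456))) (a (a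 (l 15952072) (l 15914776)) (l 15868592)))))), by decide +kernel⟩

def k4_pm_202_a : ∃ t, chk3 f_pm_202_a t 3 5 1 = true :=
  ⟨(a (b (a (b (l 16379608) (a (l 16433328) (l 16400696))) (b (l 16268280) (l 16320240))) (a (b (l 16503800) (l 16460576)) (b (b (l 16353056) (l 16371056)) (l 16388416)))) (a (b (b (a (l 16157216) (c (l 16097528) (l 16062512))) (a (l 16217000) (l 16144368))) (b (l 16256184) (l 16278416))) (b (b (a (b (a (c (a (l 16030600) (l 16010576)) (l 15978168)) (c (b (l 15973856) (a (l 16000808) (l 15979592))) (l 15937136))) (a (l 16035480) (c (l 16018968) (l 15970888)))) (c (b (a (c (b (l 15962136) (l 15970720)) (l 15938064)) (l 15933080)) (a (c (l 15996208) (l 15967104)) (c (b (l 15961888) (l 15975960)) (l 15936880)))) (b (l 15884520) (l 15909840)))) (a (b (l 16049384) (l 16084576)) (a (b (c (l 16021472) (l 15965944)) (l 16027016)) (b (l 15955960) (l 15995216))))) (b (a (l 16131616) (b (a (l 16062768) (l 16029216)) (l 16077992))) (l 16153792))))),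 by decide +kernel⟩

def k5_pm_202_a : ∃ t, chk3 f_pm_202_a t 3 3 1 = true :=
  ⟨(b (b (a (b (a (l 16479576) (l 16412144)) (l 16468104)) (a (b (l 16424392) (l 16350592)) (b (l 16205592) (l 16252968)))) (a (b (l 16485840) (l 16503280)) (b (a (l 16374888) (l 16291912)) (a (l 16395480) (l 16318264))))) (a (b (a (b (l 16546784) (l 2)) (l 16502056)) (l 2)) (b (a (l 16430624) (b (l 16345400) (l 16376880))) (l 16456824)))), by decide +kernel⟩

theorem s6_pm_202_a : ∃ t, chk3 f_pm_202_a t 7 4 1 = true := ex3_b k2_pm_202_a k3_pm_202_a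

theorem s7_pm_202_a : ∃ t, chk3 f_pm_202_a t 3 4 1 = true := ex3_a k1_pm_202_a s6_pm_202_a

theorem s8_pm_202_a : ∃ t, chk3 f_pm_202_a t 3 2 1 = true := ex3_b s7_pm_202_a k4_pm_202_a

theorem s9_pm_202_a : ∃ t, chk3 f_pm_202_a t 3 1 1 = true := ex3_b s8_pm_202_a k5_pm_202_a

theorem s10_pm_202_a : ∃ t, chk3 f_pm_202_a t 1 1 1 = true := ex3_a k0_pm_202_a s9_pm_202_a

theorem c_pm_202_a : CertB 0 536870912 1073741824 536870912 740881858 40050571 3 eng mog cd1q2a cd4q2 pd0 false true false .pp 2 0 2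
    ndB1q2a ndB4q2 pcB0 Cut.none Ext.none :=
  certB1 (fam := false) (s1 := true) (s2 := false) (a := 2) (b := 0) (c := 2) (cn := .pp) (n1 := ndB1q2a) (n2 := ndB4q2) (pc := pcB0) (cut := Cut.none) (xt := Ext.none) (P1 := 0) (W1 := 536870912) (P2 := 1073741824) (W2 := 536870912) (P3 := 740881858) (W3 := 40050571) (N0 := 3) (En := eng) (mo := mog) (C1 := cd1q2a) (C2 := cd4q2) (C3 := pd0)
    rfl (fun _ => rfl) s10_pm_202_a

noncomputable def f_pm_202_b : ℕ → ℕ → ℕ → ℕ → Bool := onCell 1239849684 370763052 0 536870912 740881858 40050571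
    (rowB 3 eng mog cd1q2b cd4q2 pd0 1 false true false .pp 2 0 2 (qsf 1239849684 370763052 1073741824 536870912 0) ndB1q2b ndB4q2 pcB0 Cut.none Ext.none)

def k0_pm_202_b : ∃ t, chk3 f_pm_202_b t 1 1 1 = true :=
  ⟨(b (b (a (b (a (b (a (a (a (b (l 16269920) (l 16416128)) (l 16194872)) (l 16398352)) (l 16316024)) (a (a (l 16440088) (l 16409248)) (l 16315544))) (a (b (l 16193816) (l 16208184)) (b (l 16092808) (b (l 16108520) (l 16120480))))) (a (a (b (l 16438640) (b (l 16441392) (l 16444032))) (b (a (l 16352728) (l 16355872)) (b (a (l 16362168) (l 16317416)) (l 16350160)))) (b (a (a (l 16249736) (l 16215104)) (b (l 16210040) (l 16173744))) (a (b (l 16372184) (l 16266152)) (a (l 16349872) (l 16195096)))))) (b (a (b (a (b (l 16003768) (l 16015768)) (a (l 15967072) (l 15955488))) (a (a (l 16067640) (l 16050056)) (l 16034344))) (l 3)) (a (a (b (b (l 16112048) (l 16133328)) (l 3)) (l 3)) (l 3)))) (a (b (a (b (a (a (l 16478912) (l 16430480)) (a (l 16610528)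 (l 16509472))) (a (a (l 16490232) (l 16448288)) (a (l 16412816) (l 16379720)))) (b (a (b (l 16288880) (l 16306976)) (l 53317338455)) (a (l 16431408) (l 3)))) (a (b (a (a (l 16506208) (l 16473008)) (b (l 16418152) (l 16433928))) (a (l 16573008) (l 16500824))) (b (a (b (l 16373320) (l 3)) (l 3)) (l 3)))) (b (l 3) (l 2)))) (b (a (a (b (b (a (l 16678528) (l 16556552)) (a (a (l 16563120) (l 16545432)) (l 3))) (b (a (b (l 16568696) (l 16576896)) (l 2)) (l 3))) (l 3)) (l 2)) (l 2))), by decide +kernel⟩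

theorem c_pm_202_b : CertB 1239849684 370763052 1073741824 536870912 740881858 40050571 3 eng mog cd1q2b cd4q2 pd0 false true false .pp 2 0 2
    ndB1q2b ndB4q2 pcB0 Cut.none Ext.none :=
  certB1 (fam := false) (s1 := true) (s2 := false) (a := 2) (b := 0) (c := 2) (cn := .pp) (n1 := ndB1q2b) (n2 := ndB4q2) (pc := pcB0) (cut := Cut.none) (xt := Ext.none) (P1 := 1239849684) (W1 := 370763052) (P2 := 1073741824) (W2 := 536870912) (P3 := 740881858) (W3 := 40050571) (N0 := 3) (En := eng) (mo := mog) (C1 := cd1q2b) (C2 := cd4q2) (C3 := pd0)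
    rfl (fun _ => rfl) k0_pm_202_b

noncomputable def f_pm_203_a : ℕ → ℕ → ℕ → ℕ → Bool := onCell 0 536870912 0 1230186008 740881858 40050571
    (rowB 3 eng mog cd1q2a cd4q3 pd0 0 false true false .up 2 0 3 (qsf 0 536870912 0 1230186008 0) ndB1q2a ndB4q3 pcB0 Cut.none Ext.none)

def k0_pm_203_a : ∃ t, chk3 f_pm_203_a t 1 1 1 = true :=
  ⟨(b (l 2) (b (l 2) (a (b (b (l 2) (b (a (l 2) (l 2)) (a (a (l 3) (l 159081276087)) (a (l 16639032) (l 16635648))))) (b (a (a (b (l 3) (l 201494059863)) (b (l 155860080487) (l 16602408))) (a (b (l 16626288) (l 16612872)) (b (l 16620848) (l 16607392)))) (a (b (a (a (l 3) (l 16610736)) (l 16590688)) (a (a (l 190219839847) (l 16591384)) (a (l 16589344) (l 16583024)))) (a (b (l 16596672) (b (l 16585832) (l 16579048))) (l 16585736))))) (b (l 2) (a (b (a (l 16600568) (l 16577648)) (a (l 16565112) (l 16529512))) (b (a (l 16558904) (l 2)) (l 16488720))))))), by decide +kernel⟩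

theorem c_pm_203_a : CertB 0 536870912 0 1230186008 740881858 40050571 3 eng mog cd1q2a cd4q3 pd0 false true false .up 2 0 3
    ndB1q2a ndB4q3 pcB0 Cut.none Ext.none :=
  certB0 (fam := false) (s1 := true) (s2 := false) (a := 2) (b := 0) (c := 3) (cn := .up) (n1 := ndB1q2a) (n2 := ndB4q3) (pc := pcB0) (cut := Cut.none) (xt := Ext.none) (P1 := 0) (W1 := 536870912) (P2 := 0) (W2 := 1230186008) (P3 := 740881858) (W3 := 40050571) (N0 := 3) (En := eng) (mo := mog) (C1 := cd1q2a) (C2 := cd4q3) (C3 := pd0)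
    rfl k0_pm_203_a

noncomputable def f_pm_203_b : ℕ → ℕ → ℕ → ℕ → Bool := onCell 1239849684 370763052 0 1230186008 740881858 40050571
    (rowB 3 eng mog cd1q2b cd4q3 pd0 0 false true false .up 2 0 3 (qsf 1239849684 370763052 0 1230186008 0) ndB1q2b ndB4q3 pcB0 Cut.none Ext.none)

def k0_pm_203_b : ∃ t, chk3 f_pm_203_b t 1 1 1 = true :=
  ⟨(b (l 3) (b (l 3) (a (b (l 3) (b (l 3) (l 3))) (l 3)))), by decide +kernel⟩

theorem c_pm_203_b : CertB 1239849684 370763052 0 1230186008 740881858 40050571 3 eng mog cd1q2b cd4q3 pd0 false true false .up 2 0 3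
    ndB1q2b ndB4q3 pcB0 Cut.none Ext.none :=
  certB0 (fam := false) (s1 := true) (s2 := false) (a := 2) (b := 0) (c := 3) (cn := .up) (n1 := ndB1q2b) (n2 := ndB4q3) (pc := pcB0) (cut := Cut.none) (xt := Ext.none) (P1 := 1239849684) (W1 := 370763052) (P2 := 0) (W2 := 1230186008) (P3 := 740881858) (W3 := 40050571) (N0 := 3) (En := eng) (mo := mog) (C1 := cd1q2b) (C2 := cd4q3) (C3 := pd0)
    rfl k0_pm_203_b

noncomputable def cut_pm_213_a : Cut := Cut.of [[⟨0, 1, 0, 67108864⟩, ⟨1, 1, 0, 67108864⟩, ⟨2, 2, 0, 16777216⟩]]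

noncomputable def f_pm_213_a : ℕ → ℕ → ℕ → ℕ → Bool := onCell 0 536870912 0 1230186008 740881858 40050571
    (rowB 3 eng mog cd1q2a cd4q3 pd1 0 false true false .pnn 2 1 3 (qsf 0 536870912 0 1230186008 1) ndB1q2a ndB4q3 pcB1 cut_pm_213_a Ext.none)

def k0_pm_213_a : ∃ t, chk3 f_pm_213_a t 1 2 1 = true :=
  ⟨(a (b (l 3) (l 3)) (b (a (l 3) (a (b (l 3) (a (b (l 3) (a (l 3) (b (l 3) (a (l 3) (l 244444057655))))) (a (b (l 3) (b (b (l 292225564695) (l 252497119607)) (a (l 210621150567) (l 16790544)))) (b (l 6) (b (b (l 207399920231) (l 16786744)) (l 16792008)))))) (b (l 6) (a (b (a (l 6) (l 6)) (a (l 16792424) (l 16789288))) (b (a (l 6) (l 6)) (l 16782848)))))) (a (b (a (l 3) (b (l 3) (a (l 3) (b (a (l 3) (l 202568065959)) (a (l 264308297127) (l 16799016)))))) (a (b (l 3) (a (l 3) (b (l 241759702039) (l 164450284999)))) (b (a (b (l 295983676967) (a (l 240149035895) (l 16795968))) (b (l 16756176) (l 16807472))) (a (b (l 146196663015) (l 16804440)) (l 16817224)))))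 (b (a (b (a (a (b (l 274508819975) (b (l 200957461831) (l 16768248))) (b (a (l 201494326199) (l 202031209383)) (l 16761072))) (a (b (l 16795680) (l 16799232)) (l 16801488))) (a (b (a (l 16793816) (l 16798080)) (l 16783592)) (a (l 16809048) (l 16815824)))) (a (b (l 16802120) (l 16820312)) (b (l 16797192) (l 16819000)))) (b (a (a (b (l 16812512) (l 16819656)) (l 16830688)) (a (l 16841096) (l 16850296))) (a (a (l 16832056) (l 16851264)) (l 16865480))))))), by decide +kernel⟩

def k1_pm_213_a : ∃ t, chk3 f_pm_213_a t 1 3 1 = true :=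
  ⟨(b (a (a (l 3) (b (b (l 3) (a (l 3) (a (l 3) (l 275045672055)))) (b (a (l 3) (a (b (l 191830597047) (l 197736143463)) (b (l 16762768) (l 16758048)))) (a (b (l 183777487991) (l 186461808487)) (a (b (l 16720584) (l 16706560)) (l 16732248)))))) (b (a (b (a (a (b (l 209547451063) (l 193441302871)) (b (l 139217295703) (l 16785216))) (a (b (l 16814848) (l 16826616)) (l 16838328))) (a (b (a (l 16768528) (l 16813752)) (l 16806264)) (b (l 16847992) (l 16860416)))) (a (b (a (l 16856560) (l 16878680)) (b (l 16888944) (l 16903320))) (l 16899616))) (a (b (a (a (l 16793040) (l 16828424)) (l 16875256)) (a (b (l 16776224) (l 16750960)) (l 16818296))) (a (l 16948736) (l 16947008))))) (b (a (b (a (l 3) (a (a (b (l 235853935111) (l 176261265207)) (b (l 16683152) (l 16677728))) (b (l 16704320) (l 16692408)))) (a (a (l 3) (b (l 228874537943) (a (l 216526437655) (l 158007589351)))) (a (b (a (l 16660424) (l 16671824)) (l 16662136)) (b (l 16681320) (l 16666976))))) (a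 (b (a (a (l 16712008) (l 16719600)) (l 16743656)) (a (b (l 16682088) (l 16661048)) (l 16674288))) (b (a (l 16818256) (l 16985696)) (a (l 16706712) (l 16817680))))) (a (b (a (l 1) (b (a (l 1) (l 16652264)) (l 1))) (l 1)) (a (b (a (l 16626616) (l 16607584)) (l 1)) (b (a (l 16602496) (l 16652936)) (l 16509776)))))), by decide +kernel⟩

theorem s2_pm_213_a : ∃ t, chk3 f_pm_213_a t 1 1 1 = true := ex3_b k0_pm_213_a k1_pm_213_a

theorem c_pm_213_a : CertB 0 536870912 0 1230186008 740881858 40050571 3 eng mog cd1q2a cd4q3 pd1 false true false .pnn 2 1 3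
    ndB1q2a ndB4q3 pcB1 cut_pm_213_a Ext.none :=
  certB0 (fam := false) (s1 := true) (s2 := false) (a := 2) (b := 1) (c := 3) (cn := .pnn) (n1 := ndB1q2a) (n2 := ndB4q3) (pc := pcB1) (cut := cut_pm_213_a) (xt := Ext.none) (P1 := 0) (W1 := 536870912) (P2 := 0) (W2 := 1230186008) (P3 := 740881858) (W3 := 40050571) (N0 := 3) (En := eng) (mo := mog) (C1 := cd1q2a) (C2 := cd4q3) (C3 := pd1)
    rfl s2_pm_213_a

noncomputable def cut_pm_213_b : Cut := Cut.of [[⟨0, 1, 0, 67108864⟩, ⟨1, 1, 0, 67108864⟩, ⟨2, 2, 0, 16777216⟩]]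

noncomputable def f_pm_213_b : ℕ → ℕ → ℕ → ℕ → Bool := onCell 1239849684 370763052 0 1230186008 740881858 40050571
    (rowB 3 eng mog cd1q2b cd4q3 pd1 0 false true false .pnn 2 1 3 (qsf 1239849684 370763052 0 1230186008 1) ndB1q2b ndB4q3 pcB1 cut_pm_213_b Ext.none)

def k0_pm_213_b : ∃ t, chk3 f_pm_213_b t 1 1 1 = true :=
  ⟨(b (l 3) (b (l 3) (b (l 3) (l 1)))), by decide +kernel⟩

theorem c_pm_213_b : CertB 1239849684 370763052 0 1230186008 740881858 40050571 3 eng mog cd1q2b cd4q3 pd1 false true false .pnn 2 1 3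
    ndB1q2b ndB4q3 pcB1 cut_pm_213_b Ext.none :=
  certB0 (fam := false) (s1 := true) (s2 := false) (a := 2) (b := 1) (c := 3) (cn := .pnn) (n1 := ndB1q2b) (n2 := ndB4q3) (pc := pcB1) (cut := cut_pm_213_b) (xt := Ext.none) (P1 := 1239849684) (W1 := 370763052) (P2 := 0) (W2 := 1230186008) (P3 := 740881858) (W3 := 40050571) (N0 := 3) (En := eng) (mo := mog) (C1 := cd1q2b) (C2 := cd4q3) (C3 := pd1)
    rfl k0_pm_213_b

noncomputable def f_pm_303 : ℕ → ℕ → ℕ → ℕ → Bool := onCell 1610612736 536870912 0 1230186008 740881858 40050571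
    (rowB 3 eng mog cd1q3 cd4q3 pd0 0 false true false .npn 3 0 3 (qsf 1610612736 536870912 0 1230186008 0) ndB1q3 ndB4q3 pcB0 Cut.none Ext.none)

def k0_pm_303 : ∃ t, chk3 f_pm_303 t 1 1 1 = true :=
  ⟨(b (l 3) (b (l 3) (a (l 3) (l 1)))), by decide +kernel⟩

theorem c_pm_303 : CertB 1610612736 536870912 0 1230186008 740881858 40050571 3 eng mog cd1q3 cd4q3 pd0 false true false .npn 3 0 3
    ndB1q3 ndB4q3 pcB0 Cut.none Ext.none :=
  certB0 (fam := false) (s1 := true) (s2 := false) (a := 3) (b := 0) (c := 3) (cn := .npn) (n1 := ndB1q3) (n2 := ndB4q3) (pc := pcB0) (cut := Cut.none) (xt := Ext.none) (P1 := 1610612736) (W1 := 536870912) (P2 := 0) (W2 := 1230186008) (P3 := 740881858) (W3 := 40050571) (N0 := 3) (En := eng) (mo := mog) (C1 := cd1q3) (C2 := cd4q3) (C3 := pd0)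
    rfl k0_pm_303

noncomputable def f_pm_313 : ℕ → ℕ → ℕ → ℕ → Bool := onCell 1610612736 536870912 0 1230186008 740881858 40050571
    (rowB 3 eng mog cd1q3 cd4q3 pd1 0 false true false .dn 3 1 3 (qsf 1610612736 536870912 0 1230186008 1) ndB1q3 ndB4q3 pcB1 Cut.none Ext.none)

def k0_pm_313 : ∃ t, chk3 f_pm_313 t 1 1 1 = true :=
  ⟨(b (l 3) (l 1)), by decide +kernel⟩

theorem c_pm_313 : CertB 1610612736 536870912 0 1230186008 740881858 40050571 3 eng mog cd1q3 cd4q3 pd1 false true false .dn 3 1 3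
    ndB1q3 ndB4q3 pcB1 Cut.none Ext.none :=
  certB0 (fam := false) (s1 := true) (s2 := false) (a := 3) (b := 1) (c := 3) (cn := .dn) (n1 := ndB1q3) (n2 := ndB4q3) (pc := pcB1) (cut := Cut.none) (xt := Ext.none) (P1 := 1610612736) (W1 := 536870912) (P2 := 0) (W2 := 1230186008) (P3 := 740881858) (W3 := 40050571) (N0 := 3) (En := eng) (mo := mog) (C1 := cd1q3) (C2 := cd4q3) (C3 := pd1)
    rfl k0_pm_313

noncomputable def f_mm_001 : ℕ → ℕ → ℕ → ℕ → Bool := onCell 0 536870912 0 536870912 740881858 40050571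
    (rowB 3 eng mog cd1q0 cd4q1 pd0 1 false false false .up 0 0 1 (qsf 0 536870912 536870912 536870912 0) ndB1q0 ndB4q1 pcB0 Cut.none Ext.none)

def k0_mm_001 : ∃ t, chk3 f_mm_001 t 1 1 1 = true :=
  ⟨(l 3), by decide +kernel⟩

theorem c_mm_001 : CertB 0 536870912 536870912 536870912 740881858 40050571 3 eng mog cd1q0 cd4q1 pd0 false false false .up 0 0 1
    ndB1q0 ndB4q1 pcB0 Cut.none Ext.none :=
  certB1 (fam := false) (s1 := false) (s2 := false) (a := 0) (b := 0) (c := 1) (cn := .up) (n1 := ndB1q0) (n2 := ndB4q1) (pc := pcB0) (cut := Cut.none) (xt := Ext.none) (P1 := 0) (W1 := 536870912) (P2 := 536870912) (W2 := 536870912) (P3 := 740881858) (W3 := 40050571) (N0 := 3) (En := eng) (mo := mog) (C1 := cd1q0) (C2 := cd4q1) (C3 := pd0)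
    rfl (fun _ => rfl) k0_mm_001

noncomputable def f_mm_011 : ℕ → ℕ → ℕ → ℕ → Bool := onCell 0 536870912 536870912 536870912 740881858 40050571
    (rowB 3 eng mog cd1q0 cd4q1 pd1 1 false false false .pnn 0 1 1 (qsf 0 536870912 536870912 536870912 1) ndB1q0 ndB4q1 pcB1 Cut.none Ext.none)

def k0_mm_011 : ∃ t, chk3 f_mm_011 t 1 1 1 = true :=
  ⟨(l 5), by decide +kernel⟩

theorem c_mm_011 : CertB 0 536870912 536870912 536870912 740881858 40050571 3 eng mog cd1q0 cd4q1 pd1 false false false .pnn 0 1 1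
    ndB1q0 ndB4q1 pcB1 Cut.none Ext.none :=
  certB1 (fam := false) (s1 := false) (s2 := false) (a := 0) (b := 1) (c := 1) (cn := .pnn) (n1 := ndB1q0) (n2 := ndB4q1) (pc := pcB1) (cut := Cut.none) (xt := Ext.none) (P1 := 0) (W1 := 536870912) (P2 := 536870912) (W2 := 536870912) (P3 := 740881858) (W3 := 40050571) (N0 := 3) (En := eng) (mo := mog) (C1 := cd1q0) (C2 := cd4q1) (C3 := pd1)
    rfl (fun _ => rfl) k0_mm_011

noncomputable def f_mm_012 : ℕ → ℕ → ℕ → ℕ → Bool := onCell 0 536870912 1073741824 536870912 740881858 40050571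
    (rowB 3 eng mog cd1q0 cd4q2 pd1 0 false false false .pnp 0 1 2 (qsf 0 536870912 1073741824 536870912 1) ndB1q0 ndB4q2 pcB1 Cut.none Ext.none)

def k0_mm_012 : ∃ t, chk3 f_mm_012 t 1 1 1 = true :=
  ⟨(l 5), by decide +kernel⟩

theorem c_mm_012 : CertB 0 536870912 1073741824 536870912 740881858 40050571 3 eng mog cd1q0 cd4q2 pd1 false false false .pnp 0 1 2
    ndB1q0 ndB4q2 pcB1 Cut.none Ext.none :=
  certB0 (fam := false) (s1 := false) (s2 := false) (a := 0) (b := 1) (c := 2) (cn := .pnp) (n1 := ndB1q0) (n2 := ndB4q2) (pc := pcB1) (cut := Cut.none) (xt := Ext.none) (P1 := 0) (W1 := 536870912) (P2 := 1073741824) (W2 := 536870912) (P3 := 740881858) (W3 := 40050571) (N0 := 3) (En := eng) (mo := mog) (C1 := cd1q0) (C2 := cd4q2) (C3 := pd1)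
    rfl k0_mm_012

noncomputable def f_mm_022 : ℕ → ℕ → ℕ → ℕ → Bool := onCell 0 536870912 1073741824 536870912 740881858 40050571
    (rowB 3 eng mog cd1q0 cd4q2 pd2 0 false false false .pp 0 2 2 (qsf 0 536870912 1073741824 536870912 2) ndB1q0 ndB4q2 pcB2 Cut.none Ext.none)

def k0_mm_022 : ∃ t, chk3 f_mm_022 t 1 1 1 = true :=
  ⟨(l 5), by decide +kernel⟩

theorem c_mm_022 : CertB 0 536870912 1073741824 536870912 740881858 40050571 3 eng mog cd1q0 cd4q2 pd2 false false false .pp 0 2 2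
    ndB1q0 ndB4q2 pcB2 Cut.none Ext.none :=
  certB0 (fam := false) (s1 := false) (s2 := false) (a := 0) (b := 2) (c := 2) (cn := .pp) (n1 := ndB1q0) (n2 := ndB4q2) (pc := pcB2) (cut := Cut.none) (xt := Ext.none) (P1 := 0) (W1 := 536870912) (P2 := 1073741824) (W2 := 536870912) (P3 := 740881858) (W3 := 40050571) (N0 := 3) (En := eng) (mo := mog) (C1 := cd1q0) (C2 := cd4q2) (C3 := pd2)
    rfl k0_mm_022

noncomputable def f_mm_023 : ℕ → ℕ → ℕ → ℕ → Bool := onCell 0 536870912 0 1230186008 740881858 40050571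
    (rowB 3 eng mog cd1q0 cd4q3 pd2 0 false false false .up 0 2 3 (qsf 0 536870912 0 1230186008 2) ndB1q0 ndB4q3 pcB2 Cut.none Ext.none)

def k0_mm_023 : ∃ t, chk3 f_mm_023 t 1 1 1 = true :=
  ⟨(l 5), by decide +kernel⟩

theorem c_mm_023 : CertB 0 536870912 0 1230186008 740881858 40050571 3 eng mog cd1q0 cd4q3 pd2 false false false .up 0 2 3
    ndB1q0 ndB4q3 pcB2 Cut.none Ext.none :=
  certB0 (fam := false) (s1 := false) (s2 := false) (a := 0) (b := 2) (c := 3) (cn := .up) (n1 := ndB1q0) (n2 := ndB4q3) (pc := pcB2) (cut := Cut.none) (xt := Ext.none) (P1 := 0) (W1 := 536870912) (P2 := 0) (W2 := 1230186008) (P3 := 740881858) (W3 := 40050571) (N0 := 3) (En := eng) (mo := mog) (C1 := cd1q0) (C2 := cd4q3) (C3 := pd2)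
    rfl k0_mm_023

noncomputable def f_mm_033 : ℕ → ℕ → ℕ → ℕ → Bool := onCell 0 536870912 0 1230186008 740881858 40050571
    (rowB 3 eng mog cd1q0 cd4q3 pd3 0 false false false .pnn 0 3 3 (qsf 0 536870912 0 1230186008 3) ndB1q0 ndB4q3 pcB3 Cut.none Ext.none)

def k0_mm_033 : ∃ t, chk3 f_mm_033 t 1 1 1 = true :=
  ⟨(l 5), by decide +kernel⟩

theorem c_mm_033 : CertB 0 536870912 0 1230186008 740881858 40050571 3 eng mog cd1q0 cd4q3 pd3 false false false .pnn 0 3 3
    ndB1q0 ndB4q3 pcB3 Cut.none Ext.none :=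
  certB0 (fam := false) (s1 := false) (s2 := false) (a := 0) (b := 3) (c := 3) (cn := .pnn) (n1 := ndB1q0) (n2 := ndB4q3) (pc := pcB3) (cut := Cut.none) (xt := Ext.none) (P1 := 0) (W1 := 536870912) (P2 := 0) (W2 := 1230186008) (P3 := 740881858) (W3 := 40050571) (N0 := 3) (En := eng) (mo := mog) (C1 := cd1q0) (C2 := cd4q3) (C3 := pd3)
    rfl k0_mm_033

noncomputable def f_mm_101 : ℕ → ℕ → ℕ → ℕ → Bool := onCell 536870912 536870912 0 536870912 740881858 40050571
    (rowB 3 eng mog cd1q1 cd4q1 pd0 1 false false false .npn 1 0 1 (qsf 536870912 536870912 536870912 536870912 0) ndB1q1 ndB4q1 pcB0 Cut.none Ext.none)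

def k0_mm_101 : ∃ t, chk3 f_mm_101 t 1 1 1 = true :=
  ⟨(l 3), by decide +kernel⟩

theorem c_mm_101 : CertB 536870912 536870912 536870912 536870912 740881858 40050571 3 eng mog cd1q1 cd4q1 pd0 false false false .npn 1 0 1
    ndB1q1 ndB4q1 pcB0 Cut.none Ext.none :=
  certB1 (fam := false) (s1 := false) (s2 := false) (a := 1) (b := 0) (c := 1) (cn := .npn) (n1 := ndB1q1) (n2 := ndB4q1) (pc := pcB0) (cut := Cut.none) (xt := Ext.none) (P1 := 536870912) (W1 := 536870912) (P2 := 536870912) (W2 := 536870912) (P3 := 740881858) (W3 := 40050571) (N0 := 3) (En := eng) (mo := mog) (C1 := cd1q1) (C2 := cd4q1) (C3 := pd0)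
    rfl (fun _ => rfl) k0_mm_101

noncomputable def f_mm_102 : ℕ → ℕ → ℕ → ℕ → Bool := onCell 536870912 536870912 1073741824 536870912 740881858 40050571
    (rowB 3 eng mog cd1q1 cd4q2 pd0 0 false false false .npp 1 0 2 (qsf 536870912 536870912 1073741824 536870912 0) ndB1q1 ndB4q2 pcB0 Cut.none Ext.none)

def k0_mm_102 : ∃ t, chk3 f_mm_102 t 1 1 1 = true :=
  ⟨(l 3), by decide +kernel⟩

theorem c_mm_102 : CertB 536870912 536870912 1073741824 536870912 740881858 40050571 3 eng mog cd1q1 cd4q2 pd0 false false false .npp 1 0 2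
    ndB1q1 ndB4q2 pcB0 Cut.none Ext.none :=
  certB0 (fam := false) (s1 := false) (s2 := false) (a := 1) (b := 0) (c := 2) (cn := .npp) (n1 := ndB1q1) (n2 := ndB4q2) (pc := pcB0) (cut := Cut.none) (xt := Ext.none) (P1 := 536870912) (W1 := 536870912) (P2 := 1073741824) (W2 := 536870912) (P3 := 740881858) (W3 := 40050571) (N0 := 3) (En := eng) (mo := mog) (C1 := cd1q1) (C2 := cd4q2) (C3 := pd0)
    rfl k0_mm_102

noncomputable def f_mm_112 : ℕ → ℕ → ℕ → ℕ → Bool := onCell 536870912 536870912 1073741824 536870912 740881858 40050571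
    (rowB 3 eng mog cd1q1 cd4q2 pd1 0 false false false .dn 1 1 2 (qsf 536870912 536870912 1073741824 536870912 1) ndB1q1 ndB4q2 pcB1 Cut.none Ext.none)

def k0_mm_112 : ∃ t, chk3 f_mm_112 t 1 1 1 = true :=
  ⟨(l 3), by decide +kernel⟩

theorem c_mm_112 : CertB 536870912 536870912 1073741824 536870912 740881858 40050571 3 eng mog cd1q1 cd4q2 pd1 false false false .dn 1 1 2
    ndB1q1 ndB4q2 pcB1 Cut.none Ext.none :=
  certB0 (fam := false) (s1 := false) (s2 := false) (a := 1) (b := 1) (c := 2) (cn := .dn) (n1 := ndB1q1) (n2 := ndB4q2) (pc := pcB1) (cut := Cut.none) (xt := Ext.none) (P1 := 536870912) (W1 := 536870912) (P2 := 1073741824) (W2 := 536870912) (P3 := 740881858) (W3 := 40050571) (N0 := 3) (En := eng) (mo := mog) (C1 := cd1q1) (C2 := cd4q2) (C3 := pd1)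
    rfl k0_mm_112

noncomputable def f_mm_113 : ℕ → ℕ → ℕ → ℕ → Bool := onCell 536870912 536870912 0 1230186008 740881858 40050571
    (rowB 3 eng mog cd1q1 cd4q3 pd1 0 false false false .nn 1 1 3 (qsf 536870912 536870912 0 1230186008 1) ndB1q1 ndB4q3 pcB1 Cut.none Ext.none)

def k0_mm_113 : ∃ t, chk3 f_mm_113 t 1 1 1 = true :=
  ⟨(b (l 5) (l 5)), by decide +kernel⟩

theorem c_mm_113 : CertB 536870912 536870912 0 1230186008 740881858 40050571 3 eng mog cd1q1 cd4q3 pd1 false false false .nn 1 1 3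
    ndB1q1 ndB4q3 pcB1 Cut.none Ext.none :=
  certB0 (fam := false) (s1 := false) (s2 := false) (a := 1) (b := 1) (c := 3) (cn := .nn) (n1 := ndB1q1) (n2 := ndB4q3) (pc := pcB1) (cut := Cut.none) (xt := Ext.none) (P1 := 536870912) (W1 := 536870912) (P2 := 0) (W2 := 1230186008) (P3 := 740881858) (W3 := 40050571) (N0 := 3) (En := eng) (mo := mog) (C1 := cd1q1) (C2 := cd4q3) (C3 := pd1)
    rfl k0_mm_113

noncomputable def f_mm_123 : ℕ → ℕ → ℕ → ℕ → Bool := onCell 536870912 536870912 0 1230186008 740881858 40050571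
    (rowB 3 eng mog cd1q1 cd4q3 pd2 0 false false false .npn 1 2 3 (qsf 536870912 536870912 0 1230186008 2) ndB1q1 ndB4q3 pcB2 Cut.none Ext.none)

def k0_mm_123 : ∃ t, chk3 f_mm_123 t 1 1 1 = true :=
  ⟨(b (l 5) (l 5)), by decide +kernel⟩

theorem c_mm_123 : CertB 536870912 536870912 0 1230186008 740881858 40050571 3 eng mog cd1q1 cd4q3 pd2 false false false .npn 1 2 3
    ndB1q1 ndB4q3 pcB2 Cut.none Ext.none :=
  certB0 (fam := false) (s1 := false) (s2 := false) (a := 1) (b := 2) (c := 3) (cn := .npn) (n1 := ndB1q1) (n2 := ndB4q3) (pc := pcB2) (cut := Cut.none) (xt := Ext.none) (P1 := 536870912) (W1 := 536870912) (P2 := 0) (W2 := 1230186008) (P3 := 740881858) (W3 := 40050571) (N0 := 3) (En := eng) (mo := mog) (C1 := cd1q1) (C2 := cd4q3) (C3 := pd2)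
    rfl k0_mm_123

noncomputable def f_mm_133 : ℕ → ℕ → ℕ → ℕ → Bool := onCell 536870912 536870912 0 1230186008 740881858 40050571
    (rowB 3 eng mog cd1q1 cd4q3 pd3 0 false false false .dn 1 3 3 (qsf 536870912 536870912 0 1230186008 3) ndB1q1 ndB4q3 pcB3 Cut.none Ext.none)

def k0_mm_133 : ∃ t, chk3 f_mm_133 t 1 1 1 = true :=
  ⟨(b (l 5) (l 1)), by decide +kernel⟩

theorem c_mm_133 : CertB 536870912 536870912 0 1230186008 740881858 40050571 3 eng mog cd1q1 cd4q3 pd3 false false false .dn 1 3 3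
    ndB1q1 ndB4q3 pcB3 Cut.none Ext.none :=
  certB0 (fam := false) (s1 := false) (s2 := false) (a := 1) (b := 3) (c := 3) (cn := .dn) (n1 := ndB1q1) (n2 := ndB4q3) (pc := pcB3) (cut := Cut.none) (xt := Ext.none) (P1 := 536870912) (W1 := 536870912) (P2 := 0) (W2 := 1230186008) (P3 := 740881858) (W3 := 40050571) (N0 := 3) (En := eng) (mo := mog) (C1 := cd1q1) (C2 := cd4q3) (C3 := pd3)
    rfl k0_mm_133

noncomputable def f_mm_202_a : ℕ → ℕ → ℕ → ℕ → Bool := onCell 0 536870912 0 536870912 740881858 40050571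
    (rowB 3 eng mog cd1q2a cd4q2 pd0 1 false false false .pp 2 0 2 (qsf 0 536870912 1073741824 536870912 0) ndB1q2a ndB4q2 pcB0 Cut.none Ext.none)

def k0_mm_202_a : ∃ t, chk3 f_mm_202_a t 1 1 1 = true :=
  ⟨(b (l 3) (l 3)), by decide +kernel⟩

theorem c_mm_202_a : CertB 0 536870912 1073741824 536870912 740881858 40050571 3 eng mog cd1q2a cd4q2 pd0 false false false .pp 2 0 2
    ndB1q2a ndB4q2 pcB0 Cut.none Ext.none :=
  certB1 (fam := false) (s1 := false) (s2 := false) (a := 2) (b := 0) (c := 2) (cn := .pp) (n1 := ndB1q2a) (n2 := ndB4q2) (pc := pcB0) (cut := Cut.none) (xt := Ext.none) (P1 := 0) (W1 := 536870912) (P2 := 1073741824) (W2 := 536870912) (P3 := 740881858) (W3 := 40050571) (N0 := 3) (En := eng) (mo := mog) (C1 := cd1q2a) (C2 := cd4q2) (C3 := pd0)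
    rfl (fun _ => rfl) k0_mm_202_a

noncomputable def f_mm_202_b : ℕ → ℕ → ℕ → ℕ → Bool := onCell 1239849684 370763052 1073741824 536870912 740881858 40050571
    (rowB 3 eng mog cd1q2b cd4q2 pd0 0 false false false .pp 2 0 2 (qsf 1239849684 370763052 1073741824 536870912 0) ndB1q2b ndB4q2 pcB0 Cut.none Ext.none)

def k0_mm_202_b : ∃ t, chk3 f_mm_202_b t 1 1 1 = true :=
  ⟨(b (a (b (l 1) (l 3)) (l 1)) (l 3)), by decide +kernel⟩

theorem c_mm_202_b : CertB 1239849684 370763052 1073741824 536870912 740881858 40050571 3 eng mog cd1q2b cd4q2 pd0 false false false .pp 2 0 2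
    ndB1q2b ndB4q2 pcB0 Cut.none Ext.none :=
  certB0 (fam := false) (s1 := false) (s2 := false) (a := 2) (b := 0) (c := 2) (cn := .pp) (n1 := ndB1q2b) (n2 := ndB4q2) (pc := pcB0) (cut := Cut.none) (xt := Ext.none) (P1 := 1239849684) (W1 := 370763052) (P2 := 1073741824) (W2 := 536870912) (P3 := 740881858) (W3 := 40050571) (N0 := 3) (En := eng) (mo := mog) (C1 := cd1q2b) (C2 := cd4q2) (C3 := pd0)
    rfl k0_mm_202_b

noncomputable def f_mm_203_a : ℕ → ℕ → ℕ → ℕ → Bool := onCell 0 536870912 0 1230186008 740881858 40050571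
    (rowB 3 eng mog cd1q2a cd4q3 pd0 0 false false false .up 2 0 3 (qsf 0 536870912 0 1230186008 0) ndB1q2a ndB4q3 pcB0 Cut.none Ext.none)

def k0_mm_203_a : ∃ t, chk3 f_mm_203_a t 1 1 1 = true :=
  ⟨(b (l 2) (l 3)), by decide +kernel⟩

theorem c_mm_203_a : CertB 0 536870912 0 1230186008 740881858 40050571 3 eng mog cd1q2a cd4q3 pd0 false false false .up 2 0 3
    ndB1q2a ndB4q3 pcB0 Cut.none Ext.none :=
  certB0 (fam := false) (s1 := false) (s2 := false) (a := 2) (b := 0) (c := 3) (cn := .up) (n1 := ndB1q2a) (n2 := ndB4q3) (pc := pcB0) (cut := Cut.none) (xt := Ext.none) (P1 := 0) (W1 := 536870912) (P2 := 0) (W2 := 1230186008) (P3 := 740881858) (W3 := 40050571) (N0 := 3) (En := eng) (mo := mog) (C1 := cd1q2a) (C2 := cd4q3) (C3 := pd0)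
    rfl k0_mm_203_a

noncomputable def f_mm_203_b : ℕ → ℕ → ℕ → ℕ → Bool := onCell 1239849684 370763052 0 1230186008 740881858 40050571
    (rowB 3 eng mog cd1q2b cd4q3 pd0 0 false false false .up 2 0 3 (qsf 1239849684 370763052 0 1230186008 0) ndB1q2b ndB4q3 pcB0 Cut.none Ext.none)

def k0_mm_203_b : ∃ t, chk3 f_mm_203_b t 1 1 1 = true :=
  ⟨(b (l 3) (l 3)), by decide +kernel⟩

theorem c_mm_203_b : CertB 1239849684 370763052 0 1230186008 740881858 40050571 3 eng mog cd1q2b cd4q3 pd0 false false false .up 2 0 3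
    ndB1q2b ndB4q3 pcB0 Cut.none Ext.none :=
  certB0 (fam := false) (s1 := false) (s2 := false) (a := 2) (b := 0) (c := 3) (cn := .up) (n1 := ndB1q2b) (n2 := ndB4q3) (pc := pcB0) (cut := Cut.none) (xt := Ext.none) (P1 := 1239849684) (W1 := 370763052) (P2 := 0) (W2 := 1230186008) (P3 := 740881858) (W3 := 40050571) (N0 := 3) (En := eng) (mo := mog) (C1 := cd1q2b) (C2 := cd4q3) (C3 := pd0)
    rfl k0_mm_203_b

noncomputable def f_mm_213_a : ℕ → ℕ → ℕ → ℕ → Bool := onCell 0 536870912 0 1230186008 740881858 40050571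
    (rowB 3 eng mog cd1q2a cd4q3 pd1 0 false false false .pnn 2 1 3 (qsf 0 536870912 0 1230186008 1) ndB1q2a ndB4q3 pcB1 Cut.none Ext.none)

def k0_mm_213_a : ∃ t, chk3 f_mm_213_a t 1 1 1 = true :=
  ⟨(b (a (l 3) (l 5)) (l 3)), by decide +kernel⟩

theorem c_mm_213_a : CertB 0 536870912 0 1230186008 740881858 40050571 3 eng mog cd1q2a cd4q3 pd1 false false false .pnn 2 1 3
    ndB1q2a ndB4q3 pcB1 Cut.none Ext.none :=
  certB0 (fam := false) (s1 := false) (s2 := false) (a := 2) (b := 1) (c := 3) (cn := .pnn) (n1 := ndB1q2a) (n2 := ndB4q3) (pc := pcB1) (cut := Cut.none) (xt := Ext.none) (P1 := 0) (W1 := 536870912) (P2 := 0) (W2 := 1230186008) (P3 := 740881858) (W3 := 40050571) (N0 := 3) (En := eng) (mo := mog) (C1 := cd1q2a) (C2 := cd4q3) (C3 := pd1)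
    rfl k0_mm_213_a

noncomputable def f_mm_213_b : ℕ → ℕ → ℕ → ℕ → Bool := onCell 1239849684 370763052 0 1230186008 740881858 40050571
    (rowB 3 eng mog cd1q2b cd4q3 pd1 0 false false false .pnn 2 1 3 (qsf 1239849684 370763052 0 1230186008 1) ndB1q2b ndB4q3 pcB1 Cut.none Ext.none)

def k0_mm_213_b : ∃ t, chk3 f_mm_213_b t 1 1 1 = true :=
  ⟨(b (l 3) (l 3)), by decide +kernel⟩

theorem c_mm_213_b : CertB 1239849684 370763052 0 1230186008 740881858 40050571 3 eng mog cd1q2b cd4q3 pd1 false false false .pnn 2 1 3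
    ndB1q2b ndB4q3 pcB1 Cut.none Ext.none :=
  certB0 (fam := false) (s1 := false) (s2 := false) (a := 2) (b := 1) (c := 3) (cn := .pnn) (n1 := ndB1q2b) (n2 := ndB4q3) (pc := pcB1) (cut := Cut.none) (xt := Ext.none) (P1 := 1239849684) (W1 := 370763052) (P2 := 0) (W2 := 1230186008) (P3 := 740881858) (W3 := 40050571) (N0 := 3) (En := eng) (mo := mog) (C1 := cd1q2b) (C2 := cd4q3) (C3 := pd1)
    rfl k0_mm_213_b

noncomputable def f_mm_303 : ℕ → ℕ → ℕ → ℕ → Bool := onCell 0 536870912 0 1230186008 740881858 40050571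
    (rowB 3 eng mog cd1q3 cd4q3 pd0 2 false false false .npn 3 0 3 (qsf 1610612736 536870912 0 1230186008 0) ndB1q3 ndB4q3 pcB0 Cut.none Ext.none)

def k0_mm_303 : ∃ t, chk3 f_mm_303 t 1 1 1 = true :=
  ⟨(b (l 3) (l 3)), by decide +kernel⟩

theorem c_mm_303 : CertB 1610612736 536870912 0 1230186008 740881858 40050571 3 eng mog cd1q3 cd4q3 pd0 false false false .npn 3 0 3
    ndB1q3 ndB4q3 pcB0 Cut.none Ext.none :=
  certB2 (fam := false) (s1 := false) (s2 := false) (a := 3) (b := 0) (c := 3) (cn := .npn) (n1 := ndB1q3) (n2 := ndB4q3) (pc := pcB0) (cut := Cut.none) (xt := Ext.none) (P1 := 1610612736) (W1 := 536870912) (P2 := 0) (W2 := 1230186008) (P3 := 740881858) (W3 := 40050571) (N0 := 3) (En := eng) (mo := mog) (C1 := cd1q3) (C2 := cd4q3) (C3 := pd0)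
    rfl (fun _ => rfl) k0_mm_303

noncomputable def f_mm_313 : ℕ → ℕ → ℕ → ℕ → Bool := onCell 1610612736 536870912 0 1230186008 740881858 40050571
    (rowB 3 eng mog cd1q3 cd4q3 pd1 0 false false false .dn 3 1 3 (qsf 1610612736 536870912 0 1230186008 1) ndB1q3 ndB4q3 pcB1 Cut.none Ext.none)

def k0_mm_313 : ∃ t, chk3 f_mm_313 t 1 1 1 = true :=
  ⟨(b (l 3) (l 1)), by decide +kernel⟩

theorem c_mm_313 : CertB 1610612736 536870912 0 1230186008 740881858 40050571 3 eng mog cd1q3 cd4q3 pd1 false false false .dn 3 1 3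
    ndB1q3 ndB4q3 pcB1 Cut.none Ext.none :=
  certB0 (fam := false) (s1 := false) (s2 := false) (a := 3) (b := 1) (c := 3) (cn := .dn) (n1 := ndB1q3) (n2 := ndB4q3) (pc := pcB1) (cut := Cut.none) (xt := Ext.none) (P1 := 1610612736) (W1 := 536870912) (P2 := 0) (W2 := 1230186008) (P3 := 740881858) (W3 := 40050571) (N0 := 3) (En := eng) (mo := mog) (C1 := cd1q3) (C2 := cd4q3) (C3 := pd1)
    rfl k0_mm_313

end Pool.Agent.Strip051.G.I69_7273.Tab.C.BB14

namespace Pool.Agent.Strip051.G.I69_7273.Tab.C.BB15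

open Pool.Agent.Strip051.PB Pool.Agent.Strip051.PB.T
open Pool.Agent.Strip051.G.I69_7273.Tab

noncomputable def f_pp_001 : ℕ → ℕ → ℕ → ℕ → Bool := onCell 0 536870912 0 536870912 740881858 40050571
    (rowB 3 eng mog cd1q0 cd5q1 pd0 1 false true true .up 0 0 1 (qsf 0 536870912 536870912 536870912 0) ndB1q0 ndB5q1 pcB0 Cut.none Ext.none)

def k0_pp_001 : ∃ t, chk3 f_pp_001 t 1 1 1 = true :=
  ⟨(l 3), by decide +kernel⟩

theorem c_pp_001 : CertB 0 536870912 536870912 536870912 740881858 40050571 3 eng mog cd1q0 cd5q1 pd0 false true true .up 0 0 1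
    ndB1q0 ndB5q1 pcB0 Cut.none Ext.none :=
  certB1 (fam := false) (s1 := true) (s2 := true) (a := 0) (b := 0) (c := 1) (cn := .up) (n1 := ndB1q0) (n2 := ndB5q1) (pc := pcB0) (cut := Cut.none) (xt := Ext.none) (P1 := 0) (W1 := 536870912) (P2 := 536870912) (W2 := 536870912) (P3 := 740881858) (W3 := 40050571) (N0 := 3) (En := eng) (mo := mog) (C1 := cd1q0) (C2 := cd5q1) (C3 := pd0)
    rfl (fun _ => rfl) k0_pp_001

noncomputable def cut_pp_011 : Cut := Cut.of [[⟨0, 0, 0, 67108864⟩, ⟨1, 1, 0, 67108864⟩, ⟨2, 1, 0, 67108864⟩]]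

noncomputable def f_pp_011 : ℕ → ℕ → ℕ → ℕ → Bool := onCell 0 536870912 536870912 536870912 740881858 40050571
    (rowB 3 eng mog cd1q0 cd5q1 pd1 1 false true true .pnn 0 1 1 (qsf 0 536870912 536870912 536870912 1) ndB1q0 ndB5q1 pcB1 cut_pp_011 Ext.none)

def k0_pp_011 : ∃ t, chk3 f_pp_011 t 1 1 1 = true :=
  ⟨(b (l 3) (b (l 3) (a (b (l 3) (a (a (b (l 3) (a (l 6) (l 3))) (l 3)) (l 2))) (l 2)))), by decide +kernel⟩

theorem c_pp_011 : CertB 0 536870912 536870912 536870912 740881858 40050571 3 eng mog cd1q0 cd5q1 pd1 false true true .pnn 0 1 1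
    ndB1q0 ndB5q1 pcB1 cut_pp_011 Ext.none :=
  certB1 (fam := false) (s1 := true) (s2 := true) (a := 0) (b := 1) (c := 1) (cn := .pnn) (n1 := ndB1q0) (n2 := ndB5q1) (pc := pcB1) (cut := cut_pp_011) (xt := Ext.none) (P1 := 0) (W1 := 536870912) (P2 := 536870912) (W2 := 536870912) (P3 := 740881858) (W3 := 40050571) (N0 := 3) (En := eng) (mo := mog) (C1 := cd1q0) (C2 := cd5q1) (C3 := pd1)
    rfl (fun _ => rfl) k0_pp_011

noncomputable def cut_pp_012 : Cut := Cut.of [[⟨0, 0, 0, 67108864⟩, ⟨1, 1, 0, 67108864⟩, ⟨2, 1, 0, 67108864⟩]]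

noncomputable def f_pp_012 : ℕ → ℕ → ℕ → ℕ → Bool := onCell 0 536870912 536870912 536870912 740881858 40050571
    (rowB 3 eng mog cd1q0 cd5q2 pd1 1 false true true .pnp 0 1 2 (qsf 0 536870912 1073741824 536870912 1) ndB1q0 ndB5q2 pcB1 cut_pp_012 Ext.none)

def k0_pp_012 : ∃ t, chk3 f_pp_012 t 1 1 1 = true :=
  ⟨(b (l 3) (b (l 3) (a (a (a (a (b (l 1) (b (l 3) (l 6))) (l 3)) (l 3)) (l 3)) (l 3)))), by decide +kernel⟩

theorem c_pp_012 : CertB 0 536870912 1073741824 536870912 740881858 40050571 3 eng mog cd1q0 cd5q2 pd1 false true true .pnp 0 1 2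
    ndB1q0 ndB5q2 pcB1 cut_pp_012 Ext.none :=
  certB1 (fam := false) (s1 := true) (s2 := true) (a := 0) (b := 1) (c := 2) (cn := .pnp) (n1 := ndB1q0) (n2 := ndB5q2) (pc := pcB1) (cut := cut_pp_012) (xt := Ext.none) (P1 := 0) (W1 := 536870912) (P2 := 1073741824) (W2 := 536870912) (P3 := 740881858) (W3 := 40050571) (N0 := 3) (En := eng) (mo := mog) (C1 := cd1q0) (C2 := cd5q2) (C3 := pd1)
    rfl (fun _ => rfl) k0_pp_012

noncomputable def cut_pp_022 : Cut := Cut.of [[⟨0, 0, 0, 67108864⟩, ⟨1, 1, 0, 67108864⟩, ⟨2, 1, 0, 67108864⟩]]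

noncomputable def f_pp_022 : ℕ → ℕ → ℕ → ℕ → Bool := onCell 0 536870912 1073741824 536870912 740881858 40050571
    (rowB 3 eng mog cd1q0 cd5q2 pd2 1 false true true .pp 0 2 2 (qsf 0 536870912 1073741824 536870912 2) ndB1q0 ndB5q2 pcB2 cut_pp_022 Ext.none)

def k0_pp_022 : ∃ t, chk3 f_pp_022 t 2 8 1 = true :=
  ⟨(a (a (b (a (b (l 6) (a (l 6) (b (l 6) (a (l 6) (b (l 6) (a (l 6) (l 16741424))))))) (b (l 3) (a (b (a (a (l 6) (l 3)) (l 3)) (b (a (l 195588739895) (l 3)) (a (l 16751288) (l 270750657959)))) (l 3)))) (a (a (b (a (l 6) (b (l 6) (b (l 6) (l 16685568)))) (b (a (l 16659168) (l 16671440)) (a (b (l 16644944) (l 16635480)) (b (l 16657304) (l 16647896))))) (b (b (a (l 16721120) (b (l 16733104) (l 16726208))) (a (l 16702200) (l 16713952))) (b (a (l 16662496) (l 16695184)) (a (l 16633296) (l 16676512))))) (b (a (b (a (b (l 16737968) (l 16730208)) (b (l 16745888) (l 16736136))) (a (l 16719528) (b (l 16706600) (l 16719888)))) (b (b (l 225653495943)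 (a (l 16742464) (l 3))) (b (a (l 16734256) (l 16740152)) (a (l 16725304) (l 16732064))))) (a (a (l 16718312) (l 16723376)) (b (a (l 16713384) (l 16697696)) (a (l 16699040) (l 16702776))))))) (b (l 3) (b (a (b (l 3) (a (b (l 3) (a (l 16737496) (l 3))) (l 3))) (l 3)) (a (b (a (b (l 205789235559) (l 168208261895)) (b (l 3) (a (l 16731256) (l 3)))) (a (b (l 16714456) (l 16684832)) (b (l 16725464) (l 16717048)))) (b (l 3) (a (b (l 3) (l 16727056)) (l 3))))))) (l 3)), by decide +kernel⟩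

def k1_pp_022 : ∃ t, chk3 f_pp_022 t 2 9 1 = true :=
  ⟨(a (b (a (a (b (b (a (a (b (l 16627680) (l 16621408)) (l 16616048)) (l 16676184)) (a (l 16633696) (l 16642224))) (a (b (l 16604360) (l 16590040)) (l 16640128))) (b (a (b (l 16676496) (l 16655800)) (b (l 16684016) (l 16664208))) (a (l 16641568) (l 16634536)))) (b (a (b (a (l 16692184) (b (l 16707800) (l 16697744))) (a (l 16673008) (l 16662248))) (a (b (b (l 16718920) (l 16709952)) (l 16695808)) (b (l 3) (b (l 16713280) (l 16704912))))) (a (a (b (l 16654296) (l 16635752)) (b (l 16665112) (l 16647520))) (b (a (l 16677344) (l 16691904)) (a (l 16660448) (l 16674920)))))) (a (a (a (b (b (l 16575008) (l 16559328)) (l 16535824)) (b (l 16604216) (l 16549752))) (b (a (l 16589584) (l 16618424)) (l 16582256))) (a (b (a (b (l 16617472) (l 16599624)) (l 16558832)) (a (b (l 16582968) (l 16568040)) (l 16526248))) (b (b (a (l 16644048) (l 16658976)) (l 16635696)) (l 16654376))))) (b (a (b (a (b (l 3) (l 3))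 (l 3)) (a (b (a (l 16706056) (l 16718224)) (a (l 16690192) (l 16703968))) (a (b (l 3) (l 16715696)) (l 3)))) (l 3)) (a (b (a (b (a (l 16673640) (l 16687888)) (l 16664344)) (b (l 254107584295) (a (l 16683968) (l 16695976)))) (a (b (l 16649344) (l 16633936)) (b (l 16673400) (l 16658632)))) (b (a (b (l 3) (l 313163388631)) (l 3)) (a (b (l 234243345623) (l 16680824)) (b (a (l 16709744) (l 3)) (l 16701432))))))), by decide +kernel⟩

def k2_pp_022 : ∃ t, chk3 f_pp_022 t 2 5 1 = true :=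
  ⟨(b (a (b (b (a (a (a (l 16502584) (l 16519016)) (l 16554208)) (a (a (l 16549688) (l 16561528)) (l 16624400))) (b (a (a (l 16485600) (l 16515088)) (a (l 16539336) (l 16562272))) (a (a (b (l 16470072) (b (l 16461056) (l 16454704))) (b (l 16504248) (l 16492192))) (a (b (l 16531168) (l 16519152)) (b (l 16553760) (l 16543520)))))) (a (a (b (l 16435424) (l 16401056)) (b (l 16467984) (l 16432000))) (a (b (l 16495048) (l 16459040)) (l 16597520)))) (b (b (a (a (l 16609608) (b (l 16643192) (l 16626600))) (b (a (l 16666144) (l 16688776)) (a (l 16650832) (l 16673400)))) (b (a (a (l 16585008) (l 16609704)) (a (l 16633880) (l 16658984))) (a (b (l 16628352) (a (l 16569224) (b (l 16591520) (l 16589768)))) (b (l 16632848) (b (l 16667840) (a (l 16609968) (l 16632808))))))) (a (a (l 16592752) (l 16556072)) (a (l 16578968) (l 16602448))))) (a (a (a (b (b (l 16366280) (l 16331008)) (b (l 16295352) (l 16124520))) (b (b (l 16395616) (l 16360368)) (b (l 16325904) (l 16292400))))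 (b (a (b (l 16423808) (l 16389520)) (l 16496608)) (a (l 16422928) (l 16366488)))) (a (b (a (l 16460976) (l 16489224)) (a (l 16436928) (l 16428336))) (b (a (l 16518112) (l 16546376)) (a (l 16462344) (l 16495496)))))), by decide +kernel⟩

def k3_pp_022 : ∃ t, chk3 f_pp_022 t 2 3 1 = true :=
  ⟨(a (b (b (a (b (a (a (l 16202280) (l 16218896)) (b (l 16259432) (l 16226800))) (a (l 16146280) (l 16179344))) (b (a (l 16273568) (b (l 16317272) (l 16285952))) (a (l 16210008) (l 16242080)))) (a (a (b (b (l 16099472) (l 16068800)) (l 16212752)) (b (l 16117432) (l 16227168))) (a (b (l 16151176) (l 16098672)) (b (l 16189160) (l 16142744))))) (b (a (a (b (l 16114024) (l 15914984)) (b (l 16006976) (l 15961368))) (a (b (l 16052856) (l 16014416)) (l 16254968))) (a (b (a (l 15869000) (l 15923344)) (l 16092880)) (a (l 15976032) (l 2))))) (b (b (a (b (a (l 16334808) (l 16373648)) (a (l 16385952) (l 16325288))) (b (a (l 16412736) (l 16451160)) (l 16392000))) (a (b (a (l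 16233800) (l 16283808)) (l 16431552)) (a (l 16320928) (l 2)))) (b (a (a (l 16192280) (l 2)) (l 2)) (l 2)))), by decide +kernel⟩

def k4_pp_022 : ∃ t, chk3 f_pp_022 t 3 1 1 = true :=
  ⟨(b (b (b (l 3) (a (b (l 3) (b (l 3) (a (a (b (l 3) (l 3)) (l 3)) (l 3)))) (l 3))) (b (b (b (a (a (b (a (l 16708736) (l 3)) (a (l 16694856) (l 16710184))) (b (l 3) (a (l 236927933607) (l 3)))) (l 3)) (a (b (a (a (l 16679560) (l 16697680)) (a (l 16711392) (l 16721320))) (b (a (a (l 16666824) (l 16686256)) (a (l 16701976) (l 16714456))) (a (b (a (l 16659312) (l 16679672)) (a (l 16654496) (l 16674672))) (b (a (l 16697128) (l 16710896)) (a (l 16693144) (l 16708584)))))) (l 2))) (a (a (a (l 16625456) (l 16648136)) (a (l 16669928) (l 16689208))) (l 2))) (a (a (b (a (l 16572160) (l 16598984)) (a (l 16526752) (l 16555696))) (b (a (l 16624928) (l 2)) (l 2))) (l 2)))) (a (b (b (a (b (l 16506448) (l 2)) (l 2)) (l 2)) (l 2)) (l 2))), by decide +kernel⟩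

theorem s5_pp_022 : ∃ t, chk3 f_pp_022 t 2 4 1 = true := ex3_b k0_pp_022 k1_pp_022

theorem s6_pp_022 : ∃ t, chk3 f_pp_022 t 2 2 1 = true := ex3_b s5_pp_022 k2_pp_022

theorem s7_pp_022 : ∃ t, chk3 f_pp_022 t 2 1 1 = true := ex3_b s6_pp_022 k3_pp_022

theorem s8_pp_022 : ∃ t, chk3 f_pp_022 t 1 1 1 = true := ex3_a s7_pp_022 k4_pp_022

theorem c_pp_022 : CertB 0 536870912 1073741824 536870912 740881858 40050571 3 eng mog cd1q0 cd5q2 pd2 false true true .pp 0 2 2
    ndB1q0 ndB5q2 pcB2 cut_pp_022 Ext.none :=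
  certB1 (fam := false) (s1 := true) (s2 := true) (a := 0) (b := 2) (c := 2) (cn := .pp) (n1 := ndB1q0) (n2 := ndB5q2) (pc := pcB2) (cut := cut_pp_022) (xt := Ext.none) (P1 := 0) (W1 := 536870912) (P2 := 1073741824) (W2 := 536870912) (P3 := 740881858) (W3 := 40050571) (N0 := 3) (En := eng) (mo := mog) (C1 := cd1q0) (C2 := cd5q2) (C3 := pd2)
    rfl (fun _ => rfl) s8_pp_022

noncomputable def f_pp_023 : ℕ → ℕ → ℕ → ℕ → Bool := onCell 1073741824 536870912 0 1230186008 740881858 40050571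
    (rowB 3 eng mog cd1q0 cd5q3 pd2 2 false true true .up 0 2 3 (qsf 0 536870912 0 1230186008 2) ndB1q0 ndB5q3 pcB2 Cut.none Ext.none)

def k0_pp_023 : ∃ t, chk3 f_pp_023 t 1 1 1 = true :=
  ⟨(a (a (b (l 2) (b (l 2) (l 3))) (b (l 2) (a (b (l 2) (a (a (l 3) (b (b (l 2) (a (l 3) (a (l 3) (a (l 16747400) (l 16746768))))) (a (b (l 3) (b (l 3) (l 16725032))) (b (a (l 3) (a (l 16736120) (l 16735160))) (a (b (l 16727048) (l 16717240)) (a (a (l 16782112) (l 16781096)) (l 16716120))))))) (b (b (l 16748000) (l 16738864)) (b (l 16721360) (b (l 16700640) (l 16681784)))))) (b (b (l 2) (l 414565436743)) (b (b (l 16703344) (l 16675352)) (b (l 16640688) (b (l 16604416) (l 16576224)))))))) (a (b (l 2) (b (b (a (l 2) (l 16689104)) (a (b (l 16721296) (l 16710200)) (l 16675824))) (b (b (a (l 16672304) (l 16606744)) (a (l 16614504) (l 16522144))) (b (l 16650688) (a (b (l 16479808) (l 16434904)) (l 16300184)))))) (b (b (b (l 16595944) (l 16666152)) (b (l 16687944) (l 16677816)))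 (b (b (l 16658480) (b (l 16626448) (l 16576784))) (b (b (l 16481360) (l 16328368)) (b (l 16196760) (b (l 16079288) (l 16005104)))))))), by decide +kernel⟩

theorem c_pp_023 : CertB 0 536870912 0 1230186008 740881858 40050571 3 eng mog cd1q0 cd5q3 pd2 false true true .up 0 2 3
    ndB1q0 ndB5q3 pcB2 Cut.none Ext.none :=
  certB2 (fam := false) (s1 := true) (s2 := true) (a := 0) (b := 2) (c := 3) (cn := .up) (n1 := ndB1q0) (n2 := ndB5q3) (pc := pcB2) (cut := Cut.none) (xt := Ext.none) (P1 := 0) (W1 := 536870912) (P2 := 0) (W2 := 1230186008) (P3 := 740881858) (W3 := 40050571) (N0 := 3) (En := eng) (mo := mog) (C1 := cd1q0) (C2 := cd5q3) (C3 := pd2)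
    rfl (fun _ => rfl) k0_pp_023

noncomputable def f_pp_033 : ℕ → ℕ → ℕ → ℕ → Bool := onCell 1610612736 536870912 0 1230186008 740881858 40050571
    (rowB 3 eng mog cd1q0 cd5q3 pd3 2 false true true .pnn 0 3 3 (qsf 0 536870912 0 1230186008 3) ndB1q0 ndB5q3 pcB3 Cut.none Ext.none)

def k0_pp_033 : ∃ t, chk3 f_pp_033 t 1 1 1 = true :=
  ⟨(b (b (a (a (a (b (l 16585376) (l 16653344)) (l 16586512)) (a (l 16762000) (l 16461736))) (a (b (l 4) (a (l 16388640) (l 4))) (l 4))) (a (a (b (a (l 16715008) (l 16610328)) (a (l 16694408) (l 16602520))) (a (b (l 16522808) (a (l 16511280) (l 16456384))) (b (l 16447472) (a (l 16413800) (l 16368840))))) (a (a (b (a (l 16383744) (l 16339624)) (b (l 16395984) (l 16240640))) (b (a (l 16291896) (l 16246376)) (a (b (l 16243608) (l 16192720)) (b (l 16211368) (l 16154600))))) (a (b (a (l 16198992) (l 4)) (a (b (l 16181960) (l 16126432)) (b (l 16113096) (l 575021413255)))) (b (l 4) (b (l 4) (l 1))))))) (b (a (a (b (l 16615400)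 (b (l 16480600) (l 16366904))) (a (b (a (l 16428432) (l 16363400)) (b (l 16277296) (l 16171624))) (b (a (l 16313592) (l 16243616)) (a (l 16133608) (l 16074912))))) (b (a (a (b (a (l 16233344) (l 16163888)) (a (l 16158928) (l 16074720))) (a (b (l 16117472) (l 16017208)) (b (l 16084472) (l 15984552)))) (a (a (b (l 16051464) (l 1)) (l 1)) (l 1))) (a (a (b (l 16020952) (l 15902168)) (a (b (l 15911528) (l 1)) (l 1))) (l 1)))) (a (b (a (b (l 16221424) (l 16052664)) (b (a (l 16014984) (l 160556457943)) (a (l 15822008) (l 1)))) (a (b (a (l 15953904) (l 15787528)) (a (l 109553466535) (l 383357286263))) (b (a (l 15619248) (l 1)) (l 1)))) (l 1)))), by decide +kernel⟩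

theorem c_pp_033 : CertB 0 536870912 0 1230186008 740881858 40050571 3 eng mog cd1q0 cd5q3 pd3 false true true .pnn 0 3 3
    ndB1q0 ndB5q3 pcB3 Cut.none Ext.none :=
  certB2 (fam := false) (s1 := true) (s2 := true) (a := 0) (b := 3) (c := 3) (cn := .pnn) (n1 := ndB1q0) (n2 := ndB5q3) (pc := pcB3) (cut := Cut.none) (xt := Ext.none) (P1 := 0) (W1 := 536870912) (P2 := 0) (W2 := 1230186008) (P3 := 740881858) (W3 := 40050571) (N0 := 3) (En := eng) (mo := mog) (C1 := cd1q0) (C2 := cd5q3) (C3 := pd3)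
    rfl (fun _ => rfl) k0_pp_033

noncomputable def f_pp_101 : ℕ → ℕ → ℕ → ℕ → Bool := onCell 536870912 536870912 0 536870912 740881858 40050571
    (rowB 3 eng mog cd1q1 cd5q1 pd0 1 false true true .npn 1 0 1 (qsf 536870912 536870912 536870912 536870912 0) ndB1q1 ndB5q1 pcB0 Cut.none Ext.none)

def k0_pp_101 : ∃ t, chk3 f_pp_101 t 1 1 1 = true :=
  ⟨(l 3), by decide +kernel⟩

theorem c_pp_101 : CertB 536870912 536870912 536870912 536870912 740881858 40050571 3 eng mog cd1q1 cd5q1 pd0 false true true .npn 1 0 1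
    ndB1q1 ndB5q1 pcB0 Cut.none Ext.none :=
  certB1 (fam := false) (s1 := true) (s2 := true) (a := 1) (b := 0) (c := 1) (cn := .npn) (n1 := ndB1q1) (n2 := ndB5q1) (pc := pcB0) (cut := Cut.none) (xt := Ext.none) (P1 := 536870912) (W1 := 536870912) (P2 := 536870912) (W2 := 536870912) (P3 := 740881858) (W3 := 40050571) (N0 := 3) (En := eng) (mo := mog) (C1 := cd1q1) (C2 := cd5q1) (C3 := pd0)
    rfl (fun _ => rfl) k0_pp_101

noncomputable def f_pp_102 : ℕ → ℕ → ℕ → ℕ → Bool := onCell 536870912 536870912 1073741824 536870912 740881858 40050571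
    (rowB 3 eng mog cd1q1 cd5q2 pd0 0 false true true .npp 1 0 2 (qsf 536870912 536870912 1073741824 536870912 0) ndB1q1 ndB5q2 pcB0 Cut.none Ext.none)

def k0_pp_102 : ∃ t, chk3 f_pp_102 t 1 1 1 = true :=
  ⟨(l 3), by decide +kernel⟩

theorem c_pp_102 : CertB 536870912 536870912 1073741824 536870912 740881858 40050571 3 eng mog cd1q1 cd5q2 pd0 false true true .npp 1 0 2
    ndB1q1 ndB5q2 pcB0 Cut.none Ext.none :=
  certB0 (fam := false) (s1 := true) (s2 := true) (a := 1) (b := 0) (c := 2) (cn := .npp) (n1 := ndB1q1) (n2 := ndB5q2) (pc := pcB0) (cut := Cut.none) (xt := Ext.none) (P1 := 536870912) (W1 := 536870912) (P2 := 1073741824) (W2 := 536870912) (P3 := 740881858) (W3 := 40050571) (N0 := 3) (En := eng) (mo := mog) (C1 := cd1q1) (C2 := cd5q2) (C3 := pd0)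
    rfl k0_pp_102

noncomputable def f_pp_112 : ℕ → ℕ → ℕ → ℕ → Bool := onCell 536870912 536870912 1073741824 536870912 740881858 40050571
    (rowB 3 eng mog cd1q1 cd5q2 pd1 0 false true true .dn 1 1 2 (qsf 536870912 536870912 1073741824 536870912 1) ndB1q1 ndB5q2 pcB1 Cut.none Ext.none)

def k0_pp_112 : ∃ t, chk3 f_pp_112 t 1 1 1 = true :=
  ⟨(l 3), by decide +kernel⟩

theorem c_pp_112 : CertB 536870912 536870912 1073741824 536870912 740881858 40050571 3 eng mog cd1q1 cd5q2 pd1 false true true .dn 1 1 2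
    ndB1q1 ndB5q2 pcB1 Cut.none Ext.none :=
  certB0 (fam := false) (s1 := true) (s2 := true) (a := 1) (b := 1) (c := 2) (cn := .dn) (n1 := ndB1q1) (n2 := ndB5q2) (pc := pcB1) (cut := Cut.none) (xt := Ext.none) (P1 := 536870912) (W1 := 536870912) (P2 := 1073741824) (W2 := 536870912) (P3 := 740881858) (W3 := 40050571) (N0 := 3) (En := eng) (mo := mog) (C1 := cd1q1) (C2 := cd5q2) (C3 := pd1)
    rfl k0_pp_112

noncomputable def f_pp_113 : ℕ → ℕ → ℕ → ℕ → Bool := onCell 536870912 536870912 0 1230186008 740881858 40050571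
    (rowB 3 eng mog cd1q1 cd5q3 pd1 2 false true true .nn 1 1 3 (qsf 536870912 536870912 0 1230186008 1) ndB1q1 ndB5q3 pcB1 Cut.none Ext.none)

def k0_pp_113 : ∃ t, chk3 f_pp_113 t 1 1 1 = true :=
  ⟨(b (a (l 2) (a (l 2) (b (a (l 2) (a (l 2) (a (b (l 2) (l 305110679095)) (b (l 16772104) (l 245518068183))))) (l 3)))) (a (b (l 3) (a (b (l 2) (l 3)) (l 3))) (b (l 3) (l 3)))), by decide +kernel⟩

theorem c_pp_113 : CertB 536870912 536870912 0 1230186008 740881858 40050571 3 eng mog cd1q1 cd5q3 pd1 false true true .nn 1 1 3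
    ndB1q1 ndB5q3 pcB1 Cut.none Ext.none :=
  certB2 (fam := false) (s1 := true) (s2 := true) (a := 1) (b := 1) (c := 3) (cn := .nn) (n1 := ndB1q1) (n2 := ndB5q3) (pc := pcB1) (cut := Cut.none) (xt := Ext.none) (P1 := 536870912) (W1 := 536870912) (P2 := 0) (W2 := 1230186008) (P3 := 740881858) (W3 := 40050571) (N0 := 3) (En := eng) (mo := mog) (C1 := cd1q1) (C2 := cd5q3) (C3 := pd1)
    rfl (fun _ => rfl) k0_pp_113

noncomputable def f_pp_123 : ℕ → ℕ → ℕ → ℕ → Bool := onCell 1073741824 536870912 0 1230186008 740881858 40050571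
    (rowB 3 eng mog cd1q1 cd5q3 pd2 2 false true true .npn 1 2 3 (qsf 536870912 536870912 0 1230186008 2) ndB1q1 ndB5q3 pcB2 Cut.none Ext.none)

def k0_pp_123 : ∃ t, chk3 f_pp_123 t 2 1 1 = true :=
  ⟨(a (b (a (b (b (a (l 16665152) (l 16622336)) (a (b (l 16718584) (l 16761464)) (l 16707952))) (b (a (b (l 444697147063) (l 3)) (b (l 16795096) (l 327122462727))) (a (l 3) (b (l 3) (l 3))))) (b (b (a (l 16621448) (l 16602040)) (a (l 16684552) (l 16666680))) (a (b (b (l 16748640) (a (l 16802056) (l 16797032))) (b (a (l 16774408) (l 16769208)) (a (l 3) (l 16751312)))) (b (l 16748224) (b (a (l 16761872) (l 16766016)) (a (l 16748856) (l 16747880))))))) (b (a (l 3) (a (l 3) (b (a (b (l 16717904) (l 3)) (b (l 16736928) (l 16729128))) (l 3)))) (l 3))) (b (b (b (a (b (l 16580184) (l 16560560)) (l 16605728)) (a (a (a (l 16668832) (a (l 16672272) (l 16674752))) (l 16676824)) (l 16679656))) (a (a (a (b (l 16733832) (l 16763640)) (b (a (l 16728776) (l 16723888)) (a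 (l 16773696) (l 16785808)))) (b (l 16723008) (l 16763816))) (b (l 16716520) (l 16750592)))) (a (b (a (a (b (a (l 283098840807) (l 16842680)) (b (l 255181525975) (a (l 3) (l 16721504)))) (b (a (l 16742336) (a (l 16736952) (a (l 16741080) (l 16745216)))) (a (b (l 16728600) (l 16726720)) (b (a (l 16729560) (l 16726800)) (a (l 16727960) (a (l 16728272) (l 16727464))))))) (b (l 16750872) (l 16840432))) (a (a (l 3) (b (a (b (l 16716392) (l 3)) (b (a (l 16719696) (a (l 16721744) (l 16723224))) (a (l 3) (a (l 16621312) (l 16707136))))) (l 1))) (b (b (l 16736432) (l 16721488)) (l 1)))) (b (b (l 16936992) (b (l 16759320) (l 16760000))) (b (b (l 16755416) (l 1)) (l 1)))))), by decide +kernel⟩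

def k1_pp_123 : ∃ t, chk3 f_pp_123 t 3 1 1 = true :=
  ⟨(b (b (a (b (l 16616552) (l 16686664)) (b (l 16645952) (l 16711080))) (a (b (a (l 16704776) (l 16697440)) (a (l 16726568) (l 16707848))) (b (l 16696672) (l 16693904)))) (b (a (b (a (l 16739328) (l 16714384)) (a (l 54794864391) (l 16728216))) (b (l 16693480) (l 1))) (l 1))), by decide +kernel⟩

theorem s2_pp_123 : ∃ t, chk3 f_pp_123 t 1 1 1 = true := ex3_a k0_pp_123 k1_pp_123

theorem c_pp_123 : CertB 536870912 536870912 0 1230186008 740881858 40050571 3 eng mog cd1q1 cd5q3 pd2 false true true .npn 1 2 3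
    ndB1q1 ndB5q3 pcB2 Cut.none Ext.none :=
  certB2 (fam := false) (s1 := true) (s2 := true) (a := 1) (b := 2) (c := 3) (cn := .npn) (n1 := ndB1q1) (n2 := ndB5q3) (pc := pcB2) (cut := Cut.none) (xt := Ext.none) (P1 := 536870912) (W1 := 536870912) (P2 := 0) (W2 := 1230186008) (P3 := 740881858) (W3 := 40050571) (N0 := 3) (En := eng) (mo := mog) (C1 := cd1q1) (C2 := cd5q3) (C3 := pd2)
    rfl (fun _ => rfl) s2_pp_123

noncomputable def f_pp_133 : ℕ → ℕ → ℕ → ℕ → Bool := onCell 536870912 536870912 0 1230186008 740881858 40050571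
    (rowB 3 eng mog cd1q1 cd5q3 pd3 0 false true true .dn 1 3 3 (qsf 536870912 536870912 0 1230186008 3) ndB1q1 ndB5q3 pcB3 Cut.none Ext.none)

def k0_pp_133 : ∃ t, chk3 f_pp_133 t 1 1 1 = true :=
  ⟨(b (a (a (b (b (l 4164004819383) (l 1)) (l 1)) (l 1)) (l 1)) (l 1)), by decide +kernel⟩

theorem c_pp_133 : CertB 536870912 536870912 0 1230186008 740881858 40050571 3 eng mog cd1q1 cd5q3 pd3 false true true .dn 1 3 3
    ndB1q1 ndB5q3 pcB3 Cut.none Ext.none :=
  certB0 (fam := false) (s1 := true) (s2 := true) (a := 1) (b := 3) (c := 3) (cn := .dn) (n1 := ndB1q1) (n2 := ndB5q3) (pc := pcB3) (cut := Cut.none) (xt := Ext.none) (P1 := 536870912) (W1 := 536870912) (P2 := 0) (W2 := 1230186008) (P3 := 740881858) (W3 := 40050571) (N0 := 3) (En := eng) (mo := mog) (C1 := cd1q1) (C2 := cd5q3) (C3 := pd3)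
    rfl k0_pp_133

noncomputable def f_pp_202_a : ℕ → ℕ → ℕ → ℕ → Bool := onCell 0 536870912 1073741824 536870912 740881858 40050571
    (rowB 3 eng mog cd1q2a cd5q2 pd0 0 false true true .pp 2 0 2 (qsf 0 536870912 1073741824 536870912 0) ndB1q2a ndB5q2 pcB0 Cut.none Ext.none)

def k0_pp_202_a : ∃ t, chk3 f_pp_202_a t 1 1 1 = true :=
  ⟨(l 5), by decide +kernel⟩

theorem c_pp_202_a : CertB 0 536870912 1073741824 536870912 740881858 40050571 3 eng mog cd1q2a cd5q2 pd0 false true true .pp 2 0 2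
    ndB1q2a ndB5q2 pcB0 Cut.none Ext.none :=
  certB0 (fam := false) (s1 := true) (s2 := true) (a := 2) (b := 0) (c := 2) (cn := .pp) (n1 := ndB1q2a) (n2 := ndB5q2) (pc := pcB0) (cut := Cut.none) (xt := Ext.none) (P1 := 0) (W1 := 536870912) (P2 := 1073741824) (W2 := 536870912) (P3 := 740881858) (W3 := 40050571) (N0 := 3) (En := eng) (mo := mog) (C1 := cd1q2a) (C2 := cd5q2) (C3 := pd0)
    rfl k0_pp_202_a

noncomputable def f_pp_202_b : ℕ → ℕ → ℕ → ℕ → Bool := onCell 1239849684 370763052 1073741824 536870912 740881858 40050571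
    (rowB 3 eng mog cd1q2b cd5q2 pd0 0 false true true .pp 2 0 2 (qsf 1239849684 370763052 1073741824 536870912 0) ndB1q2b ndB5q2 pcB0 Cut.none Ext.none)

def k0_pp_202_b : ∃ t, chk3 f_pp_202_b t 1 1 1 = true :=
  ⟨(l 5), by decide +kernel⟩

theorem c_pp_202_b : CertB 1239849684 370763052 1073741824 536870912 740881858 40050571 3 eng mog cd1q2b cd5q2 pd0 false true true .pp 2 0 2
    ndB1q2b ndB5q2 pcB0 Cut.none Ext.none :=
  certB0 (fam := false) (s1 := true) (s2 := true) (a := 2) (b := 0) (c := 2) (cn := .pp) (n1 := ndB1q2b) (n2 := ndB5q2) (pc := pcB0) (cut := Cut.none) (xt := Ext.none) (P1 := 1239849684) (W1 := 370763052) (P2 := 1073741824) (W2 := 536870912) (P3 := 740881858) (W3 := 40050571) (N0 := 3) (En := eng) (mo := mog) (C1 := cd1q2b) (C2 := cd5q2) (C3 := pd0)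
    rfl k0_pp_202_b

noncomputable def f_pp_203_a : ℕ → ℕ → ℕ → ℕ → Bool := onCell 0 536870912 0 1230186008 740881858 40050571
    (rowB 3 eng mog cd1q2a cd5q3 pd0 0 false true true .up 2 0 3 (qsf 0 536870912 0 1230186008 0) ndB1q2a ndB5q3 pcB0 Cut.none Ext.none)

def k0_pp_203_a : ∃ t, chk3 f_pp_203_a t 1 1 1 = true :=
  ⟨(b (l 2) (a (l 5) (l 3))), by decide +kernel⟩

theorem c_pp_203_a : CertB 0 536870912 0 1230186008 740881858 40050571 3 eng mog cd1q2a cd5q3 pd0 false true true .up 2 0 3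
    ndB1q2a ndB5q3 pcB0 Cut.none Ext.none :=
  certB0 (fam := false) (s1 := true) (s2 := true) (a := 2) (b := 0) (c := 3) (cn := .up) (n1 := ndB1q2a) (n2 := ndB5q3) (pc := pcB0) (cut := Cut.none) (xt := Ext.none) (P1 := 0) (W1 := 536870912) (P2 := 0) (W2 := 1230186008) (P3 := 740881858) (W3 := 40050571) (N0 := 3) (En := eng) (mo := mog) (C1 := cd1q2a) (C2 := cd5q3) (C3 := pd0)
    rfl k0_pp_203_a

noncomputable def f_pp_203_b : ℕ → ℕ → ℕ → ℕ → Bool := onCell 1239849684 370763052 0 1230186008 740881858 40050571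
    (rowB 3 eng mog cd1q2b cd5q3 pd0 0 false true true .up 2 0 3 (qsf 1239849684 370763052 0 1230186008 0) ndB1q2b ndB5q3 pcB0 Cut.none Ext.none)

def k0_pp_203_b : ∃ t, chk3 f_pp_203_b t 1 1 1 = true :=
  ⟨(b (l 3) (l 5)), by decide +kernel⟩

theorem c_pp_203_b : CertB 1239849684 370763052 0 1230186008 740881858 40050571 3 eng mog cd1q2b cd5q3 pd0 false true true .up 2 0 3
    ndB1q2b ndB5q3 pcB0 Cut.none Ext.none :=
  certB0 (fam := false) (s1 := true) (s2 := true) (a := 2) (b := 0) (c := 3) (cn := .up) (n1 := ndB1q2b) (n2 := ndB5q3) (pc := pcB0) (cut := Cut.none) (xt := Ext.none) (P1 := 1239849684) (W1 := 370763052) (P2 := 0) (W2 := 1230186008) (P3 := 740881858) (W3 := 40050571) (N0 := 3) (En := eng) (mo := mog) (C1 := cd1q2b) (C2 := cd5q3) (C3 := pd0)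
    rfl k0_pp_203_b

noncomputable def cut_pp_213_a : Cut := Cut.of [[⟨0, 1, 0, 67108864⟩, ⟨1, 1, 0, 67108864⟩, ⟨2, 2, 0, 16777216⟩]]

noncomputable def f_pp_213_a : ℕ → ℕ → ℕ → ℕ → Bool := onCell 0 536870912 0 1230186008 740881858 40050571
    (rowB 3 eng mog cd1q2a cd5q3 pd1 0 false true true .pnn 2 1 3 (qsf 0 536870912 0 1230186008 1) ndB1q2a ndB5q3 pcB1 cut_pp_213_a Ext.none)

def k0_pp_213_a : ∃ t, chk3 f_pp_213_a t 1 1 1 = true :=
  ⟨(a (b (l 3) (l 5)) (b (b (a (l 3) (a (l 3) (b (l 6) (l 3)))) (l 3)) (l 3))), by decide +kernel⟩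

theorem c_pp_213_a : CertB 0 536870912 0 1230186008 740881858 40050571 3 eng mog cd1q2a cd5q3 pd1 false true true .pnn 2 1 3
    ndB1q2a ndB5q3 pcB1 cut_pp_213_a Ext.none :=
  certB0 (fam := false) (s1 := true) (s2 := true) (a := 2) (b := 1) (c := 3) (cn := .pnn) (n1 := ndB1q2a) (n2 := ndB5q3) (pc := pcB1) (cut := cut_pp_213_a) (xt := Ext.none) (P1 := 0) (W1 := 536870912) (P2 := 0) (W2 := 1230186008) (P3 := 740881858) (W3 := 40050571) (N0 := 3) (En := eng) (mo := mog) (C1 := cd1q2a) (C2 := cd5q3) (C3 := pd1)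
    rfl k0_pp_213_a

noncomputable def cut_pp_213_b : Cut := Cut.of [[⟨0, 1, 0, 67108864⟩, ⟨1, 1, 0, 67108864⟩, ⟨2, 2, 0, 16777216⟩]]

noncomputable def f_pp_213_b : ℕ → ℕ → ℕ → ℕ → Bool := onCell 1239849684 370763052 0 1230186008 740881858 40050571
    (rowB 3 eng mog cd1q2b cd5q3 pd1 0 false true true .pnn 2 1 3 (qsf 1239849684 370763052 0 1230186008 1) ndB1q2b ndB5q3 pcB1 cut_pp_213_b Ext.none)

def k0_pp_213_b : ∃ t, chk3 f_pp_213_b t 1 1 1 = true :=
  ⟨(b (l 3) (l 5)), by decide +kernel⟩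

theorem c_pp_213_b : CertB 1239849684 370763052 0 1230186008 740881858 40050571 3 eng mog cd1q2b cd5q3 pd1 false true true .pnn 2 1 3
    ndB1q2b ndB5q3 pcB1 cut_pp_213_b Ext.none :=
  certB0 (fam := false) (s1 := true) (s2 := true) (a := 2) (b := 1) (c := 3) (cn := .pnn) (n1 := ndB1q2b) (n2 := ndB5q3) (pc := pcB1) (cut := cut_pp_213_b) (xt := Ext.none) (P1 := 1239849684) (W1 := 370763052) (P2 := 0) (W2 := 1230186008) (P3 := 740881858) (W3 := 40050571) (N0 := 3) (En := eng) (mo := mog) (C1 := cd1q2b) (C2 := cd5q3) (C3 := pd1)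
    rfl k0_pp_213_b

noncomputable def f_pp_303 : ℕ → ℕ → ℕ → ℕ → Bool := onCell 1610612736 536870912 0 1230186008 740881858 40050571
    (rowB 3 eng mog cd1q3 cd5q3 pd0 0 false true true .npn 3 0 3 (qsf 1610612736 536870912 0 1230186008 0) ndB1q3 ndB5q3 pcB0 Cut.none Ext.none)

def k0_pp_303 : ∃ t, chk3 f_pp_303 t 1 1 1 = true :=
  ⟨(b (l 3) (l 5)), by decide +kernel⟩

theorem c_pp_303 : CertB 1610612736 536870912 0 1230186008 740881858 40050571 3 eng mog cd1q3 cd5q3 pd0 false true true .npn 3 0 3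
    ndB1q3 ndB5q3 pcB0 Cut.none Ext.none :=
  certB0 (fam := false) (s1 := true) (s2 := true) (a := 3) (b := 0) (c := 3) (cn := .npn) (n1 := ndB1q3) (n2 := ndB5q3) (pc := pcB0) (cut := Cut.none) (xt := Ext.none) (P1 := 1610612736) (W1 := 536870912) (P2 := 0) (W2 := 1230186008) (P3 := 740881858) (W3 := 40050571) (N0 := 3) (En := eng) (mo := mog) (C1 := cd1q3) (C2 := cd5q3) (C3 := pd0)
    rfl k0_pp_303

noncomputable def f_pp_313 : ℕ → ℕ → ℕ → ℕ → Bool := onCell 1610612736 536870912 0 1230186008 740881858 40050571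
    (rowB 3 eng mog cd1q3 cd5q3 pd1 0 false true true .dn 3 1 3 (qsf 1610612736 536870912 0 1230186008 1) ndB1q3 ndB5q3 pcB1 Cut.none Ext.none)

def k0_pp_313 : ∃ t, chk3 f_pp_313 t 1 1 1 = true :=
  ⟨(b (l 3) (l 1)), by decide +kernel⟩

theorem c_pp_313 : CertB 1610612736 536870912 0 1230186008 740881858 40050571 3 eng mog cd1q3 cd5q3 pd1 false true true .dn 3 1 3
    ndB1q3 ndB5q3 pcB1 Cut.none Ext.none :=
  certB0 (fam := false) (s1 := true) (s2 := true) (a := 3) (b := 1) (c := 3) (cn := .dn) (n1 := ndB1q3) (n2 := ndB5q3) (pc := pcB1) (cut := Cut.none) (xt := Ext.none) (P1 := 1610612736) (W1 := 536870912) (P2 := 0) (W2 := 1230186008) (P3 := 740881858) (W3 := 40050571) (N0 := 3) (En := eng) (mo := mog) (C1 := cd1q3) (C2 := cd5q3) (C3 := pd1)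
    rfl k0_pp_313

noncomputable def f_pm_001 : ℕ → ℕ → ℕ → ℕ → Bool := onCell 0 536870912 536870912 536870912 740881858 40050571
    (rowB 3 eng mog cd1q0 cd5q1 pd0 0 false true false .up 0 0 1 (qsf 0 536870912 536870912 536870912 0) ndB1q0 ndB5q1 pcB0 Cut.none Ext.none)

def k0_pm_001 : ∃ t, chk3 f_pm_001 t 1 1 1 = true :=
  ⟨(l 4), by decide +kernel⟩

theorem c_pm_001 : CertB 0 536870912 536870912 536870912 740881858 40050571 3 eng mog cd1q0 cd5q1 pd0 false true false .up 0 0 1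
    ndB1q0 ndB5q1 pcB0 Cut.none Ext.none :=
  certB0 (fam := false) (s1 := true) (s2 := false) (a := 0) (b := 0) (c := 1) (cn := .up) (n1 := ndB1q0) (n2 := ndB5q1) (pc := pcB0) (cut := Cut.none) (xt := Ext.none) (P1 := 0) (W1 := 536870912) (P2 := 536870912) (W2 := 536870912) (P3 := 740881858) (W3 := 40050571) (N0 := 3) (En := eng) (mo := mog) (C1 := cd1q0) (C2 := cd5q1) (C3 := pd0)
    rfl k0_pm_001

noncomputable def f_pm_011 : ℕ → ℕ → ℕ → ℕ → Bool := onCell 0 536870912 536870912 536870912 740881858 40050571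
    (rowB 3 eng mog cd1q0 cd5q1 pd1 0 false true false .pnn 0 1 1 (qsf 0 536870912 536870912 536870912 1) ndB1q0 ndB5q1 pcB1 Cut.none Ext.none)

def k0_pm_011 : ∃ t, chk3 f_pm_011 t 1 1 1 = true :=
  ⟨(l 4), by decide +kernel⟩

theorem c_pm_011 : CertB 0 536870912 536870912 536870912 740881858 40050571 3 eng mog cd1q0 cd5q1 pd1 false true false .pnn 0 1 1
    ndB1q0 ndB5q1 pcB1 Cut.none Ext.none :=
  certB0 (fam := false) (s1 := true) (s2 := false) (a := 0) (b := 1) (c := 1) (cn := .pnn) (n1 := ndB1q0) (n2 := ndB5q1) (pc := pcB1) (cut := Cut.none) (xt := Ext.none) (P1 := 0) (W1 := 536870912) (P2 := 536870912) (W2 := 536870912) (P3 := 740881858) (W3 := 40050571) (N0 := 3) (En := eng) (mo := mog) (C1 := cd1q0) (C2 := cd5q1) (C3 := pd1)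
    rfl k0_pm_011

noncomputable def f_pm_012 : ℕ → ℕ → ℕ → ℕ → Bool := onCell 0 536870912 1073741824 536870912 740881858 40050571
    (rowB 3 eng mog cd1q0 cd5q2 pd1 0 false true false .pnp 0 1 2 (qsf 0 536870912 1073741824 536870912 1) ndB1q0 ndB5q2 pcB1 Cut.none Ext.none)

def k0_pm_012 : ∃ t, chk3 f_pm_012 t 1 1 1 = true :=
  ⟨(l 4), by decide +kernel⟩

theorem c_pm_012 : CertB 0 536870912 1073741824 536870912 740881858 40050571 3 eng mog cd1q0 cd5q2 pd1 false true false .pnp 0 1 2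
    ndB1q0 ndB5q2 pcB1 Cut.none Ext.none :=
  certB0 (fam := false) (s1 := true) (s2 := false) (a := 0) (b := 1) (c := 2) (cn := .pnp) (n1 := ndB1q0) (n2 := ndB5q2) (pc := pcB1) (cut := Cut.none) (xt := Ext.none) (P1 := 0) (W1 := 536870912) (P2 := 1073741824) (W2 := 536870912) (P3 := 740881858) (W3 := 40050571) (N0 := 3) (En := eng) (mo := mog) (C1 := cd1q0) (C2 := cd5q2) (C3 := pd1)
    rfl k0_pm_012

noncomputable def f_pm_022 : ℕ → ℕ → ℕ → ℕ → Bool := onCell 0 536870912 1073741824 536870912 740881858 40050571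
    (rowB 3 eng mog cd1q0 cd5q2 pd2 0 false true false .pp 0 2 2 (qsf 0 536870912 1073741824 536870912 2) ndB1q0 ndB5q2 pcB2 Cut.none Ext.none)

def k0_pm_022 : ∃ t, chk3 f_pm_022 t 1 1 1 = true :=
  ⟨(l 4), by decide +kernel⟩

theorem c_pm_022 : CertB 0 536870912 1073741824 536870912 740881858 40050571 3 eng mog cd1q0 cd5q2 pd2 false true false .pp 0 2 2
    ndB1q0 ndB5q2 pcB2 Cut.none Ext.none :=
  certB0 (fam := false) (s1 := true) (s2 := false) (a := 0) (b := 2) (c := 2) (cn := .pp) (n1 := ndB1q0) (n2 := ndB5q2) (pc := pcB2) (cut := Cut.none) (xt := Ext.none) (P1 := 0) (W1 := 536870912) (P2 := 1073741824) (W2 := 536870912) (P3 := 740881858) (W3 := 40050571) (N0 := 3) (En := eng) (mo := mog) (C1 := cd1q0) (C2 := cd5q2) (C3 := pd2)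
    rfl k0_pm_022

noncomputable def f_pm_023 : ℕ → ℕ → ℕ → ℕ → Bool := onCell 0 536870912 0 1230186008 740881858 40050571
    (rowB 3 eng mog cd1q0 cd5q3 pd2 0 false true false .up 0 2 3 (qsf 0 536870912 0 1230186008 2) ndB1q0 ndB5q3 pcB2 Cut.none Ext.none)

def k0_pm_023 : ∃ t, chk3 f_pm_023 t 1 1 1 = true :=
  ⟨(b (b (a (l 2) (a (l 2) (a (l 2) (l 16569496)))) (l 4)) (l 4)), by decide +kernel⟩

theorem c_pm_023 : CertB 0 536870912 0 1230186008 740881858 40050571 3 eng mog cd1q0 cd5q3 pd2 false true false .up 0 2 3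
    ndB1q0 ndB5q3 pcB2 Cut.none Ext.none :=
  certB0 (fam := false) (s1 := true) (s2 := false) (a := 0) (b := 2) (c := 3) (cn := .up) (n1 := ndB1q0) (n2 := ndB5q3) (pc := pcB2) (cut := Cut.none) (xt := Ext.none) (P1 := 0) (W1 := 536870912) (P2 := 0) (W2 := 1230186008) (P3 := 740881858) (W3 := 40050571) (N0 := 3) (En := eng) (mo := mog) (C1 := cd1q0) (C2 := cd5q3) (C3 := pd2)
    rfl k0_pm_023

noncomputable def f_pm_033 : ℕ → ℕ → ℕ → ℕ → Bool := onCell 0 536870912 0 1230186008 740881858 40050571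
    (rowB 3 eng mog cd1q0 cd5q3 pd3 0 false true false .pnn 0 3 3 (qsf 0 536870912 0 1230186008 3) ndB1q0 ndB5q3 pcB3 Cut.none Ext.none)

def k0_pm_033 : ∃ t, chk3 f_pm_033 t 1 1 1 = true :=
  ⟨(b (b (a (l 4) (a (a (l 4) (l 4)) (a (l 16540584) (l 16571824)))) (l 4)) (l 4)), by decide +kernel⟩

theorem c_pm_033 : CertB 0 536870912 0 1230186008 740881858 40050571 3 eng mog cd1q0 cd5q3 pd3 false true false .pnn 0 3 3
    ndB1q0 ndB5q3 pcB3 Cut.none Ext.none :=
  certB0 (fam := false) (s1 := true) (s2 := false) (a := 0) (b := 3) (c := 3) (cn := .pnn) (n1 := ndB1q0) (n2 := ndB5q3) (pc := pcB3) (cut := Cut.none) (xt := Ext.none) (P1 := 0) (W1 := 536870912) (P2 := 0) (W2 := 1230186008) (P3 := 740881858) (W3 := 40050571) (N0 := 3) (En := eng) (mo := mog) (C1 := cd1q0) (C2 := cd5q3) (C3 := pd3)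
    rfl k0_pm_033

noncomputable def f_pm_101 : ℕ → ℕ → ℕ → ℕ → Bool := onCell 536870912 536870912 536870912 536870912 740881858 40050571
    (rowB 3 eng mog cd1q1 cd5q1 pd0 0 false true false .npn 1 0 1 (qsf 536870912 536870912 536870912 536870912 0) ndB1q1 ndB5q1 pcB0 Cut.none Ext.none)

def k0_pm_101 : ∃ t, chk3 f_pm_101 t 1 1 1 = true :=
  ⟨(l 4), by decide +kernel⟩

theorem c_pm_101 : CertB 536870912 536870912 536870912 536870912 740881858 40050571 3 eng mog cd1q1 cd5q1 pd0 false true false .npn 1 0 1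
    ndB1q1 ndB5q1 pcB0 Cut.none Ext.none :=
  certB0 (fam := false) (s1 := true) (s2 := false) (a := 1) (b := 0) (c := 1) (cn := .npn) (n1 := ndB1q1) (n2 := ndB5q1) (pc := pcB0) (cut := Cut.none) (xt := Ext.none) (P1 := 536870912) (W1 := 536870912) (P2 := 536870912) (W2 := 536870912) (P3 := 740881858) (W3 := 40050571) (N0 := 3) (En := eng) (mo := mog) (C1 := cd1q1) (C2 := cd5q1) (C3 := pd0)
    rfl k0_pm_101

noncomputable def f_pm_102 : ℕ → ℕ → ℕ → ℕ → Bool := onCell 536870912 536870912 1073741824 536870912 740881858 40050571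
    (rowB 3 eng mog cd1q1 cd5q2 pd0 0 false true false .npp 1 0 2 (qsf 536870912 536870912 1073741824 536870912 0) ndB1q1 ndB5q2 pcB0 Cut.none Ext.none)

def k0_pm_102 : ∃ t, chk3 f_pm_102 t 1 1 1 = true :=
  ⟨(l 4), by decide +kernel⟩

theorem c_pm_102 : CertB 536870912 536870912 1073741824 536870912 740881858 40050571 3 eng mog cd1q1 cd5q2 pd0 false true false .npp 1 0 2
    ndB1q1 ndB5q2 pcB0 Cut.none Ext.none :=
  certB0 (fam := false) (s1 := true) (s2 := false) (a := 1) (b := 0) (c := 2) (cn := .npp) (n1 := ndB1q1) (n2 := ndB5q2) (pc := pcB0) (cut := Cut.none) (xt := Ext.none) (P1 := 536870912) (W1 := 536870912) (P2 := 1073741824) (W2 := 536870912) (P3 := 740881858) (W3 := 40050571) (N0 := 3) (En := eng) (mo := mog) (C1 := cd1q1) (C2 := cd5q2) (C3 := pd0)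
    rfl k0_pm_102

noncomputable def f_pm_112 : ℕ → ℕ → ℕ → ℕ → Bool := onCell 536870912 536870912 1073741824 536870912 740881858 40050571
    (rowB 3 eng mog cd1q1 cd5q2 pd1 0 false true false .dn 1 1 2 (qsf 536870912 536870912 1073741824 536870912 1) ndB1q1 ndB5q2 pcB1 Cut.none Ext.none)

def k0_pm_112 : ∃ t, chk3 f_pm_112 t 1 1 1 = true :=
  ⟨(l 4), by decide +kernel⟩

theorem c_pm_112 : CertB 536870912 536870912 1073741824 536870912 740881858 40050571 3 eng mog cd1q1 cd5q2 pd1 false true false .dn 1 1 2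
    ndB1q1 ndB5q2 pcB1 Cut.none Ext.none :=
  certB0 (fam := false) (s1 := true) (s2 := false) (a := 1) (b := 1) (c := 2) (cn := .dn) (n1 := ndB1q1) (n2 := ndB5q2) (pc := pcB1) (cut := Cut.none) (xt := Ext.none) (P1 := 536870912) (W1 := 536870912) (P2 := 1073741824) (W2 := 536870912) (P3 := 740881858) (W3 := 40050571) (N0 := 3) (En := eng) (mo := mog) (C1 := cd1q1) (C2 := cd5q2) (C3 := pd1)
    rfl k0_pm_112

noncomputable def f_pm_113 : ℕ → ℕ → ℕ → ℕ → Bool := onCell 536870912 536870912 0 1230186008 740881858 40050571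
    (rowB 3 eng mog cd1q1 cd5q3 pd1 0 false true false .nn 1 1 3 (qsf 536870912 536870912 0 1230186008 1) ndB1q1 ndB5q3 pcB1 Cut.none Ext.none)

def k0_pm_113 : ∃ t, chk3 f_pm_113 t 1 1 1 = true :=
  ⟨(b (a (l 2) (a (l 2) (b (a (l 2) (b (a (l 2) (l 16801128)) (l 16698080))) (b (a (l 16474784) (l 16635912)) (l 16571712))))) (b (a (l 4) (a (b (a (l 2) (b (l 16154120) (l 16146976))) (l 4)) (b (a (b (l 16328608) (l 16294656)) (l 16483536)) (a (b (l 16302344) (l 16319352)) (b (l 16435096) (l 16458456)))))) (a (l 4) (a (l 4) (a (l 4) (b (b (l 16469688) (l 4)) (l 4))))))), by decide +kernel⟩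

theorem c_pm_113 : CertB 536870912 536870912 0 1230186008 740881858 40050571 3 eng mog cd1q1 cd5q3 pd1 false true false .nn 1 1 3
    ndB1q1 ndB5q3 pcB1 Cut.none Ext.none :=
  certB0 (fam := false) (s1 := true) (s2 := false) (a := 1) (b := 1) (c := 3) (cn := .nn) (n1 := ndB1q1) (n2 := ndB5q3) (pc := pcB1) (cut := Cut.none) (xt := Ext.none) (P1 := 536870912) (W1 := 536870912) (P2 := 0) (W2 := 1230186008) (P3 := 740881858) (W3 := 40050571) (N0 := 3) (En := eng) (mo := mog) (C1 := cd1q1) (C2 := cd5q3) (C3 := pd1)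
    rfl k0_pm_113

noncomputable def f_pm_123 : ℕ → ℕ → ℕ → ℕ → Bool := onCell 1073741824 536870912 0 1230186008 740881858 40050571
    (rowB 3 eng mog cd1q1 cd5q3 pd2 2 false true false .npn 1 2 3 (qsf 536870912 536870912 0 1230186008 2) ndB1q1 ndB5q3 pcB2 Cut.none Ext.none)

def k0_pm_123 : ∃ t, chk3 f_pm_123 t 1 1 1 = true :=
  ⟨(b (a (a (b (b (a (l 16738952) (l 16556608)) (a (l 16574168) (a (l 16506752) (l 16462576)))) (b (a (l 16494936) (a (l 16412568) (l 16372816))) (a (l 16459976) (b (l 16302360) (l 16240912))))) (b (a (a (a (l 16471400) (l 16623280)) (l 16545000)) (b (l 16519184) (l 16458176))) (a (b (l 16327048) (a (l 16263000) (l 16277488))) (b (l 16382304) (l 16321440))))) (a (b (b (l 16563624) (l 16507632)) (b (a (l 16428496) (l 16471728)) (l 4))) (b (a (l 16581944) (l 16616408)) (a (l 16586248) (l 4))))) (a (b (a (b (a (a (l 16181736) (l 16175176)) (b (l 16198128) (l 4))) (l 4)) (l 4)) (l 4)) (l 4))), by decide +kernel⟩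

theorem c_pm_123 : CertB 536870912 536870912 0 1230186008 740881858 40050571 3 eng mog cd1q1 cd5q3 pd2 false true false .npn 1 2 3
    ndB1q1 ndB5q3 pcB2 Cut.none Ext.none :=
  certB2 (fam := false) (s1 := true) (s2 := false) (a := 1) (b := 2) (c := 3) (cn := .npn) (n1 := ndB1q1) (n2 := ndB5q3) (pc := pcB2) (cut := Cut.none) (xt := Ext.none) (P1 := 536870912) (W1 := 536870912) (P2 := 0) (W2 := 1230186008) (P3 := 740881858) (W3 := 40050571) (N0 := 3) (En := eng) (mo := mog) (C1 := cd1q1) (C2 := cd5q3) (C3 := pd2)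
    rfl (fun _ => rfl) k0_pm_123

noncomputable def f_pm_133 : ℕ → ℕ → ℕ → ℕ → Bool := onCell 536870912 536870912 0 1230186008 740881858 40050571
    (rowB 3 eng mog cd1q1 cd5q3 pd3 0 false true false .dn 1 3 3 (qsf 536870912 536870912 0 1230186008 3) ndB1q1 ndB5q3 pcB3 Cut.none Ext.none)

def k0_pm_133 : ∃ t, chk3 f_pm_133 t 1 1 1 = true :=
  ⟨(b (a (a (b (b (l 129419637847) (l 1)) (l 1)) (l 1)) (l 1)) (l 1)), by decide +kernel⟩

theorem c_pm_133 : CertB 536870912 536870912 0 1230186008 740881858 40050571 3 eng mog cd1q1 cd5q3 pd3 false true false .dn 1 3 3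
    ndB1q1 ndB5q3 pcB3 Cut.none Ext.none :=
  certB0 (fam := false) (s1 := true) (s2 := false) (a := 1) (b := 3) (c := 3) (cn := .dn) (n1 := ndB1q1) (n2 := ndB5q3) (pc := pcB3) (cut := Cut.none) (xt := Ext.none) (P1 := 536870912) (W1 := 536870912) (P2 := 0) (W2 := 1230186008) (P3 := 740881858) (W3 := 40050571) (N0 := 3) (En := eng) (mo := mog) (C1 := cd1q1) (C2 := cd5q3) (C3 := pd3)
    rfl k0_pm_133

noncomputable def f_pm_202_a : ℕ → ℕ → ℕ → ℕ → Bool := onCell 0 536870912 1073741824 536870912 740881858 40050571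
    (rowB 3 eng mog cd1q2a cd5q2 pd0 0 false true false .pp 2 0 2 (qsf 0 536870912 1073741824 536870912 0) ndB1q2a ndB5q2 pcB0 Cut.none Ext.none)

def k0_pm_202_a : ∃ t, chk3 f_pm_202_a t 1 1 1 = true :=
  ⟨(a (b (a (b (l 1) (b (b (l 16068584) (l 16019728)) (b (l 16108936) (a (l 16221096) (l 16157896))))) (b (b (l 1) (a (l 1) (b (l 1) (l 15594768)))) (b (b (a (l 15802472) (l 15711080)) (l 15855568)) (b (l 15950760) (l 16044984))))) (a (b (b (b (a (l 16287312) (l 16238392)) (l 16511936)) (b (l 16385672) (l 16437872))) (b (b (a (l 16648064) (l 16463400)) (a (l 16534336) (l 16506432))) (b (a (l 16562960) (l 16537976)) (l 16575920)))) (b (b (a (l 16206432) (l 16130976)) (b (a (l 16305176) (l 16239360)) (a (l 16362080) (l 16306024)))) (b (b (a (l 16417824) (l 16361000)) (a (l 16466672) (l 16417728))) (b (a (b (l 16497808) (l 16515296)) (l 16462192)) (a (l 16534088) (l 16495624))))))) (b (a (b (b (l 1) (a (b (l 1) (l 15538664)) (l 4))) (b (a (b (l 15627104)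 (l 15712992)) (l 4)) (a (l 15985528) (b (l 15733520) (l 15827376))))) (l 4)) (a (b (b (a (l 16048072) (l 15965720)) (a (l 16201664) (l 16129760))) (b (a (b (l 16305696) (l 16361560)) (l 16272464)) (a (b (l 16407984) (l 16446032)) (l 16377848)))) (b (b (a (b (l 4) (l 15963736)) (l 4)) (a (l 16084872) (b (l 4) (l 16151704)))) (b (a (l 16233840) (b (l 16227048) (l 16300784))) (a (l 16361272) (l 16411672))))))), by decide +kernel⟩

theorem c_pm_202_a : CertB 0 536870912 1073741824 536870912 740881858 40050571 3 eng mog cd1q2a cd5q2 pd0 false true false .pp 2 0 2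
    ndB1q2a ndB5q2 pcB0 Cut.none Ext.none :=
  certB0 (fam := false) (s1 := true) (s2 := false) (a := 2) (b := 0) (c := 2) (cn := .pp) (n1 := ndB1q2a) (n2 := ndB5q2) (pc := pcB0) (cut := Cut.none) (xt := Ext.none) (P1 := 0) (W1 := 536870912) (P2 := 1073741824) (W2 := 536870912) (P3 := 740881858) (W3 := 40050571) (N0 := 3) (En := eng) (mo := mog) (C1 := cd1q2a) (C2 := cd5q2) (C3 := pd0)
    rfl k0_pm_202_a

noncomputable def f_pm_202_b : ℕ → ℕ → ℕ → ℕ → Bool := onCell 0 536870912 1073741824 536870912 740881858 40050571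
    (rowB 3 eng mog cd1q2b cd5q2 pd0 2 false true false .pp 2 0 2 (qsf 1239849684 370763052 1073741824 536870912 0) ndB1q2b ndB5q2 pcB0 Cut.none Ext.none)

def k0_pm_202_b : ∃ t, chk3 f_pm_202_b t 1 1 1 = true :=
  ⟨(a (b (a (b (l 1) (b (a (a (l 391948378631) (l 372084171079)) (l 1)) (a (b (l 16166504) (l 16229608)) (b (l 317323570999) (l 16251400))))) (l 1)) (b (a (b (a (b (l 16274336) (l 16301080)) (l 16480008)) (a (l 16303216) (l 16383976))) (b (a (l 335040659751) (l 1)) (a (l 374768647511) (a (l 16459720) (l 16462176))))) (a (b (l 16280360) (a (l 16076992) (l 16200488))) (b (a (l 16435608) (a (l 16497416) (l 16523968))) (a (l 16348976) (l 16488680)))))) (a (b (l 1) (b (l 1) (a (b (a (l 16599112) (l 16541336)) (a (l 16560328) (l 16581832))) (b (l 1) (l 417718713687))))) (l 1))), by decide +kernel⟩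

theorem c_pm_202_b : CertB 1239849684 370763052 1073741824 536870912 740881858 40050571 3 eng mog cd1q2b cd5q2 pd0 false true false .pp 2 0 2
    ndB1q2b ndB5q2 pcB0 Cut.none Ext.none :=
  certB2 (fam := false) (s1 := true) (s2 := false) (a := 2) (b := 0) (c := 2) (cn := .pp) (n1 := ndB1q2b) (n2 := ndB5q2) (pc := pcB0) (cut := Cut.none) (xt := Ext.none) (P1 := 1239849684) (W1 := 370763052) (P2 := 1073741824) (W2 := 536870912) (P3 := 740881858) (W3 := 40050571) (N0 := 3) (En := eng) (mo := mog) (C1 := cd1q2b) (C2 := cd5q2) (C3 := pd0)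
    rfl (fun _ => rfl) k0_pm_202_b

noncomputable def f_pm_203_a : ℕ → ℕ → ℕ → ℕ → Bool := onCell 0 536870912 0 1230186008 740881858 40050571
    (rowB 3 eng mog cd1q2a cd5q3 pd0 0 false true false .up 2 0 3 (qsf 0 536870912 0 1230186008 0) ndB1q2a ndB5q3 pcB0 Cut.none Ext.none)

def k0_pm_203_a : ∃ t, chk3 f_pm_203_a t 1 1 1 = true :=
  ⟨(b (l 2) (b (l 2) (a (b (b (l 2) (a (a (l 16720904) (l 16705248)) (a (l 16690320) (l 16674736)))) (b (a (b (a (l 16690512) (l 16669776)) (l 16658520)) (l 16617344)) (a (l 16613744) (b (l 16570552) (a (l 16559016) (l 16523176)))))) (b (l 2) (a (b (l 16708288) (b (l 16513480) (a (l 16486040) (l 16454712)))) (b (a (l 16635936) (l 2)) (a (b (l 16530312) (l 16458184)) (b (l 16614144) (l 16534224))))))))), by decide +kernel⟩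

theorem c_pm_203_a : CertB 0 536870912 0 1230186008 740881858 40050571 3 eng mog cd1q2a cd5q3 pd0 false true false .up 2 0 3
    ndB1q2a ndB5q3 pcB0 Cut.none Ext.none :=
  certB0 (fam := false) (s1 := true) (s2 := false) (a := 2) (b := 0) (c := 3) (cn := .up) (n1 := ndB1q2a) (n2 := ndB5q3) (pc := pcB0) (cut := Cut.none) (xt := Ext.none) (P1 := 0) (W1 := 536870912) (P2 := 0) (W2 := 1230186008) (P3 := 740881858) (W3 := 40050571) (N0 := 3) (En := eng) (mo := mog) (C1 := cd1q2a) (C2 := cd5q3) (C3 := pd0)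
    rfl k0_pm_203_a

noncomputable def f_pm_203_b : ℕ → ℕ → ℕ → ℕ → Bool := onCell 0 536870912 0 1230186008 740881858 40050571
    (rowB 3 eng mog cd1q2b cd5q3 pd0 2 false true false .up 2 0 3 (qsf 1239849684 370763052 0 1230186008 0) ndB1q2b ndB5q3 pcB0 Cut.none Ext.none)

def k0_pm_203_b : ∃ t, chk3 f_pm_203_b t 1 1 1 = true :=
  ⟨(b (l 3) (b (b (l 3) (b (l 3) (a (l 3) (a (a (l 3) (a (l 3) (l 16596784))) (a (b (l 3) (l 16613208)) (a (l 16656912) (l 16685864))))))) (a (a (b (l 2) (b (a (l 2) (l 16078328)) (a (l 15943312) (l 16142592)))) (b (a (b (l 16265288) (l 93515583255)) (b (l 16378832) (l 16515128))) (b (a (l 16217928) (l 16365488)) (a (l 16271016) (l 16421064))))) (a (b (a (b (l 16477392) (b (l 16470104) (l 16481312))) (b (b (l 16551968) (l 16559976)) (b (l 16570960) (l 16585280)))) (a (b (a (l 16472864) (l 16529304)) (a (l 16514464) (l 16576800))) (b (l 16597504) (l 16419912)))) (b (a (b (b (l 16623536) (l 16641824)) (b (l 16651928) (l 16656808)))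 (b (b (l 16691184) (l 16694632)) (l 16722104))) (b (a (l 16683696) (l 16686520)) (a (l 393022738327) (l 1)))))))), by decide +kernel⟩

theorem c_pm_203_b : CertB 1239849684 370763052 0 1230186008 740881858 40050571 3 eng mog cd1q2b cd5q3 pd0 false true false .up 2 0 3
    ndB1q2b ndB5q3 pcB0 Cut.none Ext.none :=
  certB2 (fam := false) (s1 := true) (s2 := false) (a := 2) (b := 0) (c := 3) (cn := .up) (n1 := ndB1q2b) (n2 := ndB5q3) (pc := pcB0) (cut := Cut.none) (xt := Ext.none) (P1 := 1239849684) (W1 := 370763052) (P2 := 0) (W2 := 1230186008) (P3 := 740881858) (W3 := 40050571) (N0 := 3) (En := eng) (mo := mog) (C1 := cd1q2b) (C2 := cd5q3) (C3 := pd0)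
    rfl (fun _ => rfl) k0_pm_203_b

noncomputable def cut_pm_213_a : Cut := Cut.of [[⟨0, 1, 0, 67108864⟩, ⟨1, 1, 0, 67108864⟩, ⟨2, 2, 0, 16777216⟩]]

noncomputable def f_pm_213_a : ℕ → ℕ → ℕ → ℕ → Bool := onCell 0 536870912 0 1230186008 740881858 40050571
    (rowB 3 eng mog cd1q2a cd5q3 pd1 0 false true false .pnn 2 1 3 (qsf 0 536870912 0 1230186008 1) ndB1q2a ndB5q3 pcB1 cut_pm_213_a Ext.none)

def k0_pm_213_a : ∃ t, chk3 f_pm_213_a t 1 2 1 = true :=
  ⟨(a (b (l 3) (b (a (l 3) (b (l 3) (a (l 3) (a (l 3) (b (l 3) (a (l 303499818055) (l 285246215415))))))) (a (b (l 3) (a (l 3) (a (l 3) (b (l 3) (l 323364042471))))) (b (a (a (l 3) (b (l 3) (l 292225532935))) (a (b (l 292762424359) (a (l 274508852455) (l 16773320))) (b (a (l 251960278775) (l 16772536)) (l 16765888)))) (a (b (a (l 302962949735) (a (l 274508798487) (l 16772688))) (a (a (l 276656281095) (l 264845156407)) (l 16766752))) (b (a (l 16765488) (l 16758184)) (l 16753784))))))) (b (a (b (l 3)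 (a (l 3) (b (a (l 3) (b (l 3) (a (l 3) (l 354502563447)))) (a (b (l 3) (a (l 351818206823) (l 315311011383))) (b (a (l 342154533367) (b (l 269140093271) (l 16775656))) (a (l 242833454647) (l 16777352))))))) (a (a (b (l 3) (b (b (a (l 3) (b (l 355039437015) (l 271824470151))) (a (b (l 308868539463) (l 241222825399)) (b (l 229948541575) (l 16774824)))) (b (a (l 16774728) (l 16775008)) (l 16777920)))) (b (l 6) (b (b (a (b (l 264845129655) (l 16776848)) (l 6)) (l 16775528)) (l 16777416)))) (b (l 6) (b (a (b (l 6) (l 16770104)) (l 16760432)) (a (l 16773864) (l 16771288)))))) (a (b (a (b (a (b (l 3) (l 339470170471)) (b (l 352891970263) (a (l 305110441447) (l 247665275047)))) (a (b (a (l 305110436055) (l 273435099335)) (a (l 16774912) (l 16770208))) (b (l 16770824) (l 16766744)))) (b (a (b (a (l 291151825687) (l 16775984)) (l 16774304)) (b (l 16781184) (l 16781864))) (a (l 16770808) (l 16778200)))) (b (a (a (l 16763152) (l 16759344)) (l 16767064)) (a (l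 16789176) (l 16761384)))) (b (a (b (a (l 16786480) (l 16791056)) (a (l 16793656) (l 16799408))) (b (a (l 16795768) (l 16801384)) (l 16808376))) (a (l 16786152) (l 16816664)))))), by decide +kernel⟩

def k1_pm_213_a : ∃ t, chk3 f_pm_213_a t 1 3 1 = true :=
  ⟨(b (a (b (a (b (a (b (l 3) (a (l 3) (l 388862293255))) (b (a (l 346986361735) (b (l 298667987367) (l 253570865063))) (a (b (l 303499824871) (l 269676964167)) (l 16770096)))) (a (b (a (l 3) (a (b (l 3) (l 287393700503)) (b (l 286319958231) (l 16776304)))) (a (a (b (l 3) (a (l 330880244631) (l 290078057655))) (b (l 302426086807) (l 249812772439))) (b (l 237464742583) (l 16771216)))) (a (b (b (l 16774384) (l 16769496)) (l 16763264)) (l 16757696)))) (b (a (b (a (l 16768960) (l 16758528)) (l 16755152)) (l 16762304)) (a (l 16740056) (l 16729888)))) (a (b (a (b (a (a (b (a (l 253033995879) (l 16777544)) (l 16774112)) (l 16771736)) (l 16764120)) (l 16758064)) (b (l 16747192) (l 16734032))) (a (b (l 16744896)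 (l 16731016)) (b (l 16726008) (l 16707704)))) (b (a (l 16724880) (l 16702360)) (a (l 16691832) (l 16666640))))) (a (b (b (a (l 16738872) (l 16747824)) (l 16722664)) (b (l 16694352) (a (l 16664224) (l 16670848)))) (b (b (l 16900024) (l 16752872)) (b (l 16716568) (l 16682960))))) (b (a (b (a (a (b (l 16719112) (l 16694064)) (l 16677472)) (a (l 16646552) (l 16638480))) (a (a (l 16650616) (l 16621024)) (a (l 16611320) (l 16599736)))) (a (l 16662000) (b (l 16657336) (l 16621464)))) (a (b (a (l 1) (l 16560264)) (l 1)) (a (b (l 16556224) (l 1)) (b (a (l 16589688) (l 16592072)) (a (l 186863989239) (l 16541776))))))), by decide +kernel⟩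

theorem s2_pm_213_a : ∃ t, chk3 f_pm_213_a t 1 1 1 = true := ex3_b k0_pm_213_a k1_pm_213_a

theorem c_pm_213_a : CertB 0 536870912 0 1230186008 740881858 40050571 3 eng mog cd1q2a cd5q3 pd1 false true false .pnn 2 1 3
    ndB1q2a ndB5q3 pcB1 cut_pm_213_a Ext.none :=
  certB0 (fam := false) (s1 := true) (s2 := false) (a := 2) (b := 1) (c := 3) (cn := .pnn) (n1 := ndB1q2a) (n2 := ndB5q3) (pc := pcB1) (cut := cut_pm_213_a) (xt := Ext.none) (P1 := 0) (W1 := 536870912) (P2 := 0) (W2 := 1230186008) (P3 := 740881858) (W3 := 40050571) (N0 := 3) (En := eng) (mo := mog) (C1 := cd1q2a) (C2 := cd5q3) (C3 := pd1)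
    rfl s2_pm_213_a

noncomputable def cut_pm_213_b : Cut := Cut.of [[⟨0, 1, 0, 67108864⟩, ⟨1, 1, 0, 67108864⟩, ⟨2, 2, 0, 16777216⟩]]

noncomputable def f_pm_213_b : ℕ → ℕ → ℕ → ℕ → Bool := onCell 1239849684 370763052 0 1230186008 740881858 40050571
    (rowB 3 eng mog cd1q2b cd5q3 pd1 0 false true false .pnn 2 1 3 (qsf 1239849684 370763052 0 1230186008 1) ndB1q2b ndB5q3 pcB1 cut_pm_213_b Ext.none)

def k0_pm_213_b : ∃ t, chk3 f_pm_213_b t 1 1 1 = true :=
  ⟨(b (l 3) (b (a (b (a (b (l 3) (a (l 3) (l 3))) (l 3)) (a (b (b (a (a (a (b (b (l 264308261959) (l 16770496)) (l 16772960)) (a (l 304573597159) (l 341617664791))) (l 340543937351)) (l 3)) (a (a (b (l 16773712) (l 16775512)) (l 16758096)) (l 16733264))) (a (b (l 16773000) (l 16764504)) (b (l 16739288) (l 16746296)))) (b (b (l 3) (a (l 298131329111) (l 3))) (a (b (l 16700632) (l 16708384)) (l 1))))) (b (l 3) (l 1))) (a (b (a (b (a (b (l 16747192) (l 16728744)) (b (l 16757200) (l 16750680))) (l 16693424))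 (l 1)) (l 1)) (l 1)))), by decide +kernel⟩

theorem c_pm_213_b : CertB 1239849684 370763052 0 1230186008 740881858 40050571 3 eng mog cd1q2b cd5q3 pd1 false true false .pnn 2 1 3
    ndB1q2b ndB5q3 pcB1 cut_pm_213_b Ext.none :=
  certB0 (fam := false) (s1 := true) (s2 := false) (a := 2) (b := 1) (c := 3) (cn := .pnn) (n1 := ndB1q2b) (n2 := ndB5q3) (pc := pcB1) (cut := cut_pm_213_b) (xt := Ext.none) (P1 := 1239849684) (W1 := 370763052) (P2 := 0) (W2 := 1230186008) (P3 := 740881858) (W3 := 40050571) (N0 := 3) (En := eng) (mo := mog) (C1 := cd1q2b) (C2 := cd5q3) (C3 := pd1)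
    rfl k0_pm_213_b

noncomputable def f_pm_303 : ℕ → ℕ → ℕ → ℕ → Bool := onCell 0 536870912 0 1230186008 740881858 40050571
    (rowB 3 eng mog cd1q3 cd5q3 pd0 2 false true false .npn 3 0 3 (qsf 1610612736 536870912 0 1230186008 0) ndB1q3 ndB5q3 pcB0 Cut.none Ext.none)

def k0_pm_303 : ∃ t, chk3 f_pm_303 t 1 1 1 = true :=
  ⟨(b (l 3) (b (b (l 3) (a (l 3) (a (a (l 3) (b (l 3) (l 1))) (l 1)))) (a (a (b (b (a (l 15986736) (l 16109280)) (a (l 15897344) (l 16129200))) (b (a (l 15908912) (l 16061000)) (a (l 15932328) (l 16156544)))) (b (a (b (l 16234608) (b (l 16196280) (l 16209024))) (b (l 16358992) (l 1))) (b (a (l 16207920) (l 1)) (l 1)))) (l 1)))), by decide +kernel⟩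

theorem c_pm_303 : CertB 1610612736 536870912 0 1230186008 740881858 40050571 3 eng mog cd1q3 cd5q3 pd0 false true false .npn 3 0 3
    ndB1q3 ndB5q3 pcB0 Cut.none Ext.none :=
  certB2 (fam := false) (s1 := true) (s2 := false) (a := 3) (b := 0) (c := 3) (cn := .npn) (n1 := ndB1q3) (n2 := ndB5q3) (pc := pcB0) (cut := Cut.none) (xt := Ext.none) (P1 := 1610612736) (W1 := 536870912) (P2 := 0) (W2 := 1230186008) (P3 := 740881858) (W3 := 40050571) (N0 := 3) (En := eng) (mo := mog) (C1 := cd1q3) (C2 := cd5q3) (C3 := pd0)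
    rfl (fun _ => rfl) k0_pm_303

noncomputable def f_pm_313 : ℕ → ℕ → ℕ → ℕ → Bool := onCell 1610612736 536870912 0 1230186008 740881858 40050571
    (rowB 3 eng mog cd1q3 cd5q3 pd1 0 false true false .dn 3 1 3 (qsf 1610612736 536870912 0 1230186008 1) ndB1q3 ndB5q3 pcB1 Cut.none Ext.none)

def k0_pm_313 : ∃ t, chk3 f_pm_313 t 1 1 1 = true :=
  ⟨(b (l 3) (l 1)), by decide +kernel⟩

theorem c_pm_313 : CertB 1610612736 536870912 0 1230186008 740881858 40050571 3 eng mog cd1q3 cd5q3 pd1 false true false .dn 3 1 3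
    ndB1q3 ndB5q3 pcB1 Cut.none Ext.none :=
  certB0 (fam := false) (s1 := true) (s2 := false) (a := 3) (b := 1) (c := 3) (cn := .dn) (n1 := ndB1q3) (n2 := ndB5q3) (pc := pcB1) (cut := Cut.none) (xt := Ext.none) (P1 := 1610612736) (W1 := 536870912) (P2 := 0) (W2 := 1230186008) (P3 := 740881858) (W3 := 40050571) (N0 := 3) (En := eng) (mo := mog) (C1 := cd1q3) (C2 := cd5q3) (C3 := pd1)
    rfl k0_pm_313

noncomputable def f_mm_001 : ℕ → ℕ → ℕ → ℕ → Bool := onCell 0 536870912 0 536870912 740881858 40050571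
    (rowB 3 eng mog cd1q0 cd5q1 pd0 1 false false false .up 0 0 1 (qsf 0 536870912 536870912 536870912 0) ndB1q0 ndB5q1 pcB0 Cut.none Ext.none)

def k0_mm_001 : ∃ t, chk3 f_mm_001 t 1 1 1 = true :=
  ⟨(l 3), by decide +kernel⟩

theorem c_mm_001 : CertB 0 536870912 536870912 536870912 740881858 40050571 3 eng mog cd1q0 cd5q1 pd0 false false false .up 0 0 1
    ndB1q0 ndB5q1 pcB0 Cut.none Ext.none :=
  certB1 (fam := false) (s1 := false) (s2 := false) (a := 0) (b := 0) (c := 1) (cn := .up) (n1 := ndB1q0) (n2 := ndB5q1) (pc := pcB0) (cut := Cut.none) (xt := Ext.none) (P1 := 0) (W1 := 536870912) (P2 := 536870912) (W2 := 536870912) (P3 := 740881858) (W3 := 40050571) (N0 := 3) (En := eng) (mo := mog) (C1 := cd1q0) (C2 := cd5q1) (C3 := pd0)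
    rfl (fun _ => rfl) k0_mm_001

noncomputable def f_mm_011 : ℕ → ℕ → ℕ → ℕ → Bool := onCell 0 536870912 536870912 536870912 740881858 40050571
    (rowB 3 eng mog cd1q0 cd5q1 pd1 1 false false false .pnn 0 1 1 (qsf 0 536870912 536870912 536870912 1) ndB1q0 ndB5q1 pcB1 Cut.none Ext.none)

def k0_mm_011 : ∃ t, chk3 f_mm_011 t 1 1 1 = true :=
  ⟨(l 5), by decide +kernel⟩

theorem c_mm_011 : CertB 0 536870912 536870912 536870912 740881858 40050571 3 eng mog cd1q0 cd5q1 pd1 false false false .pnn 0 1 1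
    ndB1q0 ndB5q1 pcB1 Cut.none Ext.none :=
  certB1 (fam := false) (s1 := false) (s2 := false) (a := 0) (b := 1) (c := 1) (cn := .pnn) (n1 := ndB1q0) (n2 := ndB5q1) (pc := pcB1) (cut := Cut.none) (xt := Ext.none) (P1 := 0) (W1 := 536870912) (P2 := 536870912) (W2 := 536870912) (P3 := 740881858) (W3 := 40050571) (N0 := 3) (En := eng) (mo := mog) (C1 := cd1q0) (C2 := cd5q1) (C3 := pd1)
    rfl (fun _ => rfl) k0_mm_011

noncomputable def f_mm_012 : ℕ → ℕ → ℕ → ℕ → Bool := onCell 0 536870912 1073741824 536870912 740881858 40050571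
    (rowB 3 eng mog cd1q0 cd5q2 pd1 0 false false false .pnp 0 1 2 (qsf 0 536870912 1073741824 536870912 1) ndB1q0 ndB5q2 pcB1 Cut.none Ext.none)

def k0_mm_012 : ∃ t, chk3 f_mm_012 t 1 1 1 = true :=
  ⟨(l 5), by decide +kernel⟩

theorem c_mm_012 : CertB 0 536870912 1073741824 536870912 740881858 40050571 3 eng mog cd1q0 cd5q2 pd1 false false false .pnp 0 1 2
    ndB1q0 ndB5q2 pcB1 Cut.none Ext.none :=
  certB0 (fam := false) (s1 := false) (s2 := false) (a := 0) (b := 1) (c := 2) (cn := .pnp) (n1 := ndB1q0) (n2 := ndB5q2) (pc := pcB1) (cut := Cut.none) (xt := Ext.none) (P1 := 0) (W1 := 536870912) (P2 := 1073741824) (W2 := 536870912) (P3 := 740881858) (W3 := 40050571) (N0 := 3) (En := eng) (mo := mog) (C1 := cd1q0) (C2 := cd5q2) (C3 := pd1)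
    rfl k0_mm_012

noncomputable def f_mm_022 : ℕ → ℕ → ℕ → ℕ → Bool := onCell 0 536870912 1073741824 536870912 740881858 40050571
    (rowB 3 eng mog cd1q0 cd5q2 pd2 0 false false false .pp 0 2 2 (qsf 0 536870912 1073741824 536870912 2) ndB1q0 ndB5q2 pcB2 Cut.none Ext.none)

def k0_mm_022 : ∃ t, chk3 f_mm_022 t 1 1 1 = true :=
  ⟨(l 5), by decide +kernel⟩

theorem c_mm_022 : CertB 0 536870912 1073741824 536870912 740881858 40050571 3 eng mog cd1q0 cd5q2 pd2 false false false .pp 0 2 2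
    ndB1q0 ndB5q2 pcB2 Cut.none Ext.none :=
  certB0 (fam := false) (s1 := false) (s2 := false) (a := 0) (b := 2) (c := 2) (cn := .pp) (n1 := ndB1q0) (n2 := ndB5q2) (pc := pcB2) (cut := Cut.none) (xt := Ext.none) (P1 := 0) (W1 := 536870912) (P2 := 1073741824) (W2 := 536870912) (P3 := 740881858) (W3 := 40050571) (N0 := 3) (En := eng) (mo := mog) (C1 := cd1q0) (C2 := cd5q2) (C3 := pd2)
    rfl k0_mm_022

noncomputable def f_mm_023 : ℕ → ℕ → ℕ → ℕ → Bool := onCell 0 536870912 0 1230186008 740881858 40050571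
    (rowB 3 eng mog cd1q0 cd5q3 pd2 0 false false false .up 0 2 3 (qsf 0 536870912 0 1230186008 2) ndB1q0 ndB5q3 pcB2 Cut.none Ext.none)

def k0_mm_023 : ∃ t, chk3 f_mm_023 t 1 1 1 = true :=
  ⟨(l 5), by decide +kernel⟩

theorem c_mm_023 : CertB 0 536870912 0 1230186008 740881858 40050571 3 eng mog cd1q0 cd5q3 pd2 false false false .up 0 2 3
    ndB1q0 ndB5q3 pcB2 Cut.none Ext.none :=
  certB0 (fam := false) (s1 := false) (s2 := false) (a := 0) (b := 2) (c := 3) (cn := .up) (n1 := ndB1q0) (n2 := ndB5q3) (pc := pcB2) (cut := Cut.none) (xt := Ext.none) (P1 := 0) (W1 := 536870912) (P2 := 0) (W2 := 1230186008) (P3 := 740881858) (W3 := 40050571) (N0 := 3) (En := eng) (mo := mog) (C1 := cd1q0) (C2 := cd5q3) (C3 := pd2)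
    rfl k0_mm_023

noncomputable def f_mm_033 : ℕ → ℕ → ℕ → ℕ → Bool := onCell 0 536870912 0 1230186008 740881858 40050571
    (rowB 3 eng mog cd1q0 cd5q3 pd3 0 false false false .pnn 0 3 3 (qsf 0 536870912 0 1230186008 3) ndB1q0 ndB5q3 pcB3 Cut.none Ext.none)

def k0_mm_033 : ∃ t, chk3 f_mm_033 t 1 1 1 = true :=
  ⟨(l 5), by decide +kernel⟩

theorem c_mm_033 : CertB 0 536870912 0 1230186008 740881858 40050571 3 eng mog cd1q0 cd5q3 pd3 false false false .pnn 0 3 3
    ndB1q0 ndB5q3 pcB3 Cut.none Ext.none :=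
  certB0 (fam := false) (s1 := false) (s2 := false) (a := 0) (b := 3) (c := 3) (cn := .pnn) (n1 := ndB1q0) (n2 := ndB5q3) (pc := pcB3) (cut := Cut.none) (xt := Ext.none) (P1 := 0) (W1 := 536870912) (P2 := 0) (W2 := 1230186008) (P3 := 740881858) (W3 := 40050571) (N0 := 3) (En := eng) (mo := mog) (C1 := cd1q0) (C2 := cd5q3) (C3 := pd3)
    rfl k0_mm_033

noncomputable def f_mm_101 : ℕ → ℕ → ℕ → ℕ → Bool := onCell 536870912 536870912 0 536870912 740881858 40050571
    (rowB 3 eng mog cd1q1 cd5q1 pd0 1 false false false .npn 1 0 1 (qsf 536870912 536870912 536870912 536870912 0) ndB1q1 ndB5q1 pcB0 Cut.none Ext.none)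

def k0_mm_101 : ∃ t, chk3 f_mm_101 t 1 1 1 = true :=
  ⟨(l 3), by decide +kernel⟩

theorem c_mm_101 : CertB 536870912 536870912 536870912 536870912 740881858 40050571 3 eng mog cd1q1 cd5q1 pd0 false false false .npn 1 0 1
    ndB1q1 ndB5q1 pcB0 Cut.none Ext.none :=
  certB1 (fam := false) (s1 := false) (s2 := false) (a := 1) (b := 0) (c := 1) (cn := .npn) (n1 := ndB1q1) (n2 := ndB5q1) (pc := pcB0) (cut := Cut.none) (xt := Ext.none) (P1 := 536870912) (W1 := 536870912) (P2 := 536870912) (W2 := 536870912) (P3 := 740881858) (W3 := 40050571) (N0 := 3) (En := eng) (mo := mog) (C1 := cd1q1) (C2 := cd5q1) (C3 := pd0)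
    rfl (fun _ => rfl) k0_mm_101

noncomputable def f_mm_102 : ℕ → ℕ → ℕ → ℕ → Bool := onCell 536870912 536870912 1073741824 536870912 740881858 40050571
    (rowB 3 eng mog cd1q1 cd5q2 pd0 0 false false false .npp 1 0 2 (qsf 536870912 536870912 1073741824 536870912 0) ndB1q1 ndB5q2 pcB0 Cut.none Ext.none)

def k0_mm_102 : ∃ t, chk3 f_mm_102 t 1 1 1 = true :=
  ⟨(l 3), by decide +kernel⟩

theorem c_mm_102 : CertB 536870912 536870912 1073741824 536870912 740881858 40050571 3 eng mog cd1q1 cd5q2 pd0 false false false .npp 1 0 2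
    ndB1q1 ndB5q2 pcB0 Cut.none Ext.none :=
  certB0 (fam := false) (s1 := false) (s2 := false) (a := 1) (b := 0) (c := 2) (cn := .npp) (n1 := ndB1q1) (n2 := ndB5q2) (pc := pcB0) (cut := Cut.none) (xt := Ext.none) (P1 := 536870912) (W1 := 536870912) (P2 := 1073741824) (W2 := 536870912) (P3 := 740881858) (W3 := 40050571) (N0 := 3) (En := eng) (mo := mog) (C1 := cd1q1) (C2 := cd5q2) (C3 := pd0)
    rfl k0_mm_102

noncomputable def f_mm_112 : ℕ → ℕ → ℕ → ℕ → Bool := onCell 536870912 536870912 1073741824 536870912 740881858 40050571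
    (rowB 3 eng mog cd1q1 cd5q2 pd1 0 false false false .dn 1 1 2 (qsf 536870912 536870912 1073741824 536870912 1) ndB1q1 ndB5q2 pcB1 Cut.none Ext.none)

def k0_mm_112 : ∃ t, chk3 f_mm_112 t 1 1 1 = true :=
  ⟨(l 3), by decide +kernel⟩

theorem c_mm_112 : CertB 536870912 536870912 1073741824 536870912 740881858 40050571 3 eng mog cd1q1 cd5q2 pd1 false false false .dn 1 1 2
    ndB1q1 ndB5q2 pcB1 Cut.none Ext.none :=
  certB0 (fam := false) (s1 := false) (s2 := false) (a := 1) (b := 1) (c := 2) (cn := .dn) (n1 := ndB1q1) (n2 := ndB5q2) (pc := pcB1) (cut := Cut.none) (xt := Ext.none) (P1 := 536870912) (W1 := 536870912) (P2 := 1073741824) (W2 := 536870912) (P3 := 740881858) (W3 := 40050571) (N0 := 3) (En := eng) (mo := mog) (C1 := cd1q1) (C2 := cd5q2) (C3 := pd1)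
    rfl k0_mm_112

noncomputable def f_mm_113 : ℕ → ℕ → ℕ → ℕ → Bool := onCell 536870912 536870912 0 1230186008 740881858 40050571
    (rowB 3 eng mog cd1q1 cd5q3 pd1 0 false false false .nn 1 1 3 (qsf 536870912 536870912 0 1230186008 1) ndB1q1 ndB5q3 pcB1 Cut.none Ext.none)

def k0_mm_113 : ∃ t, chk3 f_mm_113 t 1 1 1 = true :=
  ⟨(b (l 5) (b (l 5) (a (l 5) (l 3)))), by decide +kernel⟩

theorem c_mm_113 : CertB 536870912 536870912 0 1230186008 740881858 40050571 3 eng mog cd1q1 cd5q3 pd1 false false false .nn 1 1 3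
    ndB1q1 ndB5q3 pcB1 Cut.none Ext.none :=
  certB0 (fam := false) (s1 := false) (s2 := false) (a := 1) (b := 1) (c := 3) (cn := .nn) (n1 := ndB1q1) (n2 := ndB5q3) (pc := pcB1) (cut := Cut.none) (xt := Ext.none) (P1 := 536870912) (W1 := 536870912) (P2 := 0) (W2 := 1230186008) (P3 := 740881858) (W3 := 40050571) (N0 := 3) (En := eng) (mo := mog) (C1 := cd1q1) (C2 := cd5q3) (C3 := pd1)
    rfl k0_mm_113

noncomputable def f_mm_123 : ℕ → ℕ → ℕ → ℕ → Bool := onCell 1073741824 536870912 0 1230186008 740881858 40050571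
    (rowB 3 eng mog cd1q1 cd5q3 pd2 2 false false false .npn 1 2 3 (qsf 536870912 536870912 0 1230186008 2) ndB1q1 ndB5q3 pcB2 Cut.none Ext.none)

def k0_mm_123 : ∃ t, chk3 f_mm_123 t 1 1 1 = true :=
  ⟨(b (l 5) (l 5)), by decide +kernel⟩

theorem c_mm_123 : CertB 536870912 536870912 0 1230186008 740881858 40050571 3 eng mog cd1q1 cd5q3 pd2 false false false .npn 1 2 3
    ndB1q1 ndB5q3 pcB2 Cut.none Ext.none :=
  certB2 (fam := false) (s1 := false) (s2 := false) (a := 1) (b := 2) (c := 3) (cn := .npn) (n1 := ndB1q1) (n2 := ndB5q3) (pc := pcB2) (cut := Cut.none) (xt := Ext.none) (P1 := 536870912) (W1 := 536870912) (P2 := 0) (W2 := 1230186008) (P3 := 740881858) (W3 := 40050571) (N0 := 3) (En := eng) (mo := mog) (C1 := cd1q1) (C2 := cd5q3) (C3 := pd2)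
    rfl (fun _ => rfl) k0_mm_123

noncomputable def f_mm_133 : ℕ → ℕ → ℕ → ℕ → Bool := onCell 536870912 536870912 0 1230186008 740881858 40050571
    (rowB 3 eng mog cd1q1 cd5q3 pd3 0 false false false .dn 1 3 3 (qsf 536870912 536870912 0 1230186008 3) ndB1q1 ndB5q3 pcB3 Cut.none Ext.none)

def k0_mm_133 : ∃ t, chk3 f_mm_133 t 1 1 1 = true :=
  ⟨(b (l 5) (l 1)), by decide +kernel⟩

theorem c_mm_133 : CertB 536870912 536870912 0 1230186008 740881858 40050571 3 eng mog cd1q1 cd5q3 pd3 false false false .dn 1 3 3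
    ndB1q1 ndB5q3 pcB3 Cut.none Ext.none :=
  certB0 (fam := false) (s1 := false) (s2 := false) (a := 1) (b := 3) (c := 3) (cn := .dn) (n1 := ndB1q1) (n2 := ndB5q3) (pc := pcB3) (cut := Cut.none) (xt := Ext.none) (P1 := 536870912) (W1 := 536870912) (P2 := 0) (W2 := 1230186008) (P3 := 740881858) (W3 := 40050571) (N0 := 3) (En := eng) (mo := mog) (C1 := cd1q1) (C2 := cd5q3) (C3 := pd3)
    rfl k0_mm_133

noncomputable def cut_mm_202_a : Cut := Cut.of [[⟨0, 1, 0, 67108864⟩, ⟨1, 0, 0, 67108864⟩, ⟨2, 1, 0, 67108864⟩]]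

noncomputable def f_mm_202_a : ℕ → ℕ → ℕ → ℕ → Bool := onCell 0 536870912 0 536870912 740881858 40050571
    (rowB 3 eng mog cd1q2a cd5q2 pd0 1 false false false .pp 2 0 2 (qsf 0 536870912 1073741824 536870912 0) ndB1q2a ndB5q2 pcB0 cut_mm_202_a Ext.none)

def k0_mm_202_a : ∃ t, chk3 f_mm_202_a t 2 2 1 = true :=
  ⟨(b (b (a (b (l 16322064) (a (l 16367272) (l 16531328))) (b (a (b (l 16370496) (l 16401824)) (b (l 16504144) (l 16445000))) (a (l 16500344) (l 16479736)))) (a (b (a (l 16512936) (l 16455504)) (l 16487784)) (b (c (l 16509384) (l 16502320)) (a (l 16531736) (b (l 16558360) (a (l 16569416) (l 16590920))))))) (b (a (b (l 16527248) (a (l 16549408) (l 16615400))) (a (b (b (l 16561248) (l 16642688)) (a (b (l 16587512) (l 16603752)) (l 16612920))) (b (a (a (l 16593248) (l 16603280)) (b (l 16610560) (l 16629328))) (b (a (l 16624344) (l 16646640)) (a (l 16640512) (l 16662848)))))) (a (b (a (l 16582544) (b (l 16598056) (l 16593280))) (a (b (l 16606496)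 (l 16622088)) (a (l 16631032) (l 16643568)))) (b (a (b (l 16628224) (a (l 16635392) (l 16652208))) (a (b (l 16656288) (l 16671928)) (b (l 16678608) (l 16694120)))) (a (a (l 16657744) (b (l 16667552) (l 16682320))) (a (b (l 16686968) (l 16701656)) (b (a (l 16703304) (l 177871962567)) (a (l 182166927559) (b (l 191830610615) (l 234243400503)))))))))), by decide +kernel⟩

def k1_mm_202_a : ∃ t, chk3 f_mm_202_a t 2 3 1 = true :=
  ⟨(b (b (a (b (a (l 16643744) (a (l 16659464) (l 16671488))) (a (b (l 16663576) (l 16675864)) (a (l 16685216) (b (l 16691864) (l 16704264))))) (a (b (b (a (l 16679704) (l 16696352)) (a (l 16693056) (l 16709960))) (a (b (l 16706280) (l 16718720)) (b (a (l 16718512) (l 206863008727)) (a (l 205252408503) (l 268066284791))))) (b (a (b (b (l 16712008) (l 156934030647)) (a (l 183777551127) (b (l 231022188487) (l 235317153367)))) (b (a (b (l 203641769607) (l 233706534167)) (l 3)) (l 3))) (a (b (a (l 257865731239) (l 3)) (l 3)) (l 3)))))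 (a (b (a (b (l 16687576) (l 16741624)) (b (l 16710064) (a (l 16714992) (l 16742160)))) (a (a (l 16774872) (l 16720728)) (a (l 339403018055) (b (a (l 16732440) (b (l 16746136) (l 268066282743))) (l 2))))) (a (b (a (b (b (l 16748240) (l 242833371255)) (a (b (l 16733440) (l 264845053431)) (b (l 282561800711) (l 3)))) (b (b (l 274508744983) (l 3)) (l 3))) (a (b (b (l 269140041767) (l 3)) (l 3)) (l 3))) (l 3)))) (a (l 2) (l 3))), by decide +kernel⟩

def k2_mm_202_a : ∃ t, chk3 f_mm_202_a t 6 4 1 = true :=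
  ⟨(b (a (b (b (l 16477312) (l 16500288)) (a (l 16517072) (l 16526824))) (b (b (a (l 16530640) (l 16573000)) (a (l 16553520) (l 16596216))) (b (a (l 16574592) (l 16617200)) (a (l 16594600) (b (a (l 16620736) (l 16644000)) (a (l 16630800) (l 16652144))))))) (a (b (a (l 16539712) (b (l 16578840) (b (l 16594912) (l 16604704)))) (a (b (b (l 16587960) (l 16598432)) (l 16614568)) (b (l 16662728) (b (l 16637424) (l 16585856))))) (b (a (b (b (a (l 16599944) (l 16619520)) (a (l 16610184) (l 16628384))) (a (l 16624440) (l 16643184))) (b (b (a (l 16639256) (l 16661400)) (a (l 16648816) (l 16670728))) (a (b (l 16658288) (a (l 16663088) (l 16673424))) (b (a (l 16674616) (l 16685496)) (a (l 16683976) (l 16695648)))))) (a (b (b (l 16712568) (a (l 16650936) (a (l 16664384) (l 16673584)))) (a (l 16682976) (l 16685480))) (b (a (b (a (l 16673024) (l 16683616)) (l 16688960)) (b (a (l 16694552) (l 16705920)) (l 16731584))) (a (c (l 16728544) (l 16725984)) (b (a (l 16715472)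 (l 16747512)) (a (l 16746720) (b (l 16744368) (l 135996066295)))))))))), by decide +kernel⟩

def k3_mm_202_a : ∃ t, chk3 f_mm_202_a t 7 8 1 = true :=
  ⟨(a (b (b (a (a (l 16608512) (l 16631872)) (a (l 16658680) (a (l 16670256) (l 6)))) (a (l 16643632) (b (a (l 16671616) (l 16694344)) (a (l 16706160) (b (a (l 16697128) (l 16708816)) (a (l 16702456) (l 16713336))))))) (a (b (b (a (l 16648096) (l 16705808)) (a (l 16692400) (a (l 16655304) (l 16686232)))) (a (b (l 16646056) (l 16676072)) (b (l 16690176) (l 16712392)))) (b (a (b (b (l 16670048) (l 16695152)) (l 16660216)) (b (a (l 16709296) (b (l 16717944) (l 16722712))) (a (l 16718584) (b (l 16705904) (l 16731600))))) (a (a (b (l 16685160) (b (l 16712208) (l 16716952))) (b (l 16716336) (b (l 16723256) (l 16727904)))) (b (b (l 16744864) (l 16751056)) (a (l 16747216) (b (l 16756224) (a (l 16747648) (l 123111173335))))))))) (b (a (b (l 6) (a (b (l 6) (a (b (l 16719664) (l 16724488)) (b (l 6) (l 16735912))))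 (l 6))) (l 6)) (a (b (a (b (a (b (l 16708312) (a (l 16730736) (l 16736392))) (a (b (l 16716376) (l 16742168)) (l 16753440))) (a (c (l 16761520) (l 16761648)) (b (l 16758960) (b (l 93583280119) (a (l 16747600) (l 109689408439)))))) (b (a (b (a (l 16738544) (l 6)) (a (l 16764256) (b (l 16763688) (l 90898931959)))) (b (l 6) (b (l 6) (l 3)))) (a (b (a (b (l 16762576) (l 98951993015)) (b (l 119353091063) (l 3))) (a (b (l 131701118871) (l 3)) (l 3))) (l 3)))) (a (b (a (b (l 16756888) (a (l 16749600) (l 110226276615))) (b (a (b (l 16760400) (l 122574307367)) (l 226727264759)) (a (l 232632842535) (l 3)))) (a (b (a (l 116131854039) (l 3)) (l 3)) (l 3))) (l 3))) (l 3)))), by decide +kernel⟩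

def k4_mm_202_a : ∃ t, chk3 f_mm_202_a t 7 9 1 = true :=
  ⟨(a (b (a (b (a (a (b (l 16678784) (l 16688032)) (b (l 16691304) (l 16678920))) (b (a (b (l 16700400) (l 16704704)) (l 16713104)) (l 16738184))) (a (b (l 16703656) (l 16734648)) (b (a (l 16721696) (l 16753256)) (a (l 16747416) (b (l 16750112) (l 171429546823)))))) (b (a (b (b (l 16727056) (l 16747496)) (a (l 16754336) (b (l 16752536) (b (l 134922322663) (l 159081516087))))) (b (a (b (l 16754336) (a (l 16745768) (l 140291037175))) (b (a (l 131164234327) (l 3)) (l 3))) (a (b (l 224042892535) (l 3)) (l 3)))) (a (b (a (b (l 16751072) (l 148344098551)) (b (l 257328885463) (l 3))) (a (b (l 265381946439) (l 3)) (l 3))) (l 3)))) (a (b (a (b (a (l 16717744) (l 16750992)) (a (l 16748936) (a (l 152102187575) (l 184851323815)))) (b (a (b (l 148880965335) (a (l 173577024391) (l 264845068839))) (l 260550110103)) (l 3))) (a (b (a (b (l 16747776) (l 167134573015)) (l 3)) (l 3)) (l 3))) (l 3))) (l 3)), by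 decide +kernel⟩

def k5_mm_202_a : ∃ t, chk3 f_mm_202_a t 3 5 1 = true :=
  ⟨(a (b (a (b (a (b (l 16635264) (l 16654240)) (b (a (l 16656240) (l 16671528)) (a (l 16674912) (l 16690952)))) (a (b (l 16692496) (l 16688088)) (b (a (l 16692800) (l 16737528)) (a (l 16738280) (b (l 169282033655) (l 145659731623)))))) (b (a (b (b (l 16723840) (a (l 16693608) (l 16711584))) (a (b (l 16703200) (l 16712376)) (b (l 133311688487) (a (l 16735952) (l 144049117655))))) (b (a (b (b (l 16739064) (l 16744128)) (a (l 16741464) (b (l 16743328) (l 142975376375)))) (b (a (b (l 16744864) (l 154786535511)) (l 3)) (l 3))) (a (b (a (l 147807217367) (l 3)) (l 3)) (l 3)))) (a (b (a (b (l 162839583815) (a (l 16736688) (l 118279310567))) (b (a (l 117205570199) (l 3)) (l 3))) (a (b (l 217063540903) (l 3)) (l 3))) (l 3)))) (a (b (a (b (a (l 16697184) (l 16736864)) (a (b (l 16708848) (l 16716496)) (b (l 196662453415) (l 164987083127)))) (b (a (b (l 166597682519) (l 211694815367)) (b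 (l 218674153335) (l 3))) (l 3))) (a (b (a (b (l 186461904423) (l 227264075479)) (l 3)) (l 3)) (l 3))) (l 3))) (l 3)), by decide +kernel⟩

def k6_mm_202_a : ∃ t, chk3 f_mm_202_a t 3 3 1 = true :=
  ⟨(l 3), by decide +kernel⟩

theorem s7_mm_202_a : ∃ t, chk3 f_mm_202_a t 7 4 1 = true := ex3_b k3_mm_202_a k4_mm_202_a

theorem s8_mm_202_a : ∃ t, chk3 f_mm_202_a t 3 4 1 = true := ex3_a k2_mm_202_a s7_mm_202_a

theorem s9_mm_202_a : ∃ t, chk3 f_mm_202_a t 3 2 1 = true := ex3_b s8_mm_202_a k5_mm_202_a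

theorem s10_mm_202_a : ∃ t, chk3 f_mm_202_a t 3 1 1 = true := ex3_b s9_mm_202_a k6_mm_202_a

theorem s11_mm_202_a : ∃ t, chk3 f_mm_202_a t 2 1 1 = true := ex3_b k0_mm_202_a k1_mm_202_a

theorem s12_mm_202_a : ∃ t, chk3 f_mm_202_a t 1 1 1 = true := ex3_a s11_mm_202_a s10_mm_202_a

theorem c_mm_202_a : CertB 0 536870912 1073741824 536870912 740881858 40050571 3 eng mog cd1q2a cd5q2 pd0 false false false .pp 2 0 2
    ndB1q2a ndB5q2 pcB0 cut_mm_202_a Ext.none :=
  certB1 (fam := false) (s1 := false) (s2 := false) (a := 2) (b := 0) (c := 2) (cn := .pp) (n1 := ndB1q2a) (n2 := ndB5q2) (pc := pcB0) (cut := cut_mm_202_a) (xt := Ext.none) (P1 := 0) (W1 := 536870912) (P2 := 1073741824) (W2 := 536870912) (P3 := 740881858) (W3 := 40050571) (N0 := 3) (En := eng) (mo := mog) (C1 := cd1q2a) (C2 := cd5q2) (C3 := pd0)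
    rfl (fun _ => rfl) s12_mm_202_a

noncomputable def cut_mm_202_b : Cut := Cut.of [[⟨0, 1, 0, 67108864⟩, ⟨1, 0, 0, 67108864⟩, ⟨2, 1, 0, 67108864⟩]]

noncomputable def f_mm_202_b : ℕ → ℕ → ℕ → ℕ → Bool := onCell 0 536870912 1073741824 536870912 740881858 40050571
    (rowB 3 eng mog cd1q2b cd5q2 pd0 2 false false false .pp 2 0 2 (qsf 1239849684 370763052 1073741824 536870912 0) ndB1q2b ndB5q2 pcB0 cut_mm_202_b Ext.none)

def k0_mm_202_b : ∃ t, chk3 f_mm_202_b t 1 1 1 = true :=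
  ⟨(a (b (a (b (l 1) (a (b (a (l 360273353527) (l 385506337815)) (b (l 16318520) (l 16321128))) (b (l 1) (b (l 338261887911) (a (l 16411392) (l 16467944)))))) (l 1)) (a (b (a (b (l 16295928) (l 16221864)) (b (b (l 265247033207) (l 16410768)) (l 16351864))) (a (b (l 16068160) (b (l 15973624) (l 15924424))) (b (l 16228312) (l 16154632)))) (b (a (b (l 442414592375) (l 143914502839)) (b (l 1) (a (l 302828333031) (l 477848243767)))) (b (a (l 16401208) (b (a (l 16541000) (l 16602280)) (a (l 16495592) (l 16570080)))) (a (b (l 16311368) (l 16273552)) (b (l 16486200) (l 16437768))))))) (b (l 1) (a (b (l 1) (b (a (a (b (l 338262128343) (l 16631568)) (l 513281853879)) (l 1)) (a (b (l 16630088) (l 16588992)) (b (l 532072468279) (l 414497489735))))) (l 1)))), by decide +kernel⟩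

theorem c_mm_202_b : CertB 1239849684 370763052 1073741824 536870912 740881858 40050571 3 eng mog cd1q2b cd5q2 pd0 false false false .pp 2 0 2
    ndB1q2b ndB5q2 pcB0 cut_mm_202_b Ext.none :=
  certB2 (fam := false) (s1 := false) (s2 := false) (a := 2) (b := 0) (c := 2) (cn := .pp) (n1 := ndB1q2b) (n2 := ndB5q2) (pc := pcB0) (cut := cut_mm_202_b) (xt := Ext.none) (P1 := 1239849684) (W1 := 370763052) (P2 := 1073741824) (W2 := 536870912) (P3 := 740881858) (W3 := 40050571) (N0 := 3) (En := eng) (mo := mog) (C1 := cd1q2b) (C2 := cd5q2) (C3 := pd0)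
    rfl (fun _ => rfl) k0_mm_202_b

noncomputable def f_mm_203_a : ℕ → ℕ → ℕ → ℕ → Bool := onCell 0 536870912 0 1230186008 740881858 40050571
    (rowB 3 eng mog cd1q2a cd5q3 pd0 0 false false false .up 2 0 3 (qsf 0 536870912 0 1230186008 0) ndB1q2a ndB5q3 pcB0 Cut.none Ext.none)

def k0_mm_203_a : ∃ t, chk3 f_mm_203_a t 1 1 1 = true :=
  ⟨(b (l 2) (b (l 2) (b (a (l 3) (l 2)) (a (b (a (a (b (a (b (a (b (l 3) (b (l 293836142375) (l 290614890951))) (l 3)) (a (b (a (l 16759880) (l 289004294183)) (l 16768616)) (b (l 3) (l 291151777863)))) (l 3)) (a (b (a (l 16754480) (b (a (l 16755624) (l 297594220583)) (l 16753816))) (l 16748936)) (b (a (b (l 3) (l 297594220999)) (l 3)) (a (b (a (l 16751600) (l 296520470663)) (l 16749648)) (b (l 3) (l 297594213303)))))) (l 3)) (l 3)) (a (b (a (a (b (l 16740928) (l 16731416)) (b (a (l 16745176) (b (l 263234461991) (l 16745608))) (l 16738904))) (a (b (a (b (l 3) (l 293836109383)) (l 3)) (a (b (l 264308196855) (l 16741656))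 (b (l 3) (l 290614876599)))) (l 3))) (a (b (a (l 16720808) (l 16729416)) (a (l 16708424) (l 16718264))) (a (b (a (l 16735856) (b (l 264845087975) (l 16737984))) (l 16728840)) (b (a (b (l 285783045495) (l 277193096919)) (l 3)) (a (b (l 253570794999) (l 16734584)) (b (l 275045621335) (l 271824382135))))))) (l 3))) (l 3))))), by decide +kernel⟩

theorem c_mm_203_a : CertB 0 536870912 0 1230186008 740881858 40050571 3 eng mog cd1q2a cd5q3 pd0 false false false .up 2 0 3
    ndB1q2a ndB5q3 pcB0 Cut.none Ext.none :=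
  certB0 (fam := false) (s1 := false) (s2 := false) (a := 2) (b := 0) (c := 3) (cn := .up) (n1 := ndB1q2a) (n2 := ndB5q3) (pc := pcB0) (cut := Cut.none) (xt := Ext.none) (P1 := 0) (W1 := 536870912) (P2 := 0) (W2 := 1230186008) (P3 := 740881858) (W3 := 40050571) (N0 := 3) (En := eng) (mo := mog) (C1 := cd1q2a) (C2 := cd5q3) (C3 := pd0)
    rfl k0_mm_203_a

end Pool.Agent.Strip051.G.I69_7273.Tab.C.BB15

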