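import Pool.Agent.Strip051.G.I69_7273.Tab
import Pool.Agent.Strip051.PB.ExtD2

/-! # Certificates B21 (generated) -/

set_option linter.all false
set_option maxRecDepth 100000

namespace Pool.Agent.Strip051.G.I69_7273.Tab.C.BB15

open Pool.Agent.Strip051.PB Pool.Agent.Strip051.PB.T
open Pool.Agent.Strip051.G.I69_7273.Tab

noncomputable def f_mm_203_b : ℕ → ℕ → ℕ → ℕ → Bool := onCell 1239849684 370763052 0 1230186008 740881858 40050571
    (rowB 3 eng mog cd1q2b cd5q3 pd0 0 false false false .up 2 0 3 (qsf 1239849684 370763052 0 1230186008 0) ndB1q2b ndB5q3 pcB0 Cut.none Ext.none)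

def k0_mm_203_b : ∃ t, chk3 f_mm_203_b t 1 1 1 = true :=
  ⟨(b (l 3) (b (l 3) (a (b (b (l 3) (l 3)) (a (b (a (b (b (b (l 3) (a (a (b (a (l 16760312) (l 16751744)) (l 16753640)) (l 16758552)) (l 3))) (a (b (l 16762432) (l 16735496)) (l 16703344))) (b (a (l 16732104) (l 16693008)) (l 16724992))) (b (a (l 251960048231) (l 3)) (b (a (l 16655072) (l 16616256)) (l 16709744)))) (b (a (b (l 16698712) (l 16690568)) (b (l 16612832) (l 16598640))) (a (b (l 16680256) (l 16666936)) (b (l 16583368) (l 16567464))))) (b (b (l 3) (a (b (l 16559416) (l 16543336)) (l 217063098263))) (b (a (l 16560328) (l 16503488)) (a (l 16522600) (b (l 16385592) (l 16362392))))))) (b (l 3) (a (b (b (l 3) (b (l 3) (a (l 16351072) (l 3)))) (a (b (b (l 16322976) (l 16297112)) (b (l 16271432) (l 16245632))) (b (b (l 16205768) (l 16177696)) (b (a (l 16180400) (l 16119416)) (l 16154648))))) (b (l 3) (b (a (b (l 16086072) (l 16067416)) (l 16030632)) (a (b (l 16025768) (l 16002952)) (l 15898400))))))))),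 by decide +kernel⟩

theorem c_mm_203_b : CertB 1239849684 370763052 0 1230186008 740881858 40050571 3 eng mog cd1q2b cd5q3 pd0 false false false .up 2 0 3
    ndB1q2b ndB5q3 pcB0 Cut.none Ext.none :=
  certB0 (fam := false) (s1 := false) (s2 := false) (a := 2) (b := 0) (c := 3) (cn := .up) (n1 := ndB1q2b) (n2 := ndB5q3) (pc := pcB0) (cut := Cut.none) (xt := Ext.none) (P1 := 1239849684) (W1 := 370763052) (P2 := 0) (W2 := 1230186008) (P3 := 740881858) (W3 := 40050571) (N0 := 3) (En := eng) (mo := mog) (C1 := cd1q2b) (C2 := cd5q3) (C3 := pd0)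
    rfl k0_mm_203_b

noncomputable def f_mm_213_a : ℕ → ℕ → ℕ → ℕ → Bool := onCell 0 536870912 0 1230186008 740881858 40050571
    (rowB 3 eng mog cd1q2a cd5q3 pd1 0 false false false .pnn 2 1 3 (qsf 0 536870912 0 1230186008 1) ndB1q2a ndB5q3 pcB1 Cut.none Ext.none)

def k0_mm_213_a : ∃ t, chk3 f_mm_213_a t 1 1 1 = true :=
  ⟨(a (b (l 3) (b (l 3) (b (l 3) (a (l 1) (l 3))))) (b (b (l 5) (l 3)) (l 3))), by decide +kernel⟩

theorem c_mm_213_a : CertB 0 536870912 0 1230186008 740881858 40050571 3 eng mog cd1q2a cd5q3 pd1 false false false .pnn 2 1 3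
    ndB1q2a ndB5q3 pcB1 Cut.none Ext.none :=
  certB0 (fam := false) (s1 := false) (s2 := false) (a := 2) (b := 1) (c := 3) (cn := .pnn) (n1 := ndB1q2a) (n2 := ndB5q3) (pc := pcB1) (cut := Cut.none) (xt := Ext.none) (P1 := 0) (W1 := 536870912) (P2 := 0) (W2 := 1230186008) (P3 := 740881858) (W3 := 40050571) (N0 := 3) (En := eng) (mo := mog) (C1 := cd1q2a) (C2 := cd5q3) (C3 := pd1)
    rfl k0_mm_213_a

noncomputable def f_mm_213_b : ℕ → ℕ → ℕ → ℕ → Bool := onCell 1239849684 370763052 0 1230186008 740881858 40050571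
    (rowB 3 eng mog cd1q2b cd5q3 pd1 0 false false false .pnn 2 1 3 (qsf 1239849684 370763052 0 1230186008 1) ndB1q2b ndB5q3 pcB1 Cut.none Ext.none)

def k0_mm_213_b : ∃ t, chk3 f_mm_213_b t 1 1 1 = true :=
  ⟨(b (l 3) (b (l 3) (a (b (b (l 3) (l 3)) (l 1)) (l 1)))), by decide +kernel⟩

theorem c_mm_213_b : CertB 1239849684 370763052 0 1230186008 740881858 40050571 3 eng mog cd1q2b cd5q3 pd1 false false false .pnn 2 1 3
    ndB1q2b ndB5q3 pcB1 Cut.none Ext.none :=
  certB0 (fam := false) (s1 := false) (s2 := false) (a := 2) (b := 1) (c := 3) (cn := .pnn) (n1 := ndB1q2b) (n2 := ndB5q3) (pc := pcB1) (cut := Cut.none) (xt := Ext.none) (P1 := 1239849684) (W1 := 370763052) (P2 := 0) (W2 := 1230186008) (P3 := 740881858) (W3 := 40050571) (N0 := 3) (En := eng) (mo := mog) (C1 := cd1q2b) (C2 := cd5q3) (C3 := pd1)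
    rfl k0_mm_213_b

noncomputable def f_mm_303 : ℕ → ℕ → ℕ → ℕ → Bool := onCell 0 536870912 0 1230186008 740881858 40050571
    (rowB 3 eng mog cd1q3 cd5q3 pd0 2 false false false .npn 3 0 3 (qsf 1610612736 536870912 0 1230186008 0) ndB1q3 ndB5q3 pcB0 Cut.none Ext.none)

def k0_mm_303 : ∃ t, chk3 f_mm_303 t 1 1 1 = true :=
  ⟨(b (l 3) (b (l 3) (a (b (l 3) (a (b (a (l 15946616) (l 3)) (a (b (l 15858496) (l 15881528)) (a (l 16059448) (l 1)))) (a (b (l 3) (l 1)) (l 1)))) (l 1)))), by decide +kernel⟩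

theorem c_mm_303 : CertB 1610612736 536870912 0 1230186008 740881858 40050571 3 eng mog cd1q3 cd5q3 pd0 false false false .npn 3 0 3
    ndB1q3 ndB5q3 pcB0 Cut.none Ext.none :=
  certB2 (fam := false) (s1 := false) (s2 := false) (a := 3) (b := 0) (c := 3) (cn := .npn) (n1 := ndB1q3) (n2 := ndB5q3) (pc := pcB0) (cut := Cut.none) (xt := Ext.none) (P1 := 1610612736) (W1 := 536870912) (P2 := 0) (W2 := 1230186008) (P3 := 740881858) (W3 := 40050571) (N0 := 3) (En := eng) (mo := mog) (C1 := cd1q3) (C2 := cd5q3) (C3 := pd0)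
    rfl (fun _ => rfl) k0_mm_303

noncomputable def f_mm_313 : ℕ → ℕ → ℕ → ℕ → Bool := onCell 1610612736 536870912 0 1230186008 740881858 40050571
    (rowB 3 eng mog cd1q3 cd5q3 pd1 0 false false false .dn 3 1 3 (qsf 1610612736 536870912 0 1230186008 1) ndB1q3 ndB5q3 pcB1 Cut.none Ext.none)

def k0_mm_313 : ∃ t, chk3 f_mm_313 t 1 1 1 = true :=
  ⟨(b (l 3) (l 1)), by decide +kernel⟩

theorem c_mm_313 : CertB 1610612736 536870912 0 1230186008 740881858 40050571 3 eng mog cd1q3 cd5q3 pd1 false false false .dn 3 1 3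
    ndB1q3 ndB5q3 pcB1 Cut.none Ext.none :=
  certB0 (fam := false) (s1 := false) (s2 := false) (a := 3) (b := 1) (c := 3) (cn := .dn) (n1 := ndB1q3) (n2 := ndB5q3) (pc := pcB1) (cut := Cut.none) (xt := Ext.none) (P1 := 1610612736) (W1 := 536870912) (P2 := 0) (W2 := 1230186008) (P3 := 740881858) (W3 := 40050571) (N0 := 3) (En := eng) (mo := mog) (C1 := cd1q3) (C2 := cd5q3) (C3 := pd1)
    rfl k0_mm_313

end Pool.Agent.Strip051.G.I69_7273.Tab.C.BB15

namespace Pool.Agent.Strip051.G.I69_7273.Tab.C.BB20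

open Pool.Agent.Strip051.PB Pool.Agent.Strip051.PB.T
open Pool.Agent.Strip051.G.I69_7273.Tab

noncomputable def f_pp_001 : ℕ → ℕ → ℕ → ℕ → Bool := onCell 0 536870912 0 536870912 740881858 40050571
    (rowB 3 eng mog cd2q0 cd0q1 pd0 1 false true true .up 0 0 1 (qsf 0 536870912 536870912 536870912 0) ndB2q0 ndB0q1 pcB0 Cut.none Ext.none)

def k0_pp_001 : ∃ t, chk3 f_pp_001 t 1 1 1 = true :=
  ⟨(l 3), by decide +kernel⟩

theorem c_pp_001 : CertB 0 536870912 536870912 536870912 740881858 40050571 3 eng mog cd2q0 cd0q1 pd0 false true true .up 0 0 1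
    ndB2q0 ndB0q1 pcB0 Cut.none Ext.none :=
  certB1 (fam := false) (s1 := true) (s2 := true) (a := 0) (b := 0) (c := 1) (cn := .up) (n1 := ndB2q0) (n2 := ndB0q1) (pc := pcB0) (cut := Cut.none) (xt := Ext.none) (P1 := 0) (W1 := 536870912) (P2 := 536870912) (W2 := 536870912) (P3 := 740881858) (W3 := 40050571) (N0 := 3) (En := eng) (mo := mog) (C1 := cd2q0) (C2 := cd0q1) (C3 := pd0)
    rfl (fun _ => rfl) k0_pp_001

noncomputable def cut_pp_011 : Cut := Cut.of [[⟨0, 0, 0, 67108864⟩, ⟨1, 1, 0, 67108864⟩, ⟨2, 1, 0, 67108864⟩]]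

noncomputable def f_pp_011 : ℕ → ℕ → ℕ → ℕ → Bool := onCell 0 536870912 536870912 536870912 740881858 40050571
    (rowB 3 eng mog cd2q0 cd0q1 pd1 0 false true true .pnn 0 1 1 (qsf 0 536870912 536870912 536870912 1) ndB2q0 ndB0q1 pcB1 cut_pp_011 Ext.none)

def k0_pp_011 : ∃ t, chk3 f_pp_011 t 1 1 1 = true :=
  ⟨(a (b (l 3) (b (l 3) (a (b (l 3) (a (b (l 3) (b (l 3) (a (l 6) (l 3)))) (l 3))) (l 3)))) (l 3)), by decide +kernel⟩

theorem c_pp_011 : CertB 0 536870912 536870912 536870912 740881858 40050571 3 eng mog cd2q0 cd0q1 pd1 false true true .pnn 0 1 1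
    ndB2q0 ndB0q1 pcB1 cut_pp_011 Ext.none :=
  certB0 (fam := false) (s1 := true) (s2 := true) (a := 0) (b := 1) (c := 1) (cn := .pnn) (n1 := ndB2q0) (n2 := ndB0q1) (pc := pcB1) (cut := cut_pp_011) (xt := Ext.none) (P1 := 0) (W1 := 536870912) (P2 := 536870912) (W2 := 536870912) (P3 := 740881858) (W3 := 40050571) (N0 := 3) (En := eng) (mo := mog) (C1 := cd2q0) (C2 := cd0q1) (C3 := pd1)
    rfl k0_pp_011

noncomputable def cut_pp_012 : Cut := Cut.of [[⟨0, 0, 0, 67108864⟩, ⟨1, 1, 0, 67108864⟩, ⟨2, 1, 0, 67108864⟩]]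

noncomputable def xt_pp_012 : Ext := extD2 3 ⟨4, 1, 1, 5, 7, 3, 99, 100, 9, 20, 1, 8⟩ eng cd2q0 cd0q2 pd1 false true true .pnp 0 1 2 rfl ndB2q0 ndB0q2 pcB1

noncomputable def f_pp_012 : ℕ → ℕ → ℕ → ℕ → Bool := onCell 536870912 536870912 0 536870912 740881858 40050571
    (rowB 3 eng mog cd2q0 cd0q2 pd1 2 false true true .pnp 0 1 2 (qsf 0 536870912 0 536870912 1) ndB2q0 ndB0q2 pcB1 cut_pp_012 xt_pp_012)

def k0_pp_012 : ∃ t, chk3 f_pp_012 t 2 1 1 = true :=
  ⟨(b (a (b (l 2) (a (l 2) (b (l 2) (b (l 2) (l 16589064))))) (b (b (a (l 16494440) (l 16484400)) (a (l 16536856) (l 16526384))) (a (b (l 16573584) (b (a (l 16593312) (l 16593968)) (a (l 16596600) (l 16601664)))) (b (l 16566776) (b (l 16595200) (a (l 16606272) (l 16612088))))))) (a (b (a (l 2) (b (a (l 2) (b (l 16558728) (b (l 16549000) (l 163913051799)))) (l 3))) (l 3)) (b (a (b (a (b (l 16575632) (b (l 16539248) (l 16546424))) (b (l 16591608) (l 16530712))) (b (a (b (l 153712503799) (l 3)) (a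 (l 140827619799) (l 16617704))) (l 3))) (b (a (b (l 16606296) (l 16562240)) (b (l 16620032) (l 16596512))) (b (a (l 16627472) (l 16566480)) (a (b (l 142975072711) (l 3)) (a (l 137069477719) (l 123647746119)))))) (a (l 3) (a (l 3) (b (l 3) (l 3))))))), by decide +kernel⟩

def k1_pp_012 : ∃ t, chk3 f_pp_012 t 6 1 1 = true :=
  ⟨(b (b (b (a (l 16477080) (l 16468760)) (a (l 16519304) (l 16512368))) (a (b (l 16562072) (a (l 16607752) (l 16607608))) (b (l 16576056) (b (l 16591064) (l 16617544))))) (b (a (b (a (b (l 16631752) (l 16626776)) (b (l 16640080) (l 16650792))) (a (b (l 16590872) (b (l 16618240) (l 16640736))) (b (l 16596472) (a (l 16645656) (l 16655376))))) (b (a (b (l 16644120) (l 16664376)) (b (l 16643360) (l 16668168))) (a (b (l 16685640) (a (l 16662160) (l 16667424))) (b (l 16688312) (a (l 16673544) (l 16682864)))))) (a (b (a (b (b (a (l 146733313911) (l 16648640)) (l 3)) (l 3)) (b (b (a (l 16659592) (l 16667848)) (a (b (a (l 16675296) (l 16681448))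 (l 3)) (c (a (l 142438408583) (l 122574186487)) (b (l 16683352) (a (l 2827071773780837552169676159) (l 126332286999)))))) (l 3))) (l 3)) (b (b (a (b (a (l 16692824) (l 16694016)) (a (a (a (l 105931194103) (l 16717768)) (l 16717816)) (l 16695712))) (a (c (l 16684360) (l 16683512)) (l 16695112))) (a (b (a (b (a (b (l 159081488087) (l 3)) (l 123111094727)) (l 3)) (b (a (l 16737640) (l 16735720)) (a (l 163913310599) (l 127942959415)))) (l 3)) (b (a (a (l 16719728) (l 16738992)) (l 16715064)) (a (a (l 166060844055) (l 151565324791)) (b (l 16754272) (l 177872001895)))))) (b (a (l 3) (b (l 3) (l 3))) (l 3)))))), by decide +kernel⟩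

def k2_pp_012 : ∃ t, chk3 f_pp_012 t 7 2 1 = true :=
  ⟨(b (a (b (a (l 16461280) (l 16456176)) (a (l 16507328) (l 16505064))) (b (a (l 16452288) (l 16449720)) (a (l 16526136) (l 16507360)))) (a (b (a (l 16548392) (l 16545104)) (b (l 16582192) (a (l 16611496) (l 16607344)))) (b (a (l 16544064) (l 16545792)) (a (l 16591744) (b (l 16578904) (l 16605104)))))), by decide +kernel⟩

def k3_pp_012 : ∃ t, chk3 f_pp_012 t 7 3 1 = true :=
  ⟨(b (a (b (b (l 16616248) (a (l 16666824) (l 16661992))) (b (a (l 16691624) (l 16623912)) (a (a (l 16706864) (l 16711928)) (l 16707184)))) (b (a (l 16644688) (b (l 16631512) (l 16656704))) (a (b (l 16682528) (l 16701792)) (b (l 16677792) (a (l 16701848) (l 16683712)))))) (a (b (a (b (a (l 16701496) (l 16708032)) (a (b (l 16732056) (a (l 16756032) (l 16752728))) (b (l 16727376) (l 16725872)))) (b (a (l 16720488) (l 16722648)) (b (a (l 16722816) (l 16723872)) (a (l 16738704) (l 16733920))))) (a (b (b (a (b (a (l 207399906647)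 (l 159081588167)) (l 3)) (b (a (l 16765608) (l 16760536)) (a (l 186462019415) (l 161765948279)))) (a (l 3) (l 3))) (l 3)) (b (b (a (b (l 16752664) (a (l 16765624) (l 16759984))) (b (l 16745488) (l 16753936))) (a (b (a (b (l 222432354631) (l 3)) (a (l 221895478087) (l 221358599447))) (l 3)) (b (a (b (l 16762200) (l 16766712)) (l 16761248)) (a (b (a (l 227801049095) (l 226727301303)) (l 3)) (b (a (l 16768368) (l 16766952)) (a (l 236390965639) (l 226190431719))))))) (b (a (l 3) (l 3)) (l 3))))) (b (a (b (a (l 16719600) (l 16716992)) (a (l 16717488) (l 16695064))) (b (a (l 16715352) (l 16710536)) (a (l 16733656) (a (l 16731624) (l 16727376))))) (a (b (a (b (l 16747680) (a (a (b (l 16759816) (l 16778416)) (l 16784136)) (l 16783416))) (b (l 16752776) (a (l 16761976) (l 16761528)))) (b (a (b (a (b (a (l 235854097543) (l 224579822407)) (l 3)) (b (a (l 16772224) (l 16771600)) (a (l 234780359879) (l 221895473191)))) (l 3)) (a (b (a (l 16783424) (l 16772432))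 (l 6)) (l 6))) (a (l 3) (l 6)))) (b (a (b (l 16750496) (l 6)) (l 6)) (l 6)))))), by decide +kernel⟩

theorem s4_pp_012 : ∃ t, chk3 f_pp_012 t 7 1 1 = true := ex3_b k2_pp_012 k3_pp_012

theorem s5_pp_012 : ∃ t, chk3 f_pp_012 t 3 1 1 = true := ex3_a k1_pp_012 s4_pp_012

theorem s6_pp_012 : ∃ t, chk3 f_pp_012 t 1 1 1 = true := ex3_a k0_pp_012 s5_pp_012

theorem c_pp_012 : CertB 0 536870912 0 536870912 740881858 40050571 3 eng mog cd2q0 cd0q2 pd1 false true true .pnp 0 1 2
    ndB2q0 ndB0q2 pcB1 cut_pp_012 xt_pp_012 :=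
  certB2 (fam := false) (s1 := true) (s2 := true) (a := 0) (b := 1) (c := 2) (cn := .pnp) (n1 := ndB2q0) (n2 := ndB0q2) (pc := pcB1) (cut := cut_pp_012) (xt := xt_pp_012) (P1 := 0) (W1 := 536870912) (P2 := 0) (W2 := 536870912) (P3 := 740881858) (W3 := 40050571) (N0 := 3) (En := eng) (mo := mog) (C1 := cd2q0) (C2 := cd0q2) (C3 := pd1)
    rfl (fun _ => rfl) s6_pp_012

noncomputable def cut_pp_022 : Cut := Cut.of [[⟨0, 0, 0, 67108864⟩, ⟨1, 1, 0, 67108864⟩, ⟨2, 1, 0, 67108864⟩]]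

noncomputable def f_pp_022 : ℕ → ℕ → ℕ → ℕ → Bool := onCell 1073741824 536870912 0 536870912 740881858 40050571
    (rowB 3 eng mog cd2q0 cd0q2 pd2 2 false true true .pp 0 2 2 (qsf 0 536870912 0 536870912 2) ndB2q0 ndB0q2 pcB2 cut_pp_022 Ext.none)

def k0_pp_022 : ∃ t, chk3 f_pp_022 t 4 2 1 = true :=
  ⟨(b (a (b (a (l 16394560) (b (l 16413840) (l 16424960))) (a (b (l 16411160) (l 16424568)) (b (l 16437976) (l 16473352)))) (c (a (b (l 16497936) (l 16461864)) (b (b (l 16440824) (l 16453376)) (b (l 16467648) (l 16483176)))) (a (b (l 16447592) (l 16474096)) (b (l 16469872) (a (l 16490976) (l 16464624)))))) (a (b (a (b (l 16440320) (l 16521656)) (a (b (l 16462400) (l 16481584)) (b (l 16475400) (l 16494968)))) (a (b (a (l 16471432) (l 16488296)) (a (l 16495728) (l 16513160))) (a (b (l 16503664) (l 16528976)) (b (l 16517400) (l 16543040))))) (b (b (a (c (l 16486664) (l 16498448)) (a (l 16501152) (a (l 16480864) (l 16464864)))) (a (c (l 16507000) (l 16517832))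 (a (c (l 16509912) (l 16493984)) (c (a (l 16489096) (l 16450888)) (l 16481152))))) (b (a (c (l 16530256) (l 16539888)) (a (a (l 16509840) (l 16411616)) (a (a (l 16398640) (l 16472560)) (c (l 16467160) (l 16446448))))) (a (a (l 16555240) (a (l 16538904) (l 16524120))) (a (c (a (l 16515880) (l 16522632)) (a (l 16501192) (l 16483856))) (a (b (l 16516304) (c (l 16481336) (l 16461752))) (b (c (l 486974873751) (l 441340787991)) (a (l 446709524023) (l 432750852023)))))))))), by decide +kernel⟩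

def k1_pp_022 : ∃ t, chk3 f_pp_022 t 5 2 1 = true :=
  ⟨(a (b (a (b (b (a (l 16462640) (c (l 16412784) (l 16426088))) (a (l 16371688) (a (l 16416472) (c (l 16417160) (l 16408912))))) (a (b (c (l 16460536) (l 16437160)) (c (l 16435048) (l 16432160))) (b (c (a (l 16441432) (a (l 16431416) (l 16423856))) (l 442951426215)) (a (c (l 16433880) (l 16407136)) (a (l 16429912) (l 1)))))) (b (l 1) (l 1))) (a (b (a (c (b (a (l 16459128) (l 16442712)) (a (l 16453864) (l 461741907655))) (b (l 16448056) (a (l 16431216) (l 430603337927)))) (a (b (l 452615117639) (b (l 1) (l 1))) (l 1))) (a (b (a (c (l 476774315015) (l 439730169127)) (b (l 601865172487) (l 1))) (a (b (a (l 524018896359) (l 1)) (l 1)) (l 1))) (l 1))) (l 1))) (l 1)), by decide +kernel⟩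

def k2_pp_022 : ∃ t, chk3 f_pp_022 t 8 3 1 = true :=
  ⟨(b (b (b (a (a (l 16520008) (l 16537976)) (a (l 16554208) (l 16568560))) (a (a (l 16584608) (l 16561120)) (a (l 16535784) (l 16592336)))) (a (b (a (l 16587208) (b (l 16578712) (l 16591184))) (a (b (l 16585888) (l 16602704)) (l 16678192))) (a (b (l 16602416) (l 16633624)) (a (b (l 16614056) (l 16631864)) (b (l 16607672) (a (l 16617000) (l 16606952))))))) (b (b (a (a (b (l 16619856) (l 16637936)) (b (l 16640312) (l 16658008))) (b (a (l 16658024) (a (l 16635920) (a (l 16620080) (l 16609400)))) (a (l 16627680) (a (b (l 16637216) (l 6)) (a (l 389801543687) (l 393022764935)))))) (a (l 6) (a (l 6) (a (l 6) (a (l 6) (l 1)))))) (a (l 6) (a (l 6) (l 1))))), by decide +kernel⟩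

def k3_pp_022 : ∃ t, chk3 f_pp_022 t 9 3 1 = true :=
  ⟨(b (a (b (a (b (l 16565496) (a (l 16581816) (l 16564952))) (b (a (l 16541984) (l 16546712)) (a (b (l 16546224) (l 16549168)) (b (l 16528808) (l 16530928))))) (b (a (a (l 16607584) (b (l 16570040) (l 16570240))) (b (a (l 16551048) (a (l 16536424) (l 16526416))) (a (l 16549624) (l 460131450471)))) (a (a (b (l 16590744) (a (l 16597056) (l 16585832))) (b (l 16569408) (l 410202568663))) (b (a (l 411813102247) (l 1)) (l 1))))) (b (a (b (a (b (l 16508688) (l 16509552)) (b (a (l 16496176) (l 16487504)) (a (l 16496464) (l 291017041527)))) (a (b (l 16531920) (c (l 16519888) (l 16503840))) (b (c (l 341482949623) (l 370473922823)) (c (l 326987437287) (l 360810252087))))) (b (a (b (c (l 346314713495) (l 364031410007)) (a (l 452078269495) (l 1))) (b (a (l 429529642039) (l 1)) (l 1))) (l 1))) (a (b (a (b (l 448320277495) (l 1)) (l 1)) (l 1)) (l 1)))) (b (a (b (a (b (a (a (l 440804260135) (l 403223267447))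 (l 366179118839)) (a (a (l 350609901015) (l 1)) (l 1))) (l 1)) (l 1)) (l 1)) (l 1))), by decide +kernel⟩

def k4_pp_022 : ∃ t, chk3 f_pp_022 t 5 3 1 = true :=
  ⟨(b (l 1) (l 1)), by decide +kernel⟩

def k5_pp_022 : ∃ t, chk3 f_pp_022 t 3 1 1 = true :=
  ⟨(l 1), by decide +kernel⟩

theorem s6_pp_022 : ∃ t, chk3 f_pp_022 t 4 3 1 = true := ex3_a k2_pp_022 k3_pp_022

theorem s7_pp_022 : ∃ t, chk3 f_pp_022 t 2 3 1 = true := ex3_a s6_pp_022 k4_pp_022

theorem s8_pp_022 : ∃ t, chk3 f_pp_022 t 2 2 1 = true := ex3_a k0_pp_022 k1_pp_022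

theorem s9_pp_022 : ∃ t, chk3 f_pp_022 t 2 1 1 = true := ex3_b s8_pp_022 s7_pp_022

theorem s10_pp_022 : ∃ t, chk3 f_pp_022 t 1 1 1 = true := ex3_a s9_pp_022 k5_pp_022

theorem c_pp_022 : CertB 0 536870912 0 536870912 740881858 40050571 3 eng mog cd2q0 cd0q2 pd2 false true true .pp 0 2 2
    ndB2q0 ndB0q2 pcB2 cut_pp_022 Ext.none :=
  certB2 (fam := false) (s1 := true) (s2 := true) (a := 0) (b := 2) (c := 2) (cn := .pp) (n1 := ndB2q0) (n2 := ndB0q2) (pc := pcB2) (cut := cut_pp_022) (xt := Ext.none) (P1 := 0) (W1 := 536870912) (P2 := 0) (W2 := 536870912) (P3 := 740881858) (W3 := 40050571) (N0 := 3) (En := eng) (mo := mog) (C1 := cd2q0) (C2 := cd0q2) (C3 := pd2)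
    rfl (fun _ => rfl) s10_pp_022

noncomputable def f_pp_101 : ℕ → ℕ → ℕ → ℕ → Bool := onCell 536870912 536870912 536870912 536870912 740881858 40050571
    (rowB 3 eng mog cd2q1 cd0q1 pd0 0 false true true .npn 1 0 1 (qsf 536870912 536870912 536870912 536870912 0) ndB2q1 ndB0q1 pcB0 Cut.none Ext.none)

def k0_pp_101 : ∃ t, chk3 f_pp_101 t 1 1 1 = true :=
  ⟨(l 3), by decide +kernel⟩

theorem c_pp_101 : CertB 536870912 536870912 536870912 536870912 740881858 40050571 3 eng mog cd2q1 cd0q1 pd0 false true true .npn 1 0 1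
    ndB2q1 ndB0q1 pcB0 Cut.none Ext.none :=
  certB0 (fam := false) (s1 := true) (s2 := true) (a := 1) (b := 0) (c := 1) (cn := .npn) (n1 := ndB2q1) (n2 := ndB0q1) (pc := pcB0) (cut := Cut.none) (xt := Ext.none) (P1 := 536870912) (W1 := 536870912) (P2 := 536870912) (W2 := 536870912) (P3 := 740881858) (W3 := 40050571) (N0 := 3) (En := eng) (mo := mog) (C1 := cd2q1) (C2 := cd0q1) (C3 := pd0)
    rfl k0_pp_101

noncomputable def f_pp_102 : ℕ → ℕ → ℕ → ℕ → Bool := onCell 0 536870912 0 536870912 740881858 40050571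
    (rowB 3 eng mog cd2q1 cd0q2 pd0 2 false true true .npp 1 0 2 (qsf 536870912 536870912 0 536870912 0) ndB2q1 ndB0q2 pcB0 Cut.none Ext.none)

def k0_pp_102 : ∃ t, chk3 f_pp_102 t 1 1 1 = true :=
  ⟨(a (b (b (a (l 2) (a (b (a (b (a (l 2) (l 114520894727)) (l 3)) (b (a (l 112910316679) (l 16549288)) (a (l 3) (l 144585650007)))) (l 3)) (b (a (b (a (l 16522544) (l 16515720)) (a (l 16531856) (l 16526720))) (b (l 16530536) (l 16519488))) (a (l 3) (b (a (l 16530224) (l 16548072)) (l 3)))))) (l 3)) (l 3)) (b (a (b (a (b (a (b (l 16503864) (l 16511704)) (b (l 16499680) (l 16509048))) (a (b (a (l 16523848) (l 16520648)) (l 146196177671)) (b (l 16517664) (a (l 16527144) (l 16526064))))) (a (b (b (l 16497680) (l 16507472)) (b (l 16515512) (l 16525392))) (b (l 16501120) (b (l 16515344) (l 16524960))))) (b (a (a (l 3) (b (l 193977681255) (l 3))) (a (b (a (l 191830250935) (l 16554456)) (l 3)) (b (l 16554744) (b (l 182703467415) (l 3))))) (l 3))) (b (a (b (l 16499680)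 (a (b (l 16515136) (l 16523240)) (l 16624784))) (b (l 16498840) (a (l 16520040) (l 16519448)))) (a (b (a (b (l 16532600) (a (l 171966012103) (l 16538376))) (b (l 16531232) (l 16537136))) (b (a (l 174113471415) (a (l 174113470487) (l 160691712359))) (l 3))) (b (a (b (l 16530024) (l 16535432)) (b (l 16529904) (l 16534192))) (b (a (b (l 16537120) (l 125258250231)) (l 16535160)) (a (b (l 166060399351) (l 3)) (b (a (l 16533952) (l 16533024)) (a (l 3) (l 150491161271))))))))) (a (l 3) (l 3)))), by decide +kernel⟩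

theorem c_pp_102 : CertB 536870912 536870912 0 536870912 740881858 40050571 3 eng mog cd2q1 cd0q2 pd0 false true true .npp 1 0 2
    ndB2q1 ndB0q2 pcB0 Cut.none Ext.none :=
  certB2 (fam := false) (s1 := true) (s2 := true) (a := 1) (b := 0) (c := 2) (cn := .npp) (n1 := ndB2q1) (n2 := ndB0q2) (pc := pcB0) (cut := Cut.none) (xt := Ext.none) (P1 := 536870912) (W1 := 536870912) (P2 := 0) (W2 := 536870912) (P3 := 740881858) (W3 := 40050571) (N0 := 3) (En := eng) (mo := mog) (C1 := cd2q1) (C2 := cd0q2) (C3 := pd0)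
    rfl (fun _ => rfl) k0_pp_102

noncomputable def f_pp_112 : ℕ → ℕ → ℕ → ℕ → Bool := onCell 536870912 536870912 0 536870912 740881858 40050571
    (rowB 3 eng mog cd2q1 cd0q2 pd1 2 false true true .dn 1 1 2 (qsf 536870912 536870912 0 536870912 1) ndB2q1 ndB0q2 pcB1 Cut.none Ext.none)

def k0_pp_112 : ∃ t, chk3 f_pp_112 t 1 1 1 = true :=
  ⟨(a (b (a (b (b (a (l 16425560) (l 16419400)) (a (l 16467392) (l 16459584))) (a (b (a (b (l 16495496) (l 16510904)) (b (l 16494096) (l 16506896))) (a (b (l 16522928) (a (b (l 16528888) (l 16528504)) (l 16527400))) (b (l 16518816) (b (l 16523664) (l 16524240))))) (b (b (l 16484832) (l 16499432)) (b (l 16634384) (a (l 16519040) (l 16511448)))))) (a (b (b (l 16400008) (l 16437048)) (a (b (l 16475120) (b (l 16492072) (l 16500472))) (l 1))) (l 1))) (a (b (b (a (b (a (b (a (l 150491141623) (l 131163793447)) (l 3)) (b (a (l 16521328) (l 16519920)) (a (l 141364309111) (l 121500087575)))) (l 3)) (b (a (b (l 16516872) (l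 59223074711)) (l 16508664)) (a (b (a (l 131163722727) (l 110762634023)) (l 3)) (a (b (l 16495440) (l 121500004119)) (l 1))))) (l 3)) (l 3)) (b (l 1) (l 1)))) (l 1)), by decide +kernel⟩

theorem c_pp_112 : CertB 536870912 536870912 0 536870912 740881858 40050571 3 eng mog cd2q1 cd0q2 pd1 false true true .dn 1 1 2
    ndB2q1 ndB0q2 pcB1 Cut.none Ext.none :=
  certB2 (fam := false) (s1 := true) (s2 := true) (a := 1) (b := 1) (c := 2) (cn := .dn) (n1 := ndB2q1) (n2 := ndB0q2) (pc := pcB1) (cut := Cut.none) (xt := Ext.none) (P1 := 536870912) (W1 := 536870912) (P2 := 0) (W2 := 536870912) (P3 := 740881858) (W3 := 40050571) (N0 := 3) (En := eng) (mo := mog) (C1 := cd2q1) (C2 := cd0q2) (C3 := pd1)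
    rfl (fun _ => rfl) k0_pp_112

noncomputable def f_pp_202_a : ℕ → ℕ → ℕ → ℕ → Bool := onCell 0 536870912 0 536870912 740881858 40050571
    (rowB 3 eng mog cd2q2a cd0q2 pd0 0 false true true .pp 2 0 2 (qsf 0 536870912 0 536870912 0) ndB2q2a ndB0q2 pcB0 Cut.none Ext.none)

def k0_pp_202_a : ∃ t, chk3 f_pp_202_a t 1 1 1 = true :=
  ⟨(l 3), by decide +kernel⟩

theorem c_pp_202_a : CertB 0 536870912 0 536870912 740881858 40050571 3 eng mog cd2q2a cd0q2 pd0 false true true .pp 2 0 2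
    ndB2q2a ndB0q2 pcB0 Cut.none Ext.none :=
  certB0 (fam := false) (s1 := true) (s2 := true) (a := 2) (b := 0) (c := 2) (cn := .pp) (n1 := ndB2q2a) (n2 := ndB0q2) (pc := pcB0) (cut := Cut.none) (xt := Ext.none) (P1 := 0) (W1 := 536870912) (P2 := 0) (W2 := 536870912) (P3 := 740881858) (W3 := 40050571) (N0 := 3) (En := eng) (mo := mog) (C1 := cd2q2a) (C2 := cd0q2) (C3 := pd0)
    rfl k0_pp_202_a

noncomputable def f_pp_202_b : ℕ → ℕ → ℕ → ℕ → Bool := onCell 1239849684 370763052 0 536870912 740881858 40050571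
    (rowB 3 eng mog cd2q2b cd0q2 pd0 0 false true true .pp 2 0 2 (qsf 1239849684 370763052 0 536870912 0) ndB2q2b ndB0q2 pcB0 Cut.none Ext.none)

def k0_pp_202_b : ∃ t, chk3 f_pp_202_b t 1 1 1 = true :=
  ⟨(l 3), by decide +kernel⟩

theorem c_pp_202_b : CertB 1239849684 370763052 0 536870912 740881858 40050571 3 eng mog cd2q2b cd0q2 pd0 false true true .pp 2 0 2
    ndB2q2b ndB0q2 pcB0 Cut.none Ext.none :=
  certB0 (fam := false) (s1 := true) (s2 := true) (a := 2) (b := 0) (c := 2) (cn := .pp) (n1 := ndB2q2b) (n2 := ndB0q2) (pc := pcB0) (cut := Cut.none) (xt := Ext.none) (P1 := 1239849684) (W1 := 370763052) (P2 := 0) (W2 := 536870912) (P3 := 740881858) (W3 := 40050571) (N0 := 3) (En := eng) (mo := mog) (C1 := cd2q2b) (C2 := cd0q2) (C3 := pd0)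
    rfl k0_pp_202_b

noncomputable def f_pm_001 : ℕ → ℕ → ℕ → ℕ → Bool := onCell 0 536870912 536870912 536870912 740881858 40050571
    (rowB 3 eng mog cd2q0 cd0q1 pd0 0 false true false .up 0 0 1 (qsf 0 536870912 536870912 536870912 0) ndB2q0 ndB0q1 pcB0 Cut.none Ext.none)

def k0_pm_001 : ∃ t, chk3 f_pm_001 t 1 1 1 = true :=
  ⟨(b (l 4) (b (l 4) (b (l 4) (a (l 2) (a (l 2) (b (l 4) (a (l 2) (a (l 16409984) (l 16258272))))))))), by decide +kernel⟩

theorem c_pm_001 : CertB 0 536870912 536870912 536870912 740881858 40050571 3 eng mog cd2q0 cd0q1 pd0 false true false .up 0 0 1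
    ndB2q0 ndB0q1 pcB0 Cut.none Ext.none :=
  certB0 (fam := false) (s1 := true) (s2 := false) (a := 0) (b := 0) (c := 1) (cn := .up) (n1 := ndB2q0) (n2 := ndB0q1) (pc := pcB0) (cut := Cut.none) (xt := Ext.none) (P1 := 0) (W1 := 536870912) (P2 := 536870912) (W2 := 536870912) (P3 := 740881858) (W3 := 40050571) (N0 := 3) (En := eng) (mo := mog) (C1 := cd2q0) (C2 := cd0q1) (C3 := pd0)
    rfl k0_pm_001

noncomputable def cut_pm_011 : Cut := Cut.of [[⟨0, 0, 0, 67108864⟩, ⟨1, 1, 0, 67108864⟩, ⟨2, 1, 0, 67108864⟩]]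

noncomputable def f_pm_011 : ℕ → ℕ → ℕ → ℕ → Bool := onCell 0 536870912 536870912 536870912 740881858 40050571
    (rowB 3 eng mog cd2q0 cd0q1 pd1 0 false true false .pnn 0 1 1 (qsf 0 536870912 536870912 536870912 1) ndB2q0 ndB0q1 pcB1 cut_pm_011 Ext.none)

def k0_pm_011 : ∃ t, chk3 f_pm_011 t 1 1 1 = true :=
  ⟨(b (l 4) (b (l 4) (b (l 4) (b (a (l 4) (l 4)) (a (a (a (a (b (l 4) (l 6)) (l 4)) (l 4)) (l 4)) (a (a (l 4) (a (l 4) (l 16369112))) (a (b (l 4) (l 16313232)) (l 16480760)))))))), by decide +kernel⟩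

theorem c_pm_011 : CertB 0 536870912 536870912 536870912 740881858 40050571 3 eng mog cd2q0 cd0q1 pd1 false true false .pnn 0 1 1
    ndB2q0 ndB0q1 pcB1 cut_pm_011 Ext.none :=
  certB0 (fam := false) (s1 := true) (s2 := false) (a := 0) (b := 1) (c := 1) (cn := .pnn) (n1 := ndB2q0) (n2 := ndB0q1) (pc := pcB1) (cut := cut_pm_011) (xt := Ext.none) (P1 := 0) (W1 := 536870912) (P2 := 536870912) (W2 := 536870912) (P3 := 740881858) (W3 := 40050571) (N0 := 3) (En := eng) (mo := mog) (C1 := cd2q0) (C2 := cd0q1) (C3 := pd1)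
    rfl k0_pm_011

noncomputable def cut_pm_012 : Cut := Cut.of [[⟨0, 0, 0, 67108864⟩, ⟨1, 1, 0, 67108864⟩, ⟨2, 1, 0, 67108864⟩]]

noncomputable def f_pm_012 : ℕ → ℕ → ℕ → ℕ → Bool := onCell 536870912 536870912 0 536870912 740881858 40050571
    (rowB 3 eng mog cd2q0 cd0q2 pd1 2 false true false .pnp 0 1 2 (qsf 0 536870912 0 536870912 1) ndB2q0 ndB0q2 pcB1 cut_pm_012 Ext.none)

def k0_pm_012 : ∃ t, chk3 f_pm_012 t 1 2 1 = true :=
  ⟨(a (a (b (l 2) (b (l 2) (l 16377176))) (b (a (l 16434720) (l 16418624)) (b (l 16368008) (l 16337944)))) (b (b (a (a (l 16426696) (l 16413496)) (a (l 16400256) (l 16432736))) (a (a (l 16381704) (l 16367896)) (a (l 16355440) (l 16410232)))) (a (b (a (l 16345864) (l 16334568)) (a (l 16321504) (l 16315312))) (a (b (l 16326104) (l 16334184)) (b (a (l 16323048) (l 16322424)) (a (l 16314792) (l 16338624))))))), by decide +kernel⟩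

def k1_pm_012 : ∃ t, chk3 f_pm_012 t 1 3 1 = true :=
  ⟨(a (b (a (a (l 2) (b (l 16333848) (l 16306744))) (b (l 16379808) (a (l 16302784) (l 16411800)))) (a (b (a (l 16275416) (l 16286288)) (a (l 16257368) (l 16291744))) (b (b (a (l 16301248) (l 16320520)) (a (l 16307488) (l 16335896))) (a (a (l 16321328) (l 16343656)) (b (l 16360848) (a (l 16383056) (l 16409168))))))) (b (a (a (b (l 16312416) (a (l 16314672) (l 16327568))) (b (l 16315608) (l 16363216))) (a (b (a (l 16321376) (l 16326632)) (a (l 16360056) (l 16372872))) (b (a (l 16333144) (b (l 16330864) (l 16353248))) (a (b (l 16369424) (l 16406488)) (a (l 16485016) (b (l 16388984) (l 16432640))))))) (a (a (b (b (l 16432456) (l 16558624)) (b (l 16591704) (a (l 16435296) (l 16568984)))) (b (b (a (l 16369744) (l 16409072)) (a (b (l 16395272) (l 16411656)) (b (l 16420880) (l 16439376)))) (a (b (l 16442744) (b (l 16479200) (l 4))) (b (b (l 16462904) (l 16486568)) (b (l 16515576) (l 4)))))) (b (a (b (a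 (l 16411848) (l 16432224)) (a (l 16603488) (b (l 16469800) (l 16578952)))) (a (b (l 16455744) (a (l 16504920) (l 16520792))) (b (a (l 16475624) (l 16489608)) (a (l 16537216) (b (l 16537320) (l 16571192)))))) (a (b (b (a (a (l 16485648) (l 16501280)) (a (a (l 16513968) (l 16522632)) (l 16535528))) (a (l 16522208) (a (l 16550552) (b (l 16559264) (l 16577872))))) (b (a (a (l 16545000) (l 16565392)) (a (l 16585928) (b (l 16596192) (l 16616592)))) (l 4))) (a (b (a (b (l 16551080) (b (l 16578824) (a (l 16591904) (l 16601336)))) (b (l 16570016) (l 16648872))) (a (b (b (l 16616888) (l 16637720)) (b (l 16662368) (l 4))) (b (a (b (l 16631952) (l 6)) (l 6)) (l 6)))) (b (a (b (l 16588576) (l 6)) (l 6)) (l 6)))))))), by decide +kernel⟩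

theorem s2_pm_012 : ∃ t, chk3 f_pm_012 t 1 1 1 = true := ex3_b k0_pm_012 k1_pm_012

theorem c_pm_012 : CertB 0 536870912 0 536870912 740881858 40050571 3 eng mog cd2q0 cd0q2 pd1 false true false .pnp 0 1 2
    ndB2q0 ndB0q2 pcB1 cut_pm_012 Ext.none :=
  certB2 (fam := false) (s1 := true) (s2 := false) (a := 0) (b := 1) (c := 2) (cn := .pnp) (n1 := ndB2q0) (n2 := ndB0q2) (pc := pcB1) (cut := cut_pm_012) (xt := Ext.none) (P1 := 0) (W1 := 536870912) (P2 := 0) (W2 := 536870912) (P3 := 740881858) (W3 := 40050571) (N0 := 3) (En := eng) (mo := mog) (C1 := cd2q0) (C2 := cd0q2) (C3 := pd1)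
    rfl (fun _ => rfl) s2_pm_012

noncomputable def cut_pm_022 : Cut := Cut.of [[⟨0, 0, 0, 67108864⟩, ⟨1, 1, 0, 67108864⟩, ⟨2, 1, 0, 67108864⟩]]

noncomputable def f_pm_022 : ℕ → ℕ → ℕ → ℕ → Bool := onCell 0 536870912 0 536870912 740881858 40050571
    (rowB 3 eng mog cd2q0 cd0q2 pd2 0 false true false .pp 0 2 2 (qsf 0 536870912 0 536870912 2) ndB2q0 ndB0q2 pcB2 cut_pm_022 Ext.none)

def k0_pm_022 : ∃ t, chk3 f_pm_022 t 2 2 1 = true :=
  ⟨(a (b (a (c (a (b (a (b (l 16444344) (b (l 16437304) (l 16437808))) (b (l 16439072) (l 16434016))) (b (l 16440592) (l 16449832))) (b (b (l 16430480) (l 16321440)) (l 16428816))) (b (b (a (l 16407360) (l 16453024)) (a (a (l 16448432) (l 16461736)) (l 16447728))) (a (a (l 16457808) (l 16464664)) (l 16445024)))) (b (b (a (l 16424176) (l 16403424)) (a (l 16416216) (l 16390224))) (a (b (l 16409576) (l 16406264)) (l 16393784)))) (a (b (a (a (b (l 16476624) (a (l 16443608) (l 16486496))) (b (l 16464392) (l 16475096))) (b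 (l 16442096) (l 16448376))) (a (a (a (b (b (l 16494664) (l 16460120)) (b (a (l 16424376) (l 16512776)) (b (l 16454408) (a (l 16477560) (l 16524120))))) (b (l 16500712) (b (l 16511712) (l 16519776)))) (b (l 16487120) (c (l 16494544) (l 16505736)))) (b (c (l 16473584) (l 16459232)) (c (l 16529424) (l 16465360))))) (b (a (b (l 16404872) (l 16404624)) (l 16398232)) (a (b (l 16425856) (l 16530680)) (b (l 16344808) (l 16378680)))))) (a (a (b (b (b (l 16378168) (l 16358240)) (l 16330640)) (b (l 16320488) (b (l 16276160) (l 16280544)))) (b (b (l 1) (l 1)) (l 1))) (l 1))), by decide +kernel⟩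

def k1_pm_022 : ∃ t, chk3 f_pm_022 t 8 12 1 = true :=
  ⟨(a (a (a (a (b (b (b (l 16461000) (l 16465360)) (c (l 16541152) (b (l 16525256) (l 16529952)))) (c (b (b (l 16547032) (l 16551128)) (b (l 16513528) (l 16528600))) (b (c (l 16540360) (l 16554696)) (c (l 16571040) (a (l 16563736) (l 16545800)))))) (b (b (l 16488872) (b (l 16537352) (l 16541696))) (b (b (l 16525064) (l 16508592)) (b (l 16513320) (a (l 16517040) (l 16561472)))))) (c (b (l 16529192) (b (l 16547984) (l 16561496))) (b (l 16536616) (b (l 16550992) (l 16561328))))) (b (c (l 16512144) (l 16520496)) (a (b (l 16538736) (l 16550536)) (l 16561072)))) (b (a (a (l 16537656) (l 16481248)) (l 16479168)) (a (b (l 16522136) (l 16531328)) (l 16555024)))), by decide +kernel⟩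

def k2_pm_022 : ∃ t, chk3 f_pm_022 t 8 13 1 = true :=
  ⟨(a (a (a (b (c (b (a (c (b (l 16567000) (l 16571968)) (l 16581048)) (l 16571896)) (a (b (a (l 16574256) (l 16576536)) (a (l 16579840) (l 16582152))) (a (l 16560664) (l 16583904)))) (b (a (a (c (l 16580344) (b (l 16551224) (l 16557168))) (l 16580712)) (b (l 16561160) (l 16566976))) (a (c (b (l 16569376) (l 16575408)) (a (b (l 16563360) (l 16569712)) (l 16569680))) (b (l 16573048) (l 16579288))))) (b (a (c (b (a (l 16585456) (l 16587800)) (a (l 16601608) (l 16593504))) (a (b (c (l 16580016) (l 16576040)) (c (l 16586040) (a (l 16581552) (l 16583152)))) (b (l 16581056) (l 16587248)))) (c (a (l 16572056) (l 16574384)) (b (l 16585520) (l 16591744)))) (a (a (b (c (c (l 16598352) (l 16595344)) (c (l 16592120) (a (l 16587880) (l 16589488)))) (c (c (l 16604152) (l 16601312)) (c (l 16598296) (a (l 16594280) (l 16595912))))) (b (c (l 16599288) (l 16593480)) (c (l 16605200) (l 16599792)))) (c (b (l 16602872)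 (l 16608840)) (b (l 16598016) (l 16604368)))))) (c (b (b (l 16575248) (l 16589248)) (b (l 16601104) (l 16612968))) (b (b (l 16572608) (l 16584856)) (b (l 16597488) (l 16610184))))) (b (b (a (l 16562592) (l 16567016)) (a (l 16574880) (l 16578184))) (b (a (l 16588000) (l 16590120)) (a (l 16602248) (l 16540216))))) (b (a (c (l 16567656) (l 16565080)) (b (l 16481744) (l 16488784))) (a (c (l 16610080) (l 16605272)) (b (l 16496400) (l 16525872))))), by decide +kernel⟩

def k3_pm_022 : ∃ t, chk3 f_pm_022 t 9 6 1 = true :=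
  ⟨(b (c (a (b (l 16412200) (l 16482960)) (b (l 16341064) (l 16402408))) (a (b (l 16402808) (l 16470384)) (b (l 16320200) (l 16357592)))) (a (b (a (b (l 16440736) (l 16445304)) (b (l 16396768) (l 16398792))) (a (b (l 16450344) (l 16456136)) (b (l 16401168) (l 1)))) (a (b (l 16454528) (l 1)) (l 1)))), by decide +kernel⟩

def k4_pm_022 : ∃ t, chk3 f_pm_022 t 5 6 1 = true :=
  ⟨(l 1), by decide +kernel⟩

def k5_pm_022 : ∃ t, chk3 f_pm_022 t 2 7 1 = true :=
  ⟨(a (a (b (a (b (a (a (c (c (b (a (b (l 16611304) (l 16617544)) (l 16619040)) (a (b (l 16624392) (l 6)) (l 16632984))) (b (a (b (l 16608768) (l 16615160)) (l 16617184)) (a (b (a (l 16620800) (l 16623496)) (l 6)) (l 16631416)))) (a (b (b (a (c (l 16604616) (a (l 16600816) (l 16602456))) (l 16606248)) (a (a (b (l 16607296) (l 16610704)) (l 16610568)) (l 16612912))) (b (a (a (b (l 16614328) (l 6)) (l 16617824)) (l 16620192)) (l 6))) (b (b (l 16610872) (l 16617576)) (b (l 16624896) (l 6))))) (b (b (l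 16600160) (l 16606784)) (b (l 16591744) (l 6)))) (b (b (l 16603016) (l 16610320)) (b (l 16617336) (l 6)))) (l 6)) (b (a (b (a (l 16573624) (l 16550416)) (a (l 16585472) (l 16560856))) (b (l 16555888) (a (l 16535336) (l 16508928)))) (a (l 6) (a (l 6) (a (l 6) (l 1)))))) (a (l 6) (a (l 6) (l 1)))) (b (a (b (a (b (l 16504304) (l 16530608)) (l 1)) (l 1)) (l 1)) (l 1))) (l 1)), by decide +kernel⟩

def k6_pm_022 : ∃ t, chk3 f_pm_022 t 3 1 1 = true :=
  ⟨(l 1), by decide +kernel⟩

theorem s7_pm_022 : ∃ t, chk3 f_pm_022 t 8 6 1 = true := ex3_b k1_pm_022 k2_pm_022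

theorem s8_pm_022 : ∃ t, chk3 f_pm_022 t 4 6 1 = true := ex3_a s7_pm_022 k3_pm_022

theorem s9_pm_022 : ∃ t, chk3 f_pm_022 t 2 6 1 = true := ex3_a s8_pm_022 k4_pm_022

theorem s10_pm_022 : ∃ t, chk3 f_pm_022 t 2 3 1 = true := ex3_b s9_pm_022 k5_pm_022

theorem s11_pm_022 : ∃ t, chk3 f_pm_022 t 2 1 1 = true := ex3_b k0_pm_022 s10_pm_022

theorem s12_pm_022 : ∃ t, chk3 f_pm_022 t 1 1 1 = true := ex3_a s11_pm_022 k6_pm_022

theorem c_pm_022 : CertB 0 536870912 0 536870912 740881858 40050571 3 eng mog cd2q0 cd0q2 pd2 false true false .pp 0 2 2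
    ndB2q0 ndB0q2 pcB2 cut_pm_022 Ext.none :=
  certB0 (fam := false) (s1 := true) (s2 := false) (a := 0) (b := 2) (c := 2) (cn := .pp) (n1 := ndB2q0) (n2 := ndB0q2) (pc := pcB2) (cut := cut_pm_022) (xt := Ext.none) (P1 := 0) (W1 := 536870912) (P2 := 0) (W2 := 536870912) (P3 := 740881858) (W3 := 40050571) (N0 := 3) (En := eng) (mo := mog) (C1 := cd2q0) (C2 := cd0q2) (C3 := pd2)
    rfl s12_pm_022

noncomputable def f_pm_101 : ℕ → ℕ → ℕ → ℕ → Bool := onCell 0 536870912 536870912 536870912 740881858 40050571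
    (rowB 3 eng mog cd2q1 cd0q1 pd0 2 false true false .npn 1 0 1 (qsf 536870912 536870912 536870912 536870912 0) ndB2q1 ndB0q1 pcB0 Cut.none Ext.none)

def k0_pm_101 : ∃ t, chk3 f_pm_101 t 1 1 1 = true :=
  ⟨(a (b (l 4) (b (a (b (l 4) (a (b (l 4) (a (l 16022584) (l 4))) (l 4))) (l 4)) (a (b (a (b (a (l 15976008) (l 15982816)) (a (l 15972296) (l 15960648))) (b (a (l 15986448) (l 16004168)) (a (l 15943344) (l 15950832)))) (a (b (a (b (l 15987528) (l 16009168)) (l 16097728)) (a (b (a (a (l 16045816) (l 16037992)) (l 16025008)) (b (a (b (l 16060944) (l 16069696)) (l 16043160)) (a (l 16078936) (l 16053304)))) (b (l 15994072) (a (l 16022120) (l 16013344))))) (b (a (l 15938400) (l 15946232)) (a (b (l 15960688) (l 16010912)) (l 15993104))))) (b (a (b (l 16210464) (a (l 15986472) (l 16019664))) (b (l 4) (a (l 16051632) (l 16082784)))) (a (b (l 16133312) (a (l 16003200) (l 16014824))) (b (l 16034336) (l 16034968))))))) (b (l 4) (b (l 4) (a (b (a (b (l 4) (l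 16127760)) (l 4)) (a (b (l 16082208) (l 16068216)) (b (a (l 16117760) (l 16141080)) (l 16103344)))) (b (l 4) (a (b (l 16301424) (l 16137312)) (b (l 4) (l 16342584)))))))), by decide +kernel⟩

theorem c_pm_101 : CertB 536870912 536870912 536870912 536870912 740881858 40050571 3 eng mog cd2q1 cd0q1 pd0 false true false .npn 1 0 1
    ndB2q1 ndB0q1 pcB0 Cut.none Ext.none :=
  certB2 (fam := false) (s1 := true) (s2 := false) (a := 1) (b := 0) (c := 1) (cn := .npn) (n1 := ndB2q1) (n2 := ndB0q1) (pc := pcB0) (cut := Cut.none) (xt := Ext.none) (P1 := 536870912) (W1 := 536870912) (P2 := 536870912) (W2 := 536870912) (P3 := 740881858) (W3 := 40050571) (N0 := 3) (En := eng) (mo := mog) (C1 := cd2q1) (C2 := cd0q1) (C3 := pd0)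
    rfl (fun _ => rfl) k0_pm_101

noncomputable def f_pm_102 : ℕ → ℕ → ℕ → ℕ → Bool := onCell 0 536870912 0 536870912 740881858 40050571
    (rowB 3 eng mog cd2q1 cd0q2 pd0 2 false true false .npp 1 0 2 (qsf 536870912 536870912 0 536870912 0) ndB2q1 ndB0q2 pcB0 Cut.none Ext.none)

def k0_pm_102 : ∃ t, chk3 f_pm_102 t 2 2 1 = true :=
  ⟨(a (b (l 2) (a (l 2) (b (l 2) (a (l 2) (b (l 2) (l 16477088)))))) (b (a (b (a (a (l 2) (a (l 2) (b (l 16603912) (l 16571688)))) (b (b (l 16526336) (l 16521584)) (l 16512360))) (a (b (b (l 16521672) (l 16514136)) (l 16503808)) (b (a (l 16504512) (l 16498888)) (l 16491344)))) (a (b (b (a (l 16512976) (l 16506208)) (l 16499616)) (b (a (l 16494152) (l 16489656)) (l 16482968))) (b (b (l 16499720) (l 16490832)) (l 16501728)))) (a (b (a (b (l 16491920) (l 16482680)) (l 16480192)) (a (b (l 16476424) (l 16473512)) (l 16474184))) (b (a (a (l 16476360) (l 16472256)) (l 16466808)) (a (b (l 16469312) (l 16468568)) (l 16458480)))))),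 by decide +kernel⟩

def k1_pm_102 : ∃ t, chk3 f_pm_102 t 2 3 1 = true :=
  ⟨(b (a (a (l 2) (b (a (l 2) (b (b (l 16470464) (l 16456032)) (l 16429112))) (a (b (a (l 2) (l 16387768)) (l 16462560)) (b (l 16393064) (l 16354240))))) (a (b (b (a (b (l 16470000) (l 16459048)) (l 16468392)) (a (l 16434200) (l 16438720))) (a (b (l 16398416) (l 16356528)) (l 16379296))) (b (b (a (l 16526376) (l 16448096)) (a (l 16435072) (l 16420968))) (a (l 16455776) (l 16357344))))) (a (a (a (a (b (l 2) (b (l 2) (b (l 27479936423) (b (a (l 16132520) (l 16131968)) (a (l 16110888) (l 16106712)))))) (b (l 2) (b (b (l 16225272) (b (l 31775090839) (l 16190376))) (b (a (b (l 16172336) (l 16153056)) (l 16161976)) (b (l 16127280) (l 16095736)))))) (b (b (a (l 2) (l 16297536)) (a (b (l 2) (l 16244432)) (l 16258616))) (b (b (a (l 16225648) (l 16225408)) (a (l 16200896) (l 16193776))) (b (l 16152024) (l 16094120))))) (b (a (b (a (l 16302512) (l 16305968)) (l 16260720)) (b (l 16307504)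 (l 16253792))) (b (a (b (l 16239880) (l 16180584)) (b (l 16204968) (l 16161792))) (a (l 16103496) (l 16087768))))) (b (a (b (a (l 16303448) (l 16295568)) (a (l 16241808) (l 16227336))) (b (l 16278352) (c (l 16378272) (l 16358336)))) (a (b (a (l 16170776) (l 16157800)) (l 16077144)) (b (l 16147928) (l 16079344)))))), by decide +kernel⟩

def k2_pm_102 : ∃ t, chk3 f_pm_102 t 3 1 1 = true :=
  ⟨(a (b (b (a (a (b (b (l 16494328) (l 16486136)) (l 16476304)) (b (l 16487336) (l 16474840))) (b (b (l 16488408) (l 16481248)) (l 16469624))) (a (a (b (l 16463504) (l 16453144)) (b (l 16463560) (l 16453256))) (b (l 16538144) (a (l 16447272) (l 16426288))))) (a (b (a (b (b (l 16440512) (l 16413720)) (l 16348992)) (b (l 16428800) (l 16347416))) (b (a (b (l 16265448) (l 16204824)) (l 16254328)) (l 16123464))) (b (a (b (l 16588384) (l 16342376)) (b (l 16393056) (l 16320760))) (b (a (l 16318328) (l 16224264)) (l 16286232))))) (b (b (b (a (l 16479432) (l 16475144)) (l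 16509616)) (b (l 16433568) (l 16564680))) (b (b (a (l 16351672) (l 16315480)) (a (l 16291064) (l 16269392))) (b (a (l 16276632) (l 16218024)) (a (l 16152248) (l 16176264)))))), by decide +kernel⟩

theorem s3_pm_102 : ∃ t, chk3 f_pm_102 t 2 1 1 = true := ex3_b k0_pm_102 k1_pm_102

theorem s4_pm_102 : ∃ t, chk3 f_pm_102 t 1 1 1 = true := ex3_a s3_pm_102 k2_pm_102

theorem c_pm_102 : CertB 536870912 536870912 0 536870912 740881858 40050571 3 eng mog cd2q1 cd0q2 pd0 false true false .npp 1 0 2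
    ndB2q1 ndB0q2 pcB0 Cut.none Ext.none :=
  certB2 (fam := false) (s1 := true) (s2 := false) (a := 1) (b := 0) (c := 2) (cn := .npp) (n1 := ndB2q1) (n2 := ndB0q2) (pc := pcB0) (cut := Cut.none) (xt := Ext.none) (P1 := 536870912) (W1 := 536870912) (P2 := 0) (W2 := 536870912) (P3 := 740881858) (W3 := 40050571) (N0 := 3) (En := eng) (mo := mog) (C1 := cd2q1) (C2 := cd0q2) (C3 := pd0)
    rfl (fun _ => rfl) s4_pm_102

noncomputable def f_pm_112 : ℕ → ℕ → ℕ → ℕ → Bool := onCell 536870912 536870912 0 536870912 740881858 40050571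
    (rowB 3 eng mog cd2q1 cd0q2 pd1 2 false true false .dn 1 1 2 (qsf 536870912 536870912 0 536870912 1) ndB2q1 ndB0q2 pcB1 Cut.none Ext.none)

def k0_pm_112 : ∃ t, chk3 f_pm_112 t 1 1 1 = true :=
  ⟨(a (b (b (a (a (l 16397968) (l 16369056)) (b (l 16346880) (l 16306800))) (a (b (l 16327136) (l 16297152)) (b (l 16268328) (l 291553874503)))) (b (a (b (a (l 16273360) (l 16255920)) (a (l 16242664) (l 16227512))) (l 1)) (a (b (b (l 16213392) (l 101501510887)) (a (l 16189576) (l 1))) (l 1)))) (l 1)), by decide +kernel⟩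

theorem c_pm_112 : CertB 536870912 536870912 0 536870912 740881858 40050571 3 eng mog cd2q1 cd0q2 pd1 false true false .dn 1 1 2
    ndB2q1 ndB0q2 pcB1 Cut.none Ext.none :=
  certB2 (fam := false) (s1 := true) (s2 := false) (a := 1) (b := 1) (c := 2) (cn := .dn) (n1 := ndB2q1) (n2 := ndB0q2) (pc := pcB1) (cut := Cut.none) (xt := Ext.none) (P1 := 536870912) (W1 := 536870912) (P2 := 0) (W2 := 536870912) (P3 := 740881858) (W3 := 40050571) (N0 := 3) (En := eng) (mo := mog) (C1 := cd2q1) (C2 := cd0q2) (C3 := pd1)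
    rfl (fun _ => rfl) k0_pm_112

noncomputable def cut_pm_202_a : Cut := Cut.of [[⟨0, 1, 0, 67108864⟩, ⟨1, 0, 0, 67108864⟩, ⟨2, 1, 0, 67108864⟩]]

noncomputable def f_pm_202_a : ℕ → ℕ → ℕ → ℕ → Bool := onCell 0 536870912 0 536870912 740881858 40050571
    (rowB 3 eng mog cd2q2a cd0q2 pd0 0 false true false .pp 2 0 2 (qsf 0 536870912 0 536870912 0) ndB2q2a ndB0q2 pcB0 cut_pm_202_a Ext.none)

def k0_pm_202_a : ∃ t, chk3 f_pm_202_a t 1 1 1 = true :=
  ⟨(a (l 3) (b (l 3) (b (l 3) (a (l 3) (b (l 3) (a (l 3) (l 6))))))), by decide +kernel⟩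

theorem c_pm_202_a : CertB 0 536870912 0 536870912 740881858 40050571 3 eng mog cd2q2a cd0q2 pd0 false true false .pp 2 0 2
    ndB2q2a ndB0q2 pcB0 cut_pm_202_a Ext.none :=
  certB0 (fam := false) (s1 := true) (s2 := false) (a := 2) (b := 0) (c := 2) (cn := .pp) (n1 := ndB2q2a) (n2 := ndB0q2) (pc := pcB0) (cut := cut_pm_202_a) (xt := Ext.none) (P1 := 0) (W1 := 536870912) (P2 := 0) (W2 := 536870912) (P3 := 740881858) (W3 := 40050571) (N0 := 3) (En := eng) (mo := mog) (C1 := cd2q2a) (C2 := cd0q2) (C3 := pd0)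
    rfl k0_pm_202_a

noncomputable def cut_pm_202_b : Cut := Cut.of [[⟨0, 1, 0, 67108864⟩, ⟨1, 0, 0, 67108864⟩, ⟨2, 1, 0, 67108864⟩]]

noncomputable def f_pm_202_b : ℕ → ℕ → ℕ → ℕ → Bool := onCell 1239849684 370763052 0 536870912 740881858 40050571
    (rowB 3 eng mog cd2q2b cd0q2 pd0 0 false true false .pp 2 0 2 (qsf 1239849684 370763052 0 536870912 0) ndB2q2b ndB0q2 pcB0 cut_pm_202_b Ext.none)

def k0_pm_202_b : ∃ t, chk3 f_pm_202_b t 1 1 1 = true :=
  ⟨(l 3), by decide +kernel⟩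

theorem c_pm_202_b : CertB 1239849684 370763052 0 536870912 740881858 40050571 3 eng mog cd2q2b cd0q2 pd0 false true false .pp 2 0 2
    ndB2q2b ndB0q2 pcB0 cut_pm_202_b Ext.none :=
  certB0 (fam := false) (s1 := true) (s2 := false) (a := 2) (b := 0) (c := 2) (cn := .pp) (n1 := ndB2q2b) (n2 := ndB0q2) (pc := pcB0) (cut := cut_pm_202_b) (xt := Ext.none) (P1 := 1239849684) (W1 := 370763052) (P2 := 0) (W2 := 536870912) (P3 := 740881858) (W3 := 40050571) (N0 := 3) (En := eng) (mo := mog) (C1 := cd2q2b) (C2 := cd0q2) (C3 := pd0)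
    rfl k0_pm_202_b

noncomputable def f_mm_001 : ℕ → ℕ → ℕ → ℕ → Bool := onCell 0 536870912 536870912 536870912 740881858 40050571
    (rowB 3 eng mog cd2q0 cd0q1 pd0 0 false false false .up 0 0 1 (qsf 0 536870912 536870912 536870912 0) ndB2q0 ndB0q1 pcB0 Cut.none Ext.none)

def k0_mm_001 : ∃ t, chk3 f_mm_001 t 1 1 1 = true :=
  ⟨(l 5), by decide +kernel⟩

theorem c_mm_001 : CertB 0 536870912 536870912 536870912 740881858 40050571 3 eng mog cd2q0 cd0q1 pd0 false false false .up 0 0 1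
    ndB2q0 ndB0q1 pcB0 Cut.none Ext.none :=
  certB0 (fam := false) (s1 := false) (s2 := false) (a := 0) (b := 0) (c := 1) (cn := .up) (n1 := ndB2q0) (n2 := ndB0q1) (pc := pcB0) (cut := Cut.none) (xt := Ext.none) (P1 := 0) (W1 := 536870912) (P2 := 536870912) (W2 := 536870912) (P3 := 740881858) (W3 := 40050571) (N0 := 3) (En := eng) (mo := mog) (C1 := cd2q0) (C2 := cd0q1) (C3 := pd0)
    rfl k0_mm_001

noncomputable def f_mm_011 : ℕ → ℕ → ℕ → ℕ → Bool := onCell 0 536870912 536870912 536870912 740881858 40050571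
    (rowB 3 eng mog cd2q0 cd0q1 pd1 0 false false false .pnn 0 1 1 (qsf 0 536870912 536870912 536870912 1) ndB2q0 ndB0q1 pcB1 Cut.none Ext.none)

def k0_mm_011 : ∃ t, chk3 f_mm_011 t 1 1 1 = true :=
  ⟨(l 5), by decide +kernel⟩

theorem c_mm_011 : CertB 0 536870912 536870912 536870912 740881858 40050571 3 eng mog cd2q0 cd0q1 pd1 false false false .pnn 0 1 1
    ndB2q0 ndB0q1 pcB1 Cut.none Ext.none :=
  certB0 (fam := false) (s1 := false) (s2 := false) (a := 0) (b := 1) (c := 1) (cn := .pnn) (n1 := ndB2q0) (n2 := ndB0q1) (pc := pcB1) (cut := Cut.none) (xt := Ext.none) (P1 := 0) (W1 := 536870912) (P2 := 536870912) (W2 := 536870912) (P3 := 740881858) (W3 := 40050571) (N0 := 3) (En := eng) (mo := mog) (C1 := cd2q0) (C2 := cd0q1) (C3 := pd1)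
    rfl k0_mm_011

noncomputable def f_mm_012 : ℕ → ℕ → ℕ → ℕ → Bool := onCell 0 536870912 0 536870912 740881858 40050571
    (rowB 3 eng mog cd2q0 cd0q2 pd1 0 false false false .pnp 0 1 2 (qsf 0 536870912 0 536870912 1) ndB2q0 ndB0q2 pcB1 Cut.none Ext.none)

def k0_mm_012 : ∃ t, chk3 f_mm_012 t 1 1 1 = true :=
  ⟨(l 5), by decide +kernel⟩

theorem c_mm_012 : CertB 0 536870912 0 536870912 740881858 40050571 3 eng mog cd2q0 cd0q2 pd1 false false false .pnp 0 1 2
    ndB2q0 ndB0q2 pcB1 Cut.none Ext.none :=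
  certB0 (fam := false) (s1 := false) (s2 := false) (a := 0) (b := 1) (c := 2) (cn := .pnp) (n1 := ndB2q0) (n2 := ndB0q2) (pc := pcB1) (cut := Cut.none) (xt := Ext.none) (P1 := 0) (W1 := 536870912) (P2 := 0) (W2 := 536870912) (P3 := 740881858) (W3 := 40050571) (N0 := 3) (En := eng) (mo := mog) (C1 := cd2q0) (C2 := cd0q2) (C3 := pd1)
    rfl k0_mm_012

noncomputable def f_mm_022 : ℕ → ℕ → ℕ → ℕ → Bool := onCell 0 536870912 0 536870912 740881858 40050571
    (rowB 3 eng mog cd2q0 cd0q2 pd2 0 false false false .pp 0 2 2 (qsf 0 536870912 0 536870912 2) ndB2q0 ndB0q2 pcB2 Cut.none Ext.none)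

def k0_mm_022 : ∃ t, chk3 f_mm_022 t 1 1 1 = true :=
  ⟨(l 5), by decide +kernel⟩

theorem c_mm_022 : CertB 0 536870912 0 536870912 740881858 40050571 3 eng mog cd2q0 cd0q2 pd2 false false false .pp 0 2 2
    ndB2q0 ndB0q2 pcB2 Cut.none Ext.none :=
  certB0 (fam := false) (s1 := false) (s2 := false) (a := 0) (b := 2) (c := 2) (cn := .pp) (n1 := ndB2q0) (n2 := ndB0q2) (pc := pcB2) (cut := Cut.none) (xt := Ext.none) (P1 := 0) (W1 := 536870912) (P2 := 0) (W2 := 536870912) (P3 := 740881858) (W3 := 40050571) (N0 := 3) (En := eng) (mo := mog) (C1 := cd2q0) (C2 := cd0q2) (C3 := pd2)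
    rfl k0_mm_022

noncomputable def f_mm_101 : ℕ → ℕ → ℕ → ℕ → Bool := onCell 536870912 536870912 536870912 536870912 740881858 40050571
    (rowB 3 eng mog cd2q1 cd0q1 pd0 0 false false false .npn 1 0 1 (qsf 536870912 536870912 536870912 536870912 0) ndB2q1 ndB0q1 pcB0 Cut.none Ext.none)

def k0_mm_101 : ∃ t, chk3 f_mm_101 t 1 1 1 = true :=
  ⟨(l 3), by decide +kernel⟩

theorem c_mm_101 : CertB 536870912 536870912 536870912 536870912 740881858 40050571 3 eng mog cd2q1 cd0q1 pd0 false false false .npn 1 0 1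
    ndB2q1 ndB0q1 pcB0 Cut.none Ext.none :=
  certB0 (fam := false) (s1 := false) (s2 := false) (a := 1) (b := 0) (c := 1) (cn := .npn) (n1 := ndB2q1) (n2 := ndB0q1) (pc := pcB0) (cut := Cut.none) (xt := Ext.none) (P1 := 536870912) (W1 := 536870912) (P2 := 536870912) (W2 := 536870912) (P3 := 740881858) (W3 := 40050571) (N0 := 3) (En := eng) (mo := mog) (C1 := cd2q1) (C2 := cd0q1) (C3 := pd0)
    rfl k0_mm_101

noncomputable def f_mm_102 : ℕ → ℕ → ℕ → ℕ → Bool := onCell 536870912 536870912 0 536870912 740881858 40050571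
    (rowB 3 eng mog cd2q1 cd0q2 pd0 0 false false false .npp 1 0 2 (qsf 536870912 536870912 0 536870912 0) ndB2q1 ndB0q2 pcB0 Cut.none Ext.none)

def k0_mm_102 : ∃ t, chk3 f_mm_102 t 1 1 1 = true :=
  ⟨(l 5), by decide +kernel⟩

theorem c_mm_102 : CertB 536870912 536870912 0 536870912 740881858 40050571 3 eng mog cd2q1 cd0q2 pd0 false false false .npp 1 0 2
    ndB2q1 ndB0q2 pcB0 Cut.none Ext.none :=
  certB0 (fam := false) (s1 := false) (s2 := false) (a := 1) (b := 0) (c := 2) (cn := .npp) (n1 := ndB2q1) (n2 := ndB0q2) (pc := pcB0) (cut := Cut.none) (xt := Ext.none) (P1 := 536870912) (W1 := 536870912) (P2 := 0) (W2 := 536870912) (P3 := 740881858) (W3 := 40050571) (N0 := 3) (En := eng) (mo := mog) (C1 := cd2q1) (C2 := cd0q2) (C3 := pd0)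
    rfl k0_mm_102

noncomputable def f_mm_112 : ℕ → ℕ → ℕ → ℕ → Bool := onCell 536870912 536870912 0 536870912 740881858 40050571
    (rowB 3 eng mog cd2q1 cd0q2 pd1 0 false false false .dn 1 1 2 (qsf 536870912 536870912 0 536870912 1) ndB2q1 ndB0q2 pcB1 Cut.none Ext.none)

def k0_mm_112 : ∃ t, chk3 f_mm_112 t 1 1 1 = true :=
  ⟨(l 5), by decide +kernel⟩

theorem c_mm_112 : CertB 536870912 536870912 0 536870912 740881858 40050571 3 eng mog cd2q1 cd0q2 pd1 false false false .dn 1 1 2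
    ndB2q1 ndB0q2 pcB1 Cut.none Ext.none :=
  certB0 (fam := false) (s1 := false) (s2 := false) (a := 1) (b := 1) (c := 2) (cn := .dn) (n1 := ndB2q1) (n2 := ndB0q2) (pc := pcB1) (cut := Cut.none) (xt := Ext.none) (P1 := 536870912) (W1 := 536870912) (P2 := 0) (W2 := 536870912) (P3 := 740881858) (W3 := 40050571) (N0 := 3) (En := eng) (mo := mog) (C1 := cd2q1) (C2 := cd0q2) (C3 := pd1)
    rfl k0_mm_112

noncomputable def f_mm_202_a : ℕ → ℕ → ℕ → ℕ → Bool := onCell 0 536870912 0 536870912 740881858 40050571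
    (rowB 3 eng mog cd2q2a cd0q2 pd0 0 false false false .pp 2 0 2 (qsf 0 536870912 0 536870912 0) ndB2q2a ndB0q2 pcB0 Cut.none Ext.none)

def k0_mm_202_a : ∃ t, chk3 f_mm_202_a t 1 1 1 = true :=
  ⟨(l 3), by decide +kernel⟩

theorem c_mm_202_a : CertB 0 536870912 0 536870912 740881858 40050571 3 eng mog cd2q2a cd0q2 pd0 false false false .pp 2 0 2
    ndB2q2a ndB0q2 pcB0 Cut.none Ext.none :=
  certB0 (fam := false) (s1 := false) (s2 := false) (a := 2) (b := 0) (c := 2) (cn := .pp) (n1 := ndB2q2a) (n2 := ndB0q2) (pc := pcB0) (cut := Cut.none) (xt := Ext.none) (P1 := 0) (W1 := 536870912) (P2 := 0) (W2 := 536870912) (P3 := 740881858) (W3 := 40050571) (N0 := 3) (En := eng) (mo := mog) (C1 := cd2q2a) (C2 := cd0q2) (C3 := pd0)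
    rfl k0_mm_202_a

noncomputable def f_mm_202_b : ℕ → ℕ → ℕ → ℕ → Bool := onCell 1239849684 370763052 0 536870912 740881858 40050571
    (rowB 3 eng mog cd2q2b cd0q2 pd0 0 false false false .pp 2 0 2 (qsf 1239849684 370763052 0 536870912 0) ndB2q2b ndB0q2 pcB0 Cut.none Ext.none)

def k0_mm_202_b : ∃ t, chk3 f_mm_202_b t 1 1 1 = true :=
  ⟨(l 3), by decide +kernel⟩

theorem c_mm_202_b : CertB 1239849684 370763052 0 536870912 740881858 40050571 3 eng mog cd2q2b cd0q2 pd0 false false false .pp 2 0 2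
    ndB2q2b ndB0q2 pcB0 Cut.none Ext.none :=
  certB0 (fam := false) (s1 := false) (s2 := false) (a := 2) (b := 0) (c := 2) (cn := .pp) (n1 := ndB2q2b) (n2 := ndB0q2) (pc := pcB0) (cut := Cut.none) (xt := Ext.none) (P1 := 1239849684) (W1 := 370763052) (P2 := 0) (W2 := 536870912) (P3 := 740881858) (W3 := 40050571) (N0 := 3) (En := eng) (mo := mog) (C1 := cd2q2b) (C2 := cd0q2) (C3 := pd0)
    rfl k0_mm_202_b

end Pool.Agent.Strip051.G.I69_7273.Tab.C.BB20

namespace Pool.Agent.Strip051.G.I69_7273.Tab.C.BB21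

open Pool.Agent.Strip051.PB Pool.Agent.Strip051.PB.T
open Pool.Agent.Strip051.G.I69_7273.Tab

noncomputable def f_pp_001 : ℕ → ℕ → ℕ → ℕ → Bool := onCell 0 536870912 0 536870912 740881858 40050571
    (rowB 3 eng mog cd2q0 cd1q1 pd0 1 false true true .up 0 0 1 (qsf 0 536870912 536870912 536870912 0) ndB2q0 ndB1q1 pcB0 Cut.none Ext.none)

def k0_pp_001 : ∃ t, chk3 f_pp_001 t 1 1 1 = true :=
  ⟨(l 3), by decide +kernel⟩

theorem c_pp_001 : CertB 0 536870912 536870912 536870912 740881858 40050571 3 eng mog cd2q0 cd1q1 pd0 false true true .up 0 0 1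
    ndB2q0 ndB1q1 pcB0 Cut.none Ext.none :=
  certB1 (fam := false) (s1 := true) (s2 := true) (a := 0) (b := 0) (c := 1) (cn := .up) (n1 := ndB2q0) (n2 := ndB1q1) (pc := pcB0) (cut := Cut.none) (xt := Ext.none) (P1 := 0) (W1 := 536870912) (P2 := 536870912) (W2 := 536870912) (P3 := 740881858) (W3 := 40050571) (N0 := 3) (En := eng) (mo := mog) (C1 := cd2q0) (C2 := cd1q1) (C3 := pd0)
    rfl (fun _ => rfl) k0_pp_001

noncomputable def f_pp_011 : ℕ → ℕ → ℕ → ℕ → Bool := onCell 0 536870912 536870912 536870912 740881858 40050571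
    (rowB 3 eng mog cd2q0 cd1q1 pd1 0 false true true .pnn 0 1 1 (qsf 0 536870912 536870912 536870912 1) ndB2q0 ndB1q1 pcB1 Cut.none Ext.none)

def k0_pp_011 : ∃ t, chk3 f_pp_011 t 1 1 1 = true :=
  ⟨(a (l 3) (l 3)), by decide +kernel⟩

theorem c_pp_011 : CertB 0 536870912 536870912 536870912 740881858 40050571 3 eng mog cd2q0 cd1q1 pd1 false true true .pnn 0 1 1
    ndB2q0 ndB1q1 pcB1 Cut.none Ext.none :=
  certB0 (fam := false) (s1 := true) (s2 := true) (a := 0) (b := 1) (c := 1) (cn := .pnn) (n1 := ndB2q0) (n2 := ndB1q1) (pc := pcB1) (cut := Cut.none) (xt := Ext.none) (P1 := 0) (W1 := 536870912) (P2 := 536870912) (W2 := 536870912) (P3 := 740881858) (W3 := 40050571) (N0 := 3) (En := eng) (mo := mog) (C1 := cd2q0) (C2 := cd1q1) (C3 := pd1)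
    rfl k0_pp_011

noncomputable def cut_pp_012_a : Cut := Cut.of [[⟨0, 0, 0, 67108864⟩, ⟨1, 1, 0, 67108864⟩, ⟨2, 1, 0, 67108864⟩]]

noncomputable def f_pp_012_a : ℕ → ℕ → ℕ → ℕ → Bool := onCell 536870912 536870912 0 536870912 740881858 40050571
    (rowB 3 eng mog cd2q0 cd1q2a pd1 2 false true true .pnp 0 1 2 (qsf 0 536870912 0 536870912 1) ndB2q0 ndB1q2a pcB1 cut_pp_012_a Ext.none)

def k0_pp_012_a : ∃ t, chk3 f_pp_012_a t 2 1 1 = true :=
  ⟨(a (b (a (l 2) (b (l 2) (b (l 2) (a (l 2) (l 16571232))))) (a (l 3) (a (l 3) (b (b (l 192367094199) (l 3)) (l 3))))) (b (a (b (b (l 16549328) (l 16577568)) (b (a (l 16596192) (l 16594968)) (a (l 16585480) (l 16597872)))) (b (l 16552704) (b (a (l 16595264) (l 16595752)) (a (l 16608344) (l 16617592))))) (b (a (b (a (b (l 16546032) (l 180019155351)) (b (l 16541216) (l 152101933255))) (l 3)) (a (b (l 16624832) (l 229948198247)) (b (l 16584696) (b (l 16608584) (l 291151482023))))) (l 3)))), by decide +kernel⟩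

def k1_pp_012_a : ∃ t, chk3 f_pp_012_a t 6 1 1 = true :=
  ⟨(b (a (b (l 16543952) (b (l 16615048) (a (l 16624360) (l 16628672)))) (b (l 16575936) (b (l 16585256) (a (l 16628936) (l 16625416))))) (a (b (b (a (l 16623008) (b (l 16651344) (l 16643752))) (a (b (l 16609920) (b (l 16636280) (l 211157776135))) (b (l 16632912) (a (l 16662864) (l 16671912))))) (b (a (l 3) (b (b (a (l 213842210007) (l 16680976)) (l 3)) (l 3))) (l 3))) (b (b (a (b (l 16659336) (l 16672336)) (b (l 16658824) (l 16679912))) (a (b (l 16630624) (a (l 16676504) (l 16678680))) (b (l 16691576) (a (l 16681216) (l 16686296))))) (b (b (a (a (b (l 16706048) (l 165523891559)) (b (l 16705080) (l 16706168))) (a (l 16716344) (l 16712344))) (a (l 3) (a (l 209010523607) (a (l 206326162551) (l 200420586007))))) (l 3))))), by decide +kernel⟩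

def k2_pp_012_a : ∃ t, chk3 f_pp_012_a t 7 1 1 = true :=
  ⟨(b (a (b (a (l 16525744) (l 16521672)) (b (l 16572968) (a (l 16619480) (l 16613576)))) (b (a (l 16499288) (l 16521840)) (a (b (l 16567024) (l 16609056)) (b (l 16566792) (l 16608120))))) (a (b (b (a (b (l 16654600) (l 16677136)) (l 16660088)) (a (b (l 16698264) (l 16773040)) (b (l 16689880) (l 16708400)))) (b (b (a (a (l 16711280) (l 16709800)) (a (l 16714864) (l 16722216))) (a (b (a (l 16738712) (l 16732216)) (a (l 202031193063) (l 16730600))) (a (b (l 16725616) (l 16741824)) (l 16708304)))) (b (a (b (a (l 3) (l 269140069559)) (l 3)) (b (a (a (l 183777662919) (l 16778344)) (a (l 16752584) (l 16749848))) (a (b (l 273435042807) (l 3)) (a (l 271287571527) (a (l 265918854919) (l 240685969095)))))) (l 3)))) (b (b (a (l 16655056) (l 16654328)) (a (b (l 16684232) (l 16700536)) (b (l 16681704) (l 16656992)))) (b (a (b (l 16717064) (a (l 16738632) (l 16737456))) (a (b (l 16712912) (l 16733584)) (b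 (l 16711552) (b (l 16725104) (l 16735360))))) (a (b (a (b (l 16748328) (b (l 16759152) (a (l 201494385479) (l 16766184)))) (b (l 16752200) (a (l 16761888) (l 16761304)))) (b (a (b (a (l 3) (l 228874776327)) (l 3)) (b (a (b (l 16770648) (l 198810033719)) (l 6)) (l 6))) (l 3))) (b (a (b (l 16750496) (l 6)) (l 6)) (l 6))))))), by decide +kernel⟩

theorem s3_pp_012_a : ∃ t, chk3 f_pp_012_a t 3 1 1 = true := ex3_a k1_pp_012_a k2_pp_012_a

theorem s4_pp_012_a : ∃ t, chk3 f_pp_012_a t 1 1 1 = true := ex3_a k0_pp_012_a s3_pp_012_a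

theorem c_pp_012_a : CertB 0 536870912 0 536870912 740881858 40050571 3 eng mog cd2q0 cd1q2a pd1 false true true .pnp 0 1 2
    ndB2q0 ndB1q2a pcB1 cut_pp_012_a Ext.none :=
  certB2 (fam := false) (s1 := true) (s2 := true) (a := 0) (b := 1) (c := 2) (cn := .pnp) (n1 := ndB2q0) (n2 := ndB1q2a) (pc := pcB1) (cut := cut_pp_012_a) (xt := Ext.none) (P1 := 0) (W1 := 536870912) (P2 := 0) (W2 := 536870912) (P3 := 740881858) (W3 := 40050571) (N0 := 3) (En := eng) (mo := mog) (C1 := cd2q0) (C2 := cd1q2a) (C3 := pd1)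
    rfl (fun _ => rfl) s4_pp_012_a

noncomputable def cut_pp_012_b : Cut := Cut.of [[⟨0, 0, 0, 67108864⟩, ⟨1, 1, 0, 67108864⟩, ⟨2, 1, 0, 67108864⟩]]

noncomputable def f_pp_012_b : ℕ → ℕ → ℕ → ℕ → Bool := onCell 536870912 536870912 1239849684 370763052 740881858 40050571
    (rowB 3 eng mog cd2q0 cd1q2b pd1 2 false true true .pnp 0 1 2 (qsf 0 536870912 1239849684 370763052 1) ndB2q0 ndB1q2b pcB1 cut_pp_012_b Ext.none)

def k0_pp_012_b : ∃ t, chk3 f_pp_012_b t 1 1 1 = true :=
  ⟨(a (a (l 2) (b (b (a (l 16505680) (l 16480136)) (l 16454264)) (l 2))) (b (a (b (a (l 16457736) (b (l 16469080) (l 16405808))) (a (l 16382416) (l 16336048))) (a (b (b (l 16475784) (l 16378656)) (l 16288328)) (b (a (b (l 16448336) (l 16360360)) (b (l 16468480) (l 16348552))) (b (l 16270864) (l 16200440))))) (a (b (l 16327056) (l 2)) (b (a (l 16217720) (l 16126496)) (l 16214968))))), by decide +kernel⟩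

theorem c_pp_012_b : CertB 0 536870912 1239849684 370763052 740881858 40050571 3 eng mog cd2q0 cd1q2b pd1 false true true .pnp 0 1 2
    ndB2q0 ndB1q2b pcB1 cut_pp_012_b Ext.none :=
  certB2 (fam := false) (s1 := true) (s2 := true) (a := 0) (b := 1) (c := 2) (cn := .pnp) (n1 := ndB2q0) (n2 := ndB1q2b) (pc := pcB1) (cut := cut_pp_012_b) (xt := Ext.none) (P1 := 0) (W1 := 536870912) (P2 := 1239849684) (W2 := 370763052) (P3 := 740881858) (W3 := 40050571) (N0 := 3) (En := eng) (mo := mog) (C1 := cd2q0) (C2 := cd1q2b) (C3 := pd1)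
    rfl (fun _ => rfl) k0_pp_012_b

noncomputable def cut_pp_022_a : Cut := Cut.of [[⟨0, 0, 0, 67108864⟩, ⟨1, 1, 0, 67108864⟩, ⟨2, 1, 0, 67108864⟩]]

noncomputable def f_pp_022_a : ℕ → ℕ → ℕ → ℕ → Bool := onCell 0 536870912 0 536870912 740881858 40050571
    (rowB 3 eng mog cd2q0 cd1q2a pd2 0 false true true .pp 0 2 2 (qsf 0 536870912 0 536870912 2) ndB2q0 ndB1q2a pcB2 cut_pp_022_a Ext.none)

def k0_pp_022_a : ∃ t, chk3 f_pp_022_a t 2 2 1 = true :=
  ⟨(a (a (b (b (a (a (a (b (l 16447016) (l 16456528)) (b (c (l 16432448) (l 16407936)) (l 16415936))) (c (l 16452096) (l 16430752))) (a (l 16387464) (l 16477240))) (a (a (b (c (l 16458256) (l 16392328)) (a (c (l 16407176) (l 16383360)) (l 16415464))) (c (a (l 16443336) (l 16460240)) (b (l 16429384) (l 16433048)))) (a (c (l 16483264) (l 16466360)) (l 16499216)))) (a (a (b (a (b (c (a (l 16405664) (l 16416112)) (l 16388008)) (c (a (l 16413688) (l 16424880)) (a (l 16391464) (l 16403048)))) (b (l 16462896)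 (c (l 16441272) (l 16420112)))) (a (b (b (c (l 16428976) (l 16407552)) (c (l 16437440) (l 16416368))) (c (b (l 16447592) (l 16459592)) (b (l 16426832) (l 16439064)))) (c (b (l 16456616) (b (l 16472080) (l 16483488))) (b (l 16436032) (b (l 16451840) (l 16463808)))))) (a (b (b (l 16441304) (l 16434416)) (b (c (l 16478480) (l 16458928)) (b (l 16462616) (l 16493376)))) (b (c (l 16475856) (l 16447040)) (b (a (l 16483952) (l 16492232)) (l 16505648))))) (b (a (c (l 16498864) (l 16483424)) (l 16519752)) (a (c (l 16526512) (l 16514952)) (c (l 16554200) (l 16548376)))))) (b (a (c (b (l 16459072) (l 16481136)) (l 16584632)) (b (l 16440480) (l 16522520))) (a (b (c (l 16509008) (l 16513320)) (a (l 16546368) (l 16427112))) (a (b (l 16490456) (l 16578608)) (b (l 16474704) (a (l 16502328) (l 16513888))))))) (a (b (b (a (l 16411872) (l 1)) (a (l 139082617271) (l 1))) (a (b (a (l 16478384) (l 256120488599)) (a (b (l 16472904) (l 249678076999)) (l 1))) (l 1))) (l 1))),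 by decide +kernel⟩

def k1_pp_022_a : ∃ t, chk3 f_pp_022_a t 2 6 1 = true :=
  ⟨(a (a (b (c (a (a (b (a (b (a (l 16466936) (l 16479736)) (a (l 16481552) (l 16492224))) (b (l 16494696) (l 16505408))) (a (b (l 16497896) (l 16509456)) (l 16522456))) (b (l 16525144) (b (l 16543120) (l 16556288)))) (a (b (l 16556760) (l 16583992)) (l 16589248))) (a (a (b (a (b (a (l 16446520) (l 16459576)) (a (l 16461400) (l 16473192))) (b (l 16476216) (l 16488816))) (a (b (l 16500520) (l 16492752)) (l 16508400))) (b (l 16407520) (b (l 16533312) (l 16548160)))) (a (b (l 16550120) (l 16580824)) (l 16589552)))) (a (a (b (a (b (c (l 16522712) (l 16507816)) (a (l 16525992) (l 16537152))) (b (l 16536864) (l 16553680))) (a (b (c (l 16555264) (l 16544544)) (a (c (l 16569592) (l 16560392)) (l 16577040))) (b (l 16593832) (l 16636152)))) (a (b (l 16629328) (b (l 16594704) (l 16615768))) (b (l 16523928) (l 16625776)))) (b (a (l 16615832) (l 16611456)) (a (l 16644400) (l 16626344)))))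 (b (a (a (b (l 16567688) (l 16579608)) (b (l 16551224) (l 16561592))) (b (a (l 16532856) (l 16554712)) (a (l 16541624) (l 1)))) (a (b (a (l 16613264) (l 192233055847)) (a (l 16605576) (l 403760165447))) (b (a (l 326450796855) (l 1)) (l 1))))) (l 1)), by decide +kernel⟩

def k2_pp_022_a : ∃ t, chk3 f_pp_022_a t 2 7 1 = true :=
  ⟨(a (a (a (b (b (b (a (a (a (b (c (l 16586200) (l 16578896)) (c (a (l 16595288) (l 16600960)) (l 16591944))) (b (l 16594616) (l 16606576))) (a (l 16632680) (l 16622552))) (l 16649216)) (a (a (a (b (a (b (l 16622232) (l 6)) (l 16609336)) (l 6)) (l 16622744)) (l 16639464)) (l 16672192))) (l 6)) (l 6)) (a (b (b (b (l 16654808) (l 16662928)) (l 6)) (l 6)) (b (b (b (l 16635376) (l 16642456)) (b (l 257731392071) (l 486438367063))) (l 1)))) (b (a (b (a (b (l 16613280) (l 411276408743)) (l 1)) (l 1)) (l 1)) (l 1))) (l 1)), by decide +kernel⟩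

def k3_pp_022_a : ∃ t, chk3 f_pp_022_a t 3 1 1 = true :=
  ⟨(l 1), by decide +kernel⟩

theorem s4_pp_022_a : ∃ t, chk3 f_pp_022_a t 2 3 1 = true := ex3_b k1_pp_022_a k2_pp_022_a

theorem s5_pp_022_a : ∃ t, chk3 f_pp_022_a t 2 1 1 = true := ex3_b k0_pp_022_a s4_pp_022_a

theorem s6_pp_022_a : ∃ t, chk3 f_pp_022_a t 1 1 1 = true := ex3_a s5_pp_022_a k3_pp_022_a

theorem c_pp_022_a : CertB 0 536870912 0 536870912 740881858 40050571 3 eng mog cd2q0 cd1q2a pd2 false true true .pp 0 2 2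
    ndB2q0 ndB1q2a pcB2 cut_pp_022_a Ext.none :=
  certB0 (fam := false) (s1 := true) (s2 := true) (a := 0) (b := 2) (c := 2) (cn := .pp) (n1 := ndB2q0) (n2 := ndB1q2a) (pc := pcB2) (cut := cut_pp_022_a) (xt := Ext.none) (P1 := 0) (W1 := 536870912) (P2 := 0) (W2 := 536870912) (P3 := 740881858) (W3 := 40050571) (N0 := 3) (En := eng) (mo := mog) (C1 := cd2q0) (C2 := cd1q2a) (C3 := pd2)
    rfl s6_pp_022_a

noncomputable def cut_pp_022_b : Cut := Cut.of [[⟨0, 0, 0, 67108864⟩, ⟨1, 1, 0, 67108864⟩, ⟨2, 1, 0, 67108864⟩]]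

noncomputable def f_pp_022_b : ℕ → ℕ → ℕ → ℕ → Bool := onCell 0 536870912 1073741824 536870912 740881858 40050571
    (rowB 3 eng mog cd2q0 cd1q2b pd2 1 false true true .pp 0 2 2 (qsf 0 536870912 1239849684 370763052 2) ndB2q0 ndB1q2b pcB2 cut_pp_022_b Ext.none)

def k0_pp_022_b : ∃ t, chk3 f_pp_022_b t 1 1 1 = true :=
  ⟨(b (a (b (a (a (b (l 1) (a (b (l 1) (b (l 1) (l 448319998695))) (b (a (l 1) (l 16513912)) (b (l 84321993527) (l 16540640))))) (b (b (a (l 1) (l 16527432)) (a (c (l 228739717047) (l 16514768)) (l 16535624))) (b (a (c (l 16448008) (l 16458968)) (l 16418808)) (a (l 16479312) (l 16387000))))) (b (a (b (a (l 16403360) (l 16327880)) (l 16423816)) (b (l 16224760) (l 16188632))) (a (b (l 16335408) (l 16268304)) (l 16364376)))) (a (b (b (b (a (a (a (l 497712091399) (l 16442176)) (l 16429488)) (l 16321640)) (a (a (a (c (a (l 16468248) (l 16423800)) (l 16420256)) (l 16408256)) (l 16397128)) (l 16337960))) (a (a (a (b (c (l 16383696) (l 16356672))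 (l 16325880)) (b (l 16367280) (l 16323808))) (l 16337432)) (l 16403080))) (a (a (b (a (l 16283608) (l 16262840)) (l 16209008)) (b (l 16260080) (l 16191320))) (l 16421656))) (b (a (b (l 16329960) (l 16163888)) (b (l 16080120) (l 16073032))) (a (l 16149120) (l 16088912))))) (b (a (b (a (l 16097048) (l 16018048)) (a (l 16044120) (l 15982928))) (b (l 15963592) (l 15957976))) (b (a (a (l 16155584) (l 15973544)) (l 15979752)) (a (l 16049800) (l 2))))) (b (a (a (a (b (a (b (l 16121920) (l 16064408)) (l 16103904)) (a (l 15993744) (l 16015424))) (b (l 16111808) (l 16042024))) (b (l 16147344) (l 16061760))) (a (b (l 16097424) (l 2)) (l 2))) (a (a (b (a (a (l 15927176) (l 15957504)) (l 15999128)) (a (l 15907808) (l 15976104))) (b (l 16055432) (l 2))) (l 2)))), by decide +kernel⟩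

theorem c_pp_022_b : CertB 0 536870912 1239849684 370763052 740881858 40050571 3 eng mog cd2q0 cd1q2b pd2 false true true .pp 0 2 2
    ndB2q0 ndB1q2b pcB2 cut_pp_022_b Ext.none :=
  certB1 (fam := false) (s1 := true) (s2 := true) (a := 0) (b := 2) (c := 2) (cn := .pp) (n1 := ndB2q0) (n2 := ndB1q2b) (pc := pcB2) (cut := cut_pp_022_b) (xt := Ext.none) (P1 := 0) (W1 := 536870912) (P2 := 1239849684) (W2 := 370763052) (P3 := 740881858) (W3 := 40050571) (N0 := 3) (En := eng) (mo := mog) (C1 := cd2q0) (C2 := cd1q2b) (C3 := pd2)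
    rfl (fun _ => rfl) k0_pp_022_b

noncomputable def f_pp_023 : ℕ → ℕ → ℕ → ℕ → Bool := onCell 1073741824 536870912 1610612736 536870912 740881858 40050571
    (rowB 3 eng mog cd2q0 cd1q3 pd2 2 false true true .up 0 2 3 (qsf 0 536870912 1610612736 536870912 2) ndB2q0 ndB1q3 pcB2 Cut.none Ext.none)

def k0_pp_023 : ∃ t, chk3 f_pp_023 t 1 1 1 = true :=
  ⟨(a (a (b (b (a (l 16003632) (l 15973888)) (l 16156976)) (l 2)) (b (a (b (l 15972416) (l 16077952)) (b (l 16052880) (l 16135624))) (b (a (l 2) (l 16304128)) (l 2)))) (a (b (b (a (l 16092616) (l 16040616)) (l 16185824)) (b (l 16363120) (l 16446824))) (b (b (a (l 16035016) (b (l 15937944) (l 15993104))) (a (l 16078256) (l 16035472))) (a (l 16452160) (l 16426344))))), by decide +kernel⟩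

theorem c_pp_023 : CertB 0 536870912 1610612736 536870912 740881858 40050571 3 eng mog cd2q0 cd1q3 pd2 false true true .up 0 2 3
    ndB2q0 ndB1q3 pcB2 Cut.none Ext.none :=
  certB2 (fam := false) (s1 := true) (s2 := true) (a := 0) (b := 2) (c := 3) (cn := .up) (n1 := ndB2q0) (n2 := ndB1q3) (pc := pcB2) (cut := Cut.none) (xt := Ext.none) (P1 := 0) (W1 := 536870912) (P2 := 1610612736) (W2 := 536870912) (P3 := 740881858) (W3 := 40050571) (N0 := 3) (En := eng) (mo := mog) (C1 := cd2q0) (C2 := cd1q3) (C3 := pd2)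
    rfl (fun _ => rfl) k0_pp_023

noncomputable def f_pp_033 : ℕ → ℕ → ℕ → ℕ → Bool := onCell 0 536870912 1610612736 536870912 740881858 40050571
    (rowB 3 eng mog cd2q0 cd1q3 pd3 1 false true true .pnn 0 3 3 (qsf 0 536870912 1610612736 536870912 3) ndB2q0 ndB1q3 pcB3 Cut.none Ext.none)

def k0_pp_033 : ∃ t, chk3 f_pp_033 t 1 1 1 = true :=
  ⟨(a (a (b (b (b (a (l 15875504) (l 15941584)) (a (l 15852592) (l 15925504))) (b (a (l 15872336) (l 15991120)) (l 4))) (l 4)) (b (b (b (l 16010008) (l 16107104)) (l 4)) (b (l 4) (a (b (l 4) (l 2)) (l 2))))) (b (a (b (b (l 16311896) (l 16402272)) (l 4)) (b (b (l 16544096) (l 4)) (a (b (l 4) (l 2)) (l 2)))) (a (b (a (b (l 4) (l 2)) (l 2)) (l 2)) (l 2)))), by decide +kernel⟩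

theorem c_pp_033 : CertB 0 536870912 1610612736 536870912 740881858 40050571 3 eng mog cd2q0 cd1q3 pd3 false true true .pnn 0 3 3
    ndB2q0 ndB1q3 pcB3 Cut.none Ext.none :=
  certB1 (fam := false) (s1 := true) (s2 := true) (a := 0) (b := 3) (c := 3) (cn := .pnn) (n1 := ndB2q0) (n2 := ndB1q3) (pc := pcB3) (cut := Cut.none) (xt := Ext.none) (P1 := 0) (W1 := 536870912) (P2 := 1610612736) (W2 := 536870912) (P3 := 740881858) (W3 := 40050571) (N0 := 3) (En := eng) (mo := mog) (C1 := cd2q0) (C2 := cd1q3) (C3 := pd3)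
    rfl (fun _ => rfl) k0_pp_033

noncomputable def f_pp_101 : ℕ → ℕ → ℕ → ℕ → Bool := onCell 536870912 536870912 536870912 536870912 740881858 40050571
    (rowB 3 eng mog cd2q1 cd1q1 pd0 0 false true true .npn 1 0 1 (qsf 536870912 536870912 536870912 536870912 0) ndB2q1 ndB1q1 pcB0 Cut.none Ext.none)

def k0_pp_101 : ∃ t, chk3 f_pp_101 t 1 1 1 = true :=
  ⟨(l 3), by decide +kernel⟩

theorem c_pp_101 : CertB 536870912 536870912 536870912 536870912 740881858 40050571 3 eng mog cd2q1 cd1q1 pd0 false true true .npn 1 0 1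
    ndB2q1 ndB1q1 pcB0 Cut.none Ext.none :=
  certB0 (fam := false) (s1 := true) (s2 := true) (a := 1) (b := 0) (c := 1) (cn := .npn) (n1 := ndB2q1) (n2 := ndB1q1) (pc := pcB0) (cut := Cut.none) (xt := Ext.none) (P1 := 536870912) (W1 := 536870912) (P2 := 536870912) (W2 := 536870912) (P3 := 740881858) (W3 := 40050571) (N0 := 3) (En := eng) (mo := mog) (C1 := cd2q1) (C2 := cd1q1) (C3 := pd0)
    rfl k0_pp_101

noncomputable def f_pp_102_a : ℕ → ℕ → ℕ → ℕ → Bool := onCell 0 536870912 0 536870912 740881858 40050571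
    (rowB 3 eng mog cd2q1 cd1q2a pd0 2 false true true .npp 1 0 2 (qsf 536870912 536870912 0 536870912 0) ndB2q1 ndB1q2a pcB0 Cut.none Ext.none)

def k0_pp_102_a : ∃ t, chk3 f_pp_102_a t 1 1 1 = true :=
  ⟨(a (b (a (l 3) (l 3)) (l 3)) (a (b (b (a (b (a (b (l 166060436087) (l 3)) (b (l 148343721463) (l 184314040183))) (l 3)) (a (b (b (l 16515048) (l 161228669767)) (l 3)) (b (l 16518304) (l 163912997767)))) (l 3)) (l 3)) (b (a (b (b (a (l 16518072) (l 16517488)) (a (b (l 16525136) (l 167671065527)) (b (l 16525104) (l 16559816)))) (b (a (l 3) (b (l 164986685767) (l 3))) (l 3))) (b (b (a (l 16518712) (l 16520936)) (a (l 16527128) (l 16527256))) (b (a (b (l 141364383255) (l 3)) (b (l 16529232) (l 143511874727))) (l 3)))) (l 3)))), by decide +kernel⟩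

theorem c_pp_102_a : CertB 536870912 536870912 0 536870912 740881858 40050571 3 eng mog cd2q1 cd1q2a pd0 false true true .npp 1 0 2
    ndB2q1 ndB1q2a pcB0 Cut.none Ext.none :=
  certB2 (fam := false) (s1 := true) (s2 := true) (a := 1) (b := 0) (c := 2) (cn := .npp) (n1 := ndB2q1) (n2 := ndB1q2a) (pc := pcB0) (cut := Cut.none) (xt := Ext.none) (P1 := 536870912) (W1 := 536870912) (P2 := 0) (W2 := 536870912) (P3 := 740881858) (W3 := 40050571) (N0 := 3) (En := eng) (mo := mog) (C1 := cd2q1) (C2 := cd1q2a) (C3 := pd0)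
    rfl (fun _ => rfl) k0_pp_102_a

noncomputable def f_pp_102_b : ℕ → ℕ → ℕ → ℕ → Bool := onCell 536870912 536870912 0 536870912 740881858 40050571
    (rowB 3 eng mog cd2q1 cd1q2b pd0 1 false true true .npp 1 0 2 (qsf 536870912 536870912 1239849684 370763052 0) ndB2q1 ndB1q2b pcB0 Cut.none Ext.none)

def k0_pp_102_b : ∃ t, chk3 f_pp_102_b t 1 1 1 = true :=
  ⟨(a (b (l 1) (b (l 1) (a (l 1) (b (a (l 1) (b (l 16572336) (l 16530936))) (a (l 16545440) (l 16479664)))))) (b (a (l 1) (a (a (a (l 1) (l 3)) (l 3)) (l 3))) (b (b (a (a (l 1) (b (b (l 1) (l 60699602439)) (a (l 16563640) (l 16532064)))) (a (a (b (b (l 16530216) (l 16498880)) (l 16455184)) (l 3)) (l 3))) (a (b (a (l 16582984) (l 16611280)) (a (l 16534256) (l 16439440))) (a (b (a (l 16405064) (l 16347656)) (l 16356008)) (b (l 3) (l 191829749447))))) (b (a (a (b (l 16489912) (l 16451504)) (l 16485552)) (a (b (l 16298592) (l 16269096)) (b (l 190755990151) (l 184850352919)))) (a (a (l 16406992) (l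 16326216)) (a (b (l 16247752) (l 16235104)) (b (l 16152360) (l 16147456)))))))), by decide +kernel⟩

theorem c_pp_102_b : CertB 536870912 536870912 1239849684 370763052 740881858 40050571 3 eng mog cd2q1 cd1q2b pd0 false true true .npp 1 0 2
    ndB2q1 ndB1q2b pcB0 Cut.none Ext.none :=
  certB1 (fam := false) (s1 := true) (s2 := true) (a := 1) (b := 0) (c := 2) (cn := .npp) (n1 := ndB2q1) (n2 := ndB1q2b) (pc := pcB0) (cut := Cut.none) (xt := Ext.none) (P1 := 536870912) (W1 := 536870912) (P2 := 1239849684) (W2 := 370763052) (P3 := 740881858) (W3 := 40050571) (N0 := 3) (En := eng) (mo := mog) (C1 := cd2q1) (C2 := cd1q2b) (C3 := pd0)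
    rfl (fun _ => rfl) k0_pp_102_b

noncomputable def f_pp_112_a : ℕ → ℕ → ℕ → ℕ → Bool := onCell 536870912 536870912 0 536870912 740881858 40050571
    (rowB 3 eng mog cd2q1 cd1q2a pd1 2 false true true .dn 1 1 2 (qsf 536870912 536870912 0 536870912 1) ndB2q1 ndB1q2a pcB1 Cut.none Ext.none)

def k0_pp_112_a : ∃ t, chk3 f_pp_112_a t 1 1 1 = true :=
  ⟨(a (a (b (a (b (b (a (l 16481392) (l 16479392)) (a (l 16504824) (l 16502416))) (b (a (b (l 16520472) (l 104320323975)) (l 16520760)) (a (b (l 141901263271) (l 3)) (b (l 105394023175) (l 143511796263))))) (b (b (l 16472416) (a (l 16499296) (l 16493024))) (b (a (l 16516360) (l 16509448)) (a (b (l 16518840) (l 119352629623)) (b (l 16513640) (l 16508568)))))) (a (l 3) (b (b (b (a (l 3) (l 125258154647)) (l 3)) (l 3)) (l 3)))) (b (a (a (b (l 16471240) (b (l 16498176) (l 16546696))) (b (l 16454192) (l 1))) (l 1)) (b (l 1) (l 1)))) (l 1)), by decide +kernel⟩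

theorem c_pp_112_a : CertB 536870912 536870912 0 536870912 740881858 40050571 3 eng mog cd2q1 cd1q2a pd1 false true true .dn 1 1 2
    ndB2q1 ndB1q2a pcB1 Cut.none Ext.none :=
  certB2 (fam := false) (s1 := true) (s2 := true) (a := 1) (b := 1) (c := 2) (cn := .dn) (n1 := ndB2q1) (n2 := ndB1q2a) (pc := pcB1) (cut := Cut.none) (xt := Ext.none) (P1 := 536870912) (W1 := 536870912) (P2 := 0) (W2 := 536870912) (P3 := 740881858) (W3 := 40050571) (N0 := 3) (En := eng) (mo := mog) (C1 := cd2q1) (C2 := cd1q2a) (C3 := pd1)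
    rfl (fun _ => rfl) k0_pp_112_a

noncomputable def f_pp_112_b : ℕ → ℕ → ℕ → ℕ → Bool := onCell 536870912 536870912 1239849684 370763052 740881858 40050571
    (rowB 3 eng mog cd2q1 cd1q2b pd1 2 false true true .dn 1 1 2 (qsf 536870912 536870912 1239849684 370763052 1) ndB2q1 ndB1q2b pcB1 Cut.none Ext.none)

def k0_pp_112_b : ∃ t, chk3 f_pp_112_b t 1 1 1 = true :=
  ⟨(a (a (a (b (b (l 16434576) (l 16368144)) (a (b (l 16281816) (l 16193128)) (b (l 16307848) (l 16237744)))) (b (b (l 16434064) (l 16382632)) (b (l 16337176) (l 16297720)))) (b (b (l 66068434135) (l 16371304)) (a (l 16353208) (l 16354960)))) (b (a (b (l 1) (l 16292088)) (l 1)) (a (l 78953130503) (b (l 312491663303) (l 16162800))))), by decide +kernel⟩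

theorem c_pp_112_b : CertB 536870912 536870912 1239849684 370763052 740881858 40050571 3 eng mog cd2q1 cd1q2b pd1 false true true .dn 1 1 2
    ndB2q1 ndB1q2b pcB1 Cut.none Ext.none :=
  certB2 (fam := false) (s1 := true) (s2 := true) (a := 1) (b := 1) (c := 2) (cn := .dn) (n1 := ndB2q1) (n2 := ndB1q2b) (pc := pcB1) (cut := Cut.none) (xt := Ext.none) (P1 := 536870912) (W1 := 536870912) (P2 := 1239849684) (W2 := 370763052) (P3 := 740881858) (W3 := 40050571) (N0 := 3) (En := eng) (mo := mog) (C1 := cd2q1) (C2 := cd1q2b) (C3 := pd1)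
    rfl (fun _ => rfl) k0_pp_112_b

noncomputable def f_pp_113 : ℕ → ℕ → ℕ → ℕ → Bool := onCell 536870912 536870912 536870912 536870912 740881858 40050571
    (rowB 3 eng mog cd2q1 cd1q3 pd1 1 false true true .nn 1 1 3 (qsf 536870912 536870912 1610612736 536870912 1) ndB2q1 ndB1q3 pcB1 Cut.none Ext.none)

def k0_pp_113 : ∃ t, chk3 f_pp_113 t 1 1 1 = true :=
  ⟨(b (b (a (l 1) (b (a (l 1) (b (a (l 1) (l 16152496)) (l 16289120))) (a (l 16318448) (a (l 16265880) (l 16222504))))) (a (l 223371530167) (a (l 16382768) (b (l 16364016) (l 16603312))))) (a (b (l 255583691991) (a (l 16203128) (l 16519784))) (b (a (l 16687544) (l 16888000)) (a (l 16984592) (l 16945176))))), by decide +kernel⟩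

theorem c_pp_113 : CertB 536870912 536870912 1610612736 536870912 740881858 40050571 3 eng mog cd2q1 cd1q3 pd1 false true true .nn 1 1 3
    ndB2q1 ndB1q3 pcB1 Cut.none Ext.none :=
  certB1 (fam := false) (s1 := true) (s2 := true) (a := 1) (b := 1) (c := 3) (cn := .nn) (n1 := ndB2q1) (n2 := ndB1q3) (pc := pcB1) (cut := Cut.none) (xt := Ext.none) (P1 := 536870912) (W1 := 536870912) (P2 := 1610612736) (W2 := 536870912) (P3 := 740881858) (W3 := 40050571) (N0 := 3) (En := eng) (mo := mog) (C1 := cd2q1) (C2 := cd1q3) (C3 := pd1)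
    rfl (fun _ => rfl) k0_pp_113

noncomputable def f_pp_123 : ℕ → ℕ → ℕ → ℕ → Bool := onCell 1073741824 536870912 1610612736 536870912 740881858 40050571
    (rowB 3 eng mog cd2q1 cd1q3 pd2 2 false true true .npn 1 2 3 (qsf 536870912 536870912 1610612736 536870912 2) ndB2q1 ndB1q3 pcB2 Cut.none Ext.none)

def k0_pp_123 : ∃ t, chk3 f_pp_123 t 1 1 1 = true :=
  ⟨(a (b (a (b (a (l 16067600) (l 16035248)) (l 16319104)) (a (b (l 16051936) (l 16175496)) (l 409665398967))) (a (b (l 16623544) (a (l 16665608) (l 16542376))) (b (a (l 16457016) (l 16479840)) (a (l 16472688) (l 16512784))))) (a (b (a (l 423087394343) (l 1)) (b (l 16488728) (l 16576456))) (b (l 1) (b (l 16551144) (l 16624880))))), by decide +kernel⟩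

theorem c_pp_123 : CertB 536870912 536870912 1610612736 536870912 740881858 40050571 3 eng mog cd2q1 cd1q3 pd2 false true true .npn 1 2 3
    ndB2q1 ndB1q3 pcB2 Cut.none Ext.none :=
  certB2 (fam := false) (s1 := true) (s2 := true) (a := 1) (b := 2) (c := 3) (cn := .npn) (n1 := ndB2q1) (n2 := ndB1q3) (pc := pcB2) (cut := Cut.none) (xt := Ext.none) (P1 := 536870912) (W1 := 536870912) (P2 := 1610612736) (W2 := 536870912) (P3 := 740881858) (W3 := 40050571) (N0 := 3) (En := eng) (mo := mog) (C1 := cd2q1) (C2 := cd1q3) (C3 := pd2)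
    rfl (fun _ => rfl) k0_pp_123

noncomputable def f_pp_133 : ℕ → ℕ → ℕ → ℕ → Bool := onCell 1610612736 536870912 1610612736 536870912 740881858 40050571
    (rowB 3 eng mog cd2q1 cd1q3 pd3 2 false true true .dn 1 3 3 (qsf 536870912 536870912 1610612736 536870912 3) ndB2q1 ndB1q3 pcB3 Cut.none Ext.none)

def k0_pp_133 : ∃ t, chk3 f_pp_133 t 1 1 1 = true :=
  ⟨(a (b (l 1) (a (a (l 16846520) (l 1)) (l 1))) (l 1)), by decide +kernel⟩

theorem c_pp_133 : CertB 536870912 536870912 1610612736 536870912 740881858 40050571 3 eng mog cd2q1 cd1q3 pd3 false true true .dn 1 3 3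
    ndB2q1 ndB1q3 pcB3 Cut.none Ext.none :=
  certB2 (fam := false) (s1 := true) (s2 := true) (a := 1) (b := 3) (c := 3) (cn := .dn) (n1 := ndB2q1) (n2 := ndB1q3) (pc := pcB3) (cut := Cut.none) (xt := Ext.none) (P1 := 536870912) (W1 := 536870912) (P2 := 1610612736) (W2 := 536870912) (P3 := 740881858) (W3 := 40050571) (N0 := 3) (En := eng) (mo := mog) (C1 := cd2q1) (C2 := cd1q3) (C3 := pd3)
    rfl (fun _ => rfl) k0_pp_133

noncomputable def f_pp_202_aa : ℕ → ℕ → ℕ → ℕ → Bool := onCell 0 536870912 0 536870912 740881858 40050571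
    (rowB 3 eng mog cd2q2a cd1q2a pd0 0 false true true .pp 2 0 2 (qsf 0 536870912 0 536870912 0) ndB2q2a ndB1q2a pcB0 Cut.none Ext.none)

def k0_pp_202_aa : ∃ t, chk3 f_pp_202_aa t 1 1 1 = true :=
  ⟨(l 3), by decide +kernel⟩

theorem c_pp_202_aa : CertB 0 536870912 0 536870912 740881858 40050571 3 eng mog cd2q2a cd1q2a pd0 false true true .pp 2 0 2
    ndB2q2a ndB1q2a pcB0 Cut.none Ext.none :=
  certB0 (fam := false) (s1 := true) (s2 := true) (a := 2) (b := 0) (c := 2) (cn := .pp) (n1 := ndB2q2a) (n2 := ndB1q2a) (pc := pcB0) (cut := Cut.none) (xt := Ext.none) (P1 := 0) (W1 := 536870912) (P2 := 0) (W2 := 536870912) (P3 := 740881858) (W3 := 40050571) (N0 := 3) (En := eng) (mo := mog) (C1 := cd2q2a) (C2 := cd1q2a) (C3 := pd0)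
    rfl k0_pp_202_aa

noncomputable def f_pp_202_ab : ℕ → ℕ → ℕ → ℕ → Bool := onCell 0 536870912 1239849684 370763052 740881858 40050571
    (rowB 3 eng mog cd2q2a cd1q2b pd0 0 false true true .pp 2 0 2 (qsf 0 536870912 1239849684 370763052 0) ndB2q2a ndB1q2b pcB0 Cut.none Ext.none)

def k0_pp_202_ab : ∃ t, chk3 f_pp_202_ab t 1 1 1 = true :=
  ⟨(l 3), by decide +kernel⟩

theorem c_pp_202_ab : CertB 0 536870912 1239849684 370763052 740881858 40050571 3 eng mog cd2q2a cd1q2b pd0 false true true .pp 2 0 2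
    ndB2q2a ndB1q2b pcB0 Cut.none Ext.none :=
  certB0 (fam := false) (s1 := true) (s2 := true) (a := 2) (b := 0) (c := 2) (cn := .pp) (n1 := ndB2q2a) (n2 := ndB1q2b) (pc := pcB0) (cut := Cut.none) (xt := Ext.none) (P1 := 0) (W1 := 536870912) (P2 := 1239849684) (W2 := 370763052) (P3 := 740881858) (W3 := 40050571) (N0 := 3) (En := eng) (mo := mog) (C1 := cd2q2a) (C2 := cd1q2b) (C3 := pd0)
    rfl k0_pp_202_ab

noncomputable def f_pp_202_ba : ℕ → ℕ → ℕ → ℕ → Bool := onCell 1239849684 370763052 0 536870912 740881858 40050571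
    (rowB 3 eng mog cd2q2b cd1q2a pd0 0 false true true .pp 2 0 2 (qsf 1239849684 370763052 0 536870912 0) ndB2q2b ndB1q2a pcB0 Cut.none Ext.none)

def k0_pp_202_ba : ∃ t, chk3 f_pp_202_ba t 1 1 1 = true :=
  ⟨(l 3), by decide +kernel⟩

theorem c_pp_202_ba : CertB 1239849684 370763052 0 536870912 740881858 40050571 3 eng mog cd2q2b cd1q2a pd0 false true true .pp 2 0 2
    ndB2q2b ndB1q2a pcB0 Cut.none Ext.none :=
  certB0 (fam := false) (s1 := true) (s2 := true) (a := 2) (b := 0) (c := 2) (cn := .pp) (n1 := ndB2q2b) (n2 := ndB1q2a) (pc := pcB0) (cut := Cut.none) (xt := Ext.none) (P1 := 1239849684) (W1 := 370763052) (P2 := 0) (W2 := 536870912) (P3 := 740881858) (W3 := 40050571) (N0 := 3) (En := eng) (mo := mog) (C1 := cd2q2b) (C2 := cd1q2a) (C3 := pd0)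
    rfl k0_pp_202_ba

noncomputable def f_pp_202_bb : ℕ → ℕ → ℕ → ℕ → Bool := onCell 1239849684 370763052 1239849684 370763052 740881858 40050571
    (rowB 3 eng mog cd2q2b cd1q2b pd0 0 false true true .pp 2 0 2 (qsf 1239849684 370763052 1239849684 370763052 0) ndB2q2b ndB1q2b pcB0 Cut.none Ext.none)

def k0_pp_202_bb : ∃ t, chk3 f_pp_202_bb t 1 1 1 = true :=
  ⟨(l 3), by decide +kernel⟩

theorem c_pp_202_bb : CertB 1239849684 370763052 1239849684 370763052 740881858 40050571 3 eng mog cd2q2b cd1q2b pd0 false true true .pp 2 0 2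
    ndB2q2b ndB1q2b pcB0 Cut.none Ext.none :=
  certB0 (fam := false) (s1 := true) (s2 := true) (a := 2) (b := 0) (c := 2) (cn := .pp) (n1 := ndB2q2b) (n2 := ndB1q2b) (pc := pcB0) (cut := Cut.none) (xt := Ext.none) (P1 := 1239849684) (W1 := 370763052) (P2 := 1239849684) (W2 := 370763052) (P3 := 740881858) (W3 := 40050571) (N0 := 3) (En := eng) (mo := mog) (C1 := cd2q2b) (C2 := cd1q2b) (C3 := pd0)
    rfl k0_pp_202_bb

noncomputable def f_pp_203_a : ℕ → ℕ → ℕ → ℕ → Bool := onCell 0 536870912 0 536870912 740881858 40050571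
    (rowB 3 eng mog cd2q2a cd1q3 pd0 1 false true true .up 2 0 3 (qsf 0 536870912 1610612736 536870912 0) ndB2q2a ndB1q3 pcB0 Cut.none Ext.none)

def k0_pp_203_a : ∃ t, chk3 f_pp_203_a t 1 1 1 = true :=
  ⟨(l 3), by decide +kernel⟩

theorem c_pp_203_a : CertB 0 536870912 1610612736 536870912 740881858 40050571 3 eng mog cd2q2a cd1q3 pd0 false true true .up 2 0 3
    ndB2q2a ndB1q3 pcB0 Cut.none Ext.none :=
  certB1 (fam := false) (s1 := true) (s2 := true) (a := 2) (b := 0) (c := 3) (cn := .up) (n1 := ndB2q2a) (n2 := ndB1q3) (pc := pcB0) (cut := Cut.none) (xt := Ext.none) (P1 := 0) (W1 := 536870912) (P2 := 1610612736) (W2 := 536870912) (P3 := 740881858) (W3 := 40050571) (N0 := 3) (En := eng) (mo := mog) (C1 := cd2q2a) (C2 := cd1q3) (C3 := pd0)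
    rfl (fun _ => rfl) k0_pp_203_a

noncomputable def f_pp_203_b : ℕ → ℕ → ℕ → ℕ → Bool := onCell 1239849684 370763052 1610612736 536870912 740881858 40050571
    (rowB 3 eng mog cd2q2b cd1q3 pd0 0 false true true .up 2 0 3 (qsf 1239849684 370763052 1610612736 536870912 0) ndB2q2b ndB1q3 pcB0 Cut.none Ext.none)

def k0_pp_203_b : ∃ t, chk3 f_pp_203_b t 1 1 1 = true :=
  ⟨(l 3), by decide +kernel⟩

theorem c_pp_203_b : CertB 1239849684 370763052 1610612736 536870912 740881858 40050571 3 eng mog cd2q2b cd1q3 pd0 false true true .up 2 0 3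
    ndB2q2b ndB1q3 pcB0 Cut.none Ext.none :=
  certB0 (fam := false) (s1 := true) (s2 := true) (a := 2) (b := 0) (c := 3) (cn := .up) (n1 := ndB2q2b) (n2 := ndB1q3) (pc := pcB0) (cut := Cut.none) (xt := Ext.none) (P1 := 1239849684) (W1 := 370763052) (P2 := 1610612736) (W2 := 536870912) (P3 := 740881858) (W3 := 40050571) (N0 := 3) (En := eng) (mo := mog) (C1 := cd2q2b) (C2 := cd1q3) (C3 := pd0)
    rfl k0_pp_203_b

noncomputable def cut_pp_213_a : Cut := Cut.of [[⟨0, 1, 0, 67108864⟩, ⟨1, 1, 0, 67108864⟩, ⟨2, 2, 0, 16777216⟩]]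

noncomputable def f_pp_213_a : ℕ → ℕ → ℕ → ℕ → Bool := onCell 0 536870912 1610612736 536870912 740881858 40050571
    (rowB 3 eng mog cd2q2a cd1q3 pd1 0 false true true .pnn 2 1 3 (qsf 0 536870912 1610612736 536870912 1) ndB2q2a ndB1q3 pcB1 cut_pp_213_a Ext.none)

def k0_pp_213_a : ∃ t, chk3 f_pp_213_a t 1 1 1 = true :=
  ⟨(b (l 3) (b (l 3) (a (l 3) (a (l 3) (b (l 3) (a (l 3) (b (l 3) (b (l 3) (b (l 3) (l 6)))))))))), by decide +kernel⟩

theorem c_pp_213_a : CertB 0 536870912 1610612736 536870912 740881858 40050571 3 eng mog cd2q2a cd1q3 pd1 false true true .pnn 2 1 3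
    ndB2q2a ndB1q3 pcB1 cut_pp_213_a Ext.none :=
  certB0 (fam := false) (s1 := true) (s2 := true) (a := 2) (b := 1) (c := 3) (cn := .pnn) (n1 := ndB2q2a) (n2 := ndB1q3) (pc := pcB1) (cut := cut_pp_213_a) (xt := Ext.none) (P1 := 0) (W1 := 536870912) (P2 := 1610612736) (W2 := 536870912) (P3 := 740881858) (W3 := 40050571) (N0 := 3) (En := eng) (mo := mog) (C1 := cd2q2a) (C2 := cd1q3) (C3 := pd1)
    rfl k0_pp_213_a

noncomputable def cut_pp_213_b : Cut := Cut.of [[⟨0, 1, 0, 67108864⟩, ⟨1, 1, 0, 67108864⟩, ⟨2, 2, 0, 16777216⟩]]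

noncomputable def f_pp_213_b : ℕ → ℕ → ℕ → ℕ → Bool := onCell 1239849684 370763052 1610612736 536870912 740881858 40050571
    (rowB 3 eng mog cd2q2b cd1q3 pd1 0 false true true .pnn 2 1 3 (qsf 1239849684 370763052 1610612736 536870912 1) ndB2q2b ndB1q3 pcB1 cut_pp_213_b Ext.none)

def k0_pp_213_b : ∃ t, chk3 f_pp_213_b t 1 1 1 = true :=
  ⟨(l 3), by decide +kernel⟩

theorem c_pp_213_b : CertB 1239849684 370763052 1610612736 536870912 740881858 40050571 3 eng mog cd2q2b cd1q3 pd1 false true true .pnn 2 1 3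
    ndB2q2b ndB1q3 pcB1 cut_pp_213_b Ext.none :=
  certB0 (fam := false) (s1 := true) (s2 := true) (a := 2) (b := 1) (c := 3) (cn := .pnn) (n1 := ndB2q2b) (n2 := ndB1q3) (pc := pcB1) (cut := cut_pp_213_b) (xt := Ext.none) (P1 := 1239849684) (W1 := 370763052) (P2 := 1610612736) (W2 := 536870912) (P3 := 740881858) (W3 := 40050571) (N0 := 3) (En := eng) (mo := mog) (C1 := cd2q2b) (C2 := cd1q3) (C3 := pd1)
    rfl k0_pp_213_b

noncomputable def f_pp_303 : ℕ → ℕ → ℕ → ℕ → Bool := onCell 1610612736 536870912 1610612736 536870912 740881858 40050571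
    (rowB 3 eng mog cd2q3 cd1q3 pd0 0 false true true .npn 3 0 3 (qsf 1610612736 536870912 1610612736 536870912 0) ndB2q3 ndB1q3 pcB0 Cut.none Ext.none)

def k0_pp_303 : ∃ t, chk3 f_pp_303 t 1 1 1 = true :=
  ⟨(l 3), by decide +kernel⟩

theorem c_pp_303 : CertB 1610612736 536870912 1610612736 536870912 740881858 40050571 3 eng mog cd2q3 cd1q3 pd0 false true true .npn 3 0 3
    ndB2q3 ndB1q3 pcB0 Cut.none Ext.none :=
  certB0 (fam := false) (s1 := true) (s2 := true) (a := 3) (b := 0) (c := 3) (cn := .npn) (n1 := ndB2q3) (n2 := ndB1q3) (pc := pcB0) (cut := Cut.none) (xt := Ext.none) (P1 := 1610612736) (W1 := 536870912) (P2 := 1610612736) (W2 := 536870912) (P3 := 740881858) (W3 := 40050571) (N0 := 3) (En := eng) (mo := mog) (C1 := cd2q3) (C2 := cd1q3) (C3 := pd0)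
    rfl k0_pp_303

noncomputable def f_pp_313 : ℕ → ℕ → ℕ → ℕ → Bool := onCell 1610612736 536870912 1610612736 536870912 740881858 40050571
    (rowB 3 eng mog cd2q3 cd1q3 pd1 0 false true true .dn 3 1 3 (qsf 1610612736 536870912 1610612736 536870912 1) ndB2q3 ndB1q3 pcB1 Cut.none Ext.none)

def k0_pp_313 : ∃ t, chk3 f_pp_313 t 1 1 1 = true :=
  ⟨(l 3), by decide +kernel⟩

theorem c_pp_313 : CertB 1610612736 536870912 1610612736 536870912 740881858 40050571 3 eng mog cd2q3 cd1q3 pd1 false true true .dn 3 1 3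
    ndB2q3 ndB1q3 pcB1 Cut.none Ext.none :=
  certB0 (fam := false) (s1 := true) (s2 := true) (a := 3) (b := 1) (c := 3) (cn := .dn) (n1 := ndB2q3) (n2 := ndB1q3) (pc := pcB1) (cut := Cut.none) (xt := Ext.none) (P1 := 1610612736) (W1 := 536870912) (P2 := 1610612736) (W2 := 536870912) (P3 := 740881858) (W3 := 40050571) (N0 := 3) (En := eng) (mo := mog) (C1 := cd2q3) (C2 := cd1q3) (C3 := pd1)
    rfl k0_pp_313

noncomputable def f_pm_001 : ℕ → ℕ → ℕ → ℕ → Bool := onCell 0 536870912 536870912 536870912 740881858 40050571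
    (rowB 3 eng mog cd2q0 cd1q1 pd0 0 false true false .up 0 0 1 (qsf 0 536870912 536870912 536870912 0) ndB2q0 ndB1q1 pcB0 Cut.none Ext.none)

def k0_pm_001 : ∃ t, chk3 f_pm_001 t 1 1 1 = true :=
  ⟨(l 4), by decide +kernel⟩

theorem c_pm_001 : CertB 0 536870912 536870912 536870912 740881858 40050571 3 eng mog cd2q0 cd1q1 pd0 false true false .up 0 0 1
    ndB2q0 ndB1q1 pcB0 Cut.none Ext.none :=
  certB0 (fam := false) (s1 := true) (s2 := false) (a := 0) (b := 0) (c := 1) (cn := .up) (n1 := ndB2q0) (n2 := ndB1q1) (pc := pcB0) (cut := Cut.none) (xt := Ext.none) (P1 := 0) (W1 := 536870912) (P2 := 536870912) (W2 := 536870912) (P3 := 740881858) (W3 := 40050571) (N0 := 3) (En := eng) (mo := mog) (C1 := cd2q0) (C2 := cd1q1) (C3 := pd0)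
    rfl k0_pm_001

noncomputable def f_pm_011 : ℕ → ℕ → ℕ → ℕ → Bool := onCell 0 536870912 536870912 536870912 740881858 40050571
    (rowB 3 eng mog cd2q0 cd1q1 pd1 0 false true false .pnn 0 1 1 (qsf 0 536870912 536870912 536870912 1) ndB2q0 ndB1q1 pcB1 Cut.none Ext.none)

def k0_pm_011 : ∃ t, chk3 f_pm_011 t 1 1 1 = true :=
  ⟨(l 4), by decide +kernel⟩

theorem c_pm_011 : CertB 0 536870912 536870912 536870912 740881858 40050571 3 eng mog cd2q0 cd1q1 pd1 false true false .pnn 0 1 1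
    ndB2q0 ndB1q1 pcB1 Cut.none Ext.none :=
  certB0 (fam := false) (s1 := true) (s2 := false) (a := 0) (b := 1) (c := 1) (cn := .pnn) (n1 := ndB2q0) (n2 := ndB1q1) (pc := pcB1) (cut := Cut.none) (xt := Ext.none) (P1 := 0) (W1 := 536870912) (P2 := 536870912) (W2 := 536870912) (P3 := 740881858) (W3 := 40050571) (N0 := 3) (En := eng) (mo := mog) (C1 := cd2q0) (C2 := cd1q1) (C3 := pd1)
    rfl k0_pm_011

noncomputable def cut_pm_012_a : Cut := Cut.of [[⟨0, 0, 0, 67108864⟩, ⟨1, 1, 0, 67108864⟩, ⟨2, 1, 0, 67108864⟩]]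

noncomputable def f_pm_012_a : ℕ → ℕ → ℕ → ℕ → Bool := onCell 536870912 536870912 0 536870912 740881858 40050571
    (rowB 3 eng mog cd2q0 cd1q2a pd1 2 false true false .pnp 0 1 2 (qsf 0 536870912 0 536870912 1) ndB2q0 ndB1q2a pcB1 cut_pm_012_a Ext.none)

def k0_pm_012_a : ∃ t, chk3 f_pm_012_a t 2 1 1 = true :=
  ⟨(b (a (b (l 2) (l 16355824)) (b (l 16361848) (l 16516680))) (a (a (b (l 2) (b (l 16264992) (l 16254368))) (b (l 16443528) (b (l 16275968) (l 16288632)))) (b (a (b (l 16284112) (l 16283120)) (b (l 16275448) (l 16289584))) (a (b (l 16292800) (a (l 16318064) (l 16340360))) (b (l 16504104) (a (l 16363392) (l 16449104))))))), by decide +kernel⟩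

def k1_pm_012_a : ∃ t, chk3 f_pm_012_a t 3 1 1 = true :=
  ⟨(b (a (b (a (l 16331928) (l 16314728)) (a (l 16282856) (l 16271512))) (a (b (l 16299272) (b (l 16263352) (l 16263248))) (b (a (l 16290592) (l 16286216)) (a (l 16365832) (b (l 16255856) (l 16264840)))))) (a (b (a (b (l 16277832) (l 16528464)) (b (l 16279504) (a (l 16349552) (l 16423176)))) (a (b (b (l 16327184) (l 16421512)) (b (l 16562472) (a (l 16433744) (l 16504592)))) (b (a (b (l 16352824) (l 16389264)) (b (l 16396168) (l 16414448))) (b (a (l 16432960) (l 16464720)) (b (a (l 16477072) (l 16513832)) (l 4)))))) (b (a (b (a (l 16284088) (l 16288480)) (a (l 16334376) (l 16346528))) (a (b (l 16294128) (l 16423752)) (b (a (l 16299880) (l 16304304)) (a (l 16373600) (b (l 16357568) (l 16408128)))))) (a (a (b (b (l 16476520) (b (l 16428648) (l 16454208))) (b (b (l 16482880) (l 16514568)) (a (l 16629448) (l 16692536)))) (b (b (a (l 16406848) (l 16419480)) (a (b (l 16448272) (l 16475752)) (l 16476288)))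 (b (b (a (l 16508408) (l 16524800)) (a (l 16542704) (l 16561688))) (b (a (l 16583928) (l 16604264)) (l 4))))) (b (a (b (l 16437312) (a (l 16489584) (l 16506008))) (a (b (l 16456792) (l 16522048)) (b (l 16470472) (a (l 16534384) (l 16542784))))) (a (b (a (b (b (l 16533504) (l 16550656)) (a (l 16575960) (l 16585848))) (b (l 16559400) (a (b (l 16584296) (l 16605728)) (b (l 16594712) (l 16615328))))) (b (a (a (l 16619360) (l 16629528)) (a (b (l 16627592) (l 6)) (l 6))) (l 4))) (a (b (b (l 16577888) (l 6)) (l 6)) (l 6)))))))), by decide +kernel⟩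

theorem s2_pm_012_a : ∃ t, chk3 f_pm_012_a t 1 1 1 = true := ex3_a k0_pm_012_a k1_pm_012_a

theorem c_pm_012_a : CertB 0 536870912 0 536870912 740881858 40050571 3 eng mog cd2q0 cd1q2a pd1 false true false .pnp 0 1 2
    ndB2q0 ndB1q2a pcB1 cut_pm_012_a Ext.none :=
  certB2 (fam := false) (s1 := true) (s2 := false) (a := 0) (b := 1) (c := 2) (cn := .pnp) (n1 := ndB2q0) (n2 := ndB1q2a) (pc := pcB1) (cut := cut_pm_012_a) (xt := Ext.none) (P1 := 0) (W1 := 536870912) (P2 := 0) (W2 := 536870912) (P3 := 740881858) (W3 := 40050571) (N0 := 3) (En := eng) (mo := mog) (C1 := cd2q0) (C2 := cd1q2a) (C3 := pd1)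
    rfl (fun _ => rfl) s2_pm_012_a

noncomputable def cut_pm_012_b : Cut := Cut.of [[⟨0, 0, 0, 67108864⟩, ⟨1, 1, 0, 67108864⟩, ⟨2, 1, 0, 67108864⟩]]

noncomputable def f_pm_012_b : ℕ → ℕ → ℕ → ℕ → Bool := onCell 536870912 536870912 1239849684 370763052 740881858 40050571
    (rowB 3 eng mog cd2q0 cd1q2b pd1 2 false true false .pnp 0 1 2 (qsf 0 536870912 1239849684 370763052 1) ndB2q0 ndB1q2b pcB1 cut_pm_012_b Ext.none)

def k0_pm_012_b : ∃ t, chk3 f_pm_012_b t 1 1 1 = true :=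
  ⟨(a (b (a (l 2) (b (l 16590016) (l 16330944))) (l 2)) (a (b (b (a (l 16305384) (l 16269544)) (a (l 16231328) (l 16160456))) (b (l 16183256) (l 2))) (b (a (b (b (l 16281784) (l 16186720)) (l 16083864)) (b (a (l 16225896) (b (l 16252840) (l 16127336))) (a (l 16022712) (l 15981672)))) (b (a (l 16021616) (l 15901440)) (l 15975104))))), by decide +kernel⟩

theorem c_pm_012_b : CertB 0 536870912 1239849684 370763052 740881858 40050571 3 eng mog cd2q0 cd1q2b pd1 false true false .pnp 0 1 2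
    ndB2q0 ndB1q2b pcB1 cut_pm_012_b Ext.none :=
  certB2 (fam := false) (s1 := true) (s2 := false) (a := 0) (b := 1) (c := 2) (cn := .pnp) (n1 := ndB2q0) (n2 := ndB1q2b) (pc := pcB1) (cut := cut_pm_012_b) (xt := Ext.none) (P1 := 0) (W1 := 536870912) (P2 := 1239849684) (W2 := 370763052) (P3 := 740881858) (W3 := 40050571) (N0 := 3) (En := eng) (mo := mog) (C1 := cd2q0) (C2 := cd1q2b) (C3 := pd1)
    rfl (fun _ => rfl) k0_pm_012_b

noncomputable def cut_pm_022_a : Cut := Cut.of [[⟨0, 0, 0, 67108864⟩, ⟨1, 1, 0, 67108864⟩, ⟨2, 1, 0, 67108864⟩]]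

noncomputable def f_pm_022_a : ℕ → ℕ → ℕ → ℕ → Bool := onCell 0 536870912 0 536870912 740881858 40050571
    (rowB 3 eng mog cd2q0 cd1q2a pd2 0 false true false .pp 0 2 2 (qsf 0 536870912 0 536870912 2) ndB2q0 ndB1q2a pcB2 cut_pm_022_a Ext.none)

def k0_pm_022_a : ∃ t, chk3 f_pm_022_a t 2 2 1 = true :=
  ⟨(a (a (b (a (a (b (c (l 16435824) (l 16453520)) (a (l 16458872) (l 16452224))) (b (l 16436560) (l 16441288))) (b (l 16417304) (a (l 16424792) (l 16406080)))) (c (b (a (a (l 16520000) (b (l 16445232) (l 16455920))) (a (l 16431712) (l 16410216))) (a (a (b (l 16489272) (a (l 16512608) (l 16501776))) (l 16497704)) (b (l 16454248) (l 16485888)))) (a (a (a (b (l 16480032) (b (l 16500520) (l 16517304))) (b (l 16477248) (l 16523520))) (b (l 16461432) (l 16482784))) (b (l 16425232) (b (l 16454608) (l 16483968)))))) (b (a (b (l 16384704) (l 16394712)) (b (l 16344360) (l 16323136))) (a (a (b (l 16384472) (l 16516560)) (b (l 16355760) (l 16397616))) (b (l 16350240)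 (b (l 16300088) (l 16337992)))))) (a (a (b (b (l 16296864) (l 16264608)) (b (l 16258472) (b (l 16219096) (l 16228592)))) (b (b (l 1) (l 1)) (l 1))) (l 1))), by decide +kernel⟩

def k1_pm_022_a : ∃ t, chk3 f_pm_022_a t 4 6 1 = true :=
  ⟨(a (a (b (c (a (b (a (l 16533872) (l 16521544)) (a (b (l 16551840) (l 16565464)) (l 16544712))) (b (l 16522520) (a (l 16529888) (l 16514240)))) (a (b (a (a (l 16533552) (l 16538728)) (l 16527808)) (a (b (l 16551720) (l 16562000)) (l 16549272))) (b (l 16504520) (l 16523352)))) (a (a (a (b (b (c (l 16575904) (l 16569736)) (c (l 16586432) (l 16580832))) (b (c (l 16597448) (l 16571360)) (c (l 16587976) (l 16583248)))) (b (b (l 16578256) (l 16589136)) (b (l 16600472) (l 16612248)))) (b (c (l 16571832) (l 16575008)) (c (l 16602280) (l 16604448)))) (c (b (c (l 16567552) (l 16588256)) (b (l 16587464) (l 16580936))) (b (l 16546216) (a (l 16583400) (l 16561408)))))) (b (b (c (l 16540288) (l 16536272)) (a (c (l 16489240) (l 16485808))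 (l 16490992))) (b (a (b (l 16522800) (l 16533320)) (c (l 16469456) (l 16459784))) (a (c (l 16574504) (b (l 16520768) (l 16532536))) (b (l 16477776) (l 16487408)))))) (b (c (a (b (l 16386104) (l 16456392)) (b (l 16305040) (l 16367032))) (a (b (l 16372088) (l 16440624)) (b (l 16280304) (l 16340672)))) (a (b (a (c (l 16426160) (l 16411552)) (b (l 16368080) (l 16371968))) (a (b (l 16428624) (l 16435832)) (b (l 16376272) (l 1)))) (b (a (l 16402152) (l 1)) (l 1))))), by decide +kernel⟩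

def k2_pm_022_a : ∃ t, chk3 f_pm_022_a t 4 7 1 = true :=
  ⟨(a (b (b (a (a (a (a (b (c (l 16599960) (l 16595496)) (b (c (l 16631136) (l 16626944)) (l 6))) (b (l 16624456) (c (l 16640800) (l 16638008)))) (b (l 16628088) (l 16664576))) (c (a (l 16614120) (l 16644496)) (b (l 16594480) (l 16576440)))) (a (a (b (l 16560432) (l 16572240)) (b (l 16536016) (l 16546552))) (b (l 16518656) (a (l 16519944) (l 16492440))))) (a (l 6) (a (l 6) (a (l 6) (a (l 6) (l 1)))))) (b (a (l 6) (a (l 6) (l 1))) (a (l 6) (l 1)))) (b (a (b (a (b (l 16485512) (l 107407264951)) (l 1)) (l 1)) (l 1)) (l 1))), by decide +kernel⟩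

def k3_pm_022_a : ∃ t, chk3 f_pm_022_a t 5 3 1 = true :=
  ⟨(b (l 1) (l 1)), by decide +kernel⟩

def k4_pm_022_a : ∃ t, chk3 f_pm_022_a t 3 1 1 = true :=
  ⟨(l 1), by decide +kernel⟩

theorem s5_pm_022_a : ∃ t, chk3 f_pm_022_a t 4 3 1 = true := ex3_b k1_pm_022_a k2_pm_022_a

theorem s6_pm_022_a : ∃ t, chk3 f_pm_022_a t 2 3 1 = true := ex3_a s5_pm_022_a k3_pm_022_a

theorem s7_pm_022_a : ∃ t, chk3 f_pm_022_a t 2 1 1 = true := ex3_b k0_pm_022_a s6_pm_022_a

theorem s8_pm_022_a : ∃ t, chk3 f_pm_022_a t 1 1 1 = true := ex3_a s7_pm_022_a k4_pm_022_a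

theorem c_pm_022_a : CertB 0 536870912 0 536870912 740881858 40050571 3 eng mog cd2q0 cd1q2a pd2 false true false .pp 0 2 2
    ndB2q0 ndB1q2a pcB2 cut_pm_022_a Ext.none :=
  certB0 (fam := false) (s1 := true) (s2 := false) (a := 0) (b := 2) (c := 2) (cn := .pp) (n1 := ndB2q0) (n2 := ndB1q2a) (pc := pcB2) (cut := cut_pm_022_a) (xt := Ext.none) (P1 := 0) (W1 := 536870912) (P2 := 0) (W2 := 536870912) (P3 := 740881858) (W3 := 40050571) (N0 := 3) (En := eng) (mo := mog) (C1 := cd2q0) (C2 := cd1q2a) (C3 := pd2)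
    rfl s8_pm_022_a

noncomputable def cut_pm_022_b : Cut := Cut.of [[⟨0, 0, 0, 67108864⟩, ⟨1, 1, 0, 67108864⟩, ⟨2, 1, 0, 67108864⟩]]

noncomputable def f_pm_022_b : ℕ → ℕ → ℕ → ℕ → Bool := onCell 1073741824 536870912 1239849684 370763052 740881858 40050571
    (rowB 3 eng mog cd2q0 cd1q2b pd2 2 false true false .pp 0 2 2 (qsf 0 536870912 1239849684 370763052 2) ndB2q0 ndB1q2b pcB2 cut_pm_022_b Ext.none)

def k0_pm_022_b : ∃ t, chk3 f_pm_022_b t 1 1 1 = true :=
  ⟨(a (a (b (b (b (a (a (l 16245640) (l 16288504)) (a (l 16409064) (c (l 16349128) (l 16362240)))) (a (l 16389688) (a (l 16197856) (l 16230568)))) (a (a (l 15958872) (l 16000584)) (a (l 16102048) (l 16220224)))) (b (a (l 15846208) (l 16140088)) (a (l 15805000) (l 15842288)))) (b (a (b (b (a (c (c (l 16426704) (l 16393912)) (b (l 16338696) (l 16357136))) (a (b (b (l 521334157671) (l 16398400)) (l 16373296)) (b (l 796749209799) (l 302827647479)))) (a (c (l 16293168) (l 16264960)) (a (l 16286104)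 (l 16312456)))) (a (b (l 16171400) (l 16058856)) (b (l 16195664) (l 16105496)))) (b (b (a (b (l 1) (a (l 849362466423) (l 1))) (l 1)) (a (b (a (l 16333376) (l 515965122855)) (l 16285608)) (b (l 770442240215) (l 858489065879)))) (a (b (l 16242832) (l 16155672)) (b (c (l 352756334439) (l 15971760)) (l 16187856))))) (a (b (a (l 15953096) (l 15999752)) (a (l 15875104) (l 15917648))) (b (a (l 16052208) (l 16090296)) (l 15991560))))) (b (a (b (l 1) (a (b (a (b (l 680784646583) (l 645887782999)) (l 810707265367)) (a (l 16160288) (b (l 613138896327) (l 16101072)))) (b (l 1) (a (l 685079353591) (l 1))))) (l 1)) (a (a (b (a (l 16108320) (l 16093296)) (l 16041656)) (b (b (a (l 16044936) (l 649645844087)) (a (l 16045336) (l 15996720))) (l 16010528))) (a (a (b (l 691521601319) (l 15961648)) (b (l 880500045239) (l 457983222503))) (b (l 1) (b (l 716217506407) (l 550861650679))))))), by decide +kernel⟩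

theorem c_pm_022_b : CertB 0 536870912 1239849684 370763052 740881858 40050571 3 eng mog cd2q0 cd1q2b pd2 false true false .pp 0 2 2
    ndB2q0 ndB1q2b pcB2 cut_pm_022_b Ext.none :=
  certB2 (fam := false) (s1 := true) (s2 := false) (a := 0) (b := 2) (c := 2) (cn := .pp) (n1 := ndB2q0) (n2 := ndB1q2b) (pc := pcB2) (cut := cut_pm_022_b) (xt := Ext.none) (P1 := 0) (W1 := 536870912) (P2 := 1239849684) (W2 := 370763052) (P3 := 740881858) (W3 := 40050571) (N0 := 3) (En := eng) (mo := mog) (C1 := cd2q0) (C2 := cd1q2b) (C3 := pd2)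
    rfl (fun _ => rfl) k0_pm_022_b

noncomputable def f_pm_023 : ℕ → ℕ → ℕ → ℕ → Bool := onCell 1073741824 536870912 1610612736 536870912 740881858 40050571
    (rowB 3 eng mog cd2q0 cd1q3 pd2 2 false true false .up 0 2 3 (qsf 0 536870912 1610612736 536870912 2) ndB2q0 ndB1q3 pcB2 Cut.none Ext.none)

def k0_pm_023 : ∃ t, chk3 f_pm_023 t 1 1 1 = true :=
  ⟨(a (a (b (b (a (l 15870624) (l 15869296)) (l 117674478247)) (l 2)) (b (a (b (l 15898832) (l 16025376)) (b (l 15981784) (l 16080880))) (b (a (l 2) (l 16262688)) (l 2)))) (a (b (b (a (l 16036656) (l 16023224)) (a (l 16128152) (l 16131656))) (b (l 16323808) (l 16427232))) (b (a (b (l 15950248) (l 16070024)) (b (b (l 15883968) (l 15908488)) (l 15912088))) (a (l 16424216) (l 16572880))))), by decide +kernel⟩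

theorem c_pm_023 : CertB 0 536870912 1610612736 536870912 740881858 40050571 3 eng mog cd2q0 cd1q3 pd2 false true false .up 0 2 3
    ndB2q0 ndB1q3 pcB2 Cut.none Ext.none :=
  certB2 (fam := false) (s1 := true) (s2 := false) (a := 0) (b := 2) (c := 3) (cn := .up) (n1 := ndB2q0) (n2 := ndB1q3) (pc := pcB2) (cut := Cut.none) (xt := Ext.none) (P1 := 0) (W1 := 536870912) (P2 := 1610612736) (W2 := 536870912) (P3 := 740881858) (W3 := 40050571) (N0 := 3) (En := eng) (mo := mog) (C1 := cd2q0) (C2 := cd1q3) (C3 := pd2)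
    rfl (fun _ => rfl) k0_pm_023

noncomputable def f_pm_033 : ℕ → ℕ → ℕ → ℕ → Bool := onCell 0 536870912 1610612736 536870912 740881858 40050571
    (rowB 3 eng mog cd2q0 cd1q3 pd3 1 false true false .pnn 0 3 3 (qsf 0 536870912 1610612736 536870912 3) ndB2q0 ndB1q3 pcB3 Cut.none Ext.none)

def k0_pm_033 : ∃ t, chk3 f_pm_033 t 1 1 1 = true :=
  ⟨(a (b (b (b (a (a (l 15876072) (l 15864392)) (l 15932384)) (a (a (l 15802656) (l 4)) (l 4))) (l 4)) (a (l 4) (b (l 4) (a (b (l 4) (l 2)) (l 2))))) (b (b (b (l 2934234244231) (l 4)) (a (l 4) (a (b (l 4) (l 2)) (l 2)))) (a (b (a (b (l 4) (l 2)) (l 2)) (l 2)) (l 2)))), by decide +kernel⟩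

theorem c_pm_033 : CertB 0 536870912 1610612736 536870912 740881858 40050571 3 eng mog cd2q0 cd1q3 pd3 false true false .pnn 0 3 3
    ndB2q0 ndB1q3 pcB3 Cut.none Ext.none :=
  certB1 (fam := false) (s1 := true) (s2 := false) (a := 0) (b := 3) (c := 3) (cn := .pnn) (n1 := ndB2q0) (n2 := ndB1q3) (pc := pcB3) (cut := Cut.none) (xt := Ext.none) (P1 := 0) (W1 := 536870912) (P2 := 1610612736) (W2 := 536870912) (P3 := 740881858) (W3 := 40050571) (N0 := 3) (En := eng) (mo := mog) (C1 := cd2q0) (C2 := cd1q3) (C3 := pd3)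
    rfl (fun _ => rfl) k0_pm_033

noncomputable def f_pm_101 : ℕ → ℕ → ℕ → ℕ → Bool := onCell 0 536870912 536870912 536870912 740881858 40050571
    (rowB 3 eng mog cd2q1 cd1q1 pd0 2 false true false .npn 1 0 1 (qsf 536870912 536870912 536870912 536870912 0) ndB2q1 ndB1q1 pcB0 Cut.none Ext.none)

def k0_pm_101 : ∃ t, chk3 f_pm_101 t 1 1 1 = true :=
  ⟨(a (b (l 4) (a (b (l 4) (b (l 4) (a (b (l 4) (a (b (l 15695856) (l 15662784)) (l 15640592))) (l 4)))) (l 4))) (l 4)), by decide +kernel⟩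

theorem c_pm_101 : CertB 536870912 536870912 536870912 536870912 740881858 40050571 3 eng mog cd2q1 cd1q1 pd0 false true false .npn 1 0 1
    ndB2q1 ndB1q1 pcB0 Cut.none Ext.none :=
  certB2 (fam := false) (s1 := true) (s2 := false) (a := 1) (b := 0) (c := 1) (cn := .npn) (n1 := ndB2q1) (n2 := ndB1q1) (pc := pcB0) (cut := Cut.none) (xt := Ext.none) (P1 := 536870912) (W1 := 536870912) (P2 := 536870912) (W2 := 536870912) (P3 := 740881858) (W3 := 40050571) (N0 := 3) (En := eng) (mo := mog) (C1 := cd2q1) (C2 := cd1q1) (C3 := pd0)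
    rfl (fun _ => rfl) k0_pm_101

noncomputable def f_pm_102_a : ℕ → ℕ → ℕ → ℕ → Bool := onCell 0 536870912 0 536870912 740881858 40050571
    (rowB 3 eng mog cd2q1 cd1q2a pd0 2 false true false .npp 1 0 2 (qsf 536870912 536870912 0 536870912 0) ndB2q1 ndB1q2a pcB0 Cut.none Ext.none)

def k0_pm_102_a : ∃ t, chk3 f_pm_102_a t 2 1 1 = true :=
  ⟨(b (a (a (l 2) (b (l 2) (a (l 2) (b (l 2) (b (l 2) (l 16430688)))))) (b (a (a (b (l 16487784) (l 16466880)) (b (l 16475456) (l 16459488))) (a (a (l 16526184) (l 16459168)) (l 16454248))) (a (a (b (l 16453432) (b (l 16446048) (l 16432136))) (b (l 16451000) (b (l 16447432) (l 16436504)))) (a (b (l 16446816) (b (l 16444224) (l 16435336))) (b (l 16437712) (l 16427208)))))) (a (b (a (l 2) (b (a (l 2) (b (l 16404048) (l 16376888))) (a (b (l 16340936) (l 16308368)) (b (l 16347688) (l 16314808))))) (a (b (a (l 2) (b (a (l 2) (l 16267232)) (b (l 16244520) (l 16228320)))) (b (a (a (l 2) (b (a (l 2) (l 16207288)) (l 16184288)))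 (b (a (l 16252808) (l 16211688)) (a (l 16184144) (l 16178712)))) (a (b (a (l 16153592) (a (b (l 16161104) (l 16144848)) (l 16152288))) (a (b (a (l 16127440) (l 16126904)) (a (l 16109152) (l 16104992))) (b (l 16122288) (l 16094080)))) (b (l 16142592) (l 16091000))))) (b (a (b (l 16273984) (l 16301032)) (b (l 16275488) (l 16228624))) (b (a (b (l 16204768) (l 16166136)) (l 16168320)) (a (l 16097744) (l 16082568)))))) (b (a (b (a (l 16396184) (l 16400584)) (a (l 16335480) (l 16334256))) (b (a (l 16397728) (l 16385944)) (a (l 16326936) (l 16314832)))) (b (a (b (l 16266584) (a (l 16216576) (l 16205464))) (b (l 16246152) (l 16424720))) (a (a (l 16115552) (l 16108296)) (l 16169648)))))), by decide +kernel⟩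

def k1_pm_102_a : ∃ t, chk3 f_pm_102_a t 3 1 1 = true :=
  ⟨(a (a (b (b (a (l 16451768) (l 16452608)) (a (b (l 16434528) (l 16422216)) (l 16471368))) (b (a (b (l 16380040) (l 16307880)) (l 16388712)) (b (a (l 16210968) (l 16212104)) (l 16117256)))) (b (b (a (l 16450728) (l 16440440)) (a (l 16529096) (l 16402760))) (b (a (b (l 16375936) (l 16303136)) (l 16320288)) (b (a (l 16214728) (l 16206440)) (l 16133960))))) (b (b (a (l 16422072) (l 16401712)) (a (l 16367968) (l 16336384))) (b (b (a (l 16317328) (l 16285448)) (a (l 16260024) (l 16246432))) (b (a (l 16198776) (l 16206032)) (a (l 16147832) (l 16172280)))))), by decide +kernel⟩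

theorem s2_pm_102_a : ∃ t, chk3 f_pm_102_a t 1 1 1 = true := ex3_a k0_pm_102_a k1_pm_102_a

theorem c_pm_102_a : CertB 536870912 536870912 0 536870912 740881858 40050571 3 eng mog cd2q1 cd1q2a pd0 false true false .npp 1 0 2
    ndB2q1 ndB1q2a pcB0 Cut.none Ext.none :=
  certB2 (fam := false) (s1 := true) (s2 := false) (a := 1) (b := 0) (c := 2) (cn := .npp) (n1 := ndB2q1) (n2 := ndB1q2a) (pc := pcB0) (cut := Cut.none) (xt := Ext.none) (P1 := 536870912) (W1 := 536870912) (P2 := 0) (W2 := 536870912) (P3 := 740881858) (W3 := 40050571) (N0 := 3) (En := eng) (mo := mog) (C1 := cd2q1) (C2 := cd1q2a) (C3 := pd0)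
    rfl (fun _ => rfl) s2_pm_102_a

noncomputable def f_pm_102_b : ℕ → ℕ → ℕ → ℕ → Bool := onCell 536870912 536870912 0 536870912 740881858 40050571
    (rowB 3 eng mog cd2q1 cd1q2b pd0 1 false true false .npp 1 0 2 (qsf 536870912 536870912 1239849684 370763052 0) ndB2q1 ndB1q2b pcB0 Cut.none Ext.none)

def k0_pm_102_b : ∃ t, chk3 f_pm_102_b t 1 1 1 = true :=
  ⟨(a (b (l 1) (b (l 1) (a (l 1) (b (l 135861813127) (l 16558784))))) (b (b (l 1) (a (l 1) (b (a (l 1) (a (b (l 1) (l 16540568)) (b (l 16552776) (l 16505400)))) (a (b (b (l 1) (l 16543032)) (l 16536800)) (b (a (b (l 16490536) (l 16457864)) (l 16587280)) (a (l 16412856) (l 16358632))))))) (b (a (a (b (l 1) (l 16668008)) (b (b (l 16540296) (l 16487728)) (l 16415608))) (b (b (a (l 16437656) (l 16436560)) (a (l 16387480) (l 16283600))) (a (l 16322576) (l 16223728)))) (a (b (l 16398440) (l 16323432)) (a (l 16298280) (l 16152096)))))), by decide +kernel⟩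

theorem c_pm_102_b : CertB 536870912 536870912 1239849684 370763052 740881858 40050571 3 eng mog cd2q1 cd1q2b pd0 false true false .npp 1 0 2
    ndB2q1 ndB1q2b pcB0 Cut.none Ext.none :=
  certB1 (fam := false) (s1 := true) (s2 := false) (a := 1) (b := 0) (c := 2) (cn := .npp) (n1 := ndB2q1) (n2 := ndB1q2b) (pc := pcB0) (cut := Cut.none) (xt := Ext.none) (P1 := 536870912) (W1 := 536870912) (P2 := 1239849684) (W2 := 370763052) (P3 := 740881858) (W3 := 40050571) (N0 := 3) (En := eng) (mo := mog) (C1 := cd2q1) (C2 := cd1q2b) (C3 := pd0)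
    rfl (fun _ => rfl) k0_pm_102_b

noncomputable def f_pm_112_a : ℕ → ℕ → ℕ → ℕ → Bool := onCell 536870912 536870912 0 536870912 740881858 40050571
    (rowB 3 eng mog cd2q1 cd1q2a pd1 2 false true false .dn 1 1 2 (qsf 536870912 536870912 0 536870912 1) ndB2q1 ndB1q2a pcB1 Cut.none Ext.none)

def k0_pm_112_a : ∃ t, chk3 f_pm_112_a t 1 1 1 = true :=
  ⟨(a (b (a (b (l 16326408) (l 16276016)) (b (l 16266928) (l 198138283191))) (a (a (b (l 16301936) (b (l 16199080) (l 16186416))) (b (l 111165221127) (b (l 16191472) (l 1)))) (b (l 1) (l 1)))) (l 1)), by decide +kernel⟩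

theorem c_pm_112_a : CertB 536870912 536870912 0 536870912 740881858 40050571 3 eng mog cd2q1 cd1q2a pd1 false true false .dn 1 1 2
    ndB2q1 ndB1q2a pcB1 Cut.none Ext.none :=
  certB2 (fam := false) (s1 := true) (s2 := false) (a := 1) (b := 1) (c := 2) (cn := .dn) (n1 := ndB2q1) (n2 := ndB1q2a) (pc := pcB1) (cut := Cut.none) (xt := Ext.none) (P1 := 536870912) (W1 := 536870912) (P2 := 0) (W2 := 536870912) (P3 := 740881858) (W3 := 40050571) (N0 := 3) (En := eng) (mo := mog) (C1 := cd2q1) (C2 := cd1q2a) (C3 := pd1)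
    rfl (fun _ => rfl) k0_pm_112_a

noncomputable def f_pm_112_b : ℕ → ℕ → ℕ → ℕ → Bool := onCell 536870912 536870912 1239849684 370763052 740881858 40050571
    (rowB 3 eng mog cd2q1 cd1q2b pd1 2 false true false .dn 1 1 2 (qsf 536870912 536870912 1239849684 370763052 1) ndB2q1 ndB1q2b pcB1 Cut.none Ext.none)

def k0_pm_112_b : ∃ t, chk3 f_pm_112_b t 1 1 1 = true :=
  ⟨(a (b (a (b (l 16329288) (l 16289168)) (b (l 16279632) (l 16254200))) (a (a (b (l 16243640) (l 16205672)) (l 16269768)) (l 16282840))) (b (a (b (l 1) (l 16131840)) (l 1)) (a (l 177200315847) (l 311954408551)))), by decide +kernel⟩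

theorem c_pm_112_b : CertB 536870912 536870912 1239849684 370763052 740881858 40050571 3 eng mog cd2q1 cd1q2b pd1 false true false .dn 1 1 2
    ndB2q1 ndB1q2b pcB1 Cut.none Ext.none :=
  certB2 (fam := false) (s1 := true) (s2 := false) (a := 1) (b := 1) (c := 2) (cn := .dn) (n1 := ndB2q1) (n2 := ndB1q2b) (pc := pcB1) (cut := Cut.none) (xt := Ext.none) (P1 := 536870912) (W1 := 536870912) (P2 := 1239849684) (W2 := 370763052) (P3 := 740881858) (W3 := 40050571) (N0 := 3) (En := eng) (mo := mog) (C1 := cd2q1) (C2 := cd1q2b) (C3 := pd1)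
    rfl (fun _ => rfl) k0_pm_112_b

noncomputable def f_pm_113 : ℕ → ℕ → ℕ → ℕ → Bool := onCell 536870912 536870912 536870912 536870912 740881858 40050571
    (rowB 3 eng mog cd2q1 cd1q3 pd1 1 false true false .nn 1 1 3 (qsf 536870912 536870912 1610612736 536870912 1) ndB2q1 ndB1q3 pcB1 Cut.none Ext.none)

def k0_pm_113 : ∃ t, chk3 f_pm_113 t 1 1 1 = true :=
  ⟨(a (b (b (l 1) (l 251825471543)) (b (l 273837057559) (a (l 16032440) (l 16399736)))) (b (a (b (l 16257488) (l 16350608)) (b (a (l 16238360) (l 16222928)) (l 16533984))) (b (a (l 16675048) (l 17005288)) (a (l 16867984) (l 16915520))))), by decide +kernel⟩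

theorem c_pm_113 : CertB 536870912 536870912 1610612736 536870912 740881858 40050571 3 eng mog cd2q1 cd1q3 pd1 false true false .nn 1 1 3
    ndB2q1 ndB1q3 pcB1 Cut.none Ext.none :=
  certB1 (fam := false) (s1 := true) (s2 := false) (a := 1) (b := 1) (c := 3) (cn := .nn) (n1 := ndB2q1) (n2 := ndB1q3) (pc := pcB1) (cut := Cut.none) (xt := Ext.none) (P1 := 536870912) (W1 := 536870912) (P2 := 1610612736) (W2 := 536870912) (P3 := 740881858) (W3 := 40050571) (N0 := 3) (En := eng) (mo := mog) (C1 := cd2q1) (C2 := cd1q3) (C3 := pd1)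
    rfl (fun _ => rfl) k0_pm_113

noncomputable def f_pm_123 : ℕ → ℕ → ℕ → ℕ → Bool := onCell 1073741824 536870912 1610612736 536870912 740881858 40050571
    (rowB 3 eng mog cd2q1 cd1q3 pd2 2 false true false .npn 1 2 3 (qsf 536870912 536870912 1610612736 536870912 2) ndB2q1 ndB1q3 pcB2 Cut.none Ext.none)

def k0_pm_123 : ∃ t, chk3 f_pm_123 t 1 1 1 = true :=
  ⟨(a (a (b (b (a (l 15934264) (l 15928528)) (l 16315696)) (b (a (l 16616480) (l 16485312)) (a (l 16630064) (l 16511240)))) (b (a (b (l 15972944) (l 16121960)) (l 434898193335)) (b (a (l 16413064) (l 16436576)) (a (l 16448256) (l 16489248))))) (a (b (a (l 455836377207) (l 1)) (b (l 16263968) (l 16554664))) (b (l 1) (a (l 16568184) (l 16591000))))), by decide +kernel⟩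

theorem c_pm_123 : CertB 536870912 536870912 1610612736 536870912 740881858 40050571 3 eng mog cd2q1 cd1q3 pd2 false true false .npn 1 2 3
    ndB2q1 ndB1q3 pcB2 Cut.none Ext.none :=
  certB2 (fam := false) (s1 := true) (s2 := false) (a := 1) (b := 2) (c := 3) (cn := .npn) (n1 := ndB2q1) (n2 := ndB1q3) (pc := pcB2) (cut := Cut.none) (xt := Ext.none) (P1 := 536870912) (W1 := 536870912) (P2 := 1610612736) (W2 := 536870912) (P3 := 740881858) (W3 := 40050571) (N0 := 3) (En := eng) (mo := mog) (C1 := cd2q1) (C2 := cd1q3) (C3 := pd2)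
    rfl (fun _ => rfl) k0_pm_123

noncomputable def f_pm_133 : ℕ → ℕ → ℕ → ℕ → Bool := onCell 1610612736 536870912 1610612736 536870912 740881858 40050571
    (rowB 3 eng mog cd2q1 cd1q3 pd3 2 false true false .dn 1 3 3 (qsf 536870912 536870912 1610612736 536870912 3) ndB2q1 ndB1q3 pcB3 Cut.none Ext.none)

def k0_pm_133 : ∃ t, chk3 f_pm_133 t 1 1 1 = true :=
  ⟨(a (b (l 1) (a (a (l 4) (l 1)) (l 1))) (l 1)), by decide +kernel⟩

theorem c_pm_133 : CertB 536870912 536870912 1610612736 536870912 740881858 40050571 3 eng mog cd2q1 cd1q3 pd3 false true false .dn 1 3 3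
    ndB2q1 ndB1q3 pcB3 Cut.none Ext.none :=
  certB2 (fam := false) (s1 := true) (s2 := false) (a := 1) (b := 3) (c := 3) (cn := .dn) (n1 := ndB2q1) (n2 := ndB1q3) (pc := pcB3) (cut := Cut.none) (xt := Ext.none) (P1 := 536870912) (W1 := 536870912) (P2 := 1610612736) (W2 := 536870912) (P3 := 740881858) (W3 := 40050571) (N0 := 3) (En := eng) (mo := mog) (C1 := cd2q1) (C2 := cd1q3) (C3 := pd3)
    rfl (fun _ => rfl) k0_pm_133

noncomputable def cut_pm_202_aa : Cut := Cut.of [[⟨0, 1, 0, 67108864⟩, ⟨1, 0, 0, 67108864⟩, ⟨2, 1, 0, 67108864⟩]]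

noncomputable def f_pm_202_aa : ℕ → ℕ → ℕ → ℕ → Bool := onCell 0 536870912 0 536870912 740881858 40050571
    (rowB 3 eng mog cd2q2a cd1q2a pd0 0 false true false .pp 2 0 2 (qsf 0 536870912 0 536870912 0) ndB2q2a ndB1q2a pcB0 cut_pm_202_aa Ext.none)

def k0_pm_202_aa : ∃ t, chk3 f_pm_202_aa t 1 1 1 = true :=
  ⟨(a (l 3) (b (l 3) (b (l 3) (a (l 3) (b (l 3) (a (l 3) (l 6))))))), by decide +kernel⟩

theorem c_pm_202_aa : CertB 0 536870912 0 536870912 740881858 40050571 3 eng mog cd2q2a cd1q2a pd0 false true false .pp 2 0 2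
    ndB2q2a ndB1q2a pcB0 cut_pm_202_aa Ext.none :=
  certB0 (fam := false) (s1 := true) (s2 := false) (a := 2) (b := 0) (c := 2) (cn := .pp) (n1 := ndB2q2a) (n2 := ndB1q2a) (pc := pcB0) (cut := cut_pm_202_aa) (xt := Ext.none) (P1 := 0) (W1 := 536870912) (P2 := 0) (W2 := 536870912) (P3 := 740881858) (W3 := 40050571) (N0 := 3) (En := eng) (mo := mog) (C1 := cd2q2a) (C2 := cd1q2a) (C3 := pd0)
    rfl k0_pm_202_aa

noncomputable def cut_pm_202_ab : Cut := Cut.of [[⟨0, 1, 0, 67108864⟩, ⟨1, 0, 0, 67108864⟩, ⟨2, 1, 0, 67108864⟩]]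

noncomputable def f_pm_202_ab : ℕ → ℕ → ℕ → ℕ → Bool := onCell 0 536870912 1239849684 370763052 740881858 40050571
    (rowB 3 eng mog cd2q2a cd1q2b pd0 0 false true false .pp 2 0 2 (qsf 0 536870912 1239849684 370763052 0) ndB2q2a ndB1q2b pcB0 cut_pm_202_ab Ext.none)

def k0_pm_202_ab : ∃ t, chk3 f_pm_202_ab t 1 1 1 = true :=
  ⟨(l 3), by decide +kernel⟩

theorem c_pm_202_ab : CertB 0 536870912 1239849684 370763052 740881858 40050571 3 eng mog cd2q2a cd1q2b pd0 false true false .pp 2 0 2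
    ndB2q2a ndB1q2b pcB0 cut_pm_202_ab Ext.none :=
  certB0 (fam := false) (s1 := true) (s2 := false) (a := 2) (b := 0) (c := 2) (cn := .pp) (n1 := ndB2q2a) (n2 := ndB1q2b) (pc := pcB0) (cut := cut_pm_202_ab) (xt := Ext.none) (P1 := 0) (W1 := 536870912) (P2 := 1239849684) (W2 := 370763052) (P3 := 740881858) (W3 := 40050571) (N0 := 3) (En := eng) (mo := mog) (C1 := cd2q2a) (C2 := cd1q2b) (C3 := pd0)
    rfl k0_pm_202_ab

noncomputable def cut_pm_202_ba : Cut := Cut.of [[⟨0, 1, 0, 67108864⟩, ⟨1, 0, 0, 67108864⟩, ⟨2, 1, 0, 67108864⟩]]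

noncomputable def f_pm_202_ba : ℕ → ℕ → ℕ → ℕ → Bool := onCell 1239849684 370763052 0 536870912 740881858 40050571
    (rowB 3 eng mog cd2q2b cd1q2a pd0 0 false true false .pp 2 0 2 (qsf 1239849684 370763052 0 536870912 0) ndB2q2b ndB1q2a pcB0 cut_pm_202_ba Ext.none)

def k0_pm_202_ba : ∃ t, chk3 f_pm_202_ba t 1 1 1 = true :=
  ⟨(l 3), by decide +kernel⟩

theorem c_pm_202_ba : CertB 1239849684 370763052 0 536870912 740881858 40050571 3 eng mog cd2q2b cd1q2a pd0 false true false .pp 2 0 2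
    ndB2q2b ndB1q2a pcB0 cut_pm_202_ba Ext.none :=
  certB0 (fam := false) (s1 := true) (s2 := false) (a := 2) (b := 0) (c := 2) (cn := .pp) (n1 := ndB2q2b) (n2 := ndB1q2a) (pc := pcB0) (cut := cut_pm_202_ba) (xt := Ext.none) (P1 := 1239849684) (W1 := 370763052) (P2 := 0) (W2 := 536870912) (P3 := 740881858) (W3 := 40050571) (N0 := 3) (En := eng) (mo := mog) (C1 := cd2q2b) (C2 := cd1q2a) (C3 := pd0)
    rfl k0_pm_202_ba

noncomputable def cut_pm_202_bb : Cut := Cut.of [[⟨0, 1, 0, 67108864⟩, ⟨1, 0, 0, 67108864⟩, ⟨2, 1, 0, 67108864⟩]]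

noncomputable def f_pm_202_bb : ℕ → ℕ → ℕ → ℕ → Bool := onCell 1239849684 370763052 1239849684 370763052 740881858 40050571
    (rowB 3 eng mog cd2q2b cd1q2b pd0 0 false true false .pp 2 0 2 (qsf 1239849684 370763052 1239849684 370763052 0) ndB2q2b ndB1q2b pcB0 cut_pm_202_bb Ext.none)

def k0_pm_202_bb : ∃ t, chk3 f_pm_202_bb t 1 1 1 = true :=
  ⟨(l 3), by decide +kernel⟩

theorem c_pm_202_bb : CertB 1239849684 370763052 1239849684 370763052 740881858 40050571 3 eng mog cd2q2b cd1q2b pd0 false true false .pp 2 0 2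
    ndB2q2b ndB1q2b pcB0 cut_pm_202_bb Ext.none :=
  certB0 (fam := false) (s1 := true) (s2 := false) (a := 2) (b := 0) (c := 2) (cn := .pp) (n1 := ndB2q2b) (n2 := ndB1q2b) (pc := pcB0) (cut := cut_pm_202_bb) (xt := Ext.none) (P1 := 1239849684) (W1 := 370763052) (P2 := 1239849684) (W2 := 370763052) (P3 := 740881858) (W3 := 40050571) (N0 := 3) (En := eng) (mo := mog) (C1 := cd2q2b) (C2 := cd1q2b) (C3 := pd0)
    rfl k0_pm_202_bb

noncomputable def f_pm_203_a : ℕ → ℕ → ℕ → ℕ → Bool := onCell 0 536870912 0 536870912 740881858 40050571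
    (rowB 3 eng mog cd2q2a cd1q3 pd0 1 false true false .up 2 0 3 (qsf 0 536870912 1610612736 536870912 0) ndB2q2a ndB1q3 pcB0 Cut.none Ext.none)

def k0_pm_203_a : ∃ t, chk3 f_pm_203_a t 1 1 1 = true :=
  ⟨(l 3), by decide +kernel⟩

theorem c_pm_203_a : CertB 0 536870912 1610612736 536870912 740881858 40050571 3 eng mog cd2q2a cd1q3 pd0 false true false .up 2 0 3
    ndB2q2a ndB1q3 pcB0 Cut.none Ext.none :=
  certB1 (fam := false) (s1 := true) (s2 := false) (a := 2) (b := 0) (c := 3) (cn := .up) (n1 := ndB2q2a) (n2 := ndB1q3) (pc := pcB0) (cut := Cut.none) (xt := Ext.none) (P1 := 0) (W1 := 536870912) (P2 := 1610612736) (W2 := 536870912) (P3 := 740881858) (W3 := 40050571) (N0 := 3) (En := eng) (mo := mog) (C1 := cd2q2a) (C2 := cd1q3) (C3 := pd0)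
    rfl (fun _ => rfl) k0_pm_203_a

noncomputable def f_pm_203_b : ℕ → ℕ → ℕ → ℕ → Bool := onCell 1239849684 370763052 1610612736 536870912 740881858 40050571
    (rowB 3 eng mog cd2q2b cd1q3 pd0 0 false true false .up 2 0 3 (qsf 1239849684 370763052 1610612736 536870912 0) ndB2q2b ndB1q3 pcB0 Cut.none Ext.none)

def k0_pm_203_b : ∃ t, chk3 f_pm_203_b t 1 1 1 = true :=
  ⟨(l 3), by decide +kernel⟩

theorem c_pm_203_b : CertB 1239849684 370763052 1610612736 536870912 740881858 40050571 3 eng mog cd2q2b cd1q3 pd0 false true false .up 2 0 3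
    ndB2q2b ndB1q3 pcB0 Cut.none Ext.none :=
  certB0 (fam := false) (s1 := true) (s2 := false) (a := 2) (b := 0) (c := 3) (cn := .up) (n1 := ndB2q2b) (n2 := ndB1q3) (pc := pcB0) (cut := Cut.none) (xt := Ext.none) (P1 := 1239849684) (W1 := 370763052) (P2 := 1610612736) (W2 := 536870912) (P3 := 740881858) (W3 := 40050571) (N0 := 3) (En := eng) (mo := mog) (C1 := cd2q2b) (C2 := cd1q3) (C3 := pd0)
    rfl k0_pm_203_b

noncomputable def cut_pm_213_a : Cut := Cut.of [[⟨0, 1, 0, 67108864⟩, ⟨1, 1, 0, 67108864⟩, ⟨2, 2, 0, 16777216⟩]]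

noncomputable def f_pm_213_a : ℕ → ℕ → ℕ → ℕ → Bool := onCell 0 536870912 1610612736 536870912 740881858 40050571
    (rowB 3 eng mog cd2q2a cd1q3 pd1 0 false true false .pnn 2 1 3 (qsf 0 536870912 1610612736 536870912 1) ndB2q2a ndB1q3 pcB1 cut_pm_213_a Ext.none)

def k0_pm_213_a : ∃ t, chk3 f_pm_213_a t 1 1 1 = true :=
  ⟨(b (l 3) (b (l 3) (a (l 3) (a (l 3) (b (l 3) (a (l 3) (b (l 3) (b (l 3) (b (l 3) (l 6)))))))))), by decide +kernel⟩

theorem c_pm_213_a : CertB 0 536870912 1610612736 536870912 740881858 40050571 3 eng mog cd2q2a cd1q3 pd1 false true false .pnn 2 1 3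
    ndB2q2a ndB1q3 pcB1 cut_pm_213_a Ext.none :=
  certB0 (fam := false) (s1 := true) (s2 := false) (a := 2) (b := 1) (c := 3) (cn := .pnn) (n1 := ndB2q2a) (n2 := ndB1q3) (pc := pcB1) (cut := cut_pm_213_a) (xt := Ext.none) (P1 := 0) (W1 := 536870912) (P2 := 1610612736) (W2 := 536870912) (P3 := 740881858) (W3 := 40050571) (N0 := 3) (En := eng) (mo := mog) (C1 := cd2q2a) (C2 := cd1q3) (C3 := pd1)
    rfl k0_pm_213_a

noncomputable def cut_pm_213_b : Cut := Cut.of [[⟨0, 1, 0, 67108864⟩, ⟨1, 1, 0, 67108864⟩, ⟨2, 2, 0, 16777216⟩]]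

noncomputable def f_pm_213_b : ℕ → ℕ → ℕ → ℕ → Bool := onCell 1239849684 370763052 1610612736 536870912 740881858 40050571
    (rowB 3 eng mog cd2q2b cd1q3 pd1 0 false true false .pnn 2 1 3 (qsf 1239849684 370763052 1610612736 536870912 1) ndB2q2b ndB1q3 pcB1 cut_pm_213_b Ext.none)

def k0_pm_213_b : ∃ t, chk3 f_pm_213_b t 1 1 1 = true :=
  ⟨(l 3), by decide +kernel⟩

theorem c_pm_213_b : CertB 1239849684 370763052 1610612736 536870912 740881858 40050571 3 eng mog cd2q2b cd1q3 pd1 false true false .pnn 2 1 3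
    ndB2q2b ndB1q3 pcB1 cut_pm_213_b Ext.none :=
  certB0 (fam := false) (s1 := true) (s2 := false) (a := 2) (b := 1) (c := 3) (cn := .pnn) (n1 := ndB2q2b) (n2 := ndB1q3) (pc := pcB1) (cut := cut_pm_213_b) (xt := Ext.none) (P1 := 1239849684) (W1 := 370763052) (P2 := 1610612736) (W2 := 536870912) (P3 := 740881858) (W3 := 40050571) (N0 := 3) (En := eng) (mo := mog) (C1 := cd2q2b) (C2 := cd1q3) (C3 := pd1)
    rfl k0_pm_213_b

noncomputable def f_pm_303 : ℕ → ℕ → ℕ → ℕ → Bool := onCell 1610612736 536870912 1610612736 536870912 740881858 40050571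
    (rowB 3 eng mog cd2q3 cd1q3 pd0 0 false true false .npn 3 0 3 (qsf 1610612736 536870912 1610612736 536870912 0) ndB2q3 ndB1q3 pcB0 Cut.none Ext.none)

def k0_pm_303 : ∃ t, chk3 f_pm_303 t 1 1 1 = true :=
  ⟨(l 3), by decide +kernel⟩

theorem c_pm_303 : CertB 1610612736 536870912 1610612736 536870912 740881858 40050571 3 eng mog cd2q3 cd1q3 pd0 false true false .npn 3 0 3
    ndB2q3 ndB1q3 pcB0 Cut.none Ext.none :=
  certB0 (fam := false) (s1 := true) (s2 := false) (a := 3) (b := 0) (c := 3) (cn := .npn) (n1 := ndB2q3) (n2 := ndB1q3) (pc := pcB0) (cut := Cut.none) (xt := Ext.none) (P1 := 1610612736) (W1 := 536870912) (P2 := 1610612736) (W2 := 536870912) (P3 := 740881858) (W3 := 40050571) (N0 := 3) (En := eng) (mo := mog) (C1 := cd2q3) (C2 := cd1q3) (C3 := pd0)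
    rfl k0_pm_303

noncomputable def f_pm_313 : ℕ → ℕ → ℕ → ℕ → Bool := onCell 1610612736 536870912 1610612736 536870912 740881858 40050571
    (rowB 3 eng mog cd2q3 cd1q3 pd1 0 false true false .dn 3 1 3 (qsf 1610612736 536870912 1610612736 536870912 1) ndB2q3 ndB1q3 pcB1 Cut.none Ext.none)

def k0_pm_313 : ∃ t, chk3 f_pm_313 t 1 1 1 = true :=
  ⟨(l 3), by decide +kernel⟩

theorem c_pm_313 : CertB 1610612736 536870912 1610612736 536870912 740881858 40050571 3 eng mog cd2q3 cd1q3 pd1 false true false .dn 3 1 3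
    ndB2q3 ndB1q3 pcB1 Cut.none Ext.none :=
  certB0 (fam := false) (s1 := true) (s2 := false) (a := 3) (b := 1) (c := 3) (cn := .dn) (n1 := ndB2q3) (n2 := ndB1q3) (pc := pcB1) (cut := Cut.none) (xt := Ext.none) (P1 := 1610612736) (W1 := 536870912) (P2 := 1610612736) (W2 := 536870912) (P3 := 740881858) (W3 := 40050571) (N0 := 3) (En := eng) (mo := mog) (C1 := cd2q3) (C2 := cd1q3) (C3 := pd1)
    rfl k0_pm_313

noncomputable def f_mm_001 : ℕ → ℕ → ℕ → ℕ → Bool := onCell 0 536870912 536870912 536870912 740881858 40050571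
    (rowB 3 eng mog cd2q0 cd1q1 pd0 0 false false false .up 0 0 1 (qsf 0 536870912 536870912 536870912 0) ndB2q0 ndB1q1 pcB0 Cut.none Ext.none)

def k0_mm_001 : ∃ t, chk3 f_mm_001 t 1 1 1 = true :=
  ⟨(l 5), by decide +kernel⟩

theorem c_mm_001 : CertB 0 536870912 536870912 536870912 740881858 40050571 3 eng mog cd2q0 cd1q1 pd0 false false false .up 0 0 1
    ndB2q0 ndB1q1 pcB0 Cut.none Ext.none :=
  certB0 (fam := false) (s1 := false) (s2 := false) (a := 0) (b := 0) (c := 1) (cn := .up) (n1 := ndB2q0) (n2 := ndB1q1) (pc := pcB0) (cut := Cut.none) (xt := Ext.none) (P1 := 0) (W1 := 536870912) (P2 := 536870912) (W2 := 536870912) (P3 := 740881858) (W3 := 40050571) (N0 := 3) (En := eng) (mo := mog) (C1 := cd2q0) (C2 := cd1q1) (C3 := pd0)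
    rfl k0_mm_001

noncomputable def f_mm_011 : ℕ → ℕ → ℕ → ℕ → Bool := onCell 0 536870912 536870912 536870912 740881858 40050571
    (rowB 3 eng mog cd2q0 cd1q1 pd1 0 false false false .pnn 0 1 1 (qsf 0 536870912 536870912 536870912 1) ndB2q0 ndB1q1 pcB1 Cut.none Ext.none)

def k0_mm_011 : ∃ t, chk3 f_mm_011 t 1 1 1 = true :=
  ⟨(l 5), by decide +kernel⟩

theorem c_mm_011 : CertB 0 536870912 536870912 536870912 740881858 40050571 3 eng mog cd2q0 cd1q1 pd1 false false false .pnn 0 1 1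
    ndB2q0 ndB1q1 pcB1 Cut.none Ext.none :=
  certB0 (fam := false) (s1 := false) (s2 := false) (a := 0) (b := 1) (c := 1) (cn := .pnn) (n1 := ndB2q0) (n2 := ndB1q1) (pc := pcB1) (cut := Cut.none) (xt := Ext.none) (P1 := 0) (W1 := 536870912) (P2 := 536870912) (W2 := 536870912) (P3 := 740881858) (W3 := 40050571) (N0 := 3) (En := eng) (mo := mog) (C1 := cd2q0) (C2 := cd1q1) (C3 := pd1)
    rfl k0_mm_011

noncomputable def f_mm_012_a : ℕ → ℕ → ℕ → ℕ → Bool := onCell 0 536870912 0 536870912 740881858 40050571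
    (rowB 3 eng mog cd2q0 cd1q2a pd1 0 false false false .pnp 0 1 2 (qsf 0 536870912 0 536870912 1) ndB2q0 ndB1q2a pcB1 Cut.none Ext.none)

def k0_mm_012_a : ∃ t, chk3 f_mm_012_a t 1 1 1 = true :=
  ⟨(l 5), by decide +kernel⟩

theorem c_mm_012_a : CertB 0 536870912 0 536870912 740881858 40050571 3 eng mog cd2q0 cd1q2a pd1 false false false .pnp 0 1 2
    ndB2q0 ndB1q2a pcB1 Cut.none Ext.none :=
  certB0 (fam := false) (s1 := false) (s2 := false) (a := 0) (b := 1) (c := 2) (cn := .pnp) (n1 := ndB2q0) (n2 := ndB1q2a) (pc := pcB1) (cut := Cut.none) (xt := Ext.none) (P1 := 0) (W1 := 536870912) (P2 := 0) (W2 := 536870912) (P3 := 740881858) (W3 := 40050571) (N0 := 3) (En := eng) (mo := mog) (C1 := cd2q0) (C2 := cd1q2a) (C3 := pd1)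
    rfl k0_mm_012_a

noncomputable def f_mm_012_b : ℕ → ℕ → ℕ → ℕ → Bool := onCell 0 536870912 1239849684 370763052 740881858 40050571
    (rowB 3 eng mog cd2q0 cd1q2b pd1 0 false false false .pnp 0 1 2 (qsf 0 536870912 1239849684 370763052 1) ndB2q0 ndB1q2b pcB1 Cut.none Ext.none)

def k0_mm_012_b : ∃ t, chk3 f_mm_012_b t 1 1 1 = true :=
  ⟨(l 5), by decide +kernel⟩

theorem c_mm_012_b : CertB 0 536870912 1239849684 370763052 740881858 40050571 3 eng mog cd2q0 cd1q2b pd1 false false false .pnp 0 1 2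
    ndB2q0 ndB1q2b pcB1 Cut.none Ext.none :=
  certB0 (fam := false) (s1 := false) (s2 := false) (a := 0) (b := 1) (c := 2) (cn := .pnp) (n1 := ndB2q0) (n2 := ndB1q2b) (pc := pcB1) (cut := Cut.none) (xt := Ext.none) (P1 := 0) (W1 := 536870912) (P2 := 1239849684) (W2 := 370763052) (P3 := 740881858) (W3 := 40050571) (N0 := 3) (En := eng) (mo := mog) (C1 := cd2q0) (C2 := cd1q2b) (C3 := pd1)
    rfl k0_mm_012_b

noncomputable def f_mm_022_a : ℕ → ℕ → ℕ → ℕ → Bool := onCell 0 536870912 0 536870912 740881858 40050571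
    (rowB 3 eng mog cd2q0 cd1q2a pd2 0 false false false .pp 0 2 2 (qsf 0 536870912 0 536870912 2) ndB2q0 ndB1q2a pcB2 Cut.none Ext.none)

def k0_mm_022_a : ∃ t, chk3 f_mm_022_a t 1 1 1 = true :=
  ⟨(l 5), by decide +kernel⟩

theorem c_mm_022_a : CertB 0 536870912 0 536870912 740881858 40050571 3 eng mog cd2q0 cd1q2a pd2 false false false .pp 0 2 2
    ndB2q0 ndB1q2a pcB2 Cut.none Ext.none :=
  certB0 (fam := false) (s1 := false) (s2 := false) (a := 0) (b := 2) (c := 2) (cn := .pp) (n1 := ndB2q0) (n2 := ndB1q2a) (pc := pcB2) (cut := Cut.none) (xt := Ext.none) (P1 := 0) (W1 := 536870912) (P2 := 0) (W2 := 536870912) (P3 := 740881858) (W3 := 40050571) (N0 := 3) (En := eng) (mo := mog) (C1 := cd2q0) (C2 := cd1q2a) (C3 := pd2)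
    rfl k0_mm_022_a

noncomputable def f_mm_022_b : ℕ → ℕ → ℕ → ℕ → Bool := onCell 0 536870912 1239849684 370763052 740881858 40050571
    (rowB 3 eng mog cd2q0 cd1q2b pd2 0 false false false .pp 0 2 2 (qsf 0 536870912 1239849684 370763052 2) ndB2q0 ndB1q2b pcB2 Cut.none Ext.none)

def k0_mm_022_b : ∃ t, chk3 f_mm_022_b t 1 1 1 = true :=
  ⟨(l 5), by decide +kernel⟩

theorem c_mm_022_b : CertB 0 536870912 1239849684 370763052 740881858 40050571 3 eng mog cd2q0 cd1q2b pd2 false false false .pp 0 2 2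
    ndB2q0 ndB1q2b pcB2 Cut.none Ext.none :=
  certB0 (fam := false) (s1 := false) (s2 := false) (a := 0) (b := 2) (c := 2) (cn := .pp) (n1 := ndB2q0) (n2 := ndB1q2b) (pc := pcB2) (cut := Cut.none) (xt := Ext.none) (P1 := 0) (W1 := 536870912) (P2 := 1239849684) (W2 := 370763052) (P3 := 740881858) (W3 := 40050571) (N0 := 3) (En := eng) (mo := mog) (C1 := cd2q0) (C2 := cd1q2b) (C3 := pd2)
    rfl k0_mm_022_b

noncomputable def f_mm_023 : ℕ → ℕ → ℕ → ℕ → Bool := onCell 0 536870912 1610612736 536870912 740881858 40050571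
    (rowB 3 eng mog cd2q0 cd1q3 pd2 0 false false false .up 0 2 3 (qsf 0 536870912 1610612736 536870912 2) ndB2q0 ndB1q3 pcB2 Cut.none Ext.none)

def k0_mm_023 : ∃ t, chk3 f_mm_023 t 1 1 1 = true :=
  ⟨(l 5), by decide +kernel⟩

theorem c_mm_023 : CertB 0 536870912 1610612736 536870912 740881858 40050571 3 eng mog cd2q0 cd1q3 pd2 false false false .up 0 2 3
    ndB2q0 ndB1q3 pcB2 Cut.none Ext.none :=
  certB0 (fam := false) (s1 := false) (s2 := false) (a := 0) (b := 2) (c := 3) (cn := .up) (n1 := ndB2q0) (n2 := ndB1q3) (pc := pcB2) (cut := Cut.none) (xt := Ext.none) (P1 := 0) (W1 := 536870912) (P2 := 1610612736) (W2 := 536870912) (P3 := 740881858) (W3 := 40050571) (N0 := 3) (En := eng) (mo := mog) (C1 := cd2q0) (C2 := cd1q3) (C3 := pd2)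
    rfl k0_mm_023

noncomputable def f_mm_033 : ℕ → ℕ → ℕ → ℕ → Bool := onCell 0 536870912 1610612736 536870912 740881858 40050571
    (rowB 3 eng mog cd2q0 cd1q3 pd3 0 false false false .pnn 0 3 3 (qsf 0 536870912 1610612736 536870912 3) ndB2q0 ndB1q3 pcB3 Cut.none Ext.none)

def k0_mm_033 : ∃ t, chk3 f_mm_033 t 1 1 1 = true :=
  ⟨(l 5), by decide +kernel⟩

theorem c_mm_033 : CertB 0 536870912 1610612736 536870912 740881858 40050571 3 eng mog cd2q0 cd1q3 pd3 false false false .pnn 0 3 3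
    ndB2q0 ndB1q3 pcB3 Cut.none Ext.none :=
  certB0 (fam := false) (s1 := false) (s2 := false) (a := 0) (b := 3) (c := 3) (cn := .pnn) (n1 := ndB2q0) (n2 := ndB1q3) (pc := pcB3) (cut := Cut.none) (xt := Ext.none) (P1 := 0) (W1 := 536870912) (P2 := 1610612736) (W2 := 536870912) (P3 := 740881858) (W3 := 40050571) (N0 := 3) (En := eng) (mo := mog) (C1 := cd2q0) (C2 := cd1q3) (C3 := pd3)
    rfl k0_mm_033

noncomputable def f_mm_101 : ℕ → ℕ → ℕ → ℕ → Bool := onCell 536870912 536870912 536870912 536870912 740881858 40050571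
    (rowB 3 eng mog cd2q1 cd1q1 pd0 0 false false false .npn 1 0 1 (qsf 536870912 536870912 536870912 536870912 0) ndB2q1 ndB1q1 pcB0 Cut.none Ext.none)

def k0_mm_101 : ∃ t, chk3 f_mm_101 t 1 1 1 = true :=
  ⟨(l 3), by decide +kernel⟩

theorem c_mm_101 : CertB 536870912 536870912 536870912 536870912 740881858 40050571 3 eng mog cd2q1 cd1q1 pd0 false false false .npn 1 0 1
    ndB2q1 ndB1q1 pcB0 Cut.none Ext.none :=
  certB0 (fam := false) (s1 := false) (s2 := false) (a := 1) (b := 0) (c := 1) (cn := .npn) (n1 := ndB2q1) (n2 := ndB1q1) (pc := pcB0) (cut := Cut.none) (xt := Ext.none) (P1 := 536870912) (W1 := 536870912) (P2 := 536870912) (W2 := 536870912) (P3 := 740881858) (W3 := 40050571) (N0 := 3) (En := eng) (mo := mog) (C1 := cd2q1) (C2 := cd1q1) (C3 := pd0)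
    rfl k0_mm_101

noncomputable def f_mm_102_a : ℕ → ℕ → ℕ → ℕ → Bool := onCell 536870912 536870912 0 536870912 740881858 40050571
    (rowB 3 eng mog cd2q1 cd1q2a pd0 0 false false false .npp 1 0 2 (qsf 536870912 536870912 0 536870912 0) ndB2q1 ndB1q2a pcB0 Cut.none Ext.none)

def k0_mm_102_a : ∃ t, chk3 f_mm_102_a t 1 1 1 = true :=
  ⟨(l 5), by decide +kernel⟩

theorem c_mm_102_a : CertB 536870912 536870912 0 536870912 740881858 40050571 3 eng mog cd2q1 cd1q2a pd0 false false false .npp 1 0 2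
    ndB2q1 ndB1q2a pcB0 Cut.none Ext.none :=
  certB0 (fam := false) (s1 := false) (s2 := false) (a := 1) (b := 0) (c := 2) (cn := .npp) (n1 := ndB2q1) (n2 := ndB1q2a) (pc := pcB0) (cut := Cut.none) (xt := Ext.none) (P1 := 536870912) (W1 := 536870912) (P2 := 0) (W2 := 536870912) (P3 := 740881858) (W3 := 40050571) (N0 := 3) (En := eng) (mo := mog) (C1 := cd2q1) (C2 := cd1q2a) (C3 := pd0)
    rfl k0_mm_102_a

noncomputable def f_mm_102_b : ℕ → ℕ → ℕ → ℕ → Bool := onCell 536870912 536870912 1239849684 370763052 740881858 40050571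
    (rowB 3 eng mog cd2q1 cd1q2b pd0 0 false false false .npp 1 0 2 (qsf 536870912 536870912 1239849684 370763052 0) ndB2q1 ndB1q2b pcB0 Cut.none Ext.none)

def k0_mm_102_b : ∃ t, chk3 f_mm_102_b t 1 1 1 = true :=
  ⟨(l 5), by decide +kernel⟩

theorem c_mm_102_b : CertB 536870912 536870912 1239849684 370763052 740881858 40050571 3 eng mog cd2q1 cd1q2b pd0 false false false .npp 1 0 2
    ndB2q1 ndB1q2b pcB0 Cut.none Ext.none :=
  certB0 (fam := false) (s1 := false) (s2 := false) (a := 1) (b := 0) (c := 2) (cn := .npp) (n1 := ndB2q1) (n2 := ndB1q2b) (pc := pcB0) (cut := Cut.none) (xt := Ext.none) (P1 := 536870912) (W1 := 536870912) (P2 := 1239849684) (W2 := 370763052) (P3 := 740881858) (W3 := 40050571) (N0 := 3) (En := eng) (mo := mog) (C1 := cd2q1) (C2 := cd1q2b) (C3 := pd0)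
    rfl k0_mm_102_b

noncomputable def f_mm_112_a : ℕ → ℕ → ℕ → ℕ → Bool := onCell 536870912 536870912 0 536870912 740881858 40050571
    (rowB 3 eng mog cd2q1 cd1q2a pd1 0 false false false .dn 1 1 2 (qsf 536870912 536870912 0 536870912 1) ndB2q1 ndB1q2a pcB1 Cut.none Ext.none)

def k0_mm_112_a : ∃ t, chk3 f_mm_112_a t 1 1 1 = true :=
  ⟨(l 5), by decide +kernel⟩

theorem c_mm_112_a : CertB 536870912 536870912 0 536870912 740881858 40050571 3 eng mog cd2q1 cd1q2a pd1 false false false .dn 1 1 2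
    ndB2q1 ndB1q2a pcB1 Cut.none Ext.none :=
  certB0 (fam := false) (s1 := false) (s2 := false) (a := 1) (b := 1) (c := 2) (cn := .dn) (n1 := ndB2q1) (n2 := ndB1q2a) (pc := pcB1) (cut := Cut.none) (xt := Ext.none) (P1 := 536870912) (W1 := 536870912) (P2 := 0) (W2 := 536870912) (P3 := 740881858) (W3 := 40050571) (N0 := 3) (En := eng) (mo := mog) (C1 := cd2q1) (C2 := cd1q2a) (C3 := pd1)
    rfl k0_mm_112_a

noncomputable def f_mm_112_b : ℕ → ℕ → ℕ → ℕ → Bool := onCell 536870912 536870912 1239849684 370763052 740881858 40050571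
    (rowB 3 eng mog cd2q1 cd1q2b pd1 0 false false false .dn 1 1 2 (qsf 536870912 536870912 1239849684 370763052 1) ndB2q1 ndB1q2b pcB1 Cut.none Ext.none)

def k0_mm_112_b : ∃ t, chk3 f_mm_112_b t 1 1 1 = true :=
  ⟨(l 5), by decide +kernel⟩

theorem c_mm_112_b : CertB 536870912 536870912 1239849684 370763052 740881858 40050571 3 eng mog cd2q1 cd1q2b pd1 false false false .dn 1 1 2
    ndB2q1 ndB1q2b pcB1 Cut.none Ext.none :=
  certB0 (fam := false) (s1 := false) (s2 := false) (a := 1) (b := 1) (c := 2) (cn := .dn) (n1 := ndB2q1) (n2 := ndB1q2b) (pc := pcB1) (cut := Cut.none) (xt := Ext.none) (P1 := 536870912) (W1 := 536870912) (P2 := 1239849684) (W2 := 370763052) (P3 := 740881858) (W3 := 40050571) (N0 := 3) (En := eng) (mo := mog) (C1 := cd2q1) (C2 := cd1q2b) (C3 := pd1)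
    rfl k0_mm_112_b

noncomputable def f_mm_113 : ℕ → ℕ → ℕ → ℕ → Bool := onCell 536870912 536870912 1610612736 536870912 740881858 40050571
    (rowB 3 eng mog cd2q1 cd1q3 pd1 0 false false false .nn 1 1 3 (qsf 536870912 536870912 1610612736 536870912 1) ndB2q1 ndB1q3 pcB1 Cut.none Ext.none)

def k0_mm_113 : ∃ t, chk3 f_mm_113 t 1 1 1 = true :=
  ⟨(l 5), by decide +kernel⟩

theorem c_mm_113 : CertB 536870912 536870912 1610612736 536870912 740881858 40050571 3 eng mog cd2q1 cd1q3 pd1 false false false .nn 1 1 3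
    ndB2q1 ndB1q3 pcB1 Cut.none Ext.none :=
  certB0 (fam := false) (s1 := false) (s2 := false) (a := 1) (b := 1) (c := 3) (cn := .nn) (n1 := ndB2q1) (n2 := ndB1q3) (pc := pcB1) (cut := Cut.none) (xt := Ext.none) (P1 := 536870912) (W1 := 536870912) (P2 := 1610612736) (W2 := 536870912) (P3 := 740881858) (W3 := 40050571) (N0 := 3) (En := eng) (mo := mog) (C1 := cd2q1) (C2 := cd1q3) (C3 := pd1)
    rfl k0_mm_113

noncomputable def f_mm_123 : ℕ → ℕ → ℕ → ℕ → Bool := onCell 536870912 536870912 1610612736 536870912 740881858 40050571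
    (rowB 3 eng mog cd2q1 cd1q3 pd2 0 false false false .npn 1 2 3 (qsf 536870912 536870912 1610612736 536870912 2) ndB2q1 ndB1q3 pcB2 Cut.none Ext.none)

def k0_mm_123 : ∃ t, chk3 f_mm_123 t 1 1 1 = true :=
  ⟨(l 5), by decide +kernel⟩

theorem c_mm_123 : CertB 536870912 536870912 1610612736 536870912 740881858 40050571 3 eng mog cd2q1 cd1q3 pd2 false false false .npn 1 2 3
    ndB2q1 ndB1q3 pcB2 Cut.none Ext.none :=
  certB0 (fam := false) (s1 := false) (s2 := false) (a := 1) (b := 2) (c := 3) (cn := .npn) (n1 := ndB2q1) (n2 := ndB1q3) (pc := pcB2) (cut := Cut.none) (xt := Ext.none) (P1 := 536870912) (W1 := 536870912) (P2 := 1610612736) (W2 := 536870912) (P3 := 740881858) (W3 := 40050571) (N0 := 3) (En := eng) (mo := mog) (C1 := cd2q1) (C2 := cd1q3) (C3 := pd2)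
    rfl k0_mm_123

noncomputable def f_mm_133 : ℕ → ℕ → ℕ → ℕ → Bool := onCell 536870912 536870912 1610612736 536870912 740881858 40050571
    (rowB 3 eng mog cd2q1 cd1q3 pd3 0 false false false .dn 1 3 3 (qsf 536870912 536870912 1610612736 536870912 3) ndB2q1 ndB1q3 pcB3 Cut.none Ext.none)

def k0_mm_133 : ∃ t, chk3 f_mm_133 t 1 1 1 = true :=
  ⟨(l 5), by decide +kernel⟩

theorem c_mm_133 : CertB 536870912 536870912 1610612736 536870912 740881858 40050571 3 eng mog cd2q1 cd1q3 pd3 false false false .dn 1 3 3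
    ndB2q1 ndB1q3 pcB3 Cut.none Ext.none :=
  certB0 (fam := false) (s1 := false) (s2 := false) (a := 1) (b := 3) (c := 3) (cn := .dn) (n1 := ndB2q1) (n2 := ndB1q3) (pc := pcB3) (cut := Cut.none) (xt := Ext.none) (P1 := 536870912) (W1 := 536870912) (P2 := 1610612736) (W2 := 536870912) (P3 := 740881858) (W3 := 40050571) (N0 := 3) (En := eng) (mo := mog) (C1 := cd2q1) (C2 := cd1q3) (C3 := pd3)
    rfl k0_mm_133

noncomputable def f_mm_202_aa : ℕ → ℕ → ℕ → ℕ → Bool := onCell 0 536870912 0 536870912 740881858 40050571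
    (rowB 3 eng mog cd2q2a cd1q2a pd0 0 false false false .pp 2 0 2 (qsf 0 536870912 0 536870912 0) ndB2q2a ndB1q2a pcB0 Cut.none Ext.none)

def k0_mm_202_aa : ∃ t, chk3 f_mm_202_aa t 1 1 1 = true :=
  ⟨(l 3), by decide +kernel⟩

theorem c_mm_202_aa : CertB 0 536870912 0 536870912 740881858 40050571 3 eng mog cd2q2a cd1q2a pd0 false false false .pp 2 0 2
    ndB2q2a ndB1q2a pcB0 Cut.none Ext.none :=
  certB0 (fam := false) (s1 := false) (s2 := false) (a := 2) (b := 0) (c := 2) (cn := .pp) (n1 := ndB2q2a) (n2 := ndB1q2a) (pc := pcB0) (cut := Cut.none) (xt := Ext.none) (P1 := 0) (W1 := 536870912) (P2 := 0) (W2 := 536870912) (P3 := 740881858) (W3 := 40050571) (N0 := 3) (En := eng) (mo := mog) (C1 := cd2q2a) (C2 := cd1q2a) (C3 := pd0)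
    rfl k0_mm_202_aa

noncomputable def f_mm_202_ab : ℕ → ℕ → ℕ → ℕ → Bool := onCell 0 536870912 1239849684 370763052 740881858 40050571
    (rowB 3 eng mog cd2q2a cd1q2b pd0 0 false false false .pp 2 0 2 (qsf 0 536870912 1239849684 370763052 0) ndB2q2a ndB1q2b pcB0 Cut.none Ext.none)

def k0_mm_202_ab : ∃ t, chk3 f_mm_202_ab t 1 1 1 = true :=
  ⟨(l 3), by decide +kernel⟩

theorem c_mm_202_ab : CertB 0 536870912 1239849684 370763052 740881858 40050571 3 eng mog cd2q2a cd1q2b pd0 false false false .pp 2 0 2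
    ndB2q2a ndB1q2b pcB0 Cut.none Ext.none :=
  certB0 (fam := false) (s1 := false) (s2 := false) (a := 2) (b := 0) (c := 2) (cn := .pp) (n1 := ndB2q2a) (n2 := ndB1q2b) (pc := pcB0) (cut := Cut.none) (xt := Ext.none) (P1 := 0) (W1 := 536870912) (P2 := 1239849684) (W2 := 370763052) (P3 := 740881858) (W3 := 40050571) (N0 := 3) (En := eng) (mo := mog) (C1 := cd2q2a) (C2 := cd1q2b) (C3 := pd0)
    rfl k0_mm_202_ab

noncomputable def f_mm_202_ba : ℕ → ℕ → ℕ → ℕ → Bool := onCell 1239849684 370763052 0 536870912 740881858 40050571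
    (rowB 3 eng mog cd2q2b cd1q2a pd0 0 false false false .pp 2 0 2 (qsf 1239849684 370763052 0 536870912 0) ndB2q2b ndB1q2a pcB0 Cut.none Ext.none)

def k0_mm_202_ba : ∃ t, chk3 f_mm_202_ba t 1 1 1 = true :=
  ⟨(l 3), by decide +kernel⟩

theorem c_mm_202_ba : CertB 1239849684 370763052 0 536870912 740881858 40050571 3 eng mog cd2q2b cd1q2a pd0 false false false .pp 2 0 2
    ndB2q2b ndB1q2a pcB0 Cut.none Ext.none :=
  certB0 (fam := false) (s1 := false) (s2 := false) (a := 2) (b := 0) (c := 2) (cn := .pp) (n1 := ndB2q2b) (n2 := ndB1q2a) (pc := pcB0) (cut := Cut.none) (xt := Ext.none) (P1 := 1239849684) (W1 := 370763052) (P2 := 0) (W2 := 536870912) (P3 := 740881858) (W3 := 40050571) (N0 := 3) (En := eng) (mo := mog) (C1 := cd2q2b) (C2 := cd1q2a) (C3 := pd0)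
    rfl k0_mm_202_ba

noncomputable def f_mm_202_bb : ℕ → ℕ → ℕ → ℕ → Bool := onCell 1239849684 370763052 1239849684 370763052 740881858 40050571
    (rowB 3 eng mog cd2q2b cd1q2b pd0 0 false false false .pp 2 0 2 (qsf 1239849684 370763052 1239849684 370763052 0) ndB2q2b ndB1q2b pcB0 Cut.none Ext.none)

def k0_mm_202_bb : ∃ t, chk3 f_mm_202_bb t 1 1 1 = true :=
  ⟨(l 3), by decide +kernel⟩

theorem c_mm_202_bb : CertB 1239849684 370763052 1239849684 370763052 740881858 40050571 3 eng mog cd2q2b cd1q2b pd0 false false false .pp 2 0 2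
    ndB2q2b ndB1q2b pcB0 Cut.none Ext.none :=
  certB0 (fam := false) (s1 := false) (s2 := false) (a := 2) (b := 0) (c := 2) (cn := .pp) (n1 := ndB2q2b) (n2 := ndB1q2b) (pc := pcB0) (cut := Cut.none) (xt := Ext.none) (P1 := 1239849684) (W1 := 370763052) (P2 := 1239849684) (W2 := 370763052) (P3 := 740881858) (W3 := 40050571) (N0 := 3) (En := eng) (mo := mog) (C1 := cd2q2b) (C2 := cd1q2b) (C3 := pd0)
    rfl k0_mm_202_bb

noncomputable def f_mm_203_a : ℕ → ℕ → ℕ → ℕ → Bool := onCell 0 536870912 1610612736 536870912 740881858 40050571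
    (rowB 3 eng mog cd2q2a cd1q3 pd0 0 false false false .up 2 0 3 (qsf 0 536870912 1610612736 536870912 0) ndB2q2a ndB1q3 pcB0 Cut.none Ext.none)

def k0_mm_203_a : ∃ t, chk3 f_mm_203_a t 1 1 1 = true :=
  ⟨(l 5), by decide +kernel⟩

theorem c_mm_203_a : CertB 0 536870912 1610612736 536870912 740881858 40050571 3 eng mog cd2q2a cd1q3 pd0 false false false .up 2 0 3
    ndB2q2a ndB1q3 pcB0 Cut.none Ext.none :=
  certB0 (fam := false) (s1 := false) (s2 := false) (a := 2) (b := 0) (c := 3) (cn := .up) (n1 := ndB2q2a) (n2 := ndB1q3) (pc := pcB0) (cut := Cut.none) (xt := Ext.none) (P1 := 0) (W1 := 536870912) (P2 := 1610612736) (W2 := 536870912) (P3 := 740881858) (W3 := 40050571) (N0 := 3) (En := eng) (mo := mog) (C1 := cd2q2a) (C2 := cd1q3) (C3 := pd0)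
    rfl k0_mm_203_a

noncomputable def f_mm_203_b : ℕ → ℕ → ℕ → ℕ → Bool := onCell 1239849684 370763052 1610612736 536870912 740881858 40050571
    (rowB 3 eng mog cd2q2b cd1q3 pd0 0 false false false .up 2 0 3 (qsf 1239849684 370763052 1610612736 536870912 0) ndB2q2b ndB1q3 pcB0 Cut.none Ext.none)

def k0_mm_203_b : ∃ t, chk3 f_mm_203_b t 1 1 1 = true :=
  ⟨(l 3), by decide +kernel⟩

theorem c_mm_203_b : CertB 1239849684 370763052 1610612736 536870912 740881858 40050571 3 eng mog cd2q2b cd1q3 pd0 false false false .up 2 0 3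
    ndB2q2b ndB1q3 pcB0 Cut.none Ext.none :=
  certB0 (fam := false) (s1 := false) (s2 := false) (a := 2) (b := 0) (c := 3) (cn := .up) (n1 := ndB2q2b) (n2 := ndB1q3) (pc := pcB0) (cut := Cut.none) (xt := Ext.none) (P1 := 1239849684) (W1 := 370763052) (P2 := 1610612736) (W2 := 536870912) (P3 := 740881858) (W3 := 40050571) (N0 := 3) (En := eng) (mo := mog) (C1 := cd2q2b) (C2 := cd1q3) (C3 := pd0)
    rfl k0_mm_203_b

noncomputable def f_mm_213_a : ℕ → ℕ → ℕ → ℕ → Bool := onCell 0 536870912 1610612736 536870912 740881858 40050571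
    (rowB 3 eng mog cd2q2a cd1q3 pd1 0 false false false .pnn 2 1 3 (qsf 0 536870912 1610612736 536870912 1) ndB2q2a ndB1q3 pcB1 Cut.none Ext.none)

def k0_mm_213_a : ∃ t, chk3 f_mm_213_a t 1 1 1 = true :=
  ⟨(l 5), by decide +kernel⟩

theorem c_mm_213_a : CertB 0 536870912 1610612736 536870912 740881858 40050571 3 eng mog cd2q2a cd1q3 pd1 false false false .pnn 2 1 3
    ndB2q2a ndB1q3 pcB1 Cut.none Ext.none :=
  certB0 (fam := false) (s1 := false) (s2 := false) (a := 2) (b := 1) (c := 3) (cn := .pnn) (n1 := ndB2q2a) (n2 := ndB1q3) (pc := pcB1) (cut := Cut.none) (xt := Ext.none) (P1 := 0) (W1 := 536870912) (P2 := 1610612736) (W2 := 536870912) (P3 := 740881858) (W3 := 40050571) (N0 := 3) (En := eng) (mo := mog) (C1 := cd2q2a) (C2 := cd1q3) (C3 := pd1)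
    rfl k0_mm_213_a

noncomputable def f_mm_213_b : ℕ → ℕ → ℕ → ℕ → Bool := onCell 1239849684 370763052 1610612736 536870912 740881858 40050571
    (rowB 3 eng mog cd2q2b cd1q3 pd1 0 false false false .pnn 2 1 3 (qsf 1239849684 370763052 1610612736 536870912 1) ndB2q2b ndB1q3 pcB1 Cut.none Ext.none)

def k0_mm_213_b : ∃ t, chk3 f_mm_213_b t 1 1 1 = true :=
  ⟨(l 3), by decide +kernel⟩

theorem c_mm_213_b : CertB 1239849684 370763052 1610612736 536870912 740881858 40050571 3 eng mog cd2q2b cd1q3 pd1 false false false .pnn 2 1 3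
    ndB2q2b ndB1q3 pcB1 Cut.none Ext.none :=
  certB0 (fam := false) (s1 := false) (s2 := false) (a := 2) (b := 1) (c := 3) (cn := .pnn) (n1 := ndB2q2b) (n2 := ndB1q3) (pc := pcB1) (cut := Cut.none) (xt := Ext.none) (P1 := 1239849684) (W1 := 370763052) (P2 := 1610612736) (W2 := 536870912) (P3 := 740881858) (W3 := 40050571) (N0 := 3) (En := eng) (mo := mog) (C1 := cd2q2b) (C2 := cd1q3) (C3 := pd1)
    rfl k0_mm_213_b

noncomputable def f_mm_303 : ℕ → ℕ → ℕ → ℕ → Bool := onCell 1610612736 536870912 1610612736 536870912 740881858 40050571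
    (rowB 3 eng mog cd2q3 cd1q3 pd0 0 false false false .npn 3 0 3 (qsf 1610612736 536870912 1610612736 536870912 0) ndB2q3 ndB1q3 pcB0 Cut.none Ext.none)

def k0_mm_303 : ∃ t, chk3 f_mm_303 t 1 1 1 = true :=
  ⟨(l 3), by decide +kernel⟩

theorem c_mm_303 : CertB 1610612736 536870912 1610612736 536870912 740881858 40050571 3 eng mog cd2q3 cd1q3 pd0 false false false .npn 3 0 3
    ndB2q3 ndB1q3 pcB0 Cut.none Ext.none :=
  certB0 (fam := false) (s1 := false) (s2 := false) (a := 3) (b := 0) (c := 3) (cn := .npn) (n1 := ndB2q3) (n2 := ndB1q3) (pc := pcB0) (cut := Cut.none) (xt := Ext.none) (P1 := 1610612736) (W1 := 536870912) (P2 := 1610612736) (W2 := 536870912) (P3 := 740881858) (W3 := 40050571) (N0 := 3) (En := eng) (mo := mog) (C1 := cd2q3) (C2 := cd1q3) (C3 := pd0)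
    rfl k0_mm_303

noncomputable def f_mm_313 : ℕ → ℕ → ℕ → ℕ → Bool := onCell 1610612736 536870912 1610612736 536870912 740881858 40050571
    (rowB 3 eng mog cd2q3 cd1q3 pd1 0 false false false .dn 3 1 3 (qsf 1610612736 536870912 1610612736 536870912 1) ndB2q3 ndB1q3 pcB1 Cut.none Ext.none)

def k0_mm_313 : ∃ t, chk3 f_mm_313 t 1 1 1 = true :=
  ⟨(l 3), by decide +kernel⟩

theorem c_mm_313 : CertB 1610612736 536870912 1610612736 536870912 740881858 40050571 3 eng mog cd2q3 cd1q3 pd1 false false false .dn 3 1 3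
    ndB2q3 ndB1q3 pcB1 Cut.none Ext.none :=
  certB0 (fam := false) (s1 := false) (s2 := false) (a := 3) (b := 1) (c := 3) (cn := .dn) (n1 := ndB2q3) (n2 := ndB1q3) (pc := pcB1) (cut := Cut.none) (xt := Ext.none) (P1 := 1610612736) (W1 := 536870912) (P2 := 1610612736) (W2 := 536870912) (P3 := 740881858) (W3 := 40050571) (N0 := 3) (En := eng) (mo := mog) (C1 := cd2q3) (C2 := cd1q3) (C3 := pd1)
    rfl k0_mm_313

end Pool.Agent.Strip051.G.I69_7273.Tab.C.BB21

namespace Pool.Agent.Strip051.G.I69_7273.Tab.C.BB22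

open Pool.Agent.Strip051.PB Pool.Agent.Strip051.PB.T
open Pool.Agent.Strip051.G.I69_7273.Tab

noncomputable def f_pp_001 : ℕ → ℕ → ℕ → ℕ → Bool := onCell 0 536870912 536870912 536870912 740881858 40050571
    (rowB 3 eng mog cd2q0 cd2q1 pd0 0 false true true .up 0 0 1 (qsf 0 536870912 536870912 536870912 0) ndB2q0 ndB2q1 pcB0 Cut.none Ext.none)

def k0_pp_001 : ∃ t, chk3 f_pp_001 t 1 1 1 = true :=
  ⟨(l 3), by decide +kernel⟩

theorem c_pp_001 : CertB 0 536870912 536870912 536870912 740881858 40050571 3 eng mog cd2q0 cd2q1 pd0 false true true .up 0 0 1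
    ndB2q0 ndB2q1 pcB0 Cut.none Ext.none :=
  certB0 (fam := false) (s1 := true) (s2 := true) (a := 0) (b := 0) (c := 1) (cn := .up) (n1 := ndB2q0) (n2 := ndB2q1) (pc := pcB0) (cut := Cut.none) (xt := Ext.none) (P1 := 0) (W1 := 536870912) (P2 := 536870912) (W2 := 536870912) (P3 := 740881858) (W3 := 40050571) (N0 := 3) (En := eng) (mo := mog) (C1 := cd2q0) (C2 := cd2q1) (C3 := pd0)
    rfl k0_pp_001

noncomputable def f_pp_011 : ℕ → ℕ → ℕ → ℕ → Bool := onCell 0 536870912 536870912 536870912 740881858 40050571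
    (rowB 3 eng mog cd2q0 cd2q1 pd1 0 false true true .pnn 0 1 1 (qsf 0 536870912 536870912 536870912 1) ndB2q0 ndB2q1 pcB1 Cut.none Ext.none)

def k0_pp_011 : ∃ t, chk3 f_pp_011 t 1 1 1 = true :=
  ⟨(l 3), by decide +kernel⟩

theorem c_pp_011 : CertB 0 536870912 536870912 536870912 740881858 40050571 3 eng mog cd2q0 cd2q1 pd1 false true true .pnn 0 1 1
    ndB2q0 ndB2q1 pcB1 Cut.none Ext.none :=
  certB0 (fam := false) (s1 := true) (s2 := true) (a := 0) (b := 1) (c := 1) (cn := .pnn) (n1 := ndB2q0) (n2 := ndB2q1) (pc := pcB1) (cut := Cut.none) (xt := Ext.none) (P1 := 0) (W1 := 536870912) (P2 := 536870912) (W2 := 536870912) (P3 := 740881858) (W3 := 40050571) (N0 := 3) (En := eng) (mo := mog) (C1 := cd2q0) (C2 := cd2q1) (C3 := pd1)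
    rfl k0_pp_011

noncomputable def cut_pp_012_a : Cut := Cut.of [[⟨0, 0, 0, 67108864⟩, ⟨1, 1, 0, 67108864⟩, ⟨2, 1, 0, 67108864⟩]]

noncomputable def f_pp_012_a : ℕ → ℕ → ℕ → ℕ → Bool := onCell 536870912 536870912 0 536870912 740881858 40050571
    (rowB 3 eng mog cd2q0 cd2q2a pd1 2 false true true .pnp 0 1 2 (qsf 0 536870912 0 536870912 1) ndB2q0 ndB2q2a pcB1 cut_pp_012_a Ext.none)

def k0_pp_012_a : ∃ t, chk3 f_pp_012_a t 2 1 1 = true :=
  ⟨(b (a (b (l 2) (a (l 2) (l 163913230807))) (b (a (b (l 16605736) (a (l 16602544) (l 16609192))) (b (l 16602744) (l 16614136))) (a (a (l 118279092263) (b (l 16593808) (l 16535568))) (a (l 62981344263) (b (l 16623680) (l 16601368)))))) (a (l 3) (a (l 3) (b (b (a (l 3) (l 302425781671)) (l 3)) (l 3))))), by decide +kernel⟩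

def k1_pp_012_a : ∃ t, chk3 f_pp_012_a t 3 1 1 = true :=
  ⟨(a (b (b (a (b (l 16659760) (l 16636992)) (b (l 16585696) (a (l 16608168) (l 16600328)))) (a (a (l 16636920) (b (l 16637376) (l 16654088))) (a (b (l 16634280) (l 16660984)) (b (l 16625880) (l 16655632))))) (a (b (b (a (l 207936518823) (b (l 16632440) (l 16630256))) (a (l 3) (l 256791880167))) (l 3)) (b (a (b (b (l 16671224) (l 16648152)) (b (l 16662648) (l 241759442167))) (b (l 16683736) (b (l 16670728) (l 16685160)))) (b (a (l 3) (b (a (l 272898061031) (l 265918738919)) (l 3))) (l 3))))) (b (a (b (b (l 16566992) (a (l 16591504) (l 16583296))) (a (b (l 16616880) (l 16646080)) (b (l 16609048) (l 16636424)))) (b (b (a (l 16558776) (l 16557848)) (l 16576408)) (a (b (l 16603712) (l 16632208)) (b (l 16601768) (l 16631096))))) (a (b (a (b (l 16679000) (a (l 16669104) (l 16704592))) (b (l 16624232) (b (l 16689344) (l 16703352)))) (b (b (a (a (l 185924960839) (l 16680120)) (a (l 16698256) (l 16710552)))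 (a (a (l 333564543751) (l 247665193319)) (a (b (l 16715336) (l 266992509911)) (b (l 16711264) (l 16724984))))) (a (l 3) (b (b (a (l 3) (l 332490772247)) (l 3)) (l 3))))) (b (a (b (l 16657976) (a (l 16687784) (l 16662976))) (b (l 16657312) (a (l 16681224) (l 16679920)))) (b (a (b (a (l 16708784) (l 16704360)) (a (l 16723960) (l 16727504))) (a (b (l 16699704) (l 16743360)) (b (l 16695688) (a (l 16718440) (l 16716016))))) (a (b (a (b (l 177335190615) (b (l 189146356615) (l 330880225207))) (b (l 16740808) (a (l 186461997655) (l 16753600)))) (a (l 3) (a (b (l 331417120375) (l 3)) (l 6)))) (b (a (b (l 16741816) (l 6)) (l 6)) (l 6)))))))), by decide +kernel⟩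

theorem s2_pp_012_a : ∃ t, chk3 f_pp_012_a t 1 1 1 = true := ex3_a k0_pp_012_a k1_pp_012_a

theorem c_pp_012_a : CertB 0 536870912 0 536870912 740881858 40050571 3 eng mog cd2q0 cd2q2a pd1 false true true .pnp 0 1 2
    ndB2q0 ndB2q2a pcB1 cut_pp_012_a Ext.none :=
  certB2 (fam := false) (s1 := true) (s2 := true) (a := 0) (b := 1) (c := 2) (cn := .pnp) (n1 := ndB2q0) (n2 := ndB2q2a) (pc := pcB1) (cut := cut_pp_012_a) (xt := Ext.none) (P1 := 0) (W1 := 536870912) (P2 := 0) (W2 := 536870912) (P3 := 740881858) (W3 := 40050571) (N0 := 3) (En := eng) (mo := mog) (C1 := cd2q0) (C2 := cd2q2a) (C3 := pd1)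
    rfl (fun _ => rfl) s2_pp_012_a

noncomputable def cut_pp_012_b : Cut := Cut.of [[⟨0, 0, 0, 67108864⟩, ⟨1, 1, 0, 67108864⟩, ⟨2, 1, 0, 67108864⟩]]

noncomputable def f_pp_012_b : ℕ → ℕ → ℕ → ℕ → Bool := onCell 536870912 536870912 1239849684 370763052 740881858 40050571
    (rowB 3 eng mog cd2q0 cd2q2b pd1 2 false true true .pnp 0 1 2 (qsf 0 536870912 1239849684 370763052 1) ndB2q0 ndB2q2b pcB1 cut_pp_012_b Ext.none)

def k0_pp_012_b : ∃ t, chk3 f_pp_012_b t 1 1 1 = true :=
  ⟨(a (a (l 2) (b (b (b (a (b (b (b (l 16601520) (l 16599560)) (l 16596464)) (l 16589936)) (b (b (l 16592208) (l 16583536)) (l 16570536))) (a (l 2) (l 16546744))) (a (l 2) (l 16574560))) (l 2))) (a (a (b (b (b (b (b (l 16582904) (l 16570040)) (l 16551544)) (l 16516728)) (l 16463704)) (l 2)) (b (b (b (b (b (b (l 16571344) (l 16563176)) (l 16551136)) (l 16527888)) (l 16485000)) (l 16436416)) (l 16538984))) (b (b (b (b (a (b (b (l 16554416) (l 16544968)) (l 16531048)) (b (b (a (l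 16546432) (l 16545800)) (l 16534952)) (l 16519304))) (a (l 16504072) (l 16488608))) (a (l 16453672) (a (l 16434488) (l 16426832)))) (a (b (l 16394256) (l 16344856)) (b (l 16359704) (l 16298800)))) (b (a (l 16292096) (l 16228376)) (l 16222104))))), by decide +kernel⟩

theorem c_pp_012_b : CertB 0 536870912 1239849684 370763052 740881858 40050571 3 eng mog cd2q0 cd2q2b pd1 false true true .pnp 0 1 2
    ndB2q0 ndB2q2b pcB1 cut_pp_012_b Ext.none :=
  certB2 (fam := false) (s1 := true) (s2 := true) (a := 0) (b := 1) (c := 2) (cn := .pnp) (n1 := ndB2q0) (n2 := ndB2q2b) (pc := pcB1) (cut := cut_pp_012_b) (xt := Ext.none) (P1 := 0) (W1 := 536870912) (P2 := 1239849684) (W2 := 370763052) (P3 := 740881858) (W3 := 40050571) (N0 := 3) (En := eng) (mo := mog) (C1 := cd2q0) (C2 := cd2q2b) (C3 := pd1)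
    rfl (fun _ => rfl) k0_pp_012_b

noncomputable def cut_pp_022_a : Cut := Cut.of [[⟨0, 0, 0, 67108864⟩, ⟨1, 1, 0, 67108864⟩, ⟨2, 1, 0, 67108864⟩]]

noncomputable def f_pp_022_a : ℕ → ℕ → ℕ → ℕ → Bool := onCell 0 536870912 0 536870912 740881858 40050571
    (rowB 3 eng mog cd2q0 cd2q2a pd2 0 false true true .pp 0 2 2 (qsf 0 536870912 0 536870912 2) ndB2q0 ndB2q2a pcB2 cut_pp_022_a Ext.none)

def k0_pp_022_a : ∃ t, chk3 f_pp_022_a t 4 4 1 = true :=
  ⟨(a (a (b (a (a (a (b (c (a (b (l 16347912) (l 16345416)) (l 16352536)) (b (l 16326080) (l 16323824))) (b (a (c (l 16343768) (l 16319392)) (l 16337864)) (c (l 16346032) (l 16321960)))) (b (l 16370272) (b (l 16346832) (l 16346424)))) (b (l 16366480) (c (l 16375880) (l 16352416)))) (b (l 16441552) (a (l 16387520) (l 16409792)))) (a (a (a (a (b (c (b (l 16343160) (l 16344312)) (b (l 16319280) (l 16320704))) (c (b (l 16346520) (l 16349840)) (b (l 16323184) (l 16326800)))) (b (c (l 16350016) (l 16326360))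 (c (l 16354688) (l 16331560)))) (b (c (l 16359280) (l 16335784)) (c (l 16364304) (l 16341280)))) (c (b (l 16377464) (l 16383176)) (b (l 16354336) (l 16360424)))) (a (b (l 16390048) (l 16396768)) (l 16437976)))) (b (a (a (l 16431304) (l 16430432)) (l 16475312)) (a (c (l 16332840) (l 16417936)) (l 16483456)))) (b (c (a (l 16507536) (l 16486568)) (a (l 16512080) (l 16486560))) (a (l 16526680) (l 16499440)))), by decide +kernel⟩

def k1_pp_022_a : ∃ t, chk3 f_pp_022_a t 4 5 1 = true :=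
  ⟨(a (a (a (b (a (b (a (b (c (a (l 16354344) (l 16361008)) (a (l 16331600) (l 16338288))) (b (c (l 16361896) (l 16339376)) (c (l 16365192) (l 16342744)))) (c (b (l 16370896) (l 16376944)) (b (l 16348240) (l 16354528)))) (a (c (b (l 16371144) (l 16380016)) (b (l 16348392) (l 16351536))) (c (l 16389144) (l 16366392)))) (b (c (l 16393536) (l 16371192)) (c (l 16409176) (l 16386744)))) (a (b (c (a (b (l 16390000) (l 16401128)) (l 16409192)) (a (b (a (l 16362832) (l 16369744)) (a (l 16373520) (l 16380472))) (l 16385536))) (a (c (b (l 16413464) (l 16427072)) (b (a (l 16385472) (l 16392472)) (c (l 16408736) (l 16395680)))) (c (l 16434048) (l 16409712)))) (b (c (l 16429352) (l 16406128)) (c (b (l 16447416) (l 16460016)) (b (l 16423720) (l 16436488)))))) (a (b (b (l 16408176) (c (l 16435176) (l 16413248))) (b (c (l 16455040) (l 16432704)) (b (l 16460216) (l 16470864)))) (b (b (l 16432848) (l 16512248)) (b (l 16466720) (l 16485784))))) (a (a (b (b (l 16455288)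 (l 16469816)) (l 16493048)) (b (l 16438496) (b (l 16504312) (l 16524472)))) (b (l 16505056) (l 16541328)))) (b (a (l 16544720) (l 16514136)) (a (a (l 16571416) (l 16555440)) (a (l 16474360) (l 16517272))))), by decide +kernel⟩

def k2_pp_022_a : ∃ t, chk3 f_pp_022_a t 8 6 1 = true :=
  ⟨(b (a (a (b (a (a (a (b (c (l 16438536) (l 16413464)) (b (l 16448872) (c (b (l 16456896) (l 16460784)) (b (l 16431736) (l 16435784))))) (b (l 16433408) (b (l 16445352) (b (l 16451072) (l 16454464))))) (b (c (l 16455496) (l 16430992)) (b (l 16454416) (l 16461080)))) (b (a (l 16455896) (l 16466752)) (l 16474144))) (a (a (b (c (a (b (a (l 16464608) (l 16467216)) (l 16472696)) (l 16474536)) (b (c (l 16450760) (l 16438000)) (l 16462664))) (c (a (b (l 16479888) (l 16487528)) (l 16489080)) (a (b (l 16457264) (l 16465880)) (l 16467752)))) (b (c (l 16482368) (l 16460384)) (c (l 16497120) (l 16477000)))) (b (l 16488432) (l 16504480)))) (b (a (l 16489072) (l 16509944)) (a (l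 16539648) (l 16540512)))) (a (b (a (l 16530344) (l 16550224)) (a (l 16582720) (l 16581904))) (a (l 16585064) (l 16603344)))) (a (a (b (a (a (a (b (c (b (l 16495624) (l 16504216)) (b (l 16475008) (l 16484680))) (b (c (l 16513336) (l 16494920)) (c (l 16523008) (l 16505768)))) (b (c (l 16505440) (l 16486168)) (c (l 16523848) (l 16506832)))) (b (c (l 16513704) (l 16495648)) (c (l 16532368) (l 16516560)))) (b (a (l 16516664) (l 16528312)) (a (l 16536728) (l 16548696)))) (a (b (a (a (b (c (l 16533264) (l 16517256)) (c (l 16544160) (l 16529424))) (b (l 16531688) (l 16543288))) (c (l 16553352) (l 16540000))) (a (a (b (c (l 16555712) (l 16542320)) (c (l 16567976) (l 16555968))) (b (l 16555584) (l 16568632))) (b (l 16565176) (l 16578368)))) (b (a (l 16559248) (l 16571560)) (b (l 16604856) (l 16617512))))) (b (a (b (l 16545608) (l 16566432)) (b (l 16568184) (l 16588792))) (a (b (l 16609944) (l 16612720)) (l 16622400)))) (b (a (a (l 16599400) (l 16619320)) (l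 16627696)) (a (l 16653456) (l 16636128))))), by decide +kernel⟩

def k3_pp_022_a : ∃ t, chk3 f_pp_022_a t 9 6 1 = true :=
  ⟨(b (a (b (l 16580184) (l 16590600)) (b (l 208875999815) (l 256657503127))) (a (b (a (l 16609296) (l 16588152)) (a (l 16615832) (l 512208101415))) (b (l 540125351095) (l 1)))), by decide +kernel⟩

def k4_pp_022_a : ∃ t, chk3 f_pp_022_a t 4 7 1 = true :=
  ⟨(a (b (b (a (a (a (b (a (b (c (l 16584120) (l 16573960)) (a (b (l 16586656) (l 16594000)) (l 16596600))) (b (l 16591960) (l 16626384))) (a (b (a (b (l 16600536) (l 6)) (l 16608864)) (l 6)) (l 16622664))) (b (b (l 16651280) (l 16622424)) (l 16639888))) (b (l 16628136) (l 16652704))) (b (a (l 16659136) (l 16640160)) (a (l 16665008) (l 16644848)))) (a (l 6) (a (l 6) (b (l 321619034247) (l 481069679847))))) (a (l 6) (a (l 6) (l 1)))) (b (a (b (a (b (l 16618320) (l 479995889255)) (l 1)) (l 1)) (l 1)) (l 1))), by decide +kernel⟩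

def k5_pp_022_a : ∃ t, chk3 f_pp_022_a t 5 1 1 = true :=
  ⟨(b (a (b (b (a (c (l 16457504) (l 16449160)) (l 1)) (a (l 16506192) (l 1))) (a (b (a (l 16486008) (l 16465176)) (b (l 276521692839) (l 309807722439))) (l 1))) (l 1)) (b (l 1) (l 1))), by decide +kernel⟩

def k6_pp_022_a : ∃ t, chk3 f_pp_022_a t 3 1 1 = true :=
  ⟨(l 1), by decide +kernel⟩

theorem s7_pp_022_a : ∃ t, chk3 f_pp_022_a t 4 6 1 = true := ex3_a k2_pp_022_a k3_pp_022_a

theorem s8_pp_022_a : ∃ t, chk3 f_pp_022_a t 4 3 1 = true := ex3_b s7_pp_022_a k4_pp_022_a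

theorem s9_pp_022_a : ∃ t, chk3 f_pp_022_a t 4 2 1 = true := ex3_b k0_pp_022_a k1_pp_022_a

theorem s10_pp_022_a : ∃ t, chk3 f_pp_022_a t 4 1 1 = true := ex3_b s9_pp_022_a s8_pp_022_a

theorem s11_pp_022_a : ∃ t, chk3 f_pp_022_a t 2 1 1 = true := ex3_a s10_pp_022_a k5_pp_022_a

theorem s12_pp_022_a : ∃ t, chk3 f_pp_022_a t 1 1 1 = true := ex3_a s11_pp_022_a k6_pp_022_a

theorem c_pp_022_a : CertB 0 536870912 0 536870912 740881858 40050571 3 eng mog cd2q0 cd2q2a pd2 false true true .pp 0 2 2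
    ndB2q0 ndB2q2a pcB2 cut_pp_022_a Ext.none :=
  certB0 (fam := false) (s1 := true) (s2 := true) (a := 0) (b := 2) (c := 2) (cn := .pp) (n1 := ndB2q0) (n2 := ndB2q2a) (pc := pcB2) (cut := cut_pp_022_a) (xt := Ext.none) (P1 := 0) (W1 := 536870912) (P2 := 0) (W2 := 536870912) (P3 := 740881858) (W3 := 40050571) (N0 := 3) (En := eng) (mo := mog) (C1 := cd2q0) (C2 := cd2q2a) (C3 := pd2)
    rfl s12_pp_022_a

noncomputable def cut_pp_022_b : Cut := Cut.of [[⟨0, 0, 0, 67108864⟩, ⟨1, 1, 0, 67108864⟩, ⟨2, 1, 0, 67108864⟩]]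

noncomputable def f_pp_022_b : ℕ → ℕ → ℕ → ℕ → Bool := onCell 0 536870912 1239849684 370763052 740881858 40050571
    (rowB 3 eng mog cd2q0 cd2q2b pd2 0 false true true .pp 0 2 2 (qsf 0 536870912 1239849684 370763052 2) ndB2q0 ndB2q2b pcB2 cut_pp_022_b Ext.none)

def k0_pp_022_b : ∃ t, chk3 f_pp_022_b t 4 4 2 = true :=
  ⟨(a (b (a (c (a (b (a (b (a (b (b (a (b (a (l 16351736) (l 16354696)) (l 16349128)) (l 16356928)) (l 16346072)) (l 16334472)) (b (b (l 16365336) (l 16357296)) (l 16345448))) (l 16317312)) (b (b (l 16377648) (l 16361776)) (b (l 16346256) (l 16331104)))) (a (b (l 16288256) (l 16260456)) (l 16294912))) (b (b (l 16400832) (a (l 16359520) (l 16379576))) (a (l 16315224) (l 16377000)))) (a (b (a (b (b (a (b (a (l 16349784) (l 16345240)) (l 16334200)) (b (l 16353824) (l 16345936))) (a (l 16322264) (l 16334000))) (l 16304824)) (b (b (l 16366600) (l 16351016)) (l 16348680))) (a (a (l 16254736) (l 16266000)) (l 16282728))) (b (b (l 16390832)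 (l 16444024)) (b (l 16414056) (l 16300824))))) (a (b (b (b (l 16443208) (l 16427256)) (l 16404008)) (b (l 16374248) (l 16366424))) (b (b (l 16468200) (l 16439376)) (l 16395160)))) (b (a (a (a (b (l 16226424) (l 16200704)) (l 16234160)) (l 16264624)) (a (l 16345576) (b (l 16353448) (l 16326520)))) (a (a (a (l 16185448) (l 16184424)) (l 16213816)) (l 16269856)))) (a (b (b (b (l 16493760) (l 16478480)) (l 16439288)) (b (l 16386544) (l 16377064))) (b (b (b (c (l 16475088) (l 16474912)) (l 16462288)) (l 16441528)) (l 16403544)))), by decide +kernel⟩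

def k1_pp_022_b : ∃ t, chk3 f_pp_022_b t 4 4 3 = true :=
  ⟨(a (b (a (b (b (a (a (b (b (a (c (l 16350824) (l 16316864)) (l 16335360)) (a (l 16315336) (l 16327816))) (a (l 16302904) (l 16315840))) (b (l 16348752) (l 16333816))) (c (l 16380064) (l 16368528))) (a (a (a (l 16278608) (l 16291472)) (b (l 16318408) (l 16302504))) (a (l 16334000) (l 16355784)))) (a (a (c (l 16266984) (l 16231088)) (l 16263568)) (a (l 16329984) (l 16353408)))) (b (c (a (l 16447984) (l 16442488)) (a (l 16417064) (l 16476136))) (a (b (l 16358192) (l 16329904)) (l 16382624)))) (a (a (b (a (b (l 16195184) (l 16167896)) (l 16205584)) (a (l 16129432) (l 16152832))) (b (l 16241128) (l 16187312))) (b (a (l 16286672) (l 16307168)) (l 16253192)))) (a (a (b (b (b (l 16483448) (l 16457728)) (l 16417488)) (l 16400680)) (b (b (b (l 16498008) (l 16484528)) (l 16447568)) (l 16370880))) (b (b (b (l 16475288) (l 16463184)) (l 16444544)) (l 16409336)))), by decide +kernel⟩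

def k2_pp_022_b : ∃ t, chk3 f_pp_022_b t 4 5 1 = true :=
  ⟨(a (a (b (a (b (c (l 16130088) (l 16093984)) (c (a (l 16081424) (l 16099888)) (l 16051688))) (b (l 16153344) (l 16110840))) (a (b (a (l 16025664) (l 16044736)) (l 16003880)) (l 16202832))) (b (b (l 16212424) (l 16168016)) (l 16215000))) (b (a (b (a (l 16266680) (l 16299224)) (l 16237496)) (a (l 16325144) (l 16328536))) (a (l 16176920) (l 16233904)))), by decide +kernel⟩

def k3_pp_022_b : ∃ t, chk3 f_pp_022_b t 5 2 1 = true :=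
  ⟨(b (c (b (a (b (b (b (a (l 16450352) (l 351683362407)) (l 173442339159)) (l 163241759879)) (a (l 16421576) (l 16394208))) (b (l 1) (l 405907429575))) (a (a (l 16383536) (l 16364096)) (l 185790233463))) (b (a (b (b (c (l 193306575063) (l 204043993399)) (l 16452304)) (a (l 16413744) (l 16377048))) (b (l 1) (l 380137552487))) (a (a (l 16380792) (l 16349760)) (l 220149981527)))) (a (a (b (b (l 16346264) (l 16324984)) (l 16276360)) (b (l 16313456) (l 16273456))) (b (c (b (l 16297000) (l 16277264)) (a (l 16280448) (l 16245448))) (a (l 16250464) (l 16227640))))), by decide +kernel⟩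

def k4_pp_022_b : ∃ t, chk3 f_pp_022_b t 2 3 1 = true :=
  ⟨(a (b (b (a (a (a (b (l 15977104) (l 15954784)) (l 15998984)) (l 16048704)) (a (l 16111296) (l 16166368))) (a (a (a (l 15929336) (l 15959344)) (l 16004424)) (l 16089616))) (a (a (b (l 15922776) (l 15915960)) (l 15967752)) (l 16126072))) (b (a (b (a (l 16209544) (l 16235728)) (l 16174168)) (b (a (l 16218352) (l 16194280)) (l 16187456))) (a (l 16122488) (l 16153120)))), by decide +kernel⟩

def k5_pp_022_b : ∃ t, chk3 f_pp_022_b t 3 1 1 = true :=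
  ⟨(b (b (l 1) (a (a (b (c (l 16230424) (l 360809976871)) (l 16356208)) (b (l 1) (l 381210977687))) (l 1))) (a (b (a (b (l 16163416) (l 16139032)) (b (l 16112392) (l 16099048))) (a (b (l 16126464) (l 16124920)) (b (l 16083648) (l 16075576)))) (b (a (l 371547277223) (l 1)) (a (l 16048136) (l 16015392))))), by decide +kernel⟩

theorem s6_pp_022_b : ∃ t, chk3 f_pp_022_b t 4 4 1 = true := ex3_c k0_pp_022_b k1_pp_022_b

theorem s7_pp_022_b : ∃ t, chk3 f_pp_022_b t 4 2 1 = true := ex3_b s6_pp_022_b k2_pp_022_b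

theorem s8_pp_022_b : ∃ t, chk3 f_pp_022_b t 2 2 1 = true := ex3_a s7_pp_022_b k3_pp_022_b

theorem s9_pp_022_b : ∃ t, chk3 f_pp_022_b t 2 1 1 = true := ex3_b s8_pp_022_b k4_pp_022_b

theorem s10_pp_022_b : ∃ t, chk3 f_pp_022_b t 1 1 1 = true := ex3_a s9_pp_022_b k5_pp_022_b

theorem c_pp_022_b : CertB 0 536870912 1239849684 370763052 740881858 40050571 3 eng mog cd2q0 cd2q2b pd2 false true true .pp 0 2 2
    ndB2q0 ndB2q2b pcB2 cut_pp_022_b Ext.none :=
  certB0 (fam := false) (s1 := true) (s2 := true) (a := 0) (b := 2) (c := 2) (cn := .pp) (n1 := ndB2q0) (n2 := ndB2q2b) (pc := pcB2) (cut := cut_pp_022_b) (xt := Ext.none) (P1 := 0) (W1 := 536870912) (P2 := 1239849684) (W2 := 370763052) (P3 := 740881858) (W3 := 40050571) (N0 := 3) (En := eng) (mo := mog) (C1 := cd2q0) (C2 := cd2q2b) (C3 := pd2)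
    rfl s10_pp_022_b

noncomputable def f_pp_023 : ℕ → ℕ → ℕ → ℕ → Bool := onCell 1073741824 536870912 1610612736 536870912 740881858 40050571
    (rowB 3 eng mog cd2q0 cd2q3 pd2 2 false true true .up 0 2 3 (qsf 0 536870912 1610612736 536870912 2) ndB2q0 ndB2q3 pcB2 Cut.none Ext.none)

def k0_pp_023 : ∃ t, chk3 f_pp_023 t 1 1 1 = true :=
  ⟨(a (b (a (b (a (l 16060672) (l 16048104)) (l 16310752)) (b (a (l 16102120) (l 16122648)) (a (l 16135880) (l 16181896)))) (a (l 2) (b (a (l 2) (l 16337496)) (l 2)))) (b (a (b (a (l 16131960) (l 16118824)) (a (l 16219776) (l 16199328))) (b (a (b (l 16058808) (l 16105880)) (b (l 15972768) (l 16048696))) (a (l 16100976) (l 16118520)))) (a (b (l 16392608) (l 16461696)) (b (a (l 16369136) (l 16325592)) (l 16526152))))), by decide +kernel⟩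

theorem c_pp_023 : CertB 0 536870912 1610612736 536870912 740881858 40050571 3 eng mog cd2q0 cd2q3 pd2 false true true .up 0 2 3
    ndB2q0 ndB2q3 pcB2 Cut.none Ext.none :=
  certB2 (fam := false) (s1 := true) (s2 := true) (a := 0) (b := 2) (c := 3) (cn := .up) (n1 := ndB2q0) (n2 := ndB2q3) (pc := pcB2) (cut := Cut.none) (xt := Ext.none) (P1 := 0) (W1 := 536870912) (P2 := 1610612736) (W2 := 536870912) (P3 := 740881858) (W3 := 40050571) (N0 := 3) (En := eng) (mo := mog) (C1 := cd2q0) (C2 := cd2q3) (C3 := pd2)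
    rfl (fun _ => rfl) k0_pp_023

noncomputable def f_pp_033 : ℕ → ℕ → ℕ → ℕ → Bool := onCell 0 536870912 1610612736 536870912 740881858 40050571
    (rowB 3 eng mog cd2q0 cd2q3 pd3 1 false true true .pnn 0 3 3 (qsf 0 536870912 1610612736 536870912 3) ndB2q0 ndB2q3 pcB3 Cut.none Ext.none)

def k0_pp_033 : ∃ t, chk3 f_pp_033 t 1 1 1 = true :=
  ⟨(a (b (b (b (a (a (a (l 15899736) (l 15944104)) (l 16000536)) (l 16085656)) (a (a (l 15898816) (l 15974776)) (l 16127576))) (b (a (a (l 15904880) (l 16007432)) (l 16025800)) (a (a (l 15963432) (l 16084048)) (l 4)))) (a (b (l 4) (l 4)) (b (l 4) (a (b (l 4) (l 2)) (l 2))))) (b (a (b (b (l 16331112) (l 16403528)) (b (l 4) (l 4))) (b (b (l 16549032) (l 16656616)) (a (b (l 4) (l 2)) (l 2)))) (a (b (a (b (l 4) (l 2)) (l 2)) (l 2)) (l 2)))), by decide +kernel⟩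

theorem c_pp_033 : CertB 0 536870912 1610612736 536870912 740881858 40050571 3 eng mog cd2q0 cd2q3 pd3 false true true .pnn 0 3 3
    ndB2q0 ndB2q3 pcB3 Cut.none Ext.none :=
  certB1 (fam := false) (s1 := true) (s2 := true) (a := 0) (b := 3) (c := 3) (cn := .pnn) (n1 := ndB2q0) (n2 := ndB2q3) (pc := pcB3) (cut := Cut.none) (xt := Ext.none) (P1 := 0) (W1 := 536870912) (P2 := 1610612736) (W2 := 536870912) (P3 := 740881858) (W3 := 40050571) (N0 := 3) (En := eng) (mo := mog) (C1 := cd2q0) (C2 := cd2q3) (C3 := pd3)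
    rfl (fun _ => rfl) k0_pp_033

noncomputable def f_pp_101 : ℕ → ℕ → ℕ → ℕ → Bool := onCell 536870912 536870912 536870912 536870912 740881858 40050571
    (rowB 3 eng mog cd2q1 cd2q1 pd0 0 false true true .npn 1 0 1 (qsf 536870912 536870912 536870912 536870912 0) ndB2q1 ndB2q1 pcB0 Cut.none Ext.none)

def k0_pp_101 : ∃ t, chk3 f_pp_101 t 1 1 1 = true :=
  ⟨(l 3), by decide +kernel⟩

theorem c_pp_101 : CertB 536870912 536870912 536870912 536870912 740881858 40050571 3 eng mog cd2q1 cd2q1 pd0 false true true .npn 1 0 1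
    ndB2q1 ndB2q1 pcB0 Cut.none Ext.none :=
  certB0 (fam := false) (s1 := true) (s2 := true) (a := 1) (b := 0) (c := 1) (cn := .npn) (n1 := ndB2q1) (n2 := ndB2q1) (pc := pcB0) (cut := Cut.none) (xt := Ext.none) (P1 := 536870912) (W1 := 536870912) (P2 := 536870912) (W2 := 536870912) (P3 := 740881858) (W3 := 40050571) (N0 := 3) (En := eng) (mo := mog) (C1 := cd2q1) (C2 := cd2q1) (C3 := pd0)
    rfl k0_pp_101

noncomputable def f_pp_102_a : ℕ → ℕ → ℕ → ℕ → Bool := onCell 0 536870912 0 536870912 740881858 40050571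
    (rowB 3 eng mog cd2q1 cd2q2a pd0 2 false true true .npp 1 0 2 (qsf 536870912 536870912 0 536870912 0) ndB2q1 ndB2q2a pcB0 Cut.none Ext.none)

def k0_pp_102_a : ∃ t, chk3 f_pp_102_a t 1 1 1 = true :=
  ⟨(b (a (l 3) (a (l 3) (l 3))) (l 3)), by decide +kernel⟩

theorem c_pp_102_a : CertB 536870912 536870912 0 536870912 740881858 40050571 3 eng mog cd2q1 cd2q2a pd0 false true true .npp 1 0 2
    ndB2q1 ndB2q2a pcB0 Cut.none Ext.none :=
  certB2 (fam := false) (s1 := true) (s2 := true) (a := 1) (b := 0) (c := 2) (cn := .npp) (n1 := ndB2q1) (n2 := ndB2q2a) (pc := pcB0) (cut := Cut.none) (xt := Ext.none) (P1 := 536870912) (W1 := 536870912) (P2 := 0) (W2 := 536870912) (P3 := 740881858) (W3 := 40050571) (N0 := 3) (En := eng) (mo := mog) (C1 := cd2q1) (C2 := cd2q2a) (C3 := pd0)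
    rfl (fun _ => rfl) k0_pp_102_a

noncomputable def f_pp_102_b : ℕ → ℕ → ℕ → ℕ → Bool := onCell 536870912 536870912 0 536870912 740881858 40050571
    (rowB 3 eng mog cd2q1 cd2q2b pd0 1 false true true .npp 1 0 2 (qsf 536870912 536870912 1239849684 370763052 0) ndB2q1 ndB2q2b pcB0 Cut.none Ext.none)

def k0_pp_102_b : ∃ t, chk3 f_pp_102_b t 1 1 1 = true :=
  ⟨(b (b (l 1) (l 3)) (b (a (l 1) (l 3)) (a (a (l 1) (b (l 3) (l 3))) (l 3)))), by decide +kernel⟩

theorem c_pp_102_b : CertB 536870912 536870912 1239849684 370763052 740881858 40050571 3 eng mog cd2q1 cd2q2b pd0 false true true .npp 1 0 2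
    ndB2q1 ndB2q2b pcB0 Cut.none Ext.none :=
  certB1 (fam := false) (s1 := true) (s2 := true) (a := 1) (b := 0) (c := 2) (cn := .npp) (n1 := ndB2q1) (n2 := ndB2q2b) (pc := pcB0) (cut := Cut.none) (xt := Ext.none) (P1 := 536870912) (W1 := 536870912) (P2 := 1239849684) (W2 := 370763052) (P3 := 740881858) (W3 := 40050571) (N0 := 3) (En := eng) (mo := mog) (C1 := cd2q1) (C2 := cd2q2b) (C3 := pd0)
    rfl (fun _ => rfl) k0_pp_102_b

noncomputable def f_pp_112_a : ℕ → ℕ → ℕ → ℕ → Bool := onCell 536870912 536870912 0 536870912 740881858 40050571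
    (rowB 3 eng mog cd2q1 cd2q2a pd1 0 false true true .dn 1 1 2 (qsf 536870912 536870912 0 536870912 1) ndB2q1 ndB2q2a pcB1 Cut.none Ext.none)

def k0_pp_112_a : ∃ t, chk3 f_pp_112_a t 1 1 1 = true :=
  ⟨(a (b (a (b (a (b (a (l 16513272) (l 16520600)) (a (l 16518504) (l 16521688))) (b (a (l 16524456) (l 114520892455)) (a (l 128479503367) (l 3)))) (a (b (a (a (l 16510608) (l 16510528)) (l 3)) (l 3)) (l 3))) (a (b (b (a (b (l 16523648) (l 3)) (l 1)) (l 3)) (l 3)) (l 1))) (l 3)) (l 1)), by decide +kernel⟩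

theorem c_pp_112_a : CertB 536870912 536870912 0 536870912 740881858 40050571 3 eng mog cd2q1 cd2q2a pd1 false true true .dn 1 1 2
    ndB2q1 ndB2q2a pcB1 Cut.none Ext.none :=
  certB0 (fam := false) (s1 := true) (s2 := true) (a := 1) (b := 1) (c := 2) (cn := .dn) (n1 := ndB2q1) (n2 := ndB2q2a) (pc := pcB1) (cut := Cut.none) (xt := Ext.none) (P1 := 536870912) (W1 := 536870912) (P2 := 0) (W2 := 536870912) (P3 := 740881858) (W3 := 40050571) (N0 := 3) (En := eng) (mo := mog) (C1 := cd2q1) (C2 := cd2q2a) (C3 := pd1)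
    rfl k0_pp_112_a

noncomputable def f_pp_112_b : ℕ → ℕ → ℕ → ℕ → Bool := onCell 536870912 536870912 1239849684 370763052 740881858 40050571
    (rowB 3 eng mog cd2q1 cd2q2b pd1 2 false true true .dn 1 1 2 (qsf 536870912 536870912 1239849684 370763052 1) ndB2q1 ndB2q2b pcB1 Cut.none Ext.none)

def k0_pp_112_b : ∃ t, chk3 f_pp_112_b t 1 1 1 = true :=
  ⟨(a (a (b (a (b (b (b (a (b (c (b (l 16527944) (l 16525904)) (l 16559800)) (l 16516240)) (b (b (l 16523592) (l 16521296)) (l 16517488))) (a (l 16505288) (l 16508656))) (a (l 16478720) (l 16487000))) (a (l 411947535799) (b (l 16451656) (l 16410976)))) (b (b (b (b (b (l 16519248) (l 16517632)) (l 16514888)) (l 16508320)) (l 16491680)) (b (l 16464160) (l 16433344)))) (a (b (a (l 3) (l 388324865655)) (l 3)) (b (a (l 16373024) (l 16395232)) (a (l 215452345223) (l 16339712))))) (a (b (b (b (b (b (b (l 16501688) (l 16500824)) (l 16499264)) (l 16495184)) (l 16483968)) (l 16622520)) (b (l 16415408) (l 16537136)))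 (b (b (b (b (l 1) (l 16462560)) (l 16455448)) (l 16435424)) (b (l 16412712) (l 16418624))))) (a (a (b (b (l 1) (l 16396432)) (l 16385504)) (b (b (l 1) (l 16342800)) (l 16332400))) (b (l 1) (b (l 16234200) (l 16236168))))), by decide +kernel⟩

theorem c_pp_112_b : CertB 536870912 536870912 1239849684 370763052 740881858 40050571 3 eng mog cd2q1 cd2q2b pd1 false true true .dn 1 1 2
    ndB2q1 ndB2q2b pcB1 Cut.none Ext.none :=
  certB2 (fam := false) (s1 := true) (s2 := true) (a := 1) (b := 1) (c := 2) (cn := .dn) (n1 := ndB2q1) (n2 := ndB2q2b) (pc := pcB1) (cut := Cut.none) (xt := Ext.none) (P1 := 536870912) (W1 := 536870912) (P2 := 1239849684) (W2 := 370763052) (P3 := 740881858) (W3 := 40050571) (N0 := 3) (En := eng) (mo := mog) (C1 := cd2q1) (C2 := cd2q2b) (C3 := pd1)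
    rfl (fun _ => rfl) k0_pp_112_b

noncomputable def f_pp_113 : ℕ → ℕ → ℕ → ℕ → Bool := onCell 536870912 536870912 536870912 536870912 740881858 40050571
    (rowB 3 eng mog cd2q1 cd2q3 pd1 1 false true true .nn 1 1 3 (qsf 536870912 536870912 1610612736 536870912 1) ndB2q1 ndB2q3 pcB1 Cut.none Ext.none)

def k0_pp_113 : ∃ t, chk3 f_pp_113 t 1 1 1 = true :=
  ⟨(b (b (a (l 1) (b (a (l 1) (l 3)) (a (a (l 1) (l 320544803255)) (a (b (l 332489978711) (l 183239924711)) (b (l 3) (a (l 185387282327) (l 278265733143))))))) (a (b (l 1) (a (l 1) (l 16409328))) (b (a (b (l 16364640) (l 16386000)) (a (b (l 16308528) (l 16369112)) (b (c (l 217062775751) (l 206862076295)) (l 16351960)))) (a (l 16443512) (b (l 16470224) (l 16620792)))))) (b (a (a (l 240551383239) (l 16424368)) (b (a (l 16583376) (b (l 16741520) (l 16784040))) (a (l 16826928) (l 16838976)))) (a (a (l 16276856) (l 16568944)) (a (l 17042576) (b (l 16882272) (l 16899752)))))), by decide +kernel⟩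

theorem c_pp_113 : CertB 536870912 536870912 1610612736 536870912 740881858 40050571 3 eng mog cd2q1 cd2q3 pd1 false true true .nn 1 1 3
    ndB2q1 ndB2q3 pcB1 Cut.none Ext.none :=
  certB1 (fam := false) (s1 := true) (s2 := true) (a := 1) (b := 1) (c := 3) (cn := .nn) (n1 := ndB2q1) (n2 := ndB2q3) (pc := pcB1) (cut := Cut.none) (xt := Ext.none) (P1 := 536870912) (W1 := 536870912) (P2 := 1610612736) (W2 := 536870912) (P3 := 740881858) (W3 := 40050571) (N0 := 3) (En := eng) (mo := mog) (C1 := cd2q1) (C2 := cd2q3) (C3 := pd1)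
    rfl (fun _ => rfl) k0_pp_113

noncomputable def f_pp_123 : ℕ → ℕ → ℕ → ℕ → Bool := onCell 1073741824 536870912 1610612736 536870912 740881858 40050571
    (rowB 3 eng mog cd2q1 cd2q3 pd2 2 false true true .npn 1 2 3 (qsf 536870912 536870912 1610612736 536870912 2) ndB2q1 ndB2q3 pcB2 Cut.none Ext.none)

def k0_pp_123 : ∃ t, chk3 f_pp_123 t 1 1 1 = true :=
  ⟨(a (b (a (b (a (l 16125200) (l 16111536)) (l 16367304)) (a (b (l 16145208) (l 16233712)) (b (l 1) (l 16289640)))) (a (b (l 16690824) (a (l 16686616) (l 16564144))) (b (a (l 16495616) (l 16508240)) (b (l 16516592) (l 16507720))))) (b (a (b (l 1) (l 16419392)) (l 1)) (a (b (l 16473400) (l 16593248)) (b (l 16578672) (l 16639520))))), by decide +kernel⟩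

theorem c_pp_123 : CertB 536870912 536870912 1610612736 536870912 740881858 40050571 3 eng mog cd2q1 cd2q3 pd2 false true true .npn 1 2 3
    ndB2q1 ndB2q3 pcB2 Cut.none Ext.none :=
  certB2 (fam := false) (s1 := true) (s2 := true) (a := 1) (b := 2) (c := 3) (cn := .npn) (n1 := ndB2q1) (n2 := ndB2q3) (pc := pcB2) (cut := Cut.none) (xt := Ext.none) (P1 := 536870912) (W1 := 536870912) (P2 := 1610612736) (W2 := 536870912) (P3 := 740881858) (W3 := 40050571) (N0 := 3) (En := eng) (mo := mog) (C1 := cd2q1) (C2 := cd2q3) (C3 := pd2)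
    rfl (fun _ => rfl) k0_pp_123

noncomputable def f_pp_133 : ℕ → ℕ → ℕ → ℕ → Bool := onCell 1610612736 536870912 1610612736 536870912 740881858 40050571
    (rowB 3 eng mog cd2q1 cd2q3 pd3 2 false true true .dn 1 3 3 (qsf 536870912 536870912 1610612736 536870912 3) ndB2q1 ndB2q3 pcB3 Cut.none Ext.none)

def k0_pp_133 : ∃ t, chk3 f_pp_133 t 1 1 1 = true :=
  ⟨(a (b (l 1) (a (a (l 495028793847) (l 1)) (l 1))) (l 1)), by decide +kernel⟩

theorem c_pp_133 : CertB 536870912 536870912 1610612736 536870912 740881858 40050571 3 eng mog cd2q1 cd2q3 pd3 false true true .dn 1 3 3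
    ndB2q1 ndB2q3 pcB3 Cut.none Ext.none :=
  certB2 (fam := false) (s1 := true) (s2 := true) (a := 1) (b := 3) (c := 3) (cn := .dn) (n1 := ndB2q1) (n2 := ndB2q3) (pc := pcB3) (cut := Cut.none) (xt := Ext.none) (P1 := 536870912) (W1 := 536870912) (P2 := 1610612736) (W2 := 536870912) (P3 := 740881858) (W3 := 40050571) (N0 := 3) (En := eng) (mo := mog) (C1 := cd2q1) (C2 := cd2q3) (C3 := pd3)
    rfl (fun _ => rfl) k0_pp_133

noncomputable def f_pp_202_aa : ℕ → ℕ → ℕ → ℕ → Bool := onCell 0 536870912 0 536870912 740881858 40050571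
    (rowB 3 eng mog cd2q2a cd2q2a pd0 0 false true true .pp 2 0 2 (qsf 0 536870912 0 536870912 0) ndB2q2a ndB2q2a pcB0 Cut.none Ext.none)

def k0_pp_202_aa : ∃ t, chk3 f_pp_202_aa t 1 1 1 = true :=
  ⟨(l 3), by decide +kernel⟩

theorem c_pp_202_aa : CertB 0 536870912 0 536870912 740881858 40050571 3 eng mog cd2q2a cd2q2a pd0 false true true .pp 2 0 2
    ndB2q2a ndB2q2a pcB0 Cut.none Ext.none :=
  certB0 (fam := false) (s1 := true) (s2 := true) (a := 2) (b := 0) (c := 2) (cn := .pp) (n1 := ndB2q2a) (n2 := ndB2q2a) (pc := pcB0) (cut := Cut.none) (xt := Ext.none) (P1 := 0) (W1 := 536870912) (P2 := 0) (W2 := 536870912) (P3 := 740881858) (W3 := 40050571) (N0 := 3) (En := eng) (mo := mog) (C1 := cd2q2a) (C2 := cd2q2a) (C3 := pd0)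
    rfl k0_pp_202_aa

noncomputable def f_pp_202_ab : ℕ → ℕ → ℕ → ℕ → Bool := onCell 0 536870912 1239849684 370763052 740881858 40050571
    (rowB 3 eng mog cd2q2a cd2q2b pd0 0 false true true .pp 2 0 2 (qsf 0 536870912 1239849684 370763052 0) ndB2q2a ndB2q2b pcB0 Cut.none Ext.none)

def k0_pp_202_ab : ∃ t, chk3 f_pp_202_ab t 1 1 1 = true :=
  ⟨(l 3), by decide +kernel⟩

theorem c_pp_202_ab : CertB 0 536870912 1239849684 370763052 740881858 40050571 3 eng mog cd2q2a cd2q2b pd0 false true true .pp 2 0 2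
    ndB2q2a ndB2q2b pcB0 Cut.none Ext.none :=
  certB0 (fam := false) (s1 := true) (s2 := true) (a := 2) (b := 0) (c := 2) (cn := .pp) (n1 := ndB2q2a) (n2 := ndB2q2b) (pc := pcB0) (cut := Cut.none) (xt := Ext.none) (P1 := 0) (W1 := 536870912) (P2 := 1239849684) (W2 := 370763052) (P3 := 740881858) (W3 := 40050571) (N0 := 3) (En := eng) (mo := mog) (C1 := cd2q2a) (C2 := cd2q2b) (C3 := pd0)
    rfl k0_pp_202_ab

noncomputable def f_pp_202_ba : ℕ → ℕ → ℕ → ℕ → Bool := onCell 1239849684 370763052 0 536870912 740881858 40050571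
    (rowB 3 eng mog cd2q2b cd2q2a pd0 0 false true true .pp 2 0 2 (qsf 1239849684 370763052 0 536870912 0) ndB2q2b ndB2q2a pcB0 Cut.none Ext.none)

def k0_pp_202_ba : ∃ t, chk3 f_pp_202_ba t 1 1 1 = true :=
  ⟨(l 3), by decide +kernel⟩

theorem c_pp_202_ba : CertB 1239849684 370763052 0 536870912 740881858 40050571 3 eng mog cd2q2b cd2q2a pd0 false true true .pp 2 0 2
    ndB2q2b ndB2q2a pcB0 Cut.none Ext.none :=
  certB0 (fam := false) (s1 := true) (s2 := true) (a := 2) (b := 0) (c := 2) (cn := .pp) (n1 := ndB2q2b) (n2 := ndB2q2a) (pc := pcB0) (cut := Cut.none) (xt := Ext.none) (P1 := 1239849684) (W1 := 370763052) (P2 := 0) (W2 := 536870912) (P3 := 740881858) (W3 := 40050571) (N0 := 3) (En := eng) (mo := mog) (C1 := cd2q2b) (C2 := cd2q2a) (C3 := pd0)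
    rfl k0_pp_202_ba

noncomputable def f_pp_202_bb : ℕ → ℕ → ℕ → ℕ → Bool := onCell 1239849684 370763052 1239849684 370763052 740881858 40050571
    (rowB 3 eng mog cd2q2b cd2q2b pd0 0 false true true .pp 2 0 2 (qsf 1239849684 370763052 1239849684 370763052 0) ndB2q2b ndB2q2b pcB0 Cut.none Ext.none)

def k0_pp_202_bb : ∃ t, chk3 f_pp_202_bb t 1 1 1 = true :=
  ⟨(l 3), by decide +kernel⟩

theorem c_pp_202_bb : CertB 1239849684 370763052 1239849684 370763052 740881858 40050571 3 eng mog cd2q2b cd2q2b pd0 false true true .pp 2 0 2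
    ndB2q2b ndB2q2b pcB0 Cut.none Ext.none :=
  certB0 (fam := false) (s1 := true) (s2 := true) (a := 2) (b := 0) (c := 2) (cn := .pp) (n1 := ndB2q2b) (n2 := ndB2q2b) (pc := pcB0) (cut := Cut.none) (xt := Ext.none) (P1 := 1239849684) (W1 := 370763052) (P2 := 1239849684) (W2 := 370763052) (P3 := 740881858) (W3 := 40050571) (N0 := 3) (En := eng) (mo := mog) (C1 := cd2q2b) (C2 := cd2q2b) (C3 := pd0)
    rfl k0_pp_202_bb

noncomputable def f_pp_203_a : ℕ → ℕ → ℕ → ℕ → Bool := onCell 0 536870912 0 536870912 740881858 40050571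
    (rowB 3 eng mog cd2q2a cd2q3 pd0 1 false true true .up 2 0 3 (qsf 0 536870912 1610612736 536870912 0) ndB2q2a ndB2q3 pcB0 Cut.none Ext.none)

def k0_pp_203_a : ∃ t, chk3 f_pp_203_a t 1 1 1 = true :=
  ⟨(l 3), by decide +kernel⟩

theorem c_pp_203_a : CertB 0 536870912 1610612736 536870912 740881858 40050571 3 eng mog cd2q2a cd2q3 pd0 false true true .up 2 0 3
    ndB2q2a ndB2q3 pcB0 Cut.none Ext.none :=
  certB1 (fam := false) (s1 := true) (s2 := true) (a := 2) (b := 0) (c := 3) (cn := .up) (n1 := ndB2q2a) (n2 := ndB2q3) (pc := pcB0) (cut := Cut.none) (xt := Ext.none) (P1 := 0) (W1 := 536870912) (P2 := 1610612736) (W2 := 536870912) (P3 := 740881858) (W3 := 40050571) (N0 := 3) (En := eng) (mo := mog) (C1 := cd2q2a) (C2 := cd2q3) (C3 := pd0)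
    rfl (fun _ => rfl) k0_pp_203_a

noncomputable def f_pp_203_b : ℕ → ℕ → ℕ → ℕ → Bool := onCell 1239849684 370763052 1610612736 536870912 740881858 40050571
    (rowB 3 eng mog cd2q2b cd2q3 pd0 0 false true true .up 2 0 3 (qsf 1239849684 370763052 1610612736 536870912 0) ndB2q2b ndB2q3 pcB0 Cut.none Ext.none)

def k0_pp_203_b : ∃ t, chk3 f_pp_203_b t 1 1 1 = true :=
  ⟨(l 3), by decide +kernel⟩

theorem c_pp_203_b : CertB 1239849684 370763052 1610612736 536870912 740881858 40050571 3 eng mog cd2q2b cd2q3 pd0 false true true .up 2 0 3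
    ndB2q2b ndB2q3 pcB0 Cut.none Ext.none :=
  certB0 (fam := false) (s1 := true) (s2 := true) (a := 2) (b := 0) (c := 3) (cn := .up) (n1 := ndB2q2b) (n2 := ndB2q3) (pc := pcB0) (cut := Cut.none) (xt := Ext.none) (P1 := 1239849684) (W1 := 370763052) (P2 := 1610612736) (W2 := 536870912) (P3 := 740881858) (W3 := 40050571) (N0 := 3) (En := eng) (mo := mog) (C1 := cd2q2b) (C2 := cd2q3) (C3 := pd0)
    rfl k0_pp_203_b

noncomputable def cut_pp_213_a : Cut := Cut.of [[⟨0, 1, 0, 67108864⟩, ⟨1, 1, 0, 67108864⟩, ⟨2, 2, 0, 16777216⟩]]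

noncomputable def f_pp_213_a : ℕ → ℕ → ℕ → ℕ → Bool := onCell 0 536870912 1610612736 536870912 740881858 40050571
    (rowB 3 eng mog cd2q2a cd2q3 pd1 0 false true true .pnn 2 1 3 (qsf 0 536870912 1610612736 536870912 1) ndB2q2a ndB2q3 pcB1 cut_pp_213_a Ext.none)

def k0_pp_213_a : ∃ t, chk3 f_pp_213_a t 1 1 1 = true :=
  ⟨(b (l 3) (b (l 3) (a (l 3) (a (l 3) (b (l 3) (a (l 3) (b (l 3) (b (l 3) (b (l 3) (l 6)))))))))), by decide +kernel⟩

theorem c_pp_213_a : CertB 0 536870912 1610612736 536870912 740881858 40050571 3 eng mog cd2q2a cd2q3 pd1 false true true .pnn 2 1 3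
    ndB2q2a ndB2q3 pcB1 cut_pp_213_a Ext.none :=
  certB0 (fam := false) (s1 := true) (s2 := true) (a := 2) (b := 1) (c := 3) (cn := .pnn) (n1 := ndB2q2a) (n2 := ndB2q3) (pc := pcB1) (cut := cut_pp_213_a) (xt := Ext.none) (P1 := 0) (W1 := 536870912) (P2 := 1610612736) (W2 := 536870912) (P3 := 740881858) (W3 := 40050571) (N0 := 3) (En := eng) (mo := mog) (C1 := cd2q2a) (C2 := cd2q3) (C3 := pd1)
    rfl k0_pp_213_a

noncomputable def cut_pp_213_b : Cut := Cut.of [[⟨0, 1, 0, 67108864⟩, ⟨1, 1, 0, 67108864⟩, ⟨2, 2, 0, 16777216⟩]]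

noncomputable def f_pp_213_b : ℕ → ℕ → ℕ → ℕ → Bool := onCell 1239849684 370763052 1610612736 536870912 740881858 40050571
    (rowB 3 eng mog cd2q2b cd2q3 pd1 0 false true true .pnn 2 1 3 (qsf 1239849684 370763052 1610612736 536870912 1) ndB2q2b ndB2q3 pcB1 cut_pp_213_b Ext.none)

def k0_pp_213_b : ∃ t, chk3 f_pp_213_b t 1 1 1 = true :=
  ⟨(l 3), by decide +kernel⟩

theorem c_pp_213_b : CertB 1239849684 370763052 1610612736 536870912 740881858 40050571 3 eng mog cd2q2b cd2q3 pd1 false true true .pnn 2 1 3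
    ndB2q2b ndB2q3 pcB1 cut_pp_213_b Ext.none :=
  certB0 (fam := false) (s1 := true) (s2 := true) (a := 2) (b := 1) (c := 3) (cn := .pnn) (n1 := ndB2q2b) (n2 := ndB2q3) (pc := pcB1) (cut := cut_pp_213_b) (xt := Ext.none) (P1 := 1239849684) (W1 := 370763052) (P2 := 1610612736) (W2 := 536870912) (P3 := 740881858) (W3 := 40050571) (N0 := 3) (En := eng) (mo := mog) (C1 := cd2q2b) (C2 := cd2q3) (C3 := pd1)
    rfl k0_pp_213_b

noncomputable def f_pp_303 : ℕ → ℕ → ℕ → ℕ → Bool := onCell 1610612736 536870912 1610612736 536870912 740881858 40050571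
    (rowB 3 eng mog cd2q3 cd2q3 pd0 0 false true true .npn 3 0 3 (qsf 1610612736 536870912 1610612736 536870912 0) ndB2q3 ndB2q3 pcB0 Cut.none Ext.none)

def k0_pp_303 : ∃ t, chk3 f_pp_303 t 1 1 1 = true :=
  ⟨(l 3), by decide +kernel⟩

theorem c_pp_303 : CertB 1610612736 536870912 1610612736 536870912 740881858 40050571 3 eng mog cd2q3 cd2q3 pd0 false true true .npn 3 0 3
    ndB2q3 ndB2q3 pcB0 Cut.none Ext.none :=
  certB0 (fam := false) (s1 := true) (s2 := true) (a := 3) (b := 0) (c := 3) (cn := .npn) (n1 := ndB2q3) (n2 := ndB2q3) (pc := pcB0) (cut := Cut.none) (xt := Ext.none) (P1 := 1610612736) (W1 := 536870912) (P2 := 1610612736) (W2 := 536870912) (P3 := 740881858) (W3 := 40050571) (N0 := 3) (En := eng) (mo := mog) (C1 := cd2q3) (C2 := cd2q3) (C3 := pd0)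
    rfl k0_pp_303

noncomputable def f_pp_313 : ℕ → ℕ → ℕ → ℕ → Bool := onCell 1610612736 536870912 1610612736 536870912 740881858 40050571
    (rowB 3 eng mog cd2q3 cd2q3 pd1 0 false true true .dn 3 1 3 (qsf 1610612736 536870912 1610612736 536870912 1) ndB2q3 ndB2q3 pcB1 Cut.none Ext.none)

def k0_pp_313 : ∃ t, chk3 f_pp_313 t 1 1 1 = true :=
  ⟨(l 3), by decide +kernel⟩

theorem c_pp_313 : CertB 1610612736 536870912 1610612736 536870912 740881858 40050571 3 eng mog cd2q3 cd2q3 pd1 false true true .dn 3 1 3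
    ndB2q3 ndB2q3 pcB1 Cut.none Ext.none :=
  certB0 (fam := false) (s1 := true) (s2 := true) (a := 3) (b := 1) (c := 3) (cn := .dn) (n1 := ndB2q3) (n2 := ndB2q3) (pc := pcB1) (cut := Cut.none) (xt := Ext.none) (P1 := 1610612736) (W1 := 536870912) (P2 := 1610612736) (W2 := 536870912) (P3 := 740881858) (W3 := 40050571) (N0 := 3) (En := eng) (mo := mog) (C1 := cd2q3) (C2 := cd2q3) (C3 := pd1)
    rfl k0_pp_313

noncomputable def f_pm_001 : ℕ → ℕ → ℕ → ℕ → Bool := onCell 0 536870912 536870912 536870912 740881858 40050571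
    (rowB 3 eng mog cd2q0 cd2q1 pd0 0 false true false .up 0 0 1 (qsf 0 536870912 536870912 536870912 0) ndB2q0 ndB2q1 pcB0 Cut.none Ext.none)

def k0_pm_001 : ∃ t, chk3 f_pm_001 t 1 1 1 = true :=
  ⟨(l 4), by decide +kernel⟩

theorem c_pm_001 : CertB 0 536870912 536870912 536870912 740881858 40050571 3 eng mog cd2q0 cd2q1 pd0 false true false .up 0 0 1
    ndB2q0 ndB2q1 pcB0 Cut.none Ext.none :=
  certB0 (fam := false) (s1 := true) (s2 := false) (a := 0) (b := 0) (c := 1) (cn := .up) (n1 := ndB2q0) (n2 := ndB2q1) (pc := pcB0) (cut := Cut.none) (xt := Ext.none) (P1 := 0) (W1 := 536870912) (P2 := 536870912) (W2 := 536870912) (P3 := 740881858) (W3 := 40050571) (N0 := 3) (En := eng) (mo := mog) (C1 := cd2q0) (C2 := cd2q1) (C3 := pd0)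
    rfl k0_pm_001

noncomputable def f_pm_011 : ℕ → ℕ → ℕ → ℕ → Bool := onCell 0 536870912 536870912 536870912 740881858 40050571
    (rowB 3 eng mog cd2q0 cd2q1 pd1 0 false true false .pnn 0 1 1 (qsf 0 536870912 536870912 536870912 1) ndB2q0 ndB2q1 pcB1 Cut.none Ext.none)

def k0_pm_011 : ∃ t, chk3 f_pm_011 t 1 1 1 = true :=
  ⟨(l 4), by decide +kernel⟩

theorem c_pm_011 : CertB 0 536870912 536870912 536870912 740881858 40050571 3 eng mog cd2q0 cd2q1 pd1 false true false .pnn 0 1 1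
    ndB2q0 ndB2q1 pcB1 Cut.none Ext.none :=
  certB0 (fam := false) (s1 := true) (s2 := false) (a := 0) (b := 1) (c := 1) (cn := .pnn) (n1 := ndB2q0) (n2 := ndB2q1) (pc := pcB1) (cut := Cut.none) (xt := Ext.none) (P1 := 0) (W1 := 536870912) (P2 := 536870912) (W2 := 536870912) (P3 := 740881858) (W3 := 40050571) (N0 := 3) (En := eng) (mo := mog) (C1 := cd2q0) (C2 := cd2q1) (C3 := pd1)
    rfl k0_pm_011

noncomputable def cut_pm_012_a : Cut := Cut.of [[⟨0, 0, 0, 67108864⟩, ⟨1, 1, 0, 67108864⟩, ⟨2, 1, 0, 67108864⟩]]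

noncomputable def f_pm_012_a : ℕ → ℕ → ℕ → ℕ → Bool := onCell 536870912 536870912 0 536870912 740881858 40050571
    (rowB 3 eng mog cd2q0 cd2q2a pd1 2 false true false .pnp 0 1 2 (qsf 0 536870912 0 536870912 1) ndB2q0 ndB2q2a pcB1 cut_pm_012_a Ext.none)

def k0_pm_012_a : ∃ t, chk3 f_pm_012_a t 2 1 1 = true :=
  ⟨(b (a (b (l 2) (a (l 2) (l 16280616))) (b (l 16264672) (a (l 16247480) (l 16221432)))) (a (b (a (l 2) (l 16252696)) (a (b (l 16238512) (l 16245216)) (b (l 16251592) (l 16280512)))) (b (b (l 16235064) (a (l 16247808) (l 16251288))) (a (b (l 16270384) (l 71638305943)) (b (l 16293896) (a (l 16357256) (l 16401424))))))), by decide +kernel⟩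

def k1_pm_012_a : ∃ t, chk3 f_pm_012_a t 3 1 1 = true :=
  ⟨(b (a (b (a (l 16222120) (l 16197504)) (a (l 16242512) (l 16190128))) (b (a (b (l 16181936) (l 16166416)) (b (l 16162888) (a (l 16152952) (l 16145320)))) (a (a (l 16180200) (l 16174992)) (a (b (l 16157392) (l 16183976)) (b (l 16152368) (l 16183736)))))) (a (b (b (a (l 16227984) (a (l 16224112) (l 16224136))) (a (l 16405880) (b (l 16258128) (a (l 16285656) (l 16300912))))) (a (b (a (l 16311752) (l 16325792)) (a (l 16613280) (b (l 16395952) (l 4)))) (b (a (l 16407768) (b (l 16344560) (l 16394360))) (b (a (l 16424696) (l 16521232)) (l 4))))) (b (a (b (a (l 16226384) (l 16232936)) (a (b (l 16278472) (l 16317392)) (a (b (l 16284064) (l 16330112)) (l 16314824)))) (a (b (l 16237776) (a (l 16321208) (l 16392216))) (b (a (l 16242952) (l 16246936)) (a (l 16339088) (b (l 16317432) (l 16379208)))))) (a (b (a (b (l 16368456) (l 16424016)) (b (a (l 16387008) (l 16399272)) (a (l 16447128) (l 16462816))))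 (b (a (l 4) (a (l 4) (l 16540400))) (l 4))) (b (a (b (a (b (l 16394528) (l 16428120)) (b (l 16407312) (l 16481520))) (a (l 16543184) (b (l 16517624) (l 16512944)))) (b (a (l 16500592) (l 16536064)) (a (a (l 16590312) (b (l 16495264) (l 16533408))) (a (b (l 16502936) (l 16541928)) (l 16552544))))) (a (b (b (a (l 16536304) (l 16553896)) (l 4)) (l 4)) (b (a (b (a (l 16566936) (l 6)) (l 6)) (l 6)) (l 6)))))))), by decide +kernel⟩

theorem s2_pm_012_a : ∃ t, chk3 f_pm_012_a t 1 1 1 = true := ex3_a k0_pm_012_a k1_pm_012_a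

theorem c_pm_012_a : CertB 0 536870912 0 536870912 740881858 40050571 3 eng mog cd2q0 cd2q2a pd1 false true false .pnp 0 1 2
    ndB2q0 ndB2q2a pcB1 cut_pm_012_a Ext.none :=
  certB2 (fam := false) (s1 := true) (s2 := false) (a := 0) (b := 1) (c := 2) (cn := .pnp) (n1 := ndB2q0) (n2 := ndB2q2a) (pc := pcB1) (cut := cut_pm_012_a) (xt := Ext.none) (P1 := 0) (W1 := 536870912) (P2 := 0) (W2 := 536870912) (P3 := 740881858) (W3 := 40050571) (N0 := 3) (En := eng) (mo := mog) (C1 := cd2q0) (C2 := cd2q2a) (C3 := pd1)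
    rfl (fun _ => rfl) s2_pm_012_a

noncomputable def cut_pm_012_b : Cut := Cut.of [[⟨0, 0, 0, 67108864⟩, ⟨1, 1, 0, 67108864⟩, ⟨2, 1, 0, 67108864⟩]]

noncomputable def f_pm_012_b : ℕ → ℕ → ℕ → ℕ → Bool := onCell 536870912 536870912 1239849684 370763052 740881858 40050571
    (rowB 3 eng mog cd2q0 cd2q2b pd1 2 false true false .pnp 0 1 2 (qsf 0 536870912 1239849684 370763052 1) ndB2q0 ndB2q2b pcB1 cut_pm_012_b Ext.none)

def k0_pm_012_b : ∃ t, chk3 f_pm_012_b t 1 1 1 = true :=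
  ⟨(a (a (l 2) (b (b (b (b (l 16442360) (l 16256608)) (l 16238512)) (l 16233208)) (l 2))) (b (c (a (b (b (b (l 16353936) (l 16191216)) (l 16146656)) (a (l 16137824) (l 16050360))) (b (b (a (b (l 16181544) (l 16125904)) (b (a (l 16160240) (l 16147800)) (l 16083960))) (a (l 16054624) (a (l 16006912) (l 15976032)))) (a (l 16082128) (b (l 15893440) (l 15824616))))) (a (b (b (a (l 16186320) (b (l 16173696) (l 16126648))) (l 16097152)) (a (l 16075888) (l 15986776))) (b (a (b (b (l 16144920) (l 16085208)) (l 16007304)) (b (b (a (l 16125848) (l 16114848)) (l 16047112)) (l 16074840))) (a (l 15893264) (b (l 15840592) (l 15758096)))))) (a (b (l 16064752) (l 2)) (b (a (l 15872472) (l 15773880)) (a (l 15923968) (l 15751560)))))), by decide +kernel⟩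

theorem c_pm_012_b : CertB 0 536870912 1239849684 370763052 740881858 40050571 3 eng mog cd2q0 cd2q2b pd1 false true false .pnp 0 1 2
    ndB2q0 ndB2q2b pcB1 cut_pm_012_b Ext.none :=
  certB2 (fam := false) (s1 := true) (s2 := false) (a := 0) (b := 1) (c := 2) (cn := .pnp) (n1 := ndB2q0) (n2 := ndB2q2b) (pc := pcB1) (cut := cut_pm_012_b) (xt := Ext.none) (P1 := 0) (W1 := 536870912) (P2 := 1239849684) (W2 := 370763052) (P3 := 740881858) (W3 := 40050571) (N0 := 3) (En := eng) (mo := mog) (C1 := cd2q0) (C2 := cd2q2b) (C3 := pd1)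
    rfl (fun _ => rfl) k0_pm_012_b

noncomputable def cut_pm_022_a : Cut := Cut.of [[⟨0, 0, 0, 67108864⟩, ⟨1, 1, 0, 67108864⟩, ⟨2, 1, 0, 67108864⟩]]

noncomputable def f_pm_022_a : ℕ → ℕ → ℕ → ℕ → Bool := onCell 1073741824 536870912 0 536870912 740881858 40050571
    (rowB 3 eng mog cd2q0 cd2q2a pd2 2 false true false .pp 0 2 2 (qsf 0 536870912 0 536870912 2) ndB2q0 ndB2q2a pcB2 cut_pm_022_a Ext.none)

def k0_pm_022_a : ∃ t, chk3 f_pm_022_a t 2 2 1 = true :=
  ⟨(a (b (a (b (a (l 16181792) (l 16256312)) (a (l 16174720) (l 16255360))) (b (a (l 16342744) (a (l 16364392) (l 16389512))) (a (l 16368272) (a (l 16372648) (l 16400008))))) (a (a (b (l 16188880) (a (l 16203464) (l 16252304))) (b (l 16317416) (a (l 16298448) (l 16341784)))) (a (b (a (l 16333608) (l 16368872)) (c (l 16511456) (l 16500648))) (b (a (l 16401200) (a (l 16423456) (l 16437312))) (a (b (l 16436984) (l 16511736)) (b (l 16467416) (a (l 16493392) (l 16508016)))))))) (a (b (a (b (a (b (l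 16410936) (l 16412736)) (c (b (l 16426368) (l 16429848)) (b (l 16436000) (l 16438128)))) (a (l 16424640) (a (l 16441496) (a (l 16449408) (l 305512579879))))) (b (l 1) (l 1))) (a (a (a (b (l 16450464) (b (l 16488136) (l 535293226711))) (b (l 16504888) (b (l 466036863911) (l 1)))) (b (a (b (l 16463632) (l 491269769367)) (l 1)) (l 1))) (l 1))) (l 1))), by decide +kernel⟩

def k1_pm_022_a : ∃ t, chk3 f_pm_022_a t 2 3 1 = true :=
  ⟨(a (b (a (a (b (a (b (l 16250400) (l 16293544)) (l 16407672)) (b (a (l 16346832) (l 16400448)) (a (l 16474424) (l 16508120)))) (a (b (l 16435400) (b (l 16450752) (l 16601184))) (b (b (l 16394608) (l 16441256)) (b (l 16539544) (a (b (l 16535016) (l 16571432)) (l 16575984)))))) (a (b (a (b (l 16436472) (l 16504880)) (b (l 16474992) (l 16523008))) (a (b (a (l 16530368) (l 16551056)) (a (b (l 16579496) (l 16616008)) (b (l 16600256) (b (l 446172849767) (l 973380178055))))) (b (a (l 16570776) (b (l 16573960) (l 737156820279))) (a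 (b (l 725345679831) (l 1)) (l 1))))) (b (a (b (l 16510024) (a (l 16549912) (l 685617144759))) (b (a (l 16533912) (l 626024411399)) (l 1))) (a (b (a (l 946536562599) (l 1)) (l 1)) (l 1))))) (a (b (b (b (a (a (l 16467904) (l 16544200)) (a (a (l 16562280) (l 16608072)) (a (l 16610936) (l 16588432)))) (a (a (a (l 16492248) (l 16521016)) (l 16646288)) (a (a (l 16622584) (l 16626504)) (a (b (l 16641160) (l 6)) (a (b (l 16634272) (l 6)) (l 818224529607)))))) (a (l 6) (a (l 6) (a (l 6) (a (l 6) (l 1)))))) (a (l 6) (a (l 6) (l 1)))) (b (a (b (a (b (a (b (l 441341028391) (l 708165990759)) (l 971232692967)) (a (l 886944008855) (l 1))) (l 1)) (l 1)) (l 1)) (l 1)))) (b (l 1) (l 1))), by decide +kernel⟩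

def k2_pm_022_a : ∃ t, chk3 f_pm_022_a t 3 1 1 = true :=
  ⟨(l 1), by decide +kernel⟩

theorem s3_pm_022_a : ∃ t, chk3 f_pm_022_a t 2 1 1 = true := ex3_b k0_pm_022_a k1_pm_022_a

theorem s4_pm_022_a : ∃ t, chk3 f_pm_022_a t 1 1 1 = true := ex3_a s3_pm_022_a k2_pm_022_a

theorem c_pm_022_a : CertB 0 536870912 0 536870912 740881858 40050571 3 eng mog cd2q0 cd2q2a pd2 false true false .pp 0 2 2
    ndB2q0 ndB2q2a pcB2 cut_pm_022_a Ext.none :=
  certB2 (fam := false) (s1 := true) (s2 := false) (a := 0) (b := 2) (c := 2) (cn := .pp) (n1 := ndB2q0) (n2 := ndB2q2a) (pc := pcB2) (cut := cut_pm_022_a) (xt := Ext.none) (P1 := 0) (W1 := 536870912) (P2 := 0) (W2 := 536870912) (P3 := 740881858) (W3 := 40050571) (N0 := 3) (En := eng) (mo := mog) (C1 := cd2q0) (C2 := cd2q2a) (C3 := pd2)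
    rfl (fun _ => rfl) s4_pm_022_a

noncomputable def cut_pm_022_b : Cut := Cut.of [[⟨0, 0, 0, 67108864⟩, ⟨1, 1, 0, 67108864⟩, ⟨2, 1, 0, 67108864⟩]]

noncomputable def f_pm_022_b : ℕ → ℕ → ℕ → ℕ → Bool := onCell 1073741824 536870912 1239849684 370763052 740881858 40050571
    (rowB 3 eng mog cd2q0 cd2q2b pd2 2 false true false .pp 0 2 2 (qsf 0 536870912 1239849684 370763052 2) ndB2q0 ndB2q2b pcB2 cut_pm_022_b Ext.none)

def k0_pm_022_b : ∃ t, chk3 f_pm_022_b t 2 1 1 = true :=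
  ⟨(b (a (b (b (a (b (c (b (l 16261808) (l 16179624)) (a (l 16134440) (l 16211856))) (a (l 16071856) (l 16143536))) (b (b (a (c (l 16309768) (l 16300536)) (c (l 16379592) (l 16358736))) (a (l 16265072) (l 16319416))) (a (l 16207616) (l 16284056)))) (a (a (l 16007608) (l 16079064)) (a (l 16143496) (l 16284216)))) (a (b (a (l 15846304) (l 15915144)) (a (l 15754656) (l 15818056))) (b (a (l 15978816) (l 16098944)) (a (l 15878576) (l 15934536))))) (b (a (b (b (b (a (a (b (l 16443592) (l 16382384)) (b (c (l 16416448) (l 16426712)) (l 16402264))) (a (b (b (l 779569252327) (l 373157971367)) (l 16348232)) (l 1))) (a (a (l 16353952) (l 16374368)) (a (l 16399456) (l 796749035431)))) (a (a (l 16298800) (l 16362120)) (a (l 16346104) (b (l 16326904) (l 16355480))))) (a (a (l 16195800) (l 16386432)) (c (b (l 16287272) (l 16224776)) (l 16266384)))) (b (b (l 1) (a (a (l 791917055543) (l 1)) (l 1))) (a (a (b (l 16329584) (l 16267584)) (b (l 775273964279) (l 16288992)))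 (b (l 986801288391) (a (l 16161456) (l 543882281495)))))) (a (a (b (c (l 16088144) (l 16087120)) (l 15985360)) (b (l 16288440) (l 16040840))) (b (a (c (l 16189544) (l 16200608)) (b (a (l 16250440) (l 16247984)) (l 16206792))) (a (l 16095376) (l 16137664)))))) (a (b (a (a (l 15671288) (l 15722904)) (a (l 15774560) (l 15824552))) (a (l 15674016) (l 15741024))) (a (b (a (l 15998016) (l 15926080)) (a (l 15797008) (l 15843976))) (b (a (l 15981016) (l 16027072)) (l 15919024))))), by decide +kernel⟩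

def k1_pm_022_b : ∃ t, chk3 f_pm_022_b t 3 1 1 = true :=
  ⟨(b (a (b (l 1) (a (b (a (b (l 921302886327) (c (l 397853439751) (l 462814760759))) (l 1017939558695)) (a (b (l 16181008) (l 16140648)) (a (l 16247272) (l 659309883847)))) (b (l 1) (a (l 846677566039) (l 1))))) (l 1)) (a (a (b (b (a (l 16087256) (l 16094424)) (l 16038024)) (l 15964384)) (b (b (a (l 531534685223) (l 730176560823)) (a (l 16034128) (l 16000472))) (b (l 15994312) (l 15979688)))) (a (b (b (l 1) (a (l 671657497015) (l 687763424167))) (a (l 15935984) (l 496100872807))) (b (l 1) (a (l 716754523063) (l 776883800551)))))), by decide +kernel⟩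

theorem s2_pm_022_b : ∃ t, chk3 f_pm_022_b t 1 1 1 = true := ex3_a k0_pm_022_b k1_pm_022_b

theorem c_pm_022_b : CertB 0 536870912 1239849684 370763052 740881858 40050571 3 eng mog cd2q0 cd2q2b pd2 false true false .pp 0 2 2
    ndB2q0 ndB2q2b pcB2 cut_pm_022_b Ext.none :=
  certB2 (fam := false) (s1 := true) (s2 := false) (a := 0) (b := 2) (c := 2) (cn := .pp) (n1 := ndB2q0) (n2 := ndB2q2b) (pc := pcB2) (cut := cut_pm_022_b) (xt := Ext.none) (P1 := 0) (W1 := 536870912) (P2 := 1239849684) (W2 := 370763052) (P3 := 740881858) (W3 := 40050571) (N0 := 3) (En := eng) (mo := mog) (C1 := cd2q0) (C2 := cd2q2b) (C3 := pd2)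
    rfl (fun _ => rfl) s2_pm_022_b

noncomputable def f_pm_023 : ℕ → ℕ → ℕ → ℕ → Bool := onCell 1073741824 536870912 1610612736 536870912 740881858 40050571
    (rowB 3 eng mog cd2q0 cd2q3 pd2 2 false true false .up 0 2 3 (qsf 0 536870912 1610612736 536870912 2) ndB2q0 ndB2q3 pcB2 Cut.none Ext.none)

def k0_pm_023 : ∃ t, chk3 f_pm_023 t 1 1 1 = true :=
  ⟨(a (b (a (b (a (l 15764312) (l 15791120)) (a (l 2) (l 15984768))) (a (b (l 15863672) (l 15985840)) (b (l 15926136) (l 16039504)))) (a (l 2) (b (a (l 2) (l 16231648)) (l 2)))) (a (b (a (b (l 15988512) (l 16088160)) (b (l 15997032) (l 16102032))) (b (a (l 16284400) (l 16295848)) (l 16412704))) (b (a (l 4) (l 4)) (a (b (l 16286696) (l 16487120)) (b (l 4) (l 16497624)))))), by decide +kernel⟩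

theorem c_pm_023 : CertB 0 536870912 1610612736 536870912 740881858 40050571 3 eng mog cd2q0 cd2q3 pd2 false true false .up 0 2 3
    ndB2q0 ndB2q3 pcB2 Cut.none Ext.none :=
  certB2 (fam := false) (s1 := true) (s2 := false) (a := 0) (b := 2) (c := 3) (cn := .up) (n1 := ndB2q0) (n2 := ndB2q3) (pc := pcB2) (cut := Cut.none) (xt := Ext.none) (P1 := 0) (W1 := 536870912) (P2 := 1610612736) (W2 := 536870912) (P3 := 740881858) (W3 := 40050571) (N0 := 3) (En := eng) (mo := mog) (C1 := cd2q0) (C2 := cd2q3) (C3 := pd2)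
    rfl (fun _ => rfl) k0_pm_023

noncomputable def f_pm_033 : ℕ → ℕ → ℕ → ℕ → Bool := onCell 0 536870912 1610612736 536870912 740881858 40050571
    (rowB 3 eng mog cd2q0 cd2q3 pd3 1 false true false .pnn 0 3 3 (qsf 0 536870912 1610612736 536870912 3) ndB2q0 ndB2q3 pcB3 Cut.none Ext.none)

def k0_pm_033 : ∃ t, chk3 f_pm_033 t 1 1 1 = true :=
  ⟨(a (b (l 4) (a (l 4) (b (l 4) (a (b (l 4) (l 2)) (l 2))))) (b (a (b (l 4) (l 4)) (b (b (l 16542152) (l 16627664)) (a (b (l 4) (l 2)) (l 2)))) (a (b (a (b (l 4) (l 2)) (l 2)) (l 2)) (l 2)))), by decide +kernel⟩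

theorem c_pm_033 : CertB 0 536870912 1610612736 536870912 740881858 40050571 3 eng mog cd2q0 cd2q3 pd3 false true false .pnn 0 3 3
    ndB2q0 ndB2q3 pcB3 Cut.none Ext.none :=
  certB1 (fam := false) (s1 := true) (s2 := false) (a := 0) (b := 3) (c := 3) (cn := .pnn) (n1 := ndB2q0) (n2 := ndB2q3) (pc := pcB3) (cut := Cut.none) (xt := Ext.none) (P1 := 0) (W1 := 536870912) (P2 := 1610612736) (W2 := 536870912) (P3 := 740881858) (W3 := 40050571) (N0 := 3) (En := eng) (mo := mog) (C1 := cd2q0) (C2 := cd2q3) (C3 := pd3)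
    rfl (fun _ => rfl) k0_pm_033

noncomputable def f_pm_101 : ℕ → ℕ → ℕ → ℕ → Bool := onCell 536870912 536870912 536870912 536870912 740881858 40050571
    (rowB 3 eng mog cd2q1 cd2q1 pd0 0 false true false .npn 1 0 1 (qsf 536870912 536870912 536870912 536870912 0) ndB2q1 ndB2q1 pcB0 Cut.none Ext.none)

def k0_pm_101 : ∃ t, chk3 f_pm_101 t 1 1 1 = true :=
  ⟨(l 4), by decide +kernel⟩

theorem c_pm_101 : CertB 536870912 536870912 536870912 536870912 740881858 40050571 3 eng mog cd2q1 cd2q1 pd0 false true false .npn 1 0 1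
    ndB2q1 ndB2q1 pcB0 Cut.none Ext.none :=
  certB0 (fam := false) (s1 := true) (s2 := false) (a := 1) (b := 0) (c := 1) (cn := .npn) (n1 := ndB2q1) (n2 := ndB2q1) (pc := pcB0) (cut := Cut.none) (xt := Ext.none) (P1 := 536870912) (W1 := 536870912) (P2 := 536870912) (W2 := 536870912) (P3 := 740881858) (W3 := 40050571) (N0 := 3) (En := eng) (mo := mog) (C1 := cd2q1) (C2 := cd2q1) (C3 := pd0)
    rfl k0_pm_101

noncomputable def f_pm_102_a : ℕ → ℕ → ℕ → ℕ → Bool := onCell 0 536870912 0 536870912 740881858 40050571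
    (rowB 3 eng mog cd2q1 cd2q2a pd0 2 false true false .npp 1 0 2 (qsf 536870912 536870912 0 536870912 0) ndB2q1 ndB2q2a pcB0 Cut.none Ext.none)

def k0_pm_102_a : ∃ t, chk3 f_pm_102_a t 1 1 1 = true :=
  ⟨(a (b (a (a (l 2) (b (l 2) (a (l 2) (b (l 2) (l 16339560))))) (b (a (b (a (l 16421928) (l 16419088)) (a (l 16406744) (l 16406816))) (b (a (l 16414872) (l 16405904)) (a (l 16403984) (l 16394696)))) (a (a (b (l 16374792) (l 16343184)) (l 16385560)) (a (l 16490112) (l 16356856))))) (a (b (a (l 2) (b (a (l 2) (l 16302960)) (a (b (l 16264928) (l 16241896)) (l 16261048)))) (a (a (b (l 2) (b (a (l 2) (c (l 16190984) (l 16137936))) (b (a (a (l 2) (l 16155216)) (a (l 16196480) (l 16133712))) (a (b (l 16159544) (a (l 16105880) (l 16101744))) (b (l 16112752) (l 16090904)))))) (b (b (a (l 2) (l 16210744)) (a (b (l 2) (l 16187232)) (l 16193664))) (b (a (l 16164432) (l 16161648)) (b (l 16124344) (l 16084904))))) (b (a (b (l 16217248) (b (l 16199952) (l 16186496)))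 (b (l 16216352) (l 16186440))) (b (a (l 16151808) (l 16136024)) (a (l 16086232) (l 16071800)))))) (b (a (b (a (l 16308752) (l 16311800)) (a (l 16262168) (l 16258752))) (b (l 16305720) (l 16248000))) (a (b (b (a (l 16207544) (l 16198688)) (l 16188712)) (a (l 16095216) (l 16089200))) (b (a (l 16175432) (l 16169648)) (l 16089168)))))) (a (b (a (b (a (b (l 16404208) (l 16392928)) (b (l 16408784) (l 16397944))) (a (l 16354632) (l 16357992))) (b (a (b (l 16406816) (l 16395408)) (l 16379304)) (a (l 16355568) (l 16334072)))) (a (b (a (l 16310456) (l 16266520)) (b (l 16252352) (l 16101328))) (b (a (l 16264144) (l 16247608)) (b (l 16167840) (l 16119528))))) (b (b (a (l 16344496) (l 16310184)) (a (l 16301128) (l 16270616))) (b (a (l 16289656) (l 16218952)) (a (b (l 16163192) (l 16135720)) (b (l 16175136) (l 16161648))))))), by decide +kernel⟩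

theorem c_pm_102_a : CertB 536870912 536870912 0 536870912 740881858 40050571 3 eng mog cd2q1 cd2q2a pd0 false true false .npp 1 0 2
    ndB2q1 ndB2q2a pcB0 Cut.none Ext.none :=
  certB2 (fam := false) (s1 := true) (s2 := false) (a := 1) (b := 0) (c := 2) (cn := .npp) (n1 := ndB2q1) (n2 := ndB2q2a) (pc := pcB0) (cut := Cut.none) (xt := Ext.none) (P1 := 536870912) (W1 := 536870912) (P2 := 0) (W2 := 536870912) (P3 := 740881858) (W3 := 40050571) (N0 := 3) (En := eng) (mo := mog) (C1 := cd2q1) (C2 := cd2q2a) (C3 := pd0)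
    rfl (fun _ => rfl) k0_pm_102_a

noncomputable def f_pm_102_b : ℕ → ℕ → ℕ → ℕ → Bool := onCell 0 536870912 1239849684 370763052 740881858 40050571
    (rowB 3 eng mog cd2q1 cd2q2b pd0 2 false true false .npp 1 0 2 (qsf 536870912 536870912 1239849684 370763052 0) ndB2q1 ndB2q2b pcB0 Cut.none Ext.none)

def k0_pm_102_b : ∃ t, chk3 f_pm_102_b t 1 1 1 = true :=
  ⟨(a (a (l 2) (a (b (b (b (b (b (a (l 16421960) (l 16416880)) (l 16488544)) (a (l 2) (l 16379048))) (l 2)) (l 2)) (l 2)) (b (b (b (b (b (a (l 16411992) (l 16403912)) (l 16517944)) (a (l 16371808) (l 16364968))) (a (l 16327384) (l 16318960))) (a (l 2) (b (l 16262368) (l 2)))) (l 2)))) (a (b (a (b (b (a (b (b (l 16402848) (l 16388352)) (l 16366032)) (b (b (l 16407568) (l 16394064)) (l 16372944))) (a (l 16320352) (l 16328448))) (a (b (l 16259952) (l 2)) (l 16238312))) (b (b (b (a (l 16400784) (l 16385696)) (l 16371576)) (l 16333968)) (a (l 16246816) (l 16253416)))) (a (l 2) (b (a (b (l 16158344)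 (l 2)) (l 16143104)) (l 2)))) (b (b (b (b (b (l 16345032) (l 16339704)) (l 16331376)) (l 16312792)) (a (l 16262368) (l 16268544))) (b (a (l 16168168) (l 16205672)) (a (b (l 16090400) (l 2)) (l 16122288)))))), by decide +kernel⟩

theorem c_pm_102_b : CertB 536870912 536870912 1239849684 370763052 740881858 40050571 3 eng mog cd2q1 cd2q2b pd0 false true false .npp 1 0 2
    ndB2q1 ndB2q2b pcB0 Cut.none Ext.none :=
  certB2 (fam := false) (s1 := true) (s2 := false) (a := 1) (b := 0) (c := 2) (cn := .npp) (n1 := ndB2q1) (n2 := ndB2q2b) (pc := pcB0) (cut := Cut.none) (xt := Ext.none) (P1 := 536870912) (W1 := 536870912) (P2 := 1239849684) (W2 := 370763052) (P3 := 740881858) (W3 := 40050571) (N0 := 3) (En := eng) (mo := mog) (C1 := cd2q1) (C2 := cd2q2b) (C3 := pd0)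
    rfl (fun _ => rfl) k0_pm_102_b

noncomputable def f_pm_112_a : ℕ → ℕ → ℕ → ℕ → Bool := onCell 536870912 536870912 0 536870912 740881858 40050571
    (rowB 3 eng mog cd2q1 cd2q2a pd1 2 false true false .dn 1 1 2 (qsf 536870912 536870912 0 536870912 1) ndB2q1 ndB2q2a pcB1 Cut.none Ext.none)

def k0_pm_112_a : ∃ t, chk3 f_pm_112_a t 1 1 1 = true :=
  ⟨(a (b (b (a (l 16252560) (l 128344998247)) (a (l 16451048) (a (l 16161872) (l 1)))) (a (b (b (l 16197408) (l 16288192)) (a (b (l 16174768) (l 16178128)) (l 258804635319))) (b (l 1) (l 1)))) (l 1)), by decide +kernel⟩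

theorem c_pm_112_a : CertB 536870912 536870912 0 536870912 740881858 40050571 3 eng mog cd2q1 cd2q2a pd1 false true false .dn 1 1 2
    ndB2q1 ndB2q2a pcB1 Cut.none Ext.none :=
  certB2 (fam := false) (s1 := true) (s2 := false) (a := 1) (b := 1) (c := 2) (cn := .dn) (n1 := ndB2q1) (n2 := ndB2q2a) (pc := pcB1) (cut := Cut.none) (xt := Ext.none) (P1 := 536870912) (W1 := 536870912) (P2 := 0) (W2 := 536870912) (P3 := 740881858) (W3 := 40050571) (N0 := 3) (En := eng) (mo := mog) (C1 := cd2q1) (C2 := cd2q2a) (C3 := pd1)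
    rfl (fun _ => rfl) k0_pm_112_a

noncomputable def f_pm_112_b : ℕ → ℕ → ℕ → ℕ → Bool := onCell 536870912 536870912 1239849684 370763052 740881858 40050571
    (rowB 3 eng mog cd2q1 cd2q2b pd1 0 false true false .dn 1 1 2 (qsf 536870912 536870912 1239849684 370763052 1) ndB2q1 ndB2q2b pcB1 Cut.none Ext.none)

def k0_pm_112_b : ∃ t, chk3 f_pm_112_b t 1 1 1 = true :=
  ⟨(b (a (b (b (b (a (l 16247384) (l 74121202439)) (a (l 16225976) (l 16268832))) (a (l 16191928) (l 16253472))) (a (l 16120680) (l 16220136))) (b (l 1) (a (l 16224656) (l 1)))) (a (a (b (l 16029240) (l 15952320)) (b (l 16186960) (l 16189144))) (a (l 119755181671) (l 276521354919)))), by decide +kernel⟩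

theorem c_pm_112_b : CertB 536870912 536870912 1239849684 370763052 740881858 40050571 3 eng mog cd2q1 cd2q2b pd1 false true false .dn 1 1 2
    ndB2q1 ndB2q2b pcB1 Cut.none Ext.none :=
  certB0 (fam := false) (s1 := true) (s2 := false) (a := 1) (b := 1) (c := 2) (cn := .dn) (n1 := ndB2q1) (n2 := ndB2q2b) (pc := pcB1) (cut := Cut.none) (xt := Ext.none) (P1 := 536870912) (W1 := 536870912) (P2 := 1239849684) (W2 := 370763052) (P3 := 740881858) (W3 := 40050571) (N0 := 3) (En := eng) (mo := mog) (C1 := cd2q1) (C2 := cd2q2b) (C3 := pd1)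
    rfl k0_pm_112_b

noncomputable def f_pm_113 : ℕ → ℕ → ℕ → ℕ → Bool := onCell 536870912 536870912 536870912 536870912 740881858 40050571
    (rowB 3 eng mog cd2q1 cd2q3 pd1 1 false true false .nn 1 1 3 (qsf 536870912 536870912 1610612736 536870912 1) ndB2q1 ndB2q3 pcB1 Cut.none Ext.none)

def k0_pm_113 : ∃ t, chk3 f_pm_113 t 1 1 1 = true :=
  ⟨(b (a (b (l 1) (a (l 1) (l 16187112))) (b (a (l 16222376) (l 16237824)) (a (l 16319704) (l 16582352)))) (a (b (a (l 16026720) (l 16197808)) (a (l 15904552) (l 16307312))) (a (b (l 16653376) (l 16777232)) (b (l 17126856) (a (l 16832016) (l 16876120)))))), by decide +kernel⟩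

theorem c_pm_113 : CertB 536870912 536870912 1610612736 536870912 740881858 40050571 3 eng mog cd2q1 cd2q3 pd1 false true false .nn 1 1 3
    ndB2q1 ndB2q3 pcB1 Cut.none Ext.none :=
  certB1 (fam := false) (s1 := true) (s2 := false) (a := 1) (b := 1) (c := 3) (cn := .nn) (n1 := ndB2q1) (n2 := ndB2q3) (pc := pcB1) (cut := Cut.none) (xt := Ext.none) (P1 := 536870912) (W1 := 536870912) (P2 := 1610612736) (W2 := 536870912) (P3 := 740881858) (W3 := 40050571) (N0 := 3) (En := eng) (mo := mog) (C1 := cd2q1) (C2 := cd2q3) (C3 := pd1)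
    rfl (fun _ => rfl) k0_pm_113

noncomputable def f_pm_123 : ℕ → ℕ → ℕ → ℕ → Bool := onCell 1073741824 536870912 1610612736 536870912 740881858 40050571
    (rowB 3 eng mog cd2q1 cd2q3 pd2 2 false true false .npn 1 2 3 (qsf 536870912 536870912 1610612736 536870912 2) ndB2q1 ndB2q3 pcB2 Cut.none Ext.none)

def k0_pm_123 : ∃ t, chk3 f_pm_123 t 1 1 1 = true :=
  ⟨(a (b (a (b (a (l 15827792) (l 15849088)) (a (l 16251112) (l 16110984))) (a (b (l 15913456) (l 16081808)) (b (l 1) (l 16141032)))) (a (b (a (l 16549336) (l 16437216)) (a (l 16604168) (l 16487424))) (b (a (l 16380280) (l 16404336)) (b (l 16435120) (l 16473616))))) (a (b (a (l 511133974423) (l 1)) (b (l 16426488) (l 16538704))) (b (l 1) (a (l 446710206919) (l 443489045351))))), by decide +kernel⟩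

theorem c_pm_123 : CertB 536870912 536870912 1610612736 536870912 740881858 40050571 3 eng mog cd2q1 cd2q3 pd2 false true false .npn 1 2 3
    ndB2q1 ndB2q3 pcB2 Cut.none Ext.none :=
  certB2 (fam := false) (s1 := true) (s2 := false) (a := 1) (b := 2) (c := 3) (cn := .npn) (n1 := ndB2q1) (n2 := ndB2q3) (pc := pcB2) (cut := Cut.none) (xt := Ext.none) (P1 := 536870912) (W1 := 536870912) (P2 := 1610612736) (W2 := 536870912) (P3 := 740881858) (W3 := 40050571) (N0 := 3) (En := eng) (mo := mog) (C1 := cd2q1) (C2 := cd2q3) (C3 := pd2)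
    rfl (fun _ => rfl) k0_pm_123

noncomputable def f_pm_133 : ℕ → ℕ → ℕ → ℕ → Bool := onCell 1610612736 536870912 1610612736 536870912 740881858 40050571
    (rowB 3 eng mog cd2q1 cd2q3 pd3 2 false true false .dn 1 3 3 (qsf 536870912 536870912 1610612736 536870912 3) ndB2q1 ndB2q3 pcB3 Cut.none Ext.none)

def k0_pm_133 : ∃ t, chk3 f_pm_133 t 1 1 1 = true :=
  ⟨(a (b (l 1) (a (a (l 481606993511) (l 1)) (l 1))) (l 1)), by decide +kernel⟩

theorem c_pm_133 : CertB 536870912 536870912 1610612736 536870912 740881858 40050571 3 eng mog cd2q1 cd2q3 pd3 false true false .dn 1 3 3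
    ndB2q1 ndB2q3 pcB3 Cut.none Ext.none :=
  certB2 (fam := false) (s1 := true) (s2 := false) (a := 1) (b := 3) (c := 3) (cn := .dn) (n1 := ndB2q1) (n2 := ndB2q3) (pc := pcB3) (cut := Cut.none) (xt := Ext.none) (P1 := 536870912) (W1 := 536870912) (P2 := 1610612736) (W2 := 536870912) (P3 := 740881858) (W3 := 40050571) (N0 := 3) (En := eng) (mo := mog) (C1 := cd2q1) (C2 := cd2q3) (C3 := pd3)
    rfl (fun _ => rfl) k0_pm_133

noncomputable def cut_pm_202_aa : Cut := Cut.of [[⟨0, 1, 0, 67108864⟩, ⟨1, 0, 0, 67108864⟩, ⟨2, 1, 0, 67108864⟩]]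

noncomputable def f_pm_202_aa : ℕ → ℕ → ℕ → ℕ → Bool := onCell 0 536870912 0 536870912 740881858 40050571
    (rowB 3 eng mog cd2q2a cd2q2a pd0 0 false true false .pp 2 0 2 (qsf 0 536870912 0 536870912 0) ndB2q2a ndB2q2a pcB0 cut_pm_202_aa Ext.none)

def k0_pm_202_aa : ∃ t, chk3 f_pm_202_aa t 1 1 1 = true :=
  ⟨(a (l 3) (b (l 3) (a (l 3) (b (l 3) (a (l 3) (b (l 3) (l 6))))))), by decide +kernel⟩

theorem c_pm_202_aa : CertB 0 536870912 0 536870912 740881858 40050571 3 eng mog cd2q2a cd2q2a pd0 false true false .pp 2 0 2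
    ndB2q2a ndB2q2a pcB0 cut_pm_202_aa Ext.none :=
  certB0 (fam := false) (s1 := true) (s2 := false) (a := 2) (b := 0) (c := 2) (cn := .pp) (n1 := ndB2q2a) (n2 := ndB2q2a) (pc := pcB0) (cut := cut_pm_202_aa) (xt := Ext.none) (P1 := 0) (W1 := 536870912) (P2 := 0) (W2 := 536870912) (P3 := 740881858) (W3 := 40050571) (N0 := 3) (En := eng) (mo := mog) (C1 := cd2q2a) (C2 := cd2q2a) (C3 := pd0)
    rfl k0_pm_202_aa

noncomputable def cut_pm_202_ab : Cut := Cut.of [[⟨0, 1, 0, 67108864⟩, ⟨1, 0, 0, 67108864⟩, ⟨2, 1, 0, 67108864⟩]]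

noncomputable def f_pm_202_ab : ℕ → ℕ → ℕ → ℕ → Bool := onCell 0 536870912 1239849684 370763052 740881858 40050571
    (rowB 3 eng mog cd2q2a cd2q2b pd0 0 false true false .pp 2 0 2 (qsf 0 536870912 1239849684 370763052 0) ndB2q2a ndB2q2b pcB0 cut_pm_202_ab Ext.none)

def k0_pm_202_ab : ∃ t, chk3 f_pm_202_ab t 1 1 1 = true :=
  ⟨(l 3), by decide +kernel⟩

theorem c_pm_202_ab : CertB 0 536870912 1239849684 370763052 740881858 40050571 3 eng mog cd2q2a cd2q2b pd0 false true false .pp 2 0 2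
    ndB2q2a ndB2q2b pcB0 cut_pm_202_ab Ext.none :=
  certB0 (fam := false) (s1 := true) (s2 := false) (a := 2) (b := 0) (c := 2) (cn := .pp) (n1 := ndB2q2a) (n2 := ndB2q2b) (pc := pcB0) (cut := cut_pm_202_ab) (xt := Ext.none) (P1 := 0) (W1 := 536870912) (P2 := 1239849684) (W2 := 370763052) (P3 := 740881858) (W3 := 40050571) (N0 := 3) (En := eng) (mo := mog) (C1 := cd2q2a) (C2 := cd2q2b) (C3 := pd0)
    rfl k0_pm_202_ab

noncomputable def cut_pm_202_ba : Cut := Cut.of [[⟨0, 1, 0, 67108864⟩, ⟨1, 0, 0, 67108864⟩, ⟨2, 1, 0, 67108864⟩]]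

noncomputable def f_pm_202_ba : ℕ → ℕ → ℕ → ℕ → Bool := onCell 1239849684 370763052 0 536870912 740881858 40050571
    (rowB 3 eng mog cd2q2b cd2q2a pd0 0 false true false .pp 2 0 2 (qsf 1239849684 370763052 0 536870912 0) ndB2q2b ndB2q2a pcB0 cut_pm_202_ba Ext.none)

def k0_pm_202_ba : ∃ t, chk3 f_pm_202_ba t 1 1 1 = true :=
  ⟨(l 3), by decide +kernel⟩

theorem c_pm_202_ba : CertB 1239849684 370763052 0 536870912 740881858 40050571 3 eng mog cd2q2b cd2q2a pd0 false true false .pp 2 0 2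
    ndB2q2b ndB2q2a pcB0 cut_pm_202_ba Ext.none :=
  certB0 (fam := false) (s1 := true) (s2 := false) (a := 2) (b := 0) (c := 2) (cn := .pp) (n1 := ndB2q2b) (n2 := ndB2q2a) (pc := pcB0) (cut := cut_pm_202_ba) (xt := Ext.none) (P1 := 1239849684) (W1 := 370763052) (P2 := 0) (W2 := 536870912) (P3 := 740881858) (W3 := 40050571) (N0 := 3) (En := eng) (mo := mog) (C1 := cd2q2b) (C2 := cd2q2a) (C3 := pd0)
    rfl k0_pm_202_ba

noncomputable def cut_pm_202_bb : Cut := Cut.of [[⟨0, 1, 0, 67108864⟩, ⟨1, 0, 0, 67108864⟩, ⟨2, 1, 0, 67108864⟩]]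

noncomputable def f_pm_202_bb : ℕ → ℕ → ℕ → ℕ → Bool := onCell 1239849684 370763052 1239849684 370763052 740881858 40050571
    (rowB 3 eng mog cd2q2b cd2q2b pd0 0 false true false .pp 2 0 2 (qsf 1239849684 370763052 1239849684 370763052 0) ndB2q2b ndB2q2b pcB0 cut_pm_202_bb Ext.none)

def k0_pm_202_bb : ∃ t, chk3 f_pm_202_bb t 1 1 1 = true :=
  ⟨(l 3), by decide +kernel⟩

theorem c_pm_202_bb : CertB 1239849684 370763052 1239849684 370763052 740881858 40050571 3 eng mog cd2q2b cd2q2b pd0 false true false .pp 2 0 2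
    ndB2q2b ndB2q2b pcB0 cut_pm_202_bb Ext.none :=
  certB0 (fam := false) (s1 := true) (s2 := false) (a := 2) (b := 0) (c := 2) (cn := .pp) (n1 := ndB2q2b) (n2 := ndB2q2b) (pc := pcB0) (cut := cut_pm_202_bb) (xt := Ext.none) (P1 := 1239849684) (W1 := 370763052) (P2 := 1239849684) (W2 := 370763052) (P3 := 740881858) (W3 := 40050571) (N0 := 3) (En := eng) (mo := mog) (C1 := cd2q2b) (C2 := cd2q2b) (C3 := pd0)
    rfl k0_pm_202_bb

noncomputable def f_pm_203_a : ℕ → ℕ → ℕ → ℕ → Bool := onCell 0 536870912 0 536870912 740881858 40050571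
    (rowB 3 eng mog cd2q2a cd2q3 pd0 1 false true false .up 2 0 3 (qsf 0 536870912 1610612736 536870912 0) ndB2q2a ndB2q3 pcB0 Cut.none Ext.none)

def k0_pm_203_a : ∃ t, chk3 f_pm_203_a t 1 1 1 = true :=
  ⟨(l 3), by decide +kernel⟩

theorem c_pm_203_a : CertB 0 536870912 1610612736 536870912 740881858 40050571 3 eng mog cd2q2a cd2q3 pd0 false true false .up 2 0 3
    ndB2q2a ndB2q3 pcB0 Cut.none Ext.none :=
  certB1 (fam := false) (s1 := true) (s2 := false) (a := 2) (b := 0) (c := 3) (cn := .up) (n1 := ndB2q2a) (n2 := ndB2q3) (pc := pcB0) (cut := Cut.none) (xt := Ext.none) (P1 := 0) (W1 := 536870912) (P2 := 1610612736) (W2 := 536870912) (P3 := 740881858) (W3 := 40050571) (N0 := 3) (En := eng) (mo := mog) (C1 := cd2q2a) (C2 := cd2q3) (C3 := pd0)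
    rfl (fun _ => rfl) k0_pm_203_a

noncomputable def f_pm_203_b : ℕ → ℕ → ℕ → ℕ → Bool := onCell 1239849684 370763052 1610612736 536870912 740881858 40050571
    (rowB 3 eng mog cd2q2b cd2q3 pd0 0 false true false .up 2 0 3 (qsf 1239849684 370763052 1610612736 536870912 0) ndB2q2b ndB2q3 pcB0 Cut.none Ext.none)

def k0_pm_203_b : ∃ t, chk3 f_pm_203_b t 1 1 1 = true :=
  ⟨(l 3), by decide +kernel⟩

theorem c_pm_203_b : CertB 1239849684 370763052 1610612736 536870912 740881858 40050571 3 eng mog cd2q2b cd2q3 pd0 false true false .up 2 0 3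
    ndB2q2b ndB2q3 pcB0 Cut.none Ext.none :=
  certB0 (fam := false) (s1 := true) (s2 := false) (a := 2) (b := 0) (c := 3) (cn := .up) (n1 := ndB2q2b) (n2 := ndB2q3) (pc := pcB0) (cut := Cut.none) (xt := Ext.none) (P1 := 1239849684) (W1 := 370763052) (P2 := 1610612736) (W2 := 536870912) (P3 := 740881858) (W3 := 40050571) (N0 := 3) (En := eng) (mo := mog) (C1 := cd2q2b) (C2 := cd2q3) (C3 := pd0)
    rfl k0_pm_203_b

noncomputable def cut_pm_213_a : Cut := Cut.of [[⟨0, 1, 0, 67108864⟩, ⟨1, 1, 0, 67108864⟩, ⟨2, 2, 0, 16777216⟩]]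

noncomputable def f_pm_213_a : ℕ → ℕ → ℕ → ℕ → Bool := onCell 0 536870912 1610612736 536870912 740881858 40050571
    (rowB 3 eng mog cd2q2a cd2q3 pd1 0 false true false .pnn 2 1 3 (qsf 0 536870912 1610612736 536870912 1) ndB2q2a ndB2q3 pcB1 cut_pm_213_a Ext.none)

def k0_pm_213_a : ∃ t, chk3 f_pm_213_a t 1 1 1 = true :=
  ⟨(b (l 3) (b (l 3) (a (l 3) (a (l 3) (b (l 3) (a (l 3) (b (l 3) (b (l 3) (b (l 3) (l 6)))))))))), by decide +kernel⟩

theorem c_pm_213_a : CertB 0 536870912 1610612736 536870912 740881858 40050571 3 eng mog cd2q2a cd2q3 pd1 false true false .pnn 2 1 3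
    ndB2q2a ndB2q3 pcB1 cut_pm_213_a Ext.none :=
  certB0 (fam := false) (s1 := true) (s2 := false) (a := 2) (b := 1) (c := 3) (cn := .pnn) (n1 := ndB2q2a) (n2 := ndB2q3) (pc := pcB1) (cut := cut_pm_213_a) (xt := Ext.none) (P1 := 0) (W1 := 536870912) (P2 := 1610612736) (W2 := 536870912) (P3 := 740881858) (W3 := 40050571) (N0 := 3) (En := eng) (mo := mog) (C1 := cd2q2a) (C2 := cd2q3) (C3 := pd1)
    rfl k0_pm_213_a

noncomputable def cut_pm_213_b : Cut := Cut.of [[⟨0, 1, 0, 67108864⟩, ⟨1, 1, 0, 67108864⟩, ⟨2, 2, 0, 16777216⟩]]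

noncomputable def f_pm_213_b : ℕ → ℕ → ℕ → ℕ → Bool := onCell 1239849684 370763052 1610612736 536870912 740881858 40050571
    (rowB 3 eng mog cd2q2b cd2q3 pd1 0 false true false .pnn 2 1 3 (qsf 1239849684 370763052 1610612736 536870912 1) ndB2q2b ndB2q3 pcB1 cut_pm_213_b Ext.none)

def k0_pm_213_b : ∃ t, chk3 f_pm_213_b t 1 1 1 = true :=
  ⟨(l 3), by decide +kernel⟩

theorem c_pm_213_b : CertB 1239849684 370763052 1610612736 536870912 740881858 40050571 3 eng mog cd2q2b cd2q3 pd1 false true false .pnn 2 1 3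
    ndB2q2b ndB2q3 pcB1 cut_pm_213_b Ext.none :=
  certB0 (fam := false) (s1 := true) (s2 := false) (a := 2) (b := 1) (c := 3) (cn := .pnn) (n1 := ndB2q2b) (n2 := ndB2q3) (pc := pcB1) (cut := cut_pm_213_b) (xt := Ext.none) (P1 := 1239849684) (W1 := 370763052) (P2 := 1610612736) (W2 := 536870912) (P3 := 740881858) (W3 := 40050571) (N0 := 3) (En := eng) (mo := mog) (C1 := cd2q2b) (C2 := cd2q3) (C3 := pd1)
    rfl k0_pm_213_b

noncomputable def f_pm_303 : ℕ → ℕ → ℕ → ℕ → Bool := onCell 1610612736 536870912 1610612736 536870912 740881858 40050571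
    (rowB 3 eng mog cd2q3 cd2q3 pd0 0 false true false .npn 3 0 3 (qsf 1610612736 536870912 1610612736 536870912 0) ndB2q3 ndB2q3 pcB0 Cut.none Ext.none)

def k0_pm_303 : ∃ t, chk3 f_pm_303 t 1 1 1 = true :=
  ⟨(l 3), by decide +kernel⟩

theorem c_pm_303 : CertB 1610612736 536870912 1610612736 536870912 740881858 40050571 3 eng mog cd2q3 cd2q3 pd0 false true false .npn 3 0 3
    ndB2q3 ndB2q3 pcB0 Cut.none Ext.none :=
  certB0 (fam := false) (s1 := true) (s2 := false) (a := 3) (b := 0) (c := 3) (cn := .npn) (n1 := ndB2q3) (n2 := ndB2q3) (pc := pcB0) (cut := Cut.none) (xt := Ext.none) (P1 := 1610612736) (W1 := 536870912) (P2 := 1610612736) (W2 := 536870912) (P3 := 740881858) (W3 := 40050571) (N0 := 3) (En := eng) (mo := mog) (C1 := cd2q3) (C2 := cd2q3) (C3 := pd0)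
    rfl k0_pm_303

noncomputable def f_pm_313 : ℕ → ℕ → ℕ → ℕ → Bool := onCell 1610612736 536870912 1610612736 536870912 740881858 40050571
    (rowB 3 eng mog cd2q3 cd2q3 pd1 0 false true false .dn 3 1 3 (qsf 1610612736 536870912 1610612736 536870912 1) ndB2q3 ndB2q3 pcB1 Cut.none Ext.none)

def k0_pm_313 : ∃ t, chk3 f_pm_313 t 1 1 1 = true :=
  ⟨(l 3), by decide +kernel⟩

theorem c_pm_313 : CertB 1610612736 536870912 1610612736 536870912 740881858 40050571 3 eng mog cd2q3 cd2q3 pd1 false true false .dn 3 1 3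
    ndB2q3 ndB2q3 pcB1 Cut.none Ext.none :=
  certB0 (fam := false) (s1 := true) (s2 := false) (a := 3) (b := 1) (c := 3) (cn := .dn) (n1 := ndB2q3) (n2 := ndB2q3) (pc := pcB1) (cut := Cut.none) (xt := Ext.none) (P1 := 1610612736) (W1 := 536870912) (P2 := 1610612736) (W2 := 536870912) (P3 := 740881858) (W3 := 40050571) (N0 := 3) (En := eng) (mo := mog) (C1 := cd2q3) (C2 := cd2q3) (C3 := pd1)
    rfl k0_pm_313

noncomputable def f_mm_001 : ℕ → ℕ → ℕ → ℕ → Bool := onCell 0 536870912 536870912 536870912 740881858 40050571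
    (rowB 3 eng mog cd2q0 cd2q1 pd0 0 false false false .up 0 0 1 (qsf 0 536870912 536870912 536870912 0) ndB2q0 ndB2q1 pcB0 Cut.none Ext.none)

def k0_mm_001 : ∃ t, chk3 f_mm_001 t 1 1 1 = true :=
  ⟨(l 3), by decide +kernel⟩

theorem c_mm_001 : CertB 0 536870912 536870912 536870912 740881858 40050571 3 eng mog cd2q0 cd2q1 pd0 false false false .up 0 0 1
    ndB2q0 ndB2q1 pcB0 Cut.none Ext.none :=
  certB0 (fam := false) (s1 := false) (s2 := false) (a := 0) (b := 0) (c := 1) (cn := .up) (n1 := ndB2q0) (n2 := ndB2q1) (pc := pcB0) (cut := Cut.none) (xt := Ext.none) (P1 := 0) (W1 := 536870912) (P2 := 536870912) (W2 := 536870912) (P3 := 740881858) (W3 := 40050571) (N0 := 3) (En := eng) (mo := mog) (C1 := cd2q0) (C2 := cd2q1) (C3 := pd0)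
    rfl k0_mm_001

noncomputable def f_mm_011 : ℕ → ℕ → ℕ → ℕ → Bool := onCell 0 536870912 536870912 536870912 740881858 40050571
    (rowB 3 eng mog cd2q0 cd2q1 pd1 0 false false false .pnn 0 1 1 (qsf 0 536870912 536870912 536870912 1) ndB2q0 ndB2q1 pcB1 Cut.none Ext.none)

def k0_mm_011 : ∃ t, chk3 f_mm_011 t 1 1 1 = true :=
  ⟨(l 3), by decide +kernel⟩

theorem c_mm_011 : CertB 0 536870912 536870912 536870912 740881858 40050571 3 eng mog cd2q0 cd2q1 pd1 false false false .pnn 0 1 1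
    ndB2q0 ndB2q1 pcB1 Cut.none Ext.none :=
  certB0 (fam := false) (s1 := false) (s2 := false) (a := 0) (b := 1) (c := 1) (cn := .pnn) (n1 := ndB2q0) (n2 := ndB2q1) (pc := pcB1) (cut := Cut.none) (xt := Ext.none) (P1 := 0) (W1 := 536870912) (P2 := 536870912) (W2 := 536870912) (P3 := 740881858) (W3 := 40050571) (N0 := 3) (En := eng) (mo := mog) (C1 := cd2q0) (C2 := cd2q1) (C3 := pd1)
    rfl k0_mm_011

noncomputable def f_mm_012_a : ℕ → ℕ → ℕ → ℕ → Bool := onCell 0 536870912 0 536870912 740881858 40050571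
    (rowB 3 eng mog cd2q0 cd2q2a pd1 0 false false false .pnp 0 1 2 (qsf 0 536870912 0 536870912 1) ndB2q0 ndB2q2a pcB1 Cut.none Ext.none)

def k0_mm_012_a : ∃ t, chk3 f_mm_012_a t 1 1 1 = true :=
  ⟨(l 5), by decide +kernel⟩

theorem c_mm_012_a : CertB 0 536870912 0 536870912 740881858 40050571 3 eng mog cd2q0 cd2q2a pd1 false false false .pnp 0 1 2
    ndB2q0 ndB2q2a pcB1 Cut.none Ext.none :=
  certB0 (fam := false) (s1 := false) (s2 := false) (a := 0) (b := 1) (c := 2) (cn := .pnp) (n1 := ndB2q0) (n2 := ndB2q2a) (pc := pcB1) (cut := Cut.none) (xt := Ext.none) (P1 := 0) (W1 := 536870912) (P2 := 0) (W2 := 536870912) (P3 := 740881858) (W3 := 40050571) (N0 := 3) (En := eng) (mo := mog) (C1 := cd2q0) (C2 := cd2q2a) (C3 := pd1)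
    rfl k0_mm_012_a

noncomputable def f_mm_012_b : ℕ → ℕ → ℕ → ℕ → Bool := onCell 0 536870912 1239849684 370763052 740881858 40050571
    (rowB 3 eng mog cd2q0 cd2q2b pd1 0 false false false .pnp 0 1 2 (qsf 0 536870912 1239849684 370763052 1) ndB2q0 ndB2q2b pcB1 Cut.none Ext.none)

def k0_mm_012_b : ∃ t, chk3 f_mm_012_b t 1 1 1 = true :=
  ⟨(l 5), by decide +kernel⟩

theorem c_mm_012_b : CertB 0 536870912 1239849684 370763052 740881858 40050571 3 eng mog cd2q0 cd2q2b pd1 false false false .pnp 0 1 2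
    ndB2q0 ndB2q2b pcB1 Cut.none Ext.none :=
  certB0 (fam := false) (s1 := false) (s2 := false) (a := 0) (b := 1) (c := 2) (cn := .pnp) (n1 := ndB2q0) (n2 := ndB2q2b) (pc := pcB1) (cut := Cut.none) (xt := Ext.none) (P1 := 0) (W1 := 536870912) (P2 := 1239849684) (W2 := 370763052) (P3 := 740881858) (W3 := 40050571) (N0 := 3) (En := eng) (mo := mog) (C1 := cd2q0) (C2 := cd2q2b) (C3 := pd1)
    rfl k0_mm_012_b

noncomputable def f_mm_022_a : ℕ → ℕ → ℕ → ℕ → Bool := onCell 0 536870912 0 536870912 740881858 40050571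
    (rowB 3 eng mog cd2q0 cd2q2a pd2 0 false false false .pp 0 2 2 (qsf 0 536870912 0 536870912 2) ndB2q0 ndB2q2a pcB2 Cut.none Ext.none)

def k0_mm_022_a : ∃ t, chk3 f_mm_022_a t 1 1 1 = true :=
  ⟨(l 5), by decide +kernel⟩

theorem c_mm_022_a : CertB 0 536870912 0 536870912 740881858 40050571 3 eng mog cd2q0 cd2q2a pd2 false false false .pp 0 2 2
    ndB2q0 ndB2q2a pcB2 Cut.none Ext.none :=
  certB0 (fam := false) (s1 := false) (s2 := false) (a := 0) (b := 2) (c := 2) (cn := .pp) (n1 := ndB2q0) (n2 := ndB2q2a) (pc := pcB2) (cut := Cut.none) (xt := Ext.none) (P1 := 0) (W1 := 536870912) (P2 := 0) (W2 := 536870912) (P3 := 740881858) (W3 := 40050571) (N0 := 3) (En := eng) (mo := mog) (C1 := cd2q0) (C2 := cd2q2a) (C3 := pd2)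
    rfl k0_mm_022_a

noncomputable def f_mm_022_b : ℕ → ℕ → ℕ → ℕ → Bool := onCell 0 536870912 1239849684 370763052 740881858 40050571
    (rowB 3 eng mog cd2q0 cd2q2b pd2 0 false false false .pp 0 2 2 (qsf 0 536870912 1239849684 370763052 2) ndB2q0 ndB2q2b pcB2 Cut.none Ext.none)

def k0_mm_022_b : ∃ t, chk3 f_mm_022_b t 1 1 1 = true :=
  ⟨(l 5), by decide +kernel⟩

theorem c_mm_022_b : CertB 0 536870912 1239849684 370763052 740881858 40050571 3 eng mog cd2q0 cd2q2b pd2 false false false .pp 0 2 2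
    ndB2q0 ndB2q2b pcB2 Cut.none Ext.none :=
  certB0 (fam := false) (s1 := false) (s2 := false) (a := 0) (b := 2) (c := 2) (cn := .pp) (n1 := ndB2q0) (n2 := ndB2q2b) (pc := pcB2) (cut := Cut.none) (xt := Ext.none) (P1 := 0) (W1 := 536870912) (P2 := 1239849684) (W2 := 370763052) (P3 := 740881858) (W3 := 40050571) (N0 := 3) (En := eng) (mo := mog) (C1 := cd2q0) (C2 := cd2q2b) (C3 := pd2)
    rfl k0_mm_022_b

noncomputable def f_mm_023 : ℕ → ℕ → ℕ → ℕ → Bool := onCell 0 536870912 1610612736 536870912 740881858 40050571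
    (rowB 3 eng mog cd2q0 cd2q3 pd2 0 false false false .up 0 2 3 (qsf 0 536870912 1610612736 536870912 2) ndB2q0 ndB2q3 pcB2 Cut.none Ext.none)

def k0_mm_023 : ∃ t, chk3 f_mm_023 t 1 1 1 = true :=
  ⟨(l 5), by decide +kernel⟩

theorem c_mm_023 : CertB 0 536870912 1610612736 536870912 740881858 40050571 3 eng mog cd2q0 cd2q3 pd2 false false false .up 0 2 3
    ndB2q0 ndB2q3 pcB2 Cut.none Ext.none :=
  certB0 (fam := false) (s1 := false) (s2 := false) (a := 0) (b := 2) (c := 3) (cn := .up) (n1 := ndB2q0) (n2 := ndB2q3) (pc := pcB2) (cut := Cut.none) (xt := Ext.none) (P1 := 0) (W1 := 536870912) (P2 := 1610612736) (W2 := 536870912) (P3 := 740881858) (W3 := 40050571) (N0 := 3) (En := eng) (mo := mog) (C1 := cd2q0) (C2 := cd2q3) (C3 := pd2)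
    rfl k0_mm_023

noncomputable def f_mm_033 : ℕ → ℕ → ℕ → ℕ → Bool := onCell 0 536870912 1610612736 536870912 740881858 40050571
    (rowB 3 eng mog cd2q0 cd2q3 pd3 0 false false false .pnn 0 3 3 (qsf 0 536870912 1610612736 536870912 3) ndB2q0 ndB2q3 pcB3 Cut.none Ext.none)

def k0_mm_033 : ∃ t, chk3 f_mm_033 t 1 1 1 = true :=
  ⟨(l 5), by decide +kernel⟩

theorem c_mm_033 : CertB 0 536870912 1610612736 536870912 740881858 40050571 3 eng mog cd2q0 cd2q3 pd3 false false false .pnn 0 3 3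
    ndB2q0 ndB2q3 pcB3 Cut.none Ext.none :=
  certB0 (fam := false) (s1 := false) (s2 := false) (a := 0) (b := 3) (c := 3) (cn := .pnn) (n1 := ndB2q0) (n2 := ndB2q3) (pc := pcB3) (cut := Cut.none) (xt := Ext.none) (P1 := 0) (W1 := 536870912) (P2 := 1610612736) (W2 := 536870912) (P3 := 740881858) (W3 := 40050571) (N0 := 3) (En := eng) (mo := mog) (C1 := cd2q0) (C2 := cd2q3) (C3 := pd3)
    rfl k0_mm_033

noncomputable def f_mm_101 : ℕ → ℕ → ℕ → ℕ → Bool := onCell 536870912 536870912 536870912 536870912 740881858 40050571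
    (rowB 3 eng mog cd2q1 cd2q1 pd0 0 false false false .npn 1 0 1 (qsf 536870912 536870912 536870912 536870912 0) ndB2q1 ndB2q1 pcB0 Cut.none Ext.none)

def k0_mm_101 : ∃ t, chk3 f_mm_101 t 1 1 1 = true :=
  ⟨(l 3), by decide +kernel⟩

theorem c_mm_101 : CertB 536870912 536870912 536870912 536870912 740881858 40050571 3 eng mog cd2q1 cd2q1 pd0 false false false .npn 1 0 1
    ndB2q1 ndB2q1 pcB0 Cut.none Ext.none :=
  certB0 (fam := false) (s1 := false) (s2 := false) (a := 1) (b := 0) (c := 1) (cn := .npn) (n1 := ndB2q1) (n2 := ndB2q1) (pc := pcB0) (cut := Cut.none) (xt := Ext.none) (P1 := 536870912) (W1 := 536870912) (P2 := 536870912) (W2 := 536870912) (P3 := 740881858) (W3 := 40050571) (N0 := 3) (En := eng) (mo := mog) (C1 := cd2q1) (C2 := cd2q1) (C3 := pd0)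
    rfl k0_mm_101

noncomputable def f_mm_102_a : ℕ → ℕ → ℕ → ℕ → Bool := onCell 536870912 536870912 0 536870912 740881858 40050571
    (rowB 3 eng mog cd2q1 cd2q2a pd0 0 false false false .npp 1 0 2 (qsf 536870912 536870912 0 536870912 0) ndB2q1 ndB2q2a pcB0 Cut.none Ext.none)

def k0_mm_102_a : ∃ t, chk3 f_mm_102_a t 1 1 1 = true :=
  ⟨(l 5), by decide +kernel⟩

theorem c_mm_102_a : CertB 536870912 536870912 0 536870912 740881858 40050571 3 eng mog cd2q1 cd2q2a pd0 false false false .npp 1 0 2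
    ndB2q1 ndB2q2a pcB0 Cut.none Ext.none :=
  certB0 (fam := false) (s1 := false) (s2 := false) (a := 1) (b := 0) (c := 2) (cn := .npp) (n1 := ndB2q1) (n2 := ndB2q2a) (pc := pcB0) (cut := Cut.none) (xt := Ext.none) (P1 := 536870912) (W1 := 536870912) (P2 := 0) (W2 := 536870912) (P3 := 740881858) (W3 := 40050571) (N0 := 3) (En := eng) (mo := mog) (C1 := cd2q1) (C2 := cd2q2a) (C3 := pd0)
    rfl k0_mm_102_a

noncomputable def f_mm_102_b : ℕ → ℕ → ℕ → ℕ → Bool := onCell 536870912 536870912 1239849684 370763052 740881858 40050571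
    (rowB 3 eng mog cd2q1 cd2q2b pd0 0 false false false .npp 1 0 2 (qsf 536870912 536870912 1239849684 370763052 0) ndB2q1 ndB2q2b pcB0 Cut.none Ext.none)

def k0_mm_102_b : ∃ t, chk3 f_mm_102_b t 1 1 1 = true :=
  ⟨(l 5), by decide +kernel⟩

theorem c_mm_102_b : CertB 536870912 536870912 1239849684 370763052 740881858 40050571 3 eng mog cd2q1 cd2q2b pd0 false false false .npp 1 0 2
    ndB2q1 ndB2q2b pcB0 Cut.none Ext.none :=
  certB0 (fam := false) (s1 := false) (s2 := false) (a := 1) (b := 0) (c := 2) (cn := .npp) (n1 := ndB2q1) (n2 := ndB2q2b) (pc := pcB0) (cut := Cut.none) (xt := Ext.none) (P1 := 536870912) (W1 := 536870912) (P2 := 1239849684) (W2 := 370763052) (P3 := 740881858) (W3 := 40050571) (N0 := 3) (En := eng) (mo := mog) (C1 := cd2q1) (C2 := cd2q2b) (C3 := pd0)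
    rfl k0_mm_102_b

noncomputable def f_mm_112_a : ℕ → ℕ → ℕ → ℕ → Bool := onCell 536870912 536870912 0 536870912 740881858 40050571
    (rowB 3 eng mog cd2q1 cd2q2a pd1 0 false false false .dn 1 1 2 (qsf 536870912 536870912 0 536870912 1) ndB2q1 ndB2q2a pcB1 Cut.none Ext.none)

def k0_mm_112_a : ∃ t, chk3 f_mm_112_a t 1 1 1 = true :=
  ⟨(l 5), by decide +kernel⟩

theorem c_mm_112_a : CertB 536870912 536870912 0 536870912 740881858 40050571 3 eng mog cd2q1 cd2q2a pd1 false false false .dn 1 1 2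
    ndB2q1 ndB2q2a pcB1 Cut.none Ext.none :=
  certB0 (fam := false) (s1 := false) (s2 := false) (a := 1) (b := 1) (c := 2) (cn := .dn) (n1 := ndB2q1) (n2 := ndB2q2a) (pc := pcB1) (cut := Cut.none) (xt := Ext.none) (P1 := 536870912) (W1 := 536870912) (P2 := 0) (W2 := 536870912) (P3 := 740881858) (W3 := 40050571) (N0 := 3) (En := eng) (mo := mog) (C1 := cd2q1) (C2 := cd2q2a) (C3 := pd1)
    rfl k0_mm_112_a

noncomputable def f_mm_112_b : ℕ → ℕ → ℕ → ℕ → Bool := onCell 536870912 536870912 1239849684 370763052 740881858 40050571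
    (rowB 3 eng mog cd2q1 cd2q2b pd1 0 false false false .dn 1 1 2 (qsf 536870912 536870912 1239849684 370763052 1) ndB2q1 ndB2q2b pcB1 Cut.none Ext.none)

def k0_mm_112_b : ∃ t, chk3 f_mm_112_b t 1 1 1 = true :=
  ⟨(l 5), by decide +kernel⟩

theorem c_mm_112_b : CertB 536870912 536870912 1239849684 370763052 740881858 40050571 3 eng mog cd2q1 cd2q2b pd1 false false false .dn 1 1 2
    ndB2q1 ndB2q2b pcB1 Cut.none Ext.none :=
  certB0 (fam := false) (s1 := false) (s2 := false) (a := 1) (b := 1) (c := 2) (cn := .dn) (n1 := ndB2q1) (n2 := ndB2q2b) (pc := pcB1) (cut := Cut.none) (xt := Ext.none) (P1 := 536870912) (W1 := 536870912) (P2 := 1239849684) (W2 := 370763052) (P3 := 740881858) (W3 := 40050571) (N0 := 3) (En := eng) (mo := mog) (C1 := cd2q1) (C2 := cd2q2b) (C3 := pd1)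
    rfl k0_mm_112_b

noncomputable def f_mm_113 : ℕ → ℕ → ℕ → ℕ → Bool := onCell 536870912 536870912 1610612736 536870912 740881858 40050571
    (rowB 3 eng mog cd2q1 cd2q3 pd1 0 false false false .nn 1 1 3 (qsf 536870912 536870912 1610612736 536870912 1) ndB2q1 ndB2q3 pcB1 Cut.none Ext.none)

def k0_mm_113 : ∃ t, chk3 f_mm_113 t 1 1 1 = true :=
  ⟨(l 5), by decide +kernel⟩

theorem c_mm_113 : CertB 536870912 536870912 1610612736 536870912 740881858 40050571 3 eng mog cd2q1 cd2q3 pd1 false false false .nn 1 1 3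
    ndB2q1 ndB2q3 pcB1 Cut.none Ext.none :=
  certB0 (fam := false) (s1 := false) (s2 := false) (a := 1) (b := 1) (c := 3) (cn := .nn) (n1 := ndB2q1) (n2 := ndB2q3) (pc := pcB1) (cut := Cut.none) (xt := Ext.none) (P1 := 536870912) (W1 := 536870912) (P2 := 1610612736) (W2 := 536870912) (P3 := 740881858) (W3 := 40050571) (N0 := 3) (En := eng) (mo := mog) (C1 := cd2q1) (C2 := cd2q3) (C3 := pd1)
    rfl k0_mm_113

noncomputable def f_mm_123 : ℕ → ℕ → ℕ → ℕ → Bool := onCell 536870912 536870912 1610612736 536870912 740881858 40050571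
    (rowB 3 eng mog cd2q1 cd2q3 pd2 0 false false false .npn 1 2 3 (qsf 536870912 536870912 1610612736 536870912 2) ndB2q1 ndB2q3 pcB2 Cut.none Ext.none)

def k0_mm_123 : ∃ t, chk3 f_mm_123 t 1 1 1 = true :=
  ⟨(l 5), by decide +kernel⟩

theorem c_mm_123 : CertB 536870912 536870912 1610612736 536870912 740881858 40050571 3 eng mog cd2q1 cd2q3 pd2 false false false .npn 1 2 3
    ndB2q1 ndB2q3 pcB2 Cut.none Ext.none :=
  certB0 (fam := false) (s1 := false) (s2 := false) (a := 1) (b := 2) (c := 3) (cn := .npn) (n1 := ndB2q1) (n2 := ndB2q3) (pc := pcB2) (cut := Cut.none) (xt := Ext.none) (P1 := 536870912) (W1 := 536870912) (P2 := 1610612736) (W2 := 536870912) (P3 := 740881858) (W3 := 40050571) (N0 := 3) (En := eng) (mo := mog) (C1 := cd2q1) (C2 := cd2q3) (C3 := pd2)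
    rfl k0_mm_123

noncomputable def f_mm_133 : ℕ → ℕ → ℕ → ℕ → Bool := onCell 536870912 536870912 1610612736 536870912 740881858 40050571
    (rowB 3 eng mog cd2q1 cd2q3 pd3 0 false false false .dn 1 3 3 (qsf 536870912 536870912 1610612736 536870912 3) ndB2q1 ndB2q3 pcB3 Cut.none Ext.none)

def k0_mm_133 : ∃ t, chk3 f_mm_133 t 1 1 1 = true :=
  ⟨(l 5), by decide +kernel⟩

theorem c_mm_133 : CertB 536870912 536870912 1610612736 536870912 740881858 40050571 3 eng mog cd2q1 cd2q3 pd3 false false false .dn 1 3 3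
    ndB2q1 ndB2q3 pcB3 Cut.none Ext.none :=
  certB0 (fam := false) (s1 := false) (s2 := false) (a := 1) (b := 3) (c := 3) (cn := .dn) (n1 := ndB2q1) (n2 := ndB2q3) (pc := pcB3) (cut := Cut.none) (xt := Ext.none) (P1 := 536870912) (W1 := 536870912) (P2 := 1610612736) (W2 := 536870912) (P3 := 740881858) (W3 := 40050571) (N0 := 3) (En := eng) (mo := mog) (C1 := cd2q1) (C2 := cd2q3) (C3 := pd3)
    rfl k0_mm_133

noncomputable def f_mm_202_aa : ℕ → ℕ → ℕ → ℕ → Bool := onCell 0 536870912 0 536870912 740881858 40050571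
    (rowB 3 eng mog cd2q2a cd2q2a pd0 0 false false false .pp 2 0 2 (qsf 0 536870912 0 536870912 0) ndB2q2a ndB2q2a pcB0 Cut.none Ext.none)

def k0_mm_202_aa : ∃ t, chk3 f_mm_202_aa t 1 1 1 = true :=
  ⟨(l 3), by decide +kernel⟩

theorem c_mm_202_aa : CertB 0 536870912 0 536870912 740881858 40050571 3 eng mog cd2q2a cd2q2a pd0 false false false .pp 2 0 2
    ndB2q2a ndB2q2a pcB0 Cut.none Ext.none :=
  certB0 (fam := false) (s1 := false) (s2 := false) (a := 2) (b := 0) (c := 2) (cn := .pp) (n1 := ndB2q2a) (n2 := ndB2q2a) (pc := pcB0) (cut := Cut.none) (xt := Ext.none) (P1 := 0) (W1 := 536870912) (P2 := 0) (W2 := 536870912) (P3 := 740881858) (W3 := 40050571) (N0 := 3) (En := eng) (mo := mog) (C1 := cd2q2a) (C2 := cd2q2a) (C3 := pd0)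
    rfl k0_mm_202_aa

noncomputable def f_mm_202_ab : ℕ → ℕ → ℕ → ℕ → Bool := onCell 0 536870912 1239849684 370763052 740881858 40050571
    (rowB 3 eng mog cd2q2a cd2q2b pd0 0 false false false .pp 2 0 2 (qsf 0 536870912 1239849684 370763052 0) ndB2q2a ndB2q2b pcB0 Cut.none Ext.none)

def k0_mm_202_ab : ∃ t, chk3 f_mm_202_ab t 1 1 1 = true :=
  ⟨(l 3), by decide +kernel⟩

theorem c_mm_202_ab : CertB 0 536870912 1239849684 370763052 740881858 40050571 3 eng mog cd2q2a cd2q2b pd0 false false false .pp 2 0 2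
    ndB2q2a ndB2q2b pcB0 Cut.none Ext.none :=
  certB0 (fam := false) (s1 := false) (s2 := false) (a := 2) (b := 0) (c := 2) (cn := .pp) (n1 := ndB2q2a) (n2 := ndB2q2b) (pc := pcB0) (cut := Cut.none) (xt := Ext.none) (P1 := 0) (W1 := 536870912) (P2 := 1239849684) (W2 := 370763052) (P3 := 740881858) (W3 := 40050571) (N0 := 3) (En := eng) (mo := mog) (C1 := cd2q2a) (C2 := cd2q2b) (C3 := pd0)
    rfl k0_mm_202_ab

noncomputable def f_mm_202_ba : ℕ → ℕ → ℕ → ℕ → Bool := onCell 1239849684 370763052 0 536870912 740881858 40050571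
    (rowB 3 eng mog cd2q2b cd2q2a pd0 0 false false false .pp 2 0 2 (qsf 1239849684 370763052 0 536870912 0) ndB2q2b ndB2q2a pcB0 Cut.none Ext.none)

def k0_mm_202_ba : ∃ t, chk3 f_mm_202_ba t 1 1 1 = true :=
  ⟨(l 3), by decide +kernel⟩

theorem c_mm_202_ba : CertB 1239849684 370763052 0 536870912 740881858 40050571 3 eng mog cd2q2b cd2q2a pd0 false false false .pp 2 0 2
    ndB2q2b ndB2q2a pcB0 Cut.none Ext.none :=
  certB0 (fam := false) (s1 := false) (s2 := false) (a := 2) (b := 0) (c := 2) (cn := .pp) (n1 := ndB2q2b) (n2 := ndB2q2a) (pc := pcB0) (cut := Cut.none) (xt := Ext.none) (P1 := 1239849684) (W1 := 370763052) (P2 := 0) (W2 := 536870912) (P3 := 740881858) (W3 := 40050571) (N0 := 3) (En := eng) (mo := mog) (C1 := cd2q2b) (C2 := cd2q2a) (C3 := pd0)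
    rfl k0_mm_202_ba

noncomputable def f_mm_202_bb : ℕ → ℕ → ℕ → ℕ → Bool := onCell 1239849684 370763052 1239849684 370763052 740881858 40050571
    (rowB 3 eng mog cd2q2b cd2q2b pd0 0 false false false .pp 2 0 2 (qsf 1239849684 370763052 1239849684 370763052 0) ndB2q2b ndB2q2b pcB0 Cut.none Ext.none)

def k0_mm_202_bb : ∃ t, chk3 f_mm_202_bb t 1 1 1 = true :=
  ⟨(l 3), by decide +kernel⟩

theorem c_mm_202_bb : CertB 1239849684 370763052 1239849684 370763052 740881858 40050571 3 eng mog cd2q2b cd2q2b pd0 false false false .pp 2 0 2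
    ndB2q2b ndB2q2b pcB0 Cut.none Ext.none :=
  certB0 (fam := false) (s1 := false) (s2 := false) (a := 2) (b := 0) (c := 2) (cn := .pp) (n1 := ndB2q2b) (n2 := ndB2q2b) (pc := pcB0) (cut := Cut.none) (xt := Ext.none) (P1 := 1239849684) (W1 := 370763052) (P2 := 1239849684) (W2 := 370763052) (P3 := 740881858) (W3 := 40050571) (N0 := 3) (En := eng) (mo := mog) (C1 := cd2q2b) (C2 := cd2q2b) (C3 := pd0)
    rfl k0_mm_202_bb

noncomputable def f_mm_203_a : ℕ → ℕ → ℕ → ℕ → Bool := onCell 0 536870912 1610612736 536870912 740881858 40050571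
    (rowB 3 eng mog cd2q2a cd2q3 pd0 0 false false false .up 2 0 3 (qsf 0 536870912 1610612736 536870912 0) ndB2q2a ndB2q3 pcB0 Cut.none Ext.none)

def k0_mm_203_a : ∃ t, chk3 f_mm_203_a t 1 1 1 = true :=
  ⟨(l 5), by decide +kernel⟩

theorem c_mm_203_a : CertB 0 536870912 1610612736 536870912 740881858 40050571 3 eng mog cd2q2a cd2q3 pd0 false false false .up 2 0 3
    ndB2q2a ndB2q3 pcB0 Cut.none Ext.none :=
  certB0 (fam := false) (s1 := false) (s2 := false) (a := 2) (b := 0) (c := 3) (cn := .up) (n1 := ndB2q2a) (n2 := ndB2q3) (pc := pcB0) (cut := Cut.none) (xt := Ext.none) (P1 := 0) (W1 := 536870912) (P2 := 1610612736) (W2 := 536870912) (P3 := 740881858) (W3 := 40050571) (N0 := 3) (En := eng) (mo := mog) (C1 := cd2q2a) (C2 := cd2q3) (C3 := pd0)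
    rfl k0_mm_203_a

noncomputable def f_mm_203_b : ℕ → ℕ → ℕ → ℕ → Bool := onCell 1239849684 370763052 1610612736 536870912 740881858 40050571
    (rowB 3 eng mog cd2q2b cd2q3 pd0 0 false false false .up 2 0 3 (qsf 1239849684 370763052 1610612736 536870912 0) ndB2q2b ndB2q3 pcB0 Cut.none Ext.none)

def k0_mm_203_b : ∃ t, chk3 f_mm_203_b t 1 1 1 = true :=
  ⟨(l 3), by decide +kernel⟩

theorem c_mm_203_b : CertB 1239849684 370763052 1610612736 536870912 740881858 40050571 3 eng mog cd2q2b cd2q3 pd0 false false false .up 2 0 3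
    ndB2q2b ndB2q3 pcB0 Cut.none Ext.none :=
  certB0 (fam := false) (s1 := false) (s2 := false) (a := 2) (b := 0) (c := 3) (cn := .up) (n1 := ndB2q2b) (n2 := ndB2q3) (pc := pcB0) (cut := Cut.none) (xt := Ext.none) (P1 := 1239849684) (W1 := 370763052) (P2 := 1610612736) (W2 := 536870912) (P3 := 740881858) (W3 := 40050571) (N0 := 3) (En := eng) (mo := mog) (C1 := cd2q2b) (C2 := cd2q3) (C3 := pd0)
    rfl k0_mm_203_b

noncomputable def f_mm_213_a : ℕ → ℕ → ℕ → ℕ → Bool := onCell 0 536870912 1610612736 536870912 740881858 40050571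
    (rowB 3 eng mog cd2q2a cd2q3 pd1 0 false false false .pnn 2 1 3 (qsf 0 536870912 1610612736 536870912 1) ndB2q2a ndB2q3 pcB1 Cut.none Ext.none)

def k0_mm_213_a : ∃ t, chk3 f_mm_213_a t 1 1 1 = true :=
  ⟨(l 5), by decide +kernel⟩

theorem c_mm_213_a : CertB 0 536870912 1610612736 536870912 740881858 40050571 3 eng mog cd2q2a cd2q3 pd1 false false false .pnn 2 1 3
    ndB2q2a ndB2q3 pcB1 Cut.none Ext.none :=
  certB0 (fam := false) (s1 := false) (s2 := false) (a := 2) (b := 1) (c := 3) (cn := .pnn) (n1 := ndB2q2a) (n2 := ndB2q3) (pc := pcB1) (cut := Cut.none) (xt := Ext.none) (P1 := 0) (W1 := 536870912) (P2 := 1610612736) (W2 := 536870912) (P3 := 740881858) (W3 := 40050571) (N0 := 3) (En := eng) (mo := mog) (C1 := cd2q2a) (C2 := cd2q3) (C3 := pd1)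
    rfl k0_mm_213_a

noncomputable def f_mm_213_b : ℕ → ℕ → ℕ → ℕ → Bool := onCell 1239849684 370763052 1610612736 536870912 740881858 40050571
    (rowB 3 eng mog cd2q2b cd2q3 pd1 0 false false false .pnn 2 1 3 (qsf 1239849684 370763052 1610612736 536870912 1) ndB2q2b ndB2q3 pcB1 Cut.none Ext.none)

def k0_mm_213_b : ∃ t, chk3 f_mm_213_b t 1 1 1 = true :=
  ⟨(l 3), by decide +kernel⟩

theorem c_mm_213_b : CertB 1239849684 370763052 1610612736 536870912 740881858 40050571 3 eng mog cd2q2b cd2q3 pd1 false false false .pnn 2 1 3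
    ndB2q2b ndB2q3 pcB1 Cut.none Ext.none :=
  certB0 (fam := false) (s1 := false) (s2 := false) (a := 2) (b := 1) (c := 3) (cn := .pnn) (n1 := ndB2q2b) (n2 := ndB2q3) (pc := pcB1) (cut := Cut.none) (xt := Ext.none) (P1 := 1239849684) (W1 := 370763052) (P2 := 1610612736) (W2 := 536870912) (P3 := 740881858) (W3 := 40050571) (N0 := 3) (En := eng) (mo := mog) (C1 := cd2q2b) (C2 := cd2q3) (C3 := pd1)
    rfl k0_mm_213_b

noncomputable def f_mm_303 : ℕ → ℕ → ℕ → ℕ → Bool := onCell 1610612736 536870912 1610612736 536870912 740881858 40050571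
    (rowB 3 eng mog cd2q3 cd2q3 pd0 0 false false false .npn 3 0 3 (qsf 1610612736 536870912 1610612736 536870912 0) ndB2q3 ndB2q3 pcB0 Cut.none Ext.none)

def k0_mm_303 : ∃ t, chk3 f_mm_303 t 1 1 1 = true :=
  ⟨(l 3), by decide +kernel⟩

theorem c_mm_303 : CertB 1610612736 536870912 1610612736 536870912 740881858 40050571 3 eng mog cd2q3 cd2q3 pd0 false false false .npn 3 0 3
    ndB2q3 ndB2q3 pcB0 Cut.none Ext.none :=
  certB0 (fam := false) (s1 := false) (s2 := false) (a := 3) (b := 0) (c := 3) (cn := .npn) (n1 := ndB2q3) (n2 := ndB2q3) (pc := pcB0) (cut := Cut.none) (xt := Ext.none) (P1 := 1610612736) (W1 := 536870912) (P2 := 1610612736) (W2 := 536870912) (P3 := 740881858) (W3 := 40050571) (N0 := 3) (En := eng) (mo := mog) (C1 := cd2q3) (C2 := cd2q3) (C3 := pd0)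
    rfl k0_mm_303

noncomputable def f_mm_313 : ℕ → ℕ → ℕ → ℕ → Bool := onCell 1610612736 536870912 1610612736 536870912 740881858 40050571
    (rowB 3 eng mog cd2q3 cd2q3 pd1 0 false false false .dn 3 1 3 (qsf 1610612736 536870912 1610612736 536870912 1) ndB2q3 ndB2q3 pcB1 Cut.none Ext.none)

def k0_mm_313 : ∃ t, chk3 f_mm_313 t 1 1 1 = true :=
  ⟨(l 3), by decide +kernel⟩

theorem c_mm_313 : CertB 1610612736 536870912 1610612736 536870912 740881858 40050571 3 eng mog cd2q3 cd2q3 pd1 false false false .dn 3 1 3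
    ndB2q3 ndB2q3 pcB1 Cut.none Ext.none :=
  certB0 (fam := false) (s1 := false) (s2 := false) (a := 3) (b := 1) (c := 3) (cn := .dn) (n1 := ndB2q3) (n2 := ndB2q3) (pc := pcB1) (cut := Cut.none) (xt := Ext.none) (P1 := 1610612736) (W1 := 536870912) (P2 := 1610612736) (W2 := 536870912) (P3 := 740881858) (W3 := 40050571) (N0 := 3) (En := eng) (mo := mog) (C1 := cd2q3) (C2 := cd2q3) (C3 := pd1)
    rfl k0_mm_313

end Pool.Agent.Strip051.G.I69_7273.Tab.C.BB22

namespace Pool.Agent.Strip051.G.I69_7273.Tab.C.BB23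

open Pool.Agent.Strip051.PB Pool.Agent.Strip051.PB.T
open Pool.Agent.Strip051.G.I69_7273.Tab

noncomputable def f_pp_001 : ℕ → ℕ → ℕ → ℕ → Bool := onCell 0 536870912 0 536870912 740881858 40050571
    (rowB 3 eng mog cd2q0 cd3q1 pd0 1 false true true .up 0 0 1 (qsf 0 536870912 536870912 536870912 0) ndB2q0 ndB3q1 pcB0 Cut.none Ext.none)

def k0_pp_001 : ∃ t, chk3 f_pp_001 t 1 1 1 = true :=
  ⟨(l 3), by decide +kernel⟩

theorem c_pp_001 : CertB 0 536870912 536870912 536870912 740881858 40050571 3 eng mog cd2q0 cd3q1 pd0 false true true .up 0 0 1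
    ndB2q0 ndB3q1 pcB0 Cut.none Ext.none :=
  certB1 (fam := false) (s1 := true) (s2 := true) (a := 0) (b := 0) (c := 1) (cn := .up) (n1 := ndB2q0) (n2 := ndB3q1) (pc := pcB0) (cut := Cut.none) (xt := Ext.none) (P1 := 0) (W1 := 536870912) (P2 := 536870912) (W2 := 536870912) (P3 := 740881858) (W3 := 40050571) (N0 := 3) (En := eng) (mo := mog) (C1 := cd2q0) (C2 := cd3q1) (C3 := pd0)
    rfl (fun _ => rfl) k0_pp_001

noncomputable def cut_pp_011 : Cut := Cut.of [[⟨0, 0, 0, 67108864⟩, ⟨1, 1, 0, 67108864⟩, ⟨2, 1, 0, 67108864⟩]]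

noncomputable def f_pp_011 : ℕ → ℕ → ℕ → ℕ → Bool := onCell 0 536870912 536870912 536870912 740881858 40050571
    (rowB 3 eng mog cd2q0 cd3q1 pd1 1 false true true .pnn 0 1 1 (qsf 0 536870912 536870912 536870912 1) ndB2q0 ndB3q1 pcB1 cut_pp_011 Ext.none)

def k0_pp_011 : ∃ t, chk3 f_pp_011 t 1 1 1 = true :=
  ⟨(b (l 3) (b (l 3) (a (b (l 3) (a (a (b (l 3) (a (l 6) (l 3))) (l 3)) (l 2))) (l 2)))), by decide +kernel⟩

theorem c_pp_011 : CertB 0 536870912 536870912 536870912 740881858 40050571 3 eng mog cd2q0 cd3q1 pd1 false true true .pnn 0 1 1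
    ndB2q0 ndB3q1 pcB1 cut_pp_011 Ext.none :=
  certB1 (fam := false) (s1 := true) (s2 := true) (a := 0) (b := 1) (c := 1) (cn := .pnn) (n1 := ndB2q0) (n2 := ndB3q1) (pc := pcB1) (cut := cut_pp_011) (xt := Ext.none) (P1 := 0) (W1 := 536870912) (P2 := 536870912) (W2 := 536870912) (P3 := 740881858) (W3 := 40050571) (N0 := 3) (En := eng) (mo := mog) (C1 := cd2q0) (C2 := cd3q1) (C3 := pd1)
    rfl (fun _ => rfl) k0_pp_011

noncomputable def f_pp_012 : ℕ → ℕ → ℕ → ℕ → Bool := onCell 0 536870912 536870912 536870912 740881858 40050571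
    (rowB 3 eng mog cd2q0 cd3q2 pd1 1 false true true .pnp 0 1 2 (qsf 0 536870912 1073741824 536870912 1) ndB2q0 ndB3q2 pcB1 Cut.none Ext.none)

def k0_pp_012 : ∃ t, chk3 f_pp_012 t 1 1 1 = true :=
  ⟨(b (l 3) (b (l 3) (a (l 3) (b (l 3) (a (b (l 3) (a (a (l 3) (l 16478288)) (l 94656768391))) (b (a (l 16414608) (l 16396112)) (a (l 16355472) (l 16347952)))))))), by decide +kernel⟩

theorem c_pp_012 : CertB 0 536870912 1073741824 536870912 740881858 40050571 3 eng mog cd2q0 cd3q2 pd1 false true true .pnp 0 1 2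
    ndB2q0 ndB3q2 pcB1 Cut.none Ext.none :=
  certB1 (fam := false) (s1 := true) (s2 := true) (a := 0) (b := 1) (c := 2) (cn := .pnp) (n1 := ndB2q0) (n2 := ndB3q2) (pc := pcB1) (cut := Cut.none) (xt := Ext.none) (P1 := 0) (W1 := 536870912) (P2 := 1073741824) (W2 := 536870912) (P3 := 740881858) (W3 := 40050571) (N0 := 3) (En := eng) (mo := mog) (C1 := cd2q0) (C2 := cd3q2) (C3 := pd1)
    rfl (fun _ => rfl) k0_pp_012

noncomputable def f_pp_022 : ℕ → ℕ → ℕ → ℕ → Bool := onCell 0 536870912 1073741824 536870912 740881858 40050571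
    (rowB 3 eng mog cd2q0 cd3q2 pd2 1 false true true .pp 0 2 2 (qsf 0 536870912 1073741824 536870912 2) ndB2q0 ndB3q2 pcB2 Cut.none Ext.none)

def k0_pp_022 : ∃ t, chk3 f_pp_022 t 1 4 1 = true :=
  ⟨(b (a (a (b (l 3) (a (l 3) (a (l 3) (b (l 3) (l 16580064))))) (b (a (l 3) (b (l 3) (a (l 16472632) (l 16440776)))) (a (b (a (l 16533792) (l 16504104)) (a (l 16530280) (l 16499640))) (a (b (l 16472000) (l 16469528)) (b (l 16440296) (l 16437336)))))) (a (b (a (a (b (l 16408040) (l 16409752)) (l 16379408)) (l 16339160)) (a (b (l 16394872) (l 16392768)) (l 16342440))) (a (l 16490944) (l 16279744)))) (a (a (b (a (a (b (l 3) (b (l 3) (b (a (l 3) (l 479592976055)) (a (a (l 3) (l 16539312)) (a (l 16541504) (l 16538976)))))) (b (a (l 3) (l 281487967911)) (b (l 16611544) (a (b (l 16550776) (l 16534944)) (l 16495704))))) (a (b (a (l 16684032) (l 16579984)) (b (l 16560520) (l 16535264))) (b (l 16559472) (b (l 16554488) (l 16532152))))) (a (b (a (a (b (a (b (l 16521064)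 (c (l 16516600) (l 16499320))) (c (l 16525728) (l 16509352))) (a (b (c (l 16503040) (l 16484664)) (a (l 16479288) (l 16478912))) (b (l 16494088) (l 16477960)))) (b (a (l 16516808) (l 16514456)) (b (l 16491760) (l 16476600)))) (b (a (l 16511808) (l 16509336)) (a (l 16482416) (l 16482432)))) (a (b (a (a (b (l 16463744) (l 16448512)) (l 16455384)) (l 16454648)) (a (a (c (l 16435344) (l 16415496)) (l 16425472)) (a (l 16425472) (l 16425656)))) (a (b (l 16454504) (l 16427384)) (l 16465616)))) (a (b (a (l 16496688) (l 16498040)) (a (l 16449616) (l 16454848))) (b (l 16500440) (l 16461720))))) (b (a (b (a (l 16531056) (l 16501520)) (a (l 16533040) (l 16501928))) (a (l 16491392) (l 16439088))) (a (b (l 16708552) (l 16466648)) (l 16444944)))) (a (b (a (l 16395584) (l 16346368)) (l 16514568)) (b (l 16298432) (l 16326368))))), by decide +kernel⟩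

def k1_pp_022 : ∃ t, chk3 f_pp_022 t 4 10 1 = true :=
  ⟨(b (b (a (a (a (a (b (c (l 16405288) (l 16384872)) (b (c (l 16383032) (l 16362136)) (b (l 16361592) (a (l 16353936) (l 16354960))))) (b (l 16395696) (b (l 16373672) (a (l 16359664) (l 16361200))))) (b (a (l 16396328) (l 16397864)) (a (b (l 16375672) (l 16364720)) (l 16374856)))) (a (b (l 16402936) (l 16382400)) (l 16401456))) (a (l 16434416) (l 16425952))) (a (b (a (a (a (b (a (c (l 16355568) (b (l 16336464) (l 16331504))) (l 16346872)) (a (c (l 16345400) (l 16324688)) (l 16358168))) (c (l 16355384) (l 16335952))) (a (l 16350976) (l 16356344))) (a (l 16364064) (l 16373696))) (a (a (b (a (c (b (l 16339240) (l 16356248)) (l 16317904)) (l 16332952)) (b (a (c (a (b (l 16331256) (c (l 16334768) (l 16325456))) (l 16333800)) (a (l 16312216) (l 16314608))) (l 16328328)) (a (c (b (b (b (l 16352296) (a (b (l 16330096) (l 16330488)) (l 16333312))) (l 16352456)) (l 16329424)) (b (a (c (l 16336848) (l 16306848))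 (l 16313624)) (l 16310880))) (l 16346616)))) (b (l 16341152) (b (l 16336320) (l 16333464)))) (b (l 16356472) (b (l 16351328) (l 16348184))))) (b (a (l 16386664) (l 16400800)) (a (b (l 16374352) (l 16367152)) (b (l 16388968) (l 16381664)))))) (a (a (a (a (a (b (c (b (c (l 16320496) (l 16310632)) (c (l 16299736) (l 16288576))) (b (l 16295848) (l 16271680))) (c (b (c (l 16279640) (l 16267208)) (c (l 16260208) (l 16246536))) (b (l 16248232) (l 16225520)))) (b (c (l 16308048) (l 16286152)) (c (l 16267040) (l 16239712)))) (b (c (l 16312888) (l 16289856)) (c (l 16272512) (l 16244088)))) (b (c (l 16322264) (l 16297160)) (c (l 16283168) (l 16252752)))) (a (c (l 16315128) (l 16285000)) (l 16311632))) (a (b (l 16345184) (l 16309904)) (b (l 16361552) (l 16330088))))), by decide +kernel⟩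

def k2_pp_022 : ∃ t, chk3 f_pp_022 t 5 10 1 = true :=
  ⟨(b (b (a (l 16436064) (l 16429616)) (b (a (l 16414176) (l 16414080)) (a (l 16399968) (l 16402872)))) (a (l 16366600) (l 16380288))), by decide +kernel⟩

def k3_pp_022 : ∃ t, chk3 f_pp_022 t 2 11 1 = true :=
  ⟨(a (a (a (b (a (a (a (b (c (b (c (l 16241432) (l 16226544)) (c (l 16223304) (l 16207232))) (b (l 16224496) (l 16182248))) (c (b (l 16197280) (l 16179896)) (b (l 16161688) (c (l 16151608) (l 16131920))))) (b (c (l 16228696) (l 16196152)) (c (l 16192984) (l 16155456)))) (b (c (l 16234768) (l 16201176)) (c (l 16199632) (l 16161104)))) (c (b (l 16246640) (l 16212656)) (b (l 16211160) (l 16172360)))) (a (a (a (c (b (c (l 16164920) (l 16144952)) (b (l 16131632) (l 16116832))) (b (b (l 16122720) (l 16104312)) (b (l 16086608) (l 16069616)))) (c (b (l 16159880) (l 16129328)) (b (l 16117608) (l 16082592)))) (c (b (l 16167064) (l 16137024)) (b (l 16123864) (l 16089440)))) (b (c (l 16181168) (l 16136352))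 (c (l 16151888) (l 16103424))))) (b (a (c (l 16245304) (l 16205376)) (l 16324488)) (c (l 16276600) (a (l 16137864) (l 16156584))))) (a (b (l 16366368) (l 16205336)) (l 16491832))) (a (b (l 16319640) (l 16280280)) (l 16337624))), by decide +kernel⟩

def k4_pp_022 : ∃ t, chk3 f_pp_022 t 3 5 1 = true :=
  ⟨(b (b (b (a (l 16368472) (l 16323352)) (a (b (l 16367392) (l 16364568)) (l 2))) (a (l 16358944) (l 2))) (a (a (l 16353312) (l 16338904)) (l 2))), by decide +kernel⟩

def k5_pp_022 : ∃ t, chk3 f_pp_022 t 1 3 1 = true :=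
  ⟨(a (b (a (a (b (a (b (a (b (a (a (c (b (l 16102656) (l 16089112)) (b (l 16053328) (l 16037744))) (c (l 16101264) (l 16050432))) (c (l 16109152) (l 16058200))) (a (a (b (c (l 16075944) (l 16023176)) (l 16058064)) (b (l 16055784) (l 16042768))) (b (l 16064024) (l 16051240)))) (b (a (l 16094808) (l 16105112)) (l 16074136))) (a (c (a (a (b (l 16044688) (l 16022672)) (l 16039208)) (l 16047944)) (a (a (b (l 15991176) (l 15968424)) (l 16006752)) (l 15995184))) (c (l 16065248) (l 16013920)))) (b (a (l 16107824) (l 16128456)) (l 16075416))) (a (a (a (b (b (c (l 16027456) (l 15951432)) (c (l 15989896) (l 15933584))) (b (c (l 15975872) (l 15918032)) (c (l 15964376) (l 15904720)))) (b (b (l 15992288) (l 15975488)) (l 16017680))) (b (l 16003240) (l 15975880))) (b (l 16041968) (l 16017560)))) (b (b (a (l 16158520) (l 16196512)) (l 16142960)) (a (l 16080672) (l 16130576)))) (b (a (l 16465984) (l 16300312)) (a (l 16200736) (l 16283816)))) (a (a (b (a (b (a (a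 (b (l 15924464) (l 15916544)) (l 15935200)) (l 15957576)) (a (a (b (l 15910808) (l 15907216)) (l 15924424)) (l 15947840))) (b (l 16001792) (l 15994184))) (a (c (a (b (a (l 15943696) (l 15959648)) (l 15960984)) (l 15987512)) (a (b (l 15876944) (l 15877960)) (l 15910096))) (l 15996864))) (b (l 16147600) (a (l 16059520) (l 2)))) (b (a (l 16191568) (l 2)) (l 2)))) (b (a (b (a (l 16344928) (l 2)) (l 2)) (l 2)) (l 2))), by decide +kernel⟩

theorem s6_pp_022 : ∃ t, chk3 f_pp_022 t 2 10 1 = true := ex3_a k1_pp_022 k2_pp_022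

theorem s7_pp_022 : ∃ t, chk3 f_pp_022 t 2 5 1 = true := ex3_b s6_pp_022 k3_pp_022

theorem s8_pp_022 : ∃ t, chk3 f_pp_022 t 1 5 1 = true := ex3_a s7_pp_022 k4_pp_022

theorem s9_pp_022 : ∃ t, chk3 f_pp_022 t 1 2 1 = true := ex3_b k0_pp_022 s8_pp_022

theorem s10_pp_022 : ∃ t, chk3 f_pp_022 t 1 1 1 = true := ex3_b s9_pp_022 k5_pp_022

theorem c_pp_022 : CertB 0 536870912 1073741824 536870912 740881858 40050571 3 eng mog cd2q0 cd3q2 pd2 false true true .pp 0 2 2
    ndB2q0 ndB3q2 pcB2 Cut.none Ext.none :=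
  certB1 (fam := false) (s1 := true) (s2 := true) (a := 0) (b := 2) (c := 2) (cn := .pp) (n1 := ndB2q0) (n2 := ndB3q2) (pc := pcB2) (cut := Cut.none) (xt := Ext.none) (P1 := 0) (W1 := 536870912) (P2 := 1073741824) (W2 := 536870912) (P3 := 740881858) (W3 := 40050571) (N0 := 3) (En := eng) (mo := mog) (C1 := cd2q0) (C2 := cd3q2) (C3 := pd2)
    rfl (fun _ => rfl) s10_pp_022

noncomputable def f_pp_023 : ℕ → ℕ → ℕ → ℕ → Bool := onCell 1073741824 536870912 0 1230186008 740881858 40050571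
    (rowB 3 eng mog cd2q0 cd3q3 pd2 2 false true true .up 0 2 3 (qsf 0 536870912 0 1230186008 2) ndB2q0 ndB3q3 pcB2 Cut.none Ext.none)

def k0_pp_023 : ∃ t, chk3 f_pp_023 t 1 1 1 = true :=
  ⟨(b (a (l 2) (a (l 2) (b (l 16568656) (l 16569744)))) (b (a (b (l 2) (a (l 2) (b (l 2) (l 337792325783)))) (b (a (l 16539544) (l 16509152)) (b (a (l 16515712) (l 16429160)) (a (l 16451056) (l 16360280))))) (a (b (a (l 2) (a (b (l 16406208) (a (a (l 16363064) (l 16373936)) (l 16387136))) (b (l 16426840) (l 16403352)))) (a (a (b (l 2) (l 16272168)) (a (l 16293192) (l 16304152))) (a (a (a (l 16326400) (a (l 16337136) (l 16343000))) (l 16352816)) (l 16158872)))) (b (b (a (l 16397736) (l 16331008)) (a (l 16188920) (b (l 16290328) (l 16263040)))) (a (b (a (l 16344040) (l 16326056)) (a (l 16329832) (l 16249392))) (b (a (l 16251296) (l 16156448)) (a (l 16147672) (b (l 16072520) (a (l 16034136) (b (l 15997584) (l 15964152))))))))))), by decide +kernel⟩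

theorem c_pp_023 : CertB 0 536870912 0 1230186008 740881858 40050571 3 eng mog cd2q0 cd3q3 pd2 false true true .up 0 2 3
    ndB2q0 ndB3q3 pcB2 Cut.none Ext.none :=
  certB2 (fam := false) (s1 := true) (s2 := true) (a := 0) (b := 2) (c := 3) (cn := .up) (n1 := ndB2q0) (n2 := ndB3q3) (pc := pcB2) (cut := Cut.none) (xt := Ext.none) (P1 := 0) (W1 := 536870912) (P2 := 0) (W2 := 1230186008) (P3 := 740881858) (W3 := 40050571) (N0 := 3) (En := eng) (mo := mog) (C1 := cd2q0) (C2 := cd3q3) (C3 := pd2)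
    rfl (fun _ => rfl) k0_pp_023

noncomputable def f_pp_033 : ℕ → ℕ → ℕ → ℕ → Bool := onCell 0 536870912 0 1230186008 740881858 40050571
    (rowB 3 eng mog cd2q0 cd3q3 pd3 0 false true true .pnn 0 3 3 (qsf 0 536870912 0 1230186008 3) ndB2q0 ndB3q3 pcB3 Cut.none Ext.none)

def k0_pp_033 : ∃ t, chk3 f_pp_033 t 1 1 1 = true :=
  ⟨(b (b (a (l 4) (a (l 4) (a (l 16560360) (l 16576528)))) (b (a (l 4) (a (a (l 16448032) (l 16501496)) (a (l 16539448) (l 16583072)))) (a (a (l 4) (a (b (l 4) (l 16250440)) (a (l 16321824) (l 16360944)))) (a (a (l 16410968) (l 16472832)) (a (l 16540072) (l 16616144)))))) (b (a (b (a (a (b (l 4) (a (b (l 16017712) (l 15991504)) (b (l 16050432) (l 16022824)))) (a (b (l 16181696) (l 16074440)) (b (l 16157032) (l 16116632)))) (a (b (l 16218928) (l 16179088)) (b (l 16298848) (l 16265632)))) (a (b (a (a (b (l 15961712) (l 15959648)) (l 15998424)) (b (l 16061216) (l 16060664))) (a (b (l 15989488) (a (l 15981736) (l 16015904))) (b (l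 16067984) (l 16076840)))) (b (a (l 16148616) (l 16247144)) (a (l 16166120) (l 16280248))))) (b (a (a (b (l 16380288) (l 16364616)) (l 16469016)) (a (l 16564808) (l 1))) (a (b (l 16415984) (l 16472384)) (l 1)))) (a (b (a (b (a (b (a (l 15957984) (l 15992728)) (a (l 15922144) (l 15969920))) (b (l 16065096) (l 16062032))) (a (b (a (b (l 15902064) (l 15897720)) (l 15963448)) (a (l 15914984) (l 15983688))) (b (l 16067272) (l 16089536)))) (b (l 16257520) (b (l 16280056) (l 16299536)))) (a (b (a (b (a (a (l 15922688) (l 15956344)) (l 16007552)) (a (b (l 15955544) (l 15961136)) (l 16024024))) (l 16118688)) (a (a (a (b (l 15947768) (l 15945216)) (l 15977184)) (l 16022896)) (l 16115312))) (b (a (l 16249368) (l 1)) (l 1)))) (l 1)))), by decide +kernel⟩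

theorem c_pp_033 : CertB 0 536870912 0 1230186008 740881858 40050571 3 eng mog cd2q0 cd3q3 pd3 false true true .pnn 0 3 3
    ndB2q0 ndB3q3 pcB3 Cut.none Ext.none :=
  certB0 (fam := false) (s1 := true) (s2 := true) (a := 0) (b := 3) (c := 3) (cn := .pnn) (n1 := ndB2q0) (n2 := ndB3q3) (pc := pcB3) (cut := Cut.none) (xt := Ext.none) (P1 := 0) (W1 := 536870912) (P2 := 0) (W2 := 1230186008) (P3 := 740881858) (W3 := 40050571) (N0 := 3) (En := eng) (mo := mog) (C1 := cd2q0) (C2 := cd3q3) (C3 := pd3)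
    rfl k0_pp_033

noncomputable def f_pp_101 : ℕ → ℕ → ℕ → ℕ → Bool := onCell 536870912 536870912 536870912 536870912 740881858 40050571
    (rowB 3 eng mog cd2q1 cd3q1 pd0 0 false true true .npn 1 0 1 (qsf 536870912 536870912 536870912 536870912 0) ndB2q1 ndB3q1 pcB0 Cut.none Ext.none)

def k0_pp_101 : ∃ t, chk3 f_pp_101 t 1 1 1 = true :=
  ⟨(l 3), by decide +kernel⟩

theorem c_pp_101 : CertB 536870912 536870912 536870912 536870912 740881858 40050571 3 eng mog cd2q1 cd3q1 pd0 false true true .npn 1 0 1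
    ndB2q1 ndB3q1 pcB0 Cut.none Ext.none :=
  certB0 (fam := false) (s1 := true) (s2 := true) (a := 1) (b := 0) (c := 1) (cn := .npn) (n1 := ndB2q1) (n2 := ndB3q1) (pc := pcB0) (cut := Cut.none) (xt := Ext.none) (P1 := 536870912) (W1 := 536870912) (P2 := 536870912) (W2 := 536870912) (P3 := 740881858) (W3 := 40050571) (N0 := 3) (En := eng) (mo := mog) (C1 := cd2q1) (C2 := cd3q1) (C3 := pd0)
    rfl k0_pp_101

noncomputable def f_pp_102 : ℕ → ℕ → ℕ → ℕ → Bool := onCell 536870912 536870912 0 536870912 740881858 40050571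
    (rowB 3 eng mog cd2q1 cd3q2 pd0 1 false true true .npp 1 0 2 (qsf 536870912 536870912 1073741824 536870912 0) ndB2q1 ndB3q2 pcB0 Cut.none Ext.none)

def k0_pp_102 : ∃ t, chk3 f_pp_102 t 1 1 1 = true :=
  ⟨(l 3), by decide +kernel⟩

theorem c_pp_102 : CertB 536870912 536870912 1073741824 536870912 740881858 40050571 3 eng mog cd2q1 cd3q2 pd0 false true true .npp 1 0 2
    ndB2q1 ndB3q2 pcB0 Cut.none Ext.none :=
  certB1 (fam := false) (s1 := true) (s2 := true) (a := 1) (b := 0) (c := 2) (cn := .npp) (n1 := ndB2q1) (n2 := ndB3q2) (pc := pcB0) (cut := Cut.none) (xt := Ext.none) (P1 := 536870912) (W1 := 536870912) (P2 := 1073741824) (W2 := 536870912) (P3 := 740881858) (W3 := 40050571) (N0 := 3) (En := eng) (mo := mog) (C1 := cd2q1) (C2 := cd3q2) (C3 := pd0)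
    rfl (fun _ => rfl) k0_pp_102

noncomputable def f_pp_112 : ℕ → ℕ → ℕ → ℕ → Bool := onCell 536870912 536870912 1073741824 536870912 740881858 40050571
    (rowB 3 eng mog cd2q1 cd3q2 pd1 2 false true true .dn 1 1 2 (qsf 536870912 536870912 1073741824 536870912 1) ndB2q1 ndB3q2 pcB1 Cut.none Ext.none)

def k0_pp_112 : ∃ t, chk3 f_pp_112 t 1 1 1 = true :=
  ⟨(a (l 3) (a (l 3) (b (l 1) (a (b (l 3) (b (l 3) (l 16593992))) (b (l 1) (a (l 182569313559) (l 198675408135))))))), by decide +kernel⟩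

theorem c_pp_112 : CertB 536870912 536870912 1073741824 536870912 740881858 40050571 3 eng mog cd2q1 cd3q2 pd1 false true true .dn 1 1 2
    ndB2q1 ndB3q2 pcB1 Cut.none Ext.none :=
  certB2 (fam := false) (s1 := true) (s2 := true) (a := 1) (b := 1) (c := 2) (cn := .dn) (n1 := ndB2q1) (n2 := ndB3q2) (pc := pcB1) (cut := Cut.none) (xt := Ext.none) (P1 := 536870912) (W1 := 536870912) (P2 := 1073741824) (W2 := 536870912) (P3 := 740881858) (W3 := 40050571) (N0 := 3) (En := eng) (mo := mog) (C1 := cd2q1) (C2 := cd3q2) (C3 := pd1)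
    rfl (fun _ => rfl) k0_pp_112

noncomputable def f_pp_113 : ℕ → ℕ → ℕ → ℕ → Bool := onCell 536870912 536870912 0 1230186008 740881858 40050571
    (rowB 3 eng mog cd2q1 cd3q3 pd1 2 false true true .nn 1 1 3 (qsf 536870912 536870912 0 1230186008 1) ndB2q1 ndB3q3 pcB1 Cut.none Ext.none)

def k0_pp_113 : ∃ t, chk3 f_pp_113 t 1 1 1 = true :=
  ⟨(b (a (l 2) (a (l 2) (a (b (l 2) (b (l 16668360) (l 908486503879))) (b (l 16740384) (l 16792072))))) (b (a (b (l 2) (l 3)) (b (a (a (l 2) (a (b (l 2) (l 309404355991)) (l 16595424))) (a (a (l 16673688) (l 16739936)) (l 16843432))) (a (a (l 3) (b (a (b (l 305109391559) (l 305109493751)) (l 16427056)) (a (b (l 305109644951) (l 304036064839)) (b (l 16670528) (l 16710080))))) (a (b (a (l 16705856) (l 16784688)) (a (l 16705576) (l 16881648))) (b (l 16897672) (l 17005048)))))) (a (b (l 3) (l 3)) (b (a (a (l 3) (b (a (l 3) (l 16646096)) (b (l 274508164359) (l 270213299111)))) (a (b (a (l 16839912) (l 16948944)) (a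 (b (l 16858128) (l 16811160)) (l 16869280))) (b (l 17086152) (a (l 16841440) (l 16796936))))) (a (l 3) (a (a (l 16594320) (l 16557400)) (b (l 16580376) (l 16434896)))))))), by decide +kernel⟩

theorem c_pp_113 : CertB 536870912 536870912 0 1230186008 740881858 40050571 3 eng mog cd2q1 cd3q3 pd1 false true true .nn 1 1 3
    ndB2q1 ndB3q3 pcB1 Cut.none Ext.none :=
  certB2 (fam := false) (s1 := true) (s2 := true) (a := 1) (b := 1) (c := 3) (cn := .nn) (n1 := ndB2q1) (n2 := ndB3q3) (pc := pcB1) (cut := Cut.none) (xt := Ext.none) (P1 := 536870912) (W1 := 536870912) (P2 := 0) (W2 := 1230186008) (P3 := 740881858) (W3 := 40050571) (N0 := 3) (En := eng) (mo := mog) (C1 := cd2q1) (C2 := cd3q3) (C3 := pd1)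
    rfl (fun _ => rfl) k0_pp_113

noncomputable def f_pp_123 : ℕ → ℕ → ℕ → ℕ → Bool := onCell 1073741824 536870912 0 1230186008 740881858 40050571
    (rowB 3 eng mog cd2q1 cd3q3 pd2 2 false true true .npn 1 2 3 (qsf 536870912 536870912 0 1230186008 2) ndB2q1 ndB3q3 pcB2 Cut.none Ext.none)

def k0_pp_123 : ∃ t, chk3 f_pp_123 t 1 1 1 = true :=
  ⟨(b (a (a (b (l 16565616) (a (l 16724856) (l 16624344))) (b (l 16729016) (a (l 16558328) (l 16573456)))) (a (b (l 16610072) (l 16628512)) (b (l 16662048) (l 16677992)))) (b (a (b (a (a (l 16845040) (l 16744744)) (l 16681128)) (a (b (l 16976656) (a (l 16860912) (l 16695592))) (b (l 16648216) (l 16558888)))) (a (b (l 16658376) (b (l 16609088) (l 16593816))) (b (l 16673752) (l 1)))) (a (b (a (b (a (l 16744176) (l 16543088)) (a (b (l 16591760) (l 16499864)) (l 16588432))) (a (b (l 16498928) (a (a (l 16438784) (l 16448576)) (l 16464360))) (b (l 16520008) (l 1)))) (a (a (b (l 16395120) (l 16322440)) (a (l 16351392)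 (l 16367392))) (a (a (a (l 16398184) (l 1)) (l 1)) (l 1)))) (l 1)))), by decide +kernel⟩

theorem c_pp_123 : CertB 536870912 536870912 0 1230186008 740881858 40050571 3 eng mog cd2q1 cd3q3 pd2 false true true .npn 1 2 3
    ndB2q1 ndB3q3 pcB2 Cut.none Ext.none :=
  certB2 (fam := false) (s1 := true) (s2 := true) (a := 1) (b := 2) (c := 3) (cn := .npn) (n1 := ndB2q1) (n2 := ndB3q3) (pc := pcB2) (cut := Cut.none) (xt := Ext.none) (P1 := 536870912) (W1 := 536870912) (P2 := 0) (W2 := 1230186008) (P3 := 740881858) (W3 := 40050571) (N0 := 3) (En := eng) (mo := mog) (C1 := cd2q1) (C2 := cd3q3) (C3 := pd2)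
    rfl (fun _ => rfl) k0_pp_123

noncomputable def f_pp_133 : ℕ → ℕ → ℕ → ℕ → Bool := onCell 1610612736 536870912 0 1230186008 740881858 40050571
    (rowB 3 eng mog cd2q1 cd3q3 pd3 2 false true true .dn 1 3 3 (qsf 536870912 536870912 0 1230186008 3) ndB2q1 ndB3q3 pcB3 Cut.none Ext.none)

def k0_pp_133 : ∃ t, chk3 f_pp_133 t 1 1 1 = true :=
  ⟨(b (b (a (a (l 16704912) (l 1)) (l 1)) (l 1)) (l 1)), by decide +kernel⟩

theorem c_pp_133 : CertB 536870912 536870912 0 1230186008 740881858 40050571 3 eng mog cd2q1 cd3q3 pd3 false true true .dn 1 3 3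
    ndB2q1 ndB3q3 pcB3 Cut.none Ext.none :=
  certB2 (fam := false) (s1 := true) (s2 := true) (a := 1) (b := 3) (c := 3) (cn := .dn) (n1 := ndB2q1) (n2 := ndB3q3) (pc := pcB3) (cut := Cut.none) (xt := Ext.none) (P1 := 536870912) (W1 := 536870912) (P2 := 0) (W2 := 1230186008) (P3 := 740881858) (W3 := 40050571) (N0 := 3) (En := eng) (mo := mog) (C1 := cd2q1) (C2 := cd3q3) (C3 := pd3)
    rfl (fun _ => rfl) k0_pp_133

noncomputable def f_pp_202_a : ℕ → ℕ → ℕ → ℕ → Bool := onCell 0 536870912 1073741824 536870912 740881858 40050571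
    (rowB 3 eng mog cd2q2a cd3q2 pd0 0 false true true .pp 2 0 2 (qsf 0 536870912 1073741824 536870912 0) ndB2q2a ndB3q2 pcB0 Cut.none Ext.none)

def k0_pp_202_a : ∃ t, chk3 f_pp_202_a t 1 1 1 = true :=
  ⟨(l 3), by decide +kernel⟩

theorem c_pp_202_a : CertB 0 536870912 1073741824 536870912 740881858 40050571 3 eng mog cd2q2a cd3q2 pd0 false true true .pp 2 0 2
    ndB2q2a ndB3q2 pcB0 Cut.none Ext.none :=
  certB0 (fam := false) (s1 := true) (s2 := true) (a := 2) (b := 0) (c := 2) (cn := .pp) (n1 := ndB2q2a) (n2 := ndB3q2) (pc := pcB0) (cut := Cut.none) (xt := Ext.none) (P1 := 0) (W1 := 536870912) (P2 := 1073741824) (W2 := 536870912) (P3 := 740881858) (W3 := 40050571) (N0 := 3) (En := eng) (mo := mog) (C1 := cd2q2a) (C2 := cd3q2) (C3 := pd0)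
    rfl k0_pp_202_a

noncomputable def f_pp_202_b : ℕ → ℕ → ℕ → ℕ → Bool := onCell 1239849684 370763052 1073741824 536870912 740881858 40050571
    (rowB 3 eng mog cd2q2b cd3q2 pd0 0 false true true .pp 2 0 2 (qsf 1239849684 370763052 1073741824 536870912 0) ndB2q2b ndB3q2 pcB0 Cut.none Ext.none)

def k0_pp_202_b : ∃ t, chk3 f_pp_202_b t 1 1 1 = true :=
  ⟨(l 3), by decide +kernel⟩

theorem c_pp_202_b : CertB 1239849684 370763052 1073741824 536870912 740881858 40050571 3 eng mog cd2q2b cd3q2 pd0 false true true .pp 2 0 2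
    ndB2q2b ndB3q2 pcB0 Cut.none Ext.none :=
  certB0 (fam := false) (s1 := true) (s2 := true) (a := 2) (b := 0) (c := 2) (cn := .pp) (n1 := ndB2q2b) (n2 := ndB3q2) (pc := pcB0) (cut := Cut.none) (xt := Ext.none) (P1 := 1239849684) (W1 := 370763052) (P2 := 1073741824) (W2 := 536870912) (P3 := 740881858) (W3 := 40050571) (N0 := 3) (En := eng) (mo := mog) (C1 := cd2q2b) (C2 := cd3q2) (C3 := pd0)
    rfl k0_pp_202_b

noncomputable def f_pp_203_a : ℕ → ℕ → ℕ → ℕ → Bool := onCell 0 536870912 0 1230186008 740881858 40050571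
    (rowB 3 eng mog cd2q2a cd3q3 pd0 0 false true true .up 2 0 3 (qsf 0 536870912 0 1230186008 0) ndB2q2a ndB3q3 pcB0 Cut.none Ext.none)

def k0_pp_203_a : ∃ t, chk3 f_pp_203_a t 1 1 1 = true :=
  ⟨(b (l 2) (l 3)), by decide +kernel⟩

theorem c_pp_203_a : CertB 0 536870912 0 1230186008 740881858 40050571 3 eng mog cd2q2a cd3q3 pd0 false true true .up 2 0 3
    ndB2q2a ndB3q3 pcB0 Cut.none Ext.none :=
  certB0 (fam := false) (s1 := true) (s2 := true) (a := 2) (b := 0) (c := 3) (cn := .up) (n1 := ndB2q2a) (n2 := ndB3q3) (pc := pcB0) (cut := Cut.none) (xt := Ext.none) (P1 := 0) (W1 := 536870912) (P2 := 0) (W2 := 1230186008) (P3 := 740881858) (W3 := 40050571) (N0 := 3) (En := eng) (mo := mog) (C1 := cd2q2a) (C2 := cd3q3) (C3 := pd0)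
    rfl k0_pp_203_a

noncomputable def f_pp_203_b : ℕ → ℕ → ℕ → ℕ → Bool := onCell 1239849684 370763052 0 1230186008 740881858 40050571
    (rowB 3 eng mog cd2q2b cd3q3 pd0 0 false true true .up 2 0 3 (qsf 1239849684 370763052 0 1230186008 0) ndB2q2b ndB3q3 pcB0 Cut.none Ext.none)

def k0_pp_203_b : ∃ t, chk3 f_pp_203_b t 1 1 1 = true :=
  ⟨(b (l 3) (l 3)), by decide +kernel⟩

theorem c_pp_203_b : CertB 1239849684 370763052 0 1230186008 740881858 40050571 3 eng mog cd2q2b cd3q3 pd0 false true true .up 2 0 3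
    ndB2q2b ndB3q3 pcB0 Cut.none Ext.none :=
  certB0 (fam := false) (s1 := true) (s2 := true) (a := 2) (b := 0) (c := 3) (cn := .up) (n1 := ndB2q2b) (n2 := ndB3q3) (pc := pcB0) (cut := Cut.none) (xt := Ext.none) (P1 := 1239849684) (W1 := 370763052) (P2 := 0) (W2 := 1230186008) (P3 := 740881858) (W3 := 40050571) (N0 := 3) (En := eng) (mo := mog) (C1 := cd2q2b) (C2 := cd3q3) (C3 := pd0)
    rfl k0_pp_203_b

noncomputable def cut_pp_213_a : Cut := Cut.of [[⟨0, 1, 0, 67108864⟩, ⟨1, 1, 0, 67108864⟩, ⟨2, 2, 0, 16777216⟩]]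

noncomputable def f_pp_213_a : ℕ → ℕ → ℕ → ℕ → Bool := onCell 0 536870912 0 1230186008 740881858 40050571
    (rowB 3 eng mog cd2q2a cd3q3 pd1 0 false true true .pnn 2 1 3 (qsf 0 536870912 0 1230186008 1) ndB2q2a ndB3q3 pcB1 cut_pp_213_a Ext.none)

def k0_pp_213_a : ∃ t, chk3 f_pp_213_a t 1 1 1 = true :=
  ⟨(b (a (l 3) (b (a (l 3) (a (l 3) (b (l 6) (l 3)))) (l 3))) (l 3)), by decide +kernel⟩

theorem c_pp_213_a : CertB 0 536870912 0 1230186008 740881858 40050571 3 eng mog cd2q2a cd3q3 pd1 false true true .pnn 2 1 3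
    ndB2q2a ndB3q3 pcB1 cut_pp_213_a Ext.none :=
  certB0 (fam := false) (s1 := true) (s2 := true) (a := 2) (b := 1) (c := 3) (cn := .pnn) (n1 := ndB2q2a) (n2 := ndB3q3) (pc := pcB1) (cut := cut_pp_213_a) (xt := Ext.none) (P1 := 0) (W1 := 536870912) (P2 := 0) (W2 := 1230186008) (P3 := 740881858) (W3 := 40050571) (N0 := 3) (En := eng) (mo := mog) (C1 := cd2q2a) (C2 := cd3q3) (C3 := pd1)
    rfl k0_pp_213_a

noncomputable def cut_pp_213_b : Cut := Cut.of [[⟨0, 1, 0, 67108864⟩, ⟨1, 1, 0, 67108864⟩, ⟨2, 2, 0, 16777216⟩]]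

noncomputable def f_pp_213_b : ℕ → ℕ → ℕ → ℕ → Bool := onCell 1239849684 370763052 0 1230186008 740881858 40050571
    (rowB 3 eng mog cd2q2b cd3q3 pd1 0 false true true .pnn 2 1 3 (qsf 1239849684 370763052 0 1230186008 1) ndB2q2b ndB3q3 pcB1 cut_pp_213_b Ext.none)

def k0_pp_213_b : ∃ t, chk3 f_pp_213_b t 1 1 1 = true :=
  ⟨(b (l 3) (l 3)), by decide +kernel⟩

theorem c_pp_213_b : CertB 1239849684 370763052 0 1230186008 740881858 40050571 3 eng mog cd2q2b cd3q3 pd1 false true true .pnn 2 1 3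
    ndB2q2b ndB3q3 pcB1 cut_pp_213_b Ext.none :=
  certB0 (fam := false) (s1 := true) (s2 := true) (a := 2) (b := 1) (c := 3) (cn := .pnn) (n1 := ndB2q2b) (n2 := ndB3q3) (pc := pcB1) (cut := cut_pp_213_b) (xt := Ext.none) (P1 := 1239849684) (W1 := 370763052) (P2 := 0) (W2 := 1230186008) (P3 := 740881858) (W3 := 40050571) (N0 := 3) (En := eng) (mo := mog) (C1 := cd2q2b) (C2 := cd3q3) (C3 := pd1)
    rfl k0_pp_213_b

noncomputable def f_pp_303 : ℕ → ℕ → ℕ → ℕ → Bool := onCell 1610612736 536870912 0 1230186008 740881858 40050571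
    (rowB 3 eng mog cd2q3 cd3q3 pd0 0 false true true .npn 3 0 3 (qsf 1610612736 536870912 0 1230186008 0) ndB2q3 ndB3q3 pcB0 Cut.none Ext.none)

def k0_pp_303 : ∃ t, chk3 f_pp_303 t 1 1 1 = true :=
  ⟨(b (l 3) (l 3)), by decide +kernel⟩

theorem c_pp_303 : CertB 1610612736 536870912 0 1230186008 740881858 40050571 3 eng mog cd2q3 cd3q3 pd0 false true true .npn 3 0 3
    ndB2q3 ndB3q3 pcB0 Cut.none Ext.none :=
  certB0 (fam := false) (s1 := true) (s2 := true) (a := 3) (b := 0) (c := 3) (cn := .npn) (n1 := ndB2q3) (n2 := ndB3q3) (pc := pcB0) (cut := Cut.none) (xt := Ext.none) (P1 := 1610612736) (W1 := 536870912) (P2 := 0) (W2 := 1230186008) (P3 := 740881858) (W3 := 40050571) (N0 := 3) (En := eng) (mo := mog) (C1 := cd2q3) (C2 := cd3q3) (C3 := pd0)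
    rfl k0_pp_303

noncomputable def f_pp_313 : ℕ → ℕ → ℕ → ℕ → Bool := onCell 1610612736 536870912 0 1230186008 740881858 40050571
    (rowB 3 eng mog cd2q3 cd3q3 pd1 0 false true true .dn 3 1 3 (qsf 1610612736 536870912 0 1230186008 1) ndB2q3 ndB3q3 pcB1 Cut.none Ext.none)

def k0_pp_313 : ∃ t, chk3 f_pp_313 t 1 1 1 = true :=
  ⟨(b (l 3) (l 1)), by decide +kernel⟩

theorem c_pp_313 : CertB 1610612736 536870912 0 1230186008 740881858 40050571 3 eng mog cd2q3 cd3q3 pd1 false true true .dn 3 1 3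
    ndB2q3 ndB3q3 pcB1 Cut.none Ext.none :=
  certB0 (fam := false) (s1 := true) (s2 := true) (a := 3) (b := 1) (c := 3) (cn := .dn) (n1 := ndB2q3) (n2 := ndB3q3) (pc := pcB1) (cut := Cut.none) (xt := Ext.none) (P1 := 1610612736) (W1 := 536870912) (P2 := 0) (W2 := 1230186008) (P3 := 740881858) (W3 := 40050571) (N0 := 3) (En := eng) (mo := mog) (C1 := cd2q3) (C2 := cd3q3) (C3 := pd1)
    rfl k0_pp_313

noncomputable def f_pm_001 : ℕ → ℕ → ℕ → ℕ → Bool := onCell 0 536870912 536870912 536870912 740881858 40050571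
    (rowB 3 eng mog cd2q0 cd3q1 pd0 0 false true false .up 0 0 1 (qsf 0 536870912 536870912 536870912 0) ndB2q0 ndB3q1 pcB0 Cut.none Ext.none)

def k0_pm_001 : ∃ t, chk3 f_pm_001 t 1 1 1 = true :=
  ⟨(l 4), by decide +kernel⟩

theorem c_pm_001 : CertB 0 536870912 536870912 536870912 740881858 40050571 3 eng mog cd2q0 cd3q1 pd0 false true false .up 0 0 1
    ndB2q0 ndB3q1 pcB0 Cut.none Ext.none :=
  certB0 (fam := false) (s1 := true) (s2 := false) (a := 0) (b := 0) (c := 1) (cn := .up) (n1 := ndB2q0) (n2 := ndB3q1) (pc := pcB0) (cut := Cut.none) (xt := Ext.none) (P1 := 0) (W1 := 536870912) (P2 := 536870912) (W2 := 536870912) (P3 := 740881858) (W3 := 40050571) (N0 := 3) (En := eng) (mo := mog) (C1 := cd2q0) (C2 := cd3q1) (C3 := pd0)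
    rfl k0_pm_001

noncomputable def f_pm_011 : ℕ → ℕ → ℕ → ℕ → Bool := onCell 0 536870912 536870912 536870912 740881858 40050571
    (rowB 3 eng mog cd2q0 cd3q1 pd1 0 false true false .pnn 0 1 1 (qsf 0 536870912 536870912 536870912 1) ndB2q0 ndB3q1 pcB1 Cut.none Ext.none)

def k0_pm_011 : ∃ t, chk3 f_pm_011 t 1 1 1 = true :=
  ⟨(l 4), by decide +kernel⟩

theorem c_pm_011 : CertB 0 536870912 536870912 536870912 740881858 40050571 3 eng mog cd2q0 cd3q1 pd1 false true false .pnn 0 1 1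
    ndB2q0 ndB3q1 pcB1 Cut.none Ext.none :=
  certB0 (fam := false) (s1 := true) (s2 := false) (a := 0) (b := 1) (c := 1) (cn := .pnn) (n1 := ndB2q0) (n2 := ndB3q1) (pc := pcB1) (cut := Cut.none) (xt := Ext.none) (P1 := 0) (W1 := 536870912) (P2 := 536870912) (W2 := 536870912) (P3 := 740881858) (W3 := 40050571) (N0 := 3) (En := eng) (mo := mog) (C1 := cd2q0) (C2 := cd3q1) (C3 := pd1)
    rfl k0_pm_011

noncomputable def f_pm_012 : ℕ → ℕ → ℕ → ℕ → Bool := onCell 0 536870912 1073741824 536870912 740881858 40050571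
    (rowB 3 eng mog cd2q0 cd3q2 pd1 0 false true false .pnp 0 1 2 (qsf 0 536870912 1073741824 536870912 1) ndB2q0 ndB3q2 pcB1 Cut.none Ext.none)

def k0_pm_012 : ∃ t, chk3 f_pm_012 t 1 1 1 = true :=
  ⟨(l 4), by decide +kernel⟩

theorem c_pm_012 : CertB 0 536870912 1073741824 536870912 740881858 40050571 3 eng mog cd2q0 cd3q2 pd1 false true false .pnp 0 1 2
    ndB2q0 ndB3q2 pcB1 Cut.none Ext.none :=
  certB0 (fam := false) (s1 := true) (s2 := false) (a := 0) (b := 1) (c := 2) (cn := .pnp) (n1 := ndB2q0) (n2 := ndB3q2) (pc := pcB1) (cut := Cut.none) (xt := Ext.none) (P1 := 0) (W1 := 536870912) (P2 := 1073741824) (W2 := 536870912) (P3 := 740881858) (W3 := 40050571) (N0 := 3) (En := eng) (mo := mog) (C1 := cd2q0) (C2 := cd3q2) (C3 := pd1)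
    rfl k0_pm_012

noncomputable def f_pm_022 : ℕ → ℕ → ℕ → ℕ → Bool := onCell 0 536870912 1073741824 536870912 740881858 40050571
    (rowB 3 eng mog cd2q0 cd3q2 pd2 0 false true false .pp 0 2 2 (qsf 0 536870912 1073741824 536870912 2) ndB2q0 ndB3q2 pcB2 Cut.none Ext.none)

def k0_pm_022 : ∃ t, chk3 f_pm_022 t 1 1 1 = true :=
  ⟨(l 4), by decide +kernel⟩

theorem c_pm_022 : CertB 0 536870912 1073741824 536870912 740881858 40050571 3 eng mog cd2q0 cd3q2 pd2 false true false .pp 0 2 2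
    ndB2q0 ndB3q2 pcB2 Cut.none Ext.none :=
  certB0 (fam := false) (s1 := true) (s2 := false) (a := 0) (b := 2) (c := 2) (cn := .pp) (n1 := ndB2q0) (n2 := ndB3q2) (pc := pcB2) (cut := Cut.none) (xt := Ext.none) (P1 := 0) (W1 := 536870912) (P2 := 1073741824) (W2 := 536870912) (P3 := 740881858) (W3 := 40050571) (N0 := 3) (En := eng) (mo := mog) (C1 := cd2q0) (C2 := cd3q2) (C3 := pd2)
    rfl k0_pm_022

noncomputable def f_pm_023 : ℕ → ℕ → ℕ → ℕ → Bool := onCell 0 536870912 0 1230186008 740881858 40050571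
    (rowB 3 eng mog cd2q0 cd3q3 pd2 0 false true false .up 0 2 3 (qsf 0 536870912 0 1230186008 2) ndB2q0 ndB3q3 pcB2 Cut.none Ext.none)

def k0_pm_023 : ∃ t, chk3 f_pm_023 t 1 1 1 = true :=
  ⟨(b (b (a (l 2) (a (l 2) (a (l 2) (l 16560536)))) (l 4)) (b (l 4) (l 4))), by decide +kernel⟩

theorem c_pm_023 : CertB 0 536870912 0 1230186008 740881858 40050571 3 eng mog cd2q0 cd3q3 pd2 false true false .up 0 2 3
    ndB2q0 ndB3q3 pcB2 Cut.none Ext.none :=
  certB0 (fam := false) (s1 := true) (s2 := false) (a := 0) (b := 2) (c := 3) (cn := .up) (n1 := ndB2q0) (n2 := ndB3q3) (pc := pcB2) (cut := Cut.none) (xt := Ext.none) (P1 := 0) (W1 := 536870912) (P2 := 0) (W2 := 1230186008) (P3 := 740881858) (W3 := 40050571) (N0 := 3) (En := eng) (mo := mog) (C1 := cd2q0) (C2 := cd3q3) (C3 := pd2)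
    rfl k0_pm_023

end Pool.Agent.Strip051.G.I69_7273.Tab.C.BB23

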