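import Pool.Agent.Strip051.G.I69_7273.Tab
import Pool.Agent.Strip051.PB.ExtD2

/-! # Certificates B22 (generated) -/

set_option linter.all false
set_option maxRecDepth 100000

namespace Pool.Agent.Strip051.G.I69_7273.Tab.C.BB23

open Pool.Agent.Strip051.PB Pool.Agent.Strip051.PB.T
open Pool.Agent.Strip051.G.I69_7273.Tab

noncomputable def f_pm_033 : ℕ → ℕ → ℕ → ℕ → Bool := onCell 0 536870912 0 1230186008 740881858 40050571
    (rowB 3 eng mog cd2q0 cd3q3 pd3 0 false true false .pnn 0 3 3 (qsf 0 536870912 0 1230186008 3) ndB2q0 ndB3q3 pcB3 Cut.none Ext.none)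

def k0_pm_033 : ∃ t, chk3 f_pm_033 t 1 1 1 = true :=
  ⟨(b (a (l 4) (a (l 4) (b (a (l 4) (l 16561680)) (l 4)))) (b (l 4) (l 4))), by decide +kernel⟩

theorem c_pm_033 : CertB 0 536870912 0 1230186008 740881858 40050571 3 eng mog cd2q0 cd3q3 pd3 false true false .pnn 0 3 3
    ndB2q0 ndB3q3 pcB3 Cut.none Ext.none :=
  certB0 (fam := false) (s1 := true) (s2 := false) (a := 0) (b := 3) (c := 3) (cn := .pnn) (n1 := ndB2q0) (n2 := ndB3q3) (pc := pcB3) (cut := Cut.none) (xt := Ext.none) (P1 := 0) (W1 := 536870912) (P2 := 0) (W2 := 1230186008) (P3 := 740881858) (W3 := 40050571) (N0 := 3) (En := eng) (mo := mog) (C1 := cd2q0) (C2 := cd3q3) (C3 := pd3)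
    rfl k0_pm_033

noncomputable def f_pm_101 : ℕ → ℕ → ℕ → ℕ → Bool := onCell 536870912 536870912 536870912 536870912 740881858 40050571
    (rowB 3 eng mog cd2q1 cd3q1 pd0 0 false true false .npn 1 0 1 (qsf 536870912 536870912 536870912 536870912 0) ndB2q1 ndB3q1 pcB0 Cut.none Ext.none)

def k0_pm_101 : ∃ t, chk3 f_pm_101 t 1 1 1 = true :=
  ⟨(l 4), by decide +kernel⟩

theorem c_pm_101 : CertB 536870912 536870912 536870912 536870912 740881858 40050571 3 eng mog cd2q1 cd3q1 pd0 false true false .npn 1 0 1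
    ndB2q1 ndB3q1 pcB0 Cut.none Ext.none :=
  certB0 (fam := false) (s1 := true) (s2 := false) (a := 1) (b := 0) (c := 1) (cn := .npn) (n1 := ndB2q1) (n2 := ndB3q1) (pc := pcB0) (cut := Cut.none) (xt := Ext.none) (P1 := 536870912) (W1 := 536870912) (P2 := 536870912) (W2 := 536870912) (P3 := 740881858) (W3 := 40050571) (N0 := 3) (En := eng) (mo := mog) (C1 := cd2q1) (C2 := cd3q1) (C3 := pd0)
    rfl k0_pm_101

noncomputable def f_pm_102 : ℕ → ℕ → ℕ → ℕ → Bool := onCell 536870912 536870912 0 536870912 740881858 40050571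
    (rowB 3 eng mog cd2q1 cd3q2 pd0 1 false true false .npp 1 0 2 (qsf 536870912 536870912 1073741824 536870912 0) ndB2q1 ndB3q2 pcB0 Cut.none Ext.none)

def k0_pm_102 : ∃ t, chk3 f_pm_102 t 1 1 1 = true :=
  ⟨(a (l 4) (a (b (l 4) (b (l 4) (l 4))) (b (a (a (l 4) (b (l 4) (b (l 15726200) (l 15829320)))) (b (b (a (l 372083151063) (b (l 15567824) (l 15621592))) (b (l 15653728) (l 15912448))) (b (b (l 15967384) (l 15814800)) (l 15895352)))) (b (b (a (l 15916360) (l 15976664)) (a (l 15990888) (l 16039528))) (b (a (l 16049704) (l 16093880)) (l 16231288)))))), by decide +kernel⟩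

theorem c_pm_102 : CertB 536870912 536870912 1073741824 536870912 740881858 40050571 3 eng mog cd2q1 cd3q2 pd0 false true false .npp 1 0 2
    ndB2q1 ndB3q2 pcB0 Cut.none Ext.none :=
  certB1 (fam := false) (s1 := true) (s2 := false) (a := 1) (b := 0) (c := 2) (cn := .npp) (n1 := ndB2q1) (n2 := ndB3q2) (pc := pcB0) (cut := Cut.none) (xt := Ext.none) (P1 := 536870912) (W1 := 536870912) (P2 := 1073741824) (W2 := 536870912) (P3 := 740881858) (W3 := 40050571) (N0 := 3) (En := eng) (mo := mog) (C1 := cd2q1) (C2 := cd3q2) (C3 := pd0)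
    rfl (fun _ => rfl) k0_pm_102

noncomputable def f_pm_112 : ℕ → ℕ → ℕ → ℕ → Bool := onCell 536870912 536870912 1073741824 536870912 740881858 40050571
    (rowB 3 eng mog cd2q1 cd3q2 pd1 2 false true false .dn 1 1 2 (qsf 536870912 536870912 1073741824 536870912 1) ndB2q1 ndB3q2 pcB1 Cut.none Ext.none)

def k0_pm_112 : ∃ t, chk3 f_pm_112 t 1 1 1 = true :=
  ⟨(a (b (l 4) (a (b (l 4) (l 16228616)) (b (l 4) (l 16073016)))) (l 4)), by decide +kernel⟩

theorem c_pm_112 : CertB 536870912 536870912 1073741824 536870912 740881858 40050571 3 eng mog cd2q1 cd3q2 pd1 false true false .dn 1 1 2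
    ndB2q1 ndB3q2 pcB1 Cut.none Ext.none :=
  certB2 (fam := false) (s1 := true) (s2 := false) (a := 1) (b := 1) (c := 2) (cn := .dn) (n1 := ndB2q1) (n2 := ndB3q2) (pc := pcB1) (cut := Cut.none) (xt := Ext.none) (P1 := 536870912) (W1 := 536870912) (P2 := 1073741824) (W2 := 536870912) (P3 := 740881858) (W3 := 40050571) (N0 := 3) (En := eng) (mo := mog) (C1 := cd2q1) (C2 := cd3q2) (C3 := pd1)
    rfl (fun _ => rfl) k0_pm_112

noncomputable def f_pm_113 : ℕ → ℕ → ℕ → ℕ → Bool := onCell 536870912 536870912 0 1230186008 740881858 40050571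
    (rowB 3 eng mog cd2q1 cd3q3 pd1 2 false true false .nn 1 1 3 (qsf 536870912 536870912 0 1230186008 1) ndB2q1 ndB3q3 pcB1 Cut.none Ext.none)

def k0_pm_113 : ∃ t, chk3 f_pm_113 t 1 1 1 = true :=
  ⟨(b (a (l 2) (a (l 2) (b (a (l 2) (l 16780552)) (b (l 16821744) (l 16722408))))) (b (a (b (l 2) (b (l 2) (a (l 2) (a (l 2) (l 17156288))))) (b (a (a (l 2) (l 16861016)) (l 16598392)) (a (b (l 16849648) (l 16826360)) (b (l 16498376) (l 16351688))))) (b (a (a (l 2) (b (l 17195928) (l 16990912))) (a (b (l 16746776) (a (l 16765064) (l 16605472))) (b (l 16432224) (l 16229072)))) (a (a (a (l 132170553479) (l 16440608)) (a (l 16470544) (l 16415984))) (a (a (l 16288576) (l 16104792)) (l 4)))))), by decide +kernel⟩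

theorem c_pm_113 : CertB 536870912 536870912 0 1230186008 740881858 40050571 3 eng mog cd2q1 cd3q3 pd1 false true false .nn 1 1 3
    ndB2q1 ndB3q3 pcB1 Cut.none Ext.none :=
  certB2 (fam := false) (s1 := true) (s2 := false) (a := 1) (b := 1) (c := 3) (cn := .nn) (n1 := ndB2q1) (n2 := ndB3q3) (pc := pcB1) (cut := Cut.none) (xt := Ext.none) (P1 := 536870912) (W1 := 536870912) (P2 := 0) (W2 := 1230186008) (P3 := 740881858) (W3 := 40050571) (N0 := 3) (En := eng) (mo := mog) (C1 := cd2q1) (C2 := cd3q3) (C3 := pd1)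
    rfl (fun _ => rfl) k0_pm_113

noncomputable def f_pm_123 : ℕ → ℕ → ℕ → ℕ → Bool := onCell 1073741824 536870912 0 1230186008 740881858 40050571
    (rowB 3 eng mog cd2q1 cd3q3 pd2 2 false true false .npn 1 2 3 (qsf 536870912 536870912 0 1230186008 2) ndB2q1 ndB3q3 pcB2 Cut.none Ext.none)

def k0_pm_123 : ∃ t, chk3 f_pm_123 t 1 1 1 = true :=
  ⟨(b (a (a (b (l 16550072) (a (l 16528024) (l 16434592))) (b (l 16492464) (a (l 16402328) (l 16441864)))) (a (b (l 16585488) (b (l 16537608) (l 16496592))) (a (l 16673296) (l 16709560)))) (b (a (b (a (a (l 16374072) (l 16313576)) (a (l 16305616) (l 16350344))) (a (b (a (l 16279896) (l 16247640)) (a (l 16287056) (l 4))) (b (l 4) (l 4)))) (b (l 4) (l 4))) (a (b (a (l 4) (l 4)) (l 4)) (l 1)))), by decide +kernel⟩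

theorem c_pm_123 : CertB 536870912 536870912 0 1230186008 740881858 40050571 3 eng mog cd2q1 cd3q3 pd2 false true false .npn 1 2 3
    ndB2q1 ndB3q3 pcB2 Cut.none Ext.none :=
  certB2 (fam := false) (s1 := true) (s2 := false) (a := 1) (b := 2) (c := 3) (cn := .npn) (n1 := ndB2q1) (n2 := ndB3q3) (pc := pcB2) (cut := Cut.none) (xt := Ext.none) (P1 := 536870912) (W1 := 536870912) (P2 := 0) (W2 := 1230186008) (P3 := 740881858) (W3 := 40050571) (N0 := 3) (En := eng) (mo := mog) (C1 := cd2q1) (C2 := cd3q3) (C3 := pd2)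
    rfl (fun _ => rfl) k0_pm_123

noncomputable def f_pm_133 : ℕ → ℕ → ℕ → ℕ → Bool := onCell 1610612736 536870912 0 1230186008 740881858 40050571
    (rowB 3 eng mog cd2q1 cd3q3 pd3 2 false true false .dn 1 3 3 (qsf 536870912 536870912 0 1230186008 3) ndB2q1 ndB3q3 pcB3 Cut.none Ext.none)

def k0_pm_133 : ∃ t, chk3 f_pm_133 t 1 1 1 = true :=
  ⟨(b (a (a (a (l 16736648) (l 1)) (l 1)) (l 1)) (l 1)), by decide +kernel⟩

theorem c_pm_133 : CertB 536870912 536870912 0 1230186008 740881858 40050571 3 eng mog cd2q1 cd3q3 pd3 false true false .dn 1 3 3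
    ndB2q1 ndB3q3 pcB3 Cut.none Ext.none :=
  certB2 (fam := false) (s1 := true) (s2 := false) (a := 1) (b := 3) (c := 3) (cn := .dn) (n1 := ndB2q1) (n2 := ndB3q3) (pc := pcB3) (cut := Cut.none) (xt := Ext.none) (P1 := 536870912) (W1 := 536870912) (P2 := 0) (W2 := 1230186008) (P3 := 740881858) (W3 := 40050571) (N0 := 3) (En := eng) (mo := mog) (C1 := cd2q1) (C2 := cd3q3) (C3 := pd3)
    rfl (fun _ => rfl) k0_pm_133

noncomputable def f_pm_202_a : ℕ → ℕ → ℕ → ℕ → Bool := onCell 0 536870912 0 536870912 740881858 40050571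
    (rowB 3 eng mog cd2q2a cd3q2 pd0 1 false true false .pp 2 0 2 (qsf 0 536870912 1073741824 536870912 0) ndB2q2a ndB3q2 pcB0 Cut.none Ext.none)

def k0_pm_202_a : ∃ t, chk3 f_pm_202_a t 4 4 1 = true :=
  ⟨(l 3), by decide +kernel⟩

def k1_pm_202_a : ∃ t, chk3 f_pm_202_a t 10 8 1 = true :=
  ⟨(b (a (b (a (l 3) (a (l 3) (b (b (a (b (c (l 16357960) (l 16335856)) (l 16347216)) (c (b (l 16360320) (l 16360000)) (b (l 16338272) (l 16338376)))) (a (l 168207510999) (a (l 16348952) (b (l 16350096) (l 16350328))))) (b (c (l 170355057623) (l 162301955559)) (a (l 3) (l 173576283095)))))) (l 3)) (b (a (b (a (b (a (l 16352968) (l 16357640)) (a (b (l 16352720) (a (l 16351208) (l 16353040))) (l 16358168))) (b (l 16364104) (l 16361584))) (a (a (b (b (l 16352160) (l 16352608)) (l 16373104)) (b (b (l 16355448) (l 16354648)) (b (l 16355208) (l 16355280)))) (b (c (l 16370304) (l 16350592)) (a (l 16357528) (l 16361952))))) (b (l 16376560) (a (b (l 16369024) (l 16366616))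 (l 16377040)))) (a (b (a (b (a (l 16352704) (l 16355456)) (l 16354976)) (b (a (l 16358584) (l 16361496)) (a (l 16359128) (l 16362232)))) (a (c (l 16367032) (l 16345712)) (b (l 16361416) (l 16361864)))) (b (a (b (a (l 16365024) (l 16368744)) (l 16367096)) (b (l 16394000) (l 16374296))) (a (b (l 16367376) (l 16368304)) (l 16374608)))))) (a (l 3) (a (b (a (b (l 170891878423) (l 3)) (b (l 16362752) (l 16364016))) (b (l 174649994999) (l 179481825559))) (b (b (a (l 16369336) (l 16375312)) (a (l 16369848) (l 16376856))) (b (l 16373880) (l 75865768743)))))), by decide +kernel⟩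

def k2_pm_202_a : ∃ t, chk3 f_pm_202_a t 11 8 1 = true :=
  ⟨(a (b (b (l 16424528) (a (b (a (l 16443264) (l 16391944)) (a (b (l 16381728) (l 16381808)) (b (l 16389528) (l 16389360)))) (l 16404960))) (b (a (b (a (l 16382448) (l 16389848)) (a (l 16382904) (l 16390368))) (b (a (l 16397520) (l 16405392)) (l 16402344))) (a (b (l 16387416) (l 16388680)) (b (l 16402120) (l 16402128))))) (b (b (l 16447624) (l 16436424)) (b (a (b (l 16420280) (l 16417952)) (l 16439448)) (a (b (l 16418624) (l 16418104)) (b (l 16435640) (l 16435264)))))), by decide +kernel⟩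

def k3_pm_202_a : ∃ t, chk3 f_pm_202_a t 5 9 1 = true :=
  ⟨(a (a (l 3) (a (l 3) (b (b (b (l 199346083575) (l 194514247975)) (c (l 186461254279) (l 187534927431))) (b (c (l 16396920) (l 178408108951)) (l 3))))) (a (b (a (b (l 16388608) (c (l 16402816) (l 16373784))) (b (b (l 16402504) (l 16403536)) (l 16404064))) (b (a (c (l 16404656) (l 16373432)) (l 16403376)) (c (l 16414256) (l 207936087511)))) (b (a (b (l 16418328) (l 16417816)) (b (l 16434976) (l 16434160))) (a (b (l 16419008) (l 16418344)) (b (l 16432776) (l 16433296)))))), by decide +kernel⟩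

def k4_pm_202_a : ∃ t, chk3 f_pm_202_a t 2 5 1 = true :=
  ⟨(a (l 3) (a (l 3) (b (b (a (b (b (l 203104291863) (l 195588119127)) (a (l 16409080) (l 16415560))) (b (l 16427904) (l 16432408))) (b (a (l 16422720) (l 16438424)) (l 180555875415))) (b (a (l 16508672) (l 16474352)) (l 172502868551))))), by decide +kernel⟩

def k5_pm_202_a : ∃ t, chk3 f_pm_202_a t 2 3 1 = true :=
  ⟨(b (a (l 3) (b (a (l 3) (b (l 169818545543) (l 16486392))) (l 3))) (l 3)), by decide +kernel⟩

def k6_pm_202_a : ∃ t, chk3 f_pm_202_a t 3 2 1 = true :=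
  ⟨(b (a (b (b (a (b (a (l 16498856) (l 16555744)) (l 16407160)) (a (l 16566376) (l 16552096))) (a (a (l 16364912) (l 16518904)) (a (l 16567112) (l 16545264)))) (a (b (a (b (a (l 16452488) (l 16471256)) (l 16461312)) (a (b (l 16493936) (l 16488016)) (l 16513744))) (a (b (l 16458296) (l 16455912)) (b (l 16495592) (l 16492080)))) (b (l 16556000) (a (b (l 16538008) (l 16530016)) (l 16538560))))) (b (b (a (a (l 16643216) (b (l 16578056) (l 16527200))) (a (b (b (l 16524336) (l 16525128)) (l 16518944)) (a (b (l 16551792) (l 16510672)) (b (l 16499368) (l 16498800))))) (a (a (b (l 16522016) (l 16518544)) (l 16551032)) (a (l 16501888) (b (a (l 16500960) (l 16495984)) (l 16486592))))) (a (b (a (l 16499944) (l 16499256)) (a (l 16495568) (l 16498296))) (b (a (l 16480000) (b (l 16471752) (l 16457192))) (a (l 16475632) (l 16595168)))))) (a (b (a (b (a (b (l 16455048) (l 16499840)) (l 16487480)) (a (b (l 16482232) (l 16463744)) (l 16484648))) (b (a (l 16523352)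 (l 16527808)) (a (l 16512768) (l 16513760)))) (b (a (a (l 16468112) (l 16485720)) (l 16508560)) (a (a (l 16473176) (l 16485616)) (a (l 16497184) (l 16487016))))) (b (a (b (l 16498568) (a (l 16494112) (l 16477776))) (b (a (l 16470416) (l 16445000)) (l 16582032))) (a (a (b (l 16479448) (l 16466080)) (b (b (l 16468120) (l 16460752)) (l 16512616))) (b (a (l 16487552) (l 16464304)) (a (l 16494840) (l 16470384))))))), by decide +kernel⟩

def k7_pm_202_a : ∃ t, chk3 f_pm_202_a t 3 3 1 = true :=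
  ⟨(b (a (b (a (b (l 16481552) (l 16482528)) (a (l 16630760) (l 16573432))) (a (b (l 16479720) (l 16474816)) (b (l 16461304) (l 16450888)))) (b (a (a (l 16447320) (l 16431040)) (b (a (b (l 16421472) (l 16415152)) (l 16479056)) (l 16394888))) (a (b (l 16423672) (l 16414328)) (b (l 16384672) (l 16375840))))) (b (a (a (b (l 16491584) (l 2)) (b (l 16441232) (l 16433144))) (a (b (l 16448328) (l 16421104)) (l 16365968))) (a (l 2) (a (b (l 16395600) (l 2)) (b (l 16360176) (l 16358176)))))), by decide +kernel⟩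

theorem s8_pm_202_a : ∃ t, chk3 f_pm_202_a t 3 1 1 = true := ex3_b k6_pm_202_a k7_pm_202_a

theorem s9_pm_202_a : ∃ t, chk3 f_pm_202_a t 5 8 1 = true := ex3_a k1_pm_202_a k2_pm_202_a

theorem s10_pm_202_a : ∃ t, chk3 f_pm_202_a t 5 4 1 = true := ex3_b s9_pm_202_a k3_pm_202_a

theorem s11_pm_202_a : ∃ t, chk3 f_pm_202_a t 2 4 1 = true := ex3_a k0_pm_202_a s10_pm_202_a

theorem s12_pm_202_a : ∃ t, chk3 f_pm_202_a t 2 2 1 = true := ex3_b s11_pm_202_a k4_pm_202_a

theorem s13_pm_202_a : ∃ t, chk3 f_pm_202_a t 2 1 1 = true := ex3_b s12_pm_202_a k5_pm_202_a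

theorem s14_pm_202_a : ∃ t, chk3 f_pm_202_a t 1 1 1 = true := ex3_a s13_pm_202_a s8_pm_202_a

theorem c_pm_202_a : CertB 0 536870912 1073741824 536870912 740881858 40050571 3 eng mog cd2q2a cd3q2 pd0 false true false .pp 2 0 2
    ndB2q2a ndB3q2 pcB0 Cut.none Ext.none :=
  certB1 (fam := false) (s1 := true) (s2 := false) (a := 2) (b := 0) (c := 2) (cn := .pp) (n1 := ndB2q2a) (n2 := ndB3q2) (pc := pcB0) (cut := Cut.none) (xt := Ext.none) (P1 := 0) (W1 := 536870912) (P2 := 1073741824) (W2 := 536870912) (P3 := 740881858) (W3 := 40050571) (N0 := 3) (En := eng) (mo := mog) (C1 := cd2q2a) (C2 := cd3q2) (C3 := pd0)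
    rfl (fun _ => rfl) s14_pm_202_a

noncomputable def f_pm_202_b : ℕ → ℕ → ℕ → ℕ → Bool := onCell 1239849684 370763052 0 536870912 740881858 40050571
    (rowB 3 eng mog cd2q2b cd3q2 pd0 1 false true false .pp 2 0 2 (qsf 1239849684 370763052 1073741824 536870912 0) ndB2q2b ndB3q2 pcB0 Cut.none Ext.none)

def k0_pm_202_b : ∃ t, chk3 f_pm_202_b t 1 1 1 = true :=
  ⟨(b (l 3) (l 3)), by decide +kernel⟩

theorem c_pm_202_b : CertB 1239849684 370763052 1073741824 536870912 740881858 40050571 3 eng mog cd2q2b cd3q2 pd0 false true false .pp 2 0 2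
    ndB2q2b ndB3q2 pcB0 Cut.none Ext.none :=
  certB1 (fam := false) (s1 := true) (s2 := false) (a := 2) (b := 0) (c := 2) (cn := .pp) (n1 := ndB2q2b) (n2 := ndB3q2) (pc := pcB0) (cut := Cut.none) (xt := Ext.none) (P1 := 1239849684) (W1 := 370763052) (P2 := 1073741824) (W2 := 536870912) (P3 := 740881858) (W3 := 40050571) (N0 := 3) (En := eng) (mo := mog) (C1 := cd2q2b) (C2 := cd3q2) (C3 := pd0)
    rfl (fun _ => rfl) k0_pm_202_b

noncomputable def f_pm_203_a : ℕ → ℕ → ℕ → ℕ → Bool := onCell 0 536870912 0 1230186008 740881858 40050571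
    (rowB 3 eng mog cd2q2a cd3q3 pd0 0 false true false .up 2 0 3 (qsf 0 536870912 0 1230186008 0) ndB2q2a ndB3q3 pcB0 Cut.none Ext.none)

def k0_pm_203_a : ∃ t, chk3 f_pm_203_a t 1 1 1 = true :=
  ⟨(b (l 2) (b (l 2) (b (a (l 3) (l 2)) (a (l 3) (a (b (a (b (l 3) (l 262160336423)) (b (l 2) (a (l 16445976) (l 16431408)))) (a (b (l 16545944) (a (l 3) (l 16458824))) (b (l 16520224) (l 16420296)))) (b (a (b (l 2) (l 16447552)) (l 2)) (a (b (l 16432952) (a (l 16392736) (l 16377368))) (b (l 16442520) (l 16348120))))))))), by decide +kernel⟩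

theorem c_pm_203_a : CertB 0 536870912 0 1230186008 740881858 40050571 3 eng mog cd2q2a cd3q3 pd0 false true false .up 2 0 3
    ndB2q2a ndB3q3 pcB0 Cut.none Ext.none :=
  certB0 (fam := false) (s1 := true) (s2 := false) (a := 2) (b := 0) (c := 3) (cn := .up) (n1 := ndB2q2a) (n2 := ndB3q3) (pc := pcB0) (cut := Cut.none) (xt := Ext.none) (P1 := 0) (W1 := 536870912) (P2 := 0) (W2 := 1230186008) (P3 := 740881858) (W3 := 40050571) (N0 := 3) (En := eng) (mo := mog) (C1 := cd2q2a) (C2 := cd3q3) (C3 := pd0)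
    rfl k0_pm_203_a

noncomputable def f_pm_203_b : ℕ → ℕ → ℕ → ℕ → Bool := onCell 1239849684 370763052 0 1230186008 740881858 40050571
    (rowB 3 eng mog cd2q2b cd3q3 pd0 0 false true false .up 2 0 3 (qsf 1239849684 370763052 0 1230186008 0) ndB2q2b ndB3q3 pcB0 Cut.none Ext.none)

def k0_pm_203_b : ∃ t, chk3 f_pm_203_b t 1 1 1 = true :=
  ⟨(b (l 3) (b (l 3) (l 3))), by decide +kernel⟩

theorem c_pm_203_b : CertB 1239849684 370763052 0 1230186008 740881858 40050571 3 eng mog cd2q2b cd3q3 pd0 false true false .up 2 0 3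
    ndB2q2b ndB3q3 pcB0 Cut.none Ext.none :=
  certB0 (fam := false) (s1 := true) (s2 := false) (a := 2) (b := 0) (c := 3) (cn := .up) (n1 := ndB2q2b) (n2 := ndB3q3) (pc := pcB0) (cut := Cut.none) (xt := Ext.none) (P1 := 1239849684) (W1 := 370763052) (P2 := 0) (W2 := 1230186008) (P3 := 740881858) (W3 := 40050571) (N0 := 3) (En := eng) (mo := mog) (C1 := cd2q2b) (C2 := cd3q3) (C3 := pd0)
    rfl k0_pm_203_b

noncomputable def cut_pm_213_a : Cut := Cut.of [[⟨0, 1, 0, 67108864⟩, ⟨1, 1, 0, 67108864⟩, ⟨2, 2, 0, 16777216⟩]]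

noncomputable def f_pm_213_a : ℕ → ℕ → ℕ → ℕ → Bool := onCell 0 536870912 0 1230186008 740881858 40050571
    (rowB 3 eng mog cd2q2a cd3q3 pd1 0 false true false .pnn 2 1 3 (qsf 0 536870912 0 1230186008 1) ndB2q2a ndB3q3 pcB1 cut_pm_213_a Ext.none)

def k0_pm_213_a : ∃ t, chk3 f_pm_213_a t 1 2 1 = true :=
  ⟨(a (l 3) (b (a (l 3) (a (l 3) (b (l 6) (a (b (l 3) (a (l 3) (b (l 388325397927) (a (l 3) (l 185925062983))))) (b (a (l 6) (l 6)) (a (b (a (l 16758928) (l 16779744)) (l 16761712)) (l 16780336))))))) (a (l 3) (b (a (l 3) (a (b (a (b (l 3) (l 355039448615)) (b (b (l 183777575351) (l 16764488)) (l 145659724711))) (a (b (l 206862962439) (l 137069732103)) (b (l 16747248) (l 16769096)))) (b (a (b (l 16786168) (l 16790296)) (l 16788272)) (b (l 16795264) (l 16799608))))) (a (a (l 3) (b (b (l 343765017767) (a (l 3) (l 164986984423))) (a (b (l 3) (l 234243275943)) (b (l 16767640) (l 16768496))))) (b (b (a (a (l 16736344) (l 16789728)) (l 16804064)) (a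 (a (l 16778632) (l 16790328)) (l 16807464))) (a (b (a (l 16780184) (l 16792648)) (a (l 16782928) (l 16796208))) (b (l 16810256) (l 16815392))))))))), by decide +kernel⟩

def k1_pm_213_a : ∃ t, chk3 f_pm_213_a t 1 3 1 = true :=
  ⟨(b (a (l 3) (b (a (l 3) (a (b (a (l 3) (b (a (l 16712672) (l 16769296)) (a (l 16756088) (l 16771528)))) (a (a (l 3) (b (l 16689328) (l 16760496))) (b (a (l 16762864) (l 16778296)) (a (l 16773520) (l 16787944))))) (b (a (b (l 16688240) (l 16713368)) (b (l 16821672) (l 16828800))) (a (b (l 16739600) (l 16707168)) (b (l 16836968) (l 16846480)))))) (a (b (l 3) (a (l 3) (a (l 3) (a (l 3) (b (l 16668752) (l 55465095463)))))) (b (a (a (b (b (l 16658176) (a (l 16752112) (l 16759928))) (b (l 16674480) (l 16716456))) (b (b (l 16789136) (l 16722288)) (c (l 16739112) (l 16782968)))) (b (a (b (l 16820768) (l 16777104)) (a (l 16824104) (l 16862968))) (a (l 16734008) (l 16749928)))) (a (b (a (c (l 16675816) (l 16688096)) (l 16718520))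 (a (b (l 16641192) (l 16621560)) (l 16673104))) (b (a (l 16759720) (l 16801480)) (a (l 16718160) (l 16764624)))))))) (b (a (l 3) (a (a (l 3) (b (a (l 3) (b (l 53317589303) (l 16540736))) (b (b (l 16527952) (l 16516880)) (l 16534888)))) (b (a (b (a (l 16589320) (l 16633408)) (a (l 16551592) (l 16582504))) (b (b (l 16732280) (l 16719464)) (a (l 16628360) (l 16696840)))) (a (b (a (l 16522520) (l 16541344)) (l 16490392)) (b (a (l 16572496) (l 16621328)) (a (l 16511936) (l 16541112))))))) (a (l 3) (a (b (a (b (l 3) (l 237464316295)) (b (a (l 16469952) (l 16462768)) (a (l 16451584) (l 16445792)))) (l 1)) (b (a (b (l 16454960) (a (l 16433088) (l 16427832))) (b (l 16508752) (l 16548000))) (a (b (a (l 16421544) (l 16411256)) (l 1)) (a (b (l 16399712) (l 16387032)) (l 16375992)))))))), by decide +kernel⟩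

theorem s2_pm_213_a : ∃ t, chk3 f_pm_213_a t 1 1 1 = true := ex3_b k0_pm_213_a k1_pm_213_a

theorem c_pm_213_a : CertB 0 536870912 0 1230186008 740881858 40050571 3 eng mog cd2q2a cd3q3 pd1 false true false .pnn 2 1 3
    ndB2q2a ndB3q3 pcB1 cut_pm_213_a Ext.none :=
  certB0 (fam := false) (s1 := true) (s2 := false) (a := 2) (b := 1) (c := 3) (cn := .pnn) (n1 := ndB2q2a) (n2 := ndB3q3) (pc := pcB1) (cut := cut_pm_213_a) (xt := Ext.none) (P1 := 0) (W1 := 536870912) (P2 := 0) (W2 := 1230186008) (P3 := 740881858) (W3 := 40050571) (N0 := 3) (En := eng) (mo := mog) (C1 := cd2q2a) (C2 := cd3q3) (C3 := pd1)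
    rfl s2_pm_213_a

noncomputable def cut_pm_213_b : Cut := Cut.of [[⟨0, 1, 0, 67108864⟩, ⟨1, 1, 0, 67108864⟩, ⟨2, 2, 0, 16777216⟩]]

noncomputable def f_pm_213_b : ℕ → ℕ → ℕ → ℕ → Bool := onCell 1239849684 370763052 0 1230186008 740881858 40050571
    (rowB 3 eng mog cd2q2b cd3q3 pd1 0 false true false .pnn 2 1 3 (qsf 1239849684 370763052 0 1230186008 1) ndB2q2b ndB3q3 pcB1 cut_pm_213_b Ext.none)

def k0_pm_213_b : ∃ t, chk3 f_pm_213_b t 1 1 1 = true :=
  ⟨(b (l 3) (b (l 3) (l 3))), by decide +kernel⟩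

theorem c_pm_213_b : CertB 1239849684 370763052 0 1230186008 740881858 40050571 3 eng mog cd2q2b cd3q3 pd1 false true false .pnn 2 1 3
    ndB2q2b ndB3q3 pcB1 cut_pm_213_b Ext.none :=
  certB0 (fam := false) (s1 := true) (s2 := false) (a := 2) (b := 1) (c := 3) (cn := .pnn) (n1 := ndB2q2b) (n2 := ndB3q3) (pc := pcB1) (cut := cut_pm_213_b) (xt := Ext.none) (P1 := 1239849684) (W1 := 370763052) (P2 := 0) (W2 := 1230186008) (P3 := 740881858) (W3 := 40050571) (N0 := 3) (En := eng) (mo := mog) (C1 := cd2q2b) (C2 := cd3q3) (C3 := pd1)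
    rfl k0_pm_213_b

noncomputable def f_pm_303 : ℕ → ℕ → ℕ → ℕ → Bool := onCell 1610612736 536870912 0 1230186008 740881858 40050571
    (rowB 3 eng mog cd2q3 cd3q3 pd0 0 false true false .npn 3 0 3 (qsf 1610612736 536870912 0 1230186008 0) ndB2q3 ndB3q3 pcB0 Cut.none Ext.none)

def k0_pm_303 : ∃ t, chk3 f_pm_303 t 1 1 1 = true :=
  ⟨(b (l 3) (l 3)), by decide +kernel⟩

theorem c_pm_303 : CertB 1610612736 536870912 0 1230186008 740881858 40050571 3 eng mog cd2q3 cd3q3 pd0 false true false .npn 3 0 3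
    ndB2q3 ndB3q3 pcB0 Cut.none Ext.none :=
  certB0 (fam := false) (s1 := true) (s2 := false) (a := 3) (b := 0) (c := 3) (cn := .npn) (n1 := ndB2q3) (n2 := ndB3q3) (pc := pcB0) (cut := Cut.none) (xt := Ext.none) (P1 := 1610612736) (W1 := 536870912) (P2 := 0) (W2 := 1230186008) (P3 := 740881858) (W3 := 40050571) (N0 := 3) (En := eng) (mo := mog) (C1 := cd2q3) (C2 := cd3q3) (C3 := pd0)
    rfl k0_pm_303

noncomputable def f_pm_313 : ℕ → ℕ → ℕ → ℕ → Bool := onCell 1610612736 536870912 0 1230186008 740881858 40050571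
    (rowB 3 eng mog cd2q3 cd3q3 pd1 0 false true false .dn 3 1 3 (qsf 1610612736 536870912 0 1230186008 1) ndB2q3 ndB3q3 pcB1 Cut.none Ext.none)

def k0_pm_313 : ∃ t, chk3 f_pm_313 t 1 1 1 = true :=
  ⟨(b (l 3) (l 1)), by decide +kernel⟩

theorem c_pm_313 : CertB 1610612736 536870912 0 1230186008 740881858 40050571 3 eng mog cd2q3 cd3q3 pd1 false true false .dn 3 1 3
    ndB2q3 ndB3q3 pcB1 Cut.none Ext.none :=
  certB0 (fam := false) (s1 := true) (s2 := false) (a := 3) (b := 1) (c := 3) (cn := .dn) (n1 := ndB2q3) (n2 := ndB3q3) (pc := pcB1) (cut := Cut.none) (xt := Ext.none) (P1 := 1610612736) (W1 := 536870912) (P2 := 0) (W2 := 1230186008) (P3 := 740881858) (W3 := 40050571) (N0 := 3) (En := eng) (mo := mog) (C1 := cd2q3) (C2 := cd3q3) (C3 := pd1)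
    rfl k0_pm_313

noncomputable def f_mm_001 : ℕ → ℕ → ℕ → ℕ → Bool := onCell 0 536870912 0 536870912 740881858 40050571
    (rowB 3 eng mog cd2q0 cd3q1 pd0 1 false false false .up 0 0 1 (qsf 0 536870912 536870912 536870912 0) ndB2q0 ndB3q1 pcB0 Cut.none Ext.none)

def k0_mm_001 : ∃ t, chk3 f_mm_001 t 1 1 1 = true :=
  ⟨(l 3), by decide +kernel⟩

theorem c_mm_001 : CertB 0 536870912 536870912 536870912 740881858 40050571 3 eng mog cd2q0 cd3q1 pd0 false false false .up 0 0 1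
    ndB2q0 ndB3q1 pcB0 Cut.none Ext.none :=
  certB1 (fam := false) (s1 := false) (s2 := false) (a := 0) (b := 0) (c := 1) (cn := .up) (n1 := ndB2q0) (n2 := ndB3q1) (pc := pcB0) (cut := Cut.none) (xt := Ext.none) (P1 := 0) (W1 := 536870912) (P2 := 536870912) (W2 := 536870912) (P3 := 740881858) (W3 := 40050571) (N0 := 3) (En := eng) (mo := mog) (C1 := cd2q0) (C2 := cd3q1) (C3 := pd0)
    rfl (fun _ => rfl) k0_mm_001

noncomputable def f_mm_011 : ℕ → ℕ → ℕ → ℕ → Bool := onCell 0 536870912 536870912 536870912 740881858 40050571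
    (rowB 3 eng mog cd2q0 cd3q1 pd1 1 false false false .pnn 0 1 1 (qsf 0 536870912 536870912 536870912 1) ndB2q0 ndB3q1 pcB1 Cut.none Ext.none)

def k0_mm_011 : ∃ t, chk3 f_mm_011 t 1 1 1 = true :=
  ⟨(l 5), by decide +kernel⟩

theorem c_mm_011 : CertB 0 536870912 536870912 536870912 740881858 40050571 3 eng mog cd2q0 cd3q1 pd1 false false false .pnn 0 1 1
    ndB2q0 ndB3q1 pcB1 Cut.none Ext.none :=
  certB1 (fam := false) (s1 := false) (s2 := false) (a := 0) (b := 1) (c := 1) (cn := .pnn) (n1 := ndB2q0) (n2 := ndB3q1) (pc := pcB1) (cut := Cut.none) (xt := Ext.none) (P1 := 0) (W1 := 536870912) (P2 := 536870912) (W2 := 536870912) (P3 := 740881858) (W3 := 40050571) (N0 := 3) (En := eng) (mo := mog) (C1 := cd2q0) (C2 := cd3q1) (C3 := pd1)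
    rfl (fun _ => rfl) k0_mm_011

noncomputable def f_mm_012 : ℕ → ℕ → ℕ → ℕ → Bool := onCell 0 536870912 1073741824 536870912 740881858 40050571
    (rowB 3 eng mog cd2q0 cd3q2 pd1 0 false false false .pnp 0 1 2 (qsf 0 536870912 1073741824 536870912 1) ndB2q0 ndB3q2 pcB1 Cut.none Ext.none)

def k0_mm_012 : ∃ t, chk3 f_mm_012 t 1 1 1 = true :=
  ⟨(l 5), by decide +kernel⟩

theorem c_mm_012 : CertB 0 536870912 1073741824 536870912 740881858 40050571 3 eng mog cd2q0 cd3q2 pd1 false false false .pnp 0 1 2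
    ndB2q0 ndB3q2 pcB1 Cut.none Ext.none :=
  certB0 (fam := false) (s1 := false) (s2 := false) (a := 0) (b := 1) (c := 2) (cn := .pnp) (n1 := ndB2q0) (n2 := ndB3q2) (pc := pcB1) (cut := Cut.none) (xt := Ext.none) (P1 := 0) (W1 := 536870912) (P2 := 1073741824) (W2 := 536870912) (P3 := 740881858) (W3 := 40050571) (N0 := 3) (En := eng) (mo := mog) (C1 := cd2q0) (C2 := cd3q2) (C3 := pd1)
    rfl k0_mm_012

noncomputable def f_mm_022 : ℕ → ℕ → ℕ → ℕ → Bool := onCell 0 536870912 1073741824 536870912 740881858 40050571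
    (rowB 3 eng mog cd2q0 cd3q2 pd2 0 false false false .pp 0 2 2 (qsf 0 536870912 1073741824 536870912 2) ndB2q0 ndB3q2 pcB2 Cut.none Ext.none)

def k0_mm_022 : ∃ t, chk3 f_mm_022 t 1 1 1 = true :=
  ⟨(l 5), by decide +kernel⟩

theorem c_mm_022 : CertB 0 536870912 1073741824 536870912 740881858 40050571 3 eng mog cd2q0 cd3q2 pd2 false false false .pp 0 2 2
    ndB2q0 ndB3q2 pcB2 Cut.none Ext.none :=
  certB0 (fam := false) (s1 := false) (s2 := false) (a := 0) (b := 2) (c := 2) (cn := .pp) (n1 := ndB2q0) (n2 := ndB3q2) (pc := pcB2) (cut := Cut.none) (xt := Ext.none) (P1 := 0) (W1 := 536870912) (P2 := 1073741824) (W2 := 536870912) (P3 := 740881858) (W3 := 40050571) (N0 := 3) (En := eng) (mo := mog) (C1 := cd2q0) (C2 := cd3q2) (C3 := pd2)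
    rfl k0_mm_022

noncomputable def f_mm_023 : ℕ → ℕ → ℕ → ℕ → Bool := onCell 0 536870912 0 1230186008 740881858 40050571
    (rowB 3 eng mog cd2q0 cd3q3 pd2 0 false false false .up 0 2 3 (qsf 0 536870912 0 1230186008 2) ndB2q0 ndB3q3 pcB2 Cut.none Ext.none)

def k0_mm_023 : ∃ t, chk3 f_mm_023 t 1 1 1 = true :=
  ⟨(l 5), by decide +kernel⟩

theorem c_mm_023 : CertB 0 536870912 0 1230186008 740881858 40050571 3 eng mog cd2q0 cd3q3 pd2 false false false .up 0 2 3
    ndB2q0 ndB3q3 pcB2 Cut.none Ext.none :=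
  certB0 (fam := false) (s1 := false) (s2 := false) (a := 0) (b := 2) (c := 3) (cn := .up) (n1 := ndB2q0) (n2 := ndB3q3) (pc := pcB2) (cut := Cut.none) (xt := Ext.none) (P1 := 0) (W1 := 536870912) (P2 := 0) (W2 := 1230186008) (P3 := 740881858) (W3 := 40050571) (N0 := 3) (En := eng) (mo := mog) (C1 := cd2q0) (C2 := cd3q3) (C3 := pd2)
    rfl k0_mm_023

noncomputable def f_mm_033 : ℕ → ℕ → ℕ → ℕ → Bool := onCell 0 536870912 0 1230186008 740881858 40050571
    (rowB 3 eng mog cd2q0 cd3q3 pd3 0 false false false .pnn 0 3 3 (qsf 0 536870912 0 1230186008 3) ndB2q0 ndB3q3 pcB3 Cut.none Ext.none)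

def k0_mm_033 : ∃ t, chk3 f_mm_033 t 1 1 1 = true :=
  ⟨(l 5), by decide +kernel⟩

theorem c_mm_033 : CertB 0 536870912 0 1230186008 740881858 40050571 3 eng mog cd2q0 cd3q3 pd3 false false false .pnn 0 3 3
    ndB2q0 ndB3q3 pcB3 Cut.none Ext.none :=
  certB0 (fam := false) (s1 := false) (s2 := false) (a := 0) (b := 3) (c := 3) (cn := .pnn) (n1 := ndB2q0) (n2 := ndB3q3) (pc := pcB3) (cut := Cut.none) (xt := Ext.none) (P1 := 0) (W1 := 536870912) (P2 := 0) (W2 := 1230186008) (P3 := 740881858) (W3 := 40050571) (N0 := 3) (En := eng) (mo := mog) (C1 := cd2q0) (C2 := cd3q3) (C3 := pd3)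
    rfl k0_mm_033

noncomputable def f_mm_101 : ℕ → ℕ → ℕ → ℕ → Bool := onCell 536870912 536870912 536870912 536870912 740881858 40050571
    (rowB 3 eng mog cd2q1 cd3q1 pd0 0 false false false .npn 1 0 1 (qsf 536870912 536870912 536870912 536870912 0) ndB2q1 ndB3q1 pcB0 Cut.none Ext.none)

def k0_mm_101 : ∃ t, chk3 f_mm_101 t 1 1 1 = true :=
  ⟨(l 3), by decide +kernel⟩

theorem c_mm_101 : CertB 536870912 536870912 536870912 536870912 740881858 40050571 3 eng mog cd2q1 cd3q1 pd0 false false false .npn 1 0 1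
    ndB2q1 ndB3q1 pcB0 Cut.none Ext.none :=
  certB0 (fam := false) (s1 := false) (s2 := false) (a := 1) (b := 0) (c := 1) (cn := .npn) (n1 := ndB2q1) (n2 := ndB3q1) (pc := pcB0) (cut := Cut.none) (xt := Ext.none) (P1 := 536870912) (W1 := 536870912) (P2 := 536870912) (W2 := 536870912) (P3 := 740881858) (W3 := 40050571) (N0 := 3) (En := eng) (mo := mog) (C1 := cd2q1) (C2 := cd3q1) (C3 := pd0)
    rfl k0_mm_101

noncomputable def f_mm_102 : ℕ → ℕ → ℕ → ℕ → Bool := onCell 536870912 536870912 1073741824 536870912 740881858 40050571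
    (rowB 3 eng mog cd2q1 cd3q2 pd0 0 false false false .npp 1 0 2 (qsf 536870912 536870912 1073741824 536870912 0) ndB2q1 ndB3q2 pcB0 Cut.none Ext.none)

def k0_mm_102 : ∃ t, chk3 f_mm_102 t 1 1 1 = true :=
  ⟨(l 5), by decide +kernel⟩

theorem c_mm_102 : CertB 536870912 536870912 1073741824 536870912 740881858 40050571 3 eng mog cd2q1 cd3q2 pd0 false false false .npp 1 0 2
    ndB2q1 ndB3q2 pcB0 Cut.none Ext.none :=
  certB0 (fam := false) (s1 := false) (s2 := false) (a := 1) (b := 0) (c := 2) (cn := .npp) (n1 := ndB2q1) (n2 := ndB3q2) (pc := pcB0) (cut := Cut.none) (xt := Ext.none) (P1 := 536870912) (W1 := 536870912) (P2 := 1073741824) (W2 := 536870912) (P3 := 740881858) (W3 := 40050571) (N0 := 3) (En := eng) (mo := mog) (C1 := cd2q1) (C2 := cd3q2) (C3 := pd0)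
    rfl k0_mm_102

noncomputable def f_mm_112 : ℕ → ℕ → ℕ → ℕ → Bool := onCell 536870912 536870912 1073741824 536870912 740881858 40050571
    (rowB 3 eng mog cd2q1 cd3q2 pd1 0 false false false .dn 1 1 2 (qsf 536870912 536870912 1073741824 536870912 1) ndB2q1 ndB3q2 pcB1 Cut.none Ext.none)

def k0_mm_112 : ∃ t, chk3 f_mm_112 t 1 1 1 = true :=
  ⟨(l 5), by decide +kernel⟩

theorem c_mm_112 : CertB 536870912 536870912 1073741824 536870912 740881858 40050571 3 eng mog cd2q1 cd3q2 pd1 false false false .dn 1 1 2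
    ndB2q1 ndB3q2 pcB1 Cut.none Ext.none :=
  certB0 (fam := false) (s1 := false) (s2 := false) (a := 1) (b := 1) (c := 2) (cn := .dn) (n1 := ndB2q1) (n2 := ndB3q2) (pc := pcB1) (cut := Cut.none) (xt := Ext.none) (P1 := 536870912) (W1 := 536870912) (P2 := 1073741824) (W2 := 536870912) (P3 := 740881858) (W3 := 40050571) (N0 := 3) (En := eng) (mo := mog) (C1 := cd2q1) (C2 := cd3q2) (C3 := pd1)
    rfl k0_mm_112

noncomputable def f_mm_113 : ℕ → ℕ → ℕ → ℕ → Bool := onCell 536870912 536870912 0 1230186008 740881858 40050571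
    (rowB 3 eng mog cd2q1 cd3q3 pd1 0 false false false .nn 1 1 3 (qsf 536870912 536870912 0 1230186008 1) ndB2q1 ndB3q3 pcB1 Cut.none Ext.none)

def k0_mm_113 : ∃ t, chk3 f_mm_113 t 1 1 1 = true :=
  ⟨(l 5), by decide +kernel⟩

theorem c_mm_113 : CertB 536870912 536870912 0 1230186008 740881858 40050571 3 eng mog cd2q1 cd3q3 pd1 false false false .nn 1 1 3
    ndB2q1 ndB3q3 pcB1 Cut.none Ext.none :=
  certB0 (fam := false) (s1 := false) (s2 := false) (a := 1) (b := 1) (c := 3) (cn := .nn) (n1 := ndB2q1) (n2 := ndB3q3) (pc := pcB1) (cut := Cut.none) (xt := Ext.none) (P1 := 536870912) (W1 := 536870912) (P2 := 0) (W2 := 1230186008) (P3 := 740881858) (W3 := 40050571) (N0 := 3) (En := eng) (mo := mog) (C1 := cd2q1) (C2 := cd3q3) (C3 := pd1)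
    rfl k0_mm_113

noncomputable def f_mm_123 : ℕ → ℕ → ℕ → ℕ → Bool := onCell 536870912 536870912 0 1230186008 740881858 40050571
    (rowB 3 eng mog cd2q1 cd3q3 pd2 0 false false false .npn 1 2 3 (qsf 536870912 536870912 0 1230186008 2) ndB2q1 ndB3q3 pcB2 Cut.none Ext.none)

def k0_mm_123 : ∃ t, chk3 f_mm_123 t 1 1 1 = true :=
  ⟨(l 5), by decide +kernel⟩

theorem c_mm_123 : CertB 536870912 536870912 0 1230186008 740881858 40050571 3 eng mog cd2q1 cd3q3 pd2 false false false .npn 1 2 3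
    ndB2q1 ndB3q3 pcB2 Cut.none Ext.none :=
  certB0 (fam := false) (s1 := false) (s2 := false) (a := 1) (b := 2) (c := 3) (cn := .npn) (n1 := ndB2q1) (n2 := ndB3q3) (pc := pcB2) (cut := Cut.none) (xt := Ext.none) (P1 := 536870912) (W1 := 536870912) (P2 := 0) (W2 := 1230186008) (P3 := 740881858) (W3 := 40050571) (N0 := 3) (En := eng) (mo := mog) (C1 := cd2q1) (C2 := cd3q3) (C3 := pd2)
    rfl k0_mm_123

noncomputable def f_mm_133 : ℕ → ℕ → ℕ → ℕ → Bool := onCell 536870912 536870912 0 1230186008 740881858 40050571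
    (rowB 3 eng mog cd2q1 cd3q3 pd3 0 false false false .dn 1 3 3 (qsf 536870912 536870912 0 1230186008 3) ndB2q1 ndB3q3 pcB3 Cut.none Ext.none)

def k0_mm_133 : ∃ t, chk3 f_mm_133 t 1 1 1 = true :=
  ⟨(l 5), by decide +kernel⟩

theorem c_mm_133 : CertB 536870912 536870912 0 1230186008 740881858 40050571 3 eng mog cd2q1 cd3q3 pd3 false false false .dn 1 3 3
    ndB2q1 ndB3q3 pcB3 Cut.none Ext.none :=
  certB0 (fam := false) (s1 := false) (s2 := false) (a := 1) (b := 3) (c := 3) (cn := .dn) (n1 := ndB2q1) (n2 := ndB3q3) (pc := pcB3) (cut := Cut.none) (xt := Ext.none) (P1 := 536870912) (W1 := 536870912) (P2 := 0) (W2 := 1230186008) (P3 := 740881858) (W3 := 40050571) (N0 := 3) (En := eng) (mo := mog) (C1 := cd2q1) (C2 := cd3q3) (C3 := pd3)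
    rfl k0_mm_133

noncomputable def f_mm_202_a : ℕ → ℕ → ℕ → ℕ → Bool := onCell 0 536870912 1073741824 536870912 740881858 40050571
    (rowB 3 eng mog cd2q2a cd3q2 pd0 0 false false false .pp 2 0 2 (qsf 0 536870912 1073741824 536870912 0) ndB2q2a ndB3q2 pcB0 Cut.none Ext.none)

def k0_mm_202_a : ∃ t, chk3 f_mm_202_a t 1 1 1 = true :=
  ⟨(l 3), by decide +kernel⟩

theorem c_mm_202_a : CertB 0 536870912 1073741824 536870912 740881858 40050571 3 eng mog cd2q2a cd3q2 pd0 false false false .pp 2 0 2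
    ndB2q2a ndB3q2 pcB0 Cut.none Ext.none :=
  certB0 (fam := false) (s1 := false) (s2 := false) (a := 2) (b := 0) (c := 2) (cn := .pp) (n1 := ndB2q2a) (n2 := ndB3q2) (pc := pcB0) (cut := Cut.none) (xt := Ext.none) (P1 := 0) (W1 := 536870912) (P2 := 1073741824) (W2 := 536870912) (P3 := 740881858) (W3 := 40050571) (N0 := 3) (En := eng) (mo := mog) (C1 := cd2q2a) (C2 := cd3q2) (C3 := pd0)
    rfl k0_mm_202_a

noncomputable def f_mm_202_b : ℕ → ℕ → ℕ → ℕ → Bool := onCell 1239849684 370763052 1073741824 536870912 740881858 40050571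
    (rowB 3 eng mog cd2q2b cd3q2 pd0 0 false false false .pp 2 0 2 (qsf 1239849684 370763052 1073741824 536870912 0) ndB2q2b ndB3q2 pcB0 Cut.none Ext.none)

def k0_mm_202_b : ∃ t, chk3 f_mm_202_b t 1 1 1 = true :=
  ⟨(l 3), by decide +kernel⟩

theorem c_mm_202_b : CertB 1239849684 370763052 1073741824 536870912 740881858 40050571 3 eng mog cd2q2b cd3q2 pd0 false false false .pp 2 0 2
    ndB2q2b ndB3q2 pcB0 Cut.none Ext.none :=
  certB0 (fam := false) (s1 := false) (s2 := false) (a := 2) (b := 0) (c := 2) (cn := .pp) (n1 := ndB2q2b) (n2 := ndB3q2) (pc := pcB0) (cut := Cut.none) (xt := Ext.none) (P1 := 1239849684) (W1 := 370763052) (P2 := 1073741824) (W2 := 536870912) (P3 := 740881858) (W3 := 40050571) (N0 := 3) (En := eng) (mo := mog) (C1 := cd2q2b) (C2 := cd3q2) (C3 := pd0)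
    rfl k0_mm_202_b

noncomputable def f_mm_203_a : ℕ → ℕ → ℕ → ℕ → Bool := onCell 0 536870912 0 1230186008 740881858 40050571
    (rowB 3 eng mog cd2q2a cd3q3 pd0 0 false false false .up 2 0 3 (qsf 0 536870912 0 1230186008 0) ndB2q2a ndB3q3 pcB0 Cut.none Ext.none)

def k0_mm_203_a : ∃ t, chk3 f_mm_203_a t 1 1 1 = true :=
  ⟨(b (l 2) (l 3)), by decide +kernel⟩

theorem c_mm_203_a : CertB 0 536870912 0 1230186008 740881858 40050571 3 eng mog cd2q2a cd3q3 pd0 false false false .up 2 0 3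
    ndB2q2a ndB3q3 pcB0 Cut.none Ext.none :=
  certB0 (fam := false) (s1 := false) (s2 := false) (a := 2) (b := 0) (c := 3) (cn := .up) (n1 := ndB2q2a) (n2 := ndB3q3) (pc := pcB0) (cut := Cut.none) (xt := Ext.none) (P1 := 0) (W1 := 536870912) (P2 := 0) (W2 := 1230186008) (P3 := 740881858) (W3 := 40050571) (N0 := 3) (En := eng) (mo := mog) (C1 := cd2q2a) (C2 := cd3q3) (C3 := pd0)
    rfl k0_mm_203_a

noncomputable def f_mm_203_b : ℕ → ℕ → ℕ → ℕ → Bool := onCell 1239849684 370763052 0 1230186008 740881858 40050571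
    (rowB 3 eng mog cd2q2b cd3q3 pd0 0 false false false .up 2 0 3 (qsf 1239849684 370763052 0 1230186008 0) ndB2q2b ndB3q3 pcB0 Cut.none Ext.none)

def k0_mm_203_b : ∃ t, chk3 f_mm_203_b t 1 1 1 = true :=
  ⟨(b (l 3) (l 3)), by decide +kernel⟩

theorem c_mm_203_b : CertB 1239849684 370763052 0 1230186008 740881858 40050571 3 eng mog cd2q2b cd3q3 pd0 false false false .up 2 0 3
    ndB2q2b ndB3q3 pcB0 Cut.none Ext.none :=
  certB0 (fam := false) (s1 := false) (s2 := false) (a := 2) (b := 0) (c := 3) (cn := .up) (n1 := ndB2q2b) (n2 := ndB3q3) (pc := pcB0) (cut := Cut.none) (xt := Ext.none) (P1 := 1239849684) (W1 := 370763052) (P2 := 0) (W2 := 1230186008) (P3 := 740881858) (W3 := 40050571) (N0 := 3) (En := eng) (mo := mog) (C1 := cd2q2b) (C2 := cd3q3) (C3 := pd0)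
    rfl k0_mm_203_b

noncomputable def f_mm_213_a : ℕ → ℕ → ℕ → ℕ → Bool := onCell 0 536870912 0 1230186008 740881858 40050571
    (rowB 3 eng mog cd2q2a cd3q3 pd1 0 false false false .pnn 2 1 3 (qsf 0 536870912 0 1230186008 1) ndB2q2a ndB3q3 pcB1 Cut.none Ext.none)

def k0_mm_213_a : ∃ t, chk3 f_mm_213_a t 1 1 1 = true :=
  ⟨(b (l 5) (l 3)), by decide +kernel⟩

theorem c_mm_213_a : CertB 0 536870912 0 1230186008 740881858 40050571 3 eng mog cd2q2a cd3q3 pd1 false false false .pnn 2 1 3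
    ndB2q2a ndB3q3 pcB1 Cut.none Ext.none :=
  certB0 (fam := false) (s1 := false) (s2 := false) (a := 2) (b := 1) (c := 3) (cn := .pnn) (n1 := ndB2q2a) (n2 := ndB3q3) (pc := pcB1) (cut := Cut.none) (xt := Ext.none) (P1 := 0) (W1 := 536870912) (P2 := 0) (W2 := 1230186008) (P3 := 740881858) (W3 := 40050571) (N0 := 3) (En := eng) (mo := mog) (C1 := cd2q2a) (C2 := cd3q3) (C3 := pd1)
    rfl k0_mm_213_a

noncomputable def f_mm_213_b : ℕ → ℕ → ℕ → ℕ → Bool := onCell 1239849684 370763052 0 1230186008 740881858 40050571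
    (rowB 3 eng mog cd2q2b cd3q3 pd1 0 false false false .pnn 2 1 3 (qsf 1239849684 370763052 0 1230186008 1) ndB2q2b ndB3q3 pcB1 Cut.none Ext.none)

def k0_mm_213_b : ∃ t, chk3 f_mm_213_b t 1 1 1 = true :=
  ⟨(b (l 3) (l 3)), by decide +kernel⟩

theorem c_mm_213_b : CertB 1239849684 370763052 0 1230186008 740881858 40050571 3 eng mog cd2q2b cd3q3 pd1 false false false .pnn 2 1 3
    ndB2q2b ndB3q3 pcB1 Cut.none Ext.none :=
  certB0 (fam := false) (s1 := false) (s2 := false) (a := 2) (b := 1) (c := 3) (cn := .pnn) (n1 := ndB2q2b) (n2 := ndB3q3) (pc := pcB1) (cut := Cut.none) (xt := Ext.none) (P1 := 1239849684) (W1 := 370763052) (P2 := 0) (W2 := 1230186008) (P3 := 740881858) (W3 := 40050571) (N0 := 3) (En := eng) (mo := mog) (C1 := cd2q2b) (C2 := cd3q3) (C3 := pd1)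
    rfl k0_mm_213_b

noncomputable def f_mm_303 : ℕ → ℕ → ℕ → ℕ → Bool := onCell 1610612736 536870912 0 1230186008 740881858 40050571
    (rowB 3 eng mog cd2q3 cd3q3 pd0 0 false false false .npn 3 0 3 (qsf 1610612736 536870912 0 1230186008 0) ndB2q3 ndB3q3 pcB0 Cut.none Ext.none)

def k0_mm_303 : ∃ t, chk3 f_mm_303 t 1 1 1 = true :=
  ⟨(b (l 3) (l 3)), by decide +kernel⟩

theorem c_mm_303 : CertB 1610612736 536870912 0 1230186008 740881858 40050571 3 eng mog cd2q3 cd3q3 pd0 false false false .npn 3 0 3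
    ndB2q3 ndB3q3 pcB0 Cut.none Ext.none :=
  certB0 (fam := false) (s1 := false) (s2 := false) (a := 3) (b := 0) (c := 3) (cn := .npn) (n1 := ndB2q3) (n2 := ndB3q3) (pc := pcB0) (cut := Cut.none) (xt := Ext.none) (P1 := 1610612736) (W1 := 536870912) (P2 := 0) (W2 := 1230186008) (P3 := 740881858) (W3 := 40050571) (N0 := 3) (En := eng) (mo := mog) (C1 := cd2q3) (C2 := cd3q3) (C3 := pd0)
    rfl k0_mm_303

noncomputable def f_mm_313 : ℕ → ℕ → ℕ → ℕ → Bool := onCell 1610612736 536870912 0 1230186008 740881858 40050571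
    (rowB 3 eng mog cd2q3 cd3q3 pd1 0 false false false .dn 3 1 3 (qsf 1610612736 536870912 0 1230186008 1) ndB2q3 ndB3q3 pcB1 Cut.none Ext.none)

def k0_mm_313 : ∃ t, chk3 f_mm_313 t 1 1 1 = true :=
  ⟨(b (l 3) (l 1)), by decide +kernel⟩

theorem c_mm_313 : CertB 1610612736 536870912 0 1230186008 740881858 40050571 3 eng mog cd2q3 cd3q3 pd1 false false false .dn 3 1 3
    ndB2q3 ndB3q3 pcB1 Cut.none Ext.none :=
  certB0 (fam := false) (s1 := false) (s2 := false) (a := 3) (b := 1) (c := 3) (cn := .dn) (n1 := ndB2q3) (n2 := ndB3q3) (pc := pcB1) (cut := Cut.none) (xt := Ext.none) (P1 := 1610612736) (W1 := 536870912) (P2 := 0) (W2 := 1230186008) (P3 := 740881858) (W3 := 40050571) (N0 := 3) (En := eng) (mo := mog) (C1 := cd2q3) (C2 := cd3q3) (C3 := pd1)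
    rfl k0_mm_313

end Pool.Agent.Strip051.G.I69_7273.Tab.C.BB23

namespace Pool.Agent.Strip051.G.I69_7273.Tab.C.BB24

open Pool.Agent.Strip051.PB Pool.Agent.Strip051.PB.T
open Pool.Agent.Strip051.G.I69_7273.Tab

noncomputable def f_pp_001 : ℕ → ℕ → ℕ → ℕ → Bool := onCell 0 536870912 0 536870912 740881858 40050571
    (rowB 3 eng mog cd2q0 cd4q1 pd0 1 false true true .up 0 0 1 (qsf 0 536870912 536870912 536870912 0) ndB2q0 ndB4q1 pcB0 Cut.none Ext.none)

def k0_pp_001 : ∃ t, chk3 f_pp_001 t 1 1 1 = true :=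
  ⟨(l 3), by decide +kernel⟩

theorem c_pp_001 : CertB 0 536870912 536870912 536870912 740881858 40050571 3 eng mog cd2q0 cd4q1 pd0 false true true .up 0 0 1
    ndB2q0 ndB4q1 pcB0 Cut.none Ext.none :=
  certB1 (fam := false) (s1 := true) (s2 := true) (a := 0) (b := 0) (c := 1) (cn := .up) (n1 := ndB2q0) (n2 := ndB4q1) (pc := pcB0) (cut := Cut.none) (xt := Ext.none) (P1 := 0) (W1 := 536870912) (P2 := 536870912) (W2 := 536870912) (P3 := 740881858) (W3 := 40050571) (N0 := 3) (En := eng) (mo := mog) (C1 := cd2q0) (C2 := cd4q1) (C3 := pd0)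
    rfl (fun _ => rfl) k0_pp_001

noncomputable def cut_pp_011 : Cut := Cut.of [[⟨0, 0, 0, 67108864⟩, ⟨1, 1, 0, 67108864⟩, ⟨2, 1, 0, 67108864⟩]]

noncomputable def f_pp_011 : ℕ → ℕ → ℕ → ℕ → Bool := onCell 0 536870912 536870912 536870912 740881858 40050571
    (rowB 3 eng mog cd2q0 cd4q1 pd1 1 false true true .pnn 0 1 1 (qsf 0 536870912 536870912 536870912 1) ndB2q0 ndB4q1 pcB1 cut_pp_011 Ext.none)

def k0_pp_011 : ∃ t, chk3 f_pp_011 t 1 1 1 = true :=
  ⟨(b (l 3) (b (l 3) (a (b (l 3) (a (a (b (l 3) (a (l 6) (l 3))) (l 3)) (l 2))) (l 2)))), by decide +kernel⟩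

theorem c_pp_011 : CertB 0 536870912 536870912 536870912 740881858 40050571 3 eng mog cd2q0 cd4q1 pd1 false true true .pnn 0 1 1
    ndB2q0 ndB4q1 pcB1 cut_pp_011 Ext.none :=
  certB1 (fam := false) (s1 := true) (s2 := true) (a := 0) (b := 1) (c := 1) (cn := .pnn) (n1 := ndB2q0) (n2 := ndB4q1) (pc := pcB1) (cut := cut_pp_011) (xt := Ext.none) (P1 := 0) (W1 := 536870912) (P2 := 536870912) (W2 := 536870912) (P3 := 740881858) (W3 := 40050571) (N0 := 3) (En := eng) (mo := mog) (C1 := cd2q0) (C2 := cd4q1) (C3 := pd1)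
    rfl (fun _ => rfl) k0_pp_011

noncomputable def f_pp_012 : ℕ → ℕ → ℕ → ℕ → Bool := onCell 0 536870912 536870912 536870912 740881858 40050571
    (rowB 3 eng mog cd2q0 cd4q2 pd1 1 false true true .pnp 0 1 2 (qsf 0 536870912 1073741824 536870912 1) ndB2q0 ndB4q2 pcB1 Cut.none Ext.none)

def k0_pp_012 : ∃ t, chk3 f_pp_012 t 1 1 1 = true :=
  ⟨(l 3), by decide +kernel⟩

theorem c_pp_012 : CertB 0 536870912 1073741824 536870912 740881858 40050571 3 eng mog cd2q0 cd4q2 pd1 false true true .pnp 0 1 2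
    ndB2q0 ndB4q2 pcB1 Cut.none Ext.none :=
  certB1 (fam := false) (s1 := true) (s2 := true) (a := 0) (b := 1) (c := 2) (cn := .pnp) (n1 := ndB2q0) (n2 := ndB4q2) (pc := pcB1) (cut := Cut.none) (xt := Ext.none) (P1 := 0) (W1 := 536870912) (P2 := 1073741824) (W2 := 536870912) (P3 := 740881858) (W3 := 40050571) (N0 := 3) (En := eng) (mo := mog) (C1 := cd2q0) (C2 := cd4q2) (C3 := pd1)
    rfl (fun _ => rfl) k0_pp_012

noncomputable def f_pp_022 : ℕ → ℕ → ℕ → ℕ → Bool := onCell 0 536870912 1073741824 536870912 740881858 40050571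
    (rowB 3 eng mog cd2q0 cd4q2 pd2 1 false true true .pp 0 2 2 (qsf 0 536870912 1073741824 536870912 2) ndB2q0 ndB4q2 pcB2 Cut.none Ext.none)

def k0_pp_022 : ∃ t, chk3 f_pp_022 t 1 2 1 = true :=
  ⟨(b (a (l 3) (b (l 3) (b (a (l 3) (b (l 16625840) (l 16572240))) (a (b (l 535964499095) (a (l 643875971687) (l 16560208))) (b (l 16685856) (l 16565760)))))) (b (a (b (b (a (l 3) (a (l 3) (b (l 3) (l 16540480)))) (b (a (l 3) (a (l 611126599063) (l 16538504))) (a (b (a (l 3) (a (l 3) (l 16501616))) (a (b (a (b (l 3) (a (l 16331856) (l 16462744))) (l 3)) (a (c (l 16426808) (l 16440184)) (l 16465552))) (b (a (l 16545176) (l 16494232)) (l 16483304)))) (b (a (l 16517968) (l 16533592)) (a (b (l 16595888) (l 16508064)) (b (l 16533016) (l 16532432))))))) (a (a (a (a (a (l 16380352) (l 16403768)) (l 16407936)) (l 16417720)) (a (l 16432816) (l 16449288))) (a (l 16474984) (l 16511040)))) (a (b (b (a (b (l 16550904) (l 16551624)) (l 16539800)) (b (a (l 16549136) (l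 16567024)) (b (l 16620600) (a (l 16549952) (l 16559656))))) (a (l 16538112) (l 16549520))) (b (b (l 16573176) (l 2)) (l 2)))) (a (a (a (a (b (b (l 16294880) (l 16293648)) (l 16253592)) (b (l 16333712) (l 16257912))) (a (b (l 16355736) (l 16287016)) (b (l 16379736) (l 16318592)))) (a (b (l 16564960) (l 16369328)) (b (l 16473344) (l 16440816)))) (a (a (l 16508584) (l 16524648)) (l 2))))), by decide +kernel⟩

def k1_pp_022 : ∃ t, chk3 f_pp_022 t 1 3 1 = true :=
  ⟨(a (b (a (a (b (a (b (l 16158592) (l 16093376)) (b (l 16190792) (l 16132840))) (a (b (l 16037528) (l 15991664)) (l 16064392))) (b (b (a (l 16227184) (l 16266504)) (l 16200296)) (a (l 16120288) (l 16179408)))) (b (a (b (l 16329232) (l 16298000)) (l 16401992)) (a (l 16307904) (l 16370288)))) (a (a (b (a (l 15943104) (l 16011080)) (a (l 15920136) (l 16003320))) (b (a (l 16082784) (l 16153000)) (l 16119464))) (a (b (l 16248104) (l 2)) (l 2)))) (b (a (b (a (l 16474888) (l 2)) (l 2)) (l 2)) (l 2))),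 by decide +kernel⟩

theorem s2_pp_022 : ∃ t, chk3 f_pp_022 t 1 1 1 = true := ex3_b k0_pp_022 k1_pp_022

theorem c_pp_022 : CertB 0 536870912 1073741824 536870912 740881858 40050571 3 eng mog cd2q0 cd4q2 pd2 false true true .pp 0 2 2
    ndB2q0 ndB4q2 pcB2 Cut.none Ext.none :=
  certB1 (fam := false) (s1 := true) (s2 := true) (a := 0) (b := 2) (c := 2) (cn := .pp) (n1 := ndB2q0) (n2 := ndB4q2) (pc := pcB2) (cut := Cut.none) (xt := Ext.none) (P1 := 0) (W1 := 536870912) (P2 := 1073741824) (W2 := 536870912) (P3 := 740881858) (W3 := 40050571) (N0 := 3) (En := eng) (mo := mog) (C1 := cd2q0) (C2 := cd4q2) (C3 := pd2)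
    rfl (fun _ => rfl) s2_pp_022

noncomputable def f_pp_023 : ℕ → ℕ → ℕ → ℕ → Bool := onCell 1073741824 536870912 0 1230186008 740881858 40050571
    (rowB 3 eng mog cd2q0 cd4q3 pd2 2 false true true .up 0 2 3 (qsf 0 536870912 0 1230186008 2) ndB2q0 ndB4q3 pcB2 Cut.none Ext.none)

def k0_pp_023 : ∃ t, chk3 f_pp_023 t 1 1 1 = true :=
  ⟨(a (b (l 2) (b (a (l 2) (a (l 2) (l 16724408))) (b (a (l 2) (a (a (a (l 16597496) (l 16590224)) (l 16587864)) (l 16590344))) (a (a (a (l 3) (l 16640768)) (a (b (l 16569168) (l 16548184)) (a (l 16563832) (l 16651416)))) (a (a (a (l 16574336) (a (l 16572872) (b (l 16569272) (l 16563888)))) (l 16560352)) (b (l 16551544) (l 16523816))))))) (b (a (l 2) (b (l 16743152) (a (l 16618496) (l 16626248)))) (b (a (b (l 16625776) (l 16594992)) (b (l 16602320) (l 16537832))) (a (b (a (l 16545456) (l 16512736)) (a (b (l 16504064) (l 16447832)) (b (l 16429112) (l 16329328)))) (b (b (l 16451944) (l 16367080)) (b (a (l 16319240) (l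 16196520)) (a (l 16195512) (b (l 16093760) (l 16012120))))))))), by decide +kernel⟩

theorem c_pp_023 : CertB 0 536870912 0 1230186008 740881858 40050571 3 eng mog cd2q0 cd4q3 pd2 false true true .up 0 2 3
    ndB2q0 ndB4q3 pcB2 Cut.none Ext.none :=
  certB2 (fam := false) (s1 := true) (s2 := true) (a := 0) (b := 2) (c := 3) (cn := .up) (n1 := ndB2q0) (n2 := ndB4q3) (pc := pcB2) (cut := Cut.none) (xt := Ext.none) (P1 := 0) (W1 := 536870912) (P2 := 0) (W2 := 1230186008) (P3 := 740881858) (W3 := 40050571) (N0 := 3) (En := eng) (mo := mog) (C1 := cd2q0) (C2 := cd4q3) (C3 := pd2)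
    rfl (fun _ => rfl) k0_pp_023

noncomputable def f_pp_033 : ℕ → ℕ → ℕ → ℕ → Bool := onCell 1610612736 536870912 0 1230186008 740881858 40050571
    (rowB 3 eng mog cd2q0 cd4q3 pd3 2 false true true .pnn 0 3 3 (qsf 0 536870912 0 1230186008 3) ndB2q0 ndB4q3 pcB3 Cut.none Ext.none)

def k0_pp_033 : ∃ t, chk3 f_pp_033 t 1 1 1 = true :=
  ⟨(b (b (a (a (l 16611344) (a (l 16543568) (l 4))) (l 4)) (a (a (b (l 16580104) (l 16550000)) (a (b (l 16490568) (l 16427288)) (l 16384408))) (a (a (b (l 16332960) (l 16253536)) (a (l 16430264) (b (l 4) (l 16132752)))) (a (a (b (l 4) (l 16293048)) (l 4)) (l 4))))) (b (a (a (b (l 16493032) (a (l 16462736) (l 16325680))) (a (b (l 16325944) (a (l 16215040) (l 16149600))) (b (a (l 16255488) (l 16211512)) (a (l 16082952) (b (l 16102192) (l 15992504)))))) (b (a (a (a (l 16161376) (b (l 16148160) (l 16072816))) (b (a (l 16107464) (l 16076296)) (a (l 16028120) (l 834329847063)))) (a (a (b (l 1003444336919) (l 1)) (l 1)) (l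 1))) (a (a (a (b (l 16041424) (l 573409736455)) (b (l 566968051943) (b (l 597569381015) (l 1)))) (b (a (l 567504609079) (l 1)) (l 1))) (l 1)))) (a (b (b (a (l 16244104) (a (a (l 16053112) (l 15979840)) (a (l 15932008) (l 498784799351)))) (a (a (l 16182592) (l 16031464)) (a (a (l 15914840) (l 475162562951)) (l 1)))) (a (b (a (l 16039608) (l 425770714327)) (a (b (l 15924600) (l 397853175991)) (b (l 386578609655) (l 1)))) (b (a (a (l 417180255495) (l 1)) (l 1)) (l 1)))) (l 1)))), by decide +kernel⟩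

theorem c_pp_033 : CertB 0 536870912 0 1230186008 740881858 40050571 3 eng mog cd2q0 cd4q3 pd3 false true true .pnn 0 3 3
    ndB2q0 ndB4q3 pcB3 Cut.none Ext.none :=
  certB2 (fam := false) (s1 := true) (s2 := true) (a := 0) (b := 3) (c := 3) (cn := .pnn) (n1 := ndB2q0) (n2 := ndB4q3) (pc := pcB3) (cut := Cut.none) (xt := Ext.none) (P1 := 0) (W1 := 536870912) (P2 := 0) (W2 := 1230186008) (P3 := 740881858) (W3 := 40050571) (N0 := 3) (En := eng) (mo := mog) (C1 := cd2q0) (C2 := cd4q3) (C3 := pd3)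
    rfl (fun _ => rfl) k0_pp_033

noncomputable def f_pp_101 : ℕ → ℕ → ℕ → ℕ → Bool := onCell 536870912 536870912 536870912 536870912 740881858 40050571
    (rowB 3 eng mog cd2q1 cd4q1 pd0 0 false true true .npn 1 0 1 (qsf 536870912 536870912 536870912 536870912 0) ndB2q1 ndB4q1 pcB0 Cut.none Ext.none)

def k0_pp_101 : ∃ t, chk3 f_pp_101 t 1 1 1 = true :=
  ⟨(l 3), by decide +kernel⟩

theorem c_pp_101 : CertB 536870912 536870912 536870912 536870912 740881858 40050571 3 eng mog cd2q1 cd4q1 pd0 false true true .npn 1 0 1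
    ndB2q1 ndB4q1 pcB0 Cut.none Ext.none :=
  certB0 (fam := false) (s1 := true) (s2 := true) (a := 1) (b := 0) (c := 1) (cn := .npn) (n1 := ndB2q1) (n2 := ndB4q1) (pc := pcB0) (cut := Cut.none) (xt := Ext.none) (P1 := 536870912) (W1 := 536870912) (P2 := 536870912) (W2 := 536870912) (P3 := 740881858) (W3 := 40050571) (N0 := 3) (En := eng) (mo := mog) (C1 := cd2q1) (C2 := cd4q1) (C3 := pd0)
    rfl k0_pp_101

noncomputable def f_pp_102 : ℕ → ℕ → ℕ → ℕ → Bool := onCell 536870912 536870912 1073741824 536870912 740881858 40050571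
    (rowB 3 eng mog cd2q1 cd4q2 pd0 0 false true true .npp 1 0 2 (qsf 536870912 536870912 1073741824 536870912 0) ndB2q1 ndB4q2 pcB0 Cut.none Ext.none)

def k0_pp_102 : ∃ t, chk3 f_pp_102 t 1 1 1 = true :=
  ⟨(l 3), by decide +kernel⟩

theorem c_pp_102 : CertB 536870912 536870912 1073741824 536870912 740881858 40050571 3 eng mog cd2q1 cd4q2 pd0 false true true .npp 1 0 2
    ndB2q1 ndB4q2 pcB0 Cut.none Ext.none :=
  certB0 (fam := false) (s1 := true) (s2 := true) (a := 1) (b := 0) (c := 2) (cn := .npp) (n1 := ndB2q1) (n2 := ndB4q2) (pc := pcB0) (cut := Cut.none) (xt := Ext.none) (P1 := 536870912) (W1 := 536870912) (P2 := 1073741824) (W2 := 536870912) (P3 := 740881858) (W3 := 40050571) (N0 := 3) (En := eng) (mo := mog) (C1 := cd2q1) (C2 := cd4q2) (C3 := pd0)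
    rfl k0_pp_102

noncomputable def f_pp_112 : ℕ → ℕ → ℕ → ℕ → Bool := onCell 536870912 536870912 1073741824 536870912 740881858 40050571
    (rowB 3 eng mog cd2q1 cd4q2 pd1 0 false true true .dn 1 1 2 (qsf 536870912 536870912 1073741824 536870912 1) ndB2q1 ndB4q2 pcB1 Cut.none Ext.none)

def k0_pp_112 : ∃ t, chk3 f_pp_112 t 1 1 1 = true :=
  ⟨(l 3), by decide +kernel⟩

theorem c_pp_112 : CertB 536870912 536870912 1073741824 536870912 740881858 40050571 3 eng mog cd2q1 cd4q2 pd1 false true true .dn 1 1 2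
    ndB2q1 ndB4q2 pcB1 Cut.none Ext.none :=
  certB0 (fam := false) (s1 := true) (s2 := true) (a := 1) (b := 1) (c := 2) (cn := .dn) (n1 := ndB2q1) (n2 := ndB4q2) (pc := pcB1) (cut := Cut.none) (xt := Ext.none) (P1 := 536870912) (W1 := 536870912) (P2 := 1073741824) (W2 := 536870912) (P3 := 740881858) (W3 := 40050571) (N0 := 3) (En := eng) (mo := mog) (C1 := cd2q1) (C2 := cd4q2) (C3 := pd1)
    rfl k0_pp_112

noncomputable def f_pp_113 : ℕ → ℕ → ℕ → ℕ → Bool := onCell 536870912 536870912 0 1230186008 740881858 40050571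
    (rowB 3 eng mog cd2q1 cd4q3 pd1 2 false true true .nn 1 1 3 (qsf 536870912 536870912 0 1230186008 1) ndB2q1 ndB4q3 pcB1 Cut.none Ext.none)

def k0_pp_113 : ∃ t, chk3 f_pp_113 t 1 1 1 = true :=
  ⟨(a (b (l 2) (b (l 3) (l 3))) (a (b (l 2) (b (l 3) (l 3))) (b (b (a (l 2) (l 16729184)) (a (a (b (l 2) (l 349133968695)) (b (l 16657008) (l 16648152))) (a (b (l 16698760) (l 16717656)) (b (l 16744912) (l 16759456))))) (b (b (a (a (l 3) (l 294909309991)) (a (l 16763000) (l 16818544))) (a (l 3) (a (l 16805584) (l 16894832)))) (a (l 3) (b (a (l 3) (l 16920392)) (l 3))))))), by decide +kernel⟩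

theorem c_pp_113 : CertB 536870912 536870912 0 1230186008 740881858 40050571 3 eng mog cd2q1 cd4q3 pd1 false true true .nn 1 1 3
    ndB2q1 ndB4q3 pcB1 Cut.none Ext.none :=
  certB2 (fam := false) (s1 := true) (s2 := true) (a := 1) (b := 1) (c := 3) (cn := .nn) (n1 := ndB2q1) (n2 := ndB4q3) (pc := pcB1) (cut := Cut.none) (xt := Ext.none) (P1 := 536870912) (W1 := 536870912) (P2 := 0) (W2 := 1230186008) (P3 := 740881858) (W3 := 40050571) (N0 := 3) (En := eng) (mo := mog) (C1 := cd2q1) (C2 := cd4q3) (C3 := pd1)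
    rfl (fun _ => rfl) k0_pp_113

noncomputable def f_pp_123 : ℕ → ℕ → ℕ → ℕ → Bool := onCell 1073741824 536870912 0 1230186008 740881858 40050571
    (rowB 3 eng mog cd2q1 cd4q3 pd2 2 false true true .npn 1 2 3 (qsf 536870912 536870912 0 1230186008 2) ndB2q1 ndB4q3 pcB2 Cut.none Ext.none)

def k0_pp_123 : ∃ t, chk3 f_pp_123 t 1 1 1 = true :=
  ⟨(a (a (b (b (a (l 16647352) (l 16564848)) (a (b (l 16736904) (l 16820712)) (b (l 16656008) (l 16743360)))) (a (b (b (l 16918648) (a (l 17005768) (l 17003016))) (b (a (l 16923320) (l 16781088)) (a (l 3) (l 16616040)))) (b (b (l 16839808) (l 16882192)) (a (b (l 16701384) (a (l 16580056) (l 16580224))) (b (l 16661768) (b (l 16599784) (l 1))))))) (b (b (a (l 16520424) (l 16563336)) (a (l 16658720) (l 16664808))) (a (b (a (a (l 16851368) (b (l 16816352) (l 16740496))) (l 16765392)) (a (a (b (l 16644088) (l 16591480)) (b (l 16634256) (l 1))) (b (l 16630456) (l 1)))) (b (l 16720504) (b (l 16643784) (l 1)))))) (b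 (a (b (l 16635488) (l 16746216)) (b (l 16691632) (a (l 16714264) (l 16742424)))) (b (a (b (l 16732288) (l 16708800)) (l 368864336599)) (l 1)))), by decide +kernel⟩

theorem c_pp_123 : CertB 536870912 536870912 0 1230186008 740881858 40050571 3 eng mog cd2q1 cd4q3 pd2 false true true .npn 1 2 3
    ndB2q1 ndB4q3 pcB2 Cut.none Ext.none :=
  certB2 (fam := false) (s1 := true) (s2 := true) (a := 1) (b := 2) (c := 3) (cn := .npn) (n1 := ndB2q1) (n2 := ndB4q3) (pc := pcB2) (cut := Cut.none) (xt := Ext.none) (P1 := 536870912) (W1 := 536870912) (P2 := 0) (W2 := 1230186008) (P3 := 740881858) (W3 := 40050571) (N0 := 3) (En := eng) (mo := mog) (C1 := cd2q1) (C2 := cd4q3) (C3 := pd2)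
    rfl (fun _ => rfl) k0_pp_123

noncomputable def f_pp_133 : ℕ → ℕ → ℕ → ℕ → Bool := onCell 1610612736 536870912 0 1230186008 740881858 40050571
    (rowB 3 eng mog cd2q1 cd4q3 pd3 2 false true true .dn 1 3 3 (qsf 536870912 536870912 0 1230186008 3) ndB2q1 ndB4q3 pcB3 Cut.none Ext.none)

def k0_pp_133 : ∃ t, chk3 f_pp_133 t 1 1 1 = true :=
  ⟨(b (b (a (a (l 16761680) (l 1)) (l 1)) (l 1)) (l 1)), by decide +kernel⟩

theorem c_pp_133 : CertB 536870912 536870912 0 1230186008 740881858 40050571 3 eng mog cd2q1 cd4q3 pd3 false true true .dn 1 3 3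
    ndB2q1 ndB4q3 pcB3 Cut.none Ext.none :=
  certB2 (fam := false) (s1 := true) (s2 := true) (a := 1) (b := 3) (c := 3) (cn := .dn) (n1 := ndB2q1) (n2 := ndB4q3) (pc := pcB3) (cut := Cut.none) (xt := Ext.none) (P1 := 536870912) (W1 := 536870912) (P2 := 0) (W2 := 1230186008) (P3 := 740881858) (W3 := 40050571) (N0 := 3) (En := eng) (mo := mog) (C1 := cd2q1) (C2 := cd4q3) (C3 := pd3)
    rfl (fun _ => rfl) k0_pp_133

noncomputable def f_pp_202_a : ℕ → ℕ → ℕ → ℕ → Bool := onCell 0 536870912 1073741824 536870912 740881858 40050571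
    (rowB 3 eng mog cd2q2a cd4q2 pd0 0 false true true .pp 2 0 2 (qsf 0 536870912 1073741824 536870912 0) ndB2q2a ndB4q2 pcB0 Cut.none Ext.none)

def k0_pp_202_a : ∃ t, chk3 f_pp_202_a t 1 1 1 = true :=
  ⟨(l 3), by decide +kernel⟩

theorem c_pp_202_a : CertB 0 536870912 1073741824 536870912 740881858 40050571 3 eng mog cd2q2a cd4q2 pd0 false true true .pp 2 0 2
    ndB2q2a ndB4q2 pcB0 Cut.none Ext.none :=
  certB0 (fam := false) (s1 := true) (s2 := true) (a := 2) (b := 0) (c := 2) (cn := .pp) (n1 := ndB2q2a) (n2 := ndB4q2) (pc := pcB0) (cut := Cut.none) (xt := Ext.none) (P1 := 0) (W1 := 536870912) (P2 := 1073741824) (W2 := 536870912) (P3 := 740881858) (W3 := 40050571) (N0 := 3) (En := eng) (mo := mog) (C1 := cd2q2a) (C2 := cd4q2) (C3 := pd0)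
    rfl k0_pp_202_a

noncomputable def f_pp_202_b : ℕ → ℕ → ℕ → ℕ → Bool := onCell 1239849684 370763052 1073741824 536870912 740881858 40050571
    (rowB 3 eng mog cd2q2b cd4q2 pd0 0 false true true .pp 2 0 2 (qsf 1239849684 370763052 1073741824 536870912 0) ndB2q2b ndB4q2 pcB0 Cut.none Ext.none)

def k0_pp_202_b : ∃ t, chk3 f_pp_202_b t 1 1 1 = true :=
  ⟨(l 5), by decide +kernel⟩

theorem c_pp_202_b : CertB 1239849684 370763052 1073741824 536870912 740881858 40050571 3 eng mog cd2q2b cd4q2 pd0 false true true .pp 2 0 2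
    ndB2q2b ndB4q2 pcB0 Cut.none Ext.none :=
  certB0 (fam := false) (s1 := true) (s2 := true) (a := 2) (b := 0) (c := 2) (cn := .pp) (n1 := ndB2q2b) (n2 := ndB4q2) (pc := pcB0) (cut := Cut.none) (xt := Ext.none) (P1 := 1239849684) (W1 := 370763052) (P2 := 1073741824) (W2 := 536870912) (P3 := 740881858) (W3 := 40050571) (N0 := 3) (En := eng) (mo := mog) (C1 := cd2q2b) (C2 := cd4q2) (C3 := pd0)
    rfl k0_pp_202_b

noncomputable def f_pp_203_a : ℕ → ℕ → ℕ → ℕ → Bool := onCell 0 536870912 0 1230186008 740881858 40050571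
    (rowB 3 eng mog cd2q2a cd4q3 pd0 0 false true true .up 2 0 3 (qsf 0 536870912 0 1230186008 0) ndB2q2a ndB4q3 pcB0 Cut.none Ext.none)

def k0_pp_203_a : ∃ t, chk3 f_pp_203_a t 1 1 1 = true :=
  ⟨(b (l 2) (l 3)), by decide +kernel⟩

theorem c_pp_203_a : CertB 0 536870912 0 1230186008 740881858 40050571 3 eng mog cd2q2a cd4q3 pd0 false true true .up 2 0 3
    ndB2q2a ndB4q3 pcB0 Cut.none Ext.none :=
  certB0 (fam := false) (s1 := true) (s2 := true) (a := 2) (b := 0) (c := 3) (cn := .up) (n1 := ndB2q2a) (n2 := ndB4q3) (pc := pcB0) (cut := Cut.none) (xt := Ext.none) (P1 := 0) (W1 := 536870912) (P2 := 0) (W2 := 1230186008) (P3 := 740881858) (W3 := 40050571) (N0 := 3) (En := eng) (mo := mog) (C1 := cd2q2a) (C2 := cd4q3) (C3 := pd0)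
    rfl k0_pp_203_a

noncomputable def f_pp_203_b : ℕ → ℕ → ℕ → ℕ → Bool := onCell 1239849684 370763052 0 1230186008 740881858 40050571
    (rowB 3 eng mog cd2q2b cd4q3 pd0 0 false true true .up 2 0 3 (qsf 1239849684 370763052 0 1230186008 0) ndB2q2b ndB4q3 pcB0 Cut.none Ext.none)

def k0_pp_203_b : ∃ t, chk3 f_pp_203_b t 1 1 1 = true :=
  ⟨(b (l 3) (l 3)), by decide +kernel⟩

theorem c_pp_203_b : CertB 1239849684 370763052 0 1230186008 740881858 40050571 3 eng mog cd2q2b cd4q3 pd0 false true true .up 2 0 3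
    ndB2q2b ndB4q3 pcB0 Cut.none Ext.none :=
  certB0 (fam := false) (s1 := true) (s2 := true) (a := 2) (b := 0) (c := 3) (cn := .up) (n1 := ndB2q2b) (n2 := ndB4q3) (pc := pcB0) (cut := Cut.none) (xt := Ext.none) (P1 := 1239849684) (W1 := 370763052) (P2 := 0) (W2 := 1230186008) (P3 := 740881858) (W3 := 40050571) (N0 := 3) (En := eng) (mo := mog) (C1 := cd2q2b) (C2 := cd4q3) (C3 := pd0)
    rfl k0_pp_203_b

noncomputable def cut_pp_213_a : Cut := Cut.of [[⟨0, 1, 0, 67108864⟩, ⟨1, 1, 0, 67108864⟩, ⟨2, 2, 0, 16777216⟩]]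

noncomputable def f_pp_213_a : ℕ → ℕ → ℕ → ℕ → Bool := onCell 0 536870912 0 1230186008 740881858 40050571
    (rowB 3 eng mog cd2q2a cd4q3 pd1 0 false true true .pnn 2 1 3 (qsf 0 536870912 0 1230186008 1) ndB2q2a ndB4q3 pcB1 cut_pp_213_a Ext.none)

def k0_pp_213_a : ∃ t, chk3 f_pp_213_a t 1 1 1 = true :=
  ⟨(b (a (l 3) (b (a (l 3) (a (l 3) (b (l 6) (l 3)))) (l 3))) (l 3)), by decide +kernel⟩

theorem c_pp_213_a : CertB 0 536870912 0 1230186008 740881858 40050571 3 eng mog cd2q2a cd4q3 pd1 false true true .pnn 2 1 3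
    ndB2q2a ndB4q3 pcB1 cut_pp_213_a Ext.none :=
  certB0 (fam := false) (s1 := true) (s2 := true) (a := 2) (b := 1) (c := 3) (cn := .pnn) (n1 := ndB2q2a) (n2 := ndB4q3) (pc := pcB1) (cut := cut_pp_213_a) (xt := Ext.none) (P1 := 0) (W1 := 536870912) (P2 := 0) (W2 := 1230186008) (P3 := 740881858) (W3 := 40050571) (N0 := 3) (En := eng) (mo := mog) (C1 := cd2q2a) (C2 := cd4q3) (C3 := pd1)
    rfl k0_pp_213_a

noncomputable def cut_pp_213_b : Cut := Cut.of [[⟨0, 1, 0, 67108864⟩, ⟨1, 1, 0, 67108864⟩, ⟨2, 2, 0, 16777216⟩]]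

noncomputable def f_pp_213_b : ℕ → ℕ → ℕ → ℕ → Bool := onCell 1239849684 370763052 0 1230186008 740881858 40050571
    (rowB 3 eng mog cd2q2b cd4q3 pd1 0 false true true .pnn 2 1 3 (qsf 1239849684 370763052 0 1230186008 1) ndB2q2b ndB4q3 pcB1 cut_pp_213_b Ext.none)

def k0_pp_213_b : ∃ t, chk3 f_pp_213_b t 1 1 1 = true :=
  ⟨(b (l 3) (l 3)), by decide +kernel⟩

theorem c_pp_213_b : CertB 1239849684 370763052 0 1230186008 740881858 40050571 3 eng mog cd2q2b cd4q3 pd1 false true true .pnn 2 1 3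
    ndB2q2b ndB4q3 pcB1 cut_pp_213_b Ext.none :=
  certB0 (fam := false) (s1 := true) (s2 := true) (a := 2) (b := 1) (c := 3) (cn := .pnn) (n1 := ndB2q2b) (n2 := ndB4q3) (pc := pcB1) (cut := cut_pp_213_b) (xt := Ext.none) (P1 := 1239849684) (W1 := 370763052) (P2 := 0) (W2 := 1230186008) (P3 := 740881858) (W3 := 40050571) (N0 := 3) (En := eng) (mo := mog) (C1 := cd2q2b) (C2 := cd4q3) (C3 := pd1)
    rfl k0_pp_213_b

noncomputable def f_pp_303 : ℕ → ℕ → ℕ → ℕ → Bool := onCell 0 536870912 0 1230186008 740881858 40050571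
    (rowB 3 eng mog cd2q3 cd4q3 pd0 2 false true true .npn 3 0 3 (qsf 1610612736 536870912 0 1230186008 0) ndB2q3 ndB4q3 pcB0 Cut.none Ext.none)

def k0_pp_303 : ∃ t, chk3 f_pp_303 t 1 1 1 = true :=
  ⟨(b (l 3) (l 3)), by decide +kernel⟩

theorem c_pp_303 : CertB 1610612736 536870912 0 1230186008 740881858 40050571 3 eng mog cd2q3 cd4q3 pd0 false true true .npn 3 0 3
    ndB2q3 ndB4q3 pcB0 Cut.none Ext.none :=
  certB2 (fam := false) (s1 := true) (s2 := true) (a := 3) (b := 0) (c := 3) (cn := .npn) (n1 := ndB2q3) (n2 := ndB4q3) (pc := pcB0) (cut := Cut.none) (xt := Ext.none) (P1 := 1610612736) (W1 := 536870912) (P2 := 0) (W2 := 1230186008) (P3 := 740881858) (W3 := 40050571) (N0 := 3) (En := eng) (mo := mog) (C1 := cd2q3) (C2 := cd4q3) (C3 := pd0)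
    rfl (fun _ => rfl) k0_pp_303

noncomputable def f_pp_313 : ℕ → ℕ → ℕ → ℕ → Bool := onCell 1610612736 536870912 0 1230186008 740881858 40050571
    (rowB 3 eng mog cd2q3 cd4q3 pd1 0 false true true .dn 3 1 3 (qsf 1610612736 536870912 0 1230186008 1) ndB2q3 ndB4q3 pcB1 Cut.none Ext.none)

def k0_pp_313 : ∃ t, chk3 f_pp_313 t 1 1 1 = true :=
  ⟨(b (l 3) (l 1)), by decide +kernel⟩

theorem c_pp_313 : CertB 1610612736 536870912 0 1230186008 740881858 40050571 3 eng mog cd2q3 cd4q3 pd1 false true true .dn 3 1 3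
    ndB2q3 ndB4q3 pcB1 Cut.none Ext.none :=
  certB0 (fam := false) (s1 := true) (s2 := true) (a := 3) (b := 1) (c := 3) (cn := .dn) (n1 := ndB2q3) (n2 := ndB4q3) (pc := pcB1) (cut := Cut.none) (xt := Ext.none) (P1 := 1610612736) (W1 := 536870912) (P2 := 0) (W2 := 1230186008) (P3 := 740881858) (W3 := 40050571) (N0 := 3) (En := eng) (mo := mog) (C1 := cd2q3) (C2 := cd4q3) (C3 := pd1)
    rfl k0_pp_313

noncomputable def f_pm_001 : ℕ → ℕ → ℕ → ℕ → Bool := onCell 0 536870912 536870912 536870912 740881858 40050571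
    (rowB 3 eng mog cd2q0 cd4q1 pd0 0 false true false .up 0 0 1 (qsf 0 536870912 536870912 536870912 0) ndB2q0 ndB4q1 pcB0 Cut.none Ext.none)

def k0_pm_001 : ∃ t, chk3 f_pm_001 t 1 1 1 = true :=
  ⟨(l 4), by decide +kernel⟩

theorem c_pm_001 : CertB 0 536870912 536870912 536870912 740881858 40050571 3 eng mog cd2q0 cd4q1 pd0 false true false .up 0 0 1
    ndB2q0 ndB4q1 pcB0 Cut.none Ext.none :=
  certB0 (fam := false) (s1 := true) (s2 := false) (a := 0) (b := 0) (c := 1) (cn := .up) (n1 := ndB2q0) (n2 := ndB4q1) (pc := pcB0) (cut := Cut.none) (xt := Ext.none) (P1 := 0) (W1 := 536870912) (P2 := 536870912) (W2 := 536870912) (P3 := 740881858) (W3 := 40050571) (N0 := 3) (En := eng) (mo := mog) (C1 := cd2q0) (C2 := cd4q1) (C3 := pd0)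
    rfl k0_pm_001

noncomputable def f_pm_011 : ℕ → ℕ → ℕ → ℕ → Bool := onCell 0 536870912 536870912 536870912 740881858 40050571
    (rowB 3 eng mog cd2q0 cd4q1 pd1 0 false true false .pnn 0 1 1 (qsf 0 536870912 536870912 536870912 1) ndB2q0 ndB4q1 pcB1 Cut.none Ext.none)

def k0_pm_011 : ∃ t, chk3 f_pm_011 t 1 1 1 = true :=
  ⟨(l 4), by decide +kernel⟩

theorem c_pm_011 : CertB 0 536870912 536870912 536870912 740881858 40050571 3 eng mog cd2q0 cd4q1 pd1 false true false .pnn 0 1 1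
    ndB2q0 ndB4q1 pcB1 Cut.none Ext.none :=
  certB0 (fam := false) (s1 := true) (s2 := false) (a := 0) (b := 1) (c := 1) (cn := .pnn) (n1 := ndB2q0) (n2 := ndB4q1) (pc := pcB1) (cut := Cut.none) (xt := Ext.none) (P1 := 0) (W1 := 536870912) (P2 := 536870912) (W2 := 536870912) (P3 := 740881858) (W3 := 40050571) (N0 := 3) (En := eng) (mo := mog) (C1 := cd2q0) (C2 := cd4q1) (C3 := pd1)
    rfl k0_pm_011

noncomputable def f_pm_012 : ℕ → ℕ → ℕ → ℕ → Bool := onCell 0 536870912 1073741824 536870912 740881858 40050571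
    (rowB 3 eng mog cd2q0 cd4q2 pd1 0 false true false .pnp 0 1 2 (qsf 0 536870912 1073741824 536870912 1) ndB2q0 ndB4q2 pcB1 Cut.none Ext.none)

def k0_pm_012 : ∃ t, chk3 f_pm_012 t 1 1 1 = true :=
  ⟨(l 4), by decide +kernel⟩

theorem c_pm_012 : CertB 0 536870912 1073741824 536870912 740881858 40050571 3 eng mog cd2q0 cd4q2 pd1 false true false .pnp 0 1 2
    ndB2q0 ndB4q2 pcB1 Cut.none Ext.none :=
  certB0 (fam := false) (s1 := true) (s2 := false) (a := 0) (b := 1) (c := 2) (cn := .pnp) (n1 := ndB2q0) (n2 := ndB4q2) (pc := pcB1) (cut := Cut.none) (xt := Ext.none) (P1 := 0) (W1 := 536870912) (P2 := 1073741824) (W2 := 536870912) (P3 := 740881858) (W3 := 40050571) (N0 := 3) (En := eng) (mo := mog) (C1 := cd2q0) (C2 := cd4q2) (C3 := pd1)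
    rfl k0_pm_012

noncomputable def f_pm_022 : ℕ → ℕ → ℕ → ℕ → Bool := onCell 0 536870912 1073741824 536870912 740881858 40050571
    (rowB 3 eng mog cd2q0 cd4q2 pd2 0 false true false .pp 0 2 2 (qsf 0 536870912 1073741824 536870912 2) ndB2q0 ndB4q2 pcB2 Cut.none Ext.none)

def k0_pm_022 : ∃ t, chk3 f_pm_022 t 1 1 1 = true :=
  ⟨(l 4), by decide +kernel⟩

theorem c_pm_022 : CertB 0 536870912 1073741824 536870912 740881858 40050571 3 eng mog cd2q0 cd4q2 pd2 false true false .pp 0 2 2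
    ndB2q0 ndB4q2 pcB2 Cut.none Ext.none :=
  certB0 (fam := false) (s1 := true) (s2 := false) (a := 0) (b := 2) (c := 2) (cn := .pp) (n1 := ndB2q0) (n2 := ndB4q2) (pc := pcB2) (cut := Cut.none) (xt := Ext.none) (P1 := 0) (W1 := 536870912) (P2 := 1073741824) (W2 := 536870912) (P3 := 740881858) (W3 := 40050571) (N0 := 3) (En := eng) (mo := mog) (C1 := cd2q0) (C2 := cd4q2) (C3 := pd2)
    rfl k0_pm_022

noncomputable def f_pm_023 : ℕ → ℕ → ℕ → ℕ → Bool := onCell 0 536870912 0 1230186008 740881858 40050571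
    (rowB 3 eng mog cd2q0 cd4q3 pd2 0 false true false .up 0 2 3 (qsf 0 536870912 0 1230186008 2) ndB2q0 ndB4q3 pcB2 Cut.none Ext.none)

def k0_pm_023 : ∃ t, chk3 f_pm_023 t 1 1 1 = true :=
  ⟨(b (b (a (l 2) (a (l 2) (a (l 2) (l 16563208)))) (l 4)) (l 4)), by decide +kernel⟩

theorem c_pm_023 : CertB 0 536870912 0 1230186008 740881858 40050571 3 eng mog cd2q0 cd4q3 pd2 false true false .up 0 2 3
    ndB2q0 ndB4q3 pcB2 Cut.none Ext.none :=
  certB0 (fam := false) (s1 := true) (s2 := false) (a := 0) (b := 2) (c := 3) (cn := .up) (n1 := ndB2q0) (n2 := ndB4q3) (pc := pcB2) (cut := Cut.none) (xt := Ext.none) (P1 := 0) (W1 := 536870912) (P2 := 0) (W2 := 1230186008) (P3 := 740881858) (W3 := 40050571) (N0 := 3) (En := eng) (mo := mog) (C1 := cd2q0) (C2 := cd4q3) (C3 := pd2)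
    rfl k0_pm_023

noncomputable def f_pm_033 : ℕ → ℕ → ℕ → ℕ → Bool := onCell 0 536870912 0 1230186008 740881858 40050571
    (rowB 3 eng mog cd2q0 cd4q3 pd3 0 false true false .pnn 0 3 3 (qsf 0 536870912 0 1230186008 3) ndB2q0 ndB4q3 pcB3 Cut.none Ext.none)

def k0_pm_033 : ∃ t, chk3 f_pm_033 t 1 1 1 = true :=
  ⟨(b (a (l 4) (a (l 4) (b (a (l 4) (l 16564432)) (l 4)))) (l 4)), by decide +kernel⟩

theorem c_pm_033 : CertB 0 536870912 0 1230186008 740881858 40050571 3 eng mog cd2q0 cd4q3 pd3 false true false .pnn 0 3 3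
    ndB2q0 ndB4q3 pcB3 Cut.none Ext.none :=
  certB0 (fam := false) (s1 := true) (s2 := false) (a := 0) (b := 3) (c := 3) (cn := .pnn) (n1 := ndB2q0) (n2 := ndB4q3) (pc := pcB3) (cut := Cut.none) (xt := Ext.none) (P1 := 0) (W1 := 536870912) (P2 := 0) (W2 := 1230186008) (P3 := 740881858) (W3 := 40050571) (N0 := 3) (En := eng) (mo := mog) (C1 := cd2q0) (C2 := cd4q3) (C3 := pd3)
    rfl k0_pm_033

noncomputable def f_pm_101 : ℕ → ℕ → ℕ → ℕ → Bool := onCell 536870912 536870912 536870912 536870912 740881858 40050571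
    (rowB 3 eng mog cd2q1 cd4q1 pd0 0 false true false .npn 1 0 1 (qsf 536870912 536870912 536870912 536870912 0) ndB2q1 ndB4q1 pcB0 Cut.none Ext.none)

def k0_pm_101 : ∃ t, chk3 f_pm_101 t 1 1 1 = true :=
  ⟨(l 4), by decide +kernel⟩

theorem c_pm_101 : CertB 536870912 536870912 536870912 536870912 740881858 40050571 3 eng mog cd2q1 cd4q1 pd0 false true false .npn 1 0 1
    ndB2q1 ndB4q1 pcB0 Cut.none Ext.none :=
  certB0 (fam := false) (s1 := true) (s2 := false) (a := 1) (b := 0) (c := 1) (cn := .npn) (n1 := ndB2q1) (n2 := ndB4q1) (pc := pcB0) (cut := Cut.none) (xt := Ext.none) (P1 := 536870912) (W1 := 536870912) (P2 := 536870912) (W2 := 536870912) (P3 := 740881858) (W3 := 40050571) (N0 := 3) (En := eng) (mo := mog) (C1 := cd2q1) (C2 := cd4q1) (C3 := pd0)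
    rfl k0_pm_101

noncomputable def f_pm_102 : ℕ → ℕ → ℕ → ℕ → Bool := onCell 536870912 536870912 1073741824 536870912 740881858 40050571
    (rowB 3 eng mog cd2q1 cd4q2 pd0 0 false true false .npp 1 0 2 (qsf 536870912 536870912 1073741824 536870912 0) ndB2q1 ndB4q2 pcB0 Cut.none Ext.none)

def k0_pm_102 : ∃ t, chk3 f_pm_102 t 1 1 1 = true :=
  ⟨(l 4), by decide +kernel⟩

theorem c_pm_102 : CertB 536870912 536870912 1073741824 536870912 740881858 40050571 3 eng mog cd2q1 cd4q2 pd0 false true false .npp 1 0 2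
    ndB2q1 ndB4q2 pcB0 Cut.none Ext.none :=
  certB0 (fam := false) (s1 := true) (s2 := false) (a := 1) (b := 0) (c := 2) (cn := .npp) (n1 := ndB2q1) (n2 := ndB4q2) (pc := pcB0) (cut := Cut.none) (xt := Ext.none) (P1 := 536870912) (W1 := 536870912) (P2 := 1073741824) (W2 := 536870912) (P3 := 740881858) (W3 := 40050571) (N0 := 3) (En := eng) (mo := mog) (C1 := cd2q1) (C2 := cd4q2) (C3 := pd0)
    rfl k0_pm_102

noncomputable def f_pm_112 : ℕ → ℕ → ℕ → ℕ → Bool := onCell 536870912 536870912 1073741824 536870912 740881858 40050571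
    (rowB 3 eng mog cd2q1 cd4q2 pd1 0 false true false .dn 1 1 2 (qsf 536870912 536870912 1073741824 536870912 1) ndB2q1 ndB4q2 pcB1 Cut.none Ext.none)

def k0_pm_112 : ∃ t, chk3 f_pm_112 t 1 1 1 = true :=
  ⟨(l 4), by decide +kernel⟩

theorem c_pm_112 : CertB 536870912 536870912 1073741824 536870912 740881858 40050571 3 eng mog cd2q1 cd4q2 pd1 false true false .dn 1 1 2
    ndB2q1 ndB4q2 pcB1 Cut.none Ext.none :=
  certB0 (fam := false) (s1 := true) (s2 := false) (a := 1) (b := 1) (c := 2) (cn := .dn) (n1 := ndB2q1) (n2 := ndB4q2) (pc := pcB1) (cut := Cut.none) (xt := Ext.none) (P1 := 536870912) (W1 := 536870912) (P2 := 1073741824) (W2 := 536870912) (P3 := 740881858) (W3 := 40050571) (N0 := 3) (En := eng) (mo := mog) (C1 := cd2q1) (C2 := cd4q2) (C3 := pd1)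
    rfl k0_pm_112

noncomputable def f_pm_113 : ℕ → ℕ → ℕ → ℕ → Bool := onCell 536870912 536870912 0 1230186008 740881858 40050571
    (rowB 3 eng mog cd2q1 cd4q3 pd1 0 false true false .nn 1 1 3 (qsf 536870912 536870912 0 1230186008 1) ndB2q1 ndB4q3 pcB1 Cut.none Ext.none)

def k0_pm_113 : ∃ t, chk3 f_pm_113 t 1 1 1 = true :=
  ⟨(a (b (l 2) (l 4)) (b (a (l 2) (b (l 16571544) (l 16472160))) (b (a (b (l 116734247879) (l 4)) (b (a (l 16396808) (l 16525616)) (a (l 16508656) (l 16626616)))) (b (l 4) (l 4))))), by decide +kernel⟩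

theorem c_pm_113 : CertB 536870912 536870912 0 1230186008 740881858 40050571 3 eng mog cd2q1 cd4q3 pd1 false true false .nn 1 1 3
    ndB2q1 ndB4q3 pcB1 Cut.none Ext.none :=
  certB0 (fam := false) (s1 := true) (s2 := false) (a := 1) (b := 1) (c := 3) (cn := .nn) (n1 := ndB2q1) (n2 := ndB4q3) (pc := pcB1) (cut := Cut.none) (xt := Ext.none) (P1 := 536870912) (W1 := 536870912) (P2 := 0) (W2 := 1230186008) (P3 := 740881858) (W3 := 40050571) (N0 := 3) (En := eng) (mo := mog) (C1 := cd2q1) (C2 := cd4q3) (C3 := pd1)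
    rfl k0_pm_113

noncomputable def f_pm_123 : ℕ → ℕ → ℕ → ℕ → Bool := onCell 1073741824 536870912 0 1230186008 740881858 40050571
    (rowB 3 eng mog cd2q1 cd4q3 pd2 2 false true false .npn 1 2 3 (qsf 536870912 536870912 0 1230186008 2) ndB2q1 ndB4q3 pcB2 Cut.none Ext.none)

def k0_pm_123 : ∃ t, chk3 f_pm_123 t 1 1 1 = true :=
  ⟨(b (a (a (b (a (l 16580408) (l 16498456)) (b (l 16418352) (a (l 16354080) (l 16334152)))) (b (a (l 16459048) (l 16505536)) (a (l 16378960) (l 16369824)))) (a (b (l 16577736) (l 16868576)) (a (l 16701888) (l 16717208)))) (b (a (a (a (a (l 16306816) (l 16307168)) (l 4)) (l 4)) (l 4)) (l 4))), by decide +kernel⟩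

theorem c_pm_123 : CertB 536870912 536870912 0 1230186008 740881858 40050571 3 eng mog cd2q1 cd4q3 pd2 false true false .npn 1 2 3
    ndB2q1 ndB4q3 pcB2 Cut.none Ext.none :=
  certB2 (fam := false) (s1 := true) (s2 := false) (a := 1) (b := 2) (c := 3) (cn := .npn) (n1 := ndB2q1) (n2 := ndB4q3) (pc := pcB2) (cut := Cut.none) (xt := Ext.none) (P1 := 536870912) (W1 := 536870912) (P2 := 0) (W2 := 1230186008) (P3 := 740881858) (W3 := 40050571) (N0 := 3) (En := eng) (mo := mog) (C1 := cd2q1) (C2 := cd4q3) (C3 := pd2)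
    rfl (fun _ => rfl) k0_pm_123

noncomputable def f_pm_133 : ℕ → ℕ → ℕ → ℕ → Bool := onCell 1610612736 536870912 0 1230186008 740881858 40050571
    (rowB 3 eng mog cd2q1 cd4q3 pd3 2 false true false .dn 1 3 3 (qsf 536870912 536870912 0 1230186008 3) ndB2q1 ndB4q3 pcB3 Cut.none Ext.none)

def k0_pm_133 : ∃ t, chk3 f_pm_133 t 1 1 1 = true :=
  ⟨(b (a (a (a (l 16728784) (l 1)) (l 1)) (l 1)) (l 1)), by decide +kernel⟩

theorem c_pm_133 : CertB 536870912 536870912 0 1230186008 740881858 40050571 3 eng mog cd2q1 cd4q3 pd3 false true false .dn 1 3 3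
    ndB2q1 ndB4q3 pcB3 Cut.none Ext.none :=
  certB2 (fam := false) (s1 := true) (s2 := false) (a := 1) (b := 3) (c := 3) (cn := .dn) (n1 := ndB2q1) (n2 := ndB4q3) (pc := pcB3) (cut := Cut.none) (xt := Ext.none) (P1 := 536870912) (W1 := 536870912) (P2 := 0) (W2 := 1230186008) (P3 := 740881858) (W3 := 40050571) (N0 := 3) (En := eng) (mo := mog) (C1 := cd2q1) (C2 := cd4q3) (C3 := pd3)
    rfl (fun _ => rfl) k0_pm_133

noncomputable def f_pm_202_a : ℕ → ℕ → ℕ → ℕ → Bool := onCell 0 536870912 0 536870912 740881858 40050571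
    (rowB 3 eng mog cd2q2a cd4q2 pd0 1 false true false .pp 2 0 2 (qsf 0 536870912 1073741824 536870912 0) ndB2q2a ndB4q2 pcB0 Cut.none Ext.none)

def k0_pm_202_a : ∃ t, chk3 f_pm_202_a t 2 1 1 = true :=
  ⟨(b (b (b (a (b (a (b (l 16333312) (l 16321528)) (b (l 16261576) (l 16289848))) (a (l 16362944) (l 16333344))) (b (a (b (l 16247200) (l 16244736)) (b (l 16187376) (l 16254656))) (a (l 16289944) (b (l 16211608) (l 16242088))))) (a (a (b (l 16409960) (l 16445288)) (b (l 16384344) (l 16426616))) (b (l 16463696) (l 16367824)))) (b (a (a (l 16480392) (l 16467480)) (b (a (l 16432664) (l 16386336)) (l 16443744))) (a (a (l 16516752) (l 16506528)) (b (l 16465880) (l 16485560))))) (b (b (a (b (l 16536800) (a (l 16553536) (l 16546760))) (b (l 16503984) (l 16520712))) (a (a (l 16575024) (l 16568376)) (l 16541136))) (a (l 2) (b (l 652398311431) (l 2))))), by decide +kernel⟩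

def k1_pm_202_a : ∃ t, chk3 f_pm_202_a t 6 4 1 = true :=
  ⟨(b (b (a (b (a (l 16150032) (l 16117136)) (a (l 16150520) (l 16119024))) (b (a (l 16071128) (l 16019224)) (l 16135224))) (a (b (a (l 16155128) (l 16118264)) (a (l 16178872) (l 16130560))) (a (b (l 16082280) (a (l 16094624) (l 16072384))) (b (l 16030648) (l 16037624))))) (a (b (l 16200496) (l 16259632)) (b (a (b (l 16100584) (l 16131336)) (a (b (l 16055024) (l 16081064)) (b (l 16029432) (l 16044224)))) (l 16229704)))), by decide +kernel⟩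

def k2_pm_202_a : ∃ t, chk3 f_pm_202_a t 7 4 1 = true :=
  ⟨(b (a (b (a (b (l 15961408) (l 15967792)) (b (a (l 15921976) (l 15895440)) (l 15915992))) (a (c (l 15997360) (l 15958992)) (b (l 15923536) (l 15931368)))) (a (a (b (b (l 15867496) (l 15875568)) (b (l 15884384) (l 15893680))) (b (b (b (l 15836312) (l 15840408)) (l 15847224)) (b (l 15857320) (l 15868016)))) (b (a (b (b (a (l 15813368) (l 15818504)) (l 15810144)) (b (l 15815456) (l 15821224))) (b (a (b (b (a (l 15784528) (l 15776320)) (l 15782848)) (l 15787184)) (b (a (b (b (l 15767488) (l 15768792)) (l 15771032)) (b (c (l 15809008) (l 15711240)) (l 15763920))) (a (l 15776272) (l 15770176)))) (a (b (l 15793752) (l 15800752)) (b (l 15781136) (l 15789304))))) (a (b (c (l 15867464) (l 15793856)) (l 15884936)) (b (c (a (l 15851416) (l 15843352)) (l 15765808)) (c (l 15860152) (l 15783496))))))) (a (b (a (b (l 15987288) (a (c (l 16026512) (l 15999016)) (l 15981392))) (c (l 15965016) (l 15923720)))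 (a (b (a (l 16038336) (c (l 16019248) (l 15988120))) (l 16054208)) (a (b (l 15971720) (l 16002608)) (b (l 15945416) (l 16030272))))) (b (a (c (b (l 15919168) (l 15928040)) (l 15870624)) (a (b (l 15855864) (l 15868832)) (c (b (l 15873360) (l 15886712)) (l 15809112)))) (a (c (b (l 15937424) (a (l 15959760) (l 15938944))) (b (l 15889160) (l 15903928))) (c (a (c (l 15933344) (l 15902992)) (c (l 15945480) (l 15890224))) (l 15955640)))))), by decide +kernel⟩

def k3_pm_202_a : ∃ t, chk3 f_pm_202_a t 3 5 1 = true :=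
  ⟨(a (b (a (l 16358472) (b (l 16206408) (l 16261632))) (a (b (l 16397952) (l 16422552)) (b (l 16308152) (l 16344432)))) (b (a (b (a (l 16104504) (b (l 16061472) (l 16055728))) (l 16136112)) (b (a (a (b (l 15968456) (l 16005792)) (b (b (l 15926136) (l 15942400)) (l 15972464))) (c (b (a (c (l 15953472) (l 15924128)) (l 15928448)) (a (l 15968264) (c (b (l 15957480) (l 15971648)) (l 15932352)))) (b (l 15874688) (l 15900392)))) (a (b (l 16023976) (l 16060136)) (a (b (l 15979216) (l 16015544)) (b (l 15951528) (l 15989912)))))) (a (b (l 16192944) (l 16239952)) (b (a (l 16108384) (b (l 16036312) (l 16070120))) (l 16139312))))), by decide +kernel⟩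

def k4_pm_202_a : ∃ t, chk3 f_pm_202_a t 3 3 1 = true :=
  ⟨(b (b (a (b (a (l 16444544) (l 16376728)) (l 16434104)) (b (a (l 16282672) (l 16192128)) (a (l 16321984) (l 16240328)))) (a (l 16547072) (b (a (l 16348928) (l 16280016)) (a (l 16370560) (l 16308760))))) (a (b (l 16503776) (l 2)) (b (a (l 16407408) (b (l 16336232) (l 16368184))) (l 16443200)))), by decide +kernel⟩

theorem s5_pm_202_a : ∃ t, chk3 f_pm_202_a t 3 4 1 = true := ex3_a k1_pm_202_a k2_pm_202_a

theorem s6_pm_202_a : ∃ t, chk3 f_pm_202_a t 3 2 1 = true := ex3_b s5_pm_202_a k3_pm_202_a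

theorem s7_pm_202_a : ∃ t, chk3 f_pm_202_a t 3 1 1 = true := ex3_b s6_pm_202_a k4_pm_202_a

theorem s8_pm_202_a : ∃ t, chk3 f_pm_202_a t 1 1 1 = true := ex3_a k0_pm_202_a s7_pm_202_a

theorem c_pm_202_a : CertB 0 536870912 1073741824 536870912 740881858 40050571 3 eng mog cd2q2a cd4q2 pd0 false true false .pp 2 0 2
    ndB2q2a ndB4q2 pcB0 Cut.none Ext.none :=
  certB1 (fam := false) (s1 := true) (s2 := false) (a := 2) (b := 0) (c := 2) (cn := .pp) (n1 := ndB2q2a) (n2 := ndB4q2) (pc := pcB0) (cut := Cut.none) (xt := Ext.none) (P1 := 0) (W1 := 536870912) (P2 := 1073741824) (W2 := 536870912) (P3 := 740881858) (W3 := 40050571) (N0 := 3) (En := eng) (mo := mog) (C1 := cd2q2a) (C2 := cd4q2) (C3 := pd0)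
    rfl (fun _ => rfl) s8_pm_202_a

noncomputable def f_pm_202_b : ℕ → ℕ → ℕ → ℕ → Bool := onCell 1239849684 370763052 0 536870912 740881858 40050571
    (rowB 3 eng mog cd2q2b cd4q2 pd0 1 false true false .pp 2 0 2 (qsf 1239849684 370763052 1073741824 536870912 0) ndB2q2b ndB4q2 pcB0 Cut.none Ext.none)

def k0_pm_202_b : ∃ t, chk3 f_pm_202_b t 1 1 1 = true :=
  ⟨(b (a (b (a (b (a (a (a (b (c (b (l 16306768) (l 16336048)) (l 16333536)) (c (l 16375432) (l 16386440))) (b (l 16339688) (l 16389200))) (b (l 16354912) (l 16397760))) (b (l 16367320) (l 16391056))) (a (a (a (b (l 16213544) (l 16453176)) (l 16588352)) (l 16439832)) (l 16383880))) (b (a (l 16454384) (l 16162616)) (a (l 16289792) (l 16214560)))) (a (a (a (b (c (l 16483648) (l 16486320)) (c (l 16517640) (l 16518088))) (b (l 16464544) (l 16497752))) (b (l 16408944) (b (l 16446752) (l 16473904)))) (b (a (l 16345680) (l 16330744)) (b (a (l 16412592) (l 16372928)) (a (l 16438064) (l 2)))))) (b (a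 (b (b (l 16036136) (l 16068312)) (a (l 16163448) (l 16124888))) (b (b (l 15950592) (a (l 16019896) (l 16004864))) (a (b (l 16068368) (l 2)) (l 2)))) (b (a (b (a (l 16234256) (l 16212904)) (a (l 16280232) (l 2))) (l 2)) (l 2)))) (b (a (a (b (a (b (a (l 16538560) (l 16525488)) (a (l 16551456) (l 16544864))) (b (l 16502288) (l 16528376))) (a (a (l 16568288) (l 16572160)) (l 2))) (b (b (a (l 16464024) (l 2)) (l 2)) (l 2))) (l 2)) (l 2))), by decide +kernel⟩

theorem c_pm_202_b : CertB 1239849684 370763052 1073741824 536870912 740881858 40050571 3 eng mog cd2q2b cd4q2 pd0 false true false .pp 2 0 2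
    ndB2q2b ndB4q2 pcB0 Cut.none Ext.none :=
  certB1 (fam := false) (s1 := true) (s2 := false) (a := 2) (b := 0) (c := 2) (cn := .pp) (n1 := ndB2q2b) (n2 := ndB4q2) (pc := pcB0) (cut := Cut.none) (xt := Ext.none) (P1 := 1239849684) (W1 := 370763052) (P2 := 1073741824) (W2 := 536870912) (P3 := 740881858) (W3 := 40050571) (N0 := 3) (En := eng) (mo := mog) (C1 := cd2q2b) (C2 := cd4q2) (C3 := pd0)
    rfl (fun _ => rfl) k0_pm_202_b

noncomputable def f_pm_203_a : ℕ → ℕ → ℕ → ℕ → Bool := onCell 0 536870912 0 1230186008 740881858 40050571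
    (rowB 3 eng mog cd2q2a cd4q3 pd0 0 false true false .up 2 0 3 (qsf 0 536870912 0 1230186008 0) ndB2q2a ndB4q3 pcB0 Cut.none Ext.none)

def k0_pm_203_a : ∃ t, chk3 f_pm_203_a t 1 1 1 = true :=
  ⟨(b (l 2) (b (l 2) (a (b (b (l 2) (a (a (l 205721970279) (l 16627144)) (a (l 16644712) (l 16638368)))) (a (b (a (l 16620512) (l 16621512)) (a (l 16589424) (l 16589992))) (b (l 16611824) (a (l 16582168) (l 16566632))))) (b (l 2) (a (b (l 16572632) (l 16526024)) (b (l 16563096) (l 16476976))))))), by decide +kernel⟩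

theorem c_pm_203_a : CertB 0 536870912 0 1230186008 740881858 40050571 3 eng mog cd2q2a cd4q3 pd0 false true false .up 2 0 3
    ndB2q2a ndB4q3 pcB0 Cut.none Ext.none :=
  certB0 (fam := false) (s1 := true) (s2 := false) (a := 2) (b := 0) (c := 3) (cn := .up) (n1 := ndB2q2a) (n2 := ndB4q3) (pc := pcB0) (cut := Cut.none) (xt := Ext.none) (P1 := 0) (W1 := 536870912) (P2 := 0) (W2 := 1230186008) (P3 := 740881858) (W3 := 40050571) (N0 := 3) (En := eng) (mo := mog) (C1 := cd2q2a) (C2 := cd4q3) (C3 := pd0)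
    rfl k0_pm_203_a

noncomputable def f_pm_203_b : ℕ → ℕ → ℕ → ℕ → Bool := onCell 1239849684 370763052 0 1230186008 740881858 40050571
    (rowB 3 eng mog cd2q2b cd4q3 pd0 0 false true false .up 2 0 3 (qsf 1239849684 370763052 0 1230186008 0) ndB2q2b ndB4q3 pcB0 Cut.none Ext.none)

def k0_pm_203_b : ∃ t, chk3 f_pm_203_b t 1 1 1 = true :=
  ⟨(b (l 3) (b (a (a (a (l 2) (l 3)) (l 3)) (l 3)) (a (b (a (a (b (a (l 2) (l 284104983287)) (a (a (l 208406341351) (l 16636376)) (l 16616992))) (b (b (l 16668920) (l 16650480)) (b (l 16634224) (l 16618008)))) (b (l 3) (a (b (l 16610304) (l 16588544)) (b (l 3) (l 16549408))))) (a (b (a (a (b (l 16621784) (l 16606456)) (l 16594400)) (b (l 16602240) (l 16584688))) (a (a (l 16663144) (l 16574328)) (l 16545120))) (b (a (b (l 16568384) (l 16539760)) (b (l 16516840) (l 16477152))) (b (a (l 16501248) (l 16428384)) (l 16418784))))) (b (a (b (l 3) (a (b (l 3) (l 16502344)) (l 3))) (l 3)) (a (b (a (b (l 16455344) (l 16404528))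 (b (l 16386720) (l 16321096))) (a (b (l 16345848) (l 16284096)) (b (b (l 16271392) (l 16237680)) (l 16196128)))) (b (b (l 3) (a (l 16388600) (l 16222056))) (b (a (b (l 16177064) (l 16143608)) (l 16180328)) (a (l 16094912) (l 15994880))))))))), by decide +kernel⟩

theorem c_pm_203_b : CertB 1239849684 370763052 0 1230186008 740881858 40050571 3 eng mog cd2q2b cd4q3 pd0 false true false .up 2 0 3
    ndB2q2b ndB4q3 pcB0 Cut.none Ext.none :=
  certB0 (fam := false) (s1 := true) (s2 := false) (a := 2) (b := 0) (c := 3) (cn := .up) (n1 := ndB2q2b) (n2 := ndB4q3) (pc := pcB0) (cut := Cut.none) (xt := Ext.none) (P1 := 1239849684) (W1 := 370763052) (P2 := 0) (W2 := 1230186008) (P3 := 740881858) (W3 := 40050571) (N0 := 3) (En := eng) (mo := mog) (C1 := cd2q2b) (C2 := cd4q3) (C3 := pd0)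
    rfl k0_pm_203_b

noncomputable def cut_pm_213_a : Cut := Cut.of [[⟨0, 1, 0, 67108864⟩, ⟨1, 1, 0, 67108864⟩, ⟨2, 2, 0, 16777216⟩]]

noncomputable def f_pm_213_a : ℕ → ℕ → ℕ → ℕ → Bool := onCell 0 536870912 0 1230186008 740881858 40050571
    (rowB 3 eng mog cd2q2a cd4q3 pd1 0 false true false .pnn 2 1 3 (qsf 0 536870912 0 1230186008 1) ndB2q2a ndB4q3 pcB1 cut_pm_213_a Ext.none)

def k0_pm_213_a : ∃ t, chk3 f_pm_213_a t 1 2 1 = true :=
  ⟨(a (b (l 3) (b (l 3) (a (l 3) (b (l 3) (a (l 3) (a (l 232096038695) (l 16787392))))))) (b (a (b (l 3) (a (l 3) (b (l 3) (a (l 3) (l 329806465927))))) (a (b (l 3) (b (a (l 3) (b (l 295446758359) (l 217063662983))) (a (b (l 262160806007) (l 195588828935)) (b (l 16777392) (l 16779888))))) (b (l 6) (b (a (b (l 6) (l 16775832)) (l 16771760)) (a (l 16781368) (l 16779464)))))) (a (b (a (b (l 3) (l 262160841703)) (a (b (l 284172473015) (l 16784056)) (b (b (l 201494285559) (l 16776016)) (l 16787240)))) (a (b (a (l 175724584791)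 (l 16788824)) (b (l 16795120) (l 16805656))) (b (a (l 16797760) (l 16804568)) (l 16820760)))) (b (a (b (a (b (l 16773128) (l 16777664)) (l 16786792)) (a (l 16789528) (l 16803096))) (b (a (l 16793176) (l 16793952)) (a (l 16812368) (l 16816416)))) (b (a (l 16816872) (l 16906240)) (a (l 16839416) (l 16872328))))))), by decide +kernel⟩

def k1_pm_213_a : ∃ t, chk3 f_pm_213_a t 1 3 1 = true :=
  ⟨(b (a (b (a (a (l 3) (b (l 3) (l 297594323127))) (b (a (l 214379312327) (l 123111324103)) (a (l 16774280) (l 16807296)))) (a (b (a (l 250349521975) (l 16802472)) (a (b (l 16707256) (l 16695928)) (l 16720208))) (b (a (l 16769128) (l 16797584)) (a (l 16736272) (l 16753096))))) (b (b (a (a (l 16822904) (l 16846376)) (a (l 16866840) (l 16892064))) (a (a (l 16843152) (l 16870872)) (l 16918544))) (a (b (a (l 16844864) (l 16895968)) (a (l 16777120) (l 16835440))) (a (l 16958744) (l 16957120))))) (a (b (b (a (a (l 16691168) (l 16703128)) (a (l 16709272) (l 16711632)))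 (a (a (b (l 16684768) (l 16680128)) (b (l 16690040) (l 16677712))) (a (l 16678888) (l 16670440)))) (b (a (l 1) (l 16633216)) (l 1))) (b (a (b (l 16731840) (l 16664704)) (b (l 16907480) (l 16748680))) (a (b (l 16596312) (l 1)) (l 16613856))))), by decide +kernel⟩

theorem s2_pm_213_a : ∃ t, chk3 f_pm_213_a t 1 1 1 = true := ex3_b k0_pm_213_a k1_pm_213_a

theorem c_pm_213_a : CertB 0 536870912 0 1230186008 740881858 40050571 3 eng mog cd2q2a cd4q3 pd1 false true false .pnn 2 1 3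
    ndB2q2a ndB4q3 pcB1 cut_pm_213_a Ext.none :=
  certB0 (fam := false) (s1 := true) (s2 := false) (a := 2) (b := 1) (c := 3) (cn := .pnn) (n1 := ndB2q2a) (n2 := ndB4q3) (pc := pcB1) (cut := cut_pm_213_a) (xt := Ext.none) (P1 := 0) (W1 := 536870912) (P2 := 0) (W2 := 1230186008) (P3 := 740881858) (W3 := 40050571) (N0 := 3) (En := eng) (mo := mog) (C1 := cd2q2a) (C2 := cd4q3) (C3 := pd1)
    rfl s2_pm_213_a

noncomputable def cut_pm_213_b : Cut := Cut.of [[⟨0, 1, 0, 67108864⟩, ⟨1, 1, 0, 67108864⟩, ⟨2, 2, 0, 16777216⟩]]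

noncomputable def f_pm_213_b : ℕ → ℕ → ℕ → ℕ → Bool := onCell 1239849684 370763052 0 1230186008 740881858 40050571
    (rowB 3 eng mog cd2q2b cd4q3 pd1 0 false true false .pnn 2 1 3 (qsf 1239849684 370763052 0 1230186008 1) ndB2q2b ndB4q3 pcB1 cut_pm_213_b Ext.none)

def k0_pm_213_b : ∃ t, chk3 f_pm_213_b t 1 1 1 = true :=
  ⟨(b (l 3) (b (a (a (b (l 3) (b (l 3) (a (a (a (a (b (l 3) (l 16683192)) (l 16689848)) (l 16685088)) (l 3)) (l 3)))) (l 3)) (l 3)) (a (b (a (b (a (a (a (a (l 16680120) (l 16675168)) (l 16626936)) (b (l 16647192) (l 16645768))) (b (l 16668048) (l 16652016))) (a (a (a (b (l 16677328) (l 16674904)) (l 16670912)) (b (l 16654608) (l 1))) (l 1))) (l 1)) (l 1)) (l 1)))), by decide +kernel⟩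

theorem c_pm_213_b : CertB 1239849684 370763052 0 1230186008 740881858 40050571 3 eng mog cd2q2b cd4q3 pd1 false true false .pnn 2 1 3
    ndB2q2b ndB4q3 pcB1 cut_pm_213_b Ext.none :=
  certB0 (fam := false) (s1 := true) (s2 := false) (a := 2) (b := 1) (c := 3) (cn := .pnn) (n1 := ndB2q2b) (n2 := ndB4q3) (pc := pcB1) (cut := cut_pm_213_b) (xt := Ext.none) (P1 := 1239849684) (W1 := 370763052) (P2 := 0) (W2 := 1230186008) (P3 := 740881858) (W3 := 40050571) (N0 := 3) (En := eng) (mo := mog) (C1 := cd2q2b) (C2 := cd4q3) (C3 := pd1)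
    rfl k0_pm_213_b

noncomputable def f_pm_303 : ℕ → ℕ → ℕ → ℕ → Bool := onCell 1610612736 536870912 0 1230186008 740881858 40050571
    (rowB 3 eng mog cd2q3 cd4q3 pd0 0 false true false .npn 3 0 3 (qsf 1610612736 536870912 0 1230186008 0) ndB2q3 ndB4q3 pcB0 Cut.none Ext.none)

def k0_pm_303 : ∃ t, chk3 f_pm_303 t 1 1 1 = true :=
  ⟨(b (l 3) (b (l 3) (a (b (l 3) (a (b (a (l 3) (l 3)) (a (b (a (l 15968352) (l 15894200)) (a (l 15893096) (l 15835808))) (b (a (l 95729391031) (l 1)) (l 1)))) (b (l 3) (l 1)))) (l 1)))), by decide +kernel⟩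

theorem c_pm_303 : CertB 1610612736 536870912 0 1230186008 740881858 40050571 3 eng mog cd2q3 cd4q3 pd0 false true false .npn 3 0 3
    ndB2q3 ndB4q3 pcB0 Cut.none Ext.none :=
  certB0 (fam := false) (s1 := true) (s2 := false) (a := 3) (b := 0) (c := 3) (cn := .npn) (n1 := ndB2q3) (n2 := ndB4q3) (pc := pcB0) (cut := Cut.none) (xt := Ext.none) (P1 := 1610612736) (W1 := 536870912) (P2 := 0) (W2 := 1230186008) (P3 := 740881858) (W3 := 40050571) (N0 := 3) (En := eng) (mo := mog) (C1 := cd2q3) (C2 := cd4q3) (C3 := pd0)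
    rfl k0_pm_303

noncomputable def f_pm_313 : ℕ → ℕ → ℕ → ℕ → Bool := onCell 1610612736 536870912 0 1230186008 740881858 40050571
    (rowB 3 eng mog cd2q3 cd4q3 pd1 0 false true false .dn 3 1 3 (qsf 1610612736 536870912 0 1230186008 1) ndB2q3 ndB4q3 pcB1 Cut.none Ext.none)

def k0_pm_313 : ∃ t, chk3 f_pm_313 t 1 1 1 = true :=
  ⟨(b (l 3) (l 1)), by decide +kernel⟩

theorem c_pm_313 : CertB 1610612736 536870912 0 1230186008 740881858 40050571 3 eng mog cd2q3 cd4q3 pd1 false true false .dn 3 1 3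
    ndB2q3 ndB4q3 pcB1 Cut.none Ext.none :=
  certB0 (fam := false) (s1 := true) (s2 := false) (a := 3) (b := 1) (c := 3) (cn := .dn) (n1 := ndB2q3) (n2 := ndB4q3) (pc := pcB1) (cut := Cut.none) (xt := Ext.none) (P1 := 1610612736) (W1 := 536870912) (P2 := 0) (W2 := 1230186008) (P3 := 740881858) (W3 := 40050571) (N0 := 3) (En := eng) (mo := mog) (C1 := cd2q3) (C2 := cd4q3) (C3 := pd1)
    rfl k0_pm_313

noncomputable def f_mm_001 : ℕ → ℕ → ℕ → ℕ → Bool := onCell 0 536870912 0 536870912 740881858 40050571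
    (rowB 3 eng mog cd2q0 cd4q1 pd0 1 false false false .up 0 0 1 (qsf 0 536870912 536870912 536870912 0) ndB2q0 ndB4q1 pcB0 Cut.none Ext.none)

def k0_mm_001 : ∃ t, chk3 f_mm_001 t 1 1 1 = true :=
  ⟨(l 3), by decide +kernel⟩

theorem c_mm_001 : CertB 0 536870912 536870912 536870912 740881858 40050571 3 eng mog cd2q0 cd4q1 pd0 false false false .up 0 0 1
    ndB2q0 ndB4q1 pcB0 Cut.none Ext.none :=
  certB1 (fam := false) (s1 := false) (s2 := false) (a := 0) (b := 0) (c := 1) (cn := .up) (n1 := ndB2q0) (n2 := ndB4q1) (pc := pcB0) (cut := Cut.none) (xt := Ext.none) (P1 := 0) (W1 := 536870912) (P2 := 536870912) (W2 := 536870912) (P3 := 740881858) (W3 := 40050571) (N0 := 3) (En := eng) (mo := mog) (C1 := cd2q0) (C2 := cd4q1) (C3 := pd0)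
    rfl (fun _ => rfl) k0_mm_001

noncomputable def f_mm_011 : ℕ → ℕ → ℕ → ℕ → Bool := onCell 0 536870912 536870912 536870912 740881858 40050571
    (rowB 3 eng mog cd2q0 cd4q1 pd1 1 false false false .pnn 0 1 1 (qsf 0 536870912 536870912 536870912 1) ndB2q0 ndB4q1 pcB1 Cut.none Ext.none)

def k0_mm_011 : ∃ t, chk3 f_mm_011 t 1 1 1 = true :=
  ⟨(l 5), by decide +kernel⟩

theorem c_mm_011 : CertB 0 536870912 536870912 536870912 740881858 40050571 3 eng mog cd2q0 cd4q1 pd1 false false false .pnn 0 1 1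
    ndB2q0 ndB4q1 pcB1 Cut.none Ext.none :=
  certB1 (fam := false) (s1 := false) (s2 := false) (a := 0) (b := 1) (c := 1) (cn := .pnn) (n1 := ndB2q0) (n2 := ndB4q1) (pc := pcB1) (cut := Cut.none) (xt := Ext.none) (P1 := 0) (W1 := 536870912) (P2 := 536870912) (W2 := 536870912) (P3 := 740881858) (W3 := 40050571) (N0 := 3) (En := eng) (mo := mog) (C1 := cd2q0) (C2 := cd4q1) (C3 := pd1)
    rfl (fun _ => rfl) k0_mm_011

noncomputable def f_mm_012 : ℕ → ℕ → ℕ → ℕ → Bool := onCell 0 536870912 1073741824 536870912 740881858 40050571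
    (rowB 3 eng mog cd2q0 cd4q2 pd1 0 false false false .pnp 0 1 2 (qsf 0 536870912 1073741824 536870912 1) ndB2q0 ndB4q2 pcB1 Cut.none Ext.none)

def k0_mm_012 : ∃ t, chk3 f_mm_012 t 1 1 1 = true :=
  ⟨(l 5), by decide +kernel⟩

theorem c_mm_012 : CertB 0 536870912 1073741824 536870912 740881858 40050571 3 eng mog cd2q0 cd4q2 pd1 false false false .pnp 0 1 2
    ndB2q0 ndB4q2 pcB1 Cut.none Ext.none :=
  certB0 (fam := false) (s1 := false) (s2 := false) (a := 0) (b := 1) (c := 2) (cn := .pnp) (n1 := ndB2q0) (n2 := ndB4q2) (pc := pcB1) (cut := Cut.none) (xt := Ext.none) (P1 := 0) (W1 := 536870912) (P2 := 1073741824) (W2 := 536870912) (P3 := 740881858) (W3 := 40050571) (N0 := 3) (En := eng) (mo := mog) (C1 := cd2q0) (C2 := cd4q2) (C3 := pd1)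
    rfl k0_mm_012

noncomputable def f_mm_022 : ℕ → ℕ → ℕ → ℕ → Bool := onCell 0 536870912 1073741824 536870912 740881858 40050571
    (rowB 3 eng mog cd2q0 cd4q2 pd2 0 false false false .pp 0 2 2 (qsf 0 536870912 1073741824 536870912 2) ndB2q0 ndB4q2 pcB2 Cut.none Ext.none)

def k0_mm_022 : ∃ t, chk3 f_mm_022 t 1 1 1 = true :=
  ⟨(l 5), by decide +kernel⟩

theorem c_mm_022 : CertB 0 536870912 1073741824 536870912 740881858 40050571 3 eng mog cd2q0 cd4q2 pd2 false false false .pp 0 2 2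
    ndB2q0 ndB4q2 pcB2 Cut.none Ext.none :=
  certB0 (fam := false) (s1 := false) (s2 := false) (a := 0) (b := 2) (c := 2) (cn := .pp) (n1 := ndB2q0) (n2 := ndB4q2) (pc := pcB2) (cut := Cut.none) (xt := Ext.none) (P1 := 0) (W1 := 536870912) (P2 := 1073741824) (W2 := 536870912) (P3 := 740881858) (W3 := 40050571) (N0 := 3) (En := eng) (mo := mog) (C1 := cd2q0) (C2 := cd4q2) (C3 := pd2)
    rfl k0_mm_022

noncomputable def f_mm_023 : ℕ → ℕ → ℕ → ℕ → Bool := onCell 0 536870912 0 1230186008 740881858 40050571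
    (rowB 3 eng mog cd2q0 cd4q3 pd2 0 false false false .up 0 2 3 (qsf 0 536870912 0 1230186008 2) ndB2q0 ndB4q3 pcB2 Cut.none Ext.none)

def k0_mm_023 : ∃ t, chk3 f_mm_023 t 1 1 1 = true :=
  ⟨(l 5), by decide +kernel⟩

theorem c_mm_023 : CertB 0 536870912 0 1230186008 740881858 40050571 3 eng mog cd2q0 cd4q3 pd2 false false false .up 0 2 3
    ndB2q0 ndB4q3 pcB2 Cut.none Ext.none :=
  certB0 (fam := false) (s1 := false) (s2 := false) (a := 0) (b := 2) (c := 3) (cn := .up) (n1 := ndB2q0) (n2 := ndB4q3) (pc := pcB2) (cut := Cut.none) (xt := Ext.none) (P1 := 0) (W1 := 536870912) (P2 := 0) (W2 := 1230186008) (P3 := 740881858) (W3 := 40050571) (N0 := 3) (En := eng) (mo := mog) (C1 := cd2q0) (C2 := cd4q3) (C3 := pd2)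
    rfl k0_mm_023

noncomputable def f_mm_033 : ℕ → ℕ → ℕ → ℕ → Bool := onCell 0 536870912 0 1230186008 740881858 40050571
    (rowB 3 eng mog cd2q0 cd4q3 pd3 0 false false false .pnn 0 3 3 (qsf 0 536870912 0 1230186008 3) ndB2q0 ndB4q3 pcB3 Cut.none Ext.none)

def k0_mm_033 : ∃ t, chk3 f_mm_033 t 1 1 1 = true :=
  ⟨(l 5), by decide +kernel⟩

theorem c_mm_033 : CertB 0 536870912 0 1230186008 740881858 40050571 3 eng mog cd2q0 cd4q3 pd3 false false false .pnn 0 3 3
    ndB2q0 ndB4q3 pcB3 Cut.none Ext.none :=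
  certB0 (fam := false) (s1 := false) (s2 := false) (a := 0) (b := 3) (c := 3) (cn := .pnn) (n1 := ndB2q0) (n2 := ndB4q3) (pc := pcB3) (cut := Cut.none) (xt := Ext.none) (P1 := 0) (W1 := 536870912) (P2 := 0) (W2 := 1230186008) (P3 := 740881858) (W3 := 40050571) (N0 := 3) (En := eng) (mo := mog) (C1 := cd2q0) (C2 := cd4q3) (C3 := pd3)
    rfl k0_mm_033

noncomputable def f_mm_101 : ℕ → ℕ → ℕ → ℕ → Bool := onCell 536870912 536870912 536870912 536870912 740881858 40050571
    (rowB 3 eng mog cd2q1 cd4q1 pd0 0 false false false .npn 1 0 1 (qsf 536870912 536870912 536870912 536870912 0) ndB2q1 ndB4q1 pcB0 Cut.none Ext.none)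

def k0_mm_101 : ∃ t, chk3 f_mm_101 t 1 1 1 = true :=
  ⟨(l 3), by decide +kernel⟩

theorem c_mm_101 : CertB 536870912 536870912 536870912 536870912 740881858 40050571 3 eng mog cd2q1 cd4q1 pd0 false false false .npn 1 0 1
    ndB2q1 ndB4q1 pcB0 Cut.none Ext.none :=
  certB0 (fam := false) (s1 := false) (s2 := false) (a := 1) (b := 0) (c := 1) (cn := .npn) (n1 := ndB2q1) (n2 := ndB4q1) (pc := pcB0) (cut := Cut.none) (xt := Ext.none) (P1 := 536870912) (W1 := 536870912) (P2 := 536870912) (W2 := 536870912) (P3 := 740881858) (W3 := 40050571) (N0 := 3) (En := eng) (mo := mog) (C1 := cd2q1) (C2 := cd4q1) (C3 := pd0)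
    rfl k0_mm_101

noncomputable def f_mm_102 : ℕ → ℕ → ℕ → ℕ → Bool := onCell 536870912 536870912 1073741824 536870912 740881858 40050571
    (rowB 3 eng mog cd2q1 cd4q2 pd0 0 false false false .npp 1 0 2 (qsf 536870912 536870912 1073741824 536870912 0) ndB2q1 ndB4q2 pcB0 Cut.none Ext.none)

def k0_mm_102 : ∃ t, chk3 f_mm_102 t 1 1 1 = true :=
  ⟨(l 3), by decide +kernel⟩

theorem c_mm_102 : CertB 536870912 536870912 1073741824 536870912 740881858 40050571 3 eng mog cd2q1 cd4q2 pd0 false false false .npp 1 0 2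
    ndB2q1 ndB4q2 pcB0 Cut.none Ext.none :=
  certB0 (fam := false) (s1 := false) (s2 := false) (a := 1) (b := 0) (c := 2) (cn := .npp) (n1 := ndB2q1) (n2 := ndB4q2) (pc := pcB0) (cut := Cut.none) (xt := Ext.none) (P1 := 536870912) (W1 := 536870912) (P2 := 1073741824) (W2 := 536870912) (P3 := 740881858) (W3 := 40050571) (N0 := 3) (En := eng) (mo := mog) (C1 := cd2q1) (C2 := cd4q2) (C3 := pd0)
    rfl k0_mm_102

noncomputable def f_mm_112 : ℕ → ℕ → ℕ → ℕ → Bool := onCell 536870912 536870912 1073741824 536870912 740881858 40050571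
    (rowB 3 eng mog cd2q1 cd4q2 pd1 0 false false false .dn 1 1 2 (qsf 536870912 536870912 1073741824 536870912 1) ndB2q1 ndB4q2 pcB1 Cut.none Ext.none)

def k0_mm_112 : ∃ t, chk3 f_mm_112 t 1 1 1 = true :=
  ⟨(l 3), by decide +kernel⟩

theorem c_mm_112 : CertB 536870912 536870912 1073741824 536870912 740881858 40050571 3 eng mog cd2q1 cd4q2 pd1 false false false .dn 1 1 2
    ndB2q1 ndB4q2 pcB1 Cut.none Ext.none :=
  certB0 (fam := false) (s1 := false) (s2 := false) (a := 1) (b := 1) (c := 2) (cn := .dn) (n1 := ndB2q1) (n2 := ndB4q2) (pc := pcB1) (cut := Cut.none) (xt := Ext.none) (P1 := 536870912) (W1 := 536870912) (P2 := 1073741824) (W2 := 536870912) (P3 := 740881858) (W3 := 40050571) (N0 := 3) (En := eng) (mo := mog) (C1 := cd2q1) (C2 := cd4q2) (C3 := pd1)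
    rfl k0_mm_112

noncomputable def f_mm_113 : ℕ → ℕ → ℕ → ℕ → Bool := onCell 536870912 536870912 0 1230186008 740881858 40050571
    (rowB 3 eng mog cd2q1 cd4q3 pd1 0 false false false .nn 1 1 3 (qsf 536870912 536870912 0 1230186008 1) ndB2q1 ndB4q3 pcB1 Cut.none Ext.none)

def k0_mm_113 : ∃ t, chk3 f_mm_113 t 1 1 1 = true :=
  ⟨(l 5), by decide +kernel⟩

theorem c_mm_113 : CertB 536870912 536870912 0 1230186008 740881858 40050571 3 eng mog cd2q1 cd4q3 pd1 false false false .nn 1 1 3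
    ndB2q1 ndB4q3 pcB1 Cut.none Ext.none :=
  certB0 (fam := false) (s1 := false) (s2 := false) (a := 1) (b := 1) (c := 3) (cn := .nn) (n1 := ndB2q1) (n2 := ndB4q3) (pc := pcB1) (cut := Cut.none) (xt := Ext.none) (P1 := 536870912) (W1 := 536870912) (P2 := 0) (W2 := 1230186008) (P3 := 740881858) (W3 := 40050571) (N0 := 3) (En := eng) (mo := mog) (C1 := cd2q1) (C2 := cd4q3) (C3 := pd1)
    rfl k0_mm_113

noncomputable def f_mm_123 : ℕ → ℕ → ℕ → ℕ → Bool := onCell 536870912 536870912 0 1230186008 740881858 40050571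
    (rowB 3 eng mog cd2q1 cd4q3 pd2 0 false false false .npn 1 2 3 (qsf 536870912 536870912 0 1230186008 2) ndB2q1 ndB4q3 pcB2 Cut.none Ext.none)

def k0_mm_123 : ∃ t, chk3 f_mm_123 t 1 1 1 = true :=
  ⟨(l 5), by decide +kernel⟩

theorem c_mm_123 : CertB 536870912 536870912 0 1230186008 740881858 40050571 3 eng mog cd2q1 cd4q3 pd2 false false false .npn 1 2 3
    ndB2q1 ndB4q3 pcB2 Cut.none Ext.none :=
  certB0 (fam := false) (s1 := false) (s2 := false) (a := 1) (b := 2) (c := 3) (cn := .npn) (n1 := ndB2q1) (n2 := ndB4q3) (pc := pcB2) (cut := Cut.none) (xt := Ext.none) (P1 := 536870912) (W1 := 536870912) (P2 := 0) (W2 := 1230186008) (P3 := 740881858) (W3 := 40050571) (N0 := 3) (En := eng) (mo := mog) (C1 := cd2q1) (C2 := cd4q3) (C3 := pd2)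
    rfl k0_mm_123

noncomputable def f_mm_133 : ℕ → ℕ → ℕ → ℕ → Bool := onCell 536870912 536870912 0 1230186008 740881858 40050571
    (rowB 3 eng mog cd2q1 cd4q3 pd3 0 false false false .dn 1 3 3 (qsf 536870912 536870912 0 1230186008 3) ndB2q1 ndB4q3 pcB3 Cut.none Ext.none)

def k0_mm_133 : ∃ t, chk3 f_mm_133 t 1 1 1 = true :=
  ⟨(l 5), by decide +kernel⟩

theorem c_mm_133 : CertB 536870912 536870912 0 1230186008 740881858 40050571 3 eng mog cd2q1 cd4q3 pd3 false false false .dn 1 3 3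
    ndB2q1 ndB4q3 pcB3 Cut.none Ext.none :=
  certB0 (fam := false) (s1 := false) (s2 := false) (a := 1) (b := 3) (c := 3) (cn := .dn) (n1 := ndB2q1) (n2 := ndB4q3) (pc := pcB3) (cut := Cut.none) (xt := Ext.none) (P1 := 536870912) (W1 := 536870912) (P2 := 0) (W2 := 1230186008) (P3 := 740881858) (W3 := 40050571) (N0 := 3) (En := eng) (mo := mog) (C1 := cd2q1) (C2 := cd4q3) (C3 := pd3)
    rfl k0_mm_133

noncomputable def f_mm_202_a : ℕ → ℕ → ℕ → ℕ → Bool := onCell 0 536870912 1073741824 536870912 740881858 40050571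
    (rowB 3 eng mog cd2q2a cd4q2 pd0 0 false false false .pp 2 0 2 (qsf 0 536870912 1073741824 536870912 0) ndB2q2a ndB4q2 pcB0 Cut.none Ext.none)

def k0_mm_202_a : ∃ t, chk3 f_mm_202_a t 1 1 1 = true :=
  ⟨(l 3), by decide +kernel⟩

theorem c_mm_202_a : CertB 0 536870912 1073741824 536870912 740881858 40050571 3 eng mog cd2q2a cd4q2 pd0 false false false .pp 2 0 2
    ndB2q2a ndB4q2 pcB0 Cut.none Ext.none :=
  certB0 (fam := false) (s1 := false) (s2 := false) (a := 2) (b := 0) (c := 2) (cn := .pp) (n1 := ndB2q2a) (n2 := ndB4q2) (pc := pcB0) (cut := Cut.none) (xt := Ext.none) (P1 := 0) (W1 := 536870912) (P2 := 1073741824) (W2 := 536870912) (P3 := 740881858) (W3 := 40050571) (N0 := 3) (En := eng) (mo := mog) (C1 := cd2q2a) (C2 := cd4q2) (C3 := pd0)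
    rfl k0_mm_202_a

noncomputable def f_mm_202_b : ℕ → ℕ → ℕ → ℕ → Bool := onCell 1239849684 370763052 1073741824 536870912 740881858 40050571
    (rowB 3 eng mog cd2q2b cd4q2 pd0 0 false false false .pp 2 0 2 (qsf 1239849684 370763052 1073741824 536870912 0) ndB2q2b ndB4q2 pcB0 Cut.none Ext.none)

def k0_mm_202_b : ∃ t, chk3 f_mm_202_b t 1 1 1 = true :=
  ⟨(b (a (l 3) (l 1)) (l 3)), by decide +kernel⟩

theorem c_mm_202_b : CertB 1239849684 370763052 1073741824 536870912 740881858 40050571 3 eng mog cd2q2b cd4q2 pd0 false false false .pp 2 0 2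
    ndB2q2b ndB4q2 pcB0 Cut.none Ext.none :=
  certB0 (fam := false) (s1 := false) (s2 := false) (a := 2) (b := 0) (c := 2) (cn := .pp) (n1 := ndB2q2b) (n2 := ndB4q2) (pc := pcB0) (cut := Cut.none) (xt := Ext.none) (P1 := 1239849684) (W1 := 370763052) (P2 := 1073741824) (W2 := 536870912) (P3 := 740881858) (W3 := 40050571) (N0 := 3) (En := eng) (mo := mog) (C1 := cd2q2b) (C2 := cd4q2) (C3 := pd0)
    rfl k0_mm_202_b

noncomputable def f_mm_203_a : ℕ → ℕ → ℕ → ℕ → Bool := onCell 0 536870912 0 1230186008 740881858 40050571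
    (rowB 3 eng mog cd2q2a cd4q3 pd0 0 false false false .up 2 0 3 (qsf 0 536870912 0 1230186008 0) ndB2q2a ndB4q3 pcB0 Cut.none Ext.none)

def k0_mm_203_a : ∃ t, chk3 f_mm_203_a t 1 1 1 = true :=
  ⟨(b (l 2) (l 3)), by decide +kernel⟩

theorem c_mm_203_a : CertB 0 536870912 0 1230186008 740881858 40050571 3 eng mog cd2q2a cd4q3 pd0 false false false .up 2 0 3
    ndB2q2a ndB4q3 pcB0 Cut.none Ext.none :=
  certB0 (fam := false) (s1 := false) (s2 := false) (a := 2) (b := 0) (c := 3) (cn := .up) (n1 := ndB2q2a) (n2 := ndB4q3) (pc := pcB0) (cut := Cut.none) (xt := Ext.none) (P1 := 0) (W1 := 536870912) (P2 := 0) (W2 := 1230186008) (P3 := 740881858) (W3 := 40050571) (N0 := 3) (En := eng) (mo := mog) (C1 := cd2q2a) (C2 := cd4q3) (C3 := pd0)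
    rfl k0_mm_203_a

noncomputable def f_mm_203_b : ℕ → ℕ → ℕ → ℕ → Bool := onCell 1239849684 370763052 0 1230186008 740881858 40050571
    (rowB 3 eng mog cd2q2b cd4q3 pd0 0 false false false .up 2 0 3 (qsf 1239849684 370763052 0 1230186008 0) ndB2q2b ndB4q3 pcB0 Cut.none Ext.none)

def k0_mm_203_b : ∃ t, chk3 f_mm_203_b t 1 1 1 = true :=
  ⟨(b (l 3) (l 3)), by decide +kernel⟩

theorem c_mm_203_b : CertB 1239849684 370763052 0 1230186008 740881858 40050571 3 eng mog cd2q2b cd4q3 pd0 false false false .up 2 0 3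
    ndB2q2b ndB4q3 pcB0 Cut.none Ext.none :=
  certB0 (fam := false) (s1 := false) (s2 := false) (a := 2) (b := 0) (c := 3) (cn := .up) (n1 := ndB2q2b) (n2 := ndB4q3) (pc := pcB0) (cut := Cut.none) (xt := Ext.none) (P1 := 1239849684) (W1 := 370763052) (P2 := 0) (W2 := 1230186008) (P3 := 740881858) (W3 := 40050571) (N0 := 3) (En := eng) (mo := mog) (C1 := cd2q2b) (C2 := cd4q3) (C3 := pd0)
    rfl k0_mm_203_b

noncomputable def f_mm_213_a : ℕ → ℕ → ℕ → ℕ → Bool := onCell 0 536870912 0 1230186008 740881858 40050571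
    (rowB 3 eng mog cd2q2a cd4q3 pd1 0 false false false .pnn 2 1 3 (qsf 0 536870912 0 1230186008 1) ndB2q2a ndB4q3 pcB1 Cut.none Ext.none)

def k0_mm_213_a : ∃ t, chk3 f_mm_213_a t 1 1 1 = true :=
  ⟨(b (a (l 3) (l 5)) (l 3)), by decide +kernel⟩

theorem c_mm_213_a : CertB 0 536870912 0 1230186008 740881858 40050571 3 eng mog cd2q2a cd4q3 pd1 false false false .pnn 2 1 3
    ndB2q2a ndB4q3 pcB1 Cut.none Ext.none :=
  certB0 (fam := false) (s1 := false) (s2 := false) (a := 2) (b := 1) (c := 3) (cn := .pnn) (n1 := ndB2q2a) (n2 := ndB4q3) (pc := pcB1) (cut := Cut.none) (xt := Ext.none) (P1 := 0) (W1 := 536870912) (P2 := 0) (W2 := 1230186008) (P3 := 740881858) (W3 := 40050571) (N0 := 3) (En := eng) (mo := mog) (C1 := cd2q2a) (C2 := cd4q3) (C3 := pd1)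
    rfl k0_mm_213_a

noncomputable def f_mm_213_b : ℕ → ℕ → ℕ → ℕ → Bool := onCell 1239849684 370763052 0 1230186008 740881858 40050571
    (rowB 3 eng mog cd2q2b cd4q3 pd1 0 false false false .pnn 2 1 3 (qsf 1239849684 370763052 0 1230186008 1) ndB2q2b ndB4q3 pcB1 Cut.none Ext.none)

def k0_mm_213_b : ∃ t, chk3 f_mm_213_b t 1 1 1 = true :=
  ⟨(b (l 3) (l 3)), by decide +kernel⟩

theorem c_mm_213_b : CertB 1239849684 370763052 0 1230186008 740881858 40050571 3 eng mog cd2q2b cd4q3 pd1 false false false .pnn 2 1 3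
    ndB2q2b ndB4q3 pcB1 Cut.none Ext.none :=
  certB0 (fam := false) (s1 := false) (s2 := false) (a := 2) (b := 1) (c := 3) (cn := .pnn) (n1 := ndB2q2b) (n2 := ndB4q3) (pc := pcB1) (cut := Cut.none) (xt := Ext.none) (P1 := 1239849684) (W1 := 370763052) (P2 := 0) (W2 := 1230186008) (P3 := 740881858) (W3 := 40050571) (N0 := 3) (En := eng) (mo := mog) (C1 := cd2q2b) (C2 := cd4q3) (C3 := pd1)
    rfl k0_mm_213_b

noncomputable def f_mm_303 : ℕ → ℕ → ℕ → ℕ → Bool := onCell 0 536870912 0 1230186008 740881858 40050571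
    (rowB 3 eng mog cd2q3 cd4q3 pd0 2 false false false .npn 3 0 3 (qsf 1610612736 536870912 0 1230186008 0) ndB2q3 ndB4q3 pcB0 Cut.none Ext.none)

def k0_mm_303 : ∃ t, chk3 f_mm_303 t 1 1 1 = true :=
  ⟨(b (l 3) (l 3)), by decide +kernel⟩

theorem c_mm_303 : CertB 1610612736 536870912 0 1230186008 740881858 40050571 3 eng mog cd2q3 cd4q3 pd0 false false false .npn 3 0 3
    ndB2q3 ndB4q3 pcB0 Cut.none Ext.none :=
  certB2 (fam := false) (s1 := false) (s2 := false) (a := 3) (b := 0) (c := 3) (cn := .npn) (n1 := ndB2q3) (n2 := ndB4q3) (pc := pcB0) (cut := Cut.none) (xt := Ext.none) (P1 := 1610612736) (W1 := 536870912) (P2 := 0) (W2 := 1230186008) (P3 := 740881858) (W3 := 40050571) (N0 := 3) (En := eng) (mo := mog) (C1 := cd2q3) (C2 := cd4q3) (C3 := pd0)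
    rfl (fun _ => rfl) k0_mm_303

noncomputable def f_mm_313 : ℕ → ℕ → ℕ → ℕ → Bool := onCell 1610612736 536870912 0 1230186008 740881858 40050571
    (rowB 3 eng mog cd2q3 cd4q3 pd1 0 false false false .dn 3 1 3 (qsf 1610612736 536870912 0 1230186008 1) ndB2q3 ndB4q3 pcB1 Cut.none Ext.none)

def k0_mm_313 : ∃ t, chk3 f_mm_313 t 1 1 1 = true :=
  ⟨(b (l 3) (l 1)), by decide +kernel⟩

theorem c_mm_313 : CertB 1610612736 536870912 0 1230186008 740881858 40050571 3 eng mog cd2q3 cd4q3 pd1 false false false .dn 3 1 3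
    ndB2q3 ndB4q3 pcB1 Cut.none Ext.none :=
  certB0 (fam := false) (s1 := false) (s2 := false) (a := 3) (b := 1) (c := 3) (cn := .dn) (n1 := ndB2q3) (n2 := ndB4q3) (pc := pcB1) (cut := Cut.none) (xt := Ext.none) (P1 := 1610612736) (W1 := 536870912) (P2 := 0) (W2 := 1230186008) (P3 := 740881858) (W3 := 40050571) (N0 := 3) (En := eng) (mo := mog) (C1 := cd2q3) (C2 := cd4q3) (C3 := pd1)
    rfl k0_mm_313

end Pool.Agent.Strip051.G.I69_7273.Tab.C.BB24

namespace Pool.Agent.Strip051.G.I69_7273.Tab.C.BB25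

open Pool.Agent.Strip051.PB Pool.Agent.Strip051.PB.T
open Pool.Agent.Strip051.G.I69_7273.Tab

noncomputable def f_pp_001 : ℕ → ℕ → ℕ → ℕ → Bool := onCell 0 536870912 0 536870912 740881858 40050571
    (rowB 3 eng mog cd2q0 cd5q1 pd0 1 false true true .up 0 0 1 (qsf 0 536870912 536870912 536870912 0) ndB2q0 ndB5q1 pcB0 Cut.none Ext.none)

def k0_pp_001 : ∃ t, chk3 f_pp_001 t 1 1 1 = true :=
  ⟨(l 3), by decide +kernel⟩

theorem c_pp_001 : CertB 0 536870912 536870912 536870912 740881858 40050571 3 eng mog cd2q0 cd5q1 pd0 false true true .up 0 0 1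
    ndB2q0 ndB5q1 pcB0 Cut.none Ext.none :=
  certB1 (fam := false) (s1 := true) (s2 := true) (a := 0) (b := 0) (c := 1) (cn := .up) (n1 := ndB2q0) (n2 := ndB5q1) (pc := pcB0) (cut := Cut.none) (xt := Ext.none) (P1 := 0) (W1 := 536870912) (P2 := 536870912) (W2 := 536870912) (P3 := 740881858) (W3 := 40050571) (N0 := 3) (En := eng) (mo := mog) (C1 := cd2q0) (C2 := cd5q1) (C3 := pd0)
    rfl (fun _ => rfl) k0_pp_001

noncomputable def cut_pp_011 : Cut := Cut.of [[⟨0, 0, 0, 67108864⟩, ⟨1, 1, 0, 67108864⟩, ⟨2, 1, 0, 67108864⟩]]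

noncomputable def f_pp_011 : ℕ → ℕ → ℕ → ℕ → Bool := onCell 0 536870912 536870912 536870912 740881858 40050571
    (rowB 3 eng mog cd2q0 cd5q1 pd1 1 false true true .pnn 0 1 1 (qsf 0 536870912 536870912 536870912 1) ndB2q0 ndB5q1 pcB1 cut_pp_011 Ext.none)

def k0_pp_011 : ∃ t, chk3 f_pp_011 t 1 1 1 = true :=
  ⟨(b (l 3) (b (l 3) (a (b (l 3) (a (a (b (l 3) (a (l 6) (l 3))) (l 3)) (l 2))) (l 2)))), by decide +kernel⟩

theorem c_pp_011 : CertB 0 536870912 536870912 536870912 740881858 40050571 3 eng mog cd2q0 cd5q1 pd1 false true true .pnn 0 1 1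
    ndB2q0 ndB5q1 pcB1 cut_pp_011 Ext.none :=
  certB1 (fam := false) (s1 := true) (s2 := true) (a := 0) (b := 1) (c := 1) (cn := .pnn) (n1 := ndB2q0) (n2 := ndB5q1) (pc := pcB1) (cut := cut_pp_011) (xt := Ext.none) (P1 := 0) (W1 := 536870912) (P2 := 536870912) (W2 := 536870912) (P3 := 740881858) (W3 := 40050571) (N0 := 3) (En := eng) (mo := mog) (C1 := cd2q0) (C2 := cd5q1) (C3 := pd1)
    rfl (fun _ => rfl) k0_pp_011

noncomputable def cut_pp_012 : Cut := Cut.of [[⟨0, 0, 0, 67108864⟩, ⟨1, 1, 0, 67108864⟩, ⟨2, 1, 0, 67108864⟩]]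

noncomputable def f_pp_012 : ℕ → ℕ → ℕ → ℕ → Bool := onCell 0 536870912 536870912 536870912 740881858 40050571
    (rowB 3 eng mog cd2q0 cd5q2 pd1 1 false true true .pnp 0 1 2 (qsf 0 536870912 1073741824 536870912 1) ndB2q0 ndB5q2 pcB1 cut_pp_012 Ext.none)

def k0_pp_012 : ∃ t, chk3 f_pp_012 t 1 1 1 = true :=
  ⟨(b (l 3) (b (l 3) (a (a (a (a (b (l 1) (b (l 3) (l 6))) (l 3)) (l 3)) (l 3)) (l 3)))), by decide +kernel⟩

theorem c_pp_012 : CertB 0 536870912 1073741824 536870912 740881858 40050571 3 eng mog cd2q0 cd5q2 pd1 false true true .pnp 0 1 2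
    ndB2q0 ndB5q2 pcB1 cut_pp_012 Ext.none :=
  certB1 (fam := false) (s1 := true) (s2 := true) (a := 0) (b := 1) (c := 2) (cn := .pnp) (n1 := ndB2q0) (n2 := ndB5q2) (pc := pcB1) (cut := cut_pp_012) (xt := Ext.none) (P1 := 0) (W1 := 536870912) (P2 := 1073741824) (W2 := 536870912) (P3 := 740881858) (W3 := 40050571) (N0 := 3) (En := eng) (mo := mog) (C1 := cd2q0) (C2 := cd5q2) (C3 := pd1)
    rfl (fun _ => rfl) k0_pp_012

noncomputable def cut_pp_022 : Cut := Cut.of [[⟨0, 0, 0, 67108864⟩, ⟨1, 1, 0, 67108864⟩, ⟨2, 1, 0, 67108864⟩]]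

noncomputable def f_pp_022 : ℕ → ℕ → ℕ → ℕ → Bool := onCell 0 536870912 1073741824 536870912 740881858 40050571
    (rowB 3 eng mog cd2q0 cd5q2 pd2 1 false true true .pp 0 2 2 (qsf 0 536870912 1073741824 536870912 2) ndB2q0 ndB5q2 pcB2 cut_pp_022 Ext.none)

def k0_pp_022 : ∃ t, chk3 f_pp_022 t 2 4 1 = true :=
  ⟨(b (a (a (b (a (b (l 6) (a (l 6) (b (l 6) (a (l 6) (l 212231707927))))) (l 3)) (a (a (b (a (l 6) (b (l 6) (l 16694304))) (a (b (l 16629048) (b (l 16646272) (l 16636792))) (b (l 16675408) (l 16656512)))) (b (b (a (a (l 6) (l 16719880)) (b (l 16725624) (l 16717576))) (a (l 16704960) (l 16728440))) (b (a (l 16689832) (l 16693968)) (l 16677944)))) (b (a (b (l 222432234503) (l 16721440)) (l 3)) (a (b (a (l 16694944) (l 16697960)) (a (l 16679688) (l 16681728))) (b (l 321753180695) (l 16685456)))))) (b (l 3) (b (l 3) (a (l 3) (l 3))))) (l 3)) (a (b (a (a (a (b (a (b (l 16589200) (l 16592040)) (b (l 16640880) (l 16628024))) (a (l 16592360) (l 16607360)))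 (b (b (l 16661104) (l 16640608)) (b (l 16620592) (l 16601360)))) (b (a (b (l 16664904) (l 16644152)) (b (l 16667624) (a (l 16647128) (l 16649744)))) (a (l 16614776) (b (a (l 16628280) (l 16631000)) (l 16611296))))) (b (a (b (b (l 373829573175) (l 16648272)) (a (l 16654552) (l 16659032))) (l 3)) (a (a (b (l 16615208) (l 16618680)) (b (l 16643320) (l 16628320))) (b (l 16674088) (l 16661464))))) (b (a (a (a (b (l 16577664) (l 16561960)) (l 16574736)) (a (l 16577224) (l 16584208))) (a (b (a (l 16601600) (l 16611272)) (a (l 16584952) (l 16595656))) (b (l 16627600) (l 16528984)))) (a (a (a (l 16538288) (l 16541792)) (a (l 16502136) (l 16529424))) (a (a (l 16561168) (l 16574064)) (b (l 16516512) (l 16504016)))))) (b (l 3) (a (b (b (l 3) (l 304036423447)) (a (l 16617768) (l 294909614807))) (l 3))))), by decide +kernel⟩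

def k1_pp_022 : ∃ t, chk3 f_pp_022 t 2 5 1 = true :=
  ⟨(b (a (b (b (a (a (a (l 16504776) (l 16511920)) (a (l 16516456) (l 16480144))) (a (a (l 16510776) (l 16544872)) (b (l 16533472) (l 16559360)))) (a (b (a (l 16489288) (l 16502320)) (a (b (l 16473712) (a (l 16449752) (l 16472424))) (b (l 16496304) (l 16494072)))) (b (a (l 16519720) (l 16544248)) (b (a (l 16513456) (l 16533952)) (a (l 16513096) (l 16531744)))))) (a (a (a (l 16411120) (l 16431152)) (a (l 16449592) (l 16466208))) (a (l 16483432) (l 16500032)))) (b (b (a (b (a (l 16557688) (l 16619512)) (a (l 16586744) (l 16606688))) (b (l 264844852503) (l 128479630743))) (b (a (a (l 16569944) (l 16593720)) (a (l 16654520) (l 16630960))) (b (a (l 16569680) (l 16612432)) (a (b (l 16563168) (l 16559424)) (b (l 16607248) (l 16603320)))))) (a (a (l 16519944) (l 16543512)) (a (l 16567848) (l 16591512))))) (b (a (a (a (b (l 16368984) (l 16333456)) (l 16447696)) (a (l 16416240) (l 16441368))) (a (a (l 16466176)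 (l 16493032)) (a (l 16520080) (l 16547728)))) (a (a (a (a (l 16271200) (l 16288736)) (l 16356776)) (a (l 16367528) (l 16375408))) (a (a (l 16405040) (l 16436536)) (l 16610744))))), by decide +kernel⟩

def k2_pp_022 : ∃ t, chk3 f_pp_022 t 2 3 1 = true :=
  ⟨(a (b (b (a (b (a (b (l 16228864) (l 16195904)) (l 16373264)) (a (l 16189432) (l 16182472))) (a (b (l 16279400) (l 16215488)) (b (l 16311216) (l 16253136)))) (a (a (b (l 16084944) (l 16024424)) (b (l 16119592) (l 16061680))) (a (b (l 16157544) (l 16106296)) (l 16220552)))) (b (a (a (b (l 16156128) (l 15915400)) (b (l 16010168) (l 15965576))) (a (b (l 16062000) (l 16025488)) (l 16126704))) (a (a (b (l 15869800) (l 15832232)) (l 15977112)) (a (l 15990816) (l 2))))) (b (b (a (b (a (l 16346712) (l 16384536)) (l 16337904)) (b (l 16652680) (l 16408272))) (a (a (l 16230576) (l 16285088)) (a (l 16343752) (l 2)))) (b (a (a (l 16175144) (l 2)) (l 2)) (l 2)))), by decide +kernel⟩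

def k3_pp_022 : ∃ t, chk3 f_pp_022 t 3 1 1 = true :=
  ⟨(b (b (b (l 3) (l 3)) (b (b (b (a (l 3) (a (l 3) (l 2))) (a (b (a (l 16629488) (l 3)) (b (a (l 16643648) (l 3)) (a (b (l 16640536) (l 16659448)) (b (l 16659072) (l 16658344))))) (l 2))) (a (a (a (l 16612392) (l 16629872)) (l 16651576)) (l 2))) (a (a (a (b (l 16574696) (l 16534504)) (l 16585792)) (b (l 16638552) (l 2))) (l 2)))) (a (b (b (a (b (l 16516040) (l 2)) (l 2)) (l 2)) (l 2)) (l 2))), by decide +kernel⟩

theorem s4_pp_022 : ∃ t, chk3 f_pp_022 t 2 2 1 = true := ex3_b k0_pp_022 k1_pp_022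

theorem s5_pp_022 : ∃ t, chk3 f_pp_022 t 2 1 1 = true := ex3_b s4_pp_022 k2_pp_022

theorem s6_pp_022 : ∃ t, chk3 f_pp_022 t 1 1 1 = true := ex3_a s5_pp_022 k3_pp_022

theorem c_pp_022 : CertB 0 536870912 1073741824 536870912 740881858 40050571 3 eng mog cd2q0 cd5q2 pd2 false true true .pp 0 2 2
    ndB2q0 ndB5q2 pcB2 cut_pp_022 Ext.none :=
  certB1 (fam := false) (s1 := true) (s2 := true) (a := 0) (b := 2) (c := 2) (cn := .pp) (n1 := ndB2q0) (n2 := ndB5q2) (pc := pcB2) (cut := cut_pp_022) (xt := Ext.none) (P1 := 0) (W1 := 536870912) (P2 := 1073741824) (W2 := 536870912) (P3 := 740881858) (W3 := 40050571) (N0 := 3) (En := eng) (mo := mog) (C1 := cd2q0) (C2 := cd5q2) (C3 := pd2)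
    rfl (fun _ => rfl) s6_pp_022

noncomputable def f_pp_023 : ℕ → ℕ → ℕ → ℕ → Bool := onCell 1073741824 536870912 0 1230186008 740881858 40050571
    (rowB 3 eng mog cd2q0 cd5q3 pd2 2 false true true .up 0 2 3 (qsf 0 536870912 0 1230186008 2) ndB2q0 ndB5q3 pcB2 Cut.none Ext.none)

def k0_pp_023 : ∃ t, chk3 f_pp_023 t 1 1 1 = true :=
  ⟨(a (b (l 2) (a (b (l 2) (b (l 2) (l 3))) (a (b (l 2) (a (a (b (b (l 2) (l 16703288)) (l 3)) (b (a (l 16714992) (b (l 2) (a (l 16703880) (l 16746984)))) (a (b (l 16681736) (l 3)) (b (a (l 16684840) (b (l 16689496) (l 16701928))) (a (l 16668240) (a (l 16667624) (l 16667128))))))) (b (l 16717760) (b (l 16686408) (l 16660376))))) (b (b (l 2) (l 16739392)) (b (b (l 16738192) (l 16714560)) (b (l 16665904) (l 16605184))))))) (b (a (l 2) (b (b (l 16589936) (l 16666872)) (b (l 16695480) (l 16694768)))) (b (a (b (l 16715528) (l 16867160)) (b (l 16677784) (l 16619312))) (b (a (b (l 16690672) (l 16618320)) (b (l 16522768) (l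 16393880))) (a (b (a (l 16563656) (l 16451888)) (b (l 16430928) (l 16373880))) (b (a (l 16306880) (l 16143536)) (a (l 16148664) (b (l 16005912) (l 15920120))))))))), by decide +kernel⟩

theorem c_pp_023 : CertB 0 536870912 0 1230186008 740881858 40050571 3 eng mog cd2q0 cd5q3 pd2 false true true .up 0 2 3
    ndB2q0 ndB5q3 pcB2 Cut.none Ext.none :=
  certB2 (fam := false) (s1 := true) (s2 := true) (a := 0) (b := 2) (c := 3) (cn := .up) (n1 := ndB2q0) (n2 := ndB5q3) (pc := pcB2) (cut := Cut.none) (xt := Ext.none) (P1 := 0) (W1 := 536870912) (P2 := 0) (W2 := 1230186008) (P3 := 740881858) (W3 := 40050571) (N0 := 3) (En := eng) (mo := mog) (C1 := cd2q0) (C2 := cd5q3) (C3 := pd2)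
    rfl (fun _ => rfl) k0_pp_023

noncomputable def f_pp_033 : ℕ → ℕ → ℕ → ℕ → Bool := onCell 1610612736 536870912 0 1230186008 740881858 40050571
    (rowB 3 eng mog cd2q0 cd5q3 pd3 2 false true true .pnn 0 3 3 (qsf 0 536870912 0 1230186008 3) ndB2q0 ndB5q3 pcB3 Cut.none Ext.none)

def k0_pp_033 : ∃ t, chk3 f_pp_033 t 1 1 1 = true :=
  ⟨(b (b (a (a (a (l 16636488) (l 16606696)) (a (l 16557592) (l 16488696))) (a (a (l 230551686119) (l 4)) (l 4))) (b (a (a (l 16662920) (a (l 16545360) (l 16465600))) (a (a (l 16377208) (a (l 16305248) (l 16255920))) (a (l 4) (l 4)))) (a (a (l 16665680) (a (l 16496296) (l 16236304))) (b (a (a (l 16327824) (a (l 16260688) (l 16223080))) (a (a (l 16186328) (l 16113336)) (l 4))) (a (a (l 16258904) (a (l 16203968) (l 16161064))) (a (a (l 16128344) (l 852046807079)) (l 1))))))) (b (a (a (b (l 16612112) (b (l 16496448) (l 16380944))) (a (b (a (l 16437232) (l 16372600)) (b (l 16284216) (l 16176520))) (b (a (l 16324784) (l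 16275864)) (a (l 16138896) (b (l 16136688) (l 16010704)))))) (b (a (a (b (l 16211192) (a (l 16165744) (l 16078392))) (a (b (l 16125296) (l 16018696)) (b (l 16086744) (l 15982968)))) (a (a (b (l 16050448) (l 1)) (l 1)) (l 1))) (a (a (b (a (l 16063800) (l 15978480)) (b (l 15936056) (l 287257654599))) (b (a (l 15916000) (l 1)) (l 1))) (l 1)))) (a (b (a (b (l 16242872) (a (l 16147664) (l 15986032))) (a (b (l 16021840) (l 15823536)) (b (a (l 15909224) (l 15839832)) (l 1)))) (a (b (a (l 15964552) (l 15789448)) (a (b (l 15828392) (l 15743896)) (b (l 586294471287) (l 1)))) (b (a (b (l 15671552) (l 1)) (l 1)) (l 1)))) (l 1)))), by decide +kernel⟩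

theorem c_pp_033 : CertB 0 536870912 0 1230186008 740881858 40050571 3 eng mog cd2q0 cd5q3 pd3 false true true .pnn 0 3 3
    ndB2q0 ndB5q3 pcB3 Cut.none Ext.none :=
  certB2 (fam := false) (s1 := true) (s2 := true) (a := 0) (b := 3) (c := 3) (cn := .pnn) (n1 := ndB2q0) (n2 := ndB5q3) (pc := pcB3) (cut := Cut.none) (xt := Ext.none) (P1 := 0) (W1 := 536870912) (P2 := 0) (W2 := 1230186008) (P3 := 740881858) (W3 := 40050571) (N0 := 3) (En := eng) (mo := mog) (C1 := cd2q0) (C2 := cd5q3) (C3 := pd3)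
    rfl (fun _ => rfl) k0_pp_033

noncomputable def f_pp_101 : ℕ → ℕ → ℕ → ℕ → Bool := onCell 536870912 536870912 536870912 536870912 740881858 40050571
    (rowB 3 eng mog cd2q1 cd5q1 pd0 0 false true true .npn 1 0 1 (qsf 536870912 536870912 536870912 536870912 0) ndB2q1 ndB5q1 pcB0 Cut.none Ext.none)

def k0_pp_101 : ∃ t, chk3 f_pp_101 t 1 1 1 = true :=
  ⟨(l 3), by decide +kernel⟩

theorem c_pp_101 : CertB 536870912 536870912 536870912 536870912 740881858 40050571 3 eng mog cd2q1 cd5q1 pd0 false true true .npn 1 0 1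
    ndB2q1 ndB5q1 pcB0 Cut.none Ext.none :=
  certB0 (fam := false) (s1 := true) (s2 := true) (a := 1) (b := 0) (c := 1) (cn := .npn) (n1 := ndB2q1) (n2 := ndB5q1) (pc := pcB0) (cut := Cut.none) (xt := Ext.none) (P1 := 536870912) (W1 := 536870912) (P2 := 536870912) (W2 := 536870912) (P3 := 740881858) (W3 := 40050571) (N0 := 3) (En := eng) (mo := mog) (C1 := cd2q1) (C2 := cd5q1) (C3 := pd0)
    rfl k0_pp_101

noncomputable def f_pp_102 : ℕ → ℕ → ℕ → ℕ → Bool := onCell 536870912 536870912 1073741824 536870912 740881858 40050571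
    (rowB 3 eng mog cd2q1 cd5q2 pd0 0 false true true .npp 1 0 2 (qsf 536870912 536870912 1073741824 536870912 0) ndB2q1 ndB5q2 pcB0 Cut.none Ext.none)

def k0_pp_102 : ∃ t, chk3 f_pp_102 t 1 1 1 = true :=
  ⟨(l 3), by decide +kernel⟩

theorem c_pp_102 : CertB 536870912 536870912 1073741824 536870912 740881858 40050571 3 eng mog cd2q1 cd5q2 pd0 false true true .npp 1 0 2
    ndB2q1 ndB5q2 pcB0 Cut.none Ext.none :=
  certB0 (fam := false) (s1 := true) (s2 := true) (a := 1) (b := 0) (c := 2) (cn := .npp) (n1 := ndB2q1) (n2 := ndB5q2) (pc := pcB0) (cut := Cut.none) (xt := Ext.none) (P1 := 536870912) (W1 := 536870912) (P2 := 1073741824) (W2 := 536870912) (P3 := 740881858) (W3 := 40050571) (N0 := 3) (En := eng) (mo := mog) (C1 := cd2q1) (C2 := cd5q2) (C3 := pd0)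
    rfl k0_pp_102

noncomputable def f_pp_112 : ℕ → ℕ → ℕ → ℕ → Bool := onCell 536870912 536870912 1073741824 536870912 740881858 40050571
    (rowB 3 eng mog cd2q1 cd5q2 pd1 0 false true true .dn 1 1 2 (qsf 536870912 536870912 1073741824 536870912 1) ndB2q1 ndB5q2 pcB1 Cut.none Ext.none)

def k0_pp_112 : ∃ t, chk3 f_pp_112 t 1 1 1 = true :=
  ⟨(l 3), by decide +kernel⟩

theorem c_pp_112 : CertB 536870912 536870912 1073741824 536870912 740881858 40050571 3 eng mog cd2q1 cd5q2 pd1 false true true .dn 1 1 2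
    ndB2q1 ndB5q2 pcB1 Cut.none Ext.none :=
  certB0 (fam := false) (s1 := true) (s2 := true) (a := 1) (b := 1) (c := 2) (cn := .dn) (n1 := ndB2q1) (n2 := ndB5q2) (pc := pcB1) (cut := Cut.none) (xt := Ext.none) (P1 := 536870912) (W1 := 536870912) (P2 := 1073741824) (W2 := 536870912) (P3 := 740881858) (W3 := 40050571) (N0 := 3) (En := eng) (mo := mog) (C1 := cd2q1) (C2 := cd5q2) (C3 := pd1)
    rfl k0_pp_112

noncomputable def f_pp_113 : ℕ → ℕ → ℕ → ℕ → Bool := onCell 536870912 536870912 0 1230186008 740881858 40050571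
    (rowB 3 eng mog cd2q1 cd5q3 pd1 2 false true true .nn 1 1 3 (qsf 536870912 536870912 0 1230186008 1) ndB2q1 ndB5q3 pcB1 Cut.none Ext.none)

def k0_pp_113 : ∃ t, chk3 f_pp_113 t 1 1 1 = true :=
  ⟨(b (a (l 2) (a (l 2) (b (a (l 2) (b (l 16724704) (a (l 2) (l 16736968)))) (a (b (a (l 2) (b (l 2) (l 16743424))) (l 3)) (b (a (l 16706208) (l 16736040)) (a (l 335711485831) (l 16761448))))))) (a (l 3) (b (a (l 3) (a (l 3) (l 3))) (l 3)))), by decide +kernel⟩

theorem c_pp_113 : CertB 536870912 536870912 0 1230186008 740881858 40050571 3 eng mog cd2q1 cd5q3 pd1 false true true .nn 1 1 3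
    ndB2q1 ndB5q3 pcB1 Cut.none Ext.none :=
  certB2 (fam := false) (s1 := true) (s2 := true) (a := 1) (b := 1) (c := 3) (cn := .nn) (n1 := ndB2q1) (n2 := ndB5q3) (pc := pcB1) (cut := Cut.none) (xt := Ext.none) (P1 := 536870912) (W1 := 536870912) (P2 := 0) (W2 := 1230186008) (P3 := 740881858) (W3 := 40050571) (N0 := 3) (En := eng) (mo := mog) (C1 := cd2q1) (C2 := cd5q3) (C3 := pd1)
    rfl (fun _ => rfl) k0_pp_113

noncomputable def f_pp_123 : ℕ → ℕ → ℕ → ℕ → Bool := onCell 1073741824 536870912 0 1230186008 740881858 40050571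
    (rowB 3 eng mog cd2q1 cd5q3 pd2 2 false true true .npn 1 2 3 (qsf 536870912 536870912 0 1230186008 2) ndB2q1 ndB5q3 pcB2 Cut.none Ext.none)

def k0_pp_123 : ∃ t, chk3 f_pp_123 t 1 1 1 = true :=
  ⟨(a (a (b (a (b (l 16738064) (b (l 16866936) (a (l 16843696) (l 16863216)))) (b (l 16811248) (b (l 16692704) (l 17009288)))) (b (a (b (a (l 16779928) (l 16790448)) (a (l 3) (l 380272635415))) (a (b (l 16830840) (l 265919225079)) (b (l 16777968) (a (l 16664912) (l 16680840))))) (a (l 3) (b (a (l 3) (b (l 527911360119) (l 3))) (l 3))))) (b (b (a (l 16651696) (l 16586848)) (a (a (a (b (l 16676112) (l 16794880)) (b (l 16678944) (l 16789696))) (b (l 16679704) (l 16782688))) (b (l 16695672) (l 16771400)))) (a (b (b (a (a (l 16773432) (l 16780224)) (l 16775688)) (a (a (l 16671728) (a (l 16673128) (b (l 16702760) (l 16659496)))) (l 16684976))) (a (a (b (b (l 16635208) (l 16610032)) (l 3)) (b (a (b (l 16633536) (l 16608496)) (b (l 16628280) (a (l 16609288) (a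 (l 16607392) (l 16606024))))) (l 1))) (b (l 16641104) (l 1)))) (b (b (l 16747216) (l 16674040)) (b (l 336651820599) (l 1)))))) (b (a (b (b (l 16637056) (l 16689816)) (b (l 16722552) (l 16756880))) (b (b (l 16687840) (l 16717392)) (b (l 16710416) (l 16700448)))) (b (b (a (l 16746656) (l 16705256)) (a (l 16803912) (l 1))) (l 1)))), by decide +kernel⟩

theorem c_pp_123 : CertB 536870912 536870912 0 1230186008 740881858 40050571 3 eng mog cd2q1 cd5q3 pd2 false true true .npn 1 2 3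
    ndB2q1 ndB5q3 pcB2 Cut.none Ext.none :=
  certB2 (fam := false) (s1 := true) (s2 := true) (a := 1) (b := 2) (c := 3) (cn := .npn) (n1 := ndB2q1) (n2 := ndB5q3) (pc := pcB2) (cut := Cut.none) (xt := Ext.none) (P1 := 536870912) (W1 := 536870912) (P2 := 0) (W2 := 1230186008) (P3 := 740881858) (W3 := 40050571) (N0 := 3) (En := eng) (mo := mog) (C1 := cd2q1) (C2 := cd5q3) (C3 := pd2)
    rfl (fun _ => rfl) k0_pp_123

noncomputable def f_pp_133 : ℕ → ℕ → ℕ → ℕ → Bool := onCell 1610612736 536870912 0 1230186008 740881858 40050571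
    (rowB 3 eng mog cd2q1 cd5q3 pd3 2 false true true .dn 1 3 3 (qsf 536870912 536870912 0 1230186008 3) ndB2q1 ndB5q3 pcB3 Cut.none Ext.none)

def k0_pp_133 : ∃ t, chk3 f_pp_133 t 1 1 1 = true :=
  ⟨(b (b (a (a (l 16863872) (l 1)) (l 1)) (l 1)) (l 1)), by decide +kernel⟩

theorem c_pp_133 : CertB 536870912 536870912 0 1230186008 740881858 40050571 3 eng mog cd2q1 cd5q3 pd3 false true true .dn 1 3 3
    ndB2q1 ndB5q3 pcB3 Cut.none Ext.none :=
  certB2 (fam := false) (s1 := true) (s2 := true) (a := 1) (b := 3) (c := 3) (cn := .dn) (n1 := ndB2q1) (n2 := ndB5q3) (pc := pcB3) (cut := Cut.none) (xt := Ext.none) (P1 := 536870912) (W1 := 536870912) (P2 := 0) (W2 := 1230186008) (P3 := 740881858) (W3 := 40050571) (N0 := 3) (En := eng) (mo := mog) (C1 := cd2q1) (C2 := cd5q3) (C3 := pd3)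
    rfl (fun _ => rfl) k0_pp_133

noncomputable def f_pp_202_a : ℕ → ℕ → ℕ → ℕ → Bool := onCell 0 536870912 1073741824 536870912 740881858 40050571
    (rowB 3 eng mog cd2q2a cd5q2 pd0 0 false true true .pp 2 0 2 (qsf 0 536870912 1073741824 536870912 0) ndB2q2a ndB5q2 pcB0 Cut.none Ext.none)

def k0_pp_202_a : ∃ t, chk3 f_pp_202_a t 1 1 1 = true :=
  ⟨(l 5), by decide +kernel⟩

theorem c_pp_202_a : CertB 0 536870912 1073741824 536870912 740881858 40050571 3 eng mog cd2q2a cd5q2 pd0 false true true .pp 2 0 2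
    ndB2q2a ndB5q2 pcB0 Cut.none Ext.none :=
  certB0 (fam := false) (s1 := true) (s2 := true) (a := 2) (b := 0) (c := 2) (cn := .pp) (n1 := ndB2q2a) (n2 := ndB5q2) (pc := pcB0) (cut := Cut.none) (xt := Ext.none) (P1 := 0) (W1 := 536870912) (P2 := 1073741824) (W2 := 536870912) (P3 := 740881858) (W3 := 40050571) (N0 := 3) (En := eng) (mo := mog) (C1 := cd2q2a) (C2 := cd5q2) (C3 := pd0)
    rfl k0_pp_202_a

noncomputable def f_pp_202_b : ℕ → ℕ → ℕ → ℕ → Bool := onCell 1239849684 370763052 1073741824 536870912 740881858 40050571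
    (rowB 3 eng mog cd2q2b cd5q2 pd0 0 false true true .pp 2 0 2 (qsf 1239849684 370763052 1073741824 536870912 0) ndB2q2b ndB5q2 pcB0 Cut.none Ext.none)

def k0_pp_202_b : ∃ t, chk3 f_pp_202_b t 1 1 1 = true :=
  ⟨(l 5), by decide +kernel⟩

theorem c_pp_202_b : CertB 1239849684 370763052 1073741824 536870912 740881858 40050571 3 eng mog cd2q2b cd5q2 pd0 false true true .pp 2 0 2
    ndB2q2b ndB5q2 pcB0 Cut.none Ext.none :=
  certB0 (fam := false) (s1 := true) (s2 := true) (a := 2) (b := 0) (c := 2) (cn := .pp) (n1 := ndB2q2b) (n2 := ndB5q2) (pc := pcB0) (cut := Cut.none) (xt := Ext.none) (P1 := 1239849684) (W1 := 370763052) (P2 := 1073741824) (W2 := 536870912) (P3 := 740881858) (W3 := 40050571) (N0 := 3) (En := eng) (mo := mog) (C1 := cd2q2b) (C2 := cd5q2) (C3 := pd0)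
    rfl k0_pp_202_b

noncomputable def f_pp_203_a : ℕ → ℕ → ℕ → ℕ → Bool := onCell 0 536870912 0 1230186008 740881858 40050571
    (rowB 3 eng mog cd2q2a cd5q3 pd0 0 false true true .up 2 0 3 (qsf 0 536870912 0 1230186008 0) ndB2q2a ndB5q3 pcB0 Cut.none Ext.none)

def k0_pp_203_a : ∃ t, chk3 f_pp_203_a t 1 1 1 = true :=
  ⟨(b (l 2) (b (l 2) (l 3))), by decide +kernel⟩

theorem c_pp_203_a : CertB 0 536870912 0 1230186008 740881858 40050571 3 eng mog cd2q2a cd5q3 pd0 false true true .up 2 0 3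
    ndB2q2a ndB5q3 pcB0 Cut.none Ext.none :=
  certB0 (fam := false) (s1 := true) (s2 := true) (a := 2) (b := 0) (c := 3) (cn := .up) (n1 := ndB2q2a) (n2 := ndB5q3) (pc := pcB0) (cut := Cut.none) (xt := Ext.none) (P1 := 0) (W1 := 536870912) (P2 := 0) (W2 := 1230186008) (P3 := 740881858) (W3 := 40050571) (N0 := 3) (En := eng) (mo := mog) (C1 := cd2q2a) (C2 := cd5q3) (C3 := pd0)
    rfl k0_pp_203_a

noncomputable def f_pp_203_b : ℕ → ℕ → ℕ → ℕ → Bool := onCell 1239849684 370763052 0 1230186008 740881858 40050571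
    (rowB 3 eng mog cd2q2b cd5q3 pd0 0 false true true .up 2 0 3 (qsf 1239849684 370763052 0 1230186008 0) ndB2q2b ndB5q3 pcB0 Cut.none Ext.none)

def k0_pp_203_b : ∃ t, chk3 f_pp_203_b t 1 1 1 = true :=
  ⟨(b (l 3) (l 5)), by decide +kernel⟩

theorem c_pp_203_b : CertB 1239849684 370763052 0 1230186008 740881858 40050571 3 eng mog cd2q2b cd5q3 pd0 false true true .up 2 0 3
    ndB2q2b ndB5q3 pcB0 Cut.none Ext.none :=
  certB0 (fam := false) (s1 := true) (s2 := true) (a := 2) (b := 0) (c := 3) (cn := .up) (n1 := ndB2q2b) (n2 := ndB5q3) (pc := pcB0) (cut := Cut.none) (xt := Ext.none) (P1 := 1239849684) (W1 := 370763052) (P2 := 0) (W2 := 1230186008) (P3 := 740881858) (W3 := 40050571) (N0 := 3) (En := eng) (mo := mog) (C1 := cd2q2b) (C2 := cd5q3) (C3 := pd0)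
    rfl k0_pp_203_b

noncomputable def cut_pp_213_a : Cut := Cut.of [[⟨0, 1, 0, 67108864⟩, ⟨1, 1, 0, 67108864⟩, ⟨2, 2, 0, 16777216⟩]]

noncomputable def f_pp_213_a : ℕ → ℕ → ℕ → ℕ → Bool := onCell 0 536870912 0 1230186008 740881858 40050571
    (rowB 3 eng mog cd2q2a cd5q3 pd1 0 false true true .pnn 2 1 3 (qsf 0 536870912 0 1230186008 1) ndB2q2a ndB5q3 pcB1 cut_pp_213_a Ext.none)

def k0_pp_213_a : ∃ t, chk3 f_pp_213_a t 1 1 1 = true :=
  ⟨(b (a (l 3) (b (a (l 3) (b (a (l 3) (l 6)) (l 3))) (l 3))) (b (l 3) (l 3))), by decide +kernel⟩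

theorem c_pp_213_a : CertB 0 536870912 0 1230186008 740881858 40050571 3 eng mog cd2q2a cd5q3 pd1 false true true .pnn 2 1 3
    ndB2q2a ndB5q3 pcB1 cut_pp_213_a Ext.none :=
  certB0 (fam := false) (s1 := true) (s2 := true) (a := 2) (b := 1) (c := 3) (cn := .pnn) (n1 := ndB2q2a) (n2 := ndB5q3) (pc := pcB1) (cut := cut_pp_213_a) (xt := Ext.none) (P1 := 0) (W1 := 536870912) (P2 := 0) (W2 := 1230186008) (P3 := 740881858) (W3 := 40050571) (N0 := 3) (En := eng) (mo := mog) (C1 := cd2q2a) (C2 := cd5q3) (C3 := pd1)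
    rfl k0_pp_213_a

noncomputable def cut_pp_213_b : Cut := Cut.of [[⟨0, 1, 0, 67108864⟩, ⟨1, 1, 0, 67108864⟩, ⟨2, 2, 0, 16777216⟩]]

noncomputable def f_pp_213_b : ℕ → ℕ → ℕ → ℕ → Bool := onCell 1239849684 370763052 0 1230186008 740881858 40050571
    (rowB 3 eng mog cd2q2b cd5q3 pd1 0 false true true .pnn 2 1 3 (qsf 1239849684 370763052 0 1230186008 1) ndB2q2b ndB5q3 pcB1 cut_pp_213_b Ext.none)

def k0_pp_213_b : ∃ t, chk3 f_pp_213_b t 1 1 1 = true :=
  ⟨(b (l 3) (l 5)), by decide +kernel⟩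

theorem c_pp_213_b : CertB 1239849684 370763052 0 1230186008 740881858 40050571 3 eng mog cd2q2b cd5q3 pd1 false true true .pnn 2 1 3
    ndB2q2b ndB5q3 pcB1 cut_pp_213_b Ext.none :=
  certB0 (fam := false) (s1 := true) (s2 := true) (a := 2) (b := 1) (c := 3) (cn := .pnn) (n1 := ndB2q2b) (n2 := ndB5q3) (pc := pcB1) (cut := cut_pp_213_b) (xt := Ext.none) (P1 := 1239849684) (W1 := 370763052) (P2 := 0) (W2 := 1230186008) (P3 := 740881858) (W3 := 40050571) (N0 := 3) (En := eng) (mo := mog) (C1 := cd2q2b) (C2 := cd5q3) (C3 := pd1)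
    rfl k0_pp_213_b

noncomputable def f_pp_303 : ℕ → ℕ → ℕ → ℕ → Bool := onCell 1610612736 536870912 0 1230186008 740881858 40050571
    (rowB 3 eng mog cd2q3 cd5q3 pd0 0 false true true .npn 3 0 3 (qsf 1610612736 536870912 0 1230186008 0) ndB2q3 ndB5q3 pcB0 Cut.none Ext.none)

def k0_pp_303 : ∃ t, chk3 f_pp_303 t 1 1 1 = true :=
  ⟨(b (l 3) (l 5)), by decide +kernel⟩

theorem c_pp_303 : CertB 1610612736 536870912 0 1230186008 740881858 40050571 3 eng mog cd2q3 cd5q3 pd0 false true true .npn 3 0 3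
    ndB2q3 ndB5q3 pcB0 Cut.none Ext.none :=
  certB0 (fam := false) (s1 := true) (s2 := true) (a := 3) (b := 0) (c := 3) (cn := .npn) (n1 := ndB2q3) (n2 := ndB5q3) (pc := pcB0) (cut := Cut.none) (xt := Ext.none) (P1 := 1610612736) (W1 := 536870912) (P2 := 0) (W2 := 1230186008) (P3 := 740881858) (W3 := 40050571) (N0 := 3) (En := eng) (mo := mog) (C1 := cd2q3) (C2 := cd5q3) (C3 := pd0)
    rfl k0_pp_303

noncomputable def f_pp_313 : ℕ → ℕ → ℕ → ℕ → Bool := onCell 1610612736 536870912 0 1230186008 740881858 40050571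
    (rowB 3 eng mog cd2q3 cd5q3 pd1 0 false true true .dn 3 1 3 (qsf 1610612736 536870912 0 1230186008 1) ndB2q3 ndB5q3 pcB1 Cut.none Ext.none)

def k0_pp_313 : ∃ t, chk3 f_pp_313 t 1 1 1 = true :=
  ⟨(b (l 3) (l 1)), by decide +kernel⟩

theorem c_pp_313 : CertB 1610612736 536870912 0 1230186008 740881858 40050571 3 eng mog cd2q3 cd5q3 pd1 false true true .dn 3 1 3
    ndB2q3 ndB5q3 pcB1 Cut.none Ext.none :=
  certB0 (fam := false) (s1 := true) (s2 := true) (a := 3) (b := 1) (c := 3) (cn := .dn) (n1 := ndB2q3) (n2 := ndB5q3) (pc := pcB1) (cut := Cut.none) (xt := Ext.none) (P1 := 1610612736) (W1 := 536870912) (P2 := 0) (W2 := 1230186008) (P3 := 740881858) (W3 := 40050571) (N0 := 3) (En := eng) (mo := mog) (C1 := cd2q3) (C2 := cd5q3) (C3 := pd1)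
    rfl k0_pp_313

noncomputable def f_pm_001 : ℕ → ℕ → ℕ → ℕ → Bool := onCell 0 536870912 536870912 536870912 740881858 40050571
    (rowB 3 eng mog cd2q0 cd5q1 pd0 0 false true false .up 0 0 1 (qsf 0 536870912 536870912 536870912 0) ndB2q0 ndB5q1 pcB0 Cut.none Ext.none)

def k0_pm_001 : ∃ t, chk3 f_pm_001 t 1 1 1 = true :=
  ⟨(l 4), by decide +kernel⟩

theorem c_pm_001 : CertB 0 536870912 536870912 536870912 740881858 40050571 3 eng mog cd2q0 cd5q1 pd0 false true false .up 0 0 1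
    ndB2q0 ndB5q1 pcB0 Cut.none Ext.none :=
  certB0 (fam := false) (s1 := true) (s2 := false) (a := 0) (b := 0) (c := 1) (cn := .up) (n1 := ndB2q0) (n2 := ndB5q1) (pc := pcB0) (cut := Cut.none) (xt := Ext.none) (P1 := 0) (W1 := 536870912) (P2 := 536870912) (W2 := 536870912) (P3 := 740881858) (W3 := 40050571) (N0 := 3) (En := eng) (mo := mog) (C1 := cd2q0) (C2 := cd5q1) (C3 := pd0)
    rfl k0_pm_001

noncomputable def f_pm_011 : ℕ → ℕ → ℕ → ℕ → Bool := onCell 0 536870912 536870912 536870912 740881858 40050571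
    (rowB 3 eng mog cd2q0 cd5q1 pd1 0 false true false .pnn 0 1 1 (qsf 0 536870912 536870912 536870912 1) ndB2q0 ndB5q1 pcB1 Cut.none Ext.none)

def k0_pm_011 : ∃ t, chk3 f_pm_011 t 1 1 1 = true :=
  ⟨(l 4), by decide +kernel⟩

theorem c_pm_011 : CertB 0 536870912 536870912 536870912 740881858 40050571 3 eng mog cd2q0 cd5q1 pd1 false true false .pnn 0 1 1
    ndB2q0 ndB5q1 pcB1 Cut.none Ext.none :=
  certB0 (fam := false) (s1 := true) (s2 := false) (a := 0) (b := 1) (c := 1) (cn := .pnn) (n1 := ndB2q0) (n2 := ndB5q1) (pc := pcB1) (cut := Cut.none) (xt := Ext.none) (P1 := 0) (W1 := 536870912) (P2 := 536870912) (W2 := 536870912) (P3 := 740881858) (W3 := 40050571) (N0 := 3) (En := eng) (mo := mog) (C1 := cd2q0) (C2 := cd5q1) (C3 := pd1)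
    rfl k0_pm_011

noncomputable def f_pm_012 : ℕ → ℕ → ℕ → ℕ → Bool := onCell 0 536870912 1073741824 536870912 740881858 40050571
    (rowB 3 eng mog cd2q0 cd5q2 pd1 0 false true false .pnp 0 1 2 (qsf 0 536870912 1073741824 536870912 1) ndB2q0 ndB5q2 pcB1 Cut.none Ext.none)

def k0_pm_012 : ∃ t, chk3 f_pm_012 t 1 1 1 = true :=
  ⟨(l 4), by decide +kernel⟩

theorem c_pm_012 : CertB 0 536870912 1073741824 536870912 740881858 40050571 3 eng mog cd2q0 cd5q2 pd1 false true false .pnp 0 1 2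
    ndB2q0 ndB5q2 pcB1 Cut.none Ext.none :=
  certB0 (fam := false) (s1 := true) (s2 := false) (a := 0) (b := 1) (c := 2) (cn := .pnp) (n1 := ndB2q0) (n2 := ndB5q2) (pc := pcB1) (cut := Cut.none) (xt := Ext.none) (P1 := 0) (W1 := 536870912) (P2 := 1073741824) (W2 := 536870912) (P3 := 740881858) (W3 := 40050571) (N0 := 3) (En := eng) (mo := mog) (C1 := cd2q0) (C2 := cd5q2) (C3 := pd1)
    rfl k0_pm_012

noncomputable def f_pm_022 : ℕ → ℕ → ℕ → ℕ → Bool := onCell 0 536870912 1073741824 536870912 740881858 40050571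
    (rowB 3 eng mog cd2q0 cd5q2 pd2 0 false true false .pp 0 2 2 (qsf 0 536870912 1073741824 536870912 2) ndB2q0 ndB5q2 pcB2 Cut.none Ext.none)

def k0_pm_022 : ∃ t, chk3 f_pm_022 t 1 1 1 = true :=
  ⟨(l 4), by decide +kernel⟩

theorem c_pm_022 : CertB 0 536870912 1073741824 536870912 740881858 40050571 3 eng mog cd2q0 cd5q2 pd2 false true false .pp 0 2 2
    ndB2q0 ndB5q2 pcB2 Cut.none Ext.none :=
  certB0 (fam := false) (s1 := true) (s2 := false) (a := 0) (b := 2) (c := 2) (cn := .pp) (n1 := ndB2q0) (n2 := ndB5q2) (pc := pcB2) (cut := Cut.none) (xt := Ext.none) (P1 := 0) (W1 := 536870912) (P2 := 1073741824) (W2 := 536870912) (P3 := 740881858) (W3 := 40050571) (N0 := 3) (En := eng) (mo := mog) (C1 := cd2q0) (C2 := cd5q2) (C3 := pd2)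
    rfl k0_pm_022

noncomputable def f_pm_023 : ℕ → ℕ → ℕ → ℕ → Bool := onCell 0 536870912 0 1230186008 740881858 40050571
    (rowB 3 eng mog cd2q0 cd5q3 pd2 0 false true false .up 0 2 3 (qsf 0 536870912 0 1230186008 2) ndB2q0 ndB5q3 pcB2 Cut.none Ext.none)

def k0_pm_023 : ∃ t, chk3 f_pm_023 t 1 1 1 = true :=
  ⟨(b (b (a (l 2) (a (l 2) (a (l 2) (l 16635232)))) (l 4)) (l 4)), by decide +kernel⟩

theorem c_pm_023 : CertB 0 536870912 0 1230186008 740881858 40050571 3 eng mog cd2q0 cd5q3 pd2 false true false .up 0 2 3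
    ndB2q0 ndB5q3 pcB2 Cut.none Ext.none :=
  certB0 (fam := false) (s1 := true) (s2 := false) (a := 0) (b := 2) (c := 3) (cn := .up) (n1 := ndB2q0) (n2 := ndB5q3) (pc := pcB2) (cut := Cut.none) (xt := Ext.none) (P1 := 0) (W1 := 536870912) (P2 := 0) (W2 := 1230186008) (P3 := 740881858) (W3 := 40050571) (N0 := 3) (En := eng) (mo := mog) (C1 := cd2q0) (C2 := cd5q3) (C3 := pd2)
    rfl k0_pm_023

noncomputable def f_pm_033 : ℕ → ℕ → ℕ → ℕ → Bool := onCell 0 536870912 0 1230186008 740881858 40050571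
    (rowB 3 eng mog cd2q0 cd5q3 pd3 0 false true false .pnn 0 3 3 (qsf 0 536870912 0 1230186008 3) ndB2q0 ndB5q3 pcB3 Cut.none Ext.none)

def k0_pm_033 : ∃ t, chk3 f_pm_033 t 1 1 1 = true :=
  ⟨(b (a (l 4) (a (l 4) (b (a (l 4) (l 16637720)) (l 4)))) (l 4)), by decide +kernel⟩

theorem c_pm_033 : CertB 0 536870912 0 1230186008 740881858 40050571 3 eng mog cd2q0 cd5q3 pd3 false true false .pnn 0 3 3
    ndB2q0 ndB5q3 pcB3 Cut.none Ext.none :=
  certB0 (fam := false) (s1 := true) (s2 := false) (a := 0) (b := 3) (c := 3) (cn := .pnn) (n1 := ndB2q0) (n2 := ndB5q3) (pc := pcB3) (cut := Cut.none) (xt := Ext.none) (P1 := 0) (W1 := 536870912) (P2 := 0) (W2 := 1230186008) (P3 := 740881858) (W3 := 40050571) (N0 := 3) (En := eng) (mo := mog) (C1 := cd2q0) (C2 := cd5q3) (C3 := pd3)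
    rfl k0_pm_033

noncomputable def f_pm_101 : ℕ → ℕ → ℕ → ℕ → Bool := onCell 536870912 536870912 536870912 536870912 740881858 40050571
    (rowB 3 eng mog cd2q1 cd5q1 pd0 0 false true false .npn 1 0 1 (qsf 536870912 536870912 536870912 536870912 0) ndB2q1 ndB5q1 pcB0 Cut.none Ext.none)

def k0_pm_101 : ∃ t, chk3 f_pm_101 t 1 1 1 = true :=
  ⟨(l 4), by decide +kernel⟩

theorem c_pm_101 : CertB 536870912 536870912 536870912 536870912 740881858 40050571 3 eng mog cd2q1 cd5q1 pd0 false true false .npn 1 0 1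
    ndB2q1 ndB5q1 pcB0 Cut.none Ext.none :=
  certB0 (fam := false) (s1 := true) (s2 := false) (a := 1) (b := 0) (c := 1) (cn := .npn) (n1 := ndB2q1) (n2 := ndB5q1) (pc := pcB0) (cut := Cut.none) (xt := Ext.none) (P1 := 536870912) (W1 := 536870912) (P2 := 536870912) (W2 := 536870912) (P3 := 740881858) (W3 := 40050571) (N0 := 3) (En := eng) (mo := mog) (C1 := cd2q1) (C2 := cd5q1) (C3 := pd0)
    rfl k0_pm_101

noncomputable def f_pm_102 : ℕ → ℕ → ℕ → ℕ → Bool := onCell 536870912 536870912 1073741824 536870912 740881858 40050571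
    (rowB 3 eng mog cd2q1 cd5q2 pd0 0 false true false .npp 1 0 2 (qsf 536870912 536870912 1073741824 536870912 0) ndB2q1 ndB5q2 pcB0 Cut.none Ext.none)

def k0_pm_102 : ∃ t, chk3 f_pm_102 t 1 1 1 = true :=
  ⟨(l 4), by decide +kernel⟩

theorem c_pm_102 : CertB 536870912 536870912 1073741824 536870912 740881858 40050571 3 eng mog cd2q1 cd5q2 pd0 false true false .npp 1 0 2
    ndB2q1 ndB5q2 pcB0 Cut.none Ext.none :=
  certB0 (fam := false) (s1 := true) (s2 := false) (a := 1) (b := 0) (c := 2) (cn := .npp) (n1 := ndB2q1) (n2 := ndB5q2) (pc := pcB0) (cut := Cut.none) (xt := Ext.none) (P1 := 536870912) (W1 := 536870912) (P2 := 1073741824) (W2 := 536870912) (P3 := 740881858) (W3 := 40050571) (N0 := 3) (En := eng) (mo := mog) (C1 := cd2q1) (C2 := cd5q2) (C3 := pd0)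
    rfl k0_pm_102

noncomputable def f_pm_112 : ℕ → ℕ → ℕ → ℕ → Bool := onCell 536870912 536870912 1073741824 536870912 740881858 40050571
    (rowB 3 eng mog cd2q1 cd5q2 pd1 0 false true false .dn 1 1 2 (qsf 536870912 536870912 1073741824 536870912 1) ndB2q1 ndB5q2 pcB1 Cut.none Ext.none)

def k0_pm_112 : ∃ t, chk3 f_pm_112 t 1 1 1 = true :=
  ⟨(l 4), by decide +kernel⟩

theorem c_pm_112 : CertB 536870912 536870912 1073741824 536870912 740881858 40050571 3 eng mog cd2q1 cd5q2 pd1 false true false .dn 1 1 2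
    ndB2q1 ndB5q2 pcB1 Cut.none Ext.none :=
  certB0 (fam := false) (s1 := true) (s2 := false) (a := 1) (b := 1) (c := 2) (cn := .dn) (n1 := ndB2q1) (n2 := ndB5q2) (pc := pcB1) (cut := Cut.none) (xt := Ext.none) (P1 := 536870912) (W1 := 536870912) (P2 := 1073741824) (W2 := 536870912) (P3 := 740881858) (W3 := 40050571) (N0 := 3) (En := eng) (mo := mog) (C1 := cd2q1) (C2 := cd5q2) (C3 := pd1)
    rfl k0_pm_112

noncomputable def f_pm_113 : ℕ → ℕ → ℕ → ℕ → Bool := onCell 536870912 536870912 0 1230186008 740881858 40050571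
    (rowB 3 eng mog cd2q1 cd5q3 pd1 0 false true false .nn 1 1 3 (qsf 536870912 536870912 0 1230186008 1) ndB2q1 ndB5q3 pcB1 Cut.none Ext.none)

def k0_pm_113 : ∃ t, chk3 f_pm_113 t 1 1 1 = true :=
  ⟨(b (a (l 2) (a (l 2) (a (b (l 2) (l 501000836855)) (b (l 16592920) (l 16441624))))) (b (a (l 4) (a (l 4) (l 4))) (l 4))), by decide +kernel⟩

theorem c_pm_113 : CertB 536870912 536870912 0 1230186008 740881858 40050571 3 eng mog cd2q1 cd5q3 pd1 false true false .nn 1 1 3
    ndB2q1 ndB5q3 pcB1 Cut.none Ext.none :=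
  certB0 (fam := false) (s1 := true) (s2 := false) (a := 1) (b := 1) (c := 3) (cn := .nn) (n1 := ndB2q1) (n2 := ndB5q3) (pc := pcB1) (cut := Cut.none) (xt := Ext.none) (P1 := 536870912) (W1 := 536870912) (P2 := 0) (W2 := 1230186008) (P3 := 740881858) (W3 := 40050571) (N0 := 3) (En := eng) (mo := mog) (C1 := cd2q1) (C2 := cd5q3) (C3 := pd1)
    rfl k0_pm_113

noncomputable def f_pm_123 : ℕ → ℕ → ℕ → ℕ → Bool := onCell 1073741824 536870912 0 1230186008 740881858 40050571
    (rowB 3 eng mog cd2q1 cd5q3 pd2 2 false true false .npn 1 2 3 (qsf 536870912 536870912 0 1230186008 2) ndB2q1 ndB5q3 pcB2 Cut.none Ext.none)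

def k0_pm_123 : ∃ t, chk3 f_pm_123 t 1 1 1 = true :=
  ⟨(b (b (a (a (a (l 16557000) (l 16483864)) (a (l 16453392) (l 16529456))) (a (l 16824112) (l 16736536))) (a (a (b (a (l 16389800) (l 16380048)) (a (l 16346544) (l 4))) (a (b (l 16410128) (l 4)) (l 16579864))) (l 4))) (a (l 4) (l 4))), by decide +kernel⟩

theorem c_pm_123 : CertB 536870912 536870912 0 1230186008 740881858 40050571 3 eng mog cd2q1 cd5q3 pd2 false true false .npn 1 2 3
    ndB2q1 ndB5q3 pcB2 Cut.none Ext.none :=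
  certB2 (fam := false) (s1 := true) (s2 := false) (a := 1) (b := 2) (c := 3) (cn := .npn) (n1 := ndB2q1) (n2 := ndB5q3) (pc := pcB2) (cut := Cut.none) (xt := Ext.none) (P1 := 536870912) (W1 := 536870912) (P2 := 0) (W2 := 1230186008) (P3 := 740881858) (W3 := 40050571) (N0 := 3) (En := eng) (mo := mog) (C1 := cd2q1) (C2 := cd5q3) (C3 := pd2)
    rfl (fun _ => rfl) k0_pm_123

noncomputable def f_pm_133 : ℕ → ℕ → ℕ → ℕ → Bool := onCell 1610612736 536870912 0 1230186008 740881858 40050571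
    (rowB 3 eng mog cd2q1 cd5q3 pd3 2 false true false .dn 1 3 3 (qsf 536870912 536870912 0 1230186008 3) ndB2q1 ndB5q3 pcB3 Cut.none Ext.none)

def k0_pm_133 : ∃ t, chk3 f_pm_133 t 1 1 1 = true :=
  ⟨(b (a (a (b (l 16721560) (l 1)) (l 1)) (l 1)) (l 1)), by decide +kernel⟩

theorem c_pm_133 : CertB 536870912 536870912 0 1230186008 740881858 40050571 3 eng mog cd2q1 cd5q3 pd3 false true false .dn 1 3 3
    ndB2q1 ndB5q3 pcB3 Cut.none Ext.none :=
  certB2 (fam := false) (s1 := true) (s2 := false) (a := 1) (b := 3) (c := 3) (cn := .dn) (n1 := ndB2q1) (n2 := ndB5q3) (pc := pcB3) (cut := Cut.none) (xt := Ext.none) (P1 := 536870912) (W1 := 536870912) (P2 := 0) (W2 := 1230186008) (P3 := 740881858) (W3 := 40050571) (N0 := 3) (En := eng) (mo := mog) (C1 := cd2q1) (C2 := cd5q3) (C3 := pd3)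
    rfl (fun _ => rfl) k0_pm_133

noncomputable def f_pm_202_a : ℕ → ℕ → ℕ → ℕ → Bool := onCell 0 536870912 0 536870912 740881858 40050571
    (rowB 3 eng mog cd2q2a cd5q2 pd0 1 false true false .pp 2 0 2 (qsf 0 536870912 1073741824 536870912 0) ndB2q2a ndB5q2 pcB0 Cut.none Ext.none)

def k0_pm_202_a : ∃ t, chk3 f_pm_202_a t 1 1 1 = true :=
  ⟨(a (b (b (b (a (b (l 15819656) (l 15917184)) (b (l 15673376) (l 15756592))) (a (a (l 16090936) (l 16027544)) (b (l 15848568) (l 15941336)))) (a (b (l 16220456) (b (l 16322672) (l 16377344))) (b (l 16076800) (l 16228088)))) (b (b (a (b (l 16427880) (l 16476032)) (b (l 16328440) (l 16381072))) (a (b (l 16514712) (l 16542696)) (b (l 16426520) (l 16464048)))) (a (l 2) (b (l 541266520487) (l 2))))) (a (b (b (b (l 4) (b (l 4) (l 15732728))) (b (a (l 15920424) (l 4)) (a (l 16087232) (l 15977800)))) (b (b (l 21709033543) (b (l 16283696) (l 16340456))) (b (b (a (l 16416416) (l 16355088)) (l 16424088)) (l 2)))) (b (l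 4) (b (b (a (l 16043312) (l 4)) (a (l 16190408) (l 16153528))) (b (a (l 16322552) (l 16300800)) (a (l 16451600) (l 16451768))))))), by decide +kernel⟩

theorem c_pm_202_a : CertB 0 536870912 1073741824 536870912 740881858 40050571 3 eng mog cd2q2a cd5q2 pd0 false true false .pp 2 0 2
    ndB2q2a ndB5q2 pcB0 Cut.none Ext.none :=
  certB1 (fam := false) (s1 := true) (s2 := false) (a := 2) (b := 0) (c := 2) (cn := .pp) (n1 := ndB2q2a) (n2 := ndB5q2) (pc := pcB0) (cut := Cut.none) (xt := Ext.none) (P1 := 0) (W1 := 536870912) (P2 := 1073741824) (W2 := 536870912) (P3 := 740881858) (W3 := 40050571) (N0 := 3) (En := eng) (mo := mog) (C1 := cd2q2a) (C2 := cd5q2) (C3 := pd0)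
    rfl (fun _ => rfl) k0_pm_202_a

noncomputable def f_pm_202_b : ℕ → ℕ → ℕ → ℕ → Bool := onCell 1239849684 370763052 0 536870912 740881858 40050571
    (rowB 3 eng mog cd2q2b cd5q2 pd0 1 false true false .pp 2 0 2 (qsf 1239849684 370763052 1073741824 536870912 0) ndB2q2b ndB5q2 pcB0 Cut.none Ext.none)

def k0_pm_202_b : ∃ t, chk3 f_pm_202_b t 1 1 1 = true :=
  ⟨(b (a (b (a (b (a (a (b (l 15922168) (l 16017592)) (l 16048656)) (b (l 16114080) (l 16200576))) (a (a (l 16317824) (l 16220440)) (l 16310264))) (b (a (l 16276136) (l 16354240)) (a (l 16397848) (l 16438440)))) (a (b (a (a (a (l 16281984) (l 16314168)) (l 16356560)) (l 16425392)) (a (a (b (l 16385264) (l 16438800)) (l 16460152)) (l 16512040))) (b (a (l 16483224) (l 16479296)) (a (l 16538728) (l 16486128))))) (b (a (b (a (l 16368752) (l 16322312)) (a (l 16409096) (l 16324592))) (b (a (l 16228424) (l 16149912)) (b (l 16208792) (l 2)))) (a (b (a (l 16404216) (l 16342728)) (l 2)) (l 2)))) (a (b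 (b (a (a (a (b (l 16483328) (l 16522872)) (l 16539856)) (b (l 16558248) (l 16585008))) (b (l 16560896) (l 2))) (a (a (b (a (l 16554864) (l 16582360)) (l 16594824)) (l 2)) (l 2))) (l 2)) (l 2))), by decide +kernel⟩

theorem c_pm_202_b : CertB 1239849684 370763052 1073741824 536870912 740881858 40050571 3 eng mog cd2q2b cd5q2 pd0 false true false .pp 2 0 2
    ndB2q2b ndB5q2 pcB0 Cut.none Ext.none :=
  certB1 (fam := false) (s1 := true) (s2 := false) (a := 2) (b := 0) (c := 2) (cn := .pp) (n1 := ndB2q2b) (n2 := ndB5q2) (pc := pcB0) (cut := Cut.none) (xt := Ext.none) (P1 := 1239849684) (W1 := 370763052) (P2 := 1073741824) (W2 := 536870912) (P3 := 740881858) (W3 := 40050571) (N0 := 3) (En := eng) (mo := mog) (C1 := cd2q2b) (C2 := cd5q2) (C3 := pd0)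
    rfl (fun _ => rfl) k0_pm_202_b

noncomputable def f_pm_203_a : ℕ → ℕ → ℕ → ℕ → Bool := onCell 0 536870912 0 1230186008 740881858 40050571
    (rowB 3 eng mog cd2q2a cd5q3 pd0 0 false true false .up 2 0 3 (qsf 0 536870912 0 1230186008 0) ndB2q2a ndB5q3 pcB0 Cut.none Ext.none)

def k0_pm_203_a : ∃ t, chk3 f_pm_203_a t 1 1 1 = true :=
  ⟨(b (l 2) (b (l 2) (a (b (a (b (l 2) (l 16670392)) (l 16681920)) (a (b (l 16613880) (b (l 16573960) (l 16547976))) (b (l 16566896) (b (l 16528424) (l 16494744))))) (b (l 2) (a (b (l 16563128) (b (l 16487784) (l 16432272))) (b (a (l 16624256) (l 2)) (a (b (l 16514848) (l 16440368)) (b (l 16616064) (l 16527952))))))))), by decide +kernel⟩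

theorem c_pm_203_a : CertB 0 536870912 0 1230186008 740881858 40050571 3 eng mog cd2q2a cd5q3 pd0 false true false .up 2 0 3
    ndB2q2a ndB5q3 pcB0 Cut.none Ext.none :=
  certB0 (fam := false) (s1 := true) (s2 := false) (a := 2) (b := 0) (c := 3) (cn := .up) (n1 := ndB2q2a) (n2 := ndB5q3) (pc := pcB0) (cut := Cut.none) (xt := Ext.none) (P1 := 0) (W1 := 536870912) (P2 := 0) (W2 := 1230186008) (P3 := 740881858) (W3 := 40050571) (N0 := 3) (En := eng) (mo := mog) (C1 := cd2q2a) (C2 := cd5q3) (C3 := pd0)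
    rfl k0_pm_203_a

noncomputable def f_pm_203_b : ℕ → ℕ → ℕ → ℕ → Bool := onCell 0 536870912 0 1230186008 740881858 40050571
    (rowB 3 eng mog cd2q2b cd5q3 pd0 2 false true false .up 2 0 3 (qsf 1239849684 370763052 0 1230186008 0) ndB2q2b ndB5q3 pcB0 Cut.none Ext.none)

def k0_pm_203_b : ∃ t, chk3 f_pm_203_b t 1 1 1 = true :=
  ⟨(b (l 3) (b (a (a (l 2) (b (l 2) (a (l 2) (b (l 2) (l 16477632))))) (a (b (l 3) (a (b (l 16587544) (l 16567360)) (b (l 147270647591) (b (l 16606432) (l 16610336))))) (b (b (l 3) (a (l 170892798231) (l 216526683751))) (a (b (b (l 16640488) (l 16650904)) (l 16658576)) (b (b (l 16680944) (l 16697560)) (l 16882272)))))) (a (b (a (l 2) (b (a (l 16327304) (l 16435112)) (a (l 16301168) (l 16428880)))) (a (b (a (l 2) (l 16170080)) (l 16181816)) (b (l 16384736) (a (l 16356048) (l 16478168))))) (a (b (a (b (l 16535376) (l 16539152)) (b (l 16623840) (l 16639248))) (a (b (l 16548160) (l 16789648)) (b (l 16649072) (a (l 16603664)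 (b (l 16617464) (l 16569848)))))) (b (b (l 16725680) (a (l 16713080) (b (l 16716248) (a (l 16689880) (l 16673632))))) (b (a (b (l 16677776) (a (l 16644840) (l 16623000))) (c (b (l 16652672) (l 16619768)) (b (l 16629512) (l 16587312)))) (a (c (b (l 16598272) (l 259878707655)) (b (l 16573000) (l 328061295303))) (l 1)))))))), by decide +kernel⟩

theorem c_pm_203_b : CertB 1239849684 370763052 0 1230186008 740881858 40050571 3 eng mog cd2q2b cd5q3 pd0 false true false .up 2 0 3
    ndB2q2b ndB5q3 pcB0 Cut.none Ext.none :=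
  certB2 (fam := false) (s1 := true) (s2 := false) (a := 2) (b := 0) (c := 3) (cn := .up) (n1 := ndB2q2b) (n2 := ndB5q3) (pc := pcB0) (cut := Cut.none) (xt := Ext.none) (P1 := 1239849684) (W1 := 370763052) (P2 := 0) (W2 := 1230186008) (P3 := 740881858) (W3 := 40050571) (N0 := 3) (En := eng) (mo := mog) (C1 := cd2q2b) (C2 := cd5q3) (C3 := pd0)
    rfl (fun _ => rfl) k0_pm_203_b

noncomputable def cut_pm_213_a : Cut := Cut.of [[⟨0, 1, 0, 67108864⟩, ⟨1, 1, 0, 67108864⟩, ⟨2, 2, 0, 16777216⟩]]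

noncomputable def f_pm_213_a : ℕ → ℕ → ℕ → ℕ → Bool := onCell 0 536870912 0 1230186008 740881858 40050571
    (rowB 3 eng mog cd2q2a cd5q3 pd1 0 false true false .pnn 2 1 3 (qsf 0 536870912 0 1230186008 1) ndB2q2a ndB5q3 pcB1 cut_pm_213_a Ext.none)

def k0_pm_213_a : ∃ t, chk3 f_pm_213_a t 1 1 1 = true :=
  ⟨(b (a (b (a (l 3) (l 3)) (b (a (b (l 3) (a (l 3) (l 317995313447))) (b (a (l 3) (b (l 339470155895) (l 255181551143))) (a (b (l 322290286279) (l 287393791143)) (b (l 16768672) (l 16765936))))) (a (b (a (b (l 334638313095) (l 306184158135)) (b (l 278803676951) (l 16760120))) (a (b (l 228337840215) (l 16759096)) (l 16755304))) (b (a (l 16760120) (l 16749376)) (a (l 16740400) (l 16733808)))))) (b (a (b (l 3) (a (b (l 3) (b (l 322827157783) (l 261623982007))) (a (b (l 351281314599) (l 209547493031)) (b (b (l 343765125623) (l 212768656487)) (l 16764656))))) (a (a (b (b (l 3) (b (l 3) (l 322827157639))) (b (b (l 204178712231) (l 16760336)) (l 16760280)))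 (b (l 6) (b (l 16761472) (l 16763360)))) (b (l 6) (b (a (l 16760448) (l 16756952)) (a (l 16764688) (l 16768648)))))) (a (b (a (b (b (l 16770568) (l 16773472)) (l 16765440)) (b (l 16778472) (l 16782896))) (b (a (l 16750960) (l 16773440)) (a (l 16739752) (l 16764992)))) (b (a (b (l 16817936) (l 16809560)) (b (l 16794816) (l 16813400))) (a (l 16799576) (l 16802072)))))) (b (a (b (a (b (a (l 16750088) (l 16730792)) (a (l 16723688) (l 16711184))) (b (a (l 16723288) (l 16718408)) (l 16698528))) (a (b (l 16689632) (l 16650752)) (b (l 16668480) (l 16641832)))) (b (a (b (l 16739088) (l 16717352)) (b (l 16784256) (l 16758464))) (a (b (l 16691384) (l 16655608)) (l 16704680)))) (a (b (a (b (l 16623032) (l 16585976)) (l 16596288)) (a (l 1) (b (l 16532752) (l 1)))) (b (a (l 16618368) (b (l 16663792) (l 16629704))) (a (b (l 16552240) (l 1)) (b (a (l 16610632) (l 16599968)) (a (l 16473736) (l 16552640)))))))), by decide +kernel⟩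

theorem c_pm_213_a : CertB 0 536870912 0 1230186008 740881858 40050571 3 eng mog cd2q2a cd5q3 pd1 false true false .pnn 2 1 3
    ndB2q2a ndB5q3 pcB1 cut_pm_213_a Ext.none :=
  certB0 (fam := false) (s1 := true) (s2 := false) (a := 2) (b := 1) (c := 3) (cn := .pnn) (n1 := ndB2q2a) (n2 := ndB5q3) (pc := pcB1) (cut := cut_pm_213_a) (xt := Ext.none) (P1 := 0) (W1 := 536870912) (P2 := 0) (W2 := 1230186008) (P3 := 740881858) (W3 := 40050571) (N0 := 3) (En := eng) (mo := mog) (C1 := cd2q2a) (C2 := cd5q3) (C3 := pd1)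
    rfl k0_pm_213_a

noncomputable def cut_pm_213_b : Cut := Cut.of [[⟨0, 1, 0, 67108864⟩, ⟨1, 1, 0, 67108864⟩, ⟨2, 2, 0, 16777216⟩]]

noncomputable def f_pm_213_b : ℕ → ℕ → ℕ → ℕ → Bool := onCell 1239849684 370763052 0 1230186008 740881858 40050571
    (rowB 3 eng mog cd2q2b cd5q3 pd1 0 false true false .pnn 2 1 3 (qsf 1239849684 370763052 0 1230186008 1) ndB2q2b ndB5q3 pcB1 cut_pm_213_b Ext.none)

def k0_pm_213_b : ∃ t, chk3 f_pm_213_b t 1 1 1 = true :=
  ⟨(b (a (b (l 3) (a (b (l 3) (b (l 3) (a (a (a (a (a (a (l 236391001415) (l 16782568)) (l 16792824)) (l 239075254775)) (l 255718405799)) (l 264308381575)) (b (l 3) (l 270750830087))))) (l 3))) (l 3)) (b (a (b (a (a (b (a (a (b (l 16759736) (l 16754352)) (l 16760208)) (l 16759552)) (a (a (l 16730904) (l 16741800)) (l 16753632))) (b (b (l 16755840) (l 16743624)) (l 16755936))) (b (a (b (l 275045441527) (l 16714408)) (l 269139987591)) (a (l 16729736) (l 16849520)))) (a (b (a (a (l 16707616) (l 16719936))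 (l 16750456)) (a (a (l 16674264) (l 16681368)) (l 16703720))) (b (a (l 16749824) (l 16728912)) (l 16741792)))) (b (a (b (l 3) (a (l 270750774935) (l 1))) (l 1)) (l 1))) (a (b (a (b (a (a (l 16628488) (l 16631384)) (l 16640808)) (a (l 16592472) (l 1))) (l 1)) (l 1)) (l 1)))), by decide +kernel⟩

theorem c_pm_213_b : CertB 1239849684 370763052 0 1230186008 740881858 40050571 3 eng mog cd2q2b cd5q3 pd1 false true false .pnn 2 1 3
    ndB2q2b ndB5q3 pcB1 cut_pm_213_b Ext.none :=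
  certB0 (fam := false) (s1 := true) (s2 := false) (a := 2) (b := 1) (c := 3) (cn := .pnn) (n1 := ndB2q2b) (n2 := ndB5q3) (pc := pcB1) (cut := cut_pm_213_b) (xt := Ext.none) (P1 := 1239849684) (W1 := 370763052) (P2 := 0) (W2 := 1230186008) (P3 := 740881858) (W3 := 40050571) (N0 := 3) (En := eng) (mo := mog) (C1 := cd2q2b) (C2 := cd5q3) (C3 := pd1)
    rfl k0_pm_213_b

noncomputable def f_pm_303 : ℕ → ℕ → ℕ → ℕ → Bool := onCell 0 536870912 0 1230186008 740881858 40050571
    (rowB 3 eng mog cd2q3 cd5q3 pd0 2 false true false .npn 3 0 3 (qsf 1610612736 536870912 0 1230186008 0) ndB2q3 ndB5q3 pcB0 Cut.none Ext.none)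

def k0_pm_303 : ∃ t, chk3 f_pm_303 t 1 1 1 = true :=
  ⟨(b (l 3) (b (b (a (l 3) (a (l 3) (b (l 3) (l 1)))) (a (b (a (l 3) (a (l 3) (l 199883189015))) (a (a (l 16058368) (l 167670412775)) (a (l 168207623303) (l 16419824)))) (a (a (b (l 198809672455) (l 16536232)) (b (l 153713002695) (l 1))) (l 1)))) (a (b (a (b (a (l 15969816) (l 16102176)) (a (l 15971600) (l 16107760))) (b (a (l 16259904) (l 16393400)) (l 16207032))) (a (b (a (l 15952608) (l 16130184)) (l 16159296)) (b (l 16370288) (l 1)))) (l 1)))), by decide +kernel⟩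

theorem c_pm_303 : CertB 1610612736 536870912 0 1230186008 740881858 40050571 3 eng mog cd2q3 cd5q3 pd0 false true false .npn 3 0 3
    ndB2q3 ndB5q3 pcB0 Cut.none Ext.none :=
  certB2 (fam := false) (s1 := true) (s2 := false) (a := 3) (b := 0) (c := 3) (cn := .npn) (n1 := ndB2q3) (n2 := ndB5q3) (pc := pcB0) (cut := Cut.none) (xt := Ext.none) (P1 := 1610612736) (W1 := 536870912) (P2 := 0) (W2 := 1230186008) (P3 := 740881858) (W3 := 40050571) (N0 := 3) (En := eng) (mo := mog) (C1 := cd2q3) (C2 := cd5q3) (C3 := pd0)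
    rfl (fun _ => rfl) k0_pm_303

noncomputable def f_pm_313 : ℕ → ℕ → ℕ → ℕ → Bool := onCell 1610612736 536870912 0 1230186008 740881858 40050571
    (rowB 3 eng mog cd2q3 cd5q3 pd1 0 false true false .dn 3 1 3 (qsf 1610612736 536870912 0 1230186008 1) ndB2q3 ndB5q3 pcB1 Cut.none Ext.none)

def k0_pm_313 : ∃ t, chk3 f_pm_313 t 1 1 1 = true :=
  ⟨(b (l 3) (l 1)), by decide +kernel⟩

theorem c_pm_313 : CertB 1610612736 536870912 0 1230186008 740881858 40050571 3 eng mog cd2q3 cd5q3 pd1 false true false .dn 3 1 3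
    ndB2q3 ndB5q3 pcB1 Cut.none Ext.none :=
  certB0 (fam := false) (s1 := true) (s2 := false) (a := 3) (b := 1) (c := 3) (cn := .dn) (n1 := ndB2q3) (n2 := ndB5q3) (pc := pcB1) (cut := Cut.none) (xt := Ext.none) (P1 := 1610612736) (W1 := 536870912) (P2 := 0) (W2 := 1230186008) (P3 := 740881858) (W3 := 40050571) (N0 := 3) (En := eng) (mo := mog) (C1 := cd2q3) (C2 := cd5q3) (C3 := pd1)
    rfl k0_pm_313

noncomputable def f_mm_001 : ℕ → ℕ → ℕ → ℕ → Bool := onCell 0 536870912 0 536870912 740881858 40050571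
    (rowB 3 eng mog cd2q0 cd5q1 pd0 1 false false false .up 0 0 1 (qsf 0 536870912 536870912 536870912 0) ndB2q0 ndB5q1 pcB0 Cut.none Ext.none)

def k0_mm_001 : ∃ t, chk3 f_mm_001 t 1 1 1 = true :=
  ⟨(l 3), by decide +kernel⟩

theorem c_mm_001 : CertB 0 536870912 536870912 536870912 740881858 40050571 3 eng mog cd2q0 cd5q1 pd0 false false false .up 0 0 1
    ndB2q0 ndB5q1 pcB0 Cut.none Ext.none :=
  certB1 (fam := false) (s1 := false) (s2 := false) (a := 0) (b := 0) (c := 1) (cn := .up) (n1 := ndB2q0) (n2 := ndB5q1) (pc := pcB0) (cut := Cut.none) (xt := Ext.none) (P1 := 0) (W1 := 536870912) (P2 := 536870912) (W2 := 536870912) (P3 := 740881858) (W3 := 40050571) (N0 := 3) (En := eng) (mo := mog) (C1 := cd2q0) (C2 := cd5q1) (C3 := pd0)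
    rfl (fun _ => rfl) k0_mm_001

noncomputable def f_mm_011 : ℕ → ℕ → ℕ → ℕ → Bool := onCell 0 536870912 536870912 536870912 740881858 40050571
    (rowB 3 eng mog cd2q0 cd5q1 pd1 1 false false false .pnn 0 1 1 (qsf 0 536870912 536870912 536870912 1) ndB2q0 ndB5q1 pcB1 Cut.none Ext.none)

def k0_mm_011 : ∃ t, chk3 f_mm_011 t 1 1 1 = true :=
  ⟨(l 5), by decide +kernel⟩

theorem c_mm_011 : CertB 0 536870912 536870912 536870912 740881858 40050571 3 eng mog cd2q0 cd5q1 pd1 false false false .pnn 0 1 1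
    ndB2q0 ndB5q1 pcB1 Cut.none Ext.none :=
  certB1 (fam := false) (s1 := false) (s2 := false) (a := 0) (b := 1) (c := 1) (cn := .pnn) (n1 := ndB2q0) (n2 := ndB5q1) (pc := pcB1) (cut := Cut.none) (xt := Ext.none) (P1 := 0) (W1 := 536870912) (P2 := 536870912) (W2 := 536870912) (P3 := 740881858) (W3 := 40050571) (N0 := 3) (En := eng) (mo := mog) (C1 := cd2q0) (C2 := cd5q1) (C3 := pd1)
    rfl (fun _ => rfl) k0_mm_011

noncomputable def f_mm_012 : ℕ → ℕ → ℕ → ℕ → Bool := onCell 0 536870912 1073741824 536870912 740881858 40050571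
    (rowB 3 eng mog cd2q0 cd5q2 pd1 0 false false false .pnp 0 1 2 (qsf 0 536870912 1073741824 536870912 1) ndB2q0 ndB5q2 pcB1 Cut.none Ext.none)

def k0_mm_012 : ∃ t, chk3 f_mm_012 t 1 1 1 = true :=
  ⟨(l 5), by decide +kernel⟩

theorem c_mm_012 : CertB 0 536870912 1073741824 536870912 740881858 40050571 3 eng mog cd2q0 cd5q2 pd1 false false false .pnp 0 1 2
    ndB2q0 ndB5q2 pcB1 Cut.none Ext.none :=
  certB0 (fam := false) (s1 := false) (s2 := false) (a := 0) (b := 1) (c := 2) (cn := .pnp) (n1 := ndB2q0) (n2 := ndB5q2) (pc := pcB1) (cut := Cut.none) (xt := Ext.none) (P1 := 0) (W1 := 536870912) (P2 := 1073741824) (W2 := 536870912) (P3 := 740881858) (W3 := 40050571) (N0 := 3) (En := eng) (mo := mog) (C1 := cd2q0) (C2 := cd5q2) (C3 := pd1)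
    rfl k0_mm_012

noncomputable def f_mm_022 : ℕ → ℕ → ℕ → ℕ → Bool := onCell 0 536870912 1073741824 536870912 740881858 40050571
    (rowB 3 eng mog cd2q0 cd5q2 pd2 0 false false false .pp 0 2 2 (qsf 0 536870912 1073741824 536870912 2) ndB2q0 ndB5q2 pcB2 Cut.none Ext.none)

def k0_mm_022 : ∃ t, chk3 f_mm_022 t 1 1 1 = true :=
  ⟨(l 5), by decide +kernel⟩

theorem c_mm_022 : CertB 0 536870912 1073741824 536870912 740881858 40050571 3 eng mog cd2q0 cd5q2 pd2 false false false .pp 0 2 2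
    ndB2q0 ndB5q2 pcB2 Cut.none Ext.none :=
  certB0 (fam := false) (s1 := false) (s2 := false) (a := 0) (b := 2) (c := 2) (cn := .pp) (n1 := ndB2q0) (n2 := ndB5q2) (pc := pcB2) (cut := Cut.none) (xt := Ext.none) (P1 := 0) (W1 := 536870912) (P2 := 1073741824) (W2 := 536870912) (P3 := 740881858) (W3 := 40050571) (N0 := 3) (En := eng) (mo := mog) (C1 := cd2q0) (C2 := cd5q2) (C3 := pd2)
    rfl k0_mm_022

noncomputable def f_mm_023 : ℕ → ℕ → ℕ → ℕ → Bool := onCell 0 536870912 0 1230186008 740881858 40050571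
    (rowB 3 eng mog cd2q0 cd5q3 pd2 0 false false false .up 0 2 3 (qsf 0 536870912 0 1230186008 2) ndB2q0 ndB5q3 pcB2 Cut.none Ext.none)

def k0_mm_023 : ∃ t, chk3 f_mm_023 t 1 1 1 = true :=
  ⟨(l 5), by decide +kernel⟩

theorem c_mm_023 : CertB 0 536870912 0 1230186008 740881858 40050571 3 eng mog cd2q0 cd5q3 pd2 false false false .up 0 2 3
    ndB2q0 ndB5q3 pcB2 Cut.none Ext.none :=
  certB0 (fam := false) (s1 := false) (s2 := false) (a := 0) (b := 2) (c := 3) (cn := .up) (n1 := ndB2q0) (n2 := ndB5q3) (pc := pcB2) (cut := Cut.none) (xt := Ext.none) (P1 := 0) (W1 := 536870912) (P2 := 0) (W2 := 1230186008) (P3 := 740881858) (W3 := 40050571) (N0 := 3) (En := eng) (mo := mog) (C1 := cd2q0) (C2 := cd5q3) (C3 := pd2)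
    rfl k0_mm_023

noncomputable def f_mm_033 : ℕ → ℕ → ℕ → ℕ → Bool := onCell 0 536870912 0 1230186008 740881858 40050571
    (rowB 3 eng mog cd2q0 cd5q3 pd3 0 false false false .pnn 0 3 3 (qsf 0 536870912 0 1230186008 3) ndB2q0 ndB5q3 pcB3 Cut.none Ext.none)

def k0_mm_033 : ∃ t, chk3 f_mm_033 t 1 1 1 = true :=
  ⟨(l 5), by decide +kernel⟩

theorem c_mm_033 : CertB 0 536870912 0 1230186008 740881858 40050571 3 eng mog cd2q0 cd5q3 pd3 false false false .pnn 0 3 3
    ndB2q0 ndB5q3 pcB3 Cut.none Ext.none :=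
  certB0 (fam := false) (s1 := false) (s2 := false) (a := 0) (b := 3) (c := 3) (cn := .pnn) (n1 := ndB2q0) (n2 := ndB5q3) (pc := pcB3) (cut := Cut.none) (xt := Ext.none) (P1 := 0) (W1 := 536870912) (P2 := 0) (W2 := 1230186008) (P3 := 740881858) (W3 := 40050571) (N0 := 3) (En := eng) (mo := mog) (C1 := cd2q0) (C2 := cd5q3) (C3 := pd3)
    rfl k0_mm_033

noncomputable def f_mm_101 : ℕ → ℕ → ℕ → ℕ → Bool := onCell 536870912 536870912 536870912 536870912 740881858 40050571
    (rowB 3 eng mog cd2q1 cd5q1 pd0 0 false false false .npn 1 0 1 (qsf 536870912 536870912 536870912 536870912 0) ndB2q1 ndB5q1 pcB0 Cut.none Ext.none)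

def k0_mm_101 : ∃ t, chk3 f_mm_101 t 1 1 1 = true :=
  ⟨(l 3), by decide +kernel⟩

theorem c_mm_101 : CertB 536870912 536870912 536870912 536870912 740881858 40050571 3 eng mog cd2q1 cd5q1 pd0 false false false .npn 1 0 1
    ndB2q1 ndB5q1 pcB0 Cut.none Ext.none :=
  certB0 (fam := false) (s1 := false) (s2 := false) (a := 1) (b := 0) (c := 1) (cn := .npn) (n1 := ndB2q1) (n2 := ndB5q1) (pc := pcB0) (cut := Cut.none) (xt := Ext.none) (P1 := 536870912) (W1 := 536870912) (P2 := 536870912) (W2 := 536870912) (P3 := 740881858) (W3 := 40050571) (N0 := 3) (En := eng) (mo := mog) (C1 := cd2q1) (C2 := cd5q1) (C3 := pd0)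
    rfl k0_mm_101

noncomputable def f_mm_102 : ℕ → ℕ → ℕ → ℕ → Bool := onCell 536870912 536870912 1073741824 536870912 740881858 40050571
    (rowB 3 eng mog cd2q1 cd5q2 pd0 0 false false false .npp 1 0 2 (qsf 536870912 536870912 1073741824 536870912 0) ndB2q1 ndB5q2 pcB0 Cut.none Ext.none)

def k0_mm_102 : ∃ t, chk3 f_mm_102 t 1 1 1 = true :=
  ⟨(l 3), by decide +kernel⟩

theorem c_mm_102 : CertB 536870912 536870912 1073741824 536870912 740881858 40050571 3 eng mog cd2q1 cd5q2 pd0 false false false .npp 1 0 2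
    ndB2q1 ndB5q2 pcB0 Cut.none Ext.none :=
  certB0 (fam := false) (s1 := false) (s2 := false) (a := 1) (b := 0) (c := 2) (cn := .npp) (n1 := ndB2q1) (n2 := ndB5q2) (pc := pcB0) (cut := Cut.none) (xt := Ext.none) (P1 := 536870912) (W1 := 536870912) (P2 := 1073741824) (W2 := 536870912) (P3 := 740881858) (W3 := 40050571) (N0 := 3) (En := eng) (mo := mog) (C1 := cd2q1) (C2 := cd5q2) (C3 := pd0)
    rfl k0_mm_102

noncomputable def f_mm_112 : ℕ → ℕ → ℕ → ℕ → Bool := onCell 536870912 536870912 1073741824 536870912 740881858 40050571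
    (rowB 3 eng mog cd2q1 cd5q2 pd1 0 false false false .dn 1 1 2 (qsf 536870912 536870912 1073741824 536870912 1) ndB2q1 ndB5q2 pcB1 Cut.none Ext.none)

def k0_mm_112 : ∃ t, chk3 f_mm_112 t 1 1 1 = true :=
  ⟨(l 3), by decide +kernel⟩

theorem c_mm_112 : CertB 536870912 536870912 1073741824 536870912 740881858 40050571 3 eng mog cd2q1 cd5q2 pd1 false false false .dn 1 1 2
    ndB2q1 ndB5q2 pcB1 Cut.none Ext.none :=
  certB0 (fam := false) (s1 := false) (s2 := false) (a := 1) (b := 1) (c := 2) (cn := .dn) (n1 := ndB2q1) (n2 := ndB5q2) (pc := pcB1) (cut := Cut.none) (xt := Ext.none) (P1 := 536870912) (W1 := 536870912) (P2 := 1073741824) (W2 := 536870912) (P3 := 740881858) (W3 := 40050571) (N0 := 3) (En := eng) (mo := mog) (C1 := cd2q1) (C2 := cd5q2) (C3 := pd1)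
    rfl k0_mm_112

noncomputable def f_mm_113 : ℕ → ℕ → ℕ → ℕ → Bool := onCell 536870912 536870912 0 1230186008 740881858 40050571
    (rowB 3 eng mog cd2q1 cd5q3 pd1 0 false false false .nn 1 1 3 (qsf 536870912 536870912 0 1230186008 1) ndB2q1 ndB5q3 pcB1 Cut.none Ext.none)

def k0_mm_113 : ∃ t, chk3 f_mm_113 t 1 1 1 = true :=
  ⟨(l 5), by decide +kernel⟩

theorem c_mm_113 : CertB 536870912 536870912 0 1230186008 740881858 40050571 3 eng mog cd2q1 cd5q3 pd1 false false false .nn 1 1 3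
    ndB2q1 ndB5q3 pcB1 Cut.none Ext.none :=
  certB0 (fam := false) (s1 := false) (s2 := false) (a := 1) (b := 1) (c := 3) (cn := .nn) (n1 := ndB2q1) (n2 := ndB5q3) (pc := pcB1) (cut := Cut.none) (xt := Ext.none) (P1 := 536870912) (W1 := 536870912) (P2 := 0) (W2 := 1230186008) (P3 := 740881858) (W3 := 40050571) (N0 := 3) (En := eng) (mo := mog) (C1 := cd2q1) (C2 := cd5q3) (C3 := pd1)
    rfl k0_mm_113

noncomputable def f_mm_123 : ℕ → ℕ → ℕ → ℕ → Bool := onCell 536870912 536870912 0 1230186008 740881858 40050571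
    (rowB 3 eng mog cd2q1 cd5q3 pd2 0 false false false .npn 1 2 3 (qsf 536870912 536870912 0 1230186008 2) ndB2q1 ndB5q3 pcB2 Cut.none Ext.none)

def k0_mm_123 : ∃ t, chk3 f_mm_123 t 1 1 1 = true :=
  ⟨(l 5), by decide +kernel⟩

theorem c_mm_123 : CertB 536870912 536870912 0 1230186008 740881858 40050571 3 eng mog cd2q1 cd5q3 pd2 false false false .npn 1 2 3
    ndB2q1 ndB5q3 pcB2 Cut.none Ext.none :=
  certB0 (fam := false) (s1 := false) (s2 := false) (a := 1) (b := 2) (c := 3) (cn := .npn) (n1 := ndB2q1) (n2 := ndB5q3) (pc := pcB2) (cut := Cut.none) (xt := Ext.none) (P1 := 536870912) (W1 := 536870912) (P2 := 0) (W2 := 1230186008) (P3 := 740881858) (W3 := 40050571) (N0 := 3) (En := eng) (mo := mog) (C1 := cd2q1) (C2 := cd5q3) (C3 := pd2)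
    rfl k0_mm_123

noncomputable def f_mm_133 : ℕ → ℕ → ℕ → ℕ → Bool := onCell 536870912 536870912 0 1230186008 740881858 40050571
    (rowB 3 eng mog cd2q1 cd5q3 pd3 0 false false false .dn 1 3 3 (qsf 536870912 536870912 0 1230186008 3) ndB2q1 ndB5q3 pcB3 Cut.none Ext.none)

def k0_mm_133 : ∃ t, chk3 f_mm_133 t 1 1 1 = true :=
  ⟨(l 5), by decide +kernel⟩

theorem c_mm_133 : CertB 536870912 536870912 0 1230186008 740881858 40050571 3 eng mog cd2q1 cd5q3 pd3 false false false .dn 1 3 3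
    ndB2q1 ndB5q3 pcB3 Cut.none Ext.none :=
  certB0 (fam := false) (s1 := false) (s2 := false) (a := 1) (b := 3) (c := 3) (cn := .dn) (n1 := ndB2q1) (n2 := ndB5q3) (pc := pcB3) (cut := Cut.none) (xt := Ext.none) (P1 := 536870912) (W1 := 536870912) (P2 := 0) (W2 := 1230186008) (P3 := 740881858) (W3 := 40050571) (N0 := 3) (En := eng) (mo := mog) (C1 := cd2q1) (C2 := cd5q3) (C3 := pd3)
    rfl k0_mm_133

noncomputable def cut_mm_202_a : Cut := Cut.of [[⟨0, 1, 0, 67108864⟩, ⟨1, 0, 0, 67108864⟩, ⟨2, 1, 0, 67108864⟩]]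

noncomputable def f_mm_202_a : ℕ → ℕ → ℕ → ℕ → Bool := onCell 0 536870912 0 536870912 740881858 40050571
    (rowB 3 eng mog cd2q2a cd5q2 pd0 1 false false false .pp 2 0 2 (qsf 0 536870912 1073741824 536870912 0) ndB2q2a ndB5q2 pcB0 cut_mm_202_a Ext.none)

def k0_mm_202_a : ∃ t, chk3 f_mm_202_a t 2 1 1 = true :=
  ⟨(b (b (b (a (b (a (l 16510792) (l 16406944)) (a (l 16434568) (l 16453120))) (b (a (l 16497880) (b (l 16463496) (l 16485128))) (a (b (l 16468272) (l 16490248)) (b (l 16506280) (a (b (l 16511168) (l 16522096)) (b (a (l 16527368) (l 16539168)) (l 16542888))))))) (a (a (b (l 16480352) (b (l 16511384) (l 16577696))) (b (b (l 16486904) (l 16509728)) (b (a (l 16523520) (l 16533976)) (a (l 16542160) (l 16552904))))) (b (a (b (a (l 16506464) (l 16521072)) (a (l 16526528) (l 16541648))) (b (a (b (l 16532152) (l 16543072)) (b (l 16553304) (l 16563952))) (a (b (l 16553816) (l 16564800)) (a (l 16511336) (l 16585368))))) (a (b (a (l 16546960) (l 16623488))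 (a (l 16566032) (l 16581536))) (b (a (l 16580248) (l 16601416)) (a (l 16600176) (l 193977918183))))))) (b (a (b (a (b (l 16547728) (l 16563984)) (b (a (l 16559472) (l 16570208)) (a (l 16575504) (l 16586368)))) (a (b (a (l 16576392) (l 16582584)) (a (l 16591648) (l 16598184))) (a (l 16619992) (b (l 16600984) (l 16614808))))) (b (a (b (a (l 16583400) (l 16595848)) (a (l 16596720) (l 16629648))) (b (a (l 192367273335) (l 200420386935)) (a (l 197736025063) (l 3)))) (a (b (a (l 16610800) (l 152101999847)) (l 203641566615)) (l 3)))) (a (a (b (b (l 16610488) (l 16656336)) (a (b (l 16635616) (l 16648576)) (b (l 173039964807) (l 212231573015)))) (b (b (l 170892498391) (a (l 194514800327) (l 3))) (b (l 222968958551) (l 3)))) (l 3)))) (b (b (a (b (a (a (b (l 197736125207) (l 256791871287)) (l 3)) (l 3)) (l 3)) (l 3)) (l 3)) (l 3))), by decide +kernel⟩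

def k1_mm_202_a : ∃ t, chk3 f_mm_202_a t 6 4 1 = true :=
  ⟨(b (b (a (a (a (l 16484512) (l 16514608)) (l 16575032)) (a (b (l 16505456) (b (l 16584768) (l 16596440))) (b (l 16608776) (b (l 16647936) (a (l 16624712) (l 16644440)))))) (a (b (a (b (l 16538696) (a (l 16542096) (l 16555936))) (b (b (a (l 16558672) (l 16575432)) (l 16571888)) (a (l 16570464) (l 16586664)))) (b (a (l 16558104) (l 16610232)) (a (l 16568048) (a (l 16589536) (l 16604960))))) (b (a (b (b (l 16580840) (l 16606496)) (l 16650848)) (b (b (l 16663936) (l 16688568)) (a (l 16641904) (l 16663480)))) (a (b (a (l 16612736) (l 16631304)) (l 16631408)) (b (l 16695592) (c (l 86066966183) (l 73182067527))))))) (b (a (b (a (b (l 16557168) (a (l 16581480) (l 16594992))) (a (a (l 16600416) (l 16608112)) (l 16620000))) (a (l 16636024) (b (l 16648408) (l 145122688743)))) (b (a (b (l 16661760) (l 125258496359)) (l 3)) (l 3))) (a (b (a (c (l 159081352791) (l 147807054071)) (l 3)) (l 3)) (l 3)))),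 by decide +kernel⟩

def k2_mm_202_a : ∃ t, chk3 f_mm_202_a t 7 4 1 = true :=
  ⟨(b (a (b (b (a (b (l 16647048) (b (l 16655784) (l 16676976))) (b (a (l 16674200) (l 6)) (a (l 16702752) (a (l 16711104) (l 6))))) (b (a (a (l 16654824) (b (l 16665336) (l 16667344))) (b (a (c (l 16701288) (l 16701136)) (a (l 16694224) (l 6))) (a (l 16706112) (a (l 16698384) (l 16707504))))) (a (a (b (l 16658464) (l 16663544)) (b (l 16692696) (l 16675880))) (a (b (l 16688880) (a (l 16688096) (l 16696808))) (b (a (l 16702016) (l 16732608)) (l 359871109783)))))) (a (b (b (a (b (l 16667296) (l 16670472)) (a (l 16656192) (l 273434842519))) (a (l 16675968) (a (l 465097759591) (l 3)))) (b (a (l 309405247271) (l 3)) (l 3))) (b (a (b (a (l 279340440679) (l 504826247287)) (l 3)) (l 3)) (l 3)))) (b (a (b (l 6) (b (l 6) (l 3))) (l 6)) (l 3))) (l 3)), by decide +kernel⟩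

def k3_mm_202_a : ∃ t, chk3 f_mm_202_a t 3 5 1 = true :=
  ⟨(l 3), by decide +kernel⟩

def k4_mm_202_a : ∃ t, chk3 f_mm_202_a t 3 3 1 = true :=
  ⟨(l 3), by decide +kernel⟩

theorem s5_mm_202_a : ∃ t, chk3 f_mm_202_a t 3 4 1 = true := ex3_a k1_mm_202_a k2_mm_202_a

theorem s6_mm_202_a : ∃ t, chk3 f_mm_202_a t 3 2 1 = true := ex3_b s5_mm_202_a k3_mm_202_a

theorem s7_mm_202_a : ∃ t, chk3 f_mm_202_a t 3 1 1 = true := ex3_b s6_mm_202_a k4_mm_202_a

theorem s8_mm_202_a : ∃ t, chk3 f_mm_202_a t 1 1 1 = true := ex3_a k0_mm_202_a s7_mm_202_a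

theorem c_mm_202_a : CertB 0 536870912 1073741824 536870912 740881858 40050571 3 eng mog cd2q2a cd5q2 pd0 false false false .pp 2 0 2
    ndB2q2a ndB5q2 pcB0 cut_mm_202_a Ext.none :=
  certB1 (fam := false) (s1 := false) (s2 := false) (a := 2) (b := 0) (c := 2) (cn := .pp) (n1 := ndB2q2a) (n2 := ndB5q2) (pc := pcB0) (cut := cut_mm_202_a) (xt := Ext.none) (P1 := 0) (W1 := 536870912) (P2 := 1073741824) (W2 := 536870912) (P3 := 740881858) (W3 := 40050571) (N0 := 3) (En := eng) (mo := mog) (C1 := cd2q2a) (C2 := cd5q2) (C3 := pd0)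
    rfl (fun _ => rfl) s8_mm_202_a

noncomputable def cut_mm_202_b : Cut := Cut.of [[⟨0, 1, 0, 67108864⟩, ⟨1, 0, 0, 67108864⟩, ⟨2, 1, 0, 67108864⟩]]

noncomputable def f_mm_202_b : ℕ → ℕ → ℕ → ℕ → Bool := onCell 1239849684 370763052 0 536870912 740881858 40050571
    (rowB 3 eng mog cd2q2b cd5q2 pd0 1 false false false .pp 2 0 2 (qsf 1239849684 370763052 1073741824 536870912 0) ndB2q2b ndB5q2 pcB0 cut_mm_202_b Ext.none)

def k0_mm_202_b : ∃ t, chk3 f_mm_202_b t 2 2 1 = true :=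
  ⟨(b (a (b (a (a (a (b (a (l 16375016) (l 16369288)) (l 16421592)) (b (l 16360736) (l 16410024))) (b (l 16449312) (l 16390896))) (b (l 16308000) (l 16347776))) (a (a (a (b (l 16467280) (l 16507160)) (b (l 16454064) (l 16491088))) (b (l 16432224) (b (l 16458400) (l 16474320)))) (a (b (l 16399176) (b (l 16422008) (l 16435016))) (b (l 16438456) (b (l 16376008) (l 16384320)))))) (b (a (b (l 16248152) (l 16312776)) (b (l 16157856) (a (l 16188040) (l 16144304)))) (a (a (b (l 16432920) (b (l 16319216) (l 16353608))) (b (b (l 16252856) (l 16254496)) (b (l 16275616) (l 16289144)))) (b (a (b (l 16198312) (l 16221512)) (b (l 16163808) (l 16179376))) (a (c (l 16280152) (l 16391216)) (l 133310688007)))))) (a (b (a (a (b (a (a (l 16545752) (l 16537472)) (l 16524648)) (a (a (l 16577208) (l 16568168)) (l 16554184))) (b (l 16596672) (b (l 16515464) (l 16529560)))) (b (a (b (l 16443904) (l 16455400)) (b (l 16394736) (l 16409160))) (a (b (l 16469936) (l 16484216))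 (a (l 16444032) (l 16424016))))) (b (a (a (a (a (a (l 16609896) (l 16605416)) (l 16598408)) (l 16582504)) (b (l 16542784) (l 16556856))) (a (b (l 16500456) (l 16518048)) (a (l 142974867767) (l 3)))) (a (a (b (a (a (l 16628848) (l 16618168)) (l 16602208)) (a (a (l 16662672) (l 16631288)) (l 16616136))) (b (l 16572008) (l 158007493863))) (l 3)))) (b (b (a (a (b (l 16348032) (a (l 16374320) (l 16353184))) (b (l 74255097383) (l 79086971159))) (b (a (l 16270216) (l 3)) (l 3))) (a (a (b (l 103783126311) (l 3)) (l 3)) (l 3))) (l 3)))), by decide +kernel⟩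

def k1_mm_202_b : ∃ t, chk3 f_mm_202_b t 3 2 1 = true :=
  ⟨(b (a (b (a (b (a (l 16080984) (l 16029512)) (a (l 16168960) (l 16064248))) (b (b (l 15956808) (l 16106616)) (a (l 16181864) (l 3)))) (a (b (a (l 132236850055) (b (l 16098464) (l 3))) (l 3)) (l 3))) (b (b (a (a (l 15924352) (l 3)) (l 3)) (l 3)) (l 3))) (l 3)), by decide +kernel⟩

def k2_mm_202_b : ∃ t, chk3 f_mm_202_b t 1 3 1 = true :=
  ⟨(a (b (a (b (a (a (b (c (a (a (b (l 16656112) (l 227800855927)) (l 203641683927)) (l 192367392791)) (a (a (b (l 16654376) (l 191293644199)) (l 197736109575)) (l 191293651319))) (l 3)) (l 3)) (l 3)) (l 3)) (l 3)) (l 2)) (l 2)), by decide +kernel⟩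

theorem s3_mm_202_b : ∃ t, chk3 f_mm_202_b t 1 2 1 = true := ex3_a k0_mm_202_b k1_mm_202_b

theorem s4_mm_202_b : ∃ t, chk3 f_mm_202_b t 1 1 1 = true := ex3_b s3_mm_202_b k2_mm_202_b

theorem c_mm_202_b : CertB 1239849684 370763052 1073741824 536870912 740881858 40050571 3 eng mog cd2q2b cd5q2 pd0 false false false .pp 2 0 2
    ndB2q2b ndB5q2 pcB0 cut_mm_202_b Ext.none :=
  certB1 (fam := false) (s1 := false) (s2 := false) (a := 2) (b := 0) (c := 2) (cn := .pp) (n1 := ndB2q2b) (n2 := ndB5q2) (pc := pcB0) (cut := cut_mm_202_b) (xt := Ext.none) (P1 := 1239849684) (W1 := 370763052) (P2 := 1073741824) (W2 := 536870912) (P3 := 740881858) (W3 := 40050571) (N0 := 3) (En := eng) (mo := mog) (C1 := cd2q2b) (C2 := cd5q2) (C3 := pd0)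
    rfl (fun _ => rfl) s4_mm_202_b

noncomputable def f_mm_203_a : ℕ → ℕ → ℕ → ℕ → Bool := onCell 0 536870912 0 1230186008 740881858 40050571
    (rowB 3 eng mog cd2q2a cd5q3 pd0 0 false false false .up 2 0 3 (qsf 0 536870912 0 1230186008 0) ndB2q2a ndB5q3 pcB0 Cut.none Ext.none)

def k0_mm_203_a : ∃ t, chk3 f_mm_203_a t 1 1 1 = true :=
  ⟨(b (l 2) (b (l 2) (l 3))), by decide +kernel⟩

theorem c_mm_203_a : CertB 0 536870912 0 1230186008 740881858 40050571 3 eng mog cd2q2a cd5q3 pd0 false false false .up 2 0 3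
    ndB2q2a ndB5q3 pcB0 Cut.none Ext.none :=
  certB0 (fam := false) (s1 := false) (s2 := false) (a := 2) (b := 0) (c := 3) (cn := .up) (n1 := ndB2q2a) (n2 := ndB5q3) (pc := pcB0) (cut := Cut.none) (xt := Ext.none) (P1 := 0) (W1 := 536870912) (P2 := 0) (W2 := 1230186008) (P3 := 740881858) (W3 := 40050571) (N0 := 3) (En := eng) (mo := mog) (C1 := cd2q2a) (C2 := cd5q3) (C3 := pd0)
    rfl k0_mm_203_a

noncomputable def f_mm_203_b : ℕ → ℕ → ℕ → ℕ → Bool := onCell 1239849684 370763052 0 1230186008 740881858 40050571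
    (rowB 3 eng mog cd2q2b cd5q3 pd0 0 false false false .up 2 0 3 (qsf 1239849684 370763052 0 1230186008 0) ndB2q2b ndB5q3 pcB0 Cut.none Ext.none)

def k0_mm_203_b : ∃ t, chk3 f_mm_203_b t 1 1 1 = true :=
  ⟨(b (l 3) (b (l 3) (a (l 3) (l 3)))), by decide +kernel⟩

theorem c_mm_203_b : CertB 1239849684 370763052 0 1230186008 740881858 40050571 3 eng mog cd2q2b cd5q3 pd0 false false false .up 2 0 3
    ndB2q2b ndB5q3 pcB0 Cut.none Ext.none :=
  certB0 (fam := false) (s1 := false) (s2 := false) (a := 2) (b := 0) (c := 3) (cn := .up) (n1 := ndB2q2b) (n2 := ndB5q3) (pc := pcB0) (cut := Cut.none) (xt := Ext.none) (P1 := 1239849684) (W1 := 370763052) (P2 := 0) (W2 := 1230186008) (P3 := 740881858) (W3 := 40050571) (N0 := 3) (En := eng) (mo := mog) (C1 := cd2q2b) (C2 := cd5q3) (C3 := pd0)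
    rfl k0_mm_203_b

noncomputable def f_mm_213_a : ℕ → ℕ → ℕ → ℕ → Bool := onCell 0 536870912 0 1230186008 740881858 40050571
    (rowB 3 eng mog cd2q2a cd5q3 pd1 0 false false false .pnn 2 1 3 (qsf 0 536870912 0 1230186008 1) ndB2q2a ndB5q3 pcB1 Cut.none Ext.none)

def k0_mm_213_a : ∃ t, chk3 f_mm_213_a t 1 1 1 = true :=
  ⟨(b (a (l 3) (l 5)) (b (l 3) (l 3))), by decide +kernel⟩

theorem c_mm_213_a : CertB 0 536870912 0 1230186008 740881858 40050571 3 eng mog cd2q2a cd5q3 pd1 false false false .pnn 2 1 3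
    ndB2q2a ndB5q3 pcB1 Cut.none Ext.none :=
  certB0 (fam := false) (s1 := false) (s2 := false) (a := 2) (b := 1) (c := 3) (cn := .pnn) (n1 := ndB2q2a) (n2 := ndB5q3) (pc := pcB1) (cut := Cut.none) (xt := Ext.none) (P1 := 0) (W1 := 536870912) (P2 := 0) (W2 := 1230186008) (P3 := 740881858) (W3 := 40050571) (N0 := 3) (En := eng) (mo := mog) (C1 := cd2q2a) (C2 := cd5q3) (C3 := pd1)
    rfl k0_mm_213_a

noncomputable def f_mm_213_b : ℕ → ℕ → ℕ → ℕ → Bool := onCell 1239849684 370763052 0 1230186008 740881858 40050571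
    (rowB 3 eng mog cd2q2b cd5q3 pd1 0 false false false .pnn 2 1 3 (qsf 1239849684 370763052 0 1230186008 1) ndB2q2b ndB5q3 pcB1 Cut.none Ext.none)

def k0_mm_213_b : ∃ t, chk3 f_mm_213_b t 1 1 1 = true :=
  ⟨(b (l 3) (b (l 3) (a (l 3) (l 1)))), by decide +kernel⟩

theorem c_mm_213_b : CertB 1239849684 370763052 0 1230186008 740881858 40050571 3 eng mog cd2q2b cd5q3 pd1 false false false .pnn 2 1 3
    ndB2q2b ndB5q3 pcB1 Cut.none Ext.none :=
  certB0 (fam := false) (s1 := false) (s2 := false) (a := 2) (b := 1) (c := 3) (cn := .pnn) (n1 := ndB2q2b) (n2 := ndB5q3) (pc := pcB1) (cut := Cut.none) (xt := Ext.none) (P1 := 1239849684) (W1 := 370763052) (P2 := 0) (W2 := 1230186008) (P3 := 740881858) (W3 := 40050571) (N0 := 3) (En := eng) (mo := mog) (C1 := cd2q2b) (C2 := cd5q3) (C3 := pd1)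
    rfl k0_mm_213_b

noncomputable def f_mm_303 : ℕ → ℕ → ℕ → ℕ → Bool := onCell 0 536870912 0 1230186008 740881858 40050571
    (rowB 3 eng mog cd2q3 cd5q3 pd0 2 false false false .npn 3 0 3 (qsf 1610612736 536870912 0 1230186008 0) ndB2q3 ndB5q3 pcB0 Cut.none Ext.none)

def k0_mm_303 : ∃ t, chk3 f_mm_303 t 1 1 1 = true :=
  ⟨(b (l 3) (b (l 3) (a (l 3) (l 1)))), by decide +kernel⟩

theorem c_mm_303 : CertB 1610612736 536870912 0 1230186008 740881858 40050571 3 eng mog cd2q3 cd5q3 pd0 false false false .npn 3 0 3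
    ndB2q3 ndB5q3 pcB0 Cut.none Ext.none :=
  certB2 (fam := false) (s1 := false) (s2 := false) (a := 3) (b := 0) (c := 3) (cn := .npn) (n1 := ndB2q3) (n2 := ndB5q3) (pc := pcB0) (cut := Cut.none) (xt := Ext.none) (P1 := 1610612736) (W1 := 536870912) (P2 := 0) (W2 := 1230186008) (P3 := 740881858) (W3 := 40050571) (N0 := 3) (En := eng) (mo := mog) (C1 := cd2q3) (C2 := cd5q3) (C3 := pd0)
    rfl (fun _ => rfl) k0_mm_303

noncomputable def f_mm_313 : ℕ → ℕ → ℕ → ℕ → Bool := onCell 1610612736 536870912 0 1230186008 740881858 40050571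
    (rowB 3 eng mog cd2q3 cd5q3 pd1 0 false false false .dn 3 1 3 (qsf 1610612736 536870912 0 1230186008 1) ndB2q3 ndB5q3 pcB1 Cut.none Ext.none)

def k0_mm_313 : ∃ t, chk3 f_mm_313 t 1 1 1 = true :=
  ⟨(b (l 3) (l 1)), by decide +kernel⟩

theorem c_mm_313 : CertB 1610612736 536870912 0 1230186008 740881858 40050571 3 eng mog cd2q3 cd5q3 pd1 false false false .dn 3 1 3
    ndB2q3 ndB5q3 pcB1 Cut.none Ext.none :=
  certB0 (fam := false) (s1 := false) (s2 := false) (a := 3) (b := 1) (c := 3) (cn := .dn) (n1 := ndB2q3) (n2 := ndB5q3) (pc := pcB1) (cut := Cut.none) (xt := Ext.none) (P1 := 1610612736) (W1 := 536870912) (P2 := 0) (W2 := 1230186008) (P3 := 740881858) (W3 := 40050571) (N0 := 3) (En := eng) (mo := mog) (C1 := cd2q3) (C2 := cd5q3) (C3 := pd1)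
    rfl k0_mm_313

end Pool.Agent.Strip051.G.I69_7273.Tab.C.BB25

namespace Pool.Agent.Strip051.G.I69_7273.Tab.C.BB30

open Pool.Agent.Strip051.PB Pool.Agent.Strip051.PB.T
open Pool.Agent.Strip051.G.I69_7273.Tab

noncomputable def f_pp_001 : ℕ → ℕ → ℕ → ℕ → Bool := onCell 0 536870912 536870912 536870912 740881858 40050571
    (rowB 3 eng mog cd3q0 cd0q1 pd0 2 false true true .up 0 0 1 (qsf 0 536870912 536870912 536870912 0) ndB3q0 ndB0q1 pcB0 Cut.none Ext.none)

def k0_pp_001 : ∃ t, chk3 f_pp_001 t 1 1 1 = true :=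
  ⟨(b (l 3) (b (l 3) (b (l 3) (a (l 2) (a (l 2) (a (b (l 3) (l 2)) (b (a (l 3) (b (l 3) (a (l 184313648711) (l 187534857623)))) (a (a (l 2) (b (l 142974673975) (l 2))) (b (a (l 16348248) (l 16316648)) (l 16294480)))))))))), by decide +kernel⟩

theorem c_pp_001 : CertB 0 536870912 536870912 536870912 740881858 40050571 3 eng mog cd3q0 cd0q1 pd0 false true true .up 0 0 1
    ndB3q0 ndB0q1 pcB0 Cut.none Ext.none :=
  certB2 (fam := false) (s1 := true) (s2 := true) (a := 0) (b := 0) (c := 1) (cn := .up) (n1 := ndB3q0) (n2 := ndB0q1) (pc := pcB0) (cut := Cut.none) (xt := Ext.none) (P1 := 0) (W1 := 536870912) (P2 := 536870912) (W2 := 536870912) (P3 := 740881858) (W3 := 40050571) (N0 := 3) (En := eng) (mo := mog) (C1 := cd3q0) (C2 := cd0q1) (C3 := pd0)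
    rfl (fun _ => rfl) k0_pp_001

noncomputable def xt_pp_011 : Ext := extD2 3 ⟨4, 1, 1, 5, 7, 3, 99, 100, 9, 20, 1, 8⟩ eng cd3q0 cd0q1 pd1 false true true .pnn 0 1 1 rfl ndB3q0 ndB0q1 pcB1

noncomputable def f_pp_011 : ℕ → ℕ → ℕ → ℕ → Bool := onCell 0 536870912 536870912 536870912 740881858 40050571
    (rowB 3 eng mog cd3q0 cd0q1 pd1 0 false true true .pnn 0 1 1 (qsf 0 536870912 536870912 536870912 1) ndB3q0 ndB0q1 pcB1 Cut.none xt_pp_011)

def k0_pp_011 : ∃ t, chk3 f_pp_011 t 1 2 1 = true :=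
  ⟨(l 3), by decide +kernel⟩

def k1_pp_011 : ∃ t, chk3 f_pp_011 t 1 6 1 = true :=
  ⟨(l 3), by decide +kernel⟩

def k2_pp_011 : ∃ t, chk3 f_pp_011 t 1 14 1 = true :=
  ⟨(a (a (l 3) (l 3)) (l 3)), by decide +kernel⟩

def k3_pp_011 : ∃ t, chk3 f_pp_011 t 1 60 1 = true :=
  ⟨(a (b (a (a (a (l 3) (l 3)) (l 3)) (l 3)) (a (a (a (a (l 16872536) (l 16875176)) (a (l 16885424) (l 16896416))) (a (a (l 16903336) (l 16907592)) (a (a (l 16868448) (l 16849224)) (l 119353374535)))) (a (a (a (l 252497208455) (l 247128469959)) (a (b (l 3) (l 243370351847)) (l 211158139799))) (a (a (a (l 459192515847) (l 3)) (l 3)) (l 3))))) (a (l 3) (l 3))), by decide +kernel⟩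

def k4_pp_011 : ∃ t, chk3 f_pp_011 t 2 61 1 = true :=
  ⟨(a (a (a (a (l 16863360) (b (l 16840456) (l 16809280))) (b (a (l 16847856) (l 16856888)) (a (l 16813368) (l 16819152)))) (a (a (b (l 16863280) (l 16825360)) (b (l 16867192) (l 16828232))) (a (b (l 16869072) (l 16828880)) (b (l 16870736) (l 16829136))))) (a (a (a (b (l 16870576) (l 16827872)) (b (l 16866072) (l 16824160))) (b (a (l 16772096) (c (l 16830128) (l 16855752))) (a (l 16815368) (l 16802800)))) (a (a (c (a (l 16817784) (l 75866648535)) (b (b (l 149417879879) (l 16822928)) (l 16791008))) (b (b (a (l 189683319991) (l 215452913527)) (l 16736320)) (l 16747344))) (b (a (a (b (l 209547308247) (l 16753264)) (b (l 3977365946677136361243443263) (l 16736136))) (a (b (l 3832294848323280598534111295) (l 16718696)) (b (l 3706566563083175614615633983) (l 16701000)))) (a (l 16692096) (l 16677744)))))), by decide +kernel⟩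

def k5_pp_011 : ∃ t, chk3 f_pp_011 t 3 61 1 = true :=
  ⟨(a (a (a (b (a (b (a (a (l 3600181090956977402696171583) (l 3542152651615456235702861887)) (c (l 180556270215) (l 181629914167))) (a (a (l 16688480) (l 16685848)) (c (l 16694200) (l 16655776)))) (a (b (c (l 312626507303) (l 234780077863)) (c (l 16669856) (l 143919234182332479))) (b (l 3) (c (l 144290250747199551) (l 143687512054218815))))) (a (a (l 16654472) (l 16649800)) (a (l 16644976) (l 16622536)))) (b (b (l 3) (c (a (a (l 144065400566251583) (l 2516983556581503852246483007)) (a (l 143620235699552319) (l 3310038894248243262643126335))) (a (a (l 143472763640889407) (l 3358395927033145707394924607)) (a (l 143054742977085503) (l 143025537159594047))))) (a (a (l 16597960) (b (l 16581952) (l 16568408))) (a (a (l 16559328) (l 16591008)) (b (l 142954412549832767) (l 16527752)))))) (a (a (a (b (c (l 3106939356552787236789239871) (l 3135953576223534007656103999)) (c (l 142904178626904127) (l 16524944)))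 (b (c (l 3164967795894071115360010303) (l 3097267949995661639742390335)) (b (l 142534399030378559) (l 16490688)))) (a (a (b (a (l 3106939356552389419660836927) (l 3106939356552317539073179711)) (l 142659812036591679)) (b (l 3087596543438414477909999679) (l 142184273235984447))) (b (l 3039239510653716061203906623) (b (l 142078239059165247) (l 16449352))))) (a (b (l 3) (a (a (l 141822946157789247) (l 141713476010852415)) (c (l 141739177114271807) (l 113983737175)))) (b (l 3) (b (a (l 116668150247) (l 119889338503)) (l 16385296)))))) (b (l 3) (a (a (b (a (b (l 163912721975) (l 16370224)) (l 129016065847)) (a (l 16360896) (l 16343904))) (a (a (l 129016030599) (l 132237245223)) (l 133310994439))) (a (a (l 136532210359) (l 138142823959)) (a (l 533682480455) (l 1)))))), by decide +kernel⟩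

def k6_pp_011 : ∃ t, chk3 f_pp_011 t 1 31 1 = true :=
  ⟨(a (a (a (a (b (a (l 16807024) (l 16765992)) (b (l 16725176) (l 16699488))) (b (a (l 16766056) (l 16767856)) (l 16750584))) (a (b (a (l 16770048) (l 16772264)) (a (l 16704880) (l 16702592))) (b (a (l 16771848) (l 16769264)) (l 16676672)))) (a (b (a (b (l 16784488) (l 16722992)) (a (l 16754320) (a (l 16745848) (l 16739184)))) (a (a (l 16688520) (l 16681176)) (a (l 16672272) (l 16661272)))) (a (b (a (a (l 16728936) (l 16712048)) (l 16686136)) (a (l 16639728) (l 16605192))) (b (b (a (l 16671576) (l 16635328)) (l 16590536)) (a (l 16567408) (l 16528408)))))) (a (a (a (a (b (a (l 16589424) (l 16583608)) (l 16498424)) (b (a (l 16577536) (l 16570776)) (l 16483432))) (b (a (a (l 16551736) (l 16529840)) (b (b (l 16523456) (l 16508352)) (l 16483904))) (a (l 16463888) (l 16428064)))) (a (b (a (b (l 16542592) (l 16449376)) (b (c (l 16468048) (l 16415136)) (l 16413128))) (a (l 16397400) (l 16364472))) (b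 (b (b (l 16429672) (l 16374400)) (l 16437856)) (l 16329336)))) (a (b (a (a (l 16349032) (l 16311472)) (b (l 16374072) (l 16285672))) (a (l 16263672) (l 16246976))) (b (a (a (l 16317680) (b (l 16312664) (l 16288576))) (b (a (l 16319840) (l 1)) (l 16343096))) (a (l 16271088) (l 16350784)))))), by decide +kernel⟩

theorem s7_pp_011 : ∃ t, chk3 f_pp_011 t 1 61 1 = true := ex3_a k4_pp_011 k5_pp_011

theorem s8_pp_011 : ∃ t, chk3 f_pp_011 t 1 30 1 = true := ex3_b k3_pp_011 s7_pp_011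

theorem s9_pp_011 : ∃ t, chk3 f_pp_011 t 1 15 1 = true := ex3_b s8_pp_011 k6_pp_011

theorem s10_pp_011 : ∃ t, chk3 f_pp_011 t 1 7 1 = true := ex3_b k2_pp_011 s9_pp_011

theorem s11_pp_011 : ∃ t, chk3 f_pp_011 t 1 3 1 = true := ex3_b k1_pp_011 s10_pp_011

theorem s12_pp_011 : ∃ t, chk3 f_pp_011 t 1 1 1 = true := ex3_b k0_pp_011 s11_pp_011

theorem c_pp_011 : CertB 0 536870912 536870912 536870912 740881858 40050571 3 eng mog cd3q0 cd0q1 pd1 false true true .pnn 0 1 1
    ndB3q0 ndB0q1 pcB1 Cut.none xt_pp_011 :=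
  certB0 (fam := false) (s1 := true) (s2 := true) (a := 0) (b := 1) (c := 1) (cn := .pnn) (n1 := ndB3q0) (n2 := ndB0q1) (pc := pcB1) (cut := Cut.none) (xt := xt_pp_011) (P1 := 0) (W1 := 536870912) (P2 := 536870912) (W2 := 536870912) (P3 := 740881858) (W3 := 40050571) (N0 := 3) (En := eng) (mo := mog) (C1 := cd3q0) (C2 := cd0q1) (C3 := pd1)
    rfl s12_pp_011

noncomputable def f_pp_012 : ℕ → ℕ → ℕ → ℕ → Bool := onCell 0 536870912 0 536870912 740881858 40050571
    (rowB 3 eng mog cd3q0 cd0q2 pd1 0 false true true .pnp 0 1 2 (qsf 0 536870912 0 536870912 1) ndB3q0 ndB0q2 pcB1 Cut.none Ext.none)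

def k0_pp_012 : ∃ t, chk3 f_pp_012 t 2 1 1 = true :=
  ⟨(b (a (b (l 2) (a (l 2) (b (l 2) (a (l 2) (b (l 2) (l 16428432)))))) (b (a (b (l 16353824) (a (l 16215840) (l 16219880))) (b (l 16144152) (l 16403648))) (a (b (a (l 16301160) (l 16303584)) (a (l 16567856) (l 16399680))) (b (a (l 16300304) (l 16289552)) (a (l 16392808) (l 16376848)))))) (b (a (a (l 2) (b (a (l 2) (b (l 16474984) (l 16502064))) (a (a (b (l 2) (l 16557024)) (l 157403546023)) (b (l 16529352) (l 16558144))))) (b (a (a (b (l 16472616) (l 16501536)) (b (l 16471368) (l 16501024))) (a (b (l 16462216) (l 16490968)) (l 16454664))) (a (a (l 16544552) (l 16541536)) (a (l 16524912) (l 16493152))))) (a (b (a (a (l 2) (b (l 16583600) (l 16615264))) (b (a (a (l 16583816) (l 16585184)) (l 16586096)) (a (l 16618376) (l 16610520)))) (a (b (a (a (l 2) (l 16651800)) (a (l 16653608) (l 16654536))) (a (b (l 16676432) (l 16685768)) (b (l 16663568) (l 16674248)))) (a (b (l 16630224) (l 16760312)) (b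 (l 16603568) (b (l 16629656) (l 16650536)))))) (b (a (b (l 16572768) (l 16537576)) (b (l 16602928) (l 16431376))) (a (b (a (l 16576848) (l 16546264)) (a (b (l 16607808) (l 16633064)) (a (l 16601744) (l 16588040)))) (b (a (l 16497376) (l 16424480)) (a (a (l 16545152) (l 16531592)) (c (l 16466072) (l 16462504))))))))), by decide +kernel⟩

def k1_pp_012 : ∃ t, chk3 f_pp_012 t 3 1 1 = true :=
  ⟨(b (a (a (b (a (l 16221280) (l 16190304)) (b (a (l 16287360) (l 16293344)) (a (l 16369024) (l 16369504)))) (b (a (l 16195208) (l 16182552)) (b (l 16430336) (a (l 16362584) (l 16335832))))) (b (a (l 16160360) (l 16140496)) (b (l 16221824) (l 16291472)))) (a (b (a (b (a (l 16524776) (l 16435648)) (a (l 16470456) (l 16457968))) (b (a (l 16422416) (l 16388928)) (a (l 16439104) (l 16403344)))) (a (b (a (b (l 16439808) (l 16334288)) (b (l 16418240) (l 16311832))) (a (b (l 16364904) (a (l 16422536) (l 16404976))) (b (l 16320928) (l 16372752)))) (b (a (b (l 16397576)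 (l 16305544)) (l 16347824)) (a (b (l 16272240) (b (l 16312824) (l 16334064))) (b (l 16223320) (l 16304808)))))) (b (b (a (l 16338816) (l 16290424)) (a (l 16354272) (l 16310192))) (b (a (b (l 16337112) (l 16306048)) (b (l 16309400) (l 16300408))) (a (b (l 16329224) (a (l 16226512) (l 16214848))) (b (b (l 16287864) (l 16273896)) (a (l 16221928) (l 16255504)))))))), by decide +kernel⟩

theorem s2_pp_012 : ∃ t, chk3 f_pp_012 t 1 1 1 = true := ex3_a k0_pp_012 k1_pp_012

theorem c_pp_012 : CertB 0 536870912 0 536870912 740881858 40050571 3 eng mog cd3q0 cd0q2 pd1 false true true .pnp 0 1 2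
    ndB3q0 ndB0q2 pcB1 Cut.none Ext.none :=
  certB0 (fam := false) (s1 := true) (s2 := true) (a := 0) (b := 1) (c := 2) (cn := .pnp) (n1 := ndB3q0) (n2 := ndB0q2) (pc := pcB1) (cut := Cut.none) (xt := Ext.none) (P1 := 0) (W1 := 536870912) (P2 := 0) (W2 := 536870912) (P3 := 740881858) (W3 := 40050571) (N0 := 3) (En := eng) (mo := mog) (C1 := cd3q0) (C2 := cd0q2) (C3 := pd1)
    rfl s2_pp_012

noncomputable def f_pp_022 : ℕ → ℕ → ℕ → ℕ → Bool := onCell 0 536870912 0 536870912 740881858 40050571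
    (rowB 3 eng mog cd3q0 cd0q2 pd2 0 false true true .pp 0 2 2 (qsf 0 536870912 0 536870912 2) ndB3q0 ndB0q2 pcB2 Cut.none Ext.none)

def k0_pp_022 : ∃ t, chk3 f_pp_022 t 2 2 1 = true :=
  ⟨(a (b (a (b (a (c (b (l 16360648) (l 16363896)) (l 16437528)) (l 16436016)) (a (c (b (l 16368384) (a (l 16422528) (l 16370800))) (b (l 16384960) (l 16436800))) (b (l 16345944) (l 16484024)))) (b (a (l 16283392) (l 16224616)) (a (l 16418752) (l 16266000)))) (a (b (a (c (b (l 16391792) (l 16473816)) (b (l 16409240) (l 16425448))) (b (c (l 16408480) (l 16376648)) (l 16492688))) (a (c (b (a (l 16438688) (l 16423064)) (a (l 16459568) (l 16444624))) (b (l 16442352) (l 16439608))) (b (l 16468528) (c (l 16425736) (l 16425392))))) (b (a (b (l 16425272) (l 16357552)) (b (l 16301336) (l 16323288))) (a (b (l 16374376) (l 16455256)) (b (l 16340288) (l 16356408)))))) (a (a (b (b (l 16155448) (l 16208544)) (b (b (l 16252456) (l 16284744)) (b (l 16304048) (l 348998883879))))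 (b (b (l 1) (l 1)) (l 1))) (l 1))), by decide +kernel⟩

def k1_pp_022 : ∃ t, chk3 f_pp_022 t 2 3 1 = true :=
  ⟨(b (a (a (c (b (a (b (a (l 16478480) (l 16465224)) (l 16551960)) (b (l 16445288) (l 16460904))) (a (b (l 16526872) (l 16520728)) (b (l 16474992) (l 16486520)))) (b (a (b (l 16455896) (l 16510776)) (b (l 16440928) (l 16452696))) (a (b (l 16501528) (l 16510504)) (b (l 16462848) (l 16470200))))) (b (a (b (l 16408136) (l 16461776)) (b (l 16370216) (l 149820048327))) (a (b (a (l 16439824) (l 16419464)) (a (l 16447544) (l 16426136))) (b (l 200285950743) (l 1))))) (l 1)) (a (b (a (a (b (a (l 16532256) (l 16513536)) (a (l 16542656) (l 16522400))) (b (a (l 16493512) (l 16472464)) (a (l 16500984) (b (l 16476512) (l 16480632))))) (b (a (a (l 16492648) (l 1)) (l 1)) (l 1))) (a (a (b (a (b (l 16551320) (l 16558464)) (b (l 16530024) (a (l 16539968) (l 16528824)))) (a (b (l 16566656) (a (l 16581560) (l 16567720))) (b (a (l 16567160) (l 1)) (l 1)))) (b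 (a (b (l 16507720) (l 1)) (l 1)) (l 1))) (l 1))) (l 1))), by decide +kernel⟩

def k2_pp_022 : ∃ t, chk3 f_pp_022 t 3 1 1 = true :=
  ⟨(l 1), by decide +kernel⟩

theorem s3_pp_022 : ∃ t, chk3 f_pp_022 t 2 1 1 = true := ex3_b k0_pp_022 k1_pp_022

theorem s4_pp_022 : ∃ t, chk3 f_pp_022 t 1 1 1 = true := ex3_a s3_pp_022 k2_pp_022

theorem c_pp_022 : CertB 0 536870912 0 536870912 740881858 40050571 3 eng mog cd3q0 cd0q2 pd2 false true true .pp 0 2 2
    ndB3q0 ndB0q2 pcB2 Cut.none Ext.none :=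
  certB0 (fam := false) (s1 := true) (s2 := true) (a := 0) (b := 2) (c := 2) (cn := .pp) (n1 := ndB3q0) (n2 := ndB0q2) (pc := pcB2) (cut := Cut.none) (xt := Ext.none) (P1 := 0) (W1 := 536870912) (P2 := 0) (W2 := 536870912) (P3 := 740881858) (W3 := 40050571) (N0 := 3) (En := eng) (mo := mog) (C1 := cd3q0) (C2 := cd0q2) (C3 := pd2)
    rfl s4_pp_022

noncomputable def cut_pp_101 : Cut := Cut.of [[⟨0, 1, 0, 67108864⟩, ⟨1, 0, 0, 67108864⟩, ⟨2, 1, 0, 67108864⟩]]

noncomputable def f_pp_101 : ℕ → ℕ → ℕ → ℕ → Bool := onCell 0 536870912 536870912 536870912 740881858 40050571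
    (rowB 3 eng mog cd3q1 cd0q1 pd0 2 false true true .npn 1 0 1 (qsf 536870912 536870912 536870912 536870912 0) ndB3q1 ndB0q1 pcB0 cut_pp_101 Ext.none)

def k0_pp_101 : ∃ t, chk3 f_pp_101 t 2 2 1 = true :=
  ⟨(l 3), by decide +kernel⟩

def k1_pp_101 : ∃ t, chk3 f_pp_101 t 2 6 1 = true :=
  ⟨(l 3), by decide +kernel⟩

def k2_pp_101 : ∃ t, chk3 f_pp_101 t 4 7 1 = true :=
  ⟨(b (l 3) (a (b (l 3) (b (l 3) (a (l 6) (a (b (l 3) (l 6)) (b (l 3) (a (b (l 3) (l 6)) (a (b (b (l 3) (a (l 197736136407) (l 163913263495))) (b (c (l 16713152) (l 16706392)) (l 6))) (b (b (l 3) (c (b (l 3) (l 184314360327)) (l 175187542615))) (b (l 16707256) (l 16700224)))))))))) (b (l 3) (a (b (l 3) (b (l 3) (a (b (b (l 3) (b (b (a (l 3) (a (l 3) (l 163376348135))) (a (c (l 154249568999) (l 152638952807)) (a (l 188072415399) (l 175187507527)))) (a (a (c (l 204178572647) (l 202567956279)) (c (l 16698872) (l 16691696))) (c (l 16696208) (l 16694088))))) (b (a (c (l 16694944) (l 16693144))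 (l 16683448)) (a (l 16692392) (l 16681880)))) (b (b (b (l 3) (a (a (l 3) (c (l 161765720327) (l 164986932615))) (a (a (l 174113736135) (l 184314278423)) (a (l 195051691399) (l 205252233399))))) (b (a (a (c (l 212231595063) (l 210620977799)) (c (l 16673536) (l 16671072))) (a (l 16667112) (l 16662048))) (a (l 16684600) (l 16663808)))) (b (a (l 16672960) (l 16662696)) (l 16666328)))))) (b (l 3) (b (a (l 3) (b (l 3) (b (l 3) (b (l 3) (a (a (l 159081297351) (l 175187419399)) (a (l 190756671559) (l 205789053879))))))) (b (a (b (b (a (a (l 3) (c (l 200957258119) (l 198272897943))) (a (c (l 184851121719) (l 183777373767)) (c (l 202567851847) (l 201494103895)))) (a (a (c (l 217600263975) (l 216526516471)) (l 235316988583)) (a (l 16648248) (l 16643616)))) (a (c (l 16655688) (l 16652888)) (l 16644760))) (a (b (a (a (l 228874511767) (l 16638400)) (l 16635120)) (l 16635688)) (c (l 16640080) (l 16626312)))) (a (b (l 16668928) (l 16646512)) (l 16628928))))))))),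 by decide +kernel⟩

def k3_pp_101 : ∃ t, chk3 f_pp_101 t 5 7 1 = true :=
  ⟨(b (l 3) (a (b (l 3) (a (b (l 3) (b (b (l 3) (a (b (l 3) (b (a (a (l 159081280295) (l 176261140743)) (a (l 193441002599) (l 211157734887))) (a (a (c (l 16625840) (l 16622376)) (l 16620240)) (l 16625272)))) (b (b (l 3) (a (a (l 179482345559) (l 181092952807)) (a (l 198272815271) (l 215989548119)))) (a (c (b (l 16621232) (l 16609776)) (l 16606824)) (c (l 16603816) (l 16600480)))))) (b (a (a (b (l 16631280) (l 16619040)) (l 16612552)) (a (l 16605720) (l 16599216))) (a (l 16612720) (l 16598768))))) (b (l 3) (b (b (b (l 3) (a (a (l 3) (c (l 189145970343) (l 237464345703))) (a (c (b (l 3) (l 185387878791)) (l 186998488935)) (c (b (l 184850994967) (l 211694539127)) (l 186461604487))))) (b (a (a (c (b (l 180556065335) (l 16598880)) (l 200420284583)) (c (b (l 198809662519) (l 16592304)) (l 217600138871))) (a (c (l 16586128) (l 16582872)) (l 16577576))) (a (a (l 16595648) (l 16589072))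 (l 16599872)))) (a (b (l 16610312) (l 16585400)) (l 16594648)))))) (b (l 3) (b (a (l 3) (b (l 3) (b (l 3) (a (c (l 253570383431) (l 246591052807)) (c (l 176260962711) (l 166060429687)))))) (a (b (b (a (b (c (a (l 3) (l 250349202775)) (l 289003908903)) (a (c (l 204715208519) (l 16571120)) (c (l 219747578135) (l 16563728)))) (b (c (a (l 173576671319) (l 188072170551)) (l 176797901447)) (a (l 16573656) (l 16550320)))) (a (a (l 16569424) (l 16562152)) (a (l 16554672) (l 16547072)))) (a (l 16559424) (l 16544536))) (b (b (a (c (b (l 202567676935) (l 16541032)) (l 206862640135)) (c (l 16527352) (l 16522832))) (a (l 16535744) (l 16520784))) (a (l 16529456) (l 16514512)))))))), by decide +kernel⟩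

def k4_pp_101 : ∃ t, chk3 f_pp_101 t 3 1 1 = true :=
  ⟨(b (l 3) (b (l 3) (a (b (l 3) (a (b (l 3) (b (b (l 3) (b (a (l 3) (a (l 211157515095) (l 161765361527))) (a (a (c (l 177871568679) (l 175187204871)) (c (l 186998345735) (l 16518160))) (a (l 16505856) (l 16469408))))) (a (b (a (b (l 16510256) (l 16505936)) (l 16493288)) (a (l 16499656) (l 16484824))) (b (a (l 16478216) (l 16462736)) (l 16462024))))) (b (l 3) (b (a (b (l 3) (a (l 181092696679) (l 182703283879))) (a (a (l 176797615815) (l 176260730119)) (a (l 164449634839) (l 163912751975)))) (a (a (l 16463656) (l 16426824)) (b (l 16408200) (l 16399328))))))) (b (l 3) (a (b (l 3) (a (b (b (a (l 151564706663) (l 153175294871)) (a (l 16396408) (l 16382480))) (l 16457992)) (b (b (a (l 152638397847) (l 16366928)) (l 16361800)) (l 16345248)))) (b (a (l 3) (a (l 271823607895) (l 1))) (a (b (b (l 137605991095) (l 16334112)) (l 16316432)) (b (a (l 16319096) (l 16304496)) (l 16266016))))))))), by decide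 +kernel⟩

theorem s5_pp_101 : ∃ t, chk3 f_pp_101 t 2 7 1 = true := ex3_a k2_pp_101 k3_pp_101

theorem s6_pp_101 : ∃ t, chk3 f_pp_101 t 2 3 1 = true := ex3_b k1_pp_101 s5_pp_101

theorem s7_pp_101 : ∃ t, chk3 f_pp_101 t 2 1 1 = true := ex3_b k0_pp_101 s6_pp_101

theorem s8_pp_101 : ∃ t, chk3 f_pp_101 t 1 1 1 = true := ex3_a s7_pp_101 k4_pp_101

theorem c_pp_101 : CertB 536870912 536870912 536870912 536870912 740881858 40050571 3 eng mog cd3q1 cd0q1 pd0 false true true .npn 1 0 1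
    ndB3q1 ndB0q1 pcB0 cut_pp_101 Ext.none :=
  certB2 (fam := false) (s1 := true) (s2 := true) (a := 1) (b := 0) (c := 1) (cn := .npn) (n1 := ndB3q1) (n2 := ndB0q1) (pc := pcB0) (cut := cut_pp_101) (xt := Ext.none) (P1 := 536870912) (W1 := 536870912) (P2 := 536870912) (W2 := 536870912) (P3 := 740881858) (W3 := 40050571) (N0 := 3) (En := eng) (mo := mog) (C1 := cd3q1) (C2 := cd0q1) (C3 := pd0)
    rfl (fun _ => rfl) s8_pp_101

noncomputable def cut_pp_102 : Cut := Cut.of [[⟨0, 1, 0, 67108864⟩, ⟨1, 0, 0, 67108864⟩, ⟨2, 1, 0, 67108864⟩]]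

noncomputable def f_pp_102 : ℕ → ℕ → ℕ → ℕ → Bool := onCell 0 536870912 0 536870912 740881858 40050571
    (rowB 3 eng mog cd3q1 cd0q2 pd0 2 false true true .npp 1 0 2 (qsf 536870912 536870912 0 536870912 0) ndB3q1 ndB0q2 pcB0 cut_pp_102 Ext.none)

def k0_pp_102 : ∃ t, chk3 f_pp_102 t 2 2 1 = true :=
  ⟨(b (a (l 2) (a (b (l 15882880) (l 15873120)) (b (l 15799656) (l 15906120)))) (a (a (l 2) (a (l 2) (b (l 2) (b (l 2) (l 16007592))))) (a (b (l 163308180263) (a (b (l 15982136) (l 16040968)) (l 16041944))) (b (a (l 15972968) (l 15999896)) (a (l 16066632) (l 16083384)))))), by decide +kernel⟩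

def k1_pp_102 : ∃ t, chk3 f_pp_102 t 2 3 1 = true :=
  ⟨(a (b (a (l 2) (b (a (l 2) (b (l 16074544) (l 16147584))) (a (b (l 16207576) (l 16295776)) (b (l 16223224) (l 16303704))))) (b (a (a (l 2) (b (a (l 2) (l 16387792)) (a (l 6) (b (l 16462832) (l 16511864))))) (a (b (a (l 16389680) (l 16390320)) (a (l 16484912) (l 16481208))) (b (l 16389456) (b (l 16453304) (l 16643656))))) (a (a (l 6) (a (l 6) (a (l 6) (b (b (l 16559632) (l 16630272)) (b (l 16656920) (b (l 16693192) (b (l 16707336) (l 16703680)))))))) (b (a (a (b (l 16555128) (b (l 16590792) (l 16613440))) (b (l 16549104) (l 16592672))) (b (a (l 16540632) (l 16533600)) (l 16559320))) (a (b (a (l 16690744) (l 16638392)) (b (a (l 16684008) (l 16672536)) (a (a (l 16664136) (l 16685344)) (b (l 16672192) (l 16667840))))) (b (a (l 16629208) (l 16618856)) (b (l 16649872) (a (a (l 16655160) (l 16645584)) (l 16631800))))))))) (b (a (b (a (l 16134256) (l 16153232)) (a (l 16293536) (l 16280088))) (b (a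 (l 16167328) (l 16176704)) (a (l 16368056) (l 16285232)))) (a (b (a (b (l 16387168) (b (l 16446624) (l 16483592))) (b (l 16384168) (l 16473944))) (b (a (l 16604976) (l 16521736)) (b (a (l 16599688) (l 16570984)) (b (a (l 16616160) (l 16587560)) (a (a (l 16615344) (l 16601104)) (l 16580376)))))) (b (b (a (l 16463488) (l 16371288)) (a (l 16523944) (l 16426272))) (b (l 16531400) (b (a (l 16542352) (l 16514200)) (a (l 16576048) (l 16525216)))))))), by decide +kernel⟩

def k2_pp_102 : ∃ t, chk3 f_pp_102 t 3 1 1 = true :=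
  ⟨(a (b (a (b (a (l 15911224) (l 15959808)) (a (b (l 16029824) (l 16104656)) (b (l 16064360) (l 16130376)))) (b (a (l 16002480) (l 16025152)) (b (l 16099008) (l 16156488)))) (b (a (a (b (l 16190264) (l 16288344)) (b (l 16206600) (l 16293240))) (b (l 16223728) (l 16465712))) (a (b (a (b (l 16363728) (l 16412320)) (l 16420856)) (b (a (l 16457760) (l 16436976)) (a (b (l 16486384) (l 16495440)) (l 16464792)))) (a (b (l 16369824) (b (l 16416584) (l 16435792))) (b (l 16360784) (b (l 16396616) (l 16406912))))))) (b (b (a (b (l 16020816) (l 16067904)) (l 16241456)) (b (l 16134632) (l 16191032))) (b (b (l 16482224) (a (l 16302496) (l 16311872))) (b (a (b (l 16338000) (l 16356176)) (b (l 16331184) (l 16335312))) (a (b (l 16367800) (a (l 16377616) (l 16348048))) (b (l 16330056) (a (l 16318440) (l 16289040)))))))), by decide +kernel⟩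

theorem s3_pp_102 : ∃ t, chk3 f_pp_102 t 2 1 1 = true := ex3_b k0_pp_102 k1_pp_102

theorem s4_pp_102 : ∃ t, chk3 f_pp_102 t 1 1 1 = true := ex3_a s3_pp_102 k2_pp_102

theorem c_pp_102 : CertB 536870912 536870912 0 536870912 740881858 40050571 3 eng mog cd3q1 cd0q2 pd0 false true true .npp 1 0 2
    ndB3q1 ndB0q2 pcB0 cut_pp_102 Ext.none :=
  certB2 (fam := false) (s1 := true) (s2 := true) (a := 1) (b := 0) (c := 2) (cn := .npp) (n1 := ndB3q1) (n2 := ndB0q2) (pc := pcB0) (cut := cut_pp_102) (xt := Ext.none) (P1 := 536870912) (W1 := 536870912) (P2 := 0) (W2 := 536870912) (P3 := 740881858) (W3 := 40050571) (N0 := 3) (En := eng) (mo := mog) (C1 := cd3q1) (C2 := cd0q2) (C3 := pd0)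
    rfl (fun _ => rfl) s4_pp_102

noncomputable def f_pp_112 : ℕ → ℕ → ℕ → ℕ → Bool := onCell 536870912 536870912 0 536870912 740881858 40050571
    (rowB 3 eng mog cd3q1 cd0q2 pd1 2 false true true .dn 1 1 2 (qsf 536870912 536870912 0 536870912 1) ndB3q1 ndB0q2 pcB1 Cut.none Ext.none)

def k0_pp_112 : ∃ t, chk3 f_pp_112 t 1 1 1 = true :=
  ⟨(a (b (b (a (l 16182712) (l 16107296)) (a (b (l 16158592) (l 16198952)) (b (l 16171672) (l 16215488)))) (a (b (b (a (l 16223720) (l 16249376)) (a (l 16303768) (l 16276632))) (b (a (b (l 16284648) (l 16290240)) (l 380674313495)) (a (a (b (l 16291656) (l 16267640)) (l 376379013735)) (l 1)))) (b (l 1) (l 1)))) (l 1)), by decide +kernel⟩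

theorem c_pp_112 : CertB 536870912 536870912 0 536870912 740881858 40050571 3 eng mog cd3q1 cd0q2 pd1 false true true .dn 1 1 2
    ndB3q1 ndB0q2 pcB1 Cut.none Ext.none :=
  certB2 (fam := false) (s1 := true) (s2 := true) (a := 1) (b := 1) (c := 2) (cn := .dn) (n1 := ndB3q1) (n2 := ndB0q2) (pc := pcB1) (cut := Cut.none) (xt := Ext.none) (P1 := 536870912) (W1 := 536870912) (P2 := 0) (W2 := 536870912) (P3 := 740881858) (W3 := 40050571) (N0 := 3) (En := eng) (mo := mog) (C1 := cd3q1) (C2 := cd0q2) (C3 := pd1)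
    rfl (fun _ => rfl) k0_pp_112

noncomputable def f_pp_202 : ℕ → ℕ → ℕ → ℕ → Bool := onCell 1073741824 536870912 0 536870912 740881858 40050571
    (rowB 3 eng mog cd3q2 cd0q2 pd0 0 false true true .pp 2 0 2 (qsf 1073741824 536870912 0 536870912 0) ndB3q2 ndB0q2 pcB0 Cut.none Ext.none)

def k0_pp_202 : ∃ t, chk3 f_pp_202 t 1 1 1 = true :=
  ⟨(l 3), by decide +kernel⟩

theorem c_pp_202 : CertB 1073741824 536870912 0 536870912 740881858 40050571 3 eng mog cd3q2 cd0q2 pd0 false true true .pp 2 0 2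
    ndB3q2 ndB0q2 pcB0 Cut.none Ext.none :=
  certB0 (fam := false) (s1 := true) (s2 := true) (a := 2) (b := 0) (c := 2) (cn := .pp) (n1 := ndB3q2) (n2 := ndB0q2) (pc := pcB0) (cut := Cut.none) (xt := Ext.none) (P1 := 1073741824) (W1 := 536870912) (P2 := 0) (W2 := 536870912) (P3 := 740881858) (W3 := 40050571) (N0 := 3) (En := eng) (mo := mog) (C1 := cd3q2) (C2 := cd0q2) (C3 := pd0)
    rfl k0_pp_202

noncomputable def f_pm_001 : ℕ → ℕ → ℕ → ℕ → Bool := onCell 0 536870912 0 536870912 740881858 40050571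
    (rowB 3 eng mog cd3q0 cd0q1 pd0 1 false true false .up 0 0 1 (qsf 0 536870912 536870912 536870912 0) ndB3q0 ndB0q1 pcB0 Cut.none Ext.none)

def k0_pm_001 : ∃ t, chk3 f_pm_001 t 1 1 1 = true :=
  ⟨(l 4), by decide +kernel⟩

theorem c_pm_001 : CertB 0 536870912 536870912 536870912 740881858 40050571 3 eng mog cd3q0 cd0q1 pd0 false true false .up 0 0 1
    ndB3q0 ndB0q1 pcB0 Cut.none Ext.none :=
  certB1 (fam := false) (s1 := true) (s2 := false) (a := 0) (b := 0) (c := 1) (cn := .up) (n1 := ndB3q0) (n2 := ndB0q1) (pc := pcB0) (cut := Cut.none) (xt := Ext.none) (P1 := 0) (W1 := 536870912) (P2 := 536870912) (W2 := 536870912) (P3 := 740881858) (W3 := 40050571) (N0 := 3) (En := eng) (mo := mog) (C1 := cd3q0) (C2 := cd0q1) (C3 := pd0)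
    rfl (fun _ => rfl) k0_pm_001

noncomputable def f_pm_011 : ℕ → ℕ → ℕ → ℕ → Bool := onCell 0 536870912 536870912 536870912 740881858 40050571
    (rowB 3 eng mog cd3q0 cd0q1 pd1 0 false true false .pnn 0 1 1 (qsf 0 536870912 536870912 536870912 1) ndB3q0 ndB0q1 pcB1 Cut.none Ext.none)

def k0_pm_011 : ∃ t, chk3 f_pm_011 t 1 1 1 = true :=
  ⟨(a (l 4) (l 4)), by decide +kernel⟩

theorem c_pm_011 : CertB 0 536870912 536870912 536870912 740881858 40050571 3 eng mog cd3q0 cd0q1 pd1 false true false .pnn 0 1 1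
    ndB3q0 ndB0q1 pcB1 Cut.none Ext.none :=
  certB0 (fam := false) (s1 := true) (s2 := false) (a := 0) (b := 1) (c := 1) (cn := .pnn) (n1 := ndB3q0) (n2 := ndB0q1) (pc := pcB1) (cut := Cut.none) (xt := Ext.none) (P1 := 0) (W1 := 536870912) (P2 := 536870912) (W2 := 536870912) (P3 := 740881858) (W3 := 40050571) (N0 := 3) (En := eng) (mo := mog) (C1 := cd3q0) (C2 := cd0q1) (C3 := pd1)
    rfl k0_pm_011

noncomputable def f_pm_012 : ℕ → ℕ → ℕ → ℕ → Bool := onCell 536870912 536870912 0 536870912 740881858 40050571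
    (rowB 3 eng mog cd3q0 cd0q2 pd1 2 false true false .pnp 0 1 2 (qsf 0 536870912 0 536870912 1) ndB3q0 ndB0q2 pcB1 Cut.none Ext.none)

def k0_pm_012 : ∃ t, chk3 f_pm_012 t 1 1 1 = true :=
  ⟨(a (b (a (b (l 2) (a (l 2) (l 16046976))) (b (b (l 16073608) (a (l 16034704) (l 16043112))) (a (l 16097040) (b (l 16033984) (l 16047240))))) (l 4)) (b (a (b (a (l 16074928) (a (b (l 16109808) (l 16062144)) (l 16080328))) (a (a (b (l 16033848) (l 16053000)) (b (l 16036584) (l 16055032))) (b (a (a (l 16032352) (l 16041096)) (b (l 16032056) (l 16016288))) (a (l 16046072) (l 16095848))))) (a (b (a (b (l 16086936) (l 16043632)) (l 16063160)) (a (b (b (l 16017600) (l 16181008)) (a (l 16027144) (l 16028576))) (b (l 16014752) (l 16039000)))) (b (a (l 16130712) (l 16066296)) (b (a (l 16023368) (l 16023328)) (a (l 16228696) (l 16031472)))))) (a (l 4) (b (a (l 4) (l 4)) (l 4))))), by decide +kernel⟩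

theorem c_pm_012 : CertB 0 536870912 0 536870912 740881858 40050571 3 eng mog cd3q0 cd0q2 pd1 false true false .pnp 0 1 2
    ndB3q0 ndB0q2 pcB1 Cut.none Ext.none :=
  certB2 (fam := false) (s1 := true) (s2 := false) (a := 0) (b := 1) (c := 2) (cn := .pnp) (n1 := ndB3q0) (n2 := ndB0q2) (pc := pcB1) (cut := Cut.none) (xt := Ext.none) (P1 := 0) (W1 := 536870912) (P2 := 0) (W2 := 536870912) (P3 := 740881858) (W3 := 40050571) (N0 := 3) (En := eng) (mo := mog) (C1 := cd3q0) (C2 := cd0q2) (C3 := pd1)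
    rfl (fun _ => rfl) k0_pm_012

noncomputable def f_pm_022 : ℕ → ℕ → ℕ → ℕ → Bool := onCell 0 536870912 0 536870912 740881858 40050571
    (rowB 3 eng mog cd3q0 cd0q2 pd2 0 false true false .pp 0 2 2 (qsf 0 536870912 0 536870912 2) ndB3q0 ndB0q2 pcB2 Cut.none Ext.none)

def k0_pm_022 : ∃ t, chk3 f_pm_022 t 1 1 1 = true :=
  ⟨(a (b (a (b (a (b (a (a (l 16455888) (l 16351512)) (l 16315568)) (a (l 16491864) (l 16308656))) (b (a (l 16257128) (l 16186720)) (a (l 16238352) (l 16155000)))) (a (b (a (l 16482344) (l 16308032)) (a (b (l 16386888) (l 16392728)) (l 16368704))) (b (a (l 16223976) (l 16125936)) (a (l 16269128) (l 16344888))))) (a (a (b (b (l 16105096) (l 16059536)) (b (l 16014800) (b (l 15976848) (l 15957984)))) (b (b (l 1) (l 1)) (l 1))) (l 1))) (b (a (b (a (a (a (l 11508983287) (l 16556568)) (b (l 16308184) (l 4))) (a (b (l 16203632) (l 4)) (l 4))) (l 4)) (l 1)) (l 4))) (l 1)), by decide +kernel⟩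

theorem c_pm_022 : CertB 0 536870912 0 536870912 740881858 40050571 3 eng mog cd3q0 cd0q2 pd2 false true false .pp 0 2 2
    ndB3q0 ndB0q2 pcB2 Cut.none Ext.none :=
  certB0 (fam := false) (s1 := true) (s2 := false) (a := 0) (b := 2) (c := 2) (cn := .pp) (n1 := ndB3q0) (n2 := ndB0q2) (pc := pcB2) (cut := Cut.none) (xt := Ext.none) (P1 := 0) (W1 := 536870912) (P2 := 0) (W2 := 536870912) (P3 := 740881858) (W3 := 40050571) (N0 := 3) (En := eng) (mo := mog) (C1 := cd3q0) (C2 := cd0q2) (C3 := pd2)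
    rfl k0_pm_022

noncomputable def f_pm_101 : ℕ → ℕ → ℕ → ℕ → Bool := onCell 536870912 536870912 536870912 536870912 740881858 40050571
    (rowB 3 eng mog cd3q1 cd0q1 pd0 0 false true false .npn 1 0 1 (qsf 536870912 536870912 536870912 536870912 0) ndB3q1 ndB0q1 pcB0 Cut.none Ext.none)

def k0_pm_101 : ∃ t, chk3 f_pm_101 t 1 1 1 = true :=
  ⟨(l 4), by decide +kernel⟩

theorem c_pm_101 : CertB 536870912 536870912 536870912 536870912 740881858 40050571 3 eng mog cd3q1 cd0q1 pd0 false true false .npn 1 0 1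
    ndB3q1 ndB0q1 pcB0 Cut.none Ext.none :=
  certB0 (fam := false) (s1 := true) (s2 := false) (a := 1) (b := 0) (c := 1) (cn := .npn) (n1 := ndB3q1) (n2 := ndB0q1) (pc := pcB0) (cut := Cut.none) (xt := Ext.none) (P1 := 536870912) (W1 := 536870912) (P2 := 536870912) (W2 := 536870912) (P3 := 740881858) (W3 := 40050571) (N0 := 3) (En := eng) (mo := mog) (C1 := cd3q1) (C2 := cd0q1) (C3 := pd0)
    rfl k0_pm_101

noncomputable def f_pm_102 : ℕ → ℕ → ℕ → ℕ → Bool := onCell 536870912 536870912 0 536870912 740881858 40050571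
    (rowB 3 eng mog cd3q1 cd0q2 pd0 0 false true false .npp 1 0 2 (qsf 536870912 536870912 0 536870912 0) ndB3q1 ndB0q2 pcB0 Cut.none Ext.none)

def k0_pm_102 : ∃ t, chk3 f_pm_102 t 1 1 1 = true :=
  ⟨(a (b (a (a (l 2) (b (l 2) (b (l 2) (l 16039568)))) (b (b (a (l 16047744) (l 15994888)) (a (l 16019136) (l 15959912))) (a (b (l 15978296) (l 15958320)) (b (l 15918480) (l 15891584))))) (l 4)) (b (a (b (a (b (l 15943352) (l 15897608)) (b (a (l 15899608) (l 15853280)) (l 15818768))) (a (b (l 15847024) (l 15807080)) (b (l 15755976) (l 15703160)))) (b (a (b (a (l 15804168) (l 15753440)) (l 15713464)) (b (b (l 15688720) (l 15652480)) (l 15597064))) (a (b (l 15643872) (b (l 15588920) (l 15566824))) (b (l 15517952) (b (l 15454096) (l 15420872)))))) (l 4))), by decide +kernel⟩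

theorem c_pm_102 : CertB 536870912 536870912 0 536870912 740881858 40050571 3 eng mog cd3q1 cd0q2 pd0 false true false .npp 1 0 2
    ndB3q1 ndB0q2 pcB0 Cut.none Ext.none :=
  certB0 (fam := false) (s1 := true) (s2 := false) (a := 1) (b := 0) (c := 2) (cn := .npp) (n1 := ndB3q1) (n2 := ndB0q2) (pc := pcB0) (cut := Cut.none) (xt := Ext.none) (P1 := 536870912) (W1 := 536870912) (P2 := 0) (W2 := 536870912) (P3 := 740881858) (W3 := 40050571) (N0 := 3) (En := eng) (mo := mog) (C1 := cd3q1) (C2 := cd0q2) (C3 := pd0)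
    rfl k0_pm_102

noncomputable def f_pm_112 : ℕ → ℕ → ℕ → ℕ → Bool := onCell 536870912 536870912 0 536870912 740881858 40050571
    (rowB 3 eng mog cd3q1 cd0q2 pd1 0 false true false .dn 1 1 2 (qsf 536870912 536870912 0 536870912 1) ndB3q1 ndB0q2 pcB1 Cut.none Ext.none)

def k0_pm_112 : ∃ t, chk3 f_pm_112 t 1 1 1 = true :=
  ⟨(a (b (a (b (b (l 16065104) (a (l 16025536) (l 16029672))) (a (l 16213056) (l 16062048))) (a (b (l 16153624) (b (l 15974176) (l 15960072))) (l 1))) (l 4)) (l 1)), by decide +kernel⟩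

theorem c_pm_112 : CertB 536870912 536870912 0 536870912 740881858 40050571 3 eng mog cd3q1 cd0q2 pd1 false true false .dn 1 1 2
    ndB3q1 ndB0q2 pcB1 Cut.none Ext.none :=
  certB0 (fam := false) (s1 := true) (s2 := false) (a := 1) (b := 1) (c := 2) (cn := .dn) (n1 := ndB3q1) (n2 := ndB0q2) (pc := pcB1) (cut := Cut.none) (xt := Ext.none) (P1 := 536870912) (W1 := 536870912) (P2 := 0) (W2 := 536870912) (P3 := 740881858) (W3 := 40050571) (N0 := 3) (En := eng) (mo := mog) (C1 := cd3q1) (C2 := cd0q2) (C3 := pd1)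
    rfl k0_pm_112

noncomputable def f_pm_202 : ℕ → ℕ → ℕ → ℕ → Bool := onCell 0 536870912 0 536870912 740881858 40050571
    (rowB 3 eng mog cd3q2 cd0q2 pd0 2 false true false .pp 2 0 2 (qsf 1073741824 536870912 0 536870912 0) ndB3q2 ndB0q2 pcB0 Cut.none Ext.none)

def k0_pm_202 : ∃ t, chk3 f_pm_202 t 2 2 1 = true :=
  ⟨(l 3), by decide +kernel⟩

def k1_pm_202 : ∃ t, chk3 f_pm_202 t 4 3 1 = true :=
  ⟨(b (a (b (b (l 3) (b (l 3) (b (a (l 3) (a (l 3) (l 16604472))) (a (a (a (l 555828680455) (l 16536464)) (a (l 16552192) (l 16520296))) (a (a (l 114520780503) (l 16594088)) (l 16613720)))))) (b (b (b (a (a (a (a (l 180019098135) (b (l 16530048) (l 16536688))) (b (l 16584584) (l 16549040))) (a (b (l 16558320) (l 16564976)) (b (l 16574328) (l 16580496)))) (a (a (l 16591912) (l 16607936)) (l 16610680))) (a (a (a (l 16546072) (l 16517512)) (a (c (l 16535600) (l 16530056)) (l 16591928))) (a (l 16614208) (l 16608488)))) (b (a (a (l 16570216) (l 16654632))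 (a (l 16669304) (l 16605936))) (a (l 16518088) (a (l 16615568) (l 16602984))))) (a (a (l 16615416) (l 16610288)) (a (l 16602376) (l 16591784))))) (b (b (l 3) (b (a (l 3) (a (a (l 102709780199) (a (l 91435438695) (b (l 3) (l 1)))) (l 1))) (a (a (b (l 16605992) (l 16603944)) (a (l 16618200) (l 16591304))) (a (a (l 16605632) (l 288332889975)) (l 1))))) (a (b (b (a (b (l 16599896) (l 16597232)) (b (l 16587568) (l 16583896))) (a (l 16591824) (l 16577520))) (b (a (b (l 16586384) (l 16581264)) (a (l 16572488) (l 1))) (l 295312255559))) (a (b (b (b (l 286185397063) (l 317323929015)) (l 1)) (l 1)) (l 1))))) (a (b (a (b (a (l 16596104) (l 16589760)) (a (l 16577312) (l 16570024))) (b (a (l 16580592) (l 16568800)) (a (l 16559920) (l 16547352)))) (a (b (a (b (l 16561952) (l 16550944)) (b (l 16555720) (a (l 16546224) (l 16543112)))) (a (b (l 16529984) (l 16548352)) (b (a (l 16532104) (l 1)) (l 1)))) (b (a (b (l 16545280) (l 1)) (l 1)) (l 1)))) (a (b (b (a (l 16554656)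 (l 1)) (l 1)) (l 1)) (l 1)))), by decide +kernel⟩

def k2_pm_202 : ∃ t, chk3 f_pm_202 t 5 3 1 = true :=
  ⟨(b (l 1) (l 1)), by decide +kernel⟩

def k3_pm_202 : ∃ t, chk3 f_pm_202 t 3 1 1 = true :=
  ⟨(l 1), by decide +kernel⟩

theorem s4_pm_202 : ∃ t, chk3 f_pm_202 t 2 3 1 = true := ex3_a k1_pm_202 k2_pm_202

theorem s5_pm_202 : ∃ t, chk3 f_pm_202 t 2 1 1 = true := ex3_b k0_pm_202 s4_pm_202

theorem s6_pm_202 : ∃ t, chk3 f_pm_202 t 1 1 1 = true := ex3_a s5_pm_202 k3_pm_202

theorem c_pm_202 : CertB 1073741824 536870912 0 536870912 740881858 40050571 3 eng mog cd3q2 cd0q2 pd0 false true false .pp 2 0 2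
    ndB3q2 ndB0q2 pcB0 Cut.none Ext.none :=
  certB2 (fam := false) (s1 := true) (s2 := false) (a := 2) (b := 0) (c := 2) (cn := .pp) (n1 := ndB3q2) (n2 := ndB0q2) (pc := pcB0) (cut := Cut.none) (xt := Ext.none) (P1 := 1073741824) (W1 := 536870912) (P2 := 0) (W2 := 536870912) (P3 := 740881858) (W3 := 40050571) (N0 := 3) (En := eng) (mo := mog) (C1 := cd3q2) (C2 := cd0q2) (C3 := pd0)
    rfl (fun _ => rfl) s6_pm_202

noncomputable def f_mm_001 : ℕ → ℕ → ℕ → ℕ → Bool := onCell 0 536870912 536870912 536870912 740881858 40050571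
    (rowB 3 eng mog cd3q0 cd0q1 pd0 0 false false false .up 0 0 1 (qsf 0 536870912 536870912 536870912 0) ndB3q0 ndB0q1 pcB0 Cut.none Ext.none)

def k0_mm_001 : ∃ t, chk3 f_mm_001 t 1 1 1 = true :=
  ⟨(l 5), by decide +kernel⟩

theorem c_mm_001 : CertB 0 536870912 536870912 536870912 740881858 40050571 3 eng mog cd3q0 cd0q1 pd0 false false false .up 0 0 1
    ndB3q0 ndB0q1 pcB0 Cut.none Ext.none :=
  certB0 (fam := false) (s1 := false) (s2 := false) (a := 0) (b := 0) (c := 1) (cn := .up) (n1 := ndB3q0) (n2 := ndB0q1) (pc := pcB0) (cut := Cut.none) (xt := Ext.none) (P1 := 0) (W1 := 536870912) (P2 := 536870912) (W2 := 536870912) (P3 := 740881858) (W3 := 40050571) (N0 := 3) (En := eng) (mo := mog) (C1 := cd3q0) (C2 := cd0q1) (C3 := pd0)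
    rfl k0_mm_001

noncomputable def f_mm_011 : ℕ → ℕ → ℕ → ℕ → Bool := onCell 0 536870912 536870912 536870912 740881858 40050571
    (rowB 3 eng mog cd3q0 cd0q1 pd1 0 false false false .pnn 0 1 1 (qsf 0 536870912 536870912 536870912 1) ndB3q0 ndB0q1 pcB1 Cut.none Ext.none)

def k0_mm_011 : ∃ t, chk3 f_mm_011 t 1 1 1 = true :=
  ⟨(l 5), by decide +kernel⟩

theorem c_mm_011 : CertB 0 536870912 536870912 536870912 740881858 40050571 3 eng mog cd3q0 cd0q1 pd1 false false false .pnn 0 1 1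
    ndB3q0 ndB0q1 pcB1 Cut.none Ext.none :=
  certB0 (fam := false) (s1 := false) (s2 := false) (a := 0) (b := 1) (c := 1) (cn := .pnn) (n1 := ndB3q0) (n2 := ndB0q1) (pc := pcB1) (cut := Cut.none) (xt := Ext.none) (P1 := 0) (W1 := 536870912) (P2 := 536870912) (W2 := 536870912) (P3 := 740881858) (W3 := 40050571) (N0 := 3) (En := eng) (mo := mog) (C1 := cd3q0) (C2 := cd0q1) (C3 := pd1)
    rfl k0_mm_011

noncomputable def f_mm_012 : ℕ → ℕ → ℕ → ℕ → Bool := onCell 0 536870912 0 536870912 740881858 40050571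
    (rowB 3 eng mog cd3q0 cd0q2 pd1 0 false false false .pnp 0 1 2 (qsf 0 536870912 0 536870912 1) ndB3q0 ndB0q2 pcB1 Cut.none Ext.none)

def k0_mm_012 : ∃ t, chk3 f_mm_012 t 1 1 1 = true :=
  ⟨(l 5), by decide +kernel⟩

theorem c_mm_012 : CertB 0 536870912 0 536870912 740881858 40050571 3 eng mog cd3q0 cd0q2 pd1 false false false .pnp 0 1 2
    ndB3q0 ndB0q2 pcB1 Cut.none Ext.none :=
  certB0 (fam := false) (s1 := false) (s2 := false) (a := 0) (b := 1) (c := 2) (cn := .pnp) (n1 := ndB3q0) (n2 := ndB0q2) (pc := pcB1) (cut := Cut.none) (xt := Ext.none) (P1 := 0) (W1 := 536870912) (P2 := 0) (W2 := 536870912) (P3 := 740881858) (W3 := 40050571) (N0 := 3) (En := eng) (mo := mog) (C1 := cd3q0) (C2 := cd0q2) (C3 := pd1)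
    rfl k0_mm_012

noncomputable def f_mm_022 : ℕ → ℕ → ℕ → ℕ → Bool := onCell 0 536870912 0 536870912 740881858 40050571
    (rowB 3 eng mog cd3q0 cd0q2 pd2 0 false false false .pp 0 2 2 (qsf 0 536870912 0 536870912 2) ndB3q0 ndB0q2 pcB2 Cut.none Ext.none)

def k0_mm_022 : ∃ t, chk3 f_mm_022 t 1 1 1 = true :=
  ⟨(l 5), by decide +kernel⟩

theorem c_mm_022 : CertB 0 536870912 0 536870912 740881858 40050571 3 eng mog cd3q0 cd0q2 pd2 false false false .pp 0 2 2
    ndB3q0 ndB0q2 pcB2 Cut.none Ext.none :=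
  certB0 (fam := false) (s1 := false) (s2 := false) (a := 0) (b := 2) (c := 2) (cn := .pp) (n1 := ndB3q0) (n2 := ndB0q2) (pc := pcB2) (cut := Cut.none) (xt := Ext.none) (P1 := 0) (W1 := 536870912) (P2 := 0) (W2 := 536870912) (P3 := 740881858) (W3 := 40050571) (N0 := 3) (En := eng) (mo := mog) (C1 := cd3q0) (C2 := cd0q2) (C3 := pd2)
    rfl k0_mm_022

noncomputable def f_mm_101 : ℕ → ℕ → ℕ → ℕ → Bool := onCell 536870912 536870912 536870912 536870912 740881858 40050571
    (rowB 3 eng mog cd3q1 cd0q1 pd0 0 false false false .npn 1 0 1 (qsf 536870912 536870912 536870912 536870912 0) ndB3q1 ndB0q1 pcB0 Cut.none Ext.none)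

def k0_mm_101 : ∃ t, chk3 f_mm_101 t 1 1 1 = true :=
  ⟨(b (l 3) (l 5)), by decide +kernel⟩

theorem c_mm_101 : CertB 536870912 536870912 536870912 536870912 740881858 40050571 3 eng mog cd3q1 cd0q1 pd0 false false false .npn 1 0 1
    ndB3q1 ndB0q1 pcB0 Cut.none Ext.none :=
  certB0 (fam := false) (s1 := false) (s2 := false) (a := 1) (b := 0) (c := 1) (cn := .npn) (n1 := ndB3q1) (n2 := ndB0q1) (pc := pcB0) (cut := Cut.none) (xt := Ext.none) (P1 := 536870912) (W1 := 536870912) (P2 := 536870912) (W2 := 536870912) (P3 := 740881858) (W3 := 40050571) (N0 := 3) (En := eng) (mo := mog) (C1 := cd3q1) (C2 := cd0q1) (C3 := pd0)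
    rfl k0_mm_101

noncomputable def f_mm_102 : ℕ → ℕ → ℕ → ℕ → Bool := onCell 536870912 536870912 0 536870912 740881858 40050571
    (rowB 3 eng mog cd3q1 cd0q2 pd0 0 false false false .npp 1 0 2 (qsf 536870912 536870912 0 536870912 0) ndB3q1 ndB0q2 pcB0 Cut.none Ext.none)

def k0_mm_102 : ∃ t, chk3 f_mm_102 t 1 1 1 = true :=
  ⟨(l 5), by decide +kernel⟩

theorem c_mm_102 : CertB 536870912 536870912 0 536870912 740881858 40050571 3 eng mog cd3q1 cd0q2 pd0 false false false .npp 1 0 2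
    ndB3q1 ndB0q2 pcB0 Cut.none Ext.none :=
  certB0 (fam := false) (s1 := false) (s2 := false) (a := 1) (b := 0) (c := 2) (cn := .npp) (n1 := ndB3q1) (n2 := ndB0q2) (pc := pcB0) (cut := Cut.none) (xt := Ext.none) (P1 := 536870912) (W1 := 536870912) (P2 := 0) (W2 := 536870912) (P3 := 740881858) (W3 := 40050571) (N0 := 3) (En := eng) (mo := mog) (C1 := cd3q1) (C2 := cd0q2) (C3 := pd0)
    rfl k0_mm_102

noncomputable def f_mm_112 : ℕ → ℕ → ℕ → ℕ → Bool := onCell 536870912 536870912 0 536870912 740881858 40050571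
    (rowB 3 eng mog cd3q1 cd0q2 pd1 0 false false false .dn 1 1 2 (qsf 536870912 536870912 0 536870912 1) ndB3q1 ndB0q2 pcB1 Cut.none Ext.none)

def k0_mm_112 : ∃ t, chk3 f_mm_112 t 1 1 1 = true :=
  ⟨(l 5), by decide +kernel⟩

theorem c_mm_112 : CertB 536870912 536870912 0 536870912 740881858 40050571 3 eng mog cd3q1 cd0q2 pd1 false false false .dn 1 1 2
    ndB3q1 ndB0q2 pcB1 Cut.none Ext.none :=
  certB0 (fam := false) (s1 := false) (s2 := false) (a := 1) (b := 1) (c := 2) (cn := .dn) (n1 := ndB3q1) (n2 := ndB0q2) (pc := pcB1) (cut := Cut.none) (xt := Ext.none) (P1 := 536870912) (W1 := 536870912) (P2 := 0) (W2 := 536870912) (P3 := 740881858) (W3 := 40050571) (N0 := 3) (En := eng) (mo := mog) (C1 := cd3q1) (C2 := cd0q2) (C3 := pd1)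
    rfl k0_mm_112

noncomputable def f_mm_202 : ℕ → ℕ → ℕ → ℕ → Bool := onCell 1073741824 536870912 0 536870912 740881858 40050571
    (rowB 3 eng mog cd3q2 cd0q2 pd0 0 false false false .pp 2 0 2 (qsf 1073741824 536870912 0 536870912 0) ndB3q2 ndB0q2 pcB0 Cut.none Ext.none)

def k0_mm_202 : ∃ t, chk3 f_mm_202 t 1 1 1 = true :=
  ⟨(l 3), by decide +kernel⟩

theorem c_mm_202 : CertB 1073741824 536870912 0 536870912 740881858 40050571 3 eng mog cd3q2 cd0q2 pd0 false false false .pp 2 0 2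
    ndB3q2 ndB0q2 pcB0 Cut.none Ext.none :=
  certB0 (fam := false) (s1 := false) (s2 := false) (a := 2) (b := 0) (c := 2) (cn := .pp) (n1 := ndB3q2) (n2 := ndB0q2) (pc := pcB0) (cut := Cut.none) (xt := Ext.none) (P1 := 1073741824) (W1 := 536870912) (P2 := 0) (W2 := 536870912) (P3 := 740881858) (W3 := 40050571) (N0 := 3) (En := eng) (mo := mog) (C1 := cd3q2) (C2 := cd0q2) (C3 := pd0)
    rfl k0_mm_202

end Pool.Agent.Strip051.G.I69_7273.Tab.C.BB30

namespace Pool.Agent.Strip051.G.I69_7273.Tab.C.BB31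

open Pool.Agent.Strip051.PB Pool.Agent.Strip051.PB.T
open Pool.Agent.Strip051.G.I69_7273.Tab

noncomputable def f_pp_001 : ℕ → ℕ → ℕ → ℕ → Bool := onCell 0 536870912 0 536870912 740881858 40050571
    (rowB 3 eng mog cd3q0 cd1q1 pd0 1 false true true .up 0 0 1 (qsf 0 536870912 536870912 536870912 0) ndB3q0 ndB1q1 pcB0 Cut.none Ext.none)

def k0_pp_001 : ∃ t, chk3 f_pp_001 t 1 1 1 = true :=
  ⟨(a (l 3) (l 3)), by decide +kernel⟩

theorem c_pp_001 : CertB 0 536870912 536870912 536870912 740881858 40050571 3 eng mog cd3q0 cd1q1 pd0 false true true .up 0 0 1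
    ndB3q0 ndB1q1 pcB0 Cut.none Ext.none :=
  certB1 (fam := false) (s1 := true) (s2 := true) (a := 0) (b := 0) (c := 1) (cn := .up) (n1 := ndB3q0) (n2 := ndB1q1) (pc := pcB0) (cut := Cut.none) (xt := Ext.none) (P1 := 0) (W1 := 536870912) (P2 := 536870912) (W2 := 536870912) (P3 := 740881858) (W3 := 40050571) (N0 := 3) (En := eng) (mo := mog) (C1 := cd3q0) (C2 := cd1q1) (C3 := pd0)
    rfl (fun _ => rfl) k0_pp_001

noncomputable def f_pp_011 : ℕ → ℕ → ℕ → ℕ → Bool := onCell 0 536870912 536870912 536870912 740881858 40050571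
    (rowB 3 eng mog cd3q0 cd1q1 pd1 0 false true true .pnn 0 1 1 (qsf 0 536870912 536870912 536870912 1) ndB3q0 ndB1q1 pcB1 Cut.none Ext.none)

def k0_pp_011 : ∃ t, chk3 f_pp_011 t 1 1 1 = true :=
  ⟨(a (b (l 3) (a (b (l 3) (l 3)) (l 3))) (l 3)), by decide +kernel⟩

theorem c_pp_011 : CertB 0 536870912 536870912 536870912 740881858 40050571 3 eng mog cd3q0 cd1q1 pd1 false true true .pnn 0 1 1
    ndB3q0 ndB1q1 pcB1 Cut.none Ext.none :=
  certB0 (fam := false) (s1 := true) (s2 := true) (a := 0) (b := 1) (c := 1) (cn := .pnn) (n1 := ndB3q0) (n2 := ndB1q1) (pc := pcB1) (cut := Cut.none) (xt := Ext.none) (P1 := 0) (W1 := 536870912) (P2 := 536870912) (W2 := 536870912) (P3 := 740881858) (W3 := 40050571) (N0 := 3) (En := eng) (mo := mog) (C1 := cd3q0) (C2 := cd1q1) (C3 := pd1)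
    rfl k0_pp_011

noncomputable def f_pp_012_a : ℕ → ℕ → ℕ → ℕ → Bool := onCell 0 536870912 0 536870912 740881858 40050571
    (rowB 3 eng mog cd3q0 cd1q2a pd1 0 false true true .pnp 0 1 2 (qsf 0 536870912 0 536870912 1) ndB3q0 ndB1q2a pcB1 Cut.none Ext.none)

def k0_pp_012_a : ∃ t, chk3 f_pp_012_a t 2 1 1 = true :=
  ⟨(b (a (a (l 2) (b (l 2) (b (l 2) (a (l 2) (a (l 2) (l 16447288)))))) (a (b (a (l 16368056) (l 16266792)) (b (a (l 16368568) (l 16369704)) (a (l 16445856) (l 16445952)))) (b (a (l 16265248) (l 16256920)) (b (a (l 16365208) (l 16352640)) (a (l 16439480) (l 16423120)))))) (b (a (a (l 2) (b (a (l 2) (l 16542144)) (a (a (l 16550656) (l 16550392)) (l 16551456)))) (a (b (a (l 16500192) (l 16500832)) (a (l 16552584) (l 16549784))) (b (a (l 16492408) (l 16471360)) (a (l 16532392) (l 16499064))))) (a (b (a (a (l 2) (b (l 16587496) (l 16620184))) (a (b (l 16588944) (l 16623432)) (l 16606240))) (a (b (a (b (l 16645368) (l 16662408)) (a (l 16655984)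 (l 16657008))) (a (b (l 16675256) (l 16685480)) (l 16814816))) (b (a (l 16632688) (l 16607048)) (a (l 16697416) (b (l 16630376) (l 16650808)))))) (b (a (b (l 16576112) (l 16543184)) (a (l 16523888) (l 16426160))) (a (b (a (l 16581096) (l 16551264)) (a (b (l 16609464) (l 16633640)) (l 16575704))) (b (a (l 16503072) (l 16430816)) (a (a (l 16568248) (l 16533888)) (c (l 16468520) (l 16465024))))))))), by decide +kernel⟩

def k1_pp_012_a : ∃ t, chk3 f_pp_012_a t 3 1 1 = true :=
  ⟨(b (a (a (b (a (l 16257272) (l 16265504)) (a (b (l 16347992) (l 16414072)) (l 16384672))) (b (a (l 16267088) (l 16250208)) (a (l 16377696) (l 16350392)))) (b (l 16204992) (a (l 16306808) (l 16261232)))) (a (b (a (a (b (l 16457504) (l 16474696)) (b (l 16451872) (l 16460536))) (a (b (l 16437880) (l 16440464)) (l 16409032))) (a (b (a (b (l 16431048) (l 16344520)) (l 16362424)) (a (b (l 16371896) (a (l 16425168) (l 16407784))) (b (l 16328752) (l 16375872)))) (b (a (l 16346144) (l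 16335584)) (a (b (l 16280472) (b (l 16316784) (l 16335256))) (b (l 16229840) (l 16264728)))))) (b (b (a (l 16351840) (l 16302032)) (a (l 16357192) (l 16315792))) (b (a (l 16318936) (b (l 16308592) (l 16298976))) (a (b (l 16278568) (a (l 16227832) (l 16215664))) (b (b (l 16284880) (l 16269976)) (a (l 16222352) (l 16252840)))))))), by decide +kernel⟩

theorem s2_pp_012_a : ∃ t, chk3 f_pp_012_a t 1 1 1 = true := ex3_a k0_pp_012_a k1_pp_012_a

theorem c_pp_012_a : CertB 0 536870912 0 536870912 740881858 40050571 3 eng mog cd3q0 cd1q2a pd1 false true true .pnp 0 1 2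
    ndB3q0 ndB1q2a pcB1 Cut.none Ext.none :=
  certB0 (fam := false) (s1 := true) (s2 := true) (a := 0) (b := 1) (c := 2) (cn := .pnp) (n1 := ndB3q0) (n2 := ndB1q2a) (pc := pcB1) (cut := Cut.none) (xt := Ext.none) (P1 := 0) (W1 := 536870912) (P2 := 0) (W2 := 536870912) (P3 := 740881858) (W3 := 40050571) (N0 := 3) (En := eng) (mo := mog) (C1 := cd3q0) (C2 := cd1q2a) (C3 := pd1)
    rfl s2_pp_012_a

noncomputable def f_pp_012_b : ℕ → ℕ → ℕ → ℕ → Bool := onCell 0 536870912 1239849684 370763052 740881858 40050571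
    (rowB 3 eng mog cd3q0 cd1q2b pd1 0 false true true .pnp 0 1 2 (qsf 0 536870912 1239849684 370763052 1) ndB3q0 ndB1q2b pcB1 Cut.none Ext.none)

def k0_pp_012_b : ∃ t, chk3 f_pp_012_b t 1 1 1 = true :=
  ⟨(a (a (l 2) (b (b (a (b (a (l 16128808) (l 16137120)) (l 2)) (a (b (l 16141496) (l 16001240)) (l 16075792))) (a (l 2) (a (l 2) (l 15794248)))) (l 2))) (a (a (b (b (a (l 16087984) (l 16107104)) (a (l 15826552) (l 15863648))) (l 2)) (b (a (b (l 16120728) (l 15896944)) (l 16021728)) (b (l 15913168) (l 2)))) (b (b (l 16271696) (l 15962712)) (b (l 15802208) (l 15724976))))), by decide +kernel⟩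

theorem c_pp_012_b : CertB 0 536870912 1239849684 370763052 740881858 40050571 3 eng mog cd3q0 cd1q2b pd1 false true true .pnp 0 1 2
    ndB3q0 ndB1q2b pcB1 Cut.none Ext.none :=
  certB0 (fam := false) (s1 := true) (s2 := true) (a := 0) (b := 1) (c := 2) (cn := .pnp) (n1 := ndB3q0) (n2 := ndB1q2b) (pc := pcB1) (cut := Cut.none) (xt := Ext.none) (P1 := 0) (W1 := 536870912) (P2 := 1239849684) (W2 := 370763052) (P3 := 740881858) (W3 := 40050571) (N0 := 3) (En := eng) (mo := mog) (C1 := cd3q0) (C2 := cd1q2b) (C3 := pd1)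
    rfl k0_pp_012_b

noncomputable def f_pp_022_a : ℕ → ℕ → ℕ → ℕ → Bool := onCell 0 536870912 0 536870912 740881858 40050571
    (rowB 3 eng mog cd3q0 cd1q2a pd2 0 false true true .pp 0 2 2 (qsf 0 536870912 0 536870912 2) ndB3q0 ndB1q2a pcB2 Cut.none Ext.none)

def k0_pp_022_a : ∃ t, chk3 f_pp_022_a t 1 1 1 = true :=
  ⟨(a (b (a (b (a (b (a (a (b (c (l 16369752) (l 16391096)) (l 16369720)) (a (l 16459112) (l 16411168))) (b (l 16348504) (l 16503464))) (a (c (l 16480528) (l 16413648)) (c (l 16369528) (l 16380616)))) (b (a (l 16321336) (l 16278928)) (a (l 16469544) (l 16415824)))) (a (a (b (c (a (l 16436128) (l 16419184)) (l 16441512)) (c (a (l 16446832) (l 16450944)) (l 16469616))) (b (c (l 16398400) (l 16405976)) (c (l 16431048) (l 16432864)))) (a (b (l 16370824) (a (l 16406872) (l 16389256))) (b (l 16337040) (l 16361360))))) (a (a (b (b (l 16228168) (l 16293976)) (b (l 16300800) (l 221223816167))) (b (b (l 1) (l 1)) (l 1))) (l 1))) (a (b (a (a (b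 (a (a (l 16504840) (l 16349712)) (l 16569072)) (b (a (l 16519728) (l 16503360)) (a (l 16529384) (l 16511760)))) (b (c (l 16463792) (l 16457672)) (b (l 16560128) (l 16482752)))) (b (a (b (l 16417704) (l 16428512)) (b (l 16378136) (l 16387024))) (a (b (l 16436024) (l 178274338071)) (b (l 221223905143) (l 1))))) (a (b (a (b (a (l 16536264) (l 16517248)) (a (l 16547312) (l 16526784))) (b (a (l 16496864) (l 16475416)) (a (l 16505056) (l 218002805703)))) (a (b (a (b (l 16555456) (l 16562016)) (b (l 16532992) (a (l 16542464) (l 16530320)))) (a (b (l 16568960) (a (l 16582256) (l 16568408))) (b (a (l 16548256) (l 1)) (l 1)))) (b (a (b (l 16510448) (l 1)) (l 1)) (l 1)))) (b (a (b (a (l 16453224) (l 1)) (l 1)) (l 1)) (l 1)))) (b (l 1) (l 1)))) (l 1)), by decide +kernel⟩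

theorem c_pp_022_a : CertB 0 536870912 0 536870912 740881858 40050571 3 eng mog cd3q0 cd1q2a pd2 false true true .pp 0 2 2
    ndB3q0 ndB1q2a pcB2 Cut.none Ext.none :=
  certB0 (fam := false) (s1 := true) (s2 := true) (a := 0) (b := 2) (c := 2) (cn := .pp) (n1 := ndB3q0) (n2 := ndB1q2a) (pc := pcB2) (cut := Cut.none) (xt := Ext.none) (P1 := 0) (W1 := 536870912) (P2 := 0) (W2 := 536870912) (P3 := 740881858) (W3 := 40050571) (N0 := 3) (En := eng) (mo := mog) (C1 := cd3q0) (C2 := cd1q2a) (C3 := pd2)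
    rfl k0_pp_022_a

noncomputable def f_pp_022_b : ℕ → ℕ → ℕ → ℕ → Bool := onCell 0 536870912 1073741824 536870912 740881858 40050571
    (rowB 3 eng mog cd3q0 cd1q2b pd2 1 false true true .pp 0 2 2 (qsf 0 536870912 1239849684 370763052 2) ndB3q0 ndB1q2b pcB2 Cut.none Ext.none)

def k0_pp_022_b : ∃ t, chk3 f_pp_022_b t 1 1 1 = true :=
  ⟨(a (b (b (b (a (a (l 1) (b (l 104186177303) (l 145525138807))) (a (b (l 16285328) (l 16130648)) (a (l 16016736) (l 15936288)))) (a (a (a (b (l 1) (a (l 1) (l 213707728487))) (b (l 16597536) (l 141230124503))) (b (a (l 16307376) (l 16222256)) (l 16434280))) (a (b (l 16105240) (l 16082800)) (l 16025736)))) (a (b (a (c (b (a (b (l 275447813575) (l 168610443271)) (l 16288112)) (a (l 16335376) (l 16269248))) (b (a (a (l 209412436887) (l 16359776)) (l 16301912)) (l 16318240))) (b (a (l 16222664) (l 16155248)) (l 16179080))) (a (b (l 16299296) (l 16277008)) (l 16178408))) (b (a (b (l 16063584) (l 16067432)) (l 16222912))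 (a (l 16086864) (l 16025048))))) (b (a (b (a (l 16177232) (l 16140336)) (l 16258096)) (b (l 16071424) (l 16053160))) (a (b (l 16001208) (a (l 15934512) (l 15965520))) (b (l 16000016) (l 2))))) (b (a (b (a (b (a (l 15870888) (l 15817912)) (l 16012704)) (b (l 15750504) (l 15805032))) (a (b (l 16159088) (l 15989992)) (b (l 15877872) (l 15987032)))) (b (b (l 15703912) (l 15812752)) (b (l 15938152) (l 2)))) (a (b (a (b (l 16062832) (l 2)) (l 2)) (l 2)) (l 2)))), by decide +kernel⟩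

theorem c_pp_022_b : CertB 0 536870912 1239849684 370763052 740881858 40050571 3 eng mog cd3q0 cd1q2b pd2 false true true .pp 0 2 2
    ndB3q0 ndB1q2b pcB2 Cut.none Ext.none :=
  certB1 (fam := false) (s1 := true) (s2 := true) (a := 0) (b := 2) (c := 2) (cn := .pp) (n1 := ndB3q0) (n2 := ndB1q2b) (pc := pcB2) (cut := Cut.none) (xt := Ext.none) (P1 := 0) (W1 := 536870912) (P2 := 1239849684) (W2 := 370763052) (P3 := 740881858) (W3 := 40050571) (N0 := 3) (En := eng) (mo := mog) (C1 := cd3q0) (C2 := cd1q2b) (C3 := pd2)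
    rfl (fun _ => rfl) k0_pp_022_b

noncomputable def f_pp_023 : ℕ → ℕ → ℕ → ℕ → Bool := onCell 0 536870912 1073741824 536870912 740881858 40050571
    (rowB 3 eng mog cd3q0 cd1q3 pd2 1 false true true .up 0 2 3 (qsf 0 536870912 1610612736 536870912 2) ndB3q0 ndB1q3 pcB2 Cut.none Ext.none)

def k0_pp_023 : ∃ t, chk3 f_pp_023 t 1 1 1 = true :=
  ⟨(a (b (b (l 1) (a (l 1) (b (l 1) (l 560525711591)))) (b (a (b (l 1) (l 16174744)) (b (l 16068984) (l 16057024))) (a (b (l 15999376) (l 733397956727)) (b (l 16020152) (l 15971424))))) (b (a (b (a (l 1) (l 511670028231)) (a (b (l 16113384) (l 15985232)) (b (l 15873872) (l 15983632)))) (b (l 607233014551) (b (l 15937872) (l 16097536)))) (b (a (a (b (l 16060416) (l 16120488)) (b (l 16095272) (l 4))) (b (l 16263632) (l 4))) (l 4)))), by decide +kernel⟩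

theorem c_pp_023 : CertB 0 536870912 1610612736 536870912 740881858 40050571 3 eng mog cd3q0 cd1q3 pd2 false true true .up 0 2 3
    ndB3q0 ndB1q3 pcB2 Cut.none Ext.none :=
  certB1 (fam := false) (s1 := true) (s2 := true) (a := 0) (b := 2) (c := 3) (cn := .up) (n1 := ndB3q0) (n2 := ndB1q3) (pc := pcB2) (cut := Cut.none) (xt := Ext.none) (P1 := 0) (W1 := 536870912) (P2 := 1610612736) (W2 := 536870912) (P3 := 740881858) (W3 := 40050571) (N0 := 3) (En := eng) (mo := mog) (C1 := cd3q0) (C2 := cd1q3) (C3 := pd2)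
    rfl (fun _ => rfl) k0_pp_023

noncomputable def f_pp_033 : ℕ → ℕ → ℕ → ℕ → Bool := onCell 0 536870912 1610612736 536870912 740881858 40050571
    (rowB 3 eng mog cd3q0 cd1q3 pd3 0 false true true .pnn 0 3 3 (qsf 0 536870912 1610612736 536870912 3) ndB3q0 ndB1q3 pcB3 Cut.none Ext.none)

def k0_pp_033 : ∃ t, chk3 f_pp_033 t 1 1 1 = true :=
  ⟨(a (b (a (b (b (a (a (l 15883808) (l 15925168)) (l 15974312)) (b (a (l 15875688) (l 15940512)) (l 4))) (l 4)) (b (b (l 1) (a (l 458519496855) (l 1))) (l 4))) (l 4)) (b (a (b (l 1) (b (l 1) (l 4))) (l 1)) (l 4))), by decide +kernel⟩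

theorem c_pp_033 : CertB 0 536870912 1610612736 536870912 740881858 40050571 3 eng mog cd3q0 cd1q3 pd3 false true true .pnn 0 3 3
    ndB3q0 ndB1q3 pcB3 Cut.none Ext.none :=
  certB0 (fam := false) (s1 := true) (s2 := true) (a := 0) (b := 3) (c := 3) (cn := .pnn) (n1 := ndB3q0) (n2 := ndB1q3) (pc := pcB3) (cut := Cut.none) (xt := Ext.none) (P1 := 0) (W1 := 536870912) (P2 := 1610612736) (W2 := 536870912) (P3 := 740881858) (W3 := 40050571) (N0 := 3) (En := eng) (mo := mog) (C1 := cd3q0) (C2 := cd1q3) (C3 := pd3)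
    rfl k0_pp_033

noncomputable def f_pp_101 : ℕ → ℕ → ℕ → ℕ → Bool := onCell 536870912 536870912 536870912 536870912 740881858 40050571
    (rowB 3 eng mog cd3q1 cd1q1 pd0 0 false true true .npn 1 0 1 (qsf 536870912 536870912 536870912 536870912 0) ndB3q1 ndB1q1 pcB0 Cut.none Ext.none)

def k0_pp_101 : ∃ t, chk3 f_pp_101 t 1 1 1 = true :=
  ⟨(l 3), by decide +kernel⟩

theorem c_pp_101 : CertB 536870912 536870912 536870912 536870912 740881858 40050571 3 eng mog cd3q1 cd1q1 pd0 false true true .npn 1 0 1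
    ndB3q1 ndB1q1 pcB0 Cut.none Ext.none :=
  certB0 (fam := false) (s1 := true) (s2 := true) (a := 1) (b := 0) (c := 1) (cn := .npn) (n1 := ndB3q1) (n2 := ndB1q1) (pc := pcB0) (cut := Cut.none) (xt := Ext.none) (P1 := 536870912) (W1 := 536870912) (P2 := 536870912) (W2 := 536870912) (P3 := 740881858) (W3 := 40050571) (N0 := 3) (En := eng) (mo := mog) (C1 := cd3q1) (C2 := cd1q1) (C3 := pd0)
    rfl k0_pp_101

noncomputable def cut_pp_102_a : Cut := Cut.of [[⟨0, 1, 0, 67108864⟩, ⟨1, 0, 0, 67108864⟩, ⟨2, 1, 0, 67108864⟩]]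

noncomputable def f_pp_102_a : ℕ → ℕ → ℕ → ℕ → Bool := onCell 0 536870912 0 536870912 740881858 40050571
    (rowB 3 eng mog cd3q1 cd1q2a pd0 2 false true true .npp 1 0 2 (qsf 536870912 536870912 0 536870912 0) ndB3q1 ndB1q2a pcB0 cut_pp_102_a Ext.none)

def k0_pp_102_a : ∃ t, chk3 f_pp_102_a t 2 1 1 = true :=
  ⟨(b (a (b (l 2) (a (l 2) (a (l 2) (b (l 2) (l 16016760))))) (a (b (a (l 15820440) (l 15876720)) (a (b (l 15953616) (l 16047480)) (b (l 15988608) (l 16072464)))) (b (b (l 15900896) (a (l 15951792) (l 15976400))) (a (l 16097496) (l 16072592))))) (a (b (a (l 2) (a (b (l 2) (a (b (l 2) (l 16312416)) (l 16359032))) (b (l 16137824) (b (l 16242296) (l 16319816))))) (b (a (a (l 2) (b (a (l 2) (b (l 2) (l 16426936))) (a (l 6) (b (l 16472680) (l 16519352))))) (a (b (a (l 16404064) (l 16403672)) (a (l 16493016) (b (l 16467184) (l 16510760)))) (b (l 16422368) (a (l 16568520) (l 16499408))))) (a (a (l 6) (a (l 6) (a (l 6) (b (b (l 16565864) (l 16611720))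 (b (l 16658896) (b (l 16693776) (b (l 16706616) (l 16703432)))))))) (a (b (b (a (l 16644664) (l 16552168)) (a (l 16605496) (l 16596360))) (b (a (b (l 16639328) (l 16620640)) (l 16641240)) (b (a (l 16684872) (l 16674288)) (a (b (l 16691688) (l 16709128)) (b (l 16671344) (l 16667552)))))) (a (b (l 16566952) (b (l 16630976) (b (l 16657256) (l 16649744)))) (b (l 16559288) (b (l 16620248) (b (l 16638600) (l 16631240))))))))) (b (a (b (a (l 16156328) (l 16172576)) (a (l 16308832) (l 16293320))) (b (a (l 16185344) (l 16194744)) (a (l 16507064) (l 16298648)))) (a (b (b (a (l 16461808) (l 16393064)) (a (l 16553608) (l 16458520))) (b (a (l 16587336) (l 16566736)) (b (a (l 16600544) (l 16571608)) (a (b (l 16614680) (a (l 16614816) (l 16600616))) (b (l 16586344) (l 16517040)))))) (b (b (a (l 16468840) (l 16377472)) (l 16520960)) (b (a (l 16544960) (l 16481056)) (b (a (l 16543136) (l 16514944)) (a (l 16554304) (l 16524432))))))))), by decide +kernel⟩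

def k1_pp_102_a : ∃ t, chk3 f_pp_102_a t 3 1 1 = true :=
  ⟨(a (b (a (b (a (l 16006664) (l 16023424)) (a (l 16094848) (l 16120432))) (b (a (l 16053608) (l 16069872)) (l 16358336))) (b (a (a (b (l 16206616) (l 16299504)) (b (l 16219888) (l 16300696))) (b (l 16235648) (l 16365320))) (a (a (b (l 16393312) (b (l 16459312) (l 16494896))) (b (l 16382600) (b (l 16437920) (l 16464680)))) (a (b (l 16372384) (b (l 16417024) (l 16435416))) (b (l 16362552) (b (l 16396592) (l 16406344))))))) (b (b (l 16108296) (a (l 16175216) (l 16208240))) (b (b (a (l 16255840) (l 16279768)) (a (l 16306936) (l 16316216))) (b (a (l 16349288) (l 16333672)) (a (b (l 16366904) (a (l 16376744) (l 16346808))) (b (l 16327936) (l 16433040))))))), by decide +kernel⟩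

theorem s2_pp_102_a : ∃ t, chk3 f_pp_102_a t 1 1 1 = true := ex3_a k0_pp_102_a k1_pp_102_a

theorem c_pp_102_a : CertB 536870912 536870912 0 536870912 740881858 40050571 3 eng mog cd3q1 cd1q2a pd0 false true true .npp 1 0 2
    ndB3q1 ndB1q2a pcB0 cut_pp_102_a Ext.none :=
  certB2 (fam := false) (s1 := true) (s2 := true) (a := 1) (b := 0) (c := 2) (cn := .npp) (n1 := ndB3q1) (n2 := ndB1q2a) (pc := pcB0) (cut := cut_pp_102_a) (xt := Ext.none) (P1 := 536870912) (W1 := 536870912) (P2 := 0) (W2 := 536870912) (P3 := 740881858) (W3 := 40050571) (N0 := 3) (En := eng) (mo := mog) (C1 := cd3q1) (C2 := cd1q2a) (C3 := pd0)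
    rfl (fun _ => rfl) s2_pp_102_a

noncomputable def cut_pp_102_b : Cut := Cut.of [[⟨0, 1, 0, 67108864⟩, ⟨1, 0, 0, 67108864⟩, ⟨2, 1, 0, 67108864⟩]]

noncomputable def f_pp_102_b : ℕ → ℕ → ℕ → ℕ → Bool := onCell 0 536870912 1239849684 370763052 740881858 40050571
    (rowB 3 eng mog cd3q1 cd1q2b pd0 2 false true true .npp 1 0 2 (qsf 536870912 536870912 1239849684 370763052 0) ndB3q1 ndB1q2b pcB0 cut_pp_102_b Ext.none)

def k0_pp_102_b : ∃ t, chk3 f_pp_102_b t 1 1 1 = true :=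
  ⟨(b (a (a (l 2) (a (b (b (l 15689648) (l 2)) (l 2)) (b (a (l 15694472) (l 15745208)) (l 83313397063)))) (a (a (a (b (l 15797488) (l 15502000)) (l 15907128)) (a (l 16027072) (l 15816568))) (a (l 15866672) (l 15932408)))) (a (l 2) (a (a (l 2) (a (l 15236144) (l 15309712))) (a (l 15445688) (l 15608464))))), by decide +kernel⟩

theorem c_pp_102_b : CertB 536870912 536870912 1239849684 370763052 740881858 40050571 3 eng mog cd3q1 cd1q2b pd0 false true true .npp 1 0 2
    ndB3q1 ndB1q2b pcB0 cut_pp_102_b Ext.none :=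
  certB2 (fam := false) (s1 := true) (s2 := true) (a := 1) (b := 0) (c := 2) (cn := .npp) (n1 := ndB3q1) (n2 := ndB1q2b) (pc := pcB0) (cut := cut_pp_102_b) (xt := Ext.none) (P1 := 536870912) (W1 := 536870912) (P2 := 1239849684) (W2 := 370763052) (P3 := 740881858) (W3 := 40050571) (N0 := 3) (En := eng) (mo := mog) (C1 := cd3q1) (C2 := cd1q2b) (C3 := pd0)
    rfl (fun _ => rfl) k0_pp_102_b

noncomputable def f_pp_112_a : ℕ → ℕ → ℕ → ℕ → Bool := onCell 536870912 536870912 0 536870912 740881858 40050571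
    (rowB 3 eng mog cd3q1 cd1q2a pd1 0 false true true .dn 1 1 2 (qsf 536870912 536870912 0 536870912 1) ndB3q1 ndB1q2a pcB1 Cut.none Ext.none)

def k0_pp_112_a : ∃ t, chk3 f_pp_112_a t 1 1 1 = true :=
  ⟨(a (b (a (b (l 16151768) (l 16205032)) (b (l 16068296) (l 16195352))) (a (b (b (a (l 16255424) (l 16226096)) (a (l 16278696) (l 16256688))) (b (a (l 16291904) (l 352220167207)) (a (b (b (l 16297520) (l 16444632)) (a (l 16282808) (l 1))) (l 1)))) (b (l 1) (l 1)))) (l 1)), by decide +kernel⟩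

theorem c_pp_112_a : CertB 536870912 536870912 0 536870912 740881858 40050571 3 eng mog cd3q1 cd1q2a pd1 false true true .dn 1 1 2
    ndB3q1 ndB1q2a pcB1 Cut.none Ext.none :=
  certB0 (fam := false) (s1 := true) (s2 := true) (a := 1) (b := 1) (c := 2) (cn := .dn) (n1 := ndB3q1) (n2 := ndB1q2a) (pc := pcB1) (cut := Cut.none) (xt := Ext.none) (P1 := 536870912) (W1 := 536870912) (P2 := 0) (W2 := 536870912) (P3 := 740881858) (W3 := 40050571) (N0 := 3) (En := eng) (mo := mog) (C1 := cd3q1) (C2 := cd1q2a) (C3 := pd1)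
    rfl k0_pp_112_a

noncomputable def f_pp_112_b : ℕ → ℕ → ℕ → ℕ → Bool := onCell 536870912 536870912 1239849684 370763052 740881858 40050571
    (rowB 3 eng mog cd3q1 cd1q2b pd1 2 false true true .dn 1 1 2 (qsf 536870912 536870912 1239849684 370763052 1) ndB3q1 ndB1q2b pcB1 Cut.none Ext.none)

def k0_pp_112_b : ∃ t, chk3 f_pp_112_b t 1 1 1 = true :=
  ⟨(a (b (a (b (l 16056824) (l 15941328)) (b (l 16084152) (l 16006424))) (a (l 15806056) (l 15962888))) (b (a (l 425771121815) (l 1)) (a (l 15946360) (l 444561188759)))), by decide +kernel⟩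

theorem c_pp_112_b : CertB 536870912 536870912 1239849684 370763052 740881858 40050571 3 eng mog cd3q1 cd1q2b pd1 false true true .dn 1 1 2
    ndB3q1 ndB1q2b pcB1 Cut.none Ext.none :=
  certB2 (fam := false) (s1 := true) (s2 := true) (a := 1) (b := 1) (c := 2) (cn := .dn) (n1 := ndB3q1) (n2 := ndB1q2b) (pc := pcB1) (cut := Cut.none) (xt := Ext.none) (P1 := 536870912) (W1 := 536870912) (P2 := 1239849684) (W2 := 370763052) (P3 := 740881858) (W3 := 40050571) (N0 := 3) (En := eng) (mo := mog) (C1 := cd3q1) (C2 := cd1q2b) (C3 := pd1)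
    rfl (fun _ => rfl) k0_pp_112_b

noncomputable def f_pp_113 : ℕ → ℕ → ℕ → ℕ → Bool := onCell 536870912 536870912 536870912 536870912 740881858 40050571
    (rowB 3 eng mog cd3q1 cd1q3 pd1 1 false true true .nn 1 1 3 (qsf 536870912 536870912 1610612736 536870912 1) ndB3q1 ndB1q3 pcB1 Cut.none Ext.none)

def k0_pp_113 : ∃ t, chk3 f_pp_113 t 1 1 1 = true :=
  ⟨(b (a (a (l 1) (l 403759348871)) (b (l 240550241463) (l 16124864))) (a (a (l 444561395719) (l 338261557223)) (b (l 17167984) (a (l 17232056) (l 17081992))))), by decide +kernel⟩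

theorem c_pp_113 : CertB 536870912 536870912 1610612736 536870912 740881858 40050571 3 eng mog cd3q1 cd1q3 pd1 false true true .nn 1 1 3
    ndB3q1 ndB1q3 pcB1 Cut.none Ext.none :=
  certB1 (fam := false) (s1 := true) (s2 := true) (a := 1) (b := 1) (c := 3) (cn := .nn) (n1 := ndB3q1) (n2 := ndB1q3) (pc := pcB1) (cut := Cut.none) (xt := Ext.none) (P1 := 536870912) (W1 := 536870912) (P2 := 1610612736) (W2 := 536870912) (P3 := 740881858) (W3 := 40050571) (N0 := 3) (En := eng) (mo := mog) (C1 := cd3q1) (C2 := cd1q3) (C3 := pd1)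
    rfl (fun _ => rfl) k0_pp_113

noncomputable def f_pp_123 : ℕ → ℕ → ℕ → ℕ → Bool := onCell 1073741824 536870912 1610612736 536870912 740881858 40050571
    (rowB 3 eng mog cd3q1 cd1q3 pd2 2 false true true .npn 1 2 3 (qsf 536870912 536870912 1610612736 536870912 2) ndB3q1 ndB1q3 pcB2 Cut.none Ext.none)

def k0_pp_123 : ∃ t, chk3 f_pp_123 t 1 1 1 = true :=
  ⟨(b (a (a (b (l 15926352) (l 16293912)) (a (l 654478203703) (l 654478344759))) (a (a (l 697965116711) (l 1)) (l 1))) (a (a (b (l 16873976) (l 16833912)) (b (a (l 16716528) (l 4)) (l 4))) (l 4))), by decide +kernel⟩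

theorem c_pp_123 : CertB 536870912 536870912 1610612736 536870912 740881858 40050571 3 eng mog cd3q1 cd1q3 pd2 false true true .npn 1 2 3
    ndB3q1 ndB1q3 pcB2 Cut.none Ext.none :=
  certB2 (fam := false) (s1 := true) (s2 := true) (a := 1) (b := 2) (c := 3) (cn := .npn) (n1 := ndB3q1) (n2 := ndB1q3) (pc := pcB2) (cut := Cut.none) (xt := Ext.none) (P1 := 536870912) (W1 := 536870912) (P2 := 1610612736) (W2 := 536870912) (P3 := 740881858) (W3 := 40050571) (N0 := 3) (En := eng) (mo := mog) (C1 := cd3q1) (C2 := cd1q3) (C3 := pd2)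
    rfl (fun _ => rfl) k0_pp_123

noncomputable def f_pp_133 : ℕ → ℕ → ℕ → ℕ → Bool := onCell 1610612736 536870912 1610612736 536870912 740881858 40050571
    (rowB 3 eng mog cd3q1 cd1q3 pd3 2 false true true .dn 1 3 3 (qsf 536870912 536870912 1610612736 536870912 3) ndB3q1 ndB1q3 pcB3 Cut.none Ext.none)

def k0_pp_133 : ∃ t, chk3 f_pp_133 t 1 1 1 = true :=
  ⟨(a (b (l 1) (l 4)) (l 1)), by decide +kernel⟩

theorem c_pp_133 : CertB 536870912 536870912 1610612736 536870912 740881858 40050571 3 eng mog cd3q1 cd1q3 pd3 false true true .dn 1 3 3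
    ndB3q1 ndB1q3 pcB3 Cut.none Ext.none :=
  certB2 (fam := false) (s1 := true) (s2 := true) (a := 1) (b := 3) (c := 3) (cn := .dn) (n1 := ndB3q1) (n2 := ndB1q3) (pc := pcB3) (cut := Cut.none) (xt := Ext.none) (P1 := 536870912) (W1 := 536870912) (P2 := 1610612736) (W2 := 536870912) (P3 := 740881858) (W3 := 40050571) (N0 := 3) (En := eng) (mo := mog) (C1 := cd3q1) (C2 := cd1q3) (C3 := pd3)
    rfl (fun _ => rfl) k0_pp_133

noncomputable def f_pp_202_a : ℕ → ℕ → ℕ → ℕ → Bool := onCell 1073741824 536870912 0 536870912 740881858 40050571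
    (rowB 3 eng mog cd3q2 cd1q2a pd0 0 false true true .pp 2 0 2 (qsf 1073741824 536870912 0 536870912 0) ndB3q2 ndB1q2a pcB0 Cut.none Ext.none)

def k0_pp_202_a : ∃ t, chk3 f_pp_202_a t 1 1 1 = true :=
  ⟨(l 3), by decide +kernel⟩

theorem c_pp_202_a : CertB 1073741824 536870912 0 536870912 740881858 40050571 3 eng mog cd3q2 cd1q2a pd0 false true true .pp 2 0 2
    ndB3q2 ndB1q2a pcB0 Cut.none Ext.none :=
  certB0 (fam := false) (s1 := true) (s2 := true) (a := 2) (b := 0) (c := 2) (cn := .pp) (n1 := ndB3q2) (n2 := ndB1q2a) (pc := pcB0) (cut := Cut.none) (xt := Ext.none) (P1 := 1073741824) (W1 := 536870912) (P2 := 0) (W2 := 536870912) (P3 := 740881858) (W3 := 40050571) (N0 := 3) (En := eng) (mo := mog) (C1 := cd3q2) (C2 := cd1q2a) (C3 := pd0)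
    rfl k0_pp_202_a

noncomputable def f_pp_202_b : ℕ → ℕ → ℕ → ℕ → Bool := onCell 1073741824 536870912 1239849684 370763052 740881858 40050571
    (rowB 3 eng mog cd3q2 cd1q2b pd0 0 false true true .pp 2 0 2 (qsf 1073741824 536870912 1239849684 370763052 0) ndB3q2 ndB1q2b pcB0 Cut.none Ext.none)

def k0_pp_202_b : ∃ t, chk3 f_pp_202_b t 1 1 1 = true :=
  ⟨(l 3), by decide +kernel⟩

theorem c_pp_202_b : CertB 1073741824 536870912 1239849684 370763052 740881858 40050571 3 eng mog cd3q2 cd1q2b pd0 false true true .pp 2 0 2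
    ndB3q2 ndB1q2b pcB0 Cut.none Ext.none :=
  certB0 (fam := false) (s1 := true) (s2 := true) (a := 2) (b := 0) (c := 2) (cn := .pp) (n1 := ndB3q2) (n2 := ndB1q2b) (pc := pcB0) (cut := Cut.none) (xt := Ext.none) (P1 := 1073741824) (W1 := 536870912) (P2 := 1239849684) (W2 := 370763052) (P3 := 740881858) (W3 := 40050571) (N0 := 3) (En := eng) (mo := mog) (C1 := cd3q2) (C2 := cd1q2b) (C3 := pd0)
    rfl k0_pp_202_b

noncomputable def f_pp_203 : ℕ → ℕ → ℕ → ℕ → Bool := onCell 1073741824 536870912 0 536870912 740881858 40050571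
    (rowB 3 eng mog cd3q2 cd1q3 pd0 1 false true true .up 2 0 3 (qsf 1073741824 536870912 1610612736 536870912 0) ndB3q2 ndB1q3 pcB0 Cut.none Ext.none)

def k0_pp_203 : ∃ t, chk3 f_pp_203 t 1 1 1 = true :=
  ⟨(l 3), by decide +kernel⟩

theorem c_pp_203 : CertB 1073741824 536870912 1610612736 536870912 740881858 40050571 3 eng mog cd3q2 cd1q3 pd0 false true true .up 2 0 3
    ndB3q2 ndB1q3 pcB0 Cut.none Ext.none :=
  certB1 (fam := false) (s1 := true) (s2 := true) (a := 2) (b := 0) (c := 3) (cn := .up) (n1 := ndB3q2) (n2 := ndB1q3) (pc := pcB0) (cut := Cut.none) (xt := Ext.none) (P1 := 1073741824) (W1 := 536870912) (P2 := 1610612736) (W2 := 536870912) (P3 := 740881858) (W3 := 40050571) (N0 := 3) (En := eng) (mo := mog) (C1 := cd3q2) (C2 := cd1q3) (C3 := pd0)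
    rfl (fun _ => rfl) k0_pp_203

noncomputable def f_pp_213 : ℕ → ℕ → ℕ → ℕ → Bool := onCell 536870912 536870912 1610612736 536870912 740881858 40050571
    (rowB 3 eng mog cd3q2 cd1q3 pd1 2 false true true .pnn 2 1 3 (qsf 1073741824 536870912 1610612736 536870912 1) ndB3q2 ndB1q3 pcB1 Cut.none Ext.none)

def k0_pp_213 : ∃ t, chk3 f_pp_213 t 1 1 1 = true :=
  ⟨(a (l 3) (a (a (l 3) (a (b (l 1) (l 3)) (b (l 1) (b (b (l 1) (l 369937516231)) (b (l 178945826519) (b (l 16560408) (l 16672984))))))) (b (l 1) (a (b (b (l 1) (a (l 402686746679) (l 1))) (a (b (b (l 16633256) (l 16611928)) (b (l 16597384) (l 16598592))) (b (l 16673776) (l 16626888)))) (b (l 1) (b (l 374232967191) (a (l 16715736) (l 16668280)))))))), by decide +kernel⟩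

theorem c_pp_213 : CertB 1073741824 536870912 1610612736 536870912 740881858 40050571 3 eng mog cd3q2 cd1q3 pd1 false true true .pnn 2 1 3
    ndB3q2 ndB1q3 pcB1 Cut.none Ext.none :=
  certB2 (fam := false) (s1 := true) (s2 := true) (a := 2) (b := 1) (c := 3) (cn := .pnn) (n1 := ndB3q2) (n2 := ndB1q3) (pc := pcB1) (cut := Cut.none) (xt := Ext.none) (P1 := 1073741824) (W1 := 536870912) (P2 := 1610612736) (W2 := 536870912) (P3 := 740881858) (W3 := 40050571) (N0 := 3) (En := eng) (mo := mog) (C1 := cd3q2) (C2 := cd1q3) (C3 := pd1)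
    rfl (fun _ => rfl) k0_pp_213

noncomputable def f_pp_303 : ℕ → ℕ → ℕ → ℕ → Bool := onCell 0 1230186008 1610612736 536870912 740881858 40050571
    (rowB 3 eng mog cd3q3 cd1q3 pd0 0 false true true .npn 3 0 3 (qsf 0 1230186008 1610612736 536870912 0) ndB3q3 ndB1q3 pcB0 Cut.none Ext.none)

def k0_pp_303 : ∃ t, chk3 f_pp_303 t 1 1 1 = true :=
  ⟨(a (l 3) (l 3)), by decide +kernel⟩

theorem c_pp_303 : CertB 0 1230186008 1610612736 536870912 740881858 40050571 3 eng mog cd3q3 cd1q3 pd0 false true true .npn 3 0 3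
    ndB3q3 ndB1q3 pcB0 Cut.none Ext.none :=
  certB0 (fam := false) (s1 := true) (s2 := true) (a := 3) (b := 0) (c := 3) (cn := .npn) (n1 := ndB3q3) (n2 := ndB1q3) (pc := pcB0) (cut := Cut.none) (xt := Ext.none) (P1 := 0) (W1 := 1230186008) (P2 := 1610612736) (W2 := 536870912) (P3 := 740881858) (W3 := 40050571) (N0 := 3) (En := eng) (mo := mog) (C1 := cd3q3) (C2 := cd1q3) (C3 := pd0)
    rfl k0_pp_303

noncomputable def f_pp_313 : ℕ → ℕ → ℕ → ℕ → Bool := onCell 0 1230186008 1610612736 536870912 740881858 40050571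
    (rowB 3 eng mog cd3q3 cd1q3 pd1 0 false true true .dn 3 1 3 (qsf 0 1230186008 1610612736 536870912 1) ndB3q3 ndB1q3 pcB1 Cut.none Ext.none)

def k0_pp_313 : ∃ t, chk3 f_pp_313 t 1 1 1 = true :=
  ⟨(a (l 1) (l 3)), by decide +kernel⟩

theorem c_pp_313 : CertB 0 1230186008 1610612736 536870912 740881858 40050571 3 eng mog cd3q3 cd1q3 pd1 false true true .dn 3 1 3
    ndB3q3 ndB1q3 pcB1 Cut.none Ext.none :=
  certB0 (fam := false) (s1 := true) (s2 := true) (a := 3) (b := 1) (c := 3) (cn := .dn) (n1 := ndB3q3) (n2 := ndB1q3) (pc := pcB1) (cut := Cut.none) (xt := Ext.none) (P1 := 0) (W1 := 1230186008) (P2 := 1610612736) (W2 := 536870912) (P3 := 740881858) (W3 := 40050571) (N0 := 3) (En := eng) (mo := mog) (C1 := cd3q3) (C2 := cd1q3) (C3 := pd1)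
    rfl k0_pp_313

noncomputable def f_pm_001 : ℕ → ℕ → ℕ → ℕ → Bool := onCell 0 536870912 536870912 536870912 740881858 40050571
    (rowB 3 eng mog cd3q0 cd1q1 pd0 0 false true false .up 0 0 1 (qsf 0 536870912 536870912 536870912 0) ndB3q0 ndB1q1 pcB0 Cut.none Ext.none)

def k0_pm_001 : ∃ t, chk3 f_pm_001 t 1 1 1 = true :=
  ⟨(l 4), by decide +kernel⟩

theorem c_pm_001 : CertB 0 536870912 536870912 536870912 740881858 40050571 3 eng mog cd3q0 cd1q1 pd0 false true false .up 0 0 1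
    ndB3q0 ndB1q1 pcB0 Cut.none Ext.none :=
  certB0 (fam := false) (s1 := true) (s2 := false) (a := 0) (b := 0) (c := 1) (cn := .up) (n1 := ndB3q0) (n2 := ndB1q1) (pc := pcB0) (cut := Cut.none) (xt := Ext.none) (P1 := 0) (W1 := 536870912) (P2 := 536870912) (W2 := 536870912) (P3 := 740881858) (W3 := 40050571) (N0 := 3) (En := eng) (mo := mog) (C1 := cd3q0) (C2 := cd1q1) (C3 := pd0)
    rfl k0_pm_001

noncomputable def f_pm_011 : ℕ → ℕ → ℕ → ℕ → Bool := onCell 0 536870912 536870912 536870912 740881858 40050571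
    (rowB 3 eng mog cd3q0 cd1q1 pd1 0 false true false .pnn 0 1 1 (qsf 0 536870912 536870912 536870912 1) ndB3q0 ndB1q1 pcB1 Cut.none Ext.none)

def k0_pm_011 : ∃ t, chk3 f_pm_011 t 1 1 1 = true :=
  ⟨(l 4), by decide +kernel⟩

theorem c_pm_011 : CertB 0 536870912 536870912 536870912 740881858 40050571 3 eng mog cd3q0 cd1q1 pd1 false true false .pnn 0 1 1
    ndB3q0 ndB1q1 pcB1 Cut.none Ext.none :=
  certB0 (fam := false) (s1 := true) (s2 := false) (a := 0) (b := 1) (c := 1) (cn := .pnn) (n1 := ndB3q0) (n2 := ndB1q1) (pc := pcB1) (cut := Cut.none) (xt := Ext.none) (P1 := 0) (W1 := 536870912) (P2 := 536870912) (W2 := 536870912) (P3 := 740881858) (W3 := 40050571) (N0 := 3) (En := eng) (mo := mog) (C1 := cd3q0) (C2 := cd1q1) (C3 := pd1)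
    rfl k0_pm_011

noncomputable def f_pm_012_a : ℕ → ℕ → ℕ → ℕ → Bool := onCell 536870912 536870912 0 536870912 740881858 40050571
    (rowB 3 eng mog cd3q0 cd1q2a pd1 2 false true false .pnp 0 1 2 (qsf 0 536870912 0 536870912 1) ndB3q0 ndB1q2a pcB1 Cut.none Ext.none)

def k0_pm_012_a : ∃ t, chk3 f_pm_012_a t 1 1 1 = true :=
  ⟨(a (b (b (a (l 2) (a (l 16026224) (l 16014408))) (l 4)) (l 4)) (b (a (a (b (b (l 16086936) (l 15993840)) (l 4)) (b (a (b (l 16022504) (l 16005712)) (b (l 16016376) (l 15988680))) (l 4))) (a (b (a (b (l 15999448) (l 16231632)) (l 15982136)) (a (b (l 15987336) (l 4)) (l 16014352))) (b (a (l 15984112) (l 15982480)) (a (l 16225040) (l 16151424))))) (a (l 4) (l 4)))), by decide +kernel⟩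

theorem c_pm_012_a : CertB 0 536870912 0 536870912 740881858 40050571 3 eng mog cd3q0 cd1q2a pd1 false true false .pnp 0 1 2
    ndB3q0 ndB1q2a pcB1 Cut.none Ext.none :=
  certB2 (fam := false) (s1 := true) (s2 := false) (a := 0) (b := 1) (c := 2) (cn := .pnp) (n1 := ndB3q0) (n2 := ndB1q2a) (pc := pcB1) (cut := Cut.none) (xt := Ext.none) (P1 := 0) (W1 := 536870912) (P2 := 0) (W2 := 536870912) (P3 := 740881858) (W3 := 40050571) (N0 := 3) (En := eng) (mo := mog) (C1 := cd3q0) (C2 := cd1q2a) (C3 := pd1)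
    rfl (fun _ => rfl) k0_pm_012_a

noncomputable def f_pm_012_b : ℕ → ℕ → ℕ → ℕ → Bool := onCell 0 536870912 536870912 536870912 740881858 40050571
    (rowB 3 eng mog cd3q0 cd1q2b pd1 1 false true false .pnp 0 1 2 (qsf 0 536870912 1239849684 370763052 1) ndB3q0 ndB1q2b pcB1 Cut.none Ext.none)

def k0_pm_012_b : ∃ t, chk3 f_pm_012_b t 1 1 1 = true :=
  ⟨(a (b (l 1) (a (l 1) (b (l 1) (a (b (l 1) (a (l 16211040) (l 16071720))) (b (a (l 16177632) (l 16063400)) (a (l 15957200) (l 15847680))))))) (a (b (l 1) (a (b (a (l 299070089127) (l 16164520)) (a (l 16076672) (l 15793536))) (b (a (l 16086992) (l 16001656)) (a (l 15727416) (b (l 15750752) (l 15572024)))))) (b (b (l 1) (a (l 16322312) (l 16026632))) (b (a (l 16086560) (b (l 15856528) (l 15740024))) (b (a (l 15676488) (l 15642488)) (l 15533160)))))), by decide +kernel⟩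

theorem c_pm_012_b : CertB 0 536870912 1239849684 370763052 740881858 40050571 3 eng mog cd3q0 cd1q2b pd1 false true false .pnp 0 1 2
    ndB3q0 ndB1q2b pcB1 Cut.none Ext.none :=
  certB1 (fam := false) (s1 := true) (s2 := false) (a := 0) (b := 1) (c := 2) (cn := .pnp) (n1 := ndB3q0) (n2 := ndB1q2b) (pc := pcB1) (cut := Cut.none) (xt := Ext.none) (P1 := 0) (W1 := 536870912) (P2 := 1239849684) (W2 := 370763052) (P3 := 740881858) (W3 := 40050571) (N0 := 3) (En := eng) (mo := mog) (C1 := cd3q0) (C2 := cd1q2b) (C3 := pd1)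
    rfl (fun _ => rfl) k0_pm_012_b

noncomputable def f_pm_022_a : ℕ → ℕ → ℕ → ℕ → Bool := onCell 0 536870912 0 536870912 740881858 40050571
    (rowB 3 eng mog cd3q0 cd1q2a pd2 0 false true false .pp 0 2 2 (qsf 0 536870912 0 536870912 2) ndB3q0 ndB1q2a pcB2 Cut.none Ext.none)

def k0_pm_022_a : ∃ t, chk3 f_pm_022_a t 1 1 1 = true :=
  ⟨(a (a (b (a (b (a (b (l 16438816) (l 16357200)) (l 16416816)) (b (a (l 16364784) (l 16284432)) (a (a (l 16400056) (l 16360464)) (l 16442632)))) (a (b (l 16211816) (b (l 16189624) (l 16198856))) (b (l 16118824) (b (l 16082168) (l 4))))) (b (l 4) (l 4))) (b (a (b (a (l 16013048) (l 15916560)) (b (a (l 15963192) (l 1)) (l 4))) (l 1)) (l 4))) (l 1)), by decide +kernel⟩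

theorem c_pm_022_a : CertB 0 536870912 0 536870912 740881858 40050571 3 eng mog cd3q0 cd1q2a pd2 false true false .pp 0 2 2
    ndB3q0 ndB1q2a pcB2 Cut.none Ext.none :=
  certB0 (fam := false) (s1 := true) (s2 := false) (a := 0) (b := 2) (c := 2) (cn := .pp) (n1 := ndB3q0) (n2 := ndB1q2a) (pc := pcB2) (cut := Cut.none) (xt := Ext.none) (P1 := 0) (W1 := 536870912) (P2 := 0) (W2 := 536870912) (P3 := 740881858) (W3 := 40050571) (N0 := 3) (En := eng) (mo := mog) (C1 := cd3q0) (C2 := cd1q2a) (C3 := pd2)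
    rfl k0_pm_022_a

noncomputable def f_pm_022_b : ℕ → ℕ → ℕ → ℕ → Bool := onCell 0 536870912 1073741824 536870912 740881858 40050571
    (rowB 3 eng mog cd3q0 cd1q2b pd2 1 false true false .pp 0 2 2 (qsf 0 536870912 1239849684 370763052 2) ndB3q0 ndB1q2b pcB2 Cut.none Ext.none)

def k0_pm_022_b : ∃ t, chk3 f_pm_022_b t 1 1 1 = true :=
  ⟨(a (b (b (a (a (b (l 1) (b (l 278132472503) (a (l 16549456) (l 16296168)))) (b (b (l 297459455271) (l 239477334247)) (b (l 16215232) (l 16146080)))) (b (a (b (l 15994128) (l 15984736)) (b (l 15783640) (l 15798320))) (a (l 16162992) (l 15970552)))) (a (b (b (a (a (b (l 16364896) (l 16341040)) (l 16255856)) (l 16122136)) (a (a (l 16318360) (l 16229944)) (l 16110032))) (a (l 16385672) (l 16101520))) (b (a (b (l 15970872) (l 15977336)) (b (l 15857848) (l 15888512))) (a (l 16000216) (l 4))))) (b (a (b (a (l 16174776) (l 16081960)) (a (l 16078048) (l 16038168))) (l 4)) (a (b (a (l 15976088) (l 4)) (l 4)) (l 4)))) (b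 (b (a (a (b (a (l 15673928) (l 15618616)) (a (l 15744520) (l 15712744))) (b (a (l 15577088) (l 15549928)) (l 4))) (l 4)) (l 4)) (l 4))), by decide +kernel⟩

theorem c_pm_022_b : CertB 0 536870912 1239849684 370763052 740881858 40050571 3 eng mog cd3q0 cd1q2b pd2 false true false .pp 0 2 2
    ndB3q0 ndB1q2b pcB2 Cut.none Ext.none :=
  certB1 (fam := false) (s1 := true) (s2 := false) (a := 0) (b := 2) (c := 2) (cn := .pp) (n1 := ndB3q0) (n2 := ndB1q2b) (pc := pcB2) (cut := Cut.none) (xt := Ext.none) (P1 := 0) (W1 := 536870912) (P2 := 1239849684) (W2 := 370763052) (P3 := 740881858) (W3 := 40050571) (N0 := 3) (En := eng) (mo := mog) (C1 := cd3q0) (C2 := cd1q2b) (C3 := pd2)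
    rfl (fun _ => rfl) k0_pm_022_b

noncomputable def f_pm_023 : ℕ → ℕ → ℕ → ℕ → Bool := onCell 0 536870912 1610612736 536870912 740881858 40050571
    (rowB 3 eng mog cd3q0 cd1q3 pd2 0 false true false .up 0 2 3 (qsf 0 536870912 1610612736 536870912 2) ndB3q0 ndB1q3 pcB2 Cut.none Ext.none)

def k0_pm_023 : ∃ t, chk3 f_pm_023 t 1 1 1 = true :=
  ⟨(a (l 4) (b (l 4) (l 4))), by decide +kernel⟩

theorem c_pm_023 : CertB 0 536870912 1610612736 536870912 740881858 40050571 3 eng mog cd3q0 cd1q3 pd2 false true false .up 0 2 3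
    ndB3q0 ndB1q3 pcB2 Cut.none Ext.none :=
  certB0 (fam := false) (s1 := true) (s2 := false) (a := 0) (b := 2) (c := 3) (cn := .up) (n1 := ndB3q0) (n2 := ndB1q3) (pc := pcB2) (cut := Cut.none) (xt := Ext.none) (P1 := 0) (W1 := 536870912) (P2 := 1610612736) (W2 := 536870912) (P3 := 740881858) (W3 := 40050571) (N0 := 3) (En := eng) (mo := mog) (C1 := cd3q0) (C2 := cd1q3) (C3 := pd2)
    rfl k0_pm_023

noncomputable def f_pm_033 : ℕ → ℕ → ℕ → ℕ → Bool := onCell 0 536870912 1610612736 536870912 740881858 40050571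
    (rowB 3 eng mog cd3q0 cd1q3 pd3 0 false true false .pnn 0 3 3 (qsf 0 536870912 1610612736 536870912 3) ndB3q0 ndB1q3 pcB3 Cut.none Ext.none)

def k0_pm_033 : ∃ t, chk3 f_pm_033 t 1 1 1 = true :=
  ⟨(a (l 4) (b (l 4) (l 4))), by decide +kernel⟩

theorem c_pm_033 : CertB 0 536870912 1610612736 536870912 740881858 40050571 3 eng mog cd3q0 cd1q3 pd3 false true false .pnn 0 3 3
    ndB3q0 ndB1q3 pcB3 Cut.none Ext.none :=
  certB0 (fam := false) (s1 := true) (s2 := false) (a := 0) (b := 3) (c := 3) (cn := .pnn) (n1 := ndB3q0) (n2 := ndB1q3) (pc := pcB3) (cut := Cut.none) (xt := Ext.none) (P1 := 0) (W1 := 536870912) (P2 := 1610612736) (W2 := 536870912) (P3 := 740881858) (W3 := 40050571) (N0 := 3) (En := eng) (mo := mog) (C1 := cd3q0) (C2 := cd1q3) (C3 := pd3)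
    rfl k0_pm_033

noncomputable def f_pm_101 : ℕ → ℕ → ℕ → ℕ → Bool := onCell 536870912 536870912 536870912 536870912 740881858 40050571
    (rowB 3 eng mog cd3q1 cd1q1 pd0 0 false true false .npn 1 0 1 (qsf 536870912 536870912 536870912 536870912 0) ndB3q1 ndB1q1 pcB0 Cut.none Ext.none)

def k0_pm_101 : ∃ t, chk3 f_pm_101 t 1 1 1 = true :=
  ⟨(l 4), by decide +kernel⟩

theorem c_pm_101 : CertB 536870912 536870912 536870912 536870912 740881858 40050571 3 eng mog cd3q1 cd1q1 pd0 false true false .npn 1 0 1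
    ndB3q1 ndB1q1 pcB0 Cut.none Ext.none :=
  certB0 (fam := false) (s1 := true) (s2 := false) (a := 1) (b := 0) (c := 1) (cn := .npn) (n1 := ndB3q1) (n2 := ndB1q1) (pc := pcB0) (cut := Cut.none) (xt := Ext.none) (P1 := 536870912) (W1 := 536870912) (P2 := 536870912) (W2 := 536870912) (P3 := 740881858) (W3 := 40050571) (N0 := 3) (En := eng) (mo := mog) (C1 := cd3q1) (C2 := cd1q1) (C3 := pd0)
    rfl k0_pm_101

noncomputable def f_pm_102_a : ℕ → ℕ → ℕ → ℕ → Bool := onCell 536870912 536870912 0 536870912 740881858 40050571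
    (rowB 3 eng mog cd3q1 cd1q2a pd0 0 false true false .npp 1 0 2 (qsf 536870912 536870912 0 536870912 0) ndB3q1 ndB1q2a pcB0 Cut.none Ext.none)

def k0_pm_102_a : ∃ t, chk3 f_pm_102_a t 1 1 1 = true :=
  ⟨(b (a (a (b (l 2) (l 4)) (b (a (l 15988320) (l 15920112)) (l 4))) (a (b (a (l 15849656) (l 15762560)) (b (a (l 15804040) (l 15701648)) (l 4))) (b (a (l 15652664) (l 15592264)) (b (a (l 15579424) (l 15441256)) (l 4))))) (l 4)), by decide +kernel⟩

theorem c_pm_102_a : CertB 536870912 536870912 0 536870912 740881858 40050571 3 eng mog cd3q1 cd1q2a pd0 false true false .npp 1 0 2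
    ndB3q1 ndB1q2a pcB0 Cut.none Ext.none :=
  certB0 (fam := false) (s1 := true) (s2 := false) (a := 1) (b := 0) (c := 2) (cn := .npp) (n1 := ndB3q1) (n2 := ndB1q2a) (pc := pcB0) (cut := Cut.none) (xt := Ext.none) (P1 := 536870912) (W1 := 536870912) (P2 := 0) (W2 := 536870912) (P3 := 740881858) (W3 := 40050571) (N0 := 3) (En := eng) (mo := mog) (C1 := cd3q1) (C2 := cd1q2a) (C3 := pd0)
    rfl k0_pm_102_a

noncomputable def f_pm_102_b : ℕ → ℕ → ℕ → ℕ → Bool := onCell 0 536870912 1239849684 370763052 740881858 40050571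
    (rowB 3 eng mog cd3q1 cd1q2b pd0 2 false true false .npp 1 0 2 (qsf 536870912 536870912 1239849684 370763052 0) ndB3q1 ndB1q2b pcB0 Cut.none Ext.none)

def k0_pm_102_b : ∃ t, chk3 f_pm_102_b t 1 1 1 = true :=
  ⟨(a (a (l 2) (b (a (b (a (l 169749575943) (l 15444632)) (l 2)) (b (l 15544536) (l 15309824))) (l 2))) (a (b (a (b (l 15664792) (l 15454584)) (l 15826008)) (a (l 2) (l 15281240))) (b (a (l 15768064) (l 15849488)) (a (l 15446704) (l 15593696))))), by decide +kernel⟩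

theorem c_pm_102_b : CertB 536870912 536870912 1239849684 370763052 740881858 40050571 3 eng mog cd3q1 cd1q2b pd0 false true false .npp 1 0 2
    ndB3q1 ndB1q2b pcB0 Cut.none Ext.none :=
  certB2 (fam := false) (s1 := true) (s2 := false) (a := 1) (b := 0) (c := 2) (cn := .npp) (n1 := ndB3q1) (n2 := ndB1q2b) (pc := pcB0) (cut := Cut.none) (xt := Ext.none) (P1 := 536870912) (W1 := 536870912) (P2 := 1239849684) (W2 := 370763052) (P3 := 740881858) (W3 := 40050571) (N0 := 3) (En := eng) (mo := mog) (C1 := cd3q1) (C2 := cd1q2b) (C3 := pd0)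
    rfl (fun _ => rfl) k0_pm_102_b

noncomputable def f_pm_112_a : ℕ → ℕ → ℕ → ℕ → Bool := onCell 536870912 536870912 0 536870912 740881858 40050571
    (rowB 3 eng mog cd3q1 cd1q2a pd1 2 false true false .dn 1 1 2 (qsf 536870912 536870912 0 536870912 1) ndB3q1 ndB1q2a pcB1 Cut.none Ext.none)

def k0_pm_112_a : ∃ t, chk3 f_pm_112_a t 1 1 1 = true :=
  ⟨(a (b (a (a (l 16007432) (l 16137888)) (a (b (l 16004648) (l 4)) (l 1))) (l 4)) (l 1)), by decide +kernel⟩

theorem c_pm_112_a : CertB 536870912 536870912 0 536870912 740881858 40050571 3 eng mog cd3q1 cd1q2a pd1 false true false .dn 1 1 2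
    ndB3q1 ndB1q2a pcB1 Cut.none Ext.none :=
  certB2 (fam := false) (s1 := true) (s2 := false) (a := 1) (b := 1) (c := 2) (cn := .dn) (n1 := ndB3q1) (n2 := ndB1q2a) (pc := pcB1) (cut := Cut.none) (xt := Ext.none) (P1 := 536870912) (W1 := 536870912) (P2 := 0) (W2 := 536870912) (P3 := 740881858) (W3 := 40050571) (N0 := 3) (En := eng) (mo := mog) (C1 := cd3q1) (C2 := cd1q2a) (C3 := pd1)
    rfl (fun _ => rfl) k0_pm_112_a

noncomputable def f_pm_112_b : ℕ → ℕ → ℕ → ℕ → Bool := onCell 536870912 536870912 1239849684 370763052 740881858 40050571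
    (rowB 3 eng mog cd3q1 cd1q2b pd1 2 false true false .dn 1 1 2 (qsf 536870912 536870912 1239849684 370763052 1) ndB3q1 ndB1q2b pcB1 Cut.none Ext.none)

def k0_pm_112_b : ∃ t, chk3 f_pm_112_b t 1 1 1 = true :=
  ⟨(a (a (b (b (l 15967608) (l 15868984)) (l 15770376)) (b (a (l 15925592) (b (l 15931336) (l 15865976))) (l 15879112))) (b (a (b (l 1) (a (l 15811480) (l 425770625303))) (l 1)) (a (a (l 15828944) (l 15750272)) (a (l 15659848) (l 480531046279))))), by decide +kernel⟩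

theorem c_pm_112_b : CertB 536870912 536870912 1239849684 370763052 740881858 40050571 3 eng mog cd3q1 cd1q2b pd1 false true false .dn 1 1 2
    ndB3q1 ndB1q2b pcB1 Cut.none Ext.none :=
  certB2 (fam := false) (s1 := true) (s2 := false) (a := 1) (b := 1) (c := 2) (cn := .dn) (n1 := ndB3q1) (n2 := ndB1q2b) (pc := pcB1) (cut := Cut.none) (xt := Ext.none) (P1 := 536870912) (W1 := 536870912) (P2 := 1239849684) (W2 := 370763052) (P3 := 740881858) (W3 := 40050571) (N0 := 3) (En := eng) (mo := mog) (C1 := cd3q1) (C2 := cd1q2b) (C3 := pd1)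
    rfl (fun _ => rfl) k0_pm_112_b

noncomputable def f_pm_113 : ℕ → ℕ → ℕ → ℕ → Bool := onCell 536870912 536870912 536870912 536870912 740881858 40050571
    (rowB 3 eng mog cd3q1 cd1q3 pd1 1 false true false .nn 1 1 3 (qsf 536870912 536870912 1610612736 536870912 1) ndB3q1 ndB1q3 pcB1 Cut.none Ext.none)

def k0_pm_113 : ∃ t, chk3 f_pm_113 t 1 1 1 = true :=
  ⟨(b (a (b (l 1) (a (l 1) (l 15861376))) (b (l 15991288) (l 338261445447))) (a (b (a (l 464425397991) (l 15955088)) (a (l 15725768) (l 4))) (b (a (l 16594488) (l 17264360)) (a (l 17146640) (l 17125360))))), by decide +kernel⟩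

theorem c_pm_113 : CertB 536870912 536870912 1610612736 536870912 740881858 40050571 3 eng mog cd3q1 cd1q3 pd1 false true false .nn 1 1 3
    ndB3q1 ndB1q3 pcB1 Cut.none Ext.none :=
  certB1 (fam := false) (s1 := true) (s2 := false) (a := 1) (b := 1) (c := 3) (cn := .nn) (n1 := ndB3q1) (n2 := ndB1q3) (pc := pcB1) (cut := Cut.none) (xt := Ext.none) (P1 := 536870912) (W1 := 536870912) (P2 := 1610612736) (W2 := 536870912) (P3 := 740881858) (W3 := 40050571) (N0 := 3) (En := eng) (mo := mog) (C1 := cd3q1) (C2 := cd1q3) (C3 := pd1)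
    rfl (fun _ => rfl) k0_pm_113

noncomputable def f_pm_123 : ℕ → ℕ → ℕ → ℕ → Bool := onCell 1073741824 536870912 1610612736 536870912 740881858 40050571
    (rowB 3 eng mog cd3q1 cd1q3 pd2 2 false true false .npn 1 2 3 (qsf 536870912 536870912 1610612736 536870912 2) ndB3q1 ndB1q3 pcB2 Cut.none Ext.none)

def k0_pm_123 : ∃ t, chk3 f_pm_123 t 1 1 1 = true :=
  ⟨(a (a (b (l 4) (b (l 4) (l 16818864))) (l 4)) (b (a (l 4) (l 1)) (l 4))), by decide +kernel⟩

theorem c_pm_123 : CertB 536870912 536870912 1610612736 536870912 740881858 40050571 3 eng mog cd3q1 cd1q3 pd2 false true false .npn 1 2 3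
    ndB3q1 ndB1q3 pcB2 Cut.none Ext.none :=
  certB2 (fam := false) (s1 := true) (s2 := false) (a := 1) (b := 2) (c := 3) (cn := .npn) (n1 := ndB3q1) (n2 := ndB1q3) (pc := pcB2) (cut := Cut.none) (xt := Ext.none) (P1 := 536870912) (W1 := 536870912) (P2 := 1610612736) (W2 := 536870912) (P3 := 740881858) (W3 := 40050571) (N0 := 3) (En := eng) (mo := mog) (C1 := cd3q1) (C2 := cd1q3) (C3 := pd2)
    rfl (fun _ => rfl) k0_pm_123

noncomputable def f_pm_133 : ℕ → ℕ → ℕ → ℕ → Bool := onCell 536870912 536870912 1610612736 536870912 740881858 40050571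
    (rowB 3 eng mog cd3q1 cd1q3 pd3 0 false true false .dn 1 3 3 (qsf 536870912 536870912 1610612736 536870912 3) ndB3q1 ndB1q3 pcB3 Cut.none Ext.none)

def k0_pm_133 : ∃ t, chk3 f_pm_133 t 1 1 1 = true :=
  ⟨(a (b (l 1) (l 4)) (l 1)), by decide +kernel⟩

theorem c_pm_133 : CertB 536870912 536870912 1610612736 536870912 740881858 40050571 3 eng mog cd3q1 cd1q3 pd3 false true false .dn 1 3 3
    ndB3q1 ndB1q3 pcB3 Cut.none Ext.none :=
  certB0 (fam := false) (s1 := true) (s2 := false) (a := 1) (b := 3) (c := 3) (cn := .dn) (n1 := ndB3q1) (n2 := ndB1q3) (pc := pcB3) (cut := Cut.none) (xt := Ext.none) (P1 := 536870912) (W1 := 536870912) (P2 := 1610612736) (W2 := 536870912) (P3 := 740881858) (W3 := 40050571) (N0 := 3) (En := eng) (mo := mog) (C1 := cd3q1) (C2 := cd1q3) (C3 := pd3)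
    rfl k0_pm_133

noncomputable def f_pm_202_a : ℕ → ℕ → ℕ → ℕ → Bool := onCell 0 536870912 0 536870912 740881858 40050571
    (rowB 3 eng mog cd3q2 cd1q2a pd0 2 false true false .pp 2 0 2 (qsf 1073741824 536870912 0 536870912 0) ndB3q2 ndB1q2a pcB0 Cut.none Ext.none)

def k0_pm_202_a : ∃ t, chk3 f_pm_202_a t 4 2 1 = true :=
  ⟨(a (l 3) (b (l 3) (b (l 3) (b (l 3) (a (l 3) (b (l 3) (a (l 80161122503) (b (l 3) (l 215855291639))))))))), by decide +kernel⟩

def k1_pm_202_a : ∃ t, chk3 f_pm_202_a t 4 3 1 = true :=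
  ⟨(b (a (b (a (b (b (a (l 3) (c (l 471003119159) (l 659444801367))) (b (b (a (a (l 793662416151) (l 16489864)) (a (l 16504208) (l 16519464))) (a (c (a (l 137069354551) (l 16501744)) (a (a (l 16460344) (l 16471040)) (l 16485064))) (l 16538128))) (a (a (a (l 16480760) (l 16488272)) (c (l 16508768) (l 16492920))) (a (a (l 16514192) (l 16518984)) (l 16530496))))) (b (a (a (l 16526136) (l 16519768)) (a (a (l 16528968) (l 16452448)) (b (l 16543640) (l 16490424)))) (a (l 16540928) (l 16569760)))) (a (b (b (a (l 127942515799) (b (l 3) (l 16542568))) (b (l 16544672) (a (l 16547304) (l 16562464)))) (b (a (l 16586152) (l 16580432)) (l 16657856))) (b (b (b (l 16535328) (l 16563120)) (b (l 16573520) (l 16584456))) (b (l 16600912) (a (l 16600216) (l 16594752)))))) (a (a (b (l 16587224) (l 16596856)) (l 16494088)) (b (a (l 16597976) (l 16588680)) (l 16578696)))) (b (a (b (b (a (l 16585256) (l 16587704)) (a (l 16593632) (l 16582664))) (a (b (l 16590616) (l 16585504))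 (l 16575648))) (a (b (b (a (l 16579360) (l 16572736)) (l 16569744)) (l 16581880)) (b (b (l 253436256151) (l 280279798407)) (l 1)))) (a (b (b (a (l 16581184) (l 16566440)) (l 16565936)) (l 284037960439)) (b (b (l 354368068535) (l 1)) (l 1))))) (a (b (a (b (a (l 16580936) (l 16574664)) (l 16564616)) (b (l 16559944) (a (l 16550768) (l 16538320)))) (a (b (a (b (l 16554696) (l 16543272)) (b (l 16549080) (a (l 16540824) (l 16536984)))) (a (b (l 16523808) (l 16504216)) (a (l 280279784375) (l 1)))) (b (a (b (l 16538760) (l 1)) (l 1)) (l 1)))) (b (a (b (l 346314977767) (l 1)) (l 1)) (l 1)))), by decide +kernel⟩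

def k2_pm_202_a : ∃ t, chk3 f_pm_202_a t 5 1 1 = true :=
  ⟨(b (a (b (l 3) (a (b (l 3) (b (l 3) (b (l 3) (l 1)))) (l 1))) (l 1)) (b (l 1) (l 1))), by decide +kernel⟩

def k3_pm_202_a : ∃ t, chk3 f_pm_202_a t 3 1 1 = true :=
  ⟨(l 1), by decide +kernel⟩

theorem s4_pm_202_a : ∃ t, chk3 f_pm_202_a t 4 1 1 = true := ex3_b k0_pm_202_a k1_pm_202_a

theorem s5_pm_202_a : ∃ t, chk3 f_pm_202_a t 2 1 1 = true := ex3_a s4_pm_202_a k2_pm_202_a

theorem s6_pm_202_a : ∃ t, chk3 f_pm_202_a t 1 1 1 = true := ex3_a s5_pm_202_a k3_pm_202_a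

theorem c_pm_202_a : CertB 1073741824 536870912 0 536870912 740881858 40050571 3 eng mog cd3q2 cd1q2a pd0 false true false .pp 2 0 2
    ndB3q2 ndB1q2a pcB0 Cut.none Ext.none :=
  certB2 (fam := false) (s1 := true) (s2 := false) (a := 2) (b := 0) (c := 2) (cn := .pp) (n1 := ndB3q2) (n2 := ndB1q2a) (pc := pcB0) (cut := Cut.none) (xt := Ext.none) (P1 := 1073741824) (W1 := 536870912) (P2 := 0) (W2 := 536870912) (P3 := 740881858) (W3 := 40050571) (N0 := 3) (En := eng) (mo := mog) (C1 := cd3q2) (C2 := cd1q2a) (C3 := pd0)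
    rfl (fun _ => rfl) s6_pm_202_a

noncomputable def f_pm_202_b : ℕ → ℕ → ℕ → ℕ → Bool := onCell 1073741824 536870912 1239849684 370763052 740881858 40050571
    (rowB 3 eng mog cd3q2 cd1q2b pd0 0 false true false .pp 2 0 2 (qsf 1073741824 536870912 1239849684 370763052 0) ndB3q2 ndB1q2b pcB0 Cut.none Ext.none)

def k0_pm_202_b : ∃ t, chk3 f_pm_202_b t 1 1 1 = true :=
  ⟨(l 3), by decide +kernel⟩

theorem c_pm_202_b : CertB 1073741824 536870912 1239849684 370763052 740881858 40050571 3 eng mog cd3q2 cd1q2b pd0 false true false .pp 2 0 2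
    ndB3q2 ndB1q2b pcB0 Cut.none Ext.none :=
  certB0 (fam := false) (s1 := true) (s2 := false) (a := 2) (b := 0) (c := 2) (cn := .pp) (n1 := ndB3q2) (n2 := ndB1q2b) (pc := pcB0) (cut := Cut.none) (xt := Ext.none) (P1 := 1073741824) (W1 := 536870912) (P2 := 1239849684) (W2 := 370763052) (P3 := 740881858) (W3 := 40050571) (N0 := 3) (En := eng) (mo := mog) (C1 := cd3q2) (C2 := cd1q2b) (C3 := pd0)
    rfl k0_pm_202_b

noncomputable def f_pm_203 : ℕ → ℕ → ℕ → ℕ → Bool := onCell 1073741824 536870912 0 536870912 740881858 40050571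
    (rowB 3 eng mog cd3q2 cd1q3 pd0 1 false true false .up 2 0 3 (qsf 1073741824 536870912 1610612736 536870912 0) ndB3q2 ndB1q3 pcB0 Cut.none Ext.none)

def k0_pm_203 : ∃ t, chk3 f_pm_203 t 1 1 1 = true :=
  ⟨(l 3), by decide +kernel⟩

theorem c_pm_203 : CertB 1073741824 536870912 1610612736 536870912 740881858 40050571 3 eng mog cd3q2 cd1q3 pd0 false true false .up 2 0 3
    ndB3q2 ndB1q3 pcB0 Cut.none Ext.none :=
  certB1 (fam := false) (s1 := true) (s2 := false) (a := 2) (b := 0) (c := 3) (cn := .up) (n1 := ndB3q2) (n2 := ndB1q3) (pc := pcB0) (cut := Cut.none) (xt := Ext.none) (P1 := 1073741824) (W1 := 536870912) (P2 := 1610612736) (W2 := 536870912) (P3 := 740881858) (W3 := 40050571) (N0 := 3) (En := eng) (mo := mog) (C1 := cd3q2) (C2 := cd1q3) (C3 := pd0)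
    rfl (fun _ => rfl) k0_pm_203

noncomputable def f_pm_213 : ℕ → ℕ → ℕ → ℕ → Bool := onCell 1073741824 536870912 536870912 536870912 740881858 40050571
    (rowB 3 eng mog cd3q2 cd1q3 pd1 1 false true false .pnn 2 1 3 (qsf 1073741824 536870912 1610612736 536870912 1) ndB3q2 ndB1q3 pcB1 Cut.none Ext.none)

def k0_pm_213 : ∃ t, chk3 f_pm_213 t 1 1 1 = true :=
  ⟨(a (a (b (l 3) (b (b (a (b (a (l 16513408) (l 16503088)) (a (l 16553056) (l 16534696))) (b (l 3) (l 363629370615))) (a (b (l 16583392) (l 16619248)) (b (l 16675872) (l 16749024)))) (b (a (b (l 16642008) (l 16654304)) (b (l 16832080) (l 16489128))) (a (l 16633136) (a (l 16541984) (l 2)))))) (b (l 3) (b (b (l 3) (a (b (l 16596248) (l 16600312)) (l 3))) (a (b (b (l 16593144) (l 2)) (l 2)) (l 2))))) (b (a (l 3) (b (l 3) (a (b (l 3) (l 2)) (l 2)))) (a (b (a (b (l 3) (l 2)) (l 2)) (l 2)) (l 2)))), by decide +kernel⟩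

theorem c_pm_213 : CertB 1073741824 536870912 1610612736 536870912 740881858 40050571 3 eng mog cd3q2 cd1q3 pd1 false true false .pnn 2 1 3
    ndB3q2 ndB1q3 pcB1 Cut.none Ext.none :=
  certB1 (fam := false) (s1 := true) (s2 := false) (a := 2) (b := 1) (c := 3) (cn := .pnn) (n1 := ndB3q2) (n2 := ndB1q3) (pc := pcB1) (cut := Cut.none) (xt := Ext.none) (P1 := 1073741824) (W1 := 536870912) (P2 := 1610612736) (W2 := 536870912) (P3 := 740881858) (W3 := 40050571) (N0 := 3) (En := eng) (mo := mog) (C1 := cd3q2) (C2 := cd1q3) (C3 := pd1)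
    rfl (fun _ => rfl) k0_pm_213

noncomputable def f_pm_303 : ℕ → ℕ → ℕ → ℕ → Bool := onCell 0 1230186008 1610612736 536870912 740881858 40050571
    (rowB 3 eng mog cd3q3 cd1q3 pd0 0 false true false .npn 3 0 3 (qsf 0 1230186008 1610612736 536870912 0) ndB3q3 ndB1q3 pcB0 Cut.none Ext.none)

def k0_pm_303 : ∃ t, chk3 f_pm_303 t 1 1 1 = true :=
  ⟨(a (l 3) (l 3)), by decide +kernel⟩

theorem c_pm_303 : CertB 0 1230186008 1610612736 536870912 740881858 40050571 3 eng mog cd3q3 cd1q3 pd0 false true false .npn 3 0 3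
    ndB3q3 ndB1q3 pcB0 Cut.none Ext.none :=
  certB0 (fam := false) (s1 := true) (s2 := false) (a := 3) (b := 0) (c := 3) (cn := .npn) (n1 := ndB3q3) (n2 := ndB1q3) (pc := pcB0) (cut := Cut.none) (xt := Ext.none) (P1 := 0) (W1 := 1230186008) (P2 := 1610612736) (W2 := 536870912) (P3 := 740881858) (W3 := 40050571) (N0 := 3) (En := eng) (mo := mog) (C1 := cd3q3) (C2 := cd1q3) (C3 := pd0)
    rfl k0_pm_303

noncomputable def f_pm_313 : ℕ → ℕ → ℕ → ℕ → Bool := onCell 0 1230186008 1610612736 536870912 740881858 40050571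
    (rowB 3 eng mog cd3q3 cd1q3 pd1 0 false true false .dn 3 1 3 (qsf 0 1230186008 1610612736 536870912 1) ndB3q3 ndB1q3 pcB1 Cut.none Ext.none)

def k0_pm_313 : ∃ t, chk3 f_pm_313 t 1 1 1 = true :=
  ⟨(a (l 1) (l 3)), by decide +kernel⟩

theorem c_pm_313 : CertB 0 1230186008 1610612736 536870912 740881858 40050571 3 eng mog cd3q3 cd1q3 pd1 false true false .dn 3 1 3
    ndB3q3 ndB1q3 pcB1 Cut.none Ext.none :=
  certB0 (fam := false) (s1 := true) (s2 := false) (a := 3) (b := 1) (c := 3) (cn := .dn) (n1 := ndB3q3) (n2 := ndB1q3) (pc := pcB1) (cut := Cut.none) (xt := Ext.none) (P1 := 0) (W1 := 1230186008) (P2 := 1610612736) (W2 := 536870912) (P3 := 740881858) (W3 := 40050571) (N0 := 3) (En := eng) (mo := mog) (C1 := cd3q3) (C2 := cd1q3) (C3 := pd1)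
    rfl k0_pm_313

noncomputable def f_mm_001 : ℕ → ℕ → ℕ → ℕ → Bool := onCell 0 536870912 536870912 536870912 740881858 40050571
    (rowB 3 eng mog cd3q0 cd1q1 pd0 0 false false false .up 0 0 1 (qsf 0 536870912 536870912 536870912 0) ndB3q0 ndB1q1 pcB0 Cut.none Ext.none)

def k0_mm_001 : ∃ t, chk3 f_mm_001 t 1 1 1 = true :=
  ⟨(l 5), by decide +kernel⟩

theorem c_mm_001 : CertB 0 536870912 536870912 536870912 740881858 40050571 3 eng mog cd3q0 cd1q1 pd0 false false false .up 0 0 1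
    ndB3q0 ndB1q1 pcB0 Cut.none Ext.none :=
  certB0 (fam := false) (s1 := false) (s2 := false) (a := 0) (b := 0) (c := 1) (cn := .up) (n1 := ndB3q0) (n2 := ndB1q1) (pc := pcB0) (cut := Cut.none) (xt := Ext.none) (P1 := 0) (W1 := 536870912) (P2 := 536870912) (W2 := 536870912) (P3 := 740881858) (W3 := 40050571) (N0 := 3) (En := eng) (mo := mog) (C1 := cd3q0) (C2 := cd1q1) (C3 := pd0)
    rfl k0_mm_001

noncomputable def f_mm_011 : ℕ → ℕ → ℕ → ℕ → Bool := onCell 0 536870912 536870912 536870912 740881858 40050571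
    (rowB 3 eng mog cd3q0 cd1q1 pd1 0 false false false .pnn 0 1 1 (qsf 0 536870912 536870912 536870912 1) ndB3q0 ndB1q1 pcB1 Cut.none Ext.none)

def k0_mm_011 : ∃ t, chk3 f_mm_011 t 1 1 1 = true :=
  ⟨(l 5), by decide +kernel⟩

theorem c_mm_011 : CertB 0 536870912 536870912 536870912 740881858 40050571 3 eng mog cd3q0 cd1q1 pd1 false false false .pnn 0 1 1
    ndB3q0 ndB1q1 pcB1 Cut.none Ext.none :=
  certB0 (fam := false) (s1 := false) (s2 := false) (a := 0) (b := 1) (c := 1) (cn := .pnn) (n1 := ndB3q0) (n2 := ndB1q1) (pc := pcB1) (cut := Cut.none) (xt := Ext.none) (P1 := 0) (W1 := 536870912) (P2 := 536870912) (W2 := 536870912) (P3 := 740881858) (W3 := 40050571) (N0 := 3) (En := eng) (mo := mog) (C1 := cd3q0) (C2 := cd1q1) (C3 := pd1)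
    rfl k0_mm_011

noncomputable def f_mm_012_a : ℕ → ℕ → ℕ → ℕ → Bool := onCell 0 536870912 0 536870912 740881858 40050571
    (rowB 3 eng mog cd3q0 cd1q2a pd1 0 false false false .pnp 0 1 2 (qsf 0 536870912 0 536870912 1) ndB3q0 ndB1q2a pcB1 Cut.none Ext.none)

def k0_mm_012_a : ∃ t, chk3 f_mm_012_a t 1 1 1 = true :=
  ⟨(l 5), by decide +kernel⟩

theorem c_mm_012_a : CertB 0 536870912 0 536870912 740881858 40050571 3 eng mog cd3q0 cd1q2a pd1 false false false .pnp 0 1 2
    ndB3q0 ndB1q2a pcB1 Cut.none Ext.none :=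
  certB0 (fam := false) (s1 := false) (s2 := false) (a := 0) (b := 1) (c := 2) (cn := .pnp) (n1 := ndB3q0) (n2 := ndB1q2a) (pc := pcB1) (cut := Cut.none) (xt := Ext.none) (P1 := 0) (W1 := 536870912) (P2 := 0) (W2 := 536870912) (P3 := 740881858) (W3 := 40050571) (N0 := 3) (En := eng) (mo := mog) (C1 := cd3q0) (C2 := cd1q2a) (C3 := pd1)
    rfl k0_mm_012_a

noncomputable def f_mm_012_b : ℕ → ℕ → ℕ → ℕ → Bool := onCell 0 536870912 1239849684 370763052 740881858 40050571
    (rowB 3 eng mog cd3q0 cd1q2b pd1 0 false false false .pnp 0 1 2 (qsf 0 536870912 1239849684 370763052 1) ndB3q0 ndB1q2b pcB1 Cut.none Ext.none)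

def k0_mm_012_b : ∃ t, chk3 f_mm_012_b t 1 1 1 = true :=
  ⟨(l 5), by decide +kernel⟩

theorem c_mm_012_b : CertB 0 536870912 1239849684 370763052 740881858 40050571 3 eng mog cd3q0 cd1q2b pd1 false false false .pnp 0 1 2
    ndB3q0 ndB1q2b pcB1 Cut.none Ext.none :=
  certB0 (fam := false) (s1 := false) (s2 := false) (a := 0) (b := 1) (c := 2) (cn := .pnp) (n1 := ndB3q0) (n2 := ndB1q2b) (pc := pcB1) (cut := Cut.none) (xt := Ext.none) (P1 := 0) (W1 := 536870912) (P2 := 1239849684) (W2 := 370763052) (P3 := 740881858) (W3 := 40050571) (N0 := 3) (En := eng) (mo := mog) (C1 := cd3q0) (C2 := cd1q2b) (C3 := pd1)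
    rfl k0_mm_012_b

noncomputable def f_mm_022_a : ℕ → ℕ → ℕ → ℕ → Bool := onCell 0 536870912 0 536870912 740881858 40050571
    (rowB 3 eng mog cd3q0 cd1q2a pd2 0 false false false .pp 0 2 2 (qsf 0 536870912 0 536870912 2) ndB3q0 ndB1q2a pcB2 Cut.none Ext.none)

def k0_mm_022_a : ∃ t, chk3 f_mm_022_a t 1 1 1 = true :=
  ⟨(l 5), by decide +kernel⟩

theorem c_mm_022_a : CertB 0 536870912 0 536870912 740881858 40050571 3 eng mog cd3q0 cd1q2a pd2 false false false .pp 0 2 2
    ndB3q0 ndB1q2a pcB2 Cut.none Ext.none :=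
  certB0 (fam := false) (s1 := false) (s2 := false) (a := 0) (b := 2) (c := 2) (cn := .pp) (n1 := ndB3q0) (n2 := ndB1q2a) (pc := pcB2) (cut := Cut.none) (xt := Ext.none) (P1 := 0) (W1 := 536870912) (P2 := 0) (W2 := 536870912) (P3 := 740881858) (W3 := 40050571) (N0 := 3) (En := eng) (mo := mog) (C1 := cd3q0) (C2 := cd1q2a) (C3 := pd2)
    rfl k0_mm_022_a

noncomputable def f_mm_022_b : ℕ → ℕ → ℕ → ℕ → Bool := onCell 0 536870912 1239849684 370763052 740881858 40050571
    (rowB 3 eng mog cd3q0 cd1q2b pd2 0 false false false .pp 0 2 2 (qsf 0 536870912 1239849684 370763052 2) ndB3q0 ndB1q2b pcB2 Cut.none Ext.none)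

def k0_mm_022_b : ∃ t, chk3 f_mm_022_b t 1 1 1 = true :=
  ⟨(l 5), by decide +kernel⟩

theorem c_mm_022_b : CertB 0 536870912 1239849684 370763052 740881858 40050571 3 eng mog cd3q0 cd1q2b pd2 false false false .pp 0 2 2
    ndB3q0 ndB1q2b pcB2 Cut.none Ext.none :=
  certB0 (fam := false) (s1 := false) (s2 := false) (a := 0) (b := 2) (c := 2) (cn := .pp) (n1 := ndB3q0) (n2 := ndB1q2b) (pc := pcB2) (cut := Cut.none) (xt := Ext.none) (P1 := 0) (W1 := 536870912) (P2 := 1239849684) (W2 := 370763052) (P3 := 740881858) (W3 := 40050571) (N0 := 3) (En := eng) (mo := mog) (C1 := cd3q0) (C2 := cd1q2b) (C3 := pd2)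
    rfl k0_mm_022_b

noncomputable def f_mm_023 : ℕ → ℕ → ℕ → ℕ → Bool := onCell 0 536870912 1610612736 536870912 740881858 40050571
    (rowB 3 eng mog cd3q0 cd1q3 pd2 0 false false false .up 0 2 3 (qsf 0 536870912 1610612736 536870912 2) ndB3q0 ndB1q3 pcB2 Cut.none Ext.none)

def k0_mm_023 : ∃ t, chk3 f_mm_023 t 1 1 1 = true :=
  ⟨(l 5), by decide +kernel⟩

theorem c_mm_023 : CertB 0 536870912 1610612736 536870912 740881858 40050571 3 eng mog cd3q0 cd1q3 pd2 false false false .up 0 2 3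
    ndB3q0 ndB1q3 pcB2 Cut.none Ext.none :=
  certB0 (fam := false) (s1 := false) (s2 := false) (a := 0) (b := 2) (c := 3) (cn := .up) (n1 := ndB3q0) (n2 := ndB1q3) (pc := pcB2) (cut := Cut.none) (xt := Ext.none) (P1 := 0) (W1 := 536870912) (P2 := 1610612736) (W2 := 536870912) (P3 := 740881858) (W3 := 40050571) (N0 := 3) (En := eng) (mo := mog) (C1 := cd3q0) (C2 := cd1q3) (C3 := pd2)
    rfl k0_mm_023

noncomputable def f_mm_033 : ℕ → ℕ → ℕ → ℕ → Bool := onCell 0 536870912 1610612736 536870912 740881858 40050571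
    (rowB 3 eng mog cd3q0 cd1q3 pd3 0 false false false .pnn 0 3 3 (qsf 0 536870912 1610612736 536870912 3) ndB3q0 ndB1q3 pcB3 Cut.none Ext.none)

def k0_mm_033 : ∃ t, chk3 f_mm_033 t 1 1 1 = true :=
  ⟨(l 5), by decide +kernel⟩

theorem c_mm_033 : CertB 0 536870912 1610612736 536870912 740881858 40050571 3 eng mog cd3q0 cd1q3 pd3 false false false .pnn 0 3 3
    ndB3q0 ndB1q3 pcB3 Cut.none Ext.none :=
  certB0 (fam := false) (s1 := false) (s2 := false) (a := 0) (b := 3) (c := 3) (cn := .pnn) (n1 := ndB3q0) (n2 := ndB1q3) (pc := pcB3) (cut := Cut.none) (xt := Ext.none) (P1 := 0) (W1 := 536870912) (P2 := 1610612736) (W2 := 536870912) (P3 := 740881858) (W3 := 40050571) (N0 := 3) (En := eng) (mo := mog) (C1 := cd3q0) (C2 := cd1q3) (C3 := pd3)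
    rfl k0_mm_033

noncomputable def f_mm_101 : ℕ → ℕ → ℕ → ℕ → Bool := onCell 536870912 536870912 536870912 536870912 740881858 40050571
    (rowB 3 eng mog cd3q1 cd1q1 pd0 0 false false false .npn 1 0 1 (qsf 536870912 536870912 536870912 536870912 0) ndB3q1 ndB1q1 pcB0 Cut.none Ext.none)

def k0_mm_101 : ∃ t, chk3 f_mm_101 t 1 1 1 = true :=
  ⟨(l 3), by decide +kernel⟩

theorem c_mm_101 : CertB 536870912 536870912 536870912 536870912 740881858 40050571 3 eng mog cd3q1 cd1q1 pd0 false false false .npn 1 0 1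
    ndB3q1 ndB1q1 pcB0 Cut.none Ext.none :=
  certB0 (fam := false) (s1 := false) (s2 := false) (a := 1) (b := 0) (c := 1) (cn := .npn) (n1 := ndB3q1) (n2 := ndB1q1) (pc := pcB0) (cut := Cut.none) (xt := Ext.none) (P1 := 536870912) (W1 := 536870912) (P2 := 536870912) (W2 := 536870912) (P3 := 740881858) (W3 := 40050571) (N0 := 3) (En := eng) (mo := mog) (C1 := cd3q1) (C2 := cd1q1) (C3 := pd0)
    rfl k0_mm_101

noncomputable def f_mm_102_a : ℕ → ℕ → ℕ → ℕ → Bool := onCell 536870912 536870912 0 536870912 740881858 40050571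
    (rowB 3 eng mog cd3q1 cd1q2a pd0 0 false false false .npp 1 0 2 (qsf 536870912 536870912 0 536870912 0) ndB3q1 ndB1q2a pcB0 Cut.none Ext.none)

def k0_mm_102_a : ∃ t, chk3 f_mm_102_a t 1 1 1 = true :=
  ⟨(l 5), by decide +kernel⟩

theorem c_mm_102_a : CertB 536870912 536870912 0 536870912 740881858 40050571 3 eng mog cd3q1 cd1q2a pd0 false false false .npp 1 0 2
    ndB3q1 ndB1q2a pcB0 Cut.none Ext.none :=
  certB0 (fam := false) (s1 := false) (s2 := false) (a := 1) (b := 0) (c := 2) (cn := .npp) (n1 := ndB3q1) (n2 := ndB1q2a) (pc := pcB0) (cut := Cut.none) (xt := Ext.none) (P1 := 536870912) (W1 := 536870912) (P2 := 0) (W2 := 536870912) (P3 := 740881858) (W3 := 40050571) (N0 := 3) (En := eng) (mo := mog) (C1 := cd3q1) (C2 := cd1q2a) (C3 := pd0)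
    rfl k0_mm_102_a

noncomputable def f_mm_102_b : ℕ → ℕ → ℕ → ℕ → Bool := onCell 536870912 536870912 1239849684 370763052 740881858 40050571
    (rowB 3 eng mog cd3q1 cd1q2b pd0 0 false false false .npp 1 0 2 (qsf 536870912 536870912 1239849684 370763052 0) ndB3q1 ndB1q2b pcB0 Cut.none Ext.none)

def k0_mm_102_b : ∃ t, chk3 f_mm_102_b t 1 1 1 = true :=
  ⟨(l 5), by decide +kernel⟩

theorem c_mm_102_b : CertB 536870912 536870912 1239849684 370763052 740881858 40050571 3 eng mog cd3q1 cd1q2b pd0 false false false .npp 1 0 2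
    ndB3q1 ndB1q2b pcB0 Cut.none Ext.none :=
  certB0 (fam := false) (s1 := false) (s2 := false) (a := 1) (b := 0) (c := 2) (cn := .npp) (n1 := ndB3q1) (n2 := ndB1q2b) (pc := pcB0) (cut := Cut.none) (xt := Ext.none) (P1 := 536870912) (W1 := 536870912) (P2 := 1239849684) (W2 := 370763052) (P3 := 740881858) (W3 := 40050571) (N0 := 3) (En := eng) (mo := mog) (C1 := cd3q1) (C2 := cd1q2b) (C3 := pd0)
    rfl k0_mm_102_b

noncomputable def f_mm_112_a : ℕ → ℕ → ℕ → ℕ → Bool := onCell 536870912 536870912 0 536870912 740881858 40050571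
    (rowB 3 eng mog cd3q1 cd1q2a pd1 0 false false false .dn 1 1 2 (qsf 536870912 536870912 0 536870912 1) ndB3q1 ndB1q2a pcB1 Cut.none Ext.none)

def k0_mm_112_a : ∃ t, chk3 f_mm_112_a t 1 1 1 = true :=
  ⟨(l 5), by decide +kernel⟩

theorem c_mm_112_a : CertB 536870912 536870912 0 536870912 740881858 40050571 3 eng mog cd3q1 cd1q2a pd1 false false false .dn 1 1 2
    ndB3q1 ndB1q2a pcB1 Cut.none Ext.none :=
  certB0 (fam := false) (s1 := false) (s2 := false) (a := 1) (b := 1) (c := 2) (cn := .dn) (n1 := ndB3q1) (n2 := ndB1q2a) (pc := pcB1) (cut := Cut.none) (xt := Ext.none) (P1 := 536870912) (W1 := 536870912) (P2 := 0) (W2 := 536870912) (P3 := 740881858) (W3 := 40050571) (N0 := 3) (En := eng) (mo := mog) (C1 := cd3q1) (C2 := cd1q2a) (C3 := pd1)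
    rfl k0_mm_112_a

noncomputable def f_mm_112_b : ℕ → ℕ → ℕ → ℕ → Bool := onCell 536870912 536870912 1239849684 370763052 740881858 40050571
    (rowB 3 eng mog cd3q1 cd1q2b pd1 0 false false false .dn 1 1 2 (qsf 536870912 536870912 1239849684 370763052 1) ndB3q1 ndB1q2b pcB1 Cut.none Ext.none)

def k0_mm_112_b : ∃ t, chk3 f_mm_112_b t 1 1 1 = true :=
  ⟨(l 5), by decide +kernel⟩

theorem c_mm_112_b : CertB 536870912 536870912 1239849684 370763052 740881858 40050571 3 eng mog cd3q1 cd1q2b pd1 false false false .dn 1 1 2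
    ndB3q1 ndB1q2b pcB1 Cut.none Ext.none :=
  certB0 (fam := false) (s1 := false) (s2 := false) (a := 1) (b := 1) (c := 2) (cn := .dn) (n1 := ndB3q1) (n2 := ndB1q2b) (pc := pcB1) (cut := Cut.none) (xt := Ext.none) (P1 := 536870912) (W1 := 536870912) (P2 := 1239849684) (W2 := 370763052) (P3 := 740881858) (W3 := 40050571) (N0 := 3) (En := eng) (mo := mog) (C1 := cd3q1) (C2 := cd1q2b) (C3 := pd1)
    rfl k0_mm_112_b

noncomputable def f_mm_113 : ℕ → ℕ → ℕ → ℕ → Bool := onCell 536870912 536870912 1610612736 536870912 740881858 40050571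
    (rowB 3 eng mog cd3q1 cd1q3 pd1 0 false false false .nn 1 1 3 (qsf 536870912 536870912 1610612736 536870912 1) ndB3q1 ndB1q3 pcB1 Cut.none Ext.none)

def k0_mm_113 : ∃ t, chk3 f_mm_113 t 1 1 1 = true :=
  ⟨(l 5), by decide +kernel⟩

theorem c_mm_113 : CertB 536870912 536870912 1610612736 536870912 740881858 40050571 3 eng mog cd3q1 cd1q3 pd1 false false false .nn 1 1 3
    ndB3q1 ndB1q3 pcB1 Cut.none Ext.none :=
  certB0 (fam := false) (s1 := false) (s2 := false) (a := 1) (b := 1) (c := 3) (cn := .nn) (n1 := ndB3q1) (n2 := ndB1q3) (pc := pcB1) (cut := Cut.none) (xt := Ext.none) (P1 := 536870912) (W1 := 536870912) (P2 := 1610612736) (W2 := 536870912) (P3 := 740881858) (W3 := 40050571) (N0 := 3) (En := eng) (mo := mog) (C1 := cd3q1) (C2 := cd1q3) (C3 := pd1)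
    rfl k0_mm_113

noncomputable def f_mm_123 : ℕ → ℕ → ℕ → ℕ → Bool := onCell 536870912 536870912 1610612736 536870912 740881858 40050571
    (rowB 3 eng mog cd3q1 cd1q3 pd2 0 false false false .npn 1 2 3 (qsf 536870912 536870912 1610612736 536870912 2) ndB3q1 ndB1q3 pcB2 Cut.none Ext.none)

def k0_mm_123 : ∃ t, chk3 f_mm_123 t 1 1 1 = true :=
  ⟨(l 5), by decide +kernel⟩

theorem c_mm_123 : CertB 536870912 536870912 1610612736 536870912 740881858 40050571 3 eng mog cd3q1 cd1q3 pd2 false false false .npn 1 2 3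
    ndB3q1 ndB1q3 pcB2 Cut.none Ext.none :=
  certB0 (fam := false) (s1 := false) (s2 := false) (a := 1) (b := 2) (c := 3) (cn := .npn) (n1 := ndB3q1) (n2 := ndB1q3) (pc := pcB2) (cut := Cut.none) (xt := Ext.none) (P1 := 536870912) (W1 := 536870912) (P2 := 1610612736) (W2 := 536870912) (P3 := 740881858) (W3 := 40050571) (N0 := 3) (En := eng) (mo := mog) (C1 := cd3q1) (C2 := cd1q3) (C3 := pd2)
    rfl k0_mm_123

noncomputable def f_mm_133 : ℕ → ℕ → ℕ → ℕ → Bool := onCell 536870912 536870912 1610612736 536870912 740881858 40050571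
    (rowB 3 eng mog cd3q1 cd1q3 pd3 0 false false false .dn 1 3 3 (qsf 536870912 536870912 1610612736 536870912 3) ndB3q1 ndB1q3 pcB3 Cut.none Ext.none)

def k0_mm_133 : ∃ t, chk3 f_mm_133 t 1 1 1 = true :=
  ⟨(l 5), by decide +kernel⟩

theorem c_mm_133 : CertB 536870912 536870912 1610612736 536870912 740881858 40050571 3 eng mog cd3q1 cd1q3 pd3 false false false .dn 1 3 3
    ndB3q1 ndB1q3 pcB3 Cut.none Ext.none :=
  certB0 (fam := false) (s1 := false) (s2 := false) (a := 1) (b := 3) (c := 3) (cn := .dn) (n1 := ndB3q1) (n2 := ndB1q3) (pc := pcB3) (cut := Cut.none) (xt := Ext.none) (P1 := 536870912) (W1 := 536870912) (P2 := 1610612736) (W2 := 536870912) (P3 := 740881858) (W3 := 40050571) (N0 := 3) (En := eng) (mo := mog) (C1 := cd3q1) (C2 := cd1q3) (C3 := pd3)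
    rfl k0_mm_133

noncomputable def f_mm_202_a : ℕ → ℕ → ℕ → ℕ → Bool := onCell 1073741824 536870912 0 536870912 740881858 40050571
    (rowB 3 eng mog cd3q2 cd1q2a pd0 0 false false false .pp 2 0 2 (qsf 1073741824 536870912 0 536870912 0) ndB3q2 ndB1q2a pcB0 Cut.none Ext.none)

def k0_mm_202_a : ∃ t, chk3 f_mm_202_a t 1 1 1 = true :=
  ⟨(l 3), by decide +kernel⟩

theorem c_mm_202_a : CertB 1073741824 536870912 0 536870912 740881858 40050571 3 eng mog cd3q2 cd1q2a pd0 false false false .pp 2 0 2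
    ndB3q2 ndB1q2a pcB0 Cut.none Ext.none :=
  certB0 (fam := false) (s1 := false) (s2 := false) (a := 2) (b := 0) (c := 2) (cn := .pp) (n1 := ndB3q2) (n2 := ndB1q2a) (pc := pcB0) (cut := Cut.none) (xt := Ext.none) (P1 := 1073741824) (W1 := 536870912) (P2 := 0) (W2 := 536870912) (P3 := 740881858) (W3 := 40050571) (N0 := 3) (En := eng) (mo := mog) (C1 := cd3q2) (C2 := cd1q2a) (C3 := pd0)
    rfl k0_mm_202_a

noncomputable def f_mm_202_b : ℕ → ℕ → ℕ → ℕ → Bool := onCell 1073741824 536870912 1239849684 370763052 740881858 40050571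
    (rowB 3 eng mog cd3q2 cd1q2b pd0 0 false false false .pp 2 0 2 (qsf 1073741824 536870912 1239849684 370763052 0) ndB3q2 ndB1q2b pcB0 Cut.none Ext.none)

def k0_mm_202_b : ∃ t, chk3 f_mm_202_b t 1 1 1 = true :=
  ⟨(l 3), by decide +kernel⟩

theorem c_mm_202_b : CertB 1073741824 536870912 1239849684 370763052 740881858 40050571 3 eng mog cd3q2 cd1q2b pd0 false false false .pp 2 0 2
    ndB3q2 ndB1q2b pcB0 Cut.none Ext.none :=
  certB0 (fam := false) (s1 := false) (s2 := false) (a := 2) (b := 0) (c := 2) (cn := .pp) (n1 := ndB3q2) (n2 := ndB1q2b) (pc := pcB0) (cut := Cut.none) (xt := Ext.none) (P1 := 1073741824) (W1 := 536870912) (P2 := 1239849684) (W2 := 370763052) (P3 := 740881858) (W3 := 40050571) (N0 := 3) (En := eng) (mo := mog) (C1 := cd3q2) (C2 := cd1q2b) (C3 := pd0)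
    rfl k0_mm_202_b

noncomputable def f_mm_203 : ℕ → ℕ → ℕ → ℕ → Bool := onCell 1073741824 536870912 1610612736 536870912 740881858 40050571
    (rowB 3 eng mog cd3q2 cd1q3 pd0 0 false false false .up 2 0 3 (qsf 1073741824 536870912 1610612736 536870912 0) ndB3q2 ndB1q3 pcB0 Cut.none Ext.none)

def k0_mm_203 : ∃ t, chk3 f_mm_203 t 1 1 1 = true :=
  ⟨(l 5), by decide +kernel⟩

theorem c_mm_203 : CertB 1073741824 536870912 1610612736 536870912 740881858 40050571 3 eng mog cd3q2 cd1q3 pd0 false false false .up 2 0 3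
    ndB3q2 ndB1q3 pcB0 Cut.none Ext.none :=
  certB0 (fam := false) (s1 := false) (s2 := false) (a := 2) (b := 0) (c := 3) (cn := .up) (n1 := ndB3q2) (n2 := ndB1q3) (pc := pcB0) (cut := Cut.none) (xt := Ext.none) (P1 := 1073741824) (W1 := 536870912) (P2 := 1610612736) (W2 := 536870912) (P3 := 740881858) (W3 := 40050571) (N0 := 3) (En := eng) (mo := mog) (C1 := cd3q2) (C2 := cd1q3) (C3 := pd0)
    rfl k0_mm_203

noncomputable def f_mm_213 : ℕ → ℕ → ℕ → ℕ → Bool := onCell 1073741824 536870912 1610612736 536870912 740881858 40050571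
    (rowB 3 eng mog cd3q2 cd1q3 pd1 0 false false false .pnn 2 1 3 (qsf 1073741824 536870912 1610612736 536870912 1) ndB3q2 ndB1q3 pcB1 Cut.none Ext.none)

def k0_mm_213 : ∃ t, chk3 f_mm_213 t 1 1 1 = true :=
  ⟨(l 5), by decide +kernel⟩

theorem c_mm_213 : CertB 1073741824 536870912 1610612736 536870912 740881858 40050571 3 eng mog cd3q2 cd1q3 pd1 false false false .pnn 2 1 3
    ndB3q2 ndB1q3 pcB1 Cut.none Ext.none :=
  certB0 (fam := false) (s1 := false) (s2 := false) (a := 2) (b := 1) (c := 3) (cn := .pnn) (n1 := ndB3q2) (n2 := ndB1q3) (pc := pcB1) (cut := Cut.none) (xt := Ext.none) (P1 := 1073741824) (W1 := 536870912) (P2 := 1610612736) (W2 := 536870912) (P3 := 740881858) (W3 := 40050571) (N0 := 3) (En := eng) (mo := mog) (C1 := cd3q2) (C2 := cd1q3) (C3 := pd1)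
    rfl k0_mm_213

noncomputable def f_mm_303 : ℕ → ℕ → ℕ → ℕ → Bool := onCell 0 1230186008 1610612736 536870912 740881858 40050571
    (rowB 3 eng mog cd3q3 cd1q3 pd0 0 false false false .npn 3 0 3 (qsf 0 1230186008 1610612736 536870912 0) ndB3q3 ndB1q3 pcB0 Cut.none Ext.none)

def k0_mm_303 : ∃ t, chk3 f_mm_303 t 1 1 1 = true :=
  ⟨(a (l 3) (l 3)), by decide +kernel⟩

theorem c_mm_303 : CertB 0 1230186008 1610612736 536870912 740881858 40050571 3 eng mog cd3q3 cd1q3 pd0 false false false .npn 3 0 3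
    ndB3q3 ndB1q3 pcB0 Cut.none Ext.none :=
  certB0 (fam := false) (s1 := false) (s2 := false) (a := 3) (b := 0) (c := 3) (cn := .npn) (n1 := ndB3q3) (n2 := ndB1q3) (pc := pcB0) (cut := Cut.none) (xt := Ext.none) (P1 := 0) (W1 := 1230186008) (P2 := 1610612736) (W2 := 536870912) (P3 := 740881858) (W3 := 40050571) (N0 := 3) (En := eng) (mo := mog) (C1 := cd3q3) (C2 := cd1q3) (C3 := pd0)
    rfl k0_mm_303

noncomputable def f_mm_313 : ℕ → ℕ → ℕ → ℕ → Bool := onCell 0 1230186008 1610612736 536870912 740881858 40050571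
    (rowB 3 eng mog cd3q3 cd1q3 pd1 0 false false false .dn 3 1 3 (qsf 0 1230186008 1610612736 536870912 1) ndB3q3 ndB1q3 pcB1 Cut.none Ext.none)

def k0_mm_313 : ∃ t, chk3 f_mm_313 t 1 1 1 = true :=
  ⟨(a (l 1) (l 3)), by decide +kernel⟩

theorem c_mm_313 : CertB 0 1230186008 1610612736 536870912 740881858 40050571 3 eng mog cd3q3 cd1q3 pd1 false false false .dn 3 1 3
    ndB3q3 ndB1q3 pcB1 Cut.none Ext.none :=
  certB0 (fam := false) (s1 := false) (s2 := false) (a := 3) (b := 1) (c := 3) (cn := .dn) (n1 := ndB3q3) (n2 := ndB1q3) (pc := pcB1) (cut := Cut.none) (xt := Ext.none) (P1 := 0) (W1 := 1230186008) (P2 := 1610612736) (W2 := 536870912) (P3 := 740881858) (W3 := 40050571) (N0 := 3) (En := eng) (mo := mog) (C1 := cd3q3) (C2 := cd1q3) (C3 := pd1)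
    rfl k0_mm_313

end Pool.Agent.Strip051.G.I69_7273.Tab.C.BB31

namespace Pool.Agent.Strip051.G.I69_7273.Tab.C.BB32

open Pool.Agent.Strip051.PB Pool.Agent.Strip051.PB.T
open Pool.Agent.Strip051.G.I69_7273.Tab

noncomputable def f_pp_001 : ℕ → ℕ → ℕ → ℕ → Bool := onCell 0 536870912 536870912 536870912 740881858 40050571
    (rowB 3 eng mog cd3q0 cd2q1 pd0 0 false true true .up 0 0 1 (qsf 0 536870912 536870912 536870912 0) ndB3q0 ndB2q1 pcB0 Cut.none Ext.none)

def k0_pp_001 : ∃ t, chk3 f_pp_001 t 1 1 1 = true :=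
  ⟨(l 3), by decide +kernel⟩

theorem c_pp_001 : CertB 0 536870912 536870912 536870912 740881858 40050571 3 eng mog cd3q0 cd2q1 pd0 false true true .up 0 0 1
    ndB3q0 ndB2q1 pcB0 Cut.none Ext.none :=
  certB0 (fam := false) (s1 := true) (s2 := true) (a := 0) (b := 0) (c := 1) (cn := .up) (n1 := ndB3q0) (n2 := ndB2q1) (pc := pcB0) (cut := Cut.none) (xt := Ext.none) (P1 := 0) (W1 := 536870912) (P2 := 536870912) (W2 := 536870912) (P3 := 740881858) (W3 := 40050571) (N0 := 3) (En := eng) (mo := mog) (C1 := cd3q0) (C2 := cd2q1) (C3 := pd0)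
    rfl k0_pp_001

noncomputable def f_pp_011 : ℕ → ℕ → ℕ → ℕ → Bool := onCell 0 536870912 536870912 536870912 740881858 40050571
    (rowB 3 eng mog cd3q0 cd2q1 pd1 0 false true true .pnn 0 1 1 (qsf 0 536870912 536870912 536870912 1) ndB3q0 ndB2q1 pcB1 Cut.none Ext.none)

def k0_pp_011 : ∃ t, chk3 f_pp_011 t 1 1 1 = true :=
  ⟨(l 3), by decide +kernel⟩

theorem c_pp_011 : CertB 0 536870912 536870912 536870912 740881858 40050571 3 eng mog cd3q0 cd2q1 pd1 false true true .pnn 0 1 1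
    ndB3q0 ndB2q1 pcB1 Cut.none Ext.none :=
  certB0 (fam := false) (s1 := true) (s2 := true) (a := 0) (b := 1) (c := 1) (cn := .pnn) (n1 := ndB3q0) (n2 := ndB2q1) (pc := pcB1) (cut := Cut.none) (xt := Ext.none) (P1 := 0) (W1 := 536870912) (P2 := 536870912) (W2 := 536870912) (P3 := 740881858) (W3 := 40050571) (N0 := 3) (En := eng) (mo := mog) (C1 := cd3q0) (C2 := cd2q1) (C3 := pd1)
    rfl k0_pp_011

noncomputable def f_pp_012_a : ℕ → ℕ → ℕ → ℕ → Bool := onCell 0 536870912 0 536870912 740881858 40050571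
    (rowB 3 eng mog cd3q0 cd2q2a pd1 0 false true true .pnp 0 1 2 (qsf 0 536870912 0 536870912 1) ndB3q0 ndB2q2a pcB1 Cut.none Ext.none)

def k0_pp_012_a : ∃ t, chk3 f_pp_012_a t 1 1 1 = true :=
  ⟨(a (b (a (b (l 2) (a (l 2) (a (l 2) (b (l 2) (l 16476016))))) (b (a (b (a (l 16377136) (l 16377720)) (a (l 16414336) (l 16414352))) (b (l 16473400) (a (l 16410144) (l 16398528)))) (a (a (b (l 16442344) (l 16475472)) (l 16461424)) (a (l 16457384) (l 16443696))))) (b (a (a (l 2) (b (a (l 2) (l 16512744)) (a (l 16552408) (l 16555424)))) (a (b (l 16600512) (l 16557864)) (b (l 16521080) (l 16580048)))) (a (a (b (a (l 2) (b (l 16581880) (l 16615024))) (b (a (b (l 16640368) (l 16657440)) (a (l 16651520) (l 16652704))) (a (b (l 16670072) (l 16683712)) (l 16748688)))) (a (b (l 16603360) (b (l 16627376) (l 16652728))) (b (l 16602776) (b (l 16602992) (l 16763304))))) (b (a (b (l 16568592) (l 16538432)) (a (l 16466544) (l 16397680))) (a (b (a (l 16578120) (l 16549584))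 (a (l 16682992) (l 16575496))) (a (b (l 16502744) (a (l 16568688) (l 16534584))) (b (l 16431640) (l 16478176)))))))) (b (a (a (b (a (b (l 16359816) (l 16394296)) (l 16444776)) (a (l 16436792) (l 16436936))) (b (a (l 16377416) (l 16352832)) (a (l 16428272) (l 16398272)))) (b (b (l 16274696) (l 16297072)) (a (l 16349976) (l 16300104)))) (a (b (a (a (b (l 16473328) (l 16468760)) (l 16464960)) (a (l 16445224) (l 16408648))) (a (b (a (l 16319728) (l 16298512)) (a (b (l 16373888) (a (l 16426400) (l 16409264))) (b (l 16332368) (l 16377824)))) (b (a (l 16284312) (l 16288960)) (a (b (l 16285256) (b (l 16318528) (l 16335680))) (b (l 16232600) (l 16264784)))))) (b (b (l 16442280) (a (l 16347728) (l 16312224))) (b (a (b (l 16304560) (l 16266136)) (b (l 16291376) (l 16278968))) (a (a (b (l 16199936) (l 16227104)) (l 16309256)) (b (l 16259720) (a (l 16220296) (l 16244592))))))))), by decide +kernel⟩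

theorem c_pp_012_a : CertB 0 536870912 0 536870912 740881858 40050571 3 eng mog cd3q0 cd2q2a pd1 false true true .pnp 0 1 2
    ndB3q0 ndB2q2a pcB1 Cut.none Ext.none :=
  certB0 (fam := false) (s1 := true) (s2 := true) (a := 0) (b := 1) (c := 2) (cn := .pnp) (n1 := ndB3q0) (n2 := ndB2q2a) (pc := pcB1) (cut := Cut.none) (xt := Ext.none) (P1 := 0) (W1 := 536870912) (P2 := 0) (W2 := 536870912) (P3 := 740881858) (W3 := 40050571) (N0 := 3) (En := eng) (mo := mog) (C1 := cd3q0) (C2 := cd2q2a) (C3 := pd1)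
    rfl k0_pp_012_a

noncomputable def f_pp_012_b : ℕ → ℕ → ℕ → ℕ → Bool := onCell 0 536870912 1239849684 370763052 740881858 40050571
    (rowB 3 eng mog cd3q0 cd2q2b pd1 0 false true true .pnp 0 1 2 (qsf 0 536870912 1239849684 370763052 1) ndB3q0 ndB2q2b pcB1 Cut.none Ext.none)

def k0_pp_012_b : ∃ t, chk3 f_pp_012_b t 1 1 1 = true :=
  ⟨(a (b (a (l 2) (b (b (a (b (b (a (l 16343704) (l 16345216)) (a (l 2) (l 16315680))) (a (l 2) (l 16270152))) (b (b (a (l 16342624) (l 16333456)) (l 16311184)) (l 16290272))) (a (l 2) (a (l 16180328) (l 16182768)))) (a (l 2) (a (l 2) (l 15993056))))) (l 2)) (a (b (a (a (b (b (b (b (l 16332232) (l 16308936)) (l 16272232)) (l 16193552)) (l 16058392)) (b (b (b (l 16327624) (l 16283488)) (l 16210664)) (l 16045040))) (b (b (b (a (l 16327512) (l 16308416)) (l 16282544)) (l 16221104)) (a (l 16070112) (l 16084416)))) (a (l 2) (b (a (l 15830864) (l 15870600)) (l 2)))) (b (b (b (b (b (l 16259392) (l 16248752)) (l 16231728))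 (l 16194168)) (a (l 16098488) (l 16110864))) (b (l 15959392) (l 15779096))))), by decide +kernel⟩

theorem c_pp_012_b : CertB 0 536870912 1239849684 370763052 740881858 40050571 3 eng mog cd3q0 cd2q2b pd1 false true true .pnp 0 1 2
    ndB3q0 ndB2q2b pcB1 Cut.none Ext.none :=
  certB0 (fam := false) (s1 := true) (s2 := true) (a := 0) (b := 1) (c := 2) (cn := .pnp) (n1 := ndB3q0) (n2 := ndB2q2b) (pc := pcB1) (cut := Cut.none) (xt := Ext.none) (P1 := 0) (W1 := 536870912) (P2 := 1239849684) (W2 := 370763052) (P3 := 740881858) (W3 := 40050571) (N0 := 3) (En := eng) (mo := mog) (C1 := cd3q0) (C2 := cd2q2b) (C3 := pd1)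
    rfl k0_pp_012_b

end Pool.Agent.Strip051.G.I69_7273.Tab.C.BB32

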