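import Pool.Agent.Strip051.PB.DgE
import Pool.Agent.Strip051.PB.DgJ
import Pool.Agent.Strip051.G.I69_7273.Fact

/-! # The corner (1, 1, 2): parameters of the degenerate charts (generated) -/

set_option linter.all false

namespace Pool.Agent.Strip051.G.I69_7273.Tab.DG

open Pool.Agent.Strip051.PB Pool.Agent.Strip051.PB.Dg Pool.Agent.StripNear Pool.Agent.Strip051.LC

noncomputable def pFma : Fn1 := ⟨_, _, fun h1 => (enc_norm (enc_add (enc_scale 1138913 1000000 (enc_subr 14173 20000 h1)) (enc_rat _ 277619 5000000)))⟩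
noncomputable def pFmb : Fn1 := ⟨_, _, fun h1 => (enc_norm (enc_subr 3910551 10000000 (enc_neg (enc_scale 1467151 500000 (enc_subr 14173 20000 h1)))))⟩
noncomputable def pFmu : Fn1 := ⟨_, _, fun h1 => (mug3.enc h1)⟩
noncomputable def pFnx : Fn1 := ⟨_, _, fun h1 => (enc_norm (enc_add h1 (enc_pnc _ 3)))⟩
noncomputable def pFc0 : Fn1 := ⟨_, _, fun h1 => (enc_pnc _ 1)⟩
noncomputable def pFkc : Fn1 := ⟨_, _, fun h1 => (enc_norm (enc_add (enc_scale 6448569 4000000 (enc_subr 14173 20000 h1)) (enc_rat _ 4682901 8000000)))⟩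
noncomputable def pFjc : Fn1 := ⟨_, _, fun h1 => (enc_norm (enc_subr 11199 5000 (enc_scale 7281 1000 (enc_subr 14173 20000 h1))))⟩
noncomputable def pFca : Fn1 := ⟨_, _, fun h1 => (enc_norm (enc_sub (enc_rat _ 8391 12500) (enc_scale 39909 1250 (enc_subr 14173 20000 h1))))⟩
noncomputable def pFcb : Fn1 := ⟨_, _, fun h1 => (enc_norm (enc_subr 22231 100000 (enc_scale 91697 2500 (enc_subr 14173 20000 h1))))⟩
noncomputable def pFcc : Fn1 := ⟨_, _, fun h1 => (enc_norm (enc_scale 7872 125 (enc_subr 14173 20000 h1)))⟩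
noncomputable def pFsv : Fn1 := ⟨_, _, fun h1 => (enc_norm (enc_subr 1 16 h1))⟩
noncomputable def pFx11 : Fn1 := ⟨_, _, fun h1 => (cv1m.enc h1)⟩
noncomputable def pFx01 : Fn1 := ⟨_, _, fun h1 => (c1g.enc h1)⟩
noncomputable def pFK11 : Fn2 := ⟨_, _, fun h1 h2 => (kf1q1.enc h1 h2)⟩
noncomputable def pFK01 : Fn2 := ⟨_, _, fun h1 h2 => (kf0q1.enc h1 h2)⟩
noncomputable def pFL11 : Fn2 := ⟨_, _, fun h1 h2 => (l1q1.enc h1 h2)⟩
noncomputable def pFL01 : Fn2 := ⟨_, _, fun h1 h2 => (l0q1.enc h1 h2)⟩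
noncomputable def kFc0 : Fn1 := ⟨_, _, fun h1 => (enc_norm (enc_subr 41 2000000000 (enc_neg (enc_scale 3 50000000 (enc_subr 14173 20000 h1)))))⟩
noncomputable def kFc0g : Fn1 := ⟨_, _, fun h1 => (enc_norm (enc_sub (enc_rat _ 63418447 1000000) (enc_scale 6126099 25000 (enc_subr 14173 20000 h1))))⟩
noncomputable def kFa0 : Fn1 := ⟨_, _, fun h1 => (enc_norm (enc_sub (enc_rat _ 27 10000000) (enc_scale 23 1000000 (enc_subr 14173 20000 h1))))⟩
noncomputable def kFa0g : Fn1 := ⟨_, _, fun h1 => (enc_norm (enc_add (enc_scale 414831 10000 (enc_subr 14173 20000 h1)) (enc_rat _ 2531 100000)))⟩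
noncomputable def kFa1 : Fn1 := ⟨_, _, fun h1 => (enc_norm (enc_subr 3 1250000 (enc_scale 3 250000 (enc_subr 14173 20000 h1))))⟩
noncomputable def kFa1g : Fn1 := ⟨_, _, fun h1 => (enc_norm (enc_subr 362287 100000 (enc_scale 145127 5000 (enc_subr 14173 20000 h1))))⟩
noncomputable def kFb0 : Fn1 := ⟨_, _, fun h1 => (enc_norm (enc_subr 1 10000000 (enc_neg (enc_scale 1 250000 (enc_subr 14173 20000 h1)))))⟩
noncomputable def kFb0g : Fn1 := ⟨_, _, fun h1 => (enc_norm (enc_subr 48219 100000 (enc_neg (enc_scale 791 25 (enc_subr 14173 20000 h1)))))⟩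
noncomputable def kFb1 : Fn1 := ⟨_, _, fun h1 => (enc_norm (enc_neg (enc_scale 1 62500 (enc_subr 14173 20000 h1))))⟩
noncomputable def kFb1g : Fn1 := ⟨_, _, fun h1 => (enc_norm (enc_sub (enc_rat _ 3973 2000) (enc_scale 37843 2500 (enc_subr 14173 20000 h1))))⟩
noncomputable def kFd0 : Fn1 := ⟨_, _, fun h1 => (enc_norm (enc_sub (enc_rat _ 1 400000) (enc_scale 31 1000000 (enc_subr 14173 20000 h1))))⟩
noncomputable def kFd0g : Fn1 := ⟨_, _, fun h1 => (enc_norm (enc_subr 93907 100000 (enc_neg (enc_scale 217969 10000 (enc_subr 14173 20000 h1)))))⟩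
noncomputable def kFd1 : Fn1 := ⟨_, _, fun h1 => (enc_norm (enc_subr 3 1250000 (enc_neg (enc_scale 1 50000 (enc_subr 14173 20000 h1)))))⟩
noncomputable def kFd1g : Fn1 := ⟨_, _, fun h1 => (enc_norm (enc_sub (enc_rat _ 35013 100000) (enc_scale 1249 1000 (enc_subr 14173 20000 h1))))⟩
noncomputable def kFe0 : Fn1 := ⟨_, _, fun h1 => (enc_norm (enc_sub (enc_rat _ 13 5000000) (enc_scale 27 1000000 (enc_subr 14173 20000 h1))))⟩
noncomputable def kFe0g : Fn1 := ⟨_, _, fun h1 => (enc_norm (enc_subr 5711 12500 (enc_scale 98431 10000 (enc_subr 14173 20000 h1))))⟩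
noncomputable def kFe1 : Fn1 := ⟨_, _, fun h1 => (enc_norm (enc_subr 3 1250000 (enc_neg (enc_scale 1 250000 (enc_subr 14173 20000 h1)))))⟩
noncomputable def kFe1g : Fn1 := ⟨_, _, fun h1 => (enc_norm (enc_subr 163637 100000 (enc_scale 69441 5000 (enc_subr 14173 20000 h1))))⟩
noncomputable def cFxs1 : Fn1 := ⟨_, _, fun h1 => (enc_norm (enc_add (enc_scale 4 5 (dgxi.enc h1)) (enc_scale 1 5 (dgws.enc h1))))⟩
noncomputable def cFsB1 : Fn2 := ⟨_, _, fun h1 h2 => (enc_norm (enc_subr 919 625 (enc_neg (enc_scale 404 125 (enc_subr 14173 20000 h2)))))⟩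
noncomputable def cFBs1 : Fn2 := ⟨_, _, fun h1 h2 => (cFsB1.enc h1 h2)⟩
noncomputable def cFsX1 : Fn2 := ⟨_, _, fun h1 h2 => (enc_norm (enc_subr 564 625 (enc_neg (enc_scale 524 125 (enc_subr 14173 20000 h2)))))⟩
noncomputable def cFsD1 : Fn2 := ⟨_, _, fun h1 h2 => (enc_norm (enc_scale 300 77 (enc_subr 14173 20000 h2)))⟩
noncomputable def cFsDD1 : Fn2 := ⟨_, _, fun h1 h2 => (cFsD1.enc h1 h2)⟩
noncomputable def cFxs2 : Fn1 := ⟨_, _, fun h1 => (enc_norm (enc_add (enc_half (dgxi.enc h1)) (enc_half (dgws.enc h1))))⟩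
noncomputable def cFsB2 : Fn2 := ⟨_, _, fun h1 h2 => (enc_norm (enc_subr 831 625 (enc_neg (enc_scale 938 125 (enc_subr 14173 20000 h2)))))⟩
noncomputable def cFBs2 : Fn2 := ⟨_, _, fun h1 h2 => (cFsB2.enc h1 h2)⟩
noncomputable def cFsX2 : Fn2 := ⟨_, _, fun h1 h2 => (enc_norm (enc_subr 62 125 (enc_neg (enc_scale 496 125 (enc_subr 14173 20000 h2)))))⟩
noncomputable def cFsD2 : Fn2 := ⟨_, _, fun h1 h2 => (enc_norm (enc_add (enc_scale 2917 155 (enc_subr 14173 20000 h2)) (enc_rat _ 319 775)))⟩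
noncomputable def cFsDD2 : Fn2 := ⟨_, _, fun h1 h2 => (cFsD2.enc h1 h2)⟩
noncomputable def nFsc2 : Fn1 := ⟨_, _, fun h1 => (enc_half h1)⟩
noncomputable def nFB2_3 : Fn2 := ⟨_, _, fun h1 h2 => (enc_subr 14173 20000 h2)⟩
noncomputable def nFB2 : Fn2 := ⟨_, _, fun h1 h2 => (enc_norm (enc_add (enc_subr 21 50 (enc_neg (enc_scale 9943 500 (nFB2_3.enc h1 h2)))) (enc_mul h1 (enc_norm (enc_add (enc_scale 16330000000 841648383 (nFB2_3.enc h1 h2)) (enc_rat _ 55000000 93516487))))))⟩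
noncomputable def nFX2_3 : Fn2 := ⟨_, _, fun h1 h2 => (enc_subr 14173 20000 h2)⟩
noncomputable def nFX2 : Fn2 := ⟨_, _, fun h1 h2 => (enc_norm (enc_add (enc_add (enc_scale 8121 500 (nFX2_3.enc h1 h2)) (enc_rat _ 831 2500)) (enc_mul h1 (enc_norm (enc_sub (enc_rat _ 80600000 280549461) (enc_scale 17429000000 841648383 (nFX2_3.enc h1 h2)))))))⟩
noncomputable def nFD2_3 : Fn2 := ⟨_, _, fun h1 h2 => (enc_subr 14173 20000 h2)⟩
noncomputable def nFD2 : Fn2 := ⟨_, _, fun h1 h2 => (enc_norm (enc_add (enc_subr 7777 5000 (enc_neg (enc_scale 8184 125 (nFD2_3.enc h1 h2)))) (enc_mul h1 (enc_norm (enc_add (enc_scale 60149000000 841648383 (nFD2_3.enc h1 h2)) (enc_rat _ 2106100000 280549461))))))⟩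
noncomputable def nFsc3 : Fn1 := ⟨_, _, fun h1 => (enc_norm (enc_add (enc_scale 4 5 h1) (enc_rat _ 1 5)))⟩
noncomputable def nFB3 : Fn2 := ⟨_, _, fun h1 h2 => (enc_norm (enc_subr 297600000 367494643 (enc_neg (enc_scale 4976500000 367494643 (enc_subr 14173 20000 h2)))))⟩
noncomputable def nFX3 : Fn2 := ⟨_, _, fun h1 h2 => (enc_norm (enc_sub (enc_rat _ 58903400 367494643) (enc_scale 813422750 367494643 (enc_subr 14173 20000 h2))))⟩
noncomputable def nFD3 : Fn2 := ⟨_, _, fun h1 h2 => (enc_norm (enc_add (enc_scale 879119755249 15617253329 (enc_subr 14173 20000 h2)) (enc_rat _ 1646487962483 281110559922)))⟩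
noncomputable def nFsc4 : Fn1 := ⟨_, _, fun h1 => (enc_norm (enc_add (enc_scale 2 5 h1) (enc_rat _ 3 5)))⟩
noncomputable def nFB4 : Fn2 := ⟨_, _, fun h1 h2 => (enc_norm (enc_subr 325100000 429616471 (enc_scale 1432000000 429616471 (enc_subr 14173 20000 h2))))⟩
noncomputable def nFX4 : Fn2 := ⟨_, _, fun h1 h2 => (enc_norm (enc_sub (enc_rat _ 65406800 429616471) (enc_scale 2248845500 429616471 (enc_subr 14173 20000 h2))))⟩
noncomputable def nFD4 : Fn2 := ⟨_, _, fun h1 h2 => (enc_norm (enc_add (enc_scale 2880941000000 46851759987 (enc_subr 14173 20000 h2)) (enc_rat _ 372476500000 140555279961)))⟩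
noncomputable def l12F : List Knk := [⟨1, 16, kFc0, kFc0g⟩]
noncomputable def laF : List Knk := [⟨1, 25, kFa0, kFa0g⟩, ⟨2, 25, kFa1, kFa1g⟩]
noncomputable def lbF : List Knk := [⟨1, 25, kFb0, kFb0g⟩, ⟨2, 25, kFb1, kFb1g⟩]
noncomputable def l1F : List Knk := [⟨1, 25, kFe0, kFe0g⟩, ⟨2, 25, kFe1, kFe1g⟩]
noncomputable def l2F : List Knk := [⟨1, 25, kFd0, kFd0g⟩, ⟨2, 25, kFd1, kFd1g⟩]
noncomputable def cvF1 : CvP := ⟨cFxs1, cFBs1, cFsX1⟩
noncomputable def cvF2 : CvP := ⟨cFxs2, cFBs2, cFsX2⟩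
noncomputable def ndF2 : NdU := ⟨nFsc2, nFB2, nFX2, nFD2⟩
noncomputable def ndF3 : NdU := ⟨nFsc3, nFB3, nFX3, nFD3⟩
noncomputable def ndF4 : NdU := ⟨nFsc4, nFB4, nFX4, nFD4⟩
noncomputable def pF : Pm := ⟨pFma, pFmb, pFmu, pFnx, pFc0, pFkc, pFjc, pFkc, pFjc, pFkc, pFjc, pFca, pFcb, pFcc, pFcc, pFcc, pFsv, l12F, l12F, l12F, laF, lbF, l1F, l2F, cvF1, pFx11, pFx01, pFK11, pFK01, pFL11, pFL01⟩
noncomputable def pNc0 : Fn1 := ⟨_, _, fun h1 => (eng.enc h1)⟩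
noncomputable def pNkc : Fn1 := ⟨_, _, fun h1 => (enc_norm (enc_mul (pNc0.enc h1) (enc_norm (enc_add (enc_scale 6448569 4000000 (enc_subr 14173 20000 h1)) (enc_rat _ 4682901 8000000)))))⟩
noncomputable def pNjc : Fn1 := ⟨_, _, fun h1 => (enc_norm (enc_mul (pNc0.enc h1) (enc_norm (enc_subr 11199 5000 (enc_scale 7281 1000 (enc_subr 14173 20000 h1))))))⟩
noncomputable def pNcc : Fn1 := ⟨_, _, fun h1 => (enc_norm (enc_mul (pNc0.enc h1) (enc_norm (enc_scale 7872 125 (enc_subr 14173 20000 h1)))))⟩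
noncomputable def pNK11 : Fn2 := ⟨_, _, fun h1 h2 => (enc_norm (enc_mul (pNc0.enc h2) (kf1q1.enc h1 h2)))⟩
noncomputable def pNK01 : Fn2 := ⟨_, _, fun h1 h2 => (enc_norm (enc_mul (pNc0.enc h2) (kf0q1.enc h1 h2)))⟩
noncomputable def kNc0 : Fn1 := ⟨_, _, fun h1 => (enc_norm (enc_mul (pNc0.enc h1) (enc_norm (enc_subr 41 2000000000 (enc_neg (enc_scale 3 50000000 (enc_subr 14173 20000 h1)))))))⟩
noncomputable def kNc0g : Fn1 := ⟨_, _, fun h1 => (enc_norm (enc_mul (pNc0.enc h1) (enc_norm (enc_sub (enc_rat _ 63418447 1000000) (enc_scale 6126099 25000 (enc_subr 14173 20000 h1))))))⟩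
noncomputable def cNBs1 : Fn2 := ⟨_, _, fun h1 h2 => (enc_norm (enc_mul (pNc0.enc h2) (cFsB1.enc h1 h2)))⟩
noncomputable def cNBs2 : Fn2 := ⟨_, _, fun h1 h2 => (enc_norm (enc_mul (pNc0.enc h2) (cFsB2.enc h1 h2)))⟩
noncomputable def nNB2_4 : Fn2 := ⟨_, _, fun h1 h2 => (enc_subr 14173 20000 h2)⟩
noncomputable def nNB2 : Fn2 := ⟨_, _, fun h1 h2 => (enc_norm (enc_mul (pNc0.enc h2) (enc_norm (enc_add (enc_subr 21 50 (enc_neg (enc_scale 9943 500 (nNB2_4.enc h1 h2)))) (enc_mul h1 (enc_norm (enc_add (enc_scale 16330000000 841648383 (nNB2_4.enc h1 h2)) (enc_rat _ 55000000 93516487))))))))⟩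
noncomputable def nNB3 : Fn2 := ⟨_, _, fun h1 h2 => (enc_norm (enc_mul (pNc0.enc h2) (enc_norm (enc_subr 297600000 367494643 (enc_neg (enc_scale 4976500000 367494643 (enc_subr 14173 20000 h2)))))))⟩
noncomputable def nNB4 : Fn2 := ⟨_, _, fun h1 h2 => (enc_norm (enc_mul (pNc0.enc h2) (enc_norm (enc_subr 325100000 429616471 (enc_scale 1432000000 429616471 (enc_subr 14173 20000 h2))))))⟩
noncomputable def umo : Fn1 := ⟨_, _, fun h1 => (mog.enc h1)⟩
noncomputable def us1 : Fn1 := ⟨_, _, fun h1 => (enc_norm (enc_subr 401 835 (enc_scale 6943 167 (enc_subr 14173 20000 h1))))⟩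
noncomputable def us2 : Fn1 := ⟨_, _, fun h1 => (enc_norm (enc_scale 4 235 (enc_subr 14173 20000 h1)))⟩
noncomputable def us3 : Fn1 := ⟨_, _, fun h1 => (enc_norm (enc_subr 3343 1670 (enc_neg (enc_scale 18465 167 (enc_subr 14173 20000 h1)))))⟩
noncomputable def uC11 : Fn2 := ⟨_, _, fun h1 h2 => (kc1q1.enc h1 h2)⟩
noncomputable def uC01 : Fn2 := ⟨_, _, fun h1 h2 => (kc0q1.enc h1 h2)⟩
noncomputable def l12N : List Knk := [⟨1, 16, kNc0, kNc0g⟩]
noncomputable def cvN1 : CvP := ⟨cFxs1, cNBs1, cFsX1⟩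
noncomputable def cvN2 : CvP := ⟨cFxs2, cNBs2, cFsX2⟩
noncomputable def ndN2 : NdU := ⟨nFsc2, nNB2, nFX2, nFD2⟩
noncomputable def ndN3 : NdU := ⟨nFsc3, nNB3, nFX3, nFD3⟩
noncomputable def ndN4 : NdU := ⟨nFsc4, nNB4, nFX4, nFD4⟩
noncomputable def pN : Pm := ⟨pFma, pFmb, pFmu, pFnx, pNc0, pNkc, pNjc, pNkc, pNjc, pNkc, pNjc, pFca, pFcb, pNcc, pNcc, pNcc, pFsv, l12N, l12N, l12N, laF, lbF, l1F, l2F, cvN1, pFx11, pFx01, pNK11, pNK01, pFL11, pFL01⟩
noncomputable def ul1 : List Knk := []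
noncomputable def ul2 : List Knk := []
noncomputable def ul3 : List Knk := []
noncomputable def qN : Pu := ⟨umo, us1, us2, us3, ul1, ul2, ul3, cFsDD1, uC11, uC01⟩

end Pool.Agent.Strip051.G.I69_7273.Tab.DG
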