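import Pool.Agent.Strip051.G.I69_7273.Rows
import Pool.Agent.Strip051.PB.CGood
import Pool.Agent.Strip051.PB.FinS
import Pool.Agent.Strip051.G.I69_7273.Fl
import Pool.Agent.Strip051.G.I69_7273.Cost

/-! # Rows from certificates (generated) -/

set_option linter.all false
set_option maxRecDepth 100000

namespace Pool.Agent.Strip051.G.I69_7273.Tab

open Pool.Agent.Strip051.PB Pool.Agent.StripNear Pool.Agent.Strip051.LC

theorem done {x : ℝ} (hx : ((740881858 : ℕ) : ℝ) / S ≤ x) (hx' : x ≤ (((740881858 : ℕ) : ℝ) + (40050571 : ℕ)) / S) : Good (h0 * x) := by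
  have e : (((1 : ℕ) : ℝ) / ((5 : ℕ) : ℝ)) = 1 / 5 := by norm_num
  have c := (rowsE hx hx').certE
  have h := flRow (o := h0 * (1 / 20)) ⟨hx, hx'⟩ (by rw [e]; exact c) (kE_eq (hx1 hx) (hx2 hx'))
  rw [e] at h
  exact good hx hx' (ken_h0 x) c h

theorem doneI {x : ℝ} (h1 : 69 / 100 ≤ x) (h2 : x ≤ 7273 / 10000) : Good (h0 * x) := by
  refine done ?_ ?_
  · rw [S_num]
    norm_num
    linarith
  · rw [S_num]
    norm_num
    linarith

end Pool.Agent.Strip051.G.I69_7273.Tab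

namespace Pool.Agent.Strip051.G.I69_7273

open Pool.Agent.Strip051.PB Pool.Agent.StripNear Pool.Agent.Strip051.LC

theorem good_on {x : ℝ} (hx : ((740881858 : ℕ) : ℝ) / S ≤ x) (hx' : x ≤ (((740881858 : ℕ) : ℝ) + (40050571 : ℕ)) / S) : Good (h0 * x) := Tab.done hx hx'

end Pool.Agent.Strip051.G.I69_7273
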