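import Pool.Agent.Strip051.PB.FlAsmX
import Pool.Agent.Strip051.G.I69_7273.Tab

/-! # Slopes (generated) -/

set_option linter.all false

namespace Pool.Agent.Strip051.G.I69_7273.Tab

open Pool.Agent.Strip051.PB

attribute [local irreducible] padd psub pneg pmul psq pinv psqrt psqrtg pabs pps pmax pmin pphi
  plam pcase phf pnat prat pscale pnorm pdc pnc pone ppos pnn

noncomputable def c1g_fs : Sl1 c1g := ⟨_, fun h1 => (pr_sqrtg (pr_csub (enc_pnc _ 1) (pr_scale 3 4 (pr_sq h1))))⟩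
noncomputable def kcg_6_fs : Sl2 kcg_6 := ⟨_, fun h1 h2 => (pr_addc h1 (enc_rat _ 283 1000))⟩
noncomputable def kcg_9_fs : Sl2 kcg_9 := ⟨_, fun h1 h2 => (pr_addc h1 (enc_rat _ 193 500))⟩
noncomputable def kcg_12_fs : Sl2 kcg_12 := ⟨_, fun h1 h2 => (pr_addc h1 (enc_rat _ 7 16))⟩
noncomputable def kcg_13_fs : Sl2 kcg_13 := ⟨_, fun h1 h2 => (pr_scale 11199 5000 h1)⟩
noncomputable def kcg_16_fs : Sl2 kcg_16 := ⟨_, fun h1 h2 => (pr_scale 11217 1000 h1)⟩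
noncomputable def kcg_32_fs : Sl2 kcg_32 := ⟨_, fun h1 h2 => (pr_scale 821 800 h1)⟩
noncomputable def kcg_37_fs : Sl2 kcg_37 := ⟨_, fun h1 h2 => (pr_scale 11553 2000 h1)⟩
noncomputable def kcg_57_fs : Sl2 kcg_57 := ⟨_, fun h1 h2 => (pr_addc h1 (enc_rat _ 67 200))⟩
noncomputable def kcg_58_fs : Sl2 kcg_58 := ⟨_, fun h1 h2 => (pr_scale 41319 20000 h1)⟩
noncomputable def kcg_63_fs : Sl2 kcg_63 := ⟨_, fun h1 h2 => (pr_scale 17609 2000 h1)⟩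
noncomputable def kcg_79_fs : Sl2 kcg_79 := ⟨_, fun h1 h2 => (pr_scale 4441 20000 h1)⟩
noncomputable def kcg_83_fs : Sl2 kcg_83 := ⟨_, fun h1 h2 => (pr_scale 41611 2000 h1)⟩
noncomputable def kcg_103_fs : Sl2 kcg_103 := ⟨_, fun h1 h2 => (pr_addc h1 (enc_rat _ 9 50))⟩
noncomputable def kcg_106_fs : Sl2 kcg_106 := ⟨_, fun h1 h2 => (pr_addc h1 (enc_rat _ 231 1000))⟩
noncomputable def kcg_107_fs : Sl2 kcg_107 := ⟨_, fun h1 h2 => (pr_scale 33569 20000 h1)⟩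
noncomputable def kcg_111_fs : Sl2 kcg_111 := ⟨_, fun h1 h2 => (pr_scale 2039 250 h1)⟩
noncomputable def kcg_125_fs : Sl2 kcg_125 := ⟨_, fun h1 h2 => (pr_scale 50883 20000 h1)⟩
noncomputable def kcg_128_fs : Sl2 kcg_128 := ⟨_, fun h1 h2 => (pr_scale 26321 2000 h1)⟩
noncomputable def kcg_146_fs : Sl2 kcg_146 := ⟨_, fun h1 h2 => (pr_addc h1 (enc_rat _ 23 250))⟩
noncomputable def kcg_147_fs : Sl2 kcg_147 := ⟨_, fun h1 h2 => (pr_scale 1117 625 h1)⟩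
noncomputable def kcg_151_fs : Sl2 kcg_151 := ⟨_, fun h1 h2 => (pr_scale 8589 2000 h1)⟩
noncomputable def kcg_170_fs : Sl2 kcg_170 := ⟨_, fun h1 h2 => (pr_scale 20401 10000 h1)⟩
noncomputable def kcg_174_fs : Sl2 kcg_174 := ⟨_, fun h1 h2 => (pr_scale 15697 1000 h1)⟩
noncomputable def kcg_188_fs : Sl2 kcg_188 := ⟨_, fun h1 h2 => (pr_scale 25209 10000 h1)⟩
noncomputable def kcg_191_fs : Sl2 kcg_191 := ⟨_, fun h1 h2 => (pr_cmul (enc_norm (kcg_3.enc h1.l h2)) (pr_nd (pr_scale 3887 500 h1)))⟩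
noncomputable def kcg_198_fs : Sl2 kcg_198 := ⟨_, fun h1 h2 => (pr_csub (enc_rat _ 283 1000) h1)⟩
noncomputable def kcg_199_fs : Sl2 kcg_199 := ⟨_, fun h1 h2 => (pr_csub (enc_rat _ 193 500) h1)⟩
noncomputable def kcg_200_fs : Sl2 kcg_200 := ⟨_, fun h1 h2 => (pr_csub (enc_rat _ 7 16) h1)⟩
noncomputable def kcg_220_fs : Sl2 kcg_220 := ⟨_, fun h1 h2 => (pr_csub (enc_rat _ 67 200) h1)⟩
noncomputable def kcg_242_fs : Sl2 kcg_242 := ⟨_, fun h1 h2 => (pr_csub (enc_rat _ 9 50) h1)⟩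
noncomputable def kcg_243_fs : Sl2 kcg_243 := ⟨_, fun h1 h2 => (pr_csub (enc_rat _ 231 1000) h1)⟩
noncomputable def kcg_264_fs : Sl2 kcg_264 := ⟨_, fun h1 h2 => (pr_csub (enc_rat _ 23 250) h1)⟩
noncomputable def kcg_fs : Sl2 kcg := ⟨_, fun h1 h2 => (pr_norm (pr_case h1 (pr_case (kcg_6_fs.snd h1 h2) (pr_case (kcg_9_fs.snd h1 h2) (pr_case (kcg_12_fs.snd h1 h2) (pr_add (pr_add (pr_addc (kcg_13_fs.snd h1 h2) (enc_rat _ 4276299 8000000)) (pr_cmul (enc_norm (kcg_3.enc h1.l h2)) (pr_norm (pr_subr 28882569 4000000 (pr_neg (kcg_16_fs.snd h1 h2)))))) (pr_cmul (enc_norm (kcg_24.enc h1.l h2)) (pr_norm (pr_mul (pr_norm (pr_addc h1 (enc_rat _ 1 2))) (pr_norm (pr_csub (enc_neg (enc_rat _ 7 16)) h1)))))) (pr_add (pr_add (pr_subr 1788719 2000000 (pr_neg (kcg_32_fs.snd h1 h2))) (pr_cmul (enc_norm (kcg_3.enc h1.l h2)) (pr_norm (pr_subr 9680847 2000000 (pr_neg (kcg_37_fs.snd h1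 h2)))))) (pr_cmul (enc_norm (kcg_49.enc h1.l h2)) (pr_norm (pr_mul (pr_norm (kcg_12_fs.snd h1 h2)) (pr_norm (pr_csub (enc_neg (enc_rat _ 193 500)) h1))))))) (pr_case (kcg_57_fs.snd h1 h2) (pr_add (pr_add (pr_subr 12956837 10000000 (pr_neg (kcg_58_fs.snd h1 h2))) (pr_cmul (enc_norm (kcg_3.enc h1.l h2)) (pr_norm (pr_addc (kcg_63_fs.snd h1 h2) (enc_rat _ 315137 400000))))) (pr_cmul (enc_norm (kcg_74.enc h1.l h2)) (pr_norm (pr_mul (pr_norm (kcg_9_fs.snd h1 h2)) (pr_norm (pr_csub (enc_neg (enc_rat _ 67 200)) h1)))))) (pr_add (pr_add (pr_subr 5292037 10000000 (kcg_79_fs.snd h1 h2)) (pr_cmul (enc_norm (kcg_3.enc h1.l h2)) (pr_norm (pr_addc (kcg_83_fs.snd h1 h2) (enc_rat _ 1923271 400000))))) (pr_cmul (enc_norm (kcg_94.enc h1.l h2)) (pr_norm (pr_mul (pr_norm (kcg_57_fs.snd h1 h2)) (pr_norm (pr_csub (enc_neg (enc_rat _ 283 1000)) h1)))))))) (pr_case (kcg_103_fs.snd h1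 h2) (pr_case (kcg_106_fs.snd h1 h2) (pr_add (pr_add (pr_subr 46817 400000 (kcg_107_fs.snd h1 h2)) (pr_cmul (enc_norm (kcg_3.enc h1.l h2)) (pr_norm (pr_addc (kcg_111_fs.snd h1 h2) (enc_rat _ 1228369 1000000))))) (pr_cmul (enc_norm (kcg_120.enc h1.l h2)) (pr_norm (pr_mul (pr_norm (kcg_6_fs.snd h1 h2)) (pr_norm (pr_csub (enc_neg (enc_rat _ 231 1000)) h1)))))) (pr_add (pr_add (pr_addc (kcg_125_fs.snd h1 h2) (enc_rat _ 414671 5000000)) (pr_cmul (enc_norm (kcg_3.enc h1.l h2)) (pr_norm (pr_subr 1478297 400000 (pr_neg (kcg_128_fs.snd h1 h2)))))) (pr_cmul (enc_norm (kcg_138.enc h1.l h2)) (pr_norm (pr_mul (pr_norm (kcg_106_fs.snd h1 h2)) (pr_norm (pr_csub (enc_neg (enc_rat _ 9 50)) h1))))))) (pr_case (kcg_146_fs.snd h1 h2) (pr_add (pr_add (pr_subr 33323 625000 (kcg_147_fs.snd h1 h2)) (pr_cmul (enc_norm (kcg_3.enc h1.l h2)) (pr_norm (pr_subr 221537 400000 (kcg_151_fs.snd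 h1 h2))))) (pr_cmul (enc_norm (kcg_162.enc h1.l h2)) (pr_norm (pr_mul (pr_norm (kcg_103_fs.snd h1 h2)) (pr_norm (pr_csub (enc_neg (enc_rat _ 23 250)) h1)))))) (pr_case (pr_addc h1 (enc_rat _ 1 16)) (pr_add (pr_add (pr_subr 601 20000 (kcg_170_fs.snd h1 h2)) (pr_cmul (enc_norm (kcg_3.enc h1.l h2)) (pr_norm (pr_addc (kcg_174_fs.snd h1 h2) (enc_rat _ 7923 16000))))) (pr_cmul (enc_norm (kcg_183.enc h1.l h2)) (pr_norm (pr_mul (pr_norm (kcg_146_fs.snd h1 h2)) (pr_norm (pr_csub (enc_neg (enc_rat _ 1 16)) h1)))))) (pr_add (kcg_188_fs.snd h1 h2) (kcg_191_fs.snd h1 h2)))))) (pr_neg (pr_case (kcg_198_fs.snd h1 h2) (pr_case (kcg_199_fs.snd h1 h2) (pr_case (kcg_200_fs.snd h1 h2) (pr_add (pr_add (pr_csub (enc_rat _ 4276299 8000000) (kcg_13_fs.snd h1 h2)) (pr_cmul (enc_norm (kcg_3.enc h1.l h2)) (pr_norm (pr_subr 28882569 4000000 (kcg_16_fs.snd h1 h2))))) (pr_cmul (enc_norm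 (kcg_24.enc h1.l h2)) (pr_norm (pr_mul (pr_norm (pr_csub (enc_rat _ 1 2) h1)) (pr_norm (pr_subr 7 16 h1)))))) (pr_add (pr_add (pr_subr 1788719 2000000 (kcg_32_fs.snd h1 h2)) (pr_cmul (enc_norm (kcg_3.enc h1.l h2)) (pr_norm (pr_subr 9680847 2000000 (kcg_37_fs.snd h1 h2))))) (pr_cmul (enc_norm (kcg_49.enc h1.l h2)) (pr_norm (pr_mul (pr_norm (kcg_200_fs.snd h1 h2)) (pr_norm (pr_subr 193 500 h1))))))) (pr_case (kcg_220_fs.snd h1 h2) (pr_add (pr_add (pr_subr 12956837 10000000 (kcg_58_fs.snd h1 h2)) (pr_cmul (enc_norm (kcg_3.enc h1.l h2)) (pr_norm (pr_csub (enc_rat _ 315137 400000) (kcg_63_fs.snd h1 h2))))) (pr_cmul (enc_norm (kcg_74.enc h1.l h2)) (pr_norm (pr_mul (pr_norm (kcg_199_fs.snd h1 h2)) (pr_norm (pr_subr 67 200 h1)))))) (pr_add (pr_add (pr_subr 5292037 10000000 (pr_neg (kcg_79_fs.snd h1 h2))) (pr_cmul (enc_norm (kcg_3.enc h1.l h2)) (pr_norm (pr_csub (enc_rat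 _ 1923271 400000) (kcg_83_fs.snd h1 h2))))) (pr_cmul (enc_norm (kcg_94.enc h1.l h2)) (pr_norm (pr_mul (pr_norm (kcg_220_fs.snd h1 h2)) (pr_norm (pr_subr 283 1000 h1)))))))) (pr_case (kcg_242_fs.snd h1 h2) (pr_case (kcg_243_fs.snd h1 h2) (pr_add (pr_add (pr_subr 46817 400000 (pr_neg (kcg_107_fs.snd h1 h2))) (pr_cmul (enc_norm (kcg_3.enc h1.l h2)) (pr_norm (pr_csub (enc_rat _ 1228369 1000000) (kcg_111_fs.snd h1 h2))))) (pr_cmul (enc_norm (kcg_120.enc h1.l h2)) (pr_norm (pr_mul (pr_norm (kcg_198_fs.snd h1 h2)) (pr_norm (pr_subr 231 1000 h1)))))) (pr_add (pr_add (pr_csub (enc_rat _ 414671 5000000) (kcg_125_fs.snd h1 h2)) (pr_cmul (enc_norm (kcg_3.enc h1.l h2)) (pr_norm (pr_subr 1478297 400000 (kcg_128_fs.snd h1 h2))))) (pr_cmul (enc_norm (kcg_138.enc h1.l h2)) (pr_norm (pr_mul (pr_norm (kcg_243_fs.snd h1 h2)) (pr_norm (pr_subr 9 50 h1))))))) (pr_case (kcg_264_fs.snd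 h1 h2) (pr_add (pr_add (pr_subr 33323 625000 (pr_neg (kcg_147_fs.snd h1 h2))) (pr_cmul (enc_norm (kcg_3.enc h1.l h2)) (pr_norm (pr_subr 221537 400000 (pr_neg (kcg_151_fs.snd h1 h2)))))) (pr_cmul (enc_norm (kcg_162.enc h1.l h2)) (pr_norm (pr_mul (pr_norm (kcg_242_fs.snd h1 h2)) (pr_norm (pr_subr 23 250 h1)))))) (pr_case (pr_csub (enc_rat _ 1 16) h1) (pr_add (pr_add (pr_subr 601 20000 (pr_neg (kcg_170_fs.snd h1 h2))) (pr_cmul (enc_norm (kcg_3.enc h1.l h2)) (pr_norm (pr_csub (enc_rat _ 7923 16000) (kcg_174_fs.snd h1 h2))))) (pr_cmul (enc_norm (kcg_183.enc h1.l h2)) (pr_norm (pr_mul (pr_norm (kcg_264_fs.snd h1 h2)) (pr_norm (pr_subr 1 16 h1)))))) (pr_sub (pr_neg (kcg_188_fs.snd h1 h2)) (kcg_191_fs.snd h1 h2)))))))))⟩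
noncomputable def kf0q0_9_fs : Sl2 kf0q0_9 := ⟨_, fun h1 h2 => (pr_scale 3 2 h1)⟩
noncomputable def kf0q0_12_fs : Sl2 kf0q0_12 := ⟨_, fun h1 h2 => (pr_cadd (enc_pnc _ 1) (c1g_fs.snd h1))⟩
noncomputable def kf0q0_fs : Sl2 kf0q0 := ⟨_, fun h1 h2 => (pr_norm (pr_add (pr_mul (pr_norm (pr_mul (pr_norm (pr_sub (c1g_fs.snd h1) (kf0q0_9_fs.snd h1 h2))) (pr_norm (kf0q0_12_fs.snd h1 h2)))) (pr_nd (pr_inv (pr_sub (kf0q0_12_fs.snd h1 h2) (kf0q0_9_fs.snd h1 h2))))) (pr_mul h1 (kcg_fs.snd (pr_norm (pr_sub (pr_scale 3 4 h1) (pr_half (c1g_fs.snd h1)))) h2))))⟩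
noncomputable def txg_6_fs : Sl3 txg_6 := ⟨_, fun h1 h2 h3 => (pr_add h1 (pr_half h2))⟩
noncomputable def txg_26_fs : Sl3 txg_26 := ⟨_, fun h1 h2 h3 => (pr_addc h1 (enc_rat _ 11 50))⟩
noncomputable def txg_29_fs : Sl3 txg_29 := ⟨_, fun h1 h2 h3 => (pr_addc h1 (enc_rat _ 19 50))⟩
noncomputable def txg_32_fs : Sl3 txg_32 := ⟨_, fun h1 h2 h3 => (pr_addc h1 (enc_rat _ 23 50))⟩
noncomputable def txg_57_fs : Sl3 txg_57 := ⟨_, fun h1 h2 h3 => (pr_addc h1 (enc_rat _ 21 50))⟩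
noncomputable def txg_101_fs : Sl3 txg_101 := ⟨_, fun h1 h2 h3 => (pr_addc h1 (enc_rat _ 3 10))⟩
noncomputable def txg_104_fs : Sl3 txg_104 := ⟨_, fun h1 h2 h3 => (pr_addc h1 (enc_rat _ 17 50))⟩
noncomputable def txg_142_fs : Sl3 txg_142 := ⟨_, fun h1 h2 h3 => (pr_addc h1 (enc_rat _ 13 50))⟩
noncomputable def txg_184_fs : Sl3 txg_184 := ⟨_, fun h1 h2 h3 => (pr_addc h1 (enc_rat _ 3 50))⟩
noncomputable def txg_187_fs : Sl3 txg_187 := ⟨_, fun h1 h2 h3 => (pr_addc h1 (enc_rat _ 7 50))⟩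
noncomputable def txg_190_fs : Sl3 txg_190 := ⟨_, fun h1 h2 h3 => (pr_addc h1 (enc_rat _ 9 50))⟩
noncomputable def txg_227_fs : Sl3 txg_227 := ⟨_, fun h1 h2 h3 => (pr_addc h1 (enc_rat _ 1 10))⟩
noncomputable def txg_268_fs : Sl3 txg_268 := ⟨_, fun h1 h2 h3 => (pr_subr 3 100 h1)⟩
noncomputable def txg_270_fs : Sl3 txg_270 := ⟨_, fun h1 h2 h3 => (pr_addc h1 (enc_rat _ 3 100))⟩
noncomputable def txg_308_fs : Sl3 txg_308 := ⟨_, fun h1 h2 h3 => (pr_subr 3 50 h1)⟩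
noncomputable def txg_362_fs : Sl3 txg_362 := ⟨_, fun h1 h2 h3 => (pr_subr 37 206 h1)⟩
noncomputable def txg_363_fs : Sl3 txg_363 := ⟨_, fun h1 h2 h3 => (pr_subr 17 50 h1)⟩
noncomputable def txg_364_fs : Sl3 txg_364 := ⟨_, fun h1 h2 h3 => (pr_subr 13 50 h1)⟩
noncomputable def txg_365_fs : Sl3 txg_365 := ⟨_, fun h1 h2 h3 => (pr_subr 11 50 h1)⟩
noncomputable def txg_416_fs : Sl3 txg_416 := ⟨_, fun h1 h2 h3 => (pr_subr 3 10 h1)⟩
noncomputable def txg_456_fs : Sl3 txg_456 := ⟨_, fun h1 h2 h3 => (pr_subr 21 50 h1)⟩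
noncomputable def txg_457_fs : Sl3 txg_457 := ⟨_, fun h1 h2 h3 => (pr_subr 19 50 h1)⟩
noncomputable def txg_498_fs : Sl3 txg_498 := ⟨_, fun h1 h2 h3 => (pr_subr 23 50 h1)⟩
noncomputable def txg_fs : Sl3 txg := ⟨_, fun h1 h2 h3 => (pr_case (pr_subr 61 661 h1) (pr_case (txg_26_fs.snd h1 h2 h3) (pr_case (txg_29_fs.snd h1 h2 h3) (pr_case (txg_32_fs.snd h1 h2 h3) (pr_add (pr_add (pr_addc (pr_scale 659 8000 h1) (enc_rat _ 659 16000)) (pr_cmul (enc_norm (txg_4.enc h1.l h2.l h3)) (pr_norm (pr_subr 5527 80000 (pr_neg (pr_scale 5527 40000 h1)))))) (pr_cmul (enc_norm (enc_subr 8391 12500 (enc_scale 39909 1250 (txg_4.enc h1.l h2.l h3)))) (pr_norm (pr_mul (pr_norm (pr_addc h1 (enc_rat _ 1 2))) (pr_norm (pr_csub (enc_neg (enc_rat _ 23 50)) h1)))))) (pr_case (txg_57_fs.snd h1 h2 h3) (pr_add (pr_add (pr_addc (pr_scale 54837 400000 h1) (enc_rat _ 1327151 20000000)) (pr_cmul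 (enc_norm (txg_4.enc h1.l h2.l h3)) (pr_norm (pr_subr 48073 100000 (pr_neg (pr_scale 20661 20000 h1)))))) (pr_cmul (enc_norm (enc_subr 69659 100000 (enc_neg (enc_scale 95559 10000 (txg_4.enc h1.l h2.l h3))))) (pr_norm (pr_mul (pr_norm (txg_32_fs.snd h1 h2 h3)) (pr_norm (pr_csub (enc_neg (enc_rat _ 21 50)) h1)))))) (pr_add (pr_add (pr_addc (pr_scale 19161 400000 h1) (enc_rat _ 115591 4000000)) (pr_cmul (enc_norm (txg_4.enc h1.l h2.l h3)) (pr_norm (pr_addc (pr_scale 17849 20000 h1) (enc_rat _ 16399 50000))))) (pr_cmul (enc_norm (enc_sub (enc_rat _ 73157 25000) (enc_scale 385813 10000 (txg_4.enc h1.l h2.l h3)))) (pr_norm (pr_mul (pr_norm (txg_57_fs.snd h1 h2 h3)) (pr_norm (pr_csub (enc_neg (enc_rat _ 19 50)) h1)))))))) (pr_case (txg_101_fs.snd h1 h2 h3) (pr_case (txg_104_fs.snd h1 h2 h3) (pr_add (pr_add (pr_addc (pr_scale 4179 80000 h1) (enc_rat _ 610901 20000000))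 (pr_cmul (enc_norm (txg_4.enc h1.l h2.l h3)) (pr_norm (pr_addc (pr_scale 88491 40000 h1) (enc_rat _ 1659027 2000000))))) (pr_cmul (enc_norm (enc_subr 303459 100000 (enc_scale 3491 625 (txg_4.enc h1.l h2.l h3)))) (pr_norm (pr_mul (pr_norm (txg_29_fs.snd h1 h2 h3)) (pr_norm (pr_csub (enc_neg (enc_rat _ 17 50)) h1)))))) (pr_add (pr_add (pr_addc (pr_scale 37967 200000 h1) (enc_rat _ 386641 5000000)) (pr_cmul (enc_norm (txg_4.enc h1.l h2.l h3)) (pr_norm (pr_addc (pr_scale 75843 40000 h1) (enc_rat _ 1444011 2000000))))) (pr_cmul (enc_norm (enc_subr 20267 50000 (enc_scale 11597 5000 (txg_4.enc h1.l h2.l h3)))) (pr_norm (pr_mul (pr_norm (txg_104_fs.snd h1 h2 h3)) (pr_norm (pr_csub (enc_neg (enc_rat _ 3 10)) h1))))))) (pr_case (txg_142_fs.snd h1 h2 h3) (pr_add (pr_add (pr_addc (pr_scale 117111 400000 h1) (enc_rat _ 2164219 20000000)) (pr_cmul (enc_norm (txg_4.enc h1.l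 h2.l h3)) (pr_norm (pr_addc (pr_scale 7093 10000 h1) (enc_rat _ 365973 1000000))))) (pr_cmul (enc_norm (enc_subr 54207 25000 (enc_scale 547 20 (txg_4.enc h1.l h2.l h3)))) (pr_norm (pr_mul (pr_norm (txg_101_fs.snd h1 h2 h3)) (pr_norm (pr_csub (enc_neg (enc_rat _ 13 50)) h1)))))) (pr_add (pr_add (pr_addc (pr_scale 47739 100000 h1) (enc_rat _ 781051 5000000)) (pr_cmul (enc_norm (txg_4.enc h1.l h2.l h3)) (pr_norm (pr_addc (pr_scale 36363 40000 h1) (enc_rat _ 835829 2000000))))) (pr_cmul (enc_norm (enc_subr 244697 100000 (enc_neg (enc_scale 323441 10000 (txg_4.enc h1.l h2.l h3))))) (pr_norm (pr_mul (pr_norm (txg_142_fs.snd h1 h2 h3)) (pr_norm (pr_csub (enc_neg (enc_rat _ 11 50)) h1))))))))) (pr_case (txg_184_fs.snd h1 h2 h3) (pr_case (txg_187_fs.snd h1 h2 h3) (pr_case (txg_190_fs.snd h1 h2 h3) (pr_add (pr_add (pr_addc (pr_scale 181329 400000 h1) (enc_rat _ 3018307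 20000000)) (pr_cmul (enc_norm (txg_4.enc h1.l h2.l h3)) (pr_norm (pr_addc (pr_scale 8177 8000 h1) (enc_rat _ 885571 2000000))))) (pr_cmul (enc_norm (enc_add (enc_scale 73793 2500 (txg_4.enc h1.l h2.l h3)) (enc_rat _ 304859 100000))) (pr_norm (pr_mul (pr_norm (txg_26_fs.snd h1 h2 h3)) (pr_norm (pr_csub (enc_neg (enc_rat _ 9 50)) h1)))))) (pr_add (pr_add (pr_addc (pr_scale 120157 400000 h1) (enc_rat _ 2467759 20000000)) (pr_cmul (enc_norm (txg_4.enc h1.l h2.l h3)) (pr_norm (pr_csub (enc_rat _ 43139 250000) (pr_scale 9583 20000 h1))))) (pr_cmul (enc_norm (enc_add (enc_scale 80147 10000 (txg_4.enc h1.l h2.l h3)) (enc_rat _ 2421 3125))) (pr_norm (pr_mul (pr_norm (txg_190_fs.snd h1 h2 h3)) (pr_norm (pr_csub (enc_neg (enc_rat _ 7 50)) h1))))))) (pr_case (txg_227_fs.snd h1 h2 h3) (pr_add (pr_add (pr_addc (pr_scale 87571 400000 h1) (enc_rat _ 2239657 20000000)) (pr_cmul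 (enc_norm (txg_4.enc h1.l h2.l h3)) (pr_norm (pr_csub (enc_rat _ 50203 1000000) (pr_scale 13531 10000 h1))))) (pr_cmul (enc_norm (enc_add (enc_scale 2767 200 (txg_4.enc h1.l h2.l h3)) (enc_rat _ 15773 12500))) (pr_norm (pr_mul (pr_norm (txg_187_fs.snd h1 h2 h3)) (pr_norm (pr_csub (enc_neg (enc_rat _ 1 10)) h1)))))) (pr_add (pr_add (pr_addc (pr_scale 18011 100000 h1) (enc_rat _ 1081011 10000000)) (pr_cmul (enc_norm (txg_4.enc h1.l h2.l h3)) (pr_norm (pr_csub (enc_rat _ 53959 500000) (pr_scale 15519 20000 h1))))) (pr_cmul (enc_norm (enc_subr 14569 50000 (enc_neg (enc_scale 35331 1250 (txg_4.enc h1.l h2.l h3))))) (pr_norm (pr_mul (pr_norm (txg_227_fs.snd h1 h2 h3)) (pr_norm (pr_csub (enc_neg (enc_rat _ 3 50)) h1)))))))) (pr_case (txg_268_fs.snd h1 h2 h3) (pr_case (txg_270_fs.snd h1 h2 h3) (pr_add (pr_add (pr_addc (pr_scale 5753 30000 h1) (enc_rat _ 217601 2000000))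 (pr_cmul (enc_norm (txg_4.enc h1.l h2.l h3)) (pr_norm (pr_csub (enc_rat _ 145301 1000000) (pr_scale 1529 10000 h1))))) (pr_cmul (enc_norm (enc_add (enc_scale 10574 625 (txg_4.enc h1.l h2.l h3)) (enc_rat _ 1 50000))) (pr_norm (pr_mul (pr_norm (txg_184_fs.snd h1 h2 h3)) (pr_norm (pr_csub (enc_neg (enc_rat _ 3 100)) h1)))))) (pr_add (pr_add (pr_addc (pr_scale 14891 100000 h1) (enc_rat _ 268787 2500000)) (pr_cmul (enc_norm (txg_4.enc h1.l h2.l h3)) (pr_norm (pr_csub (enc_rat _ 269941 2000000) (pr_scale 1989 4000 h1))))) (pr_cmul (enc_norm (enc_sub (enc_rat _ 35711 50000) (enc_scale 13599 5000 (txg_4.enc h1.l h2.l h3)))) (pr_norm (pr_mul (pr_norm (txg_270_fs.snd h1 h2 h3)) (pr_norm (pr_csub (enc_rat _ 3 100) h1))))))) (pr_case (txg_308_fs.snd h1 h2 h3) (pr_add (pr_add (pr_addc (pr_scale 5569 50000 h1) (enc_rat _ 1086407 10000000)) (pr_cmul (enc_norm (txg_4.enc h1.l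 h2.l h3)) (pr_norm (pr_csub (enc_rat _ 29329 200000) (pr_scale 554 625 h1))))) (pr_cmul (enc_norm (enc_subr 4433 25000 (enc_scale 36823 2000 (txg_4.enc h1.l h2.l h3)))) (pr_norm (pr_mul (pr_norm (txg_268_fs.snd h1 h2 h3)) (pr_norm (pr_csub (enc_rat _ 3 50) h1)))))) (pr_add (pr_add (pr_add (pr_addc (pr_scale 86520703141577311267157 770386753317500000000000 h1) (enc_rat _ 4182622727885803628698529 38519337665875000000000000)) (pr_cmul (enc_norm (txg_4.enc h1.l h2.l h3)) (pr_norm (pr_csub (enc_rat _ 23810131221192163028167 192596688329375000000000) (pr_scale 1936617377746815384389 3851933766587500000000 h1))))) (pr_cmul (txg_340.enc h1.l h2.l h3) (pr_norm (pr_subr 704594924105751 1324416781250000 (pr_scale 234864974701917 26488335625000 h1))))) (pr_cmul (enc_norm (enc_add (enc_mul (enc_norm (enc_subr 289923 10000 (enc_neg (enc_scale 68661 250 (txg_4.enc h1.l h2.l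 h3))))) (enc_norm (txg_4.enc h1.l h2.l h3))) (enc_rat _ 1359 10000))) (pr_norm (pr_mul (pr_norm (txg_308_fs.snd h1 h2 h3)) (pr_norm (pr_csub (enc_rat _ 61 661) h1)))))))))) (pr_case (txg_362_fs.snd h1 h2 h3) (pr_sub (pr_mul (pr_norm (pr_csub (enc_pnc _ 1) h2)) (pr_norm (pr_subn 1 (pr_nat 2 h2)))) (pr_mul (pr_norm (pr_nat 2 (pr_subc (pr_scale 4 3 (txg_6_fs.snd h1 h2 h3)) h3))) (pr_norm (pr_mul (pr_norm (pr_subn 1 (pr_add (pr_scale 2 3 (txg_6_fs.snd h1 h2 h3)) h2))) (kcg_fs.snd h1 h3))))) (pr_case (txg_363_fs.snd h1 h2 h3) (pr_case (txg_364_fs.snd h1 h2 h3) (pr_case (txg_365_fs.snd h1 h2 h3) (pr_add (pr_add (pr_add (pr_csub (enc_rat _ 141003113924147942507 887840687500000000000) (pr_scale 3763692510262881137 17756813750000000000 h1)) (pr_cmul (enc_norm (txg_4.enc h1.l h2.l h3)) (pr_norm (pr_csub (enc_rat _ 48654956969364136179 284109020000000000000) (pr_scale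 2645481940073103289 5682180400000000000 h1))))) (pr_cmul (txg_340.enc h1.l h2.l h3) (pr_norm (pr_csub (enc_rat _ 272159474474041 137917000000000) (pr_scale 24741770406731 2758340000000 h1))))) (pr_cmul (enc_norm (enc_add (enc_mul (enc_norm (enc_sub (enc_rat _ 171001 10000) (enc_scale 222089 1000 (txg_4.enc h1.l h2.l h3)))) (enc_norm (txg_4.enc h1.l h2.l h3))) (enc_rat _ 347263 100000))) (pr_norm (pr_mul (pr_norm (txg_362_fs.snd h1 h2 h3)) (pr_norm (pr_csub (enc_rat _ 11 50) h1)))))) (pr_add (pr_add (pr_csub (enc_rat _ 3796099 20000000) (pr_scale 141127 400000 h1)) (pr_cmul (enc_norm (txg_4.enc h1.l h2.l h3)) (pr_norm (pr_csub (enc_rat _ 60869 500000) (pr_scale 481 2000 h1))))) (pr_cmul (enc_norm (enc_sub (enc_rat _ 1509 100000) (enc_scale 228927 10000 (txg_4.enc h1.l h2.l h3)))) (pr_norm (pr_mul (pr_norm (txg_365_fs.snd h1 h2 h3)) (pr_norm (pr_csub (enc_rat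 _ 13 50) h1))))))) (pr_case (txg_416_fs.snd h1 h2 h3) (pr_add (pr_add (pr_csub (enc_rat _ 951303 5000000) (pr_scale 35457 100000 h1)) (pr_cmul (enc_norm (txg_4.enc h1.l h2.l h3)) (pr_norm (pr_addc (pr_scale 1713 20000 h1) (enc_rat _ 36939 1000000))))) (pr_cmul (enc_norm (enc_add (enc_scale 18423 1250 (txg_4.enc h1.l h2.l h3)) (enc_rat _ 1439 50000))) (pr_norm (pr_mul (pr_norm (txg_364_fs.snd h1 h2 h3)) (pr_norm (pr_csub (enc_rat _ 3 10) h1)))))) (pr_add (pr_add (pr_csub (enc_rat _ 4206477 20000000) (pr_scale 168579 400000 h1)) (pr_cmul (enc_norm (txg_4.enc h1.l h2.l h3)) (pr_norm (pr_csub (enc_rat _ 229953 2000000) (pr_scale 6979 40000 h1))))) (pr_cmul (enc_norm (enc_sub (enc_rat _ 164309 100000) (enc_scale 82347 10000 (txg_4.enc h1.l h2.l h3)))) (pr_norm (pr_mul (pr_norm (txg_416_fs.snd h1 h2 h3)) (pr_norm (pr_csub (enc_rat _ 17 50) h1)))))))) (pr_case (txg_456_fs.snd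 h1 h2 h3) (pr_case (txg_457_fs.snd h1 h2 h3) (pr_add (pr_add (pr_csub (enc_rat _ 1057497 5000000) (pr_scale 84981 200000 h1)) (pr_cmul (enc_norm (txg_4.enc h1.l h2.l h3)) (pr_norm (pr_csub (enc_rat _ 196259 2000000) (pr_scale 4997 40000 h1))))) (pr_cmul (enc_norm (enc_subr 77831 50000 (enc_scale 69959 10000 (txg_4.enc h1.l h2.l h3)))) (pr_norm (pr_mul (pr_norm (txg_363_fs.snd h1 h2 h3)) (pr_norm (pr_csub (enc_rat _ 19 50) h1)))))) (pr_add (pr_add (pr_csub (enc_rat _ 2073251 10000000) (pr_scale 2587 6250 h1)) (pr_cmul (enc_norm (txg_4.enc h1.l h2.l h3)) (pr_norm (pr_csub (enc_rat _ 50981 1000000) (pr_scale 17 20000 h1))))) (pr_cmul (enc_norm (enc_sub (enc_rat _ 641 500) (enc_scale 12623 1250 (txg_4.enc h1.l h2.l h3)))) (pr_norm (pr_mul (pr_norm (txg_457_fs.snd h1 h2 h3)) (pr_norm (pr_csub (enc_rat _ 21 50) h1))))))) (pr_case (txg_498_fs.snd h1 h2 h3) (pr_add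 (pr_add (pr_csub (enc_rat _ 2170271 10000000) (pr_scale 21851 50000 h1)) (pr_cmul (enc_norm (txg_4.enc h1.l h2.l h3)) (pr_norm (pr_subr 34027 1000000 (pr_scale 4031 20000 h1))))) (pr_cmul (enc_norm (enc_subr 1409 2000 (enc_scale 12597 2500 (txg_4.enc h1.l h2.l h3)))) (pr_norm (pr_mul (pr_norm (txg_456_fs.snd h1 h2 h3)) (pr_norm (pr_csub (enc_rat _ 23 50) h1)))))) (pr_add (pr_add (pr_csub (enc_rat _ 159979 800000) (pr_scale 159979 400000 h1)) (pr_cmul (enc_norm (txg_4.enc h1.l h2.l h3)) (pr_norm (pr_csub (enc_rat _ 29343 40000) (pr_scale 29343 20000 h1))))) (pr_cmul (enc_norm (enc_subr 22231 100000 (enc_scale 91697 2500 (txg_4.enc h1.l h2.l h3)))) (pr_norm (pr_mul (pr_norm (txg_498_fs.snd h1 h2 h3)) (pr_norm (pr_csub (enc_rat _ 1 2) h1)))))))))))⟩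
noncomputable def l0q0_fs : Sl2 l0q0 := ⟨_, fun h1 h2 => (pr_norm (txg_fs.snd (pr_norm (pr_sub (pr_scale 3 4 h1) (pr_half (c1g_fs.snd h1)))) (pr_nd (c1g_fs.snd h1)) h2))⟩
noncomputable def swg_fs : Sl1 swg := ⟨_, fun h1 => (pr_sqrt (pr_csub (enc_pnc _ 1) (pr_scale 3 4 (pr_sq (pr_norm (pr_subn 1 h1))))))⟩
noncomputable def cv1m_fs : Sl1 cv1m := ⟨_, fun h1 => (pr_norm (pr_add (pr_scale 4 5 (c1g_fs.snd h1)) (pr_scale 1 5 (pr_addc (swg_fs.snd h1) (enc_rat _ 1 2)))))⟩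
noncomputable def bf1q0_fs : Sl2 bf1q0 := ⟨_, fun h1 h2 => (pr_norm (pr_case (pr_subr 63 500 h1) (pr_sub (pr_csub (enc_pnc _ 1) (pr_scale 1003 630 h1)) (pr_cmul (enc_norm (bf1q0_3.enc h1.l h2)) (pr_nd (pr_scale 67 63 h1)))) (pr_add (pr_csub (enc_rat _ 389557 374000) (pr_scale 7189 3740 h1)) (pr_cmul (enc_norm (bf1q0_3.enc h1.l h2)) (pr_norm (pr_csub (enc_rat _ 79 187000) (pr_scale 399 374 h1)))))))⟩
noncomputable def kf1q0_fs : Sl2 kf1q0 := ⟨_, fun h1 h2 => (pr_norm (pr_mul (cv1m_fs.snd h1) (bf1q0_fs.snd h1 h2)))⟩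
noncomputable def bx1q0_fs : Sl2 bx1q0 := ⟨_, fun h1 h2 => (pr_norm (pr_case (pr_subr 63 250 h1) (pr_case (pr_subr 63 500 h1) (pr_scale 23 140 h1) (pr_add (pr_subr 37 10000 (pr_scale 61 315 h1)) (pr_cmul (enc_norm (bx1q0_3.enc h1.l h2)) (pr_norm (pr_subr 131 1000 (pr_scale 131 126 h1)))))) (pr_case (pr_subr 429 1000 h1) (pr_add (pr_subr 2119 590000 (pr_scale 57 295 h1)) (pr_cmul (enc_norm (bx1q0_3.enc h1.l h2)) (pr_norm (pr_subr 151 11800 (pr_scale 101 177 h1))))) (pr_add (pr_addc (pr_scale 9 71 h1) (enc_rat _ 17693 710000)) (pr_cmul (enc_norm (bx1q0_3.enc h1.l h2)) (pr_norm (pr_addc (pr_scale 29 71 h1) (enc_rat _ 4031 71000))))))))⟩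
noncomputable def l1q0_fs : Sl2 l1q0 := ⟨_, fun h1 h2 => (pr_norm (pr_mul (cv1m_fs.snd h1) (bx1q0_fs.snd h1 h2)))⟩
noncomputable def cv2m_fs : Sl1 cv2m := ⟨_, fun h1 => (pr_norm (pr_add (pr_half (c1g_fs.snd h1)) (pr_half (pr_addc (swg_fs.snd h1) (enc_rat _ 1 2)))))⟩
noncomputable def bf2q0_fs : Sl2 bf2q0 := ⟨_, fun h1 h2 => (pr_norm (pr_case (pr_subr 189 1000 h1) (pr_add (pr_csub (enc_pnc _ 1) (pr_scale 382 189 h1)) (pr_cmul (enc_norm (bf2q0_3.enc h1.l h2)) (pr_nd (pr_scale 50 189 h1)))) (pr_case (pr_subr 83 250 h1) (pr_add (pr_csub (enc_rat _ 1465293 1430000) (pr_scale 3077 1430 h1)) (pr_cmul (enc_norm (bf2q0_3.enc h1.l h2)) (pr_norm (pr_csub (enc_rat _ 75001 143000) (pr_scale 359 143 h1))))) (pr_add (pr_csub (enc_rat _ 145283 140000) (pr_scale 1227 560 h1)) (pr_cmul (enc_norm (bf2q0_3.enc h1.l h2)) (pr_norm (pr_subr 1663 4200 (pr_scale 11 42 h1))))))))⟩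
noncomputable def kf2q0_fs : Sl2 kf2q0 := ⟨_, fun h1 h2 => (pr_norm (pr_mul (cv2m_fs.snd h1) (bf2q0_fs.snd h1 h2)))⟩
noncomputable def bx2q0_6_fs : Sl2 bx2q0_6 := ⟨_, fun h1 h2 => (pr_scale 3 10 h1)⟩
noncomputable def bx2q0_fs : Sl2 bx2q0 := ⟨_, fun h1 h2 => (pr_norm (pr_case (pr_subr 63 500 h1) (pr_add (bx2q0_6_fs.snd h1 h2) (pr_cmul (enc_norm (bx2q0_3.enc h1.l h2)) (pr_nd (pr_scale 19 63 h1)))) (pr_case (pr_subr 63 250 h1) (pr_add (bx2q0_6_fs.snd h1 h2) (pr_cmul (enc_norm (bx2q0_3.enc h1.l h2)) (pr_norm (pr_subr 19 1000 (pr_scale 19 42 h1))))) (pr_add (pr_csub (enc_rat _ 50967 620000) (pr_scale 13 496 h1)) (pr_cmul (enc_norm (bx2q0_3.enc h1.l h2)) (pr_norm (pr_subr 13 775 (pr_scale 55 124 h1))))))))⟩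
noncomputable def l2q0_fs : Sl2 l2q0 := ⟨_, fun h1 h2 => (pr_norm (pr_mul (cv2m_fs.snd h1) (bx2q0_fs.snd h1 h2)))⟩
noncomputable def kf0q1_10_fs : Sl2 kf0q1_10 := ⟨_, fun h1 h2 => (pr_scale 3 2 h1)⟩
noncomputable def kf0q1_fs : Sl2 kf0q1 := ⟨_, fun h1 h2 => (pr_norm (pr_add (pr_mul (pr_norm (pr_mul (pr_norm (pr_cadd (enc_pnc _ 1) (pr_nat 2 (c1g_fs.snd h1)))) (pr_norm (pr_sub (kf0q1_10_fs.snd h1 h2) (c1g_fs.snd h1))))) (pr_nd (pr_inv (pr_nat 2 (pr_sub (pr_cadd (enc_pnc _ 1) (kf0q1_10_fs.snd h1 h2)) (c1g_fs.snd h1)))))) (pr_mul (pr_norm (pr_subn 1 h1)) (kcg_fs.snd (pr_norm (pr_sub (pr_scale 3 4 h1) (pr_half (c1g_fs.snd h1)))) h2))))⟩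
noncomputable def l0q1_fs : Sl2 l0q1 := ⟨_, fun h1 h2 => (pr_norm (txg_fs.snd (pr_norm (pr_sub (pr_scale 3 4 h1) (pr_half (c1g_fs.snd h1)))) (pr_nd (c1g_fs.snd h1)) h2))⟩
noncomputable def cv2p_fs : Sl1 cv2p := ⟨_, fun h1 => (pr_norm (pr_add (pr_half (c1g_fs.snd h1)) (pr_half (pr_subr 1 2 (swg_fs.snd h1)))))⟩
noncomputable def bf2q2_34_fs : Sl2 bf2q2_34 := ⟨_, fun h1 h2 => (pr_csub (enc_rat _ 1240659 230000) (pr_scale 2423 575 h1))⟩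
noncomputable def bf2q2_fs : Sl2 bf2q2 := ⟨_, fun h1 h2 => (pr_norm (pr_case (pr_subr 231 200 h1) (pr_case (pr_subr 17 16 h1) (pr_add (pr_csub (enc_rat _ 1456 625) (pr_scale 831 625 h1)) (pr_cmul (enc_norm (bf2q2_3.enc h1.l h2)) (pr_norm (pr_csub (enc_rat _ 938 125) (pr_scale 938 125 h1))))) (pr_add (pr_csub (enc_rat _ 1995903 370000) (pr_scale 3898 925 h1)) (pr_cmul (enc_norm (bf2q2_3.enc h1.l h2)) (pr_norm (pr_csub (enc_rat _ 450147 37000) (pr_scale 440 37 h1)))))) (pr_case (pr_subr 127 100 h1) (pr_add (bf2q2_34_fs.snd h1 h2) (pr_cmul (enc_norm (bf2q2_3.enc h1.l h2)) (pr_norm (pr_subr 270594 2875 (pr_scale 1843 23 h1))))) (pr_add (bf2q2_34_fs.snd h1 h2) (pr_cmul (enc_norm (bf2q2_3.enc h1.l h2)) (pr_norm (pr_csub (enc_rat _ 77259 2875) (pr_scale 1741 115 h1))))))))⟩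
noncomputable def kf2q2_fs : Sl2 kf2q2 := ⟨_, fun h1 h2 => (pr_norm (pr_mul (cv2p_fs.snd h1) (bf2q2_fs.snd h1 h2)))⟩
noncomputable def bx2q2_fs : Sl2 bx2q2 := ⟨_, fun h1 h2 => (pr_norm (pr_case (pr_subr 231 200 h1) (pr_case (pr_subr 277 250 h1) (pr_case (pr_subr 17 16 h1) (pr_add (pr_csub (enc_rat _ 62 125) (pr_scale 62 125 h1)) (pr_cmul (enc_norm (bx2q2_3.enc h1.l h2)) (pr_norm (pr_csub (enc_rat _ 496 125) (pr_scale 496 125 h1))))) (pr_add (pr_csub (enc_rat _ 77929 91000) (pr_scale 76 91 h1)) (pr_cmul (enc_norm (bx2q2_3.enc h1.l h2)) (pr_norm (pr_subr 407193 91000 (pr_scale 362 91 h1)))))) (pr_case (pr_subr 577 500 h1) (pr_add (pr_csub (enc_rat _ 207799 57500) (pr_scale 1529 460 h1)) (pr_cmul (enc_norm (bx2q2_3.enc h1.l h2)) (pr_norm (pr_subr 88519 23000 (pr_scale 157 46 h1))))) (pr_add (pr_csub (enc_rat _ 37017 10000) (pr_scale 17 5 h1)) (pr_cmul (enc_norm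 (bx2q2_3.enc h1.l h2)) (pr_norm (pr_subr 788137 500 (pr_nat 1366 h1))))))) (pr_case (pr_subr 127 100 h1) (pr_case (pr_subr 1213 1000 h1) (pr_add (pr_subr 1148229 580000 (pr_scale 881 580 h1)) (pr_cmul (enc_norm (bx2q2_3.enc h1.l h2)) (pr_norm (pr_csub (enc_rat _ 752549 29000) (pr_scale 615 29 h1))))) (pr_add (pr_subr 1127449 570000 (pr_scale 173 114 h1)) (pr_cmul (enc_norm (bx2q2_3.enc h1.l h2)) (pr_norm (pr_csub (enc_rat _ 2519777 28500) (pr_scale 4144 57 h1)))))) (pr_case (pr_subr 166 125 h1) (pr_add (pr_subr 476983 290000 (pr_scale 182 145 h1)) (pr_cmul (enc_norm (bx2q2_3.enc h1.l h2)) (pr_norm (pr_subr 326347 29000 (pr_scale 335 58 h1))))) (pr_case (pr_subr 1443 1000 h1) (pr_add (pr_subr 378709 230000 (pr_scale 289 230 h1)) (pr_cmul (enc_norm (bx2q2_3.enc h1.l h2)) (pr_norm (pr_subr 3906013 115000 (pr_scale 2631 115 h1))))) (pr_add (pr_subr 156371 95000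 (pr_scale 358 285 h1)) (pr_cmul (enc_norm (bx2q2_3.enc h1.l h2)) (pr_norm (pr_subr 36412 2375 (pr_scale 568 57 h1))))))))))⟩
noncomputable def l2q2_fs : Sl2 l2q2 := ⟨_, fun h1 h2 => (pr_norm (pr_mul (cv2p_fs.snd h1) (bx2q2_fs.snd h1 h2)))⟩
noncomputable def dlg : Fn2 := ⟨_, _, fun h1 h2 => (kcg.enc (enc_norm (enc_sub (enc_scale 3 4 h1) (enc_half (c1g.enc h1)))) h2)⟩
noncomputable def kq02_6 : Fn2 := ⟨_, _, fun h1 h2 => (enc_scale 3887 500 h2)⟩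
noncomputable def kq02 : Fn2 := ⟨_, _, fun h1 h2 => (enc_norm (enc_add (enc_subr 19881451 10000000 (kq02_6.enc h1 h2)) (enc_mul (enc_norm (enc_sub (enc_rat _ 29881451 10000000) (kq02_6.enc h1 h2))) (yag.enc h1))))⟩
noncomputable def lq02 : Fn2 := ⟨_, _, fun h1 h2 => (enc_norm (enc_subr 40102897 40000000 (enc_scale 1989 2000 h2)))⟩
noncomputable def cq02 : Fn2 := ⟨_, _, fun h1 h2 => (enc_norm (enc_subr 42519 100000 (enc_scale 3 5 h2)))⟩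
noncomputable def pcE0 : Piece := ⟨Fn3.sc eng rsbq0, rlq0⟩
noncomputable def pcE1 : Piece := ⟨Fn3.sc eng rsbq1, rlq1⟩
noncomputable def pcE2 : Piece := ⟨Fn3.sc eng rsbq2, rlq2⟩
noncomputable def pcE3 : Piece := ⟨Fn3.sc eng rsbq3, rlq3⟩

end Pool.Agent.Strip051.G.I69_7273.Tab
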