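import Pool.Agent.Strip051.G.I69_7273.Tab
import Pool.Agent.Strip051.PB.C12G
import Pool.Agent.Strip051.PB.PairB

/-! # Slopes of the tables near the lattice heights (generated) -/

set_option linter.all false

namespace Pool.Agent.Strip051.G.I69_7273.Tab

open Pool.Agent.Strip051.PB

attribute [local irreducible] padd psub pneg pmul psq pinv psqrt psqrtg pabs pps pmax pmin pphi plam
  pcase phf pnat prat pscale pnorm pdc pnc pone ppos pnn Enc pbad pzero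

noncomputable def idf_s : Sl1 idf := ⟨fun _ _ D => D, fun h => h⟩

theorem cv1r_two {b : ℝ} (h : b = 2) : cv1r.v b = 0 := by
  have e : swg.v = swn := by funext y; simp [swg, swn]
  subst h
  simp only [cv1r, e, swn_two]
  push_cast
  ring
theorem cv2r_two {b : ℝ} (h : b = 2) : cv2r.v b = 0 := by
  have e : swg.v = swn := by funext y; simp [swg, swn]
  subst h
  simp only [cv2r, e, swn_two]
  push_cast
  ring
noncomputable def c1g_s : Sl1 c1g := ⟨_, fun h1 => (pr_sqrtgz (pr_csub (enc_pnc _ 1) (pr_scale 3 4 (pr_sq h1))))⟩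
noncomputable def kcg_6_s : Sl2 kcg_6 := ⟨_, fun h1 h2 => (pr_addc h1 (enc_rat _ 283 1000))⟩
noncomputable def kcg_9_s : Sl2 kcg_9 := ⟨_, fun h1 h2 => (pr_addc h1 (enc_rat _ 193 500))⟩
noncomputable def kcg_12_s : Sl2 kcg_12 := ⟨_, fun h1 h2 => (pr_addc h1 (enc_rat _ 7 16))⟩
noncomputable def kcg_13_s : Sl2 kcg_13 := ⟨_, fun h1 h2 => (pr_scale 11199 5000 h1)⟩
noncomputable def kcg_16_s : Sl2 kcg_16 := ⟨_, fun h1 h2 => (pr_scale 11217 1000 h1)⟩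
noncomputable def kcg_32_s : Sl2 kcg_32 := ⟨_, fun h1 h2 => (pr_scale 821 800 h1)⟩
noncomputable def kcg_37_s : Sl2 kcg_37 := ⟨_, fun h1 h2 => (pr_scale 11553 2000 h1)⟩
noncomputable def kcg_57_s : Sl2 kcg_57 := ⟨_, fun h1 h2 => (pr_addc h1 (enc_rat _ 67 200))⟩
noncomputable def kcg_58_s : Sl2 kcg_58 := ⟨_, fun h1 h2 => (pr_scale 41319 20000 h1)⟩
noncomputable def kcg_63_s : Sl2 kcg_63 := ⟨_, fun h1 h2 => (pr_scale 17609 2000 h1)⟩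
noncomputable def kcg_79_s : Sl2 kcg_79 := ⟨_, fun h1 h2 => (pr_scale 4441 20000 h1)⟩
noncomputable def kcg_83_s : Sl2 kcg_83 := ⟨_, fun h1 h2 => (pr_scale 41611 2000 h1)⟩
noncomputable def kcg_103_s : Sl2 kcg_103 := ⟨_, fun h1 h2 => (pr_addc h1 (enc_rat _ 9 50))⟩
noncomputable def kcg_106_s : Sl2 kcg_106 := ⟨_, fun h1 h2 => (pr_addc h1 (enc_rat _ 231 1000))⟩
noncomputable def kcg_107_s : Sl2 kcg_107 := ⟨_, fun h1 h2 => (pr_scale 33569 20000 h1)⟩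
noncomputable def kcg_111_s : Sl2 kcg_111 := ⟨_, fun h1 h2 => (pr_scale 2039 250 h1)⟩
noncomputable def kcg_125_s : Sl2 kcg_125 := ⟨_, fun h1 h2 => (pr_scale 50883 20000 h1)⟩
noncomputable def kcg_128_s : Sl2 kcg_128 := ⟨_, fun h1 h2 => (pr_scale 26321 2000 h1)⟩
noncomputable def kcg_146_s : Sl2 kcg_146 := ⟨_, fun h1 h2 => (pr_addc h1 (enc_rat _ 23 250))⟩
noncomputable def kcg_147_s : Sl2 kcg_147 := ⟨_, fun h1 h2 => (pr_scale 1117 625 h1)⟩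
noncomputable def kcg_151_s : Sl2 kcg_151 := ⟨_, fun h1 h2 => (pr_scale 8589 2000 h1)⟩
noncomputable def kcg_170_s : Sl2 kcg_170 := ⟨_, fun h1 h2 => (pr_scale 20401 10000 h1)⟩
noncomputable def kcg_174_s : Sl2 kcg_174 := ⟨_, fun h1 h2 => (pr_scale 15697 1000 h1)⟩
noncomputable def kcg_188_s : Sl2 kcg_188 := ⟨_, fun h1 h2 => (pr_scale 25209 10000 h1)⟩
noncomputable def kcg_191_s : Sl2 kcg_191 := ⟨_, fun h1 h2 => (pr_cmul (enc_norm (kcg_3.enc h1.l h2)) (pr_nd (pr_scale 3887 500 h1)))⟩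
noncomputable def kcg_198_s : Sl2 kcg_198 := ⟨_, fun h1 h2 => (pr_csub (enc_rat _ 283 1000) h1)⟩
noncomputable def kcg_199_s : Sl2 kcg_199 := ⟨_, fun h1 h2 => (pr_csub (enc_rat _ 193 500) h1)⟩
noncomputable def kcg_200_s : Sl2 kcg_200 := ⟨_, fun h1 h2 => (pr_csub (enc_rat _ 7 16) h1)⟩
noncomputable def kcg_220_s : Sl2 kcg_220 := ⟨_, fun h1 h2 => (pr_csub (enc_rat _ 67 200) h1)⟩
noncomputable def kcg_242_s : Sl2 kcg_242 := ⟨_, fun h1 h2 => (pr_csub (enc_rat _ 9 50) h1)⟩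
noncomputable def kcg_243_s : Sl2 kcg_243 := ⟨_, fun h1 h2 => (pr_csub (enc_rat _ 231 1000) h1)⟩
noncomputable def kcg_264_s : Sl2 kcg_264 := ⟨_, fun h1 h2 => (pr_csub (enc_rat _ 23 250) h1)⟩
noncomputable def kcg_s : Sl2 kcg := ⟨_, fun h1 h2 => (pr_norm (pr_case h1 (pr_case (kcg_6_s.snd h1 h2) (pr_case (kcg_9_s.snd h1 h2) (pr_case (kcg_12_s.snd h1 h2) (pr_add (pr_add (pr_addc (kcg_13_s.snd h1 h2) (enc_rat _ 4276299 8000000)) (pr_cmul (enc_norm (kcg_3.enc h1.l h2)) (pr_norm (pr_subr 28882569 4000000 (pr_neg (kcg_16_s.snd h1 h2)))))) (pr_cmul (enc_norm (kcg_24.enc h1.l h2)) (pr_norm (pr_mul (pr_norm (pr_addc h1 (enc_rat _ 1 2))) (pr_norm (pr_csub (enc_neg (enc_rat _ 7 16)) h1)))))) (pr_add (pr_add (pr_subr 1788719 2000000 (pr_neg (kcg_32_s.snd h1 h2))) (pr_cmul (enc_norm (kcg_3.enc h1.l h2)) (pr_norm (pr_subr 9680847 2000000 (pr_neg (kcg_37_s.snd h1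 h2)))))) (pr_cmul (enc_norm (kcg_49.enc h1.l h2)) (pr_norm (pr_mul (pr_norm (kcg_12_s.snd h1 h2)) (pr_norm (pr_csub (enc_neg (enc_rat _ 193 500)) h1))))))) (pr_case (kcg_57_s.snd h1 h2) (pr_add (pr_add (pr_subr 12956837 10000000 (pr_neg (kcg_58_s.snd h1 h2))) (pr_cmul (enc_norm (kcg_3.enc h1.l h2)) (pr_norm (pr_addc (kcg_63_s.snd h1 h2) (enc_rat _ 315137 400000))))) (pr_cmul (enc_norm (kcg_74.enc h1.l h2)) (pr_norm (pr_mul (pr_norm (kcg_9_s.snd h1 h2)) (pr_norm (pr_csub (enc_neg (enc_rat _ 67 200)) h1)))))) (pr_add (pr_add (pr_subr 5292037 10000000 (kcg_79_s.snd h1 h2)) (pr_cmul (enc_norm (kcg_3.enc h1.l h2)) (pr_norm (pr_addc (kcg_83_s.snd h1 h2) (enc_rat _ 1923271 400000))))) (pr_cmul (enc_norm (kcg_94.enc h1.l h2)) (pr_norm (pr_mul (pr_norm (kcg_57_s.snd h1 h2)) (pr_norm (pr_csub (enc_neg (enc_rat _ 283 1000)) h1)))))))) (pr_case (kcg_103_s.snd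 h1 h2) (pr_case (kcg_106_s.snd h1 h2) (pr_add (pr_add (pr_subr 46817 400000 (kcg_107_s.snd h1 h2)) (pr_cmul (enc_norm (kcg_3.enc h1.l h2)) (pr_norm (pr_addc (kcg_111_s.snd h1 h2) (enc_rat _ 1228369 1000000))))) (pr_cmul (enc_norm (kcg_120.enc h1.l h2)) (pr_norm (pr_mul (pr_norm (kcg_6_s.snd h1 h2)) (pr_norm (pr_csub (enc_neg (enc_rat _ 231 1000)) h1)))))) (pr_add (pr_add (pr_addc (kcg_125_s.snd h1 h2) (enc_rat _ 414671 5000000)) (pr_cmul (enc_norm (kcg_3.enc h1.l h2)) (pr_norm (pr_subr 1478297 400000 (pr_neg (kcg_128_s.snd h1 h2)))))) (pr_cmul (enc_norm (kcg_138.enc h1.l h2)) (pr_norm (pr_mul (pr_norm (kcg_106_s.snd h1 h2)) (pr_norm (pr_csub (enc_neg (enc_rat _ 9 50)) h1))))))) (pr_case (kcg_146_s.snd h1 h2) (pr_add (pr_add (pr_subr 33323 625000 (kcg_147_s.snd h1 h2)) (pr_cmul (enc_norm (kcg_3.enc h1.l h2)) (pr_norm (pr_subr 221537 400000 (kcg_151_s.snd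 h1 h2))))) (pr_cmul (enc_norm (kcg_162.enc h1.l h2)) (pr_norm (pr_mul (pr_norm (kcg_103_s.snd h1 h2)) (pr_norm (pr_csub (enc_neg (enc_rat _ 23 250)) h1)))))) (pr_case (pr_addc h1 (enc_rat _ 1 16)) (pr_add (pr_add (pr_subr 601 20000 (kcg_170_s.snd h1 h2)) (pr_cmul (enc_norm (kcg_3.enc h1.l h2)) (pr_norm (pr_addc (kcg_174_s.snd h1 h2) (enc_rat _ 7923 16000))))) (pr_cmul (enc_norm (kcg_183.enc h1.l h2)) (pr_norm (pr_mul (pr_norm (kcg_146_s.snd h1 h2)) (pr_norm (pr_csub (enc_neg (enc_rat _ 1 16)) h1)))))) (pr_add (kcg_188_s.snd h1 h2) (kcg_191_s.snd h1 h2)))))) (pr_neg (pr_case (kcg_198_s.snd h1 h2) (pr_case (kcg_199_s.snd h1 h2) (pr_case (kcg_200_s.snd h1 h2) (pr_add (pr_add (pr_csub (enc_rat _ 4276299 8000000) (kcg_13_s.snd h1 h2)) (pr_cmul (enc_norm (kcg_3.enc h1.l h2)) (pr_norm (pr_subr 28882569 4000000 (kcg_16_s.snd h1 h2))))) (pr_cmul (enc_norm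 (kcg_24.enc h1.l h2)) (pr_norm (pr_mul (pr_norm (pr_csub (enc_rat _ 1 2) h1)) (pr_norm (pr_subr 7 16 h1)))))) (pr_add (pr_add (pr_subr 1788719 2000000 (kcg_32_s.snd h1 h2)) (pr_cmul (enc_norm (kcg_3.enc h1.l h2)) (pr_norm (pr_subr 9680847 2000000 (kcg_37_s.snd h1 h2))))) (pr_cmul (enc_norm (kcg_49.enc h1.l h2)) (pr_norm (pr_mul (pr_norm (kcg_200_s.snd h1 h2)) (pr_norm (pr_subr 193 500 h1))))))) (pr_case (kcg_220_s.snd h1 h2) (pr_add (pr_add (pr_subr 12956837 10000000 (kcg_58_s.snd h1 h2)) (pr_cmul (enc_norm (kcg_3.enc h1.l h2)) (pr_norm (pr_csub (enc_rat _ 315137 400000) (kcg_63_s.snd h1 h2))))) (pr_cmul (enc_norm (kcg_74.enc h1.l h2)) (pr_norm (pr_mul (pr_norm (kcg_199_s.snd h1 h2)) (pr_norm (pr_subr 67 200 h1)))))) (pr_add (pr_add (pr_subr 5292037 10000000 (pr_neg (kcg_79_s.snd h1 h2))) (pr_cmul (enc_norm (kcg_3.enc h1.l h2)) (pr_norm (pr_csub (enc_rat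 _ 1923271 400000) (kcg_83_s.snd h1 h2))))) (pr_cmul (enc_norm (kcg_94.enc h1.l h2)) (pr_norm (pr_mul (pr_norm (kcg_220_s.snd h1 h2)) (pr_norm (pr_subr 283 1000 h1)))))))) (pr_case (kcg_242_s.snd h1 h2) (pr_case (kcg_243_s.snd h1 h2) (pr_add (pr_add (pr_subr 46817 400000 (pr_neg (kcg_107_s.snd h1 h2))) (pr_cmul (enc_norm (kcg_3.enc h1.l h2)) (pr_norm (pr_csub (enc_rat _ 1228369 1000000) (kcg_111_s.snd h1 h2))))) (pr_cmul (enc_norm (kcg_120.enc h1.l h2)) (pr_norm (pr_mul (pr_norm (kcg_198_s.snd h1 h2)) (pr_norm (pr_subr 231 1000 h1)))))) (pr_add (pr_add (pr_csub (enc_rat _ 414671 5000000) (kcg_125_s.snd h1 h2)) (pr_cmul (enc_norm (kcg_3.enc h1.l h2)) (pr_norm (pr_subr 1478297 400000 (kcg_128_s.snd h1 h2))))) (pr_cmul (enc_norm (kcg_138.enc h1.l h2)) (pr_norm (pr_mul (pr_norm (kcg_243_s.snd h1 h2)) (pr_norm (pr_subr 9 50 h1))))))) (pr_case (kcg_264_s.snd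 h1 h2) (pr_add (pr_add (pr_subr 33323 625000 (pr_neg (kcg_147_s.snd h1 h2))) (pr_cmul (enc_norm (kcg_3.enc h1.l h2)) (pr_norm (pr_subr 221537 400000 (pr_neg (kcg_151_s.snd h1 h2)))))) (pr_cmul (enc_norm (kcg_162.enc h1.l h2)) (pr_norm (pr_mul (pr_norm (kcg_242_s.snd h1 h2)) (pr_norm (pr_subr 23 250 h1)))))) (pr_case (pr_csub (enc_rat _ 1 16) h1) (pr_add (pr_add (pr_subr 601 20000 (pr_neg (kcg_170_s.snd h1 h2))) (pr_cmul (enc_norm (kcg_3.enc h1.l h2)) (pr_norm (pr_csub (enc_rat _ 7923 16000) (kcg_174_s.snd h1 h2))))) (pr_cmul (enc_norm (kcg_183.enc h1.l h2)) (pr_norm (pr_mul (pr_norm (kcg_264_s.snd h1 h2)) (pr_norm (pr_subr 1 16 h1)))))) (pr_sub (pr_neg (kcg_188_s.snd h1 h2)) (kcg_191_s.snd h1 h2)))))))))⟩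
noncomputable def kf0q0_9_s : Sl2 kf0q0_9 := ⟨_, fun h1 h2 => (pr_scale 3 2 h1)⟩
noncomputable def kf0q0_12_s : Sl2 kf0q0_12 := ⟨_, fun h1 h2 => (pr_cadd (enc_pnc _ 1) (c1g_s.snd h1))⟩
noncomputable def kf0q0_s : Sl2 kf0q0 := ⟨_, fun h1 h2 => (pr_norm (pr_add (pr_mul (pr_norm (pr_mul (pr_norm (pr_sub (c1g_s.snd h1) (kf0q0_9_s.snd h1 h2))) (pr_norm (kf0q0_12_s.snd h1 h2)))) (pr_nd (pr_inv (pr_sub (kf0q0_12_s.snd h1 h2) (kf0q0_9_s.snd h1 h2))))) (pr_mul h1 (kcg_s.snd (pr_norm (pr_sub (pr_scale 3 4 h1) (pr_half (c1g_s.snd h1)))) h2))))⟩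
noncomputable def txg_6_s : Sl3 txg_6 := ⟨_, fun h1 h2 h3 => (pr_add h1 (pr_half h2))⟩
noncomputable def txg_26_s : Sl3 txg_26 := ⟨_, fun h1 h2 h3 => (pr_addc h1 (enc_rat _ 11 50))⟩
noncomputable def txg_29_s : Sl3 txg_29 := ⟨_, fun h1 h2 h3 => (pr_addc h1 (enc_rat _ 19 50))⟩
noncomputable def txg_32_s : Sl3 txg_32 := ⟨_, fun h1 h2 h3 => (pr_addc h1 (enc_rat _ 23 50))⟩
noncomputable def txg_57_s : Sl3 txg_57 := ⟨_, fun h1 h2 h3 => (pr_addc h1 (enc_rat _ 21 50))⟩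
noncomputable def txg_101_s : Sl3 txg_101 := ⟨_, fun h1 h2 h3 => (pr_addc h1 (enc_rat _ 3 10))⟩
noncomputable def txg_104_s : Sl3 txg_104 := ⟨_, fun h1 h2 h3 => (pr_addc h1 (enc_rat _ 17 50))⟩
noncomputable def txg_142_s : Sl3 txg_142 := ⟨_, fun h1 h2 h3 => (pr_addc h1 (enc_rat _ 13 50))⟩
noncomputable def txg_184_s : Sl3 txg_184 := ⟨_, fun h1 h2 h3 => (pr_addc h1 (enc_rat _ 3 50))⟩
noncomputable def txg_187_s : Sl3 txg_187 := ⟨_, fun h1 h2 h3 => (pr_addc h1 (enc_rat _ 7 50))⟩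
noncomputable def txg_190_s : Sl3 txg_190 := ⟨_, fun h1 h2 h3 => (pr_addc h1 (enc_rat _ 9 50))⟩
noncomputable def txg_227_s : Sl3 txg_227 := ⟨_, fun h1 h2 h3 => (pr_addc h1 (enc_rat _ 1 10))⟩
noncomputable def txg_268_s : Sl3 txg_268 := ⟨_, fun h1 h2 h3 => (pr_subr 3 100 h1)⟩
noncomputable def txg_270_s : Sl3 txg_270 := ⟨_, fun h1 h2 h3 => (pr_addc h1 (enc_rat _ 3 100))⟩
noncomputable def txg_308_s : Sl3 txg_308 := ⟨_, fun h1 h2 h3 => (pr_subr 3 50 h1)⟩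
noncomputable def txg_362_s : Sl3 txg_362 := ⟨_, fun h1 h2 h3 => (pr_subr 37 206 h1)⟩
noncomputable def txg_363_s : Sl3 txg_363 := ⟨_, fun h1 h2 h3 => (pr_subr 17 50 h1)⟩
noncomputable def txg_364_s : Sl3 txg_364 := ⟨_, fun h1 h2 h3 => (pr_subr 13 50 h1)⟩
noncomputable def txg_365_s : Sl3 txg_365 := ⟨_, fun h1 h2 h3 => (pr_subr 11 50 h1)⟩
noncomputable def txg_416_s : Sl3 txg_416 := ⟨_, fun h1 h2 h3 => (pr_subr 3 10 h1)⟩
noncomputable def txg_456_s : Sl3 txg_456 := ⟨_, fun h1 h2 h3 => (pr_subr 21 50 h1)⟩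
noncomputable def txg_457_s : Sl3 txg_457 := ⟨_, fun h1 h2 h3 => (pr_subr 19 50 h1)⟩
noncomputable def txg_498_s : Sl3 txg_498 := ⟨_, fun h1 h2 h3 => (pr_subr 23 50 h1)⟩
noncomputable def txg_s : Sl3 txg := ⟨_, fun h1 h2 h3 => (pr_case (pr_subr 61 661 h1) (pr_case (txg_26_s.snd h1 h2 h3) (pr_case (txg_29_s.snd h1 h2 h3) (pr_case (txg_32_s.snd h1 h2 h3) (pr_add (pr_add (pr_addc (pr_scale 659 8000 h1) (enc_rat _ 659 16000)) (pr_cmul (enc_norm (txg_4.enc h1.l h2.l h3)) (pr_norm (pr_subr 5527 80000 (pr_neg (pr_scale 5527 40000 h1)))))) (pr_cmul (enc_norm (enc_subr 8391 12500 (enc_scale 39909 1250 (txg_4.enc h1.l h2.l h3)))) (pr_norm (pr_mul (pr_norm (pr_addc h1 (enc_rat _ 1 2))) (pr_norm (pr_csub (enc_neg (enc_rat _ 23 50)) h1)))))) (pr_case (txg_57_s.snd h1 h2 h3) (pr_add (pr_add (pr_addc (pr_scale 54837 400000 h1) (enc_rat _ 1327151 20000000)) (pr_cmul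 (enc_norm (txg_4.enc h1.l h2.l h3)) (pr_norm (pr_subr 48073 100000 (pr_neg (pr_scale 20661 20000 h1)))))) (pr_cmul (enc_norm (enc_subr 69659 100000 (enc_neg (enc_scale 95559 10000 (txg_4.enc h1.l h2.l h3))))) (pr_norm (pr_mul (pr_norm (txg_32_s.snd h1 h2 h3)) (pr_norm (pr_csub (enc_neg (enc_rat _ 21 50)) h1)))))) (pr_add (pr_add (pr_addc (pr_scale 19161 400000 h1) (enc_rat _ 115591 4000000)) (pr_cmul (enc_norm (txg_4.enc h1.l h2.l h3)) (pr_norm (pr_addc (pr_scale 17849 20000 h1) (enc_rat _ 16399 50000))))) (pr_cmul (enc_norm (enc_sub (enc_rat _ 73157 25000) (enc_scale 385813 10000 (txg_4.enc h1.l h2.l h3)))) (pr_norm (pr_mul (pr_norm (txg_57_s.snd h1 h2 h3)) (pr_norm (pr_csub (enc_neg (enc_rat _ 19 50)) h1)))))))) (pr_case (txg_101_s.snd h1 h2 h3) (pr_case (txg_104_s.snd h1 h2 h3) (pr_add (pr_add (pr_addc (pr_scale 4179 80000 h1) (enc_rat _ 610901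 20000000)) (pr_cmul (enc_norm (txg_4.enc h1.l h2.l h3)) (pr_norm (pr_addc (pr_scale 88491 40000 h1) (enc_rat _ 1659027 2000000))))) (pr_cmul (enc_norm (enc_subr 303459 100000 (enc_scale 3491 625 (txg_4.enc h1.l h2.l h3)))) (pr_norm (pr_mul (pr_norm (txg_29_s.snd h1 h2 h3)) (pr_norm (pr_csub (enc_neg (enc_rat _ 17 50)) h1)))))) (pr_add (pr_add (pr_addc (pr_scale 37967 200000 h1) (enc_rat _ 386641 5000000)) (pr_cmul (enc_norm (txg_4.enc h1.l h2.l h3)) (pr_norm (pr_addc (pr_scale 75843 40000 h1) (enc_rat _ 1444011 2000000))))) (pr_cmul (enc_norm (enc_subr 20267 50000 (enc_scale 11597 5000 (txg_4.enc h1.l h2.l h3)))) (pr_norm (pr_mul (pr_norm (txg_104_s.snd h1 h2 h3)) (pr_norm (pr_csub (enc_neg (enc_rat _ 3 10)) h1))))))) (pr_case (txg_142_s.snd h1 h2 h3) (pr_add (pr_add (pr_addc (pr_scale 117111 400000 h1) (enc_rat _ 2164219 20000000)) (pr_cmul (enc_norm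 (txg_4.enc h1.l h2.l h3)) (pr_norm (pr_addc (pr_scale 7093 10000 h1) (enc_rat _ 365973 1000000))))) (pr_cmul (enc_norm (enc_subr 54207 25000 (enc_scale 547 20 (txg_4.enc h1.l h2.l h3)))) (pr_norm (pr_mul (pr_norm (txg_101_s.snd h1 h2 h3)) (pr_norm (pr_csub (enc_neg (enc_rat _ 13 50)) h1)))))) (pr_add (pr_add (pr_addc (pr_scale 47739 100000 h1) (enc_rat _ 781051 5000000)) (pr_cmul (enc_norm (txg_4.enc h1.l h2.l h3)) (pr_norm (pr_addc (pr_scale 36363 40000 h1) (enc_rat _ 835829 2000000))))) (pr_cmul (enc_norm (enc_subr 244697 100000 (enc_neg (enc_scale 323441 10000 (txg_4.enc h1.l h2.l h3))))) (pr_norm (pr_mul (pr_norm (txg_142_s.snd h1 h2 h3)) (pr_norm (pr_csub (enc_neg (enc_rat _ 11 50)) h1))))))))) (pr_case (txg_184_s.snd h1 h2 h3) (pr_case (txg_187_s.snd h1 h2 h3) (pr_case (txg_190_s.snd h1 h2 h3) (pr_add (pr_add (pr_addc (pr_scale 181329 400000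 h1) (enc_rat _ 3018307 20000000)) (pr_cmul (enc_norm (txg_4.enc h1.l h2.l h3)) (pr_norm (pr_addc (pr_scale 8177 8000 h1) (enc_rat _ 885571 2000000))))) (pr_cmul (enc_norm (enc_add (enc_scale 73793 2500 (txg_4.enc h1.l h2.l h3)) (enc_rat _ 304859 100000))) (pr_norm (pr_mul (pr_norm (txg_26_s.snd h1 h2 h3)) (pr_norm (pr_csub (enc_neg (enc_rat _ 9 50)) h1)))))) (pr_add (pr_add (pr_addc (pr_scale 120157 400000 h1) (enc_rat _ 2467759 20000000)) (pr_cmul (enc_norm (txg_4.enc h1.l h2.l h3)) (pr_norm (pr_csub (enc_rat _ 43139 250000) (pr_scale 9583 20000 h1))))) (pr_cmul (enc_norm (enc_add (enc_scale 80147 10000 (txg_4.enc h1.l h2.l h3)) (enc_rat _ 2421 3125))) (pr_norm (pr_mul (pr_norm (txg_190_s.snd h1 h2 h3)) (pr_norm (pr_csub (enc_neg (enc_rat _ 7 50)) h1))))))) (pr_case (txg_227_s.snd h1 h2 h3) (pr_add (pr_add (pr_addc (pr_scale 87571 400000 h1) (enc_rat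 _ 2239657 20000000)) (pr_cmul (enc_norm (txg_4.enc h1.l h2.l h3)) (pr_norm (pr_csub (enc_rat _ 50203 1000000) (pr_scale 13531 10000 h1))))) (pr_cmul (enc_norm (enc_add (enc_scale 2767 200 (txg_4.enc h1.l h2.l h3)) (enc_rat _ 15773 12500))) (pr_norm (pr_mul (pr_norm (txg_187_s.snd h1 h2 h3)) (pr_norm (pr_csub (enc_neg (enc_rat _ 1 10)) h1)))))) (pr_add (pr_add (pr_addc (pr_scale 18011 100000 h1) (enc_rat _ 1081011 10000000)) (pr_cmul (enc_norm (txg_4.enc h1.l h2.l h3)) (pr_norm (pr_csub (enc_rat _ 53959 500000) (pr_scale 15519 20000 h1))))) (pr_cmul (enc_norm (enc_subr 14569 50000 (enc_neg (enc_scale 35331 1250 (txg_4.enc h1.l h2.l h3))))) (pr_norm (pr_mul (pr_norm (txg_227_s.snd h1 h2 h3)) (pr_norm (pr_csub (enc_neg (enc_rat _ 3 50)) h1)))))))) (pr_case (txg_268_s.snd h1 h2 h3) (pr_case (txg_270_s.snd h1 h2 h3) (pr_add (pr_add (pr_addc (pr_scale 5753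 30000 h1) (enc_rat _ 217601 2000000)) (pr_cmul (enc_norm (txg_4.enc h1.l h2.l h3)) (pr_norm (pr_csub (enc_rat _ 145301 1000000) (pr_scale 1529 10000 h1))))) (pr_cmul (enc_norm (enc_add (enc_scale 10574 625 (txg_4.enc h1.l h2.l h3)) (enc_rat _ 1 50000))) (pr_norm (pr_mul (pr_norm (txg_184_s.snd h1 h2 h3)) (pr_norm (pr_csub (enc_neg (enc_rat _ 3 100)) h1)))))) (pr_add (pr_add (pr_addc (pr_scale 14891 100000 h1) (enc_rat _ 268787 2500000)) (pr_cmul (enc_norm (txg_4.enc h1.l h2.l h3)) (pr_norm (pr_csub (enc_rat _ 269941 2000000) (pr_scale 1989 4000 h1))))) (pr_cmul (enc_norm (enc_sub (enc_rat _ 35711 50000) (enc_scale 13599 5000 (txg_4.enc h1.l h2.l h3)))) (pr_norm (pr_mul (pr_norm (txg_270_s.snd h1 h2 h3)) (pr_norm (pr_csub (enc_rat _ 3 100) h1))))))) (pr_case (txg_308_s.snd h1 h2 h3) (pr_add (pr_add (pr_addc (pr_scale 5569 50000 h1) (enc_rat _ 1086407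 10000000)) (pr_cmul (enc_norm (txg_4.enc h1.l h2.l h3)) (pr_norm (pr_csub (enc_rat _ 29329 200000) (pr_scale 554 625 h1))))) (pr_cmul (enc_norm (enc_subr 4433 25000 (enc_scale 36823 2000 (txg_4.enc h1.l h2.l h3)))) (pr_norm (pr_mul (pr_norm (txg_268_s.snd h1 h2 h3)) (pr_norm (pr_csub (enc_rat _ 3 50) h1)))))) (pr_add (pr_add (pr_add (pr_addc (pr_scale 86520703141577311267157 770386753317500000000000 h1) (enc_rat _ 4182622727885803628698529 38519337665875000000000000)) (pr_cmul (enc_norm (txg_4.enc h1.l h2.l h3)) (pr_norm (pr_csub (enc_rat _ 23810131221192163028167 192596688329375000000000) (pr_scale 1936617377746815384389 3851933766587500000000 h1))))) (pr_cmul (txg_340.enc h1.l h2.l h3) (pr_norm (pr_subr 704594924105751 1324416781250000 (pr_scale 234864974701917 26488335625000 h1))))) (pr_cmul (enc_norm (enc_add (enc_mul (enc_norm (enc_subr 289923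 10000 (enc_neg (enc_scale 68661 250 (txg_4.enc h1.l h2.l h3))))) (enc_norm (txg_4.enc h1.l h2.l h3))) (enc_rat _ 1359 10000))) (pr_norm (pr_mul (pr_norm (txg_308_s.snd h1 h2 h3)) (pr_norm (pr_csub (enc_rat _ 61 661) h1)))))))))) (pr_case (txg_362_s.snd h1 h2 h3) (pr_sub (pr_mul (pr_norm (pr_csub (enc_pnc _ 1) h2)) (pr_norm (pr_subn 1 (pr_nat 2 h2)))) (pr_mul (pr_norm (pr_nat 2 (pr_subc (pr_scale 4 3 (txg_6_s.snd h1 h2 h3)) h3))) (pr_norm (pr_mul (pr_norm (pr_subn 1 (pr_add (pr_scale 2 3 (txg_6_s.snd h1 h2 h3)) h2))) (kcg_s.snd h1 h3))))) (pr_case (txg_363_s.snd h1 h2 h3) (pr_case (txg_364_s.snd h1 h2 h3) (pr_case (txg_365_s.snd h1 h2 h3) (pr_add (pr_add (pr_add (pr_csub (enc_rat _ 141003113924147942507 887840687500000000000) (pr_scale 3763692510262881137 17756813750000000000 h1)) (pr_cmul (enc_norm (txg_4.enc h1.l h2.l h3)) (pr_norm (pr_csub (enc_rat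 _ 48654956969364136179 284109020000000000000) (pr_scale 2645481940073103289 5682180400000000000 h1))))) (pr_cmul (txg_340.enc h1.l h2.l h3) (pr_norm (pr_csub (enc_rat _ 272159474474041 137917000000000) (pr_scale 24741770406731 2758340000000 h1))))) (pr_cmul (enc_norm (enc_add (enc_mul (enc_norm (enc_sub (enc_rat _ 171001 10000) (enc_scale 222089 1000 (txg_4.enc h1.l h2.l h3)))) (enc_norm (txg_4.enc h1.l h2.l h3))) (enc_rat _ 347263 100000))) (pr_norm (pr_mul (pr_norm (txg_362_s.snd h1 h2 h3)) (pr_norm (pr_csub (enc_rat _ 11 50) h1)))))) (pr_add (pr_add (pr_csub (enc_rat _ 3796099 20000000) (pr_scale 141127 400000 h1)) (pr_cmul (enc_norm (txg_4.enc h1.l h2.l h3)) (pr_norm (pr_csub (enc_rat _ 60869 500000) (pr_scale 481 2000 h1))))) (pr_cmul (enc_norm (enc_sub (enc_rat _ 1509 100000) (enc_scale 228927 10000 (txg_4.enc h1.l h2.l h3)))) (pr_norm (pr_mul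 (pr_norm (txg_365_s.snd h1 h2 h3)) (pr_norm (pr_csub (enc_rat _ 13 50) h1))))))) (pr_case (txg_416_s.snd h1 h2 h3) (pr_add (pr_add (pr_csub (enc_rat _ 951303 5000000) (pr_scale 35457 100000 h1)) (pr_cmul (enc_norm (txg_4.enc h1.l h2.l h3)) (pr_norm (pr_addc (pr_scale 1713 20000 h1) (enc_rat _ 36939 1000000))))) (pr_cmul (enc_norm (enc_add (enc_scale 18423 1250 (txg_4.enc h1.l h2.l h3)) (enc_rat _ 1439 50000))) (pr_norm (pr_mul (pr_norm (txg_364_s.snd h1 h2 h3)) (pr_norm (pr_csub (enc_rat _ 3 10) h1)))))) (pr_add (pr_add (pr_csub (enc_rat _ 4206477 20000000) (pr_scale 168579 400000 h1)) (pr_cmul (enc_norm (txg_4.enc h1.l h2.l h3)) (pr_norm (pr_csub (enc_rat _ 229953 2000000) (pr_scale 6979 40000 h1))))) (pr_cmul (enc_norm (enc_sub (enc_rat _ 164309 100000) (enc_scale 82347 10000 (txg_4.enc h1.l h2.l h3)))) (pr_norm (pr_mul (pr_norm (txg_416_s.snd h1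 h2 h3)) (pr_norm (pr_csub (enc_rat _ 17 50) h1)))))))) (pr_case (txg_456_s.snd h1 h2 h3) (pr_case (txg_457_s.snd h1 h2 h3) (pr_add (pr_add (pr_csub (enc_rat _ 1057497 5000000) (pr_scale 84981 200000 h1)) (pr_cmul (enc_norm (txg_4.enc h1.l h2.l h3)) (pr_norm (pr_csub (enc_rat _ 196259 2000000) (pr_scale 4997 40000 h1))))) (pr_cmul (enc_norm (enc_subr 77831 50000 (enc_scale 69959 10000 (txg_4.enc h1.l h2.l h3)))) (pr_norm (pr_mul (pr_norm (txg_363_s.snd h1 h2 h3)) (pr_norm (pr_csub (enc_rat _ 19 50) h1)))))) (pr_add (pr_add (pr_csub (enc_rat _ 2073251 10000000) (pr_scale 2587 6250 h1)) (pr_cmul (enc_norm (txg_4.enc h1.l h2.l h3)) (pr_norm (pr_csub (enc_rat _ 50981 1000000) (pr_scale 17 20000 h1))))) (pr_cmul (enc_norm (enc_sub (enc_rat _ 641 500) (enc_scale 12623 1250 (txg_4.enc h1.l h2.l h3)))) (pr_norm (pr_mul (pr_norm (txg_457_s.snd h1 h2 h3)) (pr_norm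 (pr_csub (enc_rat _ 21 50) h1))))))) (pr_case (txg_498_s.snd h1 h2 h3) (pr_add (pr_add (pr_csub (enc_rat _ 2170271 10000000) (pr_scale 21851 50000 h1)) (pr_cmul (enc_norm (txg_4.enc h1.l h2.l h3)) (pr_norm (pr_subr 34027 1000000 (pr_scale 4031 20000 h1))))) (pr_cmul (enc_norm (enc_subr 1409 2000 (enc_scale 12597 2500 (txg_4.enc h1.l h2.l h3)))) (pr_norm (pr_mul (pr_norm (txg_456_s.snd h1 h2 h3)) (pr_norm (pr_csub (enc_rat _ 23 50) h1)))))) (pr_add (pr_add (pr_csub (enc_rat _ 159979 800000) (pr_scale 159979 400000 h1)) (pr_cmul (enc_norm (txg_4.enc h1.l h2.l h3)) (pr_norm (pr_csub (enc_rat _ 29343 40000) (pr_scale 29343 20000 h1))))) (pr_cmul (enc_norm (enc_subr 22231 100000 (enc_scale 91697 2500 (txg_4.enc h1.l h2.l h3)))) (pr_norm (pr_mul (pr_norm (txg_498_s.snd h1 h2 h3)) (pr_norm (pr_csub (enc_rat _ 1 2) h1)))))))))))⟩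
noncomputable def l0q0_s : Sl2 l0q0 := ⟨_, fun h1 h2 => (pr_norm (txg_s.snd (pr_norm (pr_sub (pr_scale 3 4 h1) (pr_half (c1g_s.snd h1)))) (pr_nd (c1g_s.snd h1)) h2))⟩
noncomputable def kc0q0_8_s : Sl2 kc0q0_8 := ⟨_, fun h1 h2 => (pr_sub (pr_scale 3 4 h1) (pr_half (c1g_s.snd h1)))⟩
noncomputable def kc0q0_s : Sl2 kc0q0 := ⟨_, fun h1 h2 => (pr_norm (pr_case (pr_addc (kc0q0_8_s.snd h1 h2) (enc_rat _ 167 1000)) (pr_case (pr_addc (kc0q0_8_s.snd h1 h2) (enc_rat _ 333 1000)) (pr_add (pr_addc (pr_scale 848 835 (kc0q0_8_s.snd h1 h2)) (enc_rat _ 424 835)) (pr_cmul (enc_norm (kc0q0_3.enc h1.l h2)) (pr_norm (pr_addc (pr_scale 9050 167 (kc0q0_8_s.snd h1 h2)) (enc_rat _ 4525 167))))) (pr_add (pr_addc (pr_scale 22623 830 (kc0q0_8_s.snd h1 h2)) (enc_rat _ 7674227 830000)) (pr_cmul (enc_norm (kc0q0_3.enc h1.l h2)) (pr_norm (pr_subr 7199989 166000 (pr_neg (pr_scale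 26133 166 (kc0q0_8_s.snd h1 h2)))))))) (pr_case (kc0q0_8_s.snd h1 h2) (pr_add (pr_csub (enc_rat _ 12523 5000) (pr_scale 10948 835 (kc0q0_8_s.snd h1 h2))) (pr_cmul (enc_norm (kc0q0_3.enc h1.l h2)) (pr_norm (pr_subr 727 100 (pr_scale 9813 167 (kc0q0_8_s.snd h1 h2)))))) (pr_add (pr_csub (enc_rat _ 12523 5000) (pr_scale 5311340725013 610000000000 (kc0q0_8_s.snd h1 h2))) (pr_cmul (enc_norm (kc0q0_3.enc h1.l h2)) (pr_norm (pr_subr 727 100 (pr_scale 32840964092863 610000000000 (kc0q0_8_s.snd h1 h2)))))))))⟩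
noncomputable def kf0q1_10_s : Sl2 kf0q1_10 := ⟨_, fun h1 h2 => (pr_scale 3 2 h1)⟩
noncomputable def kf0q1_s : Sl2 kf0q1 := ⟨_, fun h1 h2 => (pr_norm (pr_add (pr_mul (pr_norm (pr_mul (pr_norm (pr_cadd (enc_pnc _ 1) (pr_nat 2 (c1g_s.snd h1)))) (pr_norm (pr_sub (kf0q1_10_s.snd h1 h2) (c1g_s.snd h1))))) (pr_nd (pr_inv (pr_nat 2 (pr_sub (pr_cadd (enc_pnc _ 1) (kf0q1_10_s.snd h1 h2)) (c1g_s.snd h1)))))) (pr_mul (pr_norm (pr_subn 1 h1)) (kcg_s.snd (pr_norm (pr_sub (pr_scale 3 4 h1) (pr_half (c1g_s.snd h1)))) h2))))⟩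
noncomputable def l0q1_s : Sl2 l0q1 := ⟨_, fun h1 h2 => (pr_norm (txg_s.snd (pr_norm (pr_sub (pr_scale 3 4 h1) (pr_half (c1g_s.snd h1)))) (pr_nd (c1g_s.snd h1)) h2))⟩
noncomputable def gsg_s : Sl1 gsg := ⟨_, fun h1 => (pr_sqrt (pr_csub (enc_pnc _ 1) (pr_scale 3 4 (pr_sq h1))))⟩
noncomputable def gug_s : Sl1 gug := ⟨_, fun h1 => (pr_norm (pr_add (pr_scale 3 4 h1) (pr_scale 3 2 (pr_csub (enc_pnc _ 1) (gsg_s.snd h1)))))⟩
noncomputable def kc0q1_9_s : Sl2 kc0q1_9 := ⟨_, fun h1 h2 => (pr_sub (pr_scale 3 4 h1) (pr_half (c1g_s.snd h1)))⟩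
noncomputable def kc0q1_s : Sl2 kc0q1 := ⟨_, fun h1 h2 => (pr_norm (pr_case (pr_subr 61 661 (kc0q1_9_s.snd h1 h2)) (pr_case (pr_addc (kc0q1_9_s.snd h1 h2) (enc_rat _ 167 1000)) (pr_case (pr_addc (kc0q1_9_s.snd h1 h2) (enc_rat _ 333 1000)) (pr_add (pr_addc (pr_scale 848 835 (kc0q1_9_s.snd h1 h2)) (enc_rat _ 424 835)) (pr_cmul (enc_norm (kc0q1_3.enc h1.l h2)) (pr_norm (pr_addc (pr_scale 9050 167 (kc0q1_9_s.snd h1 h2)) (enc_rat _ 4525 167))))) (pr_add (pr_addc (pr_scale 22623 830 (kc0q1_9_s.snd h1 h2)) (enc_rat _ 7674227 830000)) (pr_cmul (enc_norm (kc0q1_3.enc h1.l h2)) (pr_norm (pr_subr 7199989 166000 (pr_neg (pr_scale 26133 166 (kc0q1_9_s.snd h1 h2)))))))) (pr_case (kc0q1_9_s.snd h1 h2) (pr_add (pr_csub (enc_rat _ 12523 5000) (pr_scale 10948 835 (kc0q1_9_s.snd h1 h2))) (pr_cmul (enc_norm (kc0q1_3.enc h1.l h2)) (pr_norm (pr_subr 727 100 (pr_scale 9813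 167 (kc0q1_9_s.snd h1 h2)))))) (pr_add (pr_csub (enc_rat _ 12523 5000) (pr_scale 5311340725013 610000000000 (kc0q1_9_s.snd h1 h2))) (pr_cmul (enc_norm (kc0q1_3.enc h1.l h2)) (pr_norm (pr_subr 727 100 (pr_scale 32840964092863 610000000000 (kc0q1_9_s.snd h1 h2)))))))) (pr_case (pr_subr 37 206 (kc0q1_9_s.snd h1 h2)) (pr_sub (pr_add (pr_cadd (enc_rat _ 3 4) (pr_scale 3 2 h1)) (pr_scale 3 4 (pr_mul (pr_norm (pr_mul h1 (pr_nd (pr_inv (c1g_s.snd h1))))) (gug_s.snd h1)))) (pr_mul (kcg_s.snd (pr_norm (kc0q1_9_s.snd h1 h2)) h2) (pr_norm (pr_add (gug_s.snd h1) (pr_nat 2 (c1g_s.snd h1)))))) (pr_case (pr_subr 333 1000 (kc0q1_9_s.snd h1 h2)) (pr_add (pr_csub (enc_rat _ 554809028729 152500000000) (pr_scale 63004392081 5642500000 (kc0q1_9_s.snd h1 h2))) (pr_cmul (enc_norm (kc0q1_3.enc h1.l h2)) (pr_norm (pr_subr 32439841762753 2135000000000 (pr_scale 5251460751417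 78995000000 (kc0q1_9_s.snd h1 h2)))))) (pr_add (pr_subr 401 1670 (pr_scale 401 835 (kc0q1_9_s.snd h1 h2))) (pr_cmul (enc_norm (kc0q1_3.enc h1.l h2)) (pr_norm (pr_csub (enc_rat _ 6943 334) (pr_scale 6943 167 (kc0q1_9_s.snd h1 h2))))))))))⟩
noncomputable def yag_s : Sl1 yag := ⟨_, fun h1 => (pr_sqrt (pr_scale 4 3 (pr_csub (enc_pnc _ 1) (pr_sq h1))))⟩
noncomputable def kfc02_s : Sl2 kfc02 := ⟨_, fun h1 h2 => (pr_norm (pr_add h1 (pr_mul (pr_norm (pr_subn 1 (yag_s.snd h1))) (kcg_s.snd (pr_nd (pr_neg h1)) h2))))⟩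
noncomputable def lc02_7_s : Sl2 lc02_7 := ⟨_, fun h1 h2 => (pr_scale 3 4 (yag_s.snd h1))⟩
noncomputable def lc02_8_s : Sl2 lc02_8 := ⟨_, fun h1 h2 => (pr_half h1)⟩
noncomputable def lc02_s : Sl2 lc02 := ⟨_, fun h1 h2 => (pr_norm (pr_sub (txg_s.snd (pr_nd (pr_neg h1)) (pr_norm (pr_add (lc02_7_s.snd h1 h2) (lc02_8_s.snd h1 h2))) h2) (txg_s.snd h1 (pr_norm (pr_sub (lc02_7_s.snd h1 h2) (lc02_8_s.snd h1 h2))) h2)))⟩
noncomputable def kcc02_s : Sl2 kcc02 := ⟨_, fun h1 h2 => (pr_norm (pr_case (pr_subr 3 100 h1) (pr_cmul (enc_norm (kcc02_4.enc h1.l h2)) (pr_nd (pr_scale 3 5 h1))) (pr_case (pr_subr 53 200 h1) (pr_cmul (enc_norm (kcc02_4.enc h1.l h2)) (pr_norm (pr_csub (enc_rat _ 489 23500) (pr_scale 22 235 h1)))) (pr_cmul (enc_norm (kcc02_4.enc h1.l h2)) (pr_norm (pr_subr 2 235 (pr_scale 4 235 h1)))))))⟩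
noncomputable def swg_s : Sl1 swg := ⟨_, fun h1 => (pr_sqrt (pr_csub (enc_pnc _ 1) (pr_scale 3 4 (pr_sq (pr_norm (pr_subn 1 h1))))))⟩
noncomputable def cv1m_s : Sl1 cv1m := ⟨_, fun h1 => (pr_norm (pr_add (pr_scale 4 5 (c1g_s.snd h1)) (pr_scale 1 5 (pr_addc (swg_s.snd h1) (enc_rat _ 1 2)))))⟩
noncomputable def bf1q0_s : Sl2 bf1q0 := ⟨_, fun h1 h2 => (pr_norm (pr_case (pr_subr 63 500 h1) (pr_sub (pr_csub (enc_pnc _ 1) (pr_scale 1003 630 h1)) (pr_cmul (enc_norm (bf1q0_3.enc h1.l h2)) (pr_nd (pr_scale 67 63 h1)))) (pr_add (pr_csub (enc_rat _ 389557 374000) (pr_scale 7189 3740 h1)) (pr_cmul (enc_norm (bf1q0_3.enc h1.l h2)) (pr_norm (pr_csub (enc_rat _ 79 187000) (pr_scale 399 374 h1)))))))⟩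
noncomputable def kf1q0_s : Sl2 kf1q0 := ⟨_, fun h1 h2 => (pr_norm (pr_mul (cv1m_s.snd h1) (bf1q0_s.snd h1 h2)))⟩
noncomputable def bx1q0_s : Sl2 bx1q0 := ⟨_, fun h1 h2 => (pr_norm (pr_case (pr_subr 63 250 h1) (pr_case (pr_subr 63 500 h1) (pr_scale 23 140 h1) (pr_add (pr_subr 37 10000 (pr_scale 61 315 h1)) (pr_cmul (enc_norm (bx1q0_3.enc h1.l h2)) (pr_norm (pr_subr 131 1000 (pr_scale 131 126 h1)))))) (pr_case (pr_subr 429 1000 h1) (pr_add (pr_subr 2119 590000 (pr_scale 57 295 h1)) (pr_cmul (enc_norm (bx1q0_3.enc h1.l h2)) (pr_norm (pr_subr 151 11800 (pr_scale 101 177 h1))))) (pr_add (pr_addc (pr_scale 9 71 h1) (enc_rat _ 17693 710000)) (pr_cmul (enc_norm (bx1q0_3.enc h1.l h2)) (pr_norm (pr_addc (pr_scale 29 71 h1) (enc_rat _ 4031 71000))))))))⟩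
noncomputable def l1q0_s : Sl2 l1q0 := ⟨_, fun h1 h2 => (pr_norm (pr_mul (cv1m_s.snd h1) (bx1q0_s.snd h1 h2)))⟩
noncomputable def bd1q0_s : Sl2 bd1q0 := ⟨_, fun h1 h2 => (pr_norm (pr_case (pr_subr 63 250 h1) (pr_add (pr_scale 1159 1260 h1) (pr_cmul (enc_norm (bd1q0_3.enc h1.l h2)) (pr_nd (pr_scale 3971 252 h1)))) (pr_add (pr_subr 85031 155000 (pr_scale 96 31 h1)) (pr_cmul (enc_norm (bd1q0_3.enc h1.l h2)) (pr_norm (pr_csub (enc_rat _ 147073 15500) (pr_scale 2715 124 h1)))))))⟩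
noncomputable def kc1q0_s : Sl2 kc1q0 := ⟨_, fun h1 h2 => (pr_norm (pr_mul (cv1m_s.snd h1) (bd1q0_s.snd h1 h2)))⟩
noncomputable def bf1q1_s : Sl2 bf1q1 := ⟨_, fun h1 h2 => (pr_norm (pr_add (pr_subr 3519 5000 (pr_scale 7433 5000 h1)) (pr_cmul (enc_norm (enc_subr 14173 20000 h2)) (pr_norm (pr_csub (enc_rat _ 289 1000) (pr_scale 163 250 h1))))))⟩
noncomputable def kf1q1_s : Sl2 kf1q1 := ⟨_, fun h1 h2 => (pr_norm (pr_mul (cv1m_s.snd h1) (bf1q1_s.snd h1 h2)))⟩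
noncomputable def bx1q1_s : Sl2 bx1q1 := ⟨_, fun h1 h2 => (pr_norm (pr_case (pr_subr 719 1000 h1) (pr_case (pr_subr 111 200 h1) (pr_add (pr_addc (pr_scale 69 550 h1) (enc_rat _ 2813 110000)) (pr_cmul (enc_norm (bx1q1_3.enc h1.l h2)) (pr_norm (pr_csub (enc_rat _ 8271 11000) (pr_scale 54 55 h1))))) (pr_add (pr_addc (pr_scale 103 1640 h1) (enc_rat _ 98963 1640000)) (pr_cmul (enc_norm (bx1q1_3.enc h1.l h2)) (pr_norm (pr_csub (enc_rat _ 30687 41000) (pr_scale 40 41 h1)))))) (pr_case (pr_subr 883 1000 h1) (pr_add (pr_addc (pr_scale 91 1640 h1) (enc_rat _ 107591 1640000)) (pr_cmul (enc_norm (bx1q1_3.enc h1.l h2)) (pr_norm (pr_csub (enc_rat _ 142621 82000) (pr_scale 193 82 h1))))) (pr_add (pr_addc (pr_scale 1 18 h1) (enc_rat _ 5899 90000)) (pr_cmul (enc_norm (bx1q1_3.enc h1.l h2)) (pr_norm (pr_subr 126961 23400 (pr_scale 674 117 h1))))))))⟩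
noncomputable def l1q1_s : Sl2 l1q1 := ⟨_, fun h1 h2 => (pr_norm (pr_mul (cv1m_s.snd h1) (bx1q1_s.snd h1 h2)))⟩
noncomputable def bd1q1_s : Sl2 bd1q1 := ⟨_, fun h1 h2 => (pr_norm (pr_add (pr_subr 5487 10000 (pr_scale 3097 1000 h1)) (pr_cmul (enc_norm (enc_subr 14173 20000 h2)) (pr_norm (pr_csub (enc_rat _ 9489 1000) (pr_scale 2737 125 h1))))))⟩
noncomputable def kc1q1_s : Sl2 kc1q1 := ⟨_, fun h1 h2 => (pr_norm (pr_mul (cv1m_s.snd h1) (bd1q1_s.snd h1 h2)))⟩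
noncomputable def cv1p_s : Sl1 cv1p := ⟨_, fun h1 => (pr_norm (pr_add (pr_scale 4 5 (c1g_s.snd h1)) (pr_scale 1 5 (pr_subr 1 2 (swg_s.snd h1)))))⟩
noncomputable def bf1q2_s : Sl2 bf1q2 := ⟨_, fun h1 h2 => (pr_norm (pr_case (pr_subr 277 250 h1) (pr_case (pr_subr 17 16 h1) (pr_add (pr_csub (enc_rat _ 1544 625) (pr_scale 919 625 h1)) (pr_cmul (enc_norm (bf1q2_3.enc h1.l h2)) (pr_norm (pr_csub (enc_rat _ 404 125) (pr_scale 404 125 h1))))) (pr_add (pr_csub (enc_rat _ 310839 65000) (pr_scale 237 65 h1)) (pr_cmul (enc_norm (bf1q2_3.enc h1.l h2)) (pr_norm (pr_csub (enc_rat _ 863493 91000) (pr_scale 830 91 h1)))))) (pr_case (pr_subr 577 500 h1) (pr_add (pr_csub (enc_rat _ 223306261 57500000) (pr_scale 652093 230000 h1)) (pr_cmul (enc_norm (bf1q2_3.enc h1.l h2)) (pr_norm (pr_csub (enc_rat _ 19202349 1437500) (pr_scale 145049 11500 h1))))) (pr_case (pr_subr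 231 200 h1) (pr_add (pr_csub (enc_rat _ 35209 10000) (pr_scale 25209 10000 h1)) (pr_cmul (enc_norm (bf1q2_3.enc h1.l h2)) (pr_norm (pr_csub (enc_rat _ 3887 500) (pr_scale 3887 500 h1))))) (pr_add (pr_csub (enc_rat _ 2667199 460000) (pr_scale 1033307 230000 h1)) (pr_cmul (enc_norm (bf1q2_3.enc h1.l h2)) (pr_norm (pr_subr 28967 1150 (pr_scale 238799 11500 h1)))))))))⟩
noncomputable def kf1q2_s : Sl2 kf1q2 := ⟨_, fun h1 h2 => (pr_norm (pr_mul (cv1p_s.snd h1) (bf1q2_s.snd h1 h2)))⟩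
noncomputable def bx1q2_s : Sl2 bx1q2 := ⟨_, fun h1 h2 => (pr_norm (pr_case (pr_subr 277 250 h1) (pr_case (pr_subr 17 16 h1) (pr_add (pr_csub (enc_rat _ 564 625) (pr_scale 564 625 h1)) (pr_cmul (enc_norm (bx1q2_3.enc h1.l h2)) (pr_norm (pr_csub (enc_rat _ 524 125) (pr_scale 524 125 h1))))) (pr_add (pr_csub (enc_rat _ 2568801 910000) (pr_scale 1233 455 h1)) (pr_cmul (enc_norm (bx1q2_3.enc h1.l h2)) (pr_norm (pr_subr 67709 7000 (pr_scale 62 7 h1)))))) (pr_case (pr_subr 577 500 h1) (pr_add (pr_csub (enc_rat _ 3065269 1150000) (pr_scale 2953 1150 h1)) (pr_cmul (enc_norm (bx1q2_3.enc h1.l h2)) (pr_norm (pr_subr 117399 5750 (pr_scale 1707 92 h1))))) (pr_casec1 (pr_subr 231 200 h1) (enc_subr 14891 50000 (enc_scale 1989 2000 (bx1q2_3.enc h1.l h2))) (pr_add (pr_subr 94907 46000 (pr_scale 13183 8625 h1)) (pr_cmul (enc_norm (bx1q2_3.enc h1.l h2)) (pr_norm (pr_csub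 (enc_rat _ 191927 23000) (pr_scale 4391 690 h1)))))))))⟩
noncomputable def l1q2_s : Sl2 l1q2 := ⟨_, fun h1 h2 => (pr_norm (pr_mul (cv1p_s.snd h1) (bx1q2_s.snd h1 h2)))⟩
noncomputable def bd1q2_s : Sl2 bd1q2 := ⟨_, fun h1 h2 => (pr_norm (pr_case (pr_subr 577 500 h1) (pr_cmul (enc_norm (bd1q2_3.enc h1.l h2)) (pr_norm (pr_subr 300 77 (pr_scale 300 77 h1)))) (pr_casec1 (pr_subr 231 200 h1) (bd1q2_15.enc h1.l h2) (pr_addc (pr_subr 2084621 230000 (pr_scale 27073 3450 h1)) (bd1q2_15.enc h1.l h2)))))⟩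
noncomputable def kc1q2_s : Sl2 kc1q2 := ⟨_, fun h1 h2 => (pr_norm (pr_mul (cv1p_s.snd h1) (bd1q2_s.snd h1 h2)))⟩
noncomputable def cv1r_s : Sl1 cv1r := ⟨_, fun h1 => (pr_norm (pr_scale 1 5 (pr_subr 1 2 (swg_s.snd h1))))⟩
noncomputable def c3g_s : Sl1 c3g := ⟨_, fun h1 => (pr_sqrtg (pr_csub (enc_pnc _ 3) (pr_scale 3 4 (pr_sq h1))))⟩
noncomputable def kf1q3_s : Sl2 kf1q3 := ⟨_, fun h1 h2 => (pr_norm (pr_mulz (fun ht => cv1r_two (enc_two h1.r ht)) (cv1r_s.snd h1) (pr_norm (pr_case (pr_subr 417 250 h1) (pr_add (pr_csub (enc_rat _ 94103 35000) (pr_scale 157 105 h1)) (pr_cmul (enc_norm (kf1q3_4.enc h1.l h2)) (pr_norm (pr_csub (enc_rat _ 311331 14000) (pr_scale 2479 168 h1))))) (pr_case (pr_subr 437 250 h1) (pr_add (pr_csub (enc_rat _ 134413 50000) (pr_scale 299 200 h1)) (pr_cmul (enc_norm (kf1q3_4.enc h1.l h2)) (pr_norm (pr_csub (enc_rat _ 444977 20000)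 (pr_scale 1181 80 h1))))) (pr_add (pr_subr 21 50 (pr_scale 55000000 93516487 (c3g_s.snd h1))) (pr_cmul (enc_norm (kf1q3_4.enc h1.l h2)) (pr_norm (pr_subr 9943 500 (pr_scale 16330000000 841648383 (c3g_s.snd h1)))))))))))⟩
noncomputable def l1q3_s : Sl2 l1q3 := ⟨_, fun h1 h2 => (pr_norm (pr_mulz (fun ht => cv1r_two (enc_two h1.r ht)) (cv1r_s.snd h1) (pr_norm (pr_case (pr_subr 417 250 h1) (pr_add (pr_subr 28887 14000 (pr_scale 107 70 h1)) (pr_cmul (enc_norm (l1q3_4.enc h1.l h2)) (pr_norm (pr_csub (enc_rat _ 116811 14000) (pr_scale 1069 168 h1))))) (pr_case (pr_subr 437 250 h1) (pr_add (pr_subr 206157 100000 (pr_scale 611 400 h1)) (pr_cmul (enc_norm (l1q3_4.enc h1.l h2)) (pr_norm (pr_csub (enc_rat _ 166853 20000) (pr_scale 509 80 h1))))) (pr_add (pr_addc (pr_scale 305000000 841648383 (c3g_s.snd h1)) (enc_rat _ 607 2000)) (pr_cmul (enc_norm (l1q3_4.enc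 h1.l h2)) (pr_norm (pr_csub (enc_rat _ 21953 1000) (pr_scale 2748000000 93516487 (c3g_s.snd h1)))))))))))⟩
noncomputable def kc1q3_s : Sl2 kc1q3 := ⟨_, fun h1 h2 => (pr_norm (pr_mulz (fun ht => cv1r_two (enc_two h1.r ht)) (cv1r_s.snd h1) (pr_norm (pr_case (pr_subr 417 250 h1) (pr_add (pr_subr 1268853 140000 (pr_scale 13183 1680 h1)) (pr_cmul (enc_norm (kc1q3_4.enc h1.l h2)) (pr_norm (pr_csub (enc_rat _ 341 560) (pr_scale 1 168 h1))))) (pr_case (pr_subr 437 250 h1) (pr_addc (pr_subr 1812389 200000 (pr_scale 6277 800 h1)) (enc_scale 599 1000 (kc1q3_4.enc h1.l h2))) (pr_add (pr_subr 11623 10000 (pr_scale 5815600000 841648383 (c3g_s.snd h1))) (pr_cmul (enc_norm (kc1q3_4.enc h1.l h2)) (pr_norm (pr_subr 86701 1000 (pr_scale 9700000000 93516487 (c3g_s.snd h1)))))))))))⟩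
noncomputable def cv2m_s : Sl1 cv2m := ⟨_, fun h1 => (pr_norm (pr_add (pr_half (c1g_s.snd h1)) (pr_half (pr_addc (swg_s.snd h1) (enc_rat _ 1 2)))))⟩
noncomputable def bf2q0_s : Sl2 bf2q0 := ⟨_, fun h1 h2 => (pr_norm (pr_case (pr_subr 189 1000 h1) (pr_add (pr_csub (enc_pnc _ 1) (pr_scale 382 189 h1)) (pr_cmul (enc_norm (bf2q0_3.enc h1.l h2)) (pr_nd (pr_scale 50 189 h1)))) (pr_case (pr_subr 83 250 h1) (pr_add (pr_csub (enc_rat _ 1465293 1430000) (pr_scale 3077 1430 h1)) (pr_cmul (enc_norm (bf2q0_3.enc h1.l h2)) (pr_norm (pr_csub (enc_rat _ 75001 143000) (pr_scale 359 143 h1))))) (pr_add (pr_csub (enc_rat _ 145283 140000) (pr_scale 1227 560 h1)) (pr_cmul (enc_norm (bf2q0_3.enc h1.l h2)) (pr_norm (pr_subr 1663 4200 (pr_scale 11 42 h1))))))))⟩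
noncomputable def kf2q0_s : Sl2 kf2q0 := ⟨_, fun h1 h2 => (pr_norm (pr_mul (cv2m_s.snd h1) (bf2q0_s.snd h1 h2)))⟩
noncomputable def bx2q0_6_s : Sl2 bx2q0_6 := ⟨_, fun h1 h2 => (pr_scale 3 10 h1)⟩
noncomputable def bx2q0_s : Sl2 bx2q0 := ⟨_, fun h1 h2 => (pr_norm (pr_case (pr_subr 63 500 h1) (pr_add (bx2q0_6_s.snd h1 h2) (pr_cmul (enc_norm (bx2q0_3.enc h1.l h2)) (pr_nd (pr_scale 19 63 h1)))) (pr_case (pr_subr 63 250 h1) (pr_add (bx2q0_6_s.snd h1 h2) (pr_cmul (enc_norm (bx2q0_3.enc h1.l h2)) (pr_norm (pr_subr 19 1000 (pr_scale 19 42 h1))))) (pr_add (pr_csub (enc_rat _ 50967 620000) (pr_scale 13 496 h1)) (pr_cmul (enc_norm (bx2q0_3.enc h1.l h2)) (pr_norm (pr_subr 13 775 (pr_scale 55 124 h1))))))))⟩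
noncomputable def l2q0_s : Sl2 l2q0 := ⟨_, fun h1 h2 => (pr_norm (pr_mul (cv2m_s.snd h1) (bx2q0_s.snd h1 h2)))⟩
noncomputable def bd2q0_s : Sl2 bd2q0 := ⟨_, fun h1 h2 => (pr_norm (pr_sub (pr_cmul (enc_norm (enc_subr 14173 20000 h2)) (pr_nd (pr_scale 1517 100 h1))) (pr_scale 669 200 h1)))⟩
noncomputable def kc2q0_s : Sl2 kc2q0 := ⟨_, fun h1 h2 => (pr_norm (pr_mul (cv2m_s.snd h1) (bd2q0_s.snd h1 h2)))⟩
noncomputable def bf2q1_s : Sl2 bf2q1 := ⟨_, fun h1 h2 => (pr_norm (pr_add (pr_subr 597 2500 (pr_scale 2483 2500 h1)) (pr_cmul (enc_norm (enc_subr 14173 20000 h2)) (pr_norm (pr_subr 2 5 (pr_scale 23 100 h1))))))⟩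
noncomputable def kf2q1_s : Sl2 kf2q1 := ⟨_, fun h1 h2 => (pr_norm (pr_mul (cv2m_s.snd h1) (bf2q1_s.snd h1 h2)))⟩
noncomputable def bx2q1_s : Sl2 bx2q1 := ⟨_, fun h1 h2 => (pr_norm (pr_case (pr_subr 719 1000 h1) (pr_add (pr_csub (enc_rat _ 59943 730000) (pr_scale 19 730 h1)) (pr_cmul (enc_norm (bx2q1_3.enc h1.l h2)) (pr_norm (pr_csub (enc_rat _ 5593 14600) (pr_scale 26 73 h1))))) (pr_case (pr_subr 207 250 h1) (pr_add (pr_csub (enc_rat _ 142403 545000) (pr_scale 30 109 h1)) (pr_cmul (enc_norm (bx2q1_3.enc h1.l h2)) (pr_norm (pr_csub (enc_rat _ 10471 27250) (pr_scale 39 109 h1))))) (pr_add (pr_csub (enc_rat _ 1406 5375) (pr_scale 237 860 h1)) (pr_cmul (enc_norm (bx2q1_3.enc h1.l h2)) (pr_norm (pr_csub (enc_rat _ 8309 21500) (pr_scale 31 86 h1))))))))⟩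
noncomputable def l2q1_s : Sl2 l2q1 := ⟨_, fun h1 h2 => (pr_norm (pr_mul (cv2m_s.snd h1) (bx2q1_s.snd h1 h2)))⟩
noncomputable def bd2q1_s : Sl2 bd2q1 := ⟨_, fun h1 h2 => (pr_norm (pr_add (pr_subr 14699 2500 (pr_scale 42071 5000 h1)) (pr_cmul (enc_norm (enc_subr 14173 20000 h2)) (pr_norm (pr_csub (enc_rat _ 11321 500) (pr_scale 15057 500 h1))))))⟩
noncomputable def kc2q1_s : Sl2 kc2q1 := ⟨_, fun h1 h2 => (pr_norm (pr_mul (cv2m_s.snd h1) (bd2q1_s.snd h1 h2)))⟩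
noncomputable def cv2p_s : Sl1 cv2p := ⟨_, fun h1 => (pr_norm (pr_add (pr_half (c1g_s.snd h1)) (pr_half (pr_subr 1 2 (swg_s.snd h1)))))⟩
noncomputable def bf2q2_34_s : Sl2 bf2q2_34 := ⟨_, fun h1 h2 => (pr_csub (enc_rat _ 1240659 230000) (pr_scale 2423 575 h1))⟩
noncomputable def bf2q2_s : Sl2 bf2q2 := ⟨_, fun h1 h2 => (pr_norm (pr_case (pr_subr 231 200 h1) (pr_case (pr_subr 17 16 h1) (pr_add (pr_csub (enc_rat _ 1456 625) (pr_scale 831 625 h1)) (pr_cmul (enc_norm (bf2q2_3.enc h1.l h2)) (pr_norm (pr_csub (enc_rat _ 938 125) (pr_scale 938 125 h1))))) (pr_add (pr_csub (enc_rat _ 1995903 370000) (pr_scale 3898 925 h1)) (pr_cmul (enc_norm (bf2q2_3.enc h1.l h2)) (pr_norm (pr_csub (enc_rat _ 450147 37000) (pr_scale 440 37 h1)))))) (pr_case (pr_subr 127 100 h1) (pr_add (bf2q2_34_s.snd h1 h2) (pr_cmul (enc_norm (bf2q2_3.enc h1.l h2)) (pr_norm (pr_subr 270594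 2875 (pr_scale 1843 23 h1))))) (pr_add (bf2q2_34_s.snd h1 h2) (pr_cmul (enc_norm (bf2q2_3.enc h1.l h2)) (pr_norm (pr_csub (enc_rat _ 77259 2875) (pr_scale 1741 115 h1))))))))⟩
noncomputable def kf2q2_s : Sl2 kf2q2 := ⟨_, fun h1 h2 => (pr_norm (pr_mul (cv2p_s.snd h1) (bf2q2_s.snd h1 h2)))⟩
noncomputable def bx2q2_s : Sl2 bx2q2 := ⟨_, fun h1 h2 => (pr_norm (pr_case (pr_subr 231 200 h1) (pr_case (pr_subr 277 250 h1) (pr_case (pr_subr 17 16 h1) (pr_add (pr_csub (enc_rat _ 62 125) (pr_scale 62 125 h1)) (pr_cmul (enc_norm (bx2q2_3.enc h1.l h2)) (pr_norm (pr_csub (enc_rat _ 496 125) (pr_scale 496 125 h1))))) (pr_add (pr_csub (enc_rat _ 77929 91000) (pr_scale 76 91 h1)) (pr_cmul (enc_norm (bx2q2_3.enc h1.l h2)) (pr_norm (pr_subr 407193 91000 (pr_scale 362 91 h1)))))) (pr_case (pr_subr 577 500 h1) (pr_add (pr_csub (enc_rat _ 207799 57500) (pr_scale 1529 460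 h1)) (pr_cmul (enc_norm (bx2q2_3.enc h1.l h2)) (pr_norm (pr_subr 88519 23000 (pr_scale 157 46 h1))))) (pr_add (pr_csub (enc_rat _ 37017 10000) (pr_scale 17 5 h1)) (pr_cmul (enc_norm (bx2q2_3.enc h1.l h2)) (pr_norm (pr_subr 788137 500 (pr_nat 1366 h1))))))) (pr_case (pr_subr 127 100 h1) (pr_case (pr_subr 1213 1000 h1) (pr_add (pr_subr 1148229 580000 (pr_scale 881 580 h1)) (pr_cmul (enc_norm (bx2q2_3.enc h1.l h2)) (pr_norm (pr_csub (enc_rat _ 752549 29000) (pr_scale 615 29 h1))))) (pr_add (pr_subr 1127449 570000 (pr_scale 173 114 h1)) (pr_cmul (enc_norm (bx2q2_3.enc h1.l h2)) (pr_norm (pr_csub (enc_rat _ 2519777 28500) (pr_scale 4144 57 h1)))))) (pr_case (pr_subr 166 125 h1) (pr_add (pr_subr 476983 290000 (pr_scale 182 145 h1)) (pr_cmul (enc_norm (bx2q2_3.enc h1.l h2)) (pr_norm (pr_subr 326347 29000 (pr_scale 335 58 h1))))) (pr_case (pr_subr 1443 1000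 h1) (pr_add (pr_subr 378709 230000 (pr_scale 289 230 h1)) (pr_cmul (enc_norm (bx2q2_3.enc h1.l h2)) (pr_norm (pr_subr 3906013 115000 (pr_scale 2631 115 h1))))) (pr_add (pr_subr 156371 95000 (pr_scale 358 285 h1)) (pr_cmul (enc_norm (bx2q2_3.enc h1.l h2)) (pr_norm (pr_subr 36412 2375 (pr_scale 568 57 h1))))))))))⟩
noncomputable def l2q2_s : Sl2 l2q2 := ⟨_, fun h1 h2 => (pr_norm (pr_mul (cv2p_s.snd h1) (bx2q2_s.snd h1 h2)))⟩
noncomputable def bd2q2_s : Sl2 bd2q2 := ⟨_, fun h1 h2 => (pr_norm (pr_case (pr_subr 231 200 h1) (pr_add (pr_subr 319 775 (pr_scale 319 775 h1)) (pr_cmul (enc_norm (bd2q2_3.enc h1.l h2)) (pr_norm (pr_subr 2917 155 (pr_scale 2917 155 h1))))) (pr_add (pr_subr 378323 46000 (pr_scale 24757 3450 h1)) (pr_cmul (enc_norm (bd2q2_3.enc h1.l h2)) (pr_norm (pr_subr 43287 2300 (pr_scale 6493 345 h1)))))))⟩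
noncomputable def kc2q2_s : Sl2 kc2q2 := ⟨_, fun h1 h2 => (pr_norm (pr_mul (cv2p_s.snd h1) (bd2q2_s.snd h1 h2)))⟩
noncomputable def cv2r_s : Sl1 cv2r := ⟨_, fun h1 => (pr_norm (pr_half (pr_subr 1 2 (swg_s.snd h1))))⟩
noncomputable def kf2q3_s : Sl2 kf2q3 := ⟨_, fun h1 h2 => (pr_norm (pr_mulz (fun ht => cv2r_two (enc_two h1.r ht)) (cv2r_s.snd h1) (pr_norm (pr_case (pr_subr 417 250 h1) (pr_add (pr_csub (enc_rat _ 94103 35000) (pr_scale 157 105 h1)) (pr_cmul (enc_norm (kf2q3_4.enc h1.l h2)) (pr_norm (pr_csub (enc_rat _ 311331 14000) (pr_scale 2479 168 h1))))) (pr_case (pr_subr 437 250 h1) (pr_add (pr_csub (enc_rat _ 134413 50000) (pr_scale 299 200 h1)) (pr_cmul (enc_norm (kf2q3_4.enc h1.l h2)) (pr_norm (pr_csub (enc_rat _ 444977 20000) (pr_scale 1181 80 h1))))) (pr_add (pr_subr 21 50 (pr_scale 55000000 93516487 (c3g_s.snd h1))) (pr_cmul (enc_norm (kf2q3_4.enc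 h1.l h2)) (pr_norm (pr_subr 9943 500 (pr_scale 16330000000 841648383 (c3g_s.snd h1)))))))))))⟩
noncomputable def l2q3_s : Sl2 l2q3 := ⟨_, fun h1 h2 => (pr_norm (pr_mulz (fun ht => cv2r_two (enc_two h1.r ht)) (cv2r_s.snd h1) (pr_norm (pr_case (pr_subr 417 250 h1) (pr_case (pr_subr 389 250 h1) (pr_add (pr_subr 251277 140000 (pr_scale 759 560 h1)) (pr_cmul (enc_norm (l2q3_4.enc h1.l h2)) (pr_norm (pr_csub (enc_rat _ 1007499 14000) (pr_scale 2701 56 h1))))) (pr_add (pr_subr 100433 56000 (pr_scale 1517 1120 h1)) (pr_cmul (enc_norm (l2q3_4.enc h1.l h2)) (pr_norm (pr_subr 517003 28000 (pr_scale 1107 112 h1)))))) (pr_case (pr_subr 437 250 h1) (pr_add (pr_subr 89717 50000 (pr_scale 271 200 h1)) (pr_cmul (enc_norm (l2q3_4.enc h1.l h2)) (pr_norm (pr_subr 369407 20000 (pr_scale 791 80 h1))))) (pr_add (pr_addc (pr_scale 80600000 280549461 (c3g_s.snd h1)) (enc_rat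 _ 831 2500)) (pr_cmul (enc_norm (l2q3_4.enc h1.l h2)) (pr_norm (pr_csub (enc_rat _ 8121 500) (pr_scale 17429000000 841648383 (c3g_s.snd h1)))))))))))⟩
noncomputable def kc2q3_s : Sl2 kc2q3 := ⟨_, fun h1 h2 => (pr_norm (pr_mulz (fun ht => cv2r_two (enc_two h1.r ht)) (cv2r_s.snd h1) (pr_norm (pr_case (pr_subr 417 250 h1) (pr_add (pr_subr 76361 7000 (pr_scale 7531 840 h1)) (pr_cmul (enc_norm (kc2q3_4.enc h1.l h2)) (pr_norm (pr_csub (enc_rat _ 34481 350) (pr_scale 2495 42 h1))))) (pr_case (pr_subr 437 250 h1) (pr_add (pr_subr 136349 12500 (pr_scale 1793 200 h1)) (pr_cmul (enc_norm (kc2q3_4.enc h1.l h2)) (pr_norm (pr_csub (enc_rat _ 1970601 20000) (pr_scale 4753 80 h1))))) (pr_add (pr_subr 7777 5000 (pr_scale 2106100000 280549461 (c3g_s.snd h1))) (pr_cmul (enc_norm (kc2q3_4.enc h1.l h2)) (pr_norm (pr_subr 8184 125 (pr_scale 60149000000 841648383 (c3g_s.snd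 h1)))))))))))⟩
noncomputable def cv3m_s : Sl1 cv3m := ⟨_, fun h1 => (pr_norm (pr_add (pr_scale 4 5 (pr_addc (swg_s.snd h1) (enc_rat _ 1 2))) (pr_scale 1 5 (c3g_s.snd h1))))⟩
noncomputable def esg_s : Sl1 esg := ⟨_, fun h1 => (pr_norm (pr_subn 1 (pr_add (pr_half h1) (gsg_s.snd h1))))⟩
noncomputable def kf3q0_42_s : Sl2 kf3q0_42 := ⟨_, fun h1 h2 => (pr_csub (enc_pnc _ 1) h1)⟩
noncomputable def kf3q0_43_s : Sl2 kf3q0_43 := ⟨_, fun h1 h2 => (gsg_s.snd (pr_norm (kf3q0_42_s.snd h1 h2)))⟩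
noncomputable def kf3q0_46_s : Sl2 kf3q0_46 := ⟨_, fun h1 h2 => (pr_sub (pr_scale 3 4 (kf3q0_42_s.snd h1 h2)) (pr_half (kf3q0_43_s.snd h1 h2)))⟩
noncomputable def kf3q0_64_s : Sl2 kf3q0_64 := ⟨_, fun h1 h2 => (pr_mul (cv2m_s.snd h1) (bf2q0_s.snd h1 h2))⟩
noncomputable def kf3q0_s : Sl2 kf3q0 := ⟨_, fun h1 h2 => (pr_norm (pr_case (pr_subr 63 250 h1) (pr_mul (cv3m_s.snd h1) (pr_norm (pr_case (pr_subr 189 1000 h1) (pr_add (pr_csub (enc_rat _ 8133 10000) (pr_scale 3541 1890 h1)) (pr_cmul (enc_norm (kf3q0_4.enc h1.l h2)) (pr_norm (pr_subr 211 500 (pr_scale 1369 189 h1))))) (pr_add (pr_csub (enc_rat _ 1167406993 1250000000) (pr_scale 197802331 78750000 h1)) (pr_cmul (enc_norm (kf3q0_4.enc h1.l h2)) (pr_norm (pr_csub (enc_rat _ 4830139313 1000000000) (pr_scale 1294379771 63000000 h1)))))))) (pr_case (pr_subr 83 250 h1) (pr_add (kf3q0_64_s.snd h1 h2) (pr_mul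 (pr_norm (pr_mul (pr_norm (pr_sub (pr_mul h1 (pr_norm (pr_sub (pr_mul (pr_norm (pr_sub (kf3q0_46_s.snd h1 h2) (pr_csub (enc_rat _ 1 4) (pr_scale 3 8 (pr_mul (pr_norm (kf3q0_42_s.snd h1 h2)) (pr_nd (pr_inv (kf3q0_43_s.snd h1 h2)))))))) (pr_nd (pr_inv (esg_s.snd (pr_norm (kf3q0_42_s.snd h1 h2)))))) (kcg_s.snd (pr_norm (kf3q0_46_s.snd h1 h2)) h2)))) (kf3q0_64_s.snd h1 h2))) (pr_norm (pr_sub (cv3m_s.snd h1) (cv2m_s.snd h1))))) (pr_nd (pr_inv (pr_sub (pr_addc (swg_s.snd h1) (enc_rat _ 1 2)) (cv2m_s.snd h1)))))) (pr_mul (cv3m_s.snd h1) (pr_norm (pr_add (pr_csub (enc_rat _ 328172807 280000000) (pr_scale 427712807 140000000 h1)) (pr_cmul (enc_norm (kf3q0_4.enc h1.l h2)) (pr_norm (pr_subr 7290887 8000000 (pr_scale 8282887 4000000 h1))))))))))⟩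
noncomputable def qsg_s : Sl1 qsg := ⟨_, fun h1 => (pr_norm (pr_mul (pr_norm (pr_csub (enc_pnc _ 1) (gsg_s.snd h1))) (pr_norm (pr_subn 1 (pr_nat 2 (gsg_s.snd h1))))))⟩
noncomputable def l3q0_67_s : Sl2 l3q0_67 := ⟨_, fun h1 h2 => (pr_csub (enc_pnc _ 1) h1)⟩
noncomputable def l3q0_82_s : Sl2 l3q0_82 := ⟨_, fun h1 h2 => (pr_mul (cv2m_s.snd h1) (bx2q0_s.snd h1 h2))⟩
noncomputable def l3q0_s : Sl2 l3q0 := ⟨_, fun h1 h2 => (pr_norm (pr_case (pr_subr 63 250 h1) (pr_mul (cv3m_s.snd h1) (pr_norm (pr_case (pr_subr 189 1000 h1) (pr_add (pr_addc (pr_scale 2 9 h1) (enc_rat _ 69 1000)) (pr_cmul (enc_norm (l3q0_4.enc h1.l h2)) (pr_norm (pr_subr 41 1000 (pr_scale 67 63 h1))))) (pr_add (pr_add (pr_csub (enc_rat _ 250461801 2000000000) (pr_scale 9487267 126000000 h1)) (pr_cmul (enc_norm (l3q0_4.enc h1.l h2)) (pr_norm (pr_csub (enc_rat _ 3685133 7812500) (pr_scale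 1623422 984375 h1))))) (pr_cmul (l3q0_30.enc h1.l h2) (pr_norm (pr_subr 81753 62500 (pr_scale 7786 1125 h1)))))))) (pr_case (pr_subr 83 250 h1) (pr_add (l3q0_82_s.snd h1 h2) (pr_mul (pr_norm (pr_mul (pr_norm (pr_sub (pr_sub (qsg_s.snd (pr_norm (l3q0_67_s.snd h1 h2))) (pr_mul (pr_norm (pr_nat 2 (pr_subc (l3q0_67_s.snd h1 h2) h2))) (pr_norm (pr_mul (esg_s.snd (pr_norm (l3q0_67_s.snd h1 h2))) (kcg_s.snd (pr_norm (pr_sub (pr_scale 3 4 (l3q0_67_s.snd h1 h2)) (pr_half (gsg_s.snd (pr_norm (l3q0_67_s.snd h1 h2)))))) h2))))) (l3q0_82_s.snd h1 h2))) (pr_norm (pr_sub (cv3m_s.snd h1) (cv2m_s.snd h1))))) (pr_nd (pr_inv (pr_sub (pr_addc (swg_s.snd h1) (enc_rat _ 1 2)) (cv2m_s.snd h1)))))) (pr_mul (cv3m_s.snd h1) (pr_norm (pr_case (pr_subr 381 1000 h1) (pr_add (pr_add (pr_csub (enc_rat _ 33866234501 245000000000) (pr_scale 30756521 245000000 h1)) (pr_cmul (enc_norm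 (l3q0_4.enc h1.l h2)) (pr_norm (pr_csub (enc_rat _ 6092738441 49000000000) (pr_scale 13419261 49000000 h1))))) (pr_cmul (l3q0_30.enc h1.l h2) (pr_norm (pr_csub (enc_rat _ 57432321 24500000) (pr_scale 150741 24500 h1))))) (pr_add (pr_csub (enc_rat _ 40991 297500) (pr_scale 74 595 h1)) (pr_cmul (enc_norm (l3q0_4.enc h1.l h2)) (pr_norm (pr_subr 6899 17000 (pr_scale 19 17 h1)))))))))))⟩
noncomputable def kc3q0_30_s : Sl2 kc3q0_30 := ⟨_, fun h1 h2 => (pr_csub (enc_pnc _ 1) h1)⟩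
noncomputable def kc3q0_31_s : Sl2 kc3q0_31 := ⟨_, fun h1 h2 => (gsg_s.snd (pr_norm (kc3q0_30_s.snd h1 h2)))⟩
noncomputable def kc3q0_35_s : Sl2 kc3q0_35 := ⟨_, fun h1 h2 => (esg_s.snd (pr_norm (kc3q0_30_s.snd h1 h2)))⟩
noncomputable def kc3q0_39_s : Sl2 kc3q0_39 := ⟨_, fun h1 h2 => (gug_s.snd (pr_norm (kc3q0_30_s.snd h1 h2)))⟩
noncomputable def kc3q0_41_s : Sl2 kc3q0_41 := ⟨_, fun h1 h2 => (pr_mul (pr_norm (kc3q0_30_s.snd h1 h2)) (pr_nd (pr_inv (kc3q0_31_s.snd h1 h2))))⟩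
noncomputable def kc3q0_42_s : Sl2 kc3q0_42 := ⟨_, fun h1 h2 => (pr_scale 3 4 (kc3q0_41_s.snd h1 h2))⟩
noncomputable def kc3q0_71_s : Sl2 kc3q0_71 := ⟨_, fun h1 h2 => (pr_mul (cv2m_s.snd h1) (bd2q0_s.snd h1 h2))⟩
noncomputable def kc3q0_s : Sl2 kc3q0 := ⟨_, fun h1 h2 => (pr_norm (pr_case (pr_subr 63 250 h1) (pr_mul (cv3m_s.snd h1) (pr_norm (pr_add (pr_subr 496 625 (pr_neg (pr_scale 50220287 9000000 h1))) (pr_cmul (enc_norm (kc3q0_4.enc h1.l h2)) (pr_norm (pr_addc (pr_scale 2584241209 252000000 h1) (enc_rat _ 461 500))))))) (pr_case (pr_subr 83 250 h1) (pr_add (kc3q0_71_s.snd h1 h2) (pr_mul (pr_norm (pr_mul (pr_norm (pr_sub (pr_add (pr_sub (pr_neg (pr_add (pr_cadd (enc_rat _ 3 4) (pr_scale 3 2 (kc3q0_30_s.snd h1 h2))) (pr_scale 3 4 (pr_mul (pr_norm (kc3q0_41_s.snd h1 h2)) (kc3q0_39_s.snd h1 h2))))) (pr_mul (pr_norm (pr_sub (pr_mul (pr_norm (pr_mul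 (pr_norm (kc3q0_42_s.snd h1 h2)) (pr_norm (pr_subn 3 (pr_nat 4 (kc3q0_31_s.snd h1 h2)))))) (kc3q0_35_s.snd h1 h2)) (pr_mul (qsg_s.snd (pr_norm (kc3q0_30_s.snd h1 h2))) (pr_norm (pr_csub (enc_rat _ 1 2) (kc3q0_42_s.snd h1 h2)))))) (pr_nd (pr_inv (pr_mul (pr_nd (pr_nat 2 (kc3q0_35_s.snd h1 h2))) (kc3q0_35_s.snd h1 h2)))))) (pr_mul (kcg_s.snd (pr_norm (pr_sub (pr_scale 3 4 (kc3q0_30_s.snd h1 h2)) (pr_half (kc3q0_31_s.snd h1 h2)))) h2) (pr_norm (pr_cadd (enc_pnc _ 1) (pr_add (kc3q0_39_s.snd h1 h2) (pr_nat 2 (kc3q0_31_s.snd h1 h2))))))) (kc3q0_71_s.snd h1 h2))) (pr_norm (pr_sub (cv3m_s.snd h1) (cv2m_s.snd h1))))) (pr_nd (pr_inv (pr_sub (pr_addc (swg_s.snd h1) (enc_rat _ 1 2)) (cv2m_s.snd h1)))))) (pr_mul (cv3m_s.snd h1) (pr_norm (pr_add (pr_subr 1081144019 560000000 (pr_neg (pr_scale 52967981 280000000 h1))) (pr_cmul (enc_norm (kc3q0_4.enc h1.l h2)) (pr_norm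 (pr_subr 8421903053 336000000 (pr_scale 13509615053 168000000 h1))))))))))⟩
noncomputable def bf3q1_s : Sl2 bf3q1 := ⟨_, fun h1 h2 => (pr_norm (pr_case (pr_subr 83 125 h1) (pr_add (pr_subr 95401 410000 (pr_scale 2047 1640 h1)) (pr_cmul (enc_norm (bf3q1_3.enc h1.l h2)) (pr_norm (pr_subr 9101 8200 (pr_scale 91 82 h1))))) (pr_case (pr_subr 15 16 h1) (pr_add (pr_subr 1157589 5470000 (pr_scale 3327 2735 h1)) (pr_cmul (enc_norm (bf3q1_3.enc h1.l h2)) (pr_norm (pr_subr 121283 109400 (pr_scale 606 547 h1))))) (pr_add (pr_subr 87 625 (pr_scale 712 625 h1)) (pr_cmul (enc_norm (bf3q1_3.enc h1.l h2)) (pr_norm (pr_subr 28 25 (pr_scale 28 25 h1))))))))⟩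
noncomputable def kf3q1_s : Sl2 kf3q1 := ⟨_, fun h1 h2 => (pr_norm (pr_mul (cv3m_s.snd h1) (bf3q1_s.snd h1 h2)))⟩
noncomputable def bx3q1_s : Sl2 bx3q1 := ⟨_, fun h1 h2 => (pr_norm (pr_case (pr_subr 719 1000 h1) (pr_case (pr_subr 111 200 h1) (pr_add (pr_csub (enc_rat _ 3779 27500) (pr_scale 34 275 h1)) (pr_cmul (enc_norm (bx3q1_3.enc h1.l h2)) (pr_norm (pr_addc (pr_scale 2 55 h1) (enc_rat _ 1483 11000))))) (pr_add (pr_csub (enc_rat _ 271007 1640000) (pr_scale 57 328 h1)) (pr_cmul (enc_norm (bx3q1_3.enc h1.l h2)) (pr_norm (pr_csub (enc_rat _ 5639 32800) (pr_scale 5 164 h1)))))) (pr_case (pr_subr 207 250 h1) (pr_add (pr_csub (enc_rat _ 89909 545000) (pr_scale 189 1090 h1)) (pr_cmul (enc_norm (bx3q1_3.enc h1.l h2)) (pr_norm (pr_csub (enc_rat _ 9613 54500) (pr_scale 4 109 h1))))) (pr_case (pr_subr 883 1000 h1) (pr_add (pr_csub (enc_rat _ 43559 275000)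 (pr_scale 91 550 h1)) (pr_cmul (enc_norm (bx3q1_3.enc h1.l h2)) (pr_norm (pr_csub (enc_rat _ 23887 27500) (pr_scale 48 55 h1))))) (pr_add (pr_csub (enc_rat _ 41 390) (pr_scale 41 390 h1)) (pr_cmul (enc_norm (bx3q1_3.enc h1.l h2)) (pr_norm (pr_csub (enc_rat _ 98 117) (pr_scale 98 117 h1)))))))))⟩
noncomputable def l3q1_s : Sl2 l3q1 := ⟨_, fun h1 h2 => (pr_norm (pr_mul (cv3m_s.snd h1) (bx3q1_s.snd h1 h2)))⟩
noncomputable def bd3q1_s : Sl2 bd3q1 := ⟨_, fun h1 h2 => (pr_norm (pr_add (pr_subr 5063 1250 (pr_scale 5063 1250 h1)) (pr_cmul (enc_norm (enc_subr 14173 20000 h2)) (pr_norm (pr_csub (enc_rat _ 7571 250) (pr_scale 7571 250 h1))))))⟩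
noncomputable def kc3q1_s : Sl2 kc3q1 := ⟨_, fun h1 h2 => (pr_norm (pr_mul (cv3m_s.snd h1) (bd3q1_s.snd h1 h2)))⟩
noncomputable def cv3p_s : Sl1 cv3p := ⟨_, fun h1 => (pr_norm (pr_add (pr_scale 4 5 (pr_subr 1 2 (swg_s.snd h1))) (pr_scale 1 5 (c3g_s.snd h1))))⟩
noncomputable def bf3q2_s : Sl2 bf3q2 := ⟨_, fun h1 h2 => (pr_norm (pr_case (pr_subr 277 250 h1) (pr_case (pr_subr 17 16 h1) (pr_add (pr_csub (enc_rat _ 876 625) (pr_scale 254 625 h1)) (pr_cmul (enc_norm (bf3q2_3.enc h1.l h2)) (pr_norm (pr_subr 11 500 (pr_scale 36 125 h1))))) (pr_add (pr_csub (enc_rat _ 636759 455000) (pr_scale 184 455 h1)) (pr_cmul (enc_norm (bf3q2_3.enc h1.l h2)) (pr_norm (pr_csub (enc_rat _ 107173 3250) (pr_scale 400 13 h1)))))) (pr_case (pr_subr 231 200 h1) (pr_add (pr_csub (enc_rat _ 193077 47000) (pr_scale 1339 470 h1)) (pr_cmul (enc_norm (bf3q2_3.enc h1.l h2)) (pr_norm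 (pr_subr 238821 5875 (pr_scale 1677 47 h1))))) (pr_case (pr_subr 127 100 h1) (pr_add (pr_csub (enc_rat _ 79671 23000) (pr_scale 527 230 h1)) (pr_cmul (enc_norm (bf3q2_3.enc h1.l h2)) (pr_norm (pr_csub (enc_rat _ 1056099 23000) (pr_scale 4516 115 h1))))) (pr_add (pr_csub (enc_rat _ 796837 230000) (pr_scale 5271 2300 h1)) (pr_cmul (enc_norm (bf3q2_3.enc h1.l h2)) (pr_norm (pr_subr 443437 11500 (pr_scale 6267 230 h1)))))))))⟩
noncomputable def kf3q2_s : Sl2 kf3q2 := ⟨_, fun h1 h2 => (pr_norm (pr_mul (cv3p_s.snd h1) (bf3q2_s.snd h1 h2)))⟩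
noncomputable def bx3q2_50_s : Sl2 bx3q2_50 := ⟨_, fun h1 h2 => (pr_scale 131 29 h1)⟩
noncomputable def bx3q2_s : Sl2 bx3q2 := ⟨_, fun h1 h2 => (pr_norm (pr_case (pr_subr 231 200 h1) (pr_case (pr_subr 17 16 h1) (pr_add (pr_csub (enc_rat _ 2319 10000) (pr_scale 81 625 h1)) (pr_cmul (enc_norm (bx3q2_3.enc h1.l h2)) (pr_norm (pr_csub (enc_rat _ 301 40) (pr_scale 866 125 h1))))) (pr_case (pr_subr 277 250 h1) (pr_add (pr_csub (enc_rat _ 106611 455000) (pr_scale 12 91 h1)) (pr_cmul (enc_norm (bx3q2_3.enc h1.l h2)) (pr_norm (pr_csub (enc_rat _ 216757 13000) (pr_scale 202 13 h1))))) (pr_add (pr_csub (enc_rat _ 20987 47000) (pr_scale 76 235 h1)) (pr_cmul (enc_norm (bx3q2_3.enc h1.l h2)) (pr_norm (pr_subr 352381 47000 (pr_scale 295 47 h1))))))) (pr_case (pr_subr 127 100 h1) (pr_case (pr_subr 1213 1000 h1) (pr_add (pr_csub (enc_rat _ 52127 116000) (pr_scale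 189 580 h1)) (pr_cmul (enc_norm (bx3q2_3.enc h1.l h2)) (pr_norm (pr_subr 158497 29000 (bx3q2_50_s.snd h1 h2))))) (pr_add (pr_csub (enc_rat _ 28027 142500) (pr_scale 67 570 h1)) (pr_cmul (enc_norm (bx3q2_3.enc h1.l h2)) (pr_norm (pr_subr 26013 4750 (pr_scale 86 19 h1)))))) (pr_case (pr_subr 166 125 h1) (pr_add (pr_subr 165959 290000 (pr_scale 283 580 h1)) (pr_cmul (enc_norm (bx3q2_3.enc h1.l h2)) (pr_norm (pr_subr 79241 14500 (bx3q2_50_s.snd h1 h2))))) (pr_add (pr_subr 323021 430000 (pr_scale 1071 1720 h1)) (pr_cmul (enc_norm (bx3q2_3.enc h1.l h2)) (pr_norm (pr_csub (enc_rat _ 24761 21500) (pr_scale 20 43 h1)))))))))⟩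
noncomputable def l3q2_s : Sl2 l3q2 := ⟨_, fun h1 h2 => (pr_norm (pr_mul (cv3p_s.snd h1) (bx3q2_s.snd h1 h2)))⟩
noncomputable def bd3q2_s : Sl2 bd3q2 := ⟨_, fun h1 h2 => (pr_norm (pr_case (pr_subr 231 200 h1) (pr_add (pr_subr 673037 310000 (pr_scale 1541 775 h1)) (pr_cmul (enc_norm (bd3q2_3.enc h1.l h2)) (pr_norm (pr_subr 3989969 31000 (pr_scale 18431 155 h1))))) (pr_add (pr_subr 310623 115000 (pr_scale 8443 3450 h1)) (pr_cmul (enc_norm (bd3q2_3.enc h1.l h2)) (pr_norm (pr_subr 1480233 11500 (pr_scale 41026 345 h1)))))))⟩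
noncomputable def kc3q2_s : Sl2 kc3q2 := ⟨_, fun h1 h2 => (pr_norm (pr_mul (cv3p_s.snd h1) (bd3q2_s.snd h1 h2)))⟩
noncomputable def ycg_s : Sl1 ycg := ⟨_, fun h1 => (pr_sqrtg (pr_scale 4 3 (pr_csub (enc_pnc _ 3) (pr_sq h1))))⟩
noncomputable def xc33_s : Sl1 xc33 := ⟨_, fun h1 => (pr_norm (pr_add (pr_scale 4 5 (pr_subr 1 2 (swg_s.snd (pr_nd (ycg_s.snd h1))))) (pr_scale 1 5 h1)))⟩
noncomputable def kfc33_6_s : Sl2 kfc33_6 := ⟨_, fun h1 h2 => (pr_subr 1 2 (swg_s.snd (pr_nd (ycg_s.snd h1))))⟩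
noncomputable def kfc33_9_s : Sl2 kfc33_9 := ⟨_, fun h1 h2 => (pr_add (pr_scale 4 5 (kfc33_6_s.snd h1 h2)) (pr_scale 1 5 h1))⟩
noncomputable def kfc33_48_s : Sl2 kfc33_48 := ⟨_, fun h1 h2 => (pr_subn 1 (ycg_s.snd h1))⟩
noncomputable def kfc33_49_s : Sl2 kfc33_49 := ⟨_, fun h1 h2 => (gsg_s.snd (pr_norm (kfc33_48_s.snd h1 h2)))⟩
noncomputable def kfc33_50_s : Sl2 kfc33_50 := ⟨_, fun h1 h2 => (pr_scale 3 4 (kfc33_48_s.snd h1 h2))⟩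
noncomputable def kfc33_51_s : Sl2 kfc33_51 := ⟨_, fun h1 h2 => (pr_half (kfc33_49_s.snd h1 h2))⟩
noncomputable def kfc33_68_s : Sl2 kfc33_68 := ⟨_, fun h1 h2 => (cv2r_s.snd (pr_nd (ycg_s.snd h1)))⟩
noncomputable def kfc33_70_s : Sl2 kfc33_70 := ⟨_, fun h1 h2 => (pr_subr 417 250 (ycg_s.snd h1))⟩
noncomputable def kfc33_82_s : Sl2 kfc33_82 := ⟨_, fun h1 h2 => (pr_subr 437 250 (ycg_s.snd h1))⟩
noncomputable def kfc33_105_s : Sl2 kfc33_105 := ⟨_, fun h1 h2 => (pr_mul (kfc33_68_s.snd h1 h2) (pr_norm (pr_case (kfc33_70_s.snd h1 h2) (pr_add (pr_csub (enc_rat _ 94103 35000) (pr_scale 157 105 (ycg_s.snd h1))) (pr_cmul (enc_norm (kfc33_11.enc h1.l h2)) (pr_norm (pr_csub (enc_rat _ 311331 14000) (pr_scale 2479 168 (ycg_s.snd h1)))))) (pr_case (kfc33_82_s.snd h1 h2) (pr_add (pr_csub (enc_rat _ 134413 50000) (pr_scale 299 200 (ycg_s.snd h1))) (pr_cmul (enc_norm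 (kfc33_11.enc h1.l h2)) (pr_norm (pr_csub (enc_rat _ 444977 20000) (pr_scale 1181 80 (ycg_s.snd h1)))))) (pr_add (pr_subr 21 50 (pr_scale 55000000 93516487 h1)) (pr_cmul (enc_norm (kfc33_11.enc h1.l h2)) (pr_norm (pr_subr 9943 500 (pr_scale 16330000000 841648383 h1)))))))))⟩
noncomputable def kfc33_s : Sl2 kfc33 := ⟨_, fun h1 h2 => (pr_norm (pr_case (kfc33_70_s.snd h1 h2) (pr_mul (pr_norm (kfc33_9_s.snd h1 h2)) (pr_norm (pr_add (pr_csub (enc_rat _ 53340779 35000000) (pr_scale 48825779 52500000 (ycg_s.snd h1))) (pr_cmul (enc_norm (kfc33_11.enc h1.l h2)) (pr_norm (pr_subr 12838089 22400000 (pr_neg (pr_scale 1296311 33600000 (ycg_s.snd h1))))))))) (pr_case (kfc33_82_s.snd h1 h2) (pr_add (kfc33_105_s.snd h1 h2) (pr_mul (pr_norm (pr_mul (pr_norm (pr_sub (pr_mul (pr_norm (pr_subn 2 (ycg_s.snd h1))) (pr_norm (pr_add (pr_mul (pr_norm (pr_sub (pr_sub (kfc33_51_s.snd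 h1 h2) (kfc33_50_s.snd h1 h2)) (pr_csub (enc_rat _ 1 4) (pr_scale 3 8 (pr_mul (pr_norm (kfc33_48_s.snd h1 h2)) (pr_nd (pr_inv (kfc33_49_s.snd h1 h2)))))))) (pr_nd (pr_inv (esg_s.snd (pr_norm (kfc33_48_s.snd h1 h2)))))) (kcg_s.snd (pr_norm (pr_sub (kfc33_50_s.snd h1 h2) (kfc33_51_s.snd h1 h2))) h2)))) (kfc33_105_s.snd h1 h2))) (pr_norm (pr_sub (kfc33_9_s.snd h1 h2) (kfc33_68_s.snd h1 h2))))) (pr_nd (pr_inv (pr_sub (kfc33_6_s.snd h1 h2) (kfc33_68_s.snd h1 h2)))))) (pr_mul (pr_norm (kfc33_9_s.snd h1 h2)) (pr_norm (pr_case (pr_csub (enc_rat _ 367494643 500000000) h1) (pr_add (pr_subr 344077346601670081 266647742500000000 (pr_scale 867203067 533295485 h1)) (pr_cmul (enc_norm (kfc33_11.enc h1.l h2)) (pr_norm (pr_subr 3976839476488311757 53329548500000000 (pr_scale 9377144799 106659097 h1))))) (pr_sub (pr_csub (enc_rat _ 1 2) (pr_scale 297600000 367494643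 h1)) (pr_cmul (enc_norm (kfc33_11.enc h1.l h2)) (pr_nd (pr_scale 4976500000 367494643 h1))))))))))⟩
noncomputable def lc33_6_s : Sl2 lc33_6 := ⟨_, fun h1 h2 => (pr_subr 1 2 (swg_s.snd (pr_nd (ycg_s.snd h1))))⟩
noncomputable def lc33_9_s : Sl2 lc33_9 := ⟨_, fun h1 h2 => (pr_add (pr_scale 4 5 (lc33_6_s.snd h1 h2)) (pr_scale 1 5 h1))⟩
noncomputable def lc33_13_s : Sl2 lc33_13 := ⟨_, fun h1 h2 => (pr_subr 389 250 (ycg_s.snd h1))⟩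
noncomputable def lc33_85_s : Sl2 lc33_85 := ⟨_, fun h1 h2 => (pr_subn 1 (ycg_s.snd h1))⟩
noncomputable def lc33_98_s : Sl2 lc33_98 := ⟨_, fun h1 h2 => (cv2r_s.snd (pr_nd (ycg_s.snd h1)))⟩
noncomputable def lc33_100_s : Sl2 lc33_100 := ⟨_, fun h1 h2 => (pr_subr 417 250 (ycg_s.snd h1))⟩
noncomputable def lc33_123_s : Sl2 lc33_123 := ⟨_, fun h1 h2 => (pr_subr 437 250 (ycg_s.snd h1))⟩
noncomputable def lc33_145_s : Sl2 lc33_145 := ⟨_, fun h1 h2 => (pr_mul (lc33_98_s.snd h1 h2) (pr_norm (pr_case (lc33_100_s.snd h1 h2) (pr_case (lc33_13_s.snd h1 h2) (pr_add (pr_subr 251277 140000 (pr_scale 759 560 (ycg_s.snd h1))) (pr_cmul (enc_norm (lc33_11.enc h1.l h2)) (pr_norm (pr_csub (enc_rat _ 1007499 14000) (pr_scale 2701 56 (ycg_s.snd h1)))))) (pr_add (pr_subr 100433 56000 (pr_scale 1517 1120 (ycg_s.snd h1))) (pr_cmul (enc_norm (lc33_11.enc h1.l h2)) (pr_norm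 (pr_subr 517003 28000 (pr_scale 1107 112 (ycg_s.snd h1))))))) (pr_case (lc33_123_s.snd h1 h2) (pr_add (pr_subr 89717 50000 (pr_scale 271 200 (ycg_s.snd h1))) (pr_cmul (enc_norm (lc33_11.enc h1.l h2)) (pr_norm (pr_subr 369407 20000 (pr_scale 791 80 (ycg_s.snd h1)))))) (pr_add (pr_addc (pr_scale 80600000 280549461 h1) (enc_rat _ 831 2500)) (pr_cmul (enc_norm (lc33_11.enc h1.l h2)) (pr_norm (pr_csub (enc_rat _ 8121 500) (pr_scale 17429000000 841648383 h1)))))))))⟩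
noncomputable def lc33_s : Sl2 lc33 := ⟨_, fun h1 h2 => (pr_norm (pr_case (lc33_100_s.snd h1 h2) (pr_mul (pr_norm (lc33_9_s.snd h1 h2)) (pr_norm (pr_case (lc33_13_s.snd h1 h2) (pr_add (pr_subr 205033 140000 (pr_scale 123 112 (ycg_s.snd h1))) (pr_cmul (enc_norm (lc33_11.enc h1.l h2)) (pr_norm (pr_csub (enc_rat _ 338 125) (pr_scale 3 2 (ycg_s.snd h1)))))) (pr_case (pr_subr 403 250 (ycg_s.snd h1)) (pr_add (pr_subr 14673 10000 (pr_scale 11 10 (ycg_s.snd h1))) (pr_cmul (enc_norm (lc33_11.enc h1.l h2)) (pr_norm (pr_csub (enc_rat _ 20351 14000) (pr_scale 39 56 (ycg_s.snd h1)))))) (pr_add (pr_add (pr_subr 10072312909 10000000000 (pr_scale 32583903 40000000 (ycg_s.snd h1))) (pr_cmul (enc_norm (lc33_11.enc h1.l h2)) (pr_norm (pr_subr 54898516691 3500000000 (pr_scale 139099297 14000000 (ycg_s.snd h1)))))) (pr_cmul (lc33_50.enc h1.l h2) (pr_norm (pr_subr 480626263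 14000000 (pr_scale 1192621 56000 (ycg_s.snd h1)))))))))) (pr_case (lc33_123_s.snd h1 h2) (pr_add (lc33_145_s.snd h1 h2) (pr_mul (pr_norm (pr_mul (pr_norm (pr_sub (pr_sub (qsg_s.snd (pr_norm (lc33_85_s.snd h1 h2))) (pr_mul (pr_norm (pr_nat 2 (pr_subc (lc33_85_s.snd h1 h2) h2))) (pr_norm (pr_mul (esg_s.snd (pr_norm (lc33_85_s.snd h1 h2))) (kcg_s.snd (pr_norm (pr_sub (pr_scale 3 4 (lc33_85_s.snd h1 h2)) (pr_half (gsg_s.snd (pr_norm (lc33_85_s.snd h1 h2)))))) h2))))) (lc33_145_s.snd h1 h2))) (pr_norm (pr_sub (lc33_9_s.snd h1 h2) (lc33_98_s.snd h1 h2))))) (pr_nd (pr_inv (pr_sub (lc33_6_s.snd h1 h2) (lc33_98_s.snd h1 h2)))))) (pr_mul (pr_norm (lc33_9_s.snd h1 h2)) (pr_norm (pr_case (pr_csub (enc_rat _ 367494643 500000000) h1) (pr_add (pr_add (pr_csub (enc_rat _ 457942409621143117 533295485000000000) (pr_scale 547964319 1066590970 h1)) (pr_cmul (enc_norm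 (lc33_11.enc h1.l h2)) (pr_norm (pr_addc (pr_scale 64390881 106659097 h1) (enc_rat _ 15693902967449517 53329548500000000))))) (pr_cmul (lc33_50.enc h1.l h2) (pr_norm (pr_subr 20641439108024 1666548390625 (pr_scale 1797376000 106659097 h1))))) (pr_add (pr_addc (pr_scale 58903400 367494643 h1) (enc_rat _ 908233 2500000)) (pr_cmul (enc_norm (lc33_11.enc h1.l h2)) (pr_norm (pr_csub (enc_rat _ 4729691 2000000) (pr_scale 813422750 367494643 h1)))))))))))⟩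
noncomputable def kcc33_6_s : Sl2 kcc33_6 := ⟨_, fun h1 h2 => (pr_subr 1 2 (swg_s.snd (pr_nd (ycg_s.snd h1))))⟩
noncomputable def kcc33_9_s : Sl2 kcc33_9 := ⟨_, fun h1 h2 => (pr_add (pr_scale 4 5 (kcc33_6_s.snd h1 h2)) (pr_scale 1 5 h1))⟩
noncomputable def kcc33_35_s : Sl2 kcc33_35 := ⟨_, fun h1 h2 => (pr_subn 1 (ycg_s.snd h1))⟩
noncomputable def kcc33_36_s : Sl2 kcc33_36 := ⟨_, fun h1 h2 => (gsg_s.snd (pr_norm (kcc33_35_s.snd h1 h2)))⟩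
noncomputable def kcc33_40_s : Sl2 kcc33_40 := ⟨_, fun h1 h2 => (esg_s.snd (pr_norm (kcc33_35_s.snd h1 h2)))⟩
noncomputable def kcc33_45_s : Sl2 kcc33_45 := ⟨_, fun h1 h2 => (gug_s.snd (pr_norm (kcc33_35_s.snd h1 h2)))⟩
noncomputable def kcc33_47_s : Sl2 kcc33_47 := ⟨_, fun h1 h2 => (pr_mul (pr_norm (kcc33_35_s.snd h1 h2)) (pr_nd (pr_inv (kcc33_36_s.snd h1 h2))))⟩
noncomputable def kcc33_48_s : Sl2 kcc33_48 := ⟨_, fun h1 h2 => (pr_scale 3 4 (kcc33_47_s.snd h1 h2))⟩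
noncomputable def kcc33_73_s : Sl2 kcc33_73 := ⟨_, fun h1 h2 => (cv2r_s.snd (pr_nd (ycg_s.snd h1)))⟩
noncomputable def kcc33_75_s : Sl2 kcc33_75 := ⟨_, fun h1 h2 => (pr_subr 417 250 (ycg_s.snd h1))⟩
noncomputable def kcc33_87_s : Sl2 kcc33_87 := ⟨_, fun h1 h2 => (pr_subr 437 250 (ycg_s.snd h1))⟩
noncomputable def kcc33_110_s : Sl2 kcc33_110 := ⟨_, fun h1 h2 => (pr_mul (kcc33_73_s.snd h1 h2) (pr_norm (pr_case (kcc33_75_s.snd h1 h2) (pr_add (pr_subr 76361 7000 (pr_scale 7531 840 (ycg_s.snd h1))) (pr_cmul (enc_norm (kcc33_11.enc h1.l h2)) (pr_norm (pr_csub (enc_rat _ 34481 350) (pr_scale 2495 42 (ycg_s.snd h1)))))) (pr_case (kcc33_87_s.snd h1 h2) (pr_add (pr_subr 136349 12500 (pr_scale 1793 200 (ycg_s.snd h1))) (pr_cmul (enc_norm (kcc33_11.enc h1.l h2)) (pr_norm (pr_csub (enc_rat _ 1970601 20000) (pr_scale 4753 80 (ycg_s.snd h1)))))) (pr_add (pr_subr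 7777 5000 (pr_scale 2106100000 280549461 h1)) (pr_cmul (enc_norm (kcc33_11.enc h1.l h2)) (pr_norm (pr_subr 8184 125 (pr_scale 60149000000 841648383 h1)))))))))⟩
noncomputable def kcc33_s : Sl2 kcc33 := ⟨_, fun h1 h2 => (pr_norm (pr_case (kcc33_75_s.snd h1 h2) (pr_mul (pr_norm (kcc33_9_s.snd h1 h2)) (pr_norm (pr_add (pr_subr 21812481273 1120000000 (pr_scale 22898657273 1680000000 (ycg_s.snd h1))) (pr_cmul (enc_norm (kcc33_11.enc h1.l h2)) (pr_norm (pr_csub (enc_rat _ 30333986887 56000000) (pr_scale 9184379629 28000000 (ycg_s.snd h1)))))))) (pr_case (kcc33_87_s.snd h1 h2) (pr_add (kcc33_110_s.snd h1 h2) (pr_mul (pr_norm (pr_mul (pr_norm (pr_sub (pr_add (pr_sub (pr_add (pr_cadd (enc_rat _ 3 4) (pr_scale 3 2 (kcc33_35_s.snd h1 h2))) (pr_scale 3 4 (pr_mul (pr_norm (kcc33_47_s.snd h1 h2)) (kcc33_45_s.snd h1 h2)))) (pr_mul (pr_norm (pr_sub (pr_mul (pr_norm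 (pr_mul (pr_norm (kcc33_48_s.snd h1 h2)) (pr_norm (pr_subn 3 (pr_nat 4 (kcc33_36_s.snd h1 h2)))))) (kcc33_40_s.snd h1 h2)) (pr_mul (qsg_s.snd (pr_norm (kcc33_35_s.snd h1 h2))) (pr_norm (pr_csub (enc_rat _ 1 2) (kcc33_48_s.snd h1 h2)))))) (pr_nd (pr_inv (pr_mul (pr_nd (pr_nat 2 (kcc33_40_s.snd h1 h2))) (kcc33_40_s.snd h1 h2)))))) (pr_mul (kcg_s.snd (pr_norm (pr_sub (pr_scale 3 4 (kcc33_35_s.snd h1 h2)) (pr_half (kcc33_36_s.snd h1 h2)))) h2) (pr_norm (pr_csub (enc_pnc _ 1) (pr_add (kcc33_45_s.snd h1 h2) (pr_nat 2 (kcc33_36_s.snd h1 h2))))))) (kcc33_110_s.snd h1 h2))) (pr_norm (pr_sub (kcc33_9_s.snd h1 h2) (kcc33_73_s.snd h1 h2))))) (pr_nd (pr_inv (pr_sub (kcc33_6_s.snd h1 h2) (kcc33_73_s.snd h1 h2)))))) (pr_mul (pr_norm (kcc33_9_s.snd h1 h2)) (pr_norm (pr_add (pr_subr 3343 3340 (pr_scale 1646487962483 281110559922 h1)) (pr_cmul (enc_norm (kcc33_11.enc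 h1.l h2)) (pr_norm (pr_subr 18465 334 (pr_scale 879119755249 15617253329 h1))))))))))⟩
noncomputable def cv4m_s : Sl1 cv4m := ⟨_, fun h1 => (pr_norm (pr_add (pr_scale 2 5 (pr_addc (swg_s.snd h1) (enc_rat _ 1 2))) (pr_scale 3 5 (c3g_s.snd h1))))⟩
noncomputable def bf4q0_s : Sl2 bf4q0 := ⟨_, fun h1 h2 => (pr_norm (pr_case (pr_subr 83 250 h1) (pr_add (pr_csub (enc_rat _ 1053 2500) (pr_scale 2219 1660 h1)) (pr_cmul (enc_norm (bf4q0_3.enc h1.l h2)) (pr_norm (pr_subr 173 1000 (pr_scale 53 83 h1))))) (pr_add (pr_csub (enc_rat _ 29711 42000) (pr_scale 1847 840 h1)) (pr_cmul (enc_norm (bf4q0_3.enc h1.l h2)) (pr_norm (pr_subr 179 1050 (pr_scale 53 84 h1)))))))⟩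
noncomputable def kf4q0_s : Sl2 kf4q0 := ⟨_, fun h1 h2 => (pr_norm (pr_mul (cv4m_s.snd h1) (bf4q0_s.snd h1 h2)))⟩
noncomputable def bx4q0_s : Sl2 bx4q0 := ⟨_, fun h1 h2 => (pr_norm (pr_case (pr_subr 189 1000 h1) (pr_add (pr_csub (enc_rat _ 399 2500) (pr_scale 17 126 h1)) (pr_cmul (enc_norm (bx4q0_3.enc h1.l h2)) (pr_norm (pr_csub (enc_rat _ 19 200) (pr_scale 325 189 h1))))) (pr_case (pr_subr 83 250 h1) (pr_add (pr_csub (enc_rat _ 240147 1430000) (pr_scale 128 715 h1)) (pr_cmul (enc_norm (bx4q0_3.enc h1.l h2)) (pr_norm (pr_subr 44039 71500 (pr_scale 292 143 h1))))) (pr_add (pr_csub (enc_rat _ 23241 140000) (pr_scale 97 560 h1)) (pr_cmul (enc_norm (bx4q0_3.enc h1.l h2)) (pr_norm (pr_subr 1871 14000 (pr_scale 33 56 h1))))))))⟩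
noncomputable def l4q0_s : Sl2 l4q0 := ⟨_, fun h1 h2 => (pr_norm (pr_mul (cv4m_s.snd h1) (bx4q0_s.snd h1 h2)))⟩
noncomputable def bd4q0_s : Sl2 bd4q0 := ⟨_, fun h1 h2 => (pr_norm (pr_case (pr_subr 63 250 h1) (pr_add (pr_subr 22013 10000 (pr_scale 209 840 h1)) (pr_cmul (enc_norm (bd4q0_3.enc h1.l h2)) (pr_norm (pr_csub (enc_rat _ 1213 500) (pr_scale 85 18 h1))))) (pr_add (pr_subr 355793 124000 (pr_scale 7191 2480 h1)) (pr_cmul (enc_norm (bd4q0_3.enc h1.l h2)) (pr_norm (pr_subr 66693 62000 (pr_scale 2275 248 h1)))))))⟩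
noncomputable def kc4q0_s : Sl2 kc4q0 := ⟨_, fun h1 h2 => (pr_norm (pr_mul (cv4m_s.snd h1) (bd4q0_s.snd h1 h2)))⟩
noncomputable def bf4q1_s : Sl2 bf4q1 := ⟨_, fun h1 h2 => (pr_norm (pr_case (pr_subr 83 125 h1) (pr_add (pr_subr 16879 102500 (pr_scale 971 820 h1)) (pr_cmul (enc_norm (bf4q1_3.enc h1.l h2)) (pr_norm (pr_subr 3651 41000 (pr_neg (pr_scale 81 164 h1)))))) (pr_case (pr_subr 207 250 h1) (pr_add (pr_subr 33841 205000 (pr_scale 1943 1640 h1)) (pr_cmul (enc_norm (bf4q1_3.enc h1.l h2)) (pr_norm (pr_subr 47807 41000 (pr_scale 185 164 h1))))) (pr_add (pr_subr 121 1720 (pr_scale 1841 1720 h1)) (pr_cmul (enc_norm (bf4q1_3.enc h1.l h2)) (pr_norm (pr_subr 58 43 (pr_scale 58 43 h1))))))))⟩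
noncomputable def kf4q1_s : Sl2 kf4q1 := ⟨_, fun h1 h2 => (pr_norm (pr_mul (cv4m_s.snd h1) (bf4q1_s.snd h1 h2)))⟩
noncomputable def bx4q1_s : Sl2 bx4q1 := ⟨_, fun h1 h2 => (pr_norm (pr_case (pr_subr 719 1000 h1) (pr_case (pr_subr 111 200 h1) (pr_add (pr_csub (enc_rat _ 9167 55000) (pr_scale 48 275 h1)) (pr_cmul (enc_norm (bx4q1_3.enc h1.l h2)) (pr_norm (pr_csub (enc_rat _ 2971 11000) (pr_scale 12 55 h1))))) (pr_add (pr_csub (enc_rat _ 68023 410000) (pr_scale 71 410 h1)) (pr_cmul (enc_norm (bx4q1_3.enc h1.l h2)) (pr_norm (pr_csub (enc_rat _ 48301 164000) (pr_scale 43 164 h1)))))) (pr_case (pr_subr 15 16 h1) (pr_add (pr_csub (enc_rat _ 164943 1092500) (pr_scale 333 2185 h1)) (pr_cmul (enc_norm (bx4q1_3.enc h1.l h2)) (pr_norm (pr_csub (enc_rat _ 2537 8740) (pr_scale 112 437 h1))))) (pr_add (pr_csub (enc_rat _ 81 625) (pr_scale 81 625 h1)) (pr_cmul (enc_norm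 (bx4q1_3.enc h1.l h2)) (pr_norm (pr_csub (enc_rat _ 4 5) (pr_scale 4 5 h1))))))))⟩
noncomputable def l4q1_s : Sl2 l4q1 := ⟨_, fun h1 h2 => (pr_norm (pr_mul (cv4m_s.snd h1) (bx4q1_s.snd h1 h2)))⟩
noncomputable def bd4q1_s : Sl2 bd4q1 := ⟨_, fun h1 h2 => (pr_norm (pr_add (pr_subr 2839 1000 (pr_scale 2839 1000 h1)) (pr_cmul (enc_norm (enc_subr 14173 20000 h2)) (pr_norm (pr_csub (enc_rat _ 3511 500) (pr_scale 3511 500 h1))))))⟩
noncomputable def kc4q1_s : Sl2 kc4q1 := ⟨_, fun h1 h2 => (pr_norm (pr_mul (cv4m_s.snd h1) (bd4q1_s.snd h1 h2)))⟩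
noncomputable def cv4p_s : Sl1 cv4p := ⟨_, fun h1 => (pr_norm (pr_add (pr_scale 2 5 (pr_subr 1 2 (swg_s.snd h1))) (pr_scale 3 5 (c3g_s.snd h1))))⟩
noncomputable def bf4q2_s : Sl2 bf4q2 := ⟨_, fun h1 h2 => (pr_norm (pr_case (pr_subr 577 500 h1) (pr_add (pr_addc (pr_scale 1311 1540 h1) (enc_rat _ 491 96250)) (pr_cmul (enc_norm (bf4q2_3.enc h1.l h2)) (pr_norm (pr_csub (enc_rat _ 1774181 77000) (pr_scale 1747 77 h1))))) (pr_add (pr_csub (enc_rat _ 5665441 1730000) (pr_scale 3429 1730 h1)) (pr_cmul (enc_norm (bf4q2_3.enc h1.l h2)) (pr_norm (pr_subr 345389 21625 (pr_scale 3847 346 h1)))))))⟩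
noncomputable def kf4q2_s : Sl2 kf4q2 := ⟨_, fun h1 h2 => (pr_norm (pr_mul (cv4p_s.snd h1) (bf4q2_s.snd h1 h2)))⟩
noncomputable def bx4q2_s : Sl2 bx4q2 := ⟨_, fun h1 h2 => (pr_norm (pr_case (pr_subr 127 100 h1) (pr_case (pr_subr 231 200 h1) (pr_add (pr_csub (enc_rat _ 6483 155000) (pr_scale 49 775 h1)) (pr_cmul (enc_norm (bx4q2_3.enc h1.l h2)) (pr_norm (pr_subr 31314 3875 (pr_scale 1229 155 h1))))) (pr_add (pr_subr 26919 115000 (pr_scale 101 575 h1)) (pr_cmul (enc_norm (bx4q2_3.enc h1.l h2)) (pr_norm (pr_csub (enc_rat _ 93609 23000) (pr_scale 298 115 h1)))))) (pr_case (pr_subr 166 125 h1) (pr_add (pr_subr 14481 58000 (pr_scale 109 580 h1)) (pr_cmul (enc_norm (bx4q2_3.enc h1.l h2)) (pr_norm (pr_csub (enc_rat _ 67041 29000) (pr_scale 35 29 h1))))) (pr_case (pr_subr 1443 1000 h1) (pr_add (pr_subr 447651 1150000 (pr_scale 337 1150 h1)) (pr_cmul (enc_norm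 (bx4q2_3.enc h1.l h2)) (pr_norm (pr_csub (enc_rat _ 266127 115000) (pr_scale 139 115 h1))))) (pr_add (pr_subr 82907 95000 (pr_scale 179 285 h1)) (pr_cmul (enc_norm (bx4q2_3.enc h1.l h2)) (pr_norm (pr_csub (enc_rat _ 44019 19000) (pr_scale 23 19 h1)))))))))⟩
noncomputable def l4q2_s : Sl2 l4q2 := ⟨_, fun h1 h2 => (pr_norm (pr_mul (cv4p_s.snd h1) (bx4q2_s.snd h1 h2)))⟩
noncomputable def bd4q2_s : Sl2 bd4q2 := ⟨_, fun h1 h2 => (pr_norm (pr_add (pr_subr 7963 5000 (pr_scale 7489 5000 h1)) (pr_cmul (enc_norm (enc_subr 14173 20000 h2)) (pr_norm (pr_subr 24591 500 (pr_scale 6057 125 h1))))))⟩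
noncomputable def kc4q2_s : Sl2 kc4q2 := ⟨_, fun h1 h2 => (pr_norm (pr_mul (cv4p_s.snd h1) (bd4q2_s.snd h1 h2)))⟩
noncomputable def xc43_s : Sl1 xc43 := ⟨_, fun h1 => (pr_norm (pr_add (pr_scale 2 5 (pr_subr 1 2 (swg_s.snd (pr_nd (ycg_s.snd h1))))) (pr_scale 3 5 h1)))⟩
noncomputable def kfc43_s : Sl2 kfc43 := ⟨_, fun h1 h2 => (pr_norm (pr_mul (pr_norm (pr_add (pr_scale 2 5 (pr_subr 1 2 (swg_s.snd (pr_nd (ycg_s.snd h1))))) (pr_scale 3 5 h1))) (pr_norm (pr_case (pr_subr 437 250 (ycg_s.snd h1)) (pr_case (pr_subr 417 250 (ycg_s.snd h1)) (pr_add (pr_subr 8051 4000 (pr_scale 281 240 (ycg_s.snd h1))) (pr_cmul (enc_norm (kfc43_11.enc h1.l h2)) (pr_norm (pr_csub (enc_rat _ 61137 14000) (pr_scale 449 168 (ycg_s.snd h1)))))) (pr_add (pr_subr 402689 200000 (pr_scale 937 800 (ycg_s.snd h1))) (pr_cmul (enc_norm (kfc43_11.enc h1.l h2)) (pr_norm (pr_csub (enc_rat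 _ 17567 4000) (pr_scale 43 16 (ycg_s.snd h1))))))) (pr_case (pr_csub (enc_rat _ 429616471 1000000000) h1) (pr_add (pr_csub (enc_rat _ 663201519099 2060159560000) (pr_scale 17625000 51503989 h1)) (pr_cmul (enc_norm (kfc43_11.enc h1.l h2)) (pr_norm (pr_csub (enc_rat _ 668351562291 206015956000) (pr_scale 217250000 51503989 h1))))) (pr_add (pr_csub (enc_rat _ 1 2) (pr_scale 325100000 429616471 h1)) (pr_cmul (enc_norm (kfc43_11.enc h1.l h2)) (pr_nd (pr_scale 1432000000 429616471 h1)))))))))⟩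
noncomputable def lc43_s : Sl2 lc43 := ⟨_, fun h1 h2 => (pr_norm (pr_mul (pr_norm (pr_add (pr_scale 2 5 (pr_subr 1 2 (swg_s.snd (pr_nd (ycg_s.snd h1))))) (pr_scale 3 5 h1))) (pr_norm (pr_case (pr_subr 437 250 (ycg_s.snd h1)) (pr_case (pr_subr 417 250 (ycg_s.snd h1)) (pr_add (pr_subr 61017 70000 (pr_scale 527 840 (ycg_s.snd h1))) (pr_cmul (enc_norm (lc43_11.enc h1.l h2)) (pr_norm (pr_csub (enc_rat _ 16257 7000) (pr_scale 17 14 (ycg_s.snd h1)))))) (pr_add (pr_subr 87187 100000 (pr_scale 251 400 (ycg_s.snd h1))) (pr_cmul (enc_norm (lc43_11.enc h1.l h2)) (pr_norm (pr_csub (enc_rat _ 46389 20000) (pr_scale 97 80 (ycg_s.snd h1))))))) (pr_case (pr_csub (enc_rat _ 151264049 250000000) h1) (pr_add (pr_csub (enc_rat _ 1235745147591 1182960935000) (pr_scale 230400000 236592187 h1)) (pr_cmul (enc_norm (lc43_11.enc h1.l h2)) (pr_norm (pr_addc (pr_scale 48000000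 236592187 h1) (enc_rat _ 864914377 29574023375))))) (pr_case (pr_csub (enc_rat _ 429616471 1000000000) h1) (pr_add (pr_addc (pr_scale 1068000 7017589 h1) (enc_rat _ 318701251659 877198625000)) (pr_cmul (enc_norm (lc43_11.enc h1.l h2)) (pr_norm (pr_addc (pr_scale 1440000 7017589 h1) (enc_rat _ 610601893 21929965625))))) (pr_add (pr_addc (pr_scale 65406800 429616471 h1) (enc_rat _ 908233 2500000)) (pr_cmul (enc_norm (lc43_11.enc h1.l h2)) (pr_norm (pr_csub (enc_rat _ 4729691 2000000) (pr_scale 2248845500 429616471 h1)))))))))))⟩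
noncomputable def kcc43_s : Sl2 kcc43 := ⟨_, fun h1 h2 => (pr_norm (pr_mul (pr_norm (pr_add (pr_scale 2 5 (pr_subr 1 2 (swg_s.snd (pr_nd (ycg_s.snd h1))))) (pr_scale 3 5 h1))) (pr_norm (pr_case (pr_subr 417 250 (ycg_s.snd h1)) (pr_add (pr_subr 98919 35000 (pr_scale 1949 840 (ycg_s.snd h1))) (pr_cmul (enc_norm (kcc43_11.enc h1.l h2)) (pr_norm (pr_csub (enc_rat _ 93501 500) (pr_nat 109 (ycg_s.snd h1)))))) (pr_case (pr_subr 437 250 (ycg_s.snd h1)) (pr_add (pr_subr 141293 50000 (pr_scale 58 25 (ycg_s.snd h1))) (pr_cmul (enc_norm (kcc43_11.enc h1.l h2)) (pr_norm (pr_csub (enc_rat _ 3740457 20000) (pr_scale 8721 80 (ycg_s.snd h1)))))) (pr_add (pr_subr 3343 3340 (pr_scale 372476500000 140555279961 h1)) (pr_cmul (enc_norm (kcc43_11.enc h1.l h2)) (pr_norm (pr_subr 18465 334 (pr_scale 2880941000000 46851759987 h1))))))))))⟩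
noncomputable def kf5q0_s : Sl2 kf5q0 := ⟨_, fun h1 h2 => (pr_norm (pr_sub (pr_mul h1 (kcg_s.snd (pr_nd (pr_half h1)) h2)) (pr_mul (pr_norm (pr_mul (pr_nd (pr_sq h1)) (pr_norm (pr_addc (c3g_s.snd h1) (enc_rat _ 3 2))))) (pr_nd (pr_inv (pr_mul (pr_norm (pr_csub (enc_pnc _ 1) h1)) (pr_norm (pr_cadd (enc_pnc _ 1) h1))))))))⟩
noncomputable def l5q0_6_s : Sl2 l5q0_6 := ⟨_, fun h1 h2 => (pr_half h1)⟩
noncomputable def l5q0_7_s : Sl2 l5q0_7 := ⟨_, fun h1 h2 => (pr_half (c3g_s.snd h1))⟩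
noncomputable def l5q0_8_s : Sl2 l5q0_8 := ⟨_, fun h1 h2 => (pr_scale 1 4 h1)⟩
noncomputable def l5q0_s : Sl2 l5q0 := ⟨_, fun h1 h2 => (pr_norm (pr_add (txg_s.snd (pr_nd (l5q0_6_s.snd h1 h2)) (pr_norm (pr_sub (l5q0_7_s.snd h1 h2) (l5q0_8_s.snd h1 h2))) h2) (txg_s.snd (pr_nd (pr_neg (l5q0_6_s.snd h1 h2))) (pr_norm (pr_add (l5q0_7_s.snd h1 h2) (l5q0_8_s.snd h1 h2))) h2)))⟩
noncomputable def kc5q0_6_s : Sl2 kc5q0_6 := ⟨_, fun h1 h2 => (pr_half h1)⟩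
noncomputable def kc5q0_s : Sl2 kc5q0 := ⟨_, fun h1 h2 => (pr_norm (pr_case (pr_subr 167 1000 (kc5q0_6_s.snd h1 h2)) (pr_add (pr_subr 5511 1000 (pr_scale 6353 835 h1)) (pr_cmul (enc_norm (kc5q0_3.enc h1.l h2)) (pr_norm (pr_csub (enc_rat _ 6097 1000) (pr_scale 4665 167 h1))))) (pr_case (pr_subr 333 1000 (kc5q0_6_s.snd h1 h2)) (pr_add (pr_subr 1829691 332000 (pr_scale 25261 3320 h1)) (pr_cmul (enc_norm (kc5q0_3.enc h1.l h2)) (pr_norm (pr_csub (enc_rat _ 12651 2075) (pr_scale 4637 166 h1))))) (pr_add (pr_subr 4437 3340 (pr_scale 4437 3340 h1)) (pr_cmul (enc_norm (kc5q0_3.enc h1.l h2)) (pr_norm (pr_subr 12507 334 (pr_scale 12507 334 h1))))))))⟩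
noncomputable def kf5q1_s : Sl2 kf5q1 := ⟨_, fun h1 h2 => (pr_norm (pr_add (pr_mul (pr_norm (pr_mul h1 (pr_norm (pr_addc (c3g_s.snd h1) (enc_rat _ 3 2))))) (pr_nd (pr_inv (pr_cadd (enc_pnc _ 1) h1)))) (pr_mul (pr_norm (pr_subn 1 h1)) (kcg_s.snd (pr_nd (pr_half h1)) h2))))⟩
noncomputable def l5q1_7_s : Sl2 l5q1_7 := ⟨_, fun h1 h2 => (pr_half h1)⟩
noncomputable def l5q1_8_s : Sl2 l5q1_8 := ⟨_, fun h1 h2 => (pr_half (c3g_s.snd h1))⟩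
noncomputable def l5q1_9_s : Sl2 l5q1_9 := ⟨_, fun h1 h2 => (pr_scale 1 4 h1)⟩
noncomputable def l5q1_s : Sl2 l5q1 := ⟨_, fun h1 h2 => (pr_norm (pr_add (txg_s.snd (pr_nd (l5q1_7_s.snd h1 h2)) (pr_norm (pr_sub (l5q1_8_s.snd h1 h2) (l5q1_9_s.snd h1 h2))) h2) (txg_s.snd (pr_nd (pr_neg (l5q1_7_s.snd h1 h2))) (pr_norm (pr_add (l5q1_8_s.snd h1 h2) (l5q1_9_s.snd h1 h2))) h2)))⟩
noncomputable def kc5q1_7_s : Sl2 kc5q1_7 := ⟨_, fun h1 h2 => (pr_half h1)⟩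
noncomputable def kc5q1_s : Sl2 kc5q1 := ⟨_, fun h1 h2 => (pr_norm (pr_case (pr_subr 167 1000 (kc5q1_7_s.snd h1 h2)) (pr_add (pr_subr 5511 1000 (pr_scale 6353 835 h1)) (pr_cmul (enc_norm (kc5q1_3.enc h1.l h2)) (pr_norm (pr_csub (enc_rat _ 6097 1000) (pr_scale 4665 167 h1))))) (pr_case (pr_subr 333 1000 (kc5q1_7_s.snd h1 h2)) (pr_add (pr_subr 1829691 332000 (pr_scale 25261 3320 h1)) (pr_cmul (enc_norm (kc5q1_3.enc h1.l h2)) (pr_norm (pr_csub (enc_rat _ 12651 2075) (pr_scale 4637 166 h1))))) (pr_add (pr_subr 4437 3340 (pr_scale 4437 3340 h1)) (pr_cmul (enc_norm (kc5q1_3.enc h1.l h2)) (pr_norm (pr_subr 12507 334 (pr_scale 12507 334 h1))))))))⟩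
noncomputable def kf5q2_s : Sl2 kf5q2 := ⟨_, fun h1 h2 => (pr_norm (pr_add (pr_mul (pr_norm (pr_mul (pr_norm (pr_sub (pr_nat 2 (c3g_s.snd h1)) h1)) (pr_norm (pr_sub (pr_addc (c3g_s.snd h1) (enc_pnc _ 3)) (pr_scale 3 2 h1))))) (pr_nd (pr_inv (pr_nat 4 (pr_csub (enc_pnc _ 2) h1))))) (pr_mul (pr_norm (pr_subn 1 h1)) (kcg_s.snd (pr_norm (pr_sub (pr_scale 1 4 h1) (pr_half (c3g_s.snd h1)))) h2))))⟩
noncomputable def l5q2_7_s : Sl2 l5q2_7 := ⟨_, fun h1 h2 => (pr_half (c3g_s.snd h1))⟩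
noncomputable def l5q2_8_s : Sl2 l5q2_8 := ⟨_, fun h1 h2 => (pr_scale 1 4 h1)⟩
noncomputable def l5q2_9_s : Sl2 l5q2_9 := ⟨_, fun h1 h2 => (pr_sub (l5q2_7_s.snd h1 h2) (l5q2_8_s.snd h1 h2))⟩
noncomputable def l5q2_12_s : Sl2 l5q2_12 := ⟨_, fun h1 h2 => (pr_add (pr_scale 1 4 (c3g_s.snd h1)) (pr_scale 3 8 h1))⟩
noncomputable def l5q2_14_s : Sl2 l5q2_14 := ⟨_, fun h1 h2 => (pr_half (l5q2_9_s.snd h1 h2))⟩
noncomputable def l5q2_s : Sl2 l5q2 := ⟨_, fun h1 h2 => (pr_norm (pr_sub (pr_nat 2 (txg_s.snd (pr_norm (pr_sub (l5q2_8_s.snd h1 h2) (l5q2_7_s.snd h1 h2))) (pr_norm (pr_add (l5q2_12_s.snd h1 h2) (l5q2_14_s.snd h1 h2))) h2)) (txg_s.snd (pr_norm (l5q2_9_s.snd h1 h2)) (pr_norm (pr_sub (l5q2_12_s.snd h1 h2) (l5q2_14_s.snd h1 h2))) h2)))⟩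
noncomputable def kc5q2_9_s : Sl2 kc5q2_9 := ⟨_, fun h1 h2 => (pr_sub (pr_half (c3g_s.snd h1)) (pr_scale 1 4 h1))⟩
noncomputable def kc5q2_32_s : Sl2 kc5q2_32 := ⟨_, fun h1 h2 => (pr_scale 8957 166 (kc5q2_9_s.snd h1 h2))⟩
noncomputable def kc5q2_46_s : Sl2 kc5q2_46 := ⟨_, fun h1 h2 => (pr_add (pr_addc (pr_scale 921 835 (kc5q2_9_s.snd h1 h2)) (enc_rat _ 33 1000)) (pr_cmul (enc_norm (kc5q2_3.enc h1.l h2)) (pr_norm (pr_subr 249 500 (pr_scale 9010 167 (kc5q2_9_s.snd h1 h2))))))⟩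
noncomputable def kc5q2_s : Sl2 kc5q2 := ⟨_, fun h1 h2 => (pr_norm (pr_case (kc5q2_9_s.snd h1 h2) (pr_case (pr_addc (kc5q2_9_s.snd h1 h2) (enc_rat _ 333 1000)) (pr_add (pr_subr 3343 3340 (pr_neg (pr_scale 3343 1670 (kc5q2_9_s.snd h1 h2)))) (pr_cmul (enc_norm (kc5q2_3.enc h1.l h2)) (pr_norm (pr_subr 18465 334 (pr_neg (pr_scale 18465 167 (kc5q2_9_s.snd h1 h2))))))) (pr_case (pr_addc (kc5q2_9_s.snd h1 h2) (enc_rat _ 167 1000)) (pr_add (pr_addc (pr_scale 1831 1660 (kc5q2_9_s.snd h1 h2)) (enc_rat _ 10957 332000)) (pr_cmul (enc_norm (kc5q2_3.enc h1.l h2)) (pr_norm (pr_subr 82509 166000 (kc5q2_32_s.snd h1 h2))))) (kc5q2_46_s.snd h1 h2))) (pr_case (pr_subr 167 1000 (kc5q2_9_s.snd h1 h2)) (kc5q2_46_s.snd h1 h2) (pr_case (pr_subr 333 1000 (kc5q2_9_s.snd h1 h2)) (pr_add (pr_addc (pr_scale 458 415 (kc5q2_9_s.snd h1 h2)) (enc_rat _ 3413 103750)) (pr_cmul (enc_norm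 (kc5q2_3.enc h1.l h2)) (pr_norm (pr_subr 82827 166000 (kc5q2_32_s.snd h1 h2))))) (pr_add (pr_csub (enc_rat _ 1001 835) (pr_scale 2002 835 (kc5q2_9_s.snd h1 h2))) (pr_cmul (enc_norm (kc5q2_3.enc h1.l h2)) (pr_norm (pr_csub (enc_rat _ 17469 334) (pr_scale 17469 167 (kc5q2_9_s.snd h1 h2))))))))))⟩
noncomputable def kfc53_s : Sl2 kfc53 := ⟨_, fun h1 h2 => (pr_norm (pr_sub (pr_mul (pr_norm (pr_subn 2 (ycg_s.snd h1))) (kcg_s.snd (pr_norm (pr_sub (pr_scale 1 4 (ycg_s.snd h1)) (pr_half h1))) h2)) (pr_mul (pr_norm (pr_mul (pr_norm (pr_sub (pr_nat 2 h1) (ycg_s.snd h1))) (pr_norm (pr_sub (pr_addc h1 (enc_pnc _ 3)) (pr_scale 3 2 (ycg_s.snd h1)))))) (pr_nd (pr_inv (pr_nat 4 (pr_subn 1 (ycg_s.snd h1))))))))⟩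
noncomputable def lc53_7_s : Sl2 lc53_7 := ⟨_, fun h1 h2 => (pr_half h1)⟩
noncomputable def lc53_8_s : Sl2 lc53_8 := ⟨_, fun h1 h2 => (pr_scale 1 4 (ycg_s.snd h1))⟩
noncomputable def lc53_9_s : Sl2 lc53_9 := ⟨_, fun h1 h2 => (pr_sub (lc53_7_s.snd h1 h2) (lc53_8_s.snd h1 h2))⟩
noncomputable def lc53_12_s : Sl2 lc53_12 := ⟨_, fun h1 h2 => (pr_add (pr_scale 1 4 h1) (pr_scale 3 8 (ycg_s.snd h1)))⟩
noncomputable def lc53_14_s : Sl2 lc53_14 := ⟨_, fun h1 h2 => (pr_half (lc53_9_s.snd h1 h2))⟩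
noncomputable def lc53_s : Sl2 lc53 := ⟨_, fun h1 h2 => (pr_norm (pr_sub (pr_nat 2 (txg_s.snd (pr_norm (pr_sub (lc53_8_s.snd h1 h2) (lc53_7_s.snd h1 h2))) (pr_norm (pr_add (lc53_12_s.snd h1 h2) (lc53_14_s.snd h1 h2))) h2)) (txg_s.snd (pr_norm (lc53_9_s.snd h1 h2)) (pr_norm (pr_sub (lc53_12_s.snd h1 h2) (lc53_14_s.snd h1 h2))) h2)))⟩
noncomputable def kcc53_9_s : Sl2 kcc53_9 := ⟨_, fun h1 h2 => (pr_sub (pr_half h1) (pr_scale 1 4 (ycg_s.snd h1)))⟩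
noncomputable def kcc53_32_s : Sl2 kcc53_32 := ⟨_, fun h1 h2 => (pr_scale 8957 166 (kcc53_9_s.snd h1 h2))⟩
noncomputable def kcc53_46_s : Sl2 kcc53_46 := ⟨_, fun h1 h2 => (pr_add (pr_addc (pr_scale 921 835 (kcc53_9_s.snd h1 h2)) (enc_rat _ 33 1000)) (pr_cmul (enc_norm (kcc53_4.enc h1.l h2)) (pr_norm (pr_subr 249 500 (pr_scale 9010 167 (kcc53_9_s.snd h1 h2))))))⟩
noncomputable def kcc53_s : Sl2 kcc53 := ⟨_, fun h1 h2 => (pr_norm (pr_case (kcc53_9_s.snd h1 h2) (pr_case (pr_addc (kcc53_9_s.snd h1 h2) (enc_rat _ 333 1000)) (pr_add (pr_subr 3343 3340 (pr_neg (pr_scale 3343 1670 (kcc53_9_s.snd h1 h2)))) (pr_cmul (enc_norm (kcc53_4.enc h1.l h2)) (pr_norm (pr_subr 18465 334 (pr_neg (pr_scale 18465 167 (kcc53_9_s.snd h1 h2))))))) (pr_case (pr_addc (kcc53_9_s.snd h1 h2) (enc_rat _ 167 1000)) (pr_add (pr_addc (pr_scale 1831 1660 (kcc53_9_s.snd h1 h2)) (enc_rat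 _ 10957 332000)) (pr_cmul (enc_norm (kcc53_4.enc h1.l h2)) (pr_norm (pr_subr 82509 166000 (kcc53_32_s.snd h1 h2))))) (kcc53_46_s.snd h1 h2))) (pr_case (pr_subr 167 1000 (kcc53_9_s.snd h1 h2)) (kcc53_46_s.snd h1 h2) (pr_case (pr_subr 333 1000 (kcc53_9_s.snd h1 h2)) (pr_add (pr_addc (pr_scale 458 415 (kcc53_9_s.snd h1 h2)) (enc_rat _ 3413 103750)) (pr_cmul (enc_norm (kcc53_4.enc h1.l h2)) (pr_norm (pr_subr 82827 166000 (kcc53_32_s.snd h1 h2))))) (pr_add (pr_csub (enc_rat _ 1001 835) (pr_scale 2002 835 (kcc53_9_s.snd h1 h2))) (pr_cmul (enc_norm (kcc53_4.enc h1.l h2)) (pr_norm (pr_csub (enc_rat _ 17469 334) (pr_scale 17469 167 (kcc53_9_s.snd h1 h2))))))))))⟩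
noncomputable def gB0q0 : Gn := ⟨ndB0q0, c1g_s, kf0q0_s, l0q0_s, false⟩
noncomputable def dB0q0 : CnW := ⟨cd0q0, kc0q0_s⟩
noncomputable def gB0q1 : Gn := ⟨ndB0q1, c1g_s, kf0q1_s, l0q1_s, false⟩
noncomputable def dB0q1 : CnW := ⟨cd0q1, kc0q1_s⟩
noncomputable def gB0q2 : Gn := ⟨ndB0q2, idf_s, kfc02_s, lc02_s, true⟩
noncomputable def dB0q2 : CnW := ⟨cd0q2, kcc02_s⟩
noncomputable def gB1q0 : Gn := ⟨ndB1q0, cv1m_s, kf1q0_s, l1q0_s, false⟩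
noncomputable def dB1q0 : CnW := ⟨cd1q0, kc1q0_s⟩
noncomputable def gB1q1 : Gn := ⟨ndB1q1, cv1m_s, kf1q1_s, l1q1_s, false⟩
noncomputable def dB1q1 : CnW := ⟨cd1q1, kc1q1_s⟩
noncomputable def gB1q2 : Gn := ⟨ndB1q2, cv1p_s, kf1q2_s, l1q2_s, false⟩
noncomputable def dB1q2 : CnW := ⟨cd1q2, kc1q2_s⟩
noncomputable def gB1q3 : Gn := ⟨ndB1q3, cv1r_s, kf1q3_s, l1q3_s, false⟩
noncomputable def dB1q3 : CnW := ⟨cd1q3, kc1q3_s⟩
noncomputable def gB2q0 : Gn := ⟨ndB2q0, cv2m_s, kf2q0_s, l2q0_s, false⟩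
noncomputable def dB2q0 : CnW := ⟨cd2q0, kc2q0_s⟩
noncomputable def gB2q1 : Gn := ⟨ndB2q1, cv2m_s, kf2q1_s, l2q1_s, false⟩
noncomputable def dB2q1 : CnW := ⟨cd2q1, kc2q1_s⟩
noncomputable def gB2q2 : Gn := ⟨ndB2q2, cv2p_s, kf2q2_s, l2q2_s, false⟩
noncomputable def dB2q2 : CnW := ⟨cd2q2, kc2q2_s⟩
noncomputable def gB2q3 : Gn := ⟨ndB2q3, cv2r_s, kf2q3_s, l2q3_s, false⟩
noncomputable def dB2q3 : CnW := ⟨cd2q3, kc2q3_s⟩
noncomputable def gB3q0 : Gn := ⟨ndB3q0, cv3m_s, kf3q0_s, l3q0_s, false⟩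
noncomputable def dB3q0 : CnW := ⟨cd3q0, kc3q0_s⟩
noncomputable def gB3q1 : Gn := ⟨ndB3q1, cv3m_s, kf3q1_s, l3q1_s, false⟩
noncomputable def dB3q1 : CnW := ⟨cd3q1, kc3q1_s⟩
noncomputable def gB3q2 : Gn := ⟨ndB3q2, cv3p_s, kf3q2_s, l3q2_s, false⟩
noncomputable def dB3q2 : CnW := ⟨cd3q2, kc3q2_s⟩
noncomputable def gB3q3 : Gn := ⟨ndB3q3, xc33_s, kfc33_s, lc33_s, false⟩
noncomputable def dB3q3 : CnW := ⟨cd3q3, kcc33_s⟩
noncomputable def gB4q0 : Gn := ⟨ndB4q0, cv4m_s, kf4q0_s, l4q0_s, false⟩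
noncomputable def dB4q0 : CnW := ⟨cd4q0, kc4q0_s⟩
noncomputable def gB4q1 : Gn := ⟨ndB4q1, cv4m_s, kf4q1_s, l4q1_s, false⟩
noncomputable def dB4q1 : CnW := ⟨cd4q1, kc4q1_s⟩
noncomputable def gB4q2 : Gn := ⟨ndB4q2, cv4p_s, kf4q2_s, l4q2_s, false⟩
noncomputable def dB4q2 : CnW := ⟨cd4q2, kc4q2_s⟩
noncomputable def gB4q3 : Gn := ⟨ndB4q3, xc43_s, kfc43_s, lc43_s, false⟩
noncomputable def dB4q3 : CnW := ⟨cd4q3, kcc43_s⟩
noncomputable def gB5q0 : Gn := ⟨ndB5q0, c3g_s, kf5q0_s, l5q0_s, false⟩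
noncomputable def dB5q0 : CnW := ⟨cd5q0, kc5q0_s⟩
noncomputable def gB5q1 : Gn := ⟨ndB5q1, c3g_s, kf5q1_s, l5q1_s, false⟩
noncomputable def dB5q1 : CnW := ⟨cd5q1, kc5q1_s⟩
noncomputable def gB5q2 : Gn := ⟨ndB5q2, c3g_s, kf5q2_s, l5q2_s, false⟩
noncomputable def dB5q2 : CnW := ⟨cd5q2, kc5q2_s⟩
noncomputable def gB5q3 : Gn := ⟨ndB5q3, idf_s, kfc53_s, lc53_s, false⟩
noncomputable def dB5q3 : CnW := ⟨cd5q3, kcc53_s⟩
noncomputable def gB0q3 : Gn := gz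
noncomputable def dB0q3 : CnW := ⟨fz2, fz2_s⟩
noncomputable def gB (j : Fin 6) (q : ℕ) : Gn :=
  match j, q with
  | 0, 0 => gB0q0
  | 0, 1 => gB0q1
  | 0, 2 => gB0q2
  | 0, 3 => gB0q3
  | 1, 0 => gB1q0
  | 1, 1 => gB1q1
  | 1, 2 => gB1q2
  | 1, 3 => gB1q3
  | 2, 0 => gB2q0
  | 2, 1 => gB2q1
  | 2, 2 => gB2q2
  | 2, 3 => gB2q3
  | 3, 0 => gB3q0
  | 3, 1 => gB3q1
  | 3, 2 => gB3q2
  | 3, 3 => gB3q3
  | 4, 0 => gB4q0
  | 4, 1 => gB4q1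
  | 4, 2 => gB4q2
  | 4, 3 => gB4q3
  | 5, 0 => gB5q0
  | 5, 1 => gB5q1
  | 5, 2 => gB5q2
  | 5, 3 => gB5q3
  | _, _ => gB0q0

noncomputable def dB (j : Fin 6) (q : ℕ) : CnW :=
  match j, q with
  | 0, 0 => dB0q0
  | 0, 1 => dB0q1
  | 0, 2 => dB0q2
  | 0, 3 => dB0q3
  | 1, 0 => dB1q0
  | 1, 1 => dB1q1
  | 1, 2 => dB1q2
  | 1, 3 => dB1q3
  | 2, 0 => dB2q0
  | 2, 1 => dB2q1
  | 2, 2 => dB2q2
  | 2, 3 => dB2q3
  | 3, 0 => dB3q0
  | 3, 1 => dB3q1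
  | 3, 2 => dB3q2
  | 3, 3 => dB3q3
  | 4, 0 => dB4q0
  | 4, 1 => dB4q1
  | 4, 2 => dB4q2
  | 4, 3 => dB4q3
  | 5, 0 => dB5q0
  | 5, 1 => dB5q1
  | 5, 2 => dB5q2
  | 5, 3 => dB5q3
  | _, _ => dB0q0

noncomputable def c0B : Fn1 := ⟨fun _ => pone, fun _ => 1, fun _ => enc_one _⟩

end Pool.Agent.Strip051.G.I69_7273.Tab
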