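import Pool.Agent.Strip051.PB.MolN
import Pool.Agent.Strip051.G.I69_7273.Tab

/-! # The tight charts of a table: data (generated) -/

set_option linter.all false

namespace Pool.Agent.Strip051.G.I69_7273.Tab.Mo

open Pool.Agent.Strip051.PB Pool.Agent.Strip051.PB.Mol
open Pool.Agent.Strip051.G.I69_7273.Tab

noncomputable def dq : Fn3 :=
  dqQ (lnF false 67673859 62500000 false 20008707 312500 14173 20000) (lnF false 2589773 1000000 true 4392159 20000 14173 20000)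

noncomputable def mL : Fn2 :=
  exH2 (exQ (exC (lnF false 277619 5000000 false 1138913 1000000 14173 20000)) (lnF false 8391 12500 true 39909 1250 14173 20000) false) (lnF false 27 10000000 true 23 1000000 14173 20000) (lnF false 2531 100000 false 414831 10000 14173 20000) false 1 25

noncomputable def mR : Fn2 :=
  exH2 (exQ (exC (lnF true 3910551 10000000 true 1467151 500000 14173 20000)) (lnF true 22231 100000 false 91697 2500 14173 20000) true) (lnF true 1 10000000 true 1 250000 14173 20000) (lnF true 48219 100000 true 791 25 14173 20000) true 1 25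

noncomputable def kp : Fn2 :=
  plA (cnF false 0 1) (lnF false 0 1 false 4 235 14173 20000) false 1 2

noncomputable def kb : Fn2 :=
  plA (cnF false 0 1) (lnF false 401 835 true 6943 167 14173 20000) false 1 2

noncomputable def rK1 : Fn2 :=
  exC (lnF true 919 625 true 404 125 14173 20000)

noncomputable def rX1 : Fn2 :=
  exC (lnF true 564 625 true 524 125 14173 20000)

noncomputable def rD1 : Fn2 :=
  tmF (exC (lnF false 0 1 false 300 77 14173 20000)) 0

noncomputable def sk1 : MolS :=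
  stK 4 1 5 rK1 rX1 rD1

noncomputable def rK2 : Fn2 :=
  exC (lnF true 831 625 true 938 125 14173 20000)

noncomputable def rX2 : Fn2 :=
  exC (lnF true 62 125 true 496 125 14173 20000)

noncomputable def rD2 : Fn2 :=
  tmF (exC (lnF false 319 775 false 2917 155 14173 20000)) 0

noncomputable def sk2 : MolS :=
  stK 1 1 2 rK2 rX2 rD2

noncomputable def sp : MolS :=
  stP kcg mL mR kp

noncomputable def sm : MolS :=
  stM kcg mR kb

noncomputable def sK_Ap : Fn3 :=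
  sl0 (slF (w3W false) cv2r (w3K false 2 kcg) kf2q3)

noncomputable def sX_Ap : Fn3 :=
  sl0 (slF (w3W false) cv2r (w3Q false kcg) l2q3)

noncomputable def sD_Ap : Fn3 :=
  sl0 (slF (w3W false) cv2r (w3D false 2 kcg) (tmF kc2q3 2))

noncomputable def T_Ap : MolT :=
  ⟨kcg, dq, sp, 3, sK_Ap, sX_Ap, sD_Ap, 4, 1, 2333, 1000⟩

noncomputable def sk_Ap : List Fn3 := [skP true 20971520, skM true 20971520]

noncomputable def cx_Ap : List Fn3 :=
  [f3A sp.xs (tCC (w3W false) cv2r),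
    f3A sp.xs (tCC cv3r (w3W false)),
    f3A sp.xs (tCX cv3r)]

noncomputable def c0_Ap : Cht := k0Ap (T_Ap.a true) sk_Ap cx_Ap

noncomputable def c2_Ap : Cht := k2Ap (T_Ap.a true) sk_Ap cx_Ap

noncomputable def sK_Apk1 : Fn3 :=
  sl0 (slF (w3W false) cv2r (w3K false 2 kcg) kf2q3)

noncomputable def sX_Apk1 : Fn3 :=
  sl0 (slF (w3W false) cv2r (w3Q false kcg) l2q3)

noncomputable def sD_Apk1 : Fn3 :=
  sl0 (slF (w3W false) cv2r (w3D false 2 kcg) (tmF kc2q3 2))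

noncomputable def T_Apk1 : MolT :=
  ⟨kcg, dq, sk1, 3, sK_Apk1, sX_Apk1, sD_Apk1, 4, 1, 2333, 1000⟩

noncomputable def sk_Apk1 : List Fn3 := [skP true 20971520, skM true 20971520]

noncomputable def cx_Apk1 : List Fn3 :=
  [f3A sk1.xs (tCC (w3W false) cv2r),
    f3A sk1.xs (tCC cv3r (w3W false)),
    f3A sk1.xs (tCX cv3r)]

noncomputable def c0_Apk1 : Cht := k0Ap (T_Apk1.a true) sk_Apk1 cx_Apk1

noncomputable def c2_Apk1 : Cht := k2Ap (T_Apk1.a true) sk_Apk1 cx_Apk1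

noncomputable def sK_Apk2 : Fn3 :=
  sl0 (slF (w3W false) cv2r (w3K false 2 kcg) kf2q3)

noncomputable def sX_Apk2 : Fn3 :=
  sl0 (slF (w3W false) cv2r (w3Q false kcg) l2q3)

noncomputable def sD_Apk2 : Fn3 :=
  sl0 (slF (w3W false) cv2r (w3D false 2 kcg) (tmF kc2q3 2))

noncomputable def T_Apk2 : MolT :=
  ⟨kcg, dq, sk2, 3, sK_Apk2, sX_Apk2, sD_Apk2, 4, 1, 2333, 1000⟩

noncomputable def sk_Apk2 : List Fn3 := [skP true 20971520, skM true 20971520]

noncomputable def cx_Apk2 : List Fn3 :=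
  [f3A sk2.xs (tCC (w3W false) cv2r),
    f3A sk2.xs (tCC cv3r (w3W false)),
    f3A sk2.xs (tCX cv3r)]

noncomputable def c0_Apk2 : Cht := k0Ap (T_Apk2.a true) sk_Apk2 cx_Apk2

noncomputable def c2_Apk2 : Cht := k2Ap (T_Apk2.a true) sk_Apk2 cx_Apk2

noncomputable def sK_Am : Fn3 :=
  sl0 (slF (w3W false) cv2r (w3K false 2 kcg) kf2q3)

noncomputable def sX_Am : Fn3 :=
  sl0 (slF (w3W false) cv2r (w3Q false kcg) l2q3)

noncomputable def sD_Am : Fn3 :=
  sl0 (slF (w3W false) cv2r (w3D false 2 kcg) (tmF kc2q3 2))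

noncomputable def T_Am : MolT :=
  ⟨kcg, dq, sm, 3, sK_Am, sX_Am, sD_Am, 4, 1, 2333, 1000⟩

noncomputable def sk_Am : List Fn3 := [skP true 20971520, skM true 20971520]

noncomputable def cx_Am : List Fn3 :=
  [f3A sm.xs (tCC (w3W false) cv2r),
    f3A sm.xs (tCC cv3r (w3W false)),
    f3A sm.xs (tXC cv2r)]

noncomputable def c0_Am : Cht := k0Am (T_Am.a false) sk_Am cx_Am

noncomputable def c2_Am : Cht := k2Am (T_Am.a false) sk_Am cx_Am

noncomputable def sK_Bp : Fn3 :=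
  sl0 (slF (w3W true) cv2m (w3K true 0 kcg) kf2q0)

noncomputable def sX_Bp : Fn3 :=
  sl0 (slF (w3W true) cv2m (w3Q true kcg) l2q0)

noncomputable def sD_Bp : Fn3 :=
  sl0 (slF (w3W true) cv2m (w3D true 0 kcg) (tmF kc2q0 0))

noncomputable def T_Bp : MolT :=
  ⟨kcg, dq, sp, 0, sK_Bp, sX_Bp, sD_Bp, 4, 1, 2333, 1000⟩

noncomputable def sk_Bp : List Fn3 := [skP false 20971520, skM false 20971520]

noncomputable def cx_Bp : List Fn3 :=
  [f3B sp.xs (tCC (w3W true) cv2m),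
    f3B sp.xs (tCC cv3m (w3W true)),
    f3B sp.xs (tXC cv2m)]

noncomputable def c0_Bp : Cht := k0Bp (T_Bp.b true) sk_Bp cx_Bp

noncomputable def c2_Bp : Cht := k2Bp (T_Bp.b true) sk_Bp cx_Bp

noncomputable def sK_Bpk1 : Fn3 :=
  sl0 (slF (w3W true) cv2m (w3K true 0 kcg) kf2q0)

noncomputable def sX_Bpk1 : Fn3 :=
  sl0 (slF (w3W true) cv2m (w3Q true kcg) l2q0)

noncomputable def sD_Bpk1 : Fn3 :=
  sl0 (slF (w3W true) cv2m (w3D true 0 kcg) (tmF kc2q0 0))

noncomputable def T_Bpk1 : MolT :=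
  ⟨kcg, dq, sk1, 0, sK_Bpk1, sX_Bpk1, sD_Bpk1, 4, 1, 2333, 1000⟩

noncomputable def sk_Bpk1 : List Fn3 := [skP false 20971520, skM false 20971520]

noncomputable def cx_Bpk1 : List Fn3 :=
  [f3B sk1.xs (tCC (w3W true) cv2m),
    f3B sk1.xs (tCC cv3m (w3W true)),
    f3B sk1.xs (tXC cv2m)]

noncomputable def c0_Bpk1 : Cht := k0Bp (T_Bpk1.b true) sk_Bpk1 cx_Bpk1

noncomputable def c2_Bpk1 : Cht := k2Bp (T_Bpk1.b true) sk_Bpk1 cx_Bpk1

noncomputable def sK_Bpk2 : Fn3 :=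
  sl0 (slF (w3W true) cv2m (w3K true 0 kcg) kf2q0)

noncomputable def sX_Bpk2 : Fn3 :=
  sl0 (slF (w3W true) cv2m (w3Q true kcg) l2q0)

noncomputable def sD_Bpk2 : Fn3 :=
  sl0 (slF (w3W true) cv2m (w3D true 0 kcg) (tmF kc2q0 0))

noncomputable def T_Bpk2 : MolT :=
  ⟨kcg, dq, sk2, 0, sK_Bpk2, sX_Bpk2, sD_Bpk2, 4, 1, 2333, 1000⟩

noncomputable def sk_Bpk2 : List Fn3 := [skP false 20971520, skM false 20971520]

noncomputable def cx_Bpk2 : List Fn3 :=
  [f3B sk2.xs (tCC (w3W true) cv2m),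
    f3B sk2.xs (tCC cv3m (w3W true)),
    f3B sk2.xs (tXC cv2m)]

noncomputable def c0_Bpk2 : Cht := k0Bp (T_Bpk2.b true) sk_Bpk2 cx_Bpk2

noncomputable def c2_Bpk2 : Cht := k2Bp (T_Bpk2.b true) sk_Bpk2 cx_Bpk2

noncomputable def sK_Bm : Fn3 :=
  sl0 (slF (w3W true) cv2m (w3K true 0 kcg) kf2q0)

noncomputable def sX_Bm : Fn3 :=
  sl0 (slF (w3W true) cv2m (w3Q true kcg) l2q0)

noncomputable def sD_Bm : Fn3 :=
  sl0 (slF (w3W true) cv2m (w3D true 0 kcg) (tmF kc2q0 0))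

noncomputable def T_Bm : MolT :=
  ⟨kcg, dq, sm, 0, sK_Bm, sX_Bm, sD_Bm, 4, 1, 2333, 1000⟩

noncomputable def sk_Bm : List Fn3 := [skP false 20971520, skM false 20971520]

noncomputable def cx_Bm : List Fn3 :=
  [f3B sm.xs (tCC (w3W true) cv2m),
    f3B sm.xs (tCC cv3m (w3W true)),
    f3B sm.xs (tCX cv3m)]

noncomputable def c0_Bm : Cht := k0Bm (T_Bm.b false) sk_Bm cx_Bm

noncomputable def c2_Bm : Cht := k2Bm (T_Bm.b false) sk_Bm cx_Bm

end Pool.Agent.Strip051.G.I69_7273.Tab.Mo
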