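import Pool.Agent.Strip051.G.I69_7273.AsmBA0
import Pool.Agent.Strip051.G.I69_7273.AsmBA1
import Pool.Agent.Strip051.G.I69_7273.AsmBA2
import Pool.Agent.Strip051.G.I69_7273.AsmBB0
import Pool.Agent.Strip051.G.I69_7273.AsmBB1
import Pool.Agent.Strip051.G.I69_7273.AsmBB2
import Pool.Agent.Strip051.G.I69_7273.AsmBB3
import Pool.Agent.Strip051.G.I69_7273.AsmBB4

/-! # Rows from certificates (generated) -/

set_option linter.all false
set_option maxRecDepth 100000

namespace Pool.Agent.Strip051.G.I69_7273.Tab

open Pool.Agent.Strip051.PB Pool.Agent.StripNear Pool.Agent.Strip051.LC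

theorem rowsE {x : ℝ} (hx : ((740881858 : ℕ) : ℝ) / S ≤ x) (hx' : x ≤ (((740881858 : ℕ) : ℝ) + (40050571 : ℕ)) / S) :
    RowsE PP tK tL (smT h0⁻¹ tC) (tnt (h0 * x) (1 / 5)) 3 0 (ken x / h0) x (eng.v x) (h0 * (1 / 20)) := by
  have hκ : ken x / h0 * h0 = ken x := ken_h0 x
  have h1 := hx1 hx
  have h2 := hx2 hx'
  exact {
    two := by norm_num
    lv0 := le_rfl
    κ0 := div_nonneg (ken_nonneg h1.le h2.le) h0_pos.le
    x0 := h1.le
    x1 := h2
    E0 := (en_pos h1.le).le
    pinA := pinK hx hx'
    pinL := pinL hx hx'
    pinC := (thrB hx hx').pin.smul _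
    den := tnt_den (by norm_num) (by norm_num) h1 h2
    osc := fun a b => (tnt_osc' (th := 1 / 5) (by norm_num) (by norm_num) h1 h2 a b).trans (le_of_eq (by ring))
    one := fun j => by
      fin_cases j
      · exact one0 hx hx'
      · exact one1 hx hx'
      · exact one2 hx hx'
      · exact one3 hx hx'
      · exact one4 hx hx'
      · exact one5 hx hx'
    famA := fun j k hjk => by
      fin_cases j <;> fin_cases k
      · exact BA00 hκ hx hx'
      · exact BA01 hκ hx hx'
      · exact BA02 hκ hx hx'
      · exact BA03 hκ hx hx'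
      · exact BA04 hκ hx hx'
      · exact BA05 hκ hx hx'
      · exact absurd hjk (by decide)
      · exact BA11 hκ hx hx'
      · exact BA12 hκ hx hx'
      · exact BA13 hκ hx hx'
      · exact BA14 hκ hx hx'
      · exact BA15 hκ hx hx'
      · exact absurd hjk (by decide)
      · exact absurd hjk (by decide)
      · exact BA22 hκ hx hx'
      · exact BA23 hκ hx hx'
      · exact BA24 hκ hx hx'
      · exact BA25 hκ hx hx'
      · exact absurd hjk (by decide)
      · exact absurd hjk (by decide)
      · exact absurd hjk (by decide)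
      · exact BA33 hκ hx hx'
      · exact BA34 hκ hx hx'
      · exact BA35 hκ hx hx'
      · exact absurd hjk (by decide)
      · exact absurd hjk (by decide)
      · exact absurd hjk (by decide)
      · exact absurd hjk (by decide)
      · exact BA44 hκ hx hx'
      · exact BA45 hκ hx hx'
      · exact absurd hjk (by decide)
      · exact absurd hjk (by decide)
      · exact absurd hjk (by decide)
      · exact absurd hjk (by decide)
      · exact absurd hjk (by decide)
      · exact BA55 hκ hx hx'
    famB := fun j k => by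
      fin_cases j <;> fin_cases k
      · exact BB00 hκ hx hx'
      · exact BB01 hκ hx hx'
      · exact BB02 hκ hx hx'
      · exact BB03 hκ hx hx'
      · exact BB04 hκ hx hx'
      · exact BB05 hκ hx hx'
      · exact BB10 hκ hx hx'
      · exact BB11 hκ hx hx'
      · exact BB12 hκ hx hx'
      · exact BB13 hκ hx hx'
      · exact BB14 hκ hx hx'
      · exact BB15 hκ hx hx'
      · exact BB20 hκ hx hx'
      · exact BB21 hκ hx hx'
      · exact BB22 hκ hx hx'
      · exact BB23 hκ hx hx'
      · exact BB24 hκ hx hx'
      · exact BB25 hκ hx hx'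
      · exact BB30 hκ hx hx'
      · exact BB31 hκ hx hx'
      · exact BB32 hκ hx hx'
      · exact BB33 hκ hx hx'
      · exact BB34 hκ hx hx'
      · exact BB35 hκ hx hx'
      · exact BB40 hκ hx hx'
      · exact BB41 hκ hx hx'
      · exact BB42 hκ hx hx'
      · exact BB43 hκ hx hx'
      · exact BB44 hκ hx hx'
      · exact BB45 hκ hx hx'
      · exact BB50 hκ hx hx'
      · exact BB51 hκ hx hx'
      · exact BB52 hκ hx hx'
      · exact BB53 hκ hx hx'
      · exact BB54 hκ hx hx'
      · exact BB55 hκ hx hx'
  }

end Pool.Agent.Strip051.G.I69_7273.Tab
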