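import Pool.Agent.Strip051.G.I69_7273.StH
import Pool.Agent.Strip051.G.I69_7273.StF

/-! # Unit strips 0 (generated) -/

set_option linter.all false
set_option maxRecDepth 100000

namespace Pool.Agent.Strip051.G.I69_7273.Tab.St.C

open Pool.Agent.Strip051.PB Pool.Agent.Strip051.PB.T Pool.Agent.StripNear Pool.Agent.Strip051.LC
open Pool.Agent.Strip051.G.I69_7273.Tab Pool.Agent.Strip051.G.I69_7273.Tab.St

noncomputable def cut_A00pp_001_s1 : Cut := Cut.of [[⟨4, 0, 0, 1449551462⟩]]

noncomputable def f_A00pp_001_s1 : ℕ → ℕ → ℕ → ℕ → Bool := onCell 0 536870912 0 536870912 740881858 40050571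
    (rowF 0 true true true .up 0 0 1 (qsf 0 536870912 0 536870912 1) ndB0q0 ndB0q0 pcB1 cut_A00pp_001_s1 Ext.none)

def k0_A00pp_001_s1 : ∃ t, chk3 f_A00pp_001_s1 t 1 1 1 = true :=
  ⟨(l 4), by decide +kernel⟩

theorem c_A00pp_001_s1 : CertF 0 536870912 0 536870912 740881858 40050571 true true true .up 0 0 1
    ndB0q0 ndB0q0 pcB1 cut_A00pp_001_s1 Ext.none :=
  certF0 (fam := true) (s1 := true) (s2 := true) (a := 0) (b := 0) (c := 1) (cn := .up) (n1 := ndB0q0) (n2 := ndB0q0) (pc := pcB1) (cut := cut_A00pp_001_s1) (xt := Ext.none) (P1 := 0) (W1 := 536870912) (P2 := 0) (W2 := 536870912) (P3 := 740881858) (W3 := 40050571)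
    rfl k0_A00pp_001_s1

theorem s_A00pp_001_s1 {κ x : ℝ} (hκ : κ * h0 = ken x) (hx : ((740881858 : ℕ) : ℝ) / S ≤ x)
    (hx' : x ≤ (((740881858 : ℕ) : ℝ) + (40050571 : ℕ)) / S) :
    AltA (VFD κ) PP tK tL pcB [⟨3, 0, 0, 1449551462⟩] 0 0 1 0 0 (sgb true) (sgb true) x :=
  strip_altAD (m := 1449551462) true rfl hκ (SH.κ0 hκ (SH.hx1 hx).le (SH.hx2 hx').le) (SH.hx1 hx).le (SH.hx2 hx') (covB00).cov (covB00).cov hx hx' c_A00pp_001_s1 cutA_nil (noExt_A)

noncomputable def cut_A00pp_001_s3 : Cut := Cut.of [[⟨3, 0, 0, 2845415833⟩]]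

noncomputable def f_A00pp_001_s3 : ℕ → ℕ → ℕ → ℕ → Bool := onCell 0 536870912 0 536870912 740881858 40050571
    (rowF 0 true true true .up 0 0 1 (qsf 0 536870912 0 536870912 1) ndB0q0 ndB0q0 pcB1 cut_A00pp_001_s3 Ext.none)

def k0_A00pp_001_s3 : ∃ t, chk3 f_A00pp_001_s3 t 1 1 1 = true :=
  ⟨(l 4), by decide +kernel⟩

theorem c_A00pp_001_s3 : CertF 0 536870912 0 536870912 740881858 40050571 true true true .up 0 0 1
    ndB0q0 ndB0q0 pcB1 cut_A00pp_001_s3 Ext.none :=
  certF0 (fam := true) (s1 := true) (s2 := true) (a := 0) (b := 0) (c := 1) (cn := .up) (n1 := ndB0q0) (n2 := ndB0q0) (pc := pcB1) (cut := cut_A00pp_001_s3) (xt := Ext.none) (P1 := 0) (W1 := 536870912) (P2 := 0) (W2 := 536870912) (P3 := 740881858) (W3 := 40050571)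
    rfl k0_A00pp_001_s3

theorem s_A00pp_001_s3 {κ x : ℝ} (hκ : κ * h0 = ken x) (hx : ((740881858 : ℕ) : ℝ) / S ≤ x)
    (hx' : x ≤ (((740881858 : ℕ) : ℝ) + (40050571 : ℕ)) / S) :
    AltA (VFD κ) PP tK tL pcB [⟨4, 0, 0, 2845415833⟩] 0 0 1 0 0 (sgb true) (sgb true) x :=
  strip_altAD (m := 2845415833) false rfl hκ (SH.κ0 hκ (SH.hx1 hx).le (SH.hx2 hx').le) (SH.hx1 hx).le (SH.hx2 hx') (covB00).cov (covB00).cov hx hx' c_A00pp_001_s3 cutA_nil (noExt_A)

noncomputable def cut_A00pp_011_s1 : Cut := Cut.of [[⟨4, 0, 0, 1449551462⟩], [⟨0, 0, 0, 67108864⟩, ⟨1, 1, 0, 67108864⟩, ⟨2, 1, 0, 67108864⟩]]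

noncomputable def f_A00pp_011_s1 : ℕ → ℕ → ℕ → ℕ → Bool := onCell 0 536870912 536870912 536870912 740881858 40050571
    (rowF 0 true true true .pnn 0 1 1 (qsf 0 536870912 536870912 536870912 1) ndB0q0 ndB0q1 pcB1 cut_A00pp_011_s1 Ext.none)

def k0_A00pp_011_s1 : ∃ t, chk3 f_A00pp_011_s1 t 1 1 1 = true :=
  ⟨(l 6), by decide +kernel⟩

theorem c_A00pp_011_s1 : CertF 0 536870912 536870912 536870912 740881858 40050571 true true true .pnn 0 1 1
    ndB0q0 ndB0q1 pcB1 cut_A00pp_011_s1 Ext.none :=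
  certF0 (fam := true) (s1 := true) (s2 := true) (a := 0) (b := 1) (c := 1) (cn := .pnn) (n1 := ndB0q0) (n2 := ndB0q1) (pc := pcB1) (cut := cut_A00pp_011_s1) (xt := Ext.none) (P1 := 0) (W1 := 536870912) (P2 := 536870912) (W2 := 536870912) (P3 := 740881858) (W3 := 40050571)
    rfl k0_A00pp_011_s1

theorem s_A00pp_011_s1 {κ x : ℝ} (hκ : κ * h0 = ken x) (hx : ((740881858 : ℕ) : ℝ) / S ≤ x)
    (hx' : x ≤ (((740881858 : ℕ) : ℝ) + (40050571 : ℕ)) / S)
    (H : CutA (VFD κ) PP tK tL pcB (Cut.of [[⟨0, 0, 0, 67108864⟩, ⟨1, 1, 0, 67108864⟩, ⟨2, 1, 0, 67108864⟩]]) 0 1 1 0 0 (sgb true) (sgb true) x) :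
    AltA (VFD κ) PP tK tL pcB [⟨3, 0, 0, 1449551462⟩] 0 1 1 0 0 (sgb true) (sgb true) x :=
  strip_altAD (m := 1449551462) true rfl hκ (SH.κ0 hκ (SH.hx1 hx).le (SH.hx2 hx').le) (SH.hx1 hx).le (SH.hx2 hx') (covB00).cov (covB01).cov hx hx' c_A00pp_011_s1 H (noExt_A)

noncomputable def cut_A00pp_011_s3 : Cut := Cut.of [[⟨3, 0, 0, 2845415833⟩], [⟨0, 0, 0, 67108864⟩, ⟨1, 1, 0, 67108864⟩, ⟨2, 1, 0, 67108864⟩]]

noncomputable def f_A00pp_011_s3 : ℕ → ℕ → ℕ → ℕ → Bool := onCell 0 536870912 536870912 536870912 740881858 40050571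
    (rowF 0 true true true .pnn 0 1 1 (qsf 0 536870912 536870912 536870912 1) ndB0q0 ndB0q1 pcB1 cut_A00pp_011_s3 Ext.none)

def k0_A00pp_011_s3 : ∃ t, chk3 f_A00pp_011_s3 t 1 1 1 = true :=
  ⟨(b (l 4) (a (b (l 4) (a (b (l 4) (a (b (l 4) (a (l 14) (l 4))) (l 4))) (l 4))) (l 4))), by decide +kernel⟩

theorem c_A00pp_011_s3 : CertF 0 536870912 536870912 536870912 740881858 40050571 true true true .pnn 0 1 1
    ndB0q0 ndB0q1 pcB1 cut_A00pp_011_s3 Ext.none :=
  certF0 (fam := true) (s1 := true) (s2 := true) (a := 0) (b := 1) (c := 1) (cn := .pnn) (n1 := ndB0q0) (n2 := ndB0q1) (pc := pcB1) (cut := cut_A00pp_011_s3) (xt := Ext.none) (P1 := 0) (W1 := 536870912) (P2 := 536870912) (W2 := 536870912) (P3 := 740881858) (W3 := 40050571)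
    rfl k0_A00pp_011_s3

theorem s_A00pp_011_s3 {κ x : ℝ} (hκ : κ * h0 = ken x) (hx : ((740881858 : ℕ) : ℝ) / S ≤ x)
    (hx' : x ≤ (((740881858 : ℕ) : ℝ) + (40050571 : ℕ)) / S)
    (H : CutA (VFD κ) PP tK tL pcB (Cut.of [[⟨0, 0, 0, 67108864⟩, ⟨1, 1, 0, 67108864⟩, ⟨2, 1, 0, 67108864⟩]]) 0 1 1 0 0 (sgb true) (sgb true) x) :
    AltA (VFD κ) PP tK tL pcB [⟨4, 0, 0, 2845415833⟩] 0 1 1 0 0 (sgb true) (sgb true) x :=
  strip_altAD (m := 2845415833) false rfl hκ (SH.κ0 hκ (SH.hx1 hx).le (SH.hx2 hx').le) (SH.hx1 hx).le (SH.hx2 hx') (covB00).cov (covB01).cov hx hx' c_A00pp_011_s3 H (noExt_A)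

noncomputable def cut_A00pp_012_s1 : Cut := Cut.of [[⟨4, 0, 0, 1449551462⟩], [⟨0, 0, 0, 67108864⟩, ⟨1, 1, 0, 67108864⟩, ⟨2, 1, 0, 67108864⟩]]

noncomputable def f_A00pp_012_s1 : ℕ → ℕ → ℕ → ℕ → Bool := onCell 0 536870912 536870912 536870912 740881858 40050571
    (rowF 0 true true true .pnp 0 1 2 (qsf 0 536870912 536870912 536870912 2) ndB0q0 ndB0q1 pcB2 cut_A00pp_012_s1 Ext.none)

def k0_A00pp_012_s1 : ∃ t, chk3 f_A00pp_012_s1 t 1 1 1 = true :=
  ⟨(l 6), by decide +kernel⟩

theorem c_A00pp_012_s1 : CertF 0 536870912 536870912 536870912 740881858 40050571 true true true .pnp 0 1 2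
    ndB0q0 ndB0q1 pcB2 cut_A00pp_012_s1 Ext.none :=
  certF0 (fam := true) (s1 := true) (s2 := true) (a := 0) (b := 1) (c := 2) (cn := .pnp) (n1 := ndB0q0) (n2 := ndB0q1) (pc := pcB2) (cut := cut_A00pp_012_s1) (xt := Ext.none) (P1 := 0) (W1 := 536870912) (P2 := 536870912) (W2 := 536870912) (P3 := 740881858) (W3 := 40050571)
    rfl k0_A00pp_012_s1

theorem s_A00pp_012_s1 {κ x : ℝ} (hκ : κ * h0 = ken x) (hx : ((740881858 : ℕ) : ℝ) / S ≤ x)
    (hx' : x ≤ (((740881858 : ℕ) : ℝ) + (40050571 : ℕ)) / S)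
    (H : CutA (VFD κ) PP tK tL pcB (Cut.of [[⟨0, 0, 0, 67108864⟩, ⟨1, 1, 0, 67108864⟩, ⟨2, 1, 0, 67108864⟩]]) 0 1 2 0 0 (sgb true) (sgb true) x) :
    AltA (VFD κ) PP tK tL pcB [⟨3, 0, 0, 1449551462⟩] 0 1 2 0 0 (sgb true) (sgb true) x :=
  strip_altAD (m := 1449551462) true rfl hκ (SH.κ0 hκ (SH.hx1 hx).le (SH.hx2 hx').le) (SH.hx1 hx).le (SH.hx2 hx') (covB00).cov (covB01).cov hx hx' c_A00pp_012_s1 H (noExt_A)

noncomputable def cut_A00pp_012_s3 : Cut := Cut.of [[⟨3, 0, 0, 2845415833⟩], [⟨0, 0, 0, 67108864⟩, ⟨1, 1, 0, 67108864⟩, ⟨2, 1, 0, 67108864⟩]]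

noncomputable def f_A00pp_012_s3 : ℕ → ℕ → ℕ → ℕ → Bool := onCell 0 536870912 536870912 536870912 740881858 40050571
    (rowF 0 true true true .pnp 0 1 2 (qsf 0 536870912 536870912 536870912 2) ndB0q0 ndB0q1 pcB2 cut_A00pp_012_s3 Ext.none)

def k0_A00pp_012_s3 : ∃ t, chk3 f_A00pp_012_s3 t 1 1 1 = true :=
  ⟨(b (l 4) (a (b (l 4) (a (a (a (b (l 1) (b (l 4) (l 14))) (l 4)) (l 4)) (l 4))) (l 4))), by decide +kernel⟩

theorem c_A00pp_012_s3 : CertF 0 536870912 536870912 536870912 740881858 40050571 true true true .pnp 0 1 2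
    ndB0q0 ndB0q1 pcB2 cut_A00pp_012_s3 Ext.none :=
  certF0 (fam := true) (s1 := true) (s2 := true) (a := 0) (b := 1) (c := 2) (cn := .pnp) (n1 := ndB0q0) (n2 := ndB0q1) (pc := pcB2) (cut := cut_A00pp_012_s3) (xt := Ext.none) (P1 := 0) (W1 := 536870912) (P2 := 536870912) (W2 := 536870912) (P3 := 740881858) (W3 := 40050571)
    rfl k0_A00pp_012_s3

theorem s_A00pp_012_s3 {κ x : ℝ} (hκ : κ * h0 = ken x) (hx : ((740881858 : ℕ) : ℝ) / S ≤ x)
    (hx' : x ≤ (((740881858 : ℕ) : ℝ) + (40050571 : ℕ)) / S)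
    (H : CutA (VFD κ) PP tK tL pcB (Cut.of [[⟨0, 0, 0, 67108864⟩, ⟨1, 1, 0, 67108864⟩, ⟨2, 1, 0, 67108864⟩]]) 0 1 2 0 0 (sgb true) (sgb true) x) :
    AltA (VFD κ) PP tK tL pcB [⟨4, 0, 0, 2845415833⟩] 0 1 2 0 0 (sgb true) (sgb true) x :=
  strip_altAD (m := 2845415833) false rfl hκ (SH.κ0 hκ (SH.hx1 hx).le (SH.hx2 hx').le) (SH.hx1 hx).le (SH.hx2 hx') (covB00).cov (covB01).cov hx hx' c_A00pp_012_s3 H (noExt_A)

noncomputable def cut_A00pp_022_s1 : Cut := Cut.of [[⟨4, 0, 0, 1449551462⟩], [⟨0, 0, 0, 67108864⟩, ⟨1, 1, 0, 67108864⟩, ⟨2, 1, 0, 67108864⟩]]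

noncomputable def f_A00pp_022_s1 : ℕ → ℕ → ℕ → ℕ → Bool := onCell 0 536870912 0 536870912 740881858 40050571
    (rowF 0 true true true .pp 0 2 2 (qsf 0 536870912 0 536870912 2) ndB0q0 ndB0q2 pcB2 cut_A00pp_022_s1 Ext.none)

def k0_A00pp_022_s1 : ∃ t, chk3 f_A00pp_022_s1 t 1 1 1 = true :=
  ⟨(l 6), by decide +kernel⟩

theorem c_A00pp_022_s1 : CertF 0 536870912 0 536870912 740881858 40050571 true true true .pp 0 2 2
    ndB0q0 ndB0q2 pcB2 cut_A00pp_022_s1 Ext.none :=
  certF0 (fam := true) (s1 := true) (s2 := true) (a := 0) (b := 2) (c := 2) (cn := .pp) (n1 := ndB0q0) (n2 := ndB0q2) (pc := pcB2) (cut := cut_A00pp_022_s1) (xt := Ext.none) (P1 := 0) (W1 := 536870912) (P2 := 0) (W2 := 536870912) (P3 := 740881858) (W3 := 40050571)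
    rfl k0_A00pp_022_s1

theorem s_A00pp_022_s1 {κ x : ℝ} (hκ : κ * h0 = ken x) (hx : ((740881858 : ℕ) : ℝ) / S ≤ x)
    (hx' : x ≤ (((740881858 : ℕ) : ℝ) + (40050571 : ℕ)) / S)
    (H : CutA (VFD κ) PP tK tL pcB (Cut.of [[⟨0, 0, 0, 67108864⟩, ⟨1, 1, 0, 67108864⟩, ⟨2, 1, 0, 67108864⟩]]) 0 2 2 0 0 (sgb true) (sgb true) x) :
    AltA (VFD κ) PP tK tL pcB [⟨3, 0, 0, 1449551462⟩] 0 2 2 0 0 (sgb true) (sgb true) x :=
  strip_altAD (m := 1449551462) true rfl hκ (SH.κ0 hκ (SH.hx1 hx).le (SH.hx2 hx').le) (SH.hx1 hx).le (SH.hx2 hx') (covB00).cov (covB02).cov hx hx' c_A00pp_022_s1 H (noExt_A)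

noncomputable def cut_A00pp_022_s3 : Cut := Cut.of [[⟨3, 0, 0, 2845415833⟩], [⟨0, 0, 0, 67108864⟩, ⟨1, 1, 0, 67108864⟩, ⟨2, 1, 0, 67108864⟩]]

noncomputable def xt_A00pp_022_s3 : Ext := strExt dd true true true .u0 .u2 .s2 .pp 0 2 2 rfl rfl gl2 vv ndB0q0 ndB0q2

noncomputable def f_A00pp_022_s3 : ℕ → ℕ → ℕ → ℕ → Bool := onCell 0 536870912 0 536870912 740881858 40050571
    (rowF 0 true true true .pp 0 2 2 (qsf 0 536870912 0 536870912 2) ndB0q0 ndB0q2 pcB2 cut_A00pp_022_s3 xt_A00pp_022_s3)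

def k0_A00pp_022_s3 : ∃ t, chk3 f_A00pp_022_s3 t 2 2 1 = true :=
  ⟨(a (b (l 6) (a (l 6) (b (l 6) (b (l 6) (b (a (l 6) (c (a (l 16577696) (l 16586032)) (a (b (l 6) (l 16572256)) (l 16578248)))) (a (a (l 6) (a (l 6) (b (l 6) (l 16543544)))) (a (c (l 16590912) (c (l 16543224) (l 16601400))) (c (l 16599112) (a (l 16589480) (l 16594760)))))))))) (b (a (l 6) (b (l 6) (a (l 6) (b (l 6) (l 16609912))))) (a (b (a (l 6) (b (l 6) (a (l 16668304) (l 16600304)))) (b (a (a (b (l 6) (l 16623320)) (b (l 16584336) (l 16638016))) (a (b (l 16600640) (l 16654296)) (b (l 16616696) (l 16670384)))) (c (a (a (b (l 16597048) (a (l 16607056) (l 16613264))) (b (l 16611056) (b (l 16620656) (l 16627312)))) (a (b (l 16668568) (a (l 16635552) (l 16643296))) (b (l 16684024) (c (l 534341391) (l 16696328))))) (a (a (b (l 16590360) (a (l 16600752) (l 16607528))) (b (l 16647600) (a (l 16615152) (l 16623392)))) (a (b (l 16664504) (a (l 16631736) (l 16640088))) (b (l 16681136) (c (l 16695160)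 (l 16693720)))))))) (b (a (a (b (l 16595136) (l 16615376)) (b (l 16608824) (l 16629352))) (a (b (l 16622080) (l 16642912)) (b (l 16635624) (l 16740536)))) (a (b (a (b (l 16631936) (l 16685680)) (b (l 16646080) (l 16699888))) (a (a (b (l 16652376) (a (l 16663544) (l 16667312))) (b (l 16659776) (l 533540111))) (a (b (l 16666872) (l 533545231)) (b (l 16673768) (l 533812751))))) (b (c (a (l 16708648) (l 16722448)) (a (l 16706824) (l 16720848))) (a (b (a (l 16722624) (l 16729576)) (b (l 533570831) (l 533786895))) (b (a (l 16736560) (l 16743568)) (a (l 533551375) (l 533559311)))))))))), by decide +kernel⟩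

def k1_A00pp_022_s3 : ∃ t, chk3 f_A00pp_022_s3 t 16 12 1 = true :=
  ⟨(b (l 6) (a (b (l 6) (a (l 6) (b (l 6) (a (l 6) (a (l 6) (c (l 16579376) (l 16569016))))))) (b (l 6) (c (c (a (l 16580752) (b (l 16578712) (l 16586848))) (a (b (l 6) (l 16583824)) (l 16587248))) (a (b (l 6) (c (b (l 16577424) (l 16559080)) (l 16583552))) (a (b (l 16557712) (a (l 16561768) (l 16564408))) (b (l 16562888) (l 16557824)))))))), by decide +kernel⟩

def k2_A00pp_022_s3 : ∃ t, chk3 f_A00pp_022_s3 t 16 52 1 = true :=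
  ⟨(a (c (a (a (b (l 6) (c (l 16572848) (l 16568536))) (c (b (l 16573736) (l 16578712)) (b (l 16569216) (l 16574464)))) (c (b (l 16582240) (a (l 16584432) (l 16590016))) (a (b (l 16575000) (l 16580256)) (b (l 16580640) (l 16585920))))) (b (c (a (a (l 6) (l 16564216)) (a (l 16570056) (l 16575768))) (a (a (l 6) (l 16558728)) (a (l 16564608) (l 16570376)))) (a (c (a (l 16563808) (l 16569784)) (a (c (l 16559984) (l 16557304)) (l 16564664))) (c (a (l 16575632) (l 16581360)) (a (l 16570560) (l 16576328)))))) (c (a (c (b (l 16592864) (l 16598152)) (a (l 16588816) (l 16594224))) (c (a (l 16598664) (l 16599920)) (b (l 16599120) (l 16604768)))) (a (c (a (b (l 16581360) (l 16586968)) (b (l 16586832) (l 16592448))) (b (a (l 16576024) (l 16581560)) (a (l 16581992) (l 16587536)))) (a (c (c (l 16596184) (l 16593800)) (b (l 16586984) (l 16592976))) (c (l 16600240) (b (l 16592272) (l 16598296))))))), by decide +kernel⟩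

def k3_A00pp_022_s3 : ∃ t, chk3 f_A00pp_022_s3 t 16 53 1 = true :=
  ⟨(a (c (b (a (a (c (l 16578088) (l 16574048)) (c (l 16583960) (l 16579984))) (c (b (l 16570192) (l 16572896)) (a (l 16585792) (l 16591472)))) (a (a (c (l 16583536) (l 16579752)) (c (l 16589424) (l 16585696))) (c (a (l 16595184) (l 16600808)) (a (l 16591520) (l 16597216))))) (a (c (a (b (l 16569632) (l 16575640)) (b (l 16575616) (l 16581624))) (a (b (c (l 16566080) (l 16563592)) (c (l 16572336) (l 16570024))) (b (l 16576104) (c (l 16578344) (l 16576048))))) (c (b (a (l 16581472) (l 16587208)) (a (l 16587496) (l 16593240))) (a (b (l 16576752) (l 16583112)) (b (l 16582536) (l 16588896)))))) (c (b (a (c (l 16603480) (a (l 16597024) (l 16602456))) (c (l 16611824) (l 16610392))) (a (c (l 16598528) (a (l 16602784) (l 16608232))) (c (l 16619512) (l 16616192)))) (a (c (b (a (l 16592832) (l 16598328)) (a (l 16598872) (l 16604384))) (b (a (l 16588200) (l 16593760)) (a (l 16594576) (l 16600144)))) (c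 (a (b (l 16603712) (l 16609784)) (b (l 16608992) (l 16615080))) (b (b (l 16610784) (l 16613960)) (a (l 16605600) (l 16610952))))))), by decide +kernel⟩

def k4_A00pp_022_s3 : ∃ t, chk3 f_A00pp_022_s3 t 32 27 1 = true :=
  ⟨(c (a (b (c (a (b (l 16589040) (l 16594592)) (b (l 16594944) (l 16600528))) (a (b (l 16585488) (l 16591256)) (b (l 16591448) (l 16597240)))) (b (a (c (l 16600248) (l 16597104)) (c (l 16606200) (l 16603104))) (a (c (l 16606040) (c (l 16603824) (l 16602296))) (c (l 16612016) (l 16609096))))) (b (a (b (c (l 16600720) (l 16597288)) (c (l 16606328) (l 16603096))) (b (c (l 16606368) (l 16603000)) (c (l 16612000) (l 16608832)))) (c (a (b (l 16612032) (l 16617872)) (b (l 16617736) (l 16623608))) (a (b (l 16608984) (l 16615000)) (b (l 16614744) (l 16620784)))))) (a (b (c (a (b (c (l 16582632) (l 16580640)) (c (l 16588584) (l 16586728))) (b (l 16587648) (l 16598928))) (a (b (c (l 16578576) (l 16576432)) (c (l 16584800) (a (l 16581288) (l 16584336))))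 (b (c (l 16584600) (l 16582464)) (c (l 16590840) (l 16588864))))) (c (b (a (c (l 16594600) (l 16592856)) (c (l 16600632) (l 16598904))) (a (c (l 16600712) (l 16599088)) (c (l 16606768) (l 16605152)))) (b (a (c (l 16591064) (a (l 16587680) (l 16590744))) (c (l 16597120) (l 16595280))) (a (c (a (l 16595872) (l 16598936)) (a (l 16594144) (l 16597216))) (c (l 16603488) (l 16601776)))))) (b (c (a (b (l 16593528) (l 16599584)) (b (l 16599296) (l 16605368))) (a (b (c (l 16590504) (l 16588384)) (c (l 16596768) (l 16594800))) (b (l 16595256) (l 16606848)))) (c (a (b (l 16605696) (l 16611912)) (b (l 16611496) (l 16617736))) (a (b (c (l 16603064) (l 16601240)) (c (l 16609456) (l 16607752))) (c (b (l 16608896) (l 16615312)) (b (l 16607080) (l 16613624)))))))), by decide +kernel⟩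

def k5_A00pp_022_s3 : ∃ t, chk3 f_A00pp_022_s3 t 33 27 1 = true :=
  ⟨(c (c (c (b (a (b (l 16615376) (l 16621000)) (l 16628760)) (a (b (l 16626744) (l 16632624)) (b (l 16637384) (l 16622368)))) (b (a (b (l 16592856) (l 16619544)) (a (l 16624720) (l 16629912))) (a (b (l 16625360) (l 16631320)) (b (l 16615104) (l 16642104))))) (b (b (a (a (l 16608592) (l 16614064)) (c (l 16622864) (l 16600240))) (a (a (l 16614440) (l 16619944)) (c (l 16607760) (l 16637672)))) (a (a (b (l 16620384) (l 16626448)) (b (l 16625912) (l 16632008))) (a (b (l 16631320) (l 16637448)) (b (l 16636616) (l 16642776)))))) (c (c (b (a (b (l 16608664) (l 16614704)) (b (l 16629960) (l 16625560))) (a (b (l 16620816) (l 16632288)) (b (l 16631728) (l 16638008)))) (b (a (b (l 16606760) (a (l 16610128) (l 16615696))) (b (l 16617632) (l 16623848))) (a (a (b (l 16616352) (l 16622672)) (b (l 16621944) (l 16628288))) (b (l 16630128) (l 16641768))))) (c (b (a (b (a (l 16601976) (l 16607544)) (a (l 16608272)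 (l 16613864))) (b (l 16615704) (l 16632544))) (a (a (b (l 16614616) (l 16621056)) (b (l 16620232) (l 16626696))) (a (b (l 16625744) (l 16632232)) (b (l 16631152) (l 16637672))))) (b (a (b (a (l 16599896) (l 16605488)) (a (l 16606344) (l 16611952))) (b (l 16618928) (a (l 16617464) (l 16622864)))) (a (a (b (l 16612824) (l 16619384)) (b (l 16618456) (l 16625048))) (a (b (l 16623992) (l 16630608)) (b (l 16629424) (l 16636064)))))))), by decide +kernel⟩

def k6_A00pp_022_s3 : ∃ t, chk3 f_A00pp_022_s3 t 34 12 1 = true :=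
  ⟨(b (l 6) (b (a (b (l 6) (c (c (l 16573152) (l 16577856)) (a (l 16583624) (l 16586872)))) (c (b (b (l 6) (l 16588096)) (a (l 16598536) (l 16600152))) (c (b (l 16583784) (l 16585960)) (b (l 16584968) (l 16591960))))) (c (b (a (c (l 16581272) (l 16585680)) (a (l 16596096) (l 16597752))) (a (c (l 16599984) (l 16593624)) (b (a (l 16591712) (l 16593392)) (a (l 16606304) (l 16597520))))) (c (a (l 16594576) (c (l 16596128) (l 16598664))) (a (c (l 16592696) (l 16589760)) (c (l 16601360) (l 16599400))))))), by decide +kernel⟩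

def k7_A00pp_022_s3 : ∃ t, chk3 f_A00pp_022_s3 t 34 13 2 = true :=
  ⟨(a (b (b (c (a (c (l 16610936) (l 16602200)) (b (l 16598600) (l 16607040))) (a (l 16605072) (l 16606512))) (c (b (a (l 16613984) (l 16615576)) (a (l 16622640) (l 16624288))) (b (l 16618112) (l 16626384)))) (c (b (b (l 16632456) (l 16641064)) (b (l 16646960) (l 16653024))) (b (b (l 16632312) (l 16638304)) (a (b (l 16641808) (l 16648000)) (c (l 16650664) (l 16649352)))))) (b (b (b (c (a (l 16600240) (l 16602024)) (a (l 16603952) (l 16605648))) (c (a (l 16608728) (l 16610552)) (a (l 16612184) (l 16613912)))) (c (b (a (l 16617304) (l 16619168)) (a (l 16605080) (l 16627952))) (b (a (l 16620512) (l 16622280)) (a (l 16629024) (l 16630840))))) (a (b (b (c (l 16635136) (l 16637896)) (l 16645808)) (c (l 16652184) (b (l 16651864) (l 16658128)))) (b (b (c (l 16621352) (l 16639752)) (c (l 16646552) (l 16649032))) (b (l 16657456) (l 16664200)))))), by decide +kernel⟩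

def k8_A00pp_022_s3 : ∃ t, chk3 f_A00pp_022_s3 t 34 13 3 = true :=
  ⟨(c (a (a (b (b (l 16605336) (b (l 16614144) (l 16620256))) (b (b (l 16605432) (l 16632592)) (b (l 16638864) (l 16645240)))) (b (b (l 16610288) (b (l 16619160) (l 16625312))) (b (b (l 16631504) (l 16616752)) (b (l 16644016) (l 16650432))))) (b (b (b (l 16609024) (l 16616968)) (b (l 16625016) (l 16632656))) (a (b (c (l 16640448) (l 16638800)) (b (l 16628104) (l 16655520))) (b (c (l 16645296) (l 16643696)) (b (l 16654024) (l 16650024)))))) (a (b (b (c (a (l 16580768) (l 16606752)) (b (l 16577640) (l 16589056))) (a (b (l 16609768) (l 16616208)) (b (l 16593896) (l 16600368)))) (a (b (b (l 16622640) (l 16629104)) (b (l 16635616) (l 16642224))) (b (b (l 16627816) (l 16634304)) (b (l 16640840) (l 16647480))))) (b (b (b (l 16609688) (l 16615864)) (a (b (l 16619824) (l 16626344)) (b (l 16624640) (l 16631208)))) (a (b (b (l 16617136) (c (l 16640264) (l 16638496))) (b (l 16656456) (l 16652632))) (b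 (b (l 16637784) (l 16628640)) (b (c (l 16651776) (l 16650184)) (l 16662952))))))), by decide +kernel⟩

def k9_A00pp_022_s3 : ∃ t, chk3 f_A00pp_022_s3 t 35 12 1 = true :=
  ⟨(b (b (l 6) (a (a (l 6) (c (l 16589888) (l 16580240))) (c (b (l 16572232) (l 16598944)) (c (l 16582824) (l 16588080))))) (a (b (c (b (a (a (a (l 533646095) (l 16594360)) (l 16574888)) (l 16577968)) (a (a (l 16601456) (a (l 533607951) (l 533603855))) (c (b (l 16580712) (l 16584032)) (l 16607560)))) (a (b (c (a (l 16601912) (l 16582672)) (l 16588072)) (c (c (l 16608144) (b (l 16567128) (l 16591624))) (l 16594392))) (c (b (l 16585536) (b (l 16590008) (l 16593072))) (l 16594368)))) (a (c (b (c (l 16587112) (l 16591184)) (c (l 16595480) (l 16599272))) (c (c (l 16598632) (l 16580128)) (l 16605120))) (c (b (b (a (c (l 16607624) (l 16590720)) (l 16590328)) (a (l 16592544) (a (l 16614368) (l 16615184)))) (b (c (l 16605880) (l 16599160)) (l 16611832))) (a (b (c (b (l 16595504) (l 16599216)) (l 16602800))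 (c (l 16605072) (l 16610096))) (b (c (b (l 16597120) (l 16600424)) (l 16604136)) (c (b (l 16604072) (l 16607992)) (l 16611016))))))) (b (c (c (b (l 16582112) (l 16588640)) (b (l 16586328) (l 16592616))) (c (b (l 16570312) (l 16576320)) (l 16599800))) (c (a (a (b (l 16594048) (a (b (l 533257743) (l 16602656)) (b (l 16599632) (l 533237007)))) (b (l 16596104) (c (b (l 16599448) (l 16613440)) (l 16625728)))) (c (b (l 16597440) (l 16604328)) (l 16614912))) (a (b (c (l 16601568) (l 16606752)) (a (c (b (l 16605456) (l 16588080)) (l 16612224)) (c (l 16619440) (l 16613784)))) (c (b (l 16605424) (l 16611832)) (l 16613456))))))), by decide +kernel⟩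

def k10_A00pp_022_s3 : ∃ t, chk3 f_A00pp_022_s3 t 35 52 1 = true :=
  ⟨(a (b (c (a (c (l 16603944) (l 16607472)) (c (l 16606000) (l 16609432))) (c (a (l 16611592) (l 16592496)) (l 16617176))) (c (c (a (l 16612512) (l 16614600)) (a (l 16615784) (l 16617784))) (c (c (l 16609048) (l 16621552)) (l 16624840)))) (c (a (c (b (b (a (l 16605480) (a (l 16606344) (l 533177359))) (l 16610336)) (c (l 16616144) (l 16617552))) (b (a (l 16611000) (b (l 533253391) (l 16614160))) (l 16619920))) (a (c (b (b (l 16608576) (a (l 533156367) (l 533153807))) (b (b (l 16615336) (l 16617488)) (l 16620760))) (b (b (l 16611888) (l 533227791)) (b (l 16619504) (l 16623720)))) (a (b (l 16623952) (b (l 533433871) (l 16623072))) (b (l 16614488) (b (l 533164047) (l 533411855)))))) (b (c (a (b (a (l 16612960) (l 533339919)) (l 16617480)) (a (b (l 16615808) (l 533313039)) (l 16619416))) (a (b (l 16618192) (l 16621928)) (a (l 16627280) (l 16623776)))) (a (c (b (l 16621520) (l 16625592)) (l 16627744))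 (a (c (b (l 16623152) (l 16627224)) (l 16629312)) (c (b (l 533286415) (l 533267727)) (l 533374991))))))), by decide +kernel⟩

def k11_A00pp_022_s3 : ∃ t, chk3 f_A00pp_022_s3 t 35 53 1 = true :=
  ⟨(a (c (b (c (a (l 16621160) (l 16633776)) (a (l 16634672) (l 16626224))) (a (c (l 16629984) (l 16617056)) (a (c (l 16631600) (l 16634328)) (a (l 533465103) (l 533454607))))) (b (c (a (l 16627704) (l 16629656)) (l 16631616)) (c (a (l 16636016) (l 16638008)) (c (l 16639224) (l 16637264))))) (b (c (c (c (a (l 16624920) (l 16627336)) (a (l 16626216) (l 16628592))) (a (l 16638880) (b (l 16628568) (l 16632856)))) (c (c (a (l 16630856) (l 16633104)) (b (l 16631696) (l 16625304))) (a (l 16635584) (l 16637720)))) (a (c (a (a (l 533377295) (l 533367055)) (c (l 16635048) (l 16637640))) (c (l 16640136) (l 16643648))) (c (b (c (l 16634608) (l 16637192)) (a (l 16650216) (l 533375503))) (c (a (l 16631328) (l 16642976)) (l 16645824)))))), by decide +kernel⟩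

def k12_A00pp_022_s3 : ∃ t, chk3 f_A00pp_022_s3 t 35 27 1 = true :=
  ⟨(a (b (a (c (b (c (l 16644400) (l 16641736)) (c (l 16648664) (l 16651064))) (c (c (l 16648496) (l 16648456)) (b (l 16642576) (l 16649216)))) (b (c (a (c (l 16640792) (l 16622344)) (c (l 16641928) (l 16644400))) (c (l 16646752) (l 16647224))) (c (c (a (l 16650336) (l 16651488)) (l 16653216)) (c (l 16655888) (l 16653936))))) (c (b (c (a (l 16658488) (l 16660768)) (l 16656552)) (c (l 16669736) (l 16670200))) (c (c (b (l 16661904) (l 16668424)) (b (l 16660528) (l 16667152))) (a (a (b (l 16654688) (l 16661440)) (b (l 16636144) (l 16663896))) (b (l 16660696) (c (l 16668216) (l 16666824))))))) (b (a (c (b (a (a (l 533435663) (l 533424911)) (a (l 533414415) (l 533403919))) (a (b (l 533429263) (l 16635192)) (c (l 16653888) (l 16645608)))) (b (b (l 16637784) (l 16652688)) (c (l 16658080) (l 16658512)))) (c (b (a (c (l 16645520) (l 16647872)) (b (l 16656040) (l 16660720))) (a (b (l 16653752) (l 16669080))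 (b (l 16665488) (l 16670344)))) (b (c (c (l 16650480) (l 16641464)) (l 16654336)) (c (l 16660408) (l 16662960))))) (a (c (b (b (a (l 16661072) (l 16641312)) (l 16656168)) (c (l 16673352) (l 16675256))) (c (b (l 16667608) (l 16674816)) (b (l 16665344) (l 16672256)))) (b (c (a (a (l 532597007) (l 532585743)) (b (l 533102351) (l 533109519))) (c (l 16669968) (l 16669864))) (c (c (l 16673296) (l 16677744)) (c (l 16679328) (l 16676856))))))), by decide +kernel⟩

def k13_A00pp_022_s3 : ∃ t, chk3 f_A00pp_022_s3 t 18 12 1 = true :=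
  ⟨(b (b (a (a (l 6) (c (l 16580728) (l 16584744))) (a (c (l 16588856) (l 16588152)) (c (l 16596968) (l 16602024)))) (a (a (c (c (l 16581216) (l 16606464)) (c (l 16590512) (l 16592224))) (c (c (l 16610512) (l 16593552)) (c (l 16598264) (l 16596232)))) (c (a (c (b (l 16594928) (l 16600856)) (l 16601640)) (c (l 16606128) (l 16609720))) (c (a (l 16604720) (l 16608232)) (a (l 16600080) (l 16603912)))))) (a (a (c (b (b (c (l 16590472) (l 16594384)) (c (l 16597008) (l 16600688))) (b (c (l 16614200) (l 16607160)) (c (a (l 16608512) (l 16612696)) (l 16624312)))) (b (b (l 16601576) (a (l 16605552) (l 16609344))) (c (b (l 16611232) (b (l 16595048) (l 16629760))) (b (l 16615936) (l 16622056))))) (b (c (c (a (l 16620944) (l 16625128)) (b (l 16602480) (l 16608792))) (b (l 16609192) (l 16615080))) (c (c (b (l 16622576) (a (l 16616880) (l 16621080))) (b (l 16625768) (a (l 16619912) (l 16623992)))) (c (c (b (l 16618056) (l 16624536)) (l 16623256)) (b (l 16621960) (l 16629544))))))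 (a (b (c (a (c (l 16629312) (l 16611712)) (c (l 16633496) (l 16615800))) (c (l 16617664) (l 16625424))) (c (c (b (l 16630968) (a (l 16625280) (l 16629488))) (b (c (l 16622664) (l 16603312)) (b (l 16638928) (l 16642320)))) (c (a (l 16638680) (l 16632176)) (b (l 16626352) (l 16634176))))) (c (c (b (b (l 16594536) (a (l 16620032) (l 16624184))) (b (a (l 16626768) (l 16630944)) (a (l 16633680) (l 16637856)))) (b (l 16632384) (a (b (l 16629600) (l 16620560)) (l 16647520)))) (b (c (l 16622920) (b (l 16594216) (l 16622872))) (b (c (l 16634224) (l 16630720)) (c (l 16641368) (l 16641336)))))))), by decide +kernel⟩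

def k14_A00pp_022_s3 : ∃ t, chk3 f_A00pp_022_s3 t 19 12 1 = true :=
  ⟨(b (b (c (a (a (l 16602720) (l 16606296)) (l 16623272)) (a (c (l 16599272) (b (l 16591224) (l 16588120))) (a (l 16624808) (l 16609096)))) (b (c (a (a (l 16613040) (l 16616824)) (l 16623384)) (a (a (l 16606208) (l 16610288)) (a (l 16614920) (l 16620184)))) (c (a (a (l 16618968) (l 16624048)) (c (l 16631736) (l 16629448))) (a (c (l 16617560) (a (l 16611648) (l 16615960))) (a (l 16622504) (l 16627792)))))) (a (c (a (b (b (l 16625240) (l 16631752)) (b (c (l 16637160) (l 16639792)) (a (c (l 16642016) (l 16644464)) (l 16657784)))) (b (a (l 16655104) (l 16657168)) (b (b (l 16644600) (l 16648296)) (b (l 16651712) (l 16655176))))) (b (c (a (l 16626920) (l 16636368)) (a (b (l 16619384) (b (l 16625232) (l 16629200))) (b (l 16623768) (l 16631744)))) (b (c (a (l 16638472) (l 16642896)) (a (c (l 16636088) (l 16634336)) (l 16645120))) (c (a (l 16646408) (l 16651032)) (a (a (l 533305359) (l 16644584))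 (a (l 16647008) (l 16649480))))))) (b (c (a (c (l 16640528) (l 16638368)) (b (l 16640632) (l 16648264))) (a (b (c (l 16631784) (l 16628560)) (a (l 16636920) (l 16639432))) (b (l 16646032) (a (l 16642096) (l 16644928))))) (b (c (a (c (l 16652000) (l 16650040)) (l 16661344)) (a (c (l 16658144) (l 16655344)) (a (l 16660744) (l 16653104)))) (c (c (a (l 16659904) (l 16664952)) (a (l 16658096) (l 533206799))) (a (a (l 533331215) (l 533426703)) (a (l 533121551) (l 533088271)))))))), by decide +kernel⟩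

def k15_A00pp_022_s3 : ∃ t, chk3 f_A00pp_022_s3 t 36 52 1 = true :=
  ⟨(a (c (a (b (c (l 16615584) (l 16618664)) (a (b (l 16621392) (a (l 533408271) (l 16625544))) (c (l 16623904) (l 16626744)))) (b (b (l 16629896) (l 16633424)) (c (c (l 16626432) (l 16627672)) (l 16629776)))) (c (b (b (l 16633064) (l 16636424)) (a (b (l 16627416) (a (l 533259791) (l 16631856))) (l 16633032))) (b (l 16628392) (a (a (l 533369359) (l 16634024)) (l 16636808))))) (b (c (c (a (l 16623952) (l 16628152)) (a (l 16626776) (l 16630856))) (c (c (l 16641704) (a (l 16631040) (l 16634944))) (l 16635880))) (c (c (a (c (l 16630640) (l 16631824)) (c (l 16634856) (l 16635992))) (a (l 16633840) (l 16637912))) (c (a (l 16647432) (c (l 16640096) (l 16641704))) (b (l 16640776) (l 16644104)))))), by decide +kernel⟩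

def k16_A00pp_022_s3 : ∃ t, chk3 f_A00pp_022_s3 t 36 53 1 = true :=
  ⟨(a (c (c (a (a (b (b (a (l 16627312) (l 533083407)) (l 16632048)) (b (l 16636512) (l 16641072))) (b (b (a (l 533081359) (l 16630008)) (a (l 533061391) (l 533056783))) (b (l 16637816) (l 16642384)))) (a (b (b (l 16631576) (l 16635360)) (b (a (l 533033743) (l 533030671)) (a (l 16643392) (l 533014031)))) (b (l 16640784) (b (l 16641304) (a (l 533008143) (l 533006095)))))) (a (b (a (b (l 533156367) (l 16634680)) (b (l 16642672) (l 533128207))) (a (l 16641248) (b (l 16640296) (l 16644752)))) (b (b (l 16635208) (l 16638896)) (a (b (l 533100303) (l 533085455)) (b (l 16643672) (l 533074191)))))) (c (a (b (a (b (l 533238799) (l 16637808)) (a (l 533222927) (l 533220111))) (c (l 16644008) (l 16650816))) (b (l 16645312) (a (b (l 533180943) (l 16659320)) (b (l 16646496) (l 533153807))))) (a (b (a (l 533327119) (c (l 533023503) (l 533342479))) (b (l 16646056) (l 16650216))) (b (l 16643576) (a (c (l 532973839)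 (l 533292047)) (c (l 532965903) (l 533283855))))))) (c (b (c (a (c (l 16643384) (l 16639232)) (b (l 16640984) (l 16644760))) (a (l 16646336) (b (l 16643336) (l 16647016)))) (c (a (b (l 16644432) (c (l 16647928) (l 16648920))) (b (l 16653856) (c (l 16652128) (l 16653064)))) (a (c (l 16648040) (l 16649272)) (c (l 16652136) (l 16653296))))) (c (a (b (l 16649216) (b (l 16649424) (l 16653208))) (b (c (l 16647176) (l 16648664)) (b (l 16653352) (l 16657136)))) (b (a (l 16647320) (l 16651096)) (a (c (l 16658832) (l 16655248)) (l 16658176)))))), by decide +kernel⟩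

def k17_A00pp_022_s3 : ∃ t, chk3 f_A00pp_022_s3 t 72 27 1 = true :=
  ⟨(b (a (c (c (b (b (l 16646376) (l 16651120)) (b (l 16655944) (l 16660856))) (b (b (l 16648664) (l 16653304)) (b (l 16658040) (l 16662864)))) (c (b (c (l 16652928) (l 16643864)) (c (l 16651736) (l 16663528))) (b (l 16656680) (l 16665640)))) (c (c (b (a (b (l 16648400) (l 16653152)) (b (a (l 16649440) (l 532988943)) (l 16654552))) (b (l 16663928) (l 16663608))) (b (a (l 533343247) (b (l 533059599) (l 16656632))) (b (l 16660704) (l 16665536)))) (c (b (b (a (l 16653264) (l 533138703)) (l 16658456)) (b (l 16663088) (l 16657328))) (b (a (l 16658520) (l 533226511)) (c (l 16667432) (l 16668872)))))) (a (b (c (a (b (l 16676584) (l 533087503)) (b (l 16677920) (l 16677696))) (a (l 533239311) (l 533217551))) (a (b (l 532633359) (l 533184527)) (b (a (l 532885519) (l 532874255)) (l 533161999)))) (b (c (a (b (l 16674040) (l 16679072)) (b (l 16675440) (l 16680480))) (a (l 532927759) (b (l 16664016) (l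 16679344)))) (b (c (a (l 533053967) (l 533032719)) (l 532929295)) (a (l 532871439) (l 532581135)))))), by decide +kernel⟩

def k18_A00pp_022_s3 : ∃ t, chk3 f_A00pp_022_s3 t 73 27 1 = true :=
  ⟨(b (c (c (a (b (a (b (c (l 533103887) (l 532999439)) (a (l 16655616) (l 532966159))) (b (l 16653552) (l 533096719))) (a (b (l 16660832) (l 16665768)) (b (l 533217295) (l 16667240)))) (b (b (c (l 16656240) (l 16657136)) (l 16666136)) (a (b (l 532942607) (l 532930063)) (b (l 16666272) (l 532925199))))) (a (b (a (b (l 533050127) (l 533035791)) (b (l 16655624) (l 533027599))) (a (l 533030159) (b (l 533014031) (l 16669064)))) (b (c (l 16660200) (l 16661272)) (a (b (l 533007375) (l 532994831)) (l 533267215))))) (c (a (b (a (b (l 533128719) (l 533114127)) (l 533384975)) (b (a (l 16665112) (l 533092111)) (l 16675784))) (b (b (l 16661048) (l 16665088)) (a (b (l 533084687) (l 533072399)) (l 533075215)))) (a (a (b (c (l 532921103) (l 533238287)) (l 16670104)) (b (l 533207311) (l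 533180431))) (a (b (l 16664824) (l 533169167)) (b (l 16666720) (l 533164559)))))) (b (b (a (a (c (l 532997903) (l 533152783)) (c (l 532978447) (l 532864783))) (a (c (l 532959247) (l 532577039)) (c (l 533212943) (c (l 533055503) (l 533145103))))) (c (a (c (l 16676600) (l 16678288)) (c (l 16684888) (l 16686496))) (a (c (l 16680280) (l 16682576)) (a (l 533118223) (l 532830735))))) (c (a (a (l 533286159) (l 533265423)) (a (l 533245455) (l 533225743))) (a (a (l 533173007) (l 533152271)) (a (l 532863759) (l 532709903)))))), by decide +kernel⟩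

def k19_A00pp_022_s3 : ∃ t, chk3 f_A00pp_022_s3 t 37 26 1 = true :=
  ⟨(a (b (a (c (c (b (l 16632352) (c (l 16639088) (l 16640168))) (b (l 16634952) (l 16652488))) (b (c (l 16638032) (l 16640968)) (c (a (l 16633376) (l 16635360)) (l 16648152)))) (c (c (b (l 16636560) (c (l 16643320) (l 16644352))) (b (l 16639056) (l 16651360))) (b (c (l 16642016) (l 16643304)) (c (l 16648840) (l 16651448))))) (c (c (b (a (b (l 16645184) (l 16648952)) (b (l 16649384) (l 16653160))) (a (a (c (l 16653280) (l 16654200)) (c (l 16655392) (l 16656288))) (b (l 16662248) (c (l 16660560) (l 16661400))))) (a (b (b (l 16647424) (l 16651104)) (c (l 16656248) (l 16657352))) (b (b (l 16651528) (l 16655208)) (c (l 16660376) (l 16661424))))) (b (b (c (a (l 16650104) (l 16643600)) (l 16655128)) (a (a (l 532856079) (l 532858383)) (a (l 532995343) (l 532998415)))) (c (a (a (l 16663440) (l 16665424)) (b (l 16666536) (l 16670312))) (a (b (l 16660176) (l 16663832)) (c (l 16665128) (l 16666552)))))))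 (b (b (c (a (a (l 533387791) (l 533392911)) (c (l 16644944) (l 16647256))) (c (l 16650624) (c (l 16647664) (l 16646016)))) (a (c (c (b (l 16646184) (l 16649856)) (l 16655464)) (c (l 16652832) (l 16653896))) (c (c (l 16657440) (a (l 16653288) (l 16660584))) (a (l 533085455) (l 533067279))))) (b (c (c (a (b (l 16653584) (l 16657352)) (b (l 16657760) (l 16661528))) (a (b (l 16655632) (l 16659304)) (a (l 16665768) (l 16667816)))) (a (c (a (l 16658848) (l 16660840)) (l 16662280)) (a (l 532889871) (l 533027855)))) (a (c (a (b (l 533225999) (l 533062671)) (b (l 533095695) (l 533066511))) (a (c (l 532913679) (l 16668720)) (c (l 532916751) (l 16670648)))) (b (c (c (l 16670608) (l 16667144)) (c (l 16669264) (l 16671256))) (a (c (l 533070095) (l 533213711)) (c (l 533073935) (l 533216527)))))))), by decide +kernel⟩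

def k20_A00pp_022_s3 : ∃ t, chk3 f_A00pp_022_s3 t 74 27 1 = true :=
  ⟨(b (c (c (b (a (a (b (l 16659816) (l 16664024)) (c (l 16663608) (l 16664424))) (a (c (l 16665712) (l 16666504)) (c (l 16667816) (l 16668592)))) (a (b (c (l 16669016) (l 16669800)) (l 16679080)) (a (b (l 16672536) (l 16676968)) (b (l 16674616) (l 16679048))))) (a (b (c (l 16666928) (l 16665312)) (b (l 16671128) (l 16675496))) (b (b (l 16666832) (l 16670960)) (b (l 16675200) (l 16679568))))) (a (c (b (b (l 16665000) (l 16669032)) (b (l 16673192) (l 16677472))) (a (b (l 16668616) (l 16676728)) (b (l 16670528) (l 16678632)))) (c (b (b (l 16674216) (l 16678240)) (b (l 16682400) (l 16686672))) (b (b (l 16671456) (l 16675376)) (c (l 533142031) (l 16682112)))))) (b (c (a (a (b (l 532940559) (l 532931087)) (b (l 532942351) (l 532928015))) (b (c (l 16687800) (l 16684040)) (c (l 16687208) (l 16688632)))) (a (c (a (b (l 16686136) (l 533041935)) (l 533044239)) (a (l 533135887) (l 533132559))) (c (b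 (l 16691064) (l 533038351)) (b (l 16687896) (l 16692312))))) (b (a (a (c (l 532933391) (l 533088015)) (c (l 532920847) (l 533074959))) (c (l 533187599) (a (l 533071631) (l 533071631)))) (a (c (a (l 532944399) (l 532925967)) (a (l 533099791) (l 533081359))) (c (a (l 532914703) (l 532913167)) (a (l 533069071) (l 533066255))))))), by decide +kernel⟩

def k21_A00pp_022_s3 : ∃ t, chk3 f_A00pp_022_s3 t 75 27 1 = true :=
  ⟨(b (c (a (b (a (b (l 533035535) (l 533010447)) (b (l 533038863) (l 533013519))) (a (b (l 532987407) (l 532966671)) (b (l 532990223) (l 532969231)))) (b (a (b (l 533042447) (l 533016591)) (c (l 533004303) (l 533063439))) (a (b (l 532992783) (l 532971535)) (b (l 532995599) (l 532974095))))) (a (a (c (b (l 533127183) (l 533081359)) (b (l 16676288) (l 533166351))) (c (b (l 533129487) (l 533082895)) (b (l 16678216) (l 533167119)))) (a (b (b (l 532917007) (l 532890895)) (c (l 533084687) (l 533167887))) (b (c (l 533134351) (l 16679440)) (c (l 533086479)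 (l 533168911)))))) (c (b (a (b (c (l 533188879) (l 16693344)) (c (l 532904975) (l 16697920))) (b (c (l 533193743) (l 532985103)) (a (l 532937743) (l 532939535)))) (a (b (l 533190927) (l 532914703)) (b (l 533194255) (l 532917775)))) (b (c (a (a (l 533046799) (l 533047823)) (b (l 532788239) (l 533041679))) (a (l 533132047) (l 533132303))) (a (a (l 532732943) (l 532800015)) (b (l 532736015) (l 533065231)))))), by decide +kernel⟩

def k22_A00pp_022_s3 : ∃ t, chk3 f_A00pp_022_s3 t 38 26 1 = true :=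
  ⟨(b (c (c (a (a (b (l 16649104) (l 16661608)) (b (l 532855055) (l 16665768))) (b (a (l 16657400) (l 16661528)) (a (l 532808719) (l 16668792)))) (a (b (a (l 16651344) (l 16655424)) (a (c (l 16657856) (l 16658968)) (l 16662480))) (b (l 16661472) (b (l 16666800) (l 16670368))))) (b (c (a (l 16654504) (l 16661920)) (a (a (l 16650472) (c (l 16653664) (l 16652184))) (a (l 16660688) (l 16663248)))) (a (a (a (l 533048847) (l 533030159)) (a (l 533011471) (l 532992271))) (a (b (l 532833807) (l 532757007)) (a (l 532665615) (l 532645903)))))) (b (a (c (c (a (b (l 16661928) (l 16665688)) (b (l 16666080) (l 16669840))) (a (a (l 16669856) (l 533191951)) (c (l 532847119) (l 16670200)))) (a (a (l 533031183) (l 533012495)) (a (l 532993551) (l 532974351)))) (a (a (c (a (l 532771343) (l 532639759)) (l 532955151)) (c (a (l 532642319) (l 532645135)) (l 532801295))) (c (a (l 532649231) (l 533191695)) (b (l 532708623) (l 532699919))))) (a (a (c (c (b (l 16669528) (l 16678720)) (b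 (l 16676464) (l 16680328))) (a (a (l 532965647) (l 533235727)) (l 532969743))) (c (c (b (l 16673672) (l 16682864)) (a (l 533132047) (l 533136143))) (a (l 532973071) (l 532957967)))) (a (c (a (b (l 532857359) (l 533094415)) (b (l 532862223) (l 532830223))) (a (l 532938511) (l 532918799))) (c (c (a (l 533091599) (l 533096463)) (l 533151759)) (a (l 532764687) (l 532744719))))))), by decide +kernel⟩

def k23_A00pp_022_s3 : ∃ t, chk3 f_A00pp_022_s3 t 39 26 1 = true :=
  ⟨(b (b (c (c (a (l 16667704) (l 16673160)) (a (l 16666336) (l 16671600))) (a (a (a (l 533184015) (l 533164047)) (c (l 16665624) (l 16663296))) (a (l 533228815) (l 533058063)))) (c (c (a (b (l 16673128) (l 16676800)) (l 16681528)) (a (a (l 16673472) (l 16676072)) (a (l 16678736) (l 533132815)))) (a (a (b (l 532620815) (l 532744975)) (a (l 533122575) (l 533102095))) (a (c (l 16682248) (l 533031695)) (c (l 16685096) (l 16683152)))))) (c (c (b (a (a (l 16685576) (l 16684440)) (b (l 16687928) (l 16692256)))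 (a (a (l 532701199) (l 533115151)) (b (l 533149967) (l 533115151)))) (a (b (b (l 16681168) (l 16685496)) (b (l 533451791) (l 533417743))) (b (a (l 16687432) (l 16690288)) (a (l 533131023) (l 533088271))))) (c (b (a (a (l 16680320) (l 533128975)) (a (l 533087247) (l 533045007))) (a (a (l 533152527) (l 533110799)) (a (l 533068303) (l 533025551)))) (a (b (a (b (l 16676064) (l 16685816)) (l 533321999)) (a (a (l 533087759) (l 533067535)) (a (l 533047055) (l 533026319)))) (b (a (l 533012239) (l 533238543)) (a (l 532994575) (l 532952079))))))), by decide +kernel⟩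

def k24_A00pp_022_s3 : ∃ t, chk3 f_A00pp_022_s3 t 38 27 1 = true :=
  ⟨(a (b (c (a (b (c (a (l 533007887) (l 533011471)) (a (l 533066767) (l 533069839))) (a (c (l 532959503) (l 533018127)) (c (l 532962319) (l 533020431)))) (b (a (c (l 533015311) (l 533073167)) (c (l 533019151) (l 533076751))) (c (a (l 532965391) (l 532968463)) (c (l 533276943) (l 533308687))))) (a (b (c (a (l 533137167) (l 533139727)) (l 533212431)) (c (a (l 533088271) (l 533090319)) (l 533170447))) (b (a (l 532913167) (l 533184527)) (b (l 532807695) (l 532784911))))) (a (b (c (b (a (l 532957455) (l 532959759)) (l 533143055)) (c (a (l 533050895) (l 533051919)) (l 533133071))) (a (c (l 533192463) (l 532800015)) (c (l 533193999) (l 533068303)))) (b (c (b (a (l 532961807) (l 532964111)) (l 533213967)) (b (l 532832271) (l 533084431))) (c (b (l 532932111) (l 532922895)) (b (l 533072399) (l 533064719)))))) (b (a (a (c (b (l 533184527) (l 533132815)) (b (l 532919055) (l 533134863))) (b (c (b (l 533068559)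 (l 533040143)) (l 532899855)) (c (l 533135887) (l 533137167)))) (b (c (c (l 533301007) (a (l 533088015) (l 533091855))) (a (l 532879887) (l 532859919))) (c (c (l 533247503) (a (l 533034255) (l 533037327))) (a (l 533126159) (l 532837903))))) (a (b (c (b (l 533101327) (l 533217807)) (c (l 533056015) (l 533221391))) (c (b (l 532935183) (l 532925199)) (b (l 533072911) (l 533064463)))) (b (a (c (l 533229839) (l 533096207)) (c (l 533097743) (l 532811791))) (b (c (l 532937999) (l 533065999)) (c (l 532524559) (l 533047823))))))), by decide +kernel⟩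

def k25_A00pp_022_s3 : ∃ t, chk3 f_A00pp_022_s3 t 39 27 1 = true :=
  ⟨(b (c (c (a (a (b (l 533309711) (l 532986127)) (b (l 533050895) (l 533261839))) (a (b (l 533061135) (l 533001743)) (b (l 533072655) (l 533010959)))) (b (a (a (l 533097999) (l 533107471)) (a (l 533110543) (l 533067023))) (a (a (l 533041935) (l 533049103)) (b (l 533071887) (l 533046543))))) (c (b (a (a (l 533133327) (l 533091343)) (a (l 533048847) (l 533005327))) (a (a (l 533108495) (l 533070095)) (a (l 533027343) (l 532984079)))) (a (a (b (a (l 533069071) (l 533048847)) (a (l 533047311) (l 533027087))) (b (a (l 533028367) (l 533007631)) (a (l 533006863) (l 532986383)))) (a (b (a (l 532986639) (l 532965391)) (a (l 532965391) (l 532944399))) (b (l 532932879) (a (l 532922895) (l 532901135))))))) (c (a (b (a (c (l 533208591) (l 532995855)) (c (l 532945423) (l 533000719))) (a (c (l 532907535) (l 532963855)) (c (l 532910351) (l 532965903)))) (a (b (c (l 532951055) (l 533006095)) (c (l 532644623)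 (l 532968207))) (b (l 532983823) (l 532942351)))) (a (a (a (b (l 532792079) (l 532760335)) (b (l 532637711) (l 532606735))) (b (a (l 532617487) (l 532597007)) (b (l 532719119) (l 532970767)))) (b (a (b (l 532571919) (l 532558607)) (c (l 532960271) (b (l 532894223) (l 532881167)))) (a (b (l 532544271) (l 532662287)) (b (l 532502287) (c (l 532925199) (l 532851215)))))))), by decide +kernel⟩

def k26_A00pp_022_s3 : ∃ t, chk3 f_A00pp_022_s3 t 8 56 2 = true :=
  ⟨(a (c (b (a (a (a (l 16612016) (l 16618024)) (a (l 16623904) (l 16629664))) (a (b (l 16636528) (l 16639632)) (b (l 16647320) (l 16650456)))) (a (a (a (l 16618232) (l 16624264)) (a (l 16630168) (l 16635960))) (a (b (l 16642792) (l 16646056)) (b (l 16653656) (l 16656944))))) (a (a (b (a (c (l 16609920) (l 16608472)) (l 16615248)) (a (c (l 16616240) (l 16614880)) (l 16621640))) (a (b (l 16621184) (l 16627592)) (b (l 16626992) (l 16633432)))) (a (a (b (l 16632688) (l 16639152)) (b (l 16638272) (l 16644760)))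 (a (b (l 16643744) (l 16650264)) (b (l 16649104) (l 16655656)))))) (b (a (a (a (c (l 16656712) (l 16654360)) (a (l 16638432) (l 16640968))) (c (l 16669208) (a (l 16664560) (l 16669512)))) (a (c (l 16678744) (l 16676760)) (c (b (l 16682416) (l 16687688)) (b (l 16684176) (l 16687704))))) (a (a (a (c (l 16663160) (l 16660944)) (c (l 16668272) (l 16666128))) (c (l 16678376) (a (l 16671216) (l 16676200)))) (a (c (l 16685384) (a (l 16660120) (l 16685896))) (c (l 16694584) (a (l 16690584) (l 16695168))))))), by decide +kernel⟩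

def k27_A00pp_022_s3 : ∃ t, chk3 f_A00pp_022_s3 t 8 56 3 = true :=
  ⟨(a (a (c (a (b (c (a (l 16606984) (l 16613064)) (a (l 16605456) (l 16611552))) (c (a (l 16613472) (l 16619576)) (a (l 16612040) (l 16618152)))) (a (a (b (l 16616792) (l 16623368)) (b (l 16619752) (l 16626336))) (b (l 16624136) (l 16635984)))) (b (a (a (c (a (l 16602344) (l 16605424)) (b (l 16600608) (l 16603952))) (b (l 16607528) (l 16610856))) (a (b (l 16613520) (l 16616856)) (b (l 16619400) (l 16622752)))) (a (c (a (a (l 16609024) (l 16612112)) (l 16616696)) (b (a (l 16607328) (l 16613456)) (a (l 16610824) (l 16616960)))) (a (c (l 16622712) (l 16621232)) (c (l 16628616) (l 16627144)))))) (a (c (a (b (l 16629872) (l 16636512)) (b (l 16635512) (l 16642168))) (a (a (b (l 16625424) (l 16632248)) (b (l 16628288) (l 16635128))) (a (b (l 16631128) (l 16637984)) (b (l 16633944) (l 16640808))))) (b (a (c (l 16641040) (l 16638120)) (c (l 16646464) (l 16643592))) (a (c (l 16647728) (l 16650248))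 (c (l 16653176) (l 16650512)))))) (a (b (a (a (c (l 16651784) (l 16648976)) (c (l 16657000) (l 16654256))) (a (c (l 16662128) (l 16659448)) (c (l 16667152) (l 16664552)))) (a (a (c (l 16658528) (l 16655920)) (c (l 16663784) (l 16661240))) (a (c (l 16668944) (l 16666464)) (c (l 16674000) (l 16682080))))) (b (a (c (a (c (l 16672680) (l 16671480)) (l 16676920)) (a (c (l 16670216) (l 16668896)) (c (l 16675112) (l 16673824)))) (c (c (l 16684496) (l 16683400)) (a (c (l 16679896) (l 16678656)) (l 16683960)))) (a (a (c (l 16689456) (l 16681880)) (a (b (l 16679736) (l 16683320)) (l 533186575))) (a (a (l 533203983) (l 532415759)) (a (l 532801551) (l 532985103))))))), by decide +kernel⟩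

def k28_A00pp_022_s3 : ∃ t, chk3 f_A00pp_022_s3 t 8 57 2 = true :=
  ⟨(b (a (a (a (c (a (l 16625048) (l 16631096)) (c (a (l 16623168) (l 16629248)) (a (l 16621888) (l 16627984)))) (a (c (l 16637016) (l 16634592)) (c (l 16642824) (l 16640440)))) (a (a (c (l 16648512) (l 16646184)) (c (l 16654080) (l 16651816))) (a (c (l 16659544) (l 16657336)) (c (l 16664896) (l 16662752))))) (a (a (a (c (l 16670136) (l 16668056)) (c (l 16675272) (l 16673272))) (a (c (l 16680312) (l 16678384)) (c (l 16685248) (l 16683392)))) (a (a (c (l 16690088) (l 16688312)) (a (l 532954895) (l 16695192))) (a (l 533267215) (l 533034255))))) (a (a (a (c (a (c (l 16633272) (l 16632128)) (l 16638752)) (c (a (l 16630952) (l 16637032)) (a (l 16629752) (l 16635848)))) (a (c (l 16644672) (l 16647656)) (c (l 16650480) (l 16648272)))) (a (a (c (l 16656176) (l 16654016)) (c (l 16661752) (l 16659648))) (a (c (l 16667216) (l 16665176)) (c (l 16672576) (l 16670600))))) (a (a (a (c (l 16677832) (l 16675912))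 (c (l 16682976) (l 16681136))) (a (a (l 16696384) (l 16698904)) (c (l 16692984) (l 16691280)))) (a (a (b (l 16705504) (l 16709576)) (a (l 532841487) (l 532859919))) (a (c (l 532926223) (l 16711056)) (l 532922383)))))), by decide +kernel⟩

def k29_A00pp_022_s3 : ∃ t, chk3 f_A00pp_022_s3 t 8 114 3 = true :=
  ⟨(a (a (a (b (c (a (l 16618024) (l 16624144)) (c (a (l 16615944) (l 16622080)) (a (l 16614520) (l 16620664)))) (c (a (l 16621816) (l 16627936)) (c (a (l 16619816) (l 16625952)) (a (l 16618448) (l 16624592))))) (a (a (c (l 16630536) (l 16633088)) (c (l 16633512) (l 16630840))) (a (c (l 16636464) (l 16633800)) (c (l 16639384) (l 16636736))))) (c (a (a (l 16643712) (l 16649392)) (a (l 16654968) (l 16660440))) (a (a (c (l 16641768) (l 16640424)) (c (l 16647480) (l 16646160))) (a (c (l 16653096) (l 16651792)) (c (l 16658608) (l 16657336)))))) (a (a (a (c (l 16665816) (l 16668648)) (c (l 16671096) (l 16673992))) (a (c (l 16676272) (l 16679240)) (c (l 16681360)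 (l 16684400)))) (a (a (c (l 16686360) (l 16689472)) (a (l 532779279) (l 532796943))) (a (a (l 532814863) (l 532832527)) (a (l 532849935) (l 532867087)))))), by decide +kernel⟩

def k30_A00pp_022_s3 : ∃ t, chk3 f_A00pp_022_s3 t 8 115 3 = true :=
  ⟨(a (a (c (a (a (a (l 14) (l 16634704)) (a (l 16632520) (l 16635552))) (a (c (l 16640648) (l 16639440)) (c (l 16646536) (l 16645344)))) (b (a (c (a (l 16623896) (l 16630040)) (a (l 16622584) (l 16628736))) (a (l 16635424) (l 16641360))) (a (a (l 14) (a (l 16632184) (l 16635224))) (a (c (l 16640360) (l 16639120)) (l 16645672))))) (c (a (a (c (l 16652312) (l 16651144)) (l 16662664)) (a (l 16663000) (l 16668480))) (a (a (c (l 16649944) (l 16648712)) (c (l 16655664) (l 16654456))) (a (c (l 16661280) (l 16660096)) (c (l 16666800) (l 16665648)))))) (a (c (a (a (l 16673864) (l 16679152)) (a (l 16684336) (l 16699928))) (a (a (c (l 16672232) (l 16671096)) (b (l 16674872) (l 16679184))) (a (b (l 16680128) (l 16684448)) (b (l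 16685296) (l 16689616))))) (a (a (a (l 532625679) (l 532643855)) (a (l 532661775) (l 532679695))) (a (a (l 532697615) (l 532715279)) (a (l 532733199) (l 532750863)))))), by decide +kernel⟩

def k31_A00pp_022_s3 : ∃ t, chk3 f_A00pp_022_s3 t 16 58 2 = true :=
  ⟨(a (c (a (a (l 14) (a (l 14) (b (l 16648680) (l 14)))) (b (a (l 16653104) (l 16658904)) (a (c (l 16662744) (l 16661824)) (c (l 16668504) (l 16667608))))) (a (a (l 14) (a (l 14) (b (l 16646568) (l 14)))) (a (a (b (l 16649544) (l 14)) (b (l 16652496) (l 16661864))) (a (b (l 16655424) (l 16664776)) (b (l 16658312) (l 16667664)))))) (a (c (a (b (l 16664584) (l 16684208)) (b (l 16670152) (l 16689760))) (b (a (l 16673096) (l 16668232)) (a (c (l 16672392) (l 16671480)) (b (l 16675136) (l 16679968))))) (c (a (b (l 16675616) (l 16695200)) (b (l 16680968) (l 16700536))) (b (a (l 16673752) (l 16679168)) (a (b (l 16680648) (l 16685464)) (b (l 16686048) (l 16690856))))))), by decide +kernel⟩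

def k32_A00pp_022_s3 : ∃ t, chk3 f_A00pp_022_s3 t 16 58 3 = true :=
  ⟨(a (c (a (b (b (a (l 14) (l 16640576)) (l 14)) (l 14)) (b (a (c (l 16649416) (l 16653552)) (c (l 16655288) (l 16654208))) (a (b (l 16655968) (l 14)) (b (l 16661840) (l 16666800))))) (b (b (a (a (l 14) (a (l 14) (l 16639752))) (a (c (l 16644848) (l 16643672)) (l 16650192))) (a (l 14) (a (c (l 16649536) (l 16648416)) (c (l 16655448) (l 16654344))))) (a (l 14) (a (a (l 14) (b (l 16655368) (l 14))) (a (b (l 16658328) (l 16663408)) (b (l 16661256) (l 16666328))))))) (a (c (a (a (b (l 16659096) (l 16679128)) (b (l 16661960) (l 16681984))) (a (b (l 16664800) (l 16674320)) (b (l 16667608) (l 16677128)))) (b (a (b (l 16656016) (l 16660720)) (c (l 16664616) (l 16668768))) (b (a (c (l 16666112) (l 16665088)) (l 16671312)) (a (c (l 16671152) (l 16670184)) (c (l 16676840) (l 16675896)))))) (a (b (a (c (l 16670400) (l 16668304)) (c (l 16673160) (l 16671088))) (b (a (l 16681744) (l 16679272)) (c (l 16683760)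 (l 16687216)))) (a (b (c (l 16675896) (l 16673856)) (c (l 16685392) (c (l 16684048) (l 16683120)))) (c (b (l 16678608) (l 16688096)) (b (l 16676600) (c (l 16686768) (l 16685864)))))))), by decide +kernel⟩

def k33_A00pp_022_s3 : ∃ t, chk3 f_A00pp_022_s3 t 16 59 1 = true :=
  ⟨(a (a (l 14) (a (l 14) (a (l 14) (b (a (l 14) (b (c (l 16676672) (l 16673216)) (l 14))) (l 14))))) (a (a (b (b (c (c (l 16681008) (l 16679384)) (c (l 16677680) (c (l 16676360) (l 16675456)))) (a (l 14) (c (l 16686728) (a (l 16688104) (l 16689520))))) (l 14)) (a (a (c (c (b (l 16687000) (l 16697456)) (b (l 16685456) (l 16696128))) (b (b (l 16680352) (l 16690936)) (b (a (l 16690840) (l 16691544)) (l 14)))) (b (c (c (l 16688376) (l 16686848)) (b (l 16681760) (l 16687096))) (b (a (l 532341007) (l 532077583)) (l 14)))) (b (c (c (l 16690424) (l 16688912)) (c (c (l 16687736) (l 16686928)) (c (l 16686112) (l 16685264)))) (c (c (l 16711344) (c (l 16699888) (l 16699232))) (c (c (l 16698552) (l 16703104))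 (b (l 16693944) (l 16699648))))))) (a (a (b (c (c (l 16693128) (l 16691648)) (c (c (l 16690496) (l 16689704)) (c (l 16688896) (l 16688064)))) (b (c (l 16700208) (c (l 16698160) (l 16696720))) (c (l 16710856) (c (l 16703736) (l 16702424))))) (b (c (c (l 16695808) (l 16694360)) (c (c (l 16693232) (l 16692448)) (c (l 16691656) (l 16690840)))) (c (b (l 16702888) (l 16713528)) (c (c (l 16704008) (l 16703344)) (b (l 16699480) (l 16705168)))))) (b (a (a (c (l 532562447) (b (l 16691456) (l 16696768))) (b (l 532243983) (l 532466447))) (a (a (l 532228111) (l 532232975)) (a (l 532238095) (l 532242959)))) (a (a (c (l 532475151) (b (l 16707472) (l 532017423))) (b (l 532422927) (l 532382223))) (a (a (l 532141327) (l 532146191)) (a (l 532151055) (l 532155919)))))))), by decide +kernel⟩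

def k34_A00pp_022_s3 : ∃ t, chk3 f_A00pp_022_s3 t 34 29 1 = true :=
  ⟨(a (a (b (a (b (c (l 16694536) (c (l 16681296) (l 16679320))) (c (c (l 16693984) (l 16692424)) (b (l 16687440) (l 16697648)))) (b (c (l 16697152) (c (l 16683960) (l 16682016))) (c (c (l 16696568) (l 16695048)) (b (l 16690112) (l 16700320))))) (b (a (a (a (l 532247823) (l 532252431)) (c (l 532344335) (l 532438287))) (c (c (l 16706272) (l 16704952)) (a (l 532179215) (l 532188431)))) (a (a (a (l 532160783) (l 532165647)) (c (l 532257039) (l 532352015))) (a (a (l 532179983) (l 532184847)) (a (l 532189455) (l 532194319)))))) (a (a (b (b (c (l 16688616) (l 532399375)) (c (l 16708248) (l 532294415))) (b (c (l 532374031) (l 532197647)) (c (l 532286735) (l 532111119)))) (b (b (c (l 16689904) (l 532408591)) (c (l 16709536) (l 532303631))) (b (c (l 532384015) (l 532206863)) (c (l 532296463) (l 532120079))))) (a (b (b (l 532777487) (c (l 16710816) (l 532312847))) (b (l 532307471) (l 532488719))) (b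 (b (l 532518671) (l 532682255)) (b (l 532316943) (l 532229647)))))) (a (b (a (a (b (l 532528143) (l 532423439)) (b (l 532537615) (l 532432911))) (a (b (l 532547087) (l 532442127)) (b (l 532556559) (l 532451599)))) (a (a (b (l 532326159) (l 532238863)) (b (l 532335631) (l 532248335))) (a (b (l 532344847) (l 532257551)) (b (l 532354319) (l 532266767))))) (b (a (a (b (l 532566031) (l 532461071)) (b (l 532575503) (l 532470287))) (b (c (l 532675855) (l 532763663)) (c (l 532571663) (l 532657935)))) (b (a (a (l 532363535) (l 532372751)) (c (l 532474383) (l 532560143))) (a (a (l 532275983) (l 532285199)) (a (l 532294159) (l 532303375))))))), by decide +kernel⟩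

def k35_A00pp_022_s3 : ∃ t, chk3 f_A00pp_022_s3 t 35 29 1 = true :=
  ⟨(a (a (b (b (a (c (l 532694799) (l 532513295)) (c (l 532713487) (l 532531471))) (a (c (l 532590607) (l 532407311)) (c (l 532609295) (l 532425231)))) (a (b (c (l 532493327) (l 532309263)) (c (l 532405263) (l 532221455))) (b (l 532959247) (l 532736783)))) (b (b (a (c (l 532732175) (l 532549391)) (l 532931343)) (a (l 533075727) (l 532825615))) (a (b (l 532708879) (l 532620303)) (b (l 532458511) (l 532369679))))) (b (a (b (a (l 532949519) (l 532967695)) (a (l 532843791) (l 532593167))) (a (b (l 532985615) (l 532611087)) (b (l 533003791) (l 532629007)))) (a (a (b (l 532476175) (l 532387087)) (b (l 532493839) (l 532404239))) (a (b (l 532511503) (l 532421391)) (b (l 532528911) (l 532438287)))))), by decide +kernel⟩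

def k36_A00pp_022_s3 : ∃ t, chk3 f_A00pp_022_s3 t 16 30 1 = true :=
  ⟨(a (l 14) (a (l 14) (a (b (b (b (c (c (l 16713024) (a (l 16710592) (l 16713272))) (a (c (l 16709448) (l 16708248)) (c (l 16712152) (l 16710984)))) (a (l 14) (a (l 14) (c (l 16720104) (l 532201231))))) (l 14)) (l 14)) (b (a (a (b (c (l 532397327) (a (l 531959055) (l 531963663))) (l 14)) (b (c (l 532139023) (a (l 531968527) (l 531973135))) (c (l 532061455) (a (l 531893263) (l 531897871))))) (a (b (b (l 532085519) (l 532047631)) (b (l 532009487) (l 14))) (a (b (l 532342543) (l 531997711)) (b (l 532079119) (l 532002575))))) (l 14))))), by decide +kernel⟩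

def k37_A00pp_022_s3 : ∃ t, chk3 f_A00pp_022_s3 t 136 30 1 = true :=
  ⟨(c (c (c (a (b (b (l 16730360) (b (l 16733496) (l 16739200))) (b (b (l 16745008) (l 14)) (l 14))) (b (b (l 16732888) (l 532713231)) (b (b (l 16747496) (l 14)) (l 14)))) (a (b (b (l 16729912) (b (l 16733128) (l 16738888))) (b (b (l 16744744) (l 14)) (l 14))) (b (b (l 16732456) (b (l 16735656) (l 16741408))) (b (b (l 16747248) (l 14)) (l 14))))) (c (a (b (b (l 16729448) (b (l 16732752) (l 16738560))) (b (b (l 16744472) (l 14)) (l 14))) (b (b (l 16732016) (b (l 16735296) (l 16741104))) (b (a (l 532013327) (l 532023567)) (l 14)))) (a (b (b (b (l 16720904) (l 16726592)) (b (l 16732360) (l 16738232))) (b (a (l 14) (l 531962383)) (l 14))) (b (b (b (l 16723488) (l 16729168)) (b (l 16734928) (l 16740784))) (b (a (l 531972367) (l 531982351)) (l 14)))))) (c (a (b (b (b (l 16720136) (l 16725904)) (a (l 531967247) (l 531976719))) (b (a (l 14) (l 531899663)) (l 14))) (b (b (b (l 16722744) (l 16728512))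 (a (l 531986447) (l 531995919))) (b (a (l 531909391) (l 531918863)) (l 14)))) (b (a (a (b (l 532221967) (l 532147471)) (b (l 531962639) (l 531888399))) (a (b (l 531971599) (l 531897359)) (b (l 531980559) (l 531906319)))) (b (a (a (l 14) (l 532081167)) (a (l 531821839) (l 531831055))) (l 14))))), by decide +kernel⟩

def k38_A00pp_022_s3 : ∃ t, chk3 f_A00pp_022_s3 t 137 30 1 = true :=
  ⟨(c (c (a (b (b (l 532522767) (l 532445455)) (b (a (l 532093967) (l 532104207)) (l 14))) (b (b (l 532274447) (l 532197391)) (b (l 532118543) (l 532037903)))) (c (a (b (b (l 532461071) (l 532384527)) (b (a (l 532033551) (l 532043535)) (l 14))) (b (b (l 532212239) (l 532135951)) (b (l 532057615) (l 532246287)))) (a (b (b (l 532687119) (b (l 16737472) (l 16743320))) (b (a (l 531992335) (l 532002063)) (l 14))) (b (b (l 532169487) (l 532361999)) (b (l 532284431) (l 532473615)))))) (a (b (b (a (l 532035599) (l 532044815)) (a (l 531960847) (l 531970063))) (b (a (l 531884815) (l 531894031))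 (l 14))) (b (b (a (l 532054031) (l 532062991)) (a (l 531979279) (l 531988495))) (b (a (l 531903247) (l 531912719)) (a (l 531825935) (l 531835407)))))), by decide +kernel⟩

def k39_A00pp_022_s3 : ∃ t, chk3 f_A00pp_022_s3 t 69 30 1 = true :=
  ⟨(a (b (a (a (b (l 532162831) (l 532355599)) (b (l 532172047) (l 532096527))) (a (b (l 532181519) (l 532105999)) (b (l 532190735) (l 532115471)))) (a (a (b (c (l 532093967) (l 531921679)) (l 531931151)) (b (c (l 532103951) (l 531930895)) (l 531940879))) (b (c (l 532386319) (a (l 531940111) (l 531949071))) (a (l 531950607) (l 531960079))))) (a (a (b (b (l 532199951) (l 532124687)) (b (c (l 532133391) (l 531958031)) (l 531969551))) (b (b (l 532209167) (l 532134159)) (b (c (l 532143119) (l 531966991)) (l 531979279)))) (b (b (c (l 532310287) (l 532129039)) (c (l 532234511) (l 532323599))) (b (b (l 532090383) (l 532051727)) (c (l 532077839) (l 531903247)))))), by decide +kernel⟩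

def k40_A00pp_022_s3 : ∃ t, chk3 f_A00pp_022_s3 t 35 30 1 = true :=
  ⟨(a (b (a (b (a (c (l 532328975) (l 532146447)) (l 532527119)) (a (c (l 532253455) (l 532072719)) (c (l 532272143) (l 532090383)))) (a (b (l 532276495) (l 532470543)) (b (l 532294159) (l 532219919)))) (b (a (a (b (l 532108815) (l 532070159)) (b (l 532127247) (l 532088591))) (a (b (l 532145423) (l 532107023)) (a (l 532140047) (l 532149007)))) (b (a (a (l 532031247) (l 532049935)) (a (l 532068111) (l 4))) (l 4)))) (b (a (a (a (l 532740111) (l 532815887)) (a (l 532556303) (l 532565007))) (a (a (l 532573455) (l 532582159)) (a (l 532322063) (l 532330767)))) (b (a (a (l 532162063) (l 532179727)) (a (l 532197135) (l 532214543))) (l 4)))), by decide +kernel⟩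

def k41_A00pp_022_s3 : ∃ t, chk3 f_A00pp_022_s3 t 8 31 1 = true :=
  ⟨(a (l 14) (a (a (l 14) (b (a (a (l 14) (a (l 14) (l 4))) (l 4)) (l 4))) (l 4))), by decide +kernel⟩

def k42_A00pp_022_s3 : ∃ t, chk3 f_A00pp_022_s3 t 18 28 1 = true :=
  ⟨(a (b (a (a (c (b (b (l 16687240) (l 16692512)) (l 533177359)) (a (b (l 533111055) (l 533000207)) (b (l 533124111) (l 533014799)))) (c (b (b (l 533072399) (l 16695328)) (l 533136655)) (c (b (l 16695016) (l 16702264)) (b (l 16692936) (l 532984847))))) (a (c (b (a (l 533051151) (l 532493071)) (l 533093135)) (c (b (l 16698040) (l 16706552)) (b (l 533114639) (l 533008655)))) (b (b (a (l 532535055) (c (l 532979471) (l 16700024))) (c (l 533009423) (l 533156367))) (b (c (l 533036047) (l 533105167)) (l 532336655))))) (a (c (a (b (l 533067279) (l 532957967)) (c (l 533082639) (l 533002767))) (a (a (a (l 533089807) (l 533098511)) (a (l 533106703) (l 533249039))) (a (b (l 532914447) (l 532802063)) (b (l 532928527) (l 532817679)))))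 (a (a (b (l 532230159) (l 532123151)) (b (l 532242447) (l 532405263))) (a (b (l 532521999) (l 532686095)) (b (l 532531727) (l 532428815)))))) (b (a (a (b (b (c (l 533218319) (l 533106191)) (a (l 533053967) (l 532766479))) (b (l 532601615) (l 532567311))) (b (b (c (a (l 532923407) (l 532912655)) (l 532805647)) (c (l 533202447) (l 533091855))) (c (l 532574223) (l 532833807)))) (a (b (b (c (l 532911631) (l 533064719)) (c (l 533183503) (l 533071375))) (b (a (l 533008911) (l 532998927)) (l 532563471))) (b (b (c (l 532914447) (l 533064463)) (c (l 532916495) (l 533069583))) (b (l 532595215) (l 532613135))))) (a (a (c (b (l 533073423) (l 533064463)) (b (l 532986383) (l 532881935))) (b (c (l 533038095) (l 532997647)) (c (l 533077263) (l 532894735)))) (a (b (c (l 533003791) (l 533006095)) (c (l 533060111) (l 532904719))) (b (a (l 532386319) (l 532375055)) (c (l 533027855) (l 532912655))))))), by decide +kernel⟩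

def k43_A00pp_022_s3 : ∃ t, chk3 f_A00pp_022_s3 t 18 29 1 = true :=
  ⟨(a (a (b (c (a (b (l 532849935) (l 532476943)) (b (l 532885775) (l 532513039))) (a (b (a (l 532655887) (l 532673551)) (a (l 532548111) (l 532565519))) (b (a (l 532691215) (l 532708367)) (a (l 532582927) (l 532600591))))) (b (a (a (l 532546319) (l 532563727)) (a (l 532581135) (l 532598543))) (a (a (l 532455183) (l 532471823)) (a (l 532488463) (l 532505103))))) (b (c (b (a (l 532918543) (l 532946703)) (a (l 532816911) (l 532849167))) (a (b (a (l 532724495) (l 532739599)) (a (l 532617999) (l 532634895))) (b (l 532221967) (l 532120335)))) (b (c (a (l 532716815) (l 532750607)) (a (l 532522255) (l 532286735))) (a (b (l 532551439) (l 532507663)) (c (l 532387599) (l 532994831)))))) (b (a (b (c (a (l 532968207) (l 532982543)) (a (l 532243215) (l 532794127))) (c (a (l 532873743) (l 532889871)) (a (l 532412687) (l 532696335)))) (c (b (l 532997135) (a (l 532902671) (l 532913423))) (a (b (l 532536847)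 (l 532708623)) (b (l 532814351) (l 532987151))))) (a (c (a (b (l 532780559) (l 532155663)) (l 532754447)) (a (b (l 532315919) (a (l 532489743) (l 532499727))) (b (l 532601871) (l 532510991)))) (c (a (l 532769039) (l 532781327)) (a (b (l 532614927) (l 532524559)) (b (l 532625679) (l 532536079))))))), by decide +kernel⟩

def k44_A00pp_022_s3 : ∃ t, chk3 f_A00pp_022_s3 t 19 28 1 = true :=
  ⟨(a (b (a (a (b (c (b (l 532916751) (l 532919055)) (b (l 533063695) (l 533068815))) (c (l 532936207) (l 532522255))) (b (b (c (l 532918799) (l 533062927)) (c (l 532920847) (l 533068047))) (c (l 532939279) (l 532489743)))) (a (b (b (c (l 532920591) (l 533061903)) (c (l 532922383) (l 533038607))) (c (l 532941583) (l 532724751))) (b (b (c (l 532921871) (l 533027087)) (l 532720143)) (c (l 532943375) (l 532958479))))) (a (a (b (c (l 532965135) (l 532723471)) (c (l 533000975) (l 532914191))) (b (c (l 532969487) (l 532961039)) (c (l 532992783) (l 532897295)))) (a (c (l 532987407)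 (b (l 532928271) (l 532865807))) (b (c (l 532977935) (l 532894223)) (l 532388879))))) (b (c (b (a (b (a (l 532922895) (l 532923407)) (l 532922383)) (b (l 532922895) (l 532921103))) (a (l 533346063) (b (l 532931087) (l 532953359)))) (b (b (a (a (l 532989967) (l 532951567)) (a (l 532643855) (a (l 532882447) (l 532861967)))) (a (a (l 532966671) (l 532929295)) (a (l 532890895) (l 532717327)))) (c (a (l 532944655) (l 533136911)) (a (a (l 532878607) (l 532574479)) (a (l 532537871) (l 532366095)))))) (a (a (b (c (l 532981263) (l 532859407)) (l 532084751)) (b (c (l 532981519) (l 532823823)) (l 532048399))) (a (b (c (l 532942607) (l 532787215)) (l 532011023)) (c (l 532878863) (c (l 532763407) (l 532672783))))))), by decide +kernel⟩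

def k45_A00pp_022_s3 : ∃ t, chk3 f_A00pp_022_s3 t 19 29 1 = true :=
  ⟨(a (b (a (a (b (c (l 533010703) (l 532821519)) (b (l 532853263) (l 532539151))) (b (a (l 532121103) (c (l 533011471) (l 532822799))) (c (l 532928783) (l 533001487)))) (a (a (b (l 532108559) (c (l 532932623) (l 533005071))) (b (l 532898319) (c (l 532929551) (l 533002255)))) (b (l 532603663) (b (l 532834063) (c (l 532899599) (l 532702991)))))) (b (a (a (l 532471823) (l 532479503)) (a (a (l 532752911) (l 4)) (l 4))) (l 4))) (b (b (a (a (l 532568591) (l 532263951)) (a (l 531958543) (a (l 532736015) (l 4)))) (a (a (a (l 531990543) (l 531972879)) (l 4)) (l 4))) (l 4))), by decide +kernel⟩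

def k46_A00pp_022_s3 : ∃ t, chk3 f_A00pp_022_s3 t 9 15 1 = true :=
  ⟨(b (b (b (a (a (a (a (c (l 532479503) (l 532555791)) (l 532956943)) (a (c (l 532546575) (l 532350479)) (l 532215567))) (b (a (a (a (l 532525839) (l 532539919)) (l 4)) (l 4)) (l 4))) (l 4)) (a (a (a (a (c (l 532405775) (l 532483343)) (l 532884239)) (a (l 532648463) (l 4))) (l 4)) (l 4))) (l 4)) (l 4)), by decide +kernel⟩

def k47_A00pp_022_s3 : ∃ t, chk3 f_A00pp_022_s3 t 10 12 1 = true :=
  ⟨(a (b (a (a (c (b (l 16620744) (b (l 16631408) (l 16638736))) (b (l 16615072) (b (l 16626160) (l 16633776)))) (b (c (l 16626960) (l 16621808)) (c (b (l 16637648) (l 16645016)) (b (l 16632896) (l 16640520))))) (a (c (b (l 16633960) (b (l 16644672) (l 16652072))) (b (l 16629392) (b (l 16640472) (l 16648096)))) (b (b (l 16636160) (l 533322255)) (b (l 533279759) (l 533505039))))) (a (b (a (a (b (l 533506063) (l 533334543)) (b (l 533217551) (l 533446927))) (a (b (l 533201679) (l 533161231)) (b (l 533190671)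 (l 533148687)))) (b (a (c (c (l 16662616) (l 16660904)) (c (l 16658856) (l 16656464))) (a (l 533389327) (l 533106959))) (a (c (c (l 533200399) (l 16679544)) (a (l 533058319) (l 533032719))) (a (c (l 16674648) (l 16681616)) (l 533200143))))) (b (a (a (b (l 533185295) (l 533142287)) (b (l 533186063) (l 533142287))) (b (c (l 16688272) (l 16674568)) (c (l 16685584) (l 533089807)))) (a (a (b (l 533099279) (l 533056527)) (b (l 533098767) (l 533055247))) (a (b (l 533102607) (l 533058575)) (b (l 533107983) (l 533063439))))))) (b (a (b (c (a (l 16691168) (l 16698896)) (a (l 16666864) (l 16675168))) (c (a (l 533314063) (l 533326351)) (a (l 533489935) (l 533244687)))) (b (c (a (l 16706640) (l 16693328)) (a (l 16683464) (l 16691632))) (a (b (l 533332239) (l 533288207)) (b (l 533353743) (l 533309967))))) (a (b (a (b (l 533206543) (c (l 533207055) (l 533108495))) (b (l 533223951) (l 533447695))) (a (b (c (l 533163535) (l 533062415)) (c (l 533119503) (l 533016335))) (b (c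 (l 533175567) (l 533084687)) (c (l 533131279) (l 533037839))))) (b (a (b (l 533244175) (l 533199631)) (b (l 533266447) (l 533222415))) (a (b (c (l 533190927) (l 533110543)) (c (l 533146639) (l 533063439))) (b (c (l 533208591) (l 533139471)) (c (l 533164815) (l 533092367)))))))), by decide +kernel⟩

def k48_A00pp_022_s3 : ∃ t, chk3 f_A00pp_022_s3 t 20 26 1 = true :=
  ⟨(a (b (c (a (a (b (l 533156111) (l 533124879)) (b (l 533126927) (l 533092879))) (a (b (l 533102351) (l 533065743)) (b (l 533083663) (l 533044495)))) (a (a (b (l 533025295) (l 533196559)) (b (l 532996879) (c (l 16691296) (l 532924687)))) (b (a (l 532973839) (l 532957199)) (a (l 532937231) (l 532917775))))) (c (a (a (b (l 533096975) (l 533072655)) (b (l 533061391) (l 532764175))) (b (a (l 533030927) (l 533006863)) (a (c (l 533023503) (l 532970767)) (l 532970767)))) (a (b (a (c (l 533004815) (l 532930063)) (c (l 532969231) (l 532894991))) (a (c (l 532982287) (l 533043215)) (c (l 532942351) (l 532869135))))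 (a (b (c (l 532939023) (l 532865551)) (c (l 532908047) (l 532835343))) (b (c (l 532915983) (l 532843279)) (c (l 532881167) (l 532809231))))))) (b (b (a (a (c (l 533071631) (l 532947727)) (l 533280271)) (a (l 533014799) (l 533018895))) (a (a (c (l 533030415) (l 532906255)) (c (l 533025039) (l 532904463))) (a (l 533239823) (l 533109007)))) (a (c (a (b (l 532990479) (l 532951567)) (b (l 532983567) (l 532942863))) (b (a (l 533000975) (l 532863247)) (a (c (l 532863247) (l 532792847)) (l 532823823)))) (b (a (c (l 532982799) (l 532866575)) (c (l 532983311) (l 532871439))) (a (c (l 532940815) (l 532826127)) (c (l 532940559) (l 532829967))))))), by decide +kernel⟩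

def k49_A00pp_022_s3 : ∃ t, chk3 f_A00pp_022_s3 t 40 27 1 = true :=
  ⟨(b (a (c (a (b (l 533049871) (l 533027343)) (b (l 532738063) (l 532982543))) (a (b (c (l 532961551) (l 532889103)) (b (l 533045007) (l 533033743))) (a (b (l 532893711) (l 532871951)) (b (l 532872207) (l 532849167))))) (c (a (b (l 532967439) (a (l 532949519) (l 532928527))) (c (l 532942863) (b (l 532908303) (l 532874255)))) (a (a (b (l 532852751) (l 532961039)) (b (l 532835087) (l 532805647))) (a (b (l 532819471) (l 532787215)) (b (l 532806159) (l 532771087)))))) (a (c (c (b (b (l 532982799) (l 532955919)) (a (l 532920079) (l 532925455))) (b (a (l 532977423) (l 532932367)) (a (l 532951823) (l 532907023)))) (b (a (c (l 532647951) (b (l 532850703) (l 532838159))) (b (l 532977167) (l 532965135))) (c (a (l 532554255) (b (l 532852495) (l 532838671))) (a (b (l 532824591) (l 532809487)) (b (l 532780815) (l 532766479)))))) (c (b (a (c (l 532937487) (l 532886543)) (a (l 532879887) (l 532860175)))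 (a (b (l 532894735) (l 532881935)) (b (l 532580367) (l 532835855)))) (b (a (b (c (l 532831503) (l 532760591)) (c (l 532819471) (l 532748559))) (a (c (l 532791823) (l 532720655)) (c (l 532771855) (l 532700943)))) (a (b (c (l 532806927) (l 532735759)) (c (l 532793615) (l 532722191))) (a (b (l 532738063) (l 532725007)) (b (l 532714767) (l 532701455)))))))), by decide +kernel⟩

def k50_A00pp_022_s3 : ∃ t, chk3 f_A00pp_022_s3 t 41 27 1 = true :=
  ⟨(a (b (b (a (c (l 532912911) (c (l 532825103) (l 532754959))) (a (l 532848399) (l 532847119))) (a (a (c (l 532880143) (l 532758287)) (c (l 532869647) (l 532748815))) (c (l 532861199) (a (l 532743695) (l 532742927))))) (c (b (a (c (l 532592399) (l 532809231)) (a (l 532822031) (l 532818447))) (a (a (c (l 532834319) (l 532782351)) (b (l 532801551) (l 532783119))) (a (l 532781071) (l 532776719)))) (b (a (a (c (l 532755215) (l 532684559)) (l 532843279)) (a (l 532701967) (l 532700431))) (b (a (a (l 532694543) (l 532679183))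 (a (l 532669967) (l 532667919))) (a (a (l 532812559) (l 532659727)) (a (l 532648463) (l 532645903))))))) (b (a (b (c (l 532899087) (l 532785167)) (c (l 532857359) (l 532743439))) (c (l 532876303) (b (l 532788239) (l 532745487)))) (a (c (b (l 532815119) (a (l 532774159) (l 532771855))) (b (c (l 532732431) (l 532666127)) (a (c (l 532689423) (l 532621583)) (c (l 532688655) (l 532622351))))) (a (b (l 532761359) (a (l 532852239) (l 532717583))) (b (l 532761103) (l 532717071)))))), by decide +kernel⟩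

def k51_A00pp_022_s3 : ∃ t, chk3 f_A00pp_022_s3 t 21 13 1 = true :=
  ⟨(b (b (a (a (a (b (l 533024527) (l 532979727)) (b (l 533030927) (l 533119759))) (b (a (l 533038863) (l 533047567)) (c (l 533175055) (a (l 532939535) (l 532950287))))) (a (a (b (l 533057295) (c (l 533051663) (l 532962063))) (b (l 533068303) (c (l 533059855) (l 532975119)))) (a (b (l 533079823) (b (l 533044495) (l 533020431))) (b (l 533092367) (b (l 533056783) (l 533032719)))))) (a (b (a (c (a (l 532985103) (l 532988175)) (a (l 532877583) (l 532885007))) (c (a (l 532992527) (l 532997903)) (b (l 532909583) (l 533155343)))) (a (c (l 532941583) (a (l 532835087) (l 532841487))) (c (a (l 532946447) (l 532950799)) (a (l 532849423) (l 532858127))))) (b (a (a (b (l 532975119) (l 532951567)) (b (l 532985103) (l 532961039))) (b (a (l 532996367) (l 533008399)) (a (l 532971791) (l 532983311)))) (a (a (b (l 532927759) (l 532904207)) (b (l 532936719) (l 532912655))) (b (a (l 532946959) (l 532957967)) (a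 (l 532922127) (l 532932623))))))) (a (c (a (b (a (l 532875535) (l 532876047)) (a (l 532385295) (l 532920847))) (b (b (l 533170191) (l 532989711)) (a (b (l 532809487) (l 532764175)) (b (l 532811023) (l 532764687))))) (a (b (a (b (l 532792335) (l 532748815)) (b (l 532797711) (l 532753423))) (a (b (l 532704271) (l 532658959)) (b (l 532708111) (l 532662287)))) (b (b (a (l 532804623) (l 532812559)) (a (l 532759311) (l 532766223))) (b (a (l 532713231) (l 532719631)) (a (l 532666639) (l 532806415)))))) (a (b (b (c (a (l 532908303) (l 532913679)) (a (l 532821519) (l 532831759))) (c (a (l 532860687) (l 532865295)) (a (l 532774415) (l 532783887)))) (b (a (c (l 532813583) (l 532727055)) (c (l 532817167) (l 532735503))) (l 4))) (b (a (b (c (l 532920335) (l 532843023)) (c (l 532870671) (l 532794127))) (b (c (l 532927759) (l 532855311)) (c (l 532877071) (l 532805647)))) (l 4))))), by decide +kernel⟩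

def k52_A00pp_022_s3 : ∃ t, chk3 f_A00pp_022_s3 t 11 12 1 = true :=
  ⟨(a (b (a (b (c (a (l 533457423) (l 533464847)) (a (l 16699600) (l 533431567))) (a (b (l 533374479) (l 533331983)) (b (l 533387535) (l 533346575)))) (a (b (b (l 16721808) (l 533432591)) (b (l 533389839) (l 533349391))) (b (l 533449231) (b (l 533382415) (l 533340687))))) (a (b (a (b (l 533289487) (l 533515023)) (b (l 533307151) (a (l 533263631) (l 533271055)))) (a (b (a (l 533196559) (l 533209103)) (a (l 533151503) (l 533164559))) (b (a (l 533221647) (l 533231119)) (a (l 533177871) (l 533189903))))) (b (a (b (l 533310991) (l 533273359)) (l 533283599)) (a (a (b (l 533235983) (l 533197071)) (l 533215503)) (l 533476367))))) (b (b (a (b (a (l 16725240) (l 16732240)) (l 533418255)) (a (b (l 16739264) (l 533414927)) (b (l 533471503) (l 533414927)))) (a (b (l 533639695) (l 533730063)) (a (l 533608719) (b (l 533360911) (l 533311759))))) (b (a (b (a (l 533293327) (l 533285135)) (l 533519119)) (a (b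 (l 533277711) (l 533239823)) (b (l 533270543) (a (l 533234703) (l 533231119))))) (a (b (a (l 533217807) (l 533209359)) (a (l 533179663) (l 533170959))) (b (a (l 533201679) (b (l 533204239) (l 533185039))) (l 533158671)))))), by decide +kernel⟩

def k53_A00pp_022_s3 : ∃ t, chk3 f_A00pp_022_s3 t 11 13 1 = true :=
  ⟨(a (b (a (b (a (b (a (l 533105423) (l 533118991)) (b (a (l 533070095) (l 533083663)) (a (l 533046031) (l 533059855)))) (b (a (l 533132559) (l 533146383)) (a (b (l 533097999) (l 533074447)) (a (l 533097231) (l 533104399))))) (b (a (b (a (l 533021455) (l 533035279)) (a (l 532996111) (b (l 533016335) (l 533003279)))) (a (b (l 533050127) (b (l 533030927) (l 533017871))) (b (a (l 533061647) (l 533069327)) (a (b (l 533042703) (l 533029391)) (b (l 533050639) (l 533037327)))))) (a (b (a (l 532970255) (b (l 532989967) (l 532976655))) (a (l 532944143) (l 532956687))) (a (b (b (l 533004047) (l 532990479)) (b (l 532976911) (l 532963599))) (b (a (b (l 533015567)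 (b (l 533005071) (l 532998159))) (b (l 533023247) (a (l 533007375) (b (l 533014799) (l 533007887))))) (a (l 532981007) (b (a (l 532993551) (l 532997391)) (l 4)))))))) (b (a (a (b (l 533157135) (a (l 533111567) (l 533119503))) (b (l 533158159) (a (l 533120015) (l 533118735)))) (b (l 533150479) (l 533111823))) (a (b (a (b (a (l 533077007) (l 533084431)) (b (a (l 533058831) (l 533066767)) (l 533049359))) (a (b (l 533090831) (b (l 533344015) (a (l 533061135) (l 533065743)))) (c (l 533099791) (l 533055247)))) (a (b (l 533028111) (a (a (b (l 533001231) (l 4)) (l 4)) (l 4))) (a (b (l 533040655) (l 4)) (l 4)))) (b (b (l 533082895) (b (l 533068303) (l 4))) (l 4))))) (a (b (a (b (a (c (l 532936207) (l 532868623)) (c (l 532945679) (l 532882959))) (a (c (l 532884495) (l 532817935)) (l 4))) (b (a (c (l 532955919) (l 532898319)) (l 4)) (l 4))) (l 4)) (l 4))) (b (b (a (a (b (l 533141007) (l 533102351)) (l 533381391)) (b (l 533522703) (l 4))) (l 4)) (l 4))), by decide +kernel⟩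

def k54_A00pp_022_s3 : ∃ t, chk3 f_A00pp_022_s3 t 40 28 1 = true :=
  ⟨(b (b (a (c (b (l 533192463) (l 532917775)) (a (b (l 532428047) (l 532542735)) (b (b (l 532792335) (l 532783887)) (l 532232975)))) (c (b (a (l 532868623) (l 532822799)) (a (l 532853775) (l 532808975))) (b (a (a (l 532755727) (l 532733711)) (c (l 532733967) (l 532796687))) (a (b (l 532732175) (l 532722703)) (b (l 532688143) (l 532679695)))))) (a (a (b (c (l 532921359) (l 532786703)) (l 532027407)) (b (b (l 532152847) (l 532006671)) (l 531986703))) (c (c (l 533231375) (b (l 532783375) (l 532761359))) (b (a (l 532303119) (b (l 532669967) (l 532657679))) (a (l 532676879) (l 532635919)))))) (b (c (a (l 532840975) (l 532757775)) (a (a (l 532711439) (l 532672271)) (a (l 532632591) (l 532592143)))) (a (a (a (l 532212495) (l 532192783)) (l 531894287)) (l 4)))), by decide +kernel⟩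

def k55_A00pp_022_s3 : ∃ t, chk3 f_A00pp_022_s3 t 41 28 1 = true :=
  ⟨(b (a (b (a (b (c (a (l 532788239) (c (l 532521999) (l 532737807))) (a (l 532664591) (a (l 532646927) (l 532636943)))) (a (c (l 532774671) (l 532650255)) (c (l 532751375) (a (l 532632847) (l 532621071))))) (c (b (a (l 532750351) (l 532744975)) (a (b (l 532735503) (l 532724751)) (l 532723471))) (b (a (c (l 532661007) (l 532724239)) (l 532623375)) (a (a (a (l 532612367) (l 532607503)) (l 532603407)) (b (l 532606223) (l 532594703)))))) (b (a (b (a (l 532168719) (l 532078863)) (b (l 532016143) (l 532144399))) (c (a (a (l 532720143) (l 532706831)) (l 532701967)) (a (a (b (l 532598031) (l 532590863)) (c (l 532883983) (b (l 532548879) (l 532805903)))) (c (l 532611855) (l 532540175))))) (a (c (l 532727311) (l 532594191)) (a (l 532633359) (l 4))))) (a (c (b (b (b (l 532745999) (l 532735247)) (l 532719119)) (b (l 532697103) (l 4))) (b (a (b (l 532622863) (l 532599823)) (b (a (l 532622607) (l 532622607))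 (l 532599567))) (b (l 532777231) (l 4)))) (b (a (b (c (l 532737295) (b (l 532628495) (a (l 532616975) (l 532616975)))) (b (c (l 532720911) (a (l 532538127) (l 532538383))) (a (l 532656655) (l 4)))) (b (l 532683535) (b (b (l 532669455) (l 4)) (l 4)))) (l 4)))) (a (a (c (l 532672527) (b (l 532550927) (l 4))) (l 4)) (l 4))), by decide +kernel⟩

def k56_A00pp_022_s3 : ∃ t, chk3 f_A00pp_022_s3 t 20 29 1 = true :=
  ⟨(l 4), by decide +kernel⟩

def k57_A00pp_022_s3 : ∃ t, chk3 f_A00pp_022_s3 t 21 14 1 = true :=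
  ⟨(b (b (a (a (b (b (a (l 532682767) (l 532817423)) (l 4)) (l 4)) (l 4)) (l 4)) (l 4)) (l 4)), by decide +kernel⟩

def k58_A00pp_022_s3 : ∃ t, chk3 f_A00pp_022_s3 t 10 15 1 = true :=
  ⟨(l 4), by decide +kernel⟩

def k59_A00pp_022_s3 : ∃ t, chk3 f_A00pp_022_s3 t 11 7 1 = true :=
  ⟨(l 4), by decide +kernel⟩

def k60_A00pp_022_s3 : ∃ t, chk3 f_A00pp_022_s3 t 6 2 1 = true :=
  ⟨(b (a (b (a (l 6) (b (l 6) (l 16545824))) (b (a (l 16535736) (l 16645608)) (a (a (l 16630160) (l 16644112)) (l 16664040)))) (a (b (c (l 16644048) (l 16641256)) (b (l 16666824) (a (l 16681288) (l 16649152)))) (a (b (l 16739224) (b (l 16680544) (l 139149971495))) (l 2)))) (a (b (a (b (l 16656672) (a (l 16754568) (b (l 16679504) (l 16690648)))) (b (a (l 16677600) (l 16648544)) (a (c (l 16784504) (l 16781744)) (b (l 16706608) (l 534218767))))) (a (b (b (a (l 16687752) (l 16744160)) (a (l 16741712) (l 535237647))) (a (a (b (l 16750592) (l 533571087)) (b (l 16736712) (l 533856783))) (b (a (l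 533758991) (l 533807887)) (a (l 533620751) (l 533665807))))) (b (a (b (l 534076943) (l 534800143)) (b (l 16771536) (l 534631951))) (b (a (a (l 533859343) (l 533912847)) (l 535328271)) (a (a (l 533713679) (l 533763855)) (l 533842703)))))) (b (a (b (a (l 16702104) (l 16712424)) (a (c (l 16767600) (l 16765080)) (b (l 16729216) (c (l 16762840) (l 16740008))))) (b (a (l 16764360) (c (l 16775744) (l 16773696))) (b (a (l 16760496) (l 534228751)) (b (l 534219535) (l 534207247))))) (a (b (a (b (l 535581711) (a (l 534164751) (l 535279375))) (c (a (l 534828559) (l 534280463)) (b (l 534171919) (a (l 534146575) (l 534132495))))) (a (b (b (l 534405135) (l 534646543)) (l 533955855)) (b (a (b (l 534179087) (l 534155279)) (b (l 534168847) (l 4))) (l 4)))) (a (b (l 534190607) (b (c (l 534475279) (l 534878223)) (l 4))) (b (l 534159375) (l 4))))))), by decide +kernel⟩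

def k61_A00pp_022_s3 : ∃ t, chk3 f_A00pp_022_s3 t 6 3 1 = true :=
  ⟨(b (a (b (a (b (a (b (b (l 533751311) (a (l 533417999) (l 533425679))) (a (b (l 533360143) (l 533306895)) (b (l 533362959) (b (l 533318159) (l 533290511))))) (a (b (b (l 533515791) (l 533445903)) (b (l 534182415) (a (l 533841935) (l 533315855)))) (b (l 533520911) (l 533377551)))) (a (a (b (b (l 533264143) (l 533226255)) (b (c (l 533180687) (l 533192719)) (l 4))) (b (l 533239567) (l 4))) (b (a (b (a (l 534051599) (c (l 533230095) (l 533271311))) (l 4)) (l 4)) (l 4)))) (b (a (b (b (a (l 533601551) (l 533648399)) (a (l 533527055) (l 533571599))) (l 533436175)) (b (c (l 533696271) (l 533666831)) (l 4))) (l 4))) (l 4)) (b (l 4) (l 4))) (l 4)), by decide +kernel⟩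

def k62_A00pp_022_s3 : ∃ t, chk3 f_A00pp_022_s3 t 7 1 1 = true :=
  ⟨(b (b (l 2) (b (l 2) (b (l 2) (l 4)))) (l 4)), by decide +kernel⟩

theorem t63_A00pp_022_s3 : ∃ t, chk3 f_A00pp_022_s3 t 6 1 1 = true := ex3_b k60_A00pp_022_s3 k61_A00pp_022_s3

theorem t64_A00pp_022_s3 : ∃ t, chk3 f_A00pp_022_s3 t 3 1 1 = true := ex3_a t63_A00pp_022_s3 k62_A00pp_022_s3

theorem t65_A00pp_022_s3 : ∃ t, chk3 f_A00pp_022_s3 t 20 28 1 = true := ex3_a k54_A00pp_022_s3 k55_A00pp_022_s3

theorem t66_A00pp_022_s3 : ∃ t, chk3 f_A00pp_022_s3 t 20 14 1 = true := ex3_b t65_A00pp_022_s3 k56_A00pp_022_s3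

theorem t67_A00pp_022_s3 : ∃ t, chk3 f_A00pp_022_s3 t 10 14 1 = true := ex3_a t66_A00pp_022_s3 k57_A00pp_022_s3

theorem t68_A00pp_022_s3 : ∃ t, chk3 f_A00pp_022_s3 t 10 7 1 = true := ex3_b t67_A00pp_022_s3 k58_A00pp_022_s3

theorem t69_A00pp_022_s3 : ∃ t, chk3 f_A00pp_022_s3 t 5 7 1 = true := ex3_a t68_A00pp_022_s3 k59_A00pp_022_s3

theorem t70_A00pp_022_s3 : ∃ t, chk3 f_A00pp_022_s3 t 11 6 1 = true := ex3_b k52_A00pp_022_s3 k53_A00pp_022_s3

theorem t71_A00pp_022_s3 : ∃ t, chk3 f_A00pp_022_s3 t 20 27 1 = true := ex3_a k49_A00pp_022_s3 k50_A00pp_022_s3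

theorem t72_A00pp_022_s3 : ∃ t, chk3 f_A00pp_022_s3 t 20 13 1 = true := ex3_b k48_A00pp_022_s3 t71_A00pp_022_s3

theorem t73_A00pp_022_s3 : ∃ t, chk3 f_A00pp_022_s3 t 10 13 1 = true := ex3_a t72_A00pp_022_s3 k51_A00pp_022_s3

theorem t74_A00pp_022_s3 : ∃ t, chk3 f_A00pp_022_s3 t 10 6 1 = true := ex3_b k47_A00pp_022_s3 t73_A00pp_022_s3

theorem t75_A00pp_022_s3 : ∃ t, chk3 f_A00pp_022_s3 t 5 6 1 = true := ex3_a t74_A00pp_022_s3 t70_A00pp_022_s3

theorem t76_A00pp_022_s3 : ∃ t, chk3 f_A00pp_022_s3 t 5 3 1 = true := ex3_b t75_A00pp_022_s3 t69_A00pp_022_s3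

theorem t77_A00pp_022_s3 : ∃ t, chk3 f_A00pp_022_s3 t 19 14 1 = true := ex3_b k44_A00pp_022_s3 k45_A00pp_022_s3

theorem t78_A00pp_022_s3 : ∃ t, chk3 f_A00pp_022_s3 t 18 14 1 = true := ex3_b k42_A00pp_022_s3 k43_A00pp_022_s3

theorem t79_A00pp_022_s3 : ∃ t, chk3 f_A00pp_022_s3 t 9 14 1 = true := ex3_a t78_A00pp_022_s3 t77_A00pp_022_s3

theorem t80_A00pp_022_s3 : ∃ t, chk3 f_A00pp_022_s3 t 9 7 1 = true := ex3_b t79_A00pp_022_s3 k46_A00pp_022_s3

theorem t81_A00pp_022_s3 : ∃ t, chk3 f_A00pp_022_s3 t 68 30 1 = true := ex3_a k37_A00pp_022_s3 k38_A00pp_022_s3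

theorem t82_A00pp_022_s3 : ∃ t, chk3 f_A00pp_022_s3 t 34 30 1 = true := ex3_a t81_A00pp_022_s3 k39_A00pp_022_s3

theorem t83_A00pp_022_s3 : ∃ t, chk3 f_A00pp_022_s3 t 17 30 1 = true := ex3_a t82_A00pp_022_s3 k40_A00pp_022_s3

theorem t84_A00pp_022_s3 : ∃ t, chk3 f_A00pp_022_s3 t 8 30 1 = true := ex3_a k36_A00pp_022_s3 t83_A00pp_022_s3

theorem t85_A00pp_022_s3 : ∃ t, chk3 f_A00pp_022_s3 t 8 15 1 = true := ex3_b t84_A00pp_022_s3 k41_A00pp_022_s3

theorem t86_A00pp_022_s3 : ∃ t, chk3 f_A00pp_022_s3 t 17 29 1 = true := ex3_a k34_A00pp_022_s3 k35_A00pp_022_s3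

theorem t87_A00pp_022_s3 : ∃ t, chk3 f_A00pp_022_s3 t 16 58 1 = true := ex3_c k31_A00pp_022_s3 k32_A00pp_022_s3

theorem t88_A00pp_022_s3 : ∃ t, chk3 f_A00pp_022_s3 t 16 29 1 = true := ex3_b t87_A00pp_022_s3 k33_A00pp_022_s3

theorem t89_A00pp_022_s3 : ∃ t, chk3 f_A00pp_022_s3 t 8 29 1 = true := ex3_a t88_A00pp_022_s3 t86_A00pp_022_s3

theorem t90_A00pp_022_s3 : ∃ t, chk3 f_A00pp_022_s3 t 8 57 3 = true := ex3_b k29_A00pp_022_s3 k30_A00pp_022_s3

theorem t91_A00pp_022_s3 : ∃ t, chk3 f_A00pp_022_s3 t 8 57 1 = true := ex3_c k28_A00pp_022_s3 t90_A00pp_022_s3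

theorem t92_A00pp_022_s3 : ∃ t, chk3 f_A00pp_022_s3 t 8 56 1 = true := ex3_c k26_A00pp_022_s3 k27_A00pp_022_s3

theorem t93_A00pp_022_s3 : ∃ t, chk3 f_A00pp_022_s3 t 8 28 1 = true := ex3_b t92_A00pp_022_s3 t91_A00pp_022_s3

theorem t94_A00pp_022_s3 : ∃ t, chk3 f_A00pp_022_s3 t 8 14 1 = true := ex3_b t93_A00pp_022_s3 t89_A00pp_022_s3

theorem t95_A00pp_022_s3 : ∃ t, chk3 f_A00pp_022_s3 t 8 7 1 = true := ex3_b t94_A00pp_022_s3 t85_A00pp_022_s3

theorem t96_A00pp_022_s3 : ∃ t, chk3 f_A00pp_022_s3 t 4 7 1 = true := ex3_a t95_A00pp_022_s3 t80_A00pp_022_s3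

theorem t97_A00pp_022_s3 : ∃ t, chk3 f_A00pp_022_s3 t 19 27 1 = true := ex3_a k24_A00pp_022_s3 k25_A00pp_022_s3

theorem t98_A00pp_022_s3 : ∃ t, chk3 f_A00pp_022_s3 t 19 26 1 = true := ex3_a k22_A00pp_022_s3 k23_A00pp_022_s3

theorem t99_A00pp_022_s3 : ∃ t, chk3 f_A00pp_022_s3 t 19 13 1 = true := ex3_b t98_A00pp_022_s3 t97_A00pp_022_s3

theorem t100_A00pp_022_s3 : ∃ t, chk3 f_A00pp_022_s3 t 37 27 1 = true := ex3_a k20_A00pp_022_s3 k21_A00pp_022_s3

theorem t101_A00pp_022_s3 : ∃ t, chk3 f_A00pp_022_s3 t 37 13 1 = true := ex3_b k19_A00pp_022_s3 t100_A00pp_022_s3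

theorem t102_A00pp_022_s3 : ∃ t, chk3 f_A00pp_022_s3 t 36 27 1 = true := ex3_a k17_A00pp_022_s3 k18_A00pp_022_s3

theorem t103_A00pp_022_s3 : ∃ t, chk3 f_A00pp_022_s3 t 36 26 1 = true := ex3_b k15_A00pp_022_s3 k16_A00pp_022_s3

theorem t104_A00pp_022_s3 : ∃ t, chk3 f_A00pp_022_s3 t 36 13 1 = true := ex3_b t103_A00pp_022_s3 t102_A00pp_022_s3

theorem t105_A00pp_022_s3 : ∃ t, chk3 f_A00pp_022_s3 t 18 13 1 = true := ex3_a t104_A00pp_022_s3 t101_A00pp_022_s3

theorem t106_A00pp_022_s3 : ∃ t, chk3 f_A00pp_022_s3 t 9 13 1 = true := ex3_a t105_A00pp_022_s3 t99_A00pp_022_s3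

theorem t107_A00pp_022_s3 : ∃ t, chk3 f_A00pp_022_s3 t 9 12 1 = true := ex3_a k13_A00pp_022_s3 k14_A00pp_022_s3

theorem t108_A00pp_022_s3 : ∃ t, chk3 f_A00pp_022_s3 t 9 6 1 = true := ex3_b t107_A00pp_022_s3 t106_A00pp_022_s3

theorem t109_A00pp_022_s3 : ∃ t, chk3 f_A00pp_022_s3 t 35 26 1 = true := ex3_b k10_A00pp_022_s3 k11_A00pp_022_s3

theorem t110_A00pp_022_s3 : ∃ t, chk3 f_A00pp_022_s3 t 35 13 1 = true := ex3_b t109_A00pp_022_s3 k12_A00pp_022_s3

theorem t111_A00pp_022_s3 : ∃ t, chk3 f_A00pp_022_s3 t 35 6 1 = true := ex3_b k9_A00pp_022_s3 t110_A00pp_022_s3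

theorem t112_A00pp_022_s3 : ∃ t, chk3 f_A00pp_022_s3 t 34 13 1 = true := ex3_c k7_A00pp_022_s3 k8_A00pp_022_s3

theorem t113_A00pp_022_s3 : ∃ t, chk3 f_A00pp_022_s3 t 34 6 1 = true := ex3_b k6_A00pp_022_s3 t112_A00pp_022_s3

theorem t114_A00pp_022_s3 : ∃ t, chk3 f_A00pp_022_s3 t 17 6 1 = true := ex3_a t113_A00pp_022_s3 t111_A00pp_022_s3

theorem t115_A00pp_022_s3 : ∃ t, chk3 f_A00pp_022_s3 t 16 27 1 = true := ex3_a k4_A00pp_022_s3 k5_A00pp_022_s3

theorem t116_A00pp_022_s3 : ∃ t, chk3 f_A00pp_022_s3 t 16 26 1 = true := ex3_b k2_A00pp_022_s3 k3_A00pp_022_s3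

theorem t117_A00pp_022_s3 : ∃ t, chk3 f_A00pp_022_s3 t 16 13 1 = true := ex3_b t116_A00pp_022_s3 t115_A00pp_022_s3

theorem t118_A00pp_022_s3 : ∃ t, chk3 f_A00pp_022_s3 t 16 6 1 = true := ex3_b k1_A00pp_022_s3 t117_A00pp_022_s3

theorem t119_A00pp_022_s3 : ∃ t, chk3 f_A00pp_022_s3 t 8 6 1 = true := ex3_a t118_A00pp_022_s3 t114_A00pp_022_s3

theorem t120_A00pp_022_s3 : ∃ t, chk3 f_A00pp_022_s3 t 4 6 1 = true := ex3_a t119_A00pp_022_s3 t108_A00pp_022_s3

theorem t121_A00pp_022_s3 : ∃ t, chk3 f_A00pp_022_s3 t 4 3 1 = true := ex3_b t120_A00pp_022_s3 t96_A00pp_022_s3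

theorem t122_A00pp_022_s3 : ∃ t, chk3 f_A00pp_022_s3 t 2 3 1 = true := ex3_a t121_A00pp_022_s3 t76_A00pp_022_s3

theorem t123_A00pp_022_s3 : ∃ t, chk3 f_A00pp_022_s3 t 2 1 1 = true := ex3_b k0_A00pp_022_s3 t122_A00pp_022_s3

theorem t124_A00pp_022_s3 : ∃ t, chk3 f_A00pp_022_s3 t 1 1 1 = true := ex3_a t123_A00pp_022_s3 t64_A00pp_022_s3

theorem c_A00pp_022_s3 : CertF 0 536870912 0 536870912 740881858 40050571 true true true .pp 0 2 2
    ndB0q0 ndB0q2 pcB2 cut_A00pp_022_s3 xt_A00pp_022_s3 :=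
  certF0 (fam := true) (s1 := true) (s2 := true) (a := 0) (b := 2) (c := 2) (cn := .pp) (n1 := ndB0q0) (n2 := ndB0q2) (pc := pcB2) (cut := cut_A00pp_022_s3) (xt := xt_A00pp_022_s3) (P1 := 0) (W1 := 536870912) (P2 := 0) (W2 := 536870912) (P3 := 740881858) (W3 := 40050571)
    rfl t124_A00pp_022_s3

theorem s_A00pp_022_s3 {κ x : ℝ} (hκ : κ * h0 = ken x) (hx : ((740881858 : ℕ) : ℝ) / S ≤ x)
    (hx' : x ≤ (((740881858 : ℕ) : ℝ) + (40050571 : ℕ)) / S)
    (H : CutA (VFD κ) PP tK tL pcB (Cut.of [[⟨0, 0, 0, 67108864⟩, ⟨1, 1, 0, 67108864⟩, ⟨2, 1, 0, 67108864⟩]]) 0 2 2 0 0 (sgb true) (sgb true) x) :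
    AltA (VFD κ) PP tK tL pcB [⟨4, 0, 0, 2845415833⟩] 0 2 2 0 0 (sgb true) (sgb true) x :=
  strip_altAD (m := 2845415833) false rfl hκ (SH.κ0 hκ (SH.hx1 hx).le (SH.hx2 hx').le) (SH.hx1 hx).le (SH.hx2 hx') (covB00).cov (covB02).cov hx hx' c_A00pp_022_s3 H ((okx hx hx').extA (T := tt) (sideB hx hx') hκ rfl rfl (.O 0 true) (.O 2 true) (Or.inl rfl))

noncomputable def cut_A00pp_023_s1 : Cut := Cut.of [[⟨4, 0, 0, 1449551462⟩]]

noncomputable def f_A00pp_023_s1 : ℕ → ℕ → ℕ → ℕ → Bool := onCell 0 536870912 0 536870912 740881858 40050571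
    (rowF 0 true true true .up 0 2 3 (qsf 0 536870912 0 536870912 3) ndB0q0 ndB0q2 pcB3 cut_A00pp_023_s1 Ext.none)

def k0_A00pp_023_s1 : ∃ t, chk3 f_A00pp_023_s1 t 1 1 1 = true :=
  ⟨(l 6), by decide +kernel⟩

theorem c_A00pp_023_s1 : CertF 0 536870912 0 536870912 740881858 40050571 true true true .up 0 2 3
    ndB0q0 ndB0q2 pcB3 cut_A00pp_023_s1 Ext.none :=
  certF0 (fam := true) (s1 := true) (s2 := true) (a := 0) (b := 2) (c := 3) (cn := .up) (n1 := ndB0q0) (n2 := ndB0q2) (pc := pcB3) (cut := cut_A00pp_023_s1) (xt := Ext.none) (P1 := 0) (W1 := 536870912) (P2 := 0) (W2 := 536870912) (P3 := 740881858) (W3 := 40050571)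
    rfl k0_A00pp_023_s1

theorem s_A00pp_023_s1 {κ x : ℝ} (hκ : κ * h0 = ken x) (hx : ((740881858 : ℕ) : ℝ) / S ≤ x)
    (hx' : x ≤ (((740881858 : ℕ) : ℝ) + (40050571 : ℕ)) / S) :
    AltA (VFD κ) PP tK tL pcB [⟨3, 0, 0, 1449551462⟩] 0 2 3 0 0 (sgb true) (sgb true) x :=
  strip_altAD (m := 1449551462) true rfl hκ (SH.κ0 hκ (SH.hx1 hx).le (SH.hx2 hx').le) (SH.hx1 hx).le (SH.hx2 hx') (covB00).cov (covB02).cov hx hx' c_A00pp_023_s1 cutA_nil (noExt_A)

noncomputable def cut_A00pp_023_s3 : Cut := Cut.of [[⟨3, 0, 0, 2845415833⟩]]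

noncomputable def xt_A00pp_023_s3 : Ext := strExt dd true true true .u0 .u2 .s2 .up 0 2 3 rfl rfl gl3 vv ndB0q0 ndB0q2

noncomputable def f_A00pp_023_s3 : ℕ → ℕ → ℕ → ℕ → Bool := onCell 0 536870912 0 536870912 740881858 40050571
    (rowF 0 true true true .up 0 2 3 (qsf 0 536870912 0 536870912 3) ndB0q0 ndB0q2 pcB3 cut_A00pp_023_s3 xt_A00pp_023_s3)

def k0_A00pp_023_s3 : ∃ t, chk3 f_A00pp_023_s3 t 1 1 1 = true :=
  ⟨(a (l 1) (b (a (a (l 1) (a (b (b (l 1) (l 1)) (l 1)) (a (b (b (b (l 16645784) (l 16661440)) (b (l 16679104) (l 16699344))) (b (b (l 534268943) (b (l 1) (l 1))) (l 1))) (b (b (b (l 16656424) (l 16672000)) (b (l 16689728) (l 534361615))) (b (b (l 535076623) (b (l 534200079) (l 534161167))) (b (l 534107663) (l 4))))))) (b (a (b (b (a (l 16671528) (l 16689696)) (a (a (l 16682232) (l 16692128)) (a (l 16701544) (l 16710616)))) (a (b (a (b (l 16695152) (l 16704792)) (l 16710312)) (a (l 16762872) (l 534346767))) (b (b (l 534406159) (l 534336271)) (l 534295311))))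 (b (a (b (a (l 16701976) (l 16709856)) (a (l 16740528) (c (l 16769416) (l 16729968)))) (a (b (l 16722576) (b (l 16778280) (l 534672655))) (b (l 16756176) (c (l 534571023) (l 534673679))))) (a (b (b (a (l 16734008) (l 534196239)) (a (l 534206479) (b (l 534114063) (l 534071055)))) (l 534129935)) (b (a (b (a (l 534252047) (l 534304271)) (c (l 534035727) (l 534232335))) (l 534359823)) (a (c (l 533931023) (l 534119951)) (l 4)))))) (a (b (a (b (a (b (l 16758592) (l 534245135)) (l 534267663)) (a (c (b (l 534278159) (l 534234895)) (b (l 534118927) (l 534592271))) (b (l 534198799) (b (l 534160911) (l 4))))) (b (l 534235919) (b (l 534180623) (l 4)))) (a (b (a (a (l 534108687) (l 4)) (l 4)) (l 4)) (l 4))) (b (a (b (l 534112527) (l 4)) (l 4)) (l 4))))) (a (b (l 1) (l 1)) (l 4)))), by decide +kernel⟩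

theorem c_A00pp_023_s3 : CertF 0 536870912 0 536870912 740881858 40050571 true true true .up 0 2 3
    ndB0q0 ndB0q2 pcB3 cut_A00pp_023_s3 xt_A00pp_023_s3 :=
  certF0 (fam := true) (s1 := true) (s2 := true) (a := 0) (b := 2) (c := 3) (cn := .up) (n1 := ndB0q0) (n2 := ndB0q2) (pc := pcB3) (cut := cut_A00pp_023_s3) (xt := xt_A00pp_023_s3) (P1 := 0) (W1 := 536870912) (P2 := 0) (W2 := 536870912) (P3 := 740881858) (W3 := 40050571)
    rfl k0_A00pp_023_s3

theorem s_A00pp_023_s3 {κ x : ℝ} (hκ : κ * h0 = ken x) (hx : ((740881858 : ℕ) : ℝ) / S ≤ x)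
    (hx' : x ≤ (((740881858 : ℕ) : ℝ) + (40050571 : ℕ)) / S) :
    AltA (VFD κ) PP tK tL pcB [⟨4, 0, 0, 2845415833⟩] 0 2 3 0 0 (sgb true) (sgb true) x :=
  strip_altAD (m := 2845415833) false rfl hκ (SH.κ0 hκ (SH.hx1 hx).le (SH.hx2 hx').le) (SH.hx1 hx).le (SH.hx2 hx') (covB00).cov (covB02).cov hx hx' c_A00pp_023_s3 cutA_nil ((okx hx hx').extA (T := tt) (sideB hx hx') hκ rfl rfl (.O 0 true) (.O 2 true) (Or.inr rfl))

noncomputable def cut_A00pp_101_s1 : Cut := Cut.of [[⟨4, 0, 0, 1449551462⟩]]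

noncomputable def f_A00pp_101_s1 : ℕ → ℕ → ℕ → ℕ → Bool := onCell 536870912 536870912 0 536870912 740881858 40050571
    (rowF 0 true true true .npn 1 0 1 (qsf 536870912 536870912 0 536870912 1) ndB0q1 ndB0q0 pcB1 cut_A00pp_101_s1 Ext.none)

def k0_A00pp_101_s1 : ∃ t, chk3 f_A00pp_101_s1 t 1 1 1 = true :=
  ⟨(l 6), by decide +kernel⟩

theorem c_A00pp_101_s1 : CertF 536870912 536870912 0 536870912 740881858 40050571 true true true .npn 1 0 1
    ndB0q1 ndB0q0 pcB1 cut_A00pp_101_s1 Ext.none :=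
  certF0 (fam := true) (s1 := true) (s2 := true) (a := 1) (b := 0) (c := 1) (cn := .npn) (n1 := ndB0q1) (n2 := ndB0q0) (pc := pcB1) (cut := cut_A00pp_101_s1) (xt := Ext.none) (P1 := 536870912) (W1 := 536870912) (P2 := 0) (W2 := 536870912) (P3 := 740881858) (W3 := 40050571)
    rfl k0_A00pp_101_s1

theorem s_A00pp_101_s1 {κ x : ℝ} (hκ : κ * h0 = ken x) (hx : ((740881858 : ℕ) : ℝ) / S ≤ x)
    (hx' : x ≤ (((740881858 : ℕ) : ℝ) + (40050571 : ℕ)) / S) :
    AltA (VFD κ) PP tK tL pcB [⟨3, 0, 0, 1449551462⟩] 1 0 1 0 0 (sgb true) (sgb true) x :=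
  strip_altAD (m := 1449551462) true rfl hκ (SH.κ0 hκ (SH.hx1 hx).le (SH.hx2 hx').le) (SH.hx1 hx).le (SH.hx2 hx') (covB01).cov (covB00).cov hx hx' c_A00pp_101_s1 cutA_nil (noExt_A)

noncomputable def cut_A00pp_101_s3 : Cut := Cut.of [[⟨3, 0, 0, 2845415833⟩]]

noncomputable def f_A00pp_101_s3 : ℕ → ℕ → ℕ → ℕ → Bool := onCell 536870912 536870912 0 536870912 740881858 40050571
    (rowF 0 true true true .npn 1 0 1 (qsf 536870912 536870912 0 536870912 1) ndB0q1 ndB0q0 pcB1 cut_A00pp_101_s3 Ext.none)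

def k0_A00pp_101_s3 : ∃ t, chk3 f_A00pp_101_s3 t 1 1 1 = true :=
  ⟨(a (l 4) (l 5)), by decide +kernel⟩

theorem c_A00pp_101_s3 : CertF 536870912 536870912 0 536870912 740881858 40050571 true true true .npn 1 0 1
    ndB0q1 ndB0q0 pcB1 cut_A00pp_101_s3 Ext.none :=
  certF0 (fam := true) (s1 := true) (s2 := true) (a := 1) (b := 0) (c := 1) (cn := .npn) (n1 := ndB0q1) (n2 := ndB0q0) (pc := pcB1) (cut := cut_A00pp_101_s3) (xt := Ext.none) (P1 := 536870912) (W1 := 536870912) (P2 := 0) (W2 := 536870912) (P3 := 740881858) (W3 := 40050571)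
    rfl k0_A00pp_101_s3

theorem s_A00pp_101_s3 {κ x : ℝ} (hκ : κ * h0 = ken x) (hx : ((740881858 : ℕ) : ℝ) / S ≤ x)
    (hx' : x ≤ (((740881858 : ℕ) : ℝ) + (40050571 : ℕ)) / S) :
    AltA (VFD κ) PP tK tL pcB [⟨4, 0, 0, 2845415833⟩] 1 0 1 0 0 (sgb true) (sgb true) x :=
  strip_altAD (m := 2845415833) false rfl hκ (SH.κ0 hκ (SH.hx1 hx).le (SH.hx2 hx').le) (SH.hx1 hx).le (SH.hx2 hx') (covB01).cov (covB00).cov hx hx' c_A00pp_101_s3 cutA_nil (noExt_A)

noncomputable def cut_A00pp_102_s1 : Cut := Cut.of [[⟨4, 0, 0, 1449551462⟩]]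

noncomputable def f_A00pp_102_s1 : ℕ → ℕ → ℕ → ℕ → Bool := onCell 536870912 536870912 0 536870912 740881858 40050571
    (rowF 0 true true true .npp 1 0 2 (qsf 536870912 536870912 0 536870912 2) ndB0q1 ndB0q0 pcB2 cut_A00pp_102_s1 Ext.none)

def k0_A00pp_102_s1 : ∃ t, chk3 f_A00pp_102_s1 t 1 1 1 = true :=
  ⟨(l 6), by decide +kernel⟩

theorem c_A00pp_102_s1 : CertF 536870912 536870912 0 536870912 740881858 40050571 true true true .npp 1 0 2
    ndB0q1 ndB0q0 pcB2 cut_A00pp_102_s1 Ext.none :=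
  certF0 (fam := true) (s1 := true) (s2 := true) (a := 1) (b := 0) (c := 2) (cn := .npp) (n1 := ndB0q1) (n2 := ndB0q0) (pc := pcB2) (cut := cut_A00pp_102_s1) (xt := Ext.none) (P1 := 536870912) (W1 := 536870912) (P2 := 0) (W2 := 536870912) (P3 := 740881858) (W3 := 40050571)
    rfl k0_A00pp_102_s1

theorem s_A00pp_102_s1 {κ x : ℝ} (hκ : κ * h0 = ken x) (hx : ((740881858 : ℕ) : ℝ) / S ≤ x)
    (hx' : x ≤ (((740881858 : ℕ) : ℝ) + (40050571 : ℕ)) / S) :
    AltA (VFD κ) PP tK tL pcB [⟨3, 0, 0, 1449551462⟩] 1 0 2 0 0 (sgb true) (sgb true) x :=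
  strip_altAD (m := 1449551462) true rfl hκ (SH.κ0 hκ (SH.hx1 hx).le (SH.hx2 hx').le) (SH.hx1 hx).le (SH.hx2 hx') (covB01).cov (covB00).cov hx hx' c_A00pp_102_s1 cutA_nil (noExt_A)

noncomputable def cut_A00pp_102_s3 : Cut := Cut.of [[⟨3, 0, 0, 2845415833⟩]]

noncomputable def f_A00pp_102_s3 : ℕ → ℕ → ℕ → ℕ → Bool := onCell 536870912 536870912 0 536870912 740881858 40050571
    (rowF 0 true true true .npp 1 0 2 (qsf 536870912 536870912 0 536870912 2) ndB0q1 ndB0q0 pcB2 cut_A00pp_102_s3 Ext.none)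

def k0_A00pp_102_s3 : ∃ t, chk3 f_A00pp_102_s3 t 1 1 1 = true :=
  ⟨(a (l 4) (l 5)), by decide +kernel⟩

theorem c_A00pp_102_s3 : CertF 536870912 536870912 0 536870912 740881858 40050571 true true true .npp 1 0 2
    ndB0q1 ndB0q0 pcB2 cut_A00pp_102_s3 Ext.none :=
  certF0 (fam := true) (s1 := true) (s2 := true) (a := 1) (b := 0) (c := 2) (cn := .npp) (n1 := ndB0q1) (n2 := ndB0q0) (pc := pcB2) (cut := cut_A00pp_102_s3) (xt := Ext.none) (P1 := 536870912) (W1 := 536870912) (P2 := 0) (W2 := 536870912) (P3 := 740881858) (W3 := 40050571)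
    rfl k0_A00pp_102_s3

theorem s_A00pp_102_s3 {κ x : ℝ} (hκ : κ * h0 = ken x) (hx : ((740881858 : ℕ) : ℝ) / S ≤ x)
    (hx' : x ≤ (((740881858 : ℕ) : ℝ) + (40050571 : ℕ)) / S) :
    AltA (VFD κ) PP tK tL pcB [⟨4, 0, 0, 2845415833⟩] 1 0 2 0 0 (sgb true) (sgb true) x :=
  strip_altAD (m := 2845415833) false rfl hκ (SH.κ0 hκ (SH.hx1 hx).le (SH.hx2 hx').le) (SH.hx1 hx).le (SH.hx2 hx') (covB01).cov (covB00).cov hx hx' c_A00pp_102_s3 cutA_nil (noExt_A)

noncomputable def cut_A00pp_112_s1 : Cut := Cut.of [[⟨4, 0, 0, 1449551462⟩]]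

noncomputable def f_A00pp_112_s1 : ℕ → ℕ → ℕ → ℕ → Bool := onCell 536870912 536870912 536870912 536870912 740881858 40050571
    (rowF 0 true true true .dn 1 1 2 (qsf 536870912 536870912 536870912 536870912 2) ndB0q1 ndB0q1 pcB2 cut_A00pp_112_s1 Ext.none)

def k0_A00pp_112_s1 : ∃ t, chk3 f_A00pp_112_s1 t 1 1 1 = true :=
  ⟨(l 4), by decide +kernel⟩

theorem c_A00pp_112_s1 : CertF 536870912 536870912 536870912 536870912 740881858 40050571 true true true .dn 1 1 2
    ndB0q1 ndB0q1 pcB2 cut_A00pp_112_s1 Ext.none :=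
  certF0 (fam := true) (s1 := true) (s2 := true) (a := 1) (b := 1) (c := 2) (cn := .dn) (n1 := ndB0q1) (n2 := ndB0q1) (pc := pcB2) (cut := cut_A00pp_112_s1) (xt := Ext.none) (P1 := 536870912) (W1 := 536870912) (P2 := 536870912) (W2 := 536870912) (P3 := 740881858) (W3 := 40050571)
    rfl k0_A00pp_112_s1

theorem s_A00pp_112_s1 {κ x : ℝ} (hκ : κ * h0 = ken x) (hx : ((740881858 : ℕ) : ℝ) / S ≤ x)
    (hx' : x ≤ (((740881858 : ℕ) : ℝ) + (40050571 : ℕ)) / S) :
    AltA (VFD κ) PP tK tL pcB [⟨3, 0, 0, 1449551462⟩] 1 1 2 0 0 (sgb true) (sgb true) x :=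
  strip_altAD (m := 1449551462) true rfl hκ (SH.κ0 hκ (SH.hx1 hx).le (SH.hx2 hx').le) (SH.hx1 hx).le (SH.hx2 hx') (covB01).cov (covB01).cov hx hx' c_A00pp_112_s1 cutA_nil (noExt_A)

noncomputable def cut_A00pp_112_s3 : Cut := Cut.of [[⟨3, 0, 0, 2845415833⟩]]

noncomputable def f_A00pp_112_s3 : ℕ → ℕ → ℕ → ℕ → Bool := onCell 536870912 536870912 536870912 536870912 740881858 40050571
    (rowF 0 true true true .dn 1 1 2 (qsf 536870912 536870912 536870912 536870912 2) ndB0q1 ndB0q1 pcB2 cut_A00pp_112_s3 Ext.none)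

def k0_A00pp_112_s3 : ∃ t, chk3 f_A00pp_112_s3 t 1 1 1 = true :=
  ⟨(l 4), by decide +kernel⟩

theorem c_A00pp_112_s3 : CertF 536870912 536870912 536870912 536870912 740881858 40050571 true true true .dn 1 1 2
    ndB0q1 ndB0q1 pcB2 cut_A00pp_112_s3 Ext.none :=
  certF0 (fam := true) (s1 := true) (s2 := true) (a := 1) (b := 1) (c := 2) (cn := .dn) (n1 := ndB0q1) (n2 := ndB0q1) (pc := pcB2) (cut := cut_A00pp_112_s3) (xt := Ext.none) (P1 := 536870912) (W1 := 536870912) (P2 := 536870912) (W2 := 536870912) (P3 := 740881858) (W3 := 40050571)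
    rfl k0_A00pp_112_s3

theorem s_A00pp_112_s3 {κ x : ℝ} (hκ : κ * h0 = ken x) (hx : ((740881858 : ℕ) : ℝ) / S ≤ x)
    (hx' : x ≤ (((740881858 : ℕ) : ℝ) + (40050571 : ℕ)) / S) :
    AltA (VFD κ) PP tK tL pcB [⟨4, 0, 0, 2845415833⟩] 1 1 2 0 0 (sgb true) (sgb true) x :=
  strip_altAD (m := 2845415833) false rfl hκ (SH.κ0 hκ (SH.hx1 hx).le (SH.hx2 hx').le) (SH.hx1 hx).le (SH.hx2 hx') (covB01).cov (covB01).cov hx hx' c_A00pp_112_s3 cutA_nil (noExt_A)

noncomputable def cut_A00pp_113_s1 : Cut := Cut.of [[⟨4, 0, 0, 1449551462⟩]]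

noncomputable def f_A00pp_113_s1 : ℕ → ℕ → ℕ → ℕ → Bool := onCell 536870912 536870912 536870912 536870912 740881858 40050571
    (rowF 0 true true true .nn 1 1 3 (qsf 536870912 536870912 536870912 536870912 3) ndB0q1 ndB0q1 pcB3 cut_A00pp_113_s1 Ext.none)

def k0_A00pp_113_s1 : ∃ t, chk3 f_A00pp_113_s1 t 1 1 1 = true :=
  ⟨(l 4), by decide +kernel⟩

theorem c_A00pp_113_s1 : CertF 536870912 536870912 536870912 536870912 740881858 40050571 true true true .nn 1 1 3
    ndB0q1 ndB0q1 pcB3 cut_A00pp_113_s1 Ext.none :=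
  certF0 (fam := true) (s1 := true) (s2 := true) (a := 1) (b := 1) (c := 3) (cn := .nn) (n1 := ndB0q1) (n2 := ndB0q1) (pc := pcB3) (cut := cut_A00pp_113_s1) (xt := Ext.none) (P1 := 536870912) (W1 := 536870912) (P2 := 536870912) (W2 := 536870912) (P3 := 740881858) (W3 := 40050571)
    rfl k0_A00pp_113_s1

theorem s_A00pp_113_s1 {κ x : ℝ} (hκ : κ * h0 = ken x) (hx : ((740881858 : ℕ) : ℝ) / S ≤ x)
    (hx' : x ≤ (((740881858 : ℕ) : ℝ) + (40050571 : ℕ)) / S) :
    AltA (VFD κ) PP tK tL pcB [⟨3, 0, 0, 1449551462⟩] 1 1 3 0 0 (sgb true) (sgb true) x :=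
  strip_altAD (m := 1449551462) true rfl hκ (SH.κ0 hκ (SH.hx1 hx).le (SH.hx2 hx').le) (SH.hx1 hx).le (SH.hx2 hx') (covB01).cov (covB01).cov hx hx' c_A00pp_113_s1 cutA_nil (noExt_A)

noncomputable def cut_A00pp_113_s3 : Cut := Cut.of [[⟨3, 0, 0, 2845415833⟩]]

noncomputable def f_A00pp_113_s3 : ℕ → ℕ → ℕ → ℕ → Bool := onCell 536870912 536870912 536870912 536870912 740881858 40050571
    (rowF 0 true true true .nn 1 1 3 (qsf 536870912 536870912 536870912 536870912 3) ndB0q1 ndB0q1 pcB3 cut_A00pp_113_s3 Ext.none)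

def k0_A00pp_113_s3 : ∃ t, chk3 f_A00pp_113_s3 t 1 1 1 = true :=
  ⟨(l 4), by decide +kernel⟩

theorem c_A00pp_113_s3 : CertF 536870912 536870912 536870912 536870912 740881858 40050571 true true true .nn 1 1 3
    ndB0q1 ndB0q1 pcB3 cut_A00pp_113_s3 Ext.none :=
  certF0 (fam := true) (s1 := true) (s2 := true) (a := 1) (b := 1) (c := 3) (cn := .nn) (n1 := ndB0q1) (n2 := ndB0q1) (pc := pcB3) (cut := cut_A00pp_113_s3) (xt := Ext.none) (P1 := 536870912) (W1 := 536870912) (P2 := 536870912) (W2 := 536870912) (P3 := 740881858) (W3 := 40050571)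
    rfl k0_A00pp_113_s3

theorem s_A00pp_113_s3 {κ x : ℝ} (hκ : κ * h0 = ken x) (hx : ((740881858 : ℕ) : ℝ) / S ≤ x)
    (hx' : x ≤ (((740881858 : ℕ) : ℝ) + (40050571 : ℕ)) / S) :
    AltA (VFD κ) PP tK tL pcB [⟨4, 0, 0, 2845415833⟩] 1 1 3 0 0 (sgb true) (sgb true) x :=
  strip_altAD (m := 2845415833) false rfl hκ (SH.κ0 hκ (SH.hx1 hx).le (SH.hx2 hx').le) (SH.hx1 hx).le (SH.hx2 hx') (covB01).cov (covB01).cov hx hx' c_A00pp_113_s3 cutA_nil (noExt_A)

noncomputable def cut_A00pp_123_s1 : Cut := Cut.of [[⟨4, 0, 0, 1449551462⟩]]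

noncomputable def f_A00pp_123_s1 : ℕ → ℕ → ℕ → ℕ → Bool := onCell 536870912 536870912 0 536870912 740881858 40050571
    (rowF 0 true true true .npn 1 2 3 (qsf 536870912 536870912 0 536870912 3) ndB0q1 ndB0q2 pcB3 cut_A00pp_123_s1 Ext.none)

def k0_A00pp_123_s1 : ∃ t, chk3 f_A00pp_123_s1 t 1 1 1 = true :=
  ⟨(l 6), by decide +kernel⟩

theorem c_A00pp_123_s1 : CertF 536870912 536870912 0 536870912 740881858 40050571 true true true .npn 1 2 3
    ndB0q1 ndB0q2 pcB3 cut_A00pp_123_s1 Ext.none :=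
  certF0 (fam := true) (s1 := true) (s2 := true) (a := 1) (b := 2) (c := 3) (cn := .npn) (n1 := ndB0q1) (n2 := ndB0q2) (pc := pcB3) (cut := cut_A00pp_123_s1) (xt := Ext.none) (P1 := 536870912) (W1 := 536870912) (P2 := 0) (W2 := 536870912) (P3 := 740881858) (W3 := 40050571)
    rfl k0_A00pp_123_s1

theorem s_A00pp_123_s1 {κ x : ℝ} (hκ : κ * h0 = ken x) (hx : ((740881858 : ℕ) : ℝ) / S ≤ x)
    (hx' : x ≤ (((740881858 : ℕ) : ℝ) + (40050571 : ℕ)) / S) :
    AltA (VFD κ) PP tK tL pcB [⟨3, 0, 0, 1449551462⟩] 1 2 3 0 0 (sgb true) (sgb true) x :=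
  strip_altAD (m := 1449551462) true rfl hκ (SH.κ0 hκ (SH.hx1 hx).le (SH.hx2 hx').le) (SH.hx1 hx).le (SH.hx2 hx') (covB01).cov (covB02).cov hx hx' c_A00pp_123_s1 cutA_nil (noExt_A)

noncomputable def cut_A00pp_123_s3 : Cut := Cut.of [[⟨3, 0, 0, 2845415833⟩]]

noncomputable def xt_A00pp_123_s3 : Ext := strExt dd true true true .u0 .u2 .s2 .npn 1 2 3 rfl rfl gl3 vv ndB0q1 ndB0q2

noncomputable def f_A00pp_123_s3 : ℕ → ℕ → ℕ → ℕ → Bool := onCell 536870912 536870912 0 536870912 740881858 40050571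
    (rowF 0 true true true .npn 1 2 3 (qsf 536870912 536870912 0 536870912 3) ndB0q1 ndB0q2 pcB3 cut_A00pp_123_s3 xt_A00pp_123_s3)

def k0_A00pp_123_s3 : ∃ t, chk3 f_A00pp_123_s3 t 2 1 2 = true :=
  ⟨(c (c (b (a (b (a (b (a (b (a (l 16766576) (l 534893839)) (l 534747919)) (b (l 534992143) (l 534886159))) (a (b (a (l 534526735) (l 4)) (l 4)) (l 4))) (b (a (b (l 535154447) (l 4)) (l 4)) (l 4))) (l 4)) (l 4)) (l 4)) (b (a (b (a (b (a (b (l 534865935) (l 534761999)) (b (l 534997007) (l 534894095))) (a (b (a (l 534547471) (l 4)) (l 4)) (l 4))) (b (a (b (l 535145487) (l 4)) (l 4)) (l 4))) (l 4)) (l 4)) (l 4))) (c (b (a (b (a (b (a (b (l 534876943) (l 534775567)) (b (l 535001871) (l 534901775))) (a (b (a (l 534567951) (l 4)) (l 4)) (l 4))) (b (a (b (l 535143951) (l 4)) (l 4)) (l 4))) (l 4)) (l 4)) (l 4)) (b (a (b (a (b (a (b (l 534887439) (l 534788623)) (b (l 535006223) (l 534909199))) (a (b (a (l 534588175) (l 4)) (l 4)) (l 4))) (b (a (b (l 535141903) (l 4)) (l 4))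 (l 4))) (l 4)) (l 4)) (l 4)))), by decide +kernel⟩

def k1_A00pp_123_s3 : ∃ t, chk3 f_A00pp_123_s3 t 2 1 3 = true :=
  ⟨(c (c (b (a (b (a (b (a (b (l 534897679) (l 534801423)) (b (l 535010063) (l 534915855))) (a (b (a (l 534608143) (l 4)) (l 4)) (l 4))) (b (a (b (l 535139343) (l 4)) (l 4)) (l 4))) (l 4)) (l 4)) (l 4)) (b (a (b (a (b (a (b (l 534907407) (l 534813967)) (b (l 535013647) (l 534922255))) (a (b (a (l 534627855) (l 4)) (l 4)) (l 4))) (b (a (b (l 535136527) (l 4)) (l 4)) (l 4))) (l 4)) (l 4)) (l 4))) (c (b (a (b (a (b (a (b (l 534916879) (l 534825999)) (b (l 535016719) (l 534928399))) (a (b (a (l 534647311) (l 4)) (l 4)) (l 4))) (b (a (b (l 535133455) (l 4)) (l 4)) (l 4))) (l 4)) (l 4)) (l 4)) (b (a (b (a (b (a (b (l 534926095) (l 534837519)) (b (l 535019535) (l 534933775))) (a (b (a (l 534666511) (l 4)) (l 4)) (l 4))) (b (a (b (l 535129871) (l 4)) (l 4)) (l 4))) (l 4)) (l 4)) (l 4)))), by decide +kernel⟩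

def k2_A00pp_123_s3 : ∃ t, chk3 f_A00pp_123_s3 t 3 1 1 = true :=
  ⟨(l 4), by decide +kernel⟩

theorem t3_A00pp_123_s3 : ∃ t, chk3 f_A00pp_123_s3 t 2 1 1 = true := ex3_c k0_A00pp_123_s3 k1_A00pp_123_s3

theorem t4_A00pp_123_s3 : ∃ t, chk3 f_A00pp_123_s3 t 1 1 1 = true := ex3_a t3_A00pp_123_s3 k2_A00pp_123_s3

theorem c_A00pp_123_s3 : CertF 536870912 536870912 0 536870912 740881858 40050571 true true true .npn 1 2 3
    ndB0q1 ndB0q2 pcB3 cut_A00pp_123_s3 xt_A00pp_123_s3 :=
  certF0 (fam := true) (s1 := true) (s2 := true) (a := 1) (b := 2) (c := 3) (cn := .npn) (n1 := ndB0q1) (n2 := ndB0q2) (pc := pcB3) (cut := cut_A00pp_123_s3) (xt := xt_A00pp_123_s3) (P1 := 536870912) (W1 := 536870912) (P2 := 0) (W2 := 536870912) (P3 := 740881858) (W3 := 40050571)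
    rfl t4_A00pp_123_s3

theorem s_A00pp_123_s3 {κ x : ℝ} (hκ : κ * h0 = ken x) (hx : ((740881858 : ℕ) : ℝ) / S ≤ x)
    (hx' : x ≤ (((740881858 : ℕ) : ℝ) + (40050571 : ℕ)) / S) :
    AltA (VFD κ) PP tK tL pcB [⟨4, 0, 0, 2845415833⟩] 1 2 3 0 0 (sgb true) (sgb true) x :=
  strip_altAD (m := 2845415833) false rfl hκ (SH.κ0 hκ (SH.hx1 hx).le (SH.hx2 hx').le) (SH.hx1 hx).le (SH.hx2 hx') (covB01).cov (covB02).cov hx hx' c_A00pp_123_s3 cutA_nil ((okx hx hx').extA (T := tt) (sideB hx hx') hκ rfl rfl (.O 1 true) (.O 2 true) (Or.inr rfl))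

noncomputable def cut_A00pp_202_s1 : Cut := Cut.of [[⟨4, 0, 0, 1449551462⟩]]

noncomputable def f_A00pp_202_s1 : ℕ → ℕ → ℕ → ℕ → Bool := onCell 0 536870912 0 536870912 740881858 40050571
    (rowF 0 true true true .pp 2 0 2 (qsf 0 536870912 0 536870912 2) ndB0q2 ndB0q0 pcB2 cut_A00pp_202_s1 Ext.none)

def k0_A00pp_202_s1 : ∃ t, chk3 f_A00pp_202_s1 t 1 1 1 = true :=
  ⟨(l 5), by decide +kernel⟩

theorem c_A00pp_202_s1 : CertF 0 536870912 0 536870912 740881858 40050571 true true true .pp 2 0 2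
    ndB0q2 ndB0q0 pcB2 cut_A00pp_202_s1 Ext.none :=
  certF0 (fam := true) (s1 := true) (s2 := true) (a := 2) (b := 0) (c := 2) (cn := .pp) (n1 := ndB0q2) (n2 := ndB0q0) (pc := pcB2) (cut := cut_A00pp_202_s1) (xt := Ext.none) (P1 := 0) (W1 := 536870912) (P2 := 0) (W2 := 536870912) (P3 := 740881858) (W3 := 40050571)
    rfl k0_A00pp_202_s1

theorem s_A00pp_202_s1 {κ x : ℝ} (hκ : κ * h0 = ken x) (hx : ((740881858 : ℕ) : ℝ) / S ≤ x)
    (hx' : x ≤ (((740881858 : ℕ) : ℝ) + (40050571 : ℕ)) / S) :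
    AltA (VFD κ) PP tK tL pcB [⟨3, 0, 0, 1449551462⟩] 2 0 2 0 0 (sgb true) (sgb true) x :=
  strip_altAD (m := 1449551462) true rfl hκ (SH.κ0 hκ (SH.hx1 hx).le (SH.hx2 hx').le) (SH.hx1 hx).le (SH.hx2 hx') (covB02).cov (covB00).cov hx hx' c_A00pp_202_s1 cutA_nil (noExt_A)

noncomputable def cut_A00pp_202_s3 : Cut := Cut.of [[⟨3, 0, 0, 2845415833⟩]]

noncomputable def f_A00pp_202_s3 : ℕ → ℕ → ℕ → ℕ → Bool := onCell 0 536870912 0 536870912 740881858 40050571
    (rowF 0 true true true .pp 2 0 2 (qsf 0 536870912 0 536870912 2) ndB0q2 ndB0q0 pcB2 cut_A00pp_202_s3 Ext.none)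

def k0_A00pp_202_s3 : ∃ t, chk3 f_A00pp_202_s3 t 1 1 1 = true :=
  ⟨(l 5), by decide +kernel⟩

theorem c_A00pp_202_s3 : CertF 0 536870912 0 536870912 740881858 40050571 true true true .pp 2 0 2
    ndB0q2 ndB0q0 pcB2 cut_A00pp_202_s3 Ext.none :=
  certF0 (fam := true) (s1 := true) (s2 := true) (a := 2) (b := 0) (c := 2) (cn := .pp) (n1 := ndB0q2) (n2 := ndB0q0) (pc := pcB2) (cut := cut_A00pp_202_s3) (xt := Ext.none) (P1 := 0) (W1 := 536870912) (P2 := 0) (W2 := 536870912) (P3 := 740881858) (W3 := 40050571)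
    rfl k0_A00pp_202_s3

theorem s_A00pp_202_s3 {κ x : ℝ} (hκ : κ * h0 = ken x) (hx : ((740881858 : ℕ) : ℝ) / S ≤ x)
    (hx' : x ≤ (((740881858 : ℕ) : ℝ) + (40050571 : ℕ)) / S) :
    AltA (VFD κ) PP tK tL pcB [⟨4, 0, 0, 2845415833⟩] 2 0 2 0 0 (sgb true) (sgb true) x :=
  strip_altAD (m := 2845415833) false rfl hκ (SH.κ0 hκ (SH.hx1 hx).le (SH.hx2 hx').le) (SH.hx1 hx).le (SH.hx2 hx') (covB02).cov (covB00).cov hx hx' c_A00pp_202_s3 cutA_nil (noExt_A)

noncomputable def cut_A00pp_203_s1 : Cut := Cut.of [[⟨4, 0, 0, 1449551462⟩]]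

noncomputable def f_A00pp_203_s1 : ℕ → ℕ → ℕ → ℕ → Bool := onCell 0 536870912 0 536870912 740881858 40050571
    (rowF 0 true true true .up 2 0 3 (qsf 0 536870912 0 536870912 3) ndB0q2 ndB0q0 pcB3 cut_A00pp_203_s1 Ext.none)

def k0_A00pp_203_s1 : ∃ t, chk3 f_A00pp_203_s1 t 1 1 1 = true :=
  ⟨(l 5), by decide +kernel⟩

theorem c_A00pp_203_s1 : CertF 0 536870912 0 536870912 740881858 40050571 true true true .up 2 0 3
    ndB0q2 ndB0q0 pcB3 cut_A00pp_203_s1 Ext.none :=
  certF0 (fam := true) (s1 := true) (s2 := true) (a := 2) (b := 0) (c := 3) (cn := .up) (n1 := ndB0q2) (n2 := ndB0q0) (pc := pcB3) (cut := cut_A00pp_203_s1) (xt := Ext.none) (P1 := 0) (W1 := 536870912) (P2 := 0) (W2 := 536870912) (P3 := 740881858) (W3 := 40050571)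
    rfl k0_A00pp_203_s1

theorem s_A00pp_203_s1 {κ x : ℝ} (hκ : κ * h0 = ken x) (hx : ((740881858 : ℕ) : ℝ) / S ≤ x)
    (hx' : x ≤ (((740881858 : ℕ) : ℝ) + (40050571 : ℕ)) / S) :
    AltA (VFD κ) PP tK tL pcB [⟨3, 0, 0, 1449551462⟩] 2 0 3 0 0 (sgb true) (sgb true) x :=
  strip_altAD (m := 1449551462) true rfl hκ (SH.κ0 hκ (SH.hx1 hx).le (SH.hx2 hx').le) (SH.hx1 hx).le (SH.hx2 hx') (covB02).cov (covB00).cov hx hx' c_A00pp_203_s1 cutA_nil (noExt_A)

noncomputable def cut_A00pp_203_s3 : Cut := Cut.of [[⟨3, 0, 0, 2845415833⟩]]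

noncomputable def f_A00pp_203_s3 : ℕ → ℕ → ℕ → ℕ → Bool := onCell 0 536870912 0 536870912 740881858 40050571
    (rowF 0 true true true .up 2 0 3 (qsf 0 536870912 0 536870912 3) ndB0q2 ndB0q0 pcB3 cut_A00pp_203_s3 Ext.none)

def k0_A00pp_203_s3 : ∃ t, chk3 f_A00pp_203_s3 t 1 1 1 = true :=
  ⟨(l 5), by decide +kernel⟩

theorem c_A00pp_203_s3 : CertF 0 536870912 0 536870912 740881858 40050571 true true true .up 2 0 3
    ndB0q2 ndB0q0 pcB3 cut_A00pp_203_s3 Ext.none :=
  certF0 (fam := true) (s1 := true) (s2 := true) (a := 2) (b := 0) (c := 3) (cn := .up) (n1 := ndB0q2) (n2 := ndB0q0) (pc := pcB3) (cut := cut_A00pp_203_s3) (xt := Ext.none) (P1 := 0) (W1 := 536870912) (P2 := 0) (W2 := 536870912) (P3 := 740881858) (W3 := 40050571)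
    rfl k0_A00pp_203_s3

theorem s_A00pp_203_s3 {κ x : ℝ} (hκ : κ * h0 = ken x) (hx : ((740881858 : ℕ) : ℝ) / S ≤ x)
    (hx' : x ≤ (((740881858 : ℕ) : ℝ) + (40050571 : ℕ)) / S) :
    AltA (VFD κ) PP tK tL pcB [⟨4, 0, 0, 2845415833⟩] 2 0 3 0 0 (sgb true) (sgb true) x :=
  strip_altAD (m := 2845415833) false rfl hκ (SH.κ0 hκ (SH.hx1 hx).le (SH.hx2 hx').le) (SH.hx1 hx).le (SH.hx2 hx') (covB02).cov (covB00).cov hx hx' c_A00pp_203_s3 cutA_nil (noExt_A)

noncomputable def cut_A00pp_213_s1 : Cut := Cut.of [[⟨4, 0, 0, 1449551462⟩]]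

noncomputable def f_A00pp_213_s1 : ℕ → ℕ → ℕ → ℕ → Bool := onCell 0 536870912 536870912 536870912 740881858 40050571
    (rowF 0 true true true .pnn 2 1 3 (qsf 0 536870912 536870912 536870912 3) ndB0q2 ndB0q1 pcB3 cut_A00pp_213_s1 Ext.none)

def k0_A00pp_213_s1 : ∃ t, chk3 f_A00pp_213_s1 t 1 1 1 = true :=
  ⟨(l 6), by decide +kernel⟩

theorem c_A00pp_213_s1 : CertF 0 536870912 536870912 536870912 740881858 40050571 true true true .pnn 2 1 3
    ndB0q2 ndB0q1 pcB3 cut_A00pp_213_s1 Ext.none :=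
  certF0 (fam := true) (s1 := true) (s2 := true) (a := 2) (b := 1) (c := 3) (cn := .pnn) (n1 := ndB0q2) (n2 := ndB0q1) (pc := pcB3) (cut := cut_A00pp_213_s1) (xt := Ext.none) (P1 := 0) (W1 := 536870912) (P2 := 536870912) (W2 := 536870912) (P3 := 740881858) (W3 := 40050571)
    rfl k0_A00pp_213_s1

theorem s_A00pp_213_s1 {κ x : ℝ} (hκ : κ * h0 = ken x) (hx : ((740881858 : ℕ) : ℝ) / S ≤ x)
    (hx' : x ≤ (((740881858 : ℕ) : ℝ) + (40050571 : ℕ)) / S) :
    AltA (VFD κ) PP tK tL pcB [⟨3, 0, 0, 1449551462⟩] 2 1 3 0 0 (sgb true) (sgb true) x :=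
  strip_altAD (m := 1449551462) true rfl hκ (SH.κ0 hκ (SH.hx1 hx).le (SH.hx2 hx').le) (SH.hx1 hx).le (SH.hx2 hx') (covB02).cov (covB01).cov hx hx' c_A00pp_213_s1 cutA_nil (noExt_A)

noncomputable def cut_A00pp_213_s3 : Cut := Cut.of [[⟨3, 0, 0, 2845415833⟩]]

noncomputable def f_A00pp_213_s3 : ℕ → ℕ → ℕ → ℕ → Bool := onCell 0 536870912 536870912 536870912 740881858 40050571
    (rowF 0 true true true .pnn 2 1 3 (qsf 0 536870912 536870912 536870912 3) ndB0q2 ndB0q1 pcB3 cut_A00pp_213_s3 Ext.none)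

def k0_A00pp_213_s3 : ∃ t, chk3 f_A00pp_213_s3 t 1 1 1 = true :=
  ⟨(a (l 5) (l 4)), by decide +kernel⟩

theorem c_A00pp_213_s3 : CertF 0 536870912 536870912 536870912 740881858 40050571 true true true .pnn 2 1 3
    ndB0q2 ndB0q1 pcB3 cut_A00pp_213_s3 Ext.none :=
  certF0 (fam := true) (s1 := true) (s2 := true) (a := 2) (b := 1) (c := 3) (cn := .pnn) (n1 := ndB0q2) (n2 := ndB0q1) (pc := pcB3) (cut := cut_A00pp_213_s3) (xt := Ext.none) (P1 := 0) (W1 := 536870912) (P2 := 536870912) (W2 := 536870912) (P3 := 740881858) (W3 := 40050571)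
    rfl k0_A00pp_213_s3

theorem s_A00pp_213_s3 {κ x : ℝ} (hκ : κ * h0 = ken x) (hx : ((740881858 : ℕ) : ℝ) / S ≤ x)
    (hx' : x ≤ (((740881858 : ℕ) : ℝ) + (40050571 : ℕ)) / S) :
    AltA (VFD κ) PP tK tL pcB [⟨4, 0, 0, 2845415833⟩] 2 1 3 0 0 (sgb true) (sgb true) x :=
  strip_altAD (m := 2845415833) false rfl hκ (SH.κ0 hκ (SH.hx1 hx).le (SH.hx2 hx').le) (SH.hx1 hx).le (SH.hx2 hx') (covB02).cov (covB01).cov hx hx' c_A00pp_213_s3 cutA_nil (noExt_A)

noncomputable def cut_A00pm_001_s1 : Cut := Cut.of [[⟨4, 0, 0, 1449551462⟩]]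

noncomputable def f_A00pm_001_s1 : ℕ → ℕ → ℕ → ℕ → Bool := onCell 0 536870912 0 536870912 740881858 40050571
    (rowF 0 true true false .up 0 0 1 (qsf 0 536870912 0 536870912 1) ndB0q0 ndB0q0 pcB1 cut_A00pm_001_s1 Ext.none)

def k0_A00pm_001_s1 : ∃ t, chk3 f_A00pm_001_s1 t 1 1 1 = true :=
  ⟨(l 3), by decide +kernel⟩

theorem c_A00pm_001_s1 : CertF 0 536870912 0 536870912 740881858 40050571 true true false .up 0 0 1
    ndB0q0 ndB0q0 pcB1 cut_A00pm_001_s1 Ext.none :=
  certF0 (fam := true) (s1 := true) (s2 := false) (a := 0) (b := 0) (c := 1) (cn := .up) (n1 := ndB0q0) (n2 := ndB0q0) (pc := pcB1) (cut := cut_A00pm_001_s1) (xt := Ext.none) (P1 := 0) (W1 := 536870912) (P2 := 0) (W2 := 536870912) (P3 := 740881858) (W3 := 40050571)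
    rfl k0_A00pm_001_s1

theorem s_A00pm_001_s1 {κ x : ℝ} (hκ : κ * h0 = ken x) (hx : ((740881858 : ℕ) : ℝ) / S ≤ x)
    (hx' : x ≤ (((740881858 : ℕ) : ℝ) + (40050571 : ℕ)) / S) :
    AltA (VFD κ) PP tK tL pcB [⟨3, 0, 0, 1449551462⟩] 0 0 1 0 0 (sgb true) (sgb false) x :=
  strip_altAD (m := 1449551462) true rfl hκ (SH.κ0 hκ (SH.hx1 hx).le (SH.hx2 hx').le) (SH.hx1 hx).le (SH.hx2 hx') (covB00).cov (covB00).cov hx hx' c_A00pm_001_s1 cutA_nil (noExt_A)

noncomputable def cut_A00pm_001_s3 : Cut := Cut.of [[⟨3, 0, 0, 2845415833⟩]]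

noncomputable def f_A00pm_001_s3 : ℕ → ℕ → ℕ → ℕ → Bool := onCell 0 536870912 0 536870912 740881858 40050571
    (rowF 0 true true false .up 0 0 1 (qsf 0 536870912 0 536870912 1) ndB0q0 ndB0q0 pcB1 cut_A00pm_001_s3 Ext.none)

def k0_A00pm_001_s3 : ∃ t, chk3 f_A00pm_001_s3 t 1 1 1 = true :=
  ⟨(l 3), by decide +kernel⟩

theorem c_A00pm_001_s3 : CertF 0 536870912 0 536870912 740881858 40050571 true true false .up 0 0 1
    ndB0q0 ndB0q0 pcB1 cut_A00pm_001_s3 Ext.none :=
  certF0 (fam := true) (s1 := true) (s2 := false) (a := 0) (b := 0) (c := 1) (cn := .up) (n1 := ndB0q0) (n2 := ndB0q0) (pc := pcB1) (cut := cut_A00pm_001_s3) (xt := Ext.none) (P1 := 0) (W1 := 536870912) (P2 := 0) (W2 := 536870912) (P3 := 740881858) (W3 := 40050571)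
    rfl k0_A00pm_001_s3

theorem s_A00pm_001_s3 {κ x : ℝ} (hκ : κ * h0 = ken x) (hx : ((740881858 : ℕ) : ℝ) / S ≤ x)
    (hx' : x ≤ (((740881858 : ℕ) : ℝ) + (40050571 : ℕ)) / S) :
    AltA (VFD κ) PP tK tL pcB [⟨4, 0, 0, 2845415833⟩] 0 0 1 0 0 (sgb true) (sgb false) x :=
  strip_altAD (m := 2845415833) false rfl hκ (SH.κ0 hκ (SH.hx1 hx).le (SH.hx2 hx').le) (SH.hx1 hx).le (SH.hx2 hx') (covB00).cov (covB00).cov hx hx' c_A00pm_001_s3 cutA_nil (noExt_A)

noncomputable def cut_A00pm_011_s1 : Cut := Cut.of [[⟨4, 0, 0, 1449551462⟩], [⟨0, 0, 0, 67108864⟩, ⟨1, 1, 0, 67108864⟩, ⟨2, 1, 0, 67108864⟩]]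

noncomputable def f_A00pm_011_s1 : ℕ → ℕ → ℕ → ℕ → Bool := onCell 536870912 536870912 536870912 536870912 740881858 40050571
    (rowF 2 true true false .pnn 0 1 1 (qsf 0 536870912 536870912 536870912 1) ndB0q0 ndB0q1 pcB1 cut_A00pm_011_s1 Ext.none)

def k0_A00pm_011_s1 : ∃ t, chk3 f_A00pm_011_s1 t 1 1 1 = true :=
  ⟨(a (l 3) (b (l 3) (a (l 3) (b (l 3) (a (l 3) (b (l 3) (a (l 3) (b (l 3) (l 14))))))))), by decide +kernel⟩

theorem c_A00pm_011_s1 : CertF 0 536870912 536870912 536870912 740881858 40050571 true true false .pnn 0 1 1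
    ndB0q0 ndB0q1 pcB1 cut_A00pm_011_s1 Ext.none :=
  certF2 (fam := true) (s1 := true) (s2 := false) (a := 0) (b := 1) (c := 1) (cn := .pnn) (n1 := ndB0q0) (n2 := ndB0q1) (pc := pcB1) (cut := cut_A00pm_011_s1) (xt := Ext.none) (P1 := 0) (W1 := 536870912) (P2 := 536870912) (W2 := 536870912) (P3 := 740881858) (W3 := 40050571)
    rfl (fun _ => rfl) k0_A00pm_011_s1

theorem s_A00pm_011_s1 {κ x : ℝ} (hκ : κ * h0 = ken x) (hx : ((740881858 : ℕ) : ℝ) / S ≤ x)
    (hx' : x ≤ (((740881858 : ℕ) : ℝ) + (40050571 : ℕ)) / S)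
    (H : CutA (VFD κ) PP tK tL pcB (Cut.of [[⟨0, 0, 0, 67108864⟩, ⟨1, 1, 0, 67108864⟩, ⟨2, 1, 0, 67108864⟩]]) 0 1 1 0 0 (sgb true) (sgb false) x) :
    AltA (VFD κ) PP tK tL pcB [⟨3, 0, 0, 1449551462⟩] 0 1 1 0 0 (sgb true) (sgb false) x :=
  strip_altAD (m := 1449551462) true rfl hκ (SH.κ0 hκ (SH.hx1 hx).le (SH.hx2 hx').le) (SH.hx1 hx).le (SH.hx2 hx') (covB00).cov (covB01).cov hx hx' c_A00pm_011_s1 H (noExt_A)

noncomputable def cut_A00pm_011_s3 : Cut := Cut.of [[⟨3, 0, 0, 2845415833⟩], [⟨0, 0, 0, 67108864⟩, ⟨1, 1, 0, 67108864⟩, ⟨2, 1, 0, 67108864⟩]]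

noncomputable def f_A00pm_011_s3 : ℕ → ℕ → ℕ → ℕ → Bool := onCell 0 536870912 536870912 536870912 740881858 40050571
    (rowF 0 true true false .pnn 0 1 1 (qsf 0 536870912 536870912 536870912 1) ndB0q0 ndB0q1 pcB1 cut_A00pm_011_s3 Ext.none)

def k0_A00pm_011_s3 : ∃ t, chk3 f_A00pm_011_s3 t 1 1 1 = true :=
  ⟨(l 6), by decide +kernel⟩

theorem c_A00pm_011_s3 : CertF 0 536870912 536870912 536870912 740881858 40050571 true true false .pnn 0 1 1
    ndB0q0 ndB0q1 pcB1 cut_A00pm_011_s3 Ext.none :=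
  certF0 (fam := true) (s1 := true) (s2 := false) (a := 0) (b := 1) (c := 1) (cn := .pnn) (n1 := ndB0q0) (n2 := ndB0q1) (pc := pcB1) (cut := cut_A00pm_011_s3) (xt := Ext.none) (P1 := 0) (W1 := 536870912) (P2 := 536870912) (W2 := 536870912) (P3 := 740881858) (W3 := 40050571)
    rfl k0_A00pm_011_s3

theorem s_A00pm_011_s3 {κ x : ℝ} (hκ : κ * h0 = ken x) (hx : ((740881858 : ℕ) : ℝ) / S ≤ x)
    (hx' : x ≤ (((740881858 : ℕ) : ℝ) + (40050571 : ℕ)) / S)
    (H : CutA (VFD κ) PP tK tL pcB (Cut.of [[⟨0, 0, 0, 67108864⟩, ⟨1, 1, 0, 67108864⟩, ⟨2, 1, 0, 67108864⟩]]) 0 1 1 0 0 (sgb true) (sgb false) x) :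
    AltA (VFD κ) PP tK tL pcB [⟨4, 0, 0, 2845415833⟩] 0 1 1 0 0 (sgb true) (sgb false) x :=
  strip_altAD (m := 2845415833) false rfl hκ (SH.κ0 hκ (SH.hx1 hx).le (SH.hx2 hx').le) (SH.hx1 hx).le (SH.hx2 hx') (covB00).cov (covB01).cov hx hx' c_A00pm_011_s3 H (noExt_A)

end Pool.Agent.Strip051.G.I69_7273.Tab.St.C
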